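import Pool.Agent.Lib.MP_5854e1_co.DtD

/-!
# Windows and cells of the rings
-/

set_option autoImplicit false
set_option maxRecDepth 100000
set_option deprecated.oldSectionVars true

namespace Pool.Agent.Lib.MP_5854e1_co.Cz

open Pool.Agent.Lib.MP_5854e1_co

noncomputable section

noncomputable def tv818 : DT := (.nd (nat_lit 0) (.nd (nat_lit 1) (.nd (nat_lit 2) (.nd (nat_lit 3) (.nd (nat_lit 4) (.nd (nat_lit 5) (.nd (nat_lit 6) 
(.lf (nat_lit 59520) (.g (nat_lit 1449) (.e (nat_lit 1524) (nat_lit 108) (.e (nat_lit 336213) (nat_lit 13) (.e (nat_lit 393233) (nat_lit 17) (.e (nat_lit 7591) (nat_lit 407) (.e (nat_lit 81664) (nat_lit 0) (.e (nat_lit 7236) (nat_lit 382) (.e (nat_lit 1039) (nat_lit 81) .nil))))))) (.g (nat_lit 4) .nil .nil))) 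
(.lf (nat_lit 59584) (.g (nat_lit 3037) (.e (nat_lit 1524) (nat_lit 108) (.e (nat_lit 336213) (nat_lit 13) (.e (nat_lit 393301) (nat_lit 27) (.e (nat_lit 491560) (nat_lit 10) (.e (nat_lit 344175) (nat_lit 43) .nil))))) .nil))) (.nd (nat_lit 6) 
(.lf (nat_lit 59552) (.g (nat_lit 769) (.e (nat_lit 1524) (nat_lit 108) (.e (nat_lit 336213) (nat_lit 13) (.e (nat_lit 393298) (nat_lit 27) .nil))) .nil)) 
(.lf (nat_lit 59616) (.g (nat_lit 213) (.e (nat_lit 7936) (nat_lit 108) (.e (nat_lit 336051) (nat_lit 6) (.e (nat_lit 147495) (nat_lit 11) .nil))) .nil)))) (.nd (nat_lit 5) (.nd (nat_lit 6) 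
(.lf (nat_lit 59536) (.g (nat_lit 2902) (.e (nat_lit 1524) (nat_lit 108) (.e (nat_lit 336213) (nat_lit 13) (.e (nat_lit 393260) (nat_lit 21) (.e (nat_lit 409648) (nat_lit 18) (.e (nat_lit 303104) (nat_lit 0) (.e (nat_lit 3459) (nat_lit 216) (.e (nat_lit 688157) (nat_lit 13) .nil))))))) (.g (nat_lit 4) .nil .nil))) 
(.lf (nat_lit 59600) (.g (nat_lit 1909) (.e (nat_lit 1525) (nat_lit 108) (.e (nat_lit 336027) (nat_lit 3) (.e (nat_lit 98372) (nat_lit 29) (.e (nat_lit 450586) (nat_lit 10) .nil)))) .nil))) (.nd (nat_lit 6) 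
(.lf (nat_lit 59568) (.g (nat_lit 2045) (.e (nat_lit 1524) (nat_lit 108) (.e (nat_lit 336213) (nat_lit 13) (.e (nat_lit 393300) (nat_lit 27) (.e (nat_lit 491560) (nat_lit 10) (.e (nat_lit 344089) (nat_lit 18) (.e (nat_lit 7233) (nat_lit 382) (.e (nat_lit 1039) (nat_lit 81) .nil))))))) (.g (nat_lit 4) .nil .nil))) 
(.lf (nat_lit 59632) (.g (nat_lit 1095) (.e (nat_lit 1529) (nat_lit 109) (.e (nat_lit 344115) (nat_lit 20) (.e (nat_lit 507906) (nat_lit 0) (.e (nat_lit 5412) (nat_lit 303) (.e (nat_lit 73746) (nat_lit 3) (.e (nat_lit 516104) (nat_lit 0) (.e (nat_lit 7562) (nat_lit 402) .nil))))))) (.g (nat_lit 5) .nil .nil)))))) (.nd (nat_lit 4) (.nd (nat_lit 5) (.nd (nat_lit 6) 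
(.lf (nat_lit 59528) (.g (nat_lit 1948) (.e (nat_lit 1524) (nat_lit 108) (.e (nat_lit 336213) (nat_lit 13) (.e (nat_lit 393233) (nat_lit 17) (.e (nat_lit 7593) (nat_lit 407) (.e (nat_lit 73773) (nat_lit 25) (.e (nat_lit 770062) (nat_lit 5) .nil)))))) (.g (nat_lit 5) .nil .nil))) 
(.lf (nat_lit 59592) (.g (nat_lit 3556) (.e (nat_lit 1524) (nat_lit 108) (.e (nat_lit 336222) (nat_lit 13) (.e (nat_lit 393260) (nat_lit 21) (.e (nat_lit 409649) (nat_lit 18) (.e (nat_lit 303111) (nat_lit 0) (.e (nat_lit 3459) (nat_lit 216) (.e (nat_lit 688157) (nat_lit 13) .nil))))))) (.g (nat_lit 6) .nil .nil)))) (.nd (nat_lit 6) 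
(.lf (nat_lit 59560) (.g (nat_lit 1761) (.e (nat_lit 1524) (nat_lit 108) (.e (nat_lit 336213) (nat_lit 13) (.e (nat_lit 393300) (nat_lit 27) (.e (nat_lit 491558) (nat_lit 10) (.e (nat_lit 344095) (nat_lit 18) .nil))))) .nil)) 
(.lf (nat_lit 59624) (.g (nat_lit 342) (.e (nat_lit 7936) (nat_lit 108) (.e (nat_lit 336438) (nat_lit 31) (.e (nat_lit 466688) (nat_lit 4) .nil))) .nil)))) (.nd (nat_lit 5) (.nd (nat_lit 6) 
(.lf (nat_lit 59544) (.g (nat_lit 1888) (.e (nat_lit 1524) (nat_lit 108) (.e (nat_lit 336213) (nat_lit 13) (.e (nat_lit 393273) (nat_lit 23) (.e (nat_lit 426354) (nat_lit 15) .nil)))) .nil)) 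
(.lf (nat_lit 59608) (.g (nat_lit 900) (.e (nat_lit 1525) (nat_lit 108) (.e (nat_lit 336223) (nat_lit 13) (.e (nat_lit 393301) (nat_lit 27) .nil))) .nil))) (.nd (nat_lit 6) 
(.lf (nat_lit 59576) (.g (nat_lit 1507) (.e (nat_lit 1524) (nat_lit 108) (.e (nat_lit 336213) (nat_lit 13) (.e (nat_lit 393300) (nat_lit 27) (.e (nat_lit 491560) (nat_lit 10) (.e (nat_lit 352000) (nat_lit 18) .nil))))) .nil)) 
(.lf (nat_lit 59640) (.g (nat_lit 4386) (.e (nat_lit 1529) (nat_lit 109) (.e (nat_lit 344117) (nat_lit 21) (.e (nat_lit 516151) (nat_lit 9) (.e (nat_lit 426286) (nat_lit 10) (.e (nat_lit 434245) (nat_lit 28) (.e (nat_lit 573474) (nat_lit 12) (.e (nat_lit 57569) (nat_lit 53) (.e (nat_lit 761867) (nat_lit 5) .nil)))))))) (.g (nat_lit 6) .nil .nil))))))) 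
(.nd (nat_lit 3) (.nd (nat_lit 4) (.nd (nat_lit 5) (.nd (nat_lit 6) 
(.lf (nat_lit 59524) (.g (nat_lit 1759) (.e (nat_lit 1524) (nat_lit 108) (.e (nat_lit 336213) (nat_lit 13) (.e (nat_lit 393233) (nat_lit 17) (.e (nat_lit 7593) (nat_lit 407) (.e (nat_lit 73729) (nat_lit 0) (.e (nat_lit 7119) (nat_lit 382) (.e (nat_lit 1036) (nat_lit 81) .nil))))))) (.g (nat_lit 4) .nil .nil))) 
(.lf (nat_lit 59588) (.g (nat_lit 1351) (.e (nat_lit 1524) (nat_lit 108) (.e (nat_lit 336222) (nat_lit 13) (.e (nat_lit 393260) (nat_lit 21) (.e (nat_lit 409647) (nat_lit 18) .nil)))) .nil))) (.nd (nat_lit 6) 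
(.lf (nat_lit 59556) (.g (nat_lit 1944) (.e (nat_lit 1524) (nat_lit 108) (.e (nat_lit 336213) (nat_lit 13) (.e (nat_lit 393300) (nat_lit 27) (.e (nat_lit 491551) (nat_lit 9) (.e (nat_lit 335928) (nat_lit 0) .nil))))) .nil)) 
(.lf (nat_lit 59620) (.g (nat_lit 1795) (.e (nat_lit 7936) (nat_lit 108) (.e (nat_lit 336222) (nat_lit 13) (.e (nat_lit 393260) (nat_lit 21) (.e (nat_lit 409648) (nat_lit 18) (.e (nat_lit 303104) (nat_lit 0) .nil))))) .nil)))) (.nd (nat_lit 5) (.nd (nat_lit 6) 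
(.lf (nat_lit 59540) (.g (nat_lit 4046) (.e (nat_lit 1524) (nat_lit 108) (.e (nat_lit 336213) (nat_lit 13) (.e (nat_lit 393260) (nat_lit 21) (.e (nat_lit 409649) (nat_lit 18) (.e (nat_lit 303111) (nat_lit 0) (.e (nat_lit 3459) (nat_lit 216) (.e (nat_lit 688157) (nat_lit 13) .nil))))))) (.g (nat_lit 5) .nil .nil))) 
(.lf (nat_lit 59604) (.g (nat_lit 718) (.e (nat_lit 1525) (nat_lit 108) (.e (nat_lit 336215) (nat_lit 13) (.e (nat_lit 393229) (nat_lit 9) .nil))) .nil))) (.nd (nat_lit 6) 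
(.lf (nat_lit 59572) (.g (nat_lit 2333) (.e (nat_lit 1524) (nat_lit 108) (.e (nat_lit 336213) (nat_lit 13) (.e (nat_lit 393300) (nat_lit 27) (.e (nat_lit 491560) (nat_lit 10) (.e (nat_lit 344091) (nat_lit 18) (.e (nat_lit 7236) (nat_lit 382) (.e (nat_lit 1039) (nat_lit 81) .nil))))))) (.g (nat_lit 5) .nil .nil))) 
(.lf (nat_lit 59636) (.g (nat_lit 3580) (.e (nat_lit 1529) (nat_lit 109) (.e (nat_lit 344117) (nat_lit 21) (.e (nat_lit 516151) (nat_lit 9) (.e (nat_lit 426286) (nat_lit 10) (.e (nat_lit 434245) (nat_lit 28) (.e (nat_lit 573473) (nat_lit 12) (.e (nat_lit 57569) (nat_lit 53) (.e (nat_lit 761869) (nat_lit 5) .nil)))))))) (.g (nat_lit 6) .nil .nil)))))) 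
(.nd (nat_lit 4) (.nd (nat_lit 5) (.nd (nat_lit 6) 
(.lf (nat_lit 59532) (.g (nat_lit 1179) (.e (nat_lit 1524) (nat_lit 108) (.e (nat_lit 336213) (nat_lit 13) (.e (nat_lit 393259) (nat_lit 21) .nil))) .nil)) 
(.lf (nat_lit 59596) (.g (nat_lit 2001) (.e (nat_lit 1524) (nat_lit 108) (.e (nat_lit 336387) (nat_lit 27) (.e (nat_lit 426316) (nat_lit 12) (.e (nat_lit 475199) (nat_lit 40) (.e (nat_lit 704595) (nat_lit 5) (.e (nat_lit 188160) (nat_lit 32) .nil)))))) (.g (nat_lit 4) .nil .nil)))) (.nd (nat_lit 6) 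
(.lf (nat_lit 59564) (.g (nat_lit 2059) (.e (nat_lit 1524) (nat_lit 108) (.e (nat_lit 336213) (nat_lit 13) (.e (nat_lit 393300) (nat_lit 27) (.e (nat_lit 491558) (nat_lit 10) (.e (nat_lit 344174) (nat_lit 42) (.e (nat_lit 769792) (nat_lit 5) .nil)))))) (.g (nat_lit 4) .nil .nil))) 
(.lf (nat_lit 59628) (.g (nat_lit 2056) (.e (nat_lit 1526) (nat_lit 109) (.e (nat_lit 344133) (nat_lit 26) (.e (nat_lit 557105) (nat_lit 14) (.e (nat_lit 180251) (nat_lit 10) .nil)))) .nil)))) (.nd (nat_lit 5) (.nd (nat_lit 6) 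
(.lf (nat_lit 59548) (.g (nat_lit 461) (.e (nat_lit 1524) (nat_lit 108) (.e (nat_lit 336213) (nat_lit 13) (.e (nat_lit 393296) (nat_lit 26) .nil))) .nil)) 
(.lf (nat_lit 59612) (.g (nat_lit 2446) (.e (nat_lit 1525) (nat_lit 108) (.e (nat_lit 336223) (nat_lit 13) (.e (nat_lit 393301) (nat_lit 27) (.e (nat_lit 491560) (nat_lit 10) (.e (nat_lit 344177) (nat_lit 43) .nil))))) .nil))) (.nd (nat_lit 6) 
(.lf (nat_lit 59580) (.g (nat_lit 4398) (.e (nat_lit 1524) (nat_lit 108) (.e (nat_lit 336213) (nat_lit 13) (.e (nat_lit 393301) (nat_lit 27) (.e (nat_lit 491559) (nat_lit 10) (.e (nat_lit 344177) (nat_lit 43) (.e (nat_lit 770054) (nat_lit 5) .nil)))))) (.g (nat_lit 6) .nil .nil))) 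
(.lf (nat_lit 59644) (.g (nat_lit 2365) (.e (nat_lit 1529) (nat_lit 109) (.e (nat_lit 344117) (nat_lit 21) (.e (nat_lit 516151) (nat_lit 9) (.e (nat_lit 426286) (nat_lit 10) (.e (nat_lit 434247) (nat_lit 28) .nil))))) .nil))))))) (.nd (nat_lit 2) (.nd (nat_lit 3) (.nd (nat_lit 4) (.nd (nat_lit 5) (.nd (nat_lit 6) 
(.lf (nat_lit 59522) (.g (nat_lit 2003) (.e (nat_lit 1524) (nat_lit 108) (.e (nat_lit 336213) (nat_lit 13) (.e (nat_lit 393233) (nat_lit 17) (.e (nat_lit 7591) (nat_lit 407) (.e (nat_lit 73773) (nat_lit 25) (.e (nat_lit 770062) (nat_lit 5) .nil)))))) (.g (nat_lit 5) .nil .nil))) 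
(.lf (nat_lit 59586) (.g (nat_lit 1384) (.e (nat_lit 1524) (nat_lit 108) (.e (nat_lit 336222) (nat_lit 13) (.e (nat_lit 393260) (nat_lit 21) (.e (nat_lit 409616) (nat_lit 10) .nil)))) .nil))) (.nd (nat_lit 6) 
(.lf (nat_lit 59554) (.g (nat_lit 1273) (.e (nat_lit 1524) (nat_lit 108) (.e (nat_lit 336213) (nat_lit 13) (.e (nat_lit 393299) (nat_lit 27) (.e (nat_lit 491558) (nat_lit 10) .nil)))) .nil)) 
(.lf (nat_lit 59618) (.g (nat_lit 1904) (.e (nat_lit 7936) (nat_lit 108) (.e (nat_lit 336086) (nat_lit 9) (.e (nat_lit 336369) (nat_lit 27) (.e (nat_lit 426173) (nat_lit 7) (.e (nat_lit 409649) (nat_lit 18) .nil))))) .nil)))) (.nd (nat_lit 5) (.nd (nat_lit 6) 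
(.lf (nat_lit 59538) (.g (nat_lit 3293) (.e (nat_lit 1524) (nat_lit 108) (.e (nat_lit 336213) (nat_lit 13) (.e (nat_lit 393260) (nat_lit 21) (.e (nat_lit 409649) (nat_lit 18) (.e (nat_lit 303107) (nat_lit 0) .nil))))) .nil)) 
(.lf (nat_lit 59602) (.g (nat_lit 3276) (.e (nat_lit 1525) (nat_lit 108) (.e (nat_lit 336027) (nat_lit 3) (.e (nat_lit 98373) (nat_lit 29) (.e (nat_lit 450587) (nat_lit 10) (.e (nat_lit 573475) (nat_lit 12) .nil))))) .nil))) (.nd (nat_lit 6) 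
(.lf (nat_lit 59570) (.g (nat_lit 1576) (.e (nat_lit 1524) (nat_lit 108) (.e (nat_lit 336213) (nat_lit 13) (.e (nat_lit 393300) (nat_lit 27) (.e (nat_lit 491560) (nat_lit 10) (.e (nat_lit 344090) (nat_lit 18) (.e (nat_lit 7130) (nat_lit 382) (.e (nat_lit 1021) (nat_lit 81) .nil))))))) (.g (nat_lit 4) .nil .nil))) 
(.lf (nat_lit 59634) (.g (nat_lit 2260) (.e (nat_lit 1529) (nat_lit 109) (.e (nat_lit 344117) (nat_lit 21) (.e (nat_lit 516151) (nat_lit 9) (.e (nat_lit 426286) (nat_lit 10) (.e (nat_lit 434245) (nat_lit 28) .nil))))) .nil))))) (.nd (nat_lit 4) (.nd (nat_lit 5) (.nd (nat_lit 6) 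
(.lf (nat_lit 59530) (.g (nat_lit 1133) (.e (nat_lit 1524) (nat_lit 108) (.e (nat_lit 336213) (nat_lit 13) (.e (nat_lit 393237) (nat_lit 17) .nil))) .nil)) 
(.lf (nat_lit 59594) (.g (nat_lit 1480) (.e (nat_lit 1524) (nat_lit 108) (.e (nat_lit 336226) (nat_lit 14) (.e (nat_lit 401459) (nat_lit 13) (.e (nat_lit 483394) (nat_lit 24) .nil)))) .nil))) (.nd (nat_lit 6) 
(.lf (nat_lit 59562) (.g (nat_lit 1601) (.e (nat_lit 1524) (nat_lit 108) (.e (nat_lit 336213) (nat_lit 13) (.e (nat_lit 393300) (nat_lit 27) (.e (nat_lit 491558) (nat_lit 10) (.e (nat_lit 344096) (nat_lit 18) .nil))))) .nil)) 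
(.lf (nat_lit 59626) (.g (nat_lit 2175) (.e (nat_lit 1526) (nat_lit 109) (.e (nat_lit 344119) (nat_lit 21) (.e (nat_lit 516131) (nat_lit 3) (.e (nat_lit 221215) (nat_lit 23) (.e (nat_lit 204831) (nat_lit 18) (.e (nat_lit 57931) (nat_lit 282) (.e (nat_lit 163867) (nat_lit 2) (.e (nat_lit 196624) (nat_lit 9) .nil)))))))) (.g (nat_lit 4) .nil .nil))))) (.nd (nat_lit 5) (.nd (nat_lit 6) 
(.lf (nat_lit 59546) (.g (nat_lit 926) (.e (nat_lit 1524) (nat_lit 108) (.e (nat_lit 336213) (nat_lit 13) (.e (nat_lit 393281) (nat_lit 23) .nil))) .nil)) 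
(.lf (nat_lit 59610) (.g (nat_lit 3468) (.e (nat_lit 1525) (nat_lit 108) (.e (nat_lit 336223) (nat_lit 13) (.e (nat_lit 393301) (nat_lit 27) (.e (nat_lit 491560) (nat_lit 10) (.e (nat_lit 344090) (nat_lit 18) .nil))))) .nil))) (.nd (nat_lit 6) 
(.lf (nat_lit 59578) (.g (nat_lit 2221) (.e (nat_lit 1524) (nat_lit 108) (.e (nat_lit 336213) (nat_lit 13) (.e (nat_lit 393300) (nat_lit 27) (.e (nat_lit 491560) (nat_lit 10) (.e (nat_lit 344175) (nat_lit 43) (.e (nat_lit 770062) (nat_lit 5) .nil)))))) (.g (nat_lit 6) .nil .nil))) 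
(.lf (nat_lit 59642) (.g (nat_lit 2370) (.e (nat_lit 1529) (nat_lit 109) (.e (nat_lit 344117) (nat_lit 21) (.e (nat_lit 516151) (nat_lit 9) (.e (nat_lit 426286) (nat_lit 10) (.e (nat_lit 434245) (nat_lit 28) (.e (nat_lit 573474) (nat_lit 12) (.e (nat_lit 57572) (nat_lit 54) (.e (nat_lit 770055) (nat_lit 5) .nil)))))))) (.g (nat_lit 4) .nil .nil))))))) 
(.nd (nat_lit 3) (.nd (nat_lit 4) (.nd (nat_lit 5) (.nd (nat_lit 6) 
(.lf (nat_lit 59526) (.g (nat_lit 1432) (.e (nat_lit 1524) (nat_lit 108) (.e (nat_lit 336213) (nat_lit 13) (.e (nat_lit 393233) (nat_lit 17) (.e (nat_lit 7593) (nat_lit 407) (.e (nat_lit 81664) (nat_lit 0) (.e (nat_lit 7236) (nat_lit 382) (.e (nat_lit 1039) (nat_lit 81) .nil))))))) (.g (nat_lit 4) .nil .nil))) 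
(.lf (nat_lit 59590) (.g (nat_lit 2782) (.e (nat_lit 1524) (nat_lit 108) (.e (nat_lit 336222) (nat_lit 13) (.e (nat_lit 393260) (nat_lit 21) (.e (nat_lit 409648) (nat_lit 18) (.e (nat_lit 303107) (nat_lit 0) (.e (nat_lit 3459) (nat_lit 216) (.e (nat_lit 688157) (nat_lit 13) .nil))))))) (.g (nat_lit 7) .nil .nil)))) (.nd (nat_lit 6) 
(.lf (nat_lit 59558) (.g (nat_lit 1661) (.e (nat_lit 1524) (nat_lit 108) (.e (nat_lit 336213) (nat_lit 13) (.e (nat_lit 393300) (nat_lit 27) (.e (nat_lit 491558) (nat_lit 10) (.e (nat_lit 344090) (nat_lit 18) (.e (nat_lit 7119) (nat_lit 382) (.e (nat_lit 1036) (nat_lit 81) .nil))))))) (.g (nat_lit 4) .nil .nil))) 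
(.lf (nat_lit 59622) (.g (nat_lit 2337) (.e (nat_lit 7936) (nat_lit 108) (.e (nat_lit 336222) (nat_lit 13) (.e (nat_lit 393260) (nat_lit 21) (.e (nat_lit 409649) (nat_lit 18) (.e (nat_lit 303107) (nat_lit 0) .nil))))) .nil)))) (.nd (nat_lit 5) (.nd (nat_lit 6) 
(.lf (nat_lit 59542) (.g (nat_lit 1184) (.e (nat_lit 1524) (nat_lit 108) (.e (nat_lit 336213) (nat_lit 13) (.e (nat_lit 393264) (nat_lit 22) .nil))) .nil)) 
(.lf (nat_lit 59606) (.g (nat_lit 947) (.e (nat_lit 1525) (nat_lit 108) (.e (nat_lit 336223) (nat_lit 13) (.e (nat_lit 393234) (nat_lit 17) .nil))) .nil))) (.nd (nat_lit 6) 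
(.lf (nat_lit 59574) (.g (nat_lit 1670) (.e (nat_lit 1524) (nat_lit 108) (.e (nat_lit 336213) (nat_lit 13) (.e (nat_lit 393300) (nat_lit 27) (.e (nat_lit 491560) (nat_lit 10) (.e (nat_lit 344094) (nat_lit 18) .nil))))) .nil)) 
(.lf (nat_lit 59638) (.g (nat_lit 4037) (.e (nat_lit 1529) (nat_lit 109) (.e (nat_lit 344117) (nat_lit 21) (.e (nat_lit 516151) (nat_lit 9) (.e (nat_lit 426286) (nat_lit 10) (.e (nat_lit 434245) (nat_lit 28) (.e (nat_lit 573474) (nat_lit 12) (.e (nat_lit 57568) (nat_lit 53) (.e (nat_lit 761866) (nat_lit 5) .nil)))))))) (.g (nat_lit 6) .nil .nil)))))) 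
(.nd (nat_lit 4) (.nd (nat_lit 5) (.nd (nat_lit 6) 
(.lf (nat_lit 59534) (.g (nat_lit 2765) (.e (nat_lit 1524) (nat_lit 108) (.e (nat_lit 336213) (nat_lit 13) (.e (nat_lit 393259) (nat_lit 21) (.e (nat_lit 409646) (nat_lit 18) (.e (nat_lit 303111) (nat_lit 0) .nil))))) .nil)) 
(.lf (nat_lit 59598) (.g (nat_lit 2287) (.e (nat_lit 1525) (nat_lit 108) (.e (nat_lit 336012) (nat_lit 2) (.e (nat_lit 90176) (nat_lit 15) (.e (nat_lit 188450) (nat_lit 23) (.e (nat_lit 204817) (nat_lit 17) .nil))))) .nil))) (.nd (nat_lit 6) 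
(.lf (nat_lit 59566) (.g (nat_lit 1830) (.e (nat_lit 1524) (nat_lit 108) (.e (nat_lit 336213) (nat_lit 13) (.e (nat_lit 393300) (nat_lit 27) (.e (nat_lit 491558) (nat_lit 10) (.e (nat_lit 344177) (nat_lit 43) .nil))))) .nil)) 
(.lf (nat_lit 59630) (.g (nat_lit 3218) (.e (nat_lit 1526) (nat_lit 109) (.e (nat_lit 344133) (nat_lit 26) (.e (nat_lit 557105) (nat_lit 14) (.e (nat_lit 180252) (nat_lit 10) (.e (nat_lit 573474) (nat_lit 12) (.e (nat_lit 57347) (nat_lit 0) (.e (nat_lit 5584) (nat_lit 310) (.e (nat_lit 163867) (nat_lit 2) (.e (nat_lit 196624) (nat_lit 9) .nil))))))))) (.g (nat_lit 4) .nil .nil))))) 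
(.nd (nat_lit 5) (.nd (nat_lit 6) 
(.lf (nat_lit 59550) (.g (nat_lit 2236) (.e (nat_lit 1524) (nat_lit 108) (.e (nat_lit 336213) (nat_lit 13) (.e (nat_lit 393296) (nat_lit 26) (.e (nat_lit 475193) (nat_lit 38) (.e (nat_lit 688166) (nat_lit 15) (.e (nat_lit 57521) (nat_lit 44) (.e (nat_lit 688156) (nat_lit 13) .nil))))))) (.g (nat_lit 5) .nil .nil))) 
(.lf (nat_lit 59614) (.g (nat_lit 1619) (.e (nat_lit 7936) (nat_lit 108) (.e (nat_lit 336051) (nat_lit 6) (.e (nat_lit 147467) (nat_lit 9) (.e (nat_lit 312) (nat_lit 23) (.e (nat_lit 352258) (nat_lit 0) .nil))))) .nil))) (.nd (nat_lit 6) 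
(.lf (nat_lit 59582) (.g (nat_lit 4670) (.e (nat_lit 1524) (nat_lit 108) (.e (nat_lit 336213) (nat_lit 13) (.e (nat_lit 393301) (nat_lit 27) (.e (nat_lit 491559) (nat_lit 10) (.e (nat_lit 344177) (nat_lit 43) (.e (nat_lit 770062) (nat_lit 5) .nil)))))) (.g (nat_lit 0) .nil .nil))) 
(.lf (nat_lit 59646) (.g (nat_lit 3354) (.e (nat_lit 1529) (nat_lit 109) (.e (nat_lit 344117) (nat_lit 21) (.e (nat_lit 516151) (nat_lit 9) (.e (nat_lit 426286) (nat_lit 10) (.e (nat_lit 434247) (nat_lit 28) (.e (nat_lit 573478) (nat_lit 12) (.e (nat_lit 57568) (nat_lit 53) (.e (nat_lit 761867) (nat_lit 5) .nil)))))))) (.g (nat_lit 6) .nil .nil))))))))) 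
(.nd (nat_lit 1) (.nd (nat_lit 2) (.nd (nat_lit 3) (.nd (nat_lit 4) (.nd (nat_lit 5) 
(.nd (nat_lit 6) 
(.lf (nat_lit 59521) (.g (nat_lit 1474) (.e (nat_lit 1524) (nat_lit 108) (.e (nat_lit 336213) (nat_lit 13) (.e (nat_lit 393233) (nat_lit 17) (.e (nat_lit 7591) (nat_lit 407) (.e (nat_lit 73772) (nat_lit 24) .nil))))) .nil)) 
(.lf (nat_lit 59585) (.g (nat_lit 3650) (.e (nat_lit 1524) (nat_lit 108) (.e (nat_lit 336213) (nat_lit 13) (.e (nat_lit 393301) (nat_lit 27) (.e (nat_lit 491560) (nat_lit 10) (.e (nat_lit 344177) (nat_lit 43) .nil))))) .nil))) (.nd (nat_lit 6) 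
(.lf (nat_lit 59553) (.g (nat_lit 1533) (.e (nat_lit 1524) (nat_lit 108) (.e (nat_lit 336213) (nat_lit 13) (.e (nat_lit 393298) (nat_lit 27) (.e (nat_lit 491566) (nat_lit 12) .nil)))) .nil)) 
(.lf (nat_lit 59617) (.g (nat_lit 1843) (.e (nat_lit 7936) (nat_lit 108) (.e (nat_lit 336085) (nat_lit 9) (.e (nat_lit 336369) (nat_lit 27) (.e (nat_lit 426173) (nat_lit 7) (.e (nat_lit 409649) (nat_lit 18) .nil))))) .nil)))) (.nd (nat_lit 5) (.nd (nat_lit 6) 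
(.lf (nat_lit 59537) (.g (nat_lit 3249) (.e (nat_lit 1524) (nat_lit 108) (.e (nat_lit 336213) (nat_lit 13) (.e (nat_lit 393260) (nat_lit 21) (.e (nat_lit 409648) (nat_lit 18) (.e (nat_lit 303107) (nat_lit 0) (.e (nat_lit 3459) (nat_lit 216) (.e (nat_lit 688157) (nat_lit 13) .nil))))))) (.g (nat_lit 4) .nil .nil))) 
(.lf (nat_lit 59601) (.g (nat_lit 3927) (.e (nat_lit 1525) (nat_lit 108) (.e (nat_lit 336027) (nat_lit 3) (.e (nat_lit 98373) (nat_lit 29) (.e (nat_lit 450587) (nat_lit 10) (.e (nat_lit 573473) (nat_lit 12) .nil))))) .nil))) (.nd (nat_lit 6) 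
(.lf (nat_lit 59569) (.g (nat_lit 1665) (.e (nat_lit 1524) (nat_lit 108) (.e (nat_lit 336213) (nat_lit 13) (.e (nat_lit 393300) (nat_lit 27) (.e (nat_lit 491560) (nat_lit 10) (.e (nat_lit 344090) (nat_lit 18) (.e (nat_lit 7130) (nat_lit 382) (.e (nat_lit 1020) (nat_lit 81) .nil))))))) (.g (nat_lit 4) .nil .nil))) 
(.lf (nat_lit 59633) (.g (nat_lit 4382) (.e (nat_lit 1529) (nat_lit 109) (.e (nat_lit 344117) (nat_lit 21) (.e (nat_lit 516151) (nat_lit 9) (.e (nat_lit 426211) (nat_lit 9) .nil)))) .nil))))) (.nd (nat_lit 4) (.nd (nat_lit 5) (.nd (nat_lit 6) 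
(.lf (nat_lit 59529) (.g (nat_lit 672) (.e (nat_lit 1524) (nat_lit 108) (.e (nat_lit 336213) (nat_lit 13) (.e (nat_lit 393234) (nat_lit 17) .nil))) .nil)) 
(.lf (nat_lit 59593) (.g (nat_lit 2320) (.e (nat_lit 1524) (nat_lit 108) (.e (nat_lit 336223) (nat_lit 13) (.e (nat_lit 393301) (nat_lit 27) (.e (nat_lit 491560) (nat_lit 10) (.e (nat_lit 344177) (nat_lit 43) .nil))))) .nil))) (.nd (nat_lit 6) 
(.lf (nat_lit 59561) (.g (nat_lit 1824) (.e (nat_lit 1524) (nat_lit 108) (.e (nat_lit 336213) (nat_lit 13) (.e (nat_lit 393300) (nat_lit 27) (.e (nat_lit 491558) (nat_lit 10) (.e (nat_lit 344095) (nat_lit 18) (.e (nat_lit 7122) (nat_lit 382) (.e (nat_lit 1036) (nat_lit 81) .nil))))))) (.g (nat_lit 4) .nil .nil))) 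
(.lf (nat_lit 59625) (.g (nat_lit 2109) (.e (nat_lit 1526) (nat_lit 109) (.e (nat_lit 344119) (nat_lit 21) (.e (nat_lit 516131) (nat_lit 3) (.e (nat_lit 221215) (nat_lit 23) (.e (nat_lit 204829) (nat_lit 18) (.e (nat_lit 57927) (nat_lit 282) (.e (nat_lit 163868) (nat_lit 2) (.e (nat_lit 196624) (nat_lit 9) .nil)))))))) (.g (nat_lit 4) .nil .nil))))) (.nd (nat_lit 5) (.nd (nat_lit 6) 
(.lf (nat_lit 59545) (.g (nat_lit 1249) (.e (nat_lit 1524) (nat_lit 108) (.e (nat_lit 336213) (nat_lit 13) (.e (nat_lit 393273) (nat_lit 23) (.e (nat_lit 426364) (nat_lit 15) .nil)))) .nil)) 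
(.lf (nat_lit 59609) (.g (nat_lit 3233) (.e (nat_lit 1525) (nat_lit 108) (.e (nat_lit 336223) (nat_lit 13) (.e (nat_lit 393301) (nat_lit 27) (.e (nat_lit 491558) (nat_lit 10) (.e (nat_lit 344096) (nat_lit 18) .nil))))) .nil))) (.nd (nat_lit 6) 
(.lf (nat_lit 59577) (.g (nat_lit 1825) (.e (nat_lit 1524) (nat_lit 108) (.e (nat_lit 336213) (nat_lit 13) (.e (nat_lit 393300) (nat_lit 27) (.e (nat_lit 491560) (nat_lit 10) (.e (nat_lit 344174) (nat_lit 42) (.e (nat_lit 769792) (nat_lit 5) .nil)))))) (.g (nat_lit 4) .nil .nil))) 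
(.lf (nat_lit 59641) (.g (nat_lit 3153) (.e (nat_lit 1529) (nat_lit 109) (.e (nat_lit 344117) (nat_lit 21) (.e (nat_lit 516151) (nat_lit 9) (.e (nat_lit 426286) (nat_lit 10) (.e (nat_lit 434245) (nat_lit 28) (.e (nat_lit 573474) (nat_lit 12) (.e (nat_lit 57569) (nat_lit 53) (.e (nat_lit 761869) (nat_lit 5) .nil)))))))) (.g (nat_lit 5) .nil .nil))))))) 
(.nd (nat_lit 3) (.nd (nat_lit 4) (.nd (nat_lit 5) (.nd (nat_lit 6) 
(.lf (nat_lit 59525) (.g (nat_lit 1624) (.e (nat_lit 1524) (nat_lit 108) (.e (nat_lit 336213) (nat_lit 13) (.e (nat_lit 393233) (nat_lit 17) (.e (nat_lit 7593) (nat_lit 407) (.e (nat_lit 73730) (nat_lit 0) .nil))))) .nil)) 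
(.lf (nat_lit 59589) (.g (nat_lit 1922) (.e (nat_lit 1524) (nat_lit 108) (.e (nat_lit 336222) (nat_lit 13) (.e (nat_lit 393260) (nat_lit 21) (.e (nat_lit 409648) (nat_lit 18) (.e (nat_lit 303107) (nat_lit 0) .nil))))) .nil))) (.nd (nat_lit 6) 
(.lf (nat_lit 59557) (.g (nat_lit 946) (.e (nat_lit 1524) (nat_lit 108) (.e (nat_lit 336213) (nat_lit 13) (.e (nat_lit 393300) (nat_lit 27) (.e (nat_lit 491558) (nat_lit 10) .nil)))) .nil)) 
(.lf (nat_lit 59621) (.g (nat_lit 1856) (.e (nat_lit 7936) (nat_lit 108) (.e (nat_lit 336222) (nat_lit 13) (.e (nat_lit 393260) (nat_lit 21) (.e (nat_lit 409648) (nat_lit 18) (.e (nat_lit 303107) (nat_lit 0) .nil))))) .nil)))) (.nd (nat_lit 5) (.nd (nat_lit 6) 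
(.lf (nat_lit 59541) (.g (nat_lit 1180) (.e (nat_lit 1524) (nat_lit 108) (.e (nat_lit 336213) (nat_lit 13) (.e (nat_lit 393263) (nat_lit 22) .nil))) .nil)) 
(.lf (nat_lit 59605) (.g (nat_lit 2003) (.e (nat_lit 1525) (nat_lit 108) (.e (nat_lit 336222) (nat_lit 13) (.e (nat_lit 393260) (nat_lit 21) (.e (nat_lit 409649) (nat_lit 18) (.e (nat_lit 303115) (nat_lit 1) .nil))))) .nil))) (.nd (nat_lit 6) 
(.lf (nat_lit 59573) (.g (nat_lit 1678) (.e (nat_lit 1524) (nat_lit 108) (.e (nat_lit 336213) (nat_lit 13) (.e (nat_lit 393300) (nat_lit 27) (.e (nat_lit 491560) (nat_lit 10) (.e (nat_lit 344091) (nat_lit 18) (.e (nat_lit 7236) (nat_lit 382) (.e (nat_lit 1040) (nat_lit 81) .nil))))))) (.g (nat_lit 4) .nil .nil))) 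
(.lf (nat_lit 59637) (.g (nat_lit 2332) (.e (nat_lit 1529) (nat_lit 109) (.e (nat_lit 344117) (nat_lit 21) (.e (nat_lit 516151) (nat_lit 9) (.e (nat_lit 426286) (nat_lit 10) (.e (nat_lit 434245) (nat_lit 28) (.e (nat_lit 573474) (nat_lit 12) (.e (nat_lit 57347) (nat_lit 0) (.e (nat_lit 7124) (nat_lit 382) (.e (nat_lit 1016) (nat_lit 81) .nil))))))))) (.g (nat_lit 4) .nil .nil)))))) 
(.nd (nat_lit 4) (.nd (nat_lit 5) (.nd (nat_lit 6) 
(.lf (nat_lit 59533) (.g (nat_lit 2624) (.e (nat_lit 1524) (nat_lit 108) (.e (nat_lit 336213) (nat_lit 13) (.e (nat_lit 393259) (nat_lit 21) (.e (nat_lit 409645) (nat_lit 18) (.e (nat_lit 303111) (nat_lit 0) .nil))))) .nil)) 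
(.lf (nat_lit 59597) (.g (nat_lit 2200) (.e (nat_lit 1525) (nat_lit 108) (.e (nat_lit 336011) (nat_lit 2) (.e (nat_lit 90170) (nat_lit 13) (.e (nat_lit 172106) (nat_lit 10) (.e (nat_lit 434244) (nat_lit 28) .nil))))) .nil))) (.nd (nat_lit 6) 
(.lf (nat_lit 59565) (.g (nat_lit 2074) (.e (nat_lit 1524) (nat_lit 108) (.e (nat_lit 336213) (nat_lit 13) (.e (nat_lit 393300) (nat_lit 27) (.e (nat_lit 491558) (nat_lit 10) (.e (nat_lit 344175) (nat_lit 43) .nil))))) .nil)) 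
(.lf (nat_lit 59629) (.g (nat_lit 3124) (.e (nat_lit 1526) (nat_lit 109) (.e (nat_lit 344133) (nat_lit 26) (.e (nat_lit 557105) (nat_lit 14) (.e (nat_lit 180252) (nat_lit 10) (.e (nat_lit 573474) (nat_lit 12) .nil))))) .nil)))) (.nd (nat_lit 5) (.nd (nat_lit 6) 
(.lf (nat_lit 59549) (.g (nat_lit 2893) (.e (nat_lit 1524) (nat_lit 108) (.e (nat_lit 336213) (nat_lit 13) (.e (nat_lit 393296) (nat_lit 26) (.e (nat_lit 475193) (nat_lit 38) (.e (nat_lit 688166) (nat_lit 15) (.e (nat_lit 57521) (nat_lit 44) (.e (nat_lit 688154) (nat_lit 13) .nil))))))) (.g (nat_lit 7) .nil .nil))) 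
(.lf (nat_lit 59613) (.g (nat_lit 2003) (.e (nat_lit 7936) (nat_lit 108) (.e (nat_lit 336051) (nat_lit 6) (.e (nat_lit 147466) (nat_lit 9) (.e (nat_lit 312) (nat_lit 23) (.e (nat_lit 352258) (nat_lit 0) .nil))))) .nil))) (.nd (nat_lit 6) 
(.lf (nat_lit 59581) (.g (nat_lit 4318) (.e (nat_lit 1524) (nat_lit 108) (.e (nat_lit 336213) (nat_lit 13) (.e (nat_lit 393301) (nat_lit 27) (.e (nat_lit 491559) (nat_lit 10) (.e (nat_lit 344177) (nat_lit 43) (.e (nat_lit 770061) (nat_lit 5) .nil)))))) (.g (nat_lit 5) .nil .nil))) 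
(.lf (nat_lit 59645) (.g (nat_lit 3234) (.e (nat_lit 1529) (nat_lit 109) (.e (nat_lit 344117) (nat_lit 21) (.e (nat_lit 516151) (nat_lit 9) (.e (nat_lit 426286) (nat_lit 10) (.e (nat_lit 434247) (nat_lit 28) (.e (nat_lit 573478) (nat_lit 12) (.e (nat_lit 57568) (nat_lit 53) (.e (nat_lit 761866) (nat_lit 5) .nil)))))))) (.g (nat_lit 6) .nil .nil)))))))) 
(.nd (nat_lit 2) (.nd (nat_lit 3) (.nd (nat_lit 4) (.nd (nat_lit 5) (.nd (nat_lit 6) 
(.lf (nat_lit 59523) (.g (nat_lit 759) (.e (nat_lit 1524) (nat_lit 108) (.e (nat_lit 336213) (nat_lit 13) (.e (nat_lit 393233) (nat_lit 17) (.e (nat_lit 7593) (nat_lit 407) .nil)))) .nil)) 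
(.lf (nat_lit 59587) (.g (nat_lit 2290) (.e (nat_lit 1524) (nat_lit 108) (.e (nat_lit 336222) (nat_lit 13) (.e (nat_lit 393260) (nat_lit 21) (.e (nat_lit 409646) (nat_lit 18) (.e (nat_lit 303111) (nat_lit 0) (.e (nat_lit 3459) (nat_lit 216) (.e (nat_lit 688157) (nat_lit 13) .nil))))))) (.g (nat_lit 5) .nil .nil)))) (.nd (nat_lit 6) 
(.lf (nat_lit 59555) (.g (nat_lit 995) (.e (nat_lit 1524) (nat_lit 108) (.e (nat_lit 336213) (nat_lit 13) (.e (nat_lit 393299) (nat_lit 27) (.e (nat_lit 491560) (nat_lit 10) .nil)))) .nil)) 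
(.lf (nat_lit 59619) (.g (nat_lit 1718) (.e (nat_lit 7936) (nat_lit 108) (.e (nat_lit 336222) (nat_lit 13) (.e (nat_lit 393260) (nat_lit 21) (.e (nat_lit 409646) (nat_lit 18) (.e (nat_lit 303111) (nat_lit 0) .nil))))) .nil)))) (.nd (nat_lit 5) (.nd (nat_lit 6) 
(.lf (nat_lit 59539) (.g (nat_lit 3036) (.e (nat_lit 1524) (nat_lit 108) (.e (nat_lit 336213) (nat_lit 13) (.e (nat_lit 393260) (nat_lit 21) (.e (nat_lit 409649) (nat_lit 18) (.e (nat_lit 303111) (nat_lit 0) .nil))))) .nil)) 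
(.lf (nat_lit 59603) (.g (nat_lit 3351) (.e (nat_lit 1525) (nat_lit 108) (.e (nat_lit 336027) (nat_lit 3) (.e (nat_lit 98373) (nat_lit 29) (.e (nat_lit 450588) (nat_lit 10) (.e (nat_lit 573475) (nat_lit 12) .nil))))) .nil))) (.nd (nat_lit 6) 
(.lf (nat_lit 59571) (.g (nat_lit 1915) (.e (nat_lit 1524) (nat_lit 108) (.e (nat_lit 336213) (nat_lit 13) (.e (nat_lit 393300) (nat_lit 27) (.e (nat_lit 491560) (nat_lit 10) (.e (nat_lit 344091) (nat_lit 18) (.e (nat_lit 7119) (nat_lit 382) (.e (nat_lit 1036) (nat_lit 81) .nil))))))) (.g (nat_lit 4) .nil .nil))) 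
(.lf (nat_lit 59635) (.g (nat_lit 4501) (.e (nat_lit 1529) (nat_lit 109) (.e (nat_lit 344117) (nat_lit 21) (.e (nat_lit 516151) (nat_lit 9) (.e (nat_lit 426286) (nat_lit 10) (.e (nat_lit 434245) (nat_lit 28) (.e (nat_lit 573473) (nat_lit 12) (.e (nat_lit 57569) (nat_lit 53) (.e (nat_lit 761867) (nat_lit 5) .nil)))))))) (.g (nat_lit 8) .nil .nil)))))) 
(.nd (nat_lit 4) (.nd (nat_lit 5) (.nd (nat_lit 6) 
(.lf (nat_lit 59531) (.g (nat_lit 962) (.e (nat_lit 1524) (nat_lit 108) (.e (nat_lit 336213) (nat_lit 13) (.e (nat_lit 393249) (nat_lit 17) .nil))) .nil)) 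
(.lf (nat_lit 59595) (.g (nat_lit 1307) (.e (nat_lit 1524) (nat_lit 108) (.e (nat_lit 336226) (nat_lit 14) (.e (nat_lit 401459) (nat_lit 13) (.e (nat_lit 483395) (nat_lit 24) .nil)))) .nil))) (.nd (nat_lit 6) 
(.lf (nat_lit 59563) (.g (nat_lit 1918) (.e (nat_lit 1524) (nat_lit 108) (.e (nat_lit 336213) (nat_lit 13) (.e (nat_lit 393300) (nat_lit 27) (.e (nat_lit 491558) (nat_lit 10) (.e (nat_lit 344096) (nat_lit 18) (.e (nat_lit 7236) (nat_lit 382) (.e (nat_lit 1039) (nat_lit 81) .nil))))))) (.g (nat_lit 4) .nil .nil))) 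
(.lf (nat_lit 59627) (.g (nat_lit 1214) (.e (nat_lit 1526) (nat_lit 109) (.e (nat_lit 344119) (nat_lit 21) (.e (nat_lit 516139) (nat_lit 7) (.e (nat_lit 409643) (nat_lit 18) .nil)))) .nil)))) (.nd (nat_lit 5) (.nd (nat_lit 6) 
(.lf (nat_lit 59547) (.g (nat_lit 1574) (.e (nat_lit 1524) (nat_lit 108) (.e (nat_lit 336213) (nat_lit 13) (.e (nat_lit 393281) (nat_lit 23) (.e (nat_lit 426100) (nat_lit 1) .nil)))) .nil)) 
(.lf (nat_lit 59611) (.g (nat_lit 3251) (.e (nat_lit 1525) (nat_lit 108) (.e (nat_lit 336223) (nat_lit 13) (.e (nat_lit 393301) (nat_lit 27) (.e (nat_lit 491560) (nat_lit 10) (.e (nat_lit 344094) (nat_lit 18) .nil))))) .nil))) (.nd (nat_lit 6) 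
(.lf (nat_lit 59579) (.g (nat_lit 1603) (.e (nat_lit 1524) (nat_lit 108) (.e (nat_lit 336213) (nat_lit 13) (.e (nat_lit 393301) (nat_lit 27) (.e (nat_lit 491558) (nat_lit 10) .nil)))) .nil)) 
(.lf (nat_lit 59643) (.g (nat_lit 2463) (.e (nat_lit 1529) (nat_lit 109) (.e (nat_lit 344117) (nat_lit 21) (.e (nat_lit 516151) (nat_lit 9) (.e (nat_lit 426286) (nat_lit 10) (.e (nat_lit 434245) (nat_lit 28) (.e (nat_lit 573474) (nat_lit 12) (.e (nat_lit 57572) (nat_lit 54) (.e (nat_lit 770058) (nat_lit 5) .nil)))))))) (.g (nat_lit 4) .nil .nil))))))) 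
(.nd (nat_lit 3) (.nd (nat_lit 4) (.nd (nat_lit 5) (.nd (nat_lit 6) 
(.lf (nat_lit 59527) (.g (nat_lit 1444) (.e (nat_lit 1524) (nat_lit 108) (.e (nat_lit 336213) (nat_lit 13) (.e (nat_lit 393233) (nat_lit 17) (.e (nat_lit 7593) (nat_lit 407) (.e (nat_lit 73772) (nat_lit 24) .nil))))) .nil)) 
(.lf (nat_lit 59591) (.g (nat_lit 2184) (.e (nat_lit 1524) (nat_lit 108) (.e (nat_lit 336222) (nat_lit 13) (.e (nat_lit 393260) (nat_lit 21) (.e (nat_lit 409649) (nat_lit 18) (.e (nat_lit 303111) (nat_lit 0) (.e (nat_lit 3459) (nat_lit 216) (.e (nat_lit 688156) (nat_lit 13) .nil))))))) (.g (nat_lit 4) .nil .nil)))) (.nd (nat_lit 6) 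
(.lf (nat_lit 59559) (.g (nat_lit 2293) (.e (nat_lit 1524) (nat_lit 108) (.e (nat_lit 336213) (nat_lit 13) (.e (nat_lit 393300) (nat_lit 27) (.e (nat_lit 491558) (nat_lit 10) (.e (nat_lit 344090) (nat_lit 18) (.e (nat_lit 7236) (nat_lit 382) (.e (nat_lit 1039) (nat_lit 81) .nil))))))) (.g (nat_lit 5) .nil .nil))) 
(.lf (nat_lit 59623) (.g (nat_lit 1258) (.e (nat_lit 7936) (nat_lit 108) (.e (nat_lit 336369) (nat_lit 27) (.e (nat_lit 426173) (nat_lit 7) (.e (nat_lit 409617) (nat_lit 10) .nil)))) .nil)))) (.nd (nat_lit 5) (.nd (nat_lit 6) 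
(.lf (nat_lit 59543) (.g (nat_lit 1102) (.e (nat_lit 1524) (nat_lit 108) (.e (nat_lit 336213) (nat_lit 13) (.e (nat_lit 393265) (nat_lit 22) .nil))) .nil)) 
(.lf (nat_lit 59607) (.g (nat_lit 1814) (.e (nat_lit 1525) (nat_lit 108) (.e (nat_lit 336223) (nat_lit 13) (.e (nat_lit 393234) (nat_lit 17) (.e (nat_lit 7591) (nat_lit 407) .nil)))) .nil))) (.nd (nat_lit 6) 
(.lf (nat_lit 59575) (.g (nat_lit 1762) (.e (nat_lit 1524) (nat_lit 108) (.e (nat_lit 336213) (nat_lit 13) (.e (nat_lit 393300) (nat_lit 27) (.e (nat_lit 491560) (nat_lit 10) (.e (nat_lit 344096) (nat_lit 18) .nil))))) .nil)) 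
(.lf (nat_lit 59639) (.g (nat_lit 4166) (.e (nat_lit 1529) (nat_lit 109) (.e (nat_lit 344117) (nat_lit 21) (.e (nat_lit 516151) (nat_lit 9) (.e (nat_lit 426286) (nat_lit 10) (.e (nat_lit 434245) (nat_lit 28) (.e (nat_lit 573474) (nat_lit 12) (.e (nat_lit 57568) (nat_lit 53) (.e (nat_lit 761867) (nat_lit 5) .nil)))))))) (.g (nat_lit 6) .nil .nil)))))) 
(.nd (nat_lit 4) (.nd (nat_lit 5) (.nd (nat_lit 6) 
(.lf (nat_lit 59535) (.g (nat_lit 2432) (.e (nat_lit 1524) (nat_lit 108) (.e (nat_lit 336213) (nat_lit 13) (.e (nat_lit 393260) (nat_lit 21) (.e (nat_lit 409646) (nat_lit 18) (.e (nat_lit 303111) (nat_lit 0) (.e (nat_lit 3459) (nat_lit 216) (.e (nat_lit 688157) (nat_lit 13) .nil))))))) (.g (nat_lit 4) .nil .nil))) 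
(.lf (nat_lit 59599) (.g (nat_lit 1758) (.e (nat_lit 1525) (nat_lit 108) (.e (nat_lit 336025) (nat_lit 3) (.e (nat_lit 98373) (nat_lit 29) (.e (nat_lit 450587) (nat_lit 10) (.e (nat_lit 573475) (nat_lit 12) .nil))))) .nil))) (.nd (nat_lit 6) 
(.lf (nat_lit 59567) (.g (nat_lit 937) (.e (nat_lit 1524) (nat_lit 108) (.e (nat_lit 336213) (nat_lit 13) (.e (nat_lit 393300) (nat_lit 27) (.e (nat_lit 491560) (nat_lit 10) .nil)))) .nil)) 
(.lf (nat_lit 59631) (.g (nat_lit 3374) (.e (nat_lit 1526) (nat_lit 109) (.e (nat_lit 344133) (nat_lit 26) (.e (nat_lit 557105) (nat_lit 14) (.e (nat_lit 180252) (nat_lit 10) (.e (nat_lit 573474) (nat_lit 12) (.e (nat_lit 57348) (nat_lit 0) (.e (nat_lit 5593) (nat_lit 310) (.e (nat_lit 163868) (nat_lit 2) (.e (nat_lit 196624) (nat_lit 9) .nil))))))))) (.g (nat_lit 4) .nil .nil))))) 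
(.nd (nat_lit 5) (.nd (nat_lit 6) 
(.lf (nat_lit 59551) (.g (nat_lit 1829) (.e (nat_lit 1524) (nat_lit 108) (.e (nat_lit 336213) (nat_lit 13) (.e (nat_lit 393296) (nat_lit 26) (.e (nat_lit 475193) (nat_lit 38) (.e (nat_lit 688171) (nat_lit 15) .nil))))) .nil)) 
(.lf (nat_lit 59615) (.g (nat_lit 2011) (.e (nat_lit 7936) (nat_lit 108) (.e (nat_lit 336051) (nat_lit 6) (.e (nat_lit 147467) (nat_lit 9) (.e (nat_lit 314) (nat_lit 23) (.e (nat_lit 352264) (nat_lit 0) .nil))))) .nil))) (.nd (nat_lit 6) 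
(.lf (nat_lit 59583) (.g (nat_lit 1166) (.e (nat_lit 1524) (nat_lit 108) (.e (nat_lit 336213) (nat_lit 13) (.e (nat_lit 393301) (nat_lit 27) (.e (nat_lit 491560) (nat_lit 10) .nil)))) .nil)) 
(.lf (nat_lit 59647) (.g (nat_lit 2332) (.e (nat_lit 1529) (nat_lit 109) (.e (nat_lit 344117) (nat_lit 21) (.e (nat_lit 516151) (nat_lit 9) (.e (nat_lit 426286) (nat_lit 10) (.e (nat_lit 434248) (nat_lit 28) .nil))))) .nil)))))))))

noncomputable def tv819 : DT := (.nd (nat_lit 0) (.nd (nat_lit 1) (.nd (nat_lit 2) (.nd (nat_lit 3) (.nd (nat_lit 4) (.nd (nat_lit 5) 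
(.lf (nat_lit 59648) (.g (nat_lit 4551) (.e (nat_lit 1529) (nat_lit 109) (.e (nat_lit 344117) (nat_lit 21) (.e (nat_lit 516151) (nat_lit 9) (.e (nat_lit 426286) (nat_lit 10) (.e (nat_lit 434248) (nat_lit 28) (.e (nat_lit 573473) (nat_lit 12) (.e (nat_lit 57569) (nat_lit 53) (.e (nat_lit 761867) (nat_lit 5) .nil)))))))) (.g (nat_lit 8) .nil .nil))) 
(.lf (nat_lit 59680) (.g (nat_lit 2376) (.e (nat_lit 1529) (nat_lit 109) (.e (nat_lit 344117) (nat_lit 21) (.e (nat_lit 516166) (nat_lit 12) (.e (nat_lit 450588) (nat_lit 10) (.e (nat_lit 573473) (nat_lit 12) .nil))))) .nil))) (.nd (nat_lit 5) 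
(.lf (nat_lit 59664) (.g (nat_lit 2729) (.e (nat_lit 1529) (nat_lit 109) (.e (nat_lit 344117) (nat_lit 21) (.e (nat_lit 516165) (nat_lit 12) (.e (nat_lit 450579) (nat_lit 5) (.e (nat_lit 532504) (nat_lit 1) (.e (nat_lit 57766) (nat_lit 221) (.e (nat_lit 1074) (nat_lit 81) .nil))))))) (.g (nat_lit 4) .nil .nil))) 
(.lf (nat_lit 59696) (.g (nat_lit 1406) (.e (nat_lit 1529) (nat_lit 109) (.e (nat_lit 344129) (nat_lit 26) (.e (nat_lit 557066) (nat_lit 9) (.e (nat_lit 324) (nat_lit 24) .nil)))) .nil)))) (.nd (nat_lit 4) (.nd (nat_lit 5) 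
(.lf (nat_lit 59656) (.g (nat_lit 2448) (.e (nat_lit 1529) (nat_lit 109) (.e (nat_lit 344117) (nat_lit 21) (.e (nat_lit 516151) (nat_lit 9) (.e (nat_lit 426286) (nat_lit 10) (.e (nat_lit 434248) (nat_lit 28) (.e (nat_lit 573475) (nat_lit 12) (.e (nat_lit 57572) (nat_lit 54) (.e (nat_lit 770058) (nat_lit 5) .nil)))))))) (.g (nat_lit 4) .nil .nil))) 
(.lf (nat_lit 59688) (.g (nat_lit 1029) (.e (nat_lit 1529) (nat_lit 109) (.e (nat_lit 344126) (nat_lit 25) (.e (nat_lit 548872) (nat_lit 5) (.e (nat_lit 1598) (nat_lit 111) (.e (nat_lit 360466) (nat_lit 3) .nil))))) .nil))) (.nd (nat_lit 5) 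
(.lf (nat_lit 59672) (.g (nat_lit 2242) (.e (nat_lit 1529) (nat_lit 109) (.e (nat_lit 344117) (nat_lit 21) (.e (nat_lit 516165) (nat_lit 12) (.e (nat_lit 450586) (nat_lit 10) (.e (nat_lit 573478) (nat_lit 12) .nil))))) .nil)) 
(.lf (nat_lit 59704) (.g (nat_lit 2493) (.e (nat_lit 1529) (nat_lit 109) (.e (nat_lit 344133) (nat_lit 26) (.e (nat_lit 557098) (nat_lit 13) (.e (nat_lit 172064) (nat_lit 2) (.e (nat_lit 196686) (nat_lit 18) .nil))))) .nil))))) (.nd (nat_lit 3) (.nd (nat_lit 4) (.nd (nat_lit 5) 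
(.lf (nat_lit 59652) (.g (nat_lit 4143) (.e (nat_lit 1529) (nat_lit 109) (.e (nat_lit 344117) (nat_lit 21) (.e (nat_lit 516151) (nat_lit 9) (.e (nat_lit 426286) (nat_lit 10) (.e (nat_lit 434248) (nat_lit 28) (.e (nat_lit 573475) (nat_lit 12) (.e (nat_lit 57568) (nat_lit 53) (.e (nat_lit 761867) (nat_lit 5) .nil)))))))) (.g (nat_lit 6) .nil .nil))) 
(.lf (nat_lit 59684) (.g (nat_lit 2418) (.e (nat_lit 1529) (nat_lit 109) (.e (nat_lit 344117) (nat_lit 21) (.e (nat_lit 516166) (nat_lit 12) (.e (nat_lit 450588) (nat_lit 10) (.e (nat_lit 573475) (nat_lit 12) .nil))))) .nil))) (.nd (nat_lit 5) 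
(.lf (nat_lit 59668) (.g (nat_lit 2915) (.e (nat_lit 1529) (nat_lit 109) (.e (nat_lit 344117) (nat_lit 21) (.e (nat_lit 516165) (nat_lit 12) (.e (nat_lit 450586) (nat_lit 10) (.e (nat_lit 573473) (nat_lit 12) (.e (nat_lit 57569) (nat_lit 53) (.e (nat_lit 761868) (nat_lit 5) .nil))))))) (.g (nat_lit 5) .nil .nil))) 
(.lf (nat_lit 59700) (.g (nat_lit 1171) (.e (nat_lit 1529) (nat_lit 109) (.e (nat_lit 344133) (nat_lit 26) (.e (nat_lit 557087) (nat_lit 11) .nil))) .nil)))) (.nd (nat_lit 4) (.nd (nat_lit 5) 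
(.lf (nat_lit 59660) (.g (nat_lit 2772) (.e (nat_lit 1529) (nat_lit 109) (.e (nat_lit 344117) (nat_lit 21) (.e (nat_lit 516165) (nat_lit 12) (.e (nat_lit 450579) (nat_lit 5) (.e (nat_lit 532501) (nat_lit 1) .nil))))) .nil)) 
(.lf (nat_lit 59692) (.g (nat_lit 1347) (.e (nat_lit 1529) (nat_lit 109) (.e (nat_lit 344126) (nat_lit 25) (.e (nat_lit 548874) (nat_lit 5) (.e (nat_lit 1598) (nat_lit 111) .nil)))) .nil))) (.nd (nat_lit 5) 
(.lf (nat_lit 59676) (.g (nat_lit 3627) (.e (nat_lit 1529) (nat_lit 109) (.e (nat_lit 344117) (nat_lit 21) (.e (nat_lit 516165) (nat_lit 12) (.e (nat_lit 450588) (nat_lit 10) (.e (nat_lit 573475) (nat_lit 12) (.e (nat_lit 57568) (nat_lit 53) (.e (nat_lit 761866) (nat_lit 5) .nil))))))) (.g (nat_lit 4) .nil .nil))) 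
(.lf (nat_lit 59708) (.g (nat_lit 3224) (.e (nat_lit 1529) (nat_lit 109) (.e (nat_lit 344133) (nat_lit 26) (.e (nat_lit 557098) (nat_lit 13) (.e (nat_lit 172133) (nat_lit 15) (.e (nat_lit 2175) (nat_lit 143) (.e (nat_lit 712749) (nat_lit 28) (.e (nat_lit 434289) (nat_lit 43) (.e (nat_lit 696353) (nat_lit 13) .nil)))))))) (.g (nat_lit 6) .nil .nil))))))) 
(.nd (nat_lit 2) (.nd (nat_lit 3) (.nd (nat_lit 4) (.nd (nat_lit 5) 
(.lf (nat_lit 59650) (.g (nat_lit 2386) (.e (nat_lit 1529) (nat_lit 109) (.e (nat_lit 344117) (nat_lit 21) (.e (nat_lit 516151) (nat_lit 9) (.e (nat_lit 426286) (nat_lit 10) (.e (nat_lit 434248) (nat_lit 28) (.e (nat_lit 573475) (nat_lit 12) (.e (nat_lit 57347) (nat_lit 0) (.e (nat_lit 7124) (nat_lit 382) (.e (nat_lit 1016) (nat_lit 81) .nil))))))))) (.g (nat_lit 4) .nil .nil))) 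
(.lf (nat_lit 59682) (.g (nat_lit 4341) (.e (nat_lit 1529) (nat_lit 109) (.e (nat_lit 344117) (nat_lit 21) (.e (nat_lit 516166) (nat_lit 12) (.e (nat_lit 450588) (nat_lit 10) (.e (nat_lit 573473) (nat_lit 12) (.e (nat_lit 57569) (nat_lit 53) (.e (nat_lit 761867) (nat_lit 5) .nil))))))) (.g (nat_lit 7) .nil .nil)))) (.nd (nat_lit 5) 
(.lf (nat_lit 59666) (.g (nat_lit 4247) (.e (nat_lit 1529) (nat_lit 109) (.e (nat_lit 344117) (nat_lit 21) (.e (nat_lit 516165) (nat_lit 12) (.e (nat_lit 450586) (nat_lit 10) (.e (nat_lit 573473) (nat_lit 12) (.e (nat_lit 57569) (nat_lit 53) (.e (nat_lit 761866) (nat_lit 5) .nil))))))) (.g (nat_lit 0) .nil .nil))) 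
(.lf (nat_lit 59698) (.g (nat_lit 1816) (.e (nat_lit 1529) (nat_lit 109) (.e (nat_lit 344130) (nat_lit 26) (.e (nat_lit 557097) (nat_lit 13) (.e (nat_lit 172133) (nat_lit 15) (.e (nat_lit 2175) (nat_lit 143) (.e (nat_lit 712749) (nat_lit 28) (.e (nat_lit 434289) (nat_lit 43) (.e (nat_lit 696349) (nat_lit 13) .nil)))))))) (.g (nat_lit 4) .nil .nil))))) (.nd (nat_lit 4) (.nd (nat_lit 5) 
(.lf (nat_lit 59658) (.g (nat_lit 1990) (.e (nat_lit 1529) (nat_lit 109) (.e (nat_lit 344117) (nat_lit 21) (.e (nat_lit 516165) (nat_lit 12) (.e (nat_lit 450579) (nat_lit 5) .nil)))) .nil)) 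
(.lf (nat_lit 59690) (.g (nat_lit 1594) (.e (nat_lit 1529) (nat_lit 109) (.e (nat_lit 344126) (nat_lit 25) (.e (nat_lit 548872) (nat_lit 5) (.e (nat_lit 1598) (nat_lit 111) (.e (nat_lit 360466) (nat_lit 3) (.e (nat_lit 516105) (nat_lit 0) (.e (nat_lit 7562) (nat_lit 402) .nil))))))) (.g (nat_lit 5) .nil .nil)))) (.nd (nat_lit 5) 
(.lf (nat_lit 59674) (.g (nat_lit 3719) (.e (nat_lit 1529) (nat_lit 109) (.e (nat_lit 344117) (nat_lit 21) (.e (nat_lit 516165) (nat_lit 12) (.e (nat_lit 450588) (nat_lit 10) (.e (nat_lit 573473) (nat_lit 12) .nil))))) .nil)) 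
(.lf (nat_lit 59706) (.g (nat_lit 2194) (.e (nat_lit 1529) (nat_lit 109) (.e (nat_lit 344133) (nat_lit 26) (.e (nat_lit 557098) (nat_lit 13) (.e (nat_lit 172133) (nat_lit 15) (.e (nat_lit 2175) (nat_lit 143) .nil))))) .nil))))) (.nd (nat_lit 3) (.nd (nat_lit 4) (.nd (nat_lit 5) 
(.lf (nat_lit 59654) (.g (nat_lit 4336) (.e (nat_lit 1529) (nat_lit 109) (.e (nat_lit 344117) (nat_lit 21) (.e (nat_lit 516151) (nat_lit 9) (.e (nat_lit 426286) (nat_lit 10) (.e (nat_lit 434248) (nat_lit 28) (.e (nat_lit 573475) (nat_lit 12) (.e (nat_lit 57569) (nat_lit 53) (.e (nat_lit 761867) (nat_lit 5) .nil)))))))) (.g (nat_lit 6) .nil .nil))) 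
(.lf (nat_lit 59686) (.g (nat_lit 4178) (.e (nat_lit 1529) (nat_lit 109) (.e (nat_lit 344117) (nat_lit 21) (.e (nat_lit 516166) (nat_lit 12) (.e (nat_lit 450588) (nat_lit 10) (.e (nat_lit 573475) (nat_lit 12) (.e (nat_lit 57569) (nat_lit 53) (.e (nat_lit 761866) (nat_lit 5) .nil))))))) (.g (nat_lit 6) .nil .nil)))) (.nd (nat_lit 5) 
(.lf (nat_lit 59670) (.g (nat_lit 3905) (.e (nat_lit 1529) (nat_lit 109) (.e (nat_lit 344117) (nat_lit 21) (.e (nat_lit 516165) (nat_lit 12) (.e (nat_lit 450586) (nat_lit 10) (.e (nat_lit 573475) (nat_lit 12) (.e (nat_lit 57569) (nat_lit 53) (.e (nat_lit 761866) (nat_lit 5) .nil))))))) (.g (nat_lit 6) .nil .nil))) 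
(.lf (nat_lit 59702) (.g (nat_lit 497) (.e (nat_lit 1529) (nat_lit 109) (.e (nat_lit 344133) (nat_lit 26) (.e (nat_lit 557098) (nat_lit 13) .nil))) .nil)))) (.nd (nat_lit 4) (.nd (nat_lit 5) 
(.lf (nat_lit 59662) (.g (nat_lit 2696) (.e (nat_lit 1529) (nat_lit 109) (.e (nat_lit 344117) (nat_lit 21) (.e (nat_lit 516165) (nat_lit 12) (.e (nat_lit 450579) (nat_lit 5) (.e (nat_lit 532504) (nat_lit 1) .nil))))) .nil)) 
(.lf (nat_lit 59694) (.g (nat_lit 1838) (.e (nat_lit 1529) (nat_lit 109) (.e (nat_lit 344126) (nat_lit 25) (.e (nat_lit 548874) (nat_lit 5) (.e (nat_lit 1598) (nat_lit 111) (.e (nat_lit 360466) (nat_lit 3) (.e (nat_lit 516104) (nat_lit 0) (.e (nat_lit 7562) (nat_lit 402) .nil))))))) (.g (nat_lit 4) .nil .nil)))) (.nd (nat_lit 5) 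
(.lf (nat_lit 59678) (.g (nat_lit 2744) (.e (nat_lit 1529) (nat_lit 109) (.e (nat_lit 344117) (nat_lit 21) (.e (nat_lit 516166) (nat_lit 12) (.e (nat_lit 450587) (nat_lit 10) (.e (nat_lit 573478) (nat_lit 12) (.e (nat_lit 57568) (nat_lit 53) (.e (nat_lit 761866) (nat_lit 5) .nil))))))) (.g (nat_lit 6) .nil .nil))) 
(.lf (nat_lit 59710) (.g (nat_lit 1456) (.e (nat_lit 1529) (nat_lit 109) (.e (nat_lit 344133) (nat_lit 26) (.e (nat_lit 557098) (nat_lit 13) (.e (nat_lit 179968) (nat_lit 15) .nil)))) .nil))))))) (.nd (nat_lit 1) (.nd (nat_lit 2) (.nd (nat_lit 3) (.nd (nat_lit 4) (.nd (nat_lit 5) 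
(.lf (nat_lit 59649) (.g (nat_lit 3629) (.e (nat_lit 1529) (nat_lit 109) (.e (nat_lit 344117) (nat_lit 21) (.e (nat_lit 516151) (nat_lit 9) (.e (nat_lit 426286) (nat_lit 10) (.e (nat_lit 434248) (nat_lit 28) (.e (nat_lit 573473) (nat_lit 12) (.e (nat_lit 57569) (nat_lit 53) (.e (nat_lit 761869) (nat_lit 5) .nil)))))))) (.g (nat_lit 6) .nil .nil))) 
(.lf (nat_lit 59681) (.g (nat_lit 4526) (.e (nat_lit 1529) (nat_lit 109) (.e (nat_lit 344117) (nat_lit 21) (.e (nat_lit 516166) (nat_lit 12) (.e (nat_lit 450588) (nat_lit 10) (.e (nat_lit 573473) (nat_lit 12) (.e (nat_lit 57569) (nat_lit 53) (.e (nat_lit 761866) (nat_lit 5) .nil))))))) (.g (nat_lit 0) .nil .nil)))) (.nd (nat_lit 5) 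
(.lf (nat_lit 59665) (.g (nat_lit 1494) (.e (nat_lit 1529) (nat_lit 109) (.e (nat_lit 344117) (nat_lit 21) (.e (nat_lit 516165) (nat_lit 12) (.e (nat_lit 450586) (nat_lit 10) .nil)))) .nil)) 
(.lf (nat_lit 59697) (.g (nat_lit 2694) (.e (nat_lit 1529) (nat_lit 109) (.e (nat_lit 344129) (nat_lit 26) (.e (nat_lit 557067) (nat_lit 9) (.e (nat_lit 2878) (nat_lit 184) .nil)))) .nil)))) (.nd (nat_lit 4) (.nd (nat_lit 5) 
(.lf (nat_lit 59657) (.g (nat_lit 2017) (.e (nat_lit 1529) (nat_lit 109) (.e (nat_lit 344117) (nat_lit 21) (.e (nat_lit 516165) (nat_lit 12) (.e (nat_lit 458496) (nat_lit 3) .nil)))) .nil)) 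
(.lf (nat_lit 59689) (.g (nat_lit 1359) (.e (nat_lit 1529) (nat_lit 109) (.e (nat_lit 344126) (nat_lit 25) (.e (nat_lit 548872) (nat_lit 5) (.e (nat_lit 1598) (nat_lit 111) (.e (nat_lit 360466) (nat_lit 3) (.e (nat_lit 516100) (nat_lit 0) (.e (nat_lit 7562) (nat_lit 402) .nil))))))) (.g (nat_lit 4) .nil .nil)))) (.nd (nat_lit 5) 
(.lf (nat_lit 59673) (.g (nat_lit 2261) (.e (nat_lit 1529) (nat_lit 109) (.e (nat_lit 344117) (nat_lit 21) (.e (nat_lit 516165) (nat_lit 12) (.e (nat_lit 450587) (nat_lit 10) .nil)))) .nil)) 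
(.lf (nat_lit 59705) (.g (nat_lit 1542) (.e (nat_lit 1529) (nat_lit 109) (.e (nat_lit 344133) (nat_lit 26) (.e (nat_lit 557098) (nat_lit 13) (.e (nat_lit 172127) (nat_lit 15) .nil)))) .nil))))) (.nd (nat_lit 3) (.nd (nat_lit 4) (.nd (nat_lit 5) 
(.lf (nat_lit 59653) (.g (nat_lit 4589) (.e (nat_lit 1529) (nat_lit 109) (.e (nat_lit 344117) (nat_lit 21) (.e (nat_lit 516151) (nat_lit 9) (.e (nat_lit 426286) (nat_lit 10) (.e (nat_lit 434248) (nat_lit 28) (.e (nat_lit 573475) (nat_lit 12) (.e (nat_lit 57569) (nat_lit 53) (.e (nat_lit 761866) (nat_lit 5) .nil)))))))) (.g (nat_lit 7) .nil .nil))) 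
(.lf (nat_lit 59685) (.g (nat_lit 3512) (.e (nat_lit 1529) (nat_lit 109) (.e (nat_lit 344117) (nat_lit 21) (.e (nat_lit 516166) (nat_lit 12) (.e (nat_lit 450588) (nat_lit 10) (.e (nat_lit 573475) (nat_lit 12) (.e (nat_lit 57568) (nat_lit 53) (.e (nat_lit 761866) (nat_lit 5) .nil))))))) (.g (nat_lit 6) .nil .nil)))) (.nd (nat_lit 5) 
(.lf (nat_lit 59669) (.g (nat_lit 2262) (.e (nat_lit 1529) (nat_lit 109) (.e (nat_lit 344117) (nat_lit 21) (.e (nat_lit 516165) (nat_lit 12) (.e (nat_lit 450586) (nat_lit 10) (.e (nat_lit 573475) (nat_lit 12) .nil))))) .nil)) 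
(.lf (nat_lit 59701) (.g (nat_lit 542) (.e (nat_lit 1529) (nat_lit 109) (.e (nat_lit 344133) (nat_lit 26) (.e (nat_lit 557096) (nat_lit 13) .nil))) .nil)))) (.nd (nat_lit 4) (.nd (nat_lit 5) 
(.lf (nat_lit 59661) (.g (nat_lit 2782) (.e (nat_lit 1529) (nat_lit 109) (.e (nat_lit 344117) (nat_lit 21) (.e (nat_lit 516165) (nat_lit 12) (.e (nat_lit 450579) (nat_lit 5) (.e (nat_lit 532501) (nat_lit 1) (.e (nat_lit 57765) (nat_lit 221) (.e (nat_lit 1074) (nat_lit 81) .nil))))))) (.g (nat_lit 4) .nil .nil))) 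
(.lf (nat_lit 59693) (.g (nat_lit 2280) (.e (nat_lit 1529) (nat_lit 109) (.e (nat_lit 344126) (nat_lit 25) (.e (nat_lit 548874) (nat_lit 5) (.e (nat_lit 1598) (nat_lit 111) (.e (nat_lit 360466) (nat_lit 3) (.e (nat_lit 516100) (nat_lit 0) (.e (nat_lit 7562) (nat_lit 402) .nil))))))) (.g (nat_lit 5) .nil .nil)))) (.nd (nat_lit 5) 
(.lf (nat_lit 59677) (.g (nat_lit 3750) (.e (nat_lit 1529) (nat_lit 109) (.e (nat_lit 344117) (nat_lit 21) (.e (nat_lit 516165) (nat_lit 12) (.e (nat_lit 450588) (nat_lit 10) (.e (nat_lit 573475) (nat_lit 12) (.e (nat_lit 57568) (nat_lit 53) (.e (nat_lit 761867) (nat_lit 5) .nil))))))) (.g (nat_lit 4) .nil .nil))) 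
(.lf (nat_lit 59709) (.g (nat_lit 2218) (.e (nat_lit 1529) (nat_lit 109) (.e (nat_lit 344133) (nat_lit 26) (.e (nat_lit 557098) (nat_lit 13) (.e (nat_lit 172133) (nat_lit 15) (.e (nat_lit 2175) (nat_lit 143) (.e (nat_lit 712749) (nat_lit 28) (.e (nat_lit 434289) (nat_lit 43) (.e (nat_lit 696355) (nat_lit 13) .nil)))))))) (.g (nat_lit 4) .nil .nil))))))) 
(.nd (nat_lit 2) (.nd (nat_lit 3) (.nd (nat_lit 4) (.nd (nat_lit 5) 
(.lf (nat_lit 59651) (.g (nat_lit 4018) (.e (nat_lit 1529) (nat_lit 109) (.e (nat_lit 344117) (nat_lit 21) (.e (nat_lit 516151) (nat_lit 9) (.e (nat_lit 426286) (nat_lit 10) (.e (nat_lit 434248) (nat_lit 28) (.e (nat_lit 573475) (nat_lit 12) (.e (nat_lit 57568) (nat_lit 53) (.e (nat_lit 761866) (nat_lit 5) .nil)))))))) (.g (nat_lit 6) .nil .nil))) 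
(.lf (nat_lit 59683) (.g (nat_lit 3429) (.e (nat_lit 1529) (nat_lit 109) (.e (nat_lit 344117) (nat_lit 21) (.e (nat_lit 516166) (nat_lit 12) (.e (nat_lit 450588) (nat_lit 10) (.e (nat_lit 573473) (nat_lit 12) (.e (nat_lit 57569) (nat_lit 53) (.e (nat_lit 761869) (nat_lit 5) .nil))))))) (.g (nat_lit 5) .nil .nil)))) (.nd (nat_lit 5) 
(.lf (nat_lit 59667) (.g (nat_lit 4059) (.e (nat_lit 1529) (nat_lit 109) (.e (nat_lit 344117) (nat_lit 21) (.e (nat_lit 516165) (nat_lit 12) (.e (nat_lit 450586) (nat_lit 10) (.e (nat_lit 573473) (nat_lit 12) (.e (nat_lit 57569) (nat_lit 53) (.e (nat_lit 761867) (nat_lit 5) .nil))))))) (.g (nat_lit 0) .nil .nil))) 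
(.lf (nat_lit 59699) (.g (nat_lit 1995) (.e (nat_lit 1529) (nat_lit 109) (.e (nat_lit 344130) (nat_lit 26) (.e (nat_lit 557097) (nat_lit 13) (.e (nat_lit 172133) (nat_lit 15) (.e (nat_lit 2175) (nat_lit 143) (.e (nat_lit 712749) (nat_lit 28) (.e (nat_lit 434289) (nat_lit 43) (.e (nat_lit 696353) (nat_lit 13) .nil)))))))) (.g (nat_lit 4) .nil .nil))))) (.nd (nat_lit 4) (.nd (nat_lit 5) 
(.lf (nat_lit 59659) (.g (nat_lit 2907) (.e (nat_lit 1529) (nat_lit 109) (.e (nat_lit 344117) (nat_lit 21) (.e (nat_lit 516165) (nat_lit 12) (.e (nat_lit 450579) (nat_lit 5) (.e (nat_lit 532484) (nat_lit 0) .nil))))) .nil)) 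
(.lf (nat_lit 59691) (.g (nat_lit 927) (.e (nat_lit 1529) (nat_lit 109) (.e (nat_lit 344126) (nat_lit 25) (.e (nat_lit 548873) (nat_lit 5) (.e (nat_lit 1598) (nat_lit 111) (.e (nat_lit 360466) (nat_lit 3) .nil))))) .nil))) (.nd (nat_lit 5) 
(.lf (nat_lit 59675) (.g (nat_lit 3946) (.e (nat_lit 1529) (nat_lit 109) (.e (nat_lit 344117) (nat_lit 21) (.e (nat_lit 516165) (nat_lit 12) (.e (nat_lit 450588) (nat_lit 10) (.e (nat_lit 573473) (nat_lit 12) (.e (nat_lit 57569) (nat_lit 53) (.e (nat_lit 761869) (nat_lit 5) .nil))))))) (.g (nat_lit 4) .nil .nil))) 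
(.lf (nat_lit 59707) (.g (nat_lit 2652) (.e (nat_lit 1529) (nat_lit 109) (.e (nat_lit 344133) (nat_lit 26) (.e (nat_lit 557098) (nat_lit 13) (.e (nat_lit 172133) (nat_lit 15) (.e (nat_lit 2175) (nat_lit 143) (.e (nat_lit 712747) (nat_lit 28) (.e (nat_lit 434286) (nat_lit 42) (.e (nat_lit 688157) (nat_lit 13) .nil)))))))) (.g (nat_lit 5) .nil .nil)))))) 
(.nd (nat_lit 3) (.nd (nat_lit 4) (.nd (nat_lit 5) 
(.lf (nat_lit 59655) (.g (nat_lit 2370) (.e (nat_lit 1529) (nat_lit 109) (.e (nat_lit 344117) (nat_lit 21) (.e (nat_lit 516151) (nat_lit 9) (.e (nat_lit 426286) (nat_lit 10) (.e (nat_lit 434248) (nat_lit 28) (.e (nat_lit 573475) (nat_lit 12) (.e (nat_lit 57572) (nat_lit 54) (.e (nat_lit 770055) (nat_lit 5) .nil)))))))) (.g (nat_lit 4) .nil .nil))) 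
(.lf (nat_lit 59687) (.g (nat_lit 1679) (.e (nat_lit 1529) (nat_lit 109) (.e (nat_lit 344117) (nat_lit 21) (.e (nat_lit 516185) (nat_lit 16) (.e (nat_lit 491560) (nat_lit 10) .nil)))) .nil))) (.nd (nat_lit 5) 
(.lf (nat_lit 59671) (.g (nat_lit 2419) (.e (nat_lit 1529) (nat_lit 109) (.e (nat_lit 344117) (nat_lit 21) (.e (nat_lit 516165) (nat_lit 12) (.e (nat_lit 450586) (nat_lit 10) (.e (nat_lit 573475) (nat_lit 12) (.e (nat_lit 57569) (nat_lit 53) (.e (nat_lit 761869) (nat_lit 5) .nil))))))) (.g (nat_lit 4) .nil .nil))) 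
(.lf (nat_lit 59703) (.g (nat_lit 2218) (.e (nat_lit 1529) (nat_lit 109) (.e (nat_lit 344133) (nat_lit 26) (.e (nat_lit 557098) (nat_lit 13) (.e (nat_lit 172064) (nat_lit 2) (.e (nat_lit 204544) (nat_lit 0) .nil))))) .nil)))) (.nd (nat_lit 4) (.nd (nat_lit 5) 
(.lf (nat_lit 59663) (.g (nat_lit 2917) (.e (nat_lit 1529) (nat_lit 109) (.e (nat_lit 344117) (nat_lit 21) (.e (nat_lit 516165) (nat_lit 12) (.e (nat_lit 450579) (nat_lit 5) (.e (nat_lit 532504) (nat_lit 1) (.e (nat_lit 57765) (nat_lit 221) (.e (nat_lit 1074) (nat_lit 81) .nil))))))) (.g (nat_lit 4) .nil .nil))) 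
(.lf (nat_lit 59695) (.g (nat_lit 2576) (.e (nat_lit 1529) (nat_lit 109) (.e (nat_lit 344126) (nat_lit 25) (.e (nat_lit 548874) (nat_lit 5) (.e (nat_lit 1598) (nat_lit 111) (.e (nat_lit 360466) (nat_lit 3) (.e (nat_lit 516105) (nat_lit 0) (.e (nat_lit 7562) (nat_lit 402) .nil))))))) (.g (nat_lit 6) .nil .nil)))) (.nd (nat_lit 5) 
(.lf (nat_lit 59679) (.g (nat_lit 2213) (.e (nat_lit 1529) (nat_lit 109) (.e (nat_lit 344117) (nat_lit 21) (.e (nat_lit 516166) (nat_lit 12) (.e (nat_lit 450587) (nat_lit 10) (.e (nat_lit 573478) (nat_lit 12) (.e (nat_lit 57568) (nat_lit 53) (.e (nat_lit 761869) (nat_lit 5) .nil))))))) (.g (nat_lit 4) .nil .nil))) 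
(.lf (nat_lit 59711) (.g (nat_lit 1456) (.e (nat_lit 1529) (nat_lit 109) (.e (nat_lit 344133) (nat_lit 26) (.e (nat_lit 557098) (nat_lit 13) (.e (nat_lit 179968) (nat_lit 17) .nil)))) .nil))))))))

noncomputable def tv820 : DT := (.nd (nat_lit 0) (.nd (nat_lit 1) (.nd (nat_lit 2) (.nd (nat_lit 3) (.nd (nat_lit 4) (.nd (nat_lit 5) 
(.lf (nat_lit 59712) (.g (nat_lit 1512) (.e (nat_lit 1529) (nat_lit 109) (.e (nat_lit 344133) (nat_lit 26) (.e (nat_lit 557098) (nat_lit 13) (.e (nat_lit 172142) (nat_lit 24) .nil)))) .nil)) 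
(.lf (nat_lit 59744) (.g (nat_lit 487) (.e (nat_lit 1530) (nat_lit 109) (.e (nat_lit 344126) (nat_lit 25) (.e (nat_lit 548872) (nat_lit 5) .nil))) .nil))) (.nd (nat_lit 5) 
(.lf (nat_lit 59728) (.g (nat_lit 620) (.e (nat_lit 1529) (nat_lit 109) (.e (nat_lit 344177) (nat_lit 43) (.e (nat_lit 770058) (nat_lit 5) .nil))) .nil)) 
(.lf (nat_lit 59760) (.g (nat_lit 2256) (.e (nat_lit 1530) (nat_lit 109) (.e (nat_lit 344126) (nat_lit 25) (.e (nat_lit 548874) (nat_lit 5) (.e (nat_lit 1598) (nat_lit 111) (.e (nat_lit 360466) (nat_lit 3) (.e (nat_lit 516104) (nat_lit 0) (.e (nat_lit 7936) (nat_lit 402) .nil))))))) (.g (nat_lit 6) .nil .nil))))) (.nd (nat_lit 4) (.nd (nat_lit 5) 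
(.lf (nat_lit 59720) (.g (nat_lit 2181) (.e (nat_lit 1529) (nat_lit 109) (.e (nat_lit 344133) (nat_lit 26) (.e (nat_lit 557119) (nat_lit 18) (.e (nat_lit 2797) (nat_lit 180) .nil)))) .nil)) 
(.lf (nat_lit 59752) (.g (nat_lit 1832) (.e (nat_lit 1530) (nat_lit 109) (.e (nat_lit 344126) (nat_lit 25) (.e (nat_lit 548873) (nat_lit 5) (.e (nat_lit 1598) (nat_lit 111) (.e (nat_lit 360466) (nat_lit 3) (.e (nat_lit 516100) (nat_lit 0) (.e (nat_lit 7936) (nat_lit 402) .nil))))))) (.g (nat_lit 6) .nil .nil)))) (.nd (nat_lit 5) 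
(.lf (nat_lit 59736) (.g (nat_lit 2426) (.e (nat_lit 1530) (nat_lit 109) (.e (nat_lit 344117) (nat_lit 21) (.e (nat_lit 516165) (nat_lit 12) (.e (nat_lit 450586) (nat_lit 10) (.e (nat_lit 573475) (nat_lit 12) .nil))))) .nil)) 
(.lf (nat_lit 59768) (.g (nat_lit 1665) (.e (nat_lit 1530) (nat_lit 109) (.e (nat_lit 344126) (nat_lit 25) (.e (nat_lit 548889) (nat_lit 9) (.e (nat_lit 65619) (nat_lit 10) (.e (nat_lit 344117) (nat_lit 21) (.e (nat_lit 516098) (nat_lit 0) (.e (nat_lit 7491) (nat_lit 402) .nil))))))) (.g (nat_lit 4) .nil .nil)))))) (.nd (nat_lit 3) (.nd (nat_lit 4) (.nd (nat_lit 5) 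
(.lf (nat_lit 59716) (.g (nat_lit 2638) (.e (nat_lit 1529) (nat_lit 109) (.e (nat_lit 344133) (nat_lit 26) (.e (nat_lit 557105) (nat_lit 14) (.e (nat_lit 180252) (nat_lit 10) (.e (nat_lit 573474) (nat_lit 12) .nil))))) .nil)) 
(.lf (nat_lit 59748) (.g (nat_lit 1981) (.e (nat_lit 1530) (nat_lit 109) (.e (nat_lit 344126) (nat_lit 25) (.e (nat_lit 548872) (nat_lit 5) (.e (nat_lit 1598) (nat_lit 111) (.e (nat_lit 360466) (nat_lit 3) (.e (nat_lit 516104) (nat_lit 0) (.e (nat_lit 7936) (nat_lit 402) .nil))))))) (.g (nat_lit 5) .nil .nil)))) (.nd (nat_lit 5) 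
(.lf (nat_lit 59732) (.g (nat_lit 2900) (.e (nat_lit 1530) (nat_lit 109) (.e (nat_lit 344117) (nat_lit 21) (.e (nat_lit 516165) (nat_lit 12) (.e (nat_lit 450579) (nat_lit 5) (.e (nat_lit 532501) (nat_lit 1) .nil))))) .nil)) 
(.lf (nat_lit 59764) (.g (nat_lit 2337) (.e (nat_lit 1530) (nat_lit 109) (.e (nat_lit 344126) (nat_lit 25) (.e (nat_lit 548889) (nat_lit 9) (.e (nat_lit 65598) (nat_lit 9) (.e (nat_lit 336013) (nat_lit 2) .nil))))) .nil)))) (.nd (nat_lit 4) (.nd (nat_lit 5) 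
(.lf (nat_lit 59724) (.g (nat_lit 1523) (.e (nat_lit 1529) (nat_lit 109) (.e (nat_lit 344169) (nat_lit 40) (.e (nat_lit 671759) (nat_lit 3) (.e (nat_lit 57479) (nat_lit 28) (.e (nat_lit 557109) (nat_lit 15) .nil))))) .nil)) 
(.lf (nat_lit 59756) (.g (nat_lit 1676) (.e (nat_lit 1530) (nat_lit 109) (.e (nat_lit 344126) (nat_lit 25) (.e (nat_lit 548873) (nat_lit 5) (.e (nat_lit 1598) (nat_lit 111) (.e (nat_lit 360466) (nat_lit 3) (.e (nat_lit 516105) (nat_lit 0) (.e (nat_lit 7936) (nat_lit 402) .nil))))))) (.g (nat_lit 5) .nil .nil)))) (.nd (nat_lit 5) 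
(.lf (nat_lit 59740) (.g (nat_lit 3545) (.e (nat_lit 1530) (nat_lit 109) (.e (nat_lit 344117) (nat_lit 21) (.e (nat_lit 516166) (nat_lit 12) (.e (nat_lit 450588) (nat_lit 10) (.e (nat_lit 573473) (nat_lit 12) (.e (nat_lit 57569) (nat_lit 53) (.e (nat_lit 761868) (nat_lit 5) .nil))))))) (.g (nat_lit 5) .nil .nil))) 
(.lf (nat_lit 59772) (.g (nat_lit 2461) (.e (nat_lit 1530) (nat_lit 109) (.e (nat_lit 344126) (nat_lit 25) (.e (nat_lit 548891) (nat_lit 11) (.e (nat_lit 81954) (nat_lit 23) (.e (nat_lit 98320) (nat_lit 17) .nil))))) .nil)))))) (.nd (nat_lit 2) (.nd (nat_lit 3) (.nd (nat_lit 4) (.nd (nat_lit 5) 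
(.lf (nat_lit 59714) (.g (nat_lit 3102) (.e (nat_lit 1529) (nat_lit 109) (.e (nat_lit 344133) (nat_lit 26) (.e (nat_lit 557105) (nat_lit 14) (.e (nat_lit 180252) (nat_lit 10) (.e (nat_lit 573473) (nat_lit 12) .nil))))) .nil)) 
(.lf (nat_lit 59746) (.g (nat_lit 2137) (.e (nat_lit 1530) (nat_lit 109) (.e (nat_lit 344126) (nat_lit 25) (.e (nat_lit 548872) (nat_lit 5) (.e (nat_lit 1598) (nat_lit 111) (.e (nat_lit 360466) (nat_lit 3) (.e (nat_lit 516100) (nat_lit 0) (.e (nat_lit 7936) (nat_lit 402) .nil))))))) (.g (nat_lit 6) .nil .nil)))) (.nd (nat_lit 5) 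
(.lf (nat_lit 59730) (.g (nat_lit 2043) (.e (nat_lit 1530) (nat_lit 109) (.e (nat_lit 344117) (nat_lit 21) (.e (nat_lit 516151) (nat_lit 9) (.e (nat_lit 426286) (nat_lit 10) (.e (nat_lit 434247) (nat_lit 28) .nil))))) .nil)) 
(.lf (nat_lit 59762) (.g (nat_lit 2202) (.e (nat_lit 1530) (nat_lit 109) (.e (nat_lit 344126) (nat_lit 25) (.e (nat_lit 548874) (nat_lit 5) (.e (nat_lit 1598) (nat_lit 111) (.e (nat_lit 360466) (nat_lit 3) (.e (nat_lit 516105) (nat_lit 0) (.e (nat_lit 7936) (nat_lit 402) .nil))))))) (.g (nat_lit 5) .nil .nil))))) (.nd (nat_lit 4) (.nd (nat_lit 5) 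
(.lf (nat_lit 59722) (.g (nat_lit 2539) (.e (nat_lit 1529) (nat_lit 109) (.e (nat_lit 344156) (nat_lit 36) (.e (nat_lit 638998) (nat_lit 8) (.e (nat_lit 172082) (nat_lit 7) (.e (nat_lit 409646) (nat_lit 18) (.e (nat_lit 303112) (nat_lit 0) (.e (nat_lit 7556) (nat_lit 402) .nil))))))) (.g (nat_lit 5) .nil .nil))) 
(.lf (nat_lit 59754) (.g (nat_lit 1712) (.e (nat_lit 1530) (nat_lit 109) (.e (nat_lit 344126) (nat_lit 25) (.e (nat_lit 548873) (nat_lit 5) (.e (nat_lit 1598) (nat_lit 111) (.e (nat_lit 360466) (nat_lit 3) (.e (nat_lit 516104) (nat_lit 0) (.e (nat_lit 7936) (nat_lit 402) .nil))))))) (.g (nat_lit 6) .nil .nil)))) (.nd (nat_lit 5) 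
(.lf (nat_lit 59738) (.g (nat_lit 3897) (.e (nat_lit 1530) (nat_lit 109) (.e (nat_lit 344117) (nat_lit 21) (.e (nat_lit 516165) (nat_lit 12) (.e (nat_lit 450588) (nat_lit 10) (.e (nat_lit 573473) (nat_lit 12) .nil))))) .nil)) 
(.lf (nat_lit 59770) (.g (nat_lit 444) (.e (nat_lit 1530) (nat_lit 109) (.e (nat_lit 344126) (nat_lit 25) (.e (nat_lit 548891) (nat_lit 11) .nil))) .nil))))) (.nd (nat_lit 3) (.nd (nat_lit 4) (.nd (nat_lit 5) 
(.lf (nat_lit 59718) (.g (nat_lit 2902) (.e (nat_lit 1529) (nat_lit 109) (.e (nat_lit 344133) (nat_lit 26) (.e (nat_lit 557105) (nat_lit 14) (.e (nat_lit 180252) (nat_lit 10) (.e (nat_lit 573475) (nat_lit 12) (.e (nat_lit 57506) (nat_lit 39) (.e (nat_lit 647176) (nat_lit 0) (.e (nat_lit 2663) (nat_lit 167) (.e (nat_lit 196630) (nat_lit 9) .nil))))))))) (.g (nat_lit 4) .nil .nil))) 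
(.lf (nat_lit 59750) (.g (nat_lit 1935) (.e (nat_lit 1530) (nat_lit 109) (.e (nat_lit 344126) (nat_lit 25) (.e (nat_lit 548872) (nat_lit 5) (.e (nat_lit 1598) (nat_lit 111) (.e (nat_lit 360466) (nat_lit 3) (.e (nat_lit 516105) (nat_lit 0) (.e (nat_lit 7936) (nat_lit 402) .nil))))))) (.g (nat_lit 5) .nil .nil)))) (.nd (nat_lit 5) 
(.lf (nat_lit 59734) (.g (nat_lit 2824) (.e (nat_lit 1530) (nat_lit 109) (.e (nat_lit 344117) (nat_lit 21) (.e (nat_lit 516165) (nat_lit 12) (.e (nat_lit 450579) (nat_lit 5) (.e (nat_lit 532504) (nat_lit 1) .nil))))) .nil)) 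
(.lf (nat_lit 59766) (.g (nat_lit 3540) (.e (nat_lit 1530) (nat_lit 109) (.e (nat_lit 344126) (nat_lit 25) (.e (nat_lit 548889) (nat_lit 9) (.e (nat_lit 65610) (nat_lit 10) (.e (nat_lit 344117) (nat_lit 21) (.e (nat_lit 516098) (nat_lit 0) (.e (nat_lit 7495) (nat_lit 402) .nil))))))) (.g (nat_lit 6) .nil .nil))))) (.nd (nat_lit 4) (.nd (nat_lit 5) 
(.lf (nat_lit 59726) (.g (nat_lit 3957) (.e (nat_lit 1529) (nat_lit 109) (.e (nat_lit 344169) (nat_lit 40) (.e (nat_lit 671759) (nat_lit 3) (.e (nat_lit 57479) (nat_lit 28) (.e (nat_lit 557109) (nat_lit 15) (.e (nat_lit 188458) (nat_lit 25) (.e (nat_lit 245783) (nat_lit 9) .nil))))))) (.g (nat_lit 7) .nil .nil))) 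
(.lf (nat_lit 59758) (.g (nat_lit 2343) (.e (nat_lit 1530) (nat_lit 109) (.e (nat_lit 344126) (nat_lit 25) (.e (nat_lit 548874) (nat_lit 5) (.e (nat_lit 1598) (nat_lit 111) (.e (nat_lit 360466) (nat_lit 3) (.e (nat_lit 516100) (nat_lit 0) (.e (nat_lit 7936) (nat_lit 402) .nil))))))) (.g (nat_lit 6) .nil .nil)))) (.nd (nat_lit 5) 
(.lf (nat_lit 59742) (.g (nat_lit 2727) (.e (nat_lit 1530) (nat_lit 109) (.e (nat_lit 344117) (nat_lit 21) (.e (nat_lit 516166) (nat_lit 12) (.e (nat_lit 450588) (nat_lit 10) (.e (nat_lit 573475) (nat_lit 12) (.e (nat_lit 57568) (nat_lit 53) (.e (nat_lit 761868) (nat_lit 5) .nil))))))) (.g (nat_lit 4) .nil .nil))) 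
(.lf (nat_lit 59774) (.g (nat_lit 3232) (.e (nat_lit 1530) (nat_lit 109) (.e (nat_lit 344126) (nat_lit 25) (.e (nat_lit 548891) (nat_lit 11) (.e (nat_lit 81956) (nat_lit 23) (.e (nat_lit 98320) (nat_lit 17) .nil))))) .nil))))))) (.nd (nat_lit 1) (.nd (nat_lit 2) (.nd (nat_lit 3) (.nd (nat_lit 4) (.nd (nat_lit 5) 
(.lf (nat_lit 59713) (.g (nat_lit 1674) (.e (nat_lit 1529) (nat_lit 109) (.e (nat_lit 344133) (nat_lit 26) (.e (nat_lit 557105) (nat_lit 14) (.e (nat_lit 180248) (nat_lit 9) .nil)))) .nil)) 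
(.lf (nat_lit 59745) (.g (nat_lit 2701) (.e (nat_lit 1530) (nat_lit 109) (.e (nat_lit 344126) (nat_lit 25) (.e (nat_lit 548872) (nat_lit 5) (.e (nat_lit 1598) (nat_lit 111) (.e (nat_lit 360466) (nat_lit 3) (.e (nat_lit 516100) (nat_lit 0) (.e (nat_lit 7562) (nat_lit 402) .nil))))))) (.g (nat_lit 0) .nil .nil)))) (.nd (nat_lit 5) 
(.lf (nat_lit 59729) (.g (nat_lit 2701) (.e (nat_lit 1530) (nat_lit 109) (.e (nat_lit 344117) (nat_lit 21) (.e (nat_lit 516151) (nat_lit 9) (.e (nat_lit 426286) (nat_lit 10) (.e (nat_lit 434245) (nat_lit 28) (.e (nat_lit 573474) (nat_lit 12) (.e (nat_lit 57568) (nat_lit 53) (.e (nat_lit 761868) (nat_lit 5) .nil)))))))) (.g (nat_lit 5) .nil .nil))) 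
(.lf (nat_lit 59761) (.g (nat_lit 2972) (.e (nat_lit 1530) (nat_lit 109) (.e (nat_lit 344126) (nat_lit 25) (.e (nat_lit 548874) (nat_lit 5) (.e (nat_lit 1598) (nat_lit 111) (.e (nat_lit 360466) (nat_lit 3) (.e (nat_lit 516105) (nat_lit 0) (.e (nat_lit 7562) (nat_lit 402) .nil))))))) (.g (nat_lit 0) .nil .nil))))) (.nd (nat_lit 4) (.nd (nat_lit 5) 
(.lf (nat_lit 59721) (.g (nat_lit 1891) (.e (nat_lit 1529) (nat_lit 109) (.e (nat_lit 344133) (nat_lit 26) (.e (nat_lit 557119) (nat_lit 18) (.e (nat_lit 2798) (nat_lit 180) .nil)))) .nil)) 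
(.lf (nat_lit 59753) (.g (nat_lit 1922) (.e (nat_lit 1530) (nat_lit 109) (.e (nat_lit 344126) (nat_lit 25) (.e (nat_lit 548873) (nat_lit 5) (.e (nat_lit 1598) (nat_lit 111) (.e (nat_lit 360466) (nat_lit 3) (.e (nat_lit 516104) (nat_lit 0) (.e (nat_lit 7562) (nat_lit 402) .nil))))))) (.g (nat_lit 6) .nil .nil)))) (.nd (nat_lit 5) 
(.lf (nat_lit 59737) (.g (nat_lit 2406) (.e (nat_lit 1530) (nat_lit 109) (.e (nat_lit 344117) (nat_lit 21) (.e (nat_lit 516165) (nat_lit 12) (.e (nat_lit 450586) (nat_lit 10) (.e (nat_lit 573478) (nat_lit 12) .nil))))) .nil)) 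
(.lf (nat_lit 59769) (.g (nat_lit 3208) (.e (nat_lit 1530) (nat_lit 109) (.e (nat_lit 344126) (nat_lit 25) (.e (nat_lit 548889) (nat_lit 9) (.e (nat_lit 65619) (nat_lit 10) (.e (nat_lit 344117) (nat_lit 21) (.e (nat_lit 516098) (nat_lit 0) (.e (nat_lit 7495) (nat_lit 402) .nil))))))) (.g (nat_lit 6) .nil .nil)))))) (.nd (nat_lit 3) (.nd (nat_lit 4) (.nd (nat_lit 5) 
(.lf (nat_lit 59717) (.g (nat_lit 3157) (.e (nat_lit 1529) (nat_lit 109) (.e (nat_lit 344133) (nat_lit 26) (.e (nat_lit 557105) (nat_lit 14) (.e (nat_lit 180252) (nat_lit 10) (.e (nat_lit 573474) (nat_lit 12) (.e (nat_lit 57516) (nat_lit 42) (.e (nat_lit 671748) (nat_lit 0) (.e (nat_lit 1302) (nat_lit 97) (.e (nat_lit 139273) (nat_lit 0) .nil))))))))) (.g (nat_lit 5) .nil .nil))) 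
(.lf (nat_lit 59749) (.g (nat_lit 2715) (.e (nat_lit 1530) (nat_lit 109) (.e (nat_lit 344126) (nat_lit 25) (.e (nat_lit 548872) (nat_lit 5) (.e (nat_lit 1598) (nat_lit 111) (.e (nat_lit 360466) (nat_lit 3) (.e (nat_lit 516105) (nat_lit 0) (.e (nat_lit 7562) (nat_lit 402) .nil))))))) (.g (nat_lit 0) .nil .nil)))) (.nd (nat_lit 5) 
(.lf (nat_lit 59733) (.g (nat_lit 3005) (.e (nat_lit 1530) (nat_lit 109) (.e (nat_lit 344117) (nat_lit 21) (.e (nat_lit 516165) (nat_lit 12) (.e (nat_lit 450579) (nat_lit 5) (.e (nat_lit 532501) (nat_lit 1) (.e (nat_lit 57765) (nat_lit 221) (.e (nat_lit 1074) (nat_lit 81) .nil))))))) (.g (nat_lit 4) .nil .nil))) 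
(.lf (nat_lit 59765) (.g (nat_lit 2054) (.e (nat_lit 1530) (nat_lit 109) (.e (nat_lit 344126) (nat_lit 25) (.e (nat_lit 548889) (nat_lit 9) (.e (nat_lit 65604) (nat_lit 9) (.e (nat_lit 336028) (nat_lit 3) (.e (nat_lit 98325) (nat_lit 17) (.e (nat_lit 7936) (nat_lit 402) .nil))))))) (.g (nat_lit 4) .nil .nil))))) (.nd (nat_lit 4) (.nd (nat_lit 5) 
(.lf (nat_lit 59725) (.g (nat_lit 3451) (.e (nat_lit 1529) (nat_lit 109) (.e (nat_lit 344169) (nat_lit 40) (.e (nat_lit 671759) (nat_lit 3) (.e (nat_lit 57479) (nat_lit 28) (.e (nat_lit 557109) (nat_lit 15) (.e (nat_lit 188458) (nat_lit 25) (.e (nat_lit 245782) (nat_lit 9) .nil))))))) (.g (nat_lit 6) .nil .nil))) 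
(.lf (nat_lit 59757) (.g (nat_lit 1250) (.e (nat_lit 1530) (nat_lit 109) (.e (nat_lit 344126) (nat_lit 25) (.e (nat_lit 548874) (nat_lit 5) (.e (nat_lit 1598) (nat_lit 111) .nil)))) .nil))) (.nd (nat_lit 5) 
(.lf (nat_lit 59741) (.g (nat_lit 3520) (.e (nat_lit 1530) (nat_lit 109) (.e (nat_lit 344117) (nat_lit 21) (.e (nat_lit 516166) (nat_lit 12) (.e (nat_lit 450588) (nat_lit 10) (.e (nat_lit 573473) (nat_lit 12) (.e (nat_lit 57569) (nat_lit 53) (.e (nat_lit 761869) (nat_lit 5) .nil))))))) (.g (nat_lit 5) .nil .nil))) 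
(.lf (nat_lit 59773) (.g (nat_lit 1511) (.e (nat_lit 1530) (nat_lit 109) (.e (nat_lit 344126) (nat_lit 25) (.e (nat_lit 548891) (nat_lit 11) (.e (nat_lit 81956) (nat_lit 23) .nil)))) .nil)))))) (.nd (nat_lit 2) (.nd (nat_lit 3) (.nd (nat_lit 4) (.nd (nat_lit 5) 
(.lf (nat_lit 59715) (.g (nat_lit 3144) (.e (nat_lit 1529) (nat_lit 109) (.e (nat_lit 344133) (nat_lit 26) (.e (nat_lit 557105) (nat_lit 14) (.e (nat_lit 180252) (nat_lit 10) (.e (nat_lit 573473) (nat_lit 12) (.e (nat_lit 57507) (nat_lit 39) (.e (nat_lit 647176) (nat_lit 0) (.e (nat_lit 2663) (nat_lit 167) (.e (nat_lit 196630) (nat_lit 9) .nil))))))))) (.g (nat_lit 4) .nil .nil))) 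
(.lf (nat_lit 59747) (.g (nat_lit 2190) (.e (nat_lit 1530) (nat_lit 109) (.e (nat_lit 344126) (nat_lit 25) (.e (nat_lit 548872) (nat_lit 5) (.e (nat_lit 1598) (nat_lit 111) (.e (nat_lit 360466) (nat_lit 3) (.e (nat_lit 516104) (nat_lit 0) (.e (nat_lit 7562) (nat_lit 402) .nil))))))) (.g (nat_lit 6) .nil .nil)))) (.nd (nat_lit 5) 
(.lf (nat_lit 59731) (.g (nat_lit 2118) (.e (nat_lit 1530) (nat_lit 109) (.e (nat_lit 344117) (nat_lit 21) (.e (nat_lit 516165) (nat_lit 12) (.e (nat_lit 450579) (nat_lit 5) .nil)))) .nil)) 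
(.lf (nat_lit 59763) (.g (nat_lit 1571) (.e (nat_lit 1530) (nat_lit 109) (.e (nat_lit 344126) (nat_lit 25) (.e (nat_lit 548889) (nat_lit 9) (.e (nat_lit 65598) (nat_lit 9) .nil)))) .nil)))) (.nd (nat_lit 4) (.nd (nat_lit 5) 
(.lf (nat_lit 59723) (.g (nat_lit 3385) (.e (nat_lit 1529) (nat_lit 109) (.e (nat_lit 344168) (nat_lit 40) (.e (nat_lit 671759) (nat_lit 3) (.e (nat_lit 57479) (nat_lit 28) (.e (nat_lit 557109) (nat_lit 15) (.e (nat_lit 188458) (nat_lit 25) (.e (nat_lit 245784) (nat_lit 9) .nil))))))) (.g (nat_lit 7) .nil .nil))) 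
(.lf (nat_lit 59755) (.g (nat_lit 2457) (.e (nat_lit 1530) (nat_lit 109) (.e (nat_lit 344126) (nat_lit 25) (.e (nat_lit 548873) (nat_lit 5) (.e (nat_lit 1598) (nat_lit 111) (.e (nat_lit 360466) (nat_lit 3) (.e (nat_lit 516105) (nat_lit 0) (.e (nat_lit 7562) (nat_lit 402) .nil))))))) (.g (nat_lit 0) .nil .nil)))) (.nd (nat_lit 5) 
(.lf (nat_lit 59739) (.g (nat_lit 2438) (.e (nat_lit 1530) (nat_lit 109) (.e (nat_lit 344117) (nat_lit 21) (.e (nat_lit 516166) (nat_lit 12) (.e (nat_lit 450587) (nat_lit 10) (.e (nat_lit 573478) (nat_lit 12) .nil))))) .nil)) 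
(.lf (nat_lit 59771) (.g (nat_lit 2190) (.e (nat_lit 1530) (nat_lit 109) (.e (nat_lit 344126) (nat_lit 25) (.e (nat_lit 548891) (nat_lit 11) (.e (nat_lit 81953) (nat_lit 22) (.e (nat_lit 90133) (nat_lit 9) .nil))))) .nil))))) (.nd (nat_lit 3) (.nd (nat_lit 4) (.nd (nat_lit 5) 
(.lf (nat_lit 59719) (.g (nat_lit 2728) (.e (nat_lit 1529) (nat_lit 109) (.e (nat_lit 344133) (nat_lit 26) (.e (nat_lit 557105) (nat_lit 14) (.e (nat_lit 180252) (nat_lit 10) (.e (nat_lit 573503) (nat_lit 18) .nil))))) .nil)) 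
(.lf (nat_lit 59751) (.g (nat_lit 2397) (.e (nat_lit 1530) (nat_lit 109) (.e (nat_lit 344126) (nat_lit 25) (.e (nat_lit 548873) (nat_lit 5) (.e (nat_lit 1598) (nat_lit 111) (.e (nat_lit 360466) (nat_lit 3) (.e (nat_lit 516100) (nat_lit 0) (.e (nat_lit 7562) (nat_lit 402) .nil))))))) (.g (nat_lit 0) .nil .nil)))) (.nd (nat_lit 5) 
(.lf (nat_lit 59735) (.g (nat_lit 2952) (.e (nat_lit 1530) (nat_lit 109) (.e (nat_lit 344117) (nat_lit 21) (.e (nat_lit 516165) (nat_lit 12) (.e (nat_lit 450579) (nat_lit 5) (.e (nat_lit 532504) (nat_lit 1) (.e (nat_lit 57766) (nat_lit 221) (.e (nat_lit 1074) (nat_lit 81) .nil))))))) (.g (nat_lit 4) .nil .nil))) 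
(.lf (nat_lit 59767) (.g (nat_lit 3820) (.e (nat_lit 1530) (nat_lit 109) (.e (nat_lit 344126) (nat_lit 25) (.e (nat_lit 548889) (nat_lit 9) (.e (nat_lit 65610) (nat_lit 10) (.e (nat_lit 344117) (nat_lit 21) (.e (nat_lit 516099) (nat_lit 0) (.e (nat_lit 7936) (nat_lit 402) .nil))))))) (.g (nat_lit 5) .nil .nil))))) (.nd (nat_lit 4) (.nd (nat_lit 5) 
(.lf (nat_lit 59727) (.g (nat_lit 542) (.e (nat_lit 1529) (nat_lit 109) (.e (nat_lit 344177) (nat_lit 43) (.e (nat_lit 770057) (nat_lit 5) .nil))) .nil)) 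
(.lf (nat_lit 59759) (.g (nat_lit 2455) (.e (nat_lit 1530) (nat_lit 109) (.e (nat_lit 344126) (nat_lit 25) (.e (nat_lit 548874) (nat_lit 5) (.e (nat_lit 1598) (nat_lit 111) (.e (nat_lit 360466) (nat_lit 3) (.e (nat_lit 516104) (nat_lit 0) (.e (nat_lit 7562) (nat_lit 402) .nil))))))) (.g (nat_lit 6) .nil .nil)))) (.nd (nat_lit 5) 
(.lf (nat_lit 59743) (.g (nat_lit 2783) (.e (nat_lit 1530) (nat_lit 109) (.e (nat_lit 344117) (nat_lit 21) (.e (nat_lit 516166) (nat_lit 12) (.e (nat_lit 450588) (nat_lit 10) (.e (nat_lit 573475) (nat_lit 12) (.e (nat_lit 57569) (nat_lit 53) (.e (nat_lit 761869) (nat_lit 5) .nil))))))) (.g (nat_lit 4) .nil .nil))) 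
(.lf (nat_lit 59775) (.g (nat_lit 3401) (.e (nat_lit 1530) (nat_lit 109) (.e (nat_lit 344126) (nat_lit 25) (.e (nat_lit 548891) (nat_lit 11) (.e (nat_lit 81956) (nat_lit 23) (.e (nat_lit 98320) (nat_lit 17) (.e (nat_lit 7495) (nat_lit 402) .nil)))))) (.g (nat_lit 4) .nil .nil)))))))))

noncomputable def tv821 : DT := (.nd (nat_lit 0) (.nd (nat_lit 1) (.nd (nat_lit 2) (.nd (nat_lit 3) (.nd (nat_lit 4) (.nd (nat_lit 5) 
(.lf (nat_lit 59776) (.g (nat_lit 650) (.e (nat_lit 1530) (nat_lit 109) (.e (nat_lit 344129) (nat_lit 26) (.e (nat_lit 557066) (nat_lit 9) .nil))) .nil)) 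
(.lf (nat_lit 59808) (.g (nat_lit 3774) (.e (nat_lit 1531) (nat_lit 109) (.e (nat_lit 344117) (nat_lit 21) (.e (nat_lit 516151) (nat_lit 9) (.e (nat_lit 426286) (nat_lit 10) (.e (nat_lit 434245) (nat_lit 28) (.e (nat_lit 573474) (nat_lit 12) (.e (nat_lit 57569) (nat_lit 53) (.e (nat_lit 761867) (nat_lit 5) .nil)))))))) (.g (nat_lit 6) .nil .nil)))) (.nd (nat_lit 5) 
(.lf (nat_lit 59792) (.g (nat_lit 1338) (.e (nat_lit 1531) (nat_lit 109) (.e (nat_lit 344115) (nat_lit 20) (.e (nat_lit 507906) (nat_lit 0) (.e (nat_lit 5412) (nat_lit 303) (.e (nat_lit 73746) (nat_lit 3) (.e (nat_lit 516100) (nat_lit 0) (.e (nat_lit 7936) (nat_lit 402) .nil))))))) (.g (nat_lit 6) .nil .nil))) 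
(.lf (nat_lit 59824) (.g (nat_lit 2653) (.e (nat_lit 1531) (nat_lit 109) (.e (nat_lit 344117) (nat_lit 21) (.e (nat_lit 516165) (nat_lit 12) (.e (nat_lit 450579) (nat_lit 5) (.e (nat_lit 532484) (nat_lit 0) .nil))))) .nil)))) (.nd (nat_lit 4) (.nd (nat_lit 5) 
(.lf (nat_lit 59784) (.g (nat_lit 413) (.e (nat_lit 1530) (nat_lit 109) (.e (nat_lit 344177) (nat_lit 43) (.e (nat_lit 770057) (nat_lit 5) .nil))) .nil)) 
(.lf (nat_lit 59816) (.g (nat_lit 3939) (.e (nat_lit 1531) (nat_lit 109) (.e (nat_lit 344117) (nat_lit 21) (.e (nat_lit 516151) (nat_lit 9) (.e (nat_lit 426286) (nat_lit 10) (.e (nat_lit 434248) (nat_lit 28) (.e (nat_lit 573473) (nat_lit 12) (.e (nat_lit 57569) (nat_lit 53) (.e (nat_lit 761867) (nat_lit 5) .nil)))))))) (.g (nat_lit 8) .nil .nil)))) (.nd (nat_lit 5) 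
(.lf (nat_lit 59800) (.g (nat_lit 1346) (.e (nat_lit 1531) (nat_lit 109) (.e (nat_lit 344115) (nat_lit 20) (.e (nat_lit 507908) (nat_lit 0) (.e (nat_lit 5412) (nat_lit 303) (.e (nat_lit 73746) (nat_lit 3) (.e (nat_lit 516105) (nat_lit 0) (.e (nat_lit 7936) (nat_lit 402) .nil))))))) (.g (nat_lit 6) .nil .nil))) 
(.lf (nat_lit 59832) (.g (nat_lit 3848) (.e (nat_lit 1531) (nat_lit 109) (.e (nat_lit 344117) (nat_lit 21) (.e (nat_lit 516165) (nat_lit 12) (.e (nat_lit 450586) (nat_lit 10) (.e (nat_lit 573473) (nat_lit 12) (.e (nat_lit 57569) (nat_lit 53) (.e (nat_lit 761868) (nat_lit 5) .nil))))))) (.g (nat_lit 0) .nil .nil)))))) (.nd (nat_lit 3) (.nd (nat_lit 4) (.nd (nat_lit 5) 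
(.lf (nat_lit 59780) (.g (nat_lit 5143) (.e (nat_lit 1530) (nat_lit 109) (.e (nat_lit 344169) (nat_lit 40) (.e (nat_lit 671762) (nat_lit 4) (.e (nat_lit 65629) (nat_lit 14) (.e (nat_lit 401454) (nat_lit 12) (.e (nat_lit 475143) (nat_lit 8) .nil)))))) (.g (nat_lit 5) .nil .nil))) 
(.lf (nat_lit 59812) (.g (nat_lit 3125) (.e (nat_lit 1531) (nat_lit 109) (.e (nat_lit 344117) (nat_lit 21) (.e (nat_lit 516151) (nat_lit 9) (.e (nat_lit 426286) (nat_lit 10) (.e (nat_lit 434247) (nat_lit 28) (.e (nat_lit 573478) (nat_lit 12) (.e (nat_lit 57568) (nat_lit 53) (.e (nat_lit 761866) (nat_lit 5) .nil)))))))) (.g (nat_lit 0) .nil .nil)))) (.nd (nat_lit 5) 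
(.lf (nat_lit 59796) (.g (nat_lit 1108) (.e (nat_lit 1531) (nat_lit 109) (.e (nat_lit 344115) (nat_lit 20) (.e (nat_lit 507907) (nat_lit 0) (.e (nat_lit 5412) (nat_lit 303) (.e (nat_lit 73746) (nat_lit 3) (.e (nat_lit 516104) (nat_lit 0) (.e (nat_lit 7936) (nat_lit 402) .nil))))))) (.g (nat_lit 5) .nil .nil))) 
(.lf (nat_lit 59828) (.g (nat_lit 2442) (.e (nat_lit 1531) (nat_lit 109) (.e (nat_lit 344117) (nat_lit 21) (.e (nat_lit 516165) (nat_lit 12) (.e (nat_lit 450579) (nat_lit 5) (.e (nat_lit 532504) (nat_lit 1) .nil))))) .nil)))) (.nd (nat_lit 4) (.nd (nat_lit 5) 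
(.lf (nat_lit 59788) (.g (nat_lit 2157) (.e (nat_lit 1530) (nat_lit 109) (.e (nat_lit 344177) (nat_lit 43) (.e (nat_lit 770072) (nat_lit 8) (.e (nat_lit 65625) (nat_lit 13) (.e (nat_lit 393234) (nat_lit 17) (.e (nat_lit 7536) (nat_lit 402) .nil)))))) (.g (nat_lit 4) .nil .nil))) 
(.lf (nat_lit 59820) (.g (nat_lit 3788) (.e (nat_lit 1531) (nat_lit 109) (.e (nat_lit 344117) (nat_lit 21) (.e (nat_lit 516151) (nat_lit 9) (.e (nat_lit 426286) (nat_lit 10) (.e (nat_lit 434248) (nat_lit 28) (.e (nat_lit 573475) (nat_lit 12) (.e (nat_lit 57568) (nat_lit 53) (.e (nat_lit 761868) (nat_lit 5) .nil)))))))) (.g (nat_lit 0) .nil .nil)))) (.nd (nat_lit 5) 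
(.lf (nat_lit 59804) (.g (nat_lit 4242) (.e (nat_lit 1531) (nat_lit 109) (.e (nat_lit 344117) (nat_lit 21) (.e (nat_lit 516151) (nat_lit 9) (.e (nat_lit 426286) (nat_lit 10) (.e (nat_lit 434245) (nat_lit 28) (.e (nat_lit 573473) (nat_lit 12) (.e (nat_lit 57569) (nat_lit 53) (.e (nat_lit 761868) (nat_lit 5) .nil)))))))) (.g (nat_lit 8) .nil .nil))) 
(.lf (nat_lit 59836) (.g (nat_lit 3048) (.e (nat_lit 1531) (nat_lit 109) (.e (nat_lit 344117) (nat_lit 21) (.e (nat_lit 516165) (nat_lit 12) (.e (nat_lit 450586) (nat_lit 10) (.e (nat_lit 573475) (nat_lit 12) (.e (nat_lit 57569) (nat_lit 53) (.e (nat_lit 761867) (nat_lit 5) .nil))))))) (.g (nat_lit 5) .nil .nil))))))) (.nd (nat_lit 2) (.nd (nat_lit 3) (.nd (nat_lit 4) (.nd (nat_lit 5) 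
(.lf (nat_lit 59778) (.g (nat_lit 4352) (.e (nat_lit 1530) (nat_lit 109) (.e (nat_lit 344169) (nat_lit 40) (.e (nat_lit 671759) (nat_lit 3) (.e (nat_lit 57479) (nat_lit 28) (.e (nat_lit 557109) (nat_lit 15) (.e (nat_lit 188458) (nat_lit 25) (.e (nat_lit 245786) (nat_lit 9) .nil))))))) (.g (nat_lit 0) .nil .nil))) 
(.lf (nat_lit 59810) (.g (nat_lit 3887) (.e (nat_lit 1531) (nat_lit 109) (.e (nat_lit 344117) (nat_lit 21) (.e (nat_lit 516151) (nat_lit 9) (.e (nat_lit 426286) (nat_lit 10) (.e (nat_lit 434245) (nat_lit 28) (.e (nat_lit 573474) (nat_lit 12) (.e (nat_lit 57569) (nat_lit 53) (.e (nat_lit 761869) (nat_lit 5) .nil)))))))) (.g (nat_lit 6) .nil .nil)))) (.nd (nat_lit 5) 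
(.lf (nat_lit 59794) (.g (nat_lit 1396) (.e (nat_lit 1531) (nat_lit 109) (.e (nat_lit 344115) (nat_lit 20) (.e (nat_lit 507906) (nat_lit 0) (.e (nat_lit 5412) (nat_lit 303) (.e (nat_lit 73746) (nat_lit 3) (.e (nat_lit 516105) (nat_lit 0) (.e (nat_lit 7936) (nat_lit 402) .nil))))))) (.g (nat_lit 6) .nil .nil))) 
(.lf (nat_lit 59826) (.g (nat_lit 2518) (.e (nat_lit 1531) (nat_lit 109) (.e (nat_lit 344117) (nat_lit 21) (.e (nat_lit 516165) (nat_lit 12) (.e (nat_lit 450579) (nat_lit 5) (.e (nat_lit 532501) (nat_lit 1) .nil))))) .nil)))) (.nd (nat_lit 4) (.nd (nat_lit 5) 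
(.lf (nat_lit 59786) (.g (nat_lit 1974) (.e (nat_lit 1530) (nat_lit 109) (.e (nat_lit 344177) (nat_lit 43) (.e (nat_lit 770071) (nat_lit 8) (.e (nat_lit 65625) (nat_lit 13) (.e (nat_lit 393234) (nat_lit 17) (.e (nat_lit 7536) (nat_lit 402) .nil)))))) (.g (nat_lit 4) .nil .nil))) 
(.lf (nat_lit 59818) (.g (nat_lit 4356) (.e (nat_lit 1531) (nat_lit 109) (.e (nat_lit 344117) (nat_lit 21) (.e (nat_lit 516151) (nat_lit 9) (.e (nat_lit 426286) (nat_lit 10) (.e (nat_lit 434248) (nat_lit 28) (.e (nat_lit 573473) (nat_lit 12) (.e (nat_lit 57569) (nat_lit 53) (.e (nat_lit 761869) (nat_lit 5) .nil)))))))) (.g (nat_lit 8) .nil .nil)))) (.nd (nat_lit 5) 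
(.lf (nat_lit 59802) (.g (nat_lit 4430) (.e (nat_lit 1531) (nat_lit 109) (.e (nat_lit 344117) (nat_lit 21) (.e (nat_lit 516151) (nat_lit 9) (.e (nat_lit 426286) (nat_lit 10) (.e (nat_lit 434245) (nat_lit 28) (.e (nat_lit 573473) (nat_lit 12) (.e (nat_lit 57569) (nat_lit 53) (.e (nat_lit 761866) (nat_lit 5) .nil)))))))) (.g (nat_lit 8) .nil .nil))) 
(.lf (nat_lit 59834) (.g (nat_lit 2810) (.e (nat_lit 1531) (nat_lit 109) (.e (nat_lit 344117) (nat_lit 21) (.e (nat_lit 516165) (nat_lit 12) (.e (nat_lit 450586) (nat_lit 10) (.e (nat_lit 573475) (nat_lit 12) (.e (nat_lit 57568) (nat_lit 53) (.e (nat_lit 761867) (nat_lit 5) .nil))))))) (.g (nat_lit 5) .nil .nil)))))) (.nd (nat_lit 3) (.nd (nat_lit 4) (.nd (nat_lit 5) 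
(.lf (nat_lit 59782) (.g (nat_lit 545) (.e (nat_lit 1530) (nat_lit 109) (.e (nat_lit 344177) (nat_lit 43) (.e (nat_lit 770055) (nat_lit 5) .nil))) .nil)) 
(.lf (nat_lit 59814) (.g (nat_lit 3005) (.e (nat_lit 1531) (nat_lit 109) (.e (nat_lit 344117) (nat_lit 21) (.e (nat_lit 516151) (nat_lit 9) (.e (nat_lit 426286) (nat_lit 10) (.e (nat_lit 434247) (nat_lit 28) (.e (nat_lit 573478) (nat_lit 12) (.e (nat_lit 57568) (nat_lit 53) (.e (nat_lit 761868) (nat_lit 5) .nil)))))))) (.g (nat_lit 0) .nil .nil)))) (.nd (nat_lit 5) 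
(.lf (nat_lit 59798) (.g (nat_lit 1285) (.e (nat_lit 1531) (nat_lit 109) (.e (nat_lit 344115) (nat_lit 20) (.e (nat_lit 507908) (nat_lit 0) (.e (nat_lit 5412) (nat_lit 303) (.e (nat_lit 73746) (nat_lit 3) (.e (nat_lit 516100) (nat_lit 0) (.e (nat_lit 7936) (nat_lit 402) .nil))))))) (.g (nat_lit 6) .nil .nil))) 
(.lf (nat_lit 59830) (.g (nat_lit 4004) (.e (nat_lit 1531) (nat_lit 109) (.e (nat_lit 344117) (nat_lit 21) (.e (nat_lit 516165) (nat_lit 12) (.e (nat_lit 450586) (nat_lit 10) (.e (nat_lit 573473) (nat_lit 12) (.e (nat_lit 57569) (nat_lit 53) (.e (nat_lit 761866) (nat_lit 5) .nil))))))) (.g (nat_lit 0) .nil .nil))))) (.nd (nat_lit 4) (.nd (nat_lit 5) 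
(.lf (nat_lit 59790) (.g (nat_lit 573) (.e (nat_lit 1530) (nat_lit 109) (.e (nat_lit 344177) (nat_lit 43) (.e (nat_lit 770074) (nat_lit 10) .nil))) .nil)) 
(.lf (nat_lit 59822) (.g (nat_lit 4671) (.e (nat_lit 1531) (nat_lit 109) (.e (nat_lit 344117) (nat_lit 21) (.e (nat_lit 516151) (nat_lit 9) (.e (nat_lit 426286) (nat_lit 10) (.e (nat_lit 434248) (nat_lit 28) (.e (nat_lit 573475) (nat_lit 12) (.e (nat_lit 57569) (nat_lit 53) (.e (nat_lit 761868) (nat_lit 5) .nil)))))))) (.g (nat_lit 0) .nil .nil)))) (.nd (nat_lit 5) 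
(.lf (nat_lit 59806) (.g (nat_lit 3548) (.e (nat_lit 1531) (nat_lit 109) (.e (nat_lit 344117) (nat_lit 21) (.e (nat_lit 516151) (nat_lit 9) (.e (nat_lit 426286) (nat_lit 10) (.e (nat_lit 434245) (nat_lit 28) (.e (nat_lit 573474) (nat_lit 12) (.e (nat_lit 57568) (nat_lit 53) (.e (nat_lit 761867) (nat_lit 5) .nil)))))))) (.g (nat_lit 7) .nil .nil))) 
(.lf (nat_lit 59838) (.g (nat_lit 3167) (.e (nat_lit 1531) (nat_lit 109) (.e (nat_lit 344117) (nat_lit 21) (.e (nat_lit 516165) (nat_lit 12) (.e (nat_lit 450586) (nat_lit 10) (.e (nat_lit 573475) (nat_lit 12) (.e (nat_lit 57569) (nat_lit 53) (.e (nat_lit 761869) (nat_lit 5) .nil))))))) (.g (nat_lit 5) .nil .nil)))))))) 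
(.nd (nat_lit 1) (.nd (nat_lit 2) (.nd (nat_lit 3) (.nd (nat_lit 4) (.nd (nat_lit 5) 
(.lf (nat_lit 59777) (.g (nat_lit 3122) (.e (nat_lit 1530) (nat_lit 109) (.e (nat_lit 344169) (nat_lit 40) (.e (nat_lit 671759) (nat_lit 3) (.e (nat_lit 57479) (nat_lit 28) (.e (nat_lit 557109) (nat_lit 15) (.e (nat_lit 188457) (nat_lit 25) (.e (nat_lit 245786) (nat_lit 9) .nil))))))) (.g (nat_lit 5) .nil .nil))) 
(.lf (nat_lit 59809) (.g (nat_lit 4783) (.e (nat_lit 1531) (nat_lit 109) (.e (nat_lit 344117) (nat_lit 21) (.e (nat_lit 516151) (nat_lit 9) (.e (nat_lit 426286) (nat_lit 10) (.e (nat_lit 434245) (nat_lit 28) (.e (nat_lit 573474) (nat_lit 12) (.e (nat_lit 57569) (nat_lit 53) (.e (nat_lit 761868) (nat_lit 5) .nil)))))))) (.g (nat_lit 0) .nil .nil)))) (.nd (nat_lit 5) 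
(.lf (nat_lit 59793) (.g (nat_lit 1175) (.e (nat_lit 1531) (nat_lit 109) (.e (nat_lit 344115) (nat_lit 20) (.e (nat_lit 507906) (nat_lit 0) (.e (nat_lit 5412) (nat_lit 303) (.e (nat_lit 73746) (nat_lit 3) (.e (nat_lit 516104) (nat_lit 0) (.e (nat_lit 7936) (nat_lit 402) .nil))))))) (.g (nat_lit 5) .nil .nil))) 
(.lf (nat_lit 59825) (.g (nat_lit 3118) (.e (nat_lit 1531) (nat_lit 109) (.e (nat_lit 344117) (nat_lit 21) (.e (nat_lit 516165) (nat_lit 12) (.e (nat_lit 450579) (nat_lit 5) (.e (nat_lit 532484) (nat_lit 0) (.e (nat_lit 996) (nat_lit 81) (.e (nat_lit 4460) (nat_lit 263) (.e (nat_lit 1079) (nat_lit 81) .nil)))))))) (.g (nat_lit 5) .nil .nil))))) (.nd (nat_lit 4) (.nd (nat_lit 5) 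
(.lf (nat_lit 59785) (.g (nat_lit 554) (.e (nat_lit 1530) (nat_lit 109) (.e (nat_lit 344177) (nat_lit 43) (.e (nat_lit 770058) (nat_lit 5) .nil))) .nil)) 
(.lf (nat_lit 59817) (.g (nat_lit 4307) (.e (nat_lit 1531) (nat_lit 109) (.e (nat_lit 344117) (nat_lit 21) (.e (nat_lit 516151) (nat_lit 9) (.e (nat_lit 426286) (nat_lit 10) (.e (nat_lit 434248) (nat_lit 28) (.e (nat_lit 573473) (nat_lit 12) (.e (nat_lit 57569) (nat_lit 53) (.e (nat_lit 761868) (nat_lit 5) .nil)))))))) (.g (nat_lit 8) .nil .nil)))) (.nd (nat_lit 5) 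
(.lf (nat_lit 59801) (.g (nat_lit 4221) (.e (nat_lit 1531) (nat_lit 109) (.e (nat_lit 344117) (nat_lit 21) (.e (nat_lit 516151) (nat_lit 9) (.e (nat_lit 426211) (nat_lit 9) .nil)))) .nil)) 
(.lf (nat_lit 59833) (.g (nat_lit 3896) (.e (nat_lit 1531) (nat_lit 109) (.e (nat_lit 344117) (nat_lit 21) (.e (nat_lit 516165) (nat_lit 12) (.e (nat_lit 450586) (nat_lit 10) (.e (nat_lit 573473) (nat_lit 12) (.e (nat_lit 57569) (nat_lit 53) (.e (nat_lit 761869) (nat_lit 5) .nil))))))) (.g (nat_lit 0) .nil .nil)))))) (.nd (nat_lit 3) (.nd (nat_lit 4) (.nd (nat_lit 5) 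
(.lf (nat_lit 59781) (.g (nat_lit 4233) (.e (nat_lit 1530) (nat_lit 109) (.e (nat_lit 344169) (nat_lit 40) (.e (nat_lit 671762) (nat_lit 4) (.e (nat_lit 65629) (nat_lit 14) (.e (nat_lit 401454) (nat_lit 12) (.e (nat_lit 483072) (nat_lit 8) .nil)))))) (.g (nat_lit 5) .nil .nil))) 
(.lf (nat_lit 59813) (.g (nat_lit 2738) (.e (nat_lit 1531) (nat_lit 109) (.e (nat_lit 344117) (nat_lit 21) (.e (nat_lit 516151) (nat_lit 9) (.e (nat_lit 426286) (nat_lit 10) (.e (nat_lit 434247) (nat_lit 28) (.e (nat_lit 573478) (nat_lit 12) (.e (nat_lit 57568) (nat_lit 53) (.e (nat_lit 761867) (nat_lit 5) .nil)))))))) (.g (nat_lit 6) .nil .nil)))) (.nd (nat_lit 5) 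
(.lf (nat_lit 59797) (.g (nat_lit 1339) (.e (nat_lit 1531) (nat_lit 109) (.e (nat_lit 344115) (nat_lit 20) (.e (nat_lit 507907) (nat_lit 0) (.e (nat_lit 5412) (nat_lit 303) (.e (nat_lit 73746) (nat_lit 3) (.e (nat_lit 516105) (nat_lit 0) (.e (nat_lit 7936) (nat_lit 402) .nil))))))) (.g (nat_lit 6) .nil .nil))) 
(.lf (nat_lit 59829) (.g (nat_lit 3588) (.e (nat_lit 1531) (nat_lit 109) (.e (nat_lit 344117) (nat_lit 21) (.e (nat_lit 516165) (nat_lit 12) (.e (nat_lit 450579) (nat_lit 5) (.e (nat_lit 532504) (nat_lit 1) (.e (nat_lit 57765) (nat_lit 221) (.e (nat_lit 1078) (nat_lit 81) .nil))))))) (.g (nat_lit 5) .nil .nil))))) (.nd (nat_lit 4) (.nd (nat_lit 5) 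
(.lf (nat_lit 59789) (.g (nat_lit 2494) (.e (nat_lit 1530) (nat_lit 109) (.e (nat_lit 344177) (nat_lit 43) (.e (nat_lit 770072) (nat_lit 8) (.e (nat_lit 65627) (nat_lit 13) (.e (nat_lit 393234) (nat_lit 17) (.e (nat_lit 7536) (nat_lit 402) .nil)))))) (.g (nat_lit 5) .nil .nil))) 
(.lf (nat_lit 59821) (.g (nat_lit 3724) (.e (nat_lit 1531) (nat_lit 109) (.e (nat_lit 344117) (nat_lit 21) (.e (nat_lit 516151) (nat_lit 9) (.e (nat_lit 426286) (nat_lit 10) (.e (nat_lit 434248) (nat_lit 28) (.e (nat_lit 573475) (nat_lit 12) (.e (nat_lit 57569) (nat_lit 53) (.e (nat_lit 761867) (nat_lit 5) .nil)))))))) (.g (nat_lit 6) .nil .nil)))) (.nd (nat_lit 5) 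
(.lf (nat_lit 59805) (.g (nat_lit 3930) (.e (nat_lit 1531) (nat_lit 109) (.e (nat_lit 344117) (nat_lit 21) (.e (nat_lit 516151) (nat_lit 9) (.e (nat_lit 426286) (nat_lit 10) (.e (nat_lit 434245) (nat_lit 28) (.e (nat_lit 573474) (nat_lit 12) (.e (nat_lit 57568) (nat_lit 53) (.e (nat_lit 761866) (nat_lit 5) .nil)))))))) (.g (nat_lit 0) .nil .nil))) 
(.lf (nat_lit 59837) (.g (nat_lit 4015) (.e (nat_lit 1531) (nat_lit 109) (.e (nat_lit 344117) (nat_lit 21) (.e (nat_lit 516165) (nat_lit 12) (.e (nat_lit 450586) (nat_lit 10) (.e (nat_lit 573475) (nat_lit 12) (.e (nat_lit 57569) (nat_lit 53) (.e (nat_lit 761868) (nat_lit 5) .nil))))))) (.g (nat_lit 7) .nil .nil))))))) (.nd (nat_lit 2) (.nd (nat_lit 3) (.nd (nat_lit 4) (.nd (nat_lit 5) 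
(.lf (nat_lit 59779) (.g (nat_lit 2239) (.e (nat_lit 1530) (nat_lit 109) (.e (nat_lit 344169) (nat_lit 40) (.e (nat_lit 671760) (nat_lit 4) (.e (nat_lit 65630) (nat_lit 14) (.e (nat_lit 401454) (nat_lit 12) (.e (nat_lit 483072) (nat_lit 8) .nil)))))) (.g (nat_lit 5) .nil .nil))) 
(.lf (nat_lit 59811) (.g (nat_lit 1712) (.e (nat_lit 1531) (nat_lit 109) (.e (nat_lit 344117) (nat_lit 21) (.e (nat_lit 516151) (nat_lit 9) (.e (nat_lit 426286) (nat_lit 10) (.e (nat_lit 434247) (nat_lit 28) .nil))))) .nil))) (.nd (nat_lit 5) 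
(.lf (nat_lit 59795) (.g (nat_lit 1276) (.e (nat_lit 1531) (nat_lit 109) (.e (nat_lit 344115) (nat_lit 20) (.e (nat_lit 507907) (nat_lit 0) (.e (nat_lit 5412) (nat_lit 303) (.e (nat_lit 73746) (nat_lit 3) (.e (nat_lit 516100) (nat_lit 0) (.e (nat_lit 7936) (nat_lit 402) .nil))))))) (.g (nat_lit 6) .nil .nil))) 
(.lf (nat_lit 59827) (.g (nat_lit 2340) (.e (nat_lit 1531) (nat_lit 109) (.e (nat_lit 344117) (nat_lit 21) (.e (nat_lit 516165) (nat_lit 12) (.e (nat_lit 450579) (nat_lit 5) (.e (nat_lit 532503) (nat_lit 1) .nil))))) .nil)))) (.nd (nat_lit 4) (.nd (nat_lit 5) 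
(.lf (nat_lit 59787) (.g (nat_lit 1304) (.e (nat_lit 1530) (nat_lit 109) (.e (nat_lit 344177) (nat_lit 43) (.e (nat_lit 770071) (nat_lit 8) (.e (nat_lit 65626) (nat_lit 13) .nil)))) .nil)) 
(.lf (nat_lit 59819) (.g (nat_lit 3526) (.e (nat_lit 1531) (nat_lit 109) (.e (nat_lit 344117) (nat_lit 21) (.e (nat_lit 516151) (nat_lit 9) (.e (nat_lit 426286) (nat_lit 10) (.e (nat_lit 434248) (nat_lit 28) (.e (nat_lit 573475) (nat_lit 12) (.e (nat_lit 57568) (nat_lit 53) (.e (nat_lit 761867) (nat_lit 5) .nil)))))))) (.g (nat_lit 6) .nil .nil)))) (.nd (nat_lit 5) 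
(.lf (nat_lit 59803) (.g (nat_lit 3889) (.e (nat_lit 1531) (nat_lit 109) (.e (nat_lit 344117) (nat_lit 21) (.e (nat_lit 516151) (nat_lit 9) (.e (nat_lit 426286) (nat_lit 10) (.e (nat_lit 434245) (nat_lit 28) (.e (nat_lit 573473) (nat_lit 12) (.e (nat_lit 57569) (nat_lit 53) (.e (nat_lit 761867) (nat_lit 5) .nil)))))))) (.g (nat_lit 8) .nil .nil))) 
(.lf (nat_lit 59835) (.g (nat_lit 3693) (.e (nat_lit 1531) (nat_lit 109) (.e (nat_lit 344117) (nat_lit 21) (.e (nat_lit 516165) (nat_lit 12) (.e (nat_lit 450586) (nat_lit 10) (.e (nat_lit 573475) (nat_lit 12) (.e (nat_lit 57569) (nat_lit 53) (.e (nat_lit 761866) (nat_lit 5) .nil))))))) (.g (nat_lit 6) .nil .nil)))))) (.nd (nat_lit 3) (.nd (nat_lit 4) (.nd (nat_lit 5) 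
(.lf (nat_lit 59783) (.g (nat_lit 446) (.e (nat_lit 1530) (nat_lit 109) (.e (nat_lit 344177) (nat_lit 43) (.e (nat_lit 770056) (nat_lit 5) .nil))) .nil)) 
(.lf (nat_lit 59815) (.g (nat_lit 4482) (.e (nat_lit 1531) (nat_lit 109) (.e (nat_lit 344117) (nat_lit 21) (.e (nat_lit 516151) (nat_lit 9) (.e (nat_lit 426286) (nat_lit 10) (.e (nat_lit 434248) (nat_lit 28) (.e (nat_lit 573473) (nat_lit 12) (.e (nat_lit 57569) (nat_lit 53) (.e (nat_lit 761866) (nat_lit 5) .nil)))))))) (.g (nat_lit 8) .nil .nil)))) (.nd (nat_lit 5) 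
(.lf (nat_lit 59799) (.g (nat_lit 1114) (.e (nat_lit 1531) (nat_lit 109) (.e (nat_lit 344115) (nat_lit 20) (.e (nat_lit 507908) (nat_lit 0) (.e (nat_lit 5412) (nat_lit 303) (.e (nat_lit 73746) (nat_lit 3) (.e (nat_lit 516104) (nat_lit 0) (.e (nat_lit 7936) (nat_lit 402) .nil))))))) (.g (nat_lit 5) .nil .nil))) 
(.lf (nat_lit 59831) (.g (nat_lit 3458) (.e (nat_lit 1531) (nat_lit 109) (.e (nat_lit 344117) (nat_lit 21) (.e (nat_lit 516165) (nat_lit 12) (.e (nat_lit 450586) (nat_lit 10) (.e (nat_lit 573473) (nat_lit 12) (.e (nat_lit 57569) (nat_lit 53) (.e (nat_lit 761867) (nat_lit 5) .nil))))))) (.g (nat_lit 7) .nil .nil))))) (.nd (nat_lit 4) (.nd (nat_lit 5) 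
(.lf (nat_lit 59791) (.g (nat_lit 535) (.e (nat_lit 1531) (nat_lit 109) (.e (nat_lit 344097) (nat_lit 18) (.e (nat_lit 5195) (nat_lit 294) .nil))) .nil)) 
(.lf (nat_lit 59823) (.g (nat_lit 1736) (.e (nat_lit 1531) (nat_lit 109) (.e (nat_lit 344117) (nat_lit 21) (.e (nat_lit 516165) (nat_lit 12) (.e (nat_lit 450579) (nat_lit 5) .nil)))) .nil))) (.nd (nat_lit 5) 
(.lf (nat_lit 59807) (.g (nat_lit 3811) (.e (nat_lit 1531) (nat_lit 109) (.e (nat_lit 344117) (nat_lit 21) (.e (nat_lit 516151) (nat_lit 9) (.e (nat_lit 426286) (nat_lit 10) (.e (nat_lit 434245) (nat_lit 28) (.e (nat_lit 573474) (nat_lit 12) (.e (nat_lit 57568) (nat_lit 53) (.e (nat_lit 761868) (nat_lit 5) .nil)))))))) (.g (nat_lit 0) .nil .nil))) 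
(.lf (nat_lit 59839) (.g (nat_lit 2251) (.e (nat_lit 1531) (nat_lit 109) (.e (nat_lit 344117) (nat_lit 21) (.e (nat_lit 516165) (nat_lit 12) (.e (nat_lit 450586) (nat_lit 10) (.e (nat_lit 573478) (nat_lit 12) (.e (nat_lit 57568) (nat_lit 53) (.e (nat_lit 761867) (nat_lit 5) .nil))))))) (.g (nat_lit 5) .nil .nil)))))))))

noncomputable def tv822 : DT := (.nd (nat_lit 0) (.nd (nat_lit 1) (.nd (nat_lit 2) (.nd (nat_lit 3) (.nd (nat_lit 4) (.nd (nat_lit 5) 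
(.lf (nat_lit 59840) (.g (nat_lit 1724) (.e (nat_lit 1531) (nat_lit 109) (.e (nat_lit 344117) (nat_lit 21) (.e (nat_lit 516165) (nat_lit 12) (.e (nat_lit 450587) (nat_lit 10) .nil)))) .nil)) 
(.lf (nat_lit 59872) (.g (nat_lit 1882) (.e (nat_lit 1531) (nat_lit 109) (.e (nat_lit 344129) (nat_lit 26) (.e (nat_lit 557097) (nat_lit 13) (.e (nat_lit 172133) (nat_lit 15) .nil)))) .nil))) (.nd (nat_lit 5) 
(.lf (nat_lit 59856) (.g (nat_lit 2211) (.e (nat_lit 1531) (nat_lit 109) (.e (nat_lit 344126) (nat_lit 25) (.e (nat_lit 548872) (nat_lit 5) (.e (nat_lit 1598) (nat_lit 111) (.e (nat_lit 360466) (nat_lit 3) (.e (nat_lit 516100) (nat_lit 0) (.e (nat_lit 7936) (nat_lit 402) .nil))))))) (.g (nat_lit 6) .nil .nil))) 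
(.lf (nat_lit 59888) (.g (nat_lit 2413) (.e (nat_lit 1532) (nat_lit 109) (.e (nat_lit 344117) (nat_lit 21) (.e (nat_lit 516165) (nat_lit 12) (.e (nat_lit 458496) (nat_lit 3) .nil)))) .nil)))) (.nd (nat_lit 4) (.nd (nat_lit 5) 
(.lf (nat_lit 59848) (.g (nat_lit 4355) (.e (nat_lit 1531) (nat_lit 109) (.e (nat_lit 344117) (nat_lit 21) (.e (nat_lit 516166) (nat_lit 12) (.e (nat_lit 450588) (nat_lit 10) (.e (nat_lit 573473) (nat_lit 12) (.e (nat_lit 57569) (nat_lit 53) (.e (nat_lit 761866) (nat_lit 5) .nil))))))) (.g (nat_lit 0) .nil .nil))) 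
(.lf (nat_lit 59880) (.g (nat_lit 1291) (.e (nat_lit 1532) (nat_lit 109) (.e (nat_lit 344117) (nat_lit 21) (.e (nat_lit 516097) (nat_lit 0) (.e (nat_lit 7593) (nat_lit 407) .nil)))) .nil))) (.nd (nat_lit 5) 
(.lf (nat_lit 59864) (.g (nat_lit 3018) (.e (nat_lit 1531) (nat_lit 109) (.e (nat_lit 344126) (nat_lit 25) (.e (nat_lit 548874) (nat_lit 5) (.e (nat_lit 1598) (nat_lit 111) (.e (nat_lit 360466) (nat_lit 3) (.e (nat_lit 516100) (nat_lit 0) (.e (nat_lit 7936) (nat_lit 402) .nil))))))) (.g (nat_lit 6) .nil .nil))) 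
(.lf (nat_lit 59896) (.g (nat_lit 3001) (.e (nat_lit 1532) (nat_lit 109) (.e (nat_lit 344117) (nat_lit 21) (.e (nat_lit 516166) (nat_lit 12) (.e (nat_lit 450588) (nat_lit 10) (.e (nat_lit 573475) (nat_lit 12) .nil))))) .nil))))) (.nd (nat_lit 3) (.nd (nat_lit 4) (.nd (nat_lit 5) 
(.lf (nat_lit 59844) (.g (nat_lit 2838) (.e (nat_lit 1531) (nat_lit 109) (.e (nat_lit 344117) (nat_lit 21) (.e (nat_lit 516166) (nat_lit 12) (.e (nat_lit 450587) (nat_lit 10) (.e (nat_lit 573472) (nat_lit 12) .nil))))) .nil)) 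
(.lf (nat_lit 59876) (.g (nat_lit 4457) (.e (nat_lit 1531) (nat_lit 109) (.e (nat_lit 344169) (nat_lit 40) (.e (nat_lit 671762) (nat_lit 4) (.e (nat_lit 65629) (nat_lit 14) (.e (nat_lit 401454) (nat_lit 12) (.e (nat_lit 483072) (nat_lit 8) .nil)))))) (.g (nat_lit 5) .nil .nil)))) (.nd (nat_lit 5) 
(.lf (nat_lit 59860) (.g (nat_lit 2112) (.e (nat_lit 1531) (nat_lit 109) (.e (nat_lit 344126) (nat_lit 25) (.e (nat_lit 548873) (nat_lit 5) (.e (nat_lit 1598) (nat_lit 111) (.e (nat_lit 360466) (nat_lit 3) (.e (nat_lit 516100) (nat_lit 0) (.e (nat_lit 7936) (nat_lit 402) .nil))))))) (.g (nat_lit 6) .nil .nil))) 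
(.lf (nat_lit 59892) (.g (nat_lit 2466) (.e (nat_lit 1532) (nat_lit 109) (.e (nat_lit 344117) (nat_lit 21) (.e (nat_lit 516166) (nat_lit 12) (.e (nat_lit 458496) (nat_lit 3) .nil)))) .nil)))) (.nd (nat_lit 4) (.nd (nat_lit 5) 
(.lf (nat_lit 59852) (.g (nat_lit 3108) (.e (nat_lit 1531) (nat_lit 109) (.e (nat_lit 344117) (nat_lit 21) (.e (nat_lit 516166) (nat_lit 12) (.e (nat_lit 450588) (nat_lit 10) (.e (nat_lit 573475) (nat_lit 12) (.e (nat_lit 57568) (nat_lit 53) (.e (nat_lit 761867) (nat_lit 5) .nil))))))) (.g (nat_lit 5) .nil .nil))) 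
(.lf (nat_lit 59884) (.g (nat_lit 4678) (.e (nat_lit 1532) (nat_lit 109) (.e (nat_lit 344117) (nat_lit 21) (.e (nat_lit 516151) (nat_lit 9) (.e (nat_lit 426211) (nat_lit 9) .nil)))) .nil))) (.nd (nat_lit 5) 
(.lf (nat_lit 59868) (.g (nat_lit 2333) (.e (nat_lit 1531) (nat_lit 109) (.e (nat_lit 344126) (nat_lit 25) (.e (nat_lit 548889) (nat_lit 9) (.e (nat_lit 65619) (nat_lit 10) (.e (nat_lit 344117) (nat_lit 21) .nil))))) .nil)) 
(.lf (nat_lit 59900) (.g (nat_lit 809) (.e (nat_lit 1532) (nat_lit 109) (.e (nat_lit 344126) (nat_lit 25) (.e (nat_lit 548872) (nat_lit 5) (.e (nat_lit 1598) (nat_lit 111) .nil)))) .nil)))))) (.nd (nat_lit 2) (.nd (nat_lit 3) (.nd (nat_lit 4) (.nd (nat_lit 5) 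
(.lf (nat_lit 59842) (.g (nat_lit 3461) (.e (nat_lit 1531) (nat_lit 109) (.e (nat_lit 344117) (nat_lit 21) (.e (nat_lit 516165) (nat_lit 12) (.e (nat_lit 450588) (nat_lit 10) (.e (nat_lit 573475) (nat_lit 12) (.e (nat_lit 57568) (nat_lit 53) (.e (nat_lit 761866) (nat_lit 5) .nil))))))) (.g (nat_lit 4) .nil .nil))) 
(.lf (nat_lit 59874) (.g (nat_lit 2160) (.e (nat_lit 1531) (nat_lit 109) (.e (nat_lit 344169) (nat_lit 40) (.e (nat_lit 671759) (nat_lit 3) (.e (nat_lit 57479) (nat_lit 28) (.e (nat_lit 557109) (nat_lit 15) (.e (nat_lit 188458) (nat_lit 25) (.e (nat_lit 253696) (nat_lit 9) .nil))))))) (.g (nat_lit 4) .nil .nil)))) (.nd (nat_lit 5) 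
(.lf (nat_lit 59858) (.g (nat_lit 2010) (.e (nat_lit 1531) (nat_lit 109) (.e (nat_lit 344126) (nat_lit 25) (.e (nat_lit 548872) (nat_lit 5) (.e (nat_lit 1598) (nat_lit 111) (.e (nat_lit 360466) (nat_lit 3) (.e (nat_lit 516105) (nat_lit 0) (.e (nat_lit 7936) (nat_lit 402) .nil))))))) (.g (nat_lit 5) .nil .nil))) 
(.lf (nat_lit 59890) (.g (nat_lit 2869) (.e (nat_lit 1532) (nat_lit 109) (.e (nat_lit 344117) (nat_lit 21) (.e (nat_lit 516165) (nat_lit 12) (.e (nat_lit 450579) (nat_lit 5) (.e (nat_lit 532503) (nat_lit 1) .nil))))) .nil)))) (.nd (nat_lit 4) (.nd (nat_lit 5) 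
(.lf (nat_lit 59850) (.g (nat_lit 4203) (.e (nat_lit 1531) (nat_lit 109) (.e (nat_lit 344117) (nat_lit 21) (.e (nat_lit 516166) (nat_lit 12) (.e (nat_lit 450588) (nat_lit 10) (.e (nat_lit 573473) (nat_lit 12) (.e (nat_lit 57569) (nat_lit 53) (.e (nat_lit 761868) (nat_lit 5) .nil))))))) (.g (nat_lit 0) .nil .nil))) 
(.lf (nat_lit 59882) (.g (nat_lit 713) (.e (nat_lit 1532) (nat_lit 109) (.e (nat_lit 344117) (nat_lit 21) (.e (nat_lit 516106) (nat_lit 0) .nil))) .nil))) (.nd (nat_lit 5) 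
(.lf (nat_lit 59866) (.g (nat_lit 2878) (.e (nat_lit 1531) (nat_lit 109) (.e (nat_lit 344126) (nat_lit 25) (.e (nat_lit 548874) (nat_lit 5) (.e (nat_lit 1598) (nat_lit 111) (.e (nat_lit 360466) (nat_lit 3) (.e (nat_lit 516105) (nat_lit 0) (.e (nat_lit 7936) (nat_lit 402) .nil))))))) (.g (nat_lit 6) .nil .nil))) 
(.lf (nat_lit 59898) (.g (nat_lit 1822) (.e (nat_lit 1532) (nat_lit 109) (.e (nat_lit 344117) (nat_lit 21) (.e (nat_lit 516185) (nat_lit 16) (.e (nat_lit 491560) (nat_lit 10) .nil)))) .nil))))) (.nd (nat_lit 3) (.nd (nat_lit 4) (.nd (nat_lit 5) 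
(.lf (nat_lit 59846) (.g (nat_lit 2268) (.e (nat_lit 1531) (nat_lit 109) (.e (nat_lit 344117) (nat_lit 21) (.e (nat_lit 516166) (nat_lit 12) (.e (nat_lit 450587) (nat_lit 10) (.e (nat_lit 573478) (nat_lit 12) (.e (nat_lit 57568) (nat_lit 53) (.e (nat_lit 761867) (nat_lit 5) .nil))))))) (.g (nat_lit 5) .nil .nil))) 
(.lf (nat_lit 59878) (.g (nat_lit 2408) (.e (nat_lit 1532) (nat_lit 109) (.e (nat_lit 344068) (nat_lit 0) (.e (nat_lit 3090) (nat_lit 191) (.e (nat_lit 483380) (nat_lit 23) (.e (nat_lit 336327) (nat_lit 19) .nil))))) .nil))) (.nd (nat_lit 5) 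
(.lf (nat_lit 59862) (.g (nat_lit 1957) (.e (nat_lit 1531) (nat_lit 109) (.e (nat_lit 344126) (nat_lit 25) (.e (nat_lit 548873) (nat_lit 5) (.e (nat_lit 1598) (nat_lit 111) (.e (nat_lit 360466) (nat_lit 3) (.e (nat_lit 516105) (nat_lit 0) (.e (nat_lit 7936) (nat_lit 402) .nil))))))) (.g (nat_lit 6) .nil .nil))) 
(.lf (nat_lit 59894) (.g (nat_lit 2370) (.e (nat_lit 1532) (nat_lit 109) (.e (nat_lit 344117) (nat_lit 21) (.e (nat_lit 516166) (nat_lit 12) (.e (nat_lit 450587) (nat_lit 10) .nil)))) .nil)))) (.nd (nat_lit 4) (.nd (nat_lit 5) 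
(.lf (nat_lit 59854) (.g (nat_lit 3400) (.e (nat_lit 1531) (nat_lit 109) (.e (nat_lit 344117) (nat_lit 21) (.e (nat_lit 516166) (nat_lit 12) (.e (nat_lit 450588) (nat_lit 10) (.e (nat_lit 573475) (nat_lit 12) (.e (nat_lit 57569) (nat_lit 53) (.e (nat_lit 761867) (nat_lit 5) .nil))))))) (.g (nat_lit 5) .nil .nil))) 
(.lf (nat_lit 59886) (.g (nat_lit 2730) (.e (nat_lit 1532) (nat_lit 109) (.e (nat_lit 344117) (nat_lit 21) (.e (nat_lit 516151) (nat_lit 9) (.e (nat_lit 426286) (nat_lit 10) (.e (nat_lit 434247) (nat_lit 28) .nil))))) .nil))) (.nd (nat_lit 5) 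
(.lf (nat_lit 59870) (.g (nat_lit 2841) (.e (nat_lit 1531) (nat_lit 109) (.e (nat_lit 344129) (nat_lit 26) (.e (nat_lit 557097) (nat_lit 13) (.e (nat_lit 172063) (nat_lit 2) (.e (nat_lit 196656) (nat_lit 11) (.e (nat_lit 16392) (nat_lit 0) (.e (nat_lit 3281) (nat_lit 200) (.e (nat_lit 557061) (nat_lit 0) .nil)))))))) (.g (nat_lit 5) .nil .nil))) 
(.lf (nat_lit 59902) (.g (nat_lit 1743) (.e (nat_lit 1532) (nat_lit 109) (.e (nat_lit 344126) (nat_lit 25) (.e (nat_lit 548872) (nat_lit 5) (.e (nat_lit 1598) (nat_lit 111) (.e (nat_lit 360466) (nat_lit 3) (.e (nat_lit 516100) (nat_lit 0) (.e (nat_lit 7542) (nat_lit 402) .nil))))))) (.g (nat_lit 5) .nil .nil)))))))) 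
(.nd (nat_lit 1) (.nd (nat_lit 2) (.nd (nat_lit 3) (.nd (nat_lit 4) (.nd (nat_lit 5) 
(.lf (nat_lit 59841) (.g (nat_lit 3355) (.e (nat_lit 1531) (nat_lit 109) (.e (nat_lit 344117) (nat_lit 21) (.e (nat_lit 516165) (nat_lit 12) (.e (nat_lit 450588) (nat_lit 10) (.e (nat_lit 573475) (nat_lit 12) .nil))))) .nil)) 
(.lf (nat_lit 59873) (.g (nat_lit 1998) (.e (nat_lit 1531) (nat_lit 109) (.e (nat_lit 344130) (nat_lit 26) (.e (nat_lit 557097) (nat_lit 13) (.e (nat_lit 172064) (nat_lit 2) (.e (nat_lit 196656) (nat_lit 11) .nil))))) .nil))) (.nd (nat_lit 5) 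
(.lf (nat_lit 59857) (.g (nat_lit 2065) (.e (nat_lit 1531) (nat_lit 109) (.e (nat_lit 344126) (nat_lit 25) (.e (nat_lit 548872) (nat_lit 5) (.e (nat_lit 1598) (nat_lit 111) (.e (nat_lit 360466) (nat_lit 3) (.e (nat_lit 516104) (nat_lit 0) (.e (nat_lit 7936) (nat_lit 402) .nil))))))) (.g (nat_lit 5) .nil .nil))) 
(.lf (nat_lit 59889) (.g (nat_lit 2264) (.e (nat_lit 1532) (nat_lit 109) (.e (nat_lit 344117) (nat_lit 21) (.e (nat_lit 516165) (nat_lit 12) (.e (nat_lit 450579) (nat_lit 5) .nil)))) .nil)))) (.nd (nat_lit 4) (.nd (nat_lit 5) 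
(.lf (nat_lit 59849) (.g (nat_lit 3816) (.e (nat_lit 1531) (nat_lit 109) (.e (nat_lit 344117) (nat_lit 21) (.e (nat_lit 516166) (nat_lit 12) (.e (nat_lit 450588) (nat_lit 10) (.e (nat_lit 573473) (nat_lit 12) (.e (nat_lit 57569) (nat_lit 53) (.e (nat_lit 761867) (nat_lit 5) .nil))))))) (.g (nat_lit 7) .nil .nil))) 
(.lf (nat_lit 59881) (.g (nat_lit 1272) (.e (nat_lit 1532) (nat_lit 109) (.e (nat_lit 344117) (nat_lit 21) (.e (nat_lit 516098) (nat_lit 0) (.e (nat_lit 7593) (nat_lit 407) .nil)))) .nil))) (.nd (nat_lit 5) 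
(.lf (nat_lit 59865) (.g (nat_lit 2941) (.e (nat_lit 1531) (nat_lit 109) (.e (nat_lit 344126) (nat_lit 25) (.e (nat_lit 548874) (nat_lit 5) (.e (nat_lit 1598) (nat_lit 111) (.e (nat_lit 360466) (nat_lit 3) (.e (nat_lit 516104) (nat_lit 0) (.e (nat_lit 7936) (nat_lit 402) .nil))))))) (.g (nat_lit 6) .nil .nil))) 
(.lf (nat_lit 59897) (.g (nat_lit 1907) (.e (nat_lit 1532) (nat_lit 109) (.e (nat_lit 344117) (nat_lit 21) (.e (nat_lit 516185) (nat_lit 16) (.e (nat_lit 491558) (nat_lit 10) .nil)))) .nil))))) (.nd (nat_lit 3) (.nd (nat_lit 4) (.nd (nat_lit 5) 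
(.lf (nat_lit 59845) (.g (nat_lit 2647) (.e (nat_lit 1531) (nat_lit 109) (.e (nat_lit 344117) (nat_lit 21) (.e (nat_lit 516166) (nat_lit 12) (.e (nat_lit 450587) (nat_lit 10) (.e (nat_lit 573478) (nat_lit 12) (.e (nat_lit 57568) (nat_lit 53) (.e (nat_lit 761866) (nat_lit 5) .nil))))))) (.g (nat_lit 0) .nil .nil))) 
(.lf (nat_lit 59877) (.g (nat_lit 1412) (.e (nat_lit 1532) (nat_lit 109) (.e (nat_lit 344068) (nat_lit 0) (.e (nat_lit 3090) (nat_lit 191) (.e (nat_lit 483380) (nat_lit 23) .nil)))) .nil))) (.nd (nat_lit 5) 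
(.lf (nat_lit 59861) (.g (nat_lit 2002) (.e (nat_lit 1531) (nat_lit 109) (.e (nat_lit 344126) (nat_lit 25) (.e (nat_lit 548873) (nat_lit 5) (.e (nat_lit 1598) (nat_lit 111) (.e (nat_lit 360466) (nat_lit 3) (.e (nat_lit 516104) (nat_lit 0) (.e (nat_lit 7936) (nat_lit 402) .nil))))))) (.g (nat_lit 6) .nil .nil))) 
(.lf (nat_lit 59893) (.g (nat_lit 2617) (.e (nat_lit 1532) (nat_lit 109) (.e (nat_lit 344117) (nat_lit 21) (.e (nat_lit 516166) (nat_lit 12) (.e (nat_lit 450579) (nat_lit 5) .nil)))) .nil)))) (.nd (nat_lit 4) (.nd (nat_lit 5) 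
(.lf (nat_lit 59853) (.g (nat_lit 3380) (.e (nat_lit 1531) (nat_lit 109) (.e (nat_lit 344117) (nat_lit 21) (.e (nat_lit 516166) (nat_lit 12) (.e (nat_lit 450588) (nat_lit 10) (.e (nat_lit 573475) (nat_lit 12) (.e (nat_lit 57568) (nat_lit 53) (.e (nat_lit 761868) (nat_lit 5) .nil))))))) (.g (nat_lit 0) .nil .nil))) 
(.lf (nat_lit 59885) (.g (nat_lit 2625) (.e (nat_lit 1532) (nat_lit 109) (.e (nat_lit 344117) (nat_lit 21) (.e (nat_lit 516151) (nat_lit 9) (.e (nat_lit 426286) (nat_lit 10) (.e (nat_lit 434245) (nat_lit 28) .nil))))) .nil))) (.nd (nat_lit 5) 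
(.lf (nat_lit 59869) (.g (nat_lit 1904) (.e (nat_lit 1531) (nat_lit 109) (.e (nat_lit 344126) (nat_lit 25) (.e (nat_lit 548891) (nat_lit 11) (.e (nat_lit 81956) (nat_lit 23) .nil)))) .nil)) 
(.lf (nat_lit 59901) (.g (nat_lit 1631) (.e (nat_lit 1532) (nat_lit 109) (.e (nat_lit 344126) (nat_lit 25) (.e (nat_lit 548872) (nat_lit 5) (.e (nat_lit 1598) (nat_lit 111) (.e (nat_lit 360466) (nat_lit 3) (.e (nat_lit 516100) (nat_lit 0) (.e (nat_lit 7519) (nat_lit 402) .nil))))))) (.g (nat_lit 5) .nil .nil))))))) (.nd (nat_lit 2) (.nd (nat_lit 3) (.nd (nat_lit 4) (.nd (nat_lit 5) 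
(.lf (nat_lit 59843) (.g (nat_lit 3604) (.e (nat_lit 1531) (nat_lit 109) (.e (nat_lit 344117) (nat_lit 21) (.e (nat_lit 516165) (nat_lit 12) (.e (nat_lit 450588) (nat_lit 10) (.e (nat_lit 573475) (nat_lit 12) (.e (nat_lit 57568) (nat_lit 53) (.e (nat_lit 761869) (nat_lit 5) .nil))))))) (.g (nat_lit 4) .nil .nil))) 
(.lf (nat_lit 59875) (.g (nat_lit 2618) (.e (nat_lit 1531) (nat_lit 109) (.e (nat_lit 344169) (nat_lit 40) (.e (nat_lit 671762) (nat_lit 4) (.e (nat_lit 65628) (nat_lit 14) (.e (nat_lit 401454) (nat_lit 12) .nil))))) .nil))) (.nd (nat_lit 5) 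
(.lf (nat_lit 59859) (.g (nat_lit 2030) (.e (nat_lit 1531) (nat_lit 109) (.e (nat_lit 344126) (nat_lit 25) (.e (nat_lit 548872) (nat_lit 5) (.e (nat_lit 1598) (nat_lit 111) (.e (nat_lit 360466) (nat_lit 3) (.e (nat_lit 516117) (nat_lit 1) (.e (nat_lit 164413) (nat_lit 260) (.e (nat_lit 1079) (nat_lit 81) .nil)))))))) (.g (nat_lit 5) .nil .nil))) 
(.lf (nat_lit 59891) (.g (nat_lit 2155) (.e (nat_lit 1532) (nat_lit 109) (.e (nat_lit 344117) (nat_lit 21) (.e (nat_lit 516165) (nat_lit 12) (.e (nat_lit 450586) (nat_lit 10) .nil)))) .nil)))) (.nd (nat_lit 4) (.nd (nat_lit 5) 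
(.lf (nat_lit 59851) (.g (nat_lit 4244) (.e (nat_lit 1531) (nat_lit 109) (.e (nat_lit 344117) (nat_lit 21) (.e (nat_lit 516166) (nat_lit 12) (.e (nat_lit 450588) (nat_lit 10) (.e (nat_lit 573473) (nat_lit 12) (.e (nat_lit 57569) (nat_lit 53) (.e (nat_lit 761869) (nat_lit 5) .nil))))))) (.g (nat_lit 0) .nil .nil))) 
(.lf (nat_lit 59883) (.g (nat_lit 3019) (.e (nat_lit 1532) (nat_lit 109) (.e (nat_lit 344117) (nat_lit 21) (.e (nat_lit 516139) (nat_lit 7) (.e (nat_lit 409645) (nat_lit 18) .nil)))) .nil))) (.nd (nat_lit 5) 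
(.lf (nat_lit 59867) (.g (nat_lit 2544) (.e (nat_lit 1531) (nat_lit 109) (.e (nat_lit 344126) (nat_lit 25) (.e (nat_lit 548889) (nat_lit 9) (.e (nat_lit 65610) (nat_lit 10) (.e (nat_lit 344117) (nat_lit 21) .nil))))) .nil)) 
(.lf (nat_lit 59899) (.g (nat_lit 748) (.e (nat_lit 1532) (nat_lit 109) (.e (nat_lit 344117) (nat_lit 21) (.e (nat_lit 516195) (nat_lit 26) .nil))) .nil))))) (.nd (nat_lit 3) (.nd (nat_lit 4) (.nd (nat_lit 5) 
(.lf (nat_lit 59847) (.g (nat_lit 2544) (.e (nat_lit 1531) (nat_lit 109) (.e (nat_lit 344117) (nat_lit 21) (.e (nat_lit 516166) (nat_lit 12) (.e (nat_lit 450587) (nat_lit 10) (.e (nat_lit 573478) (nat_lit 12) (.e (nat_lit 57568) (nat_lit 53) (.e (nat_lit 761868) (nat_lit 5) .nil))))))) (.g (nat_lit 0) .nil .nil))) 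
(.lf (nat_lit 59879) (.g (nat_lit 2381) (.e (nat_lit 1532) (nat_lit 109) (.e (nat_lit 344068) (nat_lit 0) (.e (nat_lit 3090) (nat_lit 191) (.e (nat_lit 483380) (nat_lit 23) (.e (nat_lit 336328) (nat_lit 19) .nil))))) .nil))) (.nd (nat_lit 5) 
(.lf (nat_lit 59863) (.g (nat_lit 1681) (.e (nat_lit 1531) (nat_lit 109) (.e (nat_lit 344126) (nat_lit 25) (.e (nat_lit 548874) (nat_lit 5) (.e (nat_lit 1598) (nat_lit 111) .nil)))) .nil)) 
(.lf (nat_lit 59895) (.g (nat_lit 1939) (.e (nat_lit 1532) (nat_lit 109) (.e (nat_lit 344117) (nat_lit 21) (.e (nat_lit 516166) (nat_lit 12) (.e (nat_lit 450588) (nat_lit 10) .nil)))) .nil)))) (.nd (nat_lit 4) (.nd (nat_lit 5) 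
(.lf (nat_lit 59855) (.g (nat_lit 4356) (.e (nat_lit 1531) (nat_lit 109) (.e (nat_lit 344117) (nat_lit 21) (.e (nat_lit 516166) (nat_lit 12) (.e (nat_lit 450588) (nat_lit 10) (.e (nat_lit 573475) (nat_lit 12) (.e (nat_lit 57569) (nat_lit 53) (.e (nat_lit 761868) (nat_lit 5) .nil))))))) (.g (nat_lit 0) .nil .nil))) 
(.lf (nat_lit 59887) (.g (nat_lit 2697) (.e (nat_lit 1532) (nat_lit 109) (.e (nat_lit 344117) (nat_lit 21) (.e (nat_lit 516151) (nat_lit 9) (.e (nat_lit 426286) (nat_lit 10) (.e (nat_lit 434248) (nat_lit 28) .nil))))) .nil))) (.nd (nat_lit 5) 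
(.lf (nat_lit 59871) (.g (nat_lit 2945) (.e (nat_lit 1531) (nat_lit 109) (.e (nat_lit 344129) (nat_lit 26) (.e (nat_lit 557097) (nat_lit 13) (.e (nat_lit 172067) (nat_lit 3) (.e (nat_lit 204809) (nat_lit 9) .nil))))) .nil)) 
(.lf (nat_lit 59903) (.g (nat_lit 1736) (.e (nat_lit 1532) (nat_lit 109) (.e (nat_lit 344126) (nat_lit 25) (.e (nat_lit 548872) (nat_lit 5) (.e (nat_lit 1598) (nat_lit 111) (.e (nat_lit 360466) (nat_lit 3) (.e (nat_lit 516100) (nat_lit 0) (.e (nat_lit 7562) (nat_lit 402) .nil))))))) (.g (nat_lit 5) .nil .nil)))))))))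

noncomputable def tv823 : DT := (.nd (nat_lit 0) (.nd (nat_lit 1) (.nd (nat_lit 2) (.nd (nat_lit 3) (.nd (nat_lit 4) (.nd (nat_lit 5) (.nd (nat_lit 6) 
(.lf (nat_lit 59904) (.g (nat_lit 1655) (.e (nat_lit 1532) (nat_lit 109) (.e (nat_lit 344126) (nat_lit 25) (.e (nat_lit 548872) (nat_lit 5) (.e (nat_lit 1598) (nat_lit 111) (.e (nat_lit 360466) (nat_lit 3) (.e (nat_lit 516100) (nat_lit 0) (.e (nat_lit 7936) (nat_lit 402) .nil))))))) (.g (nat_lit 5) .nil .nil))) 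
(.lf (nat_lit 59968) (.g (nat_lit 2563) (.e (nat_lit 1533) (nat_lit 109) (.e (nat_lit 344169) (nat_lit 40) (.e (nat_lit 671762) (nat_lit 4) (.e (nat_lit 65629) (nat_lit 14) (.e (nat_lit 401454) (nat_lit 12) .nil))))) .nil))) (.nd (nat_lit 6) 
(.lf (nat_lit 59936) (.g (nat_lit 1749) (.e (nat_lit 1533) (nat_lit 109) (.e (nat_lit 344117) (nat_lit 21) (.e (nat_lit 516098) (nat_lit 0) (.e (nat_lit 7593) (nat_lit 407) (.e (nat_lit 73746) (nat_lit 3) .nil))))) .nil)) 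
(.lf (nat_lit 60000) (.g (nat_lit 2281) (.e (nat_lit 1534) (nat_lit 109) (.e (nat_lit 344126) (nat_lit 25) (.e (nat_lit 548874) (nat_lit 5) (.e (nat_lit 1598) (nat_lit 111) (.e (nat_lit 360466) (nat_lit 3) (.e (nat_lit 516104) (nat_lit 0) (.e (nat_lit 7936) (nat_lit 402) .nil))))))) (.g (nat_lit 6) .nil .nil))))) (.nd (nat_lit 5) (.nd (nat_lit 6) 
(.lf (nat_lit 59920) (.g (nat_lit 650) (.e (nat_lit 1532) (nat_lit 109) (.e (nat_lit 344129) (nat_lit 26) (.e (nat_lit 557066) (nat_lit 9) .nil))) .nil)) 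
(.lf (nat_lit 59984) (.g (nat_lit 2413) (.e (nat_lit 1534) (nat_lit 109) (.e (nat_lit 344117) (nat_lit 21) (.e (nat_lit 516151) (nat_lit 9) (.e (nat_lit 426286) (nat_lit 10) (.e (nat_lit 434245) (nat_lit 28) .nil))))) .nil))) (.nd (nat_lit 6) 
(.lf (nat_lit 59952) (.g (nat_lit 2288) (.e (nat_lit 1533) (nat_lit 109) (.e (nat_lit 344126) (nat_lit 25) (.e (nat_lit 548891) (nat_lit 11) (.e (nat_lit 81954) (nat_lit 23) .nil)))) .nil)) 
(.lf (nat_lit 60016) (.g (nat_lit 903) (.e (nat_lit 1534) (nat_lit 109) (.e (nat_lit 344177) (nat_lit 43) (.e (nat_lit 770055) (nat_lit 5) (.e (nat_lit 1575) (nat_lit 110) .nil)))) .nil))))) (.nd (nat_lit 4) (.nd (nat_lit 5) (.nd (nat_lit 6) 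
(.lf (nat_lit 59912) (.g (nat_lit 2275) (.e (nat_lit 1532) (nat_lit 109) (.e (nat_lit 344126) (nat_lit 25) (.e (nat_lit 548874) (nat_lit 5) (.e (nat_lit 1598) (nat_lit 111) (.e (nat_lit 360466) (nat_lit 3) (.e (nat_lit 516100) (nat_lit 0) (.e (nat_lit 7519) (nat_lit 402) .nil))))))) (.g (nat_lit 6) .nil .nil))) 
(.lf (nat_lit 59976) (.g (nat_lit 1203) (.e (nat_lit 1534) (nat_lit 109) (.e (nat_lit 344115) (nat_lit 20) (.e (nat_lit 507907) (nat_lit 0) (.e (nat_lit 5412) (nat_lit 303) (.e (nat_lit 73746) (nat_lit 3) (.e (nat_lit 516100) (nat_lit 0) (.e (nat_lit 7936) (nat_lit 402) .nil))))))) (.g (nat_lit 6) .nil .nil)))) (.nd (nat_lit 6) 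
(.lf (nat_lit 59944) (.g (nat_lit 2820) (.e (nat_lit 1533) (nat_lit 109) (.e (nat_lit 344117) (nat_lit 21) (.e (nat_lit 516185) (nat_lit 16) (.e (nat_lit 491560) (nat_lit 10) (.e (nat_lit 344118) (nat_lit 21) (.e (nat_lit 516098) (nat_lit 0) (.e (nat_lit 7495) (nat_lit 402) .nil))))))) (.g (nat_lit 5) .nil .nil))) 
(.lf (nat_lit 60008) (.g (nat_lit 3109) (.e (nat_lit 1534) (nat_lit 109) (.e (nat_lit 344130) (nat_lit 26) (.e (nat_lit 557097) (nat_lit 13) (.e (nat_lit 172064) (nat_lit 2) (.e (nat_lit 196656) (nat_lit 11) (.e (nat_lit 16392) (nat_lit 0) (.e (nat_lit 3279) (nat_lit 200) (.e (nat_lit 557061) (nat_lit 0) .nil)))))))) (.g (nat_lit 5) .nil .nil))))) (.nd (nat_lit 5) (.nd (nat_lit 6) 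
(.lf (nat_lit 59928) (.g (nat_lit 3806) (.e (nat_lit 1532) (nat_lit 109) (.e (nat_lit 344168) (nat_lit 40) (.e (nat_lit 671762) (nat_lit 4) (.e (nat_lit 65629) (nat_lit 14) (.e (nat_lit 401454) (nat_lit 12) (.e (nat_lit 483072) (nat_lit 8) .nil)))))) (.g (nat_lit 5) .nil .nil))) 
(.lf (nat_lit 59992) (.g (nat_lit 2481) (.e (nat_lit 1534) (nat_lit 109) (.e (nat_lit 344117) (nat_lit 21) (.e (nat_lit 516166) (nat_lit 12) (.e (nat_lit 450588) (nat_lit 10) (.e (nat_lit 573473) (nat_lit 12) .nil))))) .nil))) (.nd (nat_lit 6) 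
(.lf (nat_lit 59960) (.g (nat_lit 1529) (.e (nat_lit 1533) (nat_lit 109) (.e (nat_lit 344130) (nat_lit 26) (.e (nat_lit 557087) (nat_lit 11) (.e (nat_lit 24640) (nat_lit 10) .nil)))) .nil)) 
(.lf (nat_lit 60024) (.g (nat_lit 1377) (.e (nat_lit 1535) (nat_lit 109) (.e (nat_lit 344117) (nat_lit 21) (.e (nat_lit 516130) (nat_lit 3) (.e (nat_lit 221198) (nat_lit 20) .nil)))) .nil)))))) (.nd (nat_lit 3) (.nd (nat_lit 4) (.nd (nat_lit 5) (.nd (nat_lit 6) 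
(.lf (nat_lit 59908) (.g (nat_lit 1953) (.e (nat_lit 1532) (nat_lit 109) (.e (nat_lit 344126) (nat_lit 25) (.e (nat_lit 548872) (nat_lit 5) (.e (nat_lit 1598) (nat_lit 111) (.e (nat_lit 360466) (nat_lit 3) (.e (nat_lit 516105) (nat_lit 0) (.e (nat_lit 7562) (nat_lit 402) .nil))))))) (.g (nat_lit 6) .nil .nil))) 
(.lf (nat_lit 59972) (.g (nat_lit 1398) (.e (nat_lit 1533) (nat_lit 109) (.e (nat_lit 344177) (nat_lit 43) (.e (nat_lit 770074) (nat_lit 10) (.e (nat_lit 81927) (nat_lit 11) .nil)))) .nil))) (.nd (nat_lit 6) 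
(.lf (nat_lit 59940) (.g (nat_lit 2081) (.e (nat_lit 1533) (nat_lit 109) (.e (nat_lit 344117) (nat_lit 21) (.e (nat_lit 516185) (nat_lit 16) (.e (nat_lit 491546) (nat_lit 9) .nil)))) .nil)) 
(.lf (nat_lit 60004) (.g (nat_lit 2409) (.e (nat_lit 1534) (nat_lit 109) (.e (nat_lit 344126) (nat_lit 25) (.e (nat_lit 548889) (nat_lit 9) (.e (nat_lit 65619) (nat_lit 10) (.e (nat_lit 344117) (nat_lit 21) .nil))))) .nil)))) (.nd (nat_lit 5) (.nd (nat_lit 6) 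
(.lf (nat_lit 59924) (.g (nat_lit 1638) (.e (nat_lit 1532) (nat_lit 109) (.e (nat_lit 344156) (nat_lit 36) (.e (nat_lit 638998) (nat_lit 8) (.e (nat_lit 172082) (nat_lit 7) (.e (nat_lit 409646) (nat_lit 18) .nil))))) .nil)) 
(.lf (nat_lit 59988) (.g (nat_lit 2402) (.e (nat_lit 1534) (nat_lit 109) (.e (nat_lit 344117) (nat_lit 21) (.e (nat_lit 516165) (nat_lit 12) (.e (nat_lit 450586) (nat_lit 10) (.e (nat_lit 573475) (nat_lit 12) .nil))))) .nil))) (.nd (nat_lit 6) 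
(.lf (nat_lit 59956) (.g (nat_lit 2138) (.e (nat_lit 1533) (nat_lit 109) (.e (nat_lit 344129) (nat_lit 26) (.e (nat_lit 557087) (nat_lit 11) (.e (nat_lit 24638) (nat_lit 9) .nil)))) .nil)) 
(.lf (nat_lit 60020) (.g (nat_lit 517) (.e (nat_lit 1534) (nat_lit 109) (.e (nat_lit 344177) (nat_lit 43) (.e (nat_lit 770072) (nat_lit 8) .nil))) .nil))))) (.nd (nat_lit 4) (.nd (nat_lit 5) (.nd (nat_lit 6) 
(.lf (nat_lit 59916) (.g (nat_lit 2658) (.e (nat_lit 1532) (nat_lit 109) (.e (nat_lit 344126) (nat_lit 25) (.e (nat_lit 548874) (nat_lit 5) (.e (nat_lit 1598) (nat_lit 111) (.e (nat_lit 360466) (nat_lit 3) (.e (nat_lit 516105) (nat_lit 0) (.e (nat_lit 7562) (nat_lit 402) .nil))))))) (.g (nat_lit 0) .nil .nil))) 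
(.lf (nat_lit 59980) (.g (nat_lit 1062) (.e (nat_lit 1534) (nat_lit 109) (.e (nat_lit 344115) (nat_lit 20) (.e (nat_lit 507908) (nat_lit 0) (.e (nat_lit 5412) (nat_lit 303) (.e (nat_lit 73746) (nat_lit 3) (.e (nat_lit 516104) (nat_lit 0) (.e (nat_lit 7936) (nat_lit 402) .nil))))))) (.g (nat_lit 5) .nil .nil)))) (.nd (nat_lit 6) 
(.lf (nat_lit 59948) (.g (nat_lit 2958) (.e (nat_lit 1533) (nat_lit 109) (.e (nat_lit 344126) (nat_lit 25) (.e (nat_lit 548874) (nat_lit 5) (.e (nat_lit 1589) (nat_lit 111) (.e (nat_lit 360467) (nat_lit 3) (.e (nat_lit 516098) (nat_lit 0) (.e (nat_lit 7495) (nat_lit 402) .nil))))))) (.g (nat_lit 5) .nil .nil))) 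
(.lf (nat_lit 60012) (.g (nat_lit 2080) (.e (nat_lit 1534) (nat_lit 109) (.e (nat_lit 344130) (nat_lit 26) (.e (nat_lit 557103) (nat_lit 14) (.e (nat_lit 180244) (nat_lit 5) (.e (nat_lit 532579) (nat_lit 26) .nil))))) .nil)))) (.nd (nat_lit 5) (.nd (nat_lit 6) 
(.lf (nat_lit 59932) (.g (nat_lit 645) (.e (nat_lit 1532) (nat_lit 109) (.e (nat_lit 344177) (nat_lit 43) (.e (nat_lit 770073) (nat_lit 9) .nil))) .nil)) 
(.lf (nat_lit 59996) (.g (nat_lit 1425) (.e (nat_lit 1534) (nat_lit 109) (.e (nat_lit 344126) (nat_lit 25) (.e (nat_lit 548873) (nat_lit 5) (.e (nat_lit 1598) (nat_lit 111) (.e (nat_lit 360466) (nat_lit 3) (.e (nat_lit 516100) (nat_lit 0) (.e (nat_lit 7936) (nat_lit 402) .nil))))))) (.g (nat_lit 5) .nil .nil)))) (.nd (nat_lit 6) 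
(.lf (nat_lit 59964) (.g (nat_lit 2457) (.e (nat_lit 1533) (nat_lit 109) (.e (nat_lit 344133) (nat_lit 26) (.e (nat_lit 557087) (nat_lit 11) (.e (nat_lit 24638) (nat_lit 9) .nil)))) .nil)) 
(.lf (nat_lit 60028) (.g (nat_lit 1331) (.e (nat_lit 1535) (nat_lit 109) (.e (nat_lit 344117) (nat_lit 21) (.e (nat_lit 516130) (nat_lit 3) (.e (nat_lit 221212) (nat_lit 22) .nil)))) .nil))))))) (.nd (nat_lit 2) (.nd (nat_lit 3) (.nd (nat_lit 4) (.nd (nat_lit 5) (.nd (nat_lit 6) 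
(.lf (nat_lit 59906) (.g (nat_lit 1499) (.e (nat_lit 1532) (nat_lit 109) (.e (nat_lit 344126) (nat_lit 25) (.e (nat_lit 548872) (nat_lit 5) (.e (nat_lit 1598) (nat_lit 111) (.e (nat_lit 360466) (nat_lit 3) (.e (nat_lit 516104) (nat_lit 0) (.e (nat_lit 7936) (nat_lit 402) .nil))))))) (.g (nat_lit 5) .nil .nil))) 
(.lf (nat_lit 59970) (.g (nat_lit 2150) (.e (nat_lit 1533) (nat_lit 109) (.e (nat_lit 344177) (nat_lit 43) (.e (nat_lit 770072) (nat_lit 8) (.e (nat_lit 65627) (nat_lit 13) (.e (nat_lit 393232) (nat_lit 17) .nil))))) .nil))) (.nd (nat_lit 6) 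
(.lf (nat_lit 59938) (.g (nat_lit 834) (.e (nat_lit 1533) (nat_lit 109) (.e (nat_lit 344117) (nat_lit 21) (.e (nat_lit 516139) (nat_lit 7) .nil))) .nil)) 
(.lf (nat_lit 60002) (.g (nat_lit 2020) (.e (nat_lit 1534) (nat_lit 109) (.e (nat_lit 344126) (nat_lit 25) (.e (nat_lit 548889) (nat_lit 9) (.e (nat_lit 65598) (nat_lit 9) .nil)))) .nil)))) (.nd (nat_lit 5) (.nd (nat_lit 6) 
(.lf (nat_lit 59922) (.g (nat_lit 2060) (.e (nat_lit 1532) (nat_lit 109) (.e (nat_lit 344129) (nat_lit 26) (.e (nat_lit 557087) (nat_lit 11) (.e (nat_lit 24639) (nat_lit 10) .nil)))) .nil)) 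
(.lf (nat_lit 59986) (.g (nat_lit 2485) (.e (nat_lit 1534) (nat_lit 109) (.e (nat_lit 344117) (nat_lit 21) (.e (nat_lit 516151) (nat_lit 9) (.e (nat_lit 426286) (nat_lit 10) (.e (nat_lit 434248) (nat_lit 28) .nil))))) .nil))) (.nd (nat_lit 6) 
(.lf (nat_lit 59954) (.g (nat_lit 1406) (.e (nat_lit 1533) (nat_lit 109) (.e (nat_lit 344129) (nat_lit 26) (.e (nat_lit 557066) (nat_lit 9) (.e (nat_lit 324) (nat_lit 24) .nil)))) .nil)) 
(.lf (nat_lit 60018) (.g (nat_lit 858) (.e (nat_lit 1534) (nat_lit 109) (.e (nat_lit 344177) (nat_lit 43) (.e (nat_lit 770057) (nat_lit 5) (.e (nat_lit 1575) (nat_lit 110) .nil)))) .nil))))) (.nd (nat_lit 4) (.nd (nat_lit 5) (.nd (nat_lit 6) 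
(.lf (nat_lit 59914) (.g (nat_lit 1938) (.e (nat_lit 1532) (nat_lit 109) (.e (nat_lit 344126) (nat_lit 25) (.e (nat_lit 548874) (nat_lit 5) (.e (nat_lit 1598) (nat_lit 111) (.e (nat_lit 360466) (nat_lit 3) (.e (nat_lit 516104) (nat_lit 0) (.e (nat_lit 7562) (nat_lit 402) .nil))))))) (.g (nat_lit 5) .nil .nil))) 
(.lf (nat_lit 59978) (.g (nat_lit 1249) (.e (nat_lit 1534) (nat_lit 109) (.e (nat_lit 344115) (nat_lit 20) (.e (nat_lit 507907) (nat_lit 0) (.e (nat_lit 5412) (nat_lit 303) (.e (nat_lit 73746) (nat_lit 3) (.e (nat_lit 516105) (nat_lit 0) (.e (nat_lit 7936) (nat_lit 402) .nil))))))) (.g (nat_lit 6) .nil .nil)))) (.nd (nat_lit 6) 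
(.lf (nat_lit 59946) (.g (nat_lit 2068) (.e (nat_lit 1533) (nat_lit 109) (.e (nat_lit 344126) (nat_lit 25) (.e (nat_lit 548873) (nat_lit 5) (.e (nat_lit 1598) (nat_lit 111) (.e (nat_lit 360466) (nat_lit 3) (.e (nat_lit 516098) (nat_lit 0) (.e (nat_lit 7495) (nat_lit 402) .nil))))))) (.g (nat_lit 6) .nil .nil))) 
(.lf (nat_lit 60010) (.g (nat_lit 2370) (.e (nat_lit 1534) (nat_lit 109) (.e (nat_lit 344130) (nat_lit 26) (.e (nat_lit 557097) (nat_lit 13) (.e (nat_lit 172067) (nat_lit 3) (.e (nat_lit 204809) (nat_lit 9) .nil))))) .nil)))) (.nd (nat_lit 5) (.nd (nat_lit 6) 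
(.lf (nat_lit 59930) (.g (nat_lit 5026) (.e (nat_lit 1532) (nat_lit 109) (.e (nat_lit 344169) (nat_lit 40) (.e (nat_lit 671762) (nat_lit 4) (.e (nat_lit 65629) (nat_lit 14) (.e (nat_lit 401454) (nat_lit 12) (.e (nat_lit 475141) (nat_lit 8) .nil)))))) (.g (nat_lit 6) .nil .nil))) 
(.lf (nat_lit 59994) (.g (nat_lit 1324) (.e (nat_lit 1534) (nat_lit 109) (.e (nat_lit 344126) (nat_lit 25) (.e (nat_lit 548872) (nat_lit 5) (.e (nat_lit 1598) (nat_lit 111) (.e (nat_lit 360466) (nat_lit 3) (.e (nat_lit 516104) (nat_lit 0) (.e (nat_lit 7936) (nat_lit 402) .nil))))))) (.g (nat_lit 4) .nil .nil)))) (.nd (nat_lit 6) 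
(.lf (nat_lit 59962) (.g (nat_lit 2488) (.e (nat_lit 1533) (nat_lit 109) (.e (nat_lit 344133) (nat_lit 26) (.e (nat_lit 557087) (nat_lit 11) (.e (nat_lit 24628) (nat_lit 9) .nil)))) .nil)) 
(.lf (nat_lit 60026) (.g (nat_lit 1918) (.e (nat_lit 1535) (nat_lit 109) (.e (nat_lit 344117) (nat_lit 21) (.e (nat_lit 516130) (nat_lit 3) (.e (nat_lit 221204) (nat_lit 20) (.e (nat_lit 3748) (nat_lit 228) (.e (nat_lit 786477) (nat_lit 28) (.e (nat_lit 344177) (nat_lit 43) (.e (nat_lit 770058) (nat_lit 5) .nil)))))))) (.g (nat_lit 4) .nil .nil))))))) 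
(.nd (nat_lit 3) (.nd (nat_lit 4) (.nd (nat_lit 5) (.nd (nat_lit 6) 
(.lf (nat_lit 59910) (.g (nat_lit 1354) (.e (nat_lit 1532) (nat_lit 109) (.e (nat_lit 344126) (nat_lit 25) (.e (nat_lit 548873) (nat_lit 5) (.e (nat_lit 1598) (nat_lit 111) (.e (nat_lit 360466) (nat_lit 3) (.e (nat_lit 516104) (nat_lit 0) (.e (nat_lit 7936) (nat_lit 402) .nil))))))) (.g (nat_lit 5) .nil .nil))) 
(.lf (nat_lit 59974) (.g (nat_lit 1131) (.e (nat_lit 1534) (nat_lit 109) (.e (nat_lit 344115) (nat_lit 20) (.e (nat_lit 507906) (nat_lit 0) (.e (nat_lit 5412) (nat_lit 303) (.e (nat_lit 73746) (nat_lit 3) (.e (nat_lit 516104) (nat_lit 0) (.e (nat_lit 7936) (nat_lit 402) .nil))))))) (.g (nat_lit 5) .nil .nil)))) (.nd (nat_lit 6) 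
(.lf (nat_lit 59942) (.g (nat_lit 2792) (.e (nat_lit 1533) (nat_lit 109) (.e (nat_lit 344117) (nat_lit 21) (.e (nat_lit 516185) (nat_lit 16) (.e (nat_lit 491558) (nat_lit 10) (.e (nat_lit 344117) (nat_lit 21) .nil))))) .nil)) 
(.lf (nat_lit 60006) (.g (nat_lit 2599) (.e (nat_lit 1534) (nat_lit 109) (.e (nat_lit 344126) (nat_lit 25) (.e (nat_lit 548889) (nat_lit 9) (.e (nat_lit 65619) (nat_lit 10) (.e (nat_lit 344117) (nat_lit 21) (.e (nat_lit 516097) (nat_lit 0) (.e (nat_lit 7493) (nat_lit 402) .nil))))))) (.g (nat_lit 4) .nil .nil))))) (.nd (nat_lit 5) (.nd (nat_lit 6) 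
(.lf (nat_lit 59926) (.g (nat_lit 555) (.e (nat_lit 1532) (nat_lit 109) (.e (nat_lit 344160) (nat_lit 37) (.e (nat_lit 647183) (nat_lit 4) .nil))) .nil)) 
(.lf (nat_lit 59990) (.g (nat_lit 3931) (.e (nat_lit 1534) (nat_lit 109) (.e (nat_lit 344117) (nat_lit 21) (.e (nat_lit 516165) (nat_lit 12) (.e (nat_lit 450588) (nat_lit 10) (.e (nat_lit 573473) (nat_lit 12) (.e (nat_lit 57569) (nat_lit 53) (.e (nat_lit 761869) (nat_lit 5) .nil))))))) (.g (nat_lit 4) .nil .nil)))) (.nd (nat_lit 6) 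
(.lf (nat_lit 59958) (.g (nat_lit 2650) (.e (nat_lit 1533) (nat_lit 109) (.e (nat_lit 344129) (nat_lit 26) (.e (nat_lit 557087) (nat_lit 11) (.e (nat_lit 24639) (nat_lit 10) (.e (nat_lit 344117) (nat_lit 21) (.e (nat_lit 516098) (nat_lit 0) (.e (nat_lit 7495) (nat_lit 402) .nil))))))) (.g (nat_lit 4) .nil .nil))) 
(.lf (nat_lit 60022) (.g (nat_lit 222) (.e (nat_lit 1535) (nat_lit 109) (.e (nat_lit 344085) (nat_lit 15) (.e (nat_lit 123165) (nat_lit 256) .nil))) .nil))))) (.nd (nat_lit 4) (.nd (nat_lit 5) (.nd (nat_lit 6) 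
(.lf (nat_lit 59918) (.g (nat_lit 2369) (.e (nat_lit 1532) (nat_lit 109) (.e (nat_lit 344126) (nat_lit 25) (.e (nat_lit 548889) (nat_lit 9) (.e (nat_lit 65610) (nat_lit 10) (.e (nat_lit 344117) (nat_lit 21) .nil))))) .nil)) 
(.lf (nat_lit 59982) (.g (nat_lit 814) (.e (nat_lit 1534) (nat_lit 109) (.e (nat_lit 344115) (nat_lit 20) (.e (nat_lit 507923) (nat_lit 6) (.e (nat_lit 286747) (nat_lit 9) .nil)))) .nil))) (.nd (nat_lit 6) 
(.lf (nat_lit 59950) (.g (nat_lit 4436) (.e (nat_lit 1533) (nat_lit 109) (.e (nat_lit 344126) (nat_lit 25) (.e (nat_lit 548889) (nat_lit 9) (.e (nat_lit 65610) (nat_lit 10) (.e (nat_lit 344117) (nat_lit 21) (.e (nat_lit 516098) (nat_lit 0) (.e (nat_lit 7495) (nat_lit 402) .nil))))))) (.g (nat_lit 6) .nil .nil))) 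
(.lf (nat_lit 60014) (.g (nat_lit 1692) (.e (nat_lit 1534) (nat_lit 109) (.e (nat_lit 344133) (nat_lit 26) (.e (nat_lit 557098) (nat_lit 13) (.e (nat_lit 172067) (nat_lit 3) .nil)))) .nil)))) (.nd (nat_lit 5) (.nd (nat_lit 6) 
(.lf (nat_lit 59934) (.g (nat_lit 1878) (.e (nat_lit 1533) (nat_lit 109) (.e (nat_lit 344117) (nat_lit 21) (.e (nat_lit 516097) (nat_lit 0) (.e (nat_lit 7593) (nat_lit 407) (.e (nat_lit 73746) (nat_lit 3) .nil))))) .nil)) 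
(.lf (nat_lit 59998) (.g (nat_lit 1714) (.e (nat_lit 1534) (nat_lit 109) (.e (nat_lit 344126) (nat_lit 25) (.e (nat_lit 548874) (nat_lit 5) (.e (nat_lit 1598) (nat_lit 111) (.e (nat_lit 360466) (nat_lit 3) (.e (nat_lit 516097) (nat_lit 0) (.e (nat_lit 7493) (nat_lit 402) .nil))))))) (.g (nat_lit 4) .nil .nil)))) (.nd (nat_lit 6) 
(.lf (nat_lit 59966) (.g (nat_lit 3431) (.e (nat_lit 1533) (nat_lit 109) (.e (nat_lit 344133) (nat_lit 26) (.e (nat_lit 557087) (nat_lit 11) (.e (nat_lit 24640) (nat_lit 10) (.e (nat_lit 344117) (nat_lit 21) .nil))))) .nil)) 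
(.lf (nat_lit 60030) (.g (nat_lit 3532) (.e (nat_lit 1535) (nat_lit 109) (.e (nat_lit 344117) (nat_lit 21) (.e (nat_lit 516151) (nat_lit 9) (.e (nat_lit 426170) (nat_lit 7) .nil)))) .nil)))))))) (.nd (nat_lit 1) (.nd (nat_lit 2) (.nd (nat_lit 3) (.nd (nat_lit 4) (.nd (nat_lit 5) (.nd (nat_lit 6) 
(.lf (nat_lit 59905) (.g (nat_lit 1225) (.e (nat_lit 1532) (nat_lit 109) (.e (nat_lit 344126) (nat_lit 25) (.e (nat_lit 548872) (nat_lit 5) (.e (nat_lit 1598) (nat_lit 111) (.e (nat_lit 360466) (nat_lit 3) (.e (nat_lit 516104) (nat_lit 0) (.e (nat_lit 7562) (nat_lit 402) .nil))))))) (.g (nat_lit 4) .nil .nil))) 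
(.lf (nat_lit 59969) (.g (nat_lit 1040) (.e (nat_lit 1533) (nat_lit 109) (.e (nat_lit 344177) (nat_lit 43) (.e (nat_lit 770058) (nat_lit 5) (.e (nat_lit 1464) (nat_lit 108) .nil)))) .nil))) (.nd (nat_lit 6) 
(.lf (nat_lit 59937) (.g (nat_lit 712) (.e (nat_lit 1533) (nat_lit 109) (.e (nat_lit 344117) (nat_lit 21) (.e (nat_lit 516106) (nat_lit 0) .nil))) .nil)) 
(.lf (nat_lit 60001) (.g (nat_lit 2185) (.e (nat_lit 1534) (nat_lit 109) (.e (nat_lit 344126) (nat_lit 25) (.e (nat_lit 548874) (nat_lit 5) (.e (nat_lit 1598) (nat_lit 111) (.e (nat_lit 360466) (nat_lit 3) (.e (nat_lit 516105) (nat_lit 0) (.e (nat_lit 7936) (nat_lit 402) .nil))))))) (.g (nat_lit 6) .nil .nil))))) (.nd (nat_lit 5) (.nd (nat_lit 6) 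
(.lf (nat_lit 59921) (.g (nat_lit 1406) (.e (nat_lit 1532) (nat_lit 109) (.e (nat_lit 344129) (nat_lit 26) (.e (nat_lit 557066) (nat_lit 9) (.e (nat_lit 324) (nat_lit 24) .nil)))) .nil)) 
(.lf (nat_lit 59985) (.g (nat_lit 2518) (.e (nat_lit 1534) (nat_lit 109) (.e (nat_lit 344117) (nat_lit 21) (.e (nat_lit 516151) (nat_lit 9) (.e (nat_lit 426286) (nat_lit 10) (.e (nat_lit 434247) (nat_lit 28) .nil))))) .nil))) (.nd (nat_lit 6) 
(.lf (nat_lit 59953) (.g (nat_lit 1698) (.e (nat_lit 1533) (nat_lit 109) (.e (nat_lit 344129) (nat_lit 26) (.e (nat_lit 557066) (nat_lit 9) (.e (nat_lit 321) (nat_lit 24) (.e (nat_lit 360467) (nat_lit 3) .nil))))) .nil)) 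
(.lf (nat_lit 60017) (.g (nat_lit 941) (.e (nat_lit 1534) (nat_lit 109) (.e (nat_lit 344177) (nat_lit 43) (.e (nat_lit 770056) (nat_lit 5) (.e (nat_lit 1575) (nat_lit 110) .nil)))) .nil))))) (.nd (nat_lit 4) (.nd (nat_lit 5) (.nd (nat_lit 6) 
(.lf (nat_lit 59913) (.g (nat_lit 2295) (.e (nat_lit 1532) (nat_lit 109) (.e (nat_lit 344126) (nat_lit 25) (.e (nat_lit 548874) (nat_lit 5) (.e (nat_lit 1598) (nat_lit 111) (.e (nat_lit 360466) (nat_lit 3) (.e (nat_lit 516100) (nat_lit 0) (.e (nat_lit 7936) (nat_lit 402) .nil))))))) (.g (nat_lit 6) .nil .nil))) 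
(.lf (nat_lit 59977) (.g (nat_lit 1051) (.e (nat_lit 1534) (nat_lit 109) (.e (nat_lit 344115) (nat_lit 20) (.e (nat_lit 507907) (nat_lit 0) (.e (nat_lit 5412) (nat_lit 303) (.e (nat_lit 73746) (nat_lit 3) (.e (nat_lit 516104) (nat_lit 0) (.e (nat_lit 7936) (nat_lit 402) .nil))))))) (.g (nat_lit 5) .nil .nil)))) (.nd (nat_lit 6) 
(.lf (nat_lit 59945) (.g (nat_lit 2014) (.e (nat_lit 1533) (nat_lit 109) (.e (nat_lit 344124) (nat_lit 25) (.e (nat_lit 548874) (nat_lit 5) (.e (nat_lit 1598) (nat_lit 111) (.e (nat_lit 360466) (nat_lit 3) (.e (nat_lit 516098) (nat_lit 0) (.e (nat_lit 7495) (nat_lit 402) .nil))))))) (.g (nat_lit 5) .nil .nil))) 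
(.lf (nat_lit 60009) (.g (nat_lit 1131) (.e (nat_lit 1534) (nat_lit 109) (.e (nat_lit 344130) (nat_lit 26) (.e (nat_lit 557097) (nat_lit 13) (.e (nat_lit 172066) (nat_lit 3) .nil)))) .nil)))) (.nd (nat_lit 5) (.nd (nat_lit 6) 
(.lf (nat_lit 59929) (.g (nat_lit 4258) (.e (nat_lit 1532) (nat_lit 109) (.e (nat_lit 344169) (nat_lit 40) (.e (nat_lit 671759) (nat_lit 3) (.e (nat_lit 57479) (nat_lit 28) (.e (nat_lit 557109) (nat_lit 15) (.e (nat_lit 188458) (nat_lit 25) (.e (nat_lit 245786) (nat_lit 9) .nil))))))) (.g (nat_lit 0) .nil .nil))) 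
(.lf (nat_lit 59993) (.g (nat_lit 2529) (.e (nat_lit 1534) (nat_lit 109) (.e (nat_lit 344117) (nat_lit 21) (.e (nat_lit 516166) (nat_lit 12) (.e (nat_lit 450588) (nat_lit 10) (.e (nat_lit 573475) (nat_lit 12) .nil))))) .nil))) (.nd (nat_lit 6) 
(.lf (nat_lit 59961) (.g (nat_lit 1165) (.e (nat_lit 1533) (nat_lit 109) (.e (nat_lit 344133) (nat_lit 26) (.e (nat_lit 557087) (nat_lit 11) .nil))) .nil)) 
(.lf (nat_lit 60025) (.g (nat_lit 1409) (.e (nat_lit 1535) (nat_lit 109) (.e (nat_lit 344117) (nat_lit 21) (.e (nat_lit 516130) (nat_lit 3) (.e (nat_lit 221204) (nat_lit 20) .nil)))) .nil)))))) (.nd (nat_lit 3) (.nd (nat_lit 4) (.nd (nat_lit 5) (.nd (nat_lit 6) 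
(.lf (nat_lit 59909) (.g (nat_lit 681) (.e (nat_lit 1532) (nat_lit 109) (.e (nat_lit 344126) (nat_lit 25) (.e (nat_lit 548873) (nat_lit 5) (.e (nat_lit 1598) (nat_lit 111) .nil)))) .nil)) 
(.lf (nat_lit 59973) (.g (nat_lit 1278) (.e (nat_lit 1534) (nat_lit 109) (.e (nat_lit 344115) (nat_lit 20) (.e (nat_lit 507906) (nat_lit 0) (.e (nat_lit 5412) (nat_lit 303) (.e (nat_lit 73746) (nat_lit 3) (.e (nat_lit 516100) (nat_lit 0) (.e (nat_lit 7936) (nat_lit 402) .nil))))))) (.g (nat_lit 6) .nil .nil)))) (.nd (nat_lit 6) 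
(.lf (nat_lit 59941) (.g (nat_lit 1906) (.e (nat_lit 1533) (nat_lit 109) (.e (nat_lit 344117) (nat_lit 21) (.e (nat_lit 516185) (nat_lit 16) (.e (nat_lit 491558) (nat_lit 10) .nil)))) .nil)) 
(.lf (nat_lit 60005) (.g (nat_lit 2509) (.e (nat_lit 1534) (nat_lit 109) (.e (nat_lit 344126) (nat_lit 25) (.e (nat_lit 548889) (nat_lit 9) (.e (nat_lit 65619) (nat_lit 10) (.e (nat_lit 344117) (nat_lit 21) (.e (nat_lit 516097) (nat_lit 0) (.e (nat_lit 7486) (nat_lit 402) .nil))))))) (.g (nat_lit 4) .nil .nil))))) (.nd (nat_lit 5) (.nd (nat_lit 6) 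
(.lf (nat_lit 59925) (.g (nat_lit 3361) (.e (nat_lit 1532) (nat_lit 109) (.e (nat_lit 344156) (nat_lit 36) (.e (nat_lit 638998) (nat_lit 8) (.e (nat_lit 172082) (nat_lit 7) (.e (nat_lit 409646) (nat_lit 18) (.e (nat_lit 303112) (nat_lit 0) (.e (nat_lit 7515) (nat_lit 402) .nil))))))) (.g (nat_lit 6) .nil .nil))) 
(.lf (nat_lit 59989) (.g (nat_lit 2382) (.e (nat_lit 1534) (nat_lit 109) (.e (nat_lit 344117) (nat_lit 21) (.e (nat_lit 516165) (nat_lit 12) (.e (nat_lit 450586) (nat_lit 10) (.e (nat_lit 573478) (nat_lit 12) .nil))))) .nil))) (.nd (nat_lit 6) 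
(.lf (nat_lit 59957) (.g (nat_lit 2060) (.e (nat_lit 1533) (nat_lit 109) (.e (nat_lit 344129) (nat_lit 26) (.e (nat_lit 557087) (nat_lit 11) (.e (nat_lit 24639) (nat_lit 10) .nil)))) .nil)) 
(.lf (nat_lit 60021) (.g (nat_lit 1407) (.e (nat_lit 1534) (nat_lit 109) (.e (nat_lit 344177) (nat_lit 43) (.e (nat_lit 770074) (nat_lit 10) (.e (nat_lit 81921) (nat_lit 0) .nil)))) .nil))))) (.nd (nat_lit 4) (.nd (nat_lit 5) (.nd (nat_lit 6) 
(.lf (nat_lit 59917) (.g (nat_lit 2153) (.e (nat_lit 1532) (nat_lit 109) (.e (nat_lit 344126) (nat_lit 25) (.e (nat_lit 548874) (nat_lit 5) (.e (nat_lit 1598) (nat_lit 111) (.e (nat_lit 360466) (nat_lit 3) (.e (nat_lit 516105) (nat_lit 0) (.e (nat_lit 7936) (nat_lit 402) .nil))))))) (.g (nat_lit 6) .nil .nil))) 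
(.lf (nat_lit 59981) (.g (nat_lit 1261) (.e (nat_lit 1534) (nat_lit 109) (.e (nat_lit 344115) (nat_lit 20) (.e (nat_lit 507908) (nat_lit 0) (.e (nat_lit 5412) (nat_lit 303) (.e (nat_lit 73746) (nat_lit 3) (.e (nat_lit 516105) (nat_lit 0) (.e (nat_lit 7936) (nat_lit 402) .nil))))))) (.g (nat_lit 6) .nil .nil)))) (.nd (nat_lit 6) 
(.lf (nat_lit 59949) (.g (nat_lit 3083) (.e (nat_lit 1533) (nat_lit 109) (.e (nat_lit 344126) (nat_lit 25) (.e (nat_lit 548874) (nat_lit 5) (.e (nat_lit 1598) (nat_lit 111) (.e (nat_lit 360466) (nat_lit 3) (.e (nat_lit 516098) (nat_lit 0) (.e (nat_lit 7495) (nat_lit 402) .nil))))))) (.g (nat_lit 0) .nil .nil))) 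
(.lf (nat_lit 60013) (.g (nat_lit 2853) (.e (nat_lit 1534) (nat_lit 109) (.e (nat_lit 344133) (nat_lit 26) (.e (nat_lit 557098) (nat_lit 13) (.e (nat_lit 172064) (nat_lit 2) (.e (nat_lit 196656) (nat_lit 11) .nil))))) .nil)))) (.nd (nat_lit 5) (.nd (nat_lit 6) 
(.lf (nat_lit 59933) (.g (nat_lit 681) (.e (nat_lit 1533) (nat_lit 109) (.e (nat_lit 344117) (nat_lit 21) (.e (nat_lit 516097) (nat_lit 0) .nil))) .nil)) 
(.lf (nat_lit 59997) (.g (nat_lit 1335) (.e (nat_lit 1534) (nat_lit 109) (.e (nat_lit 344126) (nat_lit 25) (.e (nat_lit 548874) (nat_lit 5) (.e (nat_lit 1598) (nat_lit 111) .nil)))) .nil))) (.nd (nat_lit 6) 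
(.lf (nat_lit 59965) (.g (nat_lit 2598) (.e (nat_lit 1533) (nat_lit 109) (.e (nat_lit 344133) (nat_lit 26) (.e (nat_lit 557087) (nat_lit 11) (.e (nat_lit 24639) (nat_lit 10) .nil)))) .nil)) 
(.lf (nat_lit 60029) (.g (nat_lit 517) (.e (nat_lit 1535) (nat_lit 109) (.e (nat_lit 344117) (nat_lit 21) (.e (nat_lit 516151) (nat_lit 9) .nil))) .nil))))))) (.nd (nat_lit 2) (.nd (nat_lit 3) (.nd (nat_lit 4) (.nd (nat_lit 5) (.nd (nat_lit 6) 
(.lf (nat_lit 59907) (.g (nat_lit 1607) (.e (nat_lit 1532) (nat_lit 109) (.e (nat_lit 344126) (nat_lit 25) (.e (nat_lit 548872) (nat_lit 5) (.e (nat_lit 1598) (nat_lit 111) (.e (nat_lit 360466) (nat_lit 3) (.e (nat_lit 516105) (nat_lit 0) (.e (nat_lit 7542) (nat_lit 402) .nil))))))) (.g (nat_lit 5) .nil .nil))) 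
(.lf (nat_lit 59971) (.g (nat_lit 636) (.e (nat_lit 1533) (nat_lit 109) (.e (nat_lit 344177) (nat_lit 43) (.e (nat_lit 770074) (nat_lit 10) .nil))) .nil))) (.nd (nat_lit 6) 
(.lf (nat_lit 59939) (.g (nat_lit 2614) (.e (nat_lit 1533) (nat_lit 109) (.e (nat_lit 344117) (nat_lit 21) (.e (nat_lit 516151) (nat_lit 9) (.e (nat_lit 426286) (nat_lit 10) .nil)))) .nil)) 
(.lf (nat_lit 60003) (.g (nat_lit 2574) (.e (nat_lit 1534) (nat_lit 109) (.e (nat_lit 344126) (nat_lit 25) (.e (nat_lit 548889) (nat_lit 9) (.e (nat_lit 65610) (nat_lit 10) (.e (nat_lit 344117) (nat_lit 21) .nil))))) .nil)))) (.nd (nat_lit 5) (.nd (nat_lit 6) 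
(.lf (nat_lit 59923) (.g (nat_lit 2056) (.e (nat_lit 1532) (nat_lit 109) (.e (nat_lit 344129) (nat_lit 26) (.e (nat_lit 557087) (nat_lit 11) (.e (nat_lit 24640) (nat_lit 10) .nil)))) .nil)) 
(.lf (nat_lit 59987) (.g (nat_lit 2297) (.e (nat_lit 1534) (nat_lit 109) (.e (nat_lit 344117) (nat_lit 21) (.e (nat_lit 516165) (nat_lit 12) (.e (nat_lit 450586) (nat_lit 10) (.e (nat_lit 573473) (nat_lit 12) .nil))))) .nil))) (.nd (nat_lit 6) 
(.lf (nat_lit 59955) (.g (nat_lit 660) (.e (nat_lit 1533) (nat_lit 109) (.e (nat_lit 344129) (nat_lit 26) (.e (nat_lit 557087) (nat_lit 11) .nil))) .nil)) 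
(.lf (nat_lit 60019) (.g (nat_lit 929) (.e (nat_lit 1534) (nat_lit 109) (.e (nat_lit 344177) (nat_lit 43) (.e (nat_lit 770058) (nat_lit 5) (.e (nat_lit 1575) (nat_lit 110) .nil)))) .nil))))) (.nd (nat_lit 4) (.nd (nat_lit 5) (.nd (nat_lit 6) 
(.lf (nat_lit 59915) (.g (nat_lit 2208) (.e (nat_lit 1532) (nat_lit 109) (.e (nat_lit 344126) (nat_lit 25) (.e (nat_lit 548874) (nat_lit 5) (.e (nat_lit 1598) (nat_lit 111) (.e (nat_lit 360466) (nat_lit 3) (.e (nat_lit 516104) (nat_lit 0) (.e (nat_lit 7936) (nat_lit 402) .nil))))))) (.g (nat_lit 6) .nil .nil))) 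
(.lf (nat_lit 59979) (.g (nat_lit 1217) (.e (nat_lit 1534) (nat_lit 109) (.e (nat_lit 344115) (nat_lit 20) (.e (nat_lit 507908) (nat_lit 0) (.e (nat_lit 5412) (nat_lit 303) (.e (nat_lit 73746) (nat_lit 3) (.e (nat_lit 516100) (nat_lit 0) (.e (nat_lit 7936) (nat_lit 402) .nil))))))) (.g (nat_lit 6) .nil .nil)))) (.nd (nat_lit 6) 
(.lf (nat_lit 59947) (.g (nat_lit 1889) (.e (nat_lit 1533) (nat_lit 109) (.e (nat_lit 344126) (nat_lit 25) (.e (nat_lit 548874) (nat_lit 5) (.e (nat_lit 1586) (nat_lit 111) (.e (nat_lit 360468) (nat_lit 3) .nil))))) .nil)) 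
(.lf (nat_lit 60011) (.g (nat_lit 2376) (.e (nat_lit 1534) (nat_lit 109) (.e (nat_lit 344130) (nat_lit 26) (.e (nat_lit 557097) (nat_lit 13) (.e (nat_lit 172067) (nat_lit 3) (.e (nat_lit 204809) (nat_lit 9) (.e (nat_lit 426024) (nat_lit 0) (.e (nat_lit 3279) (nat_lit 200) (.e (nat_lit 557061) (nat_lit 0) .nil)))))))) (.g (nat_lit 4) .nil .nil))))) (.nd (nat_lit 5) (.nd (nat_lit 6) 
(.lf (nat_lit 59931) (.g (nat_lit 1493) (.e (nat_lit 1532) (nat_lit 109) (.e (nat_lit 344177) (nat_lit 43) (.e (nat_lit 770072) (nat_lit 8) (.e (nat_lit 65571) (nat_lit 3) .nil)))) .nil)) 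
(.lf (nat_lit 59995) (.g (nat_lit 1236) (.e (nat_lit 1534) (nat_lit 109) (.e (nat_lit 344126) (nat_lit 25) (.e (nat_lit 548872) (nat_lit 5) (.e (nat_lit 1598) (nat_lit 111) (.e (nat_lit 360466) (nat_lit 3) (.e (nat_lit 516105) (nat_lit 0) (.e (nat_lit 7936) (nat_lit 402) .nil))))))) (.g (nat_lit 4) .nil .nil)))) (.nd (nat_lit 6) 
(.lf (nat_lit 59963) (.g (nat_lit 2473) (.e (nat_lit 1533) (nat_lit 109) (.e (nat_lit 344133) (nat_lit 26) (.e (nat_lit 557087) (nat_lit 11) (.e (nat_lit 24636) (nat_lit 9) .nil)))) .nil)) 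
(.lf (nat_lit 60027) (.g (nat_lit 1439) (.e (nat_lit 1535) (nat_lit 109) (.e (nat_lit 344117) (nat_lit 21) (.e (nat_lit 516130) (nat_lit 3) (.e (nat_lit 221211) (nat_lit 22) .nil)))) .nil)))))) (.nd (nat_lit 3) (.nd (nat_lit 4) (.nd (nat_lit 5) (.nd (nat_lit 6) 
(.lf (nat_lit 59911) (.g (nat_lit 1432) (.e (nat_lit 1532) (nat_lit 109) (.e (nat_lit 344126) (nat_lit 25) (.e (nat_lit 548874) (nat_lit 5) (.e (nat_lit 1595) (nat_lit 111) .nil)))) .nil)) 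
(.lf (nat_lit 59975) (.g (nat_lit 1319) (.e (nat_lit 1534) (nat_lit 109) (.e (nat_lit 344115) (nat_lit 20) (.e (nat_lit 507906) (nat_lit 0) (.e (nat_lit 5412) (nat_lit 303) (.e (nat_lit 73746) (nat_lit 3) (.e (nat_lit 516105) (nat_lit 0) (.e (nat_lit 7936) (nat_lit 402) .nil))))))) (.g (nat_lit 6) .nil .nil)))) (.nd (nat_lit 6) 
(.lf (nat_lit 59943) (.g (nat_lit 1822) (.e (nat_lit 1533) (nat_lit 109) (.e (nat_lit 344117) (nat_lit 21) (.e (nat_lit 516185) (nat_lit 16) (.e (nat_lit 491560) (nat_lit 10) .nil)))) .nil)) 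
(.lf (nat_lit 60007) (.g (nat_lit 515) (.e (nat_lit 1534) (nat_lit 109) (.e (nat_lit 344126) (nat_lit 25) (.e (nat_lit 548891) (nat_lit 11) .nil))) .nil)))) (.nd (nat_lit 5) (.nd (nat_lit 6) 
(.lf (nat_lit 59927) (.g (nat_lit 4900) (.e (nat_lit 1532) (nat_lit 109) (.e (nat_lit 344168) (nat_lit 40) (.e (nat_lit 671762) (nat_lit 4) (.e (nat_lit 65629) (nat_lit 14) (.e (nat_lit 401454) (nat_lit 12) (.e (nat_lit 475141) (nat_lit 8) .nil)))))) (.g (nat_lit 0) .nil .nil))) 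
(.lf (nat_lit 59991) (.g (nat_lit 2284) (.e (nat_lit 1534) (nat_lit 109) (.e (nat_lit 344117) (nat_lit 21) (.e (nat_lit 516166) (nat_lit 12) (.e (nat_lit 450587) (nat_lit 10) (.e (nat_lit 573478) (nat_lit 12) .nil))))) .nil))) (.nd (nat_lit 6) 
(.lf (nat_lit 59959) (.g (nat_lit 2056) (.e (nat_lit 1533) (nat_lit 109) (.e (nat_lit 344129) (nat_lit 26) (.e (nat_lit 557087) (nat_lit 11) (.e (nat_lit 24640) (nat_lit 10) .nil)))) .nil)) 
(.lf (nat_lit 60023) (.g (nat_lit 630) (.e (nat_lit 1535) (nat_lit 109) (.e (nat_lit 344117) (nat_lit 21) (.e (nat_lit 516129) (nat_lit 3) .nil))) .nil))))) (.nd (nat_lit 4) (.nd (nat_lit 5) (.nd (nat_lit 6) 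
(.lf (nat_lit 59919) (.g (nat_lit 1902) (.e (nat_lit 1532) (nat_lit 109) (.e (nat_lit 344126) (nat_lit 25) (.e (nat_lit 548891) (nat_lit 11) (.e (nat_lit 81956) (nat_lit 23) .nil)))) .nil)) 
(.lf (nat_lit 59983) (.g (nat_lit 2864) (.e (nat_lit 1534) (nat_lit 109) (.e (nat_lit 344116) (nat_lit 21) (.e (nat_lit 516166) (nat_lit 12) (.e (nat_lit 450588) (nat_lit 10) (.e (nat_lit 573475) (nat_lit 12) .nil))))) .nil))) (.nd (nat_lit 6) 
(.lf (nat_lit 59951) (.g (nat_lit 4146) (.e (nat_lit 1533) (nat_lit 109) (.e (nat_lit 344126) (nat_lit 25) (.e (nat_lit 548889) (nat_lit 9) (.e (nat_lit 65619) (nat_lit 10) (.e (nat_lit 344117) (nat_lit 21) (.e (nat_lit 516098) (nat_lit 0) (.e (nat_lit 7495) (nat_lit 402) .nil))))))) (.g (nat_lit 7) .nil .nil))) 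
(.lf (nat_lit 60015) (.g (nat_lit 3124) (.e (nat_lit 1534) (nat_lit 109) (.e (nat_lit 344133) (nat_lit 26) (.e (nat_lit 557105) (nat_lit 14) (.e (nat_lit 180252) (nat_lit 10) (.e (nat_lit 573474) (nat_lit 12) .nil))))) .nil)))) (.nd (nat_lit 5) (.nd (nat_lit 6) 
(.lf (nat_lit 59935) (.g (nat_lit 1370) (.e (nat_lit 1533) (nat_lit 109) (.e (nat_lit 344117) (nat_lit 21) (.e (nat_lit 516098) (nat_lit 0) (.e (nat_lit 7591) (nat_lit 407) .nil)))) .nil)) 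
(.lf (nat_lit 59999) (.g (nat_lit 2342) (.e (nat_lit 1534) (nat_lit 109) (.e (nat_lit 344126) (nat_lit 25) (.e (nat_lit 548874) (nat_lit 5) (.e (nat_lit 1598) (nat_lit 111) (.e (nat_lit 360466) (nat_lit 3) (.e (nat_lit 516100) (nat_lit 0) (.e (nat_lit 7936) (nat_lit 402) .nil))))))) (.g (nat_lit 6) .nil .nil)))) (.nd (nat_lit 6) 
(.lf (nat_lit 59967) (.g (nat_lit 2433) (.e (nat_lit 1533) (nat_lit 109) (.e (nat_lit 344133) (nat_lit 26) (.e (nat_lit 557087) (nat_lit 11) (.e (nat_lit 24644) (nat_lit 11) .nil)))) .nil)) 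
(.lf (nat_lit 60031) (.g (nat_lit 2343) (.e (nat_lit 1535) (nat_lit 109) (.e (nat_lit 344117) (nat_lit 21) (.e (nat_lit 516151) (nat_lit 9) (.e (nat_lit 426171) (nat_lit 7) .nil)))) .nil)))))))))

noncomputable def tv824 : DT := (.nd (nat_lit 0) (.nd (nat_lit 1) (.nd (nat_lit 2) (.nd (nat_lit 3) (.nd (nat_lit 4) (.nd (nat_lit 5) 
(.lf (nat_lit 60032) (.g (nat_lit 3330) (.e (nat_lit 1535) (nat_lit 109) (.e (nat_lit 344117) (nat_lit 21) (.e (nat_lit 516151) (nat_lit 9) (.e (nat_lit 426173) (nat_lit 7) .nil)))) .nil)) 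
(.lf (nat_lit 60064) (.g (nat_lit 3266) (.e (nat_lit 1535) (nat_lit 109) (.e (nat_lit 344117) (nat_lit 21) (.e (nat_lit 516151) (nat_lit 9) (.e (nat_lit 426286) (nat_lit 10) (.e (nat_lit 434245) (nat_lit 28) (.e (nat_lit 573473) (nat_lit 12) (.e (nat_lit 57347) (nat_lit 0) (.e (nat_lit 7125) (nat_lit 382) (.e (nat_lit 1016) (nat_lit 81) .nil))))))))) (.g (nat_lit 6) .nil .nil)))) (.nd (nat_lit 5) 
(.lf (nat_lit 60048) (.g (nat_lit 5271) (.e (nat_lit 1535) (nat_lit 109) (.e (nat_lit 344117) (nat_lit 21) (.e (nat_lit 516151) (nat_lit 9) (.e (nat_lit 426211) (nat_lit 9) (.e (nat_lit 426125) (nat_lit 2) (.e (nat_lit 196686) (nat_lit 18) (.e (nat_lit 1117) (nat_lit 82) (.e (nat_lit 8418) (nat_lit 132) (.e (nat_lit 1014) (nat_lit 81) .nil))))))))) (.g (nat_lit 4) .nil .nil))) 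
(.lf (nat_lit 60080) (.g (nat_lit 3084) (.e (nat_lit 1535) (nat_lit 109) (.e (nat_lit 344117) (nat_lit 21) (.e (nat_lit 516151) (nat_lit 9) (.e (nat_lit 426286) (nat_lit 10) (.e (nat_lit 434247) (nat_lit 28) (.e (nat_lit 573477) (nat_lit 12) (.e (nat_lit 57351) (nat_lit 0) (.e (nat_lit 7122) (nat_lit 382) (.e (nat_lit 1016) (nat_lit 81) .nil))))))))) (.g (nat_lit 6) .nil .nil))))) 
(.nd (nat_lit 4) (.nd (nat_lit 5) 
(.lf (nat_lit 60040) (.g (nat_lit 5650) (.e (nat_lit 1535) (nat_lit 109) (.e (nat_lit 344117) (nat_lit 21) (.e (nat_lit 516151) (nat_lit 9) (.e (nat_lit 426211) (nat_lit 9) (.e (nat_lit 426125) (nat_lit 2) (.e (nat_lit 204544) (nat_lit 12) (.e (nat_lit 57489) (nat_lit 33) (.e (nat_lit 598023) (nat_lit 5) .nil)))))))) (.g (nat_lit 5) .nil .nil))) 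
(.lf (nat_lit 60072) (.g (nat_lit 4657) (.e (nat_lit 1535) (nat_lit 109) (.e (nat_lit 344117) (nat_lit 21) (.e (nat_lit 516151) (nat_lit 9) (.e (nat_lit 426286) (nat_lit 10) (.e (nat_lit 434245) (nat_lit 28) (.e (nat_lit 573474) (nat_lit 12) (.e (nat_lit 57348) (nat_lit 0) (.e (nat_lit 7124) (nat_lit 382) (.e (nat_lit 1016) (nat_lit 81) .nil))))))))) (.g (nat_lit 8) .nil .nil)))) (.nd (nat_lit 5) 
(.lf (nat_lit 60056) (.g (nat_lit 3143) (.e (nat_lit 1535) (nat_lit 109) (.e (nat_lit 344117) (nat_lit 21) (.e (nat_lit 516151) (nat_lit 9) (.e (nat_lit 426285) (nat_lit 10) .nil)))) .nil)) 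
(.lf (nat_lit 60088) (.g (nat_lit 2926) (.e (nat_lit 1535) (nat_lit 109) (.e (nat_lit 344117) (nat_lit 21) (.e (nat_lit 516151) (nat_lit 9) (.e (nat_lit 426286) (nat_lit 10) (.e (nat_lit 434247) (nat_lit 28) (.e (nat_lit 573478) (nat_lit 12) (.e (nat_lit 57353) (nat_lit 0) (.e (nat_lit 7122) (nat_lit 382) (.e (nat_lit 1016) (nat_lit 81) .nil))))))))) (.g (nat_lit 6) .nil .nil)))))) 
(.nd (nat_lit 3) (.nd (nat_lit 4) (.nd (nat_lit 5) 
(.lf (nat_lit 60036) (.g (nat_lit 5343) (.e (nat_lit 1535) (nat_lit 109) (.e (nat_lit 344117) (nat_lit 21) (.e (nat_lit 516151) (nat_lit 9) (.e (nat_lit 426211) (nat_lit 9) (.e (nat_lit 426125) (nat_lit 2) (.e (nat_lit 204544) (nat_lit 7) (.e (nat_lit 229447) (nat_lit 38) (.e (nat_lit 639007) (nat_lit 13) .nil)))))))) (.g (nat_lit 4) .nil .nil))) 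
(.lf (nat_lit 60068) (.g (nat_lit 2481) (.e (nat_lit 1535) (nat_lit 109) (.e (nat_lit 344117) (nat_lit 21) (.e (nat_lit 516151) (nat_lit 9) (.e (nat_lit 426286) (nat_lit 10) (.e (nat_lit 434245) (nat_lit 28) (.e (nat_lit 573473) (nat_lit 12) (.e (nat_lit 57572) (nat_lit 54) (.e (nat_lit 770056) (nat_lit 5) .nil)))))))) (.g (nat_lit 5) .nil .nil)))) (.nd (nat_lit 5) 
(.lf (nat_lit 60052) (.g (nat_lit 3550) (.e (nat_lit 1535) (nat_lit 109) (.e (nat_lit 344117) (nat_lit 21) (.e (nat_lit 516151) (nat_lit 9) (.e (nat_lit 426275) (nat_lit 10) .nil)))) .nil)) 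
(.lf (nat_lit 60084) (.g (nat_lit 2024) (.e (nat_lit 1535) (nat_lit 109) (.e (nat_lit 344117) (nat_lit 21) (.e (nat_lit 516151) (nat_lit 9) (.e (nat_lit 426286) (nat_lit 10) (.e (nat_lit 434247) (nat_lit 28) (.e (nat_lit 573477) (nat_lit 12) (.e (nat_lit 57353) (nat_lit 0) (.e (nat_lit 7125) (nat_lit 382) (.e (nat_lit 999) (nat_lit 81) .nil))))))))) (.g (nat_lit 4) .nil .nil))))) 
(.nd (nat_lit 4) (.nd (nat_lit 5) 
(.lf (nat_lit 60044) (.g (nat_lit 5516) (.e (nat_lit 1535) (nat_lit 109) (.e (nat_lit 344117) (nat_lit 21) (.e (nat_lit 516151) (nat_lit 9) (.e (nat_lit 426211) (nat_lit 9) (.e (nat_lit 426125) (nat_lit 2) (.e (nat_lit 204544) (nat_lit 12) (.e (nat_lit 57491) (nat_lit 33) (.e (nat_lit 598022) (nat_lit 5) .nil)))))))) (.g (nat_lit 5) .nil .nil))) 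
(.lf (nat_lit 60076) (.g (nat_lit 2675) (.e (nat_lit 1535) (nat_lit 109) (.e (nat_lit 344117) (nat_lit 21) (.e (nat_lit 516151) (nat_lit 9) (.e (nat_lit 426286) (nat_lit 10) (.e (nat_lit 434245) (nat_lit 28) (.e (nat_lit 573474) (nat_lit 12) (.e (nat_lit 57570) (nat_lit 54) (.e (nat_lit 770056) (nat_lit 5) .nil)))))))) (.g (nat_lit 5) .nil .nil)))) (.nd (nat_lit 5) 
(.lf (nat_lit 60060) (.g (nat_lit 1839) (.e (nat_lit 1535) (nat_lit 109) (.e (nat_lit 344117) (nat_lit 21) (.e (nat_lit 516151) (nat_lit 9) (.e (nat_lit 426286) (nat_lit 10) (.e (nat_lit 434242) (nat_lit 28) .nil))))) .nil)) 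
(.lf (nat_lit 60092) (.g (nat_lit 3403) (.e (nat_lit 1535) (nat_lit 109) (.e (nat_lit 344117) (nat_lit 21) (.e (nat_lit 516151) (nat_lit 9) (.e (nat_lit 426286) (nat_lit 10) (.e (nat_lit 434248) (nat_lit 28) (.e (nat_lit 573473) (nat_lit 12) (.e (nat_lit 57347) (nat_lit 0) (.e (nat_lit 7125) (nat_lit 382) (.e (nat_lit 1016) (nat_lit 81) .nil))))))))) (.g (nat_lit 6) .nil .nil))))))) 
(.nd (nat_lit 2) (.nd (nat_lit 3) (.nd (nat_lit 4) (.nd (nat_lit 5) 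
(.lf (nat_lit 60034) (.g (nat_lit 5636) (.e (nat_lit 1535) (nat_lit 109) (.e (nat_lit 344117) (nat_lit 21) (.e (nat_lit 516151) (nat_lit 9) (.e (nat_lit 426211) (nat_lit 9) (.e (nat_lit 426125) (nat_lit 2) (.e (nat_lit 204544) (nat_lit 3) (.e (nat_lit 163999) (nat_lit 38) (.e (nat_lit 639007) (nat_lit 13) .nil)))))))) (.g (nat_lit 5) .nil .nil))) 
(.lf (nat_lit 60066) (.g (nat_lit 4063) (.e (nat_lit 1535) (nat_lit 109) (.e (nat_lit 344117) (nat_lit 21) (.e (nat_lit 516151) (nat_lit 9) (.e (nat_lit 426286) (nat_lit 10) (.e (nat_lit 434245) (nat_lit 28) (.e (nat_lit 573473) (nat_lit 12) (.e (nat_lit 57352) (nat_lit 0) (.e (nat_lit 7122) (nat_lit 382) (.e (nat_lit 1016) (nat_lit 81) .nil))))))))) (.g (nat_lit 9) .nil .nil)))) (.nd (nat_lit 5) 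
(.lf (nat_lit 60050) (.g (nat_lit 5199) (.e (nat_lit 1535) (nat_lit 109) (.e (nat_lit 344117) (nat_lit 21) (.e (nat_lit 516151) (nat_lit 9) (.e (nat_lit 426211) (nat_lit 9) (.e (nat_lit 426125) (nat_lit 2) (.e (nat_lit 196699) (nat_lit 20) (.e (nat_lit 130816) (nat_lit 99) (.e (nat_lit 639008) (nat_lit 13) .nil)))))))) (.g (nat_lit 4) .nil .nil))) 
(.lf (nat_lit 60082) (.g (nat_lit 4039) (.e (nat_lit 1535) (nat_lit 109) (.e (nat_lit 344117) (nat_lit 21) (.e (nat_lit 516151) (nat_lit 9) (.e (nat_lit 426286) (nat_lit 10) (.e (nat_lit 434247) (nat_lit 28) (.e (nat_lit 573477) (nat_lit 12) (.e (nat_lit 57352) (nat_lit 0) (.e (nat_lit 7122) (nat_lit 382) (.e (nat_lit 1016) (nat_lit 81) .nil))))))))) (.g (nat_lit 9) .nil .nil))))) 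
(.nd (nat_lit 4) (.nd (nat_lit 5) 
(.lf (nat_lit 60042) (.g (nat_lit 5327) (.e (nat_lit 1535) (nat_lit 109) (.e (nat_lit 344117) (nat_lit 21) (.e (nat_lit 516151) (nat_lit 9) (.e (nat_lit 426211) (nat_lit 9) (.e (nat_lit 426125) (nat_lit 2) (.e (nat_lit 204544) (nat_lit 12) (.e (nat_lit 57490) (nat_lit 33) (.e (nat_lit 598024) (nat_lit 5) .nil)))))))) (.g (nat_lit 4) .nil .nil))) 
(.lf (nat_lit 60074) (.g (nat_lit 3487) (.e (nat_lit 1535) (nat_lit 109) (.e (nat_lit 344117) (nat_lit 21) (.e (nat_lit 516151) (nat_lit 9) (.e (nat_lit 426286) (nat_lit 10) (.e (nat_lit 434245) (nat_lit 28) (.e (nat_lit 573474) (nat_lit 12) (.e (nat_lit 57351) (nat_lit 0) (.e (nat_lit 7125) (nat_lit 382) (.e (nat_lit 1016) (nat_lit 81) .nil))))))))) (.g (nat_lit 6) .nil .nil)))) (.nd (nat_lit 5) 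
(.lf (nat_lit 60058) (.g (nat_lit 4090) (.e (nat_lit 1535) (nat_lit 109) (.e (nat_lit 344117) (nat_lit 21) (.e (nat_lit 516151) (nat_lit 9) (.e (nat_lit 426285) (nat_lit 10) (.e (nat_lit 434248) (nat_lit 28) .nil))))) .nil)) 
(.lf (nat_lit 60090) (.g (nat_lit 1885) (.e (nat_lit 1535) (nat_lit 109) (.e (nat_lit 344117) (nat_lit 21) (.e (nat_lit 516151) (nat_lit 9) (.e (nat_lit 426286) (nat_lit 10) (.e (nat_lit 434247) (nat_lit 28) (.e (nat_lit 573478) (nat_lit 12) (.e (nat_lit 57570) (nat_lit 54) (.e (nat_lit 770054) (nat_lit 5) .nil)))))))) (.g (nat_lit 4) .nil .nil)))))) 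
(.nd (nat_lit 3) (.nd (nat_lit 4) (.nd (nat_lit 5) 
(.lf (nat_lit 60038) (.g (nat_lit 5458) (.e (nat_lit 1535) (nat_lit 109) (.e (nat_lit 344117) (nat_lit 21) (.e (nat_lit 516151) (nat_lit 9) (.e (nat_lit 426211) (nat_lit 9) (.e (nat_lit 426125) (nat_lit 2) (.e (nat_lit 196659) (nat_lit 12) (.e (nat_lit 57491) (nat_lit 33) (.e (nat_lit 598022) (nat_lit 5) .nil)))))))) (.g (nat_lit 4) .nil .nil))) 
(.lf (nat_lit 60070) (.g (nat_lit 4952) (.e (nat_lit 1535) (nat_lit 109) (.e (nat_lit 344117) (nat_lit 21) (.e (nat_lit 516151) (nat_lit 9) (.e (nat_lit 426286) (nat_lit 10) (.e (nat_lit 434245) (nat_lit 28) (.e (nat_lit 573474) (nat_lit 12) (.e (nat_lit 57347) (nat_lit 0) (.e (nat_lit 7124) (nat_lit 382) (.e (nat_lit 1016) (nat_lit 81) .nil))))))))) (.g (nat_lit 9) .nil .nil)))) (.nd (nat_lit 5) 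
(.lf (nat_lit 60054) (.g (nat_lit 3523) (.e (nat_lit 1535) (nat_lit 109) (.e (nat_lit 344117) (nat_lit 21) (.e (nat_lit 516151) (nat_lit 9) (.e (nat_lit 426282) (nat_lit 10) .nil)))) .nil)) 
(.lf (nat_lit 60086) (.g (nat_lit 2018) (.e (nat_lit 1535) (nat_lit 109) (.e (nat_lit 344117) (nat_lit 21) (.e (nat_lit 516151) (nat_lit 9) (.e (nat_lit 426286) (nat_lit 10) (.e (nat_lit 434247) (nat_lit 28) (.e (nat_lit 573478) (nat_lit 12) (.e (nat_lit 57344) (nat_lit 0) (.e (nat_lit 7122) (nat_lit 382) (.e (nat_lit 1016) (nat_lit 81) .nil))))))))) (.g (nat_lit 4) .nil .nil))))) 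
(.nd (nat_lit 4) (.nd (nat_lit 5) 
(.lf (nat_lit 60046) (.g (nat_lit 5379) (.e (nat_lit 1535) (nat_lit 109) (.e (nat_lit 344117) (nat_lit 21) (.e (nat_lit 516151) (nat_lit 9) (.e (nat_lit 426211) (nat_lit 9) (.e (nat_lit 426125) (nat_lit 2) (.e (nat_lit 196683) (nat_lit 18) (.e (nat_lit 1118) (nat_lit 82) (.e (nat_lit 8418) (nat_lit 132) (.e (nat_lit 1008) (nat_lit 81) .nil))))))))) (.g (nat_lit 4) .nil .nil))) 
(.lf (nat_lit 60078) (.g (nat_lit 1917) (.e (nat_lit 1535) (nat_lit 109) (.e (nat_lit 344117) (nat_lit 21) (.e (nat_lit 516151) (nat_lit 9) (.e (nat_lit 426286) (nat_lit 10) (.e (nat_lit 434247) (nat_lit 28) (.e (nat_lit 573472) (nat_lit 12) (.e (nat_lit 57572) (nat_lit 54) (.e (nat_lit 770057) (nat_lit 5) .nil)))))))) (.g (nat_lit 4) .nil .nil)))) (.nd (nat_lit 5) 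
(.lf (nat_lit 60062) (.g (nat_lit 1657) (.e (nat_lit 1535) (nat_lit 109) (.e (nat_lit 344117) (nat_lit 21) (.e (nat_lit 516151) (nat_lit 9) (.e (nat_lit 426286) (nat_lit 10) (.e (nat_lit 434245) (nat_lit 28) .nil))))) .nil)) 
(.lf (nat_lit 60094) (.g (nat_lit 4187) (.e (nat_lit 1535) (nat_lit 109) (.e (nat_lit 344117) (nat_lit 21) (.e (nat_lit 516151) (nat_lit 9) (.e (nat_lit 426286) (nat_lit 10) (.e (nat_lit 434248) (nat_lit 28) (.e (nat_lit 573473) (nat_lit 12) (.e (nat_lit 57352) (nat_lit 0) (.e (nat_lit 7122) (nat_lit 382) (.e (nat_lit 1016) (nat_lit 81) .nil))))))))) (.g (nat_lit 9) .nil .nil)))))))) 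
(.nd (nat_lit 1) (.nd (nat_lit 2) (.nd (nat_lit 3) (.nd (nat_lit 4) (.nd (nat_lit 5) 
(.lf (nat_lit 60033) (.g (nat_lit 5071) (.e (nat_lit 1535) (nat_lit 109) (.e (nat_lit 344117) (nat_lit 21) (.e (nat_lit 516151) (nat_lit 9) (.e (nat_lit 426211) (nat_lit 9) (.e (nat_lit 426125) (nat_lit 2) .nil))))) .nil)) 
(.lf (nat_lit 60065) (.g (nat_lit 1704) (.e (nat_lit 1535) (nat_lit 109) (.e (nat_lit 344117) (nat_lit 21) (.e (nat_lit 516151) (nat_lit 9) (.e (nat_lit 426286) (nat_lit 10) (.e (nat_lit 434245) (nat_lit 28) (.e (nat_lit 573473) (nat_lit 12) (.e (nat_lit 57348) (nat_lit 0) (.e (nat_lit 7119) (nat_lit 382) (.e (nat_lit 1016) (nat_lit 81) .nil))))))))) (.g (nat_lit 4) .nil .nil)))) (.nd (nat_lit 5) 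
(.lf (nat_lit 60049) (.g (nat_lit 5299) (.e (nat_lit 1535) (nat_lit 109) (.e (nat_lit 344117) (nat_lit 21) (.e (nat_lit 516151) (nat_lit 9) (.e (nat_lit 426211) (nat_lit 9) (.e (nat_lit 426125) (nat_lit 2) (.e (nat_lit 196686) (nat_lit 18) (.e (nat_lit 1118) (nat_lit 82) (.e (nat_lit 8418) (nat_lit 132) (.e (nat_lit 1014) (nat_lit 81) .nil))))))))) (.g (nat_lit 4) .nil .nil))) 
(.lf (nat_lit 60081) (.g (nat_lit 2042) (.e (nat_lit 1535) (nat_lit 109) (.e (nat_lit 344117) (nat_lit 21) (.e (nat_lit 516151) (nat_lit 9) (.e (nat_lit 426286) (nat_lit 10) (.e (nat_lit 434247) (nat_lit 28) (.e (nat_lit 573477) (nat_lit 12) (.e (nat_lit 57351) (nat_lit 0) (.e (nat_lit 7125) (nat_lit 382) (.e (nat_lit 1016) (nat_lit 81) .nil))))))))) (.g (nat_lit 4) .nil .nil))))) 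
(.nd (nat_lit 4) (.nd (nat_lit 5) 
(.lf (nat_lit 60041) (.g (nat_lit 5282) (.e (nat_lit 1535) (nat_lit 109) (.e (nat_lit 344117) (nat_lit 21) (.e (nat_lit 516151) (nat_lit 9) (.e (nat_lit 426211) (nat_lit 9) (.e (nat_lit 426125) (nat_lit 2) (.e (nat_lit 204544) (nat_lit 12) (.e (nat_lit 57490) (nat_lit 33) (.e (nat_lit 598023) (nat_lit 5) .nil)))))))) (.g (nat_lit 4) .nil .nil))) 
(.lf (nat_lit 60073) (.g (nat_lit 4608) (.e (nat_lit 1535) (nat_lit 109) (.e (nat_lit 344117) (nat_lit 21) (.e (nat_lit 516151) (nat_lit 9) (.e (nat_lit 426286) (nat_lit 10) (.e (nat_lit 434245) (nat_lit 28) (.e (nat_lit 573474) (nat_lit 12) (.e (nat_lit 57351) (nat_lit 0) (.e (nat_lit 7122) (nat_lit 382) (.e (nat_lit 1016) (nat_lit 81) .nil))))))))) (.g (nat_lit 9) .nil .nil)))) (.nd (nat_lit 5) 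
(.lf (nat_lit 60057) (.g (nat_lit 4293) (.e (nat_lit 1535) (nat_lit 109) (.e (nat_lit 344117) (nat_lit 21) (.e (nat_lit 516151) (nat_lit 9) (.e (nat_lit 426285) (nat_lit 10) (.e (nat_lit 434243) (nat_lit 28) .nil))))) .nil)) 
(.lf (nat_lit 60089) (.g (nat_lit 3423) (.e (nat_lit 1535) (nat_lit 109) (.e (nat_lit 344117) (nat_lit 21) (.e (nat_lit 516151) (nat_lit 9) (.e (nat_lit 426286) (nat_lit 10) (.e (nat_lit 434247) (nat_lit 28) (.e (nat_lit 573478) (nat_lit 12) (.e (nat_lit 57353) (nat_lit 0) (.e (nat_lit 7124) (nat_lit 382) (.e (nat_lit 1016) (nat_lit 81) .nil))))))))) (.g (nat_lit 8) .nil .nil)))))) 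
(.nd (nat_lit 3) (.nd (nat_lit 4) (.nd (nat_lit 5) 
(.lf (nat_lit 60037) (.g (nat_lit 5593) (.e (nat_lit 1535) (nat_lit 109) (.e (nat_lit 344117) (nat_lit 21) (.e (nat_lit 516151) (nat_lit 9) (.e (nat_lit 426211) (nat_lit 9) (.e (nat_lit 426125) (nat_lit 2) (.e (nat_lit 204544) (nat_lit 7) (.e (nat_lit 229447) (nat_lit 38) (.e (nat_lit 639008) (nat_lit 13) .nil)))))))) (.g (nat_lit 5) .nil .nil))) 
(.lf (nat_lit 60069) (.g (nat_lit 4288) (.e (nat_lit 1535) (nat_lit 109) (.e (nat_lit 344117) (nat_lit 21) (.e (nat_lit 516151) (nat_lit 9) (.e (nat_lit 426286) (nat_lit 10) (.e (nat_lit 434245) (nat_lit 28) (.e (nat_lit 573474) (nat_lit 12) (.e (nat_lit 57347) (nat_lit 0) (.e (nat_lit 7122) (nat_lit 382) (.e (nat_lit 1016) (nat_lit 81) .nil))))))))) (.g (nat_lit 7) .nil .nil)))) (.nd (nat_lit 5) 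
(.lf (nat_lit 60053) (.g (nat_lit 3523) (.e (nat_lit 1535) (nat_lit 109) (.e (nat_lit 344117) (nat_lit 21) (.e (nat_lit 516151) (nat_lit 9) (.e (nat_lit 426281) (nat_lit 10) .nil)))) .nil)) 
(.lf (nat_lit 60085) (.g (nat_lit 3089) (.e (nat_lit 1535) (nat_lit 109) (.e (nat_lit 344117) (nat_lit 21) (.e (nat_lit 516151) (nat_lit 9) (.e (nat_lit 426286) (nat_lit 10) (.e (nat_lit 434247) (nat_lit 28) (.e (nat_lit 573477) (nat_lit 12) (.e (nat_lit 57353) (nat_lit 0) (.e (nat_lit 7125) (nat_lit 382) (.e (nat_lit 1016) (nat_lit 81) .nil))))))))) (.g (nat_lit 6) .nil .nil))))) 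
(.nd (nat_lit 4) (.nd (nat_lit 5) 
(.lf (nat_lit 60045) (.g (nat_lit 5305) (.e (nat_lit 1535) (nat_lit 109) (.e (nat_lit 344117) (nat_lit 21) (.e (nat_lit 516151) (nat_lit 9) (.e (nat_lit 426211) (nat_lit 9) (.e (nat_lit 426125) (nat_lit 2) (.e (nat_lit 204544) (nat_lit 16) (.e (nat_lit 122946) (nat_lit 33) (.e (nat_lit 598023) (nat_lit 5) .nil)))))))) (.g (nat_lit 4) .nil .nil))) 
(.lf (nat_lit 60077) (.g (nat_lit 1762) (.e (nat_lit 1535) (nat_lit 109) (.e (nat_lit 344117) (nat_lit 21) (.e (nat_lit 516151) (nat_lit 9) (.e (nat_lit 426286) (nat_lit 10) (.e (nat_lit 434247) (nat_lit 28) .nil))))) .nil))) (.nd (nat_lit 5) 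
(.lf (nat_lit 60061) (.g (nat_lit 3299) (.e (nat_lit 1535) (nat_lit 109) (.e (nat_lit 344117) (nat_lit 21) (.e (nat_lit 516151) (nat_lit 9) (.e (nat_lit 426286) (nat_lit 10) (.e (nat_lit 434243) (nat_lit 28) (.e (nat_lit 573474) (nat_lit 12) (.e (nat_lit 57572) (nat_lit 54) (.e (nat_lit 770057) (nat_lit 5) .nil)))))))) (.g (nat_lit 6) .nil .nil))) 
(.lf (nat_lit 60093) (.g (nat_lit 1849) (.e (nat_lit 1535) (nat_lit 109) (.e (nat_lit 344117) (nat_lit 21) (.e (nat_lit 516151) (nat_lit 9) (.e (nat_lit 426286) (nat_lit 10) (.e (nat_lit 434248) (nat_lit 28) (.e (nat_lit 573473) (nat_lit 12) (.e (nat_lit 57348) (nat_lit 0) (.e (nat_lit 7119) (nat_lit 382) (.e (nat_lit 1016) (nat_lit 81) .nil))))))))) (.g (nat_lit 4) .nil .nil))))))) 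
(.nd (nat_lit 2) (.nd (nat_lit 3) (.nd (nat_lit 4) (.nd (nat_lit 5) 
(.lf (nat_lit 60035) (.g (nat_lit 5381) (.e (nat_lit 1535) (nat_lit 109) (.e (nat_lit 344117) (nat_lit 21) (.e (nat_lit 516151) (nat_lit 9) (.e (nat_lit 426211) (nat_lit 9) (.e (nat_lit 426125) (nat_lit 2) (.e (nat_lit 204544) (nat_lit 3) (.e (nat_lit 164000) (nat_lit 38) (.e (nat_lit 639005) (nat_lit 13) .nil)))))))) (.g (nat_lit 4) .nil .nil))) 
(.lf (nat_lit 60067) (.g (nat_lit 3146) (.e (nat_lit 1535) (nat_lit 109) (.e (nat_lit 344117) (nat_lit 21) (.e (nat_lit 516151) (nat_lit 9) (.e (nat_lit 426286) (nat_lit 10) (.e (nat_lit 434245) (nat_lit 28) (.e (nat_lit 573473) (nat_lit 12) (.e (nat_lit 57353) (nat_lit 0) (.e (nat_lit 7125) (nat_lit 382) (.e (nat_lit 1016) (nat_lit 81) .nil))))))))) (.g (nat_lit 6) .nil .nil)))) (.nd (nat_lit 5) 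
(.lf (nat_lit 60051) (.g (nat_lit 5098) (.e (nat_lit 1535) (nat_lit 109) (.e (nat_lit 344117) (nat_lit 21) (.e (nat_lit 516151) (nat_lit 9) (.e (nat_lit 426211) (nat_lit 9) (.e (nat_lit 426140) (nat_lit 3) .nil))))) .nil)) 
(.lf (nat_lit 60083) (.g (nat_lit 3341) (.e (nat_lit 1535) (nat_lit 109) (.e (nat_lit 344117) (nat_lit 21) (.e (nat_lit 516151) (nat_lit 9) (.e (nat_lit 426286) (nat_lit 10) (.e (nat_lit 434247) (nat_lit 28) (.e (nat_lit 573477) (nat_lit 12) (.e (nat_lit 57353) (nat_lit 0) (.e (nat_lit 7122) (nat_lit 382) (.e (nat_lit 1016) (nat_lit 81) .nil))))))))) (.g (nat_lit 7) .nil .nil))))) 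
(.nd (nat_lit 4) (.nd (nat_lit 5) 
(.lf (nat_lit 60043) (.g (nat_lit 5270) (.e (nat_lit 1535) (nat_lit 109) (.e (nat_lit 344117) (nat_lit 21) (.e (nat_lit 516151) (nat_lit 9) (.e (nat_lit 426211) (nat_lit 9) (.e (nat_lit 426125) (nat_lit 2) (.e (nat_lit 204544) (nat_lit 12) (.e (nat_lit 57490) (nat_lit 33) (.e (nat_lit 598025) (nat_lit 5) .nil)))))))) (.g (nat_lit 4) .nil .nil))) 
(.lf (nat_lit 60075) (.g (nat_lit 2656) (.e (nat_lit 1535) (nat_lit 109) (.e (nat_lit 344117) (nat_lit 21) (.e (nat_lit 516151) (nat_lit 9) (.e (nat_lit 426286) (nat_lit 10) (.e (nat_lit 434245) (nat_lit 28) (.e (nat_lit 573474) (nat_lit 12) (.e (nat_lit 57570) (nat_lit 54) (.e (nat_lit 770054) (nat_lit 5) .nil)))))))) (.g (nat_lit 5) .nil .nil)))) (.nd (nat_lit 5) 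
(.lf (nat_lit 60059) (.g (nat_lit 950) (.e (nat_lit 1535) (nat_lit 109) (.e (nat_lit 344117) (nat_lit 21) (.e (nat_lit 516151) (nat_lit 9) (.e (nat_lit 426286) (nat_lit 10) .nil)))) .nil)) 
(.lf (nat_lit 60091) (.g (nat_lit 1912) (.e (nat_lit 1535) (nat_lit 109) (.e (nat_lit 344117) (nat_lit 21) (.e (nat_lit 516151) (nat_lit 9) (.e (nat_lit 426286) (nat_lit 10) (.e (nat_lit 434247) (nat_lit 28) (.e (nat_lit 573478) (nat_lit 12) (.e (nat_lit 57570) (nat_lit 54) (.e (nat_lit 770056) (nat_lit 5) .nil)))))))) (.g (nat_lit 4) .nil .nil)))))) 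
(.nd (nat_lit 3) (.nd (nat_lit 4) (.nd (nat_lit 5) 
(.lf (nat_lit 60039) (.g (nat_lit 5171) (.e (nat_lit 1535) (nat_lit 109) (.e (nat_lit 344117) (nat_lit 21) (.e (nat_lit 516151) (nat_lit 9) (.e (nat_lit 426211) (nat_lit 9) (.e (nat_lit 426125) (nat_lit 2) (.e (nat_lit 196661) (nat_lit 12) (.e (nat_lit 57489) (nat_lit 33) (.e (nat_lit 598023) (nat_lit 5) .nil)))))))) (.g (nat_lit 4) .nil .nil))) 
(.lf (nat_lit 60071) (.g (nat_lit 4230) (.e (nat_lit 1535) (nat_lit 109) (.e (nat_lit 344117) (nat_lit 21) (.e (nat_lit 516151) (nat_lit 9) (.e (nat_lit 426286) (nat_lit 10) (.e (nat_lit 434245) (nat_lit 28) (.e (nat_lit 573474) (nat_lit 12) (.e (nat_lit 57348) (nat_lit 0) (.e (nat_lit 7122) (nat_lit 382) (.e (nat_lit 1016) (nat_lit 81) .nil))))))))) (.g (nat_lit 7) .nil .nil)))) (.nd (nat_lit 5) 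
(.lf (nat_lit 60055) (.g (nat_lit 3288) (.e (nat_lit 1535) (nat_lit 109) (.e (nat_lit 344117) (nat_lit 21) (.e (nat_lit 516151) (nat_lit 9) (.e (nat_lit 426284) (nat_lit 10) .nil)))) .nil)) 
(.lf (nat_lit 60087) (.g (nat_lit 3792) (.e (nat_lit 1535) (nat_lit 109) (.e (nat_lit 344117) (nat_lit 21) (.e (nat_lit 516151) (nat_lit 9) (.e (nat_lit 426286) (nat_lit 10) (.e (nat_lit 434247) (nat_lit 28) (.e (nat_lit 573478) (nat_lit 12) (.e (nat_lit 57351) (nat_lit 0) (.e (nat_lit 7122) (nat_lit 382) (.e (nat_lit 1016) (nat_lit 81) .nil))))))))) (.g (nat_lit 9) .nil .nil))))) 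
(.nd (nat_lit 4) (.nd (nat_lit 5) 
(.lf (nat_lit 60047) (.g (nat_lit 5131) (.e (nat_lit 1535) (nat_lit 109) (.e (nat_lit 344117) (nat_lit 21) (.e (nat_lit 516151) (nat_lit 9) (.e (nat_lit 426211) (nat_lit 9) (.e (nat_lit 426125) (nat_lit 2) (.e (nat_lit 196686) (nat_lit 18) (.e (nat_lit 1115) (nat_lit 82) (.e (nat_lit 8418) (nat_lit 132) (.e (nat_lit 1014) (nat_lit 81) .nil))))))))) (.g (nat_lit 4) .nil .nil))) 
(.lf (nat_lit 60079) (.g (nat_lit 2770) (.e (nat_lit 1535) (nat_lit 109) (.e (nat_lit 344117) (nat_lit 21) (.e (nat_lit 516151) (nat_lit 9) (.e (nat_lit 426286) (nat_lit 10) (.e (nat_lit 434247) (nat_lit 28) (.e (nat_lit 573475) (nat_lit 12) (.e (nat_lit 57572) (nat_lit 54) (.e (nat_lit 770056) (nat_lit 5) .nil)))))))) (.g (nat_lit 5) .nil .nil)))) (.nd (nat_lit 5) 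
(.lf (nat_lit 60063) (.g (nat_lit 3436) (.e (nat_lit 1535) (nat_lit 109) (.e (nat_lit 344117) (nat_lit 21) (.e (nat_lit 516151) (nat_lit 9) (.e (nat_lit 426286) (nat_lit 10) (.e (nat_lit 434245) (nat_lit 28) (.e (nat_lit 573451) (nat_lit 9) (.e (nat_lit 1035) (nat_lit 81) (.e (nat_lit 2281) (nat_lit 150) (.e (nat_lit 770058) (nat_lit 5) .nil))))))))) (.g (nat_lit 6) .nil .nil))) 
(.lf (nat_lit 60095) (.g (nat_lit 3263) (.e (nat_lit 1535) (nat_lit 109) (.e (nat_lit 344117) (nat_lit 21) (.e (nat_lit 516151) (nat_lit 9) (.e (nat_lit 426286) (nat_lit 10) (.e (nat_lit 434248) (nat_lit 28) (.e (nat_lit 573473) (nat_lit 12) (.e (nat_lit 57353) (nat_lit 0) (.e (nat_lit 7125) (nat_lit 382) (.e (nat_lit 1016) (nat_lit 81) .nil))))))))) (.g (nat_lit 6) .nil .nil)))))))))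

noncomputable def tv825 : DT := (.nd (nat_lit 0) (.nd (nat_lit 1) (.nd (nat_lit 2) (.nd (nat_lit 3) (.nd (nat_lit 4) (.nd (nat_lit 5) 
(.lf (nat_lit 60096) (.g (nat_lit 2584) (.e (nat_lit 1535) (nat_lit 109) (.e (nat_lit 344117) (nat_lit 21) (.e (nat_lit 516151) (nat_lit 9) (.e (nat_lit 426286) (nat_lit 10) (.e (nat_lit 434248) (nat_lit 28) (.e (nat_lit 573473) (nat_lit 12) (.e (nat_lit 57572) (nat_lit 54) (.e (nat_lit 770056) (nat_lit 5) .nil)))))))) (.g (nat_lit 5) .nil .nil))) 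
(.lf (nat_lit 60128) (.g (nat_lit 3183) (.e (nat_lit 1535) (nat_lit 109) (.e (nat_lit 344117) (nat_lit 21) (.e (nat_lit 516165) (nat_lit 12) (.e (nat_lit 450579) (nat_lit 5) (.e (nat_lit 532484) (nat_lit 0) (.e (nat_lit 1912) (nat_lit 129) (.e (nat_lit 598023) (nat_lit 5) .nil))))))) (.g (nat_lit 0) .nil .nil)))) (.nd (nat_lit 5) 
(.lf (nat_lit 60112) (.g (nat_lit 2222) (.e (nat_lit 1535) (nat_lit 109) (.e (nat_lit 344117) (nat_lit 21) (.e (nat_lit 516163) (nat_lit 11) (.e (nat_lit 442427) (nat_lit 23) (.e (nat_lit 204821) (nat_lit 17) .nil))))) .nil)) 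
(.lf (nat_lit 60144) (.g (nat_lit 3401) (.e (nat_lit 1535) (nat_lit 109) (.e (nat_lit 344117) (nat_lit 21) (.e (nat_lit 516165) (nat_lit 12) (.e (nat_lit 450586) (nat_lit 10) (.e (nat_lit 573474) (nat_lit 12) (.e (nat_lit 57572) (nat_lit 54) (.e (nat_lit 770055) (nat_lit 5) .nil))))))) (.g (nat_lit 5) .nil .nil))))) (.nd (nat_lit 4) (.nd (nat_lit 5) 
(.lf (nat_lit 60104) (.g (nat_lit 3783) (.e (nat_lit 1535) (nat_lit 109) (.e (nat_lit 344117) (nat_lit 21) (.e (nat_lit 516151) (nat_lit 9) (.e (nat_lit 426286) (nat_lit 10) (.e (nat_lit 434248) (nat_lit 28) (.e (nat_lit 573475) (nat_lit 12) (.e (nat_lit 57353) (nat_lit 0) (.e (nat_lit 7124) (nat_lit 382) (.e (nat_lit 1016) (nat_lit 81) .nil))))))))) (.g (nat_lit 7) .nil .nil))) 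
(.lf (nat_lit 60136) (.g (nat_lit 2744) (.e (nat_lit 1535) (nat_lit 109) (.e (nat_lit 344117) (nat_lit 21) (.e (nat_lit 516165) (nat_lit 12) (.e (nat_lit 450579) (nat_lit 5) (.e (nat_lit 532503) (nat_lit 1) (.e (nat_lit 65280) (nat_lit 221) (.e (nat_lit 1011) (nat_lit 81) .nil))))))) (.g (nat_lit 5) .nil .nil)))) (.nd (nat_lit 5) 
(.lf (nat_lit 60120) (.g (nat_lit 2562) (.e (nat_lit 1535) (nat_lit 109) (.e (nat_lit 344117) (nat_lit 21) (.e (nat_lit 516165) (nat_lit 12) (.e (nat_lit 458496) (nat_lit 3) (.e (nat_lit 516097) (nat_lit 0) (.e (nat_lit 3393) (nat_lit 210) (.e (nat_lit 639007) (nat_lit 13) .nil))))))) (.g (nat_lit 6) .nil .nil))) 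
(.lf (nat_lit 60152) (.g (nat_lit 1956) (.e (nat_lit 1535) (nat_lit 109) (.e (nat_lit 344117) (nat_lit 21) (.e (nat_lit 516165) (nat_lit 12) (.e (nat_lit 450586) (nat_lit 10) (.e (nat_lit 573475) (nat_lit 12) (.e (nat_lit 57570) (nat_lit 54) (.e (nat_lit 770054) (nat_lit 5) .nil))))))) (.g (nat_lit 4) .nil .nil)))))) (.nd (nat_lit 3) (.nd (nat_lit 4) (.nd (nat_lit 5) 
(.lf (nat_lit 60100) (.g (nat_lit 3862) (.e (nat_lit 1535) (nat_lit 109) (.e (nat_lit 344117) (nat_lit 21) (.e (nat_lit 516151) (nat_lit 9) (.e (nat_lit 426286) (nat_lit 10) (.e (nat_lit 434248) (nat_lit 28) (.e (nat_lit 573475) (nat_lit 12) (.e (nat_lit 57348) (nat_lit 0) (.e (nat_lit 7122) (nat_lit 382) (.e (nat_lit 1016) (nat_lit 81) .nil))))))))) (.g (nat_lit 7) .nil .nil))) 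
(.lf (nat_lit 60132) (.g (nat_lit 3407) (.e (nat_lit 1535) (nat_lit 109) (.e (nat_lit 344117) (nat_lit 21) (.e (nat_lit 516165) (nat_lit 12) (.e (nat_lit 450579) (nat_lit 5) (.e (nat_lit 532501) (nat_lit 1) (.e (nat_lit 57766) (nat_lit 221) (.e (nat_lit 1008) (nat_lit 81) .nil))))))) (.g (nat_lit 5) .nil .nil)))) (.nd (nat_lit 5) 
(.lf (nat_lit 60116) (.g (nat_lit 1730) (.e (nat_lit 1535) (nat_lit 109) (.e (nat_lit 344117) (nat_lit 21) (.e (nat_lit 516165) (nat_lit 12) (.e (nat_lit 458496) (nat_lit 1) .nil)))) .nil)) 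
(.lf (nat_lit 60148) (.g (nat_lit 1828) (.e (nat_lit 1535) (nat_lit 109) (.e (nat_lit 344117) (nat_lit 21) (.e (nat_lit 516165) (nat_lit 12) (.e (nat_lit 450586) (nat_lit 10) (.e (nat_lit 573475) (nat_lit 12) .nil))))) .nil)))) (.nd (nat_lit 4) (.nd (nat_lit 5) 
(.lf (nat_lit 60108) (.g (nat_lit 2671) (.e (nat_lit 1535) (nat_lit 109) (.e (nat_lit 344117) (nat_lit 21) (.e (nat_lit 516151) (nat_lit 9) (.e (nat_lit 426286) (nat_lit 10) (.e (nat_lit 434248) (nat_lit 28) (.e (nat_lit 573475) (nat_lit 12) (.e (nat_lit 57571) (nat_lit 54) (.e (nat_lit 770054) (nat_lit 5) .nil)))))))) (.g (nat_lit 5) .nil .nil))) 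
(.lf (nat_lit 60140) (.g (nat_lit 2782) (.e (nat_lit 1535) (nat_lit 109) (.e (nat_lit 344117) (nat_lit 21) (.e (nat_lit 516165) (nat_lit 12) (.e (nat_lit 450586) (nat_lit 10) (.e (nat_lit 573473) (nat_lit 12) (.e (nat_lit 57347) (nat_lit 0) (.e (nat_lit 7125) (nat_lit 382) (.e (nat_lit 1016) (nat_lit 81) .nil)))))))) (.g (nat_lit 5) .nil .nil)))) (.nd (nat_lit 5) 
(.lf (nat_lit 60124) (.g (nat_lit 2203) (.e (nat_lit 1535) (nat_lit 109) (.e (nat_lit 344117) (nat_lit 21) (.e (nat_lit 516165) (nat_lit 12) (.e (nat_lit 450579) (nat_lit 5) (.e (nat_lit 532484) (nat_lit 0) .nil))))) .nil)) 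
(.lf (nat_lit 60156) (.g (nat_lit 2411) (.e (nat_lit 1535) (nat_lit 109) (.e (nat_lit 344117) (nat_lit 21) (.e (nat_lit 516165) (nat_lit 12) (.e (nat_lit 450586) (nat_lit 10) (.e (nat_lit 573477) (nat_lit 12) (.e (nat_lit 57351) (nat_lit 0) (.e (nat_lit 7122) (nat_lit 382) (.e (nat_lit 1016) (nat_lit 81) .nil)))))))) (.g (nat_lit 5) .nil .nil))))))) 
(.nd (nat_lit 2) (.nd (nat_lit 3) (.nd (nat_lit 4) (.nd (nat_lit 5) 
(.lf (nat_lit 60098) (.g (nat_lit 4365) (.e (nat_lit 1535) (nat_lit 109) (.e (nat_lit 344117) (nat_lit 21) (.e (nat_lit 516151) (nat_lit 9) (.e (nat_lit 426286) (nat_lit 10) (.e (nat_lit 434248) (nat_lit 28) (.e (nat_lit 573475) (nat_lit 12) (.e (nat_lit 57347) (nat_lit 0) (.e (nat_lit 7122) (nat_lit 382) (.e (nat_lit 1016) (nat_lit 81) .nil))))))))) (.g (nat_lit 7) .nil .nil))) 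
(.lf (nat_lit 60130) (.g (nat_lit 2051) (.e (nat_lit 1535) (nat_lit 109) (.e (nat_lit 344117) (nat_lit 21) (.e (nat_lit 516165) (nat_lit 12) (.e (nat_lit 450579) (nat_lit 5) (.e (nat_lit 532499) (nat_lit 1) .nil))))) .nil))) (.nd (nat_lit 5) 
(.lf (nat_lit 60114) (.g (nat_lit 2449) (.e (nat_lit 1535) (nat_lit 109) (.e (nat_lit 344117) (nat_lit 21) (.e (nat_lit 516163) (nat_lit 11) (.e (nat_lit 442427) (nat_lit 23) (.e (nat_lit 204821) (nat_lit 17) (.e (nat_lit 1910) (nat_lit 129) (.e (nat_lit 598023) (nat_lit 5) .nil))))))) (.g (nat_lit 4) .nil .nil))) 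
(.lf (nat_lit 60146) (.g (nat_lit 4318) (.e (nat_lit 1535) (nat_lit 109) (.e (nat_lit 344117) (nat_lit 21) (.e (nat_lit 516165) (nat_lit 12) (.e (nat_lit 450586) (nat_lit 10) (.e (nat_lit 573474) (nat_lit 12) (.e (nat_lit 57572) (nat_lit 54) (.e (nat_lit 770057) (nat_lit 5) .nil))))))) (.g (nat_lit 0) .nil .nil))))) (.nd (nat_lit 4) (.nd (nat_lit 5) 
(.lf (nat_lit 60106) (.g (nat_lit 2710) (.e (nat_lit 1535) (nat_lit 109) (.e (nat_lit 344117) (nat_lit 21) (.e (nat_lit 516151) (nat_lit 9) (.e (nat_lit 426286) (nat_lit 10) (.e (nat_lit 434248) (nat_lit 28) (.e (nat_lit 573475) (nat_lit 12) (.e (nat_lit 57570) (nat_lit 54) (.e (nat_lit 770054) (nat_lit 5) .nil)))))))) (.g (nat_lit 5) .nil .nil))) 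
(.lf (nat_lit 60138) (.g (nat_lit 4961) (.e (nat_lit 1535) (nat_lit 109) (.e (nat_lit 344117) (nat_lit 21) (.e (nat_lit 516165) (nat_lit 12) (.e (nat_lit 450585) (nat_lit 10) (.e (nat_lit 573474) (nat_lit 12) (.e (nat_lit 57572) (nat_lit 54) (.e (nat_lit 770057) (nat_lit 5) .nil))))))) (.g (nat_lit 6) .nil .nil)))) (.nd (nat_lit 5) 
(.lf (nat_lit 60122) (.g (nat_lit 1286) (.e (nat_lit 1535) (nat_lit 109) (.e (nat_lit 344117) (nat_lit 21) (.e (nat_lit 516165) (nat_lit 12) (.e (nat_lit 450579) (nat_lit 5) .nil)))) .nil)) 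
(.lf (nat_lit 60154) (.g (nat_lit 4107) (.e (nat_lit 1535) (nat_lit 109) (.e (nat_lit 344117) (nat_lit 21) (.e (nat_lit 516165) (nat_lit 12) (.e (nat_lit 450586) (nat_lit 10) (.e (nat_lit 573475) (nat_lit 12) (.e (nat_lit 57572) (nat_lit 54) (.e (nat_lit 770058) (nat_lit 5) .nil))))))) (.g (nat_lit 7) .nil .nil)))))) (.nd (nat_lit 3) (.nd (nat_lit 4) (.nd (nat_lit 5) 
(.lf (nat_lit 60102) (.g (nat_lit 4596) (.e (nat_lit 1535) (nat_lit 109) (.e (nat_lit 344117) (nat_lit 21) (.e (nat_lit 516151) (nat_lit 9) (.e (nat_lit 426286) (nat_lit 10) (.e (nat_lit 434248) (nat_lit 28) (.e (nat_lit 573475) (nat_lit 12) (.e (nat_lit 57351) (nat_lit 0) (.e (nat_lit 7122) (nat_lit 382) (.e (nat_lit 1016) (nat_lit 81) .nil))))))))) (.g (nat_lit 9) .nil .nil))) 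
(.lf (nat_lit 60134) (.g (nat_lit 3001) (.e (nat_lit 1535) (nat_lit 109) (.e (nat_lit 344117) (nat_lit 21) (.e (nat_lit 516165) (nat_lit 12) (.e (nat_lit 450579) (nat_lit 5) (.e (nat_lit 532501) (nat_lit 1) (.e (nat_lit 57767) (nat_lit 221) (.e (nat_lit 1009) (nat_lit 81) .nil))))))) (.g (nat_lit 5) .nil .nil)))) (.nd (nat_lit 5) 
(.lf (nat_lit 60118) (.g (nat_lit 2530) (.e (nat_lit 1535) (nat_lit 109) (.e (nat_lit 344117) (nat_lit 21) (.e (nat_lit 516165) (nat_lit 12) (.e (nat_lit 458496) (nat_lit 3) (.e (nat_lit 516097) (nat_lit 0) (.e (nat_lit 3392) (nat_lit 210) (.e (nat_lit 639007) (nat_lit 13) .nil))))))) (.g (nat_lit 5) .nil .nil))) 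
(.lf (nat_lit 60150) (.g (nat_lit 3842) (.e (nat_lit 1535) (nat_lit 109) (.e (nat_lit 344117) (nat_lit 21) (.e (nat_lit 516165) (nat_lit 12) (.e (nat_lit 450586) (nat_lit 10) (.e (nat_lit 573475) (nat_lit 12) (.e (nat_lit 57351) (nat_lit 0) (.e (nat_lit 7122) (nat_lit 382) (.e (nat_lit 1016) (nat_lit 81) .nil)))))))) (.g (nat_lit 8) .nil .nil))))) (.nd (nat_lit 4) (.nd (nat_lit 5) 
(.lf (nat_lit 60110) (.g (nat_lit 1925) (.e (nat_lit 1535) (nat_lit 109) (.e (nat_lit 344117) (nat_lit 21) (.e (nat_lit 516163) (nat_lit 11) (.e (nat_lit 442424) (nat_lit 22) (.e (nat_lit 204544) (nat_lit 3) .nil))))) .nil)) 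
(.lf (nat_lit 60142) (.g (nat_lit 3657) (.e (nat_lit 1535) (nat_lit 109) (.e (nat_lit 344117) (nat_lit 21) (.e (nat_lit 516165) (nat_lit 12) (.e (nat_lit 450586) (nat_lit 10) (.e (nat_lit 573473) (nat_lit 12) (.e (nat_lit 57352) (nat_lit 0) (.e (nat_lit 7122) (nat_lit 382) (.e (nat_lit 1016) (nat_lit 81) .nil)))))))) (.g (nat_lit 8) .nil .nil)))) (.nd (nat_lit 5) 
(.lf (nat_lit 60126) (.g (nat_lit 2262) (.e (nat_lit 1535) (nat_lit 109) (.e (nat_lit 344117) (nat_lit 21) (.e (nat_lit 516165) (nat_lit 12) (.e (nat_lit 450579) (nat_lit 5) (.e (nat_lit 532484) (nat_lit 0) (.e (nat_lit 1905) (nat_lit 129) (.e (nat_lit 598024) (nat_lit 5) .nil))))))) (.g (nat_lit 4) .nil .nil))) 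
(.lf (nat_lit 60158) (.g (nat_lit 3363) (.e (nat_lit 1535) (nat_lit 109) (.e (nat_lit 344117) (nat_lit 21) (.e (nat_lit 516165) (nat_lit 12) (.e (nat_lit 450586) (nat_lit 10) (.e (nat_lit 573477) (nat_lit 12) (.e (nat_lit 57352) (nat_lit 0) (.e (nat_lit 7122) (nat_lit 382) (.e (nat_lit 1016) (nat_lit 81) .nil)))))))) (.g (nat_lit 8) .nil .nil)))))))) 
(.nd (nat_lit 1) (.nd (nat_lit 2) (.nd (nat_lit 3) (.nd (nat_lit 4) (.nd (nat_lit 5) 
(.lf (nat_lit 60097) (.g (nat_lit 4787) (.e (nat_lit 1535) (nat_lit 109) (.e (nat_lit 344117) (nat_lit 21) (.e (nat_lit 516151) (nat_lit 9) (.e (nat_lit 426286) (nat_lit 10) (.e (nat_lit 434248) (nat_lit 28) (.e (nat_lit 573474) (nat_lit 12) (.e (nat_lit 57572) (nat_lit 54) (.e (nat_lit 770057) (nat_lit 5) .nil)))))))) (.g (nat_lit 0) .nil .nil))) 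
(.lf (nat_lit 60129) (.g (nat_lit 2044) (.e (nat_lit 1535) (nat_lit 109) (.e (nat_lit 344117) (nat_lit 21) (.e (nat_lit 516165) (nat_lit 12) (.e (nat_lit 450579) (nat_lit 5) (.e (nat_lit 532489) (nat_lit 0) .nil))))) .nil))) (.nd (nat_lit 5) 
(.lf (nat_lit 60113) (.g (nat_lit 2594) (.e (nat_lit 1535) (nat_lit 109) (.e (nat_lit 344117) (nat_lit 21) (.e (nat_lit 516163) (nat_lit 11) (.e (nat_lit 442427) (nat_lit 23) (.e (nat_lit 204821) (nat_lit 17) (.e (nat_lit 1909) (nat_lit 129) (.e (nat_lit 598023) (nat_lit 5) .nil))))))) (.g (nat_lit 4) .nil .nil))) 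
(.lf (nat_lit 60145) (.g (nat_lit 2555) (.e (nat_lit 1535) (nat_lit 109) (.e (nat_lit 344117) (nat_lit 21) (.e (nat_lit 516165) (nat_lit 12) (.e (nat_lit 450586) (nat_lit 10) (.e (nat_lit 573474) (nat_lit 12) (.e (nat_lit 57572) (nat_lit 54) (.e (nat_lit 770056) (nat_lit 5) .nil))))))) (.g (nat_lit 4) .nil .nil))))) (.nd (nat_lit 4) (.nd (nat_lit 5) 
(.lf (nat_lit 60105) (.g (nat_lit 1975) (.e (nat_lit 1535) (nat_lit 109) (.e (nat_lit 344117) (nat_lit 21) (.e (nat_lit 516151) (nat_lit 9) (.e (nat_lit 426286) (nat_lit 10) (.e (nat_lit 434248) (nat_lit 28) (.e (nat_lit 573475) (nat_lit 12) (.e (nat_lit 57353) (nat_lit 0) (.e (nat_lit 7125) (nat_lit 382) (.e (nat_lit 999) (nat_lit 81) .nil))))))))) (.g (nat_lit 4) .nil .nil))) 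
(.lf (nat_lit 60137) (.g (nat_lit 3639) (.e (nat_lit 1535) (nat_lit 109) (.e (nat_lit 344117) (nat_lit 21) (.e (nat_lit 516165) (nat_lit 12) (.e (nat_lit 450579) (nat_lit 5) (.e (nat_lit 532504) (nat_lit 1) (.e (nat_lit 57766) (nat_lit 221) (.e (nat_lit 1008) (nat_lit 81) .nil))))))) (.g (nat_lit 5) .nil .nil)))) (.nd (nat_lit 5) 
(.lf (nat_lit 60121) (.g (nat_lit 1806) (.e (nat_lit 1535) (nat_lit 109) (.e (nat_lit 344117) (nat_lit 21) (.e (nat_lit 516165) (nat_lit 12) (.e (nat_lit 450577) (nat_lit 4) .nil)))) .nil)) 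
(.lf (nat_lit 60153) (.g (nat_lit 1980) (.e (nat_lit 1535) (nat_lit 109) (.e (nat_lit 344117) (nat_lit 21) (.e (nat_lit 516165) (nat_lit 12) (.e (nat_lit 450586) (nat_lit 10) (.e (nat_lit 573475) (nat_lit 12) (.e (nat_lit 57570) (nat_lit 54) (.e (nat_lit 770056) (nat_lit 5) .nil))))))) (.g (nat_lit 4) .nil .nil)))))) (.nd (nat_lit 3) (.nd (nat_lit 4) (.nd (nat_lit 5) 
(.lf (nat_lit 60101) (.g (nat_lit 3585) (.e (nat_lit 1535) (nat_lit 109) (.e (nat_lit 344117) (nat_lit 21) (.e (nat_lit 516151) (nat_lit 9) (.e (nat_lit 426286) (nat_lit 10) (.e (nat_lit 434248) (nat_lit 28) (.e (nat_lit 573475) (nat_lit 12) (.e (nat_lit 57348) (nat_lit 0) (.e (nat_lit 7125) (nat_lit 382) (.e (nat_lit 1016) (nat_lit 81) .nil))))))))) (.g (nat_lit 6) .nil .nil))) 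
(.lf (nat_lit 60133) (.g (nat_lit 3412) (.e (nat_lit 1535) (nat_lit 109) (.e (nat_lit 344117) (nat_lit 21) (.e (nat_lit 516165) (nat_lit 12) (.e (nat_lit 450579) (nat_lit 5) (.e (nat_lit 532501) (nat_lit 1) (.e (nat_lit 57767) (nat_lit 221) (.e (nat_lit 1008) (nat_lit 81) .nil))))))) (.g (nat_lit 6) .nil .nil)))) (.nd (nat_lit 5) 
(.lf (nat_lit 60117) (.g (nat_lit 1730) (.e (nat_lit 1535) (nat_lit 109) (.e (nat_lit 344117) (nat_lit 21) (.e (nat_lit 516165) (nat_lit 12) (.e (nat_lit 458496) (nat_lit 3) .nil)))) .nil)) 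
(.lf (nat_lit 60149) (.g (nat_lit 3982) (.e (nat_lit 1535) (nat_lit 109) (.e (nat_lit 344117) (nat_lit 21) (.e (nat_lit 516165) (nat_lit 12) (.e (nat_lit 450586) (nat_lit 10) (.e (nat_lit 573475) (nat_lit 12) (.e (nat_lit 57347) (nat_lit 0) (.e (nat_lit 7124) (nat_lit 382) (.e (nat_lit 1016) (nat_lit 81) .nil)))))))) (.g (nat_lit 6) .nil .nil))))) (.nd (nat_lit 4) (.nd (nat_lit 5) 
(.lf (nat_lit 60109) (.g (nat_lit 3464) (.e (nat_lit 1535) (nat_lit 109) (.e (nat_lit 344117) (nat_lit 21) (.e (nat_lit 516151) (nat_lit 9) (.e (nat_lit 426290) (nat_lit 10) .nil)))) .nil)) 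
(.lf (nat_lit 60141) (.g (nat_lit 1861) (.e (nat_lit 1535) (nat_lit 109) (.e (nat_lit 344117) (nat_lit 21) (.e (nat_lit 516165) (nat_lit 12) (.e (nat_lit 450586) (nat_lit 10) (.e (nat_lit 573473) (nat_lit 12) (.e (nat_lit 57348) (nat_lit 0) (.e (nat_lit 7125) (nat_lit 382) (.e (nat_lit 999) (nat_lit 81) .nil)))))))) (.g (nat_lit 4) .nil .nil)))) (.nd (nat_lit 5) 
(.lf (nat_lit 60125) (.g (nat_lit 3112) (.e (nat_lit 1535) (nat_lit 109) (.e (nat_lit 344117) (nat_lit 21) (.e (nat_lit 516165) (nat_lit 12) (.e (nat_lit 450579) (nat_lit 5) (.e (nat_lit 532484) (nat_lit 0) (.e (nat_lit 1905) (nat_lit 129) (.e (nat_lit 598023) (nat_lit 5) .nil))))))) (.g (nat_lit 0) .nil .nil))) 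
(.lf (nat_lit 60157) (.g (nat_lit 2091) (.e (nat_lit 1535) (nat_lit 109) (.e (nat_lit 344117) (nat_lit 21) (.e (nat_lit 516165) (nat_lit 12) (.e (nat_lit 450586) (nat_lit 10) (.e (nat_lit 573477) (nat_lit 12) (.e (nat_lit 57351) (nat_lit 0) (.e (nat_lit 7124) (nat_lit 382) (.e (nat_lit 1016) (nat_lit 81) .nil)))))))) (.g (nat_lit 4) .nil .nil))))))) 
(.nd (nat_lit 2) (.nd (nat_lit 3) (.nd (nat_lit 4) (.nd (nat_lit 5) 
(.lf (nat_lit 60099) (.g (nat_lit 5006) (.e (nat_lit 1535) (nat_lit 109) (.e (nat_lit 344117) (nat_lit 21) (.e (nat_lit 516151) (nat_lit 9) (.e (nat_lit 426286) (nat_lit 10) (.e (nat_lit 434248) (nat_lit 28) (.e (nat_lit 573475) (nat_lit 12) (.e (nat_lit 57347) (nat_lit 0) (.e (nat_lit 7124) (nat_lit 382) (.e (nat_lit 1016) (nat_lit 81) .nil))))))))) (.g (nat_lit 9) .nil .nil))) 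
(.lf (nat_lit 60131) (.g (nat_lit 2610) (.e (nat_lit 1535) (nat_lit 109) (.e (nat_lit 344117) (nat_lit 21) (.e (nat_lit 516165) (nat_lit 12) (.e (nat_lit 450579) (nat_lit 5) (.e (nat_lit 532499) (nat_lit 1) (.e (nat_lit 65280) (nat_lit 221) (.e (nat_lit 1011) (nat_lit 81) .nil))))))) (.g (nat_lit 5) .nil .nil)))) (.nd (nat_lit 5) 
(.lf (nat_lit 60115) (.g (nat_lit 409) (.e (nat_lit 1535) (nat_lit 109) (.e (nat_lit 344117) (nat_lit 21) (.e (nat_lit 516165) (nat_lit 12) .nil))) .nil)) 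
(.lf (nat_lit 60147) (.g (nat_lit 3382) (.e (nat_lit 1535) (nat_lit 109) (.e (nat_lit 344117) (nat_lit 21) (.e (nat_lit 516165) (nat_lit 12) (.e (nat_lit 450586) (nat_lit 10) (.e (nat_lit 573474) (nat_lit 12) (.e (nat_lit 57572) (nat_lit 54) (.e (nat_lit 770058) (nat_lit 5) .nil))))))) (.g (nat_lit 5) .nil .nil))))) (.nd (nat_lit 4) (.nd (nat_lit 5) 
(.lf (nat_lit 60107) (.g (nat_lit 2733) (.e (nat_lit 1535) (nat_lit 109) (.e (nat_lit 344117) (nat_lit 21) (.e (nat_lit 516151) (nat_lit 9) (.e (nat_lit 426286) (nat_lit 10) (.e (nat_lit 434248) (nat_lit 28) (.e (nat_lit 573475) (nat_lit 12) (.e (nat_lit 57570) (nat_lit 54) (.e (nat_lit 770056) (nat_lit 5) .nil)))))))) (.g (nat_lit 5) .nil .nil))) 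
(.lf (nat_lit 60139) (.g (nat_lit 1723) (.e (nat_lit 1535) (nat_lit 109) (.e (nat_lit 344117) (nat_lit 21) (.e (nat_lit 516165) (nat_lit 12) (.e (nat_lit 450586) (nat_lit 10) (.e (nat_lit 573473) (nat_lit 12) .nil))))) .nil))) (.nd (nat_lit 5) 
(.lf (nat_lit 60123) (.g (nat_lit 2249) (.e (nat_lit 1535) (nat_lit 109) (.e (nat_lit 344117) (nat_lit 21) (.e (nat_lit 516165) (nat_lit 12) (.e (nat_lit 450579) (nat_lit 5) (.e (nat_lit 532481) (nat_lit 0) .nil))))) .nil)) 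
(.lf (nat_lit 60155) (.g (nat_lit 1874) (.e (nat_lit 1535) (nat_lit 109) (.e (nat_lit 344117) (nat_lit 21) (.e (nat_lit 516165) (nat_lit 12) (.e (nat_lit 450586) (nat_lit 10) (.e (nat_lit 573477) (nat_lit 12) .nil))))) .nil))))) (.nd (nat_lit 3) (.nd (nat_lit 4) (.nd (nat_lit 5) 
(.lf (nat_lit 60103) (.g (nat_lit 3484) (.e (nat_lit 1535) (nat_lit 109) (.e (nat_lit 344117) (nat_lit 21) (.e (nat_lit 516151) (nat_lit 9) (.e (nat_lit 426286) (nat_lit 10) (.e (nat_lit 434248) (nat_lit 28) (.e (nat_lit 573475) (nat_lit 12) (.e (nat_lit 57351) (nat_lit 0) (.e (nat_lit 7125) (nat_lit 382) (.e (nat_lit 1016) (nat_lit 81) .nil))))))))) (.g (nat_lit 6) .nil .nil))) 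
(.lf (nat_lit 60135) (.g (nat_lit 2090) (.e (nat_lit 1535) (nat_lit 109) (.e (nat_lit 344117) (nat_lit 21) (.e (nat_lit 516165) (nat_lit 12) (.e (nat_lit 450579) (nat_lit 5) (.e (nat_lit 532503) (nat_lit 1) (.e (nat_lit 65280) (nat_lit 221) (.e (nat_lit 1010) (nat_lit 81) .nil))))))) (.g (nat_lit 4) .nil .nil)))) (.nd (nat_lit 5) 
(.lf (nat_lit 60119) (.g (nat_lit 2278) (.e (nat_lit 1535) (nat_lit 109) (.e (nat_lit 344117) (nat_lit 21) (.e (nat_lit 516165) (nat_lit 12) (.e (nat_lit 458496) (nat_lit 3) (.e (nat_lit 516097) (nat_lit 0) (.e (nat_lit 3392) (nat_lit 210) (.e (nat_lit 639008) (nat_lit 13) .nil))))))) (.g (nat_lit 5) .nil .nil))) 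
(.lf (nat_lit 60151) (.g (nat_lit 2726) (.e (nat_lit 1535) (nat_lit 109) (.e (nat_lit 344117) (nat_lit 21) (.e (nat_lit 516165) (nat_lit 12) (.e (nat_lit 450586) (nat_lit 10) (.e (nat_lit 573475) (nat_lit 12) (.e (nat_lit 57351) (nat_lit 0) (.e (nat_lit 7125) (nat_lit 382) (.e (nat_lit 1016) (nat_lit 81) .nil)))))))) (.g (nat_lit 5) .nil .nil))))) (.nd (nat_lit 4) (.nd (nat_lit 5) 
(.lf (nat_lit 60111) (.g (nat_lit 2485) (.e (nat_lit 1535) (nat_lit 109) (.e (nat_lit 344117) (nat_lit 21) (.e (nat_lit 516163) (nat_lit 11) (.e (nat_lit 442424) (nat_lit 22) (.e (nat_lit 196661) (nat_lit 12) .nil))))) .nil)) 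
(.lf (nat_lit 60143) (.g (nat_lit 2750) (.e (nat_lit 1535) (nat_lit 109) (.e (nat_lit 344117) (nat_lit 21) (.e (nat_lit 516165) (nat_lit 12) (.e (nat_lit 450586) (nat_lit 10) (.e (nat_lit 573473) (nat_lit 12) (.e (nat_lit 57353) (nat_lit 0) (.e (nat_lit 7125) (nat_lit 382) (.e (nat_lit 1016) (nat_lit 81) .nil)))))))) (.g (nat_lit 5) .nil .nil)))) (.nd (nat_lit 5) 
(.lf (nat_lit 60127) (.g (nat_lit 2805) (.e (nat_lit 1535) (nat_lit 109) (.e (nat_lit 344117) (nat_lit 21) (.e (nat_lit 516165) (nat_lit 12) (.e (nat_lit 450579) (nat_lit 5) (.e (nat_lit 532484) (nat_lit 0) (.e (nat_lit 1912) (nat_lit 129) (.e (nat_lit 598022) (nat_lit 5) .nil))))))) (.g (nat_lit 5) .nil .nil))) 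
(.lf (nat_lit 60159) (.g (nat_lit 2645) (.e (nat_lit 1535) (nat_lit 109) (.e (nat_lit 344117) (nat_lit 21) (.e (nat_lit 516165) (nat_lit 12) (.e (nat_lit 450586) (nat_lit 10) (.e (nat_lit 573477) (nat_lit 12) (.e (nat_lit 57353) (nat_lit 0) (.e (nat_lit 7122) (nat_lit 382) (.e (nat_lit 1016) (nat_lit 81) .nil)))))))) (.g (nat_lit 6) .nil .nil)))))))))

noncomputable def tv826 : DT := (.nd (nat_lit 0) (.nd (nat_lit 1) (.nd (nat_lit 2) (.nd (nat_lit 3) (.nd (nat_lit 4) (.nd (nat_lit 5) 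
(.lf (nat_lit 60160) (.g (nat_lit 3141) (.e (nat_lit 1535) (nat_lit 109) (.e (nat_lit 344117) (nat_lit 21) (.e (nat_lit 516165) (nat_lit 12) (.e (nat_lit 450586) (nat_lit 10) (.e (nat_lit 573477) (nat_lit 12) (.e (nat_lit 57353) (nat_lit 0) (.e (nat_lit 7124) (nat_lit 382) (.e (nat_lit 1016) (nat_lit 81) .nil)))))))) (.g (nat_lit 7) .nil .nil))) 
(.lf (nat_lit 60192) (.g (nat_lit 2151) (.e (nat_lit 1535) (nat_lit 109) (.e (nat_lit 344117) (nat_lit 21) (.e (nat_lit 516166) (nat_lit 12) (.e (nat_lit 450587) (nat_lit 10) (.e (nat_lit 573478) (nat_lit 12) (.e (nat_lit 57351) (nat_lit 0) (.e (nat_lit 7125) (nat_lit 382) (.e (nat_lit 1016) (nat_lit 81) .nil)))))))) (.g (nat_lit 5) .nil .nil)))) (.nd (nat_lit 5) 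
(.lf (nat_lit 60176) (.g (nat_lit 2008) (.e (nat_lit 1535) (nat_lit 109) (.e (nat_lit 344117) (nat_lit 21) (.e (nat_lit 516166) (nat_lit 12) (.e (nat_lit 450579) (nat_lit 5) .nil)))) .nil)) 
(.lf (nat_lit 60208) (.g (nat_lit 3012) (.e (nat_lit 1535) (nat_lit 109) (.e (nat_lit 344117) (nat_lit 21) (.e (nat_lit 516166) (nat_lit 12) (.e (nat_lit 450588) (nat_lit 10) (.e (nat_lit 573475) (nat_lit 12) (.e (nat_lit 57351) (nat_lit 0) (.e (nat_lit 7125) (nat_lit 382) (.e (nat_lit 1016) (nat_lit 81) .nil)))))))) (.g (nat_lit 5) .nil .nil))))) (.nd (nat_lit 4) (.nd (nat_lit 5) 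
(.lf (nat_lit 60168) (.g (nat_lit 3410) (.e (nat_lit 1535) (nat_lit 109) (.e (nat_lit 344117) (nat_lit 21) (.e (nat_lit 516165) (nat_lit 12) (.e (nat_lit 450587) (nat_lit 10) (.e (nat_lit 573475) (nat_lit 12) (.e (nat_lit 57572) (nat_lit 54) (.e (nat_lit 770055) (nat_lit 5) .nil))))))) (.g (nat_lit 4) .nil .nil))) 
(.lf (nat_lit 60200) (.g (nat_lit 4026) (.e (nat_lit 1535) (nat_lit 109) (.e (nat_lit 344117) (nat_lit 21) (.e (nat_lit 516166) (nat_lit 12) (.e (nat_lit 450588) (nat_lit 10) (.e (nat_lit 573473) (nat_lit 12) (.e (nat_lit 57352) (nat_lit 0) (.e (nat_lit 7122) (nat_lit 382) (.e (nat_lit 1016) (nat_lit 81) .nil)))))))) (.g (nat_lit 8) .nil .nil)))) (.nd (nat_lit 5) 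
(.lf (nat_lit 60184) (.g (nat_lit 1805) (.e (nat_lit 1535) (nat_lit 109) (.e (nat_lit 344117) (nat_lit 21) (.e (nat_lit 516166) (nat_lit 12) (.e (nat_lit 450587) (nat_lit 10) (.e (nat_lit 573477) (nat_lit 12) .nil))))) .nil)) 
(.lf (nat_lit 60216) (.g (nat_lit 756) (.e (nat_lit 1535) (nat_lit 109) (.e (nat_lit 344117) (nat_lit 21) (.e (nat_lit 516185) (nat_lit 16) .nil))) .nil))))) (.nd (nat_lit 3) (.nd (nat_lit 4) (.nd (nat_lit 5) 
(.lf (nat_lit 60164) (.g (nat_lit 2369) (.e (nat_lit 1535) (nat_lit 109) (.e (nat_lit 344117) (nat_lit 21) (.e (nat_lit 516165) (nat_lit 12) (.e (nat_lit 450586) (nat_lit 10) (.e (nat_lit 573478) (nat_lit 12) (.e (nat_lit 57353) (nat_lit 0) (.e (nat_lit 7122) (nat_lit 382) (.e (nat_lit 1016) (nat_lit 81) .nil)))))))) (.g (nat_lit 5) .nil .nil))) 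
(.lf (nat_lit 60196) (.g (nat_lit 1985) (.e (nat_lit 1535) (nat_lit 109) (.e (nat_lit 344117) (nat_lit 21) (.e (nat_lit 516166) (nat_lit 12) (.e (nat_lit 450588) (nat_lit 10) (.e (nat_lit 573473) (nat_lit 12) .nil))))) .nil))) (.nd (nat_lit 5) 
(.lf (nat_lit 60180) (.g (nat_lit 3837) (.e (nat_lit 1535) (nat_lit 109) (.e (nat_lit 344117) (nat_lit 21) (.e (nat_lit 516166) (nat_lit 12) (.e (nat_lit 450587) (nat_lit 10) (.e (nat_lit 573472) (nat_lit 12) (.e (nat_lit 57570) (nat_lit 54) (.e (nat_lit 770055) (nat_lit 5) .nil))))))) (.g (nat_lit 7) .nil .nil))) 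
(.lf (nat_lit 60212) (.g (nat_lit 5167) (.e (nat_lit 1535) (nat_lit 109) (.e (nat_lit 344117) (nat_lit 21) (.e (nat_lit 516167) (nat_lit 12) (.e (nat_lit 450586) (nat_lit 10) (.e (nat_lit 573474) (nat_lit 12) (.e (nat_lit 57572) (nat_lit 54) (.e (nat_lit 770058) (nat_lit 5) .nil))))))) (.g (nat_lit 5) .nil .nil))))) (.nd (nat_lit 4) (.nd (nat_lit 5) 
(.lf (nat_lit 60172) (.g (nat_lit 389) (.e (nat_lit 1535) (nat_lit 109) (.e (nat_lit 344117) (nat_lit 21) (.e (nat_lit 516166) (nat_lit 12) .nil))) .nil)) 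
(.lf (nat_lit 60204) (.g (nat_lit 4636) (.e (nat_lit 1535) (nat_lit 109) (.e (nat_lit 344117) (nat_lit 21) (.e (nat_lit 516166) (nat_lit 12) (.e (nat_lit 450588) (nat_lit 10) (.e (nat_lit 573475) (nat_lit 12) (.e (nat_lit 57347) (nat_lit 0) (.e (nat_lit 7124) (nat_lit 382) (.e (nat_lit 1016) (nat_lit 81) .nil)))))))) (.g (nat_lit 8) .nil .nil)))) (.nd (nat_lit 5) 
(.lf (nat_lit 60188) (.g (nat_lit 3177) (.e (nat_lit 1535) (nat_lit 109) (.e (nat_lit 344117) (nat_lit 21) (.e (nat_lit 516166) (nat_lit 12) (.e (nat_lit 450587) (nat_lit 10) (.e (nat_lit 573477) (nat_lit 12) (.e (nat_lit 57353) (nat_lit 0) (.e (nat_lit 7124) (nat_lit 382) (.e (nat_lit 1016) (nat_lit 81) .nil)))))))) (.g (nat_lit 7) .nil .nil))) 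
(.lf (nat_lit 60220) (.g (nat_lit 2012) (.e (nat_lit 1535) (nat_lit 109) (.e (nat_lit 344126) (nat_lit 25) (.e (nat_lit 548891) (nat_lit 11) (.e (nat_lit 81953) (nat_lit 22) .nil)))) .nil)))))) (.nd (nat_lit 2) (.nd (nat_lit 3) (.nd (nat_lit 4) (.nd (nat_lit 5) 
(.lf (nat_lit 60162) (.g (nat_lit 1808) (.e (nat_lit 1535) (nat_lit 109) (.e (nat_lit 344117) (nat_lit 21) (.e (nat_lit 516165) (nat_lit 12) (.e (nat_lit 450586) (nat_lit 10) (.e (nat_lit 573478) (nat_lit 12) .nil))))) .nil)) 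
(.lf (nat_lit 60194) (.g (nat_lit 3843) (.e (nat_lit 1535) (nat_lit 109) (.e (nat_lit 344117) (nat_lit 21) (.e (nat_lit 516166) (nat_lit 12) (.e (nat_lit 450588) (nat_lit 10) (.e (nat_lit 573451) (nat_lit 9) .nil))))) .nil))) (.nd (nat_lit 5) 
(.lf (nat_lit 60178) (.g (nat_lit 2594) (.e (nat_lit 1535) (nat_lit 109) (.e (nat_lit 344117) (nat_lit 21) (.e (nat_lit 516166) (nat_lit 12) (.e (nat_lit 450586) (nat_lit 10) (.e (nat_lit 573474) (nat_lit 12) .nil))))) .nil)) 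
(.lf (nat_lit 60210) (.g (nat_lit 5183) (.e (nat_lit 1535) (nat_lit 109) (.e (nat_lit 344117) (nat_lit 21) (.e (nat_lit 516167) (nat_lit 12) (.e (nat_lit 450586) (nat_lit 10) (.e (nat_lit 573474) (nat_lit 12) (.e (nat_lit 57572) (nat_lit 54) (.e (nat_lit 770055) (nat_lit 5) .nil))))))) (.g (nat_lit 5) .nil .nil))))) (.nd (nat_lit 4) (.nd (nat_lit 5) 
(.lf (nat_lit 60170) (.g (nat_lit 2685) (.e (nat_lit 1535) (nat_lit 109) (.e (nat_lit 344117) (nat_lit 21) (.e (nat_lit 516165) (nat_lit 12) (.e (nat_lit 450588) (nat_lit 10) (.e (nat_lit 573474) (nat_lit 12) (.e (nat_lit 57572) (nat_lit 54) (.e (nat_lit 770056) (nat_lit 5) .nil))))))) (.g (nat_lit 4) .nil .nil))) 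
(.lf (nat_lit 60202) (.g (nat_lit 2037) (.e (nat_lit 1535) (nat_lit 109) (.e (nat_lit 344117) (nat_lit 21) (.e (nat_lit 516166) (nat_lit 12) (.e (nat_lit 450588) (nat_lit 10) (.e (nat_lit 573475) (nat_lit 12) .nil))))) .nil))) (.nd (nat_lit 5) 
(.lf (nat_lit 60186) (.g (nat_lit 3392) (.e (nat_lit 1535) (nat_lit 109) (.e (nat_lit 344117) (nat_lit 21) (.e (nat_lit 516166) (nat_lit 12) (.e (nat_lit 450587) (nat_lit 10) (.e (nat_lit 573477) (nat_lit 12) (.e (nat_lit 57352) (nat_lit 0) (.e (nat_lit 7122) (nat_lit 382) (.e (nat_lit 1016) (nat_lit 81) .nil)))))))) (.g (nat_lit 8) .nil .nil))) 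
(.lf (nat_lit 60218) (.g (nat_lit 1323) (.e (nat_lit 1535) (nat_lit 109) (.e (nat_lit 344126) (nat_lit 25) (.e (nat_lit 548874) (nat_lit 5) (.e (nat_lit 1598) (nat_lit 111) .nil)))) .nil))))) (.nd (nat_lit 3) (.nd (nat_lit 4) (.nd (nat_lit 5) 
(.lf (nat_lit 60166) (.g (nat_lit 1457) (.e (nat_lit 1535) (nat_lit 109) (.e (nat_lit 344117) (nat_lit 21) (.e (nat_lit 516165) (nat_lit 12) (.e (nat_lit 450587) (nat_lit 10) .nil)))) .nil)) 
(.lf (nat_lit 60198) (.g (nat_lit 3177) (.e (nat_lit 1535) (nat_lit 109) (.e (nat_lit 344117) (nat_lit 21) (.e (nat_lit 516166) (nat_lit 12) (.e (nat_lit 450588) (nat_lit 10) (.e (nat_lit 573473) (nat_lit 12) (.e (nat_lit 57347) (nat_lit 0) (.e (nat_lit 7125) (nat_lit 382) (.e (nat_lit 1016) (nat_lit 81) .nil)))))))) (.g (nat_lit 5) .nil .nil)))) (.nd (nat_lit 5) 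
(.lf (nat_lit 60182) (.g (nat_lit 3244) (.e (nat_lit 1535) (nat_lit 109) (.e (nat_lit 344117) (nat_lit 21) (.e (nat_lit 516166) (nat_lit 12) (.e (nat_lit 450587) (nat_lit 10) (.e (nat_lit 573472) (nat_lit 12) (.e (nat_lit 57572) (nat_lit 54) (.e (nat_lit 770055) (nat_lit 5) .nil))))))) (.g (nat_lit 5) .nil .nil))) 
(.lf (nat_lit 60214) (.g (nat_lit 2253) (.e (nat_lit 1535) (nat_lit 109) (.e (nat_lit 344117) (nat_lit 21) (.e (nat_lit 524032) (nat_lit 12) (.e (nat_lit 450588) (nat_lit 10) (.e (nat_lit 573474) (nat_lit 12) (.e (nat_lit 57572) (nat_lit 54) (.e (nat_lit 770057) (nat_lit 5) .nil))))))) (.g (nat_lit 6) .nil .nil))))) (.nd (nat_lit 4) (.nd (nat_lit 5) 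
(.lf (nat_lit 60174) (.g (nat_lit 2297) (.e (nat_lit 1535) (nat_lit 109) (.e (nat_lit 344117) (nat_lit 21) (.e (nat_lit 516166) (nat_lit 12) (.e (nat_lit 458496) (nat_lit 3) (.e (nat_lit 516106) (nat_lit 0) (.e (nat_lit 3391) (nat_lit 210) (.e (nat_lit 639008) (nat_lit 13) .nil))))))) (.g (nat_lit 5) .nil .nil))) 
(.lf (nat_lit 60206) (.g (nat_lit 3241) (.e (nat_lit 1535) (nat_lit 109) (.e (nat_lit 344117) (nat_lit 21) (.e (nat_lit 516166) (nat_lit 12) (.e (nat_lit 450588) (nat_lit 10) (.e (nat_lit 573475) (nat_lit 12) (.e (nat_lit 57348) (nat_lit 0) (.e (nat_lit 7125) (nat_lit 382) (.e (nat_lit 1016) (nat_lit 81) .nil)))))))) (.g (nat_lit 5) .nil .nil)))) (.nd (nat_lit 5) 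
(.lf (nat_lit 60190) (.g (nat_lit 1718) (.e (nat_lit 1535) (nat_lit 109) (.e (nat_lit 344117) (nat_lit 21) (.e (nat_lit 516166) (nat_lit 12) (.e (nat_lit 450587) (nat_lit 10) (.e (nat_lit 573478) (nat_lit 12) .nil))))) .nil)) 
(.lf (nat_lit 60222) (.g (nat_lit 2052) (.e (nat_lit 1535) (nat_lit 109) (.e (nat_lit 344129) (nat_lit 26) (.e (nat_lit 557087) (nat_lit 11) (.e (nat_lit 24640) (nat_lit 10) .nil)))) .nil))))))) (.nd (nat_lit 1) (.nd (nat_lit 2) (.nd (nat_lit 3) (.nd (nat_lit 4) (.nd (nat_lit 5) 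
(.lf (nat_lit 60161) (.g (nat_lit 2396) (.e (nat_lit 1535) (nat_lit 109) (.e (nat_lit 344117) (nat_lit 21) (.e (nat_lit 516165) (nat_lit 12) (.e (nat_lit 450586) (nat_lit 10) (.e (nat_lit 573477) (nat_lit 12) (.e (nat_lit 57353) (nat_lit 0) (.e (nat_lit 7125) (nat_lit 382) (.e (nat_lit 1016) (nat_lit 81) .nil)))))))) (.g (nat_lit 5) .nil .nil))) 
(.lf (nat_lit 60193) (.g (nat_lit 2253) (.e (nat_lit 1535) (nat_lit 109) (.e (nat_lit 344117) (nat_lit 21) (.e (nat_lit 516166) (nat_lit 12) (.e (nat_lit 450587) (nat_lit 10) (.e (nat_lit 573478) (nat_lit 12) (.e (nat_lit 57353) (nat_lit 0) (.e (nat_lit 7122) (nat_lit 382) (.e (nat_lit 1016) (nat_lit 81) .nil)))))))) (.g (nat_lit 5) .nil .nil)))) (.nd (nat_lit 5) 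
(.lf (nat_lit 60177) (.g (nat_lit 4150) (.e (nat_lit 1535) (nat_lit 109) (.e (nat_lit 344117) (nat_lit 21) (.e (nat_lit 516166) (nat_lit 12) (.e (nat_lit 450585) (nat_lit 10) (.e (nat_lit 573474) (nat_lit 12) (.e (nat_lit 57572) (nat_lit 54) (.e (nat_lit 770057) (nat_lit 5) .nil))))))) (.g (nat_lit 7) .nil .nil))) 
(.lf (nat_lit 60209) (.g (nat_lit 2302) (.e (nat_lit 1535) (nat_lit 109) (.e (nat_lit 344117) (nat_lit 21) (.e (nat_lit 516166) (nat_lit 12) (.e (nat_lit 450588) (nat_lit 10) (.e (nat_lit 573475) (nat_lit 12) (.e (nat_lit 57570) (nat_lit 54) (.e (nat_lit 770054) (nat_lit 5) .nil))))))) (.g (nat_lit 4) .nil .nil))))) (.nd (nat_lit 4) (.nd (nat_lit 5) 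
(.lf (nat_lit 60169) (.g (nat_lit 2467) (.e (nat_lit 1535) (nat_lit 109) (.e (nat_lit 344117) (nat_lit 21) (.e (nat_lit 516165) (nat_lit 12) (.e (nat_lit 450587) (nat_lit 10) (.e (nat_lit 573477) (nat_lit 12) .nil))))) .nil)) 
(.lf (nat_lit 60201) (.g (nat_lit 3094) (.e (nat_lit 1535) (nat_lit 109) (.e (nat_lit 344117) (nat_lit 21) (.e (nat_lit 516166) (nat_lit 12) (.e (nat_lit 450588) (nat_lit 10) (.e (nat_lit 573473) (nat_lit 12) (.e (nat_lit 57353) (nat_lit 0) (.e (nat_lit 7125) (nat_lit 382) (.e (nat_lit 1016) (nat_lit 81) .nil)))))))) (.g (nat_lit 5) .nil .nil)))) (.nd (nat_lit 5) 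
(.lf (nat_lit 60185) (.g (nat_lit 2556) (.e (nat_lit 1535) (nat_lit 109) (.e (nat_lit 344117) (nat_lit 21) (.e (nat_lit 516166) (nat_lit 12) (.e (nat_lit 450587) (nat_lit 10) (.e (nat_lit 573477) (nat_lit 12) (.e (nat_lit 57351) (nat_lit 0) (.e (nat_lit 7122) (nat_lit 382) (.e (nat_lit 1016) (nat_lit 81) .nil)))))))) (.g (nat_lit 5) .nil .nil))) 
(.lf (nat_lit 60217) (.g (nat_lit 2923) (.e (nat_lit 1535) (nat_lit 109) (.e (nat_lit 344121) (nat_lit 22) (.e (nat_lit 524322) (nat_lit 12) (.e (nat_lit 450588) (nat_lit 10) (.e (nat_lit 573474) (nat_lit 12) (.e (nat_lit 57572) (nat_lit 54) (.e (nat_lit 770057) (nat_lit 5) .nil))))))) (.g (nat_lit 7) .nil .nil)))))) (.nd (nat_lit 3) (.nd (nat_lit 4) (.nd (nat_lit 5) 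
(.lf (nat_lit 60165) (.g (nat_lit 2867) (.e (nat_lit 1535) (nat_lit 109) (.e (nat_lit 344117) (nat_lit 21) (.e (nat_lit 516165) (nat_lit 12) (.e (nat_lit 450586) (nat_lit 10) (.e (nat_lit 573478) (nat_lit 12) (.e (nat_lit 57353) (nat_lit 0) (.e (nat_lit 7124) (nat_lit 382) (.e (nat_lit 1016) (nat_lit 81) .nil)))))))) (.g (nat_lit 7) .nil .nil))) 
(.lf (nat_lit 60197) (.g (nat_lit 2148) (.e (nat_lit 1535) (nat_lit 109) (.e (nat_lit 344117) (nat_lit 21) (.e (nat_lit 516166) (nat_lit 12) (.e (nat_lit 450588) (nat_lit 10) (.e (nat_lit 573473) (nat_lit 12) (.e (nat_lit 57347) (nat_lit 0) (.e (nat_lit 7125) (nat_lit 382) (.e (nat_lit 999) (nat_lit 81) .nil)))))))) (.g (nat_lit 4) .nil .nil)))) (.nd (nat_lit 5) 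
(.lf (nat_lit 60181) (.g (nat_lit 3801) (.e (nat_lit 1535) (nat_lit 109) (.e (nat_lit 344117) (nat_lit 21) (.e (nat_lit 516166) (nat_lit 12) (.e (nat_lit 450587) (nat_lit 10) (.e (nat_lit 573472) (nat_lit 12) (.e (nat_lit 57570) (nat_lit 54) (.e (nat_lit 770058) (nat_lit 5) .nil))))))) (.g (nat_lit 7) .nil .nil))) 
(.lf (nat_lit 60213) (.g (nat_lit 691) (.e (nat_lit 1535) (nat_lit 109) (.e (nat_lit 344117) (nat_lit 21) (.e (nat_lit 524032) (nat_lit 12) .nil))) .nil)))) (.nd (nat_lit 4) (.nd (nat_lit 5) 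
(.lf (nat_lit 60173) (.g (nat_lit 1690) (.e (nat_lit 1535) (nat_lit 109) (.e (nat_lit 344117) (nat_lit 21) (.e (nat_lit 516166) (nat_lit 12) (.e (nat_lit 458496) (nat_lit 3) .nil)))) .nil)) 
(.lf (nat_lit 60205) (.g (nat_lit 3937) (.e (nat_lit 1535) (nat_lit 109) (.e (nat_lit 344117) (nat_lit 21) (.e (nat_lit 516166) (nat_lit 12) (.e (nat_lit 450588) (nat_lit 10) (.e (nat_lit 573475) (nat_lit 12) (.e (nat_lit 57348) (nat_lit 0) (.e (nat_lit 7124) (nat_lit 382) (.e (nat_lit 1016) (nat_lit 81) .nil)))))))) (.g (nat_lit 6) .nil .nil)))) (.nd (nat_lit 5) 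
(.lf (nat_lit 60189) (.g (nat_lit 2437) (.e (nat_lit 1535) (nat_lit 109) (.e (nat_lit 344117) (nat_lit 21) (.e (nat_lit 516166) (nat_lit 12) (.e (nat_lit 450587) (nat_lit 10) (.e (nat_lit 573477) (nat_lit 12) (.e (nat_lit 57353) (nat_lit 0) (.e (nat_lit 7125) (nat_lit 382) (.e (nat_lit 1016) (nat_lit 81) .nil)))))))) (.g (nat_lit 5) .nil .nil))) 
(.lf (nat_lit 60221) (.g (nat_lit 604) (.e (nat_lit 1535) (nat_lit 109) (.e (nat_lit 344129) (nat_lit 26) (.e (nat_lit 557087) (nat_lit 11) .nil))) .nil)))))) (.nd (nat_lit 2) (.nd (nat_lit 3) (.nd (nat_lit 4) (.nd (nat_lit 5) 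
(.lf (nat_lit 60163) (.g (nat_lit 3257) (.e (nat_lit 1535) (nat_lit 109) (.e (nat_lit 344117) (nat_lit 21) (.e (nat_lit 516165) (nat_lit 12) (.e (nat_lit 450586) (nat_lit 10) (.e (nat_lit 573478) (nat_lit 12) (.e (nat_lit 57351) (nat_lit 0) (.e (nat_lit 7122) (nat_lit 382) (.e (nat_lit 1016) (nat_lit 81) .nil)))))))) (.g (nat_lit 8) .nil .nil))) 
(.lf (nat_lit 60195) (.g (nat_lit 3956) (.e (nat_lit 1535) (nat_lit 109) (.e (nat_lit 344117) (nat_lit 21) (.e (nat_lit 516166) (nat_lit 12) (.e (nat_lit 450588) (nat_lit 10) (.e (nat_lit 573451) (nat_lit 9) (.e (nat_lit 1035) (nat_lit 81) (.e (nat_lit 2281) (nat_lit 150) (.e (nat_lit 770058) (nat_lit 5) .nil)))))))) (.g (nat_lit 4) .nil .nil)))) (.nd (nat_lit 5) 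
(.lf (nat_lit 60179) (.g (nat_lit 2802) (.e (nat_lit 1535) (nat_lit 109) (.e (nat_lit 344117) (nat_lit 21) (.e (nat_lit 516166) (nat_lit 12) (.e (nat_lit 450587) (nat_lit 10) (.e (nat_lit 573472) (nat_lit 12) .nil))))) .nil)) 
(.lf (nat_lit 60211) (.g (nat_lit 6102) (.e (nat_lit 1535) (nat_lit 109) (.e (nat_lit 344117) (nat_lit 21) (.e (nat_lit 516167) (nat_lit 12) (.e (nat_lit 450586) (nat_lit 10) (.e (nat_lit 573474) (nat_lit 12) (.e (nat_lit 57572) (nat_lit 54) (.e (nat_lit 770057) (nat_lit 5) .nil))))))) (.g (nat_lit 6) .nil .nil))))) (.nd (nat_lit 4) (.nd (nat_lit 5) 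
(.lf (nat_lit 60171) (.g (nat_lit 4432) (.e (nat_lit 1535) (nat_lit 109) (.e (nat_lit 344117) (nat_lit 21) (.e (nat_lit 516165) (nat_lit 12) (.e (nat_lit 450588) (nat_lit 10) (.e (nat_lit 573474) (nat_lit 12) (.e (nat_lit 57572) (nat_lit 54) (.e (nat_lit 770057) (nat_lit 5) .nil))))))) (.g (nat_lit 0) .nil .nil))) 
(.lf (nat_lit 60203) (.g (nat_lit 3998) (.e (nat_lit 1535) (nat_lit 109) (.e (nat_lit 344117) (nat_lit 21) (.e (nat_lit 516166) (nat_lit 12) (.e (nat_lit 450588) (nat_lit 10) (.e (nat_lit 573475) (nat_lit 12) (.e (nat_lit 57347) (nat_lit 0) (.e (nat_lit 7122) (nat_lit 382) (.e (nat_lit 1016) (nat_lit 81) .nil)))))))) (.g (nat_lit 6) .nil .nil)))) (.nd (nat_lit 5) 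
(.lf (nat_lit 60187) (.g (nat_lit 2688) (.e (nat_lit 1535) (nat_lit 109) (.e (nat_lit 344117) (nat_lit 21) (.e (nat_lit 516166) (nat_lit 12) (.e (nat_lit 450587) (nat_lit 10) (.e (nat_lit 573477) (nat_lit 12) (.e (nat_lit 57353) (nat_lit 0) (.e (nat_lit 7122) (nat_lit 382) (.e (nat_lit 1016) (nat_lit 81) .nil)))))))) (.g (nat_lit 6) .nil .nil))) 
(.lf (nat_lit 60219) (.g (nat_lit 2062) (.e (nat_lit 1535) (nat_lit 109) (.e (nat_lit 344126) (nat_lit 25) (.e (nat_lit 548889) (nat_lit 9) (.e (nat_lit 65604) (nat_lit 9) .nil)))) .nil))))) (.nd (nat_lit 3) (.nd (nat_lit 4) (.nd (nat_lit 5) 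
(.lf (nat_lit 60167) (.g (nat_lit 3129) (.e (nat_lit 1535) (nat_lit 109) (.e (nat_lit 344117) (nat_lit 21) (.e (nat_lit 516165) (nat_lit 12) (.e (nat_lit 450587) (nat_lit 10) (.e (nat_lit 573475) (nat_lit 12) .nil))))) .nil)) 
(.lf (nat_lit 60199) (.g (nat_lit 2225) (.e (nat_lit 1535) (nat_lit 109) (.e (nat_lit 344117) (nat_lit 21) (.e (nat_lit 516166) (nat_lit 12) (.e (nat_lit 450588) (nat_lit 10) (.e (nat_lit 573473) (nat_lit 12) (.e (nat_lit 57348) (nat_lit 0) (.e (nat_lit 7125) (nat_lit 382) (.e (nat_lit 999) (nat_lit 81) .nil)))))))) (.g (nat_lit 4) .nil .nil)))) (.nd (nat_lit 5) 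
(.lf (nat_lit 60183) (.g (nat_lit 3966) (.e (nat_lit 1535) (nat_lit 109) (.e (nat_lit 344117) (nat_lit 21) (.e (nat_lit 516166) (nat_lit 12) (.e (nat_lit 450587) (nat_lit 10) (.e (nat_lit 573472) (nat_lit 12) (.e (nat_lit 57572) (nat_lit 54) (.e (nat_lit 770057) (nat_lit 5) .nil))))))) (.g (nat_lit 6) .nil .nil))) 
(.lf (nat_lit 60215) (.g (nat_lit 568) (.e (nat_lit 1535) (nat_lit 109) (.e (nat_lit 344117) (nat_lit 21) (.e (nat_lit 516175) (nat_lit 14) .nil))) .nil)))) (.nd (nat_lit 4) (.nd (nat_lit 5) 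
(.lf (nat_lit 60175) (.g (nat_lit 1942) (.e (nat_lit 1535) (nat_lit 109) (.e (nat_lit 344117) (nat_lit 21) (.e (nat_lit 516166) (nat_lit 12) (.e (nat_lit 450577) (nat_lit 4) .nil)))) .nil)) 
(.lf (nat_lit 60207) (.g (nat_lit 4129) (.e (nat_lit 1535) (nat_lit 109) (.e (nat_lit 344117) (nat_lit 21) (.e (nat_lit 516166) (nat_lit 12) (.e (nat_lit 450588) (nat_lit 10) (.e (nat_lit 573475) (nat_lit 12) (.e (nat_lit 57351) (nat_lit 0) (.e (nat_lit 7122) (nat_lit 382) (.e (nat_lit 1016) (nat_lit 81) .nil)))))))) (.g (nat_lit 8) .nil .nil)))) (.nd (nat_lit 5) 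
(.lf (nat_lit 60191) (.g (nat_lit 3252) (.e (nat_lit 1535) (nat_lit 109) (.e (nat_lit 344117) (nat_lit 21) (.e (nat_lit 516166) (nat_lit 12) (.e (nat_lit 450587) (nat_lit 10) (.e (nat_lit 573478) (nat_lit 12) (.e (nat_lit 57351) (nat_lit 0) (.e (nat_lit 7122) (nat_lit 382) (.e (nat_lit 1016) (nat_lit 81) .nil)))))))) (.g (nat_lit 8) .nil .nil))) 
(.lf (nat_lit 60223) (.g (nat_lit 2581) (.e (nat_lit 1535) (nat_lit 109) (.e (nat_lit 344129) (nat_lit 26) (.e (nat_lit 557096) (nat_lit 13) (.e (nat_lit 172133) (nat_lit 15) (.e (nat_lit 2175) (nat_lit 143) (.e (nat_lit 712749) (nat_lit 28) (.e (nat_lit 434289) (nat_lit 43) (.e (nat_lit 696350) (nat_lit 13) .nil)))))))) (.g (nat_lit 5) .nil .nil)))))))))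

noncomputable def tv827 : DT := (.nd (nat_lit 0) (.nd (nat_lit 1) (.nd (nat_lit 2) (.nd (nat_lit 3) (.nd (nat_lit 4) (.nd (nat_lit 5) 
(.lf (nat_lit 60224) (.g (nat_lit 1246) (.e (nat_lit 1535) (nat_lit 109) (.e (nat_lit 344129) (nat_lit 26) (.e (nat_lit 557097) (nat_lit 13) (.e (nat_lit 172062) (nat_lit 2) .nil)))) .nil)) 
(.lf (nat_lit 60256) (.g (nat_lit 2980) (.e (nat_lit 1536) (nat_lit 109) (.e (nat_lit 344117) (nat_lit 21) (.e (nat_lit 516151) (nat_lit 9) (.e (nat_lit 426286) (nat_lit 10) (.e (nat_lit 434248) (nat_lit 28) (.e (nat_lit 573475) (nat_lit 12) (.e (nat_lit 57571) (nat_lit 54) (.e (nat_lit 770054) (nat_lit 5) .nil)))))))) (.g (nat_lit 4) .nil .nil)))) (.nd (nat_lit 5) 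
(.lf (nat_lit 60240) (.g (nat_lit 1710) (.e (nat_lit 1535) (nat_lit 109) (.e (nat_lit 344129) (nat_lit 26) (.e (nat_lit 557104) (nat_lit 14) (.e (nat_lit 180236) (nat_lit 1) .nil)))) .nil)) 
(.lf (nat_lit 60272) (.g (nat_lit 2790) (.e (nat_lit 1536) (nat_lit 109) (.e (nat_lit 344126) (nat_lit 25) (.e (nat_lit 548873) (nat_lit 5) (.e (nat_lit 1595) (nat_lit 111) (.e (nat_lit 360467) (nat_lit 3) (.e (nat_lit 516098) (nat_lit 0) (.e (nat_lit 7545) (nat_lit 402) .nil))))))) (.g (nat_lit 6) .nil .nil))))) (.nd (nat_lit 4) (.nd (nat_lit 5) 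
(.lf (nat_lit 60232) (.g (nat_lit 1829) (.e (nat_lit 1535) (nat_lit 109) (.e (nat_lit 344129) (nat_lit 26) (.e (nat_lit 557097) (nat_lit 13) (.e (nat_lit 172133) (nat_lit 15) (.e (nat_lit 2175) (nat_lit 143) .nil))))) .nil)) 
(.lf (nat_lit 60264) (.g (nat_lit 2472) (.e (nat_lit 1536) (nat_lit 109) (.e (nat_lit 344117) (nat_lit 21) (.e (nat_lit 516166) (nat_lit 12) (.e (nat_lit 450587) (nat_lit 10) .nil)))) .nil))) (.nd (nat_lit 5) 
(.lf (nat_lit 60248) (.g (nat_lit 2003) (.e (nat_lit 1536) (nat_lit 109) (.e (nat_lit 344117) (nat_lit 21) (.e (nat_lit 516151) (nat_lit 9) (.e (nat_lit 426286) (nat_lit 10) .nil)))) .nil)) 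
(.lf (nat_lit 60280) (.g (nat_lit 3653) (.e (nat_lit 1536) (nat_lit 109) (.e (nat_lit 344126) (nat_lit 25) (.e (nat_lit 548874) (nat_lit 5) (.e (nat_lit 1598) (nat_lit 111) (.e (nat_lit 360466) (nat_lit 3) (.e (nat_lit 516100) (nat_lit 0) (.e (nat_lit 7540) (nat_lit 402) .nil))))))) (.g (nat_lit 0) .nil .nil)))))) (.nd (nat_lit 3) (.nd (nat_lit 4) (.nd (nat_lit 5) 
(.lf (nat_lit 60228) (.g (nat_lit 1427) (.e (nat_lit 1535) (nat_lit 109) (.e (nat_lit 344129) (nat_lit 26) (.e (nat_lit 557097) (nat_lit 13) (.e (nat_lit 172064) (nat_lit 2) .nil)))) .nil)) 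
(.lf (nat_lit 60260) (.g (nat_lit 3278) (.e (nat_lit 1536) (nat_lit 109) (.e (nat_lit 344117) (nat_lit 21) (.e (nat_lit 516165) (nat_lit 12) (.e (nat_lit 450579) (nat_lit 5) (.e (nat_lit 532484) (nat_lit 0) .nil))))) .nil))) (.nd (nat_lit 5) 
(.lf (nat_lit 60244) (.g (nat_lit 4054) (.e (nat_lit 1535) (nat_lit 109) (.e (nat_lit 344169) (nat_lit 40) (.e (nat_lit 671759) (nat_lit 3) (.e (nat_lit 57479) (nat_lit 28) (.e (nat_lit 557109) (nat_lit 15) (.e (nat_lit 188458) (nat_lit 25) (.e (nat_lit 245781) (nat_lit 9) .nil))))))) (.g (nat_lit 0) .nil .nil))) 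
(.lf (nat_lit 60276) (.g (nat_lit 1447) (.e (nat_lit 1536) (nat_lit 109) (.e (nat_lit 344126) (nat_lit 25) (.e (nat_lit 548873) (nat_lit 5) (.e (nat_lit 1598) (nat_lit 111) (.e (nat_lit 360466) (nat_lit 3) (.e (nat_lit 516104) (nat_lit 0) (.e (nat_lit 7936) (nat_lit 402) .nil))))))) (.g (nat_lit 5) .nil .nil))))) (.nd (nat_lit 4) (.nd (nat_lit 5) 
(.lf (nat_lit 60236) (.g (nat_lit 429) (.e (nat_lit 1535) (nat_lit 109) (.e (nat_lit 344129) (nat_lit 26) (.e (nat_lit 557103) (nat_lit 14) .nil))) .nil)) 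
(.lf (nat_lit 60268) (.g (nat_lit 2506) (.e (nat_lit 1536) (nat_lit 109) (.e (nat_lit 344126) (nat_lit 25) (.e (nat_lit 548872) (nat_lit 5) (.e (nat_lit 1598) (nat_lit 111) (.e (nat_lit 360466) (nat_lit 3) (.e (nat_lit 516098) (nat_lit 0) (.e (nat_lit 7545) (nat_lit 402) .nil))))))) (.g (nat_lit 6) .nil .nil)))) (.nd (nat_lit 5) 
(.lf (nat_lit 60252) (.g (nat_lit 2961) (.e (nat_lit 1536) (nat_lit 109) (.e (nat_lit 344117) (nat_lit 21) (.e (nat_lit 516151) (nat_lit 9) (.e (nat_lit 426286) (nat_lit 10) (.e (nat_lit 434245) (nat_lit 28) (.e (nat_lit 573474) (nat_lit 12) (.e (nat_lit 57571) (nat_lit 54) (.e (nat_lit 770054) (nat_lit 5) .nil)))))))) (.g (nat_lit 4) .nil .nil))) 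
(.lf (nat_lit 60284) (.g (nat_lit 4552) (.e (nat_lit 1536) (nat_lit 109) (.e (nat_lit 344126) (nat_lit 25) (.e (nat_lit 548889) (nat_lit 9) (.e (nat_lit 65610) (nat_lit 10) (.e (nat_lit 344117) (nat_lit 21) (.e (nat_lit 516098) (nat_lit 0) (.e (nat_lit 7545) (nat_lit 402) .nil))))))) (.g (nat_lit 6) .nil .nil))))))) (.nd (nat_lit 2) (.nd (nat_lit 3) (.nd (nat_lit 4) (.nd (nat_lit 5) 
(.lf (nat_lit 60226) (.g (nat_lit 1269) (.e (nat_lit 1535) (nat_lit 109) (.e (nat_lit 344129) (nat_lit 26) (.e (nat_lit 557097) (nat_lit 13) (.e (nat_lit 172063) (nat_lit 2) .nil)))) .nil)) 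
(.lf (nat_lit 60258) (.g (nat_lit 2482) (.e (nat_lit 1536) (nat_lit 109) (.e (nat_lit 344117) (nat_lit 21) (.e (nat_lit 516165) (nat_lit 12) (.e (nat_lit 458496) (nat_lit 3) .nil)))) .nil))) (.nd (nat_lit 5) 
(.lf (nat_lit 60242) (.g (nat_lit 1639) (.e (nat_lit 1535) (nat_lit 109) (.e (nat_lit 344129) (nat_lit 26) (.e (nat_lit 557104) (nat_lit 14) (.e (nat_lit 180237) (nat_lit 1) .nil)))) .nil)) 
(.lf (nat_lit 60274) (.g (nat_lit 2950) (.e (nat_lit 1536) (nat_lit 109) (.e (nat_lit 344126) (nat_lit 25) (.e (nat_lit 548873) (nat_lit 5) (.e (nat_lit 1598) (nat_lit 111) (.e (nat_lit 360466) (nat_lit 3) (.e (nat_lit 516100) (nat_lit 0) (.e (nat_lit 7540) (nat_lit 402) .nil))))))) (.g (nat_lit 0) .nil .nil))))) (.nd (nat_lit 4) (.nd (nat_lit 5) 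
(.lf (nat_lit 60234) (.g (nat_lit 2402) (.e (nat_lit 1535) (nat_lit 109) (.e (nat_lit 344129) (nat_lit 26) (.e (nat_lit 557097) (nat_lit 13) (.e (nat_lit 172133) (nat_lit 15) (.e (nat_lit 2175) (nat_lit 143) (.e (nat_lit 712749) (nat_lit 28) (.e (nat_lit 434289) (nat_lit 43) (.e (nat_lit 696349) (nat_lit 13) .nil)))))))) (.g (nat_lit 5) .nil .nil))) 
(.lf (nat_lit 60266) (.g (nat_lit 3071) (.e (nat_lit 1536) (nat_lit 109) (.e (nat_lit 344117) (nat_lit 21) (.e (nat_lit 516166) (nat_lit 12) (.e (nat_lit 450588) (nat_lit 10) (.e (nat_lit 573475) (nat_lit 12) .nil))))) .nil))) (.nd (nat_lit 5) 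
(.lf (nat_lit 60250) (.g (nat_lit 2811) (.e (nat_lit 1536) (nat_lit 109) (.e (nat_lit 344117) (nat_lit 21) (.e (nat_lit 516151) (nat_lit 9) (.e (nat_lit 426286) (nat_lit 10) (.e (nat_lit 434245) (nat_lit 28) (.e (nat_lit 573474) (nat_lit 12) (.e (nat_lit 57354) (nat_lit 0) (.e (nat_lit 7147) (nat_lit 382) (.e (nat_lit 1095) (nat_lit 81) .nil))))))))) (.g (nat_lit 4) .nil .nil))) 
(.lf (nat_lit 60282) (.g (nat_lit 2190) (.e (nat_lit 1536) (nat_lit 109) (.e (nat_lit 344126) (nat_lit 25) (.e (nat_lit 548874) (nat_lit 5) (.e (nat_lit 1598) (nat_lit 111) (.e (nat_lit 360466) (nat_lit 3) (.e (nat_lit 516104) (nat_lit 0) (.e (nat_lit 7936) (nat_lit 402) .nil))))))) (.g (nat_lit 5) .nil .nil)))))) (.nd (nat_lit 3) (.nd (nat_lit 4) (.nd (nat_lit 5) 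
(.lf (nat_lit 60230) (.g (nat_lit 1568) (.e (nat_lit 1535) (nat_lit 109) (.e (nat_lit 344129) (nat_lit 26) (.e (nat_lit 557097) (nat_lit 13) (.e (nat_lit 172065) (nat_lit 3) (.e (nat_lit 212736) (nat_lit 10) .nil))))) .nil)) 
(.lf (nat_lit 60262) (.g (nat_lit 2224) (.e (nat_lit 1536) (nat_lit 109) (.e (nat_lit 344117) (nat_lit 21) (.e (nat_lit 516165) (nat_lit 12) (.e (nat_lit 450586) (nat_lit 10) .nil)))) .nil))) (.nd (nat_lit 5) 
(.lf (nat_lit 60246) (.g (nat_lit 4778) (.e (nat_lit 1536) (nat_lit 109) (.e (nat_lit 344117) (nat_lit 21) (.e (nat_lit 516151) (nat_lit 9) (.e (nat_lit 426211) (nat_lit 9) .nil)))) .nil)) 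
(.lf (nat_lit 60278) (.g (nat_lit 3032) (.e (nat_lit 1536) (nat_lit 109) (.e (nat_lit 344126) (nat_lit 25) (.e (nat_lit 548874) (nat_lit 5) (.e (nat_lit 1589) (nat_lit 111) (.e (nat_lit 360467) (nat_lit 3) (.e (nat_lit 516098) (nat_lit 0) (.e (nat_lit 7545) (nat_lit 402) .nil))))))) (.g (nat_lit 5) .nil .nil))))) (.nd (nat_lit 4) (.nd (nat_lit 5) 
(.lf (nat_lit 60238) (.g (nat_lit 1537) (.e (nat_lit 1535) (nat_lit 109) (.e (nat_lit 344129) (nat_lit 26) (.e (nat_lit 557103) (nat_lit 14) (.e (nat_lit 180236) (nat_lit 1) .nil)))) .nil)) 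
(.lf (nat_lit 60270) (.g (nat_lit 1453) (.e (nat_lit 1536) (nat_lit 109) (.e (nat_lit 344126) (nat_lit 25) (.e (nat_lit 548872) (nat_lit 5) (.e (nat_lit 1598) (nat_lit 111) (.e (nat_lit 360466) (nat_lit 3) (.e (nat_lit 516104) (nat_lit 0) (.e (nat_lit 7936) (nat_lit 402) .nil))))))) (.g (nat_lit 4) .nil .nil)))) (.nd (nat_lit 5) 
(.lf (nat_lit 60254) (.g (nat_lit 2783) (.e (nat_lit 1536) (nat_lit 109) (.e (nat_lit 344117) (nat_lit 21) (.e (nat_lit 516151) (nat_lit 9) (.e (nat_lit 426286) (nat_lit 10) (.e (nat_lit 434248) (nat_lit 28) .nil))))) .nil)) 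
(.lf (nat_lit 60286) (.g (nat_lit 2449) (.e (nat_lit 1536) (nat_lit 109) (.e (nat_lit 344126) (nat_lit 25) (.e (nat_lit 548889) (nat_lit 9) (.e (nat_lit 65619) (nat_lit 10) (.e (nat_lit 344117) (nat_lit 21) .nil))))) .nil))))))) (.nd (nat_lit 1) (.nd (nat_lit 2) (.nd (nat_lit 3) (.nd (nat_lit 4) (.nd (nat_lit 5) 
(.lf (nat_lit 60225) (.g (nat_lit 1451) (.e (nat_lit 1535) (nat_lit 109) (.e (nat_lit 344129) (nat_lit 26) (.e (nat_lit 557097) (nat_lit 13) (.e (nat_lit 172062) (nat_lit 2) (.e (nat_lit 196653) (nat_lit 11) .nil))))) .nil)) 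
(.lf (nat_lit 60257) (.g (nat_lit 3100) (.e (nat_lit 1536) (nat_lit 109) (.e (nat_lit 344117) (nat_lit 21) (.e (nat_lit 516163) (nat_lit 11) (.e (nat_lit 442424) (nat_lit 22) (.e (nat_lit 196661) (nat_lit 12) .nil))))) .nil))) (.nd (nat_lit 5) 
(.lf (nat_lit 60241) (.g (nat_lit 1908) (.e (nat_lit 1535) (nat_lit 109) (.e (nat_lit 344129) (nat_lit 26) (.e (nat_lit 557104) (nat_lit 14) (.e (nat_lit 180236) (nat_lit 1) (.e (nat_lit 500048) (nat_lit 16) .nil))))) .nil)) 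
(.lf (nat_lit 60273) (.g (nat_lit 2469) (.e (nat_lit 1536) (nat_lit 109) (.e (nat_lit 344126) (nat_lit 25) (.e (nat_lit 548873) (nat_lit 5) (.e (nat_lit 1598) (nat_lit 111) (.e (nat_lit 360466) (nat_lit 3) (.e (nat_lit 516098) (nat_lit 0) (.e (nat_lit 7545) (nat_lit 402) .nil))))))) (.g (nat_lit 6) .nil .nil))))) (.nd (nat_lit 4) (.nd (nat_lit 5) 
(.lf (nat_lit 60233) (.g (nat_lit 2884) (.e (nat_lit 1535) (nat_lit 109) (.e (nat_lit 344129) (nat_lit 26) (.e (nat_lit 557097) (nat_lit 13) (.e (nat_lit 172133) (nat_lit 15) (.e (nat_lit 2175) (nat_lit 143) (.e (nat_lit 712747) (nat_lit 28) (.e (nat_lit 434289) (nat_lit 43) (.e (nat_lit 696350) (nat_lit 13) .nil)))))))) (.g (nat_lit 6) .nil .nil))) 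
(.lf (nat_lit 60265) (.g (nat_lit 2010) (.e (nat_lit 1536) (nat_lit 109) (.e (nat_lit 344117) (nat_lit 21) (.e (nat_lit 516166) (nat_lit 12) (.e (nat_lit 450588) (nat_lit 10) .nil)))) .nil))) (.nd (nat_lit 5) 
(.lf (nat_lit 60249) (.g (nat_lit 2710) (.e (nat_lit 1536) (nat_lit 109) (.e (nat_lit 344117) (nat_lit 21) (.e (nat_lit 516151) (nat_lit 9) (.e (nat_lit 426286) (nat_lit 10) (.e (nat_lit 434245) (nat_lit 28) .nil))))) .nil)) 
(.lf (nat_lit 60281) (.g (nat_lit 2277) (.e (nat_lit 1536) (nat_lit 109) (.e (nat_lit 344126) (nat_lit 25) (.e (nat_lit 548874) (nat_lit 5) (.e (nat_lit 1598) (nat_lit 111) (.e (nat_lit 360466) (nat_lit 3) (.e (nat_lit 516100) (nat_lit 0) (.e (nat_lit 7936) (nat_lit 402) .nil))))))) (.g (nat_lit 5) .nil .nil)))))) (.nd (nat_lit 3) (.nd (nat_lit 4) (.nd (nat_lit 5) 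
(.lf (nat_lit 60229) (.g (nat_lit 2059) (.e (nat_lit 1535) (nat_lit 109) (.e (nat_lit 344129) (nat_lit 26) (.e (nat_lit 557097) (nat_lit 13) (.e (nat_lit 172064) (nat_lit 2) (.e (nat_lit 196653) (nat_lit 11) .nil))))) .nil)) 
(.lf (nat_lit 60261) (.g (nat_lit 3798) (.e (nat_lit 1536) (nat_lit 109) (.e (nat_lit 344117) (nat_lit 21) (.e (nat_lit 516165) (nat_lit 12) (.e (nat_lit 450579) (nat_lit 5) (.e (nat_lit 532484) (nat_lit 0) (.e (nat_lit 7936) (nat_lit 129) (.e (nat_lit 598027) (nat_lit 5) .nil))))))) (.g (nat_lit 5) .nil .nil)))) (.nd (nat_lit 5) 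
(.lf (nat_lit 60245) (.g (nat_lit 1574) (.e (nat_lit 1536) (nat_lit 109) (.e (nat_lit 344090) (nat_lit 18) (.e (nat_lit 7236) (nat_lit 382) (.e (nat_lit 1211) (nat_lit 89) (.e (nat_lit 73755) (nat_lit 8) .nil))))) .nil)) 
(.lf (nat_lit 60277) (.g (nat_lit 1411) (.e (nat_lit 1536) (nat_lit 109) (.e (nat_lit 344126) (nat_lit 25) (.e (nat_lit 548873) (nat_lit 5) (.e (nat_lit 1598) (nat_lit 111) (.e (nat_lit 360466) (nat_lit 3) (.e (nat_lit 516105) (nat_lit 0) (.e (nat_lit 7936) (nat_lit 402) .nil))))))) (.g (nat_lit 5) .nil .nil))))) (.nd (nat_lit 4) (.nd (nat_lit 5) 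
(.lf (nat_lit 60237) (.g (nat_lit 1604) (.e (nat_lit 1535) (nat_lit 109) (.e (nat_lit 344129) (nat_lit 26) (.e (nat_lit 557103) (nat_lit 14) (.e (nat_lit 180235) (nat_lit 1) .nil)))) .nil)) 
(.lf (nat_lit 60269) (.g (nat_lit 1609) (.e (nat_lit 1536) (nat_lit 109) (.e (nat_lit 344126) (nat_lit 25) (.e (nat_lit 548872) (nat_lit 5) (.e (nat_lit 1598) (nat_lit 111) (.e (nat_lit 360466) (nat_lit 3) (.e (nat_lit 516100) (nat_lit 0) (.e (nat_lit 7936) (nat_lit 402) .nil))))))) (.g (nat_lit 4) .nil .nil)))) (.nd (nat_lit 5) 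
(.lf (nat_lit 60253) (.g (nat_lit 2815) (.e (nat_lit 1536) (nat_lit 109) (.e (nat_lit 344117) (nat_lit 21) (.e (nat_lit 516151) (nat_lit 9) (.e (nat_lit 426286) (nat_lit 10) (.e (nat_lit 434247) (nat_lit 28) .nil))))) .nil)) 
(.lf (nat_lit 60285) (.g (nat_lit 3045) (.e (nat_lit 1536) (nat_lit 109) (.e (nat_lit 344126) (nat_lit 25) (.e (nat_lit 548889) (nat_lit 9) (.e (nat_lit 65610) (nat_lit 10) (.e (nat_lit 344117) (nat_lit 21) (.e (nat_lit 516099) (nat_lit 0) (.e (nat_lit 7936) (nat_lit 402) .nil))))))) (.g (nat_lit 4) .nil .nil))))))) (.nd (nat_lit 2) (.nd (nat_lit 3) (.nd (nat_lit 4) (.nd (nat_lit 5) 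
(.lf (nat_lit 60227) (.g (nat_lit 3140) (.e (nat_lit 1535) (nat_lit 109) (.e (nat_lit 344129) (nat_lit 26) (.e (nat_lit 557097) (nat_lit 13) (.e (nat_lit 172063) (nat_lit 2) (.e (nat_lit 196656) (nat_lit 11) (.e (nat_lit 16397) (nat_lit 0) (.e (nat_lit 3289) (nat_lit 201) (.e (nat_lit 565252) (nat_lit 0) .nil)))))))) (.g (nat_lit 5) .nil .nil))) 
(.lf (nat_lit 60259) (.g (nat_lit 2361) (.e (nat_lit 1536) (nat_lit 109) (.e (nat_lit 344117) (nat_lit 21) (.e (nat_lit 516165) (nat_lit 12) (.e (nat_lit 450579) (nat_lit 5) .nil)))) .nil))) (.nd (nat_lit 5) 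
(.lf (nat_lit 60243) (.g (nat_lit 1665) (.e (nat_lit 1535) (nat_lit 109) (.e (nat_lit 344169) (nat_lit 40) (.e (nat_lit 671759) (nat_lit 3) (.e (nat_lit 57479) (nat_lit 28) (.e (nat_lit 557109) (nat_lit 15) .nil))))) .nil)) 
(.lf (nat_lit 60275) (.g (nat_lit 1567) (.e (nat_lit 1536) (nat_lit 109) (.e (nat_lit 344126) (nat_lit 25) (.e (nat_lit 548873) (nat_lit 5) (.e (nat_lit 1598) (nat_lit 111) (.e (nat_lit 360466) (nat_lit 3) (.e (nat_lit 516100) (nat_lit 0) (.e (nat_lit 7936) (nat_lit 402) .nil))))))) (.g (nat_lit 5) .nil .nil))))) (.nd (nat_lit 4) (.nd (nat_lit 5) 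
(.lf (nat_lit 60235) (.g (nat_lit 4043) (.e (nat_lit 1535) (nat_lit 109) (.e (nat_lit 344129) (nat_lit 26) (.e (nat_lit 557097) (nat_lit 13) (.e (nat_lit 172133) (nat_lit 15) (.e (nat_lit 2175) (nat_lit 143) (.e (nat_lit 712749) (nat_lit 28) (.e (nat_lit 434289) (nat_lit 43) (.e (nat_lit 696350) (nat_lit 13) .nil)))))))) (.g (nat_lit 7) .nil .nil))) 
(.lf (nat_lit 60267) (.g (nat_lit 691) (.e (nat_lit 1536) (nat_lit 109) (.e (nat_lit 344117) (nat_lit 21) (.e (nat_lit 516185) (nat_lit 16) .nil))) .nil))) (.nd (nat_lit 5) 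
(.lf (nat_lit 60251) (.g (nat_lit 2965) (.e (nat_lit 1536) (nat_lit 109) (.e (nat_lit 344117) (nat_lit 21) (.e (nat_lit 516151) (nat_lit 9) (.e (nat_lit 426286) (nat_lit 10) (.e (nat_lit 434245) (nat_lit 28) (.e (nat_lit 573474) (nat_lit 12) (.e (nat_lit 57570) (nat_lit 54) (.e (nat_lit 770054) (nat_lit 5) .nil)))))))) (.g (nat_lit 4) .nil .nil))) 
(.lf (nat_lit 60283) (.g (nat_lit 2136) (.e (nat_lit 1536) (nat_lit 109) (.e (nat_lit 344126) (nat_lit 25) (.e (nat_lit 548874) (nat_lit 5) (.e (nat_lit 1598) (nat_lit 111) (.e (nat_lit 360466) (nat_lit 3) (.e (nat_lit 516105) (nat_lit 0) (.e (nat_lit 7936) (nat_lit 402) .nil))))))) (.g (nat_lit 5) .nil .nil)))))) (.nd (nat_lit 3) (.nd (nat_lit 4) (.nd (nat_lit 5) 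
(.lf (nat_lit 60231) (.g (nat_lit 2287) (.e (nat_lit 1535) (nat_lit 109) (.e (nat_lit 344129) (nat_lit 26) (.e (nat_lit 557097) (nat_lit 13) (.e (nat_lit 172067) (nat_lit 3) (.e (nat_lit 212736) (nat_lit 10) .nil))))) .nil)) 
(.lf (nat_lit 60263) (.g (nat_lit 2367) (.e (nat_lit 1536) (nat_lit 109) (.e (nat_lit 344117) (nat_lit 21) (.e (nat_lit 516166) (nat_lit 12) (.e (nat_lit 458496) (nat_lit 3) .nil)))) .nil))) (.nd (nat_lit 5) 
(.lf (nat_lit 60247) (.g (nat_lit 5645) (.e (nat_lit 1536) (nat_lit 109) (.e (nat_lit 344117) (nat_lit 21) (.e (nat_lit 516151) (nat_lit 9) (.e (nat_lit 426211) (nat_lit 9) (.e (nat_lit 426125) (nat_lit 2) .nil))))) .nil)) 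
(.lf (nat_lit 60279) (.g (nat_lit 1609) (.e (nat_lit 1536) (nat_lit 109) (.e (nat_lit 344126) (nat_lit 25) (.e (nat_lit 548874) (nat_lit 5) (.e (nat_lit 1598) (nat_lit 111) (.e (nat_lit 360466) (nat_lit 3) .nil))))) .nil)))) (.nd (nat_lit 4) (.nd (nat_lit 5) 
(.lf (nat_lit 60239) (.g (nat_lit 2253) (.e (nat_lit 1535) (nat_lit 109) (.e (nat_lit 344129) (nat_lit 26) (.e (nat_lit 557103) (nat_lit 14) (.e (nat_lit 180244) (nat_lit 5) (.e (nat_lit 532579) (nat_lit 26) .nil))))) .nil)) 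
(.lf (nat_lit 60271) (.g (nat_lit 2317) (.e (nat_lit 1536) (nat_lit 109) (.e (nat_lit 344126) (nat_lit 25) (.e (nat_lit 548873) (nat_lit 5) (.e (nat_lit 1589) (nat_lit 111) (.e (nat_lit 360467) (nat_lit 3) (.e (nat_lit 516098) (nat_lit 0) (.e (nat_lit 7545) (nat_lit 402) .nil))))))) (.g (nat_lit 5) .nil .nil)))) (.nd (nat_lit 5) 
(.lf (nat_lit 60255) (.g (nat_lit 3019) (.e (nat_lit 1536) (nat_lit 109) (.e (nat_lit 344117) (nat_lit 21) (.e (nat_lit 516151) (nat_lit 9) (.e (nat_lit 426286) (nat_lit 10) (.e (nat_lit 434248) (nat_lit 28) (.e (nat_lit 573475) (nat_lit 12) (.e (nat_lit 57570) (nat_lit 54) (.e (nat_lit 770054) (nat_lit 5) .nil)))))))) (.g (nat_lit 4) .nil .nil))) 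
(.lf (nat_lit 60287) (.g (nat_lit 3621) (.e (nat_lit 1536) (nat_lit 109) (.e (nat_lit 344126) (nat_lit 25) (.e (nat_lit 548889) (nat_lit 9) (.e (nat_lit 65619) (nat_lit 10) (.e (nat_lit 344117) (nat_lit 21) (.e (nat_lit 516098) (nat_lit 0) (.e (nat_lit 7545) (nat_lit 402) .nil))))))) (.g (nat_lit 5) .nil .nil)))))))))

noncomputable def tv828 : DT := (.nd (nat_lit 0) (.nd (nat_lit 1) (.nd (nat_lit 2) (.nd (nat_lit 3) (.nd (nat_lit 4) (.nd (nat_lit 5) (.nd (nat_lit 6) 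
(.lf (nat_lit 60288) (.g (nat_lit 650) (.e (nat_lit 1536) (nat_lit 109) (.e (nat_lit 344129) (nat_lit 26) (.e (nat_lit 557066) (nat_lit 9) .nil))) .nil)) 
(.lf (nat_lit 60352) (.g (nat_lit 2033) (.e (nat_lit 1540) (nat_lit 109) (.e (nat_lit 344133) (nat_lit 26) (.e (nat_lit 557105) (nat_lit 14) (.e (nat_lit 180227) (nat_lit 0) .nil)))) .nil))) (.nd (nat_lit 6) 
(.lf (nat_lit 60320) (.g (nat_lit 4957) (.e (nat_lit 1538) (nat_lit 109) (.e (nat_lit 344117) (nat_lit 21) (.e (nat_lit 516151) (nat_lit 9) (.e (nat_lit 426211) (nat_lit 9) .nil)))) .nil)) 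
(.lf (nat_lit 60384) (.g (nat_lit 1235) (.e (nat_lit 1543) (nat_lit 109) (.e (nat_lit 344132) (nat_lit 26) (.e (nat_lit 557101) (nat_lit 13) (.e (nat_lit 172070) (nat_lit 4) .nil)))) .nil)))) (.nd (nat_lit 5) (.nd (nat_lit 6) 
(.lf (nat_lit 60304) (.g (nat_lit 4959) (.e (nat_lit 1537) (nat_lit 109) (.e (nat_lit 344117) (nat_lit 21) (.e (nat_lit 516151) (nat_lit 9) (.e (nat_lit 426211) (nat_lit 9) .nil)))) .nil)) 
(.lf (nat_lit 60368) (.g (nat_lit 2175) (.e (nat_lit 1543) (nat_lit 109) (.e (nat_lit 344129) (nat_lit 26) (.e (nat_lit 557097) (nat_lit 13) (.e (nat_lit 172064) (nat_lit 2) .nil)))) .nil))) (.nd (nat_lit 6) 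
(.lf (nat_lit 60336) (.g (nat_lit 2514) (.e (nat_lit 1538) (nat_lit 109) (.e (nat_lit 344117) (nat_lit 21) (.e (nat_lit 516166) (nat_lit 12) (.e (nat_lit 450587) (nat_lit 10) .nil)))) .nil)) 
(.lf (nat_lit 60400) (.g (nat_lit 1784) (.e (nat_lit 1543) (nat_lit 109) (.e (nat_lit 344133) (nat_lit 26) (.e (nat_lit 557105) (nat_lit 14) (.e (nat_lit 188160) (nat_lit 3) .nil)))) .nil))))) (.nd (nat_lit 4) (.nd (nat_lit 5) (.nd (nat_lit 6) 
(.lf (nat_lit 60296) (.g (nat_lit 1687) (.e (nat_lit 1536) (nat_lit 109) (.e (nat_lit 344133) (nat_lit 26) (.e (nat_lit 557098) (nat_lit 13) (.e (nat_lit 172067) (nat_lit 3) .nil)))) .nil)) 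
(.lf (nat_lit 60360) (.g (nat_lit 3345) (.e (nat_lit 1543) (nat_lit 109) (.e (nat_lit 344117) (nat_lit 21) (.e (nat_lit 516151) (nat_lit 9) (.e (nat_lit 426286) (nat_lit 10) (.e (nat_lit 434245) (nat_lit 28) .nil))))) .nil))) (.nd (nat_lit 6) 
(.lf (nat_lit 60328) (.g (nat_lit 3525) (.e (nat_lit 1538) (nat_lit 109) (.e (nat_lit 344117) (nat_lit 21) (.e (nat_lit 516165) (nat_lit 12) (.e (nat_lit 450586) (nat_lit 10) (.e (nat_lit 573474) (nat_lit 12) .nil))))) .nil)) 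
(.lf (nat_lit 60392) (.g (nat_lit 2286) (.e (nat_lit 1543) (nat_lit 109) (.e (nat_lit 344133) (nat_lit 26) (.e (nat_lit 557098) (nat_lit 13) (.e (nat_lit 172133) (nat_lit 15) (.e (nat_lit 2175) (nat_lit 143) .nil))))) .nil)))) (.nd (nat_lit 5) (.nd (nat_lit 6) 
(.lf (nat_lit 60312) (.g (nat_lit 3481) (.e (nat_lit 1537) (nat_lit 109) (.e (nat_lit 344117) (nat_lit 21) (.e (nat_lit 516166) (nat_lit 12) (.e (nat_lit 450588) (nat_lit 10) (.e (nat_lit 573475) (nat_lit 12) .nil))))) .nil)) 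
(.lf (nat_lit 60376) (.g (nat_lit 1510) (.e (nat_lit 1543) (nat_lit 109) (.e (nat_lit 344132) (nat_lit 26) (.e (nat_lit 557100) (nat_lit 13) (.e (nat_lit 172064) (nat_lit 2) .nil)))) .nil))) (.nd (nat_lit 6) 
(.lf (nat_lit 60344) (.g (nat_lit 672) (.e (nat_lit 1538) (nat_lit 109) (.e (nat_lit 344126) (nat_lit 25) (.e (nat_lit 548873) (nat_lit 5) (.e (nat_lit 1598) (nat_lit 111) .nil)))) .nil)) 
(.lf (nat_lit 60408) (.g (nat_lit 738) (.e (nat_lit 1544) (nat_lit 109) (.e (nat_lit 344115) (nat_lit 20) (.e (nat_lit 507906) (nat_lit 0) (.e (nat_lit 5412) (nat_lit 303) (.e (nat_lit 73746) (nat_lit 3) (.e (nat_lit 516104) (nat_lit 0) (.e (nat_lit 7936) (nat_lit 402) .nil))))))) (.g (nat_lit 4) .nil .nil))))))) (.nd (nat_lit 3) (.nd (nat_lit 4) (.nd (nat_lit 5) (.nd (nat_lit 6) 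
(.lf (nat_lit 60292) (.g (nat_lit 1946) (.e (nat_lit 1536) (nat_lit 109) (.e (nat_lit 344130) (nat_lit 26) (.e (nat_lit 557097) (nat_lit 13) (.e (nat_lit 172133) (nat_lit 15) (.e (nat_lit 2175) (nat_lit 143) (.e (nat_lit 712749) (nat_lit 28) (.e (nat_lit 434289) (nat_lit 43) (.e (nat_lit 696349) (nat_lit 13) .nil)))))))) (.g (nat_lit 4) .nil .nil))) 
(.lf (nat_lit 60356) (.g (nat_lit 594) (.e (nat_lit 1543) (nat_lit 109) (.e (nat_lit 344115) (nat_lit 20) (.e (nat_lit 507908) (nat_lit 0) (.e (nat_lit 5412) (nat_lit 303) (.e (nat_lit 73746) (nat_lit 3) (.e (nat_lit 516104) (nat_lit 0) (.e (nat_lit 7936) (nat_lit 402) .nil))))))) (.g (nat_lit 4) .nil .nil)))) (.nd (nat_lit 6) 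
(.lf (nat_lit 60324) (.g (nat_lit 3386) (.e (nat_lit 1538) (nat_lit 109) (.e (nat_lit 344117) (nat_lit 21) (.e (nat_lit 516151) (nat_lit 9) (.e (nat_lit 426286) (nat_lit 10) (.e (nat_lit 434248) (nat_lit 28) .nil))))) .nil)) 
(.lf (nat_lit 60388) (.g (nat_lit 522) (.e (nat_lit 1543) (nat_lit 109) (.e (nat_lit 344133) (nat_lit 26) (.e (nat_lit 557098) (nat_lit 13) .nil))) .nil)))) (.nd (nat_lit 5) (.nd (nat_lit 6) 
(.lf (nat_lit 60308) (.g (nat_lit 2564) (.e (nat_lit 1537) (nat_lit 109) (.e (nat_lit 344117) (nat_lit 21) (.e (nat_lit 516165) (nat_lit 12) (.e (nat_lit 450579) (nat_lit 5) .nil)))) .nil)) 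
(.lf (nat_lit 60372) (.g (nat_lit 1416) (.e (nat_lit 1543) (nat_lit 109) (.e (nat_lit 344132) (nat_lit 26) (.e (nat_lit 557098) (nat_lit 13) (.e (nat_lit 172064) (nat_lit 2) .nil)))) .nil))) (.nd (nat_lit 6) 
(.lf (nat_lit 60340) (.g (nat_lit 2271) (.e (nat_lit 1538) (nat_lit 109) (.e (nat_lit 344117) (nat_lit 21) (.e (nat_lit 516166) (nat_lit 12) (.e (nat_lit 450588) (nat_lit 10) .nil)))) .nil)) 
(.lf (nat_lit 60404) (.g (nat_lit 3243) (.e (nat_lit 1543) (nat_lit 109) (.e (nat_lit 344133) (nat_lit 26) (.e (nat_lit 557105) (nat_lit 14) (.e (nat_lit 180252) (nat_lit 10) (.e (nat_lit 573473) (nat_lit 12) .nil))))) .nil))))) (.nd (nat_lit 4) (.nd (nat_lit 5) (.nd (nat_lit 6) 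
(.lf (nat_lit 60300) (.g (nat_lit 3124) (.e (nat_lit 1536) (nat_lit 109) (.e (nat_lit 344133) (nat_lit 26) (.e (nat_lit 557105) (nat_lit 14) (.e (nat_lit 180252) (nat_lit 10) (.e (nat_lit 573474) (nat_lit 12) .nil))))) .nil)) 
(.lf (nat_lit 60364) (.g (nat_lit 2627) (.e (nat_lit 1543) (nat_lit 109) (.e (nat_lit 344117) (nat_lit 21) (.e (nat_lit 516166) (nat_lit 12) (.e (nat_lit 450587) (nat_lit 10) .nil)))) .nil))) (.nd (nat_lit 6) 
(.lf (nat_lit 60332) (.g (nat_lit 2606) (.e (nat_lit 1538) (nat_lit 109) (.e (nat_lit 344117) (nat_lit 21) (.e (nat_lit 516165) (nat_lit 12) (.e (nat_lit 450588) (nat_lit 10) .nil)))) .nil)) 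
(.lf (nat_lit 60396) (.g (nat_lit 1576) (.e (nat_lit 1543) (nat_lit 109) (.e (nat_lit 344133) (nat_lit 26) (.e (nat_lit 557098) (nat_lit 13) (.e (nat_lit 172140) (nat_lit 22) .nil)))) .nil)))) (.nd (nat_lit 5) (.nd (nat_lit 6) 
(.lf (nat_lit 60316) (.g (nat_lit 981) (.e (nat_lit 1538) (nat_lit 109) (.e (nat_lit 344115) (nat_lit 20) (.e (nat_lit 507908) (nat_lit 0) (.e (nat_lit 5412) (nat_lit 303) (.e (nat_lit 73746) (nat_lit 3) (.e (nat_lit 516100) (nat_lit 0) (.e (nat_lit 7936) (nat_lit 402) .nil))))))) (.g (nat_lit 5) .nil .nil))) 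
(.lf (nat_lit 60380) (.g (nat_lit 502) (.e (nat_lit 1543) (nat_lit 109) (.e (nat_lit 344132) (nat_lit 26) (.e (nat_lit 557101) (nat_lit 13) .nil))) .nil))) (.nd (nat_lit 6) 
(.lf (nat_lit 60348) (.g (nat_lit 3762) (.e (nat_lit 1538) (nat_lit 109) (.e (nat_lit 344169) (nat_lit 40) (.e (nat_lit 671759) (nat_lit 3) (.e (nat_lit 57479) (nat_lit 28) (.e (nat_lit 557109) (nat_lit 15) (.e (nat_lit 188458) (nat_lit 25) (.e (nat_lit 245781) (nat_lit 9) .nil))))))) (.g (nat_lit 7) .nil .nil))) 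
(.lf (nat_lit 60412) (.g (nat_lit 3378) (.e (nat_lit 1544) (nat_lit 109) (.e (nat_lit 344117) (nat_lit 21) (.e (nat_lit 516151) (nat_lit 9) (.e (nat_lit 426286) (nat_lit 10) (.e (nat_lit 434245) (nat_lit 28) (.e (nat_lit 573473) (nat_lit 12) (.e (nat_lit 57569) (nat_lit 53) (.e (nat_lit 761866) (nat_lit 5) .nil)))))))) (.g (nat_lit 5) .nil .nil)))))))) 
(.nd (nat_lit 2) (.nd (nat_lit 3) (.nd (nat_lit 4) (.nd (nat_lit 5) (.nd (nat_lit 6) 
(.lf (nat_lit 60290) (.g (nat_lit 2154) (.e (nat_lit 1536) (nat_lit 109) (.e (nat_lit 344129) (nat_lit 26) (.e (nat_lit 557097) (nat_lit 13) (.e (nat_lit 172067) (nat_lit 3) .nil)))) .nil)) 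
(.lf (nat_lit 60354) (.g (nat_lit 1392) (.e (nat_lit 1543) (nat_lit 109) (.e (nat_lit 344076) (nat_lit 13) (.e (nat_lit 1140) (nat_lit 84) (.e (nat_lit 32787) (nat_lit 9) (.e (nat_lit 65583) (nat_lit 7) (.e (nat_lit 319519) (nat_lit 12) (.e (nat_lit 32774) (nat_lit 5) .nil))))))) (.g (nat_lit 7) .nil .nil)))) (.nd (nat_lit 6) 
(.lf (nat_lit 60322) (.g (nat_lit 3314) (.e (nat_lit 1538) (nat_lit 109) (.e (nat_lit 344117) (nat_lit 21) (.e (nat_lit 516151) (nat_lit 9) (.e (nat_lit 426286) (nat_lit 10) (.e (nat_lit 434245) (nat_lit 28) .nil))))) .nil)) 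
(.lf (nat_lit 60386) (.g (nat_lit 1762) (.e (nat_lit 1543) (nat_lit 109) (.e (nat_lit 344133) (nat_lit 26) (.e (nat_lit 557096) (nat_lit 13) (.e (nat_lit 172133) (nat_lit 15) (.e (nat_lit 2059) (nat_lit 142) .nil))))) .nil)))) (.nd (nat_lit 5) (.nd (nat_lit 6) 
(.lf (nat_lit 60306) (.g (nat_lit 3345) (.e (nat_lit 1537) (nat_lit 109) (.e (nat_lit 344117) (nat_lit 21) (.e (nat_lit 516151) (nat_lit 9) (.e (nat_lit 426286) (nat_lit 10) (.e (nat_lit 434245) (nat_lit 28) .nil))))) .nil)) 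
(.lf (nat_lit 60370) (.g (nat_lit 1589) (.e (nat_lit 1543) (nat_lit 109) (.e (nat_lit 344132) (nat_lit 26) (.e (nat_lit 557093) (nat_lit 12) (.e (nat_lit 164238) (nat_lit 187) (.e (nat_lit 1661) (nat_lit 115) .nil))))) .nil))) (.nd (nat_lit 6) 
(.lf (nat_lit 60338) (.g (nat_lit 4664) (.e (nat_lit 1538) (nat_lit 109) (.e (nat_lit 344117) (nat_lit 21) (.e (nat_lit 516166) (nat_lit 12) (.e (nat_lit 450587) (nat_lit 10) (.e (nat_lit 573475) (nat_lit 12) .nil))))) .nil)) 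
(.lf (nat_lit 60402) (.g (nat_lit 3137) (.e (nat_lit 1543) (nat_lit 109) (.e (nat_lit 344133) (nat_lit 26) (.e (nat_lit 557105) (nat_lit 14) (.e (nat_lit 180251) (nat_lit 10) (.e (nat_lit 573475) (nat_lit 12) .nil))))) .nil))))) (.nd (nat_lit 4) (.nd (nat_lit 5) (.nd (nat_lit 6) 
(.lf (nat_lit 60298) (.g (nat_lit 1692) (.e (nat_lit 1536) (nat_lit 109) (.e (nat_lit 344133) (nat_lit 26) (.e (nat_lit 557098) (nat_lit 13) (.e (nat_lit 172142) (nat_lit 24) .nil)))) .nil)) 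
(.lf (nat_lit 60362) (.g (nat_lit 2564) (.e (nat_lit 1543) (nat_lit 109) (.e (nat_lit 344117) (nat_lit 21) (.e (nat_lit 516165) (nat_lit 12) (.e (nat_lit 450579) (nat_lit 5) .nil)))) .nil))) (.nd (nat_lit 6) 
(.lf (nat_lit 60330) (.g (nat_lit 3242) (.e (nat_lit 1538) (nat_lit 109) (.e (nat_lit 344117) (nat_lit 21) (.e (nat_lit 516165) (nat_lit 12) (.e (nat_lit 450586) (nat_lit 10) (.e (nat_lit 573477) (nat_lit 12) .nil))))) .nil)) 
(.lf (nat_lit 60394) (.g (nat_lit 3267) (.e (nat_lit 1543) (nat_lit 109) (.e (nat_lit 344133) (nat_lit 26) (.e (nat_lit 557098) (nat_lit 13) (.e (nat_lit 172133) (nat_lit 15) (.e (nat_lit 2175) (nat_lit 143) (.e (nat_lit 712749) (nat_lit 28) (.e (nat_lit 434289) (nat_lit 43) (.e (nat_lit 696349) (nat_lit 13) .nil)))))))) (.g (nat_lit 6) .nil .nil))))) (.nd (nat_lit 5) (.nd (nat_lit 6) 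
(.lf (nat_lit 60314) (.g (nat_lit 1091) (.e (nat_lit 1538) (nat_lit 109) (.e (nat_lit 344115) (nat_lit 20) (.e (nat_lit 507906) (nat_lit 0) (.e (nat_lit 5412) (nat_lit 303) (.e (nat_lit 73746) (nat_lit 3) (.e (nat_lit 516105) (nat_lit 0) (.e (nat_lit 7936) (nat_lit 402) .nil))))))) (.g (nat_lit 5) .nil .nil))) 
(.lf (nat_lit 60378) (.g (nat_lit 1982) (.e (nat_lit 1543) (nat_lit 109) (.e (nat_lit 344132) (nat_lit 26) (.e (nat_lit 557100) (nat_lit 13) (.e (nat_lit 172138) (nat_lit 15) .nil)))) .nil))) (.nd (nat_lit 6) 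
(.lf (nat_lit 60346) (.g (nat_lit 2099) (.e (nat_lit 1538) (nat_lit 109) (.e (nat_lit 344126) (nat_lit 25) (.e (nat_lit 548889) (nat_lit 9) (.e (nat_lit 65610) (nat_lit 10) .nil)))) .nil)) 
(.lf (nat_lit 60410) (.g (nat_lit 677) (.e (nat_lit 1544) (nat_lit 109) (.e (nat_lit 344115) (nat_lit 20) (.e (nat_lit 507908) (nat_lit 0) (.e (nat_lit 5412) (nat_lit 303) (.e (nat_lit 73746) (nat_lit 3) (.e (nat_lit 516104) (nat_lit 0) (.e (nat_lit 7936) (nat_lit 402) .nil))))))) (.g (nat_lit 4) .nil .nil))))))) (.nd (nat_lit 3) (.nd (nat_lit 4) (.nd (nat_lit 5) (.nd (nat_lit 6) 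
(.lf (nat_lit 60294) (.g (nat_lit 1960) (.e (nat_lit 1536) (nat_lit 109) (.e (nat_lit 344132) (nat_lit 26) (.e (nat_lit 557100) (nat_lit 13) (.e (nat_lit 179968) (nat_lit 22) .nil)))) .nil)) 
(.lf (nat_lit 60358) (.g (nat_lit 4959) (.e (nat_lit 1543) (nat_lit 109) (.e (nat_lit 344117) (nat_lit 21) (.e (nat_lit 516151) (nat_lit 9) (.e (nat_lit 426211) (nat_lit 9) .nil)))) .nil))) (.nd (nat_lit 6) 
(.lf (nat_lit 60326) (.g (nat_lit 991) (.e (nat_lit 1538) (nat_lit 109) (.e (nat_lit 344117) (nat_lit 21) (.e (nat_lit 516165) (nat_lit 12) .nil))) .nil)) 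
(.lf (nat_lit 60390) (.g (nat_lit 1698) (.e (nat_lit 1543) (nat_lit 109) (.e (nat_lit 344133) (nat_lit 26) (.e (nat_lit 557098) (nat_lit 13) (.e (nat_lit 172064) (nat_lit 2) .nil)))) .nil)))) (.nd (nat_lit 5) (.nd (nat_lit 6) 
(.lf (nat_lit 60310) (.g (nat_lit 2627) (.e (nat_lit 1537) (nat_lit 109) (.e (nat_lit 344117) (nat_lit 21) (.e (nat_lit 516166) (nat_lit 12) (.e (nat_lit 450587) (nat_lit 10) .nil)))) .nil)) 
(.lf (nat_lit 60374) (.g (nat_lit 2008) (.e (nat_lit 1543) (nat_lit 109) (.e (nat_lit 344132) (nat_lit 26) (.e (nat_lit 557100) (nat_lit 13) (.e (nat_lit 172049) (nat_lit 0) .nil)))) .nil))) (.nd (nat_lit 6) 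
(.lf (nat_lit 60342) (.g (nat_lit 2751) (.e (nat_lit 1538) (nat_lit 109) (.e (nat_lit 344121) (nat_lit 22) (.e (nat_lit 524322) (nat_lit 12) (.e (nat_lit 450588) (nat_lit 10) (.e (nat_lit 573474) (nat_lit 12) (.e (nat_lit 57572) (nat_lit 54) (.e (nat_lit 770057) (nat_lit 5) .nil))))))) (.g (nat_lit 0) .nil .nil))) 
(.lf (nat_lit 60406) (.g (nat_lit 2958) (.e (nat_lit 1543) (nat_lit 109) (.e (nat_lit 344133) (nat_lit 26) (.e (nat_lit 557105) (nat_lit 14) (.e (nat_lit 180252) (nat_lit 10) (.e (nat_lit 573474) (nat_lit 12) .nil))))) .nil))))) (.nd (nat_lit 4) (.nd (nat_lit 5) (.nd (nat_lit 6) 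
(.lf (nat_lit 60302) (.g (nat_lit 3432) (.e (nat_lit 1536) (nat_lit 109) (.e (nat_lit 344167) (nat_lit 40) (.e (nat_lit 671759) (nat_lit 3) (.e (nat_lit 57479) (nat_lit 28) (.e (nat_lit 557109) (nat_lit 15) (.e (nat_lit 188458) (nat_lit 25) (.e (nat_lit 245784) (nat_lit 9) .nil))))))) (.g (nat_lit 0) .nil .nil))) 
(.lf (nat_lit 60366) (.g (nat_lit 3432) (.e (nat_lit 1543) (nat_lit 109) (.e (nat_lit 344117) (nat_lit 21) (.e (nat_lit 516166) (nat_lit 12) (.e (nat_lit 450588) (nat_lit 10) (.e (nat_lit 573473) (nat_lit 12) .nil))))) .nil))) (.nd (nat_lit 6) 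
(.lf (nat_lit 60334) (.g (nat_lit 4226) (.e (nat_lit 1538) (nat_lit 109) (.e (nat_lit 344117) (nat_lit 21) (.e (nat_lit 516165) (nat_lit 12) (.e (nat_lit 450588) (nat_lit 10) (.e (nat_lit 573475) (nat_lit 12) .nil))))) .nil)) 
(.lf (nat_lit 60398) (.g (nat_lit 1630) (.e (nat_lit 1543) (nat_lit 109) (.e (nat_lit 344133) (nat_lit 26) (.e (nat_lit 557098) (nat_lit 13) (.e (nat_lit 172142) (nat_lit 24) .nil)))) .nil)))) (.nd (nat_lit 5) (.nd (nat_lit 6) 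
(.lf (nat_lit 60318) (.g (nat_lit 714) (.e (nat_lit 1538) (nat_lit 109) (.e (nat_lit 344115) (nat_lit 20) (.e (nat_lit 507923) (nat_lit 6) (.e (nat_lit 286753) (nat_lit 10) .nil)))) .nil)) 
(.lf (nat_lit 60382) (.g (nat_lit 1440) (.e (nat_lit 1543) (nat_lit 109) (.e (nat_lit 344132) (nat_lit 26) (.e (nat_lit 557101) (nat_lit 13) (.e (nat_lit 172062) (nat_lit 2) (.e (nat_lit 204544) (nat_lit 2) .nil))))) .nil))) (.nd (nat_lit 6) 
(.lf (nat_lit 60350) (.g (nat_lit 3111) (.e (nat_lit 1540) (nat_lit 109) (.e (nat_lit 344121) (nat_lit 22) (.e (nat_lit 524322) (nat_lit 12) (.e (nat_lit 450588) (nat_lit 10) (.e (nat_lit 573474) (nat_lit 12) (.e (nat_lit 57572) (nat_lit 54) (.e (nat_lit 770055) (nat_lit 5) .nil))))))) (.g (nat_lit 0) .nil .nil))) 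
(.lf (nat_lit 60414) (.g (nat_lit 2699) (.e (nat_lit 1544) (nat_lit 109) (.e (nat_lit 344117) (nat_lit 21) (.e (nat_lit 516151) (nat_lit 9) (.e (nat_lit 426286) (nat_lit 10) (.e (nat_lit 434245) (nat_lit 28) (.e (nat_lit 573474) (nat_lit 12) (.e (nat_lit 57569) (nat_lit 53) (.e (nat_lit 761869) (nat_lit 5) .nil)))))))) (.g (nat_lit 4) .nil .nil))))))))) 
(.nd (nat_lit 1) (.nd (nat_lit 2) (.nd (nat_lit 3) (.nd (nat_lit 4) (.nd (nat_lit 5) 
(.nd (nat_lit 6) 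
(.lf (nat_lit 60289) (.g (nat_lit 789) (.e (nat_lit 1536) (nat_lit 109) (.e (nat_lit 344129) (nat_lit 26) (.e (nat_lit 557097) (nat_lit 13) .nil))) .nil)) 
(.lf (nat_lit 60353) (.g (nat_lit 113) (.e (nat_lit 1542) (nat_lit 109) (.e (nat_lit 344080) (nat_lit 13) (.e (nat_lit 1141) (nat_lit 84) .nil))) .nil))) (.nd (nat_lit 6) 
(.lf (nat_lit 60321) (.g (nat_lit 2582) (.e (nat_lit 1538) (nat_lit 109) (.e (nat_lit 344117) (nat_lit 21) (.e (nat_lit 516151) (nat_lit 9) (.e (nat_lit 426286) (nat_lit 10) .nil)))) .nil)) 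
(.lf (nat_lit 60385) (.g (nat_lit 1852) (.e (nat_lit 1543) (nat_lit 109) (.e (nat_lit 344133) (nat_lit 26) (.e (nat_lit 557096) (nat_lit 13) (.e (nat_lit 172064) (nat_lit 2) (.e (nat_lit 204544) (nat_lit 2) .nil))))) .nil)))) (.nd (nat_lit 5) (.nd (nat_lit 6) 
(.lf (nat_lit 60305) (.g (nat_lit 2614) (.e (nat_lit 1537) (nat_lit 109) (.e (nat_lit 344117) (nat_lit 21) (.e (nat_lit 516151) (nat_lit 9) (.e (nat_lit 426286) (nat_lit 10) .nil)))) .nil)) 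
(.lf (nat_lit 60369) (.g (nat_lit 1998) (.e (nat_lit 1543) (nat_lit 109) (.e (nat_lit 344130) (nat_lit 26) (.e (nat_lit 557097) (nat_lit 13) (.e (nat_lit 172064) (nat_lit 2) (.e (nat_lit 204544) (nat_lit 2) (.e (nat_lit 24580) (nat_lit 0) (.e (nat_lit 1877) (nat_lit 126) (.e (nat_lit 573451) (nat_lit 9) .nil)))))))) (.g (nat_lit 4) .nil .nil)))) (.nd (nat_lit 6) 
(.lf (nat_lit 60337) (.g (nat_lit 4305) (.e (nat_lit 1538) (nat_lit 109) (.e (nat_lit 344117) (nat_lit 21) (.e (nat_lit 516166) (nat_lit 12) (.e (nat_lit 450587) (nat_lit 10) (.e (nat_lit 573472) (nat_lit 12) .nil))))) .nil)) 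
(.lf (nat_lit 60401) (.g (nat_lit 2065) (.e (nat_lit 1543) (nat_lit 109) (.e (nat_lit 344133) (nat_lit 26) (.e (nat_lit 557105) (nat_lit 14) (.e (nat_lit 180248) (nat_lit 9) .nil)))) .nil))))) (.nd (nat_lit 4) (.nd (nat_lit 5) (.nd (nat_lit 6) 
(.lf (nat_lit 60297) (.g (nat_lit 3255) (.e (nat_lit 1536) (nat_lit 109) (.e (nat_lit 344133) (nat_lit 26) (.e (nat_lit 557098) (nat_lit 13) (.e (nat_lit 172133) (nat_lit 15) (.e (nat_lit 2175) (nat_lit 143) (.e (nat_lit 712749) (nat_lit 28) (.e (nat_lit 434289) (nat_lit 43) (.e (nat_lit 696349) (nat_lit 13) .nil)))))))) (.g (nat_lit 5) .nil .nil))) 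
(.lf (nat_lit 60361) (.g (nat_lit 3418) (.e (nat_lit 1543) (nat_lit 109) (.e (nat_lit 344117) (nat_lit 21) (.e (nat_lit 516151) (nat_lit 9) (.e (nat_lit 426286) (nat_lit 10) (.e (nat_lit 434248) (nat_lit 28) .nil))))) .nil))) (.nd (nat_lit 6) 
(.lf (nat_lit 60329) (.g (nat_lit 3196) (.e (nat_lit 1538) (nat_lit 109) (.e (nat_lit 344117) (nat_lit 21) (.e (nat_lit 516165) (nat_lit 12) (.e (nat_lit 450586) (nat_lit 10) (.e (nat_lit 573475) (nat_lit 12) .nil))))) .nil)) 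
(.lf (nat_lit 60393) (.g (nat_lit 2465) (.e (nat_lit 1543) (nat_lit 109) (.e (nat_lit 344133) (nat_lit 26) (.e (nat_lit 557098) (nat_lit 13) (.e (nat_lit 172133) (nat_lit 15) (.e (nat_lit 2175) (nat_lit 143) (.e (nat_lit 712747) (nat_lit 28) (.e (nat_lit 434286) (nat_lit 42) (.e (nat_lit 688153) (nat_lit 13) .nil)))))))) (.g (nat_lit 4) .nil .nil))))) (.nd (nat_lit 5) (.nd (nat_lit 6) 
(.lf (nat_lit 60313) (.g (nat_lit 1034) (.e (nat_lit 1538) (nat_lit 109) (.e (nat_lit 344115) (nat_lit 20) (.e (nat_lit 507906) (nat_lit 0) (.e (nat_lit 5412) (nat_lit 303) (.e (nat_lit 73746) (nat_lit 3) (.e (nat_lit 516100) (nat_lit 0) (.e (nat_lit 7936) (nat_lit 402) .nil))))))) (.g (nat_lit 5) .nil .nil))) 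
(.lf (nat_lit 60377) (.g (nat_lit 2220) (.e (nat_lit 1543) (nat_lit 109) (.e (nat_lit 344132) (nat_lit 26) (.e (nat_lit 557100) (nat_lit 13) (.e (nat_lit 172135) (nat_lit 15) .nil)))) .nil))) (.nd (nat_lit 6) 
(.lf (nat_lit 60345) (.g (nat_lit 1589) (.e (nat_lit 1538) (nat_lit 109) (.e (nat_lit 344126) (nat_lit 25) (.e (nat_lit 548874) (nat_lit 5) (.e (nat_lit 1598) (nat_lit 111) (.e (nat_lit 360466) (nat_lit 3) (.e (nat_lit 516100) (nat_lit 0) (.e (nat_lit 7936) (nat_lit 402) .nil))))))) (.g (nat_lit 4) .nil .nil))) 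
(.lf (nat_lit 60409) (.g (nat_lit 671) (.e (nat_lit 1544) (nat_lit 109) (.e (nat_lit 344115) (nat_lit 20) (.e (nat_lit 507907) (nat_lit 0) (.e (nat_lit 5412) (nat_lit 303) (.e (nat_lit 73746) (nat_lit 3) (.e (nat_lit 516104) (nat_lit 0) (.e (nat_lit 7936) (nat_lit 402) .nil))))))) (.g (nat_lit 4) .nil .nil))))))) (.nd (nat_lit 3) (.nd (nat_lit 4) (.nd (nat_lit 5) (.nd (nat_lit 6) 
(.lf (nat_lit 60293) (.g (nat_lit 2012) (.e (nat_lit 1536) (nat_lit 109) (.e (nat_lit 344132) (nat_lit 26) (.e (nat_lit 557100) (nat_lit 13) (.e (nat_lit 172138) (nat_lit 15) .nil)))) .nil)) 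
(.lf (nat_lit 60357) (.g (nat_lit 1888) (.e (nat_lit 1543) (nat_lit 109) (.e (nat_lit 344117) (nat_lit 21) (.e (nat_lit 516099) (nat_lit 0) (.e (nat_lit 7936) (nat_lit 216) .nil)))) .nil))) (.nd (nat_lit 6) 
(.lf (nat_lit 60325) (.g (nat_lit 4187) (.e (nat_lit 1538) (nat_lit 109) (.e (nat_lit 344117) (nat_lit 21) (.e (nat_lit 516151) (nat_lit 9) (.e (nat_lit 426286) (nat_lit 10) (.e (nat_lit 434248) (nat_lit 28) (.e (nat_lit 573475) (nat_lit 12) (.e (nat_lit 57572) (nat_lit 54) (.e (nat_lit 770058) (nat_lit 5) .nil)))))))) (.g (nat_lit 5) .nil .nil))) 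
(.lf (nat_lit 60389) (.g (nat_lit 1810) (.e (nat_lit 1543) (nat_lit 109) (.e (nat_lit 344133) (nat_lit 26) (.e (nat_lit 557098) (nat_lit 13) (.e (nat_lit 172062) (nat_lit 2) .nil)))) .nil)))) (.nd (nat_lit 5) (.nd (nat_lit 6) 
(.lf (nat_lit 60309) (.g (nat_lit 2428) (.e (nat_lit 1537) (nat_lit 109) (.e (nat_lit 344117) (nat_lit 21) (.e (nat_lit 516165) (nat_lit 12) (.e (nat_lit 450586) (nat_lit 10) .nil)))) .nil)) 
(.lf (nat_lit 60373) (.g (nat_lit 503) (.e (nat_lit 1543) (nat_lit 109) (.e (nat_lit 344132) (nat_lit 26) (.e (nat_lit 557100) (nat_lit 13) .nil))) .nil))) (.nd (nat_lit 6) 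
(.lf (nat_lit 60341) (.g (nat_lit 3469) (.e (nat_lit 1538) (nat_lit 109) (.e (nat_lit 344117) (nat_lit 21) (.e (nat_lit 516166) (nat_lit 12) (.e (nat_lit 450588) (nat_lit 10) (.e (nat_lit 573475) (nat_lit 12) .nil))))) .nil)) 
(.lf (nat_lit 60405) (.g (nat_lit 3319) (.e (nat_lit 1543) (nat_lit 109) (.e (nat_lit 344133) (nat_lit 26) (.e (nat_lit 557105) (nat_lit 14) (.e (nat_lit 180252) (nat_lit 10) (.e (nat_lit 573473) (nat_lit 12) (.e (nat_lit 57503) (nat_lit 38) (.e (nat_lit 638995) (nat_lit 7) (.e (nat_lit 163979) (nat_lit 30) (.e (nat_lit 573452) (nat_lit 9) .nil))))))))) (.g (nat_lit 4) .nil .nil)))))) 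
(.nd (nat_lit 4) (.nd (nat_lit 5) (.nd (nat_lit 6) 
(.lf (nat_lit 60301) (.g (nat_lit 3399) (.e (nat_lit 1536) (nat_lit 109) (.e (nat_lit 344133) (nat_lit 26) (.e (nat_lit 557105) (nat_lit 14) (.e (nat_lit 180252) (nat_lit 10) (.e (nat_lit 573474) (nat_lit 12) (.e (nat_lit 57516) (nat_lit 42) (.e (nat_lit 671748) (nat_lit 0) (.e (nat_lit 1304) (nat_lit 97) (.e (nat_lit 139273) (nat_lit 0) .nil))))))))) (.g (nat_lit 4) .nil .nil))) 
(.lf (nat_lit 60365) (.g (nat_lit 2283) (.e (nat_lit 1543) (nat_lit 109) (.e (nat_lit 344117) (nat_lit 21) (.e (nat_lit 516166) (nat_lit 12) (.e (nat_lit 450588) (nat_lit 10) .nil)))) .nil))) (.nd (nat_lit 6) 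
(.lf (nat_lit 60333) (.g (nat_lit 4343) (.e (nat_lit 1538) (nat_lit 109) (.e (nat_lit 344117) (nat_lit 21) (.e (nat_lit 516165) (nat_lit 12) (.e (nat_lit 450588) (nat_lit 10) (.e (nat_lit 573473) (nat_lit 12) .nil))))) .nil)) 
(.lf (nat_lit 60397) (.g (nat_lit 1894) (.e (nat_lit 1543) (nat_lit 109) (.e (nat_lit 344133) (nat_lit 26) (.e (nat_lit 557098) (nat_lit 13) (.e (nat_lit 172140) (nat_lit 22) (.e (nat_lit 139281) (nat_lit 5) .nil))))) .nil)))) (.nd (nat_lit 5) (.nd (nat_lit 6) 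
(.lf (nat_lit 60317) (.g (nat_lit 291) (.e (nat_lit 1538) (nat_lit 109) (.e (nat_lit 344115) (nat_lit 20) (.e (nat_lit 507923) (nat_lit 6) .nil))) .nil)) 
(.lf (nat_lit 60381) (.g (nat_lit 1091) (.e (nat_lit 1543) (nat_lit 109) (.e (nat_lit 344132) (nat_lit 26) (.e (nat_lit 557101) (nat_lit 13) (.e (nat_lit 172051) (nat_lit 0) .nil)))) .nil))) (.nd (nat_lit 6) 
(.lf (nat_lit 60349) (.g (nat_lit 2353) (.e (nat_lit 1539) (nat_lit 109) (.e (nat_lit 344133) (nat_lit 26) (.e (nat_lit 557098) (nat_lit 13) (.e (nat_lit 172133) (nat_lit 15) (.e (nat_lit 2175) (nat_lit 143) .nil))))) .nil)) 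
(.lf (nat_lit 60413) (.g (nat_lit 3370) (.e (nat_lit 1544) (nat_lit 109) (.e (nat_lit 344117) (nat_lit 21) (.e (nat_lit 516151) (nat_lit 9) (.e (nat_lit 426286) (nat_lit 10) (.e (nat_lit 434245) (nat_lit 28) (.e (nat_lit 573474) (nat_lit 12) (.e (nat_lit 57569) (nat_lit 53) (.e (nat_lit 761866) (nat_lit 5) .nil)))))))) (.g (nat_lit 5) .nil .nil)))))))) 
(.nd (nat_lit 2) (.nd (nat_lit 3) (.nd (nat_lit 4) (.nd (nat_lit 5) (.nd (nat_lit 6) 
(.lf (nat_lit 60291) (.g (nat_lit 758) (.e (nat_lit 1536) (nat_lit 109) (.e (nat_lit 344129) (nat_lit 26) (.e (nat_lit 557104) (nat_lit 14) .nil))) .nil)) 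
(.lf (nat_lit 60355) (.g (nat_lit 655) (.e (nat_lit 1543) (nat_lit 109) (.e (nat_lit 344115) (nat_lit 20) (.e (nat_lit 507906) (nat_lit 0) (.e (nat_lit 5412) (nat_lit 303) (.e (nat_lit 73746) (nat_lit 3) (.e (nat_lit 516104) (nat_lit 0) (.e (nat_lit 7936) (nat_lit 402) .nil))))))) (.g (nat_lit 4) .nil .nil)))) (.nd (nat_lit 6) 
(.lf (nat_lit 60323) (.g (nat_lit 3419) (.e (nat_lit 1538) (nat_lit 109) (.e (nat_lit 344117) (nat_lit 21) (.e (nat_lit 516151) (nat_lit 9) (.e (nat_lit 426286) (nat_lit 10) (.e (nat_lit 434247) (nat_lit 28) .nil))))) .nil)) 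
(.lf (nat_lit 60387) (.g (nat_lit 1782) (.e (nat_lit 1543) (nat_lit 109) (.e (nat_lit 344133) (nat_lit 26) (.e (nat_lit 557096) (nat_lit 13) (.e (nat_lit 172133) (nat_lit 15) (.e (nat_lit 2175) (nat_lit 143) .nil))))) .nil)))) (.nd (nat_lit 5) (.nd (nat_lit 6) 
(.lf (nat_lit 60307) (.g (nat_lit 3418) (.e (nat_lit 1537) (nat_lit 109) (.e (nat_lit 344117) (nat_lit 21) (.e (nat_lit 516151) (nat_lit 9) (.e (nat_lit 426286) (nat_lit 10) (.e (nat_lit 434248) (nat_lit 28) .nil))))) .nil)) 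
(.lf (nat_lit 60371) (.g (nat_lit 1366) (.e (nat_lit 1543) (nat_lit 109) (.e (nat_lit 344132) (nat_lit 26) (.e (nat_lit 557093) (nat_lit 12) (.e (nat_lit 164239) (nat_lit 187) (.e (nat_lit 1661) (nat_lit 115) .nil))))) .nil))) (.nd (nat_lit 6) 
(.lf (nat_lit 60339) (.g (nat_lit 3321) (.e (nat_lit 1538) (nat_lit 109) (.e (nat_lit 344117) (nat_lit 21) (.e (nat_lit 516166) (nat_lit 12) (.e (nat_lit 450587) (nat_lit 10) (.e (nat_lit 573477) (nat_lit 12) .nil))))) .nil)) 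
(.lf (nat_lit 60403) (.g (nat_lit 2900) (.e (nat_lit 1543) (nat_lit 109) (.e (nat_lit 344133) (nat_lit 26) (.e (nat_lit 557105) (nat_lit 14) (.e (nat_lit 180251) (nat_lit 10) (.e (nat_lit 573477) (nat_lit 12) .nil))))) .nil))))) (.nd (nat_lit 4) (.nd (nat_lit 5) (.nd (nat_lit 6) 
(.lf (nat_lit 60299) (.g (nat_lit 2160) (.e (nat_lit 1536) (nat_lit 109) (.e (nat_lit 344133) (nat_lit 26) (.e (nat_lit 557105) (nat_lit 14) (.e (nat_lit 180248) (nat_lit 9) .nil)))) .nil)) 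
(.lf (nat_lit 60363) (.g (nat_lit 2428) (.e (nat_lit 1543) (nat_lit 109) (.e (nat_lit 344117) (nat_lit 21) (.e (nat_lit 516165) (nat_lit 12) (.e (nat_lit 450586) (nat_lit 10) .nil)))) .nil))) (.nd (nat_lit 6) 
(.lf (nat_lit 60331) (.g (nat_lit 4422) (.e (nat_lit 1538) (nat_lit 109) (.e (nat_lit 344117) (nat_lit 21) (.e (nat_lit 516165) (nat_lit 12) (.e (nat_lit 450587) (nat_lit 10) (.e (nat_lit 573475) (nat_lit 12) .nil))))) .nil)) 
(.lf (nat_lit 60395) (.g (nat_lit 3192) (.e (nat_lit 1543) (nat_lit 109) (.e (nat_lit 344133) (nat_lit 26) (.e (nat_lit 557098) (nat_lit 13) (.e (nat_lit 172133) (nat_lit 15) (.e (nat_lit 2175) (nat_lit 143) (.e (nat_lit 712749) (nat_lit 28) (.e (nat_lit 434289) (nat_lit 43) (.e (nat_lit 696350) (nat_lit 13) .nil)))))))) (.g (nat_lit 6) .nil .nil))))) (.nd (nat_lit 5) (.nd (nat_lit 6) 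
(.lf (nat_lit 60315) (.g (nat_lit 972) (.e (nat_lit 1538) (nat_lit 109) (.e (nat_lit 344115) (nat_lit 20) (.e (nat_lit 507907) (nat_lit 0) (.e (nat_lit 5412) (nat_lit 303) (.e (nat_lit 73746) (nat_lit 3) (.e (nat_lit 516100) (nat_lit 0) (.e (nat_lit 7936) (nat_lit 402) .nil))))))) (.g (nat_lit 5) .nil .nil))) 
(.lf (nat_lit 60379) (.g (nat_lit 2561) (.e (nat_lit 1543) (nat_lit 109) (.e (nat_lit 344132) (nat_lit 26) (.e (nat_lit 557100) (nat_lit 13) (.e (nat_lit 172138) (nat_lit 15) (.e (nat_lit 2175) (nat_lit 143) .nil))))) .nil))) (.nd (nat_lit 6) 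
(.lf (nat_lit 60347) (.g (nat_lit 1910) (.e (nat_lit 1538) (nat_lit 109) (.e (nat_lit 344126) (nat_lit 25) (.e (nat_lit 548889) (nat_lit 9) (.e (nat_lit 65616) (nat_lit 10) .nil)))) .nil)) 
(.lf (nat_lit 60411) (.g (nat_lit 2632) (.e (nat_lit 1544) (nat_lit 109) (.e (nat_lit 344117) (nat_lit 21) (.e (nat_lit 516151) (nat_lit 9) (.e (nat_lit 426286) (nat_lit 10) (.e (nat_lit 434245) (nat_lit 28) .nil))))) .nil)))))) (.nd (nat_lit 3) (.nd (nat_lit 4) (.nd (nat_lit 5) (.nd (nat_lit 6) 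
(.lf (nat_lit 60295) (.g (nat_lit 745) (.e (nat_lit 1536) (nat_lit 109) (.e (nat_lit 344133) (nat_lit 26) (.e (nat_lit 557096) (nat_lit 13) .nil))) .nil)) 
(.lf (nat_lit 60359) (.g (nat_lit 2614) (.e (nat_lit 1543) (nat_lit 109) (.e (nat_lit 344117) (nat_lit 21) (.e (nat_lit 516151) (nat_lit 9) (.e (nat_lit 426286) (nat_lit 10) .nil)))) .nil))) (.nd (nat_lit 6) 
(.lf (nat_lit 60327) (.g (nat_lit 2428) (.e (nat_lit 1538) (nat_lit 109) (.e (nat_lit 344117) (nat_lit 21) (.e (nat_lit 516165) (nat_lit 12) (.e (nat_lit 450586) (nat_lit 10) .nil)))) .nil)) 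
(.lf (nat_lit 60391) (.g (nat_lit 2186) (.e (nat_lit 1543) (nat_lit 109) (.e (nat_lit 344133) (nat_lit 26) (.e (nat_lit 557098) (nat_lit 13) (.e (nat_lit 172133) (nat_lit 15) (.e (nat_lit 2059) (nat_lit 142) (.e (nat_lit 704596) (nat_lit 5) (.e (nat_lit 180268) (nat_lit 24) (.e (nat_lit 688147) (nat_lit 13) .nil)))))))) (.g (nat_lit 4) .nil .nil))))) (.nd (nat_lit 5) (.nd (nat_lit 6) 
(.lf (nat_lit 60311) (.g (nat_lit 2283) (.e (nat_lit 1537) (nat_lit 109) (.e (nat_lit 344117) (nat_lit 21) (.e (nat_lit 516166) (nat_lit 12) (.e (nat_lit 450588) (nat_lit 10) .nil)))) .nil)) 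
(.lf (nat_lit 60375) (.g (nat_lit 2437) (.e (nat_lit 1543) (nat_lit 109) (.e (nat_lit 344132) (nat_lit 26) (.e (nat_lit 557100) (nat_lit 13) (.e (nat_lit 172062) (nat_lit 2) (.e (nat_lit 204544) (nat_lit 2) .nil))))) .nil))) (.nd (nat_lit 6) 
(.lf (nat_lit 60343) (.g (nat_lit 761) (.e (nat_lit 1538) (nat_lit 109) (.e (nat_lit 344126) (nat_lit 25) (.e (nat_lit 548872) (nat_lit 5) (.e (nat_lit 1598) (nat_lit 111) .nil)))) .nil)) 
(.lf (nat_lit 60407) (.g (nat_lit 3261) (.e (nat_lit 1543) (nat_lit 109) (.e (nat_lit 344133) (nat_lit 26) (.e (nat_lit 557105) (nat_lit 14) (.e (nat_lit 180252) (nat_lit 10) (.e (nat_lit 573475) (nat_lit 12) .nil))))) .nil))))) (.nd (nat_lit 4) (.nd (nat_lit 5) (.nd (nat_lit 6) 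
(.lf (nat_lit 60303) (.g (nat_lit 1797) (.e (nat_lit 1536) (nat_lit 109) (.e (nat_lit 344177) (nat_lit 43) (.e (nat_lit 770073) (nat_lit 9) (.e (nat_lit 73755) (nat_lit 8) (.e (nat_lit 557105) (nat_lit 14) (.e (nat_lit 180265) (nat_lit 21) (.e (nat_lit 663555) (nat_lit 0) .nil))))))) (.g (nat_lit 4) .nil .nil))) 
(.lf (nat_lit 60367) (.g (nat_lit 3481) (.e (nat_lit 1543) (nat_lit 109) (.e (nat_lit 344117) (nat_lit 21) (.e (nat_lit 516166) (nat_lit 12) (.e (nat_lit 450588) (nat_lit 10) (.e (nat_lit 573475) (nat_lit 12) .nil))))) .nil))) (.nd (nat_lit 6) 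
(.lf (nat_lit 60335) (.g (nat_lit 3081) (.e (nat_lit 1538) (nat_lit 109) (.e (nat_lit 344117) (nat_lit 21) (.e (nat_lit 516166) (nat_lit 12) (.e (nat_lit 450585) (nat_lit 10) (.e (nat_lit 573474) (nat_lit 12) .nil))))) .nil)) 
(.lf (nat_lit 60399) (.g (nat_lit 631) (.e (nat_lit 1543) (nat_lit 109) (.e (nat_lit 344133) (nat_lit 26) (.e (nat_lit 557105) (nat_lit 14) .nil))) .nil)))) (.nd (nat_lit 5) (.nd (nat_lit 6) 
(.lf (nat_lit 60319) (.g (nat_lit 1002) (.e (nat_lit 1538) (nat_lit 109) (.e (nat_lit 344117) (nat_lit 21) (.e (nat_lit 516151) (nat_lit 9) .nil))) .nil)) 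
(.lf (nat_lit 60383) (.g (nat_lit 1888) (.e (nat_lit 1543) (nat_lit 109) (.e (nat_lit 344132) (nat_lit 26) (.e (nat_lit 557101) (nat_lit 13) (.e (nat_lit 172064) (nat_lit 2) (.e (nat_lit 204544) (nat_lit 2) .nil))))) .nil))) (.nd (nat_lit 6) 
(.lf (nat_lit 60351) (.g (nat_lit 2353) (.e (nat_lit 1540) (nat_lit 109) (.e (nat_lit 344133) (nat_lit 26) (.e (nat_lit 557098) (nat_lit 13) (.e (nat_lit 172133) (nat_lit 15) (.e (nat_lit 2175) (nat_lit 143) .nil))))) .nil)) 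
(.lf (nat_lit 60415) (.g (nat_lit 2737) (.e (nat_lit 1544) (nat_lit 109) (.e (nat_lit 344117) (nat_lit 21) (.e (nat_lit 516151) (nat_lit 9) (.e (nat_lit 426286) (nat_lit 10) (.e (nat_lit 434247) (nat_lit 28) .nil))))) .nil)))))))))

noncomputable def tv829 : DT := (.nd (nat_lit 0) (.nd (nat_lit 1) (.nd (nat_lit 2) (.nd (nat_lit 3) (.nd (nat_lit 4) (.nd (nat_lit 5) (.nd (nat_lit 6) 
(.lf (nat_lit 60416) (.g (nat_lit 2705) (.e (nat_lit 1544) (nat_lit 109) (.e (nat_lit 344117) (nat_lit 21) (.e (nat_lit 516151) (nat_lit 9) (.e (nat_lit 426286) (nat_lit 10) (.e (nat_lit 434248) (nat_lit 28) .nil))))) .nil)) 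
(.lf (nat_lit 60480) (.g (nat_lit 2280) (.e (nat_lit 1546) (nat_lit 109) (.e (nat_lit 344117) (nat_lit 21) (.e (nat_lit 516166) (nat_lit 12) (.e (nat_lit 450588) (nat_lit 10) .nil)))) .nil))) (.nd (nat_lit 6) 
(.lf (nat_lit 60448) (.g (nat_lit 2624) (.e (nat_lit 1545) (nat_lit 109) (.e (nat_lit 344117) (nat_lit 21) (.e (nat_lit 516165) (nat_lit 12) (.e (nat_lit 450587) (nat_lit 10) .nil)))) .nil)) 
(.lf (nat_lit 60512) (.g (nat_lit 2564) (.e (nat_lit 1548) (nat_lit 109) (.e (nat_lit 344117) (nat_lit 21) (.e (nat_lit 516165) (nat_lit 12) (.e (nat_lit 450579) (nat_lit 5) .nil)))) .nil)))) (.nd (nat_lit 5) (.nd (nat_lit 6) 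
(.lf (nat_lit 60432) (.g (nat_lit 1493) (.e (nat_lit 1544) (nat_lit 109) (.e (nat_lit 344133) (nat_lit 26) (.e (nat_lit 557098) (nat_lit 13) (.e (nat_lit 179968) (nat_lit 2) .nil)))) .nil)) 
(.lf (nat_lit 60496) (.g (nat_lit 3417) (.e (nat_lit 1547) (nat_lit 109) (.e (nat_lit 344117) (nat_lit 21) (.e (nat_lit 516151) (nat_lit 9) (.e (nat_lit 426286) (nat_lit 10) (.e (nat_lit 434248) (nat_lit 28) .nil))))) .nil))) (.nd (nat_lit 6) 
(.lf (nat_lit 60464) (.g (nat_lit 1692) (.e (nat_lit 1545) (nat_lit 109) (.e (nat_lit 344133) (nat_lit 26) (.e (nat_lit 557098) (nat_lit 13) (.e (nat_lit 172067) (nat_lit 3) .nil)))) .nil)) 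
(.lf (nat_lit 60528) (.g (nat_lit 1879) (.e (nat_lit 1548) (nat_lit 109) (.e (nat_lit 344130) (nat_lit 26) (.e (nat_lit 557097) (nat_lit 13) (.e (nat_lit 172062) (nat_lit 2) (.e (nat_lit 196653) (nat_lit 11) (.e (nat_lit 16397) (nat_lit 0) (.e (nat_lit 3289) (nat_lit 201) (.e (nat_lit 565252) (nat_lit 0) .nil)))))))) (.g (nat_lit 5) .nil .nil)))))) 
(.nd (nat_lit 4) (.nd (nat_lit 5) (.nd (nat_lit 6) 
(.lf (nat_lit 60424) (.g (nat_lit 2878) (.e (nat_lit 1544) (nat_lit 109) (.e (nat_lit 344117) (nat_lit 21) (.e (nat_lit 516166) (nat_lit 12) (.e (nat_lit 450588) (nat_lit 10) (.e (nat_lit 573475) (nat_lit 12) .nil))))) .nil)) 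
(.lf (nat_lit 60488) (.g (nat_lit 3976) (.e (nat_lit 1546) (nat_lit 109) (.e (nat_lit 344168) (nat_lit 40) (.e (nat_lit 671759) (nat_lit 3) (.e (nat_lit 57479) (nat_lit 28) (.e (nat_lit 557109) (nat_lit 15) (.e (nat_lit 188458) (nat_lit 25) (.e (nat_lit 245782) (nat_lit 9) .nil))))))) (.g (nat_lit 0) .nil .nil)))) (.nd (nat_lit 6) 
(.lf (nat_lit 60456) (.g (nat_lit 2428) (.e (nat_lit 1545) (nat_lit 109) (.e (nat_lit 344121) (nat_lit 22) (.e (nat_lit 524322) (nat_lit 12) (.e (nat_lit 450588) (nat_lit 10) (.e (nat_lit 573474) (nat_lit 12) (.e (nat_lit 57572) (nat_lit 54) (.e (nat_lit 770057) (nat_lit 5) .nil))))))) (.g (nat_lit 6) .nil .nil))) 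
(.lf (nat_lit 60520) (.g (nat_lit 3429) (.e (nat_lit 1548) (nat_lit 109) (.e (nat_lit 344117) (nat_lit 21) (.e (nat_lit 516166) (nat_lit 12) (.e (nat_lit 450588) (nat_lit 10) (.e (nat_lit 573473) (nat_lit 12) .nil))))) .nil)))) (.nd (nat_lit 5) (.nd (nat_lit 6) 
(.lf (nat_lit 60440) (.g (nat_lit 2610) (.e (nat_lit 1545) (nat_lit 109) (.e (nat_lit 344117) (nat_lit 21) (.e (nat_lit 516151) (nat_lit 9) (.e (nat_lit 426286) (nat_lit 10) .nil)))) .nil)) 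
(.lf (nat_lit 60504) (.g (nat_lit 1183) (.e (nat_lit 1547) (nat_lit 109) (.e (nat_lit 344130) (nat_lit 26) (.e (nat_lit 557097) (nat_lit 13) (.e (nat_lit 179968) (nat_lit 17) .nil)))) .nil))) (.nd (nat_lit 6) 
(.lf (nat_lit 60472) (.g (nat_lit 2019) (.e (nat_lit 1545) (nat_lit 109) (.e (nat_lit 344133) (nat_lit 26) (.e (nat_lit 557105) (nat_lit 14) (.e (nat_lit 180251) (nat_lit 10) .nil)))) .nil)) 
(.lf (nat_lit 60536) (.g (nat_lit 1352) (.e (nat_lit 1548) (nat_lit 109) (.e (nat_lit 344130) (nat_lit 26) (.e (nat_lit 557103) (nat_lit 14) (.e (nat_lit 180234) (nat_lit 1) .nil)))) .nil)))))) (.nd (nat_lit 3) (.nd (nat_lit 4) (.nd (nat_lit 5) (.nd (nat_lit 6) 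
(.lf (nat_lit 60420) (.g (nat_lit 2524) (.e (nat_lit 1544) (nat_lit 109) (.e (nat_lit 344117) (nat_lit 21) (.e (nat_lit 516165) (nat_lit 12) (.e (nat_lit 450586) (nat_lit 10) (.e (nat_lit 573478) (nat_lit 12) .nil))))) .nil)) 
(.lf (nat_lit 60484) (.g (nat_lit 1585) (.e (nat_lit 1546) (nat_lit 109) (.e (nat_lit 344133) (nat_lit 26) (.e (nat_lit 557098) (nat_lit 13) (.e (nat_lit 179968) (nat_lit 22) .nil)))) .nil))) (.nd (nat_lit 6) 
(.lf (nat_lit 60452) (.g (nat_lit 3389) (.e (nat_lit 1545) (nat_lit 109) (.e (nat_lit 344117) (nat_lit 21) (.e (nat_lit 516166) (nat_lit 12) (.e (nat_lit 450587) (nat_lit 10) (.e (nat_lit 573477) (nat_lit 12) .nil))))) .nil)) 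
(.lf (nat_lit 60516) (.g (nat_lit 2774) (.e (nat_lit 1548) (nat_lit 109) (.e (nat_lit 344117) (nat_lit 21) (.e (nat_lit 516165) (nat_lit 12) (.e (nat_lit 450587) (nat_lit 10) .nil)))) .nil)))) (.nd (nat_lit 5) (.nd (nat_lit 6) 
(.lf (nat_lit 60436) (.g (nat_lit 2166) (.e (nat_lit 1544) (nat_lit 109) (.e (nat_lit 344169) (nat_lit 40) (.e (nat_lit 671762) (nat_lit 4) (.e (nat_lit 65630) (nat_lit 14) (.e (nat_lit 401454) (nat_lit 12) .nil))))) .nil)) 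
(.lf (nat_lit 60500) (.g (nat_lit 2617) (.e (nat_lit 1547) (nat_lit 109) (.e (nat_lit 344117) (nat_lit 21) (.e (nat_lit 516166) (nat_lit 12) (.e (nat_lit 450587) (nat_lit 10) .nil)))) .nil))) (.nd (nat_lit 6) 
(.lf (nat_lit 60468) (.g (nat_lit 2372) (.e (nat_lit 1545) (nat_lit 109) (.e (nat_lit 344133) (nat_lit 26) (.e (nat_lit 557103) (nat_lit 14) (.e (nat_lit 180244) (nat_lit 5) (.e (nat_lit 532579) (nat_lit 26) .nil))))) .nil)) 
(.lf (nat_lit 60532) (.g (nat_lit 3536) (.e (nat_lit 1548) (nat_lit 109) (.e (nat_lit 344130) (nat_lit 26) (.e (nat_lit 557097) (nat_lit 13) (.e (nat_lit 172064) (nat_lit 2) (.e (nat_lit 196656) (nat_lit 11) (.e (nat_lit 16397) (nat_lit 0) (.e (nat_lit 3289) (nat_lit 201) (.e (nat_lit 565252) (nat_lit 0) .nil)))))))) (.g (nat_lit 5) .nil .nil)))))) 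
(.nd (nat_lit 4) (.nd (nat_lit 5) (.nd (nat_lit 6) 
(.lf (nat_lit 60428) (.g (nat_lit 2168) (.e (nat_lit 1544) (nat_lit 109) (.e (nat_lit 344126) (nat_lit 25) (.e (nat_lit 548874) (nat_lit 5) (.e (nat_lit 1598) (nat_lit 111) (.e (nat_lit 360466) (nat_lit 3) (.e (nat_lit 516100) (nat_lit 0) (.e (nat_lit 7936) (nat_lit 402) .nil))))))) (.g (nat_lit 5) .nil .nil))) 
(.lf (nat_lit 60492) (.g (nat_lit 583) (.e (nat_lit 1547) (nat_lit 109) (.e (nat_lit 344115) (nat_lit 20) (.e (nat_lit 507908) (nat_lit 0) (.e (nat_lit 5412) (nat_lit 303) (.e (nat_lit 73746) (nat_lit 3) .nil))))) .nil))) (.nd (nat_lit 6) 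
(.lf (nat_lit 60460) (.g (nat_lit 1984) (.e (nat_lit 1545) (nat_lit 109) (.e (nat_lit 344126) (nat_lit 25) (.e (nat_lit 548891) (nat_lit 11) (.e (nat_lit 81953) (nat_lit 22) .nil)))) .nil)) 
(.lf (nat_lit 60524) (.g (nat_lit 1429) (.e (nat_lit 1548) (nat_lit 109) (.e (nat_lit 344130) (nat_lit 26) (.e (nat_lit 557096) (nat_lit 13) (.e (nat_lit 172064) (nat_lit 2) (.e (nat_lit 204544) (nat_lit 2) (.e (nat_lit 24580) (nat_lit 0) (.e (nat_lit 1875) (nat_lit 126) (.e (nat_lit 573451) (nat_lit 9) .nil)))))))) (.g (nat_lit 4) .nil .nil))))) (.nd (nat_lit 5) (.nd (nat_lit 6) 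
(.lf (nat_lit 60444) (.g (nat_lit 960) (.e (nat_lit 1545) (nat_lit 109) (.e (nat_lit 344117) (nat_lit 21) (.e (nat_lit 516165) (nat_lit 12) .nil))) .nil)) 
(.lf (nat_lit 60508) (.g (nat_lit 2613) (.e (nat_lit 1548) (nat_lit 109) (.e (nat_lit 344117) (nat_lit 21) (.e (nat_lit 516151) (nat_lit 9) (.e (nat_lit 426286) (nat_lit 10) .nil)))) .nil))) (.nd (nat_lit 6) 
(.lf (nat_lit 60476) (.g (nat_lit 2590) (.e (nat_lit 1546) (nat_lit 109) (.e (nat_lit 344117) (nat_lit 21) (.e (nat_lit 516165) (nat_lit 12) (.e (nat_lit 458496) (nat_lit 3) .nil)))) .nil)) 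
(.lf (nat_lit 60540) (.g (nat_lit 1927) (.e (nat_lit 1548) (nat_lit 109) (.e (nat_lit 344130) (nat_lit 26) (.e (nat_lit 557103) (nat_lit 14) (.e (nat_lit 180244) (nat_lit 5) (.e (nat_lit 532579) (nat_lit 26) .nil))))) .nil))))))) (.nd (nat_lit 2) (.nd (nat_lit 3) (.nd (nat_lit 4) (.nd (nat_lit 5) (.nd (nat_lit 6) 
(.lf (nat_lit 60418) (.g (nat_lit 1776) (.e (nat_lit 1544) (nat_lit 109) (.e (nat_lit 344117) (nat_lit 21) (.e (nat_lit 516165) (nat_lit 12) (.e (nat_lit 450586) (nat_lit 10) .nil)))) .nil)) 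
(.lf (nat_lit 60482) (.g (nat_lit 2908) (.e (nat_lit 1546) (nat_lit 109) (.e (nat_lit 344133) (nat_lit 26) (.e (nat_lit 557098) (nat_lit 13) (.e (nat_lit 172133) (nat_lit 15) (.e (nat_lit 2175) (nat_lit 143) (.e (nat_lit 712749) (nat_lit 28) (.e (nat_lit 434289) (nat_lit 43) (.e (nat_lit 696349) (nat_lit 13) .nil)))))))) (.g (nat_lit 5) .nil .nil)))) (.nd (nat_lit 6) 
(.lf (nat_lit 60450) (.g (nat_lit 4372) (.e (nat_lit 1545) (nat_lit 109) (.e (nat_lit 344117) (nat_lit 21) (.e (nat_lit 516166) (nat_lit 12) (.e (nat_lit 450587) (nat_lit 10) (.e (nat_lit 573472) (nat_lit 12) .nil))))) .nil)) 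
(.lf (nat_lit 60514) (.g (nat_lit 3092) (.e (nat_lit 1548) (nat_lit 109) (.e (nat_lit 344117) (nat_lit 21) (.e (nat_lit 516165) (nat_lit 12) (.e (nat_lit 450586) (nat_lit 10) (.e (nat_lit 573473) (nat_lit 12) .nil))))) .nil)))) (.nd (nat_lit 5) (.nd (nat_lit 6) 
(.lf (nat_lit 60434) (.g (nat_lit 2247) (.e (nat_lit 1544) (nat_lit 109) (.e (nat_lit 344133) (nat_lit 26) (.e (nat_lit 557103) (nat_lit 14) (.e (nat_lit 180244) (nat_lit 5) (.e (nat_lit 532579) (nat_lit 26) .nil))))) .nil)) 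
(.lf (nat_lit 60498) (.g (nat_lit 3480) (.e (nat_lit 1547) (nat_lit 109) (.e (nat_lit 344117) (nat_lit 21) (.e (nat_lit 516165) (nat_lit 12) (.e (nat_lit 450579) (nat_lit 5) (.e (nat_lit 532484) (nat_lit 0) .nil))))) .nil))) (.nd (nat_lit 6) 
(.lf (nat_lit 60466) (.g (nat_lit 2491) (.e (nat_lit 1545) (nat_lit 109) (.e (nat_lit 344133) (nat_lit 26) (.e (nat_lit 557098) (nat_lit 13) (.e (nat_lit 172133) (nat_lit 15) (.e (nat_lit 2175) (nat_lit 143) (.e (nat_lit 712747) (nat_lit 28) (.e (nat_lit 434286) (nat_lit 42) (.e (nat_lit 688153) (nat_lit 13) .nil)))))))) (.g (nat_lit 4) .nil .nil))) 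
(.lf (nat_lit 60530) (.g (nat_lit 1167) (.e (nat_lit 1548) (nat_lit 109) (.e (nat_lit 344130) (nat_lit 26) (.e (nat_lit 557097) (nat_lit 13) (.e (nat_lit 172064) (nat_lit 2) .nil)))) .nil))))) (.nd (nat_lit 4) (.nd (nat_lit 5) (.nd (nat_lit 6) 
(.lf (nat_lit 60426) (.g (nat_lit 1247) (.e (nat_lit 1544) (nat_lit 109) (.e (nat_lit 344126) (nat_lit 25) (.e (nat_lit 548872) (nat_lit 5) (.e (nat_lit 1598) (nat_lit 111) (.e (nat_lit 360466) (nat_lit 3) (.e (nat_lit 516100) (nat_lit 0) (.e (nat_lit 7936) (nat_lit 402) .nil))))))) (.g (nat_lit 4) .nil .nil))) 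
(.lf (nat_lit 60490) (.g (nat_lit 3862) (.e (nat_lit 1546) (nat_lit 109) (.e (nat_lit 344169) (nat_lit 40) (.e (nat_lit 671759) (nat_lit 3) (.e (nat_lit 57479) (nat_lit 28) (.e (nat_lit 557109) (nat_lit 15) (.e (nat_lit 188458) (nat_lit 25) (.e (nat_lit 245782) (nat_lit 9) .nil))))))) (.g (nat_lit 0) .nil .nil)))) (.nd (nat_lit 6) 
(.lf (nat_lit 60458) (.g (nat_lit 1347) (.e (nat_lit 1545) (nat_lit 109) (.e (nat_lit 344126) (nat_lit 25) (.e (nat_lit 548874) (nat_lit 5) (.e (nat_lit 1598) (nat_lit 111) .nil)))) .nil)) 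
(.lf (nat_lit 60522) (.g (nat_lit 1347) (.e (nat_lit 1548) (nat_lit 109) (.e (nat_lit 344126) (nat_lit 25) (.e (nat_lit 548874) (nat_lit 5) (.e (nat_lit 1598) (nat_lit 111) .nil)))) .nil)))) (.nd (nat_lit 5) (.nd (nat_lit 6) 
(.lf (nat_lit 60442) (.g (nat_lit 3447) (.e (nat_lit 1545) (nat_lit 109) (.e (nat_lit 344117) (nat_lit 21) (.e (nat_lit 516151) (nat_lit 9) (.e (nat_lit 426286) (nat_lit 10) (.e (nat_lit 434247) (nat_lit 28) .nil))))) .nil)) 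
(.lf (nat_lit 60506) (.g (nat_lit 751) (.e (nat_lit 1548) (nat_lit 109) (.e (nat_lit 344075) (nat_lit 13) (.e (nat_lit 1374) (nat_lit 104) (.e (nat_lit 303155) (nat_lit 29) (.e (nat_lit 352287) (nat_lit 20) .nil))))) .nil))) (.nd (nat_lit 6) 
(.lf (nat_lit 60474) (.g (nat_lit 4959) (.e (nat_lit 1546) (nat_lit 109) (.e (nat_lit 344117) (nat_lit 21) (.e (nat_lit 516151) (nat_lit 9) (.e (nat_lit 426211) (nat_lit 9) .nil)))) .nil)) 
(.lf (nat_lit 60538) (.g (nat_lit 1290) (.e (nat_lit 1548) (nat_lit 109) (.e (nat_lit 344130) (nat_lit 26) (.e (nat_lit 557103) (nat_lit 14) (.e (nat_lit 180236) (nat_lit 1) .nil)))) .nil)))))) (.nd (nat_lit 3) (.nd (nat_lit 4) (.nd (nat_lit 5) (.nd (nat_lit 6) 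
(.lf (nat_lit 60422) (.g (nat_lit 2620) (.e (nat_lit 1544) (nat_lit 109) (.e (nat_lit 344117) (nat_lit 21) (.e (nat_lit 516166) (nat_lit 12) (.e (nat_lit 450587) (nat_lit 10) (.e (nat_lit 573478) (nat_lit 12) .nil))))) .nil)) 
(.lf (nat_lit 60486) (.g (nat_lit 785) (.e (nat_lit 1546) (nat_lit 109) (.e (nat_lit 344133) (nat_lit 26) (.e (nat_lit 557105) (nat_lit 14) .nil))) .nil))) (.nd (nat_lit 6) 
(.lf (nat_lit 60454) (.g (nat_lit 3429) (.e (nat_lit 1545) (nat_lit 109) (.e (nat_lit 344117) (nat_lit 21) (.e (nat_lit 516166) (nat_lit 12) (.e (nat_lit 450588) (nat_lit 10) (.e (nat_lit 573473) (nat_lit 12) .nil))))) .nil)) 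
(.lf (nat_lit 60518) (.g (nat_lit 4362) (.e (nat_lit 1548) (nat_lit 109) (.e (nat_lit 344117) (nat_lit 21) (.e (nat_lit 516166) (nat_lit 12) (.e (nat_lit 450587) (nat_lit 10) (.e (nat_lit 573472) (nat_lit 12) .nil))))) .nil)))) (.nd (nat_lit 5) (.nd (nat_lit 6) 
(.lf (nat_lit 60438) (.g (nat_lit 1198) (.e (nat_lit 1544) (nat_lit 109) (.e (nat_lit 344174) (nat_lit 42) (.e (nat_lit 761869) (nat_lit 5) (.e (nat_lit 1574) (nat_lit 110) (.e (nat_lit 352271) (nat_lit 9) (.e (nat_lit 409603) (nat_lit 0) (.e (nat_lit 5293) (nat_lit 298) .nil))))))) (.g (nat_lit 4) .nil .nil))) 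
(.lf (nat_lit 60502) (.g (nat_lit 3479) (.e (nat_lit 1547) (nat_lit 109) (.e (nat_lit 344117) (nat_lit 21) (.e (nat_lit 516166) (nat_lit 12) (.e (nat_lit 450588) (nat_lit 10) (.e (nat_lit 573475) (nat_lit 12) .nil))))) .nil))) (.nd (nat_lit 6) 
(.lf (nat_lit 60470) (.g (nat_lit 2153) (.e (nat_lit 1545) (nat_lit 109) (.e (nat_lit 344133) (nat_lit 26) (.e (nat_lit 557105) (nat_lit 14) (.e (nat_lit 180234) (nat_lit 1) .nil)))) .nil)) 
(.lf (nat_lit 60534) (.g (nat_lit 2245) (.e (nat_lit 1548) (nat_lit 109) (.e (nat_lit 344130) (nat_lit 26) (.e (nat_lit 557097) (nat_lit 13) (.e (nat_lit 172067) (nat_lit 3) (.e (nat_lit 204809) (nat_lit 9) .nil))))) .nil))))) (.nd (nat_lit 4) (.nd (nat_lit 5) (.nd (nat_lit 6) 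
(.lf (nat_lit 60430) (.g (nat_lit 2027) (.e (nat_lit 1544) (nat_lit 109) (.e (nat_lit 344126) (nat_lit 25) (.e (nat_lit 548874) (nat_lit 5) (.e (nat_lit 1598) (nat_lit 111) (.e (nat_lit 360466) (nat_lit 3) (.e (nat_lit 516105) (nat_lit 0) (.e (nat_lit 7936) (nat_lit 402) .nil))))))) (.g (nat_lit 5) .nil .nil))) 
(.lf (nat_lit 60494) (.g (nat_lit 2613) (.e (nat_lit 1547) (nat_lit 109) (.e (nat_lit 344117) (nat_lit 21) (.e (nat_lit 516151) (nat_lit 9) (.e (nat_lit 426286) (nat_lit 10) .nil)))) .nil))) (.nd (nat_lit 6) 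
(.lf (nat_lit 60462) (.g (nat_lit 1877) (.e (nat_lit 1545) (nat_lit 109) (.e (nat_lit 344133) (nat_lit 26) (.e (nat_lit 557098) (nat_lit 13) (.e (nat_lit 172062) (nat_lit 2) .nil)))) .nil)) 
(.lf (nat_lit 60526) (.g (nat_lit 971) (.e (nat_lit 1548) (nat_lit 109) (.e (nat_lit 344130) (nat_lit 26) (.e (nat_lit 557097) (nat_lit 13) (.e (nat_lit 172062) (nat_lit 2) .nil)))) .nil)))) (.nd (nat_lit 5) (.nd (nat_lit 6) 
(.lf (nat_lit 60446) (.g (nat_lit 3092) (.e (nat_lit 1545) (nat_lit 109) (.e (nat_lit 344117) (nat_lit 21) (.e (nat_lit 516165) (nat_lit 12) (.e (nat_lit 450586) (nat_lit 10) (.e (nat_lit 573473) (nat_lit 12) .nil))))) .nil)) 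
(.lf (nat_lit 60510) (.g (nat_lit 3449) (.e (nat_lit 1548) (nat_lit 109) (.e (nat_lit 344117) (nat_lit 21) (.e (nat_lit 516151) (nat_lit 9) (.e (nat_lit 426286) (nat_lit 10) (.e (nat_lit 434247) (nat_lit 28) .nil))))) .nil))) (.nd (nat_lit 6) 
(.lf (nat_lit 60478) (.g (nat_lit 2427) (.e (nat_lit 1546) (nat_lit 109) (.e (nat_lit 344117) (nat_lit 21) (.e (nat_lit 516165) (nat_lit 12) (.e (nat_lit 450586) (nat_lit 10) .nil)))) .nil)) 
(.lf (nat_lit 60542) (.g (nat_lit 2070) (.e (nat_lit 1548) (nat_lit 109) (.e (nat_lit 344130) (nat_lit 26) (.e (nat_lit 557103) (nat_lit 14) (.e (nat_lit 180250) (nat_lit 10) (.e (nat_lit 581376) (nat_lit 5) .nil))))) .nil)))))))) (.nd (nat_lit 1) (.nd (nat_lit 2) (.nd (nat_lit 3) (.nd (nat_lit 4) (.nd (nat_lit 5) (.nd (nat_lit 6) 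
(.lf (nat_lit 60417) (.g (nat_lit 2710) (.e (nat_lit 1544) (nat_lit 109) (.e (nat_lit 344117) (nat_lit 21) (.e (nat_lit 516151) (nat_lit 9) (.e (nat_lit 426286) (nat_lit 10) (.e (nat_lit 434248) (nat_lit 28) (.e (nat_lit 573475) (nat_lit 12) (.e (nat_lit 57568) (nat_lit 53) (.e (nat_lit 761866) (nat_lit 5) .nil)))))))) (.g (nat_lit 4) .nil .nil))) 
(.lf (nat_lit 60481) (.g (nat_lit 627) (.e (nat_lit 1546) (nat_lit 109) (.e (nat_lit 344133) (nat_lit 26) (.e (nat_lit 557098) (nat_lit 13) .nil))) .nil))) (.nd (nat_lit 6) 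
(.lf (nat_lit 60449) (.g (nat_lit 2532) (.e (nat_lit 1545) (nat_lit 109) (.e (nat_lit 344117) (nat_lit 21) (.e (nat_lit 516166) (nat_lit 12) (.e (nat_lit 450587) (nat_lit 10) .nil)))) .nil)) 
(.lf (nat_lit 60513) (.g (nat_lit 2428) (.e (nat_lit 1548) (nat_lit 109) (.e (nat_lit 344117) (nat_lit 21) (.e (nat_lit 516165) (nat_lit 12) (.e (nat_lit 450586) (nat_lit 10) .nil)))) .nil)))) (.nd (nat_lit 5) (.nd (nat_lit 6) 
(.lf (nat_lit 60433) (.g (nat_lit 2451) (.e (nat_lit 1544) (nat_lit 109) (.e (nat_lit 344133) (nat_lit 26) (.e (nat_lit 557098) (nat_lit 13) (.e (nat_lit 172067) (nat_lit 3) (.e (nat_lit 204809) (nat_lit 9) .nil))))) .nil)) 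
(.lf (nat_lit 60497) (.g (nat_lit 2563) (.e (nat_lit 1547) (nat_lit 109) (.e (nat_lit 344117) (nat_lit 21) (.e (nat_lit 516165) (nat_lit 12) (.e (nat_lit 450579) (nat_lit 5) .nil)))) .nil))) (.nd (nat_lit 6) 
(.lf (nat_lit 60465) (.g (nat_lit 2353) (.e (nat_lit 1545) (nat_lit 109) (.e (nat_lit 344133) (nat_lit 26) (.e (nat_lit 557098) (nat_lit 13) (.e (nat_lit 172133) (nat_lit 15) (.e (nat_lit 2175) (nat_lit 143) .nil))))) .nil)) 
(.lf (nat_lit 60529) (.g (nat_lit 3383) (.e (nat_lit 1548) (nat_lit 109) (.e (nat_lit 344130) (nat_lit 26) (.e (nat_lit 557097) (nat_lit 13) (.e (nat_lit 172063) (nat_lit 2) (.e (nat_lit 196656) (nat_lit 11) (.e (nat_lit 16397) (nat_lit 0) (.e (nat_lit 3289) (nat_lit 201) (.e (nat_lit 565252) (nat_lit 0) .nil)))))))) (.g (nat_lit 7) .nil .nil)))))) 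
(.nd (nat_lit 4) (.nd (nat_lit 5) (.nd (nat_lit 6) 
(.lf (nat_lit 60425) (.g (nat_lit 2909) (.e (nat_lit 1544) (nat_lit 109) (.e (nat_lit 344117) (nat_lit 21) (.e (nat_lit 516166) (nat_lit 12) (.e (nat_lit 450588) (nat_lit 10) (.e (nat_lit 573475) (nat_lit 12) (.e (nat_lit 57568) (nat_lit 53) (.e (nat_lit 761869) (nat_lit 5) .nil))))))) (.g (nat_lit 4) .nil .nil))) 
(.lf (nat_lit 60489) (.g (nat_lit 3543) (.e (nat_lit 1546) (nat_lit 109) (.e (nat_lit 344168) (nat_lit 40) (.e (nat_lit 671759) (nat_lit 3) (.e (nat_lit 57479) (nat_lit 28) (.e (nat_lit 557109) (nat_lit 15) (.e (nat_lit 188458) (nat_lit 25) (.e (nat_lit 245784) (nat_lit 9) .nil))))))) (.g (nat_lit 0) .nil .nil)))) (.nd (nat_lit 6) 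
(.lf (nat_lit 60457) (.g (nat_lit 3410) (.e (nat_lit 1545) (nat_lit 109) (.e (nat_lit 344121) (nat_lit 22) (.e (nat_lit 524322) (nat_lit 12) (.e (nat_lit 450588) (nat_lit 10) (.e (nat_lit 573474) (nat_lit 12) (.e (nat_lit 57572) (nat_lit 54) (.e (nat_lit 770058) (nat_lit 5) .nil))))))) (.g (nat_lit 0) .nil .nil))) 
(.lf (nat_lit 60521) (.g (nat_lit 3478) (.e (nat_lit 1548) (nat_lit 109) (.e (nat_lit 344117) (nat_lit 21) (.e (nat_lit 516166) (nat_lit 12) (.e (nat_lit 450588) (nat_lit 10) (.e (nat_lit 573475) (nat_lit 12) .nil))))) .nil)))) (.nd (nat_lit 5) (.nd (nat_lit 6) 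
(.lf (nat_lit 60441) (.g (nat_lit 3342) (.e (nat_lit 1545) (nat_lit 109) (.e (nat_lit 344117) (nat_lit 21) (.e (nat_lit 516151) (nat_lit 9) (.e (nat_lit 426286) (nat_lit 10) (.e (nat_lit 434245) (nat_lit 28) .nil))))) .nil)) 
(.lf (nat_lit 60505) (.g (nat_lit 1642) (.e (nat_lit 1547) (nat_lit 109) (.e (nat_lit 344133) (nat_lit 26) (.e (nat_lit 557098) (nat_lit 13) (.e (nat_lit 172140) (nat_lit 22) .nil)))) .nil))) (.nd (nat_lit 6) 
(.lf (nat_lit 60473) (.g (nat_lit 1808) (.e (nat_lit 1545) (nat_lit 109) (.e (nat_lit 344133) (nat_lit 26) (.e (nat_lit 557105) (nat_lit 14) (.e (nat_lit 180252) (nat_lit 10) .nil)))) .nil)) 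
(.lf (nat_lit 60537) (.g (nat_lit 1358) (.e (nat_lit 1548) (nat_lit 109) (.e (nat_lit 344130) (nat_lit 26) (.e (nat_lit 557103) (nat_lit 14) (.e (nat_lit 180235) (nat_lit 1) .nil)))) .nil)))))) (.nd (nat_lit 3) (.nd (nat_lit 4) (.nd (nat_lit 5) (.nd (nat_lit 6) 
(.lf (nat_lit 60421) (.g (nat_lit 4132) (.e (nat_lit 1544) (nat_lit 109) (.e (nat_lit 344117) (nat_lit 21) (.e (nat_lit 516165) (nat_lit 12) (.e (nat_lit 450588) (nat_lit 10) (.e (nat_lit 573473) (nat_lit 12) .nil))))) .nil)) 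
(.lf (nat_lit 60485) (.g (nat_lit 1697) (.e (nat_lit 1546) (nat_lit 109) (.e (nat_lit 344133) (nat_lit 26) (.e (nat_lit 557098) (nat_lit 13) (.e (nat_lit 172142) (nat_lit 24) .nil)))) .nil))) (.nd (nat_lit 6) 
(.lf (nat_lit 60453) (.g (nat_lit 2280) (.e (nat_lit 1545) (nat_lit 109) (.e (nat_lit 344117) (nat_lit 21) (.e (nat_lit 516166) (nat_lit 12) (.e (nat_lit 450588) (nat_lit 10) .nil)))) .nil)) 
(.lf (nat_lit 60517) (.g (nat_lit 2571) (.e (nat_lit 1548) (nat_lit 109) (.e (nat_lit 344117) (nat_lit 21) (.e (nat_lit 516166) (nat_lit 12) (.e (nat_lit 450587) (nat_lit 10) .nil)))) .nil)))) (.nd (nat_lit 5) (.nd (nat_lit 6) 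
(.lf (nat_lit 60437) (.g (nat_lit 819) (.e (nat_lit 1544) (nat_lit 109) (.e (nat_lit 344174) (nat_lit 42) (.e (nat_lit 761866) (nat_lit 5) (.e (nat_lit 1574) (nat_lit 110) .nil)))) .nil)) 
(.lf (nat_lit 60501) (.g (nat_lit 2281) (.e (nat_lit 1547) (nat_lit 109) (.e (nat_lit 344117) (nat_lit 21) (.e (nat_lit 516166) (nat_lit 12) (.e (nat_lit 450588) (nat_lit 10) .nil)))) .nil))) (.nd (nat_lit 6) 
(.lf (nat_lit 60469) (.g (nat_lit 776) (.e (nat_lit 1545) (nat_lit 109) (.e (nat_lit 344133) (nat_lit 26) (.e (nat_lit 557105) (nat_lit 14) .nil))) .nil)) 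
(.lf (nat_lit 60533) (.g (nat_lit 1866) (.e (nat_lit 1548) (nat_lit 109) (.e (nat_lit 344130) (nat_lit 26) (.e (nat_lit 557097) (nat_lit 13) (.e (nat_lit 172064) (nat_lit 2) (.e (nat_lit 196686) (nat_lit 18) .nil))))) .nil))))) (.nd (nat_lit 4) (.nd (nat_lit 5) (.nd (nat_lit 6) 
(.lf (nat_lit 60429) (.g (nat_lit 2081) (.e (nat_lit 1544) (nat_lit 109) (.e (nat_lit 344126) (nat_lit 25) (.e (nat_lit 548874) (nat_lit 5) (.e (nat_lit 1598) (nat_lit 111) (.e (nat_lit 360466) (nat_lit 3) (.e (nat_lit 516104) (nat_lit 0) (.e (nat_lit 7936) (nat_lit 402) .nil))))))) (.g (nat_lit 5) .nil .nil))) 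
(.lf (nat_lit 60493) (.g (nat_lit 4958) (.e (nat_lit 1547) (nat_lit 109) (.e (nat_lit 344117) (nat_lit 21) (.e (nat_lit 516151) (nat_lit 9) (.e (nat_lit 426211) (nat_lit 9) .nil)))) .nil))) (.nd (nat_lit 6) 
(.lf (nat_lit 60461) (.g (nat_lit 627) (.e (nat_lit 1545) (nat_lit 109) (.e (nat_lit 344133) (nat_lit 26) (.e (nat_lit 557098) (nat_lit 13) .nil))) .nil)) 
(.lf (nat_lit 60525) (.g (nat_lit 1091) (.e (nat_lit 1548) (nat_lit 109) (.e (nat_lit 344130) (nat_lit 26) (.e (nat_lit 557097) (nat_lit 13) (.e (nat_lit 172045) (nat_lit 0) .nil)))) .nil)))) (.nd (nat_lit 5) (.nd (nat_lit 6) 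
(.lf (nat_lit 60445) (.g (nat_lit 2428) (.e (nat_lit 1545) (nat_lit 109) (.e (nat_lit 344117) (nat_lit 21) (.e (nat_lit 516165) (nat_lit 12) (.e (nat_lit 450586) (nat_lit 10) .nil)))) .nil)) 
(.lf (nat_lit 60509) (.g (nat_lit 3344) (.e (nat_lit 1548) (nat_lit 109) (.e (nat_lit 344117) (nat_lit 21) (.e (nat_lit 516151) (nat_lit 9) (.e (nat_lit 426286) (nat_lit 10) (.e (nat_lit 434245) (nat_lit 28) .nil))))) .nil))) (.nd (nat_lit 6) 
(.lf (nat_lit 60477) (.g (nat_lit 2563) (.e (nat_lit 1546) (nat_lit 109) (.e (nat_lit 344117) (nat_lit 21) (.e (nat_lit 516165) (nat_lit 12) (.e (nat_lit 450579) (nat_lit 5) .nil)))) .nil)) 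
(.lf (nat_lit 60541) (.g (nat_lit 2541) (.e (nat_lit 1548) (nat_lit 109) (.e (nat_lit 344130) (nat_lit 26) (.e (nat_lit 557103) (nat_lit 14) (.e (nat_lit 180244) (nat_lit 5) (.e (nat_lit 532579) (nat_lit 26) (.e (nat_lit 426035) (nat_lit 0) (.e (nat_lit 3289) (nat_lit 201) (.e (nat_lit 565252) (nat_lit 0) .nil)))))))) (.g (nat_lit 5) .nil .nil)))))))) 
(.nd (nat_lit 2) (.nd (nat_lit 3) (.nd (nat_lit 4) (.nd (nat_lit 5) (.nd (nat_lit 6) 
(.lf (nat_lit 60419) (.g (nat_lit 2544) (.e (nat_lit 1544) (nat_lit 109) (.e (nat_lit 344117) (nat_lit 21) (.e (nat_lit 516165) (nat_lit 12) (.e (nat_lit 450586) (nat_lit 10) (.e (nat_lit 573475) (nat_lit 12) .nil))))) .nil)) 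
(.lf (nat_lit 60483) (.g (nat_lit 2120) (.e (nat_lit 1546) (nat_lit 109) (.e (nat_lit 344133) (nat_lit 26) (.e (nat_lit 557098) (nat_lit 13) (.e (nat_lit 172140) (nat_lit 22) (.e (nat_lit 139281) (nat_lit 5) (.e (nat_lit 73757) (nat_lit 11) (.e (nat_lit 581659) (nat_lit 9) .nil))))))) (.g (nat_lit 4) .nil .nil)))) (.nd (nat_lit 6) 
(.lf (nat_lit 60451) (.g (nat_lit 4731) (.e (nat_lit 1545) (nat_lit 109) (.e (nat_lit 344117) (nat_lit 21) (.e (nat_lit 516166) (nat_lit 12) (.e (nat_lit 450587) (nat_lit 10) (.e (nat_lit 573475) (nat_lit 12) .nil))))) .nil)) 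
(.lf (nat_lit 60515) (.g (nat_lit 3196) (.e (nat_lit 1548) (nat_lit 109) (.e (nat_lit 344117) (nat_lit 21) (.e (nat_lit 516165) (nat_lit 12) (.e (nat_lit 450586) (nat_lit 10) (.e (nat_lit 573475) (nat_lit 12) .nil))))) .nil)))) (.nd (nat_lit 5) (.nd (nat_lit 6) 
(.lf (nat_lit 60435) (.g (nat_lit 1978) (.e (nat_lit 1544) (nat_lit 109) (.e (nat_lit 344156) (nat_lit 36) (.e (nat_lit 638998) (nat_lit 8) (.e (nat_lit 172037) (nat_lit 0) (.e (nat_lit 7107) (nat_lit 380) (.e (nat_lit 164281) (nat_lit 222) (.e (nat_lit 57884) (nat_lit 270) .nil))))))) (.g (nat_lit 6) .nil .nil))) 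
(.lf (nat_lit 60499) (.g (nat_lit 2427) (.e (nat_lit 1547) (nat_lit 109) (.e (nat_lit 344117) (nat_lit 21) (.e (nat_lit 516165) (nat_lit 12) (.e (nat_lit 450586) (nat_lit 10) .nil)))) .nil))) (.nd (nat_lit 6) 
(.lf (nat_lit 60467) (.g (nat_lit 2556) (.e (nat_lit 1545) (nat_lit 109) (.e (nat_lit 344133) (nat_lit 26) (.e (nat_lit 557098) (nat_lit 13) (.e (nat_lit 172133) (nat_lit 15) (.e (nat_lit 2175) (nat_lit 143) (.e (nat_lit 712749) (nat_lit 28) (.e (nat_lit 434289) (nat_lit 43) (.e (nat_lit 696350) (nat_lit 13) .nil)))))))) (.g (nat_lit 4) .nil .nil))) 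
(.lf (nat_lit 60531) (.g (nat_lit 1868) (.e (nat_lit 1548) (nat_lit 109) (.e (nat_lit 344130) (nat_lit 26) (.e (nat_lit 557097) (nat_lit 13) (.e (nat_lit 172064) (nat_lit 2) (.e (nat_lit 196652) (nat_lit 11) .nil))))) .nil))))) (.nd (nat_lit 4) (.nd (nat_lit 5) (.nd (nat_lit 6) 
(.lf (nat_lit 60427) (.g (nat_lit 416) (.e (nat_lit 1544) (nat_lit 109) (.e (nat_lit 344126) (nat_lit 25) (.e (nat_lit 548874) (nat_lit 5) .nil))) .nil)) 
(.lf (nat_lit 60491) (.g (nat_lit 3476) (.e (nat_lit 1546) (nat_lit 109) (.e (nat_lit 344169) (nat_lit 40) (.e (nat_lit 671759) (nat_lit 3) (.e (nat_lit 57479) (nat_lit 28) (.e (nat_lit 557109) (nat_lit 15) (.e (nat_lit 188458) (nat_lit 25) (.e (nat_lit 245784) (nat_lit 9) .nil))))))) (.g (nat_lit 0) .nil .nil)))) (.nd (nat_lit 6) 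
(.lf (nat_lit 60459) (.g (nat_lit 1834) (.e (nat_lit 1545) (nat_lit 109) (.e (nat_lit 344126) (nat_lit 25) (.e (nat_lit 548889) (nat_lit 9) (.e (nat_lit 65619) (nat_lit 10) .nil)))) .nil)) 
(.lf (nat_lit 60523) (.g (nat_lit 1396) (.e (nat_lit 1548) (nat_lit 109) (.e (nat_lit 344130) (nat_lit 26) (.e (nat_lit 557096) (nat_lit 13) (.e (nat_lit 172064) (nat_lit 2) (.e (nat_lit 204544) (nat_lit 2) (.e (nat_lit 24580) (nat_lit 0) (.e (nat_lit 1872) (nat_lit 126) (.e (nat_lit 573451) (nat_lit 9) .nil)))))))) (.g (nat_lit 4) .nil .nil))))) (.nd (nat_lit 5) (.nd (nat_lit 6) 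
(.lf (nat_lit 60443) (.g (nat_lit 3414) (.e (nat_lit 1545) (nat_lit 109) (.e (nat_lit 344117) (nat_lit 21) (.e (nat_lit 516151) (nat_lit 9) (.e (nat_lit 426286) (nat_lit 10) (.e (nat_lit 434248) (nat_lit 28) .nil))))) .nil)) 
(.lf (nat_lit 60507) (.g (nat_lit 4959) (.e (nat_lit 1548) (nat_lit 109) (.e (nat_lit 344117) (nat_lit 21) (.e (nat_lit 516151) (nat_lit 9) (.e (nat_lit 426211) (nat_lit 9) .nil)))) .nil))) (.nd (nat_lit 6) 
(.lf (nat_lit 60475) (.g (nat_lit 2614) (.e (nat_lit 1546) (nat_lit 109) (.e (nat_lit 344117) (nat_lit 21) (.e (nat_lit 516151) (nat_lit 9) (.e (nat_lit 426286) (nat_lit 10) .nil)))) .nil)) 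
(.lf (nat_lit 60539) (.g (nat_lit 1120) (.e (nat_lit 1548) (nat_lit 109) (.e (nat_lit 344130) (nat_lit 26) (.e (nat_lit 557103) (nat_lit 14) (.e (nat_lit 188160) (nat_lit 3) .nil)))) .nil)))))) (.nd (nat_lit 3) (.nd (nat_lit 4) (.nd (nat_lit 5) (.nd (nat_lit 6) 
(.lf (nat_lit 60423) (.g (nat_lit 2861) (.e (nat_lit 1544) (nat_lit 109) (.e (nat_lit 344117) (nat_lit 21) (.e (nat_lit 516166) (nat_lit 12) (.e (nat_lit 450588) (nat_lit 10) (.e (nat_lit 573473) (nat_lit 12) .nil))))) .nil)) 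
(.lf (nat_lit 60487) (.g (nat_lit 3124) (.e (nat_lit 1546) (nat_lit 109) (.e (nat_lit 344133) (nat_lit 26) (.e (nat_lit 557105) (nat_lit 14) (.e (nat_lit 180252) (nat_lit 10) (.e (nat_lit 573474) (nat_lit 12) .nil))))) .nil))) (.nd (nat_lit 6) 
(.lf (nat_lit 60455) (.g (nat_lit 3478) (.e (nat_lit 1545) (nat_lit 109) (.e (nat_lit 344117) (nat_lit 21) (.e (nat_lit 516166) (nat_lit 12) (.e (nat_lit 450588) (nat_lit 10) (.e (nat_lit 573475) (nat_lit 12) .nil))))) .nil)) 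
(.lf (nat_lit 60519) (.g (nat_lit 2280) (.e (nat_lit 1548) (nat_lit 109) (.e (nat_lit 344117) (nat_lit 21) (.e (nat_lit 516166) (nat_lit 12) (.e (nat_lit 450588) (nat_lit 10) .nil)))) .nil)))) (.nd (nat_lit 5) (.nd (nat_lit 6) 
(.lf (nat_lit 60439) (.g (nat_lit 4958) (.e (nat_lit 1545) (nat_lit 109) (.e (nat_lit 344117) (nat_lit 21) (.e (nat_lit 516151) (nat_lit 9) (.e (nat_lit 426211) (nat_lit 9) .nil)))) .nil)) 
(.lf (nat_lit 60503) (.g (nat_lit 1852) (.e (nat_lit 1547) (nat_lit 109) (.e (nat_lit 344130) (nat_lit 26) (.e (nat_lit 557097) (nat_lit 13) (.e (nat_lit 172064) (nat_lit 2) (.e (nat_lit 204544) (nat_lit 2) .nil))))) .nil))) (.nd (nat_lit 6) 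
(.lf (nat_lit 60471) (.g (nat_lit 2150) (.e (nat_lit 1545) (nat_lit 109) (.e (nat_lit 344133) (nat_lit 26) (.e (nat_lit 557105) (nat_lit 14) (.e (nat_lit 180237) (nat_lit 1) .nil)))) .nil)) 
(.lf (nat_lit 60535) (.g (nat_lit 3623) (.e (nat_lit 1548) (nat_lit 109) (.e (nat_lit 344130) (nat_lit 26) (.e (nat_lit 557097) (nat_lit 13) (.e (nat_lit 172133) (nat_lit 15) (.e (nat_lit 2175) (nat_lit 143) (.e (nat_lit 712749) (nat_lit 28) (.e (nat_lit 434289) (nat_lit 43) (.e (nat_lit 696350) (nat_lit 13) .nil)))))))) (.g (nat_lit 8) .nil .nil)))))) 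
(.nd (nat_lit 4) (.nd (nat_lit 5) (.nd (nat_lit 6) 
(.lf (nat_lit 60431) (.g (nat_lit 554) (.e (nat_lit 1544) (nat_lit 109) (.e (nat_lit 344126) (nat_lit 25) (.e (nat_lit 548891) (nat_lit 11) .nil))) .nil)) 
(.lf (nat_lit 60495) (.g (nat_lit 3344) (.e (nat_lit 1547) (nat_lit 109) (.e (nat_lit 344117) (nat_lit 21) (.e (nat_lit 516151) (nat_lit 9) (.e (nat_lit 426286) (nat_lit 10) (.e (nat_lit 434245) (nat_lit 28) .nil))))) .nil))) (.nd (nat_lit 6) 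
(.lf (nat_lit 60463) (.g (nat_lit 1775) (.e (nat_lit 1545) (nat_lit 109) (.e (nat_lit 344133) (nat_lit 26) (.e (nat_lit 557098) (nat_lit 13) (.e (nat_lit 172064) (nat_lit 2) .nil)))) .nil)) 
(.lf (nat_lit 60527) (.g (nat_lit 1195) (.e (nat_lit 1548) (nat_lit 109) (.e (nat_lit 344130) (nat_lit 26) (.e (nat_lit 557097) (nat_lit 13) (.e (nat_lit 172062) (nat_lit 2) (.e (nat_lit 196652) (nat_lit 11) .nil))))) .nil)))) (.nd (nat_lit 5) (.nd (nat_lit 6) 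
(.lf (nat_lit 60447) (.g (nat_lit 3196) (.e (nat_lit 1545) (nat_lit 109) (.e (nat_lit 344117) (nat_lit 21) (.e (nat_lit 516165) (nat_lit 12) (.e (nat_lit 450586) (nat_lit 10) (.e (nat_lit 573475) (nat_lit 12) .nil))))) .nil)) 
(.lf (nat_lit 60511) (.g (nat_lit 3417) (.e (nat_lit 1548) (nat_lit 109) (.e (nat_lit 344117) (nat_lit 21) (.e (nat_lit 516151) (nat_lit 9) (.e (nat_lit 426286) (nat_lit 10) (.e (nat_lit 434248) (nat_lit 28) .nil))))) .nil))) (.nd (nat_lit 6) 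
(.lf (nat_lit 60479) (.g (nat_lit 2579) (.e (nat_lit 1546) (nat_lit 109) (.e (nat_lit 344117) (nat_lit 21) (.e (nat_lit 516166) (nat_lit 12) (.e (nat_lit 458496) (nat_lit 3) .nil)))) .nil)) 
(.lf (nat_lit 60543) (.g (nat_lit 1556) (.e (nat_lit 1548) (nat_lit 109) (.e (nat_lit 344130) (nat_lit 26) (.e (nat_lit 557104) (nat_lit 14) (.e (nat_lit 180227) (nat_lit 0) (.e (nat_lit 5945) (nat_lit 322) .nil))))) .nil)))))))))

noncomputable def tv830 : DT := (.nd (nat_lit 0) (.nd (nat_lit 1) (.nd (nat_lit 2) (.nd (nat_lit 3) (.nd (nat_lit 4) (.nd (nat_lit 5) (.nd (nat_lit 6) 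
(.lf (nat_lit 60544) (.g (nat_lit 2075) (.e (nat_lit 1548) (nat_lit 109) (.e (nat_lit 344130) (nat_lit 26) (.e (nat_lit 557104) (nat_lit 14) (.e (nat_lit 180229) (nat_lit 0) (.e (nat_lit 5815) (nat_lit 320) .nil))))) .nil)) 
(.lf (nat_lit 60608) (.g (nat_lit 674) (.e (nat_lit 1549) (nat_lit 109) (.e (nat_lit 344097) (nat_lit 18) (.e (nat_lit 5907) (nat_lit 320) .nil))) .nil))) (.nd (nat_lit 6) 
(.lf (nat_lit 60576) (.g (nat_lit 1482) (.e (nat_lit 1548) (nat_lit 109) (.e (nat_lit 344133) (nat_lit 26) (.e (nat_lit 557098) (nat_lit 13) (.e (nat_lit 179968) (nat_lit 2) .nil)))) .nil)) 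
(.lf (nat_lit 60640) (.g (nat_lit 2635) (.e (nat_lit 1549) (nat_lit 109) (.e (nat_lit 344117) (nat_lit 21) (.e (nat_lit 516151) (nat_lit 9) (.e (nat_lit 426286) (nat_lit 10) (.e (nat_lit 434247) (nat_lit 28) (.e (nat_lit 573477) (nat_lit 12) (.e (nat_lit 57351) (nat_lit 0) (.e (nat_lit 7125) (nat_lit 382) (.e (nat_lit 1016) (nat_lit 81) .nil))))))))) (.g (nat_lit 4) .nil .nil))))) 
(.nd (nat_lit 5) (.nd (nat_lit 6) 
(.lf (nat_lit 60560) (.g (nat_lit 1882) (.e (nat_lit 1548) (nat_lit 109) (.e (nat_lit 344132) (nat_lit 26) (.e (nat_lit 557100) (nat_lit 13) (.e (nat_lit 172138) (nat_lit 15) .nil)))) .nil)) 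
(.lf (nat_lit 60624) (.g (nat_lit 5077) (.e (nat_lit 1549) (nat_lit 109) (.e (nat_lit 344117) (nat_lit 21) (.e (nat_lit 516151) (nat_lit 9) (.e (nat_lit 426211) (nat_lit 9) (.e (nat_lit 426125) (nat_lit 2) (.e (nat_lit 196686) (nat_lit 18) (.e (nat_lit 1116) (nat_lit 82) (.e (nat_lit 8418) (nat_lit 132) (.e (nat_lit 1014) (nat_lit 81) .nil))))))))) (.g (nat_lit 4) .nil .nil)))) (.nd (nat_lit 6) 
(.lf (nat_lit 60592) (.g (nat_lit 383) (.e (nat_lit 1548) (nat_lit 109) (.e (nat_lit 344133) (nat_lit 26) (.e (nat_lit 557105) (nat_lit 14) .nil))) .nil)) 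
(.lf (nat_lit 60656) (.g (nat_lit 2631) (.e (nat_lit 1549) (nat_lit 109) (.e (nat_lit 344117) (nat_lit 21) (.e (nat_lit 516165) (nat_lit 12) (.e (nat_lit 450579) (nat_lit 5) (.e (nat_lit 532484) (nat_lit 0) .nil))))) .nil))))) (.nd (nat_lit 4) (.nd (nat_lit 5) (.nd (nat_lit 6) 
(.lf (nat_lit 60552) (.g (nat_lit 1439) (.e (nat_lit 1548) (nat_lit 109) (.e (nat_lit 344130) (nat_lit 26) (.e (nat_lit 557104) (nat_lit 14) (.e (nat_lit 180236) (nat_lit 1) (.e (nat_lit 500048) (nat_lit 16) .nil))))) .nil)) 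
(.lf (nat_lit 60616) (.g (nat_lit 2450) (.e (nat_lit 1549) (nat_lit 109) (.e (nat_lit 344117) (nat_lit 21) (.e (nat_lit 516130) (nat_lit 3) (.e (nat_lit 221215) (nat_lit 23) (.e (nat_lit 204830) (nat_lit 18) (.e (nat_lit 57927) (nat_lit 282) (.e (nat_lit 163866) (nat_lit 2) (.e (nat_lit 196630) (nat_lit 9) .nil)))))))) (.g (nat_lit 4) .nil .nil)))) (.nd (nat_lit 6) 
(.lf (nat_lit 60584) (.g (nat_lit 2001) (.e (nat_lit 1548) (nat_lit 109) (.e (nat_lit 344133) (nat_lit 26) (.e (nat_lit 557098) (nat_lit 13) (.e (nat_lit 172142) (nat_lit 24) (.e (nat_lit 155652) (nat_lit 0) .nil))))) .nil)) 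
(.lf (nat_lit 60648) (.g (nat_lit 4136) (.e (nat_lit 1549) (nat_lit 109) (.e (nat_lit 344117) (nat_lit 21) (.e (nat_lit 516151) (nat_lit 9) (.e (nat_lit 426286) (nat_lit 10) (.e (nat_lit 434248) (nat_lit 28) (.e (nat_lit 573473) (nat_lit 12) (.e (nat_lit 57353) (nat_lit 0) (.e (nat_lit 7122) (nat_lit 382) (.e (nat_lit 1016) (nat_lit 81) .nil))))))))) (.g (nat_lit 7) .nil .nil))))) 
(.nd (nat_lit 5) (.nd (nat_lit 6) 
(.lf (nat_lit 60568) (.g (nat_lit 2128) (.e (nat_lit 1548) (nat_lit 109) (.e (nat_lit 344133) (nat_lit 26) (.e (nat_lit 557098) (nat_lit 13) (.e (nat_lit 172062) (nat_lit 2) (.e (nat_lit 196655) (nat_lit 11) .nil))))) .nil)) 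
(.lf (nat_lit 60632) (.g (nat_lit 4427) (.e (nat_lit 1549) (nat_lit 109) (.e (nat_lit 344117) (nat_lit 21) (.e (nat_lit 516151) (nat_lit 9) (.e (nat_lit 426286) (nat_lit 10) (.e (nat_lit 434245) (nat_lit 28) (.e (nat_lit 573474) (nat_lit 12) (.e (nat_lit 57348) (nat_lit 0) (.e (nat_lit 7125) (nat_lit 382) (.e (nat_lit 999) (nat_lit 81) .nil))))))))) (.g (nat_lit 6) .nil .nil)))) (.nd (nat_lit 6) 
(.lf (nat_lit 60600) (.g (nat_lit 1288) (.e (nat_lit 1548) (nat_lit 109) (.e (nat_lit 344133) (nat_lit 26) (.e (nat_lit 557105) (nat_lit 14) (.e (nat_lit 188160) (nat_lit 3) .nil)))) .nil)) 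
(.lf (nat_lit 60664) (.g (nat_lit 3128) (.e (nat_lit 1549) (nat_lit 109) (.e (nat_lit 344117) (nat_lit 21) (.e (nat_lit 516165) (nat_lit 12) (.e (nat_lit 450586) (nat_lit 10) (.e (nat_lit 573473) (nat_lit 12) (.e (nat_lit 57348) (nat_lit 0) (.e (nat_lit 7125) (nat_lit 382) (.e (nat_lit 999) (nat_lit 81) .nil)))))))) (.g (nat_lit 5) .nil .nil))))))) 
(.nd (nat_lit 3) (.nd (nat_lit 4) (.nd (nat_lit 5) (.nd (nat_lit 6) 
(.lf (nat_lit 60548) (.g (nat_lit 1223) (.e (nat_lit 1548) (nat_lit 109) (.e (nat_lit 344130) (nat_lit 26) (.e (nat_lit 557104) (nat_lit 14) (.e (nat_lit 180235) (nat_lit 1) .nil)))) .nil)) 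
(.lf (nat_lit 60612) (.g (nat_lit 894) (.e (nat_lit 1549) (nat_lit 109) (.e (nat_lit 344117) (nat_lit 21) (.e (nat_lit 516130) (nat_lit 3) .nil))) .nil))) (.nd (nat_lit 6) 
(.lf (nat_lit 60580) (.g (nat_lit 1568) (.e (nat_lit 1548) (nat_lit 109) (.e (nat_lit 344133) (nat_lit 26) (.e (nat_lit 557098) (nat_lit 13) (.e (nat_lit 172127) (nat_lit 15) .nil)))) .nil)) 
(.lf (nat_lit 60644) (.g (nat_lit 2603) (.e (nat_lit 1549) (nat_lit 109) (.e (nat_lit 344117) (nat_lit 21) (.e (nat_lit 516151) (nat_lit 9) (.e (nat_lit 426286) (nat_lit 10) (.e (nat_lit 434247) (nat_lit 28) (.e (nat_lit 573477) (nat_lit 12) (.e (nat_lit 57570) (nat_lit 54) (.e (nat_lit 770056) (nat_lit 5) .nil)))))))) (.g (nat_lit 4) .nil .nil))))) (.nd (nat_lit 5) (.nd (nat_lit 6) 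
(.lf (nat_lit 60564) (.g (nat_lit 492) (.e (nat_lit 1548) (nat_lit 109) (.e (nat_lit 344133) (nat_lit 26) (.e (nat_lit 557098) (nat_lit 13) .nil))) .nil)) 
(.lf (nat_lit 60628) (.g (nat_lit 2491) (.e (nat_lit 1549) (nat_lit 109) (.e (nat_lit 344117) (nat_lit 21) (.e (nat_lit 516151) (nat_lit 9) (.e (nat_lit 426286) (nat_lit 10) (.e (nat_lit 434245) (nat_lit 28) .nil))))) .nil))) (.nd (nat_lit 6) 
(.lf (nat_lit 60596) (.g (nat_lit 1683) (.e (nat_lit 1548) (nat_lit 109) (.e (nat_lit 344133) (nat_lit 26) (.e (nat_lit 557105) (nat_lit 14) (.e (nat_lit 180233) (nat_lit 0) .nil)))) .nil)) 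
(.lf (nat_lit 60660) (.g (nat_lit 2243) (.e (nat_lit 1549) (nat_lit 109) (.e (nat_lit 344117) (nat_lit 21) (.e (nat_lit 516165) (nat_lit 12) (.e (nat_lit 450586) (nat_lit 10) (.e (nat_lit 573473) (nat_lit 12) .nil))))) .nil))))) (.nd (nat_lit 4) (.nd (nat_lit 5) (.nd (nat_lit 6) 
(.lf (nat_lit 60556) (.g (nat_lit 994) (.e (nat_lit 1548) (nat_lit 109) (.e (nat_lit 344132) (nat_lit 26) (.e (nat_lit 557093) (nat_lit 12) (.e (nat_lit 164239) (nat_lit 187) .nil)))) .nil)) 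
(.lf (nat_lit 60620) (.g (nat_lit 3510) (.e (nat_lit 1549) (nat_lit 109) (.e (nat_lit 344117) (nat_lit 21) (.e (nat_lit 516151) (nat_lit 9) (.e (nat_lit 426170) (nat_lit 7) .nil)))) .nil))) (.nd (nat_lit 6) 
(.lf (nat_lit 60588) (.g (nat_lit 1625) (.e (nat_lit 1548) (nat_lit 109) (.e (nat_lit 344133) (nat_lit 26) (.e (nat_lit 557103) (nat_lit 14) (.e (nat_lit 180236) (nat_lit 1) .nil)))) .nil)) 
(.lf (nat_lit 60652) (.g (nat_lit 3395) (.e (nat_lit 1549) (nat_lit 109) (.e (nat_lit 344117) (nat_lit 21) (.e (nat_lit 516151) (nat_lit 9) (.e (nat_lit 426286) (nat_lit 10) (.e (nat_lit 434248) (nat_lit 28) (.e (nat_lit 573475) (nat_lit 12) (.e (nat_lit 57353) (nat_lit 0) (.e (nat_lit 7125) (nat_lit 382) (.e (nat_lit 999) (nat_lit 81) .nil))))))))) (.g (nat_lit 5) .nil .nil))))) 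
(.nd (nat_lit 5) (.nd (nat_lit 6) 
(.lf (nat_lit 60572) (.g (nat_lit 2553) (.e (nat_lit 1548) (nat_lit 109) (.e (nat_lit 344133) (nat_lit 26) (.e (nat_lit 557098) (nat_lit 13) (.e (nat_lit 172064) (nat_lit 2) (.e (nat_lit 196652) (nat_lit 11) .nil))))) .nil)) 
(.lf (nat_lit 60636) (.g (nat_lit 4154) (.e (nat_lit 1549) (nat_lit 109) (.e (nat_lit 344117) (nat_lit 21) (.e (nat_lit 516151) (nat_lit 9) (.e (nat_lit 426286) (nat_lit 10) (.e (nat_lit 434245) (nat_lit 28) (.e (nat_lit 573474) (nat_lit 12) (.e (nat_lit 57570) (nat_lit 54) (.e (nat_lit 770055) (nat_lit 5) .nil)))))))) (.g (nat_lit 6) .nil .nil)))) (.nd (nat_lit 6) 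
(.lf (nat_lit 60604) (.g (nat_lit 2266) (.e (nat_lit 1548) (nat_lit 109) (.e (nat_lit 344133) (nat_lit 26) (.e (nat_lit 557105) (nat_lit 14) (.e (nat_lit 180252) (nat_lit 10) (.e (nat_lit 581376) (nat_lit 5) .nil))))) .nil)) 
(.lf (nat_lit 60668) (.g (nat_lit 2937) (.e (nat_lit 1549) (nat_lit 109) (.e (nat_lit 344117) (nat_lit 21) (.e (nat_lit 516165) (nat_lit 12) (.e (nat_lit 450586) (nat_lit 10) (.e (nat_lit 573474) (nat_lit 12) .nil))))) .nil))))))) (.nd (nat_lit 2) (.nd (nat_lit 3) (.nd (nat_lit 4) (.nd (nat_lit 5) (.nd (nat_lit 6) 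
(.lf (nat_lit 60546) (.g (nat_lit 1563) (.e (nat_lit 1548) (nat_lit 109) (.e (nat_lit 344130) (nat_lit 26) (.e (nat_lit 557104) (nat_lit 14) (.e (nat_lit 180233) (nat_lit 0) (.e (nat_lit 5948) (nat_lit 322) .nil))))) .nil)) 
(.lf (nat_lit 60610) (.g (nat_lit 1905) (.e (nat_lit 1549) (nat_lit 109) (.e (nat_lit 344117) (nat_lit 21) (.e (nat_lit 516129) (nat_lit 3) (.e (nat_lit 221214) (nat_lit 23) .nil)))) .nil))) (.nd (nat_lit 6) 
(.lf (nat_lit 60578) (.g (nat_lit 2423) (.e (nat_lit 1548) (nat_lit 109) (.e (nat_lit 344133) (nat_lit 26) (.e (nat_lit 557098) (nat_lit 13) (.e (nat_lit 172067) (nat_lit 3) (.e (nat_lit 204809) (nat_lit 9) .nil))))) .nil)) 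
(.lf (nat_lit 60642) (.g (nat_lit 3682) (.e (nat_lit 1549) (nat_lit 109) (.e (nat_lit 344117) (nat_lit 21) (.e (nat_lit 516151) (nat_lit 9) (.e (nat_lit 426286) (nat_lit 10) (.e (nat_lit 434247) (nat_lit 28) (.e (nat_lit 573477) (nat_lit 12) (.e (nat_lit 57353) (nat_lit 0) (.e (nat_lit 7125) (nat_lit 382) (.e (nat_lit 1016) (nat_lit 81) .nil))))))))) (.g (nat_lit 6) .nil .nil))))) 
(.nd (nat_lit 5) (.nd (nat_lit 6) 
(.lf (nat_lit 60562) (.g (nat_lit 2137) (.e (nat_lit 1548) (nat_lit 109) (.e (nat_lit 344133) (nat_lit 26) (.e (nat_lit 557091) (nat_lit 12) (.e (nat_lit 164238) (nat_lit 187) (.e (nat_lit 1661) (nat_lit 115) .nil))))) .nil)) 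
(.lf (nat_lit 60626) (.g (nat_lit 2646) (.e (nat_lit 1549) (nat_lit 109) (.e (nat_lit 344117) (nat_lit 21) (.e (nat_lit 516151) (nat_lit 9) (.e (nat_lit 426286) (nat_lit 10) (.e (nat_lit 434242) (nat_lit 28) .nil))))) .nil))) (.nd (nat_lit 6) 
(.lf (nat_lit 60594) (.g (nat_lit 2261) (.e (nat_lit 1548) (nat_lit 109) (.e (nat_lit 344133) (nat_lit 26) (.e (nat_lit 557105) (nat_lit 14) (.e (nat_lit 180227) (nat_lit 0) (.e (nat_lit 5945) (nat_lit 322) .nil))))) .nil)) 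
(.lf (nat_lit 60658) (.g (nat_lit 3573) (.e (nat_lit 1549) (nat_lit 109) (.e (nat_lit 344117) (nat_lit 21) (.e (nat_lit 516165) (nat_lit 12) (.e (nat_lit 450579) (nat_lit 5) (.e (nat_lit 532501) (nat_lit 1) (.e (nat_lit 57766) (nat_lit 221) (.e (nat_lit 1009) (nat_lit 81) .nil))))))) (.g (nat_lit 5) .nil .nil)))))) (.nd (nat_lit 4) (.nd (nat_lit 5) (.nd (nat_lit 6) 
(.lf (nat_lit 60554) (.g (nat_lit 1214) (.e (nat_lit 1548) (nat_lit 109) (.e (nat_lit 344130) (nat_lit 26) (.e (nat_lit 557104) (nat_lit 14) (.e (nat_lit 180237) (nat_lit 1) .nil)))) .nil)) 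
(.lf (nat_lit 60618) (.g (nat_lit 1793) (.e (nat_lit 1549) (nat_lit 109) (.e (nat_lit 344117) (nat_lit 21) (.e (nat_lit 516139) (nat_lit 7) (.e (nat_lit 409641) (nat_lit 17) .nil)))) .nil))) (.nd (nat_lit 6) 
(.lf (nat_lit 60586) (.g (nat_lit 1586) (.e (nat_lit 1548) (nat_lit 109) (.e (nat_lit 344133) (nat_lit 26) (.e (nat_lit 557103) (nat_lit 14) (.e (nat_lit 180234) (nat_lit 1) .nil)))) .nil)) 
(.lf (nat_lit 60650) (.g (nat_lit 2640) (.e (nat_lit 1549) (nat_lit 109) (.e (nat_lit 344117) (nat_lit 21) (.e (nat_lit 516151) (nat_lit 9) (.e (nat_lit 426286) (nat_lit 10) (.e (nat_lit 434248) (nat_lit 28) (.e (nat_lit 573475) (nat_lit 12) (.e (nat_lit 57348) (nat_lit 0) (.e (nat_lit 7119) (nat_lit 382) (.e (nat_lit 999) (nat_lit 81) .nil))))))))) (.g (nat_lit 4) .nil .nil))))) 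
(.nd (nat_lit 5) (.nd (nat_lit 6) 
(.lf (nat_lit 60570) (.g (nat_lit 1460) (.e (nat_lit 1548) (nat_lit 109) (.e (nat_lit 344133) (nat_lit 26) (.e (nat_lit 557098) (nat_lit 13) (.e (nat_lit 172064) (nat_lit 2) .nil)))) .nil)) 
(.lf (nat_lit 60634) (.g (nat_lit 2499) (.e (nat_lit 1549) (nat_lit 109) (.e (nat_lit 344117) (nat_lit 21) (.e (nat_lit 516151) (nat_lit 9) (.e (nat_lit 426286) (nat_lit 10) (.e (nat_lit 434245) (nat_lit 28) (.e (nat_lit 573474) (nat_lit 12) (.e (nat_lit 57351) (nat_lit 0) (.e (nat_lit 7124) (nat_lit 382) (.e (nat_lit 999) (nat_lit 81) .nil))))))))) (.g (nat_lit 4) .nil .nil)))) (.nd (nat_lit 6) 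
(.lf (nat_lit 60602) (.g (nat_lit 2529) (.e (nat_lit 1548) (nat_lit 109) (.e (nat_lit 344133) (nat_lit 26) (.e (nat_lit 557105) (nat_lit 14) (.e (nat_lit 180251) (nat_lit 10) (.e (nat_lit 581376) (nat_lit 5) .nil))))) .nil)) 
(.lf (nat_lit 60666) (.g (nat_lit 3944) (.e (nat_lit 1549) (nat_lit 109) (.e (nat_lit 344117) (nat_lit 21) (.e (nat_lit 516165) (nat_lit 12) (.e (nat_lit 450586) (nat_lit 10) (.e (nat_lit 573473) (nat_lit 12) (.e (nat_lit 57353) (nat_lit 0) (.e (nat_lit 7124) (nat_lit 382) (.e (nat_lit 1016) (nat_lit 81) .nil)))))))) (.g (nat_lit 8) .nil .nil))))))) 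
(.nd (nat_lit 3) (.nd (nat_lit 4) (.nd (nat_lit 5) (.nd (nat_lit 6) 
(.lf (nat_lit 60550) (.g (nat_lit 1478) (.e (nat_lit 1548) (nat_lit 109) (.e (nat_lit 344130) (nat_lit 26) (.e (nat_lit 557104) (nat_lit 14) (.e (nat_lit 180236) (nat_lit 1) (.e (nat_lit 500045) (nat_lit 16) .nil))))) .nil)) 
(.lf (nat_lit 60614) (.g (nat_lit 2254) (.e (nat_lit 1549) (nat_lit 109) (.e (nat_lit 344117) (nat_lit 21) (.e (nat_lit 516130) (nat_lit 3) (.e (nat_lit 221215) (nat_lit 23) (.e (nat_lit 204829) (nat_lit 18) .nil))))) .nil))) (.nd (nat_lit 6) 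
(.lf (nat_lit 60582) (.g (nat_lit 1758) (.e (nat_lit 1548) (nat_lit 109) (.e (nat_lit 344133) (nat_lit 26) (.e (nat_lit 557098) (nat_lit 13) (.e (nat_lit 172136) (nat_lit 15) (.e (nat_lit 2175) (nat_lit 143) .nil))))) .nil)) 
(.lf (nat_lit 60646) (.g (nat_lit 2564) (.e (nat_lit 1549) (nat_lit 109) (.e (nat_lit 344117) (nat_lit 21) (.e (nat_lit 516151) (nat_lit 9) (.e (nat_lit 426286) (nat_lit 10) (.e (nat_lit 434248) (nat_lit 28) .nil))))) .nil)))) (.nd (nat_lit 5) (.nd (nat_lit 6) 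
(.lf (nat_lit 60566) (.g (nat_lit 1656) (.e (nat_lit 1548) (nat_lit 109) (.e (nat_lit 344133) (nat_lit 26) (.e (nat_lit 557098) (nat_lit 13) (.e (nat_lit 172062) (nat_lit 2) .nil)))) .nil)) 
(.lf (nat_lit 60630) (.g (nat_lit 3739) (.e (nat_lit 1549) (nat_lit 109) (.e (nat_lit 344117) (nat_lit 21) (.e (nat_lit 516151) (nat_lit 9) (.e (nat_lit 426286) (nat_lit 10) (.e (nat_lit 434245) (nat_lit 28) (.e (nat_lit 573473) (nat_lit 12) (.e (nat_lit 57353) (nat_lit 0) (.e (nat_lit 7125) (nat_lit 382) (.e (nat_lit 1016) (nat_lit 81) .nil))))))))) (.g (nat_lit 6) .nil .nil)))) (.nd (nat_lit 6) 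
(.lf (nat_lit 60598) (.g (nat_lit 1723) (.e (nat_lit 1548) (nat_lit 109) (.e (nat_lit 344133) (nat_lit 26) (.e (nat_lit 557105) (nat_lit 14) (.e (nat_lit 180235) (nat_lit 1) .nil)))) .nil)) 
(.lf (nat_lit 60662) (.g (nat_lit 3174) (.e (nat_lit 1549) (nat_lit 109) (.e (nat_lit 344117) (nat_lit 21) (.e (nat_lit 516165) (nat_lit 12) (.e (nat_lit 450586) (nat_lit 10) (.e (nat_lit 573473) (nat_lit 12) (.e (nat_lit 57347) (nat_lit 0) (.e (nat_lit 7125) (nat_lit 382) (.e (nat_lit 1016) (nat_lit 81) .nil)))))))) (.g (nat_lit 5) .nil .nil)))))) 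
(.nd (nat_lit 4) (.nd (nat_lit 5) (.nd (nat_lit 6) 
(.lf (nat_lit 60558) (.g (nat_lit 2315) (.e (nat_lit 1548) (nat_lit 109) (.e (nat_lit 344132) (nat_lit 26) (.e (nat_lit 557100) (nat_lit 13) (.e (nat_lit 172062) (nat_lit 2) (.e (nat_lit 196656) (nat_lit 11) .nil))))) .nil)) 
(.lf (nat_lit 60622) (.g (nat_lit 4131) (.e (nat_lit 1549) (nat_lit 109) (.e (nat_lit 344117) (nat_lit 21) (.e (nat_lit 516151) (nat_lit 9) (.e (nat_lit 426211) (nat_lit 9) .nil)))) .nil))) (.nd (nat_lit 6) 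
(.lf (nat_lit 60590) (.g (nat_lit 2244) (.e (nat_lit 1548) (nat_lit 109) (.e (nat_lit 344133) (nat_lit 26) (.e (nat_lit 557103) (nat_lit 14) (.e (nat_lit 180244) (nat_lit 5) (.e (nat_lit 532579) (nat_lit 26) .nil))))) .nil)) 
(.lf (nat_lit 60654) (.g (nat_lit 1748) (.e (nat_lit 1549) (nat_lit 109) (.e (nat_lit 344117) (nat_lit 21) (.e (nat_lit 516165) (nat_lit 12) (.e (nat_lit 458496) (nat_lit 3) .nil)))) .nil)))) (.nd (nat_lit 5) (.nd (nat_lit 6) 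
(.lf (nat_lit 60574) (.g (nat_lit 2543) (.e (nat_lit 1548) (nat_lit 109) (.e (nat_lit 344133) (nat_lit 26) (.e (nat_lit 557098) (nat_lit 13) (.e (nat_lit 172064) (nat_lit 2) (.e (nat_lit 196653) (nat_lit 11) (.e (nat_lit 16397) (nat_lit 0) (.e (nat_lit 3289) (nat_lit 201) (.e (nat_lit 565252) (nat_lit 0) .nil)))))))) (.g (nat_lit 4) .nil .nil))) 
(.lf (nat_lit 60638) (.g (nat_lit 2898) (.e (nat_lit 1549) (nat_lit 109) (.e (nat_lit 344117) (nat_lit 21) (.e (nat_lit 516151) (nat_lit 9) (.e (nat_lit 426286) (nat_lit 10) (.e (nat_lit 434246) (nat_lit 28) (.e (nat_lit 573474) (nat_lit 12) (.e (nat_lit 57572) (nat_lit 54) (.e (nat_lit 770055) (nat_lit 5) .nil)))))))) (.g (nat_lit 4) .nil .nil)))) (.nd (nat_lit 6) 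
(.lf (nat_lit 60606) (.g (nat_lit 847) (.e (nat_lit 1548) (nat_lit 109) (.e (nat_lit 344133) (nat_lit 26) (.e (nat_lit 557119) (nat_lit 18) .nil))) .nil)) 
(.lf (nat_lit 60670) (.g (nat_lit 4183) (.e (nat_lit 1549) (nat_lit 109) (.e (nat_lit 344117) (nat_lit 21) (.e (nat_lit 516165) (nat_lit 12) (.e (nat_lit 450586) (nat_lit 10) (.e (nat_lit 573475) (nat_lit 12) (.e (nat_lit 57351) (nat_lit 0) (.e (nat_lit 7122) (nat_lit 382) (.e (nat_lit 1016) (nat_lit 81) .nil)))))))) (.g (nat_lit 8) .nil .nil))))))))) 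
(.nd (nat_lit 1) (.nd (nat_lit 2) (.nd (nat_lit 3) (.nd (nat_lit 4) (.nd (nat_lit 5) 
(.nd (nat_lit 6) 
(.lf (nat_lit 60545) (.g (nat_lit 2075) (.e (nat_lit 1548) (nat_lit 109) (.e (nat_lit 344130) (nat_lit 26) (.e (nat_lit 557104) (nat_lit 14) (.e (nat_lit 180229) (nat_lit 0) (.e (nat_lit 5820) (nat_lit 320) .nil))))) .nil)) 
(.lf (nat_lit 60609) (.g (nat_lit 927) (.e (nat_lit 1549) (nat_lit 109) (.e (nat_lit 344117) (nat_lit 21) (.e (nat_lit 516123) (nat_lit 2) .nil))) .nil))) (.nd (nat_lit 6) 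
(.lf (nat_lit 60577) (.g (nat_lit 1593) (.e (nat_lit 1548) (nat_lit 109) (.e (nat_lit 344133) (nat_lit 26) (.e (nat_lit 557098) (nat_lit 13) (.e (nat_lit 172065) (nat_lit 3) .nil)))) .nil)) 
(.lf (nat_lit 60641) (.g (nat_lit 4429) (.e (nat_lit 1549) (nat_lit 109) (.e (nat_lit 344117) (nat_lit 21) (.e (nat_lit 516151) (nat_lit 9) (.e (nat_lit 426286) (nat_lit 10) (.e (nat_lit 434247) (nat_lit 28) (.e (nat_lit 573477) (nat_lit 12) (.e (nat_lit 57353) (nat_lit 0) (.e (nat_lit 7124) (nat_lit 382) (.e (nat_lit 1016) (nat_lit 81) .nil))))))))) (.g (nat_lit 8) .nil .nil))))) 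
(.nd (nat_lit 5) (.nd (nat_lit 6) 
(.lf (nat_lit 60561) (.g (nat_lit 1760) (.e (nat_lit 1548) (nat_lit 109) (.e (nat_lit 344132) (nat_lit 26) (.e (nat_lit 557101) (nat_lit 13) (.e (nat_lit 172064) (nat_lit 2) (.e (nat_lit 204544) (nat_lit 2) .nil))))) .nil)) 
(.lf (nat_lit 60625) (.g (nat_lit 3554) (.e (nat_lit 1549) (nat_lit 109) (.e (nat_lit 344117) (nat_lit 21) (.e (nat_lit 516151) (nat_lit 9) (.e (nat_lit 426285) (nat_lit 10) .nil)))) .nil))) (.nd (nat_lit 6) 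
(.lf (nat_lit 60593) (.g (nat_lit 1591) (.e (nat_lit 1548) (nat_lit 109) (.e (nat_lit 344133) (nat_lit 26) (.e (nat_lit 557105) (nat_lit 14) (.e (nat_lit 180227) (nat_lit 0) .nil)))) .nil)) 
(.lf (nat_lit 60657) (.g (nat_lit 3337) (.e (nat_lit 1549) (nat_lit 109) (.e (nat_lit 344117) (nat_lit 21) (.e (nat_lit 516165) (nat_lit 12) (.e (nat_lit 450579) (nat_lit 5) (.e (nat_lit 532484) (nat_lit 0) (.e (nat_lit 1912) (nat_lit 129) (.e (nat_lit 598022) (nat_lit 5) .nil))))))) (.g (nat_lit 7) .nil .nil)))))) (.nd (nat_lit 4) (.nd (nat_lit 5) (.nd (nat_lit 6) 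
(.lf (nat_lit 60553) (.g (nat_lit 2262) (.e (nat_lit 1548) (nat_lit 109) (.e (nat_lit 344130) (nat_lit 26) (.e (nat_lit 557104) (nat_lit 14) (.e (nat_lit 180236) (nat_lit 1) (.e (nat_lit 500048) (nat_lit 16) (.e (nat_lit 16397) (nat_lit 0) (.e (nat_lit 3289) (nat_lit 201) (.e (nat_lit 565252) (nat_lit 0) .nil)))))))) (.g (nat_lit 8) .nil .nil))) 
(.lf (nat_lit 60617) (.g (nat_lit 2538) (.e (nat_lit 1549) (nat_lit 109) (.e (nat_lit 344117) (nat_lit 21) (.e (nat_lit 516130) (nat_lit 3) (.e (nat_lit 221215) (nat_lit 23) (.e (nat_lit 204831) (nat_lit 18) .nil))))) .nil))) (.nd (nat_lit 6) 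
(.lf (nat_lit 60585) (.g (nat_lit 489) (.e (nat_lit 1548) (nat_lit 109) (.e (nat_lit 344133) (nat_lit 26) (.e (nat_lit 557103) (nat_lit 14) .nil))) .nil)) 
(.lf (nat_lit 60649) (.g (nat_lit 3856) (.e (nat_lit 1549) (nat_lit 109) (.e (nat_lit 344117) (nat_lit 21) (.e (nat_lit 516151) (nat_lit 9) (.e (nat_lit 426286) (nat_lit 10) (.e (nat_lit 434248) (nat_lit 28) (.e (nat_lit 573473) (nat_lit 12) (.e (nat_lit 57353) (nat_lit 0) (.e (nat_lit 7125) (nat_lit 382) (.e (nat_lit 1016) (nat_lit 81) .nil))))))))) (.g (nat_lit 6) .nil .nil))))) 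
(.nd (nat_lit 5) (.nd (nat_lit 6) 
(.lf (nat_lit 60569) (.g (nat_lit 1878) (.e (nat_lit 1548) (nat_lit 109) (.e (nat_lit 344133) (nat_lit 26) (.e (nat_lit 557098) (nat_lit 13) (.e (nat_lit 172063) (nat_lit 2) (.e (nat_lit 196655) (nat_lit 11) .nil))))) .nil)) 
(.lf (nat_lit 60633) (.g (nat_lit 2494) (.e (nat_lit 1549) (nat_lit 109) (.e (nat_lit 344117) (nat_lit 21) (.e (nat_lit 516151) (nat_lit 9) (.e (nat_lit 426286) (nat_lit 10) (.e (nat_lit 434245) (nat_lit 28) (.e (nat_lit 573474) (nat_lit 12) (.e (nat_lit 57348) (nat_lit 0) (.e (nat_lit 7236) (nat_lit 382) (.e (nat_lit 1014) (nat_lit 81) .nil))))))))) (.g (nat_lit 4) .nil .nil)))) (.nd (nat_lit 6) 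
(.lf (nat_lit 60601) (.g (nat_lit 1611) (.e (nat_lit 1548) (nat_lit 109) (.e (nat_lit 344133) (nat_lit 26) (.e (nat_lit 557105) (nat_lit 14) (.e (nat_lit 180248) (nat_lit 9) .nil)))) .nil)) 
(.lf (nat_lit 60665) (.g (nat_lit 3998) (.e (nat_lit 1549) (nat_lit 109) (.e (nat_lit 344117) (nat_lit 21) (.e (nat_lit 516165) (nat_lit 12) (.e (nat_lit 450586) (nat_lit 10) (.e (nat_lit 573473) (nat_lit 12) (.e (nat_lit 57352) (nat_lit 0) (.e (nat_lit 7122) (nat_lit 382) (.e (nat_lit 1016) (nat_lit 81) .nil)))))))) (.g (nat_lit 8) .nil .nil))))))) 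
(.nd (nat_lit 3) (.nd (nat_lit 4) (.nd (nat_lit 5) (.nd (nat_lit 6) 
(.lf (nat_lit 60549) (.g (nat_lit 1286) (.e (nat_lit 1548) (nat_lit 109) (.e (nat_lit 344130) (nat_lit 26) (.e (nat_lit 557104) (nat_lit 14) (.e (nat_lit 180236) (nat_lit 1) .nil)))) .nil)) 
(.lf (nat_lit 60613) (.g (nat_lit 1796) (.e (nat_lit 1549) (nat_lit 109) (.e (nat_lit 344117) (nat_lit 21) (.e (nat_lit 516130) (nat_lit 3) (.e (nat_lit 221204) (nat_lit 20) .nil)))) .nil))) (.nd (nat_lit 6) 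
(.lf (nat_lit 60581) (.g (nat_lit 2219) (.e (nat_lit 1548) (nat_lit 109) (.e (nat_lit 344133) (nat_lit 26) (.e (nat_lit 557098) (nat_lit 13) (.e (nat_lit 172133) (nat_lit 15) (.e (nat_lit 2175) (nat_lit 143) .nil))))) .nil)) 
(.lf (nat_lit 60645) (.g (nat_lit 3400) (.e (nat_lit 1549) (nat_lit 109) (.e (nat_lit 344117) (nat_lit 21) (.e (nat_lit 516151) (nat_lit 9) (.e (nat_lit 426286) (nat_lit 10) (.e (nat_lit 434247) (nat_lit 28) (.e (nat_lit 573478) (nat_lit 12) (.e (nat_lit 57570) (nat_lit 54) (.e (nat_lit 770055) (nat_lit 5) .nil)))))))) (.g (nat_lit 6) .nil .nil))))) (.nd (nat_lit 5) (.nd (nat_lit 6) 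
(.lf (nat_lit 60565) (.g (nat_lit 1601) (.e (nat_lit 1548) (nat_lit 109) (.e (nat_lit 344133) (nat_lit 26) (.e (nat_lit 557098) (nat_lit 13) (.e (nat_lit 172051) (nat_lit 0) .nil)))) .nil)) 
(.lf (nat_lit 60629) (.g (nat_lit 4018) (.e (nat_lit 1549) (nat_lit 109) (.e (nat_lit 344117) (nat_lit 21) (.e (nat_lit 516151) (nat_lit 9) (.e (nat_lit 426286) (nat_lit 10) (.e (nat_lit 434245) (nat_lit 28) (.e (nat_lit 573473) (nat_lit 12) (.e (nat_lit 57353) (nat_lit 0) (.e (nat_lit 7122) (nat_lit 382) (.e (nat_lit 1016) (nat_lit 81) .nil))))))))) (.g (nat_lit 7) .nil .nil)))) (.nd (nat_lit 6) 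
(.lf (nat_lit 60597) (.g (nat_lit 1724) (.e (nat_lit 1548) (nat_lit 109) (.e (nat_lit 344133) (nat_lit 26) (.e (nat_lit 557105) (nat_lit 14) (.e (nat_lit 180234) (nat_lit 1) .nil)))) .nil)) 
(.lf (nat_lit 60661) (.g (nat_lit 2271) (.e (nat_lit 1549) (nat_lit 109) (.e (nat_lit 344117) (nat_lit 21) (.e (nat_lit 516165) (nat_lit 12) (.e (nat_lit 450586) (nat_lit 10) (.e (nat_lit 573473) (nat_lit 12) (.e (nat_lit 57347) (nat_lit 0) (.e (nat_lit 7122) (nat_lit 382) (.e (nat_lit 1016) (nat_lit 81) .nil)))))))) (.g (nat_lit 4) .nil .nil)))))) 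
(.nd (nat_lit 4) (.nd (nat_lit 5) (.nd (nat_lit 6) 
(.lf (nat_lit 60557) (.g (nat_lit 1906) (.e (nat_lit 1548) (nat_lit 109) (.e (nat_lit 344132) (nat_lit 26) (.e (nat_lit 557100) (nat_lit 13) (.e (nat_lit 172062) (nat_lit 2) .nil)))) .nil)) 
(.lf (nat_lit 60621) (.g (nat_lit 2112) (.e (nat_lit 1549) (nat_lit 109) (.e (nat_lit 344117) (nat_lit 21) (.e (nat_lit 516151) (nat_lit 9) (.e (nat_lit 426171) (nat_lit 7) .nil)))) .nil))) (.nd (nat_lit 6) 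
(.lf (nat_lit 60589) (.g (nat_lit 1387) (.e (nat_lit 1548) (nat_lit 109) (.e (nat_lit 344133) (nat_lit 26) (.e (nat_lit 557103) (nat_lit 14) (.e (nat_lit 188160) (nat_lit 3) .nil)))) .nil)) 
(.lf (nat_lit 60653) (.g (nat_lit 4221) (.e (nat_lit 1549) (nat_lit 109) (.e (nat_lit 344117) (nat_lit 21) (.e (nat_lit 516151) (nat_lit 9) (.e (nat_lit 426286) (nat_lit 10) (.e (nat_lit 434248) (nat_lit 28) (.e (nat_lit 573475) (nat_lit 12) (.e (nat_lit 57570) (nat_lit 54) (.e (nat_lit 770055) (nat_lit 5) .nil)))))))) (.g (nat_lit 6) .nil .nil))))) (.nd (nat_lit 5) (.nd (nat_lit 6) 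
(.lf (nat_lit 60573) (.g (nat_lit 2515) (.e (nat_lit 1548) (nat_lit 109) (.e (nat_lit 344133) (nat_lit 26) (.e (nat_lit 557098) (nat_lit 13) (.e (nat_lit 172064) (nat_lit 2) (.e (nat_lit 196653) (nat_lit 11) .nil))))) .nil)) 
(.lf (nat_lit 60637) (.g (nat_lit 2897) (.e (nat_lit 1549) (nat_lit 109) (.e (nat_lit 344117) (nat_lit 21) (.e (nat_lit 516151) (nat_lit 9) (.e (nat_lit 426286) (nat_lit 10) (.e (nat_lit 434246) (nat_lit 28) .nil))))) .nil))) (.nd (nat_lit 6) 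
(.lf (nat_lit 60605) (.g (nat_lit 3000) (.e (nat_lit 1548) (nat_lit 109) (.e (nat_lit 344133) (nat_lit 26) (.e (nat_lit 557105) (nat_lit 14) (.e (nat_lit 180252) (nat_lit 10) (.e (nat_lit 573473) (nat_lit 12) .nil))))) .nil)) 
(.lf (nat_lit 60669) (.g (nat_lit 2347) (.e (nat_lit 1549) (nat_lit 109) (.e (nat_lit 344117) (nat_lit 21) (.e (nat_lit 516165) (nat_lit 12) (.e (nat_lit 450586) (nat_lit 10) (.e (nat_lit 573475) (nat_lit 12) .nil))))) .nil))))))) (.nd (nat_lit 2) (.nd (nat_lit 3) (.nd (nat_lit 4) (.nd (nat_lit 5) (.nd (nat_lit 6) 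
(.lf (nat_lit 60547) (.g (nat_lit 1223) (.e (nat_lit 1548) (nat_lit 109) (.e (nat_lit 344130) (nat_lit 26) (.e (nat_lit 557104) (nat_lit 14) (.e (nat_lit 180234) (nat_lit 1) .nil)))) .nil)) 
(.lf (nat_lit 60611) (.g (nat_lit 1886) (.e (nat_lit 1549) (nat_lit 109) (.e (nat_lit 344117) (nat_lit 21) (.e (nat_lit 516129) (nat_lit 3) (.e (nat_lit 221215) (nat_lit 23) .nil)))) .nil))) (.nd (nat_lit 6) 
(.lf (nat_lit 60579) (.g (nat_lit 2260) (.e (nat_lit 1548) (nat_lit 109) (.e (nat_lit 344133) (nat_lit 26) (.e (nat_lit 557098) (nat_lit 13) (.e (nat_lit 172067) (nat_lit 3) (.e (nat_lit 212736) (nat_lit 10) (.e (nat_lit 434239) (nat_lit 27) (.e (nat_lit 565252) (nat_lit 0) .nil))))))) (.g (nat_lit 4) .nil .nil))) 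
(.lf (nat_lit 60643) (.g (nat_lit 3741) (.e (nat_lit 1549) (nat_lit 109) (.e (nat_lit 344117) (nat_lit 21) (.e (nat_lit 516151) (nat_lit 9) (.e (nat_lit 426286) (nat_lit 10) (.e (nat_lit 434247) (nat_lit 28) (.e (nat_lit 573477) (nat_lit 12) (.e (nat_lit 57570) (nat_lit 54) (.e (nat_lit 770055) (nat_lit 5) .nil)))))))) (.g (nat_lit 6) .nil .nil))))) (.nd (nat_lit 5) (.nd (nat_lit 6) 
(.lf (nat_lit 60563) (.g (nat_lit 1151) (.e (nat_lit 1548) (nat_lit 109) (.e (nat_lit 344133) (nat_lit 26) (.e (nat_lit 557096) (nat_lit 13) (.e (nat_lit 172064) (nat_lit 2) .nil)))) .nil)) 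
(.lf (nat_lit 60627) (.g (nat_lit 2832) (.e (nat_lit 1549) (nat_lit 109) (.e (nat_lit 344117) (nat_lit 21) (.e (nat_lit 516151) (nat_lit 9) (.e (nat_lit 426286) (nat_lit 10) (.e (nat_lit 434243) (nat_lit 28) .nil))))) .nil))) (.nd (nat_lit 6) 
(.lf (nat_lit 60595) (.g (nat_lit 2351) (.e (nat_lit 1548) (nat_lit 109) (.e (nat_lit 344133) (nat_lit 26) (.e (nat_lit 557105) (nat_lit 14) (.e (nat_lit 180227) (nat_lit 0) (.e (nat_lit 5958) (nat_lit 323) .nil))))) .nil)) 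
(.lf (nat_lit 60659) (.g (nat_lit 3491) (.e (nat_lit 1549) (nat_lit 109) (.e (nat_lit 344117) (nat_lit 21) (.e (nat_lit 516165) (nat_lit 12) (.e (nat_lit 450579) (nat_lit 5) (.e (nat_lit 532501) (nat_lit 1) (.e (nat_lit 57767) (nat_lit 221) (.e (nat_lit 1009) (nat_lit 81) .nil))))))) (.g (nat_lit 5) .nil .nil)))))) (.nd (nat_lit 4) (.nd (nat_lit 5) (.nd (nat_lit 6) 
(.lf (nat_lit 60555) (.g (nat_lit 986) (.e (nat_lit 1548) (nat_lit 109) (.e (nat_lit 344130) (nat_lit 26) (.e (nat_lit 557104) (nat_lit 14) (.e (nat_lit 188160) (nat_lit 3) .nil)))) .nil)) 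
(.lf (nat_lit 60619) (.g (nat_lit 726) (.e (nat_lit 1549) (nat_lit 109) (.e (nat_lit 344117) (nat_lit 21) (.e (nat_lit 516151) (nat_lit 9) .nil))) .nil))) (.nd (nat_lit 6) 
(.lf (nat_lit 60587) (.g (nat_lit 1591) (.e (nat_lit 1548) (nat_lit 109) (.e (nat_lit 344133) (nat_lit 26) (.e (nat_lit 557103) (nat_lit 14) (.e (nat_lit 180235) (nat_lit 1) .nil)))) .nil)) 
(.lf (nat_lit 60651) (.g (nat_lit 4178) (.e (nat_lit 1549) (nat_lit 109) (.e (nat_lit 344117) (nat_lit 21) (.e (nat_lit 516151) (nat_lit 9) (.e (nat_lit 426286) (nat_lit 10) (.e (nat_lit 434248) (nat_lit 28) (.e (nat_lit 573475) (nat_lit 12) (.e (nat_lit 57348) (nat_lit 0) (.e (nat_lit 7125) (nat_lit 382) (.e (nat_lit 1016) (nat_lit 81) .nil))))))))) (.g (nat_lit 6) .nil .nil))))) 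
(.nd (nat_lit 5) (.nd (nat_lit 6) 
(.lf (nat_lit 60571) (.g (nat_lit 2252) (.e (nat_lit 1548) (nat_lit 109) (.e (nat_lit 344133) (nat_lit 26) (.e (nat_lit 557098) (nat_lit 13) (.e (nat_lit 172064) (nat_lit 2) (.e (nat_lit 204544) (nat_lit 0) .nil))))) .nil)) 
(.lf (nat_lit 60635) (.g (nat_lit 3280) (.e (nat_lit 1549) (nat_lit 109) (.e (nat_lit 344117) (nat_lit 21) (.e (nat_lit 516151) (nat_lit 9) (.e (nat_lit 426286) (nat_lit 10) (.e (nat_lit 434245) (nat_lit 28) (.e (nat_lit 573474) (nat_lit 12) (.e (nat_lit 57353) (nat_lit 0) (.e (nat_lit 7122) (nat_lit 382) (.e (nat_lit 1016) (nat_lit 81) .nil))))))))) (.g (nat_lit 5) .nil .nil)))) (.nd (nat_lit 6) 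
(.lf (nat_lit 60603) (.g (nat_lit 2710) (.e (nat_lit 1548) (nat_lit 109) (.e (nat_lit 344133) (nat_lit 26) (.e (nat_lit 557105) (nat_lit 14) (.e (nat_lit 180251) (nat_lit 10) (.e (nat_lit 573475) (nat_lit 12) .nil))))) .nil)) 
(.lf (nat_lit 60667) (.g (nat_lit 2285) (.e (nat_lit 1549) (nat_lit 109) (.e (nat_lit 344117) (nat_lit 21) (.e (nat_lit 516165) (nat_lit 12) (.e (nat_lit 450586) (nat_lit 10) (.e (nat_lit 573473) (nat_lit 12) (.e (nat_lit 57572) (nat_lit 54) (.e (nat_lit 770056) (nat_lit 5) .nil))))))) (.g (nat_lit 4) .nil .nil))))))) (.nd (nat_lit 3) (.nd (nat_lit 4) (.nd (nat_lit 5) (.nd (nat_lit 6) 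
(.lf (nat_lit 60551) (.g (nat_lit 1478) (.e (nat_lit 1548) (nat_lit 109) (.e (nat_lit 344130) (nat_lit 26) (.e (nat_lit 557104) (nat_lit 14) (.e (nat_lit 180236) (nat_lit 1) (.e (nat_lit 500047) (nat_lit 16) .nil))))) .nil)) 
(.lf (nat_lit 60615) (.g (nat_lit 2918) (.e (nat_lit 1549) (nat_lit 109) (.e (nat_lit 344117) (nat_lit 21) (.e (nat_lit 516130) (nat_lit 3) (.e (nat_lit 221215) (nat_lit 23) (.e (nat_lit 204829) (nat_lit 18) (.e (nat_lit 57927) (nat_lit 282) (.e (nat_lit 163866) (nat_lit 2) (.e (nat_lit 196630) (nat_lit 9) .nil)))))))) (.g (nat_lit 5) .nil .nil)))) (.nd (nat_lit 6) 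
(.lf (nat_lit 60583) (.g (nat_lit 1583) (.e (nat_lit 1548) (nat_lit 109) (.e (nat_lit 344133) (nat_lit 26) (.e (nat_lit 557098) (nat_lit 13) (.e (nat_lit 172140) (nat_lit 22) .nil)))) .nil)) 
(.lf (nat_lit 60647) (.g (nat_lit 2586) (.e (nat_lit 1549) (nat_lit 109) (.e (nat_lit 344117) (nat_lit 21) (.e (nat_lit 516151) (nat_lit 9) (.e (nat_lit 426286) (nat_lit 10) (.e (nat_lit 434248) (nat_lit 28) (.e (nat_lit 573473) (nat_lit 12) (.e (nat_lit 57348) (nat_lit 0) (.e (nat_lit 7119) (nat_lit 382) (.e (nat_lit 999) (nat_lit 81) .nil))))))))) (.g (nat_lit 4) .nil .nil))))) 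
(.nd (nat_lit 5) (.nd (nat_lit 6) 
(.lf (nat_lit 60567) (.g (nat_lit 2138) (.e (nat_lit 1548) (nat_lit 109) (.e (nat_lit 344133) (nat_lit 26) (.e (nat_lit 557098) (nat_lit 13) (.e (nat_lit 172062) (nat_lit 2) (.e (nat_lit 196654) (nat_lit 11) .nil))))) .nil)) 
(.lf (nat_lit 60631) (.g (nat_lit 2500) (.e (nat_lit 1549) (nat_lit 109) (.e (nat_lit 344117) (nat_lit 21) (.e (nat_lit 516151) (nat_lit 9) (.e (nat_lit 426286) (nat_lit 10) (.e (nat_lit 434245) (nat_lit 28) (.e (nat_lit 573474) (nat_lit 12) (.e (nat_lit 57345) (nat_lit 0) (.e (nat_lit 7122) (nat_lit 382) (.e (nat_lit 1016) (nat_lit 81) .nil))))))))) (.g (nat_lit 4) .nil .nil)))) (.nd (nat_lit 6) 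
(.lf (nat_lit 60599) (.g (nat_lit 1720) (.e (nat_lit 1548) (nat_lit 109) (.e (nat_lit 344133) (nat_lit 26) (.e (nat_lit 557105) (nat_lit 14) (.e (nat_lit 180237) (nat_lit 1) .nil)))) .nil)) 
(.lf (nat_lit 60663) (.g (nat_lit 4073) (.e (nat_lit 1549) (nat_lit 109) (.e (nat_lit 344117) (nat_lit 21) (.e (nat_lit 516165) (nat_lit 12) (.e (nat_lit 450586) (nat_lit 10) (.e (nat_lit 573473) (nat_lit 12) (.e (nat_lit 57348) (nat_lit 0) (.e (nat_lit 7124) (nat_lit 382) (.e (nat_lit 1016) (nat_lit 81) .nil)))))))) (.g (nat_lit 8) .nil .nil)))))) 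
(.nd (nat_lit 4) (.nd (nat_lit 5) (.nd (nat_lit 6) 
(.lf (nat_lit 60559) (.g (nat_lit 2018) (.e (nat_lit 1548) (nat_lit 109) (.e (nat_lit 344132) (nat_lit 26) (.e (nat_lit 557100) (nat_lit 13) (.e (nat_lit 172064) (nat_lit 2) (.e (nat_lit 204544) (nat_lit 2) .nil))))) .nil)) 
(.lf (nat_lit 60623) (.g (nat_lit 4999) (.e (nat_lit 1549) (nat_lit 109) (.e (nat_lit 344117) (nat_lit 21) (.e (nat_lit 516151) (nat_lit 9) (.e (nat_lit 426211) (nat_lit 9) (.e (nat_lit 426125) (nat_lit 2) .nil))))) .nil))) (.nd (nat_lit 6) 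
(.lf (nat_lit 60591) (.g (nat_lit 1419) (.e (nat_lit 1548) (nat_lit 109) (.e (nat_lit 344133) (nat_lit 26) (.e (nat_lit 557103) (nat_lit 14) (.e (nat_lit 180250) (nat_lit 10) .nil)))) .nil)) 
(.lf (nat_lit 60655) (.g (nat_lit 1714) (.e (nat_lit 1549) (nat_lit 109) (.e (nat_lit 344117) (nat_lit 21) (.e (nat_lit 516165) (nat_lit 12) (.e (nat_lit 450579) (nat_lit 5) .nil)))) .nil)))) (.nd (nat_lit 5) (.nd (nat_lit 6) 
(.lf (nat_lit 60575) (.g (nat_lit 2528) (.e (nat_lit 1548) (nat_lit 109) (.e (nat_lit 344133) (nat_lit 26) (.e (nat_lit 557098) (nat_lit 13) (.e (nat_lit 172064) (nat_lit 2) (.e (nat_lit 196686) (nat_lit 18) .nil))))) .nil)) 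
(.lf (nat_lit 60639) (.g (nat_lit 2596) (.e (nat_lit 1549) (nat_lit 109) (.e (nat_lit 344117) (nat_lit 21) (.e (nat_lit 516151) (nat_lit 9) (.e (nat_lit 426286) (nat_lit 10) (.e (nat_lit 434247) (nat_lit 28) .nil))))) .nil))) (.nd (nat_lit 6) 
(.lf (nat_lit 60607) (.g (nat_lit 2192) (.e (nat_lit 1548) (nat_lit 109) (.e (nat_lit 344133) (nat_lit 26) (.e (nat_lit 557119) (nat_lit 18) (.e (nat_lit 2797) (nat_lit 180) .nil)))) .nil)) 
(.lf (nat_lit 60671) (.g (nat_lit 3958) (.e (nat_lit 1549) (nat_lit 109) (.e (nat_lit 344117) (nat_lit 21) (.e (nat_lit 516165) (nat_lit 12) (.e (nat_lit 450586) (nat_lit 10) (.e (nat_lit 573475) (nat_lit 12) (.e (nat_lit 57351) (nat_lit 0) (.e (nat_lit 7124) (nat_lit 382) (.e (nat_lit 1016) (nat_lit 81) .nil)))))))) (.g (nat_lit 8) .nil .nil))))))))))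

noncomputable def tv831 : DT := (.nd (nat_lit 0) (.nd (nat_lit 1) (.nd (nat_lit 2) (.nd (nat_lit 3) (.nd (nat_lit 4) (.nd (nat_lit 5) 
(.lf (nat_lit 60672) (.g (nat_lit 3153) (.e (nat_lit 1549) (nat_lit 109) (.e (nat_lit 344117) (nat_lit 21) (.e (nat_lit 516165) (nat_lit 12) (.e (nat_lit 450586) (nat_lit 10) (.e (nat_lit 573475) (nat_lit 12) (.e (nat_lit 57351) (nat_lit 0) (.e (nat_lit 7125) (nat_lit 382) (.e (nat_lit 1016) (nat_lit 81) .nil)))))))) (.g (nat_lit 5) .nil .nil))) 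
(.lf (nat_lit 60704) (.g (nat_lit 2423) (.e (nat_lit 1549) (nat_lit 109) (.e (nat_lit 344117) (nat_lit 21) (.e (nat_lit 516166) (nat_lit 12) (.e (nat_lit 450587) (nat_lit 10) (.e (nat_lit 573478) (nat_lit 12) (.e (nat_lit 57353) (nat_lit 0) (.e (nat_lit 7125) (nat_lit 382) (.e (nat_lit 999) (nat_lit 81) .nil)))))))) (.g (nat_lit 4) .nil .nil)))) (.nd (nat_lit 5) 
(.lf (nat_lit 60688) (.g (nat_lit 3383) (.e (nat_lit 1549) (nat_lit 109) (.e (nat_lit 344117) (nat_lit 21) (.e (nat_lit 516165) (nat_lit 12) (.e (nat_lit 450588) (nat_lit 10) (.e (nat_lit 573475) (nat_lit 12) (.e (nat_lit 57570) (nat_lit 54) (.e (nat_lit 770055) (nat_lit 5) .nil))))))) (.g (nat_lit 4) .nil .nil))) 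
(.lf (nat_lit 60720) (.g (nat_lit 2158) (.e (nat_lit 1549) (nat_lit 109) (.e (nat_lit 344129) (nat_lit 26) (.e (nat_lit 557097) (nat_lit 13) (.e (nat_lit 172133) (nat_lit 15) .nil)))) .nil)))) (.nd (nat_lit 4) (.nd (nat_lit 5) 
(.lf (nat_lit 60680) (.g (nat_lit 2710) (.e (nat_lit 1549) (nat_lit 109) (.e (nat_lit 344117) (nat_lit 21) (.e (nat_lit 516165) (nat_lit 12) (.e (nat_lit 450586) (nat_lit 10) (.e (nat_lit 573478) (nat_lit 12) (.e (nat_lit 57353) (nat_lit 0) (.e (nat_lit 7122) (nat_lit 382) (.e (nat_lit 1016) (nat_lit 81) .nil)))))))) (.g (nat_lit 5) .nil .nil))) 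
(.lf (nat_lit 60712) (.g (nat_lit 5190) (.e (nat_lit 1549) (nat_lit 109) (.e (nat_lit 344117) (nat_lit 21) (.e (nat_lit 516166) (nat_lit 12) (.e (nat_lit 450588) (nat_lit 10) (.e (nat_lit 573475) (nat_lit 12) (.e (nat_lit 57347) (nat_lit 0) (.e (nat_lit 7124) (nat_lit 382) (.e (nat_lit 1016) (nat_lit 81) .nil)))))))) (.g (nat_lit 8) .nil .nil)))) (.nd (nat_lit 5) 
(.lf (nat_lit 60696) (.g (nat_lit 2476) (.e (nat_lit 1549) (nat_lit 109) (.e (nat_lit 344117) (nat_lit 21) (.e (nat_lit 516166) (nat_lit 12) (.e (nat_lit 450587) (nat_lit 10) (.e (nat_lit 573477) (nat_lit 12) .nil))))) .nil)) 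
(.lf (nat_lit 60728) (.g (nat_lit 625) (.e (nat_lit 1550) (nat_lit 109) (.e (nat_lit 344097) (nat_lit 18) (.e (nat_lit 5195) (nat_lit 294) .nil))) .nil))))) (.nd (nat_lit 3) (.nd (nat_lit 4) (.nd (nat_lit 5) 
(.lf (nat_lit 60676) (.g (nat_lit 3598) (.e (nat_lit 1549) (nat_lit 109) (.e (nat_lit 344117) (nat_lit 21) (.e (nat_lit 516165) (nat_lit 12) (.e (nat_lit 450586) (nat_lit 10) (.e (nat_lit 573478) (nat_lit 12) (.e (nat_lit 57351) (nat_lit 0) (.e (nat_lit 7122) (nat_lit 382) (.e (nat_lit 1016) (nat_lit 81) .nil)))))))) (.g (nat_lit 8) .nil .nil))) 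
(.lf (nat_lit 60708) (.g (nat_lit 4494) (.e (nat_lit 1549) (nat_lit 109) (.e (nat_lit 344117) (nat_lit 21) (.e (nat_lit 516166) (nat_lit 12) (.e (nat_lit 450588) (nat_lit 10) (.e (nat_lit 573473) (nat_lit 12) (.e (nat_lit 57352) (nat_lit 0) (.e (nat_lit 7122) (nat_lit 382) (.e (nat_lit 1016) (nat_lit 81) .nil)))))))) (.g (nat_lit 8) .nil .nil)))) (.nd (nat_lit 5) 
(.lf (nat_lit 60692) (.g (nat_lit 3475) (.e (nat_lit 1549) (nat_lit 109) (.e (nat_lit 344117) (nat_lit 21) (.e (nat_lit 516166) (nat_lit 12) (.e (nat_lit 450587) (nat_lit 10) (.e (nat_lit 573472) (nat_lit 12) .nil))))) .nil)) 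
(.lf (nat_lit 60724) (.g (nat_lit 3073) (.e (nat_lit 1549) (nat_lit 109) (.e (nat_lit 344129) (nat_lit 26) (.e (nat_lit 557104) (nat_lit 14) (.e (nat_lit 180252) (nat_lit 10) (.e (nat_lit 573474) (nat_lit 12) .nil))))) .nil)))) (.nd (nat_lit 4) (.nd (nat_lit 5) 
(.lf (nat_lit 60684) (.g (nat_lit 2811) (.e (nat_lit 1549) (nat_lit 109) (.e (nat_lit 344117) (nat_lit 21) (.e (nat_lit 516165) (nat_lit 12) (.e (nat_lit 450587) (nat_lit 10) (.e (nat_lit 573477) (nat_lit 12) .nil))))) .nil)) 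
(.lf (nat_lit 60716) (.g (nat_lit 1458) (.e (nat_lit 1549) (nat_lit 109) (.e (nat_lit 344117) (nat_lit 21) (.e (nat_lit 516185) (nat_lit 16) (.e (nat_lit 491546) (nat_lit 9) .nil)))) .nil))) (.nd (nat_lit 5) 
(.lf (nat_lit 60700) (.g (nat_lit 3749) (.e (nat_lit 1549) (nat_lit 109) (.e (nat_lit 344117) (nat_lit 21) (.e (nat_lit 516166) (nat_lit 12) (.e (nat_lit 450587) (nat_lit 10) (.e (nat_lit 573478) (nat_lit 12) (.e (nat_lit 57351) (nat_lit 0) (.e (nat_lit 7122) (nat_lit 382) (.e (nat_lit 1016) (nat_lit 81) .nil)))))))) (.g (nat_lit 8) .nil .nil))) 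
(.lf (nat_lit 60732) (.g (nat_lit 629) (.e (nat_lit 1550) (nat_lit 109) (.e (nat_lit 344115) (nat_lit 20) (.e (nat_lit 507908) (nat_lit 0) (.e (nat_lit 5412) (nat_lit 303) (.e (nat_lit 73746) (nat_lit 3) (.e (nat_lit 516104) (nat_lit 0) (.e (nat_lit 7936) (nat_lit 402) .nil))))))) (.g (nat_lit 4) .nil .nil))))))) (.nd (nat_lit 2) (.nd (nat_lit 3) (.nd (nat_lit 4) (.nd (nat_lit 5) 
(.lf (nat_lit 60674) (.g (nat_lit 3704) (.e (nat_lit 1549) (nat_lit 109) (.e (nat_lit 344117) (nat_lit 21) (.e (nat_lit 516165) (nat_lit 12) (.e (nat_lit 450586) (nat_lit 10) (.e (nat_lit 573477) (nat_lit 12) (.e (nat_lit 57352) (nat_lit 0) (.e (nat_lit 7122) (nat_lit 382) (.e (nat_lit 1016) (nat_lit 81) .nil)))))))) (.g (nat_lit 8) .nil .nil))) 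
(.lf (nat_lit 60706) (.g (nat_lit 4565) (.e (nat_lit 1549) (nat_lit 109) (.e (nat_lit 344117) (nat_lit 21) (.e (nat_lit 516166) (nat_lit 12) (.e (nat_lit 450588) (nat_lit 10) (.e (nat_lit 573473) (nat_lit 12) (.e (nat_lit 57348) (nat_lit 0) (.e (nat_lit 7124) (nat_lit 382) (.e (nat_lit 1016) (nat_lit 81) .nil)))))))) (.g (nat_lit 8) .nil .nil)))) (.nd (nat_lit 5) 
(.lf (nat_lit 60690) (.g (nat_lit 3341) (.e (nat_lit 1549) (nat_lit 109) (.e (nat_lit 344117) (nat_lit 21) (.e (nat_lit 516166) (nat_lit 12) (.e (nat_lit 450585) (nat_lit 10) (.e (nat_lit 573474) (nat_lit 12) (.e (nat_lit 57572) (nat_lit 54) (.e (nat_lit 770055) (nat_lit 5) .nil))))))) (.g (nat_lit 5) .nil .nil))) 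
(.lf (nat_lit 60722) (.g (nat_lit 2547) (.e (nat_lit 1549) (nat_lit 109) (.e (nat_lit 344129) (nat_lit 26) (.e (nat_lit 557103) (nat_lit 14) (.e (nat_lit 180250) (nat_lit 10) (.e (nat_lit 573474) (nat_lit 12) .nil))))) .nil)))) (.nd (nat_lit 4) (.nd (nat_lit 5) 
(.lf (nat_lit 60682) (.g (nat_lit 1991) (.e (nat_lit 1549) (nat_lit 109) (.e (nat_lit 344117) (nat_lit 21) (.e (nat_lit 516165) (nat_lit 12) (.e (nat_lit 450587) (nat_lit 10) .nil)))) .nil)) 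
(.lf (nat_lit 60714) (.g (nat_lit 4372) (.e (nat_lit 1549) (nat_lit 109) (.e (nat_lit 344117) (nat_lit 21) (.e (nat_lit 516166) (nat_lit 12) (.e (nat_lit 450588) (nat_lit 10) (.e (nat_lit 573475) (nat_lit 12) (.e (nat_lit 57351) (nat_lit 0) (.e (nat_lit 7124) (nat_lit 382) (.e (nat_lit 1016) (nat_lit 81) .nil)))))))) (.g (nat_lit 8) .nil .nil)))) (.nd (nat_lit 5) 
(.lf (nat_lit 60698) (.g (nat_lit 2597) (.e (nat_lit 1549) (nat_lit 109) (.e (nat_lit 344117) (nat_lit 21) (.e (nat_lit 516166) (nat_lit 12) (.e (nat_lit 450587) (nat_lit 10) (.e (nat_lit 573477) (nat_lit 12) (.e (nat_lit 57570) (nat_lit 54) (.e (nat_lit 770054) (nat_lit 5) .nil))))))) (.g (nat_lit 4) .nil .nil))) 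
(.lf (nat_lit 60730) (.g (nat_lit 690) (.e (nat_lit 1550) (nat_lit 109) (.e (nat_lit 344115) (nat_lit 20) (.e (nat_lit 507906) (nat_lit 0) (.e (nat_lit 5412) (nat_lit 303) (.e (nat_lit 73746) (nat_lit 3) (.e (nat_lit 516104) (nat_lit 0) (.e (nat_lit 7936) (nat_lit 402) .nil))))))) (.g (nat_lit 4) .nil .nil)))))) (.nd (nat_lit 3) (.nd (nat_lit 4) (.nd (nat_lit 5) 
(.lf (nat_lit 60678) (.g (nat_lit 2367) (.e (nat_lit 1549) (nat_lit 109) (.e (nat_lit 344117) (nat_lit 21) (.e (nat_lit 516165) (nat_lit 12) (.e (nat_lit 450586) (nat_lit 10) (.e (nat_lit 573478) (nat_lit 12) (.e (nat_lit 57351) (nat_lit 0) (.e (nat_lit 7125) (nat_lit 382) (.e (nat_lit 999) (nat_lit 81) .nil)))))))) (.g (nat_lit 4) .nil .nil))) 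
(.lf (nat_lit 60710) (.g (nat_lit 2611) (.e (nat_lit 1549) (nat_lit 109) (.e (nat_lit 344117) (nat_lit 21) (.e (nat_lit 516166) (nat_lit 12) (.e (nat_lit 450588) (nat_lit 10) (.e (nat_lit 573474) (nat_lit 12) .nil))))) .nil))) (.nd (nat_lit 5) 
(.lf (nat_lit 60694) (.g (nat_lit 4536) (.e (nat_lit 1549) (nat_lit 109) (.e (nat_lit 344117) (nat_lit 21) (.e (nat_lit 516166) (nat_lit 12) (.e (nat_lit 450587) (nat_lit 10) (.e (nat_lit 573473) (nat_lit 12) .nil))))) .nil)) 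
(.lf (nat_lit 60726) (.g (nat_lit 290) (.e (nat_lit 1550) (nat_lit 109) (.e (nat_lit 344069) (nat_lit 0) (.e (nat_lit 3090) (nat_lit 191) .nil))) .nil)))) (.nd (nat_lit 4) (.nd (nat_lit 5) 
(.lf (nat_lit 60686) (.g (nat_lit 2983) (.e (nat_lit 1549) (nat_lit 109) (.e (nat_lit 344117) (nat_lit 21) (.e (nat_lit 516165) (nat_lit 12) (.e (nat_lit 450588) (nat_lit 10) (.e (nat_lit 573474) (nat_lit 12) .nil))))) .nil)) 
(.lf (nat_lit 60718) (.g (nat_lit 840) (.e (nat_lit 1549) (nat_lit 109) (.e (nat_lit 344129) (nat_lit 26) (.e (nat_lit 557096) (nat_lit 13) .nil))) .nil))) (.nd (nat_lit 5) 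
(.lf (nat_lit 60702) (.g (nat_lit 2496) (.e (nat_lit 1549) (nat_lit 109) (.e (nat_lit 344117) (nat_lit 21) (.e (nat_lit 516166) (nat_lit 12) (.e (nat_lit 450587) (nat_lit 10) (.e (nat_lit 573478) (nat_lit 12) (.e (nat_lit 57351) (nat_lit 0) (.e (nat_lit 7125) (nat_lit 382) (.e (nat_lit 999) (nat_lit 81) .nil)))))))) (.g (nat_lit 4) .nil .nil))) 
(.lf (nat_lit 60734) (.g (nat_lit 1057) (.e (nat_lit 1550) (nat_lit 109) (.e (nat_lit 344117) (nat_lit 21) (.e (nat_lit 516098) (nat_lit 0) (.e (nat_lit 7591) (nat_lit 407) .nil)))) .nil))))))) (.nd (nat_lit 1) (.nd (nat_lit 2) (.nd (nat_lit 3) (.nd (nat_lit 4) (.nd (nat_lit 5) 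
(.lf (nat_lit 60673) (.g (nat_lit 2393) (.e (nat_lit 1549) (nat_lit 109) (.e (nat_lit 344117) (nat_lit 21) (.e (nat_lit 516165) (nat_lit 12) (.e (nat_lit 450586) (nat_lit 10) (.e (nat_lit 573477) (nat_lit 12) .nil))))) .nil)) 
(.lf (nat_lit 60705) (.g (nat_lit 2622) (.e (nat_lit 1549) (nat_lit 109) (.e (nat_lit 344117) (nat_lit 21) (.e (nat_lit 516166) (nat_lit 12) (.e (nat_lit 450588) (nat_lit 10) (.e (nat_lit 573473) (nat_lit 12) .nil))))) .nil))) (.nd (nat_lit 5) 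
(.lf (nat_lit 60689) (.g (nat_lit 711) (.e (nat_lit 1549) (nat_lit 109) (.e (nat_lit 344117) (nat_lit 21) (.e (nat_lit 516166) (nat_lit 12) .nil))) .nil)) 
(.lf (nat_lit 60721) (.g (nat_lit 2317) (.e (nat_lit 1549) (nat_lit 109) (.e (nat_lit 344129) (nat_lit 26) (.e (nat_lit 557103) (nat_lit 14) (.e (nat_lit 180250) (nat_lit 10) .nil)))) .nil)))) (.nd (nat_lit 4) (.nd (nat_lit 5) 
(.lf (nat_lit 60681) (.g (nat_lit 2395) (.e (nat_lit 1549) (nat_lit 109) (.e (nat_lit 344117) (nat_lit 21) (.e (nat_lit 516165) (nat_lit 12) (.e (nat_lit 450586) (nat_lit 10) (.e (nat_lit 573478) (nat_lit 12) (.e (nat_lit 57353) (nat_lit 0) (.e (nat_lit 7125) (nat_lit 382) (.e (nat_lit 999) (nat_lit 81) .nil)))))))) (.g (nat_lit 4) .nil .nil))) 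
(.lf (nat_lit 60713) (.g (nat_lit 4597) (.e (nat_lit 1549) (nat_lit 109) (.e (nat_lit 344117) (nat_lit 21) (.e (nat_lit 516166) (nat_lit 12) (.e (nat_lit 450588) (nat_lit 10) (.e (nat_lit 573475) (nat_lit 12) (.e (nat_lit 57351) (nat_lit 0) (.e (nat_lit 7122) (nat_lit 382) (.e (nat_lit 1016) (nat_lit 81) .nil)))))))) (.g (nat_lit 8) .nil .nil)))) (.nd (nat_lit 5) 
(.lf (nat_lit 60697) (.g (nat_lit 3889) (.e (nat_lit 1549) (nat_lit 109) (.e (nat_lit 344117) (nat_lit 21) (.e (nat_lit 516166) (nat_lit 12) (.e (nat_lit 450587) (nat_lit 10) (.e (nat_lit 573477) (nat_lit 12) (.e (nat_lit 57352) (nat_lit 0) (.e (nat_lit 7122) (nat_lit 382) (.e (nat_lit 1016) (nat_lit 81) .nil)))))))) (.g (nat_lit 8) .nil .nil))) 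
(.lf (nat_lit 60729) (.g (nat_lit 1184) (.e (nat_lit 1550) (nat_lit 109) (.e (nat_lit 344097) (nat_lit 18) (.e (nat_lit 5195) (nat_lit 294) (.e (nat_lit 57377) (nat_lit 3) .nil)))) .nil))))) (.nd (nat_lit 3) (.nd (nat_lit 4) (.nd (nat_lit 5) 
(.lf (nat_lit 60677) (.g (nat_lit 3401) (.e (nat_lit 1549) (nat_lit 109) (.e (nat_lit 344117) (nat_lit 21) (.e (nat_lit 516165) (nat_lit 12) (.e (nat_lit 450586) (nat_lit 10) (.e (nat_lit 573478) (nat_lit 12) (.e (nat_lit 57351) (nat_lit 0) (.e (nat_lit 7124) (nat_lit 382) (.e (nat_lit 1016) (nat_lit 81) .nil)))))))) (.g (nat_lit 8) .nil .nil))) 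
(.lf (nat_lit 60709) (.g (nat_lit 4435) (.e (nat_lit 1549) (nat_lit 109) (.e (nat_lit 344117) (nat_lit 21) (.e (nat_lit 516166) (nat_lit 12) (.e (nat_lit 450588) (nat_lit 10) (.e (nat_lit 573473) (nat_lit 12) (.e (nat_lit 57353) (nat_lit 0) (.e (nat_lit 7124) (nat_lit 382) (.e (nat_lit 1016) (nat_lit 81) .nil)))))))) (.g (nat_lit 8) .nil .nil)))) (.nd (nat_lit 5) 
(.lf (nat_lit 60693) (.g (nat_lit 3700) (.e (nat_lit 1549) (nat_lit 109) (.e (nat_lit 344117) (nat_lit 21) (.e (nat_lit 516166) (nat_lit 12) (.e (nat_lit 450587) (nat_lit 10) (.e (nat_lit 573472) (nat_lit 12) (.e (nat_lit 57570) (nat_lit 54) (.e (nat_lit 770055) (nat_lit 5) .nil))))))) (.g (nat_lit 5) .nil .nil))) 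
(.lf (nat_lit 60725) (.g (nat_lit 2539) (.e (nat_lit 1549) (nat_lit 109) (.e (nat_lit 344169) (nat_lit 40) (.e (nat_lit 671759) (nat_lit 3) (.e (nat_lit 57479) (nat_lit 28) (.e (nat_lit 557106) (nat_lit 15) .nil))))) .nil)))) (.nd (nat_lit 4) (.nd (nat_lit 5) 
(.lf (nat_lit 60685) (.g (nat_lit 3539) (.e (nat_lit 1549) (nat_lit 109) (.e (nat_lit 344117) (nat_lit 21) (.e (nat_lit 516165) (nat_lit 12) (.e (nat_lit 450588) (nat_lit 10) (.e (nat_lit 573473) (nat_lit 12) (.e (nat_lit 57348) (nat_lit 0) (.e (nat_lit 7125) (nat_lit 382) (.e (nat_lit 1016) (nat_lit 81) .nil)))))))) (.g (nat_lit 4) .nil .nil))) 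
(.lf (nat_lit 60717) (.g (nat_lit 2694) (.e (nat_lit 1549) (nat_lit 109) (.e (nat_lit 344129) (nat_lit 26) (.e (nat_lit 557067) (nat_lit 9) (.e (nat_lit 2878) (nat_lit 184) .nil)))) .nil))) (.nd (nat_lit 5) 
(.lf (nat_lit 60701) (.g (nat_lit 3551) (.e (nat_lit 1549) (nat_lit 109) (.e (nat_lit 344117) (nat_lit 21) (.e (nat_lit 516166) (nat_lit 12) (.e (nat_lit 450587) (nat_lit 10) (.e (nat_lit 573478) (nat_lit 12) (.e (nat_lit 57351) (nat_lit 0) (.e (nat_lit 7124) (nat_lit 382) (.e (nat_lit 1016) (nat_lit 81) .nil)))))))) (.g (nat_lit 8) .nil .nil))) 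
(.lf (nat_lit 60733) (.g (nat_lit 1064) (.e (nat_lit 1550) (nat_lit 109) (.e (nat_lit 344117) (nat_lit 21) (.e (nat_lit 516097) (nat_lit 0) (.e (nat_lit 7593) (nat_lit 407) .nil)))) .nil)))))) (.nd (nat_lit 2) (.nd (nat_lit 3) (.nd (nat_lit 4) (.nd (nat_lit 5) 
(.lf (nat_lit 60675) (.g (nat_lit 2327) (.e (nat_lit 1549) (nat_lit 109) (.e (nat_lit 344117) (nat_lit 21) (.e (nat_lit 516165) (nat_lit 12) (.e (nat_lit 450586) (nat_lit 10) (.e (nat_lit 573478) (nat_lit 12) .nil))))) .nil)) 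
(.lf (nat_lit 60707) (.g (nat_lit 3606) (.e (nat_lit 1549) (nat_lit 109) (.e (nat_lit 344117) (nat_lit 21) (.e (nat_lit 516166) (nat_lit 12) (.e (nat_lit 450588) (nat_lit 10) (.e (nat_lit 573473) (nat_lit 12) (.e (nat_lit 57348) (nat_lit 0) (.e (nat_lit 7125) (nat_lit 382) (.e (nat_lit 999) (nat_lit 81) .nil)))))))) (.g (nat_lit 5) .nil .nil)))) (.nd (nat_lit 5) 
(.lf (nat_lit 60691) (.g (nat_lit 2651) (.e (nat_lit 1549) (nat_lit 109) (.e (nat_lit 344117) (nat_lit 21) (.e (nat_lit 516166) (nat_lit 12) (.e (nat_lit 450586) (nat_lit 10) (.e (nat_lit 573474) (nat_lit 12) .nil))))) .nil)) 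
(.lf (nat_lit 60723) (.g (nat_lit 2204) (.e (nat_lit 1549) (nat_lit 109) (.e (nat_lit 344129) (nat_lit 26) (.e (nat_lit 557104) (nat_lit 14) (.e (nat_lit 180252) (nat_lit 10) .nil)))) .nil)))) (.nd (nat_lit 4) (.nd (nat_lit 5) 
(.lf (nat_lit 60683) (.g (nat_lit 3579) (.e (nat_lit 1549) (nat_lit 109) (.e (nat_lit 344117) (nat_lit 21) (.e (nat_lit 516165) (nat_lit 12) (.e (nat_lit 450587) (nat_lit 10) (.e (nat_lit 573475) (nat_lit 12) .nil))))) .nil)) 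
(.lf (nat_lit 60715) (.g (nat_lit 3566) (.e (nat_lit 1549) (nat_lit 109) (.e (nat_lit 344117) (nat_lit 21) (.e (nat_lit 516166) (nat_lit 12) (.e (nat_lit 450588) (nat_lit 10) (.e (nat_lit 573475) (nat_lit 12) (.e (nat_lit 57351) (nat_lit 0) (.e (nat_lit 7125) (nat_lit 382) (.e (nat_lit 1016) (nat_lit 81) .nil)))))))) (.g (nat_lit 5) .nil .nil)))) (.nd (nat_lit 5) 
(.lf (nat_lit 60699) (.g (nat_lit 2397) (.e (nat_lit 1549) (nat_lit 109) (.e (nat_lit 344117) (nat_lit 21) (.e (nat_lit 516166) (nat_lit 12) (.e (nat_lit 450587) (nat_lit 10) (.e (nat_lit 573478) (nat_lit 12) .nil))))) .nil)) 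
(.lf (nat_lit 60731) (.g (nat_lit 623) (.e (nat_lit 1550) (nat_lit 109) (.e (nat_lit 344115) (nat_lit 20) (.e (nat_lit 507907) (nat_lit 0) (.e (nat_lit 5412) (nat_lit 303) (.e (nat_lit 73746) (nat_lit 3) (.e (nat_lit 516104) (nat_lit 0) (.e (nat_lit 7936) (nat_lit 402) .nil))))))) (.g (nat_lit 4) .nil .nil)))))) (.nd (nat_lit 3) (.nd (nat_lit 4) (.nd (nat_lit 5) 
(.lf (nat_lit 60679) (.g (nat_lit 2592) (.e (nat_lit 1549) (nat_lit 109) (.e (nat_lit 344117) (nat_lit 21) (.e (nat_lit 516165) (nat_lit 12) (.e (nat_lit 450586) (nat_lit 10) (.e (nat_lit 573478) (nat_lit 12) (.e (nat_lit 57351) (nat_lit 0) (.e (nat_lit 7125) (nat_lit 382) (.e (nat_lit 1016) (nat_lit 81) .nil)))))))) (.g (nat_lit 5) .nil .nil))) 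
(.lf (nat_lit 60711) (.g (nat_lit 2675) (.e (nat_lit 1549) (nat_lit 109) (.e (nat_lit 344117) (nat_lit 21) (.e (nat_lit 516166) (nat_lit 12) (.e (nat_lit 450588) (nat_lit 10) (.e (nat_lit 573475) (nat_lit 12) .nil))))) .nil))) (.nd (nat_lit 5) 
(.lf (nat_lit 60695) (.g (nat_lit 3818) (.e (nat_lit 1549) (nat_lit 109) (.e (nat_lit 344117) (nat_lit 21) (.e (nat_lit 516166) (nat_lit 12) (.e (nat_lit 450587) (nat_lit 10) (.e (nat_lit 573475) (nat_lit 12) .nil))))) .nil)) 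
(.lf (nat_lit 60727) (.g (nat_lit 2200) (.e (nat_lit 1550) (nat_lit 109) (.e (nat_lit 344069) (nat_lit 0) (.e (nat_lit 3090) (nat_lit 191) (.e (nat_lit 483380) (nat_lit 23) (.e (nat_lit 336355) (nat_lit 24) .nil))))) .nil)))) (.nd (nat_lit 4) (.nd (nat_lit 5) 
(.lf (nat_lit 60687) (.g (nat_lit 3382) (.e (nat_lit 1549) (nat_lit 109) (.e (nat_lit 344117) (nat_lit 21) (.e (nat_lit 516165) (nat_lit 12) (.e (nat_lit 450588) (nat_lit 10) (.e (nat_lit 573475) (nat_lit 12) .nil))))) .nil)) 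
(.lf (nat_lit 60719) (.g (nat_lit 789) (.e (nat_lit 1549) (nat_lit 109) (.e (nat_lit 344129) (nat_lit 26) (.e (nat_lit 557097) (nat_lit 13) .nil))) .nil))) (.nd (nat_lit 5) 
(.lf (nat_lit 60703) (.g (nat_lit 2734) (.e (nat_lit 1549) (nat_lit 109) (.e (nat_lit 344117) (nat_lit 21) (.e (nat_lit 516166) (nat_lit 12) (.e (nat_lit 450587) (nat_lit 10) (.e (nat_lit 573478) (nat_lit 12) (.e (nat_lit 57351) (nat_lit 0) (.e (nat_lit 7125) (nat_lit 382) (.e (nat_lit 1016) (nat_lit 81) .nil)))))))) (.g (nat_lit 5) .nil .nil))) 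
(.lf (nat_lit 60735) (.g (nat_lit 958) (.e (nat_lit 1550) (nat_lit 109) (.e (nat_lit 344117) (nat_lit 21) (.e (nat_lit 516098) (nat_lit 0) (.e (nat_lit 7593) (nat_lit 407) .nil)))) .nil))))))))

noncomputable def tv832 : DT := (.nd (nat_lit 0) (.nd (nat_lit 1) (.nd (nat_lit 2) (.nd (nat_lit 3) (.nd (nat_lit 4) (.nd (nat_lit 5) 
(.lf (nat_lit 60736) (.g (nat_lit 4250) (.e (nat_lit 1550) (nat_lit 109) (.e (nat_lit 344117) (nat_lit 21) (.e (nat_lit 516151) (nat_lit 9) (.e (nat_lit 426211) (nat_lit 9) .nil)))) .nil)) 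
(.lf (nat_lit 60768) (.g (nat_lit 4096) (.e (nat_lit 1550) (nat_lit 109) (.e (nat_lit 344117) (nat_lit 21) (.e (nat_lit 516166) (nat_lit 12) (.e (nat_lit 450588) (nat_lit 10) (.e (nat_lit 573473) (nat_lit 12) (.e (nat_lit 57569) (nat_lit 53) (.e (nat_lit 761868) (nat_lit 5) .nil))))))) (.g (nat_lit 0) .nil .nil)))) (.nd (nat_lit 5) 
(.lf (nat_lit 60752) (.g (nat_lit 2816) (.e (nat_lit 1550) (nat_lit 109) (.e (nat_lit 344117) (nat_lit 21) (.e (nat_lit 516165) (nat_lit 12) (.e (nat_lit 450579) (nat_lit 5) (.e (nat_lit 532484) (nat_lit 0) .nil))))) .nil)) 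
(.lf (nat_lit 60784) (.g (nat_lit 3000) (.e (nat_lit 1550) (nat_lit 109) (.e (nat_lit 344126) (nat_lit 25) (.e (nat_lit 548874) (nat_lit 5) (.e (nat_lit 1598) (nat_lit 111) (.e (nat_lit 360466) (nat_lit 3) (.e (nat_lit 516097) (nat_lit 0) (.e (nat_lit 7486) (nat_lit 402) .nil))))))) (.g (nat_lit 6) .nil .nil))))) (.nd (nat_lit 4) (.nd (nat_lit 5) 
(.lf (nat_lit 60744) (.g (nat_lit 4526) (.e (nat_lit 1550) (nat_lit 109) (.e (nat_lit 344117) (nat_lit 21) (.e (nat_lit 516151) (nat_lit 9) (.e (nat_lit 426286) (nat_lit 10) (.e (nat_lit 434248) (nat_lit 28) (.e (nat_lit 573473) (nat_lit 12) (.e (nat_lit 57569) (nat_lit 53) (.e (nat_lit 761866) (nat_lit 5) .nil)))))))) (.g (nat_lit 8) .nil .nil))) 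
(.lf (nat_lit 60776) (.g (nat_lit 1569) (.e (nat_lit 1550) (nat_lit 109) (.e (nat_lit 344126) (nat_lit 25) (.e (nat_lit 548872) (nat_lit 5) (.e (nat_lit 1598) (nat_lit 111) (.e (nat_lit 360466) (nat_lit 3) (.e (nat_lit 516104) (nat_lit 0) (.e (nat_lit 7936) (nat_lit 402) .nil))))))) (.g (nat_lit 5) .nil .nil)))) (.nd (nat_lit 5) 
(.lf (nat_lit 60760) (.g (nat_lit 2135) (.e (nat_lit 1550) (nat_lit 109) (.e (nat_lit 344117) (nat_lit 21) (.e (nat_lit 516165) (nat_lit 12) (.e (nat_lit 450587) (nat_lit 10) .nil)))) .nil)) 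
(.lf (nat_lit 60792) (.g (nat_lit 1835) (.e (nat_lit 1550) (nat_lit 109) (.e (nat_lit 344126) (nat_lit 25) (.e (nat_lit 548889) (nat_lit 9) (.e (nat_lit 65616) (nat_lit 10) .nil)))) .nil))))) (.nd (nat_lit 3) (.nd (nat_lit 4) (.nd (nat_lit 5) 
(.lf (nat_lit 60740) (.g (nat_lit 4262) (.e (nat_lit 1550) (nat_lit 109) (.e (nat_lit 344117) (nat_lit 21) (.e (nat_lit 516151) (nat_lit 9) (.e (nat_lit 426286) (nat_lit 10) (.e (nat_lit 434245) (nat_lit 28) (.e (nat_lit 573473) (nat_lit 12) (.e (nat_lit 57569) (nat_lit 53) (.e (nat_lit 761869) (nat_lit 5) .nil)))))))) (.g (nat_lit 8) .nil .nil))) 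
(.lf (nat_lit 60772) (.g (nat_lit 2419) (.e (nat_lit 1550) (nat_lit 109) (.e (nat_lit 344117) (nat_lit 21) (.e (nat_lit 516185) (nat_lit 16) (.e (nat_lit 491558) (nat_lit 10) (.e (nat_lit 344115) (nat_lit 20) .nil))))) .nil))) (.nd (nat_lit 5) 
(.lf (nat_lit 60756) (.g (nat_lit 3626) (.e (nat_lit 1550) (nat_lit 109) (.e (nat_lit 344117) (nat_lit 21) (.e (nat_lit 516165) (nat_lit 12) (.e (nat_lit 450586) (nat_lit 10) (.e (nat_lit 573473) (nat_lit 12) (.e (nat_lit 57569) (nat_lit 53) (.e (nat_lit 761867) (nat_lit 5) .nil))))))) (.g (nat_lit 0) .nil .nil))) 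
(.lf (nat_lit 60788) (.g (nat_lit 2336) (.e (nat_lit 1550) (nat_lit 109) (.e (nat_lit 344126) (nat_lit 25) (.e (nat_lit 548874) (nat_lit 5) (.e (nat_lit 1598) (nat_lit 111) (.e (nat_lit 360466) (nat_lit 3) (.e (nat_lit 516105) (nat_lit 0) (.e (nat_lit 7936) (nat_lit 402) .nil))))))) (.g (nat_lit 6) .nil .nil))))) (.nd (nat_lit 4) (.nd (nat_lit 5) 
(.lf (nat_lit 60748) (.g (nat_lit 3826) (.e (nat_lit 1550) (nat_lit 109) (.e (nat_lit 344117) (nat_lit 21) (.e (nat_lit 516151) (nat_lit 9) (.e (nat_lit 426286) (nat_lit 10) (.e (nat_lit 434248) (nat_lit 28) (.e (nat_lit 573475) (nat_lit 12) (.e (nat_lit 57568) (nat_lit 53) (.e (nat_lit 761867) (nat_lit 5) .nil)))))))) (.g (nat_lit 0) .nil .nil))) 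
(.lf (nat_lit 60780) (.g (nat_lit 1537) (.e (nat_lit 1550) (nat_lit 109) (.e (nat_lit 344126) (nat_lit 25) (.e (nat_lit 548873) (nat_lit 5) (.e (nat_lit 1598) (nat_lit 111) (.e (nat_lit 360466) (nat_lit 3) (.e (nat_lit 516105) (nat_lit 0) (.e (nat_lit 7936) (nat_lit 402) .nil))))))) (.g (nat_lit 6) .nil .nil)))) (.nd (nat_lit 5) 
(.lf (nat_lit 60764) (.g (nat_lit 2958) (.e (nat_lit 1550) (nat_lit 109) (.e (nat_lit 344117) (nat_lit 21) (.e (nat_lit 516166) (nat_lit 12) (.e (nat_lit 450587) (nat_lit 10) (.e (nat_lit 573472) (nat_lit 12) .nil))))) .nil)) 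
(.lf (nat_lit 60796) (.g (nat_lit 1907) (.e (nat_lit 1550) (nat_lit 109) (.e (nat_lit 344126) (nat_lit 25) (.e (nat_lit 548889) (nat_lit 9) (.e (nat_lit 65620) (nat_lit 10) .nil)))) .nil)))))) (.nd (nat_lit 2) (.nd (nat_lit 3) (.nd (nat_lit 4) (.nd (nat_lit 5) 
(.lf (nat_lit 60738) (.g (nat_lit 4159) (.e (nat_lit 1550) (nat_lit 109) (.e (nat_lit 344117) (nat_lit 21) (.e (nat_lit 516151) (nat_lit 9) (.e (nat_lit 426286) (nat_lit 10) (.e (nat_lit 434245) (nat_lit 28) (.e (nat_lit 573473) (nat_lit 12) (.e (nat_lit 57569) (nat_lit 53) (.e (nat_lit 761867) (nat_lit 5) .nil)))))))) (.g (nat_lit 8) .nil .nil))) 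
(.lf (nat_lit 60770) (.g (nat_lit 4286) (.e (nat_lit 1550) (nat_lit 109) (.e (nat_lit 344117) (nat_lit 21) (.e (nat_lit 516166) (nat_lit 12) (.e (nat_lit 450588) (nat_lit 10) (.e (nat_lit 573475) (nat_lit 12) (.e (nat_lit 57569) (nat_lit 53) (.e (nat_lit 761868) (nat_lit 5) .nil))))))) (.g (nat_lit 0) .nil .nil)))) (.nd (nat_lit 5) 
(.lf (nat_lit 60754) (.g (nat_lit 2605) (.e (nat_lit 1550) (nat_lit 109) (.e (nat_lit 344117) (nat_lit 21) (.e (nat_lit 516165) (nat_lit 12) (.e (nat_lit 450579) (nat_lit 5) (.e (nat_lit 532504) (nat_lit 1) .nil))))) .nil)) 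
(.lf (nat_lit 60786) (.g (nat_lit 2481) (.e (nat_lit 1550) (nat_lit 109) (.e (nat_lit 344126) (nat_lit 25) (.e (nat_lit 548874) (nat_lit 5) (.e (nat_lit 1598) (nat_lit 111) (.e (nat_lit 360466) (nat_lit 3) (.e (nat_lit 516100) (nat_lit 0) (.e (nat_lit 7936) (nat_lit 402) .nil))))))) (.g (nat_lit 6) .nil .nil))))) (.nd (nat_lit 4) (.nd (nat_lit 5) 
(.lf (nat_lit 60746) (.g (nat_lit 4321) (.e (nat_lit 1550) (nat_lit 109) (.e (nat_lit 344117) (nat_lit 21) (.e (nat_lit 516151) (nat_lit 9) (.e (nat_lit 426286) (nat_lit 10) (.e (nat_lit 434248) (nat_lit 28) (.e (nat_lit 573473) (nat_lit 12) (.e (nat_lit 57569) (nat_lit 53) (.e (nat_lit 761868) (nat_lit 5) .nil)))))))) (.g (nat_lit 8) .nil .nil))) 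
(.lf (nat_lit 60778) (.g (nat_lit 1697) (.e (nat_lit 1550) (nat_lit 109) (.e (nat_lit 344126) (nat_lit 25) (.e (nat_lit 548873) (nat_lit 5) (.e (nat_lit 1598) (nat_lit 111) (.e (nat_lit 360466) (nat_lit 3) (.e (nat_lit 516100) (nat_lit 0) (.e (nat_lit 7936) (nat_lit 402) .nil))))))) (.g (nat_lit 6) .nil .nil)))) (.nd (nat_lit 5) 
(.lf (nat_lit 60762) (.g (nat_lit 2102) (.e (nat_lit 1550) (nat_lit 109) (.e (nat_lit 344117) (nat_lit 21) (.e (nat_lit 516166) (nat_lit 12) (.e (nat_lit 450585) (nat_lit 10) .nil)))) .nil)) 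
(.lf (nat_lit 60794) (.g (nat_lit 1802) (.e (nat_lit 1550) (nat_lit 109) (.e (nat_lit 344126) (nat_lit 25) (.e (nat_lit 548889) (nat_lit 9) (.e (nat_lit 65619) (nat_lit 10) .nil)))) .nil))))) (.nd (nat_lit 3) (.nd (nat_lit 4) (.nd (nat_lit 5) 
(.lf (nat_lit 60742) (.g (nat_lit 4815) (.e (nat_lit 1550) (nat_lit 109) (.e (nat_lit 344117) (nat_lit 21) (.e (nat_lit 516151) (nat_lit 9) (.e (nat_lit 426286) (nat_lit 10) (.e (nat_lit 434245) (nat_lit 28) (.e (nat_lit 573474) (nat_lit 12) (.e (nat_lit 57569) (nat_lit 53) (.e (nat_lit 761868) (nat_lit 5) .nil)))))))) (.g (nat_lit 0) .nil .nil))) 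
(.lf (nat_lit 60774) (.g (nat_lit 2431) (.e (nat_lit 1550) (nat_lit 109) (.e (nat_lit 344117) (nat_lit 21) (.e (nat_lit 516185) (nat_lit 16) (.e (nat_lit 491560) (nat_lit 10) (.e (nat_lit 344115) (nat_lit 20) .nil))))) .nil))) (.nd (nat_lit 5) 
(.lf (nat_lit 60758) (.g (nat_lit 3692) (.e (nat_lit 1550) (nat_lit 109) (.e (nat_lit 344117) (nat_lit 21) (.e (nat_lit 516165) (nat_lit 12) (.e (nat_lit 450586) (nat_lit 10) (.e (nat_lit 573475) (nat_lit 12) (.e (nat_lit 57569) (nat_lit 53) (.e (nat_lit 761866) (nat_lit 5) .nil))))))) (.g (nat_lit 6) .nil .nil))) 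
(.lf (nat_lit 60790) (.g (nat_lit 2040) (.e (nat_lit 1550) (nat_lit 109) (.e (nat_lit 344126) (nat_lit 25) (.e (nat_lit 548889) (nat_lit 9) (.e (nat_lit 65610) (nat_lit 10) .nil)))) .nil)))) (.nd (nat_lit 4) (.nd (nat_lit 5) 
(.lf (nat_lit 60750) (.g (nat_lit 3785) (.e (nat_lit 1550) (nat_lit 109) (.e (nat_lit 344117) (nat_lit 21) (.e (nat_lit 516151) (nat_lit 9) (.e (nat_lit 426286) (nat_lit 10) (.e (nat_lit 434248) (nat_lit 28) (.e (nat_lit 573475) (nat_lit 12) (.e (nat_lit 57569) (nat_lit 53) (.e (nat_lit 761869) (nat_lit 5) .nil)))))))) (.g (nat_lit 6) .nil .nil))) 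
(.lf (nat_lit 60782) (.g (nat_lit 1378) (.e (nat_lit 1550) (nat_lit 109) (.e (nat_lit 344126) (nat_lit 25) (.e (nat_lit 548874) (nat_lit 5) (.e (nat_lit 1586) (nat_lit 111) .nil)))) .nil))) (.nd (nat_lit 5) 
(.lf (nat_lit 60766) (.g (nat_lit 4288) (.e (nat_lit 1550) (nat_lit 109) (.e (nat_lit 344117) (nat_lit 21) (.e (nat_lit 516166) (nat_lit 12) (.e (nat_lit 450588) (nat_lit 10) (.e (nat_lit 573473) (nat_lit 12) (.e (nat_lit 57569) (nat_lit 53) (.e (nat_lit 761866) (nat_lit 5) .nil))))))) (.g (nat_lit 0) .nil .nil))) 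
(.lf (nat_lit 60798) (.g (nat_lit 3593) (.e (nat_lit 1550) (nat_lit 109) (.e (nat_lit 344126) (nat_lit 25) (.e (nat_lit 548891) (nat_lit 11) (.e (nat_lit 81956) (nat_lit 23) (.e (nat_lit 98320) (nat_lit 17) .nil))))) .nil))))))) (.nd (nat_lit 1) (.nd (nat_lit 2) (.nd (nat_lit 3) (.nd (nat_lit 4) (.nd (nat_lit 5) 
(.lf (nat_lit 60737) (.g (nat_lit 3675) (.e (nat_lit 1550) (nat_lit 109) (.e (nat_lit 344117) (nat_lit 21) (.e (nat_lit 516151) (nat_lit 9) (.e (nat_lit 426285) (nat_lit 10) .nil)))) .nil)) 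
(.lf (nat_lit 60769) (.g (nat_lit 3285) (.e (nat_lit 1550) (nat_lit 109) (.e (nat_lit 344117) (nat_lit 21) (.e (nat_lit 516166) (nat_lit 12) (.e (nat_lit 450588) (nat_lit 10) (.e (nat_lit 573475) (nat_lit 12) (.e (nat_lit 57568) (nat_lit 53) (.e (nat_lit 761867) (nat_lit 5) .nil))))))) (.g (nat_lit 0) .nil .nil)))) (.nd (nat_lit 5) 
(.lf (nat_lit 60753) (.g (nat_lit 2681) (.e (nat_lit 1550) (nat_lit 109) (.e (nat_lit 344117) (nat_lit 21) (.e (nat_lit 516165) (nat_lit 12) (.e (nat_lit 450579) (nat_lit 5) (.e (nat_lit 532501) (nat_lit 1) .nil))))) .nil)) 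
(.lf (nat_lit 60785) (.g (nat_lit 2849) (.e (nat_lit 1550) (nat_lit 109) (.e (nat_lit 344126) (nat_lit 25) (.e (nat_lit 548874) (nat_lit 5) (.e (nat_lit 1598) (nat_lit 111) (.e (nat_lit 360466) (nat_lit 3) (.e (nat_lit 516098) (nat_lit 0) (.e (nat_lit 7486) (nat_lit 402) .nil))))))) (.g (nat_lit 6) .nil .nil))))) (.nd (nat_lit 4) (.nd (nat_lit 5) 
(.lf (nat_lit 60745) (.g (nat_lit 4209) (.e (nat_lit 1550) (nat_lit 109) (.e (nat_lit 344117) (nat_lit 21) (.e (nat_lit 516151) (nat_lit 9) (.e (nat_lit 426286) (nat_lit 10) (.e (nat_lit 434248) (nat_lit 28) (.e (nat_lit 573473) (nat_lit 12) (.e (nat_lit 57569) (nat_lit 53) (.e (nat_lit 761867) (nat_lit 5) .nil)))))))) (.g (nat_lit 8) .nil .nil))) 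
(.lf (nat_lit 60777) (.g (nat_lit 1520) (.e (nat_lit 1550) (nat_lit 109) (.e (nat_lit 344126) (nat_lit 25) (.e (nat_lit 548872) (nat_lit 5) (.e (nat_lit 1598) (nat_lit 111) (.e (nat_lit 360466) (nat_lit 3) (.e (nat_lit 516105) (nat_lit 0) (.e (nat_lit 7936) (nat_lit 402) .nil))))))) (.g (nat_lit 5) .nil .nil)))) (.nd (nat_lit 5) 
(.lf (nat_lit 60761) (.g (nat_lit 3260) (.e (nat_lit 1550) (nat_lit 109) (.e (nat_lit 344117) (nat_lit 21) (.e (nat_lit 516165) (nat_lit 12) (.e (nat_lit 450588) (nat_lit 10) (.e (nat_lit 573475) (nat_lit 12) (.e (nat_lit 57568) (nat_lit 53) (.e (nat_lit 761868) (nat_lit 5) .nil))))))) (.g (nat_lit 4) .nil .nil))) 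
(.lf (nat_lit 60793) (.g (nat_lit 1914) (.e (nat_lit 1550) (nat_lit 109) (.e (nat_lit 344126) (nat_lit 25) (.e (nat_lit 548889) (nat_lit 9) (.e (nat_lit 65617) (nat_lit 10) .nil)))) .nil))))) (.nd (nat_lit 3) (.nd (nat_lit 4) (.nd (nat_lit 5) 
(.lf (nat_lit 60741) (.g (nat_lit 3853) (.e (nat_lit 1550) (nat_lit 109) (.e (nat_lit 344117) (nat_lit 21) (.e (nat_lit 516151) (nat_lit 9) (.e (nat_lit 426286) (nat_lit 10) (.e (nat_lit 434245) (nat_lit 28) (.e (nat_lit 573474) (nat_lit 12) (.e (nat_lit 57568) (nat_lit 53) (.e (nat_lit 761867) (nat_lit 5) .nil)))))))) (.g (nat_lit 0) .nil .nil))) 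
(.lf (nat_lit 60773) (.g (nat_lit 2669) (.e (nat_lit 1550) (nat_lit 109) (.e (nat_lit 344117) (nat_lit 21) (.e (nat_lit 516185) (nat_lit 16) (.e (nat_lit 491560) (nat_lit 10) (.e (nat_lit 344114) (nat_lit 20) .nil))))) .nil))) (.nd (nat_lit 5) 
(.lf (nat_lit 60757) (.g (nat_lit 3008) (.e (nat_lit 1550) (nat_lit 109) (.e (nat_lit 344117) (nat_lit 21) (.e (nat_lit 516165) (nat_lit 12) (.e (nat_lit 450586) (nat_lit 10) (.e (nat_lit 573475) (nat_lit 12) (.e (nat_lit 57568) (nat_lit 53) (.e (nat_lit 761867) (nat_lit 5) .nil))))))) (.g (nat_lit 0) .nil .nil))) 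
(.lf (nat_lit 60789) (.g (nat_lit 1944) (.e (nat_lit 1550) (nat_lit 109) (.e (nat_lit 344126) (nat_lit 25) (.e (nat_lit 548889) (nat_lit 9) (.e (nat_lit 65598) (nat_lit 9) .nil)))) .nil)))) (.nd (nat_lit 4) (.nd (nat_lit 5) 
(.lf (nat_lit 60749) (.g (nat_lit 4722) (.e (nat_lit 1550) (nat_lit 109) (.e (nat_lit 344117) (nat_lit 21) (.e (nat_lit 516151) (nat_lit 9) (.e (nat_lit 426286) (nat_lit 10) (.e (nat_lit 434248) (nat_lit 28) (.e (nat_lit 573475) (nat_lit 12) (.e (nat_lit 57569) (nat_lit 53) (.e (nat_lit 761868) (nat_lit 5) .nil)))))))) (.g (nat_lit 0) .nil .nil))) 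
(.lf (nat_lit 60781) (.g (nat_lit 416) (.e (nat_lit 1550) (nat_lit 109) (.e (nat_lit 344126) (nat_lit 25) (.e (nat_lit 548874) (nat_lit 5) .nil))) .nil))) (.nd (nat_lit 5) 
(.lf (nat_lit 60765) (.g (nat_lit 2447) (.e (nat_lit 1550) (nat_lit 109) (.e (nat_lit 344117) (nat_lit 21) (.e (nat_lit 516166) (nat_lit 12) (.e (nat_lit 450587) (nat_lit 10) (.e (nat_lit 573478) (nat_lit 12) (.e (nat_lit 57568) (nat_lit 53) (.e (nat_lit 761867) (nat_lit 5) .nil))))))) (.g (nat_lit 0) .nil .nil))) 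
(.lf (nat_lit 60797) (.g (nat_lit 2301) (.e (nat_lit 1550) (nat_lit 109) (.e (nat_lit 344126) (nat_lit 25) (.e (nat_lit 548891) (nat_lit 11) (.e (nat_lit 81954) (nat_lit 23) .nil)))) .nil)))))) (.nd (nat_lit 2) (.nd (nat_lit 3) (.nd (nat_lit 4) (.nd (nat_lit 5) 
(.lf (nat_lit 60739) (.g (nat_lit 4256) (.e (nat_lit 1550) (nat_lit 109) (.e (nat_lit 344117) (nat_lit 21) (.e (nat_lit 516151) (nat_lit 9) (.e (nat_lit 426286) (nat_lit 10) (.e (nat_lit 434245) (nat_lit 28) (.e (nat_lit 573473) (nat_lit 12) (.e (nat_lit 57569) (nat_lit 53) (.e (nat_lit 761868) (nat_lit 5) .nil)))))))) (.g (nat_lit 8) .nil .nil))) 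
(.lf (nat_lit 60771) (.g (nat_lit 3350) (.e (nat_lit 1550) (nat_lit 109) (.e (nat_lit 344117) (nat_lit 21) (.e (nat_lit 516166) (nat_lit 12) (.e (nat_lit 450588) (nat_lit 10) (.e (nat_lit 573475) (nat_lit 12) (.e (nat_lit 57569) (nat_lit 53) (.e (nat_lit 761869) (nat_lit 5) .nil))))))) (.g (nat_lit 5) .nil .nil)))) (.nd (nat_lit 5) 
(.lf (nat_lit 60755) (.g (nat_lit 3947) (.e (nat_lit 1550) (nat_lit 109) (.e (nat_lit 344117) (nat_lit 21) (.e (nat_lit 516165) (nat_lit 12) (.e (nat_lit 450586) (nat_lit 10) (.e (nat_lit 573473) (nat_lit 12) (.e (nat_lit 57569) (nat_lit 53) (.e (nat_lit 761866) (nat_lit 5) .nil))))))) (.g (nat_lit 0) .nil .nil))) 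
(.lf (nat_lit 60787) (.g (nat_lit 2393) (.e (nat_lit 1550) (nat_lit 109) (.e (nat_lit 344126) (nat_lit 25) (.e (nat_lit 548874) (nat_lit 5) (.e (nat_lit 1598) (nat_lit 111) (.e (nat_lit 360466) (nat_lit 3) (.e (nat_lit 516104) (nat_lit 0) (.e (nat_lit 7936) (nat_lit 402) .nil))))))) (.g (nat_lit 6) .nil .nil))))) (.nd (nat_lit 4) (.nd (nat_lit 5) 
(.lf (nat_lit 60747) (.g (nat_lit 4311) (.e (nat_lit 1550) (nat_lit 109) (.e (nat_lit 344117) (nat_lit 21) (.e (nat_lit 516151) (nat_lit 9) (.e (nat_lit 426286) (nat_lit 10) (.e (nat_lit 434248) (nat_lit 28) (.e (nat_lit 573473) (nat_lit 12) (.e (nat_lit 57569) (nat_lit 53) (.e (nat_lit 761869) (nat_lit 5) .nil)))))))) (.g (nat_lit 8) .nil .nil))) 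
(.lf (nat_lit 60779) (.g (nat_lit 1576) (.e (nat_lit 1550) (nat_lit 109) (.e (nat_lit 344126) (nat_lit 25) (.e (nat_lit 548873) (nat_lit 5) (.e (nat_lit 1598) (nat_lit 111) (.e (nat_lit 360466) (nat_lit 3) (.e (nat_lit 516104) (nat_lit 0) (.e (nat_lit 7936) (nat_lit 402) .nil))))))) (.g (nat_lit 6) .nil .nil)))) (.nd (nat_lit 5) 
(.lf (nat_lit 60763) (.g (nat_lit 1434) (.e (nat_lit 1550) (nat_lit 109) (.e (nat_lit 344117) (nat_lit 21) (.e (nat_lit 516166) (nat_lit 12) (.e (nat_lit 450586) (nat_lit 10) .nil)))) .nil)) 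
(.lf (nat_lit 60795) (.g (nat_lit 3168) (.e (nat_lit 1550) (nat_lit 109) (.e (nat_lit 344126) (nat_lit 25) (.e (nat_lit 548889) (nat_lit 9) (.e (nat_lit 65619) (nat_lit 10) (.e (nat_lit 344117) (nat_lit 21) (.e (nat_lit 516098) (nat_lit 0) (.e (nat_lit 7486) (nat_lit 402) .nil))))))) (.g (nat_lit 5) .nil .nil)))))) (.nd (nat_lit 3) (.nd (nat_lit 4) (.nd (nat_lit 5) 
(.lf (nat_lit 60743) (.g (nat_lit 3038) (.e (nat_lit 1550) (nat_lit 109) (.e (nat_lit 344117) (nat_lit 21) (.e (nat_lit 516151) (nat_lit 9) (.e (nat_lit 426286) (nat_lit 10) (.e (nat_lit 434247) (nat_lit 28) (.e (nat_lit 573478) (nat_lit 12) (.e (nat_lit 57568) (nat_lit 53) (.e (nat_lit 761867) (nat_lit 5) .nil)))))))) (.g (nat_lit 0) .nil .nil))) 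
(.lf (nat_lit 60775) (.g (nat_lit 1726) (.e (nat_lit 1550) (nat_lit 109) (.e (nat_lit 344126) (nat_lit 25) (.e (nat_lit 548872) (nat_lit 5) (.e (nat_lit 1598) (nat_lit 111) (.e (nat_lit 360466) (nat_lit 3) (.e (nat_lit 516100) (nat_lit 0) (.e (nat_lit 7936) (nat_lit 402) .nil))))))) (.g (nat_lit 6) .nil .nil)))) (.nd (nat_lit 5) 
(.lf (nat_lit 60759) (.g (nat_lit 2449) (.e (nat_lit 1550) (nat_lit 109) (.e (nat_lit 344117) (nat_lit 21) (.e (nat_lit 516165) (nat_lit 12) (.e (nat_lit 450586) (nat_lit 10) (.e (nat_lit 573478) (nat_lit 12) (.e (nat_lit 57568) (nat_lit 53) (.e (nat_lit 761867) (nat_lit 5) .nil))))))) (.g (nat_lit 0) .nil .nil))) 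
(.lf (nat_lit 60791) (.g (nat_lit 1755) (.e (nat_lit 1550) (nat_lit 109) (.e (nat_lit 344126) (nat_lit 25) (.e (nat_lit 548889) (nat_lit 9) (.e (nat_lit 65611) (nat_lit 10) .nil)))) .nil)))) (.nd (nat_lit 4) (.nd (nat_lit 5) 
(.lf (nat_lit 60751) (.g (nat_lit 1899) (.e (nat_lit 1550) (nat_lit 109) (.e (nat_lit 344117) (nat_lit 21) (.e (nat_lit 516165) (nat_lit 12) (.e (nat_lit 450579) (nat_lit 5) .nil)))) .nil)) 
(.lf (nat_lit 60783) (.g (nat_lit 1414) (.e (nat_lit 1550) (nat_lit 109) (.e (nat_lit 344126) (nat_lit 25) (.e (nat_lit 548874) (nat_lit 5) (.e (nat_lit 1598) (nat_lit 111) .nil)))) .nil))) (.nd (nat_lit 5) 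
(.lf (nat_lit 60767) (.g (nat_lit 3963) (.e (nat_lit 1550) (nat_lit 109) (.e (nat_lit 344117) (nat_lit 21) (.e (nat_lit 516166) (nat_lit 12) (.e (nat_lit 450588) (nat_lit 10) (.e (nat_lit 573473) (nat_lit 12) (.e (nat_lit 57569) (nat_lit 53) (.e (nat_lit 761867) (nat_lit 5) .nil))))))) (.g (nat_lit 0) .nil .nil))) 
(.lf (nat_lit 60799) (.g (nat_lit 1280) (.e (nat_lit 1550) (nat_lit 109) (.e (nat_lit 344129) (nat_lit 26) (.e (nat_lit 557066) (nat_lit 9) (.e (nat_lit 321) (nat_lit 24) .nil)))) .nil))))))))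

noncomputable def tv833 : DT := (.nd (nat_lit 0) (.nd (nat_lit 1) (.nd (nat_lit 2) (.nd (nat_lit 3) (.nd (nat_lit 4) (.nd (nat_lit 5) 
(.lf (nat_lit 60800) (.g (nat_lit 1583) (.e (nat_lit 1550) (nat_lit 109) (.e (nat_lit 344129) (nat_lit 26) (.e (nat_lit 557066) (nat_lit 9) (.e (nat_lit 321) (nat_lit 24) (.e (nat_lit 360464) (nat_lit 2) (.e (nat_lit 507908) (nat_lit 0) (.e (nat_lit 5291) (nat_lit 298) .nil))))))) (.g (nat_lit 4) .nil .nil))) 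
(.lf (nat_lit 60832) (.g (nat_lit 2030) (.e (nat_lit 1551) (nat_lit 109) (.e (nat_lit 344117) (nat_lit 21) (.e (nat_lit 516139) (nat_lit 7) (.e (nat_lit 409641) (nat_lit 17) .nil)))) .nil))) (.nd (nat_lit 5) 
(.lf (nat_lit 60816) (.g (nat_lit 1329) (.e (nat_lit 1551) (nat_lit 109) (.e (nat_lit 344115) (nat_lit 20) (.e (nat_lit 507907) (nat_lit 0) (.e (nat_lit 5412) (nat_lit 303) (.e (nat_lit 73746) (nat_lit 3) (.e (nat_lit 516100) (nat_lit 0) (.e (nat_lit 7936) (nat_lit 402) .nil))))))) (.g (nat_lit 6) .nil .nil))) 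
(.lf (nat_lit 60848) (.g (nat_lit 4163) (.e (nat_lit 1551) (nat_lit 109) (.e (nat_lit 344117) (nat_lit 21) (.e (nat_lit 516151) (nat_lit 9) (.e (nat_lit 426285) (nat_lit 10) (.e (nat_lit 434248) (nat_lit 28) .nil))))) .nil)))) (.nd (nat_lit 4) (.nd (nat_lit 5) 
(.lf (nat_lit 60808) (.g (nat_lit 2247) (.e (nat_lit 1550) (nat_lit 109) (.e (nat_lit 344129) (nat_lit 26) (.e (nat_lit 557103) (nat_lit 14) (.e (nat_lit 180244) (nat_lit 5) .nil)))) .nil)) 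
(.lf (nat_lit 60840) (.g (nat_lit 5070) (.e (nat_lit 1551) (nat_lit 109) (.e (nat_lit 344117) (nat_lit 21) (.e (nat_lit 516151) (nat_lit 9) (.e (nat_lit 426211) (nat_lit 9) (.e (nat_lit 426125) (nat_lit 2) (.e (nat_lit 204544) (nat_lit 3) (.e (nat_lit 163999) (nat_lit 38) (.e (nat_lit 639007) (nat_lit 13) .nil)))))))) (.g (nat_lit 5) .nil .nil)))) (.nd (nat_lit 5) 
(.lf (nat_lit 60824) (.g (nat_lit 902) (.e (nat_lit 1551) (nat_lit 109) (.e (nat_lit 344117) (nat_lit 21) (.e (nat_lit 516123) (nat_lit 2) .nil))) .nil)) 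
(.lf (nat_lit 60856) (.g (nat_lit 3093) (.e (nat_lit 1551) (nat_lit 109) (.e (nat_lit 344117) (nat_lit 21) (.e (nat_lit 516151) (nat_lit 9) (.e (nat_lit 426286) (nat_lit 10) (.e (nat_lit 434245) (nat_lit 28) (.e (nat_lit 573473) (nat_lit 12) (.e (nat_lit 57353) (nat_lit 0) (.e (nat_lit 7124) (nat_lit 382) (.e (nat_lit 1016) (nat_lit 81) .nil))))))))) (.g (nat_lit 6) .nil .nil)))))) 
(.nd (nat_lit 3) (.nd (nat_lit 4) (.nd (nat_lit 5) 
(.lf (nat_lit 60804) (.g (nat_lit 1777) (.e (nat_lit 1550) (nat_lit 109) (.e (nat_lit 344129) (nat_lit 26) (.e (nat_lit 557087) (nat_lit 11) (.e (nat_lit 24640) (nat_lit 10) .nil)))) .nil)) 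
(.lf (nat_lit 60836) (.g (nat_lit 3244) (.e (nat_lit 1551) (nat_lit 109) (.e (nat_lit 344117) (nat_lit 21) (.e (nat_lit 516151) (nat_lit 9) (.e (nat_lit 426170) (nat_lit 7) .nil)))) .nil))) (.nd (nat_lit 5) 
(.lf (nat_lit 60820) (.g (nat_lit 1172) (.e (nat_lit 1551) (nat_lit 109) (.e (nat_lit 344115) (nat_lit 20) (.e (nat_lit 507908) (nat_lit 0) (.e (nat_lit 5412) (nat_lit 303) (.e (nat_lit 73746) (nat_lit 3) (.e (nat_lit 516104) (nat_lit 0) (.e (nat_lit 7936) (nat_lit 402) .nil))))))) (.g (nat_lit 5) .nil .nil))) 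
(.lf (nat_lit 60852) (.g (nat_lit 1884) (.e (nat_lit 1551) (nat_lit 109) (.e (nat_lit 344117) (nat_lit 21) (.e (nat_lit 516151) (nat_lit 9) (.e (nat_lit 426286) (nat_lit 10) (.e (nat_lit 434245) (nat_lit 28) .nil))))) .nil)))) (.nd (nat_lit 4) (.nd (nat_lit 5) 
(.lf (nat_lit 60812) (.g (nat_lit 1361) (.e (nat_lit 1550) (nat_lit 109) (.e (nat_lit 344177) (nat_lit 43) (.e (nat_lit 770074) (nat_lit 10) (.e (nat_lit 89856) (nat_lit 9) .nil)))) .nil)) 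
(.lf (nat_lit 60844) (.g (nat_lit 3165) (.e (nat_lit 1551) (nat_lit 109) (.e (nat_lit 344117) (nat_lit 21) (.e (nat_lit 516151) (nat_lit 9) (.e (nat_lit 426282) (nat_lit 10) .nil)))) .nil))) (.nd (nat_lit 5) 
(.lf (nat_lit 60828) (.g (nat_lit 1771) (.e (nat_lit 1551) (nat_lit 109) (.e (nat_lit 344117) (nat_lit 21) (.e (nat_lit 516130) (nat_lit 3) (.e (nat_lit 221198) (nat_lit 20) .nil)))) .nil)) 
(.lf (nat_lit 60860) (.g (nat_lit 2071) (.e (nat_lit 1551) (nat_lit 109) (.e (nat_lit 344117) (nat_lit 21) (.e (nat_lit 516151) (nat_lit 9) (.e (nat_lit 426286) (nat_lit 10) (.e (nat_lit 434247) (nat_lit 28) (.e (nat_lit 573473) (nat_lit 12) (.e (nat_lit 57572) (nat_lit 54) (.e (nat_lit 770055) (nat_lit 5) .nil)))))))) (.g (nat_lit 4) .nil .nil))))))) 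
(.nd (nat_lit 2) (.nd (nat_lit 3) (.nd (nat_lit 4) (.nd (nat_lit 5) 
(.lf (nat_lit 60802) (.g (nat_lit 1823) (.e (nat_lit 1550) (nat_lit 109) (.e (nat_lit 344129) (nat_lit 26) (.e (nat_lit 557087) (nat_lit 11) (.e (nat_lit 24639) (nat_lit 10) .nil)))) .nil)) 
(.lf (nat_lit 60834) (.g (nat_lit 2476) (.e (nat_lit 1551) (nat_lit 109) (.e (nat_lit 344117) (nat_lit 21) (.e (nat_lit 516139) (nat_lit 7) (.e (nat_lit 409645) (nat_lit 18) .nil)))) .nil))) (.nd (nat_lit 5) 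
(.lf (nat_lit 60818) (.g (nat_lit 1381) (.e (nat_lit 1551) (nat_lit 109) (.e (nat_lit 344115) (nat_lit 20) (.e (nat_lit 507907) (nat_lit 0) (.e (nat_lit 5412) (nat_lit 303) (.e (nat_lit 73746) (nat_lit 3) (.e (nat_lit 516105) (nat_lit 0) (.e (nat_lit 7936) (nat_lit 402) .nil))))))) (.g (nat_lit 6) .nil .nil))) 
(.lf (nat_lit 60850) (.g (nat_lit 2038) (.e (nat_lit 1551) (nat_lit 109) (.e (nat_lit 344117) (nat_lit 21) (.e (nat_lit 516151) (nat_lit 9) (.e (nat_lit 426286) (nat_lit 10) (.e (nat_lit 434242) (nat_lit 28) .nil))))) .nil)))) (.nd (nat_lit 4) (.nd (nat_lit 5) 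
(.lf (nat_lit 60810) (.g (nat_lit 555) (.e (nat_lit 1550) (nat_lit 109) (.e (nat_lit 344160) (nat_lit 37) (.e (nat_lit 647183) (nat_lit 4) .nil))) .nil)) 
(.lf (nat_lit 60842) (.g (nat_lit 2856) (.e (nat_lit 1551) (nat_lit 109) (.e (nat_lit 344117) (nat_lit 21) (.e (nat_lit 516151) (nat_lit 9) (.e (nat_lit 426275) (nat_lit 10) .nil)))) .nil))) (.nd (nat_lit 5) 
(.lf (nat_lit 60826) (.g (nat_lit 1778) (.e (nat_lit 1551) (nat_lit 109) (.e (nat_lit 344117) (nat_lit 21) (.e (nat_lit 516129) (nat_lit 3) (.e (nat_lit 221210) (nat_lit 22) .nil)))) .nil)) 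
(.lf (nat_lit 60858) (.g (nat_lit 2657) (.e (nat_lit 1551) (nat_lit 109) (.e (nat_lit 344117) (nat_lit 21) (.e (nat_lit 516151) (nat_lit 9) (.e (nat_lit 426286) (nat_lit 10) (.e (nat_lit 434245) (nat_lit 28) (.e (nat_lit 573474) (nat_lit 12) (.e (nat_lit 57351) (nat_lit 0) (.e (nat_lit 7125) (nat_lit 382) (.e (nat_lit 1016) (nat_lit 81) .nil))))))))) (.g (nat_lit 5) .nil .nil)))))) 
(.nd (nat_lit 3) (.nd (nat_lit 4) (.nd (nat_lit 5) 
(.lf (nat_lit 60806) (.g (nat_lit 3145) (.e (nat_lit 1550) (nat_lit 109) (.e (nat_lit 344129) (nat_lit 26) (.e (nat_lit 557097) (nat_lit 13) (.e (nat_lit 172067) (nat_lit 3) (.e (nat_lit 204809) (nat_lit 9) .nil))))) .nil)) 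
(.lf (nat_lit 60838) (.g (nat_lit 4737) (.e (nat_lit 1551) (nat_lit 109) (.e (nat_lit 344117) (nat_lit 21) (.e (nat_lit 516151) (nat_lit 9) (.e (nat_lit 426211) (nat_lit 9) (.e (nat_lit 426125) (nat_lit 2) .nil))))) .nil))) (.nd (nat_lit 5) 
(.lf (nat_lit 60822) (.g (nat_lit 1551) (.e (nat_lit 1551) (nat_lit 109) (.e (nat_lit 344117) (nat_lit 21) (.e (nat_lit 516097) (nat_lit 0) (.e (nat_lit 7389) (nat_lit 393) .nil)))) .nil)) 
(.lf (nat_lit 60854) (.g (nat_lit 3233) (.e (nat_lit 1551) (nat_lit 109) (.e (nat_lit 344117) (nat_lit 21) (.e (nat_lit 516151) (nat_lit 9) (.e (nat_lit 426286) (nat_lit 10) (.e (nat_lit 434245) (nat_lit 28) (.e (nat_lit 573473) (nat_lit 12) (.e (nat_lit 57352) (nat_lit 0) (.e (nat_lit 7122) (nat_lit 382) (.e (nat_lit 1016) (nat_lit 81) .nil))))))))) (.g (nat_lit 6) .nil .nil))))) 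
(.nd (nat_lit 4) (.nd (nat_lit 5) 
(.lf (nat_lit 60814) (.g (nat_lit 1233) (.e (nat_lit 1551) (nat_lit 109) (.e (nat_lit 344115) (nat_lit 20) (.e (nat_lit 507906) (nat_lit 0) (.e (nat_lit 5412) (nat_lit 303) (.e (nat_lit 73746) (nat_lit 3) (.e (nat_lit 516104) (nat_lit 0) (.e (nat_lit 7936) (nat_lit 402) .nil))))))) (.g (nat_lit 5) .nil .nil))) 
(.lf (nat_lit 60846) (.g (nat_lit 3216) (.e (nat_lit 1551) (nat_lit 109) (.e (nat_lit 344117) (nat_lit 21) (.e (nat_lit 516151) (nat_lit 9) (.e (nat_lit 426285) (nat_lit 10) .nil)))) .nil))) (.nd (nat_lit 5) 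
(.lf (nat_lit 60830) (.g (nat_lit 1782) (.e (nat_lit 1551) (nat_lit 109) (.e (nat_lit 344117) (nat_lit 21) (.e (nat_lit 516130) (nat_lit 3) (.e (nat_lit 221211) (nat_lit 22) .nil)))) .nil)) 
(.lf (nat_lit 60862) (.g (nat_lit 2671) (.e (nat_lit 1551) (nat_lit 109) (.e (nat_lit 344117) (nat_lit 21) (.e (nat_lit 516151) (nat_lit 9) (.e (nat_lit 426286) (nat_lit 10) (.e (nat_lit 434247) (nat_lit 28) (.e (nat_lit 573478) (nat_lit 12) (.e (nat_lit 57351) (nat_lit 0) (.e (nat_lit 7124) (nat_lit 382) (.e (nat_lit 1016) (nat_lit 81) .nil))))))))) (.g (nat_lit 5) .nil .nil)))))))) 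
(.nd (nat_lit 1) (.nd (nat_lit 2) (.nd (nat_lit 3) (.nd (nat_lit 4) (.nd (nat_lit 5) 
(.lf (nat_lit 60801) (.g (nat_lit 1443) (.e (nat_lit 1550) (nat_lit 109) (.e (nat_lit 344129) (nat_lit 26) (.e (nat_lit 557066) (nat_lit 9) (.e (nat_lit 324) (nat_lit 24) (.e (nat_lit 360464) (nat_lit 2) .nil))))) .nil)) 
(.lf (nat_lit 60833) (.g (nat_lit 3006) (.e (nat_lit 1551) (nat_lit 109) (.e (nat_lit 344117) (nat_lit 21) (.e (nat_lit 516139) (nat_lit 7) (.e (nat_lit 409641) (nat_lit 17) (.e (nat_lit 294930) (nat_lit 3) .nil))))) .nil))) (.nd (nat_lit 5) 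
(.lf (nat_lit 60817) (.g (nat_lit 1152) (.e (nat_lit 1551) (nat_lit 109) (.e (nat_lit 344115) (nat_lit 20) (.e (nat_lit 507907) (nat_lit 0) (.e (nat_lit 5412) (nat_lit 303) (.e (nat_lit 73746) (nat_lit 3) (.e (nat_lit 516104) (nat_lit 0) (.e (nat_lit 7936) (nat_lit 402) .nil))))))) (.g (nat_lit 5) .nil .nil))) 
(.lf (nat_lit 60849) (.g (nat_lit 1152) (.e (nat_lit 1551) (nat_lit 109) (.e (nat_lit 344117) (nat_lit 21) (.e (nat_lit 516151) (nat_lit 9) (.e (nat_lit 426286) (nat_lit 10) .nil)))) .nil)))) (.nd (nat_lit 4) (.nd (nat_lit 5) 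
(.lf (nat_lit 60809) (.g (nat_lit 2484) (.e (nat_lit 1550) (nat_lit 109) (.e (nat_lit 344156) (nat_lit 36) (.e (nat_lit 638998) (nat_lit 8) (.e (nat_lit 172079) (nat_lit 7) (.e (nat_lit 409618) (nat_lit 10) (.e (nat_lit 4990) (nat_lit 288) (.e (nat_lit 57884) (nat_lit 270) .nil))))))) (.g (nat_lit 5) .nil .nil))) 
(.lf (nat_lit 60841) (.g (nat_lit 4777) (.e (nat_lit 1551) (nat_lit 109) (.e (nat_lit 344117) (nat_lit 21) (.e (nat_lit 516151) (nat_lit 9) (.e (nat_lit 426211) (nat_lit 9) (.e (nat_lit 426125) (nat_lit 2) (.e (nat_lit 204544) (nat_lit 7) (.e (nat_lit 229447) (nat_lit 38) (.e (nat_lit 639007) (nat_lit 13) .nil)))))))) (.g (nat_lit 4) .nil .nil)))) (.nd (nat_lit 5) 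
(.lf (nat_lit 60825) (.g (nat_lit 875) (.e (nat_lit 1551) (nat_lit 109) (.e (nat_lit 344117) (nat_lit 21) (.e (nat_lit 516129) (nat_lit 3) .nil))) .nil)) 
(.lf (nat_lit 60857) (.g (nat_lit 3827) (.e (nat_lit 1551) (nat_lit 109) (.e (nat_lit 344117) (nat_lit 21) (.e (nat_lit 516151) (nat_lit 9) (.e (nat_lit 426286) (nat_lit 10) (.e (nat_lit 434245) (nat_lit 28) (.e (nat_lit 573474) (nat_lit 12) (.e (nat_lit 57348) (nat_lit 0) (.e (nat_lit 7124) (nat_lit 382) (.e (nat_lit 1016) (nat_lit 81) .nil))))))))) (.g (nat_lit 6) .nil .nil)))))) 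
(.nd (nat_lit 3) (.nd (nat_lit 4) (.nd (nat_lit 5) 
(.lf (nat_lit 60805) (.g (nat_lit 2978) (.e (nat_lit 1550) (nat_lit 109) (.e (nat_lit 344129) (nat_lit 26) (.e (nat_lit 557087) (nat_lit 11) (.e (nat_lit 24640) (nat_lit 10) (.e (nat_lit 344115) (nat_lit 20) (.e (nat_lit 507908) (nat_lit 0) (.e (nat_lit 5291) (nat_lit 298) .nil))))))) (.g (nat_lit 5) .nil .nil))) 
(.lf (nat_lit 60837) (.g (nat_lit 3869) (.e (nat_lit 1551) (nat_lit 109) (.e (nat_lit 344117) (nat_lit 21) (.e (nat_lit 516151) (nat_lit 9) (.e (nat_lit 426211) (nat_lit 9) .nil)))) .nil))) (.nd (nat_lit 5) 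
(.lf (nat_lit 60821) (.g (nat_lit 1402) (.e (nat_lit 1551) (nat_lit 109) (.e (nat_lit 344115) (nat_lit 20) (.e (nat_lit 507908) (nat_lit 0) (.e (nat_lit 5412) (nat_lit 303) (.e (nat_lit 73746) (nat_lit 3) (.e (nat_lit 516105) (nat_lit 0) (.e (nat_lit 7936) (nat_lit 402) .nil))))))) (.g (nat_lit 6) .nil .nil))) 
(.lf (nat_lit 60853) (.g (nat_lit 3197) (.e (nat_lit 1551) (nat_lit 109) (.e (nat_lit 344117) (nat_lit 21) (.e (nat_lit 516151) (nat_lit 9) (.e (nat_lit 426286) (nat_lit 10) (.e (nat_lit 434245) (nat_lit 28) (.e (nat_lit 573473) (nat_lit 12) (.e (nat_lit 57348) (nat_lit 0) (.e (nat_lit 7124) (nat_lit 382) (.e (nat_lit 1016) (nat_lit 81) .nil))))))))) (.g (nat_lit 6) .nil .nil))))) 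
(.nd (nat_lit 4) (.nd (nat_lit 5) 
(.lf (nat_lit 60813) (.g (nat_lit 1405) (.e (nat_lit 1551) (nat_lit 109) (.e (nat_lit 344115) (nat_lit 20) (.e (nat_lit 507906) (nat_lit 0) (.e (nat_lit 5412) (nat_lit 303) (.e (nat_lit 73746) (nat_lit 3) (.e (nat_lit 516100) (nat_lit 0) (.e (nat_lit 7936) (nat_lit 402) .nil))))))) (.g (nat_lit 6) .nil .nil))) 
(.lf (nat_lit 60845) (.g (nat_lit 2964) (.e (nat_lit 1551) (nat_lit 109) (.e (nat_lit 344117) (nat_lit 21) (.e (nat_lit 516151) (nat_lit 9) (.e (nat_lit 426284) (nat_lit 10) .nil)))) .nil))) (.nd (nat_lit 5) 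
(.lf (nat_lit 60829) (.g (nat_lit 1705) (.e (nat_lit 1551) (nat_lit 109) (.e (nat_lit 344117) (nat_lit 21) (.e (nat_lit 516130) (nat_lit 3) (.e (nat_lit 221204) (nat_lit 20) .nil)))) .nil)) 
(.lf (nat_lit 60861) (.g (nat_lit 3209) (.e (nat_lit 1551) (nat_lit 109) (.e (nat_lit 344117) (nat_lit 21) (.e (nat_lit 516151) (nat_lit 9) (.e (nat_lit 426286) (nat_lit 10) (.e (nat_lit 434247) (nat_lit 28) (.e (nat_lit 573477) (nat_lit 12) (.e (nat_lit 57352) (nat_lit 0) (.e (nat_lit 7122) (nat_lit 382) (.e (nat_lit 1016) (nat_lit 81) .nil))))))))) (.g (nat_lit 6) .nil .nil))))))) 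
(.nd (nat_lit 2) (.nd (nat_lit 3) (.nd (nat_lit 4) (.nd (nat_lit 5) 
(.lf (nat_lit 60803) (.g (nat_lit 2425) (.e (nat_lit 1550) (nat_lit 109) (.e (nat_lit 344129) (nat_lit 26) (.e (nat_lit 557087) (nat_lit 11) (.e (nat_lit 24639) (nat_lit 10) (.e (nat_lit 344115) (nat_lit 20) (.e (nat_lit 507907) (nat_lit 0) (.e (nat_lit 5291) (nat_lit 298) .nil))))))) (.g (nat_lit 4) .nil .nil))) 
(.lf (nat_lit 60835) (.g (nat_lit 2086) (.e (nat_lit 1551) (nat_lit 109) (.e (nat_lit 344117) (nat_lit 21) (.e (nat_lit 516139) (nat_lit 7) (.e (nat_lit 409646) (nat_lit 18) .nil)))) .nil))) (.nd (nat_lit 5) 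
(.lf (nat_lit 60819) (.g (nat_lit 1352) (.e (nat_lit 1551) (nat_lit 109) (.e (nat_lit 344115) (nat_lit 20) (.e (nat_lit 507908) (nat_lit 0) (.e (nat_lit 5412) (nat_lit 303) (.e (nat_lit 73746) (nat_lit 3) (.e (nat_lit 516100) (nat_lit 0) (.e (nat_lit 7936) (nat_lit 402) .nil))))))) (.g (nat_lit 6) .nil .nil))) 
(.lf (nat_lit 60851) (.g (nat_lit 3306) (.e (nat_lit 1551) (nat_lit 109) (.e (nat_lit 344117) (nat_lit 21) (.e (nat_lit 516151) (nat_lit 9) (.e (nat_lit 426286) (nat_lit 10) (.e (nat_lit 434243) (nat_lit 28) (.e (nat_lit 573474) (nat_lit 12) (.e (nat_lit 57572) (nat_lit 54) (.e (nat_lit 770057) (nat_lit 5) .nil)))))))) (.g (nat_lit 6) .nil .nil))))) (.nd (nat_lit 4) (.nd (nat_lit 5) 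
(.lf (nat_lit 60811) (.g (nat_lit 4256) (.e (nat_lit 1550) (nat_lit 109) (.e (nat_lit 344169) (nat_lit 40) (.e (nat_lit 671762) (nat_lit 4) (.e (nat_lit 65629) (nat_lit 14) (.e (nat_lit 401454) (nat_lit 12) (.e (nat_lit 483072) (nat_lit 8) .nil)))))) (.g (nat_lit 5) .nil .nil))) 
(.lf (nat_lit 60843) (.g (nat_lit 3236) (.e (nat_lit 1551) (nat_lit 109) (.e (nat_lit 344117) (nat_lit 21) (.e (nat_lit 516151) (nat_lit 9) (.e (nat_lit 426281) (nat_lit 10) .nil)))) .nil))) (.nd (nat_lit 5) 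
(.lf (nat_lit 60827) (.g (nat_lit 748) (.e (nat_lit 1551) (nat_lit 109) (.e (nat_lit 344117) (nat_lit 21) (.e (nat_lit 516130) (nat_lit 3) .nil))) .nil)) 
(.lf (nat_lit 60859) (.g (nat_lit 1989) (.e (nat_lit 1551) (nat_lit 109) (.e (nat_lit 344117) (nat_lit 21) (.e (nat_lit 516151) (nat_lit 9) (.e (nat_lit 426286) (nat_lit 10) (.e (nat_lit 434247) (nat_lit 28) .nil))))) .nil))))) (.nd (nat_lit 3) (.nd (nat_lit 4) (.nd (nat_lit 5) 
(.lf (nat_lit 60807) (.g (nat_lit 2017) (.e (nat_lit 1550) (nat_lit 109) (.e (nat_lit 344129) (nat_lit 26) (.e (nat_lit 557097) (nat_lit 13) (.e (nat_lit 172133) (nat_lit 15) .nil)))) .nil)) 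
(.lf (nat_lit 60839) (.g (nat_lit 5087) (.e (nat_lit 1551) (nat_lit 109) (.e (nat_lit 344117) (nat_lit 21) (.e (nat_lit 516151) (nat_lit 9) (.e (nat_lit 426211) (nat_lit 9) (.e (nat_lit 426125) (nat_lit 2) (.e (nat_lit 204544) (nat_lit 1) (.e (nat_lit 8343) (nat_lit 86) (.e (nat_lit 696350) (nat_lit 13) .nil)))))))) (.g (nat_lit 5) .nil .nil)))) (.nd (nat_lit 5) 
(.lf (nat_lit 60823) (.g (nat_lit 513) (.e (nat_lit 1551) (nat_lit 109) (.e (nat_lit 344117) (nat_lit 21) (.e (nat_lit 516106) (nat_lit 0) .nil))) .nil)) 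
(.lf (nat_lit 60855) (.g (nat_lit 2681) (.e (nat_lit 1551) (nat_lit 109) (.e (nat_lit 344117) (nat_lit 21) (.e (nat_lit 516151) (nat_lit 9) (.e (nat_lit 426286) (nat_lit 10) (.e (nat_lit 434245) (nat_lit 28) (.e (nat_lit 573473) (nat_lit 12) (.e (nat_lit 57353) (nat_lit 0) (.e (nat_lit 7122) (nat_lit 382) (.e (nat_lit 1016) (nat_lit 81) .nil))))))))) (.g (nat_lit 5) .nil .nil))))) 
(.nd (nat_lit 4) (.nd (nat_lit 5) 
(.lf (nat_lit 60815) (.g (nat_lit 1452) (.e (nat_lit 1551) (nat_lit 109) (.e (nat_lit 344115) (nat_lit 20) (.e (nat_lit 507906) (nat_lit 0) (.e (nat_lit 5412) (nat_lit 303) (.e (nat_lit 73746) (nat_lit 3) (.e (nat_lit 516105) (nat_lit 0) (.e (nat_lit 7936) (nat_lit 402) .nil))))))) (.g (nat_lit 6) .nil .nil))) 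
(.lf (nat_lit 60847) (.g (nat_lit 4366) (.e (nat_lit 1551) (nat_lit 109) (.e (nat_lit 344117) (nat_lit 21) (.e (nat_lit 516151) (nat_lit 9) (.e (nat_lit 426285) (nat_lit 10) (.e (nat_lit 434243) (nat_lit 28) .nil))))) .nil))) (.nd (nat_lit 5) 
(.lf (nat_lit 60831) (.g (nat_lit 1559) (.e (nat_lit 1551) (nat_lit 109) (.e (nat_lit 344117) (nat_lit 21) (.e (nat_lit 516130) (nat_lit 3) (.e (nat_lit 221212) (nat_lit 22) .nil)))) .nil)) 
(.lf (nat_lit 60863) (.g (nat_lit 2586) (.e (nat_lit 1551) (nat_lit 109) (.e (nat_lit 344117) (nat_lit 21) (.e (nat_lit 516151) (nat_lit 9) (.e (nat_lit 426286) (nat_lit 10) (.e (nat_lit 434247) (nat_lit 28) (.e (nat_lit 573478) (nat_lit 12) (.e (nat_lit 57352) (nat_lit 0) (.e (nat_lit 7122) (nat_lit 382) (.e (nat_lit 1016) (nat_lit 81) .nil))))))))) (.g (nat_lit 5) .nil .nil)))))))))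

noncomputable def tv834 : DT := (.nd (nat_lit 0) (.nd (nat_lit 1) (.nd (nat_lit 2) (.nd (nat_lit 3) (.nd (nat_lit 4) (.nd (nat_lit 5) 
(.lf (nat_lit 60864) (.g (nat_lit 2096) (.e (nat_lit 1551) (nat_lit 109) (.e (nat_lit 344117) (nat_lit 21) (.e (nat_lit 516151) (nat_lit 9) (.e (nat_lit 426286) (nat_lit 10) (.e (nat_lit 434247) (nat_lit 28) (.e (nat_lit 573478) (nat_lit 12) (.e (nat_lit 57353) (nat_lit 0) (.e (nat_lit 7122) (nat_lit 382) (.e (nat_lit 1016) (nat_lit 81) .nil))))))))) (.g (nat_lit 4) .nil .nil))) 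
(.lf (nat_lit 60896) (.g (nat_lit 3524) (.e (nat_lit 1551) (nat_lit 109) (.e (nat_lit 344117) (nat_lit 21) (.e (nat_lit 516165) (nat_lit 12) (.e (nat_lit 450579) (nat_lit 5) (.e (nat_lit 532501) (nat_lit 1) (.e (nat_lit 57767) (nat_lit 221) (.e (nat_lit 1011) (nat_lit 81) .nil))))))) (.g (nat_lit 7) .nil .nil)))) (.nd (nat_lit 5) 
(.lf (nat_lit 60880) (.g (nat_lit 2027) (.e (nat_lit 1551) (nat_lit 109) (.e (nat_lit 344117) (nat_lit 21) (.e (nat_lit 516163) (nat_lit 11) (.e (nat_lit 442424) (nat_lit 22) .nil)))) .nil)) 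
(.lf (nat_lit 60912) (.g (nat_lit 1903) (.e (nat_lit 1551) (nat_lit 109) (.e (nat_lit 344117) (nat_lit 21) (.e (nat_lit 516165) (nat_lit 12) (.e (nat_lit 450586) (nat_lit 10) (.e (nat_lit 573478) (nat_lit 12) .nil))))) .nil)))) (.nd (nat_lit 4) (.nd (nat_lit 5) 
(.lf (nat_lit 60872) (.g (nat_lit 4616) (.e (nat_lit 1551) (nat_lit 109) (.e (nat_lit 344117) (nat_lit 21) (.e (nat_lit 516151) (nat_lit 9) (.e (nat_lit 426286) (nat_lit 10) (.e (nat_lit 434248) (nat_lit 28) (.e (nat_lit 573474) (nat_lit 12) (.e (nat_lit 57572) (nat_lit 54) (.e (nat_lit 770056) (nat_lit 5) .nil)))))))) (.g (nat_lit 7) .nil .nil))) 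
(.lf (nat_lit 60904) (.g (nat_lit 3339) (.e (nat_lit 1551) (nat_lit 109) (.e (nat_lit 344117) (nat_lit 21) (.e (nat_lit 516165) (nat_lit 12) (.e (nat_lit 450586) (nat_lit 10) (.e (nat_lit 573474) (nat_lit 12) (.e (nat_lit 57572) (nat_lit 54) (.e (nat_lit 770055) (nat_lit 5) .nil))))))) (.g (nat_lit 5) .nil .nil)))) (.nd (nat_lit 5) 
(.lf (nat_lit 60888) (.g (nat_lit 2215) (.e (nat_lit 1551) (nat_lit 109) (.e (nat_lit 344117) (nat_lit 21) (.e (nat_lit 516165) (nat_lit 12) (.e (nat_lit 458496) (nat_lit 3) (.e (nat_lit 516097) (nat_lit 0) (.e (nat_lit 3393) (nat_lit 210) (.e (nat_lit 639007) (nat_lit 13) .nil))))))) (.g (nat_lit 6) .nil .nil))) 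
(.lf (nat_lit 60920) (.g (nat_lit 4379) (.e (nat_lit 1551) (nat_lit 109) (.e (nat_lit 344117) (nat_lit 21) (.e (nat_lit 516165) (nat_lit 12) (.e (nat_lit 450588) (nat_lit 10) (.e (nat_lit 573474) (nat_lit 12) (.e (nat_lit 57572) (nat_lit 54) (.e (nat_lit 770057) (nat_lit 5) .nil))))))) (.g (nat_lit 0) .nil .nil)))))) (.nd (nat_lit 3) (.nd (nat_lit 4) (.nd (nat_lit 5) 
(.lf (nat_lit 60868) (.g (nat_lit 3334) (.e (nat_lit 1551) (nat_lit 109) (.e (nat_lit 344117) (nat_lit 21) (.e (nat_lit 516151) (nat_lit 9) (.e (nat_lit 426286) (nat_lit 10) (.e (nat_lit 434248) (nat_lit 28) (.e (nat_lit 573473) (nat_lit 12) (.e (nat_lit 57348) (nat_lit 0) (.e (nat_lit 7124) (nat_lit 382) (.e (nat_lit 1016) (nat_lit 81) .nil))))))))) (.g (nat_lit 6) .nil .nil))) 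
(.lf (nat_lit 60900) (.g (nat_lit 2736) (.e (nat_lit 1551) (nat_lit 109) (.e (nat_lit 344117) (nat_lit 21) (.e (nat_lit 516165) (nat_lit 12) (.e (nat_lit 450586) (nat_lit 10) (.e (nat_lit 573473) (nat_lit 12) (.e (nat_lit 57348) (nat_lit 0) (.e (nat_lit 7124) (nat_lit 382) (.e (nat_lit 1016) (nat_lit 81) .nil)))))))) (.g (nat_lit 5) .nil .nil)))) (.nd (nat_lit 5) 
(.lf (nat_lit 60884) (.g (nat_lit 1511) (.e (nat_lit 1551) (nat_lit 109) (.e (nat_lit 344117) (nat_lit 21) (.e (nat_lit 516165) (nat_lit 12) (.e (nat_lit 458496) (nat_lit 1) .nil)))) .nil)) 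
(.lf (nat_lit 60916) (.g (nat_lit 1578) (.e (nat_lit 1551) (nat_lit 109) (.e (nat_lit 344117) (nat_lit 21) (.e (nat_lit 516165) (nat_lit 12) (.e (nat_lit 450587) (nat_lit 10) .nil)))) .nil)))) (.nd (nat_lit 4) (.nd (nat_lit 5) 
(.lf (nat_lit 60876) (.g (nat_lit 2120) (.e (nat_lit 1551) (nat_lit 109) (.e (nat_lit 344117) (nat_lit 21) (.e (nat_lit 516151) (nat_lit 9) (.e (nat_lit 426286) (nat_lit 10) (.e (nat_lit 434248) (nat_lit 28) (.e (nat_lit 573475) (nat_lit 12) (.e (nat_lit 57570) (nat_lit 54) (.e (nat_lit 770054) (nat_lit 5) .nil)))))))) (.g (nat_lit 4) .nil .nil))) 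
(.lf (nat_lit 60908) (.g (nat_lit 1923) (.e (nat_lit 1551) (nat_lit 109) (.e (nat_lit 344117) (nat_lit 21) (.e (nat_lit 516165) (nat_lit 12) (.e (nat_lit 450586) (nat_lit 10) (.e (nat_lit 573475) (nat_lit 12) .nil))))) .nil))) (.nd (nat_lit 5) 
(.lf (nat_lit 60892) (.g (nat_lit 2236) (.e (nat_lit 1551) (nat_lit 109) (.e (nat_lit 344117) (nat_lit 21) (.e (nat_lit 516165) (nat_lit 12) (.e (nat_lit 450579) (nat_lit 5) (.e (nat_lit 532484) (nat_lit 0) (.e (nat_lit 1911) (nat_lit 129) (.e (nat_lit 598023) (nat_lit 5) .nil))))))) (.g (nat_lit 4) .nil .nil))) 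
(.lf (nat_lit 60924) (.g (nat_lit 3815) (.e (nat_lit 1551) (nat_lit 109) (.e (nat_lit 344117) (nat_lit 21) (.e (nat_lit 516166) (nat_lit 12) (.e (nat_lit 450585) (nat_lit 10) (.e (nat_lit 573474) (nat_lit 12) (.e (nat_lit 57572) (nat_lit 54) (.e (nat_lit 770056) (nat_lit 5) .nil))))))) (.g (nat_lit 6) .nil .nil))))))) (.nd (nat_lit 2) (.nd (nat_lit 3) (.nd (nat_lit 4) (.nd (nat_lit 5) 
(.lf (nat_lit 60866) (.g (nat_lit 1956) (.e (nat_lit 1551) (nat_lit 109) (.e (nat_lit 344117) (nat_lit 21) (.e (nat_lit 516151) (nat_lit 9) (.e (nat_lit 426286) (nat_lit 10) (.e (nat_lit 434248) (nat_lit 28) .nil))))) .nil)) 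
(.lf (nat_lit 60898) (.g (nat_lit 4812) (.e (nat_lit 1551) (nat_lit 109) (.e (nat_lit 344117) (nat_lit 21) (.e (nat_lit 516165) (nat_lit 12) (.e (nat_lit 450585) (nat_lit 10) (.e (nat_lit 573474) (nat_lit 12) (.e (nat_lit 57572) (nat_lit 54) (.e (nat_lit 770057) (nat_lit 5) .nil))))))) (.g (nat_lit 6) .nil .nil)))) (.nd (nat_lit 5) 
(.lf (nat_lit 60882) (.g (nat_lit 3002) (.e (nat_lit 1551) (nat_lit 109) (.e (nat_lit 344117) (nat_lit 21) (.e (nat_lit 516163) (nat_lit 11) (.e (nat_lit 442424) (nat_lit 22) (.e (nat_lit 196661) (nat_lit 12) .nil))))) .nil)) 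
(.lf (nat_lit 60914) (.g (nat_lit 2011) (.e (nat_lit 1551) (nat_lit 109) (.e (nat_lit 344117) (nat_lit 21) (.e (nat_lit 516165) (nat_lit 12) (.e (nat_lit 450586) (nat_lit 10) (.e (nat_lit 573478) (nat_lit 12) (.e (nat_lit 57352) (nat_lit 0) (.e (nat_lit 7122) (nat_lit 382) (.e (nat_lit 1016) (nat_lit 81) .nil)))))))) (.g (nat_lit 4) .nil .nil))))) (.nd (nat_lit 4) (.nd (nat_lit 5) 
(.lf (nat_lit 60874) (.g (nat_lit 2755) (.e (nat_lit 1551) (nat_lit 109) (.e (nat_lit 344117) (nat_lit 21) (.e (nat_lit 516151) (nat_lit 9) (.e (nat_lit 426286) (nat_lit 10) (.e (nat_lit 434248) (nat_lit 28) (.e (nat_lit 573475) (nat_lit 12) (.e (nat_lit 57348) (nat_lit 0) (.e (nat_lit 7125) (nat_lit 382) (.e (nat_lit 1016) (nat_lit 81) .nil))))))))) (.g (nat_lit 5) .nil .nil))) 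
(.lf (nat_lit 60906) (.g (nat_lit 4243) (.e (nat_lit 1551) (nat_lit 109) (.e (nat_lit 344117) (nat_lit 21) (.e (nat_lit 516165) (nat_lit 12) (.e (nat_lit 450586) (nat_lit 10) (.e (nat_lit 573474) (nat_lit 12) (.e (nat_lit 57572) (nat_lit 54) (.e (nat_lit 770057) (nat_lit 5) .nil))))))) (.g (nat_lit 0) .nil .nil)))) (.nd (nat_lit 5) 
(.lf (nat_lit 60890) (.g (nat_lit 1295) (.e (nat_lit 1551) (nat_lit 109) (.e (nat_lit 344117) (nat_lit 21) (.e (nat_lit 516165) (nat_lit 12) (.e (nat_lit 450579) (nat_lit 5) .nil)))) .nil)) 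
(.lf (nat_lit 60922) (.g (nat_lit 2072) (.e (nat_lit 1551) (nat_lit 109) (.e (nat_lit 344117) (nat_lit 21) (.e (nat_lit 516166) (nat_lit 12) (.e (nat_lit 458496) (nat_lit 3) (.e (nat_lit 516106) (nat_lit 0) (.e (nat_lit 3391) (nat_lit 210) (.e (nat_lit 639008) (nat_lit 13) .nil))))))) (.g (nat_lit 5) .nil .nil)))))) (.nd (nat_lit 3) (.nd (nat_lit 4) (.nd (nat_lit 5) 
(.lf (nat_lit 60870) (.g (nat_lit 2799) (.e (nat_lit 1551) (nat_lit 109) (.e (nat_lit 344117) (nat_lit 21) (.e (nat_lit 516151) (nat_lit 9) (.e (nat_lit 426286) (nat_lit 10) (.e (nat_lit 434248) (nat_lit 28) (.e (nat_lit 573473) (nat_lit 12) (.e (nat_lit 57353) (nat_lit 0) (.e (nat_lit 7122) (nat_lit 382) (.e (nat_lit 1016) (nat_lit 81) .nil))))))))) (.g (nat_lit 5) .nil .nil))) 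
(.lf (nat_lit 60902) (.g (nat_lit 2607) (.e (nat_lit 1551) (nat_lit 109) (.e (nat_lit 344117) (nat_lit 21) (.e (nat_lit 516165) (nat_lit 12) (.e (nat_lit 450586) (nat_lit 10) (.e (nat_lit 573473) (nat_lit 12) (.e (nat_lit 57353) (nat_lit 0) (.e (nat_lit 7124) (nat_lit 382) (.e (nat_lit 1016) (nat_lit 81) .nil)))))))) (.g (nat_lit 5) .nil .nil)))) (.nd (nat_lit 5) 
(.lf (nat_lit 60886) (.g (nat_lit 2184) (.e (nat_lit 1551) (nat_lit 109) (.e (nat_lit 344117) (nat_lit 21) (.e (nat_lit 516165) (nat_lit 12) (.e (nat_lit 458496) (nat_lit 3) (.e (nat_lit 516097) (nat_lit 0) (.e (nat_lit 3392) (nat_lit 210) (.e (nat_lit 639007) (nat_lit 13) .nil))))))) (.g (nat_lit 5) .nil .nil))) 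
(.lf (nat_lit 60918) (.g (nat_lit 4307) (.e (nat_lit 1551) (nat_lit 109) (.e (nat_lit 344117) (nat_lit 21) (.e (nat_lit 516165) (nat_lit 12) (.e (nat_lit 450587) (nat_lit 10) (.e (nat_lit 573475) (nat_lit 12) (.e (nat_lit 57572) (nat_lit 54) (.e (nat_lit 770057) (nat_lit 5) .nil))))))) (.g (nat_lit 7) .nil .nil))))) (.nd (nat_lit 4) (.nd (nat_lit 5) 
(.lf (nat_lit 60878) (.g (nat_lit 3269) (.e (nat_lit 1551) (nat_lit 109) (.e (nat_lit 344117) (nat_lit 21) (.e (nat_lit 516151) (nat_lit 9) (.e (nat_lit 426290) (nat_lit 10) .nil)))) .nil)) 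
(.lf (nat_lit 60910) (.g (nat_lit 1969) (.e (nat_lit 1551) (nat_lit 109) (.e (nat_lit 344117) (nat_lit 21) (.e (nat_lit 516165) (nat_lit 12) (.e (nat_lit 450586) (nat_lit 10) (.e (nat_lit 573477) (nat_lit 12) .nil))))) .nil))) (.nd (nat_lit 5) 
(.lf (nat_lit 60894) (.g (nat_lit 2059) (.e (nat_lit 1551) (nat_lit 109) (.e (nat_lit 344117) (nat_lit 21) (.e (nat_lit 516165) (nat_lit 12) (.e (nat_lit 450579) (nat_lit 5) (.e (nat_lit 532499) (nat_lit 1) .nil))))) .nil)) 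
(.lf (nat_lit 60926) (.g (nat_lit 3574) (.e (nat_lit 1551) (nat_lit 109) (.e (nat_lit 344117) (nat_lit 21) (.e (nat_lit 516166) (nat_lit 12) (.e (nat_lit 450587) (nat_lit 10) (.e (nat_lit 573472) (nat_lit 12) (.e (nat_lit 57570) (nat_lit 54) (.e (nat_lit 770056) (nat_lit 5) .nil))))))) (.g (nat_lit 7) .nil .nil)))))))) 
(.nd (nat_lit 1) (.nd (nat_lit 2) (.nd (nat_lit 3) (.nd (nat_lit 4) (.nd (nat_lit 5) 
(.lf (nat_lit 60865) (.g (nat_lit 2593) (.e (nat_lit 1551) (nat_lit 109) (.e (nat_lit 344117) (nat_lit 21) (.e (nat_lit 516151) (nat_lit 9) (.e (nat_lit 426286) (nat_lit 10) (.e (nat_lit 434247) (nat_lit 28) (.e (nat_lit 573478) (nat_lit 12) (.e (nat_lit 57353) (nat_lit 0) (.e (nat_lit 7124) (nat_lit 382) (.e (nat_lit 1016) (nat_lit 81) .nil))))))))) (.g (nat_lit 5) .nil .nil))) 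
(.lf (nat_lit 60897) (.g (nat_lit 1899) (.e (nat_lit 1551) (nat_lit 109) (.e (nat_lit 344117) (nat_lit 21) (.e (nat_lit 516165) (nat_lit 12) (.e (nat_lit 450579) (nat_lit 5) (.e (nat_lit 532503) (nat_lit 1) .nil))))) .nil))) (.nd (nat_lit 5) 
(.lf (nat_lit 60881) (.g (nat_lit 2541) (.e (nat_lit 1551) (nat_lit 109) (.e (nat_lit 344117) (nat_lit 21) (.e (nat_lit 516163) (nat_lit 11) (.e (nat_lit 442424) (nat_lit 22) (.e (nat_lit 204544) (nat_lit 3) (.e (nat_lit 163999) (nat_lit 38) (.e (nat_lit 639007) (nat_lit 13) .nil))))))) (.g (nat_lit 4) .nil .nil))) 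
(.lf (nat_lit 60913) (.g (nat_lit 2064) (.e (nat_lit 1551) (nat_lit 109) (.e (nat_lit 344117) (nat_lit 21) (.e (nat_lit 516165) (nat_lit 12) (.e (nat_lit 450586) (nat_lit 10) (.e (nat_lit 573478) (nat_lit 12) (.e (nat_lit 57351) (nat_lit 0) (.e (nat_lit 7124) (nat_lit 382) (.e (nat_lit 1016) (nat_lit 81) .nil)))))))) (.g (nat_lit 4) .nil .nil))))) (.nd (nat_lit 4) (.nd (nat_lit 5) 
(.lf (nat_lit 60873) (.g (nat_lit 4794) (.e (nat_lit 1551) (nat_lit 109) (.e (nat_lit 344117) (nat_lit 21) (.e (nat_lit 516151) (nat_lit 9) (.e (nat_lit 426286) (nat_lit 10) (.e (nat_lit 434248) (nat_lit 28) (.e (nat_lit 573474) (nat_lit 12) (.e (nat_lit 57572) (nat_lit 54) (.e (nat_lit 770057) (nat_lit 5) .nil)))))))) (.g (nat_lit 0) .nil .nil))) 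
(.lf (nat_lit 60905) (.g (nat_lit 4030) (.e (nat_lit 1551) (nat_lit 109) (.e (nat_lit 344117) (nat_lit 21) (.e (nat_lit 516165) (nat_lit 12) (.e (nat_lit 450586) (nat_lit 10) (.e (nat_lit 573474) (nat_lit 12) (.e (nat_lit 57572) (nat_lit 54) (.e (nat_lit 770056) (nat_lit 5) .nil))))))) (.g (nat_lit 6) .nil .nil)))) (.nd (nat_lit 5) 
(.lf (nat_lit 60889) (.g (nat_lit 1674) (.e (nat_lit 1551) (nat_lit 109) (.e (nat_lit 344117) (nat_lit 21) (.e (nat_lit 516165) (nat_lit 12) (.e (nat_lit 450577) (nat_lit 4) .nil)))) .nil)) 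
(.lf (nat_lit 60921) (.g (nat_lit 1457) (.e (nat_lit 1551) (nat_lit 109) (.e (nat_lit 344117) (nat_lit 21) (.e (nat_lit 516166) (nat_lit 12) (.e (nat_lit 458496) (nat_lit 3) .nil)))) .nil))))) (.nd (nat_lit 3) (.nd (nat_lit 4) (.nd (nat_lit 5) 
(.lf (nat_lit 60869) (.g (nat_lit 3357) (.e (nat_lit 1551) (nat_lit 109) (.e (nat_lit 344117) (nat_lit 21) (.e (nat_lit 516151) (nat_lit 9) (.e (nat_lit 426286) (nat_lit 10) (.e (nat_lit 434248) (nat_lit 28) (.e (nat_lit 573473) (nat_lit 12) (.e (nat_lit 57352) (nat_lit 0) (.e (nat_lit 7122) (nat_lit 382) (.e (nat_lit 1016) (nat_lit 81) .nil))))))))) (.g (nat_lit 6) .nil .nil))) 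
(.lf (nat_lit 60901) (.g (nat_lit 2747) (.e (nat_lit 1551) (nat_lit 109) (.e (nat_lit 344117) (nat_lit 21) (.e (nat_lit 516165) (nat_lit 12) (.e (nat_lit 450586) (nat_lit 10) (.e (nat_lit 573473) (nat_lit 12) (.e (nat_lit 57352) (nat_lit 0) (.e (nat_lit 7122) (nat_lit 382) (.e (nat_lit 1016) (nat_lit 81) .nil)))))))) (.g (nat_lit 5) .nil .nil)))) (.nd (nat_lit 5) 
(.lf (nat_lit 60885) (.g (nat_lit 1511) (.e (nat_lit 1551) (nat_lit 109) (.e (nat_lit 344117) (nat_lit 21) (.e (nat_lit 516165) (nat_lit 12) (.e (nat_lit 458496) (nat_lit 3) .nil)))) .nil)) 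
(.lf (nat_lit 60917) (.g (nat_lit 3340) (.e (nat_lit 1551) (nat_lit 109) (.e (nat_lit 344117) (nat_lit 21) (.e (nat_lit 516165) (nat_lit 12) (.e (nat_lit 450587) (nat_lit 10) (.e (nat_lit 573475) (nat_lit 12) (.e (nat_lit 57572) (nat_lit 54) (.e (nat_lit 770055) (nat_lit 5) .nil))))))) (.g (nat_lit 4) .nil .nil))))) (.nd (nat_lit 4) (.nd (nat_lit 5) 
(.lf (nat_lit 60877) (.g (nat_lit 2081) (.e (nat_lit 1551) (nat_lit 109) (.e (nat_lit 344117) (nat_lit 21) (.e (nat_lit 516151) (nat_lit 9) (.e (nat_lit 426286) (nat_lit 10) (.e (nat_lit 434248) (nat_lit 28) (.e (nat_lit 573475) (nat_lit 12) (.e (nat_lit 57571) (nat_lit 54) (.e (nat_lit 770054) (nat_lit 5) .nil)))))))) (.g (nat_lit 4) .nil .nil))) 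
(.lf (nat_lit 60909) (.g (nat_lit 4064) (.e (nat_lit 1551) (nat_lit 109) (.e (nat_lit 344117) (nat_lit 21) (.e (nat_lit 516165) (nat_lit 12) (.e (nat_lit 450586) (nat_lit 10) (.e (nat_lit 573475) (nat_lit 12) (.e (nat_lit 57572) (nat_lit 54) (.e (nat_lit 770058) (nat_lit 5) .nil))))))) (.g (nat_lit 7) .nil .nil)))) (.nd (nat_lit 5) 
(.lf (nat_lit 60893) (.g (nat_lit 2364) (.e (nat_lit 1551) (nat_lit 109) (.e (nat_lit 344117) (nat_lit 21) (.e (nat_lit 516165) (nat_lit 12) (.e (nat_lit 450579) (nat_lit 5) (.e (nat_lit 532484) (nat_lit 0) (.e (nat_lit 1912) (nat_lit 129) (.e (nat_lit 598022) (nat_lit 5) .nil))))))) (.g (nat_lit 4) .nil .nil))) 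
(.lf (nat_lit 60925) (.g (nat_lit 3997) (.e (nat_lit 1551) (nat_lit 109) (.e (nat_lit 344117) (nat_lit 21) (.e (nat_lit 516166) (nat_lit 12) (.e (nat_lit 450585) (nat_lit 10) (.e (nat_lit 573474) (nat_lit 12) (.e (nat_lit 57572) (nat_lit 54) (.e (nat_lit 770057) (nat_lit 5) .nil))))))) (.g (nat_lit 0) .nil .nil))))))) (.nd (nat_lit 2) (.nd (nat_lit 3) (.nd (nat_lit 4) (.nd (nat_lit 5) 
(.lf (nat_lit 60867) (.g (nat_lit 2772) (.e (nat_lit 1551) (nat_lit 109) (.e (nat_lit 344117) (nat_lit 21) (.e (nat_lit 516151) (nat_lit 9) (.e (nat_lit 426286) (nat_lit 10) (.e (nat_lit 434248) (nat_lit 28) (.e (nat_lit 573473) (nat_lit 12) (.e (nat_lit 57347) (nat_lit 0) (.e (nat_lit 7124) (nat_lit 382) (.e (nat_lit 1016) (nat_lit 81) .nil))))))))) (.g (nat_lit 5) .nil .nil))) 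
(.lf (nat_lit 60899) (.g (nat_lit 1118) (.e (nat_lit 1551) (nat_lit 109) (.e (nat_lit 344117) (nat_lit 21) (.e (nat_lit 516165) (nat_lit 12) (.e (nat_lit 450586) (nat_lit 10) .nil)))) .nil))) (.nd (nat_lit 5) 
(.lf (nat_lit 60883) (.g (nat_lit 2789) (.e (nat_lit 1551) (nat_lit 109) (.e (nat_lit 344117) (nat_lit 21) (.e (nat_lit 516163) (nat_lit 11) (.e (nat_lit 442427) (nat_lit 23) (.e (nat_lit 204821) (nat_lit 17) .nil))))) .nil)) 
(.lf (nat_lit 60915) (.g (nat_lit 1957) (.e (nat_lit 1551) (nat_lit 109) (.e (nat_lit 344117) (nat_lit 21) (.e (nat_lit 516165) (nat_lit 12) (.e (nat_lit 450586) (nat_lit 10) (.e (nat_lit 573478) (nat_lit 12) (.e (nat_lit 57353) (nat_lit 0) (.e (nat_lit 7124) (nat_lit 382) (.e (nat_lit 1016) (nat_lit 81) .nil)))))))) (.g (nat_lit 4) .nil .nil))))) (.nd (nat_lit 4) (.nd (nat_lit 5) 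
(.lf (nat_lit 60875) (.g (nat_lit 2822) (.e (nat_lit 1551) (nat_lit 109) (.e (nat_lit 344117) (nat_lit 21) (.e (nat_lit 516151) (nat_lit 9) (.e (nat_lit 426286) (nat_lit 10) (.e (nat_lit 434248) (nat_lit 28) (.e (nat_lit 573475) (nat_lit 12) (.e (nat_lit 57569) (nat_lit 53) (.e (nat_lit 769792) (nat_lit 5) .nil)))))))) (.g (nat_lit 5) .nil .nil))) 
(.lf (nat_lit 60907) (.g (nat_lit 3330) (.e (nat_lit 1551) (nat_lit 109) (.e (nat_lit 344117) (nat_lit 21) (.e (nat_lit 516165) (nat_lit 12) (.e (nat_lit 450586) (nat_lit 10) (.e (nat_lit 573474) (nat_lit 12) (.e (nat_lit 57572) (nat_lit 54) (.e (nat_lit 770058) (nat_lit 5) .nil))))))) (.g (nat_lit 5) .nil .nil)))) (.nd (nat_lit 5) 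
(.lf (nat_lit 60891) (.g (nat_lit 2212) (.e (nat_lit 1551) (nat_lit 109) (.e (nat_lit 344117) (nat_lit 21) (.e (nat_lit 516165) (nat_lit 12) (.e (nat_lit 450579) (nat_lit 5) (.e (nat_lit 532484) (nat_lit 0) .nil))))) .nil)) 
(.lf (nat_lit 60923) (.g (nat_lit 1847) (.e (nat_lit 1551) (nat_lit 109) (.e (nat_lit 344117) (nat_lit 21) (.e (nat_lit 516166) (nat_lit 12) (.e (nat_lit 450577) (nat_lit 4) .nil)))) .nil))))) (.nd (nat_lit 3) (.nd (nat_lit 4) (.nd (nat_lit 5) 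
(.lf (nat_lit 60871) (.g (nat_lit 3213) (.e (nat_lit 1551) (nat_lit 109) (.e (nat_lit 344117) (nat_lit 21) (.e (nat_lit 516151) (nat_lit 9) (.e (nat_lit 426286) (nat_lit 10) (.e (nat_lit 434248) (nat_lit 28) (.e (nat_lit 573473) (nat_lit 12) (.e (nat_lit 57353) (nat_lit 0) (.e (nat_lit 7124) (nat_lit 382) (.e (nat_lit 1016) (nat_lit 81) .nil))))))))) (.g (nat_lit 6) .nil .nil))) 
(.lf (nat_lit 60903) (.g (nat_lit 1840) (.e (nat_lit 1551) (nat_lit 109) (.e (nat_lit 344117) (nat_lit 21) (.e (nat_lit 516165) (nat_lit 12) (.e (nat_lit 450586) (nat_lit 10) (.e (nat_lit 573473) (nat_lit 12) (.e (nat_lit 57353) (nat_lit 0) (.e (nat_lit 7125) (nat_lit 382) (.e (nat_lit 1016) (nat_lit 81) .nil)))))))) (.g (nat_lit 4) .nil .nil)))) (.nd (nat_lit 5) 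
(.lf (nat_lit 60887) (.g (nat_lit 2237) (.e (nat_lit 1551) (nat_lit 109) (.e (nat_lit 344117) (nat_lit 21) (.e (nat_lit 516165) (nat_lit 12) (.e (nat_lit 458496) (nat_lit 3) (.e (nat_lit 516097) (nat_lit 0) (.e (nat_lit 3393) (nat_lit 210) (.e (nat_lit 639006) (nat_lit 13) .nil))))))) (.g (nat_lit 6) .nil .nil))) 
(.lf (nat_lit 60919) (.g (nat_lit 4182) (.e (nat_lit 1551) (nat_lit 109) (.e (nat_lit 344117) (nat_lit 21) (.e (nat_lit 516165) (nat_lit 12) (.e (nat_lit 450588) (nat_lit 10) (.e (nat_lit 573474) (nat_lit 12) (.e (nat_lit 57572) (nat_lit 54) (.e (nat_lit 770056) (nat_lit 5) .nil))))))) (.g (nat_lit 6) .nil .nil))))) (.nd (nat_lit 4) (.nd (nat_lit 5) 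
(.lf (nat_lit 60879) (.g (nat_lit 921) (.e (nat_lit 1551) (nat_lit 109) (.e (nat_lit 344117) (nat_lit 21) (.e (nat_lit 516163) (nat_lit 11) .nil))) .nil)) 
(.lf (nat_lit 60911) (.g (nat_lit 2453) (.e (nat_lit 1551) (nat_lit 109) (.e (nat_lit 344117) (nat_lit 21) (.e (nat_lit 516165) (nat_lit 12) (.e (nat_lit 450586) (nat_lit 10) (.e (nat_lit 573477) (nat_lit 12) (.e (nat_lit 57352) (nat_lit 0) (.e (nat_lit 7122) (nat_lit 382) (.e (nat_lit 1016) (nat_lit 81) .nil)))))))) (.g (nat_lit 5) .nil .nil)))) (.nd (nat_lit 5) 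
(.lf (nat_lit 60895) (.g (nat_lit 3486) (.e (nat_lit 1551) (nat_lit 109) (.e (nat_lit 344117) (nat_lit 21) (.e (nat_lit 516165) (nat_lit 12) (.e (nat_lit 450579) (nat_lit 5) (.e (nat_lit 532501) (nat_lit 1) (.e (nat_lit 57767) (nat_lit 221) (.e (nat_lit 1008) (nat_lit 81) .nil))))))) (.g (nat_lit 7) .nil .nil))) 
(.lf (nat_lit 60927) (.g (nat_lit 3701) (.e (nat_lit 1551) (nat_lit 109) (.e (nat_lit 344117) (nat_lit 21) (.e (nat_lit 516166) (nat_lit 12) (.e (nat_lit 450587) (nat_lit 10) (.e (nat_lit 573472) (nat_lit 12) (.e (nat_lit 57570) (nat_lit 54) (.e (nat_lit 770058) (nat_lit 5) .nil))))))) (.g (nat_lit 7) .nil .nil)))))))))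

noncomputable def tv835 : DT := (.nd (nat_lit 0) (.nd (nat_lit 1) (.nd (nat_lit 2) (.nd (nat_lit 3) (.nd (nat_lit 4) (.nd (nat_lit 5) (.nd (nat_lit 6) 
(.lf (nat_lit 60928) (.g (nat_lit 3172) (.e (nat_lit 1551) (nat_lit 109) (.e (nat_lit 344117) (nat_lit 21) (.e (nat_lit 516166) (nat_lit 12) (.e (nat_lit 450587) (nat_lit 10) (.e (nat_lit 573472) (nat_lit 12) (.e (nat_lit 57572) (nat_lit 54) (.e (nat_lit 770055) (nat_lit 5) .nil))))))) (.g (nat_lit 5) .nil .nil))) 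
(.lf (nat_lit 60992) (.g (nat_lit 2464) (.e (nat_lit 1551) (nat_lit 109) (.e (nat_lit 344129) (nat_lit 26) (.e (nat_lit 557097) (nat_lit 13) (.e (nat_lit 172133) (nat_lit 15) (.e (nat_lit 2175) (nat_lit 143) (.e (nat_lit 712747) (nat_lit 28) (.e (nat_lit 434286) (nat_lit 42) (.e (nat_lit 688151) (nat_lit 13) .nil)))))))) (.g (nat_lit 4) .nil .nil)))) (.nd (nat_lit 6) 
(.lf (nat_lit 60960) (.g (nat_lit 1396) (.e (nat_lit 1551) (nat_lit 109) (.e (nat_lit 344126) (nat_lit 25) (.e (nat_lit 548873) (nat_lit 5) (.e (nat_lit 1598) (nat_lit 111) (.e (nat_lit 360466) (nat_lit 3) (.e (nat_lit 516104) (nat_lit 0) (.e (nat_lit 7936) (nat_lit 402) .nil))))))) (.g (nat_lit 5) .nil .nil))) 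
(.lf (nat_lit 61024) (.g (nat_lit 3242) (.e (nat_lit 1552) (nat_lit 109) (.e (nat_lit 344117) (nat_lit 21) (.e (nat_lit 516165) (nat_lit 12) (.e (nat_lit 450586) (nat_lit 10) (.e (nat_lit 573477) (nat_lit 12) .nil))))) .nil)))) (.nd (nat_lit 5) (.nd (nat_lit 6) 
(.lf (nat_lit 60944) (.g (nat_lit 5870) (.e (nat_lit 1551) (nat_lit 109) (.e (nat_lit 344117) (nat_lit 21) (.e (nat_lit 516167) (nat_lit 12) (.e (nat_lit 450586) (nat_lit 10) (.e (nat_lit 573474) (nat_lit 12) (.e (nat_lit 57572) (nat_lit 54) (.e (nat_lit 770056) (nat_lit 5) .nil))))))) (.g (nat_lit 6) .nil .nil))) 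
(.lf (nat_lit 61008) (.g (nat_lit 631) (.e (nat_lit 1551) (nat_lit 109) (.e (nat_lit 344129) (nat_lit 26) (.e (nat_lit 557113) (nat_lit 17) .nil))) .nil))) (.nd (nat_lit 6) 
(.lf (nat_lit 60976) (.g (nat_lit 2008) (.e (nat_lit 1551) (nat_lit 109) (.e (nat_lit 344129) (nat_lit 26) (.e (nat_lit 557097) (nat_lit 13) (.e (nat_lit 172045) (nat_lit 0) .nil)))) .nil)) 
(.lf (nat_lit 61040) (.g (nat_lit 1474) (.e (nat_lit 1553) (nat_lit 110) (.e (nat_lit 352262) (nat_lit 0) (.e (nat_lit 3632) (nat_lit 227) (.e (nat_lit 778326) (nat_lit 6) .nil)))) .nil))))) (.nd (nat_lit 4) (.nd (nat_lit 5) (.nd (nat_lit 6) 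
(.lf (nat_lit 60936) (.g (nat_lit 3092) (.e (nat_lit 1551) (nat_lit 109) (.e (nat_lit 344117) (nat_lit 21) (.e (nat_lit 516166) (nat_lit 12) (.e (nat_lit 450588) (nat_lit 10) (.e (nat_lit 573473) (nat_lit 12) (.e (nat_lit 57348) (nat_lit 0) (.e (nat_lit 7124) (nat_lit 382) (.e (nat_lit 1016) (nat_lit 81) .nil)))))))) (.g (nat_lit 5) .nil .nil))) 
(.lf (nat_lit 61000) (.g (nat_lit 2936) (.e (nat_lit 1551) (nat_lit 109) (.e (nat_lit 344129) (nat_lit 26) (.e (nat_lit 557103) (nat_lit 14) (.e (nat_lit 180244) (nat_lit 5) (.e (nat_lit 532579) (nat_lit 26) .nil))))) .nil))) (.nd (nat_lit 6) 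
(.lf (nat_lit 60968) (.g (nat_lit 2009) (.e (nat_lit 1551) (nat_lit 109) (.e (nat_lit 344126) (nat_lit 25) (.e (nat_lit 548891) (nat_lit 11) (.e (nat_lit 81953) (nat_lit 22) .nil)))) .nil)) 
(.lf (nat_lit 61032) (.g (nat_lit 4282) (.e (nat_lit 1552) (nat_lit 109) (.e (nat_lit 344117) (nat_lit 21) (.e (nat_lit 516166) (nat_lit 12) (.e (nat_lit 450587) (nat_lit 10) (.e (nat_lit 573472) (nat_lit 12) .nil))))) .nil)))) (.nd (nat_lit 5) (.nd (nat_lit 6) 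
(.lf (nat_lit 60952) (.g (nat_lit 1993) (.e (nat_lit 1551) (nat_lit 109) (.e (nat_lit 344117) (nat_lit 21) (.e (nat_lit 516195) (nat_lit 26) (.e (nat_lit 336021) (nat_lit 3) (.e (nat_lit 106240) (nat_lit 10) .nil))))) .nil)) 
(.lf (nat_lit 61016) (.g (nat_lit 3439) (.e (nat_lit 1552) (nat_lit 109) (.e (nat_lit 344117) (nat_lit 21) (.e (nat_lit 516151) (nat_lit 9) (.e (nat_lit 426286) (nat_lit 10) (.e (nat_lit 434247) (nat_lit 28) .nil))))) .nil))) (.nd (nat_lit 6) 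
(.lf (nat_lit 60984) (.g (nat_lit 1768) (.e (nat_lit 1551) (nat_lit 109) (.e (nat_lit 344129) (nat_lit 26) (.e (nat_lit 557097) (nat_lit 13) (.e (nat_lit 172065) (nat_lit 3) .nil)))) .nil)) 
(.lf (nat_lit 61048) (.g (nat_lit 1266) (.e (nat_lit 1553) (nat_lit 110) (.e (nat_lit 352277) (nat_lit 11) (.e (nat_lit 426010) (nat_lit 0) (.e (nat_lit 7593) (nat_lit 407) (.e (nat_lit 73772) (nat_lit 24) .nil))))) .nil)))))) (.nd (nat_lit 3) (.nd (nat_lit 4) (.nd (nat_lit 5) (.nd (nat_lit 6) 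
(.lf (nat_lit 60932) (.g (nat_lit 1881) (.e (nat_lit 1551) (nat_lit 109) (.e (nat_lit 344117) (nat_lit 21) (.e (nat_lit 516166) (nat_lit 12) (.e (nat_lit 450587) (nat_lit 10) (.e (nat_lit 573478) (nat_lit 12) (.e (nat_lit 57352) (nat_lit 0) (.e (nat_lit 7122) (nat_lit 382) (.e (nat_lit 1016) (nat_lit 81) .nil)))))))) (.g (nat_lit 4) .nil .nil))) 
(.lf (nat_lit 60996) (.g (nat_lit 550) (.e (nat_lit 1551) (nat_lit 109) (.e (nat_lit 344129) (nat_lit 26) (.e (nat_lit 557103) (nat_lit 14) .nil))) .nil))) (.nd (nat_lit 6) 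
(.lf (nat_lit 60964) (.g (nat_lit 2379) (.e (nat_lit 1551) (nat_lit 109) (.e (nat_lit 344126) (nat_lit 25) (.e (nat_lit 548874) (nat_lit 5) (.e (nat_lit 1598) (nat_lit 111) (.e (nat_lit 360466) (nat_lit 3) (.e (nat_lit 516104) (nat_lit 0) (.e (nat_lit 7936) (nat_lit 402) .nil))))))) (.g (nat_lit 6) .nil .nil))) 
(.lf (nat_lit 61028) (.g (nat_lit 4226) (.e (nat_lit 1552) (nat_lit 109) (.e (nat_lit 344117) (nat_lit 21) (.e (nat_lit 516165) (nat_lit 12) (.e (nat_lit 450588) (nat_lit 10) (.e (nat_lit 573475) (nat_lit 12) .nil))))) .nil)))) (.nd (nat_lit 5) (.nd (nat_lit 6) 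
(.lf (nat_lit 60948) (.g (nat_lit 915) (.e (nat_lit 1551) (nat_lit 109) (.e (nat_lit 344117) (nat_lit 21) (.e (nat_lit 516175) (nat_lit 14) .nil))) .nil)) 
(.lf (nat_lit 61012) (.g (nat_lit 955) (.e (nat_lit 1552) (nat_lit 109) (.e (nat_lit 344117) (nat_lit 21) (.e (nat_lit 516151) (nat_lit 9) .nil))) .nil))) (.nd (nat_lit 6) 
(.lf (nat_lit 60980) (.g (nat_lit 3769) (.e (nat_lit 1551) (nat_lit 109) (.e (nat_lit 344129) (nat_lit 26) (.e (nat_lit 557097) (nat_lit 13) (.e (nat_lit 172063) (nat_lit 2) (.e (nat_lit 196656) (nat_lit 11) (.e (nat_lit 16397) (nat_lit 0) (.e (nat_lit 3289) (nat_lit 201) (.e (nat_lit 565251) (nat_lit 0) .nil)))))))) (.g (nat_lit 5) .nil .nil))) 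
(.lf (nat_lit 61044) (.g (nat_lit 1059) (.e (nat_lit 1553) (nat_lit 110) (.e (nat_lit 352272) (nat_lit 10) (.e (nat_lit 417795) (nat_lit 0) (.e (nat_lit 5412) (nat_lit 303) (.e (nat_lit 73773) (nat_lit 25) .nil))))) .nil))))) (.nd (nat_lit 4) (.nd (nat_lit 5) (.nd (nat_lit 6) 
(.lf (nat_lit 60940) (.g (nat_lit 3897) (.e (nat_lit 1551) (nat_lit 109) (.e (nat_lit 344117) (nat_lit 21) (.e (nat_lit 516166) (nat_lit 12) (.e (nat_lit 450588) (nat_lit 10) (.e (nat_lit 573474) (nat_lit 12) (.e (nat_lit 57572) (nat_lit 54) (.e (nat_lit 770056) (nat_lit 5) .nil))))))) (.g (nat_lit 6) .nil .nil))) 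
(.lf (nat_lit 61004) (.g (nat_lit 2232) (.e (nat_lit 1551) (nat_lit 109) (.e (nat_lit 344129) (nat_lit 26) (.e (nat_lit 557104) (nat_lit 14) (.e (nat_lit 180235) (nat_lit 1) .nil)))) .nil))) (.nd (nat_lit 6) 
(.lf (nat_lit 60972) (.g (nat_lit 1744) (.e (nat_lit 1551) (nat_lit 109) (.e (nat_lit 344129) (nat_lit 26) (.e (nat_lit 557096) (nat_lit 13) (.e (nat_lit 172067) (nat_lit 3) .nil)))) .nil)) 
(.lf (nat_lit 61036) (.g (nat_lit 3472) (.e (nat_lit 1552) (nat_lit 109) (.e (nat_lit 344117) (nat_lit 21) (.e (nat_lit 516166) (nat_lit 12) (.e (nat_lit 450588) (nat_lit 10) (.e (nat_lit 573475) (nat_lit 12) .nil))))) .nil)))) (.nd (nat_lit 5) (.nd (nat_lit 6) 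
(.lf (nat_lit 60956) (.g (nat_lit 2714) (.e (nat_lit 1551) (nat_lit 109) (.e (nat_lit 344121) (nat_lit 22) (.e (nat_lit 524322) (nat_lit 12) (.e (nat_lit 450588) (nat_lit 10) (.e (nat_lit 573474) (nat_lit 12) (.e (nat_lit 57572) (nat_lit 54) (.e (nat_lit 770057) (nat_lit 5) .nil))))))) (.g (nat_lit 0) .nil .nil))) 
(.lf (nat_lit 61020) (.g (nat_lit 2564) (.e (nat_lit 1552) (nat_lit 109) (.e (nat_lit 344117) (nat_lit 21) (.e (nat_lit 516165) (nat_lit 12) (.e (nat_lit 450579) (nat_lit 5) .nil)))) .nil))) (.nd (nat_lit 6) 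
(.lf (nat_lit 60988) (.g (nat_lit 2999) (.e (nat_lit 1551) (nat_lit 109) (.e (nat_lit 344129) (nat_lit 26) (.e (nat_lit 557097) (nat_lit 13) (.e (nat_lit 172067) (nat_lit 3) (.e (nat_lit 204809) (nat_lit 9) .nil))))) .nil)) 
(.lf (nat_lit 61052) (.g (nat_lit 1653) (.e (nat_lit 1553) (nat_lit 110) (.e (nat_lit 352277) (nat_lit 11) (.e (nat_lit 426012) (nat_lit 0) (.e (nat_lit 7593) (nat_lit 407) (.e (nat_lit 73772) (nat_lit 24) .nil))))) .nil))))))) (.nd (nat_lit 2) (.nd (nat_lit 3) (.nd (nat_lit 4) (.nd (nat_lit 5) (.nd (nat_lit 6) 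
(.lf (nat_lit 60930) (.g (nat_lit 2468) (.e (nat_lit 1551) (nat_lit 109) (.e (nat_lit 344117) (nat_lit 21) (.e (nat_lit 516166) (nat_lit 12) (.e (nat_lit 450587) (nat_lit 10) (.e (nat_lit 573477) (nat_lit 12) (.e (nat_lit 57352) (nat_lit 0) (.e (nat_lit 7122) (nat_lit 382) (.e (nat_lit 1016) (nat_lit 81) .nil)))))))) (.g (nat_lit 5) .nil .nil))) 
(.lf (nat_lit 60994) (.g (nat_lit 4823) (.e (nat_lit 1551) (nat_lit 109) (.e (nat_lit 344129) (nat_lit 26) (.e (nat_lit 557097) (nat_lit 13) (.e (nat_lit 172133) (nat_lit 15) (.e (nat_lit 2175) (nat_lit 143) (.e (nat_lit 712749) (nat_lit 28) (.e (nat_lit 434289) (nat_lit 43) (.e (nat_lit 696350) (nat_lit 13) .nil)))))))) (.g (nat_lit 0) .nil .nil)))) (.nd (nat_lit 6) 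
(.lf (nat_lit 60962) (.g (nat_lit 1472) (.e (nat_lit 1551) (nat_lit 109) (.e (nat_lit 344126) (nat_lit 25) (.e (nat_lit 548874) (nat_lit 5) (.e (nat_lit 1562) (nat_lit 110) .nil)))) .nil)) 
(.lf (nat_lit 61026) (.g (nat_lit 2446) (.e (nat_lit 1552) (nat_lit 109) (.e (nat_lit 344117) (nat_lit 21) (.e (nat_lit 516165) (nat_lit 12) (.e (nat_lit 450588) (nat_lit 10) .nil)))) .nil)))) (.nd (nat_lit 5) (.nd (nat_lit 6) 
(.lf (nat_lit 60946) (.g (nat_lit 5182) (.e (nat_lit 1551) (nat_lit 109) (.e (nat_lit 344117) (nat_lit 21) (.e (nat_lit 516167) (nat_lit 12) (.e (nat_lit 450586) (nat_lit 10) (.e (nat_lit 573474) (nat_lit 12) (.e (nat_lit 57572) (nat_lit 54) (.e (nat_lit 770058) (nat_lit 5) .nil))))))) (.g (nat_lit 5) .nil .nil))) 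
(.lf (nat_lit 61010) (.g (nat_lit 1849) (.e (nat_lit 1551) (nat_lit 109) (.e (nat_lit 344160) (nat_lit 37) (.e (nat_lit 647190) (nat_lit 9) (.e (nat_lit 1288) (nat_lit 95) .nil)))) .nil))) (.nd (nat_lit 6) 
(.lf (nat_lit 60978) (.g (nat_lit 2265) (.e (nat_lit 1551) (nat_lit 109) (.e (nat_lit 344129) (nat_lit 26) (.e (nat_lit 557097) (nat_lit 13) (.e (nat_lit 172062) (nat_lit 2) (.e (nat_lit 196653) (nat_lit 11) (.e (nat_lit 16397) (nat_lit 0) (.e (nat_lit 3289) (nat_lit 201) (.e (nat_lit 565251) (nat_lit 0) .nil)))))))) (.g (nat_lit 4) .nil .nil))) 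
(.lf (nat_lit 61042) (.g (nat_lit 455) (.e (nat_lit 1553) (nat_lit 110) (.e (nat_lit 352262) (nat_lit 0) (.e (nat_lit 3748) (nat_lit 228) .nil))) .nil))))) (.nd (nat_lit 4) (.nd (nat_lit 5) (.nd (nat_lit 6) 
(.lf (nat_lit 60938) (.g (nat_lit 2962) (.e (nat_lit 1551) (nat_lit 109) (.e (nat_lit 344117) (nat_lit 21) (.e (nat_lit 516166) (nat_lit 12) (.e (nat_lit 450588) (nat_lit 10) (.e (nat_lit 573473) (nat_lit 12) (.e (nat_lit 57353) (nat_lit 0) (.e (nat_lit 7124) (nat_lit 382) (.e (nat_lit 1016) (nat_lit 81) .nil)))))))) (.g (nat_lit 5) .nil .nil))) 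
(.lf (nat_lit 61002) (.g (nat_lit 551) (.e (nat_lit 1551) (nat_lit 109) (.e (nat_lit 344129) (nat_lit 26) (.e (nat_lit 557104) (nat_lit 14) .nil))) .nil))) (.nd (nat_lit 6) 
(.lf (nat_lit 60970) (.g (nat_lit 471) (.e (nat_lit 1551) (nat_lit 109) (.e (nat_lit 344129) (nat_lit 26) (.e (nat_lit 557087) (nat_lit 11) .nil))) .nil)) 
(.lf (nat_lit 61034) (.g (nat_lit 3298) (.e (nat_lit 1552) (nat_lit 109) (.e (nat_lit 344117) (nat_lit 21) (.e (nat_lit 516166) (nat_lit 12) (.e (nat_lit 450587) (nat_lit 10) (.e (nat_lit 573477) (nat_lit 12) .nil))))) .nil)))) (.nd (nat_lit 5) (.nd (nat_lit 6) 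
(.lf (nat_lit 60954) (.g (nat_lit 2227) (.e (nat_lit 1551) (nat_lit 109) (.e (nat_lit 344117) (nat_lit 21) (.e (nat_lit 516195) (nat_lit 26) (.e (nat_lit 336027) (nat_lit 3) (.e (nat_lit 106240) (nat_lit 10) .nil))))) .nil)) 
(.lf (nat_lit 61018) (.g (nat_lit 4212) (.e (nat_lit 1552) (nat_lit 109) (.e (nat_lit 344117) (nat_lit 21) (.e (nat_lit 516151) (nat_lit 9) (.e (nat_lit 426286) (nat_lit 10) (.e (nat_lit 434248) (nat_lit 28) (.e (nat_lit 573475) (nat_lit 12) (.e (nat_lit 57572) (nat_lit 54) (.e (nat_lit 770058) (nat_lit 5) .nil)))))))) (.g (nat_lit 5) .nil .nil)))) (.nd (nat_lit 6) 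
(.lf (nat_lit 60986) (.g (nat_lit 1886) (.e (nat_lit 1551) (nat_lit 109) (.e (nat_lit 344129) (nat_lit 26) (.e (nat_lit 557097) (nat_lit 13) (.e (nat_lit 172066) (nat_lit 3) .nil)))) .nil)) 
(.lf (nat_lit 61050) (.g (nat_lit 1980) (.e (nat_lit 1553) (nat_lit 110) (.e (nat_lit 352277) (nat_lit 11) (.e (nat_lit 426011) (nat_lit 0) (.e (nat_lit 7593) (nat_lit 407) (.e (nat_lit 73772) (nat_lit 24) .nil))))) .nil)))))) (.nd (nat_lit 3) (.nd (nat_lit 4) (.nd (nat_lit 5) (.nd (nat_lit 6) 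
(.lf (nat_lit 60934) (.g (nat_lit 3996) (.e (nat_lit 1551) (nat_lit 109) (.e (nat_lit 344117) (nat_lit 21) (.e (nat_lit 516166) (nat_lit 12) (.e (nat_lit 450588) (nat_lit 10) (.e (nat_lit 573451) (nat_lit 9) .nil))))) .nil)) 
(.lf (nat_lit 60998) (.g (nat_lit 2288) (.e (nat_lit 1551) (nat_lit 109) (.e (nat_lit 344129) (nat_lit 26) (.e (nat_lit 557103) (nat_lit 14) (.e (nat_lit 180235) (nat_lit 1) .nil)))) .nil))) (.nd (nat_lit 6) 
(.lf (nat_lit 60966) (.g (nat_lit 2046) (.e (nat_lit 1551) (nat_lit 109) (.e (nat_lit 344126) (nat_lit 25) (.e (nat_lit 548889) (nat_lit 9) (.e (nat_lit 65604) (nat_lit 9) .nil)))) .nil)) 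
(.lf (nat_lit 61030) (.g (nat_lit 3081) (.e (nat_lit 1552) (nat_lit 109) (.e (nat_lit 344117) (nat_lit 21) (.e (nat_lit 516166) (nat_lit 12) (.e (nat_lit 450585) (nat_lit 10) (.e (nat_lit 573474) (nat_lit 12) .nil))))) .nil)))) (.nd (nat_lit 5) (.nd (nat_lit 6) 
(.lf (nat_lit 60950) (.g (nat_lit 2059) (.e (nat_lit 1551) (nat_lit 109) (.e (nat_lit 344117) (nat_lit 21) (.e (nat_lit 516185) (nat_lit 16) (.e (nat_lit 491546) (nat_lit 9) (.e (nat_lit 336028) (nat_lit 3) .nil))))) .nil)) 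
(.lf (nat_lit 61014) (.g (nat_lit 2603) (.e (nat_lit 1552) (nat_lit 109) (.e (nat_lit 344117) (nat_lit 21) (.e (nat_lit 516151) (nat_lit 9) (.e (nat_lit 426286) (nat_lit 10) .nil)))) .nil))) (.nd (nat_lit 6) 
(.lf (nat_lit 60982) (.g (nat_lit 1888) (.e (nat_lit 1551) (nat_lit 109) (.e (nat_lit 344129) (nat_lit 26) (.e (nat_lit 557097) (nat_lit 13) (.e (nat_lit 172064) (nat_lit 2) .nil)))) .nil)) 
(.lf (nat_lit 61046) (.g (nat_lit 1164) (.e (nat_lit 1553) (nat_lit 110) (.e (nat_lit 352277) (nat_lit 11) (.e (nat_lit 426009) (nat_lit 0) (.e (nat_lit 7593) (nat_lit 407) (.e (nat_lit 73772) (nat_lit 24) .nil))))) .nil))))) (.nd (nat_lit 4) (.nd (nat_lit 5) (.nd (nat_lit 6) 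
(.lf (nat_lit 60942) (.g (nat_lit 3844) (.e (nat_lit 1551) (nat_lit 109) (.e (nat_lit 344117) (nat_lit 21) (.e (nat_lit 516166) (nat_lit 12) (.e (nat_lit 450588) (nat_lit 10) (.e (nat_lit 573475) (nat_lit 12) (.e (nat_lit 57570) (nat_lit 54) (.e (nat_lit 770058) (nat_lit 5) .nil))))))) (.g (nat_lit 0) .nil .nil))) 
(.lf (nat_lit 61006) (.g (nat_lit 2138) (.e (nat_lit 1551) (nat_lit 109) (.e (nat_lit 344129) (nat_lit 26) (.e (nat_lit 557104) (nat_lit 14) (.e (nat_lit 180244) (nat_lit 5) .nil)))) .nil))) (.nd (nat_lit 6) 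
(.lf (nat_lit 60974) (.g (nat_lit 2869) (.e (nat_lit 1551) (nat_lit 109) (.e (nat_lit 344129) (nat_lit 26) (.e (nat_lit 557096) (nat_lit 13) (.e (nat_lit 172133) (nat_lit 15) (.e (nat_lit 2175) (nat_lit 143) (.e (nat_lit 712747) (nat_lit 28) (.e (nat_lit 434289) (nat_lit 43) (.e (nat_lit 696350) (nat_lit 13) .nil)))))))) (.g (nat_lit 5) .nil .nil))) 
(.lf (nat_lit 61038) (.g (nat_lit 1347) (.e (nat_lit 1552) (nat_lit 109) (.e (nat_lit 344126) (nat_lit 25) (.e (nat_lit 548874) (nat_lit 5) (.e (nat_lit 1598) (nat_lit 111) .nil)))) .nil)))) (.nd (nat_lit 5) (.nd (nat_lit 6) 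
(.lf (nat_lit 60958) (.g (nat_lit 1389) (.e (nat_lit 1551) (nat_lit 109) (.e (nat_lit 344126) (nat_lit 25) (.e (nat_lit 548872) (nat_lit 5) (.e (nat_lit 1598) (nat_lit 111) (.e (nat_lit 360466) (nat_lit 3) (.e (nat_lit 516104) (nat_lit 0) (.e (nat_lit 7936) (nat_lit 402) .nil))))))) (.g (nat_lit 4) .nil .nil))) 
(.lf (nat_lit 61022) (.g (nat_lit 3364) (.e (nat_lit 1552) (nat_lit 109) (.e (nat_lit 344117) (nat_lit 21) (.e (nat_lit 516165) (nat_lit 12) (.e (nat_lit 450586) (nat_lit 10) (.e (nat_lit 573474) (nat_lit 12) .nil))))) .nil))) (.nd (nat_lit 6) 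
(.lf (nat_lit 60990) (.g (nat_lit 1923) (.e (nat_lit 1551) (nat_lit 109) (.e (nat_lit 344129) (nat_lit 26) (.e (nat_lit 557097) (nat_lit 13) (.e (nat_lit 172132) (nat_lit 15) .nil)))) .nil)) 
(.lf (nat_lit 61054) (.g (nat_lit 1249) (.e (nat_lit 1553) (nat_lit 110) (.e (nat_lit 352277) (nat_lit 11) (.e (nat_lit 426342) (nat_lit 14) (.e (nat_lit 491558) (nat_lit 10) (.e (nat_lit 344174) (nat_lit 42) (.e (nat_lit 761867) (nat_lit 5) .nil)))))) (.g (nat_lit 4) .nil .nil))))))))) (.nd (nat_lit 1) (.nd (nat_lit 2) (.nd (nat_lit 3) (.nd (nat_lit 4) (.nd (nat_lit 5) (.nd (nat_lit 6) 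
(.lf (nat_lit 60929) (.g (nat_lit 1887) (.e (nat_lit 1551) (nat_lit 109) (.e (nat_lit 344117) (nat_lit 21) (.e (nat_lit 516166) (nat_lit 12) (.e (nat_lit 450587) (nat_lit 10) (.e (nat_lit 573477) (nat_lit 12) .nil))))) .nil)) 
(.lf (nat_lit 60993) (.g (nat_lit 2652) (.e (nat_lit 1551) (nat_lit 109) (.e (nat_lit 344129) (nat_lit 26) (.e (nat_lit 557097) (nat_lit 13) (.e (nat_lit 172133) (nat_lit 15) (.e (nat_lit 2175) (nat_lit 143) (.e (nat_lit 712749) (nat_lit 28) (.e (nat_lit 434289) (nat_lit 43) (.e (nat_lit 696349) (nat_lit 13) .nil)))))))) (.g (nat_lit 4) .nil .nil)))) (.nd (nat_lit 6) 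
(.lf (nat_lit 60961) (.g (nat_lit 424) (.e (nat_lit 1551) (nat_lit 109) (.e (nat_lit 344126) (nat_lit 25) (.e (nat_lit 548874) (nat_lit 5) .nil))) .nil)) 
(.lf (nat_lit 61025) (.g (nat_lit 4285) (.e (nat_lit 1552) (nat_lit 109) (.e (nat_lit 344117) (nat_lit 21) (.e (nat_lit 516165) (nat_lit 12) (.e (nat_lit 450587) (nat_lit 10) (.e (nat_lit 573475) (nat_lit 12) .nil))))) .nil)))) (.nd (nat_lit 5) (.nd (nat_lit 6) 
(.lf (nat_lit 60945) (.g (nat_lit 6059) (.e (nat_lit 1551) (nat_lit 109) (.e (nat_lit 344117) (nat_lit 21) (.e (nat_lit 516167) (nat_lit 12) (.e (nat_lit 450586) (nat_lit 10) (.e (nat_lit 573474) (nat_lit 12) (.e (nat_lit 57572) (nat_lit 54) (.e (nat_lit 770057) (nat_lit 5) .nil))))))) (.g (nat_lit 0) .nil .nil))) 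
(.lf (nat_lit 61009) (.g (nat_lit 1181) (.e (nat_lit 1551) (nat_lit 109) (.e (nat_lit 344160) (nat_lit 37) (.e (nat_lit 647183) (nat_lit 4) (.e (nat_lit 172147) (nat_lit 27) .nil)))) .nil))) (.nd (nat_lit 6) 
(.lf (nat_lit 60977) (.g (nat_lit 1949) (.e (nat_lit 1551) (nat_lit 109) (.e (nat_lit 344129) (nat_lit 26) (.e (nat_lit 557097) (nat_lit 13) (.e (nat_lit 172062) (nat_lit 2) .nil)))) .nil)) 
(.lf (nat_lit 61041) (.g (nat_lit 1485) (.e (nat_lit 1553) (nat_lit 110) (.e (nat_lit 352262) (nat_lit 0) (.e (nat_lit 3632) (nat_lit 227) (.e (nat_lit 778327) (nat_lit 6) .nil)))) .nil))))) (.nd (nat_lit 4) (.nd (nat_lit 5) (.nd (nat_lit 6) 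
(.lf (nat_lit 60937) (.g (nat_lit 3107) (.e (nat_lit 1551) (nat_lit 109) (.e (nat_lit 344117) (nat_lit 21) (.e (nat_lit 516166) (nat_lit 12) (.e (nat_lit 450588) (nat_lit 10) (.e (nat_lit 573473) (nat_lit 12) (.e (nat_lit 57352) (nat_lit 0) (.e (nat_lit 7122) (nat_lit 382) (.e (nat_lit 1016) (nat_lit 81) .nil)))))))) (.g (nat_lit 5) .nil .nil))) 
(.lf (nat_lit 61001) (.g (nat_lit 2069) (.e (nat_lit 1551) (nat_lit 109) (.e (nat_lit 344129) (nat_lit 26) (.e (nat_lit 557103) (nat_lit 14) (.e (nat_lit 180250) (nat_lit 10) .nil)))) .nil))) (.nd (nat_lit 6) 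
(.lf (nat_lit 60969) (.g (nat_lit 2487) (.e (nat_lit 1551) (nat_lit 109) (.e (nat_lit 344129) (nat_lit 26) (.e (nat_lit 557067) (nat_lit 9) (.e (nat_lit 2878) (nat_lit 184) .nil)))) .nil)) 
(.lf (nat_lit 61033) (.g (nat_lit 4641) (.e (nat_lit 1552) (nat_lit 109) (.e (nat_lit 344117) (nat_lit 21) (.e (nat_lit 516166) (nat_lit 12) (.e (nat_lit 450587) (nat_lit 10) (.e (nat_lit 573475) (nat_lit 12) .nil))))) .nil)))) (.nd (nat_lit 5) (.nd (nat_lit 6) 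
(.lf (nat_lit 60953) (.g (nat_lit 2062) (.e (nat_lit 1551) (nat_lit 109) (.e (nat_lit 344117) (nat_lit 21) (.e (nat_lit 516195) (nat_lit 26) (.e (nat_lit 336021) (nat_lit 3) (.e (nat_lit 106240) (nat_lit 10) (.e (nat_lit 344133) (nat_lit 26) (.e (nat_lit 564992) (nat_lit 0) .nil))))))) (.g (nat_lit 4) .nil .nil))) 
(.lf (nat_lit 61017) (.g (nat_lit 3407) (.e (nat_lit 1552) (nat_lit 109) (.e (nat_lit 344117) (nat_lit 21) (.e (nat_lit 516151) (nat_lit 9) (.e (nat_lit 426286) (nat_lit 10) (.e (nat_lit 434248) (nat_lit 28) .nil))))) .nil))) (.nd (nat_lit 6) 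
(.lf (nat_lit 60985) (.g (nat_lit 2271) (.e (nat_lit 1551) (nat_lit 109) (.e (nat_lit 344129) (nat_lit 26) (.e (nat_lit 557097) (nat_lit 13) (.e (nat_lit 172065) (nat_lit 3) (.e (nat_lit 212736) (nat_lit 10) .nil))))) .nil)) 
(.lf (nat_lit 61049) (.g (nat_lit 2019) (.e (nat_lit 1553) (nat_lit 110) (.e (nat_lit 352277) (nat_lit 11) (.e (nat_lit 426011) (nat_lit 0) (.e (nat_lit 7591) (nat_lit 407) (.e (nat_lit 73772) (nat_lit 24) .nil))))) .nil)))))) (.nd (nat_lit 3) (.nd (nat_lit 4) (.nd (nat_lit 5) (.nd (nat_lit 6) 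
(.lf (nat_lit 60933) (.g (nat_lit 1828) (.e (nat_lit 1551) (nat_lit 109) (.e (nat_lit 344117) (nat_lit 21) (.e (nat_lit 516166) (nat_lit 12) (.e (nat_lit 450587) (nat_lit 10) (.e (nat_lit 573478) (nat_lit 12) (.e (nat_lit 57353) (nat_lit 0) (.e (nat_lit 7124) (nat_lit 382) (.e (nat_lit 1016) (nat_lit 81) .nil)))))))) (.g (nat_lit 4) .nil .nil))) 
(.lf (nat_lit 60997) (.g (nat_lit 2282) (.e (nat_lit 1551) (nat_lit 109) (.e (nat_lit 344129) (nat_lit 26) (.e (nat_lit 557103) (nat_lit 14) (.e (nat_lit 180234) (nat_lit 1) .nil)))) .nil))) (.nd (nat_lit 6) 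
(.lf (nat_lit 60965) (.g (nat_lit 2314) (.e (nat_lit 1551) (nat_lit 109) (.e (nat_lit 344126) (nat_lit 25) (.e (nat_lit 548874) (nat_lit 5) (.e (nat_lit 1598) (nat_lit 111) (.e (nat_lit 360466) (nat_lit 3) (.e (nat_lit 516105) (nat_lit 0) (.e (nat_lit 7936) (nat_lit 402) .nil))))))) (.g (nat_lit 6) .nil .nil))) 
(.lf (nat_lit 61029) (.g (nat_lit 954) (.e (nat_lit 1552) (nat_lit 109) (.e (nat_lit 344117) (nat_lit 21) (.e (nat_lit 516166) (nat_lit 12) .nil))) .nil)))) (.nd (nat_lit 5) (.nd (nat_lit 6) 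
(.lf (nat_lit 60949) (.g (nat_lit 1459) (.e (nat_lit 1551) (nat_lit 109) (.e (nat_lit 344117) (nat_lit 21) (.e (nat_lit 516185) (nat_lit 16) (.e (nat_lit 491546) (nat_lit 9) .nil)))) .nil)) 
(.lf (nat_lit 61013) (.g (nat_lit 4957) (.e (nat_lit 1552) (nat_lit 109) (.e (nat_lit 344117) (nat_lit 21) (.e (nat_lit 516151) (nat_lit 9) (.e (nat_lit 426211) (nat_lit 9) .nil)))) .nil))) (.nd (nat_lit 6) 
(.lf (nat_lit 60981) (.g (nat_lit 3754) (.e (nat_lit 1551) (nat_lit 109) (.e (nat_lit 344129) (nat_lit 26) (.e (nat_lit 557097) (nat_lit 13) (.e (nat_lit 172063) (nat_lit 2) (.e (nat_lit 196656) (nat_lit 11) (.e (nat_lit 16397) (nat_lit 0) (.e (nat_lit 3289) (nat_lit 201) (.e (nat_lit 565252) (nat_lit 0) .nil)))))))) (.g (nat_lit 5) .nil .nil))) 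
(.lf (nat_lit 61045) (.g (nat_lit 1013) (.e (nat_lit 1553) (nat_lit 110) (.e (nat_lit 352272) (nat_lit 10) (.e (nat_lit 417796) (nat_lit 0) (.e (nat_lit 5412) (nat_lit 303) (.e (nat_lit 73773) (nat_lit 25) .nil))))) .nil))))) (.nd (nat_lit 4) (.nd (nat_lit 5) (.nd (nat_lit 6) 
(.lf (nat_lit 60941) (.g (nat_lit 2124) (.e (nat_lit 1551) (nat_lit 109) (.e (nat_lit 344117) (nat_lit 21) (.e (nat_lit 516166) (nat_lit 12) (.e (nat_lit 450588) (nat_lit 10) (.e (nat_lit 573475) (nat_lit 12) .nil))))) .nil)) 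
(.lf (nat_lit 61005) (.g (nat_lit 2222) (.e (nat_lit 1551) (nat_lit 109) (.e (nat_lit 344129) (nat_lit 26) (.e (nat_lit 557104) (nat_lit 14) (.e (nat_lit 180237) (nat_lit 1) .nil)))) .nil))) (.nd (nat_lit 6) 
(.lf (nat_lit 60973) (.g (nat_lit 1761) (.e (nat_lit 1551) (nat_lit 109) (.e (nat_lit 344129) (nat_lit 26) (.e (nat_lit 557096) (nat_lit 13) (.e (nat_lit 172133) (nat_lit 15) .nil)))) .nil)) 
(.lf (nat_lit 61037) (.g (nat_lit 2791) (.e (nat_lit 1552) (nat_lit 109) (.e (nat_lit 344121) (nat_lit 22) (.e (nat_lit 524322) (nat_lit 12) (.e (nat_lit 450588) (nat_lit 10) (.e (nat_lit 573474) (nat_lit 12) (.e (nat_lit 57572) (nat_lit 54) (.e (nat_lit 770057) (nat_lit 5) .nil))))))) (.g (nat_lit 0) .nil .nil))))) (.nd (nat_lit 5) (.nd (nat_lit 6) 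
(.lf (nat_lit 60957) (.g (nat_lit 1544) (.e (nat_lit 1551) (nat_lit 109) (.e (nat_lit 344126) (nat_lit 25) (.e (nat_lit 548872) (nat_lit 5) (.e (nat_lit 1598) (nat_lit 111) (.e (nat_lit 360466) (nat_lit 3) (.e (nat_lit 516100) (nat_lit 0) (.e (nat_lit 7936) (nat_lit 402) .nil))))))) (.g (nat_lit 5) .nil .nil))) 
(.lf (nat_lit 61021) (.g (nat_lit 2428) (.e (nat_lit 1552) (nat_lit 109) (.e (nat_lit 344117) (nat_lit 21) (.e (nat_lit 516165) (nat_lit 12) (.e (nat_lit 450586) (nat_lit 10) .nil)))) .nil))) (.nd (nat_lit 6) 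
(.lf (nat_lit 60989) (.g (nat_lit 2826) (.e (nat_lit 1551) (nat_lit 109) (.e (nat_lit 344129) (nat_lit 26) (.e (nat_lit 557097) (nat_lit 13) (.e (nat_lit 172067) (nat_lit 3) (.e (nat_lit 212736) (nat_lit 10) .nil))))) .nil)) 
(.lf (nat_lit 61053) (.g (nat_lit 1669) (.e (nat_lit 1553) (nat_lit 110) (.e (nat_lit 352277) (nat_lit 11) (.e (nat_lit 426012) (nat_lit 0) (.e (nat_lit 7593) (nat_lit 407) (.e (nat_lit 73772) (nat_lit 24) (.e (nat_lit 761866) (nat_lit 5) .nil)))))) (.g (nat_lit 4) .nil .nil)))))))) (.nd (nat_lit 2) (.nd (nat_lit 3) (.nd (nat_lit 4) (.nd (nat_lit 5) (.nd (nat_lit 6) 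
(.lf (nat_lit 60931) (.g (nat_lit 1800) (.e (nat_lit 1551) (nat_lit 109) (.e (nat_lit 344117) (nat_lit 21) (.e (nat_lit 516166) (nat_lit 12) (.e (nat_lit 450587) (nat_lit 10) (.e (nat_lit 573478) (nat_lit 12) .nil))))) .nil)) 
(.lf (nat_lit 60995) (.g (nat_lit 1960) (.e (nat_lit 1551) (nat_lit 109) (.e (nat_lit 344129) (nat_lit 26) (.e (nat_lit 557097) (nat_lit 13) (.e (nat_lit 172136) (nat_lit 15) .nil)))) .nil))) (.nd (nat_lit 6) 
(.lf (nat_lit 60963) (.g (nat_lit 2465) (.e (nat_lit 1551) (nat_lit 109) (.e (nat_lit 344126) (nat_lit 25) (.e (nat_lit 548874) (nat_lit 5) (.e (nat_lit 1598) (nat_lit 111) (.e (nat_lit 360466) (nat_lit 3) (.e (nat_lit 516100) (nat_lit 0) (.e (nat_lit 7936) (nat_lit 402) .nil))))))) (.g (nat_lit 6) .nil .nil))) 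
(.lf (nat_lit 61027) (.g (nat_lit 4343) (.e (nat_lit 1552) (nat_lit 109) (.e (nat_lit 344117) (nat_lit 21) (.e (nat_lit 516165) (nat_lit 12) (.e (nat_lit 450588) (nat_lit 10) (.e (nat_lit 573473) (nat_lit 12) .nil))))) .nil)))) (.nd (nat_lit 5) (.nd (nat_lit 6) 
(.lf (nat_lit 60947) (.g (nat_lit 2381) (.e (nat_lit 1551) (nat_lit 109) (.e (nat_lit 344117) (nat_lit 21) (.e (nat_lit 524032) (nat_lit 12) (.e (nat_lit 450588) (nat_lit 10) (.e (nat_lit 573474) (nat_lit 12) (.e (nat_lit 57572) (nat_lit 54) (.e (nat_lit 770056) (nat_lit 5) .nil))))))) (.g (nat_lit 6) .nil .nil))) 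
(.lf (nat_lit 61011) (.g (nat_lit 1555) (.e (nat_lit 1551) (nat_lit 109) (.e (nat_lit 344160) (nat_lit 37) (.e (nat_lit 647195) (nat_lit 9) (.e (nat_lit 1181) (nat_lit 87) .nil)))) .nil))) (.nd (nat_lit 6) 
(.lf (nat_lit 60979) (.g (nat_lit 1972) (.e (nat_lit 1551) (nat_lit 109) (.e (nat_lit 344129) (nat_lit 26) (.e (nat_lit 557097) (nat_lit 13) (.e (nat_lit 172063) (nat_lit 2) .nil)))) .nil)) 
(.lf (nat_lit 61043) (.g (nat_lit 336) (.e (nat_lit 1553) (nat_lit 110) (.e (nat_lit 352272) (nat_lit 10) (.e (nat_lit 417793) (nat_lit 0) .nil))) .nil))))) (.nd (nat_lit 4) (.nd (nat_lit 5) (.nd (nat_lit 6) 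
(.lf (nat_lit 60939) (.g (nat_lit 2175) (.e (nat_lit 1551) (nat_lit 109) (.e (nat_lit 344117) (nat_lit 21) (.e (nat_lit 516166) (nat_lit 12) (.e (nat_lit 450588) (nat_lit 10) (.e (nat_lit 573473) (nat_lit 12) (.e (nat_lit 57353) (nat_lit 0) (.e (nat_lit 7125) (nat_lit 382) (.e (nat_lit 1016) (nat_lit 81) .nil)))))))) (.g (nat_lit 4) .nil .nil))) 
(.lf (nat_lit 61003) (.g (nat_lit 2232) (.e (nat_lit 1551) (nat_lit 109) (.e (nat_lit 344129) (nat_lit 26) (.e (nat_lit 557104) (nat_lit 14) (.e (nat_lit 180234) (nat_lit 1) .nil)))) .nil))) (.nd (nat_lit 6) 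
(.lf (nat_lit 60971) (.g (nat_lit 2469) (.e (nat_lit 1551) (nat_lit 109) (.e (nat_lit 344129) (nat_lit 26) (.e (nat_lit 557096) (nat_lit 13) (.e (nat_lit 172064) (nat_lit 2) (.e (nat_lit 196656) (nat_lit 11) .nil))))) .nil)) 
(.lf (nat_lit 61035) (.g (nat_lit 2279) (.e (nat_lit 1552) (nat_lit 109) (.e (nat_lit 344117) (nat_lit 21) (.e (nat_lit 516166) (nat_lit 12) (.e (nat_lit 450588) (nat_lit 10) .nil)))) .nil)))) (.nd (nat_lit 5) (.nd (nat_lit 6) 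
(.lf (nat_lit 60955) (.g (nat_lit 2554) (.e (nat_lit 1551) (nat_lit 109) (.e (nat_lit 344121) (nat_lit 22) (.e (nat_lit 524322) (nat_lit 12) (.e (nat_lit 450588) (nat_lit 10) (.e (nat_lit 573474) (nat_lit 12) (.e (nat_lit 57572) (nat_lit 54) (.e (nat_lit 770056) (nat_lit 5) .nil))))))) (.g (nat_lit 7) .nil .nil))) 
(.lf (nat_lit 61019) (.g (nat_lit 2592) (.e (nat_lit 1552) (nat_lit 109) (.e (nat_lit 344117) (nat_lit 21) (.e (nat_lit 516165) (nat_lit 12) (.e (nat_lit 458496) (nat_lit 3) .nil)))) .nil))) (.nd (nat_lit 6) 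
(.lf (nat_lit 60987) (.g (nat_lit 1866) (.e (nat_lit 1551) (nat_lit 109) (.e (nat_lit 344129) (nat_lit 26) (.e (nat_lit 557097) (nat_lit 13) (.e (nat_lit 172067) (nat_lit 3) .nil)))) .nil)) 
(.lf (nat_lit 61051) (.g (nat_lit 1616) (.e (nat_lit 1553) (nat_lit 110) (.e (nat_lit 352277) (nat_lit 11) (.e (nat_lit 426012) (nat_lit 0) (.e (nat_lit 7591) (nat_lit 407) (.e (nat_lit 73772) (nat_lit 24) .nil))))) .nil)))))) (.nd (nat_lit 3) (.nd (nat_lit 4) (.nd (nat_lit 5) (.nd (nat_lit 6) 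
(.lf (nat_lit 60935) (.g (nat_lit 2072) (.e (nat_lit 1551) (nat_lit 109) (.e (nat_lit 344117) (nat_lit 21) (.e (nat_lit 516166) (nat_lit 12) (.e (nat_lit 450588) (nat_lit 10) (.e (nat_lit 573473) (nat_lit 12) .nil))))) .nil)) 
(.lf (nat_lit 60999) (.g (nat_lit 2220) (.e (nat_lit 1551) (nat_lit 109) (.e (nat_lit 344129) (nat_lit 26) (.e (nat_lit 557103) (nat_lit 14) (.e (nat_lit 180236) (nat_lit 1) .nil)))) .nil))) (.nd (nat_lit 6) 
(.lf (nat_lit 60967) (.g (nat_lit 1845) (.e (nat_lit 1551) (nat_lit 109) (.e (nat_lit 344126) (nat_lit 25) (.e (nat_lit 548889) (nat_lit 9) (.e (nat_lit 65619) (nat_lit 10) .nil)))) .nil)) 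
(.lf (nat_lit 61031) (.g (nat_lit 2431) (.e (nat_lit 1552) (nat_lit 109) (.e (nat_lit 344117) (nat_lit 21) (.e (nat_lit 516166) (nat_lit 12) (.e (nat_lit 450587) (nat_lit 10) .nil)))) .nil)))) (.nd (nat_lit 5) (.nd (nat_lit 6) 
(.lf (nat_lit 60951) (.g (nat_lit 1395) (.e (nat_lit 1551) (nat_lit 109) (.e (nat_lit 344117) (nat_lit 21) (.e (nat_lit 516185) (nat_lit 16) (.e (nat_lit 491560) (nat_lit 10) .nil)))) .nil)) 
(.lf (nat_lit 61015) (.g (nat_lit 3334) (.e (nat_lit 1552) (nat_lit 109) (.e (nat_lit 344117) (nat_lit 21) (.e (nat_lit 516151) (nat_lit 9) (.e (nat_lit 426286) (nat_lit 10) (.e (nat_lit 434245) (nat_lit 28) .nil))))) .nil))) (.nd (nat_lit 6) 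
(.lf (nat_lit 60983) (.g (nat_lit 2642) (.e (nat_lit 1551) (nat_lit 109) (.e (nat_lit 344129) (nat_lit 26) (.e (nat_lit 557097) (nat_lit 13) (.e (nat_lit 172064) (nat_lit 2) (.e (nat_lit 196653) (nat_lit 11) .nil))))) .nil)) 
(.lf (nat_lit 61047) (.g (nat_lit 1216) (.e (nat_lit 1553) (nat_lit 110) (.e (nat_lit 352277) (nat_lit 11) (.e (nat_lit 426010) (nat_lit 0) (.e (nat_lit 7591) (nat_lit 407) (.e (nat_lit 73772) (nat_lit 24) .nil))))) .nil))))) (.nd (nat_lit 4) (.nd (nat_lit 5) (.nd (nat_lit 6) 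
(.lf (nat_lit 60943) (.g (nat_lit 5192) (.e (nat_lit 1551) (nat_lit 109) (.e (nat_lit 344117) (nat_lit 21) (.e (nat_lit 516167) (nat_lit 12) (.e (nat_lit 450586) (nat_lit 10) (.e (nat_lit 573474) (nat_lit 12) (.e (nat_lit 57572) (nat_lit 54) (.e (nat_lit 770055) (nat_lit 5) .nil))))))) (.g (nat_lit 5) .nil .nil))) 
(.lf (nat_lit 61007) (.g (nat_lit 2969) (.e (nat_lit 1551) (nat_lit 109) (.e (nat_lit 344129) (nat_lit 26) (.e (nat_lit 557104) (nat_lit 14) (.e (nat_lit 180252) (nat_lit 10) (.e (nat_lit 581376) (nat_lit 5) .nil))))) .nil))) (.nd (nat_lit 6) 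
(.lf (nat_lit 60975) (.g (nat_lit 1743) (.e (nat_lit 1551) (nat_lit 109) (.e (nat_lit 344129) (nat_lit 26) (.e (nat_lit 557096) (nat_lit 13) (.e (nat_lit 172142) (nat_lit 24) .nil)))) .nil)) 
(.lf (nat_lit 61039) (.g (nat_lit 625) (.e (nat_lit 1552) (nat_lit 109) (.e (nat_lit 344177) (nat_lit 43) (.e (nat_lit 770074) (nat_lit 10) .nil))) .nil)))) (.nd (nat_lit 5) (.nd (nat_lit 6) 
(.lf (nat_lit 60959) (.g (nat_lit 1332) (.e (nat_lit 1551) (nat_lit 109) (.e (nat_lit 344126) (nat_lit 25) (.e (nat_lit 548872) (nat_lit 5) (.e (nat_lit 1598) (nat_lit 111) (.e (nat_lit 360466) (nat_lit 3) (.e (nat_lit 516105) (nat_lit 0) (.e (nat_lit 7936) (nat_lit 402) .nil))))))) (.g (nat_lit 4) .nil .nil))) 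
(.lf (nat_lit 61023) (.g (nat_lit 3196) (.e (nat_lit 1552) (nat_lit 109) (.e (nat_lit 344117) (nat_lit 21) (.e (nat_lit 516165) (nat_lit 12) (.e (nat_lit 450586) (nat_lit 10) (.e (nat_lit 573475) (nat_lit 12) .nil))))) .nil))) (.nd (nat_lit 6) 
(.lf (nat_lit 60991) (.g (nat_lit 2329) (.e (nat_lit 1551) (nat_lit 109) (.e (nat_lit 344129) (nat_lit 26) (.e (nat_lit 557097) (nat_lit 13) (.e (nat_lit 172133) (nat_lit 15) (.e (nat_lit 2175) (nat_lit 143) .nil))))) .nil)) 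
(.lf (nat_lit 61055) (.g (nat_lit 1574) (.e (nat_lit 1553) (nat_lit 110) (.e (nat_lit 352277) (nat_lit 11) (.e (nat_lit 426342) (nat_lit 14) (.e (nat_lit 491560) (nat_lit 10) (.e (nat_lit 344174) (nat_lit 42) (.e (nat_lit 761867) (nat_lit 5) .nil)))))) (.g (nat_lit 4) .nil .nil))))))))))

noncomputable def tv836 : DT := (.nd (nat_lit 0) (.nd (nat_lit 1) (.nd (nat_lit 2) (.nd (nat_lit 3) (.nd (nat_lit 4) (.nd (nat_lit 5) 
(.lf (nat_lit 61056) (.g (nat_lit 2857) (.e (nat_lit 1553) (nat_lit 110) (.e (nat_lit 352277) (nat_lit 11) (.e (nat_lit 426343) (nat_lit 14) (.e (nat_lit 491546) (nat_lit 9) (.e (nat_lit 335997) (nat_lit 1) .nil))))) .nil)) 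
(.lf (nat_lit 61088) (.g (nat_lit 1546) (.e (nat_lit 1553) (nat_lit 110) (.e (nat_lit 352324) (nat_lit 26) (.e (nat_lit 147495) (nat_lit 11) (.e (nat_lit 24639) (nat_lit 10) .nil)))) .nil))) (.nd (nat_lit 5) 
(.lf (nat_lit 61072) (.g (nat_lit 2542) (.e (nat_lit 1553) (nat_lit 110) (.e (nat_lit 352313) (nat_lit 23) (.e (nat_lit 98350) (nat_lit 24) (.e (nat_lit 409645) (nat_lit 18) (.e (nat_lit 303117) (nat_lit 2) (.e (nat_lit 196630) (nat_lit 9) .nil)))))) (.g (nat_lit 4) .nil .nil))) 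
(.lf (nat_lit 61104) (.g (nat_lit 1616) (.e (nat_lit 1555) (nat_lit 110) (.e (nat_lit 352262) (nat_lit 0) (.e (nat_lit 3748) (nat_lit 228) (.e (nat_lit 786478) (nat_lit 29) (.e (nat_lit 352270) (nat_lit 8) .nil))))) .nil)))) (.nd (nat_lit 4) (.nd (nat_lit 5) 
(.lf (nat_lit 61064) (.g (nat_lit 1277) (.e (nat_lit 1553) (nat_lit 110) (.e (nat_lit 352309) (nat_lit 21) (.e (nat_lit 57857) (nat_lit 254) (.e (nat_lit 163908) (nat_lit 12) .nil)))) .nil)) 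
(.lf (nat_lit 61096) (.g (nat_lit 543) (.e (nat_lit 1554) (nat_lit 110) (.e (nat_lit 352309) (nat_lit 21) (.e (nat_lit 57871) (nat_lit 264) .nil))) .nil))) (.nd (nat_lit 5) 
(.lf (nat_lit 61080) (.g (nat_lit 1820) (.e (nat_lit 1553) (nat_lit 110) (.e (nat_lit 352315) (nat_lit 23) (.e (nat_lit 98389) (nat_lit 33) (.e (nat_lit 491544) (nat_lit 7) (.e (nat_lit 319519) (nat_lit 12) .nil))))) .nil)) 
(.lf (nat_lit 61112) (.g (nat_lit 1154) (.e (nat_lit 1555) (nat_lit 110) (.e (nat_lit 352269) (nat_lit 7) (.e (nat_lit 245776) (nat_lit 4) (.e (nat_lit 172081) (nat_lit 7) (.e (nat_lit 409634) (nat_lit 13) (.e (nat_lit 40964) (nat_lit 0) .nil)))))) (.g (nat_lit 0) .nil .nil)))))) (.nd (nat_lit 3) (.nd (nat_lit 4) (.nd (nat_lit 5) 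
(.lf (nat_lit 61060) (.g (nat_lit 1799) (.e (nat_lit 1553) (nat_lit 110) (.e (nat_lit 352277) (nat_lit 11) (.e (nat_lit 426344) (nat_lit 14) (.e (nat_lit 491558) (nat_lit 10) (.e (nat_lit 344174) (nat_lit 42) (.e (nat_lit 761867) (nat_lit 5) .nil)))))) (.g (nat_lit 4) .nil .nil))) 
(.lf (nat_lit 61092) (.g (nat_lit 2010) (.e (nat_lit 1554) (nat_lit 110) (.e (nat_lit 352277) (nat_lit 11) (.e (nat_lit 426343) (nat_lit 14) (.e (nat_lit 491558) (nat_lit 10) (.e (nat_lit 344174) (nat_lit 42) .nil))))) .nil))) (.nd (nat_lit 5) 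
(.lf (nat_lit 61076) (.g (nat_lit 5081) (.e (nat_lit 1553) (nat_lit 110) (.e (nat_lit 352315) (nat_lit 23) (.e (nat_lit 98349) (nat_lit 24) (.e (nat_lit 409646) (nat_lit 18) (.e (nat_lit 303117) (nat_lit 2) (.e (nat_lit 196630) (nat_lit 9) .nil)))))) (.g (nat_lit 0) .nil .nil))) 
(.lf (nat_lit 61108) (.g (nat_lit 147) (.e (nat_lit 1555) (nat_lit 110) (.e (nat_lit 352269) (nat_lit 7) (.e (nat_lit 245776) (nat_lit 4) .nil))) .nil)))) (.nd (nat_lit 4) (.nd (nat_lit 5) 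
(.lf (nat_lit 61068) (.g (nat_lit 1552) (.e (nat_lit 1553) (nat_lit 110) (.e (nat_lit 352309) (nat_lit 21) (.e (nat_lit 57872) (nat_lit 264) (.e (nat_lit 1221) (nat_lit 90) .nil)))) .nil)) 
(.lf (nat_lit 61100) (.g (nat_lit 1912) (.e (nat_lit 1554) (nat_lit 110) (.e (nat_lit 352309) (nat_lit 21) (.e (nat_lit 57873) (nat_lit 264) (.e (nat_lit 1221) (nat_lit 90) .nil)))) .nil))) (.nd (nat_lit 5) 
(.lf (nat_lit 61084) (.g (nat_lit 632) (.e (nat_lit 1553) (nat_lit 110) (.e (nat_lit 352318) (nat_lit 24) (.e (nat_lit 123198) (nat_lit 266) .nil))) .nil)) 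
(.lf (nat_lit 61116) (.g (nat_lit 425) (.e (nat_lit 1555) (nat_lit 110) (.e (nat_lit 352272) (nat_lit 10) (.e (nat_lit 417794) (nat_lit 0) (.e (nat_lit 5410) (nat_lit 303) (.e (nat_lit 73772) (nat_lit 24) .nil))))) .nil)))))) (.nd (nat_lit 2) (.nd (nat_lit 3) (.nd (nat_lit 4) (.nd (nat_lit 5) 
(.lf (nat_lit 61058) (.g (nat_lit 1890) (.e (nat_lit 1553) (nat_lit 110) (.e (nat_lit 352277) (nat_lit 11) (.e (nat_lit 426343) (nat_lit 14) (.e (nat_lit 491558) (nat_lit 10) (.e (nat_lit 344174) (nat_lit 42) (.e (nat_lit 761867) (nat_lit 5) .nil)))))) (.g (nat_lit 4) .nil .nil))) 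
(.lf (nat_lit 61090) (.g (nat_lit 1424) (.e (nat_lit 1554) (nat_lit 110) (.e (nat_lit 352277) (nat_lit 11) (.e (nat_lit 426011) (nat_lit 0) (.e (nat_lit 7591) (nat_lit 407) .nil)))) .nil))) (.nd (nat_lit 5) 
(.lf (nat_lit 61074) (.g (nat_lit 4706) (.e (nat_lit 1553) (nat_lit 110) (.e (nat_lit 352315) (nat_lit 23) (.e (nat_lit 98349) (nat_lit 24) (.e (nat_lit 409645) (nat_lit 18) (.e (nat_lit 303117) (nat_lit 2) (.e (nat_lit 196630) (nat_lit 9) .nil)))))) (.g (nat_lit 6) .nil .nil))) 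
(.lf (nat_lit 61106) (.g (nat_lit 1799) (.e (nat_lit 1555) (nat_lit 110) (.e (nat_lit 360192) (nat_lit 3) (.e (nat_lit 204831) (nat_lit 18) (.e (nat_lit 57852) (nat_lit 252) (.e (nat_lit 57419) (nat_lit 12) (.e (nat_lit 336049) (nat_lit 6) (.e (nat_lit 147460) (nat_lit 0) .nil))))))) (.g (nat_lit 6) .nil .nil))))) (.nd (nat_lit 4) (.nd (nat_lit 5) 
(.lf (nat_lit 61066) (.g (nat_lit 1502) (.e (nat_lit 1553) (nat_lit 110) (.e (nat_lit 352309) (nat_lit 21) (.e (nat_lit 57872) (nat_lit 264) (.e (nat_lit 1219) (nat_lit 90) .nil)))) .nil)) 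
(.lf (nat_lit 61098) (.g (nat_lit 2336) (.e (nat_lit 1554) (nat_lit 110) (.e (nat_lit 352309) (nat_lit 21) (.e (nat_lit 57872) (nat_lit 264) (.e (nat_lit 1221) (nat_lit 90) (.e (nat_lit 89856) (nat_lit 8) .nil))))) .nil))) (.nd (nat_lit 5) 
(.lf (nat_lit 61082) (.g (nat_lit 632) (.e (nat_lit 1553) (nat_lit 110) (.e (nat_lit 352318) (nat_lit 24) (.e (nat_lit 123185) (nat_lit 264) .nil))) .nil)) 
(.lf (nat_lit 61114) (.g (nat_lit 1229) (.e (nat_lit 1555) (nat_lit 110) (.e (nat_lit 352272) (nat_lit 10) (.e (nat_lit 417793) (nat_lit 0) (.e (nat_lit 5412) (nat_lit 303) (.e (nat_lit 73772) (nat_lit 24) (.e (nat_lit 761866) (nat_lit 5) .nil)))))) (.g (nat_lit 0) .nil .nil)))))) (.nd (nat_lit 3) (.nd (nat_lit 4) (.nd (nat_lit 5) 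
(.lf (nat_lit 61062) (.g (nat_lit 1768) (.e (nat_lit 1553) (nat_lit 110) (.e (nat_lit 352277) (nat_lit 11) (.e (nat_lit 426344) (nat_lit 14) (.e (nat_lit 491560) (nat_lit 10) (.e (nat_lit 344174) (nat_lit 42) (.e (nat_lit 761867) (nat_lit 5) .nil)))))) (.g (nat_lit 4) .nil .nil))) 
(.lf (nat_lit 61094) (.g (nat_lit 1121) (.e (nat_lit 1554) (nat_lit 110) (.e (nat_lit 352277) (nat_lit 11) (.e (nat_lit 426344) (nat_lit 14) (.e (nat_lit 491558) (nat_lit 10) .nil)))) .nil))) (.nd (nat_lit 5) 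
(.lf (nat_lit 61078) (.g (nat_lit 3132) (.e (nat_lit 1553) (nat_lit 110) (.e (nat_lit 352315) (nat_lit 23) (.e (nat_lit 98350) (nat_lit 24) (.e (nat_lit 409647) (nat_lit 18) (.e (nat_lit 303117) (nat_lit 2) (.e (nat_lit 196630) (nat_lit 9) .nil)))))) (.g (nat_lit 4) .nil .nil))) 
(.lf (nat_lit 61110) (.g (nat_lit 1359) (.e (nat_lit 1555) (nat_lit 110) (.e (nat_lit 352269) (nat_lit 7) (.e (nat_lit 245776) (nat_lit 4) (.e (nat_lit 172079) (nat_lit 7) (.e (nat_lit 409634) (nat_lit 13) (.e (nat_lit 40964) (nat_lit 0) .nil)))))) (.g (nat_lit 6) .nil .nil))))) (.nd (nat_lit 4) (.nd (nat_lit 5) 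
(.lf (nat_lit 61070) (.g (nat_lit 2321) (.e (nat_lit 1553) (nat_lit 110) (.e (nat_lit 352309) (nat_lit 21) (.e (nat_lit 57872) (nat_lit 264) (.e (nat_lit 1221) (nat_lit 90) (.e (nat_lit 81959) (nat_lit 24) .nil))))) .nil)) 
(.lf (nat_lit 61102) (.g (nat_lit 728) (.e (nat_lit 1554) (nat_lit 110) (.e (nat_lit 352324) (nat_lit 26) (.e (nat_lit 147495) (nat_lit 11) .nil))) .nil))) (.nd (nat_lit 5) 
(.lf (nat_lit 61086) (.g (nat_lit 2446) (.e (nat_lit 1553) (nat_lit 110) (.e (nat_lit 352324) (nat_lit 26) (.e (nat_lit 147494) (nat_lit 11) (.e (nat_lit 24665) (nat_lit 14) (.e (nat_lit 401413) (nat_lit 0) (.e (nat_lit 3459) (nat_lit 216) (.e (nat_lit 688157) (nat_lit 13) .nil))))))) (.g (nat_lit 5) .nil .nil))) 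
(.lf (nat_lit 61118) (.g (nat_lit 1609) (.e (nat_lit 1555) (nat_lit 110) (.e (nat_lit 352272) (nat_lit 10) (.e (nat_lit 417795) (nat_lit 0) (.e (nat_lit 5412) (nat_lit 303) (.e (nat_lit 73772) (nat_lit 24) (.e (nat_lit 761866) (nat_lit 5) .nil)))))) (.g (nat_lit 0) .nil .nil)))))))) (.nd (nat_lit 1) (.nd (nat_lit 2) (.nd (nat_lit 3) (.nd (nat_lit 4) (.nd (nat_lit 5) 
(.lf (nat_lit 61057) (.g (nat_lit 1129) (.e (nat_lit 1553) (nat_lit 110) (.e (nat_lit 352277) (nat_lit 11) (.e (nat_lit 426343) (nat_lit 14) (.e (nat_lit 491558) (nat_lit 10) .nil)))) .nil)) 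
(.lf (nat_lit 61089) (.g (nat_lit 485) (.e (nat_lit 1554) (nat_lit 110) (.e (nat_lit 352262) (nat_lit 0) (.e (nat_lit 3748) (nat_lit 228) .nil))) .nil))) (.nd (nat_lit 5) 
(.lf (nat_lit 61073) (.g (nat_lit 1904) (.e (nat_lit 1553) (nat_lit 110) (.e (nat_lit 352315) (nat_lit 23) (.e (nat_lit 98323) (nat_lit 17) (.e (nat_lit 6989) (nat_lit 377) (.e (nat_lit 2810) (nat_lit 180) .nil))))) .nil)) 
(.lf (nat_lit 61105) (.g (nat_lit 1685) (.e (nat_lit 1555) (nat_lit 110) (.e (nat_lit 352262) (nat_lit 0) (.e (nat_lit 3748) (nat_lit 228) (.e (nat_lit 786480) (nat_lit 29) (.e (nat_lit 352270) (nat_lit 8) .nil))))) .nil)))) (.nd (nat_lit 4) (.nd (nat_lit 5) 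
(.lf (nat_lit 61065) (.g (nat_lit 1334) (.e (nat_lit 1553) (nat_lit 110) (.e (nat_lit 352309) (nat_lit 21) (.e (nat_lit 57857) (nat_lit 254) (.e (nat_lit 163923) (nat_lit 15) .nil)))) .nil)) 
(.lf (nat_lit 61097) (.g (nat_lit 2202) (.e (nat_lit 1554) (nat_lit 110) (.e (nat_lit 352309) (nat_lit 21) (.e (nat_lit 57872) (nat_lit 264) (.e (nat_lit 1219) (nat_lit 90) (.e (nat_lit 89856) (nat_lit 8) .nil))))) .nil))) (.nd (nat_lit 5) 
(.lf (nat_lit 61081) (.g (nat_lit 2423) (.e (nat_lit 1553) (nat_lit 110) (.e (nat_lit 352318) (nat_lit 24) (.e (nat_lit 123182) (nat_lit 264) (.e (nat_lit 1201) (nat_lit 88) (.e (nat_lit 65617) (nat_lit 10) .nil))))) .nil)) 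
(.lf (nat_lit 61113) (.g (nat_lit 1532) (.e (nat_lit 1555) (nat_lit 110) (.e (nat_lit 352269) (nat_lit 7) (.e (nat_lit 245776) (nat_lit 4) (.e (nat_lit 172082) (nat_lit 7) (.e (nat_lit 409634) (nat_lit 13) (.e (nat_lit 40964) (nat_lit 0) .nil)))))) (.g (nat_lit 0) .nil .nil)))))) (.nd (nat_lit 3) (.nd (nat_lit 4) (.nd (nat_lit 5) 
(.lf (nat_lit 61061) (.g (nat_lit 1968) (.e (nat_lit 1553) (nat_lit 110) (.e (nat_lit 352277) (nat_lit 11) (.e (nat_lit 426344) (nat_lit 14) (.e (nat_lit 491560) (nat_lit 10) (.e (nat_lit 344173) (nat_lit 42) .nil))))) .nil)) 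
(.lf (nat_lit 61093) (.g (nat_lit 2124) (.e (nat_lit 1554) (nat_lit 110) (.e (nat_lit 352277) (nat_lit 11) (.e (nat_lit 426343) (nat_lit 14) (.e (nat_lit 491560) (nat_lit 10) (.e (nat_lit 344174) (nat_lit 42) .nil))))) .nil))) (.nd (nat_lit 5) 
(.lf (nat_lit 61077) (.g (nat_lit 2608) (.e (nat_lit 1553) (nat_lit 110) (.e (nat_lit 352315) (nat_lit 23) (.e (nat_lit 98350) (nat_lit 24) (.e (nat_lit 409643) (nat_lit 18) (.e (nat_lit 303117) (nat_lit 2) (.e (nat_lit 196630) (nat_lit 9) .nil)))))) (.g (nat_lit 4) .nil .nil))) 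
(.lf (nat_lit 61109) (.g (nat_lit 829) (.e (nat_lit 1555) (nat_lit 110) (.e (nat_lit 352269) (nat_lit 7) (.e (nat_lit 245776) (nat_lit 4) (.e (nat_lit 172079) (nat_lit 7) (.e (nat_lit 409634) (nat_lit 13) (.e (nat_lit 40962) (nat_lit 0) .nil)))))) (.g (nat_lit 4) .nil .nil))))) (.nd (nat_lit 4) (.nd (nat_lit 5) 
(.lf (nat_lit 61069) (.g (nat_lit 2452) (.e (nat_lit 1553) (nat_lit 110) (.e (nat_lit 352309) (nat_lit 21) (.e (nat_lit 57872) (nat_lit 264) (.e (nat_lit 1221) (nat_lit 90) (.e (nat_lit 81931) (nat_lit 20) .nil))))) .nil)) 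
(.lf (nat_lit 61101) (.g (nat_lit 574) (.e (nat_lit 1554) (nat_lit 110) (.e (nat_lit 352322) (nat_lit 26) (.e (nat_lit 147495) (nat_lit 11) .nil))) .nil))) (.nd (nat_lit 5) 
(.lf (nat_lit 61085) (.g (nat_lit 573) (.e (nat_lit 1553) (nat_lit 110) (.e (nat_lit 352322) (nat_lit 26) (.e (nat_lit 147495) (nat_lit 11) .nil))) .nil)) 
(.lf (nat_lit 61117) (.g (nat_lit 1592) (.e (nat_lit 1555) (nat_lit 110) (.e (nat_lit 352272) (nat_lit 10) (.e (nat_lit 417795) (nat_lit 0) (.e (nat_lit 5409) (nat_lit 303) (.e (nat_lit 73772) (nat_lit 24) (.e (nat_lit 761866) (nat_lit 5) .nil)))))) (.g (nat_lit 0) .nil .nil))))))) (.nd (nat_lit 2) (.nd (nat_lit 3) (.nd (nat_lit 4) (.nd (nat_lit 5) 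
(.lf (nat_lit 61059) (.g (nat_lit 1433) (.e (nat_lit 1553) (nat_lit 110) (.e (nat_lit 352277) (nat_lit 11) (.e (nat_lit 426344) (nat_lit 14) (.e (nat_lit 491546) (nat_lit 9) .nil)))) .nil)) 
(.lf (nat_lit 61091) (.g (nat_lit 1398) (.e (nat_lit 1554) (nat_lit 110) (.e (nat_lit 352277) (nat_lit 11) (.e (nat_lit 426011) (nat_lit 0) (.e (nat_lit 7593) (nat_lit 407) .nil)))) .nil))) (.nd (nat_lit 5) 
(.lf (nat_lit 61075) (.g (nat_lit 1572) (.e (nat_lit 1553) (nat_lit 110) (.e (nat_lit 352315) (nat_lit 23) (.e (nat_lit 98349) (nat_lit 24) (.e (nat_lit 409646) (nat_lit 18) .nil)))) .nil)) 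
(.lf (nat_lit 61107) (.g (nat_lit 2381) (.e (nat_lit 1555) (nat_lit 110) (.e (nat_lit 360192) (nat_lit 5) (.e (nat_lit 221207) (nat_lit 21) (.e (nat_lit 164325) (nat_lit 230) (.e (nat_lit 163903) (nat_lit 12) (.e (nat_lit 426462) (nat_lit 23) (.e (nat_lit 147460) (nat_lit 0) .nil))))))) (.g (nat_lit 5) .nil .nil))))) (.nd (nat_lit 4) (.nd (nat_lit 5) 
(.lf (nat_lit 61067) (.g (nat_lit 2253) (.e (nat_lit 1553) (nat_lit 110) (.e (nat_lit 352309) (nat_lit 21) (.e (nat_lit 57872) (nat_lit 264) (.e (nat_lit 1219) (nat_lit 90) (.e (nat_lit 81935) (nat_lit 20) .nil))))) .nil)) 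
(.lf (nat_lit 61099) (.g (nat_lit 1863) (.e (nat_lit 1554) (nat_lit 110) (.e (nat_lit 352309) (nat_lit 21) (.e (nat_lit 57873) (nat_lit 264) (.e (nat_lit 1219) (nat_lit 90) .nil)))) .nil))) (.nd (nat_lit 5) 
(.lf (nat_lit 61083) (.g (nat_lit 627) (.e (nat_lit 1553) (nat_lit 110) (.e (nat_lit 352318) (nat_lit 24) (.e (nat_lit 123197) (nat_lit 266) .nil))) .nil)) 
(.lf (nat_lit 61115) (.g (nat_lit 1086) (.e (nat_lit 1555) (nat_lit 110) (.e (nat_lit 352272) (nat_lit 10) (.e (nat_lit 417793) (nat_lit 0) (.e (nat_lit 5412) (nat_lit 303) (.e (nat_lit 73772) (nat_lit 24) (.e (nat_lit 761868) (nat_lit 5) .nil)))))) (.g (nat_lit 0) .nil .nil)))))) (.nd (nat_lit 3) (.nd (nat_lit 4) (.nd (nat_lit 5) 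
(.lf (nat_lit 61063) (.g (nat_lit 1922) (.e (nat_lit 1553) (nat_lit 110) (.e (nat_lit 352309) (nat_lit 21) (.e (nat_lit 57683) (nat_lit 155) (.e (nat_lit 122916) (nat_lit 14) .nil)))) .nil)) 
(.lf (nat_lit 61095) (.g (nat_lit 2673) (.e (nat_lit 1554) (nat_lit 110) (.e (nat_lit 352309) (nat_lit 21) (.e (nat_lit 57683) (nat_lit 155) (.e (nat_lit 122916) (nat_lit 14) (.e (nat_lit 352309) (nat_lit 21) .nil))))) .nil))) (.nd (nat_lit 5) 
(.lf (nat_lit 61079) (.g (nat_lit 678) (.e (nat_lit 1553) (nat_lit 110) (.e (nat_lit 352315) (nat_lit 23) (.e (nat_lit 98389) (nat_lit 33) .nil))) .nil)) 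
(.lf (nat_lit 61111) (.g (nat_lit 453) (.e (nat_lit 1555) (nat_lit 110) (.e (nat_lit 352269) (nat_lit 7) (.e (nat_lit 245776) (nat_lit 4) (.e (nat_lit 172081) (nat_lit 7) .nil)))) .nil)))) (.nd (nat_lit 4) (.nd (nat_lit 5) 
(.lf (nat_lit 61071) (.g (nat_lit 918) (.e (nat_lit 1553) (nat_lit 110) (.e (nat_lit 352312) (nat_lit 22) (.e (nat_lit 90165) (nat_lit 12) (.e (nat_lit 171776) (nat_lit 176) .nil)))) .nil)) 
(.lf (nat_lit 61103) (.g (nat_lit 372) (.e (nat_lit 1555) (nat_lit 110) (.e (nat_lit 352262) (nat_lit 0) (.e (nat_lit 3747) (nat_lit 228) .nil))) .nil))) (.nd (nat_lit 5) 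
(.lf (nat_lit 61087) (.g (nat_lit 3123) (.e (nat_lit 1553) (nat_lit 110) (.e (nat_lit 352324) (nat_lit 26) (.e (nat_lit 147494) (nat_lit 11) (.e (nat_lit 24665) (nat_lit 14) (.e (nat_lit 401414) (nat_lit 0) (.e (nat_lit 3459) (nat_lit 216) (.e (nat_lit 688161) (nat_lit 13) .nil))))))) (.g (nat_lit 5) .nil .nil))) 
(.lf (nat_lit 61119) (.g (nat_lit 1906) (.e (nat_lit 1555) (nat_lit 110) (.e (nat_lit 352272) (nat_lit 10) (.e (nat_lit 417796) (nat_lit 0) (.e (nat_lit 5409) (nat_lit 303) (.e (nat_lit 73772) (nat_lit 24) (.e (nat_lit 761866) (nat_lit 5) .nil)))))) (.g (nat_lit 0) .nil .nil)))))))))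

noncomputable def tv837 : DT := (.nd (nat_lit 0) (.nd (nat_lit 1) (.nd (nat_lit 2) (.nd (nat_lit 3) (.nd (nat_lit 4) (.nd (nat_lit 5) 
(.lf (nat_lit 61120) (.g (nat_lit 1554) (.e (nat_lit 1555) (nat_lit 110) (.e (nat_lit 352272) (nat_lit 10) (.e (nat_lit 417796) (nat_lit 0) (.e (nat_lit 5412) (nat_lit 303) (.e (nat_lit 73772) (nat_lit 24) (.e (nat_lit 761866) (nat_lit 5) .nil)))))) (.g (nat_lit 0) .nil .nil))) 
(.lf (nat_lit 61152) (.g (nat_lit 2794) (.e (nat_lit 1555) (nat_lit 110) (.e (nat_lit 352277) (nat_lit 11) (.e (nat_lit 426343) (nat_lit 14) (.e (nat_lit 491560) (nat_lit 10) (.e (nat_lit 344174) (nat_lit 42) (.e (nat_lit 761868) (nat_lit 5) .nil)))))) (.g (nat_lit 0) .nil .nil)))) (.nd (nat_lit 5) 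
(.lf (nat_lit 61136) (.g (nat_lit 2575) (.e (nat_lit 1555) (nat_lit 110) (.e (nat_lit 352277) (nat_lit 11) (.e (nat_lit 426011) (nat_lit 0) (.e (nat_lit 7591) (nat_lit 407) (.e (nat_lit 73772) (nat_lit 24) (.e (nat_lit 761866) (nat_lit 5) .nil)))))) (.g (nat_lit 6) .nil .nil))) 
(.lf (nat_lit 61168) (.g (nat_lit 2346) (.e (nat_lit 1555) (nat_lit 110) (.e (nat_lit 352309) (nat_lit 21) (.e (nat_lit 57872) (nat_lit 264) (.e (nat_lit 1221) (nat_lit 90) (.e (nat_lit 89856) (nat_lit 8) .nil))))) .nil)))) (.nd (nat_lit 4) (.nd (nat_lit 5) 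
(.lf (nat_lit 61128) (.g (nat_lit 1593) (.e (nat_lit 1555) (nat_lit 110) (.e (nat_lit 352272) (nat_lit 10) (.e (nat_lit 417811) (nat_lit 6) (.e (nat_lit 286755) (nat_lit 10) (.e (nat_lit 344174) (nat_lit 42) (.e (nat_lit 761868) (nat_lit 5) .nil)))))) (.g (nat_lit 0) .nil .nil))) 
(.lf (nat_lit 61160) (.g (nat_lit 345) (.e (nat_lit 1555) (nat_lit 110) (.e (nat_lit 360192) (nat_lit 17) (.e (nat_lit 475152) (nat_lit 17) (.e (nat_lit 57814) (nat_lit 246) (.e (nat_lit 65280) (nat_lit 89) (.e (nat_lit 557060) (nat_lit 0) .nil)))))) (.g (nat_lit 4) .nil .nil)))) (.nd (nat_lit 5) 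
(.lf (nat_lit 61144) (.g (nat_lit 2141) (.e (nat_lit 1555) (nat_lit 110) (.e (nat_lit 352277) (nat_lit 11) (.e (nat_lit 426342) (nat_lit 14) (.e (nat_lit 491558) (nat_lit 10) (.e (nat_lit 344174) (nat_lit 42) (.e (nat_lit 761869) (nat_lit 5) .nil)))))) (.g (nat_lit 6) .nil .nil))) 
(.lf (nat_lit 61176) (.g (nat_lit 1271) (.e (nat_lit 1556) (nat_lit 110) (.e (nat_lit 352309) (nat_lit 21) (.e (nat_lit 57857) (nat_lit 254) (.e (nat_lit 163920) (nat_lit 14) .nil)))) .nil))))) (.nd (nat_lit 3) (.nd (nat_lit 4) (.nd (nat_lit 5) 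
(.lf (nat_lit 61124) (.g (nat_lit 2093) (.e (nat_lit 1555) (nat_lit 110) (.e (nat_lit 352272) (nat_lit 10) (.e (nat_lit 417811) (nat_lit 6) (.e (nat_lit 286753) (nat_lit 10) (.e (nat_lit 344174) (nat_lit 42) (.e (nat_lit 761866) (nat_lit 5) .nil)))))) (.g (nat_lit 0) .nil .nil))) 
(.lf (nat_lit 61156) (.g (nat_lit 2312) (.e (nat_lit 1555) (nat_lit 110) (.e (nat_lit 352277) (nat_lit 11) (.e (nat_lit 426344) (nat_lit 14) (.e (nat_lit 491560) (nat_lit 10) (.e (nat_lit 344173) (nat_lit 42) (.e (nat_lit 761868) (nat_lit 5) .nil)))))) (.g (nat_lit 0) .nil .nil)))) (.nd (nat_lit 5) 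
(.lf (nat_lit 61140) (.g (nat_lit 2047) (.e (nat_lit 1555) (nat_lit 110) (.e (nat_lit 352277) (nat_lit 11) (.e (nat_lit 426012) (nat_lit 0) (.e (nat_lit 7591) (nat_lit 407) (.e (nat_lit 73772) (nat_lit 24) (.e (nat_lit 761866) (nat_lit 5) .nil)))))) (.g (nat_lit 6) .nil .nil))) 
(.lf (nat_lit 61172) (.g (nat_lit 635) (.e (nat_lit 1555) (nat_lit 110) (.e (nat_lit 352318) (nat_lit 24) (.e (nat_lit 123185) (nat_lit 264) .nil))) .nil)))) (.nd (nat_lit 4) (.nd (nat_lit 5) 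
(.lf (nat_lit 61132) (.g (nat_lit 1584) (.e (nat_lit 1555) (nat_lit 110) (.e (nat_lit 352277) (nat_lit 11) (.e (nat_lit 426010) (nat_lit 0) (.e (nat_lit 7591) (nat_lit 407) (.e (nat_lit 73772) (nat_lit 24) (.e (nat_lit 761866) (nat_lit 5) .nil)))))) (.g (nat_lit 6) .nil .nil))) 
(.lf (nat_lit 61164) (.g (nat_lit 2672) (.e (nat_lit 1555) (nat_lit 110) (.e (nat_lit 352309) (nat_lit 21) (.e (nat_lit 57683) (nat_lit 155) (.e (nat_lit 122916) (nat_lit 14) (.e (nat_lit 352309) (nat_lit 21) .nil))))) .nil))) (.nd (nat_lit 5) 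
(.lf (nat_lit 61148) (.g (nat_lit 2632) (.e (nat_lit 1555) (nat_lit 110) (.e (nat_lit 352277) (nat_lit 11) (.e (nat_lit 426343) (nat_lit 14) (.e (nat_lit 491558) (nat_lit 10) (.e (nat_lit 344174) (nat_lit 42) (.e (nat_lit 761868) (nat_lit 5) .nil)))))) (.g (nat_lit 0) .nil .nil))) 
(.lf (nat_lit 61180) (.g (nat_lit 1860) (.e (nat_lit 1556) (nat_lit 110) (.e (nat_lit 352315) (nat_lit 23) (.e (nat_lit 98367) (nat_lit 27) (.e (nat_lit 434268) (nat_lit 36) .nil)))) .nil)))))) (.nd (nat_lit 2) (.nd (nat_lit 3) (.nd (nat_lit 4) (.nd (nat_lit 5) 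
(.lf (nat_lit 61122) (.g (nat_lit 1055) (.e (nat_lit 1555) (nat_lit 110) (.e (nat_lit 352272) (nat_lit 10) (.e (nat_lit 417811) (nat_lit 6) (.e (nat_lit 286753) (nat_lit 10) (.e (nat_lit 344173) (nat_lit 42) (.e (nat_lit 761868) (nat_lit 5) .nil)))))) (.g (nat_lit 4) .nil .nil))) 
(.lf (nat_lit 61154) (.g (nat_lit 2458) (.e (nat_lit 1555) (nat_lit 110) (.e (nat_lit 352277) (nat_lit 11) (.e (nat_lit 426344) (nat_lit 14) (.e (nat_lit 491558) (nat_lit 10) (.e (nat_lit 344174) (nat_lit 42) (.e (nat_lit 761868) (nat_lit 5) .nil)))))) (.g (nat_lit 6) .nil .nil)))) (.nd (nat_lit 5) 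
(.lf (nat_lit 61138) (.g (nat_lit 2745) (.e (nat_lit 1555) (nat_lit 110) (.e (nat_lit 352277) (nat_lit 11) (.e (nat_lit 426011) (nat_lit 0) (.e (nat_lit 7593) (nat_lit 407) (.e (nat_lit 73772) (nat_lit 24) (.e (nat_lit 761866) (nat_lit 5) .nil)))))) (.g (nat_lit 0) .nil .nil))) 
(.lf (nat_lit 61170) (.g (nat_lit 1042) (.e (nat_lit 1555) (nat_lit 110) (.e (nat_lit 352318) (nat_lit 24) (.e (nat_lit 123182) (nat_lit 264) (.e (nat_lit 1222) (nat_lit 90) .nil)))) .nil)))) (.nd (nat_lit 4) (.nd (nat_lit 5) 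
(.lf (nat_lit 61130) (.g (nat_lit 1692) (.e (nat_lit 1555) (nat_lit 110) (.e (nat_lit 352277) (nat_lit 11) (.e (nat_lit 426009) (nat_lit 0) (.e (nat_lit 7593) (nat_lit 407) (.e (nat_lit 73772) (nat_lit 24) (.e (nat_lit 761866) (nat_lit 5) .nil)))))) (.g (nat_lit 0) .nil .nil))) 
(.lf (nat_lit 61162) (.g (nat_lit 2630) (.e (nat_lit 1555) (nat_lit 110) (.e (nat_lit 360192) (nat_lit 18) (.e (nat_lit 483366) (nat_lit 18) (.e (nat_lit 57851) (nat_lit 252) (.e (nat_lit 57354) (nat_lit 0) (.e (nat_lit 1855) (nat_lit 124) (.e (nat_lit 564992) (nat_lit 0) .nil))))))) (.g (nat_lit 6) .nil .nil)))) (.nd (nat_lit 5) 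
(.lf (nat_lit 61146) (.g (nat_lit 2312) (.e (nat_lit 1555) (nat_lit 110) (.e (nat_lit 352277) (nat_lit 11) (.e (nat_lit 426342) (nat_lit 14) (.e (nat_lit 491560) (nat_lit 10) (.e (nat_lit 344174) (nat_lit 42) (.e (nat_lit 761868) (nat_lit 5) .nil)))))) (.g (nat_lit 0) .nil .nil))) 
(.lf (nat_lit 61178) (.g (nat_lit 753) (.e (nat_lit 1556) (nat_lit 110) (.e (nat_lit 352315) (nat_lit 23) (.e (nat_lit 98350) (nat_lit 24) .nil))) .nil))))) (.nd (nat_lit 3) (.nd (nat_lit 4) (.nd (nat_lit 5) 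
(.lf (nat_lit 61126) (.g (nat_lit 1803) (.e (nat_lit 1555) (nat_lit 110) (.e (nat_lit 352272) (nat_lit 10) (.e (nat_lit 417811) (nat_lit 6) (.e (nat_lit 286754) (nat_lit 10) (.e (nat_lit 344174) (nat_lit 42) (.e (nat_lit 761868) (nat_lit 5) .nil)))))) (.g (nat_lit 0) .nil .nil))) 
(.lf (nat_lit 61158) (.g (nat_lit 2498) (.e (nat_lit 1555) (nat_lit 110) (.e (nat_lit 352277) (nat_lit 11) (.e (nat_lit 426344) (nat_lit 14) (.e (nat_lit 491560) (nat_lit 10) (.e (nat_lit 344174) (nat_lit 42) (.e (nat_lit 761868) (nat_lit 5) .nil)))))) (.g (nat_lit 6) .nil .nil)))) (.nd (nat_lit 5) 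
(.lf (nat_lit 61142) (.g (nat_lit 2308) (.e (nat_lit 1555) (nat_lit 110) (.e (nat_lit 352277) (nat_lit 11) (.e (nat_lit 426012) (nat_lit 0) (.e (nat_lit 7593) (nat_lit 407) (.e (nat_lit 73772) (nat_lit 24) (.e (nat_lit 761866) (nat_lit 5) .nil)))))) (.g (nat_lit 0) .nil .nil))) 
(.lf (nat_lit 61174) (.g (nat_lit 827) (.e (nat_lit 1556) (nat_lit 110) (.e (nat_lit 352277) (nat_lit 11) (.e (nat_lit 426500) (nat_lit 27) (.e (nat_lit 335995) (nat_lit 1) .nil)))) .nil)))) (.nd (nat_lit 4) (.nd (nat_lit 5) 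
(.lf (nat_lit 61134) (.g (nat_lit 1845) (.e (nat_lit 1555) (nat_lit 110) (.e (nat_lit 352277) (nat_lit 11) (.e (nat_lit 426010) (nat_lit 0) (.e (nat_lit 7593) (nat_lit 407) (.e (nat_lit 73772) (nat_lit 24) (.e (nat_lit 761866) (nat_lit 5) .nil)))))) (.g (nat_lit 0) .nil .nil))) 
(.lf (nat_lit 61166) (.g (nat_lit 705) (.e (nat_lit 1555) (nat_lit 110) (.e (nat_lit 352309) (nat_lit 21) (.e (nat_lit 57857) (nat_lit 254) .nil))) .nil))) (.nd (nat_lit 5) 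
(.lf (nat_lit 61150) (.g (nat_lit 1885) (.e (nat_lit 1555) (nat_lit 110) (.e (nat_lit 352277) (nat_lit 11) (.e (nat_lit 426343) (nat_lit 14) (.e (nat_lit 491560) (nat_lit 10) (.e (nat_lit 344174) (nat_lit 42) .nil))))) .nil)) 
(.lf (nat_lit 61182) (.g (nat_lit 2808) (.e (nat_lit 1556) (nat_lit 110) (.e (nat_lit 352315) (nat_lit 23) (.e (nat_lit 98367) (nat_lit 27) (.e (nat_lit 434268) (nat_lit 36) (.e (nat_lit 639007) (nat_lit 13) .nil))))) .nil))))))) (.nd (nat_lit 1) (.nd (nat_lit 2) (.nd (nat_lit 3) (.nd (nat_lit 4) (.nd (nat_lit 5) 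
(.lf (nat_lit 61121) (.g (nat_lit 1180) (.e (nat_lit 1555) (nat_lit 110) (.e (nat_lit 352272) (nat_lit 10) (.e (nat_lit 417811) (nat_lit 6) (.e (nat_lit 286753) (nat_lit 10) (.e (nat_lit 344173) (nat_lit 42) (.e (nat_lit 761866) (nat_lit 5) .nil)))))) (.g (nat_lit 5) .nil .nil))) 
(.lf (nat_lit 61153) (.g (nat_lit 2781) (.e (nat_lit 1555) (nat_lit 110) (.e (nat_lit 352277) (nat_lit 11) (.e (nat_lit 426344) (nat_lit 14) (.e (nat_lit 491558) (nat_lit 10) (.e (nat_lit 344174) (nat_lit 42) (.e (nat_lit 761866) (nat_lit 5) .nil)))))) (.g (nat_lit 0) .nil .nil)))) (.nd (nat_lit 5) 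
(.lf (nat_lit 61137) (.g (nat_lit 2486) (.e (nat_lit 1555) (nat_lit 110) (.e (nat_lit 352277) (nat_lit 11) (.e (nat_lit 426011) (nat_lit 0) (.e (nat_lit 7591) (nat_lit 407) (.e (nat_lit 73772) (nat_lit 24) (.e (nat_lit 761868) (nat_lit 5) .nil)))))) (.g (nat_lit 6) .nil .nil))) 
(.lf (nat_lit 61169) (.g (nat_lit 878) (.e (nat_lit 1555) (nat_lit 110) (.e (nat_lit 352309) (nat_lit 21) (.e (nat_lit 57873) (nat_lit 264) .nil))) .nil)))) (.nd (nat_lit 4) (.nd (nat_lit 5) 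
(.lf (nat_lit 61129) (.g (nat_lit 1079) (.e (nat_lit 1555) (nat_lit 110) (.e (nat_lit 352277) (nat_lit 11) (.e (nat_lit 426009) (nat_lit 0) (.e (nat_lit 7591) (nat_lit 407) (.e (nat_lit 73772) (nat_lit 24) (.e (nat_lit 761868) (nat_lit 5) .nil)))))) (.g (nat_lit 4) .nil .nil))) 
(.lf (nat_lit 61161) (.g (nat_lit 2800) (.e (nat_lit 1555) (nat_lit 110) (.e (nat_lit 360192) (nat_lit 18) (.e (nat_lit 483365) (nat_lit 18) (.e (nat_lit 57851) (nat_lit 252) (.e (nat_lit 57354) (nat_lit 0) (.e (nat_lit 1855) (nat_lit 124) (.e (nat_lit 564992) (nat_lit 0) .nil))))))) (.g (nat_lit 6) .nil .nil)))) (.nd (nat_lit 5) 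
(.lf (nat_lit 61145) (.g (nat_lit 2572) (.e (nat_lit 1555) (nat_lit 110) (.e (nat_lit 352277) (nat_lit 11) (.e (nat_lit 426342) (nat_lit 14) (.e (nat_lit 491560) (nat_lit 10) (.e (nat_lit 344174) (nat_lit 42) (.e (nat_lit 761866) (nat_lit 5) .nil)))))) (.g (nat_lit 6) .nil .nil))) 
(.lf (nat_lit 61177) (.g (nat_lit 749) (.e (nat_lit 1556) (nat_lit 110) (.e (nat_lit 352309) (nat_lit 21) (.e (nat_lit 57872) (nat_lit 264) .nil))) .nil))))) (.nd (nat_lit 3) (.nd (nat_lit 4) (.nd (nat_lit 5) 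
(.lf (nat_lit 61125) (.g (nat_lit 1797) (.e (nat_lit 1555) (nat_lit 110) (.e (nat_lit 352272) (nat_lit 10) (.e (nat_lit 417811) (nat_lit 6) (.e (nat_lit 286753) (nat_lit 10) (.e (nat_lit 344174) (nat_lit 42) (.e (nat_lit 761868) (nat_lit 5) .nil)))))) (.g (nat_lit 0) .nil .nil))) 
(.lf (nat_lit 61157) (.g (nat_lit 2769) (.e (nat_lit 1555) (nat_lit 110) (.e (nat_lit 352277) (nat_lit 11) (.e (nat_lit 426344) (nat_lit 14) (.e (nat_lit 491560) (nat_lit 10) (.e (nat_lit 344174) (nat_lit 42) (.e (nat_lit 761866) (nat_lit 5) .nil)))))) (.g (nat_lit 6) .nil .nil)))) (.nd (nat_lit 5) 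
(.lf (nat_lit 61141) (.g (nat_lit 1954) (.e (nat_lit 1555) (nat_lit 110) (.e (nat_lit 352277) (nat_lit 11) (.e (nat_lit 426012) (nat_lit 0) (.e (nat_lit 7591) (nat_lit 407) (.e (nat_lit 73772) (nat_lit 24) (.e (nat_lit 761868) (nat_lit 5) .nil)))))) (.g (nat_lit 6) .nil .nil))) 
(.lf (nat_lit 61173) (.g (nat_lit 635) (.e (nat_lit 1555) (nat_lit 110) (.e (nat_lit 352318) (nat_lit 24) (.e (nat_lit 123198) (nat_lit 266) .nil))) .nil)))) (.nd (nat_lit 4) (.nd (nat_lit 5) 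
(.lf (nat_lit 61133) (.g (nat_lit 1497) (.e (nat_lit 1555) (nat_lit 110) (.e (nat_lit 352277) (nat_lit 11) (.e (nat_lit 426010) (nat_lit 0) (.e (nat_lit 7591) (nat_lit 407) (.e (nat_lit 73772) (nat_lit 24) (.e (nat_lit 761868) (nat_lit 5) .nil)))))) (.g (nat_lit 6) .nil .nil))) 
(.lf (nat_lit 61165) (.g (nat_lit 2585) (.e (nat_lit 1555) (nat_lit 110) (.e (nat_lit 352309) (nat_lit 21) (.e (nat_lit 57684) (nat_lit 155) (.e (nat_lit 122916) (nat_lit 14) (.e (nat_lit 352309) (nat_lit 21) (.e (nat_lit 57666) (nat_lit 152) (.e (nat_lit 1077) (nat_lit 81) .nil))))))) (.g (nat_lit 4) .nil .nil)))) (.nd (nat_lit 5) 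
(.lf (nat_lit 61149) (.g (nat_lit 2322) (.e (nat_lit 1555) (nat_lit 110) (.e (nat_lit 352277) (nat_lit 11) (.e (nat_lit 426343) (nat_lit 14) (.e (nat_lit 491560) (nat_lit 10) (.e (nat_lit 344173) (nat_lit 42) .nil))))) .nil)) 
(.lf (nat_lit 61181) (.g (nat_lit 2878) (.e (nat_lit 1556) (nat_lit 110) (.e (nat_lit 352315) (nat_lit 23) (.e (nat_lit 98367) (nat_lit 27) (.e (nat_lit 434268) (nat_lit 36) (.e (nat_lit 639005) (nat_lit 13) .nil))))) .nil)))))) (.nd (nat_lit 2) (.nd (nat_lit 3) (.nd (nat_lit 4) (.nd (nat_lit 5) 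
(.lf (nat_lit 61123) (.g (nat_lit 1241) (.e (nat_lit 1555) (nat_lit 110) (.e (nat_lit 352272) (nat_lit 10) (.e (nat_lit 417811) (nat_lit 6) (.e (nat_lit 286753) (nat_lit 10) (.e (nat_lit 344173) (nat_lit 42) (.e (nat_lit 761869) (nat_lit 5) .nil)))))) (.g (nat_lit 5) .nil .nil))) 
(.lf (nat_lit 61155) (.g (nat_lit 2427) (.e (nat_lit 1555) (nat_lit 110) (.e (nat_lit 352277) (nat_lit 11) (.e (nat_lit 426344) (nat_lit 14) (.e (nat_lit 491560) (nat_lit 10) (.e (nat_lit 344173) (nat_lit 42) (.e (nat_lit 761866) (nat_lit 5) .nil)))))) (.g (nat_lit 0) .nil .nil)))) (.nd (nat_lit 5) 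
(.lf (nat_lit 61139) (.g (nat_lit 2633) (.e (nat_lit 1555) (nat_lit 110) (.e (nat_lit 352277) (nat_lit 11) (.e (nat_lit 426011) (nat_lit 0) (.e (nat_lit 7593) (nat_lit 407) (.e (nat_lit 73772) (nat_lit 24) (.e (nat_lit 761868) (nat_lit 5) .nil)))))) (.g (nat_lit 0) .nil .nil))) 
(.lf (nat_lit 61171) (.g (nat_lit 440) (.e (nat_lit 1555) (nat_lit 110) (.e (nat_lit 352318) (nat_lit 24) (.e (nat_lit 123184) (nat_lit 264) .nil))) .nil)))) (.nd (nat_lit 4) (.nd (nat_lit 5) 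
(.lf (nat_lit 61131) (.g (nat_lit 1583) (.e (nat_lit 1555) (nat_lit 110) (.e (nat_lit 352277) (nat_lit 11) (.e (nat_lit 426009) (nat_lit 0) (.e (nat_lit 7593) (nat_lit 407) (.e (nat_lit 73772) (nat_lit 24) (.e (nat_lit 761868) (nat_lit 5) .nil)))))) (.g (nat_lit 0) .nil .nil))) 
(.lf (nat_lit 61163) (.g (nat_lit 1454) (.e (nat_lit 1555) (nat_lit 110) (.e (nat_lit 360192) (nat_lit 18) (.e (nat_lit 483368) (nat_lit 19) (.e (nat_lit 123194) (nat_lit 266) (.e (nat_lit 57371) (nat_lit 2) (.e (nat_lit 98048) (nat_lit 0) .nil)))))) (.g (nat_lit 5) .nil .nil)))) (.nd (nat_lit 5) 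
(.lf (nat_lit 61147) (.g (nat_lit 2947) (.e (nat_lit 1555) (nat_lit 110) (.e (nat_lit 352277) (nat_lit 11) (.e (nat_lit 426343) (nat_lit 14) (.e (nat_lit 491558) (nat_lit 10) (.e (nat_lit 344174) (nat_lit 42) (.e (nat_lit 761866) (nat_lit 5) .nil)))))) (.g (nat_lit 0) .nil .nil))) 
(.lf (nat_lit 61179) (.g (nat_lit 730) (.e (nat_lit 1556) (nat_lit 110) (.e (nat_lit 352315) (nat_lit 23) (.e (nat_lit 98354) (nat_lit 26) .nil))) .nil))))) (.nd (nat_lit 3) (.nd (nat_lit 4) (.nd (nat_lit 5) 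
(.lf (nat_lit 61127) (.g (nat_lit 1868) (.e (nat_lit 1555) (nat_lit 110) (.e (nat_lit 352272) (nat_lit 10) (.e (nat_lit 417811) (nat_lit 6) (.e (nat_lit 286755) (nat_lit 10) (.e (nat_lit 344174) (nat_lit 42) (.e (nat_lit 761866) (nat_lit 5) .nil)))))) (.g (nat_lit 0) .nil .nil))) 
(.lf (nat_lit 61159) (.g (nat_lit 991) (.e (nat_lit 1555) (nat_lit 110) (.e (nat_lit 360192) (nat_lit 16) (.e (nat_lit 466969) (nat_lit 21) (.e (nat_lit 164332) (nat_lit 230) (.e (nat_lit 163862) (nat_lit 1) (.e (nat_lit 164222) (nat_lit 181) (.e (nat_lit 1079) (nat_lit 81) .nil))))))) (.g (nat_lit 4) .nil .nil)))) (.nd (nat_lit 5) 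
(.lf (nat_lit 61143) (.g (nat_lit 2193) (.e (nat_lit 1555) (nat_lit 110) (.e (nat_lit 352277) (nat_lit 11) (.e (nat_lit 426012) (nat_lit 0) (.e (nat_lit 7593) (nat_lit 407) (.e (nat_lit 73772) (nat_lit 24) (.e (nat_lit 761868) (nat_lit 5) .nil)))))) (.g (nat_lit 0) .nil .nil))) 
(.lf (nat_lit 61175) (.g (nat_lit 1721) (.e (nat_lit 1556) (nat_lit 110) (.e (nat_lit 352309) (nat_lit 21) (.e (nat_lit 57684) (nat_lit 155) (.e (nat_lit 122916) (nat_lit 14) .nil)))) .nil)))) (.nd (nat_lit 4) (.nd (nat_lit 5) 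
(.lf (nat_lit 61135) (.g (nat_lit 1734) (.e (nat_lit 1555) (nat_lit 110) (.e (nat_lit 352277) (nat_lit 11) (.e (nat_lit 426010) (nat_lit 0) (.e (nat_lit 7593) (nat_lit 407) (.e (nat_lit 73772) (nat_lit 24) (.e (nat_lit 761868) (nat_lit 5) .nil)))))) (.g (nat_lit 0) .nil .nil))) 
(.lf (nat_lit 61167) (.g (nat_lit 1450) (.e (nat_lit 1555) (nat_lit 110) (.e (nat_lit 352309) (nat_lit 21) (.e (nat_lit 57872) (nat_lit 264) (.e (nat_lit 1219) (nat_lit 90) .nil)))) .nil))) (.nd (nat_lit 5) 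
(.lf (nat_lit 61151) (.g (nat_lit 3032) (.e (nat_lit 1555) (nat_lit 110) (.e (nat_lit 352277) (nat_lit 11) (.e (nat_lit 426343) (nat_lit 14) (.e (nat_lit 491560) (nat_lit 10) (.e (nat_lit 344174) (nat_lit 42) (.e (nat_lit 761866) (nat_lit 5) .nil)))))) (.g (nat_lit 6) .nil .nil))) 
(.lf (nat_lit 61183) (.g (nat_lit 279) (.e (nat_lit 1557) (nat_lit 110) (.e (nat_lit 352302) (nat_lit 20) (.e (nat_lit 2006) (nat_lit 138) .nil))) .nil))))))))

noncomputable def tv838 : DT := (.nd (nat_lit 0) (.nd (nat_lit 1) (.nd (nat_lit 2) (.nd (nat_lit 3) (.nd (nat_lit 4) (.nd (nat_lit 5) 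
(.lf (nat_lit 61184) (.g (nat_lit 749) (.e (nat_lit 1557) (nat_lit 110) (.e (nat_lit 352309) (nat_lit 21) (.e (nat_lit 57872) (nat_lit 264) .nil))) .nil)) 
(.lf (nat_lit 61216) (.g (nat_lit 1304) (.e (nat_lit 1558) (nat_lit 110) (.e (nat_lit 352272) (nat_lit 10) (.e (nat_lit 417796) (nat_lit 0) (.e (nat_lit 5410) (nat_lit 303) (.e (nat_lit 73772) (nat_lit 24) (.e (nat_lit 761869) (nat_lit 5) .nil)))))) (.g (nat_lit 0) .nil .nil)))) (.nd (nat_lit 5) 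
(.lf (nat_lit 61200) (.g (nat_lit 797) (.e (nat_lit 1558) (nat_lit 110) (.e (nat_lit 352269) (nat_lit 7) (.e (nat_lit 245777) (nat_lit 5) (.e (nat_lit 180288) (nat_lit 45) (.e (nat_lit 2580) (nat_lit 161) (.e (nat_lit 40965) (nat_lit 0) .nil)))))) (.g (nat_lit 0) .nil .nil))) 
(.lf (nat_lit 61232) (.g (nat_lit 1247) (.e (nat_lit 1558) (nat_lit 110) (.e (nat_lit 352277) (nat_lit 11) (.e (nat_lit 426342) (nat_lit 14) (.e (nat_lit 491558) (nat_lit 10) (.e (nat_lit 344174) (nat_lit 42) .nil))))) .nil)))) (.nd (nat_lit 4) (.nd (nat_lit 5) 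
(.lf (nat_lit 61192) (.g (nat_lit 1397) (.e (nat_lit 1558) (nat_lit 110) (.e (nat_lit 352262) (nat_lit 0) (.e (nat_lit 3748) (nat_lit 228) (.e (nat_lit 786478) (nat_lit 29) .nil)))) .nil)) 
(.lf (nat_lit 61224) (.g (nat_lit 1744) (.e (nat_lit 1558) (nat_lit 110) (.e (nat_lit 352273) (nat_lit 11) (.e (nat_lit 426011) (nat_lit 0) (.e (nat_lit 7591) (nat_lit 407) (.e (nat_lit 73772) (nat_lit 24) .nil))))) .nil))) (.nd (nat_lit 5) 
(.lf (nat_lit 61208) (.g (nat_lit 1547) (.e (nat_lit 1558) (nat_lit 110) (.e (nat_lit 352272) (nat_lit 10) (.e (nat_lit 417795) (nat_lit 0) (.e (nat_lit 5409) (nat_lit 303) (.e (nat_lit 73772) (nat_lit 24) (.e (nat_lit 761869) (nat_lit 5) .nil)))))) (.g (nat_lit 0) .nil .nil))) 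
(.lf (nat_lit 61240) (.g (nat_lit 521) (.e (nat_lit 1558) (nat_lit 110) (.e (nat_lit 352279) (nat_lit 19) (.e (nat_lit 491585) (nat_lit 29) (.e (nat_lit 442395) (nat_lit 20) (.e (nat_lit 3282) (nat_lit 200) (.e (nat_lit 557061) (nat_lit 0) .nil)))))) (.g (nat_lit 0) .nil .nil)))))) (.nd (nat_lit 3) (.nd (nat_lit 4) (.nd (nat_lit 5) 
(.lf (nat_lit 61188) (.g (nat_lit 1502) (.e (nat_lit 1557) (nat_lit 110) (.e (nat_lit 352309) (nat_lit 21) (.e (nat_lit 57872) (nat_lit 264) (.e (nat_lit 1219) (nat_lit 90) .nil)))) .nil)) 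
(.lf (nat_lit 61220) (.g (nat_lit 1637) (.e (nat_lit 1558) (nat_lit 110) (.e (nat_lit 352272) (nat_lit 10) (.e (nat_lit 417811) (nat_lit 6) (.e (nat_lit 286753) (nat_lit 10) (.e (nat_lit 344174) (nat_lit 42) (.e (nat_lit 761868) (nat_lit 5) .nil)))))) (.g (nat_lit 6) .nil .nil)))) (.nd (nat_lit 5) 
(.lf (nat_lit 61204) (.g (nat_lit 1159) (.e (nat_lit 1558) (nat_lit 110) (.e (nat_lit 352272) (nat_lit 10) (.e (nat_lit 417793) (nat_lit 0) (.e (nat_lit 5412) (nat_lit 303) (.e (nat_lit 73772) (nat_lit 24) (.e (nat_lit 761869) (nat_lit 5) .nil)))))) (.g (nat_lit 6) .nil .nil))) 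
(.lf (nat_lit 61236) (.g (nat_lit 1744) (.e (nat_lit 1558) (nat_lit 110) (.e (nat_lit 352277) (nat_lit 11) (.e (nat_lit 426344) (nat_lit 14) (.e (nat_lit 491558) (nat_lit 10) (.e (nat_lit 344174) (nat_lit 42) .nil))))) .nil)))) (.nd (nat_lit 4) (.nd (nat_lit 5) 
(.lf (nat_lit 61196) (.g (nat_lit 852) (.e (nat_lit 1558) (nat_lit 110) (.e (nat_lit 352269) (nat_lit 7) (.e (nat_lit 245777) (nat_lit 5) (.e (nat_lit 180285) (nat_lit 45) (.e (nat_lit 2580) (nat_lit 161) (.e (nat_lit 40965) (nat_lit 0) .nil)))))) (.g (nat_lit 0) .nil .nil))) 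
(.lf (nat_lit 61228) (.g (nat_lit 807) (.e (nat_lit 1558) (nat_lit 110) (.e (nat_lit 352277) (nat_lit 11) (.e (nat_lit 426010) (nat_lit 0) (.e (nat_lit 7593) (nat_lit 407) .nil)))) .nil))) (.nd (nat_lit 5) 
(.lf (nat_lit 61212) (.g (nat_lit 1147) (.e (nat_lit 1558) (nat_lit 110) (.e (nat_lit 352272) (nat_lit 10) (.e (nat_lit 417795) (nat_lit 0) (.e (nat_lit 5413) (nat_lit 303) (.e (nat_lit 73772) (nat_lit 24) (.e (nat_lit 761869) (nat_lit 5) .nil)))))) (.g (nat_lit 0) .nil .nil))) 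
(.lf (nat_lit 61244) (.g (nat_lit 504) (.e (nat_lit 1558) (nat_lit 110) (.e (nat_lit 352279) (nat_lit 19) (.e (nat_lit 491585) (nat_lit 29) (.e (nat_lit 442399) (nat_lit 20) (.e (nat_lit 3282) (nat_lit 200) (.e (nat_lit 557061) (nat_lit 0) .nil)))))) (.g (nat_lit 0) .nil .nil))))))) (.nd (nat_lit 2) (.nd (nat_lit 3) (.nd (nat_lit 4) (.nd (nat_lit 5) 
(.lf (nat_lit 61186) (.g (nat_lit 1820) (.e (nat_lit 1557) (nat_lit 110) (.e (nat_lit 352309) (nat_lit 21) (.e (nat_lit 57872) (nat_lit 264) (.e (nat_lit 1199) (nat_lit 88) (.e (nat_lit 65624) (nat_lit 12) .nil))))) .nil)) 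
(.lf (nat_lit 61218) (.g (nat_lit 1280) (.e (nat_lit 1558) (nat_lit 110) (.e (nat_lit 352272) (nat_lit 10) (.e (nat_lit 417796) (nat_lit 0) (.e (nat_lit 5413) (nat_lit 303) (.e (nat_lit 73772) (nat_lit 24) (.e (nat_lit 761869) (nat_lit 5) .nil)))))) (.g (nat_lit 0) .nil .nil)))) (.nd (nat_lit 5) 
(.lf (nat_lit 61202) (.g (nat_lit 109) (.e (nat_lit 1558) (nat_lit 110) (.e (nat_lit 352270) (nat_lit 8) (.e (nat_lit 262148) (nat_lit 0) (.e (nat_lit 1568) (nat_lit 110) .nil)))) .nil)) 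
(.lf (nat_lit 61234) (.g (nat_lit 1853) (.e (nat_lit 1558) (nat_lit 110) (.e (nat_lit 352277) (nat_lit 11) (.e (nat_lit 426343) (nat_lit 14) (.e (nat_lit 491558) (nat_lit 10) (.e (nat_lit 344174) (nat_lit 42) .nil))))) .nil)))) (.nd (nat_lit 4) (.nd (nat_lit 5) 
(.lf (nat_lit 61194) (.g (nat_lit 1363) (.e (nat_lit 1558) (nat_lit 110) (.e (nat_lit 352269) (nat_lit 7) (.e (nat_lit 245776) (nat_lit 4) (.e (nat_lit 172079) (nat_lit 7) (.e (nat_lit 409634) (nat_lit 13) (.e (nat_lit 40965) (nat_lit 0) .nil)))))) (.g (nat_lit 0) .nil .nil))) 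
(.lf (nat_lit 61226) (.g (nat_lit 1938) (.e (nat_lit 1558) (nat_lit 110) (.e (nat_lit 352273) (nat_lit 11) (.e (nat_lit 426343) (nat_lit 14) (.e (nat_lit 491560) (nat_lit 10) (.e (nat_lit 344174) (nat_lit 42) (.e (nat_lit 761869) (nat_lit 5) .nil)))))) (.g (nat_lit 4) .nil .nil)))) (.nd (nat_lit 5) 
(.lf (nat_lit 61210) (.g (nat_lit 1162) (.e (nat_lit 1558) (nat_lit 110) (.e (nat_lit 352272) (nat_lit 10) (.e (nat_lit 417795) (nat_lit 0) (.e (nat_lit 5410) (nat_lit 303) (.e (nat_lit 73772) (nat_lit 24) (.e (nat_lit 761869) (nat_lit 5) .nil)))))) (.g (nat_lit 0) .nil .nil))) 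
(.lf (nat_lit 61242) (.g (nat_lit 396) (.e (nat_lit 1558) (nat_lit 110) (.e (nat_lit 352279) (nat_lit 19) (.e (nat_lit 491585) (nat_lit 29) (.e (nat_lit 442398) (nat_lit 20) (.e (nat_lit 3282) (nat_lit 200) (.e (nat_lit 557060) (nat_lit 0) .nil)))))) (.g (nat_lit 6) .nil .nil)))))) (.nd (nat_lit 3) (.nd (nat_lit 4) (.nd (nat_lit 5) 
(.lf (nat_lit 61190) (.g (nat_lit 1552) (.e (nat_lit 1557) (nat_lit 110) (.e (nat_lit 352309) (nat_lit 21) (.e (nat_lit 57872) (nat_lit 264) (.e (nat_lit 1221) (nat_lit 90) .nil)))) .nil)) 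
(.lf (nat_lit 61222) (.g (nat_lit 1429) (.e (nat_lit 1558) (nat_lit 110) (.e (nat_lit 352272) (nat_lit 10) (.e (nat_lit 417811) (nat_lit 6) (.e (nat_lit 286755) (nat_lit 10) (.e (nat_lit 344174) (nat_lit 42) (.e (nat_lit 761868) (nat_lit 5) .nil)))))) (.g (nat_lit 6) .nil .nil)))) (.nd (nat_lit 5) 
(.lf (nat_lit 61206) (.g (nat_lit 1141) (.e (nat_lit 1558) (nat_lit 110) (.e (nat_lit 352272) (nat_lit 10) (.e (nat_lit 417794) (nat_lit 0) (.e (nat_lit 5412) (nat_lit 303) (.e (nat_lit 73772) (nat_lit 24) (.e (nat_lit 761869) (nat_lit 5) .nil)))))) (.g (nat_lit 6) .nil .nil))) 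
(.lf (nat_lit 61238) (.g (nat_lit 1724) (.e (nat_lit 1558) (nat_lit 110) (.e (nat_lit 352277) (nat_lit 11) (.e (nat_lit 426344) (nat_lit 14) (.e (nat_lit 491560) (nat_lit 10) (.e (nat_lit 344174) (nat_lit 42) .nil))))) .nil)))) (.nd (nat_lit 4) (.nd (nat_lit 5) 
(.lf (nat_lit 61198) (.g (nat_lit 847) (.e (nat_lit 1558) (nat_lit 110) (.e (nat_lit 352269) (nat_lit 7) (.e (nat_lit 245777) (nat_lit 5) (.e (nat_lit 180288) (nat_lit 45) (.e (nat_lit 2579) (nat_lit 161) (.e (nat_lit 40965) (nat_lit 0) .nil)))))) (.g (nat_lit 0) .nil .nil))) 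
(.lf (nat_lit 61230) (.g (nat_lit 1993) (.e (nat_lit 1558) (nat_lit 110) (.e (nat_lit 352277) (nat_lit 11) (.e (nat_lit 426011) (nat_lit 0) (.e (nat_lit 7593) (nat_lit 407) (.e (nat_lit 73772) (nat_lit 24) .nil))))) .nil))) (.nd (nat_lit 5) 
(.lf (nat_lit 61214) (.g (nat_lit 1863) (.e (nat_lit 1558) (nat_lit 110) (.e (nat_lit 352272) (nat_lit 10) (.e (nat_lit 417796) (nat_lit 0) (.e (nat_lit 5409) (nat_lit 303) (.e (nat_lit 73772) (nat_lit 24) (.e (nat_lit 761869) (nat_lit 5) .nil)))))) (.g (nat_lit 0) .nil .nil))) 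
(.lf (nat_lit 61246) (.g (nat_lit 883) (.e (nat_lit 1558) (nat_lit 110) (.e (nat_lit 352309) (nat_lit 21) (.e (nat_lit 57655) (nat_lit 152) .nil))) .nil))))))) (.nd (nat_lit 1) (.nd (nat_lit 2) (.nd (nat_lit 3) (.nd (nat_lit 4) (.nd (nat_lit 5) 
(.lf (nat_lit 61185) (.g (nat_lit 1478) (.e (nat_lit 1557) (nat_lit 110) (.e (nat_lit 352309) (nat_lit 21) (.e (nat_lit 57872) (nat_lit 264) (.e (nat_lit 1190) (nat_lit 88) .nil)))) .nil)) 
(.lf (nat_lit 61217) (.g (nat_lit 1271) (.e (nat_lit 1558) (nat_lit 110) (.e (nat_lit 352272) (nat_lit 10) (.e (nat_lit 417796) (nat_lit 0) (.e (nat_lit 5412) (nat_lit 303) (.e (nat_lit 73772) (nat_lit 24) (.e (nat_lit 761868) (nat_lit 5) .nil)))))) (.g (nat_lit 0) .nil .nil)))) (.nd (nat_lit 5) 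
(.lf (nat_lit 61201) (.g (nat_lit 375) (.e (nat_lit 1558) (nat_lit 110) (.e (nat_lit 360192) (nat_lit 7) (.e (nat_lit 245777) (nat_lit 5) (.e (nat_lit 180285) (nat_lit 45) (.e (nat_lit 2580) (nat_lit 161) (.e (nat_lit 40964) (nat_lit 0) .nil)))))) (.g (nat_lit 4) .nil .nil))) 
(.lf (nat_lit 61233) (.g (nat_lit 1532) (.e (nat_lit 1558) (nat_lit 110) (.e (nat_lit 352277) (nat_lit 11) (.e (nat_lit 426342) (nat_lit 14) (.e (nat_lit 491560) (nat_lit 10) (.e (nat_lit 344174) (nat_lit 42) .nil))))) .nil)))) (.nd (nat_lit 4) (.nd (nat_lit 5) 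
(.lf (nat_lit 61193) (.g (nat_lit 1126) (.e (nat_lit 1558) (nat_lit 110) (.e (nat_lit 352269) (nat_lit 7) (.e (nat_lit 245776) (nat_lit 4) (.e (nat_lit 172079) (nat_lit 7) (.e (nat_lit 409634) (nat_lit 13) (.e (nat_lit 40962) (nat_lit 0) .nil)))))) (.g (nat_lit 6) .nil .nil))) 
(.lf (nat_lit 61225) (.g (nat_lit 1834) (.e (nat_lit 1558) (nat_lit 110) (.e (nat_lit 352273) (nat_lit 11) (.e (nat_lit 426343) (nat_lit 14) (.e (nat_lit 491560) (nat_lit 10) (.e (nat_lit 344174) (nat_lit 42) .nil))))) .nil))) (.nd (nat_lit 5) 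
(.lf (nat_lit 61209) (.g (nat_lit 949) (.e (nat_lit 1558) (nat_lit 110) (.e (nat_lit 352272) (nat_lit 10) (.e (nat_lit 417795) (nat_lit 0) (.e (nat_lit 5410) (nat_lit 303) (.e (nat_lit 73772) (nat_lit 24) (.e (nat_lit 761868) (nat_lit 5) .nil)))))) (.g (nat_lit 6) .nil .nil))) 
(.lf (nat_lit 61241) (.g (nat_lit 422) (.e (nat_lit 1558) (nat_lit 110) (.e (nat_lit 352279) (nat_lit 19) (.e (nat_lit 491585) (nat_lit 29) (.e (nat_lit 442396) (nat_lit 20) (.e (nat_lit 3282) (nat_lit 200) (.e (nat_lit 557061) (nat_lit 0) .nil)))))) (.g (nat_lit 0) .nil .nil)))))) (.nd (nat_lit 3) (.nd (nat_lit 4) (.nd (nat_lit 5) 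
(.lf (nat_lit 61189) (.g (nat_lit 2231) (.e (nat_lit 1557) (nat_lit 110) (.e (nat_lit 352309) (nat_lit 21) (.e (nat_lit 57872) (nat_lit 264) (.e (nat_lit 1219) (nat_lit 90) (.e (nat_lit 81924) (nat_lit 0) .nil))))) .nil)) 
(.lf (nat_lit 61221) (.g (nat_lit 1643) (.e (nat_lit 1558) (nat_lit 110) (.e (nat_lit 352272) (nat_lit 10) (.e (nat_lit 417811) (nat_lit 6) (.e (nat_lit 286754) (nat_lit 10) (.e (nat_lit 344174) (nat_lit 42) (.e (nat_lit 761868) (nat_lit 5) .nil)))))) (.g (nat_lit 6) .nil .nil)))) (.nd (nat_lit 5) 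
(.lf (nat_lit 61205) (.g (nat_lit 950) (.e (nat_lit 1558) (nat_lit 110) (.e (nat_lit 352272) (nat_lit 10) (.e (nat_lit 417794) (nat_lit 0) (.e (nat_lit 5412) (nat_lit 303) (.e (nat_lit 73772) (nat_lit 24) (.e (nat_lit 761868) (nat_lit 5) .nil)))))) (.g (nat_lit 6) .nil .nil))) 
(.lf (nat_lit 61237) (.g (nat_lit 1937) (.e (nat_lit 1558) (nat_lit 110) (.e (nat_lit 352277) (nat_lit 11) (.e (nat_lit 426344) (nat_lit 14) (.e (nat_lit 491560) (nat_lit 10) (.e (nat_lit 344173) (nat_lit 42) .nil))))) .nil)))) (.nd (nat_lit 4) (.nd (nat_lit 5) 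
(.lf (nat_lit 61197) (.g (nat_lit 729) (.e (nat_lit 1558) (nat_lit 110) (.e (nat_lit 352269) (nat_lit 7) (.e (nat_lit 245777) (nat_lit 5) (.e (nat_lit 180287) (nat_lit 45) (.e (nat_lit 2579) (nat_lit 161) (.e (nat_lit 40965) (nat_lit 0) .nil)))))) (.g (nat_lit 0) .nil .nil))) 
(.lf (nat_lit 61229) (.g (nat_lit 1987) (.e (nat_lit 1558) (nat_lit 110) (.e (nat_lit 352277) (nat_lit 11) (.e (nat_lit 426011) (nat_lit 0) (.e (nat_lit 7591) (nat_lit 407) (.e (nat_lit 73772) (nat_lit 24) .nil))))) .nil))) (.nd (nat_lit 5) 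
(.lf (nat_lit 61213) (.g (nat_lit 1640) (.e (nat_lit 1558) (nat_lit 110) (.e (nat_lit 352272) (nat_lit 10) (.e (nat_lit 417796) (nat_lit 0) (.e (nat_lit 5409) (nat_lit 303) (.e (nat_lit 73772) (nat_lit 24) (.e (nat_lit 761868) (nat_lit 5) .nil)))))) (.g (nat_lit 0) .nil .nil))) 
(.lf (nat_lit 61245) (.g (nat_lit 842) (.e (nat_lit 1558) (nat_lit 110) (.e (nat_lit 352309) (nat_lit 21) (.e (nat_lit 57654) (nat_lit 152) .nil))) .nil)))))) (.nd (nat_lit 2) (.nd (nat_lit 3) (.nd (nat_lit 4) (.nd (nat_lit 5) 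
(.lf (nat_lit 61187) (.g (nat_lit 1890) (.e (nat_lit 1557) (nat_lit 110) (.e (nat_lit 352309) (nat_lit 21) (.e (nat_lit 57872) (nat_lit 264) (.e (nat_lit 1200) (nat_lit 88) (.e (nat_lit 65624) (nat_lit 12) .nil))))) .nil)) 
(.lf (nat_lit 61219) (.g (nat_lit 910) (.e (nat_lit 1558) (nat_lit 110) (.e (nat_lit 352272) (nat_lit 10) (.e (nat_lit 417811) (nat_lit 6) (.e (nat_lit 286753) (nat_lit 10) (.e (nat_lit 344173) (nat_lit 42) .nil))))) .nil))) (.nd (nat_lit 5) 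
(.lf (nat_lit 61203) (.g (nat_lit 955) (.e (nat_lit 1558) (nat_lit 110) (.e (nat_lit 352272) (nat_lit 10) (.e (nat_lit 417793) (nat_lit 0) (.e (nat_lit 5412) (nat_lit 303) (.e (nat_lit 73772) (nat_lit 24) (.e (nat_lit 761868) (nat_lit 5) .nil)))))) (.g (nat_lit 6) .nil .nil))) 
(.lf (nat_lit 61235) (.g (nat_lit 1938) (.e (nat_lit 1558) (nat_lit 110) (.e (nat_lit 352277) (nat_lit 11) (.e (nat_lit 426343) (nat_lit 14) (.e (nat_lit 491560) (nat_lit 10) (.e (nat_lit 344174) (nat_lit 42) .nil))))) .nil)))) (.nd (nat_lit 4) (.nd (nat_lit 5) 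
(.lf (nat_lit 61195) (.g (nat_lit 789) (.e (nat_lit 1558) (nat_lit 110) (.e (nat_lit 352269) (nat_lit 7) (.e (nat_lit 245777) (nat_lit 5) (.e (nat_lit 180285) (nat_lit 45) (.e (nat_lit 2580) (nat_lit 161) (.e (nat_lit 40964) (nat_lit 0) .nil)))))) (.g (nat_lit 0) .nil .nil))) 
(.lf (nat_lit 61227) (.g (nat_lit 825) (.e (nat_lit 1558) (nat_lit 110) (.e (nat_lit 352277) (nat_lit 11) (.e (nat_lit 426010) (nat_lit 0) (.e (nat_lit 7591) (nat_lit 407) .nil)))) .nil))) (.nd (nat_lit 5) 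
(.lf (nat_lit 61211) (.g (nat_lit 1340) (.e (nat_lit 1558) (nat_lit 110) (.e (nat_lit 352272) (nat_lit 10) (.e (nat_lit 417795) (nat_lit 0) (.e (nat_lit 5412) (nat_lit 303) (.e (nat_lit 73772) (nat_lit 24) (.e (nat_lit 761868) (nat_lit 5) .nil)))))) (.g (nat_lit 0) .nil .nil))) 
(.lf (nat_lit 61243) (.g (nat_lit 387) (.e (nat_lit 1558) (nat_lit 110) (.e (nat_lit 352279) (nat_lit 19) (.e (nat_lit 491585) (nat_lit 29) (.e (nat_lit 442398) (nat_lit 20) (.e (nat_lit 3282) (nat_lit 200) (.e (nat_lit 557061) (nat_lit 0) .nil)))))) (.g (nat_lit 0) .nil .nil)))))) (.nd (nat_lit 3) (.nd (nat_lit 4) (.nd (nat_lit 5) 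
(.lf (nat_lit 61191) (.g (nat_lit 2029) (.e (nat_lit 1557) (nat_lit 110) (.e (nat_lit 352309) (nat_lit 21) (.e (nat_lit 57873) (nat_lit 264) (.e (nat_lit 1190) (nat_lit 88) .nil)))) .nil)) 
(.lf (nat_lit 61223) (.g (nat_lit 1856) (.e (nat_lit 1558) (nat_lit 110) (.e (nat_lit 352272) (nat_lit 10) (.e (nat_lit 417811) (nat_lit 6) (.e (nat_lit 286756) (nat_lit 10) (.e (nat_lit 344174) (nat_lit 42) (.e (nat_lit 761868) (nat_lit 5) .nil)))))) (.g (nat_lit 6) .nil .nil)))) (.nd (nat_lit 5) 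
(.lf (nat_lit 61207) (.g (nat_lit 1324) (.e (nat_lit 1558) (nat_lit 110) (.e (nat_lit 352272) (nat_lit 10) (.e (nat_lit 417795) (nat_lit 0) (.e (nat_lit 5409) (nat_lit 303) (.e (nat_lit 73772) (nat_lit 24) (.e (nat_lit 761868) (nat_lit 5) .nil)))))) (.g (nat_lit 0) .nil .nil))) 
(.lf (nat_lit 61239) (.g (nat_lit 1216) (.e (nat_lit 1558) (nat_lit 110) (.e (nat_lit 352278) (nat_lit 11) (.e (nat_lit 426342) (nat_lit 14) (.e (nat_lit 491560) (nat_lit 10) (.e (nat_lit 344174) (nat_lit 42) .nil))))) .nil)))) (.nd (nat_lit 4) (.nd (nat_lit 5) 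
(.lf (nat_lit 61199) (.g (nat_lit 737) (.e (nat_lit 1558) (nat_lit 110) (.e (nat_lit 352269) (nat_lit 7) (.e (nat_lit 245777) (nat_lit 5) (.e (nat_lit 180288) (nat_lit 45) (.e (nat_lit 2580) (nat_lit 161) (.e (nat_lit 40964) (nat_lit 0) .nil)))))) (.g (nat_lit 0) .nil .nil))) 
(.lf (nat_lit 61231) (.g (nat_lit 1634) (.e (nat_lit 1558) (nat_lit 110) (.e (nat_lit 352277) (nat_lit 11) (.e (nat_lit 426012) (nat_lit 0) (.e (nat_lit 7593) (nat_lit 407) (.e (nat_lit 73772) (nat_lit 24) .nil))))) .nil))) (.nd (nat_lit 5) 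
(.lf (nat_lit 61215) (.g (nat_lit 1091) (.e (nat_lit 1558) (nat_lit 110) (.e (nat_lit 352272) (nat_lit 10) (.e (nat_lit 417796) (nat_lit 0) (.e (nat_lit 5410) (nat_lit 303) (.e (nat_lit 73772) (nat_lit 24) (.e (nat_lit 761868) (nat_lit 5) .nil)))))) (.g (nat_lit 6) .nil .nil))) 
(.lf (nat_lit 61247) (.g (nat_lit 2072) (.e (nat_lit 1558) (nat_lit 110) (.e (nat_lit 352309) (nat_lit 21) (.e (nat_lit 57655) (nat_lit 152) (.e (nat_lit 1216) (nat_lit 90) (.e (nat_lit 81938) (nat_lit 20) .nil))))) .nil))))))))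

noncomputable def tv839 : DT := (.nd (nat_lit 0) (.nd (nat_lit 1) (.nd (nat_lit 2) (.nd (nat_lit 3) (.nd (nat_lit 4) (.nd (nat_lit 5) 
(.lf (nat_lit 61248) (.g (nat_lit 2080) (.e (nat_lit 1558) (nat_lit 110) (.e (nat_lit 352309) (nat_lit 21) (.e (nat_lit 57655) (nat_lit 152) (.e (nat_lit 1217) (nat_lit 90) (.e (nat_lit 81946) (nat_lit 20) .nil))))) .nil)) 
(.lf (nat_lit 61280) (.g (nat_lit 2049) (.e (nat_lit 1558) (nat_lit 110) (.e (nat_lit 352318) (nat_lit 24) (.e (nat_lit 123197) (nat_lit 266) (.e (nat_lit 57423) (nat_lit 14) (.e (nat_lit 352270) (nat_lit 8) (.e (nat_lit 262148) (nat_lit 0) .nil)))))) (.g (nat_lit 5) .nil .nil)))) (.nd (nat_lit 5) 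
(.lf (nat_lit 61264) (.g (nat_lit 1916) (.e (nat_lit 1558) (nat_lit 110) (.e (nat_lit 352309) (nat_lit 21) (.e (nat_lit 57872) (nat_lit 264) (.e (nat_lit 1221) (nat_lit 90) (.e (nat_lit 89856) (nat_lit 4) .nil))))) .nil)) 
(.lf (nat_lit 61296) (.g (nat_lit 1113) (.e (nat_lit 1559) (nat_lit 110) (.e (nat_lit 352262) (nat_lit 0) (.e (nat_lit 3632) (nat_lit 227) (.e (nat_lit 778326) (nat_lit 6) .nil)))) .nil)))) (.nd (nat_lit 4) (.nd (nat_lit 5) 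
(.lf (nat_lit 61256) (.g (nat_lit 2611) (.e (nat_lit 1558) (nat_lit 110) (.e (nat_lit 352309) (nat_lit 21) (.e (nat_lit 57684) (nat_lit 155) (.e (nat_lit 122916) (nat_lit 14) (.e (nat_lit 352302) (nat_lit 20) .nil))))) .nil)) 
(.lf (nat_lit 61288) (.g (nat_lit 2048) (.e (nat_lit 1558) (nat_lit 110) (.e (nat_lit 352324) (nat_lit 26) (.e (nat_lit 147496) (nat_lit 11) (.e (nat_lit 24640) (nat_lit 10) (.e (nat_lit 344174) (nat_lit 42) .nil))))) .nil))) (.nd (nat_lit 5) 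
(.lf (nat_lit 61272) (.g (nat_lit 1652) (.e (nat_lit 1558) (nat_lit 110) (.e (nat_lit 352315) (nat_lit 23) (.e (nat_lit 98367) (nat_lit 27) (.e (nat_lit 434268) (nat_lit 36) .nil)))) .nil)) 
(.lf (nat_lit 61304) (.g (nat_lit 2833) (.e (nat_lit 1559) (nat_lit 110) (.e (nat_lit 352262) (nat_lit 0) (.e (nat_lit 3632) (nat_lit 227) (.e (nat_lit 778327) (nat_lit 6) (.e (nat_lit 81946) (nat_lit 20) (.e (nat_lit 2005) (nat_lit 138) (.e (nat_lit 671748) (nat_lit 0) .nil))))))) (.g (nat_lit 0) .nil .nil)))))) (.nd (nat_lit 3) (.nd (nat_lit 4) (.nd (nat_lit 5) 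
(.lf (nat_lit 61252) (.g (nat_lit 1675) (.e (nat_lit 1558) (nat_lit 110) (.e (nat_lit 352309) (nat_lit 21) (.e (nat_lit 57683) (nat_lit 155) (.e (nat_lit 122917) (nat_lit 15) .nil)))) .nil)) 
(.lf (nat_lit 61284) (.g (nat_lit 1494) (.e (nat_lit 1558) (nat_lit 110) (.e (nat_lit 352324) (nat_lit 26) (.e (nat_lit 147466) (nat_lit 9) (.e (nat_lit 321) (nat_lit 24) .nil)))) .nil))) (.nd (nat_lit 5) 
(.lf (nat_lit 61268) (.g (nat_lit 685) (.e (nat_lit 1558) (nat_lit 110) (.e (nat_lit 352315) (nat_lit 23) (.e (nat_lit 98309) (nat_lit 0) .nil))) .nil)) 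
(.lf (nat_lit 61300) (.g (nat_lit 2489) (.e (nat_lit 1559) (nat_lit 110) (.e (nat_lit 352262) (nat_lit 0) (.e (nat_lit 3632) (nat_lit 227) (.e (nat_lit 778326) (nat_lit 6) (.e (nat_lit 81939) (nat_lit 20) (.e (nat_lit 2005) (nat_lit 138) (.e (nat_lit 671748) (nat_lit 0) .nil))))))) (.g (nat_lit 7) .nil .nil))))) (.nd (nat_lit 4) (.nd (nat_lit 5) 
(.lf (nat_lit 61260) (.g (nat_lit 616) (.e (nat_lit 1558) (nat_lit 110) (.e (nat_lit 352309) (nat_lit 21) (.e (nat_lit 57870) (nat_lit 264) .nil))) .nil)) 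
(.lf (nat_lit 61292) (.g (nat_lit 2921) (.e (nat_lit 1559) (nat_lit 110) (.e (nat_lit 352262) (nat_lit 0) (.e (nat_lit 3305) (nat_lit 202) (.e (nat_lit 573491) (nat_lit 15) (.e (nat_lit 81947) (nat_lit 20) (.e (nat_lit 1842) (nat_lit 123) (.e (nat_lit 548873) (nat_lit 5) .nil))))))) (.g (nat_lit 6) .nil .nil)))) (.nd (nat_lit 5) 
(.lf (nat_lit 61276) (.g (nat_lit 3267) (.e (nat_lit 1558) (nat_lit 110) (.e (nat_lit 352315) (nat_lit 23) (.e (nat_lit 98367) (nat_lit 27) (.e (nat_lit 434275) (nat_lit 39) (.e (nat_lit 663580) (nat_lit 9) (.e (nat_lit 7936) (nat_lit 2) (.e (nat_lit 90117) (nat_lit 0) .nil))))))) (.g (nat_lit 5) .nil .nil))) 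
(.lf (nat_lit 61308) (.g (nat_lit 2163) (.e (nat_lit 1559) (nat_lit 110) (.e (nat_lit 352269) (nat_lit 7) (.e (nat_lit 245776) (nat_lit 4) (.e (nat_lit 172106) (nat_lit 10) (.e (nat_lit 434295) (nat_lit 49) (.e (nat_lit 745476) (nat_lit 0) .nil)))))) (.g (nat_lit 0) .nil .nil))))))) (.nd (nat_lit 2) (.nd (nat_lit 3) (.nd (nat_lit 4) (.nd (nat_lit 5) 
(.lf (nat_lit 61250) (.g (nat_lit 1755) (.e (nat_lit 1558) (nat_lit 110) (.e (nat_lit 352309) (nat_lit 21) (.e (nat_lit 57683) (nat_lit 155) (.e (nat_lit 122916) (nat_lit 14) .nil)))) .nil)) 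
(.lf (nat_lit 61282) (.g (nat_lit 1359) (.e (nat_lit 1558) (nat_lit 110) (.e (nat_lit 352318) (nat_lit 24) (.e (nat_lit 123198) (nat_lit 266) (.e (nat_lit 57423) (nat_lit 14) (.e (nat_lit 352270) (nat_lit 8) (.e (nat_lit 262148) (nat_lit 0) .nil)))))) (.g (nat_lit 4) .nil .nil)))) (.nd (nat_lit 5) 
(.lf (nat_lit 61266) (.g (nat_lit 1647) (.e (nat_lit 1558) (nat_lit 110) (.e (nat_lit 352309) (nat_lit 21) (.e (nat_lit 57873) (nat_lit 264) (.e (nat_lit 1219) (nat_lit 90) .nil)))) .nil)) 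
(.lf (nat_lit 61298) (.g (nat_lit 2715) (.e (nat_lit 1559) (nat_lit 110) (.e (nat_lit 352262) (nat_lit 0) (.e (nat_lit 3632) (nat_lit 227) (.e (nat_lit 778326) (nat_lit 6) (.e (nat_lit 81938) (nat_lit 20) (.e (nat_lit 2005) (nat_lit 138) (.e (nat_lit 671748) (nat_lit 0) .nil))))))) (.g (nat_lit 0) .nil .nil))))) (.nd (nat_lit 4) (.nd (nat_lit 5) 
(.lf (nat_lit 61258) (.g (nat_lit 2389) (.e (nat_lit 1558) (nat_lit 110) (.e (nat_lit 352309) (nat_lit 21) (.e (nat_lit 57684) (nat_lit 155) (.e (nat_lit 122919) (nat_lit 15) (.e (nat_lit 360488) (nat_lit 20) .nil))))) .nil)) 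
(.lf (nat_lit 61290) (.g (nat_lit 3116) (.e (nat_lit 1559) (nat_lit 110) (.e (nat_lit 352262) (nat_lit 0) (.e (nat_lit 3305) (nat_lit 202) (.e (nat_lit 573479) (nat_lit 13) (.e (nat_lit 65619) (nat_lit 10) (.e (nat_lit 344126) (nat_lit 25) (.e (nat_lit 548874) (nat_lit 5) .nil))))))) (.g (nat_lit 6) .nil .nil)))) (.nd (nat_lit 5) 
(.lf (nat_lit 61274) (.g (nat_lit 2600) (.e (nat_lit 1558) (nat_lit 110) (.e (nat_lit 352315) (nat_lit 23) (.e (nat_lit 98367) (nat_lit 27) (.e (nat_lit 434268) (nat_lit 36) (.e (nat_lit 639007) (nat_lit 13) .nil))))) .nil)) 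
(.lf (nat_lit 61306) (.g (nat_lit 2136) (.e (nat_lit 1559) (nat_lit 110) (.e (nat_lit 352262) (nat_lit 0) (.e (nat_lit 3632) (nat_lit 227) (.e (nat_lit 778327) (nat_lit 6) (.e (nat_lit 81947) (nat_lit 20) (.e (nat_lit 2006) (nat_lit 138) (.e (nat_lit 671748) (nat_lit 0) .nil))))))) (.g (nat_lit 5) .nil .nil)))))) (.nd (nat_lit 3) (.nd (nat_lit 4) (.nd (nat_lit 5) 
(.lf (nat_lit 61254) (.g (nat_lit 1728) (.e (nat_lit 1558) (nat_lit 110) (.e (nat_lit 352309) (nat_lit 21) (.e (nat_lit 57684) (nat_lit 155) (.e (nat_lit 122916) (nat_lit 14) .nil)))) .nil)) 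
(.lf (nat_lit 61286) (.g (nat_lit 1918) (.e (nat_lit 1558) (nat_lit 110) (.e (nat_lit 352324) (nat_lit 26) (.e (nat_lit 147495) (nat_lit 11) (.e (nat_lit 24639) (nat_lit 10) (.e (nat_lit 344174) (nat_lit 42) .nil))))) .nil))) (.nd (nat_lit 5) 
(.lf (nat_lit 61270) (.g (nat_lit 674) (.e (nat_lit 1558) (nat_lit 110) (.e (nat_lit 352315) (nat_lit 23) (.e (nat_lit 106240) (nat_lit 7) .nil))) .nil)) 
(.lf (nat_lit 61302) (.g (nat_lit 1123) (.e (nat_lit 1559) (nat_lit 110) (.e (nat_lit 352262) (nat_lit 0) (.e (nat_lit 3632) (nat_lit 227) (.e (nat_lit 778327) (nat_lit 6) .nil)))) .nil)))) (.nd (nat_lit 4) (.nd (nat_lit 5) 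
(.lf (nat_lit 61262) (.g (nat_lit 1803) (.e (nat_lit 1558) (nat_lit 110) (.e (nat_lit 352309) (nat_lit 21) (.e (nat_lit 57872) (nat_lit 264) (.e (nat_lit 1219) (nat_lit 90) (.e (nat_lit 89856) (nat_lit 4) .nil))))) .nil)) 
(.lf (nat_lit 61294) (.g (nat_lit 1043) (.e (nat_lit 1559) (nat_lit 110) (.e (nat_lit 352262) (nat_lit 0) (.e (nat_lit 3631) (nat_lit 227) (.e (nat_lit 778326) (nat_lit 6) .nil)))) .nil))) (.nd (nat_lit 5) 
(.lf (nat_lit 61278) (.g (nat_lit 1617) (.e (nat_lit 1558) (nat_lit 110) (.e (nat_lit 352318) (nat_lit 24) (.e (nat_lit 123182) (nat_lit 264) (.e (nat_lit 1224) (nat_lit 90) .nil)))) .nil)) 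
(.lf (nat_lit 61310) (.g (nat_lit 1443) (.e (nat_lit 1559) (nat_lit 110) (.e (nat_lit 352269) (nat_lit 7) (.e (nat_lit 245778) (nat_lit 6) (.e (nat_lit 188439) (nat_lit 20) (.e (nat_lit 3579) (nat_lit 223) (.e (nat_lit 745475) (nat_lit 0) .nil)))))) (.g (nat_lit 0) .nil .nil)))))))) (.nd (nat_lit 1) (.nd (nat_lit 2) (.nd (nat_lit 3) (.nd (nat_lit 4) (.nd (nat_lit 5) 
(.lf (nat_lit 61249) (.g (nat_lit 2204) (.e (nat_lit 1558) (nat_lit 110) (.e (nat_lit 352309) (nat_lit 21) (.e (nat_lit 57655) (nat_lit 152) (.e (nat_lit 1217) (nat_lit 90) (.e (nat_lit 81947) (nat_lit 20) .nil))))) .nil)) 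
(.lf (nat_lit 61281) (.g (nat_lit 2078) (.e (nat_lit 1558) (nat_lit 110) (.e (nat_lit 352318) (nat_lit 24) (.e (nat_lit 123197) (nat_lit 266) (.e (nat_lit 57424) (nat_lit 14) (.e (nat_lit 352270) (nat_lit 8) .nil))))) .nil))) (.nd (nat_lit 5) 
(.lf (nat_lit 61265) (.g (nat_lit 1916) (.e (nat_lit 1558) (nat_lit 110) (.e (nat_lit 352309) (nat_lit 21) (.e (nat_lit 57872) (nat_lit 264) (.e (nat_lit 1221) (nat_lit 90) (.e (nat_lit 89856) (nat_lit 8) .nil))))) .nil)) 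
(.lf (nat_lit 61297) (.g (nat_lit 2789) (.e (nat_lit 1559) (nat_lit 110) (.e (nat_lit 352262) (nat_lit 0) (.e (nat_lit 3632) (nat_lit 227) (.e (nat_lit 778326) (nat_lit 6) (.e (nat_lit 81938) (nat_lit 20) (.e (nat_lit 2003) (nat_lit 138) (.e (nat_lit 671747) (nat_lit 0) .nil))))))) (.g (nat_lit 7) .nil .nil))))) (.nd (nat_lit 4) (.nd (nat_lit 5) 
(.lf (nat_lit 61257) (.g (nat_lit 2217) (.e (nat_lit 1558) (nat_lit 110) (.e (nat_lit 352309) (nat_lit 21) (.e (nat_lit 57684) (nat_lit 155) (.e (nat_lit 122917) (nat_lit 15) (.e (nat_lit 360488) (nat_lit 20) .nil))))) .nil)) 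
(.lf (nat_lit 61289) (.g (nat_lit 1513) (.e (nat_lit 1558) (nat_lit 110) (.e (nat_lit 352324) (nat_lit 26) (.e (nat_lit 147496) (nat_lit 11) (.e (nat_lit 24641) (nat_lit 10) .nil)))) .nil))) (.nd (nat_lit 5) 
(.lf (nat_lit 61273) (.g (nat_lit 3080) (.e (nat_lit 1558) (nat_lit 110) (.e (nat_lit 352315) (nat_lit 23) (.e (nat_lit 98367) (nat_lit 27) (.e (nat_lit 434268) (nat_lit 36) (.e (nat_lit 639005) (nat_lit 13) (.e (nat_lit 1233) (nat_lit 91) (.e (nat_lit 90117) (nat_lit 0) .nil))))))) (.g (nat_lit 5) .nil .nil))) 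
(.lf (nat_lit 61305) (.g (nat_lit 1634) (.e (nat_lit 1559) (nat_lit 110) (.e (nat_lit 352262) (nat_lit 0) (.e (nat_lit 3632) (nat_lit 227) (.e (nat_lit 778327) (nat_lit 6) (.e (nat_lit 81947) (nat_lit 20) (.e (nat_lit 2005) (nat_lit 138) (.e (nat_lit 671747) (nat_lit 0) .nil))))))) (.g (nat_lit 4) .nil .nil)))))) (.nd (nat_lit 3) (.nd (nat_lit 4) (.nd (nat_lit 5) 
(.lf (nat_lit 61253) (.g (nat_lit 1629) (.e (nat_lit 1558) (nat_lit 110) (.e (nat_lit 352309) (nat_lit 21) (.e (nat_lit 57683) (nat_lit 155) (.e (nat_lit 122919) (nat_lit 15) .nil)))) .nil)) 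
(.lf (nat_lit 61285) (.g (nat_lit 1523) (.e (nat_lit 1558) (nat_lit 110) (.e (nat_lit 352324) (nat_lit 26) (.e (nat_lit 147466) (nat_lit 9) (.e (nat_lit 324) (nat_lit 24) .nil)))) .nil))) (.nd (nat_lit 5) 
(.lf (nat_lit 61269) (.g (nat_lit 1018) (.e (nat_lit 1558) (nat_lit 110) (.e (nat_lit 352315) (nat_lit 23) (.e (nat_lit 98309) (nat_lit 0) (.e (nat_lit 6209) (nat_lit 333) .nil)))) .nil)) 
(.lf (nat_lit 61301) (.g (nat_lit 2642) (.e (nat_lit 1559) (nat_lit 110) (.e (nat_lit 352262) (nat_lit 0) (.e (nat_lit 3632) (nat_lit 227) (.e (nat_lit 778326) (nat_lit 6) (.e (nat_lit 81939) (nat_lit 20) (.e (nat_lit 2006) (nat_lit 138) (.e (nat_lit 671748) (nat_lit 0) .nil))))))) (.g (nat_lit 0) .nil .nil))))) (.nd (nat_lit 4) (.nd (nat_lit 5) 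
(.lf (nat_lit 61261) (.g (nat_lit 994) (.e (nat_lit 1558) (nat_lit 110) (.e (nat_lit 352309) (nat_lit 21) (.e (nat_lit 57871) (nat_lit 264) (.e (nat_lit 1219) (nat_lit 90) .nil)))) .nil)) 
(.lf (nat_lit 61293) (.g (nat_lit 3274) (.e (nat_lit 1559) (nat_lit 110) (.e (nat_lit 352262) (nat_lit 0) (.e (nat_lit 3305) (nat_lit 202) (.e (nat_lit 573491) (nat_lit 15) (.e (nat_lit 81947) (nat_lit 20) (.e (nat_lit 1842) (nat_lit 123) (.e (nat_lit 548874) (nat_lit 5) .nil))))))) (.g (nat_lit 7) .nil .nil)))) (.nd (nat_lit 5) 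
(.lf (nat_lit 61277) (.g (nat_lit 2092) (.e (nat_lit 1558) (nat_lit 110) (.e (nat_lit 352318) (nat_lit 24) (.e (nat_lit 123182) (nat_lit 264) (.e (nat_lit 1222) (nat_lit 90) (.e (nat_lit 89856) (nat_lit 8) .nil))))) .nil)) 
(.lf (nat_lit 61309) (.g (nat_lit 764) (.e (nat_lit 1559) (nat_lit 110) (.e (nat_lit 352269) (nat_lit 7) (.e (nat_lit 245776) (nat_lit 4) (.e (nat_lit 172116) (nat_lit 10) (.e (nat_lit 434295) (nat_lit 49) (.e (nat_lit 745475) (nat_lit 0) .nil)))))) (.g (nat_lit 4) .nil .nil))))))) (.nd (nat_lit 2) (.nd (nat_lit 3) (.nd (nat_lit 4) (.nd (nat_lit 5) 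
(.lf (nat_lit 61251) (.g (nat_lit 2677) (.e (nat_lit 1558) (nat_lit 110) (.e (nat_lit 352309) (nat_lit 21) (.e (nat_lit 57683) (nat_lit 155) (.e (nat_lit 122916) (nat_lit 14) (.e (nat_lit 352293) (nat_lit 20) .nil))))) .nil)) 
(.lf (nat_lit 61283) (.g (nat_lit 1648) (.e (nat_lit 1558) (nat_lit 110) (.e (nat_lit 352318) (nat_lit 24) (.e (nat_lit 123198) (nat_lit 266) (.e (nat_lit 57424) (nat_lit 14) (.e (nat_lit 352270) (nat_lit 8) (.e (nat_lit 262148) (nat_lit 0) .nil)))))) (.g (nat_lit 4) .nil .nil)))) (.nd (nat_lit 5) 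
(.lf (nat_lit 61267) (.g (nat_lit 1697) (.e (nat_lit 1558) (nat_lit 110) (.e (nat_lit 352309) (nat_lit 21) (.e (nat_lit 57873) (nat_lit 264) (.e (nat_lit 1221) (nat_lit 90) .nil)))) .nil)) 
(.lf (nat_lit 61299) (.g (nat_lit 2270) (.e (nat_lit 1559) (nat_lit 110) (.e (nat_lit 352262) (nat_lit 0) (.e (nat_lit 3632) (nat_lit 227) (.e (nat_lit 778326) (nat_lit 6) (.e (nat_lit 81939) (nat_lit 20) (.e (nat_lit 2005) (nat_lit 138) (.e (nat_lit 671747) (nat_lit 0) .nil))))))) (.g (nat_lit 7) .nil .nil))))) (.nd (nat_lit 4) (.nd (nat_lit 5) 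
(.lf (nat_lit 61259) (.g (nat_lit 1188) (.e (nat_lit 1558) (nat_lit 110) (.e (nat_lit 352309) (nat_lit 21) (.e (nat_lit 57857) (nat_lit 254) (.e (nat_lit 163923) (nat_lit 15) .nil)))) .nil)) 
(.lf (nat_lit 61291) (.g (nat_lit 3221) (.e (nat_lit 1559) (nat_lit 110) (.e (nat_lit 352262) (nat_lit 0) (.e (nat_lit 3305) (nat_lit 202) (.e (nat_lit 573482) (nat_lit 13) (.e (nat_lit 65619) (nat_lit 10) (.e (nat_lit 344126) (nat_lit 25) (.e (nat_lit 548873) (nat_lit 5) .nil))))))) (.g (nat_lit 6) .nil .nil)))) (.nd (nat_lit 5) 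
(.lf (nat_lit 61275) (.g (nat_lit 1416) (.e (nat_lit 1558) (nat_lit 110) (.e (nat_lit 352315) (nat_lit 23) (.e (nat_lit 98367) (nat_lit 27) (.e (nat_lit 434269) (nat_lit 36) .nil)))) .nil)) 
(.lf (nat_lit 61307) (.g (nat_lit 916) (.e (nat_lit 1559) (nat_lit 110) (.e (nat_lit 352262) (nat_lit 0) (.e (nat_lit 3748) (nat_lit 228) (.e (nat_lit 786483) (nat_lit 30) .nil)))) .nil))))) (.nd (nat_lit 3) (.nd (nat_lit 4) (.nd (nat_lit 5) 
(.lf (nat_lit 61255) (.g (nat_lit 2607) (.e (nat_lit 1558) (nat_lit 110) (.e (nat_lit 352309) (nat_lit 21) (.e (nat_lit 57684) (nat_lit 155) (.e (nat_lit 122916) (nat_lit 14) (.e (nat_lit 352293) (nat_lit 20) .nil))))) .nil)) 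
(.lf (nat_lit 61287) (.g (nat_lit 1726) (.e (nat_lit 1558) (nat_lit 110) (.e (nat_lit 352324) (nat_lit 26) (.e (nat_lit 147496) (nat_lit 11) (.e (nat_lit 24639) (nat_lit 10) (.e (nat_lit 344174) (nat_lit 42) .nil))))) .nil))) (.nd (nat_lit 5) 
(.lf (nat_lit 61271) (.g (nat_lit 2009) (.e (nat_lit 1558) (nat_lit 110) (.e (nat_lit 352315) (nat_lit 23) (.e (nat_lit 98366) (nat_lit 27) (.e (nat_lit 434275) (nat_lit 39) (.e (nat_lit 663574) (nat_lit 9) .nil))))) .nil)) 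
(.lf (nat_lit 61303) (.g (nat_lit 2666) (.e (nat_lit 1559) (nat_lit 110) (.e (nat_lit 352262) (nat_lit 0) (.e (nat_lit 3632) (nat_lit 227) (.e (nat_lit 778327) (nat_lit 6) (.e (nat_lit 81946) (nat_lit 20) (.e (nat_lit 2005) (nat_lit 138) (.e (nat_lit 671747) (nat_lit 0) .nil))))))) (.g (nat_lit 0) .nil .nil))))) (.nd (nat_lit 4) (.nd (nat_lit 5) 
(.lf (nat_lit 61263) (.g (nat_lit 1803) (.e (nat_lit 1558) (nat_lit 110) (.e (nat_lit 352309) (nat_lit 21) (.e (nat_lit 57872) (nat_lit 264) (.e (nat_lit 1219) (nat_lit 90) (.e (nat_lit 89856) (nat_lit 8) .nil))))) .nil)) 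
(.lf (nat_lit 61295) (.g (nat_lit 1532) (.e (nat_lit 1559) (nat_lit 110) (.e (nat_lit 352262) (nat_lit 0) (.e (nat_lit 3632) (nat_lit 227) (.e (nat_lit 778253) (nat_lit 0) .nil)))) .nil))) (.nd (nat_lit 5) 
(.lf (nat_lit 61279) (.g (nat_lit 1797) (.e (nat_lit 1558) (nat_lit 110) (.e (nat_lit 352318) (nat_lit 24) (.e (nat_lit 123183) (nat_lit 264) (.e (nat_lit 1222) (nat_lit 90) (.e (nat_lit 89856) (nat_lit 8) .nil))))) .nil)) 
(.lf (nat_lit 61311) (.g (nat_lit 1083) (.e (nat_lit 1559) (nat_lit 110) (.e (nat_lit 352272) (nat_lit 10) (.e (nat_lit 417793) (nat_lit 0) (.e (nat_lit 5412) (nat_lit 303) (.e (nat_lit 73773) (nat_lit 25) (.e (nat_lit 770055) (nat_lit 5) .nil)))))) (.g (nat_lit 6) .nil .nil)))))))))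

noncomputable def tv840 : DT := (.nd (nat_lit 0) (.nd (nat_lit 1) (.nd (nat_lit 2) (.nd (nat_lit 3) (.nd (nat_lit 4) (.nd (nat_lit 5) 
(.lf (nat_lit 61312) (.g (nat_lit 409) (.e (nat_lit 1559) (nat_lit 110) (.e (nat_lit 352272) (nat_lit 10) (.e (nat_lit 417794) (nat_lit 0) (.e (nat_lit 5410) (nat_lit 303) (.e (nat_lit 73773) (nat_lit 25) .nil))))) .nil)) 
(.lf (nat_lit 61344) (.g (nat_lit 2006) (.e (nat_lit 1559) (nat_lit 110) (.e (nat_lit 352277) (nat_lit 11) (.e (nat_lit 426342) (nat_lit 14) (.e (nat_lit 491560) (nat_lit 10) (.e (nat_lit 344175) (nat_lit 43) (.e (nat_lit 770058) (nat_lit 5) .nil)))))) (.g (nat_lit 5) .nil .nil)))) (.nd (nat_lit 5) 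
(.lf (nat_lit 61328) (.g (nat_lit 1121) (.e (nat_lit 1559) (nat_lit 110) (.e (nat_lit 352277) (nat_lit 11) (.e (nat_lit 426011) (nat_lit 0) (.e (nat_lit 7591) (nat_lit 407) .nil)))) .nil)) 
(.lf (nat_lit 61360) (.g (nat_lit 659) (.e (nat_lit 1559) (nat_lit 110) (.e (nat_lit 352279) (nat_lit 19) (.e (nat_lit 491585) (nat_lit 29) (.e (nat_lit 442402) (nat_lit 20) (.e (nat_lit 3289) (nat_lit 201) (.e (nat_lit 565251) (nat_lit 0) .nil)))))) (.g (nat_lit 0) .nil .nil))))) (.nd (nat_lit 4) (.nd (nat_lit 5) 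
(.lf (nat_lit 61320) (.g (nat_lit 1418) (.e (nat_lit 1559) (nat_lit 110) (.e (nat_lit 352272) (nat_lit 10) (.e (nat_lit 417796) (nat_lit 0) (.e (nat_lit 5412) (nat_lit 303) (.e (nat_lit 73773) (nat_lit 25) (.e (nat_lit 770055) (nat_lit 5) .nil)))))) (.g (nat_lit 0) .nil .nil))) 
(.lf (nat_lit 61352) (.g (nat_lit 2831) (.e (nat_lit 1559) (nat_lit 110) (.e (nat_lit 352277) (nat_lit 11) (.e (nat_lit 426343) (nat_lit 14) (.e (nat_lit 491559) (nat_lit 10) (.e (nat_lit 344177) (nat_lit 43) (.e (nat_lit 770057) (nat_lit 5) .nil)))))) (.g (nat_lit 6) .nil .nil)))) (.nd (nat_lit 5) 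
(.lf (nat_lit 61336) (.g (nat_lit 811) (.e (nat_lit 1559) (nat_lit 110) (.e (nat_lit 352277) (nat_lit 11) (.e (nat_lit 426012) (nat_lit 0) (.e (nat_lit 7591) (nat_lit 407) .nil)))) .nil)) 
(.lf (nat_lit 61368) (.g (nat_lit 875) (.e (nat_lit 1559) (nat_lit 110) (.e (nat_lit 352315) (nat_lit 23) (.e (nat_lit 98387) (nat_lit 33) .nil))) .nil))))) (.nd (nat_lit 3) (.nd (nat_lit 4) (.nd (nat_lit 5) 
(.lf (nat_lit 61316) (.g (nat_lit 1466) (.e (nat_lit 1559) (nat_lit 110) (.e (nat_lit 352272) (nat_lit 10) (.e (nat_lit 417795) (nat_lit 0) (.e (nat_lit 5412) (nat_lit 303) (.e (nat_lit 73773) (nat_lit 25) (.e (nat_lit 770055) (nat_lit 5) .nil)))))) (.g (nat_lit 0) .nil .nil))) 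
(.lf (nat_lit 61348) (.g (nat_lit 2499) (.e (nat_lit 1559) (nat_lit 110) (.e (nat_lit 352277) (nat_lit 11) (.e (nat_lit 426343) (nat_lit 14) (.e (nat_lit 491558) (nat_lit 10) (.e (nat_lit 344175) (nat_lit 43) .nil))))) .nil))) (.nd (nat_lit 5) 
(.lf (nat_lit 61332) (.g (nat_lit 2027) (.e (nat_lit 1559) (nat_lit 110) (.e (nat_lit 352277) (nat_lit 11) (.e (nat_lit 426011) (nat_lit 0) (.e (nat_lit 7593) (nat_lit 407) (.e (nat_lit 73731) (nat_lit 0) .nil))))) .nil)) 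
(.lf (nat_lit 61364) (.g (nat_lit 760) (.e (nat_lit 1559) (nat_lit 110) (.e (nat_lit 352315) (nat_lit 23) (.e (nat_lit 98349) (nat_lit 24) .nil))) .nil)))) (.nd (nat_lit 4) (.nd (nat_lit 5) 
(.lf (nat_lit 61324) (.g (nat_lit 1731) (.e (nat_lit 1559) (nat_lit 110) (.e (nat_lit 352272) (nat_lit 10) (.e (nat_lit 417811) (nat_lit 6) (.e (nat_lit 286755) (nat_lit 10) (.e (nat_lit 344177) (nat_lit 43) (.e (nat_lit 770055) (nat_lit 5) .nil)))))) (.g (nat_lit 6) .nil .nil))) 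
(.lf (nat_lit 61356) (.g (nat_lit 767) (.e (nat_lit 1559) (nat_lit 110) (.e (nat_lit 352277) (nat_lit 11) (.e (nat_lit 426344) (nat_lit 14) (.e (nat_lit 491560) (nat_lit 10) .nil)))) .nil))) (.nd (nat_lit 5) 
(.lf (nat_lit 61340) (.g (nat_lit 2173) (.e (nat_lit 1559) (nat_lit 110) (.e (nat_lit 352277) (nat_lit 11) (.e (nat_lit 426012) (nat_lit 0) (.e (nat_lit 7593) (nat_lit 407) (.e (nat_lit 73773) (nat_lit 25) (.e (nat_lit 770057) (nat_lit 5) .nil)))))) (.g (nat_lit 0) .nil .nil))) 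
(.lf (nat_lit 61372) (.g (nat_lit 758) (.e (nat_lit 1560) (nat_lit 110) (.e (nat_lit 352315) (nat_lit 23) (.e (nat_lit 98349) (nat_lit 24) .nil))) .nil)))))) (.nd (nat_lit 2) (.nd (nat_lit 3) (.nd (nat_lit 4) (.nd (nat_lit 5) 
(.lf (nat_lit 61314) (.g (nat_lit 1434) (.e (nat_lit 1559) (nat_lit 110) (.e (nat_lit 352272) (nat_lit 10) (.e (nat_lit 417795) (nat_lit 0) (.e (nat_lit 5409) (nat_lit 303) (.e (nat_lit 73773) (nat_lit 25) (.e (nat_lit 770055) (nat_lit 5) .nil)))))) (.g (nat_lit 6) .nil .nil))) 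
(.lf (nat_lit 61346) (.g (nat_lit 1771) (.e (nat_lit 1559) (nat_lit 110) (.e (nat_lit 352277) (nat_lit 11) (.e (nat_lit 426343) (nat_lit 14) (.e (nat_lit 491558) (nat_lit 10) (.e (nat_lit 344091) (nat_lit 18) .nil))))) .nil))) (.nd (nat_lit 5) 
(.lf (nat_lit 61330) (.g (nat_lit 2528) (.e (nat_lit 1559) (nat_lit 110) (.e (nat_lit 352277) (nat_lit 11) (.e (nat_lit 426011) (nat_lit 0) (.e (nat_lit 7591) (nat_lit 407) (.e (nat_lit 73773) (nat_lit 25) (.e (nat_lit 770057) (nat_lit 5) .nil)))))) (.g (nat_lit 0) .nil .nil))) 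
(.lf (nat_lit 61362) (.g (nat_lit 749) (.e (nat_lit 1559) (nat_lit 110) (.e (nat_lit 352309) (nat_lit 21) (.e (nat_lit 57872) (nat_lit 264) .nil))) .nil)))) (.nd (nat_lit 4) (.nd (nat_lit 5) 
(.lf (nat_lit 61322) (.g (nat_lit 1899) (.e (nat_lit 1559) (nat_lit 110) (.e (nat_lit 352272) (nat_lit 10) (.e (nat_lit 417811) (nat_lit 6) (.e (nat_lit 286753) (nat_lit 10) (.e (nat_lit 344177) (nat_lit 43) (.e (nat_lit 770055) (nat_lit 5) .nil)))))) (.g (nat_lit 0) .nil .nil))) 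
(.lf (nat_lit 61354) (.g (nat_lit 2153) (.e (nat_lit 1559) (nat_lit 110) (.e (nat_lit 352277) (nat_lit 11) (.e (nat_lit 426344) (nat_lit 14) (.e (nat_lit 491558) (nat_lit 10) (.e (nat_lit 344175) (nat_lit 43) .nil))))) .nil))) (.nd (nat_lit 5) 
(.lf (nat_lit 61338) (.g (nat_lit 1581) (.e (nat_lit 1559) (nat_lit 110) (.e (nat_lit 352277) (nat_lit 11) (.e (nat_lit 426012) (nat_lit 0) (.e (nat_lit 7593) (nat_lit 407) (.e (nat_lit 73729) (nat_lit 0) .nil))))) .nil)) 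
(.lf (nat_lit 61370) (.g (nat_lit 1334) (.e (nat_lit 1560) (nat_lit 110) (.e (nat_lit 352309) (nat_lit 21) (.e (nat_lit 57857) (nat_lit 254) (.e (nat_lit 163923) (nat_lit 15) .nil)))) .nil))))) (.nd (nat_lit 3) (.nd (nat_lit 4) (.nd (nat_lit 5) 
(.lf (nat_lit 61318) (.g (nat_lit 1753) (.e (nat_lit 1559) (nat_lit 110) (.e (nat_lit 352272) (nat_lit 10) (.e (nat_lit 417796) (nat_lit 0) (.e (nat_lit 5409) (nat_lit 303) (.e (nat_lit 73773) (nat_lit 25) (.e (nat_lit 770055) (nat_lit 5) .nil)))))) (.g (nat_lit 6) .nil .nil))) 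
(.lf (nat_lit 61350) (.g (nat_lit 2549) (.e (nat_lit 1559) (nat_lit 110) (.e (nat_lit 352277) (nat_lit 11) (.e (nat_lit 426343) (nat_lit 14) (.e (nat_lit 491558) (nat_lit 10) (.e (nat_lit 344175) (nat_lit 43) (.e (nat_lit 770058) (nat_lit 5) .nil)))))) (.g (nat_lit 4) .nil .nil)))) (.nd (nat_lit 5) 
(.lf (nat_lit 61334) (.g (nat_lit 2562) (.e (nat_lit 1559) (nat_lit 110) (.e (nat_lit 352277) (nat_lit 11) (.e (nat_lit 426011) (nat_lit 0) (.e (nat_lit 7593) (nat_lit 407) (.e (nat_lit 73773) (nat_lit 25) (.e (nat_lit 770057) (nat_lit 5) .nil)))))) (.g (nat_lit 0) .nil .nil))) 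
(.lf (nat_lit 61366) (.g (nat_lit 3194) (.e (nat_lit 1559) (nat_lit 110) (.e (nat_lit 352315) (nat_lit 23) (.e (nat_lit 98350) (nat_lit 24) (.e (nat_lit 409645) (nat_lit 18) (.e (nat_lit 303117) (nat_lit 2) .nil))))) .nil)))) (.nd (nat_lit 4) (.nd (nat_lit 5) 
(.lf (nat_lit 61326) (.g (nat_lit 1644) (.e (nat_lit 1559) (nat_lit 110) (.e (nat_lit 352277) (nat_lit 11) (.e (nat_lit 426009) (nat_lit 0) (.e (nat_lit 7593) (nat_lit 407) (.e (nat_lit 73773) (nat_lit 25) (.e (nat_lit 770055) (nat_lit 5) .nil)))))) (.g (nat_lit 0) .nil .nil))) 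
(.lf (nat_lit 61358) (.g (nat_lit 1801) (.e (nat_lit 1559) (nat_lit 110) (.e (nat_lit 352277) (nat_lit 11) (.e (nat_lit 426344) (nat_lit 14) (.e (nat_lit 491560) (nat_lit 10) (.e (nat_lit 344094) (nat_lit 18) .nil))))) .nil))) (.nd (nat_lit 5) 
(.lf (nat_lit 61342) (.g (nat_lit 2004) (.e (nat_lit 1559) (nat_lit 110) (.e (nat_lit 352277) (nat_lit 11) (.e (nat_lit 426342) (nat_lit 14) (.e (nat_lit 491560) (nat_lit 10) (.e (nat_lit 344175) (nat_lit 43) (.e (nat_lit 770055) (nat_lit 5) .nil)))))) (.g (nat_lit 5) .nil .nil))) 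
(.lf (nat_lit 61374) (.g (nat_lit 2585) (.e (nat_lit 1560) (nat_lit 110) (.e (nat_lit 352315) (nat_lit 23) (.e (nat_lit 98349) (nat_lit 24) (.e (nat_lit 409646) (nat_lit 18) (.e (nat_lit 303117) (nat_lit 2) .nil))))) .nil))))))) (.nd (nat_lit 1) (.nd (nat_lit 2) (.nd (nat_lit 3) (.nd (nat_lit 4) (.nd (nat_lit 5) 
(.lf (nat_lit 61313) (.g (nat_lit 1075) (.e (nat_lit 1559) (nat_lit 110) (.e (nat_lit 352272) (nat_lit 10) (.e (nat_lit 417794) (nat_lit 0) (.e (nat_lit 5412) (nat_lit 303) (.e (nat_lit 73773) (nat_lit 25) (.e (nat_lit 770055) (nat_lit 5) .nil)))))) (.g (nat_lit 6) .nil .nil))) 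
(.lf (nat_lit 61345) (.g (nat_lit 1054) (.e (nat_lit 1559) (nat_lit 110) (.e (nat_lit 352277) (nat_lit 11) (.e (nat_lit 426343) (nat_lit 14) (.e (nat_lit 491558) (nat_lit 10) .nil)))) .nil))) (.nd (nat_lit 5) 
(.lf (nat_lit 61329) (.g (nat_lit 1988) (.e (nat_lit 1559) (nat_lit 110) (.e (nat_lit 352277) (nat_lit 11) (.e (nat_lit 426011) (nat_lit 0) (.e (nat_lit 7591) (nat_lit 407) (.e (nat_lit 73729) (nat_lit 0) .nil))))) .nil)) 
(.lf (nat_lit 61361) (.g (nat_lit 1254) (.e (nat_lit 1559) (nat_lit 110) (.e (nat_lit 352309) (nat_lit 21) (.e (nat_lit 57857) (nat_lit 254) (.e (nat_lit 163908) (nat_lit 12) .nil)))) .nil)))) (.nd (nat_lit 4) (.nd (nat_lit 5) 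
(.lf (nat_lit 61321) (.g (nat_lit 1238) (.e (nat_lit 1559) (nat_lit 110) (.e (nat_lit 352272) (nat_lit 10) (.e (nat_lit 417796) (nat_lit 0) (.e (nat_lit 5413) (nat_lit 303) (.e (nat_lit 73773) (nat_lit 25) (.e (nat_lit 770055) (nat_lit 5) .nil)))))) (.g (nat_lit 6) .nil .nil))) 
(.lf (nat_lit 61353) (.g (nat_lit 986) (.e (nat_lit 1559) (nat_lit 110) (.e (nat_lit 352277) (nat_lit 11) (.e (nat_lit 426343) (nat_lit 14) (.e (nat_lit 491560) (nat_lit 10) .nil)))) .nil))) (.nd (nat_lit 5) 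
(.lf (nat_lit 61337) (.g (nat_lit 2081) (.e (nat_lit 1559) (nat_lit 110) (.e (nat_lit 352277) (nat_lit 11) (.e (nat_lit 426012) (nat_lit 0) (.e (nat_lit 7591) (nat_lit 407) (.e (nat_lit 73773) (nat_lit 25) (.e (nat_lit 770057) (nat_lit 5) .nil)))))) (.g (nat_lit 0) .nil .nil))) 
(.lf (nat_lit 61369) (.g (nat_lit 670) (.e (nat_lit 1559) (nat_lit 110) (.e (nat_lit 352315) (nat_lit 23) (.e (nat_lit 98389) (nat_lit 33) .nil))) .nil))))) (.nd (nat_lit 3) (.nd (nat_lit 4) (.nd (nat_lit 5) 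
(.lf (nat_lit 61317) (.g (nat_lit 1097) (.e (nat_lit 1559) (nat_lit 110) (.e (nat_lit 352272) (nat_lit 10) (.e (nat_lit 417795) (nat_lit 0) (.e (nat_lit 5413) (nat_lit 303) (.e (nat_lit 73773) (nat_lit 25) (.e (nat_lit 770055) (nat_lit 5) .nil)))))) (.g (nat_lit 6) .nil .nil))) 
(.lf (nat_lit 61349) (.g (nat_lit 2500) (.e (nat_lit 1559) (nat_lit 110) (.e (nat_lit 352277) (nat_lit 11) (.e (nat_lit 426343) (nat_lit 14) (.e (nat_lit 491558) (nat_lit 10) (.e (nat_lit 344175) (nat_lit 43) (.e (nat_lit 770055) (nat_lit 5) .nil)))))) (.g (nat_lit 4) .nil .nil)))) (.nd (nat_lit 5) 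
(.lf (nat_lit 61333) (.g (nat_lit 2612) (.e (nat_lit 1559) (nat_lit 110) (.e (nat_lit 352277) (nat_lit 11) (.e (nat_lit 426011) (nat_lit 0) (.e (nat_lit 7593) (nat_lit 407) (.e (nat_lit 73773) (nat_lit 25) (.e (nat_lit 770055) (nat_lit 5) .nil)))))) (.g (nat_lit 0) .nil .nil))) 
(.lf (nat_lit 61365) (.g (nat_lit 2569) (.e (nat_lit 1559) (nat_lit 110) (.e (nat_lit 352315) (nat_lit 23) (.e (nat_lit 98349) (nat_lit 24) (.e (nat_lit 409644) (nat_lit 18) (.e (nat_lit 303117) (nat_lit 2) (.e (nat_lit 196630) (nat_lit 9) .nil)))))) (.g (nat_lit 4) .nil .nil))))) (.nd (nat_lit 4) (.nd (nat_lit 5) 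
(.lf (nat_lit 61325) (.g (nat_lit 1810) (.e (nat_lit 1559) (nat_lit 110) (.e (nat_lit 352272) (nat_lit 10) (.e (nat_lit 417811) (nat_lit 6) (.e (nat_lit 286755) (nat_lit 10) (.e (nat_lit 344177) (nat_lit 43) (.e (nat_lit 770057) (nat_lit 5) .nil)))))) (.g (nat_lit 6) .nil .nil))) 
(.lf (nat_lit 61357) (.g (nat_lit 2317) (.e (nat_lit 1559) (nat_lit 110) (.e (nat_lit 352277) (nat_lit 11) (.e (nat_lit 426344) (nat_lit 14) (.e (nat_lit 491560) (nat_lit 10) (.e (nat_lit 344089) (nat_lit 18) .nil))))) .nil))) (.nd (nat_lit 5) 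
(.lf (nat_lit 61341) (.g (nat_lit 1925) (.e (nat_lit 1559) (nat_lit 110) (.e (nat_lit 352277) (nat_lit 11) (.e (nat_lit 426172) (nat_lit 7) (.e (nat_lit 409649) (nat_lit 18) (.e (nat_lit 303111) (nat_lit 0) .nil))))) .nil)) 
(.lf (nat_lit 61373) (.g (nat_lit 2570) (.e (nat_lit 1560) (nat_lit 110) (.e (nat_lit 352315) (nat_lit 23) (.e (nat_lit 98349) (nat_lit 24) (.e (nat_lit 409645) (nat_lit 18) (.e (nat_lit 303117) (nat_lit 2) .nil))))) .nil)))))) (.nd (nat_lit 2) (.nd (nat_lit 3) (.nd (nat_lit 4) (.nd (nat_lit 5) 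
(.lf (nat_lit 61315) (.g (nat_lit 1119) (.e (nat_lit 1559) (nat_lit 110) (.e (nat_lit 352272) (nat_lit 10) (.e (nat_lit 417795) (nat_lit 0) (.e (nat_lit 5410) (nat_lit 303) (.e (nat_lit 73773) (nat_lit 25) (.e (nat_lit 770055) (nat_lit 5) .nil)))))) (.g (nat_lit 6) .nil .nil))) 
(.lf (nat_lit 61347) (.g (nat_lit 1799) (.e (nat_lit 1559) (nat_lit 110) (.e (nat_lit 352277) (nat_lit 11) (.e (nat_lit 426343) (nat_lit 14) (.e (nat_lit 491558) (nat_lit 10) (.e (nat_lit 344096) (nat_lit 18) .nil))))) .nil))) (.nd (nat_lit 5) 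
(.lf (nat_lit 61331) (.g (nat_lit 2020) (.e (nat_lit 1559) (nat_lit 110) (.e (nat_lit 352277) (nat_lit 11) (.e (nat_lit 426011) (nat_lit 0) (.e (nat_lit 7593) (nat_lit 407) (.e (nat_lit 73729) (nat_lit 0) .nil))))) .nil)) 
(.lf (nat_lit 61363) (.g (nat_lit 582) (.e (nat_lit 1559) (nat_lit 110) (.e (nat_lit 352315) (nat_lit 23) (.e (nat_lit 98325) (nat_lit 17) .nil))) .nil)))) (.nd (nat_lit 4) (.nd (nat_lit 5) 
(.lf (nat_lit 61323) (.g (nat_lit 2052) (.e (nat_lit 1559) (nat_lit 110) (.e (nat_lit 352272) (nat_lit 10) (.e (nat_lit 417811) (nat_lit 6) (.e (nat_lit 286753) (nat_lit 10) (.e (nat_lit 344177) (nat_lit 43) (.e (nat_lit 770057) (nat_lit 5) .nil)))))) (.g (nat_lit 0) .nil .nil))) 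
(.lf (nat_lit 61355) (.g (nat_lit 1982) (.e (nat_lit 1559) (nat_lit 110) (.e (nat_lit 352277) (nat_lit 11) (.e (nat_lit 426344) (nat_lit 14) (.e (nat_lit 491559) (nat_lit 10) (.e (nat_lit 344177) (nat_lit 43) (.e (nat_lit 770058) (nat_lit 5) .nil)))))) (.g (nat_lit 4) .nil .nil)))) (.nd (nat_lit 5) 
(.lf (nat_lit 61339) (.g (nat_lit 2218) (.e (nat_lit 1559) (nat_lit 110) (.e (nat_lit 352277) (nat_lit 11) (.e (nat_lit 426012) (nat_lit 0) (.e (nat_lit 7593) (nat_lit 407) (.e (nat_lit 73773) (nat_lit 25) (.e (nat_lit 770055) (nat_lit 5) .nil)))))) (.g (nat_lit 0) .nil .nil))) 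
(.lf (nat_lit 61371) (.g (nat_lit 2321) (.e (nat_lit 1560) (nat_lit 110) (.e (nat_lit 352309) (nat_lit 21) (.e (nat_lit 57872) (nat_lit 264) (.e (nat_lit 1221) (nat_lit 90) (.e (nat_lit 81959) (nat_lit 24) .nil))))) .nil))))) (.nd (nat_lit 3) (.nd (nat_lit 4) (.nd (nat_lit 5) 
(.lf (nat_lit 61319) (.g (nat_lit 1271) (.e (nat_lit 1559) (nat_lit 110) (.e (nat_lit 352272) (nat_lit 10) (.e (nat_lit 417796) (nat_lit 0) (.e (nat_lit 5410) (nat_lit 303) (.e (nat_lit 73773) (nat_lit 25) (.e (nat_lit 770055) (nat_lit 5) .nil)))))) (.g (nat_lit 6) .nil .nil))) 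
(.lf (nat_lit 61351) (.g (nat_lit 2054) (.e (nat_lit 1559) (nat_lit 110) (.e (nat_lit 352277) (nat_lit 11) (.e (nat_lit 426343) (nat_lit 14) (.e (nat_lit 491559) (nat_lit 10) (.e (nat_lit 344177) (nat_lit 43) .nil))))) .nil))) (.nd (nat_lit 5) 
(.lf (nat_lit 61335) (.g (nat_lit 1063) (.e (nat_lit 1559) (nat_lit 110) (.e (nat_lit 352277) (nat_lit 11) (.e (nat_lit 426012) (nat_lit 0) (.e (nat_lit 7495) (nat_lit 402) .nil)))) .nil)) 
(.lf (nat_lit 61367) (.g (nat_lit 2671) (.e (nat_lit 1559) (nat_lit 110) (.e (nat_lit 352315) (nat_lit 23) (.e (nat_lit 98350) (nat_lit 24) (.e (nat_lit 409649) (nat_lit 18) (.e (nat_lit 303117) (nat_lit 2) .nil))))) .nil)))) (.nd (nat_lit 4) (.nd (nat_lit 5) 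
(.lf (nat_lit 61327) (.g (nat_lit 1592) (.e (nat_lit 1559) (nat_lit 110) (.e (nat_lit 352277) (nat_lit 11) (.e (nat_lit 426009) (nat_lit 0) (.e (nat_lit 7593) (nat_lit 407) (.e (nat_lit 73773) (nat_lit 25) (.e (nat_lit 770057) (nat_lit 5) .nil)))))) (.g (nat_lit 0) .nil .nil))) 
(.lf (nat_lit 61359) (.g (nat_lit 659) (.e (nat_lit 1559) (nat_lit 110) (.e (nat_lit 352279) (nat_lit 19) (.e (nat_lit 491585) (nat_lit 29) (.e (nat_lit 442402) (nat_lit 20) (.e (nat_lit 3288) (nat_lit 201) (.e (nat_lit 565252) (nat_lit 0) .nil)))))) (.g (nat_lit 0) .nil .nil)))) (.nd (nat_lit 5) 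
(.lf (nat_lit 61343) (.g (nat_lit 1928) (.e (nat_lit 1559) (nat_lit 110) (.e (nat_lit 352277) (nat_lit 11) (.e (nat_lit 426342) (nat_lit 14) (.e (nat_lit 491560) (nat_lit 10) (.e (nat_lit 344175) (nat_lit 43) (.e (nat_lit 770057) (nat_lit 5) .nil)))))) (.g (nat_lit 5) .nil .nil))) 
(.lf (nat_lit 61375) (.g (nat_lit 709) (.e (nat_lit 1560) (nat_lit 110) (.e (nat_lit 352315) (nat_lit 23) (.e (nat_lit 98350) (nat_lit 24) .nil))) .nil))))))))

noncomputable def tv841 : DT := (.nd (nat_lit 0) (.nd (nat_lit 1) (.nd (nat_lit 2) (.nd (nat_lit 3) (.nd (nat_lit 4) (.nd (nat_lit 5) 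
(.lf (nat_lit 61376) (.g (nat_lit 2735) (.e (nat_lit 1560) (nat_lit 110) (.e (nat_lit 352315) (nat_lit 23) (.e (nat_lit 98350) (nat_lit 24) (.e (nat_lit 409616) (nat_lit 10) (.e (nat_lit 7936) (nat_lit 312) .nil))))) .nil)) 
(.lf (nat_lit 61408) (.g (nat_lit 1455) (.e (nat_lit 1562) (nat_lit 110) (.e (nat_lit 352272) (nat_lit 10) (.e (nat_lit 417796) (nat_lit 0) (.e (nat_lit 5412) (nat_lit 303) (.e (nat_lit 73773) (nat_lit 25) (.e (nat_lit 770058) (nat_lit 5) .nil)))))) (.g (nat_lit 0) .nil .nil)))) (.nd (nat_lit 5) 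
(.lf (nat_lit 61392) (.g (nat_lit 1441) (.e (nat_lit 1562) (nat_lit 110) (.e (nat_lit 352269) (nat_lit 7) (.e (nat_lit 245778) (nat_lit 6) (.e (nat_lit 188439) (nat_lit 20) (.e (nat_lit 3579) (nat_lit 223) (.e (nat_lit 745475) (nat_lit 0) .nil)))))) (.g (nat_lit 0) .nil .nil))) 
(.lf (nat_lit 61424) (.g (nat_lit 471) (.e (nat_lit 1562) (nat_lit 110) (.e (nat_lit 352309) (nat_lit 21) (.e (nat_lit 57857) (nat_lit 254) .nil))) .nil)))) (.nd (nat_lit 4) (.nd (nat_lit 5) 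
(.lf (nat_lit 61384) (.g (nat_lit 1766) (.e (nat_lit 1561) (nat_lit 110) (.e (nat_lit 352315) (nat_lit 23) (.e (nat_lit 98350) (nat_lit 24) (.e (nat_lit 409646) (nat_lit 18) .nil)))) .nil)) 
(.lf (nat_lit 61416) (.g (nat_lit 535) (.e (nat_lit 1562) (nat_lit 110) (.e (nat_lit 352277) (nat_lit 11) (.e (nat_lit 426012) (nat_lit 0) .nil))) .nil))) (.nd (nat_lit 5) 
(.lf (nat_lit 61400) (.g (nat_lit 1485) (.e (nat_lit 1562) (nat_lit 110) (.e (nat_lit 352272) (nat_lit 10) (.e (nat_lit 417795) (nat_lit 0) (.e (nat_lit 5409) (nat_lit 303) (.e (nat_lit 73773) (nat_lit 25) (.e (nat_lit 770057) (nat_lit 5) .nil)))))) (.g (nat_lit 0) .nil .nil))) 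
(.lf (nat_lit 61432) (.g (nat_lit 1465) (.e (nat_lit 1562) (nat_lit 110) (.e (nat_lit 352309) (nat_lit 21) (.e (nat_lit 57870) (nat_lit 264) (.e (nat_lit 1221) (nat_lit 90) (.e (nat_lit 81938) (nat_lit 20) .nil))))) .nil))))) (.nd (nat_lit 3) (.nd (nat_lit 4) (.nd (nat_lit 5) 
(.lf (nat_lit 61380) (.g (nat_lit 2055) (.e (nat_lit 1560) (nat_lit 110) (.e (nat_lit 352324) (nat_lit 26) (.e (nat_lit 147494) (nat_lit 11) (.e (nat_lit 24665) (nat_lit 14) (.e (nat_lit 401413) (nat_lit 0) .nil))))) .nil)) 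
(.lf (nat_lit 61412) (.g (nat_lit 1806) (.e (nat_lit 1562) (nat_lit 110) (.e (nat_lit 352272) (nat_lit 10) (.e (nat_lit 417811) (nat_lit 6) (.e (nat_lit 286755) (nat_lit 10) (.e (nat_lit 344177) (nat_lit 43) (.e (nat_lit 770057) (nat_lit 5) .nil)))))) (.g (nat_lit 6) .nil .nil)))) (.nd (nat_lit 5) 
(.lf (nat_lit 61396) (.g (nat_lit 1119) (.e (nat_lit 1562) (nat_lit 110) (.e (nat_lit 352272) (nat_lit 10) (.e (nat_lit 417793) (nat_lit 0) (.e (nat_lit 5412) (nat_lit 303) (.e (nat_lit 73773) (nat_lit 25) (.e (nat_lit 770058) (nat_lit 5) .nil)))))) (.g (nat_lit 6) .nil .nil))) 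
(.lf (nat_lit 61428) (.g (nat_lit 2483) (.e (nat_lit 1562) (nat_lit 110) (.e (nat_lit 352309) (nat_lit 21) (.e (nat_lit 57857) (nat_lit 254) (.e (nat_lit 163908) (nat_lit 12) (.e (nat_lit 426286) (nat_lit 10) (.e (nat_lit 434269) (nat_lit 36) (.e (nat_lit 639007) (nat_lit 13) .nil))))))) (.g (nat_lit 6) .nil .nil))))) (.nd (nat_lit 4) (.nd (nat_lit 5) 
(.lf (nat_lit 61388) (.g (nat_lit 2022) (.e (nat_lit 1562) (nat_lit 110) (.e (nat_lit 352262) (nat_lit 0) (.e (nat_lit 3305) (nat_lit 202) (.e (nat_lit 573491) (nat_lit 15) (.e (nat_lit 81947) (nat_lit 20) .nil))))) .nil)) 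
(.lf (nat_lit 61420) (.g (nat_lit 701) (.e (nat_lit 1562) (nat_lit 110) (.e (nat_lit 352279) (nat_lit 19) (.e (nat_lit 491585) (nat_lit 29) (.e (nat_lit 442409) (nat_lit 20) (.e (nat_lit 3288) (nat_lit 201) (.e (nat_lit 565252) (nat_lit 0) .nil)))))) (.g (nat_lit 6) .nil .nil)))) (.nd (nat_lit 5) 
(.lf (nat_lit 61404) (.g (nat_lit 1797) (.e (nat_lit 1562) (nat_lit 110) (.e (nat_lit 352272) (nat_lit 10) (.e (nat_lit 417796) (nat_lit 0) (.e (nat_lit 5409) (nat_lit 303) (.e (nat_lit 73773) (nat_lit 25) (.e (nat_lit 770057) (nat_lit 5) .nil)))))) (.g (nat_lit 0) .nil .nil))) 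
(.lf (nat_lit 61436) (.g (nat_lit 1672) (.e (nat_lit 1562) (nat_lit 110) (.e (nat_lit 352309) (nat_lit 21) (.e (nat_lit 57872) (nat_lit 264) (.e (nat_lit 1219) (nat_lit 90) (.e (nat_lit 81935) (nat_lit 20) .nil))))) .nil)))))) (.nd (nat_lit 2) (.nd (nat_lit 3) (.nd (nat_lit 4) (.nd (nat_lit 5) 
(.lf (nat_lit 61378) (.g (nat_lit 2859) (.e (nat_lit 1560) (nat_lit 110) (.e (nat_lit 352315) (nat_lit 23) (.e (nat_lit 98350) (nat_lit 24) (.e (nat_lit 409648) (nat_lit 18) (.e (nat_lit 303121) (nat_lit 5) .nil))))) .nil)) 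
(.lf (nat_lit 61410) (.g (nat_lit 2019) (.e (nat_lit 1562) (nat_lit 110) (.e (nat_lit 352272) (nat_lit 10) (.e (nat_lit 417811) (nat_lit 6) (.e (nat_lit 286753) (nat_lit 10) (.e (nat_lit 344177) (nat_lit 43) (.e (nat_lit 770057) (nat_lit 5) .nil)))))) (.g (nat_lit 6) .nil .nil)))) (.nd (nat_lit 5) 
(.lf (nat_lit 61394) (.g (nat_lit 1535) (.e (nat_lit 1562) (nat_lit 110) (.e (nat_lit 352269) (nat_lit 7) (.e (nat_lit 245778) (nat_lit 6) (.e (nat_lit 188441) (nat_lit 20) (.e (nat_lit 3579) (nat_lit 223) (.e (nat_lit 745475) (nat_lit 0) .nil)))))) (.g (nat_lit 0) .nil .nil))) 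
(.lf (nat_lit 61426) (.g (nat_lit 2555) (.e (nat_lit 1562) (nat_lit 110) (.e (nat_lit 352309) (nat_lit 21) (.e (nat_lit 57857) (nat_lit 254) (.e (nat_lit 163908) (nat_lit 12) (.e (nat_lit 426285) (nat_lit 10) (.e (nat_lit 434269) (nat_lit 36) (.e (nat_lit 639008) (nat_lit 13) .nil))))))) (.g (nat_lit 7) .nil .nil))))) (.nd (nat_lit 4) (.nd (nat_lit 5) 
(.lf (nat_lit 61386) (.g (nat_lit 1951) (.e (nat_lit 1562) (nat_lit 110) (.e (nat_lit 352262) (nat_lit 0) (.e (nat_lit 3305) (nat_lit 202) (.e (nat_lit 573491) (nat_lit 15) (.e (nat_lit 81943) (nat_lit 20) .nil))))) .nil)) 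
(.lf (nat_lit 61418) (.g (nat_lit 1684) (.e (nat_lit 1562) (nat_lit 110) (.e (nat_lit 352277) (nat_lit 11) (.e (nat_lit 426343) (nat_lit 14) (.e (nat_lit 491559) (nat_lit 10) .nil)))) .nil))) (.nd (nat_lit 5) 
(.lf (nat_lit 61402) (.g (nat_lit 1465) (.e (nat_lit 1562) (nat_lit 110) (.e (nat_lit 352272) (nat_lit 10) (.e (nat_lit 417795) (nat_lit 0) (.e (nat_lit 5412) (nat_lit 303) (.e (nat_lit 73773) (nat_lit 25) (.e (nat_lit 770057) (nat_lit 5) .nil)))))) (.g (nat_lit 0) .nil .nil))) 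
(.lf (nat_lit 61434) (.g (nat_lit 1677) (.e (nat_lit 1562) (nat_lit 110) (.e (nat_lit 352309) (nat_lit 21) (.e (nat_lit 57871) (nat_lit 264) (.e (nat_lit 1220) (nat_lit 90) (.e (nat_lit 81938) (nat_lit 20) .nil))))) .nil))))) (.nd (nat_lit 3) (.nd (nat_lit 4) (.nd (nat_lit 5) 
(.lf (nat_lit 61382) (.g (nat_lit 775) (.e (nat_lit 1561) (nat_lit 110) (.e (nat_lit 352315) (nat_lit 23) (.e (nat_lit 98349) (nat_lit 24) .nil))) .nil)) 
(.lf (nat_lit 61414) (.g (nat_lit 1725) (.e (nat_lit 1562) (nat_lit 110) (.e (nat_lit 352277) (nat_lit 11) (.e (nat_lit 426011) (nat_lit 0) (.e (nat_lit 7591) (nat_lit 407) .nil)))) .nil))) (.nd (nat_lit 5) 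
(.lf (nat_lit 61398) (.g (nat_lit 1065) (.e (nat_lit 1562) (nat_lit 110) (.e (nat_lit 352272) (nat_lit 10) (.e (nat_lit 417794) (nat_lit 0) (.e (nat_lit 5412) (nat_lit 303) (.e (nat_lit 73773) (nat_lit 25) (.e (nat_lit 770057) (nat_lit 5) .nil)))))) (.g (nat_lit 6) .nil .nil))) 
(.lf (nat_lit 61430) (.g (nat_lit 954) (.e (nat_lit 1562) (nat_lit 110) (.e (nat_lit 352309) (nat_lit 21) (.e (nat_lit 57870) (nat_lit 264) (.e (nat_lit 1219) (nat_lit 90) .nil)))) .nil)))) (.nd (nat_lit 4) (.nd (nat_lit 5) 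
(.lf (nat_lit 61390) (.g (nat_lit 1310) (.e (nat_lit 1562) (nat_lit 110) (.e (nat_lit 352269) (nat_lit 7) (.e (nat_lit 245776) (nat_lit 4) (.e (nat_lit 172106) (nat_lit 10) (.e (nat_lit 434295) (nat_lit 49) (.e (nat_lit 745475) (nat_lit 0) .nil)))))) (.g (nat_lit 5) .nil .nil))) 
(.lf (nat_lit 61422) (.g (nat_lit 874) (.e (nat_lit 1562) (nat_lit 110) (.e (nat_lit 352309) (nat_lit 21) (.e (nat_lit 57683) (nat_lit 155) .nil))) .nil))) (.nd (nat_lit 5) 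
(.lf (nat_lit 61406) (.g (nat_lit 1319) (.e (nat_lit 1562) (nat_lit 110) (.e (nat_lit 352272) (nat_lit 10) (.e (nat_lit 417796) (nat_lit 0) (.e (nat_lit 5410) (nat_lit 303) (.e (nat_lit 73773) (nat_lit 25) (.e (nat_lit 770058) (nat_lit 5) .nil)))))) (.g (nat_lit 0) .nil .nil))) 
(.lf (nat_lit 61438) (.g (nat_lit 2151) (.e (nat_lit 1562) (nat_lit 110) (.e (nat_lit 352309) (nat_lit 21) (.e (nat_lit 57872) (nat_lit 264) (.e (nat_lit 1221) (nat_lit 90) (.e (nat_lit 81939) (nat_lit 20) .nil))))) .nil))))))) (.nd (nat_lit 1) (.nd (nat_lit 2) (.nd (nat_lit 3) (.nd (nat_lit 4) (.nd (nat_lit 5) 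
(.lf (nat_lit 61377) (.g (nat_lit 1744) (.e (nat_lit 1560) (nat_lit 110) (.e (nat_lit 352315) (nat_lit 23) (.e (nat_lit 98350) (nat_lit 24) (.e (nat_lit 409646) (nat_lit 18) .nil)))) .nil)) 
(.lf (nat_lit 61409) (.g (nat_lit 1804) (.e (nat_lit 1562) (nat_lit 110) (.e (nat_lit 352272) (nat_lit 10) (.e (nat_lit 417811) (nat_lit 6) (.e (nat_lit 286753) (nat_lit 10) (.e (nat_lit 344177) (nat_lit 43) (.e (nat_lit 770055) (nat_lit 5) .nil)))))) (.g (nat_lit 6) .nil .nil)))) (.nd (nat_lit 5) 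
(.lf (nat_lit 61393) (.g (nat_lit 1518) (.e (nat_lit 1562) (nat_lit 110) (.e (nat_lit 352269) (nat_lit 7) (.e (nat_lit 245778) (nat_lit 6) (.e (nat_lit 188440) (nat_lit 20) (.e (nat_lit 3579) (nat_lit 223) (.e (nat_lit 745475) (nat_lit 0) .nil)))))) (.g (nat_lit 0) .nil .nil))) 
(.lf (nat_lit 61425) (.g (nat_lit 2550) (.e (nat_lit 1562) (nat_lit 110) (.e (nat_lit 352309) (nat_lit 21) (.e (nat_lit 57857) (nat_lit 254) (.e (nat_lit 163908) (nat_lit 12) (.e (nat_lit 426285) (nat_lit 10) (.e (nat_lit 434269) (nat_lit 36) (.e (nat_lit 639007) (nat_lit 13) .nil))))))) (.g (nat_lit 7) .nil .nil))))) (.nd (nat_lit 4) (.nd (nat_lit 5) 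
(.lf (nat_lit 61385) (.g (nat_lit 2221) (.e (nat_lit 1562) (nat_lit 110) (.e (nat_lit 352262) (nat_lit 0) (.e (nat_lit 3305) (nat_lit 202) (.e (nat_lit 573485) (nat_lit 13) (.e (nat_lit 65619) (nat_lit 10) (.e (nat_lit 344126) (nat_lit 25) (.e (nat_lit 548874) (nat_lit 5) .nil))))))) (.g (nat_lit 4) .nil .nil))) 
(.lf (nat_lit 61417) (.g (nat_lit 1119) (.e (nat_lit 1562) (nat_lit 110) (.e (nat_lit 352277) (nat_lit 11) (.e (nat_lit 426012) (nat_lit 0) (.e (nat_lit 7593) (nat_lit 407) .nil)))) .nil))) (.nd (nat_lit 5) 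
(.lf (nat_lit 61401) (.g (nat_lit 1548) (.e (nat_lit 1562) (nat_lit 110) (.e (nat_lit 352272) (nat_lit 10) (.e (nat_lit 417795) (nat_lit 0) (.e (nat_lit 5409) (nat_lit 303) (.e (nat_lit 73773) (nat_lit 25) (.e (nat_lit 770058) (nat_lit 5) .nil)))))) (.g (nat_lit 0) .nil .nil))) 
(.lf (nat_lit 61433) (.g (nat_lit 1065) (.e (nat_lit 1562) (nat_lit 110) (.e (nat_lit 352309) (nat_lit 21) (.e (nat_lit 57871) (nat_lit 264) (.e (nat_lit 1219) (nat_lit 90) .nil)))) .nil))))) (.nd (nat_lit 3) (.nd (nat_lit 4) (.nd (nat_lit 5) 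
(.lf (nat_lit 61381) (.g (nat_lit 2321) (.e (nat_lit 1561) (nat_lit 110) (.e (nat_lit 352309) (nat_lit 21) (.e (nat_lit 57872) (nat_lit 264) (.e (nat_lit 1221) (nat_lit 90) (.e (nat_lit 81959) (nat_lit 24) .nil))))) .nil)) 
(.lf (nat_lit 61413) (.g (nat_lit 2988) (.e (nat_lit 1562) (nat_lit 110) (.e (nat_lit 352273) (nat_lit 11) (.e (nat_lit 426343) (nat_lit 14) (.e (nat_lit 491560) (nat_lit 10) (.e (nat_lit 344177) (nat_lit 43) .nil))))) .nil))) (.nd (nat_lit 5) 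
(.lf (nat_lit 61397) (.g (nat_lit 386) (.e (nat_lit 1562) (nat_lit 110) (.e (nat_lit 352272) (nat_lit 10) (.e (nat_lit 417794) (nat_lit 0) (.e (nat_lit 5410) (nat_lit 303) .nil)))) .nil)) 
(.lf (nat_lit 61429) (.g (nat_lit 2518) (.e (nat_lit 1562) (nat_lit 110) (.e (nat_lit 352309) (nat_lit 21) (.e (nat_lit 57857) (nat_lit 254) (.e (nat_lit 163908) (nat_lit 12) (.e (nat_lit 426286) (nat_lit 10) (.e (nat_lit 434269) (nat_lit 36) (.e (nat_lit 639008) (nat_lit 13) .nil))))))) (.g (nat_lit 6) .nil .nil))))) (.nd (nat_lit 4) (.nd (nat_lit 5) 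
(.lf (nat_lit 61389) (.g (nat_lit 1434) (.e (nat_lit 1562) (nat_lit 110) (.e (nat_lit 352262) (nat_lit 0) (.e (nat_lit 3748) (nat_lit 228) (.e (nat_lit 786481) (nat_lit 30) .nil)))) .nil)) 
(.lf (nat_lit 61421) (.g (nat_lit 877) (.e (nat_lit 1562) (nat_lit 110) (.e (nat_lit 352309) (nat_lit 21) (.e (nat_lit 57655) (nat_lit 152) .nil))) .nil))) (.nd (nat_lit 5) 
(.lf (nat_lit 61405) (.g (nat_lit 1859) (.e (nat_lit 1562) (nat_lit 110) (.e (nat_lit 352272) (nat_lit 10) (.e (nat_lit 417796) (nat_lit 0) (.e (nat_lit 5409) (nat_lit 303) (.e (nat_lit 73773) (nat_lit 25) (.e (nat_lit 770058) (nat_lit 5) .nil)))))) (.g (nat_lit 0) .nil .nil))) 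
(.lf (nat_lit 61437) (.g (nat_lit 985) (.e (nat_lit 1562) (nat_lit 110) (.e (nat_lit 352309) (nat_lit 21) (.e (nat_lit 57872) (nat_lit 264) (.e (nat_lit 1221) (nat_lit 90) .nil)))) .nil)))))) (.nd (nat_lit 2) (.nd (nat_lit 3) (.nd (nat_lit 4) (.nd (nat_lit 5) 
(.lf (nat_lit 61379) (.g (nat_lit 2863) (.e (nat_lit 1560) (nat_lit 110) (.e (nat_lit 352315) (nat_lit 23) (.e (nat_lit 98350) (nat_lit 24) (.e (nat_lit 409649) (nat_lit 18) (.e (nat_lit 303121) (nat_lit 5) (.e (nat_lit 245784) (nat_lit 9) .nil)))))) (.g (nat_lit 0) .nil .nil))) 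
(.lf (nat_lit 61411) (.g (nat_lit 1879) (.e (nat_lit 1562) (nat_lit 110) (.e (nat_lit 352272) (nat_lit 10) (.e (nat_lit 417811) (nat_lit 6) (.e (nat_lit 286754) (nat_lit 10) (.e (nat_lit 344177) (nat_lit 43) (.e (nat_lit 770057) (nat_lit 5) .nil)))))) (.g (nat_lit 6) .nil .nil)))) (.nd (nat_lit 5) 
(.lf (nat_lit 61395) (.g (nat_lit 1069) (.e (nat_lit 1562) (nat_lit 110) (.e (nat_lit 352272) (nat_lit 10) (.e (nat_lit 417793) (nat_lit 0) (.e (nat_lit 5412) (nat_lit 303) (.e (nat_lit 73773) (nat_lit 25) (.e (nat_lit 770057) (nat_lit 5) .nil)))))) (.g (nat_lit 6) .nil .nil))) 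
(.lf (nat_lit 61427) (.g (nat_lit 1549) (.e (nat_lit 1562) (nat_lit 110) (.e (nat_lit 352309) (nat_lit 21) (.e (nat_lit 57857) (nat_lit 254) (.e (nat_lit 163908) (nat_lit 12) (.e (nat_lit 426286) (nat_lit 10) .nil))))) .nil)))) (.nd (nat_lit 4) (.nd (nat_lit 5) 
(.lf (nat_lit 61387) (.g (nat_lit 1917) (.e (nat_lit 1562) (nat_lit 110) (.e (nat_lit 352262) (nat_lit 0) (.e (nat_lit 3305) (nat_lit 202) (.e (nat_lit 573491) (nat_lit 15) (.e (nat_lit 81946) (nat_lit 20) .nil))))) .nil)) 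
(.lf (nat_lit 61419) (.g (nat_lit 1309) (.e (nat_lit 1562) (nat_lit 110) (.e (nat_lit 352277) (nat_lit 11) (.e (nat_lit 426344) (nat_lit 14) (.e (nat_lit 491559) (nat_lit 10) .nil)))) .nil))) (.nd (nat_lit 5) 
(.lf (nat_lit 61403) (.g (nat_lit 1149) (.e (nat_lit 1562) (nat_lit 110) (.e (nat_lit 352272) (nat_lit 10) (.e (nat_lit 417795) (nat_lit 0) (.e (nat_lit 5413) (nat_lit 303) (.e (nat_lit 73773) (nat_lit 25) (.e (nat_lit 770058) (nat_lit 5) .nil)))))) (.g (nat_lit 0) .nil .nil))) 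
(.lf (nat_lit 61435) (.g (nat_lit 921) (.e (nat_lit 1562) (nat_lit 110) (.e (nat_lit 352309) (nat_lit 21) (.e (nat_lit 57872) (nat_lit 264) (.e (nat_lit 1219) (nat_lit 90) .nil)))) .nil))))) (.nd (nat_lit 3) (.nd (nat_lit 4) (.nd (nat_lit 5) 
(.lf (nat_lit 61383) (.g (nat_lit 2598) (.e (nat_lit 1561) (nat_lit 110) (.e (nat_lit 352315) (nat_lit 23) (.e (nat_lit 98349) (nat_lit 24) (.e (nat_lit 409645) (nat_lit 18) (.e (nat_lit 303117) (nat_lit 2) .nil))))) .nil)) 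
(.lf (nat_lit 61415) (.g (nat_lit 1710) (.e (nat_lit 1562) (nat_lit 110) (.e (nat_lit 352277) (nat_lit 11) (.e (nat_lit 426011) (nat_lit 0) (.e (nat_lit 7593) (nat_lit 407) .nil)))) .nil))) (.nd (nat_lit 5) 
(.lf (nat_lit 61399) (.g (nat_lit 1110) (.e (nat_lit 1562) (nat_lit 110) (.e (nat_lit 352272) (nat_lit 10) (.e (nat_lit 417794) (nat_lit 0) (.e (nat_lit 5412) (nat_lit 303) (.e (nat_lit 73773) (nat_lit 25) (.e (nat_lit 770058) (nat_lit 5) .nil)))))) (.g (nat_lit 6) .nil .nil))) 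
(.lf (nat_lit 61431) (.g (nat_lit 1526) (.e (nat_lit 1562) (nat_lit 110) (.e (nat_lit 352309) (nat_lit 21) (.e (nat_lit 57870) (nat_lit 264) (.e (nat_lit 1220) (nat_lit 90) (.e (nat_lit 81938) (nat_lit 20) .nil))))) .nil)))) (.nd (nat_lit 4) (.nd (nat_lit 5) 
(.lf (nat_lit 61391) (.g (nat_lit 1114) (.e (nat_lit 1562) (nat_lit 110) (.e (nat_lit 352269) (nat_lit 7) (.e (nat_lit 245778) (nat_lit 6) (.e (nat_lit 188435) (nat_lit 20) (.e (nat_lit 3579) (nat_lit 223) (.e (nat_lit 745475) (nat_lit 0) .nil)))))) (.g (nat_lit 0) .nil .nil))) 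
(.lf (nat_lit 61423) (.g (nat_lit 864) (.e (nat_lit 1562) (nat_lit 110) (.e (nat_lit 352309) (nat_lit 21) (.e (nat_lit 57684) (nat_lit 155) .nil))) .nil))) (.nd (nat_lit 5) 
(.lf (nat_lit 61407) (.g (nat_lit 1406) (.e (nat_lit 1562) (nat_lit 110) (.e (nat_lit 352272) (nat_lit 10) (.e (nat_lit 417796) (nat_lit 0) (.e (nat_lit 5412) (nat_lit 303) (.e (nat_lit 73773) (nat_lit 25) (.e (nat_lit 770057) (nat_lit 5) .nil)))))) (.g (nat_lit 0) .nil .nil))) 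
(.lf (nat_lit 61439) (.g (nat_lit 2659) (.e (nat_lit 1562) (nat_lit 110) (.e (nat_lit 352309) (nat_lit 21) (.e (nat_lit 57872) (nat_lit 264) (.e (nat_lit 1221) (nat_lit 90) (.e (nat_lit 81947) (nat_lit 20) (.e (nat_lit 2006) (nat_lit 138) (.e (nat_lit 671748) (nat_lit 0) .nil))))))) (.g (nat_lit 5) .nil .nil)))))))))

noncomputable def tv842 : DT := (.nd (nat_lit 0) (.nd (nat_lit 1) (.nd (nat_lit 2) (.nd (nat_lit 3) (.nd (nat_lit 4) (.nd (nat_lit 5) (.nd (nat_lit 6) 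
(.lf (nat_lit 61440) (.g (nat_lit 1754) (.e (nat_lit 1562) (nat_lit 110) (.e (nat_lit 352309) (nat_lit 21) (.e (nat_lit 57872) (nat_lit 264) (.e (nat_lit 1221) (nat_lit 90) (.e (nat_lit 81959) (nat_lit 24) .nil))))) .nil)) 
(.lf (nat_lit 61504) (.g (nat_lit 752) (.e (nat_lit 1564) (nat_lit 110) (.e (nat_lit 352309) (nat_lit 21) (.e (nat_lit 57857) (nat_lit 254) .nil))) .nil))) (.nd (nat_lit 6) 
(.lf (nat_lit 61472) (.g (nat_lit 1469) (.e (nat_lit 1562) (nat_lit 110) (.e (nat_lit 352324) (nat_lit 26) (.e (nat_lit 147467) (nat_lit 9) (.e (nat_lit 314) (nat_lit 23) .nil)))) .nil)) 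
(.lf (nat_lit 61536) (.g (nat_lit 3090) (.e (nat_lit 1566) (nat_lit 110) (.e (nat_lit 352315) (nat_lit 23) (.e (nat_lit 98350) (nat_lit 24) (.e (nat_lit 409647) (nat_lit 18) (.e (nat_lit 303117) (nat_lit 2) .nil))))) .nil)))) (.nd (nat_lit 5) (.nd (nat_lit 6) 
(.lf (nat_lit 61456) (.g (nat_lit 3906) (.e (nat_lit 1562) (nat_lit 110) (.e (nat_lit 352315) (nat_lit 23) (.e (nat_lit 98389) (nat_lit 33) (.e (nat_lit 491560) (nat_lit 10) (.e (nat_lit 344126) (nat_lit 25) (.e (nat_lit 548874) (nat_lit 5) .nil)))))) (.g (nat_lit 6) .nil .nil))) 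
(.lf (nat_lit 61520) (.g (nat_lit 606) (.e (nat_lit 1565) (nat_lit 110) (.e (nat_lit 352315) (nat_lit 23) (.e (nat_lit 98349) (nat_lit 24) .nil))) .nil))) (.nd (nat_lit 6) 
(.lf (nat_lit 61488) (.g (nat_lit 1731) (.e (nat_lit 1563) (nat_lit 110) (.e (nat_lit 352313) (nat_lit 23) (.e (nat_lit 98350) (nat_lit 24) (.e (nat_lit 417536) (nat_lit 18) .nil)))) .nil)) 
(.lf (nat_lit 61552) (.g (nat_lit 1969) (.e (nat_lit 1567) (nat_lit 110) (.e (nat_lit 352318) (nat_lit 24) (.e (nat_lit 123183) (nat_lit 264) (.e (nat_lit 1222) (nat_lit 90) (.e (nat_lit 81933) (nat_lit 20) .nil))))) .nil))))) (.nd (nat_lit 4) (.nd (nat_lit 5) (.nd (nat_lit 6) 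
(.lf (nat_lit 61448) (.g (nat_lit 984) (.e (nat_lit 1562) (nat_lit 110) (.e (nat_lit 352312) (nat_lit 22) (.e (nat_lit 90133) (nat_lit 9) (.e (nat_lit 3105) (nat_lit 192) .nil)))) .nil)) 
(.lf (nat_lit 61512) (.g (nat_lit 3854) (.e (nat_lit 1564) (nat_lit 110) (.e (nat_lit 352315) (nat_lit 23) (.e (nat_lit 98349) (nat_lit 24) (.e (nat_lit 409645) (nat_lit 18) (.e (nat_lit 303117) (nat_lit 2) (.e (nat_lit 196630) (nat_lit 9) .nil)))))) (.g (nat_lit 5) .nil .nil)))) (.nd (nat_lit 6) 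
(.lf (nat_lit 61480) (.g (nat_lit 1568) (.e (nat_lit 1562) (nat_lit 110) (.e (nat_lit 352324) (nat_lit 26) (.e (nat_lit 147496) (nat_lit 11) (.e (nat_lit 24628) (nat_lit 9) .nil)))) .nil)) 
(.lf (nat_lit 61544) (.g (nat_lit 1552) (.e (nat_lit 1567) (nat_lit 110) (.e (nat_lit 352309) (nat_lit 21) (.e (nat_lit 57872) (nat_lit 264) (.e (nat_lit 1221) (nat_lit 90) .nil)))) .nil)))) (.nd (nat_lit 5) (.nd (nat_lit 6) 
(.lf (nat_lit 61464) (.g (nat_lit 1027) (.e (nat_lit 1562) (nat_lit 110) (.e (nat_lit 352318) (nat_lit 24) (.e (nat_lit 123185) (nat_lit 264) (.e (nat_lit 1201) (nat_lit 88) .nil)))) .nil)) 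
(.lf (nat_lit 61528) (.g (nat_lit 2541) (.e (nat_lit 1566) (nat_lit 110) (.e (nat_lit 352309) (nat_lit 21) (.e (nat_lit 57872) (nat_lit 264) (.e (nat_lit 1221) (nat_lit 90) (.e (nat_lit 81933) (nat_lit 20) .nil))))) .nil))) (.nd (nat_lit 6) 
(.lf (nat_lit 61496) (.g (nat_lit 4017) (.e (nat_lit 1563) (nat_lit 110) (.e (nat_lit 352315) (nat_lit 23) (.e (nat_lit 98350) (nat_lit 24) (.e (nat_lit 409649) (nat_lit 18) (.e (nat_lit 303117) (nat_lit 2) (.e (nat_lit 196630) (nat_lit 9) .nil)))))) (.g (nat_lit 5) .nil .nil))) 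
(.lf (nat_lit 61560) (.g (nat_lit 2677) (.e (nat_lit 1567) (nat_lit 110) (.e (nat_lit 352318) (nat_lit 24) (.e (nat_lit 123197) (nat_lit 266) (.e (nat_lit 57424) (nat_lit 14) (.e (nat_lit 352285) (nat_lit 20) .nil))))) .nil)))))) (.nd (nat_lit 3) (.nd (nat_lit 4) (.nd (nat_lit 5) (.nd (nat_lit 6) 
(.lf (nat_lit 61444) (.g (nat_lit 1918) (.e (nat_lit 1562) (nat_lit 110) (.e (nat_lit 352309) (nat_lit 21) (.e (nat_lit 57873) (nat_lit 264) (.e (nat_lit 1219) (nat_lit 90) .nil)))) .nil)) 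
(.lf (nat_lit 61508) (.g (nat_lit 2452) (.e (nat_lit 1564) (nat_lit 110) (.e (nat_lit 352309) (nat_lit 21) (.e (nat_lit 57872) (nat_lit 264) (.e (nat_lit 1221) (nat_lit 90) (.e (nat_lit 81931) (nat_lit 20) .nil))))) .nil))) (.nd (nat_lit 6) 
(.lf (nat_lit 61476) (.g (nat_lit 2552) (.e (nat_lit 1562) (nat_lit 110) (.e (nat_lit 352324) (nat_lit 26) (.e (nat_lit 147495) (nat_lit 11) (.e (nat_lit 24628) (nat_lit 9) (.e (nat_lit 335878) (nat_lit 0) .nil))))) .nil)) 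
(.lf (nat_lit 61540) (.g (nat_lit 2036) (.e (nat_lit 1567) (nat_lit 110) (.e (nat_lit 352297) (nat_lit 20) (.e (nat_lit 1842) (nat_lit 123) (.e (nat_lit 548889) (nat_lit 9) (.e (nat_lit 65583) (nat_lit 7) (.e (nat_lit 319519) (nat_lit 12) (.e (nat_lit 32774) (nat_lit 5) .nil))))))) (.g (nat_lit 5) .nil .nil))))) (.nd (nat_lit 5) (.nd (nat_lit 6) 
(.lf (nat_lit 61460) (.g (nat_lit 2380) (.e (nat_lit 1562) (nat_lit 110) (.e (nat_lit 352318) (nat_lit 24) (.e (nat_lit 123182) (nat_lit 264) (.e (nat_lit 1224) (nat_lit 90) (.e (nat_lit 81946) (nat_lit 20) .nil))))) .nil)) 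
(.lf (nat_lit 61524) (.g (nat_lit 752) (.e (nat_lit 1566) (nat_lit 110) (.e (nat_lit 352309) (nat_lit 21) (.e (nat_lit 57857) (nat_lit 254) .nil))) .nil))) (.nd (nat_lit 6) 
(.lf (nat_lit 61492) (.g (nat_lit 4416) (.e (nat_lit 1563) (nat_lit 110) (.e (nat_lit 352315) (nat_lit 23) (.e (nat_lit 98350) (nat_lit 24) (.e (nat_lit 409645) (nat_lit 18) (.e (nat_lit 303117) (nat_lit 2) (.e (nat_lit 196630) (nat_lit 9) .nil)))))) (.g (nat_lit 5) .nil .nil))) 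
(.lf (nat_lit 61556) (.g (nat_lit 651) (.e (nat_lit 1567) (nat_lit 110) (.e (nat_lit 352318) (nat_lit 24) (.e (nat_lit 123185) (nat_lit 264) .nil))) .nil))))) (.nd (nat_lit 4) (.nd (nat_lit 5) (.nd (nat_lit 6) 
(.lf (nat_lit 61452) (.g (nat_lit 2322) (.e (nat_lit 1562) (nat_lit 110) (.e (nat_lit 352315) (nat_lit 23) (.e (nat_lit 98389) (nat_lit 33) (.e (nat_lit 491544) (nat_lit 7) (.e (nat_lit 319519) (nat_lit 12) (.e (nat_lit 32774) (nat_lit 5) .nil)))))) (.g (nat_lit 4) .nil .nil))) 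
(.lf (nat_lit 61516) (.g (nat_lit 573) (.e (nat_lit 1564) (nat_lit 110) (.e (nat_lit 352322) (nat_lit 26) (.e (nat_lit 147495) (nat_lit 11) .nil))) .nil))) (.nd (nat_lit 6) 
(.lf (nat_lit 61484) (.g (nat_lit 2272) (.e (nat_lit 1563) (nat_lit 110) (.e (nat_lit 352309) (nat_lit 21) (.e (nat_lit 57872) (nat_lit 264) (.e (nat_lit 1221) (nat_lit 90) (.e (nat_lit 81959) (nat_lit 24) .nil))))) .nil)) 
(.lf (nat_lit 61548) (.g (nat_lit 2208) (.e (nat_lit 1567) (nat_lit 110) (.e (nat_lit 352318) (nat_lit 24) (.e (nat_lit 123182) (nat_lit 264) (.e (nat_lit 1222) (nat_lit 90) (.e (nat_lit 81933) (nat_lit 20) (.e (nat_lit 1998) (nat_lit 137) (.e (nat_lit 663554) (nat_lit 0) .nil))))))) (.g (nat_lit 4) .nil .nil))))) (.nd (nat_lit 5) (.nd (nat_lit 6) 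
(.lf (nat_lit 61468) (.g (nat_lit 2718) (.e (nat_lit 1562) (nat_lit 110) (.e (nat_lit 352318) (nat_lit 24) (.e (nat_lit 123197) (nat_lit 266) (.e (nat_lit 57427) (nat_lit 15) (.e (nat_lit 360486) (nat_lit 18) (.e (nat_lit 671748) (nat_lit 0) .nil)))))) (.g (nat_lit 6) .nil .nil))) 
(.lf (nat_lit 61532) (.g (nat_lit 1002) (.e (nat_lit 1566) (nat_lit 110) (.e (nat_lit 352315) (nat_lit 23) (.e (nat_lit 98325) (nat_lit 17) (.e (nat_lit 7008) (nat_lit 377) .nil)))) .nil))) (.nd (nat_lit 6) 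
(.lf (nat_lit 61500) (.g (nat_lit 1732) (.e (nat_lit 1564) (nat_lit 110) (.e (nat_lit 352293) (nat_lit 20) (.e (nat_lit 1774) (nat_lit 118) (.e (nat_lit 507923) (nat_lit 6) (.e (nat_lit 286753) (nat_lit 10) (.e (nat_lit 344126) (nat_lit 25) (.e (nat_lit 548872) (nat_lit 5) .nil))))))) (.g (nat_lit 7) .nil .nil))) 
(.lf (nat_lit 61564) (.g (nat_lit 3731) (.e (nat_lit 1567) (nat_lit 110) (.e (nat_lit 352324) (nat_lit 26) (.e (nat_lit 147494) (nat_lit 11) (.e (nat_lit 24665) (nat_lit 14) (.e (nat_lit 401414) (nat_lit 0) (.e (nat_lit 3459) (nat_lit 216) (.e (nat_lit 688153) (nat_lit 13) .nil))))))) (.g (nat_lit 6) .nil .nil)))))))) 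
(.nd (nat_lit 2) (.nd (nat_lit 3) (.nd (nat_lit 4) (.nd (nat_lit 5) (.nd (nat_lit 6) 
(.lf (nat_lit 61442) (.g (nat_lit 1926) (.e (nat_lit 1562) (nat_lit 110) (.e (nat_lit 352309) (nat_lit 21) (.e (nat_lit 57873) (nat_lit 264) (.e (nat_lit 1199) (nat_lit 88) .nil)))) .nil)) 
(.lf (nat_lit 61506) (.g (nat_lit 2253) (.e (nat_lit 1564) (nat_lit 110) (.e (nat_lit 352309) (nat_lit 21) (.e (nat_lit 57872) (nat_lit 264) (.e (nat_lit 1219) (nat_lit 90) (.e (nat_lit 81935) (nat_lit 20) .nil))))) .nil))) (.nd (nat_lit 6) 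
(.lf (nat_lit 61474) (.g (nat_lit 596) (.e (nat_lit 1562) (nat_lit 110) (.e (nat_lit 352324) (nat_lit 26) (.e (nat_lit 147494) (nat_lit 11) .nil))) .nil)) 
(.lf (nat_lit 61538) (.g (nat_lit 1715) (.e (nat_lit 1567) (nat_lit 110) (.e (nat_lit 352295) (nat_lit 20) (.e (nat_lit 1840) (nat_lit 123) (.e (nat_lit 548889) (nat_lit 9) (.e (nat_lit 65586) (nat_lit 7) (.e (nat_lit 319519) (nat_lit 12) (.e (nat_lit 32774) (nat_lit 5) .nil))))))) (.g (nat_lit 7) .nil .nil))))) (.nd (nat_lit 5) (.nd (nat_lit 6) 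
(.lf (nat_lit 61458) (.g (nat_lit 2546) (.e (nat_lit 1562) (nat_lit 110) (.e (nat_lit 352318) (nat_lit 24) (.e (nat_lit 123182) (nat_lit 264) (.e (nat_lit 1201) (nat_lit 88) (.e (nat_lit 65617) (nat_lit 10) (.e (nat_lit 344169) (nat_lit 40) (.e (nat_lit 671747) (nat_lit 0) .nil))))))) (.g (nat_lit 4) .nil .nil))) 
(.lf (nat_lit 61522) (.g (nat_lit 2489) (.e (nat_lit 1566) (nat_lit 110) (.e (nat_lit 352307) (nat_lit 21) (.e (nat_lit 57681) (nat_lit 155) (.e (nat_lit 122919) (nat_lit 15) (.e (nat_lit 360451) (nat_lit 0) .nil))))) .nil))) (.nd (nat_lit 6) 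
(.lf (nat_lit 61490) (.g (nat_lit 5439) (.e (nat_lit 1563) (nat_lit 110) (.e (nat_lit 352315) (nat_lit 23) (.e (nat_lit 98349) (nat_lit 24) (.e (nat_lit 409646) (nat_lit 18) (.e (nat_lit 303117) (nat_lit 2) (.e (nat_lit 196630) (nat_lit 9) .nil)))))) (.g (nat_lit 0) .nil .nil))) 
(.lf (nat_lit 61554) (.g (nat_lit 2133) (.e (nat_lit 1567) (nat_lit 110) (.e (nat_lit 352318) (nat_lit 24) (.e (nat_lit 123184) (nat_lit 264) (.e (nat_lit 1222) (nat_lit 90) (.e (nat_lit 81933) (nat_lit 20) .nil))))) .nil))))) (.nd (nat_lit 4) (.nd (nat_lit 5) (.nd (nat_lit 6) 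
(.lf (nat_lit 61450) (.g (nat_lit 685) (.e (nat_lit 1562) (nat_lit 110) (.e (nat_lit 352315) (nat_lit 23) (.e (nat_lit 98319) (nat_lit 17) .nil))) .nil)) 
(.lf (nat_lit 61514) (.g (nat_lit 1937) (.e (nat_lit 1564) (nat_lit 110) (.e (nat_lit 352318) (nat_lit 24) (.e (nat_lit 123182) (nat_lit 264) (.e (nat_lit 1222) (nat_lit 90) (.e (nat_lit 81935) (nat_lit 20) .nil))))) .nil))) (.nd (nat_lit 6) 
(.lf (nat_lit 61482) (.g (nat_lit 2614) (.e (nat_lit 1562) (nat_lit 110) (.e (nat_lit 352324) (nat_lit 26) (.e (nat_lit 147496) (nat_lit 11) (.e (nat_lit 24640) (nat_lit 10) (.e (nat_lit 344177) (nat_lit 43) .nil))))) .nil)) 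
(.lf (nat_lit 61546) (.g (nat_lit 2497) (.e (nat_lit 1567) (nat_lit 110) (.e (nat_lit 352315) (nat_lit 23) (.e (nat_lit 98349) (nat_lit 24) (.e (nat_lit 409644) (nat_lit 18) (.e (nat_lit 303117) (nat_lit 2) (.e (nat_lit 196630) (nat_lit 9) .nil)))))) (.g (nat_lit 4) .nil .nil))))) (.nd (nat_lit 5) (.nd (nat_lit 6) 
(.lf (nat_lit 61466) (.g (nat_lit 642) (.e (nat_lit 1562) (nat_lit 110) (.e (nat_lit 352318) (nat_lit 24) (.e (nat_lit 123197) (nat_lit 266) .nil))) .nil)) 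
(.lf (nat_lit 61530) (.g (nat_lit 1747) (.e (nat_lit 1566) (nat_lit 110) (.e (nat_lit 352309) (nat_lit 21) (.e (nat_lit 57873) (nat_lit 264) (.e (nat_lit 1221) (nat_lit 90) .nil)))) .nil))) (.nd (nat_lit 6) 
(.lf (nat_lit 61498) (.g (nat_lit 2228) (.e (nat_lit 1563) (nat_lit 110) (.e (nat_lit 352318) (nat_lit 24) (.e (nat_lit 123184) (nat_lit 264) (.e (nat_lit 1222) (nat_lit 90) (.e (nat_lit 81935) (nat_lit 20) (.e (nat_lit 1998) (nat_lit 137) (.e (nat_lit 663554) (nat_lit 0) .nil))))))) (.g (nat_lit 4) .nil .nil))) 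
(.lf (nat_lit 61562) (.g (nat_lit 3404) (.e (nat_lit 1567) (nat_lit 110) (.e (nat_lit 352324) (nat_lit 26) (.e (nat_lit 147494) (nat_lit 11) (.e (nat_lit 24665) (nat_lit 14) (.e (nat_lit 401413) (nat_lit 0) (.e (nat_lit 3459) (nat_lit 216) (.e (nat_lit 688152) (nat_lit 13) .nil))))))) (.g (nat_lit 7) .nil .nil))))))) (.nd (nat_lit 3) (.nd (nat_lit 4) (.nd (nat_lit 5) (.nd (nat_lit 6) 
(.lf (nat_lit 61446) (.g (nat_lit 1495) (.e (nat_lit 1562) (nat_lit 110) (.e (nat_lit 352312) (nat_lit 22) (.e (nat_lit 90133) (nat_lit 9) (.e (nat_lit 2397) (nat_lit 157) (.e (nat_lit 7590) (nat_lit 407) (.e (nat_lit 73751) (nat_lit 7) (.e (nat_lit 548873) (nat_lit 5) .nil))))))) (.g (nat_lit 4) .nil .nil))) 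
(.lf (nat_lit 61510) (.g (nat_lit 347) (.e (nat_lit 1564) (nat_lit 110) (.e (nat_lit 352313) (nat_lit 23) (.e (nat_lit 98389) (nat_lit 33) .nil))) .nil))) (.nd (nat_lit 6) 
(.lf (nat_lit 61478) (.g (nat_lit 2547) (.e (nat_lit 1562) (nat_lit 110) (.e (nat_lit 352324) (nat_lit 26) (.e (nat_lit 147495) (nat_lit 11) (.e (nat_lit 24640) (nat_lit 10) (.e (nat_lit 344177) (nat_lit 43) .nil))))) .nil)) 
(.lf (nat_lit 61542) (.g (nat_lit 1492) (.e (nat_lit 1567) (nat_lit 110) (.e (nat_lit 352303) (nat_lit 20) (.e (nat_lit 1841) (nat_lit 123) (.e (nat_lit 548889) (nat_lit 9) (.e (nat_lit 65583) (nat_lit 7) (.e (nat_lit 319519) (nat_lit 12) (.e (nat_lit 32774) (nat_lit 5) .nil))))))) (.g (nat_lit 6) .nil .nil))))) (.nd (nat_lit 5) (.nd (nat_lit 6) 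
(.lf (nat_lit 61462) (.g (nat_lit 2205) (.e (nat_lit 1562) (nat_lit 110) (.e (nat_lit 352318) (nat_lit 24) (.e (nat_lit 123184) (nat_lit 264) (.e (nat_lit 1224) (nat_lit 90) (.e (nat_lit 81946) (nat_lit 20) (.e (nat_lit 2005) (nat_lit 138) (.e (nat_lit 671748) (nat_lit 0) .nil))))))) (.g (nat_lit 5) .nil .nil))) 
(.lf (nat_lit 61526) (.g (nat_lit 2234) (.e (nat_lit 1566) (nat_lit 110) (.e (nat_lit 352309) (nat_lit 21) (.e (nat_lit 57872) (nat_lit 264) (.e (nat_lit 1219) (nat_lit 90) (.e (nat_lit 81933) (nat_lit 20) .nil))))) .nil))) (.nd (nat_lit 6) 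
(.lf (nat_lit 61494) (.g (nat_lit 3469) (.e (nat_lit 1563) (nat_lit 110) (.e (nat_lit 352315) (nat_lit 23) (.e (nat_lit 98350) (nat_lit 24) (.e (nat_lit 409647) (nat_lit 18) (.e (nat_lit 303117) (nat_lit 2) (.e (nat_lit 196630) (nat_lit 9) .nil)))))) (.g (nat_lit 4) .nil .nil))) 
(.lf (nat_lit 61558) (.g (nat_lit 1913) (.e (nat_lit 1567) (nat_lit 110) (.e (nat_lit 352318) (nat_lit 24) (.e (nat_lit 123185) (nat_lit 264) (.e (nat_lit 1222) (nat_lit 90) (.e (nat_lit 81933) (nat_lit 20) .nil))))) .nil))))) (.nd (nat_lit 4) (.nd (nat_lit 5) (.nd (nat_lit 6) 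
(.lf (nat_lit 61454) (.g (nat_lit 2368) (.e (nat_lit 1562) (nat_lit 110) (.e (nat_lit 352315) (nat_lit 23) (.e (nat_lit 98389) (nat_lit 33) (.e (nat_lit 491559) (nat_lit 10) (.e (nat_lit 344126) (nat_lit 25) (.e (nat_lit 548873) (nat_lit 5) .nil)))))) (.g (nat_lit 4) .nil .nil))) 
(.lf (nat_lit 61518) (.g (nat_lit 728) (.e (nat_lit 1564) (nat_lit 110) (.e (nat_lit 352324) (nat_lit 26) (.e (nat_lit 147495) (nat_lit 11) .nil))) .nil))) (.nd (nat_lit 6) 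
(.lf (nat_lit 61486) (.g (nat_lit 3804) (.e (nat_lit 1563) (nat_lit 110) (.e (nat_lit 352313) (nat_lit 23) (.e (nat_lit 98350) (nat_lit 24) (.e (nat_lit 409645) (nat_lit 18) (.e (nat_lit 303117) (nat_lit 2) (.e (nat_lit 196630) (nat_lit 9) .nil)))))) (.g (nat_lit 5) .nil .nil))) 
(.lf (nat_lit 61550) (.g (nat_lit 1369) (.e (nat_lit 1567) (nat_lit 110) (.e (nat_lit 352318) (nat_lit 24) (.e (nat_lit 123182) (nat_lit 264) (.e (nat_lit 7936) (nat_lit 90) .nil)))) .nil)))) (.nd (nat_lit 5) (.nd (nat_lit 6) 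
(.lf (nat_lit 61470) (.g (nat_lit 1760) (.e (nat_lit 1562) (nat_lit 110) (.e (nat_lit 352318) (nat_lit 24) (.e (nat_lit 123198) (nat_lit 266) (.e (nat_lit 57428) (nat_lit 15) (.e (nat_lit 360486) (nat_lit 18) .nil))))) .nil)) 
(.lf (nat_lit 61534) (.g (nat_lit 4909) (.e (nat_lit 1566) (nat_lit 110) (.e (nat_lit 352315) (nat_lit 23) (.e (nat_lit 98349) (nat_lit 24) (.e (nat_lit 409646) (nat_lit 18) (.e (nat_lit 303117) (nat_lit 2) (.e (nat_lit 196630) (nat_lit 9) .nil)))))) (.g (nat_lit 0) .nil .nil)))) (.nd (nat_lit 6) 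
(.lf (nat_lit 61502) (.g (nat_lit 1564) (.e (nat_lit 1564) (nat_lit 110) (.e (nat_lit 352297) (nat_lit 20) (.e (nat_lit 1842) (nat_lit 123) (.e (nat_lit 548889) (nat_lit 9) (.e (nat_lit 65586) (nat_lit 7) .nil))))) .nil)) 
(.lf (nat_lit 61566) (.g (nat_lit 2593) (.e (nat_lit 1567) (nat_lit 110) (.e (nat_lit 352324) (nat_lit 26) (.e (nat_lit 147495) (nat_lit 11) (.e (nat_lit 24665) (nat_lit 14) (.e (nat_lit 401413) (nat_lit 0) .nil))))) .nil)))))))) (.nd (nat_lit 1) (.nd (nat_lit 2) (.nd (nat_lit 3) (.nd (nat_lit 4) (.nd (nat_lit 5) (.nd (nat_lit 6) 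
(.lf (nat_lit 61441) (.g (nat_lit 2017) (.e (nat_lit 1562) (nat_lit 110) (.e (nat_lit 352309) (nat_lit 21) (.e (nat_lit 57873) (nat_lit 264) (.e (nat_lit 1190) (nat_lit 88) .nil)))) .nil)) 
(.lf (nat_lit 61505) (.g (nat_lit 1502) (.e (nat_lit 1564) (nat_lit 110) (.e (nat_lit 352309) (nat_lit 21) (.e (nat_lit 57872) (nat_lit 264) (.e (nat_lit 1219) (nat_lit 90) .nil)))) .nil))) (.nd (nat_lit 6) 
(.lf (nat_lit 61473) (.g (nat_lit 2289) (.e (nat_lit 1562) (nat_lit 110) (.e (nat_lit 352324) (nat_lit 26) (.e (nat_lit 147467) (nat_lit 9) (.e (nat_lit 314) (nat_lit 23) (.e (nat_lit 352297) (nat_lit 20) .nil))))) .nil)) 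
(.lf (nat_lit 61537) (.g (nat_lit 988) (.e (nat_lit 1566) (nat_lit 110) (.e (nat_lit 352318) (nat_lit 24) (.e (nat_lit 123183) (nat_lit 264) (.e (nat_lit 1222) (nat_lit 90) .nil)))) .nil)))) (.nd (nat_lit 5) (.nd (nat_lit 6) 
(.lf (nat_lit 61457) (.g (nat_lit 4476) (.e (nat_lit 1562) (nat_lit 110) (.e (nat_lit 352318) (nat_lit 24) (.e (nat_lit 123182) (nat_lit 264) (.e (nat_lit 1201) (nat_lit 88) (.e (nat_lit 65610) (nat_lit 10) (.e (nat_lit 344169) (nat_lit 40) (.e (nat_lit 671748) (nat_lit 0) .nil))))))) (.g (nat_lit 0) .nil .nil))) 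
(.lf (nat_lit 61521) (.g (nat_lit 1665) (.e (nat_lit 1565) (nat_lit 110) (.e (nat_lit 352318) (nat_lit 24) (.e (nat_lit 123182) (nat_lit 264) (.e (nat_lit 1224) (nat_lit 90) .nil)))) .nil))) (.nd (nat_lit 6) 
(.lf (nat_lit 61489) (.g (nat_lit 4920) (.e (nat_lit 1563) (nat_lit 110) (.e (nat_lit 352315) (nat_lit 23) (.e (nat_lit 98349) (nat_lit 24) (.e (nat_lit 409645) (nat_lit 18) (.e (nat_lit 303117) (nat_lit 2) (.e (nat_lit 196630) (nat_lit 9) .nil)))))) (.g (nat_lit 6) .nil .nil))) 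
(.lf (nat_lit 61553) (.g (nat_lit 1122) (.e (nat_lit 1567) (nat_lit 110) (.e (nat_lit 352318) (nat_lit 24) (.e (nat_lit 123183) (nat_lit 264) (.e (nat_lit 7936) (nat_lit 90) .nil)))) .nil))))) (.nd (nat_lit 4) (.nd (nat_lit 5) (.nd (nat_lit 6) 
(.lf (nat_lit 61449) (.g (nat_lit 406) (.e (nat_lit 1562) (nat_lit 110) (.e (nat_lit 352312) (nat_lit 22) (.e (nat_lit 90165) (nat_lit 12) .nil))) .nil)) 
(.lf (nat_lit 61513) (.g (nat_lit 3194) (.e (nat_lit 1564) (nat_lit 110) (.e (nat_lit 352315) (nat_lit 23) (.e (nat_lit 98350) (nat_lit 24) (.e (nat_lit 409645) (nat_lit 18) (.e (nat_lit 303117) (nat_lit 2) .nil))))) .nil))) (.nd (nat_lit 6) 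
(.lf (nat_lit 61481) (.g (nat_lit 1540) (.e (nat_lit 1562) (nat_lit 110) (.e (nat_lit 352324) (nat_lit 26) (.e (nat_lit 147496) (nat_lit 11) (.e (nat_lit 24639) (nat_lit 10) .nil)))) .nil)) 
(.lf (nat_lit 61545) (.g (nat_lit 796) (.e (nat_lit 1567) (nat_lit 110) (.e (nat_lit 352315) (nat_lit 23) (.e (nat_lit 98349) (nat_lit 24) .nil))) .nil)))) (.nd (nat_lit 5) (.nd (nat_lit 6) 
(.lf (nat_lit 61465) (.g (nat_lit 2312) (.e (nat_lit 1562) (nat_lit 110) (.e (nat_lit 352318) (nat_lit 24) (.e (nat_lit 123185) (nat_lit 264) (.e (nat_lit 1222) (nat_lit 90) (.e (nat_lit 81943) (nat_lit 20) (.e (nat_lit 2005) (nat_lit 138) (.e (nat_lit 671748) (nat_lit 0) .nil))))))) (.g (nat_lit 5) .nil .nil))) 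
(.lf (nat_lit 61529) (.g (nat_lit 1716) (.e (nat_lit 1566) (nat_lit 110) (.e (nat_lit 352309) (nat_lit 21) (.e (nat_lit 57873) (nat_lit 264) (.e (nat_lit 1219) (nat_lit 90) .nil)))) .nil))) (.nd (nat_lit 6) 
(.lf (nat_lit 61497) (.g (nat_lit 2333) (.e (nat_lit 1563) (nat_lit 110) (.e (nat_lit 352318) (nat_lit 24) (.e (nat_lit 123182) (nat_lit 264) (.e (nat_lit 1222) (nat_lit 90) (.e (nat_lit 81935) (nat_lit 20) (.e (nat_lit 1998) (nat_lit 137) (.e (nat_lit 663554) (nat_lit 0) .nil))))))) (.g (nat_lit 4) .nil .nil))) 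
(.lf (nat_lit 61561) (.g (nat_lit 2607) (.e (nat_lit 1567) (nat_lit 110) (.e (nat_lit 352318) (nat_lit 24) (.e (nat_lit 123198) (nat_lit 266) (.e (nat_lit 57424) (nat_lit 14) (.e (nat_lit 352285) (nat_lit 20) .nil))))) .nil)))))) (.nd (nat_lit 3) (.nd (nat_lit 4) (.nd (nat_lit 5) (.nd (nat_lit 6) 
(.lf (nat_lit 61445) (.g (nat_lit 1949) (.e (nat_lit 1562) (nat_lit 110) (.e (nat_lit 352309) (nat_lit 21) (.e (nat_lit 57873) (nat_lit 264) (.e (nat_lit 1221) (nat_lit 90) .nil)))) .nil)) 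
(.lf (nat_lit 61509) (.g (nat_lit 52) (.e (nat_lit 1564) (nat_lit 110) (.e (nat_lit 352311) (nat_lit 22) (.e (nat_lit 90165) (nat_lit 12) .nil))) .nil))) (.nd (nat_lit 6) 
(.lf (nat_lit 61477) (.g (nat_lit 2318) (.e (nat_lit 1562) (nat_lit 110) (.e (nat_lit 352324) (nat_lit 26) (.e (nat_lit 147495) (nat_lit 11) (.e (nat_lit 24639) (nat_lit 10) (.e (nat_lit 344177) (nat_lit 43) .nil))))) .nil)) 
(.lf (nat_lit 61541) (.g (nat_lit 2037) (.e (nat_lit 1567) (nat_lit 110) (.e (nat_lit 352297) (nat_lit 20) (.e (nat_lit 1842) (nat_lit 123) (.e (nat_lit 548889) (nat_lit 9) (.e (nat_lit 65586) (nat_lit 7) (.e (nat_lit 319519) (nat_lit 12) (.e (nat_lit 32774) (nat_lit 5) .nil))))))) (.g (nat_lit 5) .nil .nil))))) (.nd (nat_lit 5) (.nd (nat_lit 6) 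
(.lf (nat_lit 61461) (.g (nat_lit 997) (.e (nat_lit 1562) (nat_lit 110) (.e (nat_lit 352318) (nat_lit 24) (.e (nat_lit 123183) (nat_lit 264) (.e (nat_lit 1222) (nat_lit 90) .nil)))) .nil)) 
(.lf (nat_lit 61525) (.g (nat_lit 1425) (.e (nat_lit 1566) (nat_lit 110) (.e (nat_lit 352309) (nat_lit 21) (.e (nat_lit 57872) (nat_lit 264) (.e (nat_lit 1219) (nat_lit 90) .nil)))) .nil))) (.nd (nat_lit 6) 
(.lf (nat_lit 61493) (.g (nat_lit 5090) (.e (nat_lit 1563) (nat_lit 110) (.e (nat_lit 352315) (nat_lit 23) (.e (nat_lit 98350) (nat_lit 24) (.e (nat_lit 409646) (nat_lit 18) (.e (nat_lit 303117) (nat_lit 2) (.e (nat_lit 196630) (nat_lit 9) .nil)))))) (.g (nat_lit 6) .nil .nil))) 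
(.lf (nat_lit 61557) (.g (nat_lit 950) (.e (nat_lit 1567) (nat_lit 110) (.e (nat_lit 352318) (nat_lit 24) (.e (nat_lit 123185) (nat_lit 264) (.e (nat_lit 1222) (nat_lit 90) .nil)))) .nil))))) (.nd (nat_lit 4) (.nd (nat_lit 5) (.nd (nat_lit 6) 
(.lf (nat_lit 61453) (.g (nat_lit 3157) (.e (nat_lit 1562) (nat_lit 110) (.e (nat_lit 352315) (nat_lit 23) (.e (nat_lit 98389) (nat_lit 33) (.e (nat_lit 491558) (nat_lit 10) (.e (nat_lit 344126) (nat_lit 25) (.e (nat_lit 548873) (nat_lit 5) .nil)))))) (.g (nat_lit 6) .nil .nil))) 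
(.lf (nat_lit 61517) (.g (nat_lit 2700) (.e (nat_lit 1564) (nat_lit 110) (.e (nat_lit 352322) (nat_lit 26) (.e (nat_lit 147495) (nat_lit 11) (.e (nat_lit 24640) (nat_lit 10) (.e (nat_lit 344177) (nat_lit 43) .nil))))) .nil))) (.nd (nat_lit 6) 
(.lf (nat_lit 61485) (.g (nat_lit 2515) (.e (nat_lit 1563) (nat_lit 110) (.e (nat_lit 352313) (nat_lit 23) (.e (nat_lit 98350) (nat_lit 24) (.e (nat_lit 409643) (nat_lit 18) (.e (nat_lit 303117) (nat_lit 2) (.e (nat_lit 196630) (nat_lit 9) .nil)))))) (.g (nat_lit 4) .nil .nil))) 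
(.lf (nat_lit 61549) (.g (nat_lit 1831) (.e (nat_lit 1567) (nat_lit 110) (.e (nat_lit 352318) (nat_lit 24) (.e (nat_lit 123182) (nat_lit 264) (.e (nat_lit 1222) (nat_lit 90) (.e (nat_lit 81935) (nat_lit 20) .nil))))) .nil)))) (.nd (nat_lit 5) (.nd (nat_lit 6) 
(.lf (nat_lit 61469) (.g (nat_lit 1649) (.e (nat_lit 1562) (nat_lit 110) (.e (nat_lit 352318) (nat_lit 24) (.e (nat_lit 123198) (nat_lit 266) (.e (nat_lit 57426) (nat_lit 15) (.e (nat_lit 360486) (nat_lit 18) (.e (nat_lit 671748) (nat_lit 0) .nil)))))) (.g (nat_lit 4) .nil .nil))) 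
(.lf (nat_lit 61533) (.g (nat_lit 4616) (.e (nat_lit 1566) (nat_lit 110) (.e (nat_lit 352315) (nat_lit 23) (.e (nat_lit 98349) (nat_lit 24) (.e (nat_lit 409645) (nat_lit 18) (.e (nat_lit 303117) (nat_lit 2) (.e (nat_lit 196630) (nat_lit 9) .nil)))))) (.g (nat_lit 6) .nil .nil)))) (.nd (nat_lit 6) 
(.lf (nat_lit 61501) (.g (nat_lit 1715) (.e (nat_lit 1564) (nat_lit 110) (.e (nat_lit 352293) (nat_lit 20) (.e (nat_lit 1774) (nat_lit 118) (.e (nat_lit 507923) (nat_lit 6) (.e (nat_lit 286756) (nat_lit 10) (.e (nat_lit 344126) (nat_lit 25) (.e (nat_lit 548872) (nat_lit 5) .nil))))))) (.g (nat_lit 7) .nil .nil))) 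
(.lf (nat_lit 61565) (.g (nat_lit 731) (.e (nat_lit 1567) (nat_lit 110) (.e (nat_lit 352324) (nat_lit 26) (.e (nat_lit 147495) (nat_lit 11) .nil))) .nil))))))) (.nd (nat_lit 2) (.nd (nat_lit 3) (.nd (nat_lit 4) (.nd (nat_lit 5) (.nd (nat_lit 6) 
(.lf (nat_lit 61443) (.g (nat_lit 1931) (.e (nat_lit 1562) (nat_lit 110) (.e (nat_lit 352309) (nat_lit 21) (.e (nat_lit 57873) (nat_lit 264) (.e (nat_lit 1200) (nat_lit 88) .nil)))) .nil)) 
(.lf (nat_lit 61507) (.g (nat_lit 1552) (.e (nat_lit 1564) (nat_lit 110) (.e (nat_lit 352309) (nat_lit 21) (.e (nat_lit 57872) (nat_lit 264) (.e (nat_lit 1221) (nat_lit 90) .nil)))) .nil))) (.nd (nat_lit 6) 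
(.lf (nat_lit 61475) (.g (nat_lit 2055) (.e (nat_lit 1562) (nat_lit 110) (.e (nat_lit 352324) (nat_lit 26) (.e (nat_lit 147494) (nat_lit 11) (.e (nat_lit 24665) (nat_lit 14) (.e (nat_lit 401413) (nat_lit 0) .nil))))) .nil)) 
(.lf (nat_lit 61539) (.g (nat_lit 1030) (.e (nat_lit 1567) (nat_lit 110) (.e (nat_lit 352297) (nat_lit 20) (.e (nat_lit 1841) (nat_lit 123) (.e (nat_lit 548889) (nat_lit 9) (.e (nat_lit 65583) (nat_lit 7) (.e (nat_lit 319519) (nat_lit 12) (.e (nat_lit 32774) (nat_lit 5) .nil))))))) (.g (nat_lit 4) .nil .nil))))) (.nd (nat_lit 5) (.nd (nat_lit 6) 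
(.lf (nat_lit 61459) (.g (nat_lit 1033) (.e (nat_lit 1562) (nat_lit 110) (.e (nat_lit 352318) (nat_lit 24) (.e (nat_lit 123182) (nat_lit 264) (.e (nat_lit 1222) (nat_lit 90) .nil)))) .nil)) 
(.lf (nat_lit 61523) (.g (nat_lit 680) (.e (nat_lit 1566) (nat_lit 110) (.e (nat_lit 352307) (nat_lit 21) (.e (nat_lit 57873) (nat_lit 264) .nil))) .nil))) (.nd (nat_lit 6) 
(.lf (nat_lit 61491) (.g (nat_lit 2945) (.e (nat_lit 1563) (nat_lit 110) (.e (nat_lit 352315) (nat_lit 23) (.e (nat_lit 98350) (nat_lit 24) (.e (nat_lit 409643) (nat_lit 18) (.e (nat_lit 303117) (nat_lit 2) (.e (nat_lit 196630) (nat_lit 9) .nil)))))) (.g (nat_lit 4) .nil .nil))) 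
(.lf (nat_lit 61555) (.g (nat_lit 1747) (.e (nat_lit 1567) (nat_lit 110) (.e (nat_lit 352318) (nat_lit 24) (.e (nat_lit 123184) (nat_lit 264) (.e (nat_lit 1224) (nat_lit 90) (.e (nat_lit 81933) (nat_lit 20) .nil))))) .nil))))) (.nd (nat_lit 4) (.nd (nat_lit 5) (.nd (nat_lit 6) 
(.lf (nat_lit 61451) (.g (nat_lit 670) (.e (nat_lit 1562) (nat_lit 110) (.e (nat_lit 352315) (nat_lit 23) (.e (nat_lit 98320) (nat_lit 17) .nil))) .nil)) 
(.lf (nat_lit 61515) (.g (nat_lit 1907) (.e (nat_lit 1564) (nat_lit 110) (.e (nat_lit 352318) (nat_lit 24) (.e (nat_lit 123184) (nat_lit 264) (.e (nat_lit 1222) (nat_lit 90) (.e (nat_lit 81935) (nat_lit 20) .nil))))) .nil))) (.nd (nat_lit 6) 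
(.lf (nat_lit 61483) (.g (nat_lit 465) (.e (nat_lit 1562) (nat_lit 110) (.e (nat_lit 352324) (nat_lit 26) (.e (nat_lit 147512) (nat_lit 14) .nil))) .nil)) 
(.lf (nat_lit 61547) (.g (nat_lit 3194) (.e (nat_lit 1567) (nat_lit 110) (.e (nat_lit 352315) (nat_lit 23) (.e (nat_lit 98350) (nat_lit 24) (.e (nat_lit 409645) (nat_lit 18) (.e (nat_lit 303117) (nat_lit 2) .nil))))) .nil)))) (.nd (nat_lit 5) (.nd (nat_lit 6) 
(.lf (nat_lit 61467) (.g (nat_lit 2681) (.e (nat_lit 1562) (nat_lit 110) (.e (nat_lit 352318) (nat_lit 24) (.e (nat_lit 123197) (nat_lit 266) (.e (nat_lit 57426) (nat_lit 15) (.e (nat_lit 360486) (nat_lit 18) (.e (nat_lit 671748) (nat_lit 0) .nil)))))) (.g (nat_lit 6) .nil .nil))) 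
(.lf (nat_lit 61531) (.g (nat_lit 582) (.e (nat_lit 1566) (nat_lit 110) (.e (nat_lit 352315) (nat_lit 23) (.e (nat_lit 98325) (nat_lit 17) .nil))) .nil))) (.nd (nat_lit 6) 
(.lf (nat_lit 61499) (.g (nat_lit 633) (.e (nat_lit 1563) (nat_lit 110) (.e (nat_lit 352318) (nat_lit 24) (.e (nat_lit 123185) (nat_lit 264) .nil))) .nil)) 
(.lf (nat_lit 61563) (.g (nat_lit 4257) (.e (nat_lit 1567) (nat_lit 110) (.e (nat_lit 352324) (nat_lit 26) (.e (nat_lit 147494) (nat_lit 11) (.e (nat_lit 24665) (nat_lit 14) (.e (nat_lit 401414) (nat_lit 0) (.e (nat_lit 3459) (nat_lit 216) (.e (nat_lit 688152) (nat_lit 13) .nil))))))) (.g (nat_lit 0) .nil .nil))))))) (.nd (nat_lit 3) (.nd (nat_lit 4) (.nd (nat_lit 5) (.nd (nat_lit 6) 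
(.lf (nat_lit 61447) (.g (nat_lit 984) (.e (nat_lit 1562) (nat_lit 110) (.e (nat_lit 352312) (nat_lit 22) (.e (nat_lit 90133) (nat_lit 9) (.e (nat_lit 2400) (nat_lit 157) .nil)))) .nil)) 
(.lf (nat_lit 61511) (.g (nat_lit 4026) (.e (nat_lit 1564) (nat_lit 110) (.e (nat_lit 352314) (nat_lit 23) (.e (nat_lit 98350) (nat_lit 24) (.e (nat_lit 409646) (nat_lit 18) (.e (nat_lit 303117) (nat_lit 2) (.e (nat_lit 196630) (nat_lit 9) .nil)))))) (.g (nat_lit 6) .nil .nil)))) (.nd (nat_lit 6) 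
(.lf (nat_lit 61479) (.g (nat_lit 698) (.e (nat_lit 1562) (nat_lit 110) (.e (nat_lit 352324) (nat_lit 26) (.e (nat_lit 147496) (nat_lit 11) .nil))) .nil)) 
(.lf (nat_lit 61543) (.g (nat_lit 1708) (.e (nat_lit 1567) (nat_lit 110) (.e (nat_lit 352303) (nat_lit 20) (.e (nat_lit 1841) (nat_lit 123) (.e (nat_lit 548889) (nat_lit 9) (.e (nat_lit 65586) (nat_lit 7) (.e (nat_lit 319519) (nat_lit 12) (.e (nat_lit 32774) (nat_lit 5) .nil))))))) (.g (nat_lit 6) .nil .nil))))) (.nd (nat_lit 5) (.nd (nat_lit 6) 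
(.lf (nat_lit 61463) (.g (nat_lit 629) (.e (nat_lit 1562) (nat_lit 110) (.e (nat_lit 352318) (nat_lit 24) (.e (nat_lit 123185) (nat_lit 264) .nil))) .nil)) 
(.lf (nat_lit 61527) (.g (nat_lit 1476) (.e (nat_lit 1566) (nat_lit 110) (.e (nat_lit 352309) (nat_lit 21) (.e (nat_lit 57872) (nat_lit 264) (.e (nat_lit 1221) (nat_lit 90) .nil)))) .nil))) (.nd (nat_lit 6) 
(.lf (nat_lit 61495) (.g (nat_lit 1615) (.e (nat_lit 1563) (nat_lit 110) (.e (nat_lit 352315) (nat_lit 23) (.e (nat_lit 98350) (nat_lit 24) (.e (nat_lit 409649) (nat_lit 18) .nil)))) .nil)) 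
(.lf (nat_lit 61559) (.g (nat_lit 1517) (.e (nat_lit 1567) (nat_lit 110) (.e (nat_lit 352318) (nat_lit 24) (.e (nat_lit 123185) (nat_lit 264) (.e (nat_lit 1224) (nat_lit 90) (.e (nat_lit 81933) (nat_lit 20) .nil))))) .nil))))) (.nd (nat_lit 4) (.nd (nat_lit 5) (.nd (nat_lit 6) 
(.lf (nat_lit 61455) (.g (nat_lit 3274) (.e (nat_lit 1562) (nat_lit 110) (.e (nat_lit 352315) (nat_lit 23) (.e (nat_lit 98389) (nat_lit 33) (.e (nat_lit 491560) (nat_lit 10) (.e (nat_lit 344126) (nat_lit 25) (.e (nat_lit 548873) (nat_lit 5) .nil)))))) (.g (nat_lit 6) .nil .nil))) 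
(.lf (nat_lit 61519) (.g (nat_lit 2321) (.e (nat_lit 1565) (nat_lit 110) (.e (nat_lit 352309) (nat_lit 21) (.e (nat_lit 57872) (nat_lit 264) (.e (nat_lit 1221) (nat_lit 90) (.e (nat_lit 81959) (nat_lit 24) .nil))))) .nil))) (.nd (nat_lit 6) 
(.lf (nat_lit 61487) (.g (nat_lit 2728) (.e (nat_lit 1563) (nat_lit 110) (.e (nat_lit 352313) (nat_lit 23) (.e (nat_lit 98350) (nat_lit 24) (.e (nat_lit 409647) (nat_lit 18) (.e (nat_lit 303117) (nat_lit 2) (.e (nat_lit 196630) (nat_lit 9) .nil)))))) (.g (nat_lit 4) .nil .nil))) 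
(.lf (nat_lit 61551) (.g (nat_lit 971) (.e (nat_lit 1567) (nat_lit 110) (.e (nat_lit 352318) (nat_lit 24) (.e (nat_lit 123183) (nat_lit 264) (.e (nat_lit 1222) (nat_lit 90) .nil)))) .nil)))) (.nd (nat_lit 5) (.nd (nat_lit 6) 
(.lf (nat_lit 61471) (.g (nat_lit 2332) (.e (nat_lit 1562) (nat_lit 110) (.e (nat_lit 352318) (nat_lit 24) (.e (nat_lit 123199) (nat_lit 267) (.e (nat_lit 122919) (nat_lit 15) (.e (nat_lit 360486) (nat_lit 18) .nil))))) .nil)) 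
(.lf (nat_lit 61535) (.g (nat_lit 2194) (.e (nat_lit 1566) (nat_lit 110) (.e (nat_lit 352315) (nat_lit 23) (.e (nat_lit 98350) (nat_lit 24) (.e (nat_lit 409644) (nat_lit 18) (.e (nat_lit 303117) (nat_lit 2) .nil))))) .nil))) (.nd (nat_lit 6) 
(.lf (nat_lit 61503) (.g (nat_lit 2489) (.e (nat_lit 1564) (nat_lit 110) (.e (nat_lit 352307) (nat_lit 21) (.e (nat_lit 57681) (nat_lit 155) (.e (nat_lit 122919) (nat_lit 15) (.e (nat_lit 360451) (nat_lit 0) .nil))))) .nil)) 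
(.lf (nat_lit 61567) (.g (nat_lit 2594) (.e (nat_lit 1567) (nat_lit 110) (.e (nat_lit 352324) (nat_lit 26) (.e (nat_lit 147496) (nat_lit 11) (.e (nat_lit 24640) (nat_lit 10) (.e (nat_lit 344176) (nat_lit 43) .nil))))) .nil)))))))))

noncomputable def tv843 : DT := (.nd (nat_lit 0) (.nd (nat_lit 1) (.nd (nat_lit 2) (.nd (nat_lit 3) (.nd (nat_lit 4) (.nd (nat_lit 5) 
(.lf (nat_lit 61568) (.g (nat_lit 1475) (.e (nat_lit 1568) (nat_lit 110) (.e (nat_lit 352262) (nat_lit 0) (.e (nat_lit 3632) (nat_lit 227) (.e (nat_lit 778326) (nat_lit 6) .nil)))) .nil)) 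
(.lf (nat_lit 61600) (.g (nat_lit 1616) (.e (nat_lit 1568) (nat_lit 110) (.e (nat_lit 352272) (nat_lit 10) (.e (nat_lit 417811) (nat_lit 6) (.e (nat_lit 286755) (nat_lit 10) (.e (nat_lit 344174) (nat_lit 42) (.e (nat_lit 761867) (nat_lit 5) .nil)))))) (.g (nat_lit 0) .nil .nil)))) (.nd (nat_lit 5) 
(.lf (nat_lit 61584) (.g (nat_lit 1371) (.e (nat_lit 1568) (nat_lit 110) (.e (nat_lit 352272) (nat_lit 10) (.e (nat_lit 417795) (nat_lit 0) (.e (nat_lit 5409) (nat_lit 303) (.e (nat_lit 73772) (nat_lit 24) (.e (nat_lit 761866) (nat_lit 5) .nil)))))) (.g (nat_lit 6) .nil .nil))) 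
(.lf (nat_lit 61616) (.g (nat_lit 1589) (.e (nat_lit 1568) (nat_lit 110) (.e (nat_lit 352277) (nat_lit 11) (.e (nat_lit 426342) (nat_lit 14) (.e (nat_lit 491560) (nat_lit 10) (.e (nat_lit 344174) (nat_lit 42) (.e (nat_lit 761867) (nat_lit 5) .nil)))))) (.g (nat_lit 4) .nil .nil))))) (.nd (nat_lit 4) (.nd (nat_lit 5) 
(.lf (nat_lit 61576) (.g (nat_lit 1479) (.e (nat_lit 1568) (nat_lit 110) (.e (nat_lit 352269) (nat_lit 7) (.e (nat_lit 245776) (nat_lit 4) (.e (nat_lit 172082) (nat_lit 7) (.e (nat_lit 409634) (nat_lit 13) (.e (nat_lit 40965) (nat_lit 0) .nil)))))) (.g (nat_lit 0) .nil .nil))) 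
(.lf (nat_lit 61608) (.g (nat_lit 1305) (.e (nat_lit 1568) (nat_lit 110) (.e (nat_lit 352277) (nat_lit 11) (.e (nat_lit 426010) (nat_lit 0) (.e (nat_lit 7593) (nat_lit 407) (.e (nat_lit 73772) (nat_lit 24) .nil))))) .nil))) (.nd (nat_lit 5) 
(.lf (nat_lit 61592) (.g (nat_lit 945) (.e (nat_lit 1568) (nat_lit 110) (.e (nat_lit 352272) (nat_lit 10) (.e (nat_lit 417811) (nat_lit 6) (.e (nat_lit 286753) (nat_lit 10) (.e (nat_lit 344173) (nat_lit 42) .nil))))) .nil)) 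
(.lf (nat_lit 61624) (.g (nat_lit 1969) (.e (nat_lit 1568) (nat_lit 110) (.e (nat_lit 352277) (nat_lit 11) (.e (nat_lit 426344) (nat_lit 14) (.e (nat_lit 491560) (nat_lit 10) (.e (nat_lit 344173) (nat_lit 42) .nil))))) .nil))))) (.nd (nat_lit 3) (.nd (nat_lit 4) (.nd (nat_lit 5) 
(.lf (nat_lit 61572) (.g (nat_lit 1152) (.e (nat_lit 1568) (nat_lit 110) (.e (nat_lit 352269) (nat_lit 7) (.e (nat_lit 245776) (nat_lit 4) (.e (nat_lit 172079) (nat_lit 7) (.e (nat_lit 409634) (nat_lit 13) (.e (nat_lit 40962) (nat_lit 0) .nil)))))) (.g (nat_lit 6) .nil .nil))) 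
(.lf (nat_lit 61604) (.g (nat_lit 1403) (.e (nat_lit 1568) (nat_lit 110) (.e (nat_lit 352275) (nat_lit 11) (.e (nat_lit 426343) (nat_lit 14) (.e (nat_lit 491560) (nat_lit 10) .nil)))) .nil))) (.nd (nat_lit 5) 
(.lf (nat_lit 61588) (.g (nat_lit 1686) (.e (nat_lit 1568) (nat_lit 110) (.e (nat_lit 352272) (nat_lit 10) (.e (nat_lit 417796) (nat_lit 0) (.e (nat_lit 5409) (nat_lit 303) (.e (nat_lit 73772) (nat_lit 24) (.e (nat_lit 761866) (nat_lit 5) .nil)))))) (.g (nat_lit 6) .nil .nil))) 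
(.lf (nat_lit 61620) (.g (nat_lit 1965) (.e (nat_lit 1568) (nat_lit 110) (.e (nat_lit 352277) (nat_lit 11) (.e (nat_lit 426343) (nat_lit 14) (.e (nat_lit 491560) (nat_lit 10) (.e (nat_lit 344174) (nat_lit 42) (.e (nat_lit 761867) (nat_lit 5) .nil)))))) (.g (nat_lit 4) .nil .nil))))) (.nd (nat_lit 4) (.nd (nat_lit 5) 
(.lf (nat_lit 61580) (.g (nat_lit 1168) (.e (nat_lit 1568) (nat_lit 110) (.e (nat_lit 352272) (nat_lit 10) (.e (nat_lit 417793) (nat_lit 0) (.e (nat_lit 5412) (nat_lit 303) (.e (nat_lit 73772) (nat_lit 24) (.e (nat_lit 761869) (nat_lit 5) .nil)))))) (.g (nat_lit 0) .nil .nil))) 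
(.lf (nat_lit 61612) (.g (nat_lit 1693) (.e (nat_lit 1568) (nat_lit 110) (.e (nat_lit 352277) (nat_lit 11) (.e (nat_lit 426012) (nat_lit 0) (.e (nat_lit 7593) (nat_lit 407) (.e (nat_lit 73772) (nat_lit 24) .nil))))) .nil))) (.nd (nat_lit 5) 
(.lf (nat_lit 61596) (.g (nat_lit 646) (.e (nat_lit 1568) (nat_lit 110) (.e (nat_lit 352272) (nat_lit 10) (.e (nat_lit 417811) (nat_lit 6) (.e (nat_lit 286754) (nat_lit 10) .nil)))) .nil)) 
(.lf (nat_lit 61628) (.g (nat_lit 2619) (.e (nat_lit 1568) (nat_lit 110) (.e (nat_lit 360192) (nat_lit 18) (.e (nat_lit 483366) (nat_lit 18) (.e (nat_lit 57851) (nat_lit 252) (.e (nat_lit 57354) (nat_lit 0) (.e (nat_lit 1855) (nat_lit 124) (.e (nat_lit 564992) (nat_lit 0) .nil))))))) (.g (nat_lit 6) .nil .nil))))))) (.nd (nat_lit 2) (.nd (nat_lit 3) (.nd (nat_lit 4) (.nd (nat_lit 5) 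
(.lf (nat_lit 61570) (.g (nat_lit 1385) (.e (nat_lit 1568) (nat_lit 110) (.e (nat_lit 352262) (nat_lit 0) (.e (nat_lit 3748) (nat_lit 228) (.e (nat_lit 786478) (nat_lit 29) .nil)))) .nil)) 
(.lf (nat_lit 61602) (.g (nat_lit 2053) (.e (nat_lit 1568) (nat_lit 110) (.e (nat_lit 352272) (nat_lit 10) (.e (nat_lit 417811) (nat_lit 6) (.e (nat_lit 286756) (nat_lit 10) (.e (nat_lit 344174) (nat_lit 42) (.e (nat_lit 761866) (nat_lit 5) .nil)))))) (.g (nat_lit 6) .nil .nil)))) (.nd (nat_lit 5) 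
(.lf (nat_lit 61586) (.g (nat_lit 1380) (.e (nat_lit 1568) (nat_lit 110) (.e (nat_lit 352272) (nat_lit 10) (.e (nat_lit 417795) (nat_lit 0) (.e (nat_lit 5412) (nat_lit 303) (.e (nat_lit 73772) (nat_lit 24) (.e (nat_lit 761866) (nat_lit 5) .nil)))))) (.g (nat_lit 6) .nil .nil))) 
(.lf (nat_lit 61618) (.g (nat_lit 1922) (.e (nat_lit 1568) (nat_lit 110) (.e (nat_lit 352277) (nat_lit 11) (.e (nat_lit 426343) (nat_lit 14) (.e (nat_lit 491558) (nat_lit 10) (.e (nat_lit 344174) (nat_lit 42) (.e (nat_lit 761867) (nat_lit 5) .nil)))))) (.g (nat_lit 4) .nil .nil))))) (.nd (nat_lit 4) (.nd (nat_lit 5) 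
(.lf (nat_lit 61578) (.g (nat_lit 382) (.e (nat_lit 1568) (nat_lit 110) (.e (nat_lit 352270) (nat_lit 8) (.e (nat_lit 262148) (nat_lit 0) (.e (nat_lit 1568) (nat_lit 110) (.e (nat_lit 352270) (nat_lit 8) (.e (nat_lit 262148) (nat_lit 0) .nil)))))) (.g (nat_lit 0) .nil .nil))) 
(.lf (nat_lit 61610) (.g (nat_lit 1998) (.e (nat_lit 1568) (nat_lit 110) (.e (nat_lit 352277) (nat_lit 11) (.e (nat_lit 426011) (nat_lit 0) (.e (nat_lit 7593) (nat_lit 407) (.e (nat_lit 73772) (nat_lit 24) .nil))))) .nil))) (.nd (nat_lit 5) 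
(.lf (nat_lit 61594) (.g (nat_lit 1826) (.e (nat_lit 1568) (nat_lit 110) (.e (nat_lit 352272) (nat_lit 10) (.e (nat_lit 417811) (nat_lit 6) (.e (nat_lit 286753) (nat_lit 10) (.e (nat_lit 344174) (nat_lit 42) (.e (nat_lit 761867) (nat_lit 5) .nil)))))) (.g (nat_lit 0) .nil .nil))) 
(.lf (nat_lit 61626) (.g (nat_lit 1814) (.e (nat_lit 1568) (nat_lit 110) (.e (nat_lit 352277) (nat_lit 11) (.e (nat_lit 426344) (nat_lit 14) (.e (nat_lit 491560) (nat_lit 10) (.e (nat_lit 344174) (nat_lit 42) (.e (nat_lit 761869) (nat_lit 5) .nil)))))) (.g (nat_lit 4) .nil .nil)))))) (.nd (nat_lit 3) (.nd (nat_lit 4) (.nd (nat_lit 5) 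
(.lf (nat_lit 61574) (.g (nat_lit 1244) (.e (nat_lit 1568) (nat_lit 110) (.e (nat_lit 352269) (nat_lit 7) (.e (nat_lit 245776) (nat_lit 4) (.e (nat_lit 172080) (nat_lit 7) (.e (nat_lit 409634) (nat_lit 13) (.e (nat_lit 40965) (nat_lit 0) .nil)))))) (.g (nat_lit 0) .nil .nil))) 
(.lf (nat_lit 61606) (.g (nat_lit 1172) (.e (nat_lit 1568) (nat_lit 110) (.e (nat_lit 352277) (nat_lit 11) (.e (nat_lit 426009) (nat_lit 0) (.e (nat_lit 7593) (nat_lit 407) (.e (nat_lit 73772) (nat_lit 24) .nil))))) .nil))) (.nd (nat_lit 5) 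
(.lf (nat_lit 61590) (.g (nat_lit 1323) (.e (nat_lit 1568) (nat_lit 110) (.e (nat_lit 352272) (nat_lit 10) (.e (nat_lit 417796) (nat_lit 0) (.e (nat_lit 5412) (nat_lit 303) (.e (nat_lit 73772) (nat_lit 24) (.e (nat_lit 761866) (nat_lit 5) .nil)))))) (.g (nat_lit 6) .nil .nil))) 
(.lf (nat_lit 61622) (.g (nat_lit 1803) (.e (nat_lit 1568) (nat_lit 110) (.e (nat_lit 352277) (nat_lit 11) (.e (nat_lit 426344) (nat_lit 14) (.e (nat_lit 491558) (nat_lit 10) (.e (nat_lit 344174) (nat_lit 42) (.e (nat_lit 761867) (nat_lit 5) .nil)))))) (.g (nat_lit 4) .nil .nil))))) (.nd (nat_lit 4) (.nd (nat_lit 5) 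
(.lf (nat_lit 61582) (.g (nat_lit 991) (.e (nat_lit 1568) (nat_lit 110) (.e (nat_lit 352272) (nat_lit 10) (.e (nat_lit 417794) (nat_lit 0) (.e (nat_lit 5412) (nat_lit 303) (.e (nat_lit 73772) (nat_lit 24) (.e (nat_lit 761867) (nat_lit 5) .nil)))))) (.g (nat_lit 6) .nil .nil))) 
(.lf (nat_lit 61614) (.g (nat_lit 1327) (.e (nat_lit 1568) (nat_lit 110) (.e (nat_lit 352277) (nat_lit 11) (.e (nat_lit 426342) (nat_lit 14) (.e (nat_lit 491558) (nat_lit 10) (.e (nat_lit 344174) (nat_lit 42) (.e (nat_lit 761869) (nat_lit 5) .nil)))))) (.g (nat_lit 4) .nil .nil)))) (.nd (nat_lit 5) 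
(.lf (nat_lit 61598) (.g (nat_lit 1752) (.e (nat_lit 1568) (nat_lit 110) (.e (nat_lit 352272) (nat_lit 10) (.e (nat_lit 417811) (nat_lit 6) (.e (nat_lit 286754) (nat_lit 10) (.e (nat_lit 344174) (nat_lit 42) (.e (nat_lit 761867) (nat_lit 5) .nil)))))) (.g (nat_lit 0) .nil .nil))) 
(.lf (nat_lit 61630) (.g (nat_lit 485) (.e (nat_lit 1568) (nat_lit 110) (.e (nat_lit 352279) (nat_lit 19) (.e (nat_lit 491585) (nat_lit 29) (.e (nat_lit 442395) (nat_lit 20) (.e (nat_lit 3282) (nat_lit 200) (.e (nat_lit 557061) (nat_lit 0) .nil)))))) (.g (nat_lit 0) .nil .nil)))))))) (.nd (nat_lit 1) (.nd (nat_lit 2) (.nd (nat_lit 3) (.nd (nat_lit 4) (.nd (nat_lit 5) 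
(.lf (nat_lit 61569) (.g (nat_lit 1490) (.e (nat_lit 1568) (nat_lit 110) (.e (nat_lit 352262) (nat_lit 0) (.e (nat_lit 3632) (nat_lit 227) (.e (nat_lit 778327) (nat_lit 6) .nil)))) .nil)) 
(.lf (nat_lit 61601) (.g (nat_lit 1560) (.e (nat_lit 1568) (nat_lit 110) (.e (nat_lit 352272) (nat_lit 10) (.e (nat_lit 417811) (nat_lit 6) (.e (nat_lit 286755) (nat_lit 10) (.e (nat_lit 344174) (nat_lit 42) (.e (nat_lit 761869) (nat_lit 5) .nil)))))) (.g (nat_lit 0) .nil .nil)))) (.nd (nat_lit 5) 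
(.lf (nat_lit 61585) (.g (nat_lit 1368) (.e (nat_lit 1568) (nat_lit 110) (.e (nat_lit 352272) (nat_lit 10) (.e (nat_lit 417795) (nat_lit 0) (.e (nat_lit 5409) (nat_lit 303) (.e (nat_lit 73772) (nat_lit 24) (.e (nat_lit 761867) (nat_lit 5) .nil)))))) (.g (nat_lit 0) .nil .nil))) 
(.lf (nat_lit 61617) (.g (nat_lit 1923) (.e (nat_lit 1568) (nat_lit 110) (.e (nat_lit 352277) (nat_lit 11) (.e (nat_lit 426343) (nat_lit 14) (.e (nat_lit 491558) (nat_lit 10) (.e (nat_lit 344174) (nat_lit 42) (.e (nat_lit 761866) (nat_lit 5) .nil)))))) (.g (nat_lit 4) .nil .nil))))) (.nd (nat_lit 4) (.nd (nat_lit 5) 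
(.lf (nat_lit 61577) (.g (nat_lit 536) (.e (nat_lit 1568) (nat_lit 110) (.e (nat_lit 352270) (nat_lit 8) (.e (nat_lit 262148) (nat_lit 0) (.e (nat_lit 1555) (nat_lit 110) (.e (nat_lit 352270) (nat_lit 8) (.e (nat_lit 262148) (nat_lit 0) .nil)))))) (.g (nat_lit 0) .nil .nil))) 
(.lf (nat_lit 61609) (.g (nat_lit 1991) (.e (nat_lit 1568) (nat_lit 110) (.e (nat_lit 352277) (nat_lit 11) (.e (nat_lit 426011) (nat_lit 0) (.e (nat_lit 7591) (nat_lit 407) (.e (nat_lit 73772) (nat_lit 24) .nil))))) .nil))) (.nd (nat_lit 5) 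
(.lf (nat_lit 61593) (.g (nat_lit 1880) (.e (nat_lit 1568) (nat_lit 110) (.e (nat_lit 352272) (nat_lit 10) (.e (nat_lit 417811) (nat_lit 6) (.e (nat_lit 286753) (nat_lit 10) (.e (nat_lit 344174) (nat_lit 42) (.e (nat_lit 761866) (nat_lit 5) .nil)))))) (.g (nat_lit 6) .nil .nil))) 
(.lf (nat_lit 61625) (.g (nat_lit 1756) (.e (nat_lit 1568) (nat_lit 110) (.e (nat_lit 352277) (nat_lit 11) (.e (nat_lit 426344) (nat_lit 14) (.e (nat_lit 491560) (nat_lit 10) (.e (nat_lit 344174) (nat_lit 42) .nil))))) .nil))))) (.nd (nat_lit 3) (.nd (nat_lit 4) (.nd (nat_lit 5) 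
(.lf (nat_lit 61573) (.g (nat_lit 1359) (.e (nat_lit 1568) (nat_lit 110) (.e (nat_lit 352269) (nat_lit 7) (.e (nat_lit 245776) (nat_lit 4) (.e (nat_lit 172079) (nat_lit 7) (.e (nat_lit 409634) (nat_lit 13) (.e (nat_lit 40965) (nat_lit 0) .nil)))))) (.g (nat_lit 0) .nil .nil))) 
(.lf (nat_lit 61605) (.g (nat_lit 776) (.e (nat_lit 1568) (nat_lit 110) (.e (nat_lit 352277) (nat_lit 11) (.e (nat_lit 426009) (nat_lit 0) (.e (nat_lit 7591) (nat_lit 407) .nil)))) .nil))) (.nd (nat_lit 5) 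
(.lf (nat_lit 61589) (.g (nat_lit 1686) (.e (nat_lit 1568) (nat_lit 110) (.e (nat_lit 352272) (nat_lit 10) (.e (nat_lit 417796) (nat_lit 0) (.e (nat_lit 5409) (nat_lit 303) (.e (nat_lit 73772) (nat_lit 24) (.e (nat_lit 761867) (nat_lit 5) .nil)))))) (.g (nat_lit 0) .nil .nil))) 
(.lf (nat_lit 61621) (.g (nat_lit 1794) (.e (nat_lit 1568) (nat_lit 110) (.e (nat_lit 352277) (nat_lit 11) (.e (nat_lit 426344) (nat_lit 14) (.e (nat_lit 491558) (nat_lit 10) (.e (nat_lit 344174) (nat_lit 42) (.e (nat_lit 761866) (nat_lit 5) .nil)))))) (.g (nat_lit 4) .nil .nil))))) (.nd (nat_lit 4) (.nd (nat_lit 5) 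
(.lf (nat_lit 61581) (.g (nat_lit 382) (.e (nat_lit 1568) (nat_lit 110) (.e (nat_lit 352272) (nat_lit 10) (.e (nat_lit 417794) (nat_lit 0) (.e (nat_lit 5410) (nat_lit 303) .nil)))) .nil)) 
(.lf (nat_lit 61613) (.g (nat_lit 1325) (.e (nat_lit 1568) (nat_lit 110) (.e (nat_lit 352277) (nat_lit 11) (.e (nat_lit 426342) (nat_lit 14) (.e (nat_lit 491558) (nat_lit 10) (.e (nat_lit 344174) (nat_lit 42) (.e (nat_lit 761867) (nat_lit 5) .nil)))))) (.g (nat_lit 4) .nil .nil)))) (.nd (nat_lit 5) 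
(.lf (nat_lit 61597) (.g (nat_lit 1803) (.e (nat_lit 1568) (nat_lit 110) (.e (nat_lit 352272) (nat_lit 10) (.e (nat_lit 417811) (nat_lit 6) (.e (nat_lit 286754) (nat_lit 10) (.e (nat_lit 344174) (nat_lit 42) (.e (nat_lit 761866) (nat_lit 5) .nil)))))) (.g (nat_lit 6) .nil .nil))) 
(.lf (nat_lit 61629) (.g (nat_lit 563) (.e (nat_lit 1568) (nat_lit 110) (.e (nat_lit 352279) (nat_lit 19) (.e (nat_lit 491585) (nat_lit 29) (.e (nat_lit 442395) (nat_lit 20) (.e (nat_lit 3281) (nat_lit 200) (.e (nat_lit 557061) (nat_lit 0) .nil)))))) (.g (nat_lit 6) .nil .nil))))))) (.nd (nat_lit 2) (.nd (nat_lit 3) (.nd (nat_lit 4) (.nd (nat_lit 5) 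
(.lf (nat_lit 61571) (.g (nat_lit 132) (.e (nat_lit 1568) (nat_lit 110) (.e (nat_lit 352269) (nat_lit 7) (.e (nat_lit 245776) (nat_lit 4) .nil))) .nil)) 
(.lf (nat_lit 61603) (.g (nat_lit 2002) (.e (nat_lit 1568) (nat_lit 110) (.e (nat_lit 352272) (nat_lit 10) (.e (nat_lit 417811) (nat_lit 6) (.e (nat_lit 286756) (nat_lit 10) (.e (nat_lit 344174) (nat_lit 42) (.e (nat_lit 761867) (nat_lit 5) .nil)))))) (.g (nat_lit 6) .nil .nil)))) (.nd (nat_lit 5) 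
(.lf (nat_lit 61587) (.g (nat_lit 1365) (.e (nat_lit 1568) (nat_lit 110) (.e (nat_lit 352272) (nat_lit 10) (.e (nat_lit 417795) (nat_lit 0) (.e (nat_lit 5412) (nat_lit 303) (.e (nat_lit 73772) (nat_lit 24) (.e (nat_lit 761867) (nat_lit 5) .nil)))))) (.g (nat_lit 0) .nil .nil))) 
(.lf (nat_lit 61619) (.g (nat_lit 1945) (.e (nat_lit 1568) (nat_lit 110) (.e (nat_lit 352277) (nat_lit 11) (.e (nat_lit 426343) (nat_lit 14) (.e (nat_lit 491560) (nat_lit 10) (.e (nat_lit 344174) (nat_lit 42) .nil))))) .nil)))) (.nd (nat_lit 4) (.nd (nat_lit 5) 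
(.lf (nat_lit 61579) (.g (nat_lit 517) (.e (nat_lit 1568) (nat_lit 110) (.e (nat_lit 352270) (nat_lit 8) (.e (nat_lit 262148) (nat_lit 0) (.e (nat_lit 1574) (nat_lit 110) (.e (nat_lit 352270) (nat_lit 8) (.e (nat_lit 262148) (nat_lit 0) .nil)))))) (.g (nat_lit 0) .nil .nil))) 
(.lf (nat_lit 61611) (.g (nat_lit 1638) (.e (nat_lit 1568) (nat_lit 110) (.e (nat_lit 352277) (nat_lit 11) (.e (nat_lit 426012) (nat_lit 0) (.e (nat_lit 7591) (nat_lit 407) (.e (nat_lit 73772) (nat_lit 24) .nil))))) .nil))) (.nd (nat_lit 5) 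
(.lf (nat_lit 61595) (.g (nat_lit 1816) (.e (nat_lit 1568) (nat_lit 110) (.e (nat_lit 352272) (nat_lit 10) (.e (nat_lit 417811) (nat_lit 6) (.e (nat_lit 286753) (nat_lit 10) (.e (nat_lit 344174) (nat_lit 42) (.e (nat_lit 761869) (nat_lit 5) .nil)))))) (.g (nat_lit 0) .nil .nil))) 
(.lf (nat_lit 61627) (.g (nat_lit 2789) (.e (nat_lit 1568) (nat_lit 110) (.e (nat_lit 360192) (nat_lit 18) (.e (nat_lit 483365) (nat_lit 18) (.e (nat_lit 57851) (nat_lit 252) (.e (nat_lit 57354) (nat_lit 0) (.e (nat_lit 1855) (nat_lit 124) (.e (nat_lit 564992) (nat_lit 0) .nil))))))) (.g (nat_lit 6) .nil .nil)))))) (.nd (nat_lit 3) (.nd (nat_lit 4) (.nd (nat_lit 5) 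
(.lf (nat_lit 61575) (.g (nat_lit 1106) (.e (nat_lit 1568) (nat_lit 110) (.e (nat_lit 352269) (nat_lit 7) (.e (nat_lit 245776) (nat_lit 4) (.e (nat_lit 172081) (nat_lit 7) (.e (nat_lit 409634) (nat_lit 13) (.e (nat_lit 40965) (nat_lit 0) .nil)))))) (.g (nat_lit 0) .nil .nil))) 
(.lf (nat_lit 61607) (.g (nat_lit 1251) (.e (nat_lit 1568) (nat_lit 110) (.e (nat_lit 352277) (nat_lit 11) (.e (nat_lit 426010) (nat_lit 0) (.e (nat_lit 7591) (nat_lit 407) (.e (nat_lit 73772) (nat_lit 24) .nil))))) .nil))) (.nd (nat_lit 5) 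
(.lf (nat_lit 61591) (.g (nat_lit 1309) (.e (nat_lit 1568) (nat_lit 110) (.e (nat_lit 352272) (nat_lit 10) (.e (nat_lit 417796) (nat_lit 0) (.e (nat_lit 5412) (nat_lit 303) (.e (nat_lit 73772) (nat_lit 24) (.e (nat_lit 761867) (nat_lit 5) .nil)))))) (.g (nat_lit 0) .nil .nil))) 
(.lf (nat_lit 61623) (.g (nat_lit 1803) (.e (nat_lit 1568) (nat_lit 110) (.e (nat_lit 352277) (nat_lit 11) (.e (nat_lit 426344) (nat_lit 14) (.e (nat_lit 491558) (nat_lit 10) (.e (nat_lit 344174) (nat_lit 42) (.e (nat_lit 761869) (nat_lit 5) .nil)))))) (.g (nat_lit 4) .nil .nil))))) (.nd (nat_lit 4) (.nd (nat_lit 5) 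
(.lf (nat_lit 61583) (.g (nat_lit 1148) (.e (nat_lit 1568) (nat_lit 110) (.e (nat_lit 352272) (nat_lit 10) (.e (nat_lit 417794) (nat_lit 0) (.e (nat_lit 5412) (nat_lit 303) (.e (nat_lit 73772) (nat_lit 24) (.e (nat_lit 761869) (nat_lit 5) .nil)))))) (.g (nat_lit 6) .nil .nil))) 
(.lf (nat_lit 61615) (.g (nat_lit 1575) (.e (nat_lit 1568) (nat_lit 110) (.e (nat_lit 352277) (nat_lit 11) (.e (nat_lit 426342) (nat_lit 14) (.e (nat_lit 491560) (nat_lit 10) (.e (nat_lit 344174) (nat_lit 42) (.e (nat_lit 761866) (nat_lit 5) .nil)))))) (.g (nat_lit 4) .nil .nil)))) (.nd (nat_lit 5) 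
(.lf (nat_lit 61599) (.g (nat_lit 1636) (.e (nat_lit 1568) (nat_lit 110) (.e (nat_lit 352272) (nat_lit 10) (.e (nat_lit 417811) (nat_lit 6) (.e (nat_lit 286755) (nat_lit 10) (.e (nat_lit 344174) (nat_lit 42) (.e (nat_lit 761866) (nat_lit 5) .nil)))))) (.g (nat_lit 6) .nil .nil))) 
(.lf (nat_lit 61631) (.g (nat_lit 396) (.e (nat_lit 1568) (nat_lit 110) (.e (nat_lit 352279) (nat_lit 19) (.e (nat_lit 491585) (nat_lit 29) (.e (nat_lit 442396) (nat_lit 20) (.e (nat_lit 3281) (nat_lit 200) (.e (nat_lit 557061) (nat_lit 0) .nil)))))) (.g (nat_lit 6) .nil .nil)))))))))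

noncomputable def tv844 : DT := (.nd (nat_lit 0) (.nd (nat_lit 1) (.nd (nat_lit 2) (.nd (nat_lit 3) (.nd (nat_lit 4) 
(.lf (nat_lit 61632) (.g (nat_lit 387) (.e (nat_lit 1568) (nat_lit 110) (.e (nat_lit 352279) (nat_lit 19) (.e (nat_lit 491585) (nat_lit 29) (.e (nat_lit 442396) (nat_lit 20) (.e (nat_lit 3282) (nat_lit 200) (.e (nat_lit 557061) (nat_lit 0) .nil)))))) (.g (nat_lit 0) .nil .nil))) 
(.lf (nat_lit 61648) (.g (nat_lit 1545) (.e (nat_lit 1568) (nat_lit 110) (.e (nat_lit 352324) (nat_lit 26) (.e (nat_lit 147496) (nat_lit 11) (.e (nat_lit 24639) (nat_lit 10) .nil)))) .nil))) (.nd (nat_lit 4) 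
(.lf (nat_lit 61640) (.g (nat_lit 1526) (.e (nat_lit 1568) (nat_lit 110) (.e (nat_lit 352318) (nat_lit 24) (.e (nat_lit 123184) (nat_lit 264) (.e (nat_lit 1224) (nat_lit 90) (.e (nat_lit 89856) (nat_lit 8) .nil))))) .nil)) 
(.lf (nat_lit 61656) (.g (nat_lit 1350) (.e (nat_lit 1569) (nat_lit 110) (.e (nat_lit 352269) (nat_lit 7) (.e (nat_lit 245778) (nat_lit 6) (.e (nat_lit 188439) (nat_lit 20) (.e (nat_lit 3579) (nat_lit 223) (.e (nat_lit 745475) (nat_lit 0) .nil)))))) (.g (nat_lit 0) .nil .nil))))) (.nd (nat_lit 3) (.nd (nat_lit 4) 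
(.lf (nat_lit 61636) (.g (nat_lit 2128) (.e (nat_lit 1568) (nat_lit 110) (.e (nat_lit 352318) (nat_lit 24) (.e (nat_lit 123182) (nat_lit 264) (.e (nat_lit 1222) (nat_lit 90) (.e (nat_lit 89856) (nat_lit 8) .nil))))) .nil)) 
(.lf (nat_lit 61652) (.g (nat_lit 1988) (.e (nat_lit 1569) (nat_lit 110) (.e (nat_lit 352269) (nat_lit 7) (.e (nat_lit 245776) (nat_lit 4) (.e (nat_lit 172113) (nat_lit 10) (.e (nat_lit 434295) (nat_lit 49) (.e (nat_lit 745476) (nat_lit 0) .nil)))))) (.g (nat_lit 0) .nil .nil)))) (.nd (nat_lit 4) 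
(.lf (nat_lit 61644) (.g (nat_lit 2102) (.e (nat_lit 1568) (nat_lit 110) (.e (nat_lit 352318) (nat_lit 24) (.e (nat_lit 123197) (nat_lit 266) (.e (nat_lit 57424) (nat_lit 14) (.e (nat_lit 352270) (nat_lit 8) .nil))))) .nil)) 
(.lf (nat_lit 61660) (.g (nat_lit 1432) (.e (nat_lit 1569) (nat_lit 110) (.e (nat_lit 352269) (nat_lit 7) (.e (nat_lit 245778) (nat_lit 6) (.e (nat_lit 188441) (nat_lit 20) (.e (nat_lit 3578) (nat_lit 223) (.e (nat_lit 745476) (nat_lit 0) .nil)))))) (.g (nat_lit 0) .nil .nil)))))) (.nd (nat_lit 2) (.nd (nat_lit 3) (.nd (nat_lit 4) 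
(.lf (nat_lit 61634) (.g (nat_lit 542) (.e (nat_lit 1568) (nat_lit 110) (.e (nat_lit 352279) (nat_lit 19) (.e (nat_lit 491585) (nat_lit 29) (.e (nat_lit 442399) (nat_lit 20) (.e (nat_lit 3281) (nat_lit 200) (.e (nat_lit 557061) (nat_lit 0) .nil)))))) (.g (nat_lit 6) .nil .nil))) 
(.lf (nat_lit 61650) (.g (nat_lit 2067) (.e (nat_lit 1569) (nat_lit 110) (.e (nat_lit 352269) (nat_lit 7) (.e (nat_lit 245776) (nat_lit 4) (.e (nat_lit 172106) (nat_lit 10) (.e (nat_lit 434295) (nat_lit 49) (.e (nat_lit 745476) (nat_lit 0) .nil)))))) (.g (nat_lit 0) .nil .nil)))) (.nd (nat_lit 4) 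
(.lf (nat_lit 61642) (.g (nat_lit 1080) (.e (nat_lit 1568) (nat_lit 110) (.e (nat_lit 352318) (nat_lit 24) (.e (nat_lit 123185) (nat_lit 264) (.e (nat_lit 1224) (nat_lit 90) (.e (nat_lit 89856) (nat_lit 8) .nil))))) .nil)) 
(.lf (nat_lit 61658) (.g (nat_lit 1402) (.e (nat_lit 1569) (nat_lit 110) (.e (nat_lit 352269) (nat_lit 7) (.e (nat_lit 245778) (nat_lit 6) (.e (nat_lit 188440) (nat_lit 20) (.e (nat_lit 3578) (nat_lit 223) (.e (nat_lit 745476) (nat_lit 0) .nil)))))) (.g (nat_lit 0) .nil .nil))))) (.nd (nat_lit 3) (.nd (nat_lit 4) 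
(.lf (nat_lit 61638) (.g (nat_lit 1780) (.e (nat_lit 1568) (nat_lit 110) (.e (nat_lit 352318) (nat_lit 24) (.e (nat_lit 123183) (nat_lit 264) (.e (nat_lit 1222) (nat_lit 90) (.e (nat_lit 89856) (nat_lit 8) .nil))))) .nil)) 
(.lf (nat_lit 61654) (.g (nat_lit 1068) (.e (nat_lit 1569) (nat_lit 110) (.e (nat_lit 352269) (nat_lit 7) (.e (nat_lit 245778) (nat_lit 6) (.e (nat_lit 188435) (nat_lit 20) (.e (nat_lit 3578) (nat_lit 223) (.e (nat_lit 745476) (nat_lit 0) .nil)))))) (.g (nat_lit 0) .nil .nil)))) (.nd (nat_lit 4) 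
(.lf (nat_lit 61646) (.g (nat_lit 1613) (.e (nat_lit 1568) (nat_lit 110) (.e (nat_lit 352318) (nat_lit 24) (.e (nat_lit 123198) (nat_lit 266) (.e (nat_lit 57424) (nat_lit 14) (.e (nat_lit 352270) (nat_lit 8) .nil))))) .nil)) 
(.lf (nat_lit 61662) (.g (nat_lit 1337) (.e (nat_lit 1569) (nat_lit 110) (.e (nat_lit 352270) (nat_lit 8) (.e (nat_lit 262148) (nat_lit 0) (.e (nat_lit 1582) (nat_lit 111) (.e (nat_lit 360486) (nat_lit 18) (.e (nat_lit 671748) (nat_lit 0) .nil)))))) (.g (nat_lit 0) .nil .nil))))))) (.nd (nat_lit 1) (.nd (nat_lit 2) (.nd (nat_lit 3) (.nd (nat_lit 4) 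
(.lf (nat_lit 61633) (.g (nat_lit 352) (.e (nat_lit 1568) (nat_lit 110) (.e (nat_lit 352279) (nat_lit 19) (.e (nat_lit 491585) (nat_lit 29) (.e (nat_lit 442398) (nat_lit 20) (.e (nat_lit 3282) (nat_lit 200) (.e (nat_lit 557061) (nat_lit 0) .nil)))))) (.g (nat_lit 0) .nil .nil))) 
(.lf (nat_lit 61649) (.g (nat_lit 1783) (.e (nat_lit 1568) (nat_lit 110) (.e (nat_lit 352324) (nat_lit 26) (.e (nat_lit 147496) (nat_lit 11) (.e (nat_lit 24641) (nat_lit 10) .nil)))) .nil))) (.nd (nat_lit 4) 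
(.lf (nat_lit 61641) (.g (nat_lit 1168) (.e (nat_lit 1568) (nat_lit 110) (.e (nat_lit 352318) (nat_lit 24) (.e (nat_lit 123185) (nat_lit 264) (.e (nat_lit 1222) (nat_lit 90) (.e (nat_lit 89856) (nat_lit 8) .nil))))) .nil)) 
(.lf (nat_lit 61657) (.g (nat_lit 1715) (.e (nat_lit 1569) (nat_lit 110) (.e (nat_lit 352269) (nat_lit 7) (.e (nat_lit 245778) (nat_lit 6) (.e (nat_lit 188439) (nat_lit 20) (.e (nat_lit 3579) (nat_lit 223) (.e (nat_lit 745476) (nat_lit 0) .nil)))))) (.g (nat_lit 0) .nil .nil))))) (.nd (nat_lit 3) (.nd (nat_lit 4) 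
(.lf (nat_lit 61637) (.g (nat_lit 1654) (.e (nat_lit 1568) (nat_lit 110) (.e (nat_lit 352318) (nat_lit 24) (.e (nat_lit 123182) (nat_lit 264) (.e (nat_lit 1224) (nat_lit 90) .nil)))) .nil)) 
(.lf (nat_lit 61653) (.g (nat_lit 1732) (.e (nat_lit 1569) (nat_lit 110) (.e (nat_lit 352269) (nat_lit 7) (.e (nat_lit 245776) (nat_lit 4) (.e (nat_lit 172116) (nat_lit 10) (.e (nat_lit 434295) (nat_lit 49) (.e (nat_lit 745476) (nat_lit 0) .nil)))))) (.g (nat_lit 0) .nil .nil)))) (.nd (nat_lit 4) 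
(.lf (nat_lit 61645) (.g (nat_lit 1289) (.e (nat_lit 1568) (nat_lit 110) (.e (nat_lit 352318) (nat_lit 24) (.e (nat_lit 123198) (nat_lit 266) (.e (nat_lit 57423) (nat_lit 14) (.e (nat_lit 352270) (nat_lit 8) .nil))))) .nil)) 
(.lf (nat_lit 61661) (.g (nat_lit 1805) (.e (nat_lit 1569) (nat_lit 110) (.e (nat_lit 352269) (nat_lit 7) (.e (nat_lit 245778) (nat_lit 6) (.e (nat_lit 188441) (nat_lit 20) (.e (nat_lit 3579) (nat_lit 223) (.e (nat_lit 745476) (nat_lit 0) .nil)))))) (.g (nat_lit 0) .nil .nil)))))) (.nd (nat_lit 2) (.nd (nat_lit 3) (.nd (nat_lit 4) 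
(.lf (nat_lit 61635) (.g (nat_lit 469) (.e (nat_lit 1568) (nat_lit 110) (.e (nat_lit 352279) (nat_lit 19) (.e (nat_lit 491585) (nat_lit 29) (.e (nat_lit 442399) (nat_lit 20) (.e (nat_lit 3282) (nat_lit 200) (.e (nat_lit 557061) (nat_lit 0) .nil)))))) (.g (nat_lit 0) .nil .nil))) 
(.lf (nat_lit 61651) (.g (nat_lit 1689) (.e (nat_lit 1569) (nat_lit 110) (.e (nat_lit 352269) (nat_lit 7) (.e (nat_lit 245776) (nat_lit 4) (.e (nat_lit 172112) (nat_lit 10) (.e (nat_lit 434295) (nat_lit 49) (.e (nat_lit 745476) (nat_lit 0) .nil)))))) (.g (nat_lit 0) .nil .nil)))) (.nd (nat_lit 4) 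
(.lf (nat_lit 61643) (.g (nat_lit 1886) (.e (nat_lit 1568) (nat_lit 110) (.e (nat_lit 352318) (nat_lit 24) (.e (nat_lit 123197) (nat_lit 266) (.e (nat_lit 57423) (nat_lit 14) (.e (nat_lit 352270) (nat_lit 8) (.e (nat_lit 262148) (nat_lit 0) .nil)))))) (.g (nat_lit 4) .nil .nil))) 
(.lf (nat_lit 61659) (.g (nat_lit 1791) (.e (nat_lit 1569) (nat_lit 110) (.e (nat_lit 352269) (nat_lit 7) (.e (nat_lit 245778) (nat_lit 6) (.e (nat_lit 188440) (nat_lit 20) (.e (nat_lit 3579) (nat_lit 223) (.e (nat_lit 745476) (nat_lit 0) .nil)))))) (.g (nat_lit 0) .nil .nil))))) (.nd (nat_lit 3) (.nd (nat_lit 4) 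
(.lf (nat_lit 61639) (.g (nat_lit 1779) (.e (nat_lit 1568) (nat_lit 110) (.e (nat_lit 352318) (nat_lit 24) (.e (nat_lit 123184) (nat_lit 264) (.e (nat_lit 1222) (nat_lit 90) (.e (nat_lit 89856) (nat_lit 8) .nil))))) .nil)) 
(.lf (nat_lit 61655) (.g (nat_lit 1198) (.e (nat_lit 1569) (nat_lit 110) (.e (nat_lit 352269) (nat_lit 7) (.e (nat_lit 245778) (nat_lit 6) (.e (nat_lit 188439) (nat_lit 20) (.e (nat_lit 3578) (nat_lit 223) (.e (nat_lit 745476) (nat_lit 0) .nil)))))) (.g (nat_lit 0) .nil .nil)))) (.nd (nat_lit 4) 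
(.lf (nat_lit 61647) (.g (nat_lit 1546) (.e (nat_lit 1568) (nat_lit 110) (.e (nat_lit 352324) (nat_lit 26) (.e (nat_lit 147495) (nat_lit 11) (.e (nat_lit 24639) (nat_lit 10) .nil)))) .nil)) 
(.lf (nat_lit 61663) (.g (nat_lit 1137) (.e (nat_lit 1569) (nat_lit 110) (.e (nat_lit 352270) (nat_lit 8) (.e (nat_lit 262148) (nat_lit 0) (.e (nat_lit 1585) (nat_lit 111) (.e (nat_lit 360486) (nat_lit 18) (.e (nat_lit 671748) (nat_lit 0) .nil)))))) (.g (nat_lit 0) .nil .nil))))))))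

noncomputable def tv845 : DT := (.nd (nat_lit 0) (.nd (nat_lit 1) (.nd (nat_lit 2) (.nd (nat_lit 3) (.nd (nat_lit 4) 
(.lf (nat_lit 61664) (.g (nat_lit 1128) (.e (nat_lit 1569) (nat_lit 110) (.e (nat_lit 352270) (nat_lit 8) (.e (nat_lit 262148) (nat_lit 0) (.e (nat_lit 1591) (nat_lit 111) (.e (nat_lit 360486) (nat_lit 18) (.e (nat_lit 671748) (nat_lit 0) .nil)))))) (.g (nat_lit 0) .nil .nil))) 
(.lf (nat_lit 61680) (.g (nat_lit 1678) (.e (nat_lit 1569) (nat_lit 110) (.e (nat_lit 352272) (nat_lit 10) (.e (nat_lit 417796) (nat_lit 0) (.e (nat_lit 5409) (nat_lit 303) (.e (nat_lit 73773) (nat_lit 25) (.e (nat_lit 770057) (nat_lit 5) .nil)))))) (.g (nat_lit 0) .nil .nil)))) (.nd (nat_lit 4) 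
(.lf (nat_lit 61672) (.g (nat_lit 1476) (.e (nat_lit 1569) (nat_lit 110) (.e (nat_lit 352272) (nat_lit 10) (.e (nat_lit 417795) (nat_lit 0) (.e (nat_lit 5409) (nat_lit 303) (.e (nat_lit 73773) (nat_lit 25) (.e (nat_lit 770058) (nat_lit 5) .nil)))))) (.g (nat_lit 0) .nil .nil))) 
(.lf (nat_lit 61688) (.g (nat_lit 1131) (.e (nat_lit 1569) (nat_lit 110) (.e (nat_lit 352272) (nat_lit 10) (.e (nat_lit 417796) (nat_lit 0) (.e (nat_lit 5413) (nat_lit 303) (.e (nat_lit 73773) (nat_lit 25) (.e (nat_lit 770056) (nat_lit 5) .nil)))))) (.g (nat_lit 6) .nil .nil))))) (.nd (nat_lit 3) (.nd (nat_lit 4) 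
(.lf (nat_lit 61668) (.g (nat_lit 1010) (.e (nat_lit 1569) (nat_lit 110) (.e (nat_lit 352272) (nat_lit 10) (.e (nat_lit 417794) (nat_lit 0) (.e (nat_lit 5412) (nat_lit 303) (.e (nat_lit 73773) (nat_lit 25) (.e (nat_lit 770056) (nat_lit 5) .nil)))))) (.g (nat_lit 6) .nil .nil))) 
(.lf (nat_lit 61684) (.g (nat_lit 887) (.e (nat_lit 1569) (nat_lit 110) (.e (nat_lit 352272) (nat_lit 10) (.e (nat_lit 417796) (nat_lit 0) (.e (nat_lit 5412) (nat_lit 303) (.e (nat_lit 81664) (nat_lit 0) .nil))))) .nil))) (.nd (nat_lit 4) 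
(.lf (nat_lit 61676) (.g (nat_lit 1350) (.e (nat_lit 1569) (nat_lit 110) (.e (nat_lit 352272) (nat_lit 10) (.e (nat_lit 417795) (nat_lit 0) (.e (nat_lit 5412) (nat_lit 303) (.e (nat_lit 73773) (nat_lit 25) (.e (nat_lit 770057) (nat_lit 5) .nil)))))) (.g (nat_lit 0) .nil .nil))) 
(.lf (nat_lit 61692) (.g (nat_lit 2639) (.e (nat_lit 1569) (nat_lit 110) (.e (nat_lit 352315) (nat_lit 23) (.e (nat_lit 98349) (nat_lit 24) (.e (nat_lit 409646) (nat_lit 18) (.e (nat_lit 303117) (nat_lit 2) (.e (nat_lit 196630) (nat_lit 9) .nil)))))) (.g (nat_lit 4) .nil .nil)))))) (.nd (nat_lit 2) (.nd (nat_lit 3) (.nd (nat_lit 4) 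
(.lf (nat_lit 61666) (.g (nat_lit 1023) (.e (nat_lit 1569) (nat_lit 110) (.e (nat_lit 352272) (nat_lit 10) (.e (nat_lit 417793) (nat_lit 0) (.e (nat_lit 5412) (nat_lit 303) (.e (nat_lit 73773) (nat_lit 25) (.e (nat_lit 770056) (nat_lit 5) .nil)))))) (.g (nat_lit 6) .nil .nil))) 
(.lf (nat_lit 61682) (.g (nat_lit 730) (.e (nat_lit 1569) (nat_lit 110) (.e (nat_lit 352272) (nat_lit 10) (.e (nat_lit 417796) (nat_lit 0) (.e (nat_lit 5410) (nat_lit 303) (.e (nat_lit 81664) (nat_lit 0) .nil))))) .nil))) (.nd (nat_lit 4) 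
(.lf (nat_lit 61674) (.g (nat_lit 946) (.e (nat_lit 1569) (nat_lit 110) (.e (nat_lit 352272) (nat_lit 10) (.e (nat_lit 417795) (nat_lit 0) (.e (nat_lit 5412) (nat_lit 303) (.e (nat_lit 81664) (nat_lit 0) .nil))))) .nil)) 
(.lf (nat_lit 61690) (.g (nat_lit 597) (.e (nat_lit 1569) (nat_lit 110) (.e (nat_lit 352279) (nat_lit 19) (.e (nat_lit 491585) (nat_lit 29) (.e (nat_lit 442409) (nat_lit 20) (.e (nat_lit 3288) (nat_lit 201) (.e (nat_lit 565252) (nat_lit 0) .nil)))))) (.g (nat_lit 6) .nil .nil))))) (.nd (nat_lit 3) (.nd (nat_lit 4) 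
(.lf (nat_lit 61670) (.g (nat_lit 754) (.e (nat_lit 1569) (nat_lit 110) (.e (nat_lit 352272) (nat_lit 10) (.e (nat_lit 417795) (nat_lit 0) (.e (nat_lit 5409) (nat_lit 303) (.e (nat_lit 81664) (nat_lit 0) .nil))))) .nil)) 
(.lf (nat_lit 61686) (.g (nat_lit 1296) (.e (nat_lit 1569) (nat_lit 110) (.e (nat_lit 352272) (nat_lit 10) (.e (nat_lit 417796) (nat_lit 0) (.e (nat_lit 5412) (nat_lit 303) (.e (nat_lit 73773) (nat_lit 25) (.e (nat_lit 770057) (nat_lit 5) .nil)))))) (.g (nat_lit 0) .nil .nil)))) (.nd (nat_lit 4) 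
(.lf (nat_lit 61678) (.g (nat_lit 1002) (.e (nat_lit 1569) (nat_lit 110) (.e (nat_lit 352272) (nat_lit 10) (.e (nat_lit 417795) (nat_lit 0) (.e (nat_lit 5413) (nat_lit 303) (.e (nat_lit 73773) (nat_lit 25) (.e (nat_lit 770056) (nat_lit 5) .nil)))))) (.g (nat_lit 6) .nil .nil))) 
(.lf (nat_lit 61694) (.g (nat_lit 1879) (.e (nat_lit 1569) (nat_lit 110) (.e (nat_lit 352318) (nat_lit 24) (.e (nat_lit 123182) (nat_lit 264) (.e (nat_lit 1201) (nat_lit 88) (.e (nat_lit 65610) (nat_lit 10) .nil))))) .nil)))))) (.nd (nat_lit 1) (.nd (nat_lit 2) (.nd (nat_lit 3) (.nd (nat_lit 4) 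
(.lf (nat_lit 61665) (.g (nat_lit 1494) (.e (nat_lit 1569) (nat_lit 110) (.e (nat_lit 352270) (nat_lit 8) (.e (nat_lit 262148) (nat_lit 0) (.e (nat_lit 1597) (nat_lit 111) (.e (nat_lit 360486) (nat_lit 18) (.e (nat_lit 671748) (nat_lit 0) .nil)))))) (.g (nat_lit 0) .nil .nil))) 
(.lf (nat_lit 61681) (.g (nat_lit 1791) (.e (nat_lit 1569) (nat_lit 110) (.e (nat_lit 352272) (nat_lit 10) (.e (nat_lit 417796) (nat_lit 0) (.e (nat_lit 5409) (nat_lit 303) (.e (nat_lit 73773) (nat_lit 25) (.e (nat_lit 770058) (nat_lit 5) .nil)))))) (.g (nat_lit 0) .nil .nil)))) (.nd (nat_lit 4) 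
(.lf (nat_lit 61673) (.g (nat_lit 1027) (.e (nat_lit 1569) (nat_lit 110) (.e (nat_lit 352272) (nat_lit 10) (.e (nat_lit 417795) (nat_lit 0) (.e (nat_lit 5410) (nat_lit 303) (.e (nat_lit 73773) (nat_lit 25) (.e (nat_lit 770056) (nat_lit 5) .nil)))))) (.g (nat_lit 6) .nil .nil))) 
(.lf (nat_lit 61689) (.g (nat_lit 1895) (.e (nat_lit 1569) (nat_lit 110) (.e (nat_lit 352272) (nat_lit 10) (.e (nat_lit 417811) (nat_lit 6) (.e (nat_lit 286754) (nat_lit 10) (.e (nat_lit 344177) (nat_lit 43) (.e (nat_lit 770056) (nat_lit 5) .nil)))))) (.g (nat_lit 6) .nil .nil))))) (.nd (nat_lit 3) (.nd (nat_lit 4) 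
(.lf (nat_lit 61669) (.g (nat_lit 969) (.e (nat_lit 1569) (nat_lit 110) (.e (nat_lit 352272) (nat_lit 10) (.e (nat_lit 417794) (nat_lit 0) (.e (nat_lit 5412) (nat_lit 303) (.e (nat_lit 73773) (nat_lit 25) (.e (nat_lit 770057) (nat_lit 5) .nil)))))) (.g (nat_lit 6) .nil .nil))) 
(.lf (nat_lit 61685) (.g (nat_lit 867) (.e (nat_lit 1569) (nat_lit 110) (.e (nat_lit 352272) (nat_lit 10) (.e (nat_lit 417796) (nat_lit 0) (.e (nat_lit 5412) (nat_lit 303) (.e (nat_lit 73773) (nat_lit 25) .nil))))) .nil))) (.nd (nat_lit 4) 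
(.lf (nat_lit 61677) (.g (nat_lit 1439) (.e (nat_lit 1569) (nat_lit 110) (.e (nat_lit 352272) (nat_lit 10) (.e (nat_lit 417795) (nat_lit 0) (.e (nat_lit 5412) (nat_lit 303) (.e (nat_lit 73773) (nat_lit 25) (.e (nat_lit 770058) (nat_lit 5) .nil)))))) (.g (nat_lit 0) .nil .nil))) 
(.lf (nat_lit 61693) (.g (nat_lit 1668) (.e (nat_lit 1569) (nat_lit 110) (.e (nat_lit 352315) (nat_lit 23) (.e (nat_lit 98367) (nat_lit 27) (.e (nat_lit 434271) (nat_lit 38) .nil)))) .nil))))) (.nd (nat_lit 2) (.nd (nat_lit 3) (.nd (nat_lit 4) 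
(.lf (nat_lit 61667) (.g (nat_lit 226) (.e (nat_lit 1569) (nat_lit 110) (.e (nat_lit 352272) (nat_lit 10) (.e (nat_lit 417794) (nat_lit 0) .nil))) .nil)) 
(.lf (nat_lit 61683) (.g (nat_lit 1169) (.e (nat_lit 1569) (nat_lit 110) (.e (nat_lit 352272) (nat_lit 10) (.e (nat_lit 417796) (nat_lit 0) (.e (nat_lit 5410) (nat_lit 303) (.e (nat_lit 73773) (nat_lit 25) (.e (nat_lit 770056) (nat_lit 5) .nil)))))) (.g (nat_lit 6) .nil .nil)))) (.nd (nat_lit 4) 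
(.lf (nat_lit 61675) (.g (nat_lit 922) (.e (nat_lit 1569) (nat_lit 110) (.e (nat_lit 352272) (nat_lit 10) (.e (nat_lit 417795) (nat_lit 0) (.e (nat_lit 5412) (nat_lit 303) (.e (nat_lit 73773) (nat_lit 25) .nil))))) .nil)) 
(.lf (nat_lit 61691) (.g (nat_lit 2618) (.e (nat_lit 1569) (nat_lit 110) (.e (nat_lit 352315) (nat_lit 23) (.e (nat_lit 98349) (nat_lit 24) (.e (nat_lit 409645) (nat_lit 18) (.e (nat_lit 303117) (nat_lit 2) .nil))))) .nil)))) (.nd (nat_lit 3) (.nd (nat_lit 4) 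
(.lf (nat_lit 61671) (.g (nat_lit 1362) (.e (nat_lit 1569) (nat_lit 110) (.e (nat_lit 352272) (nat_lit 10) (.e (nat_lit 417795) (nat_lit 0) (.e (nat_lit 5409) (nat_lit 303) (.e (nat_lit 73773) (nat_lit 25) (.e (nat_lit 770057) (nat_lit 5) .nil)))))) (.g (nat_lit 0) .nil .nil))) 
(.lf (nat_lit 61687) (.g (nat_lit 1380) (.e (nat_lit 1569) (nat_lit 110) (.e (nat_lit 352272) (nat_lit 10) (.e (nat_lit 417796) (nat_lit 0) (.e (nat_lit 5412) (nat_lit 303) (.e (nat_lit 73773) (nat_lit 25) (.e (nat_lit 770058) (nat_lit 5) .nil)))))) (.g (nat_lit 0) .nil .nil)))) (.nd (nat_lit 4) 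
(.lf (nat_lit 61679) (.g (nat_lit 1067) (.e (nat_lit 1569) (nat_lit 110) (.e (nat_lit 352272) (nat_lit 10) (.e (nat_lit 417796) (nat_lit 0) (.e (nat_lit 5409) (nat_lit 303) (.e (nat_lit 81664) (nat_lit 0) .nil))))) .nil)) 
(.lf (nat_lit 61695) (.g (nat_lit 2973) (.e (nat_lit 1569) (nat_lit 110) (.e (nat_lit 352318) (nat_lit 24) (.e (nat_lit 123182) (nat_lit 264) (.e (nat_lit 1201) (nat_lit 88) (.e (nat_lit 65610) (nat_lit 10) (.e (nat_lit 344169) (nat_lit 40) (.e (nat_lit 671747) (nat_lit 0) .nil))))))) (.g (nat_lit 5) .nil .nil))))))))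

noncomputable def tv846 : DT := (.nd (nat_lit 0) (.nd (nat_lit 1) (.nd (nat_lit 2) (.nd (nat_lit 3) (.nd (nat_lit 4) (.nd (nat_lit 5) (.nd (nat_lit 6) 
(.lf (nat_lit 61696) (.g (nat_lit 2461) (.e (nat_lit 1569) (nat_lit 110) (.e (nat_lit 352318) (nat_lit 24) (.e (nat_lit 123182) (nat_lit 264) (.e (nat_lit 1201) (nat_lit 88) (.e (nat_lit 65617) (nat_lit 10) (.e (nat_lit 344169) (nat_lit 40) (.e (nat_lit 671746) (nat_lit 0) .nil))))))) (.g (nat_lit 4) .nil .nil))) 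
(.lf (nat_lit 61760) (.g (nat_lit 1227) (.e (nat_lit 1572) (nat_lit 110) (.e (nat_lit 352309) (nat_lit 21) (.e (nat_lit 57872) (nat_lit 264) (.e (nat_lit 1199) (nat_lit 88) .nil)))) .nil))) (.nd (nat_lit 6) 
(.lf (nat_lit 61728) (.g (nat_lit 2623) (.e (nat_lit 1571) (nat_lit 110) (.e (nat_lit 352315) (nat_lit 23) (.e (nat_lit 98349) (nat_lit 24) (.e (nat_lit 409645) (nat_lit 18) (.e (nat_lit 303117) (nat_lit 2) (.e (nat_lit 196626) (nat_lit 9) .nil)))))) (.g (nat_lit 4) .nil .nil))) 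
(.lf (nat_lit 61792) (.g (nat_lit 3041) (.e (nat_lit 1572) (nat_lit 110) (.e (nat_lit 352318) (nat_lit 24) (.e (nat_lit 123182) (nat_lit 264) (.e (nat_lit 1201) (nat_lit 88) (.e (nat_lit 65610) (nat_lit 10) (.e (nat_lit 344168) (nat_lit 40) (.e (nat_lit 671746) (nat_lit 0) .nil))))))) (.g (nat_lit 5) .nil .nil))))) (.nd (nat_lit 5) (.nd (nat_lit 6) 
(.lf (nat_lit 61712) (.g (nat_lit 2596) (.e (nat_lit 1570) (nat_lit 110) (.e (nat_lit 352315) (nat_lit 23) (.e (nat_lit 98349) (nat_lit 24) (.e (nat_lit 409645) (nat_lit 18) (.e (nat_lit 303117) (nat_lit 2) .nil))))) .nil)) 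
(.lf (nat_lit 61776) (.g (nat_lit 424) (.e (nat_lit 1572) (nat_lit 110) (.e (nat_lit 352312) (nat_lit 22) (.e (nat_lit 90165) (nat_lit 12) .nil))) .nil))) (.nd (nat_lit 6) 
(.lf (nat_lit 61744) (.g (nat_lit 1763) (.e (nat_lit 1572) (nat_lit 110) (.e (nat_lit 352303) (nat_lit 20) (.e (nat_lit 1842) (nat_lit 123) (.e (nat_lit 548889) (nat_lit 9) (.e (nat_lit 65586) (nat_lit 7) (.e (nat_lit 319519) (nat_lit 12) (.e (nat_lit 32774) (nat_lit 5) .nil))))))) (.g (nat_lit 4) .nil .nil))) 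
(.lf (nat_lit 61808) (.g (nat_lit 2599) (.e (nat_lit 1572) (nat_lit 110) (.e (nat_lit 352318) (nat_lit 24) (.e (nat_lit 123184) (nat_lit 264) (.e (nat_lit 1201) (nat_lit 88) (.e (nat_lit 65610) (nat_lit 10) (.e (nat_lit 344169) (nat_lit 40) (.e (nat_lit 671746) (nat_lit 0) .nil))))))) (.g (nat_lit 5) .nil .nil)))))) (.nd (nat_lit 4) (.nd (nat_lit 5) (.nd (nat_lit 6) 
(.lf (nat_lit 61704) (.g (nat_lit 645) (.e (nat_lit 1569) (nat_lit 110) (.e (nat_lit 352318) (nat_lit 24) (.e (nat_lit 123198) (nat_lit 266) .nil))) .nil)) 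
(.lf (nat_lit 61768) (.g (nat_lit 2262) (.e (nat_lit 1572) (nat_lit 110) (.e (nat_lit 352309) (nat_lit 21) (.e (nat_lit 57872) (nat_lit 264) (.e (nat_lit 1221) (nat_lit 90) (.e (nat_lit 81947) (nat_lit 20) .nil))))) .nil))) (.nd (nat_lit 6) 
(.lf (nat_lit 61736) (.g (nat_lit 1591) (.e (nat_lit 1572) (nat_lit 110) (.e (nat_lit 352272) (nat_lit 10) (.e (nat_lit 417796) (nat_lit 0) (.e (nat_lit 5409) (nat_lit 303) (.e (nat_lit 73773) (nat_lit 25) (.e (nat_lit 770058) (nat_lit 5) .nil)))))) (.g (nat_lit 5) .nil .nil))) 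
(.lf (nat_lit 61800) (.g (nat_lit 2169) (.e (nat_lit 1572) (nat_lit 110) (.e (nat_lit 352318) (nat_lit 24) (.e (nat_lit 123182) (nat_lit 264) (.e (nat_lit 1224) (nat_lit 90) (.e (nat_lit 81947) (nat_lit 20) .nil))))) .nil)))) (.nd (nat_lit 5) (.nd (nat_lit 6) 
(.lf (nat_lit 61720) (.g (nat_lit 733) (.e (nat_lit 1570) (nat_lit 110) (.e (nat_lit 352318) (nat_lit 24) (.e (nat_lit 123196) (nat_lit 266) .nil))) .nil)) 
(.lf (nat_lit 61784) (.g (nat_lit 5013) (.e (nat_lit 1572) (nat_lit 110) (.e (nat_lit 352315) (nat_lit 23) (.e (nat_lit 98384) (nat_lit 32) (.e (nat_lit 475199) (nat_lit 40) (.e (nat_lit 704589) (nat_lit 3) (.e (nat_lit 163975) (nat_lit 30) (.e (nat_lit 573451) (nat_lit 9) .nil))))))) (.g (nat_lit 5) .nil .nil)))) (.nd (nat_lit 6) 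
(.lf (nat_lit 61752) (.g (nat_lit 2391) (.e (nat_lit 1572) (nat_lit 110) (.e (nat_lit 352309) (nat_lit 21) (.e (nat_lit 57857) (nat_lit 254) (.e (nat_lit 163908) (nat_lit 12) (.e (nat_lit 426286) (nat_lit 10) (.e (nat_lit 434269) (nat_lit 36) (.e (nat_lit 639008) (nat_lit 13) .nil))))))) (.g (nat_lit 5) .nil .nil))) 
(.lf (nat_lit 61816) (.g (nat_lit 888) (.e (nat_lit 1572) (nat_lit 110) (.e (nat_lit 352318) (nat_lit 24) (.e (nat_lit 123185) (nat_lit 264) (.e (nat_lit 1222) (nat_lit 90) .nil)))) .nil)))))) (.nd (nat_lit 3) (.nd (nat_lit 4) (.nd (nat_lit 5) (.nd (nat_lit 6) 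
(.lf (nat_lit 61700) (.g (nat_lit 1028) (.e (nat_lit 1569) (nat_lit 110) (.e (nat_lit 352318) (nat_lit 24) (.e (nat_lit 123184) (nat_lit 264) (.e (nat_lit 1224) (nat_lit 90) .nil)))) .nil)) 
(.lf (nat_lit 61764) (.g (nat_lit 2120) (.e (nat_lit 1572) (nat_lit 110) (.e (nat_lit 352309) (nat_lit 21) (.e (nat_lit 57872) (nat_lit 264) (.e (nat_lit 1219) (nat_lit 90) (.e (nat_lit 81946) (nat_lit 20) .nil))))) .nil))) (.nd (nat_lit 6) 
(.lf (nat_lit 61732) (.g (nat_lit 1594) (.e (nat_lit 1571) (nat_lit 110) (.e (nat_lit 352315) (nat_lit 23) (.e (nat_lit 98350) (nat_lit 24) (.e (nat_lit 417536) (nat_lit 18) .nil)))) .nil)) 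
(.lf (nat_lit 61796) (.g (nat_lit 3997) (.e (nat_lit 1572) (nat_lit 110) (.e (nat_lit 352318) (nat_lit 24) (.e (nat_lit 123182) (nat_lit 264) (.e (nat_lit 1201) (nat_lit 88) (.e (nat_lit 65617) (nat_lit 10) (.e (nat_lit 344168) (nat_lit 40) (.e (nat_lit 671747) (nat_lit 0) .nil))))))) (.g (nat_lit 6) .nil .nil))))) (.nd (nat_lit 5) (.nd (nat_lit 6) 
(.lf (nat_lit 61716) (.g (nat_lit 1769) (.e (nat_lit 1570) (nat_lit 110) (.e (nat_lit 352315) (nat_lit 23) (.e (nat_lit 98350) (nat_lit 24) (.e (nat_lit 409646) (nat_lit 18) .nil)))) .nil)) 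
(.lf (nat_lit 61780) (.g (nat_lit 4219) (.e (nat_lit 1572) (nat_lit 110) (.e (nat_lit 352315) (nat_lit 23) (.e (nat_lit 98350) (nat_lit 24) (.e (nat_lit 409646) (nat_lit 18) (.e (nat_lit 303117) (nat_lit 2) (.e (nat_lit 196630) (nat_lit 9) .nil)))))) (.g (nat_lit 5) .nil .nil)))) (.nd (nat_lit 6) 
(.lf (nat_lit 61748) (.g (nat_lit 1820) (.e (nat_lit 1572) (nat_lit 110) (.e (nat_lit 352309) (nat_lit 21) (.e (nat_lit 57857) (nat_lit 254) (.e (nat_lit 163908) (nat_lit 12) (.e (nat_lit 426285) (nat_lit 10) (.e (nat_lit 434268) (nat_lit 36) (.e (nat_lit 639005) (nat_lit 13) .nil))))))) (.g (nat_lit 4) .nil .nil))) 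
(.lf (nat_lit 61812) (.g (nat_lit 1760) (.e (nat_lit 1572) (nat_lit 110) (.e (nat_lit 352318) (nat_lit 24) (.e (nat_lit 123184) (nat_lit 264) (.e (nat_lit 1224) (nat_lit 90) (.e (nat_lit 81933) (nat_lit 20) .nil))))) .nil))))) (.nd (nat_lit 4) (.nd (nat_lit 5) (.nd (nat_lit 6) 
(.lf (nat_lit 61708) (.g (nat_lit 1259) (.e (nat_lit 1570) (nat_lit 110) (.e (nat_lit 352309) (nat_lit 21) (.e (nat_lit 57857) (nat_lit 254) (.e (nat_lit 163923) (nat_lit 15) .nil)))) .nil)) 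
(.lf (nat_lit 61772) (.g (nat_lit 1957) (.e (nat_lit 1572) (nat_lit 110) (.e (nat_lit 352309) (nat_lit 21) (.e (nat_lit 57873) (nat_lit 264) (.e (nat_lit 1219) (nat_lit 90) .nil)))) .nil))) (.nd (nat_lit 6) 
(.lf (nat_lit 61740) (.g (nat_lit 1658) (.e (nat_lit 1572) (nat_lit 110) (.e (nat_lit 352290) (nat_lit 20) (.e (nat_lit 1842) (nat_lit 123) (.e (nat_lit 548889) (nat_lit 9) (.e (nat_lit 65583) (nat_lit 7) .nil))))) .nil)) 
(.lf (nat_lit 61804) (.g (nat_lit 969) (.e (nat_lit 1572) (nat_lit 110) (.e (nat_lit 352318) (nat_lit 24) (.e (nat_lit 123183) (nat_lit 264) (.e (nat_lit 1222) (nat_lit 90) .nil)))) .nil)))) (.nd (nat_lit 5) (.nd (nat_lit 6) 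
(.lf (nat_lit 61724) (.g (nat_lit 2319) (.e (nat_lit 1571) (nat_lit 110) (.e (nat_lit 352309) (nat_lit 21) (.e (nat_lit 57872) (nat_lit 264) (.e (nat_lit 1221) (nat_lit 90) (.e (nat_lit 81959) (nat_lit 24) .nil))))) .nil)) 
(.lf (nat_lit 61788) (.g (nat_lit 2699) (.e (nat_lit 1572) (nat_lit 110) (.e (nat_lit 352315) (nat_lit 23) (.e (nat_lit 98389) (nat_lit 33) (.e (nat_lit 491558) (nat_lit 10) (.e (nat_lit 344126) (nat_lit 25) (.e (nat_lit 548873) (nat_lit 5) .nil)))))) (.g (nat_lit 5) .nil .nil)))) (.nd (nat_lit 6) 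
(.lf (nat_lit 61756) (.g (nat_lit 974) (.e (nat_lit 1572) (nat_lit 110) (.e (nat_lit 352309) (nat_lit 21) (.e (nat_lit 57870) (nat_lit 264) (.e (nat_lit 1220) (nat_lit 90) .nil)))) .nil)) 
(.lf (nat_lit 61820) (.g (nat_lit 1475) (.e (nat_lit 1572) (nat_lit 110) (.e (nat_lit 352318) (nat_lit 24) (.e (nat_lit 123197) (nat_lit 266) (.e (nat_lit 57426) (nat_lit 15) (.e (nat_lit 360486) (nat_lit 18) (.e (nat_lit 671747) (nat_lit 0) .nil)))))) (.g (nat_lit 4) .nil .nil)))))))) (.nd (nat_lit 2) (.nd (nat_lit 3) (.nd (nat_lit 4) (.nd (nat_lit 5) (.nd (nat_lit 6) 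
(.lf (nat_lit 61698) (.g (nat_lit 1684) (.e (nat_lit 1569) (nat_lit 110) (.e (nat_lit 352318) (nat_lit 24) (.e (nat_lit 123182) (nat_lit 264) (.e (nat_lit 1224) (nat_lit 90) .nil)))) .nil)) 
(.lf (nat_lit 61762) (.g (nat_lit 2024) (.e (nat_lit 1572) (nat_lit 110) (.e (nat_lit 352309) (nat_lit 21) (.e (nat_lit 57872) (nat_lit 264) (.e (nat_lit 1219) (nat_lit 90) (.e (nat_lit 81933) (nat_lit 20) .nil))))) .nil))) (.nd (nat_lit 6) 
(.lf (nat_lit 61730) (.g (nat_lit 4138) (.e (nat_lit 1571) (nat_lit 110) (.e (nat_lit 352315) (nat_lit 23) (.e (nat_lit 98349) (nat_lit 24) (.e (nat_lit 409646) (nat_lit 18) (.e (nat_lit 303117) (nat_lit 2) (.e (nat_lit 196627) (nat_lit 9) .nil)))))) (.g (nat_lit 0) .nil .nil))) 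
(.lf (nat_lit 61794) (.g (nat_lit 3029) (.e (nat_lit 1572) (nat_lit 110) (.e (nat_lit 352318) (nat_lit 24) (.e (nat_lit 123182) (nat_lit 264) (.e (nat_lit 1201) (nat_lit 88) (.e (nat_lit 65610) (nat_lit 10) (.e (nat_lit 344169) (nat_lit 40) (.e (nat_lit 671746) (nat_lit 0) .nil))))))) (.g (nat_lit 5) .nil .nil))))) (.nd (nat_lit 5) (.nd (nat_lit 6) 
(.lf (nat_lit 61714) (.g (nat_lit 2720) (.e (nat_lit 1570) (nat_lit 110) (.e (nat_lit 352315) (nat_lit 23) (.e (nat_lit 98349) (nat_lit 24) (.e (nat_lit 409646) (nat_lit 18) (.e (nat_lit 303117) (nat_lit 2) (.e (nat_lit 196632) (nat_lit 9) .nil)))))) (.g (nat_lit 4) .nil .nil))) 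
(.lf (nat_lit 61778) (.g (nat_lit 4721) (.e (nat_lit 1572) (nat_lit 110) (.e (nat_lit 352315) (nat_lit 23) (.e (nat_lit 98349) (nat_lit 24) (.e (nat_lit 409645) (nat_lit 18) (.e (nat_lit 303117) (nat_lit 2) (.e (nat_lit 196630) (nat_lit 9) .nil)))))) (.g (nat_lit 6) .nil .nil)))) (.nd (nat_lit 6) 
(.lf (nat_lit 61746) (.g (nat_lit 885) (.e (nat_lit 1572) (nat_lit 110) (.e (nat_lit 352309) (nat_lit 21) (.e (nat_lit 57684) (nat_lit 155) .nil))) .nil)) 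
(.lf (nat_lit 61810) (.g (nat_lit 2029) (.e (nat_lit 1572) (nat_lit 110) (.e (nat_lit 352318) (nat_lit 24) (.e (nat_lit 123184) (nat_lit 264) (.e (nat_lit 1222) (nat_lit 90) (.e (nat_lit 81935) (nat_lit 20) (.e (nat_lit 1996) (nat_lit 137) (.e (nat_lit 663554) (nat_lit 0) .nil))))))) (.g (nat_lit 4) .nil .nil)))))) (.nd (nat_lit 4) (.nd (nat_lit 5) (.nd (nat_lit 6) 
(.lf (nat_lit 61706) (.g (nat_lit 3077) (.e (nat_lit 1569) (nat_lit 110) (.e (nat_lit 352324) (nat_lit 26) (.e (nat_lit 147494) (nat_lit 11) (.e (nat_lit 24665) (nat_lit 14) (.e (nat_lit 401413) (nat_lit 0) (.e (nat_lit 3459) (nat_lit 216) (.e (nat_lit 688153) (nat_lit 13) .nil))))))) (.g (nat_lit 6) .nil .nil))) 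
(.lf (nat_lit 61770) (.g (nat_lit 919) (.e (nat_lit 1572) (nat_lit 110) (.e (nat_lit 352309) (nat_lit 21) (.e (nat_lit 57873) (nat_lit 264) .nil))) .nil))) (.nd (nat_lit 6) 
(.lf (nat_lit 61738) (.g (nat_lit 1725) (.e (nat_lit 1572) (nat_lit 110) (.e (nat_lit 352277) (nat_lit 11) (.e (nat_lit 426011) (nat_lit 0) (.e (nat_lit 7591) (nat_lit 407) .nil)))) .nil)) 
(.lf (nat_lit 61802) (.g (nat_lit 2898) (.e (nat_lit 1572) (nat_lit 110) (.e (nat_lit 352318) (nat_lit 24) (.e (nat_lit 123183) (nat_lit 264) (.e (nat_lit 1201) (nat_lit 88) (.e (nat_lit 65610) (nat_lit 10) (.e (nat_lit 344169) (nat_lit 40) (.e (nat_lit 671747) (nat_lit 0) .nil))))))) (.g (nat_lit 5) .nil .nil))))) (.nd (nat_lit 5) (.nd (nat_lit 6) 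
(.lf (nat_lit 61722) (.g (nat_lit 747) (.e (nat_lit 1571) (nat_lit 110) (.e (nat_lit 352309) (nat_lit 21) (.e (nat_lit 57872) (nat_lit 264) .nil))) .nil)) 
(.lf (nat_lit 61786) (.g (nat_lit 696) (.e (nat_lit 1572) (nat_lit 110) (.e (nat_lit 352315) (nat_lit 23) (.e (nat_lit 98387) (nat_lit 33) .nil))) .nil))) (.nd (nat_lit 6) 
(.lf (nat_lit 61754) (.g (nat_lit 605) (.e (nat_lit 1572) (nat_lit 110) (.e (nat_lit 352309) (nat_lit 21) (.e (nat_lit 57870) (nat_lit 264) .nil))) .nil)) 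
(.lf (nat_lit 61818) (.g (nat_lit 1387) (.e (nat_lit 1572) (nat_lit 110) (.e (nat_lit 352318) (nat_lit 24) (.e (nat_lit 123185) (nat_lit 264) (.e (nat_lit 1224) (nat_lit 90) (.e (nat_lit 81947) (nat_lit 20) .nil))))) .nil)))))) (.nd (nat_lit 3) (.nd (nat_lit 4) (.nd (nat_lit 5) (.nd (nat_lit 6) 
(.lf (nat_lit 61702) (.g (nat_lit 983) (.e (nat_lit 1569) (nat_lit 110) (.e (nat_lit 352318) (nat_lit 24) (.e (nat_lit 123185) (nat_lit 264) (.e (nat_lit 1224) (nat_lit 90) .nil)))) .nil)) 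
(.lf (nat_lit 61766) (.g (nat_lit 1262) (.e (nat_lit 1572) (nat_lit 110) (.e (nat_lit 352309) (nat_lit 21) (.e (nat_lit 57872) (nat_lit 264) (.e (nat_lit 1221) (nat_lit 90) .nil)))) .nil))) (.nd (nat_lit 6) 
(.lf (nat_lit 61734) (.g (nat_lit 150) (.e (nat_lit 1572) (nat_lit 110) (.e (nat_lit 352269) (nat_lit 7) (.e (nat_lit 245778) (nat_lit 6) .nil))) .nil)) 
(.lf (nat_lit 61798) (.g (nat_lit 2226) (.e (nat_lit 1572) (nat_lit 110) (.e (nat_lit 352318) (nat_lit 24) (.e (nat_lit 123182) (nat_lit 264) (.e (nat_lit 1222) (nat_lit 90) (.e (nat_lit 81933) (nat_lit 20) .nil))))) .nil)))) (.nd (nat_lit 5) (.nd (nat_lit 6) 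
(.lf (nat_lit 61718) (.g (nat_lit 1615) (.e (nat_lit 1570) (nat_lit 110) (.e (nat_lit 352315) (nat_lit 23) (.e (nat_lit 98350) (nat_lit 24) (.e (nat_lit 409649) (nat_lit 18) .nil)))) .nil)) 
(.lf (nat_lit 61782) (.g (nat_lit 2551) (.e (nat_lit 1572) (nat_lit 110) (.e (nat_lit 352315) (nat_lit 23) (.e (nat_lit 98367) (nat_lit 27) (.e (nat_lit 434272) (nat_lit 38) (.e (nat_lit 655375) (nat_lit 3) .nil))))) .nil))) (.nd (nat_lit 6) 
(.lf (nat_lit 61750) (.g (nat_lit 2423) (.e (nat_lit 1572) (nat_lit 110) (.e (nat_lit 352309) (nat_lit 21) (.e (nat_lit 57857) (nat_lit 254) (.e (nat_lit 163908) (nat_lit 12) (.e (nat_lit 426285) (nat_lit 10) (.e (nat_lit 434269) (nat_lit 36) (.e (nat_lit 639008) (nat_lit 13) .nil))))))) (.g (nat_lit 5) .nil .nil))) 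
(.lf (nat_lit 61814) (.g (nat_lit 2845) (.e (nat_lit 1572) (nat_lit 110) (.e (nat_lit 352318) (nat_lit 24) (.e (nat_lit 123185) (nat_lit 264) (.e (nat_lit 1201) (nat_lit 88) (.e (nat_lit 65610) (nat_lit 10) (.e (nat_lit 344168) (nat_lit 40) (.e (nat_lit 671747) (nat_lit 0) .nil))))))) (.g (nat_lit 5) .nil .nil)))))) (.nd (nat_lit 4) (.nd (nat_lit 5) (.nd (nat_lit 6) 
(.lf (nat_lit 61710) (.g (nat_lit 1510) (.e (nat_lit 1570) (nat_lit 110) (.e (nat_lit 352309) (nat_lit 21) (.e (nat_lit 57872) (nat_lit 264) (.e (nat_lit 1221) (nat_lit 90) .nil)))) .nil)) 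
(.lf (nat_lit 61774) (.g (nat_lit 490) (.e (nat_lit 1572) (nat_lit 110) (.e (nat_lit 352312) (nat_lit 22) (.e (nat_lit 90133) (nat_lit 9) .nil))) .nil))) (.nd (nat_lit 6) 
(.lf (nat_lit 61742) (.g (nat_lit 1196) (.e (nat_lit 1572) (nat_lit 110) (.e (nat_lit 352303) (nat_lit 20) (.e (nat_lit 1841) (nat_lit 123) (.e (nat_lit 548889) (nat_lit 9) (.e (nat_lit 65586) (nat_lit 7) (.e (nat_lit 319519) (nat_lit 12) (.e (nat_lit 32774) (nat_lit 5) .nil))))))) (.g (nat_lit 4) .nil .nil))) 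
(.lf (nat_lit 61806) (.g (nat_lit 382) (.e (nat_lit 1572) (nat_lit 110) (.e (nat_lit 352318) (nat_lit 24) (.e (nat_lit 123184) (nat_lit 264) .nil))) .nil)))) (.nd (nat_lit 5) (.nd (nat_lit 6) 
(.lf (nat_lit 61726) (.g (nat_lit 1141) (.e (nat_lit 1571) (nat_lit 110) (.e (nat_lit 352312) (nat_lit 22) (.e (nat_lit 90165) (nat_lit 12) (.e (nat_lit 164210) (nat_lit 176) .nil)))) .nil)) 
(.lf (nat_lit 61790) (.g (nat_lit 2779) (.e (nat_lit 1572) (nat_lit 110) (.e (nat_lit 352315) (nat_lit 23) (.e (nat_lit 98389) (nat_lit 33) (.e (nat_lit 491560) (nat_lit 10) (.e (nat_lit 344126) (nat_lit 25) (.e (nat_lit 548873) (nat_lit 5) .nil)))))) (.g (nat_lit 5) .nil .nil)))) (.nd (nat_lit 6) 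
(.lf (nat_lit 61758) (.g (nat_lit 1779) (.e (nat_lit 1572) (nat_lit 110) (.e (nat_lit 352309) (nat_lit 21) (.e (nat_lit 57871) (nat_lit 264) (.e (nat_lit 1190) (nat_lit 88) (.e (nat_lit 65619) (nat_lit 10) .nil))))) .nil)) 
(.lf (nat_lit 61822) (.g (nat_lit 567) (.e (nat_lit 1572) (nat_lit 110) (.e (nat_lit 352318) (nat_lit 24) (.e (nat_lit 123198) (nat_lit 266) .nil))) .nil)))))))) (.nd (nat_lit 1) (.nd (nat_lit 2) (.nd (nat_lit 3) (.nd (nat_lit 4) (.nd (nat_lit 5) (.nd (nat_lit 6) 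
(.lf (nat_lit 61697) (.g (nat_lit 1894) (.e (nat_lit 1569) (nat_lit 110) (.e (nat_lit 352318) (nat_lit 24) (.e (nat_lit 123182) (nat_lit 264) (.e (nat_lit 1222) (nat_lit 90) (.e (nat_lit 81943) (nat_lit 20) .nil))))) .nil)) 
(.lf (nat_lit 61761) (.g (nat_lit 1214) (.e (nat_lit 1572) (nat_lit 110) (.e (nat_lit 352309) (nat_lit 21) (.e (nat_lit 57872) (nat_lit 264) (.e (nat_lit 1219) (nat_lit 90) .nil)))) .nil))) (.nd (nat_lit 6) 
(.lf (nat_lit 61729) (.g (nat_lit 3908) (.e (nat_lit 1571) (nat_lit 110) (.e (nat_lit 352315) (nat_lit 23) (.e (nat_lit 98349) (nat_lit 24) (.e (nat_lit 409645) (nat_lit 18) (.e (nat_lit 303117) (nat_lit 2) (.e (nat_lit 196627) (nat_lit 9) .nil)))))) (.g (nat_lit 0) .nil .nil))) 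
(.lf (nat_lit 61793) (.g (nat_lit 3827) (.e (nat_lit 1572) (nat_lit 110) (.e (nat_lit 352318) (nat_lit 24) (.e (nat_lit 123182) (nat_lit 264) (.e (nat_lit 1201) (nat_lit 88) (.e (nat_lit 65610) (nat_lit 10) (.e (nat_lit 344168) (nat_lit 40) (.e (nat_lit 671747) (nat_lit 0) .nil))))))) (.g (nat_lit 6) .nil .nil))))) (.nd (nat_lit 5) (.nd (nat_lit 6) 
(.lf (nat_lit 61713) (.g (nat_lit 2591) (.e (nat_lit 1570) (nat_lit 110) (.e (nat_lit 352315) (nat_lit 23) (.e (nat_lit 98349) (nat_lit 24) (.e (nat_lit 409646) (nat_lit 18) (.e (nat_lit 303117) (nat_lit 2) .nil))))) .nil)) 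
(.lf (nat_lit 61777) (.g (nat_lit 439) (.e (nat_lit 1572) (nat_lit 110) (.e (nat_lit 352315) (nat_lit 23) (.e (nat_lit 98325) (nat_lit 17) .nil))) .nil))) (.nd (nat_lit 6) 
(.lf (nat_lit 61745) (.g (nat_lit 895) (.e (nat_lit 1572) (nat_lit 110) (.e (nat_lit 352309) (nat_lit 21) (.e (nat_lit 57683) (nat_lit 155) .nil))) .nil)) 
(.lf (nat_lit 61809) (.g (nat_lit 2202) (.e (nat_lit 1572) (nat_lit 110) (.e (nat_lit 352318) (nat_lit 24) (.e (nat_lit 123184) (nat_lit 264) (.e (nat_lit 1222) (nat_lit 90) (.e (nat_lit 81933) (nat_lit 20) (.e (nat_lit 1998) (nat_lit 137) (.e (nat_lit 663554) (nat_lit 0) .nil))))))) (.g (nat_lit 4) .nil .nil)))))) (.nd (nat_lit 4) (.nd (nat_lit 5) (.nd (nat_lit 6) 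
(.lf (nat_lit 61705) (.g (nat_lit 785) (.e (nat_lit 1569) (nat_lit 110) (.e (nat_lit 352318) (nat_lit 24) (.e (nat_lit 123199) (nat_lit 267) .nil))) .nil)) 
(.lf (nat_lit 61769) (.g (nat_lit 2031) (.e (nat_lit 1572) (nat_lit 110) (.e (nat_lit 352309) (nat_lit 21) (.e (nat_lit 57872) (nat_lit 264) (.e (nat_lit 1221) (nat_lit 90) (.e (nat_lit 81959) (nat_lit 24) .nil))))) .nil))) (.nd (nat_lit 6) 
(.lf (nat_lit 61737) (.g (nat_lit 1177) (.e (nat_lit 1572) (nat_lit 110) (.e (nat_lit 352272) (nat_lit 10) (.e (nat_lit 417796) (nat_lit 0) (.e (nat_lit 5412) (nat_lit 303) (.e (nat_lit 73773) (nat_lit 25) (.e (nat_lit 770058) (nat_lit 5) .nil)))))) (.g (nat_lit 4) .nil .nil))) 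
(.lf (nat_lit 61801) (.g (nat_lit 427) (.e (nat_lit 1572) (nat_lit 110) (.e (nat_lit 352318) (nat_lit 24) (.e (nat_lit 123183) (nat_lit 264) .nil))) .nil)))) (.nd (nat_lit 5) (.nd (nat_lit 6) 
(.lf (nat_lit 61721) (.g (nat_lit 2055) (.e (nat_lit 1570) (nat_lit 110) (.e (nat_lit 352324) (nat_lit 26) (.e (nat_lit 147494) (nat_lit 11) (.e (nat_lit 24665) (nat_lit 14) (.e (nat_lit 401413) (nat_lit 0) .nil))))) .nil)) 
(.lf (nat_lit 61785) (.g (nat_lit 4146) (.e (nat_lit 1572) (nat_lit 110) (.e (nat_lit 352315) (nat_lit 23) (.e (nat_lit 98384) (nat_lit 32) (.e (nat_lit 475199) (nat_lit 40) (.e (nat_lit 704590) (nat_lit 3) (.e (nat_lit 163975) (nat_lit 30) (.e (nat_lit 573451) (nat_lit 9) .nil))))))) (.g (nat_lit 4) .nil .nil)))) (.nd (nat_lit 6) 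
(.lf (nat_lit 61753) (.g (nat_lit 1275) (.e (nat_lit 1572) (nat_lit 110) (.e (nat_lit 352309) (nat_lit 21) (.e (nat_lit 57857) (nat_lit 254) (.e (nat_lit 163923) (nat_lit 15) .nil)))) .nil)) 
(.lf (nat_lit 61817) (.g (nat_lit 1852) (.e (nat_lit 1572) (nat_lit 110) (.e (nat_lit 352318) (nat_lit 24) (.e (nat_lit 123185) (nat_lit 264) (.e (nat_lit 1222) (nat_lit 90) (.e (nat_lit 81933) (nat_lit 20) .nil))))) .nil)))))) (.nd (nat_lit 3) (.nd (nat_lit 4) (.nd (nat_lit 5) (.nd (nat_lit 6) 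
(.lf (nat_lit 61701) (.g (nat_lit 1662) (.e (nat_lit 1569) (nat_lit 110) (.e (nat_lit 352318) (nat_lit 24) (.e (nat_lit 123185) (nat_lit 264) (.e (nat_lit 1222) (nat_lit 90) (.e (nat_lit 81943) (nat_lit 20) .nil))))) .nil)) 
(.lf (nat_lit 61765) (.g (nat_lit 2103) (.e (nat_lit 1572) (nat_lit 110) (.e (nat_lit 352309) (nat_lit 21) (.e (nat_lit 57872) (nat_lit 264) (.e (nat_lit 1219) (nat_lit 90) (.e (nat_lit 81947) (nat_lit 20) (.e (nat_lit 2006) (nat_lit 138) (.e (nat_lit 671748) (nat_lit 0) .nil))))))) (.g (nat_lit 4) .nil .nil)))) (.nd (nat_lit 6) 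
(.lf (nat_lit 61733) (.g (nat_lit 2214) (.e (nat_lit 1571) (nat_lit 110) (.e (nat_lit 352315) (nat_lit 23) (.e (nat_lit 98367) (nat_lit 27) (.e (nat_lit 434271) (nat_lit 38) (.e (nat_lit 655375) (nat_lit 3) .nil))))) .nil)) 
(.lf (nat_lit 61797) (.g (nat_lit 3226) (.e (nat_lit 1572) (nat_lit 110) (.e (nat_lit 352318) (nat_lit 24) (.e (nat_lit 123182) (nat_lit 264) (.e (nat_lit 1201) (nat_lit 88) (.e (nat_lit 65617) (nat_lit 10) (.e (nat_lit 344169) (nat_lit 40) (.e (nat_lit 671746) (nat_lit 0) .nil))))))) (.g (nat_lit 5) .nil .nil))))) (.nd (nat_lit 5) (.nd (nat_lit 6) 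
(.lf (nat_lit 61717) (.g (nat_lit 1682) (.e (nat_lit 1570) (nat_lit 110) (.e (nat_lit 352315) (nat_lit 23) (.e (nat_lit 98350) (nat_lit 24) (.e (nat_lit 409648) (nat_lit 18) .nil)))) .nil)) 
(.lf (nat_lit 61781) (.g (nat_lit 3049) (.e (nat_lit 1572) (nat_lit 110) (.e (nat_lit 352315) (nat_lit 23) (.e (nat_lit 98350) (nat_lit 24) (.e (nat_lit 409647) (nat_lit 18) (.e (nat_lit 303117) (nat_lit 2) .nil))))) .nil))) (.nd (nat_lit 6) 
(.lf (nat_lit 61749) (.g (nat_lit 2342) (.e (nat_lit 1572) (nat_lit 110) (.e (nat_lit 352309) (nat_lit 21) (.e (nat_lit 57857) (nat_lit 254) (.e (nat_lit 163908) (nat_lit 12) (.e (nat_lit 426285) (nat_lit 10) (.e (nat_lit 434269) (nat_lit 36) (.e (nat_lit 639007) (nat_lit 13) .nil))))))) (.g (nat_lit 5) .nil .nil))) 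
(.lf (nat_lit 61813) (.g (nat_lit 592) (.e (nat_lit 1572) (nat_lit 110) (.e (nat_lit 352318) (nat_lit 24) (.e (nat_lit 123185) (nat_lit 264) .nil))) .nil))))) (.nd (nat_lit 4) (.nd (nat_lit 5) (.nd (nat_lit 6) 
(.lf (nat_lit 61709) (.g (nat_lit 1949) (.e (nat_lit 1570) (nat_lit 110) (.e (nat_lit 352309) (nat_lit 21) (.e (nat_lit 57857) (nat_lit 254) (.e (nat_lit 163923) (nat_lit 15) (.e (nat_lit 450591) (nat_lit 13) (.e (nat_lit 630811) (nat_lit 13) .nil)))))) (.g (nat_lit 5) .nil .nil))) 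
(.lf (nat_lit 61773) (.g (nat_lit 1987) (.e (nat_lit 1572) (nat_lit 110) (.e (nat_lit 352309) (nat_lit 21) (.e (nat_lit 57873) (nat_lit 264) (.e (nat_lit 1221) (nat_lit 90) .nil)))) .nil))) (.nd (nat_lit 6) 
(.lf (nat_lit 61741) (.g (nat_lit 1633) (.e (nat_lit 1572) (nat_lit 110) (.e (nat_lit 352290) (nat_lit 20) (.e (nat_lit 1842) (nat_lit 123) (.e (nat_lit 548889) (nat_lit 9) (.e (nat_lit 65586) (nat_lit 7) .nil))))) .nil)) 
(.lf (nat_lit 61805) (.g (nat_lit 1967) (.e (nat_lit 1572) (nat_lit 110) (.e (nat_lit 352318) (nat_lit 24) (.e (nat_lit 123183) (nat_lit 264) (.e (nat_lit 1222) (nat_lit 90) (.e (nat_lit 81933) (nat_lit 20) .nil))))) .nil)))) (.nd (nat_lit 5) (.nd (nat_lit 6) 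
(.lf (nat_lit 61725) (.g (nat_lit 550) (.e (nat_lit 1571) (nat_lit 110) (.e (nat_lit 352312) (nat_lit 22) (.e (nat_lit 90165) (nat_lit 12) .nil))) .nil)) 
(.lf (nat_lit 61789) (.g (nat_lit 3555) (.e (nat_lit 1572) (nat_lit 110) (.e (nat_lit 352315) (nat_lit 23) (.e (nat_lit 98389) (nat_lit 33) (.e (nat_lit 491558) (nat_lit 10) (.e (nat_lit 344126) (nat_lit 25) (.e (nat_lit 548874) (nat_lit 5) .nil)))))) (.g (nat_lit 0) .nil .nil)))) (.nd (nat_lit 6) 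
(.lf (nat_lit 61757) (.g (nat_lit 563) (.e (nat_lit 1572) (nat_lit 110) (.e (nat_lit 352309) (nat_lit 21) (.e (nat_lit 57871) (nat_lit 264) .nil))) .nil)) 
(.lf (nat_lit 61821) (.g (nat_lit 1669) (.e (nat_lit 1572) (nat_lit 110) (.e (nat_lit 352318) (nat_lit 24) (.e (nat_lit 123197) (nat_lit 266) (.e (nat_lit 57427) (nat_lit 15) (.e (nat_lit 360486) (nat_lit 18) (.e (nat_lit 671747) (nat_lit 0) .nil)))))) (.g (nat_lit 4) .nil .nil)))))))) (.nd (nat_lit 2) (.nd (nat_lit 3) (.nd (nat_lit 4) (.nd (nat_lit 5) (.nd (nat_lit 6) 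
(.lf (nat_lit 61699) (.g (nat_lit 1428) (.e (nat_lit 1569) (nat_lit 110) (.e (nat_lit 352318) (nat_lit 24) (.e (nat_lit 123183) (nat_lit 264) (.e (nat_lit 1222) (nat_lit 90) (.e (nat_lit 81943) (nat_lit 20) .nil))))) .nil)) 
(.lf (nat_lit 61763) (.g (nat_lit 1916) (.e (nat_lit 1572) (nat_lit 110) (.e (nat_lit 352309) (nat_lit 21) (.e (nat_lit 57872) (nat_lit 264) (.e (nat_lit 1219) (nat_lit 90) (.e (nat_lit 81943) (nat_lit 20) .nil))))) .nil))) (.nd (nat_lit 6) 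
(.lf (nat_lit 61731) (.g (nat_lit 1743) (.e (nat_lit 1571) (nat_lit 110) (.e (nat_lit 352315) (nat_lit 23) (.e (nat_lit 98350) (nat_lit 24) (.e (nat_lit 409643) (nat_lit 18) .nil)))) .nil)) 
(.lf (nat_lit 61795) (.g (nat_lit 2611) (.e (nat_lit 1572) (nat_lit 110) (.e (nat_lit 352318) (nat_lit 24) (.e (nat_lit 123182) (nat_lit 264) (.e (nat_lit 1201) (nat_lit 88) (.e (nat_lit 65617) (nat_lit 10) (.e (nat_lit 344168) (nat_lit 40) (.e (nat_lit 671746) (nat_lit 0) .nil))))))) (.g (nat_lit 4) .nil .nil))))) (.nd (nat_lit 5) (.nd (nat_lit 6) 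
(.lf (nat_lit 61715) (.g (nat_lit 756) (.e (nat_lit 1570) (nat_lit 110) (.e (nat_lit 352315) (nat_lit 23) (.e (nat_lit 98350) (nat_lit 24) .nil))) .nil)) 
(.lf (nat_lit 61779) (.g (nat_lit 1713) (.e (nat_lit 1572) (nat_lit 110) (.e (nat_lit 352315) (nat_lit 23) (.e (nat_lit 98350) (nat_lit 24) (.e (nat_lit 409646) (nat_lit 18) .nil)))) .nil))) (.nd (nat_lit 6) 
(.lf (nat_lit 61747) (.g (nat_lit 614) (.e (nat_lit 1572) (nat_lit 110) (.e (nat_lit 352309) (nat_lit 21) (.e (nat_lit 57857) (nat_lit 254) .nil))) .nil)) 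
(.lf (nat_lit 61811) (.g (nat_lit 2141) (.e (nat_lit 1572) (nat_lit 110) (.e (nat_lit 352318) (nat_lit 24) (.e (nat_lit 123184) (nat_lit 264) (.e (nat_lit 1222) (nat_lit 90) (.e (nat_lit 81947) (nat_lit 20) .nil))))) .nil))))) (.nd (nat_lit 4) (.nd (nat_lit 5) (.nd (nat_lit 6) 
(.lf (nat_lit 61707) (.g (nat_lit 3937) (.e (nat_lit 1569) (nat_lit 110) (.e (nat_lit 352324) (nat_lit 26) (.e (nat_lit 147494) (nat_lit 11) (.e (nat_lit 24665) (nat_lit 14) (.e (nat_lit 401414) (nat_lit 0) (.e (nat_lit 3459) (nat_lit 216) (.e (nat_lit 688153) (nat_lit 13) .nil))))))) (.g (nat_lit 0) .nil .nil))) 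
(.lf (nat_lit 61771) (.g (nat_lit 1965) (.e (nat_lit 1572) (nat_lit 110) (.e (nat_lit 352309) (nat_lit 21) (.e (nat_lit 57873) (nat_lit 264) (.e (nat_lit 1199) (nat_lit 88) .nil)))) .nil))) (.nd (nat_lit 6) 
(.lf (nat_lit 61739) (.g (nat_lit 1710) (.e (nat_lit 1572) (nat_lit 110) (.e (nat_lit 352277) (nat_lit 11) (.e (nat_lit 426011) (nat_lit 0) (.e (nat_lit 7593) (nat_lit 407) .nil)))) .nil)) 
(.lf (nat_lit 61803) (.g (nat_lit 1787) (.e (nat_lit 1572) (nat_lit 110) (.e (nat_lit 352318) (nat_lit 24) (.e (nat_lit 123183) (nat_lit 264) (.e (nat_lit 1201) (nat_lit 88) (.e (nat_lit 65617) (nat_lit 10) .nil))))) .nil)))) (.nd (nat_lit 5) (.nd (nat_lit 6) 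
(.lf (nat_lit 61723) (.g (nat_lit 1504) (.e (nat_lit 1571) (nat_lit 110) (.e (nat_lit 352309) (nat_lit 21) (.e (nat_lit 57872) (nat_lit 264) (.e (nat_lit 1219) (nat_lit 90) .nil)))) .nil)) 
(.lf (nat_lit 61787) (.g (nat_lit 2905) (.e (nat_lit 1572) (nat_lit 110) (.e (nat_lit 352315) (nat_lit 23) (.e (nat_lit 98389) (nat_lit 33) (.e (nat_lit 491544) (nat_lit 7) (.e (nat_lit 319519) (nat_lit 12) (.e (nat_lit 32774) (nat_lit 5) .nil)))))) (.g (nat_lit 0) .nil .nil)))) (.nd (nat_lit 6) 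
(.lf (nat_lit 61755) (.g (nat_lit 1458) (.e (nat_lit 1572) (nat_lit 110) (.e (nat_lit 352309) (nat_lit 21) (.e (nat_lit 57870) (nat_lit 264) (.e (nat_lit 1219) (nat_lit 90) (.e (nat_lit 81935) (nat_lit 20) .nil))))) .nil)) 
(.lf (nat_lit 61819) (.g (nat_lit 451) (.e (nat_lit 1572) (nat_lit 110) (.e (nat_lit 352318) (nat_lit 24) (.e (nat_lit 123197) (nat_lit 266) .nil))) .nil)))))) (.nd (nat_lit 3) (.nd (nat_lit 4) (.nd (nat_lit 5) (.nd (nat_lit 6) 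
(.lf (nat_lit 61703) (.g (nat_lit 639) (.e (nat_lit 1569) (nat_lit 110) (.e (nat_lit 352318) (nat_lit 24) (.e (nat_lit 123197) (nat_lit 266) .nil))) .nil)) 
(.lf (nat_lit 61767) (.g (nat_lit 2327) (.e (nat_lit 1572) (nat_lit 110) (.e (nat_lit 352309) (nat_lit 21) (.e (nat_lit 57872) (nat_lit 264) (.e (nat_lit 1221) (nat_lit 90) (.e (nat_lit 81933) (nat_lit 20) .nil))))) .nil))) (.nd (nat_lit 6) 
(.lf (nat_lit 61735) (.g (nat_lit 1233) (.e (nat_lit 1572) (nat_lit 110) (.e (nat_lit 352272) (nat_lit 10) (.e (nat_lit 417795) (nat_lit 0) (.e (nat_lit 5412) (nat_lit 303) (.e (nat_lit 73773) (nat_lit 25) (.e (nat_lit 770058) (nat_lit 5) .nil)))))) (.g (nat_lit 4) .nil .nil))) 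
(.lf (nat_lit 61799) (.g (nat_lit 2509) (.e (nat_lit 1572) (nat_lit 110) (.e (nat_lit 352318) (nat_lit 24) (.e (nat_lit 123182) (nat_lit 264) (.e (nat_lit 1224) (nat_lit 90) (.e (nat_lit 81946) (nat_lit 20) (.e (nat_lit 2005) (nat_lit 138) (.e (nat_lit 671748) (nat_lit 0) .nil))))))) (.g (nat_lit 4) .nil .nil))))) (.nd (nat_lit 5) (.nd (nat_lit 6) 
(.lf (nat_lit 61719) (.g (nat_lit 634) (.e (nat_lit 1570) (nat_lit 110) (.e (nat_lit 352318) (nat_lit 24) (.e (nat_lit 123185) (nat_lit 264) .nil))) .nil)) 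
(.lf (nat_lit 61783) (.g (nat_lit 2252) (.e (nat_lit 1572) (nat_lit 110) (.e (nat_lit 352315) (nat_lit 23) (.e (nat_lit 98384) (nat_lit 32) (.e (nat_lit 475198) (nat_lit 40) .nil)))) .nil))) (.nd (nat_lit 6) 
(.lf (nat_lit 61751) (.g (nat_lit 1793) (.e (nat_lit 1572) (nat_lit 110) (.e (nat_lit 352309) (nat_lit 21) (.e (nat_lit 57857) (nat_lit 254) (.e (nat_lit 163908) (nat_lit 12) (.e (nat_lit 426286) (nat_lit 10) .nil))))) .nil)) 
(.lf (nat_lit 61815) (.g (nat_lit 1269) (.e (nat_lit 1572) (nat_lit 110) (.e (nat_lit 352318) (nat_lit 24) (.e (nat_lit 123185) (nat_lit 264) (.e (nat_lit 1201) (nat_lit 88) (.e (nat_lit 65617) (nat_lit 10) .nil))))) .nil))))) (.nd (nat_lit 4) (.nd (nat_lit 5) (.nd (nat_lit 6) 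
(.lf (nat_lit 61711) (.g (nat_lit 787) (.e (nat_lit 1570) (nat_lit 110) (.e (nat_lit 352315) (nat_lit 23) (.e (nat_lit 98349) (nat_lit 24) .nil))) .nil)) 
(.lf (nat_lit 61775) (.g (nat_lit 987) (.e (nat_lit 1572) (nat_lit 110) (.e (nat_lit 352312) (nat_lit 22) (.e (nat_lit 90133) (nat_lit 9) (.e (nat_lit 2397) (nat_lit 157) .nil)))) .nil))) (.nd (nat_lit 6) 
(.lf (nat_lit 61743) (.g (nat_lit 1727) (.e (nat_lit 1572) (nat_lit 110) (.e (nat_lit 352303) (nat_lit 20) (.e (nat_lit 1842) (nat_lit 123) (.e (nat_lit 548889) (nat_lit 9) (.e (nat_lit 65583) (nat_lit 7) .nil))))) .nil)) 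
(.lf (nat_lit 61807) (.g (nat_lit 2664) (.e (nat_lit 1572) (nat_lit 110) (.e (nat_lit 352318) (nat_lit 24) (.e (nat_lit 123184) (nat_lit 264) (.e (nat_lit 1201) (nat_lit 88) (.e (nat_lit 65610) (nat_lit 10) (.e (nat_lit 344168) (nat_lit 40) (.e (nat_lit 671746) (nat_lit 0) .nil))))))) (.g (nat_lit 5) .nil .nil))))) (.nd (nat_lit 5) (.nd (nat_lit 6) 
(.lf (nat_lit 61727) (.g (nat_lit 2312) (.e (nat_lit 1571) (nat_lit 110) (.e (nat_lit 352315) (nat_lit 23) (.e (nat_lit 98349) (nat_lit 24) (.e (nat_lit 409644) (nat_lit 18) (.e (nat_lit 303117) (nat_lit 2) (.e (nat_lit 196627) (nat_lit 9) .nil)))))) (.g (nat_lit 4) .nil .nil))) 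
(.lf (nat_lit 61791) (.g (nat_lit 2108) (.e (nat_lit 1572) (nat_lit 110) (.e (nat_lit 352318) (nat_lit 24) (.e (nat_lit 123182) (nat_lit 264) (.e (nat_lit 1201) (nat_lit 88) (.e (nat_lit 65610) (nat_lit 10) (.e (nat_lit 344097) (nat_lit 18) (.e (nat_lit 5907) (nat_lit 320) (.e (nat_lit 993) (nat_lit 81) .nil)))))))) (.g (nat_lit 4) .nil .nil)))) (.nd (nat_lit 6) 
(.lf (nat_lit 61759) (.g (nat_lit 1100) (.e (nat_lit 1572) (nat_lit 110) (.e (nat_lit 352309) (nat_lit 21) (.e (nat_lit 57871) (nat_lit 264) (.e (nat_lit 1220) (nat_lit 90) .nil)))) .nil)) 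
(.lf (nat_lit 61823) (.g (nat_lit 2611) (.e (nat_lit 1572) (nat_lit 110) (.e (nat_lit 352318) (nat_lit 24) (.e (nat_lit 123198) (nat_lit 266) (.e (nat_lit 57424) (nat_lit 14) (.e (nat_lit 352285) (nat_lit 20) .nil))))) .nil)))))))))

noncomputable def tv847 : DT := (.nd (nat_lit 0) (.nd (nat_lit 1) (.nd (nat_lit 2) (.nd (nat_lit 3) (.nd (nat_lit 4) (.nd (nat_lit 5) 
(.lf (nat_lit 61824) (.g (nat_lit 2268) (.e (nat_lit 1572) (nat_lit 110) (.e (nat_lit 352318) (nat_lit 24) (.e (nat_lit 123198) (nat_lit 266) (.e (nat_lit 57427) (nat_lit 15) (.e (nat_lit 360486) (nat_lit 18) (.e (nat_lit 671748) (nat_lit 0) .nil)))))) (.g (nat_lit 5) .nil .nil))) 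
(.lf (nat_lit 61856) (.g (nat_lit 2173) (.e (nat_lit 1573) (nat_lit 110) (.e (nat_lit 352292) (nat_lit 20) (.e (nat_lit 1788) (nat_lit 119) (.e (nat_lit 516139) (nat_lit 7) (.e (nat_lit 417536) (nat_lit 18) .nil))))) .nil))) (.nd (nat_lit 5) 
(.lf (nat_lit 61840) (.g (nat_lit 1977) (.e (nat_lit 1572) (nat_lit 110) (.e (nat_lit 352324) (nat_lit 26) (.e (nat_lit 147496) (nat_lit 11) (.e (nat_lit 24628) (nat_lit 9) (.e (nat_lit 335878) (nat_lit 0) .nil))))) .nil)) 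
(.lf (nat_lit 61872) (.g (nat_lit 1002) (.e (nat_lit 1574) (nat_lit 110) (.e (nat_lit 352258) (nat_lit 0) (.e (nat_lit 7086) (nat_lit 379) (.e (nat_lit 123214) (nat_lit 275) (.e (nat_lit 73772) (nat_lit 24) (.e (nat_lit 761869) (nat_lit 5) .nil)))))) (.g (nat_lit 0) .nil .nil))))) (.nd (nat_lit 4) (.nd (nat_lit 5) 
(.lf (nat_lit 61832) (.g (nat_lit 537) (.e (nat_lit 1572) (nat_lit 110) (.e (nat_lit 352324) (nat_lit 26) (.e (nat_lit 147494) (nat_lit 11) .nil))) .nil)) 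
(.lf (nat_lit 61864) (.g (nat_lit 690) (.e (nat_lit 1574) (nat_lit 110) (.e (nat_lit 352257) (nat_lit 0) (.e (nat_lit 7077) (nat_lit 378) (.e (nat_lit 57898) (nat_lit 275) (.e (nat_lit 73772) (nat_lit 24) (.e (nat_lit 761868) (nat_lit 5) .nil)))))) (.g (nat_lit 0) .nil .nil)))) (.nd (nat_lit 5) 
(.lf (nat_lit 61848) (.g (nat_lit 1966) (.e (nat_lit 1573) (nat_lit 110) (.e (nat_lit 352262) (nat_lit 0) (.e (nat_lit 3305) (nat_lit 202) (.e (nat_lit 573489) (nat_lit 14) (.e (nat_lit 73782) (nat_lit 32) .nil))))) .nil)) 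
(.lf (nat_lit 61880) (.g (nat_lit 1314) (.e (nat_lit 1574) (nat_lit 110) (.e (nat_lit 352269) (nat_lit 7) (.e (nat_lit 245776) (nat_lit 4) (.e (nat_lit 172079) (nat_lit 7) (.e (nat_lit 409634) (nat_lit 13) (.e (nat_lit 40962) (nat_lit 0) .nil)))))) (.g (nat_lit 6) .nil .nil)))))) (.nd (nat_lit 3) (.nd (nat_lit 4) (.nd (nat_lit 5) 
(.lf (nat_lit 61828) (.g (nat_lit 1267) (.e (nat_lit 1572) (nat_lit 110) (.e (nat_lit 352324) (nat_lit 26) (.e (nat_lit 147467) (nat_lit 9) (.e (nat_lit 314) (nat_lit 23) .nil)))) .nil)) 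
(.lf (nat_lit 61860) (.g (nat_lit 4717) (.e (nat_lit 1573) (nat_lit 110) (.e (nat_lit 352313) (nat_lit 23) (.e (nat_lit 98350) (nat_lit 24) (.e (nat_lit 409646) (nat_lit 18) (.e (nat_lit 303117) (nat_lit 2) (.e (nat_lit 196630) (nat_lit 9) .nil)))))) (.g (nat_lit 0) .nil .nil)))) (.nd (nat_lit 5) 
(.lf (nat_lit 61844) (.g (nat_lit 2454) (.e (nat_lit 1572) (nat_lit 110) (.e (nat_lit 352324) (nat_lit 26) (.e (nat_lit 147496) (nat_lit 11) (.e (nat_lit 24640) (nat_lit 10) (.e (nat_lit 344177) (nat_lit 43) .nil))))) .nil)) 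
(.lf (nat_lit 61876) (.g (nat_lit 657) (.e (nat_lit 1574) (nat_lit 110) (.e (nat_lit 352258) (nat_lit 0) (.e (nat_lit 7088) (nat_lit 379) (.e (nat_lit 123214) (nat_lit 275) (.e (nat_lit 73772) (nat_lit 24) (.e (nat_lit 761867) (nat_lit 5) .nil)))))) (.g (nat_lit 0) .nil .nil))))) (.nd (nat_lit 4) (.nd (nat_lit 5) 
(.lf (nat_lit 61836) (.g (nat_lit 2380) (.e (nat_lit 1572) (nat_lit 110) (.e (nat_lit 352324) (nat_lit 26) (.e (nat_lit 147495) (nat_lit 11) (.e (nat_lit 24628) (nat_lit 9) (.e (nat_lit 335878) (nat_lit 0) .nil))))) .nil)) 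
(.lf (nat_lit 61868) (.g (nat_lit 772) (.e (nat_lit 1574) (nat_lit 110) (.e (nat_lit 352257) (nat_lit 0) (.e (nat_lit 7082) (nat_lit 378) (.e (nat_lit 57898) (nat_lit 275) (.e (nat_lit 73772) (nat_lit 24) (.e (nat_lit 761866) (nat_lit 5) .nil)))))) (.g (nat_lit 0) .nil .nil)))) (.nd (nat_lit 5) 
(.lf (nat_lit 61852) (.g (nat_lit 1463) (.e (nat_lit 1573) (nat_lit 110) (.e (nat_lit 352277) (nat_lit 11) (.e (nat_lit 426343) (nat_lit 14) (.e (nat_lit 491558) (nat_lit 10) .nil)))) .nil)) 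
(.lf (nat_lit 61884) (.g (nat_lit 1258) (.e (nat_lit 1574) (nat_lit 110) (.e (nat_lit 352269) (nat_lit 7) (.e (nat_lit 245776) (nat_lit 4) (.e (nat_lit 172082) (nat_lit 7) (.e (nat_lit 409634) (nat_lit 13) (.e (nat_lit 40962) (nat_lit 0) .nil)))))) (.g (nat_lit 5) .nil .nil))))))) (.nd (nat_lit 2) (.nd (nat_lit 3) (.nd (nat_lit 4) (.nd (nat_lit 5) 
(.lf (nat_lit 61826) (.g (nat_lit 4239) (.e (nat_lit 1572) (nat_lit 110) (.e (nat_lit 352321) (nat_lit 25) (.e (nat_lit 139289) (nat_lit 9) (.e (nat_lit 3102) (nat_lit 192) (.e (nat_lit 491560) (nat_lit 10) (.e (nat_lit 344126) (nat_lit 25) (.e (nat_lit 548874) (nat_lit 5) .nil))))))) (.g (nat_lit 0) .nil .nil))) 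
(.lf (nat_lit 61858) (.g (nat_lit 4390) (.e (nat_lit 1573) (nat_lit 110) (.e (nat_lit 352313) (nat_lit 23) (.e (nat_lit 98349) (nat_lit 24) (.e (nat_lit 409646) (nat_lit 18) (.e (nat_lit 303117) (nat_lit 2) (.e (nat_lit 196630) (nat_lit 9) .nil)))))) (.g (nat_lit 0) .nil .nil)))) (.nd (nat_lit 5) 
(.lf (nat_lit 61842) (.g (nat_lit 1497) (.e (nat_lit 1572) (nat_lit 110) (.e (nat_lit 352324) (nat_lit 26) (.e (nat_lit 147496) (nat_lit 11) (.e (nat_lit 24631) (nat_lit 9) .nil)))) .nil)) 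
(.lf (nat_lit 61874) (.g (nat_lit 1036) (.e (nat_lit 1574) (nat_lit 110) (.e (nat_lit 352258) (nat_lit 0) (.e (nat_lit 7087) (nat_lit 379) (.e (nat_lit 123214) (nat_lit 275) (.e (nat_lit 73772) (nat_lit 24) (.e (nat_lit 761869) (nat_lit 5) .nil)))))) (.g (nat_lit 0) .nil .nil))))) (.nd (nat_lit 4) (.nd (nat_lit 5) 
(.lf (nat_lit 61834) (.g (nat_lit 2578) (.e (nat_lit 1572) (nat_lit 110) (.e (nat_lit 352324) (nat_lit 26) (.e (nat_lit 147494) (nat_lit 11) (.e (nat_lit 24665) (nat_lit 14) (.e (nat_lit 401413) (nat_lit 0) (.e (nat_lit 3459) (nat_lit 216) (.e (nat_lit 688144) (nat_lit 13) .nil))))))) (.g (nat_lit 5) .nil .nil))) 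
(.lf (nat_lit 61866) (.g (nat_lit 667) (.e (nat_lit 1574) (nat_lit 110) (.e (nat_lit 352257) (nat_lit 0) (.e (nat_lit 7081) (nat_lit 378) (.e (nat_lit 57898) (nat_lit 275) (.e (nat_lit 73772) (nat_lit 24) (.e (nat_lit 761867) (nat_lit 5) .nil)))))) (.g (nat_lit 0) .nil .nil)))) (.nd (nat_lit 5) 
(.lf (nat_lit 61850) (.g (nat_lit 1710) (.e (nat_lit 1573) (nat_lit 110) (.e (nat_lit 352277) (nat_lit 11) (.e (nat_lit 426011) (nat_lit 0) (.e (nat_lit 7593) (nat_lit 407) .nil)))) .nil)) 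
(.lf (nat_lit 61882) (.g (nat_lit 1021) (.e (nat_lit 1574) (nat_lit 110) (.e (nat_lit 352269) (nat_lit 7) (.e (nat_lit 245776) (nat_lit 4) (.e (nat_lit 172080) (nat_lit 7) (.e (nat_lit 409634) (nat_lit 13) (.e (nat_lit 40962) (nat_lit 0) .nil)))))) (.g (nat_lit 5) .nil .nil)))))) (.nd (nat_lit 3) (.nd (nat_lit 4) (.nd (nat_lit 5) 
(.lf (nat_lit 61830) (.g (nat_lit 2088) (.e (nat_lit 1572) (nat_lit 110) (.e (nat_lit 352324) (nat_lit 26) (.e (nat_lit 147467) (nat_lit 9) (.e (nat_lit 314) (nat_lit 23) (.e (nat_lit 352297) (nat_lit 20) .nil))))) .nil)) 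
(.lf (nat_lit 61862) (.g (nat_lit 4304) (.e (nat_lit 1573) (nat_lit 110) (.e (nat_lit 352314) (nat_lit 23) (.e (nat_lit 98350) (nat_lit 24) (.e (nat_lit 409646) (nat_lit 18) (.e (nat_lit 303117) (nat_lit 2) (.e (nat_lit 196630) (nat_lit 9) .nil)))))) (.g (nat_lit 0) .nil .nil)))) (.nd (nat_lit 5) 
(.lf (nat_lit 61846) (.g (nat_lit 1556) (.e (nat_lit 1572) (nat_lit 110) (.e (nat_lit 352324) (nat_lit 26) (.e (nat_lit 147496) (nat_lit 11) (.e (nat_lit 24641) (nat_lit 10) .nil)))) .nil)) 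
(.lf (nat_lit 61878) (.g (nat_lit 674) (.e (nat_lit 1574) (nat_lit 110) (.e (nat_lit 352258) (nat_lit 0) (.e (nat_lit 7089) (nat_lit 379) (.e (nat_lit 123214) (nat_lit 275) (.e (nat_lit 73772) (nat_lit 24) (.e (nat_lit 761867) (nat_lit 5) .nil)))))) (.g (nat_lit 0) .nil .nil))))) (.nd (nat_lit 4) (.nd (nat_lit 5) 
(.lf (nat_lit 61838) (.g (nat_lit 2690) (.e (nat_lit 1572) (nat_lit 110) (.e (nat_lit 352324) (nat_lit 26) (.e (nat_lit 147495) (nat_lit 11) (.e (nat_lit 24639) (nat_lit 10) (.e (nat_lit 344177) (nat_lit 43) (.e (nat_lit 770058) (nat_lit 5) .nil)))))) (.g (nat_lit 5) .nil .nil))) 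
(.lf (nat_lit 61870) (.g (nat_lit 656) (.e (nat_lit 1574) (nat_lit 110) (.e (nat_lit 352257) (nat_lit 0) (.e (nat_lit 7082) (nat_lit 378) (.e (nat_lit 57898) (nat_lit 275) (.e (nat_lit 73772) (nat_lit 24) (.e (nat_lit 761868) (nat_lit 5) .nil)))))) (.g (nat_lit 0) .nil .nil)))) (.nd (nat_lit 5) 
(.lf (nat_lit 61854) (.g (nat_lit 526) (.e (nat_lit 1573) (nat_lit 110) (.e (nat_lit 352277) (nat_lit 11) (.e (nat_lit 426344) (nat_lit 14) .nil))) .nil)) 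
(.lf (nat_lit 61886) (.g (nat_lit 1232) (.e (nat_lit 1574) (nat_lit 110) (.e (nat_lit 352271) (nat_lit 9) (.e (nat_lit 409602) (nat_lit 0) (.e (nat_lit 5411) (nat_lit 303) (.e (nat_lit 73772) (nat_lit 24) (.e (nat_lit 761866) (nat_lit 5) .nil)))))) (.g (nat_lit 0) .nil .nil)))))))) (.nd (nat_lit 1) (.nd (nat_lit 2) (.nd (nat_lit 3) (.nd (nat_lit 4) (.nd (nat_lit 5) 
(.lf (nat_lit 61825) (.g (nat_lit 1721) (.e (nat_lit 1572) (nat_lit 110) (.e (nat_lit 352318) (nat_lit 24) (.e (nat_lit 123198) (nat_lit 266) (.e (nat_lit 57428) (nat_lit 15) (.e (nat_lit 360486) (nat_lit 18) .nil))))) .nil)) 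
(.lf (nat_lit 61857) (.g (nat_lit 1388) (.e (nat_lit 1573) (nat_lit 110) (.e (nat_lit 352294) (nat_lit 20) (.e (nat_lit 1788) (nat_lit 119) (.e (nat_lit 516106) (nat_lit 0) (.e (nat_lit 7936) (nat_lit 377) .nil))))) .nil))) (.nd (nat_lit 5) 
(.lf (nat_lit 61841) (.g (nat_lit 2053) (.e (nat_lit 1572) (nat_lit 110) (.e (nat_lit 352324) (nat_lit 26) (.e (nat_lit 147496) (nat_lit 11) (.e (nat_lit 24628) (nat_lit 9) (.e (nat_lit 335878) (nat_lit 0) (.e (nat_lit 2283) (nat_lit 150) (.e (nat_lit 770058) (nat_lit 5) .nil))))))) (.g (nat_lit 4) .nil .nil))) 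
(.lf (nat_lit 61873) (.g (nat_lit 644) (.e (nat_lit 1574) (nat_lit 110) (.e (nat_lit 352258) (nat_lit 0) (.e (nat_lit 7087) (nat_lit 379) (.e (nat_lit 123214) (nat_lit 275) (.e (nat_lit 73772) (nat_lit 24) (.e (nat_lit 761867) (nat_lit 5) .nil)))))) (.g (nat_lit 0) .nil .nil))))) (.nd (nat_lit 4) (.nd (nat_lit 5) 
(.lf (nat_lit 61833) (.g (nat_lit 1974) (.e (nat_lit 1572) (nat_lit 110) (.e (nat_lit 352324) (nat_lit 26) (.e (nat_lit 147494) (nat_lit 11) (.e (nat_lit 24665) (nat_lit 14) (.e (nat_lit 401413) (nat_lit 0) .nil))))) .nil)) 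
(.lf (nat_lit 61865) (.g (nat_lit 651) (.e (nat_lit 1574) (nat_lit 110) (.e (nat_lit 352257) (nat_lit 0) (.e (nat_lit 7079) (nat_lit 378) (.e (nat_lit 57898) (nat_lit 275) (.e (nat_lit 73772) (nat_lit 24) (.e (nat_lit 761867) (nat_lit 5) .nil)))))) (.g (nat_lit 0) .nil .nil)))) (.nd (nat_lit 5) 
(.lf (nat_lit 61849) (.g (nat_lit 1725) (.e (nat_lit 1573) (nat_lit 110) (.e (nat_lit 352277) (nat_lit 11) (.e (nat_lit 426011) (nat_lit 0) (.e (nat_lit 7591) (nat_lit 407) .nil)))) .nil)) 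
(.lf (nat_lit 61881) (.g (nat_lit 685) (.e (nat_lit 1574) (nat_lit 110) (.e (nat_lit 352269) (nat_lit 7) (.e (nat_lit 245776) (nat_lit 4) (.e (nat_lit 172079) (nat_lit 7) (.e (nat_lit 409634) (nat_lit 13) (.e (nat_lit 48896) (nat_lit 0) .nil)))))) (.g (nat_lit 4) .nil .nil)))))) (.nd (nat_lit 3) (.nd (nat_lit 4) (.nd (nat_lit 5) 
(.lf (nat_lit 61829) (.g (nat_lit 2186) (.e (nat_lit 1572) (nat_lit 110) (.e (nat_lit 352324) (nat_lit 26) (.e (nat_lit 147467) (nat_lit 9) (.e (nat_lit 314) (nat_lit 23) (.e (nat_lit 352290) (nat_lit 20) (.e (nat_lit 2281) (nat_lit 150) (.e (nat_lit 770058) (nat_lit 5) .nil))))))) (.g (nat_lit 4) .nil .nil))) 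
(.lf (nat_lit 61861) (.g (nat_lit 4014) (.e (nat_lit 1573) (nat_lit 110) (.e (nat_lit 352314) (nat_lit 23) (.e (nat_lit 98349) (nat_lit 24) (.e (nat_lit 409645) (nat_lit 18) (.e (nat_lit 303117) (nat_lit 2) (.e (nat_lit 196630) (nat_lit 9) .nil)))))) (.g (nat_lit 6) .nil .nil)))) (.nd (nat_lit 5) 
(.lf (nat_lit 61845) (.g (nat_lit 2487) (.e (nat_lit 1572) (nat_lit 110) (.e (nat_lit 352324) (nat_lit 26) (.e (nat_lit 147496) (nat_lit 11) (.e (nat_lit 24640) (nat_lit 10) (.e (nat_lit 344177) (nat_lit 43) (.e (nat_lit 770057) (nat_lit 5) .nil)))))) (.g (nat_lit 4) .nil .nil))) 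
(.lf (nat_lit 61877) (.g (nat_lit 815) (.e (nat_lit 1574) (nat_lit 110) (.e (nat_lit 352258) (nat_lit 0) (.e (nat_lit 7089) (nat_lit 379) (.e (nat_lit 123214) (nat_lit 275) (.e (nat_lit 73772) (nat_lit 24) (.e (nat_lit 761866) (nat_lit 5) .nil)))))) (.g (nat_lit 0) .nil .nil))))) (.nd (nat_lit 4) (.nd (nat_lit 5) 
(.lf (nat_lit 61837) (.g (nat_lit 2095) (.e (nat_lit 1572) (nat_lit 110) (.e (nat_lit 352324) (nat_lit 26) (.e (nat_lit 147495) (nat_lit 11) (.e (nat_lit 24639) (nat_lit 10) (.e (nat_lit 344177) (nat_lit 43) .nil))))) .nil)) 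
(.lf (nat_lit 61869) (.g (nat_lit 625) (.e (nat_lit 1574) (nat_lit 110) (.e (nat_lit 352257) (nat_lit 0) (.e (nat_lit 7082) (nat_lit 378) (.e (nat_lit 57898) (nat_lit 275) (.e (nat_lit 73772) (nat_lit 24) (.e (nat_lit 761867) (nat_lit 5) .nil)))))) (.g (nat_lit 0) .nil .nil)))) (.nd (nat_lit 5) 
(.lf (nat_lit 61853) (.g (nat_lit 1375) (.e (nat_lit 1573) (nat_lit 110) (.e (nat_lit 352277) (nat_lit 11) (.e (nat_lit 426343) (nat_lit 14) (.e (nat_lit 491560) (nat_lit 10) .nil)))) .nil)) 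
(.lf (nat_lit 61885) (.g (nat_lit 1703) (.e (nat_lit 1574) (nat_lit 110) (.e (nat_lit 352271) (nat_lit 9) (.e (nat_lit 409602) (nat_lit 0) (.e (nat_lit 5404) (nat_lit 302) (.e (nat_lit 65549) (nat_lit 0) (.e (nat_lit 2270) (nat_lit 149) (.e (nat_lit 761868) (nat_lit 5) .nil))))))) (.g (nat_lit 0) .nil .nil))))))) (.nd (nat_lit 2) (.nd (nat_lit 3) (.nd (nat_lit 4) (.nd (nat_lit 5) 
(.lf (nat_lit 61827) (.g (nat_lit 540) (.e (nat_lit 1572) (nat_lit 110) (.e (nat_lit 352324) (nat_lit 26) (.e (nat_lit 147465) (nat_lit 9) .nil))) .nil)) 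
(.lf (nat_lit 61859) (.g (nat_lit 4361) (.e (nat_lit 1573) (nat_lit 110) (.e (nat_lit 352313) (nat_lit 23) (.e (nat_lit 98350) (nat_lit 24) (.e (nat_lit 409645) (nat_lit 18) (.e (nat_lit 303117) (nat_lit 2) (.e (nat_lit 196630) (nat_lit 9) .nil)))))) (.g (nat_lit 6) .nil .nil)))) (.nd (nat_lit 5) 
(.lf (nat_lit 61843) (.g (nat_lit 1988) (.e (nat_lit 1572) (nat_lit 110) (.e (nat_lit 352324) (nat_lit 26) (.e (nat_lit 147496) (nat_lit 11) (.e (nat_lit 24639) (nat_lit 10) (.e (nat_lit 344177) (nat_lit 43) .nil))))) .nil)) 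
(.lf (nat_lit 61875) (.g (nat_lit 803) (.e (nat_lit 1574) (nat_lit 110) (.e (nat_lit 352258) (nat_lit 0) (.e (nat_lit 7088) (nat_lit 379) (.e (nat_lit 123214) (nat_lit 275) (.e (nat_lit 73772) (nat_lit 24) (.e (nat_lit 761866) (nat_lit 5) .nil)))))) (.g (nat_lit 0) .nil .nil))))) (.nd (nat_lit 4) (.nd (nat_lit 5) 
(.lf (nat_lit 61835) (.g (nat_lit 3780) (.e (nat_lit 1572) (nat_lit 110) (.e (nat_lit 352324) (nat_lit 26) (.e (nat_lit 147494) (nat_lit 11) (.e (nat_lit 24665) (nat_lit 14) (.e (nat_lit 401414) (nat_lit 0) (.e (nat_lit 3459) (nat_lit 216) (.e (nat_lit 688152) (nat_lit 13) .nil))))))) (.g (nat_lit 6) .nil .nil))) 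
(.lf (nat_lit 61867) (.g (nat_lit 696) (.e (nat_lit 1574) (nat_lit 110) (.e (nat_lit 352257) (nat_lit 0) (.e (nat_lit 7081) (nat_lit 378) (.e (nat_lit 57898) (nat_lit 275) (.e (nat_lit 73772) (nat_lit 24) (.e (nat_lit 761868) (nat_lit 5) .nil)))))) (.g (nat_lit 0) .nil .nil)))) (.nd (nat_lit 5) 
(.lf (nat_lit 61851) (.g (nat_lit 977) (.e (nat_lit 1573) (nat_lit 110) (.e (nat_lit 352277) (nat_lit 11) (.e (nat_lit 426098) (nat_lit 1) (.e (nat_lit 164179) (nat_lit 154) .nil)))) .nil)) 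
(.lf (nat_lit 61883) (.g (nat_lit 913) (.e (nat_lit 1574) (nat_lit 110) (.e (nat_lit 352269) (nat_lit 7) (.e (nat_lit 245776) (nat_lit 4) (.e (nat_lit 172081) (nat_lit 7) (.e (nat_lit 409634) (nat_lit 13) (.e (nat_lit 40962) (nat_lit 0) .nil)))))) (.g (nat_lit 5) .nil .nil)))))) (.nd (nat_lit 3) (.nd (nat_lit 4) (.nd (nat_lit 5) 
(.lf (nat_lit 61831) (.g (nat_lit 2218) (.e (nat_lit 1572) (nat_lit 110) (.e (nat_lit 352324) (nat_lit 26) (.e (nat_lit 147467) (nat_lit 9) (.e (nat_lit 314) (nat_lit 23) (.e (nat_lit 352297) (nat_lit 20) (.e (nat_lit 2281) (nat_lit 150) (.e (nat_lit 770058) (nat_lit 5) .nil))))))) (.g (nat_lit 4) .nil .nil))) 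
(.lf (nat_lit 61863) (.g (nat_lit 661) (.e (nat_lit 1574) (nat_lit 110) (.e (nat_lit 352257) (nat_lit 0) (.e (nat_lit 7077) (nat_lit 378) (.e (nat_lit 57898) (nat_lit 275) (.e (nat_lit 73772) (nat_lit 24) (.e (nat_lit 761867) (nat_lit 5) .nil)))))) (.g (nat_lit 0) .nil .nil)))) (.nd (nat_lit 5) 
(.lf (nat_lit 61847) (.g (nat_lit 1207) (.e (nat_lit 1572) (nat_lit 110) (.e (nat_lit 352324) (nat_lit 26) (.e (nat_lit 147512) (nat_lit 14) (.e (nat_lit 2807) (nat_lit 180) (.e (nat_lit 303137) (nat_lit 10) .nil))))) .nil)) 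
(.lf (nat_lit 61879) (.g (nat_lit 379) (.e (nat_lit 1574) (nat_lit 110) (.e (nat_lit 352267) (nat_lit 0) (.e (nat_lit 3632) (nat_lit 227) .nil))) .nil)))) (.nd (nat_lit 4) (.nd (nat_lit 5) 
(.lf (nat_lit 61839) (.g (nat_lit 2362) (.e (nat_lit 1572) (nat_lit 110) (.e (nat_lit 352324) (nat_lit 26) (.e (nat_lit 147495) (nat_lit 11) (.e (nat_lit 24640) (nat_lit 10) (.e (nat_lit 344177) (nat_lit 43) .nil))))) .nil)) 
(.lf (nat_lit 61871) (.g (nat_lit 606) (.e (nat_lit 1574) (nat_lit 110) (.e (nat_lit 352258) (nat_lit 0) (.e (nat_lit 7086) (nat_lit 379) (.e (nat_lit 123214) (nat_lit 275) (.e (nat_lit 73772) (nat_lit 24) (.e (nat_lit 761867) (nat_lit 5) .nil)))))) (.g (nat_lit 0) .nil .nil)))) (.nd (nat_lit 5) 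
(.lf (nat_lit 61855) (.g (nat_lit 1078) (.e (nat_lit 1573) (nat_lit 110) (.e (nat_lit 352277) (nat_lit 11) (.e (nat_lit 426344) (nat_lit 14) (.e (nat_lit 491560) (nat_lit 10) .nil)))) .nil)) 
(.lf (nat_lit 61887) (.g (nat_lit 1093) (.e (nat_lit 1574) (nat_lit 110) (.e (nat_lit 352271) (nat_lit 9) (.e (nat_lit 409602) (nat_lit 0) (.e (nat_lit 5411) (nat_lit 303) (.e (nat_lit 73772) (nat_lit 24) (.e (nat_lit 761867) (nat_lit 5) .nil)))))) (.g (nat_lit 0) .nil .nil)))))))))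

noncomputable def tv848 : DT := (.nd (nat_lit 0) (.nd (nat_lit 1) (.nd (nat_lit 2) (.nd (nat_lit 3) (.nd (nat_lit 4) (.nd (nat_lit 5) 
(.lf (nat_lit 61888) (.g (nat_lit 1116) (.e (nat_lit 1574) (nat_lit 110) (.e (nat_lit 352271) (nat_lit 9) (.e (nat_lit 409602) (nat_lit 0) (.e (nat_lit 5411) (nat_lit 303) (.e (nat_lit 73772) (nat_lit 24) (.e (nat_lit 761868) (nat_lit 5) .nil)))))) (.g (nat_lit 0) .nil .nil))) 
(.lf (nat_lit 61920) (.g (nat_lit 1757) (.e (nat_lit 1574) (nat_lit 110) (.e (nat_lit 352275) (nat_lit 11) (.e (nat_lit 426011) (nat_lit 0) (.e (nat_lit 7593) (nat_lit 407) (.e (nat_lit 73772) (nat_lit 24) .nil))))) .nil))) (.nd (nat_lit 5) 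
(.lf (nat_lit 61904) (.g (nat_lit 1385) (.e (nat_lit 1574) (nat_lit 110) (.e (nat_lit 352272) (nat_lit 10) (.e (nat_lit 417796) (nat_lit 0) (.e (nat_lit 5412) (nat_lit 303) (.e (nat_lit 73772) (nat_lit 24) (.e (nat_lit 761867) (nat_lit 5) .nil)))))) (.g (nat_lit 0) .nil .nil))) 
(.lf (nat_lit 61936) (.g (nat_lit 685) (.e (nat_lit 1574) (nat_lit 110) (.e (nat_lit 352276) (nat_lit 11) (.e (nat_lit 425989) (nat_lit 0) (.e (nat_lit 7592) (nat_lit 407) (.e (nat_lit 73772) (nat_lit 24) (.e (nat_lit 761868) (nat_lit 5) .nil)))))) (.g (nat_lit 0) .nil .nil))))) (.nd (nat_lit 4) (.nd (nat_lit 5) 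
(.lf (nat_lit 61896) (.g (nat_lit 360) (.e (nat_lit 1574) (nat_lit 110) (.e (nat_lit 352272) (nat_lit 10) (.e (nat_lit 417794) (nat_lit 0) (.e (nat_lit 5410) (nat_lit 303) .nil)))) .nil)) 
(.lf (nat_lit 61928) (.g (nat_lit 1633) (.e (nat_lit 1574) (nat_lit 110) (.e (nat_lit 352275) (nat_lit 11) (.e (nat_lit 426344) (nat_lit 14) (.e (nat_lit 491558) (nat_lit 10) (.e (nat_lit 344174) (nat_lit 42) .nil))))) .nil))) (.nd (nat_lit 5) 
(.lf (nat_lit 61912) (.g (nat_lit 1831) (.e (nat_lit 1574) (nat_lit 110) (.e (nat_lit 352272) (nat_lit 10) (.e (nat_lit 417811) (nat_lit 6) (.e (nat_lit 286754) (nat_lit 10) (.e (nat_lit 344174) (nat_lit 42) (.e (nat_lit 761867) (nat_lit 5) .nil)))))) (.g (nat_lit 0) .nil .nil))) 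
(.lf (nat_lit 61944) (.g (nat_lit 1658) (.e (nat_lit 1574) (nat_lit 110) (.e (nat_lit 352277) (nat_lit 11) (.e (nat_lit 426010) (nat_lit 0) (.e (nat_lit 7591) (nat_lit 407) (.e (nat_lit 73772) (nat_lit 24) (.e (nat_lit 761866) (nat_lit 5) .nil)))))) (.g (nat_lit 6) .nil .nil)))))) (.nd (nat_lit 3) (.nd (nat_lit 4) (.nd (nat_lit 5) 
(.lf (nat_lit 61892) (.g (nat_lit 716) (.e (nat_lit 1574) (nat_lit 110) (.e (nat_lit 352271) (nat_lit 9) (.e (nat_lit 409604) (nat_lit 0) (.e (nat_lit 5411) (nat_lit 303) (.e (nat_lit 73772) (nat_lit 24) (.e (nat_lit 761867) (nat_lit 5) .nil)))))) (.g (nat_lit 0) .nil .nil))) 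
(.lf (nat_lit 61924) (.g (nat_lit 2024) (.e (nat_lit 1574) (nat_lit 110) (.e (nat_lit 352275) (nat_lit 11) (.e (nat_lit 426343) (nat_lit 14) (.e (nat_lit 491558) (nat_lit 10) (.e (nat_lit 344174) (nat_lit 42) (.e (nat_lit 761868) (nat_lit 5) .nil)))))) (.g (nat_lit 4) .nil .nil)))) (.nd (nat_lit 5) 
(.lf (nat_lit 61908) (.g (nat_lit 2068) (.e (nat_lit 1574) (nat_lit 110) (.e (nat_lit 352272) (nat_lit 10) (.e (nat_lit 417811) (nat_lit 6) (.e (nat_lit 286753) (nat_lit 10) (.e (nat_lit 344174) (nat_lit 42) (.e (nat_lit 761866) (nat_lit 5) .nil)))))) (.g (nat_lit 0) .nil .nil))) 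
(.lf (nat_lit 61940) (.g (nat_lit 1174) (.e (nat_lit 1574) (nat_lit 110) (.e (nat_lit 352277) (nat_lit 11) (.e (nat_lit 426009) (nat_lit 0) (.e (nat_lit 7591) (nat_lit 407) (.e (nat_lit 73772) (nat_lit 24) (.e (nat_lit 761867) (nat_lit 5) .nil)))))) (.g (nat_lit 4) .nil .nil))))) (.nd (nat_lit 4) (.nd (nat_lit 5) 
(.lf (nat_lit 61900) (.g (nat_lit 1593) (.e (nat_lit 1574) (nat_lit 110) (.e (nat_lit 352272) (nat_lit 10) (.e (nat_lit 417795) (nat_lit 0) (.e (nat_lit 5412) (nat_lit 303) (.e (nat_lit 73772) (nat_lit 24) (.e (nat_lit 761866) (nat_lit 5) .nil)))))) (.g (nat_lit 0) .nil .nil))) 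
(.lf (nat_lit 61932) (.g (nat_lit 723) (.e (nat_lit 1574) (nat_lit 110) (.e (nat_lit 352276) (nat_lit 11) (.e (nat_lit 425984) (nat_lit 0) (.e (nat_lit 7592) (nat_lit 407) (.e (nat_lit 73772) (nat_lit 24) (.e (nat_lit 761868) (nat_lit 5) .nil)))))) (.g (nat_lit 0) .nil .nil)))) (.nd (nat_lit 5) 
(.lf (nat_lit 61916) (.g (nat_lit 1619) (.e (nat_lit 1574) (nat_lit 110) (.e (nat_lit 352272) (nat_lit 10) (.e (nat_lit 417811) (nat_lit 6) (.e (nat_lit 286755) (nat_lit 10) (.e (nat_lit 344174) (nat_lit 42) (.e (nat_lit 761868) (nat_lit 5) .nil)))))) (.g (nat_lit 0) .nil .nil))) 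
(.lf (nat_lit 61948) (.g (nat_lit 2597) (.e (nat_lit 1574) (nat_lit 110) (.e (nat_lit 352277) (nat_lit 11) (.e (nat_lit 426011) (nat_lit 0) (.e (nat_lit 7591) (nat_lit 407) (.e (nat_lit 73772) (nat_lit 24) (.e (nat_lit 761866) (nat_lit 5) .nil)))))) (.g (nat_lit 6) .nil .nil))))))) (.nd (nat_lit 2) (.nd (nat_lit 3) (.nd (nat_lit 4) (.nd (nat_lit 5) 
(.lf (nat_lit 61890) (.g (nat_lit 1318) (.e (nat_lit 1574) (nat_lit 110) (.e (nat_lit 352271) (nat_lit 9) (.e (nat_lit 409603) (nat_lit 0) (.e (nat_lit 5404) (nat_lit 302) (.e (nat_lit 65549) (nat_lit 0) (.e (nat_lit 2270) (nat_lit 149) (.e (nat_lit 761868) (nat_lit 5) .nil))))))) (.g (nat_lit 0) .nil .nil))) 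
(.lf (nat_lit 61922) (.g (nat_lit 1695) (.e (nat_lit 1574) (nat_lit 110) (.e (nat_lit 352275) (nat_lit 11) (.e (nat_lit 426342) (nat_lit 14) (.e (nat_lit 491560) (nat_lit 10) (.e (nat_lit 344174) (nat_lit 42) .nil))))) .nil))) (.nd (nat_lit 5) 
(.lf (nat_lit 61906) (.g (nat_lit 1008) (.e (nat_lit 1574) (nat_lit 110) (.e (nat_lit 352272) (nat_lit 10) (.e (nat_lit 417811) (nat_lit 6) (.e (nat_lit 286753) (nat_lit 10) (.e (nat_lit 344173) (nat_lit 42) (.e (nat_lit 761867) (nat_lit 5) .nil)))))) (.g (nat_lit 4) .nil .nil))) 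
(.lf (nat_lit 61938) (.g (nat_lit 609) (.e (nat_lit 1574) (nat_lit 110) (.e (nat_lit 352276) (nat_lit 11) (.e (nat_lit 425990) (nat_lit 0) (.e (nat_lit 7592) (nat_lit 407) (.e (nat_lit 73772) (nat_lit 24) (.e (nat_lit 761867) (nat_lit 5) .nil)))))) (.g (nat_lit 0) .nil .nil))))) (.nd (nat_lit 4) (.nd (nat_lit 5) 
(.lf (nat_lit 61898) (.g (nat_lit 1577) (.e (nat_lit 1574) (nat_lit 110) (.e (nat_lit 352272) (nat_lit 10) (.e (nat_lit 417795) (nat_lit 0) (.e (nat_lit 5409) (nat_lit 303) (.e (nat_lit 73772) (nat_lit 24) (.e (nat_lit 761866) (nat_lit 5) .nil)))))) (.g (nat_lit 0) .nil .nil))) 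
(.lf (nat_lit 61930) (.g (nat_lit 855) (.e (nat_lit 1574) (nat_lit 110) (.e (nat_lit 352276) (nat_lit 11) (.e (nat_lit 425984) (nat_lit 0) (.e (nat_lit 7590) (nat_lit 407) (.e (nat_lit 73772) (nat_lit 24) (.e (nat_lit 761867) (nat_lit 5) .nil)))))) (.g (nat_lit 6) .nil .nil)))) (.nd (nat_lit 5) 
(.lf (nat_lit 61914) (.g (nat_lit 1838) (.e (nat_lit 1574) (nat_lit 110) (.e (nat_lit 352272) (nat_lit 10) (.e (nat_lit 417811) (nat_lit 6) (.e (nat_lit 286755) (nat_lit 10) (.e (nat_lit 344174) (nat_lit 42) (.e (nat_lit 761866) (nat_lit 5) .nil)))))) (.g (nat_lit 0) .nil .nil))) 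
(.lf (nat_lit 61946) (.g (nat_lit 1586) (.e (nat_lit 1574) (nat_lit 110) (.e (nat_lit 352277) (nat_lit 11) (.e (nat_lit 426010) (nat_lit 0) (.e (nat_lit 7591) (nat_lit 407) (.e (nat_lit 73772) (nat_lit 24) (.e (nat_lit 761868) (nat_lit 5) .nil)))))) (.g (nat_lit 6) .nil .nil)))))) (.nd (nat_lit 3) (.nd (nat_lit 4) (.nd (nat_lit 5) 
(.lf (nat_lit 61894) (.g (nat_lit 685) (.e (nat_lit 1574) (nat_lit 110) (.e (nat_lit 352271) (nat_lit 9) (.e (nat_lit 409605) (nat_lit 0) (.e (nat_lit 5411) (nat_lit 303) (.e (nat_lit 73772) (nat_lit 24) (.e (nat_lit 761867) (nat_lit 5) .nil)))))) (.g (nat_lit 0) .nil .nil))) 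
(.lf (nat_lit 61926) (.g (nat_lit 2103) (.e (nat_lit 1574) (nat_lit 110) (.e (nat_lit 352275) (nat_lit 11) (.e (nat_lit 426343) (nat_lit 14) (.e (nat_lit 491560) (nat_lit 10) (.e (nat_lit 344174) (nat_lit 42) (.e (nat_lit 761867) (nat_lit 5) .nil)))))) (.g (nat_lit 4) .nil .nil)))) (.nd (nat_lit 5) 
(.lf (nat_lit 61910) (.g (nat_lit 1820) (.e (nat_lit 1574) (nat_lit 110) (.e (nat_lit 352272) (nat_lit 10) (.e (nat_lit 417811) (nat_lit 6) (.e (nat_lit 286753) (nat_lit 10) (.e (nat_lit 344174) (nat_lit 42) (.e (nat_lit 761868) (nat_lit 5) .nil)))))) (.g (nat_lit 0) .nil .nil))) 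
(.lf (nat_lit 61942) (.g (nat_lit 1634) (.e (nat_lit 1574) (nat_lit 110) (.e (nat_lit 352277) (nat_lit 11) (.e (nat_lit 426009) (nat_lit 0) (.e (nat_lit 7593) (nat_lit 407) (.e (nat_lit 73772) (nat_lit 24) (.e (nat_lit 761867) (nat_lit 5) .nil)))))) (.g (nat_lit 0) .nil .nil))))) (.nd (nat_lit 4) (.nd (nat_lit 5) 
(.lf (nat_lit 61902) (.g (nat_lit 1891) (.e (nat_lit 1574) (nat_lit 110) (.e (nat_lit 352272) (nat_lit 10) (.e (nat_lit 417796) (nat_lit 0) (.e (nat_lit 5409) (nat_lit 303) (.e (nat_lit 73772) (nat_lit 24) (.e (nat_lit 761866) (nat_lit 5) .nil)))))) (.g (nat_lit 0) .nil .nil))) 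
(.lf (nat_lit 61934) (.g (nat_lit 807) (.e (nat_lit 1574) (nat_lit 110) (.e (nat_lit 352276) (nat_lit 11) (.e (nat_lit 425989) (nat_lit 0) (.e (nat_lit 7592) (nat_lit 407) (.e (nat_lit 73772) (nat_lit 24) (.e (nat_lit 761866) (nat_lit 5) .nil)))))) (.g (nat_lit 0) .nil .nil)))) (.nd (nat_lit 5) 
(.lf (nat_lit 61918) (.g (nat_lit 1952) (.e (nat_lit 1574) (nat_lit 110) (.e (nat_lit 352273) (nat_lit 11) (.e (nat_lit 426343) (nat_lit 14) (.e (nat_lit 491560) (nat_lit 10) (.e (nat_lit 344174) (nat_lit 42) .nil))))) .nil)) 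
(.lf (nat_lit 61950) (.g (nat_lit 2534) (.e (nat_lit 1574) (nat_lit 110) (.e (nat_lit 352277) (nat_lit 11) (.e (nat_lit 426011) (nat_lit 0) (.e (nat_lit 7591) (nat_lit 407) (.e (nat_lit 73772) (nat_lit 24) (.e (nat_lit 761868) (nat_lit 5) .nil)))))) (.g (nat_lit 6) .nil .nil)))))))) (.nd (nat_lit 1) (.nd (nat_lit 2) (.nd (nat_lit 3) (.nd (nat_lit 4) (.nd (nat_lit 5) 
(.lf (nat_lit 61889) (.g (nat_lit 1033) (.e (nat_lit 1574) (nat_lit 110) (.e (nat_lit 352271) (nat_lit 9) (.e (nat_lit 409603) (nat_lit 0) (.e (nat_lit 5293) (nat_lit 298) (.e (nat_lit 1544) (nat_lit 109) (.e (nat_lit 344174) (nat_lit 42) (.e (nat_lit 761868) (nat_lit 5) .nil))))))) (.g (nat_lit 4) .nil .nil))) 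
(.lf (nat_lit 61921) (.g (nat_lit 1441) (.e (nat_lit 1574) (nat_lit 110) (.e (nat_lit 352275) (nat_lit 11) (.e (nat_lit 426342) (nat_lit 14) (.e (nat_lit 491558) (nat_lit 10) (.e (nat_lit 344174) (nat_lit 42) .nil))))) .nil))) (.nd (nat_lit 5) 
(.lf (nat_lit 61905) (.g (nat_lit 1152) (.e (nat_lit 1574) (nat_lit 110) (.e (nat_lit 352272) (nat_lit 10) (.e (nat_lit 417811) (nat_lit 6) (.e (nat_lit 286753) (nat_lit 10) (.e (nat_lit 344173) (nat_lit 42) (.e (nat_lit 761866) (nat_lit 5) .nil)))))) (.g (nat_lit 5) .nil .nil))) 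
(.lf (nat_lit 61937) (.g (nat_lit 1053) (.e (nat_lit 1574) (nat_lit 110) (.e (nat_lit 352276) (nat_lit 11) (.e (nat_lit 425989) (nat_lit 0) (.e (nat_lit 7592) (nat_lit 407) (.e (nat_lit 73772) (nat_lit 24) (.e (nat_lit 761869) (nat_lit 5) .nil)))))) (.g (nat_lit 0) .nil .nil))))) (.nd (nat_lit 4) (.nd (nat_lit 5) 
(.lf (nat_lit 61897) (.g (nat_lit 1080) (.e (nat_lit 1574) (nat_lit 110) (.e (nat_lit 352272) (nat_lit 10) (.e (nat_lit 417794) (nat_lit 0) (.e (nat_lit 5412) (nat_lit 303) (.e (nat_lit 73772) (nat_lit 24) (.e (nat_lit 761867) (nat_lit 5) .nil)))))) (.g (nat_lit 0) .nil .nil))) 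
(.lf (nat_lit 61929) (.g (nat_lit 1769) (.e (nat_lit 1574) (nat_lit 110) (.e (nat_lit 352275) (nat_lit 11) (.e (nat_lit 426344) (nat_lit 14) (.e (nat_lit 491560) (nat_lit 10) (.e (nat_lit 344174) (nat_lit 42) .nil))))) .nil))) (.nd (nat_lit 5) 
(.lf (nat_lit 61913) (.g (nat_lit 1835) (.e (nat_lit 1574) (nat_lit 110) (.e (nat_lit 352272) (nat_lit 10) (.e (nat_lit 417811) (nat_lit 6) (.e (nat_lit 286754) (nat_lit 10) (.e (nat_lit 344174) (nat_lit 42) (.e (nat_lit 761868) (nat_lit 5) .nil)))))) (.g (nat_lit 0) .nil .nil))) 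
(.lf (nat_lit 61945) (.g (nat_lit 1532) (.e (nat_lit 1574) (nat_lit 110) (.e (nat_lit 352277) (nat_lit 11) (.e (nat_lit 426010) (nat_lit 0) (.e (nat_lit 7591) (nat_lit 407) (.e (nat_lit 73772) (nat_lit 24) (.e (nat_lit 761867) (nat_lit 5) .nil)))))) (.g (nat_lit 5) .nil .nil)))))) (.nd (nat_lit 3) (.nd (nat_lit 4) (.nd (nat_lit 5) 
(.lf (nat_lit 61893) (.g (nat_lit 739) (.e (nat_lit 1574) (nat_lit 110) (.e (nat_lit 352271) (nat_lit 9) (.e (nat_lit 409604) (nat_lit 0) (.e (nat_lit 5411) (nat_lit 303) (.e (nat_lit 73772) (nat_lit 24) (.e (nat_lit 761868) (nat_lit 5) .nil)))))) (.g (nat_lit 0) .nil .nil))) 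
(.lf (nat_lit 61925) (.g (nat_lit 2379) (.e (nat_lit 1574) (nat_lit 110) (.e (nat_lit 352275) (nat_lit 11) (.e (nat_lit 426343) (nat_lit 14) (.e (nat_lit 491558) (nat_lit 10) (.e (nat_lit 344174) (nat_lit 42) (.e (nat_lit 761869) (nat_lit 5) .nil)))))) (.g (nat_lit 5) .nil .nil)))) (.nd (nat_lit 5) 
(.lf (nat_lit 61909) (.g (nat_lit 1889) (.e (nat_lit 1574) (nat_lit 110) (.e (nat_lit 352272) (nat_lit 10) (.e (nat_lit 417811) (nat_lit 6) (.e (nat_lit 286753) (nat_lit 10) (.e (nat_lit 344174) (nat_lit 42) (.e (nat_lit 761867) (nat_lit 5) .nil)))))) (.g (nat_lit 0) .nil .nil))) 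
(.lf (nat_lit 61941) (.g (nat_lit 1229) (.e (nat_lit 1574) (nat_lit 110) (.e (nat_lit 352277) (nat_lit 11) (.e (nat_lit 426009) (nat_lit 0) (.e (nat_lit 7591) (nat_lit 407) (.e (nat_lit 73772) (nat_lit 24) (.e (nat_lit 761868) (nat_lit 5) .nil)))))) (.g (nat_lit 4) .nil .nil))))) (.nd (nat_lit 4) (.nd (nat_lit 5) 
(.lf (nat_lit 61901) (.g (nat_lit 1444) (.e (nat_lit 1574) (nat_lit 110) (.e (nat_lit 352272) (nat_lit 10) (.e (nat_lit 417795) (nat_lit 0) (.e (nat_lit 5412) (nat_lit 303) (.e (nat_lit 73772) (nat_lit 24) (.e (nat_lit 761867) (nat_lit 5) .nil)))))) (.g (nat_lit 0) .nil .nil))) 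
(.lf (nat_lit 61933) (.g (nat_lit 662) (.e (nat_lit 1574) (nat_lit 110) (.e (nat_lit 352276) (nat_lit 11) (.e (nat_lit 425987) (nat_lit 0) (.e (nat_lit 7592) (nat_lit 407) (.e (nat_lit 73772) (nat_lit 24) (.e (nat_lit 761867) (nat_lit 5) .nil)))))) (.g (nat_lit 0) .nil .nil)))) (.nd (nat_lit 5) 
(.lf (nat_lit 61917) (.g (nat_lit 1860) (.e (nat_lit 1574) (nat_lit 110) (.e (nat_lit 352273) (nat_lit 11) (.e (nat_lit 426343) (nat_lit 14) (.e (nat_lit 491558) (nat_lit 10) (.e (nat_lit 344174) (nat_lit 42) .nil))))) .nil)) 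
(.lf (nat_lit 61949) (.g (nat_lit 2475) (.e (nat_lit 1574) (nat_lit 110) (.e (nat_lit 352277) (nat_lit 11) (.e (nat_lit 426011) (nat_lit 0) (.e (nat_lit 7591) (nat_lit 407) (.e (nat_lit 73772) (nat_lit 24) (.e (nat_lit 761867) (nat_lit 5) .nil)))))) (.g (nat_lit 6) .nil .nil))))))) (.nd (nat_lit 2) (.nd (nat_lit 3) (.nd (nat_lit 4) (.nd (nat_lit 5) 
(.lf (nat_lit 61891) (.g (nat_lit 735) (.e (nat_lit 1574) (nat_lit 110) (.e (nat_lit 352271) (nat_lit 9) (.e (nat_lit 409603) (nat_lit 0) (.e (nat_lit 5411) (nat_lit 303) (.e (nat_lit 73772) (nat_lit 24) (.e (nat_lit 761867) (nat_lit 5) .nil)))))) (.g (nat_lit 0) .nil .nil))) 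
(.lf (nat_lit 61923) (.g (nat_lit 2071) (.e (nat_lit 1574) (nat_lit 110) (.e (nat_lit 352275) (nat_lit 11) (.e (nat_lit 426343) (nat_lit 14) (.e (nat_lit 491558) (nat_lit 10) (.e (nat_lit 344174) (nat_lit 42) (.e (nat_lit 761867) (nat_lit 5) .nil)))))) (.g (nat_lit 4) .nil .nil)))) (.nd (nat_lit 5) 
(.lf (nat_lit 61907) (.g (nat_lit 1052) (.e (nat_lit 1574) (nat_lit 110) (.e (nat_lit 352272) (nat_lit 10) (.e (nat_lit 417811) (nat_lit 6) (.e (nat_lit 286753) (nat_lit 10) (.e (nat_lit 344173) (nat_lit 42) (.e (nat_lit 761868) (nat_lit 5) .nil)))))) (.g (nat_lit 4) .nil .nil))) 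
(.lf (nat_lit 61939) (.g (nat_lit 1301) (.e (nat_lit 1574) (nat_lit 110) (.e (nat_lit 352277) (nat_lit 11) (.e (nat_lit 426009) (nat_lit 0) (.e (nat_lit 7591) (nat_lit 407) (.e (nat_lit 73772) (nat_lit 24) (.e (nat_lit 761866) (nat_lit 5) .nil)))))) (.g (nat_lit 5) .nil .nil))))) (.nd (nat_lit 4) (.nd (nat_lit 5) 
(.lf (nat_lit 61899) (.g (nat_lit 1445) (.e (nat_lit 1574) (nat_lit 110) (.e (nat_lit 352272) (nat_lit 10) (.e (nat_lit 417795) (nat_lit 0) (.e (nat_lit 5409) (nat_lit 303) (.e (nat_lit 73772) (nat_lit 24) (.e (nat_lit 761867) (nat_lit 5) .nil)))))) (.g (nat_lit 0) .nil .nil))) 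
(.lf (nat_lit 61931) (.g (nat_lit 699) (.e (nat_lit 1574) (nat_lit 110) (.e (nat_lit 352276) (nat_lit 11) (.e (nat_lit 425984) (nat_lit 0) (.e (nat_lit 7592) (nat_lit 407) (.e (nat_lit 73772) (nat_lit 24) (.e (nat_lit 761867) (nat_lit 5) .nil)))))) (.g (nat_lit 0) .nil .nil)))) (.nd (nat_lit 5) 
(.lf (nat_lit 61915) (.g (nat_lit 1690) (.e (nat_lit 1574) (nat_lit 110) (.e (nat_lit 352272) (nat_lit 10) (.e (nat_lit 417811) (nat_lit 6) (.e (nat_lit 286755) (nat_lit 10) (.e (nat_lit 344174) (nat_lit 42) (.e (nat_lit 761867) (nat_lit 5) .nil)))))) (.g (nat_lit 0) .nil .nil))) 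
(.lf (nat_lit 61947) (.g (nat_lit 1788) (.e (nat_lit 1574) (nat_lit 110) (.e (nat_lit 352277) (nat_lit 11) (.e (nat_lit 426010) (nat_lit 0) (.e (nat_lit 7593) (nat_lit 407) (.e (nat_lit 73772) (nat_lit 24) (.e (nat_lit 761867) (nat_lit 5) .nil)))))) (.g (nat_lit 0) .nil .nil)))))) (.nd (nat_lit 3) (.nd (nat_lit 4) (.nd (nat_lit 5) 
(.lf (nat_lit 61895) (.g (nat_lit 1071) (.e (nat_lit 1574) (nat_lit 110) (.e (nat_lit 352272) (nat_lit 10) (.e (nat_lit 417793) (nat_lit 0) (.e (nat_lit 5412) (nat_lit 303) (.e (nat_lit 73772) (nat_lit 24) (.e (nat_lit 761867) (nat_lit 5) .nil)))))) (.g (nat_lit 0) .nil .nil))) 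
(.lf (nat_lit 61927) (.g (nat_lit 2124) (.e (nat_lit 1574) (nat_lit 110) (.e (nat_lit 352275) (nat_lit 11) (.e (nat_lit 426343) (nat_lit 14) (.e (nat_lit 491560) (nat_lit 10) (.e (nat_lit 344174) (nat_lit 42) (.e (nat_lit 761868) (nat_lit 5) .nil)))))) (.g (nat_lit 4) .nil .nil)))) (.nd (nat_lit 5) 
(.lf (nat_lit 61911) (.g (nat_lit 2008) (.e (nat_lit 1574) (nat_lit 110) (.e (nat_lit 352272) (nat_lit 10) (.e (nat_lit 417811) (nat_lit 6) (.e (nat_lit 286754) (nat_lit 10) (.e (nat_lit 344174) (nat_lit 42) (.e (nat_lit 761866) (nat_lit 5) .nil)))))) (.g (nat_lit 0) .nil .nil))) 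
(.lf (nat_lit 61943) (.g (nat_lit 2046) (.e (nat_lit 1574) (nat_lit 110) (.e (nat_lit 352277) (nat_lit 11) (.e (nat_lit 426009) (nat_lit 0) (.e (nat_lit 7593) (nat_lit 407) (.e (nat_lit 73772) (nat_lit 24) (.e (nat_lit 761869) (nat_lit 5) .nil)))))) (.g (nat_lit 0) .nil .nil))))) (.nd (nat_lit 4) (.nd (nat_lit 5) 
(.lf (nat_lit 61903) (.g (nat_lit 1765) (.e (nat_lit 1574) (nat_lit 110) (.e (nat_lit 352272) (nat_lit 10) (.e (nat_lit 417796) (nat_lit 0) (.e (nat_lit 5409) (nat_lit 303) (.e (nat_lit 73772) (nat_lit 24) (.e (nat_lit 761867) (nat_lit 5) .nil)))))) (.g (nat_lit 0) .nil .nil))) 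
(.lf (nat_lit 61935) (.g (nat_lit 660) (.e (nat_lit 1574) (nat_lit 110) (.e (nat_lit 352276) (nat_lit 11) (.e (nat_lit 425989) (nat_lit 0) (.e (nat_lit 7592) (nat_lit 407) (.e (nat_lit 73772) (nat_lit 24) (.e (nat_lit 761867) (nat_lit 5) .nil)))))) (.g (nat_lit 0) .nil .nil)))) (.nd (nat_lit 5) 
(.lf (nat_lit 61919) (.g (nat_lit 1804) (.e (nat_lit 1574) (nat_lit 110) (.e (nat_lit 352275) (nat_lit 11) (.e (nat_lit 426011) (nat_lit 0) (.e (nat_lit 7591) (nat_lit 407) (.e (nat_lit 73772) (nat_lit 24) .nil))))) .nil)) 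
(.lf (nat_lit 61951) (.g (nat_lit 2781) (.e (nat_lit 1574) (nat_lit 110) (.e (nat_lit 352277) (nat_lit 11) (.e (nat_lit 426011) (nat_lit 0) (.e (nat_lit 7593) (nat_lit 407) (.e (nat_lit 73772) (nat_lit 24) (.e (nat_lit 761866) (nat_lit 5) .nil)))))) (.g (nat_lit 0) .nil .nil)))))))))

noncomputable def tv849 : DT := (.nd (nat_lit 0) (.nd (nat_lit 1) (.nd (nat_lit 2) (.nd (nat_lit 3) (.nd (nat_lit 4) (.nd (nat_lit 5) 
(.lf (nat_lit 61952) (.g (nat_lit 2644) (.e (nat_lit 1574) (nat_lit 110) (.e (nat_lit 352277) (nat_lit 11) (.e (nat_lit 426011) (nat_lit 0) (.e (nat_lit 7593) (nat_lit 407) (.e (nat_lit 73772) (nat_lit 24) (.e (nat_lit 761867) (nat_lit 5) .nil)))))) (.g (nat_lit 0) .nil .nil))) 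
(.lf (nat_lit 61984) (.g (nat_lit 663) (.e (nat_lit 1574) (nat_lit 110) (.e (nat_lit 352279) (nat_lit 19) (.e (nat_lit 491585) (nat_lit 29) (.e (nat_lit 442399) (nat_lit 20) (.e (nat_lit 3282) (nat_lit 200) (.e (nat_lit 557060) (nat_lit 0) .nil)))))) (.g (nat_lit 0) .nil .nil)))) (.nd (nat_lit 5) 
(.lf (nat_lit 61968) (.g (nat_lit 2849) (.e (nat_lit 1574) (nat_lit 110) (.e (nat_lit 352277) (nat_lit 11) (.e (nat_lit 426343) (nat_lit 14) (.e (nat_lit 491560) (nat_lit 10) (.e (nat_lit 344174) (nat_lit 42) (.e (nat_lit 761867) (nat_lit 5) .nil)))))) (.g (nat_lit 6) .nil .nil))) 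
(.lf (nat_lit 62000) (.g (nat_lit 1279) (.e (nat_lit 1574) (nat_lit 110) (.e (nat_lit 352322) (nat_lit 26) (.e (nat_lit 147496) (nat_lit 11) (.e (nat_lit 24641) (nat_lit 10) .nil)))) .nil)))) (.nd (nat_lit 4) (.nd (nat_lit 5) 
(.lf (nat_lit 61960) (.g (nat_lit 2378) (.e (nat_lit 1574) (nat_lit 110) (.e (nat_lit 352277) (nat_lit 11) (.e (nat_lit 426342) (nat_lit 14) (.e (nat_lit 491558) (nat_lit 10) (.e (nat_lit 344174) (nat_lit 42) (.e (nat_lit 761869) (nat_lit 5) .nil)))))) (.g (nat_lit 0) .nil .nil))) 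
(.lf (nat_lit 61992) (.g (nat_lit 796) (.e (nat_lit 1574) (nat_lit 110) (.e (nat_lit 352322) (nat_lit 26) (.e (nat_lit 147467) (nat_lit 9) (.e (nat_lit 324) (nat_lit 24) .nil)))) .nil))) (.nd (nat_lit 5) 
(.lf (nat_lit 61976) (.g (nat_lit 2535) (.e (nat_lit 1574) (nat_lit 110) (.e (nat_lit 352277) (nat_lit 11) (.e (nat_lit 426344) (nat_lit 14) (.e (nat_lit 491560) (nat_lit 10) (.e (nat_lit 344174) (nat_lit 42) (.e (nat_lit 761868) (nat_lit 5) .nil)))))) (.g (nat_lit 6) .nil .nil))) 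
(.lf (nat_lit 62008) (.g (nat_lit 601) (.e (nat_lit 1575) (nat_lit 110) (.e (nat_lit 352257) (nat_lit 0) (.e (nat_lit 7081) (nat_lit 378) (.e (nat_lit 57898) (nat_lit 275) (.e (nat_lit 73773) (nat_lit 25) (.e (nat_lit 770056) (nat_lit 5) .nil)))))) (.g (nat_lit 0) .nil .nil)))))) (.nd (nat_lit 3) (.nd (nat_lit 4) (.nd (nat_lit 5) 
(.lf (nat_lit 61956) (.g (nat_lit 2198) (.e (nat_lit 1574) (nat_lit 110) (.e (nat_lit 352277) (nat_lit 11) (.e (nat_lit 426012) (nat_lit 0) (.e (nat_lit 7593) (nat_lit 407) (.e (nat_lit 73772) (nat_lit 24) (.e (nat_lit 761867) (nat_lit 5) .nil)))))) (.g (nat_lit 0) .nil .nil))) 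
(.lf (nat_lit 61988) (.g (nat_lit 1473) (.e (nat_lit 1574) (nat_lit 110) (.e (nat_lit 352316) (nat_lit 24) (.e (nat_lit 123198) (nat_lit 266) (.e (nat_lit 57424) (nat_lit 14) (.e (nat_lit 352270) (nat_lit 8) .nil))))) .nil))) (.nd (nat_lit 5) 
(.lf (nat_lit 61972) (.g (nat_lit 2465) (.e (nat_lit 1574) (nat_lit 110) (.e (nat_lit 352277) (nat_lit 11) (.e (nat_lit 426344) (nat_lit 14) (.e (nat_lit 491558) (nat_lit 10) (.e (nat_lit 344174) (nat_lit 42) (.e (nat_lit 761868) (nat_lit 5) .nil)))))) (.g (nat_lit 0) .nil .nil))) 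
(.lf (nat_lit 62004) (.g (nat_lit 3317) (.e (nat_lit 1575) (nat_lit 110) (.e (nat_lit 352256) (nat_lit 0) (.e (nat_lit 3312) (nat_lit 202) (.e (nat_lit 573479) (nat_lit 13) (.e (nat_lit 65619) (nat_lit 10) (.e (nat_lit 344126) (nat_lit 25) (.e (nat_lit 548874) (nat_lit 5) .nil))))))) (.g (nat_lit 0) .nil .nil))))) (.nd (nat_lit 4) (.nd (nat_lit 5) 
(.lf (nat_lit 61964) (.g (nat_lit 2990) (.e (nat_lit 1574) (nat_lit 110) (.e (nat_lit 352277) (nat_lit 11) (.e (nat_lit 426343) (nat_lit 14) (.e (nat_lit 491558) (nat_lit 10) (.e (nat_lit 344174) (nat_lit 42) (.e (nat_lit 761866) (nat_lit 5) .nil)))))) (.g (nat_lit 0) .nil .nil))) 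
(.lf (nat_lit 61996) (.g (nat_lit 2541) (.e (nat_lit 1574) (nat_lit 110) (.e (nat_lit 352322) (nat_lit 26) (.e (nat_lit 147495) (nat_lit 11) (.e (nat_lit 24640) (nat_lit 10) (.e (nat_lit 344174) (nat_lit 42) (.e (nat_lit 761869) (nat_lit 5) .nil)))))) (.g (nat_lit 5) .nil .nil)))) (.nd (nat_lit 5) 
(.lf (nat_lit 61980) (.g (nat_lit 504) (.e (nat_lit 1574) (nat_lit 110) (.e (nat_lit 352279) (nat_lit 19) (.e (nat_lit 491585) (nat_lit 29) (.e (nat_lit 442396) (nat_lit 20) (.e (nat_lit 3282) (nat_lit 200) (.e (nat_lit 557061) (nat_lit 0) .nil)))))) (.g (nat_lit 0) .nil .nil))) 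
(.lf (nat_lit 62012) (.g (nat_lit 594) (.e (nat_lit 1575) (nat_lit 110) (.e (nat_lit 352258) (nat_lit 0) (.e (nat_lit 7087) (nat_lit 379) (.e (nat_lit 123214) (nat_lit 275) (.e (nat_lit 73773) (nat_lit 25) (.e (nat_lit 770056) (nat_lit 5) .nil)))))) (.g (nat_lit 0) .nil .nil))))))) (.nd (nat_lit 2) (.nd (nat_lit 3) (.nd (nat_lit 4) (.nd (nat_lit 5) 
(.lf (nat_lit 61954) (.g (nat_lit 1932) (.e (nat_lit 1574) (nat_lit 110) (.e (nat_lit 352277) (nat_lit 11) (.e (nat_lit 426012) (nat_lit 0) (.e (nat_lit 7591) (nat_lit 407) (.e (nat_lit 73772) (nat_lit 24) (.e (nat_lit 761867) (nat_lit 5) .nil)))))) (.g (nat_lit 6) .nil .nil))) 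
(.lf (nat_lit 61986) (.g (nat_lit 468) (.e (nat_lit 1574) (nat_lit 110) (.e (nat_lit 352316) (nat_lit 24) (.e (nat_lit 123185) (nat_lit 264) .nil))) .nil))) (.nd (nat_lit 5) 
(.lf (nat_lit 61970) (.g (nat_lit 2748) (.e (nat_lit 1574) (nat_lit 110) (.e (nat_lit 352277) (nat_lit 11) (.e (nat_lit 426344) (nat_lit 14) (.e (nat_lit 491558) (nat_lit 10) (.e (nat_lit 344174) (nat_lit 42) (.e (nat_lit 761866) (nat_lit 5) .nil)))))) (.g (nat_lit 0) .nil .nil))) 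
(.lf (nat_lit 62002) (.g (nat_lit 2697) (.e (nat_lit 1575) (nat_lit 110) (.e (nat_lit 352256) (nat_lit 0) (.e (nat_lit 3312) (nat_lit 202) (.e (nat_lit 573479) (nat_lit 13) (.e (nat_lit 65619) (nat_lit 10) (.e (nat_lit 344126) (nat_lit 25) (.e (nat_lit 548872) (nat_lit 5) .nil))))))) (.g (nat_lit 7) .nil .nil))))) (.nd (nat_lit 4) (.nd (nat_lit 5) 
(.lf (nat_lit 61962) (.g (nat_lit 2412) (.e (nat_lit 1574) (nat_lit 110) (.e (nat_lit 352277) (nat_lit 11) (.e (nat_lit 426342) (nat_lit 14) (.e (nat_lit 491560) (nat_lit 10) (.e (nat_lit 344174) (nat_lit 42) (.e (nat_lit 761867) (nat_lit 5) .nil)))))) (.g (nat_lit 6) .nil .nil))) 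
(.lf (nat_lit 61994) (.g (nat_lit 2613) (.e (nat_lit 1574) (nat_lit 110) (.e (nat_lit 352322) (nat_lit 26) (.e (nat_lit 147495) (nat_lit 11) (.e (nat_lit 24639) (nat_lit 10) (.e (nat_lit 344174) (nat_lit 42) (.e (nat_lit 761867) (nat_lit 5) .nil)))))) (.g (nat_lit 6) .nil .nil)))) (.nd (nat_lit 5) 
(.lf (nat_lit 61978) (.g (nat_lit 2648) (.e (nat_lit 1574) (nat_lit 110) (.e (nat_lit 360192) (nat_lit 18) (.e (nat_lit 483366) (nat_lit 18) (.e (nat_lit 57851) (nat_lit 252) (.e (nat_lit 57354) (nat_lit 0) (.e (nat_lit 1855) (nat_lit 124) (.e (nat_lit 564992) (nat_lit 0) .nil))))))) (.g (nat_lit 6) .nil .nil))) 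
(.lf (nat_lit 62010) (.g (nat_lit 1472) (.e (nat_lit 1575) (nat_lit 110) (.e (nat_lit 352258) (nat_lit 0) (.e (nat_lit 3716) (nat_lit 227) (.e (nat_lit 778325) (nat_lit 6) (.e (nat_lit 81943) (nat_lit 20) (.e (nat_lit 2006) (nat_lit 138) (.e (nat_lit 671748) (nat_lit 0) .nil))))))) (.g (nat_lit 0) .nil .nil)))))) (.nd (nat_lit 3) (.nd (nat_lit 4) (.nd (nat_lit 5) 
(.lf (nat_lit 61958) (.g (nat_lit 2127) (.e (nat_lit 1574) (nat_lit 110) (.e (nat_lit 352277) (nat_lit 11) (.e (nat_lit 426342) (nat_lit 14) (.e (nat_lit 491558) (nat_lit 10) (.e (nat_lit 344174) (nat_lit 42) (.e (nat_lit 761867) (nat_lit 5) .nil)))))) (.g (nat_lit 0) .nil .nil))) 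
(.lf (nat_lit 61990) (.g (nat_lit 974) (.e (nat_lit 1574) (nat_lit 110) (.e (nat_lit 352322) (nat_lit 26) (.e (nat_lit 147466) (nat_lit 9) (.e (nat_lit 324) (nat_lit 24) .nil)))) .nil))) (.nd (nat_lit 5) 
(.lf (nat_lit 61974) (.g (nat_lit 2788) (.e (nat_lit 1574) (nat_lit 110) (.e (nat_lit 352277) (nat_lit 11) (.e (nat_lit 426344) (nat_lit 14) (.e (nat_lit 491560) (nat_lit 10) (.e (nat_lit 344174) (nat_lit 42) (.e (nat_lit 761866) (nat_lit 5) .nil)))))) (.g (nat_lit 6) .nil .nil))) 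
(.lf (nat_lit 62006) (.g (nat_lit 597) (.e (nat_lit 1575) (nat_lit 110) (.e (nat_lit 352257) (nat_lit 0) (.e (nat_lit 7077) (nat_lit 378) (.e (nat_lit 57898) (nat_lit 275) (.e (nat_lit 73773) (nat_lit 25) (.e (nat_lit 770056) (nat_lit 5) .nil)))))) (.g (nat_lit 0) .nil .nil))))) (.nd (nat_lit 4) (.nd (nat_lit 5) 
(.lf (nat_lit 61966) (.g (nat_lit 2287) (.e (nat_lit 1574) (nat_lit 110) (.e (nat_lit 352277) (nat_lit 11) (.e (nat_lit 426343) (nat_lit 14) (.e (nat_lit 491560) (nat_lit 10) (.e (nat_lit 344173) (nat_lit 42) .nil))))) .nil)) 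
(.lf (nat_lit 61998) (.g (nat_lit 2182) (.e (nat_lit 1574) (nat_lit 110) (.e (nat_lit 352322) (nat_lit 26) (.e (nat_lit 147496) (nat_lit 11) (.e (nat_lit 24640) (nat_lit 10) (.e (nat_lit 344174) (nat_lit 42) (.e (nat_lit 761867) (nat_lit 5) .nil)))))) (.g (nat_lit 4) .nil .nil)))) (.nd (nat_lit 5) 
(.lf (nat_lit 61982) (.g (nat_lit 469) (.e (nat_lit 1574) (nat_lit 110) (.e (nat_lit 352279) (nat_lit 19) (.e (nat_lit 491585) (nat_lit 29) (.e (nat_lit 442398) (nat_lit 20) (.e (nat_lit 3282) (nat_lit 200) (.e (nat_lit 557061) (nat_lit 0) .nil)))))) (.g (nat_lit 0) .nil .nil))) 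
(.lf (nat_lit 62014) (.g (nat_lit 627) (.e (nat_lit 1575) (nat_lit 110) (.e (nat_lit 352258) (nat_lit 0) (.e (nat_lit 7088) (nat_lit 379) (.e (nat_lit 123214) (nat_lit 275) (.e (nat_lit 73773) (nat_lit 25) (.e (nat_lit 770057) (nat_lit 5) .nil)))))) (.g (nat_lit 0) .nil .nil)))))))) (.nd (nat_lit 1) (.nd (nat_lit 2) (.nd (nat_lit 3) (.nd (nat_lit 4) (.nd (nat_lit 5) 
(.lf (nat_lit 61953) (.g (nat_lit 2053) (.e (nat_lit 1574) (nat_lit 110) (.e (nat_lit 352277) (nat_lit 11) (.e (nat_lit 426012) (nat_lit 0) (.e (nat_lit 7591) (nat_lit 407) (.e (nat_lit 73772) (nat_lit 24) (.e (nat_lit 761866) (nat_lit 5) .nil)))))) (.g (nat_lit 6) .nil .nil))) 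
(.lf (nat_lit 61985) (.g (nat_lit 586) (.e (nat_lit 1574) (nat_lit 110) (.e (nat_lit 352279) (nat_lit 19) (.e (nat_lit 491585) (nat_lit 29) (.e (nat_lit 442399) (nat_lit 20) (.e (nat_lit 3282) (nat_lit 200) (.e (nat_lit 557061) (nat_lit 0) .nil)))))) (.g (nat_lit 0) .nil .nil)))) (.nd (nat_lit 5) 
(.lf (nat_lit 61969) (.g (nat_lit 2879) (.e (nat_lit 1574) (nat_lit 110) (.e (nat_lit 352277) (nat_lit 11) (.e (nat_lit 426343) (nat_lit 14) (.e (nat_lit 491560) (nat_lit 10) (.e (nat_lit 344174) (nat_lit 42) (.e (nat_lit 761868) (nat_lit 5) .nil)))))) (.g (nat_lit 0) .nil .nil))) 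
(.lf (nat_lit 62001) (.g (nat_lit 1728) (.e (nat_lit 1575) (nat_lit 110) (.e (nat_lit 352256) (nat_lit 0) (.e (nat_lit 3311) (nat_lit 202) (.e (nat_lit 573479) (nat_lit 13) (.e (nat_lit 65619) (nat_lit 10) (.e (nat_lit 344126) (nat_lit 25) (.e (nat_lit 548873) (nat_lit 5) .nil))))))) (.g (nat_lit 6) .nil .nil))))) (.nd (nat_lit 4) (.nd (nat_lit 5) 
(.lf (nat_lit 61961) (.g (nat_lit 2671) (.e (nat_lit 1574) (nat_lit 110) (.e (nat_lit 352277) (nat_lit 11) (.e (nat_lit 426342) (nat_lit 14) (.e (nat_lit 491560) (nat_lit 10) (.e (nat_lit 344174) (nat_lit 42) (.e (nat_lit 761866) (nat_lit 5) .nil)))))) (.g (nat_lit 0) .nil .nil))) 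
(.lf (nat_lit 61993) (.g (nat_lit 2813) (.e (nat_lit 1574) (nat_lit 110) (.e (nat_lit 352322) (nat_lit 26) (.e (nat_lit 147495) (nat_lit 11) (.e (nat_lit 24639) (nat_lit 10) (.e (nat_lit 344174) (nat_lit 42) (.e (nat_lit 761866) (nat_lit 5) .nil)))))) (.g (nat_lit 6) .nil .nil)))) (.nd (nat_lit 5) 
(.lf (nat_lit 61977) (.g (nat_lit 2818) (.e (nat_lit 1574) (nat_lit 110) (.e (nat_lit 360192) (nat_lit 18) (.e (nat_lit 483365) (nat_lit 18) (.e (nat_lit 57851) (nat_lit 252) (.e (nat_lit 57354) (nat_lit 0) (.e (nat_lit 1855) (nat_lit 124) (.e (nat_lit 564992) (nat_lit 0) .nil))))))) (.g (nat_lit 6) .nil .nil))) 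
(.lf (nat_lit 62009) (.g (nat_lit 555) (.e (nat_lit 1575) (nat_lit 110) (.e (nat_lit 352257) (nat_lit 0) (.e (nat_lit 7082) (nat_lit 378) (.e (nat_lit 57898) (nat_lit 275) (.e (nat_lit 73773) (nat_lit 25) (.e (nat_lit 770056) (nat_lit 5) .nil)))))) (.g (nat_lit 0) .nil .nil)))))) (.nd (nat_lit 3) (.nd (nat_lit 4) (.nd (nat_lit 5) 
(.lf (nat_lit 61957) (.g (nat_lit 2370) (.e (nat_lit 1574) (nat_lit 110) (.e (nat_lit 352277) (nat_lit 11) (.e (nat_lit 426342) (nat_lit 14) (.e (nat_lit 491558) (nat_lit 10) (.e (nat_lit 344174) (nat_lit 42) (.e (nat_lit 761866) (nat_lit 5) .nil)))))) (.g (nat_lit 0) .nil .nil))) 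
(.lf (nat_lit 61989) (.g (nat_lit 1259) (.e (nat_lit 1574) (nat_lit 110) (.e (nat_lit 352322) (nat_lit 26) (.e (nat_lit 147466) (nat_lit 9) (.e (nat_lit 321) (nat_lit 24) (.e (nat_lit 360488) (nat_lit 20) .nil))))) .nil))) (.nd (nat_lit 5) 
(.lf (nat_lit 61973) (.g (nat_lit 2300) (.e (nat_lit 1574) (nat_lit 110) (.e (nat_lit 352277) (nat_lit 11) (.e (nat_lit 426344) (nat_lit 14) (.e (nat_lit 491560) (nat_lit 10) (.e (nat_lit 344173) (nat_lit 42) (.e (nat_lit 761867) (nat_lit 5) .nil)))))) (.g (nat_lit 0) .nil .nil))) 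
(.lf (nat_lit 62005) (.g (nat_lit 606) (.e (nat_lit 1575) (nat_lit 110) (.e (nat_lit 352256) (nat_lit 0) (.e (nat_lit 7535) (nat_lit 402) (.e (nat_lit 461) (nat_lit 34) (.e (nat_lit 442409) (nat_lit 20) .nil))))) .nil)))) (.nd (nat_lit 4) (.nd (nat_lit 5) 
(.lf (nat_lit 61965) (.g (nat_lit 2749) (.e (nat_lit 1574) (nat_lit 110) (.e (nat_lit 352277) (nat_lit 11) (.e (nat_lit 426343) (nat_lit 14) (.e (nat_lit 491558) (nat_lit 10) (.e (nat_lit 344174) (nat_lit 42) (.e (nat_lit 761867) (nat_lit 5) .nil)))))) (.g (nat_lit 0) .nil .nil))) 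
(.lf (nat_lit 61997) (.g (nat_lit 2092) (.e (nat_lit 1574) (nat_lit 110) (.e (nat_lit 352322) (nat_lit 26) (.e (nat_lit 147496) (nat_lit 11) (.e (nat_lit 24639) (nat_lit 10) (.e (nat_lit 344174) (nat_lit 42) (.e (nat_lit 761869) (nat_lit 5) .nil)))))) (.g (nat_lit 5) .nil .nil)))) (.nd (nat_lit 5) 
(.lf (nat_lit 61981) (.g (nat_lit 542) (.e (nat_lit 1574) (nat_lit 110) (.e (nat_lit 352279) (nat_lit 19) (.e (nat_lit 491585) (nat_lit 29) (.e (nat_lit 442398) (nat_lit 20) (.e (nat_lit 3282) (nat_lit 200) (.e (nat_lit 557060) (nat_lit 0) .nil)))))) (.g (nat_lit 6) .nil .nil))) 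
(.lf (nat_lit 62013) (.g (nat_lit 598) (.e (nat_lit 1575) (nat_lit 110) (.e (nat_lit 352258) (nat_lit 0) (.e (nat_lit 7088) (nat_lit 379) (.e (nat_lit 123214) (nat_lit 275) (.e (nat_lit 73773) (nat_lit 25) (.e (nat_lit 770056) (nat_lit 5) .nil)))))) (.g (nat_lit 0) .nil .nil))))))) (.nd (nat_lit 2) (.nd (nat_lit 3) (.nd (nat_lit 4) (.nd (nat_lit 5) 
(.lf (nat_lit 61955) (.g (nat_lit 1989) (.e (nat_lit 1574) (nat_lit 110) (.e (nat_lit 352277) (nat_lit 11) (.e (nat_lit 426012) (nat_lit 0) (.e (nat_lit 7591) (nat_lit 407) (.e (nat_lit 73772) (nat_lit 24) (.e (nat_lit 761868) (nat_lit 5) .nil)))))) (.g (nat_lit 6) .nil .nil))) 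
(.lf (nat_lit 61987) (.g (nat_lit 610) (.e (nat_lit 1574) (nat_lit 110) (.e (nat_lit 352316) (nat_lit 24) (.e (nat_lit 123185) (nat_lit 264) (.e (nat_lit 1222) (nat_lit 90) .nil)))) .nil))) (.nd (nat_lit 5) 
(.lf (nat_lit 61971) (.g (nat_lit 2520) (.e (nat_lit 1574) (nat_lit 110) (.e (nat_lit 352277) (nat_lit 11) (.e (nat_lit 426344) (nat_lit 14) (.e (nat_lit 491558) (nat_lit 10) (.e (nat_lit 344174) (nat_lit 42) (.e (nat_lit 761867) (nat_lit 5) .nil)))))) (.g (nat_lit 0) .nil .nil))) 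
(.lf (nat_lit 62003) (.g (nat_lit 2672) (.e (nat_lit 1575) (nat_lit 110) (.e (nat_lit 352256) (nat_lit 0) (.e (nat_lit 3312) (nat_lit 202) (.e (nat_lit 573479) (nat_lit 13) (.e (nat_lit 65619) (nat_lit 10) (.e (nat_lit 344126) (nat_lit 25) (.e (nat_lit 548873) (nat_lit 5) .nil))))))) (.g (nat_lit 7) .nil .nil))))) (.nd (nat_lit 4) (.nd (nat_lit 5) 
(.lf (nat_lit 61963) (.g (nat_lit 2431) (.e (nat_lit 1574) (nat_lit 110) (.e (nat_lit 352277) (nat_lit 11) (.e (nat_lit 426342) (nat_lit 14) (.e (nat_lit 491560) (nat_lit 10) (.e (nat_lit 344174) (nat_lit 42) (.e (nat_lit 761868) (nat_lit 5) .nil)))))) (.g (nat_lit 0) .nil .nil))) 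
(.lf (nat_lit 61995) (.g (nat_lit 2408) (.e (nat_lit 1574) (nat_lit 110) (.e (nat_lit 352322) (nat_lit 26) (.e (nat_lit 147495) (nat_lit 11) (.e (nat_lit 24640) (nat_lit 10) (.e (nat_lit 344174) (nat_lit 42) (.e (nat_lit 761866) (nat_lit 5) .nil)))))) (.g (nat_lit 5) .nil .nil)))) (.nd (nat_lit 5) 
(.lf (nat_lit 61979) (.g (nat_lit 602) (.e (nat_lit 1574) (nat_lit 110) (.e (nat_lit 352279) (nat_lit 19) (.e (nat_lit 491585) (nat_lit 29) (.e (nat_lit 442395) (nat_lit 20) (.e (nat_lit 3282) (nat_lit 200) (.e (nat_lit 557061) (nat_lit 0) .nil)))))) (.g (nat_lit 0) .nil .nil))) 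
(.lf (nat_lit 62011) (.g (nat_lit 554) (.e (nat_lit 1575) (nat_lit 110) (.e (nat_lit 352258) (nat_lit 0) (.e (nat_lit 7086) (nat_lit 379) (.e (nat_lit 123214) (nat_lit 275) (.e (nat_lit 73773) (nat_lit 25) (.e (nat_lit 770056) (nat_lit 5) .nil)))))) (.g (nat_lit 0) .nil .nil)))))) (.nd (nat_lit 3) (.nd (nat_lit 4) (.nd (nat_lit 5) 
(.lf (nat_lit 61959) (.g (nat_lit 2058) (.e (nat_lit 1574) (nat_lit 110) (.e (nat_lit 352277) (nat_lit 11) (.e (nat_lit 426342) (nat_lit 14) (.e (nat_lit 491558) (nat_lit 10) (.e (nat_lit 344174) (nat_lit 42) (.e (nat_lit 761868) (nat_lit 5) .nil)))))) (.g (nat_lit 0) .nil .nil))) 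
(.lf (nat_lit 61991) (.g (nat_lit 790) (.e (nat_lit 1574) (nat_lit 110) (.e (nat_lit 352322) (nat_lit 26) (.e (nat_lit 147467) (nat_lit 9) (.e (nat_lit 321) (nat_lit 24) .nil)))) .nil))) (.nd (nat_lit 5) 
(.lf (nat_lit 61975) (.g (nat_lit 2514) (.e (nat_lit 1574) (nat_lit 110) (.e (nat_lit 352277) (nat_lit 11) (.e (nat_lit 426344) (nat_lit 14) (.e (nat_lit 491560) (nat_lit 10) (.e (nat_lit 344174) (nat_lit 42) (.e (nat_lit 761867) (nat_lit 5) .nil)))))) (.g (nat_lit 6) .nil .nil))) 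
(.lf (nat_lit 62007) (.g (nat_lit 589) (.e (nat_lit 1575) (nat_lit 110) (.e (nat_lit 352257) (nat_lit 0) (.e (nat_lit 7079) (nat_lit 378) (.e (nat_lit 57898) (nat_lit 275) (.e (nat_lit 73773) (nat_lit 25) (.e (nat_lit 770056) (nat_lit 5) .nil)))))) (.g (nat_lit 0) .nil .nil))))) (.nd (nat_lit 4) (.nd (nat_lit 5) 
(.lf (nat_lit 61967) (.g (nat_lit 3103) (.e (nat_lit 1574) (nat_lit 110) (.e (nat_lit 352277) (nat_lit 11) (.e (nat_lit 426343) (nat_lit 14) (.e (nat_lit 491560) (nat_lit 10) (.e (nat_lit 344174) (nat_lit 42) (.e (nat_lit 761866) (nat_lit 5) .nil)))))) (.g (nat_lit 0) .nil .nil))) 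
(.lf (nat_lit 61999) (.g (nat_lit 2165) (.e (nat_lit 1574) (nat_lit 110) (.e (nat_lit 352322) (nat_lit 26) (.e (nat_lit 147496) (nat_lit 11) (.e (nat_lit 24640) (nat_lit 10) (.e (nat_lit 344174) (nat_lit 42) (.e (nat_lit 761868) (nat_lit 5) .nil)))))) (.g (nat_lit 4) .nil .nil)))) (.nd (nat_lit 5) 
(.lf (nat_lit 61983) (.g (nat_lit 663) (.e (nat_lit 1574) (nat_lit 110) (.e (nat_lit 352279) (nat_lit 19) (.e (nat_lit 491585) (nat_lit 29) (.e (nat_lit 442399) (nat_lit 20) (.e (nat_lit 3281) (nat_lit 200) (.e (nat_lit 557061) (nat_lit 0) .nil)))))) (.g (nat_lit 0) .nil .nil))) 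
(.lf (nat_lit 62015) (.g (nat_lit 618) (.e (nat_lit 1575) (nat_lit 110) (.e (nat_lit 352258) (nat_lit 0) (.e (nat_lit 7089) (nat_lit 379) (.e (nat_lit 123214) (nat_lit 275) (.e (nat_lit 73773) (nat_lit 25) (.e (nat_lit 770056) (nat_lit 5) .nil)))))) (.g (nat_lit 0) .nil .nil)))))))))

noncomputable def tv850 : DT := (.nd (nat_lit 0) (.nd (nat_lit 1) (.nd (nat_lit 2) (.nd (nat_lit 3) (.nd (nat_lit 4) (.nd (nat_lit 5) 
(.lf (nat_lit 62016) (.g (nat_lit 2327) (.e (nat_lit 1575) (nat_lit 110) (.e (nat_lit 352261) (nat_lit 0) (.e (nat_lit 3302) (nat_lit 202) (.e (nat_lit 573491) (nat_lit 15) (.e (nat_lit 81943) (nat_lit 20) (.e (nat_lit 1842) (nat_lit 123) (.e (nat_lit 548872) (nat_lit 5) .nil))))))) (.g (nat_lit 7) .nil .nil))) 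
(.lf (nat_lit 62048) (.g (nat_lit 1835) (.e (nat_lit 1575) (nat_lit 110) (.e (nat_lit 352267) (nat_lit 0) (.e (nat_lit 3305) (nat_lit 202) (.e (nat_lit 573485) (nat_lit 13) (.e (nat_lit 65619) (nat_lit 10) .nil))))) .nil))) (.nd (nat_lit 5) 
(.lf (nat_lit 62032) (.g (nat_lit 2282) (.e (nat_lit 1575) (nat_lit 110) (.e (nat_lit 352262) (nat_lit 0) (.e (nat_lit 3632) (nat_lit 227) (.e (nat_lit 778326) (nat_lit 6) (.e (nat_lit 81943) (nat_lit 20) (.e (nat_lit 2005) (nat_lit 138) (.e (nat_lit 671747) (nat_lit 0) .nil))))))) (.g (nat_lit 7) .nil .nil))) 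
(.lf (nat_lit 62064) (.g (nat_lit 1270) (.e (nat_lit 1575) (nat_lit 110) (.e (nat_lit 352271) (nat_lit 9) (.e (nat_lit 409602) (nat_lit 0) (.e (nat_lit 5407) (nat_lit 303) (.e (nat_lit 73773) (nat_lit 25) (.e (nat_lit 770056) (nat_lit 5) .nil)))))) (.g (nat_lit 6) .nil .nil))))) (.nd (nat_lit 4) (.nd (nat_lit 5) 
(.lf (nat_lit 62024) (.g (nat_lit 2834) (.e (nat_lit 1575) (nat_lit 110) (.e (nat_lit 352262) (nat_lit 0) (.e (nat_lit 3305) (nat_lit 202) (.e (nat_lit 573491) (nat_lit 15) (.e (nat_lit 81947) (nat_lit 20) (.e (nat_lit 1842) (nat_lit 123) (.e (nat_lit 548873) (nat_lit 5) .nil))))))) (.g (nat_lit 6) .nil .nil))) 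
(.lf (nat_lit 62056) (.g (nat_lit 1163) (.e (nat_lit 1575) (nat_lit 110) (.e (nat_lit 352269) (nat_lit 7) (.e (nat_lit 245776) (nat_lit 4) (.e (nat_lit 172116) (nat_lit 10) (.e (nat_lit 434295) (nat_lit 49) (.e (nat_lit 745475) (nat_lit 0) .nil)))))) (.g (nat_lit 6) .nil .nil)))) (.nd (nat_lit 5) 
(.lf (nat_lit 62040) (.g (nat_lit 1716) (.e (nat_lit 1575) (nat_lit 110) (.e (nat_lit 352262) (nat_lit 0) (.e (nat_lit 3748) (nat_lit 228) (.e (nat_lit 786478) (nat_lit 29) (.e (nat_lit 352270) (nat_lit 8) (.e (nat_lit 270080) (nat_lit 0) .nil)))))) (.g (nat_lit 5) .nil .nil))) 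
(.lf (nat_lit 62072) (.g (nat_lit 648) (.e (nat_lit 1575) (nat_lit 110) (.e (nat_lit 352271) (nat_lit 9) (.e (nat_lit 409603) (nat_lit 0) (.e (nat_lit 5411) (nat_lit 303) (.e (nat_lit 73773) (nat_lit 25) (.e (nat_lit 770056) (nat_lit 5) .nil)))))) (.g (nat_lit 0) .nil .nil)))))) (.nd (nat_lit 3) (.nd (nat_lit 4) (.nd (nat_lit 5) 
(.lf (nat_lit 62020) (.g (nat_lit 2603) (.e (nat_lit 1575) (nat_lit 110) (.e (nat_lit 352262) (nat_lit 0) (.e (nat_lit 3305) (nat_lit 202) (.e (nat_lit 573479) (nat_lit 13) (.e (nat_lit 65619) (nat_lit 10) (.e (nat_lit 344126) (nat_lit 25) (.e (nat_lit 548873) (nat_lit 5) .nil))))))) (.g (nat_lit 5) .nil .nil))) 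
(.lf (nat_lit 62052) (.g (nat_lit 1353) (.e (nat_lit 1575) (nat_lit 110) (.e (nat_lit 352269) (nat_lit 7) (.e (nat_lit 245776) (nat_lit 4) (.e (nat_lit 172113) (nat_lit 10) (.e (nat_lit 434295) (nat_lit 49) (.e (nat_lit 745474) (nat_lit 0) .nil)))))) (.g (nat_lit 5) .nil .nil)))) (.nd (nat_lit 5) 
(.lf (nat_lit 62036) (.g (nat_lit 1444) (.e (nat_lit 1575) (nat_lit 110) (.e (nat_lit 352262) (nat_lit 0) (.e (nat_lit 3632) (nat_lit 227) (.e (nat_lit 778327) (nat_lit 6) (.e (nat_lit 89856) (nat_lit 8) (.e (nat_lit 270080) (nat_lit 0) .nil)))))) (.g (nat_lit 4) .nil .nil))) 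
(.lf (nat_lit 62068) (.g (nat_lit 642) (.e (nat_lit 1575) (nat_lit 110) (.e (nat_lit 352271) (nat_lit 9) (.e (nat_lit 409602) (nat_lit 0) (.e (nat_lit 7936) (nat_lit 303) .nil)))) .nil)))) (.nd (nat_lit 4) (.nd (nat_lit 5) 
(.lf (nat_lit 62028) (.g (nat_lit 1158) (.e (nat_lit 1575) (nat_lit 110) (.e (nat_lit 352262) (nat_lit 0) (.e (nat_lit 3632) (nat_lit 227) (.e (nat_lit 778326) (nat_lit 6) .nil)))) .nil)) 
(.lf (nat_lit 62060) (.g (nat_lit 1697) (.e (nat_lit 1575) (nat_lit 110) (.e (nat_lit 352269) (nat_lit 7) (.e (nat_lit 245778) (nat_lit 6) (.e (nat_lit 188440) (nat_lit 20) (.e (nat_lit 3579) (nat_lit 223) (.e (nat_lit 745475) (nat_lit 0) .nil)))))) (.g (nat_lit 0) .nil .nil)))) (.nd (nat_lit 5) 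
(.lf (nat_lit 62044) (.g (nat_lit 1397) (.e (nat_lit 1575) (nat_lit 110) (.e (nat_lit 352262) (nat_lit 0) (.e (nat_lit 3748) (nat_lit 228) (.e (nat_lit 786481) (nat_lit 30) (.e (nat_lit 360486) (nat_lit 18) .nil))))) .nil)) 
(.lf (nat_lit 62076) (.g (nat_lit 1001) (.e (nat_lit 1575) (nat_lit 110) (.e (nat_lit 352272) (nat_lit 10) (.e (nat_lit 417793) (nat_lit 0) (.e (nat_lit 5412) (nat_lit 303) (.e (nat_lit 73773) (nat_lit 25) (.e (nat_lit 770056) (nat_lit 5) .nil)))))) (.g (nat_lit 0) .nil .nil))))))) (.nd (nat_lit 2) (.nd (nat_lit 3) (.nd (nat_lit 4) (.nd (nat_lit 5) 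
(.lf (nat_lit 62018) (.g (nat_lit 2674) (.e (nat_lit 1575) (nat_lit 110) (.e (nat_lit 352262) (nat_lit 0) (.e (nat_lit 3295) (nat_lit 202) (.e (nat_lit 573485) (nat_lit 13) (.e (nat_lit 65619) (nat_lit 10) (.e (nat_lit 344126) (nat_lit 25) (.e (nat_lit 548873) (nat_lit 5) .nil))))))) (.g (nat_lit 6) .nil .nil))) 
(.lf (nat_lit 62050) (.g (nat_lit 1526) (.e (nat_lit 1575) (nat_lit 110) (.e (nat_lit 352269) (nat_lit 7) (.e (nat_lit 245776) (nat_lit 4) (.e (nat_lit 172106) (nat_lit 10) (.e (nat_lit 434295) (nat_lit 49) (.e (nat_lit 745475) (nat_lit 0) .nil)))))) (.g (nat_lit 0) .nil .nil)))) (.nd (nat_lit 5) 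
(.lf (nat_lit 62034) (.g (nat_lit 1579) (.e (nat_lit 1575) (nat_lit 110) (.e (nat_lit 352262) (nat_lit 0) (.e (nat_lit 3632) (nat_lit 227) (.e (nat_lit 778326) (nat_lit 6) (.e (nat_lit 81947) (nat_lit 20) .nil))))) .nil)) 
(.lf (nat_lit 62066) (.g (nat_lit 1002) (.e (nat_lit 1575) (nat_lit 110) (.e (nat_lit 352271) (nat_lit 9) (.e (nat_lit 409602) (nat_lit 0) (.e (nat_lit 5411) (nat_lit 303) (.e (nat_lit 73773) (nat_lit 25) (.e (nat_lit 770056) (nat_lit 5) .nil)))))) (.g (nat_lit 0) .nil .nil))))) (.nd (nat_lit 4) (.nd (nat_lit 5) 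
(.lf (nat_lit 62026) (.g (nat_lit 1005) (.e (nat_lit 1575) (nat_lit 110) (.e (nat_lit 352262) (nat_lit 0) (.e (nat_lit 3631) (nat_lit 227) (.e (nat_lit 778326) (nat_lit 6) .nil)))) .nil)) 
(.lf (nat_lit 62058) (.g (nat_lit 1622) (.e (nat_lit 1575) (nat_lit 110) (.e (nat_lit 352269) (nat_lit 7) (.e (nat_lit 245778) (nat_lit 6) (.e (nat_lit 188439) (nat_lit 20) (.e (nat_lit 3579) (nat_lit 223) (.e (nat_lit 745475) (nat_lit 0) .nil)))))) (.g (nat_lit 0) .nil .nil)))) (.nd (nat_lit 5) 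
(.lf (nat_lit 62042) (.g (nat_lit 2218) (.e (nat_lit 1575) (nat_lit 110) (.e (nat_lit 352262) (nat_lit 0) (.e (nat_lit 3748) (nat_lit 228) (.e (nat_lit 786480) (nat_lit 29) (.e (nat_lit 352302) (nat_lit 20) (.e (nat_lit 2006) (nat_lit 138) (.e (nat_lit 671748) (nat_lit 0) .nil))))))) (.g (nat_lit 4) .nil .nil))) 
(.lf (nat_lit 62074) (.g (nat_lit 619) (.e (nat_lit 1575) (nat_lit 110) (.e (nat_lit 352271) (nat_lit 9) (.e (nat_lit 409604) (nat_lit 0) (.e (nat_lit 5411) (nat_lit 303) (.e (nat_lit 73773) (nat_lit 25) (.e (nat_lit 770056) (nat_lit 5) .nil)))))) (.g (nat_lit 0) .nil .nil)))))) (.nd (nat_lit 3) (.nd (nat_lit 4) (.nd (nat_lit 5) 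
(.lf (nat_lit 62022) (.g (nat_lit 2714) (.e (nat_lit 1575) (nat_lit 110) (.e (nat_lit 352262) (nat_lit 0) (.e (nat_lit 3305) (nat_lit 202) (.e (nat_lit 573491) (nat_lit 15) (.e (nat_lit 81946) (nat_lit 20) (.e (nat_lit 1842) (nat_lit 123) (.e (nat_lit 548872) (nat_lit 5) .nil))))))) (.g (nat_lit 6) .nil .nil))) 
(.lf (nat_lit 62054) (.g (nat_lit 787) (.e (nat_lit 1575) (nat_lit 110) (.e (nat_lit 352269) (nat_lit 7) (.e (nat_lit 245776) (nat_lit 4) (.e (nat_lit 172116) (nat_lit 10) (.e (nat_lit 434295) (nat_lit 49) (.e (nat_lit 745473) (nat_lit 0) .nil)))))) (.g (nat_lit 4) .nil .nil)))) (.nd (nat_lit 5) 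
(.lf (nat_lit 62038) (.g (nat_lit 2950) (.e (nat_lit 1575) (nat_lit 110) (.e (nat_lit 352262) (nat_lit 0) (.e (nat_lit 3632) (nat_lit 227) (.e (nat_lit 778327) (nat_lit 6) (.e (nat_lit 81946) (nat_lit 20) (.e (nat_lit 2006) (nat_lit 138) (.e (nat_lit 671748) (nat_lit 0) .nil))))))) (.g (nat_lit 0) .nil .nil))) 
(.lf (nat_lit 62070) (.g (nat_lit 841) (.e (nat_lit 1575) (nat_lit 110) (.e (nat_lit 352271) (nat_lit 9) (.e (nat_lit 409603) (nat_lit 0) (.e (nat_lit 5407) (nat_lit 303) (.e (nat_lit 73773) (nat_lit 25) (.e (nat_lit 770056) (nat_lit 5) .nil)))))) (.g (nat_lit 6) .nil .nil))))) (.nd (nat_lit 4) (.nd (nat_lit 5) 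
(.lf (nat_lit 62030) (.g (nat_lit 2549) (.e (nat_lit 1575) (nat_lit 110) (.e (nat_lit 352262) (nat_lit 0) (.e (nat_lit 3632) (nat_lit 227) (.e (nat_lit 778326) (nat_lit 6) (.e (nat_lit 81938) (nat_lit 20) (.e (nat_lit 2005) (nat_lit 138) (.e (nat_lit 671747) (nat_lit 0) .nil))))))) (.g (nat_lit 7) .nil .nil))) 
(.lf (nat_lit 62062) (.g (nat_lit 1714) (.e (nat_lit 1575) (nat_lit 110) (.e (nat_lit 352269) (nat_lit 7) (.e (nat_lit 245778) (nat_lit 6) (.e (nat_lit 188441) (nat_lit 20) (.e (nat_lit 3579) (nat_lit 223) (.e (nat_lit 745475) (nat_lit 0) .nil)))))) (.g (nat_lit 0) .nil .nil)))) (.nd (nat_lit 5) 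
(.lf (nat_lit 62046) (.g (nat_lit 955) (.e (nat_lit 1575) (nat_lit 110) (.e (nat_lit 352262) (nat_lit 0) (.e (nat_lit 3748) (nat_lit 228) (.e (nat_lit 786483) (nat_lit 30) .nil)))) .nil)) 
(.lf (nat_lit 62078) (.g (nat_lit 996) (.e (nat_lit 1575) (nat_lit 110) (.e (nat_lit 352272) (nat_lit 10) (.e (nat_lit 417794) (nat_lit 0) (.e (nat_lit 5412) (nat_lit 303) (.e (nat_lit 73773) (nat_lit 25) (.e (nat_lit 770056) (nat_lit 5) .nil)))))) (.g (nat_lit 0) .nil .nil)))))))) (.nd (nat_lit 1) (.nd (nat_lit 2) (.nd (nat_lit 3) (.nd (nat_lit 4) (.nd (nat_lit 5) 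
(.lf (nat_lit 62017) (.g (nat_lit 2348) (.e (nat_lit 1575) (nat_lit 110) (.e (nat_lit 352261) (nat_lit 0) (.e (nat_lit 3302) (nat_lit 202) (.e (nat_lit 573491) (nat_lit 15) (.e (nat_lit 81943) (nat_lit 20) (.e (nat_lit 1842) (nat_lit 123) (.e (nat_lit 548873) (nat_lit 5) .nil))))))) (.g (nat_lit 7) .nil .nil))) 
(.lf (nat_lit 62049) (.g (nat_lit 1353) (.e (nat_lit 1575) (nat_lit 110) (.e (nat_lit 352269) (nat_lit 7) (.e (nat_lit 245776) (nat_lit 4) (.e (nat_lit 172106) (nat_lit 10) (.e (nat_lit 434295) (nat_lit 49) (.e (nat_lit 745473) (nat_lit 0) .nil)))))) (.g (nat_lit 5) .nil .nil)))) (.nd (nat_lit 5) 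
(.lf (nat_lit 62033) (.g (nat_lit 2722) (.e (nat_lit 1575) (nat_lit 110) (.e (nat_lit 352262) (nat_lit 0) (.e (nat_lit 3632) (nat_lit 227) (.e (nat_lit 778326) (nat_lit 6) (.e (nat_lit 81943) (nat_lit 20) (.e (nat_lit 2006) (nat_lit 138) (.e (nat_lit 671748) (nat_lit 0) .nil))))))) (.g (nat_lit 0) .nil .nil))) 
(.lf (nat_lit 62065) (.g (nat_lit 1282) (.e (nat_lit 1575) (nat_lit 110) (.e (nat_lit 352271) (nat_lit 9) (.e (nat_lit 409602) (nat_lit 0) (.e (nat_lit 5407) (nat_lit 303) (.e (nat_lit 73773) (nat_lit 25) (.e (nat_lit 770057) (nat_lit 5) .nil)))))) (.g (nat_lit 6) .nil .nil))))) (.nd (nat_lit 4) (.nd (nat_lit 5) 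
(.lf (nat_lit 62025) (.g (nat_lit 435) (.e (nat_lit 1575) (nat_lit 110) (.e (nat_lit 352262) (nat_lit 0) (.e (nat_lit 3630) (nat_lit 227) .nil))) .nil)) 
(.lf (nat_lit 62057) (.g (nat_lit 1293) (.e (nat_lit 1575) (nat_lit 110) (.e (nat_lit 352269) (nat_lit 7) (.e (nat_lit 245778) (nat_lit 6) (.e (nat_lit 188435) (nat_lit 20) (.e (nat_lit 3579) (nat_lit 223) (.e (nat_lit 745475) (nat_lit 0) .nil)))))) (.g (nat_lit 0) .nil .nil)))) (.nd (nat_lit 5) 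
(.lf (nat_lit 62041) (.g (nat_lit 1886) (.e (nat_lit 1575) (nat_lit 110) (.e (nat_lit 352262) (nat_lit 0) (.e (nat_lit 3748) (nat_lit 228) (.e (nat_lit 786480) (nat_lit 29) (.e (nat_lit 352270) (nat_lit 8) (.e (nat_lit 270080) (nat_lit 0) .nil)))))) (.g (nat_lit 5) .nil .nil))) 
(.lf (nat_lit 62073) (.g (nat_lit 284) (.e (nat_lit 1575) (nat_lit 110) (.e (nat_lit 352271) (nat_lit 9) (.e (nat_lit 409604) (nat_lit 0) (.e (nat_lit 5407) (nat_lit 303) (.e (nat_lit 73773) (nat_lit 25) .nil))))) .nil))))) (.nd (nat_lit 3) (.nd (nat_lit 4) (.nd (nat_lit 5) 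
(.lf (nat_lit 62021) (.g (nat_lit 3367) (.e (nat_lit 1575) (nat_lit 110) (.e (nat_lit 352262) (nat_lit 0) (.e (nat_lit 3305) (nat_lit 202) (.e (nat_lit 573482) (nat_lit 13) (.e (nat_lit 65619) (nat_lit 10) (.e (nat_lit 344126) (nat_lit 25) (.e (nat_lit 548872) (nat_lit 5) .nil))))))) (.g (nat_lit 6) .nil .nil))) 
(.lf (nat_lit 62053) (.g (nat_lit 1353) (.e (nat_lit 1575) (nat_lit 110) (.e (nat_lit 352269) (nat_lit 7) (.e (nat_lit 245776) (nat_lit 4) (.e (nat_lit 172113) (nat_lit 10) (.e (nat_lit 434295) (nat_lit 49) (.e (nat_lit 745475) (nat_lit 0) .nil)))))) (.g (nat_lit 5) .nil .nil)))) (.nd (nat_lit 5) 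
(.lf (nat_lit 62037) (.g (nat_lit 1560) (.e (nat_lit 1575) (nat_lit 110) (.e (nat_lit 352262) (nat_lit 0) (.e (nat_lit 3632) (nat_lit 227) (.e (nat_lit 778327) (nat_lit 6) (.e (nat_lit 81946) (nat_lit 20) (.e (nat_lit 2005) (nat_lit 138) (.e (nat_lit 671746) (nat_lit 0) .nil))))))) (.g (nat_lit 4) .nil .nil))) 
(.lf (nat_lit 62069) (.g (nat_lit 945) (.e (nat_lit 1575) (nat_lit 110) (.e (nat_lit 352271) (nat_lit 9) (.e (nat_lit 409603) (nat_lit 0) (.e (nat_lit 5407) (nat_lit 303) (.e (nat_lit 73773) (nat_lit 25) (.e (nat_lit 770055) (nat_lit 5) .nil)))))) (.g (nat_lit 6) .nil .nil))))) (.nd (nat_lit 4) (.nd (nat_lit 5) 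
(.lf (nat_lit 62029) (.g (nat_lit 1421) (.e (nat_lit 1575) (nat_lit 110) (.e (nat_lit 352262) (nat_lit 0) (.e (nat_lit 3632) (nat_lit 227) (.e (nat_lit 778326) (nat_lit 6) (.e (nat_lit 89856) (nat_lit 8) (.e (nat_lit 270080) (nat_lit 0) .nil)))))) (.g (nat_lit 4) .nil .nil))) 
(.lf (nat_lit 62061) (.g (nat_lit 794) (.e (nat_lit 1575) (nat_lit 110) (.e (nat_lit 352269) (nat_lit 7) (.e (nat_lit 245778) (nat_lit 6) (.e (nat_lit 188441) (nat_lit 20) (.e (nat_lit 3578) (nat_lit 223) (.e (nat_lit 745474) (nat_lit 0) .nil)))))) (.g (nat_lit 4) .nil .nil)))) (.nd (nat_lit 5) 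
(.lf (nat_lit 62045) (.g (nat_lit 2595) (.e (nat_lit 1575) (nat_lit 110) (.e (nat_lit 352262) (nat_lit 0) (.e (nat_lit 3748) (nat_lit 228) (.e (nat_lit 786481) (nat_lit 30) (.e (nat_lit 360486) (nat_lit 18) (.e (nat_lit 671748) (nat_lit 0) .nil)))))) (.g (nat_lit 0) .nil .nil))) 
(.lf (nat_lit 62077) (.g (nat_lit 355) (.e (nat_lit 1575) (nat_lit 110) (.e (nat_lit 352272) (nat_lit 10) (.e (nat_lit 417794) (nat_lit 0) (.e (nat_lit 5410) (nat_lit 303) .nil)))) .nil)))))) (.nd (nat_lit 2) (.nd (nat_lit 3) (.nd (nat_lit 4) (.nd (nat_lit 5) 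
(.lf (nat_lit 62019) (.g (nat_lit 2662) (.e (nat_lit 1575) (nat_lit 110) (.e (nat_lit 352262) (nat_lit 0) (.e (nat_lit 3305) (nat_lit 202) (.e (nat_lit 573479) (nat_lit 13) (.e (nat_lit 65619) (nat_lit 10) (.e (nat_lit 344126) (nat_lit 25) (.e (nat_lit 548872) (nat_lit 5) .nil))))))) (.g (nat_lit 5) .nil .nil))) 
(.lf (nat_lit 62051) (.g (nat_lit 1075) (.e (nat_lit 1575) (nat_lit 110) (.e (nat_lit 352269) (nat_lit 7) (.e (nat_lit 245776) (nat_lit 4) (.e (nat_lit 172112) (nat_lit 10) (.e (nat_lit 434295) (nat_lit 49) (.e (nat_lit 745474) (nat_lit 0) .nil)))))) (.g (nat_lit 5) .nil .nil)))) (.nd (nat_lit 5) 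
(.lf (nat_lit 62035) (.g (nat_lit 1170) (.e (nat_lit 1575) (nat_lit 110) (.e (nat_lit 352262) (nat_lit 0) (.e (nat_lit 3632) (nat_lit 227) (.e (nat_lit 778327) (nat_lit 6) .nil)))) .nil)) 
(.lf (nat_lit 62067) (.g (nat_lit 1028) (.e (nat_lit 1575) (nat_lit 110) (.e (nat_lit 352271) (nat_lit 9) (.e (nat_lit 409602) (nat_lit 0) (.e (nat_lit 5411) (nat_lit 303) (.e (nat_lit 73773) (nat_lit 25) (.e (nat_lit 770057) (nat_lit 5) .nil)))))) (.g (nat_lit 0) .nil .nil))))) (.nd (nat_lit 4) (.nd (nat_lit 5) 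
(.lf (nat_lit 62027) (.g (nat_lit 1566) (.e (nat_lit 1575) (nat_lit 110) (.e (nat_lit 352262) (nat_lit 0) (.e (nat_lit 3632) (nat_lit 227) (.e (nat_lit 778253) (nat_lit 0) .nil)))) .nil)) 
(.lf (nat_lit 62059) (.g (nat_lit 827) (.e (nat_lit 1575) (nat_lit 110) (.e (nat_lit 352269) (nat_lit 7) (.e (nat_lit 245778) (nat_lit 6) (.e (nat_lit 188440) (nat_lit 20) (.e (nat_lit 3578) (nat_lit 223) (.e (nat_lit 745474) (nat_lit 0) .nil)))))) (.g (nat_lit 4) .nil .nil)))) (.nd (nat_lit 5) 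
(.lf (nat_lit 62043) (.g (nat_lit 2289) (.e (nat_lit 1575) (nat_lit 110) (.e (nat_lit 352262) (nat_lit 0) (.e (nat_lit 3748) (nat_lit 228) (.e (nat_lit 786480) (nat_lit 29) (.e (nat_lit 352303) (nat_lit 20) .nil))))) .nil)) 
(.lf (nat_lit 62075) (.g (nat_lit 585) (.e (nat_lit 1575) (nat_lit 110) (.e (nat_lit 352271) (nat_lit 9) (.e (nat_lit 409605) (nat_lit 0) (.e (nat_lit 5411) (nat_lit 303) (.e (nat_lit 73773) (nat_lit 25) (.e (nat_lit 770056) (nat_lit 5) .nil)))))) (.g (nat_lit 0) .nil .nil)))))) (.nd (nat_lit 3) (.nd (nat_lit 4) (.nd (nat_lit 5) 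
(.lf (nat_lit 62023) (.g (nat_lit 2724) (.e (nat_lit 1575) (nat_lit 110) (.e (nat_lit 352262) (nat_lit 0) (.e (nat_lit 3305) (nat_lit 202) (.e (nat_lit 573491) (nat_lit 15) (.e (nat_lit 81946) (nat_lit 20) (.e (nat_lit 1842) (nat_lit 123) (.e (nat_lit 548873) (nat_lit 5) .nil))))))) (.g (nat_lit 6) .nil .nil))) 
(.lf (nat_lit 62055) (.g (nat_lit 1155) (.e (nat_lit 1575) (nat_lit 110) (.e (nat_lit 352269) (nat_lit 7) (.e (nat_lit 245776) (nat_lit 4) (.e (nat_lit 172116) (nat_lit 10) (.e (nat_lit 434295) (nat_lit 49) (.e (nat_lit 745474) (nat_lit 0) .nil)))))) (.g (nat_lit 5) .nil .nil)))) (.nd (nat_lit 5) 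
(.lf (nat_lit 62039) (.g (nat_lit 1677) (.e (nat_lit 1575) (nat_lit 110) (.e (nat_lit 352262) (nat_lit 0) (.e (nat_lit 3632) (nat_lit 227) (.e (nat_lit 778327) (nat_lit 6) (.e (nat_lit 81947) (nat_lit 20) (.e (nat_lit 2005) (nat_lit 138) (.e (nat_lit 671747) (nat_lit 0) .nil))))))) (.g (nat_lit 4) .nil .nil))) 
(.lf (nat_lit 62071) (.g (nat_lit 853) (.e (nat_lit 1575) (nat_lit 110) (.e (nat_lit 352271) (nat_lit 9) (.e (nat_lit 409603) (nat_lit 0) (.e (nat_lit 5407) (nat_lit 303) (.e (nat_lit 73773) (nat_lit 25) (.e (nat_lit 770057) (nat_lit 5) .nil)))))) (.g (nat_lit 6) .nil .nil))))) (.nd (nat_lit 4) (.nd (nat_lit 5) 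
(.lf (nat_lit 62031) (.g (nat_lit 2533) (.e (nat_lit 1575) (nat_lit 110) (.e (nat_lit 352262) (nat_lit 0) (.e (nat_lit 3632) (nat_lit 227) (.e (nat_lit 778326) (nat_lit 6) (.e (nat_lit 81939) (nat_lit 20) (.e (nat_lit 2006) (nat_lit 138) (.e (nat_lit 671748) (nat_lit 0) .nil))))))) (.g (nat_lit 0) .nil .nil))) 
(.lf (nat_lit 62063) (.g (nat_lit 1373) (.e (nat_lit 1575) (nat_lit 110) (.e (nat_lit 352271) (nat_lit 9) (.e (nat_lit 409602) (nat_lit 0) (.e (nat_lit 5407) (nat_lit 303) (.e (nat_lit 73773) (nat_lit 25) (.e (nat_lit 770055) (nat_lit 5) .nil)))))) (.g (nat_lit 6) .nil .nil)))) (.nd (nat_lit 5) 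
(.lf (nat_lit 62047) (.g (nat_lit 3274) (.e (nat_lit 1575) (nat_lit 110) (.e (nat_lit 352262) (nat_lit 0) (.e (nat_lit 3748) (nat_lit 228) (.e (nat_lit 786483) (nat_lit 30) (.e (nat_lit 360486) (nat_lit 18) (.e (nat_lit 671748) (nat_lit 0) .nil)))))) (.g (nat_lit 0) .nil .nil))) 
(.lf (nat_lit 62079) (.g (nat_lit 1612) (.e (nat_lit 1575) (nat_lit 110) (.e (nat_lit 352272) (nat_lit 10) (.e (nat_lit 417795) (nat_lit 0) (.e (nat_lit 5409) (nat_lit 303) (.e (nat_lit 73773) (nat_lit 25) (.e (nat_lit 770058) (nat_lit 5) .nil)))))) (.g (nat_lit 0) .nil .nil)))))))))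

noncomputable def tv851 : DT := (.nd (nat_lit 0) (.nd (nat_lit 1) (.nd (nat_lit 2) (.nd (nat_lit 3) (.nd (nat_lit 4) (.nd (nat_lit 5) 
(.lf (nat_lit 62080) (.g (nat_lit 1268) (.e (nat_lit 1575) (nat_lit 110) (.e (nat_lit 352272) (nat_lit 10) (.e (nat_lit 417795) (nat_lit 0) (.e (nat_lit 5410) (nat_lit 303) (.e (nat_lit 73773) (nat_lit 25) (.e (nat_lit 770058) (nat_lit 5) .nil)))))) (.g (nat_lit 0) .nil .nil))) 
(.lf (nat_lit 62112) (.g (nat_lit 3020) (.e (nat_lit 1575) (nat_lit 110) (.e (nat_lit 352277) (nat_lit 11) (.e (nat_lit 426343) (nat_lit 14) (.e (nat_lit 491558) (nat_lit 10) (.e (nat_lit 344177) (nat_lit 43) (.e (nat_lit 770058) (nat_lit 5) .nil)))))) (.g (nat_lit 0) .nil .nil)))) (.nd (nat_lit 5) 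
(.lf (nat_lit 62096) (.g (nat_lit 614) (.e (nat_lit 1575) (nat_lit 110) (.e (nat_lit 352276) (nat_lit 11) (.e (nat_lit 425989) (nat_lit 0) (.e (nat_lit 7592) (nat_lit 407) (.e (nat_lit 73773) (nat_lit 25) (.e (nat_lit 770056) (nat_lit 5) .nil)))))) (.g (nat_lit 0) .nil .nil))) 
(.lf (nat_lit 62128) (.g (nat_lit 1190) (.e (nat_lit 1575) (nat_lit 110) (.e (nat_lit 352313) (nat_lit 23) (.e (nat_lit 98389) (nat_lit 33) (.e (nat_lit 491558) (nat_lit 10) (.e (nat_lit 344126) (nat_lit 25) .nil))))) .nil)))) (.nd (nat_lit 4) (.nd (nat_lit 5) 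
(.lf (nat_lit 62088) (.g (nat_lit 1342) (.e (nat_lit 1575) (nat_lit 110) (.e (nat_lit 352272) (nat_lit 10) (.e (nat_lit 417796) (nat_lit 0) (.e (nat_lit 5413) (nat_lit 303) (.e (nat_lit 73773) (nat_lit 25) (.e (nat_lit 770058) (nat_lit 5) .nil)))))) (.g (nat_lit 0) .nil .nil))) 
(.lf (nat_lit 62120) (.g (nat_lit 2856) (.e (nat_lit 1575) (nat_lit 110) (.e (nat_lit 352277) (nat_lit 11) (.e (nat_lit 426344) (nat_lit 14) (.e (nat_lit 491558) (nat_lit 10) (.e (nat_lit 344177) (nat_lit 43) (.e (nat_lit 770058) (nat_lit 5) .nil)))))) (.g (nat_lit 0) .nil .nil)))) (.nd (nat_lit 5) 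
(.lf (nat_lit 62104) (.g (nat_lit 1640) (.e (nat_lit 1575) (nat_lit 110) (.e (nat_lit 352277) (nat_lit 11) (.e (nat_lit 426012) (nat_lit 0) (.e (nat_lit 7591) (nat_lit 407) (.e (nat_lit 73772) (nat_lit 24) (.e (nat_lit 769792) (nat_lit 5) .nil)))))) (.g (nat_lit 5) .nil .nil))) 
(.lf (nat_lit 62136) (.g (nat_lit 799) (.e (nat_lit 1576) (nat_lit 110) (.e (nat_lit 352272) (nat_lit 10) (.e (nat_lit 417796) (nat_lit 0) (.e (nat_lit 5412) (nat_lit 303) .nil)))) .nil))))) (.nd (nat_lit 3) (.nd (nat_lit 4) (.nd (nat_lit 5) 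
(.lf (nat_lit 62084) (.g (nat_lit 1932) (.e (nat_lit 1575) (nat_lit 110) (.e (nat_lit 352272) (nat_lit 10) (.e (nat_lit 417796) (nat_lit 0) (.e (nat_lit 5409) (nat_lit 303) (.e (nat_lit 73773) (nat_lit 25) (.e (nat_lit 770058) (nat_lit 5) .nil)))))) (.g (nat_lit 0) .nil .nil))) 
(.lf (nat_lit 62116) (.g (nat_lit 2455) (.e (nat_lit 1575) (nat_lit 110) (.e (nat_lit 352277) (nat_lit 11) (.e (nat_lit 426343) (nat_lit 14) (.e (nat_lit 491560) (nat_lit 10) (.e (nat_lit 344175) (nat_lit 43) (.e (nat_lit 770055) (nat_lit 5) .nil)))))) (.g (nat_lit 6) .nil .nil)))) (.nd (nat_lit 5) 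
(.lf (nat_lit 62100) (.g (nat_lit 2173) (.e (nat_lit 1575) (nat_lit 110) (.e (nat_lit 352277) (nat_lit 11) (.e (nat_lit 426011) (nat_lit 0) (.e (nat_lit 7591) (nat_lit 407) (.e (nat_lit 73772) (nat_lit 24) (.e (nat_lit 769792) (nat_lit 5) .nil)))))) (.g (nat_lit 4) .nil .nil))) 
(.lf (nat_lit 62132) (.g (nat_lit 2065) (.e (nat_lit 1576) (nat_lit 110) (.e (nat_lit 352262) (nat_lit 0) (.e (nat_lit 3748) (nat_lit 228) (.e (nat_lit 786483) (nat_lit 30) (.e (nat_lit 360486) (nat_lit 18) .nil))))) .nil)))) (.nd (nat_lit 4) (.nd (nat_lit 5) 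
(.lf (nat_lit 62092) (.g (nat_lit 1801) (.e (nat_lit 1575) (nat_lit 110) (.e (nat_lit 352272) (nat_lit 10) (.e (nat_lit 417811) (nat_lit 6) (.e (nat_lit 286755) (nat_lit 10) (.e (nat_lit 344177) (nat_lit 43) (.e (nat_lit 770056) (nat_lit 5) .nil)))))) (.g (nat_lit 6) .nil .nil))) 
(.lf (nat_lit 62124) (.g (nat_lit 2037) (.e (nat_lit 1575) (nat_lit 110) (.e (nat_lit 352277) (nat_lit 11) (.e (nat_lit 426344) (nat_lit 14) (.e (nat_lit 491560) (nat_lit 10) (.e (nat_lit 344174) (nat_lit 42) (.e (nat_lit 769792) (nat_lit 5) .nil)))))) (.g (nat_lit 5) .nil .nil)))) (.nd (nat_lit 5) 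
(.lf (nat_lit 62108) (.g (nat_lit 1858) (.e (nat_lit 1575) (nat_lit 110) (.e (nat_lit 352277) (nat_lit 11) (.e (nat_lit 426342) (nat_lit 14) (.e (nat_lit 491560) (nat_lit 10) (.e (nat_lit 344175) (nat_lit 43) (.e (nat_lit 770056) (nat_lit 5) .nil)))))) (.g (nat_lit 5) .nil .nil))) 
(.lf (nat_lit 62140) (.g (nat_lit 1701) (.e (nat_lit 1576) (nat_lit 110) (.e (nat_lit 352277) (nat_lit 11) (.e (nat_lit 426011) (nat_lit 0) (.e (nat_lit 7593) (nat_lit 407) .nil)))) .nil)))))) (.nd (nat_lit 2) (.nd (nat_lit 3) (.nd (nat_lit 4) (.nd (nat_lit 5) 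
(.lf (nat_lit 62082) (.g (nat_lit 1591) (.e (nat_lit 1575) (nat_lit 110) (.e (nat_lit 352272) (nat_lit 10) (.e (nat_lit 417795) (nat_lit 0) (.e (nat_lit 5412) (nat_lit 303) (.e (nat_lit 73773) (nat_lit 25) (.e (nat_lit 770058) (nat_lit 5) .nil)))))) (.g (nat_lit 0) .nil .nil))) 
(.lf (nat_lit 62114) (.g (nat_lit 2799) (.e (nat_lit 1575) (nat_lit 110) (.e (nat_lit 352277) (nat_lit 11) (.e (nat_lit 426343) (nat_lit 14) (.e (nat_lit 491559) (nat_lit 10) (.e (nat_lit 344177) (nat_lit 43) (.e (nat_lit 770057) (nat_lit 5) .nil)))))) (.g (nat_lit 6) .nil .nil)))) (.nd (nat_lit 5) 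
(.lf (nat_lit 62098) (.g (nat_lit 1212) (.e (nat_lit 1575) (nat_lit 110) (.e (nat_lit 352277) (nat_lit 11) (.e (nat_lit 426010) (nat_lit 0) (.e (nat_lit 7591) (nat_lit 407) (.e (nat_lit 73772) (nat_lit 24) (.e (nat_lit 769792) (nat_lit 5) .nil)))))) (.g (nat_lit 4) .nil .nil))) 
(.lf (nat_lit 62130) (.g (nat_lit 1789) (.e (nat_lit 1576) (nat_lit 110) (.e (nat_lit 352262) (nat_lit 0) (.e (nat_lit 3632) (nat_lit 227) (.e (nat_lit 778326) (nat_lit 6) (.e (nat_lit 81938) (nat_lit 20) .nil))))) .nil)))) (.nd (nat_lit 4) (.nd (nat_lit 5) 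
(.lf (nat_lit 62090) (.g (nat_lit 1943) (.e (nat_lit 1575) (nat_lit 110) (.e (nat_lit 352272) (nat_lit 10) (.e (nat_lit 417811) (nat_lit 6) (.e (nat_lit 286754) (nat_lit 10) (.e (nat_lit 344177) (nat_lit 43) (.e (nat_lit 770056) (nat_lit 5) .nil)))))) (.g (nat_lit 0) .nil .nil))) 
(.lf (nat_lit 62122) (.g (nat_lit 2359) (.e (nat_lit 1575) (nat_lit 110) (.e (nat_lit 352277) (nat_lit 11) (.e (nat_lit 426344) (nat_lit 14) (.e (nat_lit 491560) (nat_lit 10) (.e (nat_lit 344089) (nat_lit 18) .nil))))) .nil))) (.nd (nat_lit 5) 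
(.lf (nat_lit 62106) (.g (nat_lit 1797) (.e (nat_lit 1575) (nat_lit 110) (.e (nat_lit 352277) (nat_lit 11) (.e (nat_lit 426012) (nat_lit 0) (.e (nat_lit 7593) (nat_lit 407) (.e (nat_lit 73772) (nat_lit 24) (.e (nat_lit 769792) (nat_lit 5) .nil)))))) (.g (nat_lit 5) .nil .nil))) 
(.lf (nat_lit 62138) (.g (nat_lit 922) (.e (nat_lit 1576) (nat_lit 110) (.e (nat_lit 352272) (nat_lit 10) (.e (nat_lit 417811) (nat_lit 6) (.e (nat_lit 286755) (nat_lit 10) (.e (nat_lit 344177) (nat_lit 43) .nil))))) .nil))))) (.nd (nat_lit 3) (.nd (nat_lit 4) (.nd (nat_lit 5) 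
(.lf (nat_lit 62086) (.g (nat_lit 1306) (.e (nat_lit 1575) (nat_lit 110) (.e (nat_lit 352272) (nat_lit 10) (.e (nat_lit 417796) (nat_lit 0) (.e (nat_lit 5412) (nat_lit 303) (.e (nat_lit 73773) (nat_lit 25) (.e (nat_lit 770056) (nat_lit 5) .nil)))))) (.g (nat_lit 0) .nil .nil))) 
(.lf (nat_lit 62118) (.g (nat_lit 2438) (.e (nat_lit 1575) (nat_lit 110) (.e (nat_lit 352277) (nat_lit 11) (.e (nat_lit 426343) (nat_lit 14) (.e (nat_lit 491560) (nat_lit 10) (.e (nat_lit 344175) (nat_lit 43) (.e (nat_lit 770058) (nat_lit 5) .nil)))))) (.g (nat_lit 6) .nil .nil)))) (.nd (nat_lit 5) 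
(.lf (nat_lit 62102) (.g (nat_lit 2286) (.e (nat_lit 1575) (nat_lit 110) (.e (nat_lit 352277) (nat_lit 11) (.e (nat_lit 426011) (nat_lit 0) (.e (nat_lit 7593) (nat_lit 407) (.e (nat_lit 73772) (nat_lit 24) (.e (nat_lit 769792) (nat_lit 5) .nil)))))) (.g (nat_lit 5) .nil .nil))) 
(.lf (nat_lit 62134) (.g (nat_lit 393) (.e (nat_lit 1576) (nat_lit 110) (.e (nat_lit 352272) (nat_lit 10) (.e (nat_lit 417796) (nat_lit 0) .nil))) .nil)))) (.nd (nat_lit 4) (.nd (nat_lit 5) 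
(.lf (nat_lit 62094) (.g (nat_lit 660) (.e (nat_lit 1575) (nat_lit 110) (.e (nat_lit 352276) (nat_lit 11) (.e (nat_lit 425984) (nat_lit 0) (.e (nat_lit 7592) (nat_lit 407) (.e (nat_lit 73773) (nat_lit 25) (.e (nat_lit 770056) (nat_lit 5) .nil)))))) (.g (nat_lit 0) .nil .nil))) 
(.lf (nat_lit 62126) (.g (nat_lit 1258) (.e (nat_lit 1575) (nat_lit 110) (.e (nat_lit 352297) (nat_lit 20) (.e (nat_lit 1842) (nat_lit 123) (.e (nat_lit 548889) (nat_lit 9) (.e (nat_lit 65617) (nat_lit 10) .nil))))) .nil))) (.nd (nat_lit 5) 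
(.lf (nat_lit 62110) (.g (nat_lit 1938) (.e (nat_lit 1575) (nat_lit 110) (.e (nat_lit 352277) (nat_lit 11) (.e (nat_lit 426342) (nat_lit 14) (.e (nat_lit 491560) (nat_lit 10) (.e (nat_lit 344175) (nat_lit 43) (.e (nat_lit 770058) (nat_lit 5) .nil)))))) (.g (nat_lit 5) .nil .nil))) 
(.lf (nat_lit 62142) (.g (nat_lit 526) (.e (nat_lit 1576) (nat_lit 110) (.e (nat_lit 352277) (nat_lit 11) (.e (nat_lit 426344) (nat_lit 14) .nil))) .nil))))))) (.nd (nat_lit 1) (.nd (nat_lit 2) (.nd (nat_lit 3) (.nd (nat_lit 4) (.nd (nat_lit 5) 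
(.lf (nat_lit 62081) (.g (nat_lit 1365) (.e (nat_lit 1575) (nat_lit 110) (.e (nat_lit 352272) (nat_lit 10) (.e (nat_lit 417795) (nat_lit 0) (.e (nat_lit 5412) (nat_lit 303) (.e (nat_lit 73773) (nat_lit 25) (.e (nat_lit 770056) (nat_lit 5) .nil)))))) (.g (nat_lit 0) .nil .nil))) 
(.lf (nat_lit 62113) (.g (nat_lit 2048) (.e (nat_lit 1575) (nat_lit 110) (.e (nat_lit 352277) (nat_lit 11) (.e (nat_lit 426343) (nat_lit 14) (.e (nat_lit 491559) (nat_lit 10) (.e (nat_lit 344177) (nat_lit 43) .nil))))) .nil))) (.nd (nat_lit 5) 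
(.lf (nat_lit 62097) (.g (nat_lit 563) (.e (nat_lit 1575) (nat_lit 110) (.e (nat_lit 352276) (nat_lit 11) (.e (nat_lit 425990) (nat_lit 0) (.e (nat_lit 7592) (nat_lit 407) (.e (nat_lit 73773) (nat_lit 25) (.e (nat_lit 770056) (nat_lit 5) .nil)))))) (.g (nat_lit 0) .nil .nil))) 
(.lf (nat_lit 62129) (.g (nat_lit 1565) (.e (nat_lit 1576) (nat_lit 110) (.e (nat_lit 352262) (nat_lit 0) (.e (nat_lit 3632) (nat_lit 227) (.e (nat_lit 778326) (nat_lit 6) .nil)))) .nil)))) (.nd (nat_lit 4) (.nd (nat_lit 5) 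
(.lf (nat_lit 62089) (.g (nat_lit 1962) (.e (nat_lit 1575) (nat_lit 110) (.e (nat_lit 352272) (nat_lit 10) (.e (nat_lit 417811) (nat_lit 6) (.e (nat_lit 286753) (nat_lit 10) (.e (nat_lit 344177) (nat_lit 43) (.e (nat_lit 770056) (nat_lit 5) .nil)))))) (.g (nat_lit 0) .nil .nil))) 
(.lf (nat_lit 62121) (.g (nat_lit 1954) (.e (nat_lit 1575) (nat_lit 110) (.e (nat_lit 352277) (nat_lit 11) (.e (nat_lit 426344) (nat_lit 14) (.e (nat_lit 491559) (nat_lit 10) (.e (nat_lit 344177) (nat_lit 43) (.e (nat_lit 770058) (nat_lit 5) .nil)))))) (.g (nat_lit 4) .nil .nil)))) (.nd (nat_lit 5) 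
(.lf (nat_lit 62105) (.g (nat_lit 2162) (.e (nat_lit 1575) (nat_lit 110) (.e (nat_lit 352277) (nat_lit 11) (.e (nat_lit 426012) (nat_lit 0) (.e (nat_lit 7591) (nat_lit 407) (.e (nat_lit 73773) (nat_lit 25) (.e (nat_lit 770057) (nat_lit 5) .nil)))))) (.g (nat_lit 0) .nil .nil))) 
(.lf (nat_lit 62137) (.g (nat_lit 1069) (.e (nat_lit 1576) (nat_lit 110) (.e (nat_lit 352272) (nat_lit 10) (.e (nat_lit 417811) (nat_lit 6) (.e (nat_lit 286754) (nat_lit 10) (.e (nat_lit 344177) (nat_lit 43) .nil))))) .nil))))) (.nd (nat_lit 3) (.nd (nat_lit 4) (.nd (nat_lit 5) 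
(.lf (nat_lit 62085) (.g (nat_lit 1414) (.e (nat_lit 1575) (nat_lit 110) (.e (nat_lit 352272) (nat_lit 10) (.e (nat_lit 417796) (nat_lit 0) (.e (nat_lit 5410) (nat_lit 303) (.e (nat_lit 73773) (nat_lit 25) (.e (nat_lit 770058) (nat_lit 5) .nil)))))) (.g (nat_lit 0) .nil .nil))) 
(.lf (nat_lit 62117) (.g (nat_lit 2352) (.e (nat_lit 1575) (nat_lit 110) (.e (nat_lit 352277) (nat_lit 11) (.e (nat_lit 426343) (nat_lit 14) (.e (nat_lit 491560) (nat_lit 10) (.e (nat_lit 344175) (nat_lit 43) (.e (nat_lit 770057) (nat_lit 5) .nil)))))) (.g (nat_lit 6) .nil .nil)))) (.nd (nat_lit 5) 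
(.lf (nat_lit 62101) (.g (nat_lit 2587) (.e (nat_lit 1575) (nat_lit 110) (.e (nat_lit 352277) (nat_lit 11) (.e (nat_lit 426011) (nat_lit 0) (.e (nat_lit 7591) (nat_lit 407) (.e (nat_lit 73773) (nat_lit 25) (.e (nat_lit 770057) (nat_lit 5) .nil)))))) (.g (nat_lit 0) .nil .nil))) 
(.lf (nat_lit 62133) (.g (nat_lit 153) (.e (nat_lit 1576) (nat_lit 110) (.e (nat_lit 352269) (nat_lit 7) (.e (nat_lit 245778) (nat_lit 6) .nil))) .nil)))) (.nd (nat_lit 4) (.nd (nat_lit 5) 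
(.lf (nat_lit 62093) (.g (nat_lit 1842) (.e (nat_lit 1575) (nat_lit 110) (.e (nat_lit 352272) (nat_lit 10) (.e (nat_lit 417811) (nat_lit 6) (.e (nat_lit 286755) (nat_lit 10) (.e (nat_lit 344177) (nat_lit 43) (.e (nat_lit 770057) (nat_lit 5) .nil)))))) (.g (nat_lit 6) .nil .nil))) 
(.lf (nat_lit 62125) (.g (nat_lit 660) (.e (nat_lit 1575) (nat_lit 110) (.e (nat_lit 352279) (nat_lit 19) (.e (nat_lit 491585) (nat_lit 29) (.e (nat_lit 442409) (nat_lit 20) (.e (nat_lit 3288) (nat_lit 201) (.e (nat_lit 565252) (nat_lit 0) .nil)))))) (.g (nat_lit 6) .nil .nil)))) (.nd (nat_lit 5) 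
(.lf (nat_lit 62109) (.g (nat_lit 1868) (.e (nat_lit 1575) (nat_lit 110) (.e (nat_lit 352277) (nat_lit 11) (.e (nat_lit 426342) (nat_lit 14) (.e (nat_lit 491560) (nat_lit 10) (.e (nat_lit 344175) (nat_lit 43) (.e (nat_lit 770057) (nat_lit 5) .nil)))))) (.g (nat_lit 5) .nil .nil))) 
(.lf (nat_lit 62141) (.g (nat_lit 535) (.e (nat_lit 1576) (nat_lit 110) (.e (nat_lit 352277) (nat_lit 11) (.e (nat_lit 426012) (nat_lit 0) .nil))) .nil)))))) (.nd (nat_lit 2) (.nd (nat_lit 3) (.nd (nat_lit 4) (.nd (nat_lit 5) 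
(.lf (nat_lit 62083) (.g (nat_lit 1206) (.e (nat_lit 1575) (nat_lit 110) (.e (nat_lit 352272) (nat_lit 10) (.e (nat_lit 417795) (nat_lit 0) (.e (nat_lit 5413) (nat_lit 303) (.e (nat_lit 73773) (nat_lit 25) (.e (nat_lit 770058) (nat_lit 5) .nil)))))) (.g (nat_lit 0) .nil .nil))) 
(.lf (nat_lit 62115) (.g (nat_lit 2327) (.e (nat_lit 1575) (nat_lit 110) (.e (nat_lit 352277) (nat_lit 11) (.e (nat_lit 426343) (nat_lit 14) (.e (nat_lit 491560) (nat_lit 10) (.e (nat_lit 344173) (nat_lit 42) .nil))))) .nil))) (.nd (nat_lit 5) 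
(.lf (nat_lit 62099) (.g (nat_lit 1411) (.e (nat_lit 1575) (nat_lit 110) (.e (nat_lit 352277) (nat_lit 11) (.e (nat_lit 426010) (nat_lit 0) (.e (nat_lit 7593) (nat_lit 407) (.e (nat_lit 73772) (nat_lit 24) (.e (nat_lit 769792) (nat_lit 5) .nil)))))) (.g (nat_lit 5) .nil .nil))) 
(.lf (nat_lit 62131) (.g (nat_lit 1422) (.e (nat_lit 1576) (nat_lit 110) (.e (nat_lit 352262) (nat_lit 0) (.e (nat_lit 3748) (nat_lit 228) (.e (nat_lit 786481) (nat_lit 30) .nil)))) .nil)))) (.nd (nat_lit 4) (.nd (nat_lit 5) 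
(.lf (nat_lit 62091) (.g (nat_lit 1777) (.e (nat_lit 1575) (nat_lit 110) (.e (nat_lit 352272) (nat_lit 10) (.e (nat_lit 417811) (nat_lit 6) (.e (nat_lit 286755) (nat_lit 10) (.e (nat_lit 344177) (nat_lit 43) (.e (nat_lit 770055) (nat_lit 5) .nil)))))) (.g (nat_lit 6) .nil .nil))) 
(.lf (nat_lit 62123) (.g (nat_lit 2070) (.e (nat_lit 1575) (nat_lit 110) (.e (nat_lit 352277) (nat_lit 11) (.e (nat_lit 426344) (nat_lit 14) (.e (nat_lit 491560) (nat_lit 10) (.e (nat_lit 344173) (nat_lit 42) (.e (nat_lit 769792) (nat_lit 5) .nil)))))) (.g (nat_lit 4) .nil .nil)))) (.nd (nat_lit 5) 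
(.lf (nat_lit 62107) (.g (nat_lit 1971) (.e (nat_lit 1575) (nat_lit 110) (.e (nat_lit 352277) (nat_lit 11) (.e (nat_lit 426342) (nat_lit 14) (.e (nat_lit 491560) (nat_lit 10) (.e (nat_lit 344175) (nat_lit 43) (.e (nat_lit 770055) (nat_lit 5) .nil)))))) (.g (nat_lit 5) .nil .nil))) 
(.lf (nat_lit 62139) (.g (nat_lit 1716) (.e (nat_lit 1576) (nat_lit 110) (.e (nat_lit 352277) (nat_lit 11) (.e (nat_lit 426011) (nat_lit 0) (.e (nat_lit 7591) (nat_lit 407) .nil)))) .nil))))) (.nd (nat_lit 3) (.nd (nat_lit 4) (.nd (nat_lit 5) 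
(.lf (nat_lit 62087) (.g (nat_lit 1533) (.e (nat_lit 1575) (nat_lit 110) (.e (nat_lit 352272) (nat_lit 10) (.e (nat_lit 417796) (nat_lit 0) (.e (nat_lit 5412) (nat_lit 303) (.e (nat_lit 73773) (nat_lit 25) (.e (nat_lit 770058) (nat_lit 5) .nil)))))) (.g (nat_lit 0) .nil .nil))) 
(.lf (nat_lit 62119) (.g (nat_lit 2207) (.e (nat_lit 1575) (nat_lit 110) (.e (nat_lit 352277) (nat_lit 11) (.e (nat_lit 426344) (nat_lit 14) (.e (nat_lit 491558) (nat_lit 10) (.e (nat_lit 344175) (nat_lit 43) .nil))))) .nil))) (.nd (nat_lit 5) 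
(.lf (nat_lit 62103) (.g (nat_lit 1069) (.e (nat_lit 1575) (nat_lit 110) (.e (nat_lit 352277) (nat_lit 11) (.e (nat_lit 426012) (nat_lit 0) (.e (nat_lit 7495) (nat_lit 402) .nil)))) .nil)) 
(.lf (nat_lit 62135) (.g (nat_lit 1209) (.e (nat_lit 1576) (nat_lit 110) (.e (nat_lit 352272) (nat_lit 10) (.e (nat_lit 417796) (nat_lit 0) (.e (nat_lit 5409) (nat_lit 303) (.e (nat_lit 73773) (nat_lit 25) .nil))))) .nil)))) (.nd (nat_lit 4) (.nd (nat_lit 5) 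
(.lf (nat_lit 62095) (.g (nat_lit 624) (.e (nat_lit 1575) (nat_lit 110) (.e (nat_lit 352276) (nat_lit 11) (.e (nat_lit 425987) (nat_lit 0) (.e (nat_lit 7592) (nat_lit 407) (.e (nat_lit 73773) (nat_lit 25) (.e (nat_lit 770056) (nat_lit 5) .nil)))))) (.g (nat_lit 0) .nil .nil))) 
(.lf (nat_lit 62127) (.g (nat_lit 1370) (.e (nat_lit 1575) (nat_lit 110) (.e (nat_lit 352297) (nat_lit 20) (.e (nat_lit 1842) (nat_lit 123) (.e (nat_lit 548889) (nat_lit 9) (.e (nat_lit 65619) (nat_lit 10) .nil))))) .nil))) (.nd (nat_lit 5) 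
(.lf (nat_lit 62111) (.g (nat_lit 2522) (.e (nat_lit 1575) (nat_lit 110) (.e (nat_lit 352277) (nat_lit 11) (.e (nat_lit 426343) (nat_lit 14) (.e (nat_lit 491558) (nat_lit 10) (.e (nat_lit 344175) (nat_lit 43) .nil))))) .nil)) 
(.lf (nat_lit 62143) (.g (nat_lit 1731) (.e (nat_lit 1576) (nat_lit 110) (.e (nat_lit 352313) (nat_lit 23) (.e (nat_lit 98350) (nat_lit 24) (.e (nat_lit 417536) (nat_lit 18) .nil)))) .nil))))))))

noncomputable def tv852 : DT := (.nd (nat_lit 0) (.nd (nat_lit 1) (.nd (nat_lit 2) (.nd (nat_lit 3) (.nd (nat_lit 4) (.nd (nat_lit 5) 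
(.lf (nat_lit 62144) (.g (nat_lit 347) (.e (nat_lit 1576) (nat_lit 110) (.e (nat_lit 352313) (nat_lit 23) (.e (nat_lit 98389) (nat_lit 33) .nil))) .nil)) 
(.lf (nat_lit 62176) (.g (nat_lit 3860) (.e (nat_lit 1580) (nat_lit 111) (.e (nat_lit 360466) (nat_lit 3) (.e (nat_lit 516179) (nat_lit 15) (.e (nat_lit 475199) (nat_lit 40) (.e (nat_lit 704589) (nat_lit 3) (.e (nat_lit 163979) (nat_lit 30) (.e (nat_lit 573452) (nat_lit 9) .nil))))))) (.g (nat_lit 6) .nil .nil)))) (.nd (nat_lit 5) 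
(.lf (nat_lit 62160) (.g (nat_lit 1565) (.e (nat_lit 1580) (nat_lit 111) (.e (nat_lit 360449) (nat_lit 0) (.e (nat_lit 7265) (nat_lit 384) (.e (nat_lit 57412) (nat_lit 12) (.e (nat_lit 336176) (nat_lit 10) .nil))))) .nil)) 
(.lf (nat_lit 62192) (.g (nat_lit 1575) (.e (nat_lit 1580) (nat_lit 111) (.e (nat_lit 360473) (nat_lit 8) (.e (nat_lit 557087) (nat_lit 11) (.e (nat_lit 24617) (nat_lit 7) .nil)))) .nil)))) (.nd (nat_lit 4) (.nd (nat_lit 5) 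
(.lf (nat_lit 62152) (.g (nat_lit 1874) (.e (nat_lit 1577) (nat_lit 110) (.e (nat_lit 352315) (nat_lit 23) (.e (nat_lit 98350) (nat_lit 24) (.e (nat_lit 409647) (nat_lit 18) .nil)))) .nil)) 
(.lf (nat_lit 62184) (.g (nat_lit 5057) (.e (nat_lit 1580) (nat_lit 111) (.e (nat_lit 360467) (nat_lit 3) (.e (nat_lit 516139) (nat_lit 7) (.e (nat_lit 409648) (nat_lit 18) (.e (nat_lit 303117) (nat_lit 2) (.e (nat_lit 196630) (nat_lit 9) .nil)))))) (.g (nat_lit 0) .nil .nil)))) (.nd (nat_lit 5) 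
(.lf (nat_lit 62168) (.g (nat_lit 1291) (.e (nat_lit 1580) (nat_lit 111) (.e (nat_lit 360466) (nat_lit 3) (.e (nat_lit 516097) (nat_lit 0) (.e (nat_lit 7936) (nat_lit 377) .nil)))) .nil)) 
(.lf (nat_lit 62200) (.g (nat_lit 2262) (.e (nat_lit 1580) (nat_lit 111) (.e (nat_lit 360473) (nat_lit 8) (.e (nat_lit 557090) (nat_lit 12) (.e (nat_lit 164020) (nat_lit 45) (.e (nat_lit 696344) (nat_lit 8) (.e (nat_lit 172062) (nat_lit 2) (.e (nat_lit 196630) (nat_lit 9) .nil))))))) (.g (nat_lit 4) .nil .nil)))))) (.nd (nat_lit 3) (.nd (nat_lit 4) (.nd (nat_lit 5) 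
(.lf (nat_lit 62148) (.g (nat_lit 4269) (.e (nat_lit 1577) (nat_lit 110) (.e (nat_lit 352315) (nat_lit 23) (.e (nat_lit 98349) (nat_lit 24) (.e (nat_lit 409645) (nat_lit 18) (.e (nat_lit 303117) (nat_lit 2) (.e (nat_lit 196624) (nat_lit 9) .nil)))))) (.g (nat_lit 6) .nil .nil))) 
(.lf (nat_lit 62180) (.g (nat_lit 2871) (.e (nat_lit 1580) (nat_lit 111) (.e (nat_lit 360467) (nat_lit 3) (.e (nat_lit 516139) (nat_lit 7) (.e (nat_lit 409644) (nat_lit 18) (.e (nat_lit 303117) (nat_lit 2) (.e (nat_lit 196630) (nat_lit 9) .nil)))))) (.g (nat_lit 4) .nil .nil)))) (.nd (nat_lit 5) 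
(.lf (nat_lit 62164) (.g (nat_lit 1184) (.e (nat_lit 1580) (nat_lit 111) (.e (nat_lit 360453) (nat_lit 0) (.e (nat_lit 5907) (nat_lit 320) (.e (nat_lit 1219) (nat_lit 90) .nil)))) .nil)) 
(.lf (nat_lit 62196) (.g (nat_lit 2049) (.e (nat_lit 1580) (nat_lit 111) (.e (nat_lit 360473) (nat_lit 8) (.e (nat_lit 557090) (nat_lit 12) (.e (nat_lit 164020) (nat_lit 45) (.e (nat_lit 696343) (nat_lit 8) .nil))))) .nil)))) (.nd (nat_lit 4) (.nd (nat_lit 5) 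
(.lf (nat_lit 62156) (.g (nat_lit 1762) (.e (nat_lit 7936) (nat_lit 110) (.e (nat_lit 352315) (nat_lit 23) (.e (nat_lit 98350) (nat_lit 24) (.e (nat_lit 409647) (nat_lit 18) .nil)))) .nil)) 
(.lf (nat_lit 62188) (.g (nat_lit 2520) (.e (nat_lit 1580) (nat_lit 111) (.e (nat_lit 360471) (nat_lit 7) (.e (nat_lit 548889) (nat_lit 9) (.e (nat_lit 65586) (nat_lit 7) (.e (nat_lit 319519) (nat_lit 12) (.e (nat_lit 32774) (nat_lit 5) .nil)))))) (.g (nat_lit 4) .nil .nil)))) (.nd (nat_lit 5) 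
(.lf (nat_lit 62172) (.g (nat_lit 2499) (.e (nat_lit 1580) (nat_lit 111) (.e (nat_lit 360466) (nat_lit 3) (.e (nat_lit 516139) (nat_lit 7) (.e (nat_lit 409648) (nat_lit 18) (.e (nat_lit 303116) (nat_lit 2) (.e (nat_lit 196630) (nat_lit 9) .nil)))))) (.g (nat_lit 4) .nil .nil))) 
(.lf (nat_lit 62204) (.g (nat_lit 1276) (.e (nat_lit 1580) (nat_lit 111) (.e (nat_lit 360473) (nat_lit 8) (.e (nat_lit 557091) (nat_lit 12) (.e (nat_lit 164022) (nat_lit 46) .nil)))) .nil)))))) (.nd (nat_lit 2) (.nd (nat_lit 3) (.nd (nat_lit 4) (.nd (nat_lit 5) 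
(.lf (nat_lit 62146) (.g (nat_lit 360) (.e (nat_lit 1577) (nat_lit 110) (.e (nat_lit 352313) (nat_lit 23) (.e (nat_lit 98350) (nat_lit 24) .nil))) .nil)) 
(.lf (nat_lit 62178) (.g (nat_lit 2281) (.e (nat_lit 1580) (nat_lit 111) (.e (nat_lit 360466) (nat_lit 3) (.e (nat_lit 516179) (nat_lit 15) (.e (nat_lit 475211) (nat_lit 41) (.e (nat_lit 712722) (nat_lit 15) .nil))))) .nil))) (.nd (nat_lit 5) 
(.lf (nat_lit 62162) (.g (nat_lit 1613) (.e (nat_lit 1580) (nat_lit 111) (.e (nat_lit 360452) (nat_lit 0) (.e (nat_lit 5907) (nat_lit 320) (.e (nat_lit 1219) (nat_lit 90) .nil)))) .nil)) 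
(.lf (nat_lit 62194) (.g (nat_lit 2366) (.e (nat_lit 1580) (nat_lit 111) (.e (nat_lit 360473) (nat_lit 8) (.e (nat_lit 557087) (nat_lit 11) (.e (nat_lit 24617) (nat_lit 7) (.e (nat_lit 319519) (nat_lit 12) .nil))))) .nil)))) (.nd (nat_lit 4) (.nd (nat_lit 5) 
(.lf (nat_lit 62154) (.g (nat_lit 1802) (.e (nat_lit 7936) (nat_lit 110) (.e (nat_lit 352315) (nat_lit 23) (.e (nat_lit 98349) (nat_lit 24) (.e (nat_lit 409646) (nat_lit 18) (.e (nat_lit 303117) (nat_lit 2) .nil))))) .nil)) 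
(.lf (nat_lit 62186) (.g (nat_lit 1978) (.e (nat_lit 1580) (nat_lit 111) (.e (nat_lit 360471) (nat_lit 7) (.e (nat_lit 548889) (nat_lit 9) (.e (nat_lit 65584) (nat_lit 7) .nil)))) .nil))) (.nd (nat_lit 5) 
(.lf (nat_lit 62170) (.g (nat_lit 2659) (.e (nat_lit 1580) (nat_lit 111) (.e (nat_lit 360466) (nat_lit 3) (.e (nat_lit 516139) (nat_lit 7) (.e (nat_lit 409644) (nat_lit 18) (.e (nat_lit 303117) (nat_lit 2) (.e (nat_lit 196630) (nat_lit 9) .nil)))))) (.g (nat_lit 4) .nil .nil))) 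
(.lf (nat_lit 62202) (.g (nat_lit 2489) (.e (nat_lit 1580) (nat_lit 111) (.e (nat_lit 360473) (nat_lit 8) (.e (nat_lit 557090) (nat_lit 12) (.e (nat_lit 164020) (nat_lit 45) (.e (nat_lit 696344) (nat_lit 8) (.e (nat_lit 172073) (nat_lit 5) (.e (nat_lit 245782) (nat_lit 9) .nil))))))) (.g (nat_lit 5) .nil .nil)))))) (.nd (nat_lit 3) (.nd (nat_lit 4) (.nd (nat_lit 5) 
(.lf (nat_lit 62150) (.g (nat_lit 2003) (.e (nat_lit 1577) (nat_lit 110) (.e (nat_lit 352315) (nat_lit 23) (.e (nat_lit 98350) (nat_lit 24) (.e (nat_lit 409644) (nat_lit 18) (.e (nat_lit 303117) (nat_lit 2) (.e (nat_lit 196624) (nat_lit 9) .nil)))))) (.g (nat_lit 4) .nil .nil))) 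
(.lf (nat_lit 62182) (.g (nat_lit 3673) (.e (nat_lit 1580) (nat_lit 111) (.e (nat_lit 360467) (nat_lit 3) (.e (nat_lit 516139) (nat_lit 7) (.e (nat_lit 409647) (nat_lit 18) (.e (nat_lit 303117) (nat_lit 2) (.e (nat_lit 196630) (nat_lit 9) .nil)))))) (.g (nat_lit 5) .nil .nil)))) (.nd (nat_lit 5) 
(.lf (nat_lit 62166) (.g (nat_lit 3082) (.e (nat_lit 1580) (nat_lit 111) (.e (nat_lit 360453) (nat_lit 0) (.e (nat_lit 7272) (nat_lit 385) (.e (nat_lit 122916) (nat_lit 14) (.e (nat_lit 352309) (nat_lit 21) (.e (nat_lit 57666) (nat_lit 152) (.e (nat_lit 1077) (nat_lit 81) .nil))))))) (.g (nat_lit 5) .nil .nil))) 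
(.lf (nat_lit 62198) (.g (nat_lit 3007) (.e (nat_lit 1580) (nat_lit 111) (.e (nat_lit 360473) (nat_lit 8) (.e (nat_lit 557090) (nat_lit 12) (.e (nat_lit 164020) (nat_lit 45) (.e (nat_lit 696343) (nat_lit 8) (.e (nat_lit 172073) (nat_lit 5) (.e (nat_lit 245784) (nat_lit 9) .nil))))))) (.g (nat_lit 6) .nil .nil))))) (.nd (nat_lit 4) (.nd (nat_lit 5) 
(.lf (nat_lit 62158) (.g (nat_lit 1968) (.e (nat_lit 1580) (nat_lit 111) (.e (nat_lit 360449) (nat_lit 0) (.e (nat_lit 7125) (nat_lit 382) (.e (nat_lit 1222) (nat_lit 90) (.e (nat_lit 81943) (nat_lit 20) .nil))))) .nil)) 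
(.lf (nat_lit 62190) (.g (nat_lit 557) (.e (nat_lit 1580) (nat_lit 111) (.e (nat_lit 360473) (nat_lit 8) (.e (nat_lit 557087) (nat_lit 11) .nil))) .nil))) (.nd (nat_lit 5) 
(.lf (nat_lit 62174) (.g (nat_lit 1376) (.e (nat_lit 1580) (nat_lit 111) (.e (nat_lit 360466) (nat_lit 3) (.e (nat_lit 516146) (nat_lit 9) (.e (nat_lit 426467) (nat_lit 24) .nil)))) .nil)) 
(.lf (nat_lit 62206) (.g (nat_lit 1739) (.e (nat_lit 1580) (nat_lit 111) (.e (nat_lit 360473) (nat_lit 8) (.e (nat_lit 557091) (nat_lit 12) (.e (nat_lit 164022) (nat_lit 46) (.e (nat_lit 704738) (nat_lit 11) .nil))))) .nil))))))) (.nd (nat_lit 1) (.nd (nat_lit 2) (.nd (nat_lit 3) (.nd (nat_lit 4) (.nd (nat_lit 5) 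
(.lf (nat_lit 62145) (.g (nat_lit 2646) (.e (nat_lit 1576) (nat_lit 110) (.e (nat_lit 352314) (nat_lit 23) (.e (nat_lit 98350) (nat_lit 24) (.e (nat_lit 409645) (nat_lit 18) (.e (nat_lit 303117) (nat_lit 2) .nil))))) .nil)) 
(.lf (nat_lit 62177) (.g (nat_lit 2442) (.e (nat_lit 1580) (nat_lit 111) (.e (nat_lit 360466) (nat_lit 3) (.e (nat_lit 516179) (nat_lit 15) (.e (nat_lit 475199) (nat_lit 40) (.e (nat_lit 704590) (nat_lit 3) (.e (nat_lit 163975) (nat_lit 30) (.e (nat_lit 573449) (nat_lit 9) .nil))))))) (.g (nat_lit 4) .nil .nil)))) (.nd (nat_lit 5) 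
(.lf (nat_lit 62161) (.g (nat_lit 1319) (.e (nat_lit 1580) (nat_lit 111) (.e (nat_lit 360449) (nat_lit 0) (.e (nat_lit 7266) (nat_lit 384) (.e (nat_lit 57426) (nat_lit 15) .nil)))) .nil)) 
(.lf (nat_lit 62193) (.g (nat_lit 2529) (.e (nat_lit 1580) (nat_lit 111) (.e (nat_lit 360473) (nat_lit 8) (.e (nat_lit 557087) (nat_lit 11) (.e (nat_lit 24617) (nat_lit 7) (.e (nat_lit 319505) (nat_lit 10) .nil))))) .nil)))) (.nd (nat_lit 4) (.nd (nat_lit 5) 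
(.lf (nat_lit 62153) (.g (nat_lit 1471) (.e (nat_lit 1577) (nat_lit 110) (.e (nat_lit 352315) (nat_lit 23) (.e (nat_lit 98350) (nat_lit 24) (.e (nat_lit 417536) (nat_lit 18) .nil)))) .nil)) 
(.lf (nat_lit 62185) (.g (nat_lit 2309) (.e (nat_lit 1580) (nat_lit 111) (.e (nat_lit 360467) (nat_lit 3) (.e (nat_lit 516142) (nat_lit 8) (.e (nat_lit 417828) (nat_lit 18) (.e (nat_lit 303117) (nat_lit 2) (.e (nat_lit 196630) (nat_lit 9) .nil)))))) (.g (nat_lit 4) .nil .nil)))) (.nd (nat_lit 5) 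
(.lf (nat_lit 62169) (.g (nat_lit 2496) (.e (nat_lit 1580) (nat_lit 111) (.e (nat_lit 360466) (nat_lit 3) (.e (nat_lit 516139) (nat_lit 7) (.e (nat_lit 409643) (nat_lit 18) (.e (nat_lit 303117) (nat_lit 2) (.e (nat_lit 196630) (nat_lit 9) .nil)))))) (.g (nat_lit 4) .nil .nil))) 
(.lf (nat_lit 62201) (.g (nat_lit 2659) (.e (nat_lit 1580) (nat_lit 111) (.e (nat_lit 360473) (nat_lit 8) (.e (nat_lit 557090) (nat_lit 12) (.e (nat_lit 164020) (nat_lit 45) (.e (nat_lit 696344) (nat_lit 8) (.e (nat_lit 172072) (nat_lit 5) (.e (nat_lit 245785) (nat_lit 9) .nil))))))) (.g (nat_lit 5) .nil .nil)))))) (.nd (nat_lit 3) (.nd (nat_lit 4) (.nd (nat_lit 5) 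
(.lf (nat_lit 62149) (.g (nat_lit 1864) (.e (nat_lit 1577) (nat_lit 110) (.e (nat_lit 352315) (nat_lit 23) (.e (nat_lit 98350) (nat_lit 24) (.e (nat_lit 409643) (nat_lit 18) .nil)))) .nil)) 
(.lf (nat_lit 62181) (.g (nat_lit 4390) (.e (nat_lit 1580) (nat_lit 111) (.e (nat_lit 360467) (nat_lit 3) (.e (nat_lit 516139) (nat_lit 7) (.e (nat_lit 409646) (nat_lit 18) (.e (nat_lit 303117) (nat_lit 2) (.e (nat_lit 196630) (nat_lit 9) .nil)))))) (.g (nat_lit 5) .nil .nil)))) (.nd (nat_lit 5) 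
(.lf (nat_lit 62165) (.g (nat_lit 1194) (.e (nat_lit 1580) (nat_lit 111) (.e (nat_lit 360453) (nat_lit 0) (.e (nat_lit 5907) (nat_lit 320) (.e (nat_lit 1221) (nat_lit 90) .nil)))) .nil)) 
(.lf (nat_lit 62197) (.g (nat_lit 2547) (.e (nat_lit 1580) (nat_lit 111) (.e (nat_lit 360473) (nat_lit 8) (.e (nat_lit 557090) (nat_lit 12) (.e (nat_lit 164020) (nat_lit 45) (.e (nat_lit 696343) (nat_lit 8) (.e (nat_lit 172073) (nat_lit 5) (.e (nat_lit 245783) (nat_lit 9) .nil))))))) (.g (nat_lit 4) .nil .nil))))) (.nd (nat_lit 4) (.nd (nat_lit 5) 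
(.lf (nat_lit 62157) (.g (nat_lit 1524) (.e (nat_lit 1580) (nat_lit 111) (.e (nat_lit 360449) (nat_lit 0) (.e (nat_lit 7122) (nat_lit 382) (.e (nat_lit 1201) (nat_lit 88) (.e (nat_lit 65617) (nat_lit 10) .nil))))) .nil)) 
(.lf (nat_lit 62189) (.g (nat_lit 2570) (.e (nat_lit 1580) (nat_lit 111) (.e (nat_lit 360473) (nat_lit 8) (.e (nat_lit 557066) (nat_lit 9) (.e (nat_lit 232) (nat_lit 21) (.e (nat_lit 336060) (nat_lit 7) .nil))))) .nil))) (.nd (nat_lit 5) 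
(.lf (nat_lit 62173) (.g (nat_lit 1860) (.e (nat_lit 1580) (nat_lit 111) (.e (nat_lit 360466) (nat_lit 3) (.e (nat_lit 516139) (nat_lit 7) (.e (nat_lit 417536) (nat_lit 18) .nil)))) .nil)) 
(.lf (nat_lit 62205) (.g (nat_lit 1837) (.e (nat_lit 1580) (nat_lit 111) (.e (nat_lit 360473) (nat_lit 8) (.e (nat_lit 557091) (nat_lit 12) (.e (nat_lit 164022) (nat_lit 46) (.e (nat_lit 704737) (nat_lit 11) .nil))))) .nil)))))) (.nd (nat_lit 2) (.nd (nat_lit 3) (.nd (nat_lit 4) (.nd (nat_lit 5) 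
(.lf (nat_lit 62147) (.g (nat_lit 546) (.e (nat_lit 1577) (nat_lit 110) (.e (nat_lit 352315) (nat_lit 23) (.e (nat_lit 98349) (nat_lit 24) .nil))) .nil)) 
(.lf (nat_lit 62179) (.g (nat_lit 1164) (.e (nat_lit 1580) (nat_lit 111) (.e (nat_lit 360466) (nat_lit 3) (.e (nat_lit 516183) (nat_lit 16) (.e (nat_lit 491566) (nat_lit 12) .nil)))) .nil))) (.nd (nat_lit 5) 
(.lf (nat_lit 62163) (.g (nat_lit 1585) (.e (nat_lit 1580) (nat_lit 111) (.e (nat_lit 360452) (nat_lit 0) (.e (nat_lit 5907) (nat_lit 320) (.e (nat_lit 1221) (nat_lit 90) .nil)))) .nil)) 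
(.lf (nat_lit 62195) (.g (nat_lit 5168) (.e (nat_lit 1580) (nat_lit 111) (.e (nat_lit 360473) (nat_lit 8) (.e (nat_lit 557087) (nat_lit 11) (.e (nat_lit 24662) (nat_lit 14) (.e (nat_lit 401425) (nat_lit 2) (.e (nat_lit 196630) (nat_lit 9) .nil)))))) (.g (nat_lit 5) .nil .nil))))) (.nd (nat_lit 4) (.nd (nat_lit 5) 
(.lf (nat_lit 62155) (.g (nat_lit 2673) (.e (nat_lit 7936) (nat_lit 110) (.e (nat_lit 352315) (nat_lit 23) (.e (nat_lit 98350) (nat_lit 24) (.e (nat_lit 409645) (nat_lit 18) (.e (nat_lit 303117) (nat_lit 2) .nil))))) .nil)) 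
(.lf (nat_lit 62187) (.g (nat_lit 2023) (.e (nat_lit 1580) (nat_lit 111) (.e (nat_lit 360471) (nat_lit 7) (.e (nat_lit 548889) (nat_lit 9) (.e (nat_lit 65585) (nat_lit 7) .nil)))) .nil))) (.nd (nat_lit 5) 
(.lf (nat_lit 62171) (.g (nat_lit 5069) (.e (nat_lit 1580) (nat_lit 111) (.e (nat_lit 360466) (nat_lit 3) (.e (nat_lit 516139) (nat_lit 7) (.e (nat_lit 409646) (nat_lit 18) (.e (nat_lit 303117) (nat_lit 2) (.e (nat_lit 196630) (nat_lit 9) .nil)))))) (.g (nat_lit 0) .nil .nil))) 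
(.lf (nat_lit 62203) (.g (nat_lit 2985) (.e (nat_lit 1580) (nat_lit 111) (.e (nat_lit 360473) (nat_lit 8) (.e (nat_lit 557090) (nat_lit 12) (.e (nat_lit 164020) (nat_lit 45) (.e (nat_lit 696344) (nat_lit 8) (.e (nat_lit 172073) (nat_lit 5) (.e (nat_lit 245783) (nat_lit 9) .nil))))))) (.g (nat_lit 5) .nil .nil)))))) (.nd (nat_lit 3) (.nd (nat_lit 4) (.nd (nat_lit 5) 
(.lf (nat_lit 62151) (.g (nat_lit 3927) (.e (nat_lit 1577) (nat_lit 110) (.e (nat_lit 352315) (nat_lit 23) (.e (nat_lit 98350) (nat_lit 24) (.e (nat_lit 409646) (nat_lit 18) (.e (nat_lit 303117) (nat_lit 2) (.e (nat_lit 196624) (nat_lit 9) .nil)))))) (.g (nat_lit 0) .nil .nil))) 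
(.lf (nat_lit 62183) (.g (nat_lit 3715) (.e (nat_lit 1580) (nat_lit 111) (.e (nat_lit 360467) (nat_lit 3) (.e (nat_lit 516139) (nat_lit 7) (.e (nat_lit 409648) (nat_lit 18) (.e (nat_lit 303116) (nat_lit 2) (.e (nat_lit 196630) (nat_lit 9) .nil)))))) (.g (nat_lit 5) .nil .nil)))) (.nd (nat_lit 5) 
(.lf (nat_lit 62167) (.g (nat_lit 1348) (.e (nat_lit 1580) (nat_lit 111) (.e (nat_lit 368384) (nat_lit 0) (.e (nat_lit 5906) (nat_lit 320) (.e (nat_lit 1221) (nat_lit 90) (.e (nat_lit 89856) (nat_lit 8) (.e (nat_lit 262146) (nat_lit 0) .nil)))))) (.g (nat_lit 4) .nil .nil))) 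
(.lf (nat_lit 62199) (.g (nat_lit 1556) (.e (nat_lit 1580) (nat_lit 111) (.e (nat_lit 360473) (nat_lit 8) (.e (nat_lit 557090) (nat_lit 12) (.e (nat_lit 164020) (nat_lit 45) (.e (nat_lit 696344) (nat_lit 8) .nil))))) .nil)))) (.nd (nat_lit 4) (.nd (nat_lit 5) 
(.lf (nat_lit 62159) (.g (nat_lit 1847) (.e (nat_lit 1580) (nat_lit 111) (.e (nat_lit 360449) (nat_lit 0) (.e (nat_lit 7125) (nat_lit 382) (.e (nat_lit 1224) (nat_lit 90) (.e (nat_lit 81946) (nat_lit 20) .nil))))) .nil)) 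
(.lf (nat_lit 62191) (.g (nat_lit 1842) (.e (nat_lit 1580) (nat_lit 111) (.e (nat_lit 360473) (nat_lit 8) (.e (nat_lit 557087) (nat_lit 11) (.e (nat_lit 24616) (nat_lit 7) .nil)))) .nil))) (.nd (nat_lit 5) 
(.lf (nat_lit 62175) (.g (nat_lit 1738) (.e (nat_lit 1580) (nat_lit 111) (.e (nat_lit 360466) (nat_lit 3) (.e (nat_lit 516179) (nat_lit 15) (.e (nat_lit 475199) (nat_lit 40) .nil)))) .nil)) 
(.lf (nat_lit 62207) (.g (nat_lit 1443) (.e (nat_lit 1580) (nat_lit 111) (.e (nat_lit 360473) (nat_lit 8) (.e (nat_lit 557094) (nat_lit 12) (.e (nat_lit 164022) (nat_lit 46) (.e (nat_lit 704738) (nat_lit 11) (.e (nat_lit 16411) (nat_lit 2) (.e (nat_lit 196635) (nat_lit 9) .nil))))))) (.g (nat_lit 4) .nil .nil)))))))))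

noncomputable def tv853 : DT := (.nd (nat_lit 0) (.nd (nat_lit 1) (.nd (nat_lit 2) (.nd (nat_lit 3) (.nd (nat_lit 4) (.nd (nat_lit 5) (.nd (nat_lit 6) 
(.lf (nat_lit 62208) (.g (nat_lit 1773) (.e (nat_lit 1580) (nat_lit 111) (.e (nat_lit 360474) (nat_lit 8) (.e (nat_lit 557091) (nat_lit 12) (.e (nat_lit 163999) (nat_lit 38) .nil)))) .nil)) 
(.lf (nat_lit 62272) (.g (nat_lit 1585) (.e (nat_lit 1581) (nat_lit 111) (.e (nat_lit 360452) (nat_lit 0) (.e (nat_lit 5907) (nat_lit 320) (.e (nat_lit 1221) (nat_lit 90) .nil)))) .nil))) (.nd (nat_lit 6) 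
(.lf (nat_lit 62240) (.g (nat_lit 3008) (.e (nat_lit 1580) (nat_lit 111) (.e (nat_lit 360475) (nat_lit 8) (.e (nat_lit 557091) (nat_lit 12) (.e (nat_lit 164022) (nat_lit 46) (.e (nat_lit 704629) (nat_lit 9) .nil))))) .nil)) 
(.lf (nat_lit 62304) (.g (nat_lit 3537) (.e (nat_lit 1581) (nat_lit 111) (.e (nat_lit 360475) (nat_lit 8) (.e (nat_lit 557091) (nat_lit 12) (.e (nat_lit 163999) (nat_lit 38) (.e (nat_lit 639020) (nat_lit 16) (.e (nat_lit 65580) (nat_lit 6) (.e (nat_lit 155392) (nat_lit 0) .nil))))))) (.g (nat_lit 6) .nil .nil))))) (.nd (nat_lit 5) (.nd (nat_lit 6) 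
(.lf (nat_lit 62224) (.g (nat_lit 2983) (.e (nat_lit 1580) (nat_lit 111) (.e (nat_lit 360475) (nat_lit 8) (.e (nat_lit 557086) (nat_lit 11) (.e (nat_lit 24665) (nat_lit 14) (.e (nat_lit 401414) (nat_lit 0) (.e (nat_lit 3124) (nat_lit 193) (.e (nat_lit 499985) (nat_lit 14) .nil))))))) (.g (nat_lit 4) .nil .nil))) 
(.lf (nat_lit 62288) (.g (nat_lit 2263) (.e (nat_lit 1581) (nat_lit 111) (.e (nat_lit 360475) (nat_lit 8) (.e (nat_lit 557089) (nat_lit 12) (.e (nat_lit 164000) (nat_lit 38) .nil)))) .nil))) (.nd (nat_lit 6) 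
(.lf (nat_lit 62256) (.g (nat_lit 569) (.e (nat_lit 1580) (nat_lit 111) (.e (nat_lit 360488) (nat_lit 20) (.e (nat_lit 761866) (nat_lit 5) .nil))) .nil)) 
(.lf (nat_lit 62320) (.g (nat_lit 2113) (.e (nat_lit 1582) (nat_lit 111) (.e (nat_lit 360449) (nat_lit 0) (.e (nat_lit 7125) (nat_lit 382) (.e (nat_lit 1201) (nat_lit 88) (.e (nat_lit 65617) (nat_lit 10) (.e (nat_lit 344174) (nat_lit 42) (.e (nat_lit 761869) (nat_lit 5) .nil))))))) (.g (nat_lit 4) .nil .nil)))))) (.nd (nat_lit 4) (.nd (nat_lit 5) (.nd (nat_lit 6) 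
(.lf (nat_lit 62216) (.g (nat_lit 2539) (.e (nat_lit 1580) (nat_lit 111) (.e (nat_lit 360475) (nat_lit 8) (.e (nat_lit 557086) (nat_lit 11) (.e (nat_lit 24650) (nat_lit 12) (.e (nat_lit 385073) (nat_lit 31) .nil))))) .nil)) 
(.lf (nat_lit 62280) (.g (nat_lit 3710) (.e (nat_lit 1581) (nat_lit 111) (.e (nat_lit 360474) (nat_lit 8) (.e (nat_lit 557091) (nat_lit 12) (.e (nat_lit 163999) (nat_lit 38) (.e (nat_lit 639020) (nat_lit 16) (.e (nat_lit 65580) (nat_lit 6) (.e (nat_lit 155392) (nat_lit 0) .nil))))))) (.g (nat_lit 6) .nil .nil)))) (.nd (nat_lit 6) 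
(.lf (nat_lit 62248) (.g (nat_lit 2867) (.e (nat_lit 1580) (nat_lit 111) (.e (nat_lit 360475) (nat_lit 8) (.e (nat_lit 557091) (nat_lit 12) (.e (nat_lit 164022) (nat_lit 46) (.e (nat_lit 704738) (nat_lit 11) (.e (nat_lit 16412) (nat_lit 2) (.e (nat_lit 196642) (nat_lit 9) .nil))))))) (.g (nat_lit 4) .nil .nil))) 
(.lf (nat_lit 62312) (.g (nat_lit 1749) (.e (nat_lit 1581) (nat_lit 111) (.e (nat_lit 360475) (nat_lit 8) (.e (nat_lit 557119) (nat_lit 18) (.e (nat_lit 2798) (nat_lit 180) .nil)))) .nil)))) (.nd (nat_lit 5) (.nd (nat_lit 6) 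
(.lf (nat_lit 62232) (.g (nat_lit 2368) (.e (nat_lit 1580) (nat_lit 111) (.e (nat_lit 360475) (nat_lit 8) (.e (nat_lit 557090) (nat_lit 12) (.e (nat_lit 164020) (nat_lit 45) (.e (nat_lit 696343) (nat_lit 8) (.e (nat_lit 172073) (nat_lit 5) (.e (nat_lit 245784) (nat_lit 9) .nil))))))) (.g (nat_lit 4) .nil .nil))) 
(.lf (nat_lit 62296) (.g (nat_lit 3383) (.e (nat_lit 1581) (nat_lit 111) (.e (nat_lit 360475) (nat_lit 8) (.e (nat_lit 557090) (nat_lit 12) (.e (nat_lit 164020) (nat_lit 45) (.e (nat_lit 696344) (nat_lit 8) (.e (nat_lit 172064) (nat_lit 2) (.e (nat_lit 196646) (nat_lit 9) .nil))))))) (.g (nat_lit 5) .nil .nil)))) (.nd (nat_lit 6) 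
(.lf (nat_lit 62264) (.g (nat_lit 3619) (.e (nat_lit 1580) (nat_lit 111) (.e (nat_lit 360492) (nat_lit 22) (.e (nat_lit 778465) (nat_lit 11) (.e (nat_lit 24665) (nat_lit 14) (.e (nat_lit 401414) (nat_lit 0) (.e (nat_lit 3459) (nat_lit 216) (.e (nat_lit 688159) (nat_lit 13) .nil))))))) (.g (nat_lit 6) .nil .nil))) 
(.lf (nat_lit 62328) (.g (nat_lit 2679) (.e (nat_lit 1582) (nat_lit 111) (.e (nat_lit 360450) (nat_lit 0) (.e (nat_lit 7122) (nat_lit 382) (.e (nat_lit 1201) (nat_lit 88) (.e (nat_lit 65617) (nat_lit 10) (.e (nat_lit 344174) (nat_lit 42) (.e (nat_lit 761866) (nat_lit 5) .nil))))))) (.g (nat_lit 5) .nil .nil))))))) (.nd (nat_lit 3) (.nd (nat_lit 4) (.nd (nat_lit 5) (.nd (nat_lit 6) 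
(.lf (nat_lit 62212) (.g (nat_lit 1024) (.e (nat_lit 1580) (nat_lit 111) (.e (nat_lit 360475) (nat_lit 8) (.e (nat_lit 557068) (nat_lit 9) .nil))) .nil)) 
(.lf (nat_lit 62276) (.g (nat_lit 3238) (.e (nat_lit 1581) (nat_lit 111) (.e (nat_lit 360474) (nat_lit 8) (.e (nat_lit 557091) (nat_lit 12) (.e (nat_lit 163999) (nat_lit 38) (.e (nat_lit 639020) (nat_lit 16) (.e (nat_lit 65578) (nat_lit 6) (.e (nat_lit 147462) (nat_lit 0) .nil))))))) (.g (nat_lit 5) .nil .nil)))) (.nd (nat_lit 6) 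
(.lf (nat_lit 62244) (.g (nat_lit 2795) (.e (nat_lit 1580) (nat_lit 111) (.e (nat_lit 360475) (nat_lit 8) (.e (nat_lit 557091) (nat_lit 12) (.e (nat_lit 164022) (nat_lit 46) (.e (nat_lit 704738) (nat_lit 11) .nil))))) .nil)) 
(.lf (nat_lit 62308) (.g (nat_lit 2693) (.e (nat_lit 1581) (nat_lit 111) (.e (nat_lit 360475) (nat_lit 8) (.e (nat_lit 557091) (nat_lit 12) (.e (nat_lit 164022) (nat_lit 46) (.e (nat_lit 704738) (nat_lit 11) .nil))))) .nil)))) (.nd (nat_lit 5) (.nd (nat_lit 6) 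
(.lf (nat_lit 62228) (.g (nat_lit 1508) (.e (nat_lit 1580) (nat_lit 111) (.e (nat_lit 360475) (nat_lit 8) (.e (nat_lit 557087) (nat_lit 11) (.e (nat_lit 24625) (nat_lit 9) .nil)))) .nil)) 
(.lf (nat_lit 62292) (.g (nat_lit 2868) (.e (nat_lit 1581) (nat_lit 111) (.e (nat_lit 360475) (nat_lit 8) (.e (nat_lit 557090) (nat_lit 12) (.e (nat_lit 164020) (nat_lit 45) (.e (nat_lit 696329) (nat_lit 5) (.e (nat_lit 2878) (nat_lit 184) (.e (nat_lit 426125) (nat_lit 2) (.e (nat_lit 204544) (nat_lit 9) .nil)))))))) (.g (nat_lit 4) .nil .nil)))) (.nd (nat_lit 6) 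
(.lf (nat_lit 62260) (.g (nat_lit 1363) (.e (nat_lit 1580) (nat_lit 111) (.e (nat_lit 360489) (nat_lit 21) (.e (nat_lit 770071) (nat_lit 8) (.e (nat_lit 65610) (nat_lit 10) (.e (nat_lit 344177) (nat_lit 43) (.e (nat_lit 770055) (nat_lit 5) .nil)))))) (.g (nat_lit 4) .nil .nil))) 
(.lf (nat_lit 62324) (.g (nat_lit 1202) (.e (nat_lit 1582) (nat_lit 111) (.e (nat_lit 360449) (nat_lit 0) (.e (nat_lit 7265) (nat_lit 384) (.e (nat_lit 57426) (nat_lit 15) .nil)))) .nil))))) (.nd (nat_lit 4) (.nd (nat_lit 5) (.nd (nat_lit 6) 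
(.lf (nat_lit 62220) (.g (nat_lit 2229) (.e (nat_lit 1580) (nat_lit 111) (.e (nat_lit 360475) (nat_lit 8) (.e (nat_lit 557086) (nat_lit 11) (.e (nat_lit 24665) (nat_lit 14) .nil)))) .nil)) 
(.lf (nat_lit 62284) (.g (nat_lit 2033) (.e (nat_lit 1581) (nat_lit 111) (.e (nat_lit 360475) (nat_lit 8) (.e (nat_lit 557086) (nat_lit 11) (.e (nat_lit 24665) (nat_lit 14) (.e (nat_lit 401414) (nat_lit 0) .nil))))) .nil))) (.nd (nat_lit 6) 
(.lf (nat_lit 62252) (.g (nat_lit 2558) (.e (nat_lit 1580) (nat_lit 111) (.e (nat_lit 360475) (nat_lit 8) (.e (nat_lit 557119) (nat_lit 18) (.e (nat_lit 2808) (nat_lit 180) (.e (nat_lit 303140) (nat_lit 10) .nil))))) .nil)) 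
(.lf (nat_lit 62316) (.g (nat_lit 2754) (.e (nat_lit 1581) (nat_lit 111) (.e (nat_lit 360475) (nat_lit 8) (.e (nat_lit 557119) (nat_lit 18) (.e (nat_lit 2798) (nat_lit 180) (.e (nat_lit 303143) (nat_lit 12) (.e (nat_lit 475190) (nat_lit 35) (.e (nat_lit 606217) (nat_lit 0) .nil))))))) (.g (nat_lit 4) .nil .nil))))) (.nd (nat_lit 5) (.nd (nat_lit 6) 
(.lf (nat_lit 62236) (.g (nat_lit 3158) (.e (nat_lit 1580) (nat_lit 111) (.e (nat_lit 360475) (nat_lit 8) (.e (nat_lit 557090) (nat_lit 12) (.e (nat_lit 164020) (nat_lit 45) (.e (nat_lit 696344) (nat_lit 8) (.e (nat_lit 172073) (nat_lit 5) (.e (nat_lit 245784) (nat_lit 9) .nil))))))) (.g (nat_lit 5) .nil .nil))) 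
(.lf (nat_lit 62300) (.g (nat_lit 2459) (.e (nat_lit 1581) (nat_lit 111) (.e (nat_lit 360475) (nat_lit 8) (.e (nat_lit 557091) (nat_lit 12) (.e (nat_lit 163997) (nat_lit 37) .nil)))) .nil))) (.nd (nat_lit 6) 
(.lf (nat_lit 62268) (.g (nat_lit 1426) (.e (nat_lit 1581) (nat_lit 111) (.e (nat_lit 360451) (nat_lit 0) (.e (nat_lit 7125) (nat_lit 382) (.e (nat_lit 1224) (nat_lit 90) .nil)))) .nil)) 
(.lf (nat_lit 62332) (.g (nat_lit 2464) (.e (nat_lit 1582) (nat_lit 111) (.e (nat_lit 360450) (nat_lit 0) (.e (nat_lit 7261) (nat_lit 384) (.e (nat_lit 57412) (nat_lit 12) (.e (nat_lit 336173) (nat_lit 10) (.e (nat_lit 344174) (nat_lit 42) (.e (nat_lit 761866) (nat_lit 5) .nil))))))) (.g (nat_lit 5) .nil .nil)))))))) 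
(.nd (nat_lit 2) (.nd (nat_lit 3) (.nd (nat_lit 4) (.nd (nat_lit 5) (.nd (nat_lit 6) 
(.lf (nat_lit 62210) (.g (nat_lit 3701) (.e (nat_lit 1580) (nat_lit 111) (.e (nat_lit 360474) (nat_lit 8) (.e (nat_lit 557091) (nat_lit 12) (.e (nat_lit 163999) (nat_lit 38) (.e (nat_lit 639020) (nat_lit 16) (.e (nat_lit 65580) (nat_lit 6) (.e (nat_lit 147457) (nat_lit 0) .nil))))))) (.g (nat_lit 5) .nil .nil))) 
(.lf (nat_lit 62274) (.g (nat_lit 2014) (.e (nat_lit 1581) (nat_lit 111) (.e (nat_lit 360474) (nat_lit 8) (.e (nat_lit 557091) (nat_lit 12) (.e (nat_lit 163999) (nat_lit 38) (.e (nat_lit 639020) (nat_lit 16) .nil))))) .nil))) (.nd (nat_lit 6) 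
(.lf (nat_lit 62242) (.g (nat_lit 2892) (.e (nat_lit 1580) (nat_lit 111) (.e (nat_lit 360475) (nat_lit 8) (.e (nat_lit 557091) (nat_lit 12) (.e (nat_lit 164022) (nat_lit 46) (.e (nat_lit 704737) (nat_lit 11) .nil))))) .nil)) 
(.lf (nat_lit 62306) (.g (nat_lit 2165) (.e (nat_lit 1581) (nat_lit 111) (.e (nat_lit 360475) (nat_lit 8) (.e (nat_lit 557091) (nat_lit 12) (.e (nat_lit 164022) (nat_lit 46) .nil)))) .nil)))) (.nd (nat_lit 5) (.nd (nat_lit 6) 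
(.lf (nat_lit 62226) (.g (nat_lit 420) (.e (nat_lit 1580) (nat_lit 111) (.e (nat_lit 360475) (nat_lit 8) (.e (nat_lit 557087) (nat_lit 11) .nil))) .nil)) 
(.lf (nat_lit 62290) (.g (nat_lit 2858) (.e (nat_lit 1581) (nat_lit 111) (.e (nat_lit 360475) (nat_lit 8) (.e (nat_lit 557090) (nat_lit 12) (.e (nat_lit 164020) (nat_lit 45) (.e (nat_lit 696328) (nat_lit 5) (.e (nat_lit 2878) (nat_lit 184) (.e (nat_lit 426125) (nat_lit 2) (.e (nat_lit 204544) (nat_lit 9) .nil)))))))) (.g (nat_lit 4) .nil .nil)))) (.nd (nat_lit 6) 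
(.lf (nat_lit 62258) (.g (nat_lit 1149) (.e (nat_lit 1580) (nat_lit 111) (.e (nat_lit 360489) (nat_lit 21) (.e (nat_lit 770058) (nat_lit 5) (.e (nat_lit 1586) (nat_lit 111) (.e (nat_lit 360489) (nat_lit 21) .nil))))) .nil)) 
(.lf (nat_lit 62322) (.g (nat_lit 443) (.e (nat_lit 1582) (nat_lit 111) (.e (nat_lit 360449) (nat_lit 0) (.e (nat_lit 7261) (nat_lit 384) .nil))) .nil))))) (.nd (nat_lit 4) (.nd (nat_lit 5) (.nd (nat_lit 6) 
(.lf (nat_lit 62218) (.g (nat_lit 2232) (.e (nat_lit 1580) (nat_lit 111) (.e (nat_lit 360475) (nat_lit 8) (.e (nat_lit 557086) (nat_lit 11) (.e (nat_lit 24664) (nat_lit 14) .nil)))) .nil)) 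
(.lf (nat_lit 62282) (.g (nat_lit 424) (.e (nat_lit 1581) (nat_lit 111) (.e (nat_lit 360475) (nat_lit 8) (.e (nat_lit 557086) (nat_lit 11) .nil))) .nil))) (.nd (nat_lit 6) 
(.lf (nat_lit 62250) (.g (nat_lit 2050) (.e (nat_lit 1580) (nat_lit 111) (.e (nat_lit 360475) (nat_lit 8) (.e (nat_lit 557119) (nat_lit 18) (.e (nat_lit 2798) (nat_lit 180) .nil)))) .nil)) 
(.lf (nat_lit 62314) (.g (nat_lit 2844) (.e (nat_lit 1581) (nat_lit 111) (.e (nat_lit 360475) (nat_lit 8) (.e (nat_lit 557119) (nat_lit 18) (.e (nat_lit 2798) (nat_lit 180) (.e (nat_lit 303124) (nat_lit 7) .nil))))) .nil)))) (.nd (nat_lit 5) (.nd (nat_lit 6) 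
(.lf (nat_lit 62234) (.g (nat_lit 3552) (.e (nat_lit 1580) (nat_lit 111) (.e (nat_lit 360475) (nat_lit 8) (.e (nat_lit 557090) (nat_lit 12) (.e (nat_lit 164020) (nat_lit 45) (.e (nat_lit 696344) (nat_lit 8) (.e (nat_lit 172064) (nat_lit 2) (.e (nat_lit 196630) (nat_lit 9) .nil))))))) (.g (nat_lit 5) .nil .nil))) 
(.lf (nat_lit 62298) (.g (nat_lit 2541) (.e (nat_lit 1581) (nat_lit 111) (.e (nat_lit 360475) (nat_lit 8) (.e (nat_lit 557090) (nat_lit 12) (.e (nat_lit 164020) (nat_lit 45) (.e (nat_lit 696344) (nat_lit 8) (.e (nat_lit 172071) (nat_lit 5) (.e (nat_lit 253696) (nat_lit 9) .nil))))))) (.g (nat_lit 4) .nil .nil)))) (.nd (nat_lit 6) 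
(.lf (nat_lit 62266) (.g (nat_lit 1185) (.e (nat_lit 1580) (nat_lit 111) (.e (nat_lit 360492) (nat_lit 22) (.e (nat_lit 778466) (nat_lit 11) (.e (nat_lit 24639) (nat_lit 10) (.e (nat_lit 344174) (nat_lit 42) .nil))))) .nil)) 
(.lf (nat_lit 62330) (.g (nat_lit 1560) (.e (nat_lit 1582) (nat_lit 111) (.e (nat_lit 360450) (nat_lit 0) (.e (nat_lit 7122) (nat_lit 382) (.e (nat_lit 1224) (nat_lit 90) .nil)))) .nil)))))) (.nd (nat_lit 3) (.nd (nat_lit 4) (.nd (nat_lit 5) (.nd (nat_lit 6) 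
(.lf (nat_lit 62214) (.g (nat_lit 2286) (.e (nat_lit 1580) (nat_lit 111) (.e (nat_lit 360475) (nat_lit 8) (.e (nat_lit 557086) (nat_lit 11) (.e (nat_lit 24630) (nat_lit 9) .nil)))) .nil)) 
(.lf (nat_lit 62278) (.g (nat_lit 3716) (.e (nat_lit 1581) (nat_lit 111) (.e (nat_lit 360474) (nat_lit 8) (.e (nat_lit 557091) (nat_lit 12) (.e (nat_lit 163999) (nat_lit 38) (.e (nat_lit 639020) (nat_lit 16) (.e (nat_lit 65580) (nat_lit 6) (.e (nat_lit 147457) (nat_lit 0) .nil))))))) (.g (nat_lit 5) .nil .nil)))) (.nd (nat_lit 6) 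
(.lf (nat_lit 62246) (.g (nat_lit 2928) (.e (nat_lit 1580) (nat_lit 111) (.e (nat_lit 360475) (nat_lit 8) (.e (nat_lit 557091) (nat_lit 12) (.e (nat_lit 164022) (nat_lit 46) (.e (nat_lit 704738) (nat_lit 11) (.e (nat_lit 16412) (nat_lit 2) (.e (nat_lit 196627) (nat_lit 9) .nil))))))) (.g (nat_lit 4) .nil .nil))) 
(.lf (nat_lit 62310) (.g (nat_lit 3358) (.e (nat_lit 1581) (nat_lit 111) (.e (nat_lit 360475) (nat_lit 8) (.e (nat_lit 557091) (nat_lit 12) (.e (nat_lit 164022) (nat_lit 46) (.e (nat_lit 704738) (nat_lit 11) (.e (nat_lit 16412) (nat_lit 2) (.e (nat_lit 196645) (nat_lit 9) .nil))))))) (.g (nat_lit 5) .nil .nil))))) (.nd (nat_lit 5) (.nd (nat_lit 6) 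
(.lf (nat_lit 62230) (.g (nat_lit 5596) (.e (nat_lit 1580) (nat_lit 111) (.e (nat_lit 360475) (nat_lit 8) (.e (nat_lit 557087) (nat_lit 11) (.e (nat_lit 24662) (nat_lit 14) (.e (nat_lit 401425) (nat_lit 2) (.e (nat_lit 196630) (nat_lit 9) .nil)))))) (.g (nat_lit 5) .nil .nil))) 
(.lf (nat_lit 62294) (.g (nat_lit 3465) (.e (nat_lit 1581) (nat_lit 111) (.e (nat_lit 360475) (nat_lit 8) (.e (nat_lit 557090) (nat_lit 12) (.e (nat_lit 164020) (nat_lit 45) (.e (nat_lit 696330) (nat_lit 5) (.e (nat_lit 2878) (nat_lit 184) (.e (nat_lit 426125) (nat_lit 2) (.e (nat_lit 204544) (nat_lit 9) .nil)))))))) (.g (nat_lit 5) .nil .nil)))) (.nd (nat_lit 6) 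
(.lf (nat_lit 62262) (.g (nat_lit 1116) (.e (nat_lit 1580) (nat_lit 111) (.e (nat_lit 360489) (nat_lit 21) (.e (nat_lit 770072) (nat_lit 8) (.e (nat_lit 65620) (nat_lit 10) (.e (nat_lit 344177) (nat_lit 43) .nil))))) .nil)) 
(.lf (nat_lit 62326) (.g (nat_lit 2819) (.e (nat_lit 1582) (nat_lit 111) (.e (nat_lit 360450) (nat_lit 0) (.e (nat_lit 7122) (nat_lit 382) (.e (nat_lit 1201) (nat_lit 88) (.e (nat_lit 65610) (nat_lit 10) (.e (nat_lit 344174) (nat_lit 42) (.e (nat_lit 761866) (nat_lit 5) .nil))))))) (.g (nat_lit 5) .nil .nil)))))) (.nd (nat_lit 4) (.nd (nat_lit 5) (.nd (nat_lit 6) 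
(.lf (nat_lit 62222) (.g (nat_lit 2984) (.e (nat_lit 1580) (nat_lit 111) (.e (nat_lit 360475) (nat_lit 8) (.e (nat_lit 557086) (nat_lit 11) (.e (nat_lit 24665) (nat_lit 14) (.e (nat_lit 401414) (nat_lit 0) (.e (nat_lit 3124) (nat_lit 193) (.e (nat_lit 499976) (nat_lit 14) .nil))))))) (.g (nat_lit 4) .nil .nil))) 
(.lf (nat_lit 62286) (.g (nat_lit 897) (.e (nat_lit 1581) (nat_lit 111) (.e (nat_lit 360475) (nat_lit 8) (.e (nat_lit 557089) (nat_lit 12) .nil))) .nil))) (.nd (nat_lit 6) 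
(.lf (nat_lit 62254) (.g (nat_lit 510) (.e (nat_lit 1580) (nat_lit 111) (.e (nat_lit 360486) (nat_lit 18) (.e (nat_lit 671762) (nat_lit 4) .nil))) .nil)) 
(.lf (nat_lit 62318) (.g (nat_lit 1708) (.e (nat_lit 1581) (nat_lit 111) (.e (nat_lit 360475) (nat_lit 8) (.e (nat_lit 557119) (nat_lit 18) (.e (nat_lit 2808) (nat_lit 180) .nil)))) .nil)))) (.nd (nat_lit 5) (.nd (nat_lit 6) 
(.lf (nat_lit 62238) (.g (nat_lit 2814) (.e (nat_lit 1580) (nat_lit 111) (.e (nat_lit 360475) (nat_lit 8) (.e (nat_lit 557091) (nat_lit 12) (.e (nat_lit 163999) (nat_lit 38) (.e (nat_lit 639020) (nat_lit 16) .nil))))) .nil)) 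
(.lf (nat_lit 62302) (.g (nat_lit 2399) (.e (nat_lit 1581) (nat_lit 111) (.e (nat_lit 360475) (nat_lit 8) (.e (nat_lit 557091) (nat_lit 12) (.e (nat_lit 163999) (nat_lit 38) (.e (nat_lit 639020) (nat_lit 16) .nil))))) .nil))) (.nd (nat_lit 6) 
(.lf (nat_lit 62270) (.g (nat_lit 1807) (.e (nat_lit 1581) (nat_lit 111) (.e (nat_lit 360451) (nat_lit 0) (.e (nat_lit 7265) (nat_lit 384) (.e (nat_lit 57436) (nat_lit 17) (.e (nat_lit 376859) (nat_lit 21) .nil))))) .nil)) 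
(.lf (nat_lit 62334) (.g (nat_lit 2436) (.e (nat_lit 1582) (nat_lit 111) (.e (nat_lit 360450) (nat_lit 0) (.e (nat_lit 7261) (nat_lit 384) (.e (nat_lit 57412) (nat_lit 12) (.e (nat_lit 336176) (nat_lit 10) (.e (nat_lit 344174) (nat_lit 42) (.e (nat_lit 761866) (nat_lit 5) .nil))))))) (.g (nat_lit 6) .nil .nil))))))))) 
(.nd (nat_lit 1) (.nd (nat_lit 2) (.nd (nat_lit 3) (.nd (nat_lit 4) (.nd (nat_lit 5) 
(.nd (nat_lit 6) 
(.lf (nat_lit 62209) (.g (nat_lit 2199) (.e (nat_lit 1580) (nat_lit 111) (.e (nat_lit 360474) (nat_lit 8) (.e (nat_lit 557091) (nat_lit 12) (.e (nat_lit 163999) (nat_lit 38) (.e (nat_lit 639020) (nat_lit 16) .nil))))) .nil)) 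
(.lf (nat_lit 62273) (.g (nat_lit 1184) (.e (nat_lit 1581) (nat_lit 111) (.e (nat_lit 360453) (nat_lit 0) (.e (nat_lit 5907) (nat_lit 320) (.e (nat_lit 1221) (nat_lit 90) .nil)))) .nil))) (.nd (nat_lit 6) 
(.lf (nat_lit 62241) (.g (nat_lit 2888) (.e (nat_lit 1580) (nat_lit 111) (.e (nat_lit 360475) (nat_lit 8) (.e (nat_lit 557091) (nat_lit 12) (.e (nat_lit 164022) (nat_lit 46) (.e (nat_lit 704736) (nat_lit 11) .nil))))) .nil)) 
(.lf (nat_lit 62305) (.g (nat_lit 2154) (.e (nat_lit 1581) (nat_lit 111) (.e (nat_lit 360475) (nat_lit 8) (.e (nat_lit 557091) (nat_lit 12) (.e (nat_lit 164000) (nat_lit 38) .nil)))) .nil)))) (.nd (nat_lit 5) (.nd (nat_lit 6) 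
(.lf (nat_lit 62225) (.g (nat_lit 3775) (.e (nat_lit 1580) (nat_lit 111) (.e (nat_lit 360475) (nat_lit 8) (.e (nat_lit 557086) (nat_lit 11) (.e (nat_lit 24665) (nat_lit 14) (.e (nat_lit 401430) (nat_lit 5) .nil))))) .nil)) 
(.lf (nat_lit 62289) (.g (nat_lit 1300) (.e (nat_lit 1581) (nat_lit 111) (.e (nat_lit 360475) (nat_lit 8) (.e (nat_lit 557090) (nat_lit 12) (.e (nat_lit 164020) (nat_lit 45) .nil)))) .nil))) (.nd (nat_lit 6) 
(.lf (nat_lit 62257) (.g (nat_lit 566) (.e (nat_lit 1580) (nat_lit 111) (.e (nat_lit 360488) (nat_lit 20) (.e (nat_lit 761868) (nat_lit 5) .nil))) .nil)) 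
(.lf (nat_lit 62321) (.g (nat_lit 1856) (.e (nat_lit 1582) (nat_lit 111) (.e (nat_lit 360449) (nat_lit 0) (.e (nat_lit 7125) (nat_lit 382) (.e (nat_lit 1224) (nat_lit 90) (.e (nat_lit 81946) (nat_lit 20) .nil))))) .nil))))) (.nd (nat_lit 4) (.nd (nat_lit 5) (.nd (nat_lit 6) 
(.lf (nat_lit 62217) (.g (nat_lit 2374) (.e (nat_lit 1580) (nat_lit 111) (.e (nat_lit 360475) (nat_lit 8) (.e (nat_lit 557086) (nat_lit 11) (.e (nat_lit 24653) (nat_lit 12) .nil)))) .nil)) 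
(.lf (nat_lit 62281) (.g (nat_lit 2349) (.e (nat_lit 1581) (nat_lit 111) (.e (nat_lit 360474) (nat_lit 8) (.e (nat_lit 557091) (nat_lit 12) (.e (nat_lit 163999) (nat_lit 38) (.e (nat_lit 639021) (nat_lit 16) .nil))))) .nil))) (.nd (nat_lit 6) 
(.lf (nat_lit 62249) (.g (nat_lit 2825) (.e (nat_lit 1580) (nat_lit 111) (.e (nat_lit 360475) (nat_lit 8) (.e (nat_lit 557091) (nat_lit 12) (.e (nat_lit 164022) (nat_lit 46) (.e (nat_lit 704738) (nat_lit 11) (.e (nat_lit 16412) (nat_lit 2) (.e (nat_lit 196643) (nat_lit 9) .nil))))))) (.g (nat_lit 4) .nil .nil))) 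
(.lf (nat_lit 62313) (.g (nat_lit 2586) (.e (nat_lit 1581) (nat_lit 111) (.e (nat_lit 360475) (nat_lit 8) (.e (nat_lit 557119) (nat_lit 18) (.e (nat_lit 2798) (nat_lit 180) (.e (nat_lit 303112) (nat_lit 0) (.e (nat_lit 7008) (nat_lit 377) (.e (nat_lit 2580) (nat_lit 161) (.e (nat_lit 40965) (nat_lit 0) .nil)))))))) (.g (nat_lit 4) .nil .nil))))) (.nd (nat_lit 5) (.nd (nat_lit 6) 
(.lf (nat_lit 62233) (.g (nat_lit 1856) (.e (nat_lit 1580) (nat_lit 111) (.e (nat_lit 360475) (nat_lit 8) (.e (nat_lit 557090) (nat_lit 12) (.e (nat_lit 164020) (nat_lit 45) (.e (nat_lit 696344) (nat_lit 8) .nil))))) .nil)) 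
(.lf (nat_lit 62297) (.g (nat_lit 4514) (.e (nat_lit 1581) (nat_lit 111) (.e (nat_lit 360475) (nat_lit 8) (.e (nat_lit 557090) (nat_lit 12) (.e (nat_lit 164020) (nat_lit 45) (.e (nat_lit 696344) (nat_lit 8) (.e (nat_lit 172064) (nat_lit 2) (.e (nat_lit 204544) (nat_lit 9) .nil))))))) (.g (nat_lit 6) .nil .nil)))) (.nd (nat_lit 6) 
(.lf (nat_lit 62265) (.g (nat_lit 3630) (.e (nat_lit 1580) (nat_lit 111) (.e (nat_lit 360492) (nat_lit 22) (.e (nat_lit 778465) (nat_lit 11) (.e (nat_lit 24665) (nat_lit 14) (.e (nat_lit 401414) (nat_lit 0) (.e (nat_lit 3459) (nat_lit 216) (.e (nat_lit 688161) (nat_lit 13) .nil))))))) (.g (nat_lit 6) .nil .nil))) 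
(.lf (nat_lit 62329) (.g (nat_lit 2794) (.e (nat_lit 1582) (nat_lit 111) (.e (nat_lit 360450) (nat_lit 0) (.e (nat_lit 7122) (nat_lit 382) (.e (nat_lit 1201) (nat_lit 88) (.e (nat_lit 65617) (nat_lit 10) (.e (nat_lit 344174) (nat_lit 42) (.e (nat_lit 761869) (nat_lit 5) .nil))))))) (.g (nat_lit 5) .nil .nil))))))) (.nd (nat_lit 3) (.nd (nat_lit 4) (.nd (nat_lit 5) (.nd (nat_lit 6) 
(.lf (nat_lit 62213) (.g (nat_lit 970) (.e (nat_lit 1580) (nat_lit 111) (.e (nat_lit 360475) (nat_lit 8) (.e (nat_lit 557086) (nat_lit 11) .nil))) .nil)) 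
(.lf (nat_lit 62277) (.g (nat_lit 3350) (.e (nat_lit 1581) (nat_lit 111) (.e (nat_lit 360474) (nat_lit 8) (.e (nat_lit 557091) (nat_lit 12) (.e (nat_lit 163999) (nat_lit 38) (.e (nat_lit 639020) (nat_lit 16) (.e (nat_lit 65580) (nat_lit 6) (.e (nat_lit 147456) (nat_lit 0) .nil))))))) (.g (nat_lit 5) .nil .nil)))) (.nd (nat_lit 6) 
(.lf (nat_lit 62245) (.g (nat_lit 3622) (.e (nat_lit 1580) (nat_lit 111) (.e (nat_lit 360475) (nat_lit 8) (.e (nat_lit 557091) (nat_lit 12) (.e (nat_lit 164022) (nat_lit 46) (.e (nat_lit 704738) (nat_lit 11) (.e (nat_lit 16410) (nat_lit 2) (.e (nat_lit 196630) (nat_lit 9) .nil))))))) (.g (nat_lit 5) .nil .nil))) 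
(.lf (nat_lit 62309) (.g (nat_lit 2786) (.e (nat_lit 1581) (nat_lit 111) (.e (nat_lit 360475) (nat_lit 8) (.e (nat_lit 557091) (nat_lit 12) (.e (nat_lit 164022) (nat_lit 46) (.e (nat_lit 704738) (nat_lit 11) (.e (nat_lit 16392) (nat_lit 0) (.e (nat_lit 3191) (nat_lit 193) (.e (nat_lit 500008) (nat_lit 14) .nil)))))))) (.g (nat_lit 4) .nil .nil))))) (.nd (nat_lit 5) (.nd (nat_lit 6) 
(.lf (nat_lit 62229) (.g (nat_lit 2097) (.e (nat_lit 1580) (nat_lit 111) (.e (nat_lit 360475) (nat_lit 8) (.e (nat_lit 557087) (nat_lit 11) (.e (nat_lit 24647) (nat_lit 12) .nil)))) .nil)) 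
(.lf (nat_lit 62293) (.g (nat_lit 2968) (.e (nat_lit 1581) (nat_lit 111) (.e (nat_lit 360475) (nat_lit 8) (.e (nat_lit 557090) (nat_lit 12) (.e (nat_lit 164020) (nat_lit 45) (.e (nat_lit 696329) (nat_lit 5) (.e (nat_lit 2884) (nat_lit 184) (.e (nat_lit 426125) (nat_lit 2) (.e (nat_lit 204544) (nat_lit 9) .nil)))))))) (.g (nat_lit 4) .nil .nil)))) (.nd (nat_lit 6) 
(.lf (nat_lit 62261) (.g (nat_lit 1076) (.e (nat_lit 1580) (nat_lit 111) (.e (nat_lit 360489) (nat_lit 21) (.e (nat_lit 770071) (nat_lit 8) (.e (nat_lit 65620) (nat_lit 10) (.e (nat_lit 344177) (nat_lit 43) (.e (nat_lit 770055) (nat_lit 5) .nil)))))) (.g (nat_lit 4) .nil .nil))) 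
(.lf (nat_lit 62325) (.g (nat_lit 1309) (.e (nat_lit 1582) (nat_lit 111) (.e (nat_lit 360449) (nat_lit 0) (.e (nat_lit 7266) (nat_lit 384) (.e (nat_lit 57426) (nat_lit 15) .nil)))) .nil))))) (.nd (nat_lit 4) (.nd (nat_lit 5) (.nd (nat_lit 6) 
(.lf (nat_lit 62221) (.g (nat_lit 2975) (.e (nat_lit 1580) (nat_lit 111) (.e (nat_lit 360475) (nat_lit 8) (.e (nat_lit 557086) (nat_lit 11) (.e (nat_lit 24665) (nat_lit 14) (.e (nat_lit 401414) (nat_lit 0) .nil))))) .nil)) 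
(.lf (nat_lit 62285) (.g (nat_lit 2833) (.e (nat_lit 1581) (nat_lit 111) (.e (nat_lit 360475) (nat_lit 8) (.e (nat_lit 557086) (nat_lit 11) (.e (nat_lit 24665) (nat_lit 14) (.e (nat_lit 401430) (nat_lit 5) .nil))))) .nil))) (.nd (nat_lit 6) 
(.lf (nat_lit 62253) (.g (nat_lit 559) (.e (nat_lit 1580) (nat_lit 111) (.e (nat_lit 360477) (nat_lit 11) (.e (nat_lit 581651) (nat_lit 4) .nil))) .nil)) 
(.lf (nat_lit 62317) (.g (nat_lit 1671) (.e (nat_lit 1581) (nat_lit 111) (.e (nat_lit 360475) (nat_lit 8) (.e (nat_lit 557119) (nat_lit 18) (.e (nat_lit 2807) (nat_lit 180) .nil)))) .nil)))) (.nd (nat_lit 5) (.nd (nat_lit 6) 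
(.lf (nat_lit 62237) (.g (nat_lit 887) (.e (nat_lit 1580) (nat_lit 111) (.e (nat_lit 360475) (nat_lit 8) (.e (nat_lit 557091) (nat_lit 12) .nil))) .nil)) 
(.lf (nat_lit 62301) (.g (nat_lit 1833) (.e (nat_lit 1581) (nat_lit 111) (.e (nat_lit 360475) (nat_lit 8) (.e (nat_lit 557091) (nat_lit 12) (.e (nat_lit 163999) (nat_lit 38) .nil)))) .nil))) (.nd (nat_lit 6) 
(.lf (nat_lit 62269) (.g (nat_lit 1337) (.e (nat_lit 1581) (nat_lit 111) (.e (nat_lit 360451) (nat_lit 0) (.e (nat_lit 7265) (nat_lit 384) (.e (nat_lit 57427) (nat_lit 15) .nil)))) .nil)) 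
(.lf (nat_lit 62333) (.g (nat_lit 2245) (.e (nat_lit 1582) (nat_lit 111) (.e (nat_lit 360450) (nat_lit 0) (.e (nat_lit 7261) (nat_lit 384) (.e (nat_lit 57412) (nat_lit 12) (.e (nat_lit 336173) (nat_lit 10) (.e (nat_lit 344174) (nat_lit 42) (.e (nat_lit 761868) (nat_lit 5) .nil))))))) (.g (nat_lit 5) .nil .nil)))))))) 
(.nd (nat_lit 2) (.nd (nat_lit 3) (.nd (nat_lit 4) (.nd (nat_lit 5) (.nd (nat_lit 6) 
(.lf (nat_lit 62211) (.g (nat_lit 3633) (.e (nat_lit 1580) (nat_lit 111) (.e (nat_lit 360474) (nat_lit 8) (.e (nat_lit 557091) (nat_lit 12) (.e (nat_lit 163999) (nat_lit 38) (.e (nat_lit 639020) (nat_lit 16) (.e (nat_lit 65580) (nat_lit 6) (.e (nat_lit 155392) (nat_lit 0) .nil))))))) (.g (nat_lit 5) .nil .nil))) 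
(.lf (nat_lit 62275) (.g (nat_lit 3022) (.e (nat_lit 1581) (nat_lit 111) (.e (nat_lit 360474) (nat_lit 8) (.e (nat_lit 557091) (nat_lit 12) (.e (nat_lit 163999) (nat_lit 38) (.e (nat_lit 639020) (nat_lit 16) (.e (nat_lit 65578) (nat_lit 6) (.e (nat_lit 147461) (nat_lit 0) .nil))))))) (.g (nat_lit 4) .nil .nil)))) (.nd (nat_lit 6) 
(.lf (nat_lit 62243) (.g (nat_lit 2966) (.e (nat_lit 1580) (nat_lit 111) (.e (nat_lit 360475) (nat_lit 8) (.e (nat_lit 557091) (nat_lit 12) (.e (nat_lit 164022) (nat_lit 46) (.e (nat_lit 704737) (nat_lit 11) (.e (nat_lit 16410) (nat_lit 2) (.e (nat_lit 196630) (nat_lit 9) .nil))))))) (.g (nat_lit 4) .nil .nil))) 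
(.lf (nat_lit 62307) (.g (nat_lit 2906) (.e (nat_lit 1581) (nat_lit 111) (.e (nat_lit 360475) (nat_lit 8) (.e (nat_lit 557091) (nat_lit 12) (.e (nat_lit 164022) (nat_lit 46) (.e (nat_lit 704629) (nat_lit 9) .nil))))) .nil)))) (.nd (nat_lit 5) (.nd (nat_lit 6) 
(.lf (nat_lit 62227) (.g (nat_lit 1674) (.e (nat_lit 1580) (nat_lit 111) (.e (nat_lit 360475) (nat_lit 8) (.e (nat_lit 557087) (nat_lit 11) (.e (nat_lit 24616) (nat_lit 7) .nil)))) .nil)) 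
(.lf (nat_lit 62291) (.g (nat_lit 2801) (.e (nat_lit 1581) (nat_lit 111) (.e (nat_lit 360475) (nat_lit 8) (.e (nat_lit 557090) (nat_lit 12) (.e (nat_lit 164020) (nat_lit 45) (.e (nat_lit 696328) (nat_lit 5) (.e (nat_lit 2884) (nat_lit 184) (.e (nat_lit 426125) (nat_lit 2) (.e (nat_lit 204544) (nat_lit 9) .nil)))))))) (.g (nat_lit 4) .nil .nil)))) (.nd (nat_lit 6) 
(.lf (nat_lit 62259) (.g (nat_lit 610) (.e (nat_lit 1580) (nat_lit 111) (.e (nat_lit 360489) (nat_lit 21) (.e (nat_lit 770058) (nat_lit 5) (.e (nat_lit 1598) (nat_lit 111) .nil)))) .nil)) 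
(.lf (nat_lit 62323) (.g (nat_lit 1565) (.e (nat_lit 1582) (nat_lit 111) (.e (nat_lit 360449) (nat_lit 0) (.e (nat_lit 7265) (nat_lit 384) (.e (nat_lit 57412) (nat_lit 12) (.e (nat_lit 336176) (nat_lit 10) .nil))))) .nil))))) (.nd (nat_lit 4) (.nd (nat_lit 5) (.nd (nat_lit 6) 
(.lf (nat_lit 62219) (.g (nat_lit 2718) (.e (nat_lit 1580) (nat_lit 111) (.e (nat_lit 360475) (nat_lit 8) (.e (nat_lit 557086) (nat_lit 11) (.e (nat_lit 24664) (nat_lit 14) (.e (nat_lit 401425) (nat_lit 2) .nil))))) .nil)) 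
(.lf (nat_lit 62283) (.g (nat_lit 1210) (.e (nat_lit 1581) (nat_lit 111) (.e (nat_lit 360475) (nat_lit 8) (.e (nat_lit 557086) (nat_lit 11) (.e (nat_lit 24650) (nat_lit 12) .nil)))) .nil))) (.nd (nat_lit 6) 
(.lf (nat_lit 62251) (.g (nat_lit 1986) (.e (nat_lit 1580) (nat_lit 111) (.e (nat_lit 360475) (nat_lit 8) (.e (nat_lit 557119) (nat_lit 18) (.e (nat_lit 2807) (nat_lit 180) .nil)))) .nil)) 
(.lf (nat_lit 62315) (.g (nat_lit 3057) (.e (nat_lit 1581) (nat_lit 111) (.e (nat_lit 360475) (nat_lit 8) (.e (nat_lit 557119) (nat_lit 18) (.e (nat_lit 2798) (nat_lit 180) (.e (nat_lit 303133) (nat_lit 9) (.e (nat_lit 426412) (nat_lit 15) (.e (nat_lit 1915) (nat_lit 130) (.e (nat_lit 606217) (nat_lit 0) .nil)))))))) (.g (nat_lit 5) .nil .nil))))) (.nd (nat_lit 5) (.nd (nat_lit 6) 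
(.lf (nat_lit 62235) (.g (nat_lit 3109) (.e (nat_lit 1580) (nat_lit 111) (.e (nat_lit 360475) (nat_lit 8) (.e (nat_lit 557090) (nat_lit 12) (.e (nat_lit 164020) (nat_lit 45) (.e (nat_lit 696344) (nat_lit 8) (.e (nat_lit 172073) (nat_lit 5) (.e (nat_lit 245783) (nat_lit 9) .nil))))))) (.g (nat_lit 4) .nil .nil))) 
(.lf (nat_lit 62299) (.g (nat_lit 3153) (.e (nat_lit 1581) (nat_lit 111) (.e (nat_lit 360475) (nat_lit 8) (.e (nat_lit 557090) (nat_lit 12) (.e (nat_lit 164020) (nat_lit 45) (.e (nat_lit 696344) (nat_lit 8) (.e (nat_lit 172073) (nat_lit 5) (.e (nat_lit 245786) (nat_lit 9) .nil))))))) (.g (nat_lit 4) .nil .nil)))) (.nd (nat_lit 6) 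
(.lf (nat_lit 62267) (.g (nat_lit 1864) (.e (nat_lit 1581) (nat_lit 111) (.e (nat_lit 360451) (nat_lit 0) (.e (nat_lit 7125) (nat_lit 382) (.e (nat_lit 1201) (nat_lit 88) (.e (nat_lit 65610) (nat_lit 10) .nil))))) .nil)) 
(.lf (nat_lit 62331) (.g (nat_lit 2070) (.e (nat_lit 1582) (nat_lit 111) (.e (nat_lit 360450) (nat_lit 0) (.e (nat_lit 7125) (nat_lit 382) (.e (nat_lit 1224) (nat_lit 90) (.e (nat_lit 81947) (nat_lit 20) (.e (nat_lit 2270) (nat_lit 149) (.e (nat_lit 761868) (nat_lit 5) .nil))))))) (.g (nat_lit 4) .nil .nil))))))) (.nd (nat_lit 3) (.nd (nat_lit 4) (.nd (nat_lit 5) (.nd (nat_lit 6) 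
(.lf (nat_lit 62215) (.g (nat_lit 2151) (.e (nat_lit 1580) (nat_lit 111) (.e (nat_lit 360475) (nat_lit 8) (.e (nat_lit 557086) (nat_lit 11) (.e (nat_lit 24650) (nat_lit 12) .nil)))) .nil)) 
(.lf (nat_lit 62279) (.g (nat_lit 3701) (.e (nat_lit 1581) (nat_lit 111) (.e (nat_lit 360474) (nat_lit 8) (.e (nat_lit 557091) (nat_lit 12) (.e (nat_lit 163999) (nat_lit 38) (.e (nat_lit 639020) (nat_lit 16) (.e (nat_lit 65580) (nat_lit 6) (.e (nat_lit 147461) (nat_lit 0) .nil))))))) (.g (nat_lit 5) .nil .nil)))) (.nd (nat_lit 6) 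
(.lf (nat_lit 62247) (.g (nat_lit 3559) (.e (nat_lit 1580) (nat_lit 111) (.e (nat_lit 360475) (nat_lit 8) (.e (nat_lit 557091) (nat_lit 12) (.e (nat_lit 164022) (nat_lit 46) (.e (nat_lit 704738) (nat_lit 11) (.e (nat_lit 16412) (nat_lit 2) (.e (nat_lit 196632) (nat_lit 9) .nil))))))) (.g (nat_lit 5) .nil .nil))) 
(.lf (nat_lit 62311) (.g (nat_lit 1659) (.e (nat_lit 1581) (nat_lit 111) (.e (nat_lit 360475) (nat_lit 8) (.e (nat_lit 557119) (nat_lit 18) (.e (nat_lit 2797) (nat_lit 180) .nil)))) .nil)))) (.nd (nat_lit 5) (.nd (nat_lit 6) 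
(.lf (nat_lit 62231) (.g (nat_lit 2271) (.e (nat_lit 1580) (nat_lit 111) (.e (nat_lit 360475) (nat_lit 8) (.e (nat_lit 557089) (nat_lit 12) (.e (nat_lit 163999) (nat_lit 38) .nil)))) .nil)) 
(.lf (nat_lit 62295) (.g (nat_lit 3557) (.e (nat_lit 1581) (nat_lit 111) (.e (nat_lit 360475) (nat_lit 8) (.e (nat_lit 557090) (nat_lit 12) (.e (nat_lit 164020) (nat_lit 45) (.e (nat_lit 696344) (nat_lit 8) (.e (nat_lit 172064) (nat_lit 2) (.e (nat_lit 196644) (nat_lit 9) .nil))))))) (.g (nat_lit 5) .nil .nil)))) (.nd (nat_lit 6) 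
(.lf (nat_lit 62263) (.g (nat_lit 3421) (.e (nat_lit 1580) (nat_lit 111) (.e (nat_lit 360491) (nat_lit 22) (.e (nat_lit 778466) (nat_lit 11) (.e (nat_lit 24617) (nat_lit 7) (.e (nat_lit 319505) (nat_lit 10) (.e (nat_lit 720) (nat_lit 64) (.e (nat_lit 688152) (nat_lit 13) .nil))))))) (.g (nat_lit 7) .nil .nil))) 
(.lf (nat_lit 62327) (.g (nat_lit 2515) (.e (nat_lit 1582) (nat_lit 111) (.e (nat_lit 360450) (nat_lit 0) (.e (nat_lit 7122) (nat_lit 382) (.e (nat_lit 1201) (nat_lit 88) (.e (nat_lit 65610) (nat_lit 10) (.e (nat_lit 344174) (nat_lit 42) (.e (nat_lit 761868) (nat_lit 5) .nil))))))) (.g (nat_lit 5) .nil .nil)))))) (.nd (nat_lit 4) (.nd (nat_lit 5) (.nd (nat_lit 6) 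
(.lf (nat_lit 62223) (.g (nat_lit 2984) (.e (nat_lit 1580) (nat_lit 111) (.e (nat_lit 360475) (nat_lit 8) (.e (nat_lit 557086) (nat_lit 11) (.e (nat_lit 24665) (nat_lit 14) (.e (nat_lit 401414) (nat_lit 0) (.e (nat_lit 3124) (nat_lit 193) (.e (nat_lit 499979) (nat_lit 14) .nil))))))) (.g (nat_lit 4) .nil .nil))) 
(.lf (nat_lit 62287) (.g (nat_lit 2645) (.e (nat_lit 1581) (nat_lit 111) (.e (nat_lit 360475) (nat_lit 8) (.e (nat_lit 557089) (nat_lit 12) (.e (nat_lit 163999) (nat_lit 38) (.e (nat_lit 639020) (nat_lit 16) .nil))))) .nil))) (.nd (nat_lit 6) 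
(.lf (nat_lit 62255) (.g (nat_lit 473) (.e (nat_lit 1580) (nat_lit 111) (.e (nat_lit 360486) (nat_lit 18) (.e (nat_lit 671764) (nat_lit 6) .nil))) .nil)) 
(.lf (nat_lit 62319) (.g (nat_lit 492) (.e (nat_lit 1581) (nat_lit 111) (.e (nat_lit 360486) (nat_lit 18) (.e (nat_lit 671764) (nat_lit 6) .nil))) .nil)))) (.nd (nat_lit 5) (.nd (nat_lit 6) 
(.lf (nat_lit 62239) (.g (nat_lit 2267) (.e (nat_lit 1580) (nat_lit 111) (.e (nat_lit 360475) (nat_lit 8) (.e (nat_lit 557091) (nat_lit 12) (.e (nat_lit 164022) (nat_lit 46) .nil)))) .nil)) 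
(.lf (nat_lit 62303) (.g (nat_lit 3114) (.e (nat_lit 1581) (nat_lit 111) (.e (nat_lit 360475) (nat_lit 8) (.e (nat_lit 557091) (nat_lit 12) (.e (nat_lit 163999) (nat_lit 38) (.e (nat_lit 639020) (nat_lit 16) (.e (nat_lit 65580) (nat_lit 6) (.e (nat_lit 147457) (nat_lit 0) .nil))))))) (.g (nat_lit 5) .nil .nil)))) (.nd (nat_lit 6) 
(.lf (nat_lit 62271) (.g (nat_lit 640) (.e (nat_lit 1581) (nat_lit 111) (.e (nat_lit 360452) (nat_lit 0) (.e (nat_lit 5907) (nat_lit 320) .nil))) .nil)) 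
(.lf (nat_lit 62335) (.g (nat_lit 2178) (.e (nat_lit 1582) (nat_lit 111) (.e (nat_lit 360450) (nat_lit 0) (.e (nat_lit 7261) (nat_lit 384) (.e (nat_lit 57412) (nat_lit 12) (.e (nat_lit 336176) (nat_lit 10) (.e (nat_lit 344174) (nat_lit 42) (.e (nat_lit 761868) (nat_lit 5) .nil))))))) (.g (nat_lit 5) .nil .nil))))))))))

noncomputable def tv854 : DT := (.nd (nat_lit 0) (.nd (nat_lit 1) (.nd (nat_lit 2) (.nd (nat_lit 3) (.nd (nat_lit 4) (.nd (nat_lit 5) 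
(.lf (nat_lit 62336) (.g (nat_lit 2541) (.e (nat_lit 1582) (nat_lit 111) (.e (nat_lit 360450) (nat_lit 0) (.e (nat_lit 7261) (nat_lit 384) (.e (nat_lit 57412) (nat_lit 12) (.e (nat_lit 336176) (nat_lit 10) (.e (nat_lit 344174) (nat_lit 42) (.e (nat_lit 761869) (nat_lit 5) .nil))))))) (.g (nat_lit 6) .nil .nil))) 
(.lf (nat_lit 62368) (.g (nat_lit 1909) (.e (nat_lit 1582) (nat_lit 111) (.e (nat_lit 360451) (nat_lit 0) (.e (nat_lit 7125) (nat_lit 382) (.e (nat_lit 1201) (nat_lit 88) (.e (nat_lit 65617) (nat_lit 10) (.e (nat_lit 344174) (nat_lit 42) (.e (nat_lit 761867) (nat_lit 5) .nil))))))) (.g (nat_lit 4) .nil .nil)))) (.nd (nat_lit 5) 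
(.lf (nat_lit 62352) (.g (nat_lit 1531) (.e (nat_lit 1582) (nat_lit 111) (.e (nat_lit 360450) (nat_lit 0) (.e (nat_lit 7263) (nat_lit 384) (.e (nat_lit 57427) (nat_lit 15) (.e (nat_lit 360488) (nat_lit 20) (.e (nat_lit 761869) (nat_lit 5) .nil)))))) (.g (nat_lit 4) .nil .nil))) 
(.lf (nat_lit 62384) (.g (nat_lit 1582) (.e (nat_lit 1582) (nat_lit 111) (.e (nat_lit 360451) (nat_lit 0) (.e (nat_lit 7261) (nat_lit 384) (.e (nat_lit 57427) (nat_lit 15) (.e (nat_lit 360488) (nat_lit 20) (.e (nat_lit 761868) (nat_lit 5) .nil)))))) (.g (nat_lit 4) .nil .nil))))) (.nd (nat_lit 4) (.nd (nat_lit 5) 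
(.lf (nat_lit 62344) (.g (nat_lit 2206) (.e (nat_lit 1582) (nat_lit 111) (.e (nat_lit 360450) (nat_lit 0) (.e (nat_lit 7263) (nat_lit 384) (.e (nat_lit 57412) (nat_lit 12) (.e (nat_lit 336173) (nat_lit 10) (.e (nat_lit 344174) (nat_lit 42) (.e (nat_lit 761868) (nat_lit 5) .nil))))))) (.g (nat_lit 5) .nil .nil))) 
(.lf (nat_lit 62376) (.g (nat_lit 2893) (.e (nat_lit 1582) (nat_lit 111) (.e (nat_lit 360451) (nat_lit 0) (.e (nat_lit 7261) (nat_lit 384) (.e (nat_lit 57412) (nat_lit 12) (.e (nat_lit 336173) (nat_lit 10) (.e (nat_lit 344174) (nat_lit 42) (.e (nat_lit 761869) (nat_lit 5) .nil))))))) (.g (nat_lit 6) .nil .nil)))) (.nd (nat_lit 5) 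
(.lf (nat_lit 62360) (.g (nat_lit 959) (.e (nat_lit 1582) (nat_lit 111) (.e (nat_lit 360451) (nat_lit 0) (.e (nat_lit 7124) (nat_lit 382) (.e (nat_lit 1201) (nat_lit 88) .nil)))) .nil)) 
(.lf (nat_lit 62392) (.g (nat_lit 1102) (.e (nat_lit 1582) (nat_lit 111) (.e (nat_lit 360451) (nat_lit 0) (.e (nat_lit 7265) (nat_lit 384) (.e (nat_lit 57412) (nat_lit 12) .nil)))) .nil))))) (.nd (nat_lit 3) (.nd (nat_lit 4) (.nd (nat_lit 5) 
(.lf (nat_lit 62340) (.g (nat_lit 1468) (.e (nat_lit 1582) (nat_lit 111) (.e (nat_lit 360450) (nat_lit 0) (.e (nat_lit 7261) (nat_lit 384) (.e (nat_lit 57427) (nat_lit 15) (.e (nat_lit 360488) (nat_lit 20) .nil))))) .nil)) 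
(.lf (nat_lit 62372) (.g (nat_lit 460) (.e (nat_lit 1582) (nat_lit 111) (.e (nat_lit 360451) (nat_lit 0) (.e (nat_lit 7261) (nat_lit 384) .nil))) .nil))) (.nd (nat_lit 5) 
(.lf (nat_lit 62356) (.g (nat_lit 2137) (.e (nat_lit 1582) (nat_lit 111) (.e (nat_lit 360451) (nat_lit 0) (.e (nat_lit 7122) (nat_lit 382) (.e (nat_lit 1201) (nat_lit 88) (.e (nat_lit 65617) (nat_lit 10) (.e (nat_lit 344174) (nat_lit 42) (.e (nat_lit 761866) (nat_lit 5) .nil))))))) (.g (nat_lit 4) .nil .nil))) 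
(.lf (nat_lit 62388) (.g (nat_lit 1758) (.e (nat_lit 1582) (nat_lit 111) (.e (nat_lit 360451) (nat_lit 0) (.e (nat_lit 7263) (nat_lit 384) (.e (nat_lit 57412) (nat_lit 12) (.e (nat_lit 336176) (nat_lit 10) (.e (nat_lit 344174) (nat_lit 42) (.e (nat_lit 761866) (nat_lit 5) .nil))))))) (.g (nat_lit 4) .nil .nil))))) (.nd (nat_lit 4) (.nd (nat_lit 5) 
(.lf (nat_lit 62348) (.g (nat_lit 1639) (.e (nat_lit 1582) (nat_lit 111) (.e (nat_lit 360450) (nat_lit 0) (.e (nat_lit 7263) (nat_lit 384) (.e (nat_lit 57426) (nat_lit 15) (.e (nat_lit 360488) (nat_lit 20) (.e (nat_lit 761866) (nat_lit 5) .nil)))))) (.g (nat_lit 5) .nil .nil))) 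
(.lf (nat_lit 62380) (.g (nat_lit 2855) (.e (nat_lit 1582) (nat_lit 111) (.e (nat_lit 360451) (nat_lit 0) (.e (nat_lit 7261) (nat_lit 384) (.e (nat_lit 57412) (nat_lit 12) (.e (nat_lit 336176) (nat_lit 10) (.e (nat_lit 344174) (nat_lit 42) (.e (nat_lit 761869) (nat_lit 5) .nil))))))) (.g (nat_lit 7) .nil .nil)))) (.nd (nat_lit 5) 
(.lf (nat_lit 62364) (.g (nat_lit 2727) (.e (nat_lit 1582) (nat_lit 111) (.e (nat_lit 360451) (nat_lit 0) (.e (nat_lit 7125) (nat_lit 382) (.e (nat_lit 1201) (nat_lit 88) (.e (nat_lit 65610) (nat_lit 10) (.e (nat_lit 344173) (nat_lit 42) (.e (nat_lit 761866) (nat_lit 5) .nil))))))) (.g (nat_lit 5) .nil .nil))) 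
(.lf (nat_lit 62396) (.g (nat_lit 3217) (.e (nat_lit 1582) (nat_lit 111) (.e (nat_lit 360451) (nat_lit 0) (.e (nat_lit 7265) (nat_lit 384) (.e (nat_lit 57412) (nat_lit 12) (.e (nat_lit 336176) (nat_lit 10) (.e (nat_lit 344174) (nat_lit 42) (.e (nat_lit 761866) (nat_lit 5) .nil))))))) (.g (nat_lit 7) .nil .nil))))))) (.nd (nat_lit 2) (.nd (nat_lit 3) (.nd (nat_lit 4) (.nd (nat_lit 5) 
(.lf (nat_lit 62338) (.g (nat_lit 1608) (.e (nat_lit 1582) (nat_lit 111) (.e (nat_lit 360450) (nat_lit 0) (.e (nat_lit 7261) (nat_lit 384) (.e (nat_lit 57426) (nat_lit 15) (.e (nat_lit 360488) (nat_lit 20) (.e (nat_lit 761868) (nat_lit 5) .nil)))))) (.g (nat_lit 4) .nil .nil))) 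
(.lf (nat_lit 62370) (.g (nat_lit 2836) (.e (nat_lit 1582) (nat_lit 111) (.e (nat_lit 360451) (nat_lit 0) (.e (nat_lit 7125) (nat_lit 382) (.e (nat_lit 1222) (nat_lit 90) (.e (nat_lit 81943) (nat_lit 20) (.e (nat_lit 2270) (nat_lit 149) (.e (nat_lit 761868) (nat_lit 5) .nil))))))) (.g (nat_lit 5) .nil .nil)))) (.nd (nat_lit 5) 
(.lf (nat_lit 62354) (.g (nat_lit 2155) (.e (nat_lit 1582) (nat_lit 111) (.e (nat_lit 360451) (nat_lit 0) (.e (nat_lit 7122) (nat_lit 382) (.e (nat_lit 1201) (nat_lit 88) (.e (nat_lit 65610) (nat_lit 10) (.e (nat_lit 344174) (nat_lit 42) (.e (nat_lit 761868) (nat_lit 5) .nil))))))) (.g (nat_lit 4) .nil .nil))) 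
(.lf (nat_lit 62386) (.g (nat_lit 1751) (.e (nat_lit 1582) (nat_lit 111) (.e (nat_lit 360451) (nat_lit 0) (.e (nat_lit 7263) (nat_lit 384) (.e (nat_lit 57412) (nat_lit 12) (.e (nat_lit 336173) (nat_lit 10) (.e (nat_lit 344174) (nat_lit 42) (.e (nat_lit 761866) (nat_lit 5) .nil))))))) (.g (nat_lit 4) .nil .nil))))) (.nd (nat_lit 4) (.nd (nat_lit 5) 
(.lf (nat_lit 62346) (.g (nat_lit 2153) (.e (nat_lit 1582) (nat_lit 111) (.e (nat_lit 360450) (nat_lit 0) (.e (nat_lit 7263) (nat_lit 384) (.e (nat_lit 57412) (nat_lit 12) (.e (nat_lit 336176) (nat_lit 10) (.e (nat_lit 344174) (nat_lit 42) (.e (nat_lit 761868) (nat_lit 5) .nil))))))) (.g (nat_lit 5) .nil .nil))) 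
(.lf (nat_lit 62378) (.g (nat_lit 2807) (.e (nat_lit 1582) (nat_lit 111) (.e (nat_lit 360451) (nat_lit 0) (.e (nat_lit 7261) (nat_lit 384) (.e (nat_lit 57412) (nat_lit 12) (.e (nat_lit 336176) (nat_lit 10) (.e (nat_lit 344174) (nat_lit 42) (.e (nat_lit 761866) (nat_lit 5) .nil))))))) (.g (nat_lit 7) .nil .nil)))) (.nd (nat_lit 5) 
(.lf (nat_lit 62362) (.g (nat_lit 2891) (.e (nat_lit 1582) (nat_lit 111) (.e (nat_lit 360451) (nat_lit 0) (.e (nat_lit 7124) (nat_lit 382) (.e (nat_lit 1201) (nat_lit 88) (.e (nat_lit 65617) (nat_lit 10) (.e (nat_lit 344174) (nat_lit 42) (.e (nat_lit 761866) (nat_lit 5) .nil))))))) (.g (nat_lit 6) .nil .nil))) 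
(.lf (nat_lit 62394) (.g (nat_lit 3132) (.e (nat_lit 1582) (nat_lit 111) (.e (nat_lit 360451) (nat_lit 0) (.e (nat_lit 7265) (nat_lit 384) (.e (nat_lit 57412) (nat_lit 12) (.e (nat_lit 336173) (nat_lit 10) (.e (nat_lit 344174) (nat_lit 42) (.e (nat_lit 761869) (nat_lit 5) .nil))))))) (.g (nat_lit 7) .nil .nil)))))) (.nd (nat_lit 3) (.nd (nat_lit 4) (.nd (nat_lit 5) 
(.lf (nat_lit 62342) (.g (nat_lit 452) (.e (nat_lit 1582) (nat_lit 111) (.e (nat_lit 360450) (nat_lit 0) (.e (nat_lit 7263) (nat_lit 384) .nil))) .nil)) 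
(.lf (nat_lit 62374) (.g (nat_lit 2835) (.e (nat_lit 1582) (nat_lit 111) (.e (nat_lit 360451) (nat_lit 0) (.e (nat_lit 7261) (nat_lit 384) (.e (nat_lit 57412) (nat_lit 12) (.e (nat_lit 336173) (nat_lit 10) (.e (nat_lit 344174) (nat_lit 42) (.e (nat_lit 761866) (nat_lit 5) .nil))))))) (.g (nat_lit 6) .nil .nil)))) (.nd (nat_lit 5) 
(.lf (nat_lit 62358) (.g (nat_lit 2216) (.e (nat_lit 1582) (nat_lit 111) (.e (nat_lit 360451) (nat_lit 0) (.e (nat_lit 7122) (nat_lit 382) (.e (nat_lit 1222) (nat_lit 90) (.e (nat_lit 81943) (nat_lit 20) (.e (nat_lit 2270) (nat_lit 149) (.e (nat_lit 761868) (nat_lit 5) .nil))))))) (.g (nat_lit 5) .nil .nil))) 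
(.lf (nat_lit 62390) (.g (nat_lit 1296) (.e (nat_lit 1582) (nat_lit 111) (.e (nat_lit 360451) (nat_lit 0) (.e (nat_lit 7263) (nat_lit 384) (.e (nat_lit 57426) (nat_lit 15) (.e (nat_lit 360488) (nat_lit 20) .nil))))) .nil)))) (.nd (nat_lit 4) (.nd (nat_lit 5) 
(.lf (nat_lit 62350) (.g (nat_lit 1930) (.e (nat_lit 1582) (nat_lit 111) (.e (nat_lit 360450) (nat_lit 0) (.e (nat_lit 7263) (nat_lit 384) (.e (nat_lit 57426) (nat_lit 15) (.e (nat_lit 360488) (nat_lit 20) (.e (nat_lit 761869) (nat_lit 5) .nil)))))) (.g (nat_lit 5) .nil .nil))) 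
(.lf (nat_lit 62382) (.g (nat_lit 1972) (.e (nat_lit 1582) (nat_lit 111) (.e (nat_lit 360451) (nat_lit 0) (.e (nat_lit 7261) (nat_lit 384) (.e (nat_lit 57426) (nat_lit 15) (.e (nat_lit 360488) (nat_lit 20) (.e (nat_lit 761868) (nat_lit 5) .nil)))))) (.g (nat_lit 6) .nil .nil)))) (.nd (nat_lit 5) 
(.lf (nat_lit 62366) (.g (nat_lit 3724) (.e (nat_lit 1582) (nat_lit 111) (.e (nat_lit 360451) (nat_lit 0) (.e (nat_lit 7125) (nat_lit 382) (.e (nat_lit 1201) (nat_lit 88) (.e (nat_lit 65610) (nat_lit 10) (.e (nat_lit 344174) (nat_lit 42) (.e (nat_lit 761866) (nat_lit 5) .nil))))))) (.g (nat_lit 7) .nil .nil))) 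
(.lf (nat_lit 62398) (.g (nat_lit 3123) (.e (nat_lit 1582) (nat_lit 111) (.e (nat_lit 360451) (nat_lit 0) (.e (nat_lit 7265) (nat_lit 384) (.e (nat_lit 57412) (nat_lit 12) (.e (nat_lit 336176) (nat_lit 10) (.e (nat_lit 344174) (nat_lit 42) (.e (nat_lit 761869) (nat_lit 5) .nil))))))) (.g (nat_lit 7) .nil .nil)))))))) 
(.nd (nat_lit 1) (.nd (nat_lit 2) (.nd (nat_lit 3) (.nd (nat_lit 4) (.nd (nat_lit 5) 
(.lf (nat_lit 62337) (.g (nat_lit 1689) (.e (nat_lit 1582) (nat_lit 111) (.e (nat_lit 360450) (nat_lit 0) (.e (nat_lit 7261) (nat_lit 384) (.e (nat_lit 57426) (nat_lit 15) (.e (nat_lit 360488) (nat_lit 20) (.e (nat_lit 761866) (nat_lit 5) .nil)))))) (.g (nat_lit 5) .nil .nil))) 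
(.lf (nat_lit 62369) (.g (nat_lit 1181) (.e (nat_lit 1582) (nat_lit 111) (.e (nat_lit 360451) (nat_lit 0) (.e (nat_lit 7125) (nat_lit 382) (.e (nat_lit 1222) (nat_lit 90) .nil)))) .nil))) (.nd (nat_lit 5) 
(.lf (nat_lit 62353) (.g (nat_lit 553) (.e (nat_lit 1582) (nat_lit 111) (.e (nat_lit 360450) (nat_lit 0) (.e (nat_lit 7265) (nat_lit 384) .nil))) .nil)) 
(.lf (nat_lit 62385) (.g (nat_lit 893) (.e (nat_lit 1582) (nat_lit 111) (.e (nat_lit 360451) (nat_lit 0) (.e (nat_lit 7261) (nat_lit 384) (.e (nat_lit 57436) (nat_lit 17) .nil)))) .nil)))) (.nd (nat_lit 4) (.nd (nat_lit 5) 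
(.lf (nat_lit 62345) (.g (nat_lit 2411) (.e (nat_lit 1582) (nat_lit 111) (.e (nat_lit 360450) (nat_lit 0) (.e (nat_lit 7263) (nat_lit 384) (.e (nat_lit 57412) (nat_lit 12) (.e (nat_lit 336176) (nat_lit 10) (.e (nat_lit 344174) (nat_lit 42) (.e (nat_lit 761866) (nat_lit 5) .nil))))))) (.g (nat_lit 6) .nil .nil))) 
(.lf (nat_lit 62377) (.g (nat_lit 1205) (.e (nat_lit 1582) (nat_lit 111) (.e (nat_lit 360451) (nat_lit 0) (.e (nat_lit 7261) (nat_lit 384) (.e (nat_lit 57412) (nat_lit 12) (.e (nat_lit 336176) (nat_lit 10) .nil))))) .nil))) (.nd (nat_lit 5) 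
(.lf (nat_lit 62361) (.g (nat_lit 3145) (.e (nat_lit 1582) (nat_lit 111) (.e (nat_lit 360451) (nat_lit 0) (.e (nat_lit 7124) (nat_lit 382) (.e (nat_lit 1201) (nat_lit 88) (.e (nat_lit 65610) (nat_lit 10) (.e (nat_lit 344174) (nat_lit 42) (.e (nat_lit 761869) (nat_lit 5) .nil))))))) (.g (nat_lit 6) .nil .nil))) 
(.lf (nat_lit 62393) (.g (nat_lit 3031) (.e (nat_lit 1582) (nat_lit 111) (.e (nat_lit 360451) (nat_lit 0) (.e (nat_lit 7265) (nat_lit 384) (.e (nat_lit 57412) (nat_lit 12) (.e (nat_lit 336173) (nat_lit 10) (.e (nat_lit 344174) (nat_lit 42) (.e (nat_lit 761868) (nat_lit 5) .nil))))))) (.g (nat_lit 6) .nil .nil)))))) (.nd (nat_lit 3) (.nd (nat_lit 4) (.nd (nat_lit 5) 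
(.lf (nat_lit 62341) (.g (nat_lit 1542) (.e (nat_lit 1582) (nat_lit 111) (.e (nat_lit 360450) (nat_lit 0) (.e (nat_lit 7261) (nat_lit 384) (.e (nat_lit 57427) (nat_lit 15) (.e (nat_lit 360488) (nat_lit 20) (.e (nat_lit 761869) (nat_lit 5) .nil)))))) (.g (nat_lit 4) .nil .nil))) 
(.lf (nat_lit 62373) (.g (nat_lit 848) (.e (nat_lit 1582) (nat_lit 111) (.e (nat_lit 360451) (nat_lit 0) (.e (nat_lit 7261) (nat_lit 384) (.e (nat_lit 57412) (nat_lit 12) .nil)))) .nil))) (.nd (nat_lit 5) 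
(.lf (nat_lit 62357) (.g (nat_lit 2209) (.e (nat_lit 1582) (nat_lit 111) (.e (nat_lit 360451) (nat_lit 0) (.e (nat_lit 7122) (nat_lit 382) (.e (nat_lit 1201) (nat_lit 88) (.e (nat_lit 65617) (nat_lit 10) (.e (nat_lit 344174) (nat_lit 42) (.e (nat_lit 761869) (nat_lit 5) .nil))))))) (.g (nat_lit 4) .nil .nil))) 
(.lf (nat_lit 62389) (.g (nat_lit 1530) (.e (nat_lit 1582) (nat_lit 111) (.e (nat_lit 360451) (nat_lit 0) (.e (nat_lit 7263) (nat_lit 384) (.e (nat_lit 57412) (nat_lit 12) (.e (nat_lit 336176) (nat_lit 10) (.e (nat_lit 344174) (nat_lit 42) (.e (nat_lit 761868) (nat_lit 5) .nil))))))) (.g (nat_lit 4) .nil .nil))))) (.nd (nat_lit 4) (.nd (nat_lit 5) 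
(.lf (nat_lit 62349) (.g (nat_lit 1550) (.e (nat_lit 1582) (nat_lit 111) (.e (nat_lit 360450) (nat_lit 0) (.e (nat_lit 7263) (nat_lit 384) (.e (nat_lit 57426) (nat_lit 15) (.e (nat_lit 360488) (nat_lit 20) (.e (nat_lit 761868) (nat_lit 5) .nil)))))) (.g (nat_lit 4) .nil .nil))) 
(.lf (nat_lit 62381) (.g (nat_lit 2035) (.e (nat_lit 1582) (nat_lit 111) (.e (nat_lit 360451) (nat_lit 0) (.e (nat_lit 7261) (nat_lit 384) (.e (nat_lit 57426) (nat_lit 15) (.e (nat_lit 360488) (nat_lit 20) (.e (nat_lit 761866) (nat_lit 5) .nil)))))) (.g (nat_lit 6) .nil .nil)))) (.nd (nat_lit 5) 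
(.lf (nat_lit 62365) (.g (nat_lit 2675) (.e (nat_lit 1582) (nat_lit 111) (.e (nat_lit 360451) (nat_lit 0) (.e (nat_lit 7125) (nat_lit 382) (.e (nat_lit 1201) (nat_lit 88) (.e (nat_lit 65610) (nat_lit 10) (.e (nat_lit 344173) (nat_lit 42) (.e (nat_lit 761868) (nat_lit 5) .nil))))))) (.g (nat_lit 5) .nil .nil))) 
(.lf (nat_lit 62397) (.g (nat_lit 2993) (.e (nat_lit 1582) (nat_lit 111) (.e (nat_lit 360451) (nat_lit 0) (.e (nat_lit 7265) (nat_lit 384) (.e (nat_lit 57412) (nat_lit 12) (.e (nat_lit 336176) (nat_lit 10) (.e (nat_lit 344174) (nat_lit 42) (.e (nat_lit 761868) (nat_lit 5) .nil))))))) (.g (nat_lit 7) .nil .nil))))))) (.nd (nat_lit 2) (.nd (nat_lit 3) (.nd (nat_lit 4) (.nd (nat_lit 5) 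
(.lf (nat_lit 62339) (.g (nat_lit 1982) (.e (nat_lit 1582) (nat_lit 111) (.e (nat_lit 360450) (nat_lit 0) (.e (nat_lit 7261) (nat_lit 384) (.e (nat_lit 57426) (nat_lit 15) (.e (nat_lit 360488) (nat_lit 20) (.e (nat_lit 761869) (nat_lit 5) .nil)))))) (.g (nat_lit 6) .nil .nil))) 
(.lf (nat_lit 62371) (.g (nat_lit 1843) (.e (nat_lit 1582) (nat_lit 111) (.e (nat_lit 360451) (nat_lit 0) (.e (nat_lit 7125) (nat_lit 382) (.e (nat_lit 1224) (nat_lit 90) (.e (nat_lit 81946) (nat_lit 20) .nil))))) .nil))) (.nd (nat_lit 5) 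
(.lf (nat_lit 62355) (.g (nat_lit 2112) (.e (nat_lit 1582) (nat_lit 111) (.e (nat_lit 360451) (nat_lit 0) (.e (nat_lit 7122) (nat_lit 382) (.e (nat_lit 1201) (nat_lit 88) (.e (nat_lit 65617) (nat_lit 10) .nil))))) .nil)) 
(.lf (nat_lit 62387) (.g (nat_lit 1562) (.e (nat_lit 1582) (nat_lit 111) (.e (nat_lit 360451) (nat_lit 0) (.e (nat_lit 7263) (nat_lit 384) (.e (nat_lit 57412) (nat_lit 12) (.e (nat_lit 336173) (nat_lit 10) (.e (nat_lit 344174) (nat_lit 42) (.e (nat_lit 761868) (nat_lit 5) .nil))))))) (.g (nat_lit 4) .nil .nil))))) (.nd (nat_lit 4) (.nd (nat_lit 5) 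
(.lf (nat_lit 62347) (.g (nat_lit 2517) (.e (nat_lit 1582) (nat_lit 111) (.e (nat_lit 360450) (nat_lit 0) (.e (nat_lit 7263) (nat_lit 384) (.e (nat_lit 57412) (nat_lit 12) (.e (nat_lit 336176) (nat_lit 10) (.e (nat_lit 344174) (nat_lit 42) (.e (nat_lit 761869) (nat_lit 5) .nil))))))) (.g (nat_lit 6) .nil .nil))) 
(.lf (nat_lit 62379) (.g (nat_lit 2579) (.e (nat_lit 1582) (nat_lit 111) (.e (nat_lit 360451) (nat_lit 0) (.e (nat_lit 7261) (nat_lit 384) (.e (nat_lit 57412) (nat_lit 12) (.e (nat_lit 336176) (nat_lit 10) (.e (nat_lit 344174) (nat_lit 42) (.e (nat_lit 761868) (nat_lit 5) .nil))))))) (.g (nat_lit 6) .nil .nil)))) (.nd (nat_lit 5) 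
(.lf (nat_lit 62363) (.g (nat_lit 2803) (.e (nat_lit 1582) (nat_lit 111) (.e (nat_lit 360451) (nat_lit 0) (.e (nat_lit 7124) (nat_lit 382) (.e (nat_lit 1201) (nat_lit 88) (.e (nat_lit 65617) (nat_lit 10) (.e (nat_lit 344174) (nat_lit 42) (.e (nat_lit 761869) (nat_lit 5) .nil))))))) (.g (nat_lit 6) .nil .nil))) 
(.lf (nat_lit 62395) (.g (nat_lit 1513) (.e (nat_lit 1582) (nat_lit 111) (.e (nat_lit 360451) (nat_lit 0) (.e (nat_lit 7265) (nat_lit 384) (.e (nat_lit 57412) (nat_lit 12) (.e (nat_lit 336176) (nat_lit 10) .nil))))) .nil))))) (.nd (nat_lit 3) (.nd (nat_lit 4) (.nd (nat_lit 5) 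
(.lf (nat_lit 62343) (.g (nat_lit 2425) (.e (nat_lit 1582) (nat_lit 111) (.e (nat_lit 360450) (nat_lit 0) (.e (nat_lit 7263) (nat_lit 384) (.e (nat_lit 57412) (nat_lit 12) (.e (nat_lit 336173) (nat_lit 10) (.e (nat_lit 344174) (nat_lit 42) (.e (nat_lit 761866) (nat_lit 5) .nil))))))) (.g (nat_lit 5) .nil .nil))) 
(.lf (nat_lit 62375) (.g (nat_lit 2646) (.e (nat_lit 1582) (nat_lit 111) (.e (nat_lit 360451) (nat_lit 0) (.e (nat_lit 7261) (nat_lit 384) (.e (nat_lit 57412) (nat_lit 12) (.e (nat_lit 336173) (nat_lit 10) (.e (nat_lit 344174) (nat_lit 42) (.e (nat_lit 761868) (nat_lit 5) .nil))))))) (.g (nat_lit 6) .nil .nil)))) (.nd (nat_lit 5) 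
(.lf (nat_lit 62359) (.g (nat_lit 1457) (.e (nat_lit 1582) (nat_lit 111) (.e (nat_lit 360451) (nat_lit 0) (.e (nat_lit 7122) (nat_lit 382) (.e (nat_lit 7936) (nat_lit 90) .nil)))) .nil)) 
(.lf (nat_lit 62391) (.g (nat_lit 400) (.e (nat_lit 1582) (nat_lit 111) (.e (nat_lit 360451) (nat_lit 0) (.e (nat_lit 7265) (nat_lit 384) .nil))) .nil)))) (.nd (nat_lit 4) (.nd (nat_lit 5) 
(.lf (nat_lit 62351) (.g (nat_lit 1510) (.e (nat_lit 1582) (nat_lit 111) (.e (nat_lit 360450) (nat_lit 0) (.e (nat_lit 7263) (nat_lit 384) (.e (nat_lit 57427) (nat_lit 15) (.e (nat_lit 360488) (nat_lit 20) .nil))))) .nil)) 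
(.lf (nat_lit 62383) (.g (nat_lit 1590) (.e (nat_lit 1582) (nat_lit 111) (.e (nat_lit 360451) (nat_lit 0) (.e (nat_lit 7261) (nat_lit 384) (.e (nat_lit 57427) (nat_lit 15) (.e (nat_lit 360488) (nat_lit 20) (.e (nat_lit 761866) (nat_lit 5) .nil)))))) (.g (nat_lit 4) .nil .nil)))) (.nd (nat_lit 5) 
(.lf (nat_lit 62367) (.g (nat_lit 3447) (.e (nat_lit 1582) (nat_lit 111) (.e (nat_lit 360451) (nat_lit 0) (.e (nat_lit 7125) (nat_lit 382) (.e (nat_lit 1201) (nat_lit 88) (.e (nat_lit 65610) (nat_lit 10) (.e (nat_lit 344174) (nat_lit 42) (.e (nat_lit 761868) (nat_lit 5) .nil))))))) (.g (nat_lit 6) .nil .nil))) 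
(.lf (nat_lit 62399) (.g (nat_lit 2452) (.e (nat_lit 1582) (nat_lit 111) (.e (nat_lit 360451) (nat_lit 0) (.e (nat_lit 7265) (nat_lit 384) (.e (nat_lit 57424) (nat_lit 14) (.e (nat_lit 352295) (nat_lit 20) .nil))))) .nil))))))))

noncomputable def tv855 : DT := (.nd (nat_lit 0) (.nd (nat_lit 1) (.nd (nat_lit 2) (.nd (nat_lit 3) (.nd (nat_lit 4) (.nd (nat_lit 5) 
(.lf (nat_lit 62400) (.g (nat_lit 2523) (.e (nat_lit 1582) (nat_lit 111) (.e (nat_lit 360451) (nat_lit 0) (.e (nat_lit 7265) (nat_lit 384) (.e (nat_lit 57424) (nat_lit 14) (.e (nat_lit 352301) (nat_lit 20) (.e (nat_lit 2270) (nat_lit 149) (.e (nat_lit 761868) (nat_lit 5) .nil))))))) (.g (nat_lit 4) .nil .nil))) 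
(.lf (nat_lit 62432) (.g (nat_lit 861) (.e (nat_lit 1582) (nat_lit 111) (.e (nat_lit 360474) (nat_lit 8) (.e (nat_lit 557089) (nat_lit 12) .nil))) .nil))) (.nd (nat_lit 5) 
(.lf (nat_lit 62416) (.g (nat_lit 1477) (.e (nat_lit 1582) (nat_lit 111) (.e (nat_lit 360451) (nat_lit 0) (.e (nat_lit 7710) (nat_lit 414) (.e (nat_lit 163923) (nat_lit 15) (.e (nat_lit 458496) (nat_lit 8) (.e (nat_lit 557060) (nat_lit 0) .nil)))))) (.g (nat_lit 4) .nil .nil))) 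
(.lf (nat_lit 62448) (.g (nat_lit 2489) (.e (nat_lit 1582) (nat_lit 111) (.e (nat_lit 360475) (nat_lit 8) (.e (nat_lit 557089) (nat_lit 12) (.e (nat_lit 163999) (nat_lit 38) (.e (nat_lit 639020) (nat_lit 16) .nil))))) .nil)))) (.nd (nat_lit 4) (.nd (nat_lit 5) 
(.lf (nat_lit 62408) (.g (nat_lit 2687) (.e (nat_lit 1582) (nat_lit 111) (.e (nat_lit 360451) (nat_lit 0) (.e (nat_lit 7265) (nat_lit 384) (.e (nat_lit 57427) (nat_lit 15) (.e (nat_lit 360488) (nat_lit 20) (.e (nat_lit 761869) (nat_lit 5) .nil)))))) (.g (nat_lit 5) .nil .nil))) 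
(.lf (nat_lit 62440) (.g (nat_lit 2982) (.e (nat_lit 1582) (nat_lit 111) (.e (nat_lit 360474) (nat_lit 8) (.e (nat_lit 557091) (nat_lit 12) (.e (nat_lit 164008) (nat_lit 41) .nil)))) .nil))) (.nd (nat_lit 5) 
(.lf (nat_lit 62424) (.g (nat_lit 1588) (.e (nat_lit 1582) (nat_lit 111) (.e (nat_lit 368384) (nat_lit 0) (.e (nat_lit 5905) (nat_lit 320) (.e (nat_lit 1221) (nat_lit 90) (.e (nat_lit 89856) (nat_lit 8) (.e (nat_lit 262146) (nat_lit 0) .nil)))))) (.g (nat_lit 4) .nil .nil))) 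
(.lf (nat_lit 62456) (.g (nat_lit 2142) (.e (nat_lit 1582) (nat_lit 111) (.e (nat_lit 360475) (nat_lit 8) (.e (nat_lit 557089) (nat_lit 12) (.e (nat_lit 164007) (nat_lit 41) (.e (nat_lit 663574) (nat_lit 9) .nil))))) .nil))))) (.nd (nat_lit 3) (.nd (nat_lit 4) (.nd (nat_lit 5) 
(.lf (nat_lit 62404) (.g (nat_lit 2808) (.e (nat_lit 1582) (nat_lit 111) (.e (nat_lit 360451) (nat_lit 0) (.e (nat_lit 7265) (nat_lit 384) (.e (nat_lit 57426) (nat_lit 15) (.e (nat_lit 360488) (nat_lit 20) (.e (nat_lit 761869) (nat_lit 5) .nil)))))) (.g (nat_lit 0) .nil .nil))) 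
(.lf (nat_lit 62436) (.g (nat_lit 4045) (.e (nat_lit 1582) (nat_lit 111) (.e (nat_lit 360474) (nat_lit 8) (.e (nat_lit 557091) (nat_lit 12) (.e (nat_lit 163999) (nat_lit 38) (.e (nat_lit 639020) (nat_lit 16) (.e (nat_lit 65578) (nat_lit 6) (.e (nat_lit 147460) (nat_lit 0) .nil))))))) (.g (nat_lit 0) .nil .nil)))) (.nd (nat_lit 5) 
(.lf (nat_lit 62420) (.g (nat_lit 1348) (.e (nat_lit 1582) (nat_lit 111) (.e (nat_lit 360456) (nat_lit 0) (.e (nat_lit 5949) (nat_lit 322) (.e (nat_lit 57424) (nat_lit 14) (.e (nat_lit 352270) (nat_lit 8) .nil))))) .nil)) 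
(.lf (nat_lit 62452) (.g (nat_lit 2000) (.e (nat_lit 1582) (nat_lit 111) (.e (nat_lit 360475) (nat_lit 8) (.e (nat_lit 557089) (nat_lit 12) (.e (nat_lit 164006) (nat_lit 41) .nil)))) .nil)))) (.nd (nat_lit 4) (.nd (nat_lit 5) 
(.lf (nat_lit 62412) (.g (nat_lit 2404) (.e (nat_lit 1582) (nat_lit 111) (.e (nat_lit 360451) (nat_lit 0) (.e (nat_lit 7266) (nat_lit 384) (.e (nat_lit 57427) (nat_lit 15) (.e (nat_lit 360488) (nat_lit 20) (.e (nat_lit 761868) (nat_lit 5) .nil)))))) (.g (nat_lit 5) .nil .nil))) 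
(.lf (nat_lit 62444) (.g (nat_lit 331) (.e (nat_lit 1582) (nat_lit 111) (.e (nat_lit 360475) (nat_lit 8) (.e (nat_lit 557086) (nat_lit 11) .nil))) .nil))) (.nd (nat_lit 5) 
(.lf (nat_lit 62428) (.g (nat_lit 1532) (.e (nat_lit 1582) (nat_lit 111) (.e (nat_lit 360466) (nat_lit 3) (.e (nat_lit 516120) (nat_lit 1) (.e (nat_lit 164159) (nat_lit 152) .nil)))) .nil)) 
(.lf (nat_lit 62460) (.g (nat_lit 3132) (.e (nat_lit 1582) (nat_lit 111) (.e (nat_lit 360475) (nat_lit 8) (.e (nat_lit 557089) (nat_lit 12) (.e (nat_lit 164010) (nat_lit 41) (.e (nat_lit 663583) (nat_lit 11) (.e (nat_lit 24615) (nat_lit 6) (.e (nat_lit 147460) (nat_lit 0) .nil))))))) (.g (nat_lit 6) .nil .nil))))))) (.nd (nat_lit 2) (.nd (nat_lit 3) (.nd (nat_lit 4) (.nd (nat_lit 5) 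
(.lf (nat_lit 62402) (.g (nat_lit 1886) (.e (nat_lit 1582) (nat_lit 111) (.e (nat_lit 360451) (nat_lit 0) (.e (nat_lit 7265) (nat_lit 384) (.e (nat_lit 57424) (nat_lit 14) (.e (nat_lit 352303) (nat_lit 20) .nil))))) .nil)) 
(.lf (nat_lit 62434) (.g (nat_lit 3152) (.e (nat_lit 1582) (nat_lit 111) (.e (nat_lit 360474) (nat_lit 8) (.e (nat_lit 557091) (nat_lit 12) (.e (nat_lit 163999) (nat_lit 38) (.e (nat_lit 639020) (nat_lit 16) (.e (nat_lit 65578) (nat_lit 6) (.e (nat_lit 147458) (nat_lit 0) .nil))))))) (.g (nat_lit 5) .nil .nil)))) (.nd (nat_lit 5) 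
(.lf (nat_lit 62418) (.g (nat_lit 1585) (.e (nat_lit 1582) (nat_lit 111) (.e (nat_lit 360452) (nat_lit 0) (.e (nat_lit 5907) (nat_lit 320) (.e (nat_lit 1221) (nat_lit 90) .nil)))) .nil)) 
(.lf (nat_lit 62450) (.g (nat_lit 2107) (.e (nat_lit 1582) (nat_lit 111) (.e (nat_lit 360475) (nat_lit 8) (.e (nat_lit 557089) (nat_lit 12) (.e (nat_lit 164000) (nat_lit 38) .nil)))) .nil)))) (.nd (nat_lit 4) (.nd (nat_lit 5) 
(.lf (nat_lit 62410) (.g (nat_lit 1746) (.e (nat_lit 1582) (nat_lit 111) (.e (nat_lit 360451) (nat_lit 0) (.e (nat_lit 7265) (nat_lit 384) (.e (nat_lit 57436) (nat_lit 17) (.e (nat_lit 376860) (nat_lit 21) (.e (nat_lit 57670) (nat_lit 152) (.e (nat_lit 1079) (nat_lit 81) .nil))))))) (.g (nat_lit 4) .nil .nil))) 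
(.lf (nat_lit 62442) (.g (nat_lit 522) (.e (nat_lit 1582) (nat_lit 111) (.e (nat_lit 360474) (nat_lit 8) (.e (nat_lit 557094) (nat_lit 12) .nil))) .nil))) (.nd (nat_lit 5) 
(.lf (nat_lit 62426) (.g (nat_lit 1328) (.e (nat_lit 1582) (nat_lit 111) (.e (nat_lit 368384) (nat_lit 0) (.e (nat_lit 5907) (nat_lit 320) (.e (nat_lit 1221) (nat_lit 90) (.e (nat_lit 89856) (nat_lit 8) (.e (nat_lit 262147) (nat_lit 0) .nil)))))) (.g (nat_lit 4) .nil .nil))) 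
(.lf (nat_lit 62458) (.g (nat_lit 2264) (.e (nat_lit 1582) (nat_lit 111) (.e (nat_lit 360475) (nat_lit 8) (.e (nat_lit 557089) (nat_lit 12) (.e (nat_lit 164009) (nat_lit 41) .nil)))) .nil))))) (.nd (nat_lit 3) (.nd (nat_lit 4) (.nd (nat_lit 5) 
(.lf (nat_lit 62406) (.g (nat_lit 2593) (.e (nat_lit 1582) (nat_lit 111) (.e (nat_lit 360451) (nat_lit 0) (.e (nat_lit 7265) (nat_lit 384) (.e (nat_lit 57427) (nat_lit 15) (.e (nat_lit 360488) (nat_lit 20) (.e (nat_lit 761866) (nat_lit 5) .nil)))))) (.g (nat_lit 5) .nil .nil))) 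
(.lf (nat_lit 62438) (.g (nat_lit 4266) (.e (nat_lit 1582) (nat_lit 111) (.e (nat_lit 360474) (nat_lit 8) (.e (nat_lit 557091) (nat_lit 12) (.e (nat_lit 163999) (nat_lit 38) (.e (nat_lit 639020) (nat_lit 16) (.e (nat_lit 65580) (nat_lit 6) (.e (nat_lit 155392) (nat_lit 0) .nil))))))) (.g (nat_lit 6) .nil .nil)))) (.nd (nat_lit 5) 
(.lf (nat_lit 62422) (.g (nat_lit 1312) (.e (nat_lit 1582) (nat_lit 111) (.e (nat_lit 368384) (nat_lit 0) (.e (nat_lit 5905) (nat_lit 320) (.e (nat_lit 1219) (nat_lit 90) (.e (nat_lit 89856) (nat_lit 8) (.e (nat_lit 262147) (nat_lit 0) .nil)))))) (.g (nat_lit 4) .nil .nil))) 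
(.lf (nat_lit 62454) (.g (nat_lit 2570) (.e (nat_lit 1582) (nat_lit 111) (.e (nat_lit 360475) (nat_lit 8) (.e (nat_lit 557089) (nat_lit 12) (.e (nat_lit 164006) (nat_lit 41) (.e (nat_lit 663583) (nat_lit 11) .nil))))) .nil)))) (.nd (nat_lit 4) (.nd (nat_lit 5) 
(.lf (nat_lit 62414) (.g (nat_lit 1406) (.e (nat_lit 1582) (nat_lit 111) (.e (nat_lit 360451) (nat_lit 0) (.e (nat_lit 7710) (nat_lit 414) (.e (nat_lit 163922) (nat_lit 15) (.e (nat_lit 458496) (nat_lit 8) .nil))))) .nil)) 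
(.lf (nat_lit 62446) (.g (nat_lit 2036) (.e (nat_lit 1582) (nat_lit 111) (.e (nat_lit 360475) (nat_lit 8) (.e (nat_lit 557087) (nat_lit 11) (.e (nat_lit 24645) (nat_lit 11) .nil)))) .nil))) (.nd (nat_lit 5) 
(.lf (nat_lit 62430) (.g (nat_lit 514) (.e (nat_lit 1582) (nat_lit 111) (.e (nat_lit 360471) (nat_lit 7) (.e (nat_lit 548874) (nat_lit 5) .nil))) .nil)) 
(.lf (nat_lit 62462) (.g (nat_lit 1341) (.e (nat_lit 1582) (nat_lit 111) (.e (nat_lit 360475) (nat_lit 8) (.e (nat_lit 557090) (nat_lit 12) (.e (nat_lit 164020) (nat_lit 45) .nil)))) .nil))))))) (.nd (nat_lit 1) (.nd (nat_lit 2) (.nd (nat_lit 3) (.nd (nat_lit 4) (.nd (nat_lit 5) 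
(.lf (nat_lit 62401) (.g (nat_lit 2454) (.e (nat_lit 1582) (nat_lit 111) (.e (nat_lit 360451) (nat_lit 0) (.e (nat_lit 7265) (nat_lit 384) (.e (nat_lit 57424) (nat_lit 14) (.e (nat_lit 352302) (nat_lit 20) (.e (nat_lit 2270) (nat_lit 149) (.e (nat_lit 761868) (nat_lit 5) .nil))))))) (.g (nat_lit 4) .nil .nil))) 
(.lf (nat_lit 62433) (.g (nat_lit 2453) (.e (nat_lit 1582) (nat_lit 111) (.e (nat_lit 360474) (nat_lit 8) (.e (nat_lit 557089) (nat_lit 12) (.e (nat_lit 164007) (nat_lit 41) .nil)))) .nil))) (.nd (nat_lit 5) 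
(.lf (nat_lit 62417) (.g (nat_lit 1518) (.e (nat_lit 1582) (nat_lit 111) (.e (nat_lit 360451) (nat_lit 0) (.e (nat_lit 7710) (nat_lit 414) (.e (nat_lit 163923) (nat_lit 15) (.e (nat_lit 458496) (nat_lit 8) (.e (nat_lit 557061) (nat_lit 0) .nil)))))) (.g (nat_lit 4) .nil .nil))) 
(.lf (nat_lit 62449) (.g (nat_lit 2667) (.e (nat_lit 1582) (nat_lit 111) (.e (nat_lit 360475) (nat_lit 8) (.e (nat_lit 557089) (nat_lit 12) (.e (nat_lit 163999) (nat_lit 38) (.e (nat_lit 639020) (nat_lit 16) (.e (nat_lit 65580) (nat_lit 6) (.e (nat_lit 147458) (nat_lit 0) .nil))))))) (.g (nat_lit 4) .nil .nil))))) (.nd (nat_lit 4) (.nd (nat_lit 5) 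
(.lf (nat_lit 62409) (.g (nat_lit 2400) (.e (nat_lit 1582) (nat_lit 111) (.e (nat_lit 360451) (nat_lit 0) (.e (nat_lit 7265) (nat_lit 384) (.e (nat_lit 57436) (nat_lit 17) (.e (nat_lit 376860) (nat_lit 21) (.e (nat_lit 57665) (nat_lit 152) (.e (nat_lit 1070) (nat_lit 81) .nil))))))) (.g (nat_lit 5) .nil .nil))) 
(.lf (nat_lit 62441) (.g (nat_lit 1542) (.e (nat_lit 1582) (nat_lit 111) (.e (nat_lit 360474) (nat_lit 8) (.e (nat_lit 557093) (nat_lit 12) (.e (nat_lit 164009) (nat_lit 41) .nil)))) .nil))) (.nd (nat_lit 5) 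
(.lf (nat_lit 62425) (.g (nat_lit 1442) (.e (nat_lit 1582) (nat_lit 111) (.e (nat_lit 368384) (nat_lit 0) (.e (nat_lit 5906) (nat_lit 320) (.e (nat_lit 1221) (nat_lit 90) (.e (nat_lit 89856) (nat_lit 8) (.e (nat_lit 262146) (nat_lit 0) .nil)))))) (.g (nat_lit 4) .nil .nil))) 
(.lf (nat_lit 62457) (.g (nat_lit 2352) (.e (nat_lit 1582) (nat_lit 111) (.e (nat_lit 360475) (nat_lit 8) (.e (nat_lit 557089) (nat_lit 12) (.e (nat_lit 164008) (nat_lit 41) .nil)))) .nil))))) (.nd (nat_lit 3) (.nd (nat_lit 4) (.nd (nat_lit 5) 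
(.lf (nat_lit 62405) (.g (nat_lit 1091) (.e (nat_lit 1582) (nat_lit 111) (.e (nat_lit 360451) (nat_lit 0) (.e (nat_lit 7265) (nat_lit 384) (.e (nat_lit 57427) (nat_lit 15) .nil)))) .nil)) 
(.lf (nat_lit 62437) (.g (nat_lit 3875) (.e (nat_lit 1582) (nat_lit 111) (.e (nat_lit 360474) (nat_lit 8) (.e (nat_lit 557091) (nat_lit 12) (.e (nat_lit 163999) (nat_lit 38) (.e (nat_lit 639020) (nat_lit 16) (.e (nat_lit 65580) (nat_lit 6) (.e (nat_lit 147458) (nat_lit 0) .nil))))))) (.g (nat_lit 6) .nil .nil)))) (.nd (nat_lit 5) 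
(.lf (nat_lit 62421) (.g (nat_lit 1325) (.e (nat_lit 1582) (nat_lit 111) (.e (nat_lit 368384) (nat_lit 0) (.e (nat_lit 5905) (nat_lit 320) (.e (nat_lit 1219) (nat_lit 90) (.e (nat_lit 89856) (nat_lit 8) (.e (nat_lit 262146) (nat_lit 0) .nil)))))) (.g (nat_lit 4) .nil .nil))) 
(.lf (nat_lit 62453) (.g (nat_lit 2729) (.e (nat_lit 1582) (nat_lit 111) (.e (nat_lit 360475) (nat_lit 8) (.e (nat_lit 557089) (nat_lit 12) (.e (nat_lit 164006) (nat_lit 41) (.e (nat_lit 663580) (nat_lit 9) (.e (nat_lit 284) (nat_lit 21) (.e (nat_lit 336049) (nat_lit 6) (.e (nat_lit 147460) (nat_lit 0) .nil)))))))) (.g (nat_lit 4) .nil .nil))))) (.nd (nat_lit 4) (.nd (nat_lit 5) 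
(.lf (nat_lit 62413) (.g (nat_lit 2486) (.e (nat_lit 1582) (nat_lit 111) (.e (nat_lit 360451) (nat_lit 0) (.e (nat_lit 7266) (nat_lit 384) (.e (nat_lit 57427) (nat_lit 15) (.e (nat_lit 360488) (nat_lit 20) (.e (nat_lit 761869) (nat_lit 5) .nil)))))) (.g (nat_lit 5) .nil .nil))) 
(.lf (nat_lit 62445) (.g (nat_lit 1395) (.e (nat_lit 1582) (nat_lit 111) (.e (nat_lit 360475) (nat_lit 8) (.e (nat_lit 557086) (nat_lit 11) (.e (nat_lit 24645) (nat_lit 11) .nil)))) .nil))) (.nd (nat_lit 5) 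
(.lf (nat_lit 62429) (.g (nat_lit 1729) (.e (nat_lit 1582) (nat_lit 111) (.e (nat_lit 368384) (nat_lit 5) (.e (nat_lit 532579) (nat_lit 26) (.e (nat_lit 426172) (nat_lit 7) (.e (nat_lit 409623) (nat_lit 10) (.e (nat_lit 892) (nat_lit 75) (.e (nat_lit 778282) (nat_lit 0) .nil))))))) (.g (nat_lit 6) .nil .nil))) 
(.lf (nat_lit 62461) (.g (nat_lit 2512) (.e (nat_lit 1582) (nat_lit 111) (.e (nat_lit 360475) (nat_lit 8) (.e (nat_lit 557090) (nat_lit 12) (.e (nat_lit 164008) (nat_lit 41) .nil)))) .nil)))))) (.nd (nat_lit 2) (.nd (nat_lit 3) (.nd (nat_lit 4) (.nd (nat_lit 5) 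
(.lf (nat_lit 62403) (.g (nat_lit 1108) (.e (nat_lit 1582) (nat_lit 111) (.e (nat_lit 360451) (nat_lit 0) (.e (nat_lit 7265) (nat_lit 384) (.e (nat_lit 57426) (nat_lit 15) .nil)))) .nil)) 
(.lf (nat_lit 62435) (.g (nat_lit 4383) (.e (nat_lit 1582) (nat_lit 111) (.e (nat_lit 360474) (nat_lit 8) (.e (nat_lit 557091) (nat_lit 12) (.e (nat_lit 163999) (nat_lit 38) (.e (nat_lit 639020) (nat_lit 16) (.e (nat_lit 65578) (nat_lit 6) (.e (nat_lit 147459) (nat_lit 0) .nil))))))) (.g (nat_lit 7) .nil .nil)))) (.nd (nat_lit 5) 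
(.lf (nat_lit 62419) (.g (nat_lit 1128) (.e (nat_lit 1582) (nat_lit 111) (.e (nat_lit 360456) (nat_lit 0) (.e (nat_lit 5949) (nat_lit 322) (.e (nat_lit 57423) (nat_lit 14) (.e (nat_lit 352270) (nat_lit 8) .nil))))) .nil)) 
(.lf (nat_lit 62451) (.g (nat_lit 2328) (.e (nat_lit 1582) (nat_lit 111) (.e (nat_lit 360475) (nat_lit 8) (.e (nat_lit 557089) (nat_lit 12) (.e (nat_lit 164005) (nat_lit 41) .nil)))) .nil)))) (.nd (nat_lit 4) (.nd (nat_lit 5) 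
(.lf (nat_lit 62411) (.g (nat_lit 2412) (.e (nat_lit 1582) (nat_lit 111) (.e (nat_lit 360451) (nat_lit 0) (.e (nat_lit 7266) (nat_lit 384) (.e (nat_lit 57427) (nat_lit 15) (.e (nat_lit 360488) (nat_lit 20) (.e (nat_lit 761866) (nat_lit 5) .nil)))))) (.g (nat_lit 5) .nil .nil))) 
(.lf (nat_lit 62443) (.g (nat_lit 831) (.e (nat_lit 1582) (nat_lit 111) (.e (nat_lit 360475) (nat_lit 8) (.e (nat_lit 557065) (nat_lit 9) .nil))) .nil))) (.nd (nat_lit 5) 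
(.lf (nat_lit 62427) (.g (nat_lit 1438) (.e (nat_lit 1582) (nat_lit 111) (.e (nat_lit 360466) (nat_lit 3) (.e (nat_lit 516117) (nat_lit 1) (.e (nat_lit 164159) (nat_lit 152) .nil)))) .nil)) 
(.lf (nat_lit 62459) (.g (nat_lit 2108) (.e (nat_lit 1582) (nat_lit 111) (.e (nat_lit 360475) (nat_lit 8) (.e (nat_lit 557089) (nat_lit 12) (.e (nat_lit 164010) (nat_lit 41) .nil)))) .nil))))) (.nd (nat_lit 3) (.nd (nat_lit 4) (.nd (nat_lit 5) 
(.lf (nat_lit 62407) (.g (nat_lit 2589) (.e (nat_lit 1582) (nat_lit 111) (.e (nat_lit 360451) (nat_lit 0) (.e (nat_lit 7265) (nat_lit 384) (.e (nat_lit 57427) (nat_lit 15) (.e (nat_lit 360488) (nat_lit 20) (.e (nat_lit 761868) (nat_lit 5) .nil)))))) (.g (nat_lit 5) .nil .nil))) 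
(.lf (nat_lit 62439) (.g (nat_lit 2212) (.e (nat_lit 1582) (nat_lit 111) (.e (nat_lit 360474) (nat_lit 8) (.e (nat_lit 557091) (nat_lit 12) (.e (nat_lit 163999) (nat_lit 38) (.e (nat_lit 639021) (nat_lit 16) .nil))))) .nil))) (.nd (nat_lit 5) 
(.lf (nat_lit 62423) (.g (nat_lit 1200) (.e (nat_lit 1582) (nat_lit 111) (.e (nat_lit 368384) (nat_lit 0) (.e (nat_lit 5905) (nat_lit 320) (.e (nat_lit 1219) (nat_lit 90) (.e (nat_lit 89856) (nat_lit 8) (.e (nat_lit 262148) (nat_lit 0) .nil)))))) (.g (nat_lit 4) .nil .nil))) 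
(.lf (nat_lit 62455) (.g (nat_lit 1878) (.e (nat_lit 1582) (nat_lit 111) (.e (nat_lit 360475) (nat_lit 8) (.e (nat_lit 557089) (nat_lit 12) (.e (nat_lit 164007) (nat_lit 41) .nil)))) .nil)))) (.nd (nat_lit 4) (.nd (nat_lit 5) 
(.lf (nat_lit 62415) (.g (nat_lit 1109) (.e (nat_lit 1582) (nat_lit 111) (.e (nat_lit 360451) (nat_lit 0) (.e (nat_lit 7710) (nat_lit 414) (.e (nat_lit 163923) (nat_lit 15) .nil)))) .nil)) 
(.lf (nat_lit 62447) (.g (nat_lit 718) (.e (nat_lit 1582) (nat_lit 111) (.e (nat_lit 360475) (nat_lit 8) (.e (nat_lit 557089) (nat_lit 12) .nil))) .nil))) (.nd (nat_lit 5) 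
(.lf (nat_lit 62431) (.g (nat_lit 1398) (.e (nat_lit 1582) (nat_lit 111) (.e (nat_lit 360473) (nat_lit 8) (.e (nat_lit 557090) (nat_lit 12) .nil))) .nil)) 
(.lf (nat_lit 62463) (.g (nat_lit 2301) (.e (nat_lit 1582) (nat_lit 111) (.e (nat_lit 360475) (nat_lit 8) (.e (nat_lit 557090) (nat_lit 12) (.e (nat_lit 164020) (nat_lit 45) (.e (nat_lit 696343) (nat_lit 8) .nil))))) .nil))))))))

noncomputable def tv856 : DT := (.nd (nat_lit 0) (.nd (nat_lit 1) (.nd (nat_lit 2) (.nd (nat_lit 3) (.nd (nat_lit 4) (.nd (nat_lit 5) 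
(.lf (nat_lit 62464) (.g (nat_lit 4674) (.e (nat_lit 1582) (nat_lit 111) (.e (nat_lit 360475) (nat_lit 8) (.e (nat_lit 557090) (nat_lit 12) (.e (nat_lit 164020) (nat_lit 45) (.e (nat_lit 696344) (nat_lit 8) (.e (nat_lit 172064) (nat_lit 2) (.e (nat_lit 204544) (nat_lit 9) .nil))))))) (.g (nat_lit 6) .nil .nil))) 
(.lf (nat_lit 62496) (.g (nat_lit 1222) (.e (nat_lit 1582) (nat_lit 111) (.e (nat_lit 360477) (nat_lit 11) (.e (nat_lit 581651) (nat_lit 4) (.e (nat_lit 172079) (nat_lit 7) (.e (nat_lit 409633) (nat_lit 13) .nil))))) .nil))) (.nd (nat_lit 5) 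
(.lf (nat_lit 62480) (.g (nat_lit 2356) (.e (nat_lit 1582) (nat_lit 111) (.e (nat_lit 360475) (nat_lit 8) (.e (nat_lit 557091) (nat_lit 12) (.e (nat_lit 164010) (nat_lit 41) .nil)))) .nil)) 
(.lf (nat_lit 62512) (.g (nat_lit 2093) (.e (nat_lit 1582) (nat_lit 111) (.e (nat_lit 360486) (nat_lit 18) (.e (nat_lit 671748) (nat_lit 0) (.e (nat_lit 1589) (nat_lit 111) (.e (nat_lit 360486) (nat_lit 18) (.e (nat_lit 671753) (nat_lit 0) .nil)))))) (.g (nat_lit 5) .nil .nil))))) (.nd (nat_lit 4) (.nd (nat_lit 5) 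
(.lf (nat_lit 62472) (.g (nat_lit 2356) (.e (nat_lit 1582) (nat_lit 111) (.e (nat_lit 360475) (nat_lit 8) (.e (nat_lit 557091) (nat_lit 12) (.e (nat_lit 164004) (nat_lit 41) .nil)))) .nil)) 
(.lf (nat_lit 62504) (.g (nat_lit 1767) (.e (nat_lit 1582) (nat_lit 111) (.e (nat_lit 360480) (nat_lit 14) (.e (nat_lit 638986) (nat_lit 5) (.e (nat_lit 3015) (nat_lit 187) (.e (nat_lit 450562) (nat_lit 0) (.e (nat_lit 5120) (nat_lit 292) (.e (nat_lit 1079) (nat_lit 81) .nil))))))) (.g (nat_lit 5) .nil .nil)))) (.nd (nat_lit 5) 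
(.lf (nat_lit 62488) (.g (nat_lit 2665) (.e (nat_lit 1582) (nat_lit 111) (.e (nat_lit 360475) (nat_lit 8) (.e (nat_lit 557119) (nat_lit 18) (.e (nat_lit 2798) (nat_lit 180) (.e (nat_lit 303124) (nat_lit 7) .nil))))) .nil)) 
(.lf (nat_lit 62520) (.g (nat_lit 777) (.e (nat_lit 1582) (nat_lit 111) (.e (nat_lit 360488) (nat_lit 20) (.e (nat_lit 761868) (nat_lit 5) (.e (nat_lit 1597) (nat_lit 111) .nil)))) .nil))))) (.nd (nat_lit 3) (.nd (nat_lit 4) (.nd (nat_lit 5) 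
(.lf (nat_lit 62468) (.g (nat_lit 3372) (.e (nat_lit 1582) (nat_lit 111) (.e (nat_lit 360475) (nat_lit 8) (.e (nat_lit 557091) (nat_lit 12) (.e (nat_lit 163999) (nat_lit 38) (.e (nat_lit 639020) (nat_lit 16) (.e (nat_lit 65578) (nat_lit 6) (.e (nat_lit 147459) (nat_lit 0) .nil))))))) (.g (nat_lit 6) .nil .nil))) 
(.lf (nat_lit 62500) (.g (nat_lit 895) (.e (nat_lit 1582) (nat_lit 111) (.e (nat_lit 360477) (nat_lit 11) (.e (nat_lit 581651) (nat_lit 4) (.e (nat_lit 172082) (nat_lit 7) .nil)))) .nil))) (.nd (nat_lit 5) 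
(.lf (nat_lit 62484) (.g (nat_lit 2441) (.e (nat_lit 1582) (nat_lit 111) (.e (nat_lit 360475) (nat_lit 8) (.e (nat_lit 557119) (nat_lit 18) (.e (nat_lit 2797) (nat_lit 180) (.e (nat_lit 303143) (nat_lit 12) (.e (nat_lit 475190) (nat_lit 35) (.e (nat_lit 606217) (nat_lit 0) .nil))))))) (.g (nat_lit 4) .nil .nil))) 
(.lf (nat_lit 62516) (.g (nat_lit 355) (.e (nat_lit 1582) (nat_lit 111) (.e (nat_lit 360486) (nat_lit 18) (.e (nat_lit 671764) (nat_lit 6) .nil))) .nil)))) (.nd (nat_lit 4) (.nd (nat_lit 5) 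
(.lf (nat_lit 62476) (.g (nat_lit 2356) (.e (nat_lit 1582) (nat_lit 111) (.e (nat_lit 360475) (nat_lit 8) (.e (nat_lit 557091) (nat_lit 12) (.e (nat_lit 164007) (nat_lit 41) .nil)))) .nil)) 
(.lf (nat_lit 62508) (.g (nat_lit 802) (.e (nat_lit 1582) (nat_lit 111) (.e (nat_lit 360486) (nat_lit 18) (.e (nat_lit 671748) (nat_lit 0) (.e (nat_lit 1562) (nat_lit 110) .nil)))) .nil))) (.nd (nat_lit 5) 
(.lf (nat_lit 62492) (.g (nat_lit 2160) (.e (nat_lit 1582) (nat_lit 111) (.e (nat_lit 360475) (nat_lit 8) (.e (nat_lit 557119) (nat_lit 18) (.e (nat_lit 2807) (nat_lit 180) (.e (nat_lit 303137) (nat_lit 10) .nil))))) .nil)) 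
(.lf (nat_lit 62524) (.g (nat_lit 1604) (.e (nat_lit 1582) (nat_lit 111) (.e (nat_lit 360489) (nat_lit 21) (.e (nat_lit 770055) (nat_lit 5) (.e (nat_lit 1598) (nat_lit 111) (.e (nat_lit 360488) (nat_lit 20) (.e (nat_lit 761866) (nat_lit 5) .nil)))))) (.g (nat_lit 0) .nil .nil))))))) (.nd (nat_lit 2) (.nd (nat_lit 3) (.nd (nat_lit 4) (.nd (nat_lit 5) 
(.lf (nat_lit 62466) (.g (nat_lit 687) (.e (nat_lit 1582) (nat_lit 111) (.e (nat_lit 360475) (nat_lit 8) (.e (nat_lit 557091) (nat_lit 12) .nil))) .nil)) 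
(.lf (nat_lit 62498) (.g (nat_lit 1741) (.e (nat_lit 1582) (nat_lit 111) (.e (nat_lit 360477) (nat_lit 11) (.e (nat_lit 581651) (nat_lit 4) (.e (nat_lit 172080) (nat_lit 7) (.e (nat_lit 409634) (nat_lit 13) (.e (nat_lit 40964) (nat_lit 0) .nil)))))) (.g (nat_lit 0) .nil .nil)))) (.nd (nat_lit 5) 
(.lf (nat_lit 62482) (.g (nat_lit 1731) (.e (nat_lit 1582) (nat_lit 111) (.e (nat_lit 360475) (nat_lit 8) (.e (nat_lit 557119) (nat_lit 18) (.e (nat_lit 2449) (nat_lit 157) .nil)))) .nil)) 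
(.lf (nat_lit 62514) (.g (nat_lit 1739) (.e (nat_lit 1582) (nat_lit 111) (.e (nat_lit 360486) (nat_lit 18) (.e (nat_lit 671748) (nat_lit 0) (.e (nat_lit 1598) (nat_lit 111) (.e (nat_lit 360486) (nat_lit 18) (.e (nat_lit 671753) (nat_lit 0) .nil)))))) (.g (nat_lit 5) .nil .nil))))) (.nd (nat_lit 4) (.nd (nat_lit 5) 
(.lf (nat_lit 62474) (.g (nat_lit 1969) (.e (nat_lit 1582) (nat_lit 111) (.e (nat_lit 360475) (nat_lit 8) (.e (nat_lit 557091) (nat_lit 12) (.e (nat_lit 164006) (nat_lit 41) .nil)))) .nil)) 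
(.lf (nat_lit 62506) (.g (nat_lit 356) (.e (nat_lit 1582) (nat_lit 111) (.e (nat_lit 360486) (nat_lit 18) (.e (nat_lit 671748) (nat_lit 0) .nil))) .nil))) (.nd (nat_lit 5) 
(.lf (nat_lit 62490) (.g (nat_lit 3796) (.e (nat_lit 1582) (nat_lit 111) (.e (nat_lit 360475) (nat_lit 8) (.e (nat_lit 557119) (nat_lit 18) (.e (nat_lit 2798) (nat_lit 180) (.e (nat_lit 303133) (nat_lit 9) (.e (nat_lit 426412) (nat_lit 15) (.e (nat_lit 1915) (nat_lit 130) (.e (nat_lit 606217) (nat_lit 0) .nil)))))))) (.g (nat_lit 6) .nil .nil))) 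
(.lf (nat_lit 62522) (.g (nat_lit 1761) (.e (nat_lit 1582) (nat_lit 111) (.e (nat_lit 360489) (nat_lit 21) (.e (nat_lit 770055) (nat_lit 5) (.e (nat_lit 1589) (nat_lit 111) (.e (nat_lit 360488) (nat_lit 20) (.e (nat_lit 761869) (nat_lit 5) .nil)))))) (.g (nat_lit 5) .nil .nil)))))) (.nd (nat_lit 3) (.nd (nat_lit 4) (.nd (nat_lit 5) 
(.lf (nat_lit 62470) (.g (nat_lit 3596) (.e (nat_lit 1582) (nat_lit 111) (.e (nat_lit 360475) (nat_lit 8) (.e (nat_lit 557091) (nat_lit 12) (.e (nat_lit 163999) (nat_lit 38) (.e (nat_lit 639020) (nat_lit 16) (.e (nat_lit 65580) (nat_lit 6) (.e (nat_lit 147458) (nat_lit 0) .nil))))))) (.g (nat_lit 6) .nil .nil))) 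
(.lf (nat_lit 62502) (.g (nat_lit 395) (.e (nat_lit 1582) (nat_lit 111) (.e (nat_lit 360477) (nat_lit 11) (.e (nat_lit 581652) (nat_lit 5) .nil))) .nil))) (.nd (nat_lit 5) 
(.lf (nat_lit 62486) (.g (nat_lit 2451) (.e (nat_lit 1582) (nat_lit 111) (.e (nat_lit 360475) (nat_lit 8) (.e (nat_lit 557119) (nat_lit 18) (.e (nat_lit 2798) (nat_lit 180) (.e (nat_lit 303112) (nat_lit 0) (.e (nat_lit 7008) (nat_lit 377) (.e (nat_lit 2579) (nat_lit 161) (.e (nat_lit 40965) (nat_lit 0) .nil)))))))) (.g (nat_lit 4) .nil .nil))) 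
(.lf (nat_lit 62518) (.g (nat_lit 570) (.e (nat_lit 1582) (nat_lit 111) (.e (nat_lit 360488) (nat_lit 20) (.e (nat_lit 761867) (nat_lit 5) .nil))) .nil)))) (.nd (nat_lit 4) (.nd (nat_lit 5) 
(.lf (nat_lit 62478) (.g (nat_lit 1941) (.e (nat_lit 1582) (nat_lit 111) (.e (nat_lit 360475) (nat_lit 8) (.e (nat_lit 557091) (nat_lit 12) (.e (nat_lit 164008) (nat_lit 41) .nil)))) .nil)) 
(.lf (nat_lit 62510) (.g (nat_lit 1077) (.e (nat_lit 1582) (nat_lit 111) (.e (nat_lit 360486) (nat_lit 18) (.e (nat_lit 671748) (nat_lit 0) (.e (nat_lit 1575) (nat_lit 110) (.e (nat_lit 352270) (nat_lit 8) .nil))))) .nil))) (.nd (nat_lit 5) 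
(.lf (nat_lit 62494) (.g (nat_lit 459) (.e (nat_lit 1582) (nat_lit 111) (.e (nat_lit 360477) (nat_lit 11) (.e (nat_lit 581651) (nat_lit 4) .nil))) .nil)) 
(.lf (nat_lit 62526) (.g (nat_lit 1977) (.e (nat_lit 1582) (nat_lit 111) (.e (nat_lit 360489) (nat_lit 21) (.e (nat_lit 770057) (nat_lit 5) (.e (nat_lit 1589) (nat_lit 111) (.e (nat_lit 360488) (nat_lit 20) (.e (nat_lit 761866) (nat_lit 5) .nil)))))) (.g (nat_lit 0) .nil .nil)))))))) (.nd (nat_lit 1) (.nd (nat_lit 2) (.nd (nat_lit 3) (.nd (nat_lit 4) (.nd (nat_lit 5) 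
(.lf (nat_lit 62465) (.g (nat_lit 2899) (.e (nat_lit 1582) (nat_lit 111) (.e (nat_lit 360475) (nat_lit 8) (.e (nat_lit 557090) (nat_lit 12) (.e (nat_lit 164020) (nat_lit 45) (.e (nat_lit 696344) (nat_lit 8) (.e (nat_lit 172071) (nat_lit 5) (.e (nat_lit 253696) (nat_lit 9) .nil))))))) (.g (nat_lit 4) .nil .nil))) 
(.lf (nat_lit 62497) (.g (nat_lit 1827) (.e (nat_lit 1582) (nat_lit 111) (.e (nat_lit 360477) (nat_lit 11) (.e (nat_lit 581651) (nat_lit 4) (.e (nat_lit 172079) (nat_lit 7) (.e (nat_lit 409634) (nat_lit 13) (.e (nat_lit 40964) (nat_lit 0) .nil)))))) (.g (nat_lit 6) .nil .nil)))) (.nd (nat_lit 5) 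
(.lf (nat_lit 62481) (.g (nat_lit 530) (.e (nat_lit 1582) (nat_lit 111) (.e (nat_lit 360475) (nat_lit 8) (.e (nat_lit 557119) (nat_lit 18) .nil))) .nil)) 
(.lf (nat_lit 62513) (.g (nat_lit 2077) (.e (nat_lit 1582) (nat_lit 111) (.e (nat_lit 360486) (nat_lit 18) (.e (nat_lit 671748) (nat_lit 0) (.e (nat_lit 1595) (nat_lit 111) (.e (nat_lit 360486) (nat_lit 18) (.e (nat_lit 671753) (nat_lit 0) .nil)))))) (.g (nat_lit 0) .nil .nil))))) (.nd (nat_lit 4) (.nd (nat_lit 5) 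
(.lf (nat_lit 62473) (.g (nat_lit 2318) (.e (nat_lit 1582) (nat_lit 111) (.e (nat_lit 360475) (nat_lit 8) (.e (nat_lit 557091) (nat_lit 12) (.e (nat_lit 164005) (nat_lit 41) .nil)))) .nil)) 
(.lf (nat_lit 62505) (.g (nat_lit 789) (.e (nat_lit 1582) (nat_lit 111) (.e (nat_lit 360486) (nat_lit 18) (.e (nat_lit 671747) (nat_lit 0) (.e (nat_lit 1595) (nat_lit 111) .nil)))) .nil))) (.nd (nat_lit 5) 
(.lf (nat_lit 62489) (.g (nat_lit 3540) (.e (nat_lit 1582) (nat_lit 111) (.e (nat_lit 360475) (nat_lit 8) (.e (nat_lit 557119) (nat_lit 18) (.e (nat_lit 2798) (nat_lit 180) (.e (nat_lit 303124) (nat_lit 7) (.e (nat_lit 409634) (nat_lit 13) (.e (nat_lit 40964) (nat_lit 0) .nil))))))) (.g (nat_lit 6) .nil .nil))) 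
(.lf (nat_lit 62521) (.g (nat_lit 569) (.e (nat_lit 1582) (nat_lit 111) (.e (nat_lit 360488) (nat_lit 20) (.e (nat_lit 761869) (nat_lit 5) .nil))) .nil))))) (.nd (nat_lit 3) (.nd (nat_lit 4) (.nd (nat_lit 5) 
(.lf (nat_lit 62469) (.g (nat_lit 3794) (.e (nat_lit 1582) (nat_lit 111) (.e (nat_lit 360475) (nat_lit 8) (.e (nat_lit 557091) (nat_lit 12) (.e (nat_lit 163999) (nat_lit 38) (.e (nat_lit 639020) (nat_lit 16) (.e (nat_lit 65578) (nat_lit 6) (.e (nat_lit 147460) (nat_lit 0) .nil))))))) (.g (nat_lit 0) .nil .nil))) 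
(.lf (nat_lit 62501) (.g (nat_lit 1979) (.e (nat_lit 1582) (nat_lit 111) (.e (nat_lit 360477) (nat_lit 11) (.e (nat_lit 581651) (nat_lit 4) (.e (nat_lit 172082) (nat_lit 7) (.e (nat_lit 409634) (nat_lit 13) (.e (nat_lit 40964) (nat_lit 0) .nil)))))) (.g (nat_lit 0) .nil .nil)))) (.nd (nat_lit 5) 
(.lf (nat_lit 62485) (.g (nat_lit 1570) (.e (nat_lit 1582) (nat_lit 111) (.e (nat_lit 360475) (nat_lit 8) (.e (nat_lit 557119) (nat_lit 18) (.e (nat_lit 2798) (nat_lit 180) .nil)))) .nil)) 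
(.lf (nat_lit 62517) (.g (nat_lit 569) (.e (nat_lit 1582) (nat_lit 111) (.e (nat_lit 360488) (nat_lit 20) (.e (nat_lit 761866) (nat_lit 5) .nil))) .nil)))) (.nd (nat_lit 4) (.nd (nat_lit 5) 
(.lf (nat_lit 62477) (.g (nat_lit 3326) (.e (nat_lit 1582) (nat_lit 111) (.e (nat_lit 360475) (nat_lit 8) (.e (nat_lit 557091) (nat_lit 12) (.e (nat_lit 164007) (nat_lit 41) (.e (nat_lit 663583) (nat_lit 11) (.e (nat_lit 24615) (nat_lit 6) (.e (nat_lit 147460) (nat_lit 0) .nil))))))) (.g (nat_lit 6) .nil .nil))) 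
(.lf (nat_lit 62509) (.g (nat_lit 797) (.e (nat_lit 1582) (nat_lit 111) (.e (nat_lit 360486) (nat_lit 18) (.e (nat_lit 671748) (nat_lit 0) (.e (nat_lit 1569) (nat_lit 110) .nil)))) .nil))) (.nd (nat_lit 5) 
(.lf (nat_lit 62493) (.g (nat_lit 1625) (.e (nat_lit 1582) (nat_lit 111) (.e (nat_lit 360475) (nat_lit 8) (.e (nat_lit 557119) (nat_lit 18) (.e (nat_lit 2808) (nat_lit 180) .nil)))) .nil)) 
(.lf (nat_lit 62525) (.g (nat_lit 1548) (.e (nat_lit 1582) (nat_lit 111) (.e (nat_lit 360489) (nat_lit 21) (.e (nat_lit 770056) (nat_lit 5) (.e (nat_lit 1598) (nat_lit 111) (.e (nat_lit 360488) (nat_lit 20) (.e (nat_lit 761866) (nat_lit 5) .nil)))))) (.g (nat_lit 0) .nil .nil))))))) (.nd (nat_lit 2) (.nd (nat_lit 3) (.nd (nat_lit 4) (.nd (nat_lit 5) 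
(.lf (nat_lit 62467) (.g (nat_lit 1789) (.e (nat_lit 1582) (nat_lit 111) (.e (nat_lit 360475) (nat_lit 8) (.e (nat_lit 557091) (nat_lit 12) (.e (nat_lit 163999) (nat_lit 38) .nil)))) .nil)) 
(.lf (nat_lit 62499) (.g (nat_lit 1637) (.e (nat_lit 1582) (nat_lit 111) (.e (nat_lit 360477) (nat_lit 11) (.e (nat_lit 581651) (nat_lit 4) (.e (nat_lit 172081) (nat_lit 7) (.e (nat_lit 409634) (nat_lit 13) (.e (nat_lit 40964) (nat_lit 0) .nil)))))) (.g (nat_lit 0) .nil .nil)))) (.nd (nat_lit 5) 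
(.lf (nat_lit 62483) (.g (nat_lit 1576) (.e (nat_lit 1582) (nat_lit 111) (.e (nat_lit 360475) (nat_lit 8) (.e (nat_lit 557119) (nat_lit 18) (.e (nat_lit 2797) (nat_lit 180) .nil)))) .nil)) 
(.lf (nat_lit 62515) (.g (nat_lit 1604) (.e (nat_lit 1582) (nat_lit 111) (.e (nat_lit 360486) (nat_lit 18) (.e (nat_lit 671748) (nat_lit 0) (.e (nat_lit 1599) (nat_lit 111) (.e (nat_lit 360486) (nat_lit 18) (.e (nat_lit 671753) (nat_lit 0) .nil)))))) (.g (nat_lit 5) .nil .nil))))) (.nd (nat_lit 4) (.nd (nat_lit 5) 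
(.lf (nat_lit 62475) (.g (nat_lit 3227) (.e (nat_lit 1582) (nat_lit 111) (.e (nat_lit 360475) (nat_lit 8) (.e (nat_lit 557091) (nat_lit 12) (.e (nat_lit 164006) (nat_lit 41) (.e (nat_lit 663583) (nat_lit 11) (.e (nat_lit 24615) (nat_lit 6) (.e (nat_lit 147460) (nat_lit 0) .nil))))))) (.g (nat_lit 6) .nil .nil))) 
(.lf (nat_lit 62507) (.g (nat_lit 808) (.e (nat_lit 1582) (nat_lit 111) (.e (nat_lit 360486) (nat_lit 18) (.e (nat_lit 671748) (nat_lit 0) (.e (nat_lit 1559) (nat_lit 110) .nil)))) .nil))) (.nd (nat_lit 5) 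
(.lf (nat_lit 62491) (.g (nat_lit 2262) (.e (nat_lit 1582) (nat_lit 111) (.e (nat_lit 360475) (nat_lit 8) (.e (nat_lit 557119) (nat_lit 18) (.e (nat_lit 2798) (nat_lit 180) (.e (nat_lit 303140) (nat_lit 10) .nil))))) .nil)) 
(.lf (nat_lit 62523) (.g (nat_lit 1046) (.e (nat_lit 1582) (nat_lit 111) (.e (nat_lit 360489) (nat_lit 21) (.e (nat_lit 770055) (nat_lit 5) (.e (nat_lit 1595) (nat_lit 111) (.e (nat_lit 360488) (nat_lit 20) .nil))))) .nil))))) (.nd (nat_lit 3) (.nd (nat_lit 4) (.nd (nat_lit 5) 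
(.lf (nat_lit 62471) (.g (nat_lit 2138) (.e (nat_lit 1582) (nat_lit 111) (.e (nat_lit 360475) (nat_lit 8) (.e (nat_lit 557091) (nat_lit 12) (.e (nat_lit 164000) (nat_lit 38) .nil)))) .nil)) 
(.lf (nat_lit 62503) (.g (nat_lit 873) (.e (nat_lit 1582) (nat_lit 111) (.e (nat_lit 360480) (nat_lit 14) (.e (nat_lit 638983) (nat_lit 5) (.e (nat_lit 3015) (nat_lit 187) (.e (nat_lit 450562) (nat_lit 0) .nil))))) .nil))) (.nd (nat_lit 5) 
(.lf (nat_lit 62487) (.g (nat_lit 2399) (.e (nat_lit 1582) (nat_lit 111) (.e (nat_lit 360475) (nat_lit 8) (.e (nat_lit 557119) (nat_lit 18) (.e (nat_lit 2798) (nat_lit 180) (.e (nat_lit 303123) (nat_lit 7) .nil))))) .nil)) 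
(.lf (nat_lit 62519) (.g (nat_lit 566) (.e (nat_lit 1582) (nat_lit 111) (.e (nat_lit 360488) (nat_lit 20) (.e (nat_lit 761868) (nat_lit 5) .nil))) .nil)))) (.nd (nat_lit 4) (.nd (nat_lit 5) 
(.lf (nat_lit 62479) (.g (nat_lit 2356) (.e (nat_lit 1582) (nat_lit 111) (.e (nat_lit 360475) (nat_lit 8) (.e (nat_lit 557091) (nat_lit 12) (.e (nat_lit 164009) (nat_lit 41) .nil)))) .nil)) 
(.lf (nat_lit 62511) (.g (nat_lit 2119) (.e (nat_lit 1582) (nat_lit 111) (.e (nat_lit 360486) (nat_lit 18) (.e (nat_lit 671748) (nat_lit 0) (.e (nat_lit 1586) (nat_lit 111) (.e (nat_lit 360486) (nat_lit 18) (.e (nat_lit 671753) (nat_lit 0) .nil)))))) (.g (nat_lit 6) .nil .nil)))) (.nd (nat_lit 5) 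
(.lf (nat_lit 62495) (.g (nat_lit 828) (.e (nat_lit 1582) (nat_lit 111) (.e (nat_lit 360477) (nat_lit 11) (.e (nat_lit 581651) (nat_lit 4) (.e (nat_lit 172079) (nat_lit 7) .nil)))) .nil)) 
(.lf (nat_lit 62527) (.g (nat_lit 1773) (.e (nat_lit 1582) (nat_lit 111) (.e (nat_lit 360489) (nat_lit 21) (.e (nat_lit 770057) (nat_lit 5) (.e (nat_lit 1595) (nat_lit 111) (.e (nat_lit 360488) (nat_lit 20) (.e (nat_lit 761866) (nat_lit 5) .nil)))))) (.g (nat_lit 0) .nil .nil)))))))))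

noncomputable def tv857 : DT := (.nd (nat_lit 0) (.nd (nat_lit 1) (.nd (nat_lit 2) (.nd (nat_lit 3) (.nd (nat_lit 4) (.nd (nat_lit 5) 
(.lf (nat_lit 62528) (.g (nat_lit 1701) (.e (nat_lit 1582) (nat_lit 111) (.e (nat_lit 360489) (nat_lit 21) (.e (nat_lit 770057) (nat_lit 5) (.e (nat_lit 1595) (nat_lit 111) (.e (nat_lit 360488) (nat_lit 20) (.e (nat_lit 761868) (nat_lit 5) .nil)))))) (.g (nat_lit 0) .nil .nil))) 
(.lf (nat_lit 62560) (.g (nat_lit 2163) (.e (nat_lit 1582) (nat_lit 111) (.e (nat_lit 360489) (nat_lit 21) (.e (nat_lit 770072) (nat_lit 8) (.e (nat_lit 65598) (nat_lit 9) (.e (nat_lit 335921) (nat_lit 0) (.e (nat_lit 2270) (nat_lit 149) (.e (nat_lit 761868) (nat_lit 5) .nil))))))) (.g (nat_lit 6) .nil .nil)))) (.nd (nat_lit 5) 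
(.lf (nat_lit 62544) (.g (nat_lit 2043) (.e (nat_lit 1582) (nat_lit 111) (.e (nat_lit 360489) (nat_lit 21) (.e (nat_lit 770071) (nat_lit 8) (.e (nat_lit 65611) (nat_lit 10) (.e (nat_lit 344174) (nat_lit 42) (.e (nat_lit 761866) (nat_lit 5) .nil)))))) (.g (nat_lit 6) .nil .nil))) 
(.lf (nat_lit 62576) (.g (nat_lit 2482) (.e (nat_lit 1582) (nat_lit 111) (.e (nat_lit 360489) (nat_lit 21) (.e (nat_lit 770072) (nat_lit 8) (.e (nat_lit 65619) (nat_lit 10) (.e (nat_lit 344174) (nat_lit 42) (.e (nat_lit 761866) (nat_lit 5) .nil)))))) (.g (nat_lit 0) .nil .nil))))) (.nd (nat_lit 4) (.nd (nat_lit 5) 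
(.lf (nat_lit 62536) (.g (nat_lit 1390) (.e (nat_lit 1582) (nat_lit 111) (.e (nat_lit 360489) (nat_lit 21) (.e (nat_lit 770058) (nat_lit 5) (.e (nat_lit 1599) (nat_lit 111) (.e (nat_lit 360488) (nat_lit 20) (.e (nat_lit 761868) (nat_lit 5) .nil)))))) (.g (nat_lit 0) .nil .nil))) 
(.lf (nat_lit 62568) (.g (nat_lit 1845) (.e (nat_lit 1582) (nat_lit 111) (.e (nat_lit 360489) (nat_lit 21) (.e (nat_lit 770072) (nat_lit 8) (.e (nat_lit 65611) (nat_lit 10) (.e (nat_lit 344174) (nat_lit 42) (.e (nat_lit 761868) (nat_lit 5) .nil)))))) (.g (nat_lit 0) .nil .nil)))) (.nd (nat_lit 5) 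
(.lf (nat_lit 62552) (.g (nat_lit 2259) (.e (nat_lit 1582) (nat_lit 111) (.e (nat_lit 360489) (nat_lit 21) (.e (nat_lit 770071) (nat_lit 8) (.e (nat_lit 65617) (nat_lit 10) (.e (nat_lit 344174) (nat_lit 42) (.e (nat_lit 761869) (nat_lit 5) .nil)))))) (.g (nat_lit 6) .nil .nil))) 
(.lf (nat_lit 62584) (.g (nat_lit 1828) (.e (nat_lit 1582) (nat_lit 111) (.e (nat_lit 360489) (nat_lit 21) (.e (nat_lit 770074) (nat_lit 10) (.e (nat_lit 81943) (nat_lit 20) (.e (nat_lit 2270) (nat_lit 149) (.e (nat_lit 761868) (nat_lit 5) .nil)))))) (.g (nat_lit 5) .nil .nil)))))) (.nd (nat_lit 3) (.nd (nat_lit 4) (.nd (nat_lit 5) 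
(.lf (nat_lit 62532) (.g (nat_lit 1738) (.e (nat_lit 1582) (nat_lit 111) (.e (nat_lit 360489) (nat_lit 21) (.e (nat_lit 770058) (nat_lit 5) (.e (nat_lit 1595) (nat_lit 111) (.e (nat_lit 360488) (nat_lit 20) (.e (nat_lit 761866) (nat_lit 5) .nil)))))) (.g (nat_lit 0) .nil .nil))) 
(.lf (nat_lit 62564) (.g (nat_lit 1794) (.e (nat_lit 1582) (nat_lit 111) (.e (nat_lit 360489) (nat_lit 21) (.e (nat_lit 770072) (nat_lit 8) (.e (nat_lit 65610) (nat_lit 10) (.e (nat_lit 344173) (nat_lit 42) (.e (nat_lit 761868) (nat_lit 5) .nil)))))) (.g (nat_lit 6) .nil .nil)))) (.nd (nat_lit 5) 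
(.lf (nat_lit 62548) (.g (nat_lit 1774) (.e (nat_lit 1582) (nat_lit 111) (.e (nat_lit 360489) (nat_lit 21) (.e (nat_lit 770071) (nat_lit 8) (.e (nat_lit 65616) (nat_lit 10) (.e (nat_lit 344174) (nat_lit 42) (.e (nat_lit 761868) (nat_lit 5) .nil)))))) (.g (nat_lit 6) .nil .nil))) 
(.lf (nat_lit 62580) (.g (nat_lit 1958) (.e (nat_lit 1582) (nat_lit 111) (.e (nat_lit 360489) (nat_lit 21) (.e (nat_lit 770072) (nat_lit 8) (.e (nat_lit 65620) (nat_lit 10) (.e (nat_lit 344174) (nat_lit 42) (.e (nat_lit 761869) (nat_lit 5) .nil)))))) (.g (nat_lit 6) .nil .nil))))) (.nd (nat_lit 4) (.nd (nat_lit 5) 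
(.lf (nat_lit 62540) (.g (nat_lit 1358) (.e (nat_lit 1582) (nat_lit 111) (.e (nat_lit 360489) (nat_lit 21) (.e (nat_lit 770071) (nat_lit 8) (.e (nat_lit 65610) (nat_lit 10) (.e (nat_lit 344173) (nat_lit 42) (.e (nat_lit 761868) (nat_lit 5) .nil)))))) (.g (nat_lit 4) .nil .nil))) 
(.lf (nat_lit 62572) (.g (nat_lit 2407) (.e (nat_lit 1582) (nat_lit 111) (.e (nat_lit 360489) (nat_lit 21) (.e (nat_lit 770072) (nat_lit 8) (.e (nat_lit 65617) (nat_lit 10) (.e (nat_lit 344174) (nat_lit 42) (.e (nat_lit 761866) (nat_lit 5) .nil)))))) (.g (nat_lit 0) .nil .nil)))) (.nd (nat_lit 5) 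
(.lf (nat_lit 62556) (.g (nat_lit 2169) (.e (nat_lit 1582) (nat_lit 111) (.e (nat_lit 360489) (nat_lit 21) (.e (nat_lit 770071) (nat_lit 8) (.e (nat_lit 65620) (nat_lit 10) (.e (nat_lit 344174) (nat_lit 42) (.e (nat_lit 761866) (nat_lit 5) .nil)))))) (.g (nat_lit 0) .nil .nil))) 
(.lf (nat_lit 62588) (.g (nat_lit 1900) (.e (nat_lit 1582) (nat_lit 111) (.e (nat_lit 360489) (nat_lit 21) (.e (nat_lit 770074) (nat_lit 10) (.e (nat_lit 81959) (nat_lit 24) (.e (nat_lit 123050) (nat_lit 152) (.e (nat_lit 1078) (nat_lit 81) .nil)))))) (.g (nat_lit 4) .nil .nil))))))) (.nd (nat_lit 2) (.nd (nat_lit 3) (.nd (nat_lit 4) (.nd (nat_lit 5) 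
(.lf (nat_lit 62530) (.g (nat_lit 1368) (.e (nat_lit 1582) (nat_lit 111) (.e (nat_lit 360489) (nat_lit 21) (.e (nat_lit 770057) (nat_lit 5) (.e (nat_lit 1599) (nat_lit 111) (.e (nat_lit 360488) (nat_lit 20) (.e (nat_lit 761868) (nat_lit 5) .nil)))))) (.g (nat_lit 0) .nil .nil))) 
(.lf (nat_lit 62562) (.g (nat_lit 1322) (.e (nat_lit 1582) (nat_lit 111) (.e (nat_lit 360489) (nat_lit 21) (.e (nat_lit 770072) (nat_lit 8) (.e (nat_lit 65609) (nat_lit 10) (.e (nat_lit 344174) (nat_lit 42) (.e (nat_lit 761866) (nat_lit 5) .nil)))))) (.g (nat_lit 4) .nil .nil)))) (.nd (nat_lit 5) 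
(.lf (nat_lit 62546) (.g (nat_lit 1993) (.e (nat_lit 1582) (nat_lit 111) (.e (nat_lit 360489) (nat_lit 21) (.e (nat_lit 770071) (nat_lit 8) (.e (nat_lit 65611) (nat_lit 10) (.e (nat_lit 344174) (nat_lit 42) (.e (nat_lit 761869) (nat_lit 5) .nil)))))) (.g (nat_lit 6) .nil .nil))) 
(.lf (nat_lit 62578) (.g (nat_lit 2182) (.e (nat_lit 1582) (nat_lit 111) (.e (nat_lit 360489) (nat_lit 21) (.e (nat_lit 770072) (nat_lit 8) (.e (nat_lit 65620) (nat_lit 10) (.e (nat_lit 344174) (nat_lit 42) (.e (nat_lit 761866) (nat_lit 5) .nil)))))) (.g (nat_lit 0) .nil .nil))))) (.nd (nat_lit 4) (.nd (nat_lit 5) 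
(.lf (nat_lit 62538) (.g (nat_lit 754) (.e (nat_lit 1582) (nat_lit 111) (.e (nat_lit 360489) (nat_lit 21) (.e (nat_lit 770071) (nat_lit 8) (.e (nat_lit 65609) (nat_lit 10) .nil)))) .nil)) 
(.lf (nat_lit 62570) (.g (nat_lit 1808) (.e (nat_lit 1582) (nat_lit 111) (.e (nat_lit 360489) (nat_lit 21) (.e (nat_lit 770072) (nat_lit 8) (.e (nat_lit 65616) (nat_lit 10) (.e (nat_lit 344174) (nat_lit 42) (.e (nat_lit 761868) (nat_lit 5) .nil)))))) (.g (nat_lit 0) .nil .nil)))) (.nd (nat_lit 5) 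
(.lf (nat_lit 62554) (.g (nat_lit 2288) (.e (nat_lit 1582) (nat_lit 111) (.e (nat_lit 360489) (nat_lit 21) (.e (nat_lit 770071) (nat_lit 8) (.e (nat_lit 65619) (nat_lit 10) (.e (nat_lit 344174) (nat_lit 42) (.e (nat_lit 761868) (nat_lit 5) .nil)))))) (.g (nat_lit 6) .nil .nil))) 
(.lf (nat_lit 62586) (.g (nat_lit 2809) (.e (nat_lit 1582) (nat_lit 111) (.e (nat_lit 360489) (nat_lit 21) (.e (nat_lit 770074) (nat_lit 10) (.e (nat_lit 81947) (nat_lit 20) (.e (nat_lit 2270) (nat_lit 149) (.e (nat_lit 761868) (nat_lit 5) .nil)))))) (.g (nat_lit 0) .nil .nil)))))) (.nd (nat_lit 3) (.nd (nat_lit 4) (.nd (nat_lit 5) 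
(.lf (nat_lit 62534) (.g (nat_lit 1640) (.e (nat_lit 1582) (nat_lit 111) (.e (nat_lit 360489) (nat_lit 21) (.e (nat_lit 770058) (nat_lit 5) (.e (nat_lit 1598) (nat_lit 111) (.e (nat_lit 360488) (nat_lit 20) (.e (nat_lit 761866) (nat_lit 5) .nil)))))) (.g (nat_lit 0) .nil .nil))) 
(.lf (nat_lit 62566) (.g (nat_lit 2087) (.e (nat_lit 1582) (nat_lit 111) (.e (nat_lit 360489) (nat_lit 21) (.e (nat_lit 770072) (nat_lit 8) (.e (nat_lit 65610) (nat_lit 10) (.e (nat_lit 344174) (nat_lit 42) (.e (nat_lit 761868) (nat_lit 5) .nil)))))) (.g (nat_lit 0) .nil .nil)))) (.nd (nat_lit 5) 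
(.lf (nat_lit 62550) (.g (nat_lit 2465) (.e (nat_lit 1582) (nat_lit 111) (.e (nat_lit 360489) (nat_lit 21) (.e (nat_lit 770071) (nat_lit 8) (.e (nat_lit 65617) (nat_lit 10) (.e (nat_lit 344174) (nat_lit 42) (.e (nat_lit 761866) (nat_lit 5) .nil)))))) (.g (nat_lit 0) .nil .nil))) 
(.lf (nat_lit 62582) (.g (nat_lit 2541) (.e (nat_lit 1582) (nat_lit 111) (.e (nat_lit 360489) (nat_lit 21) (.e (nat_lit 770074) (nat_lit 10) (.e (nat_lit 81938) (nat_lit 20) (.e (nat_lit 2270) (nat_lit 149) (.e (nat_lit 761868) (nat_lit 5) .nil)))))) (.g (nat_lit 0) .nil .nil))))) (.nd (nat_lit 4) (.nd (nat_lit 5) 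
(.lf (nat_lit 62542) (.g (nat_lit 2348) (.e (nat_lit 1582) (nat_lit 111) (.e (nat_lit 360489) (nat_lit 21) (.e (nat_lit 770071) (nat_lit 8) (.e (nat_lit 65610) (nat_lit 10) (.e (nat_lit 344174) (nat_lit 42) (.e (nat_lit 761866) (nat_lit 5) .nil)))))) (.g (nat_lit 0) .nil .nil))) 
(.lf (nat_lit 62574) (.g (nat_lit 2211) (.e (nat_lit 1582) (nat_lit 111) (.e (nat_lit 360489) (nat_lit 21) (.e (nat_lit 770072) (nat_lit 8) (.e (nat_lit 65617) (nat_lit 10) (.e (nat_lit 344174) (nat_lit 42) (.e (nat_lit 761869) (nat_lit 5) .nil)))))) (.g (nat_lit 6) .nil .nil)))) (.nd (nat_lit 5) 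
(.lf (nat_lit 62558) (.g (nat_lit 1952) (.e (nat_lit 1582) (nat_lit 111) (.e (nat_lit 360489) (nat_lit 21) (.e (nat_lit 770071) (nat_lit 8) (.e (nat_lit 65620) (nat_lit 10) (.e (nat_lit 344174) (nat_lit 42) (.e (nat_lit 761869) (nat_lit 5) .nil)))))) (.g (nat_lit 6) .nil .nil))) 
(.lf (nat_lit 62590) (.g (nat_lit 1568) (.e (nat_lit 1582) (nat_lit 111) (.e (nat_lit 360491) (nat_lit 22) (.e (nat_lit 778361) (nat_lit 9) (.e (nat_lit 324) (nat_lit 24) (.e (nat_lit 360488) (nat_lit 20) (.e (nat_lit 761868) (nat_lit 5) .nil)))))) (.g (nat_lit 0) .nil .nil)))))))) (.nd (nat_lit 1) (.nd (nat_lit 2) (.nd (nat_lit 3) (.nd (nat_lit 4) (.nd (nat_lit 5) 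
(.lf (nat_lit 62529) (.g (nat_lit 1592) (.e (nat_lit 1582) (nat_lit 111) (.e (nat_lit 360489) (nat_lit 21) (.e (nat_lit 770057) (nat_lit 5) (.e (nat_lit 1598) (nat_lit 111) (.e (nat_lit 360488) (nat_lit 20) (.e (nat_lit 761866) (nat_lit 5) .nil)))))) (.g (nat_lit 0) .nil .nil))) 
(.lf (nat_lit 62561) (.g (nat_lit 1499) (.e (nat_lit 1582) (nat_lit 111) (.e (nat_lit 360489) (nat_lit 21) (.e (nat_lit 770072) (nat_lit 8) (.e (nat_lit 65598) (nat_lit 9) (.e (nat_lit 335938) (nat_lit 0) (.e (nat_lit 2270) (nat_lit 149) (.e (nat_lit 761868) (nat_lit 5) .nil))))))) (.g (nat_lit 4) .nil .nil)))) (.nd (nat_lit 5) 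
(.lf (nat_lit 62545) (.g (nat_lit 1814) (.e (nat_lit 1582) (nat_lit 111) (.e (nat_lit 360489) (nat_lit 21) (.e (nat_lit 770071) (nat_lit 8) (.e (nat_lit 65611) (nat_lit 10) (.e (nat_lit 344174) (nat_lit 42) (.e (nat_lit 761868) (nat_lit 5) .nil)))))) (.g (nat_lit 5) .nil .nil))) 
(.lf (nat_lit 62577) (.g (nat_lit 2245) (.e (nat_lit 1582) (nat_lit 111) (.e (nat_lit 360489) (nat_lit 21) (.e (nat_lit 770072) (nat_lit 8) (.e (nat_lit 65619) (nat_lit 10) (.e (nat_lit 344174) (nat_lit 42) (.e (nat_lit 761868) (nat_lit 5) .nil)))))) (.g (nat_lit 0) .nil .nil))))) (.nd (nat_lit 4) (.nd (nat_lit 5) 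
(.lf (nat_lit 62537) (.g (nat_lit 1313) (.e (nat_lit 1582) (nat_lit 111) (.e (nat_lit 360489) (nat_lit 21) (.e (nat_lit 770071) (nat_lit 8) (.e (nat_lit 65598) (nat_lit 9) (.e (nat_lit 335921) (nat_lit 0) (.e (nat_lit 2270) (nat_lit 149) (.e (nat_lit 761868) (nat_lit 5) .nil))))))) (.g (nat_lit 4) .nil .nil))) 
(.lf (nat_lit 62569) (.g (nat_lit 2038) (.e (nat_lit 1582) (nat_lit 111) (.e (nat_lit 360489) (nat_lit 21) (.e (nat_lit 770072) (nat_lit 8) (.e (nat_lit 65616) (nat_lit 10) (.e (nat_lit 344174) (nat_lit 42) (.e (nat_lit 761866) (nat_lit 5) .nil)))))) (.g (nat_lit 6) .nil .nil)))) (.nd (nat_lit 5) 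
(.lf (nat_lit 62553) (.g (nat_lit 2470) (.e (nat_lit 1582) (nat_lit 111) (.e (nat_lit 360489) (nat_lit 21) (.e (nat_lit 770071) (nat_lit 8) (.e (nat_lit 65619) (nat_lit 10) (.e (nat_lit 344174) (nat_lit 42) (.e (nat_lit 761866) (nat_lit 5) .nil)))))) (.g (nat_lit 6) .nil .nil))) 
(.lf (nat_lit 62585) (.g (nat_lit 2640) (.e (nat_lit 1582) (nat_lit 111) (.e (nat_lit 360489) (nat_lit 21) (.e (nat_lit 770074) (nat_lit 10) (.e (nat_lit 81946) (nat_lit 20) (.e (nat_lit 2270) (nat_lit 149) (.e (nat_lit 761868) (nat_lit 5) .nil)))))) (.g (nat_lit 0) .nil .nil)))))) (.nd (nat_lit 3) (.nd (nat_lit 4) (.nd (nat_lit 5) 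
(.lf (nat_lit 62533) (.g (nat_lit 1666) (.e (nat_lit 1582) (nat_lit 111) (.e (nat_lit 360489) (nat_lit 21) (.e (nat_lit 770058) (nat_lit 5) (.e (nat_lit 1595) (nat_lit 111) (.e (nat_lit 360488) (nat_lit 20) (.e (nat_lit 761868) (nat_lit 5) .nil)))))) (.g (nat_lit 6) .nil .nil))) 
(.lf (nat_lit 62565) (.g (nat_lit 2376) (.e (nat_lit 1582) (nat_lit 111) (.e (nat_lit 360489) (nat_lit 21) (.e (nat_lit 770072) (nat_lit 8) (.e (nat_lit 65610) (nat_lit 10) (.e (nat_lit 344174) (nat_lit 42) (.e (nat_lit 761866) (nat_lit 5) .nil)))))) (.g (nat_lit 0) .nil .nil)))) (.nd (nat_lit 5) 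
(.lf (nat_lit 62549) (.g (nat_lit 1937) (.e (nat_lit 1582) (nat_lit 111) (.e (nat_lit 360489) (nat_lit 21) (.e (nat_lit 770071) (nat_lit 8) (.e (nat_lit 65616) (nat_lit 10) (.e (nat_lit 344174) (nat_lit 42) (.e (nat_lit 761869) (nat_lit 5) .nil)))))) (.g (nat_lit 6) .nil .nil))) 
(.lf (nat_lit 62581) (.g (nat_lit 1656) (.e (nat_lit 1582) (nat_lit 111) (.e (nat_lit 360489) (nat_lit 21) (.e (nat_lit 770074) (nat_lit 10) (.e (nat_lit 81928) (nat_lit 20) (.e (nat_lit 2270) (nat_lit 149) (.e (nat_lit 761868) (nat_lit 5) .nil)))))) (.g (nat_lit 5) .nil .nil))))) (.nd (nat_lit 4) (.nd (nat_lit 5) 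
(.lf (nat_lit 62541) (.g (nat_lit 1693) (.e (nat_lit 1582) (nat_lit 111) (.e (nat_lit 360489) (nat_lit 21) (.e (nat_lit 770071) (nat_lit 8) (.e (nat_lit 65610) (nat_lit 10) (.e (nat_lit 344173) (nat_lit 42) (.e (nat_lit 761869) (nat_lit 5) .nil)))))) (.g (nat_lit 5) .nil .nil))) 
(.lf (nat_lit 62573) (.g (nat_lit 2182) (.e (nat_lit 1582) (nat_lit 111) (.e (nat_lit 360489) (nat_lit 21) (.e (nat_lit 770072) (nat_lit 8) (.e (nat_lit 65617) (nat_lit 10) (.e (nat_lit 344174) (nat_lit 42) (.e (nat_lit 761868) (nat_lit 5) .nil)))))) (.g (nat_lit 0) .nil .nil)))) (.nd (nat_lit 5) 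
(.lf (nat_lit 62557) (.g (nat_lit 1899) (.e (nat_lit 1582) (nat_lit 111) (.e (nat_lit 360489) (nat_lit 21) (.e (nat_lit 770071) (nat_lit 8) (.e (nat_lit 65620) (nat_lit 10) (.e (nat_lit 344174) (nat_lit 42) (.e (nat_lit 761868) (nat_lit 5) .nil)))))) (.g (nat_lit 0) .nil .nil))) 
(.lf (nat_lit 62589) (.g (nat_lit 1995) (.e (nat_lit 1582) (nat_lit 111) (.e (nat_lit 360489) (nat_lit 21) (.e (nat_lit 770074) (nat_lit 10) (.e (nat_lit 81959) (nat_lit 24) (.e (nat_lit 123051) (nat_lit 152) (.e (nat_lit 1079) (nat_lit 81) .nil)))))) (.g (nat_lit 4) .nil .nil))))))) (.nd (nat_lit 2) (.nd (nat_lit 3) (.nd (nat_lit 4) (.nd (nat_lit 5) 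
(.lf (nat_lit 62531) (.g (nat_lit 2104) (.e (nat_lit 1582) (nat_lit 111) (.e (nat_lit 360489) (nat_lit 21) (.e (nat_lit 770058) (nat_lit 5) (.e (nat_lit 1589) (nat_lit 111) (.e (nat_lit 360488) (nat_lit 20) (.e (nat_lit 761866) (nat_lit 5) .nil)))))) (.g (nat_lit 0) .nil .nil))) 
(.lf (nat_lit 62563) (.g (nat_lit 1874) (.e (nat_lit 1582) (nat_lit 111) (.e (nat_lit 360489) (nat_lit 21) (.e (nat_lit 770072) (nat_lit 8) (.e (nat_lit 65610) (nat_lit 10) (.e (nat_lit 344173) (nat_lit 42) (.e (nat_lit 761866) (nat_lit 5) .nil)))))) (.g (nat_lit 6) .nil .nil)))) (.nd (nat_lit 5) 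
(.lf (nat_lit 62547) (.g (nat_lit 1980) (.e (nat_lit 1582) (nat_lit 111) (.e (nat_lit 360489) (nat_lit 21) (.e (nat_lit 770071) (nat_lit 8) (.e (nat_lit 65616) (nat_lit 10) (.e (nat_lit 344174) (nat_lit 42) (.e (nat_lit 761866) (nat_lit 5) .nil)))))) (.g (nat_lit 6) .nil .nil))) 
(.lf (nat_lit 62579) (.g (nat_lit 1924) (.e (nat_lit 1582) (nat_lit 111) (.e (nat_lit 360489) (nat_lit 21) (.e (nat_lit 770072) (nat_lit 8) (.e (nat_lit 65620) (nat_lit 10) (.e (nat_lit 344174) (nat_lit 42) (.e (nat_lit 761868) (nat_lit 5) .nil)))))) (.g (nat_lit 0) .nil .nil))))) (.nd (nat_lit 4) (.nd (nat_lit 5) 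
(.lf (nat_lit 62539) (.g (nat_lit 1428) (.e (nat_lit 1582) (nat_lit 111) (.e (nat_lit 360489) (nat_lit 21) (.e (nat_lit 770071) (nat_lit 8) (.e (nat_lit 65610) (nat_lit 10) (.e (nat_lit 344173) (nat_lit 42) (.e (nat_lit 761866) (nat_lit 5) .nil)))))) (.g (nat_lit 4) .nil .nil))) 
(.lf (nat_lit 62571) (.g (nat_lit 1492) (.e (nat_lit 1582) (nat_lit 111) (.e (nat_lit 360489) (nat_lit 21) (.e (nat_lit 770072) (nat_lit 8) (.e (nat_lit 65617) (nat_lit 10) (.e (nat_lit 344173) (nat_lit 42) .nil))))) .nil))) (.nd (nat_lit 5) 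
(.lf (nat_lit 62555) (.g (nat_lit 2395) (.e (nat_lit 1582) (nat_lit 111) (.e (nat_lit 360489) (nat_lit 21) (.e (nat_lit 770071) (nat_lit 8) (.e (nat_lit 65619) (nat_lit 10) (.e (nat_lit 344174) (nat_lit 42) (.e (nat_lit 761869) (nat_lit 5) .nil)))))) (.g (nat_lit 6) .nil .nil))) 
(.lf (nat_lit 62587) (.g (nat_lit 1793) (.e (nat_lit 1582) (nat_lit 111) (.e (nat_lit 360489) (nat_lit 21) (.e (nat_lit 770074) (nat_lit 10) (.e (nat_lit 81950) (nat_lit 21) (.e (nat_lit 57666) (nat_lit 152) (.e (nat_lit 1079) (nat_lit 81) .nil)))))) (.g (nat_lit 4) .nil .nil)))))) (.nd (nat_lit 3) (.nd (nat_lit 4) (.nd (nat_lit 5) 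
(.lf (nat_lit 62535) (.g (nat_lit 1468) (.e (nat_lit 1582) (nat_lit 111) (.e (nat_lit 360489) (nat_lit 21) (.e (nat_lit 770058) (nat_lit 5) (.e (nat_lit 1599) (nat_lit 111) (.e (nat_lit 360488) (nat_lit 20) (.e (nat_lit 761866) (nat_lit 5) .nil)))))) (.g (nat_lit 6) .nil .nil))) 
(.lf (nat_lit 62567) (.g (nat_lit 2072) (.e (nat_lit 1582) (nat_lit 111) (.e (nat_lit 360489) (nat_lit 21) (.e (nat_lit 770072) (nat_lit 8) (.e (nat_lit 65611) (nat_lit 10) (.e (nat_lit 344174) (nat_lit 42) (.e (nat_lit 761866) (nat_lit 5) .nil)))))) (.g (nat_lit 6) .nil .nil)))) (.nd (nat_lit 5) 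
(.lf (nat_lit 62551) (.g (nat_lit 2230) (.e (nat_lit 1582) (nat_lit 111) (.e (nat_lit 360489) (nat_lit 21) (.e (nat_lit 770071) (nat_lit 8) (.e (nat_lit 65617) (nat_lit 10) (.e (nat_lit 344174) (nat_lit 42) (.e (nat_lit 761868) (nat_lit 5) .nil)))))) (.g (nat_lit 0) .nil .nil))) 
(.lf (nat_lit 62583) (.g (nat_lit 2034) (.e (nat_lit 1582) (nat_lit 111) (.e (nat_lit 360489) (nat_lit 21) (.e (nat_lit 770074) (nat_lit 10) (.e (nat_lit 81942) (nat_lit 20) (.e (nat_lit 2270) (nat_lit 149) (.e (nat_lit 761868) (nat_lit 5) .nil)))))) (.g (nat_lit 0) .nil .nil))))) (.nd (nat_lit 4) (.nd (nat_lit 5) 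
(.lf (nat_lit 62543) (.g (nat_lit 2079) (.e (nat_lit 1582) (nat_lit 111) (.e (nat_lit 360489) (nat_lit 21) (.e (nat_lit 770071) (nat_lit 8) (.e (nat_lit 65610) (nat_lit 10) (.e (nat_lit 344174) (nat_lit 42) (.e (nat_lit 761868) (nat_lit 5) .nil)))))) (.g (nat_lit 0) .nil .nil))) 
(.lf (nat_lit 62575) (.g (nat_lit 1327) (.e (nat_lit 1582) (nat_lit 111) (.e (nat_lit 360489) (nat_lit 21) (.e (nat_lit 770072) (nat_lit 8) (.e (nat_lit 65619) (nat_lit 10) (.e (nat_lit 344173) (nat_lit 42) .nil))))) .nil))) (.nd (nat_lit 5) 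
(.lf (nat_lit 62559) (.g (nat_lit 1836) (.e (nat_lit 1582) (nat_lit 111) (.e (nat_lit 360489) (nat_lit 21) (.e (nat_lit 770072) (nat_lit 8) (.e (nat_lit 65598) (nat_lit 9) (.e (nat_lit 335886) (nat_lit 0) (.e (nat_lit 2270) (nat_lit 149) (.e (nat_lit 761868) (nat_lit 5) .nil))))))) (.g (nat_lit 5) .nil .nil))) 
(.lf (nat_lit 62591) (.g (nat_lit 1779) (.e (nat_lit 1582) (nat_lit 111) (.e (nat_lit 360491) (nat_lit 22) (.e (nat_lit 778362) (nat_lit 9) (.e (nat_lit 324) (nat_lit 24) (.e (nat_lit 360488) (nat_lit 20) (.e (nat_lit 761866) (nat_lit 5) .nil)))))) (.g (nat_lit 0) .nil .nil)))))))))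

noncomputable def tv858 : DT := (.nd (nat_lit 0) (.nd (nat_lit 1) (.nd (nat_lit 2) (.nd (nat_lit 3) (.nd (nat_lit 4) (.nd (nat_lit 5) (.nd (nat_lit 6) 
(.lf (nat_lit 62592) (.g (nat_lit 2085) (.e (nat_lit 1582) (nat_lit 111) (.e (nat_lit 360491) (nat_lit 22) (.e (nat_lit 778464) (nat_lit 11) (.e (nat_lit 24640) (nat_lit 10) (.e (nat_lit 344174) (nat_lit 42) (.e (nat_lit 761866) (nat_lit 5) .nil)))))) (.g (nat_lit 6) .nil .nil))) 
(.lf (nat_lit 62656) (.g (nat_lit 3805) (.e (nat_lit 1583) (nat_lit 111) (.e (nat_lit 360475) (nat_lit 8) (.e (nat_lit 557091) (nat_lit 12) (.e (nat_lit 163999) (nat_lit 38) (.e (nat_lit 639020) (nat_lit 16) (.e (nat_lit 65580) (nat_lit 6) (.e (nat_lit 147456) (nat_lit 0) .nil))))))) (.g (nat_lit 6) .nil .nil)))) (.nd (nat_lit 6) 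
(.lf (nat_lit 62624) (.g (nat_lit 2067) (.e (nat_lit 1583) (nat_lit 111) (.e (nat_lit 360451) (nat_lit 0) (.e (nat_lit 7266) (nat_lit 384) (.e (nat_lit 57436) (nat_lit 17) (.e (nat_lit 376860) (nat_lit 21) .nil))))) .nil)) 
(.lf (nat_lit 62688) (.g (nat_lit 1341) (.e (nat_lit 1585) (nat_lit 111) (.e (nat_lit 360449) (nat_lit 0) (.e (nat_lit 7263) (nat_lit 384) (.e (nat_lit 57427) (nat_lit 15) (.e (nat_lit 360488) (nat_lit 20) .nil))))) .nil)))) (.nd (nat_lit 5) (.nd (nat_lit 6) 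
(.lf (nat_lit 62608) (.g (nat_lit 1059) (.e (nat_lit 1582) (nat_lit 111) (.e (nat_lit 360493) (nat_lit 27) (.e (nat_lit 819204) (nat_lit 0) (.e (nat_lit 3016) (nat_lit 187) (.e (nat_lit 458496) (nat_lit 8) .nil))))) .nil)) 
(.lf (nat_lit 62672) (.g (nat_lit 2450) (.e (nat_lit 1584) (nat_lit 111) (.e (nat_lit 360474) (nat_lit 8) (.e (nat_lit 557091) (nat_lit 12) (.e (nat_lit 163999) (nat_lit 38) (.e (nat_lit 639021) (nat_lit 16) .nil))))) .nil))) (.nd (nat_lit 6) 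
(.lf (nat_lit 62640) (.g (nat_lit 3392) (.e (nat_lit 1583) (nat_lit 111) (.e (nat_lit 360475) (nat_lit 8) (.e (nat_lit 557089) (nat_lit 12) (.e (nat_lit 163999) (nat_lit 38) (.e (nat_lit 639020) (nat_lit 16) (.e (nat_lit 65580) (nat_lit 6) (.e (nat_lit 147457) (nat_lit 0) .nil))))))) (.g (nat_lit 5) .nil .nil))) 
(.lf (nat_lit 62704) (.g (nat_lit 1361) (.e (nat_lit 1585) (nat_lit 111) (.e (nat_lit 360451) (nat_lit 0) (.e (nat_lit 7261) (nat_lit 384) (.e (nat_lit 57426) (nat_lit 15) (.e (nat_lit 360488) (nat_lit 20) .nil))))) .nil))))) (.nd (nat_lit 4) (.nd (nat_lit 5) (.nd (nat_lit 6) 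
(.lf (nat_lit 62600) (.g (nat_lit 1995) (.e (nat_lit 1582) (nat_lit 111) (.e (nat_lit 360491) (nat_lit 22) (.e (nat_lit 778466) (nat_lit 11) (.e (nat_lit 24639) (nat_lit 10) (.e (nat_lit 344174) (nat_lit 42) (.e (nat_lit 761868) (nat_lit 5) .nil)))))) (.g (nat_lit 0) .nil .nil))) 
(.lf (nat_lit 62664) (.g (nat_lit 1804) (.e (nat_lit 1583) (nat_lit 111) (.e (nat_lit 360475) (nat_lit 8) (.e (nat_lit 557119) (nat_lit 18) (.e (nat_lit 2798) (nat_lit 180) .nil)))) .nil))) (.nd (nat_lit 6) 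
(.lf (nat_lit 62632) (.g (nat_lit 2079) (.e (nat_lit 1583) (nat_lit 111) (.e (nat_lit 360474) (nat_lit 8) (.e (nat_lit 557094) (nat_lit 12) (.e (nat_lit 164022) (nat_lit 46) (.e (nat_lit 704738) (nat_lit 11) (.e (nat_lit 16392) (nat_lit 0) (.e (nat_lit 3191) (nat_lit 193) (.e (nat_lit 500008) (nat_lit 14) .nil)))))))) (.g (nat_lit 4) .nil .nil))) 
(.lf (nat_lit 62696) (.g (nat_lit 1259) (.e (nat_lit 1585) (nat_lit 111) (.e (nat_lit 360450) (nat_lit 0) (.e (nat_lit 7261) (nat_lit 384) (.e (nat_lit 57412) (nat_lit 12) (.e (nat_lit 336176) (nat_lit 10) .nil))))) .nil)))) (.nd (nat_lit 5) (.nd (nat_lit 6) 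
(.lf (nat_lit 62616) (.g (nat_lit 1597) (.e (nat_lit 1583) (nat_lit 111) (.e (nat_lit 360451) (nat_lit 0) (.e (nat_lit 7124) (nat_lit 382) (.e (nat_lit 1201) (nat_lit 88) (.e (nat_lit 65610) (nat_lit 10) .nil))))) .nil)) 
(.lf (nat_lit 62680) (.g (nat_lit 1855) (.e (nat_lit 1585) (nat_lit 111) (.e (nat_lit 360449) (nat_lit 0) (.e (nat_lit 7122) (nat_lit 382) (.e (nat_lit 1222) (nat_lit 90) (.e (nat_lit 81943) (nat_lit 20) .nil))))) .nil))) (.nd (nat_lit 6) 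
(.lf (nat_lit 62648) (.g (nat_lit 2463) (.e (nat_lit 1583) (nat_lit 111) (.e (nat_lit 360475) (nat_lit 8) (.e (nat_lit 557090) (nat_lit 12) (.e (nat_lit 164020) (nat_lit 45) (.e (nat_lit 696344) (nat_lit 8) (.e (nat_lit 172064) (nat_lit 2) (.e (nat_lit 196644) (nat_lit 9) .nil))))))) (.g (nat_lit 4) .nil .nil))) 
(.lf (nat_lit 62712) (.g (nat_lit 1664) (.e (nat_lit 1585) (nat_lit 111) (.e (nat_lit 360451) (nat_lit 0) (.e (nat_lit 7266) (nat_lit 384) (.e (nat_lit 57426) (nat_lit 15) (.e (nat_lit 360488) (nat_lit 20) .nil))))) .nil)))))) (.nd (nat_lit 3) (.nd (nat_lit 4) (.nd (nat_lit 5) (.nd (nat_lit 6) 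
(.lf (nat_lit 62596) (.g (nat_lit 1439) (.e (nat_lit 1582) (nat_lit 111) (.e (nat_lit 360491) (nat_lit 22) (.e (nat_lit 778465) (nat_lit 11) (.e (nat_lit 24641) (nat_lit 10) (.e (nat_lit 344174) (nat_lit 42) (.e (nat_lit 761868) (nat_lit 5) .nil)))))) (.g (nat_lit 4) .nil .nil))) 
(.lf (nat_lit 62660) (.g (nat_lit 2232) (.e (nat_lit 1583) (nat_lit 111) (.e (nat_lit 360475) (nat_lit 8) (.e (nat_lit 557091) (nat_lit 12) (.e (nat_lit 164022) (nat_lit 46) (.e (nat_lit 704628) (nat_lit 9) .nil))))) .nil))) (.nd (nat_lit 6) 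
(.lf (nat_lit 62628) (.g (nat_lit 3666) (.e (nat_lit 1583) (nat_lit 111) (.e (nat_lit 360474) (nat_lit 8) (.e (nat_lit 557091) (nat_lit 12) (.e (nat_lit 163999) (nat_lit 38) (.e (nat_lit 639020) (nat_lit 16) (.e (nat_lit 65580) (nat_lit 6) (.e (nat_lit 147457) (nat_lit 0) .nil))))))) (.g (nat_lit 6) .nil .nil))) 
(.lf (nat_lit 62692) (.g (nat_lit 2024) (.e (nat_lit 1585) (nat_lit 111) (.e (nat_lit 360449) (nat_lit 0) (.e (nat_lit 7265) (nat_lit 384) (.e (nat_lit 57424) (nat_lit 14) (.e (nat_lit 352302) (nat_lit 20) .nil))))) .nil)))) (.nd (nat_lit 5) (.nd (nat_lit 6) 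
(.lf (nat_lit 62612) (.g (nat_lit 580) (.e (nat_lit 1582) (nat_lit 111) (.e (nat_lit 360493) (nat_lit 27) (.e (nat_lit 819221) (nat_lit 6) (.e (nat_lit 188427) (nat_lit 20) (.e (nat_lit 3282) (nat_lit 200) (.e (nat_lit 557059) (nat_lit 0) .nil)))))) (.g (nat_lit 4) .nil .nil))) 
(.lf (nat_lit 62676) (.g (nat_lit 4861) (.e (nat_lit 1584) (nat_lit 111) (.e (nat_lit 360475) (nat_lit 8) (.e (nat_lit 557090) (nat_lit 12) (.e (nat_lit 164020) (nat_lit 45) (.e (nat_lit 696344) (nat_lit 8) (.e (nat_lit 172064) (nat_lit 2) (.e (nat_lit 204544) (nat_lit 9) .nil))))))) (.g (nat_lit 6) .nil .nil)))) (.nd (nat_lit 6) 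
(.lf (nat_lit 62644) (.g (nat_lit 2759) (.e (nat_lit 1583) (nat_lit 111) (.e (nat_lit 360475) (nat_lit 8) (.e (nat_lit 557090) (nat_lit 12) (.e (nat_lit 164020) (nat_lit 45) (.e (nat_lit 696343) (nat_lit 8) (.e (nat_lit 172034) (nat_lit 0) (.e (nat_lit 3195) (nat_lit 193) (.e (nat_lit 500008) (nat_lit 14) .nil)))))))) (.g (nat_lit 4) .nil .nil))) 
(.lf (nat_lit 62708) (.g (nat_lit 2327) (.e (nat_lit 1585) (nat_lit 111) (.e (nat_lit 360451) (nat_lit 0) (.e (nat_lit 7265) (nat_lit 384) (.e (nat_lit 57424) (nat_lit 14) (.e (nat_lit 352302) (nat_lit 20) .nil))))) .nil))))) (.nd (nat_lit 4) (.nd (nat_lit 5) (.nd (nat_lit 6) 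
(.lf (nat_lit 62604) (.g (nat_lit 2307) (.e (nat_lit 1582) (nat_lit 111) (.e (nat_lit 360491) (nat_lit 22) (.e (nat_lit 778466) (nat_lit 11) (.e (nat_lit 24641) (nat_lit 10) (.e (nat_lit 344174) (nat_lit 42) (.e (nat_lit 761866) (nat_lit 5) .nil)))))) (.g (nat_lit 0) .nil .nil))) 
(.lf (nat_lit 62668) (.g (nat_lit 1866) (.e (nat_lit 1584) (nat_lit 111) (.e (nat_lit 360451) (nat_lit 0) (.e (nat_lit 7125) (nat_lit 382) (.e (nat_lit 1201) (nat_lit 88) (.e (nat_lit 65610) (nat_lit 10) (.e (nat_lit 344097) (nat_lit 18) (.e (nat_lit 7146) (nat_lit 382) (.e (nat_lit 979) (nat_lit 81) .nil)))))))) (.g (nat_lit 4) .nil .nil)))) (.nd (nat_lit 6) 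
(.lf (nat_lit 62636) (.g (nat_lit 737) (.e (nat_lit 1583) (nat_lit 111) (.e (nat_lit 360475) (nat_lit 8) (.e (nat_lit 557089) (nat_lit 12) .nil))) .nil)) 
(.lf (nat_lit 62700) (.g (nat_lit 1501) (.e (nat_lit 1585) (nat_lit 111) (.e (nat_lit 360451) (nat_lit 0) (.e (nat_lit 7122) (nat_lit 382) (.e (nat_lit 1222) (nat_lit 90) (.e (nat_lit 81943) (nat_lit 20) .nil))))) .nil)))) (.nd (nat_lit 5) (.nd (nat_lit 6) 
(.lf (nat_lit 62620) (.g (nat_lit 1332) (.e (nat_lit 1583) (nat_lit 111) (.e (nat_lit 360451) (nat_lit 0) (.e (nat_lit 7265) (nat_lit 384) (.e (nat_lit 57427) (nat_lit 15) .nil)))) .nil)) 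
(.lf (nat_lit 62684) (.g (nat_lit 1878) (.e (nat_lit 1585) (nat_lit 111) (.e (nat_lit 360449) (nat_lit 0) (.e (nat_lit 7125) (nat_lit 382) (.e (nat_lit 1224) (nat_lit 90) (.e (nat_lit 81940) (nat_lit 20) .nil))))) .nil))) (.nd (nat_lit 6) 
(.lf (nat_lit 62652) (.g (nat_lit 583) (.e (nat_lit 1583) (nat_lit 111) (.e (nat_lit 360475) (nat_lit 8) (.e (nat_lit 557091) (nat_lit 12) .nil))) .nil)) 
(.lf (nat_lit 62716) (.g (nat_lit 1592) (.e (nat_lit 1585) (nat_lit 111) (.e (nat_lit 360452) (nat_lit 0) (.e (nat_lit 5907) (nat_lit 320) (.e (nat_lit 1221) (nat_lit 90) .nil)))) .nil))))))) (.nd (nat_lit 2) (.nd (nat_lit 3) (.nd (nat_lit 4) (.nd (nat_lit 5) (.nd (nat_lit 6) 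
(.lf (nat_lit 62594) (.g (nat_lit 2382) (.e (nat_lit 1582) (nat_lit 111) (.e (nat_lit 360491) (nat_lit 22) (.e (nat_lit 778465) (nat_lit 11) (.e (nat_lit 24639) (nat_lit 10) (.e (nat_lit 344174) (nat_lit 42) (.e (nat_lit 761866) (nat_lit 5) .nil)))))) (.g (nat_lit 0) .nil .nil))) 
(.lf (nat_lit 62658) (.g (nat_lit 2010) (.e (nat_lit 1583) (nat_lit 111) (.e (nat_lit 360475) (nat_lit 8) (.e (nat_lit 557091) (nat_lit 12) (.e (nat_lit 164000) (nat_lit 38) .nil)))) .nil))) (.nd (nat_lit 6) 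
(.lf (nat_lit 62626) (.g (nat_lit 3063) (.e (nat_lit 1583) (nat_lit 111) (.e (nat_lit 360474) (nat_lit 8) (.e (nat_lit 557091) (nat_lit 12) (.e (nat_lit 163999) (nat_lit 38) (.e (nat_lit 639020) (nat_lit 16) (.e (nat_lit 65578) (nat_lit 6) (.e (nat_lit 147456) (nat_lit 0) .nil))))))) (.g (nat_lit 5) .nil .nil))) 
(.lf (nat_lit 62690) (.g (nat_lit 2611) (.e (nat_lit 1585) (nat_lit 111) (.e (nat_lit 360449) (nat_lit 0) (.e (nat_lit 7265) (nat_lit 384) (.e (nat_lit 57412) (nat_lit 12) (.e (nat_lit 336176) (nat_lit 10) (.e (nat_lit 344174) (nat_lit 42) (.e (nat_lit 761868) (nat_lit 5) .nil))))))) (.g (nat_lit 7) .nil .nil))))) (.nd (nat_lit 5) (.nd (nat_lit 6) 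
(.lf (nat_lit 62610) (.g (nat_lit 580) (.e (nat_lit 1582) (nat_lit 111) (.e (nat_lit 360493) (nat_lit 27) (.e (nat_lit 819221) (nat_lit 6) (.e (nat_lit 188427) (nat_lit 20) (.e (nat_lit 3279) (nat_lit 200) (.e (nat_lit 557061) (nat_lit 0) .nil)))))) (.g (nat_lit 4) .nil .nil))) 
(.lf (nat_lit 62674) (.g (nat_lit 865) (.e (nat_lit 1584) (nat_lit 111) (.e (nat_lit 360475) (nat_lit 8) (.e (nat_lit 557089) (nat_lit 12) .nil))) .nil))) (.nd (nat_lit 6) 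
(.lf (nat_lit 62642) (.g (nat_lit 2728) (.e (nat_lit 1583) (nat_lit 111) (.e (nat_lit 360475) (nat_lit 8) (.e (nat_lit 557089) (nat_lit 12) (.e (nat_lit 164000) (nat_lit 38) (.e (nat_lit 639020) (nat_lit 16) .nil))))) .nil)) 
(.lf (nat_lit 62706) (.g (nat_lit 468) (.e (nat_lit 1585) (nat_lit 111) (.e (nat_lit 360451) (nat_lit 0) (.e (nat_lit 7265) (nat_lit 384) .nil))) .nil))))) (.nd (nat_lit 4) (.nd (nat_lit 5) (.nd (nat_lit 6) 
(.lf (nat_lit 62602) (.g (nat_lit 1954) (.e (nat_lit 1582) (nat_lit 111) (.e (nat_lit 360491) (nat_lit 22) (.e (nat_lit 778466) (nat_lit 11) (.e (nat_lit 24640) (nat_lit 10) (.e (nat_lit 344173) (nat_lit 42) (.e (nat_lit 761869) (nat_lit 5) .nil)))))) (.g (nat_lit 4) .nil .nil))) 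
(.lf (nat_lit 62666) (.g (nat_lit 1763) (.e (nat_lit 1583) (nat_lit 111) (.e (nat_lit 360475) (nat_lit 8) (.e (nat_lit 557119) (nat_lit 18) (.e (nat_lit 2808) (nat_lit 180) .nil)))) .nil))) (.nd (nat_lit 6) 
(.lf (nat_lit 62634) (.g (nat_lit 2755) (.e (nat_lit 1583) (nat_lit 111) (.e (nat_lit 360475) (nat_lit 8) (.e (nat_lit 557086) (nat_lit 11) (.e (nat_lit 24665) (nat_lit 14) (.e (nat_lit 401430) (nat_lit 5) .nil))))) .nil)) 
(.lf (nat_lit 62698) (.g (nat_lit 1300) (.e (nat_lit 1585) (nat_lit 111) (.e (nat_lit 360450) (nat_lit 0) (.e (nat_lit 7263) (nat_lit 384) (.e (nat_lit 57412) (nat_lit 12) (.e (nat_lit 336176) (nat_lit 10) .nil))))) .nil)))) (.nd (nat_lit 5) (.nd (nat_lit 6) 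
(.lf (nat_lit 62618) (.g (nat_lit 1290) (.e (nat_lit 1583) (nat_lit 111) (.e (nat_lit 360451) (nat_lit 0) (.e (nat_lit 7265) (nat_lit 384) (.e (nat_lit 57424) (nat_lit 14) .nil)))) .nil)) 
(.lf (nat_lit 62682) (.g (nat_lit 1217) (.e (nat_lit 1585) (nat_lit 111) (.e (nat_lit 360449) (nat_lit 0) (.e (nat_lit 7122) (nat_lit 382) (.e (nat_lit 7936) (nat_lit 90) .nil)))) .nil))) (.nd (nat_lit 6) 
(.lf (nat_lit 62650) (.g (nat_lit 2530) (.e (nat_lit 1583) (nat_lit 111) (.e (nat_lit 360475) (nat_lit 8) (.e (nat_lit 557090) (nat_lit 12) (.e (nat_lit 164020) (nat_lit 45) (.e (nat_lit 696344) (nat_lit 8) (.e (nat_lit 172071) (nat_lit 5) (.e (nat_lit 253696) (nat_lit 9) .nil))))))) (.g (nat_lit 4) .nil .nil))) 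
(.lf (nat_lit 62714) (.g (nat_lit 2022) (.e (nat_lit 1585) (nat_lit 111) (.e (nat_lit 360451) (nat_lit 0) (.e (nat_lit 7266) (nat_lit 384) (.e (nat_lit 57427) (nat_lit 15) (.e (nat_lit 360488) (nat_lit 20) .nil))))) .nil)))))) (.nd (nat_lit 3) (.nd (nat_lit 4) (.nd (nat_lit 5) (.nd (nat_lit 6) 
(.lf (nat_lit 62598) (.g (nat_lit 2540) (.e (nat_lit 1582) (nat_lit 111) (.e (nat_lit 360491) (nat_lit 22) (.e (nat_lit 778466) (nat_lit 11) (.e (nat_lit 24617) (nat_lit 7) (.e (nat_lit 319505) (nat_lit 10) (.e (nat_lit 726) (nat_lit 65) (.e (nat_lit 696355) (nat_lit 13) .nil))))))) (.g (nat_lit 5) .nil .nil))) 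
(.lf (nat_lit 62662) (.g (nat_lit 4076) (.e (nat_lit 1583) (nat_lit 111) (.e (nat_lit 360475) (nat_lit 8) (.e (nat_lit 557091) (nat_lit 12) (.e (nat_lit 164022) (nat_lit 46) (.e (nat_lit 704738) (nat_lit 11) (.e (nat_lit 16392) (nat_lit 0) (.e (nat_lit 3191) (nat_lit 193) (.e (nat_lit 500008) (nat_lit 14) .nil)))))))) (.g (nat_lit 6) .nil .nil)))) (.nd (nat_lit 6) 
(.lf (nat_lit 62630) (.g (nat_lit 2210) (.e (nat_lit 1583) (nat_lit 111) (.e (nat_lit 360474) (nat_lit 8) (.e (nat_lit 557091) (nat_lit 12) (.e (nat_lit 163999) (nat_lit 38) (.e (nat_lit 639021) (nat_lit 16) .nil))))) .nil)) 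
(.lf (nat_lit 62694) (.g (nat_lit 2000) (.e (nat_lit 1585) (nat_lit 111) (.e (nat_lit 360449) (nat_lit 0) (.e (nat_lit 7266) (nat_lit 384) (.e (nat_lit 57427) (nat_lit 15) (.e (nat_lit 360488) (nat_lit 20) .nil))))) .nil)))) (.nd (nat_lit 5) (.nd (nat_lit 6) 
(.lf (nat_lit 62614) (.g (nat_lit 700) (.e (nat_lit 1582) (nat_lit 111) (.e (nat_lit 360493) (nat_lit 27) (.e (nat_lit 819221) (nat_lit 6) (.e (nat_lit 188431) (nat_lit 20) (.e (nat_lit 3282) (nat_lit 200) (.e (nat_lit 557059) (nat_lit 0) .nil)))))) (.g (nat_lit 4) .nil .nil))) 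
(.lf (nat_lit 62678) (.g (nat_lit 2234) (.e (nat_lit 1584) (nat_lit 111) (.e (nat_lit 360475) (nat_lit 8) (.e (nat_lit 557091) (nat_lit 12) (.e (nat_lit 164000) (nat_lit 38) .nil)))) .nil))) (.nd (nat_lit 6) 
(.lf (nat_lit 62646) (.g (nat_lit 3689) (.e (nat_lit 1583) (nat_lit 111) (.e (nat_lit 360475) (nat_lit 8) (.e (nat_lit 557090) (nat_lit 12) (.e (nat_lit 164020) (nat_lit 45) (.e (nat_lit 696344) (nat_lit 8) (.e (nat_lit 172034) (nat_lit 0) (.e (nat_lit 3195) (nat_lit 193) (.e (nat_lit 500008) (nat_lit 14) .nil)))))))) (.g (nat_lit 5) .nil .nil))) 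
(.lf (nat_lit 62710) (.g (nat_lit 2280) (.e (nat_lit 1585) (nat_lit 111) (.e (nat_lit 360451) (nat_lit 0) (.e (nat_lit 7265) (nat_lit 384) (.e (nat_lit 57427) (nat_lit 15) (.e (nat_lit 360488) (nat_lit 20) (.e (nat_lit 761869) (nat_lit 5) .nil)))))) (.g (nat_lit 4) .nil .nil)))))) (.nd (nat_lit 4) (.nd (nat_lit 5) (.nd (nat_lit 6) 
(.lf (nat_lit 62606) (.g (nat_lit 1048) (.e (nat_lit 1582) (nat_lit 111) (.e (nat_lit 360493) (nat_lit 27) (.e (nat_lit 819203) (nat_lit 0) (.e (nat_lit 3015) (nat_lit 187) (.e (nat_lit 458496) (nat_lit 8) (.e (nat_lit 557061) (nat_lit 0) .nil)))))) (.g (nat_lit 4) .nil .nil))) 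
(.lf (nat_lit 62670) (.g (nat_lit 1336) (.e (nat_lit 1584) (nat_lit 111) (.e (nat_lit 360451) (nat_lit 0) (.e (nat_lit 7265) (nat_lit 384) (.e (nat_lit 57427) (nat_lit 15) .nil)))) .nil))) (.nd (nat_lit 6) 
(.lf (nat_lit 62638) (.g (nat_lit 2614) (.e (nat_lit 1583) (nat_lit 111) (.e (nat_lit 360475) (nat_lit 8) (.e (nat_lit 557089) (nat_lit 12) (.e (nat_lit 163999) (nat_lit 38) (.e (nat_lit 639020) (nat_lit 16) (.e (nat_lit 65578) (nat_lit 6) (.e (nat_lit 147456) (nat_lit 0) .nil))))))) (.g (nat_lit 4) .nil .nil))) 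
(.lf (nat_lit 62702) (.g (nat_lit 2600) (.e (nat_lit 1585) (nat_lit 111) (.e (nat_lit 360451) (nat_lit 0) (.e (nat_lit 7125) (nat_lit 382) (.e (nat_lit 1222) (nat_lit 90) (.e (nat_lit 81947) (nat_lit 20) .nil))))) .nil)))) (.nd (nat_lit 5) (.nd (nat_lit 6) 
(.lf (nat_lit 62622) (.g (nat_lit 3089) (.e (nat_lit 1583) (nat_lit 111) (.e (nat_lit 360451) (nat_lit 0) (.e (nat_lit 7265) (nat_lit 384) (.e (nat_lit 57436) (nat_lit 17) (.e (nat_lit 376860) (nat_lit 21) (.e (nat_lit 57664) (nat_lit 152) (.e (nat_lit 1065) (nat_lit 81) .nil))))))) (.g (nat_lit 7) .nil .nil))) 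
(.lf (nat_lit 62686) (.g (nat_lit 1561) (.e (nat_lit 1585) (nat_lit 111) (.e (nat_lit 360449) (nat_lit 0) (.e (nat_lit 7261) (nat_lit 384) (.e (nat_lit 57426) (nat_lit 15) (.e (nat_lit 360488) (nat_lit 20) (.e (nat_lit 761869) (nat_lit 5) .nil)))))) (.g (nat_lit 5) .nil .nil)))) (.nd (nat_lit 6) 
(.lf (nat_lit 62654) (.g (nat_lit 2354) (.e (nat_lit 1583) (nat_lit 111) (.e (nat_lit 360475) (nat_lit 8) (.e (nat_lit 557091) (nat_lit 12) (.e (nat_lit 163999) (nat_lit 38) (.e (nat_lit 639020) (nat_lit 16) .nil))))) .nil)) 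
(.lf (nat_lit 62718) (.g (nat_lit 1567) (.e (nat_lit 1585) (nat_lit 111) (.e (nat_lit 360452) (nat_lit 0) (.e (nat_lit 7270) (nat_lit 385) (.e (nat_lit 122916) (nat_lit 14) .nil)))) .nil)))))))) (.nd (nat_lit 1) (.nd (nat_lit 2) (.nd (nat_lit 3) (.nd (nat_lit 4) (.nd (nat_lit 5) (.nd (nat_lit 6) 
(.lf (nat_lit 62593) (.g (nat_lit 1847) (.e (nat_lit 1582) (nat_lit 111) (.e (nat_lit 360491) (nat_lit 22) (.e (nat_lit 778464) (nat_lit 11) (.e (nat_lit 24640) (nat_lit 10) (.e (nat_lit 344174) (nat_lit 42) (.e (nat_lit 761868) (nat_lit 5) .nil)))))) (.g (nat_lit 6) .nil .nil))) 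
(.lf (nat_lit 62657) (.g (nat_lit 3846) (.e (nat_lit 1583) (nat_lit 111) (.e (nat_lit 360475) (nat_lit 8) (.e (nat_lit 557091) (nat_lit 12) (.e (nat_lit 163999) (nat_lit 38) (.e (nat_lit 639020) (nat_lit 16) (.e (nat_lit 65580) (nat_lit 6) (.e (nat_lit 147457) (nat_lit 0) .nil))))))) (.g (nat_lit 7) .nil .nil)))) (.nd (nat_lit 6) 
(.lf (nat_lit 62625) (.g (nat_lit 1426) (.e (nat_lit 1583) (nat_lit 111) (.e (nat_lit 360467) (nat_lit 3) (.e (nat_lit 516146) (nat_lit 9) (.e (nat_lit 426467) (nat_lit 24) .nil)))) .nil)) 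
(.lf (nat_lit 62689) (.g (nat_lit 333) (.e (nat_lit 1585) (nat_lit 111) (.e (nat_lit 360449) (nat_lit 0) (.e (nat_lit 7265) (nat_lit 384) .nil))) .nil)))) (.nd (nat_lit 5) (.nd (nat_lit 6) 
(.lf (nat_lit 62609) (.g (nat_lit 1063) (.e (nat_lit 1582) (nat_lit 111) (.e (nat_lit 360493) (nat_lit 27) (.e (nat_lit 819204) (nat_lit 0) (.e (nat_lit 3016) (nat_lit 187) (.e (nat_lit 458496) (nat_lit 8) (.e (nat_lit 557060) (nat_lit 0) .nil)))))) (.g (nat_lit 4) .nil .nil))) 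
(.lf (nat_lit 62673) (.g (nat_lit 1148) (.e (nat_lit 1584) (nat_lit 111) (.e (nat_lit 360475) (nat_lit 8) (.e (nat_lit 557086) (nat_lit 11) (.e (nat_lit 24650) (nat_lit 12) .nil)))) .nil))) (.nd (nat_lit 6) 
(.lf (nat_lit 62641) (.g (nat_lit 1984) (.e (nat_lit 1583) (nat_lit 111) (.e (nat_lit 360475) (nat_lit 8) (.e (nat_lit 557089) (nat_lit 12) (.e (nat_lit 164000) (nat_lit 38) .nil)))) .nil)) 
(.lf (nat_lit 62705) (.g (nat_lit 1002) (.e (nat_lit 1585) (nat_lit 111) (.e (nat_lit 360451) (nat_lit 0) (.e (nat_lit 7261) (nat_lit 384) (.e (nat_lit 57427) (nat_lit 15) .nil)))) .nil))))) (.nd (nat_lit 4) (.nd (nat_lit 5) (.nd (nat_lit 6) 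
(.lf (nat_lit 62601) (.g (nat_lit 1755) (.e (nat_lit 1582) (nat_lit 111) (.e (nat_lit 360491) (nat_lit 22) (.e (nat_lit 778466) (nat_lit 11) (.e (nat_lit 24640) (nat_lit 10) (.e (nat_lit 344173) (nat_lit 42) .nil))))) .nil)) 
(.lf (nat_lit 62665) (.g (nat_lit 1726) (.e (nat_lit 1583) (nat_lit 111) (.e (nat_lit 360475) (nat_lit 8) (.e (nat_lit 557119) (nat_lit 18) (.e (nat_lit 2807) (nat_lit 180) .nil)))) .nil))) (.nd (nat_lit 6) 
(.lf (nat_lit 62633) (.g (nat_lit 352) (.e (nat_lit 1583) (nat_lit 111) (.e (nat_lit 360475) (nat_lit 8) (.e (nat_lit 557086) (nat_lit 11) .nil))) .nil)) 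
(.lf (nat_lit 62697) (.g (nat_lit 479) (.e (nat_lit 1585) (nat_lit 111) (.e (nat_lit 360450) (nat_lit 0) (.e (nat_lit 7263) (nat_lit 384) .nil))) .nil)))) (.nd (nat_lit 5) (.nd (nat_lit 6) 
(.lf (nat_lit 62617) (.g (nat_lit 1866) (.e (nat_lit 1583) (nat_lit 111) (.e (nat_lit 360451) (nat_lit 0) (.e (nat_lit 7125) (nat_lit 382) (.e (nat_lit 1201) (nat_lit 88) (.e (nat_lit 65610) (nat_lit 10) .nil))))) .nil)) 
(.lf (nat_lit 62681) (.g (nat_lit 1807) (.e (nat_lit 1585) (nat_lit 111) (.e (nat_lit 360449) (nat_lit 0) (.e (nat_lit 7122) (nat_lit 382) (.e (nat_lit 1224) (nat_lit 90) (.e (nat_lit 81947) (nat_lit 20) .nil))))) .nil))) (.nd (nat_lit 6) 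
(.lf (nat_lit 62649) (.g (nat_lit 4197) (.e (nat_lit 1583) (nat_lit 111) (.e (nat_lit 360475) (nat_lit 8) (.e (nat_lit 557090) (nat_lit 12) (.e (nat_lit 164020) (nat_lit 45) (.e (nat_lit 696344) (nat_lit 8) (.e (nat_lit 172064) (nat_lit 2) (.e (nat_lit 204544) (nat_lit 9) .nil))))))) (.g (nat_lit 6) .nil .nil))) 
(.lf (nat_lit 62713) (.g (nat_lit 1695) (.e (nat_lit 1585) (nat_lit 111) (.e (nat_lit 360451) (nat_lit 0) (.e (nat_lit 7266) (nat_lit 384) (.e (nat_lit 57426) (nat_lit 15) (.e (nat_lit 360488) (nat_lit 20) (.e (nat_lit 761869) (nat_lit 5) .nil)))))) (.g (nat_lit 4) .nil .nil))))))) (.nd (nat_lit 3) (.nd (nat_lit 4) (.nd (nat_lit 5) (.nd (nat_lit 6) 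
(.lf (nat_lit 62597) (.g (nat_lit 2751) (.e (nat_lit 1582) (nat_lit 111) (.e (nat_lit 360491) (nat_lit 22) (.e (nat_lit 778466) (nat_lit 11) (.e (nat_lit 24617) (nat_lit 7) (.e (nat_lit 319504) (nat_lit 10) (.e (nat_lit 726) (nat_lit 65) (.e (nat_lit 696355) (nat_lit 13) .nil))))))) (.g (nat_lit 5) .nil .nil))) 
(.lf (nat_lit 62661) (.g (nat_lit 2579) (.e (nat_lit 1583) (nat_lit 111) (.e (nat_lit 360475) (nat_lit 8) (.e (nat_lit 557091) (nat_lit 12) (.e (nat_lit 164022) (nat_lit 46) (.e (nat_lit 704629) (nat_lit 9) (.e (nat_lit 375) (nat_lit 32) (.e (nat_lit 426125) (nat_lit 2) (.e (nat_lit 204544) (nat_lit 9) .nil)))))))) (.g (nat_lit 4) .nil .nil)))) (.nd (nat_lit 6) 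
(.lf (nat_lit 62629) (.g (nat_lit 2854) (.e (nat_lit 1583) (nat_lit 111) (.e (nat_lit 360474) (nat_lit 8) (.e (nat_lit 557091) (nat_lit 12) (.e (nat_lit 163999) (nat_lit 38) (.e (nat_lit 639020) (nat_lit 16) (.e (nat_lit 65580) (nat_lit 6) (.e (nat_lit 155392) (nat_lit 0) .nil))))))) (.g (nat_lit 4) .nil .nil))) 
(.lf (nat_lit 62693) (.g (nat_lit 1070) (.e (nat_lit 1585) (nat_lit 111) (.e (nat_lit 360449) (nat_lit 0) (.e (nat_lit 7265) (nat_lit 384) (.e (nat_lit 57427) (nat_lit 15) .nil)))) .nil)))) (.nd (nat_lit 5) (.nd (nat_lit 6) 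
(.lf (nat_lit 62613) (.g (nat_lit 947) (.e (nat_lit 1582) (nat_lit 111) (.e (nat_lit 360493) (nat_lit 27) (.e (nat_lit 819221) (nat_lit 6) (.e (nat_lit 188427) (nat_lit 20) (.e (nat_lit 3282) (nat_lit 200) (.e (nat_lit 557060) (nat_lit 0) .nil)))))) (.g (nat_lit 0) .nil .nil))) 
(.lf (nat_lit 62677) (.g (nat_lit 2207) (.e (nat_lit 1584) (nat_lit 111) (.e (nat_lit 360475) (nat_lit 8) (.e (nat_lit 557091) (nat_lit 12) (.e (nat_lit 163999) (nat_lit 38) .nil)))) .nil))) (.nd (nat_lit 6) 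
(.lf (nat_lit 62645) (.g (nat_lit 2143) (.e (nat_lit 1583) (nat_lit 111) (.e (nat_lit 360475) (nat_lit 8) (.e (nat_lit 557090) (nat_lit 12) (.e (nat_lit 164020) (nat_lit 45) (.e (nat_lit 696344) (nat_lit 8) .nil))))) .nil)) 
(.lf (nat_lit 62709) (.g (nat_lit 2270) (.e (nat_lit 1585) (nat_lit 111) (.e (nat_lit 360451) (nat_lit 0) (.e (nat_lit 7265) (nat_lit 384) (.e (nat_lit 57427) (nat_lit 15) (.e (nat_lit 360488) (nat_lit 20) (.e (nat_lit 761868) (nat_lit 5) .nil)))))) (.g (nat_lit 4) .nil .nil)))))) (.nd (nat_lit 4) (.nd (nat_lit 5) (.nd (nat_lit 6) 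
(.lf (nat_lit 62605) (.g (nat_lit 1068) (.e (nat_lit 1582) (nat_lit 111) (.e (nat_lit 360493) (nat_lit 27) (.e (nat_lit 819203) (nat_lit 0) (.e (nat_lit 3015) (nat_lit 187) (.e (nat_lit 458496) (nat_lit 8) (.e (nat_lit 557058) (nat_lit 0) .nil)))))) (.g (nat_lit 4) .nil .nil))) 
(.lf (nat_lit 62669) (.g (nat_lit 542) (.e (nat_lit 1584) (nat_lit 111) (.e (nat_lit 360451) (nat_lit 0) (.e (nat_lit 7265) (nat_lit 384) .nil))) .nil))) (.nd (nat_lit 6) 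
(.lf (nat_lit 62637) (.g (nat_lit 1895) (.e (nat_lit 1583) (nat_lit 111) (.e (nat_lit 360475) (nat_lit 8) (.e (nat_lit 557089) (nat_lit 12) (.e (nat_lit 163999) (nat_lit 38) .nil)))) .nil)) 
(.lf (nat_lit 62701) (.g (nat_lit 2065) (.e (nat_lit 1585) (nat_lit 111) (.e (nat_lit 360451) (nat_lit 0) (.e (nat_lit 7125) (nat_lit 382) (.e (nat_lit 1201) (nat_lit 88) (.e (nat_lit 65617) (nat_lit 10) .nil))))) .nil)))) (.nd (nat_lit 5) (.nd (nat_lit 6) 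
(.lf (nat_lit 62621) (.g (nat_lit 1589) (.e (nat_lit 1583) (nat_lit 111) (.e (nat_lit 360451) (nat_lit 0) (.e (nat_lit 7265) (nat_lit 384) (.e (nat_lit 57436) (nat_lit 17) (.e (nat_lit 376860) (nat_lit 21) .nil))))) .nil)) 
(.lf (nat_lit 62685) (.g (nat_lit 2186) (.e (nat_lit 1585) (nat_lit 111) (.e (nat_lit 360449) (nat_lit 0) (.e (nat_lit 7261) (nat_lit 384) (.e (nat_lit 57412) (nat_lit 12) (.e (nat_lit 336173) (nat_lit 10) (.e (nat_lit 344174) (nat_lit 42) (.e (nat_lit 761868) (nat_lit 5) .nil))))))) (.g (nat_lit 5) .nil .nil)))) (.nd (nat_lit 6) 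
(.lf (nat_lit 62653) (.g (nat_lit 1788) (.e (nat_lit 1583) (nat_lit 111) (.e (nat_lit 360475) (nat_lit 8) (.e (nat_lit 557091) (nat_lit 12) (.e (nat_lit 163999) (nat_lit 38) .nil)))) .nil)) 
(.lf (nat_lit 62717) (.g (nat_lit 564) (.e (nat_lit 1585) (nat_lit 111) (.e (nat_lit 360452) (nat_lit 0) (.e (nat_lit 7270) (nat_lit 385) .nil))) .nil))))))) (.nd (nat_lit 2) (.nd (nat_lit 3) (.nd (nat_lit 4) (.nd (nat_lit 5) (.nd (nat_lit 6) 
(.lf (nat_lit 62595) (.g (nat_lit 2117) (.e (nat_lit 1582) (nat_lit 111) (.e (nat_lit 360491) (nat_lit 22) (.e (nat_lit 778465) (nat_lit 11) (.e (nat_lit 24639) (nat_lit 10) (.e (nat_lit 344174) (nat_lit 42) (.e (nat_lit 761868) (nat_lit 5) .nil)))))) (.g (nat_lit 0) .nil .nil))) 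
(.lf (nat_lit 62659) (.g (nat_lit 1677) (.e (nat_lit 1583) (nat_lit 111) (.e (nat_lit 360475) (nat_lit 8) (.e (nat_lit 557091) (nat_lit 12) (.e (nat_lit 164022) (nat_lit 46) .nil)))) .nil))) (.nd (nat_lit 6) 
(.lf (nat_lit 62627) (.g (nat_lit 3675) (.e (nat_lit 1583) (nat_lit 111) (.e (nat_lit 360474) (nat_lit 8) (.e (nat_lit 557091) (nat_lit 12) (.e (nat_lit 163999) (nat_lit 38) (.e (nat_lit 639020) (nat_lit 16) (.e (nat_lit 65580) (nat_lit 6) (.e (nat_lit 147456) (nat_lit 0) .nil))))))) (.g (nat_lit 6) .nil .nil))) 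
(.lf (nat_lit 62691) (.g (nat_lit 2234) (.e (nat_lit 1585) (nat_lit 111) (.e (nat_lit 360449) (nat_lit 0) (.e (nat_lit 7265) (nat_lit 384) (.e (nat_lit 57424) (nat_lit 14) (.e (nat_lit 352301) (nat_lit 20) .nil))))) .nil)))) (.nd (nat_lit 5) (.nd (nat_lit 6) 
(.lf (nat_lit 62611) (.g (nat_lit 947) (.e (nat_lit 1582) (nat_lit 111) (.e (nat_lit 360493) (nat_lit 27) (.e (nat_lit 819221) (nat_lit 6) (.e (nat_lit 188427) (nat_lit 20) (.e (nat_lit 3281) (nat_lit 200) (.e (nat_lit 557061) (nat_lit 0) .nil)))))) (.g (nat_lit 0) .nil .nil))) 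
(.lf (nat_lit 62675) (.g (nat_lit 2117) (.e (nat_lit 1584) (nat_lit 111) (.e (nat_lit 360475) (nat_lit 8) (.e (nat_lit 557089) (nat_lit 12) (.e (nat_lit 163999) (nat_lit 38) .nil)))) .nil))) (.nd (nat_lit 6) 
(.lf (nat_lit 62643) (.g (nat_lit 603) (.e (nat_lit 1583) (nat_lit 111) (.e (nat_lit 360475) (nat_lit 8) (.e (nat_lit 557090) (nat_lit 12) .nil))) .nil)) 
(.lf (nat_lit 62707) (.g (nat_lit 2541) (.e (nat_lit 1585) (nat_lit 111) (.e (nat_lit 360451) (nat_lit 0) (.e (nat_lit 7265) (nat_lit 384) (.e (nat_lit 57424) (nat_lit 14) (.e (nat_lit 352301) (nat_lit 20) .nil))))) .nil))))) (.nd (nat_lit 4) (.nd (nat_lit 5) (.nd (nat_lit 6) 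
(.lf (nat_lit 62603) (.g (nat_lit 2452) (.e (nat_lit 1582) (nat_lit 111) (.e (nat_lit 360491) (nat_lit 22) (.e (nat_lit 778466) (nat_lit 11) (.e (nat_lit 24640) (nat_lit 10) (.e (nat_lit 344174) (nat_lit 42) (.e (nat_lit 761866) (nat_lit 5) .nil)))))) (.g (nat_lit 0) .nil .nil))) 
(.lf (nat_lit 62667) (.g (nat_lit 1517) (.e (nat_lit 1584) (nat_lit 111) (.e (nat_lit 360451) (nat_lit 0) (.e (nat_lit 7125) (nat_lit 382) (.e (nat_lit 1201) (nat_lit 88) .nil)))) .nil))) (.nd (nat_lit 6) 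
(.lf (nat_lit 62635) (.g (nat_lit 3614) (.e (nat_lit 1583) (nat_lit 111) (.e (nat_lit 360475) (nat_lit 8) (.e (nat_lit 557086) (nat_lit 11) (.e (nat_lit 24665) (nat_lit 14) (.e (nat_lit 401430) (nat_lit 5) (.e (nat_lit 253696) (nat_lit 9) .nil)))))) (.g (nat_lit 4) .nil .nil))) 
(.lf (nat_lit 62699) (.g (nat_lit 1505) (.e (nat_lit 1585) (nat_lit 111) (.e (nat_lit 360451) (nat_lit 0) (.e (nat_lit 7122) (nat_lit 382) (.e (nat_lit 1201) (nat_lit 88) .nil)))) .nil)))) (.nd (nat_lit 5) (.nd (nat_lit 6) 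
(.lf (nat_lit 62619) (.g (nat_lit 1494) (.e (nat_lit 1583) (nat_lit 111) (.e (nat_lit 360451) (nat_lit 0) (.e (nat_lit 7265) (nat_lit 384) (.e (nat_lit 57424) (nat_lit 14) (.e (nat_lit 352318) (nat_lit 24) (.e (nat_lit 123048) (nat_lit 152) (.e (nat_lit 1057) (nat_lit 81) .nil))))))) (.g (nat_lit 4) .nil .nil))) 
(.lf (nat_lit 62683) (.g (nat_lit 755) (.e (nat_lit 1585) (nat_lit 111) (.e (nat_lit 360449) (nat_lit 0) (.e (nat_lit 7124) (nat_lit 382) (.e (nat_lit 7936) (nat_lit 90) .nil)))) .nil))) (.nd (nat_lit 6) 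
(.lf (nat_lit 62651) (.g (nat_lit 2187) (.e (nat_lit 1583) (nat_lit 111) (.e (nat_lit 360475) (nat_lit 8) (.e (nat_lit 557090) (nat_lit 12) (.e (nat_lit 164020) (nat_lit 45) (.e (nat_lit 696344) (nat_lit 8) (.e (nat_lit 172073) (nat_lit 5) (.e (nat_lit 253696) (nat_lit 9) .nil))))))) (.g (nat_lit 4) .nil .nil))) 
(.lf (nat_lit 62715) (.g (nat_lit 1620) (.e (nat_lit 1585) (nat_lit 111) (.e (nat_lit 360452) (nat_lit 0) (.e (nat_lit 5907) (nat_lit 320) (.e (nat_lit 1219) (nat_lit 90) .nil)))) .nil)))))) (.nd (nat_lit 3) (.nd (nat_lit 4) (.nd (nat_lit 5) (.nd (nat_lit 6) 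
(.lf (nat_lit 62599) (.g (nat_lit 2272) (.e (nat_lit 1582) (nat_lit 111) (.e (nat_lit 360491) (nat_lit 22) (.e (nat_lit 778466) (nat_lit 11) (.e (nat_lit 24639) (nat_lit 10) (.e (nat_lit 344174) (nat_lit 42) (.e (nat_lit 761866) (nat_lit 5) .nil)))))) (.g (nat_lit 0) .nil .nil))) 
(.lf (nat_lit 62663) (.g (nat_lit 3009) (.e (nat_lit 1583) (nat_lit 111) (.e (nat_lit 360475) (nat_lit 8) (.e (nat_lit 557091) (nat_lit 12) (.e (nat_lit 164022) (nat_lit 46) (.e (nat_lit 704738) (nat_lit 11) (.e (nat_lit 16412) (nat_lit 2) (.e (nat_lit 204544) (nat_lit 9) .nil))))))) (.g (nat_lit 5) .nil .nil)))) (.nd (nat_lit 6) 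
(.lf (nat_lit 62631) (.g (nat_lit 2479) (.e (nat_lit 1583) (nat_lit 111) (.e (nat_lit 360474) (nat_lit 8) (.e (nat_lit 557093) (nat_lit 12) (.e (nat_lit 164022) (nat_lit 46) (.e (nat_lit 704738) (nat_lit 11) (.e (nat_lit 16392) (nat_lit 0) (.e (nat_lit 3191) (nat_lit 193) (.e (nat_lit 500008) (nat_lit 14) .nil)))))))) (.g (nat_lit 4) .nil .nil))) 
(.lf (nat_lit 62695) (.g (nat_lit 447) (.e (nat_lit 1585) (nat_lit 111) (.e (nat_lit 360450) (nat_lit 0) (.e (nat_lit 7261) (nat_lit 384) .nil))) .nil)))) (.nd (nat_lit 5) (.nd (nat_lit 6) 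
(.lf (nat_lit 62615) (.g (nat_lit 1068) (.e (nat_lit 1582) (nat_lit 111) (.e (nat_lit 360493) (nat_lit 27) (.e (nat_lit 819221) (nat_lit 6) (.e (nat_lit 188431) (nat_lit 20) (.e (nat_lit 3282) (nat_lit 200) (.e (nat_lit 557060) (nat_lit 0) .nil)))))) (.g (nat_lit 0) .nil .nil))) 
(.lf (nat_lit 62679) (.g (nat_lit 2369) (.e (nat_lit 1584) (nat_lit 111) (.e (nat_lit 360475) (nat_lit 8) (.e (nat_lit 557091) (nat_lit 12) (.e (nat_lit 164022) (nat_lit 46) .nil)))) .nil))) (.nd (nat_lit 6) 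
(.lf (nat_lit 62647) (.g (nat_lit 2726) (.e (nat_lit 1583) (nat_lit 111) (.e (nat_lit 360475) (nat_lit 8) (.e (nat_lit 557090) (nat_lit 12) (.e (nat_lit 164020) (nat_lit 45) (.e (nat_lit 696344) (nat_lit 8) (.e (nat_lit 172035) (nat_lit 0) (.e (nat_lit 3191) (nat_lit 193) (.e (nat_lit 500008) (nat_lit 14) .nil)))))))) (.g (nat_lit 4) .nil .nil))) 
(.lf (nat_lit 62711) (.g (nat_lit 2538) (.e (nat_lit 1585) (nat_lit 111) (.e (nat_lit 360451) (nat_lit 0) (.e (nat_lit 7265) (nat_lit 384) (.e (nat_lit 57436) (nat_lit 17) (.e (nat_lit 376860) (nat_lit 21) (.e (nat_lit 57665) (nat_lit 152) (.e (nat_lit 1070) (nat_lit 81) .nil))))))) (.g (nat_lit 5) .nil .nil)))))) (.nd (nat_lit 4) (.nd (nat_lit 5) (.nd (nat_lit 6) 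
(.lf (nat_lit 62607) (.g (nat_lit 943) (.e (nat_lit 1582) (nat_lit 111) (.e (nat_lit 360493) (nat_lit 27) (.e (nat_lit 819203) (nat_lit 0) (.e (nat_lit 3022) (nat_lit 187) (.e (nat_lit 458496) (nat_lit 8) (.e (nat_lit 557060) (nat_lit 0) .nil)))))) (.g (nat_lit 4) .nil .nil))) 
(.lf (nat_lit 62671) (.g (nat_lit 3902) (.e (nat_lit 1584) (nat_lit 111) (.e (nat_lit 360474) (nat_lit 8) (.e (nat_lit 557091) (nat_lit 12) (.e (nat_lit 163999) (nat_lit 38) (.e (nat_lit 639020) (nat_lit 16) (.e (nat_lit 65580) (nat_lit 6) (.e (nat_lit 155392) (nat_lit 0) .nil))))))) (.g (nat_lit 6) .nil .nil)))) (.nd (nat_lit 6) 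
(.lf (nat_lit 62639) (.g (nat_lit 3278) (.e (nat_lit 1583) (nat_lit 111) (.e (nat_lit 360475) (nat_lit 8) (.e (nat_lit 557089) (nat_lit 12) (.e (nat_lit 163999) (nat_lit 38) (.e (nat_lit 639020) (nat_lit 16) (.e (nat_lit 65580) (nat_lit 6) (.e (nat_lit 147456) (nat_lit 0) .nil))))))) (.g (nat_lit 5) .nil .nil))) 
(.lf (nat_lit 62703) (.g (nat_lit 2238) (.e (nat_lit 1585) (nat_lit 111) (.e (nat_lit 360451) (nat_lit 0) (.e (nat_lit 7125) (nat_lit 382) (.e (nat_lit 1224) (nat_lit 90) (.e (nat_lit 81940) (nat_lit 20) .nil))))) .nil)))) (.nd (nat_lit 5) (.nd (nat_lit 6) 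
(.lf (nat_lit 62623) (.g (nat_lit 1711) (.e (nat_lit 1583) (nat_lit 111) (.e (nat_lit 360451) (nat_lit 0) (.e (nat_lit 7265) (nat_lit 384) (.e (nat_lit 57436) (nat_lit 17) (.e (nat_lit 376860) (nat_lit 21) (.e (nat_lit 57671) (nat_lit 152) (.e (nat_lit 1057) (nat_lit 81) .nil))))))) (.g (nat_lit 4) .nil .nil))) 
(.lf (nat_lit 62687) (.g (nat_lit 1373) (.e (nat_lit 1585) (nat_lit 111) (.e (nat_lit 360449) (nat_lit 0) (.e (nat_lit 7261) (nat_lit 384) (.e (nat_lit 57427) (nat_lit 15) (.e (nat_lit 360488) (nat_lit 20) .nil))))) .nil))) (.nd (nat_lit 6) 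
(.lf (nat_lit 62655) (.g (nat_lit 3193) (.e (nat_lit 1583) (nat_lit 111) (.e (nat_lit 360475) (nat_lit 8) (.e (nat_lit 557091) (nat_lit 12) (.e (nat_lit 163999) (nat_lit 38) (.e (nat_lit 639020) (nat_lit 16) (.e (nat_lit 65578) (nat_lit 6) (.e (nat_lit 147456) (nat_lit 0) .nil))))))) (.g (nat_lit 5) .nil .nil))) 
(.lf (nat_lit 62719) (.g (nat_lit 2208) (.e (nat_lit 1585) (nat_lit 111) (.e (nat_lit 360452) (nat_lit 0) (.e (nat_lit 7270) (nat_lit 385) (.e (nat_lit 122916) (nat_lit 14) (.e (nat_lit 352293) (nat_lit 20) (.e (nat_lit 2270) (nat_lit 149) (.e (nat_lit 761868) (nat_lit 5) .nil))))))) (.g (nat_lit 4) .nil .nil))))))))))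

noncomputable def tv859 : DT := (.nd (nat_lit 0) (.nd (nat_lit 1) (.nd (nat_lit 2) (.nd (nat_lit 3) (.nd (nat_lit 4) (.nd (nat_lit 5) 
(.lf (nat_lit 62720) (.g (nat_lit 2226) (.e (nat_lit 1585) (nat_lit 111) (.e (nat_lit 360452) (nat_lit 0) (.e (nat_lit 7270) (nat_lit 385) (.e (nat_lit 122916) (nat_lit 14) (.e (nat_lit 352302) (nat_lit 20) .nil))))) .nil)) 
(.lf (nat_lit 62752) (.g (nat_lit 1448) (.e (nat_lit 1585) (nat_lit 111) (.e (nat_lit 360466) (nat_lit 3) (.e (nat_lit 516117) (nat_lit 1) (.e (nat_lit 164159) (nat_lit 152) .nil)))) .nil))) (.nd (nat_lit 5) 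
(.lf (nat_lit 62736) (.g (nat_lit 1852) (.e (nat_lit 1585) (nat_lit 111) (.e (nat_lit 360452) (nat_lit 0) (.e (nat_lit 7273) (nat_lit 385) (.e (nat_lit 122916) (nat_lit 14) (.e (nat_lit 352302) (nat_lit 20) .nil))))) .nil)) 
(.lf (nat_lit 62768) (.g (nat_lit 3009) (.e (nat_lit 1585) (nat_lit 111) (.e (nat_lit 360474) (nat_lit 8) (.e (nat_lit 557091) (nat_lit 12) (.e (nat_lit 163999) (nat_lit 38) (.e (nat_lit 639020) (nat_lit 16) (.e (nat_lit 65578) (nat_lit 6) (.e (nat_lit 147460) (nat_lit 0) .nil))))))) (.g (nat_lit 4) .nil .nil))))) (.nd (nat_lit 4) (.nd (nat_lit 5) 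
(.lf (nat_lit 62728) (.g (nat_lit 2204) (.e (nat_lit 1585) (nat_lit 111) (.e (nat_lit 360452) (nat_lit 0) (.e (nat_lit 7271) (nat_lit 385) (.e (nat_lit 122919) (nat_lit 15) (.e (nat_lit 360488) (nat_lit 20) .nil))))) .nil)) 
(.lf (nat_lit 62760) (.g (nat_lit 1772) (.e (nat_lit 1585) (nat_lit 111) (.e (nat_lit 360467) (nat_lit 3) (.e (nat_lit 516115) (nat_lit 1) (.e (nat_lit 164179) (nat_lit 154) .nil)))) .nil))) (.nd (nat_lit 5) 
(.lf (nat_lit 62744) (.g (nat_lit 1517) (.e (nat_lit 1585) (nat_lit 111) (.e (nat_lit 360453) (nat_lit 0) (.e (nat_lit 7273) (nat_lit 385) (.e (nat_lit 122916) (nat_lit 14) (.e (nat_lit 352293) (nat_lit 20) .nil))))) .nil)) 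
(.lf (nat_lit 62776) (.g (nat_lit 844) (.e (nat_lit 1585) (nat_lit 111) (.e (nat_lit 360475) (nat_lit 8) (.e (nat_lit 557091) (nat_lit 12) .nil))) .nil))))) (.nd (nat_lit 3) (.nd (nat_lit 4) (.nd (nat_lit 5) 
(.lf (nat_lit 62724) (.g (nat_lit 1969) (.e (nat_lit 1585) (nat_lit 111) (.e (nat_lit 360452) (nat_lit 0) (.e (nat_lit 7271) (nat_lit 385) (.e (nat_lit 122916) (nat_lit 14) (.e (nat_lit 352293) (nat_lit 20) .nil))))) .nil)) 
(.lf (nat_lit 62756) (.g (nat_lit 482) (.e (nat_lit 1585) (nat_lit 111) (.e (nat_lit 360466) (nat_lit 3) (.e (nat_lit 516179) (nat_lit 15) .nil))) .nil))) (.nd (nat_lit 5) 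
(.lf (nat_lit 62740) (.g (nat_lit 1153) (.e (nat_lit 1585) (nat_lit 111) (.e (nat_lit 360453) (nat_lit 0) (.e (nat_lit 7272) (nat_lit 385) (.e (nat_lit 122906) (nat_lit 12) .nil)))) .nil)) 
(.lf (nat_lit 62772) (.g (nat_lit 2117) (.e (nat_lit 1585) (nat_lit 111) (.e (nat_lit 360475) (nat_lit 8) (.e (nat_lit 557089) (nat_lit 12) (.e (nat_lit 163999) (nat_lit 38) .nil)))) .nil)))) (.nd (nat_lit 4) (.nd (nat_lit 5) 
(.lf (nat_lit 62732) (.g (nat_lit 2202) (.e (nat_lit 1585) (nat_lit 111) (.e (nat_lit 360452) (nat_lit 0) (.e (nat_lit 7272) (nat_lit 385) (.e (nat_lit 122916) (nat_lit 14) (.e (nat_lit 352302) (nat_lit 20) (.e (nat_lit 2270) (nat_lit 149) (.e (nat_lit 761868) (nat_lit 5) .nil))))))) (.g (nat_lit 4) .nil .nil))) 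
(.lf (nat_lit 62764) (.g (nat_lit 1442) (.e (nat_lit 1585) (nat_lit 111) (.e (nat_lit 360473) (nat_lit 8) (.e (nat_lit 557119) (nat_lit 18) (.e (nat_lit 2798) (nat_lit 180) .nil)))) .nil))) (.nd (nat_lit 5) 
(.lf (nat_lit 62748) (.g (nat_lit 1182) (.e (nat_lit 1585) (nat_lit 111) (.e (nat_lit 360457) (nat_lit 0) (.e (nat_lit 5949) (nat_lit 322) (.e (nat_lit 57423) (nat_lit 14) (.e (nat_lit 352270) (nat_lit 8) .nil))))) .nil)) 
(.lf (nat_lit 62780) (.g (nat_lit 3708) (.e (nat_lit 1585) (nat_lit 111) (.e (nat_lit 360475) (nat_lit 8) (.e (nat_lit 557091) (nat_lit 12) (.e (nat_lit 163999) (nat_lit 38) (.e (nat_lit 639020) (nat_lit 16) (.e (nat_lit 65580) (nat_lit 6) (.e (nat_lit 155392) (nat_lit 0) .nil))))))) (.g (nat_lit 6) .nil .nil))))))) (.nd (nat_lit 2) (.nd (nat_lit 3) (.nd (nat_lit 4) (.nd (nat_lit 5) 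
(.lf (nat_lit 62722) (.g (nat_lit 2805) (.e (nat_lit 1585) (nat_lit 111) (.e (nat_lit 360452) (nat_lit 0) (.e (nat_lit 7270) (nat_lit 385) (.e (nat_lit 122919) (nat_lit 15) (.e (nat_lit 360488) (nat_lit 20) .nil))))) .nil)) 
(.lf (nat_lit 62754) (.g (nat_lit 1489) (.e (nat_lit 1585) (nat_lit 111) (.e (nat_lit 360466) (nat_lit 3) (.e (nat_lit 516117) (nat_lit 1) (.e (nat_lit 164166) (nat_lit 152) (.e (nat_lit 1200) (nat_lit 88) .nil))))) .nil))) (.nd (nat_lit 5) 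
(.lf (nat_lit 62738) (.g (nat_lit 2469) (.e (nat_lit 1585) (nat_lit 111) (.e (nat_lit 360453) (nat_lit 0) (.e (nat_lit 7270) (nat_lit 385) (.e (nat_lit 122917) (nat_lit 15) (.e (nat_lit 360488) (nat_lit 20) .nil))))) .nil)) 
(.lf (nat_lit 62770) (.g (nat_lit 4237) (.e (nat_lit 1585) (nat_lit 111) (.e (nat_lit 360474) (nat_lit 8) (.e (nat_lit 557091) (nat_lit 12) (.e (nat_lit 163999) (nat_lit 38) (.e (nat_lit 639020) (nat_lit 16) (.e (nat_lit 65580) (nat_lit 6) (.e (nat_lit 155392) (nat_lit 0) .nil))))))) (.g (nat_lit 6) .nil .nil))))) (.nd (nat_lit 4) (.nd (nat_lit 5) 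
(.lf (nat_lit 62730) (.g (nat_lit 1494) (.e (nat_lit 1585) (nat_lit 111) (.e (nat_lit 360452) (nat_lit 0) (.e (nat_lit 7272) (nat_lit 385) (.e (nat_lit 122916) (nat_lit 14) .nil)))) .nil)) 
(.lf (nat_lit 62762) (.g (nat_lit 2718) (.e (nat_lit 1585) (nat_lit 111) (.e (nat_lit 360473) (nat_lit 8) (.e (nat_lit 557091) (nat_lit 12) (.e (nat_lit 163999) (nat_lit 38) (.e (nat_lit 639020) (nat_lit 16) .nil))))) .nil))) (.nd (nat_lit 5) 
(.lf (nat_lit 62746) (.g (nat_lit 884) (.e (nat_lit 1585) (nat_lit 111) (.e (nat_lit 360457) (nat_lit 0) (.e (nat_lit 5818) (nat_lit 320) (.e (nat_lit 1222) (nat_lit 90) (.e (nat_lit 89856) (nat_lit 8) .nil))))) .nil)) 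
(.lf (nat_lit 62778) (.g (nat_lit 2537) (.e (nat_lit 1585) (nat_lit 111) (.e (nat_lit 360475) (nat_lit 8) (.e (nat_lit 557091) (nat_lit 12) (.e (nat_lit 163999) (nat_lit 38) (.e (nat_lit 639020) (nat_lit 16) .nil))))) .nil))))) (.nd (nat_lit 3) (.nd (nat_lit 4) (.nd (nat_lit 5) 
(.lf (nat_lit 62726) (.g (nat_lit 1284) (.e (nat_lit 1585) (nat_lit 111) (.e (nat_lit 360452) (nat_lit 0) (.e (nat_lit 7271) (nat_lit 385) (.e (nat_lit 122917) (nat_lit 15) .nil)))) .nil)) 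
(.lf (nat_lit 62758) (.g (nat_lit 646) (.e (nat_lit 1585) (nat_lit 111) (.e (nat_lit 360466) (nat_lit 3) (.e (nat_lit 516191) (nat_lit 17) .nil))) .nil))) (.nd (nat_lit 5) 
(.lf (nat_lit 62742) (.g (nat_lit 1760) (.e (nat_lit 1585) (nat_lit 111) (.e (nat_lit 360453) (nat_lit 0) (.e (nat_lit 7272) (nat_lit 385) (.e (nat_lit 122916) (nat_lit 14) (.e (nat_lit 352302) (nat_lit 20) .nil))))) .nil)) 
(.lf (nat_lit 62774) (.g (nat_lit 2828) (.e (nat_lit 1585) (nat_lit 111) (.e (nat_lit 360475) (nat_lit 8) (.e (nat_lit 557090) (nat_lit 12) (.e (nat_lit 164020) (nat_lit 45) .nil)))) .nil)))) (.nd (nat_lit 4) (.nd (nat_lit 5) 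
(.lf (nat_lit 62734) (.g (nat_lit 2200) (.e (nat_lit 1585) (nat_lit 111) (.e (nat_lit 360452) (nat_lit 0) (.e (nat_lit 7272) (nat_lit 385) (.e (nat_lit 122919) (nat_lit 15) (.e (nat_lit 360488) (nat_lit 20) .nil))))) .nil)) 
(.lf (nat_lit 62766) (.g (nat_lit 2798) (.e (nat_lit 1585) (nat_lit 111) (.e (nat_lit 360474) (nat_lit 8) (.e (nat_lit 557091) (nat_lit 12) (.e (nat_lit 163999) (nat_lit 38) (.e (nat_lit 639020) (nat_lit 16) (.e (nat_lit 65578) (nat_lit 6) (.e (nat_lit 147458) (nat_lit 0) .nil))))))) (.g (nat_lit 4) .nil .nil)))) (.nd (nat_lit 5) 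
(.lf (nat_lit 62750) (.g (nat_lit 2681) (.e (nat_lit 1585) (nat_lit 111) (.e (nat_lit 360466) (nat_lit 3) (.e (nat_lit 516115) (nat_lit 1) (.e (nat_lit 164179) (nat_lit 154) (.e (nat_lit 57403) (nat_lit 11) .nil))))) .nil)) 
(.lf (nat_lit 62782) (.g (nat_lit 2056) (.e (nat_lit 1585) (nat_lit 111) (.e (nat_lit 360475) (nat_lit 8) (.e (nat_lit 557091) (nat_lit 12) (.e (nat_lit 164006) (nat_lit 41) .nil)))) .nil))))))) (.nd (nat_lit 1) (.nd (nat_lit 2) (.nd (nat_lit 3) (.nd (nat_lit 4) (.nd (nat_lit 5) 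
(.lf (nat_lit 62721) (.g (nat_lit 2568) (.e (nat_lit 1585) (nat_lit 111) (.e (nat_lit 360452) (nat_lit 0) (.e (nat_lit 7270) (nat_lit 385) (.e (nat_lit 122917) (nat_lit 15) (.e (nat_lit 360488) (nat_lit 20) .nil))))) .nil)) 
(.lf (nat_lit 62753) (.g (nat_lit 1784) (.e (nat_lit 1585) (nat_lit 111) (.e (nat_lit 360466) (nat_lit 3) (.e (nat_lit 516117) (nat_lit 1) (.e (nat_lit 164159) (nat_lit 152) (.e (nat_lit 1201) (nat_lit 88) .nil))))) .nil))) (.nd (nat_lit 5) 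
(.lf (nat_lit 62737) (.g (nat_lit 1574) (.e (nat_lit 1585) (nat_lit 111) (.e (nat_lit 360452) (nat_lit 0) (.e (nat_lit 7273) (nat_lit 385) (.e (nat_lit 122917) (nat_lit 15) (.e (nat_lit 360488) (nat_lit 20) .nil))))) .nil)) 
(.lf (nat_lit 62769) (.g (nat_lit 3572) (.e (nat_lit 1585) (nat_lit 111) (.e (nat_lit 360474) (nat_lit 8) (.e (nat_lit 557091) (nat_lit 12) (.e (nat_lit 163999) (nat_lit 38) (.e (nat_lit 639020) (nat_lit 16) (.e (nat_lit 65580) (nat_lit 6) (.e (nat_lit 147458) (nat_lit 0) .nil))))))) (.g (nat_lit 5) .nil .nil))))) (.nd (nat_lit 4) (.nd (nat_lit 5) 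
(.lf (nat_lit 62729) (.g (nat_lit 1453) (.e (nat_lit 1585) (nat_lit 111) (.e (nat_lit 360452) (nat_lit 0) (.e (nat_lit 7272) (nat_lit 385) (.e (nat_lit 122906) (nat_lit 12) .nil)))) .nil)) 
(.lf (nat_lit 62761) (.g (nat_lit 1726) (.e (nat_lit 1585) (nat_lit 111) (.e (nat_lit 360473) (nat_lit 8) (.e (nat_lit 557087) (nat_lit 11) (.e (nat_lit 24617) (nat_lit 7) .nil)))) .nil))) (.nd (nat_lit 5) 
(.lf (nat_lit 62745) (.g (nat_lit 1119) (.e (nat_lit 1585) (nat_lit 111) (.e (nat_lit 360453) (nat_lit 0) (.e (nat_lit 7273) (nat_lit 385) (.e (nat_lit 122917) (nat_lit 15) (.e (nat_lit 360488) (nat_lit 20) .nil))))) .nil)) 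
(.lf (nat_lit 62777) (.g (nat_lit 1971) (.e (nat_lit 1585) (nat_lit 111) (.e (nat_lit 360475) (nat_lit 8) (.e (nat_lit 557091) (nat_lit 12) (.e (nat_lit 163999) (nat_lit 38) .nil)))) .nil))))) (.nd (nat_lit 3) (.nd (nat_lit 4) (.nd (nat_lit 5) 
(.lf (nat_lit 62725) (.g (nat_lit 1967) (.e (nat_lit 1585) (nat_lit 111) (.e (nat_lit 360452) (nat_lit 0) (.e (nat_lit 7271) (nat_lit 385) (.e (nat_lit 122916) (nat_lit 14) (.e (nat_lit 352302) (nat_lit 20) .nil))))) .nil)) 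
(.lf (nat_lit 62757) (.g (nat_lit 2612) (.e (nat_lit 1585) (nat_lit 111) (.e (nat_lit 360466) (nat_lit 3) (.e (nat_lit 516179) (nat_lit 15) (.e (nat_lit 475214) (nat_lit 42) (.e (nat_lit 720912) (nat_lit 20) .nil))))) .nil))) (.nd (nat_lit 5) 
(.lf (nat_lit 62741) (.g (nat_lit 1747) (.e (nat_lit 1585) (nat_lit 111) (.e (nat_lit 360453) (nat_lit 0) (.e (nat_lit 7272) (nat_lit 385) (.e (nat_lit 122916) (nat_lit 14) (.e (nat_lit 352293) (nat_lit 20) .nil))))) .nil)) 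
(.lf (nat_lit 62773) (.g (nat_lit 2089) (.e (nat_lit 1585) (nat_lit 111) (.e (nat_lit 360475) (nat_lit 8) (.e (nat_lit 557089) (nat_lit 12) (.e (nat_lit 164010) (nat_lit 41) .nil)))) .nil)))) (.nd (nat_lit 4) (.nd (nat_lit 5) 
(.lf (nat_lit 62733) (.g (nat_lit 2290) (.e (nat_lit 1585) (nat_lit 111) (.e (nat_lit 360452) (nat_lit 0) (.e (nat_lit 7272) (nat_lit 385) (.e (nat_lit 122917) (nat_lit 15) (.e (nat_lit 360488) (nat_lit 20) .nil))))) .nil)) 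
(.lf (nat_lit 62765) (.g (nat_lit 1594) (.e (nat_lit 1585) (nat_lit 111) (.e (nat_lit 360474) (nat_lit 8) (.e (nat_lit 557091) (nat_lit 12) (.e (nat_lit 163999) (nat_lit 38) .nil)))) .nil))) (.nd (nat_lit 5) 
(.lf (nat_lit 62749) (.g (nat_lit 1399) (.e (nat_lit 1585) (nat_lit 111) (.e (nat_lit 360457) (nat_lit 0) (.e (nat_lit 5949) (nat_lit 322) (.e (nat_lit 57424) (nat_lit 14) (.e (nat_lit 352270) (nat_lit 8) .nil))))) .nil)) 
(.lf (nat_lit 62781) (.g (nat_lit 1991) (.e (nat_lit 1585) (nat_lit 111) (.e (nat_lit 360475) (nat_lit 8) (.e (nat_lit 557091) (nat_lit 12) (.e (nat_lit 164000) (nat_lit 38) .nil)))) .nil)))))) (.nd (nat_lit 2) (.nd (nat_lit 3) (.nd (nat_lit 4) (.nd (nat_lit 5) 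
(.lf (nat_lit 62723) (.g (nat_lit 639) (.e (nat_lit 1585) (nat_lit 111) (.e (nat_lit 360452) (nat_lit 0) (.e (nat_lit 7271) (nat_lit 385) .nil))) .nil)) 
(.lf (nat_lit 62755) (.g (nat_lit 1542) (.e (nat_lit 1585) (nat_lit 111) (.e (nat_lit 360466) (nat_lit 3) (.e (nat_lit 516120) (nat_lit 1) (.e (nat_lit 164159) (nat_lit 152) .nil)))) .nil))) (.nd (nat_lit 5) 
(.lf (nat_lit 62739) (.g (nat_lit 2761) (.e (nat_lit 1585) (nat_lit 111) (.e (nat_lit 360453) (nat_lit 0) (.e (nat_lit 7270) (nat_lit 385) (.e (nat_lit 122919) (nat_lit 15) (.e (nat_lit 360488) (nat_lit 20) .nil))))) .nil)) 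
(.lf (nat_lit 62771) (.g (nat_lit 752) (.e (nat_lit 1585) (nat_lit 111) (.e (nat_lit 360475) (nat_lit 8) (.e (nat_lit 557089) (nat_lit 12) .nil))) .nil)))) (.nd (nat_lit 4) (.nd (nat_lit 5) 
(.lf (nat_lit 62731) (.g (nat_lit 2133) (.e (nat_lit 1585) (nat_lit 111) (.e (nat_lit 360452) (nat_lit 0) (.e (nat_lit 7272) (nat_lit 385) (.e (nat_lit 122916) (nat_lit 14) (.e (nat_lit 352293) (nat_lit 20) .nil))))) .nil)) 
(.lf (nat_lit 62763) (.g (nat_lit 1527) (.e (nat_lit 1585) (nat_lit 111) (.e (nat_lit 360473) (nat_lit 8) (.e (nat_lit 557091) (nat_lit 12) (.e (nat_lit 164022) (nat_lit 46) .nil)))) .nil))) (.nd (nat_lit 5) 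
(.lf (nat_lit 62747) (.g (nat_lit 890) (.e (nat_lit 1585) (nat_lit 111) (.e (nat_lit 360457) (nat_lit 0) (.e (nat_lit 5818) (nat_lit 320) (.e (nat_lit 1224) (nat_lit 90) (.e (nat_lit 89856) (nat_lit 8) .nil))))) .nil)) 
(.lf (nat_lit 62779) (.g (nat_lit 3233) (.e (nat_lit 1585) (nat_lit 111) (.e (nat_lit 360475) (nat_lit 8) (.e (nat_lit 557091) (nat_lit 12) (.e (nat_lit 163999) (nat_lit 38) (.e (nat_lit 639020) (nat_lit 16) (.e (nat_lit 65580) (nat_lit 6) (.e (nat_lit 147458) (nat_lit 0) .nil))))))) (.g (nat_lit 5) .nil .nil)))))) (.nd (nat_lit 3) (.nd (nat_lit 4) (.nd (nat_lit 5) 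
(.lf (nat_lit 62727) (.g (nat_lit 1282) (.e (nat_lit 1585) (nat_lit 111) (.e (nat_lit 360452) (nat_lit 0) (.e (nat_lit 7271) (nat_lit 385) (.e (nat_lit 122918) (nat_lit 15) .nil)))) .nil)) 
(.lf (nat_lit 62759) (.g (nat_lit 1166) (.e (nat_lit 1585) (nat_lit 111) (.e (nat_lit 360466) (nat_lit 3) (.e (nat_lit 516191) (nat_lit 17) (.e (nat_lit 6209) (nat_lit 333) .nil)))) .nil))) (.nd (nat_lit 5) 
(.lf (nat_lit 62743) (.g (nat_lit 1909) (.e (nat_lit 1585) (nat_lit 111) (.e (nat_lit 360453) (nat_lit 0) (.e (nat_lit 7272) (nat_lit 385) (.e (nat_lit 122917) (nat_lit 15) (.e (nat_lit 360488) (nat_lit 20) .nil))))) .nil)) 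
(.lf (nat_lit 62775) (.g (nat_lit 4940) (.e (nat_lit 1585) (nat_lit 111) (.e (nat_lit 360475) (nat_lit 8) (.e (nat_lit 557090) (nat_lit 12) (.e (nat_lit 164020) (nat_lit 45) (.e (nat_lit 696344) (nat_lit 8) (.e (nat_lit 172064) (nat_lit 2) (.e (nat_lit 204544) (nat_lit 9) .nil))))))) (.g (nat_lit 4) .nil .nil))))) (.nd (nat_lit 4) (.nd (nat_lit 5) 
(.lf (nat_lit 62735) (.g (nat_lit 1913) (.e (nat_lit 1585) (nat_lit 111) (.e (nat_lit 360452) (nat_lit 0) (.e (nat_lit 7273) (nat_lit 385) (.e (nat_lit 122916) (nat_lit 14) (.e (nat_lit 352293) (nat_lit 20) .nil))))) .nil)) 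
(.lf (nat_lit 62767) (.g (nat_lit 3451) (.e (nat_lit 1585) (nat_lit 111) (.e (nat_lit 360474) (nat_lit 8) (.e (nat_lit 557091) (nat_lit 12) (.e (nat_lit 163999) (nat_lit 38) (.e (nat_lit 639020) (nat_lit 16) (.e (nat_lit 65578) (nat_lit 6) (.e (nat_lit 147459) (nat_lit 0) .nil))))))) (.g (nat_lit 5) .nil .nil)))) (.nd (nat_lit 5) 
(.lf (nat_lit 62751) (.g (nat_lit 491) (.e (nat_lit 1585) (nat_lit 111) (.e (nat_lit 360466) (nat_lit 3) (.e (nat_lit 516117) (nat_lit 1) .nil))) .nil)) 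
(.lf (nat_lit 62783) (.g (nat_lit 2282) (.e (nat_lit 1585) (nat_lit 111) (.e (nat_lit 360475) (nat_lit 8) (.e (nat_lit 557091) (nat_lit 12) (.e (nat_lit 164007) (nat_lit 41) .nil)))) .nil))))))))

noncomputable def tv860 : DT := (.nd (nat_lit 0) (.nd (nat_lit 1) (.nd (nat_lit 2) (.nd (nat_lit 3) (.nd (nat_lit 4) (.nd (nat_lit 5) 
(.lf (nat_lit 62784) (.g (nat_lit 2286) (.e (nat_lit 1585) (nat_lit 111) (.e (nat_lit 360475) (nat_lit 8) (.e (nat_lit 557091) (nat_lit 12) (.e (nat_lit 164008) (nat_lit 41) .nil)))) .nil)) 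
(.lf (nat_lit 62816) (.g (nat_lit 1974) (.e (nat_lit 1585) (nat_lit 111) (.e (nat_lit 360489) (nat_lit 21) (.e (nat_lit 770058) (nat_lit 5) (.e (nat_lit 1589) (nat_lit 111) (.e (nat_lit 360488) (nat_lit 20) (.e (nat_lit 761869) (nat_lit 5) .nil)))))) (.g (nat_lit 0) .nil .nil)))) (.nd (nat_lit 5) 
(.lf (nat_lit 62800) (.g (nat_lit 1037) (.e (nat_lit 1585) (nat_lit 111) (.e (nat_lit 360486) (nat_lit 18) (.e (nat_lit 671748) (nat_lit 0) (.e (nat_lit 1575) (nat_lit 110) (.e (nat_lit 360192) (nat_lit 4) .nil))))) .nil)) 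
(.lf (nat_lit 62832) (.g (nat_lit 180) (.e (nat_lit 1585) (nat_lit 111) (.e (nat_lit 368384) (nat_lit 26) (.e (nat_lit 811011) (nat_lit 0) (.e (nat_lit 5777) (nat_lit 317) (.e (nat_lit 188160) (nat_lit 8) (.e (nat_lit 557060) (nat_lit 0) .nil)))))) (.g (nat_lit 4) .nil .nil))))) (.nd (nat_lit 4) (.nd (nat_lit 5) 
(.lf (nat_lit 62792) (.g (nat_lit 824) (.e (nat_lit 1585) (nat_lit 111) (.e (nat_lit 360477) (nat_lit 11) (.e (nat_lit 581651) (nat_lit 4) (.e (nat_lit 172080) (nat_lit 7) .nil)))) .nil)) 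
(.lf (nat_lit 62824) (.g (nat_lit 1450) (.e (nat_lit 1585) (nat_lit 111) (.e (nat_lit 360489) (nat_lit 21) (.e (nat_lit 770072) (nat_lit 8) (.e (nat_lit 65598) (nat_lit 9) (.e (nat_lit 335886) (nat_lit 0) .nil))))) .nil))) (.nd (nat_lit 5) 
(.lf (nat_lit 62808) (.g (nat_lit 1282) (.e (nat_lit 1585) (nat_lit 111) (.e (nat_lit 360489) (nat_lit 21) (.e (nat_lit 770055) (nat_lit 5) (.e (nat_lit 1598) (nat_lit 111) (.e (nat_lit 360488) (nat_lit 20) (.e (nat_lit 761868) (nat_lit 5) .nil)))))) (.g (nat_lit 6) .nil .nil))) 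
(.lf (nat_lit 62840) (.g (nat_lit 1248) (.e (nat_lit 1585) (nat_lit 111) (.e (nat_lit 360493) (nat_lit 27) (.e (nat_lit 819204) (nat_lit 0) (.e (nat_lit 3015) (nat_lit 187) (.e (nat_lit 458496) (nat_lit 8) (.e (nat_lit 557060) (nat_lit 0) .nil)))))) (.g (nat_lit 4) .nil .nil)))))) (.nd (nat_lit 3) (.nd (nat_lit 4) (.nd (nat_lit 5) 
(.lf (nat_lit 62788) (.g (nat_lit 2850) (.e (nat_lit 1585) (nat_lit 111) (.e (nat_lit 360475) (nat_lit 8) (.e (nat_lit 557119) (nat_lit 18) (.e (nat_lit 2798) (nat_lit 180) (.e (nat_lit 303124) (nat_lit 7) (.e (nat_lit 409634) (nat_lit 13) (.e (nat_lit 40964) (nat_lit 0) .nil))))))) (.g (nat_lit 4) .nil .nil))) 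
(.lf (nat_lit 62820) (.g (nat_lit 1420) (.e (nat_lit 1585) (nat_lit 111) (.e (nat_lit 360489) (nat_lit 21) (.e (nat_lit 770071) (nat_lit 8) (.e (nat_lit 65610) (nat_lit 10) (.e (nat_lit 344173) (nat_lit 42) .nil))))) .nil))) (.nd (nat_lit 5) 
(.lf (nat_lit 62804) (.g (nat_lit 686) (.e (nat_lit 1585) (nat_lit 111) (.e (nat_lit 360486) (nat_lit 18) (.e (nat_lit 671764) (nat_lit 6) (.e (nat_lit 89856) (nat_lit 4) .nil)))) .nil)) 
(.lf (nat_lit 62836) (.g (nat_lit 844) (.e (nat_lit 1585) (nat_lit 111) (.e (nat_lit 360493) (nat_lit 27) (.e (nat_lit 819203) (nat_lit 0) (.e (nat_lit 3015) (nat_lit 187) (.e (nat_lit 458496) (nat_lit 8) .nil))))) .nil)))) (.nd (nat_lit 4) (.nd (nat_lit 5) 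
(.lf (nat_lit 62796) (.g (nat_lit 516) (.e (nat_lit 1585) (nat_lit 111) (.e (nat_lit 360486) (nat_lit 18) (.e (nat_lit 671747) (nat_lit 0) .nil))) .nil)) 
(.lf (nat_lit 62828) (.g (nat_lit 1649) (.e (nat_lit 1585) (nat_lit 111) (.e (nat_lit 360489) (nat_lit 21) (.e (nat_lit 770074) (nat_lit 10) (.e (nat_lit 81942) (nat_lit 20) (.e (nat_lit 2270) (nat_lit 149) (.e (nat_lit 761868) (nat_lit 5) .nil)))))) (.g (nat_lit 6) .nil .nil)))) (.nd (nat_lit 5) 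
(.lf (nat_lit 62812) (.g (nat_lit 1268) (.e (nat_lit 1585) (nat_lit 111) (.e (nat_lit 360489) (nat_lit 21) (.e (nat_lit 770057) (nat_lit 5) (.e (nat_lit 1598) (nat_lit 111) (.e (nat_lit 360488) (nat_lit 20) (.e (nat_lit 761868) (nat_lit 5) .nil)))))) (.g (nat_lit 0) .nil .nil))) 
(.lf (nat_lit 62844) (.g (nat_lit 635) (.e (nat_lit 1585) (nat_lit 111) (.e (nat_lit 360493) (nat_lit 27) (.e (nat_lit 819221) (nat_lit 6) (.e (nat_lit 188427) (nat_lit 20) (.e (nat_lit 3282) (nat_lit 200) (.e (nat_lit 557060) (nat_lit 0) .nil)))))) (.g (nat_lit 6) .nil .nil))))))) (.nd (nat_lit 2) (.nd (nat_lit 3) (.nd (nat_lit 4) (.nd (nat_lit 5) 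
(.lf (nat_lit 62786) (.g (nat_lit 1784) (.e (nat_lit 1585) (nat_lit 111) (.e (nat_lit 360475) (nat_lit 8) (.e (nat_lit 557119) (nat_lit 18) (.e (nat_lit 2798) (nat_lit 180) .nil)))) .nil)) 
(.lf (nat_lit 62818) (.g (nat_lit 1125) (.e (nat_lit 1585) (nat_lit 111) (.e (nat_lit 360489) (nat_lit 21) (.e (nat_lit 770058) (nat_lit 5) (.e (nat_lit 1599) (nat_lit 111) (.e (nat_lit 360488) (nat_lit 20) (.e (nat_lit 761868) (nat_lit 5) .nil)))))) (.g (nat_lit 0) .nil .nil)))) (.nd (nat_lit 5) 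
(.lf (nat_lit 62802) (.g (nat_lit 947) (.e (nat_lit 1585) (nat_lit 111) (.e (nat_lit 360486) (nat_lit 18) (.e (nat_lit 671753) (nat_lit 0) (.e (nat_lit 1555) (nat_lit 110) (.e (nat_lit 352270) (nat_lit 8) (.e (nat_lit 262148) (nat_lit 0) .nil)))))) (.g (nat_lit 5) .nil .nil))) 
(.lf (nat_lit 62834) (.g (nat_lit 114) (.e (nat_lit 1585) (nat_lit 111) (.e (nat_lit 368384) (nat_lit 26) (.e (nat_lit 811012) (nat_lit 0) (.e (nat_lit 5777) (nat_lit 317) (.e (nat_lit 188160) (nat_lit 8) (.e (nat_lit 557060) (nat_lit 0) .nil)))))) (.g (nat_lit 4) .nil .nil))))) (.nd (nat_lit 4) (.nd (nat_lit 5) 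
(.lf (nat_lit 62794) (.g (nat_lit 823) (.e (nat_lit 1585) (nat_lit 111) (.e (nat_lit 360477) (nat_lit 11) (.e (nat_lit 581651) (nat_lit 4) (.e (nat_lit 172082) (nat_lit 7) .nil)))) .nil)) 
(.lf (nat_lit 62826) (.g (nat_lit 1817) (.e (nat_lit 1585) (nat_lit 111) (.e (nat_lit 360489) (nat_lit 21) (.e (nat_lit 770072) (nat_lit 8) (.e (nat_lit 65610) (nat_lit 10) (.e (nat_lit 344174) (nat_lit 42) (.e (nat_lit 761868) (nat_lit 5) .nil)))))) (.g (nat_lit 6) .nil .nil)))) (.nd (nat_lit 5) 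
(.lf (nat_lit 62810) (.g (nat_lit 1695) (.e (nat_lit 1585) (nat_lit 111) (.e (nat_lit 360489) (nat_lit 21) (.e (nat_lit 770057) (nat_lit 5) (.e (nat_lit 1589) (nat_lit 111) (.e (nat_lit 360488) (nat_lit 20) (.e (nat_lit 761868) (nat_lit 5) .nil)))))) (.g (nat_lit 0) .nil .nil))) 
(.lf (nat_lit 62842) (.g (nat_lit 1080) (.e (nat_lit 1585) (nat_lit 111) (.e (nat_lit 360493) (nat_lit 27) (.e (nat_lit 819204) (nat_lit 0) (.e (nat_lit 3022) (nat_lit 187) (.e (nat_lit 458496) (nat_lit 8) .nil))))) .nil))))) (.nd (nat_lit 3) (.nd (nat_lit 4) (.nd (nat_lit 5) 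
(.lf (nat_lit 62790) (.g (nat_lit 1131) (.e (nat_lit 1585) (nat_lit 111) (.e (nat_lit 360477) (nat_lit 11) (.e (nat_lit 581651) (nat_lit 4) (.e (nat_lit 172079) (nat_lit 7) (.e (nat_lit 409633) (nat_lit 13) .nil))))) .nil)) 
(.lf (nat_lit 62822) (.g (nat_lit 2033) (.e (nat_lit 1585) (nat_lit 111) (.e (nat_lit 360489) (nat_lit 21) (.e (nat_lit 770071) (nat_lit 8) (.e (nat_lit 65619) (nat_lit 10) (.e (nat_lit 344174) (nat_lit 42) (.e (nat_lit 761868) (nat_lit 5) .nil)))))) (.g (nat_lit 5) .nil .nil)))) (.nd (nat_lit 5) 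
(.lf (nat_lit 62806) (.g (nat_lit 1351) (.e (nat_lit 1585) (nat_lit 111) (.e (nat_lit 360488) (nat_lit 20) (.e (nat_lit 761866) (nat_lit 5) (.e (nat_lit 1454) (nat_lit 108) (.e (nat_lit 336179) (nat_lit 10) .nil))))) .nil)) 
(.lf (nat_lit 62838) (.g (nat_lit 379) (.e (nat_lit 1585) (nat_lit 111) (.e (nat_lit 360493) (nat_lit 27) (.e (nat_lit 819203) (nat_lit 0) (.e (nat_lit 3021) (nat_lit 187) (.e (nat_lit 458496) (nat_lit 8) (.e (nat_lit 557061) (nat_lit 0) .nil)))))) (.g (nat_lit 4) .nil .nil))))) (.nd (nat_lit 4) (.nd (nat_lit 5) 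
(.lf (nat_lit 62798) (.g (nat_lit 910) (.e (nat_lit 1585) (nat_lit 111) (.e (nat_lit 360486) (nat_lit 18) (.e (nat_lit 671747) (nat_lit 0) (.e (nat_lit 1569) (nat_lit 110) .nil)))) .nil)) 
(.lf (nat_lit 62830) (.g (nat_lit 1524) (.e (nat_lit 1585) (nat_lit 111) (.e (nat_lit 360492) (nat_lit 22) (.e (nat_lit 778465) (nat_lit 11) (.e (nat_lit 24639) (nat_lit 10) (.e (nat_lit 344174) (nat_lit 42) .nil))))) .nil))) (.nd (nat_lit 5) 
(.lf (nat_lit 62814) (.g (nat_lit 1251) (.e (nat_lit 1585) (nat_lit 111) (.e (nat_lit 360489) (nat_lit 21) (.e (nat_lit 770057) (nat_lit 5) (.e (nat_lit 1599) (nat_lit 111) (.e (nat_lit 360488) (nat_lit 20) (.e (nat_lit 761869) (nat_lit 5) .nil)))))) (.g (nat_lit 0) .nil .nil))) 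
(.lf (nat_lit 62846) (.g (nat_lit 393) (.e (nat_lit 1585) (nat_lit 111) (.e (nat_lit 360493) (nat_lit 27) (.e (nat_lit 819221) (nat_lit 6) (.e (nat_lit 188430) (nat_lit 20) (.e (nat_lit 3282) (nat_lit 200) (.e (nat_lit 557060) (nat_lit 0) .nil)))))) (.g (nat_lit 6) .nil .nil)))))))) (.nd (nat_lit 1) (.nd (nat_lit 2) (.nd (nat_lit 3) (.nd (nat_lit 4) (.nd (nat_lit 5) 
(.lf (nat_lit 62785) (.g (nat_lit 743) (.e (nat_lit 1585) (nat_lit 111) (.e (nat_lit 360475) (nat_lit 8) (.e (nat_lit 557119) (nat_lit 18) .nil))) .nil)) 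
(.lf (nat_lit 62817) (.g (nat_lit 1324) (.e (nat_lit 1585) (nat_lit 111) (.e (nat_lit 360489) (nat_lit 21) (.e (nat_lit 770058) (nat_lit 5) (.e (nat_lit 1598) (nat_lit 111) (.e (nat_lit 360488) (nat_lit 20) (.e (nat_lit 761868) (nat_lit 5) .nil)))))) (.g (nat_lit 0) .nil .nil)))) (.nd (nat_lit 5) 
(.lf (nat_lit 62801) (.g (nat_lit 520) (.e (nat_lit 1585) (nat_lit 111) (.e (nat_lit 360486) (nat_lit 18) (.e (nat_lit 671753) (nat_lit 0) .nil))) .nil)) 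
(.lf (nat_lit 62833) (.g (nat_lit 138) (.e (nat_lit 1585) (nat_lit 111) (.e (nat_lit 368384) (nat_lit 26) (.e (nat_lit 811011) (nat_lit 0) (.e (nat_lit 5780) (nat_lit 317) (.e (nat_lit 188160) (nat_lit 8) (.e (nat_lit 557060) (nat_lit 0) .nil)))))) (.g (nat_lit 4) .nil .nil))))) (.nd (nat_lit 4) (.nd (nat_lit 5) 
(.lf (nat_lit 62793) (.g (nat_lit 840) (.e (nat_lit 1585) (nat_lit 111) (.e (nat_lit 360477) (nat_lit 11) (.e (nat_lit 581651) (nat_lit 4) (.e (nat_lit 172081) (nat_lit 7) .nil)))) .nil)) 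
(.lf (nat_lit 62825) (.g (nat_lit 1053) (.e (nat_lit 1585) (nat_lit 111) (.e (nat_lit 360489) (nat_lit 21) (.e (nat_lit 770072) (nat_lit 8) (.e (nat_lit 65609) (nat_lit 10) (.e (nat_lit 344174) (nat_lit 42) .nil))))) .nil))) (.nd (nat_lit 5) 
(.lf (nat_lit 62809) (.g (nat_lit 1410) (.e (nat_lit 1585) (nat_lit 111) (.e (nat_lit 360489) (nat_lit 21) (.e (nat_lit 770055) (nat_lit 5) (.e (nat_lit 1598) (nat_lit 111) (.e (nat_lit 360488) (nat_lit 20) (.e (nat_lit 761869) (nat_lit 5) .nil)))))) (.g (nat_lit 6) .nil .nil))) 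
(.lf (nat_lit 62841) (.g (nat_lit 1256) (.e (nat_lit 1585) (nat_lit 111) (.e (nat_lit 360493) (nat_lit 27) (.e (nat_lit 819204) (nat_lit 0) (.e (nat_lit 3015) (nat_lit 187) (.e (nat_lit 458496) (nat_lit 8) (.e (nat_lit 557061) (nat_lit 0) .nil)))))) (.g (nat_lit 4) .nil .nil)))))) (.nd (nat_lit 3) (.nd (nat_lit 4) (.nd (nat_lit 5) 
(.lf (nat_lit 62789) (.g (nat_lit 394) (.e (nat_lit 1585) (nat_lit 111) (.e (nat_lit 360477) (nat_lit 11) (.e (nat_lit 581651) (nat_lit 4) .nil))) .nil)) 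
(.lf (nat_lit 62821) (.g (nat_lit 1771) (.e (nat_lit 1585) (nat_lit 111) (.e (nat_lit 360489) (nat_lit 21) (.e (nat_lit 770071) (nat_lit 8) (.e (nat_lit 65610) (nat_lit 10) (.e (nat_lit 344174) (nat_lit 42) (.e (nat_lit 761868) (nat_lit 5) .nil)))))) (.g (nat_lit 5) .nil .nil)))) (.nd (nat_lit 5) 
(.lf (nat_lit 62805) (.g (nat_lit 686) (.e (nat_lit 1585) (nat_lit 111) (.e (nat_lit 360486) (nat_lit 18) (.e (nat_lit 671764) (nat_lit 6) (.e (nat_lit 89856) (nat_lit 8) .nil)))) .nil)) 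
(.lf (nat_lit 62837) (.g (nat_lit 349) (.e (nat_lit 1585) (nat_lit 111) (.e (nat_lit 360493) (nat_lit 27) (.e (nat_lit 819203) (nat_lit 0) (.e (nat_lit 3021) (nat_lit 187) (.e (nat_lit 458496) (nat_lit 8) .nil))))) .nil)))) (.nd (nat_lit 4) (.nd (nat_lit 5) 
(.lf (nat_lit 62797) (.g (nat_lit 912) (.e (nat_lit 1585) (nat_lit 111) (.e (nat_lit 360486) (nat_lit 18) (.e (nat_lit 671747) (nat_lit 0) (.e (nat_lit 1559) (nat_lit 110) .nil)))) .nil)) 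
(.lf (nat_lit 62829) (.g (nat_lit 2227) (.e (nat_lit 1585) (nat_lit 111) (.e (nat_lit 360489) (nat_lit 21) (.e (nat_lit 770074) (nat_lit 10) (.e (nat_lit 81946) (nat_lit 20) (.e (nat_lit 2270) (nat_lit 149) (.e (nat_lit 761868) (nat_lit 5) .nil)))))) (.g (nat_lit 6) .nil .nil)))) (.nd (nat_lit 5) 
(.lf (nat_lit 62813) (.g (nat_lit 1087) (.e (nat_lit 1585) (nat_lit 111) (.e (nat_lit 360489) (nat_lit 21) (.e (nat_lit 770057) (nat_lit 5) (.e (nat_lit 1599) (nat_lit 111) (.e (nat_lit 360488) (nat_lit 20) (.e (nat_lit 761868) (nat_lit 5) .nil)))))) (.g (nat_lit 0) .nil .nil))) 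
(.lf (nat_lit 62845) (.g (nat_lit 419) (.e (nat_lit 1585) (nat_lit 111) (.e (nat_lit 360493) (nat_lit 27) (.e (nat_lit 819221) (nat_lit 6) (.e (nat_lit 188428) (nat_lit 20) (.e (nat_lit 3282) (nat_lit 200) (.e (nat_lit 557060) (nat_lit 0) .nil)))))) (.g (nat_lit 6) .nil .nil))))))) (.nd (nat_lit 2) (.nd (nat_lit 3) (.nd (nat_lit 4) (.nd (nat_lit 5) 
(.lf (nat_lit 62787) (.g (nat_lit 3010) (.e (nat_lit 1585) (nat_lit 111) (.e (nat_lit 360475) (nat_lit 8) (.e (nat_lit 557119) (nat_lit 18) (.e (nat_lit 2798) (nat_lit 180) (.e (nat_lit 303112) (nat_lit 0) (.e (nat_lit 7008) (nat_lit 377) (.e (nat_lit 2580) (nat_lit 161) (.e (nat_lit 40964) (nat_lit 0) .nil)))))))) (.g (nat_lit 5) .nil .nil))) 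
(.lf (nat_lit 62819) (.g (nat_lit 1287) (.e (nat_lit 1585) (nat_lit 111) (.e (nat_lit 360489) (nat_lit 21) (.e (nat_lit 770058) (nat_lit 5) (.e (nat_lit 1599) (nat_lit 111) (.e (nat_lit 360488) (nat_lit 20) (.e (nat_lit 761869) (nat_lit 5) .nil)))))) (.g (nat_lit 0) .nil .nil)))) (.nd (nat_lit 5) 
(.lf (nat_lit 62803) (.g (nat_lit 881) (.e (nat_lit 1585) (nat_lit 111) (.e (nat_lit 360486) (nat_lit 18) (.e (nat_lit 671753) (nat_lit 0) (.e (nat_lit 1574) (nat_lit 110) (.e (nat_lit 352270) (nat_lit 8) .nil))))) .nil)) 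
(.lf (nat_lit 62835) (.g (nat_lit 87) (.e (nat_lit 1585) (nat_lit 111) (.e (nat_lit 368384) (nat_lit 26) (.e (nat_lit 811012) (nat_lit 0) (.e (nat_lit 5780) (nat_lit 317) (.e (nat_lit 188160) (nat_lit 8) (.e (nat_lit 557060) (nat_lit 0) .nil)))))) (.g (nat_lit 4) .nil .nil))))) (.nd (nat_lit 4) (.nd (nat_lit 5) 
(.lf (nat_lit 62795) (.g (nat_lit 920) (.e (nat_lit 1585) (nat_lit 111) (.e (nat_lit 360477) (nat_lit 11) (.e (nat_lit 581652) (nat_lit 5) (.e (nat_lit 180285) (nat_lit 45) (.e (nat_lit 2577) (nat_lit 161) .nil))))) .nil)) 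
(.lf (nat_lit 62827) (.g (nat_lit 2053) (.e (nat_lit 1585) (nat_lit 111) (.e (nat_lit 360489) (nat_lit 21) (.e (nat_lit 770072) (nat_lit 8) (.e (nat_lit 65610) (nat_lit 10) (.e (nat_lit 344174) (nat_lit 42) (.e (nat_lit 761869) (nat_lit 5) .nil)))))) (.g (nat_lit 0) .nil .nil)))) (.nd (nat_lit 5) 
(.lf (nat_lit 62811) (.g (nat_lit 1831) (.e (nat_lit 1585) (nat_lit 111) (.e (nat_lit 360489) (nat_lit 21) (.e (nat_lit 770057) (nat_lit 5) (.e (nat_lit 1589) (nat_lit 111) (.e (nat_lit 360488) (nat_lit 20) (.e (nat_lit 761869) (nat_lit 5) .nil)))))) (.g (nat_lit 0) .nil .nil))) 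
(.lf (nat_lit 62843) (.g (nat_lit 539) (.e (nat_lit 1585) (nat_lit 111) (.e (nat_lit 360493) (nat_lit 27) (.e (nat_lit 819204) (nat_lit 0) (.e (nat_lit 3028) (nat_lit 187) .nil)))) .nil))))) (.nd (nat_lit 3) (.nd (nat_lit 4) (.nd (nat_lit 5) 
(.lf (nat_lit 62791) (.g (nat_lit 1054) (.e (nat_lit 1585) (nat_lit 111) (.e (nat_lit 360477) (nat_lit 11) (.e (nat_lit 581651) (nat_lit 4) (.e (nat_lit 172079) (nat_lit 7) (.e (nat_lit 409634) (nat_lit 13) .nil))))) .nil)) 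
(.lf (nat_lit 62823) (.g (nat_lit 1641) (.e (nat_lit 1585) (nat_lit 111) (.e (nat_lit 360489) (nat_lit 21) (.e (nat_lit 770071) (nat_lit 8) (.e (nat_lit 65620) (nat_lit 10) (.e (nat_lit 344174) (nat_lit 42) (.e (nat_lit 761868) (nat_lit 5) .nil)))))) (.g (nat_lit 5) .nil .nil)))) (.nd (nat_lit 5) 
(.lf (nat_lit 62807) (.g (nat_lit 1213) (.e (nat_lit 1585) (nat_lit 111) (.e (nat_lit 360488) (nat_lit 20) (.e (nat_lit 761867) (nat_lit 5) (.e (nat_lit 1454) (nat_lit 108) (.e (nat_lit 336179) (nat_lit 10) .nil))))) .nil)) 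
(.lf (nat_lit 62839) (.g (nat_lit 698) (.e (nat_lit 1585) (nat_lit 111) (.e (nat_lit 360493) (nat_lit 27) (.e (nat_lit 819203) (nat_lit 0) (.e (nat_lit 3022) (nat_lit 187) (.e (nat_lit 458496) (nat_lit 8) .nil))))) .nil)))) (.nd (nat_lit 4) (.nd (nat_lit 5) 
(.lf (nat_lit 62799) (.g (nat_lit 843) (.e (nat_lit 1585) (nat_lit 111) (.e (nat_lit 360486) (nat_lit 18) (.e (nat_lit 671748) (nat_lit 0) (.e (nat_lit 1569) (nat_lit 110) .nil)))) .nil)) 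
(.lf (nat_lit 62831) (.g (nat_lit 1702) (.e (nat_lit 1585) (nat_lit 111) (.e (nat_lit 360492) (nat_lit 22) (.e (nat_lit 778466) (nat_lit 11) (.e (nat_lit 24640) (nat_lit 10) (.e (nat_lit 344174) (nat_lit 42) .nil))))) .nil))) (.nd (nat_lit 5) 
(.lf (nat_lit 62815) (.g (nat_lit 1834) (.e (nat_lit 1585) (nat_lit 111) (.e (nat_lit 360489) (nat_lit 21) (.e (nat_lit 770058) (nat_lit 5) (.e (nat_lit 1589) (nat_lit 111) (.e (nat_lit 360488) (nat_lit 20) (.e (nat_lit 761868) (nat_lit 5) .nil)))))) (.g (nat_lit 0) .nil .nil))) 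
(.lf (nat_lit 62847) (.g (nat_lit 755) (.e (nat_lit 1585) (nat_lit 111) (.e (nat_lit 360493) (nat_lit 27) (.e (nat_lit 819221) (nat_lit 6) (.e (nat_lit 188431) (nat_lit 20) (.e (nat_lit 3282) (nat_lit 200) (.e (nat_lit 557060) (nat_lit 0) .nil)))))) (.g (nat_lit 6) .nil .nil)))))))))

noncomputable def tv861 : DT := (.nd (nat_lit 0) (.nd (nat_lit 1) (.nd (nat_lit 2) (.nd (nat_lit 3) (.nd (nat_lit 4) (.nd (nat_lit 5) 
(.lf (nat_lit 62848) (.g (nat_lit 1963) (.e (nat_lit 1586) (nat_lit 111) (.e (nat_lit 360448) (nat_lit 0) (.e (nat_lit 5219) (nat_lit 296) (.e (nat_lit 163908) (nat_lit 12) (.e (nat_lit 426286) (nat_lit 10) (.e (nat_lit 434269) (nat_lit 36) (.e (nat_lit 639007) (nat_lit 13) .nil))))))) (.g (nat_lit 5) .nil .nil))) 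
(.lf (nat_lit 62880) (.g (nat_lit 566) (.e (nat_lit 1586) (nat_lit 111) (.e (nat_lit 360450) (nat_lit 0) (.e (nat_lit 7220) (nat_lit 382) .nil))) .nil))) (.nd (nat_lit 5) 
(.lf (nat_lit 62864) (.g (nat_lit 2132) (.e (nat_lit 1586) (nat_lit 111) (.e (nat_lit 360450) (nat_lit 0) (.e (nat_lit 7122) (nat_lit 382) (.e (nat_lit 1224) (nat_lit 90) (.e (nat_lit 81947) (nat_lit 20) (.e (nat_lit 2281) (nat_lit 150) (.e (nat_lit 770058) (nat_lit 5) .nil))))))) (.g (nat_lit 4) .nil .nil))) 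
(.lf (nat_lit 62896) (.g (nat_lit 533) (.e (nat_lit 1586) (nat_lit 111) (.e (nat_lit 360451) (nat_lit 0) (.e (nat_lit 4046) (nat_lit 245) .nil))) .nil)))) (.nd (nat_lit 4) (.nd (nat_lit 5) 
(.lf (nat_lit 62856) (.g (nat_lit 2738) (.e (nat_lit 1586) (nat_lit 111) (.e (nat_lit 360450) (nat_lit 0) (.e (nat_lit 5236) (nat_lit 297) (.e (nat_lit 229415) (nat_lit 15) (.e (nat_lit 450592) (nat_lit 14) (.e (nat_lit 639008) (nat_lit 13) .nil)))))) (.g (nat_lit 5) .nil .nil))) 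
(.lf (nat_lit 62888) (.g (nat_lit 1858) (.e (nat_lit 1586) (nat_lit 111) (.e (nat_lit 360450) (nat_lit 0) (.e (nat_lit 7261) (nat_lit 384) (.e (nat_lit 57437) (nat_lit 17) (.e (nat_lit 376855) (nat_lit 20) (.e (nat_lit 2276) (nat_lit 150) (.e (nat_lit 770057) (nat_lit 5) .nil))))))) (.g (nat_lit 4) .nil .nil)))) (.nd (nat_lit 5) 
(.lf (nat_lit 62872) (.g (nat_lit 988) (.e (nat_lit 1586) (nat_lit 111) (.e (nat_lit 360450) (nat_lit 0) (.e (nat_lit 7125) (nat_lit 382) (.e (nat_lit 1222) (nat_lit 90) .nil)))) .nil)) 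
(.lf (nat_lit 62904) (.g (nat_lit 2339) (.e (nat_lit 1586) (nat_lit 111) (.e (nat_lit 360451) (nat_lit 0) (.e (nat_lit 7124) (nat_lit 382) (.e (nat_lit 1201) (nat_lit 88) (.e (nat_lit 65617) (nat_lit 10) (.e (nat_lit 344175) (nat_lit 43) (.e (nat_lit 770055) (nat_lit 5) .nil))))))) (.g (nat_lit 5) .nil .nil)))))) (.nd (nat_lit 3) (.nd (nat_lit 4) (.nd (nat_lit 5) 
(.lf (nat_lit 62852) (.g (nat_lit 1901) (.e (nat_lit 1586) (nat_lit 111) (.e (nat_lit 360449) (nat_lit 0) (.e (nat_lit 7125) (nat_lit 382) (.e (nat_lit 1222) (nat_lit 90) (.e (nat_lit 81943) (nat_lit 20) .nil))))) .nil)) 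
(.lf (nat_lit 62884) (.g (nat_lit 1526) (.e (nat_lit 1586) (nat_lit 111) (.e (nat_lit 360450) (nat_lit 0) (.e (nat_lit 7261) (nat_lit 384) (.e (nat_lit 57424) (nat_lit 14) (.e (nat_lit 352303) (nat_lit 20) .nil))))) .nil))) (.nd (nat_lit 5) 
(.lf (nat_lit 62868) (.g (nat_lit 2562) (.e (nat_lit 1586) (nat_lit 111) (.e (nat_lit 360450) (nat_lit 0) (.e (nat_lit 7125) (nat_lit 382) (.e (nat_lit 1201) (nat_lit 88) (.e (nat_lit 65610) (nat_lit 10) (.e (nat_lit 344177) (nat_lit 43) (.e (nat_lit 770058) (nat_lit 5) .nil))))))) (.g (nat_lit 4) .nil .nil))) 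
(.lf (nat_lit 62900) (.g (nat_lit 2858) (.e (nat_lit 1586) (nat_lit 111) (.e (nat_lit 360451) (nat_lit 0) (.e (nat_lit 7122) (nat_lit 382) (.e (nat_lit 1201) (nat_lit 88) (.e (nat_lit 65617) (nat_lit 10) (.e (nat_lit 344177) (nat_lit 43) (.e (nat_lit 770058) (nat_lit 5) .nil))))))) (.g (nat_lit 4) .nil .nil))))) (.nd (nat_lit 4) (.nd (nat_lit 5) 
(.lf (nat_lit 62860) (.g (nat_lit 2563) (.e (nat_lit 1586) (nat_lit 111) (.e (nat_lit 360450) (nat_lit 0) (.e (nat_lit 7122) (nat_lit 382) (.e (nat_lit 1201) (nat_lit 88) (.e (nat_lit 65617) (nat_lit 10) (.e (nat_lit 344175) (nat_lit 43) (.e (nat_lit 770058) (nat_lit 5) .nil))))))) (.g (nat_lit 5) .nil .nil))) 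
(.lf (nat_lit 62892) (.g (nat_lit 1677) (.e (nat_lit 1586) (nat_lit 111) (.e (nat_lit 360450) (nat_lit 0) (.e (nat_lit 7263) (nat_lit 384) (.e (nat_lit 57424) (nat_lit 14) (.e (nat_lit 352303) (nat_lit 20) .nil))))) .nil))) (.nd (nat_lit 5) 
(.lf (nat_lit 62876) (.g (nat_lit 2223) (.e (nat_lit 1586) (nat_lit 111) (.e (nat_lit 360450) (nat_lit 0) (.e (nat_lit 7125) (nat_lit 382) (.e (nat_lit 1224) (nat_lit 90) (.e (nat_lit 81946) (nat_lit 20) (.e (nat_lit 2280) (nat_lit 150) (.e (nat_lit 770057) (nat_lit 5) .nil))))))) (.g (nat_lit 4) .nil .nil))) 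
(.lf (nat_lit 62908) (.g (nat_lit 1776) (.e (nat_lit 1586) (nat_lit 111) (.e (nat_lit 360451) (nat_lit 0) (.e (nat_lit 7124) (nat_lit 382) (.e (nat_lit 1222) (nat_lit 90) (.e (nat_lit 81943) (nat_lit 20) (.e (nat_lit 2280) (nat_lit 150) (.e (nat_lit 770057) (nat_lit 5) .nil))))))) (.g (nat_lit 4) .nil .nil))))))) (.nd (nat_lit 2) (.nd (nat_lit 3) (.nd (nat_lit 4) (.nd (nat_lit 5) 
(.lf (nat_lit 62850) (.g (nat_lit 1340) (.e (nat_lit 1586) (nat_lit 111) (.e (nat_lit 360448) (nat_lit 0) (.e (nat_lit 5235) (nat_lit 296) (.e (nat_lit 163923) (nat_lit 15) (.e (nat_lit 450592) (nat_lit 14) (.e (nat_lit 639008) (nat_lit 13) .nil)))))) (.g (nat_lit 4) .nil .nil))) 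
(.lf (nat_lit 62882) (.g (nat_lit 3265) (.e (nat_lit 1586) (nat_lit 111) (.e (nat_lit 360450) (nat_lit 0) (.e (nat_lit 7261) (nat_lit 384) (.e (nat_lit 57412) (nat_lit 12) (.e (nat_lit 336173) (nat_lit 10) (.e (nat_lit 344177) (nat_lit 43) (.e (nat_lit 770057) (nat_lit 5) .nil))))))) (.g (nat_lit 7) .nil .nil)))) (.nd (nat_lit 5) 
(.lf (nat_lit 62866) (.g (nat_lit 1013) (.e (nat_lit 1586) (nat_lit 111) (.e (nat_lit 360450) (nat_lit 0) (.e (nat_lit 7124) (nat_lit 382) (.e (nat_lit 7936) (nat_lit 90) .nil)))) .nil)) 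
(.lf (nat_lit 62898) (.g (nat_lit 2755) (.e (nat_lit 1586) (nat_lit 111) (.e (nat_lit 360451) (nat_lit 0) (.e (nat_lit 7122) (nat_lit 382) (.e (nat_lit 1201) (nat_lit 88) (.e (nat_lit 65617) (nat_lit 10) (.e (nat_lit 344177) (nat_lit 43) (.e (nat_lit 770055) (nat_lit 5) .nil))))))) (.g (nat_lit 4) .nil .nil))))) (.nd (nat_lit 4) (.nd (nat_lit 5) 
(.lf (nat_lit 62858) (.g (nat_lit 493) (.e (nat_lit 1586) (nat_lit 111) (.e (nat_lit 360450) (nat_lit 0) (.e (nat_lit 7119) (nat_lit 382) .nil))) .nil)) 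
(.lf (nat_lit 62890) (.g (nat_lit 3229) (.e (nat_lit 1586) (nat_lit 111) (.e (nat_lit 360450) (nat_lit 0) (.e (nat_lit 7263) (nat_lit 384) (.e (nat_lit 57412) (nat_lit 12) (.e (nat_lit 336173) (nat_lit 10) (.e (nat_lit 344177) (nat_lit 43) (.e (nat_lit 770057) (nat_lit 5) .nil))))))) (.g (nat_lit 7) .nil .nil)))) (.nd (nat_lit 5) 
(.lf (nat_lit 62874) (.g (nat_lit 3036) (.e (nat_lit 1586) (nat_lit 111) (.e (nat_lit 360450) (nat_lit 0) (.e (nat_lit 7125) (nat_lit 382) (.e (nat_lit 1222) (nat_lit 90) (.e (nat_lit 81943) (nat_lit 20) (.e (nat_lit 2281) (nat_lit 150) (.e (nat_lit 770058) (nat_lit 5) .nil))))))) (.g (nat_lit 5) .nil .nil))) 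
(.lf (nat_lit 62906) (.g (nat_lit 2570) (.e (nat_lit 1586) (nat_lit 111) (.e (nat_lit 360451) (nat_lit 0) (.e (nat_lit 7124) (nat_lit 382) (.e (nat_lit 1201) (nat_lit 88) (.e (nat_lit 65617) (nat_lit 10) (.e (nat_lit 344175) (nat_lit 43) (.e (nat_lit 770058) (nat_lit 5) .nil))))))) (.g (nat_lit 5) .nil .nil)))))) (.nd (nat_lit 3) (.nd (nat_lit 4) (.nd (nat_lit 5) 
(.lf (nat_lit 62854) (.g (nat_lit 1206) (.e (nat_lit 1586) (nat_lit 111) (.e (nat_lit 360449) (nat_lit 0) (.e (nat_lit 7266) (nat_lit 384) (.e (nat_lit 57427) (nat_lit 15) .nil)))) .nil)) 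
(.lf (nat_lit 62886) (.g (nat_lit 2607) (.e (nat_lit 1586) (nat_lit 111) (.e (nat_lit 360450) (nat_lit 0) (.e (nat_lit 7261) (nat_lit 384) (.e (nat_lit 57428) (nat_lit 15) (.e (nat_lit 360489) (nat_lit 21) (.e (nat_lit 770057) (nat_lit 5) .nil)))))) (.g (nat_lit 6) .nil .nil)))) (.nd (nat_lit 5) 
(.lf (nat_lit 62870) (.g (nat_lit 2566) (.e (nat_lit 1586) (nat_lit 111) (.e (nat_lit 360450) (nat_lit 0) (.e (nat_lit 7125) (nat_lit 382) (.e (nat_lit 1201) (nat_lit 88) (.e (nat_lit 65617) (nat_lit 10) (.e (nat_lit 344177) (nat_lit 43) (.e (nat_lit 770057) (nat_lit 5) .nil))))))) (.g (nat_lit 4) .nil .nil))) 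
(.lf (nat_lit 62902) (.g (nat_lit 2477) (.e (nat_lit 1586) (nat_lit 111) (.e (nat_lit 360451) (nat_lit 0) (.e (nat_lit 7122) (nat_lit 382) (.e (nat_lit 1222) (nat_lit 90) (.e (nat_lit 81943) (nat_lit 20) (.e (nat_lit 2280) (nat_lit 150) (.e (nat_lit 770057) (nat_lit 5) .nil))))))) (.g (nat_lit 5) .nil .nil))))) (.nd (nat_lit 4) (.nd (nat_lit 5) 
(.lf (nat_lit 62862) (.g (nat_lit 2276) (.e (nat_lit 1586) (nat_lit 111) (.e (nat_lit 360450) (nat_lit 0) (.e (nat_lit 7122) (nat_lit 382) (.e (nat_lit 1222) (nat_lit 90) (.e (nat_lit 81943) (nat_lit 20) (.e (nat_lit 2280) (nat_lit 150) (.e (nat_lit 770057) (nat_lit 5) .nil))))))) (.g (nat_lit 4) .nil .nil))) 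
(.lf (nat_lit 62894) (.g (nat_lit 1792) (.e (nat_lit 1586) (nat_lit 111) (.e (nat_lit 360450) (nat_lit 0) (.e (nat_lit 7263) (nat_lit 384) (.e (nat_lit 57428) (nat_lit 15) (.e (nat_lit 360489) (nat_lit 21) (.e (nat_lit 770057) (nat_lit 5) .nil)))))) (.g (nat_lit 4) .nil .nil)))) (.nd (nat_lit 5) 
(.lf (nat_lit 62878) (.g (nat_lit 2635) (.e (nat_lit 1586) (nat_lit 111) (.e (nat_lit 360450) (nat_lit 0) (.e (nat_lit 7125) (nat_lit 382) (.e (nat_lit 1224) (nat_lit 90) (.e (nat_lit 81946) (nat_lit 20) (.e (nat_lit 2281) (nat_lit 150) (.e (nat_lit 770058) (nat_lit 5) .nil))))))) (.g (nat_lit 4) .nil .nil))) 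
(.lf (nat_lit 62910) (.g (nat_lit 944) (.e (nat_lit 1586) (nat_lit 111) (.e (nat_lit 360451) (nat_lit 0) (.e (nat_lit 7124) (nat_lit 382) (.e (nat_lit 7936) (nat_lit 90) .nil)))) .nil))))))) (.nd (nat_lit 1) (.nd (nat_lit 2) (.nd (nat_lit 3) (.nd (nat_lit 4) (.nd (nat_lit 5) 
(.lf (nat_lit 62849) (.g (nat_lit 1985) (.e (nat_lit 1586) (nat_lit 111) (.e (nat_lit 360448) (nat_lit 0) (.e (nat_lit 5219) (nat_lit 296) (.e (nat_lit 163908) (nat_lit 12) (.e (nat_lit 426286) (nat_lit 10) (.e (nat_lit 434269) (nat_lit 36) (.e (nat_lit 639008) (nat_lit 13) .nil))))))) (.g (nat_lit 5) .nil .nil))) 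
(.lf (nat_lit 62881) (.g (nat_lit 3160) (.e (nat_lit 1586) (nat_lit 111) (.e (nat_lit 360450) (nat_lit 0) (.e (nat_lit 7261) (nat_lit 384) (.e (nat_lit 57412) (nat_lit 12) (.e (nat_lit 336173) (nat_lit 10) (.e (nat_lit 344177) (nat_lit 43) (.e (nat_lit 770055) (nat_lit 5) .nil))))))) (.g (nat_lit 6) .nil .nil)))) (.nd (nat_lit 5) 
(.lf (nat_lit 62865) (.g (nat_lit 2269) (.e (nat_lit 1586) (nat_lit 111) (.e (nat_lit 360450) (nat_lit 0) (.e (nat_lit 7124) (nat_lit 382) (.e (nat_lit 1201) (nat_lit 88) (.e (nat_lit 65610) (nat_lit 10) (.e (nat_lit 344177) (nat_lit 43) (.e (nat_lit 770058) (nat_lit 5) .nil))))))) (.g (nat_lit 4) .nil .nil))) 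
(.lf (nat_lit 62897) (.g (nat_lit 2568) (.e (nat_lit 1586) (nat_lit 111) (.e (nat_lit 360451) (nat_lit 0) (.e (nat_lit 5236) (nat_lit 297) (.e (nat_lit 229415) (nat_lit 15) (.e (nat_lit 450592) (nat_lit 14) (.e (nat_lit 639008) (nat_lit 13) .nil)))))) (.g (nat_lit 4) .nil .nil))))) (.nd (nat_lit 4) (.nd (nat_lit 5) 
(.lf (nat_lit 62857) (.g (nat_lit 1228) (.e (nat_lit 1586) (nat_lit 111) (.e (nat_lit 360450) (nat_lit 0) (.e (nat_lit 7936) (nat_lit 297) (.e (nat_lit 229415) (nat_lit 15) (.e (nat_lit 450592) (nat_lit 14) (.e (nat_lit 639008) (nat_lit 13) .nil)))))) (.g (nat_lit 4) .nil .nil))) 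
(.lf (nat_lit 62889) (.g (nat_lit 3123) (.e (nat_lit 1586) (nat_lit 111) (.e (nat_lit 360450) (nat_lit 0) (.e (nat_lit 7263) (nat_lit 384) (.e (nat_lit 57412) (nat_lit 12) (.e (nat_lit 336173) (nat_lit 10) (.e (nat_lit 344177) (nat_lit 43) (.e (nat_lit 770055) (nat_lit 5) .nil))))))) (.g (nat_lit 7) .nil .nil)))) (.nd (nat_lit 5) 
(.lf (nat_lit 62873) (.g (nat_lit 2972) (.e (nat_lit 1586) (nat_lit 111) (.e (nat_lit 360450) (nat_lit 0) (.e (nat_lit 7125) (nat_lit 382) (.e (nat_lit 1222) (nat_lit 90) (.e (nat_lit 81943) (nat_lit 20) (.e (nat_lit 2281) (nat_lit 150) (.e (nat_lit 770057) (nat_lit 5) .nil))))))) (.g (nat_lit 5) .nil .nil))) 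
(.lf (nat_lit 62905) (.g (nat_lit 2278) (.e (nat_lit 1586) (nat_lit 111) (.e (nat_lit 360451) (nat_lit 0) (.e (nat_lit 7124) (nat_lit 382) (.e (nat_lit 1201) (nat_lit 88) (.e (nat_lit 65617) (nat_lit 10) (.e (nat_lit 344175) (nat_lit 43) (.e (nat_lit 770057) (nat_lit 5) .nil))))))) (.g (nat_lit 5) .nil .nil)))))) (.nd (nat_lit 3) (.nd (nat_lit 4) (.nd (nat_lit 5) 
(.lf (nat_lit 62853) (.g (nat_lit 483) (.e (nat_lit 1586) (nat_lit 111) (.e (nat_lit 360449) (nat_lit 0) (.e (nat_lit 7266) (nat_lit 384) .nil))) .nil)) 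
(.lf (nat_lit 62885) (.g (nat_lit 2642) (.e (nat_lit 1586) (nat_lit 111) (.e (nat_lit 360450) (nat_lit 0) (.e (nat_lit 7261) (nat_lit 384) (.e (nat_lit 57428) (nat_lit 15) (.e (nat_lit 360489) (nat_lit 21) (.e (nat_lit 770055) (nat_lit 5) .nil)))))) (.g (nat_lit 6) .nil .nil)))) (.nd (nat_lit 5) 
(.lf (nat_lit 62869) (.g (nat_lit 2561) (.e (nat_lit 1586) (nat_lit 111) (.e (nat_lit 360450) (nat_lit 0) (.e (nat_lit 7125) (nat_lit 382) (.e (nat_lit 1201) (nat_lit 88) (.e (nat_lit 65617) (nat_lit 10) (.e (nat_lit 344177) (nat_lit 43) (.e (nat_lit 770055) (nat_lit 5) .nil))))))) (.g (nat_lit 4) .nil .nil))) 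
(.lf (nat_lit 62901) (.g (nat_lit 1971) (.e (nat_lit 1586) (nat_lit 111) (.e (nat_lit 360451) (nat_lit 0) (.e (nat_lit 7122) (nat_lit 382) (.e (nat_lit 1222) (nat_lit 90) (.e (nat_lit 81938) (nat_lit 20) .nil))))) .nil)))) (.nd (nat_lit 4) (.nd (nat_lit 5) 
(.lf (nat_lit 62861) (.g (nat_lit 1090) (.e (nat_lit 1586) (nat_lit 111) (.e (nat_lit 360450) (nat_lit 0) (.e (nat_lit 7122) (nat_lit 382) (.e (nat_lit 1222) (nat_lit 90) .nil)))) .nil)) 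
(.lf (nat_lit 62893) (.g (nat_lit 1826) (.e (nat_lit 1586) (nat_lit 111) (.e (nat_lit 360450) (nat_lit 0) (.e (nat_lit 7263) (nat_lit 384) (.e (nat_lit 57428) (nat_lit 15) (.e (nat_lit 360489) (nat_lit 21) (.e (nat_lit 770055) (nat_lit 5) .nil)))))) (.g (nat_lit 4) .nil .nil)))) (.nd (nat_lit 5) 
(.lf (nat_lit 62877) (.g (nat_lit 2589) (.e (nat_lit 1586) (nat_lit 111) (.e (nat_lit 360450) (nat_lit 0) (.e (nat_lit 7125) (nat_lit 382) (.e (nat_lit 1224) (nat_lit 90) (.e (nat_lit 81946) (nat_lit 20) (.e (nat_lit 2281) (nat_lit 150) (.e (nat_lit 770057) (nat_lit 5) .nil))))))) (.g (nat_lit 4) .nil .nil))) 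
(.lf (nat_lit 62909) (.g (nat_lit 951) (.e (nat_lit 1586) (nat_lit 111) (.e (nat_lit 360451) (nat_lit 0) (.e (nat_lit 7124) (nat_lit 382) (.e (nat_lit 1224) (nat_lit 90) .nil)))) .nil)))))) (.nd (nat_lit 2) (.nd (nat_lit 3) (.nd (nat_lit 4) (.nd (nat_lit 5) 
(.lf (nat_lit 62851) (.g (nat_lit 1840) (.e (nat_lit 1586) (nat_lit 111) (.e (nat_lit 360449) (nat_lit 0) (.e (nat_lit 7125) (nat_lit 382) (.e (nat_lit 1201) (nat_lit 88) (.e (nat_lit 65617) (nat_lit 10) .nil))))) .nil)) 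
(.lf (nat_lit 62883) (.g (nat_lit 3249) (.e (nat_lit 1586) (nat_lit 111) (.e (nat_lit 360450) (nat_lit 0) (.e (nat_lit 7261) (nat_lit 384) (.e (nat_lit 57412) (nat_lit 12) (.e (nat_lit 336173) (nat_lit 10) (.e (nat_lit 344177) (nat_lit 43) (.e (nat_lit 770058) (nat_lit 5) .nil))))))) (.g (nat_lit 7) .nil .nil)))) (.nd (nat_lit 5) 
(.lf (nat_lit 62867) (.g (nat_lit 2560) (.e (nat_lit 1586) (nat_lit 111) (.e (nat_lit 360450) (nat_lit 0) (.e (nat_lit 7125) (nat_lit 382) (.e (nat_lit 1201) (nat_lit 88) (.e (nat_lit 65610) (nat_lit 10) (.e (nat_lit 344177) (nat_lit 43) (.e (nat_lit 770055) (nat_lit 5) .nil))))))) (.g (nat_lit 4) .nil .nil))) 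
(.lf (nat_lit 62899) (.g (nat_lit 2721) (.e (nat_lit 1586) (nat_lit 111) (.e (nat_lit 360451) (nat_lit 0) (.e (nat_lit 7122) (nat_lit 382) (.e (nat_lit 1201) (nat_lit 88) (.e (nat_lit 65617) (nat_lit 10) (.e (nat_lit 344177) (nat_lit 43) (.e (nat_lit 770057) (nat_lit 5) .nil))))))) (.g (nat_lit 4) .nil .nil))))) (.nd (nat_lit 4) (.nd (nat_lit 5) 
(.lf (nat_lit 62859) (.g (nat_lit 2348) (.e (nat_lit 1586) (nat_lit 111) (.e (nat_lit 360450) (nat_lit 0) (.e (nat_lit 7122) (nat_lit 382) (.e (nat_lit 1201) (nat_lit 88) (.e (nat_lit 65617) (nat_lit 10) (.e (nat_lit 344175) (nat_lit 43) (.e (nat_lit 770055) (nat_lit 5) .nil))))))) (.g (nat_lit 5) .nil .nil))) 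
(.lf (nat_lit 62891) (.g (nat_lit 3211) (.e (nat_lit 1586) (nat_lit 111) (.e (nat_lit 360450) (nat_lit 0) (.e (nat_lit 7263) (nat_lit 384) (.e (nat_lit 57412) (nat_lit 12) (.e (nat_lit 336173) (nat_lit 10) (.e (nat_lit 344177) (nat_lit 43) (.e (nat_lit 770058) (nat_lit 5) .nil))))))) (.g (nat_lit 7) .nil .nil)))) (.nd (nat_lit 5) 
(.lf (nat_lit 62875) (.g (nat_lit 2468) (.e (nat_lit 1586) (nat_lit 111) (.e (nat_lit 360450) (nat_lit 0) (.e (nat_lit 7125) (nat_lit 382) (.e (nat_lit 1224) (nat_lit 90) (.e (nat_lit 81946) (nat_lit 20) (.e (nat_lit 2280) (nat_lit 150) (.e (nat_lit 770055) (nat_lit 5) .nil))))))) (.g (nat_lit 4) .nil .nil))) 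
(.lf (nat_lit 62907) (.g (nat_lit 813) (.e (nat_lit 1586) (nat_lit 111) (.e (nat_lit 360451) (nat_lit 0) (.e (nat_lit 7124) (nat_lit 382) (.e (nat_lit 1222) (nat_lit 90) .nil)))) .nil))))) (.nd (nat_lit 3) (.nd (nat_lit 4) (.nd (nat_lit 5) 
(.lf (nat_lit 62855) (.g (nat_lit 1787) (.e (nat_lit 1586) (nat_lit 111) (.e (nat_lit 360450) (nat_lit 0) (.e (nat_lit 5236) (nat_lit 297) (.e (nat_lit 229415) (nat_lit 15) (.e (nat_lit 450592) (nat_lit 14) (.e (nat_lit 639007) (nat_lit 13) .nil)))))) (.g (nat_lit 4) .nil .nil))) 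
(.lf (nat_lit 62887) (.g (nat_lit 2056) (.e (nat_lit 1586) (nat_lit 111) (.e (nat_lit 360450) (nat_lit 0) (.e (nat_lit 7261) (nat_lit 384) (.e (nat_lit 57436) (nat_lit 17) (.e (nat_lit 376855) (nat_lit 20) (.e (nat_lit 2276) (nat_lit 150) (.e (nat_lit 770057) (nat_lit 5) .nil))))))) (.g (nat_lit 5) .nil .nil)))) (.nd (nat_lit 5) 
(.lf (nat_lit 62871) (.g (nat_lit 2565) (.e (nat_lit 1586) (nat_lit 111) (.e (nat_lit 360450) (nat_lit 0) (.e (nat_lit 7125) (nat_lit 382) (.e (nat_lit 1201) (nat_lit 88) (.e (nat_lit 65617) (nat_lit 10) (.e (nat_lit 344177) (nat_lit 43) (.e (nat_lit 770058) (nat_lit 5) .nil))))))) (.g (nat_lit 4) .nil .nil))) 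
(.lf (nat_lit 62903) (.g (nat_lit 1855) (.e (nat_lit 1586) (nat_lit 111) (.e (nat_lit 360451) (nat_lit 0) (.e (nat_lit 7122) (nat_lit 382) (.e (nat_lit 1224) (nat_lit 90) (.e (nat_lit 81946) (nat_lit 20) .nil))))) .nil)))) (.nd (nat_lit 4) (.nd (nat_lit 5) 
(.lf (nat_lit 62863) (.g (nat_lit 1988) (.e (nat_lit 1586) (nat_lit 111) (.e (nat_lit 360450) (nat_lit 0) (.e (nat_lit 7122) (nat_lit 382) (.e (nat_lit 1224) (nat_lit 90) (.e (nat_lit 81946) (nat_lit 20) .nil))))) .nil)) 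
(.lf (nat_lit 62895) (.g (nat_lit 1717) (.e (nat_lit 1586) (nat_lit 111) (.e (nat_lit 360450) (nat_lit 0) (.e (nat_lit 7263) (nat_lit 384) (.e (nat_lit 57428) (nat_lit 15) (.e (nat_lit 360489) (nat_lit 21) (.e (nat_lit 770058) (nat_lit 5) .nil)))))) (.g (nat_lit 4) .nil .nil)))) (.nd (nat_lit 5) 
(.lf (nat_lit 62879) (.g (nat_lit 2589) (.e (nat_lit 1586) (nat_lit 111) (.e (nat_lit 360450) (nat_lit 0) (.e (nat_lit 7125) (nat_lit 382) (.e (nat_lit 1224) (nat_lit 90) (.e (nat_lit 81947) (nat_lit 20) (.e (nat_lit 2281) (nat_lit 150) (.e (nat_lit 770057) (nat_lit 5) .nil))))))) (.g (nat_lit 4) .nil .nil))) 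
(.lf (nat_lit 62911) (.g (nat_lit 1350) (.e (nat_lit 1586) (nat_lit 111) (.e (nat_lit 360451) (nat_lit 0) (.e (nat_lit 7125) (nat_lit 382) (.e (nat_lit 1201) (nat_lit 88) (.e (nat_lit 65610) (nat_lit 10) .nil))))) .nil))))))))

noncomputable def tv862 : DT := (.nd (nat_lit 0) (.nd (nat_lit 1) (.nd (nat_lit 2) (.nd (nat_lit 3) (.nd (nat_lit 4) (.nd (nat_lit 5) 
(.lf (nat_lit 62912) (.g (nat_lit 2173) (.e (nat_lit 1586) (nat_lit 111) (.e (nat_lit 360451) (nat_lit 0) (.e (nat_lit 7125) (nat_lit 382) (.e (nat_lit 1201) (nat_lit 88) (.e (nat_lit 65610) (nat_lit 10) (.e (nat_lit 344177) (nat_lit 43) (.e (nat_lit 770056) (nat_lit 5) .nil))))))) (.g (nat_lit 4) .nil .nil))) 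
(.lf (nat_lit 62944) (.g (nat_lit 2245) (.e (nat_lit 1586) (nat_lit 111) (.e (nat_lit 360451) (nat_lit 0) (.e (nat_lit 7261) (nat_lit 384) (.e (nat_lit 57436) (nat_lit 17) (.e (nat_lit 376855) (nat_lit 20) (.e (nat_lit 2276) (nat_lit 150) (.e (nat_lit 770057) (nat_lit 5) .nil))))))) (.g (nat_lit 5) .nil .nil)))) (.nd (nat_lit 5) 
(.lf (nat_lit 62928) (.g (nat_lit 2339) (.e (nat_lit 1586) (nat_lit 111) (.e (nat_lit 360451) (nat_lit 0) (.e (nat_lit 7125) (nat_lit 382) (.e (nat_lit 1222) (nat_lit 90) (.e (nat_lit 81946) (nat_lit 20) .nil))))) .nil)) 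
(.lf (nat_lit 62960) (.g (nat_lit 2128) (.e (nat_lit 1586) (nat_lit 111) (.e (nat_lit 360451) (nat_lit 0) (.e (nat_lit 7265) (nat_lit 384) (.e (nat_lit 57428) (nat_lit 15) (.e (nat_lit 360489) (nat_lit 21) (.e (nat_lit 770058) (nat_lit 5) .nil)))))) (.g (nat_lit 4) .nil .nil))))) (.nd (nat_lit 4) (.nd (nat_lit 5) 
(.lf (nat_lit 62920) (.g (nat_lit 3290) (.e (nat_lit 1586) (nat_lit 111) (.e (nat_lit 360451) (nat_lit 0) (.e (nat_lit 7125) (nat_lit 382) (.e (nat_lit 1201) (nat_lit 88) (.e (nat_lit 65617) (nat_lit 10) (.e (nat_lit 344175) (nat_lit 43) (.e (nat_lit 770058) (nat_lit 5) .nil))))))) (.g (nat_lit 5) .nil .nil))) 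
(.lf (nat_lit 62952) (.g (nat_lit 1334) (.e (nat_lit 1586) (nat_lit 111) (.e (nat_lit 360451) (nat_lit 0) (.e (nat_lit 7265) (nat_lit 384) (.e (nat_lit 57412) (nat_lit 12) (.e (nat_lit 336176) (nat_lit 10) .nil))))) .nil))) (.nd (nat_lit 5) 
(.lf (nat_lit 62936) (.g (nat_lit 3315) (.e (nat_lit 1586) (nat_lit 111) (.e (nat_lit 360451) (nat_lit 0) (.e (nat_lit 7261) (nat_lit 384) (.e (nat_lit 57412) (nat_lit 12) (.e (nat_lit 336173) (nat_lit 10) (.e (nat_lit 344177) (nat_lit 43) (.e (nat_lit 770055) (nat_lit 5) .nil))))))) (.g (nat_lit 6) .nil .nil))) 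
(.lf (nat_lit 62968) (.g (nat_lit 2569) (.e (nat_lit 1586) (nat_lit 111) (.e (nat_lit 360451) (nat_lit 0) (.e (nat_lit 7607) (nat_lit 410) (.e (nat_lit 2630) (nat_lit 164) (.e (nat_lit 172106) (nat_lit 10) (.e (nat_lit 434241) (nat_lit 27) (.e (nat_lit 565251) (nat_lit 0) .nil))))))) (.g (nat_lit 5) .nil .nil)))))) (.nd (nat_lit 3) (.nd (nat_lit 4) (.nd (nat_lit 5) 
(.lf (nat_lit 62916) (.g (nat_lit 1764) (.e (nat_lit 1586) (nat_lit 111) (.e (nat_lit 360451) (nat_lit 0) (.e (nat_lit 7125) (nat_lit 382) (.e (nat_lit 1201) (nat_lit 88) (.e (nat_lit 65617) (nat_lit 10) .nil))))) .nil)) 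
(.lf (nat_lit 62948) (.g (nat_lit 2371) (.e (nat_lit 1586) (nat_lit 111) (.e (nat_lit 360451) (nat_lit 0) (.e (nat_lit 7263) (nat_lit 384) (.e (nat_lit 57412) (nat_lit 12) (.e (nat_lit 336176) (nat_lit 10) (.e (nat_lit 344177) (nat_lit 43) (.e (nat_lit 770058) (nat_lit 5) .nil))))))) (.g (nat_lit 5) .nil .nil)))) (.nd (nat_lit 5) 
(.lf (nat_lit 62932) (.g (nat_lit 1744) (.e (nat_lit 1586) (nat_lit 111) (.e (nat_lit 360451) (nat_lit 0) (.e (nat_lit 7125) (nat_lit 382) (.e (nat_lit 1224) (nat_lit 90) (.e (nat_lit 81946) (nat_lit 20) .nil))))) .nil)) 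
(.lf (nat_lit 62964) (.g (nat_lit 2541) (.e (nat_lit 1586) (nat_lit 111) (.e (nat_lit 360451) (nat_lit 0) (.e (nat_lit 7266) (nat_lit 384) (.e (nat_lit 57428) (nat_lit 15) (.e (nat_lit 360489) (nat_lit 21) (.e (nat_lit 770055) (nat_lit 5) .nil)))))) (.g (nat_lit 4) .nil .nil))))) (.nd (nat_lit 4) (.nd (nat_lit 5) 
(.lf (nat_lit 62924) (.g (nat_lit 2339) (.e (nat_lit 1586) (nat_lit 111) (.e (nat_lit 360451) (nat_lit 0) (.e (nat_lit 7125) (nat_lit 382) (.e (nat_lit 1222) (nat_lit 90) (.e (nat_lit 81939) (nat_lit 20) .nil))))) .nil)) 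
(.lf (nat_lit 62956) (.g (nat_lit 2887) (.e (nat_lit 1586) (nat_lit 111) (.e (nat_lit 360451) (nat_lit 0) (.e (nat_lit 7265) (nat_lit 384) (.e (nat_lit 57424) (nat_lit 14) (.e (nat_lit 352303) (nat_lit 20) (.e (nat_lit 2281) (nat_lit 150) (.e (nat_lit 770058) (nat_lit 5) .nil))))))) (.g (nat_lit 6) .nil .nil)))) (.nd (nat_lit 5) 
(.lf (nat_lit 62940) (.g (nat_lit 1465) (.e (nat_lit 1586) (nat_lit 111) (.e (nat_lit 360451) (nat_lit 0) (.e (nat_lit 7261) (nat_lit 384) (.e (nat_lit 57424) (nat_lit 14) (.e (nat_lit 352303) (nat_lit 20) .nil))))) .nil)) 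
(.lf (nat_lit 62972) (.g (nat_lit 2413) (.e (nat_lit 1586) (nat_lit 111) (.e (nat_lit 360451) (nat_lit 0) (.e (nat_lit 7710) (nat_lit 414) (.e (nat_lit 163919) (nat_lit 14) (.e (nat_lit 442381) (nat_lit 7) (.e (nat_lit 139266) (nat_lit 0) .nil)))))) (.g (nat_lit 4) .nil .nil))))))) (.nd (nat_lit 2) (.nd (nat_lit 3) (.nd (nat_lit 4) (.nd (nat_lit 5) 
(.lf (nat_lit 62914) (.g (nat_lit 2186) (.e (nat_lit 1586) (nat_lit 111) (.e (nat_lit 360451) (nat_lit 0) (.e (nat_lit 7125) (nat_lit 382) (.e (nat_lit 1201) (nat_lit 88) (.e (nat_lit 65611) (nat_lit 10) (.e (nat_lit 344177) (nat_lit 43) (.e (nat_lit 770057) (nat_lit 5) .nil))))))) (.g (nat_lit 4) .nil .nil))) 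
(.lf (nat_lit 62946) (.g (nat_lit 2169) (.e (nat_lit 1586) (nat_lit 111) (.e (nat_lit 360451) (nat_lit 0) (.e (nat_lit 7263) (nat_lit 384) (.e (nat_lit 57412) (nat_lit 12) (.e (nat_lit 336173) (nat_lit 10) (.e (nat_lit 344177) (nat_lit 43) (.e (nat_lit 770055) (nat_lit 5) .nil))))))) (.g (nat_lit 4) .nil .nil)))) (.nd (nat_lit 5) 
(.lf (nat_lit 62930) (.g (nat_lit 2381) (.e (nat_lit 1586) (nat_lit 111) (.e (nat_lit 360451) (nat_lit 0) (.e (nat_lit 7125) (nat_lit 382) (.e (nat_lit 1222) (nat_lit 90) (.e (nat_lit 81947) (nat_lit 20) (.e (nat_lit 2281) (nat_lit 150) (.e (nat_lit 770058) (nat_lit 5) .nil))))))) (.g (nat_lit 4) .nil .nil))) 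
(.lf (nat_lit 62962) (.g (nat_lit 1779) (.e (nat_lit 1586) (nat_lit 111) (.e (nat_lit 360451) (nat_lit 0) (.e (nat_lit 7265) (nat_lit 384) (.e (nat_lit 57436) (nat_lit 17) (.e (nat_lit 376855) (nat_lit 20) (.e (nat_lit 2276) (nat_lit 150) (.e (nat_lit 770058) (nat_lit 5) .nil))))))) (.g (nat_lit 4) .nil .nil))))) (.nd (nat_lit 4) (.nd (nat_lit 5) 
(.lf (nat_lit 62922) (.g (nat_lit 2553) (.e (nat_lit 1586) (nat_lit 111) (.e (nat_lit 360451) (nat_lit 0) (.e (nat_lit 7125) (nat_lit 382) (.e (nat_lit 1222) (nat_lit 90) (.e (nat_lit 81938) (nat_lit 20) (.e (nat_lit 2281) (nat_lit 150) (.e (nat_lit 770057) (nat_lit 5) .nil))))))) (.g (nat_lit 4) .nil .nil))) 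
(.lf (nat_lit 62954) (.g (nat_lit 2381) (.e (nat_lit 1586) (nat_lit 111) (.e (nat_lit 360451) (nat_lit 0) (.e (nat_lit 7265) (nat_lit 384) (.e (nat_lit 57424) (nat_lit 14) (.e (nat_lit 352302) (nat_lit 20) (.e (nat_lit 2281) (nat_lit 150) (.e (nat_lit 770058) (nat_lit 5) .nil))))))) (.g (nat_lit 4) .nil .nil)))) (.nd (nat_lit 5) 
(.lf (nat_lit 62938) (.g (nat_lit 3532) (.e (nat_lit 1586) (nat_lit 111) (.e (nat_lit 360451) (nat_lit 0) (.e (nat_lit 7261) (nat_lit 384) (.e (nat_lit 57412) (nat_lit 12) (.e (nat_lit 336173) (nat_lit 10) (.e (nat_lit 344177) (nat_lit 43) (.e (nat_lit 770058) (nat_lit 5) .nil))))))) (.g (nat_lit 7) .nil .nil))) 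
(.lf (nat_lit 62970) (.g (nat_lit 2219) (.e (nat_lit 1586) (nat_lit 111) (.e (nat_lit 360451) (nat_lit 0) (.e (nat_lit 7710) (nat_lit 414) (.e (nat_lit 163908) (nat_lit 12) (.e (nat_lit 426285) (nat_lit 10) (.e (nat_lit 434241) (nat_lit 27) (.e (nat_lit 565252) (nat_lit 0) .nil))))))) (.g (nat_lit 4) .nil .nil)))))) (.nd (nat_lit 3) (.nd (nat_lit 4) (.nd (nat_lit 5) 
(.lf (nat_lit 62918) (.g (nat_lit 2988) (.e (nat_lit 1586) (nat_lit 111) (.e (nat_lit 360451) (nat_lit 0) (.e (nat_lit 7125) (nat_lit 382) (.e (nat_lit 1201) (nat_lit 88) (.e (nat_lit 65617) (nat_lit 10) (.e (nat_lit 344175) (nat_lit 43) (.e (nat_lit 770055) (nat_lit 5) .nil))))))) (.g (nat_lit 5) .nil .nil))) 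
(.lf (nat_lit 62950) (.g (nat_lit 3581) (.e (nat_lit 1586) (nat_lit 111) (.e (nat_lit 360451) (nat_lit 0) (.e (nat_lit 7265) (nat_lit 384) (.e (nat_lit 57412) (nat_lit 12) (.e (nat_lit 336173) (nat_lit 10) (.e (nat_lit 344177) (nat_lit 43) (.e (nat_lit 770057) (nat_lit 5) .nil))))))) (.g (nat_lit 7) .nil .nil)))) (.nd (nat_lit 5) 
(.lf (nat_lit 62934) (.g (nat_lit 2211) (.e (nat_lit 1586) (nat_lit 111) (.e (nat_lit 360451) (nat_lit 0) (.e (nat_lit 7125) (nat_lit 382) (.e (nat_lit 1224) (nat_lit 90) (.e (nat_lit 81947) (nat_lit 20) (.e (nat_lit 2280) (nat_lit 150) (.e (nat_lit 770057) (nat_lit 5) .nil))))))) (.g (nat_lit 4) .nil .nil))) 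
(.lf (nat_lit 62966) (.g (nat_lit 2653) (.e (nat_lit 1586) (nat_lit 111) (.e (nat_lit 360451) (nat_lit 0) (.e (nat_lit 7266) (nat_lit 384) (.e (nat_lit 57428) (nat_lit 15) (.e (nat_lit 360489) (nat_lit 21) (.e (nat_lit 770058) (nat_lit 5) .nil)))))) (.g (nat_lit 5) .nil .nil))))) (.nd (nat_lit 4) (.nd (nat_lit 5) 
(.lf (nat_lit 62926) (.g (nat_lit 3300) (.e (nat_lit 1586) (nat_lit 111) (.e (nat_lit 360451) (nat_lit 0) (.e (nat_lit 7125) (nat_lit 382) (.e (nat_lit 1222) (nat_lit 90) (.e (nat_lit 81943) (nat_lit 20) (.e (nat_lit 2280) (nat_lit 150) (.e (nat_lit 770055) (nat_lit 5) .nil))))))) (.g (nat_lit 5) .nil .nil))) 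
(.lf (nat_lit 62958) (.g (nat_lit 2097) (.e (nat_lit 1586) (nat_lit 111) (.e (nat_lit 360451) (nat_lit 0) (.e (nat_lit 7265) (nat_lit 384) (.e (nat_lit 57428) (nat_lit 15) (.e (nat_lit 360489) (nat_lit 21) (.e (nat_lit 770055) (nat_lit 5) .nil)))))) (.g (nat_lit 4) .nil .nil)))) (.nd (nat_lit 5) 
(.lf (nat_lit 62942) (.g (nat_lit 2702) (.e (nat_lit 1586) (nat_lit 111) (.e (nat_lit 360451) (nat_lit 0) (.e (nat_lit 7261) (nat_lit 384) (.e (nat_lit 57428) (nat_lit 15) (.e (nat_lit 360489) (nat_lit 21) (.e (nat_lit 770055) (nat_lit 5) .nil)))))) (.g (nat_lit 6) .nil .nil))) 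
(.lf (nat_lit 62974) (.g (nat_lit 2647) (.e (nat_lit 1586) (nat_lit 111) (.e (nat_lit 360451) (nat_lit 0) (.e (nat_lit 7710) (nat_lit 414) (.e (nat_lit 163922) (nat_lit 15) (.e (nat_lit 450584) (nat_lit 9) (.e (nat_lit 565252) (nat_lit 0) .nil)))))) (.g (nat_lit 5) .nil .nil)))))))) (.nd (nat_lit 1) (.nd (nat_lit 2) (.nd (nat_lit 3) (.nd (nat_lit 4) (.nd (nat_lit 5) 
(.lf (nat_lit 62913) (.g (nat_lit 2131) (.e (nat_lit 1586) (nat_lit 111) (.e (nat_lit 360451) (nat_lit 0) (.e (nat_lit 7125) (nat_lit 382) (.e (nat_lit 1201) (nat_lit 88) (.e (nat_lit 65611) (nat_lit 10) (.e (nat_lit 344177) (nat_lit 43) (.e (nat_lit 770055) (nat_lit 5) .nil))))))) (.g (nat_lit 4) .nil .nil))) 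
(.lf (nat_lit 62945) (.g (nat_lit 1831) (.e (nat_lit 1586) (nat_lit 111) (.e (nat_lit 360451) (nat_lit 0) (.e (nat_lit 7261) (nat_lit 384) (.e (nat_lit 57437) (nat_lit 17) (.e (nat_lit 376855) (nat_lit 20) (.e (nat_lit 2276) (nat_lit 150) (.e (nat_lit 770057) (nat_lit 5) .nil))))))) (.g (nat_lit 4) .nil .nil)))) (.nd (nat_lit 5) 
(.lf (nat_lit 62929) (.g (nat_lit 2449) (.e (nat_lit 1586) (nat_lit 111) (.e (nat_lit 360451) (nat_lit 0) (.e (nat_lit 7125) (nat_lit 382) (.e (nat_lit 1222) (nat_lit 90) (.e (nat_lit 81946) (nat_lit 20) (.e (nat_lit 2281) (nat_lit 150) (.e (nat_lit 770058) (nat_lit 5) .nil))))))) (.g (nat_lit 4) .nil .nil))) 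
(.lf (nat_lit 62961) (.g (nat_lit 2631) (.e (nat_lit 1586) (nat_lit 111) (.e (nat_lit 360451) (nat_lit 0) (.e (nat_lit 7265) (nat_lit 384) (.e (nat_lit 57436) (nat_lit 17) (.e (nat_lit 376855) (nat_lit 20) (.e (nat_lit 2276) (nat_lit 150) (.e (nat_lit 770057) (nat_lit 5) .nil))))))) (.g (nat_lit 5) .nil .nil))))) (.nd (nat_lit 4) (.nd (nat_lit 5) 
(.lf (nat_lit 62921) (.g (nat_lit 2088) (.e (nat_lit 1586) (nat_lit 111) (.e (nat_lit 360451) (nat_lit 0) (.e (nat_lit 7125) (nat_lit 382) (.e (nat_lit 1201) (nat_lit 88) (.e (nat_lit 65617) (nat_lit 10) (.e (nat_lit 344177) (nat_lit 43) (.e (nat_lit 770056) (nat_lit 5) .nil))))))) (.g (nat_lit 4) .nil .nil))) 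
(.lf (nat_lit 62953) (.g (nat_lit 2109) (.e (nat_lit 1586) (nat_lit 111) (.e (nat_lit 360451) (nat_lit 0) (.e (nat_lit 7265) (nat_lit 384) (.e (nat_lit 57424) (nat_lit 14) (.e (nat_lit 352302) (nat_lit 20) (.e (nat_lit 2281) (nat_lit 150) (.e (nat_lit 770057) (nat_lit 5) .nil))))))) (.g (nat_lit 4) .nil .nil)))) (.nd (nat_lit 5) 
(.lf (nat_lit 62937) (.g (nat_lit 3396) (.e (nat_lit 1586) (nat_lit 111) (.e (nat_lit 360451) (nat_lit 0) (.e (nat_lit 7261) (nat_lit 384) (.e (nat_lit 57412) (nat_lit 12) (.e (nat_lit 336173) (nat_lit 10) (.e (nat_lit 344177) (nat_lit 43) (.e (nat_lit 770057) (nat_lit 5) .nil))))))) (.g (nat_lit 7) .nil .nil))) 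
(.lf (nat_lit 62969) (.g (nat_lit 2357) (.e (nat_lit 1586) (nat_lit 111) (.e (nat_lit 360451) (nat_lit 0) (.e (nat_lit 7607) (nat_lit 410) (.e (nat_lit 2630) (nat_lit 164) (.e (nat_lit 172113) (nat_lit 10) (.e (nat_lit 434241) (nat_lit 27) (.e (nat_lit 565251) (nat_lit 0) .nil))))))) (.g (nat_lit 4) .nil .nil)))))) (.nd (nat_lit 3) (.nd (nat_lit 4) (.nd (nat_lit 5) 
(.lf (nat_lit 62917) (.g (nat_lit 2220) (.e (nat_lit 1586) (nat_lit 111) (.e (nat_lit 360451) (nat_lit 0) (.e (nat_lit 7125) (nat_lit 382) (.e (nat_lit 1201) (nat_lit 88) (.e (nat_lit 65617) (nat_lit 10) (.e (nat_lit 344096) (nat_lit 18) (.e (nat_lit 7122) (nat_lit 382) (.e (nat_lit 1016) (nat_lit 81) .nil)))))))) (.g (nat_lit 4) .nil .nil))) 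
(.lf (nat_lit 62949) (.g (nat_lit 3490) (.e (nat_lit 1586) (nat_lit 111) (.e (nat_lit 360451) (nat_lit 0) (.e (nat_lit 7265) (nat_lit 384) (.e (nat_lit 57412) (nat_lit 12) (.e (nat_lit 336173) (nat_lit 10) (.e (nat_lit 344177) (nat_lit 43) (.e (nat_lit 770055) (nat_lit 5) .nil))))))) (.g (nat_lit 7) .nil .nil)))) (.nd (nat_lit 5) 
(.lf (nat_lit 62933) (.g (nat_lit 2470) (.e (nat_lit 1586) (nat_lit 111) (.e (nat_lit 360451) (nat_lit 0) (.e (nat_lit 7125) (nat_lit 382) (.e (nat_lit 1224) (nat_lit 90) (.e (nat_lit 81947) (nat_lit 20) (.e (nat_lit 2280) (nat_lit 150) (.e (nat_lit 770055) (nat_lit 5) .nil))))))) (.g (nat_lit 4) .nil .nil))) 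
(.lf (nat_lit 62965) (.g (nat_lit 2508) (.e (nat_lit 1586) (nat_lit 111) (.e (nat_lit 360451) (nat_lit 0) (.e (nat_lit 7266) (nat_lit 384) (.e (nat_lit 57428) (nat_lit 15) (.e (nat_lit 360489) (nat_lit 21) (.e (nat_lit 770057) (nat_lit 5) .nil)))))) (.g (nat_lit 5) .nil .nil))))) (.nd (nat_lit 4) (.nd (nat_lit 5) 
(.lf (nat_lit 62925) (.g (nat_lit 1965) (.e (nat_lit 1586) (nat_lit 111) (.e (nat_lit 360451) (nat_lit 0) (.e (nat_lit 7125) (nat_lit 382) (.e (nat_lit 1222) (nat_lit 90) (.e (nat_lit 81943) (nat_lit 20) .nil))))) .nil)) 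
(.lf (nat_lit 62957) (.g (nat_lit 1610) (.e (nat_lit 1586) (nat_lit 111) (.e (nat_lit 360451) (nat_lit 0) (.e (nat_lit 7265) (nat_lit 384) (.e (nat_lit 57427) (nat_lit 15) (.e (nat_lit 360450) (nat_lit 0) .nil))))) .nil))) (.nd (nat_lit 5) 
(.lf (nat_lit 62941) (.g (nat_lit 1924) (.e (nat_lit 1586) (nat_lit 111) (.e (nat_lit 360451) (nat_lit 0) (.e (nat_lit 7261) (nat_lit 384) (.e (nat_lit 57427) (nat_lit 15) (.e (nat_lit 360451) (nat_lit 0) (.e (nat_lit 7122) (nat_lit 382) (.e (nat_lit 1016) (nat_lit 81) .nil))))))) (.g (nat_lit 4) .nil .nil))) 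
(.lf (nat_lit 62973) (.g (nat_lit 1194) (.e (nat_lit 1586) (nat_lit 111) (.e (nat_lit 360451) (nat_lit 0) (.e (nat_lit 7710) (nat_lit 414) (.e (nat_lit 163920) (nat_lit 14) .nil)))) .nil)))))) (.nd (nat_lit 2) (.nd (nat_lit 3) (.nd (nat_lit 4) (.nd (nat_lit 5) 
(.lf (nat_lit 62915) (.g (nat_lit 2476) (.e (nat_lit 1586) (nat_lit 111) (.e (nat_lit 360451) (nat_lit 0) (.e (nat_lit 7125) (nat_lit 382) (.e (nat_lit 1201) (nat_lit 88) (.e (nat_lit 65611) (nat_lit 10) (.e (nat_lit 344177) (nat_lit 43) (.e (nat_lit 770058) (nat_lit 5) .nil))))))) (.g (nat_lit 4) .nil .nil))) 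
(.lf (nat_lit 62947) (.g (nat_lit 2200) (.e (nat_lit 1586) (nat_lit 111) (.e (nat_lit 360451) (nat_lit 0) (.e (nat_lit 7263) (nat_lit 384) (.e (nat_lit 57412) (nat_lit 12) (.e (nat_lit 336176) (nat_lit 10) (.e (nat_lit 344177) (nat_lit 43) (.e (nat_lit 770057) (nat_lit 5) .nil))))))) (.g (nat_lit 5) .nil .nil)))) (.nd (nat_lit 5) 
(.lf (nat_lit 62931) (.g (nat_lit 1242) (.e (nat_lit 1586) (nat_lit 111) (.e (nat_lit 360451) (nat_lit 0) (.e (nat_lit 7125) (nat_lit 382) (.e (nat_lit 1223) (nat_lit 90) .nil)))) .nil)) 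
(.lf (nat_lit 62963) (.g (nat_lit 2020) (.e (nat_lit 1586) (nat_lit 111) (.e (nat_lit 360451) (nat_lit 0) (.e (nat_lit 7266) (nat_lit 384) (.e (nat_lit 57427) (nat_lit 15) (.e (nat_lit 360450) (nat_lit 0) (.e (nat_lit 7128) (nat_lit 382) (.e (nat_lit 1006) (nat_lit 81) .nil))))))) (.g (nat_lit 4) .nil .nil))))) (.nd (nat_lit 4) (.nd (nat_lit 5) 
(.lf (nat_lit 62923) (.g (nat_lit 3011) (.e (nat_lit 1586) (nat_lit 111) (.e (nat_lit 360451) (nat_lit 0) (.e (nat_lit 7125) (nat_lit 382) (.e (nat_lit 1222) (nat_lit 90) (.e (nat_lit 81938) (nat_lit 20) (.e (nat_lit 2281) (nat_lit 150) (.e (nat_lit 770058) (nat_lit 5) .nil))))))) (.g (nat_lit 4) .nil .nil))) 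
(.lf (nat_lit 62955) (.g (nat_lit 2681) (.e (nat_lit 1586) (nat_lit 111) (.e (nat_lit 360451) (nat_lit 0) (.e (nat_lit 7265) (nat_lit 384) (.e (nat_lit 57424) (nat_lit 14) (.e (nat_lit 352303) (nat_lit 20) (.e (nat_lit 2281) (nat_lit 150) (.e (nat_lit 770057) (nat_lit 5) .nil))))))) (.g (nat_lit 6) .nil .nil)))) (.nd (nat_lit 5) 
(.lf (nat_lit 62939) (.g (nat_lit 1067) (.e (nat_lit 1586) (nat_lit 111) (.e (nat_lit 360451) (nat_lit 0) (.e (nat_lit 7261) (nat_lit 384) (.e (nat_lit 57412) (nat_lit 12) (.e (nat_lit 336176) (nat_lit 10) .nil))))) .nil)) 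
(.lf (nat_lit 62971) (.g (nat_lit 2137) (.e (nat_lit 1586) (nat_lit 111) (.e (nat_lit 360451) (nat_lit 0) (.e (nat_lit 7710) (nat_lit 414) (.e (nat_lit 163908) (nat_lit 12) (.e (nat_lit 426286) (nat_lit 10) (.e (nat_lit 434241) (nat_lit 27) (.e (nat_lit 565252) (nat_lit 0) .nil))))))) (.g (nat_lit 4) .nil .nil)))))) (.nd (nat_lit 3) (.nd (nat_lit 4) (.nd (nat_lit 5) 
(.lf (nat_lit 62919) (.g (nat_lit 2925) (.e (nat_lit 1586) (nat_lit 111) (.e (nat_lit 360451) (nat_lit 0) (.e (nat_lit 7125) (nat_lit 382) (.e (nat_lit 1201) (nat_lit 88) (.e (nat_lit 65617) (nat_lit 10) (.e (nat_lit 344175) (nat_lit 43) (.e (nat_lit 770057) (nat_lit 5) .nil))))))) (.g (nat_lit 5) .nil .nil))) 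
(.lf (nat_lit 62951) (.g (nat_lit 3715) (.e (nat_lit 1586) (nat_lit 111) (.e (nat_lit 360451) (nat_lit 0) (.e (nat_lit 7265) (nat_lit 384) (.e (nat_lit 57412) (nat_lit 12) (.e (nat_lit 336173) (nat_lit 10) (.e (nat_lit 344177) (nat_lit 43) (.e (nat_lit 770058) (nat_lit 5) .nil))))))) (.g (nat_lit 7) .nil .nil)))) (.nd (nat_lit 5) 
(.lf (nat_lit 62935) (.g (nat_lit 1295) (.e (nat_lit 1586) (nat_lit 111) (.e (nat_lit 360451) (nat_lit 0) (.e (nat_lit 7125) (nat_lit 382) (.e (nat_lit 7936) (nat_lit 90) .nil)))) .nil)) 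
(.lf (nat_lit 62967) (.g (nat_lit 2241) (.e (nat_lit 1586) (nat_lit 111) (.e (nat_lit 360451) (nat_lit 0) (.e (nat_lit 7266) (nat_lit 384) (.e (nat_lit 57436) (nat_lit 17) (.e (nat_lit 376855) (nat_lit 20) (.e (nat_lit 2276) (nat_lit 150) (.e (nat_lit 770057) (nat_lit 5) .nil))))))) (.g (nat_lit 4) .nil .nil))))) (.nd (nat_lit 4) (.nd (nat_lit 5) 
(.lf (nat_lit 62927) (.g (nat_lit 3041) (.e (nat_lit 1586) (nat_lit 111) (.e (nat_lit 360451) (nat_lit 0) (.e (nat_lit 7125) (nat_lit 382) (.e (nat_lit 1222) (nat_lit 90) (.e (nat_lit 81943) (nat_lit 20) (.e (nat_lit 2280) (nat_lit 150) (.e (nat_lit 770057) (nat_lit 5) .nil))))))) (.g (nat_lit 5) .nil .nil))) 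
(.lf (nat_lit 62959) (.g (nat_lit 2063) (.e (nat_lit 1586) (nat_lit 111) (.e (nat_lit 360451) (nat_lit 0) (.e (nat_lit 7265) (nat_lit 384) (.e (nat_lit 57428) (nat_lit 15) (.e (nat_lit 360489) (nat_lit 21) (.e (nat_lit 770057) (nat_lit 5) .nil)))))) (.g (nat_lit 4) .nil .nil)))) (.nd (nat_lit 5) 
(.lf (nat_lit 62943) (.g (nat_lit 2658) (.e (nat_lit 1586) (nat_lit 111) (.e (nat_lit 360451) (nat_lit 0) (.e (nat_lit 7261) (nat_lit 384) (.e (nat_lit 57428) (nat_lit 15) (.e (nat_lit 360489) (nat_lit 21) (.e (nat_lit 770057) (nat_lit 5) .nil)))))) (.g (nat_lit 6) .nil .nil))) 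
(.lf (nat_lit 62975) (.g (nat_lit 2496) (.e (nat_lit 1586) (nat_lit 111) (.e (nat_lit 360451) (nat_lit 0) (.e (nat_lit 7710) (nat_lit 414) (.e (nat_lit 163923) (nat_lit 15) (.e (nat_lit 450584) (nat_lit 9) (.e (nat_lit 565252) (nat_lit 0) .nil)))))) (.g (nat_lit 4) .nil .nil)))))))))

noncomputable def tv863 : DT := (.nd (nat_lit 0) (.nd (nat_lit 1) (.nd (nat_lit 2) (.nd (nat_lit 3) (.nd (nat_lit 4) (.nd (nat_lit 5) 
(.lf (nat_lit 62976) (.g (nat_lit 2296) (.e (nat_lit 1586) (nat_lit 111) (.e (nat_lit 360451) (nat_lit 0) (.e (nat_lit 7710) (nat_lit 414) (.e (nat_lit 163924) (nat_lit 15) (.e (nat_lit 450584) (nat_lit 9) (.e (nat_lit 565252) (nat_lit 0) .nil)))))) (.g (nat_lit 4) .nil .nil))) 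
(.lf (nat_lit 63008) (.g (nat_lit 895) (.e (nat_lit 1586) (nat_lit 111) (.e (nat_lit 368384) (nat_lit 0) (.e (nat_lit 5229) (nat_lit 296) (.e (nat_lit 163923) (nat_lit 15) (.e (nat_lit 450592) (nat_lit 14) (.e (nat_lit 639008) (nat_lit 13) .nil)))))) (.g (nat_lit 4) .nil .nil)))) (.nd (nat_lit 5) 
(.lf (nat_lit 62992) (.g (nat_lit 1417) (.e (nat_lit 1586) (nat_lit 111) (.e (nat_lit 360456) (nat_lit 0) (.e (nat_lit 5818) (nat_lit 320) (.e (nat_lit 1222) (nat_lit 90) (.e (nat_lit 81943) (nat_lit 20) (.e (nat_lit 2005) (nat_lit 138) (.e (nat_lit 671746) (nat_lit 0) .nil))))))) (.g (nat_lit 4) .nil .nil))) 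
(.lf (nat_lit 63024) (.g (nat_lit 4885) (.e (nat_lit 1586) (nat_lit 111) (.e (nat_lit 360468) (nat_lit 3) (.e (nat_lit 516139) (nat_lit 7) (.e (nat_lit 409649) (nat_lit 18) (.e (nat_lit 303117) (nat_lit 2) (.e (nat_lit 196630) (nat_lit 9) .nil)))))) (.g (nat_lit 0) .nil .nil))))) (.nd (nat_lit 4) (.nd (nat_lit 5) 
(.lf (nat_lit 62984) (.g (nat_lit 1585) (.e (nat_lit 1586) (nat_lit 111) (.e (nat_lit 360452) (nat_lit 0) (.e (nat_lit 5907) (nat_lit 320) (.e (nat_lit 1221) (nat_lit 90) .nil)))) .nil)) 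
(.lf (nat_lit 63016) (.g (nat_lit 2621) (.e (nat_lit 1586) (nat_lit 111) (.e (nat_lit 360466) (nat_lit 3) (.e (nat_lit 516185) (nat_lit 16) (.e (nat_lit 491558) (nat_lit 10) (.e (nat_lit 344126) (nat_lit 25) .nil))))) .nil))) (.nd (nat_lit 5) 
(.lf (nat_lit 63000) (.g (nat_lit 2011) (.e (nat_lit 1586) (nat_lit 111) (.e (nat_lit 360456) (nat_lit 0) (.e (nat_lit 5949) (nat_lit 322) (.e (nat_lit 57427) (nat_lit 15) (.e (nat_lit 360486) (nat_lit 18) (.e (nat_lit 671747) (nat_lit 0) .nil)))))) (.g (nat_lit 5) .nil .nil))) 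
(.lf (nat_lit 63032) (.g (nat_lit 3312) (.e (nat_lit 1586) (nat_lit 111) (.e (nat_lit 360468) (nat_lit 3) (.e (nat_lit 516185) (nat_lit 16) (.e (nat_lit 491560) (nat_lit 10) (.e (nat_lit 344126) (nat_lit 25) (.e (nat_lit 548873) (nat_lit 5) .nil)))))) (.g (nat_lit 5) .nil .nil)))))) (.nd (nat_lit 3) (.nd (nat_lit 4) (.nd (nat_lit 5) 
(.lf (nat_lit 62980) (.g (nat_lit 2874) (.e (nat_lit 1586) (nat_lit 111) (.e (nat_lit 360452) (nat_lit 0) (.e (nat_lit 5907) (nat_lit 320) (.e (nat_lit 1190) (nat_lit 88) (.e (nat_lit 65619) (nat_lit 10) (.e (nat_lit 344169) (nat_lit 40) (.e (nat_lit 671748) (nat_lit 0) .nil))))))) (.g (nat_lit 4) .nil .nil))) 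
(.lf (nat_lit 63012) (.g (nat_lit 1894) (.e (nat_lit 1586) (nat_lit 111) (.e (nat_lit 368384) (nat_lit 0) (.e (nat_lit 5905) (nat_lit 320) (.e (nat_lit 1221) (nat_lit 90) (.e (nat_lit 81931) (nat_lit 20) (.e (nat_lit 1998) (nat_lit 137) (.e (nat_lit 663554) (nat_lit 0) .nil))))))) (.g (nat_lit 4) .nil .nil)))) (.nd (nat_lit 5) 
(.lf (nat_lit 62996) (.g (nat_lit 2329) (.e (nat_lit 1586) (nat_lit 111) (.e (nat_lit 360456) (nat_lit 0) (.e (nat_lit 5948) (nat_lit 322) (.e (nat_lit 57427) (nat_lit 15) (.e (nat_lit 360486) (nat_lit 18) (.e (nat_lit 671748) (nat_lit 0) .nil)))))) (.g (nat_lit 5) .nil .nil))) 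
(.lf (nat_lit 63028) (.g (nat_lit 3029) (.e (nat_lit 1586) (nat_lit 111) (.e (nat_lit 360468) (nat_lit 3) (.e (nat_lit 516184) (nat_lit 16) (.e (nat_lit 491559) (nat_lit 10) (.e (nat_lit 344126) (nat_lit 25) (.e (nat_lit 548874) (nat_lit 5) .nil)))))) (.g (nat_lit 5) .nil .nil))))) (.nd (nat_lit 4) (.nd (nat_lit 5) 
(.lf (nat_lit 62988) (.g (nat_lit 1495) (.e (nat_lit 1586) (nat_lit 111) (.e (nat_lit 360452) (nat_lit 0) (.e (nat_lit 7272) (nat_lit 385) (.e (nat_lit 122917) (nat_lit 15) .nil)))) .nil)) 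
(.lf (nat_lit 63020) (.g (nat_lit 1973) (.e (nat_lit 1586) (nat_lit 111) (.e (nat_lit 360468) (nat_lit 3) (.e (nat_lit 516098) (nat_lit 0) (.e (nat_lit 7593) (nat_lit 407) (.e (nat_lit 73751) (nat_lit 7) (.e (nat_lit 548874) (nat_lit 5) .nil)))))) (.g (nat_lit 5) .nil .nil)))) (.nd (nat_lit 5) 
(.lf (nat_lit 63004) (.g (nat_lit 2839) (.e (nat_lit 1586) (nat_lit 111) (.e (nat_lit 360456) (nat_lit 0) (.e (nat_lit 5958) (nat_lit 323) (.e (nat_lit 122919) (nat_lit 15) (.e (nat_lit 360486) (nat_lit 18) (.e (nat_lit 671748) (nat_lit 0) .nil)))))) (.g (nat_lit 6) .nil .nil))) 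
(.lf (nat_lit 63036) (.g (nat_lit 2217) (.e (nat_lit 1586) (nat_lit 111) (.e (nat_lit 360471) (nat_lit 7) (.e (nat_lit 548872) (nat_lit 5) (.e (nat_lit 1598) (nat_lit 111) (.e (nat_lit 360471) (nat_lit 7) (.e (nat_lit 548874) (nat_lit 5) .nil)))))) (.g (nat_lit 6) .nil .nil))))))) (.nd (nat_lit 2) (.nd (nat_lit 3) (.nd (nat_lit 4) (.nd (nat_lit 5) 
(.lf (nat_lit 62978) (.g (nat_lit 1579) (.e (nat_lit 1586) (nat_lit 111) (.e (nat_lit 360452) (nat_lit 0) (.e (nat_lit 5905) (nat_lit 320) (.e (nat_lit 1220) (nat_lit 90) .nil)))) .nil)) 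
(.lf (nat_lit 63010) (.g (nat_lit 1511) (.e (nat_lit 1586) (nat_lit 111) (.e (nat_lit 368384) (nat_lit 0) (.e (nat_lit 5231) (nat_lit 296) (.e (nat_lit 163908) (nat_lit 12) (.e (nat_lit 426286) (nat_lit 10) (.e (nat_lit 434269) (nat_lit 36) (.e (nat_lit 639008) (nat_lit 13) .nil))))))) (.g (nat_lit 5) .nil .nil)))) (.nd (nat_lit 5) 
(.lf (nat_lit 62994) (.g (nat_lit 2628) (.e (nat_lit 1586) (nat_lit 111) (.e (nat_lit 360456) (nat_lit 0) (.e (nat_lit 5818) (nat_lit 320) (.e (nat_lit 1224) (nat_lit 90) (.e (nat_lit 81946) (nat_lit 20) (.e (nat_lit 2005) (nat_lit 138) (.e (nat_lit 671748) (nat_lit 0) .nil))))))) (.g (nat_lit 0) .nil .nil))) 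
(.lf (nat_lit 63026) (.g (nat_lit 3535) (.e (nat_lit 1586) (nat_lit 111) (.e (nat_lit 360468) (nat_lit 3) (.e (nat_lit 516179) (nat_lit 15) (.e (nat_lit 475199) (nat_lit 40) (.e (nat_lit 704590) (nat_lit 3) (.e (nat_lit 163975) (nat_lit 30) (.e (nat_lit 573449) (nat_lit 9) .nil))))))) (.g (nat_lit 5) .nil .nil))))) (.nd (nat_lit 4) (.nd (nat_lit 5) 
(.lf (nat_lit 62986) (.g (nat_lit 635) (.e (nat_lit 1586) (nat_lit 111) (.e (nat_lit 360452) (nat_lit 0) (.e (nat_lit 7147) (nat_lit 382) .nil))) .nil)) 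
(.lf (nat_lit 63018) (.g (nat_lit 1850) (.e (nat_lit 1586) (nat_lit 111) (.e (nat_lit 360468) (nat_lit 3) (.e (nat_lit 516098) (nat_lit 0) (.e (nat_lit 7591) (nat_lit 407) (.e (nat_lit 73751) (nat_lit 7) (.e (nat_lit 548874) (nat_lit 5) .nil)))))) (.g (nat_lit 4) .nil .nil)))) (.nd (nat_lit 5) 
(.lf (nat_lit 63002) (.g (nat_lit 2726) (.e (nat_lit 1586) (nat_lit 111) (.e (nat_lit 360456) (nat_lit 0) (.e (nat_lit 5949) (nat_lit 322) (.e (nat_lit 57428) (nat_lit 15) (.e (nat_lit 360486) (nat_lit 18) (.e (nat_lit 671748) (nat_lit 0) .nil)))))) (.g (nat_lit 6) .nil .nil))) 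
(.lf (nat_lit 63034) (.g (nat_lit 1355) (.e (nat_lit 1586) (nat_lit 111) (.e (nat_lit 360471) (nat_lit 7) (.e (nat_lit 548872) (nat_lit 5) (.e (nat_lit 1592) (nat_lit 111) (.e (nat_lit 360471) (nat_lit 7) (.e (nat_lit 548873) (nat_lit 5) .nil)))))) (.g (nat_lit 4) .nil .nil)))))) (.nd (nat_lit 3) (.nd (nat_lit 4) (.nd (nat_lit 5) 
(.lf (nat_lit 62982) (.g (nat_lit 1612) (.e (nat_lit 1586) (nat_lit 111) (.e (nat_lit 360452) (nat_lit 0) (.e (nat_lit 5907) (nat_lit 320) (.e (nat_lit 1200) (nat_lit 88) .nil)))) .nil)) 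
(.lf (nat_lit 63014) (.g (nat_lit 4024) (.e (nat_lit 1586) (nat_lit 111) (.e (nat_lit 360462) (nat_lit 1) (.e (nat_lit 499846) (nat_lit 5) (.e (nat_lit 3102) (nat_lit 192) (.e (nat_lit 491560) (nat_lit 10) (.e (nat_lit 344126) (nat_lit 25) (.e (nat_lit 548874) (nat_lit 5) .nil))))))) (.g (nat_lit 7) .nil .nil)))) (.nd (nat_lit 5) 
(.lf (nat_lit 62998) (.g (nat_lit 2072) (.e (nat_lit 1586) (nat_lit 111) (.e (nat_lit 360456) (nat_lit 0) (.e (nat_lit 5949) (nat_lit 322) (.e (nat_lit 57424) (nat_lit 14) (.e (nat_lit 352285) (nat_lit 20) .nil))))) .nil)) 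
(.lf (nat_lit 63030) (.g (nat_lit 4562) (.e (nat_lit 1586) (nat_lit 111) (.e (nat_lit 360468) (nat_lit 3) (.e (nat_lit 516185) (nat_lit 16) (.e (nat_lit 491558) (nat_lit 10) (.e (nat_lit 344126) (nat_lit 25) (.e (nat_lit 548874) (nat_lit 5) .nil)))))) (.g (nat_lit 0) .nil .nil))))) (.nd (nat_lit 4) (.nd (nat_lit 5) 
(.lf (nat_lit 62990) (.g (nat_lit 3681) (.e (nat_lit 1586) (nat_lit 111) (.e (nat_lit 360456) (nat_lit 0) (.e (nat_lit 5817) (nat_lit 320) (.e (nat_lit 1201) (nat_lit 88) (.e (nat_lit 65610) (nat_lit 10) (.e (nat_lit 344169) (nat_lit 40) (.e (nat_lit 671748) (nat_lit 0) .nil))))))) (.g (nat_lit 0) .nil .nil))) 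
(.lf (nat_lit 63022) (.g (nat_lit 4500) (.e (nat_lit 1586) (nat_lit 111) (.e (nat_lit 360468) (nat_lit 3) (.e (nat_lit 516139) (nat_lit 7) (.e (nat_lit 409646) (nat_lit 18) (.e (nat_lit 303117) (nat_lit 2) (.e (nat_lit 196630) (nat_lit 9) .nil)))))) (.g (nat_lit 5) .nil .nil)))) (.nd (nat_lit 5) 
(.lf (nat_lit 63006) (.g (nat_lit 1508) (.e (nat_lit 1586) (nat_lit 111) (.e (nat_lit 368384) (nat_lit 0) (.e (nat_lit 5224) (nat_lit 296) (.e (nat_lit 163922) (nat_lit 15) (.e (nat_lit 450592) (nat_lit 14) (.e (nat_lit 639008) (nat_lit 13) .nil)))))) (.g (nat_lit 4) .nil .nil))) 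
(.lf (nat_lit 63038) (.g (nat_lit 2294) (.e (nat_lit 1586) (nat_lit 111) (.e (nat_lit 360471) (nat_lit 7) (.e (nat_lit 548873) (nat_lit 5) (.e (nat_lit 1586) (nat_lit 111) (.e (nat_lit 360471) (nat_lit 7) (.e (nat_lit 548873) (nat_lit 5) .nil)))))) (.g (nat_lit 6) .nil .nil)))))))) (.nd (nat_lit 1) (.nd (nat_lit 2) (.nd (nat_lit 3) (.nd (nat_lit 4) (.nd (nat_lit 5) 
(.lf (nat_lit 62977) (.g (nat_lit 1616) (.e (nat_lit 1586) (nat_lit 111) (.e (nat_lit 360452) (nat_lit 0) (.e (nat_lit 5905) (nat_lit 320) (.e (nat_lit 1219) (nat_lit 90) .nil)))) .nil)) 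
(.lf (nat_lit 63009) (.g (nat_lit 1484) (.e (nat_lit 1586) (nat_lit 111) (.e (nat_lit 368384) (nat_lit 0) (.e (nat_lit 5231) (nat_lit 296) (.e (nat_lit 163908) (nat_lit 12) (.e (nat_lit 426286) (nat_lit 10) (.e (nat_lit 434269) (nat_lit 36) (.e (nat_lit 639007) (nat_lit 13) .nil))))))) (.g (nat_lit 5) .nil .nil)))) (.nd (nat_lit 5) 
(.lf (nat_lit 62993) (.g (nat_lit 2756) (.e (nat_lit 1586) (nat_lit 111) (.e (nat_lit 360456) (nat_lit 0) (.e (nat_lit 5818) (nat_lit 320) (.e (nat_lit 1222) (nat_lit 90) (.e (nat_lit 81943) (nat_lit 20) (.e (nat_lit 2005) (nat_lit 138) (.e (nat_lit 671748) (nat_lit 0) .nil))))))) (.g (nat_lit 0) .nil .nil))) 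
(.lf (nat_lit 63025) (.g (nat_lit 3985) (.e (nat_lit 1586) (nat_lit 111) (.e (nat_lit 360468) (nat_lit 3) (.e (nat_lit 516179) (nat_lit 15) (.e (nat_lit 475199) (nat_lit 40) (.e (nat_lit 704589) (nat_lit 3) (.e (nat_lit 163975) (nat_lit 30) (.e (nat_lit 573449) (nat_lit 9) .nil))))))) (.g (nat_lit 5) .nil .nil))))) (.nd (nat_lit 4) (.nd (nat_lit 5) 
(.lf (nat_lit 62985) (.g (nat_lit 2841) (.e (nat_lit 1586) (nat_lit 111) (.e (nat_lit 360452) (nat_lit 0) (.e (nat_lit 5907) (nat_lit 320) (.e (nat_lit 1221) (nat_lit 90) (.e (nat_lit 81947) (nat_lit 20) (.e (nat_lit 2006) (nat_lit 138) (.e (nat_lit 671748) (nat_lit 0) .nil))))))) (.g (nat_lit 4) .nil .nil))) 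
(.lf (nat_lit 63017) (.g (nat_lit 3169) (.e (nat_lit 1586) (nat_lit 111) (.e (nat_lit 360466) (nat_lit 3) (.e (nat_lit 516185) (nat_lit 16) (.e (nat_lit 491559) (nat_lit 10) (.e (nat_lit 344126) (nat_lit 25) .nil))))) .nil))) (.nd (nat_lit 5) 
(.lf (nat_lit 63001) (.g (nat_lit 1710) (.e (nat_lit 1586) (nat_lit 111) (.e (nat_lit 360456) (nat_lit 0) (.e (nat_lit 5949) (nat_lit 322) (.e (nat_lit 57428) (nat_lit 15) (.e (nat_lit 360486) (nat_lit 18) (.e (nat_lit 671747) (nat_lit 0) .nil)))))) (.g (nat_lit 4) .nil .nil))) 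
(.lf (nat_lit 63033) (.g (nat_lit 1290) (.e (nat_lit 1586) (nat_lit 111) (.e (nat_lit 368384) (nat_lit 5) (.e (nat_lit 532583) (nat_lit 26) (.e (nat_lit 426296) (nat_lit 11) (.e (nat_lit 458814) (nat_lit 49) (.e (nat_lit 745475) (nat_lit 0) .nil)))))) (.g (nat_lit 5) .nil .nil)))))) (.nd (nat_lit 3) (.nd (nat_lit 4) (.nd (nat_lit 5) 
(.lf (nat_lit 62981) (.g (nat_lit 1615) (.e (nat_lit 1586) (nat_lit 111) (.e (nat_lit 360452) (nat_lit 0) (.e (nat_lit 5907) (nat_lit 320) (.e (nat_lit 1199) (nat_lit 88) .nil)))) .nil)) 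
(.lf (nat_lit 63013) (.g (nat_lit 2742) (.e (nat_lit 1586) (nat_lit 111) (.e (nat_lit 368384) (nat_lit 0) (.e (nat_lit 5905) (nat_lit 320) (.e (nat_lit 1221) (nat_lit 90) (.e (nat_lit 81938) (nat_lit 20) (.e (nat_lit 2005) (nat_lit 138) (.e (nat_lit 671748) (nat_lit 0) .nil))))))) (.g (nat_lit 5) .nil .nil)))) (.nd (nat_lit 5) 
(.lf (nat_lit 62997) (.g (nat_lit 1477) (.e (nat_lit 1586) (nat_lit 111) (.e (nat_lit 360456) (nat_lit 0) (.e (nat_lit 5949) (nat_lit 322) (.e (nat_lit 57409) (nat_lit 12) (.e (nat_lit 336182) (nat_lit 11) (.e (nat_lit 368695) (nat_lit 40) (.e (nat_lit 671745) (nat_lit 0) .nil))))))) (.g (nat_lit 4) .nil .nil))) 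
(.lf (nat_lit 63029) (.g (nat_lit 3728) (.e (nat_lit 1586) (nat_lit 111) (.e (nat_lit 360468) (nat_lit 3) (.e (nat_lit 516185) (nat_lit 16) (.e (nat_lit 491558) (nat_lit 10) (.e (nat_lit 344126) (nat_lit 25) (.e (nat_lit 548873) (nat_lit 5) .nil)))))) (.g (nat_lit 5) .nil .nil))))) (.nd (nat_lit 4) (.nd (nat_lit 5) 
(.lf (nat_lit 62989) (.g (nat_lit 636) (.e (nat_lit 1586) (nat_lit 111) (.e (nat_lit 360452) (nat_lit 0) (.e (nat_lit 7273) (nat_lit 385) .nil))) .nil)) 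
(.lf (nat_lit 63021) (.g (nat_lit 3987) (.e (nat_lit 1586) (nat_lit 111) (.e (nat_lit 360468) (nat_lit 3) (.e (nat_lit 516139) (nat_lit 7) (.e (nat_lit 409645) (nat_lit 18) (.e (nat_lit 303117) (nat_lit 2) (.e (nat_lit 196630) (nat_lit 9) .nil)))))) (.g (nat_lit 5) .nil .nil)))) (.nd (nat_lit 5) 
(.lf (nat_lit 63005) (.g (nat_lit 1502) (.e (nat_lit 1586) (nat_lit 111) (.e (nat_lit 368384) (nat_lit 0) (.e (nat_lit 5222) (nat_lit 296) (.e (nat_lit 163933) (nat_lit 17) (.e (nat_lit 466967) (nat_lit 20) (.e (nat_lit 3386) (nat_lit 210) (.e (nat_lit 639008) (nat_lit 13) .nil))))))) (.g (nat_lit 5) .nil .nil))) 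
(.lf (nat_lit 63037) (.g (nat_lit 1308) (.e (nat_lit 1586) (nat_lit 111) (.e (nat_lit 360471) (nat_lit 7) (.e (nat_lit 548872) (nat_lit 5) (.e (nat_lit 1599) (nat_lit 111) (.e (nat_lit 360471) (nat_lit 7) (.e (nat_lit 548873) (nat_lit 5) .nil)))))) (.g (nat_lit 4) .nil .nil))))))) (.nd (nat_lit 2) (.nd (nat_lit 3) (.nd (nat_lit 4) (.nd (nat_lit 5) 
(.lf (nat_lit 62979) (.g (nat_lit 1971) (.e (nat_lit 1586) (nat_lit 111) (.e (nat_lit 360452) (nat_lit 0) (.e (nat_lit 5905) (nat_lit 320) (.e (nat_lit 1221) (nat_lit 90) (.e (nat_lit 81938) (nat_lit 20) .nil))))) .nil)) 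
(.lf (nat_lit 63011) (.g (nat_lit 2711) (.e (nat_lit 1586) (nat_lit 111) (.e (nat_lit 368384) (nat_lit 0) (.e (nat_lit 5905) (nat_lit 320) (.e (nat_lit 1190) (nat_lit 88) (.e (nat_lit 65619) (nat_lit 10) (.e (nat_lit 344168) (nat_lit 40) (.e (nat_lit 671746) (nat_lit 0) .nil))))))) (.g (nat_lit 6) .nil .nil)))) (.nd (nat_lit 5) 
(.lf (nat_lit 62995) (.g (nat_lit 2766) (.e (nat_lit 1586) (nat_lit 111) (.e (nat_lit 360456) (nat_lit 0) (.e (nat_lit 5818) (nat_lit 320) (.e (nat_lit 1224) (nat_lit 90) (.e (nat_lit 81947) (nat_lit 20) (.e (nat_lit 2005) (nat_lit 138) (.e (nat_lit 671748) (nat_lit 0) .nil))))))) (.g (nat_lit 7) .nil .nil))) 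
(.lf (nat_lit 63027) (.g (nat_lit 2231) (.e (nat_lit 1586) (nat_lit 111) (.e (nat_lit 360468) (nat_lit 3) (.e (nat_lit 516184) (nat_lit 16) (.e (nat_lit 491559) (nat_lit 10) (.e (nat_lit 344126) (nat_lit 25) (.e (nat_lit 548873) (nat_lit 5) .nil)))))) (.g (nat_lit 4) .nil .nil))))) (.nd (nat_lit 4) (.nd (nat_lit 5) 
(.lf (nat_lit 62987) (.g (nat_lit 640) (.e (nat_lit 1586) (nat_lit 111) (.e (nat_lit 360452) (nat_lit 0) (.e (nat_lit 7272) (nat_lit 385) .nil))) .nil)) 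
(.lf (nat_lit 63019) (.g (nat_lit 1435) (.e (nat_lit 1586) (nat_lit 111) (.e (nat_lit 360468) (nat_lit 3) (.e (nat_lit 516098) (nat_lit 0) (.e (nat_lit 7593) (nat_lit 407) (.e (nat_lit 73751) (nat_lit 7) (.e (nat_lit 548873) (nat_lit 5) .nil)))))) (.g (nat_lit 4) .nil .nil)))) (.nd (nat_lit 5) 
(.lf (nat_lit 63003) (.g (nat_lit 1592) (.e (nat_lit 1586) (nat_lit 111) (.e (nat_lit 360456) (nat_lit 0) (.e (nat_lit 5949) (nat_lit 322) (.e (nat_lit 57436) (nat_lit 17) (.e (nat_lit 376855) (nat_lit 20) (.e (nat_lit 2000) (nat_lit 138) (.e (nat_lit 671748) (nat_lit 0) .nil))))))) (.g (nat_lit 4) .nil .nil))) 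
(.lf (nat_lit 63035) (.g (nat_lit 1901) (.e (nat_lit 1586) (nat_lit 111) (.e (nat_lit 360471) (nat_lit 7) (.e (nat_lit 548872) (nat_lit 5) (.e (nat_lit 1598) (nat_lit 111) (.e (nat_lit 360471) (nat_lit 7) (.e (nat_lit 548873) (nat_lit 5) .nil)))))) (.g (nat_lit 5) .nil .nil)))))) (.nd (nat_lit 3) (.nd (nat_lit 4) (.nd (nat_lit 5) 
(.lf (nat_lit 62983) (.g (nat_lit 1613) (.e (nat_lit 1586) (nat_lit 111) (.e (nat_lit 360452) (nat_lit 0) (.e (nat_lit 5907) (nat_lit 320) (.e (nat_lit 1219) (nat_lit 90) .nil)))) .nil)) 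
(.lf (nat_lit 63015) (.g (nat_lit 734) (.e (nat_lit 1586) (nat_lit 111) (.e (nat_lit 360466) (nat_lit 3) (.e (nat_lit 516098) (nat_lit 0) .nil))) .nil))) (.nd (nat_lit 5) 
(.lf (nat_lit 62999) (.g (nat_lit 1149) (.e (nat_lit 1586) (nat_lit 111) (.e (nat_lit 360456) (nat_lit 0) (.e (nat_lit 5949) (nat_lit 322) (.e (nat_lit 57427) (nat_lit 15) (.e (nat_lit 360486) (nat_lit 18) .nil))))) .nil)) 
(.lf (nat_lit 63031) (.g (nat_lit 3549) (.e (nat_lit 1586) (nat_lit 111) (.e (nat_lit 360468) (nat_lit 3) (.e (nat_lit 516185) (nat_lit 16) (.e (nat_lit 491559) (nat_lit 10) (.e (nat_lit 344126) (nat_lit 25) (.e (nat_lit 548874) (nat_lit 5) .nil)))))) (.g (nat_lit 4) .nil .nil))))) (.nd (nat_lit 4) (.nd (nat_lit 5) 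
(.lf (nat_lit 62991) (.g (nat_lit 2808) (.e (nat_lit 1586) (nat_lit 111) (.e (nat_lit 360456) (nat_lit 0) (.e (nat_lit 5818) (nat_lit 320) (.e (nat_lit 1201) (nat_lit 88) (.e (nat_lit 65610) (nat_lit 10) (.e (nat_lit 344168) (nat_lit 40) (.e (nat_lit 671746) (nat_lit 0) .nil))))))) (.g (nat_lit 6) .nil .nil))) 
(.lf (nat_lit 63023) (.g (nat_lit 783) (.e (nat_lit 1586) (nat_lit 111) (.e (nat_lit 360468) (nat_lit 3) (.e (nat_lit 516139) (nat_lit 7) (.e (nat_lit 409647) (nat_lit 18) .nil)))) .nil))) (.nd (nat_lit 5) 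
(.lf (nat_lit 63007) (.g (nat_lit 1667) (.e (nat_lit 1586) (nat_lit 111) (.e (nat_lit 368384) (nat_lit 0) (.e (nat_lit 5224) (nat_lit 296) (.e (nat_lit 163933) (nat_lit 17) (.e (nat_lit 466967) (nat_lit 20) (.e (nat_lit 3386) (nat_lit 210) (.e (nat_lit 639008) (nat_lit 13) .nil))))))) (.g (nat_lit 4) .nil .nil))) 
(.lf (nat_lit 63039) (.g (nat_lit 2686) (.e (nat_lit 1586) (nat_lit 111) (.e (nat_lit 360471) (nat_lit 7) (.e (nat_lit 548873) (nat_lit 5) (.e (nat_lit 1586) (nat_lit 111) (.e (nat_lit 360471) (nat_lit 7) (.e (nat_lit 548874) (nat_lit 5) .nil)))))) (.g (nat_lit 6) .nil .nil)))))))))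

noncomputable def tv864 : DT := (.nd (nat_lit 0) (.nd (nat_lit 1) (.nd (nat_lit 2) (.nd (nat_lit 3) (.nd (nat_lit 4) (.nd (nat_lit 5) 
(.lf (nat_lit 63040) (.g (nat_lit 2351) (.e (nat_lit 1586) (nat_lit 111) (.e (nat_lit 360471) (nat_lit 7) (.e (nat_lit 548873) (nat_lit 5) (.e (nat_lit 1589) (nat_lit 111) (.e (nat_lit 360471) (nat_lit 7) (.e (nat_lit 548873) (nat_lit 5) .nil)))))) (.g (nat_lit 6) .nil .nil))) 
(.lf (nat_lit 63072) (.g (nat_lit 1973) (.e (nat_lit 1586) (nat_lit 111) (.e (nat_lit 360474) (nat_lit 8) (.e (nat_lit 557070) (nat_lit 9) (.e (nat_lit 267) (nat_lit 21) .nil)))) .nil))) (.nd (nat_lit 5) 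
(.lf (nat_lit 63056) (.g (nat_lit 2953) (.e (nat_lit 1586) (nat_lit 111) (.e (nat_lit 360471) (nat_lit 7) (.e (nat_lit 548889) (nat_lit 9) (.e (nat_lit 65620) (nat_lit 10) (.e (nat_lit 344126) (nat_lit 25) (.e (nat_lit 548873) (nat_lit 5) .nil)))))) (.g (nat_lit 6) .nil .nil))) 
(.lf (nat_lit 63088) (.g (nat_lit 1959) (.e (nat_lit 1586) (nat_lit 111) (.e (nat_lit 360474) (nat_lit 8) (.e (nat_lit 557093) (nat_lit 12) (.e (nat_lit 164022) (nat_lit 46) (.e (nat_lit 704737) (nat_lit 11) .nil))))) .nil)))) (.nd (nat_lit 4) (.nd (nat_lit 5) 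
(.lf (nat_lit 63048) (.g (nat_lit 2556) (.e (nat_lit 1586) (nat_lit 111) (.e (nat_lit 360471) (nat_lit 7) (.e (nat_lit 548889) (nat_lit 9) (.e (nat_lit 65583) (nat_lit 7) (.e (nat_lit 319519) (nat_lit 12) (.e (nat_lit 32774) (nat_lit 5) .nil)))))) (.g (nat_lit 5) .nil .nil))) 
(.lf (nat_lit 63080) (.g (nat_lit 2376) (.e (nat_lit 1586) (nat_lit 111) (.e (nat_lit 360474) (nat_lit 8) (.e (nat_lit 557085) (nat_lit 11) (.e (nat_lit 24641) (nat_lit 10) (.e (nat_lit 344126) (nat_lit 25) .nil))))) .nil))) (.nd (nat_lit 5) 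
(.lf (nat_lit 63064) (.g (nat_lit 1760) (.e (nat_lit 1586) (nat_lit 111) (.e (nat_lit 360473) (nat_lit 8) (.e (nat_lit 557087) (nat_lit 11) (.e (nat_lit 24640) (nat_lit 10) .nil)))) .nil)) 
(.lf (nat_lit 63096) (.g (nat_lit 2230) (.e (nat_lit 1586) (nat_lit 111) (.e (nat_lit 360474) (nat_lit 8) (.e (nat_lit 557093) (nat_lit 12) (.e (nat_lit 164022) (nat_lit 46) (.e (nat_lit 704738) (nat_lit 11) (.e (nat_lit 16410) (nat_lit 2) (.e (nat_lit 196626) (nat_lit 9) .nil))))))) (.g (nat_lit 4) .nil .nil)))))) (.nd (nat_lit 3) (.nd (nat_lit 4) (.nd (nat_lit 5) 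
(.lf (nat_lit 63044) (.g (nat_lit 2635) (.e (nat_lit 1586) (nat_lit 111) (.e (nat_lit 360471) (nat_lit 7) (.e (nat_lit 548873) (nat_lit 5) (.e (nat_lit 1595) (nat_lit 111) (.e (nat_lit 360471) (nat_lit 7) (.e (nat_lit 548874) (nat_lit 5) .nil)))))) (.g (nat_lit 6) .nil .nil))) 
(.lf (nat_lit 63076) (.g (nat_lit 1291) (.e (nat_lit 1586) (nat_lit 111) (.e (nat_lit 360474) (nat_lit 8) (.e (nat_lit 557079) (nat_lit 9) .nil))) .nil))) (.nd (nat_lit 5) 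
(.lf (nat_lit 63060) (.g (nat_lit 1935) (.e (nat_lit 1586) (nat_lit 111) (.e (nat_lit 360471) (nat_lit 7) (.e (nat_lit 548891) (nat_lit 11) (.e (nat_lit 81947) (nat_lit 20) (.e (nat_lit 1841) (nat_lit 123) (.e (nat_lit 548874) (nat_lit 5) .nil)))))) (.g (nat_lit 4) .nil .nil))) 
(.lf (nat_lit 63092) (.g (nat_lit 2210) (.e (nat_lit 1586) (nat_lit 111) (.e (nat_lit 360474) (nat_lit 8) (.e (nat_lit 557093) (nat_lit 12) (.e (nat_lit 164022) (nat_lit 46) (.e (nat_lit 704738) (nat_lit 11) (.e (nat_lit 16397) (nat_lit 0) (.e (nat_lit 3124) (nat_lit 193) (.e (nat_lit 499952) (nat_lit 14) .nil)))))))) (.g (nat_lit 4) .nil .nil))))) (.nd (nat_lit 4) (.nd (nat_lit 5) 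
(.lf (nat_lit 63052) (.g (nat_lit 1374) (.e (nat_lit 1586) (nat_lit 111) (.e (nat_lit 360471) (nat_lit 7) (.e (nat_lit 548889) (nat_lit 9) (.e (nat_lit 65611) (nat_lit 10) .nil)))) .nil)) 
(.lf (nat_lit 63084) (.g (nat_lit 2745) (.e (nat_lit 1586) (nat_lit 111) (.e (nat_lit 360474) (nat_lit 8) (.e (nat_lit 557091) (nat_lit 12) (.e (nat_lit 164022) (nat_lit 46) .nil)))) .nil))) (.nd (nat_lit 5) 
(.lf (nat_lit 63068) (.g (nat_lit 1101) (.e (nat_lit 1586) (nat_lit 111) (.e (nat_lit 360473) (nat_lit 8) (.e (nat_lit 557118) (nat_lit 18) (.e (nat_lit 2808) (nat_lit 180) .nil)))) .nil)) 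
(.lf (nat_lit 63100) (.g (nat_lit 2789) (.e (nat_lit 1586) (nat_lit 111) (.e (nat_lit 360474) (nat_lit 8) (.e (nat_lit 557093) (nat_lit 12) (.e (nat_lit 164022) (nat_lit 46) (.e (nat_lit 704738) (nat_lit 11) (.e (nat_lit 16411) (nat_lit 2) (.e (nat_lit 196623) (nat_lit 9) .nil))))))) (.g (nat_lit 5) .nil .nil))))))) (.nd (nat_lit 2) (.nd (nat_lit 3) (.nd (nat_lit 4) (.nd (nat_lit 5) 
(.lf (nat_lit 63042) (.g (nat_lit 1844) (.e (nat_lit 1586) (nat_lit 111) (.e (nat_lit 360471) (nat_lit 7) (.e (nat_lit 548873) (nat_lit 5) (.e (nat_lit 1592) (nat_lit 111) (.e (nat_lit 360471) (nat_lit 7) (.e (nat_lit 548873) (nat_lit 5) .nil)))))) (.g (nat_lit 5) .nil .nil))) 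
(.lf (nat_lit 63074) (.g (nat_lit 1258) (.e (nat_lit 1586) (nat_lit 111) (.e (nat_lit 360474) (nat_lit 8) (.e (nat_lit 557071) (nat_lit 9) .nil))) .nil))) (.nd (nat_lit 5) 
(.lf (nat_lit 63058) (.g (nat_lit 2203) (.e (nat_lit 1586) (nat_lit 111) (.e (nat_lit 360471) (nat_lit 7) (.e (nat_lit 548891) (nat_lit 11) (.e (nat_lit 81942) (nat_lit 20) (.e (nat_lit 1842) (nat_lit 123) (.e (nat_lit 548873) (nat_lit 5) .nil)))))) (.g (nat_lit 0) .nil .nil))) 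
(.lf (nat_lit 63090) (.g (nat_lit 2580) (.e (nat_lit 1586) (nat_lit 111) (.e (nat_lit 360474) (nat_lit 8) (.e (nat_lit 557093) (nat_lit 12) (.e (nat_lit 164022) (nat_lit 46) (.e (nat_lit 704737) (nat_lit 11) (.e (nat_lit 16411) (nat_lit 2) (.e (nat_lit 196623) (nat_lit 9) .nil))))))) (.g (nat_lit 4) .nil .nil))))) (.nd (nat_lit 4) (.nd (nat_lit 5) 
(.lf (nat_lit 63050) (.g (nat_lit 2090) (.e (nat_lit 1586) (nat_lit 111) (.e (nat_lit 360471) (nat_lit 7) (.e (nat_lit 548889) (nat_lit 9) (.e (nat_lit 65586) (nat_lit 7) (.e (nat_lit 319519) (nat_lit 12) (.e (nat_lit 32774) (nat_lit 5) .nil)))))) (.g (nat_lit 4) .nil .nil))) 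
(.lf (nat_lit 63082) (.g (nat_lit 4451) (.e (nat_lit 1586) (nat_lit 111) (.e (nat_lit 360474) (nat_lit 8) (.e (nat_lit 557091) (nat_lit 12) (.e (nat_lit 163999) (nat_lit 38) (.e (nat_lit 639020) (nat_lit 16) (.e (nat_lit 65580) (nat_lit 6) (.e (nat_lit 155392) (nat_lit 0) .nil))))))) (.g (nat_lit 6) .nil .nil)))) (.nd (nat_lit 5) 
(.lf (nat_lit 63066) (.g (nat_lit 1398) (.e (nat_lit 1586) (nat_lit 111) (.e (nat_lit 360473) (nat_lit 8) (.e (nat_lit 557090) (nat_lit 12) .nil))) .nil)) 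
(.lf (nat_lit 63098) (.g (nat_lit 2053) (.e (nat_lit 1586) (nat_lit 111) (.e (nat_lit 360474) (nat_lit 8) (.e (nat_lit 557093) (nat_lit 12) (.e (nat_lit 164022) (nat_lit 46) (.e (nat_lit 704738) (nat_lit 11) (.e (nat_lit 16410) (nat_lit 2) (.e (nat_lit 196630) (nat_lit 9) .nil))))))) (.g (nat_lit 4) .nil .nil)))))) (.nd (nat_lit 3) (.nd (nat_lit 4) (.nd (nat_lit 5) 
(.lf (nat_lit 63046) (.g (nat_lit 2365) (.e (nat_lit 1586) (nat_lit 111) (.e (nat_lit 360471) (nat_lit 7) (.e (nat_lit 548874) (nat_lit 5) (.e (nat_lit 1592) (nat_lit 111) (.e (nat_lit 360471) (nat_lit 7) (.e (nat_lit 548873) (nat_lit 5) .nil)))))) (.g (nat_lit 6) .nil .nil))) 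
(.lf (nat_lit 63078) (.g (nat_lit 1971) (.e (nat_lit 1586) (nat_lit 111) (.e (nat_lit 360474) (nat_lit 8) (.e (nat_lit 557081) (nat_lit 9) (.e (nat_lit 316) (nat_lit 23) .nil)))) .nil))) (.nd (nat_lit 5) 
(.lf (nat_lit 63062) (.g (nat_lit 606) (.e (nat_lit 1586) (nat_lit 111) (.e (nat_lit 360473) (nat_lit 8) (.e (nat_lit 557087) (nat_lit 11) .nil))) .nil)) 
(.lf (nat_lit 63094) (.g (nat_lit 2074) (.e (nat_lit 1586) (nat_lit 111) (.e (nat_lit 360474) (nat_lit 8) (.e (nat_lit 557093) (nat_lit 12) (.e (nat_lit 164022) (nat_lit 46) (.e (nat_lit 704738) (nat_lit 11) (.e (nat_lit 16397) (nat_lit 0) (.e (nat_lit 3124) (nat_lit 193) (.e (nat_lit 499961) (nat_lit 14) .nil)))))))) (.g (nat_lit 4) .nil .nil))))) (.nd (nat_lit 4) (.nd (nat_lit 5) 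
(.lf (nat_lit 63054) (.g (nat_lit 2663) (.e (nat_lit 1586) (nat_lit 111) (.e (nat_lit 360471) (nat_lit 7) (.e (nat_lit 548889) (nat_lit 9) (.e (nat_lit 65616) (nat_lit 10) (.e (nat_lit 344126) (nat_lit 25) (.e (nat_lit 548873) (nat_lit 5) .nil)))))) (.g (nat_lit 0) .nil .nil))) 
(.lf (nat_lit 63086) (.g (nat_lit 2952) (.e (nat_lit 1586) (nat_lit 111) (.e (nat_lit 360474) (nat_lit 8) (.e (nat_lit 557093) (nat_lit 12) (.e (nat_lit 164022) (nat_lit 46) (.e (nat_lit 704629) (nat_lit 9) (.e (nat_lit 452) (nat_lit 33) (.e (nat_lit 434219) (nat_lit 19) (.e (nat_lit 499952) (nat_lit 14) .nil)))))))) (.g (nat_lit 5) .nil .nil)))) (.nd (nat_lit 5) 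
(.lf (nat_lit 63070) (.g (nat_lit 1040) (.e (nat_lit 1586) (nat_lit 111) (.e (nat_lit 360474) (nat_lit 8) (.e (nat_lit 557065) (nat_lit 9) .nil))) .nil)) 
(.lf (nat_lit 63102) (.g (nat_lit 2928) (.e (nat_lit 1586) (nat_lit 111) (.e (nat_lit 360474) (nat_lit 8) (.e (nat_lit 557093) (nat_lit 12) (.e (nat_lit 164022) (nat_lit 46) (.e (nat_lit 704738) (nat_lit 11) (.e (nat_lit 16411) (nat_lit 2) (.e (nat_lit 196627) (nat_lit 9) .nil))))))) (.g (nat_lit 5) .nil .nil)))))))) 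
(.nd (nat_lit 1) (.nd (nat_lit 2) (.nd (nat_lit 3) (.nd (nat_lit 4) (.nd (nat_lit 5) 
(.lf (nat_lit 63041) (.g (nat_lit 2661) (.e (nat_lit 1586) (nat_lit 111) (.e (nat_lit 360471) (nat_lit 7) (.e (nat_lit 548873) (nat_lit 5) (.e (nat_lit 1589) (nat_lit 111) (.e (nat_lit 360471) (nat_lit 7) (.e (nat_lit 548874) (nat_lit 5) .nil)))))) (.g (nat_lit 6) .nil .nil))) 
(.lf (nat_lit 63073) (.g (nat_lit 1782) (.e (nat_lit 1586) (nat_lit 111) (.e (nat_lit 360474) (nat_lit 8) (.e (nat_lit 557070) (nat_lit 9) (.e (nat_lit 313) (nat_lit 23) .nil)))) .nil))) (.nd (nat_lit 5) 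
(.lf (nat_lit 63057) (.g (nat_lit 2177) (.e (nat_lit 1586) (nat_lit 111) (.e (nat_lit 360471) (nat_lit 7) (.e (nat_lit 548891) (nat_lit 11) (.e (nat_lit 81939) (nat_lit 20) (.e (nat_lit 1842) (nat_lit 123) (.e (nat_lit 548873) (nat_lit 5) .nil)))))) (.g (nat_lit 6) .nil .nil))) 
(.lf (nat_lit 63089) (.g (nat_lit 2792) (.e (nat_lit 1586) (nat_lit 111) (.e (nat_lit 360474) (nat_lit 8) (.e (nat_lit 557093) (nat_lit 12) (.e (nat_lit 164022) (nat_lit 46) (.e (nat_lit 704737) (nat_lit 11) (.e (nat_lit 16411) (nat_lit 2) (.e (nat_lit 196617) (nat_lit 9) .nil))))))) (.g (nat_lit 5) .nil .nil))))) (.nd (nat_lit 4) (.nd (nat_lit 5) 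
(.lf (nat_lit 63049) (.g (nat_lit 1726) (.e (nat_lit 1586) (nat_lit 111) (.e (nat_lit 360471) (nat_lit 7) (.e (nat_lit 548889) (nat_lit 9) (.e (nat_lit 65585) (nat_lit 7) .nil)))) .nil)) 
(.lf (nat_lit 63081) (.g (nat_lit 886) (.e (nat_lit 1586) (nat_lit 111) (.e (nat_lit 360474) (nat_lit 8) (.e (nat_lit 557089) (nat_lit 12) .nil))) .nil))) (.nd (nat_lit 5) 
(.lf (nat_lit 63065) (.g (nat_lit 2951) (.e (nat_lit 1586) (nat_lit 111) (.e (nat_lit 360473) (nat_lit 8) (.e (nat_lit 557087) (nat_lit 11) (.e (nat_lit 24641) (nat_lit 10) (.e (nat_lit 344126) (nat_lit 25) .nil))))) .nil)) 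
(.lf (nat_lit 63097) (.g (nat_lit 1986) (.e (nat_lit 1586) (nat_lit 111) (.e (nat_lit 360474) (nat_lit 8) (.e (nat_lit 557093) (nat_lit 12) (.e (nat_lit 164022) (nat_lit 46) (.e (nat_lit 704738) (nat_lit 11) (.e (nat_lit 16410) (nat_lit 2) (.e (nat_lit 196627) (nat_lit 9) .nil))))))) (.g (nat_lit 4) .nil .nil)))))) (.nd (nat_lit 3) (.nd (nat_lit 4) (.nd (nat_lit 5) 
(.lf (nat_lit 63045) (.g (nat_lit 2919) (.e (nat_lit 1586) (nat_lit 111) (.e (nat_lit 360471) (nat_lit 7) (.e (nat_lit 548874) (nat_lit 5) (.e (nat_lit 1589) (nat_lit 111) (.e (nat_lit 360471) (nat_lit 7) (.e (nat_lit 548873) (nat_lit 5) .nil)))))) (.g (nat_lit 0) .nil .nil))) 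
(.lf (nat_lit 63077) (.g (nat_lit 1308) (.e (nat_lit 1586) (nat_lit 111) (.e (nat_lit 360474) (nat_lit 8) (.e (nat_lit 557080) (nat_lit 9) .nil))) .nil))) (.nd (nat_lit 5) 
(.lf (nat_lit 63061) (.g (nat_lit 613) (.e (nat_lit 1586) (nat_lit 111) (.e (nat_lit 360473) (nat_lit 8) (.e (nat_lit 557066) (nat_lit 9) .nil))) .nil)) 
(.lf (nat_lit 63093) (.g (nat_lit 2327) (.e (nat_lit 1586) (nat_lit 111) (.e (nat_lit 360474) (nat_lit 8) (.e (nat_lit 557093) (nat_lit 12) (.e (nat_lit 164022) (nat_lit 46) (.e (nat_lit 704738) (nat_lit 11) (.e (nat_lit 16397) (nat_lit 0) (.e (nat_lit 3124) (nat_lit 193) (.e (nat_lit 499958) (nat_lit 14) .nil)))))))) (.g (nat_lit 4) .nil .nil))))) (.nd (nat_lit 4) (.nd (nat_lit 5) 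
(.lf (nat_lit 63053) (.g (nat_lit 2881) (.e (nat_lit 1586) (nat_lit 111) (.e (nat_lit 360471) (nat_lit 7) (.e (nat_lit 548889) (nat_lit 9) (.e (nat_lit 65611) (nat_lit 10) (.e (nat_lit 344126) (nat_lit 25) (.e (nat_lit 548873) (nat_lit 5) .nil)))))) (.g (nat_lit 6) .nil .nil))) 
(.lf (nat_lit 63085) (.g (nat_lit 473) (.e (nat_lit 1586) (nat_lit 111) (.e (nat_lit 360474) (nat_lit 8) (.e (nat_lit 557093) (nat_lit 12) .nil))) .nil))) (.nd (nat_lit 5) 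
(.lf (nat_lit 63069) (.g (nat_lit 1672) (.e (nat_lit 1586) (nat_lit 111) (.e (nat_lit 360473) (nat_lit 8) (.e (nat_lit 557119) (nat_lit 18) (.e (nat_lit 2798) (nat_lit 180) .nil)))) .nil)) 
(.lf (nat_lit 63101) (.g (nat_lit 1830) (.e (nat_lit 1586) (nat_lit 111) (.e (nat_lit 360474) (nat_lit 8) (.e (nat_lit 557093) (nat_lit 12) (.e (nat_lit 164022) (nat_lit 46) (.e (nat_lit 704738) (nat_lit 11) (.e (nat_lit 16411) (nat_lit 2) (.e (nat_lit 196626) (nat_lit 9) .nil))))))) (.g (nat_lit 4) .nil .nil))))))) (.nd (nat_lit 2) (.nd (nat_lit 3) (.nd (nat_lit 4) (.nd (nat_lit 5) 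
(.lf (nat_lit 63043) (.g (nat_lit 2348) (.e (nat_lit 1586) (nat_lit 111) (.e (nat_lit 360471) (nat_lit 7) (.e (nat_lit 548873) (nat_lit 5) (.e (nat_lit 1595) (nat_lit 111) (.e (nat_lit 360471) (nat_lit 7) (.e (nat_lit 548873) (nat_lit 5) .nil)))))) (.g (nat_lit 6) .nil .nil))) 
(.lf (nat_lit 63075) (.g (nat_lit 956) (.e (nat_lit 1586) (nat_lit 111) (.e (nat_lit 360474) (nat_lit 8) (.e (nat_lit 557072) (nat_lit 9) (.e (nat_lit 7936) (nat_lit 23) .nil)))) .nil))) (.nd (nat_lit 5) 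
(.lf (nat_lit 63059) (.g (nat_lit 2317) (.e (nat_lit 1586) (nat_lit 111) (.e (nat_lit 360471) (nat_lit 7) (.e (nat_lit 548891) (nat_lit 11) (.e (nat_lit 81946) (nat_lit 20) (.e (nat_lit 1842) (nat_lit 123) (.e (nat_lit 548873) (nat_lit 5) .nil)))))) (.g (nat_lit 5) .nil .nil))) 
(.lf (nat_lit 63091) (.g (nat_lit 2753) (.e (nat_lit 1586) (nat_lit 111) (.e (nat_lit 360474) (nat_lit 8) (.e (nat_lit 557093) (nat_lit 12) (.e (nat_lit 164022) (nat_lit 46) (.e (nat_lit 704737) (nat_lit 11) (.e (nat_lit 16411) (nat_lit 2) (.e (nat_lit 196627) (nat_lit 9) .nil))))))) (.g (nat_lit 5) .nil .nil))))) (.nd (nat_lit 4) (.nd (nat_lit 5) 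
(.lf (nat_lit 63051) (.g (nat_lit 2010) (.e (nat_lit 1586) (nat_lit 111) (.e (nat_lit 360471) (nat_lit 7) (.e (nat_lit 548889) (nat_lit 9) (.e (nat_lit 65609) (nat_lit 10) .nil)))) .nil)) 
(.lf (nat_lit 63083) (.g (nat_lit 2383) (.e (nat_lit 1586) (nat_lit 111) (.e (nat_lit 360474) (nat_lit 8) (.e (nat_lit 557091) (nat_lit 12) (.e (nat_lit 163999) (nat_lit 38) (.e (nat_lit 639021) (nat_lit 16) .nil))))) .nil))) (.nd (nat_lit 5) 
(.lf (nat_lit 63067) (.g (nat_lit 795) (.e (nat_lit 1586) (nat_lit 111) (.e (nat_lit 360473) (nat_lit 8) (.e (nat_lit 557118) (nat_lit 18) .nil))) .nil)) 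
(.lf (nat_lit 63099) (.g (nat_lit 3030) (.e (nat_lit 1586) (nat_lit 111) (.e (nat_lit 360474) (nat_lit 8) (.e (nat_lit 557093) (nat_lit 12) (.e (nat_lit 164022) (nat_lit 46) (.e (nat_lit 704738) (nat_lit 11) (.e (nat_lit 16411) (nat_lit 2) (.e (nat_lit 196617) (nat_lit 9) .nil))))))) (.g (nat_lit 5) .nil .nil)))))) (.nd (nat_lit 3) (.nd (nat_lit 4) (.nd (nat_lit 5) 
(.lf (nat_lit 63047) (.g (nat_lit 2395) (.e (nat_lit 1586) (nat_lit 111) (.e (nat_lit 360471) (nat_lit 7) (.e (nat_lit 548874) (nat_lit 5) (.e (nat_lit 1599) (nat_lit 111) (.e (nat_lit 360471) (nat_lit 7) (.e (nat_lit 548873) (nat_lit 5) .nil)))))) (.g (nat_lit 0) .nil .nil))) 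
(.lf (nat_lit 63079) (.g (nat_lit 4081) (.e (nat_lit 1586) (nat_lit 111) (.e (nat_lit 360474) (nat_lit 8) (.e (nat_lit 557085) (nat_lit 11) (.e (nat_lit 24640) (nat_lit 10) (.e (nat_lit 344126) (nat_lit 25) (.e (nat_lit 548874) (nat_lit 5) .nil)))))) (.g (nat_lit 6) .nil .nil)))) (.nd (nat_lit 5) 
(.lf (nat_lit 63063) (.g (nat_lit 1854) (.e (nat_lit 1586) (nat_lit 111) (.e (nat_lit 360473) (nat_lit 8) (.e (nat_lit 557087) (nat_lit 11) (.e (nat_lit 24639) (nat_lit 10) .nil)))) .nil)) 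
(.lf (nat_lit 63095) (.g (nat_lit 2267) (.e (nat_lit 1586) (nat_lit 111) (.e (nat_lit 360474) (nat_lit 8) (.e (nat_lit 557093) (nat_lit 12) (.e (nat_lit 164022) (nat_lit 46) (.e (nat_lit 704738) (nat_lit 11) (.e (nat_lit 16397) (nat_lit 0) (.e (nat_lit 3124) (nat_lit 193) (.e (nat_lit 499962) (nat_lit 14) .nil)))))))) (.g (nat_lit 4) .nil .nil))))) (.nd (nat_lit 4) (.nd (nat_lit 5) 
(.lf (nat_lit 63055) (.g (nat_lit 3091) (.e (nat_lit 1586) (nat_lit 111) (.e (nat_lit 360471) (nat_lit 7) (.e (nat_lit 548889) (nat_lit 9) (.e (nat_lit 65617) (nat_lit 10) (.e (nat_lit 344126) (nat_lit 25) (.e (nat_lit 548873) (nat_lit 5) .nil)))))) (.g (nat_lit 6) .nil .nil))) 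
(.lf (nat_lit 63087) (.g (nat_lit 1769) (.e (nat_lit 1586) (nat_lit 111) (.e (nat_lit 360474) (nat_lit 8) (.e (nat_lit 557093) (nat_lit 12) (.e (nat_lit 164022) (nat_lit 46) (.e (nat_lit 704736) (nat_lit 11) .nil))))) .nil))) (.nd (nat_lit 5) 
(.lf (nat_lit 63071) (.g (nat_lit 1822) (.e (nat_lit 1586) (nat_lit 111) (.e (nat_lit 360474) (nat_lit 8) (.e (nat_lit 557070) (nat_lit 9) (.e (nat_lit 253) (nat_lit 21) .nil)))) .nil)) 
(.lf (nat_lit 63103) (.g (nat_lit 4046) (.e (nat_lit 1586) (nat_lit 111) (.e (nat_lit 360474) (nat_lit 8) (.e (nat_lit 557093) (nat_lit 12) (.e (nat_lit 164022) (nat_lit 46) (.e (nat_lit 704738) (nat_lit 11) (.e (nat_lit 16412) (nat_lit 2) (.e (nat_lit 196626) (nat_lit 9) .nil))))))) (.g (nat_lit 6) .nil .nil)))))))))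

noncomputable def tv865 : DT := (.nd (nat_lit 0) (.nd (nat_lit 1) (.nd (nat_lit 2) (.nd (nat_lit 3) (.nd (nat_lit 4) (.nd (nat_lit 5) 
(.lf (nat_lit 63104) (.g (nat_lit 1426) (.e (nat_lit 1586) (nat_lit 111) (.e (nat_lit 360474) (nat_lit 8) (.e (nat_lit 557093) (nat_lit 12) (.e (nat_lit 164023) (nat_lit 46) .nil)))) .nil)) 
(.lf (nat_lit 63136) (.g (nat_lit 3000) (.e (nat_lit 1586) (nat_lit 111) (.e (nat_lit 360475) (nat_lit 8) (.e (nat_lit 557068) (nat_lit 9) (.e (nat_lit 251) (nat_lit 21) (.e (nat_lit 336165) (nat_lit 10) (.e (nat_lit 344126) (nat_lit 25) (.e (nat_lit 548873) (nat_lit 5) .nil))))))) (.g (nat_lit 7) .nil .nil)))) (.nd (nat_lit 5) 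
(.lf (nat_lit 63120) (.g (nat_lit 2701) (.e (nat_lit 1586) (nat_lit 111) (.e (nat_lit 360474) (nat_lit 8) (.e (nat_lit 557094) (nat_lit 12) (.e (nat_lit 164022) (nat_lit 46) (.e (nat_lit 704738) (nat_lit 11) (.e (nat_lit 16411) (nat_lit 2) (.e (nat_lit 196627) (nat_lit 9) .nil))))))) (.g (nat_lit 5) .nil .nil))) 
(.lf (nat_lit 63152) (.g (nat_lit 3517) (.e (nat_lit 1586) (nat_lit 111) (.e (nat_lit 360475) (nat_lit 8) (.e (nat_lit 557086) (nat_lit 11) (.e (nat_lit 24640) (nat_lit 10) (.e (nat_lit 344126) (nat_lit 25) (.e (nat_lit 548873) (nat_lit 5) .nil)))))) (.g (nat_lit 4) .nil .nil))))) (.nd (nat_lit 4) (.nd (nat_lit 5) 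
(.lf (nat_lit 63112) (.g (nat_lit 1861) (.e (nat_lit 1586) (nat_lit 111) (.e (nat_lit 360474) (nat_lit 8) (.e (nat_lit 557094) (nat_lit 12) (.e (nat_lit 164022) (nat_lit 46) (.e (nat_lit 704738) (nat_lit 11) (.e (nat_lit 16397) (nat_lit 0) (.e (nat_lit 3124) (nat_lit 193) (.e (nat_lit 499952) (nat_lit 14) .nil)))))))) (.g (nat_lit 4) .nil .nil))) 
(.lf (nat_lit 63144) (.g (nat_lit 950) (.e (nat_lit 1586) (nat_lit 111) (.e (nat_lit 360475) (nat_lit 8) (.e (nat_lit 557085) (nat_lit 11) .nil))) .nil))) (.nd (nat_lit 5) 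
(.lf (nat_lit 63128) (.g (nat_lit 1465) (.e (nat_lit 1586) (nat_lit 111) (.e (nat_lit 360475) (nat_lit 8) (.e (nat_lit 557066) (nat_lit 9) (.e (nat_lit 225) (nat_lit 21) .nil)))) .nil)) 
(.lf (nat_lit 63160) (.g (nat_lit 3730) (.e (nat_lit 1586) (nat_lit 111) (.e (nat_lit 360475) (nat_lit 8) (.e (nat_lit 557086) (nat_lit 11) (.e (nat_lit 24665) (nat_lit 14) (.e (nat_lit 401414) (nat_lit 0) (.e (nat_lit 3124) (nat_lit 193) (.e (nat_lit 499962) (nat_lit 14) .nil))))))) (.g (nat_lit 4) .nil .nil)))))) (.nd (nat_lit 3) (.nd (nat_lit 4) (.nd (nat_lit 5) 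
(.lf (nat_lit 63108) (.g (nat_lit 2364) (.e (nat_lit 1586) (nat_lit 111) (.e (nat_lit 360474) (nat_lit 8) (.e (nat_lit 557094) (nat_lit 12) (.e (nat_lit 164022) (nat_lit 46) (.e (nat_lit 704737) (nat_lit 11) (.e (nat_lit 16411) (nat_lit 2) (.e (nat_lit 196617) (nat_lit 9) .nil))))))) (.g (nat_lit 5) .nil .nil))) 
(.lf (nat_lit 63140) (.g (nat_lit 1036) (.e (nat_lit 1586) (nat_lit 111) (.e (nat_lit 360475) (nat_lit 8) (.e (nat_lit 557071) (nat_lit 9) .nil))) .nil))) (.nd (nat_lit 5) 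
(.lf (nat_lit 63124) (.g (nat_lit 1273) (.e (nat_lit 1586) (nat_lit 111) (.e (nat_lit 360474) (nat_lit 8) (.e (nat_lit 557117) (nat_lit 18) .nil))) .nil)) 
(.lf (nat_lit 63156) (.g (nat_lit 1289) (.e (nat_lit 1586) (nat_lit 111) (.e (nat_lit 360475) (nat_lit 8) (.e (nat_lit 557086) (nat_lit 11) (.e (nat_lit 24650) (nat_lit 12) .nil)))) .nil)))) (.nd (nat_lit 4) (.nd (nat_lit 5) 
(.lf (nat_lit 63116) (.g (nat_lit 1992) (.e (nat_lit 1586) (nat_lit 111) (.e (nat_lit 360474) (nat_lit 8) (.e (nat_lit 557094) (nat_lit 12) (.e (nat_lit 164022) (nat_lit 46) (.e (nat_lit 704738) (nat_lit 11) (.e (nat_lit 16397) (nat_lit 0) (.e (nat_lit 3124) (nat_lit 193) (.e (nat_lit 499968) (nat_lit 14) .nil)))))))) (.g (nat_lit 4) .nil .nil))) 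
(.lf (nat_lit 63148) (.g (nat_lit 285) (.e (nat_lit 1586) (nat_lit 111) (.e (nat_lit 360475) (nat_lit 8) (.e (nat_lit 557086) (nat_lit 11) .nil))) .nil))) (.nd (nat_lit 5) 
(.lf (nat_lit 63132) (.g (nat_lit 1960) (.e (nat_lit 1586) (nat_lit 111) (.e (nat_lit 360475) (nat_lit 8) (.e (nat_lit 557066) (nat_lit 9) (.e (nat_lit 314) (nat_lit 23) (.e (nat_lit 352303) (nat_lit 20) .nil))))) .nil)) 
(.lf (nat_lit 63164) (.g (nat_lit 1681) (.e (nat_lit 1586) (nat_lit 111) (.e (nat_lit 360475) (nat_lit 8) (.e (nat_lit 557087) (nat_lit 11) (.e (nat_lit 24617) (nat_lit 7) (.e (nat_lit 319511) (nat_lit 10) .nil))))) .nil)))))) (.nd (nat_lit 2) (.nd (nat_lit 3) (.nd (nat_lit 4) (.nd (nat_lit 5) 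
(.lf (nat_lit 63106) (.g (nat_lit 1929) (.e (nat_lit 1586) (nat_lit 111) (.e (nat_lit 360474) (nat_lit 8) (.e (nat_lit 557093) (nat_lit 12) (.e (nat_lit 164023) (nat_lit 46) (.e (nat_lit 704738) (nat_lit 11) .nil))))) .nil)) 
(.lf (nat_lit 63138) (.g (nat_lit 1369) (.e (nat_lit 1586) (nat_lit 111) (.e (nat_lit 360475) (nat_lit 8) (.e (nat_lit 557068) (nat_lit 9) (.e (nat_lit 251) (nat_lit 21) (.e (nat_lit 336174) (nat_lit 10) .nil))))) .nil))) (.nd (nat_lit 5) 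
(.lf (nat_lit 63122) (.g (nat_lit 3484) (.e (nat_lit 1586) (nat_lit 111) (.e (nat_lit 360474) (nat_lit 8) (.e (nat_lit 557094) (nat_lit 12) (.e (nat_lit 164022) (nat_lit 46) (.e (nat_lit 704738) (nat_lit 11) (.e (nat_lit 16412) (nat_lit 2) (.e (nat_lit 196627) (nat_lit 9) .nil))))))) (.g (nat_lit 6) .nil .nil))) 
(.lf (nat_lit 63154) (.g (nat_lit 3002) (.e (nat_lit 1586) (nat_lit 111) (.e (nat_lit 360475) (nat_lit 8) (.e (nat_lit 557086) (nat_lit 11) (.e (nat_lit 24641) (nat_lit 10) (.e (nat_lit 344126) (nat_lit 25) (.e (nat_lit 548873) (nat_lit 5) .nil)))))) (.g (nat_lit 4) .nil .nil))))) (.nd (nat_lit 4) (.nd (nat_lit 5) 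
(.lf (nat_lit 63114) (.g (nat_lit 1725) (.e (nat_lit 1586) (nat_lit 111) (.e (nat_lit 360474) (nat_lit 8) (.e (nat_lit 557094) (nat_lit 12) (.e (nat_lit 164022) (nat_lit 46) (.e (nat_lit 704738) (nat_lit 11) (.e (nat_lit 16397) (nat_lit 0) (.e (nat_lit 3124) (nat_lit 193) (.e (nat_lit 499961) (nat_lit 14) .nil)))))))) (.g (nat_lit 4) .nil .nil))) 
(.lf (nat_lit 63146) (.g (nat_lit 4211) (.e (nat_lit 1586) (nat_lit 111) (.e (nat_lit 360475) (nat_lit 8) (.e (nat_lit 557085) (nat_lit 11) (.e (nat_lit 24640) (nat_lit 10) (.e (nat_lit 344126) (nat_lit 25) (.e (nat_lit 548873) (nat_lit 5) .nil)))))) (.g (nat_lit 4) .nil .nil)))) (.nd (nat_lit 5) 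
(.lf (nat_lit 63130) (.g (nat_lit 2313) (.e (nat_lit 1586) (nat_lit 111) (.e (nat_lit 360475) (nat_lit 8) (.e (nat_lit 557066) (nat_lit 9) (.e (nat_lit 312) (nat_lit 23) (.e (nat_lit 352295) (nat_lit 20) .nil))))) .nil)) 
(.lf (nat_lit 63162) (.g (nat_lit 148) (.e (nat_lit 1586) (nat_lit 111) (.e (nat_lit 360475) (nat_lit 8) (.e (nat_lit 557087) (nat_lit 11) .nil))) .nil))))) (.nd (nat_lit 3) (.nd (nat_lit 4) (.nd (nat_lit 5) 
(.lf (nat_lit 63110) (.g (nat_lit 2325) (.e (nat_lit 1586) (nat_lit 111) (.e (nat_lit 360474) (nat_lit 8) (.e (nat_lit 557094) (nat_lit 12) (.e (nat_lit 164022) (nat_lit 46) (.e (nat_lit 704737) (nat_lit 11) (.e (nat_lit 16411) (nat_lit 2) (.e (nat_lit 196627) (nat_lit 9) .nil))))))) (.g (nat_lit 5) .nil .nil))) 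
(.lf (nat_lit 63142) (.g (nat_lit 956) (.e (nat_lit 1586) (nat_lit 111) (.e (nat_lit 360475) (nat_lit 8) (.e (nat_lit 557079) (nat_lit 9) .nil))) .nil))) (.nd (nat_lit 5) 
(.lf (nat_lit 63126) (.g (nat_lit 1028) (.e (nat_lit 1586) (nat_lit 111) (.e (nat_lit 360475) (nat_lit 8) (.e (nat_lit 557064) (nat_lit 9) .nil))) .nil)) 
(.lf (nat_lit 63158) (.g (nat_lit 3856) (.e (nat_lit 1586) (nat_lit 111) (.e (nat_lit 360475) (nat_lit 8) (.e (nat_lit 557086) (nat_lit 11) (.e (nat_lit 24665) (nat_lit 14) (.e (nat_lit 401414) (nat_lit 0) (.e (nat_lit 3124) (nat_lit 193) (.e (nat_lit 499958) (nat_lit 14) .nil))))))) (.g (nat_lit 4) .nil .nil))))) (.nd (nat_lit 4) (.nd (nat_lit 5) 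
(.lf (nat_lit 63118) (.g (nat_lit 2803) (.e (nat_lit 1586) (nat_lit 111) (.e (nat_lit 360474) (nat_lit 8) (.e (nat_lit 557094) (nat_lit 12) (.e (nat_lit 164022) (nat_lit 46) (.e (nat_lit 704738) (nat_lit 11) (.e (nat_lit 16411) (nat_lit 2) (.e (nat_lit 196617) (nat_lit 9) .nil))))))) (.g (nat_lit 5) .nil .nil))) 
(.lf (nat_lit 63150) (.g (nat_lit 3355) (.e (nat_lit 1586) (nat_lit 111) (.e (nat_lit 360475) (nat_lit 8) (.e (nat_lit 557086) (nat_lit 11) (.e (nat_lit 24639) (nat_lit 10) (.e (nat_lit 344126) (nat_lit 25) (.e (nat_lit 548874) (nat_lit 5) .nil)))))) (.g (nat_lit 4) .nil .nil)))) (.nd (nat_lit 5) 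
(.lf (nat_lit 63134) (.g (nat_lit 853) (.e (nat_lit 1586) (nat_lit 111) (.e (nat_lit 360475) (nat_lit 8) (.e (nat_lit 557067) (nat_lit 9) .nil))) .nil)) 
(.lf (nat_lit 63166) (.g (nat_lit 1030) (.e (nat_lit 1586) (nat_lit 111) (.e (nat_lit 360475) (nat_lit 8) (.e (nat_lit 557087) (nat_lit 11) (.e (nat_lit 24625) (nat_lit 9) .nil)))) .nil))))))) (.nd (nat_lit 1) (.nd (nat_lit 2) (.nd (nat_lit 3) (.nd (nat_lit 4) (.nd (nat_lit 5) 
(.lf (nat_lit 63105) (.g (nat_lit 2337) (.e (nat_lit 1586) (nat_lit 111) (.e (nat_lit 360474) (nat_lit 8) (.e (nat_lit 557093) (nat_lit 12) (.e (nat_lit 164023) (nat_lit 46) (.e (nat_lit 704737) (nat_lit 11) .nil))))) .nil)) 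
(.lf (nat_lit 63137) (.g (nat_lit 3562) (.e (nat_lit 1586) (nat_lit 111) (.e (nat_lit 360475) (nat_lit 8) (.e (nat_lit 557068) (nat_lit 9) (.e (nat_lit 251) (nat_lit 21) (.e (nat_lit 336165) (nat_lit 10) (.e (nat_lit 344126) (nat_lit 25) (.e (nat_lit 548874) (nat_lit 5) .nil))))))) (.g (nat_lit 7) .nil .nil)))) (.nd (nat_lit 5) 
(.lf (nat_lit 63121) (.g (nat_lit 3883) (.e (nat_lit 1586) (nat_lit 111) (.e (nat_lit 360474) (nat_lit 8) (.e (nat_lit 557094) (nat_lit 12) (.e (nat_lit 164022) (nat_lit 46) (.e (nat_lit 704738) (nat_lit 11) (.e (nat_lit 16412) (nat_lit 2) (.e (nat_lit 196626) (nat_lit 9) .nil))))))) (.g (nat_lit 6) .nil .nil))) 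
(.lf (nat_lit 63153) (.g (nat_lit 4351) (.e (nat_lit 1586) (nat_lit 111) (.e (nat_lit 360475) (nat_lit 8) (.e (nat_lit 557086) (nat_lit 11) (.e (nat_lit 24640) (nat_lit 10) (.e (nat_lit 344126) (nat_lit 25) (.e (nat_lit 548874) (nat_lit 5) .nil)))))) (.g (nat_lit 5) .nil .nil))))) (.nd (nat_lit 4) (.nd (nat_lit 5) 
(.lf (nat_lit 63113) (.g (nat_lit 1978) (.e (nat_lit 1586) (nat_lit 111) (.e (nat_lit 360474) (nat_lit 8) (.e (nat_lit 557094) (nat_lit 12) (.e (nat_lit 164022) (nat_lit 46) (.e (nat_lit 704738) (nat_lit 11) (.e (nat_lit 16397) (nat_lit 0) (.e (nat_lit 3124) (nat_lit 193) (.e (nat_lit 499958) (nat_lit 14) .nil)))))))) (.g (nat_lit 4) .nil .nil))) 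
(.lf (nat_lit 63145) (.g (nat_lit 5029) (.e (nat_lit 1586) (nat_lit 111) (.e (nat_lit 360475) (nat_lit 8) (.e (nat_lit 557085) (nat_lit 11) (.e (nat_lit 24640) (nat_lit 10) (.e (nat_lit 344126) (nat_lit 25) (.e (nat_lit 548872) (nat_lit 5) .nil)))))) (.g (nat_lit 5) .nil .nil)))) (.nd (nat_lit 5) 
(.lf (nat_lit 63129) (.g (nat_lit 3077) (.e (nat_lit 1586) (nat_lit 111) (.e (nat_lit 360475) (nat_lit 8) (.e (nat_lit 557066) (nat_lit 9) (.e (nat_lit 232) (nat_lit 21) (.e (nat_lit 336175) (nat_lit 10) .nil))))) .nil)) 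
(.lf (nat_lit 63161) (.g (nat_lit 3795) (.e (nat_lit 1586) (nat_lit 111) (.e (nat_lit 360475) (nat_lit 8) (.e (nat_lit 557086) (nat_lit 11) (.e (nat_lit 24665) (nat_lit 14) (.e (nat_lit 401414) (nat_lit 0) (.e (nat_lit 3124) (nat_lit 193) (.e (nat_lit 499968) (nat_lit 14) .nil))))))) (.g (nat_lit 4) .nil .nil)))))) (.nd (nat_lit 3) (.nd (nat_lit 4) (.nd (nat_lit 5) 
(.lf (nat_lit 63109) (.g (nat_lit 2152) (.e (nat_lit 1586) (nat_lit 111) (.e (nat_lit 360474) (nat_lit 8) (.e (nat_lit 557094) (nat_lit 12) (.e (nat_lit 164022) (nat_lit 46) (.e (nat_lit 704737) (nat_lit 11) (.e (nat_lit 16411) (nat_lit 2) (.e (nat_lit 196623) (nat_lit 9) .nil))))))) (.g (nat_lit 4) .nil .nil))) 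
(.lf (nat_lit 63141) (.g (nat_lit 950) (.e (nat_lit 1586) (nat_lit 111) (.e (nat_lit 360475) (nat_lit 8) (.e (nat_lit 557076) (nat_lit 9) .nil))) .nil))) (.nd (nat_lit 5) 
(.lf (nat_lit 63125) (.g (nat_lit 465) (.e (nat_lit 1586) (nat_lit 111) (.e (nat_lit 360474) (nat_lit 8) (.e (nat_lit 557118) (nat_lit 18) .nil))) .nil)) 
(.lf (nat_lit 63157) (.g (nat_lit 3721) (.e (nat_lit 1586) (nat_lit 111) (.e (nat_lit 360475) (nat_lit 8) (.e (nat_lit 557086) (nat_lit 11) (.e (nat_lit 24665) (nat_lit 14) (.e (nat_lit 401414) (nat_lit 0) (.e (nat_lit 3124) (nat_lit 193) (.e (nat_lit 499952) (nat_lit 14) .nil))))))) (.g (nat_lit 4) .nil .nil))))) (.nd (nat_lit 4) (.nd (nat_lit 5) 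
(.lf (nat_lit 63117) (.g (nat_lit 1867) (.e (nat_lit 1586) (nat_lit 111) (.e (nat_lit 360474) (nat_lit 8) (.e (nat_lit 557094) (nat_lit 12) (.e (nat_lit 164022) (nat_lit 46) (.e (nat_lit 704738) (nat_lit 11) (.e (nat_lit 16410) (nat_lit 2) (.e (nat_lit 196626) (nat_lit 9) .nil))))))) (.g (nat_lit 4) .nil .nil))) 
(.lf (nat_lit 63149) (.g (nat_lit 2393) (.e (nat_lit 1586) (nat_lit 111) (.e (nat_lit 360475) (nat_lit 8) (.e (nat_lit 557086) (nat_lit 11) (.e (nat_lit 24631) (nat_lit 9) (.e (nat_lit 335928) (nat_lit 0) .nil))))) .nil))) (.nd (nat_lit 5) 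
(.lf (nat_lit 63133) (.g (nat_lit 2391) (.e (nat_lit 1586) (nat_lit 111) (.e (nat_lit 360475) (nat_lit 8) (.e (nat_lit 557066) (nat_lit 9) (.e (nat_lit 314) (nat_lit 23) (.e (nat_lit 352303) (nat_lit 20) (.e (nat_lit 1842) (nat_lit 123) (.e (nat_lit 548874) (nat_lit 5) .nil))))))) (.g (nat_lit 4) .nil .nil))) 
(.lf (nat_lit 63165) (.g (nat_lit 1834) (.e (nat_lit 1586) (nat_lit 111) (.e (nat_lit 360475) (nat_lit 8) (.e (nat_lit 557087) (nat_lit 11) (.e (nat_lit 24623) (nat_lit 9) .nil)))) .nil)))))) (.nd (nat_lit 2) (.nd (nat_lit 3) (.nd (nat_lit 4) (.nd (nat_lit 5) 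
(.lf (nat_lit 63107) (.g (nat_lit 1607) (.e (nat_lit 1586) (nat_lit 111) (.e (nat_lit 360474) (nat_lit 8) (.e (nat_lit 557094) (nat_lit 12) (.e (nat_lit 164022) (nat_lit 46) (.e (nat_lit 704736) (nat_lit 11) .nil))))) .nil)) 
(.lf (nat_lit 63139) (.g (nat_lit 1402) (.e (nat_lit 1586) (nat_lit 111) (.e (nat_lit 360475) (nat_lit 8) (.e (nat_lit 557068) (nat_lit 9) (.e (nat_lit 290) (nat_lit 21) (.e (nat_lit 336174) (nat_lit 10) .nil))))) .nil))) (.nd (nat_lit 5) 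
(.lf (nat_lit 63123) (.g (nat_lit 1274) (.e (nat_lit 1586) (nat_lit 111) (.e (nat_lit 360474) (nat_lit 8) (.e (nat_lit 557115) (nat_lit 18) .nil))) .nil)) 
(.lf (nat_lit 63155) (.g (nat_lit 3680) (.e (nat_lit 1586) (nat_lit 111) (.e (nat_lit 360475) (nat_lit 8) (.e (nat_lit 557086) (nat_lit 11) (.e (nat_lit 24641) (nat_lit 10) (.e (nat_lit 344126) (nat_lit 25) (.e (nat_lit 548874) (nat_lit 5) .nil)))))) (.g (nat_lit 5) .nil .nil))))) (.nd (nat_lit 4) (.nd (nat_lit 5) 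
(.lf (nat_lit 63115) (.g (nat_lit 1918) (.e (nat_lit 1586) (nat_lit 111) (.e (nat_lit 360474) (nat_lit 8) (.e (nat_lit 557094) (nat_lit 12) (.e (nat_lit 164022) (nat_lit 46) (.e (nat_lit 704738) (nat_lit 11) (.e (nat_lit 16397) (nat_lit 0) (.e (nat_lit 3124) (nat_lit 193) (.e (nat_lit 499962) (nat_lit 14) .nil)))))))) (.g (nat_lit 4) .nil .nil))) 
(.lf (nat_lit 63147) (.g (nat_lit 5049) (.e (nat_lit 1586) (nat_lit 111) (.e (nat_lit 360475) (nat_lit 8) (.e (nat_lit 557085) (nat_lit 11) (.e (nat_lit 24640) (nat_lit 10) (.e (nat_lit 344126) (nat_lit 25) (.e (nat_lit 548874) (nat_lit 5) .nil)))))) (.g (nat_lit 5) .nil .nil)))) (.nd (nat_lit 5) 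
(.lf (nat_lit 63131) (.g (nat_lit 1965) (.e (nat_lit 1586) (nat_lit 111) (.e (nat_lit 360475) (nat_lit 8) (.e (nat_lit 557066) (nat_lit 9) (.e (nat_lit 314) (nat_lit 23) (.e (nat_lit 352291) (nat_lit 20) .nil))))) .nil)) 
(.lf (nat_lit 63163) (.g (nat_lit 2217) (.e (nat_lit 1586) (nat_lit 111) (.e (nat_lit 360475) (nat_lit 8) (.e (nat_lit 557087) (nat_lit 11) (.e (nat_lit 24616) (nat_lit 7) (.e (nat_lit 319519) (nat_lit 12) (.e (nat_lit 32774) (nat_lit 5) .nil)))))) (.g (nat_lit 4) .nil .nil)))))) (.nd (nat_lit 3) (.nd (nat_lit 4) (.nd (nat_lit 5) 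
(.lf (nat_lit 63111) (.g (nat_lit 1494) (.e (nat_lit 1586) (nat_lit 111) (.e (nat_lit 360474) (nat_lit 8) (.e (nat_lit 557094) (nat_lit 12) (.e (nat_lit 164022) (nat_lit 46) (.e (nat_lit 704738) (nat_lit 11) .nil))))) .nil)) 
(.lf (nat_lit 63143) (.g (nat_lit 500) (.e (nat_lit 1586) (nat_lit 111) (.e (nat_lit 360475) (nat_lit 8) (.e (nat_lit 564992) (nat_lit 9) .nil))) .nil))) (.nd (nat_lit 5) 
(.lf (nat_lit 63127) (.g (nat_lit 3571) (.e (nat_lit 1586) (nat_lit 111) (.e (nat_lit 360475) (nat_lit 8) (.e (nat_lit 557065) (nat_lit 9) (.e (nat_lit 324) (nat_lit 24) (.e (nat_lit 360471) (nat_lit 7) (.e (nat_lit 548873) (nat_lit 5) .nil)))))) (.g (nat_lit 5) .nil .nil))) 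
(.lf (nat_lit 63159) (.g (nat_lit 3603) (.e (nat_lit 1586) (nat_lit 111) (.e (nat_lit 360475) (nat_lit 8) (.e (nat_lit 557086) (nat_lit 11) (.e (nat_lit 24665) (nat_lit 14) (.e (nat_lit 401414) (nat_lit 0) (.e (nat_lit 3124) (nat_lit 193) (.e (nat_lit 499961) (nat_lit 14) .nil))))))) (.g (nat_lit 4) .nil .nil))))) (.nd (nat_lit 4) (.nd (nat_lit 5) 
(.lf (nat_lit 63119) (.g (nat_lit 2562) (.e (nat_lit 1586) (nat_lit 111) (.e (nat_lit 360474) (nat_lit 8) (.e (nat_lit 557094) (nat_lit 12) (.e (nat_lit 164022) (nat_lit 46) (.e (nat_lit 704738) (nat_lit 11) (.e (nat_lit 16411) (nat_lit 2) (.e (nat_lit 196623) (nat_lit 9) .nil))))))) (.g (nat_lit 5) .nil .nil))) 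
(.lf (nat_lit 63151) (.g (nat_lit 4486) (.e (nat_lit 1586) (nat_lit 111) (.e (nat_lit 360475) (nat_lit 8) (.e (nat_lit 557086) (nat_lit 11) (.e (nat_lit 24640) (nat_lit 10) (.e (nat_lit 344126) (nat_lit 25) (.e (nat_lit 548872) (nat_lit 5) .nil)))))) (.g (nat_lit 5) .nil .nil)))) (.nd (nat_lit 5) 
(.lf (nat_lit 63135) (.g (nat_lit 462) (.e (nat_lit 1586) (nat_lit 111) (.e (nat_lit 360475) (nat_lit 8) (.e (nat_lit 557068) (nat_lit 9) .nil))) .nil)) 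
(.lf (nat_lit 63167) (.g (nat_lit 2781) (.e (nat_lit 1586) (nat_lit 111) (.e (nat_lit 360475) (nat_lit 8) (.e (nat_lit 557087) (nat_lit 11) (.e (nat_lit 24625) (nat_lit 9) (.e (nat_lit 335878) (nat_lit 0) (.e (nat_lit 1844) (nat_lit 123) (.e (nat_lit 548873) (nat_lit 5) .nil))))))) (.g (nat_lit 4) .nil .nil)))))))))

noncomputable def tv866 : DT := (.nd (nat_lit 0) (.nd (nat_lit 1) (.nd (nat_lit 2) (.nd (nat_lit 3) (.nd (nat_lit 4) (.nd (nat_lit 5) 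
(.lf (nat_lit 63168) (.g (nat_lit 2639) (.e (nat_lit 1586) (nat_lit 111) (.e (nat_lit 360475) (nat_lit 8) (.e (nat_lit 557087) (nat_lit 11) (.e (nat_lit 24625) (nat_lit 9) (.e (nat_lit 335878) (nat_lit 0) (.e (nat_lit 1844) (nat_lit 123) (.e (nat_lit 548874) (nat_lit 5) .nil))))))) (.g (nat_lit 4) .nil .nil))) 
(.lf (nat_lit 63200) (.g (nat_lit 2836) (.e (nat_lit 1586) (nat_lit 111) (.e (nat_lit 360475) (nat_lit 8) (.e (nat_lit 557087) (nat_lit 11) (.e (nat_lit 24665) (nat_lit 14) (.e (nat_lit 401414) (nat_lit 0) (.e (nat_lit 3124) (nat_lit 193) (.e (nat_lit 499968) (nat_lit 14) .nil))))))) (.g (nat_lit 4) .nil .nil)))) (.nd (nat_lit 5) 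
(.lf (nat_lit 63184) (.g (nat_lit 2949) (.e (nat_lit 1586) (nat_lit 111) (.e (nat_lit 360475) (nat_lit 8) (.e (nat_lit 557087) (nat_lit 11) (.e (nat_lit 24634) (nat_lit 9) (.e (nat_lit 335927) (nat_lit 0) (.e (nat_lit 1842) (nat_lit 123) (.e (nat_lit 548874) (nat_lit 5) .nil))))))) (.g (nat_lit 4) .nil .nil))) 
(.lf (nat_lit 63216) (.g (nat_lit 3668) (.e (nat_lit 1586) (nat_lit 111) (.e (nat_lit 360475) (nat_lit 8) (.e (nat_lit 557090) (nat_lit 12) (.e (nat_lit 164020) (nat_lit 45) (.e (nat_lit 696344) (nat_lit 8) (.e (nat_lit 172064) (nat_lit 2) (.e (nat_lit 196626) (nat_lit 9) .nil))))))) (.g (nat_lit 4) .nil .nil))))) (.nd (nat_lit 4) (.nd (nat_lit 5) 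
(.lf (nat_lit 63176) (.g (nat_lit 3471) (.e (nat_lit 1586) (nat_lit 111) (.e (nat_lit 360475) (nat_lit 8) (.e (nat_lit 557087) (nat_lit 11) (.e (nat_lit 24628) (nat_lit 9) (.e (nat_lit 335878) (nat_lit 0) (.e (nat_lit 1844) (nat_lit 123) (.e (nat_lit 548874) (nat_lit 5) .nil))))))) (.g (nat_lit 5) .nil .nil))) 
(.lf (nat_lit 63208) (.g (nat_lit 5317) (.e (nat_lit 1586) (nat_lit 111) (.e (nat_lit 360475) (nat_lit 8) (.e (nat_lit 557090) (nat_lit 12) (.e (nat_lit 163844) (nat_lit 0) (.e (nat_lit 6068) (nat_lit 328) (.e (nat_lit 57421) (nat_lit 13) (.e (nat_lit 344126) (nat_lit 25) (.e (nat_lit 548874) (nat_lit 5) .nil)))))))) (.g (nat_lit 4) .nil .nil)))) (.nd (nat_lit 5) 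
(.lf (nat_lit 63192) (.g (nat_lit 4876) (.e (nat_lit 1586) (nat_lit 111) (.e (nat_lit 360475) (nat_lit 8) (.e (nat_lit 557087) (nat_lit 11) (.e (nat_lit 24641) (nat_lit 10) (.e (nat_lit 344126) (nat_lit 25) (.e (nat_lit 548874) (nat_lit 5) .nil)))))) (.g (nat_lit 0) .nil .nil))) 
(.lf (nat_lit 63224) (.g (nat_lit 2334) (.e (nat_lit 1586) (nat_lit 111) (.e (nat_lit 360475) (nat_lit 8) (.e (nat_lit 557091) (nat_lit 12) (.e (nat_lit 163841) (nat_lit 0) .nil)))) .nil))))) (.nd (nat_lit 3) (.nd (nat_lit 4) (.nd (nat_lit 5) 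
(.lf (nat_lit 63172) (.g (nat_lit 3203) (.e (nat_lit 1586) (nat_lit 111) (.e (nat_lit 360475) (nat_lit 8) (.e (nat_lit 557087) (nat_lit 11) (.e (nat_lit 24625) (nat_lit 9) (.e (nat_lit 336284) (nat_lit 15) (.e (nat_lit 3302) (nat_lit 202) (.e (nat_lit 573449) (nat_lit 9) .nil))))))) (.g (nat_lit 4) .nil .nil))) 
(.lf (nat_lit 63204) (.g (nat_lit 2315) (.e (nat_lit 1586) (nat_lit 111) (.e (nat_lit 360475) (nat_lit 8) (.e (nat_lit 557089) (nat_lit 12) (.e (nat_lit 163994) (nat_lit 36) .nil)))) .nil))) (.nd (nat_lit 5) 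
(.lf (nat_lit 63188) (.g (nat_lit 4354) (.e (nat_lit 1586) (nat_lit 111) (.e (nat_lit 360475) (nat_lit 8) (.e (nat_lit 557087) (nat_lit 11) (.e (nat_lit 24639) (nat_lit 10) (.e (nat_lit 344126) (nat_lit 25) (.e (nat_lit 548874) (nat_lit 5) .nil)))))) (.g (nat_lit 0) .nil .nil))) 
(.lf (nat_lit 63220) (.g (nat_lit 3946) (.e (nat_lit 1586) (nat_lit 111) (.e (nat_lit 360475) (nat_lit 8) (.e (nat_lit 557090) (nat_lit 12) (.e (nat_lit 164020) (nat_lit 45) (.e (nat_lit 696344) (nat_lit 8) (.e (nat_lit 172073) (nat_lit 5) (.e (nat_lit 245781) (nat_lit 9) .nil))))))) (.g (nat_lit 5) .nil .nil))))) (.nd (nat_lit 4) (.nd (nat_lit 5) 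
(.lf (nat_lit 63180) (.g (nat_lit 2019) (.e (nat_lit 1586) (nat_lit 111) (.e (nat_lit 360475) (nat_lit 8) (.e (nat_lit 557087) (nat_lit 11) (.e (nat_lit 24632) (nat_lit 9) .nil)))) .nil)) 
(.lf (nat_lit 63212) (.g (nat_lit 3642) (.e (nat_lit 1586) (nat_lit 111) (.e (nat_lit 360475) (nat_lit 8) (.e (nat_lit 557090) (nat_lit 12) (.e (nat_lit 164020) (nat_lit 45) (.e (nat_lit 696344) (nat_lit 8) (.e (nat_lit 172042) (nat_lit 0) (.e (nat_lit 3124) (nat_lit 193) (.e (nat_lit 499968) (nat_lit 14) .nil)))))))) (.g (nat_lit 4) .nil .nil)))) (.nd (nat_lit 5) 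
(.lf (nat_lit 63196) (.g (nat_lit 2760) (.e (nat_lit 1586) (nat_lit 111) (.e (nat_lit 360475) (nat_lit 8) (.e (nat_lit 557087) (nat_lit 11) (.e (nat_lit 24665) (nat_lit 14) (.e (nat_lit 401414) (nat_lit 0) (.e (nat_lit 3124) (nat_lit 193) (.e (nat_lit 499952) (nat_lit 14) .nil))))))) (.g (nat_lit 4) .nil .nil))) 
(.lf (nat_lit 63228) (.g (nat_lit 3675) (.e (nat_lit 1586) (nat_lit 111) (.e (nat_lit 360475) (nat_lit 8) (.e (nat_lit 557091) (nat_lit 12) (.e (nat_lit 163843) (nat_lit 0) (.e (nat_lit 6047) (nat_lit 326) (.e (nat_lit 1199) (nat_lit 88) (.e (nat_lit 65546) (nat_lit 0) (.e (nat_lit 1842) (nat_lit 123) (.e (nat_lit 548873) (nat_lit 5) .nil))))))))) (.g (nat_lit 4) .nil .nil))))))) 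
(.nd (nat_lit 2) (.nd (nat_lit 3) (.nd (nat_lit 4) (.nd (nat_lit 5) 
(.lf (nat_lit 63170) (.g (nat_lit 2800) (.e (nat_lit 1586) (nat_lit 111) (.e (nat_lit 360475) (nat_lit 8) (.e (nat_lit 557087) (nat_lit 11) (.e (nat_lit 24625) (nat_lit 9) (.e (nat_lit 336242) (nat_lit 15) (.e (nat_lit 7936) (nat_lit 202) (.e (nat_lit 573449) (nat_lit 9) .nil))))))) (.g (nat_lit 4) .nil .nil))) 
(.lf (nat_lit 63202) (.g (nat_lit 942) (.e (nat_lit 1586) (nat_lit 111) (.e (nat_lit 360475) (nat_lit 8) (.e (nat_lit 557089) (nat_lit 12) .nil))) .nil))) (.nd (nat_lit 5) 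
(.lf (nat_lit 63186) (.g (nat_lit 2970) (.e (nat_lit 1586) (nat_lit 111) (.e (nat_lit 360475) (nat_lit 8) (.e (nat_lit 557087) (nat_lit 11) (.e (nat_lit 24638) (nat_lit 9) (.e (nat_lit 335917) (nat_lit 0) .nil))))) .nil)) 
(.lf (nat_lit 63218) (.g (nat_lit 3343) (.e (nat_lit 1586) (nat_lit 111) (.e (nat_lit 360475) (nat_lit 8) (.e (nat_lit 557090) (nat_lit 12) (.e (nat_lit 164020) (nat_lit 45) (.e (nat_lit 696344) (nat_lit 8) (.e (nat_lit 172071) (nat_lit 5) (.e (nat_lit 245781) (nat_lit 9) .nil))))))) (.g (nat_lit 4) .nil .nil))))) (.nd (nat_lit 4) (.nd (nat_lit 5) 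
(.lf (nat_lit 63178) (.g (nat_lit 3172) (.e (nat_lit 1586) (nat_lit 111) (.e (nat_lit 360475) (nat_lit 8) (.e (nat_lit 557087) (nat_lit 11) (.e (nat_lit 24631) (nat_lit 9) (.e (nat_lit 335925) (nat_lit 0) (.e (nat_lit 1842) (nat_lit 123) (.e (nat_lit 548873) (nat_lit 5) .nil))))))) (.g (nat_lit 5) .nil .nil))) 
(.lf (nat_lit 63210) (.g (nat_lit 3703) (.e (nat_lit 1586) (nat_lit 111) (.e (nat_lit 360475) (nat_lit 8) (.e (nat_lit 557090) (nat_lit 12) (.e (nat_lit 164020) (nat_lit 45) (.e (nat_lit 696344) (nat_lit 8) (.e (nat_lit 172042) (nat_lit 0) (.e (nat_lit 3124) (nat_lit 193) (.e (nat_lit 499958) (nat_lit 14) .nil)))))))) (.g (nat_lit 4) .nil .nil)))) (.nd (nat_lit 5) 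
(.lf (nat_lit 63194) (.g (nat_lit 5446) (.e (nat_lit 1586) (nat_lit 111) (.e (nat_lit 360475) (nat_lit 8) (.e (nat_lit 557087) (nat_lit 11) (.e (nat_lit 24662) (nat_lit 14) (.e (nat_lit 401425) (nat_lit 2) (.e (nat_lit 196630) (nat_lit 9) .nil)))))) (.g (nat_lit 5) .nil .nil))) 
(.lf (nat_lit 63226) (.g (nat_lit 3479) (.e (nat_lit 1586) (nat_lit 111) (.e (nat_lit 360475) (nat_lit 8) (.e (nat_lit 557091) (nat_lit 12) (.e (nat_lit 163843) (nat_lit 0) (.e (nat_lit 5982) (nat_lit 326) (.e (nat_lit 1201) (nat_lit 88) (.e (nat_lit 65546) (nat_lit 0) (.e (nat_lit 1842) (nat_lit 123) (.e (nat_lit 548874) (nat_lit 5) .nil))))))))) (.g (nat_lit 4) .nil .nil)))))) 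
(.nd (nat_lit 3) (.nd (nat_lit 4) (.nd (nat_lit 5) 
(.lf (nat_lit 63174) (.g (nat_lit 2443) (.e (nat_lit 1586) (nat_lit 111) (.e (nat_lit 360475) (nat_lit 8) (.e (nat_lit 557087) (nat_lit 11) (.e (nat_lit 24625) (nat_lit 9) (.e (nat_lit 336340) (nat_lit 21) .nil))))) .nil)) 
(.lf (nat_lit 63206) (.g (nat_lit 1808) (.e (nat_lit 1586) (nat_lit 111) (.e (nat_lit 360475) (nat_lit 8) (.e (nat_lit 557089) (nat_lit 12) (.e (nat_lit 171776) (nat_lit 48) .nil)))) .nil))) (.nd (nat_lit 5) 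
(.lf (nat_lit 63190) (.g (nat_lit 3036) (.e (nat_lit 1586) (nat_lit 111) (.e (nat_lit 360475) (nat_lit 8) (.e (nat_lit 557087) (nat_lit 11) (.e (nat_lit 24640) (nat_lit 10) (.e (nat_lit 344125) (nat_lit 25) .nil))))) .nil)) 
(.lf (nat_lit 63222) (.g (nat_lit 774) (.e (nat_lit 1586) (nat_lit 111) (.e (nat_lit 360475) (nat_lit 8) (.e (nat_lit 557091) (nat_lit 12) .nil))) .nil)))) (.nd (nat_lit 4) (.nd (nat_lit 5) 
(.lf (nat_lit 63182) (.g (nat_lit 2506) (.e (nat_lit 1586) (nat_lit 111) (.e (nat_lit 360475) (nat_lit 8) (.e (nat_lit 557087) (nat_lit 11) (.e (nat_lit 24634) (nat_lit 9) (.e (nat_lit 335916) (nat_lit 0) (.e (nat_lit 1842) (nat_lit 123) (.e (nat_lit 548874) (nat_lit 5) .nil))))))) (.g (nat_lit 4) .nil .nil))) 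
(.lf (nat_lit 63214) (.g (nat_lit 3915) (.e (nat_lit 1586) (nat_lit 111) (.e (nat_lit 360475) (nat_lit 8) (.e (nat_lit 557090) (nat_lit 12) (.e (nat_lit 164020) (nat_lit 45) (.e (nat_lit 696344) (nat_lit 8) (.e (nat_lit 172062) (nat_lit 2) (.e (nat_lit 196630) (nat_lit 9) .nil))))))) (.g (nat_lit 4) .nil .nil)))) (.nd (nat_lit 5) 
(.lf (nat_lit 63198) (.g (nat_lit 2644) (.e (nat_lit 1586) (nat_lit 111) (.e (nat_lit 360475) (nat_lit 8) (.e (nat_lit 557087) (nat_lit 11) (.e (nat_lit 24665) (nat_lit 14) (.e (nat_lit 401414) (nat_lit 0) (.e (nat_lit 3124) (nat_lit 193) (.e (nat_lit 499961) (nat_lit 14) .nil))))))) (.g (nat_lit 4) .nil .nil))) 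
(.lf (nat_lit 63230) (.g (nat_lit 4146) (.e (nat_lit 1586) (nat_lit 111) (.e (nat_lit 360475) (nat_lit 8) (.e (nat_lit 557091) (nat_lit 12) (.e (nat_lit 163843) (nat_lit 0) (.e (nat_lit 6065) (nat_lit 328) (.e (nat_lit 57421) (nat_lit 13) (.e (nat_lit 344126) (nat_lit 25) (.e (nat_lit 548874) (nat_lit 5) .nil)))))))) (.g (nat_lit 5) .nil .nil)))))))) 
(.nd (nat_lit 1) (.nd (nat_lit 2) (.nd (nat_lit 3) (.nd (nat_lit 4) (.nd (nat_lit 5) 
(.lf (nat_lit 63169) (.g (nat_lit 2586) (.e (nat_lit 1586) (nat_lit 111) (.e (nat_lit 360475) (nat_lit 8) (.e (nat_lit 557087) (nat_lit 11) (.e (nat_lit 24625) (nat_lit 9) (.e (nat_lit 335973) (nat_lit 0) (.e (nat_lit 1840) (nat_lit 123) (.e (nat_lit 548874) (nat_lit 5) .nil))))))) (.g (nat_lit 4) .nil .nil))) 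
(.lf (nat_lit 63201) (.g (nat_lit 4142) (.e (nat_lit 1586) (nat_lit 111) (.e (nat_lit 360475) (nat_lit 8) (.e (nat_lit 557087) (nat_lit 11) (.e (nat_lit 24665) (nat_lit 14) (.e (nat_lit 401430) (nat_lit 5) (.e (nat_lit 245781) (nat_lit 9) .nil)))))) (.g (nat_lit 4) .nil .nil)))) (.nd (nat_lit 5) 
(.lf (nat_lit 63185) (.g (nat_lit 1544) (.e (nat_lit 1586) (nat_lit 111) (.e (nat_lit 360475) (nat_lit 8) (.e (nat_lit 557087) (nat_lit 11) (.e (nat_lit 24638) (nat_lit 9) .nil)))) .nil)) 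
(.lf (nat_lit 63217) (.g (nat_lit 4498) (.e (nat_lit 1586) (nat_lit 111) (.e (nat_lit 360475) (nat_lit 8) (.e (nat_lit 557090) (nat_lit 12) (.e (nat_lit 164020) (nat_lit 45) (.e (nat_lit 696344) (nat_lit 8) (.e (nat_lit 172064) (nat_lit 2) (.e (nat_lit 196627) (nat_lit 9) .nil))))))) (.g (nat_lit 5) .nil .nil))))) (.nd (nat_lit 4) (.nd (nat_lit 5) 
(.lf (nat_lit 63177) (.g (nat_lit 2896) (.e (nat_lit 1586) (nat_lit 111) (.e (nat_lit 360475) (nat_lit 8) (.e (nat_lit 557087) (nat_lit 11) (.e (nat_lit 24631) (nat_lit 9) (.e (nat_lit 335886) (nat_lit 0) (.e (nat_lit 1842) (nat_lit 123) (.e (nat_lit 548873) (nat_lit 5) .nil))))))) (.g (nat_lit 4) .nil .nil))) 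
(.lf (nat_lit 63209) (.g (nat_lit 2904) (.e (nat_lit 1586) (nat_lit 111) (.e (nat_lit 360475) (nat_lit 8) (.e (nat_lit 557090) (nat_lit 12) (.e (nat_lit 163993) (nat_lit 36) .nil)))) .nil))) (.nd (nat_lit 5) 
(.lf (nat_lit 63193) (.g (nat_lit 1444) (.e (nat_lit 1586) (nat_lit 111) (.e (nat_lit 360475) (nat_lit 8) (.e (nat_lit 557087) (nat_lit 11) (.e (nat_lit 24648) (nat_lit 12) .nil)))) .nil)) 
(.lf (nat_lit 63225) (.g (nat_lit 2098) (.e (nat_lit 1586) (nat_lit 111) (.e (nat_lit 360475) (nat_lit 8) (.e (nat_lit 557091) (nat_lit 12) (.e (nat_lit 163843) (nat_lit 0) .nil)))) .nil))))) (.nd (nat_lit 3) (.nd (nat_lit 4) (.nd (nat_lit 5) 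
(.lf (nat_lit 63173) (.g (nat_lit 2264) (.e (nat_lit 1586) (nat_lit 111) (.e (nat_lit 360475) (nat_lit 8) (.e (nat_lit 557087) (nat_lit 11) (.e (nat_lit 24625) (nat_lit 9) (.e (nat_lit 336314) (nat_lit 16) .nil))))) .nil)) 
(.lf (nat_lit 63205) (.g (nat_lit 2327) (.e (nat_lit 1586) (nat_lit 111) (.e (nat_lit 360475) (nat_lit 8) (.e (nat_lit 557089) (nat_lit 12) (.e (nat_lit 163995) (nat_lit 36) .nil)))) .nil))) (.nd (nat_lit 5) 
(.lf (nat_lit 63189) (.g (nat_lit 2801) (.e (nat_lit 1586) (nat_lit 111) (.e (nat_lit 360475) (nat_lit 8) (.e (nat_lit 557087) (nat_lit 11) (.e (nat_lit 24640) (nat_lit 10) (.e (nat_lit 344124) (nat_lit 25) .nil))))) .nil)) 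
(.lf (nat_lit 63221) (.g (nat_lit 5585) (.e (nat_lit 1586) (nat_lit 111) (.e (nat_lit 360475) (nat_lit 8) (.e (nat_lit 557090) (nat_lit 12) (.e (nat_lit 164020) (nat_lit 45) (.e (nat_lit 696344) (nat_lit 8) (.e (nat_lit 172138) (nat_lit 15) (.e (nat_lit 7936) (nat_lit 126) (.e (nat_lit 573449) (nat_lit 9) .nil)))))))) (.g (nat_lit 6) .nil .nil))))) (.nd (nat_lit 4) (.nd (nat_lit 5) 
(.lf (nat_lit 63181) (.g (nat_lit 1808) (.e (nat_lit 1586) (nat_lit 111) (.e (nat_lit 360475) (nat_lit 8) (.e (nat_lit 557087) (nat_lit 11) (.e (nat_lit 24633) (nat_lit 9) .nil)))) .nil)) 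
(.lf (nat_lit 63213) (.g (nat_lit 3583) (.e (nat_lit 1586) (nat_lit 111) (.e (nat_lit 360475) (nat_lit 8) (.e (nat_lit 557090) (nat_lit 12) (.e (nat_lit 164020) (nat_lit 45) (.e (nat_lit 696344) (nat_lit 8) (.e (nat_lit 172062) (nat_lit 2) (.e (nat_lit 196627) (nat_lit 9) .nil))))))) (.g (nat_lit 4) .nil .nil)))) (.nd (nat_lit 5) 
(.lf (nat_lit 63197) (.g (nat_lit 2897) (.e (nat_lit 1586) (nat_lit 111) (.e (nat_lit 360475) (nat_lit 8) (.e (nat_lit 557087) (nat_lit 11) (.e (nat_lit 24665) (nat_lit 14) (.e (nat_lit 401414) (nat_lit 0) (.e (nat_lit 3124) (nat_lit 193) (.e (nat_lit 499958) (nat_lit 14) .nil))))))) (.g (nat_lit 4) .nil .nil))) 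
(.lf (nat_lit 63229) (.g (nat_lit 3375) (.e (nat_lit 1586) (nat_lit 111) (.e (nat_lit 360475) (nat_lit 8) (.e (nat_lit 557091) (nat_lit 12) (.e (nat_lit 163843) (nat_lit 0) (.e (nat_lit 6065) (nat_lit 328) (.e (nat_lit 57421) (nat_lit 13) (.e (nat_lit 344126) (nat_lit 25) (.e (nat_lit 548873) (nat_lit 5) .nil)))))))) (.g (nat_lit 4) .nil .nil))))))) 
(.nd (nat_lit 2) (.nd (nat_lit 3) (.nd (nat_lit 4) (.nd (nat_lit 5) 
(.lf (nat_lit 63171) (.g (nat_lit 2440) (.e (nat_lit 1586) (nat_lit 111) (.e (nat_lit 360475) (nat_lit 8) (.e (nat_lit 557087) (nat_lit 11) (.e (nat_lit 24625) (nat_lit 9) (.e (nat_lit 336258) (nat_lit 15) (.e (nat_lit 3309) (nat_lit 202) (.e (nat_lit 573456) (nat_lit 9) .nil))))))) (.g (nat_lit 4) .nil .nil))) 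
(.lf (nat_lit 63203) (.g (nat_lit 4196) (.e (nat_lit 1586) (nat_lit 111) (.e (nat_lit 360475) (nat_lit 8) (.e (nat_lit 557089) (nat_lit 12) (.e (nat_lit 163844) (nat_lit 0) (.e (nat_lit 6065) (nat_lit 328) (.e (nat_lit 57421) (nat_lit 13) (.e (nat_lit 344126) (nat_lit 25) (.e (nat_lit 548873) (nat_lit 5) .nil)))))))) (.g (nat_lit 6) .nil .nil)))) (.nd (nat_lit 5) 
(.lf (nat_lit 63187) (.g (nat_lit 2979) (.e (nat_lit 1586) (nat_lit 111) (.e (nat_lit 360475) (nat_lit 8) (.e (nat_lit 557087) (nat_lit 11) (.e (nat_lit 24638) (nat_lit 9) (.e (nat_lit 335917) (nat_lit 0) (.e (nat_lit 1842) (nat_lit 123) (.e (nat_lit 548874) (nat_lit 5) .nil))))))) (.g (nat_lit 4) .nil .nil))) 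
(.lf (nat_lit 63219) (.g (nat_lit 3457) (.e (nat_lit 1586) (nat_lit 111) (.e (nat_lit 360475) (nat_lit 8) (.e (nat_lit 557090) (nat_lit 12) (.e (nat_lit 164020) (nat_lit 45) (.e (nat_lit 696344) (nat_lit 8) (.e (nat_lit 172072) (nat_lit 5) (.e (nat_lit 245781) (nat_lit 9) .nil))))))) (.g (nat_lit 4) .nil .nil))))) (.nd (nat_lit 4) (.nd (nat_lit 5) 
(.lf (nat_lit 63179) (.g (nat_lit 2398) (.e (nat_lit 1586) (nat_lit 111) (.e (nat_lit 360475) (nat_lit 8) (.e (nat_lit 557087) (nat_lit 11) (.e (nat_lit 24631) (nat_lit 9) (.e (nat_lit 335927) (nat_lit 0) .nil))))) .nil)) 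
(.lf (nat_lit 63211) (.g (nat_lit 3577) (.e (nat_lit 1586) (nat_lit 111) (.e (nat_lit 360475) (nat_lit 8) (.e (nat_lit 557090) (nat_lit 12) (.e (nat_lit 164020) (nat_lit 45) (.e (nat_lit 696344) (nat_lit 8) (.e (nat_lit 172042) (nat_lit 0) (.e (nat_lit 3124) (nat_lit 193) (.e (nat_lit 499962) (nat_lit 14) .nil)))))))) (.g (nat_lit 4) .nil .nil)))) (.nd (nat_lit 5) 
(.lf (nat_lit 63195) (.g (nat_lit 1220) (.e (nat_lit 1586) (nat_lit 111) (.e (nat_lit 360475) (nat_lit 8) (.e (nat_lit 557087) (nat_lit 11) (.e (nat_lit 24665) (nat_lit 14) .nil)))) .nil)) 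
(.lf (nat_lit 63227) (.g (nat_lit 3222) (.e (nat_lit 1586) (nat_lit 111) (.e (nat_lit 360475) (nat_lit 8) (.e (nat_lit 557091) (nat_lit 12) (.e (nat_lit 163843) (nat_lit 0) (.e (nat_lit 5985) (nat_lit 326) .nil))))) .nil))))) (.nd (nat_lit 3) (.nd (nat_lit 4) (.nd (nat_lit 5) 
(.lf (nat_lit 63175) (.g (nat_lit 3613) (.e (nat_lit 1586) (nat_lit 111) (.e (nat_lit 360475) (nat_lit 8) (.e (nat_lit 557087) (nat_lit 11) (.e (nat_lit 24628) (nat_lit 9) (.e (nat_lit 335878) (nat_lit 0) (.e (nat_lit 1844) (nat_lit 123) (.e (nat_lit 548873) (nat_lit 5) .nil))))))) (.g (nat_lit 5) .nil .nil))) 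
(.lf (nat_lit 63207) (.g (nat_lit 5236) (.e (nat_lit 1586) (nat_lit 111) (.e (nat_lit 360475) (nat_lit 8) (.e (nat_lit 557090) (nat_lit 12) (.e (nat_lit 163844) (nat_lit 0) (.e (nat_lit 6065) (nat_lit 328) (.e (nat_lit 57421) (nat_lit 13) (.e (nat_lit 344126) (nat_lit 25) (.e (nat_lit 548874) (nat_lit 5) .nil)))))))) (.g (nat_lit 4) .nil .nil)))) (.nd (nat_lit 5) 
(.lf (nat_lit 63191) (.g (nat_lit 4959) (.e (nat_lit 1586) (nat_lit 111) (.e (nat_lit 360475) (nat_lit 8) (.e (nat_lit 557087) (nat_lit 11) (.e (nat_lit 24640) (nat_lit 10) (.e (nat_lit 344126) (nat_lit 25) (.e (nat_lit 548872) (nat_lit 5) .nil)))))) (.g (nat_lit 6) .nil .nil))) 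
(.lf (nat_lit 63223) (.g (nat_lit 1973) (.e (nat_lit 1586) (nat_lit 111) (.e (nat_lit 360475) (nat_lit 8) (.e (nat_lit 557091) (nat_lit 12) (.e (nat_lit 163840) (nat_lit 0) .nil)))) .nil)))) (.nd (nat_lit 4) (.nd (nat_lit 5) 
(.lf (nat_lit 63183) (.g (nat_lit 2902) (.e (nat_lit 1586) (nat_lit 111) (.e (nat_lit 360475) (nat_lit 8) (.e (nat_lit 557087) (nat_lit 11) (.e (nat_lit 24634) (nat_lit 9) (.e (nat_lit 335925) (nat_lit 0) (.e (nat_lit 1842) (nat_lit 123) (.e (nat_lit 548873) (nat_lit 5) .nil))))))) (.g (nat_lit 4) .nil .nil))) 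
(.lf (nat_lit 63215) (.g (nat_lit 3911) (.e (nat_lit 1586) (nat_lit 111) (.e (nat_lit 360475) (nat_lit 8) (.e (nat_lit 557090) (nat_lit 12) (.e (nat_lit 164020) (nat_lit 45) (.e (nat_lit 696344) (nat_lit 8) (.e (nat_lit 172064) (nat_lit 2) (.e (nat_lit 196623) (nat_lit 9) .nil))))))) (.g (nat_lit 4) .nil .nil)))) (.nd (nat_lit 5) 
(.lf (nat_lit 63199) (.g (nat_lit 2771) (.e (nat_lit 1586) (nat_lit 111) (.e (nat_lit 360475) (nat_lit 8) (.e (nat_lit 557087) (nat_lit 11) (.e (nat_lit 24665) (nat_lit 14) (.e (nat_lit 401414) (nat_lit 0) (.e (nat_lit 3124) (nat_lit 193) (.e (nat_lit 499962) (nat_lit 14) .nil))))))) (.g (nat_lit 4) .nil .nil))) 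
(.lf (nat_lit 63231) (.g (nat_lit 3779) (.e (nat_lit 1586) (nat_lit 111) (.e (nat_lit 360475) (nat_lit 8) (.e (nat_lit 557091) (nat_lit 12) (.e (nat_lit 163843) (nat_lit 0) (.e (nat_lit 6067) (nat_lit 328) (.e (nat_lit 57421) (nat_lit 13) (.e (nat_lit 344126) (nat_lit 25) (.e (nat_lit 548873) (nat_lit 5) .nil)))))))) (.g (nat_lit 4) .nil .nil)))))))))

noncomputable def tv867 : DT := (.nd (nat_lit 0) (.nd (nat_lit 1) (.nd (nat_lit 2) (.nd (nat_lit 3) (.nd (nat_lit 4) (.nd (nat_lit 5) 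
(.lf (nat_lit 63232) (.g (nat_lit 4550) (.e (nat_lit 1586) (nat_lit 111) (.e (nat_lit 360475) (nat_lit 8) (.e (nat_lit 557091) (nat_lit 12) (.e (nat_lit 163843) (nat_lit 0) (.e (nat_lit 6067) (nat_lit 328) (.e (nat_lit 57421) (nat_lit 13) (.e (nat_lit 344126) (nat_lit 25) (.e (nat_lit 548874) (nat_lit 5) .nil)))))))) (.g (nat_lit 6) .nil .nil))) 
(.lf (nat_lit 63264) (.g (nat_lit 3765) (.e (nat_lit 1586) (nat_lit 111) (.e (nat_lit 360475) (nat_lit 8) (.e (nat_lit 557091) (nat_lit 12) (.e (nat_lit 164022) (nat_lit 46) (.e (nat_lit 704738) (nat_lit 11) (.e (nat_lit 16397) (nat_lit 0) (.e (nat_lit 3124) (nat_lit 193) (.e (nat_lit 499952) (nat_lit 14) .nil)))))))) (.g (nat_lit 5) .nil .nil)))) (.nd (nat_lit 5) 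
(.lf (nat_lit 63248) (.g (nat_lit 3240) (.e (nat_lit 1586) (nat_lit 111) (.e (nat_lit 360475) (nat_lit 8) (.e (nat_lit 557091) (nat_lit 12) (.e (nat_lit 164022) (nat_lit 46) (.e (nat_lit 704629) (nat_lit 9) (.e (nat_lit 452) (nat_lit 33) (.e (nat_lit 434219) (nat_lit 19) (.e (nat_lit 499961) (nat_lit 14) .nil)))))))) (.g (nat_lit 4) .nil .nil))) 
(.lf (nat_lit 63280) (.g (nat_lit 3652) (.e (nat_lit 1586) (nat_lit 111) (.e (nat_lit 360475) (nat_lit 8) (.e (nat_lit 557091) (nat_lit 12) (.e (nat_lit 164022) (nat_lit 46) (.e (nat_lit 704738) (nat_lit 11) (.e (nat_lit 16410) (nat_lit 2) (.e (nat_lit 196630) (nat_lit 9) .nil))))))) (.g (nat_lit 5) .nil .nil))))) (.nd (nat_lit 4) (.nd (nat_lit 5) 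
(.lf (nat_lit 63240) (.g (nat_lit 4405) (.e (nat_lit 1586) (nat_lit 111) (.e (nat_lit 360475) (nat_lit 8) (.e (nat_lit 557091) (nat_lit 12) (.e (nat_lit 163999) (nat_lit 38) (.e (nat_lit 639020) (nat_lit 16) (.e (nat_lit 65580) (nat_lit 6) (.e (nat_lit 155392) (nat_lit 0) .nil))))))) (.g (nat_lit 5) .nil .nil))) 
(.lf (nat_lit 63272) (.g (nat_lit 3294) (.e (nat_lit 1586) (nat_lit 111) (.e (nat_lit 360475) (nat_lit 8) (.e (nat_lit 557091) (nat_lit 12) (.e (nat_lit 164022) (nat_lit 46) (.e (nat_lit 704738) (nat_lit 11) (.e (nat_lit 16397) (nat_lit 0) (.e (nat_lit 3146) (nat_lit 193) (.e (nat_lit 499958) (nat_lit 14) .nil)))))))) (.g (nat_lit 4) .nil .nil)))) (.nd (nat_lit 5) 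
(.lf (nat_lit 63256) (.g (nat_lit 2996) (.e (nat_lit 1586) (nat_lit 111) (.e (nat_lit 360475) (nat_lit 8) (.e (nat_lit 557091) (nat_lit 12) (.e (nat_lit 164022) (nat_lit 46) (.e (nat_lit 704737) (nat_lit 11) (.e (nat_lit 16410) (nat_lit 2) (.e (nat_lit 196630) (nat_lit 9) .nil))))))) (.g (nat_lit 4) .nil .nil))) 
(.lf (nat_lit 63288) (.g (nat_lit 5026) (.e (nat_lit 1586) (nat_lit 111) (.e (nat_lit 360475) (nat_lit 8) (.e (nat_lit 557091) (nat_lit 12) (.e (nat_lit 164022) (nat_lit 46) (.e (nat_lit 704738) (nat_lit 11) (.e (nat_lit 16412) (nat_lit 2) (.e (nat_lit 196627) (nat_lit 9) .nil))))))) (.g (nat_lit 7) .nil .nil)))))) (.nd (nat_lit 3) (.nd (nat_lit 4) (.nd (nat_lit 5) 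
(.lf (nat_lit 63236) (.g (nat_lit 3965) (.e (nat_lit 1586) (nat_lit 111) (.e (nat_lit 360475) (nat_lit 8) (.e (nat_lit 557091) (nat_lit 12) (.e (nat_lit 163844) (nat_lit 0) (.e (nat_lit 6068) (nat_lit 328) (.e (nat_lit 57421) (nat_lit 13) (.e (nat_lit 344126) (nat_lit 25) (.e (nat_lit 548873) (nat_lit 5) .nil)))))))) (.g (nat_lit 6) .nil .nil))) 
(.lf (nat_lit 63268) (.g (nat_lit 3839) (.e (nat_lit 1586) (nat_lit 111) (.e (nat_lit 360475) (nat_lit 8) (.e (nat_lit 557091) (nat_lit 12) (.e (nat_lit 164022) (nat_lit 46) (.e (nat_lit 704738) (nat_lit 11) (.e (nat_lit 16397) (nat_lit 0) (.e (nat_lit 3124) (nat_lit 193) (.e (nat_lit 499968) (nat_lit 14) .nil)))))))) (.g (nat_lit 5) .nil .nil)))) (.nd (nat_lit 5) 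
(.lf (nat_lit 63252) (.g (nat_lit 2636) (.e (nat_lit 1586) (nat_lit 111) (.e (nat_lit 360475) (nat_lit 8) (.e (nat_lit 557091) (nat_lit 12) (.e (nat_lit 164022) (nat_lit 46) (.e (nat_lit 704736) (nat_lit 11) (.e (nat_lit 16411) (nat_lit 2) (.e (nat_lit 196623) (nat_lit 9) .nil))))))) (.g (nat_lit 4) .nil .nil))) 
(.lf (nat_lit 63284) (.g (nat_lit 4277) (.e (nat_lit 1586) (nat_lit 111) (.e (nat_lit 360475) (nat_lit 8) (.e (nat_lit 557091) (nat_lit 12) (.e (nat_lit 164022) (nat_lit 46) (.e (nat_lit 704738) (nat_lit 11) (.e (nat_lit 16411) (nat_lit 2) (.e (nat_lit 196627) (nat_lit 9) .nil))))))) (.g (nat_lit 0) .nil .nil))))) (.nd (nat_lit 4) (.nd (nat_lit 5) 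
(.lf (nat_lit 63244) (.g (nat_lit 5050) (.e (nat_lit 1586) (nat_lit 111) (.e (nat_lit 360475) (nat_lit 8) (.e (nat_lit 557091) (nat_lit 12) (.e (nat_lit 164022) (nat_lit 46) (.e (nat_lit 704629) (nat_lit 9) (.e (nat_lit 442) (nat_lit 33) (.e (nat_lit 434222) (nat_lit 19) (.e (nat_lit 499961) (nat_lit 14) .nil)))))))) (.g (nat_lit 5) .nil .nil))) 
(.lf (nat_lit 63276) (.g (nat_lit 2951) (.e (nat_lit 1586) (nat_lit 111) (.e (nat_lit 360475) (nat_lit 8) (.e (nat_lit 557091) (nat_lit 12) (.e (nat_lit 164022) (nat_lit 46) (.e (nat_lit 704738) (nat_lit 11) (.e (nat_lit 16410) (nat_lit 2) (.e (nat_lit 196617) (nat_lit 9) .nil))))))) (.g (nat_lit 4) .nil .nil)))) (.nd (nat_lit 5) 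
(.lf (nat_lit 63260) (.g (nat_lit 3836) (.e (nat_lit 1586) (nat_lit 111) (.e (nat_lit 360475) (nat_lit 8) (.e (nat_lit 557091) (nat_lit 12) (.e (nat_lit 164022) (nat_lit 46) (.e (nat_lit 704737) (nat_lit 11) (.e (nat_lit 16411) (nat_lit 2) (.e (nat_lit 196627) (nat_lit 9) .nil))))))) (.g (nat_lit 6) .nil .nil))) 
(.lf (nat_lit 63292) (.g (nat_lit 1706) (.e (nat_lit 1586) (nat_lit 111) (.e (nat_lit 360475) (nat_lit 8) (.e (nat_lit 557119) (nat_lit 18) (.e (nat_lit 2448) (nat_lit 157) .nil)))) .nil)))))) (.nd (nat_lit 2) (.nd (nat_lit 3) (.nd (nat_lit 4) (.nd (nat_lit 5) 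
(.lf (nat_lit 63234) (.g (nat_lit 2316) (.e (nat_lit 1586) (nat_lit 111) (.e (nat_lit 360475) (nat_lit 8) (.e (nat_lit 557091) (nat_lit 12) (.e (nat_lit 163844) (nat_lit 0) .nil)))) .nil)) 
(.lf (nat_lit 63266) (.g (nat_lit 3647) (.e (nat_lit 1586) (nat_lit 111) (.e (nat_lit 360475) (nat_lit 8) (.e (nat_lit 557091) (nat_lit 12) (.e (nat_lit 164022) (nat_lit 46) (.e (nat_lit 704738) (nat_lit 11) (.e (nat_lit 16397) (nat_lit 0) (.e (nat_lit 3124) (nat_lit 193) (.e (nat_lit 499961) (nat_lit 14) .nil)))))))) (.g (nat_lit 5) .nil .nil)))) (.nd (nat_lit 5) 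
(.lf (nat_lit 63250) (.g (nat_lit 2294) (.e (nat_lit 1586) (nat_lit 111) (.e (nat_lit 360475) (nat_lit 8) (.e (nat_lit 557091) (nat_lit 12) (.e (nat_lit 164022) (nat_lit 46) (.e (nat_lit 704736) (nat_lit 11) .nil))))) .nil)) 
(.lf (nat_lit 63282) (.g (nat_lit 4153) (.e (nat_lit 1586) (nat_lit 111) (.e (nat_lit 360475) (nat_lit 8) (.e (nat_lit 557091) (nat_lit 12) (.e (nat_lit 164022) (nat_lit 46) (.e (nat_lit 704738) (nat_lit 11) (.e (nat_lit 16411) (nat_lit 2) (.e (nat_lit 196623) (nat_lit 9) .nil))))))) (.g (nat_lit 6) .nil .nil))))) (.nd (nat_lit 4) (.nd (nat_lit 5) 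
(.lf (nat_lit 63242) (.g (nat_lit 3154) (.e (nat_lit 1586) (nat_lit 111) (.e (nat_lit 360475) (nat_lit 8) (.e (nat_lit 557091) (nat_lit 12) (.e (nat_lit 164022) (nat_lit 46) (.e (nat_lit 704628) (nat_lit 9) (.e (nat_lit 452) (nat_lit 33) (.e (nat_lit 434219) (nat_lit 19) (.e (nat_lit 499952) (nat_lit 14) .nil)))))))) (.g (nat_lit 4) .nil .nil))) 
(.lf (nat_lit 63274) (.g (nat_lit 3208) (.e (nat_lit 1586) (nat_lit 111) (.e (nat_lit 360475) (nat_lit 8) (.e (nat_lit 557091) (nat_lit 12) (.e (nat_lit 164022) (nat_lit 46) (.e (nat_lit 704738) (nat_lit 11) (.e (nat_lit 16397) (nat_lit 0) (.e (nat_lit 3146) (nat_lit 193) (.e (nat_lit 499962) (nat_lit 14) .nil)))))))) (.g (nat_lit 4) .nil .nil)))) (.nd (nat_lit 5) 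
(.lf (nat_lit 63258) (.g (nat_lit 3678) (.e (nat_lit 1586) (nat_lit 111) (.e (nat_lit 360475) (nat_lit 8) (.e (nat_lit 557091) (nat_lit 12) (.e (nat_lit 164022) (nat_lit 46) (.e (nat_lit 704737) (nat_lit 11) (.e (nat_lit 16411) (nat_lit 2) (.e (nat_lit 196623) (nat_lit 9) .nil))))))) (.g (nat_lit 5) .nil .nil))) 
(.lf (nat_lit 63290) (.g (nat_lit 1708) (.e (nat_lit 1586) (nat_lit 111) (.e (nat_lit 360475) (nat_lit 8) (.e (nat_lit 557091) (nat_lit 12) (.e (nat_lit 171776) (nat_lit 48) .nil)))) .nil))))) (.nd (nat_lit 3) (.nd (nat_lit 4) (.nd (nat_lit 5) 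
(.lf (nat_lit 63238) (.g (nat_lit 2343) (.e (nat_lit 1586) (nat_lit 111) (.e (nat_lit 360475) (nat_lit 8) (.e (nat_lit 557091) (nat_lit 12) (.e (nat_lit 163995) (nat_lit 36) .nil)))) .nil)) 
(.lf (nat_lit 63270) (.g (nat_lit 3013) (.e (nat_lit 1586) (nat_lit 111) (.e (nat_lit 360475) (nat_lit 8) (.e (nat_lit 557091) (nat_lit 12) (.e (nat_lit 164022) (nat_lit 46) (.e (nat_lit 704738) (nat_lit 11) (.e (nat_lit 16397) (nat_lit 0) (.e (nat_lit 3134) (nat_lit 193) (.e (nat_lit 499962) (nat_lit 14) .nil)))))))) (.g (nat_lit 4) .nil .nil)))) (.nd (nat_lit 5) 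
(.lf (nat_lit 63254) (.g (nat_lit 2298) (.e (nat_lit 1586) (nat_lit 111) (.e (nat_lit 360475) (nat_lit 8) (.e (nat_lit 557091) (nat_lit 12) (.e (nat_lit 164022) (nat_lit 46) (.e (nat_lit 704737) (nat_lit 11) .nil))))) .nil)) 
(.lf (nat_lit 63286) (.g (nat_lit 4780) (.e (nat_lit 1586) (nat_lit 111) (.e (nat_lit 360475) (nat_lit 8) (.e (nat_lit 557091) (nat_lit 12) (.e (nat_lit 164022) (nat_lit 46) (.e (nat_lit 704738) (nat_lit 11) (.e (nat_lit 16412) (nat_lit 2) (.e (nat_lit 196623) (nat_lit 9) .nil))))))) (.g (nat_lit 6) .nil .nil))))) (.nd (nat_lit 4) (.nd (nat_lit 5) 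
(.lf (nat_lit 63246) (.g (nat_lit 4212) (.e (nat_lit 1586) (nat_lit 111) (.e (nat_lit 360475) (nat_lit 8) (.e (nat_lit 557091) (nat_lit 12) (.e (nat_lit 164022) (nat_lit 46) (.e (nat_lit 704629) (nat_lit 9) (.e (nat_lit 442) (nat_lit 33) (.e (nat_lit 434222) (nat_lit 19) (.e (nat_lit 499969) (nat_lit 14) .nil)))))))) (.g (nat_lit 5) .nil .nil))) 
(.lf (nat_lit 63278) (.g (nat_lit 3424) (.e (nat_lit 1586) (nat_lit 111) (.e (nat_lit 360475) (nat_lit 8) (.e (nat_lit 557091) (nat_lit 12) (.e (nat_lit 164022) (nat_lit 46) (.e (nat_lit 704738) (nat_lit 11) (.e (nat_lit 16410) (nat_lit 2) (.e (nat_lit 196626) (nat_lit 9) .nil))))))) (.g (nat_lit 5) .nil .nil)))) (.nd (nat_lit 5) 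
(.lf (nat_lit 63262) (.g (nat_lit 2825) (.e (nat_lit 1586) (nat_lit 111) (.e (nat_lit 360475) (nat_lit 8) (.e (nat_lit 557091) (nat_lit 12) (.e (nat_lit 164022) (nat_lit 46) (.e (nat_lit 704737) (nat_lit 11) (.e (nat_lit 16412) (nat_lit 2) (.e (nat_lit 196626) (nat_lit 9) .nil))))))) (.g (nat_lit 4) .nil .nil))) 
(.lf (nat_lit 63294) (.g (nat_lit 2361) (.e (nat_lit 1586) (nat_lit 111) (.e (nat_lit 360475) (nat_lit 8) (.e (nat_lit 557119) (nat_lit 18) (.e (nat_lit 2797) (nat_lit 180) (.e (nat_lit 303140) (nat_lit 10) .nil))))) .nil))))))) (.nd (nat_lit 1) (.nd (nat_lit 2) (.nd (nat_lit 3) (.nd (nat_lit 4) (.nd (nat_lit 5) 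
(.lf (nat_lit 63233) (.g (nat_lit 3967) (.e (nat_lit 1586) (nat_lit 111) (.e (nat_lit 360475) (nat_lit 8) (.e (nat_lit 557091) (nat_lit 12) (.e (nat_lit 163843) (nat_lit 0) (.e (nat_lit 6068) (nat_lit 328) (.e (nat_lit 57421) (nat_lit 13) (.e (nat_lit 344126) (nat_lit 25) (.e (nat_lit 548873) (nat_lit 5) .nil)))))))) (.g (nat_lit 4) .nil .nil))) 
(.lf (nat_lit 63265) (.g (nat_lit 3900) (.e (nat_lit 1586) (nat_lit 111) (.e (nat_lit 360475) (nat_lit 8) (.e (nat_lit 557091) (nat_lit 12) (.e (nat_lit 164022) (nat_lit 46) (.e (nat_lit 704738) (nat_lit 11) (.e (nat_lit 16397) (nat_lit 0) (.e (nat_lit 3124) (nat_lit 193) (.e (nat_lit 499958) (nat_lit 14) .nil)))))))) (.g (nat_lit 5) .nil .nil)))) (.nd (nat_lit 5) 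
(.lf (nat_lit 63249) (.g (nat_lit 3000) (.e (nat_lit 1586) (nat_lit 111) (.e (nat_lit 360475) (nat_lit 8) (.e (nat_lit 557091) (nat_lit 12) (.e (nat_lit 164022) (nat_lit 46) (.e (nat_lit 704629) (nat_lit 9) (.e (nat_lit 452) (nat_lit 33) (.e (nat_lit 434219) (nat_lit 19) (.e (nat_lit 499968) (nat_lit 14) .nil)))))))) (.g (nat_lit 4) .nil .nil))) 
(.lf (nat_lit 63281) (.g (nat_lit 4390) (.e (nat_lit 1586) (nat_lit 111) (.e (nat_lit 360475) (nat_lit 8) (.e (nat_lit 557091) (nat_lit 12) (.e (nat_lit 164022) (nat_lit 46) (.e (nat_lit 704738) (nat_lit 11) (.e (nat_lit 16411) (nat_lit 2) (.e (nat_lit 196617) (nat_lit 9) .nil))))))) (.g (nat_lit 7) .nil .nil))))) (.nd (nat_lit 4) (.nd (nat_lit 5) 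
(.lf (nat_lit 63241) (.g (nat_lit 2210) (.e (nat_lit 1586) (nat_lit 111) (.e (nat_lit 360475) (nat_lit 8) (.e (nat_lit 557091) (nat_lit 12) (.e (nat_lit 164000) (nat_lit 38) .nil)))) .nil)) 
(.lf (nat_lit 63273) (.g (nat_lit 2985) (.e (nat_lit 1586) (nat_lit 111) (.e (nat_lit 360475) (nat_lit 8) (.e (nat_lit 557091) (nat_lit 12) (.e (nat_lit 164022) (nat_lit 46) (.e (nat_lit 704738) (nat_lit 11) (.e (nat_lit 16397) (nat_lit 0) (.e (nat_lit 3146) (nat_lit 193) (.e (nat_lit 499961) (nat_lit 14) .nil)))))))) (.g (nat_lit 4) .nil .nil)))) (.nd (nat_lit 5) 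
(.lf (nat_lit 63257) (.g (nat_lit 3886) (.e (nat_lit 1586) (nat_lit 111) (.e (nat_lit 360475) (nat_lit 8) (.e (nat_lit 557091) (nat_lit 12) (.e (nat_lit 164022) (nat_lit 46) (.e (nat_lit 704737) (nat_lit 11) (.e (nat_lit 16411) (nat_lit 2) (.e (nat_lit 196617) (nat_lit 9) .nil))))))) (.g (nat_lit 6) .nil .nil))) 
(.lf (nat_lit 63289) (.g (nat_lit 5136) (.e (nat_lit 1586) (nat_lit 111) (.e (nat_lit 360475) (nat_lit 8) (.e (nat_lit 557091) (nat_lit 12) (.e (nat_lit 164022) (nat_lit 46) (.e (nat_lit 704738) (nat_lit 11) (.e (nat_lit 16412) (nat_lit 2) (.e (nat_lit 196630) (nat_lit 9) .nil))))))) (.g (nat_lit 6) .nil .nil)))))) (.nd (nat_lit 3) (.nd (nat_lit 4) (.nd (nat_lit 5) 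
(.lf (nat_lit 63237) (.g (nat_lit 2740) (.e (nat_lit 1586) (nat_lit 111) (.e (nat_lit 360475) (nat_lit 8) (.e (nat_lit 557091) (nat_lit 12) (.e (nat_lit 163847) (nat_lit 0) (.e (nat_lit 6065) (nat_lit 328) (.e (nat_lit 57421) (nat_lit 13) (.e (nat_lit 344126) (nat_lit 25) (.e (nat_lit 548874) (nat_lit 5) .nil)))))))) (.g (nat_lit 4) .nil .nil))) 
(.lf (nat_lit 63269) (.g (nat_lit 3231) (.e (nat_lit 1586) (nat_lit 111) (.e (nat_lit 360475) (nat_lit 8) (.e (nat_lit 557091) (nat_lit 12) (.e (nat_lit 164022) (nat_lit 46) (.e (nat_lit 704738) (nat_lit 11) (.e (nat_lit 16397) (nat_lit 0) (.e (nat_lit 3134) (nat_lit 193) (.e (nat_lit 499958) (nat_lit 14) .nil)))))))) (.g (nat_lit 4) .nil .nil)))) (.nd (nat_lit 5) 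
(.lf (nat_lit 63253) (.g (nat_lit 2794) (.e (nat_lit 1586) (nat_lit 111) (.e (nat_lit 360475) (nat_lit 8) (.e (nat_lit 557091) (nat_lit 12) (.e (nat_lit 164022) (nat_lit 46) (.e (nat_lit 704736) (nat_lit 11) (.e (nat_lit 16411) (nat_lit 2) (.e (nat_lit 196627) (nat_lit 9) .nil))))))) (.g (nat_lit 4) .nil .nil))) 
(.lf (nat_lit 63285) (.g (nat_lit 4900) (.e (nat_lit 1586) (nat_lit 111) (.e (nat_lit 360475) (nat_lit 8) (.e (nat_lit 557091) (nat_lit 12) (.e (nat_lit 164022) (nat_lit 46) (.e (nat_lit 704738) (nat_lit 11) (.e (nat_lit 16412) (nat_lit 2) (.e (nat_lit 196617) (nat_lit 9) .nil))))))) (.g (nat_lit 6) .nil .nil))))) (.nd (nat_lit 4) (.nd (nat_lit 5) 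
(.lf (nat_lit 63245) (.g (nat_lit 4829) (.e (nat_lit 1586) (nat_lit 111) (.e (nat_lit 360475) (nat_lit 8) (.e (nat_lit 557091) (nat_lit 12) (.e (nat_lit 164022) (nat_lit 46) (.e (nat_lit 704629) (nat_lit 9) (.e (nat_lit 442) (nat_lit 33) (.e (nat_lit 434222) (nat_lit 19) (.e (nat_lit 499962) (nat_lit 14) .nil)))))))) (.g (nat_lit 5) .nil .nil))) 
(.lf (nat_lit 63277) (.g (nat_lit 2692) (.e (nat_lit 1586) (nat_lit 111) (.e (nat_lit 360475) (nat_lit 8) (.e (nat_lit 557091) (nat_lit 12) (.e (nat_lit 164022) (nat_lit 46) (.e (nat_lit 704738) (nat_lit 11) (.e (nat_lit 16410) (nat_lit 2) (.e (nat_lit 196623) (nat_lit 9) .nil))))))) (.g (nat_lit 4) .nil .nil)))) (.nd (nat_lit 5) 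
(.lf (nat_lit 63261) (.g (nat_lit 2861) (.e (nat_lit 1586) (nat_lit 111) (.e (nat_lit 360475) (nat_lit 8) (.e (nat_lit 557091) (nat_lit 12) (.e (nat_lit 164022) (nat_lit 46) (.e (nat_lit 704737) (nat_lit 11) (.e (nat_lit 16411) (nat_lit 2) (.e (nat_lit 196630) (nat_lit 9) .nil))))))) (.g (nat_lit 4) .nil .nil))) 
(.lf (nat_lit 63293) (.g (nat_lit 1661) (.e (nat_lit 1586) (nat_lit 111) (.e (nat_lit 360475) (nat_lit 8) (.e (nat_lit 557119) (nat_lit 18) (.e (nat_lit 2449) (nat_lit 157) .nil)))) .nil)))))) (.nd (nat_lit 2) (.nd (nat_lit 3) (.nd (nat_lit 4) (.nd (nat_lit 5) 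
(.lf (nat_lit 63235) (.g (nat_lit 3631) (.e (nat_lit 1586) (nat_lit 111) (.e (nat_lit 360475) (nat_lit 8) (.e (nat_lit 557091) (nat_lit 12) (.e (nat_lit 163844) (nat_lit 0) (.e (nat_lit 6067) (nat_lit 328) (.e (nat_lit 57421) (nat_lit 13) (.e (nat_lit 344126) (nat_lit 25) (.e (nat_lit 548874) (nat_lit 5) .nil)))))))) (.g (nat_lit 4) .nil .nil))) 
(.lf (nat_lit 63267) (.g (nat_lit 3774) (.e (nat_lit 1586) (nat_lit 111) (.e (nat_lit 360475) (nat_lit 8) (.e (nat_lit 557091) (nat_lit 12) (.e (nat_lit 164022) (nat_lit 46) (.e (nat_lit 704738) (nat_lit 11) (.e (nat_lit 16397) (nat_lit 0) (.e (nat_lit 3124) (nat_lit 193) (.e (nat_lit 499962) (nat_lit 14) .nil)))))))) (.g (nat_lit 5) .nil .nil)))) (.nd (nat_lit 5) 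
(.lf (nat_lit 63251) (.g (nat_lit 2844) (.e (nat_lit 1586) (nat_lit 111) (.e (nat_lit 360475) (nat_lit 8) (.e (nat_lit 557091) (nat_lit 12) (.e (nat_lit 164022) (nat_lit 46) (.e (nat_lit 704736) (nat_lit 11) (.e (nat_lit 16411) (nat_lit 2) (.e (nat_lit 196617) (nat_lit 9) .nil))))))) (.g (nat_lit 4) .nil .nil))) 
(.lf (nat_lit 63283) (.g (nat_lit 3191) (.e (nat_lit 1586) (nat_lit 111) (.e (nat_lit 360475) (nat_lit 8) (.e (nat_lit 557091) (nat_lit 12) (.e (nat_lit 164022) (nat_lit 46) (.e (nat_lit 704738) (nat_lit 11) (.e (nat_lit 16411) (nat_lit 2) (.e (nat_lit 196626) (nat_lit 9) .nil))))))) (.g (nat_lit 5) .nil .nil))))) (.nd (nat_lit 4) (.nd (nat_lit 5) 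
(.lf (nat_lit 63243) (.g (nat_lit 4800) (.e (nat_lit 1586) (nat_lit 111) (.e (nat_lit 360475) (nat_lit 8) (.e (nat_lit 557091) (nat_lit 12) (.e (nat_lit 164022) (nat_lit 46) (.e (nat_lit 704629) (nat_lit 9) (.e (nat_lit 442) (nat_lit 33) (.e (nat_lit 434222) (nat_lit 19) (.e (nat_lit 499958) (nat_lit 14) .nil)))))))) (.g (nat_lit 5) .nil .nil))) 
(.lf (nat_lit 63275) (.g (nat_lit 3176) (.e (nat_lit 1586) (nat_lit 111) (.e (nat_lit 360475) (nat_lit 8) (.e (nat_lit 557091) (nat_lit 12) (.e (nat_lit 164022) (nat_lit 46) (.e (nat_lit 704738) (nat_lit 11) (.e (nat_lit 16397) (nat_lit 0) (.e (nat_lit 3146) (nat_lit 193) (.e (nat_lit 499968) (nat_lit 14) .nil)))))))) (.g (nat_lit 4) .nil .nil)))) (.nd (nat_lit 5) 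
(.lf (nat_lit 63259) (.g (nat_lit 2663) (.e (nat_lit 1586) (nat_lit 111) (.e (nat_lit 360475) (nat_lit 8) (.e (nat_lit 557091) (nat_lit 12) (.e (nat_lit 164022) (nat_lit 46) (.e (nat_lit 704737) (nat_lit 11) (.e (nat_lit 16411) (nat_lit 2) (.e (nat_lit 196626) (nat_lit 9) .nil))))))) (.g (nat_lit 4) .nil .nil))) 
(.lf (nat_lit 63291) (.g (nat_lit 763) (.e (nat_lit 1586) (nat_lit 111) (.e (nat_lit 360475) (nat_lit 8) (.e (nat_lit 557118) (nat_lit 18) .nil))) .nil))))) (.nd (nat_lit 3) (.nd (nat_lit 4) (.nd (nat_lit 5) 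
(.lf (nat_lit 63239) (.g (nat_lit 2184) (.e (nat_lit 1586) (nat_lit 111) (.e (nat_lit 360475) (nat_lit 8) (.e (nat_lit 557091) (nat_lit 12) (.e (nat_lit 163999) (nat_lit 38) .nil)))) .nil)) 
(.lf (nat_lit 63271) (.g (nat_lit 3315) (.e (nat_lit 1586) (nat_lit 111) (.e (nat_lit 360475) (nat_lit 8) (.e (nat_lit 557091) (nat_lit 12) (.e (nat_lit 164022) (nat_lit 46) (.e (nat_lit 704738) (nat_lit 11) (.e (nat_lit 16397) (nat_lit 0) (.e (nat_lit 3134) (nat_lit 193) (.e (nat_lit 499968) (nat_lit 14) .nil)))))))) (.g (nat_lit 4) .nil .nil)))) (.nd (nat_lit 5) 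
(.lf (nat_lit 63255) (.g (nat_lit 2768) (.e (nat_lit 1586) (nat_lit 111) (.e (nat_lit 360475) (nat_lit 8) (.e (nat_lit 557091) (nat_lit 12) (.e (nat_lit 164022) (nat_lit 46) (.e (nat_lit 704737) (nat_lit 11) (.e (nat_lit 16410) (nat_lit 2) (.e (nat_lit 196626) (nat_lit 9) .nil))))))) (.g (nat_lit 4) .nil .nil))) 
(.lf (nat_lit 63287) (.g (nat_lit 5407) (.e (nat_lit 1586) (nat_lit 111) (.e (nat_lit 360475) (nat_lit 8) (.e (nat_lit 557091) (nat_lit 12) (.e (nat_lit 164022) (nat_lit 46) (.e (nat_lit 704738) (nat_lit 11) (.e (nat_lit 16412) (nat_lit 2) (.e (nat_lit 196626) (nat_lit 9) .nil))))))) (.g (nat_lit 7) .nil .nil))))) (.nd (nat_lit 4) (.nd (nat_lit 5) 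
(.lf (nat_lit 63247) (.g (nat_lit 4465) (.e (nat_lit 1586) (nat_lit 111) (.e (nat_lit 360475) (nat_lit 8) (.e (nat_lit 557091) (nat_lit 12) (.e (nat_lit 164022) (nat_lit 46) (.e (nat_lit 704629) (nat_lit 9) (.e (nat_lit 452) (nat_lit 33) (.e (nat_lit 434219) (nat_lit 19) (.e (nat_lit 499952) (nat_lit 14) .nil)))))))) (.g (nat_lit 6) .nil .nil))) 
(.lf (nat_lit 63279) (.g (nat_lit 3168) (.e (nat_lit 1586) (nat_lit 111) (.e (nat_lit 360475) (nat_lit 8) (.e (nat_lit 557091) (nat_lit 12) (.e (nat_lit 164022) (nat_lit 46) (.e (nat_lit 704738) (nat_lit 11) (.e (nat_lit 16410) (nat_lit 2) (.e (nat_lit 196627) (nat_lit 9) .nil))))))) (.g (nat_lit 5) .nil .nil)))) (.nd (nat_lit 5) 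
(.lf (nat_lit 63263) (.g (nat_lit 2201) (.e (nat_lit 1586) (nat_lit 111) (.e (nat_lit 360475) (nat_lit 8) (.e (nat_lit 557091) (nat_lit 12) (.e (nat_lit 164022) (nat_lit 46) (.e (nat_lit 704738) (nat_lit 11) .nil))))) .nil)) 
(.lf (nat_lit 63295) (.g (nat_lit 1906) (.e (nat_lit 1586) (nat_lit 111) (.e (nat_lit 360475) (nat_lit 8) (.e (nat_lit 557119) (nat_lit 18) (.e (nat_lit 2798) (nat_lit 180) (.e (nat_lit 303133) (nat_lit 9) .nil))))) .nil))))))))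

noncomputable def tv868 : DT := (.nd (nat_lit 0) (.nd (nat_lit 1) (.nd (nat_lit 2) (.nd (nat_lit 3) (.nd (nat_lit 4) (.nd (nat_lit 5) 
(.lf (nat_lit 63296) (.g (nat_lit 3685) (.e (nat_lit 1586) (nat_lit 111) (.e (nat_lit 360475) (nat_lit 8) (.e (nat_lit 557119) (nat_lit 18) (.e (nat_lit 2798) (nat_lit 180) (.e (nat_lit 303133) (nat_lit 9) (.e (nat_lit 426003) (nat_lit 0) (.e (nat_lit 3579) (nat_lit 223) (.e (nat_lit 745475) (nat_lit 0) .nil)))))))) (.g (nat_lit 5) .nil .nil))) 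
(.lf (nat_lit 63328) (.g (nat_lit 1857) (.e (nat_lit 1586) (nat_lit 111) (.e (nat_lit 360477) (nat_lit 11) (.e (nat_lit 581651) (nat_lit 4) (.e (nat_lit 172116) (nat_lit 10) (.e (nat_lit 434295) (nat_lit 49) (.e (nat_lit 745475) (nat_lit 0) .nil)))))) (.g (nat_lit 5) .nil .nil)))) (.nd (nat_lit 5) 
(.lf (nat_lit 63312) (.g (nat_lit 4230) (.e (nat_lit 1586) (nat_lit 111) (.e (nat_lit 360475) (nat_lit 8) (.e (nat_lit 557119) (nat_lit 18) (.e (nat_lit 2808) (nat_lit 180) (.e (nat_lit 303140) (nat_lit 10) (.e (nat_lit 434295) (nat_lit 49) (.e (nat_lit 745474) (nat_lit 0) .nil))))))) (.g (nat_lit 6) .nil .nil))) 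
(.lf (nat_lit 63344) (.g (nat_lit 1359) (.e (nat_lit 1586) (nat_lit 111) (.e (nat_lit 360480) (nat_lit 14) (.e (nat_lit 638998) (nat_lit 8) (.e (nat_lit 172107) (nat_lit 10) (.e (nat_lit 434269) (nat_lit 36) (.e (nat_lit 639008) (nat_lit 13) .nil)))))) (.g (nat_lit 4) .nil .nil))))) (.nd (nat_lit 4) (.nd (nat_lit 5) 
(.lf (nat_lit 63304) (.g (nat_lit 3159) (.e (nat_lit 1586) (nat_lit 111) (.e (nat_lit 360475) (nat_lit 8) (.e (nat_lit 557119) (nat_lit 18) (.e (nat_lit 2798) (nat_lit 180) (.e (nat_lit 303139) (nat_lit 10) (.e (nat_lit 434295) (nat_lit 49) (.e (nat_lit 745475) (nat_lit 0) .nil))))))) (.g (nat_lit 4) .nil .nil))) 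
(.lf (nat_lit 63336) (.g (nat_lit 1619) (.e (nat_lit 1586) (nat_lit 111) (.e (nat_lit 360477) (nat_lit 11) (.e (nat_lit 589568) (nat_lit 6) (.e (nat_lit 188434) (nat_lit 20) (.e (nat_lit 3578) (nat_lit 223) (.e (nat_lit 745475) (nat_lit 0) .nil)))))) (.g (nat_lit 4) .nil .nil)))) (.nd (nat_lit 5) 
(.lf (nat_lit 63320) (.g (nat_lit 1672) (.e (nat_lit 1586) (nat_lit 111) (.e (nat_lit 360477) (nat_lit 11) (.e (nat_lit 581651) (nat_lit 4) (.e (nat_lit 172106) (nat_lit 10) (.e (nat_lit 434295) (nat_lit 49) (.e (nat_lit 745474) (nat_lit 0) .nil)))))) (.g (nat_lit 4) .nil .nil))) 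
(.lf (nat_lit 63352) (.g (nat_lit 1649) (.e (nat_lit 1586) (nat_lit 111) (.e (nat_lit 360480) (nat_lit 14) (.e (nat_lit 638998) (nat_lit 8) (.e (nat_lit 172116) (nat_lit 10) (.e (nat_lit 434269) (nat_lit 36) (.e (nat_lit 639008) (nat_lit 13) .nil)))))) (.g (nat_lit 5) .nil .nil)))))) (.nd (nat_lit 3) (.nd (nat_lit 4) (.nd (nat_lit 5) 
(.lf (nat_lit 63300) (.g (nat_lit 3063) (.e (nat_lit 1586) (nat_lit 111) (.e (nat_lit 360475) (nat_lit 8) (.e (nat_lit 557119) (nat_lit 18) (.e (nat_lit 2798) (nat_lit 180) (.e (nat_lit 303133) (nat_lit 9) (.e (nat_lit 426043) (nat_lit 0) (.e (nat_lit 3577) (nat_lit 223) (.e (nat_lit 745475) (nat_lit 0) .nil)))))))) (.g (nat_lit 4) .nil .nil))) 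
(.lf (nat_lit 63332) (.g (nat_lit 2504) (.e (nat_lit 1586) (nat_lit 111) (.e (nat_lit 360477) (nat_lit 11) (.e (nat_lit 581653) (nat_lit 6) (.e (nat_lit 188438) (nat_lit 20) (.e (nat_lit 3579) (nat_lit 223) (.e (nat_lit 745475) (nat_lit 0) .nil)))))) (.g (nat_lit 0) .nil .nil)))) (.nd (nat_lit 5) 
(.lf (nat_lit 63316) (.g (nat_lit 1459) (.e (nat_lit 1586) (nat_lit 111) (.e (nat_lit 360477) (nat_lit 11) (.e (nat_lit 581636) (nat_lit 0) (.e (nat_lit 3022) (nat_lit 187) (.e (nat_lit 450605) (nat_lit 27) (.e (nat_lit 745474) (nat_lit 0) .nil)))))) (.g (nat_lit 4) .nil .nil))) 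
(.lf (nat_lit 63348) (.g (nat_lit 1796) (.e (nat_lit 1586) (nat_lit 111) (.e (nat_lit 360480) (nat_lit 14) (.e (nat_lit 638998) (nat_lit 8) (.e (nat_lit 172113) (nat_lit 10) (.e (nat_lit 434269) (nat_lit 36) (.e (nat_lit 639008) (nat_lit 13) .nil)))))) (.g (nat_lit 4) .nil .nil))))) (.nd (nat_lit 4) (.nd (nat_lit 5) 
(.lf (nat_lit 63308) (.g (nat_lit 2958) (.e (nat_lit 1586) (nat_lit 111) (.e (nat_lit 360475) (nat_lit 8) (.e (nat_lit 557119) (nat_lit 18) (.e (nat_lit 2798) (nat_lit 180) (.e (nat_lit 303143) (nat_lit 12) (.e (nat_lit 475190) (nat_lit 35) (.e (nat_lit 606211) (nat_lit 0) .nil))))))) (.g (nat_lit 4) .nil .nil))) 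
(.lf (nat_lit 63340) (.g (nat_lit 1439) (.e (nat_lit 1586) (nat_lit 111) (.e (nat_lit 360480) (nat_lit 14) (.e (nat_lit 638997) (nat_lit 8) (.e (nat_lit 172115) (nat_lit 10) (.e (nat_lit 434269) (nat_lit 36) (.e (nat_lit 639007) (nat_lit 13) .nil)))))) (.g (nat_lit 5) .nil .nil)))) (.nd (nat_lit 5) 
(.lf (nat_lit 63324) (.g (nat_lit 2066) (.e (nat_lit 1586) (nat_lit 111) (.e (nat_lit 360477) (nat_lit 11) (.e (nat_lit 581651) (nat_lit 4) (.e (nat_lit 172113) (nat_lit 10) (.e (nat_lit 434295) (nat_lit 49) (.e (nat_lit 745475) (nat_lit 0) .nil)))))) (.g (nat_lit 5) .nil .nil))) 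
(.lf (nat_lit 63356) (.g (nat_lit 1357) (.e (nat_lit 1586) (nat_lit 111) (.e (nat_lit 360480) (nat_lit 14) (.e (nat_lit 639001) (nat_lit 10) (.e (nat_lit 188440) (nat_lit 20) (.e (nat_lit 3390) (nat_lit 210) (.e (nat_lit 639007) (nat_lit 13) .nil)))))) (.g (nat_lit 0) .nil .nil))))))) (.nd (nat_lit 2) (.nd (nat_lit 3) (.nd (nat_lit 4) (.nd (nat_lit 5) 
(.lf (nat_lit 63298) (.g (nat_lit 3415) (.e (nat_lit 1586) (nat_lit 111) (.e (nat_lit 360475) (nat_lit 8) (.e (nat_lit 557119) (nat_lit 18) (.e (nat_lit 2798) (nat_lit 180) (.e (nat_lit 303133) (nat_lit 9) (.e (nat_lit 426034) (nat_lit 0) (.e (nat_lit 3579) (nat_lit 223) (.e (nat_lit 745475) (nat_lit 0) .nil)))))))) (.g (nat_lit 5) .nil .nil))) 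
(.lf (nat_lit 63330) (.g (nat_lit 1762) (.e (nat_lit 1586) (nat_lit 111) (.e (nat_lit 360477) (nat_lit 11) (.e (nat_lit 581653) (nat_lit 6) (.e (nat_lit 188434) (nat_lit 20) (.e (nat_lit 3578) (nat_lit 223) (.e (nat_lit 745474) (nat_lit 0) .nil)))))) (.g (nat_lit 4) .nil .nil)))) (.nd (nat_lit 5) 
(.lf (nat_lit 63314) (.g (nat_lit 1513) (.e (nat_lit 1586) (nat_lit 111) (.e (nat_lit 360477) (nat_lit 11) (.e (nat_lit 581636) (nat_lit 0) (.e (nat_lit 3015) (nat_lit 187) (.e (nat_lit 450605) (nat_lit 27) (.e (nat_lit 745474) (nat_lit 0) .nil)))))) (.g (nat_lit 4) .nil .nil))) 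
(.lf (nat_lit 63346) (.g (nat_lit 1547) (.e (nat_lit 1586) (nat_lit 111) (.e (nat_lit 360480) (nat_lit 14) (.e (nat_lit 638998) (nat_lit 8) (.e (nat_lit 172112) (nat_lit 10) (.e (nat_lit 434269) (nat_lit 36) (.e (nat_lit 639008) (nat_lit 13) .nil)))))) (.g (nat_lit 5) .nil .nil))))) (.nd (nat_lit 4) (.nd (nat_lit 5) 
(.lf (nat_lit 63306) (.g (nat_lit 3263) (.e (nat_lit 1586) (nat_lit 111) (.e (nat_lit 360475) (nat_lit 8) (.e (nat_lit 557119) (nat_lit 18) (.e (nat_lit 2798) (nat_lit 180) (.e (nat_lit 303143) (nat_lit 12) (.e (nat_lit 475157) (nat_lit 21) (.e (nat_lit 4584) (nat_lit 269) (.e (nat_lit 1011) (nat_lit 81) .nil)))))))) (.g (nat_lit 4) .nil .nil))) 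
(.lf (nat_lit 63338) (.g (nat_lit 1494) (.e (nat_lit 1586) (nat_lit 111) (.e (nat_lit 368384) (nat_lit 11) (.e (nat_lit 581653) (nat_lit 6) (.e (nat_lit 188440) (nat_lit 20) (.e (nat_lit 3578) (nat_lit 223) (.e (nat_lit 745475) (nat_lit 0) .nil)))))) (.g (nat_lit 5) .nil .nil)))) (.nd (nat_lit 5) 
(.lf (nat_lit 63322) (.g (nat_lit 1828) (.e (nat_lit 1586) (nat_lit 111) (.e (nat_lit 360477) (nat_lit 11) (.e (nat_lit 581651) (nat_lit 4) (.e (nat_lit 172107) (nat_lit 10) (.e (nat_lit 434295) (nat_lit 49) (.e (nat_lit 745475) (nat_lit 0) .nil)))))) (.g (nat_lit 5) .nil .nil))) 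
(.lf (nat_lit 63354) (.g (nat_lit 1454) (.e (nat_lit 1586) (nat_lit 111) (.e (nat_lit 360480) (nat_lit 14) (.e (nat_lit 639001) (nat_lit 10) (.e (nat_lit 188434) (nat_lit 20) (.e (nat_lit 3390) (nat_lit 210) (.e (nat_lit 639007) (nat_lit 13) .nil)))))) (.g (nat_lit 0) .nil .nil)))))) (.nd (nat_lit 3) (.nd (nat_lit 4) (.nd (nat_lit 5) 
(.lf (nat_lit 63302) (.g (nat_lit 4131) (.e (nat_lit 1586) (nat_lit 111) (.e (nat_lit 360475) (nat_lit 8) (.e (nat_lit 557119) (nat_lit 18) (.e (nat_lit 2798) (nat_lit 180) (.e (nat_lit 303133) (nat_lit 9) (.e (nat_lit 426043) (nat_lit 0) (.e (nat_lit 3578) (nat_lit 223) (.e (nat_lit 745475) (nat_lit 0) .nil)))))))) (.g (nat_lit 8) .nil .nil))) 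
(.lf (nat_lit 63334) (.g (nat_lit 1535) (.e (nat_lit 1586) (nat_lit 111) (.e (nat_lit 360477) (nat_lit 11) (.e (nat_lit 581653) (nat_lit 6) (.e (nat_lit 188440) (nat_lit 20) (.e (nat_lit 3578) (nat_lit 223) (.e (nat_lit 745474) (nat_lit 0) .nil)))))) (.g (nat_lit 4) .nil .nil)))) (.nd (nat_lit 5) 
(.lf (nat_lit 63318) (.g (nat_lit 1150) (.e (nat_lit 1586) (nat_lit 111) (.e (nat_lit 360477) (nat_lit 11) (.e (nat_lit 581636) (nat_lit 0) (.e (nat_lit 3028) (nat_lit 187) (.e (nat_lit 450605) (nat_lit 27) (.e (nat_lit 745474) (nat_lit 0) .nil)))))) (.g (nat_lit 4) .nil .nil))) 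
(.lf (nat_lit 63350) (.g (nat_lit 2071) (.e (nat_lit 1586) (nat_lit 111) (.e (nat_lit 360480) (nat_lit 14) (.e (nat_lit 638998) (nat_lit 8) (.e (nat_lit 172115) (nat_lit 10) (.e (nat_lit 434269) (nat_lit 36) (.e (nat_lit 639008) (nat_lit 13) .nil)))))) (.g (nat_lit 5) .nil .nil))))) (.nd (nat_lit 4) (.nd (nat_lit 5) 
(.lf (nat_lit 63310) (.g (nat_lit 3916) (.e (nat_lit 1586) (nat_lit 111) (.e (nat_lit 360475) (nat_lit 8) (.e (nat_lit 557119) (nat_lit 18) (.e (nat_lit 2807) (nat_lit 180) (.e (nat_lit 303137) (nat_lit 10) (.e (nat_lit 434295) (nat_lit 49) (.e (nat_lit 745474) (nat_lit 0) .nil))))))) (.g (nat_lit 6) .nil .nil))) 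
(.lf (nat_lit 63342) (.g (nat_lit 2013) (.e (nat_lit 1586) (nat_lit 111) (.e (nat_lit 360480) (nat_lit 14) (.e (nat_lit 638998) (nat_lit 8) (.e (nat_lit 172106) (nat_lit 10) (.e (nat_lit 434269) (nat_lit 36) (.e (nat_lit 639008) (nat_lit 13) .nil)))))) (.g (nat_lit 0) .nil .nil)))) (.nd (nat_lit 5) 
(.lf (nat_lit 63326) (.g (nat_lit 1627) (.e (nat_lit 1586) (nat_lit 111) (.e (nat_lit 360477) (nat_lit 11) (.e (nat_lit 581651) (nat_lit 4) (.e (nat_lit 172115) (nat_lit 10) (.e (nat_lit 434295) (nat_lit 49) (.e (nat_lit 745474) (nat_lit 0) .nil)))))) (.g (nat_lit 4) .nil .nil))) 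
(.lf (nat_lit 63358) (.g (nat_lit 3438) (.e (nat_lit 1586) (nat_lit 111) (.e (nat_lit 360483) (nat_lit 15) (.e (nat_lit 647199) (nat_lit 11) (.e (nat_lit 16448) (nat_lit 10) (.e (nat_lit 434268) (nat_lit 36) (.e (nat_lit 639005) (nat_lit 13) .nil)))))) (.g (nat_lit 0) .nil .nil)))))))) (.nd (nat_lit 1) (.nd (nat_lit 2) (.nd (nat_lit 3) (.nd (nat_lit 4) (.nd (nat_lit 5) 
(.lf (nat_lit 63297) (.g (nat_lit 3531) (.e (nat_lit 1586) (nat_lit 111) (.e (nat_lit 360475) (nat_lit 8) (.e (nat_lit 557119) (nat_lit 18) (.e (nat_lit 2798) (nat_lit 180) (.e (nat_lit 303133) (nat_lit 9) (.e (nat_lit 426033) (nat_lit 0) (.e (nat_lit 3579) (nat_lit 223) (.e (nat_lit 745476) (nat_lit 0) .nil)))))))) (.g (nat_lit 5) .nil .nil))) 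
(.lf (nat_lit 63329) (.g (nat_lit 1762) (.e (nat_lit 1586) (nat_lit 111) (.e (nat_lit 360477) (nat_lit 11) (.e (nat_lit 581653) (nat_lit 6) (.e (nat_lit 188434) (nat_lit 20) (.e (nat_lit 3577) (nat_lit 223) (.e (nat_lit 745475) (nat_lit 0) .nil)))))) (.g (nat_lit 4) .nil .nil)))) (.nd (nat_lit 5) 
(.lf (nat_lit 63313) (.g (nat_lit 927) (.e (nat_lit 1586) (nat_lit 111) (.e (nat_lit 360475) (nat_lit 8) (.e (nat_lit 557121) (nat_lit 18) .nil))) .nil)) 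
(.lf (nat_lit 63345) (.g (nat_lit 1580) (.e (nat_lit 1586) (nat_lit 111) (.e (nat_lit 360480) (nat_lit 14) (.e (nat_lit 638998) (nat_lit 8) (.e (nat_lit 172112) (nat_lit 10) (.e (nat_lit 434269) (nat_lit 36) (.e (nat_lit 639007) (nat_lit 13) .nil)))))) (.g (nat_lit 6) .nil .nil))))) (.nd (nat_lit 4) (.nd (nat_lit 5) 
(.lf (nat_lit 63305) (.g (nat_lit 4019) (.e (nat_lit 1586) (nat_lit 111) (.e (nat_lit 360475) (nat_lit 8) (.e (nat_lit 557119) (nat_lit 18) (.e (nat_lit 2798) (nat_lit 180) (.e (nat_lit 303140) (nat_lit 10) (.e (nat_lit 434295) (nat_lit 49) (.e (nat_lit 745474) (nat_lit 0) .nil))))))) (.g (nat_lit 6) .nil .nil))) 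
(.lf (nat_lit 63337) (.g (nat_lit 1619) (.e (nat_lit 1586) (nat_lit 111) (.e (nat_lit 368384) (nat_lit 11) (.e (nat_lit 581653) (nat_lit 6) (.e (nat_lit 188434) (nat_lit 20) (.e (nat_lit 3578) (nat_lit 223) (.e (nat_lit 745475) (nat_lit 0) .nil)))))) (.g (nat_lit 4) .nil .nil)))) (.nd (nat_lit 5) 
(.lf (nat_lit 63321) (.g (nat_lit 2228) (.e (nat_lit 1586) (nat_lit 111) (.e (nat_lit 360477) (nat_lit 11) (.e (nat_lit 581651) (nat_lit 4) (.e (nat_lit 172106) (nat_lit 10) (.e (nat_lit 434295) (nat_lit 49) (.e (nat_lit 745475) (nat_lit 0) .nil)))))) (.g (nat_lit 5) .nil .nil))) 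
(.lf (nat_lit 63353) (.g (nat_lit 1558) (.e (nat_lit 1586) (nat_lit 111) (.e (nat_lit 360480) (nat_lit 14) (.e (nat_lit 638999) (nat_lit 8) (.e (nat_lit 172115) (nat_lit 10) (.e (nat_lit 434269) (nat_lit 36) (.e (nat_lit 639007) (nat_lit 13) .nil)))))) (.g (nat_lit 6) .nil .nil)))))) (.nd (nat_lit 3) (.nd (nat_lit 4) (.nd (nat_lit 5) 
(.lf (nat_lit 63301) (.g (nat_lit 3055) (.e (nat_lit 1586) (nat_lit 111) (.e (nat_lit 360475) (nat_lit 8) (.e (nat_lit 557119) (nat_lit 18) (.e (nat_lit 2798) (nat_lit 180) (.e (nat_lit 303133) (nat_lit 9) (.e (nat_lit 426043) (nat_lit 0) (.e (nat_lit 3578) (nat_lit 223) (.e (nat_lit 745474) (nat_lit 0) .nil)))))))) (.g (nat_lit 4) .nil .nil))) 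
(.lf (nat_lit 63333) (.g (nat_lit 3006) (.e (nat_lit 1586) (nat_lit 111) (.e (nat_lit 360477) (nat_lit 11) (.e (nat_lit 581653) (nat_lit 6) (.e (nat_lit 188439) (nat_lit 20) (.e (nat_lit 3579) (nat_lit 223) (.e (nat_lit 745475) (nat_lit 0) .nil)))))) (.g (nat_lit 0) .nil .nil)))) (.nd (nat_lit 5) 
(.lf (nat_lit 63317) (.g (nat_lit 1254) (.e (nat_lit 1586) (nat_lit 111) (.e (nat_lit 360477) (nat_lit 11) (.e (nat_lit 581636) (nat_lit 0) (.e (nat_lit 3027) (nat_lit 187) (.e (nat_lit 450605) (nat_lit 27) (.e (nat_lit 745474) (nat_lit 0) .nil)))))) (.g (nat_lit 4) .nil .nil))) 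
(.lf (nat_lit 63349) (.g (nat_lit 2051) (.e (nat_lit 1586) (nat_lit 111) (.e (nat_lit 360480) (nat_lit 14) (.e (nat_lit 638998) (nat_lit 8) (.e (nat_lit 172115) (nat_lit 10) (.e (nat_lit 434269) (nat_lit 36) (.e (nat_lit 639007) (nat_lit 13) .nil)))))) (.g (nat_lit 5) .nil .nil))))) (.nd (nat_lit 4) (.nd (nat_lit 5) 
(.lf (nat_lit 63309) (.g (nat_lit 1730) (.e (nat_lit 1586) (nat_lit 111) (.e (nat_lit 360475) (nat_lit 8) (.e (nat_lit 557119) (nat_lit 18) (.e (nat_lit 2804) (nat_lit 180) .nil)))) .nil)) 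
(.lf (nat_lit 63341) (.g (nat_lit 1460) (.e (nat_lit 1586) (nat_lit 111) (.e (nat_lit 360480) (nat_lit 14) (.e (nat_lit 638997) (nat_lit 8) (.e (nat_lit 172115) (nat_lit 10) (.e (nat_lit 434269) (nat_lit 36) (.e (nat_lit 639008) (nat_lit 13) .nil)))))) (.g (nat_lit 5) .nil .nil)))) (.nd (nat_lit 5) 
(.lf (nat_lit 63325) (.g (nat_lit 1648) (.e (nat_lit 1586) (nat_lit 111) (.e (nat_lit 360477) (nat_lit 11) (.e (nat_lit 581651) (nat_lit 4) (.e (nat_lit 172115) (nat_lit 10) (.e (nat_lit 434294) (nat_lit 49) (.e (nat_lit 745476) (nat_lit 0) .nil)))))) (.g (nat_lit 4) .nil .nil))) 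
(.lf (nat_lit 63357) (.g (nat_lit 1397) (.e (nat_lit 1586) (nat_lit 111) (.e (nat_lit 360480) (nat_lit 14) (.e (nat_lit 639001) (nat_lit 10) (.e (nat_lit 188441) (nat_lit 20) (.e (nat_lit 3390) (nat_lit 210) (.e (nat_lit 639007) (nat_lit 13) .nil)))))) (.g (nat_lit 0) .nil .nil))))))) (.nd (nat_lit 2) (.nd (nat_lit 3) (.nd (nat_lit 4) (.nd (nat_lit 5) 
(.lf (nat_lit 63299) (.g (nat_lit 2778) (.e (nat_lit 1586) (nat_lit 111) (.e (nat_lit 360475) (nat_lit 8) (.e (nat_lit 557119) (nat_lit 18) (.e (nat_lit 2798) (nat_lit 180) (.e (nat_lit 303133) (nat_lit 9) (.e (nat_lit 426042) (nat_lit 0) (.e (nat_lit 3577) (nat_lit 223) (.e (nat_lit 745475) (nat_lit 0) .nil)))))))) (.g (nat_lit 4) .nil .nil))) 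
(.lf (nat_lit 63331) (.g (nat_lit 3151) (.e (nat_lit 1586) (nat_lit 111) (.e (nat_lit 360477) (nat_lit 11) (.e (nat_lit 581653) (nat_lit 6) (.e (nat_lit 188434) (nat_lit 20) (.e (nat_lit 3579) (nat_lit 223) (.e (nat_lit 745475) (nat_lit 0) .nil)))))) (.g (nat_lit 0) .nil .nil)))) (.nd (nat_lit 5) 
(.lf (nat_lit 63315) (.g (nat_lit 1475) (.e (nat_lit 1586) (nat_lit 111) (.e (nat_lit 360477) (nat_lit 11) (.e (nat_lit 581636) (nat_lit 0) (.e (nat_lit 3016) (nat_lit 187) (.e (nat_lit 450605) (nat_lit 27) (.e (nat_lit 745474) (nat_lit 0) .nil)))))) (.g (nat_lit 4) .nil .nil))) 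
(.lf (nat_lit 63347) (.g (nat_lit 1818) (.e (nat_lit 1586) (nat_lit 111) (.e (nat_lit 360480) (nat_lit 14) (.e (nat_lit 638998) (nat_lit 8) (.e (nat_lit 172113) (nat_lit 10) (.e (nat_lit 434269) (nat_lit 36) (.e (nat_lit 639007) (nat_lit 13) .nil)))))) (.g (nat_lit 4) .nil .nil))))) (.nd (nat_lit 4) (.nd (nat_lit 5) 
(.lf (nat_lit 63307) (.g (nat_lit 3227) (.e (nat_lit 1586) (nat_lit 111) (.e (nat_lit 360475) (nat_lit 8) (.e (nat_lit 557119) (nat_lit 18) (.e (nat_lit 2798) (nat_lit 180) (.e (nat_lit 303143) (nat_lit 12) (.e (nat_lit 475157) (nat_lit 21) (.e (nat_lit 4618) (nat_lit 269) (.e (nat_lit 1011) (nat_lit 81) .nil)))))))) (.g (nat_lit 4) .nil .nil))) 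
(.lf (nat_lit 63339) (.g (nat_lit 1837) (.e (nat_lit 1586) (nat_lit 111) (.e (nat_lit 368384) (nat_lit 11) (.e (nat_lit 581653) (nat_lit 6) (.e (nat_lit 188440) (nat_lit 20) (.e (nat_lit 3579) (nat_lit 223) (.e (nat_lit 745475) (nat_lit 0) .nil)))))) (.g (nat_lit 5) .nil .nil)))) (.nd (nat_lit 5) 
(.lf (nat_lit 63323) (.g (nat_lit 1489) (.e (nat_lit 1586) (nat_lit 111) (.e (nat_lit 360477) (nat_lit 11) (.e (nat_lit 581651) (nat_lit 4) (.e (nat_lit 172113) (nat_lit 10) (.e (nat_lit 434295) (nat_lit 49) (.e (nat_lit 745474) (nat_lit 0) .nil)))))) (.g (nat_lit 4) .nil .nil))) 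
(.lf (nat_lit 63355) (.g (nat_lit 1089) (.e (nat_lit 1586) (nat_lit 111) (.e (nat_lit 360480) (nat_lit 14) (.e (nat_lit 639001) (nat_lit 10) (.e (nat_lit 188439) (nat_lit 20) (.e (nat_lit 3390) (nat_lit 210) (.e (nat_lit 639007) (nat_lit 13) .nil)))))) (.g (nat_lit 0) .nil .nil)))))) (.nd (nat_lit 3) (.nd (nat_lit 4) (.nd (nat_lit 5) 
(.lf (nat_lit 63303) (.g (nat_lit 3486) (.e (nat_lit 1586) (nat_lit 111) (.e (nat_lit 360475) (nat_lit 8) (.e (nat_lit 557119) (nat_lit 18) (.e (nat_lit 2798) (nat_lit 180) (.e (nat_lit 303133) (nat_lit 9) (.e (nat_lit 426048) (nat_lit 0) (.e (nat_lit 3578) (nat_lit 223) (.e (nat_lit 745475) (nat_lit 0) .nil)))))))) (.g (nat_lit 5) .nil .nil))) 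
(.lf (nat_lit 63335) (.g (nat_lit 552) (.e (nat_lit 1586) (nat_lit 111) (.e (nat_lit 360477) (nat_lit 11) (.e (nat_lit 589568) (nat_lit 6) .nil))) .nil))) (.nd (nat_lit 5) 
(.lf (nat_lit 63319) (.g (nat_lit 356) (.e (nat_lit 1586) (nat_lit 111) (.e (nat_lit 360477) (nat_lit 11) (.e (nat_lit 581651) (nat_lit 4) .nil))) .nil)) 
(.lf (nat_lit 63351) (.g (nat_lit 1686) (.e (nat_lit 1586) (nat_lit 111) (.e (nat_lit 360480) (nat_lit 14) (.e (nat_lit 638998) (nat_lit 8) (.e (nat_lit 172116) (nat_lit 10) (.e (nat_lit 434269) (nat_lit 36) (.e (nat_lit 639007) (nat_lit 13) .nil)))))) (.g (nat_lit 5) .nil .nil))))) (.nd (nat_lit 4) (.nd (nat_lit 5) 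
(.lf (nat_lit 63311) (.g (nat_lit 2079) (.e (nat_lit 1586) (nat_lit 111) (.e (nat_lit 360475) (nat_lit 8) (.e (nat_lit 557119) (nat_lit 18) (.e (nat_lit 2807) (nat_lit 180) (.e (nat_lit 303138) (nat_lit 10) .nil))))) .nil)) 
(.lf (nat_lit 63343) (.g (nat_lit 1354) (.e (nat_lit 1586) (nat_lit 111) (.e (nat_lit 360480) (nat_lit 14) (.e (nat_lit 638998) (nat_lit 8) (.e (nat_lit 172107) (nat_lit 10) (.e (nat_lit 434269) (nat_lit 36) (.e (nat_lit 639007) (nat_lit 13) .nil)))))) (.g (nat_lit 4) .nil .nil)))) (.nd (nat_lit 5) 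
(.lf (nat_lit 63327) (.g (nat_lit 2145) (.e (nat_lit 1586) (nat_lit 111) (.e (nat_lit 360477) (nat_lit 11) (.e (nat_lit 581651) (nat_lit 4) (.e (nat_lit 172115) (nat_lit 10) (.e (nat_lit 434295) (nat_lit 49) (.e (nat_lit 745475) (nat_lit 0) .nil)))))) (.g (nat_lit 5) .nil .nil))) 
(.lf (nat_lit 63359) (.g (nat_lit 1968) (.e (nat_lit 1586) (nat_lit 111) (.e (nat_lit 360483) (nat_lit 15) (.e (nat_lit 647199) (nat_lit 11) (.e (nat_lit 16449) (nat_lit 10) (.e (nat_lit 434269) (nat_lit 36) (.e (nat_lit 639007) (nat_lit 13) .nil)))))) (.g (nat_lit 6) .nil .nil)))))))))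

noncomputable def tv869 : DT := (.nd (nat_lit 0) (.nd (nat_lit 1) (.nd (nat_lit 2) (.nd (nat_lit 3) (.nd (nat_lit 4) (.nd (nat_lit 5) 
(.lf (nat_lit 63360) (.g (nat_lit 1990) (.e (nat_lit 1586) (nat_lit 111) (.e (nat_lit 360483) (nat_lit 15) (.e (nat_lit 647199) (nat_lit 11) (.e (nat_lit 16449) (nat_lit 10) (.e (nat_lit 434269) (nat_lit 36) (.e (nat_lit 639008) (nat_lit 13) .nil)))))) (.g (nat_lit 6) .nil .nil))) 
(.lf (nat_lit 63392) (.g (nat_lit 3109) (.e (nat_lit 1586) (nat_lit 111) (.e (nat_lit 360486) (nat_lit 18) (.e (nat_lit 671762) (nat_lit 4) (.e (nat_lit 65620) (nat_lit 10) (.e (nat_lit 344169) (nat_lit 40) (.e (nat_lit 671747) (nat_lit 0) .nil)))))) (.g (nat_lit 0) .nil .nil)))) (.nd (nat_lit 5) 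
(.lf (nat_lit 63376) (.g (nat_lit 3483) (.e (nat_lit 1586) (nat_lit 111) (.e (nat_lit 360486) (nat_lit 18) (.e (nat_lit 671762) (nat_lit 4) (.e (nat_lit 65610) (nat_lit 10) (.e (nat_lit 344169) (nat_lit 40) (.e (nat_lit 671747) (nat_lit 0) .nil)))))) (.g (nat_lit 0) .nil .nil))) 
(.lf (nat_lit 63408) (.g (nat_lit 132) (.e (nat_lit 1586) (nat_lit 111) (.e (nat_lit 360489) (nat_lit 21) (.e (nat_lit 770056) (nat_lit 5) .nil))) .nil)))) (.nd (nat_lit 4) (.nd (nat_lit 5) 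
(.lf (nat_lit 63368) (.g (nat_lit 2043) (.e (nat_lit 1586) (nat_lit 111) (.e (nat_lit 360486) (nat_lit 18) (.e (nat_lit 671748) (nat_lit 0) (.e (nat_lit 1589) (nat_lit 111) (.e (nat_lit 360486) (nat_lit 18) (.e (nat_lit 671747) (nat_lit 0) .nil)))))) (.g (nat_lit 5) .nil .nil))) 
(.lf (nat_lit 63400) (.g (nat_lit 2252) (.e (nat_lit 1586) (nat_lit 111) (.e (nat_lit 360486) (nat_lit 18) (.e (nat_lit 671764) (nat_lit 6) (.e (nat_lit 81946) (nat_lit 20) (.e (nat_lit 2005) (nat_lit 138) (.e (nat_lit 671747) (nat_lit 0) .nil)))))) (.g (nat_lit 6) .nil .nil)))) (.nd (nat_lit 5) 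
(.lf (nat_lit 63384) (.g (nat_lit 3430) (.e (nat_lit 1586) (nat_lit 111) (.e (nat_lit 360486) (nat_lit 18) (.e (nat_lit 671762) (nat_lit 4) (.e (nat_lit 65617) (nat_lit 10) (.e (nat_lit 344169) (nat_lit 40) (.e (nat_lit 671747) (nat_lit 0) .nil)))))) (.g (nat_lit 0) .nil .nil))) 
(.lf (nat_lit 63416) (.g (nat_lit 1806) (.e (nat_lit 1586) (nat_lit 111) (.e (nat_lit 360489) (nat_lit 21) (.e (nat_lit 770058) (nat_lit 5) (.e (nat_lit 1595) (nat_lit 111) (.e (nat_lit 360489) (nat_lit 21) (.e (nat_lit 770055) (nat_lit 5) .nil)))))) (.g (nat_lit 6) .nil .nil)))))) (.nd (nat_lit 3) (.nd (nat_lit 4) (.nd (nat_lit 5) 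
(.lf (nat_lit 63364) (.g (nat_lit 1815) (.e (nat_lit 1586) (nat_lit 111) (.e (nat_lit 360484) (nat_lit 15) (.e (nat_lit 647199) (nat_lit 11) (.e (nat_lit 16449) (nat_lit 10) (.e (nat_lit 434269) (nat_lit 36) (.e (nat_lit 639008) (nat_lit 13) .nil)))))) (.g (nat_lit 4) .nil .nil))) 
(.lf (nat_lit 63396) (.g (nat_lit 2437) (.e (nat_lit 1586) (nat_lit 111) (.e (nat_lit 360486) (nat_lit 18) (.e (nat_lit 671764) (nat_lit 6) (.e (nat_lit 81938) (nat_lit 20) (.e (nat_lit 2005) (nat_lit 138) (.e (nat_lit 671748) (nat_lit 0) .nil)))))) (.g (nat_lit 0) .nil .nil)))) (.nd (nat_lit 5) 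
(.lf (nat_lit 63380) (.g (nat_lit 3064) (.e (nat_lit 1586) (nat_lit 111) (.e (nat_lit 360486) (nat_lit 18) (.e (nat_lit 671762) (nat_lit 4) (.e (nat_lit 65616) (nat_lit 10) (.e (nat_lit 344168) (nat_lit 40) (.e (nat_lit 671747) (nat_lit 0) .nil)))))) (.g (nat_lit 0) .nil .nil))) 
(.lf (nat_lit 63412) (.g (nat_lit 1817) (.e (nat_lit 1586) (nat_lit 111) (.e (nat_lit 360489) (nat_lit 21) (.e (nat_lit 770057) (nat_lit 5) (.e (nat_lit 1595) (nat_lit 111) (.e (nat_lit 360489) (nat_lit 21) (.e (nat_lit 770057) (nat_lit 5) .nil)))))) (.g (nat_lit 6) .nil .nil))))) (.nd (nat_lit 4) (.nd (nat_lit 5) 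
(.lf (nat_lit 63372) (.g (nat_lit 2614) (.e (nat_lit 1586) (nat_lit 111) (.e (nat_lit 360486) (nat_lit 18) (.e (nat_lit 671761) (nat_lit 4) (.e (nat_lit 65610) (nat_lit 10) (.e (nat_lit 344169) (nat_lit 40) (.e (nat_lit 671747) (nat_lit 0) .nil)))))) (.g (nat_lit 5) .nil .nil))) 
(.lf (nat_lit 63404) (.g (nat_lit 2402) (.e (nat_lit 1586) (nat_lit 111) (.e (nat_lit 360486) (nat_lit 18) (.e (nat_lit 671764) (nat_lit 6) (.e (nat_lit 81947) (nat_lit 20) (.e (nat_lit 2005) (nat_lit 138) (.e (nat_lit 671747) (nat_lit 0) .nil)))))) (.g (nat_lit 6) .nil .nil)))) (.nd (nat_lit 5) 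
(.lf (nat_lit 63388) (.g (nat_lit 2760) (.e (nat_lit 1586) (nat_lit 111) (.e (nat_lit 360486) (nat_lit 18) (.e (nat_lit 671762) (nat_lit 4) (.e (nat_lit 65619) (nat_lit 10) (.e (nat_lit 344169) (nat_lit 40) (.e (nat_lit 671746) (nat_lit 0) .nil)))))) (.g (nat_lit 5) .nil .nil))) 
(.lf (nat_lit 63420) (.g (nat_lit 2082) (.e (nat_lit 1586) (nat_lit 111) (.e (nat_lit 360489) (nat_lit 21) (.e (nat_lit 770071) (nat_lit 8) (.e (nat_lit 65611) (nat_lit 10) (.e (nat_lit 344177) (nat_lit 43) (.e (nat_lit 770055) (nat_lit 5) .nil)))))) (.g (nat_lit 5) .nil .nil))))))) (.nd (nat_lit 2) (.nd (nat_lit 3) (.nd (nat_lit 4) (.nd (nat_lit 5) 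
(.lf (nat_lit 63362) (.g (nat_lit 3139) (.e (nat_lit 1586) (nat_lit 111) (.e (nat_lit 360484) (nat_lit 15) (.e (nat_lit 647199) (nat_lit 11) (.e (nat_lit 16448) (nat_lit 10) (.e (nat_lit 434268) (nat_lit 36) (.e (nat_lit 639007) (nat_lit 13) .nil)))))) (.g (nat_lit 6) .nil .nil))) 
(.lf (nat_lit 63394) (.g (nat_lit 2399) (.e (nat_lit 1586) (nat_lit 111) (.e (nat_lit 360486) (nat_lit 18) (.e (nat_lit 671764) (nat_lit 6) (.e (nat_lit 81938) (nat_lit 20) (.e (nat_lit 2003) (nat_lit 138) (.e (nat_lit 671747) (nat_lit 0) .nil)))))) (.g (nat_lit 0) .nil .nil)))) (.nd (nat_lit 5) 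
(.lf (nat_lit 63378) (.g (nat_lit 3121) (.e (nat_lit 1586) (nat_lit 111) (.e (nat_lit 360486) (nat_lit 18) (.e (nat_lit 671762) (nat_lit 4) (.e (nat_lit 65611) (nat_lit 10) (.e (nat_lit 344168) (nat_lit 40) (.e (nat_lit 671747) (nat_lit 0) .nil)))))) (.g (nat_lit 0) .nil .nil))) 
(.lf (nat_lit 63410) (.g (nat_lit 1607) (.e (nat_lit 1586) (nat_lit 111) (.e (nat_lit 360489) (nat_lit 21) (.e (nat_lit 770057) (nat_lit 5) (.e (nat_lit 1592) (nat_lit 111) (.e (nat_lit 360489) (nat_lit 21) (.e (nat_lit 770055) (nat_lit 5) .nil)))))) (.g (nat_lit 6) .nil .nil))))) (.nd (nat_lit 4) (.nd (nat_lit 5) 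
(.lf (nat_lit 63370) (.g (nat_lit 2018) (.e (nat_lit 1586) (nat_lit 111) (.e (nat_lit 360486) (nat_lit 18) (.e (nat_lit 671748) (nat_lit 0) (.e (nat_lit 1595) (nat_lit 111) (.e (nat_lit 360486) (nat_lit 18) (.e (nat_lit 671747) (nat_lit 0) .nil)))))) (.g (nat_lit 5) .nil .nil))) 
(.lf (nat_lit 63402) (.g (nat_lit 1905) (.e (nat_lit 1586) (nat_lit 111) (.e (nat_lit 360486) (nat_lit 18) (.e (nat_lit 671764) (nat_lit 6) (.e (nat_lit 81947) (nat_lit 20) (.e (nat_lit 2003) (nat_lit 138) (.e (nat_lit 671747) (nat_lit 0) .nil)))))) (.g (nat_lit 5) .nil .nil)))) (.nd (nat_lit 5) 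
(.lf (nat_lit 63386) (.g (nat_lit 2668) (.e (nat_lit 1586) (nat_lit 111) (.e (nat_lit 360486) (nat_lit 18) (.e (nat_lit 671762) (nat_lit 4) (.e (nat_lit 65619) (nat_lit 10) (.e (nat_lit 344168) (nat_lit 40) (.e (nat_lit 671746) (nat_lit 0) .nil)))))) (.g (nat_lit 5) .nil .nil))) 
(.lf (nat_lit 63418) (.g (nat_lit 1538) (.e (nat_lit 1586) (nat_lit 111) (.e (nat_lit 360489) (nat_lit 21) (.e (nat_lit 770058) (nat_lit 5) (.e (nat_lit 1599) (nat_lit 111) (.e (nat_lit 360489) (nat_lit 21) (.e (nat_lit 770055) (nat_lit 5) .nil)))))) (.g (nat_lit 6) .nil .nil)))))) (.nd (nat_lit 3) (.nd (nat_lit 4) (.nd (nat_lit 5) 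
(.lf (nat_lit 63366) (.g (nat_lit 2035) (.e (nat_lit 1586) (nat_lit 111) (.e (nat_lit 360486) (nat_lit 18) (.e (nat_lit 671747) (nat_lit 0) (.e (nat_lit 1586) (nat_lit 111) (.e (nat_lit 360486) (nat_lit 18) (.e (nat_lit 671748) (nat_lit 0) .nil)))))) (.g (nat_lit 5) .nil .nil))) 
(.lf (nat_lit 63398) (.g (nat_lit 1900) (.e (nat_lit 1586) (nat_lit 111) (.e (nat_lit 360486) (nat_lit 18) (.e (nat_lit 671764) (nat_lit 6) (.e (nat_lit 81943) (nat_lit 20) (.e (nat_lit 2005) (nat_lit 138) (.e (nat_lit 671747) (nat_lit 0) .nil)))))) (.g (nat_lit 6) .nil .nil)))) (.nd (nat_lit 5) 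
(.lf (nat_lit 63382) (.g (nat_lit 3530) (.e (nat_lit 1586) (nat_lit 111) (.e (nat_lit 360486) (nat_lit 18) (.e (nat_lit 671762) (nat_lit 4) (.e (nat_lit 65617) (nat_lit 10) (.e (nat_lit 344168) (nat_lit 40) (.e (nat_lit 671747) (nat_lit 0) .nil)))))) (.g (nat_lit 0) .nil .nil))) 
(.lf (nat_lit 63414) (.g (nat_lit 1455) (.e (nat_lit 1586) (nat_lit 111) (.e (nat_lit 360489) (nat_lit 21) (.e (nat_lit 770057) (nat_lit 5) (.e (nat_lit 1599) (nat_lit 111) (.e (nat_lit 360489) (nat_lit 21) (.e (nat_lit 770057) (nat_lit 5) .nil)))))) (.g (nat_lit 6) .nil .nil))))) (.nd (nat_lit 4) (.nd (nat_lit 5) 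
(.lf (nat_lit 63374) (.g (nat_lit 2572) (.e (nat_lit 1586) (nat_lit 111) (.e (nat_lit 360486) (nat_lit 18) (.e (nat_lit 671762) (nat_lit 4) (.e (nat_lit 65610) (nat_lit 10) (.e (nat_lit 344168) (nat_lit 40) (.e (nat_lit 671746) (nat_lit 0) .nil)))))) (.g (nat_lit 5) .nil .nil))) 
(.lf (nat_lit 63406) (.g (nat_lit 390) (.e (nat_lit 1586) (nat_lit 111) (.e (nat_lit 360486) (nat_lit 18) (.e (nat_lit 679680) (nat_lit 6) .nil))) .nil))) (.nd (nat_lit 5) 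
(.lf (nat_lit 63390) (.g (nat_lit 3089) (.e (nat_lit 1586) (nat_lit 111) (.e (nat_lit 360486) (nat_lit 18) (.e (nat_lit 671762) (nat_lit 4) (.e (nat_lit 65620) (nat_lit 10) (.e (nat_lit 344168) (nat_lit 40) (.e (nat_lit 671747) (nat_lit 0) .nil)))))) (.g (nat_lit 0) .nil .nil))) 
(.lf (nat_lit 63422) (.g (nat_lit 2196) (.e (nat_lit 1586) (nat_lit 111) (.e (nat_lit 360489) (nat_lit 21) (.e (nat_lit 770071) (nat_lit 8) (.e (nat_lit 65611) (nat_lit 10) (.e (nat_lit 344177) (nat_lit 43) (.e (nat_lit 770058) (nat_lit 5) .nil)))))) (.g (nat_lit 6) .nil .nil)))))))) (.nd (nat_lit 1) (.nd (nat_lit 2) (.nd (nat_lit 3) (.nd (nat_lit 4) (.nd (nat_lit 5) 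
(.lf (nat_lit 63361) (.g (nat_lit 3422) (.e (nat_lit 1586) (nat_lit 111) (.e (nat_lit 360484) (nat_lit 15) (.e (nat_lit 647199) (nat_lit 11) (.e (nat_lit 16448) (nat_lit 10) (.e (nat_lit 434268) (nat_lit 36) (.e (nat_lit 639005) (nat_lit 13) .nil)))))) (.g (nat_lit 6) .nil .nil))) 
(.lf (nat_lit 63393) (.g (nat_lit 372) (.e (nat_lit 1586) (nat_lit 111) (.e (nat_lit 360486) (nat_lit 18) (.e (nat_lit 671764) (nat_lit 6) .nil))) .nil))) (.nd (nat_lit 5) 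
(.lf (nat_lit 63377) (.g (nat_lit 2097) (.e (nat_lit 1586) (nat_lit 111) (.e (nat_lit 360486) (nat_lit 18) (.e (nat_lit 671762) (nat_lit 4) (.e (nat_lit 65611) (nat_lit 10) (.e (nat_lit 344168) (nat_lit 40) (.e (nat_lit 671746) (nat_lit 0) .nil)))))) (.g (nat_lit 4) .nil .nil))) 
(.lf (nat_lit 63409) (.g (nat_lit 1546) (.e (nat_lit 1586) (nat_lit 111) (.e (nat_lit 360489) (nat_lit 21) (.e (nat_lit 770056) (nat_lit 5) (.e (nat_lit 1592) (nat_lit 111) (.e (nat_lit 360489) (nat_lit 21) (.e (nat_lit 770055) (nat_lit 5) .nil)))))) (.g (nat_lit 6) .nil .nil))))) (.nd (nat_lit 4) (.nd (nat_lit 5) 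
(.lf (nat_lit 63369) (.g (nat_lit 1342) (.e (nat_lit 1586) (nat_lit 111) (.e (nat_lit 360486) (nat_lit 18) (.e (nat_lit 671748) (nat_lit 0) (.e (nat_lit 1592) (nat_lit 111) (.e (nat_lit 360486) (nat_lit 18) (.e (nat_lit 671747) (nat_lit 0) .nil)))))) (.g (nat_lit 4) .nil .nil))) 
(.lf (nat_lit 63401) (.g (nat_lit 2399) (.e (nat_lit 1586) (nat_lit 111) (.e (nat_lit 360486) (nat_lit 18) (.e (nat_lit 671764) (nat_lit 6) (.e (nat_lit 81946) (nat_lit 20) (.e (nat_lit 2005) (nat_lit 138) (.e (nat_lit 671748) (nat_lit 0) .nil)))))) (.g (nat_lit 0) .nil .nil)))) (.nd (nat_lit 5) 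
(.lf (nat_lit 63385) (.g (nat_lit 1256) (.e (nat_lit 1586) (nat_lit 111) (.e (nat_lit 360486) (nat_lit 18) (.e (nat_lit 671762) (nat_lit 4) (.e (nat_lit 65619) (nat_lit 10) .nil)))) .nil)) 
(.lf (nat_lit 63417) (.g (nat_lit 1720) (.e (nat_lit 1586) (nat_lit 111) (.e (nat_lit 360489) (nat_lit 21) (.e (nat_lit 770058) (nat_lit 5) (.e (nat_lit 1595) (nat_lit 111) (.e (nat_lit 360489) (nat_lit 21) (.e (nat_lit 770057) (nat_lit 5) .nil)))))) (.g (nat_lit 6) .nil .nil)))))) (.nd (nat_lit 3) (.nd (nat_lit 4) (.nd (nat_lit 5) 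
(.lf (nat_lit 63365) (.g (nat_lit 774) (.e (nat_lit 1586) (nat_lit 111) (.e (nat_lit 360484) (nat_lit 15) (.e (nat_lit 647203) (nat_lit 14) (.e (nat_lit 1358) (nat_lit 102) .nil)))) .nil)) 
(.lf (nat_lit 63397) (.g (nat_lit 1740) (.e (nat_lit 1586) (nat_lit 111) (.e (nat_lit 360486) (nat_lit 18) (.e (nat_lit 671764) (nat_lit 6) (.e (nat_lit 81939) (nat_lit 20) (.e (nat_lit 2005) (nat_lit 138) (.e (nat_lit 671747) (nat_lit 0) .nil)))))) (.g (nat_lit 6) .nil .nil)))) (.nd (nat_lit 5) 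
(.lf (nat_lit 63381) (.g (nat_lit 2248) (.e (nat_lit 1586) (nat_lit 111) (.e (nat_lit 360486) (nat_lit 18) (.e (nat_lit 671762) (nat_lit 4) (.e (nat_lit 65617) (nat_lit 10) (.e (nat_lit 344168) (nat_lit 40) (.e (nat_lit 671746) (nat_lit 0) .nil)))))) (.g (nat_lit 4) .nil .nil))) 
(.lf (nat_lit 63413) (.g (nat_lit 1547) (.e (nat_lit 1586) (nat_lit 111) (.e (nat_lit 360489) (nat_lit 21) (.e (nat_lit 770057) (nat_lit 5) (.e (nat_lit 1599) (nat_lit 111) (.e (nat_lit 360489) (nat_lit 21) (.e (nat_lit 770055) (nat_lit 5) .nil)))))) (.g (nat_lit 6) .nil .nil))))) (.nd (nat_lit 4) (.nd (nat_lit 5) 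
(.lf (nat_lit 63373) (.g (nat_lit 1265) (.e (nat_lit 1586) (nat_lit 111) (.e (nat_lit 360486) (nat_lit 18) (.e (nat_lit 671762) (nat_lit 4) (.e (nat_lit 65610) (nat_lit 10) .nil)))) .nil)) 
(.lf (nat_lit 63405) (.g (nat_lit 2708) (.e (nat_lit 1586) (nat_lit 111) (.e (nat_lit 360486) (nat_lit 18) (.e (nat_lit 671764) (nat_lit 6) (.e (nat_lit 81947) (nat_lit 20) (.e (nat_lit 2005) (nat_lit 138) (.e (nat_lit 671748) (nat_lit 0) .nil)))))) (.g (nat_lit 0) .nil .nil)))) (.nd (nat_lit 5) 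
(.lf (nat_lit 63389) (.g (nat_lit 3406) (.e (nat_lit 1586) (nat_lit 111) (.e (nat_lit 360486) (nat_lit 18) (.e (nat_lit 671762) (nat_lit 4) (.e (nat_lit 65619) (nat_lit 10) (.e (nat_lit 344169) (nat_lit 40) (.e (nat_lit 671747) (nat_lit 0) .nil)))))) (.g (nat_lit 0) .nil .nil))) 
(.lf (nat_lit 63421) (.g (nat_lit 2087) (.e (nat_lit 1586) (nat_lit 111) (.e (nat_lit 360489) (nat_lit 21) (.e (nat_lit 770071) (nat_lit 8) (.e (nat_lit 65611) (nat_lit 10) (.e (nat_lit 344177) (nat_lit 43) (.e (nat_lit 770057) (nat_lit 5) .nil)))))) (.g (nat_lit 5) .nil .nil))))))) (.nd (nat_lit 2) (.nd (nat_lit 3) (.nd (nat_lit 4) (.nd (nat_lit 5) 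
(.lf (nat_lit 63363) (.g (nat_lit 1734) (.e (nat_lit 1586) (nat_lit 111) (.e (nat_lit 360484) (nat_lit 15) (.e (nat_lit 647199) (nat_lit 11) (.e (nat_lit 16449) (nat_lit 10) (.e (nat_lit 434269) (nat_lit 36) (.e (nat_lit 639007) (nat_lit 13) .nil)))))) (.g (nat_lit 4) .nil .nil))) 
(.lf (nat_lit 63395) (.g (nat_lit 2218) (.e (nat_lit 1586) (nat_lit 111) (.e (nat_lit 360486) (nat_lit 18) (.e (nat_lit 671764) (nat_lit 6) (.e (nat_lit 81938) (nat_lit 20) (.e (nat_lit 2005) (nat_lit 138) (.e (nat_lit 671747) (nat_lit 0) .nil)))))) (.g (nat_lit 6) .nil .nil)))) (.nd (nat_lit 5) 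
(.lf (nat_lit 63379) (.g (nat_lit 1950) (.e (nat_lit 1586) (nat_lit 111) (.e (nat_lit 360486) (nat_lit 18) (.e (nat_lit 671762) (nat_lit 4) (.e (nat_lit 65616) (nat_lit 10) (.e (nat_lit 344168) (nat_lit 40) (.e (nat_lit 671746) (nat_lit 0) .nil)))))) (.g (nat_lit 4) .nil .nil))) 
(.lf (nat_lit 63411) (.g (nat_lit 1882) (.e (nat_lit 1586) (nat_lit 111) (.e (nat_lit 360489) (nat_lit 21) (.e (nat_lit 770057) (nat_lit 5) (.e (nat_lit 1595) (nat_lit 111) (.e (nat_lit 360489) (nat_lit 21) (.e (nat_lit 770055) (nat_lit 5) .nil)))))) (.g (nat_lit 6) .nil .nil))))) (.nd (nat_lit 4) (.nd (nat_lit 5) 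
(.lf (nat_lit 63371) (.g (nat_lit 1813) (.e (nat_lit 1586) (nat_lit 111) (.e (nat_lit 360486) (nat_lit 18) (.e (nat_lit 671761) (nat_lit 4) (.e (nat_lit 65610) (nat_lit 10) (.e (nat_lit 344168) (nat_lit 40) (.e (nat_lit 671747) (nat_lit 0) .nil)))))) (.g (nat_lit 4) .nil .nil))) 
(.lf (nat_lit 63403) (.g (nat_lit 1166) (.e (nat_lit 1586) (nat_lit 111) (.e (nat_lit 360486) (nat_lit 18) (.e (nat_lit 671764) (nat_lit 6) (.e (nat_lit 81947) (nat_lit 20) (.e (nat_lit 2005) (nat_lit 138) .nil))))) .nil))) (.nd (nat_lit 5) 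
(.lf (nat_lit 63387) (.g (nat_lit 3407) (.e (nat_lit 1586) (nat_lit 111) (.e (nat_lit 360486) (nat_lit 18) (.e (nat_lit 671762) (nat_lit 4) (.e (nat_lit 65619) (nat_lit 10) (.e (nat_lit 344168) (nat_lit 40) (.e (nat_lit 671747) (nat_lit 0) .nil)))))) (.g (nat_lit 0) .nil .nil))) 
(.lf (nat_lit 63419) (.g (nat_lit 1445) (.e (nat_lit 1586) (nat_lit 111) (.e (nat_lit 360489) (nat_lit 21) (.e (nat_lit 770058) (nat_lit 5) (.e (nat_lit 1599) (nat_lit 111) (.e (nat_lit 360489) (nat_lit 21) (.e (nat_lit 770057) (nat_lit 5) .nil)))))) (.g (nat_lit 6) .nil .nil)))))) (.nd (nat_lit 3) (.nd (nat_lit 4) (.nd (nat_lit 5) 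
(.lf (nat_lit 63367) (.g (nat_lit 1704) (.e (nat_lit 1586) (nat_lit 111) (.e (nat_lit 360486) (nat_lit 18) (.e (nat_lit 671747) (nat_lit 0) (.e (nat_lit 1595) (nat_lit 111) (.e (nat_lit 360486) (nat_lit 18) (.e (nat_lit 671748) (nat_lit 0) .nil)))))) (.g (nat_lit 4) .nil .nil))) 
(.lf (nat_lit 63399) (.g (nat_lit 2118) (.e (nat_lit 1586) (nat_lit 111) (.e (nat_lit 360486) (nat_lit 18) (.e (nat_lit 671764) (nat_lit 6) (.e (nat_lit 81943) (nat_lit 20) (.e (nat_lit 2005) (nat_lit 138) (.e (nat_lit 671748) (nat_lit 0) .nil)))))) (.g (nat_lit 0) .nil .nil)))) (.nd (nat_lit 5) 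
(.lf (nat_lit 63383) (.g (nat_lit 2790) (.e (nat_lit 1586) (nat_lit 111) (.e (nat_lit 360486) (nat_lit 18) (.e (nat_lit 671762) (nat_lit 4) (.e (nat_lit 65617) (nat_lit 10) (.e (nat_lit 344169) (nat_lit 40) (.e (nat_lit 671746) (nat_lit 0) .nil)))))) (.g (nat_lit 5) .nil .nil))) 
(.lf (nat_lit 63415) (.g (nat_lit 1531) (.e (nat_lit 1586) (nat_lit 111) (.e (nat_lit 360489) (nat_lit 21) (.e (nat_lit 770058) (nat_lit 5) (.e (nat_lit 1592) (nat_lit 111) (.e (nat_lit 360489) (nat_lit 21) (.e (nat_lit 770055) (nat_lit 5) .nil)))))) (.g (nat_lit 6) .nil .nil))))) (.nd (nat_lit 4) (.nd (nat_lit 5) 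
(.lf (nat_lit 63375) (.g (nat_lit 3325) (.e (nat_lit 1586) (nat_lit 111) (.e (nat_lit 360486) (nat_lit 18) (.e (nat_lit 671762) (nat_lit 4) (.e (nat_lit 65610) (nat_lit 10) (.e (nat_lit 344168) (nat_lit 40) (.e (nat_lit 671747) (nat_lit 0) .nil)))))) (.g (nat_lit 0) .nil .nil))) 
(.lf (nat_lit 63407) (.g (nat_lit 1011) (.e (nat_lit 1586) (nat_lit 111) (.e (nat_lit 360489) (nat_lit 21) (.e (nat_lit 770055) (nat_lit 5) (.e (nat_lit 1595) (nat_lit 111) (.e (nat_lit 360489) (nat_lit 21) .nil))))) .nil))) (.nd (nat_lit 5) 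
(.lf (nat_lit 63391) (.g (nat_lit 2398) (.e (nat_lit 1586) (nat_lit 111) (.e (nat_lit 360486) (nat_lit 18) (.e (nat_lit 671762) (nat_lit 4) (.e (nat_lit 65620) (nat_lit 10) (.e (nat_lit 344169) (nat_lit 40) (.e (nat_lit 671746) (nat_lit 0) .nil)))))) (.g (nat_lit 5) .nil .nil))) 
(.lf (nat_lit 63423) (.g (nat_lit 2215) (.e (nat_lit 1586) (nat_lit 111) (.e (nat_lit 360489) (nat_lit 21) (.e (nat_lit 770071) (nat_lit 8) (.e (nat_lit 65616) (nat_lit 10) (.e (nat_lit 344177) (nat_lit 43) (.e (nat_lit 770055) (nat_lit 5) .nil)))))) (.g (nat_lit 5) .nil .nil)))))))))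

noncomputable def tv870 : DT := (.nd (nat_lit 0) (.nd (nat_lit 1) (.nd (nat_lit 2) (.nd (nat_lit 3) (.nd (nat_lit 4) (.nd (nat_lit 5) 
(.lf (nat_lit 63424) (.g (nat_lit 2224) (.e (nat_lit 1586) (nat_lit 111) (.e (nat_lit 360489) (nat_lit 21) (.e (nat_lit 770071) (nat_lit 8) (.e (nat_lit 65616) (nat_lit 10) (.e (nat_lit 344177) (nat_lit 43) (.e (nat_lit 770057) (nat_lit 5) .nil)))))) (.g (nat_lit 6) .nil .nil))) 
(.lf (nat_lit 63456) (.g (nat_lit 1907) (.e (nat_lit 1586) (nat_lit 111) (.e (nat_lit 360491) (nat_lit 22) (.e (nat_lit 778465) (nat_lit 11) (.e (nat_lit 24640) (nat_lit 10) (.e (nat_lit 344175) (nat_lit 43) (.e (nat_lit 770055) (nat_lit 5) .nil)))))) (.g (nat_lit 5) .nil .nil)))) (.nd (nat_lit 5) 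
(.lf (nat_lit 63440) (.g (nat_lit 1364) (.e (nat_lit 1586) (nat_lit 111) (.e (nat_lit 360489) (nat_lit 21) (.e (nat_lit 770074) (nat_lit 10) (.e (nat_lit 81943) (nat_lit 20) (.e (nat_lit 2280) (nat_lit 150) (.e (nat_lit 770057) (nat_lit 5) .nil)))))) (.g (nat_lit 4) .nil .nil))) 
(.lf (nat_lit 63472) (.g (nat_lit 2782) (.e (nat_lit 1586) (nat_lit 111) (.e (nat_lit 360491) (nat_lit 22) (.e (nat_lit 778466) (nat_lit 11) (.e (nat_lit 24640) (nat_lit 10) (.e (nat_lit 344175) (nat_lit 43) (.e (nat_lit 770058) (nat_lit 5) .nil)))))) (.g (nat_lit 0) .nil .nil))))) (.nd (nat_lit 4) (.nd (nat_lit 5) 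
(.lf (nat_lit 63432) (.g (nat_lit 2299) (.e (nat_lit 1586) (nat_lit 111) (.e (nat_lit 360489) (nat_lit 21) (.e (nat_lit 770072) (nat_lit 8) (.e (nat_lit 65616) (nat_lit 10) (.e (nat_lit 344177) (nat_lit 43) (.e (nat_lit 770058) (nat_lit 5) .nil)))))) (.g (nat_lit 0) .nil .nil))) 
(.lf (nat_lit 63464) (.g (nat_lit 3129) (.e (nat_lit 1586) (nat_lit 111) (.e (nat_lit 360491) (nat_lit 22) (.e (nat_lit 778466) (nat_lit 11) (.e (nat_lit 24617) (nat_lit 7) (.e (nat_lit 319505) (nat_lit 10) (.e (nat_lit 720) (nat_lit 64) (.e (nat_lit 688151) (nat_lit 13) .nil))))))) (.g (nat_lit 6) .nil .nil)))) (.nd (nat_lit 5) 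
(.lf (nat_lit 63448) (.g (nat_lit 1971) (.e (nat_lit 1586) (nat_lit 111) (.e (nat_lit 360491) (nat_lit 22) (.e (nat_lit 778362) (nat_lit 9) (.e (nat_lit 324) (nat_lit 24) (.e (nat_lit 360489) (nat_lit 21) (.e (nat_lit 770055) (nat_lit 5) .nil)))))) (.g (nat_lit 0) .nil .nil))) 
(.lf (nat_lit 63480) (.g (nat_lit 1361) (.e (nat_lit 1586) (nat_lit 111) (.e (nat_lit 368384) (nat_lit 26) (.e (nat_lit 811029) (nat_lit 9) (.e (nat_lit 303140) (nat_lit 10) (.e (nat_lit 434241) (nat_lit 27) (.e (nat_lit 565251) (nat_lit 0) .nil)))))) (.g (nat_lit 5) .nil .nil)))))) (.nd (nat_lit 3) (.nd (nat_lit 4) (.nd (nat_lit 5) 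
(.lf (nat_lit 63428) (.g (nat_lit 2428) (.e (nat_lit 1586) (nat_lit 111) (.e (nat_lit 360489) (nat_lit 21) (.e (nat_lit 770071) (nat_lit 8) (.e (nat_lit 65619) (nat_lit 10) (.e (nat_lit 344177) (nat_lit 43) (.e (nat_lit 770057) (nat_lit 5) .nil)))))) (.g (nat_lit 5) .nil .nil))) 
(.lf (nat_lit 63460) (.g (nat_lit 3579) (.e (nat_lit 1586) (nat_lit 111) (.e (nat_lit 360491) (nat_lit 22) (.e (nat_lit 778465) (nat_lit 11) (.e (nat_lit 24665) (nat_lit 14) (.e (nat_lit 401414) (nat_lit 0) (.e (nat_lit 3459) (nat_lit 216) (.e (nat_lit 688151) (nat_lit 13) .nil))))))) (.g (nat_lit 5) .nil .nil)))) (.nd (nat_lit 5) 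
(.lf (nat_lit 63444) (.g (nat_lit 1305) (.e (nat_lit 1586) (nat_lit 111) (.e (nat_lit 360491) (nat_lit 22) (.e (nat_lit 778359) (nat_lit 9) (.e (nat_lit 324) (nat_lit 24) (.e (nat_lit 360489) (nat_lit 21) (.e (nat_lit 770055) (nat_lit 5) .nil)))))) (.g (nat_lit 6) .nil .nil))) 
(.lf (nat_lit 63476) (.g (nat_lit 1483) (.e (nat_lit 1586) (nat_lit 111) (.e (nat_lit 360491) (nat_lit 22) (.e (nat_lit 778466) (nat_lit 11) (.e (nat_lit 24641) (nat_lit 10) (.e (nat_lit 344175) (nat_lit 43) .nil))))) .nil)))) (.nd (nat_lit 4) (.nd (nat_lit 5) 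
(.lf (nat_lit 63436) (.g (nat_lit 2437) (.e (nat_lit 1586) (nat_lit 111) (.e (nat_lit 360489) (nat_lit 21) (.e (nat_lit 770074) (nat_lit 10) (.e (nat_lit 81938) (nat_lit 20) (.e (nat_lit 2281) (nat_lit 150) (.e (nat_lit 770057) (nat_lit 5) .nil)))))) (.g (nat_lit 0) .nil .nil))) 
(.lf (nat_lit 63468) (.g (nat_lit 2665) (.e (nat_lit 1586) (nat_lit 111) (.e (nat_lit 360491) (nat_lit 22) (.e (nat_lit 778466) (nat_lit 11) (.e (nat_lit 24628) (nat_lit 9) (.e (nat_lit 335878) (nat_lit 0) (.e (nat_lit 2283) (nat_lit 150) (.e (nat_lit 770058) (nat_lit 5) .nil))))))) (.g (nat_lit 6) .nil .nil)))) (.nd (nat_lit 5) 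
(.lf (nat_lit 63452) (.g (nat_lit 2375) (.e (nat_lit 1586) (nat_lit 111) (.e (nat_lit 360491) (nat_lit 22) (.e (nat_lit 778464) (nat_lit 11) (.e (nat_lit 24640) (nat_lit 10) (.e (nat_lit 344177) (nat_lit 43) (.e (nat_lit 770055) (nat_lit 5) .nil)))))) (.g (nat_lit 5) .nil .nil))) 
(.lf (nat_lit 63484) (.g (nat_lit 1546) (.e (nat_lit 1586) (nat_lit 111) (.e (nat_lit 360493) (nat_lit 27) (.e (nat_lit 819219) (nat_lit 4) (.e (nat_lit 172113) (nat_lit 10) (.e (nat_lit 434241) (nat_lit 27) (.e (nat_lit 565251) (nat_lit 0) .nil)))))) (.g (nat_lit 5) .nil .nil))))))) (.nd (nat_lit 2) (.nd (nat_lit 3) (.nd (nat_lit 4) (.nd (nat_lit 5) 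
(.lf (nat_lit 63426) (.g (nat_lit 1336) (.e (nat_lit 1586) (nat_lit 111) (.e (nat_lit 360489) (nat_lit 21) (.e (nat_lit 770071) (nat_lit 8) (.e (nat_lit 65617) (nat_lit 10) (.e (nat_lit 344175) (nat_lit 43) .nil))))) .nil)) 
(.lf (nat_lit 63458) (.g (nat_lit 2796) (.e (nat_lit 1586) (nat_lit 111) (.e (nat_lit 360491) (nat_lit 22) (.e (nat_lit 778465) (nat_lit 11) (.e (nat_lit 24640) (nat_lit 10) (.e (nat_lit 344177) (nat_lit 43) (.e (nat_lit 770055) (nat_lit 5) .nil)))))) (.g (nat_lit 6) .nil .nil)))) (.nd (nat_lit 5) 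
(.lf (nat_lit 63442) (.g (nat_lit 1966) (.e (nat_lit 1586) (nat_lit 111) (.e (nat_lit 360489) (nat_lit 21) (.e (nat_lit 770074) (nat_lit 10) (.e (nat_lit 81946) (nat_lit 20) (.e (nat_lit 2280) (nat_lit 150) (.e (nat_lit 770057) (nat_lit 5) .nil)))))) (.g (nat_lit 5) .nil .nil))) 
(.lf (nat_lit 63474) (.g (nat_lit 3096) (.e (nat_lit 1586) (nat_lit 111) (.e (nat_lit 360491) (nat_lit 22) (.e (nat_lit 778466) (nat_lit 11) (.e (nat_lit 24640) (nat_lit 10) (.e (nat_lit 344176) (nat_lit 43) (.e (nat_lit 770055) (nat_lit 5) .nil)))))) (.g (nat_lit 0) .nil .nil))))) (.nd (nat_lit 4) (.nd (nat_lit 5) 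
(.lf (nat_lit 63434) (.g (nat_lit 2399) (.e (nat_lit 1586) (nat_lit 111) (.e (nat_lit 360489) (nat_lit 21) (.e (nat_lit 770074) (nat_lit 10) (.e (nat_lit 81938) (nat_lit 20) (.e (nat_lit 2280) (nat_lit 150) (.e (nat_lit 770055) (nat_lit 5) .nil)))))) (.g (nat_lit 0) .nil .nil))) 
(.lf (nat_lit 63466) (.g (nat_lit 2608) (.e (nat_lit 1586) (nat_lit 111) (.e (nat_lit 360491) (nat_lit 22) (.e (nat_lit 778466) (nat_lit 11) (.e (nat_lit 24628) (nat_lit 9) (.e (nat_lit 335878) (nat_lit 0) (.e (nat_lit 2283) (nat_lit 150) (.e (nat_lit 770055) (nat_lit 5) .nil))))))) (.g (nat_lit 6) .nil .nil)))) (.nd (nat_lit 5) 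
(.lf (nat_lit 63450) (.g (nat_lit 1642) (.e (nat_lit 1586) (nat_lit 111) (.e (nat_lit 360491) (nat_lit 22) (.e (nat_lit 778464) (nat_lit 11) (.e (nat_lit 24640) (nat_lit 10) (.e (nat_lit 344175) (nat_lit 43) (.e (nat_lit 770057) (nat_lit 5) .nil)))))) (.g (nat_lit 4) .nil .nil))) 
(.lf (nat_lit 63482) (.g (nat_lit 1244) (.e (nat_lit 1586) (nat_lit 111) (.e (nat_lit 360493) (nat_lit 27) (.e (nat_lit 819219) (nat_lit 4) (.e (nat_lit 172107) (nat_lit 10) (.e (nat_lit 434241) (nat_lit 27) (.e (nat_lit 565251) (nat_lit 0) .nil)))))) (.g (nat_lit 5) .nil .nil)))))) (.nd (nat_lit 3) (.nd (nat_lit 4) (.nd (nat_lit 5) 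
(.lf (nat_lit 63430) (.g (nat_lit 2232) (.e (nat_lit 1586) (nat_lit 111) (.e (nat_lit 360489) (nat_lit 21) (.e (nat_lit 770072) (nat_lit 8) (.e (nat_lit 65616) (nat_lit 10) (.e (nat_lit 344177) (nat_lit 43) (.e (nat_lit 770055) (nat_lit 5) .nil)))))) (.g (nat_lit 6) .nil .nil))) 
(.lf (nat_lit 63462) (.g (nat_lit 2704) (.e (nat_lit 1586) (nat_lit 111) (.e (nat_lit 360491) (nat_lit 22) (.e (nat_lit 778466) (nat_lit 11) (.e (nat_lit 24617) (nat_lit 7) (.e (nat_lit 319504) (nat_lit 10) (.e (nat_lit 726) (nat_lit 65) (.e (nat_lit 696349) (nat_lit 13) .nil))))))) (.g (nat_lit 5) .nil .nil)))) (.nd (nat_lit 5) 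
(.lf (nat_lit 63446) (.g (nat_lit 1789) (.e (nat_lit 1586) (nat_lit 111) (.e (nat_lit 360491) (nat_lit 22) (.e (nat_lit 778362) (nat_lit 9) (.e (nat_lit 314) (nat_lit 23) (.e (nat_lit 352291) (nat_lit 20) .nil))))) .nil)) 
(.lf (nat_lit 63478) (.g (nat_lit 1961) (.e (nat_lit 1586) (nat_lit 111) (.e (nat_lit 360491) (nat_lit 22) (.e (nat_lit 778466) (nat_lit 11) (.e (nat_lit 24641) (nat_lit 10) (.e (nat_lit 344175) (nat_lit 43) (.e (nat_lit 770058) (nat_lit 5) .nil)))))) (.g (nat_lit 4) .nil .nil))))) (.nd (nat_lit 4) (.nd (nat_lit 5) 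
(.lf (nat_lit 63438) (.g (nat_lit 691) (.e (nat_lit 1586) (nat_lit 111) (.e (nat_lit 360489) (nat_lit 21) (.e (nat_lit 770074) (nat_lit 10) (.e (nat_lit 81942) (nat_lit 20) .nil)))) .nil)) 
(.lf (nat_lit 63470) (.g (nat_lit 2590) (.e (nat_lit 1586) (nat_lit 111) (.e (nat_lit 360491) (nat_lit 22) (.e (nat_lit 778466) (nat_lit 11) (.e (nat_lit 24639) (nat_lit 10) (.e (nat_lit 344177) (nat_lit 43) (.e (nat_lit 770057) (nat_lit 5) .nil)))))) (.g (nat_lit 6) .nil .nil)))) (.nd (nat_lit 5) 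
(.lf (nat_lit 63454) (.g (nat_lit 2661) (.e (nat_lit 1586) (nat_lit 111) (.e (nat_lit 360491) (nat_lit 22) (.e (nat_lit 778465) (nat_lit 11) (.e (nat_lit 24639) (nat_lit 10) (.e (nat_lit 344177) (nat_lit 43) (.e (nat_lit 770055) (nat_lit 5) .nil)))))) (.g (nat_lit 6) .nil .nil))) 
(.lf (nat_lit 63486) (.g (nat_lit 1280) (.e (nat_lit 1586) (nat_lit 111) (.e (nat_lit 360493) (nat_lit 27) (.e (nat_lit 819219) (nat_lit 4) (.e (nat_lit 172116) (nat_lit 10) (.e (nat_lit 434241) (nat_lit 27) (.e (nat_lit 565251) (nat_lit 0) .nil)))))) (.g (nat_lit 5) .nil .nil)))))))) (.nd (nat_lit 1) (.nd (nat_lit 2) (.nd (nat_lit 3) (.nd (nat_lit 4) (.nd (nat_lit 5) 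
(.lf (nat_lit 63425) (.g (nat_lit 2264) (.e (nat_lit 1586) (nat_lit 111) (.e (nat_lit 360489) (nat_lit 21) (.e (nat_lit 770071) (nat_lit 8) (.e (nat_lit 65616) (nat_lit 10) (.e (nat_lit 344177) (nat_lit 43) (.e (nat_lit 770058) (nat_lit 5) .nil)))))) (.g (nat_lit 6) .nil .nil))) 
(.lf (nat_lit 63457) (.g (nat_lit 1890) (.e (nat_lit 1586) (nat_lit 111) (.e (nat_lit 360491) (nat_lit 22) (.e (nat_lit 778465) (nat_lit 11) (.e (nat_lit 24640) (nat_lit 10) (.e (nat_lit 344175) (nat_lit 43) (.e (nat_lit 770057) (nat_lit 5) .nil)))))) (.g (nat_lit 5) .nil .nil)))) (.nd (nat_lit 5) 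
(.lf (nat_lit 63441) (.g (nat_lit 2175) (.e (nat_lit 1586) (nat_lit 111) (.e (nat_lit 360489) (nat_lit 21) (.e (nat_lit 770074) (nat_lit 10) (.e (nat_lit 81946) (nat_lit 20) (.e (nat_lit 2280) (nat_lit 150) (.e (nat_lit 770055) (nat_lit 5) .nil)))))) (.g (nat_lit 5) .nil .nil))) 
(.lf (nat_lit 63473) (.g (nat_lit 2950) (.e (nat_lit 1586) (nat_lit 111) (.e (nat_lit 360491) (nat_lit 22) (.e (nat_lit 778466) (nat_lit 11) (.e (nat_lit 24640) (nat_lit 10) (.e (nat_lit 344176) (nat_lit 43) (.e (nat_lit 770054) (nat_lit 5) .nil)))))) (.g (nat_lit 0) .nil .nil))))) (.nd (nat_lit 4) (.nd (nat_lit 5) 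
(.lf (nat_lit 63433) (.g (nat_lit 1335) (.e (nat_lit 1586) (nat_lit 111) (.e (nat_lit 360489) (nat_lit 21) (.e (nat_lit 770072) (nat_lit 8) (.e (nat_lit 65617) (nat_lit 10) (.e (nat_lit 344175) (nat_lit 43) .nil))))) .nil)) 
(.lf (nat_lit 63465) (.g (nat_lit 2493) (.e (nat_lit 1586) (nat_lit 111) (.e (nat_lit 360491) (nat_lit 22) (.e (nat_lit 778466) (nat_lit 11) (.e (nat_lit 24617) (nat_lit 7) (.e (nat_lit 319505) (nat_lit 10) (.e (nat_lit 726) (nat_lit 65) (.e (nat_lit 696349) (nat_lit 13) .nil))))))) (.g (nat_lit 5) .nil .nil)))) (.nd (nat_lit 5) 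
(.lf (nat_lit 63449) (.g (nat_lit 1681) (.e (nat_lit 1586) (nat_lit 111) (.e (nat_lit 360491) (nat_lit 22) (.e (nat_lit 778464) (nat_lit 11) (.e (nat_lit 24640) (nat_lit 10) (.e (nat_lit 344175) (nat_lit 43) (.e (nat_lit 770055) (nat_lit 5) .nil)))))) (.g (nat_lit 4) .nil .nil))) 
(.lf (nat_lit 63481) (.g (nat_lit 1804) (.e (nat_lit 1586) (nat_lit 111) (.e (nat_lit 360493) (nat_lit 27) (.e (nat_lit 819219) (nat_lit 4) (.e (nat_lit 172106) (nat_lit 10) (.e (nat_lit 434241) (nat_lit 27) (.e (nat_lit 565251) (nat_lit 0) .nil)))))) (.g (nat_lit 0) .nil .nil)))))) (.nd (nat_lit 3) (.nd (nat_lit 4) (.nd (nat_lit 5) 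
(.lf (nat_lit 63429) (.g (nat_lit 2732) (.e (nat_lit 1586) (nat_lit 111) (.e (nat_lit 360489) (nat_lit 21) (.e (nat_lit 770071) (nat_lit 8) (.e (nat_lit 65619) (nat_lit 10) (.e (nat_lit 344177) (nat_lit 43) (.e (nat_lit 770058) (nat_lit 5) .nil)))))) (.g (nat_lit 6) .nil .nil))) 
(.lf (nat_lit 63461) (.g (nat_lit 3182) (.e (nat_lit 1586) (nat_lit 111) (.e (nat_lit 360491) (nat_lit 22) (.e (nat_lit 778465) (nat_lit 11) (.e (nat_lit 24665) (nat_lit 14) (.e (nat_lit 401414) (nat_lit 0) (.e (nat_lit 3468) (nat_lit 217) (.e (nat_lit 696350) (nat_lit 13) .nil))))))) (.g (nat_lit 5) .nil .nil)))) (.nd (nat_lit 5) 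
(.lf (nat_lit 63445) (.g (nat_lit 1822) (.e (nat_lit 1586) (nat_lit 111) (.e (nat_lit 360491) (nat_lit 22) (.e (nat_lit 778361) (nat_lit 9) (.e (nat_lit 324) (nat_lit 24) (.e (nat_lit 360489) (nat_lit 21) (.e (nat_lit 770055) (nat_lit 5) .nil)))))) (.g (nat_lit 0) .nil .nil))) 
(.lf (nat_lit 63477) (.g (nat_lit 1502) (.e (nat_lit 1586) (nat_lit 111) (.e (nat_lit 360491) (nat_lit 22) (.e (nat_lit 778466) (nat_lit 11) (.e (nat_lit 24641) (nat_lit 10) (.e (nat_lit 344175) (nat_lit 43) (.e (nat_lit 770055) (nat_lit 5) .nil)))))) (.g (nat_lit 4) .nil .nil))))) (.nd (nat_lit 4) (.nd (nat_lit 5) 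
(.lf (nat_lit 63437) (.g (nat_lit 2040) (.e (nat_lit 1586) (nat_lit 111) (.e (nat_lit 360489) (nat_lit 21) (.e (nat_lit 770074) (nat_lit 10) (.e (nat_lit 81939) (nat_lit 20) (.e (nat_lit 2281) (nat_lit 150) (.e (nat_lit 770057) (nat_lit 5) .nil)))))) (.g (nat_lit 0) .nil .nil))) 
(.lf (nat_lit 63469) (.g (nat_lit 2572) (.e (nat_lit 1586) (nat_lit 111) (.e (nat_lit 360491) (nat_lit 22) (.e (nat_lit 778466) (nat_lit 11) (.e (nat_lit 24639) (nat_lit 10) (.e (nat_lit 344177) (nat_lit 43) (.e (nat_lit 770055) (nat_lit 5) .nil)))))) (.g (nat_lit 6) .nil .nil)))) (.nd (nat_lit 5) 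
(.lf (nat_lit 63453) (.g (nat_lit 2483) (.e (nat_lit 1586) (nat_lit 111) (.e (nat_lit 360491) (nat_lit 22) (.e (nat_lit 778464) (nat_lit 11) (.e (nat_lit 24640) (nat_lit 10) (.e (nat_lit 344177) (nat_lit 43) (.e (nat_lit 770058) (nat_lit 5) .nil)))))) (.g (nat_lit 6) .nil .nil))) 
(.lf (nat_lit 63485) (.g (nat_lit 1619) (.e (nat_lit 1586) (nat_lit 111) (.e (nat_lit 360493) (nat_lit 27) (.e (nat_lit 819219) (nat_lit 4) (.e (nat_lit 172115) (nat_lit 10) (.e (nat_lit 434241) (nat_lit 27) (.e (nat_lit 565251) (nat_lit 0) .nil)))))) (.g (nat_lit 5) .nil .nil))))))) (.nd (nat_lit 2) (.nd (nat_lit 3) (.nd (nat_lit 4) (.nd (nat_lit 5) 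
(.lf (nat_lit 63427) (.g (nat_lit 2435) (.e (nat_lit 1586) (nat_lit 111) (.e (nat_lit 360489) (nat_lit 21) (.e (nat_lit 770071) (nat_lit 8) (.e (nat_lit 65619) (nat_lit 10) (.e (nat_lit 344177) (nat_lit 43) (.e (nat_lit 770055) (nat_lit 5) .nil)))))) (.g (nat_lit 5) .nil .nil))) 
(.lf (nat_lit 63459) (.g (nat_lit 3508) (.e (nat_lit 1586) (nat_lit 111) (.e (nat_lit 360491) (nat_lit 22) (.e (nat_lit 778465) (nat_lit 11) (.e (nat_lit 24665) (nat_lit 14) (.e (nat_lit 401414) (nat_lit 0) (.e (nat_lit 3459) (nat_lit 216) (.e (nat_lit 688144) (nat_lit 13) .nil))))))) (.g (nat_lit 5) .nil .nil)))) (.nd (nat_lit 5) 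
(.lf (nat_lit 63443) (.g (nat_lit 2480) (.e (nat_lit 1586) (nat_lit 111) (.e (nat_lit 360489) (nat_lit 21) (.e (nat_lit 770074) (nat_lit 10) (.e (nat_lit 81947) (nat_lit 20) (.e (nat_lit 2281) (nat_lit 150) (.e (nat_lit 770057) (nat_lit 5) .nil)))))) (.g (nat_lit 0) .nil .nil))) 
(.lf (nat_lit 63475) (.g (nat_lit 2947) (.e (nat_lit 1586) (nat_lit 111) (.e (nat_lit 360491) (nat_lit 22) (.e (nat_lit 778466) (nat_lit 11) (.e (nat_lit 24640) (nat_lit 10) (.e (nat_lit 344177) (nat_lit 43) (.e (nat_lit 770055) (nat_lit 5) .nil)))))) (.g (nat_lit 0) .nil .nil))))) (.nd (nat_lit 4) (.nd (nat_lit 5) 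
(.lf (nat_lit 63435) (.g (nat_lit 2218) (.e (nat_lit 1586) (nat_lit 111) (.e (nat_lit 360489) (nat_lit 21) (.e (nat_lit 770074) (nat_lit 10) (.e (nat_lit 81938) (nat_lit 20) (.e (nat_lit 2280) (nat_lit 150) (.e (nat_lit 770057) (nat_lit 5) .nil)))))) (.g (nat_lit 6) .nil .nil))) 
(.lf (nat_lit 63467) (.g (nat_lit 2797) (.e (nat_lit 1586) (nat_lit 111) (.e (nat_lit 360491) (nat_lit 22) (.e (nat_lit 778466) (nat_lit 11) (.e (nat_lit 24628) (nat_lit 9) (.e (nat_lit 335878) (nat_lit 0) (.e (nat_lit 2283) (nat_lit 150) (.e (nat_lit 770057) (nat_lit 5) .nil))))))) (.g (nat_lit 7) .nil .nil)))) (.nd (nat_lit 5) 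
(.lf (nat_lit 63451) (.g (nat_lit 1989) (.e (nat_lit 1586) (nat_lit 111) (.e (nat_lit 360491) (nat_lit 22) (.e (nat_lit 778464) (nat_lit 11) (.e (nat_lit 24640) (nat_lit 10) (.e (nat_lit 344175) (nat_lit 43) (.e (nat_lit 770058) (nat_lit 5) .nil)))))) (.g (nat_lit 5) .nil .nil))) 
(.lf (nat_lit 63483) (.g (nat_lit 1132) (.e (nat_lit 1586) (nat_lit 111) (.e (nat_lit 360493) (nat_lit 27) (.e (nat_lit 819219) (nat_lit 4) (.e (nat_lit 172112) (nat_lit 10) (.e (nat_lit 434241) (nat_lit 27) (.e (nat_lit 565251) (nat_lit 0) .nil)))))) (.g (nat_lit 5) .nil .nil)))))) (.nd (nat_lit 3) (.nd (nat_lit 4) (.nd (nat_lit 5) 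
(.lf (nat_lit 63431) (.g (nat_lit 2292) (.e (nat_lit 1586) (nat_lit 111) (.e (nat_lit 360489) (nat_lit 21) (.e (nat_lit 770072) (nat_lit 8) (.e (nat_lit 65616) (nat_lit 10) (.e (nat_lit 344177) (nat_lit 43) (.e (nat_lit 770057) (nat_lit 5) .nil)))))) (.g (nat_lit 6) .nil .nil))) 
(.lf (nat_lit 63463) (.g (nat_lit 3211) (.e (nat_lit 1586) (nat_lit 111) (.e (nat_lit 360491) (nat_lit 22) (.e (nat_lit 778466) (nat_lit 11) (.e (nat_lit 24617) (nat_lit 7) (.e (nat_lit 319505) (nat_lit 10) (.e (nat_lit 720) (nat_lit 64) (.e (nat_lit 688145) (nat_lit 13) .nil))))))) (.g (nat_lit 6) .nil .nil)))) (.nd (nat_lit 5) 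
(.lf (nat_lit 63447) (.g (nat_lit 1322) (.e (nat_lit 1586) (nat_lit 111) (.e (nat_lit 360491) (nat_lit 22) (.e (nat_lit 778362) (nat_lit 9) (.e (nat_lit 314) (nat_lit 23) (.e (nat_lit 352297) (nat_lit 20) .nil))))) .nil)) 
(.lf (nat_lit 63479) (.g (nat_lit 2602) (.e (nat_lit 1586) (nat_lit 111) (.e (nat_lit 360491) (nat_lit 22) (.e (nat_lit 778466) (nat_lit 11) (.e (nat_lit 24641) (nat_lit 10) (.e (nat_lit 344177) (nat_lit 43) (.e (nat_lit 770055) (nat_lit 5) .nil)))))) (.g (nat_lit 6) .nil .nil))))) (.nd (nat_lit 4) (.nd (nat_lit 5) 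
(.lf (nat_lit 63439) (.g (nat_lit 1905) (.e (nat_lit 1586) (nat_lit 111) (.e (nat_lit 360489) (nat_lit 21) (.e (nat_lit 770074) (nat_lit 10) (.e (nat_lit 81942) (nat_lit 20) (.e (nat_lit 2280) (nat_lit 150) (.e (nat_lit 770057) (nat_lit 5) .nil)))))) (.g (nat_lit 6) .nil .nil))) 
(.lf (nat_lit 63471) (.g (nat_lit 1403) (.e (nat_lit 1586) (nat_lit 111) (.e (nat_lit 360491) (nat_lit 22) (.e (nat_lit 778466) (nat_lit 11) (.e (nat_lit 24640) (nat_lit 10) (.e (nat_lit 344088) (nat_lit 18) (.e (nat_lit 7223) (nat_lit 382) (.e (nat_lit 1011) (nat_lit 81) .nil))))))) (.g (nat_lit 4) .nil .nil)))) (.nd (nat_lit 5) 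
(.lf (nat_lit 63455) (.g (nat_lit 2704) (.e (nat_lit 1586) (nat_lit 111) (.e (nat_lit 360491) (nat_lit 22) (.e (nat_lit 778465) (nat_lit 11) (.e (nat_lit 24639) (nat_lit 10) (.e (nat_lit 344177) (nat_lit 43) (.e (nat_lit 770057) (nat_lit 5) .nil)))))) (.g (nat_lit 6) .nil .nil))) 
(.lf (nat_lit 63487) (.g (nat_lit 1110) (.e (nat_lit 1586) (nat_lit 111) (.e (nat_lit 360493) (nat_lit 27) (.e (nat_lit 819221) (nat_lit 6) (.e (nat_lit 188439) (nat_lit 20) (.e (nat_lit 3288) (nat_lit 201) (.e (nat_lit 565252) (nat_lit 0) .nil)))))) (.g (nat_lit 6) .nil .nil)))))))))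

noncomputable def tv871 : DT := (.nd (nat_lit 0) (.nd (nat_lit 1) (.nd (nat_lit 2) (.nd (nat_lit 3) (.nd (nat_lit 4) (.nd (nat_lit 5) 
(.lf (nat_lit 63488) (.g (nat_lit 1099) (.e (nat_lit 1586) (nat_lit 111) (.e (nat_lit 360493) (nat_lit 27) (.e (nat_lit 819221) (nat_lit 6) (.e (nat_lit 188439) (nat_lit 20) (.e (nat_lit 3289) (nat_lit 201) (.e (nat_lit 565251) (nat_lit 0) .nil)))))) (.g (nat_lit 6) .nil .nil))) 
(.lf (nat_lit 63520) (.g (nat_lit 1889) (.e (nat_lit 1587) (nat_lit 111) (.e (nat_lit 360474) (nat_lit 8) (.e (nat_lit 557093) (nat_lit 12) (.e (nat_lit 164022) (nat_lit 46) (.e (nat_lit 704738) (nat_lit 11) .nil))))) .nil))) (.nd (nat_lit 5) 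
(.lf (nat_lit 63504) (.g (nat_lit 1882) (.e (nat_lit 1587) (nat_lit 111) (.e (nat_lit 360474) (nat_lit 8) (.e (nat_lit 557093) (nat_lit 12) (.e (nat_lit 164022) (nat_lit 46) (.e (nat_lit 704626) (nat_lit 9) .nil))))) .nil)) 
(.lf (nat_lit 63536) (.g (nat_lit 3317) (.e (nat_lit 1587) (nat_lit 111) (.e (nat_lit 360474) (nat_lit 8) (.e (nat_lit 557093) (nat_lit 12) (.e (nat_lit 164022) (nat_lit 46) (.e (nat_lit 704738) (nat_lit 11) (.e (nat_lit 16411) (nat_lit 2) (.e (nat_lit 196617) (nat_lit 9) .nil))))))) (.g (nat_lit 6) .nil .nil))))) (.nd (nat_lit 4) (.nd (nat_lit 5) 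
(.lf (nat_lit 63496) (.g (nat_lit 1245) (.e (nat_lit 1587) (nat_lit 111) (.e (nat_lit 360474) (nat_lit 8) (.e (nat_lit 557090) (nat_lit 12) .nil))) .nil)) 
(.lf (nat_lit 63528) (.g (nat_lit 2063) (.e (nat_lit 1587) (nat_lit 111) (.e (nat_lit 360474) (nat_lit 8) (.e (nat_lit 557093) (nat_lit 12) (.e (nat_lit 164022) (nat_lit 46) (.e (nat_lit 704738) (nat_lit 11) (.e (nat_lit 16397) (nat_lit 0) (.e (nat_lit 3146) (nat_lit 193) (.e (nat_lit 499990) (nat_lit 14) .nil)))))))) (.g (nat_lit 4) .nil .nil)))) (.nd (nat_lit 5) 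
(.lf (nat_lit 63512) (.g (nat_lit 3079) (.e (nat_lit 1587) (nat_lit 111) (.e (nat_lit 360474) (nat_lit 8) (.e (nat_lit 557093) (nat_lit 12) (.e (nat_lit 164022) (nat_lit 46) (.e (nat_lit 704737) (nat_lit 11) (.e (nat_lit 16411) (nat_lit 2) (.e (nat_lit 196617) (nat_lit 9) .nil))))))) (.g (nat_lit 5) .nil .nil))) 
(.lf (nat_lit 63544) (.g (nat_lit 1626) (.e (nat_lit 1587) (nat_lit 111) (.e (nat_lit 360474) (nat_lit 8) (.e (nat_lit 557093) (nat_lit 12) (.e (nat_lit 164023) (nat_lit 46) .nil)))) .nil))))) (.nd (nat_lit 3) (.nd (nat_lit 4) (.nd (nat_lit 5) 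
(.lf (nat_lit 63492) (.g (nat_lit 1343) (.e (nat_lit 1587) (nat_lit 111) (.e (nat_lit 360451) (nat_lit 0) (.e (nat_lit 7265) (nat_lit 384) (.e (nat_lit 57427) (nat_lit 15) .nil)))) .nil)) 
(.lf (nat_lit 63524) (.g (nat_lit 2051) (.e (nat_lit 1587) (nat_lit 111) (.e (nat_lit 360474) (nat_lit 8) (.e (nat_lit 557093) (nat_lit 12) (.e (nat_lit 164022) (nat_lit 46) (.e (nat_lit 704738) (nat_lit 11) (.e (nat_lit 16397) (nat_lit 0) (.e (nat_lit 3146) (nat_lit 193) (.e (nat_lit 499978) (nat_lit 14) .nil)))))))) (.g (nat_lit 4) .nil .nil)))) (.nd (nat_lit 5) 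
(.lf (nat_lit 63508) (.g (nat_lit 2149) (.e (nat_lit 1587) (nat_lit 111) (.e (nat_lit 360474) (nat_lit 8) (.e (nat_lit 557093) (nat_lit 12) (.e (nat_lit 164022) (nat_lit 46) (.e (nat_lit 704737) (nat_lit 11) .nil))))) .nil)) 
(.lf (nat_lit 63540) (.g (nat_lit 3607) (.e (nat_lit 1587) (nat_lit 111) (.e (nat_lit 360474) (nat_lit 8) (.e (nat_lit 557093) (nat_lit 12) (.e (nat_lit 164022) (nat_lit 46) (.e (nat_lit 704738) (nat_lit 11) (.e (nat_lit 16411) (nat_lit 2) (.e (nat_lit 196635) (nat_lit 9) .nil))))))) (.g (nat_lit 0) .nil .nil))))) (.nd (nat_lit 4) (.nd (nat_lit 5) 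
(.lf (nat_lit 63500) (.g (nat_lit 2888) (.e (nat_lit 1587) (nat_lit 111) (.e (nat_lit 360474) (nat_lit 8) (.e (nat_lit 557091) (nat_lit 12) (.e (nat_lit 164020) (nat_lit 45) (.e (nat_lit 696344) (nat_lit 8) (.e (nat_lit 172073) (nat_lit 5) (.e (nat_lit 245782) (nat_lit 9) .nil))))))) (.g (nat_lit 4) .nil .nil))) 
(.lf (nat_lit 63532) (.g (nat_lit 2986) (.e (nat_lit 1587) (nat_lit 111) (.e (nat_lit 360474) (nat_lit 8) (.e (nat_lit 557093) (nat_lit 12) (.e (nat_lit 164022) (nat_lit 46) (.e (nat_lit 704738) (nat_lit 11) (.e (nat_lit 16410) (nat_lit 2) (.e (nat_lit 196631) (nat_lit 9) .nil))))))) (.g (nat_lit 5) .nil .nil)))) (.nd (nat_lit 5) 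
(.lf (nat_lit 63516) (.g (nat_lit 2496) (.e (nat_lit 1587) (nat_lit 111) (.e (nat_lit 360474) (nat_lit 8) (.e (nat_lit 557093) (nat_lit 12) (.e (nat_lit 164022) (nat_lit 46) (.e (nat_lit 704737) (nat_lit 11) (.e (nat_lit 16411) (nat_lit 2) (.e (nat_lit 196636) (nat_lit 9) .nil))))))) (.g (nat_lit 4) .nil .nil))) 
(.lf (nat_lit 63548) (.g (nat_lit 2129) (.e (nat_lit 1587) (nat_lit 111) (.e (nat_lit 360474) (nat_lit 8) (.e (nat_lit 557093) (nat_lit 12) (.e (nat_lit 164023) (nat_lit 46) (.e (nat_lit 704738) (nat_lit 11) .nil))))) .nil)))))) (.nd (nat_lit 2) (.nd (nat_lit 3) (.nd (nat_lit 4) (.nd (nat_lit 5) 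
(.lf (nat_lit 63490) (.g (nat_lit 1524) (.e (nat_lit 1587) (nat_lit 111) (.e (nat_lit 360451) (nat_lit 0) (.e (nat_lit 7125) (nat_lit 382) (.e (nat_lit 1201) (nat_lit 88) .nil)))) .nil)) 
(.lf (nat_lit 63522) (.g (nat_lit 2050) (.e (nat_lit 1587) (nat_lit 111) (.e (nat_lit 360474) (nat_lit 8) (.e (nat_lit 557093) (nat_lit 12) (.e (nat_lit 164022) (nat_lit 46) (.e (nat_lit 704738) (nat_lit 11) (.e (nat_lit 16397) (nat_lit 0) (.e (nat_lit 3146) (nat_lit 193) (.e (nat_lit 499975) (nat_lit 14) .nil)))))))) (.g (nat_lit 4) .nil .nil)))) (.nd (nat_lit 5) 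
(.lf (nat_lit 63506) (.g (nat_lit 1958) (.e (nat_lit 1587) (nat_lit 111) (.e (nat_lit 360474) (nat_lit 8) (.e (nat_lit 557093) (nat_lit 12) (.e (nat_lit 164022) (nat_lit 46) (.e (nat_lit 704736) (nat_lit 11) .nil))))) .nil)) 
(.lf (nat_lit 63538) (.g (nat_lit 3381) (.e (nat_lit 1587) (nat_lit 111) (.e (nat_lit 360474) (nat_lit 8) (.e (nat_lit 557093) (nat_lit 12) (.e (nat_lit 164022) (nat_lit 46) (.e (nat_lit 704738) (nat_lit 11) (.e (nat_lit 16411) (nat_lit 2) (.e (nat_lit 196632) (nat_lit 9) .nil))))))) (.g (nat_lit 6) .nil .nil))))) (.nd (nat_lit 4) (.nd (nat_lit 5) 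
(.lf (nat_lit 63498) (.g (nat_lit 1787) (.e (nat_lit 1587) (nat_lit 111) (.e (nat_lit 360474) (nat_lit 8) (.e (nat_lit 557091) (nat_lit 12) (.e (nat_lit 163999) (nat_lit 38) .nil)))) .nil)) 
(.lf (nat_lit 63530) (.g (nat_lit 2105) (.e (nat_lit 1587) (nat_lit 111) (.e (nat_lit 360474) (nat_lit 8) (.e (nat_lit 557093) (nat_lit 12) (.e (nat_lit 164022) (nat_lit 46) (.e (nat_lit 704738) (nat_lit 11) (.e (nat_lit 16397) (nat_lit 0) (.e (nat_lit 3146) (nat_lit 193) (.e (nat_lit 499993) (nat_lit 14) .nil)))))))) (.g (nat_lit 4) .nil .nil)))) (.nd (nat_lit 5) 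
(.lf (nat_lit 63514) (.g (nat_lit 3135) (.e (nat_lit 1587) (nat_lit 111) (.e (nat_lit 360474) (nat_lit 8) (.e (nat_lit 557093) (nat_lit 12) (.e (nat_lit 164022) (nat_lit 46) (.e (nat_lit 704737) (nat_lit 11) (.e (nat_lit 16411) (nat_lit 2) (.e (nat_lit 196632) (nat_lit 9) .nil))))))) (.g (nat_lit 5) .nil .nil))) 
(.lf (nat_lit 63546) (.g (nat_lit 2530) (.e (nat_lit 1587) (nat_lit 111) (.e (nat_lit 360474) (nat_lit 8) (.e (nat_lit 557093) (nat_lit 12) (.e (nat_lit 164023) (nat_lit 46) (.e (nat_lit 704737) (nat_lit 11) .nil))))) .nil))))) (.nd (nat_lit 3) (.nd (nat_lit 4) (.nd (nat_lit 5) 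
(.lf (nat_lit 63494) (.g (nat_lit 3289) (.e (nat_lit 1587) (nat_lit 111) (.e (nat_lit 360472) (nat_lit 8) (.e (nat_lit 557090) (nat_lit 12) (.e (nat_lit 164020) (nat_lit 45) (.e (nat_lit 696343) (nat_lit 8) .nil))))) .nil)) 
(.lf (nat_lit 63526) (.g (nat_lit 2020) (.e (nat_lit 1587) (nat_lit 111) (.e (nat_lit 360474) (nat_lit 8) (.e (nat_lit 557093) (nat_lit 12) (.e (nat_lit 164022) (nat_lit 46) (.e (nat_lit 704738) (nat_lit 11) (.e (nat_lit 16397) (nat_lit 0) (.e (nat_lit 3146) (nat_lit 193) (.e (nat_lit 499981) (nat_lit 14) .nil)))))))) (.g (nat_lit 4) .nil .nil)))) (.nd (nat_lit 5) 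
(.lf (nat_lit 63510) (.g (nat_lit 2541) (.e (nat_lit 1587) (nat_lit 111) (.e (nat_lit 360474) (nat_lit 8) (.e (nat_lit 557093) (nat_lit 12) (.e (nat_lit 164022) (nat_lit 46) (.e (nat_lit 704737) (nat_lit 11) (.e (nat_lit 16410) (nat_lit 2) (.e (nat_lit 196632) (nat_lit 9) .nil))))))) (.g (nat_lit 4) .nil .nil))) 
(.lf (nat_lit 63542) (.g (nat_lit 3189) (.e (nat_lit 1587) (nat_lit 111) (.e (nat_lit 360474) (nat_lit 8) (.e (nat_lit 557093) (nat_lit 12) (.e (nat_lit 164022) (nat_lit 46) (.e (nat_lit 704738) (nat_lit 11) (.e (nat_lit 16411) (nat_lit 2) (.e (nat_lit 196643) (nat_lit 9) .nil))))))) (.g (nat_lit 6) .nil .nil))))) (.nd (nat_lit 4) (.nd (nat_lit 5) 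
(.lf (nat_lit 63502) (.g (nat_lit 482) (.e (nat_lit 1587) (nat_lit 111) (.e (nat_lit 360474) (nat_lit 8) (.e (nat_lit 557093) (nat_lit 12) .nil))) .nil)) 
(.lf (nat_lit 63534) (.g (nat_lit 2026) (.e (nat_lit 1587) (nat_lit 111) (.e (nat_lit 360474) (nat_lit 8) (.e (nat_lit 557093) (nat_lit 12) (.e (nat_lit 164022) (nat_lit 46) (.e (nat_lit 704738) (nat_lit 11) (.e (nat_lit 16410) (nat_lit 2) (.e (nat_lit 196638) (nat_lit 9) .nil))))))) (.g (nat_lit 4) .nil .nil)))) (.nd (nat_lit 5) 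
(.lf (nat_lit 63518) (.g (nat_lit 2349) (.e (nat_lit 1587) (nat_lit 111) (.e (nat_lit 360474) (nat_lit 8) (.e (nat_lit 557093) (nat_lit 12) (.e (nat_lit 164022) (nat_lit 46) (.e (nat_lit 704737) (nat_lit 11) (.e (nat_lit 16411) (nat_lit 2) (.e (nat_lit 196639) (nat_lit 9) .nil))))))) (.g (nat_lit 4) .nil .nil))) 
(.lf (nat_lit 63550) (.g (nat_lit 1760) (.e (nat_lit 1587) (nat_lit 111) (.e (nat_lit 360474) (nat_lit 8) (.e (nat_lit 557094) (nat_lit 12) (.e (nat_lit 164022) (nat_lit 46) (.e (nat_lit 704736) (nat_lit 11) .nil))))) .nil))))))) (.nd (nat_lit 1) (.nd (nat_lit 2) (.nd (nat_lit 3) (.nd (nat_lit 4) (.nd (nat_lit 5) 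
(.lf (nat_lit 63489) (.g (nat_lit 969) (.e (nat_lit 1586) (nat_lit 111) (.e (nat_lit 360493) (nat_lit 27) (.e (nat_lit 819221) (nat_lit 6) (.e (nat_lit 188440) (nat_lit 20) (.e (nat_lit 3288) (nat_lit 201) (.e (nat_lit 565252) (nat_lit 0) .nil)))))) (.g (nat_lit 4) .nil .nil))) 
(.lf (nat_lit 63521) (.g (nat_lit 2133) (.e (nat_lit 1587) (nat_lit 111) (.e (nat_lit 360474) (nat_lit 8) (.e (nat_lit 557093) (nat_lit 12) (.e (nat_lit 164022) (nat_lit 46) (.e (nat_lit 704738) (nat_lit 11) (.e (nat_lit 16397) (nat_lit 0) (.e (nat_lit 3146) (nat_lit 193) (.e (nat_lit 499974) (nat_lit 14) .nil)))))))) (.g (nat_lit 4) .nil .nil)))) (.nd (nat_lit 5) 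
(.lf (nat_lit 63505) (.g (nat_lit 2006) (.e (nat_lit 1587) (nat_lit 111) (.e (nat_lit 360474) (nat_lit 8) (.e (nat_lit 557093) (nat_lit 12) (.e (nat_lit 164022) (nat_lit 46) (.e (nat_lit 704628) (nat_lit 9) .nil))))) .nil)) 
(.lf (nat_lit 63537) (.g (nat_lit 3099) (.e (nat_lit 1587) (nat_lit 111) (.e (nat_lit 360474) (nat_lit 8) (.e (nat_lit 557093) (nat_lit 12) (.e (nat_lit 164022) (nat_lit 46) (.e (nat_lit 704738) (nat_lit 11) (.e (nat_lit 16411) (nat_lit 2) (.e (nat_lit 196631) (nat_lit 9) .nil))))))) (.g (nat_lit 5) .nil .nil))))) (.nd (nat_lit 4) (.nd (nat_lit 5) 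
(.lf (nat_lit 63497) (.g (nat_lit 558) (.e (nat_lit 1587) (nat_lit 111) (.e (nat_lit 360474) (nat_lit 8) (.e (nat_lit 557091) (nat_lit 12) .nil))) .nil)) 
(.lf (nat_lit 63529) (.g (nat_lit 1944) (.e (nat_lit 1587) (nat_lit 111) (.e (nat_lit 360474) (nat_lit 8) (.e (nat_lit 557093) (nat_lit 12) (.e (nat_lit 164022) (nat_lit 46) (.e (nat_lit 704738) (nat_lit 11) (.e (nat_lit 16397) (nat_lit 0) (.e (nat_lit 3146) (nat_lit 193) (.e (nat_lit 499992) (nat_lit 14) .nil)))))))) (.g (nat_lit 4) .nil .nil)))) (.nd (nat_lit 5) 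
(.lf (nat_lit 63513) (.g (nat_lit 2912) (.e (nat_lit 1587) (nat_lit 111) (.e (nat_lit 360474) (nat_lit 8) (.e (nat_lit 557093) (nat_lit 12) (.e (nat_lit 164022) (nat_lit 46) (.e (nat_lit 704737) (nat_lit 11) (.e (nat_lit 16411) (nat_lit 2) (.e (nat_lit 196631) (nat_lit 9) .nil))))))) (.g (nat_lit 5) .nil .nil))) 
(.lf (nat_lit 63545) (.g (nat_lit 2445) (.e (nat_lit 1587) (nat_lit 111) (.e (nat_lit 360474) (nat_lit 8) (.e (nat_lit 557093) (nat_lit 12) (.e (nat_lit 164023) (nat_lit 46) (.e (nat_lit 704629) (nat_lit 9) (.e (nat_lit 442) (nat_lit 33) (.e (nat_lit 434225) (nat_lit 19) (.e (nat_lit 499991) (nat_lit 14) .nil)))))))) (.g (nat_lit 4) .nil .nil)))))) 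
(.nd (nat_lit 3) (.nd (nat_lit 4) (.nd (nat_lit 5) 
(.lf (nat_lit 63493) (.g (nat_lit 569) (.e (nat_lit 1587) (nat_lit 111) (.e (nat_lit 360452) (nat_lit 0) (.e (nat_lit 7270) (nat_lit 385) .nil))) .nil)) 
(.lf (nat_lit 63525) (.g (nat_lit 2064) (.e (nat_lit 1587) (nat_lit 111) (.e (nat_lit 360474) (nat_lit 8) (.e (nat_lit 557093) (nat_lit 12) (.e (nat_lit 164022) (nat_lit 46) (.e (nat_lit 704738) (nat_lit 11) (.e (nat_lit 16397) (nat_lit 0) (.e (nat_lit 3146) (nat_lit 193) (.e (nat_lit 499979) (nat_lit 14) .nil)))))))) (.g (nat_lit 4) .nil .nil)))) (.nd (nat_lit 5) 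
(.lf (nat_lit 63509) (.g (nat_lit 2429) (.e (nat_lit 1587) (nat_lit 111) (.e (nat_lit 360474) (nat_lit 8) (.e (nat_lit 557093) (nat_lit 12) (.e (nat_lit 164022) (nat_lit 46) (.e (nat_lit 704737) (nat_lit 11) (.e (nat_lit 16410) (nat_lit 2) (.e (nat_lit 196631) (nat_lit 9) .nil))))))) (.g (nat_lit 4) .nil .nil))) 
(.lf (nat_lit 63541) (.g (nat_lit 3188) (.e (nat_lit 1587) (nat_lit 111) (.e (nat_lit 360474) (nat_lit 8) (.e (nat_lit 557093) (nat_lit 12) (.e (nat_lit 164022) (nat_lit 46) (.e (nat_lit 704738) (nat_lit 11) (.e (nat_lit 16411) (nat_lit 2) (.e (nat_lit 196638) (nat_lit 9) .nil))))))) (.g (nat_lit 6) .nil .nil))))) (.nd (nat_lit 4) (.nd (nat_lit 5) 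
(.lf (nat_lit 63501) (.g (nat_lit 2760) (.e (nat_lit 1587) (nat_lit 111) (.e (nat_lit 360474) (nat_lit 8) (.e (nat_lit 557091) (nat_lit 12) (.e (nat_lit 164022) (nat_lit 46) .nil)))) .nil)) 
(.lf (nat_lit 63533) (.g (nat_lit 3098) (.e (nat_lit 1587) (nat_lit 111) (.e (nat_lit 360474) (nat_lit 8) (.e (nat_lit 557093) (nat_lit 12) (.e (nat_lit 164022) (nat_lit 46) (.e (nat_lit 704738) (nat_lit 11) (.e (nat_lit 16410) (nat_lit 2) (.e (nat_lit 196632) (nat_lit 9) .nil))))))) (.g (nat_lit 5) .nil .nil)))) (.nd (nat_lit 5) 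
(.lf (nat_lit 63517) (.g (nat_lit 3000) (.e (nat_lit 1587) (nat_lit 111) (.e (nat_lit 360474) (nat_lit 8) (.e (nat_lit 557093) (nat_lit 12) (.e (nat_lit 164022) (nat_lit 46) (.e (nat_lit 704737) (nat_lit 11) (.e (nat_lit 16411) (nat_lit 2) (.e (nat_lit 196638) (nat_lit 9) .nil))))))) (.g (nat_lit 5) .nil .nil))) 
(.lf (nat_lit 63549) (.g (nat_lit 1138) (.e (nat_lit 1587) (nat_lit 111) (.e (nat_lit 360474) (nat_lit 8) (.e (nat_lit 557094) (nat_lit 12) (.e (nat_lit 164022) (nat_lit 46) .nil)))) .nil)))))) (.nd (nat_lit 2) (.nd (nat_lit 3) (.nd (nat_lit 4) (.nd (nat_lit 5) 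
(.lf (nat_lit 63491) (.g (nat_lit 1433) (.e (nat_lit 1587) (nat_lit 111) (.e (nat_lit 360451) (nat_lit 0) (.e (nat_lit 7125) (nat_lit 382) (.e (nat_lit 1222) (nat_lit 90) .nil)))) .nil)) 
(.lf (nat_lit 63523) (.g (nat_lit 2056) (.e (nat_lit 1587) (nat_lit 111) (.e (nat_lit 360474) (nat_lit 8) (.e (nat_lit 557093) (nat_lit 12) (.e (nat_lit 164022) (nat_lit 46) (.e (nat_lit 704738) (nat_lit 11) (.e (nat_lit 16397) (nat_lit 0) (.e (nat_lit 3146) (nat_lit 193) (.e (nat_lit 499977) (nat_lit 14) .nil)))))))) (.g (nat_lit 4) .nil .nil)))) (.nd (nat_lit 5) 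
(.lf (nat_lit 63507) (.g (nat_lit 2181) (.e (nat_lit 1587) (nat_lit 111) (.e (nat_lit 360474) (nat_lit 8) (.e (nat_lit 557093) (nat_lit 12) (.e (nat_lit 164022) (nat_lit 46) (.e (nat_lit 704736) (nat_lit 11) (.e (nat_lit 16411) (nat_lit 2) (.e (nat_lit 196635) (nat_lit 9) .nil))))))) (.g (nat_lit 4) .nil .nil))) 
(.lf (nat_lit 63539) (.g (nat_lit 2821) (.e (nat_lit 1587) (nat_lit 111) (.e (nat_lit 360474) (nat_lit 8) (.e (nat_lit 557093) (nat_lit 12) (.e (nat_lit 164022) (nat_lit 46) (.e (nat_lit 704738) (nat_lit 11) (.e (nat_lit 16411) (nat_lit 2) (.e (nat_lit 196633) (nat_lit 9) .nil))))))) (.g (nat_lit 5) .nil .nil))))) (.nd (nat_lit 4) (.nd (nat_lit 5) 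
(.lf (nat_lit 63499) (.g (nat_lit 4374) (.e (nat_lit 1587) (nat_lit 111) (.e (nat_lit 360474) (nat_lit 8) (.e (nat_lit 557091) (nat_lit 12) (.e (nat_lit 163999) (nat_lit 38) (.e (nat_lit 639020) (nat_lit 16) (.e (nat_lit 65580) (nat_lit 6) (.e (nat_lit 155392) (nat_lit 0) .nil))))))) (.g (nat_lit 5) .nil .nil))) 
(.lf (nat_lit 63531) (.g (nat_lit 2039) (.e (nat_lit 1587) (nat_lit 111) (.e (nat_lit 360474) (nat_lit 8) (.e (nat_lit 557093) (nat_lit 12) (.e (nat_lit 164022) (nat_lit 46) (.e (nat_lit 704738) (nat_lit 11) (.e (nat_lit 16410) (nat_lit 2) (.e (nat_lit 196617) (nat_lit 9) .nil))))))) (.g (nat_lit 4) .nil .nil)))) (.nd (nat_lit 5) 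
(.lf (nat_lit 63515) (.g (nat_lit 3417) (.e (nat_lit 1587) (nat_lit 111) (.e (nat_lit 360474) (nat_lit 8) (.e (nat_lit 557093) (nat_lit 12) (.e (nat_lit 164022) (nat_lit 46) (.e (nat_lit 704737) (nat_lit 11) (.e (nat_lit 16411) (nat_lit 2) (.e (nat_lit 196635) (nat_lit 9) .nil))))))) (.g (nat_lit 6) .nil .nil))) 
(.lf (nat_lit 63547) (.g (nat_lit 2705) (.e (nat_lit 1587) (nat_lit 111) (.e (nat_lit 360474) (nat_lit 8) (.e (nat_lit 557093) (nat_lit 12) (.e (nat_lit 164023) (nat_lit 46) (.e (nat_lit 704737) (nat_lit 11) (.e (nat_lit 16411) (nat_lit 2) (.e (nat_lit 196635) (nat_lit 9) .nil))))))) (.g (nat_lit 4) .nil .nil)))))) (.nd (nat_lit 3) (.nd (nat_lit 4) (.nd (nat_lit 5) 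
(.lf (nat_lit 63495) (.g (nat_lit 2680) (.e (nat_lit 1587) (nat_lit 111) (.e (nat_lit 360473) (nat_lit 8) (.e (nat_lit 557087) (nat_lit 11) (.e (nat_lit 24617) (nat_lit 7) (.e (nat_lit 319505) (nat_lit 10) .nil))))) .nil)) 
(.lf (nat_lit 63527) (.g (nat_lit 2024) (.e (nat_lit 1587) (nat_lit 111) (.e (nat_lit 360474) (nat_lit 8) (.e (nat_lit 557093) (nat_lit 12) (.e (nat_lit 164022) (nat_lit 46) (.e (nat_lit 704738) (nat_lit 11) (.e (nat_lit 16397) (nat_lit 0) (.e (nat_lit 3146) (nat_lit 193) (.e (nat_lit 499984) (nat_lit 14) .nil)))))))) (.g (nat_lit 4) .nil .nil)))) (.nd (nat_lit 5) 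
(.lf (nat_lit 63511) (.g (nat_lit 2413) (.e (nat_lit 1587) (nat_lit 111) (.e (nat_lit 360474) (nat_lit 8) (.e (nat_lit 557093) (nat_lit 12) (.e (nat_lit 164022) (nat_lit 46) (.e (nat_lit 704737) (nat_lit 11) (.e (nat_lit 16410) (nat_lit 2) (.e (nat_lit 196643) (nat_lit 9) .nil))))))) (.g (nat_lit 4) .nil .nil))) 
(.lf (nat_lit 63543) (.g (nat_lit 4227) (.e (nat_lit 1587) (nat_lit 111) (.e (nat_lit 360474) (nat_lit 8) (.e (nat_lit 557093) (nat_lit 12) (.e (nat_lit 164022) (nat_lit 46) (.e (nat_lit 704738) (nat_lit 11) (.e (nat_lit 16412) (nat_lit 2) (.e (nat_lit 196632) (nat_lit 9) .nil))))))) (.g (nat_lit 6) .nil .nil))))) (.nd (nat_lit 4) (.nd (nat_lit 5) 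
(.lf (nat_lit 63503) (.g (nat_lit 1297) (.e (nat_lit 1587) (nat_lit 111) (.e (nat_lit 360474) (nat_lit 8) (.e (nat_lit 557093) (nat_lit 12) (.e (nat_lit 164022) (nat_lit 46) .nil)))) .nil)) 
(.lf (nat_lit 63535) (.g (nat_lit 2970) (.e (nat_lit 1587) (nat_lit 111) (.e (nat_lit 360474) (nat_lit 8) (.e (nat_lit 557093) (nat_lit 12) (.e (nat_lit 164022) (nat_lit 46) (.e (nat_lit 704738) (nat_lit 11) (.e (nat_lit 16410) (nat_lit 2) (.e (nat_lit 196643) (nat_lit 9) .nil))))))) (.g (nat_lit 5) .nil .nil)))) (.nd (nat_lit 5) 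
(.lf (nat_lit 63519) (.g (nat_lit 2929) (.e (nat_lit 1587) (nat_lit 111) (.e (nat_lit 360474) (nat_lit 8) (.e (nat_lit 557093) (nat_lit 12) (.e (nat_lit 164022) (nat_lit 46) (.e (nat_lit 704737) (nat_lit 11) (.e (nat_lit 16411) (nat_lit 2) (.e (nat_lit 196643) (nat_lit 9) .nil))))))) (.g (nat_lit 5) .nil .nil))) 
(.lf (nat_lit 63551) (.g (nat_lit 1886) (.e (nat_lit 1587) (nat_lit 111) (.e (nat_lit 360474) (nat_lit 8) (.e (nat_lit 557094) (nat_lit 12) (.e (nat_lit 164022) (nat_lit 46) (.e (nat_lit 704736) (nat_lit 11) (.e (nat_lit 16411) (nat_lit 2) (.e (nat_lit 196635) (nat_lit 9) .nil))))))) (.g (nat_lit 4) .nil .nil)))))))))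

noncomputable def tv872 : DT := (.nd (nat_lit 0) (.nd (nat_lit 1) (.nd (nat_lit 2) (.nd (nat_lit 3) (.nd (nat_lit 4) (.nd (nat_lit 5) 
(.lf (nat_lit 63552) (.g (nat_lit 1705) (.e (nat_lit 1587) (nat_lit 111) (.e (nat_lit 360474) (nat_lit 8) (.e (nat_lit 557094) (nat_lit 12) (.e (nat_lit 164022) (nat_lit 46) (.e (nat_lit 704737) (nat_lit 11) .nil))))) .nil)) 
(.lf (nat_lit 63584) (.g (nat_lit 1292) (.e (nat_lit 1587) (nat_lit 111) (.e (nat_lit 360475) (nat_lit 8) (.e (nat_lit 557067) (nat_lit 9) .nil))) .nil))) (.nd (nat_lit 5) 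
(.lf (nat_lit 63568) (.g (nat_lit 2654) (.e (nat_lit 1587) (nat_lit 111) (.e (nat_lit 360474) (nat_lit 8) (.e (nat_lit 557094) (nat_lit 12) (.e (nat_lit 164022) (nat_lit 46) (.e (nat_lit 704738) (nat_lit 11) (.e (nat_lit 16410) (nat_lit 2) (.e (nat_lit 196632) (nat_lit 9) .nil))))))) (.g (nat_lit 5) .nil .nil))) 
(.lf (nat_lit 63600) (.g (nat_lit 4206) (.e (nat_lit 1587) (nat_lit 111) (.e (nat_lit 360475) (nat_lit 8) (.e (nat_lit 557086) (nat_lit 11) (.e (nat_lit 24665) (nat_lit 14) (.e (nat_lit 401414) (nat_lit 0) (.e (nat_lit 3124) (nat_lit 193) (.e (nat_lit 499990) (nat_lit 14) .nil))))))) (.g (nat_lit 5) .nil .nil))))) (.nd (nat_lit 4) (.nd (nat_lit 5) 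
(.lf (nat_lit 63560) (.g (nat_lit 2908) (.e (nat_lit 1587) (nat_lit 111) (.e (nat_lit 360474) (nat_lit 8) (.e (nat_lit 557094) (nat_lit 12) (.e (nat_lit 164022) (nat_lit 46) (.e (nat_lit 704737) (nat_lit 11) (.e (nat_lit 16411) (nat_lit 2) (.e (nat_lit 196635) (nat_lit 9) .nil))))))) (.g (nat_lit 6) .nil .nil))) 
(.lf (nat_lit 63592) (.g (nat_lit 4230) (.e (nat_lit 1587) (nat_lit 111) (.e (nat_lit 360475) (nat_lit 8) (.e (nat_lit 557086) (nat_lit 11) (.e (nat_lit 24665) (nat_lit 14) (.e (nat_lit 401414) (nat_lit 0) (.e (nat_lit 3124) (nat_lit 193) (.e (nat_lit 499977) (nat_lit 14) .nil))))))) (.g (nat_lit 5) .nil .nil)))) (.nd (nat_lit 5) 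
(.lf (nat_lit 63576) (.g (nat_lit 2513) (.e (nat_lit 1587) (nat_lit 111) (.e (nat_lit 360474) (nat_lit 8) (.e (nat_lit 557094) (nat_lit 12) (.e (nat_lit 164022) (nat_lit 46) (.e (nat_lit 704738) (nat_lit 11) (.e (nat_lit 16411) (nat_lit 2) (.e (nat_lit 196633) (nat_lit 9) .nil))))))) (.g (nat_lit 5) .nil .nil))) 
(.lf (nat_lit 63608) (.g (nat_lit 1629) (.e (nat_lit 1587) (nat_lit 111) (.e (nat_lit 360475) (nat_lit 8) (.e (nat_lit 557089) (nat_lit 12) (.e (nat_lit 171776) (nat_lit 48) .nil)))) .nil))))) (.nd (nat_lit 3) (.nd (nat_lit 4) (.nd (nat_lit 5) 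
(.lf (nat_lit 63556) (.g (nat_lit 2570) (.e (nat_lit 1587) (nat_lit 111) (.e (nat_lit 360474) (nat_lit 8) (.e (nat_lit 557094) (nat_lit 12) (.e (nat_lit 164022) (nat_lit 46) (.e (nat_lit 704737) (nat_lit 11) (.e (nat_lit 16411) (nat_lit 2) (.e (nat_lit 196617) (nat_lit 9) .nil))))))) (.g (nat_lit 5) .nil .nil))) 
(.lf (nat_lit 63588) (.g (nat_lit 2732) (.e (nat_lit 1587) (nat_lit 111) (.e (nat_lit 360475) (nat_lit 8) (.e (nat_lit 557086) (nat_lit 11) (.e (nat_lit 24664) (nat_lit 14) (.e (nat_lit 401414) (nat_lit 0) .nil))))) .nil))) (.nd (nat_lit 5) 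
(.lf (nat_lit 63572) (.g (nat_lit 2526) (.e (nat_lit 1587) (nat_lit 111) (.e (nat_lit 360474) (nat_lit 8) (.e (nat_lit 557094) (nat_lit 12) (.e (nat_lit 164022) (nat_lit 46) (.e (nat_lit 704738) (nat_lit 11) (.e (nat_lit 16410) (nat_lit 2) (.e (nat_lit 196643) (nat_lit 9) .nil))))))) (.g (nat_lit 5) .nil .nil))) 
(.lf (nat_lit 63604) (.g (nat_lit 4359) (.e (nat_lit 1587) (nat_lit 111) (.e (nat_lit 360475) (nat_lit 8) (.e (nat_lit 557087) (nat_lit 11) (.e (nat_lit 24665) (nat_lit 14) (.e (nat_lit 401430) (nat_lit 5) .nil))))) .nil)))) (.nd (nat_lit 4) (.nd (nat_lit 5) 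
(.lf (nat_lit 63564) (.g (nat_lit 2420) (.e (nat_lit 1587) (nat_lit 111) (.e (nat_lit 360474) (nat_lit 8) (.e (nat_lit 557094) (nat_lit 12) (.e (nat_lit 164022) (nat_lit 46) (.e (nat_lit 704737) (nat_lit 11) (.e (nat_lit 16411) (nat_lit 2) (.e (nat_lit 196643) (nat_lit 9) .nil))))))) (.g (nat_lit 5) .nil .nil))) 
(.lf (nat_lit 63596) (.g (nat_lit 4244) (.e (nat_lit 1587) (nat_lit 111) (.e (nat_lit 360475) (nat_lit 8) (.e (nat_lit 557086) (nat_lit 11) (.e (nat_lit 24665) (nat_lit 14) (.e (nat_lit 401414) (nat_lit 0) (.e (nat_lit 3124) (nat_lit 193) (.e (nat_lit 499981) (nat_lit 14) .nil))))))) (.g (nat_lit 5) .nil .nil)))) (.nd (nat_lit 5) 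
(.lf (nat_lit 63580) (.g (nat_lit 2881) (.e (nat_lit 1587) (nat_lit 111) (.e (nat_lit 360474) (nat_lit 8) (.e (nat_lit 557094) (nat_lit 12) (.e (nat_lit 164022) (nat_lit 46) (.e (nat_lit 704738) (nat_lit 11) (.e (nat_lit 16411) (nat_lit 2) (.e (nat_lit 196643) (nat_lit 9) .nil))))))) (.g (nat_lit 6) .nil .nil))) 
(.lf (nat_lit 63612) (.g (nat_lit 1818) (.e (nat_lit 1587) (nat_lit 111) (.e (nat_lit 360475) (nat_lit 8) (.e (nat_lit 557090) (nat_lit 12) (.e (nat_lit 164020) (nat_lit 45) (.e (nat_lit 696344) (nat_lit 8) .nil))))) .nil)))))) (.nd (nat_lit 2) (.nd (nat_lit 3) (.nd (nat_lit 4) (.nd (nat_lit 5) 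
(.lf (nat_lit 63554) (.g (nat_lit 2028) (.e (nat_lit 1587) (nat_lit 111) (.e (nat_lit 360474) (nat_lit 8) (.e (nat_lit 557094) (nat_lit 12) (.e (nat_lit 164022) (nat_lit 46) (.e (nat_lit 704737) (nat_lit 11) (.e (nat_lit 16410) (nat_lit 2) (.e (nat_lit 196632) (nat_lit 9) .nil))))))) (.g (nat_lit 4) .nil .nil))) 
(.lf (nat_lit 63586) (.g (nat_lit 1337) (.e (nat_lit 1587) (nat_lit 111) (.e (nat_lit 360475) (nat_lit 8) (.e (nat_lit 557068) (nat_lit 9) (.e (nat_lit 290) (nat_lit 21) .nil)))) .nil))) (.nd (nat_lit 5) 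
(.lf (nat_lit 63570) (.g (nat_lit 2002) (.e (nat_lit 1587) (nat_lit 111) (.e (nat_lit 360474) (nat_lit 8) (.e (nat_lit 557094) (nat_lit 12) (.e (nat_lit 164022) (nat_lit 46) (.e (nat_lit 704738) (nat_lit 11) (.e (nat_lit 16410) (nat_lit 2) (.e (nat_lit 196634) (nat_lit 9) .nil))))))) (.g (nat_lit 4) .nil .nil))) 
(.lf (nat_lit 63602) (.g (nat_lit 3554) (.e (nat_lit 1587) (nat_lit 111) (.e (nat_lit 360475) (nat_lit 8) (.e (nat_lit 557086) (nat_lit 11) (.e (nat_lit 24665) (nat_lit 14) (.e (nat_lit 401430) (nat_lit 5) .nil))))) .nil)))) (.nd (nat_lit 4) (.nd (nat_lit 5) 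
(.lf (nat_lit 63562) (.g (nat_lit 2491) (.e (nat_lit 1587) (nat_lit 111) (.e (nat_lit 360474) (nat_lit 8) (.e (nat_lit 557094) (nat_lit 12) (.e (nat_lit 164022) (nat_lit 46) (.e (nat_lit 704737) (nat_lit 11) (.e (nat_lit 16411) (nat_lit 2) (.e (nat_lit 196638) (nat_lit 9) .nil))))))) (.g (nat_lit 5) .nil .nil))) 
(.lf (nat_lit 63594) (.g (nat_lit 4226) (.e (nat_lit 1587) (nat_lit 111) (.e (nat_lit 360475) (nat_lit 8) (.e (nat_lit 557086) (nat_lit 11) (.e (nat_lit 24665) (nat_lit 14) (.e (nat_lit 401414) (nat_lit 0) (.e (nat_lit 3124) (nat_lit 193) (.e (nat_lit 499979) (nat_lit 14) .nil))))))) (.g (nat_lit 5) .nil .nil)))) (.nd (nat_lit 5) 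
(.lf (nat_lit 63578) (.g (nat_lit 2450) (.e (nat_lit 1587) (nat_lit 111) (.e (nat_lit 360474) (nat_lit 8) (.e (nat_lit 557094) (nat_lit 12) (.e (nat_lit 164022) (nat_lit 46) (.e (nat_lit 704738) (nat_lit 11) (.e (nat_lit 16411) (nat_lit 2) (.e (nat_lit 196636) (nat_lit 9) .nil))))))) (.g (nat_lit 5) .nil .nil))) 
(.lf (nat_lit 63610) (.g (nat_lit 3523) (.e (nat_lit 1587) (nat_lit 111) (.e (nat_lit 360475) (nat_lit 8) (.e (nat_lit 557090) (nat_lit 12) (.e (nat_lit 164020) (nat_lit 45) (.e (nat_lit 696343) (nat_lit 8) (.e (nat_lit 172073) (nat_lit 5) (.e (nat_lit 245782) (nat_lit 9) .nil))))))) (.g (nat_lit 4) .nil .nil)))))) (.nd (nat_lit 3) (.nd (nat_lit 4) (.nd (nat_lit 5) 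
(.lf (nat_lit 63558) (.g (nat_lit 2626) (.e (nat_lit 1587) (nat_lit 111) (.e (nat_lit 360474) (nat_lit 8) (.e (nat_lit 557094) (nat_lit 12) (.e (nat_lit 164022) (nat_lit 46) (.e (nat_lit 704737) (nat_lit 11) (.e (nat_lit 16411) (nat_lit 2) (.e (nat_lit 196632) (nat_lit 9) .nil))))))) (.g (nat_lit 5) .nil .nil))) 
(.lf (nat_lit 63590) (.g (nat_lit 4218) (.e (nat_lit 1587) (nat_lit 111) (.e (nat_lit 360475) (nat_lit 8) (.e (nat_lit 557086) (nat_lit 11) (.e (nat_lit 24665) (nat_lit 14) (.e (nat_lit 401414) (nat_lit 0) (.e (nat_lit 3124) (nat_lit 193) (.e (nat_lit 499975) (nat_lit 14) .nil))))))) (.g (nat_lit 5) .nil .nil)))) (.nd (nat_lit 5) 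
(.lf (nat_lit 63574) (.g (nat_lit 2791) (.e (nat_lit 1587) (nat_lit 111) (.e (nat_lit 360474) (nat_lit 8) (.e (nat_lit 557094) (nat_lit 12) (.e (nat_lit 164022) (nat_lit 46) (.e (nat_lit 704738) (nat_lit 11) (.e (nat_lit 16411) (nat_lit 2) (.e (nat_lit 196631) (nat_lit 9) .nil))))))) (.g (nat_lit 6) .nil .nil))) 
(.lf (nat_lit 63606) (.g (nat_lit 1811) (.e (nat_lit 1587) (nat_lit 111) (.e (nat_lit 360475) (nat_lit 8) (.e (nat_lit 557089) (nat_lit 12) (.e (nat_lit 164019) (nat_lit 45) .nil)))) .nil)))) (.nd (nat_lit 4) (.nd (nat_lit 5) 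
(.lf (nat_lit 63566) (.g (nat_lit 1906) (.e (nat_lit 1587) (nat_lit 111) (.e (nat_lit 360474) (nat_lit 8) (.e (nat_lit 557094) (nat_lit 12) (.e (nat_lit 164022) (nat_lit 46) (.e (nat_lit 704738) (nat_lit 11) (.e (nat_lit 16397) (nat_lit 0) (.e (nat_lit 3124) (nat_lit 193) (.e (nat_lit 499952) (nat_lit 14) .nil)))))))) (.g (nat_lit 4) .nil .nil))) 
(.lf (nat_lit 63598) (.g (nat_lit 4152) (.e (nat_lit 1587) (nat_lit 111) (.e (nat_lit 360475) (nat_lit 8) (.e (nat_lit 557086) (nat_lit 11) (.e (nat_lit 24665) (nat_lit 14) (.e (nat_lit 401414) (nat_lit 0) (.e (nat_lit 3124) (nat_lit 193) (.e (nat_lit 499984) (nat_lit 14) .nil))))))) (.g (nat_lit 4) .nil .nil)))) (.nd (nat_lit 5) 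
(.lf (nat_lit 63582) (.g (nat_lit 582) (.e (nat_lit 1587) (nat_lit 111) (.e (nat_lit 360474) (nat_lit 8) (.e (nat_lit 557118) (nat_lit 18) .nil))) .nil)) 
(.lf (nat_lit 63614) (.g (nat_lit 3720) (.e (nat_lit 1587) (nat_lit 111) (.e (nat_lit 360475) (nat_lit 8) (.e (nat_lit 557090) (nat_lit 12) (.e (nat_lit 164020) (nat_lit 45) (.e (nat_lit 696344) (nat_lit 8) (.e (nat_lit 172073) (nat_lit 5) (.e (nat_lit 245783) (nat_lit 9) .nil))))))) (.g (nat_lit 4) .nil .nil)))))))) 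
(.nd (nat_lit 1) (.nd (nat_lit 2) (.nd (nat_lit 3) (.nd (nat_lit 4) (.nd (nat_lit 5) 
(.lf (nat_lit 63553) (.g (nat_lit 1916) (.e (nat_lit 1587) (nat_lit 111) (.e (nat_lit 360474) (nat_lit 8) (.e (nat_lit 557094) (nat_lit 12) (.e (nat_lit 164022) (nat_lit 46) (.e (nat_lit 704737) (nat_lit 11) (.e (nat_lit 16410) (nat_lit 2) (.e (nat_lit 196631) (nat_lit 9) .nil))))))) (.g (nat_lit 4) .nil .nil))) 
(.lf (nat_lit 63585) (.g (nat_lit 704) (.e (nat_lit 1587) (nat_lit 111) (.e (nat_lit 360475) (nat_lit 8) (.e (nat_lit 557068) (nat_lit 9) .nil))) .nil))) (.nd (nat_lit 5) 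
(.lf (nat_lit 63569) (.g (nat_lit 2012) (.e (nat_lit 1587) (nat_lit 111) (.e (nat_lit 360474) (nat_lit 8) (.e (nat_lit 557094) (nat_lit 12) (.e (nat_lit 164022) (nat_lit 46) (.e (nat_lit 704738) (nat_lit 11) (.e (nat_lit 16410) (nat_lit 2) (.e (nat_lit 196633) (nat_lit 9) .nil))))))) (.g (nat_lit 4) .nil .nil))) 
(.lf (nat_lit 63601) (.g (nat_lit 4205) (.e (nat_lit 1587) (nat_lit 111) (.e (nat_lit 360475) (nat_lit 8) (.e (nat_lit 557086) (nat_lit 11) (.e (nat_lit 24665) (nat_lit 14) (.e (nat_lit 401414) (nat_lit 0) (.e (nat_lit 3124) (nat_lit 193) (.e (nat_lit 499992) (nat_lit 14) .nil))))))) (.g (nat_lit 5) .nil .nil))))) (.nd (nat_lit 4) (.nd (nat_lit 5) 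
(.lf (nat_lit 63561) (.g (nat_lit 1987) (.e (nat_lit 1587) (nat_lit 111) (.e (nat_lit 360474) (nat_lit 8) (.e (nat_lit 557094) (nat_lit 12) (.e (nat_lit 164022) (nat_lit 46) (.e (nat_lit 704737) (nat_lit 11) (.e (nat_lit 16411) (nat_lit 2) (.e (nat_lit 196636) (nat_lit 9) .nil))))))) (.g (nat_lit 4) .nil .nil))) 
(.lf (nat_lit 63593) (.g (nat_lit 4230) (.e (nat_lit 1587) (nat_lit 111) (.e (nat_lit 360475) (nat_lit 8) (.e (nat_lit 557086) (nat_lit 11) (.e (nat_lit 24665) (nat_lit 14) (.e (nat_lit 401414) (nat_lit 0) (.e (nat_lit 3124) (nat_lit 193) (.e (nat_lit 499978) (nat_lit 14) .nil))))))) (.g (nat_lit 5) .nil .nil)))) (.nd (nat_lit 5) 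
(.lf (nat_lit 63577) (.g (nat_lit 3299) (.e (nat_lit 1587) (nat_lit 111) (.e (nat_lit 360474) (nat_lit 8) (.e (nat_lit 557094) (nat_lit 12) (.e (nat_lit 164022) (nat_lit 46) (.e (nat_lit 704738) (nat_lit 11) (.e (nat_lit 16411) (nat_lit 2) (.e (nat_lit 196635) (nat_lit 9) .nil))))))) (.g (nat_lit 0) .nil .nil))) 
(.lf (nat_lit 63609) (.g (nat_lit 1155) (.e (nat_lit 1587) (nat_lit 111) (.e (nat_lit 360475) (nat_lit 8) (.e (nat_lit 557090) (nat_lit 12) (.e (nat_lit 164020) (nat_lit 45) .nil)))) .nil))))) (.nd (nat_lit 3) (.nd (nat_lit 4) (.nd (nat_lit 5) 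
(.lf (nat_lit 63557) (.g (nat_lit 2403) (.e (nat_lit 1587) (nat_lit 111) (.e (nat_lit 360474) (nat_lit 8) (.e (nat_lit 557094) (nat_lit 12) (.e (nat_lit 164022) (nat_lit 46) (.e (nat_lit 704737) (nat_lit 11) (.e (nat_lit 16411) (nat_lit 2) (.e (nat_lit 196631) (nat_lit 9) .nil))))))) (.g (nat_lit 5) .nil .nil))) 
(.lf (nat_lit 63589) (.g (nat_lit 3940) (.e (nat_lit 1587) (nat_lit 111) (.e (nat_lit 360475) (nat_lit 8) (.e (nat_lit 557086) (nat_lit 11) (.e (nat_lit 24665) (nat_lit 14) (.e (nat_lit 401414) (nat_lit 0) (.e (nat_lit 3124) (nat_lit 193) (.e (nat_lit 499952) (nat_lit 14) .nil))))))) (.g (nat_lit 4) .nil .nil)))) (.nd (nat_lit 5) 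
(.lf (nat_lit 63573) (.g (nat_lit 3009) (.e (nat_lit 1587) (nat_lit 111) (.e (nat_lit 360474) (nat_lit 8) (.e (nat_lit 557094) (nat_lit 12) (.e (nat_lit 164022) (nat_lit 46) (.e (nat_lit 704738) (nat_lit 11) (.e (nat_lit 16411) (nat_lit 2) (.e (nat_lit 196617) (nat_lit 9) .nil))))))) (.g (nat_lit 6) .nil .nil))) 
(.lf (nat_lit 63605) (.g (nat_lit 506) (.e (nat_lit 1587) (nat_lit 111) (.e (nat_lit 360475) (nat_lit 8) (.e (nat_lit 557089) (nat_lit 12) .nil))) .nil)))) (.nd (nat_lit 4) (.nd (nat_lit 5) 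
(.lf (nat_lit 63565) (.g (nat_lit 1647) (.e (nat_lit 1587) (nat_lit 111) (.e (nat_lit 360474) (nat_lit 8) (.e (nat_lit 557094) (nat_lit 12) (.e (nat_lit 164022) (nat_lit 46) (.e (nat_lit 704738) (nat_lit 11) .nil))))) .nil)) 
(.lf (nat_lit 63597) (.g (nat_lit 4128) (.e (nat_lit 1587) (nat_lit 111) (.e (nat_lit 360475) (nat_lit 8) (.e (nat_lit 557086) (nat_lit 11) (.e (nat_lit 24665) (nat_lit 14) (.e (nat_lit 401414) (nat_lit 0) (.e (nat_lit 3124) (nat_lit 193) (.e (nat_lit 499983) (nat_lit 14) .nil))))))) (.g (nat_lit 4) .nil .nil)))) (.nd (nat_lit 5) 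
(.lf (nat_lit 63581) (.g (nat_lit 3547) (.e (nat_lit 1587) (nat_lit 111) (.e (nat_lit 360474) (nat_lit 8) (.e (nat_lit 557094) (nat_lit 12) (.e (nat_lit 164022) (nat_lit 46) (.e (nat_lit 704738) (nat_lit 11) (.e (nat_lit 16412) (nat_lit 2) (.e (nat_lit 196617) (nat_lit 9) .nil))))))) (.g (nat_lit 6) .nil .nil))) 
(.lf (nat_lit 63613) (.g (nat_lit 4502) (.e (nat_lit 1587) (nat_lit 111) (.e (nat_lit 360475) (nat_lit 8) (.e (nat_lit 557090) (nat_lit 12) (.e (nat_lit 164020) (nat_lit 45) (.e (nat_lit 696344) (nat_lit 8) (.e (nat_lit 172073) (nat_lit 5) (.e (nat_lit 245782) (nat_lit 9) .nil))))))) (.g (nat_lit 5) .nil .nil))))))) (.nd (nat_lit 2) (.nd (nat_lit 3) (.nd (nat_lit 4) (.nd (nat_lit 5) 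
(.lf (nat_lit 63555) (.g (nat_lit 1900) (.e (nat_lit 1587) (nat_lit 111) (.e (nat_lit 360474) (nat_lit 8) (.e (nat_lit 557094) (nat_lit 12) (.e (nat_lit 164022) (nat_lit 46) (.e (nat_lit 704737) (nat_lit 11) (.e (nat_lit 16410) (nat_lit 2) (.e (nat_lit 196643) (nat_lit 9) .nil))))))) (.g (nat_lit 4) .nil .nil))) 
(.lf (nat_lit 63587) (.g (nat_lit 946) (.e (nat_lit 1587) (nat_lit 111) (.e (nat_lit 360475) (nat_lit 8) (.e (nat_lit 557086) (nat_lit 11) .nil))) .nil))) (.nd (nat_lit 5) 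
(.lf (nat_lit 63571) (.g (nat_lit 1975) (.e (nat_lit 1587) (nat_lit 111) (.e (nat_lit 360474) (nat_lit 8) (.e (nat_lit 557094) (nat_lit 12) (.e (nat_lit 164022) (nat_lit 46) (.e (nat_lit 704738) (nat_lit 11) (.e (nat_lit 16410) (nat_lit 2) (.e (nat_lit 196639) (nat_lit 9) .nil))))))) (.g (nat_lit 4) .nil .nil))) 
(.lf (nat_lit 63603) (.g (nat_lit 4666) (.e (nat_lit 1587) (nat_lit 111) (.e (nat_lit 360475) (nat_lit 8) (.e (nat_lit 557086) (nat_lit 11) (.e (nat_lit 24665) (nat_lit 14) (.e (nat_lit 401430) (nat_lit 5) (.e (nat_lit 245781) (nat_lit 9) .nil)))))) (.g (nat_lit 4) .nil .nil))))) (.nd (nat_lit 4) (.nd (nat_lit 5) 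
(.lf (nat_lit 63563) (.g (nat_lit 1840) (.e (nat_lit 1587) (nat_lit 111) (.e (nat_lit 360474) (nat_lit 8) (.e (nat_lit 557094) (nat_lit 12) (.e (nat_lit 164022) (nat_lit 46) (.e (nat_lit 704737) (nat_lit 11) (.e (nat_lit 16411) (nat_lit 2) (.e (nat_lit 196639) (nat_lit 9) .nil))))))) (.g (nat_lit 4) .nil .nil))) 
(.lf (nat_lit 63595) (.g (nat_lit 4144) (.e (nat_lit 1587) (nat_lit 111) (.e (nat_lit 360475) (nat_lit 8) (.e (nat_lit 557086) (nat_lit 11) (.e (nat_lit 24665) (nat_lit 14) (.e (nat_lit 401414) (nat_lit 0) (.e (nat_lit 3124) (nat_lit 193) (.e (nat_lit 499980) (nat_lit 14) .nil))))))) (.g (nat_lit 4) .nil .nil)))) (.nd (nat_lit 5) 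
(.lf (nat_lit 63579) (.g (nat_lit 2880) (.e (nat_lit 1587) (nat_lit 111) (.e (nat_lit 360474) (nat_lit 8) (.e (nat_lit 557094) (nat_lit 12) (.e (nat_lit 164022) (nat_lit 46) (.e (nat_lit 704738) (nat_lit 11) (.e (nat_lit 16411) (nat_lit 2) (.e (nat_lit 196638) (nat_lit 9) .nil))))))) (.g (nat_lit 6) .nil .nil))) 
(.lf (nat_lit 63611) (.g (nat_lit 2923) (.e (nat_lit 1587) (nat_lit 111) (.e (nat_lit 360475) (nat_lit 8) (.e (nat_lit 557090) (nat_lit 12) (.e (nat_lit 164020) (nat_lit 45) (.e (nat_lit 696343) (nat_lit 8) (.e (nat_lit 172073) (nat_lit 5) (.e (nat_lit 245784) (nat_lit 9) .nil))))))) (.g (nat_lit 5) .nil .nil)))))) (.nd (nat_lit 3) (.nd (nat_lit 4) (.nd (nat_lit 5) 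
(.lf (nat_lit 63559) (.g (nat_lit 2050) (.e (nat_lit 1587) (nat_lit 111) (.e (nat_lit 360474) (nat_lit 8) (.e (nat_lit 557094) (nat_lit 12) (.e (nat_lit 164022) (nat_lit 46) (.e (nat_lit 704737) (nat_lit 11) (.e (nat_lit 16411) (nat_lit 2) (.e (nat_lit 196633) (nat_lit 9) .nil))))))) (.g (nat_lit 4) .nil .nil))) 
(.lf (nat_lit 63591) (.g (nat_lit 4209) (.e (nat_lit 1587) (nat_lit 111) (.e (nat_lit 360475) (nat_lit 8) (.e (nat_lit 557086) (nat_lit 11) (.e (nat_lit 24665) (nat_lit 14) (.e (nat_lit 401414) (nat_lit 0) (.e (nat_lit 3124) (nat_lit 193) (.e (nat_lit 499976) (nat_lit 14) .nil))))))) (.g (nat_lit 5) .nil .nil)))) (.nd (nat_lit 5) 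
(.lf (nat_lit 63575) (.g (nat_lit 3073) (.e (nat_lit 1587) (nat_lit 111) (.e (nat_lit 360474) (nat_lit 8) (.e (nat_lit 557094) (nat_lit 12) (.e (nat_lit 164022) (nat_lit 46) (.e (nat_lit 704738) (nat_lit 11) (.e (nat_lit 16411) (nat_lit 2) (.e (nat_lit 196632) (nat_lit 9) .nil))))))) (.g (nat_lit 6) .nil .nil))) 
(.lf (nat_lit 63607) (.g (nat_lit 3084) (.e (nat_lit 1587) (nat_lit 111) (.e (nat_lit 360475) (nat_lit 8) (.e (nat_lit 557089) (nat_lit 12) (.e (nat_lit 164020) (nat_lit 45) (.e (nat_lit 696343) (nat_lit 8) (.e (nat_lit 172073) (nat_lit 5) (.e (nat_lit 245784) (nat_lit 9) .nil))))))) (.g (nat_lit 4) .nil .nil))))) (.nd (nat_lit 4) (.nd (nat_lit 5) 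
(.lf (nat_lit 63567) (.g (nat_lit 2542) (.e (nat_lit 1587) (nat_lit 111) (.e (nat_lit 360474) (nat_lit 8) (.e (nat_lit 557094) (nat_lit 12) (.e (nat_lit 164022) (nat_lit 46) (.e (nat_lit 704738) (nat_lit 11) (.e (nat_lit 16410) (nat_lit 2) (.e (nat_lit 196631) (nat_lit 9) .nil))))))) (.g (nat_lit 5) .nil .nil))) 
(.lf (nat_lit 63599) (.g (nat_lit 4212) (.e (nat_lit 1587) (nat_lit 111) (.e (nat_lit 360475) (nat_lit 8) (.e (nat_lit 557086) (nat_lit 11) (.e (nat_lit 24665) (nat_lit 14) (.e (nat_lit 401414) (nat_lit 0) (.e (nat_lit 3124) (nat_lit 193) (.e (nat_lit 499985) (nat_lit 14) .nil))))))) (.g (nat_lit 5) .nil .nil)))) (.nd (nat_lit 5) 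
(.lf (nat_lit 63583) (.g (nat_lit 3990) (.e (nat_lit 1587) (nat_lit 111) (.e (nat_lit 360475) (nat_lit 8) (.e (nat_lit 557066) (nat_lit 9) (.e (nat_lit 232) (nat_lit 21) (.e (nat_lit 336060) (nat_lit 7) (.e (nat_lit 319504) (nat_lit 10) (.e (nat_lit 531) (nat_lit 41) (.e (nat_lit 499991) (nat_lit 14) .nil)))))))) (.g (nat_lit 4) .nil .nil))) 
(.lf (nat_lit 63615) (.g (nat_lit 514) (.e (nat_lit 1587) (nat_lit 111) (.e (nat_lit 360475) (nat_lit 8) (.e (nat_lit 557091) (nat_lit 12) .nil))) .nil))))))))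

noncomputable def tv873 : DT := (.nd (nat_lit 0) (.nd (nat_lit 1) (.nd (nat_lit 2) (.nd (nat_lit 3) (.nd (nat_lit 4) (.nd (nat_lit 5) 
(.lf (nat_lit 63616) (.g (nat_lit 3118) (.e (nat_lit 1587) (nat_lit 111) (.e (nat_lit 360475) (nat_lit 8) (.e (nat_lit 557091) (nat_lit 12) (.e (nat_lit 164018) (nat_lit 45) (.e (nat_lit 696343) (nat_lit 8) (.e (nat_lit 172073) (nat_lit 5) (.e (nat_lit 245784) (nat_lit 9) .nil))))))) (.g (nat_lit 5) .nil .nil))) 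
(.lf (nat_lit 63648) (.g (nat_lit 3137) (.e (nat_lit 1587) (nat_lit 111) (.e (nat_lit 360475) (nat_lit 8) (.e (nat_lit 557091) (nat_lit 12) (.e (nat_lit 164022) (nat_lit 46) (.e (nat_lit 704738) (nat_lit 11) (.e (nat_lit 16397) (nat_lit 0) (.e (nat_lit 3124) (nat_lit 193) (.e (nat_lit 499983) (nat_lit 14) .nil)))))))) (.g (nat_lit 4) .nil .nil)))) (.nd (nat_lit 5) 
(.lf (nat_lit 63632) (.g (nat_lit 3036) (.e (nat_lit 1587) (nat_lit 111) (.e (nat_lit 360475) (nat_lit 8) (.e (nat_lit 557091) (nat_lit 12) (.e (nat_lit 164022) (nat_lit 46) (.e (nat_lit 704737) (nat_lit 11) (.e (nat_lit 16411) (nat_lit 2) (.e (nat_lit 196636) (nat_lit 9) .nil))))))) (.g (nat_lit 4) .nil .nil))) 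
(.lf (nat_lit 63664) (.g (nat_lit 4187) (.e (nat_lit 1587) (nat_lit 111) (.e (nat_lit 360475) (nat_lit 8) (.e (nat_lit 557091) (nat_lit 12) (.e (nat_lit 164022) (nat_lit 46) (.e (nat_lit 704738) (nat_lit 11) (.e (nat_lit 16411) (nat_lit 2) (.e (nat_lit 196632) (nat_lit 9) .nil))))))) (.g (nat_lit 6) .nil .nil))))) (.nd (nat_lit 4) (.nd (nat_lit 5) 
(.lf (nat_lit 63624) (.g (nat_lit 2969) (.e (nat_lit 1587) (nat_lit 111) (.e (nat_lit 360475) (nat_lit 8) (.e (nat_lit 557091) (nat_lit 12) (.e (nat_lit 164022) (nat_lit 46) (.e (nat_lit 704737) (nat_lit 11) (.e (nat_lit 16410) (nat_lit 2) (.e (nat_lit 196631) (nat_lit 9) .nil))))))) (.g (nat_lit 4) .nil .nil))) 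
(.lf (nat_lit 63656) (.g (nat_lit 3085) (.e (nat_lit 1587) (nat_lit 111) (.e (nat_lit 360475) (nat_lit 8) (.e (nat_lit 557091) (nat_lit 12) (.e (nat_lit 164022) (nat_lit 46) (.e (nat_lit 704738) (nat_lit 11) (.e (nat_lit 16410) (nat_lit 2) (.e (nat_lit 196634) (nat_lit 9) .nil))))))) (.g (nat_lit 4) .nil .nil)))) (.nd (nat_lit 5) 
(.lf (nat_lit 63640) (.g (nat_lit 2949) (.e (nat_lit 1587) (nat_lit 111) (.e (nat_lit 360475) (nat_lit 8) (.e (nat_lit 557091) (nat_lit 12) (.e (nat_lit 164022) (nat_lit 46) (.e (nat_lit 704738) (nat_lit 11) (.e (nat_lit 16397) (nat_lit 0) (.e (nat_lit 3124) (nat_lit 193) (.e (nat_lit 499952) (nat_lit 14) .nil)))))))) (.g (nat_lit 4) .nil .nil))) 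
(.lf (nat_lit 63672) (.g (nat_lit 4437) (.e (nat_lit 1587) (nat_lit 111) (.e (nat_lit 360475) (nat_lit 8) (.e (nat_lit 557091) (nat_lit 12) (.e (nat_lit 164022) (nat_lit 46) (.e (nat_lit 704738) (nat_lit 11) (.e (nat_lit 16412) (nat_lit 2) (.e (nat_lit 196631) (nat_lit 9) .nil))))))) (.g (nat_lit 6) .nil .nil)))))) (.nd (nat_lit 3) (.nd (nat_lit 4) (.nd (nat_lit 5) 
(.lf (nat_lit 63620) (.g (nat_lit 1534) (.e (nat_lit 1587) (nat_lit 111) (.e (nat_lit 360475) (nat_lit 8) (.e (nat_lit 557091) (nat_lit 12) (.e (nat_lit 164022) (nat_lit 46) .nil)))) .nil)) 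
(.lf (nat_lit 63652) (.g (nat_lit 3214) (.e (nat_lit 1587) (nat_lit 111) (.e (nat_lit 360475) (nat_lit 8) (.e (nat_lit 557091) (nat_lit 12) (.e (nat_lit 164022) (nat_lit 46) (.e (nat_lit 704738) (nat_lit 11) (.e (nat_lit 16397) (nat_lit 0) (.e (nat_lit 3124) (nat_lit 193) (.e (nat_lit 499992) (nat_lit 14) .nil)))))))) (.g (nat_lit 4) .nil .nil)))) (.nd (nat_lit 5) 
(.lf (nat_lit 63636) (.g (nat_lit 3169) (.e (nat_lit 1587) (nat_lit 111) (.e (nat_lit 360475) (nat_lit 8) (.e (nat_lit 557091) (nat_lit 12) (.e (nat_lit 164022) (nat_lit 46) (.e (nat_lit 704737) (nat_lit 11) (.e (nat_lit 16421) (nat_lit 5) (.e (nat_lit 245784) (nat_lit 9) .nil))))))) (.g (nat_lit 4) .nil .nil))) 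
(.lf (nat_lit 63668) (.g (nat_lit 3994) (.e (nat_lit 1587) (nat_lit 111) (.e (nat_lit 360475) (nat_lit 8) (.e (nat_lit 557091) (nat_lit 12) (.e (nat_lit 164022) (nat_lit 46) (.e (nat_lit 704738) (nat_lit 11) (.e (nat_lit 16411) (nat_lit 2) (.e (nat_lit 196638) (nat_lit 9) .nil))))))) (.g (nat_lit 5) .nil .nil))))) (.nd (nat_lit 4) (.nd (nat_lit 5) 
(.lf (nat_lit 63628) (.g (nat_lit 3452) (.e (nat_lit 1587) (nat_lit 111) (.e (nat_lit 360475) (nat_lit 8) (.e (nat_lit 557091) (nat_lit 12) (.e (nat_lit 164022) (nat_lit 46) (.e (nat_lit 704737) (nat_lit 11) (.e (nat_lit 16411) (nat_lit 2) (.e (nat_lit 196631) (nat_lit 9) .nil))))))) (.g (nat_lit 5) .nil .nil))) 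
(.lf (nat_lit 63660) (.g (nat_lit 3178) (.e (nat_lit 1587) (nat_lit 111) (.e (nat_lit 360475) (nat_lit 8) (.e (nat_lit 557091) (nat_lit 12) (.e (nat_lit 164022) (nat_lit 46) (.e (nat_lit 704738) (nat_lit 11) (.e (nat_lit 16410) (nat_lit 2) (.e (nat_lit 196642) (nat_lit 9) .nil))))))) (.g (nat_lit 4) .nil .nil)))) (.nd (nat_lit 5) 
(.lf (nat_lit 63644) (.g (nat_lit 3239) (.e (nat_lit 1587) (nat_lit 111) (.e (nat_lit 360475) (nat_lit 8) (.e (nat_lit 557091) (nat_lit 12) (.e (nat_lit 164022) (nat_lit 46) (.e (nat_lit 704738) (nat_lit 11) (.e (nat_lit 16397) (nat_lit 0) (.e (nat_lit 3124) (nat_lit 193) (.e (nat_lit 499978) (nat_lit 14) .nil)))))))) (.g (nat_lit 4) .nil .nil))) 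
(.lf (nat_lit 63676) (.g (nat_lit 3824) (.e (nat_lit 1587) (nat_lit 111) (.e (nat_lit 360475) (nat_lit 8) (.e (nat_lit 557091) (nat_lit 12) (.e (nat_lit 164022) (nat_lit 46) (.e (nat_lit 704738) (nat_lit 11) (.e (nat_lit 16412) (nat_lit 2) (.e (nat_lit 196637) (nat_lit 9) .nil))))))) (.g (nat_lit 5) .nil .nil))))))) (.nd (nat_lit 2) (.nd (nat_lit 3) (.nd (nat_lit 4) (.nd (nat_lit 5) 
(.lf (nat_lit 63618) (.g (nat_lit 3579) (.e (nat_lit 1587) (nat_lit 111) (.e (nat_lit 360475) (nat_lit 8) (.e (nat_lit 557091) (nat_lit 12) (.e (nat_lit 164020) (nat_lit 45) (.e (nat_lit 696343) (nat_lit 8) (.e (nat_lit 172073) (nat_lit 5) (.e (nat_lit 245784) (nat_lit 9) .nil))))))) (.g (nat_lit 5) .nil .nil))) 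
(.lf (nat_lit 63650) (.g (nat_lit 3221) (.e (nat_lit 1587) (nat_lit 111) (.e (nat_lit 360475) (nat_lit 8) (.e (nat_lit 557091) (nat_lit 12) (.e (nat_lit 164022) (nat_lit 46) (.e (nat_lit 704738) (nat_lit 11) (.e (nat_lit 16397) (nat_lit 0) (.e (nat_lit 3124) (nat_lit 193) (.e (nat_lit 499985) (nat_lit 14) .nil)))))))) (.g (nat_lit 4) .nil .nil)))) (.nd (nat_lit 5) 
(.lf (nat_lit 63634) (.g (nat_lit 2889) (.e (nat_lit 1587) (nat_lit 111) (.e (nat_lit 360475) (nat_lit 8) (.e (nat_lit 557091) (nat_lit 12) (.e (nat_lit 164022) (nat_lit 46) (.e (nat_lit 704737) (nat_lit 11) (.e (nat_lit 16411) (nat_lit 2) (.e (nat_lit 196639) (nat_lit 9) .nil))))))) (.g (nat_lit 4) .nil .nil))) 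
(.lf (nat_lit 63666) (.g (nat_lit 4413) (.e (nat_lit 1587) (nat_lit 111) (.e (nat_lit 360475) (nat_lit 8) (.e (nat_lit 557091) (nat_lit 12) (.e (nat_lit 164022) (nat_lit 46) (.e (nat_lit 704738) (nat_lit 11) (.e (nat_lit 16411) (nat_lit 2) (.e (nat_lit 196635) (nat_lit 9) .nil))))))) (.g (nat_lit 7) .nil .nil))))) (.nd (nat_lit 4) (.nd (nat_lit 5) 
(.lf (nat_lit 63626) (.g (nat_lit 2953) (.e (nat_lit 1587) (nat_lit 111) (.e (nat_lit 360475) (nat_lit 8) (.e (nat_lit 557091) (nat_lit 12) (.e (nat_lit 164022) (nat_lit 46) (.e (nat_lit 704737) (nat_lit 11) (.e (nat_lit 16410) (nat_lit 2) (.e (nat_lit 196643) (nat_lit 9) .nil))))))) (.g (nat_lit 4) .nil .nil))) 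
(.lf (nat_lit 63658) (.g (nat_lit 3181) (.e (nat_lit 1587) (nat_lit 111) (.e (nat_lit 360475) (nat_lit 8) (.e (nat_lit 557091) (nat_lit 12) (.e (nat_lit 164022) (nat_lit 46) (.e (nat_lit 704738) (nat_lit 11) (.e (nat_lit 16410) (nat_lit 2) (.e (nat_lit 196637) (nat_lit 9) .nil))))))) (.g (nat_lit 4) .nil .nil)))) (.nd (nat_lit 5) 
(.lf (nat_lit 63642) (.g (nat_lit 3218) (.e (nat_lit 1587) (nat_lit 111) (.e (nat_lit 360475) (nat_lit 8) (.e (nat_lit 557091) (nat_lit 12) (.e (nat_lit 164022) (nat_lit 46) (.e (nat_lit 704738) (nat_lit 11) (.e (nat_lit 16397) (nat_lit 0) (.e (nat_lit 3124) (nat_lit 193) (.e (nat_lit 499976) (nat_lit 14) .nil)))))))) (.g (nat_lit 4) .nil .nil))) 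
(.lf (nat_lit 63674) (.g (nat_lit 3648) (.e (nat_lit 1587) (nat_lit 111) (.e (nat_lit 360475) (nat_lit 8) (.e (nat_lit 557091) (nat_lit 12) (.e (nat_lit 164022) (nat_lit 46) (.e (nat_lit 704738) (nat_lit 11) (.e (nat_lit 16412) (nat_lit 2) (.e (nat_lit 196634) (nat_lit 9) .nil))))))) (.g (nat_lit 5) .nil .nil)))))) (.nd (nat_lit 3) (.nd (nat_lit 4) (.nd (nat_lit 5) 
(.lf (nat_lit 63622) (.g (nat_lit 5057) (.e (nat_lit 1587) (nat_lit 111) (.e (nat_lit 360475) (nat_lit 8) (.e (nat_lit 557091) (nat_lit 12) (.e (nat_lit 164022) (nat_lit 46) (.e (nat_lit 704629) (nat_lit 9) (.e (nat_lit 442) (nat_lit 33) (.e (nat_lit 434225) (nat_lit 19) (.e (nat_lit 499991) (nat_lit 14) .nil)))))))) (.g (nat_lit 5) .nil .nil))) 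
(.lf (nat_lit 63654) (.g (nat_lit 3737) (.e (nat_lit 1587) (nat_lit 111) (.e (nat_lit 360475) (nat_lit 8) (.e (nat_lit 557091) (nat_lit 12) (.e (nat_lit 164022) (nat_lit 46) (.e (nat_lit 704738) (nat_lit 11) (.e (nat_lit 16410) (nat_lit 2) (.e (nat_lit 196632) (nat_lit 9) .nil))))))) (.g (nat_lit 5) .nil .nil)))) (.nd (nat_lit 5) 
(.lf (nat_lit 63638) (.g (nat_lit 2964) (.e (nat_lit 1587) (nat_lit 111) (.e (nat_lit 360475) (nat_lit 8) (.e (nat_lit 557091) (nat_lit 12) (.e (nat_lit 164022) (nat_lit 46) (.e (nat_lit 704738) (nat_lit 11) (.e (nat_lit 16392) (nat_lit 0) (.e (nat_lit 3153) (nat_lit 193) (.e (nat_lit 499972) (nat_lit 14) .nil)))))))) (.g (nat_lit 4) .nil .nil))) 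
(.lf (nat_lit 63670) (.g (nat_lit 3995) (.e (nat_lit 1587) (nat_lit 111) (.e (nat_lit 360475) (nat_lit 8) (.e (nat_lit 557091) (nat_lit 12) (.e (nat_lit 164022) (nat_lit 46) (.e (nat_lit 704738) (nat_lit 11) (.e (nat_lit 16411) (nat_lit 2) (.e (nat_lit 196643) (nat_lit 9) .nil))))))) (.g (nat_lit 5) .nil .nil))))) (.nd (nat_lit 4) (.nd (nat_lit 5) 
(.lf (nat_lit 63630) (.g (nat_lit 3099) (.e (nat_lit 1587) (nat_lit 111) (.e (nat_lit 360475) (nat_lit 8) (.e (nat_lit 557091) (nat_lit 12) (.e (nat_lit 164022) (nat_lit 46) (.e (nat_lit 704737) (nat_lit 11) (.e (nat_lit 16411) (nat_lit 2) (.e (nat_lit 196633) (nat_lit 9) .nil))))))) (.g (nat_lit 4) .nil .nil))) 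
(.lf (nat_lit 63662) (.g (nat_lit 4123) (.e (nat_lit 1587) (nat_lit 111) (.e (nat_lit 360475) (nat_lit 8) (.e (nat_lit 557091) (nat_lit 12) (.e (nat_lit 164022) (nat_lit 46) (.e (nat_lit 704738) (nat_lit 11) (.e (nat_lit 16411) (nat_lit 2) (.e (nat_lit 196617) (nat_lit 9) .nil))))))) (.g (nat_lit 6) .nil .nil)))) (.nd (nat_lit 5) 
(.lf (nat_lit 63646) (.g (nat_lit 3153) (.e (nat_lit 1587) (nat_lit 111) (.e (nat_lit 360475) (nat_lit 8) (.e (nat_lit 557091) (nat_lit 12) (.e (nat_lit 164022) (nat_lit 46) (.e (nat_lit 704738) (nat_lit 11) (.e (nat_lit 16397) (nat_lit 0) (.e (nat_lit 3124) (nat_lit 193) (.e (nat_lit 499980) (nat_lit 14) .nil)))))))) (.g (nat_lit 4) .nil .nil))) 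
(.lf (nat_lit 63678) (.g (nat_lit 3876) (.e (nat_lit 1587) (nat_lit 111) (.e (nat_lit 360475) (nat_lit 8) (.e (nat_lit 557091) (nat_lit 12) (.e (nat_lit 164022) (nat_lit 46) (.e (nat_lit 704738) (nat_lit 11) (.e (nat_lit 16412) (nat_lit 2) (.e (nat_lit 196642) (nat_lit 9) .nil))))))) (.g (nat_lit 5) .nil .nil)))))))) 
(.nd (nat_lit 1) (.nd (nat_lit 2) (.nd (nat_lit 3) (.nd (nat_lit 4) (.nd (nat_lit 5) 
(.lf (nat_lit 63617) (.g (nat_lit 2967) (.e (nat_lit 1587) (nat_lit 111) (.e (nat_lit 360475) (nat_lit 8) (.e (nat_lit 557091) (nat_lit 12) (.e (nat_lit 164018) (nat_lit 45) (.e (nat_lit 696344) (nat_lit 8) (.e (nat_lit 172073) (nat_lit 5) (.e (nat_lit 245784) (nat_lit 9) .nil))))))) (.g (nat_lit 5) .nil .nil))) 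
(.lf (nat_lit 63649) (.g (nat_lit 3161) (.e (nat_lit 1587) (nat_lit 111) (.e (nat_lit 360475) (nat_lit 8) (.e (nat_lit 557091) (nat_lit 12) (.e (nat_lit 164022) (nat_lit 46) (.e (nat_lit 704738) (nat_lit 11) (.e (nat_lit 16397) (nat_lit 0) (.e (nat_lit 3124) (nat_lit 193) (.e (nat_lit 499984) (nat_lit 14) .nil)))))))) (.g (nat_lit 4) .nil .nil)))) (.nd (nat_lit 5) 
(.lf (nat_lit 63633) (.g (nat_lit 3540) (.e (nat_lit 1587) (nat_lit 111) (.e (nat_lit 360475) (nat_lit 8) (.e (nat_lit 557091) (nat_lit 12) (.e (nat_lit 164022) (nat_lit 46) (.e (nat_lit 704737) (nat_lit 11) (.e (nat_lit 16411) (nat_lit 2) (.e (nat_lit 196638) (nat_lit 9) .nil))))))) (.g (nat_lit 5) .nil .nil))) 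
(.lf (nat_lit 63665) (.g (nat_lit 3627) (.e (nat_lit 1587) (nat_lit 111) (.e (nat_lit 360475) (nat_lit 8) (.e (nat_lit 557091) (nat_lit 12) (.e (nat_lit 164022) (nat_lit 46) (.e (nat_lit 704738) (nat_lit 11) (.e (nat_lit 16411) (nat_lit 2) (.e (nat_lit 196633) (nat_lit 9) .nil))))))) (.g (nat_lit 5) .nil .nil))))) (.nd (nat_lit 4) (.nd (nat_lit 5) 
(.lf (nat_lit 63625) (.g (nat_lit 3081) (.e (nat_lit 1587) (nat_lit 111) (.e (nat_lit 360475) (nat_lit 8) (.e (nat_lit 557091) (nat_lit 12) (.e (nat_lit 164022) (nat_lit 46) (.e (nat_lit 704737) (nat_lit 11) (.e (nat_lit 16410) (nat_lit 2) (.e (nat_lit 196632) (nat_lit 9) .nil))))))) (.g (nat_lit 4) .nil .nil))) 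
(.lf (nat_lit 63657) (.g (nat_lit 3192) (.e (nat_lit 1587) (nat_lit 111) (.e (nat_lit 360475) (nat_lit 8) (.e (nat_lit 557091) (nat_lit 12) (.e (nat_lit 164022) (nat_lit 46) (.e (nat_lit 704738) (nat_lit 11) (.e (nat_lit 16410) (nat_lit 2) (.e (nat_lit 196636) (nat_lit 9) .nil))))))) (.g (nat_lit 4) .nil .nil)))) (.nd (nat_lit 5) 
(.lf (nat_lit 63641) (.g (nat_lit 3227) (.e (nat_lit 1587) (nat_lit 111) (.e (nat_lit 360475) (nat_lit 8) (.e (nat_lit 557091) (nat_lit 12) (.e (nat_lit 164022) (nat_lit 46) (.e (nat_lit 704738) (nat_lit 11) (.e (nat_lit 16397) (nat_lit 0) (.e (nat_lit 3124) (nat_lit 193) (.e (nat_lit 499975) (nat_lit 14) .nil)))))))) (.g (nat_lit 4) .nil .nil))) 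
(.lf (nat_lit 63673) (.g (nat_lit 5063) (.e (nat_lit 1587) (nat_lit 111) (.e (nat_lit 360475) (nat_lit 8) (.e (nat_lit 557091) (nat_lit 12) (.e (nat_lit 164022) (nat_lit 46) (.e (nat_lit 704738) (nat_lit 11) (.e (nat_lit 16412) (nat_lit 2) (.e (nat_lit 196632) (nat_lit 9) .nil))))))) (.g (nat_lit 6) .nil .nil)))))) (.nd (nat_lit 3) (.nd (nat_lit 4) (.nd (nat_lit 5) 
(.lf (nat_lit 63621) (.g (nat_lit 3482) (.e (nat_lit 1587) (nat_lit 111) (.e (nat_lit 360475) (nat_lit 8) (.e (nat_lit 557091) (nat_lit 12) (.e (nat_lit 164022) (nat_lit 46) (.e (nat_lit 704629) (nat_lit 9) (.e (nat_lit 442) (nat_lit 33) (.e (nat_lit 434222) (nat_lit 19) (.e (nat_lit 499984) (nat_lit 14) .nil)))))))) (.g (nat_lit 4) .nil .nil))) 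
(.lf (nat_lit 63653) (.g (nat_lit 3625) (.e (nat_lit 1587) (nat_lit 111) (.e (nat_lit 360475) (nat_lit 8) (.e (nat_lit 557091) (nat_lit 12) (.e (nat_lit 164022) (nat_lit 46) (.e (nat_lit 704738) (nat_lit 11) (.e (nat_lit 16410) (nat_lit 2) (.e (nat_lit 196631) (nat_lit 9) .nil))))))) (.g (nat_lit 5) .nil .nil)))) (.nd (nat_lit 5) 
(.lf (nat_lit 63637) (.g (nat_lit 2062) (.e (nat_lit 1587) (nat_lit 111) (.e (nat_lit 360475) (nat_lit 8) (.e (nat_lit 557091) (nat_lit 12) (.e (nat_lit 164022) (nat_lit 46) (.e (nat_lit 704738) (nat_lit 11) .nil))))) .nil)) 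
(.lf (nat_lit 63669) (.g (nat_lit 3417) (.e (nat_lit 1587) (nat_lit 111) (.e (nat_lit 360475) (nat_lit 8) (.e (nat_lit 557091) (nat_lit 12) (.e (nat_lit 164022) (nat_lit 46) (.e (nat_lit 704738) (nat_lit 11) (.e (nat_lit 16411) (nat_lit 2) (.e (nat_lit 196639) (nat_lit 9) .nil))))))) (.g (nat_lit 5) .nil .nil))))) (.nd (nat_lit 4) (.nd (nat_lit 5) 
(.lf (nat_lit 63629) (.g (nat_lit 3675) (.e (nat_lit 1587) (nat_lit 111) (.e (nat_lit 360475) (nat_lit 8) (.e (nat_lit 557091) (nat_lit 12) (.e (nat_lit 164022) (nat_lit 46) (.e (nat_lit 704737) (nat_lit 11) (.e (nat_lit 16411) (nat_lit 2) (.e (nat_lit 196632) (nat_lit 9) .nil))))))) (.g (nat_lit 5) .nil .nil))) 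
(.lf (nat_lit 63661) (.g (nat_lit 3609) (.e (nat_lit 1587) (nat_lit 111) (.e (nat_lit 360475) (nat_lit 8) (.e (nat_lit 557091) (nat_lit 12) (.e (nat_lit 164022) (nat_lit 46) (.e (nat_lit 704738) (nat_lit 11) (.e (nat_lit 16410) (nat_lit 2) (.e (nat_lit 196643) (nat_lit 9) .nil))))))) (.g (nat_lit 5) .nil .nil)))) (.nd (nat_lit 5) 
(.lf (nat_lit 63645) (.g (nat_lit 3235) (.e (nat_lit 1587) (nat_lit 111) (.e (nat_lit 360475) (nat_lit 8) (.e (nat_lit 557091) (nat_lit 12) (.e (nat_lit 164022) (nat_lit 46) (.e (nat_lit 704738) (nat_lit 11) (.e (nat_lit 16397) (nat_lit 0) (.e (nat_lit 3124) (nat_lit 193) (.e (nat_lit 499979) (nat_lit 14) .nil)))))))) (.g (nat_lit 4) .nil .nil))) 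
(.lf (nat_lit 63677) (.g (nat_lit 4494) (.e (nat_lit 1587) (nat_lit 111) (.e (nat_lit 360475) (nat_lit 8) (.e (nat_lit 557091) (nat_lit 12) (.e (nat_lit 164022) (nat_lit 46) (.e (nat_lit 704738) (nat_lit 11) (.e (nat_lit 16412) (nat_lit 2) (.e (nat_lit 196638) (nat_lit 9) .nil))))))) (.g (nat_lit 6) .nil .nil))))))) (.nd (nat_lit 2) (.nd (nat_lit 3) (.nd (nat_lit 4) (.nd (nat_lit 5) 
(.lf (nat_lit 63619) (.g (nat_lit 2904) (.e (nat_lit 1587) (nat_lit 111) (.e (nat_lit 360475) (nat_lit 8) (.e (nat_lit 557091) (nat_lit 12) (.e (nat_lit 164020) (nat_lit 45) (.e (nat_lit 696344) (nat_lit 8) (.e (nat_lit 172073) (nat_lit 5) (.e (nat_lit 245784) (nat_lit 9) .nil))))))) (.g (nat_lit 4) .nil .nil))) 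
(.lf (nat_lit 63651) (.g (nat_lit 3215) (.e (nat_lit 1587) (nat_lit 111) (.e (nat_lit 360475) (nat_lit 8) (.e (nat_lit 557091) (nat_lit 12) (.e (nat_lit 164022) (nat_lit 46) (.e (nat_lit 704738) (nat_lit 11) (.e (nat_lit 16397) (nat_lit 0) (.e (nat_lit 3124) (nat_lit 193) (.e (nat_lit 499990) (nat_lit 14) .nil)))))))) (.g (nat_lit 4) .nil .nil)))) (.nd (nat_lit 5) 
(.lf (nat_lit 63635) (.g (nat_lit 3469) (.e (nat_lit 1587) (nat_lit 111) (.e (nat_lit 360475) (nat_lit 8) (.e (nat_lit 557091) (nat_lit 12) (.e (nat_lit 164022) (nat_lit 46) (.e (nat_lit 704737) (nat_lit 11) (.e (nat_lit 16411) (nat_lit 2) (.e (nat_lit 196643) (nat_lit 9) .nil))))))) (.g (nat_lit 5) .nil .nil))) 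
(.lf (nat_lit 63667) (.g (nat_lit 3564) (.e (nat_lit 1587) (nat_lit 111) (.e (nat_lit 360475) (nat_lit 8) (.e (nat_lit 557091) (nat_lit 12) (.e (nat_lit 164022) (nat_lit 46) (.e (nat_lit 704738) (nat_lit 11) (.e (nat_lit 16411) (nat_lit 2) (.e (nat_lit 196636) (nat_lit 9) .nil))))))) (.g (nat_lit 5) .nil .nil))))) (.nd (nat_lit 4) (.nd (nat_lit 5) 
(.lf (nat_lit 63627) (.g (nat_lit 3619) (.e (nat_lit 1587) (nat_lit 111) (.e (nat_lit 360475) (nat_lit 8) (.e (nat_lit 557091) (nat_lit 12) (.e (nat_lit 164022) (nat_lit 46) (.e (nat_lit 704737) (nat_lit 11) (.e (nat_lit 16411) (nat_lit 2) (.e (nat_lit 196617) (nat_lit 9) .nil))))))) (.g (nat_lit 5) .nil .nil))) 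
(.lf (nat_lit 63659) (.g (nat_lit 3058) (.e (nat_lit 1587) (nat_lit 111) (.e (nat_lit 360475) (nat_lit 8) (.e (nat_lit 557091) (nat_lit 12) (.e (nat_lit 164022) (nat_lit 46) (.e (nat_lit 704738) (nat_lit 11) (.e (nat_lit 16410) (nat_lit 2) (.e (nat_lit 196639) (nat_lit 9) .nil))))))) (.g (nat_lit 4) .nil .nil)))) (.nd (nat_lit 5) 
(.lf (nat_lit 63643) (.g (nat_lit 3239) (.e (nat_lit 1587) (nat_lit 111) (.e (nat_lit 360475) (nat_lit 8) (.e (nat_lit 557091) (nat_lit 12) (.e (nat_lit 164022) (nat_lit 46) (.e (nat_lit 704738) (nat_lit 11) (.e (nat_lit 16397) (nat_lit 0) (.e (nat_lit 3124) (nat_lit 193) (.e (nat_lit 499977) (nat_lit 14) .nil)))))))) (.g (nat_lit 4) .nil .nil))) 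
(.lf (nat_lit 63675) (.g (nat_lit 3410) (.e (nat_lit 1587) (nat_lit 111) (.e (nat_lit 360475) (nat_lit 8) (.e (nat_lit 557091) (nat_lit 12) (.e (nat_lit 164022) (nat_lit 46) (.e (nat_lit 704738) (nat_lit 11) (.e (nat_lit 16412) (nat_lit 2) (.e (nat_lit 196635) (nat_lit 9) .nil))))))) (.g (nat_lit 5) .nil .nil)))))) (.nd (nat_lit 3) (.nd (nat_lit 4) (.nd (nat_lit 5) 
(.lf (nat_lit 63623) (.g (nat_lit 2915) (.e (nat_lit 1587) (nat_lit 111) (.e (nat_lit 360475) (nat_lit 8) (.e (nat_lit 557091) (nat_lit 12) (.e (nat_lit 164022) (nat_lit 46) (.e (nat_lit 704736) (nat_lit 11) (.e (nat_lit 16411) (nat_lit 2) (.e (nat_lit 196635) (nat_lit 9) .nil))))))) (.g (nat_lit 4) .nil .nil))) 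
(.lf (nat_lit 63655) (.g (nat_lit 3095) (.e (nat_lit 1587) (nat_lit 111) (.e (nat_lit 360475) (nat_lit 8) (.e (nat_lit 557091) (nat_lit 12) (.e (nat_lit 164022) (nat_lit 46) (.e (nat_lit 704738) (nat_lit 11) (.e (nat_lit 16410) (nat_lit 2) (.e (nat_lit 196633) (nat_lit 9) .nil))))))) (.g (nat_lit 4) .nil .nil)))) (.nd (nat_lit 5) 
(.lf (nat_lit 63639) (.g (nat_lit 3345) (.e (nat_lit 1587) (nat_lit 111) (.e (nat_lit 360475) (nat_lit 8) (.e (nat_lit 557091) (nat_lit 12) (.e (nat_lit 164022) (nat_lit 46) (.e (nat_lit 704738) (nat_lit 11) (.e (nat_lit 16392) (nat_lit 0) (.e (nat_lit 3167) (nat_lit 193) (.e (nat_lit 499991) (nat_lit 14) .nil)))))))) (.g (nat_lit 5) .nil .nil))) 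
(.lf (nat_lit 63671) (.g (nat_lit 4627) (.e (nat_lit 1587) (nat_lit 111) (.e (nat_lit 360475) (nat_lit 8) (.e (nat_lit 557091) (nat_lit 12) (.e (nat_lit 164022) (nat_lit 46) (.e (nat_lit 704738) (nat_lit 11) (.e (nat_lit 16412) (nat_lit 2) (.e (nat_lit 196617) (nat_lit 9) .nil))))))) (.g (nat_lit 6) .nil .nil))))) (.nd (nat_lit 4) (.nd (nat_lit 5) 
(.lf (nat_lit 63631) (.g (nat_lit 3957) (.e (nat_lit 1587) (nat_lit 111) (.e (nat_lit 360475) (nat_lit 8) (.e (nat_lit 557091) (nat_lit 12) (.e (nat_lit 164022) (nat_lit 46) (.e (nat_lit 704737) (nat_lit 11) (.e (nat_lit 16411) (nat_lit 2) (.e (nat_lit 196635) (nat_lit 9) .nil))))))) (.g (nat_lit 6) .nil .nil))) 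
(.lf (nat_lit 63663) (.g (nat_lit 3905) (.e (nat_lit 1587) (nat_lit 111) (.e (nat_lit 360475) (nat_lit 8) (.e (nat_lit 557091) (nat_lit 12) (.e (nat_lit 164022) (nat_lit 46) (.e (nat_lit 704738) (nat_lit 11) (.e (nat_lit 16411) (nat_lit 2) (.e (nat_lit 196631) (nat_lit 9) .nil))))))) (.g (nat_lit 5) .nil .nil)))) (.nd (nat_lit 5) 
(.lf (nat_lit 63647) (.g (nat_lit 3253) (.e (nat_lit 1587) (nat_lit 111) (.e (nat_lit 360475) (nat_lit 8) (.e (nat_lit 557091) (nat_lit 12) (.e (nat_lit 164022) (nat_lit 46) (.e (nat_lit 704738) (nat_lit 11) (.e (nat_lit 16397) (nat_lit 0) (.e (nat_lit 3124) (nat_lit 193) (.e (nat_lit 499981) (nat_lit 14) .nil)))))))) (.g (nat_lit 4) .nil .nil))) 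
(.lf (nat_lit 63679) (.g (nat_lit 3079) (.e (nat_lit 1587) (nat_lit 111) (.e (nat_lit 360475) (nat_lit 8) (.e (nat_lit 557091) (nat_lit 12) (.e (nat_lit 164022) (nat_lit 46) (.e (nat_lit 704738) (nat_lit 11) (.e (nat_lit 16420) (nat_lit 5) (.e (nat_lit 245781) (nat_lit 9) .nil))))))) (.g (nat_lit 4) .nil .nil)))))))))

noncomputable def tv874 : DT := (.nd (nat_lit 0) (.nd (nat_lit 1) (.nd (nat_lit 2) (.nd (nat_lit 3) (.nd (nat_lit 4) (.nd (nat_lit 5) 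
(.lf (nat_lit 63680) (.g (nat_lit 4185) (.e (nat_lit 1587) (nat_lit 111) (.e (nat_lit 360475) (nat_lit 8) (.e (nat_lit 557091) (nat_lit 12) (.e (nat_lit 164022) (nat_lit 46) (.e (nat_lit 704738) (nat_lit 11) (.e (nat_lit 16421) (nat_lit 5) (.e (nat_lit 245784) (nat_lit 9) .nil))))))) (.g (nat_lit 5) .nil .nil))) 
(.lf (nat_lit 63712) (.g (nat_lit 2010) (.e (nat_lit 1589) (nat_lit 111) (.e (nat_lit 360449) (nat_lit 0) (.e (nat_lit 7125) (nat_lit 382) (.e (nat_lit 1201) (nat_lit 88) (.e (nat_lit 65611) (nat_lit 10) (.e (nat_lit 344177) (nat_lit 43) (.e (nat_lit 770058) (nat_lit 5) .nil))))))) (.g (nat_lit 4) .nil .nil)))) (.nd (nat_lit 5) 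
(.lf (nat_lit 63696) (.g (nat_lit 2926) (.e (nat_lit 1588) (nat_lit 111) (.e (nat_lit 360475) (nat_lit 8) (.e (nat_lit 557091) (nat_lit 12) (.e (nat_lit 164022) (nat_lit 46) (.e (nat_lit 704737) (nat_lit 11) .nil))))) .nil)) 
(.lf (nat_lit 63728) (.g (nat_lit 1643) (.e (nat_lit 1589) (nat_lit 111) (.e (nat_lit 360449) (nat_lit 0) (.e (nat_lit 7261) (nat_lit 384) (.e (nat_lit 57437) (nat_lit 17) (.e (nat_lit 376855) (nat_lit 20) .nil))))) .nil)))) (.nd (nat_lit 4) (.nd (nat_lit 5) 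
(.lf (nat_lit 63688) (.g (nat_lit 1212) (.e (nat_lit 1588) (nat_lit 111) (.e (nat_lit 360475) (nat_lit 8) (.e (nat_lit 557086) (nat_lit 11) .nil))) .nil)) 
(.lf (nat_lit 63720) (.g (nat_lit 3108) (.e (nat_lit 1589) (nat_lit 111) (.e (nat_lit 360449) (nat_lit 0) (.e (nat_lit 7261) (nat_lit 384) (.e (nat_lit 57412) (nat_lit 12) (.e (nat_lit 336176) (nat_lit 10) (.e (nat_lit 344177) (nat_lit 43) (.e (nat_lit 770058) (nat_lit 5) .nil))))))) (.g (nat_lit 7) .nil .nil)))) (.nd (nat_lit 5) 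
(.lf (nat_lit 63704) (.g (nat_lit 1893) (.e (nat_lit 1589) (nat_lit 111) (.e (nat_lit 360449) (nat_lit 0) (.e (nat_lit 7122) (nat_lit 382) (.e (nat_lit 1201) (nat_lit 88) (.e (nat_lit 65617) (nat_lit 10) (.e (nat_lit 344175) (nat_lit 43) (.e (nat_lit 770057) (nat_lit 5) .nil))))))) (.g (nat_lit 4) .nil .nil))) 
(.lf (nat_lit 63736) (.g (nat_lit 1524) (.e (nat_lit 1589) (nat_lit 111) (.e (nat_lit 360449) (nat_lit 0) (.e (nat_lit 7263) (nat_lit 384) (.e (nat_lit 57428) (nat_lit 15) (.e (nat_lit 360489) (nat_lit 21) (.e (nat_lit 770058) (nat_lit 5) .nil)))))) (.g (nat_lit 4) .nil .nil)))))) (.nd (nat_lit 3) (.nd (nat_lit 4) (.nd (nat_lit 5) 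
(.lf (nat_lit 63684) (.g (nat_lit 2054) (.e (nat_lit 1587) (nat_lit 111) (.e (nat_lit 360475) (nat_lit 8) (.e (nat_lit 557119) (nat_lit 18) (.e (nat_lit 2808) (nat_lit 180) (.e (nat_lit 303140) (nat_lit 10) .nil))))) .nil)) 
(.lf (nat_lit 63716) (.g (nat_lit 3806) (.e (nat_lit 1589) (nat_lit 111) (.e (nat_lit 360449) (nat_lit 0) (.e (nat_lit 7125) (nat_lit 382) (.e (nat_lit 1222) (nat_lit 90) (.e (nat_lit 81943) (nat_lit 20) (.e (nat_lit 2281) (nat_lit 150) (.e (nat_lit 770058) (nat_lit 5) .nil))))))) (.g (nat_lit 0) .nil .nil)))) (.nd (nat_lit 5) 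
(.lf (nat_lit 63700) (.g (nat_lit 844) (.e (nat_lit 1588) (nat_lit 111) (.e (nat_lit 360475) (nat_lit 8) (.e (nat_lit 557119) (nat_lit 18) .nil))) .nil)) 
(.lf (nat_lit 63732) (.g (nat_lit 2029) (.e (nat_lit 1589) (nat_lit 111) (.e (nat_lit 360449) (nat_lit 0) (.e (nat_lit 7263) (nat_lit 384) (.e (nat_lit 57426) (nat_lit 15) (.e (nat_lit 360489) (nat_lit 21) (.e (nat_lit 770058) (nat_lit 5) .nil)))))) (.g (nat_lit 6) .nil .nil))))) (.nd (nat_lit 4) (.nd (nat_lit 5) 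
(.lf (nat_lit 63692) (.g (nat_lit 2484) (.e (nat_lit 1588) (nat_lit 111) (.e (nat_lit 360475) (nat_lit 8) (.e (nat_lit 557090) (nat_lit 12) (.e (nat_lit 164020) (nat_lit 45) .nil)))) .nil)) 
(.lf (nat_lit 63724) (.g (nat_lit 2192) (.e (nat_lit 1589) (nat_lit 111) (.e (nat_lit 360449) (nat_lit 0) (.e (nat_lit 7261) (nat_lit 384) (.e (nat_lit 57427) (nat_lit 15) (.e (nat_lit 360489) (nat_lit 21) (.e (nat_lit 770058) (nat_lit 5) .nil)))))) (.g (nat_lit 6) .nil .nil)))) (.nd (nat_lit 5) 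
(.lf (nat_lit 63708) (.g (nat_lit 1228) (.e (nat_lit 1589) (nat_lit 111) (.e (nat_lit 360449) (nat_lit 0) (.e (nat_lit 7122) (nat_lit 382) (.e (nat_lit 7936) (nat_lit 90) .nil)))) .nil)) 
(.lf (nat_lit 63740) (.g (nat_lit 2542) (.e (nat_lit 1589) (nat_lit 111) (.e (nat_lit 360449) (nat_lit 0) (.e (nat_lit 7265) (nat_lit 384) (.e (nat_lit 57412) (nat_lit 12) (.e (nat_lit 336176) (nat_lit 10) (.e (nat_lit 344177) (nat_lit 43) (.e (nat_lit 770055) (nat_lit 5) .nil))))))) (.g (nat_lit 6) .nil .nil))))))) (.nd (nat_lit 2) (.nd (nat_lit 3) (.nd (nat_lit 4) (.nd (nat_lit 5) 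
(.lf (nat_lit 63682) (.g (nat_lit 3324) (.e (nat_lit 1587) (nat_lit 111) (.e (nat_lit 360475) (nat_lit 8) (.e (nat_lit 557119) (nat_lit 18) (.e (nat_lit 2798) (nat_lit 180) (.e (nat_lit 303133) (nat_lit 9) (.e (nat_lit 426412) (nat_lit 15) (.e (nat_lit 1915) (nat_lit 130) (.e (nat_lit 606213) (nat_lit 0) .nil)))))))) (.g (nat_lit 4) .nil .nil))) 
(.lf (nat_lit 63714) (.g (nat_lit 2474) (.e (nat_lit 1589) (nat_lit 111) (.e (nat_lit 360449) (nat_lit 0) (.e (nat_lit 7125) (nat_lit 382) (.e (nat_lit 1222) (nat_lit 90) (.e (nat_lit 81938) (nat_lit 20) (.e (nat_lit 2281) (nat_lit 150) (.e (nat_lit 770058) (nat_lit 5) .nil))))))) (.g (nat_lit 4) .nil .nil)))) (.nd (nat_lit 5) 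
(.lf (nat_lit 63698) (.g (nat_lit 2845) (.e (nat_lit 1588) (nat_lit 111) (.e (nat_lit 360475) (nat_lit 8) (.e (nat_lit 557091) (nat_lit 12) (.e (nat_lit 164022) (nat_lit 46) (.e (nat_lit 704738) (nat_lit 11) (.e (nat_lit 16411) (nat_lit 2) (.e (nat_lit 196623) (nat_lit 9) .nil))))))) (.g (nat_lit 4) .nil .nil))) 
(.lf (nat_lit 63730) (.g (nat_lit 2001) (.e (nat_lit 1589) (nat_lit 111) (.e (nat_lit 360449) (nat_lit 0) (.e (nat_lit 7263) (nat_lit 384) (.e (nat_lit 57412) (nat_lit 12) (.e (nat_lit 336176) (nat_lit 10) (.e (nat_lit 344177) (nat_lit 43) (.e (nat_lit 770055) (nat_lit 5) .nil))))))) (.g (nat_lit 5) .nil .nil))))) (.nd (nat_lit 4) (.nd (nat_lit 5) 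
(.lf (nat_lit 63690) (.g (nat_lit 2387) (.e (nat_lit 1588) (nat_lit 111) (.e (nat_lit 360475) (nat_lit 8) (.e (nat_lit 557086) (nat_lit 11) (.e (nat_lit 24665) (nat_lit 14) .nil)))) .nil)) 
(.lf (nat_lit 63722) (.g (nat_lit 2089) (.e (nat_lit 1589) (nat_lit 111) (.e (nat_lit 360449) (nat_lit 0) (.e (nat_lit 7261) (nat_lit 384) (.e (nat_lit 57426) (nat_lit 15) (.e (nat_lit 360489) (nat_lit 21) (.e (nat_lit 770058) (nat_lit 5) .nil)))))) (.g (nat_lit 6) .nil .nil)))) (.nd (nat_lit 5) 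
(.lf (nat_lit 63706) (.g (nat_lit 1112) (.e (nat_lit 1589) (nat_lit 111) (.e (nat_lit 360449) (nat_lit 0) (.e (nat_lit 7122) (nat_lit 382) (.e (nat_lit 1222) (nat_lit 90) .nil)))) .nil)) 
(.lf (nat_lit 63738) (.g (nat_lit 3336) (.e (nat_lit 1589) (nat_lit 111) (.e (nat_lit 360449) (nat_lit 0) (.e (nat_lit 7265) (nat_lit 384) (.e (nat_lit 57412) (nat_lit 12) (.e (nat_lit 336173) (nat_lit 10) (.e (nat_lit 344177) (nat_lit 43) (.e (nat_lit 770057) (nat_lit 5) .nil))))))) (.g (nat_lit 7) .nil .nil)))))) (.nd (nat_lit 3) (.nd (nat_lit 4) (.nd (nat_lit 5) 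
(.lf (nat_lit 63686) (.g (nat_lit 3117) (.e (nat_lit 1587) (nat_lit 111) (.e (nat_lit 360491) (nat_lit 22) (.e (nat_lit 778466) (nat_lit 11) (.e (nat_lit 24617) (nat_lit 7) (.e (nat_lit 319505) (nat_lit 10) (.e (nat_lit 726) (nat_lit 65) (.e (nat_lit 696352) (nat_lit 13) .nil))))))) (.g (nat_lit 5) .nil .nil))) 
(.lf (nat_lit 63718) (.g (nat_lit 3067) (.e (nat_lit 1589) (nat_lit 111) (.e (nat_lit 360449) (nat_lit 0) (.e (nat_lit 7261) (nat_lit 384) (.e (nat_lit 57412) (nat_lit 12) (.e (nat_lit 336173) (nat_lit 10) (.e (nat_lit 344177) (nat_lit 43) (.e (nat_lit 770058) (nat_lit 5) .nil))))))) (.g (nat_lit 6) .nil .nil)))) (.nd (nat_lit 5) 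
(.lf (nat_lit 63702) (.g (nat_lit 2649) (.e (nat_lit 1589) (nat_lit 111) (.e (nat_lit 360449) (nat_lit 0) (.e (nat_lit 7122) (nat_lit 382) (.e (nat_lit 1201) (nat_lit 88) (.e (nat_lit 65610) (nat_lit 10) (.e (nat_lit 344177) (nat_lit 43) (.e (nat_lit 770055) (nat_lit 5) .nil))))))) (.g (nat_lit 5) .nil .nil))) 
(.lf (nat_lit 63734) (.g (nat_lit 2142) (.e (nat_lit 1589) (nat_lit 111) (.e (nat_lit 360449) (nat_lit 0) (.e (nat_lit 7263) (nat_lit 384) (.e (nat_lit 57427) (nat_lit 15) (.e (nat_lit 360489) (nat_lit 21) (.e (nat_lit 770058) (nat_lit 5) .nil)))))) (.g (nat_lit 6) .nil .nil))))) (.nd (nat_lit 4) (.nd (nat_lit 5) 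
(.lf (nat_lit 63694) (.g (nat_lit 4101) (.e (nat_lit 1588) (nat_lit 111) (.e (nat_lit 360475) (nat_lit 8) (.e (nat_lit 557090) (nat_lit 12) (.e (nat_lit 164020) (nat_lit 45) (.e (nat_lit 696344) (nat_lit 8) (.e (nat_lit 172138) (nat_lit 15) (.e (nat_lit 7936) (nat_lit 126) (.e (nat_lit 573449) (nat_lit 9) .nil)))))))) (.g (nat_lit 4) .nil .nil))) 
(.lf (nat_lit 63726) (.g (nat_lit 2393) (.e (nat_lit 1589) (nat_lit 111) (.e (nat_lit 360449) (nat_lit 0) (.e (nat_lit 7261) (nat_lit 384) (.e (nat_lit 57428) (nat_lit 15) (.e (nat_lit 360489) (nat_lit 21) (.e (nat_lit 770058) (nat_lit 5) .nil)))))) (.g (nat_lit 6) .nil .nil)))) (.nd (nat_lit 5) 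
(.lf (nat_lit 63710) (.g (nat_lit 2927) (.e (nat_lit 1589) (nat_lit 111) (.e (nat_lit 360449) (nat_lit 0) (.e (nat_lit 7125) (nat_lit 382) (.e (nat_lit 1201) (nat_lit 88) (.e (nat_lit 65610) (nat_lit 10) (.e (nat_lit 344177) (nat_lit 43) (.e (nat_lit 770055) (nat_lit 5) .nil))))))) (.g (nat_lit 6) .nil .nil))) 
(.lf (nat_lit 63742) (.g (nat_lit 1931) (.e (nat_lit 1589) (nat_lit 111) (.e (nat_lit 360449) (nat_lit 0) (.e (nat_lit 7265) (nat_lit 384) (.e (nat_lit 57424) (nat_lit 14) (.e (nat_lit 352302) (nat_lit 20) (.e (nat_lit 2281) (nat_lit 150) (.e (nat_lit 770057) (nat_lit 5) .nil))))))) (.g (nat_lit 4) .nil .nil)))))))) 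
(.nd (nat_lit 1) (.nd (nat_lit 2) (.nd (nat_lit 3) (.nd (nat_lit 4) (.nd (nat_lit 5) 
(.lf (nat_lit 63681) (.g (nat_lit 1480) (.e (nat_lit 1587) (nat_lit 111) (.e (nat_lit 360475) (nat_lit 8) (.e (nat_lit 557091) (nat_lit 12) (.e (nat_lit 171776) (nat_lit 48) .nil)))) .nil)) 
(.lf (nat_lit 63713) (.g (nat_lit 2797) (.e (nat_lit 1589) (nat_lit 111) (.e (nat_lit 360449) (nat_lit 0) (.e (nat_lit 7125) (nat_lit 382) (.e (nat_lit 1201) (nat_lit 88) (.e (nat_lit 65617) (nat_lit 10) (.e (nat_lit 344175) (nat_lit 43) (.e (nat_lit 770058) (nat_lit 5) .nil))))))) (.g (nat_lit 5) .nil .nil)))) (.nd (nat_lit 5) 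
(.lf (nat_lit 63697) (.g (nat_lit 2829) (.e (nat_lit 1588) (nat_lit 111) (.e (nat_lit 360475) (nat_lit 8) (.e (nat_lit 557091) (nat_lit 12) (.e (nat_lit 164022) (nat_lit 46) (.e (nat_lit 704738) (nat_lit 11) .nil))))) .nil)) 
(.lf (nat_lit 63729) (.g (nat_lit 3022) (.e (nat_lit 1589) (nat_lit 111) (.e (nat_lit 360449) (nat_lit 0) (.e (nat_lit 7263) (nat_lit 384) (.e (nat_lit 57412) (nat_lit 12) (.e (nat_lit 336173) (nat_lit 10) (.e (nat_lit 344177) (nat_lit 43) (.e (nat_lit 770058) (nat_lit 5) .nil))))))) (.g (nat_lit 6) .nil .nil))))) (.nd (nat_lit 4) (.nd (nat_lit 5) 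
(.lf (nat_lit 63689) (.g (nat_lit 2473) (.e (nat_lit 1588) (nat_lit 111) (.e (nat_lit 360475) (nat_lit 8) (.e (nat_lit 557086) (nat_lit 11) (.e (nat_lit 24650) (nat_lit 12) .nil)))) .nil)) 
(.lf (nat_lit 63721) (.g (nat_lit 1927) (.e (nat_lit 1589) (nat_lit 111) (.e (nat_lit 360449) (nat_lit 0) (.e (nat_lit 7261) (nat_lit 384) (.e (nat_lit 57426) (nat_lit 15) (.e (nat_lit 360489) (nat_lit 21) (.e (nat_lit 770057) (nat_lit 5) .nil)))))) (.g (nat_lit 6) .nil .nil)))) (.nd (nat_lit 5) 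
(.lf (nat_lit 63705) (.g (nat_lit 2656) (.e (nat_lit 1589) (nat_lit 111) (.e (nat_lit 360449) (nat_lit 0) (.e (nat_lit 7122) (nat_lit 382) (.e (nat_lit 1201) (nat_lit 88) (.e (nat_lit 65617) (nat_lit 10) (.e (nat_lit 344177) (nat_lit 43) (.e (nat_lit 770055) (nat_lit 5) .nil))))))) (.g (nat_lit 5) .nil .nil))) 
(.lf (nat_lit 63737) (.g (nat_lit 2478) (.e (nat_lit 1589) (nat_lit 111) (.e (nat_lit 360449) (nat_lit 0) (.e (nat_lit 7265) (nat_lit 384) (.e (nat_lit 57412) (nat_lit 12) (.e (nat_lit 336173) (nat_lit 10) (.e (nat_lit 344177) (nat_lit 43) (.e (nat_lit 770055) (nat_lit 5) .nil))))))) (.g (nat_lit 5) .nil .nil)))))) (.nd (nat_lit 3) (.nd (nat_lit 4) (.nd (nat_lit 5) 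
(.lf (nat_lit 63685) (.g (nat_lit 1056) (.e (nat_lit 1587) (nat_lit 111) (.e (nat_lit 360486) (nat_lit 18) (.e (nat_lit 671764) (nat_lit 6) (.e (nat_lit 81959) (nat_lit 24) .nil)))) .nil)) 
(.lf (nat_lit 63717) (.g (nat_lit 2820) (.e (nat_lit 1589) (nat_lit 111) (.e (nat_lit 360449) (nat_lit 0) (.e (nat_lit 7261) (nat_lit 384) (.e (nat_lit 57412) (nat_lit 12) (.e (nat_lit 336173) (nat_lit 10) (.e (nat_lit 344177) (nat_lit 43) (.e (nat_lit 770057) (nat_lit 5) .nil))))))) (.g (nat_lit 6) .nil .nil)))) (.nd (nat_lit 5) 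
(.lf (nat_lit 63701) (.g (nat_lit 2148) (.e (nat_lit 1588) (nat_lit 111) (.e (nat_lit 360475) (nat_lit 8) (.e (nat_lit 557119) (nat_lit 18) (.e (nat_lit 2807) (nat_lit 180) .nil)))) .nil)) 
(.lf (nat_lit 63733) (.g (nat_lit 1973) (.e (nat_lit 1589) (nat_lit 111) (.e (nat_lit 360449) (nat_lit 0) (.e (nat_lit 7263) (nat_lit 384) (.e (nat_lit 57427) (nat_lit 15) (.e (nat_lit 360489) (nat_lit 21) (.e (nat_lit 770057) (nat_lit 5) .nil)))))) (.g (nat_lit 6) .nil .nil))))) (.nd (nat_lit 4) (.nd (nat_lit 5) 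
(.lf (nat_lit 63693) (.g (nat_lit 3147) (.e (nat_lit 1588) (nat_lit 111) (.e (nat_lit 360475) (nat_lit 8) (.e (nat_lit 557090) (nat_lit 12) (.e (nat_lit 164020) (nat_lit 45) (.e (nat_lit 696344) (nat_lit 8) .nil))))) .nil)) 
(.lf (nat_lit 63725) (.g (nat_lit 2225) (.e (nat_lit 1589) (nat_lit 111) (.e (nat_lit 360449) (nat_lit 0) (.e (nat_lit 7261) (nat_lit 384) (.e (nat_lit 57428) (nat_lit 15) (.e (nat_lit 360489) (nat_lit 21) (.e (nat_lit 770057) (nat_lit 5) .nil)))))) (.g (nat_lit 6) .nil .nil)))) (.nd (nat_lit 5) 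
(.lf (nat_lit 63709) (.g (nat_lit 3469) (.e (nat_lit 1589) (nat_lit 111) (.e (nat_lit 360449) (nat_lit 0) (.e (nat_lit 7124) (nat_lit 382) (.e (nat_lit 1201) (nat_lit 88) (.e (nat_lit 65617) (nat_lit 10) (.e (nat_lit 344177) (nat_lit 43) (.e (nat_lit 770058) (nat_lit 5) .nil))))))) (.g (nat_lit 0) .nil .nil))) 
(.lf (nat_lit 63741) (.g (nat_lit 3635) (.e (nat_lit 1589) (nat_lit 111) (.e (nat_lit 360449) (nat_lit 0) (.e (nat_lit 7265) (nat_lit 384) (.e (nat_lit 57412) (nat_lit 12) (.e (nat_lit 336176) (nat_lit 10) (.e (nat_lit 344177) (nat_lit 43) (.e (nat_lit 770058) (nat_lit 5) .nil))))))) (.g (nat_lit 0) .nil .nil))))))) (.nd (nat_lit 2) (.nd (nat_lit 3) (.nd (nat_lit 4) (.nd (nat_lit 5) 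
(.lf (nat_lit 63683) (.g (nat_lit 4446) (.e (nat_lit 1587) (nat_lit 111) (.e (nat_lit 360475) (nat_lit 8) (.e (nat_lit 557119) (nat_lit 18) (.e (nat_lit 2798) (nat_lit 180) (.e (nat_lit 303143) (nat_lit 12) (.e (nat_lit 475190) (nat_lit 35) (.e (nat_lit 606213) (nat_lit 0) .nil))))))) (.g (nat_lit 5) .nil .nil))) 
(.lf (nat_lit 63715) (.g (nat_lit 2215) (.e (nat_lit 1589) (nat_lit 111) (.e (nat_lit 360449) (nat_lit 0) (.e (nat_lit 7125) (nat_lit 382) (.e (nat_lit 1222) (nat_lit 90) (.e (nat_lit 81939) (nat_lit 20) .nil))))) .nil))) (.nd (nat_lit 5) 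
(.lf (nat_lit 63699) (.g (nat_lit 3441) (.e (nat_lit 1588) (nat_lit 111) (.e (nat_lit 360475) (nat_lit 8) (.e (nat_lit 557091) (nat_lit 12) (.e (nat_lit 164022) (nat_lit 46) (.e (nat_lit 704738) (nat_lit 11) (.e (nat_lit 16412) (nat_lit 2) (.e (nat_lit 196623) (nat_lit 9) .nil))))))) (.g (nat_lit 5) .nil .nil))) 
(.lf (nat_lit 63731) (.g (nat_lit 3100) (.e (nat_lit 1589) (nat_lit 111) (.e (nat_lit 360449) (nat_lit 0) (.e (nat_lit 7263) (nat_lit 384) (.e (nat_lit 57412) (nat_lit 12) (.e (nat_lit 336176) (nat_lit 10) (.e (nat_lit 344177) (nat_lit 43) (.e (nat_lit 770058) (nat_lit 5) .nil))))))) (.g (nat_lit 7) .nil .nil))))) (.nd (nat_lit 4) (.nd (nat_lit 5) 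
(.lf (nat_lit 63691) (.g (nat_lit 3133) (.e (nat_lit 1588) (nat_lit 111) (.e (nat_lit 360475) (nat_lit 8) (.e (nat_lit 557086) (nat_lit 11) (.e (nat_lit 24665) (nat_lit 14) (.e (nat_lit 401414) (nat_lit 0) .nil))))) .nil)) 
(.lf (nat_lit 63723) (.g (nat_lit 2023) (.e (nat_lit 1589) (nat_lit 111) (.e (nat_lit 360449) (nat_lit 0) (.e (nat_lit 7261) (nat_lit 384) (.e (nat_lit 57427) (nat_lit 15) (.e (nat_lit 360489) (nat_lit 21) (.e (nat_lit 770057) (nat_lit 5) .nil)))))) (.g (nat_lit 6) .nil .nil)))) (.nd (nat_lit 5) 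
(.lf (nat_lit 63707) (.g (nat_lit 2251) (.e (nat_lit 1589) (nat_lit 111) (.e (nat_lit 360449) (nat_lit 0) (.e (nat_lit 7122) (nat_lit 382) (.e (nat_lit 1222) (nat_lit 90) (.e (nat_lit 81943) (nat_lit 20) (.e (nat_lit 2280) (nat_lit 150) (.e (nat_lit 770057) (nat_lit 5) .nil))))))) (.g (nat_lit 4) .nil .nil))) 
(.lf (nat_lit 63739) (.g (nat_lit 3577) (.e (nat_lit 1589) (nat_lit 111) (.e (nat_lit 360449) (nat_lit 0) (.e (nat_lit 7265) (nat_lit 384) (.e (nat_lit 57412) (nat_lit 12) (.e (nat_lit 336173) (nat_lit 10) (.e (nat_lit 344177) (nat_lit 43) (.e (nat_lit 770058) (nat_lit 5) .nil))))))) (.g (nat_lit 7) .nil .nil)))))) (.nd (nat_lit 3) (.nd (nat_lit 4) (.nd (nat_lit 5) 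
(.lf (nat_lit 63687) (.g (nat_lit 2873) (.e (nat_lit 1588) (nat_lit 111) (.e (nat_lit 360473) (nat_lit 8) (.e (nat_lit 557090) (nat_lit 12) (.e (nat_lit 164020) (nat_lit 45) .nil)))) .nil)) 
(.lf (nat_lit 63719) (.g (nat_lit 2009) (.e (nat_lit 1589) (nat_lit 111) (.e (nat_lit 360449) (nat_lit 0) (.e (nat_lit 7261) (nat_lit 384) (.e (nat_lit 57412) (nat_lit 12) (.e (nat_lit 336176) (nat_lit 10) (.e (nat_lit 344177) (nat_lit 43) (.e (nat_lit 770055) (nat_lit 5) .nil))))))) (.g (nat_lit 5) .nil .nil)))) (.nd (nat_lit 5) 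
(.lf (nat_lit 63703) (.g (nat_lit 1932) (.e (nat_lit 1589) (nat_lit 111) (.e (nat_lit 360449) (nat_lit 0) (.e (nat_lit 7122) (nat_lit 382) (.e (nat_lit 1201) (nat_lit 88) (.e (nat_lit 65611) (nat_lit 10) .nil))))) .nil)) 
(.lf (nat_lit 63735) (.g (nat_lit 1442) (.e (nat_lit 1589) (nat_lit 111) (.e (nat_lit 360449) (nat_lit 0) (.e (nat_lit 7263) (nat_lit 384) (.e (nat_lit 57428) (nat_lit 15) (.e (nat_lit 360489) (nat_lit 21) .nil))))) .nil)))) (.nd (nat_lit 4) (.nd (nat_lit 5) 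
(.lf (nat_lit 63695) (.g (nat_lit 2301) (.e (nat_lit 1588) (nat_lit 111) (.e (nat_lit 360475) (nat_lit 8) (.e (nat_lit 557091) (nat_lit 12) (.e (nat_lit 164022) (nat_lit 46) .nil)))) .nil)) 
(.lf (nat_lit 63727) (.g (nat_lit 1659) (.e (nat_lit 1589) (nat_lit 111) (.e (nat_lit 360449) (nat_lit 0) (.e (nat_lit 7261) (nat_lit 384) (.e (nat_lit 57436) (nat_lit 17) (.e (nat_lit 376855) (nat_lit 20) (.e (nat_lit 2276) (nat_lit 150) (.e (nat_lit 770057) (nat_lit 5) .nil))))))) (.g (nat_lit 4) .nil .nil)))) (.nd (nat_lit 5) 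
(.lf (nat_lit 63711) (.g (nat_lit 3859) (.e (nat_lit 1589) (nat_lit 111) (.e (nat_lit 360449) (nat_lit 0) (.e (nat_lit 7125) (nat_lit 382) (.e (nat_lit 1201) (nat_lit 88) (.e (nat_lit 65610) (nat_lit 10) (.e (nat_lit 344177) (nat_lit 43) (.e (nat_lit 770057) (nat_lit 5) .nil))))))) (.g (nat_lit 7) .nil .nil))) 
(.lf (nat_lit 63743) (.g (nat_lit 2103) (.e (nat_lit 1589) (nat_lit 111) (.e (nat_lit 360449) (nat_lit 0) (.e (nat_lit 7265) (nat_lit 384) (.e (nat_lit 57424) (nat_lit 14) (.e (nat_lit 352302) (nat_lit 20) (.e (nat_lit 2281) (nat_lit 150) (.e (nat_lit 770058) (nat_lit 5) .nil))))))) (.g (nat_lit 4) .nil .nil)))))))))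

noncomputable def tv875 : DT := (.nd (nat_lit 0) (.nd (nat_lit 1) (.nd (nat_lit 2) (.nd (nat_lit 3) (.nd (nat_lit 4) (.nd (nat_lit 5) 
(.lf (nat_lit 63744) (.g (nat_lit 2521) (.e (nat_lit 1589) (nat_lit 111) (.e (nat_lit 360449) (nat_lit 0) (.e (nat_lit 7265) (nat_lit 384) (.e (nat_lit 57424) (nat_lit 14) (.e (nat_lit 352303) (nat_lit 20) (.e (nat_lit 2281) (nat_lit 150) (.e (nat_lit 770057) (nat_lit 5) .nil))))))) (.g (nat_lit 6) .nil .nil))) 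
(.lf (nat_lit 63776) (.g (nat_lit 1807) (.e (nat_lit 1589) (nat_lit 111) (.e (nat_lit 360451) (nat_lit 0) (.e (nat_lit 7125) (nat_lit 382) (.e (nat_lit 1224) (nat_lit 90) (.e (nat_lit 81946) (nat_lit 20) .nil))))) .nil))) (.nd (nat_lit 5) 
(.lf (nat_lit 63760) (.g (nat_lit 1847) (.e (nat_lit 1589) (nat_lit 111) (.e (nat_lit 360449) (nat_lit 0) (.e (nat_lit 7266) (nat_lit 384) (.e (nat_lit 57436) (nat_lit 17) (.e (nat_lit 376855) (nat_lit 20) (.e (nat_lit 2276) (nat_lit 150) (.e (nat_lit 770057) (nat_lit 5) .nil))))))) (.g (nat_lit 4) .nil .nil))) 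
(.lf (nat_lit 63792) (.g (nat_lit 2417) (.e (nat_lit 1589) (nat_lit 111) (.e (nat_lit 360451) (nat_lit 0) (.e (nat_lit 7265) (nat_lit 384) (.e (nat_lit 57436) (nat_lit 17) (.e (nat_lit 376855) (nat_lit 20) (.e (nat_lit 2276) (nat_lit 150) (.e (nat_lit 770057) (nat_lit 5) .nil))))))) (.g (nat_lit 4) .nil .nil))))) (.nd (nat_lit 4) (.nd (nat_lit 5) 
(.lf (nat_lit 63752) (.g (nat_lit 2269) (.e (nat_lit 1589) (nat_lit 111) (.e (nat_lit 360449) (nat_lit 0) (.e (nat_lit 7265) (nat_lit 384) (.e (nat_lit 57428) (nat_lit 15) (.e (nat_lit 360489) (nat_lit 21) (.e (nat_lit 770058) (nat_lit 5) .nil)))))) (.g (nat_lit 6) .nil .nil))) 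
(.lf (nat_lit 63784) (.g (nat_lit 3579) (.e (nat_lit 1589) (nat_lit 111) (.e (nat_lit 360451) (nat_lit 0) (.e (nat_lit 7265) (nat_lit 384) (.e (nat_lit 57412) (nat_lit 12) (.e (nat_lit 336173) (nat_lit 10) (.e (nat_lit 344177) (nat_lit 43) (.e (nat_lit 770058) (nat_lit 5) .nil))))))) (.g (nat_lit 6) .nil .nil)))) (.nd (nat_lit 5) 
(.lf (nat_lit 63768) (.g (nat_lit 2269) (.e (nat_lit 1589) (nat_lit 111) (.e (nat_lit 360451) (nat_lit 0) (.e (nat_lit 7125) (nat_lit 382) (.e (nat_lit 1201) (nat_lit 88) (.e (nat_lit 65611) (nat_lit 10) (.e (nat_lit 344177) (nat_lit 43) (.e (nat_lit 770055) (nat_lit 5) .nil))))))) (.g (nat_lit 4) .nil .nil))) 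
(.lf (nat_lit 63800) (.g (nat_lit 2231) (.e (nat_lit 1589) (nat_lit 111) (.e (nat_lit 360452) (nat_lit 0) (.e (nat_lit 5905) (nat_lit 320) (.e (nat_lit 1190) (nat_lit 88) (.e (nat_lit 65619) (nat_lit 10) .nil))))) .nil))))) (.nd (nat_lit 3) (.nd (nat_lit 4) (.nd (nat_lit 5) 
(.lf (nat_lit 63748) (.g (nat_lit 1990) (.e (nat_lit 1589) (nat_lit 111) (.e (nat_lit 360449) (nat_lit 0) (.e (nat_lit 7265) (nat_lit 384) (.e (nat_lit 57427) (nat_lit 15) (.e (nat_lit 360489) (nat_lit 21) (.e (nat_lit 770055) (nat_lit 5) .nil)))))) (.g (nat_lit 4) .nil .nil))) 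
(.lf (nat_lit 63780) (.g (nat_lit 1816) (.e (nat_lit 1589) (nat_lit 111) (.e (nat_lit 360451) (nat_lit 0) (.e (nat_lit 7261) (nat_lit 384) (.e (nat_lit 57428) (nat_lit 15) (.e (nat_lit 360489) (nat_lit 21) (.e (nat_lit 770058) (nat_lit 5) .nil)))))) (.g (nat_lit 4) .nil .nil)))) (.nd (nat_lit 5) 
(.lf (nat_lit 63764) (.g (nat_lit 1365) (.e (nat_lit 1589) (nat_lit 111) (.e (nat_lit 360451) (nat_lit 0) (.e (nat_lit 7122) (nat_lit 382) (.e (nat_lit 1224) (nat_lit 90) .nil)))) .nil)) 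
(.lf (nat_lit 63796) (.g (nat_lit 2488) (.e (nat_lit 1589) (nat_lit 111) (.e (nat_lit 360451) (nat_lit 0) (.e (nat_lit 7266) (nat_lit 384) (.e (nat_lit 57428) (nat_lit 15) (.e (nat_lit 360489) (nat_lit 21) (.e (nat_lit 770057) (nat_lit 5) .nil)))))) (.g (nat_lit 5) .nil .nil))))) (.nd (nat_lit 4) (.nd (nat_lit 5) 
(.lf (nat_lit 63756) (.g (nat_lit 2578) (.e (nat_lit 1589) (nat_lit 111) (.e (nat_lit 360449) (nat_lit 0) (.e (nat_lit 7266) (nat_lit 384) (.e (nat_lit 57427) (nat_lit 15) (.e (nat_lit 360489) (nat_lit 21) (.e (nat_lit 770057) (nat_lit 5) .nil)))))) (.g (nat_lit 0) .nil .nil))) 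
(.lf (nat_lit 63788) (.g (nat_lit 2527) (.e (nat_lit 1589) (nat_lit 111) (.e (nat_lit 360451) (nat_lit 0) (.e (nat_lit 7265) (nat_lit 384) (.e (nat_lit 57424) (nat_lit 14) (.e (nat_lit 352303) (nat_lit 20) (.e (nat_lit 2281) (nat_lit 150) (.e (nat_lit 770057) (nat_lit 5) .nil))))))) (.g (nat_lit 4) .nil .nil)))) (.nd (nat_lit 5) 
(.lf (nat_lit 63772) (.g (nat_lit 2326) (.e (nat_lit 1589) (nat_lit 111) (.e (nat_lit 360451) (nat_lit 0) (.e (nat_lit 7125) (nat_lit 382) (.e (nat_lit 1222) (nat_lit 90) (.e (nat_lit 81939) (nat_lit 20) .nil))))) .nil)) 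
(.lf (nat_lit 63804) (.g (nat_lit 2312) (.e (nat_lit 1589) (nat_lit 111) (.e (nat_lit 360452) (nat_lit 0) (.e (nat_lit 5907) (nat_lit 320) (.e (nat_lit 1221) (nat_lit 90) (.e (nat_lit 81947) (nat_lit 20) .nil))))) .nil)))))) (.nd (nat_lit 2) (.nd (nat_lit 3) (.nd (nat_lit 4) (.nd (nat_lit 5) 
(.lf (nat_lit 63746) (.g (nat_lit 2763) (.e (nat_lit 1589) (nat_lit 111) (.e (nat_lit 360449) (nat_lit 0) (.e (nat_lit 7265) (nat_lit 384) (.e (nat_lit 57426) (nat_lit 15) (.e (nat_lit 360489) (nat_lit 21) (.e (nat_lit 770057) (nat_lit 5) .nil)))))) (.g (nat_lit 0) .nil .nil))) 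
(.lf (nat_lit 63778) (.g (nat_lit 2459) (.e (nat_lit 1589) (nat_lit 111) (.e (nat_lit 360451) (nat_lit 0) (.e (nat_lit 7261) (nat_lit 384) (.e (nat_lit 57412) (nat_lit 12) (.e (nat_lit 336173) (nat_lit 10) (.e (nat_lit 344177) (nat_lit 43) (.e (nat_lit 770055) (nat_lit 5) .nil))))))) (.g (nat_lit 5) .nil .nil)))) (.nd (nat_lit 5) 
(.lf (nat_lit 63762) (.g (nat_lit 1067) (.e (nat_lit 1589) (nat_lit 111) (.e (nat_lit 360451) (nat_lit 0) (.e (nat_lit 5898) (nat_lit 320) (.e (nat_lit 7936) (nat_lit 90) .nil)))) .nil)) 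
(.lf (nat_lit 63794) (.g (nat_lit 3020) (.e (nat_lit 1589) (nat_lit 111) (.e (nat_lit 360451) (nat_lit 0) (.e (nat_lit 7266) (nat_lit 384) (.e (nat_lit 57427) (nat_lit 15) (.e (nat_lit 360489) (nat_lit 21) (.e (nat_lit 770055) (nat_lit 5) .nil)))))) (.g (nat_lit 0) .nil .nil))))) (.nd (nat_lit 4) (.nd (nat_lit 5) 
(.lf (nat_lit 63754) (.g (nat_lit 1948) (.e (nat_lit 1589) (nat_lit 111) (.e (nat_lit 360449) (nat_lit 0) (.e (nat_lit 7265) (nat_lit 384) (.e (nat_lit 57436) (nat_lit 17) (.e (nat_lit 376855) (nat_lit 20) (.e (nat_lit 2276) (nat_lit 150) (.e (nat_lit 770058) (nat_lit 5) .nil))))))) (.g (nat_lit 4) .nil .nil))) 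
(.lf (nat_lit 63786) (.g (nat_lit 3676) (.e (nat_lit 1589) (nat_lit 111) (.e (nat_lit 360451) (nat_lit 0) (.e (nat_lit 7265) (nat_lit 384) (.e (nat_lit 57412) (nat_lit 12) (.e (nat_lit 336176) (nat_lit 10) (.e (nat_lit 344177) (nat_lit 43) (.e (nat_lit 770058) (nat_lit 5) .nil))))))) (.g (nat_lit 7) .nil .nil)))) (.nd (nat_lit 5) 
(.lf (nat_lit 63770) (.g (nat_lit 2613) (.e (nat_lit 1589) (nat_lit 111) (.e (nat_lit 360451) (nat_lit 0) (.e (nat_lit 7125) (nat_lit 382) (.e (nat_lit 1222) (nat_lit 90) (.e (nat_lit 81938) (nat_lit 20) (.e (nat_lit 2281) (nat_lit 150) (.e (nat_lit 770057) (nat_lit 5) .nil))))))) (.g (nat_lit 4) .nil .nil))) 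
(.lf (nat_lit 63802) (.g (nat_lit 640) (.e (nat_lit 1589) (nat_lit 111) (.e (nat_lit 360452) (nat_lit 0) (.e (nat_lit 5907) (nat_lit 320) .nil))) .nil))))) (.nd (nat_lit 3) (.nd (nat_lit 4) (.nd (nat_lit 5) 
(.lf (nat_lit 63750) (.g (nat_lit 2999) (.e (nat_lit 1589) (nat_lit 111) (.e (nat_lit 360449) (nat_lit 0) (.e (nat_lit 7265) (nat_lit 384) (.e (nat_lit 57427) (nat_lit 15) (.e (nat_lit 360489) (nat_lit 21) (.e (nat_lit 770058) (nat_lit 5) .nil)))))) (.g (nat_lit 0) .nil .nil))) 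
(.lf (nat_lit 63782) (.g (nat_lit 3461) (.e (nat_lit 1589) (nat_lit 111) (.e (nat_lit 360451) (nat_lit 0) (.e (nat_lit 7265) (nat_lit 384) (.e (nat_lit 57412) (nat_lit 12) (.e (nat_lit 336173) (nat_lit 10) (.e (nat_lit 344177) (nat_lit 43) (.e (nat_lit 770055) (nat_lit 5) .nil))))))) (.g (nat_lit 6) .nil .nil)))) (.nd (nat_lit 5) 
(.lf (nat_lit 63766) (.g (nat_lit 1099) (.e (nat_lit 1589) (nat_lit 111) (.e (nat_lit 360451) (nat_lit 0) (.e (nat_lit 7124) (nat_lit 382) (.e (nat_lit 1224) (nat_lit 90) .nil)))) .nil)) 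
(.lf (nat_lit 63798) (.g (nat_lit 2136) (.e (nat_lit 1589) (nat_lit 111) (.e (nat_lit 360451) (nat_lit 0) (.e (nat_lit 7266) (nat_lit 384) (.e (nat_lit 57436) (nat_lit 17) (.e (nat_lit 376855) (nat_lit 20) (.e (nat_lit 2276) (nat_lit 150) (.e (nat_lit 770057) (nat_lit 5) .nil))))))) (.g (nat_lit 4) .nil .nil))))) (.nd (nat_lit 4) (.nd (nat_lit 5) 
(.lf (nat_lit 63758) (.g (nat_lit 2240) (.e (nat_lit 1589) (nat_lit 111) (.e (nat_lit 360449) (nat_lit 0) (.e (nat_lit 7266) (nat_lit 384) (.e (nat_lit 57428) (nat_lit 15) (.e (nat_lit 360489) (nat_lit 21) (.e (nat_lit 770057) (nat_lit 5) .nil)))))) (.g (nat_lit 4) .nil .nil))) 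
(.lf (nat_lit 63790) (.g (nat_lit 2911) (.e (nat_lit 1589) (nat_lit 111) (.e (nat_lit 360451) (nat_lit 0) (.e (nat_lit 7265) (nat_lit 384) (.e (nat_lit 57426) (nat_lit 15) (.e (nat_lit 360489) (nat_lit 21) (.e (nat_lit 770055) (nat_lit 5) .nil)))))) (.g (nat_lit 5) .nil .nil)))) (.nd (nat_lit 5) 
(.lf (nat_lit 63774) (.g (nat_lit 2434) (.e (nat_lit 1589) (nat_lit 111) (.e (nat_lit 360451) (nat_lit 0) (.e (nat_lit 7125) (nat_lit 382) (.e (nat_lit 1222) (nat_lit 90) (.e (nat_lit 81946) (nat_lit 20) (.e (nat_lit 2281) (nat_lit 150) (.e (nat_lit 770058) (nat_lit 5) .nil))))))) (.g (nat_lit 4) .nil .nil))) 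
(.lf (nat_lit 63806) (.g (nat_lit 1560) (.e (nat_lit 1589) (nat_lit 111) (.e (nat_lit 360452) (nat_lit 0) (.e (nat_lit 7270) (nat_lit 385) (.e (nat_lit 122916) (nat_lit 14) .nil)))) .nil))))))) (.nd (nat_lit 1) (.nd (nat_lit 2) (.nd (nat_lit 3) (.nd (nat_lit 4) (.nd (nat_lit 5) 
(.lf (nat_lit 63745) (.g (nat_lit 1887) (.e (nat_lit 1589) (nat_lit 111) (.e (nat_lit 360449) (nat_lit 0) (.e (nat_lit 7265) (nat_lit 384) (.e (nat_lit 57426) (nat_lit 15) (.e (nat_lit 360489) (nat_lit 21) (.e (nat_lit 770055) (nat_lit 5) .nil)))))) (.g (nat_lit 4) .nil .nil))) 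
(.lf (nat_lit 63777) (.g (nat_lit 1242) (.e (nat_lit 1589) (nat_lit 111) (.e (nat_lit 360451) (nat_lit 0) (.e (nat_lit 7125) (nat_lit 382) (.e (nat_lit 7936) (nat_lit 90) .nil)))) .nil))) (.nd (nat_lit 5) 
(.lf (nat_lit 63761) (.g (nat_lit 803) (.e (nat_lit 1589) (nat_lit 111) (.e (nat_lit 360450) (nat_lit 0) (.e (nat_lit 5898) (nat_lit 320) (.e (nat_lit 7936) (nat_lit 90) .nil)))) .nil)) 
(.lf (nat_lit 63793) (.g (nat_lit 2870) (.e (nat_lit 1589) (nat_lit 111) (.e (nat_lit 360451) (nat_lit 0) (.e (nat_lit 7266) (nat_lit 384) (.e (nat_lit 57426) (nat_lit 15) (.e (nat_lit 360489) (nat_lit 21) (.e (nat_lit 770055) (nat_lit 5) .nil)))))) (.g (nat_lit 0) .nil .nil))))) (.nd (nat_lit 4) (.nd (nat_lit 5) 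
(.lf (nat_lit 63753) (.g (nat_lit 1405) (.e (nat_lit 1589) (nat_lit 111) (.e (nat_lit 360449) (nat_lit 0) (.e (nat_lit 7265) (nat_lit 384) (.e (nat_lit 57436) (nat_lit 17) (.e (nat_lit 376848) (nat_lit 20) .nil))))) .nil)) 
(.lf (nat_lit 63785) (.g (nat_lit 3564) (.e (nat_lit 1589) (nat_lit 111) (.e (nat_lit 360451) (nat_lit 0) (.e (nat_lit 7265) (nat_lit 384) (.e (nat_lit 57412) (nat_lit 12) (.e (nat_lit 336176) (nat_lit 10) (.e (nat_lit 344177) (nat_lit 43) (.e (nat_lit 770055) (nat_lit 5) .nil))))))) (.g (nat_lit 7) .nil .nil)))) (.nd (nat_lit 5) 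
(.lf (nat_lit 63769) (.g (nat_lit 2407) (.e (nat_lit 1589) (nat_lit 111) (.e (nat_lit 360451) (nat_lit 0) (.e (nat_lit 7125) (nat_lit 382) (.e (nat_lit 1201) (nat_lit 88) (.e (nat_lit 65611) (nat_lit 10) (.e (nat_lit 344177) (nat_lit 43) (.e (nat_lit 770058) (nat_lit 5) .nil))))))) (.g (nat_lit 4) .nil .nil))) 
(.lf (nat_lit 63801) (.g (nat_lit 1995) (.e (nat_lit 1589) (nat_lit 111) (.e (nat_lit 360452) (nat_lit 0) (.e (nat_lit 5905) (nat_lit 320) (.e (nat_lit 1200) (nat_lit 88) (.e (nat_lit 65619) (nat_lit 10) .nil))))) .nil))))) (.nd (nat_lit 3) (.nd (nat_lit 4) (.nd (nat_lit 5) 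
(.lf (nat_lit 63749) (.g (nat_lit 2833) (.e (nat_lit 1589) (nat_lit 111) (.e (nat_lit 360449) (nat_lit 0) (.e (nat_lit 7265) (nat_lit 384) (.e (nat_lit 57427) (nat_lit 15) (.e (nat_lit 360489) (nat_lit 21) (.e (nat_lit 770057) (nat_lit 5) .nil)))))) (.g (nat_lit 0) .nil .nil))) 
(.lf (nat_lit 63781) (.g (nat_lit 490) (.e (nat_lit 1589) (nat_lit 111) (.e (nat_lit 360451) (nat_lit 0) (.e (nat_lit 7265) (nat_lit 384) .nil))) .nil))) (.nd (nat_lit 5) 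
(.lf (nat_lit 63765) (.g (nat_lit 2016) (.e (nat_lit 1589) (nat_lit 111) (.e (nat_lit 360451) (nat_lit 0) (.e (nat_lit 7124) (nat_lit 382) (.e (nat_lit 1201) (nat_lit 88) (.e (nat_lit 65611) (nat_lit 10) .nil))))) .nil)) 
(.lf (nat_lit 63797) (.g (nat_lit 2606) (.e (nat_lit 1589) (nat_lit 111) (.e (nat_lit 360451) (nat_lit 0) (.e (nat_lit 7266) (nat_lit 384) (.e (nat_lit 57428) (nat_lit 15) (.e (nat_lit 360489) (nat_lit 21) (.e (nat_lit 770058) (nat_lit 5) .nil)))))) (.g (nat_lit 5) .nil .nil))))) (.nd (nat_lit 4) (.nd (nat_lit 5) 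
(.lf (nat_lit 63757) (.g (nat_lit 2734) (.e (nat_lit 1589) (nat_lit 111) (.e (nat_lit 360449) (nat_lit 0) (.e (nat_lit 7266) (nat_lit 384) (.e (nat_lit 57427) (nat_lit 15) (.e (nat_lit 360489) (nat_lit 21) (.e (nat_lit 770058) (nat_lit 5) .nil)))))) (.g (nat_lit 0) .nil .nil))) 
(.lf (nat_lit 63789) (.g (nat_lit 2659) (.e (nat_lit 1589) (nat_lit 111) (.e (nat_lit 360451) (nat_lit 0) (.e (nat_lit 7265) (nat_lit 384) (.e (nat_lit 57424) (nat_lit 14) (.e (nat_lit 352303) (nat_lit 20) (.e (nat_lit 2281) (nat_lit 150) (.e (nat_lit 770058) (nat_lit 5) .nil))))))) (.g (nat_lit 5) .nil .nil)))) (.nd (nat_lit 5) 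
(.lf (nat_lit 63773) (.g (nat_lit 2326) (.e (nat_lit 1589) (nat_lit 111) (.e (nat_lit 360451) (nat_lit 0) (.e (nat_lit 7125) (nat_lit 382) (.e (nat_lit 1222) (nat_lit 90) (.e (nat_lit 81946) (nat_lit 20) .nil))))) .nil)) 
(.lf (nat_lit 63805) (.g (nat_lit 1556) (.e (nat_lit 1589) (nat_lit 111) (.e (nat_lit 360452) (nat_lit 0) (.e (nat_lit 7147) (nat_lit 382) (.e (nat_lit 1217) (nat_lit 90) (.e (nat_lit 81946) (nat_lit 20) .nil))))) .nil)))))) (.nd (nat_lit 2) (.nd (nat_lit 3) (.nd (nat_lit 4) (.nd (nat_lit 5) 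
(.lf (nat_lit 63747) (.g (nat_lit 2936) (.e (nat_lit 1589) (nat_lit 111) (.e (nat_lit 360449) (nat_lit 0) (.e (nat_lit 7265) (nat_lit 384) (.e (nat_lit 57426) (nat_lit 15) (.e (nat_lit 360489) (nat_lit 21) (.e (nat_lit 770058) (nat_lit 5) .nil)))))) (.g (nat_lit 0) .nil .nil))) 
(.lf (nat_lit 63779) (.g (nat_lit 2496) (.e (nat_lit 1589) (nat_lit 111) (.e (nat_lit 360451) (nat_lit 0) (.e (nat_lit 7261) (nat_lit 384) (.e (nat_lit 57412) (nat_lit 12) (.e (nat_lit 336176) (nat_lit 10) (.e (nat_lit 344177) (nat_lit 43) (.e (nat_lit 770055) (nat_lit 5) .nil))))))) (.g (nat_lit 5) .nil .nil)))) (.nd (nat_lit 5) 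
(.lf (nat_lit 63763) (.g (nat_lit 1004) (.e (nat_lit 1589) (nat_lit 111) (.e (nat_lit 360451) (nat_lit 0) (.e (nat_lit 7122) (nat_lit 382) (.e (nat_lit 1222) (nat_lit 90) .nil)))) .nil)) 
(.lf (nat_lit 63795) (.g (nat_lit 2611) (.e (nat_lit 1589) (nat_lit 111) (.e (nat_lit 360451) (nat_lit 0) (.e (nat_lit 7266) (nat_lit 384) (.e (nat_lit 57428) (nat_lit 15) (.e (nat_lit 360489) (nat_lit 21) (.e (nat_lit 770055) (nat_lit 5) .nil)))))) (.g (nat_lit 5) .nil .nil))))) (.nd (nat_lit 4) (.nd (nat_lit 5) 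
(.lf (nat_lit 63755) (.g (nat_lit 1747) (.e (nat_lit 1589) (nat_lit 111) (.e (nat_lit 360449) (nat_lit 0) (.e (nat_lit 7266) (nat_lit 384) (.e (nat_lit 57427) (nat_lit 15) (.e (nat_lit 360489) (nat_lit 21) (.e (nat_lit 770055) (nat_lit 5) .nil)))))) (.g (nat_lit 4) .nil .nil))) 
(.lf (nat_lit 63787) (.g (nat_lit 2262) (.e (nat_lit 1589) (nat_lit 111) (.e (nat_lit 360451) (nat_lit 0) (.e (nat_lit 7265) (nat_lit 384) (.e (nat_lit 57424) (nat_lit 14) (.e (nat_lit 352302) (nat_lit 20) .nil))))) .nil))) (.nd (nat_lit 5) 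
(.lf (nat_lit 63771) (.g (nat_lit 2841) (.e (nat_lit 1589) (nat_lit 111) (.e (nat_lit 360451) (nat_lit 0) (.e (nat_lit 7125) (nat_lit 382) (.e (nat_lit 1222) (nat_lit 90) (.e (nat_lit 81938) (nat_lit 20) (.e (nat_lit 2281) (nat_lit 150) (.e (nat_lit 770058) (nat_lit 5) .nil))))))) (.g (nat_lit 4) .nil .nil))) 
(.lf (nat_lit 63803) (.g (nat_lit 2600) (.e (nat_lit 1589) (nat_lit 111) (.e (nat_lit 360452) (nat_lit 0) (.e (nat_lit 5907) (nat_lit 320) (.e (nat_lit 1221) (nat_lit 90) (.e (nat_lit 81933) (nat_lit 20) .nil))))) .nil))))) (.nd (nat_lit 3) (.nd (nat_lit 4) (.nd (nat_lit 5) 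
(.lf (nat_lit 63751) (.g (nat_lit 2107) (.e (nat_lit 1589) (nat_lit 111) (.e (nat_lit 360449) (nat_lit 0) (.e (nat_lit 7265) (nat_lit 384) (.e (nat_lit 57428) (nat_lit 15) (.e (nat_lit 360489) (nat_lit 21) (.e (nat_lit 770057) (nat_lit 5) .nil)))))) (.g (nat_lit 5) .nil .nil))) 
(.lf (nat_lit 63783) (.g (nat_lit 3420) (.e (nat_lit 1589) (nat_lit 111) (.e (nat_lit 360451) (nat_lit 0) (.e (nat_lit 7265) (nat_lit 384) (.e (nat_lit 57412) (nat_lit 12) (.e (nat_lit 336173) (nat_lit 10) (.e (nat_lit 344177) (nat_lit 43) (.e (nat_lit 770057) (nat_lit 5) .nil))))))) (.g (nat_lit 6) .nil .nil)))) (.nd (nat_lit 5) 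
(.lf (nat_lit 63767) (.g (nat_lit 2256) (.e (nat_lit 1589) (nat_lit 111) (.e (nat_lit 360451) (nat_lit 0) (.e (nat_lit 7125) (nat_lit 382) (.e (nat_lit 1201) (nat_lit 88) (.e (nat_lit 65611) (nat_lit 10) .nil))))) .nil)) 
(.lf (nat_lit 63799) (.g (nat_lit 644) (.e (nat_lit 1589) (nat_lit 111) (.e (nat_lit 360452) (nat_lit 0) (.e (nat_lit 5905) (nat_lit 320) .nil))) .nil)))) (.nd (nat_lit 4) (.nd (nat_lit 5) 
(.lf (nat_lit 63759) (.g (nat_lit 2400) (.e (nat_lit 1589) (nat_lit 111) (.e (nat_lit 360449) (nat_lit 0) (.e (nat_lit 7266) (nat_lit 384) (.e (nat_lit 57428) (nat_lit 15) (.e (nat_lit 360489) (nat_lit 21) (.e (nat_lit 770058) (nat_lit 5) .nil)))))) (.g (nat_lit 5) .nil .nil))) 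
(.lf (nat_lit 63791) (.g (nat_lit 2042) (.e (nat_lit 1589) (nat_lit 111) (.e (nat_lit 360451) (nat_lit 0) (.e (nat_lit 7265) (nat_lit 384) (.e (nat_lit 57428) (nat_lit 15) (.e (nat_lit 360489) (nat_lit 21) (.e (nat_lit 770058) (nat_lit 5) .nil)))))) (.g (nat_lit 4) .nil .nil)))) (.nd (nat_lit 5) 
(.lf (nat_lit 63775) (.g (nat_lit 2312) (.e (nat_lit 1589) (nat_lit 111) (.e (nat_lit 360451) (nat_lit 0) (.e (nat_lit 7125) (nat_lit 382) (.e (nat_lit 1222) (nat_lit 90) (.e (nat_lit 81947) (nat_lit 20) .nil))))) .nil)) 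
(.lf (nat_lit 63807) (.g (nat_lit 2594) (.e (nat_lit 1589) (nat_lit 111) (.e (nat_lit 360452) (nat_lit 0) (.e (nat_lit 7270) (nat_lit 385) (.e (nat_lit 122917) (nat_lit 15) (.e (nat_lit 360489) (nat_lit 21) .nil))))) .nil))))))))

noncomputable def tv876 : DT := (.nd (nat_lit 0) (.nd (nat_lit 1) (.nd (nat_lit 2) (.nd (nat_lit 3) (.nd (nat_lit 4) (.nd (nat_lit 5) 
(.lf (nat_lit 63808) (.g (nat_lit 2747) (.e (nat_lit 1589) (nat_lit 111) (.e (nat_lit 360452) (nat_lit 0) (.e (nat_lit 7270) (nat_lit 385) (.e (nat_lit 122919) (nat_lit 15) (.e (nat_lit 360489) (nat_lit 21) .nil))))) .nil)) 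
(.lf (nat_lit 63840) (.g (nat_lit 3419) (.e (nat_lit 1589) (nat_lit 111) (.e (nat_lit 360453) (nat_lit 0) (.e (nat_lit 7270) (nat_lit 385) (.e (nat_lit 122919) (nat_lit 15) (.e (nat_lit 360489) (nat_lit 21) (.e (nat_lit 770057) (nat_lit 5) .nil)))))) (.g (nat_lit 0) .nil .nil)))) (.nd (nat_lit 5) 
(.lf (nat_lit 63824) (.g (nat_lit 2059) (.e (nat_lit 1589) (nat_lit 111) (.e (nat_lit 360453) (nat_lit 0) (.e (nat_lit 5907) (nat_lit 320) (.e (nat_lit 1221) (nat_lit 90) (.e (nat_lit 81947) (nat_lit 20) (.e (nat_lit 2005) (nat_lit 138) (.e (nat_lit 671747) (nat_lit 0) .nil))))))) (.g (nat_lit 4) .nil .nil))) 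
(.lf (nat_lit 63856) (.g (nat_lit 1995) (.e (nat_lit 1589) (nat_lit 111) (.e (nat_lit 360453) (nat_lit 0) (.e (nat_lit 7273) (nat_lit 385) (.e (nat_lit 122916) (nat_lit 14) (.e (nat_lit 352303) (nat_lit 20) (.e (nat_lit 2281) (nat_lit 150) (.e (nat_lit 770057) (nat_lit 5) .nil))))))) (.g (nat_lit 4) .nil .nil))))) (.nd (nat_lit 4) (.nd (nat_lit 5) 
(.lf (nat_lit 63816) (.g (nat_lit 1011) (.e (nat_lit 1589) (nat_lit 111) (.e (nat_lit 360453) (nat_lit 0) (.e (nat_lit 5907) (nat_lit 320) (.e (nat_lit 1199) (nat_lit 88) .nil)))) .nil)) 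
(.lf (nat_lit 63848) (.g (nat_lit 2525) (.e (nat_lit 1589) (nat_lit 111) (.e (nat_lit 360453) (nat_lit 0) (.e (nat_lit 7272) (nat_lit 385) (.e (nat_lit 122916) (nat_lit 14) (.e (nat_lit 352303) (nat_lit 20) (.e (nat_lit 2281) (nat_lit 150) (.e (nat_lit 770057) (nat_lit 5) .nil))))))) (.g (nat_lit 6) .nil .nil)))) (.nd (nat_lit 5) 
(.lf (nat_lit 63832) (.g (nat_lit 3530) (.e (nat_lit 1589) (nat_lit 111) (.e (nat_lit 360453) (nat_lit 0) (.e (nat_lit 7270) (nat_lit 385) (.e (nat_lit 122917) (nat_lit 15) (.e (nat_lit 360489) (nat_lit 21) (.e (nat_lit 770057) (nat_lit 5) .nil)))))) (.g (nat_lit 0) .nil .nil))) 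
(.lf (nat_lit 63864) (.g (nat_lit 1606) (.e (nat_lit 1589) (nat_lit 111) (.e (nat_lit 360457) (nat_lit 0) (.e (nat_lit 5948) (nat_lit 322) (.e (nat_lit 57426) (nat_lit 15) (.e (nat_lit 360486) (nat_lit 18) (.e (nat_lit 671748) (nat_lit 0) .nil)))))) (.g (nat_lit 4) .nil .nil)))))) (.nd (nat_lit 3) (.nd (nat_lit 4) (.nd (nat_lit 5) 
(.lf (nat_lit 63812) (.g (nat_lit 1766) (.e (nat_lit 1589) (nat_lit 111) (.e (nat_lit 360453) (nat_lit 0) (.e (nat_lit 5905) (nat_lit 320) (.e (nat_lit 1219) (nat_lit 90) (.e (nat_lit 81946) (nat_lit 20) .nil))))) .nil)) 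
(.lf (nat_lit 63844) (.g (nat_lit 2605) (.e (nat_lit 1589) (nat_lit 111) (.e (nat_lit 360453) (nat_lit 0) (.e (nat_lit 7272) (nat_lit 385) (.e (nat_lit 122906) (nat_lit 12) (.e (nat_lit 336173) (nat_lit 10) (.e (nat_lit 344177) (nat_lit 43) (.e (nat_lit 770058) (nat_lit 5) .nil))))))) (.g (nat_lit 6) .nil .nil)))) (.nd (nat_lit 5) 
(.lf (nat_lit 63828) (.g (nat_lit 2948) (.e (nat_lit 1589) (nat_lit 111) (.e (nat_lit 360453) (nat_lit 0) (.e (nat_lit 7270) (nat_lit 385) (.e (nat_lit 122916) (nat_lit 14) (.e (nat_lit 352302) (nat_lit 20) (.e (nat_lit 2281) (nat_lit 150) (.e (nat_lit 770057) (nat_lit 5) .nil))))))) (.g (nat_lit 5) .nil .nil))) 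
(.lf (nat_lit 63860) (.g (nat_lit 2581) (.e (nat_lit 1589) (nat_lit 111) (.e (nat_lit 360453) (nat_lit 0) (.e (nat_lit 7273) (nat_lit 385) (.e (nat_lit 122917) (nat_lit 15) (.e (nat_lit 360489) (nat_lit 21) (.e (nat_lit 770058) (nat_lit 5) .nil)))))) (.g (nat_lit 0) .nil .nil))))) (.nd (nat_lit 4) (.nd (nat_lit 5) 
(.lf (nat_lit 63820) (.g (nat_lit 932) (.e (nat_lit 1589) (nat_lit 111) (.e (nat_lit 360453) (nat_lit 0) (.e (nat_lit 5907) (nat_lit 320) (.e (nat_lit 1221) (nat_lit 90) .nil)))) .nil)) 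
(.lf (nat_lit 63852) (.g (nat_lit 1924) (.e (nat_lit 1589) (nat_lit 111) (.e (nat_lit 360453) (nat_lit 0) (.e (nat_lit 7272) (nat_lit 385) (.e (nat_lit 122919) (nat_lit 15) (.e (nat_lit 360489) (nat_lit 21) (.e (nat_lit 770055) (nat_lit 5) .nil)))))) (.g (nat_lit 4) .nil .nil)))) (.nd (nat_lit 5) 
(.lf (nat_lit 63836) (.g (nat_lit 2307) (.e (nat_lit 1589) (nat_lit 111) (.e (nat_lit 360453) (nat_lit 0) (.e (nat_lit 7270) (nat_lit 385) (.e (nat_lit 122919) (nat_lit 15) (.e (nat_lit 360450) (nat_lit 0) (.e (nat_lit 7122) (nat_lit 382) (.e (nat_lit 1016) (nat_lit 81) .nil))))))) (.g (nat_lit 4) .nil .nil))) 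
(.lf (nat_lit 63868) (.g (nat_lit 1622) (.e (nat_lit 1589) (nat_lit 111) (.e (nat_lit 368384) (nat_lit 0) (.e (nat_lit 5222) (nat_lit 296) (.e (nat_lit 163907) (nat_lit 12) (.e (nat_lit 426294) (nat_lit 11) (.e (nat_lit 458803) (nat_lit 36) (.e (nat_lit 639008) (nat_lit 13) .nil))))))) (.g (nat_lit 5) .nil .nil))))))) (.nd (nat_lit 2) (.nd (nat_lit 3) (.nd (nat_lit 4) (.nd (nat_lit 5) 
(.lf (nat_lit 63810) (.g (nat_lit 1495) (.e (nat_lit 1589) (nat_lit 111) (.e (nat_lit 360452) (nat_lit 0) (.e (nat_lit 7272) (nat_lit 385) (.e (nat_lit 122917) (nat_lit 15) .nil)))) .nil)) 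
(.lf (nat_lit 63842) (.g (nat_lit 883) (.e (nat_lit 1589) (nat_lit 111) (.e (nat_lit 360453) (nat_lit 0) (.e (nat_lit 7272) (nat_lit 385) (.e (nat_lit 122906) (nat_lit 12) .nil)))) .nil))) (.nd (nat_lit 5) 
(.lf (nat_lit 63826) (.g (nat_lit 1821) (.e (nat_lit 1589) (nat_lit 111) (.e (nat_lit 360453) (nat_lit 0) (.e (nat_lit 7270) (nat_lit 385) (.e (nat_lit 122906) (nat_lit 12) (.e (nat_lit 336173) (nat_lit 10) .nil))))) .nil)) 
(.lf (nat_lit 63858) (.g (nat_lit 1691) (.e (nat_lit 1589) (nat_lit 111) (.e (nat_lit 360453) (nat_lit 0) (.e (nat_lit 7273) (nat_lit 385) (.e (nat_lit 122917) (nat_lit 15) (.e (nat_lit 360489) (nat_lit 21) (.e (nat_lit 770055) (nat_lit 5) .nil)))))) (.g (nat_lit 4) .nil .nil))))) (.nd (nat_lit 4) (.nd (nat_lit 5) 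
(.lf (nat_lit 63818) (.g (nat_lit 1801) (.e (nat_lit 1589) (nat_lit 111) (.e (nat_lit 360453) (nat_lit 0) (.e (nat_lit 5907) (nat_lit 320) (.e (nat_lit 1219) (nat_lit 90) (.e (nat_lit 81939) (nat_lit 20) .nil))))) .nil)) 
(.lf (nat_lit 63850) (.g (nat_lit 2997) (.e (nat_lit 1589) (nat_lit 111) (.e (nat_lit 360453) (nat_lit 0) (.e (nat_lit 7272) (nat_lit 385) (.e (nat_lit 122917) (nat_lit 15) (.e (nat_lit 360489) (nat_lit 21) (.e (nat_lit 770057) (nat_lit 5) .nil)))))) (.g (nat_lit 0) .nil .nil)))) (.nd (nat_lit 5) 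
(.lf (nat_lit 63834) (.g (nat_lit 1925) (.e (nat_lit 1589) (nat_lit 111) (.e (nat_lit 360453) (nat_lit 0) (.e (nat_lit 7270) (nat_lit 385) (.e (nat_lit 122918) (nat_lit 15) (.e (nat_lit 360489) (nat_lit 21) .nil))))) .nil)) 
(.lf (nat_lit 63866) (.g (nat_lit 1994) (.e (nat_lit 1589) (nat_lit 111) (.e (nat_lit 360457) (nat_lit 0) (.e (nat_lit 5949) (nat_lit 322) (.e (nat_lit 57428) (nat_lit 15) (.e (nat_lit 360486) (nat_lit 18) (.e (nat_lit 671748) (nat_lit 0) .nil)))))) (.g (nat_lit 5) .nil .nil)))))) (.nd (nat_lit 3) (.nd (nat_lit 4) (.nd (nat_lit 5) 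
(.lf (nat_lit 63814) (.g (nat_lit 2015) (.e (nat_lit 1589) (nat_lit 111) (.e (nat_lit 360453) (nat_lit 0) (.e (nat_lit 5905) (nat_lit 320) (.e (nat_lit 1220) (nat_lit 90) (.e (nat_lit 81938) (nat_lit 20) (.e (nat_lit 2005) (nat_lit 138) (.e (nat_lit 671748) (nat_lit 0) .nil))))))) (.g (nat_lit 4) .nil .nil))) 
(.lf (nat_lit 63846) (.g (nat_lit 2164) (.e (nat_lit 1589) (nat_lit 111) (.e (nat_lit 360453) (nat_lit 0) (.e (nat_lit 7272) (nat_lit 385) (.e (nat_lit 122916) (nat_lit 14) (.e (nat_lit 352302) (nat_lit 20) (.e (nat_lit 2280) (nat_lit 150) (.e (nat_lit 770057) (nat_lit 5) .nil))))))) (.g (nat_lit 5) .nil .nil)))) (.nd (nat_lit 5) 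
(.lf (nat_lit 63830) (.g (nat_lit 2621) (.e (nat_lit 1589) (nat_lit 111) (.e (nat_lit 360453) (nat_lit 0) (.e (nat_lit 7270) (nat_lit 385) (.e (nat_lit 122916) (nat_lit 14) (.e (nat_lit 352303) (nat_lit 20) (.e (nat_lit 2281) (nat_lit 150) (.e (nat_lit 770058) (nat_lit 5) .nil))))))) (.g (nat_lit 5) .nil .nil))) 
(.lf (nat_lit 63862) (.g (nat_lit 2184) (.e (nat_lit 1589) (nat_lit 111) (.e (nat_lit 360453) (nat_lit 0) (.e (nat_lit 7273) (nat_lit 385) (.e (nat_lit 122919) (nat_lit 15) (.e (nat_lit 360489) (nat_lit 21) (.e (nat_lit 770057) (nat_lit 5) .nil)))))) (.g (nat_lit 0) .nil .nil))))) (.nd (nat_lit 4) (.nd (nat_lit 5) 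
(.lf (nat_lit 63822) (.g (nat_lit 4065) (.e (nat_lit 1589) (nat_lit 111) (.e (nat_lit 360453) (nat_lit 0) (.e (nat_lit 5907) (nat_lit 320) (.e (nat_lit 1221) (nat_lit 90) (.e (nat_lit 81938) (nat_lit 20) (.e (nat_lit 2006) (nat_lit 138) (.e (nat_lit 671748) (nat_lit 0) .nil))))))) (.g (nat_lit 0) .nil .nil))) 
(.lf (nat_lit 63854) (.g (nat_lit 2730) (.e (nat_lit 1589) (nat_lit 111) (.e (nat_lit 360453) (nat_lit 0) (.e (nat_lit 7272) (nat_lit 385) (.e (nat_lit 122919) (nat_lit 15) (.e (nat_lit 360489) (nat_lit 21) (.e (nat_lit 770058) (nat_lit 5) .nil)))))) (.g (nat_lit 0) .nil .nil)))) (.nd (nat_lit 5) 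
(.lf (nat_lit 63838) (.g (nat_lit 2968) (.e (nat_lit 1589) (nat_lit 111) (.e (nat_lit 360453) (nat_lit 0) (.e (nat_lit 7270) (nat_lit 385) (.e (nat_lit 122919) (nat_lit 15) (.e (nat_lit 360451) (nat_lit 0) (.e (nat_lit 7223) (nat_lit 382) (.e (nat_lit 1011) (nat_lit 81) .nil))))))) (.g (nat_lit 5) .nil .nil))) 
(.lf (nat_lit 63870) (.g (nat_lit 1828) (.e (nat_lit 1589) (nat_lit 111) (.e (nat_lit 368384) (nat_lit 0) (.e (nat_lit 5224) (nat_lit 296) (.e (nat_lit 163907) (nat_lit 12) (.e (nat_lit 426294) (nat_lit 11) (.e (nat_lit 458803) (nat_lit 36) (.e (nat_lit 639007) (nat_lit 13) .nil))))))) (.g (nat_lit 5) .nil .nil)))))))) 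
(.nd (nat_lit 1) (.nd (nat_lit 2) (.nd (nat_lit 3) (.nd (nat_lit 4) (.nd (nat_lit 5) 
(.lf (nat_lit 63809) (.g (nat_lit 2141) (.e (nat_lit 1589) (nat_lit 111) (.e (nat_lit 360452) (nat_lit 0) (.e (nat_lit 7272) (nat_lit 385) (.e (nat_lit 122916) (nat_lit 14) (.e (nat_lit 352302) (nat_lit 20) .nil))))) .nil)) 
(.lf (nat_lit 63841) (.g (nat_lit 3666) (.e (nat_lit 1589) (nat_lit 111) (.e (nat_lit 360453) (nat_lit 0) (.e (nat_lit 7270) (nat_lit 385) (.e (nat_lit 122919) (nat_lit 15) (.e (nat_lit 360489) (nat_lit 21) (.e (nat_lit 770058) (nat_lit 5) .nil)))))) (.g (nat_lit 0) .nil .nil)))) (.nd (nat_lit 5) 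
(.lf (nat_lit 63825) (.g (nat_lit 1211) (.e (nat_lit 1589) (nat_lit 111) (.e (nat_lit 360453) (nat_lit 0) (.e (nat_lit 7270) (nat_lit 385) (.e (nat_lit 122906) (nat_lit 12) .nil)))) .nil)) 
(.lf (nat_lit 63857) (.g (nat_lit 2045) (.e (nat_lit 1589) (nat_lit 111) (.e (nat_lit 360453) (nat_lit 0) (.e (nat_lit 7273) (nat_lit 385) (.e (nat_lit 122916) (nat_lit 14) (.e (nat_lit 352303) (nat_lit 20) (.e (nat_lit 2281) (nat_lit 150) (.e (nat_lit 770058) (nat_lit 5) .nil))))))) (.g (nat_lit 5) .nil .nil))))) (.nd (nat_lit 4) (.nd (nat_lit 5) 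
(.lf (nat_lit 63817) (.g (nat_lit 3900) (.e (nat_lit 1589) (nat_lit 111) (.e (nat_lit 360453) (nat_lit 0) (.e (nat_lit 5907) (nat_lit 320) (.e (nat_lit 1199) (nat_lit 88) (.e (nat_lit 65617) (nat_lit 10) (.e (nat_lit 344169) (nat_lit 40) (.e (nat_lit 671748) (nat_lit 0) .nil))))))) (.g (nat_lit 0) .nil .nil))) 
(.lf (nat_lit 63849) (.g (nat_lit 2241) (.e (nat_lit 1589) (nat_lit 111) (.e (nat_lit 360453) (nat_lit 0) (.e (nat_lit 7272) (nat_lit 385) (.e (nat_lit 122917) (nat_lit 15) (.e (nat_lit 360489) (nat_lit 21) (.e (nat_lit 770055) (nat_lit 5) .nil)))))) (.g (nat_lit 4) .nil .nil)))) (.nd (nat_lit 5) 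
(.lf (nat_lit 63833) (.g (nat_lit 3699) (.e (nat_lit 1589) (nat_lit 111) (.e (nat_lit 360453) (nat_lit 0) (.e (nat_lit 7270) (nat_lit 385) (.e (nat_lit 122917) (nat_lit 15) (.e (nat_lit 360489) (nat_lit 21) (.e (nat_lit 770058) (nat_lit 5) .nil)))))) (.g (nat_lit 0) .nil .nil))) 
(.lf (nat_lit 63865) (.g (nat_lit 2204) (.e (nat_lit 1589) (nat_lit 111) (.e (nat_lit 360457) (nat_lit 0) (.e (nat_lit 5949) (nat_lit 322) (.e (nat_lit 57424) (nat_lit 14) (.e (nat_lit 352285) (nat_lit 20) .nil))))) .nil))))) (.nd (nat_lit 3) (.nd (nat_lit 4) (.nd (nat_lit 5) 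
(.lf (nat_lit 63813) (.g (nat_lit 1983) (.e (nat_lit 1589) (nat_lit 111) (.e (nat_lit 360453) (nat_lit 0) (.e (nat_lit 5905) (nat_lit 320) (.e (nat_lit 1219) (nat_lit 90) (.e (nat_lit 81947) (nat_lit 20) (.e (nat_lit 2006) (nat_lit 138) (.e (nat_lit 671748) (nat_lit 0) .nil))))))) (.g (nat_lit 4) .nil .nil))) 
(.lf (nat_lit 63845) (.g (nat_lit 828) (.e (nat_lit 1589) (nat_lit 111) (.e (nat_lit 360453) (nat_lit 0) (.e (nat_lit 7272) (nat_lit 385) (.e (nat_lit 122916) (nat_lit 14) .nil)))) .nil))) (.nd (nat_lit 5) 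
(.lf (nat_lit 63829) (.g (nat_lit 2609) (.e (nat_lit 1589) (nat_lit 111) (.e (nat_lit 360453) (nat_lit 0) (.e (nat_lit 7270) (nat_lit 385) (.e (nat_lit 122916) (nat_lit 14) (.e (nat_lit 352303) (nat_lit 20) (.e (nat_lit 2281) (nat_lit 150) (.e (nat_lit 770057) (nat_lit 5) .nil))))))) (.g (nat_lit 4) .nil .nil))) 
(.lf (nat_lit 63861) (.g (nat_lit 1583) (.e (nat_lit 1589) (nat_lit 111) (.e (nat_lit 360453) (nat_lit 0) (.e (nat_lit 7273) (nat_lit 385) (.e (nat_lit 122919) (nat_lit 15) (.e (nat_lit 360489) (nat_lit 21) (.e (nat_lit 770055) (nat_lit 5) .nil)))))) (.g (nat_lit 4) .nil .nil))))) (.nd (nat_lit 4) (.nd (nat_lit 5) 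
(.lf (nat_lit 63821) (.g (nat_lit 2211) (.e (nat_lit 1589) (nat_lit 111) (.e (nat_lit 360453) (nat_lit 0) (.e (nat_lit 5907) (nat_lit 320) (.e (nat_lit 1221) (nat_lit 90) (.e (nat_lit 81938) (nat_lit 20) (.e (nat_lit 2005) (nat_lit 138) (.e (nat_lit 671747) (nat_lit 0) .nil))))))) (.g (nat_lit 4) .nil .nil))) 
(.lf (nat_lit 63853) (.g (nat_lit 2542) (.e (nat_lit 1589) (nat_lit 111) (.e (nat_lit 360453) (nat_lit 0) (.e (nat_lit 7272) (nat_lit 385) (.e (nat_lit 122919) (nat_lit 15) (.e (nat_lit 360489) (nat_lit 21) (.e (nat_lit 770057) (nat_lit 5) .nil)))))) (.g (nat_lit 0) .nil .nil)))) (.nd (nat_lit 5) 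
(.lf (nat_lit 63837) (.g (nat_lit 3082) (.e (nat_lit 1589) (nat_lit 111) (.e (nat_lit 360453) (nat_lit 0) (.e (nat_lit 7270) (nat_lit 385) (.e (nat_lit 122919) (nat_lit 15) (.e (nat_lit 360451) (nat_lit 0) (.e (nat_lit 7200) (nat_lit 382) (.e (nat_lit 1011) (nat_lit 81) .nil))))))) (.g (nat_lit 5) .nil .nil))) 
(.lf (nat_lit 63869) (.g (nat_lit 1379) (.e (nat_lit 1589) (nat_lit 111) (.e (nat_lit 368384) (nat_lit 0) (.e (nat_lit 5222) (nat_lit 296) (.e (nat_lit 163933) (nat_lit 17) (.e (nat_lit 466967) (nat_lit 20) (.e (nat_lit 3386) (nat_lit 210) (.e (nat_lit 639007) (nat_lit 13) .nil))))))) (.g (nat_lit 5) .nil .nil))))))) (.nd (nat_lit 2) (.nd (nat_lit 3) (.nd (nat_lit 4) (.nd (nat_lit 5) 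
(.lf (nat_lit 63811) (.g (nat_lit 1561) (.e (nat_lit 1589) (nat_lit 111) (.e (nat_lit 360453) (nat_lit 0) (.e (nat_lit 5905) (nat_lit 320) (.e (nat_lit 1219) (nat_lit 90) (.e (nat_lit 81943) (nat_lit 20) .nil))))) .nil)) 
(.lf (nat_lit 63843) (.g (nat_lit 1688) (.e (nat_lit 1589) (nat_lit 111) (.e (nat_lit 360453) (nat_lit 0) (.e (nat_lit 7272) (nat_lit 385) (.e (nat_lit 122906) (nat_lit 12) (.e (nat_lit 336173) (nat_lit 10) (.e (nat_lit 344177) (nat_lit 43) (.e (nat_lit 770055) (nat_lit 5) .nil))))))) (.g (nat_lit 4) .nil .nil)))) (.nd (nat_lit 5) 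
(.lf (nat_lit 63827) (.g (nat_lit 2169) (.e (nat_lit 1589) (nat_lit 111) (.e (nat_lit 360453) (nat_lit 0) (.e (nat_lit 7270) (nat_lit 385) (.e (nat_lit 122916) (nat_lit 14) (.e (nat_lit 352302) (nat_lit 20) .nil))))) .nil)) 
(.lf (nat_lit 63859) (.g (nat_lit 2391) (.e (nat_lit 1589) (nat_lit 111) (.e (nat_lit 360453) (nat_lit 0) (.e (nat_lit 7273) (nat_lit 385) (.e (nat_lit 122917) (nat_lit 15) (.e (nat_lit 360489) (nat_lit 21) (.e (nat_lit 770057) (nat_lit 5) .nil)))))) (.g (nat_lit 0) .nil .nil))))) (.nd (nat_lit 4) (.nd (nat_lit 5) 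
(.lf (nat_lit 63819) (.g (nat_lit 1633) (.e (nat_lit 1589) (nat_lit 111) (.e (nat_lit 360453) (nat_lit 0) (.e (nat_lit 5907) (nat_lit 320) (.e (nat_lit 1219) (nat_lit 90) (.e (nat_lit 81942) (nat_lit 20) .nil))))) .nil)) 
(.lf (nat_lit 63851) (.g (nat_lit 3178) (.e (nat_lit 1589) (nat_lit 111) (.e (nat_lit 360453) (nat_lit 0) (.e (nat_lit 7272) (nat_lit 385) (.e (nat_lit 122917) (nat_lit 15) (.e (nat_lit 360489) (nat_lit 21) (.e (nat_lit 770058) (nat_lit 5) .nil)))))) (.g (nat_lit 0) .nil .nil)))) (.nd (nat_lit 5) 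
(.lf (nat_lit 63835) (.g (nat_lit 1616) (.e (nat_lit 1589) (nat_lit 111) (.e (nat_lit 360453) (nat_lit 0) (.e (nat_lit 7270) (nat_lit 385) (.e (nat_lit 122919) (nat_lit 15) (.e (nat_lit 360450) (nat_lit 0) .nil))))) .nil)) 
(.lf (nat_lit 63867) (.g (nat_lit 1581) (.e (nat_lit 1589) (nat_lit 111) (.e (nat_lit 368384) (nat_lit 0) (.e (nat_lit 5222) (nat_lit 296) (.e (nat_lit 163907) (nat_lit 12) (.e (nat_lit 426294) (nat_lit 11) (.e (nat_lit 458803) (nat_lit 36) (.e (nat_lit 639007) (nat_lit 13) .nil))))))) (.g (nat_lit 5) .nil .nil)))))) (.nd (nat_lit 3) (.nd (nat_lit 4) (.nd (nat_lit 5) 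
(.lf (nat_lit 63815) (.g (nat_lit 2132) (.e (nat_lit 1589) (nat_lit 111) (.e (nat_lit 360453) (nat_lit 0) (.e (nat_lit 5905) (nat_lit 320) (.e (nat_lit 1220) (nat_lit 90) (.e (nat_lit 81938) (nat_lit 20) (.e (nat_lit 2006) (nat_lit 138) (.e (nat_lit 671748) (nat_lit 0) .nil))))))) (.g (nat_lit 4) .nil .nil))) 
(.lf (nat_lit 63847) (.g (nat_lit 3173) (.e (nat_lit 1589) (nat_lit 111) (.e (nat_lit 360453) (nat_lit 0) (.e (nat_lit 7272) (nat_lit 385) (.e (nat_lit 122916) (nat_lit 14) (.e (nat_lit 352302) (nat_lit 20) (.e (nat_lit 2281) (nat_lit 150) (.e (nat_lit 770057) (nat_lit 5) .nil))))))) (.g (nat_lit 7) .nil .nil)))) (.nd (nat_lit 5) 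
(.lf (nat_lit 63831) (.g (nat_lit 2741) (.e (nat_lit 1589) (nat_lit 111) (.e (nat_lit 360453) (nat_lit 0) (.e (nat_lit 7270) (nat_lit 385) (.e (nat_lit 122917) (nat_lit 15) (.e (nat_lit 360489) (nat_lit 21) (.e (nat_lit 770055) (nat_lit 5) .nil)))))) (.g (nat_lit 4) .nil .nil))) 
(.lf (nat_lit 63863) (.g (nat_lit 2410) (.e (nat_lit 1589) (nat_lit 111) (.e (nat_lit 360453) (nat_lit 0) (.e (nat_lit 7273) (nat_lit 385) (.e (nat_lit 122919) (nat_lit 15) (.e (nat_lit 360489) (nat_lit 21) (.e (nat_lit 770058) (nat_lit 5) .nil)))))) (.g (nat_lit 0) .nil .nil))))) (.nd (nat_lit 4) (.nd (nat_lit 5) 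
(.lf (nat_lit 63823) (.g (nat_lit 2421) (.e (nat_lit 1589) (nat_lit 111) (.e (nat_lit 360453) (nat_lit 0) (.e (nat_lit 5907) (nat_lit 320) (.e (nat_lit 1221) (nat_lit 90) (.e (nat_lit 81939) (nat_lit 20) (.e (nat_lit 2005) (nat_lit 138) (.e (nat_lit 671748) (nat_lit 0) .nil))))))) (.g (nat_lit 4) .nil .nil))) 
(.lf (nat_lit 63855) (.g (nat_lit 1387) (.e (nat_lit 1589) (nat_lit 111) (.e (nat_lit 360453) (nat_lit 0) (.e (nat_lit 7273) (nat_lit 385) (.e (nat_lit 122916) (nat_lit 14) (.e (nat_lit 352302) (nat_lit 20) .nil))))) .nil))) (.nd (nat_lit 5) 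
(.lf (nat_lit 63839) (.g (nat_lit 2861) (.e (nat_lit 1589) (nat_lit 111) (.e (nat_lit 360453) (nat_lit 0) (.e (nat_lit 7270) (nat_lit 385) (.e (nat_lit 122919) (nat_lit 15) (.e (nat_lit 360489) (nat_lit 21) (.e (nat_lit 770055) (nat_lit 5) .nil)))))) (.g (nat_lit 5) .nil .nil))) 
(.lf (nat_lit 63871) (.g (nat_lit 1869) (.e (nat_lit 1589) (nat_lit 111) (.e (nat_lit 368384) (nat_lit 0) (.e (nat_lit 5224) (nat_lit 296) (.e (nat_lit 163907) (nat_lit 12) (.e (nat_lit 426294) (nat_lit 11) (.e (nat_lit 458803) (nat_lit 36) (.e (nat_lit 639008) (nat_lit 13) .nil))))))) (.g (nat_lit 5) .nil .nil)))))))))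

noncomputable def tv877 : DT := (.nd (nat_lit 0) (.nd (nat_lit 1) (.nd (nat_lit 2) (.nd (nat_lit 3) (.nd (nat_lit 4) (.nd (nat_lit 5) (.nd (nat_lit 6) 
(.lf (nat_lit 63872) (.g (nat_lit 1382) (.e (nat_lit 1589) (nat_lit 111) (.e (nat_lit 368384) (nat_lit 0) (.e (nat_lit 5224) (nat_lit 296) (.e (nat_lit 163923) (nat_lit 15) (.e (nat_lit 450592) (nat_lit 14) (.e (nat_lit 639008) (nat_lit 13) .nil)))))) (.g (nat_lit 4) .nil .nil))) 
(.lf (nat_lit 63936) (.g (nat_lit 4044) (.e (nat_lit 1589) (nat_lit 111) (.e (nat_lit 360467) (nat_lit 3) (.e (nat_lit 516179) (nat_lit 15) (.e (nat_lit 475198) (nat_lit 40) (.e (nat_lit 704590) (nat_lit 3) (.e (nat_lit 163975) (nat_lit 30) (.e (nat_lit 573449) (nat_lit 9) .nil))))))) (.g (nat_lit 5) .nil .nil)))) (.nd (nat_lit 6) 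
(.lf (nat_lit 63904) (.g (nat_lit 2411) (.e (nat_lit 1589) (nat_lit 111) (.e (nat_lit 360467) (nat_lit 3) (.e (nat_lit 516139) (nat_lit 7) (.e (nat_lit 409648) (nat_lit 18) (.e (nat_lit 303108) (nat_lit 0) (.e (nat_lit 3144) (nat_lit 193) (.e (nat_lit 499969) (nat_lit 14) .nil))))))) (.g (nat_lit 4) .nil .nil))) 
(.lf (nat_lit 63968) (.g (nat_lit 1342) (.e (nat_lit 1589) (nat_lit 111) (.e (nat_lit 368384) (nat_lit 5) (.e (nat_lit 532583) (nat_lit 26) (.e (nat_lit 426298) (nat_lit 11) (.e (nat_lit 458814) (nat_lit 49) (.e (nat_lit 745475) (nat_lit 0) .nil)))))) (.g (nat_lit 5) .nil .nil))))) (.nd (nat_lit 5) (.nd (nat_lit 6) 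
(.lf (nat_lit 63888) (.g (nat_lit 2383) (.e (nat_lit 1589) (nat_lit 111) (.e (nat_lit 360467) (nat_lit 3) (.e (nat_lit 516138) (nat_lit 7) (.e (nat_lit 409645) (nat_lit 18) (.e (nat_lit 303117) (nat_lit 2) .nil))))) .nil)) 
(.lf (nat_lit 63952) (.g (nat_lit 3315) (.e (nat_lit 1589) (nat_lit 111) (.e (nat_lit 360467) (nat_lit 3) (.e (nat_lit 516179) (nat_lit 15) (.e (nat_lit 475214) (nat_lit 42) (.e (nat_lit 720922) (nat_lit 20) .nil))))) .nil))) (.nd (nat_lit 6) 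
(.lf (nat_lit 63920) (.g (nat_lit 2889) (.e (nat_lit 1589) (nat_lit 111) (.e (nat_lit 360467) (nat_lit 3) (.e (nat_lit 516139) (nat_lit 7) (.e (nat_lit 409649) (nat_lit 18) (.e (nat_lit 303116) (nat_lit 2) (.e (nat_lit 196626) (nat_lit 9) .nil)))))) (.g (nat_lit 4) .nil .nil))) 
(.lf (nat_lit 63984) (.g (nat_lit 476) (.e (nat_lit 1589) (nat_lit 111) (.e (nat_lit 360471) (nat_lit 7) (.e (nat_lit 556800) (nat_lit 11) .nil))) .nil))))) (.nd (nat_lit 4) (.nd (nat_lit 5) (.nd (nat_lit 6) 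
(.lf (nat_lit 63880) (.g (nat_lit 738) (.e (nat_lit 1589) (nat_lit 111) (.e (nat_lit 360466) (nat_lit 3) (.e (nat_lit 516185) (nat_lit 16) .nil))) .nil)) 
(.lf (nat_lit 63944) (.g (nat_lit 1879) (.e (nat_lit 1589) (nat_lit 111) (.e (nat_lit 360467) (nat_lit 3) (.e (nat_lit 516179) (nat_lit 15) (.e (nat_lit 475209) (nat_lit 41) .nil)))) .nil))) (.nd (nat_lit 6) 
(.lf (nat_lit 63912) (.g (nat_lit 2589) (.e (nat_lit 1589) (nat_lit 111) (.e (nat_lit 360467) (nat_lit 3) (.e (nat_lit 516139) (nat_lit 7) (.e (nat_lit 409649) (nat_lit 18) (.e (nat_lit 303111) (nat_lit 0) (.e (nat_lit 3144) (nat_lit 193) (.e (nat_lit 499958) (nat_lit 14) .nil))))))) (.g (nat_lit 4) .nil .nil))) 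
(.lf (nat_lit 63976) (.g (nat_lit 3109) (.e (nat_lit 1589) (nat_lit 111) (.e (nat_lit 360471) (nat_lit 7) (.e (nat_lit 548889) (nat_lit 9) (.e (nat_lit 65617) (nat_lit 10) (.e (nat_lit 344126) (nat_lit 25) (.e (nat_lit 548873) (nat_lit 5) .nil)))))) (.g (nat_lit 6) .nil .nil))))) (.nd (nat_lit 5) (.nd (nat_lit 6) 
(.lf (nat_lit 63896) (.g (nat_lit 3033) (.e (nat_lit 1589) (nat_lit 111) (.e (nat_lit 360467) (nat_lit 3) (.e (nat_lit 516139) (nat_lit 7) (.e (nat_lit 409645) (nat_lit 18) (.e (nat_lit 303117) (nat_lit 2) .nil))))) .nil)) 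
(.lf (nat_lit 63960) (.g (nat_lit 3937) (.e (nat_lit 1589) (nat_lit 111) (.e (nat_lit 360467) (nat_lit 3) (.e (nat_lit 516185) (nat_lit 16) (.e (nat_lit 491544) (nat_lit 7) (.e (nat_lit 319519) (nat_lit 12) (.e (nat_lit 32774) (nat_lit 5) .nil)))))) (.g (nat_lit 5) .nil .nil)))) (.nd (nat_lit 6) 
(.lf (nat_lit 63928) (.g (nat_lit 3090) (.e (nat_lit 1589) (nat_lit 111) (.e (nat_lit 360467) (nat_lit 3) (.e (nat_lit 516146) (nat_lit 9) (.e (nat_lit 426448) (nat_lit 20) (.e (nat_lit 114703) (nat_lit 20) .nil))))) .nil)) 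
(.lf (nat_lit 63992) (.g (nat_lit 2629) (.e (nat_lit 1589) (nat_lit 111) (.e (nat_lit 360473) (nat_lit 8) (.e (nat_lit 557087) (nat_lit 11) (.e (nat_lit 24616) (nat_lit 7) (.e (nat_lit 319519) (nat_lit 12) (.e (nat_lit 32774) (nat_lit 5) .nil)))))) (.g (nat_lit 4) .nil .nil))))))) (.nd (nat_lit 3) (.nd (nat_lit 4) (.nd (nat_lit 5) (.nd (nat_lit 6) 
(.lf (nat_lit 63876) (.g (nat_lit 1316) (.e (nat_lit 1589) (nat_lit 111) (.e (nat_lit 360464) (nat_lit 2) (.e (nat_lit 507922) (nat_lit 6) (.e (nat_lit 286753) (nat_lit 10) (.e (nat_lit 344126) (nat_lit 25) (.e (nat_lit 548873) (nat_lit 5) .nil)))))) (.g (nat_lit 4) .nil .nil))) 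
(.lf (nat_lit 63940) (.g (nat_lit 3193) (.e (nat_lit 1589) (nat_lit 111) (.e (nat_lit 360467) (nat_lit 3) (.e (nat_lit 516179) (nat_lit 15) (.e (nat_lit 475199) (nat_lit 40) (.e (nat_lit 704589) (nat_lit 3) (.e (nat_lit 163975) (nat_lit 30) (.e (nat_lit 573452) (nat_lit 9) .nil))))))) (.g (nat_lit 4) .nil .nil)))) (.nd (nat_lit 6) 
(.lf (nat_lit 63908) (.g (nat_lit 2560) (.e (nat_lit 1589) (nat_lit 111) (.e (nat_lit 360467) (nat_lit 3) (.e (nat_lit 516139) (nat_lit 7) (.e (nat_lit 409649) (nat_lit 18) (.e (nat_lit 303111) (nat_lit 0) .nil))))) .nil)) 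
(.lf (nat_lit 63972) (.g (nat_lit 2261) (.e (nat_lit 1589) (nat_lit 111) (.e (nat_lit 360471) (nat_lit 7) (.e (nat_lit 548874) (nat_lit 5) (.e (nat_lit 1592) (nat_lit 111) (.e (nat_lit 360471) (nat_lit 7) (.e (nat_lit 548873) (nat_lit 5) .nil)))))) (.g (nat_lit 6) .nil .nil))))) (.nd (nat_lit 5) (.nd (nat_lit 6) 
(.lf (nat_lit 63892) (.g (nat_lit 1690) (.e (nat_lit 1589) (nat_lit 111) (.e (nat_lit 360467) (nat_lit 3) (.e (nat_lit 516139) (nat_lit 7) (.e (nat_lit 409616) (nat_lit 10) (.e (nat_lit 7936) (nat_lit 318) .nil))))) .nil)) 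
(.lf (nat_lit 63956) (.g (nat_lit 2384) (.e (nat_lit 1589) (nat_lit 111) (.e (nat_lit 360467) (nat_lit 3) (.e (nat_lit 516184) (nat_lit 16) (.e (nat_lit 491551) (nat_lit 9) (.e (nat_lit 335928) (nat_lit 0) (.e (nat_lit 1842) (nat_lit 123) (.e (nat_lit 548874) (nat_lit 5) .nil))))))) (.g (nat_lit 5) .nil .nil)))) (.nd (nat_lit 6) 
(.lf (nat_lit 63924) (.g (nat_lit 634) (.e (nat_lit 1589) (nat_lit 111) (.e (nat_lit 360467) (nat_lit 3) (.e (nat_lit 516142) (nat_lit 8) .nil))) .nil)) 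
(.lf (nat_lit 63988) (.g (nat_lit 1867) (.e (nat_lit 1589) (nat_lit 111) (.e (nat_lit 360473) (nat_lit 8) (.e (nat_lit 557066) (nat_lit 9) (.e (nat_lit 314) (nat_lit 23) (.e (nat_lit 352297) (nat_lit 20) (.e (nat_lit 1842) (nat_lit 123) (.e (nat_lit 548873) (nat_lit 5) .nil))))))) (.g (nat_lit 4) .nil .nil)))))) (.nd (nat_lit 4) (.nd (nat_lit 5) (.nd (nat_lit 6) 
(.lf (nat_lit 63884) (.g (nat_lit 3201) (.e (nat_lit 1589) (nat_lit 111) (.e (nat_lit 360467) (nat_lit 3) (.e (nat_lit 516097) (nat_lit 0) (.e (nat_lit 7593) (nat_lit 407) (.e (nat_lit 73751) (nat_lit 7) (.e (nat_lit 548874) (nat_lit 5) .nil)))))) (.g (nat_lit 6) .nil .nil))) 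
(.lf (nat_lit 63948) (.g (nat_lit 3312) (.e (nat_lit 1589) (nat_lit 111) (.e (nat_lit 360467) (nat_lit 3) (.e (nat_lit 516179) (nat_lit 15) (.e (nat_lit 475214) (nat_lit 42) (.e (nat_lit 720910) (nat_lit 20) .nil))))) .nil))) (.nd (nat_lit 6) 
(.lf (nat_lit 63916) (.g (nat_lit 2984) (.e (nat_lit 1589) (nat_lit 111) (.e (nat_lit 360467) (nat_lit 3) (.e (nat_lit 516139) (nat_lit 7) (.e (nat_lit 409649) (nat_lit 18) (.e (nat_lit 303111) (nat_lit 0) (.e (nat_lit 3146) (nat_lit 193) (.e (nat_lit 499969) (nat_lit 14) .nil))))))) (.g (nat_lit 4) .nil .nil))) 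
(.lf (nat_lit 63980) (.g (nat_lit 1952) (.e (nat_lit 1589) (nat_lit 111) (.e (nat_lit 360471) (nat_lit 7) (.e (nat_lit 548891) (nat_lit 11) (.e (nat_lit 81943) (nat_lit 20) (.e (nat_lit 1842) (nat_lit 123) (.e (nat_lit 548873) (nat_lit 5) .nil)))))) (.g (nat_lit 4) .nil .nil))))) (.nd (nat_lit 5) (.nd (nat_lit 6) 
(.lf (nat_lit 63900) (.g (nat_lit 4029) (.e (nat_lit 1589) (nat_lit 111) (.e (nat_lit 360467) (nat_lit 3) (.e (nat_lit 516139) (nat_lit 7) (.e (nat_lit 409647) (nat_lit 18) (.e (nat_lit 303117) (nat_lit 2) (.e (nat_lit 196630) (nat_lit 9) .nil)))))) (.g (nat_lit 5) .nil .nil))) 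
(.lf (nat_lit 63964) (.g (nat_lit 2697) (.e (nat_lit 1589) (nat_lit 111) (.e (nat_lit 360467) (nat_lit 3) (.e (nat_lit 516185) (nat_lit 16) (.e (nat_lit 491558) (nat_lit 10) (.e (nat_lit 344126) (nat_lit 25) (.e (nat_lit 548873) (nat_lit 5) .nil)))))) (.g (nat_lit 4) .nil .nil)))) (.nd (nat_lit 6) 
(.lf (nat_lit 63932) (.g (nat_lit 1862) (.e (nat_lit 1589) (nat_lit 111) (.e (nat_lit 360467) (nat_lit 3) (.e (nat_lit 516179) (nat_lit 15) (.e (nat_lit 475196) (nat_lit 40) .nil)))) .nil)) 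
(.lf (nat_lit 63996) (.g (nat_lit 3608) (.e (nat_lit 1589) (nat_lit 111) (.e (nat_lit 360473) (nat_lit 8) (.e (nat_lit 557087) (nat_lit 11) (.e (nat_lit 24617) (nat_lit 7) (.e (nat_lit 319511) (nat_lit 10) .nil))))) .nil))))))) (.nd (nat_lit 2) (.nd (nat_lit 3) (.nd (nat_lit 4) (.nd (nat_lit 5) (.nd (nat_lit 6) 
(.lf (nat_lit 63874) (.g (nat_lit 1503) (.e (nat_lit 1589) (nat_lit 111) (.e (nat_lit 360464) (nat_lit 2) (.e (nat_lit 507906) (nat_lit 0) (.e (nat_lit 5412) (nat_lit 303) (.e (nat_lit 73751) (nat_lit 7) (.e (nat_lit 548873) (nat_lit 5) .nil)))))) (.g (nat_lit 6) .nil .nil))) 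
(.lf (nat_lit 63938) (.g (nat_lit 2625) (.e (nat_lit 1589) (nat_lit 111) (.e (nat_lit 360467) (nat_lit 3) (.e (nat_lit 516179) (nat_lit 15) (.e (nat_lit 475199) (nat_lit 40) (.e (nat_lit 704589) (nat_lit 3) .nil))))) .nil))) (.nd (nat_lit 6) 
(.lf (nat_lit 63906) (.g (nat_lit 3814) (.e (nat_lit 1589) (nat_lit 111) (.e (nat_lit 360467) (nat_lit 3) (.e (nat_lit 516139) (nat_lit 7) (.e (nat_lit 409648) (nat_lit 18) (.e (nat_lit 303117) (nat_lit 2) (.e (nat_lit 196627) (nat_lit 9) .nil)))))) (.g (nat_lit 5) .nil .nil))) 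
(.lf (nat_lit 63970) (.g (nat_lit 794) (.e (nat_lit 1589) (nat_lit 111) (.e (nat_lit 360470) (nat_lit 6) (.e (nat_lit 540724) (nat_lit 28) (.e (nat_lit 442409) (nat_lit 20) (.e (nat_lit 3577) (nat_lit 223) (.e (nat_lit 745475) (nat_lit 0) .nil)))))) (.g (nat_lit 4) .nil .nil))))) (.nd (nat_lit 5) (.nd (nat_lit 6) 
(.lf (nat_lit 63890) (.g (nat_lit 1183) (.e (nat_lit 1589) (nat_lit 111) (.e (nat_lit 360467) (nat_lit 3) (.e (nat_lit 516139) (nat_lit 7) (.e (nat_lit 409616) (nat_lit 10) .nil)))) .nil)) 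
(.lf (nat_lit 63954) (.g (nat_lit 609) (.e (nat_lit 1589) (nat_lit 111) (.e (nat_lit 360467) (nat_lit 3) (.e (nat_lit 516180) (nat_lit 15) .nil))) .nil))) (.nd (nat_lit 6) 
(.lf (nat_lit 63922) (.g (nat_lit 3807) (.e (nat_lit 1589) (nat_lit 111) (.e (nat_lit 360467) (nat_lit 3) (.e (nat_lit 516139) (nat_lit 7) (.e (nat_lit 409649) (nat_lit 18) (.e (nat_lit 303117) (nat_lit 2) (.e (nat_lit 196627) (nat_lit 9) .nil)))))) (.g (nat_lit 5) .nil .nil))) 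
(.lf (nat_lit 63986) (.g (nat_lit 2176) (.e (nat_lit 1589) (nat_lit 111) (.e (nat_lit 360473) (nat_lit 8) (.e (nat_lit 557066) (nat_lit 9) (.e (nat_lit 232) (nat_lit 21) (.e (nat_lit 336060) (nat_lit 7) .nil))))) .nil))))) (.nd (nat_lit 4) (.nd (nat_lit 5) (.nd (nat_lit 6) 
(.lf (nat_lit 63882) (.g (nat_lit 2582) (.e (nat_lit 1589) (nat_lit 111) (.e (nat_lit 360466) (nat_lit 3) (.e (nat_lit 516185) (nat_lit 16) (.e (nat_lit 491560) (nat_lit 10) (.e (nat_lit 344126) (nat_lit 25) (.e (nat_lit 548874) (nat_lit 5) .nil)))))) (.g (nat_lit 4) .nil .nil))) 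
(.lf (nat_lit 63946) (.g (nat_lit 1924) (.e (nat_lit 1589) (nat_lit 111) (.e (nat_lit 360467) (nat_lit 3) (.e (nat_lit 516179) (nat_lit 15) (.e (nat_lit 475211) (nat_lit 41) .nil)))) .nil))) (.nd (nat_lit 6) 
(.lf (nat_lit 63914) (.g (nat_lit 2732) (.e (nat_lit 1589) (nat_lit 111) (.e (nat_lit 360467) (nat_lit 3) (.e (nat_lit 516139) (nat_lit 7) (.e (nat_lit 409649) (nat_lit 18) (.e (nat_lit 303111) (nat_lit 0) (.e (nat_lit 3146) (nat_lit 193) (.e (nat_lit 499958) (nat_lit 14) .nil))))))) (.g (nat_lit 4) .nil .nil))) 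
(.lf (nat_lit 63978) (.g (nat_lit 1935) (.e (nat_lit 1589) (nat_lit 111) (.e (nat_lit 360471) (nat_lit 7) (.e (nat_lit 548891) (nat_lit 11) (.e (nat_lit 81938) (nat_lit 20) (.e (nat_lit 1842) (nat_lit 123) (.e (nat_lit 548873) (nat_lit 5) .nil)))))) (.g (nat_lit 4) .nil .nil))))) (.nd (nat_lit 5) (.nd (nat_lit 6) 
(.lf (nat_lit 63898) (.g (nat_lit 2999) (.e (nat_lit 1589) (nat_lit 111) (.e (nat_lit 360467) (nat_lit 3) (.e (nat_lit 516139) (nat_lit 7) (.e (nat_lit 409646) (nat_lit 18) (.e (nat_lit 303117) (nat_lit 2) (.e (nat_lit 196626) (nat_lit 9) .nil)))))) (.g (nat_lit 4) .nil .nil))) 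
(.lf (nat_lit 63962) (.g (nat_lit 2453) (.e (nat_lit 1589) (nat_lit 111) (.e (nat_lit 360467) (nat_lit 3) (.e (nat_lit 516185) (nat_lit 16) (.e (nat_lit 491552) (nat_lit 9) (.e (nat_lit 335886) (nat_lit 0) (.e (nat_lit 1842) (nat_lit 123) (.e (nat_lit 548874) (nat_lit 5) .nil))))))) (.g (nat_lit 4) .nil .nil)))) (.nd (nat_lit 6) 
(.lf (nat_lit 63930) (.g (nat_lit 939) (.e (nat_lit 1589) (nat_lit 111) (.e (nat_lit 360467) (nat_lit 3) (.e (nat_lit 516171) (nat_lit 13) (.e (nat_lit 458774) (nat_lit 18) .nil)))) .nil)) 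
(.lf (nat_lit 63994) (.g (nat_lit 2554) (.e (nat_lit 1589) (nat_lit 111) (.e (nat_lit 360473) (nat_lit 8) (.e (nat_lit 557087) (nat_lit 11) (.e (nat_lit 24617) (nat_lit 7) (.e (nat_lit 319505) (nat_lit 10) .nil))))) .nil)))))) (.nd (nat_lit 3) (.nd (nat_lit 4) (.nd (nat_lit 5) (.nd (nat_lit 6) 
(.lf (nat_lit 63878) (.g (nat_lit 737) (.e (nat_lit 1589) (nat_lit 111) (.e (nat_lit 360466) (nat_lit 3) (.e (nat_lit 516098) (nat_lit 0) .nil))) .nil)) 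
(.lf (nat_lit 63942) (.g (nat_lit 3588) (.e (nat_lit 1589) (nat_lit 111) (.e (nat_lit 360467) (nat_lit 3) (.e (nat_lit 516179) (nat_lit 15) (.e (nat_lit 475199) (nat_lit 40) (.e (nat_lit 704590) (nat_lit 3) (.e (nat_lit 163975) (nat_lit 30) (.e (nat_lit 573451) (nat_lit 9) .nil))))))) (.g (nat_lit 4) .nil .nil)))) (.nd (nat_lit 6) 
(.lf (nat_lit 63910) (.g (nat_lit 2577) (.e (nat_lit 1589) (nat_lit 111) (.e (nat_lit 360467) (nat_lit 3) (.e (nat_lit 516139) (nat_lit 7) (.e (nat_lit 409649) (nat_lit 18) (.e (nat_lit 303111) (nat_lit 0) (.e (nat_lit 3134) (nat_lit 193) (.e (nat_lit 499968) (nat_lit 14) .nil))))))) (.g (nat_lit 4) .nil .nil))) 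
(.lf (nat_lit 63974) (.g (nat_lit 2275) (.e (nat_lit 1589) (nat_lit 111) (.e (nat_lit 360471) (nat_lit 7) (.e (nat_lit 548889) (nat_lit 9) (.e (nat_lit 65585) (nat_lit 7) (.e (nat_lit 319519) (nat_lit 12) (.e (nat_lit 32774) (nat_lit 5) .nil)))))) (.g (nat_lit 4) .nil .nil))))) (.nd (nat_lit 5) (.nd (nat_lit 6) 
(.lf (nat_lit 63894) (.g (nat_lit 3289) (.e (nat_lit 1589) (nat_lit 111) (.e (nat_lit 360467) (nat_lit 3) (.e (nat_lit 516139) (nat_lit 7) (.e (nat_lit 409643) (nat_lit 18) (.e (nat_lit 303117) (nat_lit 2) (.e (nat_lit 196630) (nat_lit 9) .nil)))))) (.g (nat_lit 5) .nil .nil))) 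
(.lf (nat_lit 63958) (.g (nat_lit 1047) (.e (nat_lit 1589) (nat_lit 111) (.e (nat_lit 360467) (nat_lit 3) (.e (nat_lit 516184) (nat_lit 16) (.e (nat_lit 491566) (nat_lit 12) .nil)))) .nil))) (.nd (nat_lit 6) 
(.lf (nat_lit 63926) (.g (nat_lit 1360) (.e (nat_lit 1589) (nat_lit 111) (.e (nat_lit 360467) (nat_lit 3) (.e (nat_lit 516146) (nat_lit 9) (.e (nat_lit 426444) (nat_lit 19) (.e (nat_lit 114432) (nat_lit 3) .nil))))) .nil)) 
(.lf (nat_lit 63990) (.g (nat_lit 1753) (.e (nat_lit 1589) (nat_lit 111) (.e (nat_lit 360473) (nat_lit 8) (.e (nat_lit 557067) (nat_lit 9) (.e (nat_lit 7936) (nat_lit 23) .nil)))) .nil))))) (.nd (nat_lit 4) (.nd (nat_lit 5) (.nd (nat_lit 6) 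
(.lf (nat_lit 63886) (.g (nat_lit 1020) (.e (nat_lit 1589) (nat_lit 111) (.e (nat_lit 360467) (nat_lit 3) (.e (nat_lit 516117) (nat_lit 1) (.e (nat_lit 164427) (nat_lit 278) .nil)))) .nil)) 
(.lf (nat_lit 63950) (.g (nat_lit 3238) (.e (nat_lit 1589) (nat_lit 111) (.e (nat_lit 360467) (nat_lit 3) (.e (nat_lit 516179) (nat_lit 15) (.e (nat_lit 475214) (nat_lit 42) (.e (nat_lit 720915) (nat_lit 20) .nil))))) .nil))) (.nd (nat_lit 6) 
(.lf (nat_lit 63918) (.g (nat_lit 3087) (.e (nat_lit 1589) (nat_lit 111) (.e (nat_lit 360467) (nat_lit 3) (.e (nat_lit 516139) (nat_lit 7) (.e (nat_lit 409649) (nat_lit 18) (.e (nat_lit 303111) (nat_lit 0) (.e (nat_lit 3147) (nat_lit 193) (.e (nat_lit 499960) (nat_lit 14) .nil))))))) (.g (nat_lit 4) .nil .nil))) 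
(.lf (nat_lit 63982) (.g (nat_lit 2537) (.e (nat_lit 1589) (nat_lit 111) (.e (nat_lit 360471) (nat_lit 7) (.e (nat_lit 548891) (nat_lit 11) (.e (nat_lit 81947) (nat_lit 20) (.e (nat_lit 1841) (nat_lit 123) (.e (nat_lit 548874) (nat_lit 5) .nil)))))) (.g (nat_lit 4) .nil .nil))))) (.nd (nat_lit 5) (.nd (nat_lit 6) 
(.lf (nat_lit 63902) (.g (nat_lit 2351) (.e (nat_lit 1589) (nat_lit 111) (.e (nat_lit 360467) (nat_lit 3) (.e (nat_lit 516139) (nat_lit 7) (.e (nat_lit 409648) (nat_lit 18) (.e (nat_lit 303108) (nat_lit 0) .nil))))) .nil)) 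
(.lf (nat_lit 63966) (.g (nat_lit 2593) (.e (nat_lit 1589) (nat_lit 111) (.e (nat_lit 360467) (nat_lit 3) (.e (nat_lit 516185) (nat_lit 16) (.e (nat_lit 491560) (nat_lit 10) (.e (nat_lit 344124) (nat_lit 25) .nil))))) .nil))) (.nd (nat_lit 6) 
(.lf (nat_lit 63934) (.g (nat_lit 2726) (.e (nat_lit 1589) (nat_lit 111) (.e (nat_lit 360467) (nat_lit 3) (.e (nat_lit 516179) (nat_lit 15) (.e (nat_lit 475198) (nat_lit 40) (.e (nat_lit 704589) (nat_lit 3) (.e (nat_lit 163975) (nat_lit 30) (.e (nat_lit 573449) (nat_lit 9) .nil))))))) (.g (nat_lit 4) .nil .nil))) 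
(.lf (nat_lit 63998) (.g (nat_lit 4122) (.e (nat_lit 1589) (nat_lit 111) (.e (nat_lit 360473) (nat_lit 8) (.e (nat_lit 557087) (nat_lit 11) (.e (nat_lit 24617) (nat_lit 7) (.e (nat_lit 319518) (nat_lit 12) .nil))))) .nil)))))))) (.nd (nat_lit 1) (.nd (nat_lit 2) (.nd (nat_lit 3) (.nd (nat_lit 4) (.nd (nat_lit 5) (.nd (nat_lit 6) 
(.lf (nat_lit 63873) (.g (nat_lit 1196) (.e (nat_lit 1589) (nat_lit 111) (.e (nat_lit 368384) (nat_lit 0) (.e (nat_lit 5224) (nat_lit 296) (.e (nat_lit 163924) (nat_lit 15) (.e (nat_lit 450592) (nat_lit 14) (.e (nat_lit 639008) (nat_lit 13) .nil)))))) (.g (nat_lit 4) .nil .nil))) 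
(.lf (nat_lit 63937) (.g (nat_lit 3835) (.e (nat_lit 1589) (nat_lit 111) (.e (nat_lit 360467) (nat_lit 3) (.e (nat_lit 516179) (nat_lit 15) (.e (nat_lit 475198) (nat_lit 40) (.e (nat_lit 704590) (nat_lit 3) (.e (nat_lit 163975) (nat_lit 30) (.e (nat_lit 573451) (nat_lit 9) .nil))))))) (.g (nat_lit 5) .nil .nil)))) (.nd (nat_lit 6) 
(.lf (nat_lit 63905) (.g (nat_lit 4049) (.e (nat_lit 1589) (nat_lit 111) (.e (nat_lit 360467) (nat_lit 3) (.e (nat_lit 516139) (nat_lit 7) (.e (nat_lit 409648) (nat_lit 18) (.e (nat_lit 303117) (nat_lit 2) (.e (nat_lit 196626) (nat_lit 9) .nil)))))) (.g (nat_lit 5) .nil .nil))) 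
(.lf (nat_lit 63969) (.g (nat_lit 1199) (.e (nat_lit 1589) (nat_lit 111) (.e (nat_lit 368384) (nat_lit 5) (.e (nat_lit 532583) (nat_lit 26) (.e (nat_lit 426298) (nat_lit 11) (.e (nat_lit 458814) (nat_lit 49) (.e (nat_lit 745476) (nat_lit 0) .nil)))))) (.g (nat_lit 4) .nil .nil))))) (.nd (nat_lit 5) (.nd (nat_lit 6) 
(.lf (nat_lit 63889) (.g (nat_lit 3512) (.e (nat_lit 1589) (nat_lit 111) (.e (nat_lit 360467) (nat_lit 3) (.e (nat_lit 516138) (nat_lit 7) (.e (nat_lit 409645) (nat_lit 18) (.e (nat_lit 303117) (nat_lit 2) (.e (nat_lit 196630) (nat_lit 9) .nil)))))) (.g (nat_lit 5) .nil .nil))) 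
(.lf (nat_lit 63953) (.g (nat_lit 3332) (.e (nat_lit 1589) (nat_lit 111) (.e (nat_lit 360467) (nat_lit 3) (.e (nat_lit 516179) (nat_lit 15) (.e (nat_lit 475214) (nat_lit 42) (.e (nat_lit 720924) (nat_lit 20) .nil))))) .nil))) (.nd (nat_lit 6) 
(.lf (nat_lit 63921) (.g (nat_lit 3953) (.e (nat_lit 1589) (nat_lit 111) (.e (nat_lit 360467) (nat_lit 3) (.e (nat_lit 516139) (nat_lit 7) (.e (nat_lit 409649) (nat_lit 18) (.e (nat_lit 303117) (nat_lit 2) (.e (nat_lit 196626) (nat_lit 9) .nil)))))) (.g (nat_lit 5) .nil .nil))) 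
(.lf (nat_lit 63985) (.g (nat_lit 2015) (.e (nat_lit 1589) (nat_lit 111) (.e (nat_lit 360473) (nat_lit 8) (.e (nat_lit 557065) (nat_lit 9) (.e (nat_lit 324) (nat_lit 24) (.e (nat_lit 360471) (nat_lit 7) (.e (nat_lit 548873) (nat_lit 5) .nil)))))) (.g (nat_lit 4) .nil .nil)))))) (.nd (nat_lit 4) (.nd (nat_lit 5) (.nd (nat_lit 6) 
(.lf (nat_lit 63881) (.g (nat_lit 3653) (.e (nat_lit 1589) (nat_lit 111) (.e (nat_lit 360466) (nat_lit 3) (.e (nat_lit 516185) (nat_lit 16) (.e (nat_lit 491544) (nat_lit 7) (.e (nat_lit 319519) (nat_lit 12) .nil))))) .nil)) 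
(.lf (nat_lit 63945) (.g (nat_lit 1865) (.e (nat_lit 1589) (nat_lit 111) (.e (nat_lit 360467) (nat_lit 3) (.e (nat_lit 516179) (nat_lit 15) (.e (nat_lit 475210) (nat_lit 41) .nil)))) .nil))) (.nd (nat_lit 6) 
(.lf (nat_lit 63913) (.g (nat_lit 2796) (.e (nat_lit 1589) (nat_lit 111) (.e (nat_lit 360467) (nat_lit 3) (.e (nat_lit 516139) (nat_lit 7) (.e (nat_lit 409649) (nat_lit 18) (.e (nat_lit 303111) (nat_lit 0) (.e (nat_lit 3144) (nat_lit 193) (.e (nat_lit 499969) (nat_lit 14) .nil))))))) (.g (nat_lit 4) .nil .nil))) 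
(.lf (nat_lit 63977) (.g (nat_lit 2953) (.e (nat_lit 1589) (nat_lit 111) (.e (nat_lit 360471) (nat_lit 7) (.e (nat_lit 548889) (nat_lit 9) (.e (nat_lit 65620) (nat_lit 10) (.e (nat_lit 344126) (nat_lit 25) (.e (nat_lit 548873) (nat_lit 5) .nil)))))) (.g (nat_lit 0) .nil .nil))))) (.nd (nat_lit 5) (.nd (nat_lit 6) 
(.lf (nat_lit 63897) (.g (nat_lit 2967) (.e (nat_lit 1589) (nat_lit 111) (.e (nat_lit 360467) (nat_lit 3) (.e (nat_lit 516139) (nat_lit 7) (.e (nat_lit 409646) (nat_lit 18) (.e (nat_lit 303117) (nat_lit 2) .nil))))) .nil)) 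
(.lf (nat_lit 63961) (.g (nat_lit 1545) (.e (nat_lit 1589) (nat_lit 111) (.e (nat_lit 360467) (nat_lit 3) (.e (nat_lit 516185) (nat_lit 16) (.e (nat_lit 491552) (nat_lit 9) .nil)))) .nil))) (.nd (nat_lit 6) 
(.lf (nat_lit 63929) (.g (nat_lit 1517) (.e (nat_lit 1589) (nat_lit 111) (.e (nat_lit 360467) (nat_lit 3) (.e (nat_lit 516146) (nat_lit 9) (.e (nat_lit 426467) (nat_lit 24) (.e (nat_lit 155674) (nat_lit 12) (.e (nat_lit 57480) (nat_lit 28) (.e (nat_lit 564992) (nat_lit 0) .nil))))))) (.g (nat_lit 4) .nil .nil))) 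
(.lf (nat_lit 63993) (.g (nat_lit 1599) (.e (nat_lit 1589) (nat_lit 111) (.e (nat_lit 360473) (nat_lit 8) (.e (nat_lit 557087) (nat_lit 11) (.e (nat_lit 24617) (nat_lit 7) .nil)))) .nil)))))) (.nd (nat_lit 3) (.nd (nat_lit 4) (.nd (nat_lit 5) (.nd (nat_lit 6) 
(.lf (nat_lit 63877) (.g (nat_lit 1780) (.e (nat_lit 1589) (nat_lit 111) (.e (nat_lit 360464) (nat_lit 2) (.e (nat_lit 507922) (nat_lit 6) (.e (nat_lit 286756) (nat_lit 10) (.e (nat_lit 344126) (nat_lit 25) (.e (nat_lit 548873) (nat_lit 5) .nil)))))) (.g (nat_lit 5) .nil .nil))) 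
(.lf (nat_lit 63941) (.g (nat_lit 3735) (.e (nat_lit 1589) (nat_lit 111) (.e (nat_lit 360467) (nat_lit 3) (.e (nat_lit 516179) (nat_lit 15) (.e (nat_lit 475199) (nat_lit 40) (.e (nat_lit 704590) (nat_lit 3) (.e (nat_lit 163975) (nat_lit 30) (.e (nat_lit 573449) (nat_lit 9) .nil))))))) (.g (nat_lit 4) .nil .nil)))) (.nd (nat_lit 6) 
(.lf (nat_lit 63909) (.g (nat_lit 2620) (.e (nat_lit 1589) (nat_lit 111) (.e (nat_lit 360467) (nat_lit 3) (.e (nat_lit 516139) (nat_lit 7) (.e (nat_lit 409649) (nat_lit 18) (.e (nat_lit 303111) (nat_lit 0) (.e (nat_lit 3134) (nat_lit 193) (.e (nat_lit 499958) (nat_lit 14) .nil))))))) (.g (nat_lit 4) .nil .nil))) 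
(.lf (nat_lit 63973) (.g (nat_lit 1834) (.e (nat_lit 1589) (nat_lit 111) (.e (nat_lit 360471) (nat_lit 7) (.e (nat_lit 548889) (nat_lit 9) (.e (nat_lit 65582) (nat_lit 7) .nil)))) .nil)))) (.nd (nat_lit 5) (.nd (nat_lit 6) 
(.lf (nat_lit 63893) (.g (nat_lit 1352) (.e (nat_lit 1589) (nat_lit 111) (.e (nat_lit 360467) (nat_lit 3) (.e (nat_lit 516139) (nat_lit 7) (.e (nat_lit 409643) (nat_lit 18) .nil)))) .nil)) 
(.lf (nat_lit 63957) (.g (nat_lit 3113) (.e (nat_lit 1589) (nat_lit 111) (.e (nat_lit 360467) (nat_lit 3) (.e (nat_lit 516184) (nat_lit 16) (.e (nat_lit 491559) (nat_lit 10) (.e (nat_lit 344126) (nat_lit 25) (.e (nat_lit 548873) (nat_lit 5) .nil)))))) (.g (nat_lit 5) .nil .nil)))) (.nd (nat_lit 6) 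
(.lf (nat_lit 63925) (.g (nat_lit 2487) (.e (nat_lit 1589) (nat_lit 111) (.e (nat_lit 360467) (nat_lit 3) (.e (nat_lit 516142) (nat_lit 8) (.e (nat_lit 417828) (nat_lit 18) (.e (nat_lit 303117) (nat_lit 2) (.e (nat_lit 196630) (nat_lit 9) .nil)))))) (.g (nat_lit 4) .nil .nil))) 
(.lf (nat_lit 63989) (.g (nat_lit 2022) (.e (nat_lit 1589) (nat_lit 111) (.e (nat_lit 360473) (nat_lit 8) (.e (nat_lit 557066) (nat_lit 9) (.e (nat_lit 314) (nat_lit 23) (.e (nat_lit 352303) (nat_lit 20) .nil))))) .nil))))) (.nd (nat_lit 4) (.nd (nat_lit 5) (.nd (nat_lit 6) 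
(.lf (nat_lit 63885) (.g (nat_lit 2256) (.e (nat_lit 1589) (nat_lit 111) (.e (nat_lit 360467) (nat_lit 3) (.e (nat_lit 516098) (nat_lit 0) (.e (nat_lit 7591) (nat_lit 407) (.e (nat_lit 73751) (nat_lit 7) (.e (nat_lit 548873) (nat_lit 5) .nil)))))) (.g (nat_lit 6) .nil .nil))) 
(.lf (nat_lit 63949) (.g (nat_lit 3033) (.e (nat_lit 1589) (nat_lit 111) (.e (nat_lit 360467) (nat_lit 3) (.e (nat_lit 516179) (nat_lit 15) (.e (nat_lit 475214) (nat_lit 42) (.e (nat_lit 720911) (nat_lit 20) .nil))))) .nil))) (.nd (nat_lit 6) 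
(.lf (nat_lit 63917) (.g (nat_lit 2780) (.e (nat_lit 1589) (nat_lit 111) (.e (nat_lit 360467) (nat_lit 3) (.e (nat_lit 516139) (nat_lit 7) (.e (nat_lit 409649) (nat_lit 18) (.e (nat_lit 303111) (nat_lit 0) (.e (nat_lit 3147) (nat_lit 193) (.e (nat_lit 499958) (nat_lit 14) .nil))))))) (.g (nat_lit 4) .nil .nil))) 
(.lf (nat_lit 63981) (.g (nat_lit 1887) (.e (nat_lit 1589) (nat_lit 111) (.e (nat_lit 360471) (nat_lit 7) (.e (nat_lit 548891) (nat_lit 11) (.e (nat_lit 81946) (nat_lit 20) (.e (nat_lit 1842) (nat_lit 123) (.e (nat_lit 548873) (nat_lit 5) .nil)))))) (.g (nat_lit 4) .nil .nil))))) (.nd (nat_lit 5) (.nd (nat_lit 6) 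
(.lf (nat_lit 63901) (.g (nat_lit 1190) (.e (nat_lit 1589) (nat_lit 111) (.e (nat_lit 360467) (nat_lit 3) (.e (nat_lit 516139) (nat_lit 7) (.e (nat_lit 409648) (nat_lit 18) .nil)))) .nil)) 
(.lf (nat_lit 63965) (.g (nat_lit 3441) (.e (nat_lit 1589) (nat_lit 111) (.e (nat_lit 360467) (nat_lit 3) (.e (nat_lit 516185) (nat_lit 16) (.e (nat_lit 491559) (nat_lit 10) (.e (nat_lit 344126) (nat_lit 25) (.e (nat_lit 548873) (nat_lit 5) .nil)))))) (.g (nat_lit 4) .nil .nil)))) (.nd (nat_lit 6) 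
(.lf (nat_lit 63933) (.g (nat_lit 1797) (.e (nat_lit 1589) (nat_lit 111) (.e (nat_lit 360467) (nat_lit 3) (.e (nat_lit 516179) (nat_lit 15) (.e (nat_lit 475197) (nat_lit 40) .nil)))) .nil)) 
(.lf (nat_lit 63997) (.g (nat_lit 3202) (.e (nat_lit 1589) (nat_lit 111) (.e (nat_lit 360473) (nat_lit 8) (.e (nat_lit 557087) (nat_lit 11) (.e (nat_lit 24617) (nat_lit 7) (.e (nat_lit 319517) (nat_lit 12) (.e (nat_lit 32774) (nat_lit 5) .nil)))))) (.g (nat_lit 4) .nil .nil)))))))) (.nd (nat_lit 2) (.nd (nat_lit 3) (.nd (nat_lit 4) (.nd (nat_lit 5) (.nd (nat_lit 6) 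
(.lf (nat_lit 63875) (.g (nat_lit 1397) (.e (nat_lit 1589) (nat_lit 111) (.e (nat_lit 360464) (nat_lit 2) (.e (nat_lit 507921) (nat_lit 6) (.e (nat_lit 286756) (nat_lit 10) (.e (nat_lit 344126) (nat_lit 25) (.e (nat_lit 548873) (nat_lit 5) .nil)))))) (.g (nat_lit 4) .nil .nil))) 
(.lf (nat_lit 63939) (.g (nat_lit 4707) (.e (nat_lit 1589) (nat_lit 111) (.e (nat_lit 360467) (nat_lit 3) (.e (nat_lit 516179) (nat_lit 15) (.e (nat_lit 475199) (nat_lit 40) (.e (nat_lit 704589) (nat_lit 3) (.e (nat_lit 163975) (nat_lit 30) (.e (nat_lit 573451) (nat_lit 9) .nil))))))) (.g (nat_lit 6) .nil .nil)))) (.nd (nat_lit 6) 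
(.lf (nat_lit 63907) (.g (nat_lit 1361) (.e (nat_lit 1589) (nat_lit 111) (.e (nat_lit 360467) (nat_lit 3) (.e (nat_lit 516139) (nat_lit 7) (.e (nat_lit 409649) (nat_lit 18) .nil)))) .nil)) 
(.lf (nat_lit 63971) (.g (nat_lit 1801) (.e (nat_lit 1589) (nat_lit 111) (.e (nat_lit 360471) (nat_lit 7) (.e (nat_lit 548873) (nat_lit 5) (.e (nat_lit 1592) (nat_lit 111) (.e (nat_lit 360471) (nat_lit 7) (.e (nat_lit 548873) (nat_lit 5) .nil)))))) (.g (nat_lit 5) .nil .nil))))) (.nd (nat_lit 5) (.nd (nat_lit 6) 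
(.lf (nat_lit 63891) (.g (nat_lit 1901) (.e (nat_lit 1589) (nat_lit 111) (.e (nat_lit 360467) (nat_lit 3) (.e (nat_lit 516139) (nat_lit 7) (.e (nat_lit 409616) (nat_lit 10) (.e (nat_lit 7936) (nat_lit 301) (.e (nat_lit 57473) (nat_lit 27) (.e (nat_lit 548874) (nat_lit 5) .nil))))))) (.g (nat_lit 4) .nil .nil))) 
(.lf (nat_lit 63955) (.g (nat_lit 1226) (.e (nat_lit 1589) (nat_lit 111) (.e (nat_lit 360467) (nat_lit 3) (.e (nat_lit 516184) (nat_lit 16) (.e (nat_lit 491551) (nat_lit 9) .nil)))) .nil))) (.nd (nat_lit 6) 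
(.lf (nat_lit 63923) (.g (nat_lit 5339) (.e (nat_lit 1589) (nat_lit 111) (.e (nat_lit 360467) (nat_lit 3) (.e (nat_lit 516139) (nat_lit 7) (.e (nat_lit 409649) (nat_lit 18) (.e (nat_lit 303117) (nat_lit 2) (.e (nat_lit 196630) (nat_lit 9) .nil)))))) (.g (nat_lit 6) .nil .nil))) 
(.lf (nat_lit 63987) (.g (nat_lit 1921) (.e (nat_lit 1589) (nat_lit 111) (.e (nat_lit 360473) (nat_lit 8) (.e (nat_lit 557066) (nat_lit 9) (.e (nat_lit 314) (nat_lit 23) (.e (nat_lit 352290) (nat_lit 20) (.e (nat_lit 1842) (nat_lit 123) (.e (nat_lit 548873) (nat_lit 5) .nil))))))) (.g (nat_lit 4) .nil .nil)))))) (.nd (nat_lit 4) (.nd (nat_lit 5) (.nd (nat_lit 6) 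
(.lf (nat_lit 63883) (.g (nat_lit 2407) (.e (nat_lit 1589) (nat_lit 111) (.e (nat_lit 360467) (nat_lit 3) (.e (nat_lit 516097) (nat_lit 0) (.e (nat_lit 7591) (nat_lit 407) (.e (nat_lit 73751) (nat_lit 7) (.e (nat_lit 548873) (nat_lit 5) .nil)))))) (.g (nat_lit 5) .nil .nil))) 
(.lf (nat_lit 63947) (.g (nat_lit 4151) (.e (nat_lit 1589) (nat_lit 111) (.e (nat_lit 360467) (nat_lit 3) (.e (nat_lit 516179) (nat_lit 15) (.e (nat_lit 475211) (nat_lit 41) (.e (nat_lit 712722) (nat_lit 15) (.e (nat_lit 3302) (nat_lit 202) (.e (nat_lit 573449) (nat_lit 9) .nil))))))) (.g (nat_lit 6) .nil .nil)))) (.nd (nat_lit 6) 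
(.lf (nat_lit 63915) (.g (nat_lit 2632) (.e (nat_lit 1589) (nat_lit 111) (.e (nat_lit 360467) (nat_lit 3) (.e (nat_lit 516139) (nat_lit 7) (.e (nat_lit 409649) (nat_lit 18) (.e (nat_lit 303111) (nat_lit 0) (.e (nat_lit 3146) (nat_lit 193) (.e (nat_lit 499962) (nat_lit 14) .nil))))))) (.g (nat_lit 4) .nil .nil))) 
(.lf (nat_lit 63979) (.g (nat_lit 1760) (.e (nat_lit 1589) (nat_lit 111) (.e (nat_lit 360471) (nat_lit 7) (.e (nat_lit 548891) (nat_lit 11) (.e (nat_lit 81939) (nat_lit 20) (.e (nat_lit 1840) (nat_lit 123) (.e (nat_lit 548874) (nat_lit 5) .nil)))))) (.g (nat_lit 4) .nil .nil))))) (.nd (nat_lit 5) (.nd (nat_lit 6) 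
(.lf (nat_lit 63899) (.g (nat_lit 4872) (.e (nat_lit 1589) (nat_lit 111) (.e (nat_lit 360467) (nat_lit 3) (.e (nat_lit 516139) (nat_lit 7) (.e (nat_lit 409646) (nat_lit 18) (.e (nat_lit 303117) (nat_lit 2) (.e (nat_lit 196630) (nat_lit 9) .nil)))))) (.g (nat_lit 5) .nil .nil))) 
(.lf (nat_lit 63963) (.g (nat_lit 2341) (.e (nat_lit 1589) (nat_lit 111) (.e (nat_lit 360467) (nat_lit 3) (.e (nat_lit 516185) (nat_lit 16) (.e (nat_lit 491552) (nat_lit 9) (.e (nat_lit 335924) (nat_lit 0) .nil))))) .nil))) (.nd (nat_lit 6) 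
(.lf (nat_lit 63931) (.g (nat_lit 592) (.e (nat_lit 1589) (nat_lit 111) (.e (nat_lit 360467) (nat_lit 3) (.e (nat_lit 516179) (nat_lit 15) .nil))) .nil)) 
(.lf (nat_lit 63995) (.g (nat_lit 3007) (.e (nat_lit 1589) (nat_lit 111) (.e (nat_lit 360473) (nat_lit 8) (.e (nat_lit 557087) (nat_lit 11) (.e (nat_lit 24617) (nat_lit 7) (.e (nat_lit 319505) (nat_lit 10) (.e (nat_lit 559) (nat_lit 41) (.e (nat_lit 499967) (nat_lit 14) .nil))))))) (.g (nat_lit 4) .nil .nil))))))) (.nd (nat_lit 3) (.nd (nat_lit 4) (.nd (nat_lit 5) (.nd (nat_lit 6) 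
(.lf (nat_lit 63879) (.g (nat_lit 3384) (.e (nat_lit 1589) (nat_lit 111) (.e (nat_lit 360466) (nat_lit 3) (.e (nat_lit 516179) (nat_lit 15) (.e (nat_lit 475199) (nat_lit 40) (.e (nat_lit 704589) (nat_lit 3) (.e (nat_lit 163979) (nat_lit 30) (.e (nat_lit 573452) (nat_lit 9) .nil))))))) (.g (nat_lit 5) .nil .nil))) 
(.lf (nat_lit 63943) (.g (nat_lit 1239) (.e (nat_lit 1589) (nat_lit 111) (.e (nat_lit 360467) (nat_lit 3) (.e (nat_lit 516179) (nat_lit 15) (.e (nat_lit 475201) (nat_lit 40) .nil)))) .nil))) (.nd (nat_lit 6) 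
(.lf (nat_lit 63911) (.g (nat_lit 2852) (.e (nat_lit 1589) (nat_lit 111) (.e (nat_lit 360467) (nat_lit 3) (.e (nat_lit 516139) (nat_lit 7) (.e (nat_lit 409649) (nat_lit 18) (.e (nat_lit 303111) (nat_lit 0) (.e (nat_lit 3134) (nat_lit 193) (.e (nat_lit 499969) (nat_lit 14) .nil))))))) (.g (nat_lit 4) .nil .nil))) 
(.lf (nat_lit 63975) (.g (nat_lit 1820) (.e (nat_lit 1589) (nat_lit 111) (.e (nat_lit 360471) (nat_lit 7) (.e (nat_lit 548889) (nat_lit 9) (.e (nat_lit 65609) (nat_lit 10) .nil)))) .nil)))) (.nd (nat_lit 5) (.nd (nat_lit 6) 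
(.lf (nat_lit 63895) (.g (nat_lit 3227) (.e (nat_lit 1589) (nat_lit 111) (.e (nat_lit 360467) (nat_lit 3) (.e (nat_lit 516139) (nat_lit 7) (.e (nat_lit 409644) (nat_lit 18) (.e (nat_lit 303117) (nat_lit 2) (.e (nat_lit 196630) (nat_lit 9) .nil)))))) (.g (nat_lit 4) .nil .nil))) 
(.lf (nat_lit 63959) (.g (nat_lit 3658) (.e (nat_lit 1589) (nat_lit 111) (.e (nat_lit 360467) (nat_lit 3) (.e (nat_lit 516184) (nat_lit 16) (.e (nat_lit 491566) (nat_lit 12) (.e (nat_lit 385074) (nat_lit 31) (.e (nat_lit 573456) (nat_lit 9) .nil)))))) (.g (nat_lit 5) .nil .nil)))) (.nd (nat_lit 6) 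
(.lf (nat_lit 63927) (.g (nat_lit 1775) (.e (nat_lit 1589) (nat_lit 111) (.e (nat_lit 360467) (nat_lit 3) (.e (nat_lit 516146) (nat_lit 9) (.e (nat_lit 426444) (nat_lit 19) (.e (nat_lit 114432) (nat_lit 3) (.e (nat_lit 163975) (nat_lit 30) (.e (nat_lit 573449) (nat_lit 9) .nil))))))) (.g (nat_lit 4) .nil .nil))) 
(.lf (nat_lit 63991) (.g (nat_lit 1288) (.e (nat_lit 1589) (nat_lit 111) (.e (nat_lit 360473) (nat_lit 8) (.e (nat_lit 557070) (nat_lit 9) (.e (nat_lit 313) (nat_lit 23) .nil)))) .nil))))) (.nd (nat_lit 4) (.nd (nat_lit 5) (.nd (nat_lit 6) 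
(.lf (nat_lit 63887) (.g (nat_lit 632) (.e (nat_lit 1589) (nat_lit 111) (.e (nat_lit 360467) (nat_lit 3) (.e (nat_lit 516138) (nat_lit 7) .nil))) .nil)) 
(.lf (nat_lit 63951) (.g (nat_lit 2978) (.e (nat_lit 1589) (nat_lit 111) (.e (nat_lit 360467) (nat_lit 3) (.e (nat_lit 516179) (nat_lit 15) (.e (nat_lit 475214) (nat_lit 42) (.e (nat_lit 720920) (nat_lit 20) .nil))))) .nil))) (.nd (nat_lit 6) 
(.lf (nat_lit 63919) (.g (nat_lit 3333) (.e (nat_lit 1589) (nat_lit 111) (.e (nat_lit 360467) (nat_lit 3) (.e (nat_lit 516139) (nat_lit 7) (.e (nat_lit 409649) (nat_lit 18) (.e (nat_lit 303111) (nat_lit 0) (.e (nat_lit 3147) (nat_lit 193) (.e (nat_lit 499969) (nat_lit 14) .nil))))))) (.g (nat_lit 5) .nil .nil))) 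
(.lf (nat_lit 63983) (.g (nat_lit 2537) (.e (nat_lit 1589) (nat_lit 111) (.e (nat_lit 360471) (nat_lit 7) (.e (nat_lit 548891) (nat_lit 11) (.e (nat_lit 81947) (nat_lit 20) (.e (nat_lit 1842) (nat_lit 123) (.e (nat_lit 548873) (nat_lit 5) .nil)))))) (.g (nat_lit 4) .nil .nil))))) (.nd (nat_lit 5) (.nd (nat_lit 6) 
(.lf (nat_lit 63903) (.g (nat_lit 2528) (.e (nat_lit 1589) (nat_lit 111) (.e (nat_lit 360467) (nat_lit 3) (.e (nat_lit 516139) (nat_lit 7) (.e (nat_lit 409648) (nat_lit 18) (.e (nat_lit 303108) (nat_lit 0) (.e (nat_lit 3134) (nat_lit 193) (.e (nat_lit 499969) (nat_lit 14) .nil))))))) (.g (nat_lit 4) .nil .nil))) 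
(.lf (nat_lit 63967) (.g (nat_lit 632) (.e (nat_lit 1589) (nat_lit 111) (.e (nat_lit 360467) (nat_lit 3) (.e (nat_lit 516193) (nat_lit 17) .nil))) .nil))) (.nd (nat_lit 6) 
(.lf (nat_lit 63935) (.g (nat_lit 3511) (.e (nat_lit 1589) (nat_lit 111) (.e (nat_lit 360467) (nat_lit 3) (.e (nat_lit 516179) (nat_lit 15) (.e (nat_lit 475198) (nat_lit 40) (.e (nat_lit 704589) (nat_lit 3) (.e (nat_lit 163975) (nat_lit 30) (.e (nat_lit 573451) (nat_lit 9) .nil))))))) (.g (nat_lit 5) .nil .nil))) 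
(.lf (nat_lit 63999) (.g (nat_lit 3620) (.e (nat_lit 1589) (nat_lit 111) (.e (nat_lit 360473) (nat_lit 8) (.e (nat_lit 557087) (nat_lit 11) (.e (nat_lit 24617) (nat_lit 7) (.e (nat_lit 319519) (nat_lit 12) (.e (nat_lit 32774) (nat_lit 5) .nil)))))) (.g (nat_lit 5) .nil .nil))))))))))

noncomputable def tv878 : DT := (.nd (nat_lit 0) (.nd (nat_lit 1) (.nd (nat_lit 2) (.nd (nat_lit 3) (.nd (nat_lit 4) (.nd (nat_lit 5) (.nd (nat_lit 6) 
(.lf (nat_lit 64000) (.g (nat_lit 1516) (.e (nat_lit 1589) (nat_lit 111) (.e (nat_lit 360473) (nat_lit 8) (.e (nat_lit 557087) (nat_lit 11) (.e (nat_lit 24625) (nat_lit 9) .nil)))) .nil)) 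
(.lf (nat_lit 64064) (.g (nat_lit 4362) (.e (nat_lit 1589) (nat_lit 111) (.e (nat_lit 360475) (nat_lit 8) (.e (nat_lit 557087) (nat_lit 11) (.e (nat_lit 24617) (nat_lit 7) (.e (nat_lit 319518) (nat_lit 12) .nil))))) .nil))) (.nd (nat_lit 6) 
(.lf (nat_lit 64032) (.g (nat_lit 1931) (.e (nat_lit 1589) (nat_lit 111) (.e (nat_lit 360473) (nat_lit 8) (.e (nat_lit 557119) (nat_lit 18) (.e (nat_lit 2807) (nat_lit 180) (.e (nat_lit 303138) (nat_lit 10) .nil))))) .nil)) 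
(.lf (nat_lit 64096) (.g (nat_lit 827) (.e (nat_lit 1589) (nat_lit 111) (.e (nat_lit 360475) (nat_lit 8) (.e (nat_lit 557091) (nat_lit 12) .nil))) .nil)))) (.nd (nat_lit 5) (.nd (nat_lit 6) 
(.lf (nat_lit 64016) (.g (nat_lit 3227) (.e (nat_lit 1589) (nat_lit 111) (.e (nat_lit 360473) (nat_lit 8) (.e (nat_lit 557090) (nat_lit 12) (.e (nat_lit 164020) (nat_lit 45) (.e (nat_lit 696344) (nat_lit 8) .nil))))) .nil)) 
(.lf (nat_lit 64080) (.g (nat_lit 2052) (.e (nat_lit 1589) (nat_lit 111) (.e (nat_lit 360475) (nat_lit 8) (.e (nat_lit 557087) (nat_lit 11) (.e (nat_lit 24634) (nat_lit 9) .nil)))) .nil))) (.nd (nat_lit 6) 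
(.lf (nat_lit 64048) (.g (nat_lit 750) (.e (nat_lit 1589) (nat_lit 111) (.e (nat_lit 360475) (nat_lit 8) (.e (nat_lit 557068) (nat_lit 9) .nil))) .nil)) 
(.lf (nat_lit 64112) (.g (nat_lit 3256) (.e (nat_lit 1589) (nat_lit 111) (.e (nat_lit 360475) (nat_lit 8) (.e (nat_lit 557091) (nat_lit 12) (.e (nat_lit 164022) (nat_lit 46) (.e (nat_lit 704737) (nat_lit 11) (.e (nat_lit 16411) (nat_lit 2) (.e (nat_lit 196617) (nat_lit 9) .nil))))))) (.g (nat_lit 4) .nil .nil)))))) (.nd (nat_lit 4) (.nd (nat_lit 5) (.nd (nat_lit 6) 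
(.lf (nat_lit 64008) (.g (nat_lit 2040) (.e (nat_lit 1589) (nat_lit 111) (.e (nat_lit 360473) (nat_lit 8) (.e (nat_lit 557087) (nat_lit 11) (.e (nat_lit 24637) (nat_lit 9) .nil)))) .nil)) 
(.lf (nat_lit 64072) (.g (nat_lit 2942) (.e (nat_lit 1589) (nat_lit 111) (.e (nat_lit 360475) (nat_lit 8) (.e (nat_lit 557087) (nat_lit 11) (.e (nat_lit 24631) (nat_lit 9) (.e (nat_lit 335886) (nat_lit 0) (.e (nat_lit 1842) (nat_lit 123) (.e (nat_lit 548874) (nat_lit 5) .nil))))))) (.g (nat_lit 4) .nil .nil)))) (.nd (nat_lit 6) 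
(.lf (nat_lit 64040) (.g (nat_lit 1582) (.e (nat_lit 1589) (nat_lit 111) (.e (nat_lit 360475) (nat_lit 8) (.e (nat_lit 557065) (nat_lit 9) (.e (nat_lit 7936) (nat_lit 23) .nil)))) .nil)) 
(.lf (nat_lit 64104) (.g (nat_lit 2145) (.e (nat_lit 1589) (nat_lit 111) (.e (nat_lit 360475) (nat_lit 8) (.e (nat_lit 557091) (nat_lit 12) (.e (nat_lit 164000) (nat_lit 38) .nil)))) .nil)))) (.nd (nat_lit 5) (.nd (nat_lit 6) 
(.lf (nat_lit 64024) (.g (nat_lit 2338) (.e (nat_lit 1589) (nat_lit 111) (.e (nat_lit 360473) (nat_lit 8) (.e (nat_lit 557091) (nat_lit 12) (.e (nat_lit 164022) (nat_lit 46) (.e (nat_lit 704738) (nat_lit 11) (.e (nat_lit 16412) (nat_lit 2) (.e (nat_lit 196625) (nat_lit 9) .nil))))))) (.g (nat_lit 4) .nil .nil))) 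
(.lf (nat_lit 64088) (.g (nat_lit 2897) (.e (nat_lit 1589) (nat_lit 111) (.e (nat_lit 360475) (nat_lit 8) (.e (nat_lit 557087) (nat_lit 11) (.e (nat_lit 24641) (nat_lit 10) (.e (nat_lit 344126) (nat_lit 25) (.e (nat_lit 548873) (nat_lit 5) .nil)))))) (.g (nat_lit 4) .nil .nil)))) (.nd (nat_lit 6) 
(.lf (nat_lit 64056) (.g (nat_lit 1892) (.e (nat_lit 1589) (nat_lit 111) (.e (nat_lit 360475) (nat_lit 8) (.e (nat_lit 557086) (nat_lit 11) (.e (nat_lit 24617) (nat_lit 7) .nil)))) .nil)) 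
(.lf (nat_lit 64120) (.g (nat_lit 3361) (.e (nat_lit 1589) (nat_lit 111) (.e (nat_lit 360475) (nat_lit 8) (.e (nat_lit 557091) (nat_lit 12) (.e (nat_lit 164022) (nat_lit 46) (.e (nat_lit 704738) (nat_lit 11) (.e (nat_lit 16412) (nat_lit 2) (.e (nat_lit 196630) (nat_lit 9) .nil))))))) (.g (nat_lit 4) .nil .nil))))))) (.nd (nat_lit 3) (.nd (nat_lit 4) (.nd (nat_lit 5) (.nd (nat_lit 6) 
(.lf (nat_lit 64004) (.g (nat_lit 2553) (.e (nat_lit 1589) (nat_lit 111) (.e (nat_lit 360473) (nat_lit 8) (.e (nat_lit 557087) (nat_lit 11) (.e (nat_lit 24631) (nat_lit 9) (.e (nat_lit 335925) (nat_lit 0) (.e (nat_lit 1842) (nat_lit 123) (.e (nat_lit 548874) (nat_lit 5) .nil))))))) (.g (nat_lit 4) .nil .nil))) 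
(.lf (nat_lit 64068) (.g (nat_lit 3249) (.e (nat_lit 1589) (nat_lit 111) (.e (nat_lit 360475) (nat_lit 8) (.e (nat_lit 557087) (nat_lit 11) (.e (nat_lit 24625) (nat_lit 9) (.e (nat_lit 336261) (nat_lit 15) .nil))))) .nil))) (.nd (nat_lit 6) 
(.lf (nat_lit 64036) (.g (nat_lit 1072) (.e (nat_lit 1589) (nat_lit 111) (.e (nat_lit 360475) (nat_lit 8) (.e (nat_lit 557064) (nat_lit 9) .nil))) .nil)) 
(.lf (nat_lit 64100) (.g (nat_lit 3292) (.e (nat_lit 1589) (nat_lit 111) (.e (nat_lit 360475) (nat_lit 8) (.e (nat_lit 557091) (nat_lit 12) (.e (nat_lit 163843) (nat_lit 0) (.e (nat_lit 6047) (nat_lit 326) .nil))))) .nil)))) (.nd (nat_lit 5) (.nd (nat_lit 6) 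
(.lf (nat_lit 64020) (.g (nat_lit 2865) (.e (nat_lit 1589) (nat_lit 111) (.e (nat_lit 360473) (nat_lit 8) (.e (nat_lit 557091) (nat_lit 12) (.e (nat_lit 163999) (nat_lit 38) (.e (nat_lit 639020) (nat_lit 16) (.e (nat_lit 65580) (nat_lit 6) (.e (nat_lit 155392) (nat_lit 0) .nil))))))) (.g (nat_lit 4) .nil .nil))) 
(.lf (nat_lit 64084) (.g (nat_lit 3109) (.e (nat_lit 1589) (nat_lit 111) (.e (nat_lit 360475) (nat_lit 8) (.e (nat_lit 557087) (nat_lit 11) (.e (nat_lit 24638) (nat_lit 9) (.e (nat_lit 335917) (nat_lit 0) .nil))))) .nil))) (.nd (nat_lit 6) 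
(.lf (nat_lit 64052) (.g (nat_lit 1022) (.e (nat_lit 1589) (nat_lit 111) (.e (nat_lit 360475) (nat_lit 8) (.e (nat_lit 557085) (nat_lit 11) .nil))) .nil)) 
(.lf (nat_lit 64116) (.g (nat_lit 3760) (.e (nat_lit 1589) (nat_lit 111) (.e (nat_lit 360475) (nat_lit 8) (.e (nat_lit 557091) (nat_lit 12) (.e (nat_lit 164022) (nat_lit 46) (.e (nat_lit 704738) (nat_lit 11) (.e (nat_lit 16411) (nat_lit 2) (.e (nat_lit 196617) (nat_lit 9) .nil))))))) (.g (nat_lit 5) .nil .nil)))))) (.nd (nat_lit 4) (.nd (nat_lit 5) (.nd (nat_lit 6) 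
(.lf (nat_lit 64012) (.g (nat_lit 3714) (.e (nat_lit 1589) (nat_lit 111) (.e (nat_lit 360473) (nat_lit 8) (.e (nat_lit 557087) (nat_lit 11) (.e (nat_lit 24641) (nat_lit 10) (.e (nat_lit 344126) (nat_lit 25) (.e (nat_lit 548874) (nat_lit 5) .nil)))))) (.g (nat_lit 5) .nil .nil))) 
(.lf (nat_lit 64076) (.g (nat_lit 2914) (.e (nat_lit 1589) (nat_lit 111) (.e (nat_lit 360475) (nat_lit 8) (.e (nat_lit 557087) (nat_lit 11) (.e (nat_lit 24631) (nat_lit 9) (.e (nat_lit 335928) (nat_lit 0) (.e (nat_lit 1840) (nat_lit 123) (.e (nat_lit 548874) (nat_lit 5) .nil))))))) (.g (nat_lit 4) .nil .nil)))) (.nd (nat_lit 6) 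
(.lf (nat_lit 64044) (.g (nat_lit 2235) (.e (nat_lit 1589) (nat_lit 111) (.e (nat_lit 360475) (nat_lit 8) (.e (nat_lit 557066) (nat_lit 9) (.e (nat_lit 314) (nat_lit 23) (.e (nat_lit 352290) (nat_lit 20) (.e (nat_lit 1842) (nat_lit 123) (.e (nat_lit 548873) (nat_lit 5) .nil))))))) (.g (nat_lit 4) .nil .nil))) 
(.lf (nat_lit 64108) (.g (nat_lit 3686) (.e (nat_lit 1589) (nat_lit 111) (.e (nat_lit 360475) (nat_lit 8) (.e (nat_lit 557091) (nat_lit 12) (.e (nat_lit 164022) (nat_lit 46) (.e (nat_lit 704629) (nat_lit 9) (.e (nat_lit 442) (nat_lit 33) (.e (nat_lit 434222) (nat_lit 19) (.e (nat_lit 499961) (nat_lit 14) .nil)))))))) (.g (nat_lit 4) .nil .nil))))) (.nd (nat_lit 5) (.nd (nat_lit 6) 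
(.lf (nat_lit 64028) (.g (nat_lit 2599) (.e (nat_lit 1589) (nat_lit 111) (.e (nat_lit 360473) (nat_lit 8) (.e (nat_lit 557119) (nat_lit 18) (.e (nat_lit 2798) (nat_lit 180) (.e (nat_lit 303133) (nat_lit 9) (.e (nat_lit 426033) (nat_lit 0) (.e (nat_lit 3579) (nat_lit 223) (.e (nat_lit 745475) (nat_lit 0) .nil)))))))) (.g (nat_lit 5) .nil .nil))) 
(.lf (nat_lit 64092) (.g (nat_lit 2898) (.e (nat_lit 1589) (nat_lit 111) (.e (nat_lit 360475) (nat_lit 8) (.e (nat_lit 557089) (nat_lit 12) (.e (nat_lit 163844) (nat_lit 0) (.e (nat_lit 6065) (nat_lit 328) (.e (nat_lit 57421) (nat_lit 13) (.e (nat_lit 344126) (nat_lit 25) (.e (nat_lit 548874) (nat_lit 5) .nil)))))))) (.g (nat_lit 4) .nil .nil)))) (.nd (nat_lit 6) 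
(.lf (nat_lit 64060) (.g (nat_lit 269) (.e (nat_lit 1589) (nat_lit 111) (.e (nat_lit 360475) (nat_lit 8) (.e (nat_lit 557087) (nat_lit 11) .nil))) .nil)) 
(.lf (nat_lit 64124) (.g (nat_lit 2021) (.e (nat_lit 1589) (nat_lit 111) (.e (nat_lit 360475) (nat_lit 8) (.e (nat_lit 557119) (nat_lit 18) (.e (nat_lit 2796) (nat_lit 180) .nil)))) .nil))))))) (.nd (nat_lit 2) (.nd (nat_lit 3) (.nd (nat_lit 4) (.nd (nat_lit 5) (.nd (nat_lit 6) 
(.lf (nat_lit 64002) (.g (nat_lit 1464) (.e (nat_lit 1589) (nat_lit 111) (.e (nat_lit 360473) (nat_lit 8) (.e (nat_lit 557087) (nat_lit 11) (.e (nat_lit 24631) (nat_lit 9) .nil)))) .nil)) 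
(.lf (nat_lit 64066) (.g (nat_lit 2081) (.e (nat_lit 1589) (nat_lit 111) (.e (nat_lit 360475) (nat_lit 8) (.e (nat_lit 557087) (nat_lit 11) (.e (nat_lit 24623) (nat_lit 9) .nil)))) .nil))) (.nd (nat_lit 6) 
(.lf (nat_lit 64034) (.g (nat_lit 1185) (.e (nat_lit 1589) (nat_lit 111) (.e (nat_lit 360474) (nat_lit 8) (.e (nat_lit 557081) (nat_lit 9) .nil))) .nil)) 
(.lf (nat_lit 64098) (.g (nat_lit 2418) (.e (nat_lit 1589) (nat_lit 111) (.e (nat_lit 360475) (nat_lit 8) (.e (nat_lit 557091) (nat_lit 12) (.e (nat_lit 163841) (nat_lit 0) .nil)))) .nil)))) (.nd (nat_lit 5) (.nd (nat_lit 6) 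
(.lf (nat_lit 64018) (.g (nat_lit 4461) (.e (nat_lit 1589) (nat_lit 111) (.e (nat_lit 360473) (nat_lit 8) (.e (nat_lit 557090) (nat_lit 12) (.e (nat_lit 164020) (nat_lit 45) (.e (nat_lit 696344) (nat_lit 8) (.e (nat_lit 172138) (nat_lit 15) (.e (nat_lit 7936) (nat_lit 126) (.e (nat_lit 573449) (nat_lit 9) .nil)))))))) (.g (nat_lit 4) .nil .nil))) 
(.lf (nat_lit 64082) (.g (nat_lit 2054) (.e (nat_lit 1589) (nat_lit 111) (.e (nat_lit 360475) (nat_lit 8) (.e (nat_lit 557087) (nat_lit 11) (.e (nat_lit 24637) (nat_lit 9) .nil)))) .nil))) (.nd (nat_lit 6) 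
(.lf (nat_lit 64050) (.g (nat_lit 933) (.e (nat_lit 1589) (nat_lit 111) (.e (nat_lit 360475) (nat_lit 8) (.e (nat_lit 557073) (nat_lit 9) .nil))) .nil)) 
(.lf (nat_lit 64114) (.g (nat_lit 2643) (.e (nat_lit 1589) (nat_lit 111) (.e (nat_lit 360475) (nat_lit 8) (.e (nat_lit 557091) (nat_lit 12) (.e (nat_lit 164022) (nat_lit 46) (.e (nat_lit 704738) (nat_lit 11) .nil))))) .nil))))) (.nd (nat_lit 4) (.nd (nat_lit 5) (.nd (nat_lit 6) 
(.lf (nat_lit 64010) (.g (nat_lit 2816) (.e (nat_lit 1589) (nat_lit 111) (.e (nat_lit 360473) (nat_lit 8) (.e (nat_lit 557087) (nat_lit 11) (.e (nat_lit 24640) (nat_lit 10) (.e (nat_lit 344126) (nat_lit 25) (.e (nat_lit 548873) (nat_lit 5) .nil)))))) (.g (nat_lit 5) .nil .nil))) 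
(.lf (nat_lit 64074) (.g (nat_lit 3224) (.e (nat_lit 1589) (nat_lit 111) (.e (nat_lit 360475) (nat_lit 8) (.e (nat_lit 557087) (nat_lit 11) (.e (nat_lit 24631) (nat_lit 9) (.e (nat_lit 335925) (nat_lit 0) (.e (nat_lit 1842) (nat_lit 123) (.e (nat_lit 548874) (nat_lit 5) .nil))))))) (.g (nat_lit 4) .nil .nil)))) (.nd (nat_lit 6) 
(.lf (nat_lit 64042) (.g (nat_lit 1806) (.e (nat_lit 1589) (nat_lit 111) (.e (nat_lit 360475) (nat_lit 8) (.e (nat_lit 557065) (nat_lit 9) (.e (nat_lit 322) (nat_lit 24) .nil)))) .nil)) 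
(.lf (nat_lit 64106) (.g (nat_lit 2856) (.e (nat_lit 1589) (nat_lit 111) (.e (nat_lit 360475) (nat_lit 8) (.e (nat_lit 557091) (nat_lit 12) (.e (nat_lit 164022) (nat_lit 46) (.e (nat_lit 704629) (nat_lit 9) .nil))))) .nil)))) (.nd (nat_lit 5) (.nd (nat_lit 6) 
(.lf (nat_lit 64026) (.g (nat_lit 2312) (.e (nat_lit 1589) (nat_lit 111) (.e (nat_lit 360473) (nat_lit 8) (.e (nat_lit 557119) (nat_lit 18) (.e (nat_lit 2797) (nat_lit 180) (.e (nat_lit 303140) (nat_lit 10) .nil))))) .nil)) 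
(.lf (nat_lit 64090) (.g (nat_lit 865) (.e (nat_lit 1589) (nat_lit 111) (.e (nat_lit 360475) (nat_lit 8) (.e (nat_lit 557089) (nat_lit 12) .nil))) .nil))) (.nd (nat_lit 6) 
(.lf (nat_lit 64058) (.g (nat_lit 1787) (.e (nat_lit 1589) (nat_lit 111) (.e (nat_lit 360475) (nat_lit 8) (.e (nat_lit 557086) (nat_lit 11) (.e (nat_lit 24641) (nat_lit 10) .nil)))) .nil)) 
(.lf (nat_lit 64122) (.g (nat_lit 1958) (.e (nat_lit 1589) (nat_lit 111) (.e (nat_lit 360475) (nat_lit 8) (.e (nat_lit 557119) (nat_lit 18) (.e (nat_lit 2448) (nat_lit 157) .nil)))) .nil)))))) (.nd (nat_lit 3) (.nd (nat_lit 4) (.nd (nat_lit 5) (.nd (nat_lit 6) 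
(.lf (nat_lit 64006) (.g (nat_lit 2302) (.e (nat_lit 1589) (nat_lit 111) (.e (nat_lit 360473) (nat_lit 8) (.e (nat_lit 557087) (nat_lit 11) (.e (nat_lit 24631) (nat_lit 9) (.e (nat_lit 335928) (nat_lit 0) (.e (nat_lit 1840) (nat_lit 123) (.e (nat_lit 548874) (nat_lit 5) .nil))))))) (.g (nat_lit 4) .nil .nil))) 
(.lf (nat_lit 64070) (.g (nat_lit 3260) (.e (nat_lit 1589) (nat_lit 111) (.e (nat_lit 360475) (nat_lit 8) (.e (nat_lit 557087) (nat_lit 11) (.e (nat_lit 24628) (nat_lit 9) (.e (nat_lit 335878) (nat_lit 0) .nil))))) .nil))) (.nd (nat_lit 6) 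
(.lf (nat_lit 64038) (.g (nat_lit 1834) (.e (nat_lit 1589) (nat_lit 111) (.e (nat_lit 360475) (nat_lit 8) (.e (nat_lit 557065) (nat_lit 9) (.e (nat_lit 265) (nat_lit 21) .nil)))) .nil)) 
(.lf (nat_lit 64102) (.g (nat_lit 2119) (.e (nat_lit 1589) (nat_lit 111) (.e (nat_lit 360475) (nat_lit 8) (.e (nat_lit 557091) (nat_lit 12) (.e (nat_lit 163999) (nat_lit 38) .nil)))) .nil)))) (.nd (nat_lit 5) (.nd (nat_lit 6) 
(.lf (nat_lit 64022) (.g (nat_lit 1905) (.e (nat_lit 1589) (nat_lit 111) (.e (nat_lit 360473) (nat_lit 8) (.e (nat_lit 557091) (nat_lit 12) (.e (nat_lit 164022) (nat_lit 46) (.e (nat_lit 704738) (nat_lit 11) (.e (nat_lit 16411) (nat_lit 2) (.e (nat_lit 196617) (nat_lit 9) .nil))))))) (.g (nat_lit 4) .nil .nil))) 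
(.lf (nat_lit 64086) (.g (nat_lit 3948) (.e (nat_lit 1589) (nat_lit 111) (.e (nat_lit 360475) (nat_lit 8) (.e (nat_lit 557087) (nat_lit 11) (.e (nat_lit 24640) (nat_lit 10) (.e (nat_lit 344126) (nat_lit 25) (.e (nat_lit 548872) (nat_lit 5) .nil)))))) (.g (nat_lit 5) .nil .nil)))) (.nd (nat_lit 6) 
(.lf (nat_lit 64054) (.g (nat_lit 1622) (.e (nat_lit 1589) (nat_lit 111) (.e (nat_lit 360475) (nat_lit 8) (.e (nat_lit 557085) (nat_lit 11) (.e (nat_lit 24653) (nat_lit 12) .nil)))) .nil)) 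
(.lf (nat_lit 64118) (.g (nat_lit 3422) (.e (nat_lit 1589) (nat_lit 111) (.e (nat_lit 360475) (nat_lit 8) (.e (nat_lit 557091) (nat_lit 12) (.e (nat_lit 164022) (nat_lit 46) (.e (nat_lit 704738) (nat_lit 11) (.e (nat_lit 16411) (nat_lit 2) (.e (nat_lit 196627) (nat_lit 9) .nil))))))) (.g (nat_lit 4) .nil .nil)))))) (.nd (nat_lit 4) (.nd (nat_lit 5) (.nd (nat_lit 6) 
(.lf (nat_lit 64014) (.g (nat_lit 3471) (.e (nat_lit 1589) (nat_lit 111) (.e (nat_lit 360473) (nat_lit 8) (.e (nat_lit 557090) (nat_lit 12) (.e (nat_lit 163844) (nat_lit 0) .nil)))) .nil)) 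
(.lf (nat_lit 64078) (.g (nat_lit 3941) (.e (nat_lit 1589) (nat_lit 111) (.e (nat_lit 360475) (nat_lit 8) (.e (nat_lit 557087) (nat_lit 11) (.e (nat_lit 24631) (nat_lit 9) (.e (nat_lit 335928) (nat_lit 0) (.e (nat_lit 1842) (nat_lit 123) (.e (nat_lit 548874) (nat_lit 5) .nil))))))) (.g (nat_lit 6) .nil .nil)))) (.nd (nat_lit 6) 
(.lf (nat_lit 64046) (.g (nat_lit 2236) (.e (nat_lit 1589) (nat_lit 111) (.e (nat_lit 360475) (nat_lit 8) (.e (nat_lit 557066) (nat_lit 9) (.e (nat_lit 314) (nat_lit 23) (.e (nat_lit 352303) (nat_lit 20) .nil))))) .nil)) 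
(.lf (nat_lit 64110) (.g (nat_lit 4532) (.e (nat_lit 1589) (nat_lit 111) (.e (nat_lit 360475) (nat_lit 8) (.e (nat_lit 557091) (nat_lit 12) (.e (nat_lit 164022) (nat_lit 46) (.e (nat_lit 704629) (nat_lit 9) (.e (nat_lit 442) (nat_lit 33) (.e (nat_lit 434222) (nat_lit 19) (.e (nat_lit 499969) (nat_lit 14) .nil)))))))) (.g (nat_lit 5) .nil .nil))))) (.nd (nat_lit 5) (.nd (nat_lit 6) 
(.lf (nat_lit 64030) (.g (nat_lit 1795) (.e (nat_lit 1589) (nat_lit 111) (.e (nat_lit 360473) (nat_lit 8) (.e (nat_lit 557119) (nat_lit 18) (.e (nat_lit 2798) (nat_lit 180) (.e (nat_lit 303133) (nat_lit 9) (.e (nat_lit 426042) (nat_lit 0) (.e (nat_lit 3578) (nat_lit 223) (.e (nat_lit 745475) (nat_lit 0) .nil)))))))) (.g (nat_lit 4) .nil .nil))) 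
(.lf (nat_lit 64094) (.g (nat_lit 2207) (.e (nat_lit 1589) (nat_lit 111) (.e (nat_lit 360475) (nat_lit 8) (.e (nat_lit 557089) (nat_lit 12) (.e (nat_lit 164000) (nat_lit 38) .nil)))) .nil))) (.nd (nat_lit 6) 
(.lf (nat_lit 64062) (.g (nat_lit 1881) (.e (nat_lit 1589) (nat_lit 111) (.e (nat_lit 360475) (nat_lit 8) (.e (nat_lit 557087) (nat_lit 11) (.e (nat_lit 24617) (nat_lit 7) .nil)))) .nil)) 
(.lf (nat_lit 64126) (.g (nat_lit 2653) (.e (nat_lit 1589) (nat_lit 111) (.e (nat_lit 360475) (nat_lit 8) (.e (nat_lit 557119) (nat_lit 18) (.e (nat_lit 2797) (nat_lit 180) (.e (nat_lit 303140) (nat_lit 10) .nil))))) .nil)))))))) (.nd (nat_lit 1) (.nd (nat_lit 2) (.nd (nat_lit 3) (.nd (nat_lit 4) (.nd (nat_lit 5) (.nd (nat_lit 6) 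
(.lf (nat_lit 64001) (.g (nat_lit 2785) (.e (nat_lit 1589) (nat_lit 111) (.e (nat_lit 360473) (nat_lit 8) (.e (nat_lit 557087) (nat_lit 11) (.e (nat_lit 24628) (nat_lit 9) (.e (nat_lit 335878) (nat_lit 0) .nil))))) .nil)) 
(.lf (nat_lit 64065) (.g (nat_lit 3708) (.e (nat_lit 1589) (nat_lit 111) (.e (nat_lit 360475) (nat_lit 8) (.e (nat_lit 557087) (nat_lit 11) (.e (nat_lit 24617) (nat_lit 7) (.e (nat_lit 319519) (nat_lit 12) (.e (nat_lit 32774) (nat_lit 5) .nil)))))) (.g (nat_lit 4) .nil .nil)))) (.nd (nat_lit 6) 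
(.lf (nat_lit 64033) (.g (nat_lit 2044) (.e (nat_lit 1589) (nat_lit 111) (.e (nat_lit 360474) (nat_lit 8) (.e (nat_lit 557070) (nat_lit 9) (.e (nat_lit 313) (nat_lit 23) .nil)))) .nil)) 
(.lf (nat_lit 64097) (.g (nat_lit 2435) (.e (nat_lit 1589) (nat_lit 111) (.e (nat_lit 360475) (nat_lit 8) (.e (nat_lit 557091) (nat_lit 12) (.e (nat_lit 163840) (nat_lit 0) .nil)))) .nil)))) (.nd (nat_lit 5) (.nd (nat_lit 6) 
(.lf (nat_lit 64017) (.g (nat_lit 4238) (.e (nat_lit 1589) (nat_lit 111) (.e (nat_lit 360473) (nat_lit 8) (.e (nat_lit 557090) (nat_lit 12) (.e (nat_lit 164020) (nat_lit 45) (.e (nat_lit 696344) (nat_lit 8) (.e (nat_lit 172064) (nat_lit 2) (.e (nat_lit 196617) (nat_lit 9) .nil))))))) (.g (nat_lit 4) .nil .nil))) 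
(.lf (nat_lit 64081) (.g (nat_lit 2861) (.e (nat_lit 1589) (nat_lit 111) (.e (nat_lit 360475) (nat_lit 8) (.e (nat_lit 557087) (nat_lit 11) (.e (nat_lit 24634) (nat_lit 9) (.e (nat_lit 335925) (nat_lit 0) .nil))))) .nil))) (.nd (nat_lit 6) 
(.lf (nat_lit 64049) (.g (nat_lit 1731) (.e (nat_lit 1589) (nat_lit 111) (.e (nat_lit 360475) (nat_lit 8) (.e (nat_lit 557068) (nat_lit 9) (.e (nat_lit 247) (nat_lit 21) .nil)))) .nil)) 
(.lf (nat_lit 64113) (.g (nat_lit 3274) (.e (nat_lit 1589) (nat_lit 111) (.e (nat_lit 360475) (nat_lit 8) (.e (nat_lit 557091) (nat_lit 12) (.e (nat_lit 164022) (nat_lit 46) (.e (nat_lit 704737) (nat_lit 11) (.e (nat_lit 16411) (nat_lit 2) (.e (nat_lit 196623) (nat_lit 9) .nil))))))) (.g (nat_lit 4) .nil .nil)))))) (.nd (nat_lit 4) (.nd (nat_lit 5) (.nd (nat_lit 6) 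
(.lf (nat_lit 64009) (.g (nat_lit 2523) (.e (nat_lit 1589) (nat_lit 111) (.e (nat_lit 360473) (nat_lit 8) (.e (nat_lit 557087) (nat_lit 11) (.e (nat_lit 24639) (nat_lit 10) (.e (nat_lit 344126) (nat_lit 25) (.e (nat_lit 548873) (nat_lit 5) .nil)))))) (.g (nat_lit 4) .nil .nil))) 
(.lf (nat_lit 64073) (.g (nat_lit 2928) (.e (nat_lit 1589) (nat_lit 111) (.e (nat_lit 360475) (nat_lit 8) (.e (nat_lit 557087) (nat_lit 11) (.e (nat_lit 24631) (nat_lit 9) (.e (nat_lit 335925) (nat_lit 0) .nil))))) .nil))) (.nd (nat_lit 6) 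
(.lf (nat_lit 64041) (.g (nat_lit 1776) (.e (nat_lit 1589) (nat_lit 111) (.e (nat_lit 360475) (nat_lit 8) (.e (nat_lit 557065) (nat_lit 9) (.e (nat_lit 321) (nat_lit 24) .nil)))) .nil)) 
(.lf (nat_lit 64105) (.g (nat_lit 2115) (.e (nat_lit 1589) (nat_lit 111) (.e (nat_lit 360475) (nat_lit 8) (.e (nat_lit 557091) (nat_lit 12) (.e (nat_lit 164022) (nat_lit 46) .nil)))) .nil)))) (.nd (nat_lit 5) (.nd (nat_lit 6) 
(.lf (nat_lit 64025) (.g (nat_lit 2362) (.e (nat_lit 1589) (nat_lit 111) (.e (nat_lit 360473) (nat_lit 8) (.e (nat_lit 557091) (nat_lit 12) (.e (nat_lit 164022) (nat_lit 46) (.e (nat_lit 704738) (nat_lit 11) (.e (nat_lit 16412) (nat_lit 2) (.e (nat_lit 196627) (nat_lit 9) .nil))))))) (.g (nat_lit 4) .nil .nil))) 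
(.lf (nat_lit 64089) (.g (nat_lit 2138) (.e (nat_lit 1589) (nat_lit 111) (.e (nat_lit 360475) (nat_lit 8) (.e (nat_lit 557087) (nat_lit 11) (.e (nat_lit 24647) (nat_lit 12) .nil)))) .nil))) (.nd (nat_lit 6) 
(.lf (nat_lit 64057) (.g (nat_lit 3698) (.e (nat_lit 1589) (nat_lit 111) (.e (nat_lit 360475) (nat_lit 8) (.e (nat_lit 557086) (nat_lit 11) (.e (nat_lit 24640) (nat_lit 10) (.e (nat_lit 344126) (nat_lit 25) (.e (nat_lit 548874) (nat_lit 5) .nil)))))) (.g (nat_lit 4) .nil .nil))) 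
(.lf (nat_lit 64121) (.g (nat_lit 2196) (.e (nat_lit 1589) (nat_lit 111) (.e (nat_lit 360475) (nat_lit 8) (.e (nat_lit 557091) (nat_lit 12) (.e (nat_lit 171776) (nat_lit 48) .nil)))) .nil)))))) (.nd (nat_lit 3) (.nd (nat_lit 4) (.nd (nat_lit 5) (.nd (nat_lit 6) 
(.lf (nat_lit 64005) (.g (nat_lit 2050) (.e (nat_lit 1589) (nat_lit 111) (.e (nat_lit 360473) (nat_lit 8) (.e (nat_lit 557087) (nat_lit 11) (.e (nat_lit 24631) (nat_lit 9) (.e (nat_lit 335928) (nat_lit 0) .nil))))) .nil)) 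
(.lf (nat_lit 64069) (.g (nat_lit 3545) (.e (nat_lit 1589) (nat_lit 111) (.e (nat_lit 360475) (nat_lit 8) (.e (nat_lit 557087) (nat_lit 11) (.e (nat_lit 24625) (nat_lit 9) (.e (nat_lit 336284) (nat_lit 15) .nil))))) .nil))) (.nd (nat_lit 6) 
(.lf (nat_lit 64037) (.g (nat_lit 763) (.e (nat_lit 1589) (nat_lit 111) (.e (nat_lit 360475) (nat_lit 8) (.e (nat_lit 557065) (nat_lit 9) .nil))) .nil)) 
(.lf (nat_lit 64101) (.g (nat_lit 2460) (.e (nat_lit 1589) (nat_lit 111) (.e (nat_lit 360475) (nat_lit 8) (.e (nat_lit 557091) (nat_lit 12) (.e (nat_lit 163844) (nat_lit 0) .nil)))) .nil)))) (.nd (nat_lit 5) (.nd (nat_lit 6) 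
(.lf (nat_lit 64021) (.g (nat_lit 1875) (.e (nat_lit 1589) (nat_lit 111) (.e (nat_lit 360473) (nat_lit 8) (.e (nat_lit 557091) (nat_lit 12) (.e (nat_lit 164022) (nat_lit 46) (.e (nat_lit 704737) (nat_lit 11) .nil))))) .nil)) 
(.lf (nat_lit 64085) (.g (nat_lit 2987) (.e (nat_lit 1589) (nat_lit 111) (.e (nat_lit 360475) (nat_lit 8) (.e (nat_lit 557087) (nat_lit 11) (.e (nat_lit 24639) (nat_lit 10) (.e (nat_lit 344126) (nat_lit 25) (.e (nat_lit 548873) (nat_lit 5) .nil)))))) (.g (nat_lit 5) .nil .nil)))) (.nd (nat_lit 6) 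
(.lf (nat_lit 64053) (.g (nat_lit 3711) (.e (nat_lit 1589) (nat_lit 111) (.e (nat_lit 360475) (nat_lit 8) (.e (nat_lit 557085) (nat_lit 11) (.e (nat_lit 24640) (nat_lit 10) (.e (nat_lit 344126) (nat_lit 25) (.e (nat_lit 548874) (nat_lit 5) .nil)))))) (.g (nat_lit 4) .nil .nil))) 
(.lf (nat_lit 64117) (.g (nat_lit 3772) (.e (nat_lit 1589) (nat_lit 111) (.e (nat_lit 360475) (nat_lit 8) (.e (nat_lit 557091) (nat_lit 12) (.e (nat_lit 164022) (nat_lit 46) (.e (nat_lit 704738) (nat_lit 11) (.e (nat_lit 16411) (nat_lit 2) (.e (nat_lit 196623) (nat_lit 9) .nil))))))) (.g (nat_lit 5) .nil .nil)))))) (.nd (nat_lit 4) (.nd (nat_lit 5) (.nd (nat_lit 6) 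
(.lf (nat_lit 64013) (.g (nat_lit 3439) (.e (nat_lit 1589) (nat_lit 111) (.e (nat_lit 360473) (nat_lit 8) (.e (nat_lit 557090) (nat_lit 12) (.e (nat_lit 163843) (nat_lit 0) .nil)))) .nil)) 
(.lf (nat_lit 64077) (.g (nat_lit 3405) (.e (nat_lit 1589) (nat_lit 111) (.e (nat_lit 360475) (nat_lit 8) (.e (nat_lit 557087) (nat_lit 11) (.e (nat_lit 24631) (nat_lit 9) (.e (nat_lit 335928) (nat_lit 0) (.e (nat_lit 1841) (nat_lit 123) (.e (nat_lit 548874) (nat_lit 5) .nil))))))) (.g (nat_lit 5) .nil .nil)))) (.nd (nat_lit 6) 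
(.lf (nat_lit 64045) (.g (nat_lit 2174) (.e (nat_lit 1589) (nat_lit 111) (.e (nat_lit 360475) (nat_lit 8) (.e (nat_lit 557066) (nat_lit 9) (.e (nat_lit 314) (nat_lit 23) (.e (nat_lit 352297) (nat_lit 20) (.e (nat_lit 1842) (nat_lit 123) (.e (nat_lit 548873) (nat_lit 5) .nil))))))) (.g (nat_lit 4) .nil .nil))) 
(.lf (nat_lit 64109) (.g (nat_lit 3824) (.e (nat_lit 1589) (nat_lit 111) (.e (nat_lit 360475) (nat_lit 8) (.e (nat_lit 557091) (nat_lit 12) (.e (nat_lit 164022) (nat_lit 46) (.e (nat_lit 704629) (nat_lit 9) (.e (nat_lit 442) (nat_lit 33) (.e (nat_lit 434222) (nat_lit 19) (.e (nat_lit 499968) (nat_lit 14) .nil)))))))) (.g (nat_lit 4) .nil .nil))))) (.nd (nat_lit 5) (.nd (nat_lit 6) 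
(.lf (nat_lit 64029) (.g (nat_lit 2006) (.e (nat_lit 1589) (nat_lit 111) (.e (nat_lit 360473) (nat_lit 8) (.e (nat_lit 557119) (nat_lit 18) (.e (nat_lit 2798) (nat_lit 180) (.e (nat_lit 303133) (nat_lit 9) (.e (nat_lit 426034) (nat_lit 0) (.e (nat_lit 3579) (nat_lit 223) (.e (nat_lit 745475) (nat_lit 0) .nil)))))))) (.g (nat_lit 4) .nil .nil))) 
(.lf (nat_lit 64093) (.g (nat_lit 2993) (.e (nat_lit 1589) (nat_lit 111) (.e (nat_lit 360475) (nat_lit 8) (.e (nat_lit 557089) (nat_lit 12) (.e (nat_lit 163844) (nat_lit 0) (.e (nat_lit 6068) (nat_lit 328) (.e (nat_lit 57421) (nat_lit 13) (.e (nat_lit 344126) (nat_lit 25) (.e (nat_lit 548874) (nat_lit 5) .nil)))))))) (.g (nat_lit 4) .nil .nil)))) (.nd (nat_lit 6) 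
(.lf (nat_lit 64061) (.g (nat_lit 3077) (.e (nat_lit 1589) (nat_lit 111) (.e (nat_lit 360475) (nat_lit 8) (.e (nat_lit 557087) (nat_lit 11) (.e (nat_lit 24616) (nat_lit 7) (.e (nat_lit 319519) (nat_lit 12) (.e (nat_lit 32774) (nat_lit 5) .nil)))))) (.g (nat_lit 6) .nil .nil))) 
(.lf (nat_lit 64125) (.g (nat_lit 1848) (.e (nat_lit 1589) (nat_lit 111) (.e (nat_lit 360475) (nat_lit 8) (.e (nat_lit 557119) (nat_lit 18) (.e (nat_lit 2797) (nat_lit 180) .nil)))) .nil))))))) (.nd (nat_lit 2) (.nd (nat_lit 3) (.nd (nat_lit 4) (.nd (nat_lit 5) (.nd (nat_lit 6) 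
(.lf (nat_lit 64003) (.g (nat_lit 2309) (.e (nat_lit 1589) (nat_lit 111) (.e (nat_lit 360473) (nat_lit 8) (.e (nat_lit 557087) (nat_lit 11) (.e (nat_lit 24631) (nat_lit 9) (.e (nat_lit 335886) (nat_lit 0) .nil))))) .nil)) 
(.lf (nat_lit 64067) (.g (nat_lit 2110) (.e (nat_lit 1589) (nat_lit 111) (.e (nat_lit 360475) (nat_lit 8) (.e (nat_lit 557087) (nat_lit 11) (.e (nat_lit 24625) (nat_lit 9) .nil)))) .nil))) (.nd (nat_lit 6) 
(.lf (nat_lit 64035) (.g (nat_lit 1114) (.e (nat_lit 1589) (nat_lit 111) (.e (nat_lit 360474) (nat_lit 8) (.e (nat_lit 557118) (nat_lit 18) (.e (nat_lit 2808) (nat_lit 180) .nil)))) .nil)) 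
(.lf (nat_lit 64099) (.g (nat_lit 2269) (.e (nat_lit 1589) (nat_lit 111) (.e (nat_lit 360475) (nat_lit 8) (.e (nat_lit 557091) (nat_lit 12) (.e (nat_lit 163843) (nat_lit 0) .nil)))) .nil)))) (.nd (nat_lit 5) (.nd (nat_lit 6) 
(.lf (nat_lit 64019) (.g (nat_lit 3714) (.e (nat_lit 1589) (nat_lit 111) (.e (nat_lit 360473) (nat_lit 8) (.e (nat_lit 557090) (nat_lit 12) (.e (nat_lit 164022) (nat_lit 46) .nil)))) .nil)) 
(.lf (nat_lit 64083) (.g (nat_lit 1679) (.e (nat_lit 1589) (nat_lit 111) (.e (nat_lit 360475) (nat_lit 8) (.e (nat_lit 557087) (nat_lit 11) (.e (nat_lit 24638) (nat_lit 9) .nil)))) .nil))) (.nd (nat_lit 6) 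
(.lf (nat_lit 64051) (.g (nat_lit 1032) (.e (nat_lit 1589) (nat_lit 111) (.e (nat_lit 360475) (nat_lit 8) (.e (nat_lit 557074) (nat_lit 9) .nil))) .nil)) 
(.lf (nat_lit 64115) (.g (nat_lit 3174) (.e (nat_lit 1589) (nat_lit 111) (.e (nat_lit 360475) (nat_lit 8) (.e (nat_lit 557091) (nat_lit 12) (.e (nat_lit 164022) (nat_lit 46) (.e (nat_lit 704738) (nat_lit 11) (.e (nat_lit 16392) (nat_lit 0) (.e (nat_lit 3167) (nat_lit 193) (.e (nat_lit 499967) (nat_lit 14) .nil)))))))) (.g (nat_lit 4) .nil .nil)))))) 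
(.nd (nat_lit 4) (.nd (nat_lit 5) (.nd (nat_lit 6) 
(.lf (nat_lit 64011) (.g (nat_lit 2899) (.e (nat_lit 1589) (nat_lit 111) (.e (nat_lit 360473) (nat_lit 8) (.e (nat_lit 557087) (nat_lit 11) (.e (nat_lit 24641) (nat_lit 10) (.e (nat_lit 344126) (nat_lit 25) (.e (nat_lit 548873) (nat_lit 5) .nil)))))) (.g (nat_lit 4) .nil .nil))) 
(.lf (nat_lit 64075) (.g (nat_lit 2657) (.e (nat_lit 1589) (nat_lit 111) (.e (nat_lit 360475) (nat_lit 8) (.e (nat_lit 557087) (nat_lit 11) (.e (nat_lit 24631) (nat_lit 9) (.e (nat_lit 335928) (nat_lit 0) .nil))))) .nil))) (.nd (nat_lit 6) 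
(.lf (nat_lit 64043) (.g (nat_lit 1428) (.e (nat_lit 1589) (nat_lit 111) (.e (nat_lit 360475) (nat_lit 8) (.e (nat_lit 557066) (nat_lit 9) (.e (nat_lit 310) (nat_lit 23) .nil)))) .nil)) 
(.lf (nat_lit 64107) (.g (nat_lit 3534) (.e (nat_lit 1589) (nat_lit 111) (.e (nat_lit 360475) (nat_lit 8) (.e (nat_lit 557091) (nat_lit 12) (.e (nat_lit 164022) (nat_lit 46) (.e (nat_lit 704629) (nat_lit 9) (.e (nat_lit 442) (nat_lit 33) (.e (nat_lit 434217) (nat_lit 19) (.e (nat_lit 499969) (nat_lit 14) .nil)))))))) (.g (nat_lit 4) .nil .nil))))) (.nd (nat_lit 5) (.nd (nat_lit 6) 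
(.lf (nat_lit 64027) (.g (nat_lit 1633) (.e (nat_lit 1589) (nat_lit 111) (.e (nat_lit 360473) (nat_lit 8) (.e (nat_lit 557119) (nat_lit 18) (.e (nat_lit 2798) (nat_lit 180) (.e (nat_lit 303133) (nat_lit 9) .nil))))) .nil)) 
(.lf (nat_lit 64091) (.g (nat_lit 2176) (.e (nat_lit 1589) (nat_lit 111) (.e (nat_lit 360475) (nat_lit 8) (.e (nat_lit 557089) (nat_lit 12) (.e (nat_lit 163844) (nat_lit 0) .nil)))) .nil))) (.nd (nat_lit 6) 
(.lf (nat_lit 64059) (.g (nat_lit 1700) (.e (nat_lit 1589) (nat_lit 111) (.e (nat_lit 360475) (nat_lit 8) (.e (nat_lit 557086) (nat_lit 11) (.e (nat_lit 24664) (nat_lit 14) .nil)))) .nil)) 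
(.lf (nat_lit 64123) (.g (nat_lit 1953) (.e (nat_lit 1589) (nat_lit 111) (.e (nat_lit 360475) (nat_lit 8) (.e (nat_lit 557119) (nat_lit 18) (.e (nat_lit 2449) (nat_lit 157) .nil)))) .nil)))))) (.nd (nat_lit 3) (.nd (nat_lit 4) (.nd (nat_lit 5) (.nd (nat_lit 6) 
(.lf (nat_lit 64007) (.g (nat_lit 2485) (.e (nat_lit 1589) (nat_lit 111) (.e (nat_lit 360473) (nat_lit 8) (.e (nat_lit 557087) (nat_lit 11) (.e (nat_lit 24634) (nat_lit 9) (.e (nat_lit 335925) (nat_lit 0) .nil))))) .nil)) 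
(.lf (nat_lit 64071) (.g (nat_lit 1695) (.e (nat_lit 1589) (nat_lit 111) (.e (nat_lit 360475) (nat_lit 8) (.e (nat_lit 557087) (nat_lit 11) (.e (nat_lit 24631) (nat_lit 9) .nil)))) .nil))) (.nd (nat_lit 6) 
(.lf (nat_lit 64039) (.g (nat_lit 1830) (.e (nat_lit 1589) (nat_lit 111) (.e (nat_lit 360475) (nat_lit 8) (.e (nat_lit 557065) (nat_lit 9) (.e (nat_lit 314) (nat_lit 23) .nil)))) .nil)) 
(.lf (nat_lit 64103) (.g (nat_lit 4298) (.e (nat_lit 1589) (nat_lit 111) (.e (nat_lit 360475) (nat_lit 8) (.e (nat_lit 557091) (nat_lit 12) (.e (nat_lit 163999) (nat_lit 38) (.e (nat_lit 639020) (nat_lit 16) (.e (nat_lit 65580) (nat_lit 6) (.e (nat_lit 155392) (nat_lit 0) .nil))))))) (.g (nat_lit 5) .nil .nil))))) (.nd (nat_lit 5) (.nd (nat_lit 6) 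
(.lf (nat_lit 64023) (.g (nat_lit 2160) (.e (nat_lit 1589) (nat_lit 111) (.e (nat_lit 360473) (nat_lit 8) (.e (nat_lit 557091) (nat_lit 12) (.e (nat_lit 164022) (nat_lit 46) (.e (nat_lit 704738) (nat_lit 11) (.e (nat_lit 16411) (nat_lit 2) (.e (nat_lit 196623) (nat_lit 9) .nil))))))) (.g (nat_lit 4) .nil .nil))) 
(.lf (nat_lit 64087) (.g (nat_lit 3390) (.e (nat_lit 1589) (nat_lit 111) (.e (nat_lit 360475) (nat_lit 8) (.e (nat_lit 557087) (nat_lit 11) (.e (nat_lit 24640) (nat_lit 10) (.e (nat_lit 344126) (nat_lit 25) (.e (nat_lit 548873) (nat_lit 5) .nil)))))) (.g (nat_lit 5) .nil .nil)))) (.nd (nat_lit 6) 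
(.lf (nat_lit 64055) (.g (nat_lit 501) (.e (nat_lit 1589) (nat_lit 111) (.e (nat_lit 360475) (nat_lit 8) (.e (nat_lit 557086) (nat_lit 11) .nil))) .nil)) 
(.lf (nat_lit 64119) (.g (nat_lit 4171) (.e (nat_lit 1589) (nat_lit 111) (.e (nat_lit 360475) (nat_lit 8) (.e (nat_lit 557091) (nat_lit 12) (.e (nat_lit 164022) (nat_lit 46) (.e (nat_lit 704738) (nat_lit 11) (.e (nat_lit 16412) (nat_lit 2) (.e (nat_lit 196627) (nat_lit 9) .nil))))))) (.g (nat_lit 5) .nil .nil)))))) (.nd (nat_lit 4) (.nd (nat_lit 5) (.nd (nat_lit 6) 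
(.lf (nat_lit 64015) (.g (nat_lit 2532) (.e (nat_lit 1589) (nat_lit 111) (.e (nat_lit 360473) (nat_lit 8) (.e (nat_lit 557090) (nat_lit 12) (.e (nat_lit 164020) (nat_lit 45) .nil)))) .nil)) 
(.lf (nat_lit 64079) (.g (nat_lit 2263) (.e (nat_lit 1589) (nat_lit 111) (.e (nat_lit 360475) (nat_lit 8) (.e (nat_lit 557087) (nat_lit 11) (.e (nat_lit 24632) (nat_lit 9) .nil)))) .nil))) (.nd (nat_lit 6) 
(.lf (nat_lit 64047) (.g (nat_lit 1075) (.e (nat_lit 1589) (nat_lit 111) (.e (nat_lit 360475) (nat_lit 8) (.e (nat_lit 557067) (nat_lit 9) .nil))) .nil)) 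
(.lf (nat_lit 64111) (.g (nat_lit 2736) (.e (nat_lit 1589) (nat_lit 111) (.e (nat_lit 360475) (nat_lit 8) (.e (nat_lit 557091) (nat_lit 12) (.e (nat_lit 164022) (nat_lit 46) (.e (nat_lit 704736) (nat_lit 11) .nil))))) .nil)))) (.nd (nat_lit 5) (.nd (nat_lit 6) 
(.lf (nat_lit 64031) (.g (nat_lit 1877) (.e (nat_lit 1589) (nat_lit 111) (.e (nat_lit 360473) (nat_lit 8) (.e (nat_lit 557119) (nat_lit 18) (.e (nat_lit 2798) (nat_lit 180) (.e (nat_lit 303139) (nat_lit 10) .nil))))) .nil)) 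
(.lf (nat_lit 64095) (.g (nat_lit 4942) (.e (nat_lit 1589) (nat_lit 111) (.e (nat_lit 360475) (nat_lit 8) (.e (nat_lit 557090) (nat_lit 12) (.e (nat_lit 164020) (nat_lit 45) (.e (nat_lit 696344) (nat_lit 8) (.e (nat_lit 172138) (nat_lit 15) (.e (nat_lit 7936) (nat_lit 126) (.e (nat_lit 573449) (nat_lit 9) .nil)))))))) (.g (nat_lit 4) .nil .nil)))) (.nd (nat_lit 6) 
(.lf (nat_lit 64063) (.g (nat_lit 4673) (.e (nat_lit 1589) (nat_lit 111) (.e (nat_lit 360475) (nat_lit 8) (.e (nat_lit 557087) (nat_lit 11) (.e (nat_lit 24617) (nat_lit 7) (.e (nat_lit 319517) (nat_lit 12) (.e (nat_lit 32774) (nat_lit 5) .nil)))))) (.g (nat_lit 4) .nil .nil))) 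
(.lf (nat_lit 64127) (.g (nat_lit 1686) (.e (nat_lit 1589) (nat_lit 111) (.e (nat_lit 360475) (nat_lit 8) (.e (nat_lit 557119) (nat_lit 18) (.e (nat_lit 2798) (nat_lit 180) .nil)))) .nil)))))))))

noncomputable def tv879 : DT := (.nd (nat_lit 0) (.nd (nat_lit 1) (.nd (nat_lit 2) (.nd (nat_lit 3) (.nd (nat_lit 4) (.nd (nat_lit 5) 
(.lf (nat_lit 64128) (.g (nat_lit 2306) (.e (nat_lit 1589) (nat_lit 111) (.e (nat_lit 360475) (nat_lit 8) (.e (nat_lit 557119) (nat_lit 18) (.e (nat_lit 2798) (nat_lit 180) (.e (nat_lit 303133) (nat_lit 9) .nil))))) .nil)) 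
(.lf (nat_lit 64160) (.g (nat_lit 1071) (.e (nat_lit 1589) (nat_lit 111) (.e (nat_lit 360479) (nat_lit 13) (.e (nat_lit 630802) (nat_lit 8) (.e (nat_lit 172115) (nat_lit 10) (.e (nat_lit 434269) (nat_lit 36) (.e (nat_lit 639008) (nat_lit 13) .nil)))))) (.g (nat_lit 4) .nil .nil)))) (.nd (nat_lit 5) 
(.lf (nat_lit 64144) (.g (nat_lit 1986) (.e (nat_lit 1589) (nat_lit 111) (.e (nat_lit 360477) (nat_lit 11) (.e (nat_lit 581651) (nat_lit 4) (.e (nat_lit 172106) (nat_lit 10) (.e (nat_lit 434295) (nat_lit 49) (.e (nat_lit 745475) (nat_lit 0) .nil)))))) (.g (nat_lit 5) .nil .nil))) 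
(.lf (nat_lit 64176) (.g (nat_lit 1397) (.e (nat_lit 1589) (nat_lit 111) (.e (nat_lit 360480) (nat_lit 14) (.e (nat_lit 639001) (nat_lit 10) (.e (nat_lit 188434) (nat_lit 20) (.e (nat_lit 3390) (nat_lit 210) (.e (nat_lit 639007) (nat_lit 13) .nil)))))) (.g (nat_lit 0) .nil .nil))))) (.nd (nat_lit 4) (.nd (nat_lit 5) 
(.lf (nat_lit 64136) (.g (nat_lit 2022) (.e (nat_lit 1589) (nat_lit 111) (.e (nat_lit 360475) (nat_lit 8) (.e (nat_lit 557119) (nat_lit 18) (.e (nat_lit 2804) (nat_lit 180) .nil)))) .nil)) 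
(.lf (nat_lit 64168) (.g (nat_lit 1493) (.e (nat_lit 1589) (nat_lit 111) (.e (nat_lit 360480) (nat_lit 14) (.e (nat_lit 638998) (nat_lit 8) (.e (nat_lit 172112) (nat_lit 10) (.e (nat_lit 434269) (nat_lit 36) (.e (nat_lit 639008) (nat_lit 13) .nil)))))) (.g (nat_lit 5) .nil .nil)))) (.nd (nat_lit 5) 
(.lf (nat_lit 64152) (.g (nat_lit 1513) (.e (nat_lit 1589) (nat_lit 111) (.e (nat_lit 360477) (nat_lit 11) (.e (nat_lit 581653) (nat_lit 6) (.e (nat_lit 188434) (nat_lit 20) (.e (nat_lit 3577) (nat_lit 223) .nil))))) .nil)) 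
(.lf (nat_lit 64184) (.g (nat_lit 3008) (.e (nat_lit 1589) (nat_lit 111) (.e (nat_lit 360484) (nat_lit 15) (.e (nat_lit 647199) (nat_lit 11) (.e (nat_lit 16448) (nat_lit 10) (.e (nat_lit 434268) (nat_lit 36) (.e (nat_lit 639007) (nat_lit 13) .nil)))))) (.g (nat_lit 5) .nil .nil)))))) (.nd (nat_lit 3) (.nd (nat_lit 4) (.nd (nat_lit 5) 
(.lf (nat_lit 64132) (.g (nat_lit 2875) (.e (nat_lit 1589) (nat_lit 111) (.e (nat_lit 360475) (nat_lit 8) (.e (nat_lit 557119) (nat_lit 18) (.e (nat_lit 2798) (nat_lit 180) (.e (nat_lit 303133) (nat_lit 9) (.e (nat_lit 426048) (nat_lit 0) (.e (nat_lit 3578) (nat_lit 223) (.e (nat_lit 745475) (nat_lit 0) .nil)))))))) (.g (nat_lit 4) .nil .nil))) 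
(.lf (nat_lit 64164) (.g (nat_lit 1957) (.e (nat_lit 1589) (nat_lit 111) (.e (nat_lit 360480) (nat_lit 14) (.e (nat_lit 638998) (nat_lit 8) (.e (nat_lit 172106) (nat_lit 10) (.e (nat_lit 434269) (nat_lit 36) (.e (nat_lit 639008) (nat_lit 13) .nil)))))) (.g (nat_lit 6) .nil .nil)))) (.nd (nat_lit 5) 
(.lf (nat_lit 64148) (.g (nat_lit 1815) (.e (nat_lit 1589) (nat_lit 111) (.e (nat_lit 360477) (nat_lit 11) (.e (nat_lit 581651) (nat_lit 4) (.e (nat_lit 172113) (nat_lit 10) (.e (nat_lit 434295) (nat_lit 49) (.e (nat_lit 745475) (nat_lit 0) .nil)))))) (.g (nat_lit 4) .nil .nil))) 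
(.lf (nat_lit 64180) (.g (nat_lit 2330) (.e (nat_lit 1589) (nat_lit 111) (.e (nat_lit 360482) (nat_lit 15) (.e (nat_lit 647199) (nat_lit 11) (.e (nat_lit 16449) (nat_lit 10) (.e (nat_lit 434269) (nat_lit 36) (.e (nat_lit 639008) (nat_lit 13) .nil)))))) (.g (nat_lit 5) .nil .nil))))) (.nd (nat_lit 4) (.nd (nat_lit 5) 
(.lf (nat_lit 64140) (.g (nat_lit 1674) (.e (nat_lit 1589) (nat_lit 111) (.e (nat_lit 360475) (nat_lit 8) (.e (nat_lit 557119) (nat_lit 18) (.e (nat_lit 2808) (nat_lit 180) .nil)))) .nil)) 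
(.lf (nat_lit 64172) (.g (nat_lit 2017) (.e (nat_lit 1589) (nat_lit 111) (.e (nat_lit 360480) (nat_lit 14) (.e (nat_lit 638998) (nat_lit 8) (.e (nat_lit 172115) (nat_lit 10) (.e (nat_lit 434269) (nat_lit 36) (.e (nat_lit 639008) (nat_lit 13) .nil)))))) (.g (nat_lit 5) .nil .nil)))) (.nd (nat_lit 5) 
(.lf (nat_lit 64156) (.g (nat_lit 1142) (.e (nat_lit 1589) (nat_lit 111) (.e (nat_lit 360479) (nat_lit 13) (.e (nat_lit 630801) (nat_lit 8) (.e (nat_lit 172112) (nat_lit 10) (.e (nat_lit 434269) (nat_lit 36) (.e (nat_lit 639007) (nat_lit 13) .nil)))))) (.g (nat_lit 0) .nil .nil))) 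
(.lf (nat_lit 64188) (.g (nat_lit 2839) (.e (nat_lit 1589) (nat_lit 111) (.e (nat_lit 360486) (nat_lit 18) (.e (nat_lit 671748) (nat_lit 0) (.e (nat_lit 1586) (nat_lit 111) (.e (nat_lit 360486) (nat_lit 18) (.e (nat_lit 671748) (nat_lit 0) .nil)))))) (.g (nat_lit 0) .nil .nil))))))) (.nd (nat_lit 2) (.nd (nat_lit 3) (.nd (nat_lit 4) (.nd (nat_lit 5) 
(.lf (nat_lit 64130) (.g (nat_lit 2807) (.e (nat_lit 1589) (nat_lit 111) (.e (nat_lit 360475) (nat_lit 8) (.e (nat_lit 557119) (nat_lit 18) (.e (nat_lit 2798) (nat_lit 180) (.e (nat_lit 303133) (nat_lit 9) (.e (nat_lit 426034) (nat_lit 0) (.e (nat_lit 3579) (nat_lit 223) (.e (nat_lit 745475) (nat_lit 0) .nil)))))))) (.g (nat_lit 4) .nil .nil))) 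
(.lf (nat_lit 64162) (.g (nat_lit 1563) (.e (nat_lit 1589) (nat_lit 111) (.e (nat_lit 360480) (nat_lit 14) (.e (nat_lit 638997) (nat_lit 8) (.e (nat_lit 172115) (nat_lit 10) (.e (nat_lit 434269) (nat_lit 36) (.e (nat_lit 639008) (nat_lit 13) .nil)))))) (.g (nat_lit 6) .nil .nil)))) (.nd (nat_lit 5) 
(.lf (nat_lit 64146) (.g (nat_lit 1539) (.e (nat_lit 1589) (nat_lit 111) (.e (nat_lit 360477) (nat_lit 11) (.e (nat_lit 581651) (nat_lit 4) (.e (nat_lit 172112) (nat_lit 10) (.e (nat_lit 434295) (nat_lit 49) (.e (nat_lit 745475) (nat_lit 0) .nil)))))) (.g (nat_lit 5) .nil .nil))) 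
(.lf (nat_lit 64178) (.g (nat_lit 3468) (.e (nat_lit 1589) (nat_lit 111) (.e (nat_lit 360482) (nat_lit 15) (.e (nat_lit 647199) (nat_lit 11) (.e (nat_lit 16448) (nat_lit 10) (.e (nat_lit 434268) (nat_lit 36) (.e (nat_lit 639005) (nat_lit 13) .nil)))))) (.g (nat_lit 5) .nil .nil))))) (.nd (nat_lit 4) (.nd (nat_lit 5) 
(.lf (nat_lit 64138) (.g (nat_lit 2027) (.e (nat_lit 1589) (nat_lit 111) (.e (nat_lit 360475) (nat_lit 8) (.e (nat_lit 557119) (nat_lit 18) (.e (nat_lit 2807) (nat_lit 180) (.e (nat_lit 303137) (nat_lit 10) .nil))))) .nil)) 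
(.lf (nat_lit 64170) (.g (nat_lit 1745) (.e (nat_lit 1589) (nat_lit 111) (.e (nat_lit 360480) (nat_lit 14) (.e (nat_lit 638998) (nat_lit 8) (.e (nat_lit 172113) (nat_lit 10) (.e (nat_lit 434269) (nat_lit 36) (.e (nat_lit 639008) (nat_lit 13) .nil)))))) (.g (nat_lit 4) .nil .nil)))) (.nd (nat_lit 5) 
(.lf (nat_lit 64154) (.g (nat_lit 2605) (.e (nat_lit 1589) (nat_lit 111) (.e (nat_lit 360477) (nat_lit 11) (.e (nat_lit 581653) (nat_lit 6) (.e (nat_lit 188440) (nat_lit 20) (.e (nat_lit 3579) (nat_lit 223) (.e (nat_lit 745475) (nat_lit 0) .nil)))))) (.g (nat_lit 0) .nil .nil))) 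
(.lf (nat_lit 64186) (.g (nat_lit 1563) (.e (nat_lit 1589) (nat_lit 111) (.e (nat_lit 360484) (nat_lit 15) (.e (nat_lit 647199) (nat_lit 11) (.e (nat_lit 16449) (nat_lit 10) (.e (nat_lit 434269) (nat_lit 36) (.e (nat_lit 639008) (nat_lit 13) .nil)))))) (.g (nat_lit 4) .nil .nil)))))) (.nd (nat_lit 3) (.nd (nat_lit 4) (.nd (nat_lit 5) 
(.lf (nat_lit 64134) (.g (nat_lit 3113) (.e (nat_lit 1589) (nat_lit 111) (.e (nat_lit 360475) (nat_lit 8) (.e (nat_lit 557119) (nat_lit 18) (.e (nat_lit 2798) (nat_lit 180) (.e (nat_lit 303139) (nat_lit 10) (.e (nat_lit 434295) (nat_lit 49) (.e (nat_lit 745476) (nat_lit 0) .nil))))))) (.g (nat_lit 4) .nil .nil))) 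
(.lf (nat_lit 64166) (.g (nat_lit 1306) (.e (nat_lit 1589) (nat_lit 111) (.e (nat_lit 360480) (nat_lit 14) (.e (nat_lit 638998) (nat_lit 8) (.e (nat_lit 172107) (nat_lit 10) (.e (nat_lit 434269) (nat_lit 36) (.e (nat_lit 639008) (nat_lit 13) .nil)))))) (.g (nat_lit 4) .nil .nil)))) (.nd (nat_lit 5) 
(.lf (nat_lit 64150) (.g (nat_lit 1906) (.e (nat_lit 1589) (nat_lit 111) (.e (nat_lit 360477) (nat_lit 11) (.e (nat_lit 581651) (nat_lit 4) (.e (nat_lit 172115) (nat_lit 10) (.e (nat_lit 434295) (nat_lit 49) (.e (nat_lit 745475) (nat_lit 0) .nil)))))) (.g (nat_lit 5) .nil .nil))) 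
(.lf (nat_lit 64182) (.g (nat_lit 1322) (.e (nat_lit 1589) (nat_lit 111) (.e (nat_lit 360483) (nat_lit 15) (.e (nat_lit 647199) (nat_lit 11) (.e (nat_lit 16449) (nat_lit 10) (.e (nat_lit 434269) (nat_lit 36) (.e (nat_lit 639007) (nat_lit 13) .nil)))))) (.g (nat_lit 4) .nil .nil))))) (.nd (nat_lit 4) (.nd (nat_lit 5) 
(.lf (nat_lit 64142) (.g (nat_lit 1386) (.e (nat_lit 1589) (nat_lit 111) (.e (nat_lit 360477) (nat_lit 11) (.e (nat_lit 581636) (nat_lit 0) (.e (nat_lit 3021) (nat_lit 187) (.e (nat_lit 450605) (nat_lit 27) (.e (nat_lit 745475) (nat_lit 0) .nil)))))) (.g (nat_lit 0) .nil .nil))) 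
(.lf (nat_lit 64174) (.g (nat_lit 1598) (.e (nat_lit 1589) (nat_lit 111) (.e (nat_lit 360480) (nat_lit 14) (.e (nat_lit 638998) (nat_lit 8) (.e (nat_lit 172116) (nat_lit 10) (.e (nat_lit 434269) (nat_lit 36) (.e (nat_lit 639008) (nat_lit 13) .nil)))))) (.g (nat_lit 5) .nil .nil)))) (.nd (nat_lit 5) 
(.lf (nat_lit 64158) (.g (nat_lit 1518) (.e (nat_lit 1589) (nat_lit 111) (.e (nat_lit 360479) (nat_lit 13) (.e (nat_lit 630801) (nat_lit 8) (.e (nat_lit 172113) (nat_lit 10) (.e (nat_lit 434269) (nat_lit 36) (.e (nat_lit 639007) (nat_lit 13) .nil)))))) (.g (nat_lit 6) .nil .nil))) 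
(.lf (nat_lit 64190) (.g (nat_lit 2146) (.e (nat_lit 1589) (nat_lit 111) (.e (nat_lit 360486) (nat_lit 18) (.e (nat_lit 671762) (nat_lit 4) (.e (nat_lit 65610) (nat_lit 10) (.e (nat_lit 344169) (nat_lit 40) (.e (nat_lit 671747) (nat_lit 0) .nil)))))) (.g (nat_lit 4) .nil .nil)))))))) (.nd (nat_lit 1) (.nd (nat_lit 2) (.nd (nat_lit 3) (.nd (nat_lit 4) (.nd (nat_lit 5) 
(.lf (nat_lit 64129) (.g (nat_lit 3400) (.e (nat_lit 1589) (nat_lit 111) (.e (nat_lit 360475) (nat_lit 8) (.e (nat_lit 557119) (nat_lit 18) (.e (nat_lit 2798) (nat_lit 180) (.e (nat_lit 303133) (nat_lit 9) (.e (nat_lit 426033) (nat_lit 0) (.e (nat_lit 3579) (nat_lit 223) (.e (nat_lit 745475) (nat_lit 0) .nil)))))))) (.g (nat_lit 5) .nil .nil))) 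
(.lf (nat_lit 64161) (.g (nat_lit 1504) (.e (nat_lit 1589) (nat_lit 111) (.e (nat_lit 360480) (nat_lit 14) (.e (nat_lit 638997) (nat_lit 8) (.e (nat_lit 172115) (nat_lit 10) (.e (nat_lit 434269) (nat_lit 36) (.e (nat_lit 639007) (nat_lit 13) .nil)))))) (.g (nat_lit 5) .nil .nil)))) (.nd (nat_lit 5) 
(.lf (nat_lit 64145) (.g (nat_lit 1588) (.e (nat_lit 1589) (nat_lit 111) (.e (nat_lit 360477) (nat_lit 11) (.e (nat_lit 581651) (nat_lit 4) (.e (nat_lit 172107) (nat_lit 10) (.e (nat_lit 434295) (nat_lit 49) (.e (nat_lit 745475) (nat_lit 0) .nil)))))) (.g (nat_lit 5) .nil .nil))) 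
(.lf (nat_lit 64177) (.g (nat_lit 980) (.e (nat_lit 1589) (nat_lit 111) (.e (nat_lit 360480) (nat_lit 14) (.e (nat_lit 639001) (nat_lit 10) (.e (nat_lit 188438) (nat_lit 20) (.e (nat_lit 3390) (nat_lit 210) (.e (nat_lit 639007) (nat_lit 13) .nil)))))) (.g (nat_lit 0) .nil .nil))))) (.nd (nat_lit 4) (.nd (nat_lit 5) 
(.lf (nat_lit 64137) (.g (nat_lit 1503) (.e (nat_lit 1589) (nat_lit 111) (.e (nat_lit 360475) (nat_lit 8) (.e (nat_lit 557119) (nat_lit 18) (.e (nat_lit 2807) (nat_lit 180) .nil)))) .nil)) 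
(.lf (nat_lit 64169) (.g (nat_lit 1727) (.e (nat_lit 1589) (nat_lit 111) (.e (nat_lit 360480) (nat_lit 14) (.e (nat_lit 638998) (nat_lit 8) (.e (nat_lit 172113) (nat_lit 10) (.e (nat_lit 434269) (nat_lit 36) (.e (nat_lit 639007) (nat_lit 13) .nil)))))) (.g (nat_lit 4) .nil .nil)))) (.nd (nat_lit 5) 
(.lf (nat_lit 64153) (.g (nat_lit 2093) (.e (nat_lit 1589) (nat_lit 111) (.e (nat_lit 360477) (nat_lit 11) (.e (nat_lit 581653) (nat_lit 6) (.e (nat_lit 188435) (nat_lit 20) (.e (nat_lit 3579) (nat_lit 223) (.e (nat_lit 745475) (nat_lit 0) .nil)))))) (.g (nat_lit 0) .nil .nil))) 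
(.lf (nat_lit 64185) (.g (nat_lit 1562) (.e (nat_lit 1589) (nat_lit 111) (.e (nat_lit 360484) (nat_lit 15) (.e (nat_lit 647199) (nat_lit 11) (.e (nat_lit 16449) (nat_lit 10) (.e (nat_lit 434269) (nat_lit 36) (.e (nat_lit 639007) (nat_lit 13) .nil)))))) (.g (nat_lit 4) .nil .nil)))))) (.nd (nat_lit 3) (.nd (nat_lit 4) (.nd (nat_lit 5) 
(.lf (nat_lit 64133) (.g (nat_lit 2699) (.e (nat_lit 1589) (nat_lit 111) (.e (nat_lit 360475) (nat_lit 8) (.e (nat_lit 557119) (nat_lit 18) (.e (nat_lit 2798) (nat_lit 180) (.e (nat_lit 303137) (nat_lit 10) .nil))))) .nil)) 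
(.lf (nat_lit 64165) (.g (nat_lit 1264) (.e (nat_lit 1589) (nat_lit 111) (.e (nat_lit 360480) (nat_lit 14) (.e (nat_lit 638998) (nat_lit 8) (.e (nat_lit 172107) (nat_lit 10) (.e (nat_lit 434269) (nat_lit 36) (.e (nat_lit 639007) (nat_lit 13) .nil)))))) (.g (nat_lit 4) .nil .nil)))) (.nd (nat_lit 5) 
(.lf (nat_lit 64149) (.g (nat_lit 1710) (.e (nat_lit 1589) (nat_lit 111) (.e (nat_lit 360477) (nat_lit 11) (.e (nat_lit 581651) (nat_lit 4) (.e (nat_lit 172115) (nat_lit 10) (.e (nat_lit 434294) (nat_lit 49) (.e (nat_lit 745476) (nat_lit 0) .nil)))))) (.g (nat_lit 4) .nil .nil))) 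
(.lf (nat_lit 64181) (.g (nat_lit 2805) (.e (nat_lit 1589) (nat_lit 111) (.e (nat_lit 360483) (nat_lit 15) (.e (nat_lit 647199) (nat_lit 11) (.e (nat_lit 16448) (nat_lit 10) (.e (nat_lit 434268) (nat_lit 36) (.e (nat_lit 639007) (nat_lit 13) .nil)))))) (.g (nat_lit 5) .nil .nil))))) (.nd (nat_lit 4) (.nd (nat_lit 5) 
(.lf (nat_lit 64141) (.g (nat_lit 814) (.e (nat_lit 1589) (nat_lit 111) (.e (nat_lit 368384) (nat_lit 10) (.e (nat_lit 573444) (nat_lit 0) (.e (nat_lit 3026) (nat_lit 187) (.e (nat_lit 450605) (nat_lit 27) (.e (nat_lit 745475) (nat_lit 0) .nil)))))) (.g (nat_lit 4) .nil .nil))) 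
(.lf (nat_lit 64173) (.g (nat_lit 1593) (.e (nat_lit 1589) (nat_lit 111) (.e (nat_lit 360480) (nat_lit 14) (.e (nat_lit 638998) (nat_lit 8) (.e (nat_lit 172116) (nat_lit 10) (.e (nat_lit 434269) (nat_lit 36) (.e (nat_lit 639007) (nat_lit 13) .nil)))))) (.g (nat_lit 5) .nil .nil)))) (.nd (nat_lit 5) 
(.lf (nat_lit 64157) (.g (nat_lit 1165) (.e (nat_lit 1589) (nat_lit 111) (.e (nat_lit 360479) (nat_lit 13) (.e (nat_lit 630801) (nat_lit 8) (.e (nat_lit 172112) (nat_lit 10) (.e (nat_lit 434269) (nat_lit 36) (.e (nat_lit 639008) (nat_lit 13) .nil)))))) (.g (nat_lit 0) .nil .nil))) 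
(.lf (nat_lit 64189) (.g (nat_lit 1973) (.e (nat_lit 1589) (nat_lit 111) (.e (nat_lit 360486) (nat_lit 18) (.e (nat_lit 671762) (nat_lit 4) (.e (nat_lit 65610) (nat_lit 10) (.e (nat_lit 344168) (nat_lit 40) (.e (nat_lit 671747) (nat_lit 0) .nil)))))) (.g (nat_lit 4) .nil .nil))))))) (.nd (nat_lit 2) (.nd (nat_lit 3) (.nd (nat_lit 4) (.nd (nat_lit 5) 
(.lf (nat_lit 64131) (.g (nat_lit 2596) (.e (nat_lit 1589) (nat_lit 111) (.e (nat_lit 360475) (nat_lit 8) (.e (nat_lit 557119) (nat_lit 18) (.e (nat_lit 2798) (nat_lit 180) (.e (nat_lit 303133) (nat_lit 9) (.e (nat_lit 426042) (nat_lit 0) (.e (nat_lit 3578) (nat_lit 223) (.e (nat_lit 745475) (nat_lit 0) .nil)))))))) (.g (nat_lit 4) .nil .nil))) 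
(.lf (nat_lit 64163) (.g (nat_lit 1927) (.e (nat_lit 1589) (nat_lit 111) (.e (nat_lit 360480) (nat_lit 14) (.e (nat_lit 638998) (nat_lit 8) (.e (nat_lit 172106) (nat_lit 10) (.e (nat_lit 434269) (nat_lit 36) (.e (nat_lit 639007) (nat_lit 13) .nil)))))) (.g (nat_lit 6) .nil .nil)))) (.nd (nat_lit 5) 
(.lf (nat_lit 64147) (.g (nat_lit 1753) (.e (nat_lit 1589) (nat_lit 111) (.e (nat_lit 360477) (nat_lit 11) (.e (nat_lit 581651) (nat_lit 4) (.e (nat_lit 172113) (nat_lit 10) (.e (nat_lit 434294) (nat_lit 49) .nil))))) .nil)) 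
(.lf (nat_lit 64179) (.g (nat_lit 2274) (.e (nat_lit 1589) (nat_lit 111) (.e (nat_lit 360482) (nat_lit 15) (.e (nat_lit 647199) (nat_lit 11) (.e (nat_lit 16449) (nat_lit 10) (.e (nat_lit 434269) (nat_lit 36) (.e (nat_lit 639007) (nat_lit 13) .nil)))))) (.g (nat_lit 5) .nil .nil))))) (.nd (nat_lit 4) (.nd (nat_lit 5) 
(.lf (nat_lit 64139) (.g (nat_lit 2410) (.e (nat_lit 1589) (nat_lit 111) (.e (nat_lit 360475) (nat_lit 8) (.e (nat_lit 557119) (nat_lit 18) (.e (nat_lit 2807) (nat_lit 180) (.e (nat_lit 303138) (nat_lit 10) .nil))))) .nil)) 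
(.lf (nat_lit 64171) (.g (nat_lit 1959) (.e (nat_lit 1589) (nat_lit 111) (.e (nat_lit 360480) (nat_lit 14) (.e (nat_lit 638998) (nat_lit 8) (.e (nat_lit 172115) (nat_lit 10) (.e (nat_lit 434269) (nat_lit 36) (.e (nat_lit 639007) (nat_lit 13) .nil)))))) (.g (nat_lit 5) .nil .nil)))) (.nd (nat_lit 5) 
(.lf (nat_lit 64155) (.g (nat_lit 1352) (.e (nat_lit 1589) (nat_lit 111) (.e (nat_lit 368384) (nat_lit 11) (.e (nat_lit 581653) (nat_lit 6) (.e (nat_lit 188440) (nat_lit 20) (.e (nat_lit 3578) (nat_lit 223) (.e (nat_lit 745476) (nat_lit 0) .nil)))))) (.g (nat_lit 4) .nil .nil))) 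
(.lf (nat_lit 64187) (.g (nat_lit 1718) (.e (nat_lit 1589) (nat_lit 111) (.e (nat_lit 360486) (nat_lit 18) (.e (nat_lit 671747) (nat_lit 0) (.e (nat_lit 1595) (nat_lit 111) (.e (nat_lit 360486) (nat_lit 18) (.e (nat_lit 671748) (nat_lit 0) .nil)))))) (.g (nat_lit 4) .nil .nil)))))) (.nd (nat_lit 3) (.nd (nat_lit 4) (.nd (nat_lit 5) 
(.lf (nat_lit 64135) (.g (nat_lit 2456) (.e (nat_lit 1589) (nat_lit 111) (.e (nat_lit 360475) (nat_lit 8) (.e (nat_lit 557119) (nat_lit 18) (.e (nat_lit 2798) (nat_lit 180) (.e (nat_lit 303140) (nat_lit 10) .nil))))) .nil)) 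
(.lf (nat_lit 64167) (.g (nat_lit 1489) (.e (nat_lit 1589) (nat_lit 111) (.e (nat_lit 360480) (nat_lit 14) (.e (nat_lit 638998) (nat_lit 8) (.e (nat_lit 172112) (nat_lit 10) (.e (nat_lit 434269) (nat_lit 36) (.e (nat_lit 639007) (nat_lit 13) .nil)))))) (.g (nat_lit 5) .nil .nil)))) (.nd (nat_lit 5) 
(.lf (nat_lit 64151) (.g (nat_lit 1608) (.e (nat_lit 1589) (nat_lit 111) (.e (nat_lit 360477) (nat_lit 11) (.e (nat_lit 581651) (nat_lit 4) (.e (nat_lit 172116) (nat_lit 10) (.e (nat_lit 434295) (nat_lit 49) (.e (nat_lit 745475) (nat_lit 0) .nil)))))) (.g (nat_lit 5) .nil .nil))) 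
(.lf (nat_lit 64183) (.g (nat_lit 1327) (.e (nat_lit 1589) (nat_lit 111) (.e (nat_lit 360483) (nat_lit 15) (.e (nat_lit 647199) (nat_lit 11) (.e (nat_lit 16449) (nat_lit 10) (.e (nat_lit 434269) (nat_lit 36) (.e (nat_lit 639008) (nat_lit 13) .nil)))))) (.g (nat_lit 4) .nil .nil))))) (.nd (nat_lit 4) (.nd (nat_lit 5) 
(.lf (nat_lit 64143) (.g (nat_lit 1598) (.e (nat_lit 1589) (nat_lit 111) (.e (nat_lit 360477) (nat_lit 11) (.e (nat_lit 581651) (nat_lit 4) (.e (nat_lit 172106) (nat_lit 10) (.e (nat_lit 434294) (nat_lit 49) (.e (nat_lit 745476) (nat_lit 0) .nil)))))) (.g (nat_lit 4) .nil .nil))) 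
(.lf (nat_lit 64175) (.g (nat_lit 1510) (.e (nat_lit 1589) (nat_lit 111) (.e (nat_lit 360480) (nat_lit 14) (.e (nat_lit 638999) (nat_lit 8) (.e (nat_lit 172115) (nat_lit 10) (.e (nat_lit 434269) (nat_lit 36) (.e (nat_lit 639007) (nat_lit 13) .nil)))))) (.g (nat_lit 6) .nil .nil)))) (.nd (nat_lit 5) 
(.lf (nat_lit 64159) (.g (nat_lit 1539) (.e (nat_lit 1589) (nat_lit 111) (.e (nat_lit 360479) (nat_lit 13) (.e (nat_lit 630801) (nat_lit 8) (.e (nat_lit 172113) (nat_lit 10) (.e (nat_lit 434269) (nat_lit 36) (.e (nat_lit 639008) (nat_lit 13) .nil)))))) (.g (nat_lit 6) .nil .nil))) 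
(.lf (nat_lit 64191) (.g (nat_lit 2135) (.e (nat_lit 1589) (nat_lit 111) (.e (nat_lit 360486) (nat_lit 18) (.e (nat_lit 671762) (nat_lit 4) (.e (nat_lit 65617) (nat_lit 10) (.e (nat_lit 344168) (nat_lit 40) (.e (nat_lit 671747) (nat_lit 0) .nil)))))) (.g (nat_lit 4) .nil .nil)))))))))

noncomputable def tv880 : DT := (.nd (nat_lit 0) (.nd (nat_lit 1) (.nd (nat_lit 2) (.nd (nat_lit 3) (.nd (nat_lit 4) (.nd (nat_lit 5) 
(.lf (nat_lit 64192) (.g (nat_lit 2075) (.e (nat_lit 1589) (nat_lit 111) (.e (nat_lit 360486) (nat_lit 18) (.e (nat_lit 671762) (nat_lit 4) (.e (nat_lit 65617) (nat_lit 10) (.e (nat_lit 344169) (nat_lit 40) (.e (nat_lit 671747) (nat_lit 0) .nil)))))) (.g (nat_lit 4) .nil .nil))) 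
(.lf (nat_lit 64224) (.g (nat_lit 2509) (.e (nat_lit 1589) (nat_lit 111) (.e (nat_lit 360489) (nat_lit 21) (.e (nat_lit 770071) (nat_lit 8) (.e (nat_lit 65611) (nat_lit 10) (.e (nat_lit 344177) (nat_lit 43) (.e (nat_lit 770058) (nat_lit 5) .nil)))))) (.g (nat_lit 6) .nil .nil)))) (.nd (nat_lit 5) 
(.lf (nat_lit 64208) (.g (nat_lit 1901) (.e (nat_lit 1589) (nat_lit 111) (.e (nat_lit 360489) (nat_lit 21) (.e (nat_lit 770055) (nat_lit 5) (.e (nat_lit 1589) (nat_lit 111) (.e (nat_lit 360489) (nat_lit 21) (.e (nat_lit 770058) (nat_lit 5) .nil)))))) (.g (nat_lit 5) .nil .nil))) 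
(.lf (nat_lit 64240) (.g (nat_lit 1897) (.e (nat_lit 1589) (nat_lit 111) (.e (nat_lit 360489) (nat_lit 21) (.e (nat_lit 770072) (nat_lit 8) (.e (nat_lit 65616) (nat_lit 10) (.e (nat_lit 344177) (nat_lit 43) (.e (nat_lit 770055) (nat_lit 5) .nil)))))) (.g (nat_lit 5) .nil .nil))))) (.nd (nat_lit 4) (.nd (nat_lit 5) 
(.lf (nat_lit 64200) (.g (nat_lit 517) (.e (nat_lit 1589) (nat_lit 111) (.e (nat_lit 360486) (nat_lit 18) (.e (nat_lit 679680) (nat_lit 6) .nil))) .nil)) 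
(.lf (nat_lit 64232) (.g (nat_lit 1981) (.e (nat_lit 1589) (nat_lit 111) (.e (nat_lit 360489) (nat_lit 21) (.e (nat_lit 770071) (nat_lit 8) (.e (nat_lit 65619) (nat_lit 10) (.e (nat_lit 344177) (nat_lit 43) (.e (nat_lit 770055) (nat_lit 5) .nil)))))) (.g (nat_lit 4) .nil .nil)))) (.nd (nat_lit 5) 
(.lf (nat_lit 64216) (.g (nat_lit 1420) (.e (nat_lit 1589) (nat_lit 111) (.e (nat_lit 360489) (nat_lit 21) (.e (nat_lit 770058) (nat_lit 5) (.e (nat_lit 1595) (nat_lit 111) (.e (nat_lit 360489) (nat_lit 21) (.e (nat_lit 770055) (nat_lit 5) .nil)))))) (.g (nat_lit 4) .nil .nil))) 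
(.lf (nat_lit 64248) (.g (nat_lit 263) (.e (nat_lit 1589) (nat_lit 111) (.e (nat_lit 360491) (nat_lit 22) (.e (nat_lit 778464) (nat_lit 11) .nil))) .nil))))) (.nd (nat_lit 3) (.nd (nat_lit 4) (.nd (nat_lit 5) 
(.lf (nat_lit 64196) (.g (nat_lit 2480) (.e (nat_lit 1589) (nat_lit 111) (.e (nat_lit 360486) (nat_lit 18) (.e (nat_lit 671764) (nat_lit 6) (.e (nat_lit 81938) (nat_lit 20) (.e (nat_lit 2005) (nat_lit 138) (.e (nat_lit 671748) (nat_lit 0) .nil)))))) (.g (nat_lit 0) .nil .nil))) 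
(.lf (nat_lit 64228) (.g (nat_lit 1520) (.e (nat_lit 1589) (nat_lit 111) (.e (nat_lit 360489) (nat_lit 21) (.e (nat_lit 770071) (nat_lit 8) (.e (nat_lit 65617) (nat_lit 10) (.e (nat_lit 344175) (nat_lit 43) (.e (nat_lit 770058) (nat_lit 5) .nil)))))) (.g (nat_lit 4) .nil .nil)))) (.nd (nat_lit 5) 
(.lf (nat_lit 64212) (.g (nat_lit 1441) (.e (nat_lit 1589) (nat_lit 111) (.e (nat_lit 360489) (nat_lit 21) (.e (nat_lit 770057) (nat_lit 5) (.e (nat_lit 1595) (nat_lit 111) (.e (nat_lit 360489) (nat_lit 21) (.e (nat_lit 770055) (nat_lit 5) .nil)))))) (.g (nat_lit 4) .nil .nil))) 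
(.lf (nat_lit 64244) (.g (nat_lit 2724) (.e (nat_lit 1589) (nat_lit 111) (.e (nat_lit 360489) (nat_lit 21) (.e (nat_lit 770072) (nat_lit 8) (.e (nat_lit 65619) (nat_lit 10) (.e (nat_lit 344177) (nat_lit 43) (.e (nat_lit 770057) (nat_lit 5) .nil)))))) (.g (nat_lit 6) .nil .nil))))) (.nd (nat_lit 4) (.nd (nat_lit 5) 
(.lf (nat_lit 64204) (.g (nat_lit 1966) (.e (nat_lit 1589) (nat_lit 111) (.e (nat_lit 360488) (nat_lit 20) (.e (nat_lit 761869) (nat_lit 5) (.e (nat_lit 1597) (nat_lit 111) (.e (nat_lit 360489) (nat_lit 21) (.e (nat_lit 770055) (nat_lit 5) .nil)))))) (.g (nat_lit 5) .nil .nil))) 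
(.lf (nat_lit 64236) (.g (nat_lit 2508) (.e (nat_lit 1589) (nat_lit 111) (.e (nat_lit 360489) (nat_lit 21) (.e (nat_lit 770071) (nat_lit 8) (.e (nat_lit 65620) (nat_lit 10) (.e (nat_lit 344177) (nat_lit 43) (.e (nat_lit 770057) (nat_lit 5) .nil)))))) (.g (nat_lit 6) .nil .nil)))) (.nd (nat_lit 5) 
(.lf (nat_lit 64220) (.g (nat_lit 2820) (.e (nat_lit 1589) (nat_lit 111) (.e (nat_lit 360489) (nat_lit 21) (.e (nat_lit 770071) (nat_lit 8) (.e (nat_lit 65610) (nat_lit 10) (.e (nat_lit 344177) (nat_lit 43) (.e (nat_lit 770057) (nat_lit 5) .nil)))))) (.g (nat_lit 6) .nil .nil))) 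
(.lf (nat_lit 64252) (.g (nat_lit 2106) (.e (nat_lit 1589) (nat_lit 111) (.e (nat_lit 360492) (nat_lit 22) (.e (nat_lit 778362) (nat_lit 9) (.e (nat_lit 314) (nat_lit 23) (.e (nat_lit 352297) (nat_lit 20) (.e (nat_lit 2281) (nat_lit 150) (.e (nat_lit 770057) (nat_lit 5) .nil))))))) (.g (nat_lit 4) .nil .nil))))))) (.nd (nat_lit 2) (.nd (nat_lit 3) (.nd (nat_lit 4) (.nd (nat_lit 5) 
(.lf (nat_lit 64194) (.g (nat_lit 2103) (.e (nat_lit 1589) (nat_lit 111) (.e (nat_lit 360486) (nat_lit 18) (.e (nat_lit 671762) (nat_lit 4) (.e (nat_lit 65619) (nat_lit 10) (.e (nat_lit 344169) (nat_lit 40) (.e (nat_lit 671747) (nat_lit 0) .nil)))))) (.g (nat_lit 4) .nil .nil))) 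
(.lf (nat_lit 64226) (.g (nat_lit 2443) (.e (nat_lit 1589) (nat_lit 111) (.e (nat_lit 360489) (nat_lit 21) (.e (nat_lit 770071) (nat_lit 8) (.e (nat_lit 65616) (nat_lit 10) (.e (nat_lit 344177) (nat_lit 43) (.e (nat_lit 770057) (nat_lit 5) .nil)))))) (.g (nat_lit 5) .nil .nil)))) (.nd (nat_lit 5) 
(.lf (nat_lit 64210) (.g (nat_lit 1477) (.e (nat_lit 1589) (nat_lit 111) (.e (nat_lit 360489) (nat_lit 21) (.e (nat_lit 770057) (nat_lit 5) (.e (nat_lit 1586) (nat_lit 111) (.e (nat_lit 360489) (nat_lit 21) (.e (nat_lit 770055) (nat_lit 5) .nil)))))) (.g (nat_lit 4) .nil .nil))) 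
(.lf (nat_lit 64242) (.g (nat_lit 2251) (.e (nat_lit 1589) (nat_lit 111) (.e (nat_lit 360489) (nat_lit 21) (.e (nat_lit 770072) (nat_lit 8) (.e (nat_lit 65617) (nat_lit 10) (.e (nat_lit 344177) (nat_lit 43) (.e (nat_lit 770055) (nat_lit 5) .nil)))))) (.g (nat_lit 5) .nil .nil))))) (.nd (nat_lit 4) (.nd (nat_lit 5) 
(.lf (nat_lit 64202) (.g (nat_lit 360) (.e (nat_lit 1589) (nat_lit 111) (.e (nat_lit 360488) (nat_lit 20) (.e (nat_lit 761868) (nat_lit 5) .nil))) .nil)) 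
(.lf (nat_lit 64234) (.g (nat_lit 2918) (.e (nat_lit 1589) (nat_lit 111) (.e (nat_lit 360489) (nat_lit 21) (.e (nat_lit 770071) (nat_lit 8) (.e (nat_lit 65619) (nat_lit 10) (.e (nat_lit 344177) (nat_lit 43) (.e (nat_lit 770058) (nat_lit 5) .nil)))))) (.g (nat_lit 6) .nil .nil)))) (.nd (nat_lit 5) 
(.lf (nat_lit 64218) (.g (nat_lit 1283) (.e (nat_lit 1589) (nat_lit 111) (.e (nat_lit 360489) (nat_lit 21) (.e (nat_lit 770058) (nat_lit 5) (.e (nat_lit 1598) (nat_lit 111) (.e (nat_lit 360489) (nat_lit 21) (.e (nat_lit 770055) (nat_lit 5) .nil)))))) (.g (nat_lit 4) .nil .nil))) 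
(.lf (nat_lit 64250) (.g (nat_lit 1692) (.e (nat_lit 1589) (nat_lit 111) (.e (nat_lit 360491) (nat_lit 22) (.e (nat_lit 778466) (nat_lit 11) (.e (nat_lit 24640) (nat_lit 10) (.e (nat_lit 344176) (nat_lit 43) .nil))))) .nil))))) (.nd (nat_lit 3) (.nd (nat_lit 4) (.nd (nat_lit 5) 
(.lf (nat_lit 64198) (.g (nat_lit 2459) (.e (nat_lit 1589) (nat_lit 111) (.e (nat_lit 360486) (nat_lit 18) (.e (nat_lit 671764) (nat_lit 6) (.e (nat_lit 81946) (nat_lit 20) (.e (nat_lit 2005) (nat_lit 138) (.e (nat_lit 671748) (nat_lit 0) .nil)))))) (.g (nat_lit 0) .nil .nil))) 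
(.lf (nat_lit 64230) (.g (nat_lit 2907) (.e (nat_lit 1589) (nat_lit 111) (.e (nat_lit 360489) (nat_lit 21) (.e (nat_lit 770071) (nat_lit 8) (.e (nat_lit 65617) (nat_lit 10) (.e (nat_lit 344177) (nat_lit 43) (.e (nat_lit 770057) (nat_lit 5) .nil)))))) (.g (nat_lit 6) .nil .nil)))) (.nd (nat_lit 5) 
(.lf (nat_lit 64214) (.g (nat_lit 1229) (.e (nat_lit 1589) (nat_lit 111) (.e (nat_lit 360489) (nat_lit 21) (.e (nat_lit 770057) (nat_lit 5) (.e (nat_lit 1598) (nat_lit 111) (.e (nat_lit 360489) (nat_lit 21) (.e (nat_lit 770055) (nat_lit 5) .nil)))))) (.g (nat_lit 4) .nil .nil))) 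
(.lf (nat_lit 64246) (.g (nat_lit 1641) (.e (nat_lit 1589) (nat_lit 111) (.e (nat_lit 360489) (nat_lit 21) (.e (nat_lit 770074) (nat_lit 10) (.e (nat_lit 81946) (nat_lit 20) (.e (nat_lit 2280) (nat_lit 150) (.e (nat_lit 770055) (nat_lit 5) .nil)))))) (.g (nat_lit 4) .nil .nil))))) (.nd (nat_lit 4) (.nd (nat_lit 5) 
(.lf (nat_lit 64206) (.g (nat_lit 1616) (.e (nat_lit 1589) (nat_lit 111) (.e (nat_lit 360489) (nat_lit 21) (.e (nat_lit 770055) (nat_lit 5) (.e (nat_lit 1586) (nat_lit 111) (.e (nat_lit 360489) (nat_lit 21) (.e (nat_lit 770055) (nat_lit 5) .nil)))))) (.g (nat_lit 4) .nil .nil))) 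
(.lf (nat_lit 64238) (.g (nat_lit 1750) (.e (nat_lit 1589) (nat_lit 111) (.e (nat_lit 360489) (nat_lit 21) (.e (nat_lit 770072) (nat_lit 8) (.e (nat_lit 65611) (nat_lit 10) (.e (nat_lit 344177) (nat_lit 43) (.e (nat_lit 770055) (nat_lit 5) .nil)))))) (.g (nat_lit 5) .nil .nil)))) (.nd (nat_lit 5) 
(.lf (nat_lit 64222) (.g (nat_lit 1645) (.e (nat_lit 1589) (nat_lit 111) (.e (nat_lit 360489) (nat_lit 21) (.e (nat_lit 770071) (nat_lit 8) (.e (nat_lit 65611) (nat_lit 10) (.e (nat_lit 344177) (nat_lit 43) (.e (nat_lit 770055) (nat_lit 5) .nil)))))) (.g (nat_lit 4) .nil .nil))) 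
(.lf (nat_lit 64254) (.g (nat_lit 2025) (.e (nat_lit 1589) (nat_lit 111) (.e (nat_lit 360492) (nat_lit 22) (.e (nat_lit 778465) (nat_lit 11) (.e (nat_lit 24639) (nat_lit 10) (.e (nat_lit 344177) (nat_lit 43) (.e (nat_lit 770057) (nat_lit 5) .nil)))))) (.g (nat_lit 4) .nil .nil)))))))) (.nd (nat_lit 1) (.nd (nat_lit 2) (.nd (nat_lit 3) (.nd (nat_lit 4) (.nd (nat_lit 5) 
(.lf (nat_lit 64193) (.g (nat_lit 2068) (.e (nat_lit 1589) (nat_lit 111) (.e (nat_lit 360486) (nat_lit 18) (.e (nat_lit 671762) (nat_lit 4) (.e (nat_lit 65619) (nat_lit 10) (.e (nat_lit 344168) (nat_lit 40) (.e (nat_lit 671747) (nat_lit 0) .nil)))))) (.g (nat_lit 4) .nil .nil))) 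
(.lf (nat_lit 64225) (.g (nat_lit 1778) (.e (nat_lit 1589) (nat_lit 111) (.e (nat_lit 360489) (nat_lit 21) (.e (nat_lit 770071) (nat_lit 8) (.e (nat_lit 65616) (nat_lit 10) (.e (nat_lit 344177) (nat_lit 43) (.e (nat_lit 770055) (nat_lit 5) .nil)))))) (.g (nat_lit 4) .nil .nil)))) (.nd (nat_lit 5) 
(.lf (nat_lit 64209) (.g (nat_lit 500) (.e (nat_lit 1589) (nat_lit 111) (.e (nat_lit 360489) (nat_lit 21) (.e (nat_lit 770056) (nat_lit 5) (.e (nat_lit 1599) (nat_lit 111) .nil)))) .nil)) 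
(.lf (nat_lit 64241) (.g (nat_lit 1539) (.e (nat_lit 1589) (nat_lit 111) (.e (nat_lit 360489) (nat_lit 21) (.e (nat_lit 770072) (nat_lit 8) (.e (nat_lit 65617) (nat_lit 10) (.e (nat_lit 344175) (nat_lit 43) (.e (nat_lit 770058) (nat_lit 5) .nil)))))) (.g (nat_lit 4) .nil .nil))))) (.nd (nat_lit 4) (.nd (nat_lit 5) 
(.lf (nat_lit 64201) (.g (nat_lit 1810) (.e (nat_lit 1589) (nat_lit 111) (.e (nat_lit 360488) (nat_lit 20) (.e (nat_lit 761866) (nat_lit 5) (.e (nat_lit 1597) (nat_lit 111) (.e (nat_lit 360489) (nat_lit 21) (.e (nat_lit 770055) (nat_lit 5) .nil)))))) (.g (nat_lit 5) .nil .nil))) 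
(.lf (nat_lit 64233) (.g (nat_lit 2602) (.e (nat_lit 1589) (nat_lit 111) (.e (nat_lit 360489) (nat_lit 21) (.e (nat_lit 770071) (nat_lit 8) (.e (nat_lit 65619) (nat_lit 10) (.e (nat_lit 344177) (nat_lit 43) (.e (nat_lit 770057) (nat_lit 5) .nil)))))) (.g (nat_lit 5) .nil .nil)))) (.nd (nat_lit 5) 
(.lf (nat_lit 64217) (.g (nat_lit 2026) (.e (nat_lit 1589) (nat_lit 111) (.e (nat_lit 360489) (nat_lit 21) (.e (nat_lit 770058) (nat_lit 5) (.e (nat_lit 1595) (nat_lit 111) (.e (nat_lit 360489) (nat_lit 21) (.e (nat_lit 770057) (nat_lit 5) .nil)))))) (.g (nat_lit 6) .nil .nil))) 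
(.lf (nat_lit 64249) (.g (nat_lit 1324) (.e (nat_lit 1589) (nat_lit 111) (.e (nat_lit 360491) (nat_lit 22) (.e (nat_lit 778465) (nat_lit 11) (.e (nat_lit 24639) (nat_lit 10) (.e (nat_lit 344177) (nat_lit 43) .nil))))) .nil))))) (.nd (nat_lit 3) (.nd (nat_lit 4) (.nd (nat_lit 5) 
(.lf (nat_lit 64197) (.g (nat_lit 2216) (.e (nat_lit 1589) (nat_lit 111) (.e (nat_lit 360486) (nat_lit 18) (.e (nat_lit 671764) (nat_lit 6) (.e (nat_lit 81943) (nat_lit 20) (.e (nat_lit 2005) (nat_lit 138) (.e (nat_lit 671748) (nat_lit 0) .nil)))))) (.g (nat_lit 0) .nil .nil))) 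
(.lf (nat_lit 64229) (.g (nat_lit 2285) (.e (nat_lit 1589) (nat_lit 111) (.e (nat_lit 360489) (nat_lit 21) (.e (nat_lit 770071) (nat_lit 8) (.e (nat_lit 65617) (nat_lit 10) (.e (nat_lit 344177) (nat_lit 43) (.e (nat_lit 770055) (nat_lit 5) .nil)))))) (.g (nat_lit 5) .nil .nil)))) (.nd (nat_lit 5) 
(.lf (nat_lit 64213) (.g (nat_lit 2061) (.e (nat_lit 1589) (nat_lit 111) (.e (nat_lit 360489) (nat_lit 21) (.e (nat_lit 770057) (nat_lit 5) (.e (nat_lit 1595) (nat_lit 111) (.e (nat_lit 360489) (nat_lit 21) (.e (nat_lit 770057) (nat_lit 5) .nil)))))) (.g (nat_lit 6) .nil .nil))) 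
(.lf (nat_lit 64245) (.g (nat_lit 1899) (.e (nat_lit 1589) (nat_lit 111) (.e (nat_lit 360489) (nat_lit 21) (.e (nat_lit 770072) (nat_lit 8) (.e (nat_lit 65620) (nat_lit 10) (.e (nat_lit 344177) (nat_lit 43) (.e (nat_lit 770055) (nat_lit 5) .nil)))))) (.g (nat_lit 5) .nil .nil))))) (.nd (nat_lit 4) (.nd (nat_lit 5) 
(.lf (nat_lit 64205) (.g (nat_lit 224) (.e (nat_lit 1589) (nat_lit 111) (.e (nat_lit 360488) (nat_lit 20) (.e (nat_lit 769792) (nat_lit 10) .nil))) .nil)) 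
(.lf (nat_lit 64237) (.g (nat_lit 2294) (.e (nat_lit 1589) (nat_lit 111) (.e (nat_lit 360489) (nat_lit 21) (.e (nat_lit 770072) (nat_lit 8) (.e (nat_lit 65610) (nat_lit 10) (.e (nat_lit 344177) (nat_lit 43) (.e (nat_lit 770055) (nat_lit 5) .nil)))))) (.g (nat_lit 5) .nil .nil)))) (.nd (nat_lit 5) 
(.lf (nat_lit 64221) (.g (nat_lit 2974) (.e (nat_lit 1589) (nat_lit 111) (.e (nat_lit 360489) (nat_lit 21) (.e (nat_lit 770071) (nat_lit 8) (.e (nat_lit 65610) (nat_lit 10) (.e (nat_lit 344177) (nat_lit 43) (.e (nat_lit 770058) (nat_lit 5) .nil)))))) (.g (nat_lit 0) .nil .nil))) 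
(.lf (nat_lit 64253) (.g (nat_lit 2018) (.e (nat_lit 1589) (nat_lit 111) (.e (nat_lit 360492) (nat_lit 22) (.e (nat_lit 778362) (nat_lit 9) (.e (nat_lit 314) (nat_lit 23) (.e (nat_lit 352297) (nat_lit 20) (.e (nat_lit 2281) (nat_lit 150) (.e (nat_lit 770058) (nat_lit 5) .nil))))))) (.g (nat_lit 4) .nil .nil))))))) (.nd (nat_lit 2) (.nd (nat_lit 3) (.nd (nat_lit 4) (.nd (nat_lit 5) 
(.lf (nat_lit 64195) (.g (nat_lit 388) (.e (nat_lit 1589) (nat_lit 111) (.e (nat_lit 360486) (nat_lit 18) (.e (nat_lit 671764) (nat_lit 6) .nil))) .nil)) 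
(.lf (nat_lit 64227) (.g (nat_lit 2574) (.e (nat_lit 1589) (nat_lit 111) (.e (nat_lit 360489) (nat_lit 21) (.e (nat_lit 770071) (nat_lit 8) (.e (nat_lit 65616) (nat_lit 10) (.e (nat_lit 344177) (nat_lit 43) (.e (nat_lit 770058) (nat_lit 5) .nil)))))) (.g (nat_lit 6) .nil .nil)))) (.nd (nat_lit 5) 
(.lf (nat_lit 64211) (.g (nat_lit 1164) (.e (nat_lit 1589) (nat_lit 111) (.e (nat_lit 360489) (nat_lit 21) (.e (nat_lit 770057) (nat_lit 5) (.e (nat_lit 1592) (nat_lit 111) (.e (nat_lit 360489) (nat_lit 21) (.e (nat_lit 770055) (nat_lit 5) .nil)))))) (.g (nat_lit 4) .nil .nil))) 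
(.lf (nat_lit 64243) (.g (nat_lit 2126) (.e (nat_lit 1589) (nat_lit 111) (.e (nat_lit 360489) (nat_lit 21) (.e (nat_lit 770072) (nat_lit 8) (.e (nat_lit 65619) (nat_lit 10) (.e (nat_lit 344177) (nat_lit 43) (.e (nat_lit 770055) (nat_lit 5) .nil)))))) (.g (nat_lit 5) .nil .nil))))) (.nd (nat_lit 4) (.nd (nat_lit 5) 
(.lf (nat_lit 64203) (.g (nat_lit 1906) (.e (nat_lit 1589) (nat_lit 111) (.e (nat_lit 360488) (nat_lit 20) (.e (nat_lit 761868) (nat_lit 5) (.e (nat_lit 1597) (nat_lit 111) (.e (nat_lit 360489) (nat_lit 21) (.e (nat_lit 770055) (nat_lit 5) .nil)))))) (.g (nat_lit 5) .nil .nil))) 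
(.lf (nat_lit 64235) (.g (nat_lit 1863) (.e (nat_lit 1589) (nat_lit 111) (.e (nat_lit 360489) (nat_lit 21) (.e (nat_lit 770071) (nat_lit 8) (.e (nat_lit 65620) (nat_lit 10) (.e (nat_lit 344177) (nat_lit 43) (.e (nat_lit 770055) (nat_lit 5) .nil)))))) (.g (nat_lit 5) .nil .nil)))) (.nd (nat_lit 5) 
(.lf (nat_lit 64219) (.g (nat_lit 2129) (.e (nat_lit 1589) (nat_lit 111) (.e (nat_lit 360489) (nat_lit 21) (.e (nat_lit 770071) (nat_lit 8) (.e (nat_lit 65610) (nat_lit 10) (.e (nat_lit 344177) (nat_lit 43) (.e (nat_lit 770055) (nat_lit 5) .nil)))))) (.g (nat_lit 5) .nil .nil))) 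
(.lf (nat_lit 64251) (.g (nat_lit 1921) (.e (nat_lit 1589) (nat_lit 111) (.e (nat_lit 360492) (nat_lit 22) (.e (nat_lit 778362) (nat_lit 9) (.e (nat_lit 314) (nat_lit 23) (.e (nat_lit 352290) (nat_lit 20) (.e (nat_lit 2281) (nat_lit 150) (.e (nat_lit 770057) (nat_lit 5) .nil))))))) (.g (nat_lit 4) .nil .nil)))))) (.nd (nat_lit 3) (.nd (nat_lit 4) (.nd (nat_lit 5) 
(.lf (nat_lit 64199) (.g (nat_lit 2792) (.e (nat_lit 1589) (nat_lit 111) (.e (nat_lit 360486) (nat_lit 18) (.e (nat_lit 671764) (nat_lit 6) (.e (nat_lit 81947) (nat_lit 20) (.e (nat_lit 2005) (nat_lit 138) (.e (nat_lit 671748) (nat_lit 0) .nil)))))) (.g (nat_lit 0) .nil .nil))) 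
(.lf (nat_lit 64231) (.g (nat_lit 3025) (.e (nat_lit 1589) (nat_lit 111) (.e (nat_lit 360489) (nat_lit 21) (.e (nat_lit 770071) (nat_lit 8) (.e (nat_lit 65617) (nat_lit 10) (.e (nat_lit 344177) (nat_lit 43) (.e (nat_lit 770058) (nat_lit 5) .nil)))))) (.g (nat_lit 0) .nil .nil)))) (.nd (nat_lit 5) 
(.lf (nat_lit 64215) (.g (nat_lit 1560) (.e (nat_lit 1589) (nat_lit 111) (.e (nat_lit 360489) (nat_lit 21) (.e (nat_lit 770058) (nat_lit 5) (.e (nat_lit 1586) (nat_lit 111) (.e (nat_lit 360489) (nat_lit 21) (.e (nat_lit 770055) (nat_lit 5) .nil)))))) (.g (nat_lit 4) .nil .nil))) 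
(.lf (nat_lit 64247) (.g (nat_lit 2110) (.e (nat_lit 1589) (nat_lit 111) (.e (nat_lit 360489) (nat_lit 21) (.e (nat_lit 770074) (nat_lit 10) (.e (nat_lit 81946) (nat_lit 20) (.e (nat_lit 2280) (nat_lit 150) (.e (nat_lit 770057) (nat_lit 5) .nil)))))) (.g (nat_lit 6) .nil .nil))))) (.nd (nat_lit 4) (.nd (nat_lit 5) 
(.lf (nat_lit 64207) (.g (nat_lit 1761) (.e (nat_lit 1589) (nat_lit 111) (.e (nat_lit 360489) (nat_lit 21) (.e (nat_lit 770055) (nat_lit 5) (.e (nat_lit 1589) (nat_lit 111) (.e (nat_lit 360489) (nat_lit 21) (.e (nat_lit 770057) (nat_lit 5) .nil)))))) (.g (nat_lit 4) .nil .nil))) 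
(.lf (nat_lit 64239) (.g (nat_lit 2407) (.e (nat_lit 1589) (nat_lit 111) (.e (nat_lit 360489) (nat_lit 21) (.e (nat_lit 770072) (nat_lit 8) (.e (nat_lit 65611) (nat_lit 10) (.e (nat_lit 344177) (nat_lit 43) (.e (nat_lit 770057) (nat_lit 5) .nil)))))) (.g (nat_lit 6) .nil .nil)))) (.nd (nat_lit 5) 
(.lf (nat_lit 64223) (.g (nat_lit 2262) (.e (nat_lit 1589) (nat_lit 111) (.e (nat_lit 360489) (nat_lit 21) (.e (nat_lit 770071) (nat_lit 8) (.e (nat_lit 65611) (nat_lit 10) (.e (nat_lit 344177) (nat_lit 43) (.e (nat_lit 770057) (nat_lit 5) .nil)))))) (.g (nat_lit 5) .nil .nil))) 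
(.lf (nat_lit 64255) (.g (nat_lit 2143) (.e (nat_lit 1589) (nat_lit 111) (.e (nat_lit 360492) (nat_lit 22) (.e (nat_lit 778465) (nat_lit 11) (.e (nat_lit 24639) (nat_lit 10) (.e (nat_lit 344177) (nat_lit 43) (.e (nat_lit 770058) (nat_lit 5) .nil)))))) (.g (nat_lit 4) .nil .nil)))))))))

noncomputable def tv881 : DT := (.nd (nat_lit 0) (.nd (nat_lit 1) (.nd (nat_lit 2) (.nd (nat_lit 3) (.nd (nat_lit 4) (.nd (nat_lit 5) 
(.lf (nat_lit 64256) (.g (nat_lit 1848) (.e (nat_lit 1589) (nat_lit 111) (.e (nat_lit 360492) (nat_lit 22) (.e (nat_lit 778465) (nat_lit 11) (.e (nat_lit 24640) (nat_lit 10) (.e (nat_lit 344175) (nat_lit 43) .nil))))) .nil)) 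
(.lf (nat_lit 64288) (.g (nat_lit 2873) (.e (nat_lit 1590) (nat_lit 111) (.e (nat_lit 360473) (nat_lit 8) (.e (nat_lit 557090) (nat_lit 12) (.e (nat_lit 164020) (nat_lit 45) .nil)))) .nil))) (.nd (nat_lit 5) 
(.lf (nat_lit 64272) (.g (nat_lit 2238) (.e (nat_lit 1590) (nat_lit 111) (.e (nat_lit 360453) (nat_lit 0) (.e (nat_lit 5907) (nat_lit 320) (.e (nat_lit 1221) (nat_lit 90) (.e (nat_lit 81933) (nat_lit 20) .nil))))) .nil)) 
(.lf (nat_lit 64304) (.g (nat_lit 1504) (.e (nat_lit 1591) (nat_lit 111) (.e (nat_lit 360466) (nat_lit 3) (.e (nat_lit 516146) (nat_lit 9) (.e (nat_lit 426448) (nat_lit 20) (.e (nat_lit 122624) (nat_lit 20) .nil))))) .nil)))) (.nd (nat_lit 4) (.nd (nat_lit 5) 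
(.lf (nat_lit 64264) (.g (nat_lit 1955) (.e (nat_lit 1589) (nat_lit 111) (.e (nat_lit 360492) (nat_lit 22) (.e (nat_lit 778466) (nat_lit 11) (.e (nat_lit 24640) (nat_lit 10) (.e (nat_lit 344177) (nat_lit 43) (.e (nat_lit 770058) (nat_lit 5) .nil)))))) (.g (nat_lit 4) .nil .nil))) 
(.lf (nat_lit 64296) (.g (nat_lit 1472) (.e (nat_lit 1591) (nat_lit 111) (.e (nat_lit 360466) (nat_lit 3) (.e (nat_lit 516117) (nat_lit 1) (.e (nat_lit 164166) (nat_lit 152) (.e (nat_lit 1196) (nat_lit 88) .nil))))) .nil))) (.nd (nat_lit 5) 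
(.lf (nat_lit 64280) (.g (nat_lit 1537) (.e (nat_lit 1590) (nat_lit 111) (.e (nat_lit 360467) (nat_lit 3) (.e (nat_lit 516146) (nat_lit 9) (.e (nat_lit 426444) (nat_lit 19) .nil)))) .nil)) 
(.lf (nat_lit 64312) (.g (nat_lit 3028) (.e (nat_lit 1591) (nat_lit 111) (.e (nat_lit 360466) (nat_lit 3) (.e (nat_lit 516179) (nat_lit 15) (.e (nat_lit 475214) (nat_lit 42) (.e (nat_lit 720915) (nat_lit 20) .nil))))) .nil))))) (.nd (nat_lit 3) (.nd (nat_lit 4) (.nd (nat_lit 5) 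
(.lf (nat_lit 64260) (.g (nat_lit 1809) (.e (nat_lit 1589) (nat_lit 111) (.e (nat_lit 360492) (nat_lit 22) (.e (nat_lit 778466) (nat_lit 11) (.e (nat_lit 24639) (nat_lit 10) (.e (nat_lit 344177) (nat_lit 43) (.e (nat_lit 770057) (nat_lit 5) .nil)))))) (.g (nat_lit 4) .nil .nil))) 
(.lf (nat_lit 64292) (.g (nat_lit 1901) (.e (nat_lit 1591) (nat_lit 111) (.e (nat_lit 360449) (nat_lit 0) (.e (nat_lit 7125) (nat_lit 382) (.e (nat_lit 1201) (nat_lit 88) (.e (nat_lit 65617) (nat_lit 10) .nil))))) .nil))) (.nd (nat_lit 5) 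
(.lf (nat_lit 64276) (.g (nat_lit 2833) (.e (nat_lit 1590) (nat_lit 111) (.e (nat_lit 360467) (nat_lit 3) (.e (nat_lit 516139) (nat_lit 7) (.e (nat_lit 409644) (nat_lit 18) (.e (nat_lit 303117) (nat_lit 2) .nil))))) .nil)) 
(.lf (nat_lit 64308) (.g (nat_lit 1503) (.e (nat_lit 1591) (nat_lit 111) (.e (nat_lit 360466) (nat_lit 3) (.e (nat_lit 516179) (nat_lit 15) (.e (nat_lit 483072) (nat_lit 40) .nil)))) .nil)))) (.nd (nat_lit 4) (.nd (nat_lit 5) 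
(.lf (nat_lit 64268) (.g (nat_lit 1045) (.e (nat_lit 1589) (nat_lit 111) (.e (nat_lit 360493) (nat_lit 27) (.e (nat_lit 819221) (nat_lit 6) (.e (nat_lit 188439) (nat_lit 20) (.e (nat_lit 3288) (nat_lit 201) (.e (nat_lit 565252) (nat_lit 0) .nil)))))) (.g (nat_lit 6) .nil .nil))) 
(.lf (nat_lit 64300) (.g (nat_lit 1505) (.e (nat_lit 1591) (nat_lit 111) (.e (nat_lit 360466) (nat_lit 3) (.e (nat_lit 516120) (nat_lit 1) (.e (nat_lit 164166) (nat_lit 152) (.e (nat_lit 1200) (nat_lit 88) .nil))))) .nil))) (.nd (nat_lit 5) 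
(.lf (nat_lit 64284) (.g (nat_lit 1807) (.e (nat_lit 1590) (nat_lit 111) (.e (nat_lit 360471) (nat_lit 7) (.e (nat_lit 548889) (nat_lit 9) (.e (nat_lit 65583) (nat_lit 7) .nil)))) .nil)) 
(.lf (nat_lit 64316) (.g (nat_lit 2873) (.e (nat_lit 1591) (nat_lit 111) (.e (nat_lit 360473) (nat_lit 8) (.e (nat_lit 557090) (nat_lit 12) (.e (nat_lit 164020) (nat_lit 45) .nil)))) .nil)))))) (.nd (nat_lit 2) (.nd (nat_lit 3) (.nd (nat_lit 4) (.nd (nat_lit 5) 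
(.lf (nat_lit 64258) (.g (nat_lit 3609) (.e (nat_lit 1589) (nat_lit 111) (.e (nat_lit 360492) (nat_lit 22) (.e (nat_lit 778466) (nat_lit 11) (.e (nat_lit 24617) (nat_lit 7) (.e (nat_lit 319505) (nat_lit 10) (.e (nat_lit 720) (nat_lit 64) (.e (nat_lit 688152) (nat_lit 13) .nil))))))) (.g (nat_lit 6) .nil .nil))) 
(.lf (nat_lit 64290) (.g (nat_lit 4144) (.e (nat_lit 1590) (nat_lit 111) (.e (nat_lit 360473) (nat_lit 8) (.e (nat_lit 557090) (nat_lit 12) (.e (nat_lit 164022) (nat_lit 46) .nil)))) .nil))) (.nd (nat_lit 5) 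
(.lf (nat_lit 64274) (.g (nat_lit 2541) (.e (nat_lit 1590) (nat_lit 111) (.e (nat_lit 360466) (nat_lit 3) (.e (nat_lit 516139) (nat_lit 7) (.e (nat_lit 409645) (nat_lit 18) .nil)))) .nil)) 
(.lf (nat_lit 64306) (.g (nat_lit 1355) (.e (nat_lit 1591) (nat_lit 111) (.e (nat_lit 360466) (nat_lit 3) (.e (nat_lit 516146) (nat_lit 9) (.e (nat_lit 426467) (nat_lit 24) .nil)))) .nil)))) (.nd (nat_lit 4) (.nd (nat_lit 5) 
(.lf (nat_lit 64266) (.g (nat_lit 1779) (.e (nat_lit 1589) (nat_lit 111) (.e (nat_lit 360492) (nat_lit 22) (.e (nat_lit 778466) (nat_lit 11) (.e (nat_lit 24641) (nat_lit 10) (.e (nat_lit 344177) (nat_lit 43) (.e (nat_lit 770058) (nat_lit 5) .nil)))))) (.g (nat_lit 4) .nil .nil))) 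
(.lf (nat_lit 64298) (.g (nat_lit 1598) (.e (nat_lit 1591) (nat_lit 111) (.e (nat_lit 360466) (nat_lit 3) (.e (nat_lit 516117) (nat_lit 1) (.e (nat_lit 164170) (nat_lit 152) .nil)))) .nil))) (.nd (nat_lit 5) 
(.lf (nat_lit 64282) (.g (nat_lit 2107) (.e (nat_lit 1590) (nat_lit 111) (.e (nat_lit 360467) (nat_lit 3) (.e (nat_lit 516179) (nat_lit 15) (.e (nat_lit 475199) (nat_lit 40) .nil)))) .nil)) 
(.lf (nat_lit 64314) (.g (nat_lit 636) (.e (nat_lit 1591) (nat_lit 111) (.e (nat_lit 360466) (nat_lit 3) (.e (nat_lit 516191) (nat_lit 17) .nil))) .nil))))) (.nd (nat_lit 3) (.nd (nat_lit 4) (.nd (nat_lit 5) 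
(.lf (nat_lit 64262) (.g (nat_lit 1804) (.e (nat_lit 1589) (nat_lit 111) (.e (nat_lit 360492) (nat_lit 22) (.e (nat_lit 778466) (nat_lit 11) (.e (nat_lit 24640) (nat_lit 10) (.e (nat_lit 344175) (nat_lit 43) (.e (nat_lit 770058) (nat_lit 5) .nil)))))) (.g (nat_lit 4) .nil .nil))) 
(.lf (nat_lit 64294) (.g (nat_lit 640) (.e (nat_lit 1591) (nat_lit 111) (.e (nat_lit 360452) (nat_lit 0) (.e (nat_lit 7272) (nat_lit 385) .nil))) .nil))) (.nd (nat_lit 5) 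
(.lf (nat_lit 64278) (.g (nat_lit 4813) (.e (nat_lit 1590) (nat_lit 111) (.e (nat_lit 360467) (nat_lit 3) (.e (nat_lit 516139) (nat_lit 7) (.e (nat_lit 409648) (nat_lit 18) (.e (nat_lit 303117) (nat_lit 2) (.e (nat_lit 196630) (nat_lit 9) .nil)))))) (.g (nat_lit 0) .nil .nil))) 
(.lf (nat_lit 64310) (.g (nat_lit 3131) (.e (nat_lit 1591) (nat_lit 111) (.e (nat_lit 360466) (nat_lit 3) (.e (nat_lit 516179) (nat_lit 15) (.e (nat_lit 475214) (nat_lit 42) (.e (nat_lit 720910) (nat_lit 20) .nil))))) .nil)))) (.nd (nat_lit 4) (.nd (nat_lit 5) 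
(.lf (nat_lit 64270) (.g (nat_lit 1184) (.e (nat_lit 1590) (nat_lit 111) (.e (nat_lit 360453) (nat_lit 0) (.e (nat_lit 5907) (nat_lit 320) (.e (nat_lit 1219) (nat_lit 90) .nil)))) .nil)) 
(.lf (nat_lit 64302) (.g (nat_lit 1434) (.e (nat_lit 1591) (nat_lit 111) (.e (nat_lit 360466) (nat_lit 3) (.e (nat_lit 516146) (nat_lit 9) (.e (nat_lit 426440) (nat_lit 19) .nil)))) .nil))) (.nd (nat_lit 5) 
(.lf (nat_lit 64286) (.g (nat_lit 1707) (.e (nat_lit 1590) (nat_lit 111) (.e (nat_lit 360473) (nat_lit 8) (.e (nat_lit 557087) (nat_lit 11) (.e (nat_lit 24617) (nat_lit 7) .nil)))) .nil)) 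
(.lf (nat_lit 64318) (.g (nat_lit 1730) (.e (nat_lit 1591) (nat_lit 111) (.e (nat_lit 360473) (nat_lit 8) (.e (nat_lit 557091) (nat_lit 12) (.e (nat_lit 163999) (nat_lit 38) .nil)))) .nil))))))) (.nd (nat_lit 1) (.nd (nat_lit 2) (.nd (nat_lit 3) (.nd (nat_lit 4) (.nd (nat_lit 5) 
(.lf (nat_lit 64257) (.g (nat_lit 2083) (.e (nat_lit 1589) (nat_lit 111) (.e (nat_lit 360492) (nat_lit 22) (.e (nat_lit 778465) (nat_lit 11) (.e (nat_lit 24640) (nat_lit 10) (.e (nat_lit 344177) (nat_lit 43) (.e (nat_lit 770058) (nat_lit 5) .nil)))))) (.g (nat_lit 4) .nil .nil))) 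
(.lf (nat_lit 64289) (.g (nat_lit 3569) (.e (nat_lit 1590) (nat_lit 111) (.e (nat_lit 360473) (nat_lit 8) (.e (nat_lit 557090) (nat_lit 12) (.e (nat_lit 164020) (nat_lit 45) (.e (nat_lit 696344) (nat_lit 8) .nil))))) .nil))) (.nd (nat_lit 5) 
(.lf (nat_lit 64273) (.g (nat_lit 2578) (.e (nat_lit 1590) (nat_lit 111) (.e (nat_lit 360453) (nat_lit 0) (.e (nat_lit 7270) (nat_lit 385) (.e (nat_lit 122919) (nat_lit 15) (.e (nat_lit 360451) (nat_lit 0) (.e (nat_lit 7124) (nat_lit 382) (.e (nat_lit 1016) (nat_lit 81) .nil))))))) (.g (nat_lit 6) .nil .nil))) 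
(.lf (nat_lit 64305) (.g (nat_lit 1507) (.e (nat_lit 1591) (nat_lit 111) (.e (nat_lit 360466) (nat_lit 3) (.e (nat_lit 516146) (nat_lit 9) (.e (nat_lit 426448) (nat_lit 20) (.e (nat_lit 122624) (nat_lit 20) (.e (nat_lit 1860) (nat_lit 124) (.e (nat_lit 564992) (nat_lit 0) .nil))))))) (.g (nat_lit 4) .nil .nil))))) (.nd (nat_lit 4) (.nd (nat_lit 5) 
(.lf (nat_lit 64265) (.g (nat_lit 1659) (.e (nat_lit 1589) (nat_lit 111) (.e (nat_lit 360492) (nat_lit 22) (.e (nat_lit 778466) (nat_lit 11) (.e (nat_lit 24641) (nat_lit 10) (.e (nat_lit 344177) (nat_lit 43) (.e (nat_lit 770057) (nat_lit 5) .nil)))))) (.g (nat_lit 4) .nil .nil))) 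
(.lf (nat_lit 64297) (.g (nat_lit 1479) (.e (nat_lit 1591) (nat_lit 111) (.e (nat_lit 360466) (nat_lit 3) (.e (nat_lit 516117) (nat_lit 1) (.e (nat_lit 164166) (nat_lit 152) (.e (nat_lit 1200) (nat_lit 88) .nil))))) .nil))) (.nd (nat_lit 5) 
(.lf (nat_lit 64281) (.g (nat_lit 584) (.e (nat_lit 1590) (nat_lit 111) (.e (nat_lit 360467) (nat_lit 3) (.e (nat_lit 516179) (nat_lit 15) .nil))) .nil)) 
(.lf (nat_lit 64313) (.g (nat_lit 3151) (.e (nat_lit 1591) (nat_lit 111) (.e (nat_lit 360466) (nat_lit 3) (.e (nat_lit 516179) (nat_lit 15) (.e (nat_lit 475214) (nat_lit 42) (.e (nat_lit 720924) (nat_lit 20) .nil))))) .nil))))) (.nd (nat_lit 3) (.nd (nat_lit 4) (.nd (nat_lit 5) 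
(.lf (nat_lit 64261) (.g (nat_lit 1903) (.e (nat_lit 1589) (nat_lit 111) (.e (nat_lit 360492) (nat_lit 22) (.e (nat_lit 778466) (nat_lit 11) (.e (nat_lit 24639) (nat_lit 10) (.e (nat_lit 344177) (nat_lit 43) (.e (nat_lit 770058) (nat_lit 5) .nil)))))) (.g (nat_lit 4) .nil .nil))) 
(.lf (nat_lit 64293) (.g (nat_lit 1285) (.e (nat_lit 1591) (nat_lit 111) (.e (nat_lit 360449) (nat_lit 0) (.e (nat_lit 7266) (nat_lit 384) (.e (nat_lit 57426) (nat_lit 15) .nil)))) .nil))) (.nd (nat_lit 5) 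
(.lf (nat_lit 64277) (.g (nat_lit 2165) (.e (nat_lit 1590) (nat_lit 111) (.e (nat_lit 360467) (nat_lit 3) (.e (nat_lit 516139) (nat_lit 7) (.e (nat_lit 409645) (nat_lit 18) .nil)))) .nil)) 
(.lf (nat_lit 64309) (.g (nat_lit 1025) (.e (nat_lit 1591) (nat_lit 111) (.e (nat_lit 360466) (nat_lit 3) (.e (nat_lit 516179) (nat_lit 15) (.e (nat_lit 475214) (nat_lit 42) .nil)))) .nil)))) (.nd (nat_lit 4) (.nd (nat_lit 5) 
(.lf (nat_lit 64269) (.g (nat_lit 906) (.e (nat_lit 1589) (nat_lit 111) (.e (nat_lit 360493) (nat_lit 27) (.e (nat_lit 819221) (nat_lit 6) (.e (nat_lit 188440) (nat_lit 20) (.e (nat_lit 3288) (nat_lit 201) (.e (nat_lit 565252) (nat_lit 0) .nil)))))) (.g (nat_lit 4) .nil .nil))) 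
(.lf (nat_lit 64301) (.g (nat_lit 1542) (.e (nat_lit 1591) (nat_lit 111) (.e (nat_lit 360466) (nat_lit 3) (.e (nat_lit 516146) (nat_lit 9) (.e (nat_lit 426363) (nat_lit 15) .nil)))) .nil))) (.nd (nat_lit 5) 
(.lf (nat_lit 64285) (.g (nat_lit 2077) (.e (nat_lit 1590) (nat_lit 111) (.e (nat_lit 360471) (nat_lit 7) (.e (nat_lit 548889) (nat_lit 9) (.e (nat_lit 65586) (nat_lit 7) .nil)))) .nil)) 
(.lf (nat_lit 64317) (.g (nat_lit 4762) (.e (nat_lit 1591) (nat_lit 111) (.e (nat_lit 360473) (nat_lit 8) (.e (nat_lit 557090) (nat_lit 12) (.e (nat_lit 164020) (nat_lit 45) (.e (nat_lit 696344) (nat_lit 8) (.e (nat_lit 172064) (nat_lit 2) (.e (nat_lit 204544) (nat_lit 9) .nil))))))) (.g (nat_lit 5) .nil .nil))))))) (.nd (nat_lit 2) (.nd (nat_lit 3) (.nd (nat_lit 4) (.nd (nat_lit 5) 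
(.lf (nat_lit 64259) (.g (nat_lit 1797) (.e (nat_lit 1589) (nat_lit 111) (.e (nat_lit 360492) (nat_lit 22) (.e (nat_lit 778466) (nat_lit 11) (.e (nat_lit 24628) (nat_lit 9) (.e (nat_lit 335878) (nat_lit 0) (.e (nat_lit 2283) (nat_lit 150) (.e (nat_lit 770057) (nat_lit 5) .nil))))))) (.g (nat_lit 4) .nil .nil))) 
(.lf (nat_lit 64291) (.g (nat_lit 3284) (.e (nat_lit 1590) (nat_lit 111) (.e (nat_lit 360491) (nat_lit 22) (.e (nat_lit 778466) (nat_lit 11) (.e (nat_lit 24617) (nat_lit 7) (.e (nat_lit 319505) (nat_lit 10) (.e (nat_lit 720) (nat_lit 64) (.e (nat_lit 688152) (nat_lit 13) .nil))))))) (.g (nat_lit 7) .nil .nil)))) (.nd (nat_lit 5) 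
(.lf (nat_lit 64275) (.g (nat_lit 571) (.e (nat_lit 1590) (nat_lit 111) (.e (nat_lit 360467) (nat_lit 3) (.e (nat_lit 516139) (nat_lit 7) .nil))) .nil)) 
(.lf (nat_lit 64307) (.g (nat_lit 1712) (.e (nat_lit 1591) (nat_lit 111) (.e (nat_lit 360466) (nat_lit 3) (.e (nat_lit 516150) (nat_lit 9) (.e (nat_lit 426467) (nat_lit 24) .nil)))) .nil)))) (.nd (nat_lit 4) (.nd (nat_lit 5) 
(.lf (nat_lit 64267) (.g (nat_lit 1012) (.e (nat_lit 1589) (nat_lit 111) (.e (nat_lit 360493) (nat_lit 27) (.e (nat_lit 819219) (nat_lit 4) (.e (nat_lit 172115) (nat_lit 10) (.e (nat_lit 434241) (nat_lit 27) (.e (nat_lit 565251) (nat_lit 0) .nil)))))) (.g (nat_lit 4) .nil .nil))) 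
(.lf (nat_lit 64299) (.g (nat_lit 1502) (.e (nat_lit 1591) (nat_lit 111) (.e (nat_lit 360466) (nat_lit 3) (.e (nat_lit 516120) (nat_lit 1) (.e (nat_lit 164166) (nat_lit 152) (.e (nat_lit 1196) (nat_lit 88) .nil))))) .nil))) (.nd (nat_lit 5) 
(.lf (nat_lit 64283) (.g (nat_lit 2476) (.e (nat_lit 1590) (nat_lit 111) (.e (nat_lit 360467) (nat_lit 3) (.e (nat_lit 516179) (nat_lit 15) (.e (nat_lit 475211) (nat_lit 41) (.e (nat_lit 712722) (nat_lit 15) .nil))))) .nil)) 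
(.lf (nat_lit 64315) (.g (nat_lit 2298) (.e (nat_lit 1591) (nat_lit 111) (.e (nat_lit 360473) (nat_lit 8) (.e (nat_lit 557089) (nat_lit 12) (.e (nat_lit 163999) (nat_lit 38) (.e (nat_lit 639020) (nat_lit 16) .nil))))) .nil))))) (.nd (nat_lit 3) (.nd (nat_lit 4) (.nd (nat_lit 5) 
(.lf (nat_lit 64263) (.g (nat_lit 2048) (.e (nat_lit 1589) (nat_lit 111) (.e (nat_lit 360492) (nat_lit 22) (.e (nat_lit 778466) (nat_lit 11) (.e (nat_lit 24640) (nat_lit 10) (.e (nat_lit 344176) (nat_lit 43) (.e (nat_lit 770058) (nat_lit 5) .nil)))))) (.g (nat_lit 4) .nil .nil))) 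
(.lf (nat_lit 64295) (.g (nat_lit 658) (.e (nat_lit 1591) (nat_lit 111) (.e (nat_lit 360457) (nat_lit 0) (.e (nat_lit 5949) (nat_lit 322) (.e (nat_lit 57423) (nat_lit 14) .nil)))) .nil))) (.nd (nat_lit 5) 
(.lf (nat_lit 64279) (.g (nat_lit 2233) (.e (nat_lit 1590) (nat_lit 111) (.e (nat_lit 360467) (nat_lit 3) (.e (nat_lit 516142) (nat_lit 8) (.e (nat_lit 417828) (nat_lit 18) (.e (nat_lit 303117) (nat_lit 2) .nil))))) .nil)) 
(.lf (nat_lit 64311) (.g (nat_lit 2908) (.e (nat_lit 1591) (nat_lit 111) (.e (nat_lit 360466) (nat_lit 3) (.e (nat_lit 516179) (nat_lit 15) (.e (nat_lit 475214) (nat_lit 42) (.e (nat_lit 720911) (nat_lit 20) (.e (nat_lit 1860) (nat_lit 124) (.e (nat_lit 564992) (nat_lit 0) .nil))))))) (.g (nat_lit 5) .nil .nil))))) (.nd (nat_lit 4) (.nd (nat_lit 5) 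
(.lf (nat_lit 64271) (.g (nat_lit 1878) (.e (nat_lit 1590) (nat_lit 111) (.e (nat_lit 360453) (nat_lit 0) (.e (nat_lit 5907) (nat_lit 320) (.e (nat_lit 1219) (nat_lit 90) (.e (nat_lit 81933) (nat_lit 20) .nil))))) .nil)) 
(.lf (nat_lit 64303) (.g (nat_lit 3476) (.e (nat_lit 1591) (nat_lit 111) (.e (nat_lit 360466) (nat_lit 3) (.e (nat_lit 516146) (nat_lit 9) (.e (nat_lit 426448) (nat_lit 20) (.e (nat_lit 114703) (nat_lit 20) .nil))))) .nil))) (.nd (nat_lit 5) 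
(.lf (nat_lit 64287) (.g (nat_lit 1624) (.e (nat_lit 1590) (nat_lit 111) (.e (nat_lit 360473) (nat_lit 8) (.e (nat_lit 557087) (nat_lit 11) (.e (nat_lit 24625) (nat_lit 9) .nil)))) .nil)) 
(.lf (nat_lit 64319) (.g (nat_lit 3582) (.e (nat_lit 1591) (nat_lit 111) (.e (nat_lit 360473) (nat_lit 8) (.e (nat_lit 557091) (nat_lit 12) (.e (nat_lit 163999) (nat_lit 38) (.e (nat_lit 639020) (nat_lit 16) (.e (nat_lit 65580) (nat_lit 6) (.e (nat_lit 155392) (nat_lit 0) .nil))))))) (.g (nat_lit 6) .nil .nil)))))))))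

noncomputable def tv882 : DT := (.nd (nat_lit 0) (.nd (nat_lit 1) (.nd (nat_lit 2) (.nd (nat_lit 3) (.nd (nat_lit 4) (.nd (nat_lit 5) 
(.lf (nat_lit 64320) (.g (nat_lit 2186) (.e (nat_lit 1591) (nat_lit 111) (.e (nat_lit 360473) (nat_lit 8) (.e (nat_lit 557091) (nat_lit 12) (.e (nat_lit 164000) (nat_lit 38) .nil)))) .nil)) 
(.lf (nat_lit 64352) (.g (nat_lit 1944) (.e (nat_lit 1591) (nat_lit 111) (.e (nat_lit 360489) (nat_lit 21) (.e (nat_lit 770071) (nat_lit 8) (.e (nat_lit 65617) (nat_lit 10) (.e (nat_lit 344174) (nat_lit 42) (.e (nat_lit 761869) (nat_lit 5) .nil)))))) (.g (nat_lit 5) .nil .nil)))) (.nd (nat_lit 5) 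
(.lf (nat_lit 64336) (.g (nat_lit 836) (.e (nat_lit 1591) (nat_lit 111) (.e (nat_lit 360477) (nat_lit 11) (.e (nat_lit 581652) (nat_lit 5) (.e (nat_lit 180285) (nat_lit 45) (.e (nat_lit 2579) (nat_lit 161) .nil))))) .nil)) 
(.lf (nat_lit 64368) (.g (nat_lit 706) (.e (nat_lit 1591) (nat_lit 111) (.e (nat_lit 360493) (nat_lit 27) (.e (nat_lit 819221) (nat_lit 6) (.e (nat_lit 188427) (nat_lit 20) (.e (nat_lit 3281) (nat_lit 200) (.e (nat_lit 557061) (nat_lit 0) .nil)))))) (.g (nat_lit 6) .nil .nil))))) (.nd (nat_lit 4) (.nd (nat_lit 5) 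
(.lf (nat_lit 64328) (.g (nat_lit 850) (.e (nat_lit 1591) (nat_lit 111) (.e (nat_lit 360477) (nat_lit 11) (.e (nat_lit 581651) (nat_lit 4) (.e (nat_lit 172081) (nat_lit 7) .nil)))) .nil)) 
(.lf (nat_lit 64360) (.g (nat_lit 1772) (.e (nat_lit 1591) (nat_lit 111) (.e (nat_lit 360489) (nat_lit 21) (.e (nat_lit 770072) (nat_lit 8) (.e (nat_lit 65620) (nat_lit 10) (.e (nat_lit 344174) (nat_lit 42) (.e (nat_lit 761867) (nat_lit 5) .nil)))))) (.g (nat_lit 0) .nil .nil)))) (.nd (nat_lit 5) 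
(.lf (nat_lit 64344) (.g (nat_lit 1297) (.e (nat_lit 1591) (nat_lit 111) (.e (nat_lit 360489) (nat_lit 21) (.e (nat_lit 770055) (nat_lit 5) (.e (nat_lit 1598) (nat_lit 111) (.e (nat_lit 360488) (nat_lit 20) (.e (nat_lit 761867) (nat_lit 5) .nil)))))) (.g (nat_lit 6) .nil .nil))) 
(.lf (nat_lit 64376) (.g (nat_lit 1775) (.e (nat_lit 1592) (nat_lit 111) (.e (nat_lit 360449) (nat_lit 0) (.e (nat_lit 7125) (nat_lit 382) (.e (nat_lit 1222) (nat_lit 90) (.e (nat_lit 81943) (nat_lit 20) .nil))))) .nil))))) (.nd (nat_lit 3) (.nd (nat_lit 4) (.nd (nat_lit 5) 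
(.lf (nat_lit 64324) (.g (nat_lit 1783) (.e (nat_lit 1591) (nat_lit 111) (.e (nat_lit 360477) (nat_lit 11) (.e (nat_lit 581651) (nat_lit 4) (.e (nat_lit 172079) (nat_lit 7) (.e (nat_lit 409634) (nat_lit 13) (.e (nat_lit 40965) (nat_lit 0) .nil)))))) (.g (nat_lit 0) .nil .nil))) 
(.lf (nat_lit 64356) (.g (nat_lit 1408) (.e (nat_lit 1591) (nat_lit 111) (.e (nat_lit 360489) (nat_lit 21) (.e (nat_lit 770072) (nat_lit 8) (.e (nat_lit 65610) (nat_lit 10) (.e (nat_lit 344173) (nat_lit 42) .nil))))) .nil))) (.nd (nat_lit 5) 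
(.lf (nat_lit 64340) (.g (nat_lit 460) (.e (nat_lit 1591) (nat_lit 111) (.e (nat_lit 360486) (nat_lit 18) (.e (nat_lit 671747) (nat_lit 0) .nil))) .nil)) 
(.lf (nat_lit 64372) (.g (nat_lit 396) (.e (nat_lit 1591) (nat_lit 111) (.e (nat_lit 360493) (nat_lit 27) (.e (nat_lit 819221) (nat_lit 6) (.e (nat_lit 188430) (nat_lit 20) (.e (nat_lit 3282) (nat_lit 200) (.e (nat_lit 557061) (nat_lit 0) .nil)))))) (.g (nat_lit 0) .nil .nil))))) (.nd (nat_lit 4) (.nd (nat_lit 5) 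
(.lf (nat_lit 64332) (.g (nat_lit 1389) (.e (nat_lit 1591) (nat_lit 111) (.e (nat_lit 360477) (nat_lit 11) (.e (nat_lit 581651) (nat_lit 4) (.e (nat_lit 172082) (nat_lit 7) (.e (nat_lit 409634) (nat_lit 13) (.e (nat_lit 40964) (nat_lit 0) .nil)))))) (.g (nat_lit 4) .nil .nil))) 
(.lf (nat_lit 64364) (.g (nat_lit 1544) (.e (nat_lit 1591) (nat_lit 111) (.e (nat_lit 360492) (nat_lit 22) (.e (nat_lit 778465) (nat_lit 11) (.e (nat_lit 24639) (nat_lit 10) (.e (nat_lit 344174) (nat_lit 42) .nil))))) .nil))) (.nd (nat_lit 5) 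
(.lf (nat_lit 64348) (.g (nat_lit 1940) (.e (nat_lit 1591) (nat_lit 111) (.e (nat_lit 360489) (nat_lit 21) (.e (nat_lit 770071) (nat_lit 8) (.e (nat_lit 65610) (nat_lit 10) (.e (nat_lit 344174) (nat_lit 42) (.e (nat_lit 761867) (nat_lit 5) .nil)))))) (.g (nat_lit 6) .nil .nil))) 
(.lf (nat_lit 64380) (.g (nat_lit 1249) (.e (nat_lit 1592) (nat_lit 111) (.e (nat_lit 360449) (nat_lit 0) (.e (nat_lit 7266) (nat_lit 384) (.e (nat_lit 57426) (nat_lit 15) .nil)))) .nil)))))) (.nd (nat_lit 2) (.nd (nat_lit 3) (.nd (nat_lit 4) (.nd (nat_lit 5) 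
(.lf (nat_lit 64322) (.g (nat_lit 1145) (.e (nat_lit 1591) (nat_lit 111) (.e (nat_lit 360477) (nat_lit 11) (.e (nat_lit 581651) (nat_lit 4) (.e (nat_lit 172079) (nat_lit 7) (.e (nat_lit 409633) (nat_lit 13) .nil))))) .nil)) 
(.lf (nat_lit 64354) (.g (nat_lit 1741) (.e (nat_lit 1591) (nat_lit 111) (.e (nat_lit 360489) (nat_lit 21) (.e (nat_lit 770071) (nat_lit 8) (.e (nat_lit 65620) (nat_lit 10) (.e (nat_lit 344174) (nat_lit 42) (.e (nat_lit 761867) (nat_lit 5) .nil)))))) (.g (nat_lit 6) .nil .nil)))) (.nd (nat_lit 5) 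
(.lf (nat_lit 64338) (.g (nat_lit 750) (.e (nat_lit 1591) (nat_lit 111) (.e (nat_lit 360477) (nat_lit 11) (.e (nat_lit 581652) (nat_lit 5) (.e (nat_lit 180288) (nat_lit 45) (.e (nat_lit 2579) (nat_lit 161) .nil))))) .nil)) 
(.lf (nat_lit 64370) (.g (nat_lit 393) (.e (nat_lit 1591) (nat_lit 111) (.e (nat_lit 360493) (nat_lit 27) (.e (nat_lit 819221) (nat_lit 6) (.e (nat_lit 188428) (nat_lit 20) (.e (nat_lit 3281) (nat_lit 200) (.e (nat_lit 557061) (nat_lit 0) .nil)))))) (.g (nat_lit 6) .nil .nil))))) (.nd (nat_lit 4) (.nd (nat_lit 5) 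
(.lf (nat_lit 64330) (.g (nat_lit 1526) (.e (nat_lit 1591) (nat_lit 111) (.e (nat_lit 360477) (nat_lit 11) (.e (nat_lit 581651) (nat_lit 4) (.e (nat_lit 172081) (nat_lit 7) (.e (nat_lit 409634) (nat_lit 13) (.e (nat_lit 40965) (nat_lit 0) .nil)))))) (.g (nat_lit 0) .nil .nil))) 
(.lf (nat_lit 64362) (.g (nat_lit 1156) (.e (nat_lit 1591) (nat_lit 111) (.e (nat_lit 360492) (nat_lit 22) (.e (nat_lit 778361) (nat_lit 9) (.e (nat_lit 321) (nat_lit 24) (.e (nat_lit 360488) (nat_lit 20) .nil))))) .nil))) (.nd (nat_lit 5) 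
(.lf (nat_lit 64346) (.g (nat_lit 1230) (.e (nat_lit 1591) (nat_lit 111) (.e (nat_lit 360489) (nat_lit 21) (.e (nat_lit 770056) (nat_lit 5) (.e (nat_lit 1598) (nat_lit 111) (.e (nat_lit 360488) (nat_lit 20) (.e (nat_lit 761867) (nat_lit 5) .nil)))))) (.g (nat_lit 6) .nil .nil))) 
(.lf (nat_lit 64378) (.g (nat_lit 1633) (.e (nat_lit 1592) (nat_lit 111) (.e (nat_lit 360449) (nat_lit 0) (.e (nat_lit 7125) (nat_lit 382) (.e (nat_lit 1224) (nat_lit 90) (.e (nat_lit 81947) (nat_lit 20) .nil))))) .nil))))) (.nd (nat_lit 3) (.nd (nat_lit 4) (.nd (nat_lit 5) 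
(.lf (nat_lit 64326) (.g (nat_lit 1150) (.e (nat_lit 1591) (nat_lit 111) (.e (nat_lit 360477) (nat_lit 11) (.e (nat_lit 581651) (nat_lit 4) (.e (nat_lit 172080) (nat_lit 7) (.e (nat_lit 409634) (nat_lit 13) (.e (nat_lit 40964) (nat_lit 0) .nil)))))) (.g (nat_lit 4) .nil .nil))) 
(.lf (nat_lit 64358) (.g (nat_lit 1673) (.e (nat_lit 1591) (nat_lit 111) (.e (nat_lit 360489) (nat_lit 21) (.e (nat_lit 770072) (nat_lit 8) (.e (nat_lit 65616) (nat_lit 10) (.e (nat_lit 344174) (nat_lit 42) (.e (nat_lit 761867) (nat_lit 5) .nil)))))) (.g (nat_lit 6) .nil .nil)))) (.nd (nat_lit 5) 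
(.lf (nat_lit 64342) (.g (nat_lit 584) (.e (nat_lit 1591) (nat_lit 111) (.e (nat_lit 360486) (nat_lit 18) (.e (nat_lit 671753) (nat_lit 0) (.e (nat_lit 1574) (nat_lit 110) .nil)))) .nil)) 
(.lf (nat_lit 64374) (.g (nat_lit 767) (.e (nat_lit 1591) (nat_lit 111) (.e (nat_lit 360493) (nat_lit 27) (.e (nat_lit 819221) (nat_lit 6) (.e (nat_lit 188431) (nat_lit 20) (.e (nat_lit 3282) (nat_lit 200) (.e (nat_lit 557061) (nat_lit 0) .nil)))))) (.g (nat_lit 0) .nil .nil))))) (.nd (nat_lit 4) (.nd (nat_lit 5) 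
(.lf (nat_lit 64334) (.g (nat_lit 587) (.e (nat_lit 1591) (nat_lit 111) (.e (nat_lit 360477) (nat_lit 11) (.e (nat_lit 581652) (nat_lit 5) (.e (nat_lit 180284) (nat_lit 45) .nil)))) .nil)) 
(.lf (nat_lit 64366) (.g (nat_lit 1712) (.e (nat_lit 1591) (nat_lit 111) (.e (nat_lit 360492) (nat_lit 22) (.e (nat_lit 778466) (nat_lit 11) (.e (nat_lit 24640) (nat_lit 10) (.e (nat_lit 344174) (nat_lit 42) .nil))))) .nil))) (.nd (nat_lit 5) 
(.lf (nat_lit 64350) (.g (nat_lit 1628) (.e (nat_lit 1591) (nat_lit 111) (.e (nat_lit 360489) (nat_lit 21) (.e (nat_lit 770071) (nat_lit 8) (.e (nat_lit 65616) (nat_lit 10) (.e (nat_lit 344174) (nat_lit 42) (.e (nat_lit 761866) (nat_lit 5) .nil)))))) (.g (nat_lit 5) .nil .nil))) 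
(.lf (nat_lit 64382) (.g (nat_lit 1571) (.e (nat_lit 1592) (nat_lit 111) (.e (nat_lit 360452) (nat_lit 0) (.e (nat_lit 5907) (nat_lit 320) (.e (nat_lit 1199) (nat_lit 88) .nil)))) .nil))))))) (.nd (nat_lit 1) (.nd (nat_lit 2) (.nd (nat_lit 3) (.nd (nat_lit 4) (.nd (nat_lit 5) 
(.lf (nat_lit 64321) (.g (nat_lit 901) (.e (nat_lit 1591) (nat_lit 111) (.e (nat_lit 360477) (nat_lit 11) (.e (nat_lit 581651) (nat_lit 4) (.e (nat_lit 172052) (nat_lit 0) .nil)))) .nil)) 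
(.lf (nat_lit 64353) (.g (nat_lit 2089) (.e (nat_lit 1591) (nat_lit 111) (.e (nat_lit 360489) (nat_lit 21) (.e (nat_lit 770071) (nat_lit 8) (.e (nat_lit 65619) (nat_lit 10) (.e (nat_lit 344174) (nat_lit 42) (.e (nat_lit 761867) (nat_lit 5) .nil)))))) (.g (nat_lit 5) .nil .nil)))) (.nd (nat_lit 5) 
(.lf (nat_lit 64337) (.g (nat_lit 837) (.e (nat_lit 1591) (nat_lit 111) (.e (nat_lit 360477) (nat_lit 11) (.e (nat_lit 581652) (nat_lit 5) (.e (nat_lit 180285) (nat_lit 45) (.e (nat_lit 2580) (nat_lit 161) .nil))))) .nil)) 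
(.lf (nat_lit 64369) (.g (nat_lit 626) (.e (nat_lit 1591) (nat_lit 111) (.e (nat_lit 360493) (nat_lit 27) (.e (nat_lit 819221) (nat_lit 6) (.e (nat_lit 188427) (nat_lit 20) (.e (nat_lit 3282) (nat_lit 200) (.e (nat_lit 557061) (nat_lit 0) .nil)))))) (.g (nat_lit 0) .nil .nil))))) (.nd (nat_lit 4) (.nd (nat_lit 5) 
(.lf (nat_lit 64329) (.g (nat_lit 1047) (.e (nat_lit 1591) (nat_lit 111) (.e (nat_lit 360477) (nat_lit 11) (.e (nat_lit 581651) (nat_lit 4) (.e (nat_lit 172081) (nat_lit 7) (.e (nat_lit 409634) (nat_lit 13) (.e (nat_lit 40964) (nat_lit 0) .nil)))))) (.g (nat_lit 4) .nil .nil))) 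
(.lf (nat_lit 64361) (.g (nat_lit 277) (.e (nat_lit 1591) (nat_lit 111) (.e (nat_lit 360492) (nat_lit 22) (.e (nat_lit 778359) (nat_lit 9) .nil))) .nil))) (.nd (nat_lit 5) 
(.lf (nat_lit 64345) (.g (nat_lit 1154) (.e (nat_lit 1591) (nat_lit 111) (.e (nat_lit 360489) (nat_lit 21) (.e (nat_lit 770056) (nat_lit 5) (.e (nat_lit 1598) (nat_lit 111) (.e (nat_lit 360488) (nat_lit 20) (.e (nat_lit 761866) (nat_lit 5) .nil)))))) (.g (nat_lit 5) .nil .nil))) 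
(.lf (nat_lit 64377) (.g (nat_lit 1670) (.e (nat_lit 1592) (nat_lit 111) (.e (nat_lit 360449) (nat_lit 0) (.e (nat_lit 7125) (nat_lit 382) (.e (nat_lit 1224) (nat_lit 90) (.e (nat_lit 81946) (nat_lit 20) .nil))))) .nil))))) (.nd (nat_lit 3) (.nd (nat_lit 4) (.nd (nat_lit 5) 
(.lf (nat_lit 64325) (.g (nat_lit 832) (.e (nat_lit 1591) (nat_lit 111) (.e (nat_lit 360477) (nat_lit 11) (.e (nat_lit 581651) (nat_lit 4) (.e (nat_lit 172080) (nat_lit 7) .nil)))) .nil)) 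
(.lf (nat_lit 64357) (.g (nat_lit 1589) (.e (nat_lit 1591) (nat_lit 111) (.e (nat_lit 360489) (nat_lit 21) (.e (nat_lit 770072) (nat_lit 8) (.e (nat_lit 65610) (nat_lit 10) (.e (nat_lit 344173) (nat_lit 42) (.e (nat_lit 761869) (nat_lit 5) .nil)))))) (.g (nat_lit 5) .nil .nil)))) (.nd (nat_lit 5) 
(.lf (nat_lit 64341) (.g (nat_lit 739) (.e (nat_lit 1591) (nat_lit 111) (.e (nat_lit 360486) (nat_lit 18) (.e (nat_lit 671753) (nat_lit 0) (.e (nat_lit 1555) (nat_lit 110) (.e (nat_lit 352270) (nat_lit 8) .nil))))) .nil)) 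
(.lf (nat_lit 64373) (.g (nat_lit 781) (.e (nat_lit 1591) (nat_lit 111) (.e (nat_lit 360493) (nat_lit 27) (.e (nat_lit 819221) (nat_lit 6) (.e (nat_lit 188431) (nat_lit 20) (.e (nat_lit 3281) (nat_lit 200) (.e (nat_lit 557061) (nat_lit 0) .nil)))))) (.g (nat_lit 6) .nil .nil))))) (.nd (nat_lit 4) (.nd (nat_lit 5) 
(.lf (nat_lit 64333) (.g (nat_lit 1870) (.e (nat_lit 1591) (nat_lit 111) (.e (nat_lit 360477) (nat_lit 11) (.e (nat_lit 581651) (nat_lit 4) (.e (nat_lit 172082) (nat_lit 7) (.e (nat_lit 409634) (nat_lit 13) (.e (nat_lit 40965) (nat_lit 0) .nil)))))) (.g (nat_lit 0) .nil .nil))) 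
(.lf (nat_lit 64365) (.g (nat_lit 1133) (.e (nat_lit 1591) (nat_lit 111) (.e (nat_lit 360492) (nat_lit 22) (.e (nat_lit 778466) (nat_lit 11) (.e (nat_lit 24639) (nat_lit 10) (.e (nat_lit 344174) (nat_lit 42) .nil))))) .nil))) (.nd (nat_lit 5) 
(.lf (nat_lit 64349) (.g (nat_lit 1700) (.e (nat_lit 1591) (nat_lit 111) (.e (nat_lit 360489) (nat_lit 21) (.e (nat_lit 770071) (nat_lit 8) (.e (nat_lit 65611) (nat_lit 10) (.e (nat_lit 344174) (nat_lit 42) (.e (nat_lit 761869) (nat_lit 5) .nil)))))) (.g (nat_lit 5) .nil .nil))) 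
(.lf (nat_lit 64381) (.g (nat_lit 1269) (.e (nat_lit 1592) (nat_lit 111) (.e (nat_lit 360449) (nat_lit 0) (.e (nat_lit 7266) (nat_lit 384) (.e (nat_lit 57427) (nat_lit 15) .nil)))) .nil)))))) (.nd (nat_lit 2) (.nd (nat_lit 3) (.nd (nat_lit 4) (.nd (nat_lit 5) 
(.lf (nat_lit 64323) (.g (nat_lit 1068) (.e (nat_lit 1591) (nat_lit 111) (.e (nat_lit 360477) (nat_lit 11) (.e (nat_lit 581651) (nat_lit 4) (.e (nat_lit 172079) (nat_lit 7) (.e (nat_lit 409634) (nat_lit 13) .nil))))) .nil)) 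
(.lf (nat_lit 64355) (.g (nat_lit 917) (.e (nat_lit 1591) (nat_lit 111) (.e (nat_lit 360489) (nat_lit 21) (.e (nat_lit 770072) (nat_lit 8) (.e (nat_lit 65609) (nat_lit 10) .nil)))) .nil))) (.nd (nat_lit 5) 
(.lf (nat_lit 64339) (.g (nat_lit 750) (.e (nat_lit 1591) (nat_lit 111) (.e (nat_lit 360477) (nat_lit 11) (.e (nat_lit 581652) (nat_lit 5) (.e (nat_lit 180288) (nat_lit 45) (.e (nat_lit 2580) (nat_lit 161) .nil))))) .nil)) 
(.lf (nat_lit 64371) (.g (nat_lit 403) (.e (nat_lit 1591) (nat_lit 111) (.e (nat_lit 360493) (nat_lit 27) (.e (nat_lit 819221) (nat_lit 6) (.e (nat_lit 188428) (nat_lit 20) (.e (nat_lit 3282) (nat_lit 200) (.e (nat_lit 557061) (nat_lit 0) .nil)))))) (.g (nat_lit 0) .nil .nil))))) (.nd (nat_lit 4) (.nd (nat_lit 5) 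
(.lf (nat_lit 64331) (.g (nat_lit 1328) (.e (nat_lit 1591) (nat_lit 111) (.e (nat_lit 360477) (nat_lit 11) (.e (nat_lit 581651) (nat_lit 4) (.e (nat_lit 172082) (nat_lit 7) (.e (nat_lit 409634) (nat_lit 13) .nil))))) .nil)) 
(.lf (nat_lit 64363) (.g (nat_lit 773) (.e (nat_lit 1591) (nat_lit 111) (.e (nat_lit 360492) (nat_lit 22) (.e (nat_lit 778361) (nat_lit 9) (.e (nat_lit 324) (nat_lit 24) .nil)))) .nil))) (.nd (nat_lit 5) 
(.lf (nat_lit 64347) (.g (nat_lit 1440) (.e (nat_lit 1591) (nat_lit 111) (.e (nat_lit 360489) (nat_lit 21) (.e (nat_lit 770071) (nat_lit 8) (.e (nat_lit 65610) (nat_lit 10) (.e (nat_lit 344173) (nat_lit 42) .nil))))) .nil)) 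
(.lf (nat_lit 64379) (.g (nat_lit 1572) (.e (nat_lit 1592) (nat_lit 111) (.e (nat_lit 360449) (nat_lit 0) (.e (nat_lit 7265) (nat_lit 384) (.e (nat_lit 57412) (nat_lit 12) (.e (nat_lit 336176) (nat_lit 10) .nil))))) .nil))))) (.nd (nat_lit 3) (.nd (nat_lit 4) (.nd (nat_lit 5) 
(.lf (nat_lit 64327) (.g (nat_lit 1643) (.e (nat_lit 1591) (nat_lit 111) (.e (nat_lit 360477) (nat_lit 11) (.e (nat_lit 581651) (nat_lit 4) (.e (nat_lit 172080) (nat_lit 7) (.e (nat_lit 409634) (nat_lit 13) (.e (nat_lit 40965) (nat_lit 0) .nil)))))) (.g (nat_lit 0) .nil .nil))) 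
(.lf (nat_lit 64359) (.g (nat_lit 2116) (.e (nat_lit 1591) (nat_lit 111) (.e (nat_lit 360489) (nat_lit 21) (.e (nat_lit 770072) (nat_lit 8) (.e (nat_lit 65619) (nat_lit 10) (.e (nat_lit 344174) (nat_lit 42) (.e (nat_lit 761867) (nat_lit 5) .nil)))))) (.g (nat_lit 6) .nil .nil)))) (.nd (nat_lit 5) 
(.lf (nat_lit 64343) (.g (nat_lit 1221) (.e (nat_lit 1591) (nat_lit 111) (.e (nat_lit 360489) (nat_lit 21) (.e (nat_lit 770055) (nat_lit 5) (.e (nat_lit 1598) (nat_lit 111) (.e (nat_lit 360488) (nat_lit 20) (.e (nat_lit 761866) (nat_lit 5) .nil)))))) (.g (nat_lit 5) .nil .nil))) 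
(.lf (nat_lit 64375) (.g (nat_lit 1874) (.e (nat_lit 1592) (nat_lit 111) (.e (nat_lit 360449) (nat_lit 0) (.e (nat_lit 7122) (nat_lit 382) (.e (nat_lit 1222) (nat_lit 90) (.e (nat_lit 81943) (nat_lit 20) .nil))))) .nil)))) (.nd (nat_lit 4) (.nd (nat_lit 5) 
(.lf (nat_lit 64335) (.g (nat_lit 900) (.e (nat_lit 1591) (nat_lit 111) (.e (nat_lit 360477) (nat_lit 11) (.e (nat_lit 581652) (nat_lit 5) (.e (nat_lit 180285) (nat_lit 45) (.e (nat_lit 2577) (nat_lit 161) .nil))))) .nil)) 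
(.lf (nat_lit 64367) (.g (nat_lit 375) (.e (nat_lit 1591) (nat_lit 111) (.e (nat_lit 360493) (nat_lit 27) (.e (nat_lit 819203) (nat_lit 0) (.e (nat_lit 3021) (nat_lit 187) (.e (nat_lit 458496) (nat_lit 8) (.e (nat_lit 557061) (nat_lit 0) .nil)))))) (.g (nat_lit 4) .nil .nil)))) (.nd (nat_lit 5) 
(.lf (nat_lit 64351) (.g (nat_lit 2057) (.e (nat_lit 1591) (nat_lit 111) (.e (nat_lit 360489) (nat_lit 21) (.e (nat_lit 770071) (nat_lit 8) (.e (nat_lit 65617) (nat_lit 10) (.e (nat_lit 344174) (nat_lit 42) (.e (nat_lit 761867) (nat_lit 5) .nil)))))) (.g (nat_lit 6) .nil .nil))) 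
(.lf (nat_lit 64383) (.g (nat_lit 1612) (.e (nat_lit 1592) (nat_lit 111) (.e (nat_lit 360452) (nat_lit 0) (.e (nat_lit 5907) (nat_lit 320) (.e (nat_lit 1200) (nat_lit 88) .nil)))) .nil))))))))

noncomputable def tv883 : DT := (.nd (nat_lit 0) (.nd (nat_lit 1) (.nd (nat_lit 2) (.nd (nat_lit 3) (.nd (nat_lit 4) (.nd (nat_lit 5) 
(.lf (nat_lit 64384) (.g (nat_lit 1613) (.e (nat_lit 1592) (nat_lit 111) (.e (nat_lit 360452) (nat_lit 0) (.e (nat_lit 5907) (nat_lit 320) (.e (nat_lit 1219) (nat_lit 90) .nil)))) .nil)) 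
(.lf (nat_lit 64416) (.g (nat_lit 2481) (.e (nat_lit 1592) (nat_lit 111) (.e (nat_lit 360471) (nat_lit 7) (.e (nat_lit 548889) (nat_lit 9) (.e (nat_lit 65611) (nat_lit 10) (.e (nat_lit 344126) (nat_lit 25) (.e (nat_lit 548873) (nat_lit 5) .nil)))))) (.g (nat_lit 6) .nil .nil)))) (.nd (nat_lit 5) 
(.lf (nat_lit 64400) (.g (nat_lit 2222) (.e (nat_lit 1592) (nat_lit 111) (.e (nat_lit 360471) (nat_lit 7) (.e (nat_lit 548873) (nat_lit 5) (.e (nat_lit 1598) (nat_lit 111) (.e (nat_lit 360471) (nat_lit 7) (.e (nat_lit 548874) (nat_lit 5) .nil)))))) (.g (nat_lit 0) .nil .nil))) 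
(.lf (nat_lit 64432) (.g (nat_lit 600) (.e (nat_lit 1592) (nat_lit 111) (.e (nat_lit 360473) (nat_lit 8) (.e (nat_lit 557066) (nat_lit 9) .nil))) .nil)))) (.nd (nat_lit 4) (.nd (nat_lit 5) 
(.lf (nat_lit 64392) (.g (nat_lit 708) (.e (nat_lit 1592) (nat_lit 111) (.e (nat_lit 360466) (nat_lit 3) (.e (nat_lit 516185) (nat_lit 16) .nil))) .nil)) 
(.lf (nat_lit 64424) (.g (nat_lit 3246) (.e (nat_lit 1592) (nat_lit 111) (.e (nat_lit 360471) (nat_lit 7) (.e (nat_lit 548889) (nat_lit 9) (.e (nat_lit 65624) (nat_lit 12) .nil)))) .nil))) (.nd (nat_lit 5) 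
(.lf (nat_lit 64408) (.g (nat_lit 2493) (.e (nat_lit 1592) (nat_lit 111) (.e (nat_lit 360471) (nat_lit 7) (.e (nat_lit 548874) (nat_lit 5) (.e (nat_lit 1598) (nat_lit 111) (.e (nat_lit 360471) (nat_lit 7) (.e (nat_lit 548874) (nat_lit 5) .nil)))))) (.g (nat_lit 0) .nil .nil))) 
(.lf (nat_lit 64440) (.g (nat_lit 1655) (.e (nat_lit 1592) (nat_lit 111) (.e (nat_lit 360473) (nat_lit 8) (.e (nat_lit 557087) (nat_lit 11) (.e (nat_lit 24639) (nat_lit 10) .nil)))) .nil))))) (.nd (nat_lit 3) (.nd (nat_lit 4) (.nd (nat_lit 5) 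
(.lf (nat_lit 64388) (.g (nat_lit 3495) (.e (nat_lit 1592) (nat_lit 111) (.e (nat_lit 360466) (nat_lit 3) (.e (nat_lit 516139) (nat_lit 7) (.e (nat_lit 409645) (nat_lit 18) (.e (nat_lit 303117) (nat_lit 2) .nil))))) .nil)) 
(.lf (nat_lit 64420) (.g (nat_lit 3363) (.e (nat_lit 1592) (nat_lit 111) (.e (nat_lit 360471) (nat_lit 7) (.e (nat_lit 548889) (nat_lit 9) (.e (nat_lit 65617) (nat_lit 10) (.e (nat_lit 344126) (nat_lit 25) (.e (nat_lit 548874) (nat_lit 5) .nil)))))) (.g (nat_lit 0) .nil .nil)))) (.nd (nat_lit 5) 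
(.lf (nat_lit 64404) (.g (nat_lit 1946) (.e (nat_lit 1592) (nat_lit 111) (.e (nat_lit 360471) (nat_lit 7) (.e (nat_lit 548874) (nat_lit 5) (.e (nat_lit 1595) (nat_lit 111) (.e (nat_lit 360471) (nat_lit 7) (.e (nat_lit 548872) (nat_lit 5) .nil)))))) (.g (nat_lit 5) .nil .nil))) 
(.lf (nat_lit 64436) (.g (nat_lit 444) (.e (nat_lit 1592) (nat_lit 111) (.e (nat_lit 360473) (nat_lit 8) (.e (nat_lit 557087) (nat_lit 11) .nil))) .nil)))) (.nd (nat_lit 4) (.nd (nat_lit 5) 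
(.lf (nat_lit 64396) (.g (nat_lit 2154) (.e (nat_lit 1592) (nat_lit 111) (.e (nat_lit 360471) (nat_lit 7) (.e (nat_lit 548873) (nat_lit 5) (.e (nat_lit 1595) (nat_lit 111) (.e (nat_lit 360471) (nat_lit 7) (.e (nat_lit 548873) (nat_lit 5) .nil)))))) (.g (nat_lit 6) .nil .nil))) 
(.lf (nat_lit 64428) (.g (nat_lit 2036) (.e (nat_lit 1592) (nat_lit 111) (.e (nat_lit 360471) (nat_lit 7) (.e (nat_lit 548891) (nat_lit 11) (.e (nat_lit 81943) (nat_lit 20) (.e (nat_lit 1842) (nat_lit 123) (.e (nat_lit 548872) (nat_lit 5) .nil)))))) (.g (nat_lit 0) .nil .nil)))) (.nd (nat_lit 5) 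
(.lf (nat_lit 64412) (.g (nat_lit 2135) (.e (nat_lit 1592) (nat_lit 111) (.e (nat_lit 360471) (nat_lit 7) (.e (nat_lit 548889) (nat_lit 9) (.e (nat_lit 65586) (nat_lit 7) (.e (nat_lit 319519) (nat_lit 12) .nil))))) .nil)) 
(.lf (nat_lit 64444) (.g (nat_lit 3437) (.e (nat_lit 1592) (nat_lit 111) (.e (nat_lit 360473) (nat_lit 8) (.e (nat_lit 557090) (nat_lit 12) (.e (nat_lit 164020) (nat_lit 45) (.e (nat_lit 696344) (nat_lit 8) .nil))))) .nil)))))) (.nd (nat_lit 2) (.nd (nat_lit 3) (.nd (nat_lit 4) (.nd (nat_lit 5) 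
(.lf (nat_lit 64386) (.g (nat_lit 598) (.e (nat_lit 1592) (nat_lit 111) (.e (nat_lit 360464) (nat_lit 2) (.e (nat_lit 507923) (nat_lit 6) (.e (nat_lit 286754) (nat_lit 10) .nil)))) .nil)) 
(.lf (nat_lit 64418) (.g (nat_lit 2400) (.e (nat_lit 1592) (nat_lit 111) (.e (nat_lit 360471) (nat_lit 7) (.e (nat_lit 548889) (nat_lit 9) (.e (nat_lit 65616) (nat_lit 10) (.e (nat_lit 344126) (nat_lit 25) (.e (nat_lit 548872) (nat_lit 5) .nil)))))) (.g (nat_lit 5) .nil .nil)))) (.nd (nat_lit 5) 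
(.lf (nat_lit 64402) (.g (nat_lit 2882) (.e (nat_lit 1592) (nat_lit 111) (.e (nat_lit 360471) (nat_lit 7) (.e (nat_lit 548874) (nat_lit 5) (.e (nat_lit 1589) (nat_lit 111) (.e (nat_lit 360471) (nat_lit 7) (.e (nat_lit 548874) (nat_lit 5) .nil)))))) (.g (nat_lit 0) .nil .nil))) 
(.lf (nat_lit 64434) (.g (nat_lit 1120) (.e (nat_lit 1592) (nat_lit 111) (.e (nat_lit 360473) (nat_lit 8) (.e (nat_lit 557068) (nat_lit 9) (.e (nat_lit 251) (nat_lit 21) .nil)))) .nil)))) (.nd (nat_lit 4) (.nd (nat_lit 5) 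
(.lf (nat_lit 64394) (.g (nat_lit 2029) (.e (nat_lit 1592) (nat_lit 111) (.e (nat_lit 360471) (nat_lit 7) (.e (nat_lit 548872) (nat_lit 5) (.e (nat_lit 1598) (nat_lit 111) (.e (nat_lit 360471) (nat_lit 7) (.e (nat_lit 548874) (nat_lit 5) .nil)))))) (.g (nat_lit 6) .nil .nil))) 
(.lf (nat_lit 64426) (.g (nat_lit 1690) (.e (nat_lit 1592) (nat_lit 111) (.e (nat_lit 360471) (nat_lit 7) (.e (nat_lit 548891) (nat_lit 11) (.e (nat_lit 81939) (nat_lit 20) (.e (nat_lit 1842) (nat_lit 123) (.e (nat_lit 548873) (nat_lit 5) .nil)))))) (.g (nat_lit 6) .nil .nil)))) (.nd (nat_lit 5) 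
(.lf (nat_lit 64410) (.g (nat_lit 1675) (.e (nat_lit 1592) (nat_lit 111) (.e (nat_lit 360471) (nat_lit 7) (.e (nat_lit 548889) (nat_lit 9) (.e (nat_lit 65584) (nat_lit 7) .nil)))) .nil)) 
(.lf (nat_lit 64442) (.g (nat_lit 1406) (.e (nat_lit 1592) (nat_lit 111) (.e (nat_lit 360473) (nat_lit 8) (.e (nat_lit 557090) (nat_lit 12) .nil))) .nil))))) (.nd (nat_lit 3) (.nd (nat_lit 4) (.nd (nat_lit 5) 
(.lf (nat_lit 64390) (.g (nat_lit 4120) (.e (nat_lit 1592) (nat_lit 111) (.e (nat_lit 360466) (nat_lit 3) (.e (nat_lit 516179) (nat_lit 15) (.e (nat_lit 475198) (nat_lit 40) (.e (nat_lit 704589) (nat_lit 3) (.e (nat_lit 163975) (nat_lit 30) (.e (nat_lit 573451) (nat_lit 9) .nil))))))) (.g (nat_lit 7) .nil .nil))) 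
(.lf (nat_lit 64422) (.g (nat_lit 3021) (.e (nat_lit 1592) (nat_lit 111) (.e (nat_lit 360471) (nat_lit 7) (.e (nat_lit 548889) (nat_lit 9) (.e (nat_lit 65619) (nat_lit 10) (.e (nat_lit 344126) (nat_lit 25) (.e (nat_lit 548873) (nat_lit 5) .nil)))))) (.g (nat_lit 0) .nil .nil)))) (.nd (nat_lit 5) 
(.lf (nat_lit 64406) (.g (nat_lit 2014) (.e (nat_lit 1592) (nat_lit 111) (.e (nat_lit 360471) (nat_lit 7) (.e (nat_lit 548874) (nat_lit 5) (.e (nat_lit 1598) (nat_lit 111) (.e (nat_lit 360471) (nat_lit 7) (.e (nat_lit 548872) (nat_lit 5) .nil)))))) (.g (nat_lit 5) .nil .nil))) 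
(.lf (nat_lit 64438) (.g (nat_lit 1879) (.e (nat_lit 1592) (nat_lit 111) (.e (nat_lit 360473) (nat_lit 8) (.e (nat_lit 557087) (nat_lit 11) (.e (nat_lit 24617) (nat_lit 7) (.e (nat_lit 319504) (nat_lit 10) (.e (nat_lit 7936) (nat_lit 41) (.e (nat_lit 499969) (nat_lit 14) .nil))))))) (.g (nat_lit 4) .nil .nil))))) (.nd (nat_lit 4) (.nd (nat_lit 5) 
(.lf (nat_lit 64398) (.g (nat_lit 1738) (.e (nat_lit 1592) (nat_lit 111) (.e (nat_lit 360471) (nat_lit 7) (.e (nat_lit 548873) (nat_lit 5) (.e (nat_lit 1598) (nat_lit 111) (.e (nat_lit 360471) (nat_lit 7) (.e (nat_lit 548872) (nat_lit 5) .nil)))))) (.g (nat_lit 5) .nil .nil))) 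
(.lf (nat_lit 64430) (.g (nat_lit 1845) (.e (nat_lit 1592) (nat_lit 111) (.e (nat_lit 360471) (nat_lit 7) (.e (nat_lit 548891) (nat_lit 11) (.e (nat_lit 81947) (nat_lit 20) (.e (nat_lit 1841) (nat_lit 123) .nil))))) .nil))) (.nd (nat_lit 5) 
(.lf (nat_lit 64414) (.g (nat_lit 2497) (.e (nat_lit 1592) (nat_lit 111) (.e (nat_lit 360471) (nat_lit 7) (.e (nat_lit 548889) (nat_lit 9) (.e (nat_lit 65610) (nat_lit 10) (.e (nat_lit 344126) (nat_lit 25) (.e (nat_lit 548873) (nat_lit 5) .nil)))))) (.g (nat_lit 0) .nil .nil))) 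
(.lf (nat_lit 64446) (.g (nat_lit 4920) (.e (nat_lit 1592) (nat_lit 111) (.e (nat_lit 360473) (nat_lit 8) (.e (nat_lit 557090) (nat_lit 12) (.e (nat_lit 164020) (nat_lit 45) (.e (nat_lit 696344) (nat_lit 8) (.e (nat_lit 172064) (nat_lit 2) (.e (nat_lit 196625) (nat_lit 9) .nil))))))) (.g (nat_lit 5) .nil .nil)))))))) 
(.nd (nat_lit 1) (.nd (nat_lit 2) (.nd (nat_lit 3) (.nd (nat_lit 4) (.nd (nat_lit 5) 
(.lf (nat_lit 64385) (.g (nat_lit 1585) (.e (nat_lit 1592) (nat_lit 111) (.e (nat_lit 360452) (nat_lit 0) (.e (nat_lit 5907) (nat_lit 320) (.e (nat_lit 1221) (nat_lit 90) .nil)))) .nil)) 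
(.lf (nat_lit 64417) (.g (nat_lit 3097) (.e (nat_lit 1592) (nat_lit 111) (.e (nat_lit 360471) (nat_lit 7) (.e (nat_lit 548889) (nat_lit 9) (.e (nat_lit 65611) (nat_lit 10) (.e (nat_lit 344126) (nat_lit 25) (.e (nat_lit 548874) (nat_lit 5) .nil)))))) (.g (nat_lit 0) .nil .nil)))) (.nd (nat_lit 5) 
(.lf (nat_lit 64401) (.g (nat_lit 1763) (.e (nat_lit 1592) (nat_lit 111) (.e (nat_lit 360471) (nat_lit 7) (.e (nat_lit 548874) (nat_lit 5) (.e (nat_lit 1589) (nat_lit 111) (.e (nat_lit 360471) (nat_lit 7) (.e (nat_lit 548872) (nat_lit 5) .nil)))))) (.g (nat_lit 4) .nil .nil))) 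
(.lf (nat_lit 64433) (.g (nat_lit 1411) (.e (nat_lit 1592) (nat_lit 111) (.e (nat_lit 360473) (nat_lit 8) (.e (nat_lit 557066) (nat_lit 9) (.e (nat_lit 314) (nat_lit 23) .nil)))) .nil)))) (.nd (nat_lit 4) (.nd (nat_lit 5) 
(.lf (nat_lit 64393) (.g (nat_lit 514) (.e (nat_lit 1592) (nat_lit 111) (.e (nat_lit 360471) (nat_lit 7) (.e (nat_lit 548872) (nat_lit 5) .nil))) .nil)) 
(.lf (nat_lit 64425) (.g (nat_lit 2017) (.e (nat_lit 1592) (nat_lit 111) (.e (nat_lit 360471) (nat_lit 7) (.e (nat_lit 548891) (nat_lit 11) (.e (nat_lit 81938) (nat_lit 20) (.e (nat_lit 1842) (nat_lit 123) (.e (nat_lit 548872) (nat_lit 5) .nil)))))) (.g (nat_lit 6) .nil .nil)))) (.nd (nat_lit 5) 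
(.lf (nat_lit 64409) (.g (nat_lit 2333) (.e (nat_lit 1592) (nat_lit 111) (.e (nat_lit 360471) (nat_lit 7) (.e (nat_lit 548874) (nat_lit 5) (.e (nat_lit 1599) (nat_lit 111) (.e (nat_lit 360471) (nat_lit 7) (.e (nat_lit 548874) (nat_lit 5) .nil)))))) (.g (nat_lit 0) .nil .nil))) 
(.lf (nat_lit 64441) (.g (nat_lit 1826) (.e (nat_lit 1592) (nat_lit 111) (.e (nat_lit 360473) (nat_lit 8) (.e (nat_lit 557087) (nat_lit 11) (.e (nat_lit 24641) (nat_lit 10) .nil)))) .nil))))) (.nd (nat_lit 3) (.nd (nat_lit 4) (.nd (nat_lit 5) 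
(.lf (nat_lit 64389) (.g (nat_lit 1872) (.e (nat_lit 1592) (nat_lit 111) (.e (nat_lit 360466) (nat_lit 3) (.e (nat_lit 516179) (nat_lit 15) (.e (nat_lit 475197) (nat_lit 40) (.e (nat_lit 704589) (nat_lit 3) .nil))))) .nil)) 
(.lf (nat_lit 64421) (.g (nat_lit 3017) (.e (nat_lit 1592) (nat_lit 111) (.e (nat_lit 360471) (nat_lit 7) (.e (nat_lit 548889) (nat_lit 9) (.e (nat_lit 65619) (nat_lit 10) (.e (nat_lit 344126) (nat_lit 25) (.e (nat_lit 548872) (nat_lit 5) .nil)))))) (.g (nat_lit 6) .nil .nil)))) (.nd (nat_lit 5) 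
(.lf (nat_lit 64405) (.g (nat_lit 2366) (.e (nat_lit 1592) (nat_lit 111) (.e (nat_lit 360471) (nat_lit 7) (.e (nat_lit 548874) (nat_lit 5) (.e (nat_lit 1595) (nat_lit 111) (.e (nat_lit 360471) (nat_lit 7) (.e (nat_lit 548873) (nat_lit 5) .nil)))))) (.g (nat_lit 6) .nil .nil))) 
(.lf (nat_lit 64437) (.g (nat_lit 1561) (.e (nat_lit 1592) (nat_lit 111) (.e (nat_lit 360473) (nat_lit 8) (.e (nat_lit 557087) (nat_lit 11) (.e (nat_lit 24617) (nat_lit 7) .nil)))) .nil)))) (.nd (nat_lit 4) (.nd (nat_lit 5) 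
(.lf (nat_lit 64397) (.g (nat_lit 2428) (.e (nat_lit 1592) (nat_lit 111) (.e (nat_lit 360471) (nat_lit 7) (.e (nat_lit 548873) (nat_lit 5) (.e (nat_lit 1595) (nat_lit 111) (.e (nat_lit 360471) (nat_lit 7) (.e (nat_lit 548874) (nat_lit 5) .nil)))))) (.g (nat_lit 0) .nil .nil))) 
(.lf (nat_lit 64429) (.g (nat_lit 1880) (.e (nat_lit 1592) (nat_lit 111) (.e (nat_lit 360471) (nat_lit 7) (.e (nat_lit 548891) (nat_lit 11) (.e (nat_lit 81946) (nat_lit 20) (.e (nat_lit 1842) (nat_lit 123) (.e (nat_lit 548872) (nat_lit 5) .nil)))))) (.g (nat_lit 5) .nil .nil)))) (.nd (nat_lit 5) 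
(.lf (nat_lit 64413) (.g (nat_lit 2430) (.e (nat_lit 1592) (nat_lit 111) (.e (nat_lit 360471) (nat_lit 7) (.e (nat_lit 548889) (nat_lit 9) (.e (nat_lit 65610) (nat_lit 10) (.e (nat_lit 344126) (nat_lit 25) (.e (nat_lit 548872) (nat_lit 5) .nil)))))) (.g (nat_lit 6) .nil .nil))) 
(.lf (nat_lit 64445) (.g (nat_lit 4067) (.e (nat_lit 1592) (nat_lit 111) (.e (nat_lit 360473) (nat_lit 8) (.e (nat_lit 557090) (nat_lit 12) (.e (nat_lit 164020) (nat_lit 45) (.e (nat_lit 696344) (nat_lit 8) (.e (nat_lit 172062) (nat_lit 2) (.e (nat_lit 196625) (nat_lit 9) .nil))))))) (.g (nat_lit 4) .nil .nil))))))) (.nd (nat_lit 2) (.nd (nat_lit 3) (.nd (nat_lit 4) (.nd (nat_lit 5) 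
(.lf (nat_lit 64387) (.g (nat_lit 2546) (.e (nat_lit 1592) (nat_lit 111) (.e (nat_lit 360466) (nat_lit 3) (.e (nat_lit 516138) (nat_lit 7) (.e (nat_lit 409646) (nat_lit 18) (.e (nat_lit 303117) (nat_lit 2) (.e (nat_lit 196630) (nat_lit 9) .nil)))))) (.g (nat_lit 4) .nil .nil))) 
(.lf (nat_lit 64419) (.g (nat_lit 2306) (.e (nat_lit 1592) (nat_lit 111) (.e (nat_lit 360471) (nat_lit 7) (.e (nat_lit 548889) (nat_lit 9) (.e (nat_lit 65616) (nat_lit 10) (.e (nat_lit 344126) (nat_lit 25) (.e (nat_lit 548873) (nat_lit 5) .nil)))))) (.g (nat_lit 6) .nil .nil)))) (.nd (nat_lit 5) 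
(.lf (nat_lit 64403) (.g (nat_lit 2364) (.e (nat_lit 1592) (nat_lit 111) (.e (nat_lit 360471) (nat_lit 7) (.e (nat_lit 548874) (nat_lit 5) (.e (nat_lit 1592) (nat_lit 111) (.e (nat_lit 360471) (nat_lit 7) (.e (nat_lit 548874) (nat_lit 5) .nil)))))) (.g (nat_lit 0) .nil .nil))) 
(.lf (nat_lit 64435) (.g (nat_lit 1305) (.e (nat_lit 1592) (nat_lit 111) (.e (nat_lit 360473) (nat_lit 8) (.e (nat_lit 557084) (nat_lit 10) (.e (nat_lit 16128) (nat_lit 225) .nil)))) .nil)))) (.nd (nat_lit 4) (.nd (nat_lit 5) 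
(.lf (nat_lit 64395) (.g (nat_lit 1731) (.e (nat_lit 1592) (nat_lit 111) (.e (nat_lit 360471) (nat_lit 7) (.e (nat_lit 548873) (nat_lit 5) (.e (nat_lit 1595) (nat_lit 111) (.e (nat_lit 360471) (nat_lit 7) (.e (nat_lit 548872) (nat_lit 5) .nil)))))) (.g (nat_lit 5) .nil .nil))) 
(.lf (nat_lit 64427) (.g (nat_lit 1577) (.e (nat_lit 1592) (nat_lit 111) (.e (nat_lit 360471) (nat_lit 7) (.e (nat_lit 548891) (nat_lit 11) (.e (nat_lit 81942) (nat_lit 20) (.e (nat_lit 1842) (nat_lit 123) (.e (nat_lit 548872) (nat_lit 5) .nil)))))) (.g (nat_lit 5) .nil .nil)))) (.nd (nat_lit 5) 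
(.lf (nat_lit 64411) (.g (nat_lit 1718) (.e (nat_lit 1592) (nat_lit 111) (.e (nat_lit 360471) (nat_lit 7) (.e (nat_lit 548889) (nat_lit 9) (.e (nat_lit 65585) (nat_lit 7) .nil)))) .nil)) 
(.lf (nat_lit 64443) (.g (nat_lit 2742) (.e (nat_lit 1592) (nat_lit 111) (.e (nat_lit 360473) (nat_lit 8) (.e (nat_lit 557090) (nat_lit 12) (.e (nat_lit 164020) (nat_lit 45) .nil)))) .nil))))) (.nd (nat_lit 3) (.nd (nat_lit 4) (.nd (nat_lit 5) 
(.lf (nat_lit 64391) (.g (nat_lit 3563) (.e (nat_lit 1592) (nat_lit 111) (.e (nat_lit 360466) (nat_lit 3) (.e (nat_lit 516182) (nat_lit 15) (.e (nat_lit 475198) (nat_lit 40) (.e (nat_lit 704589) (nat_lit 3) (.e (nat_lit 163975) (nat_lit 30) (.e (nat_lit 573451) (nat_lit 9) .nil))))))) (.g (nat_lit 7) .nil .nil))) 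
(.lf (nat_lit 64423) (.g (nat_lit 2569) (.e (nat_lit 1592) (nat_lit 111) (.e (nat_lit 360471) (nat_lit 7) (.e (nat_lit 548889) (nat_lit 9) (.e (nat_lit 65620) (nat_lit 10) (.e (nat_lit 344126) (nat_lit 25) (.e (nat_lit 548873) (nat_lit 5) .nil)))))) (.g (nat_lit 6) .nil .nil)))) (.nd (nat_lit 5) 
(.lf (nat_lit 64407) (.g (nat_lit 2234) (.e (nat_lit 1592) (nat_lit 111) (.e (nat_lit 360471) (nat_lit 7) (.e (nat_lit 548874) (nat_lit 5) (.e (nat_lit 1598) (nat_lit 111) (.e (nat_lit 360471) (nat_lit 7) (.e (nat_lit 548873) (nat_lit 5) .nil)))))) (.g (nat_lit 6) .nil .nil))) 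
(.lf (nat_lit 64439) (.g (nat_lit 1348) (.e (nat_lit 1592) (nat_lit 111) (.e (nat_lit 360473) (nat_lit 8) (.e (nat_lit 557087) (nat_lit 11) (.e (nat_lit 24625) (nat_lit 9) .nil)))) .nil)))) (.nd (nat_lit 4) (.nd (nat_lit 5) 
(.lf (nat_lit 64399) (.g (nat_lit 1961) (.e (nat_lit 1592) (nat_lit 111) (.e (nat_lit 360471) (nat_lit 7) (.e (nat_lit 548873) (nat_lit 5) (.e (nat_lit 1598) (nat_lit 111) (.e (nat_lit 360471) (nat_lit 7) (.e (nat_lit 548873) (nat_lit 5) .nil)))))) (.g (nat_lit 6) .nil .nil))) 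
(.lf (nat_lit 64431) (.g (nat_lit 1266) (.e (nat_lit 1592) (nat_lit 111) (.e (nat_lit 360473) (nat_lit 8) (.e (nat_lit 557065) (nat_lit 9) (.e (nat_lit 324) (nat_lit 24) .nil)))) .nil))) (.nd (nat_lit 5) 
(.lf (nat_lit 64415) (.g (nat_lit 2546) (.e (nat_lit 1592) (nat_lit 111) (.e (nat_lit 360471) (nat_lit 7) (.e (nat_lit 548889) (nat_lit 9) (.e (nat_lit 65611) (nat_lit 10) (.e (nat_lit 344126) (nat_lit 25) (.e (nat_lit 548872) (nat_lit 5) .nil)))))) (.g (nat_lit 5) .nil .nil))) 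
(.lf (nat_lit 64447) (.g (nat_lit 4691) (.e (nat_lit 1592) (nat_lit 111) (.e (nat_lit 360473) (nat_lit 8) (.e (nat_lit 557090) (nat_lit 12) (.e (nat_lit 164020) (nat_lit 45) (.e (nat_lit 696344) (nat_lit 8) (.e (nat_lit 172064) (nat_lit 2) (.e (nat_lit 196630) (nat_lit 9) .nil))))))) (.g (nat_lit 5) .nil .nil)))))))))

noncomputable def tv884 : DT := (.nd (nat_lit 0) (.nd (nat_lit 1) (.nd (nat_lit 2) (.nd (nat_lit 3) (.nd (nat_lit 4) (.nd (nat_lit 5) 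
(.lf (nat_lit 64448) (.g (nat_lit 4472) (.e (nat_lit 1592) (nat_lit 111) (.e (nat_lit 360473) (nat_lit 8) (.e (nat_lit 557090) (nat_lit 12) (.e (nat_lit 164020) (nat_lit 45) (.e (nat_lit 696344) (nat_lit 8) (.e (nat_lit 172138) (nat_lit 15) (.e (nat_lit 7936) (nat_lit 126) (.e (nat_lit 573449) (nat_lit 9) .nil)))))))) (.g (nat_lit 5) .nil .nil))) 
(.lf (nat_lit 64480) (.g (nat_lit 2164) (.e (nat_lit 1592) (nat_lit 111) (.e (nat_lit 360477) (nat_lit 11) (.e (nat_lit 581653) (nat_lit 6) (.e (nat_lit 188439) (nat_lit 20) (.e (nat_lit 3578) (nat_lit 223) (.e (nat_lit 745476) (nat_lit 0) .nil)))))) (.g (nat_lit 0) .nil .nil)))) (.nd (nat_lit 5) 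
(.lf (nat_lit 64464) (.g (nat_lit 509) (.e (nat_lit 1592) (nat_lit 111) (.e (nat_lit 360477) (nat_lit 11) (.e (nat_lit 581635) (nat_lit 0) .nil))) .nil)) 
(.lf (nat_lit 64496) (.g (nat_lit 672) (.e (nat_lit 1592) (nat_lit 111) (.e (nat_lit 360480) (nat_lit 14) (.e (nat_lit 639001) (nat_lit 10) (.e (nat_lit 188439) (nat_lit 20) (.e (nat_lit 3390) (nat_lit 210) (.e (nat_lit 639007) (nat_lit 13) .nil)))))) (.g (nat_lit 0) .nil .nil))))) (.nd (nat_lit 4) (.nd (nat_lit 5) 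
(.lf (nat_lit 64456) (.g (nat_lit 1524) (.e (nat_lit 1592) (nat_lit 111) (.e (nat_lit 360473) (nat_lit 8) (.e (nat_lit 557094) (nat_lit 12) (.e (nat_lit 164022) (nat_lit 46) (.e (nat_lit 704738) (nat_lit 11) .nil))))) .nil)) 
(.lf (nat_lit 64488) (.g (nat_lit 910) (.e (nat_lit 1592) (nat_lit 111) (.e (nat_lit 360477) (nat_lit 11) (.e (nat_lit 589568) (nat_lit 6) (.e (nat_lit 188434) (nat_lit 20) (.e (nat_lit 3578) (nat_lit 223) .nil))))) .nil))) (.nd (nat_lit 5) 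
(.lf (nat_lit 64472) (.g (nat_lit 1481) (.e (nat_lit 1592) (nat_lit 111) (.e (nat_lit 360477) (nat_lit 11) (.e (nat_lit 581651) (nat_lit 4) (.e (nat_lit 172113) (nat_lit 10) (.e (nat_lit 434295) (nat_lit 49) (.e (nat_lit 745475) (nat_lit 0) .nil)))))) (.g (nat_lit 4) .nil .nil))) 
(.lf (nat_lit 64504) (.g (nat_lit 602) (.e (nat_lit 1592) (nat_lit 111) (.e (nat_lit 360486) (nat_lit 18) (.e (nat_lit 671760) (nat_lit 4) (.e (nat_lit 65619) (nat_lit 10) .nil)))) .nil))))) (.nd (nat_lit 3) (.nd (nat_lit 4) (.nd (nat_lit 5) 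
(.lf (nat_lit 64452) (.g (nat_lit 1996) (.e (nat_lit 1592) (nat_lit 111) (.e (nat_lit 360473) (nat_lit 8) (.e (nat_lit 557091) (nat_lit 12) (.e (nat_lit 164022) (nat_lit 46) (.e (nat_lit 704738) (nat_lit 11) (.e (nat_lit 16410) (nat_lit 2) (.e (nat_lit 196625) (nat_lit 9) .nil))))))) (.g (nat_lit 4) .nil .nil))) 
(.lf (nat_lit 64484) (.g (nat_lit 2239) (.e (nat_lit 1592) (nat_lit 111) (.e (nat_lit 360477) (nat_lit 11) (.e (nat_lit 581653) (nat_lit 6) (.e (nat_lit 188440) (nat_lit 20) (.e (nat_lit 3578) (nat_lit 223) (.e (nat_lit 745476) (nat_lit 0) .nil)))))) (.g (nat_lit 0) .nil .nil)))) (.nd (nat_lit 5) 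
(.lf (nat_lit 64468) (.g (nat_lit 1172) (.e (nat_lit 1592) (nat_lit 111) (.e (nat_lit 360477) (nat_lit 11) (.e (nat_lit 581636) (nat_lit 0) (.e (nat_lit 3027) (nat_lit 187) (.e (nat_lit 450605) (nat_lit 27) (.e (nat_lit 745475) (nat_lit 0) .nil)))))) (.g (nat_lit 0) .nil .nil))) 
(.lf (nat_lit 64500) (.g (nat_lit 1678) (.e (nat_lit 1592) (nat_lit 111) (.e (nat_lit 360482) (nat_lit 15) (.e (nat_lit 647199) (nat_lit 11) (.e (nat_lit 16449) (nat_lit 10) (.e (nat_lit 434269) (nat_lit 36) .nil))))) .nil)))) (.nd (nat_lit 4) (.nd (nat_lit 5) 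
(.lf (nat_lit 64460) (.g (nat_lit 2447) (.e (nat_lit 1592) (nat_lit 111) (.e (nat_lit 360473) (nat_lit 8) (.e (nat_lit 557119) (nat_lit 18) (.e (nat_lit 2798) (nat_lit 180) (.e (nat_lit 303140) (nat_lit 10) .nil))))) .nil)) 
(.lf (nat_lit 64492) (.g (nat_lit 1178) (.e (nat_lit 1592) (nat_lit 111) (.e (nat_lit 360480) (nat_lit 14) (.e (nat_lit 638999) (nat_lit 8) (.e (nat_lit 172106) (nat_lit 10) (.e (nat_lit 434269) (nat_lit 36) (.e (nat_lit 639007) (nat_lit 13) .nil)))))) (.g (nat_lit 0) .nil .nil)))) (.nd (nat_lit 5) 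
(.lf (nat_lit 64476) (.g (nat_lit 2464) (.e (nat_lit 1592) (nat_lit 111) (.e (nat_lit 360477) (nat_lit 11) (.e (nat_lit 581653) (nat_lit 6) (.e (nat_lit 188434) (nat_lit 20) (.e (nat_lit 3579) (nat_lit 223) (.e (nat_lit 745475) (nat_lit 0) .nil)))))) (.g (nat_lit 6) .nil .nil))) 
(.lf (nat_lit 64508) (.g (nat_lit 2706) (.e (nat_lit 1592) (nat_lit 111) (.e (nat_lit 360486) (nat_lit 18) (.e (nat_lit 671762) (nat_lit 4) (.e (nat_lit 65611) (nat_lit 10) (.e (nat_lit 344168) (nat_lit 40) (.e (nat_lit 671747) (nat_lit 0) .nil)))))) (.g (nat_lit 0) .nil .nil))))))) (.nd (nat_lit 2) (.nd (nat_lit 3) (.nd (nat_lit 4) (.nd (nat_lit 5) 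
(.lf (nat_lit 64450) (.g (nat_lit 1524) (.e (nat_lit 1592) (nat_lit 111) (.e (nat_lit 360473) (nat_lit 8) (.e (nat_lit 557091) (nat_lit 12) (.e (nat_lit 164022) (nat_lit 46) .nil)))) .nil)) 
(.lf (nat_lit 64482) (.g (nat_lit 870) (.e (nat_lit 1592) (nat_lit 111) (.e (nat_lit 360477) (nat_lit 11) (.e (nat_lit 581653) (nat_lit 6) (.e (nat_lit 188440) (nat_lit 20) .nil)))) .nil))) (.nd (nat_lit 5) 
(.lf (nat_lit 64466) (.g (nat_lit 976) (.e (nat_lit 1592) (nat_lit 111) (.e (nat_lit 360477) (nat_lit 11) (.e (nat_lit 581636) (nat_lit 0) (.e (nat_lit 3015) (nat_lit 187) (.e (nat_lit 450605) (nat_lit 27) .nil))))) .nil)) 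
(.lf (nat_lit 64498) (.g (nat_lit 587) (.e (nat_lit 1592) (nat_lit 111) (.e (nat_lit 360481) (nat_lit 15) (.e (nat_lit 647203) (nat_lit 14) (.e (nat_lit 1358) (nat_lit 102) .nil)))) .nil)))) (.nd (nat_lit 4) (.nd (nat_lit 5) 
(.lf (nat_lit 64458) (.g (nat_lit 557) (.e (nat_lit 1592) (nat_lit 111) (.e (nat_lit 360473) (nat_lit 8) (.e (nat_lit 557119) (nat_lit 18) .nil))) .nil)) 
(.lf (nat_lit 64490) (.g (nat_lit 1568) (.e (nat_lit 1592) (nat_lit 111) (.e (nat_lit 360480) (nat_lit 14) (.e (nat_lit 638998) (nat_lit 8) (.e (nat_lit 172106) (nat_lit 10) (.e (nat_lit 434269) (nat_lit 36) (.e (nat_lit 639008) (nat_lit 13) .nil)))))) (.g (nat_lit 6) .nil .nil)))) (.nd (nat_lit 5) 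
(.lf (nat_lit 64474) (.g (nat_lit 2211) (.e (nat_lit 1592) (nat_lit 111) (.e (nat_lit 360477) (nat_lit 11) (.e (nat_lit 581653) (nat_lit 6) (.e (nat_lit 188434) (nat_lit 20) (.e (nat_lit 3578) (nat_lit 223) (.e (nat_lit 745475) (nat_lit 0) .nil)))))) (.g (nat_lit 0) .nil .nil))) 
(.lf (nat_lit 64506) (.g (nat_lit 3030) (.e (nat_lit 1592) (nat_lit 111) (.e (nat_lit 360486) (nat_lit 18) (.e (nat_lit 671762) (nat_lit 4) (.e (nat_lit 65610) (nat_lit 10) (.e (nat_lit 344169) (nat_lit 40) (.e (nat_lit 671747) (nat_lit 0) .nil)))))) (.g (nat_lit 0) .nil .nil)))))) (.nd (nat_lit 3) (.nd (nat_lit 4) (.nd (nat_lit 5) 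
(.lf (nat_lit 64454) (.g (nat_lit 1694) (.e (nat_lit 1592) (nat_lit 111) (.e (nat_lit 360473) (nat_lit 8) (.e (nat_lit 557093) (nat_lit 12) (.e (nat_lit 164022) (nat_lit 46) (.e (nat_lit 704738) (nat_lit 11) .nil))))) .nil)) 
(.lf (nat_lit 64486) (.g (nat_lit 2145) (.e (nat_lit 1592) (nat_lit 111) (.e (nat_lit 360477) (nat_lit 11) (.e (nat_lit 581653) (nat_lit 6) (.e (nat_lit 188441) (nat_lit 20) (.e (nat_lit 3578) (nat_lit 223) (.e (nat_lit 745476) (nat_lit 0) .nil)))))) (.g (nat_lit 0) .nil .nil)))) (.nd (nat_lit 5) 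
(.lf (nat_lit 64470) (.g (nat_lit 1203) (.e (nat_lit 1592) (nat_lit 111) (.e (nat_lit 360477) (nat_lit 11) (.e (nat_lit 581651) (nat_lit 4) (.e (nat_lit 172112) (nat_lit 10) (.e (nat_lit 434295) (nat_lit 49) (.e (nat_lit 745475) (nat_lit 0) .nil)))))) (.g (nat_lit 4) .nil .nil))) 
(.lf (nat_lit 64502) (.g (nat_lit 1085) (.e (nat_lit 1592) (nat_lit 111) (.e (nat_lit 360486) (nat_lit 18) (.e (nat_lit 671747) (nat_lit 0) (.e (nat_lit 1592) (nat_lit 111) (.e (nat_lit 360486) (nat_lit 18) (.e (nat_lit 671748) (nat_lit 0) .nil)))))) (.g (nat_lit 4) .nil .nil))))) (.nd (nat_lit 4) (.nd (nat_lit 5) 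
(.lf (nat_lit 64462) (.g (nat_lit 1637) (.e (nat_lit 1592) (nat_lit 111) (.e (nat_lit 360473) (nat_lit 8) (.e (nat_lit 557119) (nat_lit 18) (.e (nat_lit 2808) (nat_lit 180) .nil)))) .nil)) 
(.lf (nat_lit 64494) (.g (nat_lit 826) (.e (nat_lit 1592) (nat_lit 111) (.e (nat_lit 360480) (nat_lit 14) (.e (nat_lit 638999) (nat_lit 8) (.e (nat_lit 172112) (nat_lit 10) (.e (nat_lit 434269) (nat_lit 36) (.e (nat_lit 639007) (nat_lit 13) .nil)))))) (.g (nat_lit 0) .nil .nil)))) (.nd (nat_lit 5) 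
(.lf (nat_lit 64478) (.g (nat_lit 1549) (.e (nat_lit 1592) (nat_lit 111) (.e (nat_lit 360477) (nat_lit 11) (.e (nat_lit 581653) (nat_lit 6) (.e (nat_lit 188438) (nat_lit 20) (.e (nat_lit 3578) (nat_lit 223) (.e (nat_lit 745475) (nat_lit 0) .nil)))))) (.g (nat_lit 0) .nil .nil))) 
(.lf (nat_lit 64510) (.g (nat_lit 1589) (.e (nat_lit 1592) (nat_lit 111) (.e (nat_lit 360486) (nat_lit 18) (.e (nat_lit 671762) (nat_lit 4) (.e (nat_lit 65616) (nat_lit 10) (.e (nat_lit 344168) (nat_lit 40) .nil))))) .nil))))))) (.nd (nat_lit 1) (.nd (nat_lit 2) (.nd (nat_lit 3) (.nd (nat_lit 4) (.nd (nat_lit 5) 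
(.lf (nat_lit 64449) (.g (nat_lit 3925) (.e (nat_lit 1592) (nat_lit 111) (.e (nat_lit 360473) (nat_lit 8) (.e (nat_lit 557090) (nat_lit 12) (.e (nat_lit 164022) (nat_lit 46) .nil)))) .nil)) 
(.lf (nat_lit 64481) (.g (nat_lit 2327) (.e (nat_lit 1592) (nat_lit 111) (.e (nat_lit 360477) (nat_lit 11) (.e (nat_lit 581653) (nat_lit 6) (.e (nat_lit 188439) (nat_lit 20) (.e (nat_lit 3579) (nat_lit 223) (.e (nat_lit 745475) (nat_lit 0) .nil)))))) (.g (nat_lit 0) .nil .nil)))) (.nd (nat_lit 5) 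
(.lf (nat_lit 64465) (.g (nat_lit 411) (.e (nat_lit 1592) (nat_lit 111) (.e (nat_lit 360477) (nat_lit 11) (.e (nat_lit 581636) (nat_lit 0) .nil))) .nil)) 
(.lf (nat_lit 64497) (.g (nat_lit 980) (.e (nat_lit 1592) (nat_lit 111) (.e (nat_lit 360480) (nat_lit 14) (.e (nat_lit 639001) (nat_lit 10) (.e (nat_lit 188441) (nat_lit 20) (.e (nat_lit 3390) (nat_lit 210) (.e (nat_lit 639007) (nat_lit 13) .nil)))))) (.g (nat_lit 0) .nil .nil))))) (.nd (nat_lit 4) (.nd (nat_lit 5) 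
(.lf (nat_lit 64457) (.g (nat_lit 3105) (.e (nat_lit 1592) (nat_lit 111) (.e (nat_lit 360473) (nat_lit 8) (.e (nat_lit 557094) (nat_lit 12) (.e (nat_lit 164022) (nat_lit 46) (.e (nat_lit 704738) (nat_lit 11) (.e (nat_lit 16412) (nat_lit 2) (.e (nat_lit 196625) (nat_lit 9) .nil))))))) (.g (nat_lit 6) .nil .nil))) 
(.lf (nat_lit 64489) (.g (nat_lit 1534) (.e (nat_lit 1592) (nat_lit 111) (.e (nat_lit 360480) (nat_lit 14) (.e (nat_lit 638998) (nat_lit 8) (.e (nat_lit 172106) (nat_lit 10) (.e (nat_lit 434269) (nat_lit 36) (.e (nat_lit 639007) (nat_lit 13) .nil)))))) (.g (nat_lit 6) .nil .nil)))) (.nd (nat_lit 5) 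
(.lf (nat_lit 64473) (.g (nat_lit 1493) (.e (nat_lit 1592) (nat_lit 111) (.e (nat_lit 360477) (nat_lit 11) (.e (nat_lit 581653) (nat_lit 6) (.e (nat_lit 188434) (nat_lit 20) (.e (nat_lit 3577) (nat_lit 223) .nil))))) .nil)) 
(.lf (nat_lit 64505) (.g (nat_lit 2880) (.e (nat_lit 1592) (nat_lit 111) (.e (nat_lit 360486) (nat_lit 18) (.e (nat_lit 671762) (nat_lit 4) (.e (nat_lit 65610) (nat_lit 10) (.e (nat_lit 344168) (nat_lit 40) (.e (nat_lit 671747) (nat_lit 0) .nil)))))) (.g (nat_lit 0) .nil .nil)))))) (.nd (nat_lit 3) (.nd (nat_lit 4) (.nd (nat_lit 5) 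
(.lf (nat_lit 64453) (.g (nat_lit 1940) (.e (nat_lit 1592) (nat_lit 111) (.e (nat_lit 360473) (nat_lit 8) (.e (nat_lit 557093) (nat_lit 12) (.e (nat_lit 164022) (nat_lit 46) (.e (nat_lit 704737) (nat_lit 11) .nil))))) .nil)) 
(.lf (nat_lit 64485) (.g (nat_lit 2283) (.e (nat_lit 1592) (nat_lit 111) (.e (nat_lit 360477) (nat_lit 11) (.e (nat_lit 581653) (nat_lit 6) (.e (nat_lit 188440) (nat_lit 20) (.e (nat_lit 3579) (nat_lit 223) (.e (nat_lit 745475) (nat_lit 0) .nil)))))) (.g (nat_lit 0) .nil .nil)))) (.nd (nat_lit 5) 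
(.lf (nat_lit 64469) (.g (nat_lit 402) (.e (nat_lit 1592) (nat_lit 111) (.e (nat_lit 360477) (nat_lit 11) (.e (nat_lit 581651) (nat_lit 4) .nil))) .nil)) 
(.lf (nat_lit 64501) (.g (nat_lit 475) (.e (nat_lit 1592) (nat_lit 111) (.e (nat_lit 360486) (nat_lit 18) (.e (nat_lit 671747) (nat_lit 0) .nil))) .nil)))) (.nd (nat_lit 4) (.nd (nat_lit 5) 
(.lf (nat_lit 64461) (.g (nat_lit 1426) (.e (nat_lit 1592) (nat_lit 111) (.e (nat_lit 360473) (nat_lit 8) (.e (nat_lit 557119) (nat_lit 18) (.e (nat_lit 2807) (nat_lit 180) .nil)))) .nil)) 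
(.lf (nat_lit 64493) (.g (nat_lit 914) (.e (nat_lit 1592) (nat_lit 111) (.e (nat_lit 360480) (nat_lit 14) (.e (nat_lit 638999) (nat_lit 8) (.e (nat_lit 172107) (nat_lit 10) (.e (nat_lit 434269) (nat_lit 36) (.e (nat_lit 639007) (nat_lit 13) .nil)))))) (.g (nat_lit 6) .nil .nil)))) (.nd (nat_lit 5) 
(.lf (nat_lit 64477) (.g (nat_lit 1787) (.e (nat_lit 1592) (nat_lit 111) (.e (nat_lit 360477) (nat_lit 11) (.e (nat_lit 581653) (nat_lit 6) (.e (nat_lit 188435) (nat_lit 20) (.e (nat_lit 3578) (nat_lit 223) (.e (nat_lit 745476) (nat_lit 0) .nil)))))) (.g (nat_lit 0) .nil .nil))) 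
(.lf (nat_lit 64509) (.g (nat_lit 2719) (.e (nat_lit 1592) (nat_lit 111) (.e (nat_lit 360486) (nat_lit 18) (.e (nat_lit 671762) (nat_lit 4) (.e (nat_lit 65611) (nat_lit 10) (.e (nat_lit 344169) (nat_lit 40) (.e (nat_lit 671747) (nat_lit 0) .nil)))))) (.g (nat_lit 6) .nil .nil))))))) (.nd (nat_lit 2) (.nd (nat_lit 3) (.nd (nat_lit 4) (.nd (nat_lit 5) 
(.lf (nat_lit 64451) (.g (nat_lit 2089) (.e (nat_lit 1592) (nat_lit 111) (.e (nat_lit 360473) (nat_lit 8) (.e (nat_lit 557091) (nat_lit 12) (.e (nat_lit 164022) (nat_lit 46) (.e (nat_lit 704737) (nat_lit 11) .nil))))) .nil)) 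
(.lf (nat_lit 64483) (.g (nat_lit 1962) (.e (nat_lit 1592) (nat_lit 111) (.e (nat_lit 360477) (nat_lit 11) (.e (nat_lit 581653) (nat_lit 6) (.e (nat_lit 188440) (nat_lit 20) (.e (nat_lit 3578) (nat_lit 223) (.e (nat_lit 745475) (nat_lit 0) .nil)))))) (.g (nat_lit 0) .nil .nil)))) (.nd (nat_lit 5) 
(.lf (nat_lit 64467) (.g (nat_lit 960) (.e (nat_lit 1592) (nat_lit 111) (.e (nat_lit 360477) (nat_lit 11) (.e (nat_lit 581636) (nat_lit 0) (.e (nat_lit 3016) (nat_lit 187) (.e (nat_lit 450605) (nat_lit 27) .nil))))) .nil)) 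
(.lf (nat_lit 64499) (.g (nat_lit 3011) (.e (nat_lit 1592) (nat_lit 111) (.e (nat_lit 360482) (nat_lit 15) (.e (nat_lit 647199) (nat_lit 11) (.e (nat_lit 16448) (nat_lit 10) (.e (nat_lit 434268) (nat_lit 36) (.e (nat_lit 639007) (nat_lit 13) .nil)))))) (.g (nat_lit 5) .nil .nil))))) (.nd (nat_lit 4) (.nd (nat_lit 5) 
(.lf (nat_lit 64459) (.g (nat_lit 1634) (.e (nat_lit 1592) (nat_lit 111) (.e (nat_lit 360473) (nat_lit 8) (.e (nat_lit 557119) (nat_lit 18) (.e (nat_lit 2798) (nat_lit 180) .nil)))) .nil)) 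
(.lf (nat_lit 64491) (.g (nat_lit 1110) (.e (nat_lit 1592) (nat_lit 111) (.e (nat_lit 360480) (nat_lit 14) (.e (nat_lit 638998) (nat_lit 8) (.e (nat_lit 172112) (nat_lit 10) (.e (nat_lit 434269) (nat_lit 36) (.e (nat_lit 639008) (nat_lit 13) .nil)))))) (.g (nat_lit 5) .nil .nil)))) (.nd (nat_lit 5) 
(.lf (nat_lit 64475) (.g (nat_lit 2504) (.e (nat_lit 1592) (nat_lit 111) (.e (nat_lit 360477) (nat_lit 11) (.e (nat_lit 581653) (nat_lit 6) (.e (nat_lit 188434) (nat_lit 20) (.e (nat_lit 3578) (nat_lit 223) (.e (nat_lit 745476) (nat_lit 0) .nil)))))) (.g (nat_lit 0) .nil .nil))) 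
(.lf (nat_lit 64507) (.g (nat_lit 1733) (.e (nat_lit 1592) (nat_lit 111) (.e (nat_lit 360486) (nat_lit 18) (.e (nat_lit 671762) (nat_lit 4) (.e (nat_lit 65611) (nat_lit 10) (.e (nat_lit 344168) (nat_lit 40) (.e (nat_lit 671746) (nat_lit 0) .nil)))))) (.g (nat_lit 4) .nil .nil)))))) (.nd (nat_lit 3) (.nd (nat_lit 4) (.nd (nat_lit 5) 
(.lf (nat_lit 64455) (.g (nat_lit 1619) (.e (nat_lit 1592) (nat_lit 111) (.e (nat_lit 360473) (nat_lit 8) (.e (nat_lit 557094) (nat_lit 12) (.e (nat_lit 164022) (nat_lit 46) (.e (nat_lit 704737) (nat_lit 11) .nil))))) .nil)) 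
(.lf (nat_lit 64487) (.g (nat_lit 497) (.e (nat_lit 1592) (nat_lit 111) (.e (nat_lit 360477) (nat_lit 11) (.e (nat_lit 589568) (nat_lit 6) .nil))) .nil))) (.nd (nat_lit 5) 
(.lf (nat_lit 64471) (.g (nat_lit 2137) (.e (nat_lit 1592) (nat_lit 111) (.e (nat_lit 360477) (nat_lit 11) (.e (nat_lit 581651) (nat_lit 4) (.e (nat_lit 172112) (nat_lit 10) (.e (nat_lit 434295) (nat_lit 49) (.e (nat_lit 745476) (nat_lit 0) .nil)))))) (.g (nat_lit 0) .nil .nil))) 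
(.lf (nat_lit 64503) (.g (nat_lit 484) (.e (nat_lit 1592) (nat_lit 111) (.e (nat_lit 360486) (nat_lit 18) (.e (nat_lit 671753) (nat_lit 0) .nil))) .nil)))) (.nd (nat_lit 4) (.nd (nat_lit 5) 
(.lf (nat_lit 64463) (.g (nat_lit 2259) (.e (nat_lit 1592) (nat_lit 111) (.e (nat_lit 360473) (nat_lit 8) (.e (nat_lit 557119) (nat_lit 18) (.e (nat_lit 2808) (nat_lit 180) (.e (nat_lit 303140) (nat_lit 10) (.e (nat_lit 434295) (nat_lit 49) (.e (nat_lit 745476) (nat_lit 0) .nil))))))) (.g (nat_lit 4) .nil .nil))) 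
(.lf (nat_lit 64495) (.g (nat_lit 1182) (.e (nat_lit 1592) (nat_lit 111) (.e (nat_lit 360480) (nat_lit 14) (.e (nat_lit 638999) (nat_lit 8) (.e (nat_lit 172113) (nat_lit 10) (.e (nat_lit 434269) (nat_lit 36) (.e (nat_lit 639007) (nat_lit 13) .nil)))))) (.g (nat_lit 0) .nil .nil)))) (.nd (nat_lit 5) 
(.lf (nat_lit 64479) (.g (nat_lit 1882) (.e (nat_lit 1592) (nat_lit 111) (.e (nat_lit 360477) (nat_lit 11) (.e (nat_lit 581653) (nat_lit 6) (.e (nat_lit 188439) (nat_lit 20) (.e (nat_lit 3578) (nat_lit 223) (.e (nat_lit 745475) (nat_lit 0) .nil)))))) (.g (nat_lit 0) .nil .nil))) 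
(.lf (nat_lit 64511) (.g (nat_lit 2655) (.e (nat_lit 1592) (nat_lit 111) (.e (nat_lit 360486) (nat_lit 18) (.e (nat_lit 671762) (nat_lit 4) (.e (nat_lit 65616) (nat_lit 10) (.e (nat_lit 344168) (nat_lit 40) (.e (nat_lit 671747) (nat_lit 0) .nil)))))) (.g (nat_lit 0) .nil .nil)))))))))

noncomputable def tv885 : DT := (.nd (nat_lit 0) (.nd (nat_lit 1) (.nd (nat_lit 2) (.nd (nat_lit 3) (.nd (nat_lit 4) 
(.lf (nat_lit 64512) (.g (nat_lit 2606) (.e (nat_lit 1592) (nat_lit 111) (.e (nat_lit 360486) (nat_lit 18) (.e (nat_lit 671762) (nat_lit 4) (.e (nat_lit 65616) (nat_lit 10) (.e (nat_lit 344169) (nat_lit 40) (.e (nat_lit 671747) (nat_lit 0) .nil)))))) (.g (nat_lit 6) .nil .nil))) 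
(.lf (nat_lit 64528) (.g (nat_lit 1140) (.e (nat_lit 1592) (nat_lit 111) (.e (nat_lit 360486) (nat_lit 18) (.e (nat_lit 671764) (nat_lit 6) (.e (nat_lit 81947) (nat_lit 20) (.e (nat_lit 2005) (nat_lit 138) .nil))))) .nil))) (.nd (nat_lit 4) 
(.lf (nat_lit 64520) (.g (nat_lit 357) (.e (nat_lit 1592) (nat_lit 111) (.e (nat_lit 360486) (nat_lit 18) (.e (nat_lit 671764) (nat_lit 6) .nil))) .nil)) 
(.lf (nat_lit 64536) (.g (nat_lit 1056) (.e (nat_lit 1592) (nat_lit 111) (.e (nat_lit 360489) (nat_lit 21) (.e (nat_lit 770056) (nat_lit 5) (.e (nat_lit 1598) (nat_lit 111) (.e (nat_lit 360489) (nat_lit 21) (.e (nat_lit 770056) (nat_lit 5) .nil)))))) (.g (nat_lit 6) .nil .nil))))) (.nd (nat_lit 3) (.nd (nat_lit 4) 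
(.lf (nat_lit 64516) (.g (nat_lit 2973) (.e (nat_lit 1592) (nat_lit 111) (.e (nat_lit 360486) (nat_lit 18) (.e (nat_lit 671762) (nat_lit 4) (.e (nat_lit 65619) (nat_lit 10) (.e (nat_lit 344168) (nat_lit 40) (.e (nat_lit 671747) (nat_lit 0) .nil)))))) (.g (nat_lit 0) .nil .nil))) 
(.lf (nat_lit 64532) (.g (nat_lit 1230) (.e (nat_lit 1592) (nat_lit 111) (.e (nat_lit 360489) (nat_lit 21) (.e (nat_lit 770055) (nat_lit 5) (.e (nat_lit 1598) (nat_lit 111) (.e (nat_lit 360489) (nat_lit 21) (.e (nat_lit 770057) (nat_lit 5) .nil)))))) (.g (nat_lit 6) .nil .nil)))) (.nd (nat_lit 4) 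
(.lf (nat_lit 64524) (.g (nat_lit 1677) (.e (nat_lit 1592) (nat_lit 111) (.e (nat_lit 360486) (nat_lit 18) (.e (nat_lit 671764) (nat_lit 6) (.e (nat_lit 81942) (nat_lit 20) (.e (nat_lit 2006) (nat_lit 138) (.e (nat_lit 671748) (nat_lit 0) .nil)))))) (.g (nat_lit 0) .nil .nil))) 
(.lf (nat_lit 64540) (.g (nat_lit 1768) (.e (nat_lit 1592) (nat_lit 111) (.e (nat_lit 360489) (nat_lit 21) (.e (nat_lit 770057) (nat_lit 5) (.e (nat_lit 1589) (nat_lit 111) (.e (nat_lit 360489) (nat_lit 21) (.e (nat_lit 770057) (nat_lit 5) .nil)))))) (.g (nat_lit 0) .nil .nil)))))) (.nd (nat_lit 2) (.nd (nat_lit 3) (.nd (nat_lit 4) 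
(.lf (nat_lit 64514) (.g (nat_lit 2976) (.e (nat_lit 1592) (nat_lit 111) (.e (nat_lit 360486) (nat_lit 18) (.e (nat_lit 671762) (nat_lit 4) (.e (nat_lit 65617) (nat_lit 10) (.e (nat_lit 344169) (nat_lit 40) (.e (nat_lit 671747) (nat_lit 0) .nil)))))) (.g (nat_lit 6) .nil .nil))) 
(.lf (nat_lit 64530) (.g (nat_lit 2487) (.e (nat_lit 1592) (nat_lit 111) (.e (nat_lit 360486) (nat_lit 18) (.e (nat_lit 671764) (nat_lit 6) (.e (nat_lit 81947) (nat_lit 20) (.e (nat_lit 2006) (nat_lit 138) (.e (nat_lit 671748) (nat_lit 0) .nil)))))) (.g (nat_lit 0) .nil .nil)))) (.nd (nat_lit 4) 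
(.lf (nat_lit 64522) (.g (nat_lit 1718) (.e (nat_lit 1592) (nat_lit 111) (.e (nat_lit 360486) (nat_lit 18) (.e (nat_lit 671764) (nat_lit 6) (.e (nat_lit 81939) (nat_lit 20) (.e (nat_lit 2006) (nat_lit 138) (.e (nat_lit 671748) (nat_lit 0) .nil)))))) (.g (nat_lit 0) .nil .nil))) 
(.lf (nat_lit 64538) (.g (nat_lit 1112) (.e (nat_lit 1592) (nat_lit 111) (.e (nat_lit 360489) (nat_lit 21) (.e (nat_lit 770056) (nat_lit 5) (.e (nat_lit 1598) (nat_lit 111) (.e (nat_lit 360489) (nat_lit 21) (.e (nat_lit 770058) (nat_lit 5) .nil)))))) (.g (nat_lit 6) .nil .nil))))) (.nd (nat_lit 3) (.nd (nat_lit 4) 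
(.lf (nat_lit 64518) (.g (nat_lit 2672) (.e (nat_lit 1592) (nat_lit 111) (.e (nat_lit 360486) (nat_lit 18) (.e (nat_lit 671762) (nat_lit 4) (.e (nat_lit 65620) (nat_lit 10) (.e (nat_lit 344168) (nat_lit 40) (.e (nat_lit 671747) (nat_lit 0) .nil)))))) (.g (nat_lit 0) .nil .nil))) 
(.lf (nat_lit 64534) (.g (nat_lit 1040) (.e (nat_lit 1592) (nat_lit 111) (.e (nat_lit 360489) (nat_lit 21) (.e (nat_lit 770056) (nat_lit 5) (.e (nat_lit 1592) (nat_lit 111) (.e (nat_lit 360489) (nat_lit 21) (.e (nat_lit 770057) (nat_lit 5) .nil)))))) (.g (nat_lit 6) .nil .nil)))) (.nd (nat_lit 4) 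
(.lf (nat_lit 64526) (.g (nat_lit 2071) (.e (nat_lit 1592) (nat_lit 111) (.e (nat_lit 360486) (nat_lit 18) (.e (nat_lit 671764) (nat_lit 6) (.e (nat_lit 81946) (nat_lit 20) (.e (nat_lit 2006) (nat_lit 138) (.e (nat_lit 671748) (nat_lit 0) .nil)))))) (.g (nat_lit 0) .nil .nil))) 
(.lf (nat_lit 64542) (.g (nat_lit 1100) (.e (nat_lit 1592) (nat_lit 111) (.e (nat_lit 360489) (nat_lit 21) (.e (nat_lit 770057) (nat_lit 5) (.e (nat_lit 1598) (nat_lit 111) (.e (nat_lit 360489) (nat_lit 21) (.e (nat_lit 770056) (nat_lit 5) .nil)))))) (.g (nat_lit 0) .nil .nil))))))) (.nd (nat_lit 1) (.nd (nat_lit 2) (.nd (nat_lit 3) (.nd (nat_lit 4) 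
(.lf (nat_lit 64513) (.g (nat_lit 2050) (.e (nat_lit 1592) (nat_lit 111) (.e (nat_lit 360486) (nat_lit 18) (.e (nat_lit 671762) (nat_lit 4) (.e (nat_lit 65617) (nat_lit 10) (.e (nat_lit 344168) (nat_lit 40) .nil))))) .nil)) 
(.lf (nat_lit 64529) (.g (nat_lit 2353) (.e (nat_lit 1592) (nat_lit 111) (.e (nat_lit 360486) (nat_lit 18) (.e (nat_lit 671764) (nat_lit 6) (.e (nat_lit 81947) (nat_lit 20) (.e (nat_lit 2005) (nat_lit 138) (.e (nat_lit 671748) (nat_lit 0) .nil)))))) (.g (nat_lit 0) .nil .nil)))) (.nd (nat_lit 4) 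
(.lf (nat_lit 64521) (.g (nat_lit 691) (.e (nat_lit 1592) (nat_lit 111) (.e (nat_lit 360486) (nat_lit 18) (.e (nat_lit 671764) (nat_lit 6) (.e (nat_lit 81938) (nat_lit 20) .nil)))) .nil)) 
(.lf (nat_lit 64537) (.g (nat_lit 1153) (.e (nat_lit 1592) (nat_lit 111) (.e (nat_lit 360489) (nat_lit 21) (.e (nat_lit 770056) (nat_lit 5) (.e (nat_lit 1598) (nat_lit 111) (.e (nat_lit 360489) (nat_lit 21) (.e (nat_lit 770057) (nat_lit 5) .nil)))))) (.g (nat_lit 6) .nil .nil))))) (.nd (nat_lit 3) (.nd (nat_lit 4) 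
(.lf (nat_lit 64517) (.g (nat_lit 1613) (.e (nat_lit 1592) (nat_lit 111) (.e (nat_lit 360486) (nat_lit 18) (.e (nat_lit 671762) (nat_lit 4) (.e (nat_lit 65620) (nat_lit 10) (.e (nat_lit 344168) (nat_lit 40) .nil))))) .nil)) 
(.lf (nat_lit 64533) (.g (nat_lit 1198) (.e (nat_lit 1592) (nat_lit 111) (.e (nat_lit 360489) (nat_lit 21) (.e (nat_lit 770055) (nat_lit 5) (.e (nat_lit 1598) (nat_lit 111) (.e (nat_lit 360489) (nat_lit 21) (.e (nat_lit 770058) (nat_lit 5) .nil)))))) (.g (nat_lit 6) .nil .nil)))) (.nd (nat_lit 4) 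
(.lf (nat_lit 64525) (.g (nat_lit 1879) (.e (nat_lit 1592) (nat_lit 111) (.e (nat_lit 360486) (nat_lit 18) (.e (nat_lit 671764) (nat_lit 6) (.e (nat_lit 81943) (nat_lit 20) (.e (nat_lit 2006) (nat_lit 138) (.e (nat_lit 671748) (nat_lit 0) .nil)))))) (.g (nat_lit 0) .nil .nil))) 
(.lf (nat_lit 64541) (.g (nat_lit 1084) (.e (nat_lit 1592) (nat_lit 111) (.e (nat_lit 360489) (nat_lit 21) (.e (nat_lit 770057) (nat_lit 5) (.e (nat_lit 1592) (nat_lit 111) (.e (nat_lit 360489) (nat_lit 21) (.e (nat_lit 770057) (nat_lit 5) .nil)))))) (.g (nat_lit 0) .nil .nil)))))) (.nd (nat_lit 2) (.nd (nat_lit 3) (.nd (nat_lit 4) 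
(.lf (nat_lit 64515) (.g (nat_lit 3302) (.e (nat_lit 1592) (nat_lit 111) (.e (nat_lit 360486) (nat_lit 18) (.e (nat_lit 671762) (nat_lit 4) (.e (nat_lit 65617) (nat_lit 10) (.e (nat_lit 344169) (nat_lit 40) (.e (nat_lit 671748) (nat_lit 0) .nil)))))) (.g (nat_lit 0) .nil .nil))) 
(.lf (nat_lit 64531) (.g (nat_lit 1129) (.e (nat_lit 1592) (nat_lit 111) (.e (nat_lit 360489) (nat_lit 21) (.e (nat_lit 770055) (nat_lit 5) (.e (nat_lit 1598) (nat_lit 111) (.e (nat_lit 360489) (nat_lit 21) (.e (nat_lit 770056) (nat_lit 5) .nil)))))) (.g (nat_lit 6) .nil .nil)))) (.nd (nat_lit 4) 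
(.lf (nat_lit 64523) (.g (nat_lit 1604) (.e (nat_lit 1592) (nat_lit 111) (.e (nat_lit 360486) (nat_lit 18) (.e (nat_lit 671764) (nat_lit 6) (.e (nat_lit 81942) (nat_lit 20) (.e (nat_lit 2005) (nat_lit 138) (.e (nat_lit 671748) (nat_lit 0) .nil)))))) (.g (nat_lit 6) .nil .nil))) 
(.lf (nat_lit 64539) (.g (nat_lit 1498) (.e (nat_lit 1592) (nat_lit 111) (.e (nat_lit 360489) (nat_lit 21) (.e (nat_lit 770057) (nat_lit 5) (.e (nat_lit 1586) (nat_lit 111) (.e (nat_lit 360489) (nat_lit 21) (.e (nat_lit 770057) (nat_lit 5) .nil)))))) (.g (nat_lit 0) .nil .nil))))) (.nd (nat_lit 3) (.nd (nat_lit 4) 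
(.lf (nat_lit 64519) (.g (nat_lit 2679) (.e (nat_lit 1592) (nat_lit 111) (.e (nat_lit 360486) (nat_lit 18) (.e (nat_lit 671762) (nat_lit 4) (.e (nat_lit 65620) (nat_lit 10) (.e (nat_lit 344169) (nat_lit 40) (.e (nat_lit 671747) (nat_lit 0) .nil)))))) (.g (nat_lit 6) .nil .nil))) 
(.lf (nat_lit 64535) (.g (nat_lit 1029) (.e (nat_lit 1592) (nat_lit 111) (.e (nat_lit 360489) (nat_lit 21) (.e (nat_lit 770056) (nat_lit 5) (.e (nat_lit 1592) (nat_lit 111) (.e (nat_lit 360489) (nat_lit 21) (.e (nat_lit 770058) (nat_lit 5) .nil)))))) (.g (nat_lit 6) .nil .nil)))) (.nd (nat_lit 4) 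
(.lf (nat_lit 64527) (.g (nat_lit 625) (.e (nat_lit 1592) (nat_lit 111) (.e (nat_lit 360486) (nat_lit 18) (.e (nat_lit 671764) (nat_lit 6) (.e (nat_lit 81947) (nat_lit 20) .nil)))) .nil)) 
(.lf (nat_lit 64543) (.g (nat_lit 1194) (.e (nat_lit 1592) (nat_lit 111) (.e (nat_lit 360489) (nat_lit 21) (.e (nat_lit 770057) (nat_lit 5) (.e (nat_lit 1598) (nat_lit 111) (.e (nat_lit 360489) (nat_lit 21) (.e (nat_lit 770057) (nat_lit 5) .nil)))))) (.g (nat_lit 0) .nil .nil))))))))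

noncomputable def tv886 : DT := (.nd (nat_lit 0) (.nd (nat_lit 1) (.nd (nat_lit 2) (.nd (nat_lit 3) (.nd (nat_lit 4) 
(.lf (nat_lit 64544) (.g (nat_lit 1006) (.e (nat_lit 1592) (nat_lit 111) (.e (nat_lit 360489) (nat_lit 21) (.e (nat_lit 770057) (nat_lit 5) (.e (nat_lit 1599) (nat_lit 111) (.e (nat_lit 360489) (nat_lit 21) (.e (nat_lit 770056) (nat_lit 5) .nil)))))) (.g (nat_lit 6) .nil .nil))) 
(.lf (nat_lit 64560) (.g (nat_lit 2130) (.e (nat_lit 1592) (nat_lit 111) (.e (nat_lit 360489) (nat_lit 21) (.e (nat_lit 770072) (nat_lit 8) (.e (nat_lit 65617) (nat_lit 10) (.e (nat_lit 344177) (nat_lit 43) (.e (nat_lit 770056) (nat_lit 5) .nil)))))) (.g (nat_lit 6) .nil .nil)))) (.nd (nat_lit 4) 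
(.lf (nat_lit 64552) (.g (nat_lit 2197) (.e (nat_lit 1592) (nat_lit 111) (.e (nat_lit 360489) (nat_lit 21) (.e (nat_lit 770071) (nat_lit 8) (.e (nat_lit 65610) (nat_lit 10) (.e (nat_lit 344177) (nat_lit 43) (.e (nat_lit 770058) (nat_lit 5) .nil)))))) (.g (nat_lit 6) .nil .nil))) 
(.lf (nat_lit 64568) (.g (nat_lit 1869) (.e (nat_lit 1592) (nat_lit 111) (.e (nat_lit 360489) (nat_lit 21) (.e (nat_lit 770074) (nat_lit 10) (.e (nat_lit 81943) (nat_lit 20) (.e (nat_lit 2281) (nat_lit 150) (.e (nat_lit 770058) (nat_lit 5) .nil)))))) (.g (nat_lit 0) .nil .nil))))) (.nd (nat_lit 3) (.nd (nat_lit 4) 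
(.lf (nat_lit 64548) (.g (nat_lit 1271) (.e (nat_lit 1592) (nat_lit 111) (.e (nat_lit 360489) (nat_lit 21) (.e (nat_lit 770058) (nat_lit 5) (.e (nat_lit 1598) (nat_lit 111) (.e (nat_lit 360489) (nat_lit 21) (.e (nat_lit 770057) (nat_lit 5) .nil)))))) (.g (nat_lit 0) .nil .nil))) 
(.lf (nat_lit 64564) (.g (nat_lit 2151) (.e (nat_lit 1592) (nat_lit 111) (.e (nat_lit 360489) (nat_lit 21) (.e (nat_lit 770074) (nat_lit 10) (.e (nat_lit 81938) (nat_lit 20) (.e (nat_lit 2281) (nat_lit 150) (.e (nat_lit 770058) (nat_lit 5) .nil)))))) (.g (nat_lit 0) .nil .nil)))) (.nd (nat_lit 4) 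
(.lf (nat_lit 64556) (.g (nat_lit 2135) (.e (nat_lit 1592) (nat_lit 111) (.e (nat_lit 360489) (nat_lit 21) (.e (nat_lit 770071) (nat_lit 8) (.e (nat_lit 65619) (nat_lit 10) (.e (nat_lit 344177) (nat_lit 43) (.e (nat_lit 770058) (nat_lit 5) .nil)))))) (.g (nat_lit 5) .nil .nil))) 
(.lf (nat_lit 64572) (.g (nat_lit 2433) (.e (nat_lit 1592) (nat_lit 111) (.e (nat_lit 360492) (nat_lit 22) (.e (nat_lit 778466) (nat_lit 11) (.e (nat_lit 24640) (nat_lit 10) (.e (nat_lit 344176) (nat_lit 43) (.e (nat_lit 770054) (nat_lit 5) .nil)))))) (.g (nat_lit 5) .nil .nil)))))) (.nd (nat_lit 2) (.nd (nat_lit 3) (.nd (nat_lit 4) 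
(.lf (nat_lit 64546) (.g (nat_lit 1858) (.e (nat_lit 1592) (nat_lit 111) (.e (nat_lit 360489) (nat_lit 21) (.e (nat_lit 770058) (nat_lit 5) (.e (nat_lit 1589) (nat_lit 111) (.e (nat_lit 360489) (nat_lit 21) (.e (nat_lit 770057) (nat_lit 5) .nil)))))) (.g (nat_lit 0) .nil .nil))) 
(.lf (nat_lit 64562) (.g (nat_lit 1563) (.e (nat_lit 1592) (nat_lit 111) (.e (nat_lit 360489) (nat_lit 21) (.e (nat_lit 770074) (nat_lit 10) (.e (nat_lit 81938) (nat_lit 20) (.e (nat_lit 2280) (nat_lit 150) (.e (nat_lit 770057) (nat_lit 5) .nil)))))) (.g (nat_lit 5) .nil .nil)))) (.nd (nat_lit 4) 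
(.lf (nat_lit 64554) (.g (nat_lit 1405) (.e (nat_lit 1592) (nat_lit 111) (.e (nat_lit 360489) (nat_lit 21) (.e (nat_lit 770071) (nat_lit 8) (.e (nat_lit 65617) (nat_lit 10) (.e (nat_lit 344177) (nat_lit 43) (.e (nat_lit 770055) (nat_lit 5) .nil)))))) (.g (nat_lit 4) .nil .nil))) 
(.lf (nat_lit 64570) (.g (nat_lit 2076) (.e (nat_lit 1592) (nat_lit 111) (.e (nat_lit 360489) (nat_lit 21) (.e (nat_lit 770074) (nat_lit 10) (.e (nat_lit 81946) (nat_lit 20) (.e (nat_lit 2281) (nat_lit 150) (.e (nat_lit 770058) (nat_lit 5) .nil)))))) (.g (nat_lit 0) .nil .nil))))) (.nd (nat_lit 3) (.nd (nat_lit 4) 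
(.lf (nat_lit 64550) (.g (nat_lit 1153) (.e (nat_lit 1592) (nat_lit 111) (.e (nat_lit 360489) (nat_lit 21) (.e (nat_lit 770058) (nat_lit 5) (.e (nat_lit 1599) (nat_lit 111) (.e (nat_lit 360489) (nat_lit 21) (.e (nat_lit 770057) (nat_lit 5) .nil)))))) (.g (nat_lit 0) .nil .nil))) 
(.lf (nat_lit 64566) (.g (nat_lit 720) (.e (nat_lit 1592) (nat_lit 111) (.e (nat_lit 360489) (nat_lit 21) (.e (nat_lit 770074) (nat_lit 10) (.e (nat_lit 81943) (nat_lit 20) .nil)))) .nil))) (.nd (nat_lit 4) 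
(.lf (nat_lit 64558) (.g (nat_lit 1902) (.e (nat_lit 1592) (nat_lit 111) (.e (nat_lit 360489) (nat_lit 21) (.e (nat_lit 770071) (nat_lit 8) (.e (nat_lit 65620) (nat_lit 10) (.e (nat_lit 344177) (nat_lit 43) (.e (nat_lit 770058) (nat_lit 5) .nil)))))) (.g (nat_lit 6) .nil .nil))) 
(.lf (nat_lit 64574) (.g (nat_lit 1409) (.e (nat_lit 1592) (nat_lit 111) (.e (nat_lit 360493) (nat_lit 27) (.e (nat_lit 819203) (nat_lit 0) (.e (nat_lit 3027) (nat_lit 187) (.e (nat_lit 450584) (nat_lit 9) (.e (nat_lit 565252) (nat_lit 0) .nil)))))) (.g (nat_lit 0) .nil .nil))))))) (.nd (nat_lit 1) (.nd (nat_lit 2) (.nd (nat_lit 3) (.nd (nat_lit 4) 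
(.lf (nat_lit 64545) (.g (nat_lit 1785) (.e (nat_lit 1592) (nat_lit 111) (.e (nat_lit 360489) (nat_lit 21) (.e (nat_lit 770058) (nat_lit 5) (.e (nat_lit 1589) (nat_lit 111) (.e (nat_lit 360489) (nat_lit 21) (.e (nat_lit 770056) (nat_lit 5) .nil)))))) (.g (nat_lit 6) .nil .nil))) 
(.lf (nat_lit 64561) (.g (nat_lit 2138) (.e (nat_lit 1592) (nat_lit 111) (.e (nat_lit 360489) (nat_lit 21) (.e (nat_lit 770072) (nat_lit 8) (.e (nat_lit 65617) (nat_lit 10) (.e (nat_lit 344177) (nat_lit 43) (.e (nat_lit 770057) (nat_lit 5) .nil)))))) (.g (nat_lit 6) .nil .nil)))) (.nd (nat_lit 4) 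
(.lf (nat_lit 64553) (.g (nat_lit 1785) (.e (nat_lit 1592) (nat_lit 111) (.e (nat_lit 360489) (nat_lit 21) (.e (nat_lit 770071) (nat_lit 8) (.e (nat_lit 65616) (nat_lit 10) (.e (nat_lit 344177) (nat_lit 43) (.e (nat_lit 770058) (nat_lit 5) .nil)))))) (.g (nat_lit 5) .nil .nil))) 
(.lf (nat_lit 64569) (.g (nat_lit 1188) (.e (nat_lit 1592) (nat_lit 111) (.e (nat_lit 360489) (nat_lit 21) (.e (nat_lit 770074) (nat_lit 10) (.e (nat_lit 81946) (nat_lit 20) (.e (nat_lit 2280) (nat_lit 150) .nil))))) .nil)))) (.nd (nat_lit 3) (.nd (nat_lit 4) 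
(.lf (nat_lit 64549) (.g (nat_lit 1041) (.e (nat_lit 1592) (nat_lit 111) (.e (nat_lit 360489) (nat_lit 21) (.e (nat_lit 770058) (nat_lit 5) (.e (nat_lit 1599) (nat_lit 111) (.e (nat_lit 360489) (nat_lit 21) (.e (nat_lit 770056) (nat_lit 5) .nil)))))) (.g (nat_lit 6) .nil .nil))) 
(.lf (nat_lit 64565) (.g (nat_lit 1604) (.e (nat_lit 1592) (nat_lit 111) (.e (nat_lit 360489) (nat_lit 21) (.e (nat_lit 770074) (nat_lit 10) (.e (nat_lit 81942) (nat_lit 20) (.e (nat_lit 2281) (nat_lit 150) (.e (nat_lit 770057) (nat_lit 5) .nil)))))) (.g (nat_lit 6) .nil .nil)))) (.nd (nat_lit 4) 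
(.lf (nat_lit 64557) (.g (nat_lit 1803) (.e (nat_lit 1592) (nat_lit 111) (.e (nat_lit 360489) (nat_lit 21) (.e (nat_lit 770071) (nat_lit 8) (.e (nat_lit 65620) (nat_lit 10) (.e (nat_lit 344177) (nat_lit 43) (.e (nat_lit 770056) (nat_lit 5) .nil)))))) (.g (nat_lit 6) .nil .nil))) 
(.lf (nat_lit 64573) (.g (nat_lit 1484) (.e (nat_lit 1592) (nat_lit 111) (.e (nat_lit 360493) (nat_lit 27) (.e (nat_lit 819203) (nat_lit 0) (.e (nat_lit 3022) (nat_lit 187) (.e (nat_lit 450584) (nat_lit 9) (.e (nat_lit 565252) (nat_lit 0) .nil)))))) (.g (nat_lit 0) .nil .nil)))))) (.nd (nat_lit 2) (.nd (nat_lit 3) (.nd (nat_lit 4) 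
(.lf (nat_lit 64547) (.g (nat_lit 1071) (.e (nat_lit 1592) (nat_lit 111) (.e (nat_lit 360489) (nat_lit 21) (.e (nat_lit 770058) (nat_lit 5) (.e (nat_lit 1592) (nat_lit 111) (.e (nat_lit 360489) (nat_lit 21) (.e (nat_lit 770057) (nat_lit 5) .nil)))))) (.g (nat_lit 0) .nil .nil))) 
(.lf (nat_lit 64563) (.g (nat_lit 1945) (.e (nat_lit 1592) (nat_lit 111) (.e (nat_lit 360489) (nat_lit 21) (.e (nat_lit 770074) (nat_lit 10) (.e (nat_lit 81938) (nat_lit 20) (.e (nat_lit 2281) (nat_lit 150) (.e (nat_lit 770056) (nat_lit 5) .nil)))))) (.g (nat_lit 6) .nil .nil)))) (.nd (nat_lit 4) 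
(.lf (nat_lit 64555) (.g (nat_lit 2210) (.e (nat_lit 1592) (nat_lit 111) (.e (nat_lit 360489) (nat_lit 21) (.e (nat_lit 770071) (nat_lit 8) (.e (nat_lit 65617) (nat_lit 10) (.e (nat_lit 344177) (nat_lit 43) (.e (nat_lit 770058) (nat_lit 5) .nil)))))) (.g (nat_lit 6) .nil .nil))) 
(.lf (nat_lit 64571) (.g (nat_lit 2126) (.e (nat_lit 1592) (nat_lit 111) (.e (nat_lit 360489) (nat_lit 21) (.e (nat_lit 770074) (nat_lit 10) (.e (nat_lit 81947) (nat_lit 20) (.e (nat_lit 2281) (nat_lit 150) (.e (nat_lit 770058) (nat_lit 5) .nil)))))) (.g (nat_lit 0) .nil .nil))))) (.nd (nat_lit 3) (.nd (nat_lit 4) 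
(.lf (nat_lit 64551) (.g (nat_lit 2177) (.e (nat_lit 1592) (nat_lit 111) (.e (nat_lit 360489) (nat_lit 21) (.e (nat_lit 770071) (nat_lit 8) (.e (nat_lit 65610) (nat_lit 10) (.e (nat_lit 344177) (nat_lit 43) (.e (nat_lit 770056) (nat_lit 5) .nil)))))) (.g (nat_lit 6) .nil .nil))) 
(.lf (nat_lit 64567) (.g (nat_lit 1756) (.e (nat_lit 1592) (nat_lit 111) (.e (nat_lit 360489) (nat_lit 21) (.e (nat_lit 770074) (nat_lit 10) (.e (nat_lit 81943) (nat_lit 20) (.e (nat_lit 2281) (nat_lit 150) (.e (nat_lit 770056) (nat_lit 5) .nil)))))) (.g (nat_lit 6) .nil .nil)))) (.nd (nat_lit 4) 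
(.lf (nat_lit 64559) (.g (nat_lit 2387) (.e (nat_lit 1592) (nat_lit 111) (.e (nat_lit 360489) (nat_lit 21) (.e (nat_lit 770072) (nat_lit 8) (.e (nat_lit 65610) (nat_lit 10) (.e (nat_lit 344177) (nat_lit 43) (.e (nat_lit 770056) (nat_lit 5) .nil)))))) (.g (nat_lit 0) .nil .nil))) 
(.lf (nat_lit 64575) (.g (nat_lit 83) (.e (nat_lit 1592) (nat_lit 111) (.e (nat_lit 360493) (nat_lit 27) (.e (nat_lit 819219) (nat_lit 4) .nil))) .nil)))))))

noncomputable def tv887 : DT := (.nd (nat_lit 0) (.nd (nat_lit 1) (.nd (nat_lit 2) (.nd (nat_lit 3) (.nd (nat_lit 4) (.nd (nat_lit 5) 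
(.lf (nat_lit 64576) (.g (nat_lit 1014) (.e (nat_lit 1592) (nat_lit 111) (.e (nat_lit 360493) (nat_lit 27) (.e (nat_lit 819219) (nat_lit 4) (.e (nat_lit 172112) (nat_lit 10) (.e (nat_lit 434241) (nat_lit 27) (.e (nat_lit 565252) (nat_lit 0) .nil)))))) (.g (nat_lit 0) .nil .nil))) 
(.lf (nat_lit 64608) (.g (nat_lit 2731) (.e (nat_lit 1593) (nat_lit 111) (.e (nat_lit 360467) (nat_lit 3) (.e (nat_lit 516139) (nat_lit 7) (.e (nat_lit 409649) (nat_lit 18) (.e (nat_lit 303121) (nat_lit 5) .nil))))) .nil))) (.nd (nat_lit 5) 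
(.lf (nat_lit 64592) (.g (nat_lit 1626) (.e (nat_lit 1593) (nat_lit 111) (.e (nat_lit 360467) (nat_lit 3) (.e (nat_lit 516139) (nat_lit 7) (.e (nat_lit 409648) (nat_lit 18) (.e (nat_lit 303117) (nat_lit 2) .nil))))) .nil)) 
(.lf (nat_lit 64624) (.g (nat_lit 1793) (.e (nat_lit 1594) (nat_lit 111) (.e (nat_lit 360467) (nat_lit 3) (.e (nat_lit 516179) (nat_lit 15) (.e (nat_lit 475197) (nat_lit 40) (.e (nat_lit 704590) (nat_lit 3) .nil))))) .nil)))) (.nd (nat_lit 4) (.nd (nat_lit 5) 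
(.lf (nat_lit 64584) (.g (nat_lit 1000) (.e (nat_lit 1593) (nat_lit 111) (.e (nat_lit 360453) (nat_lit 0) (.e (nat_lit 7270) (nat_lit 385) (.e (nat_lit 122919) (nat_lit 15) .nil)))) .nil)) 
(.lf (nat_lit 64616) (.g (nat_lit 1386) (.e (nat_lit 1594) (nat_lit 111) (.e (nat_lit 360467) (nat_lit 3) (.e (nat_lit 516139) (nat_lit 7) (.e (nat_lit 409643) (nat_lit 18) .nil)))) .nil))) (.nd (nat_lit 5) 
(.lf (nat_lit 64600) (.g (nat_lit 2344) (.e (nat_lit 1593) (nat_lit 111) (.e (nat_lit 360467) (nat_lit 3) (.e (nat_lit 516139) (nat_lit 7) (.e (nat_lit 409649) (nat_lit 18) (.e (nat_lit 303111) (nat_lit 0) (.e (nat_lit 3144) (nat_lit 193) (.e (nat_lit 499981) (nat_lit 14) .nil))))))) (.g (nat_lit 4) .nil .nil))) 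
(.lf (nat_lit 64632) (.g (nat_lit 2873) (.e (nat_lit 1594) (nat_lit 111) (.e (nat_lit 360473) (nat_lit 8) (.e (nat_lit 557090) (nat_lit 12) (.e (nat_lit 164020) (nat_lit 45) .nil)))) .nil))))) (.nd (nat_lit 3) (.nd (nat_lit 4) (.nd (nat_lit 5) 
(.lf (nat_lit 64580) (.g (nat_lit 718) (.e (nat_lit 1592) (nat_lit 111) (.e (nat_lit 360493) (nat_lit 27) (.e (nat_lit 819221) (nat_lit 6) (.e (nat_lit 188439) (nat_lit 20) (.e (nat_lit 3288) (nat_lit 201) (.e (nat_lit 565252) (nat_lit 0) .nil)))))) (.g (nat_lit 6) .nil .nil))) 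
(.lf (nat_lit 64612) (.g (nat_lit 853) (.e (nat_lit 1593) (nat_lit 111) (.e (nat_lit 360492) (nat_lit 22) (.e (nat_lit 778465) (nat_lit 11) (.e (nat_lit 24640) (nat_lit 10) .nil)))) .nil))) (.nd (nat_lit 5) 
(.lf (nat_lit 64596) (.g (nat_lit 2350) (.e (nat_lit 1593) (nat_lit 111) (.e (nat_lit 360467) (nat_lit 3) (.e (nat_lit 516139) (nat_lit 7) (.e (nat_lit 409649) (nat_lit 18) (.e (nat_lit 303111) (nat_lit 0) (.e (nat_lit 3144) (nat_lit 193) (.e (nat_lit 499975) (nat_lit 14) .nil))))))) (.g (nat_lit 4) .nil .nil))) 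
(.lf (nat_lit 64628) (.g (nat_lit 1973) (.e (nat_lit 1594) (nat_lit 111) (.e (nat_lit 360467) (nat_lit 3) (.e (nat_lit 516179) (nat_lit 15) (.e (nat_lit 475209) (nat_lit 41) (.e (nat_lit 712719) (nat_lit 15) .nil))))) .nil)))) (.nd (nat_lit 4) (.nd (nat_lit 5) 
(.lf (nat_lit 64588) (.g (nat_lit 2901) (.e (nat_lit 1593) (nat_lit 111) (.e (nat_lit 360467) (nat_lit 3) (.e (nat_lit 516139) (nat_lit 7) (.e (nat_lit 409646) (nat_lit 18) (.e (nat_lit 303117) (nat_lit 2) .nil))))) .nil)) 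
(.lf (nat_lit 64620) (.g (nat_lit 631) (.e (nat_lit 1594) (nat_lit 111) (.e (nat_lit 360467) (nat_lit 3) (.e (nat_lit 516142) (nat_lit 8) .nil))) .nil))) (.nd (nat_lit 5) 
(.lf (nat_lit 64604) (.g (nat_lit 2336) (.e (nat_lit 1593) (nat_lit 111) (.e (nat_lit 360467) (nat_lit 3) (.e (nat_lit 516139) (nat_lit 7) (.e (nat_lit 409649) (nat_lit 18) (.e (nat_lit 303111) (nat_lit 0) (.e (nat_lit 3144) (nat_lit 193) (.e (nat_lit 499993) (nat_lit 14) .nil))))))) (.g (nat_lit 4) .nil .nil))) 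
(.lf (nat_lit 64636) (.g (nat_lit 3283) (.e (nat_lit 1595) (nat_lit 111) (.e (nat_lit 360449) (nat_lit 0) (.e (nat_lit 7122) (nat_lit 382) (.e (nat_lit 1201) (nat_lit 88) (.e (nat_lit 65610) (nat_lit 10) (.e (nat_lit 344177) (nat_lit 43) (.e (nat_lit 770057) (nat_lit 5) .nil))))))) (.g (nat_lit 6) .nil .nil))))))) (.nd (nat_lit 2) (.nd (nat_lit 3) (.nd (nat_lit 4) (.nd (nat_lit 5) 
(.lf (nat_lit 64578) (.g (nat_lit 82) (.e (nat_lit 1592) (nat_lit 111) (.e (nat_lit 360493) (nat_lit 27) (.e (nat_lit 819221) (nat_lit 6) .nil))) .nil)) 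
(.lf (nat_lit 64610) (.g (nat_lit 2681) (.e (nat_lit 1593) (nat_lit 111) (.e (nat_lit 360473) (nat_lit 8) (.e (nat_lit 557087) (nat_lit 11) (.e (nat_lit 24617) (nat_lit 7) (.e (nat_lit 319505) (nat_lit 10) .nil))))) .nil))) (.nd (nat_lit 5) 
(.lf (nat_lit 64594) (.g (nat_lit 2255) (.e (nat_lit 1593) (nat_lit 111) (.e (nat_lit 360467) (nat_lit 3) (.e (nat_lit 516139) (nat_lit 7) (.e (nat_lit 409649) (nat_lit 18) (.e (nat_lit 303111) (nat_lit 0) .nil))))) .nil)) 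
(.lf (nat_lit 64626) (.g (nat_lit 886) (.e (nat_lit 1594) (nat_lit 111) (.e (nat_lit 360467) (nat_lit 3) (.e (nat_lit 516179) (nat_lit 15) (.e (nat_lit 475201) (nat_lit 40) .nil)))) .nil)))) (.nd (nat_lit 4) (.nd (nat_lit 5) 
(.lf (nat_lit 64586) (.g (nat_lit 2468) (.e (nat_lit 1593) (nat_lit 111) (.e (nat_lit 360467) (nat_lit 3) (.e (nat_lit 516139) (nat_lit 7) (.e (nat_lit 409636) (nat_lit 14) (.e (nat_lit 270367) (nat_lit 12) (.e (nat_lit 32776) (nat_lit 5) .nil)))))) (.g (nat_lit 5) .nil .nil))) 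
(.lf (nat_lit 64618) (.g (nat_lit 3620) (.e (nat_lit 1594) (nat_lit 111) (.e (nat_lit 360467) (nat_lit 3) (.e (nat_lit 516139) (nat_lit 7) (.e (nat_lit 409648) (nat_lit 18) (.e (nat_lit 303117) (nat_lit 2) (.e (nat_lit 196627) (nat_lit 9) .nil)))))) (.g (nat_lit 6) .nil .nil)))) (.nd (nat_lit 5) 
(.lf (nat_lit 64602) (.g (nat_lit 2318) (.e (nat_lit 1593) (nat_lit 111) (.e (nat_lit 360467) (nat_lit 3) (.e (nat_lit 516139) (nat_lit 7) (.e (nat_lit 409649) (nat_lit 18) (.e (nat_lit 303111) (nat_lit 0) (.e (nat_lit 3144) (nat_lit 193) (.e (nat_lit 499990) (nat_lit 14) .nil))))))) (.g (nat_lit 4) .nil .nil))) 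
(.lf (nat_lit 64634) (.g (nat_lit 3808) (.e (nat_lit 1594) (nat_lit 111) (.e (nat_lit 360473) (nat_lit 8) (.e (nat_lit 557090) (nat_lit 12) (.e (nat_lit 164020) (nat_lit 45) (.e (nat_lit 696344) (nat_lit 8) (.e (nat_lit 172138) (nat_lit 15) (.e (nat_lit 7936) (nat_lit 126) (.e (nat_lit 573449) (nat_lit 9) .nil)))))))) (.g (nat_lit 4) .nil .nil)))))) 
(.nd (nat_lit 3) (.nd (nat_lit 4) (.nd (nat_lit 5) 
(.lf (nat_lit 64582) (.g (nat_lit 1243) (.e (nat_lit 1593) (nat_lit 111) (.e (nat_lit 360452) (nat_lit 0) (.e (nat_lit 7271) (nat_lit 385) (.e (nat_lit 122916) (nat_lit 14) .nil)))) .nil)) 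
(.lf (nat_lit 64614) (.g (nat_lit 2269) (.e (nat_lit 1594) (nat_lit 111) (.e (nat_lit 360466) (nat_lit 3) (.e (nat_lit 516179) (nat_lit 15) (.e (nat_lit 475211) (nat_lit 41) (.e (nat_lit 712722) (nat_lit 15) .nil))))) .nil))) (.nd (nat_lit 5) 
(.lf (nat_lit 64598) (.g (nat_lit 2382) (.e (nat_lit 1593) (nat_lit 111) (.e (nat_lit 360467) (nat_lit 3) (.e (nat_lit 516139) (nat_lit 7) (.e (nat_lit 409649) (nat_lit 18) (.e (nat_lit 303111) (nat_lit 0) (.e (nat_lit 3144) (nat_lit 193) (.e (nat_lit 499978) (nat_lit 14) .nil))))))) (.g (nat_lit 4) .nil .nil))) 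
(.lf (nat_lit 64630) (.g (nat_lit 1727) (.e (nat_lit 1594) (nat_lit 111) (.e (nat_lit 360467) (nat_lit 3) (.e (nat_lit 516183) (nat_lit 16) (.e (nat_lit 491566) (nat_lit 12) (.e (nat_lit 392960) (nat_lit 31) .nil))))) .nil)))) (.nd (nat_lit 4) (.nd (nat_lit 5) 
(.lf (nat_lit 64590) (.g (nat_lit 2233) (.e (nat_lit 1593) (nat_lit 111) (.e (nat_lit 360467) (nat_lit 3) (.e (nat_lit 516139) (nat_lit 7) (.e (nat_lit 409648) (nat_lit 18) (.e (nat_lit 303108) (nat_lit 0) .nil))))) .nil)) 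
(.lf (nat_lit 64622) (.g (nat_lit 466) (.e (nat_lit 1594) (nat_lit 111) (.e (nat_lit 360467) (nat_lit 3) (.e (nat_lit 516179) (nat_lit 15) .nil))) .nil))) (.nd (nat_lit 5) 
(.lf (nat_lit 64606) (.g (nat_lit 2310) (.e (nat_lit 1593) (nat_lit 111) (.e (nat_lit 360467) (nat_lit 3) (.e (nat_lit 516139) (nat_lit 7) (.e (nat_lit 409649) (nat_lit 18) (.e (nat_lit 303116) (nat_lit 2) .nil))))) .nil)) 
(.lf (nat_lit 64638) (.g (nat_lit 3075) (.e (nat_lit 1595) (nat_lit 111) (.e (nat_lit 360449) (nat_lit 0) (.e (nat_lit 7122) (nat_lit 382) (.e (nat_lit 1201) (nat_lit 88) (.e (nat_lit 65617) (nat_lit 10) (.e (nat_lit 344177) (nat_lit 43) (.e (nat_lit 770057) (nat_lit 5) .nil))))))) (.g (nat_lit 6) .nil .nil)))))))) 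
(.nd (nat_lit 1) (.nd (nat_lit 2) (.nd (nat_lit 3) (.nd (nat_lit 4) (.nd (nat_lit 5) 
(.lf (nat_lit 64577) (.g (nat_lit 1276) (.e (nat_lit 1592) (nat_lit 111) (.e (nat_lit 360493) (nat_lit 27) (.e (nat_lit 819219) (nat_lit 4) (.e (nat_lit 172113) (nat_lit 10) (.e (nat_lit 434241) (nat_lit 27) (.e (nat_lit 565252) (nat_lit 0) .nil)))))) (.g (nat_lit 0) .nil .nil))) 
(.lf (nat_lit 64609) (.g (nat_lit 3079) (.e (nat_lit 1593) (nat_lit 111) (.e (nat_lit 360473) (nat_lit 8) (.e (nat_lit 557087) (nat_lit 11) (.e (nat_lit 24617) (nat_lit 7) (.e (nat_lit 319504) (nat_lit 10) (.e (nat_lit 531) (nat_lit 41) (.e (nat_lit 499991) (nat_lit 14) .nil))))))) (.g (nat_lit 7) .nil .nil)))) (.nd (nat_lit 5) 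
(.lf (nat_lit 64593) (.g (nat_lit 2353) (.e (nat_lit 1593) (nat_lit 111) (.e (nat_lit 360467) (nat_lit 3) (.e (nat_lit 516139) (nat_lit 7) (.e (nat_lit 409648) (nat_lit 18) (.e (nat_lit 303121) (nat_lit 5) .nil))))) .nil)) 
(.lf (nat_lit 64625) (.g (nat_lit 2359) (.e (nat_lit 1594) (nat_lit 111) (.e (nat_lit 360467) (nat_lit 3) (.e (nat_lit 516179) (nat_lit 15) (.e (nat_lit 475199) (nat_lit 40) (.e (nat_lit 704589) (nat_lit 3) .nil))))) .nil)))) (.nd (nat_lit 4) (.nd (nat_lit 5) 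
(.lf (nat_lit 64585) (.g (nat_lit 1575) (.e (nat_lit 1593) (nat_lit 111) (.e (nat_lit 360467) (nat_lit 3) (.e (nat_lit 516139) (nat_lit 7) (.e (nat_lit 409616) (nat_lit 10) (.e (nat_lit 7936) (nat_lit 312) .nil))))) .nil)) 
(.lf (nat_lit 64617) (.g (nat_lit 2946) (.e (nat_lit 1594) (nat_lit 111) (.e (nat_lit 360467) (nat_lit 3) (.e (nat_lit 516139) (nat_lit 7) (.e (nat_lit 409646) (nat_lit 18) (.e (nat_lit 303117) (nat_lit 2) .nil))))) .nil))) (.nd (nat_lit 5) 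
(.lf (nat_lit 64601) (.g (nat_lit 2328) (.e (nat_lit 1593) (nat_lit 111) (.e (nat_lit 360467) (nat_lit 3) (.e (nat_lit 516139) (nat_lit 7) (.e (nat_lit 409649) (nat_lit 18) (.e (nat_lit 303111) (nat_lit 0) (.e (nat_lit 3144) (nat_lit 193) (.e (nat_lit 499984) (nat_lit 14) .nil))))))) (.g (nat_lit 4) .nil .nil))) 
(.lf (nat_lit 64633) (.g (nat_lit 3568) (.e (nat_lit 1594) (nat_lit 111) (.e (nat_lit 360473) (nat_lit 8) (.e (nat_lit 557090) (nat_lit 12) (.e (nat_lit 164020) (nat_lit 45) (.e (nat_lit 696344) (nat_lit 8) .nil))))) .nil))))) (.nd (nat_lit 3) (.nd (nat_lit 4) (.nd (nat_lit 5) 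
(.lf (nat_lit 64581) (.g (nat_lit 1560) (.e (nat_lit 1593) (nat_lit 111) (.e (nat_lit 360452) (nat_lit 0) (.e (nat_lit 7270) (nat_lit 385) (.e (nat_lit 122916) (nat_lit 14) .nil)))) .nil)) 
(.lf (nat_lit 64613) (.g (nat_lit 1194) (.e (nat_lit 1594) (nat_lit 111) (.e (nat_lit 360453) (nat_lit 0) (.e (nat_lit 5907) (nat_lit 320) (.e (nat_lit 1221) (nat_lit 90) .nil)))) .nil))) (.nd (nat_lit 5) 
(.lf (nat_lit 64597) (.g (nat_lit 2314) (.e (nat_lit 1593) (nat_lit 111) (.e (nat_lit 360467) (nat_lit 3) (.e (nat_lit 516139) (nat_lit 7) (.e (nat_lit 409649) (nat_lit 18) (.e (nat_lit 303111) (nat_lit 0) (.e (nat_lit 3144) (nat_lit 193) (.e (nat_lit 499977) (nat_lit 14) .nil))))))) (.g (nat_lit 4) .nil .nil))) 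
(.lf (nat_lit 64629) (.g (nat_lit 1571) (.e (nat_lit 1594) (nat_lit 111) (.e (nat_lit 360467) (nat_lit 3) (.e (nat_lit 516179) (nat_lit 15) (.e (nat_lit 475211) (nat_lit 41) .nil)))) .nil)))) (.nd (nat_lit 4) (.nd (nat_lit 5) 
(.lf (nat_lit 64589) (.g (nat_lit 1663) (.e (nat_lit 1593) (nat_lit 111) (.e (nat_lit 360467) (nat_lit 3) (.e (nat_lit 516139) (nat_lit 7) (.e (nat_lit 409647) (nat_lit 18) .nil)))) .nil)) 
(.lf (nat_lit 64621) (.g (nat_lit 1740) (.e (nat_lit 1594) (nat_lit 111) (.e (nat_lit 360467) (nat_lit 3) (.e (nat_lit 516146) (nat_lit 9) (.e (nat_lit 426444) (nat_lit 19) (.e (nat_lit 114432) (nat_lit 3) .nil))))) .nil))) (.nd (nat_lit 5) 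
(.lf (nat_lit 64605) (.g (nat_lit 2399) (.e (nat_lit 1593) (nat_lit 111) (.e (nat_lit 360467) (nat_lit 3) (.e (nat_lit 516139) (nat_lit 7) (.e (nat_lit 409649) (nat_lit 18) (.e (nat_lit 303111) (nat_lit 0) (.e (nat_lit 3146) (nat_lit 193) (.e (nat_lit 499983) (nat_lit 14) .nil))))))) (.g (nat_lit 4) .nil .nil))) 
(.lf (nat_lit 64637) (.g (nat_lit 1819) (.e (nat_lit 1595) (nat_lit 111) (.e (nat_lit 360449) (nat_lit 0) (.e (nat_lit 7122) (nat_lit 382) (.e (nat_lit 1201) (nat_lit 88) (.e (nat_lit 65617) (nat_lit 10) (.e (nat_lit 344175) (nat_lit 43) (.e (nat_lit 770057) (nat_lit 5) .nil))))))) (.g (nat_lit 4) .nil .nil))))))) (.nd (nat_lit 2) (.nd (nat_lit 3) (.nd (nat_lit 4) (.nd (nat_lit 5) 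
(.lf (nat_lit 64579) (.g (nat_lit 192) (.e (nat_lit 1592) (nat_lit 111) (.e (nat_lit 360493) (nat_lit 27) (.e (nat_lit 819221) (nat_lit 6) (.e (nat_lit 188435) (nat_lit 20) .nil)))) .nil)) 
(.lf (nat_lit 64611) (.g (nat_lit 2941) (.e (nat_lit 1593) (nat_lit 111) (.e (nat_lit 360473) (nat_lit 8) (.e (nat_lit 557090) (nat_lit 12) (.e (nat_lit 164020) (nat_lit 45) (.e (nat_lit 696343) (nat_lit 8) .nil))))) .nil))) (.nd (nat_lit 5) 
(.lf (nat_lit 64595) (.g (nat_lit 2361) (.e (nat_lit 1593) (nat_lit 111) (.e (nat_lit 360467) (nat_lit 3) (.e (nat_lit 516139) (nat_lit 7) (.e (nat_lit 409649) (nat_lit 18) (.e (nat_lit 303111) (nat_lit 0) (.e (nat_lit 3144) (nat_lit 193) (.e (nat_lit 499974) (nat_lit 14) .nil))))))) (.g (nat_lit 4) .nil .nil))) 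
(.lf (nat_lit 64627) (.g (nat_lit 1046) (.e (nat_lit 1594) (nat_lit 111) (.e (nat_lit 360467) (nat_lit 3) (.e (nat_lit 516179) (nat_lit 15) (.e (nat_lit 475201) (nat_lit 40) (.e (nat_lit 704841) (nat_lit 15) .nil))))) .nil)))) (.nd (nat_lit 4) (.nd (nat_lit 5) 
(.lf (nat_lit 64587) (.g (nat_lit 1923) (.e (nat_lit 1593) (nat_lit 111) (.e (nat_lit 360467) (nat_lit 3) (.e (nat_lit 516139) (nat_lit 7) (.e (nat_lit 409645) (nat_lit 18) .nil)))) .nil)) 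
(.lf (nat_lit 64619) (.g (nat_lit 3801) (.e (nat_lit 1594) (nat_lit 111) (.e (nat_lit 360467) (nat_lit 3) (.e (nat_lit 516139) (nat_lit 7) (.e (nat_lit 409649) (nat_lit 18) (.e (nat_lit 303117) (nat_lit 2) (.e (nat_lit 196627) (nat_lit 9) .nil)))))) (.g (nat_lit 0) .nil .nil)))) (.nd (nat_lit 5) 
(.lf (nat_lit 64603) (.g (nat_lit 2257) (.e (nat_lit 1593) (nat_lit 111) (.e (nat_lit 360467) (nat_lit 3) (.e (nat_lit 516139) (nat_lit 7) (.e (nat_lit 409649) (nat_lit 18) (.e (nat_lit 303111) (nat_lit 0) (.e (nat_lit 3144) (nat_lit 193) (.e (nat_lit 499992) (nat_lit 14) .nil))))))) (.g (nat_lit 4) .nil .nil))) 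
(.lf (nat_lit 64635) (.g (nat_lit 2518) (.e (nat_lit 1594) (nat_lit 111) (.e (nat_lit 360492) (nat_lit 22) (.e (nat_lit 778466) (nat_lit 11) (.e (nat_lit 24640) (nat_lit 10) (.e (nat_lit 344176) (nat_lit 43) (.e (nat_lit 770054) (nat_lit 5) .nil)))))) (.g (nat_lit 6) .nil .nil)))))) (.nd (nat_lit 3) (.nd (nat_lit 4) (.nd (nat_lit 5) 
(.lf (nat_lit 64583) (.g (nat_lit 1487) (.e (nat_lit 1593) (nat_lit 111) (.e (nat_lit 360452) (nat_lit 0) (.e (nat_lit 7272) (nat_lit 385) (.e (nat_lit 122916) (nat_lit 14) .nil)))) .nil)) 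
(.lf (nat_lit 64615) (.g (nat_lit 1289) (.e (nat_lit 1594) (nat_lit 111) (.e (nat_lit 360466) (nat_lit 3) (.e (nat_lit 516183) (nat_lit 16) (.e (nat_lit 491566) (nat_lit 12) .nil)))) .nil))) (.nd (nat_lit 5) 
(.lf (nat_lit 64599) (.g (nat_lit 2334) (.e (nat_lit 1593) (nat_lit 111) (.e (nat_lit 360467) (nat_lit 3) (.e (nat_lit 516139) (nat_lit 7) (.e (nat_lit 409649) (nat_lit 18) (.e (nat_lit 303111) (nat_lit 0) (.e (nat_lit 3144) (nat_lit 193) (.e (nat_lit 499979) (nat_lit 14) .nil))))))) (.g (nat_lit 4) .nil .nil))) 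
(.lf (nat_lit 64631) (.g (nat_lit 663) (.e (nat_lit 1594) (nat_lit 111) (.e (nat_lit 360467) (nat_lit 3) (.e (nat_lit 516184) (nat_lit 16) .nil))) .nil)))) (.nd (nat_lit 4) (.nd (nat_lit 5) 
(.lf (nat_lit 64591) (.g (nat_lit 3701) (.e (nat_lit 1593) (nat_lit 111) (.e (nat_lit 360467) (nat_lit 3) (.e (nat_lit 516139) (nat_lit 7) (.e (nat_lit 409648) (nat_lit 18) (.e (nat_lit 303116) (nat_lit 2) (.e (nat_lit 196637) (nat_lit 9) .nil)))))) (.g (nat_lit 6) .nil .nil))) 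
(.lf (nat_lit 64623) (.g (nat_lit 1728) (.e (nat_lit 1594) (nat_lit 111) (.e (nat_lit 360467) (nat_lit 3) (.e (nat_lit 516179) (nat_lit 15) (.e (nat_lit 475197) (nat_lit 40) (.e (nat_lit 704589) (nat_lit 3) .nil))))) .nil))) (.nd (nat_lit 5) 
(.lf (nat_lit 64607) (.g (nat_lit 2249) (.e (nat_lit 1593) (nat_lit 111) (.e (nat_lit 360467) (nat_lit 3) (.e (nat_lit 516139) (nat_lit 7) (.e (nat_lit 409649) (nat_lit 18) (.e (nat_lit 303117) (nat_lit 2) .nil))))) .nil)) 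
(.lf (nat_lit 64639) (.g (nat_lit 3244) (.e (nat_lit 1595) (nat_lit 111) (.e (nat_lit 360449) (nat_lit 0) (.e (nat_lit 7122) (nat_lit 382) (.e (nat_lit 1201) (nat_lit 88) (.e (nat_lit 65617) (nat_lit 10) (.e (nat_lit 344177) (nat_lit 43) (.e (nat_lit 770058) (nat_lit 5) .nil))))))) (.g (nat_lit 6) .nil .nil)))))))))

noncomputable def tv888 : DT := (.nd (nat_lit 0) (.nd (nat_lit 1) (.nd (nat_lit 2) (.nd (nat_lit 3) (.nd (nat_lit 4) (.nd (nat_lit 5) 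
(.lf (nat_lit 64640) (.g (nat_lit 2163) (.e (nat_lit 1595) (nat_lit 111) (.e (nat_lit 360449) (nat_lit 0) (.e (nat_lit 7122) (nat_lit 382) (.e (nat_lit 1222) (nat_lit 90) (.e (nat_lit 81943) (nat_lit 20) (.e (nat_lit 2280) (nat_lit 150) (.e (nat_lit 770057) (nat_lit 5) .nil))))))) (.g (nat_lit 4) .nil .nil))) 
(.lf (nat_lit 64672) (.g (nat_lit 1424) (.e (nat_lit 1595) (nat_lit 111) (.e (nat_lit 360449) (nat_lit 0) (.e (nat_lit 7263) (nat_lit 384) (.e (nat_lit 57428) (nat_lit 15) (.e (nat_lit 360489) (nat_lit 21) .nil))))) .nil))) (.nd (nat_lit 5) 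
(.lf (nat_lit 64656) (.g (nat_lit 2483) (.e (nat_lit 1595) (nat_lit 111) (.e (nat_lit 360449) (nat_lit 0) (.e (nat_lit 7261) (nat_lit 384) (.e (nat_lit 57412) (nat_lit 12) (.e (nat_lit 336176) (nat_lit 10) (.e (nat_lit 344177) (nat_lit 43) (.e (nat_lit 770057) (nat_lit 5) .nil))))))) (.g (nat_lit 6) .nil .nil))) 
(.lf (nat_lit 64688) (.g (nat_lit 1654) (.e (nat_lit 1595) (nat_lit 111) (.e (nat_lit 360449) (nat_lit 0) (.e (nat_lit 7265) (nat_lit 384) (.e (nat_lit 57428) (nat_lit 15) (.e (nat_lit 360489) (nat_lit 21) (.e (nat_lit 770057) (nat_lit 5) .nil)))))) (.g (nat_lit 4) .nil .nil))))) (.nd (nat_lit 4) (.nd (nat_lit 5) 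
(.lf (nat_lit 64648) (.g (nat_lit 2456) (.e (nat_lit 1595) (nat_lit 111) (.e (nat_lit 360449) (nat_lit 0) (.e (nat_lit 7125) (nat_lit 382) (.e (nat_lit 1222) (nat_lit 90) (.e (nat_lit 81938) (nat_lit 20) (.e (nat_lit 2281) (nat_lit 150) (.e (nat_lit 770058) (nat_lit 5) .nil))))))) (.g (nat_lit 4) .nil .nil))) 
(.lf (nat_lit 64680) (.g (nat_lit 2120) (.e (nat_lit 1595) (nat_lit 111) (.e (nat_lit 360449) (nat_lit 0) (.e (nat_lit 7265) (nat_lit 384) (.e (nat_lit 57424) (nat_lit 14) (.e (nat_lit 352302) (nat_lit 20) .nil))))) .nil))) (.nd (nat_lit 5) 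
(.lf (nat_lit 64664) (.g (nat_lit 1463) (.e (nat_lit 1595) (nat_lit 111) (.e (nat_lit 360449) (nat_lit 0) (.e (nat_lit 7261) (nat_lit 384) (.e (nat_lit 57436) (nat_lit 17) (.e (nat_lit 376855) (nat_lit 20) (.e (nat_lit 2276) (nat_lit 150) (.e (nat_lit 770057) (nat_lit 5) .nil))))))) (.g (nat_lit 4) .nil .nil))) 
(.lf (nat_lit 64696) (.g (nat_lit 2281) (.e (nat_lit 1595) (nat_lit 111) (.e (nat_lit 360449) (nat_lit 0) (.e (nat_lit 7266) (nat_lit 384) (.e (nat_lit 57428) (nat_lit 15) (.e (nat_lit 360489) (nat_lit 21) (.e (nat_lit 770057) (nat_lit 5) .nil)))))) (.g (nat_lit 5) .nil .nil)))))) (.nd (nat_lit 3) (.nd (nat_lit 4) (.nd (nat_lit 5) 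
(.lf (nat_lit 64644) (.g (nat_lit 1891) (.e (nat_lit 1595) (nat_lit 111) (.e (nat_lit 360449) (nat_lit 0) (.e (nat_lit 7124) (nat_lit 382) (.e (nat_lit 1222) (nat_lit 90) (.e (nat_lit 81943) (nat_lit 20) (.e (nat_lit 2281) (nat_lit 150) (.e (nat_lit 770058) (nat_lit 5) .nil))))))) (.g (nat_lit 4) .nil .nil))) 
(.lf (nat_lit 64676) (.g (nat_lit 3258) (.e (nat_lit 1595) (nat_lit 111) (.e (nat_lit 360449) (nat_lit 0) (.e (nat_lit 7265) (nat_lit 384) (.e (nat_lit 57412) (nat_lit 12) (.e (nat_lit 336173) (nat_lit 10) (.e (nat_lit 344177) (nat_lit 43) (.e (nat_lit 770058) (nat_lit 5) .nil))))))) (.g (nat_lit 6) .nil .nil)))) (.nd (nat_lit 5) 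
(.lf (nat_lit 64660) (.g (nat_lit 1596) (.e (nat_lit 1595) (nat_lit 111) (.e (nat_lit 360449) (nat_lit 0) (.e (nat_lit 7261) (nat_lit 384) (.e (nat_lit 57427) (nat_lit 15) (.e (nat_lit 360489) (nat_lit 21) (.e (nat_lit 770057) (nat_lit 5) .nil)))))) (.g (nat_lit 4) .nil .nil))) 
(.lf (nat_lit 64692) (.g (nat_lit 1636) (.e (nat_lit 1595) (nat_lit 111) (.e (nat_lit 360449) (nat_lit 0) (.e (nat_lit 7266) (nat_lit 384) (.e (nat_lit 57426) (nat_lit 15) (.e (nat_lit 360489) (nat_lit 21) (.e (nat_lit 770055) (nat_lit 5) .nil)))))) (.g (nat_lit 4) .nil .nil))))) (.nd (nat_lit 4) (.nd (nat_lit 5) 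
(.lf (nat_lit 64652) (.g (nat_lit 1509) (.e (nat_lit 1595) (nat_lit 111) (.e (nat_lit 360449) (nat_lit 0) (.e (nat_lit 7125) (nat_lit 382) (.e (nat_lit 1224) (nat_lit 90) (.e (nat_lit 81946) (nat_lit 20) .nil))))) .nil)) 
(.lf (nat_lit 64684) (.g (nat_lit 2542) (.e (nat_lit 1595) (nat_lit 111) (.e (nat_lit 360449) (nat_lit 0) (.e (nat_lit 7265) (nat_lit 384) (.e (nat_lit 57426) (nat_lit 15) (.e (nat_lit 360489) (nat_lit 21) (.e (nat_lit 770058) (nat_lit 5) .nil)))))) (.g (nat_lit 5) .nil .nil)))) (.nd (nat_lit 5) 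
(.lf (nat_lit 64668) (.g (nat_lit 2656) (.e (nat_lit 1595) (nat_lit 111) (.e (nat_lit 360449) (nat_lit 0) (.e (nat_lit 7263) (nat_lit 384) (.e (nat_lit 57412) (nat_lit 12) (.e (nat_lit 336176) (nat_lit 10) (.e (nat_lit 344177) (nat_lit 43) (.e (nat_lit 770058) (nat_lit 5) .nil))))))) (.g (nat_lit 6) .nil .nil))) 
(.lf (nat_lit 64700) (.g (nat_lit 1592) (.e (nat_lit 1595) (nat_lit 111) (.e (nat_lit 360452) (nat_lit 0) (.e (nat_lit 5905) (nat_lit 320) (.e (nat_lit 1189) (nat_lit 88) .nil)))) .nil)))))) (.nd (nat_lit 2) (.nd (nat_lit 3) (.nd (nat_lit 4) (.nd (nat_lit 5) 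
(.lf (nat_lit 64642) (.g (nat_lit 1201) (.e (nat_lit 1595) (nat_lit 111) (.e (nat_lit 360449) (nat_lit 0) (.e (nat_lit 7122) (nat_lit 382) (.e (nat_lit 7936) (nat_lit 90) .nil)))) .nil)) 
(.lf (nat_lit 64674) (.g (nat_lit 2033) (.e (nat_lit 1595) (nat_lit 111) (.e (nat_lit 360449) (nat_lit 0) (.e (nat_lit 7265) (nat_lit 384) (.e (nat_lit 57412) (nat_lit 12) (.e (nat_lit 336173) (nat_lit 10) (.e (nat_lit 344177) (nat_lit 43) (.e (nat_lit 770055) (nat_lit 5) .nil))))))) (.g (nat_lit 4) .nil .nil)))) (.nd (nat_lit 5) 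
(.lf (nat_lit 64658) (.g (nat_lit 1476) (.e (nat_lit 1595) (nat_lit 111) (.e (nat_lit 360449) (nat_lit 0) (.e (nat_lit 7261) (nat_lit 384) (.e (nat_lit 57426) (nat_lit 15) (.e (nat_lit 360489) (nat_lit 21) (.e (nat_lit 770057) (nat_lit 5) .nil)))))) (.g (nat_lit 4) .nil .nil))) 
(.lf (nat_lit 64690) (.g (nat_lit 1798) (.e (nat_lit 1595) (nat_lit 111) (.e (nat_lit 360449) (nat_lit 0) (.e (nat_lit 7265) (nat_lit 384) (.e (nat_lit 57436) (nat_lit 17) (.e (nat_lit 376855) (nat_lit 20) .nil))))) .nil)))) (.nd (nat_lit 4) (.nd (nat_lit 5) 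
(.lf (nat_lit 64650) (.g (nat_lit 2690) (.e (nat_lit 1595) (nat_lit 111) (.e (nat_lit 360449) (nat_lit 0) (.e (nat_lit 7125) (nat_lit 382) (.e (nat_lit 1222) (nat_lit 90) (.e (nat_lit 81943) (nat_lit 20) (.e (nat_lit 2280) (nat_lit 150) (.e (nat_lit 770057) (nat_lit 5) .nil))))))) (.g (nat_lit 5) .nil .nil))) 
(.lf (nat_lit 64682) (.g (nat_lit 2275) (.e (nat_lit 1595) (nat_lit 111) (.e (nat_lit 360449) (nat_lit 0) (.e (nat_lit 7265) (nat_lit 384) (.e (nat_lit 57424) (nat_lit 14) (.e (nat_lit 352303) (nat_lit 20) (.e (nat_lit 2281) (nat_lit 150) (.e (nat_lit 770058) (nat_lit 5) .nil))))))) (.g (nat_lit 5) .nil .nil)))) (.nd (nat_lit 5) 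
(.lf (nat_lit 64666) (.g (nat_lit 1546) (.e (nat_lit 1595) (nat_lit 111) (.e (nat_lit 360449) (nat_lit 0) (.e (nat_lit 7263) (nat_lit 384) (.e (nat_lit 57412) (nat_lit 12) (.e (nat_lit 336176) (nat_lit 10) (.e (nat_lit 344177) (nat_lit 43) (.e (nat_lit 770055) (nat_lit 5) .nil))))))) (.g (nat_lit 4) .nil .nil))) 
(.lf (nat_lit 64698) (.g (nat_lit 1115) (.e (nat_lit 1595) (nat_lit 111) (.e (nat_lit 360449) (nat_lit 0) (.e (nat_lit 7710) (nat_lit 414) (.e (nat_lit 163908) (nat_lit 12) .nil)))) .nil))))) (.nd (nat_lit 3) (.nd (nat_lit 4) (.nd (nat_lit 5) 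
(.lf (nat_lit 64646) (.g (nat_lit 2517) (.e (nat_lit 1595) (nat_lit 111) (.e (nat_lit 360449) (nat_lit 0) (.e (nat_lit 7125) (nat_lit 382) (.e (nat_lit 1201) (nat_lit 88) (.e (nat_lit 65617) (nat_lit 10) (.e (nat_lit 344175) (nat_lit 43) (.e (nat_lit 770057) (nat_lit 5) .nil))))))) (.g (nat_lit 5) .nil .nil))) 
(.lf (nat_lit 64678) (.g (nat_lit 2986) (.e (nat_lit 1595) (nat_lit 111) (.e (nat_lit 360449) (nat_lit 0) (.e (nat_lit 7265) (nat_lit 384) (.e (nat_lit 57412) (nat_lit 12) (.e (nat_lit 336176) (nat_lit 10) (.e (nat_lit 344177) (nat_lit 43) (.e (nat_lit 770057) (nat_lit 5) .nil))))))) (.g (nat_lit 6) .nil .nil)))) (.nd (nat_lit 5) 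
(.lf (nat_lit 64662) (.g (nat_lit 1836) (.e (nat_lit 1595) (nat_lit 111) (.e (nat_lit 360449) (nat_lit 0) (.e (nat_lit 7261) (nat_lit 384) (.e (nat_lit 57428) (nat_lit 15) (.e (nat_lit 360489) (nat_lit 21) (.e (nat_lit 770057) (nat_lit 5) .nil)))))) (.g (nat_lit 4) .nil .nil))) 
(.lf (nat_lit 64694) (.g (nat_lit 1769) (.e (nat_lit 1595) (nat_lit 111) (.e (nat_lit 360449) (nat_lit 0) (.e (nat_lit 7266) (nat_lit 384) (.e (nat_lit 57427) (nat_lit 15) (.e (nat_lit 360489) (nat_lit 21) (.e (nat_lit 770055) (nat_lit 5) .nil)))))) (.g (nat_lit 4) .nil .nil))))) (.nd (nat_lit 4) (.nd (nat_lit 5) 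
(.lf (nat_lit 64654) (.g (nat_lit 1056) (.e (nat_lit 1595) (nat_lit 111) (.e (nat_lit 360449) (nat_lit 0) (.e (nat_lit 7125) (nat_lit 382) (.e (nat_lit 7936) (nat_lit 90) .nil)))) .nil)) 
(.lf (nat_lit 64686) (.g (nat_lit 2393) (.e (nat_lit 1595) (nat_lit 111) (.e (nat_lit 360449) (nat_lit 0) (.e (nat_lit 7265) (nat_lit 384) (.e (nat_lit 57427) (nat_lit 15) (.e (nat_lit 360489) (nat_lit 21) (.e (nat_lit 770057) (nat_lit 5) .nil)))))) (.g (nat_lit 4) .nil .nil)))) (.nd (nat_lit 5) 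
(.lf (nat_lit 64670) (.g (nat_lit 1518) (.e (nat_lit 1595) (nat_lit 111) (.e (nat_lit 360449) (nat_lit 0) (.e (nat_lit 7263) (nat_lit 384) (.e (nat_lit 57427) (nat_lit 15) (.e (nat_lit 360489) (nat_lit 21) (.e (nat_lit 770057) (nat_lit 5) .nil)))))) (.g (nat_lit 4) .nil .nil))) 
(.lf (nat_lit 64702) (.g (nat_lit 1995) (.e (nat_lit 1595) (nat_lit 111) (.e (nat_lit 360452) (nat_lit 0) (.e (nat_lit 5905) (nat_lit 320) (.e (nat_lit 1200) (nat_lit 88) (.e (nat_lit 65619) (nat_lit 10) .nil))))) .nil))))))) (.nd (nat_lit 1) (.nd (nat_lit 2) (.nd (nat_lit 3) (.nd (nat_lit 4) (.nd (nat_lit 5) 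
(.lf (nat_lit 64641) (.g (nat_lit 1766) (.e (nat_lit 1595) (nat_lit 111) (.e (nat_lit 360449) (nat_lit 0) (.e (nat_lit 7122) (nat_lit 382) (.e (nat_lit 1224) (nat_lit 90) (.e (nat_lit 81947) (nat_lit 20) .nil))))) .nil)) 
(.lf (nat_lit 64673) (.g (nat_lit 384) (.e (nat_lit 1595) (nat_lit 111) (.e (nat_lit 360449) (nat_lit 0) (.e (nat_lit 7265) (nat_lit 384) .nil))) .nil))) (.nd (nat_lit 5) 
(.lf (nat_lit 64657) (.g (nat_lit 2693) (.e (nat_lit 1595) (nat_lit 111) (.e (nat_lit 360449) (nat_lit 0) (.e (nat_lit 7261) (nat_lit 384) (.e (nat_lit 57412) (nat_lit 12) (.e (nat_lit 336176) (nat_lit 10) (.e (nat_lit 344177) (nat_lit 43) (.e (nat_lit 770058) (nat_lit 5) .nil))))))) (.g (nat_lit 6) .nil .nil))) 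
(.lf (nat_lit 64689) (.g (nat_lit 1829) (.e (nat_lit 1595) (nat_lit 111) (.e (nat_lit 360449) (nat_lit 0) (.e (nat_lit 7265) (nat_lit 384) (.e (nat_lit 57428) (nat_lit 15) (.e (nat_lit 360489) (nat_lit 21) (.e (nat_lit 770058) (nat_lit 5) .nil)))))) (.g (nat_lit 4) .nil .nil))))) (.nd (nat_lit 4) (.nd (nat_lit 5) 
(.lf (nat_lit 64649) (.g (nat_lit 1737) (.e (nat_lit 1595) (nat_lit 111) (.e (nat_lit 360449) (nat_lit 0) (.e (nat_lit 7125) (nat_lit 382) (.e (nat_lit 1222) (nat_lit 90) (.e (nat_lit 81943) (nat_lit 20) .nil))))) .nil)) 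
(.lf (nat_lit 64681) (.g (nat_lit 2049) (.e (nat_lit 1595) (nat_lit 111) (.e (nat_lit 360449) (nat_lit 0) (.e (nat_lit 7265) (nat_lit 384) (.e (nat_lit 57424) (nat_lit 14) (.e (nat_lit 352303) (nat_lit 20) (.e (nat_lit 2281) (nat_lit 150) (.e (nat_lit 770057) (nat_lit 5) .nil))))))) (.g (nat_lit 4) .nil .nil)))) (.nd (nat_lit 5) 
(.lf (nat_lit 64665) (.g (nat_lit 1652) (.e (nat_lit 1595) (nat_lit 111) (.e (nat_lit 360449) (nat_lit 0) (.e (nat_lit 7261) (nat_lit 384) (.e (nat_lit 57437) (nat_lit 17) (.e (nat_lit 376855) (nat_lit 20) .nil))))) .nil)) 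
(.lf (nat_lit 64697) (.g (nat_lit 2080) (.e (nat_lit 1595) (nat_lit 111) (.e (nat_lit 360449) (nat_lit 0) (.e (nat_lit 7266) (nat_lit 384) (.e (nat_lit 57436) (nat_lit 17) (.e (nat_lit 376855) (nat_lit 20) (.e (nat_lit 2276) (nat_lit 150) (.e (nat_lit 770057) (nat_lit 5) .nil))))))) (.g (nat_lit 4) .nil .nil)))))) (.nd (nat_lit 3) (.nd (nat_lit 4) (.nd (nat_lit 5) 
(.lf (nat_lit 64645) (.g (nat_lit 2006) (.e (nat_lit 1595) (nat_lit 111) (.e (nat_lit 360449) (nat_lit 0) (.e (nat_lit 7125) (nat_lit 382) (.e (nat_lit 1201) (nat_lit 88) (.e (nat_lit 65611) (nat_lit 10) (.e (nat_lit 344177) (nat_lit 43) (.e (nat_lit 770058) (nat_lit 5) .nil))))))) (.g (nat_lit 4) .nil .nil))) 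
(.lf (nat_lit 64677) (.g (nat_lit 2087) (.e (nat_lit 1595) (nat_lit 111) (.e (nat_lit 360449) (nat_lit 0) (.e (nat_lit 7265) (nat_lit 384) (.e (nat_lit 57412) (nat_lit 12) (.e (nat_lit 336176) (nat_lit 10) (.e (nat_lit 344177) (nat_lit 43) (.e (nat_lit 770055) (nat_lit 5) .nil))))))) (.g (nat_lit 5) .nil .nil)))) (.nd (nat_lit 5) 
(.lf (nat_lit 64661) (.g (nat_lit 1802) (.e (nat_lit 1595) (nat_lit 111) (.e (nat_lit 360449) (nat_lit 0) (.e (nat_lit 7261) (nat_lit 384) (.e (nat_lit 57427) (nat_lit 15) (.e (nat_lit 360489) (nat_lit 21) (.e (nat_lit 770058) (nat_lit 5) .nil)))))) (.g (nat_lit 5) .nil .nil))) 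
(.lf (nat_lit 64693) (.g (nat_lit 2470) (.e (nat_lit 1595) (nat_lit 111) (.e (nat_lit 360449) (nat_lit 0) (.e (nat_lit 7266) (nat_lit 384) (.e (nat_lit 57426) (nat_lit 15) (.e (nat_lit 360489) (nat_lit 21) (.e (nat_lit 770057) (nat_lit 5) .nil)))))) (.g (nat_lit 0) .nil .nil))))) (.nd (nat_lit 4) (.nd (nat_lit 5) 
(.lf (nat_lit 64653) (.g (nat_lit 3379) (.e (nat_lit 1595) (nat_lit 111) (.e (nat_lit 360449) (nat_lit 0) (.e (nat_lit 7125) (nat_lit 382) (.e (nat_lit 1224) (nat_lit 90) (.e (nat_lit 81946) (nat_lit 20) (.e (nat_lit 2281) (nat_lit 150) (.e (nat_lit 770057) (nat_lit 5) .nil))))))) (.g (nat_lit 0) .nil .nil))) 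
(.lf (nat_lit 64685) (.g (nat_lit 1084) (.e (nat_lit 1595) (nat_lit 111) (.e (nat_lit 360449) (nat_lit 0) (.e (nat_lit 7265) (nat_lit 384) (.e (nat_lit 57427) (nat_lit 15) .nil)))) .nil))) (.nd (nat_lit 5) 
(.lf (nat_lit 64669) (.g (nat_lit 1370) (.e (nat_lit 1595) (nat_lit 111) (.e (nat_lit 360449) (nat_lit 0) (.e (nat_lit 7263) (nat_lit 384) (.e (nat_lit 57426) (nat_lit 15) (.e (nat_lit 360489) (nat_lit 21) (.e (nat_lit 770057) (nat_lit 5) .nil)))))) (.g (nat_lit 4) .nil .nil))) 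
(.lf (nat_lit 64701) (.g (nat_lit 2231) (.e (nat_lit 1595) (nat_lit 111) (.e (nat_lit 360452) (nat_lit 0) (.e (nat_lit 5905) (nat_lit 320) (.e (nat_lit 1190) (nat_lit 88) (.e (nat_lit 65619) (nat_lit 10) .nil))))) .nil)))))) (.nd (nat_lit 2) (.nd (nat_lit 3) (.nd (nat_lit 4) (.nd (nat_lit 5) 
(.lf (nat_lit 64643) (.g (nat_lit 1697) (.e (nat_lit 1595) (nat_lit 111) (.e (nat_lit 360449) (nat_lit 0) (.e (nat_lit 7124) (nat_lit 382) (.e (nat_lit 1222) (nat_lit 90) (.e (nat_lit 81943) (nat_lit 20) (.e (nat_lit 2281) (nat_lit 150) (.e (nat_lit 770057) (nat_lit 5) .nil))))))) (.g (nat_lit 4) .nil .nil))) 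
(.lf (nat_lit 64675) (.g (nat_lit 3069) (.e (nat_lit 1595) (nat_lit 111) (.e (nat_lit 360449) (nat_lit 0) (.e (nat_lit 7265) (nat_lit 384) (.e (nat_lit 57412) (nat_lit 12) (.e (nat_lit 336173) (nat_lit 10) (.e (nat_lit 344177) (nat_lit 43) (.e (nat_lit 770057) (nat_lit 5) .nil))))))) (.g (nat_lit 6) .nil .nil)))) (.nd (nat_lit 5) 
(.lf (nat_lit 64659) (.g (nat_lit 1722) (.e (nat_lit 1595) (nat_lit 111) (.e (nat_lit 360449) (nat_lit 0) (.e (nat_lit 7261) (nat_lit 384) (.e (nat_lit 57426) (nat_lit 15) (.e (nat_lit 360489) (nat_lit 21) (.e (nat_lit 770058) (nat_lit 5) .nil)))))) (.g (nat_lit 5) .nil .nil))) 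
(.lf (nat_lit 64691) (.g (nat_lit 2329) (.e (nat_lit 1595) (nat_lit 111) (.e (nat_lit 360449) (nat_lit 0) (.e (nat_lit 7265) (nat_lit 384) (.e (nat_lit 57436) (nat_lit 17) (.e (nat_lit 376855) (nat_lit 20) (.e (nat_lit 2276) (nat_lit 150) (.e (nat_lit 770057) (nat_lit 5) .nil))))))) (.g (nat_lit 5) .nil .nil))))) (.nd (nat_lit 4) (.nd (nat_lit 5) 
(.lf (nat_lit 64651) (.g (nat_lit 3553) (.e (nat_lit 1595) (nat_lit 111) (.e (nat_lit 360449) (nat_lit 0) (.e (nat_lit 7125) (nat_lit 382) (.e (nat_lit 1222) (nat_lit 90) (.e (nat_lit 81943) (nat_lit 20) (.e (nat_lit 2281) (nat_lit 150) (.e (nat_lit 770057) (nat_lit 5) .nil))))))) (.g (nat_lit 0) .nil .nil))) 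
(.lf (nat_lit 64683) (.g (nat_lit 2280) (.e (nat_lit 1595) (nat_lit 111) (.e (nat_lit 360449) (nat_lit 0) (.e (nat_lit 7265) (nat_lit 384) (.e (nat_lit 57426) (nat_lit 15) (.e (nat_lit 360489) (nat_lit 21) (.e (nat_lit 770057) (nat_lit 5) .nil)))))) (.g (nat_lit 4) .nil .nil)))) (.nd (nat_lit 5) 
(.lf (nat_lit 64667) (.g (nat_lit 2445) (.e (nat_lit 1595) (nat_lit 111) (.e (nat_lit 360449) (nat_lit 0) (.e (nat_lit 7263) (nat_lit 384) (.e (nat_lit 57412) (nat_lit 12) (.e (nat_lit 336176) (nat_lit 10) (.e (nat_lit 344177) (nat_lit 43) (.e (nat_lit 770057) (nat_lit 5) .nil))))))) (.g (nat_lit 6) .nil .nil))) 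
(.lf (nat_lit 64699) (.g (nat_lit 644) (.e (nat_lit 1595) (nat_lit 111) (.e (nat_lit 360452) (nat_lit 0) (.e (nat_lit 5905) (nat_lit 320) .nil))) .nil))))) (.nd (nat_lit 3) (.nd (nat_lit 4) (.nd (nat_lit 5) 
(.lf (nat_lit 64647) (.g (nat_lit 2724) (.e (nat_lit 1595) (nat_lit 111) (.e (nat_lit 360449) (nat_lit 0) (.e (nat_lit 7125) (nat_lit 382) (.e (nat_lit 1201) (nat_lit 88) (.e (nat_lit 65617) (nat_lit 10) (.e (nat_lit 344175) (nat_lit 43) (.e (nat_lit 770058) (nat_lit 5) .nil))))))) (.g (nat_lit 5) .nil .nil))) 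
(.lf (nat_lit 64679) (.g (nat_lit 3195) (.e (nat_lit 1595) (nat_lit 111) (.e (nat_lit 360449) (nat_lit 0) (.e (nat_lit 7265) (nat_lit 384) (.e (nat_lit 57412) (nat_lit 12) (.e (nat_lit 336176) (nat_lit 10) (.e (nat_lit 344177) (nat_lit 43) (.e (nat_lit 770058) (nat_lit 5) .nil))))))) (.g (nat_lit 6) .nil .nil)))) (.nd (nat_lit 5) 
(.lf (nat_lit 64663) (.g (nat_lit 2012) (.e (nat_lit 1595) (nat_lit 111) (.e (nat_lit 360449) (nat_lit 0) (.e (nat_lit 7261) (nat_lit 384) (.e (nat_lit 57428) (nat_lit 15) (.e (nat_lit 360489) (nat_lit 21) (.e (nat_lit 770058) (nat_lit 5) .nil)))))) (.g (nat_lit 5) .nil .nil))) 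
(.lf (nat_lit 64695) (.g (nat_lit 2591) (.e (nat_lit 1595) (nat_lit 111) (.e (nat_lit 360449) (nat_lit 0) (.e (nat_lit 7266) (nat_lit 384) (.e (nat_lit 57427) (nat_lit 15) (.e (nat_lit 360489) (nat_lit 21) (.e (nat_lit 770057) (nat_lit 5) .nil)))))) (.g (nat_lit 0) .nil .nil))))) (.nd (nat_lit 4) (.nd (nat_lit 5) 
(.lf (nat_lit 64655) (.g (nat_lit 1584) (.e (nat_lit 1595) (nat_lit 111) (.e (nat_lit 360449) (nat_lit 0) (.e (nat_lit 7261) (nat_lit 384) (.e (nat_lit 57412) (nat_lit 12) (.e (nat_lit 336176) (nat_lit 10) (.e (nat_lit 344177) (nat_lit 43) (.e (nat_lit 770055) (nat_lit 5) .nil))))))) (.g (nat_lit 4) .nil .nil))) 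
(.lf (nat_lit 64687) (.g (nat_lit 2601) (.e (nat_lit 1595) (nat_lit 111) (.e (nat_lit 360449) (nat_lit 0) (.e (nat_lit 7265) (nat_lit 384) (.e (nat_lit 57427) (nat_lit 15) (.e (nat_lit 360489) (nat_lit 21) (.e (nat_lit 770058) (nat_lit 5) .nil)))))) (.g (nat_lit 5) .nil .nil)))) (.nd (nat_lit 5) 
(.lf (nat_lit 64671) (.g (nat_lit 1725) (.e (nat_lit 1595) (nat_lit 111) (.e (nat_lit 360449) (nat_lit 0) (.e (nat_lit 7263) (nat_lit 384) (.e (nat_lit 57427) (nat_lit 15) (.e (nat_lit 360489) (nat_lit 21) (.e (nat_lit 770058) (nat_lit 5) .nil)))))) (.g (nat_lit 5) .nil .nil))) 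
(.lf (nat_lit 64703) (.g (nat_lit 1616) (.e (nat_lit 1595) (nat_lit 111) (.e (nat_lit 360452) (nat_lit 0) (.e (nat_lit 5905) (nat_lit 320) (.e (nat_lit 1219) (nat_lit 90) .nil)))) .nil))))))))

noncomputable def tv889 : DT := (.nd (nat_lit 0) (.nd (nat_lit 1) (.nd (nat_lit 2) (.nd (nat_lit 3) (.nd (nat_lit 4) (.nd (nat_lit 5) 
(.lf (nat_lit 64704) (.g (nat_lit 1218) (.e (nat_lit 1595) (nat_lit 111) (.e (nat_lit 360452) (nat_lit 0) (.e (nat_lit 5905) (nat_lit 320) (.e (nat_lit 1221) (nat_lit 90) .nil)))) .nil)) 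
(.lf (nat_lit 64736) (.g (nat_lit 1670) (.e (nat_lit 1595) (nat_lit 111) (.e (nat_lit 360453) (nat_lit 0) (.e (nat_lit 5907) (nat_lit 320) (.e (nat_lit 1219) (nat_lit 90) (.e (nat_lit 81942) (nat_lit 20) .nil))))) .nil))) (.nd (nat_lit 5) 
(.lf (nat_lit 64720) (.g (nat_lit 1693) (.e (nat_lit 1595) (nat_lit 111) (.e (nat_lit 360453) (nat_lit 0) (.e (nat_lit 5907) (nat_lit 320) (.e (nat_lit 1190) (nat_lit 88) (.e (nat_lit 65604) (nat_lit 9) .nil))))) .nil)) 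
(.lf (nat_lit 64752) (.g (nat_lit 1911) (.e (nat_lit 1595) (nat_lit 111) (.e (nat_lit 360453) (nat_lit 0) (.e (nat_lit 5907) (nat_lit 320) (.e (nat_lit 1221) (nat_lit 90) (.e (nat_lit 81948) (nat_lit 21) .nil))))) .nil)))) (.nd (nat_lit 4) (.nd (nat_lit 5) 
(.lf (nat_lit 64712) (.g (nat_lit 1750) (.e (nat_lit 1595) (nat_lit 111) (.e (nat_lit 360452) (nat_lit 0) (.e (nat_lit 7270) (nat_lit 385) (.e (nat_lit 122919) (nat_lit 15) .nil)))) .nil)) 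
(.lf (nat_lit 64744) (.g (nat_lit 1841) (.e (nat_lit 1595) (nat_lit 111) (.e (nat_lit 360453) (nat_lit 0) (.e (nat_lit 5907) (nat_lit 320) (.e (nat_lit 1221) (nat_lit 90) (.e (nat_lit 81938) (nat_lit 20) (.e (nat_lit 2003) (nat_lit 138) (.e (nat_lit 671746) (nat_lit 0) .nil))))))) (.g (nat_lit 4) .nil .nil)))) (.nd (nat_lit 5) 
(.lf (nat_lit 64728) (.g (nat_lit 1391) (.e (nat_lit 1595) (nat_lit 111) (.e (nat_lit 360453) (nat_lit 0) (.e (nat_lit 5907) (nat_lit 320) (.e (nat_lit 1200) (nat_lit 88) (.e (nat_lit 65604) (nat_lit 9) .nil))))) .nil)) 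
(.lf (nat_lit 64760) (.g (nat_lit 2381) (.e (nat_lit 1595) (nat_lit 111) (.e (nat_lit 360453) (nat_lit 0) (.e (nat_lit 7270) (nat_lit 385) (.e (nat_lit 122917) (nat_lit 15) (.e (nat_lit 360489) (nat_lit 21) (.e (nat_lit 770055) (nat_lit 5) .nil)))))) (.g (nat_lit 4) .nil .nil)))))) (.nd (nat_lit 3) (.nd (nat_lit 4) (.nd (nat_lit 5) 
(.lf (nat_lit 64708) (.g (nat_lit 1585) (.e (nat_lit 1595) (nat_lit 111) (.e (nat_lit 360452) (nat_lit 0) (.e (nat_lit 5907) (nat_lit 320) (.e (nat_lit 1221) (nat_lit 90) .nil)))) .nil)) 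
(.lf (nat_lit 64740) (.g (nat_lit 2223) (.e (nat_lit 1595) (nat_lit 111) (.e (nat_lit 360453) (nat_lit 0) (.e (nat_lit 5907) (nat_lit 320) (.e (nat_lit 1220) (nat_lit 90) (.e (nat_lit 81938) (nat_lit 20) (.e (nat_lit 2005) (nat_lit 138) (.e (nat_lit 671747) (nat_lit 0) .nil))))))) (.g (nat_lit 4) .nil .nil)))) (.nd (nat_lit 5) 
(.lf (nat_lit 64724) (.g (nat_lit 1025) (.e (nat_lit 1595) (nat_lit 111) (.e (nat_lit 360453) (nat_lit 0) (.e (nat_lit 5907) (nat_lit 320) (.e (nat_lit 1199) (nat_lit 88) .nil)))) .nil)) 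
(.lf (nat_lit 64756) (.g (nat_lit 2311) (.e (nat_lit 1595) (nat_lit 111) (.e (nat_lit 360453) (nat_lit 0) (.e (nat_lit 7270) (nat_lit 385) (.e (nat_lit 122916) (nat_lit 14) (.e (nat_lit 352302) (nat_lit 20) .nil))))) .nil)))) (.nd (nat_lit 4) (.nd (nat_lit 5) 
(.lf (nat_lit 64716) (.g (nat_lit 1234) (.e (nat_lit 1595) (nat_lit 111) (.e (nat_lit 360453) (nat_lit 0) (.e (nat_lit 5243) (nat_lit 297) (.e (nat_lit 229415) (nat_lit 15) (.e (nat_lit 450592) (nat_lit 14) .nil))))) .nil)) 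
(.lf (nat_lit 64748) (.g (nat_lit 2510) (.e (nat_lit 1595) (nat_lit 111) (.e (nat_lit 360453) (nat_lit 0) (.e (nat_lit 5907) (nat_lit 320) (.e (nat_lit 1221) (nat_lit 90) (.e (nat_lit 81939) (nat_lit 20) (.e (nat_lit 2005) (nat_lit 138) (.e (nat_lit 671748) (nat_lit 0) .nil))))))) (.g (nat_lit 4) .nil .nil)))) (.nd (nat_lit 5) 
(.lf (nat_lit 64732) (.g (nat_lit 990) (.e (nat_lit 1595) (nat_lit 111) (.e (nat_lit 360453) (nat_lit 0) (.e (nat_lit 5907) (nat_lit 320) (.e (nat_lit 1219) (nat_lit 90) .nil)))) .nil)) 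
(.lf (nat_lit 64764) (.g (nat_lit 1628) (.e (nat_lit 1595) (nat_lit 111) (.e (nat_lit 360453) (nat_lit 0) (.e (nat_lit 7270) (nat_lit 385) (.e (nat_lit 122919) (nat_lit 15) (.e (nat_lit 360450) (nat_lit 0) .nil))))) .nil)))))) (.nd (nat_lit 2) (.nd (nat_lit 3) (.nd (nat_lit 4) (.nd (nat_lit 5) 
(.lf (nat_lit 64706) (.g (nat_lit 1613) (.e (nat_lit 1595) (nat_lit 111) (.e (nat_lit 360452) (nat_lit 0) (.e (nat_lit 5907) (nat_lit 320) (.e (nat_lit 1219) (nat_lit 90) .nil)))) .nil)) 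
(.lf (nat_lit 64738) (.g (nat_lit 1996) (.e (nat_lit 1595) (nat_lit 111) (.e (nat_lit 360453) (nat_lit 0) (.e (nat_lit 5907) (nat_lit 320) (.e (nat_lit 1220) (nat_lit 90) (.e (nat_lit 81931) (nat_lit 20) .nil))))) .nil))) (.nd (nat_lit 5) 
(.lf (nat_lit 64722) (.g (nat_lit 2740) (.e (nat_lit 1595) (nat_lit 111) (.e (nat_lit 360453) (nat_lit 0) (.e (nat_lit 5907) (nat_lit 320) (.e (nat_lit 1190) (nat_lit 88) (.e (nat_lit 65619) (nat_lit 10) (.e (nat_lit 344168) (nat_lit 40) (.e (nat_lit 671746) (nat_lit 0) .nil))))))) (.g (nat_lit 5) .nil .nil))) 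
(.lf (nat_lit 64754) (.g (nat_lit 1991) (.e (nat_lit 1595) (nat_lit 111) (.e (nat_lit 360453) (nat_lit 0) (.e (nat_lit 5907) (nat_lit 320) (.e (nat_lit 1221) (nat_lit 90) (.e (nat_lit 81950) (nat_lit 21) (.e (nat_lit 57871) (nat_lit 264) (.e (nat_lit 992) (nat_lit 81) .nil))))))) (.g (nat_lit 4) .nil .nil))))) (.nd (nat_lit 4) (.nd (nat_lit 5) 
(.lf (nat_lit 64714) (.g (nat_lit 1495) (.e (nat_lit 1595) (nat_lit 111) (.e (nat_lit 360452) (nat_lit 0) (.e (nat_lit 7272) (nat_lit 385) (.e (nat_lit 122917) (nat_lit 15) .nil)))) .nil)) 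
(.lf (nat_lit 64746) (.g (nat_lit 2077) (.e (nat_lit 1595) (nat_lit 111) (.e (nat_lit 360453) (nat_lit 0) (.e (nat_lit 5907) (nat_lit 320) (.e (nat_lit 1221) (nat_lit 90) (.e (nat_lit 81938) (nat_lit 20) (.e (nat_lit 2006) (nat_lit 138) (.e (nat_lit 671747) (nat_lit 0) .nil))))))) (.g (nat_lit 4) .nil .nil)))) (.nd (nat_lit 5) 
(.lf (nat_lit 64730) (.g (nat_lit 2580) (.e (nat_lit 1595) (nat_lit 111) (.e (nat_lit 360453) (nat_lit 0) (.e (nat_lit 5907) (nat_lit 320) (.e (nat_lit 1200) (nat_lit 88) (.e (nat_lit 65619) (nat_lit 10) (.e (nat_lit 344168) (nat_lit 40) (.e (nat_lit 671746) (nat_lit 0) .nil))))))) (.g (nat_lit 5) .nil .nil))) 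
(.lf (nat_lit 64762) (.g (nat_lit 3061) (.e (nat_lit 1595) (nat_lit 111) (.e (nat_lit 360453) (nat_lit 0) (.e (nat_lit 7270) (nat_lit 385) (.e (nat_lit 122917) (nat_lit 15) (.e (nat_lit 360489) (nat_lit 21) (.e (nat_lit 770058) (nat_lit 5) .nil)))))) (.g (nat_lit 5) .nil .nil)))))) (.nd (nat_lit 3) (.nd (nat_lit 4) (.nd (nat_lit 5) 
(.lf (nat_lit 64710) (.g (nat_lit 2339) (.e (nat_lit 1595) (nat_lit 111) (.e (nat_lit 360452) (nat_lit 0) (.e (nat_lit 5907) (nat_lit 320) (.e (nat_lit 1221) (nat_lit 90) (.e (nat_lit 81938) (nat_lit 20) .nil))))) .nil)) 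
(.lf (nat_lit 64742) (.g (nat_lit 1843) (.e (nat_lit 1595) (nat_lit 111) (.e (nat_lit 360453) (nat_lit 0) (.e (nat_lit 5907) (nat_lit 320) (.e (nat_lit 1221) (nat_lit 90) (.e (nat_lit 81931) (nat_lit 20) .nil))))) .nil))) (.nd (nat_lit 5) 
(.lf (nat_lit 64726) (.g (nat_lit 1781) (.e (nat_lit 1595) (nat_lit 111) (.e (nat_lit 360453) (nat_lit 0) (.e (nat_lit 5907) (nat_lit 320) (.e (nat_lit 1199) (nat_lit 88) (.e (nat_lit 65617) (nat_lit 10) (.e (nat_lit 344168) (nat_lit 40) (.e (nat_lit 671746) (nat_lit 0) .nil))))))) (.g (nat_lit 4) .nil .nil))) 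
(.lf (nat_lit 64758) (.g (nat_lit 2628) (.e (nat_lit 1595) (nat_lit 111) (.e (nat_lit 360453) (nat_lit 0) (.e (nat_lit 7270) (nat_lit 385) (.e (nat_lit 122916) (nat_lit 14) (.e (nat_lit 352302) (nat_lit 20) (.e (nat_lit 2281) (nat_lit 150) (.e (nat_lit 770058) (nat_lit 5) .nil))))))) (.g (nat_lit 4) .nil .nil))))) (.nd (nat_lit 4) (.nd (nat_lit 5) 
(.lf (nat_lit 64718) (.g (nat_lit 1988) (.e (nat_lit 1595) (nat_lit 111) (.e (nat_lit 360453) (nat_lit 0) (.e (nat_lit 5905) (nat_lit 320) (.e (nat_lit 1220) (nat_lit 90) (.e (nat_lit 81938) (nat_lit 20) .nil))))) .nil)) 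
(.lf (nat_lit 64750) (.g (nat_lit 1807) (.e (nat_lit 1595) (nat_lit 111) (.e (nat_lit 360453) (nat_lit 0) (.e (nat_lit 5907) (nat_lit 320) (.e (nat_lit 1221) (nat_lit 90) (.e (nat_lit 81947) (nat_lit 20) .nil))))) .nil))) (.nd (nat_lit 5) 
(.lf (nat_lit 64734) (.g (nat_lit 1856) (.e (nat_lit 1595) (nat_lit 111) (.e (nat_lit 360453) (nat_lit 0) (.e (nat_lit 5907) (nat_lit 320) (.e (nat_lit 1219) (nat_lit 90) (.e (nat_lit 81931) (nat_lit 20) .nil))))) .nil)) 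
(.lf (nat_lit 64766) (.g (nat_lit 1310) (.e (nat_lit 1595) (nat_lit 111) (.e (nat_lit 360453) (nat_lit 0) (.e (nat_lit 7270) (nat_lit 385) (.e (nat_lit 122919) (nat_lit 15) (.e (nat_lit 360451) (nat_lit 0) .nil))))) .nil))))))) (.nd (nat_lit 1) (.nd (nat_lit 2) (.nd (nat_lit 3) (.nd (nat_lit 4) (.nd (nat_lit 5) 
(.lf (nat_lit 64705) (.g (nat_lit 1615) (.e (nat_lit 1595) (nat_lit 111) (.e (nat_lit 360452) (nat_lit 0) (.e (nat_lit 5907) (nat_lit 320) (.e (nat_lit 1199) (nat_lit 88) .nil)))) .nil)) 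
(.lf (nat_lit 64737) (.g (nat_lit 1503) (.e (nat_lit 1595) (nat_lit 111) (.e (nat_lit 360453) (nat_lit 0) (.e (nat_lit 5907) (nat_lit 320) (.e (nat_lit 1219) (nat_lit 90) (.e (nat_lit 81948) (nat_lit 21) .nil))))) .nil))) (.nd (nat_lit 5) 
(.lf (nat_lit 64721) (.g (nat_lit 1837) (.e (nat_lit 1595) (nat_lit 111) (.e (nat_lit 360453) (nat_lit 0) (.e (nat_lit 5907) (nat_lit 320) (.e (nat_lit 1190) (nat_lit 88) (.e (nat_lit 65604) (nat_lit 9) (.e (nat_lit 335997) (nat_lit 1) (.e (nat_lit 57871) (nat_lit 264) (.e (nat_lit 992) (nat_lit 81) .nil)))))))) (.g (nat_lit 4) .nil .nil))) 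
(.lf (nat_lit 64753) (.g (nat_lit 1884) (.e (nat_lit 1595) (nat_lit 111) (.e (nat_lit 360453) (nat_lit 0) (.e (nat_lit 5907) (nat_lit 320) (.e (nat_lit 1221) (nat_lit 90) (.e (nat_lit 81950) (nat_lit 21) (.e (nat_lit 57870) (nat_lit 264) (.e (nat_lit 992) (nat_lit 81) .nil))))))) (.g (nat_lit 4) .nil .nil))))) (.nd (nat_lit 4) (.nd (nat_lit 5) 
(.lf (nat_lit 64713) (.g (nat_lit 1487) (.e (nat_lit 1595) (nat_lit 111) (.e (nat_lit 360452) (nat_lit 0) (.e (nat_lit 7272) (nat_lit 385) (.e (nat_lit 122916) (nat_lit 14) .nil)))) .nil)) 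
(.lf (nat_lit 64745) (.g (nat_lit 1888) (.e (nat_lit 1595) (nat_lit 111) (.e (nat_lit 360453) (nat_lit 0) (.e (nat_lit 5907) (nat_lit 320) (.e (nat_lit 1221) (nat_lit 90) (.e (nat_lit 81938) (nat_lit 20) (.e (nat_lit 2005) (nat_lit 138) (.e (nat_lit 671746) (nat_lit 0) .nil))))))) (.g (nat_lit 4) .nil .nil)))) (.nd (nat_lit 5) 
(.lf (nat_lit 64729) (.g (nat_lit 1515) (.e (nat_lit 1595) (nat_lit 111) (.e (nat_lit 360453) (nat_lit 0) (.e (nat_lit 5907) (nat_lit 320) (.e (nat_lit 1200) (nat_lit 88) (.e (nat_lit 65604) (nat_lit 9) (.e (nat_lit 335997) (nat_lit 1) (.e (nat_lit 57871) (nat_lit 264) (.e (nat_lit 992) (nat_lit 81) .nil)))))))) (.g (nat_lit 4) .nil .nil))) 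
(.lf (nat_lit 64761) (.g (nat_lit 2877) (.e (nat_lit 1595) (nat_lit 111) (.e (nat_lit 360453) (nat_lit 0) (.e (nat_lit 7270) (nat_lit 385) (.e (nat_lit 122917) (nat_lit 15) (.e (nat_lit 360489) (nat_lit 21) (.e (nat_lit 770057) (nat_lit 5) .nil)))))) (.g (nat_lit 5) .nil .nil)))))) (.nd (nat_lit 3) (.nd (nat_lit 4) (.nd (nat_lit 5) 
(.lf (nat_lit 64709) (.g (nat_lit 2447) (.e (nat_lit 1595) (nat_lit 111) (.e (nat_lit 360452) (nat_lit 0) (.e (nat_lit 5907) (nat_lit 320) (.e (nat_lit 1221) (nat_lit 90) (.e (nat_lit 81931) (nat_lit 20) .nil))))) .nil)) 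
(.lf (nat_lit 64741) (.g (nat_lit 997) (.e (nat_lit 1595) (nat_lit 111) (.e (nat_lit 360453) (nat_lit 0) (.e (nat_lit 5907) (nat_lit 320) (.e (nat_lit 1221) (nat_lit 90) .nil)))) .nil))) (.nd (nat_lit 5) 
(.lf (nat_lit 64725) (.g (nat_lit 2367) (.e (nat_lit 1595) (nat_lit 111) (.e (nat_lit 360453) (nat_lit 0) (.e (nat_lit 5907) (nat_lit 320) (.e (nat_lit 1199) (nat_lit 88) (.e (nat_lit 65610) (nat_lit 10) (.e (nat_lit 344168) (nat_lit 40) (.e (nat_lit 671746) (nat_lit 0) .nil))))))) (.g (nat_lit 5) .nil .nil))) 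
(.lf (nat_lit 64757) (.g (nat_lit 2509) (.e (nat_lit 1595) (nat_lit 111) (.e (nat_lit 360453) (nat_lit 0) (.e (nat_lit 7270) (nat_lit 385) (.e (nat_lit 122916) (nat_lit 14) (.e (nat_lit 352302) (nat_lit 20) (.e (nat_lit 2281) (nat_lit 150) (.e (nat_lit 770057) (nat_lit 5) .nil))))))) (.g (nat_lit 4) .nil .nil))))) (.nd (nat_lit 4) (.nd (nat_lit 5) 
(.lf (nat_lit 64717) (.g (nat_lit 1055) (.e (nat_lit 1595) (nat_lit 111) (.e (nat_lit 360453) (nat_lit 0) (.e (nat_lit 5905) (nat_lit 320) (.e (nat_lit 1219) (nat_lit 90) .nil)))) .nil)) 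
(.lf (nat_lit 64749) (.g (nat_lit 2677) (.e (nat_lit 1595) (nat_lit 111) (.e (nat_lit 360453) (nat_lit 0) (.e (nat_lit 5907) (nat_lit 320) (.e (nat_lit 1221) (nat_lit 90) (.e (nat_lit 81939) (nat_lit 20) (.e (nat_lit 2006) (nat_lit 138) (.e (nat_lit 671748) (nat_lit 0) .nil))))))) (.g (nat_lit 4) .nil .nil)))) (.nd (nat_lit 5) 
(.lf (nat_lit 64733) (.g (nat_lit 1847) (.e (nat_lit 1595) (nat_lit 111) (.e (nat_lit 360453) (nat_lit 0) (.e (nat_lit 5907) (nat_lit 320) (.e (nat_lit 1219) (nat_lit 90) (.e (nat_lit 81928) (nat_lit 20) .nil))))) .nil)) 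
(.lf (nat_lit 64765) (.g (nat_lit 2298) (.e (nat_lit 1595) (nat_lit 111) (.e (nat_lit 360453) (nat_lit 0) (.e (nat_lit 7270) (nat_lit 385) (.e (nat_lit 122919) (nat_lit 15) (.e (nat_lit 360450) (nat_lit 0) (.e (nat_lit 7122) (nat_lit 382) (.e (nat_lit 1016) (nat_lit 81) .nil))))))) (.g (nat_lit 4) .nil .nil))))))) (.nd (nat_lit 2) (.nd (nat_lit 3) (.nd (nat_lit 4) (.nd (nat_lit 5) 
(.lf (nat_lit 64707) (.g (nat_lit 2156) (.e (nat_lit 1595) (nat_lit 111) (.e (nat_lit 360452) (nat_lit 0) (.e (nat_lit 5907) (nat_lit 320) (.e (nat_lit 1219) (nat_lit 90) (.e (nat_lit 81935) (nat_lit 20) .nil))))) .nil)) 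
(.lf (nat_lit 64739) (.g (nat_lit 2468) (.e (nat_lit 1595) (nat_lit 111) (.e (nat_lit 360453) (nat_lit 0) (.e (nat_lit 5907) (nat_lit 320) (.e (nat_lit 1220) (nat_lit 90) (.e (nat_lit 81938) (nat_lit 20) (.e (nat_lit 2003) (nat_lit 138) (.e (nat_lit 671747) (nat_lit 0) .nil))))))) (.g (nat_lit 4) .nil .nil)))) (.nd (nat_lit 5) 
(.lf (nat_lit 64723) (.g (nat_lit 2839) (.e (nat_lit 1595) (nat_lit 111) (.e (nat_lit 360453) (nat_lit 0) (.e (nat_lit 5907) (nat_lit 320) (.e (nat_lit 1190) (nat_lit 88) (.e (nat_lit 65619) (nat_lit 10) (.e (nat_lit 344169) (nat_lit 40) (.e (nat_lit 671746) (nat_lit 0) .nil))))))) (.g (nat_lit 5) .nil .nil))) 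
(.lf (nat_lit 64755) (.g (nat_lit 1319) (.e (nat_lit 1595) (nat_lit 111) (.e (nat_lit 360453) (nat_lit 0) (.e (nat_lit 7270) (nat_lit 385) (.e (nat_lit 122906) (nat_lit 12) .nil)))) .nil)))) (.nd (nat_lit 4) (.nd (nat_lit 5) 
(.lf (nat_lit 64715) (.g (nat_lit 636) (.e (nat_lit 1595) (nat_lit 111) (.e (nat_lit 360452) (nat_lit 0) (.e (nat_lit 7273) (nat_lit 385) .nil))) .nil)) 
(.lf (nat_lit 64747) (.g (nat_lit 2166) (.e (nat_lit 1595) (nat_lit 111) (.e (nat_lit 360453) (nat_lit 0) (.e (nat_lit 5907) (nat_lit 320) (.e (nat_lit 1221) (nat_lit 90) (.e (nat_lit 81939) (nat_lit 20) .nil))))) .nil))) (.nd (nat_lit 5) 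
(.lf (nat_lit 64731) (.g (nat_lit 2658) (.e (nat_lit 1595) (nat_lit 111) (.e (nat_lit 360453) (nat_lit 0) (.e (nat_lit 5907) (nat_lit 320) (.e (nat_lit 1200) (nat_lit 88) (.e (nat_lit 65619) (nat_lit 10) (.e (nat_lit 344169) (nat_lit 40) (.e (nat_lit 671746) (nat_lit 0) .nil))))))) (.g (nat_lit 5) .nil .nil))) 
(.lf (nat_lit 64763) (.g (nat_lit 1336) (.e (nat_lit 1595) (nat_lit 111) (.e (nat_lit 360453) (nat_lit 0) (.e (nat_lit 7270) (nat_lit 385) (.e (nat_lit 122918) (nat_lit 15) .nil)))) .nil))))) (.nd (nat_lit 3) (.nd (nat_lit 4) (.nd (nat_lit 5) 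
(.lf (nat_lit 64711) (.g (nat_lit 2326) (.e (nat_lit 1595) (nat_lit 111) (.e (nat_lit 360452) (nat_lit 0) (.e (nat_lit 5907) (nat_lit 320) (.e (nat_lit 1221) (nat_lit 90) (.e (nat_lit 81947) (nat_lit 20) .nil))))) .nil)) 
(.lf (nat_lit 64743) (.g (nat_lit 1744) (.e (nat_lit 1595) (nat_lit 111) (.e (nat_lit 360453) (nat_lit 0) (.e (nat_lit 5907) (nat_lit 320) (.e (nat_lit 1221) (nat_lit 90) (.e (nat_lit 81938) (nat_lit 20) .nil))))) .nil))) (.nd (nat_lit 5) 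
(.lf (nat_lit 64727) (.g (nat_lit 2489) (.e (nat_lit 1595) (nat_lit 111) (.e (nat_lit 360453) (nat_lit 0) (.e (nat_lit 5907) (nat_lit 320) (.e (nat_lit 1199) (nat_lit 88) (.e (nat_lit 65617) (nat_lit 10) (.e (nat_lit 344169) (nat_lit 40) (.e (nat_lit 671746) (nat_lit 0) .nil))))))) (.g (nat_lit 5) .nil .nil))) 
(.lf (nat_lit 64759) (.g (nat_lit 2380) (.e (nat_lit 1595) (nat_lit 111) (.e (nat_lit 360453) (nat_lit 0) (.e (nat_lit 7270) (nat_lit 385) (.e (nat_lit 122916) (nat_lit 14) (.e (nat_lit 352303) (nat_lit 20) .nil))))) .nil)))) (.nd (nat_lit 4) (.nd (nat_lit 5) 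
(.lf (nat_lit 64719) (.g (nat_lit 1855) (.e (nat_lit 1595) (nat_lit 111) (.e (nat_lit 360453) (nat_lit 0) (.e (nat_lit 5905) (nat_lit 320) (.e (nat_lit 1221) (nat_lit 90) (.e (nat_lit 81938) (nat_lit 20) .nil))))) .nil)) 
(.lf (nat_lit 64751) (.g (nat_lit 3415) (.e (nat_lit 1595) (nat_lit 111) (.e (nat_lit 360453) (nat_lit 0) (.e (nat_lit 5907) (nat_lit 320) (.e (nat_lit 1221) (nat_lit 90) (.e (nat_lit 81947) (nat_lit 20) (.e (nat_lit 2005) (nat_lit 138) (.e (nat_lit 671747) (nat_lit 0) .nil))))))) (.g (nat_lit 6) .nil .nil)))) (.nd (nat_lit 5) 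
(.lf (nat_lit 64735) (.g (nat_lit 1839) (.e (nat_lit 1595) (nat_lit 111) (.e (nat_lit 360453) (nat_lit 0) (.e (nat_lit 5907) (nat_lit 320) (.e (nat_lit 1219) (nat_lit 90) (.e (nat_lit 81939) (nat_lit 20) .nil))))) .nil)) 
(.lf (nat_lit 64767) (.g (nat_lit 2837) (.e (nat_lit 1595) (nat_lit 111) (.e (nat_lit 360453) (nat_lit 0) (.e (nat_lit 7270) (nat_lit 385) (.e (nat_lit 122919) (nat_lit 15) (.e (nat_lit 360451) (nat_lit 0) (.e (nat_lit 7119) (nat_lit 382) (.e (nat_lit 982) (nat_lit 81) .nil))))))) (.g (nat_lit 5) .nil .nil)))))))))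

noncomputable def tv890 : DT := (.nd (nat_lit 0) (.nd (nat_lit 1) (.nd (nat_lit 2) (.nd (nat_lit 3) (.nd (nat_lit 4) (.nd (nat_lit 5) 
(.lf (nat_lit 64768) (.g (nat_lit 1751) (.e (nat_lit 1595) (nat_lit 111) (.e (nat_lit 360453) (nat_lit 0) (.e (nat_lit 7270) (nat_lit 385) (.e (nat_lit 122919) (nat_lit 15) (.e (nat_lit 360451) (nat_lit 0) (.e (nat_lit 7124) (nat_lit 382) (.e (nat_lit 982) (nat_lit 81) .nil))))))) (.g (nat_lit 4) .nil .nil))) 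
(.lf (nat_lit 64800) (.g (nat_lit 1137) (.e (nat_lit 1595) (nat_lit 111) (.e (nat_lit 360457) (nat_lit 0) (.e (nat_lit 5818) (nat_lit 320) (.e (nat_lit 1223) (nat_lit 90) (.e (nat_lit 81939) (nat_lit 20) .nil))))) .nil))) (.nd (nat_lit 5) 
(.lf (nat_lit 64784) (.g (nat_lit 1790) (.e (nat_lit 1595) (nat_lit 111) (.e (nat_lit 360453) (nat_lit 0) (.e (nat_lit 7272) (nat_lit 385) (.e (nat_lit 122919) (nat_lit 15) (.e (nat_lit 360489) (nat_lit 21) (.e (nat_lit 770055) (nat_lit 5) .nil)))))) (.g (nat_lit 4) .nil .nil))) 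
(.lf (nat_lit 64816) (.g (nat_lit 2594) (.e (nat_lit 1595) (nat_lit 111) (.e (nat_lit 368384) (nat_lit 0) (.e (nat_lit 5905) (nat_lit 320) (.e (nat_lit 1221) (nat_lit 90) (.e (nat_lit 81938) (nat_lit 20) (.e (nat_lit 2005) (nat_lit 138) (.e (nat_lit 671748) (nat_lit 0) .nil))))))) (.g (nat_lit 5) .nil .nil))))) (.nd (nat_lit 4) (.nd (nat_lit 5) 
(.lf (nat_lit 64776) (.g (nat_lit 874) (.e (nat_lit 1595) (nat_lit 111) (.e (nat_lit 360453) (nat_lit 0) (.e (nat_lit 7272) (nat_lit 385) (.e (nat_lit 122916) (nat_lit 14) .nil)))) .nil)) 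
(.lf (nat_lit 64808) (.g (nat_lit 1632) (.e (nat_lit 1595) (nat_lit 111) (.e (nat_lit 368384) (nat_lit 0) (.e (nat_lit 5219) (nat_lit 296) (.e (nat_lit 163908) (nat_lit 12) (.e (nat_lit 426286) (nat_lit 10) (.e (nat_lit 434269) (nat_lit 36) (.e (nat_lit 639007) (nat_lit 13) .nil))))))) (.g (nat_lit 5) .nil .nil)))) (.nd (nat_lit 5) 
(.lf (nat_lit 64792) (.g (nat_lit 1786) (.e (nat_lit 1595) (nat_lit 111) (.e (nat_lit 360453) (nat_lit 0) (.e (nat_lit 7273) (nat_lit 385) (.e (nat_lit 122919) (nat_lit 15) (.e (nat_lit 360489) (nat_lit 21) (.e (nat_lit 770055) (nat_lit 5) .nil)))))) (.g (nat_lit 5) .nil .nil))) 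
(.lf (nat_lit 64824) (.g (nat_lit 3158) (.e (nat_lit 1595) (nat_lit 111) (.e (nat_lit 360466) (nat_lit 3) (.e (nat_lit 516178) (nat_lit 15) (.e (nat_lit 475210) (nat_lit 41) (.e (nat_lit 712722) (nat_lit 15) (.e (nat_lit 3302) (nat_lit 202) (.e (nat_lit 573451) (nat_lit 9) .nil))))))) (.g (nat_lit 5) .nil .nil)))))) (.nd (nat_lit 3) (.nd (nat_lit 4) (.nd (nat_lit 5) 
(.lf (nat_lit 64772) (.g (nat_lit 2544) (.e (nat_lit 1595) (nat_lit 111) (.e (nat_lit 360453) (nat_lit 0) (.e (nat_lit 7270) (nat_lit 385) (.e (nat_lit 122919) (nat_lit 15) (.e (nat_lit 360489) (nat_lit 21) (.e (nat_lit 770055) (nat_lit 5) .nil)))))) (.g (nat_lit 4) .nil .nil))) 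
(.lf (nat_lit 64804) (.g (nat_lit 2080) (.e (nat_lit 1595) (nat_lit 111) (.e (nat_lit 360457) (nat_lit 0) (.e (nat_lit 5949) (nat_lit 322) (.e (nat_lit 57424) (nat_lit 14) (.e (nat_lit 352285) (nat_lit 20) .nil))))) .nil))) (.nd (nat_lit 5) 
(.lf (nat_lit 64788) (.g (nat_lit 2512) (.e (nat_lit 1595) (nat_lit 111) (.e (nat_lit 360453) (nat_lit 0) (.e (nat_lit 7273) (nat_lit 385) (.e (nat_lit 122916) (nat_lit 14) (.e (nat_lit 352302) (nat_lit 20) (.e (nat_lit 2281) (nat_lit 150) (.e (nat_lit 770057) (nat_lit 5) .nil))))))) (.g (nat_lit 6) .nil .nil))) 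
(.lf (nat_lit 64820) (.g (nat_lit 642) (.e (nat_lit 1595) (nat_lit 111) (.e (nat_lit 360466) (nat_lit 3) (.e (nat_lit 516097) (nat_lit 0) .nil))) .nil)))) (.nd (nat_lit 4) (.nd (nat_lit 5) 
(.lf (nat_lit 64780) (.g (nat_lit 2033) (.e (nat_lit 1595) (nat_lit 111) (.e (nat_lit 360453) (nat_lit 0) (.e (nat_lit 7272) (nat_lit 385) (.e (nat_lit 122917) (nat_lit 15) (.e (nat_lit 360489) (nat_lit 21) (.e (nat_lit 770055) (nat_lit 5) .nil)))))) (.g (nat_lit 4) .nil .nil))) 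
(.lf (nat_lit 64812) (.g (nat_lit 1677) (.e (nat_lit 1595) (nat_lit 111) (.e (nat_lit 368384) (nat_lit 0) (.e (nat_lit 5224) (nat_lit 296) (.e (nat_lit 163933) (nat_lit 17) (.e (nat_lit 466967) (nat_lit 20) (.e (nat_lit 3386) (nat_lit 210) (.e (nat_lit 639008) (nat_lit 13) .nil))))))) (.g (nat_lit 4) .nil .nil)))) (.nd (nat_lit 5) 
(.lf (nat_lit 64796) (.g (nat_lit 216) (.e (nat_lit 1595) (nat_lit 111) (.e (nat_lit 360457) (nat_lit 0) (.e (nat_lit 5818) (nat_lit 320) .nil))) .nil)) 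
(.lf (nat_lit 64828) (.g (nat_lit 2824) (.e (nat_lit 1595) (nat_lit 111) (.e (nat_lit 360466) (nat_lit 3) (.e (nat_lit 516179) (nat_lit 15) (.e (nat_lit 475210) (nat_lit 41) (.e (nat_lit 712719) (nat_lit 15) (.e (nat_lit 3297) (nat_lit 202) (.e (nat_lit 573451) (nat_lit 9) .nil))))))) (.g (nat_lit 4) .nil .nil))))))) (.nd (nat_lit 2) (.nd (nat_lit 3) (.nd (nat_lit 4) (.nd (nat_lit 5) 
(.lf (nat_lit 64770) (.g (nat_lit 3041) (.e (nat_lit 1595) (nat_lit 111) (.e (nat_lit 360453) (nat_lit 0) (.e (nat_lit 7270) (nat_lit 385) (.e (nat_lit 122919) (nat_lit 15) (.e (nat_lit 360451) (nat_lit 0) (.e (nat_lit 7200) (nat_lit 382) (.e (nat_lit 1011) (nat_lit 81) .nil))))))) (.g (nat_lit 5) .nil .nil))) 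
(.lf (nat_lit 64802) (.g (nat_lit 2402) (.e (nat_lit 1595) (nat_lit 111) (.e (nat_lit 360457) (nat_lit 0) (.e (nat_lit 5948) (nat_lit 322) (.e (nat_lit 57426) (nat_lit 15) (.e (nat_lit 360486) (nat_lit 18) (.e (nat_lit 671748) (nat_lit 0) .nil)))))) (.g (nat_lit 6) .nil .nil)))) (.nd (nat_lit 5) 
(.lf (nat_lit 64786) (.g (nat_lit 2261) (.e (nat_lit 1595) (nat_lit 111) (.e (nat_lit 360453) (nat_lit 0) (.e (nat_lit 7272) (nat_lit 385) (.e (nat_lit 122919) (nat_lit 15) (.e (nat_lit 360489) (nat_lit 21) (.e (nat_lit 770058) (nat_lit 5) .nil)))))) (.g (nat_lit 5) .nil .nil))) 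
(.lf (nat_lit 64818) (.g (nat_lit 2347) (.e (nat_lit 1595) (nat_lit 111) (.e (nat_lit 360464) (nat_lit 2) (.e (nat_lit 507922) (nat_lit 6) (.e (nat_lit 286756) (nat_lit 10) (.e (nat_lit 344126) (nat_lit 25) (.e (nat_lit 548874) (nat_lit 5) .nil)))))) (.g (nat_lit 6) .nil .nil))))) (.nd (nat_lit 4) (.nd (nat_lit 5) 
(.lf (nat_lit 64778) (.g (nat_lit 2885) (.e (nat_lit 1595) (nat_lit 111) (.e (nat_lit 360453) (nat_lit 0) (.e (nat_lit 7272) (nat_lit 385) (.e (nat_lit 122916) (nat_lit 14) (.e (nat_lit 352302) (nat_lit 20) (.e (nat_lit 2281) (nat_lit 150) (.e (nat_lit 770057) (nat_lit 5) .nil))))))) (.g (nat_lit 6) .nil .nil))) 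
(.lf (nat_lit 64810) (.g (nat_lit 1490) (.e (nat_lit 1595) (nat_lit 111) (.e (nat_lit 368384) (nat_lit 0) (.e (nat_lit 5224) (nat_lit 296) (.e (nat_lit 163922) (nat_lit 15) (.e (nat_lit 450592) (nat_lit 14) (.e (nat_lit 639008) (nat_lit 13) .nil)))))) (.g (nat_lit 5) .nil .nil)))) (.nd (nat_lit 5) 
(.lf (nat_lit 64794) (.g (nat_lit 1734) (.e (nat_lit 1595) (nat_lit 111) (.e (nat_lit 360457) (nat_lit 0) (.e (nat_lit 5219) (nat_lit 296) (.e (nat_lit 163908) (nat_lit 12) (.e (nat_lit 426286) (nat_lit 10) (.e (nat_lit 434269) (nat_lit 36) (.e (nat_lit 639008) (nat_lit 13) .nil))))))) (.g (nat_lit 5) .nil .nil))) 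
(.lf (nat_lit 64826) (.g (nat_lit 2376) (.e (nat_lit 1595) (nat_lit 111) (.e (nat_lit 360466) (nat_lit 3) (.e (nat_lit 516179) (nat_lit 15) (.e (nat_lit 475198) (nat_lit 40) (.e (nat_lit 704590) (nat_lit 3) (.e (nat_lit 163975) (nat_lit 30) (.e (nat_lit 573449) (nat_lit 9) .nil))))))) (.g (nat_lit 4) .nil .nil)))))) (.nd (nat_lit 3) (.nd (nat_lit 4) (.nd (nat_lit 5) 
(.lf (nat_lit 64774) (.g (nat_lit 3008) (.e (nat_lit 1595) (nat_lit 111) (.e (nat_lit 360453) (nat_lit 0) (.e (nat_lit 7270) (nat_lit 385) (.e (nat_lit 122919) (nat_lit 15) (.e (nat_lit 360489) (nat_lit 21) (.e (nat_lit 770058) (nat_lit 5) .nil)))))) (.g (nat_lit 5) .nil .nil))) 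
(.lf (nat_lit 64806) (.g (nat_lit 2782) (.e (nat_lit 1595) (nat_lit 111) (.e (nat_lit 360457) (nat_lit 0) (.e (nat_lit 5949) (nat_lit 322) (.e (nat_lit 57427) (nat_lit 15) (.e (nat_lit 360486) (nat_lit 18) (.e (nat_lit 671748) (nat_lit 0) .nil)))))) (.g (nat_lit 0) .nil .nil)))) (.nd (nat_lit 5) 
(.lf (nat_lit 64790) (.g (nat_lit 2117) (.e (nat_lit 1595) (nat_lit 111) (.e (nat_lit 360453) (nat_lit 0) (.e (nat_lit 7273) (nat_lit 385) (.e (nat_lit 122916) (nat_lit 14) (.e (nat_lit 352303) (nat_lit 20) (.e (nat_lit 2281) (nat_lit 150) (.e (nat_lit 770057) (nat_lit 5) .nil))))))) (.g (nat_lit 5) .nil .nil))) 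
(.lf (nat_lit 64822) (.g (nat_lit 2496) (.e (nat_lit 1595) (nat_lit 111) (.e (nat_lit 360466) (nat_lit 3) (.e (nat_lit 516139) (nat_lit 7) (.e (nat_lit 409646) (nat_lit 18) (.e (nat_lit 303117) (nat_lit 2) (.e (nat_lit 196630) (nat_lit 9) .nil)))))) (.g (nat_lit 4) .nil .nil))))) (.nd (nat_lit 4) (.nd (nat_lit 5) 
(.lf (nat_lit 64782) (.g (nat_lit 2698) (.e (nat_lit 1595) (nat_lit 111) (.e (nat_lit 360453) (nat_lit 0) (.e (nat_lit 7272) (nat_lit 385) (.e (nat_lit 122917) (nat_lit 15) (.e (nat_lit 360489) (nat_lit 21) (.e (nat_lit 770058) (nat_lit 5) .nil)))))) (.g (nat_lit 6) .nil .nil))) 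
(.lf (nat_lit 64814) (.g (nat_lit 1467) (.e (nat_lit 1595) (nat_lit 111) (.e (nat_lit 368384) (nat_lit 0) (.e (nat_lit 5231) (nat_lit 296) (.e (nat_lit 163908) (nat_lit 12) (.e (nat_lit 426286) (nat_lit 10) (.e (nat_lit 434269) (nat_lit 36) (.e (nat_lit 639008) (nat_lit 13) .nil))))))) (.g (nat_lit 5) .nil .nil)))) (.nd (nat_lit 5) 
(.lf (nat_lit 64798) (.g (nat_lit 2198) (.e (nat_lit 1595) (nat_lit 111) (.e (nat_lit 360457) (nat_lit 0) (.e (nat_lit 5818) (nat_lit 320) (.e (nat_lit 1222) (nat_lit 90) (.e (nat_lit 81943) (nat_lit 20) (.e (nat_lit 2004) (nat_lit 138) (.e (nat_lit 671747) (nat_lit 0) .nil))))))) (.g (nat_lit 5) .nil .nil))) 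
(.lf (nat_lit 64830) (.g (nat_lit 2296) (.e (nat_lit 1595) (nat_lit 111) (.e (nat_lit 360467) (nat_lit 3) (.e (nat_lit 516097) (nat_lit 0) (.e (nat_lit 7591) (nat_lit 407) (.e (nat_lit 73751) (nat_lit 7) (.e (nat_lit 548873) (nat_lit 5) .nil)))))) (.g (nat_lit 4) .nil .nil)))))))) (.nd (nat_lit 1) (.nd (nat_lit 2) (.nd (nat_lit 3) (.nd (nat_lit 4) (.nd (nat_lit 5) 
(.lf (nat_lit 64769) (.g (nat_lit 2717) (.e (nat_lit 1595) (nat_lit 111) (.e (nat_lit 360453) (nat_lit 0) (.e (nat_lit 7270) (nat_lit 385) (.e (nat_lit 122919) (nat_lit 15) (.e (nat_lit 360451) (nat_lit 0) (.e (nat_lit 7132) (nat_lit 382) (.e (nat_lit 982) (nat_lit 81) .nil))))))) (.g (nat_lit 5) .nil .nil))) 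
(.lf (nat_lit 64801) (.g (nat_lit 2953) (.e (nat_lit 1595) (nat_lit 111) (.e (nat_lit 360457) (nat_lit 0) (.e (nat_lit 5818) (nat_lit 320) (.e (nat_lit 1224) (nat_lit 90) (.e (nat_lit 81946) (nat_lit 20) (.e (nat_lit 2006) (nat_lit 138) (.e (nat_lit 671748) (nat_lit 0) .nil))))))) (.g (nat_lit 0) .nil .nil)))) (.nd (nat_lit 5) 
(.lf (nat_lit 64785) (.g (nat_lit 2207) (.e (nat_lit 1595) (nat_lit 111) (.e (nat_lit 360453) (nat_lit 0) (.e (nat_lit 7272) (nat_lit 385) (.e (nat_lit 122919) (nat_lit 15) (.e (nat_lit 360489) (nat_lit 21) (.e (nat_lit 770057) (nat_lit 5) .nil)))))) (.g (nat_lit 5) .nil .nil))) 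
(.lf (nat_lit 64817) (.g (nat_lit 1896) (.e (nat_lit 1595) (nat_lit 111) (.e (nat_lit 360464) (nat_lit 2) (.e (nat_lit 507922) (nat_lit 6) (.e (nat_lit 286756) (nat_lit 10) (.e (nat_lit 344126) (nat_lit 25) (.e (nat_lit 548873) (nat_lit 5) .nil)))))) (.g (nat_lit 6) .nil .nil))))) (.nd (nat_lit 4) (.nd (nat_lit 5) 
(.lf (nat_lit 64777) (.g (nat_lit 2041) (.e (nat_lit 1595) (nat_lit 111) (.e (nat_lit 360453) (nat_lit 0) (.e (nat_lit 7272) (nat_lit 385) (.e (nat_lit 122916) (nat_lit 14) (.e (nat_lit 352302) (nat_lit 20) (.e (nat_lit 2280) (nat_lit 150) (.e (nat_lit 770057) (nat_lit 5) .nil))))))) (.g (nat_lit 4) .nil .nil))) 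
(.lf (nat_lit 64809) (.g (nat_lit 1490) (.e (nat_lit 1595) (nat_lit 111) (.e (nat_lit 368384) (nat_lit 0) (.e (nat_lit 5222) (nat_lit 296) (.e (nat_lit 163933) (nat_lit 17) (.e (nat_lit 466967) (nat_lit 20) (.e (nat_lit 3386) (nat_lit 210) (.e (nat_lit 639008) (nat_lit 13) .nil))))))) (.g (nat_lit 5) .nil .nil)))) (.nd (nat_lit 5) 
(.lf (nat_lit 64793) (.g (nat_lit 2279) (.e (nat_lit 1595) (nat_lit 111) (.e (nat_lit 360453) (nat_lit 0) (.e (nat_lit 7273) (nat_lit 385) (.e (nat_lit 122919) (nat_lit 15) (.e (nat_lit 360489) (nat_lit 21) (.e (nat_lit 770058) (nat_lit 5) .nil)))))) (.g (nat_lit 0) .nil .nil))) 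
(.lf (nat_lit 64825) (.g (nat_lit 5067) (.e (nat_lit 1595) (nat_lit 111) (.e (nat_lit 360466) (nat_lit 3) (.e (nat_lit 516179) (nat_lit 15) (.e (nat_lit 475198) (nat_lit 40) (.e (nat_lit 704589) (nat_lit 3) (.e (nat_lit 163979) (nat_lit 30) (.e (nat_lit 573451) (nat_lit 9) .nil))))))) (.g (nat_lit 7) .nil .nil)))))) (.nd (nat_lit 3) (.nd (nat_lit 4) (.nd (nat_lit 5) 
(.lf (nat_lit 64773) (.g (nat_lit 2895) (.e (nat_lit 1595) (nat_lit 111) (.e (nat_lit 360453) (nat_lit 0) (.e (nat_lit 7270) (nat_lit 385) (.e (nat_lit 122919) (nat_lit 15) (.e (nat_lit 360489) (nat_lit 21) (.e (nat_lit 770057) (nat_lit 5) .nil)))))) (.g (nat_lit 5) .nil .nil))) 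
(.lf (nat_lit 64805) (.g (nat_lit 2529) (.e (nat_lit 1595) (nat_lit 111) (.e (nat_lit 360457) (nat_lit 0) (.e (nat_lit 5949) (nat_lit 322) (.e (nat_lit 57426) (nat_lit 15) (.e (nat_lit 360486) (nat_lit 18) (.e (nat_lit 671748) (nat_lit 0) .nil)))))) (.g (nat_lit 0) .nil .nil)))) (.nd (nat_lit 5) 
(.lf (nat_lit 64789) (.g (nat_lit 2625) (.e (nat_lit 1595) (nat_lit 111) (.e (nat_lit 360453) (nat_lit 0) (.e (nat_lit 7273) (nat_lit 385) (.e (nat_lit 122916) (nat_lit 14) (.e (nat_lit 352302) (nat_lit 20) (.e (nat_lit 2281) (nat_lit 150) (.e (nat_lit 770058) (nat_lit 5) .nil))))))) (.g (nat_lit 6) .nil .nil))) 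
(.lf (nat_lit 64821) (.g (nat_lit 731) (.e (nat_lit 1595) (nat_lit 111) (.e (nat_lit 360466) (nat_lit 3) (.e (nat_lit 516098) (nat_lit 0) .nil))) .nil)))) (.nd (nat_lit 4) (.nd (nat_lit 5) 
(.lf (nat_lit 64781) (.g (nat_lit 2502) (.e (nat_lit 1595) (nat_lit 111) (.e (nat_lit 360453) (nat_lit 0) (.e (nat_lit 7272) (nat_lit 385) (.e (nat_lit 122917) (nat_lit 15) (.e (nat_lit 360489) (nat_lit 21) (.e (nat_lit 770057) (nat_lit 5) .nil)))))) (.g (nat_lit 5) .nil .nil))) 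
(.lf (nat_lit 64813) (.g (nat_lit 836) (.e (nat_lit 1595) (nat_lit 111) (.e (nat_lit 368384) (nat_lit 0) (.e (nat_lit 5229) (nat_lit 296) (.e (nat_lit 163923) (nat_lit 15) (.e (nat_lit 450592) (nat_lit 14) (.e (nat_lit 639008) (nat_lit 13) .nil)))))) (.g (nat_lit 4) .nil .nil)))) (.nd (nat_lit 5) 
(.lf (nat_lit 64797) (.g (nat_lit 4017) (.e (nat_lit 1595) (nat_lit 111) (.e (nat_lit 360457) (nat_lit 0) (.e (nat_lit 5818) (nat_lit 320) (.e (nat_lit 1201) (nat_lit 88) (.e (nat_lit 65610) (nat_lit 10) (.e (nat_lit 344169) (nat_lit 40) (.e (nat_lit 671748) (nat_lit 0) .nil))))))) (.g (nat_lit 0) .nil .nil))) 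
(.lf (nat_lit 64829) (.g (nat_lit 3672) (.e (nat_lit 1595) (nat_lit 111) (.e (nat_lit 360466) (nat_lit 3) (.e (nat_lit 516179) (nat_lit 15) (.e (nat_lit 475210) (nat_lit 41) (.e (nat_lit 712722) (nat_lit 15) (.e (nat_lit 3302) (nat_lit 202) (.e (nat_lit 573451) (nat_lit 9) .nil))))))) (.g (nat_lit 5) .nil .nil))))))) (.nd (nat_lit 2) (.nd (nat_lit 3) (.nd (nat_lit 4) (.nd (nat_lit 5) 
(.lf (nat_lit 64771) (.g (nat_lit 2955) (.e (nat_lit 1595) (nat_lit 111) (.e (nat_lit 360453) (nat_lit 0) (.e (nat_lit 7270) (nat_lit 385) (.e (nat_lit 122919) (nat_lit 15) (.e (nat_lit 360451) (nat_lit 0) (.e (nat_lit 7223) (nat_lit 382) (.e (nat_lit 1011) (nat_lit 81) .nil))))))) (.g (nat_lit 5) .nil .nil))) 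
(.lf (nat_lit 64803) (.g (nat_lit 1807) (.e (nat_lit 1595) (nat_lit 111) (.e (nat_lit 360457) (nat_lit 0) (.e (nat_lit 5948) (nat_lit 322) (.e (nat_lit 57427) (nat_lit 15) (.e (nat_lit 360486) (nat_lit 18) (.e (nat_lit 671747) (nat_lit 0) .nil)))))) (.g (nat_lit 4) .nil .nil)))) (.nd (nat_lit 5) 
(.lf (nat_lit 64787) (.g (nat_lit 1668) (.e (nat_lit 1595) (nat_lit 111) (.e (nat_lit 360453) (nat_lit 0) (.e (nat_lit 7273) (nat_lit 385) (.e (nat_lit 122916) (nat_lit 14) (.e (nat_lit 352302) (nat_lit 20) (.e (nat_lit 2280) (nat_lit 150) (.e (nat_lit 770057) (nat_lit 5) .nil))))))) (.g (nat_lit 4) .nil .nil))) 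
(.lf (nat_lit 64819) (.g (nat_lit 2284) (.e (nat_lit 1595) (nat_lit 111) (.e (nat_lit 360464) (nat_lit 2) (.e (nat_lit 507923) (nat_lit 6) (.e (nat_lit 286755) (nat_lit 10) (.e (nat_lit 344126) (nat_lit 25) (.e (nat_lit 548874) (nat_lit 5) .nil)))))) (.g (nat_lit 0) .nil .nil))))) (.nd (nat_lit 4) (.nd (nat_lit 5) 
(.lf (nat_lit 64779) (.g (nat_lit 2205) (.e (nat_lit 1595) (nat_lit 111) (.e (nat_lit 360453) (nat_lit 0) (.e (nat_lit 7272) (nat_lit 385) (.e (nat_lit 122916) (nat_lit 14) (.e (nat_lit 352303) (nat_lit 20) (.e (nat_lit 2281) (nat_lit 150) (.e (nat_lit 770057) (nat_lit 5) .nil))))))) (.g (nat_lit 5) .nil .nil))) 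
(.lf (nat_lit 64811) (.g (nat_lit 2033) (.e (nat_lit 1595) (nat_lit 111) (.e (nat_lit 368384) (nat_lit 0) (.e (nat_lit 5224) (nat_lit 296) (.e (nat_lit 163933) (nat_lit 17) (.e (nat_lit 466967) (nat_lit 20) (.e (nat_lit 3386) (nat_lit 210) (.e (nat_lit 639007) (nat_lit 13) .nil))))))) (.g (nat_lit 6) .nil .nil)))) (.nd (nat_lit 5) 
(.lf (nat_lit 64795) (.g (nat_lit 3018) (.e (nat_lit 1595) (nat_lit 111) (.e (nat_lit 360457) (nat_lit 0) (.e (nat_lit 5557) (nat_lit 307) (.e (nat_lit 8305) (nat_lit 58) (.e (nat_lit 286753) (nat_lit 10) (.e (nat_lit 344169) (nat_lit 40) (.e (nat_lit 671748) (nat_lit 0) .nil))))))) (.g (nat_lit 0) .nil .nil))) 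
(.lf (nat_lit 64827) (.g (nat_lit 5661) (.e (nat_lit 1595) (nat_lit 111) (.e (nat_lit 360466) (nat_lit 3) (.e (nat_lit 516179) (nat_lit 15) (.e (nat_lit 475199) (nat_lit 40) (.e (nat_lit 704589) (nat_lit 3) (.e (nat_lit 163979) (nat_lit 30) (.e (nat_lit 573451) (nat_lit 9) .nil))))))) (.g (nat_lit 0) .nil .nil)))))) (.nd (nat_lit 3) (.nd (nat_lit 4) (.nd (nat_lit 5) 
(.lf (nat_lit 64775) (.g (nat_lit 929) (.e (nat_lit 1595) (nat_lit 111) (.e (nat_lit 360453) (nat_lit 0) (.e (nat_lit 7272) (nat_lit 385) (.e (nat_lit 122906) (nat_lit 12) .nil)))) .nil)) 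
(.lf (nat_lit 64807) (.g (nat_lit 1495) (.e (nat_lit 1595) (nat_lit 111) (.e (nat_lit 360457) (nat_lit 0) (.e (nat_lit 5949) (nat_lit 322) (.e (nat_lit 57436) (nat_lit 17) (.e (nat_lit 376855) (nat_lit 20) (.e (nat_lit 2000) (nat_lit 138) (.e (nat_lit 671748) (nat_lit 0) .nil))))))) (.g (nat_lit 5) .nil .nil)))) (.nd (nat_lit 5) 
(.lf (nat_lit 64791) (.g (nat_lit 1893) (.e (nat_lit 1595) (nat_lit 111) (.e (nat_lit 360453) (nat_lit 0) (.e (nat_lit 7273) (nat_lit 385) (.e (nat_lit 122917) (nat_lit 15) (.e (nat_lit 360489) (nat_lit 21) (.e (nat_lit 770055) (nat_lit 5) .nil)))))) (.g (nat_lit 5) .nil .nil))) 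
(.lf (nat_lit 64823) (.g (nat_lit 1749) (.e (nat_lit 1595) (nat_lit 111) (.e (nat_lit 360466) (nat_lit 3) (.e (nat_lit 516150) (nat_lit 9) (.e (nat_lit 426444) (nat_lit 19) .nil)))) .nil)))) (.nd (nat_lit 4) (.nd (nat_lit 5) 
(.lf (nat_lit 64783) (.g (nat_lit 1024) (.e (nat_lit 1595) (nat_lit 111) (.e (nat_lit 360453) (nat_lit 0) (.e (nat_lit 7272) (nat_lit 385) (.e (nat_lit 122918) (nat_lit 15) .nil)))) .nil)) 
(.lf (nat_lit 64815) (.g (nat_lit 1337) (.e (nat_lit 1595) (nat_lit 111) (.e (nat_lit 368384) (nat_lit 0) (.e (nat_lit 5905) (nat_lit 320) (.e (nat_lit 1219) (nat_lit 90) (.e (nat_lit 81943) (nat_lit 20) (.e (nat_lit 2004) (nat_lit 138) (.e (nat_lit 671747) (nat_lit 0) .nil))))))) (.g (nat_lit 4) .nil .nil)))) (.nd (nat_lit 5) 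
(.lf (nat_lit 64799) (.g (nat_lit 1556) (.e (nat_lit 1595) (nat_lit 111) (.e (nat_lit 360457) (nat_lit 0) (.e (nat_lit 5818) (nat_lit 320) (.e (nat_lit 1222) (nat_lit 90) (.e (nat_lit 81947) (nat_lit 20) .nil))))) .nil)) 
(.lf (nat_lit 64831) (.g (nat_lit 2567) (.e (nat_lit 1595) (nat_lit 111) (.e (nat_lit 360467) (nat_lit 3) (.e (nat_lit 516097) (nat_lit 0) (.e (nat_lit 7593) (nat_lit 407) (.e (nat_lit 73751) (nat_lit 7) (.e (nat_lit 548873) (nat_lit 5) .nil)))))) (.g (nat_lit 4) .nil .nil)))))))))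

noncomputable def tv891 : DT := (.nd (nat_lit 0) (.nd (nat_lit 1) (.nd (nat_lit 2) (.nd (nat_lit 3) (.nd (nat_lit 4) (.nd (nat_lit 5) 
(.lf (nat_lit 64832) (.g (nat_lit 561) (.e (nat_lit 1595) (nat_lit 111) (.e (nat_lit 360467) (nat_lit 3) (.e (nat_lit 516100) (nat_lit 0) .nil))) .nil)) 
(.lf (nat_lit 64864) (.g (nat_lit 3729) (.e (nat_lit 1595) (nat_lit 111) (.e (nat_lit 360467) (nat_lit 3) (.e (nat_lit 516139) (nat_lit 7) (.e (nat_lit 409649) (nat_lit 18) (.e (nat_lit 303111) (nat_lit 0) (.e (nat_lit 3147) (nat_lit 193) (.e (nat_lit 499960) (nat_lit 14) .nil))))))) (.g (nat_lit 5) .nil .nil)))) (.nd (nat_lit 5) 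
(.lf (nat_lit 64848) (.g (nat_lit 5174) (.e (nat_lit 1595) (nat_lit 111) (.e (nat_lit 360467) (nat_lit 3) (.e (nat_lit 516139) (nat_lit 7) (.e (nat_lit 409646) (nat_lit 18) (.e (nat_lit 303117) (nat_lit 2) (.e (nat_lit 196630) (nat_lit 9) .nil)))))) (.g (nat_lit 6) .nil .nil))) 
(.lf (nat_lit 64880) (.g (nat_lit 2482) (.e (nat_lit 1595) (nat_lit 111) (.e (nat_lit 360467) (nat_lit 3) (.e (nat_lit 516146) (nat_lit 9) (.e (nat_lit 426444) (nat_lit 19) (.e (nat_lit 114432) (nat_lit 7) (.e (nat_lit 229438) (nat_lit 30) (.e (nat_lit 573451) (nat_lit 9) .nil))))))) (.g (nat_lit 4) .nil .nil))))) (.nd (nat_lit 4) (.nd (nat_lit 5) 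
(.lf (nat_lit 64840) (.g (nat_lit 1244) (.e (nat_lit 1595) (nat_lit 111) (.e (nat_lit 360467) (nat_lit 3) (.e (nat_lit 516139) (nat_lit 7) (.e (nat_lit 409617) (nat_lit 10) .nil)))) .nil)) 
(.lf (nat_lit 64872) (.g (nat_lit 5525) (.e (nat_lit 1595) (nat_lit 111) (.e (nat_lit 360467) (nat_lit 3) (.e (nat_lit 516139) (nat_lit 7) (.e (nat_lit 409649) (nat_lit 18) (.e (nat_lit 303117) (nat_lit 2) (.e (nat_lit 196630) (nat_lit 9) .nil)))))) (.g (nat_lit 6) .nil .nil)))) (.nd (nat_lit 5) 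
(.lf (nat_lit 64856) (.g (nat_lit 4542) (.e (nat_lit 1595) (nat_lit 111) (.e (nat_lit 360467) (nat_lit 3) (.e (nat_lit 516139) (nat_lit 7) (.e (nat_lit 409648) (nat_lit 18) (.e (nat_lit 303117) (nat_lit 2) (.e (nat_lit 196625) (nat_lit 9) .nil)))))) (.g (nat_lit 6) .nil .nil))) 
(.lf (nat_lit 64888) (.g (nat_lit 553) (.e (nat_lit 1595) (nat_lit 111) (.e (nat_lit 360467) (nat_lit 3) (.e (nat_lit 516171) (nat_lit 13) .nil))) .nil))))) (.nd (nat_lit 3) (.nd (nat_lit 4) (.nd (nat_lit 5) 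
(.lf (nat_lit 64836) (.g (nat_lit 4203) (.e (nat_lit 1595) (nat_lit 111) (.e (nat_lit 360467) (nat_lit 3) (.e (nat_lit 516138) (nat_lit 7) (.e (nat_lit 409646) (nat_lit 18) (.e (nat_lit 303117) (nat_lit 2) (.e (nat_lit 196630) (nat_lit 9) .nil)))))) (.g (nat_lit 5) .nil .nil))) 
(.lf (nat_lit 64868) (.g (nat_lit 2677) (.e (nat_lit 1595) (nat_lit 111) (.e (nat_lit 360467) (nat_lit 3) (.e (nat_lit 516139) (nat_lit 7) (.e (nat_lit 409649) (nat_lit 18) (.e (nat_lit 303117) (nat_lit 2) (.e (nat_lit 196617) (nat_lit 9) .nil)))))) (.g (nat_lit 4) .nil .nil)))) (.nd (nat_lit 5) 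
(.lf (nat_lit 64852) (.g (nat_lit 2348) (.e (nat_lit 1595) (nat_lit 111) (.e (nat_lit 360467) (nat_lit 3) (.e (nat_lit 516139) (nat_lit 7) (.e (nat_lit 409648) (nat_lit 18) (.e (nat_lit 303108) (nat_lit 0) .nil))))) .nil)) 
(.lf (nat_lit 64884) (.g (nat_lit 6060) (.e (nat_lit 1595) (nat_lit 111) (.e (nat_lit 360467) (nat_lit 3) (.e (nat_lit 516160) (nat_lit 10) (.e (nat_lit 434272) (nat_lit 38) (.e (nat_lit 655375) (nat_lit 3) (.e (nat_lit 163978) (nat_lit 30) (.e (nat_lit 573451) (nat_lit 9) .nil))))))) (.g (nat_lit 0) .nil .nil))))) (.nd (nat_lit 4) (.nd (nat_lit 5) 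
(.lf (nat_lit 64844) (.g (nat_lit 3529) (.e (nat_lit 1595) (nat_lit 111) (.e (nat_lit 360467) (nat_lit 3) (.e (nat_lit 516139) (nat_lit 7) (.e (nat_lit 409644) (nat_lit 18) (.e (nat_lit 303117) (nat_lit 2) (.e (nat_lit 196630) (nat_lit 9) .nil)))))) (.g (nat_lit 4) .nil .nil))) 
(.lf (nat_lit 64876) (.g (nat_lit 2821) (.e (nat_lit 1595) (nat_lit 111) (.e (nat_lit 360467) (nat_lit 3) (.e (nat_lit 516142) (nat_lit 8) (.e (nat_lit 417828) (nat_lit 18) (.e (nat_lit 303117) (nat_lit 2) (.e (nat_lit 196630) (nat_lit 9) .nil)))))) (.g (nat_lit 4) .nil .nil)))) (.nd (nat_lit 5) 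
(.lf (nat_lit 64860) (.g (nat_lit 2810) (.e (nat_lit 1595) (nat_lit 111) (.e (nat_lit 360467) (nat_lit 3) (.e (nat_lit 516139) (nat_lit 7) (.e (nat_lit 409649) (nat_lit 18) (.e (nat_lit 303111) (nat_lit 0) (.e (nat_lit 3124) (nat_lit 193) (.e (nat_lit 499960) (nat_lit 14) .nil))))))) (.g (nat_lit 4) .nil .nil))) 
(.lf (nat_lit 64892) (.g (nat_lit 1775) (.e (nat_lit 1595) (nat_lit 111) (.e (nat_lit 360467) (nat_lit 3) (.e (nat_lit 516179) (nat_lit 15) (.e (nat_lit 475196) (nat_lit 40) .nil)))) .nil)))))) (.nd (nat_lit 2) (.nd (nat_lit 3) (.nd (nat_lit 4) (.nd (nat_lit 5) 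
(.lf (nat_lit 64834) (.g (nat_lit 2763) (.e (nat_lit 1595) (nat_lit 111) (.e (nat_lit 360467) (nat_lit 3) (.e (nat_lit 516138) (nat_lit 7) (.e (nat_lit 409645) (nat_lit 18) (.e (nat_lit 303117) (nat_lit 2) (.e (nat_lit 196625) (nat_lit 9) .nil)))))) (.g (nat_lit 4) .nil .nil))) 
(.lf (nat_lit 64866) (.g (nat_lit 3844) (.e (nat_lit 1595) (nat_lit 111) (.e (nat_lit 360467) (nat_lit 3) (.e (nat_lit 516139) (nat_lit 7) (.e (nat_lit 409649) (nat_lit 18) (.e (nat_lit 303116) (nat_lit 2) (.e (nat_lit 196625) (nat_lit 9) .nil)))))) (.g (nat_lit 5) .nil .nil)))) (.nd (nat_lit 5) 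
(.lf (nat_lit 64850) (.g (nat_lit 4331) (.e (nat_lit 1595) (nat_lit 111) (.e (nat_lit 360467) (nat_lit 3) (.e (nat_lit 516139) (nat_lit 7) (.e (nat_lit 409647) (nat_lit 18) (.e (nat_lit 303117) (nat_lit 2) (.e (nat_lit 196630) (nat_lit 9) .nil)))))) (.g (nat_lit 5) .nil .nil))) 
(.lf (nat_lit 64882) (.g (nat_lit 4565) (.e (nat_lit 1595) (nat_lit 111) (.e (nat_lit 360467) (nat_lit 3) (.e (nat_lit 516151) (nat_lit 9) (.e (nat_lit 426412) (nat_lit 15) (.e (nat_lit 2059) (nat_lit 142) .nil))))) .nil)))) (.nd (nat_lit 4) (.nd (nat_lit 5) 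
(.lf (nat_lit 64842) (.g (nat_lit 2310) (.e (nat_lit 1595) (nat_lit 111) (.e (nat_lit 360467) (nat_lit 3) (.e (nat_lit 516139) (nat_lit 7) (.e (nat_lit 409642) (nat_lit 17) .nil)))) .nil)) 
(.lf (nat_lit 64874) (.g (nat_lit 1681) (.e (nat_lit 1595) (nat_lit 111) (.e (nat_lit 360467) (nat_lit 3) (.e (nat_lit 516139) (nat_lit 7) (.e (nat_lit 417536) (nat_lit 18) .nil)))) .nil))) (.nd (nat_lit 5) 
(.lf (nat_lit 64858) (.g (nat_lit 2422) (.e (nat_lit 1595) (nat_lit 111) (.e (nat_lit 360467) (nat_lit 3) (.e (nat_lit 516139) (nat_lit 7) (.e (nat_lit 409648) (nat_lit 18) (.e (nat_lit 311040) (nat_lit 2) (.e (nat_lit 196625) (nat_lit 9) .nil)))))) (.g (nat_lit 4) .nil .nil))) 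
(.lf (nat_lit 64890) (.g (nat_lit 3159) (.e (nat_lit 1595) (nat_lit 111) (.e (nat_lit 360467) (nat_lit 3) (.e (nat_lit 516178) (nat_lit 15) (.e (nat_lit 475210) (nat_lit 41) (.e (nat_lit 712722) (nat_lit 15) (.e (nat_lit 3302) (nat_lit 202) (.e (nat_lit 573451) (nat_lit 9) .nil))))))) (.g (nat_lit 5) .nil .nil)))))) (.nd (nat_lit 3) (.nd (nat_lit 4) (.nd (nat_lit 5) 
(.lf (nat_lit 64838) (.g (nat_lit 1247) (.e (nat_lit 1595) (nat_lit 111) (.e (nat_lit 360467) (nat_lit 3) (.e (nat_lit 516139) (nat_lit 7) (.e (nat_lit 409616) (nat_lit 10) .nil)))) .nil)) 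
(.lf (nat_lit 64870) (.g (nat_lit 2522) (.e (nat_lit 1595) (nat_lit 111) (.e (nat_lit 360467) (nat_lit 3) (.e (nat_lit 516139) (nat_lit 7) (.e (nat_lit 409649) (nat_lit 18) (.e (nat_lit 303117) (nat_lit 2) (.e (nat_lit 196626) (nat_lit 9) .nil)))))) (.g (nat_lit 4) .nil .nil)))) (.nd (nat_lit 5) 
(.lf (nat_lit 64854) (.g (nat_lit 4398) (.e (nat_lit 1595) (nat_lit 111) (.e (nat_lit 360467) (nat_lit 3) (.e (nat_lit 516139) (nat_lit 7) (.e (nat_lit 409648) (nat_lit 18) (.e (nat_lit 303116) (nat_lit 2) (.e (nat_lit 196630) (nat_lit 9) .nil)))))) (.g (nat_lit 5) .nil .nil))) 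
(.lf (nat_lit 64886) (.g (nat_lit 2626) (.e (nat_lit 1595) (nat_lit 111) (.e (nat_lit 360467) (nat_lit 3) (.e (nat_lit 516161) (nat_lit 10) (.e (nat_lit 434272) (nat_lit 38) (.e (nat_lit 655375) (nat_lit 3) (.e (nat_lit 163979) (nat_lit 30) (.e (nat_lit 573451) (nat_lit 9) .nil))))))) (.g (nat_lit 5) .nil .nil))))) (.nd (nat_lit 4) (.nd (nat_lit 5) 
(.lf (nat_lit 64846) (.g (nat_lit 4330) (.e (nat_lit 1595) (nat_lit 111) (.e (nat_lit 360467) (nat_lit 3) (.e (nat_lit 516139) (nat_lit 7) (.e (nat_lit 409645) (nat_lit 18) (.e (nat_lit 303117) (nat_lit 2) (.e (nat_lit 196630) (nat_lit 9) .nil)))))) (.g (nat_lit 5) .nil .nil))) 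
(.lf (nat_lit 64878) (.g (nat_lit 1583) (.e (nat_lit 1595) (nat_lit 111) (.e (nat_lit 360467) (nat_lit 3) (.e (nat_lit 516146) (nat_lit 9) (.e (nat_lit 426364) (nat_lit 15) .nil)))) .nil))) (.nd (nat_lit 5) 
(.lf (nat_lit 64862) (.g (nat_lit 2680) (.e (nat_lit 1595) (nat_lit 111) (.e (nat_lit 360467) (nat_lit 3) (.e (nat_lit 516139) (nat_lit 7) (.e (nat_lit 409649) (nat_lit 18) (.e (nat_lit 303111) (nat_lit 0) (.e (nat_lit 3144) (nat_lit 193) (.e (nat_lit 499960) (nat_lit 14) .nil))))))) (.g (nat_lit 4) .nil .nil))) 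
(.lf (nat_lit 64894) (.g (nat_lit 6916) (.e (nat_lit 1595) (nat_lit 111) (.e (nat_lit 360467) (nat_lit 3) (.e (nat_lit 516179) (nat_lit 15) (.e (nat_lit 475198) (nat_lit 40) (.e (nat_lit 704590) (nat_lit 3) (.e (nat_lit 163975) (nat_lit 30) (.e (nat_lit 573451) (nat_lit 9) .nil))))))) (.g (nat_lit 0) .nil .nil)))))))) 
(.nd (nat_lit 1) (.nd (nat_lit 2) (.nd (nat_lit 3) (.nd (nat_lit 4) (.nd (nat_lit 5) 
(.lf (nat_lit 64833) (.g (nat_lit 2625) (.e (nat_lit 1595) (nat_lit 111) (.e (nat_lit 360467) (nat_lit 3) (.e (nat_lit 516138) (nat_lit 7) (.e (nat_lit 409644) (nat_lit 18) (.e (nat_lit 303117) (nat_lit 2) (.e (nat_lit 196630) (nat_lit 9) .nil)))))) (.g (nat_lit 4) .nil .nil))) 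
(.lf (nat_lit 64865) (.g (nat_lit 2609) (.e (nat_lit 1595) (nat_lit 111) (.e (nat_lit 360467) (nat_lit 3) (.e (nat_lit 516139) (nat_lit 7) (.e (nat_lit 409649) (nat_lit 18) (.e (nat_lit 303111) (nat_lit 0) (.e (nat_lit 3147) (nat_lit 193) (.e (nat_lit 499969) (nat_lit 14) .nil))))))) (.g (nat_lit 4) .nil .nil)))) (.nd (nat_lit 5) 
(.lf (nat_lit 64849) (.g (nat_lit 2846) (.e (nat_lit 1595) (nat_lit 111) (.e (nat_lit 360467) (nat_lit 3) (.e (nat_lit 516139) (nat_lit 7) (.e (nat_lit 409647) (nat_lit 18) (.e (nat_lit 303117) (nat_lit 2) (.e (nat_lit 196625) (nat_lit 9) .nil)))))) (.g (nat_lit 4) .nil .nil))) 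
(.lf (nat_lit 64881) (.g (nat_lit 1747) (.e (nat_lit 1595) (nat_lit 111) (.e (nat_lit 360467) (nat_lit 3) (.e (nat_lit 516150) (nat_lit 9) (.e (nat_lit 426444) (nat_lit 19) .nil)))) .nil)))) (.nd (nat_lit 4) (.nd (nat_lit 5) 
(.lf (nat_lit 64841) (.g (nat_lit 2137) (.e (nat_lit 1595) (nat_lit 111) (.e (nat_lit 360467) (nat_lit 3) (.e (nat_lit 516139) (nat_lit 7) (.e (nat_lit 409617) (nat_lit 10) (.e (nat_lit 7936) (nat_lit 299) .nil))))) .nil)) 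
(.lf (nat_lit 64873) (.g (nat_lit 1881) (.e (nat_lit 1595) (nat_lit 111) (.e (nat_lit 360467) (nat_lit 3) (.e (nat_lit 516139) (nat_lit 7) (.e (nat_lit 409649) (nat_lit 18) (.e (nat_lit 311040) (nat_lit 2) .nil))))) .nil))) (.nd (nat_lit 5) 
(.lf (nat_lit 64857) (.g (nat_lit 5574) (.e (nat_lit 1595) (nat_lit 111) (.e (nat_lit 360467) (nat_lit 3) (.e (nat_lit 516139) (nat_lit 7) (.e (nat_lit 409648) (nat_lit 18) (.e (nat_lit 303117) (nat_lit 2) (.e (nat_lit 196630) (nat_lit 9) .nil)))))) (.g (nat_lit 0) .nil .nil))) 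
(.lf (nat_lit 64889) (.g (nat_lit 1721) (.e (nat_lit 1595) (nat_lit 111) (.e (nat_lit 360467) (nat_lit 3) (.e (nat_lit 516171) (nat_lit 13) (.e (nat_lit 458774) (nat_lit 18) (.e (nat_lit 4808) (nat_lit 281) .nil))))) .nil))))) (.nd (nat_lit 3) (.nd (nat_lit 4) (.nd (nat_lit 5) 
(.lf (nat_lit 64837) (.g (nat_lit 324) (.e (nat_lit 1595) (nat_lit 111) (.e (nat_lit 360467) (nat_lit 3) (.e (nat_lit 516139) (nat_lit 7) .nil))) .nil)) 
(.lf (nat_lit 64869) (.g (nat_lit 2791) (.e (nat_lit 1595) (nat_lit 111) (.e (nat_lit 360467) (nat_lit 3) (.e (nat_lit 516139) (nat_lit 7) (.e (nat_lit 409649) (nat_lit 18) (.e (nat_lit 303117) (nat_lit 2) (.e (nat_lit 196623) (nat_lit 9) .nil)))))) (.g (nat_lit 4) .nil .nil)))) (.nd (nat_lit 5) 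
(.lf (nat_lit 64853) (.g (nat_lit 4316) (.e (nat_lit 1595) (nat_lit 111) (.e (nat_lit 360467) (nat_lit 3) (.e (nat_lit 516139) (nat_lit 7) (.e (nat_lit 409648) (nat_lit 18) (.e (nat_lit 303116) (nat_lit 2) (.e (nat_lit 196625) (nat_lit 9) .nil)))))) (.g (nat_lit 6) .nil .nil))) 
(.lf (nat_lit 64885) (.g (nat_lit 4095) (.e (nat_lit 1595) (nat_lit 111) (.e (nat_lit 360467) (nat_lit 3) (.e (nat_lit 516160) (nat_lit 10) (.e (nat_lit 434272) (nat_lit 38) (.e (nat_lit 655375) (nat_lit 3) (.e (nat_lit 163979) (nat_lit 30) (.e (nat_lit 573451) (nat_lit 9) .nil))))))) (.g (nat_lit 7) .nil .nil))))) (.nd (nat_lit 4) (.nd (nat_lit 5) 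
(.lf (nat_lit 64845) (.g (nat_lit 3171) (.e (nat_lit 1595) (nat_lit 111) (.e (nat_lit 360467) (nat_lit 3) (.e (nat_lit 516139) (nat_lit 7) (.e (nat_lit 409645) (nat_lit 18) (.e (nat_lit 303117) (nat_lit 2) (.e (nat_lit 196625) (nat_lit 9) .nil)))))) (.g (nat_lit 4) .nil .nil))) 
(.lf (nat_lit 64877) (.g (nat_lit 2641) (.e (nat_lit 1595) (nat_lit 111) (.e (nat_lit 360467) (nat_lit 3) (.e (nat_lit 516142) (nat_lit 8) (.e (nat_lit 417829) (nat_lit 18) (.e (nat_lit 303117) (nat_lit 2) (.e (nat_lit 196630) (nat_lit 9) .nil)))))) (.g (nat_lit 4) .nil .nil)))) (.nd (nat_lit 5) 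
(.lf (nat_lit 64861) (.g (nat_lit 2665) (.e (nat_lit 1595) (nat_lit 111) (.e (nat_lit 360467) (nat_lit 3) (.e (nat_lit 516139) (nat_lit 7) (.e (nat_lit 409649) (nat_lit 18) (.e (nat_lit 303111) (nat_lit 0) (.e (nat_lit 3134) (nat_lit 193) (.e (nat_lit 499960) (nat_lit 14) .nil))))))) (.g (nat_lit 4) .nil .nil))) 
(.lf (nat_lit 64893) (.g (nat_lit 3095) (.e (nat_lit 1595) (nat_lit 111) (.e (nat_lit 360467) (nat_lit 3) (.e (nat_lit 516179) (nat_lit 15) (.e (nat_lit 475198) (nat_lit 40) (.e (nat_lit 704590) (nat_lit 3) (.e (nat_lit 163975) (nat_lit 30) (.e (nat_lit 573449) (nat_lit 9) .nil))))))) (.g (nat_lit 4) .nil .nil))))))) (.nd (nat_lit 2) (.nd (nat_lit 3) (.nd (nat_lit 4) (.nd (nat_lit 5) 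
(.lf (nat_lit 64835) (.g (nat_lit 3846) (.e (nat_lit 1595) (nat_lit 111) (.e (nat_lit 360467) (nat_lit 3) (.e (nat_lit 516138) (nat_lit 7) (.e (nat_lit 409645) (nat_lit 18) (.e (nat_lit 303117) (nat_lit 2) (.e (nat_lit 196630) (nat_lit 9) .nil)))))) (.g (nat_lit 5) .nil .nil))) 
(.lf (nat_lit 64867) (.g (nat_lit 3842) (.e (nat_lit 1595) (nat_lit 111) (.e (nat_lit 360467) (nat_lit 3) (.e (nat_lit 516139) (nat_lit 7) (.e (nat_lit 409649) (nat_lit 18) (.e (nat_lit 303116) (nat_lit 2) (.e (nat_lit 196630) (nat_lit 9) .nil)))))) (.g (nat_lit 5) .nil .nil)))) (.nd (nat_lit 5) 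
(.lf (nat_lit 64851) (.g (nat_lit 1246) (.e (nat_lit 1595) (nat_lit 111) (.e (nat_lit 360467) (nat_lit 3) (.e (nat_lit 516139) (nat_lit 7) (.e (nat_lit 409648) (nat_lit 18) .nil)))) .nil)) 
(.lf (nat_lit 64883) (.g (nat_lit 2101) (.e (nat_lit 1595) (nat_lit 111) (.e (nat_lit 360467) (nat_lit 3) (.e (nat_lit 516160) (nat_lit 10) (.e (nat_lit 434271) (nat_lit 38) (.e (nat_lit 655375) (nat_lit 3) (.e (nat_lit 163979) (nat_lit 30) (.e (nat_lit 573451) (nat_lit 9) .nil))))))) (.g (nat_lit 4) .nil .nil))))) (.nd (nat_lit 4) (.nd (nat_lit 5) 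
(.lf (nat_lit 64843) (.g (nat_lit 3591) (.e (nat_lit 1595) (nat_lit 111) (.e (nat_lit 360467) (nat_lit 3) (.e (nat_lit 516139) (nat_lit 7) (.e (nat_lit 409643) (nat_lit 18) (.e (nat_lit 303117) (nat_lit 2) (.e (nat_lit 196630) (nat_lit 9) .nil)))))) (.g (nat_lit 5) .nil .nil))) 
(.lf (nat_lit 64875) (.g (nat_lit 1718) (.e (nat_lit 1595) (nat_lit 111) (.e (nat_lit 360467) (nat_lit 3) (.e (nat_lit 516139) (nat_lit 7) (.e (nat_lit 409650) (nat_lit 19) (.e (nat_lit 311312) (nat_lit 2) .nil))))) .nil))) (.nd (nat_lit 5) 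
(.lf (nat_lit 64859) (.g (nat_lit 2164) (.e (nat_lit 1595) (nat_lit 111) (.e (nat_lit 360467) (nat_lit 3) (.e (nat_lit 516139) (nat_lit 7) (.e (nat_lit 409649) (nat_lit 18) (.e (nat_lit 303111) (nat_lit 0) .nil))))) .nil)) 
(.lf (nat_lit 64891) (.g (nat_lit 528) (.e (nat_lit 1595) (nat_lit 111) (.e (nat_lit 360467) (nat_lit 3) (.e (nat_lit 516179) (nat_lit 15) .nil))) .nil))))) (.nd (nat_lit 3) (.nd (nat_lit 4) (.nd (nat_lit 5) 
(.lf (nat_lit 64839) (.g (nat_lit 2053) (.e (nat_lit 1595) (nat_lit 111) (.e (nat_lit 360467) (nat_lit 3) (.e (nat_lit 516139) (nat_lit 7) (.e (nat_lit 409616) (nat_lit 10) (.e (nat_lit 7936) (nat_lit 299) (.e (nat_lit 8232) (nat_lit 20) (.e (nat_lit 573451) (nat_lit 9) .nil))))))) (.g (nat_lit 4) .nil .nil))) 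
(.lf (nat_lit 64871) (.g (nat_lit 3047) (.e (nat_lit 1595) (nat_lit 111) (.e (nat_lit 360467) (nat_lit 3) (.e (nat_lit 516139) (nat_lit 7) (.e (nat_lit 409649) (nat_lit 18) (.e (nat_lit 303117) (nat_lit 2) (.e (nat_lit 196627) (nat_lit 9) .nil)))))) (.g (nat_lit 4) .nil .nil)))) (.nd (nat_lit 5) 
(.lf (nat_lit 64855) (.g (nat_lit 2751) (.e (nat_lit 1595) (nat_lit 111) (.e (nat_lit 360467) (nat_lit 3) (.e (nat_lit 516139) (nat_lit 7) (.e (nat_lit 409648) (nat_lit 18) (.e (nat_lit 303117) (nat_lit 2) (.e (nat_lit 196617) (nat_lit 9) .nil)))))) (.g (nat_lit 4) .nil .nil))) 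
(.lf (nat_lit 64887) (.g (nat_lit 553) (.e (nat_lit 1595) (nat_lit 111) (.e (nat_lit 360467) (nat_lit 3) (.e (nat_lit 516170) (nat_lit 13) .nil))) .nil)))) (.nd (nat_lit 4) (.nd (nat_lit 5) 
(.lf (nat_lit 64847) (.g (nat_lit 2392) (.e (nat_lit 1595) (nat_lit 111) (.e (nat_lit 360467) (nat_lit 3) (.e (nat_lit 516139) (nat_lit 7) (.e (nat_lit 409646) (nat_lit 18) (.e (nat_lit 303117) (nat_lit 2) .nil))))) .nil)) 
(.lf (nat_lit 64879) (.g (nat_lit 1815) (.e (nat_lit 1595) (nat_lit 111) (.e (nat_lit 360467) (nat_lit 3) (.e (nat_lit 516146) (nat_lit 9) (.e (nat_lit 426444) (nat_lit 19) (.e (nat_lit 114432) (nat_lit 3) .nil))))) .nil))) (.nd (nat_lit 5) 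
(.lf (nat_lit 64863) (.g (nat_lit 2760) (.e (nat_lit 1595) (nat_lit 111) (.e (nat_lit 360467) (nat_lit 3) (.e (nat_lit 516139) (nat_lit 7) (.e (nat_lit 409649) (nat_lit 18) (.e (nat_lit 303111) (nat_lit 0) (.e (nat_lit 3146) (nat_lit 193) (.e (nat_lit 499960) (nat_lit 14) .nil))))))) (.g (nat_lit 4) .nil .nil))) 
(.lf (nat_lit 64895) (.g (nat_lit 6054) (.e (nat_lit 1595) (nat_lit 111) (.e (nat_lit 360467) (nat_lit 3) (.e (nat_lit 516179) (nat_lit 15) (.e (nat_lit 475199) (nat_lit 40) (.e (nat_lit 704589) (nat_lit 3) (.e (nat_lit 163979) (nat_lit 30) (.e (nat_lit 573451) (nat_lit 9) .nil))))))) (.g (nat_lit 0) .nil .nil)))))))))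

noncomputable def tv892 : DT := (.nd (nat_lit 0) (.nd (nat_lit 1) (.nd (nat_lit 2) (.nd (nat_lit 3) (.nd (nat_lit 4) (.nd (nat_lit 5) 
(.lf (nat_lit 64896) (.g (nat_lit 2835) (.e (nat_lit 1595) (nat_lit 111) (.e (nat_lit 360467) (nat_lit 3) (.e (nat_lit 516179) (nat_lit 15) (.e (nat_lit 475199) (nat_lit 40) (.e (nat_lit 704589) (nat_lit 3) (.e (nat_lit 163979) (nat_lit 30) (.e (nat_lit 573452) (nat_lit 9) .nil))))))) (.g (nat_lit 4) .nil .nil))) 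
(.lf (nat_lit 64928) (.g (nat_lit 3916) (.e (nat_lit 1595) (nat_lit 111) (.e (nat_lit 360467) (nat_lit 3) (.e (nat_lit 516184) (nat_lit 16) (.e (nat_lit 491566) (nat_lit 12) (.e (nat_lit 385072) (nat_lit 31) (.e (nat_lit 573451) (nat_lit 9) .nil)))))) (.g (nat_lit 6) .nil .nil)))) (.nd (nat_lit 5) 
(.lf (nat_lit 64912) (.g (nat_lit 2671) (.e (nat_lit 1595) (nat_lit 111) (.e (nat_lit 360467) (nat_lit 3) (.e (nat_lit 516183) (nat_lit 16) (.e (nat_lit 491549) (nat_lit 9) (.e (nat_lit 336306) (nat_lit 15) (.e (nat_lit 3298) (nat_lit 202) (.e (nat_lit 573451) (nat_lit 9) .nil))))))) (.g (nat_lit 5) .nil .nil))) 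
(.lf (nat_lit 64944) (.g (nat_lit 2979) (.e (nat_lit 1595) (nat_lit 111) (.e (nat_lit 360467) (nat_lit 3) (.e (nat_lit 516185) (nat_lit 16) (.e (nat_lit 491560) (nat_lit 10) (.e (nat_lit 344124) (nat_lit 25) (.e (nat_lit 548873) (nat_lit 5) .nil)))))) (.g (nat_lit 4) .nil .nil))))) (.nd (nat_lit 4) (.nd (nat_lit 5) 
(.lf (nat_lit 64904) (.g (nat_lit 2796) (.e (nat_lit 1595) (nat_lit 111) (.e (nat_lit 360467) (nat_lit 3) (.e (nat_lit 516179) (nat_lit 15) (.e (nat_lit 475211) (nat_lit 41) (.e (nat_lit 712719) (nat_lit 15) (.e (nat_lit 3304) (nat_lit 202) (.e (nat_lit 573451) (nat_lit 9) .nil))))))) (.g (nat_lit 4) .nil .nil))) 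
(.lf (nat_lit 64936) (.g (nat_lit 2360) (.e (nat_lit 1595) (nat_lit 111) (.e (nat_lit 360467) (nat_lit 3) (.e (nat_lit 516185) (nat_lit 16) (.e (nat_lit 491552) (nat_lit 9) (.e (nat_lit 335924) (nat_lit 0) (.e (nat_lit 1842) (nat_lit 123) (.e (nat_lit 548874) (nat_lit 5) .nil))))))) (.g (nat_lit 4) .nil .nil)))) (.nd (nat_lit 5) 
(.lf (nat_lit 64920) (.g (nat_lit 1889) (.e (nat_lit 1595) (nat_lit 111) (.e (nat_lit 360467) (nat_lit 3) (.e (nat_lit 516184) (nat_lit 16) (.e (nat_lit 491550) (nat_lit 9) (.e (nat_lit 336306) (nat_lit 15) .nil))))) .nil)) 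
(.lf (nat_lit 64952) (.g (nat_lit 1715) (.e (nat_lit 1595) (nat_lit 111) (.e (nat_lit 360471) (nat_lit 7) (.e (nat_lit 548872) (nat_lit 5) (.e (nat_lit 1599) (nat_lit 111) (.e (nat_lit 360471) (nat_lit 7) (.e (nat_lit 548873) (nat_lit 5) .nil)))))) (.g (nat_lit 5) .nil .nil)))))) (.nd (nat_lit 3) (.nd (nat_lit 4) (.nd (nat_lit 5) 
(.lf (nat_lit 64900) (.g (nat_lit 3737) (.e (nat_lit 1595) (nat_lit 111) (.e (nat_lit 360467) (nat_lit 3) (.e (nat_lit 516179) (nat_lit 15) (.e (nat_lit 475210) (nat_lit 41) (.e (nat_lit 712719) (nat_lit 15) (.e (nat_lit 3304) (nat_lit 202) (.e (nat_lit 573451) (nat_lit 9) .nil))))))) (.g (nat_lit 5) .nil .nil))) 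
(.lf (nat_lit 64932) (.g (nat_lit 3213) (.e (nat_lit 1595) (nat_lit 111) (.e (nat_lit 360467) (nat_lit 3) (.e (nat_lit 516184) (nat_lit 16) (.e (nat_lit 491566) (nat_lit 12) (.e (nat_lit 385074) (nat_lit 31) (.e (nat_lit 573456) (nat_lit 9) .nil)))))) (.g (nat_lit 4) .nil .nil)))) (.nd (nat_lit 5) 
(.lf (nat_lit 64916) (.g (nat_lit 3353) (.e (nat_lit 1595) (nat_lit 111) (.e (nat_lit 360467) (nat_lit 3) (.e (nat_lit 516183) (nat_lit 16) (.e (nat_lit 491566) (nat_lit 12) (.e (nat_lit 385072) (nat_lit 31) (.e (nat_lit 573451) (nat_lit 9) .nil)))))) (.g (nat_lit 5) .nil .nil))) 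
(.lf (nat_lit 64948) (.g (nat_lit 827) (.e (nat_lit 1595) (nat_lit 111) (.e (nat_lit 360470) (nat_lit 6) (.e (nat_lit 540724) (nat_lit 28) (.e (nat_lit 442409) (nat_lit 20) (.e (nat_lit 3577) (nat_lit 223) (.e (nat_lit 745475) (nat_lit 0) .nil)))))) (.g (nat_lit 4) .nil .nil))))) (.nd (nat_lit 4) (.nd (nat_lit 5) 
(.lf (nat_lit 64908) (.g (nat_lit 2038) (.e (nat_lit 1595) (nat_lit 111) (.e (nat_lit 360467) (nat_lit 3) (.e (nat_lit 516179) (nat_lit 15) (.e (nat_lit 475219) (nat_lit 44) (.e (nat_lit 737280) (nat_lit 0) .nil))))) .nil)) 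
(.lf (nat_lit 64940) (.g (nat_lit 1929) (.e (nat_lit 1595) (nat_lit 111) (.e (nat_lit 360467) (nat_lit 3) (.e (nat_lit 516185) (nat_lit 16) (.e (nat_lit 491556) (nat_lit 9) (.e (nat_lit 335872) (nat_lit 0) .nil))))) .nil))) (.nd (nat_lit 5) 
(.lf (nat_lit 64924) (.g (nat_lit 2978) (.e (nat_lit 1595) (nat_lit 111) (.e (nat_lit 360467) (nat_lit 3) (.e (nat_lit 516184) (nat_lit 16) (.e (nat_lit 491559) (nat_lit 10) (.e (nat_lit 344126) (nat_lit 25) (.e (nat_lit 548873) (nat_lit 5) .nil)))))) (.g (nat_lit 5) .nil .nil))) 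
(.lf (nat_lit 64956) (.g (nat_lit 2561) (.e (nat_lit 1595) (nat_lit 111) (.e (nat_lit 360471) (nat_lit 7) (.e (nat_lit 548889) (nat_lit 9) (.e (nat_lit 65586) (nat_lit 7) (.e (nat_lit 319519) (nat_lit 12) (.e (nat_lit 32774) (nat_lit 5) .nil)))))) (.g (nat_lit 5) .nil .nil))))))) (.nd (nat_lit 2) (.nd (nat_lit 3) (.nd (nat_lit 4) (.nd (nat_lit 5) 
(.lf (nat_lit 64898) (.g (nat_lit 1792) (.e (nat_lit 1595) (nat_lit 111) (.e (nat_lit 360467) (nat_lit 3) (.e (nat_lit 516179) (nat_lit 15) (.e (nat_lit 475209) (nat_lit 41) .nil)))) .nil)) 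
(.lf (nat_lit 64930) (.g (nat_lit 3875) (.e (nat_lit 1595) (nat_lit 111) (.e (nat_lit 360467) (nat_lit 3) (.e (nat_lit 516184) (nat_lit 16) (.e (nat_lit 491566) (nat_lit 12) (.e (nat_lit 385074) (nat_lit 31) (.e (nat_lit 573451) (nat_lit 9) .nil)))))) (.g (nat_lit 5) .nil .nil)))) (.nd (nat_lit 5) 
(.lf (nat_lit 64914) (.g (nat_lit 2656) (.e (nat_lit 1595) (nat_lit 111) (.e (nat_lit 360467) (nat_lit 3) (.e (nat_lit 516183) (nat_lit 16) (.e (nat_lit 491565) (nat_lit 12) (.e (nat_lit 385072) (nat_lit 31) (.e (nat_lit 573451) (nat_lit 9) .nil)))))) (.g (nat_lit 4) .nil .nil))) 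
(.lf (nat_lit 64946) (.g (nat_lit 4724) (.e (nat_lit 1595) (nat_lit 111) (.e (nat_lit 360467) (nat_lit 3) (.e (nat_lit 516185) (nat_lit 16) (.e (nat_lit 491560) (nat_lit 10) (.e (nat_lit 344126) (nat_lit 25) (.e (nat_lit 548874) (nat_lit 5) .nil)))))) (.g (nat_lit 0) .nil .nil))))) (.nd (nat_lit 4) (.nd (nat_lit 5) 
(.lf (nat_lit 64906) (.g (nat_lit 3536) (.e (nat_lit 1595) (nat_lit 111) (.e (nat_lit 360467) (nat_lit 3) (.e (nat_lit 516179) (nat_lit 15) (.e (nat_lit 475211) (nat_lit 41) (.e (nat_lit 712722) (nat_lit 15) (.e (nat_lit 3302) (nat_lit 202) (.e (nat_lit 573449) (nat_lit 9) .nil))))))) (.g (nat_lit 4) .nil .nil))) 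
(.lf (nat_lit 64938) (.g (nat_lit 2177) (.e (nat_lit 1595) (nat_lit 111) (.e (nat_lit 360467) (nat_lit 3) (.e (nat_lit 516185) (nat_lit 16) (.e (nat_lit 491552) (nat_lit 9) (.e (nat_lit 335927) (nat_lit 0) (.e (nat_lit 1842) (nat_lit 123) (.e (nat_lit 548873) (nat_lit 5) .nil))))))) (.g (nat_lit 4) .nil .nil)))) (.nd (nat_lit 5) 
(.lf (nat_lit 64922) (.g (nat_lit 1175) (.e (nat_lit 1595) (nat_lit 111) (.e (nat_lit 360467) (nat_lit 3) (.e (nat_lit 516184) (nat_lit 16) (.e (nat_lit 491551) (nat_lit 9) .nil)))) .nil)) 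
(.lf (nat_lit 64954) (.g (nat_lit 2069) (.e (nat_lit 1595) (nat_lit 111) (.e (nat_lit 360471) (nat_lit 7) (.e (nat_lit 548889) (nat_lit 9) (.e (nat_lit 65582) (nat_lit 7) .nil)))) .nil))))) (.nd (nat_lit 3) (.nd (nat_lit 4) (.nd (nat_lit 5) 
(.lf (nat_lit 64902) (.g (nat_lit 3701) (.e (nat_lit 1595) (nat_lit 111) (.e (nat_lit 360467) (nat_lit 3) (.e (nat_lit 516179) (nat_lit 15) (.e (nat_lit 475210) (nat_lit 41) (.e (nat_lit 712722) (nat_lit 15) (.e (nat_lit 3302) (nat_lit 202) (.e (nat_lit 573449) (nat_lit 9) .nil))))))) (.g (nat_lit 5) .nil .nil))) 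
(.lf (nat_lit 64934) (.g (nat_lit 1097) (.e (nat_lit 1595) (nat_lit 111) (.e (nat_lit 360467) (nat_lit 3) (.e (nat_lit 516185) (nat_lit 16) (.e (nat_lit 491552) (nat_lit 9) .nil)))) .nil))) (.nd (nat_lit 5) 
(.lf (nat_lit 64918) (.g (nat_lit 450) (.e (nat_lit 1595) (nat_lit 111) (.e (nat_lit 360467) (nat_lit 3) (.e (nat_lit 516184) (nat_lit 16) .nil))) .nil)) 
(.lf (nat_lit 64950) (.g (nat_lit 1518) (.e (nat_lit 1595) (nat_lit 111) (.e (nat_lit 360470) (nat_lit 6) (.e (nat_lit 540724) (nat_lit 28) (.e (nat_lit 442412) (nat_lit 20) (.e (nat_lit 3578) (nat_lit 223) (.e (nat_lit 745476) (nat_lit 0) .nil)))))) (.g (nat_lit 0) .nil .nil))))) (.nd (nat_lit 4) (.nd (nat_lit 5) 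
(.lf (nat_lit 64910) (.g (nat_lit 4692) (.e (nat_lit 1595) (nat_lit 111) (.e (nat_lit 360467) (nat_lit 3) (.e (nat_lit 516182) (nat_lit 15) (.e (nat_lit 475198) (nat_lit 40) (.e (nat_lit 704589) (nat_lit 3) (.e (nat_lit 163979) (nat_lit 30) (.e (nat_lit 573451) (nat_lit 9) .nil))))))) (.g (nat_lit 7) .nil .nil))) 
(.lf (nat_lit 64942) (.g (nat_lit 4578) (.e (nat_lit 1595) (nat_lit 111) (.e (nat_lit 360467) (nat_lit 3) (.e (nat_lit 516185) (nat_lit 16) (.e (nat_lit 491559) (nat_lit 10) (.e (nat_lit 344126) (nat_lit 25) (.e (nat_lit 548873) (nat_lit 5) .nil)))))) (.g (nat_lit 6) .nil .nil)))) (.nd (nat_lit 5) 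
(.lf (nat_lit 64926) (.g (nat_lit 3041) (.e (nat_lit 1595) (nat_lit 111) (.e (nat_lit 360467) (nat_lit 3) (.e (nat_lit 516184) (nat_lit 16) (.e (nat_lit 491565) (nat_lit 12) (.e (nat_lit 385072) (nat_lit 31) (.e (nat_lit 573451) (nat_lit 9) .nil)))))) (.g (nat_lit 5) .nil .nil))) 
(.lf (nat_lit 64958) (.g (nat_lit 2751) (.e (nat_lit 1595) (nat_lit 111) (.e (nat_lit 360471) (nat_lit 7) (.e (nat_lit 548889) (nat_lit 9) (.e (nat_lit 65616) (nat_lit 10) (.e (nat_lit 344126) (nat_lit 25) (.e (nat_lit 548873) (nat_lit 5) .nil)))))) (.g (nat_lit 0) .nil .nil)))))))) (.nd (nat_lit 1) (.nd (nat_lit 2) (.nd (nat_lit 3) (.nd (nat_lit 4) (.nd (nat_lit 5) 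
(.lf (nat_lit 64897) (.g (nat_lit 1148) (.e (nat_lit 1595) (nat_lit 111) (.e (nat_lit 360467) (nat_lit 3) (.e (nat_lit 516179) (nat_lit 15) (.e (nat_lit 475201) (nat_lit 40) .nil)))) .nil)) 
(.lf (nat_lit 64929) (.g (nat_lit 3608) (.e (nat_lit 1595) (nat_lit 111) (.e (nat_lit 360467) (nat_lit 3) (.e (nat_lit 516184) (nat_lit 16) (.e (nat_lit 491566) (nat_lit 12) (.e (nat_lit 385073) (nat_lit 31) (.e (nat_lit 573451) (nat_lit 9) .nil)))))) (.g (nat_lit 6) .nil .nil)))) (.nd (nat_lit 5) 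
(.lf (nat_lit 64913) (.g (nat_lit 2493) (.e (nat_lit 1595) (nat_lit 111) (.e (nat_lit 360467) (nat_lit 3) (.e (nat_lit 516183) (nat_lit 16) (.e (nat_lit 491550) (nat_lit 9) (.e (nat_lit 336306) (nat_lit 15) (.e (nat_lit 3298) (nat_lit 202) (.e (nat_lit 573451) (nat_lit 9) .nil))))))) (.g (nat_lit 4) .nil .nil))) 
(.lf (nat_lit 64945) (.g (nat_lit 4293) (.e (nat_lit 1595) (nat_lit 111) (.e (nat_lit 360467) (nat_lit 3) (.e (nat_lit 516185) (nat_lit 16) (.e (nat_lit 491560) (nat_lit 10) (.e (nat_lit 344126) (nat_lit 25) (.e (nat_lit 548873) (nat_lit 5) .nil)))))) (.g (nat_lit 0) .nil .nil))))) (.nd (nat_lit 4) (.nd (nat_lit 5) 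
(.lf (nat_lit 64905) (.g (nat_lit 3160) (.e (nat_lit 1595) (nat_lit 111) (.e (nat_lit 360467) (nat_lit 3) (.e (nat_lit 516179) (nat_lit 15) (.e (nat_lit 475211) (nat_lit 41) (.e (nat_lit 712722) (nat_lit 15) (.e (nat_lit 3302) (nat_lit 202) (.e (nat_lit 573448) (nat_lit 9) .nil))))))) (.g (nat_lit 4) .nil .nil))) 
(.lf (nat_lit 64937) (.g (nat_lit 2144) (.e (nat_lit 1595) (nat_lit 111) (.e (nat_lit 360467) (nat_lit 3) (.e (nat_lit 516185) (nat_lit 16) (.e (nat_lit 491552) (nat_lit 9) (.e (nat_lit 335925) (nat_lit 0) (.e (nat_lit 1842) (nat_lit 123) (.e (nat_lit 548874) (nat_lit 5) .nil))))))) (.g (nat_lit 4) .nil .nil)))) (.nd (nat_lit 5) 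
(.lf (nat_lit 64921) (.g (nat_lit 4077) (.e (nat_lit 1595) (nat_lit 111) (.e (nat_lit 360467) (nat_lit 3) (.e (nat_lit 516184) (nat_lit 16) (.e (nat_lit 491550) (nat_lit 9) (.e (nat_lit 336306) (nat_lit 15) (.e (nat_lit 3297) (nat_lit 202) (.e (nat_lit 573451) (nat_lit 9) .nil))))))) (.g (nat_lit 0) .nil .nil))) 
(.lf (nat_lit 64953) (.g (nat_lit 493) (.e (nat_lit 1595) (nat_lit 111) (.e (nat_lit 360471) (nat_lit 7) (.e (nat_lit 548888) (nat_lit 9) .nil))) .nil))))) (.nd (nat_lit 3) (.nd (nat_lit 4) (.nd (nat_lit 5) 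
(.lf (nat_lit 64901) (.g (nat_lit 3325) (.e (nat_lit 1595) (nat_lit 111) (.e (nat_lit 360467) (nat_lit 3) (.e (nat_lit 516179) (nat_lit 15) (.e (nat_lit 475210) (nat_lit 41) (.e (nat_lit 712722) (nat_lit 15) (.e (nat_lit 3302) (nat_lit 202) (.e (nat_lit 573448) (nat_lit 9) .nil))))))) (.g (nat_lit 4) .nil .nil))) 
(.lf (nat_lit 64933) (.g (nat_lit 2333) (.e (nat_lit 1595) (nat_lit 111) (.e (nat_lit 360467) (nat_lit 3) (.e (nat_lit 516185) (nat_lit 16) (.e (nat_lit 491549) (nat_lit 9) (.e (nat_lit 336306) (nat_lit 15) .nil))))) .nil))) (.nd (nat_lit 5) 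
(.lf (nat_lit 64917) (.g (nat_lit 2960) (.e (nat_lit 1595) (nat_lit 111) (.e (nat_lit 360467) (nat_lit 3) (.e (nat_lit 516183) (nat_lit 16) (.e (nat_lit 491566) (nat_lit 12) (.e (nat_lit 385073) (nat_lit 31) (.e (nat_lit 573451) (nat_lit 9) .nil)))))) (.g (nat_lit 5) .nil .nil))) 
(.lf (nat_lit 64949) (.g (nat_lit 1697) (.e (nat_lit 1595) (nat_lit 111) (.e (nat_lit 360470) (nat_lit 6) (.e (nat_lit 540724) (nat_lit 28) (.e (nat_lit 442409) (nat_lit 20) (.e (nat_lit 3578) (nat_lit 223) (.e (nat_lit 745476) (nat_lit 0) .nil)))))) (.g (nat_lit 0) .nil .nil))))) (.nd (nat_lit 4) (.nd (nat_lit 5) 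
(.lf (nat_lit 64909) (.g (nat_lit 553) (.e (nat_lit 1595) (nat_lit 111) (.e (nat_lit 360467) (nat_lit 3) (.e (nat_lit 516181) (nat_lit 15) .nil))) .nil)) 
(.lf (nat_lit 64941) (.g (nat_lit 4392) (.e (nat_lit 1595) (nat_lit 111) (.e (nat_lit 360467) (nat_lit 3) (.e (nat_lit 516185) (nat_lit 16) (.e (nat_lit 491558) (nat_lit 10) (.e (nat_lit 344126) (nat_lit 25) (.e (nat_lit 548874) (nat_lit 5) .nil)))))) (.g (nat_lit 0) .nil .nil)))) (.nd (nat_lit 5) 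
(.lf (nat_lit 64925) (.g (nat_lit 3323) (.e (nat_lit 1595) (nat_lit 111) (.e (nat_lit 360467) (nat_lit 3) (.e (nat_lit 516184) (nat_lit 16) (.e (nat_lit 491559) (nat_lit 10) (.e (nat_lit 344126) (nat_lit 25) (.e (nat_lit 548874) (nat_lit 5) .nil)))))) (.g (nat_lit 5) .nil .nil))) 
(.lf (nat_lit 64957) (.g (nat_lit 2195) (.e (nat_lit 1595) (nat_lit 111) (.e (nat_lit 360471) (nat_lit 7) (.e (nat_lit 548889) (nat_lit 9) (.e (nat_lit 65609) (nat_lit 10) .nil)))) .nil)))))) (.nd (nat_lit 2) (.nd (nat_lit 3) (.nd (nat_lit 4) (.nd (nat_lit 5) 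
(.lf (nat_lit 64899) (.g (nat_lit 4913) (.e (nat_lit 1595) (nat_lit 111) (.e (nat_lit 360467) (nat_lit 3) (.e (nat_lit 516179) (nat_lit 15) (.e (nat_lit 475209) (nat_lit 41) (.e (nat_lit 712719) (nat_lit 15) (.e (nat_lit 3297) (nat_lit 202) (.e (nat_lit 573451) (nat_lit 9) .nil))))))) (.g (nat_lit 0) .nil .nil))) 
(.lf (nat_lit 64931) (.g (nat_lit 3064) (.e (nat_lit 1595) (nat_lit 111) (.e (nat_lit 360467) (nat_lit 3) (.e (nat_lit 516184) (nat_lit 16) (.e (nat_lit 491566) (nat_lit 12) (.e (nat_lit 385074) (nat_lit 31) (.e (nat_lit 573452) (nat_lit 9) .nil)))))) (.g (nat_lit 4) .nil .nil)))) (.nd (nat_lit 5) 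
(.lf (nat_lit 64915) (.g (nat_lit 2691) (.e (nat_lit 1595) (nat_lit 111) (.e (nat_lit 360467) (nat_lit 3) (.e (nat_lit 516183) (nat_lit 16) (.e (nat_lit 491565) (nat_lit 12) (.e (nat_lit 385073) (nat_lit 31) (.e (nat_lit 573451) (nat_lit 9) .nil)))))) (.g (nat_lit 5) .nil .nil))) 
(.lf (nat_lit 64947) (.g (nat_lit 1286) (.e (nat_lit 1595) (nat_lit 111) (.e (nat_lit 368384) (nat_lit 5) (.e (nat_lit 532583) (nat_lit 26) (.e (nat_lit 426298) (nat_lit 11) (.e (nat_lit 458814) (nat_lit 49) (.e (nat_lit 745475) (nat_lit 0) .nil)))))) (.g (nat_lit 4) .nil .nil))))) (.nd (nat_lit 4) (.nd (nat_lit 5) 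
(.lf (nat_lit 64907) (.g (nat_lit 5653) (.e (nat_lit 1595) (nat_lit 111) (.e (nat_lit 360467) (nat_lit 3) (.e (nat_lit 516179) (nat_lit 15) (.e (nat_lit 475211) (nat_lit 41) (.e (nat_lit 712722) (nat_lit 15) (.e (nat_lit 3302) (nat_lit 202) (.e (nat_lit 573451) (nat_lit 9) .nil))))))) (.g (nat_lit 0) .nil .nil))) 
(.lf (nat_lit 64939) (.g (nat_lit 2746) (.e (nat_lit 1595) (nat_lit 111) (.e (nat_lit 360467) (nat_lit 3) (.e (nat_lit 516185) (nat_lit 16) (.e (nat_lit 491552) (nat_lit 9) (.e (nat_lit 335927) (nat_lit 0) (.e (nat_lit 1842) (nat_lit 123) (.e (nat_lit 548874) (nat_lit 5) .nil))))))) (.g (nat_lit 5) .nil .nil)))) (.nd (nat_lit 5) 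
(.lf (nat_lit 64923) (.g (nat_lit 2498) (.e (nat_lit 1595) (nat_lit 111) (.e (nat_lit 360467) (nat_lit 3) (.e (nat_lit 516184) (nat_lit 16) (.e (nat_lit 491558) (nat_lit 10) (.e (nat_lit 344126) (nat_lit 25) (.e (nat_lit 548873) (nat_lit 5) .nil)))))) (.g (nat_lit 4) .nil .nil))) 
(.lf (nat_lit 64955) (.g (nat_lit 2306) (.e (nat_lit 1595) (nat_lit 111) (.e (nat_lit 360471) (nat_lit 7) (.e (nat_lit 548889) (nat_lit 9) (.e (nat_lit 65584) (nat_lit 7) (.e (nat_lit 319519) (nat_lit 12) (.e (nat_lit 32774) (nat_lit 5) .nil)))))) (.g (nat_lit 4) .nil .nil)))))) (.nd (nat_lit 3) (.nd (nat_lit 4) (.nd (nat_lit 5) 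
(.lf (nat_lit 64903) (.g (nat_lit 1837) (.e (nat_lit 1595) (nat_lit 111) (.e (nat_lit 360467) (nat_lit 3) (.e (nat_lit 516179) (nat_lit 15) (.e (nat_lit 475211) (nat_lit 41) .nil)))) .nil)) 
(.lf (nat_lit 64935) (.g (nat_lit 2548) (.e (nat_lit 1595) (nat_lit 111) (.e (nat_lit 360467) (nat_lit 3) (.e (nat_lit 516185) (nat_lit 16) (.e (nat_lit 491552) (nat_lit 9) (.e (nat_lit 335886) (nat_lit 0) (.e (nat_lit 1842) (nat_lit 123) (.e (nat_lit 548873) (nat_lit 5) .nil))))))) (.g (nat_lit 4) .nil .nil)))) (.nd (nat_lit 5) 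
(.lf (nat_lit 64919) (.g (nat_lit 1818) (.e (nat_lit 1595) (nat_lit 111) (.e (nat_lit 360467) (nat_lit 3) (.e (nat_lit 516184) (nat_lit 16) (.e (nat_lit 491549) (nat_lit 9) (.e (nat_lit 336306) (nat_lit 15) .nil))))) .nil)) 
(.lf (nat_lit 64951) (.g (nat_lit 2256) (.e (nat_lit 1595) (nat_lit 111) (.e (nat_lit 360471) (nat_lit 7) (.e (nat_lit 548872) (nat_lit 5) (.e (nat_lit 1598) (nat_lit 111) (.e (nat_lit 360471) (nat_lit 7) (.e (nat_lit 548873) (nat_lit 5) .nil)))))) (.g (nat_lit 0) .nil .nil))))) (.nd (nat_lit 4) (.nd (nat_lit 5) 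
(.lf (nat_lit 64911) (.g (nat_lit 552) (.e (nat_lit 1595) (nat_lit 111) (.e (nat_lit 360467) (nat_lit 3) (.e (nat_lit 516183) (nat_lit 16) .nil))) .nil)) 
(.lf (nat_lit 64943) (.g (nat_lit 4919) (.e (nat_lit 1595) (nat_lit 111) (.e (nat_lit 360467) (nat_lit 3) (.e (nat_lit 516185) (nat_lit 16) (.e (nat_lit 491559) (nat_lit 10) (.e (nat_lit 344126) (nat_lit 25) (.e (nat_lit 548874) (nat_lit 5) .nil)))))) (.g (nat_lit 6) .nil .nil)))) (.nd (nat_lit 5) 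
(.lf (nat_lit 64927) (.g (nat_lit 1061) (.e (nat_lit 1595) (nat_lit 111) (.e (nat_lit 360467) (nat_lit 3) (.e (nat_lit 516184) (nat_lit 16) (.e (nat_lit 491566) (nat_lit 12) .nil)))) .nil)) 
(.lf (nat_lit 64959) (.g (nat_lit 3319) (.e (nat_lit 1595) (nat_lit 111) (.e (nat_lit 360471) (nat_lit 7) (.e (nat_lit 548889) (nat_lit 9) (.e (nat_lit 65617) (nat_lit 10) (.e (nat_lit 344126) (nat_lit 25) (.e (nat_lit 548873) (nat_lit 5) .nil)))))) (.g (nat_lit 6) .nil .nil)))))))))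

noncomputable def tv893 : DT := (.nd (nat_lit 0) (.nd (nat_lit 1) (.nd (nat_lit 2) (.nd (nat_lit 3) (.nd (nat_lit 4) (.nd (nat_lit 5) 
(.lf (nat_lit 64960) (.g (nat_lit 3014) (.e (nat_lit 1595) (nat_lit 111) (.e (nat_lit 360471) (nat_lit 7) (.e (nat_lit 548889) (nat_lit 9) (.e (nat_lit 65620) (nat_lit 10) (.e (nat_lit 344126) (nat_lit 25) (.e (nat_lit 548873) (nat_lit 5) .nil)))))) (.g (nat_lit 0) .nil .nil))) 
(.lf (nat_lit 64992) (.g (nat_lit 1231) (.e (nat_lit 1595) (nat_lit 111) (.e (nat_lit 360473) (nat_lit 8) (.e (nat_lit 557086) (nat_lit 11) (.e (nat_lit 24641) (nat_lit 10) .nil)))) .nil))) (.nd (nat_lit 5) 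
(.lf (nat_lit 64976) (.g (nat_lit 2188) (.e (nat_lit 1595) (nat_lit 111) (.e (nat_lit 360473) (nat_lit 8) (.e (nat_lit 557066) (nat_lit 9) (.e (nat_lit 314) (nat_lit 23) (.e (nat_lit 352303) (nat_lit 20) (.e (nat_lit 1842) (nat_lit 123) (.e (nat_lit 548874) (nat_lit 5) .nil))))))) (.g (nat_lit 4) .nil .nil))) 
(.lf (nat_lit 65008) (.g (nat_lit 2760) (.e (nat_lit 1595) (nat_lit 111) (.e (nat_lit 360473) (nat_lit 8) (.e (nat_lit 557087) (nat_lit 11) (.e (nat_lit 24625) (nat_lit 9) (.e (nat_lit 336240) (nat_lit 15) (.e (nat_lit 3301) (nat_lit 202) (.e (nat_lit 573448) (nat_lit 9) .nil))))))) (.g (nat_lit 4) .nil .nil))))) (.nd (nat_lit 4) (.nd (nat_lit 5) 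
(.lf (nat_lit 64968) (.g (nat_lit 2328) (.e (nat_lit 1595) (nat_lit 111) (.e (nat_lit 360473) (nat_lit 8) (.e (nat_lit 557065) (nat_lit 9) (.e (nat_lit 312) (nat_lit 23) (.e (nat_lit 352256) (nat_lit 0) .nil))))) .nil)) 
(.lf (nat_lit 65000) (.g (nat_lit 3020) (.e (nat_lit 1595) (nat_lit 111) (.e (nat_lit 360473) (nat_lit 8) (.e (nat_lit 557087) (nat_lit 11) (.e (nat_lit 24617) (nat_lit 7) (.e (nat_lit 319517) (nat_lit 12) (.e (nat_lit 32774) (nat_lit 5) .nil)))))) (.g (nat_lit 4) .nil .nil)))) (.nd (nat_lit 5) 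
(.lf (nat_lit 64984) (.g (nat_lit 1194) (.e (nat_lit 1595) (nat_lit 111) (.e (nat_lit 360473) (nat_lit 8) (.e (nat_lit 557072) (nat_lit 9) (.e (nat_lit 2741) (nat_lit 174) .nil)))) .nil)) 
(.lf (nat_lit 65016) (.g (nat_lit 3220) (.e (nat_lit 1595) (nat_lit 111) (.e (nat_lit 360473) (nat_lit 8) (.e (nat_lit 557087) (nat_lit 11) (.e (nat_lit 24625) (nat_lit 9) (.e (nat_lit 336257) (nat_lit 15) (.e (nat_lit 3306) (nat_lit 202) (.e (nat_lit 573451) (nat_lit 9) .nil))))))) (.g (nat_lit 5) .nil .nil)))))) (.nd (nat_lit 3) (.nd (nat_lit 4) (.nd (nat_lit 5) 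
(.lf (nat_lit 64964) (.g (nat_lit 1887) (.e (nat_lit 1595) (nat_lit 111) (.e (nat_lit 360471) (nat_lit 7) (.e (nat_lit 548891) (nat_lit 11) (.e (nat_lit 81947) (nat_lit 20) (.e (nat_lit 1841) (nat_lit 123) (.e (nat_lit 548874) (nat_lit 5) .nil)))))) (.g (nat_lit 4) .nil .nil))) 
(.lf (nat_lit 64996) (.g (nat_lit 2718) (.e (nat_lit 1595) (nat_lit 111) (.e (nat_lit 360473) (nat_lit 8) (.e (nat_lit 557087) (nat_lit 11) (.e (nat_lit 24617) (nat_lit 7) (.e (nat_lit 319504) (nat_lit 10) (.e (nat_lit 536) (nat_lit 41) (.e (nat_lit 499967) (nat_lit 14) .nil))))))) (.g (nat_lit 5) .nil .nil)))) (.nd (nat_lit 5) 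
(.lf (nat_lit 64980) (.g (nat_lit 1890) (.e (nat_lit 1595) (nat_lit 111) (.e (nat_lit 360473) (nat_lit 8) (.e (nat_lit 557067) (nat_lit 9) (.e (nat_lit 7936) (nat_lit 21) .nil)))) .nil)) 
(.lf (nat_lit 65012) (.g (nat_lit 2782) (.e (nat_lit 1595) (nat_lit 111) (.e (nat_lit 360473) (nat_lit 8) (.e (nat_lit 557087) (nat_lit 11) (.e (nat_lit 24625) (nat_lit 9) (.e (nat_lit 336247) (nat_lit 15) (.e (nat_lit 3302) (nat_lit 202) (.e (nat_lit 573451) (nat_lit 9) .nil))))))) (.g (nat_lit 4) .nil .nil))))) (.nd (nat_lit 4) (.nd (nat_lit 5) 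
(.lf (nat_lit 64972) (.g (nat_lit 2943) (.e (nat_lit 1595) (nat_lit 111) (.e (nat_lit 360473) (nat_lit 8) (.e (nat_lit 557066) (nat_lit 9) (.e (nat_lit 232) (nat_lit 21) (.e (nat_lit 336175) (nat_lit 10) .nil))))) .nil)) 
(.lf (nat_lit 65004) (.g (nat_lit 1129) (.e (nat_lit 1595) (nat_lit 111) (.e (nat_lit 360473) (nat_lit 8) (.e (nat_lit 557087) (nat_lit 11) (.e (nat_lit 24625) (nat_lit 9) .nil)))) .nil))) (.nd (nat_lit 5) 
(.lf (nat_lit 64988) (.g (nat_lit 1111) (.e (nat_lit 1595) (nat_lit 111) (.e (nat_lit 360473) (nat_lit 8) (.e (nat_lit 557084) (nat_lit 10) (.e (nat_lit 16128) (nat_lit 225) .nil)))) .nil)) 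
(.lf (nat_lit 65020) (.g (nat_lit 2512) (.e (nat_lit 1595) (nat_lit 111) (.e (nat_lit 360473) (nat_lit 8) (.e (nat_lit 557087) (nat_lit 11) (.e (nat_lit 24625) (nat_lit 9) (.e (nat_lit 336259) (nat_lit 15) .nil))))) .nil)))))) (.nd (nat_lit 2) (.nd (nat_lit 3) (.nd (nat_lit 4) (.nd (nat_lit 5) 
(.lf (nat_lit 64962) (.g (nat_lit 2393) (.e (nat_lit 1595) (nat_lit 111) (.e (nat_lit 360471) (nat_lit 7) (.e (nat_lit 548891) (nat_lit 11) (.e (nat_lit 81946) (nat_lit 20) (.e (nat_lit 1841) (nat_lit 123) (.e (nat_lit 548874) (nat_lit 5) .nil)))))) (.g (nat_lit 6) .nil .nil))) 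
(.lf (nat_lit 64994) (.g (nat_lit 2668) (.e (nat_lit 1595) (nat_lit 111) (.e (nat_lit 360473) (nat_lit 8) (.e (nat_lit 557087) (nat_lit 11) (.e (nat_lit 24616) (nat_lit 7) (.e (nat_lit 319519) (nat_lit 12) (.e (nat_lit 32774) (nat_lit 5) .nil)))))) (.g (nat_lit 5) .nil .nil)))) (.nd (nat_lit 5) 
(.lf (nat_lit 64978) (.g (nat_lit 1992) (.e (nat_lit 1595) (nat_lit 111) (.e (nat_lit 360473) (nat_lit 8) (.e (nat_lit 557067) (nat_lit 9) (.e (nat_lit 249) (nat_lit 21) .nil)))) .nil)) 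
(.lf (nat_lit 65010) (.g (nat_lit 2826) (.e (nat_lit 1595) (nat_lit 111) (.e (nat_lit 360473) (nat_lit 8) (.e (nat_lit 557087) (nat_lit 11) (.e (nat_lit 24625) (nat_lit 9) (.e (nat_lit 336242) (nat_lit 15) (.e (nat_lit 7936) (nat_lit 202) (.e (nat_lit 573451) (nat_lit 9) .nil))))))) (.g (nat_lit 4) .nil .nil))))) (.nd (nat_lit 4) (.nd (nat_lit 5) 
(.lf (nat_lit 64970) (.g (nat_lit 2509) (.e (nat_lit 1595) (nat_lit 111) (.e (nat_lit 360473) (nat_lit 8) (.e (nat_lit 557065) (nat_lit 9) (.e (nat_lit 324) (nat_lit 24) (.e (nat_lit 360471) (nat_lit 7) (.e (nat_lit 548873) (nat_lit 5) .nil)))))) (.g (nat_lit 5) .nil .nil))) 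
(.lf (nat_lit 65002) (.g (nat_lit 3463) (.e (nat_lit 1595) (nat_lit 111) (.e (nat_lit 360473) (nat_lit 8) (.e (nat_lit 557087) (nat_lit 11) (.e (nat_lit 24617) (nat_lit 7) (.e (nat_lit 319519) (nat_lit 12) (.e (nat_lit 32774) (nat_lit 5) .nil)))))) (.g (nat_lit 6) .nil .nil)))) (.nd (nat_lit 5) 
(.lf (nat_lit 64986) (.g (nat_lit 656) (.e (nat_lit 1595) (nat_lit 111) (.e (nat_lit 360473) (nat_lit 8) (.e (nat_lit 557077) (nat_lit 9) .nil))) .nil)) 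
(.lf (nat_lit 65018) (.g (nat_lit 2330) (.e (nat_lit 1595) (nat_lit 111) (.e (nat_lit 360473) (nat_lit 8) (.e (nat_lit 557087) (nat_lit 11) (.e (nat_lit 24625) (nat_lit 9) (.e (nat_lit 336257) (nat_lit 15) (.e (nat_lit 3311) (nat_lit 202) (.e (nat_lit 573451) (nat_lit 9) .nil))))))) (.g (nat_lit 4) .nil .nil)))))) (.nd (nat_lit 3) (.nd (nat_lit 4) (.nd (nat_lit 5) 
(.lf (nat_lit 64966) (.g (nat_lit 539) (.e (nat_lit 1595) (nat_lit 111) (.e (nat_lit 360473) (nat_lit 8) (.e (nat_lit 557065) (nat_lit 9) .nil))) .nil)) 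
(.lf (nat_lit 64998) (.g (nat_lit 2124) (.e (nat_lit 1595) (nat_lit 111) (.e (nat_lit 360473) (nat_lit 8) (.e (nat_lit 557087) (nat_lit 11) (.e (nat_lit 24617) (nat_lit 7) (.e (nat_lit 319505) (nat_lit 10) .nil))))) .nil))) (.nd (nat_lit 5) 
(.lf (nat_lit 64982) (.g (nat_lit 1890) (.e (nat_lit 1595) (nat_lit 111) (.e (nat_lit 360473) (nat_lit 8) (.e (nat_lit 557067) (nat_lit 9) (.e (nat_lit 7936) (nat_lit 24) .nil)))) .nil)) 
(.lf (nat_lit 65014) (.g (nat_lit 2791) (.e (nat_lit 1595) (nat_lit 111) (.e (nat_lit 360473) (nat_lit 8) (.e (nat_lit 557087) (nat_lit 11) (.e (nat_lit 24625) (nat_lit 9) (.e (nat_lit 336257) (nat_lit 15) (.e (nat_lit 3303) (nat_lit 202) (.e (nat_lit 573451) (nat_lit 9) .nil))))))) (.g (nat_lit 4) .nil .nil))))) (.nd (nat_lit 4) (.nd (nat_lit 5) 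
(.lf (nat_lit 64974) (.g (nat_lit 1923) (.e (nat_lit 1595) (nat_lit 111) (.e (nat_lit 360473) (nat_lit 8) (.e (nat_lit 557066) (nat_lit 9) (.e (nat_lit 314) (nat_lit 23) (.e (nat_lit 352291) (nat_lit 20) .nil))))) .nil)) 
(.lf (nat_lit 65006) (.g (nat_lit 2695) (.e (nat_lit 1595) (nat_lit 111) (.e (nat_lit 360473) (nat_lit 8) (.e (nat_lit 557087) (nat_lit 11) (.e (nat_lit 24625) (nat_lit 9) (.e (nat_lit 336238) (nat_lit 15) (.e (nat_lit 3301) (nat_lit 202) (.e (nat_lit 573451) (nat_lit 9) .nil))))))) (.g (nat_lit 4) .nil .nil)))) (.nd (nat_lit 5) 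
(.lf (nat_lit 64990) (.g (nat_lit 2660) (.e (nat_lit 1595) (nat_lit 111) (.e (nat_lit 360473) (nat_lit 8) (.e (nat_lit 557085) (nat_lit 11) (.e (nat_lit 24640) (nat_lit 10) (.e (nat_lit 344126) (nat_lit 25) (.e (nat_lit 548873) (nat_lit 5) .nil)))))) (.g (nat_lit 4) .nil .nil))) 
(.lf (nat_lit 65022) (.g (nat_lit 2538) (.e (nat_lit 1595) (nat_lit 111) (.e (nat_lit 360473) (nat_lit 8) (.e (nat_lit 557087) (nat_lit 11) (.e (nat_lit 24625) (nat_lit 9) (.e (nat_lit 336260) (nat_lit 15) (.e (nat_lit 3298) (nat_lit 202) (.e (nat_lit 573451) (nat_lit 9) .nil))))))) (.g (nat_lit 4) .nil .nil)))))))) 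
(.nd (nat_lit 1) (.nd (nat_lit 2) (.nd (nat_lit 3) (.nd (nat_lit 4) (.nd (nat_lit 5) 
(.lf (nat_lit 64961) (.g (nat_lit 3444) (.e (nat_lit 1595) (nat_lit 111) (.e (nat_lit 360471) (nat_lit 7) (.e (nat_lit 548889) (nat_lit 9) (.e (nat_lit 65624) (nat_lit 12) .nil)))) .nil)) 
(.lf (nat_lit 64993) (.g (nat_lit 379) (.e (nat_lit 1595) (nat_lit 111) (.e (nat_lit 360473) (nat_lit 8) (.e (nat_lit 557087) (nat_lit 11) .nil))) .nil))) (.nd (nat_lit 5) 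
(.lf (nat_lit 64977) (.g (nat_lit 2826) (.e (nat_lit 1595) (nat_lit 111) (.e (nat_lit 360473) (nat_lit 8) (.e (nat_lit 557066) (nat_lit 9) (.e (nat_lit 324) (nat_lit 24) (.e (nat_lit 360471) (nat_lit 7) (.e (nat_lit 548873) (nat_lit 5) .nil)))))) (.g (nat_lit 0) .nil .nil))) 
(.lf (nat_lit 65009) (.g (nat_lit 2507) (.e (nat_lit 1595) (nat_lit 111) (.e (nat_lit 360473) (nat_lit 8) (.e (nat_lit 557087) (nat_lit 11) (.e (nat_lit 24625) (nat_lit 9) (.e (nat_lit 336242) (nat_lit 15) .nil))))) .nil)))) (.nd (nat_lit 4) (.nd (nat_lit 5) 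
(.lf (nat_lit 64969) (.g (nat_lit 1691) (.e (nat_lit 1595) (nat_lit 111) (.e (nat_lit 360473) (nat_lit 8) (.e (nat_lit 557065) (nat_lit 9) (.e (nat_lit 321) (nat_lit 24) (.e (nat_lit 360471) (nat_lit 7) .nil))))) .nil)) 
(.lf (nat_lit 65001) (.g (nat_lit 3692) (.e (nat_lit 1595) (nat_lit 111) (.e (nat_lit 360473) (nat_lit 8) (.e (nat_lit 557087) (nat_lit 11) (.e (nat_lit 24617) (nat_lit 7) (.e (nat_lit 319518) (nat_lit 12) .nil))))) .nil))) (.nd (nat_lit 5) 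
(.lf (nat_lit 64985) (.g (nat_lit 1296) (.e (nat_lit 1595) (nat_lit 111) (.e (nat_lit 360473) (nat_lit 8) (.e (nat_lit 557074) (nat_lit 9) (.e (nat_lit 7936) (nat_lit 24) .nil)))) .nil)) 
(.lf (nat_lit 65017) (.g (nat_lit 2520) (.e (nat_lit 1595) (nat_lit 111) (.e (nat_lit 360473) (nat_lit 8) (.e (nat_lit 557087) (nat_lit 11) (.e (nat_lit 24625) (nat_lit 9) (.e (nat_lit 336257) (nat_lit 15) (.e (nat_lit 3310) (nat_lit 202) (.e (nat_lit 573451) (nat_lit 9) .nil))))))) (.g (nat_lit 4) .nil .nil)))))) (.nd (nat_lit 3) (.nd (nat_lit 4) (.nd (nat_lit 5) 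
(.lf (nat_lit 64965) (.g (nat_lit 2850) (.e (nat_lit 1595) (nat_lit 111) (.e (nat_lit 360471) (nat_lit 7) (.e (nat_lit 548891) (nat_lit 11) (.e (nat_lit 81947) (nat_lit 20) (.e (nat_lit 1842) (nat_lit 123) (.e (nat_lit 548873) (nat_lit 5) .nil)))))) (.g (nat_lit 0) .nil .nil))) 
(.lf (nat_lit 64997) (.g (nat_lit 2858) (.e (nat_lit 1595) (nat_lit 111) (.e (nat_lit 360473) (nat_lit 8) (.e (nat_lit 557087) (nat_lit 11) (.e (nat_lit 24617) (nat_lit 7) (.e (nat_lit 319504) (nat_lit 10) (.e (nat_lit 559) (nat_lit 41) (.e (nat_lit 499967) (nat_lit 14) .nil))))))) (.g (nat_lit 5) .nil .nil)))) (.nd (nat_lit 5) 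
(.lf (nat_lit 64981) (.g (nat_lit 1890) (.e (nat_lit 1595) (nat_lit 111) (.e (nat_lit 360473) (nat_lit 8) (.e (nat_lit 557067) (nat_lit 9) (.e (nat_lit 7936) (nat_lit 23) .nil)))) .nil)) 
(.lf (nat_lit 65013) (.g (nat_lit 2245) (.e (nat_lit 1595) (nat_lit 111) (.e (nat_lit 360473) (nat_lit 8) (.e (nat_lit 557087) (nat_lit 11) (.e (nat_lit 24625) (nat_lit 9) (.e (nat_lit 336257) (nat_lit 15) .nil))))) .nil)))) (.nd (nat_lit 4) (.nd (nat_lit 5) 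
(.lf (nat_lit 64973) (.g (nat_lit 1290) (.e (nat_lit 1595) (nat_lit 111) (.e (nat_lit 360473) (nat_lit 8) (.e (nat_lit 557066) (nat_lit 9) (.e (nat_lit 310) (nat_lit 23) .nil)))) .nil)) 
(.lf (nat_lit 65005) (.g (nat_lit 2435) (.e (nat_lit 1595) (nat_lit 111) (.e (nat_lit 360473) (nat_lit 8) (.e (nat_lit 557087) (nat_lit 11) (.e (nat_lit 24625) (nat_lit 9) (.e (nat_lit 336238) (nat_lit 15) .nil))))) .nil))) (.nd (nat_lit 5) 
(.lf (nat_lit 64989) (.g (nat_lit 2524) (.e (nat_lit 1595) (nat_lit 111) (.e (nat_lit 360473) (nat_lit 8) (.e (nat_lit 557085) (nat_lit 11) (.e (nat_lit 24627) (nat_lit 9) (.e (nat_lit 336306) (nat_lit 15) (.e (nat_lit 3297) (nat_lit 202) (.e (nat_lit 573451) (nat_lit 9) .nil))))))) (.g (nat_lit 4) .nil .nil))) 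
(.lf (nat_lit 65021) (.g (nat_lit 2472) (.e (nat_lit 1595) (nat_lit 111) (.e (nat_lit 360473) (nat_lit 8) (.e (nat_lit 557087) (nat_lit 11) (.e (nat_lit 24625) (nat_lit 9) (.e (nat_lit 336260) (nat_lit 15) .nil))))) .nil)))))) (.nd (nat_lit 2) (.nd (nat_lit 3) (.nd (nat_lit 4) (.nd (nat_lit 5) 
(.lf (nat_lit 64963) (.g (nat_lit 2393) (.e (nat_lit 1595) (nat_lit 111) (.e (nat_lit 360471) (nat_lit 7) (.e (nat_lit 548891) (nat_lit 11) (.e (nat_lit 81946) (nat_lit 20) (.e (nat_lit 1842) (nat_lit 123) (.e (nat_lit 548873) (nat_lit 5) .nil)))))) (.g (nat_lit 6) .nil .nil))) 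
(.lf (nat_lit 64995) (.g (nat_lit 1458) (.e (nat_lit 1595) (nat_lit 111) (.e (nat_lit 360473) (nat_lit 8) (.e (nat_lit 557087) (nat_lit 11) (.e (nat_lit 24617) (nat_lit 7) (.e (nat_lit 319504) (nat_lit 10) .nil))))) .nil))) (.nd (nat_lit 5) 
(.lf (nat_lit 64979) (.g (nat_lit 2170) (.e (nat_lit 1595) (nat_lit 111) (.e (nat_lit 360473) (nat_lit 8) (.e (nat_lit 557067) (nat_lit 9) (.e (nat_lit 290) (nat_lit 21) .nil)))) .nil)) 
(.lf (nat_lit 65011) (.g (nat_lit 2521) (.e (nat_lit 1595) (nat_lit 111) (.e (nat_lit 360473) (nat_lit 8) (.e (nat_lit 557087) (nat_lit 11) (.e (nat_lit 24625) (nat_lit 9) (.e (nat_lit 336243) (nat_lit 15) .nil))))) .nil)))) (.nd (nat_lit 4) (.nd (nat_lit 5) 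
(.lf (nat_lit 64971) (.g (nat_lit 2156) (.e (nat_lit 1595) (nat_lit 111) (.e (nat_lit 360473) (nat_lit 8) (.e (nat_lit 557066) (nat_lit 9) (.e (nat_lit 232) (nat_lit 21) (.e (nat_lit 336060) (nat_lit 7) .nil))))) .nil)) 
(.lf (nat_lit 65003) (.g (nat_lit 1876) (.e (nat_lit 1595) (nat_lit 111) (.e (nat_lit 360473) (nat_lit 8) (.e (nat_lit 557087) (nat_lit 11) (.e (nat_lit 24623) (nat_lit 9) .nil)))) .nil))) (.nd (nat_lit 5) 
(.lf (nat_lit 64987) (.g (nat_lit 656) (.e (nat_lit 1595) (nat_lit 111) (.e (nat_lit 360473) (nat_lit 8) (.e (nat_lit 564992) (nat_lit 9) .nil))) .nil)) 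
(.lf (nat_lit 65019) (.g (nat_lit 2049) (.e (nat_lit 1595) (nat_lit 111) (.e (nat_lit 360473) (nat_lit 8) (.e (nat_lit 557087) (nat_lit 11) (.e (nat_lit 24625) (nat_lit 9) (.e (nat_lit 336258) (nat_lit 15) .nil))))) .nil))))) (.nd (nat_lit 3) (.nd (nat_lit 4) (.nd (nat_lit 5) 
(.lf (nat_lit 64967) (.g (nat_lit 1597) (.e (nat_lit 1595) (nat_lit 111) (.e (nat_lit 360473) (nat_lit 8) (.e (nat_lit 557065) (nat_lit 9) (.e (nat_lit 265) (nat_lit 21) (.e (nat_lit 336178) (nat_lit 10) .nil))))) .nil)) 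
(.lf (nat_lit 64999) (.g (nat_lit 2286) (.e (nat_lit 1595) (nat_lit 111) (.e (nat_lit 360473) (nat_lit 8) (.e (nat_lit 557087) (nat_lit 11) (.e (nat_lit 24617) (nat_lit 7) (.e (nat_lit 319505) (nat_lit 10) (.e (nat_lit 559) (nat_lit 41) (.e (nat_lit 499967) (nat_lit 14) .nil))))))) (.g (nat_lit 4) .nil .nil)))) (.nd (nat_lit 5) 
(.lf (nat_lit 64983) (.g (nat_lit 502) (.e (nat_lit 1595) (nat_lit 111) (.e (nat_lit 360473) (nat_lit 8) (.e (nat_lit 557068) (nat_lit 9) .nil))) .nil)) 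
(.lf (nat_lit 65015) (.g (nat_lit 3208) (.e (nat_lit 1595) (nat_lit 111) (.e (nat_lit 360473) (nat_lit 8) (.e (nat_lit 557087) (nat_lit 11) (.e (nat_lit 24625) (nat_lit 9) (.e (nat_lit 336257) (nat_lit 15) (.e (nat_lit 3304) (nat_lit 202) (.e (nat_lit 573451) (nat_lit 9) .nil))))))) (.g (nat_lit 5) .nil .nil))))) (.nd (nat_lit 4) (.nd (nat_lit 5) 
(.lf (nat_lit 64975) (.g (nat_lit 1917) (.e (nat_lit 1595) (nat_lit 111) (.e (nat_lit 360473) (nat_lit 8) (.e (nat_lit 557066) (nat_lit 9) (.e (nat_lit 314) (nat_lit 23) (.e (nat_lit 352303) (nat_lit 20) .nil))))) .nil)) 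
(.lf (nat_lit 65007) (.g (nat_lit 3869) (.e (nat_lit 1595) (nat_lit 111) (.e (nat_lit 360473) (nat_lit 8) (.e (nat_lit 557087) (nat_lit 11) (.e (nat_lit 24625) (nat_lit 9) (.e (nat_lit 336240) (nat_lit 15) (.e (nat_lit 3300) (nat_lit 202) (.e (nat_lit 573451) (nat_lit 9) .nil))))))) (.g (nat_lit 5) .nil .nil)))) (.nd (nat_lit 5) 
(.lf (nat_lit 64991) (.g (nat_lit 2900) (.e (nat_lit 1595) (nat_lit 111) (.e (nat_lit 360473) (nat_lit 8) (.e (nat_lit 557086) (nat_lit 11) (.e (nat_lit 24630) (nat_lit 9) (.e (nat_lit 336306) (nat_lit 15) (.e (nat_lit 3298) (nat_lit 202) (.e (nat_lit 573451) (nat_lit 9) .nil))))))) (.g (nat_lit 5) .nil .nil))) 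
(.lf (nat_lit 65023) (.g (nat_lit 4211) (.e (nat_lit 1595) (nat_lit 111) (.e (nat_lit 360473) (nat_lit 8) (.e (nat_lit 557087) (nat_lit 11) (.e (nat_lit 24625) (nat_lit 9) (.e (nat_lit 336260) (nat_lit 15) (.e (nat_lit 3304) (nat_lit 202) (.e (nat_lit 573451) (nat_lit 9) .nil))))))) (.g (nat_lit 6) .nil .nil)))))))))

noncomputable def tv894 : DT := (.nd (nat_lit 0) (.nd (nat_lit 1) (.nd (nat_lit 2) (.nd (nat_lit 3) (.nd (nat_lit 4) (.nd (nat_lit 5) 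
(.lf (nat_lit 65024) (.g (nat_lit 2749) (.e (nat_lit 1595) (nat_lit 111) (.e (nat_lit 360473) (nat_lit 8) (.e (nat_lit 557087) (nat_lit 11) (.e (nat_lit 24625) (nat_lit 9) (.e (nat_lit 336260) (nat_lit 15) (.e (nat_lit 3308) (nat_lit 202) (.e (nat_lit 573451) (nat_lit 9) .nil))))))) (.g (nat_lit 4) .nil .nil))) 
(.lf (nat_lit 65056) (.g (nat_lit 1791) (.e (nat_lit 1595) (nat_lit 111) (.e (nat_lit 360473) (nat_lit 8) (.e (nat_lit 557087) (nat_lit 11) (.e (nat_lit 24637) (nat_lit 9) .nil)))) .nil))) (.nd (nat_lit 5) 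
(.lf (nat_lit 65040) (.g (nat_lit 3005) (.e (nat_lit 1595) (nat_lit 111) (.e (nat_lit 360473) (nat_lit 8) (.e (nat_lit 557087) (nat_lit 11) (.e (nat_lit 24628) (nat_lit 9) (.e (nat_lit 335878) (nat_lit 0) (.e (nat_lit 1844) (nat_lit 123) (.e (nat_lit 548873) (nat_lit 5) .nil))))))) (.g (nat_lit 4) .nil .nil))) 
(.lf (nat_lit 65072) (.g (nat_lit 3163) (.e (nat_lit 1595) (nat_lit 111) (.e (nat_lit 360473) (nat_lit 8) (.e (nat_lit 557087) (nat_lit 11) (.e (nat_lit 24651) (nat_lit 12) (.e (nat_lit 385074) (nat_lit 31) .nil))))) .nil)))) (.nd (nat_lit 4) (.nd (nat_lit 5) 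
(.lf (nat_lit 65032) (.g (nat_lit 2588) (.e (nat_lit 1595) (nat_lit 111) (.e (nat_lit 360473) (nat_lit 8) (.e (nat_lit 557087) (nat_lit 11) (.e (nat_lit 24625) (nat_lit 9) (.e (nat_lit 336304) (nat_lit 15) .nil))))) .nil)) 
(.lf (nat_lit 65064) (.g (nat_lit 2837) (.e (nat_lit 1595) (nat_lit 111) (.e (nat_lit 360473) (nat_lit 8) (.e (nat_lit 557087) (nat_lit 11) (.e (nat_lit 24647) (nat_lit 12) (.e (nat_lit 385074) (nat_lit 31) (.e (nat_lit 573452) (nat_lit 9) .nil)))))) (.g (nat_lit 4) .nil .nil)))) (.nd (nat_lit 5) 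
(.lf (nat_lit 65048) (.g (nat_lit 3543) (.e (nat_lit 1595) (nat_lit 111) (.e (nat_lit 360473) (nat_lit 8) (.e (nat_lit 557087) (nat_lit 11) (.e (nat_lit 24631) (nat_lit 9) (.e (nat_lit 335928) (nat_lit 0) (.e (nat_lit 1842) (nat_lit 123) (.e (nat_lit 548874) (nat_lit 5) .nil))))))) (.g (nat_lit 0) .nil .nil))) 
(.lf (nat_lit 65080) (.g (nat_lit 1189) (.e (nat_lit 1595) (nat_lit 111) (.e (nat_lit 360473) (nat_lit 8) (.e (nat_lit 557090) (nat_lit 12) (.e (nat_lit 164020) (nat_lit 45) .nil)))) .nil))))) (.nd (nat_lit 3) (.nd (nat_lit 4) (.nd (nat_lit 5) 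
(.lf (nat_lit 65028) (.g (nat_lit 2748) (.e (nat_lit 1595) (nat_lit 111) (.e (nat_lit 360473) (nat_lit 8) (.e (nat_lit 557087) (nat_lit 11) (.e (nat_lit 24625) (nat_lit 9) (.e (nat_lit 336284) (nat_lit 15) (.e (nat_lit 3302) (nat_lit 202) (.e (nat_lit 573449) (nat_lit 9) .nil))))))) (.g (nat_lit 4) .nil .nil))) 
(.lf (nat_lit 65060) (.g (nat_lit 4120) (.e (nat_lit 1595) (nat_lit 111) (.e (nat_lit 360473) (nat_lit 8) (.e (nat_lit 557087) (nat_lit 11) (.e (nat_lit 24640) (nat_lit 10) (.e (nat_lit 344126) (nat_lit 25) (.e (nat_lit 548874) (nat_lit 5) .nil)))))) (.g (nat_lit 0) .nil .nil)))) (.nd (nat_lit 5) 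
(.lf (nat_lit 65044) (.g (nat_lit 2447) (.e (nat_lit 1595) (nat_lit 111) (.e (nat_lit 360473) (nat_lit 8) (.e (nat_lit 557087) (nat_lit 11) (.e (nat_lit 24631) (nat_lit 9) (.e (nat_lit 335886) (nat_lit 0) (.e (nat_lit 1842) (nat_lit 123) (.e (nat_lit 548873) (nat_lit 5) .nil))))))) (.g (nat_lit 4) .nil .nil))) 
(.lf (nat_lit 65076) (.g (nat_lit 2085) (.e (nat_lit 1595) (nat_lit 111) (.e (nat_lit 360473) (nat_lit 8) (.e (nat_lit 557089) (nat_lit 12) (.e (nat_lit 163844) (nat_lit 0) (.e (nat_lit 6068) (nat_lit 328) .nil))))) .nil)))) (.nd (nat_lit 4) (.nd (nat_lit 5) 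
(.lf (nat_lit 65036) (.g (nat_lit 2737) (.e (nat_lit 1595) (nat_lit 111) (.e (nat_lit 360473) (nat_lit 8) (.e (nat_lit 557087) (nat_lit 11) (.e (nat_lit 24625) (nat_lit 9) (.e (nat_lit 336312) (nat_lit 16) (.e (nat_lit 164119) (nat_lit 128) (.e (nat_lit 992) (nat_lit 81) .nil))))))) (.g (nat_lit 4) .nil .nil))) 
(.lf (nat_lit 65068) (.g (nat_lit 2832) (.e (nat_lit 1595) (nat_lit 111) (.e (nat_lit 360473) (nat_lit 8) (.e (nat_lit 557087) (nat_lit 11) (.e (nat_lit 24648) (nat_lit 12) (.e (nat_lit 385073) (nat_lit 31) (.e (nat_lit 573451) (nat_lit 9) .nil)))))) (.g (nat_lit 4) .nil .nil)))) (.nd (nat_lit 5) 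
(.lf (nat_lit 65052) (.g (nat_lit 2400) (.e (nat_lit 1595) (nat_lit 111) (.e (nat_lit 360473) (nat_lit 8) (.e (nat_lit 557087) (nat_lit 11) (.e (nat_lit 24634) (nat_lit 9) (.e (nat_lit 335916) (nat_lit 0) .nil))))) .nil)) 
(.lf (nat_lit 65084) (.g (nat_lit 1884) (.e (nat_lit 1595) (nat_lit 111) (.e (nat_lit 360473) (nat_lit 8) (.e (nat_lit 557090) (nat_lit 12) (.e (nat_lit 164020) (nat_lit 45) (.e (nat_lit 696344) (nat_lit 8) .nil))))) .nil)))))) (.nd (nat_lit 2) (.nd (nat_lit 3) (.nd (nat_lit 4) (.nd (nat_lit 5) 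
(.lf (nat_lit 65026) (.g (nat_lit 2593) (.e (nat_lit 1595) (nat_lit 111) (.e (nat_lit 360473) (nat_lit 8) (.e (nat_lit 557087) (nat_lit 11) (.e (nat_lit 24625) (nat_lit 9) (.e (nat_lit 336261) (nat_lit 15) (.e (nat_lit 3308) (nat_lit 202) (.e (nat_lit 573452) (nat_lit 9) .nil))))))) (.g (nat_lit 4) .nil .nil))) 
(.lf (nat_lit 65058) (.g (nat_lit 3051) (.e (nat_lit 1595) (nat_lit 111) (.e (nat_lit 360473) (nat_lit 8) (.e (nat_lit 557087) (nat_lit 11) (.e (nat_lit 24638) (nat_lit 9) (.e (nat_lit 335917) (nat_lit 0) .nil))))) .nil))) (.nd (nat_lit 5) 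
(.lf (nat_lit 65042) (.g (nat_lit 3114) (.e (nat_lit 1595) (nat_lit 111) (.e (nat_lit 360473) (nat_lit 8) (.e (nat_lit 557087) (nat_lit 11) (.e (nat_lit 24630) (nat_lit 9) (.e (nat_lit 336306) (nat_lit 15) (.e (nat_lit 3297) (nat_lit 202) (.e (nat_lit 573451) (nat_lit 9) .nil))))))) (.g (nat_lit 4) .nil .nil))) 
(.lf (nat_lit 65074) (.g (nat_lit 1080) (.e (nat_lit 1595) (nat_lit 111) (.e (nat_lit 360473) (nat_lit 8) (.e (nat_lit 557087) (nat_lit 11) (.e (nat_lit 24662) (nat_lit 14) .nil)))) .nil)))) (.nd (nat_lit 4) (.nd (nat_lit 5) 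
(.lf (nat_lit 65034) (.g (nat_lit 2184) (.e (nat_lit 1595) (nat_lit 111) (.e (nat_lit 360473) (nat_lit 8) (.e (nat_lit 557087) (nat_lit 11) (.e (nat_lit 24625) (nat_lit 9) (.e (nat_lit 343808) (nat_lit 15) .nil))))) .nil)) 
(.lf (nat_lit 65066) (.g (nat_lit 1627) (.e (nat_lit 1595) (nat_lit 111) (.e (nat_lit 360473) (nat_lit 8) (.e (nat_lit 557087) (nat_lit 11) (.e (nat_lit 24648) (nat_lit 12) .nil)))) .nil))) (.nd (nat_lit 5) 
(.lf (nat_lit 65050) (.g (nat_lit 1966) (.e (nat_lit 1595) (nat_lit 111) (.e (nat_lit 360473) (nat_lit 8) (.e (nat_lit 557087) (nat_lit 11) (.e (nat_lit 24633) (nat_lit 9) .nil)))) .nil)) 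
(.lf (nat_lit 65082) (.g (nat_lit 2992) (.e (nat_lit 1595) (nat_lit 111) (.e (nat_lit 360473) (nat_lit 8) (.e (nat_lit 557090) (nat_lit 12) (.e (nat_lit 164020) (nat_lit 45) (.e (nat_lit 696343) (nat_lit 8) (.e (nat_lit 172062) (nat_lit 2) (.e (nat_lit 196625) (nat_lit 9) .nil))))))) (.g (nat_lit 4) .nil .nil)))))) (.nd (nat_lit 3) (.nd (nat_lit 4) (.nd (nat_lit 5) 
(.lf (nat_lit 65030) (.g (nat_lit 2553) (.e (nat_lit 1595) (nat_lit 111) (.e (nat_lit 360473) (nat_lit 8) (.e (nat_lit 557087) (nat_lit 11) (.e (nat_lit 24625) (nat_lit 9) (.e (nat_lit 336303) (nat_lit 15) .nil))))) .nil)) 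
(.lf (nat_lit 65062) (.g (nat_lit 4295) (.e (nat_lit 1595) (nat_lit 111) (.e (nat_lit 360473) (nat_lit 8) (.e (nat_lit 557087) (nat_lit 11) (.e (nat_lit 24641) (nat_lit 10) (.e (nat_lit 344126) (nat_lit 25) (.e (nat_lit 548874) (nat_lit 5) .nil)))))) (.g (nat_lit 6) .nil .nil)))) (.nd (nat_lit 5) 
(.lf (nat_lit 65046) (.g (nat_lit 2226) (.e (nat_lit 1595) (nat_lit 111) (.e (nat_lit 360473) (nat_lit 8) (.e (nat_lit 557087) (nat_lit 11) (.e (nat_lit 24631) (nat_lit 9) (.e (nat_lit 335927) (nat_lit 0) .nil))))) .nil)) 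
(.lf (nat_lit 65078) (.g (nat_lit 2380) (.e (nat_lit 1595) (nat_lit 111) (.e (nat_lit 360473) (nat_lit 8) (.e (nat_lit 557090) (nat_lit 12) (.e (nat_lit 163843) (nat_lit 0) .nil)))) .nil)))) (.nd (nat_lit 4) (.nd (nat_lit 5) 
(.lf (nat_lit 65038) (.g (nat_lit 3198) (.e (nat_lit 1595) (nat_lit 111) (.e (nat_lit 360473) (nat_lit 8) (.e (nat_lit 557087) (nat_lit 11) (.e (nat_lit 24625) (nat_lit 9) (.e (nat_lit 336340) (nat_lit 21) (.e (nat_lit 229524) (nat_lit 128) (.e (nat_lit 992) (nat_lit 81) .nil))))))) (.g (nat_lit 4) .nil .nil))) 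
(.lf (nat_lit 65070) (.g (nat_lit 2951) (.e (nat_lit 1595) (nat_lit 111) (.e (nat_lit 360473) (nat_lit 8) (.e (nat_lit 557087) (nat_lit 11) (.e (nat_lit 24649) (nat_lit 12) (.e (nat_lit 385072) (nat_lit 31) (.e (nat_lit 573451) (nat_lit 9) .nil)))))) (.g (nat_lit 4) .nil .nil)))) (.nd (nat_lit 5) 
(.lf (nat_lit 65054) (.g (nat_lit 2400) (.e (nat_lit 1595) (nat_lit 111) (.e (nat_lit 360473) (nat_lit 8) (.e (nat_lit 557087) (nat_lit 11) (.e (nat_lit 24634) (nat_lit 9) (.e (nat_lit 335927) (nat_lit 0) .nil))))) .nil)) 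
(.lf (nat_lit 65086) (.g (nat_lit 3761) (.e (nat_lit 1595) (nat_lit 111) (.e (nat_lit 360473) (nat_lit 8) (.e (nat_lit 557090) (nat_lit 12) (.e (nat_lit 164020) (nat_lit 45) (.e (nat_lit 696344) (nat_lit 8) (.e (nat_lit 172063) (nat_lit 2) (.e (nat_lit 196625) (nat_lit 9) .nil))))))) (.g (nat_lit 5) .nil .nil)))))))) 
(.nd (nat_lit 1) (.nd (nat_lit 2) (.nd (nat_lit 3) (.nd (nat_lit 4) (.nd (nat_lit 5) 
(.lf (nat_lit 65025) (.g (nat_lit 2525) (.e (nat_lit 1595) (nat_lit 111) (.e (nat_lit 360473) (nat_lit 8) (.e (nat_lit 557087) (nat_lit 11) (.e (nat_lit 24625) (nat_lit 9) (.e (nat_lit 336261) (nat_lit 15) (.e (nat_lit 3295) (nat_lit 202) (.e (nat_lit 573451) (nat_lit 9) .nil))))))) (.g (nat_lit 4) .nil .nil))) 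
(.lf (nat_lit 65057) (.g (nat_lit 1454) (.e (nat_lit 1595) (nat_lit 111) (.e (nat_lit 360473) (nat_lit 8) (.e (nat_lit 557087) (nat_lit 11) (.e (nat_lit 24638) (nat_lit 9) .nil)))) .nil))) (.nd (nat_lit 5) 
(.lf (nat_lit 65041) (.g (nat_lit 2748) (.e (nat_lit 1595) (nat_lit 111) (.e (nat_lit 360473) (nat_lit 8) (.e (nat_lit 557087) (nat_lit 11) (.e (nat_lit 24628) (nat_lit 9) (.e (nat_lit 335878) (nat_lit 0) (.e (nat_lit 1844) (nat_lit 123) (.e (nat_lit 548874) (nat_lit 5) .nil))))))) (.g (nat_lit 4) .nil .nil))) 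
(.lf (nat_lit 65073) (.g (nat_lit 2984) (.e (nat_lit 1595) (nat_lit 111) (.e (nat_lit 360473) (nat_lit 8) (.e (nat_lit 557087) (nat_lit 11) (.e (nat_lit 24653) (nat_lit 12) (.e (nat_lit 385073) (nat_lit 31) (.e (nat_lit 573451) (nat_lit 9) .nil)))))) (.g (nat_lit 4) .nil .nil))))) (.nd (nat_lit 4) (.nd (nat_lit 5) 
(.lf (nat_lit 65033) (.g (nat_lit 2954) (.e (nat_lit 1595) (nat_lit 111) (.e (nat_lit 360473) (nat_lit 8) (.e (nat_lit 557087) (nat_lit 11) (.e (nat_lit 24625) (nat_lit 9) (.e (nat_lit 336306) (nat_lit 15) (.e (nat_lit 3298) (nat_lit 202) (.e (nat_lit 573451) (nat_lit 9) .nil))))))) (.g (nat_lit 4) .nil .nil))) 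
(.lf (nat_lit 65065) (.g (nat_lit 3034) (.e (nat_lit 1595) (nat_lit 111) (.e (nat_lit 360473) (nat_lit 8) (.e (nat_lit 557087) (nat_lit 11) (.e (nat_lit 24647) (nat_lit 12) (.e (nat_lit 385074) (nat_lit 31) (.e (nat_lit 573456) (nat_lit 9) .nil)))))) (.g (nat_lit 4) .nil .nil)))) (.nd (nat_lit 5) 
(.lf (nat_lit 65049) (.g (nat_lit 2176) (.e (nat_lit 1595) (nat_lit 111) (.e (nat_lit 360473) (nat_lit 8) (.e (nat_lit 557087) (nat_lit 11) (.e (nat_lit 24632) (nat_lit 9) .nil)))) .nil)) 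
(.lf (nat_lit 65081) (.g (nat_lit 2377) (.e (nat_lit 1595) (nat_lit 111) (.e (nat_lit 360473) (nat_lit 8) (.e (nat_lit 557090) (nat_lit 12) (.e (nat_lit 164020) (nat_lit 45) (.e (nat_lit 696343) (nat_lit 8) .nil))))) .nil))))) (.nd (nat_lit 3) (.nd (nat_lit 4) (.nd (nat_lit 5) 
(.lf (nat_lit 65029) (.g (nat_lit 2533) (.e (nat_lit 1595) (nat_lit 111) (.e (nat_lit 360473) (nat_lit 8) (.e (nat_lit 557087) (nat_lit 11) (.e (nat_lit 24625) (nat_lit 9) (.e (nat_lit 336297) (nat_lit 15) (.e (nat_lit 3304) (nat_lit 202) (.e (nat_lit 573451) (nat_lit 9) .nil))))))) (.g (nat_lit 4) .nil .nil))) 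
(.lf (nat_lit 65061) (.g (nat_lit 3991) (.e (nat_lit 1595) (nat_lit 111) (.e (nat_lit 360473) (nat_lit 8) (.e (nat_lit 557087) (nat_lit 11) (.e (nat_lit 24641) (nat_lit 10) (.e (nat_lit 344126) (nat_lit 25) (.e (nat_lit 548873) (nat_lit 5) .nil)))))) (.g (nat_lit 0) .nil .nil)))) (.nd (nat_lit 5) 
(.lf (nat_lit 65045) (.g (nat_lit 2700) (.e (nat_lit 1595) (nat_lit 111) (.e (nat_lit 360473) (nat_lit 8) (.e (nat_lit 557087) (nat_lit 11) (.e (nat_lit 24631) (nat_lit 9) (.e (nat_lit 335925) (nat_lit 0) (.e (nat_lit 1842) (nat_lit 123) (.e (nat_lit 548873) (nat_lit 5) .nil))))))) (.g (nat_lit 5) .nil .nil))) 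
(.lf (nat_lit 65077) (.g (nat_lit 1758) (.e (nat_lit 1595) (nat_lit 111) (.e (nat_lit 360473) (nat_lit 8) (.e (nat_lit 557089) (nat_lit 12) (.e (nat_lit 163999) (nat_lit 38) .nil)))) .nil)))) (.nd (nat_lit 4) (.nd (nat_lit 5) 
(.lf (nat_lit 65037) (.g (nat_lit 3047) (.e (nat_lit 1595) (nat_lit 111) (.e (nat_lit 360473) (nat_lit 8) (.e (nat_lit 557087) (nat_lit 11) (.e (nat_lit 24625) (nat_lit 9) (.e (nat_lit 336314) (nat_lit 16) (.e (nat_lit 164119) (nat_lit 128) (.e (nat_lit 992) (nat_lit 81) .nil))))))) (.g (nat_lit 4) .nil .nil))) 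
(.lf (nat_lit 65069) (.g (nat_lit 2883) (.e (nat_lit 1595) (nat_lit 111) (.e (nat_lit 360473) (nat_lit 8) (.e (nat_lit 557087) (nat_lit 11) (.e (nat_lit 24648) (nat_lit 12) (.e (nat_lit 385074) (nat_lit 31) .nil))))) .nil))) (.nd (nat_lit 5) 
(.lf (nat_lit 65053) (.g (nat_lit 2607) (.e (nat_lit 1595) (nat_lit 111) (.e (nat_lit 360473) (nat_lit 8) (.e (nat_lit 557087) (nat_lit 11) (.e (nat_lit 24634) (nat_lit 9) (.e (nat_lit 335925) (nat_lit 0) (.e (nat_lit 1842) (nat_lit 123) (.e (nat_lit 548873) (nat_lit 5) .nil))))))) (.g (nat_lit 4) .nil .nil))) 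
(.lf (nat_lit 65085) (.g (nat_lit 2568) (.e (nat_lit 1595) (nat_lit 111) (.e (nat_lit 360473) (nat_lit 8) (.e (nat_lit 557090) (nat_lit 12) (.e (nat_lit 164020) (nat_lit 45) (.e (nat_lit 696344) (nat_lit 8) (.e (nat_lit 172042) (nat_lit 0) (.e (nat_lit 3124) (nat_lit 193) (.e (nat_lit 499960) (nat_lit 14) .nil)))))))) (.g (nat_lit 4) .nil .nil))))))) 
(.nd (nat_lit 2) (.nd (nat_lit 3) (.nd (nat_lit 4) (.nd (nat_lit 5) 
(.lf (nat_lit 65027) (.g (nat_lit 2467) (.e (nat_lit 1595) (nat_lit 111) (.e (nat_lit 360473) (nat_lit 8) (.e (nat_lit 557087) (nat_lit 11) (.e (nat_lit 24625) (nat_lit 9) (.e (nat_lit 336284) (nat_lit 15) .nil))))) .nil)) 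
(.lf (nat_lit 65059) (.g (nat_lit 3577) (.e (nat_lit 1595) (nat_lit 111) (.e (nat_lit 360473) (nat_lit 8) (.e (nat_lit 557087) (nat_lit 11) (.e (nat_lit 24640) (nat_lit 10) (.e (nat_lit 344126) (nat_lit 25) (.e (nat_lit 548873) (nat_lit 5) .nil)))))) (.g (nat_lit 0) .nil .nil)))) (.nd (nat_lit 5) 
(.lf (nat_lit 65043) (.g (nat_lit 1205) (.e (nat_lit 1595) (nat_lit 111) (.e (nat_lit 360473) (nat_lit 8) (.e (nat_lit 557087) (nat_lit 11) (.e (nat_lit 24631) (nat_lit 9) .nil)))) .nil)) 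
(.lf (nat_lit 65075) (.g (nat_lit 1679) (.e (nat_lit 1595) (nat_lit 111) (.e (nat_lit 360473) (nat_lit 8) (.e (nat_lit 557089) (nat_lit 12) (.e (nat_lit 163844) (nat_lit 0) .nil)))) .nil)))) (.nd (nat_lit 4) (.nd (nat_lit 5) 
(.lf (nat_lit 65035) (.g (nat_lit 2443) (.e (nat_lit 1595) (nat_lit 111) (.e (nat_lit 360473) (nat_lit 8) (.e (nat_lit 557087) (nat_lit 11) (.e (nat_lit 24625) (nat_lit 9) (.e (nat_lit 343808) (nat_lit 15) (.e (nat_lit 3298) (nat_lit 202) (.e (nat_lit 573451) (nat_lit 9) .nil))))))) (.g (nat_lit 4) .nil .nil))) 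
(.lf (nat_lit 65067) (.g (nat_lit 2709) (.e (nat_lit 1595) (nat_lit 111) (.e (nat_lit 360473) (nat_lit 8) (.e (nat_lit 557087) (nat_lit 11) (.e (nat_lit 24648) (nat_lit 12) (.e (nat_lit 385072) (nat_lit 31) .nil))))) .nil))) (.nd (nat_lit 5) 
(.lf (nat_lit 65051) (.g (nat_lit 1506) (.e (nat_lit 1595) (nat_lit 111) (.e (nat_lit 360473) (nat_lit 8) (.e (nat_lit 557087) (nat_lit 11) (.e (nat_lit 24634) (nat_lit 9) .nil)))) .nil)) 
(.lf (nat_lit 65083) (.g (nat_lit 3287) (.e (nat_lit 1595) (nat_lit 111) (.e (nat_lit 360473) (nat_lit 8) (.e (nat_lit 557090) (nat_lit 12) (.e (nat_lit 164020) (nat_lit 45) (.e (nat_lit 696343) (nat_lit 8) (.e (nat_lit 172064) (nat_lit 2) (.e (nat_lit 196625) (nat_lit 9) .nil))))))) (.g (nat_lit 4) .nil .nil)))))) (.nd (nat_lit 3) (.nd (nat_lit 4) (.nd (nat_lit 5) 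
(.lf (nat_lit 65031) (.g (nat_lit 2893) (.e (nat_lit 1595) (nat_lit 111) (.e (nat_lit 360473) (nat_lit 8) (.e (nat_lit 557087) (nat_lit 11) (.e (nat_lit 24625) (nat_lit 9) (.e (nat_lit 336303) (nat_lit 15) (.e (nat_lit 3304) (nat_lit 202) (.e (nat_lit 573451) (nat_lit 9) .nil))))))) (.g (nat_lit 4) .nil .nil))) 
(.lf (nat_lit 65063) (.g (nat_lit 1769) (.e (nat_lit 1595) (nat_lit 111) (.e (nat_lit 360473) (nat_lit 8) (.e (nat_lit 557087) (nat_lit 11) (.e (nat_lit 24647) (nat_lit 12) .nil)))) .nil))) (.nd (nat_lit 5) 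
(.lf (nat_lit 65047) (.g (nat_lit 3261) (.e (nat_lit 1595) (nat_lit 111) (.e (nat_lit 360473) (nat_lit 8) (.e (nat_lit 557087) (nat_lit 11) (.e (nat_lit 24631) (nat_lit 9) (.e (nat_lit 335928) (nat_lit 0) (.e (nat_lit 1842) (nat_lit 123) (.e (nat_lit 548873) (nat_lit 5) .nil))))))) (.g (nat_lit 0) .nil .nil))) 
(.lf (nat_lit 65079) (.g (nat_lit 2412) (.e (nat_lit 1595) (nat_lit 111) (.e (nat_lit 360473) (nat_lit 8) (.e (nat_lit 557090) (nat_lit 12) (.e (nat_lit 163844) (nat_lit 0) .nil)))) .nil)))) (.nd (nat_lit 4) (.nd (nat_lit 5) 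
(.lf (nat_lit 65039) (.g (nat_lit 2757) (.e (nat_lit 1595) (nat_lit 111) (.e (nat_lit 360473) (nat_lit 8) (.e (nat_lit 557087) (nat_lit 11) (.e (nat_lit 24627) (nat_lit 9) (.e (nat_lit 336306) (nat_lit 15) .nil))))) .nil)) 
(.lf (nat_lit 65071) (.g (nat_lit 3495) (.e (nat_lit 1595) (nat_lit 111) (.e (nat_lit 360473) (nat_lit 8) (.e (nat_lit 557087) (nat_lit 11) (.e (nat_lit 24651) (nat_lit 12) (.e (nat_lit 385072) (nat_lit 31) (.e (nat_lit 573451) (nat_lit 9) .nil)))))) (.g (nat_lit 4) .nil .nil)))) (.nd (nat_lit 5) 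
(.lf (nat_lit 65055) (.g (nat_lit 2671) (.e (nat_lit 1595) (nat_lit 111) (.e (nat_lit 360473) (nat_lit 8) (.e (nat_lit 557087) (nat_lit 11) (.e (nat_lit 24634) (nat_lit 9) (.e (nat_lit 335927) (nat_lit 0) (.e (nat_lit 1842) (nat_lit 123) (.e (nat_lit 548874) (nat_lit 5) .nil))))))) (.g (nat_lit 4) .nil .nil))) 
(.lf (nat_lit 65087) (.g (nat_lit 2838) (.e (nat_lit 1595) (nat_lit 111) (.e (nat_lit 360473) (nat_lit 8) (.e (nat_lit 557090) (nat_lit 12) (.e (nat_lit 164020) (nat_lit 45) (.e (nat_lit 696344) (nat_lit 8) (.e (nat_lit 172064) (nat_lit 2) (.e (nat_lit 196617) (nat_lit 9) .nil))))))) (.g (nat_lit 4) .nil .nil)))))))))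

noncomputable def tv895 : DT := (.nd (nat_lit 0) (.nd (nat_lit 1) (.nd (nat_lit 2) (.nd (nat_lit 3) (.nd (nat_lit 4) (.nd (nat_lit 5) 
(.lf (nat_lit 65088) (.g (nat_lit 2631) (.e (nat_lit 1595) (nat_lit 111) (.e (nat_lit 360473) (nat_lit 8) (.e (nat_lit 557090) (nat_lit 12) (.e (nat_lit 164020) (nat_lit 45) (.e (nat_lit 696344) (nat_lit 8) (.e (nat_lit 172064) (nat_lit 2) (.e (nat_lit 196623) (nat_lit 9) .nil))))))) (.g (nat_lit 4) .nil .nil))) 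
(.lf (nat_lit 65120) (.g (nat_lit 1751) (.e (nat_lit 1595) (nat_lit 111) (.e (nat_lit 360473) (nat_lit 8) (.e (nat_lit 557119) (nat_lit 18) (.e (nat_lit 2796) (nat_lit 180) .nil)))) .nil))) (.nd (nat_lit 5) 
(.lf (nat_lit 65104) (.g (nat_lit 1726) (.e (nat_lit 1595) (nat_lit 111) (.e (nat_lit 360473) (nat_lit 8) (.e (nat_lit 557093) (nat_lit 12) (.e (nat_lit 164022) (nat_lit 46) (.e (nat_lit 704736) (nat_lit 11) (.e (nat_lit 16409) (nat_lit 2) (.e (nat_lit 196625) (nat_lit 9) .nil))))))) (.g (nat_lit 4) .nil .nil))) 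
(.lf (nat_lit 65136) (.g (nat_lit 1969) (.e (nat_lit 1595) (nat_lit 111) (.e (nat_lit 360477) (nat_lit 11) (.e (nat_lit 581651) (nat_lit 4) (.e (nat_lit 172113) (nat_lit 10) (.e (nat_lit 434295) (nat_lit 49) (.e (nat_lit 745475) (nat_lit 0) .nil)))))) (.g (nat_lit 5) .nil .nil))))) (.nd (nat_lit 4) (.nd (nat_lit 5) 
(.lf (nat_lit 65096) (.g (nat_lit 1474) (.e (nat_lit 1595) (nat_lit 111) (.e (nat_lit 360473) (nat_lit 8) (.e (nat_lit 557091) (nat_lit 12) (.e (nat_lit 164022) (nat_lit 46) .nil)))) .nil)) 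
(.lf (nat_lit 65128) (.g (nat_lit 1057) (.e (nat_lit 1595) (nat_lit 111) (.e (nat_lit 360473) (nat_lit 8) (.e (nat_lit 557119) (nat_lit 18) (.e (nat_lit 2807) (nat_lit 180) .nil)))) .nil))) (.nd (nat_lit 5) 
(.lf (nat_lit 65112) (.g (nat_lit 3534) (.e (nat_lit 1595) (nat_lit 111) (.e (nat_lit 360473) (nat_lit 8) (.e (nat_lit 557093) (nat_lit 12) (.e (nat_lit 164023) (nat_lit 46) (.e (nat_lit 704737) (nat_lit 11) (.e (nat_lit 16412) (nat_lit 2) (.e (nat_lit 196625) (nat_lit 9) .nil))))))) (.g (nat_lit 5) .nil .nil))) 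
(.lf (nat_lit 65144) (.g (nat_lit 2368) (.e (nat_lit 1595) (nat_lit 111) (.e (nat_lit 360477) (nat_lit 11) (.e (nat_lit 581653) (nat_lit 6) (.e (nat_lit 188440) (nat_lit 20) (.e (nat_lit 3578) (nat_lit 223) (.e (nat_lit 745475) (nat_lit 0) .nil)))))) (.g (nat_lit 0) .nil .nil)))))) (.nd (nat_lit 3) (.nd (nat_lit 4) (.nd (nat_lit 5) 
(.lf (nat_lit 65092) (.g (nat_lit 1935) (.e (nat_lit 1595) (nat_lit 111) (.e (nat_lit 360473) (nat_lit 8) (.e (nat_lit 557091) (nat_lit 12) (.e (nat_lit 163841) (nat_lit 0) .nil)))) .nil)) 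
(.lf (nat_lit 65124) (.g (nat_lit 2640) (.e (nat_lit 1595) (nat_lit 111) (.e (nat_lit 360473) (nat_lit 8) (.e (nat_lit 557119) (nat_lit 18) (.e (nat_lit 2798) (nat_lit 180) (.e (nat_lit 303133) (nat_lit 9) (.e (nat_lit 426033) (nat_lit 0) (.e (nat_lit 3579) (nat_lit 223) (.e (nat_lit 745475) (nat_lit 0) .nil)))))))) (.g (nat_lit 4) .nil .nil)))) (.nd (nat_lit 5) 
(.lf (nat_lit 65108) (.g (nat_lit 2937) (.e (nat_lit 1595) (nat_lit 111) (.e (nat_lit 360473) (nat_lit 8) (.e (nat_lit 557093) (nat_lit 12) (.e (nat_lit 164022) (nat_lit 46) (.e (nat_lit 704737) (nat_lit 11) (.e (nat_lit 16410) (nat_lit 2) (.e (nat_lit 196625) (nat_lit 9) .nil))))))) (.g (nat_lit 5) .nil .nil))) 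
(.lf (nat_lit 65140) (.g (nat_lit 1535) (.e (nat_lit 1595) (nat_lit 111) (.e (nat_lit 360477) (nat_lit 11) (.e (nat_lit 581653) (nat_lit 6) (.e (nat_lit 188434) (nat_lit 20) (.e (nat_lit 3577) (nat_lit 223) (.e (nat_lit 745475) (nat_lit 0) .nil)))))) (.g (nat_lit 4) .nil .nil))))) (.nd (nat_lit 4) (.nd (nat_lit 5) 
(.lf (nat_lit 65100) (.g (nat_lit 2405) (.e (nat_lit 1595) (nat_lit 111) (.e (nat_lit 360473) (nat_lit 8) (.e (nat_lit 557091) (nat_lit 12) (.e (nat_lit 164022) (nat_lit 46) (.e (nat_lit 704737) (nat_lit 11) (.e (nat_lit 16409) (nat_lit 2) (.e (nat_lit 196625) (nat_lit 9) .nil))))))) (.g (nat_lit 4) .nil .nil))) 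
(.lf (nat_lit 65132) (.g (nat_lit 425) (.e (nat_lit 1595) (nat_lit 111) (.e (nat_lit 360477) (nat_lit 11) (.e (nat_lit 581651) (nat_lit 4) .nil))) .nil))) (.nd (nat_lit 5) 
(.lf (nat_lit 65116) (.g (nat_lit 2538) (.e (nat_lit 1595) (nat_lit 111) (.e (nat_lit 360473) (nat_lit 8) (.e (nat_lit 557094) (nat_lit 12) (.e (nat_lit 164022) (nat_lit 46) (.e (nat_lit 704737) (nat_lit 11) (.e (nat_lit 16410) (nat_lit 2) (.e (nat_lit 196625) (nat_lit 9) .nil))))))) (.g (nat_lit 5) .nil .nil))) 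
(.lf (nat_lit 65148) (.g (nat_lit 1313) (.e (nat_lit 1595) (nat_lit 111) (.e (nat_lit 360477) (nat_lit 11) (.e (nat_lit 589568) (nat_lit 6) (.e (nat_lit 188440) (nat_lit 20) (.e (nat_lit 3579) (nat_lit 223) (.e (nat_lit 745475) (nat_lit 0) .nil)))))) (.g (nat_lit 4) .nil .nil))))))) (.nd (nat_lit 2) (.nd (nat_lit 3) (.nd (nat_lit 4) (.nd (nat_lit 5) 
(.lf (nat_lit 65090) (.g (nat_lit 2571) (.e (nat_lit 1595) (nat_lit 111) (.e (nat_lit 360473) (nat_lit 8) (.e (nat_lit 557090) (nat_lit 12) (.e (nat_lit 164020) (nat_lit 45) (.e (nat_lit 696344) (nat_lit 8) (.e (nat_lit 172073) (nat_lit 5) (.e (nat_lit 245781) (nat_lit 9) .nil))))))) (.g (nat_lit 4) .nil .nil))) 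
(.lf (nat_lit 65122) (.g (nat_lit 2035) (.e (nat_lit 1595) (nat_lit 111) (.e (nat_lit 360473) (nat_lit 8) (.e (nat_lit 557119) (nat_lit 18) (.e (nat_lit 2798) (nat_lit 180) (.e (nat_lit 303133) (nat_lit 9) .nil))))) .nil))) (.nd (nat_lit 5) 
(.lf (nat_lit 65106) (.g (nat_lit 2238) (.e (nat_lit 1595) (nat_lit 111) (.e (nat_lit 360473) (nat_lit 8) (.e (nat_lit 557093) (nat_lit 12) (.e (nat_lit 164022) (nat_lit 46) (.e (nat_lit 704736) (nat_lit 11) (.e (nat_lit 16411) (nat_lit 2) (.e (nat_lit 196625) (nat_lit 9) .nil))))))) (.g (nat_lit 4) .nil .nil))) 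
(.lf (nat_lit 65138) (.g (nat_lit 2063) (.e (nat_lit 1595) (nat_lit 111) (.e (nat_lit 360477) (nat_lit 11) (.e (nat_lit 581651) (nat_lit 4) (.e (nat_lit 172115) (nat_lit 10) (.e (nat_lit 434295) (nat_lit 49) (.e (nat_lit 745475) (nat_lit 0) .nil)))))) (.g (nat_lit 5) .nil .nil))))) (.nd (nat_lit 4) (.nd (nat_lit 5) 
(.lf (nat_lit 65098) (.g (nat_lit 2452) (.e (nat_lit 1595) (nat_lit 111) (.e (nat_lit 360473) (nat_lit 8) (.e (nat_lit 557091) (nat_lit 12) (.e (nat_lit 164022) (nat_lit 46) (.e (nat_lit 704736) (nat_lit 11) (.e (nat_lit 16410) (nat_lit 2) (.e (nat_lit 196625) (nat_lit 9) .nil))))))) (.g (nat_lit 4) .nil .nil))) 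
(.lf (nat_lit 65130) (.g (nat_lit 1392) (.e (nat_lit 1595) (nat_lit 111) (.e (nat_lit 360473) (nat_lit 8) (.e (nat_lit 557119) (nat_lit 18) (.e (nat_lit 2808) (nat_lit 180) .nil)))) .nil))) (.nd (nat_lit 5) 
(.lf (nat_lit 65114) (.g (nat_lit 2055) (.e (nat_lit 1595) (nat_lit 111) (.e (nat_lit 360473) (nat_lit 8) (.e (nat_lit 557094) (nat_lit 12) (.e (nat_lit 164022) (nat_lit 46) (.e (nat_lit 704736) (nat_lit 11) (.e (nat_lit 16411) (nat_lit 2) (.e (nat_lit 196625) (nat_lit 9) .nil))))))) (.g (nat_lit 4) .nil .nil))) 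
(.lf (nat_lit 65146) (.g (nat_lit 1494) (.e (nat_lit 1595) (nat_lit 111) (.e (nat_lit 360477) (nat_lit 11) (.e (nat_lit 589568) (nat_lit 6) (.e (nat_lit 188434) (nat_lit 20) (.e (nat_lit 3578) (nat_lit 223) (.e (nat_lit 745475) (nat_lit 0) .nil)))))) (.g (nat_lit 5) .nil .nil)))))) (.nd (nat_lit 3) (.nd (nat_lit 4) (.nd (nat_lit 5) 
(.lf (nat_lit 65094) (.g (nat_lit 1992) (.e (nat_lit 1595) (nat_lit 111) (.e (nat_lit 360473) (nat_lit 8) (.e (nat_lit 557091) (nat_lit 12) (.e (nat_lit 163844) (nat_lit 0) .nil)))) .nil)) 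
(.lf (nat_lit 65126) (.g (nat_lit 3244) (.e (nat_lit 1595) (nat_lit 111) (.e (nat_lit 360473) (nat_lit 8) (.e (nat_lit 557119) (nat_lit 18) (.e (nat_lit 2798) (nat_lit 180) (.e (nat_lit 303133) (nat_lit 9) (.e (nat_lit 426048) (nat_lit 0) (.e (nat_lit 3579) (nat_lit 223) (.e (nat_lit 745476) (nat_lit 0) .nil)))))))) (.g (nat_lit 5) .nil .nil)))) (.nd (nat_lit 5) 
(.lf (nat_lit 65110) (.g (nat_lit 4272) (.e (nat_lit 1595) (nat_lit 111) (.e (nat_lit 360473) (nat_lit 8) (.e (nat_lit 557093) (nat_lit 12) (.e (nat_lit 164022) (nat_lit 46) (.e (nat_lit 704738) (nat_lit 11) (.e (nat_lit 16412) (nat_lit 2) (.e (nat_lit 196625) (nat_lit 9) .nil))))))) (.g (nat_lit 7) .nil .nil))) 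
(.lf (nat_lit 65142) (.g (nat_lit 1962) (.e (nat_lit 1595) (nat_lit 111) (.e (nat_lit 360477) (nat_lit 11) (.e (nat_lit 581653) (nat_lit 6) (.e (nat_lit 188438) (nat_lit 20) (.e (nat_lit 3578) (nat_lit 223) (.e (nat_lit 745475) (nat_lit 0) .nil)))))) (.g (nat_lit 0) .nil .nil))))) (.nd (nat_lit 4) (.nd (nat_lit 5) 
(.lf (nat_lit 65102) (.g (nat_lit 1941) (.e (nat_lit 1595) (nat_lit 111) (.e (nat_lit 360473) (nat_lit 8) (.e (nat_lit 557091) (nat_lit 12) (.e (nat_lit 164022) (nat_lit 46) (.e (nat_lit 704738) (nat_lit 11) .nil))))) .nil)) 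
(.lf (nat_lit 65134) (.g (nat_lit 1759) (.e (nat_lit 1595) (nat_lit 111) (.e (nat_lit 360477) (nat_lit 11) (.e (nat_lit 581651) (nat_lit 4) (.e (nat_lit 172107) (nat_lit 10) (.e (nat_lit 434295) (nat_lit 49) (.e (nat_lit 745475) (nat_lit 0) .nil)))))) (.g (nat_lit 5) .nil .nil)))) (.nd (nat_lit 5) 
(.lf (nat_lit 65118) (.g (nat_lit 2116) (.e (nat_lit 1595) (nat_lit 111) (.e (nat_lit 360473) (nat_lit 8) (.e (nat_lit 557094) (nat_lit 12) (.e (nat_lit 164022) (nat_lit 46) (.e (nat_lit 704738) (nat_lit 11) (.e (nat_lit 16409) (nat_lit 2) (.e (nat_lit 196625) (nat_lit 9) .nil))))))) (.g (nat_lit 5) .nil .nil))) 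
(.lf (nat_lit 65150) (.g (nat_lit 1313) (.e (nat_lit 1595) (nat_lit 111) (.e (nat_lit 368384) (nat_lit 11) (.e (nat_lit 581653) (nat_lit 6) (.e (nat_lit 188440) (nat_lit 20) (.e (nat_lit 3578) (nat_lit 223) (.e (nat_lit 745476) (nat_lit 0) .nil)))))) (.g (nat_lit 4) .nil .nil)))))))) (.nd (nat_lit 1) (.nd (nat_lit 2) (.nd (nat_lit 3) (.nd (nat_lit 4) (.nd (nat_lit 5) 
(.lf (nat_lit 65089) (.g (nat_lit 3410) (.e (nat_lit 1595) (nat_lit 111) (.e (nat_lit 360473) (nat_lit 8) (.e (nat_lit 557090) (nat_lit 12) (.e (nat_lit 164020) (nat_lit 45) (.e (nat_lit 696344) (nat_lit 8) (.e (nat_lit 172064) (nat_lit 2) (.e (nat_lit 196630) (nat_lit 9) .nil))))))) (.g (nat_lit 5) .nil .nil))) 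
(.lf (nat_lit 65121) (.g (nat_lit 2544) (.e (nat_lit 1595) (nat_lit 111) (.e (nat_lit 360473) (nat_lit 8) (.e (nat_lit 557119) (nat_lit 18) (.e (nat_lit 2797) (nat_lit 180) (.e (nat_lit 303140) (nat_lit 10) .nil))))) .nil))) (.nd (nat_lit 5) 
(.lf (nat_lit 65105) (.g (nat_lit 2119) (.e (nat_lit 1595) (nat_lit 111) (.e (nat_lit 360473) (nat_lit 8) (.e (nat_lit 557093) (nat_lit 12) (.e (nat_lit 164022) (nat_lit 46) (.e (nat_lit 704736) (nat_lit 11) (.e (nat_lit 16410) (nat_lit 2) (.e (nat_lit 196625) (nat_lit 9) .nil))))))) (.g (nat_lit 4) .nil .nil))) 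
(.lf (nat_lit 65137) (.g (nat_lit 1717) (.e (nat_lit 1595) (nat_lit 111) (.e (nat_lit 360477) (nat_lit 11) (.e (nat_lit 581651) (nat_lit 4) (.e (nat_lit 172115) (nat_lit 10) (.e (nat_lit 434294) (nat_lit 49) (.e (nat_lit 745476) (nat_lit 0) .nil)))))) (.g (nat_lit 4) .nil .nil))))) (.nd (nat_lit 4) (.nd (nat_lit 5) 
(.lf (nat_lit 65097) (.g (nat_lit 2074) (.e (nat_lit 1595) (nat_lit 111) (.e (nat_lit 360473) (nat_lit 8) (.e (nat_lit 557091) (nat_lit 12) (.e (nat_lit 164022) (nat_lit 46) (.e (nat_lit 704736) (nat_lit 11) .nil))))) .nil)) 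
(.lf (nat_lit 65129) (.g (nat_lit 1978) (.e (nat_lit 1595) (nat_lit 111) (.e (nat_lit 360473) (nat_lit 8) (.e (nat_lit 557119) (nat_lit 18) (.e (nat_lit 2807) (nat_lit 180) (.e (nat_lit 303138) (nat_lit 10) .nil))))) .nil))) (.nd (nat_lit 5) 
(.lf (nat_lit 65113) (.g (nat_lit 1949) (.e (nat_lit 1595) (nat_lit 111) (.e (nat_lit 360473) (nat_lit 8) (.e (nat_lit 557094) (nat_lit 12) (.e (nat_lit 164022) (nat_lit 46) (.e (nat_lit 704736) (nat_lit 11) (.e (nat_lit 16410) (nat_lit 2) (.e (nat_lit 196625) (nat_lit 9) .nil))))))) (.g (nat_lit 4) .nil .nil))) 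
(.lf (nat_lit 65145) (.g (nat_lit 2699) (.e (nat_lit 1595) (nat_lit 111) (.e (nat_lit 360477) (nat_lit 11) (.e (nat_lit 581653) (nat_lit 6) (.e (nat_lit 188440) (nat_lit 20) (.e (nat_lit 3579) (nat_lit 223) (.e (nat_lit 745475) (nat_lit 0) .nil)))))) (.g (nat_lit 0) .nil .nil)))))) (.nd (nat_lit 3) (.nd (nat_lit 4) (.nd (nat_lit 5) 
(.lf (nat_lit 65093) (.g (nat_lit 1885) (.e (nat_lit 1595) (nat_lit 111) (.e (nat_lit 360473) (nat_lit 8) (.e (nat_lit 557091) (nat_lit 12) (.e (nat_lit 163843) (nat_lit 0) .nil)))) .nil)) 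
(.lf (nat_lit 65125) (.g (nat_lit 3257) (.e (nat_lit 1595) (nat_lit 111) (.e (nat_lit 360473) (nat_lit 8) (.e (nat_lit 557119) (nat_lit 18) (.e (nat_lit 2798) (nat_lit 180) (.e (nat_lit 303133) (nat_lit 9) (.e (nat_lit 426048) (nat_lit 0) (.e (nat_lit 3579) (nat_lit 223) (.e (nat_lit 745475) (nat_lit 0) .nil)))))))) (.g (nat_lit 5) .nil .nil)))) (.nd (nat_lit 5) 
(.lf (nat_lit 65109) (.g (nat_lit 2323) (.e (nat_lit 1595) (nat_lit 111) (.e (nat_lit 360473) (nat_lit 8) (.e (nat_lit 557093) (nat_lit 12) (.e (nat_lit 164022) (nat_lit 46) (.e (nat_lit 704738) (nat_lit 11) (.e (nat_lit 16409) (nat_lit 2) (.e (nat_lit 196625) (nat_lit 9) .nil))))))) (.g (nat_lit 5) .nil .nil))) 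
(.lf (nat_lit 65141) (.g (nat_lit 2627) (.e (nat_lit 1595) (nat_lit 111) (.e (nat_lit 360477) (nat_lit 11) (.e (nat_lit 581653) (nat_lit 6) (.e (nat_lit 188434) (nat_lit 20) (.e (nat_lit 3578) (nat_lit 223) (.e (nat_lit 745475) (nat_lit 0) .nil)))))) (.g (nat_lit 0) .nil .nil))))) (.nd (nat_lit 4) (.nd (nat_lit 5) 
(.lf (nat_lit 65101) (.g (nat_lit 3052) (.e (nat_lit 1595) (nat_lit 111) (.e (nat_lit 360473) (nat_lit 8) (.e (nat_lit 557091) (nat_lit 12) (.e (nat_lit 164022) (nat_lit 46) (.e (nat_lit 704737) (nat_lit 11) (.e (nat_lit 16410) (nat_lit 2) (.e (nat_lit 196625) (nat_lit 9) .nil))))))) (.g (nat_lit 5) .nil .nil))) 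
(.lf (nat_lit 65133) (.g (nat_lit 2128) (.e (nat_lit 1595) (nat_lit 111) (.e (nat_lit 360477) (nat_lit 11) (.e (nat_lit 581651) (nat_lit 4) (.e (nat_lit 172106) (nat_lit 10) (.e (nat_lit 434295) (nat_lit 49) (.e (nat_lit 745475) (nat_lit 0) .nil)))))) (.g (nat_lit 5) .nil .nil)))) (.nd (nat_lit 5) 
(.lf (nat_lit 65117) (.g (nat_lit 3024) (.e (nat_lit 1595) (nat_lit 111) (.e (nat_lit 360473) (nat_lit 8) (.e (nat_lit 557094) (nat_lit 12) (.e (nat_lit 164022) (nat_lit 46) (.e (nat_lit 704737) (nat_lit 11) (.e (nat_lit 16411) (nat_lit 2) (.e (nat_lit 196625) (nat_lit 9) .nil))))))) (.g (nat_lit 6) .nil .nil))) 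
(.lf (nat_lit 65149) (.g (nat_lit 1352) (.e (nat_lit 1595) (nat_lit 111) (.e (nat_lit 360477) (nat_lit 11) (.e (nat_lit 589568) (nat_lit 6) (.e (nat_lit 188441) (nat_lit 20) (.e (nat_lit 3579) (nat_lit 223) (.e (nat_lit 745475) (nat_lit 0) .nil)))))) (.g (nat_lit 4) .nil .nil))))))) (.nd (nat_lit 2) (.nd (nat_lit 3) (.nd (nat_lit 4) (.nd (nat_lit 5) 
(.lf (nat_lit 65091) (.g (nat_lit 2204) (.e (nat_lit 1595) (nat_lit 111) (.e (nat_lit 360473) (nat_lit 8) (.e (nat_lit 557090) (nat_lit 12) (.e (nat_lit 164020) (nat_lit 45) (.e (nat_lit 696345) (nat_lit 9) .nil))))) .nil)) 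
(.lf (nat_lit 65123) (.g (nat_lit 2317) (.e (nat_lit 1595) (nat_lit 111) (.e (nat_lit 360473) (nat_lit 8) (.e (nat_lit 557119) (nat_lit 18) (.e (nat_lit 2798) (nat_lit 180) (.e (nat_lit 303133) (nat_lit 9) (.e (nat_lit 426003) (nat_lit 0) (.e (nat_lit 3579) (nat_lit 223) (.e (nat_lit 745475) (nat_lit 0) .nil)))))))) (.g (nat_lit 4) .nil .nil)))) (.nd (nat_lit 5) 
(.lf (nat_lit 65107) (.g (nat_lit 2195) (.e (nat_lit 1595) (nat_lit 111) (.e (nat_lit 360473) (nat_lit 8) (.e (nat_lit 557093) (nat_lit 12) (.e (nat_lit 164022) (nat_lit 46) (.e (nat_lit 704737) (nat_lit 11) (.e (nat_lit 16409) (nat_lit 2) (.e (nat_lit 196625) (nat_lit 9) .nil))))))) (.g (nat_lit 4) .nil .nil))) 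
(.lf (nat_lit 65139) (.g (nat_lit 1763) (.e (nat_lit 1595) (nat_lit 111) (.e (nat_lit 360477) (nat_lit 11) (.e (nat_lit 581651) (nat_lit 4) (.e (nat_lit 172116) (nat_lit 10) (.e (nat_lit 434295) (nat_lit 49) (.e (nat_lit 745475) (nat_lit 0) .nil)))))) (.g (nat_lit 5) .nil .nil))))) (.nd (nat_lit 4) (.nd (nat_lit 5) 
(.lf (nat_lit 65099) (.g (nat_lit 2549) (.e (nat_lit 1595) (nat_lit 111) (.e (nat_lit 360473) (nat_lit 8) (.e (nat_lit 557091) (nat_lit 12) (.e (nat_lit 164022) (nat_lit 46) (.e (nat_lit 704736) (nat_lit 11) (.e (nat_lit 16411) (nat_lit 2) (.e (nat_lit 196625) (nat_lit 9) .nil))))))) (.g (nat_lit 4) .nil .nil))) 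
(.lf (nat_lit 65131) (.g (nat_lit 1861) (.e (nat_lit 1595) (nat_lit 111) (.e (nat_lit 360473) (nat_lit 8) (.e (nat_lit 557119) (nat_lit 18) (.e (nat_lit 2808) (nat_lit 180) (.e (nat_lit 303140) (nat_lit 10) .nil))))) .nil))) (.nd (nat_lit 5) 
(.lf (nat_lit 65115) (.g (nat_lit 1872) (.e (nat_lit 1595) (nat_lit 111) (.e (nat_lit 360473) (nat_lit 8) (.e (nat_lit 557094) (nat_lit 12) (.e (nat_lit 164022) (nat_lit 46) (.e (nat_lit 704737) (nat_lit 11) (.e (nat_lit 16409) (nat_lit 2) (.e (nat_lit 196625) (nat_lit 9) .nil))))))) (.g (nat_lit 4) .nil .nil))) 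
(.lf (nat_lit 65147) (.g (nat_lit 1902) (.e (nat_lit 1595) (nat_lit 111) (.e (nat_lit 360477) (nat_lit 11) (.e (nat_lit 589568) (nat_lit 6) (.e (nat_lit 188434) (nat_lit 20) (.e (nat_lit 3579) (nat_lit 223) (.e (nat_lit 745475) (nat_lit 0) .nil)))))) (.g (nat_lit 5) .nil .nil)))))) (.nd (nat_lit 3) (.nd (nat_lit 4) (.nd (nat_lit 5) 
(.lf (nat_lit 65095) (.g (nat_lit 2811) (.e (nat_lit 1595) (nat_lit 111) (.e (nat_lit 360473) (nat_lit 8) (.e (nat_lit 557091) (nat_lit 12) (.e (nat_lit 163999) (nat_lit 38) (.e (nat_lit 639020) (nat_lit 16) (.e (nat_lit 65580) (nat_lit 6) (.e (nat_lit 155392) (nat_lit 0) .nil))))))) (.g (nat_lit 4) .nil .nil))) 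
(.lf (nat_lit 65127) (.g (nat_lit 2604) (.e (nat_lit 1595) (nat_lit 111) (.e (nat_lit 360473) (nat_lit 8) (.e (nat_lit 557119) (nat_lit 18) (.e (nat_lit 2798) (nat_lit 180) (.e (nat_lit 303139) (nat_lit 10) (.e (nat_lit 434295) (nat_lit 49) (.e (nat_lit 745476) (nat_lit 0) .nil))))))) (.g (nat_lit 4) .nil .nil)))) (.nd (nat_lit 5) 
(.lf (nat_lit 65111) (.g (nat_lit 3177) (.e (nat_lit 1595) (nat_lit 111) (.e (nat_lit 360473) (nat_lit 8) (.e (nat_lit 557093) (nat_lit 12) (.e (nat_lit 164023) (nat_lit 46) (.e (nat_lit 704737) (nat_lit 11) (.e (nat_lit 16411) (nat_lit 2) (.e (nat_lit 196625) (nat_lit 9) .nil))))))) (.g (nat_lit 5) .nil .nil))) 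
(.lf (nat_lit 65143) (.g (nat_lit 2293) (.e (nat_lit 1595) (nat_lit 111) (.e (nat_lit 360477) (nat_lit 11) (.e (nat_lit 581653) (nat_lit 6) (.e (nat_lit 188439) (nat_lit 20) (.e (nat_lit 3578) (nat_lit 223) (.e (nat_lit 745475) (nat_lit 0) .nil)))))) (.g (nat_lit 0) .nil .nil))))) (.nd (nat_lit 4) (.nd (nat_lit 5) 
(.lf (nat_lit 65103) (.g (nat_lit 2456) (.e (nat_lit 1595) (nat_lit 111) (.e (nat_lit 360473) (nat_lit 8) (.e (nat_lit 557091) (nat_lit 12) (.e (nat_lit 164022) (nat_lit 46) (.e (nat_lit 704738) (nat_lit 11) (.e (nat_lit 16412) (nat_lit 2) (.e (nat_lit 196623) (nat_lit 9) .nil))))))) (.g (nat_lit 4) .nil .nil))) 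
(.lf (nat_lit 65135) (.g (nat_lit 1695) (.e (nat_lit 1595) (nat_lit 111) (.e (nat_lit 360477) (nat_lit 11) (.e (nat_lit 581651) (nat_lit 4) (.e (nat_lit 172112) (nat_lit 10) (.e (nat_lit 434295) (nat_lit 49) (.e (nat_lit 745475) (nat_lit 0) .nil)))))) (.g (nat_lit 5) .nil .nil)))) (.nd (nat_lit 5) 
(.lf (nat_lit 65119) (.g (nat_lit 527) (.e (nat_lit 1595) (nat_lit 111) (.e (nat_lit 360473) (nat_lit 8) (.e (nat_lit 557118) (nat_lit 18) .nil))) .nil)) 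
(.lf (nat_lit 65151) (.g (nat_lit 1096) (.e (nat_lit 1595) (nat_lit 111) (.e (nat_lit 360479) (nat_lit 13) (.e (nat_lit 630801) (nat_lit 8) (.e (nat_lit 172112) (nat_lit 10) (.e (nat_lit 434269) (nat_lit 36) (.e (nat_lit 639007) (nat_lit 13) .nil)))))) (.g (nat_lit 0) .nil .nil)))))))))

noncomputable def tv896 : DT := (.nd (nat_lit 0) (.nd (nat_lit 1) (.nd (nat_lit 2) (.nd (nat_lit 3) (.nd (nat_lit 4) (.nd (nat_lit 5) 
(.lf (nat_lit 65152) (.g (nat_lit 1108) (.e (nat_lit 1595) (nat_lit 111) (.e (nat_lit 360479) (nat_lit 13) (.e (nat_lit 630801) (nat_lit 8) (.e (nat_lit 172112) (nat_lit 10) (.e (nat_lit 434269) (nat_lit 36) (.e (nat_lit 639008) (nat_lit 13) .nil)))))) (.g (nat_lit 0) .nil .nil))) 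
(.lf (nat_lit 65184) (.g (nat_lit 2910) (.e (nat_lit 1595) (nat_lit 111) (.e (nat_lit 360486) (nat_lit 18) (.e (nat_lit 671762) (nat_lit 4) (.e (nat_lit 65611) (nat_lit 10) (.e (nat_lit 344168) (nat_lit 40) (.e (nat_lit 671747) (nat_lit 0) .nil)))))) (.g (nat_lit 6) .nil .nil)))) (.nd (nat_lit 5) 
(.lf (nat_lit 65168) (.g (nat_lit 1559) (.e (nat_lit 1595) (nat_lit 111) (.e (nat_lit 360480) (nat_lit 14) (.e (nat_lit 638998) (nat_lit 8) (.e (nat_lit 172116) (nat_lit 10) (.e (nat_lit 434269) (nat_lit 36) (.e (nat_lit 639008) (nat_lit 13) .nil)))))) (.g (nat_lit 5) .nil .nil))) 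
(.lf (nat_lit 65200) (.g (nat_lit 1966) (.e (nat_lit 1595) (nat_lit 111) (.e (nat_lit 360486) (nat_lit 18) (.e (nat_lit 671764) (nat_lit 6) (.e (nat_lit 81938) (nat_lit 20) (.e (nat_lit 2005) (nat_lit 138) (.e (nat_lit 671747) (nat_lit 0) .nil)))))) (.g (nat_lit 5) .nil .nil))))) (.nd (nat_lit 4) (.nd (nat_lit 5) 
(.lf (nat_lit 65160) (.g (nat_lit 1272) (.e (nat_lit 1595) (nat_lit 111) (.e (nat_lit 360480) (nat_lit 14) (.e (nat_lit 638998) (nat_lit 8) (.e (nat_lit 172107) (nat_lit 10) (.e (nat_lit 434269) (nat_lit 36) (.e (nat_lit 639008) (nat_lit 13) .nil)))))) (.g (nat_lit 4) .nil .nil))) 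
(.lf (nat_lit 65192) (.g (nat_lit 1865) (.e (nat_lit 1595) (nat_lit 111) (.e (nat_lit 360486) (nat_lit 18) (.e (nat_lit 671762) (nat_lit 4) (.e (nat_lit 65619) (nat_lit 10) (.e (nat_lit 344168) (nat_lit 40) (.e (nat_lit 671746) (nat_lit 0) .nil)))))) (.g (nat_lit 4) .nil .nil)))) (.nd (nat_lit 5) 
(.lf (nat_lit 65176) (.g (nat_lit 2353) (.e (nat_lit 1595) (nat_lit 111) (.e (nat_lit 360482) (nat_lit 15) (.e (nat_lit 647199) (nat_lit 11) (.e (nat_lit 16449) (nat_lit 10) (.e (nat_lit 434269) (nat_lit 36) (.e (nat_lit 639008) (nat_lit 13) .nil)))))) (.g (nat_lit 6) .nil .nil))) 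
(.lf (nat_lit 65208) (.g (nat_lit 622) (.e (nat_lit 1595) (nat_lit 111) (.e (nat_lit 360489) (nat_lit 21) (.e (nat_lit 770055) (nat_lit 5) (.e (nat_lit 1592) (nat_lit 111) .nil)))) .nil))))) (.nd (nat_lit 3) (.nd (nat_lit 4) (.nd (nat_lit 5) 
(.lf (nat_lit 65156) (.g (nat_lit 1512) (.e (nat_lit 1595) (nat_lit 111) (.e (nat_lit 360480) (nat_lit 14) (.e (nat_lit 638997) (nat_lit 8) (.e (nat_lit 172115) (nat_lit 10) (.e (nat_lit 434269) (nat_lit 36) (.e (nat_lit 639007) (nat_lit 13) .nil)))))) (.g (nat_lit 5) .nil .nil))) 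
(.lf (nat_lit 65188) (.g (nat_lit 3281) (.e (nat_lit 1595) (nat_lit 111) (.e (nat_lit 360486) (nat_lit 18) (.e (nat_lit 671762) (nat_lit 4) (.e (nat_lit 65617) (nat_lit 10) (.e (nat_lit 344168) (nat_lit 40) (.e (nat_lit 671747) (nat_lit 0) .nil)))))) (.g (nat_lit 6) .nil .nil)))) (.nd (nat_lit 5) 
(.lf (nat_lit 65172) (.g (nat_lit 1045) (.e (nat_lit 1595) (nat_lit 111) (.e (nat_lit 360482) (nat_lit 15) (.e (nat_lit 647190) (nat_lit 9) (.e (nat_lit 7936) (nat_lit 35) .nil)))) .nil)) 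
(.lf (nat_lit 65204) (.g (nat_lit 1973) (.e (nat_lit 1595) (nat_lit 111) (.e (nat_lit 360488) (nat_lit 20) (.e (nat_lit 761866) (nat_lit 5) (.e (nat_lit 1597) (nat_lit 111) (.e (nat_lit 360489) (nat_lit 21) (.e (nat_lit 770057) (nat_lit 5) .nil)))))) (.g (nat_lit 0) .nil .nil))))) (.nd (nat_lit 4) (.nd (nat_lit 5) 
(.lf (nat_lit 65164) (.g (nat_lit 1707) (.e (nat_lit 1595) (nat_lit 111) (.e (nat_lit 360480) (nat_lit 14) (.e (nat_lit 638998) (nat_lit 8) (.e (nat_lit 172113) (nat_lit 10) (.e (nat_lit 434269) (nat_lit 36) (.e (nat_lit 639008) (nat_lit 13) .nil)))))) (.g (nat_lit 4) .nil .nil))) 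
(.lf (nat_lit 65196) (.g (nat_lit 2852) (.e (nat_lit 1595) (nat_lit 111) (.e (nat_lit 360486) (nat_lit 18) (.e (nat_lit 671762) (nat_lit 4) (.e (nat_lit 65620) (nat_lit 10) (.e (nat_lit 344168) (nat_lit 40) (.e (nat_lit 671747) (nat_lit 0) .nil)))))) (.g (nat_lit 6) .nil .nil)))) (.nd (nat_lit 5) 
(.lf (nat_lit 65180) (.g (nat_lit 1296) (.e (nat_lit 1595) (nat_lit 111) (.e (nat_lit 360486) (nat_lit 18) (.e (nat_lit 671762) (nat_lit 4) (.e (nat_lit 65604) (nat_lit 9) .nil)))) .nil)) 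
(.lf (nat_lit 65212) (.g (nat_lit 1806) (.e (nat_lit 1595) (nat_lit 111) (.e (nat_lit 360489) (nat_lit 21) (.e (nat_lit 770058) (nat_lit 5) (.e (nat_lit 1598) (nat_lit 111) (.e (nat_lit 360489) (nat_lit 21) (.e (nat_lit 770057) (nat_lit 5) .nil)))))) (.g (nat_lit 0) .nil .nil))))))) (.nd (nat_lit 2) (.nd (nat_lit 3) (.nd (nat_lit 4) (.nd (nat_lit 5) 
(.lf (nat_lit 65154) (.g (nat_lit 1490) (.e (nat_lit 1595) (nat_lit 111) (.e (nat_lit 360479) (nat_lit 13) (.e (nat_lit 630801) (nat_lit 8) (.e (nat_lit 172113) (nat_lit 10) (.e (nat_lit 434269) (nat_lit 36) (.e (nat_lit 639008) (nat_lit 13) .nil)))))) (.g (nat_lit 6) .nil .nil))) 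
(.lf (nat_lit 65186) (.g (nat_lit 2831) (.e (nat_lit 1595) (nat_lit 111) (.e (nat_lit 360486) (nat_lit 18) (.e (nat_lit 671762) (nat_lit 4) (.e (nat_lit 65616) (nat_lit 10) (.e (nat_lit 344168) (nat_lit 40) (.e (nat_lit 671747) (nat_lit 0) .nil)))))) (.g (nat_lit 6) .nil .nil)))) (.nd (nat_lit 5) 
(.lf (nat_lit 65170) (.g (nat_lit 1441) (.e (nat_lit 1595) (nat_lit 111) (.e (nat_lit 360480) (nat_lit 14) (.e (nat_lit 638999) (nat_lit 8) (.e (nat_lit 172115) (nat_lit 10) (.e (nat_lit 434269) (nat_lit 36) (.e (nat_lit 639007) (nat_lit 13) .nil)))))) (.g (nat_lit 5) .nil .nil))) 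
(.lf (nat_lit 65202) (.g (nat_lit 1641) (.e (nat_lit 1595) (nat_lit 111) (.e (nat_lit 360486) (nat_lit 18) (.e (nat_lit 671764) (nat_lit 6) (.e (nat_lit 81947) (nat_lit 20) (.e (nat_lit 2003) (nat_lit 138) (.e (nat_lit 671747) (nat_lit 0) .nil)))))) (.g (nat_lit 4) .nil .nil))))) (.nd (nat_lit 4) (.nd (nat_lit 5) 
(.lf (nat_lit 65162) (.g (nat_lit 1451) (.e (nat_lit 1595) (nat_lit 111) (.e (nat_lit 360480) (nat_lit 14) (.e (nat_lit 638998) (nat_lit 8) (.e (nat_lit 172112) (nat_lit 10) (.e (nat_lit 434269) (nat_lit 36) (.e (nat_lit 639008) (nat_lit 13) .nil)))))) (.g (nat_lit 5) .nil .nil))) 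
(.lf (nat_lit 65194) (.g (nat_lit 1951) (.e (nat_lit 1595) (nat_lit 111) (.e (nat_lit 360486) (nat_lit 18) (.e (nat_lit 671762) (nat_lit 4) (.e (nat_lit 65619) (nat_lit 10) (.e (nat_lit 344169) (nat_lit 40) (.e (nat_lit 671746) (nat_lit 0) .nil)))))) (.g (nat_lit 4) .nil .nil)))) (.nd (nat_lit 5) 
(.lf (nat_lit 65178) (.g (nat_lit 2722) (.e (nat_lit 1595) (nat_lit 111) (.e (nat_lit 360486) (nat_lit 18) (.e (nat_lit 671748) (nat_lit 0) (.e (nat_lit 1595) (nat_lit 111) (.e (nat_lit 360486) (nat_lit 18) (.e (nat_lit 671748) (nat_lit 0) .nil)))))) (.g (nat_lit 0) .nil .nil))) 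
(.lf (nat_lit 65210) (.g (nat_lit 1488) (.e (nat_lit 1595) (nat_lit 111) (.e (nat_lit 360489) (nat_lit 21) (.e (nat_lit 770057) (nat_lit 5) (.e (nat_lit 1595) (nat_lit 111) (.e (nat_lit 360489) (nat_lit 21) (.e (nat_lit 770057) (nat_lit 5) .nil)))))) (.g (nat_lit 5) .nil .nil)))))) (.nd (nat_lit 3) (.nd (nat_lit 4) (.nd (nat_lit 5) 
(.lf (nat_lit 65158) (.g (nat_lit 1921) (.e (nat_lit 1595) (nat_lit 111) (.e (nat_lit 360480) (nat_lit 14) (.e (nat_lit 638998) (nat_lit 8) (.e (nat_lit 172106) (nat_lit 10) (.e (nat_lit 434269) (nat_lit 36) (.e (nat_lit 639008) (nat_lit 13) .nil)))))) (.g (nat_lit 6) .nil .nil))) 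
(.lf (nat_lit 65190) (.g (nat_lit 3153) (.e (nat_lit 1595) (nat_lit 111) (.e (nat_lit 360486) (nat_lit 18) (.e (nat_lit 671762) (nat_lit 4) (.e (nat_lit 65617) (nat_lit 10) (.e (nat_lit 344169) (nat_lit 40) (.e (nat_lit 671747) (nat_lit 0) .nil)))))) (.g (nat_lit 6) .nil .nil)))) (.nd (nat_lit 5) 
(.lf (nat_lit 65174) (.g (nat_lit 3536) (.e (nat_lit 1595) (nat_lit 111) (.e (nat_lit 360482) (nat_lit 15) (.e (nat_lit 647199) (nat_lit 11) (.e (nat_lit 16448) (nat_lit 10) (.e (nat_lit 434268) (nat_lit 36) (.e (nat_lit 639007) (nat_lit 13) .nil)))))) (.g (nat_lit 6) .nil .nil))) 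
(.lf (nat_lit 65206) (.g (nat_lit 1988) (.e (nat_lit 1595) (nat_lit 111) (.e (nat_lit 360488) (nat_lit 20) (.e (nat_lit 761868) (nat_lit 5) (.e (nat_lit 1597) (nat_lit 111) (.e (nat_lit 360489) (nat_lit 21) (.e (nat_lit 770057) (nat_lit 5) .nil)))))) (.g (nat_lit 0) .nil .nil))))) (.nd (nat_lit 4) (.nd (nat_lit 5) 
(.lf (nat_lit 65166) (.g (nat_lit 1984) (.e (nat_lit 1595) (nat_lit 111) (.e (nat_lit 360480) (nat_lit 14) (.e (nat_lit 638998) (nat_lit 8) (.e (nat_lit 172115) (nat_lit 10) (.e (nat_lit 434269) (nat_lit 36) (.e (nat_lit 639008) (nat_lit 13) .nil)))))) (.g (nat_lit 5) .nil .nil))) 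
(.lf (nat_lit 65198) (.g (nat_lit 413) (.e (nat_lit 1595) (nat_lit 111) (.e (nat_lit 360486) (nat_lit 18) (.e (nat_lit 671764) (nat_lit 6) .nil))) .nil))) (.nd (nat_lit 5) 
(.lf (nat_lit 65182) (.g (nat_lit 3073) (.e (nat_lit 1595) (nat_lit 111) (.e (nat_lit 360486) (nat_lit 18) (.e (nat_lit 671762) (nat_lit 4) (.e (nat_lit 65610) (nat_lit 10) (.e (nat_lit 344168) (nat_lit 40) (.e (nat_lit 671747) (nat_lit 0) .nil)))))) (.g (nat_lit 6) .nil .nil))) 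
(.lf (nat_lit 65214) (.g (nat_lit 2528) (.e (nat_lit 1595) (nat_lit 111) (.e (nat_lit 360489) (nat_lit 21) (.e (nat_lit 770071) (nat_lit 8) (.e (nat_lit 65610) (nat_lit 10) (.e (nat_lit 344177) (nat_lit 43) (.e (nat_lit 770057) (nat_lit 5) .nil)))))) (.g (nat_lit 6) .nil .nil)))))))) (.nd (nat_lit 1) (.nd (nat_lit 2) (.nd (nat_lit 3) (.nd (nat_lit 4) (.nd (nat_lit 5) 
(.lf (nat_lit 65153) (.g (nat_lit 1478) (.e (nat_lit 1595) (nat_lit 111) (.e (nat_lit 360479) (nat_lit 13) (.e (nat_lit 630801) (nat_lit 8) (.e (nat_lit 172113) (nat_lit 10) (.e (nat_lit 434269) (nat_lit 36) (.e (nat_lit 639007) (nat_lit 13) .nil)))))) (.g (nat_lit 6) .nil .nil))) 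
(.lf (nat_lit 65185) (.g (nat_lit 2903) (.e (nat_lit 1595) (nat_lit 111) (.e (nat_lit 360486) (nat_lit 18) (.e (nat_lit 671762) (nat_lit 4) (.e (nat_lit 65611) (nat_lit 10) (.e (nat_lit 344169) (nat_lit 40) (.e (nat_lit 671747) (nat_lit 0) .nil)))))) (.g (nat_lit 6) .nil .nil)))) (.nd (nat_lit 5) 
(.lf (nat_lit 65169) (.g (nat_lit 1224) (.e (nat_lit 1595) (nat_lit 111) (.e (nat_lit 360480) (nat_lit 14) (.e (nat_lit 638999) (nat_lit 8) (.e (nat_lit 172107) (nat_lit 10) (.e (nat_lit 434269) (nat_lit 36) (.e (nat_lit 639007) (nat_lit 13) .nil)))))) (.g (nat_lit 6) .nil .nil))) 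
(.lf (nat_lit 65201) (.g (nat_lit 1353) (.e (nat_lit 1595) (nat_lit 111) (.e (nat_lit 360486) (nat_lit 18) (.e (nat_lit 671764) (nat_lit 6) (.e (nat_lit 81943) (nat_lit 20) (.e (nat_lit 2004) (nat_lit 138) (.e (nat_lit 671747) (nat_lit 0) .nil)))))) (.g (nat_lit 4) .nil .nil))))) (.nd (nat_lit 4) (.nd (nat_lit 5) 
(.lf (nat_lit 65161) (.g (nat_lit 1456) (.e (nat_lit 1595) (nat_lit 111) (.e (nat_lit 360480) (nat_lit 14) (.e (nat_lit 638998) (nat_lit 8) (.e (nat_lit 172112) (nat_lit 10) (.e (nat_lit 434269) (nat_lit 36) (.e (nat_lit 639007) (nat_lit 13) .nil)))))) (.g (nat_lit 5) .nil .nil))) 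
(.lf (nat_lit 65193) (.g (nat_lit 3150) (.e (nat_lit 1595) (nat_lit 111) (.e (nat_lit 360486) (nat_lit 18) (.e (nat_lit 671762) (nat_lit 4) (.e (nat_lit 65619) (nat_lit 10) (.e (nat_lit 344168) (nat_lit 40) (.e (nat_lit 671747) (nat_lit 0) .nil)))))) (.g (nat_lit 6) .nil .nil)))) (.nd (nat_lit 5) 
(.lf (nat_lit 65177) (.g (nat_lit 1698) (.e (nat_lit 1595) (nat_lit 111) (.e (nat_lit 360486) (nat_lit 18) (.e (nat_lit 671747) (nat_lit 0) (.e (nat_lit 1595) (nat_lit 111) (.e (nat_lit 360486) (nat_lit 18) (.e (nat_lit 671748) (nat_lit 0) .nil)))))) (.g (nat_lit 4) .nil .nil))) 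
(.lf (nat_lit 65209) (.g (nat_lit 1432) (.e (nat_lit 1595) (nat_lit 111) (.e (nat_lit 360489) (nat_lit 21) (.e (nat_lit 770056) (nat_lit 5) (.e (nat_lit 1598) (nat_lit 111) (.e (nat_lit 360489) (nat_lit 21) (.e (nat_lit 770058) (nat_lit 5) .nil)))))) (.g (nat_lit 6) .nil .nil)))))) (.nd (nat_lit 3) (.nd (nat_lit 4) (.nd (nat_lit 5) 
(.lf (nat_lit 65157) (.g (nat_lit 1895) (.e (nat_lit 1595) (nat_lit 111) (.e (nat_lit 360480) (nat_lit 14) (.e (nat_lit 638998) (nat_lit 8) (.e (nat_lit 172106) (nat_lit 10) (.e (nat_lit 434269) (nat_lit 36) (.e (nat_lit 639007) (nat_lit 13) .nil)))))) (.g (nat_lit 6) .nil .nil))) 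
(.lf (nat_lit 65189) (.g (nat_lit 1997) (.e (nat_lit 1595) (nat_lit 111) (.e (nat_lit 360486) (nat_lit 18) (.e (nat_lit 671762) (nat_lit 4) (.e (nat_lit 65617) (nat_lit 10) (.e (nat_lit 344169) (nat_lit 40) (.e (nat_lit 671746) (nat_lit 0) .nil)))))) (.g (nat_lit 4) .nil .nil)))) (.nd (nat_lit 5) 
(.lf (nat_lit 65173) (.g (nat_lit 3490) (.e (nat_lit 1595) (nat_lit 111) (.e (nat_lit 360482) (nat_lit 15) (.e (nat_lit 647199) (nat_lit 11) (.e (nat_lit 16448) (nat_lit 10) (.e (nat_lit 434268) (nat_lit 36) (.e (nat_lit 639005) (nat_lit 13) .nil)))))) (.g (nat_lit 6) .nil .nil))) 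
(.lf (nat_lit 65205) (.g (nat_lit 335) (.e (nat_lit 1595) (nat_lit 111) (.e (nat_lit 360488) (nat_lit 20) (.e (nat_lit 761868) (nat_lit 5) .nil))) .nil)))) (.nd (nat_lit 4) (.nd (nat_lit 5) 
(.lf (nat_lit 65165) (.g (nat_lit 1925) (.e (nat_lit 1595) (nat_lit 111) (.e (nat_lit 360480) (nat_lit 14) (.e (nat_lit 638998) (nat_lit 8) (.e (nat_lit 172115) (nat_lit 10) (.e (nat_lit 434269) (nat_lit 36) (.e (nat_lit 639007) (nat_lit 13) .nil)))))) (.g (nat_lit 5) .nil .nil))) 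
(.lf (nat_lit 65197) (.g (nat_lit 2846) (.e (nat_lit 1595) (nat_lit 111) (.e (nat_lit 360486) (nat_lit 18) (.e (nat_lit 671762) (nat_lit 4) (.e (nat_lit 65620) (nat_lit 10) (.e (nat_lit 344169) (nat_lit 40) (.e (nat_lit 671747) (nat_lit 0) .nil)))))) (.g (nat_lit 6) .nil .nil)))) (.nd (nat_lit 5) 
(.lf (nat_lit 65181) (.g (nat_lit 1884) (.e (nat_lit 1595) (nat_lit 111) (.e (nat_lit 360486) (nat_lit 18) (.e (nat_lit 671762) (nat_lit 4) (.e (nat_lit 65610) (nat_lit 10) (.e (nat_lit 344097) (nat_lit 18) .nil))))) .nil)) 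
(.lf (nat_lit 65213) (.g (nat_lit 1328) (.e (nat_lit 1595) (nat_lit 111) (.e (nat_lit 360489) (nat_lit 21) (.e (nat_lit 770071) (nat_lit 8) (.e (nat_lit 65610) (nat_lit 10) (.e (nat_lit 344177) (nat_lit 43) (.e (nat_lit 770055) (nat_lit 5) .nil)))))) (.g (nat_lit 4) .nil .nil))))))) (.nd (nat_lit 2) (.nd (nat_lit 3) (.nd (nat_lit 4) (.nd (nat_lit 5) 
(.lf (nat_lit 65155) (.g (nat_lit 1014) (.e (nat_lit 1595) (nat_lit 111) (.e (nat_lit 360479) (nat_lit 13) (.e (nat_lit 630802) (nat_lit 8) (.e (nat_lit 172115) (nat_lit 10) (.e (nat_lit 434269) (nat_lit 36) (.e (nat_lit 639008) (nat_lit 13) .nil)))))) (.g (nat_lit 4) .nil .nil))) 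
(.lf (nat_lit 65187) (.g (nat_lit 2768) (.e (nat_lit 1595) (nat_lit 111) (.e (nat_lit 360486) (nat_lit 18) (.e (nat_lit 671762) (nat_lit 4) (.e (nat_lit 65616) (nat_lit 10) (.e (nat_lit 344169) (nat_lit 40) (.e (nat_lit 671747) (nat_lit 0) .nil)))))) (.g (nat_lit 6) .nil .nil)))) (.nd (nat_lit 5) 
(.lf (nat_lit 65171) (.g (nat_lit 1357) (.e (nat_lit 1595) (nat_lit 111) (.e (nat_lit 360480) (nat_lit 14) (.e (nat_lit 639001) (nat_lit 10) (.e (nat_lit 188434) (nat_lit 20) (.e (nat_lit 3390) (nat_lit 210) (.e (nat_lit 639007) (nat_lit 13) .nil)))))) (.g (nat_lit 0) .nil .nil))) 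
(.lf (nat_lit 65203) (.g (nat_lit 2110) (.e (nat_lit 1595) (nat_lit 111) (.e (nat_lit 360486) (nat_lit 18) (.e (nat_lit 671764) (nat_lit 6) (.e (nat_lit 81947) (nat_lit 20) (.e (nat_lit 2005) (nat_lit 138) (.e (nat_lit 671747) (nat_lit 0) .nil)))))) (.g (nat_lit 6) .nil .nil))))) (.nd (nat_lit 4) (.nd (nat_lit 5) 
(.lf (nat_lit 65163) (.g (nat_lit 1696) (.e (nat_lit 1595) (nat_lit 111) (.e (nat_lit 360480) (nat_lit 14) (.e (nat_lit 638998) (nat_lit 8) (.e (nat_lit 172113) (nat_lit 10) (.e (nat_lit 434269) (nat_lit 36) (.e (nat_lit 639007) (nat_lit 13) .nil)))))) (.g (nat_lit 4) .nil .nil))) 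
(.lf (nat_lit 65195) (.g (nat_lit 3051) (.e (nat_lit 1595) (nat_lit 111) (.e (nat_lit 360486) (nat_lit 18) (.e (nat_lit 671762) (nat_lit 4) (.e (nat_lit 65619) (nat_lit 10) (.e (nat_lit 344169) (nat_lit 40) (.e (nat_lit 671747) (nat_lit 0) .nil)))))) (.g (nat_lit 6) .nil .nil)))) (.nd (nat_lit 5) 
(.lf (nat_lit 65179) (.g (nat_lit 1656) (.e (nat_lit 1595) (nat_lit 111) (.e (nat_lit 360486) (nat_lit 18) (.e (nat_lit 671761) (nat_lit 4) (.e (nat_lit 65610) (nat_lit 10) (.e (nat_lit 344168) (nat_lit 40) .nil))))) .nil)) 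
(.lf (nat_lit 65211) (.g (nat_lit 1725) (.e (nat_lit 1595) (nat_lit 111) (.e (nat_lit 360489) (nat_lit 21) (.e (nat_lit 770057) (nat_lit 5) (.e (nat_lit 1595) (nat_lit 111) (.e (nat_lit 360489) (nat_lit 21) (.e (nat_lit 770058) (nat_lit 5) .nil)))))) (.g (nat_lit 6) .nil .nil)))))) (.nd (nat_lit 3) (.nd (nat_lit 4) (.nd (nat_lit 5) 
(.lf (nat_lit 65159) (.g (nat_lit 1230) (.e (nat_lit 1595) (nat_lit 111) (.e (nat_lit 360480) (nat_lit 14) (.e (nat_lit 638998) (nat_lit 8) (.e (nat_lit 172107) (nat_lit 10) (.e (nat_lit 434269) (nat_lit 36) (.e (nat_lit 639007) (nat_lit 13) .nil)))))) (.g (nat_lit 4) .nil .nil))) 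
(.lf (nat_lit 65191) (.g (nat_lit 1920) (.e (nat_lit 1595) (nat_lit 111) (.e (nat_lit 360486) (nat_lit 18) (.e (nat_lit 671762) (nat_lit 4) (.e (nat_lit 65619) (nat_lit 10) (.e (nat_lit 344097) (nat_lit 18) .nil))))) .nil))) (.nd (nat_lit 5) 
(.lf (nat_lit 65175) (.g (nat_lit 2236) (.e (nat_lit 1595) (nat_lit 111) (.e (nat_lit 360482) (nat_lit 15) (.e (nat_lit 647199) (nat_lit 11) (.e (nat_lit 16449) (nat_lit 10) (.e (nat_lit 434269) (nat_lit 36) (.e (nat_lit 639007) (nat_lit 13) .nil)))))) (.g (nat_lit 5) .nil .nil))) 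
(.lf (nat_lit 65207) (.g (nat_lit 807) (.e (nat_lit 1595) (nat_lit 111) (.e (nat_lit 360489) (nat_lit 21) (.e (nat_lit 770055) (nat_lit 5) (.e (nat_lit 1580) (nat_lit 111) (.e (nat_lit 360489) (nat_lit 21) .nil))))) .nil)))) (.nd (nat_lit 4) (.nd (nat_lit 5) 
(.lf (nat_lit 65167) (.g (nat_lit 1559) (.e (nat_lit 1595) (nat_lit 111) (.e (nat_lit 360480) (nat_lit 14) (.e (nat_lit 638998) (nat_lit 8) (.e (nat_lit 172116) (nat_lit 10) (.e (nat_lit 434269) (nat_lit 36) (.e (nat_lit 639007) (nat_lit 13) .nil)))))) (.g (nat_lit 5) .nil .nil))) 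
(.lf (nat_lit 65199) (.g (nat_lit 1756) (.e (nat_lit 1595) (nat_lit 111) (.e (nat_lit 360486) (nat_lit 18) (.e (nat_lit 671764) (nat_lit 6) (.e (nat_lit 81935) (nat_lit 20) (.e (nat_lit 1996) (nat_lit 137) (.e (nat_lit 663554) (nat_lit 0) .nil)))))) (.g (nat_lit 4) .nil .nil)))) (.nd (nat_lit 5) 
(.lf (nat_lit 65183) (.g (nat_lit 3202) (.e (nat_lit 1595) (nat_lit 111) (.e (nat_lit 360486) (nat_lit 18) (.e (nat_lit 671762) (nat_lit 4) (.e (nat_lit 65610) (nat_lit 10) (.e (nat_lit 344169) (nat_lit 40) (.e (nat_lit 671747) (nat_lit 0) .nil)))))) (.g (nat_lit 6) .nil .nil))) 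
(.lf (nat_lit 65215) (.g (nat_lit 2512) (.e (nat_lit 1595) (nat_lit 111) (.e (nat_lit 360489) (nat_lit 21) (.e (nat_lit 770071) (nat_lit 8) (.e (nat_lit 65610) (nat_lit 10) (.e (nat_lit 344177) (nat_lit 43) (.e (nat_lit 770058) (nat_lit 5) .nil)))))) (.g (nat_lit 6) .nil .nil)))))))))

noncomputable def tv897 : DT := (.nd (nat_lit 0) (.nd (nat_lit 1) (.nd (nat_lit 2) (.nd (nat_lit 3) (.nd (nat_lit 4) (.nd (nat_lit 5) 
(.lf (nat_lit 65216) (.g (nat_lit 1996) (.e (nat_lit 1595) (nat_lit 111) (.e (nat_lit 360489) (nat_lit 21) (.e (nat_lit 770071) (nat_lit 8) (.e (nat_lit 65611) (nat_lit 10) (.e (nat_lit 344177) (nat_lit 43) (.e (nat_lit 770057) (nat_lit 5) .nil)))))) (.g (nat_lit 5) .nil .nil))) 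
(.lf (nat_lit 65248) (.g (nat_lit 3743) (.e (nat_lit 1595) (nat_lit 111) (.e (nat_lit 360492) (nat_lit 22) (.e (nat_lit 778465) (nat_lit 11) (.e (nat_lit 24665) (nat_lit 14) (.e (nat_lit 401414) (nat_lit 0) (.e (nat_lit 3469) (nat_lit 217) (.e (nat_lit 696350) (nat_lit 13) .nil))))))) (.g (nat_lit 6) .nil .nil)))) (.nd (nat_lit 5) 
(.lf (nat_lit 65232) (.g (nat_lit 2099) (.e (nat_lit 1595) (nat_lit 111) (.e (nat_lit 360492) (nat_lit 22) (.e (nat_lit 778362) (nat_lit 9) (.e (nat_lit 324) (nat_lit 24) (.e (nat_lit 360489) (nat_lit 21) (.e (nat_lit 770057) (nat_lit 5) .nil)))))) (.g (nat_lit 0) .nil .nil))) 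
(.lf (nat_lit 65264) (.g (nat_lit 923) (.e (nat_lit 1595) (nat_lit 111) (.e (nat_lit 360493) (nat_lit 27) (.e (nat_lit 819219) (nat_lit 4) (.e (nat_lit 172116) (nat_lit 10) (.e (nat_lit 434241) (nat_lit 27) (.e (nat_lit 565251) (nat_lit 0) .nil)))))) (.g (nat_lit 4) .nil .nil))))) (.nd (nat_lit 4) (.nd (nat_lit 5) 
(.lf (nat_lit 65224) (.g (nat_lit 2297) (.e (nat_lit 1595) (nat_lit 111) (.e (nat_lit 360489) (nat_lit 21) (.e (nat_lit 770071) (nat_lit 8) (.e (nat_lit 65620) (nat_lit 10) (.e (nat_lit 344177) (nat_lit 43) (.e (nat_lit 770057) (nat_lit 5) .nil)))))) (.g (nat_lit 6) .nil .nil))) 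
(.lf (nat_lit 65256) (.g (nat_lit 2965) (.e (nat_lit 1595) (nat_lit 111) (.e (nat_lit 360492) (nat_lit 22) (.e (nat_lit 778466) (nat_lit 11) (.e (nat_lit 24640) (nat_lit 10) (.e (nat_lit 344177) (nat_lit 43) (.e (nat_lit 770058) (nat_lit 5) .nil)))))) (.g (nat_lit 0) .nil .nil)))) (.nd (nat_lit 5) 
(.lf (nat_lit 65240) (.g (nat_lit 2288) (.e (nat_lit 1595) (nat_lit 111) (.e (nat_lit 360492) (nat_lit 22) (.e (nat_lit 778465) (nat_lit 11) (.e (nat_lit 24640) (nat_lit 10) (.e (nat_lit 344176) (nat_lit 43) (.e (nat_lit 770054) (nat_lit 5) .nil)))))) (.g (nat_lit 4) .nil .nil))) 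
(.lf (nat_lit 65272) (.g (nat_lit 2543) (.e (nat_lit 1596) (nat_lit 111) (.e (nat_lit 360466) (nat_lit 3) (.e (nat_lit 516139) (nat_lit 7) (.e (nat_lit 409643) (nat_lit 18) (.e (nat_lit 303117) (nat_lit 2) (.e (nat_lit 196630) (nat_lit 9) .nil)))))) (.g (nat_lit 4) .nil .nil)))))) (.nd (nat_lit 3) (.nd (nat_lit 4) (.nd (nat_lit 5) 
(.lf (nat_lit 65220) (.g (nat_lit 2556) (.e (nat_lit 1595) (nat_lit 111) (.e (nat_lit 360489) (nat_lit 21) (.e (nat_lit 770071) (nat_lit 8) (.e (nat_lit 65617) (nat_lit 10) (.e (nat_lit 344177) (nat_lit 43) (.e (nat_lit 770057) (nat_lit 5) .nil)))))) (.g (nat_lit 6) .nil .nil))) 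
(.lf (nat_lit 65252) (.g (nat_lit 2363) (.e (nat_lit 1595) (nat_lit 111) (.e (nat_lit 360492) (nat_lit 22) (.e (nat_lit 778466) (nat_lit 11) (.e (nat_lit 24628) (nat_lit 9) (.e (nat_lit 335878) (nat_lit 0) (.e (nat_lit 2283) (nat_lit 150) (.e (nat_lit 770058) (nat_lit 5) .nil))))))) (.g (nat_lit 6) .nil .nil)))) (.nd (nat_lit 5) 
(.lf (nat_lit 65236) (.g (nat_lit 1487) (.e (nat_lit 1595) (nat_lit 111) (.e (nat_lit 360492) (nat_lit 22) (.e (nat_lit 778465) (nat_lit 11) (.e (nat_lit 24628) (nat_lit 9) (.e (nat_lit 335878) (nat_lit 0) .nil))))) .nil)) 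
(.lf (nat_lit 65268) (.g (nat_lit 892) (.e (nat_lit 1595) (nat_lit 111) (.e (nat_lit 360493) (nat_lit 27) (.e (nat_lit 819221) (nat_lit 6) (.e (nat_lit 188440) (nat_lit 20) (.e (nat_lit 3289) (nat_lit 201) (.e (nat_lit 565251) (nat_lit 0) .nil)))))) (.g (nat_lit 4) .nil .nil))))) (.nd (nat_lit 4) (.nd (nat_lit 5) 
(.lf (nat_lit 65228) (.g (nat_lit 1941) (.e (nat_lit 1595) (nat_lit 111) (.e (nat_lit 360489) (nat_lit 21) (.e (nat_lit 770074) (nat_lit 10) (.e (nat_lit 81946) (nat_lit 20) (.e (nat_lit 2280) (nat_lit 150) (.e (nat_lit 770057) (nat_lit 5) .nil)))))) (.g (nat_lit 5) .nil .nil))) 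
(.lf (nat_lit 65260) (.g (nat_lit 1006) (.e (nat_lit 1595) (nat_lit 111) (.e (nat_lit 368384) (nat_lit 26) (.e (nat_lit 811029) (nat_lit 9) (.e (nat_lit 303140) (nat_lit 10) (.e (nat_lit 434241) (nat_lit 27) (.e (nat_lit 565251) (nat_lit 0) .nil)))))) (.g (nat_lit 4) .nil .nil)))) (.nd (nat_lit 5) 
(.lf (nat_lit 65244) (.g (nat_lit 2213) (.e (nat_lit 1595) (nat_lit 111) (.e (nat_lit 360492) (nat_lit 22) (.e (nat_lit 778465) (nat_lit 11) (.e (nat_lit 24665) (nat_lit 14) (.e (nat_lit 401413) (nat_lit 0) (.e (nat_lit 3459) (nat_lit 216) (.e (nat_lit 688144) (nat_lit 13) .nil))))))) (.g (nat_lit 4) .nil .nil))) 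
(.lf (nat_lit 65276) (.g (nat_lit 4539) (.e (nat_lit 1596) (nat_lit 111) (.e (nat_lit 360468) (nat_lit 3) (.e (nat_lit 516139) (nat_lit 7) (.e (nat_lit 409648) (nat_lit 18) (.e (nat_lit 303117) (nat_lit 2) (.e (nat_lit 196630) (nat_lit 9) .nil)))))) (.g (nat_lit 6) .nil .nil))))))) (.nd (nat_lit 2) (.nd (nat_lit 3) (.nd (nat_lit 4) (.nd (nat_lit 5) 
(.lf (nat_lit 65218) (.g (nat_lit 2159) (.e (nat_lit 1595) (nat_lit 111) (.e (nat_lit 360489) (nat_lit 21) (.e (nat_lit 770071) (nat_lit 8) (.e (nat_lit 65616) (nat_lit 10) (.e (nat_lit 344177) (nat_lit 43) (.e (nat_lit 770057) (nat_lit 5) .nil)))))) (.g (nat_lit 5) .nil .nil))) 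
(.lf (nat_lit 65250) (.g (nat_lit 3201) (.e (nat_lit 1595) (nat_lit 111) (.e (nat_lit 360492) (nat_lit 22) (.e (nat_lit 778466) (nat_lit 11) (.e (nat_lit 24617) (nat_lit 7) (.e (nat_lit 319505) (nat_lit 10) (.e (nat_lit 720) (nat_lit 64) (.e (nat_lit 688153) (nat_lit 13) .nil))))))) (.g (nat_lit 6) .nil .nil)))) (.nd (nat_lit 5) 
(.lf (nat_lit 65234) (.g (nat_lit 1514) (.e (nat_lit 1595) (nat_lit 111) (.e (nat_lit 360492) (nat_lit 22) (.e (nat_lit 778464) (nat_lit 11) (.e (nat_lit 24640) (nat_lit 10) (.e (nat_lit 344175) (nat_lit 43) (.e (nat_lit 770057) (nat_lit 5) .nil)))))) (.g (nat_lit 4) .nil .nil))) 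
(.lf (nat_lit 65266) (.g (nat_lit 1031) (.e (nat_lit 1595) (nat_lit 111) (.e (nat_lit 360493) (nat_lit 27) (.e (nat_lit 819221) (nat_lit 6) (.e (nat_lit 188439) (nat_lit 20) (.e (nat_lit 3288) (nat_lit 201) (.e (nat_lit 565252) (nat_lit 0) .nil)))))) (.g (nat_lit 6) .nil .nil))))) (.nd (nat_lit 4) (.nd (nat_lit 5) 
(.lf (nat_lit 65226) (.g (nat_lit 1513) (.e (nat_lit 1595) (nat_lit 111) (.e (nat_lit 360489) (nat_lit 21) (.e (nat_lit 770072) (nat_lit 8) (.e (nat_lit 65610) (nat_lit 10) (.e (nat_lit 344177) (nat_lit 43) (.e (nat_lit 770055) (nat_lit 5) .nil)))))) (.g (nat_lit 4) .nil .nil))) 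
(.lf (nat_lit 65258) (.g (nat_lit 1805) (.e (nat_lit 1595) (nat_lit 111) (.e (nat_lit 360492) (nat_lit 22) (.e (nat_lit 778466) (nat_lit 11) (.e (nat_lit 24641) (nat_lit 10) (.e (nat_lit 344175) (nat_lit 43) (.e (nat_lit 770058) (nat_lit 5) .nil)))))) (.g (nat_lit 4) .nil .nil)))) (.nd (nat_lit 5) 
(.lf (nat_lit 65242) (.g (nat_lit 3106) (.e (nat_lit 1595) (nat_lit 111) (.e (nat_lit 360492) (nat_lit 22) (.e (nat_lit 778465) (nat_lit 11) (.e (nat_lit 24640) (nat_lit 10) (.e (nat_lit 344177) (nat_lit 43) (.e (nat_lit 770057) (nat_lit 5) .nil)))))) (.g (nat_lit 0) .nil .nil))) 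
(.lf (nat_lit 65274) (.g (nat_lit 1858) (.e (nat_lit 1596) (nat_lit 111) (.e (nat_lit 360466) (nat_lit 3) (.e (nat_lit 516139) (nat_lit 7) (.e (nat_lit 417536) (nat_lit 18) .nil)))) .nil))))) (.nd (nat_lit 3) (.nd (nat_lit 4) (.nd (nat_lit 5) 
(.lf (nat_lit 65222) (.g (nat_lit 2359) (.e (nat_lit 1595) (nat_lit 111) (.e (nat_lit 360489) (nat_lit 21) (.e (nat_lit 770071) (nat_lit 8) (.e (nat_lit 65619) (nat_lit 10) (.e (nat_lit 344177) (nat_lit 43) (.e (nat_lit 770057) (nat_lit 5) .nil)))))) (.g (nat_lit 5) .nil .nil))) 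
(.lf (nat_lit 65254) (.g (nat_lit 2593) (.e (nat_lit 1595) (nat_lit 111) (.e (nat_lit 360492) (nat_lit 22) (.e (nat_lit 778466) (nat_lit 11) (.e (nat_lit 24639) (nat_lit 10) (.e (nat_lit 344177) (nat_lit 43) (.e (nat_lit 770058) (nat_lit 5) .nil)))))) (.g (nat_lit 0) .nil .nil)))) (.nd (nat_lit 5) 
(.lf (nat_lit 65238) (.g (nat_lit 3007) (.e (nat_lit 1595) (nat_lit 111) (.e (nat_lit 360492) (nat_lit 22) (.e (nat_lit 778465) (nat_lit 11) (.e (nat_lit 24639) (nat_lit 10) (.e (nat_lit 344177) (nat_lit 43) (.e (nat_lit 770057) (nat_lit 5) .nil)))))) (.g (nat_lit 6) .nil .nil))) 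
(.lf (nat_lit 65270) (.g (nat_lit 4673) (.e (nat_lit 1596) (nat_lit 111) (.e (nat_lit 360466) (nat_lit 3) (.e (nat_lit 516138) (nat_lit 7) (.e (nat_lit 409645) (nat_lit 18) (.e (nat_lit 303117) (nat_lit 2) (.e (nat_lit 196630) (nat_lit 9) .nil)))))) (.g (nat_lit 0) .nil .nil))))) (.nd (nat_lit 4) (.nd (nat_lit 5) 
(.lf (nat_lit 65230) (.g (nat_lit 1560) (.e (nat_lit 1595) (nat_lit 111) (.e (nat_lit 360492) (nat_lit 22) (.e (nat_lit 778362) (nat_lit 9) (.e (nat_lit 314) (nat_lit 23) (.e (nat_lit 352297) (nat_lit 20) (.e (nat_lit 2279) (nat_lit 150) (.e (nat_lit 770057) (nat_lit 5) .nil))))))) (.g (nat_lit 4) .nil .nil))) 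
(.lf (nat_lit 65262) (.g (nat_lit 888) (.e (nat_lit 1595) (nat_lit 111) (.e (nat_lit 360493) (nat_lit 27) (.e (nat_lit 819219) (nat_lit 4) (.e (nat_lit 172107) (nat_lit 10) (.e (nat_lit 434241) (nat_lit 27) (.e (nat_lit 565251) (nat_lit 0) .nil)))))) (.g (nat_lit 4) .nil .nil)))) (.nd (nat_lit 5) 
(.lf (nat_lit 65246) (.g (nat_lit 4191) (.e (nat_lit 1595) (nat_lit 111) (.e (nat_lit 360492) (nat_lit 22) (.e (nat_lit 778465) (nat_lit 11) (.e (nat_lit 24665) (nat_lit 14) (.e (nat_lit 401414) (nat_lit 0) (.e (nat_lit 3459) (nat_lit 216) (.e (nat_lit 688144) (nat_lit 13) .nil))))))) (.g (nat_lit 0) .nil .nil))) 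
(.lf (nat_lit 65278) (.g (nat_lit 1937) (.e (nat_lit 1596) (nat_lit 111) (.e (nat_lit 360471) (nat_lit 7) (.e (nat_lit 548889) (nat_lit 9) (.e (nat_lit 65583) (nat_lit 7) .nil)))) .nil))))))) (.nd (nat_lit 1) (.nd (nat_lit 2) (.nd (nat_lit 3) (.nd (nat_lit 4) (.nd (nat_lit 5) 
(.lf (nat_lit 65217) (.g (nat_lit 2075) (.e (nat_lit 1595) (nat_lit 111) (.e (nat_lit 360489) (nat_lit 21) (.e (nat_lit 770071) (nat_lit 8) (.e (nat_lit 65611) (nat_lit 10) (.e (nat_lit 344177) (nat_lit 43) (.e (nat_lit 770058) (nat_lit 5) .nil)))))) (.g (nat_lit 5) .nil .nil))) 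
(.lf (nat_lit 65249) (.g (nat_lit 2903) (.e (nat_lit 1595) (nat_lit 111) (.e (nat_lit 360492) (nat_lit 22) (.e (nat_lit 778466) (nat_lit 11) (.e (nat_lit 24617) (nat_lit 7) (.e (nat_lit 319504) (nat_lit 10) (.e (nat_lit 726) (nat_lit 65) (.e (nat_lit 696350) (nat_lit 13) .nil))))))) (.g (nat_lit 5) .nil .nil)))) (.nd (nat_lit 5) 
(.lf (nat_lit 65233) (.g (nat_lit 1979) (.e (nat_lit 1595) (nat_lit 111) (.e (nat_lit 360492) (nat_lit 22) (.e (nat_lit 778362) (nat_lit 9) (.e (nat_lit 324) (nat_lit 24) (.e (nat_lit 360489) (nat_lit 21) (.e (nat_lit 770058) (nat_lit 5) .nil)))))) (.g (nat_lit 0) .nil .nil))) 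
(.lf (nat_lit 65265) (.g (nat_lit 969) (.e (nat_lit 1595) (nat_lit 111) (.e (nat_lit 360493) (nat_lit 27) (.e (nat_lit 819221) (nat_lit 6) (.e (nat_lit 188434) (nat_lit 20) (.e (nat_lit 3289) (nat_lit 201) (.e (nat_lit 565251) (nat_lit 0) .nil)))))) (.g (nat_lit 4) .nil .nil))))) (.nd (nat_lit 4) (.nd (nat_lit 5) 
(.lf (nat_lit 65225) (.g (nat_lit 2227) (.e (nat_lit 1595) (nat_lit 111) (.e (nat_lit 360489) (nat_lit 21) (.e (nat_lit 770071) (nat_lit 8) (.e (nat_lit 65620) (nat_lit 10) (.e (nat_lit 344177) (nat_lit 43) (.e (nat_lit 770058) (nat_lit 5) .nil)))))) (.g (nat_lit 6) .nil .nil))) 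
(.lf (nat_lit 65257) (.g (nat_lit 1538) (.e (nat_lit 1595) (nat_lit 111) (.e (nat_lit 360492) (nat_lit 22) (.e (nat_lit 778466) (nat_lit 11) (.e (nat_lit 24641) (nat_lit 10) (.e (nat_lit 344175) (nat_lit 43) .nil))))) .nil))) (.nd (nat_lit 5) 
(.lf (nat_lit 65241) (.g (nat_lit 1976) (.e (nat_lit 1595) (nat_lit 111) (.e (nat_lit 360492) (nat_lit 22) (.e (nat_lit 778465) (nat_lit 11) (.e (nat_lit 24640) (nat_lit 10) (.e (nat_lit 344177) (nat_lit 43) (.e (nat_lit 770055) (nat_lit 5) .nil)))))) (.g (nat_lit 4) .nil .nil))) 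
(.lf (nat_lit 65273) (.g (nat_lit 4796) (.e (nat_lit 1596) (nat_lit 111) (.e (nat_lit 360466) (nat_lit 3) (.e (nat_lit 516139) (nat_lit 7) (.e (nat_lit 409646) (nat_lit 18) (.e (nat_lit 303117) (nat_lit 2) (.e (nat_lit 196630) (nat_lit 9) .nil)))))) (.g (nat_lit 0) .nil .nil)))))) (.nd (nat_lit 3) (.nd (nat_lit 4) (.nd (nat_lit 5) 
(.lf (nat_lit 65221) (.g (nat_lit 2515) (.e (nat_lit 1595) (nat_lit 111) (.e (nat_lit 360489) (nat_lit 21) (.e (nat_lit 770071) (nat_lit 8) (.e (nat_lit 65617) (nat_lit 10) (.e (nat_lit 344177) (nat_lit 43) (.e (nat_lit 770058) (nat_lit 5) .nil)))))) (.g (nat_lit 6) .nil .nil))) 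
(.lf (nat_lit 65253) (.g (nat_lit 1548) (.e (nat_lit 1595) (nat_lit 111) (.e (nat_lit 360492) (nat_lit 22) (.e (nat_lit 778466) (nat_lit 11) (.e (nat_lit 24639) (nat_lit 10) (.e (nat_lit 344177) (nat_lit 43) (.e (nat_lit 770055) (nat_lit 5) .nil)))))) (.g (nat_lit 4) .nil .nil)))) (.nd (nat_lit 5) 
(.lf (nat_lit 65237) (.g (nat_lit 1853) (.e (nat_lit 1595) (nat_lit 111) (.e (nat_lit 360492) (nat_lit 22) (.e (nat_lit 778465) (nat_lit 11) (.e (nat_lit 24639) (nat_lit 10) (.e (nat_lit 344177) (nat_lit 43) (.e (nat_lit 770055) (nat_lit 5) .nil)))))) (.g (nat_lit 4) .nil .nil))) 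
(.lf (nat_lit 65269) (.g (nat_lit 906) (.e (nat_lit 1595) (nat_lit 111) (.e (nat_lit 360493) (nat_lit 27) (.e (nat_lit 819221) (nat_lit 6) (.e (nat_lit 188441) (nat_lit 20) (.e (nat_lit 3289) (nat_lit 201) (.e (nat_lit 565251) (nat_lit 0) .nil)))))) (.g (nat_lit 4) .nil .nil))))) (.nd (nat_lit 4) (.nd (nat_lit 5) 
(.lf (nat_lit 65229) (.g (nat_lit 2991) (.e (nat_lit 1595) (nat_lit 111) (.e (nat_lit 360492) (nat_lit 22) (.e (nat_lit 778362) (nat_lit 9) (.e (nat_lit 314) (nat_lit 23) (.e (nat_lit 352290) (nat_lit 20) (.e (nat_lit 2281) (nat_lit 150) (.e (nat_lit 770058) (nat_lit 5) .nil))))))) (.g (nat_lit 0) .nil .nil))) 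
(.lf (nat_lit 65261) (.g (nat_lit 1458) (.e (nat_lit 1595) (nat_lit 111) (.e (nat_lit 360493) (nat_lit 27) (.e (nat_lit 819219) (nat_lit 4) (.e (nat_lit 172106) (nat_lit 10) (.e (nat_lit 434241) (nat_lit 27) (.e (nat_lit 565251) (nat_lit 0) .nil)))))) (.g (nat_lit 5) .nil .nil)))) (.nd (nat_lit 5) 
(.lf (nat_lit 65245) (.g (nat_lit 2187) (.e (nat_lit 1595) (nat_lit 111) (.e (nat_lit 360492) (nat_lit 22) (.e (nat_lit 778465) (nat_lit 11) (.e (nat_lit 24665) (nat_lit 14) (.e (nat_lit 401413) (nat_lit 0) (.e (nat_lit 3459) (nat_lit 216) (.e (nat_lit 688151) (nat_lit 13) .nil))))))) (.g (nat_lit 4) .nil .nil))) 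
(.lf (nat_lit 65277) (.g (nat_lit 4498) (.e (nat_lit 1596) (nat_lit 111) (.e (nat_lit 360468) (nat_lit 3) (.e (nat_lit 516139) (nat_lit 7) (.e (nat_lit 409649) (nat_lit 18) (.e (nat_lit 303117) (nat_lit 2) (.e (nat_lit 196630) (nat_lit 9) .nil)))))) (.g (nat_lit 0) .nil .nil))))))) (.nd (nat_lit 2) (.nd (nat_lit 3) (.nd (nat_lit 4) (.nd (nat_lit 5) 
(.lf (nat_lit 65219) (.g (nat_lit 1690) (.e (nat_lit 1595) (nat_lit 111) (.e (nat_lit 360489) (nat_lit 21) (.e (nat_lit 770071) (nat_lit 8) (.e (nat_lit 65617) (nat_lit 10) (.e (nat_lit 344177) (nat_lit 43) (.e (nat_lit 770055) (nat_lit 5) .nil)))))) (.g (nat_lit 4) .nil .nil))) 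
(.lf (nat_lit 65251) (.g (nat_lit 2754) (.e (nat_lit 1595) (nat_lit 111) (.e (nat_lit 360492) (nat_lit 22) (.e (nat_lit 778466) (nat_lit 11) (.e (nat_lit 24617) (nat_lit 7) (.e (nat_lit 319505) (nat_lit 10) (.e (nat_lit 726) (nat_lit 65) (.e (nat_lit 696350) (nat_lit 13) .nil))))))) (.g (nat_lit 5) .nil .nil)))) (.nd (nat_lit 5) 
(.lf (nat_lit 65235) (.g (nat_lit 1655) (.e (nat_lit 1595) (nat_lit 111) (.e (nat_lit 360492) (nat_lit 22) (.e (nat_lit 778464) (nat_lit 11) (.e (nat_lit 24640) (nat_lit 10) (.e (nat_lit 344175) (nat_lit 43) (.e (nat_lit 770058) (nat_lit 5) .nil)))))) (.g (nat_lit 4) .nil .nil))) 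
(.lf (nat_lit 65267) (.g (nat_lit 892) (.e (nat_lit 1595) (nat_lit 111) (.e (nat_lit 360493) (nat_lit 27) (.e (nat_lit 819221) (nat_lit 6) (.e (nat_lit 188440) (nat_lit 20) (.e (nat_lit 3288) (nat_lit 201) (.e (nat_lit 565252) (nat_lit 0) .nil)))))) (.g (nat_lit 4) .nil .nil))))) (.nd (nat_lit 4) (.nd (nat_lit 5) 
(.lf (nat_lit 65227) (.g (nat_lit 1370) (.e (nat_lit 1595) (nat_lit 111) (.e (nat_lit 360489) (nat_lit 21) (.e (nat_lit 770074) (nat_lit 10) (.e (nat_lit 81943) (nat_lit 20) (.e (nat_lit 2280) (nat_lit 150) (.e (nat_lit 770057) (nat_lit 5) .nil)))))) (.g (nat_lit 4) .nil .nil))) 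
(.lf (nat_lit 65259) (.g (nat_lit 1569) (.e (nat_lit 1595) (nat_lit 111) (.e (nat_lit 360492) (nat_lit 22) (.e (nat_lit 778466) (nat_lit 11) (.e (nat_lit 24641) (nat_lit 10) (.e (nat_lit 344177) (nat_lit 43) (.e (nat_lit 770055) (nat_lit 5) .nil)))))) (.g (nat_lit 4) .nil .nil)))) (.nd (nat_lit 5) 
(.lf (nat_lit 65243) (.g (nat_lit 1749) (.e (nat_lit 1595) (nat_lit 111) (.e (nat_lit 360492) (nat_lit 22) (.e (nat_lit 778465) (nat_lit 11) (.e (nat_lit 24641) (nat_lit 10) (.e (nat_lit 344177) (nat_lit 43) (.e (nat_lit 770058) (nat_lit 5) .nil)))))) (.g (nat_lit 4) .nil .nil))) 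
(.lf (nat_lit 65275) (.g (nat_lit 3511) (.e (nat_lit 1596) (nat_lit 111) (.e (nat_lit 360468) (nat_lit 3) (.e (nat_lit 516139) (nat_lit 7) (.e (nat_lit 409648) (nat_lit 18) (.e (nat_lit 303116) (nat_lit 2) (.e (nat_lit 196630) (nat_lit 9) .nil)))))) (.g (nat_lit 5) .nil .nil)))))) (.nd (nat_lit 3) (.nd (nat_lit 4) (.nd (nat_lit 5) 
(.lf (nat_lit 65223) (.g (nat_lit 2562) (.e (nat_lit 1595) (nat_lit 111) (.e (nat_lit 360489) (nat_lit 21) (.e (nat_lit 770071) (nat_lit 8) (.e (nat_lit 65619) (nat_lit 10) (.e (nat_lit 344177) (nat_lit 43) (.e (nat_lit 770058) (nat_lit 5) .nil)))))) (.g (nat_lit 6) .nil .nil))) 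
(.lf (nat_lit 65255) (.g (nat_lit 2816) (.e (nat_lit 1595) (nat_lit 111) (.e (nat_lit 360492) (nat_lit 22) (.e (nat_lit 778466) (nat_lit 11) (.e (nat_lit 24640) (nat_lit 10) (.e (nat_lit 344175) (nat_lit 43) (.e (nat_lit 770058) (nat_lit 5) .nil)))))) (.g (nat_lit 0) .nil .nil)))) (.nd (nat_lit 5) 
(.lf (nat_lit 65239) (.g (nat_lit 2241) (.e (nat_lit 1595) (nat_lit 111) (.e (nat_lit 360492) (nat_lit 22) (.e (nat_lit 778465) (nat_lit 11) (.e (nat_lit 24640) (nat_lit 10) (.e (nat_lit 344175) (nat_lit 43) (.e (nat_lit 770057) (nat_lit 5) .nil)))))) (.g (nat_lit 5) .nil .nil))) 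
(.lf (nat_lit 65271) (.g (nat_lit 4948) (.e (nat_lit 1596) (nat_lit 111) (.e (nat_lit 360466) (nat_lit 3) (.e (nat_lit 516138) (nat_lit 7) (.e (nat_lit 409646) (nat_lit 18) (.e (nat_lit 303117) (nat_lit 2) (.e (nat_lit 196630) (nat_lit 9) .nil)))))) (.g (nat_lit 0) .nil .nil))))) (.nd (nat_lit 4) (.nd (nat_lit 5) 
(.lf (nat_lit 65231) (.g (nat_lit 2950) (.e (nat_lit 1595) (nat_lit 111) (.e (nat_lit 360492) (nat_lit 22) (.e (nat_lit 778362) (nat_lit 9) (.e (nat_lit 314) (nat_lit 23) (.e (nat_lit 352297) (nat_lit 20) (.e (nat_lit 2281) (nat_lit 150) (.e (nat_lit 770058) (nat_lit 5) .nil))))))) (.g (nat_lit 0) .nil .nil))) 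
(.lf (nat_lit 65263) (.g (nat_lit 1201) (.e (nat_lit 1595) (nat_lit 111) (.e (nat_lit 360493) (nat_lit 27) (.e (nat_lit 819219) (nat_lit 4) (.e (nat_lit 172113) (nat_lit 10) (.e (nat_lit 434241) (nat_lit 27) (.e (nat_lit 565251) (nat_lit 0) .nil)))))) (.g (nat_lit 4) .nil .nil)))) (.nd (nat_lit 5) 
(.lf (nat_lit 65247) (.g (nat_lit 3699) (.e (nat_lit 1595) (nat_lit 111) (.e (nat_lit 360492) (nat_lit 22) (.e (nat_lit 778465) (nat_lit 11) (.e (nat_lit 24665) (nat_lit 14) (.e (nat_lit 401414) (nat_lit 0) (.e (nat_lit 3468) (nat_lit 217) (.e (nat_lit 696350) (nat_lit 13) .nil))))))) (.g (nat_lit 6) .nil .nil))) 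
(.lf (nat_lit 65279) (.g (nat_lit 2082) (.e (nat_lit 1596) (nat_lit 111) (.e (nat_lit 360471) (nat_lit 7) (.e (nat_lit 548889) (nat_lit 9) (.e (nat_lit 65586) (nat_lit 7) .nil)))) .nil))))))))

noncomputable def tv898 : DT := (.nd (nat_lit 0) (.nd (nat_lit 1) (.nd (nat_lit 2) (.nd (nat_lit 3) (.nd (nat_lit 4) (.nd (nat_lit 5) 
(.lf (nat_lit 65280) (.g (nat_lit 1686) (.e (nat_lit 1596) (nat_lit 111) (.e (nat_lit 360471) (nat_lit 7) (.e (nat_lit 548889) (nat_lit 9) (.e (nat_lit 65630) (nat_lit 14) .nil)))) .nil)) 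
(.lf (nat_lit 65312) (.g (nat_lit 2818) (.e (nat_lit 1596) (nat_lit 111) (.e (nat_lit 360475) (nat_lit 8) (.e (nat_lit 557091) (nat_lit 12) (.e (nat_lit 164022) (nat_lit 46) (.e (nat_lit 704736) (nat_lit 11) .nil))))) .nil))) (.nd (nat_lit 5) 
(.lf (nat_lit 65296) (.g (nat_lit 2123) (.e (nat_lit 1596) (nat_lit 111) (.e (nat_lit 360474) (nat_lit 8) (.e (nat_lit 557093) (nat_lit 12) (.e (nat_lit 164023) (nat_lit 46) .nil)))) .nil)) 
(.lf (nat_lit 65328) (.g (nat_lit 2455) (.e (nat_lit 1597) (nat_lit 111) (.e (nat_lit 360449) (nat_lit 0) (.e (nat_lit 7125) (nat_lit 382) (.e (nat_lit 1201) (nat_lit 88) (.e (nat_lit 65610) (nat_lit 10) (.e (nat_lit 344173) (nat_lit 42) (.e (nat_lit 761868) (nat_lit 5) .nil))))))) (.g (nat_lit 5) .nil .nil))))) (.nd (nat_lit 4) (.nd (nat_lit 5) 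
(.lf (nat_lit 65288) (.g (nat_lit 1564) (.e (nat_lit 1596) (nat_lit 111) (.e (nat_lit 360473) (nat_lit 8) (.e (nat_lit 557091) (nat_lit 12) (.e (nat_lit 164022) (nat_lit 46) .nil)))) .nil)) 
(.lf (nat_lit 65320) (.g (nat_lit 2900) (.e (nat_lit 1597) (nat_lit 111) (.e (nat_lit 360449) (nat_lit 0) (.e (nat_lit 7122) (nat_lit 382) (.e (nat_lit 1201) (nat_lit 88) (.e (nat_lit 65617) (nat_lit 10) (.e (nat_lit 344174) (nat_lit 42) (.e (nat_lit 761869) (nat_lit 5) .nil))))))) (.g (nat_lit 6) .nil .nil)))) (.nd (nat_lit 5) 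
(.lf (nat_lit 65304) (.g (nat_lit 3113) (.e (nat_lit 1596) (nat_lit 111) (.e (nat_lit 360475) (nat_lit 8) (.e (nat_lit 557086) (nat_lit 11) (.e (nat_lit 24665) (nat_lit 14) (.e (nat_lit 401423) (nat_lit 2) .nil))))) .nil)) 
(.lf (nat_lit 65336) (.g (nat_lit 2626) (.e (nat_lit 1597) (nat_lit 111) (.e (nat_lit 360449) (nat_lit 0) (.e (nat_lit 7261) (nat_lit 384) (.e (nat_lit 57412) (nat_lit 12) (.e (nat_lit 336176) (nat_lit 10) (.e (nat_lit 344174) (nat_lit 42) (.e (nat_lit 761869) (nat_lit 5) .nil))))))) (.g (nat_lit 7) .nil .nil)))))) (.nd (nat_lit 3) (.nd (nat_lit 4) (.nd (nat_lit 5) 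
(.lf (nat_lit 65284) (.g (nat_lit 3987) (.e (nat_lit 1596) (nat_lit 111) (.e (nat_lit 360473) (nat_lit 8) (.e (nat_lit 557090) (nat_lit 12) (.e (nat_lit 164020) (nat_lit 45) (.e (nat_lit 696343) (nat_lit 8) .nil))))) .nil)) 
(.lf (nat_lit 65316) (.g (nat_lit 2935) (.e (nat_lit 1597) (nat_lit 111) (.e (nat_lit 360449) (nat_lit 0) (.e (nat_lit 7122) (nat_lit 382) (.e (nat_lit 1201) (nat_lit 88) (.e (nat_lit 65610) (nat_lit 10) (.e (nat_lit 344174) (nat_lit 42) (.e (nat_lit 761867) (nat_lit 5) .nil))))))) (.g (nat_lit 6) .nil .nil)))) (.nd (nat_lit 5) 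
(.lf (nat_lit 65300) (.g (nat_lit 2222) (.e (nat_lit 1596) (nat_lit 111) (.e (nat_lit 360474) (nat_lit 8) (.e (nat_lit 557094) (nat_lit 12) (.e (nat_lit 164022) (nat_lit 46) (.e (nat_lit 704737) (nat_lit 11) .nil))))) .nil)) 
(.lf (nat_lit 65332) (.g (nat_lit 2551) (.e (nat_lit 1597) (nat_lit 111) (.e (nat_lit 360449) (nat_lit 0) (.e (nat_lit 7261) (nat_lit 384) (.e (nat_lit 57412) (nat_lit 12) (.e (nat_lit 336173) (nat_lit 10) (.e (nat_lit 344174) (nat_lit 42) (.e (nat_lit 761867) (nat_lit 5) .nil))))))) (.g (nat_lit 6) .nil .nil))))) (.nd (nat_lit 4) (.nd (nat_lit 5) 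
(.lf (nat_lit 65292) (.g (nat_lit 3477) (.e (nat_lit 1596) (nat_lit 111) (.e (nat_lit 360474) (nat_lit 8) (.e (nat_lit 557091) (nat_lit 12) (.e (nat_lit 164022) (nat_lit 46) (.e (nat_lit 704738) (nat_lit 11) .nil))))) .nil)) 
(.lf (nat_lit 65324) (.g (nat_lit 2721) (.e (nat_lit 1597) (nat_lit 111) (.e (nat_lit 360449) (nat_lit 0) (.e (nat_lit 7124) (nat_lit 382) (.e (nat_lit 1201) (nat_lit 88) (.e (nat_lit 65617) (nat_lit 10) (.e (nat_lit 344174) (nat_lit 42) (.e (nat_lit 761868) (nat_lit 5) .nil))))))) (.g (nat_lit 6) .nil .nil)))) (.nd (nat_lit 5) 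
(.lf (nat_lit 65308) (.g (nat_lit 4412) (.e (nat_lit 1596) (nat_lit 111) (.e (nat_lit 360475) (nat_lit 8) (.e (nat_lit 557090) (nat_lit 12) (.e (nat_lit 164020) (nat_lit 45) (.e (nat_lit 696344) (nat_lit 8) (.e (nat_lit 172062) (nat_lit 2) (.e (nat_lit 196630) (nat_lit 9) .nil))))))) (.g (nat_lit 5) .nil .nil))) 
(.lf (nat_lit 65340) (.g (nat_lit 1486) (.e (nat_lit 1597) (nat_lit 111) (.e (nat_lit 360449) (nat_lit 0) (.e (nat_lit 7261) (nat_lit 384) (.e (nat_lit 57427) (nat_lit 15) (.e (nat_lit 360488) (nat_lit 20) (.e (nat_lit 761867) (nat_lit 5) .nil)))))) (.g (nat_lit 4) .nil .nil))))))) (.nd (nat_lit 2) (.nd (nat_lit 3) (.nd (nat_lit 4) (.nd (nat_lit 5) 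
(.lf (nat_lit 65282) (.g (nat_lit 1400) (.e (nat_lit 1596) (nat_lit 111) (.e (nat_lit 360473) (nat_lit 8) (.e (nat_lit 557090) (nat_lit 12) .nil))) .nil)) 
(.lf (nat_lit 65314) (.g (nat_lit 2284) (.e (nat_lit 1596) (nat_lit 111) (.e (nat_lit 360475) (nat_lit 8) (.e (nat_lit 557091) (nat_lit 12) (.e (nat_lit 171776) (nat_lit 48) .nil)))) .nil))) (.nd (nat_lit 5) 
(.lf (nat_lit 65298) (.g (nat_lit 1655) (.e (nat_lit 1596) (nat_lit 111) (.e (nat_lit 360474) (nat_lit 8) (.e (nat_lit 557094) (nat_lit 12) (.e (nat_lit 164022) (nat_lit 46) .nil)))) .nil)) 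
(.lf (nat_lit 65330) (.g (nat_lit 3442) (.e (nat_lit 1597) (nat_lit 111) (.e (nat_lit 360449) (nat_lit 0) (.e (nat_lit 7125) (nat_lit 382) (.e (nat_lit 1201) (nat_lit 88) (.e (nat_lit 65610) (nat_lit 10) (.e (nat_lit 344174) (nat_lit 42) (.e (nat_lit 761866) (nat_lit 5) .nil))))))) (.g (nat_lit 7) .nil .nil))))) (.nd (nat_lit 4) (.nd (nat_lit 5) 
(.lf (nat_lit 65290) (.g (nat_lit 1683) (.e (nat_lit 1596) (nat_lit 111) (.e (nat_lit 360473) (nat_lit 8) (.e (nat_lit 557093) (nat_lit 12) (.e (nat_lit 164022) (nat_lit 46) (.e (nat_lit 704738) (nat_lit 11) .nil))))) .nil)) 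
(.lf (nat_lit 65322) (.g (nat_lit 3078) (.e (nat_lit 1597) (nat_lit 111) (.e (nat_lit 360449) (nat_lit 0) (.e (nat_lit 7124) (nat_lit 382) (.e (nat_lit 1201) (nat_lit 88) (.e (nat_lit 65610) (nat_lit 10) (.e (nat_lit 344174) (nat_lit 42) (.e (nat_lit 761869) (nat_lit 5) .nil))))))) (.g (nat_lit 6) .nil .nil)))) (.nd (nat_lit 5) 
(.lf (nat_lit 65306) (.g (nat_lit 865) (.e (nat_lit 1596) (nat_lit 111) (.e (nat_lit 360475) (nat_lit 8) (.e (nat_lit 557089) (nat_lit 12) .nil))) .nil)) 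
(.lf (nat_lit 65338) (.g (nat_lit 2045) (.e (nat_lit 1597) (nat_lit 111) (.e (nat_lit 360449) (nat_lit 0) (.e (nat_lit 7261) (nat_lit 384) (.e (nat_lit 57426) (nat_lit 15) (.e (nat_lit 360488) (nat_lit 20) (.e (nat_lit 761869) (nat_lit 5) .nil)))))) (.g (nat_lit 0) .nil .nil)))))) (.nd (nat_lit 3) (.nd (nat_lit 4) (.nd (nat_lit 5) 
(.lf (nat_lit 65286) (.g (nat_lit 5686) (.e (nat_lit 1596) (nat_lit 111) (.e (nat_lit 360473) (nat_lit 8) (.e (nat_lit 557090) (nat_lit 12) (.e (nat_lit 164020) (nat_lit 45) (.e (nat_lit 696344) (nat_lit 8) (.e (nat_lit 172064) (nat_lit 2) (.e (nat_lit 196630) (nat_lit 9) .nil))))))) (.g (nat_lit 6) .nil .nil))) 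
(.lf (nat_lit 65318) (.g (nat_lit 2863) (.e (nat_lit 1597) (nat_lit 111) (.e (nat_lit 360449) (nat_lit 0) (.e (nat_lit 7122) (nat_lit 382) (.e (nat_lit 1201) (nat_lit 88) (.e (nat_lit 65617) (nat_lit 10) (.e (nat_lit 344174) (nat_lit 42) (.e (nat_lit 761867) (nat_lit 5) .nil))))))) (.g (nat_lit 6) .nil .nil)))) (.nd (nat_lit 5) 
(.lf (nat_lit 65302) (.g (nat_lit 3147) (.e (nat_lit 1596) (nat_lit 111) (.e (nat_lit 360475) (nat_lit 8) (.e (nat_lit 557086) (nat_lit 11) (.e (nat_lit 24664) (nat_lit 14) (.e (nat_lit 401423) (nat_lit 2) .nil))))) .nil)) 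
(.lf (nat_lit 65334) (.g (nat_lit 2661) (.e (nat_lit 1597) (nat_lit 111) (.e (nat_lit 360449) (nat_lit 0) (.e (nat_lit 7261) (nat_lit 384) (.e (nat_lit 57412) (nat_lit 12) (.e (nat_lit 336173) (nat_lit 10) (.e (nat_lit 344174) (nat_lit 42) (.e (nat_lit 761869) (nat_lit 5) .nil))))))) (.g (nat_lit 6) .nil .nil))))) (.nd (nat_lit 4) (.nd (nat_lit 5) 
(.lf (nat_lit 65294) (.g (nat_lit 2468) (.e (nat_lit 1596) (nat_lit 111) (.e (nat_lit 360474) (nat_lit 8) (.e (nat_lit 557093) (nat_lit 12) (.e (nat_lit 164022) (nat_lit 46) (.e (nat_lit 704736) (nat_lit 11) .nil))))) .nil)) 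
(.lf (nat_lit 65326) (.g (nat_lit 727) (.e (nat_lit 1597) (nat_lit 111) (.e (nat_lit 360449) (nat_lit 0) (.e (nat_lit 7124) (nat_lit 382) (.e (nat_lit 7936) (nat_lit 90) .nil)))) .nil))) (.nd (nat_lit 5) 
(.lf (nat_lit 65310) (.g (nat_lit 915) (.e (nat_lit 1596) (nat_lit 111) (.e (nat_lit 360475) (nat_lit 8) (.e (nat_lit 557091) (nat_lit 12) .nil))) .nil)) 
(.lf (nat_lit 65342) (.g (nat_lit 1645) (.e (nat_lit 1597) (nat_lit 111) (.e (nat_lit 360449) (nat_lit 0) (.e (nat_lit 7261) (nat_lit 384) (.e (nat_lit 57427) (nat_lit 15) (.e (nat_lit 360488) (nat_lit 20) (.e (nat_lit 761869) (nat_lit 5) .nil)))))) (.g (nat_lit 5) .nil .nil)))))))) (.nd (nat_lit 1) (.nd (nat_lit 2) (.nd (nat_lit 3) (.nd (nat_lit 4) (.nd (nat_lit 5) 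
(.lf (nat_lit 65281) (.g (nat_lit 5078) (.e (nat_lit 1596) (nat_lit 111) (.e (nat_lit 360473) (nat_lit 8) (.e (nat_lit 557087) (nat_lit 11) (.e (nat_lit 24662) (nat_lit 14) (.e (nat_lit 401425) (nat_lit 2) (.e (nat_lit 196630) (nat_lit 9) .nil)))))) (.g (nat_lit 5) .nil .nil))) 
(.lf (nat_lit 65313) (.g (nat_lit 2822) (.e (nat_lit 1596) (nat_lit 111) (.e (nat_lit 360475) (nat_lit 8) (.e (nat_lit 557091) (nat_lit 12) (.e (nat_lit 164022) (nat_lit 46) (.e (nat_lit 704737) (nat_lit 11) .nil))))) .nil))) (.nd (nat_lit 5) 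
(.lf (nat_lit 65297) (.g (nat_lit 2626) (.e (nat_lit 1596) (nat_lit 111) (.e (nat_lit 360474) (nat_lit 8) (.e (nat_lit 557093) (nat_lit 12) (.e (nat_lit 164023) (nat_lit 46) (.e (nat_lit 704738) (nat_lit 11) .nil))))) .nil)) 
(.lf (nat_lit 65329) (.g (nat_lit 2667) (.e (nat_lit 1597) (nat_lit 111) (.e (nat_lit 360449) (nat_lit 0) (.e (nat_lit 7125) (nat_lit 382) (.e (nat_lit 1201) (nat_lit 88) (.e (nat_lit 65610) (nat_lit 10) (.e (nat_lit 344173) (nat_lit 42) (.e (nat_lit 761869) (nat_lit 5) .nil))))))) (.g (nat_lit 6) .nil .nil))))) (.nd (nat_lit 4) (.nd (nat_lit 5) 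
(.lf (nat_lit 65289) (.g (nat_lit 2030) (.e (nat_lit 1596) (nat_lit 111) (.e (nat_lit 360473) (nat_lit 8) (.e (nat_lit 557091) (nat_lit 12) (.e (nat_lit 164022) (nat_lit 46) (.e (nat_lit 704738) (nat_lit 11) .nil))))) .nil)) 
(.lf (nat_lit 65321) (.g (nat_lit 1042) (.e (nat_lit 1597) (nat_lit 111) (.e (nat_lit 360449) (nat_lit 0) (.e (nat_lit 7122) (nat_lit 382) (.e (nat_lit 7936) (nat_lit 90) .nil)))) .nil))) (.nd (nat_lit 5) 
(.lf (nat_lit 65305) (.g (nat_lit 821) (.e (nat_lit 1596) (nat_lit 111) (.e (nat_lit 360475) (nat_lit 8) (.e (nat_lit 557087) (nat_lit 11) .nil))) .nil)) 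
(.lf (nat_lit 65337) (.g (nat_lit 1879) (.e (nat_lit 1597) (nat_lit 111) (.e (nat_lit 360449) (nat_lit 0) (.e (nat_lit 7261) (nat_lit 384) (.e (nat_lit 57426) (nat_lit 15) (.e (nat_lit 360488) (nat_lit 20) (.e (nat_lit 761867) (nat_lit 5) .nil)))))) (.g (nat_lit 0) .nil .nil)))))) (.nd (nat_lit 3) (.nd (nat_lit 4) (.nd (nat_lit 5) 
(.lf (nat_lit 65285) (.g (nat_lit 4540) (.e (nat_lit 1596) (nat_lit 111) (.e (nat_lit 360473) (nat_lit 8) (.e (nat_lit 557090) (nat_lit 12) (.e (nat_lit 164020) (nat_lit 45) (.e (nat_lit 696344) (nat_lit 8) (.e (nat_lit 172062) (nat_lit 2) (.e (nat_lit 196630) (nat_lit 9) .nil))))))) (.g (nat_lit 5) .nil .nil))) 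
(.lf (nat_lit 65317) (.g (nat_lit 2998) (.e (nat_lit 1597) (nat_lit 111) (.e (nat_lit 360449) (nat_lit 0) (.e (nat_lit 7122) (nat_lit 382) (.e (nat_lit 1201) (nat_lit 88) (.e (nat_lit 65610) (nat_lit 10) (.e (nat_lit 344174) (nat_lit 42) (.e (nat_lit 761868) (nat_lit 5) .nil))))))) (.g (nat_lit 6) .nil .nil)))) (.nd (nat_lit 5) 
(.lf (nat_lit 65301) (.g (nat_lit 1208) (.e (nat_lit 1596) (nat_lit 111) (.e (nat_lit 360475) (nat_lit 8) (.e (nat_lit 557086) (nat_lit 11) .nil))) .nil)) 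
(.lf (nat_lit 65333) (.g (nat_lit 2685) (.e (nat_lit 1597) (nat_lit 111) (.e (nat_lit 360449) (nat_lit 0) (.e (nat_lit 7261) (nat_lit 384) (.e (nat_lit 57412) (nat_lit 12) (.e (nat_lit 336173) (nat_lit 10) (.e (nat_lit 344174) (nat_lit 42) (.e (nat_lit 761868) (nat_lit 5) .nil))))))) (.g (nat_lit 6) .nil .nil))))) (.nd (nat_lit 4) (.nd (nat_lit 5) 
(.lf (nat_lit 65293) (.g (nat_lit 1807) (.e (nat_lit 1596) (nat_lit 111) (.e (nat_lit 360474) (nat_lit 8) (.e (nat_lit 557093) (nat_lit 12) (.e (nat_lit 164022) (nat_lit 46) .nil)))) .nil)) 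
(.lf (nat_lit 65325) (.g (nat_lit 2703) (.e (nat_lit 1597) (nat_lit 111) (.e (nat_lit 360449) (nat_lit 0) (.e (nat_lit 7124) (nat_lit 382) (.e (nat_lit 1201) (nat_lit 88) (.e (nat_lit 65617) (nat_lit 10) (.e (nat_lit 344174) (nat_lit 42) (.e (nat_lit 761869) (nat_lit 5) .nil))))))) (.g (nat_lit 6) .nil .nil)))) (.nd (nat_lit 5) 
(.lf (nat_lit 65309) (.g (nat_lit 5558) (.e (nat_lit 1596) (nat_lit 111) (.e (nat_lit 360475) (nat_lit 8) (.e (nat_lit 557090) (nat_lit 12) (.e (nat_lit 164020) (nat_lit 45) (.e (nat_lit 696344) (nat_lit 8) (.e (nat_lit 172064) (nat_lit 2) (.e (nat_lit 196630) (nat_lit 9) .nil))))))) (.g (nat_lit 6) .nil .nil))) 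
(.lf (nat_lit 65341) (.g (nat_lit 1666) (.e (nat_lit 1597) (nat_lit 111) (.e (nat_lit 360449) (nat_lit 0) (.e (nat_lit 7261) (nat_lit 384) (.e (nat_lit 57427) (nat_lit 15) (.e (nat_lit 360488) (nat_lit 20) (.e (nat_lit 761868) (nat_lit 5) .nil)))))) (.g (nat_lit 5) .nil .nil))))))) (.nd (nat_lit 2) (.nd (nat_lit 3) (.nd (nat_lit 4) (.nd (nat_lit 5) 
(.lf (nat_lit 65283) (.g (nat_lit 2799) (.e (nat_lit 1596) (nat_lit 111) (.e (nat_lit 360473) (nat_lit 8) (.e (nat_lit 557090) (nat_lit 12) (.e (nat_lit 164020) (nat_lit 45) .nil)))) .nil)) 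
(.lf (nat_lit 65315) (.g (nat_lit 948) (.e (nat_lit 1596) (nat_lit 111) (.e (nat_lit 360486) (nat_lit 18) (.e (nat_lit 671764) (nat_lit 6) (.e (nat_lit 81935) (nat_lit 20) .nil)))) .nil))) (.nd (nat_lit 5) 
(.lf (nat_lit 65299) (.g (nat_lit 2277) (.e (nat_lit 1596) (nat_lit 111) (.e (nat_lit 360474) (nat_lit 8) (.e (nat_lit 557094) (nat_lit 12) (.e (nat_lit 164022) (nat_lit 46) (.e (nat_lit 704736) (nat_lit 11) .nil))))) .nil)) 
(.lf (nat_lit 65331) (.g (nat_lit 2352) (.e (nat_lit 1597) (nat_lit 111) (.e (nat_lit 360449) (nat_lit 0) (.e (nat_lit 7125) (nat_lit 382) (.e (nat_lit 1224) (nat_lit 90) (.e (nat_lit 81946) (nat_lit 20) (.e (nat_lit 2270) (nat_lit 149) (.e (nat_lit 761867) (nat_lit 5) .nil))))))) (.g (nat_lit 5) .nil .nil))))) (.nd (nat_lit 4) (.nd (nat_lit 5) 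
(.lf (nat_lit 65291) (.g (nat_lit 2785) (.e (nat_lit 1596) (nat_lit 111) (.e (nat_lit 360474) (nat_lit 8) (.e (nat_lit 557091) (nat_lit 12) (.e (nat_lit 164020) (nat_lit 45) (.e (nat_lit 696344) (nat_lit 8) (.e (nat_lit 172064) (nat_lit 2) (.e (nat_lit 196630) (nat_lit 9) .nil))))))) (.g (nat_lit 4) .nil .nil))) 
(.lf (nat_lit 65323) (.g (nat_lit 2671) (.e (nat_lit 1597) (nat_lit 111) (.e (nat_lit 360449) (nat_lit 0) (.e (nat_lit 7124) (nat_lit 382) (.e (nat_lit 1201) (nat_lit 88) (.e (nat_lit 65617) (nat_lit 10) (.e (nat_lit 344174) (nat_lit 42) (.e (nat_lit 761867) (nat_lit 5) .nil))))))) (.g (nat_lit 6) .nil .nil)))) (.nd (nat_lit 5) 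
(.lf (nat_lit 65307) (.g (nat_lit 2354) (.e (nat_lit 1596) (nat_lit 111) (.e (nat_lit 360475) (nat_lit 8) (.e (nat_lit 557090) (nat_lit 12) (.e (nat_lit 164020) (nat_lit 45) .nil)))) .nil)) 
(.lf (nat_lit 65339) (.g (nat_lit 1557) (.e (nat_lit 1597) (nat_lit 111) (.e (nat_lit 360449) (nat_lit 0) (.e (nat_lit 7261) (nat_lit 384) (.e (nat_lit 57427) (nat_lit 15) (.e (nat_lit 360488) (nat_lit 20) (.e (nat_lit 761866) (nat_lit 5) .nil)))))) (.g (nat_lit 4) .nil .nil)))))) (.nd (nat_lit 3) (.nd (nat_lit 4) (.nd (nat_lit 5) 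
(.lf (nat_lit 65287) (.g (nat_lit 3981) (.e (nat_lit 1596) (nat_lit 111) (.e (nat_lit 360473) (nat_lit 8) (.e (nat_lit 557090) (nat_lit 12) (.e (nat_lit 164022) (nat_lit 46) .nil)))) .nil)) 
(.lf (nat_lit 65319) (.g (nat_lit 2915) (.e (nat_lit 1597) (nat_lit 111) (.e (nat_lit 360449) (nat_lit 0) (.e (nat_lit 7122) (nat_lit 382) (.e (nat_lit 1201) (nat_lit 88) (.e (nat_lit 65617) (nat_lit 10) (.e (nat_lit 344174) (nat_lit 42) (.e (nat_lit 761868) (nat_lit 5) .nil))))))) (.g (nat_lit 6) .nil .nil)))) (.nd (nat_lit 5) 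
(.lf (nat_lit 65303) (.g (nat_lit 2382) (.e (nat_lit 1596) (nat_lit 111) (.e (nat_lit 360475) (nat_lit 8) (.e (nat_lit 557086) (nat_lit 11) (.e (nat_lit 24665) (nat_lit 14) .nil)))) .nil)) 
(.lf (nat_lit 65335) (.g (nat_lit 2551) (.e (nat_lit 1597) (nat_lit 111) (.e (nat_lit 360449) (nat_lit 0) (.e (nat_lit 7261) (nat_lit 384) (.e (nat_lit 57412) (nat_lit 12) (.e (nat_lit 336176) (nat_lit 10) (.e (nat_lit 344174) (nat_lit 42) (.e (nat_lit 761867) (nat_lit 5) .nil))))))) (.g (nat_lit 7) .nil .nil))))) (.nd (nat_lit 4) (.nd (nat_lit 5) 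
(.lf (nat_lit 65295) (.g (nat_lit 2658) (.e (nat_lit 1596) (nat_lit 111) (.e (nat_lit 360474) (nat_lit 8) (.e (nat_lit 557093) (nat_lit 12) (.e (nat_lit 164022) (nat_lit 46) (.e (nat_lit 704737) (nat_lit 11) .nil))))) .nil)) 
(.lf (nat_lit 65327) (.g (nat_lit 2426) (.e (nat_lit 1597) (nat_lit 111) (.e (nat_lit 360449) (nat_lit 0) (.e (nat_lit 7125) (nat_lit 382) (.e (nat_lit 1201) (nat_lit 88) (.e (nat_lit 65610) (nat_lit 10) (.e (nat_lit 344173) (nat_lit 42) (.e (nat_lit 761866) (nat_lit 5) .nil))))))) (.g (nat_lit 5) .nil .nil)))) (.nd (nat_lit 5) 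
(.lf (nat_lit 65311) (.g (nat_lit 2197) (.e (nat_lit 1596) (nat_lit 111) (.e (nat_lit 360475) (nat_lit 8) (.e (nat_lit 557091) (nat_lit 12) (.e (nat_lit 164022) (nat_lit 46) .nil)))) .nil)) 
(.lf (nat_lit 65343) (.g (nat_lit 2498) (.e (nat_lit 1597) (nat_lit 111) (.e (nat_lit 360449) (nat_lit 0) (.e (nat_lit 7263) (nat_lit 384) (.e (nat_lit 57412) (nat_lit 12) (.e (nat_lit 336173) (nat_lit 10) (.e (nat_lit 344174) (nat_lit 42) (.e (nat_lit 761867) (nat_lit 5) .nil))))))) (.g (nat_lit 6) .nil .nil)))))))))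

noncomputable def tv899 : DT := (.nd (nat_lit 0) (.nd (nat_lit 1) (.nd (nat_lit 2) (.nd (nat_lit 3) (.nd (nat_lit 4) (.nd (nat_lit 5) 
(.lf (nat_lit 65344) (.g (nat_lit 2624) (.e (nat_lit 1597) (nat_lit 111) (.e (nat_lit 360449) (nat_lit 0) (.e (nat_lit 7263) (nat_lit 384) (.e (nat_lit 57412) (nat_lit 12) (.e (nat_lit 336173) (nat_lit 10) (.e (nat_lit 344174) (nat_lit 42) (.e (nat_lit 761868) (nat_lit 5) .nil))))))) (.g (nat_lit 7) .nil .nil))) 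
(.lf (nat_lit 65376) (.g (nat_lit 1072) (.e (nat_lit 1597) (nat_lit 111) (.e (nat_lit 360449) (nat_lit 0) (.e (nat_lit 7266) (nat_lit 384) (.e (nat_lit 57436) (nat_lit 17) .nil)))) .nil))) (.nd (nat_lit 5) 
(.lf (nat_lit 65360) (.g (nat_lit 2582) (.e (nat_lit 1597) (nat_lit 111) (.e (nat_lit 360449) (nat_lit 0) (.e (nat_lit 7265) (nat_lit 384) (.e (nat_lit 57424) (nat_lit 14) (.e (nat_lit 352301) (nat_lit 20) (.e (nat_lit 2270) (nat_lit 149) (.e (nat_lit 761868) (nat_lit 5) .nil))))))) (.g (nat_lit 5) .nil .nil))) 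
(.lf (nat_lit 65392) (.g (nat_lit 3380) (.e (nat_lit 1597) (nat_lit 111) (.e (nat_lit 360452) (nat_lit 0) (.e (nat_lit 7270) (nat_lit 385) (.e (nat_lit 122916) (nat_lit 14) (.e (nat_lit 352293) (nat_lit 20) (.e (nat_lit 2270) (nat_lit 149) (.e (nat_lit 761868) (nat_lit 5) .nil))))))) (.g (nat_lit 0) .nil .nil))))) (.nd (nat_lit 4) (.nd (nat_lit 5) 
(.lf (nat_lit 65352) (.g (nat_lit 1590) (.e (nat_lit 1597) (nat_lit 111) (.e (nat_lit 360449) (nat_lit 0) (.e (nat_lit 7263) (nat_lit 384) (.e (nat_lit 57427) (nat_lit 15) (.e (nat_lit 360488) (nat_lit 20) (.e (nat_lit 761869) (nat_lit 5) .nil)))))) (.g (nat_lit 5) .nil .nil))) 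
(.lf (nat_lit 65384) (.g (nat_lit 1665) (.e (nat_lit 1597) (nat_lit 111) (.e (nat_lit 360452) (nat_lit 0) (.e (nat_lit 5907) (nat_lit 320) (.e (nat_lit 1219) (nat_lit 90) (.e (nat_lit 89856) (nat_lit 8) .nil))))) .nil))) (.nd (nat_lit 5) 
(.lf (nat_lit 65368) (.g (nat_lit 2745) (.e (nat_lit 1597) (nat_lit 111) (.e (nat_lit 360449) (nat_lit 0) (.e (nat_lit 7265) (nat_lit 384) (.e (nat_lit 57427) (nat_lit 15) (.e (nat_lit 360488) (nat_lit 20) (.e (nat_lit 761869) (nat_lit 5) .nil)))))) (.g (nat_lit 6) .nil .nil))) 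
(.lf (nat_lit 65400) (.g (nat_lit 1326) (.e (nat_lit 1597) (nat_lit 111) (.e (nat_lit 360452) (nat_lit 0) (.e (nat_lit 7270) (nat_lit 385) (.e (nat_lit 122917) (nat_lit 15) .nil)))) .nil))))) (.nd (nat_lit 3) (.nd (nat_lit 4) (.nd (nat_lit 5) 
(.lf (nat_lit 65348) (.g (nat_lit 1792) (.e (nat_lit 1597) (nat_lit 111) (.e (nat_lit 360449) (nat_lit 0) (.e (nat_lit 7263) (nat_lit 384) (.e (nat_lit 57426) (nat_lit 15) (.e (nat_lit 360488) (nat_lit 20) (.e (nat_lit 761867) (nat_lit 5) .nil)))))) (.g (nat_lit 0) .nil .nil))) 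
(.lf (nat_lit 65380) (.g (nat_lit 672) (.e (nat_lit 1597) (nat_lit 111) (.e (nat_lit 360451) (nat_lit 0) (.e (nat_lit 7266) (nat_lit 384) .nil))) .nil))) (.nd (nat_lit 5) 
(.lf (nat_lit 65364) (.g (nat_lit 2826) (.e (nat_lit 1597) (nat_lit 111) (.e (nat_lit 360449) (nat_lit 0) (.e (nat_lit 7265) (nat_lit 384) (.e (nat_lit 57426) (nat_lit 15) (.e (nat_lit 360488) (nat_lit 20) (.e (nat_lit 761869) (nat_lit 5) .nil)))))) (.g (nat_lit 0) .nil .nil))) 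
(.lf (nat_lit 65396) (.g (nat_lit 3313) (.e (nat_lit 1597) (nat_lit 111) (.e (nat_lit 360452) (nat_lit 0) (.e (nat_lit 7270) (nat_lit 385) (.e (nat_lit 122916) (nat_lit 14) (.e (nat_lit 352302) (nat_lit 20) (.e (nat_lit 2270) (nat_lit 149) (.e (nat_lit 761868) (nat_lit 5) .nil))))))) (.g (nat_lit 7) .nil .nil))))) (.nd (nat_lit 4) (.nd (nat_lit 5) 
(.lf (nat_lit 65356) (.g (nat_lit 3037) (.e (nat_lit 1597) (nat_lit 111) (.e (nat_lit 360449) (nat_lit 0) (.e (nat_lit 7265) (nat_lit 384) (.e (nat_lit 57412) (nat_lit 12) (.e (nat_lit 336173) (nat_lit 10) (.e (nat_lit 344174) (nat_lit 42) (.e (nat_lit 761867) (nat_lit 5) .nil))))))) (.g (nat_lit 6) .nil .nil))) 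
(.lf (nat_lit 65388) (.g (nat_lit 772) (.e (nat_lit 1597) (nat_lit 111) (.e (nat_lit 360452) (nat_lit 0) (.e (nat_lit 7147) (nat_lit 382) (.e (nat_lit 1217) (nat_lit 90) .nil)))) .nil))) (.nd (nat_lit 5) 
(.lf (nat_lit 65372) (.g (nat_lit 2482) (.e (nat_lit 1597) (nat_lit 111) (.e (nat_lit 360449) (nat_lit 0) (.e (nat_lit 7266) (nat_lit 384) (.e (nat_lit 57427) (nat_lit 15) (.e (nat_lit 360488) (nat_lit 20) (.e (nat_lit 761866) (nat_lit 5) .nil)))))) (.g (nat_lit 5) .nil .nil))) 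
(.lf (nat_lit 65404) (.g (nat_lit 1397) (.e (nat_lit 1597) (nat_lit 111) (.e (nat_lit 360452) (nat_lit 0) (.e (nat_lit 7270) (nat_lit 385) (.e (nat_lit 122919) (nat_lit 15) .nil)))) .nil)))))) (.nd (nat_lit 2) (.nd (nat_lit 3) (.nd (nat_lit 4) (.nd (nat_lit 5) 
(.lf (nat_lit 65346) (.g (nat_lit 2520) (.e (nat_lit 1597) (nat_lit 111) (.e (nat_lit 360449) (nat_lit 0) (.e (nat_lit 7263) (nat_lit 384) (.e (nat_lit 57412) (nat_lit 12) (.e (nat_lit 336176) (nat_lit 10) (.e (nat_lit 344174) (nat_lit 42) (.e (nat_lit 761867) (nat_lit 5) .nil))))))) (.g (nat_lit 7) .nil .nil))) 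
(.lf (nat_lit 65378) (.g (nat_lit 1104) (.e (nat_lit 1597) (nat_lit 111) (.e (nat_lit 360449) (nat_lit 0) (.e (nat_lit 7710) (nat_lit 414) (.e (nat_lit 163923) (nat_lit 15) .nil)))) .nil))) (.nd (nat_lit 5) 
(.lf (nat_lit 65362) (.g (nat_lit 1672) (.e (nat_lit 1597) (nat_lit 111) (.e (nat_lit 360449) (nat_lit 0) (.e (nat_lit 7265) (nat_lit 384) (.e (nat_lit 57424) (nat_lit 14) (.e (nat_lit 352303) (nat_lit 20) .nil))))) .nil)) 
(.lf (nat_lit 65394) (.g (nat_lit 2596) (.e (nat_lit 1597) (nat_lit 111) (.e (nat_lit 360452) (nat_lit 0) (.e (nat_lit 7270) (nat_lit 385) (.e (nat_lit 122916) (nat_lit 14) (.e (nat_lit 352301) (nat_lit 20) (.e (nat_lit 2270) (nat_lit 149) (.e (nat_lit 761868) (nat_lit 5) .nil))))))) (.g (nat_lit 6) .nil .nil))))) (.nd (nat_lit 4) (.nd (nat_lit 5) 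
(.lf (nat_lit 65354) (.g (nat_lit 969) (.e (nat_lit 1597) (nat_lit 111) (.e (nat_lit 360449) (nat_lit 0) (.e (nat_lit 7265) (nat_lit 384) (.e (nat_lit 57412) (nat_lit 12) .nil)))) .nil)) 
(.lf (nat_lit 65386) (.g (nat_lit 2386) (.e (nat_lit 1597) (nat_lit 111) (.e (nat_lit 360452) (nat_lit 0) (.e (nat_lit 5907) (nat_lit 320) (.e (nat_lit 1221) (nat_lit 90) (.e (nat_lit 89856) (nat_lit 8) (.e (nat_lit 262146) (nat_lit 0) .nil)))))) (.g (nat_lit 4) .nil .nil)))) (.nd (nat_lit 5) 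
(.lf (nat_lit 65370) (.g (nat_lit 2137) (.e (nat_lit 1597) (nat_lit 111) (.e (nat_lit 360449) (nat_lit 0) (.e (nat_lit 7265) (nat_lit 384) (.e (nat_lit 57436) (nat_lit 17) (.e (nat_lit 376860) (nat_lit 21) (.e (nat_lit 57671) (nat_lit 152) (.e (nat_lit 1079) (nat_lit 81) .nil))))))) (.g (nat_lit 5) .nil .nil))) 
(.lf (nat_lit 65402) (.g (nat_lit 3220) (.e (nat_lit 1597) (nat_lit 111) (.e (nat_lit 360452) (nat_lit 0) (.e (nat_lit 7270) (nat_lit 385) (.e (nat_lit 122917) (nat_lit 15) (.e (nat_lit 360488) (nat_lit 20) (.e (nat_lit 761869) (nat_lit 5) .nil)))))) (.g (nat_lit 0) .nil .nil)))))) (.nd (nat_lit 3) (.nd (nat_lit 4) (.nd (nat_lit 5) 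
(.lf (nat_lit 65350) (.g (nat_lit 1438) (.e (nat_lit 1597) (nat_lit 111) (.e (nat_lit 360449) (nat_lit 0) (.e (nat_lit 7263) (nat_lit 384) (.e (nat_lit 57427) (nat_lit 15) (.e (nat_lit 360488) (nat_lit 20) (.e (nat_lit 761867) (nat_lit 5) .nil)))))) (.g (nat_lit 4) .nil .nil))) 
(.lf (nat_lit 65382) (.g (nat_lit 1514) (.e (nat_lit 1597) (nat_lit 111) (.e (nat_lit 360452) (nat_lit 0) (.e (nat_lit 5905) (nat_lit 320) (.e (nat_lit 1221) (nat_lit 90) (.e (nat_lit 89856) (nat_lit 8) .nil))))) .nil))) (.nd (nat_lit 5) 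
(.lf (nat_lit 65366) (.g (nat_lit 2592) (.e (nat_lit 1597) (nat_lit 111) (.e (nat_lit 360449) (nat_lit 0) (.e (nat_lit 7265) (nat_lit 384) (.e (nat_lit 57427) (nat_lit 15) (.e (nat_lit 360488) (nat_lit 20) (.e (nat_lit 761867) (nat_lit 5) .nil)))))) (.g (nat_lit 5) .nil .nil))) 
(.lf (nat_lit 65398) (.g (nat_lit 3788) (.e (nat_lit 1597) (nat_lit 111) (.e (nat_lit 360452) (nat_lit 0) (.e (nat_lit 7270) (nat_lit 385) (.e (nat_lit 122916) (nat_lit 14) (.e (nat_lit 352309) (nat_lit 21) (.e (nat_lit 57666) (nat_lit 152) (.e (nat_lit 1078) (nat_lit 81) .nil))))))) (.g (nat_lit 6) .nil .nil))))) (.nd (nat_lit 4) (.nd (nat_lit 5) 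
(.lf (nat_lit 65358) (.g (nat_lit 2253) (.e (nat_lit 1597) (nat_lit 111) (.e (nat_lit 360449) (nat_lit 0) (.e (nat_lit 7265) (nat_lit 384) (.e (nat_lit 57424) (nat_lit 14) (.e (nat_lit 352280) (nat_lit 20) .nil))))) .nil)) 
(.lf (nat_lit 65390) (.g (nat_lit 2333) (.e (nat_lit 1597) (nat_lit 111) (.e (nat_lit 360452) (nat_lit 0) (.e (nat_lit 7270) (nat_lit 385) (.e (nat_lit 122916) (nat_lit 14) (.e (nat_lit 352292) (nat_lit 20) (.e (nat_lit 2270) (nat_lit 149) (.e (nat_lit 761868) (nat_lit 5) .nil))))))) (.g (nat_lit 4) .nil .nil)))) (.nd (nat_lit 5) 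
(.lf (nat_lit 65374) (.g (nat_lit 2583) (.e (nat_lit 1597) (nat_lit 111) (.e (nat_lit 360449) (nat_lit 0) (.e (nat_lit 7266) (nat_lit 384) (.e (nat_lit 57427) (nat_lit 15) (.e (nat_lit 360488) (nat_lit 20) (.e (nat_lit 761868) (nat_lit 5) .nil)))))) (.g (nat_lit 5) .nil .nil))) 
(.lf (nat_lit 65406) (.g (nat_lit 3028) (.e (nat_lit 1597) (nat_lit 111) (.e (nat_lit 360452) (nat_lit 0) (.e (nat_lit 7270) (nat_lit 385) (.e (nat_lit 122919) (nat_lit 15) (.e (nat_lit 360488) (nat_lit 20) (.e (nat_lit 761867) (nat_lit 5) .nil)))))) (.g (nat_lit 5) .nil .nil)))))))) (.nd (nat_lit 1) (.nd (nat_lit 2) (.nd (nat_lit 3) (.nd (nat_lit 4) (.nd (nat_lit 5) 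
(.lf (nat_lit 65345) (.g (nat_lit 2601) (.e (nat_lit 1597) (nat_lit 111) (.e (nat_lit 360449) (nat_lit 0) (.e (nat_lit 7263) (nat_lit 384) (.e (nat_lit 57412) (nat_lit 12) (.e (nat_lit 336173) (nat_lit 10) (.e (nat_lit 344174) (nat_lit 42) (.e (nat_lit 761869) (nat_lit 5) .nil))))))) (.g (nat_lit 7) .nil .nil))) 
(.lf (nat_lit 65377) (.g (nat_lit 1107) (.e (nat_lit 1597) (nat_lit 111) (.e (nat_lit 360449) (nat_lit 0) (.e (nat_lit 7710) (nat_lit 414) (.e (nat_lit 163922) (nat_lit 15) .nil)))) .nil))) (.nd (nat_lit 5) 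
(.lf (nat_lit 65361) (.g (nat_lit 2543) (.e (nat_lit 1597) (nat_lit 111) (.e (nat_lit 360449) (nat_lit 0) (.e (nat_lit 7265) (nat_lit 384) (.e (nat_lit 57424) (nat_lit 14) (.e (nat_lit 352302) (nat_lit 20) (.e (nat_lit 2270) (nat_lit 149) (.e (nat_lit 761868) (nat_lit 5) .nil))))))) (.g (nat_lit 5) .nil .nil))) 
(.lf (nat_lit 65393) (.g (nat_lit 1937) (.e (nat_lit 1597) (nat_lit 111) (.e (nat_lit 360452) (nat_lit 0) (.e (nat_lit 7270) (nat_lit 385) (.e (nat_lit 122916) (nat_lit 14) (.e (nat_lit 352295) (nat_lit 20) .nil))))) .nil)))) (.nd (nat_lit 4) (.nd (nat_lit 5) 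
(.lf (nat_lit 65353) (.g (nat_lit 281) (.e (nat_lit 1597) (nat_lit 111) (.e (nat_lit 360449) (nat_lit 0) (.e (nat_lit 7265) (nat_lit 384) .nil))) .nil)) 
(.lf (nat_lit 65385) (.g (nat_lit 1989) (.e (nat_lit 1597) (nat_lit 111) (.e (nat_lit 360452) (nat_lit 0) (.e (nat_lit 5907) (nat_lit 320) (.e (nat_lit 1219) (nat_lit 90) (.e (nat_lit 89856) (nat_lit 8) (.e (nat_lit 262145) (nat_lit 0) .nil)))))) (.g (nat_lit 4) .nil .nil)))) (.nd (nat_lit 5) 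
(.lf (nat_lit 65369) (.g (nat_lit 1309) (.e (nat_lit 1597) (nat_lit 111) (.e (nat_lit 360449) (nat_lit 0) (.e (nat_lit 7265) (nat_lit 384) (.e (nat_lit 57427) (nat_lit 15) (.e (nat_lit 368384) (nat_lit 20) .nil))))) .nil)) 
(.lf (nat_lit 65401) (.g (nat_lit 3076) (.e (nat_lit 1597) (nat_lit 111) (.e (nat_lit 360452) (nat_lit 0) (.e (nat_lit 7270) (nat_lit 385) (.e (nat_lit 122917) (nat_lit 15) (.e (nat_lit 360488) (nat_lit 20) (.e (nat_lit 761867) (nat_lit 5) .nil)))))) (.g (nat_lit 0) .nil .nil)))))) (.nd (nat_lit 3) (.nd (nat_lit 4) (.nd (nat_lit 5) 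
(.lf (nat_lit 65349) (.g (nat_lit 1510) (.e (nat_lit 1597) (nat_lit 111) (.e (nat_lit 360449) (nat_lit 0) (.e (nat_lit 7263) (nat_lit 384) (.e (nat_lit 57427) (nat_lit 15) (.e (nat_lit 360488) (nat_lit 20) (.e (nat_lit 761866) (nat_lit 5) .nil)))))) (.g (nat_lit 4) .nil .nil))) 
(.lf (nat_lit 65381) (.g (nat_lit 1110) (.e (nat_lit 1597) (nat_lit 111) (.e (nat_lit 360452) (nat_lit 0) (.e (nat_lit 5905) (nat_lit 320) (.e (nat_lit 1219) (nat_lit 90) .nil)))) .nil))) (.nd (nat_lit 5) 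
(.lf (nat_lit 65365) (.g (nat_lit 2665) (.e (nat_lit 1597) (nat_lit 111) (.e (nat_lit 360449) (nat_lit 0) (.e (nat_lit 7265) (nat_lit 384) (.e (nat_lit 57427) (nat_lit 15) (.e (nat_lit 360488) (nat_lit 20) (.e (nat_lit 761866) (nat_lit 5) .nil)))))) (.g (nat_lit 5) .nil .nil))) 
(.lf (nat_lit 65397) (.g (nat_lit 1492) (.e (nat_lit 1597) (nat_lit 111) (.e (nat_lit 360452) (nat_lit 0) (.e (nat_lit 7270) (nat_lit 385) (.e (nat_lit 122916) (nat_lit 14) (.e (nat_lit 352309) (nat_lit 21) .nil))))) .nil)))) (.nd (nat_lit 4) (.nd (nat_lit 5) 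
(.lf (nat_lit 65357) (.g (nat_lit 3141) (.e (nat_lit 1597) (nat_lit 111) (.e (nat_lit 360449) (nat_lit 0) (.e (nat_lit 7265) (nat_lit 384) (.e (nat_lit 57412) (nat_lit 12) (.e (nat_lit 336173) (nat_lit 10) (.e (nat_lit 344174) (nat_lit 42) (.e (nat_lit 761869) (nat_lit 5) .nil))))))) (.g (nat_lit 7) .nil .nil))) 
(.lf (nat_lit 65389) (.g (nat_lit 1212) (.e (nat_lit 1597) (nat_lit 111) (.e (nat_lit 360452) (nat_lit 0) (.e (nat_lit 7270) (nat_lit 385) (.e (nat_lit 122916) (nat_lit 14) .nil)))) .nil))) (.nd (nat_lit 5) 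
(.lf (nat_lit 65373) (.g (nat_lit 2410) (.e (nat_lit 1597) (nat_lit 111) (.e (nat_lit 360449) (nat_lit 0) (.e (nat_lit 7266) (nat_lit 384) (.e (nat_lit 57427) (nat_lit 15) (.e (nat_lit 360488) (nat_lit 20) (.e (nat_lit 761867) (nat_lit 5) .nil)))))) (.g (nat_lit 5) .nil .nil))) 
(.lf (nat_lit 65405) (.g (nat_lit 3141) (.e (nat_lit 1597) (nat_lit 111) (.e (nat_lit 360452) (nat_lit 0) (.e (nat_lit 7270) (nat_lit 385) (.e (nat_lit 122919) (nat_lit 15) (.e (nat_lit 360488) (nat_lit 20) (.e (nat_lit 761866) (nat_lit 5) .nil)))))) (.g (nat_lit 6) .nil .nil))))))) (.nd (nat_lit 2) (.nd (nat_lit 3) (.nd (nat_lit 4) (.nd (nat_lit 5) 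
(.lf (nat_lit 65347) (.g (nat_lit 2588) (.e (nat_lit 1597) (nat_lit 111) (.e (nat_lit 360449) (nat_lit 0) (.e (nat_lit 7263) (nat_lit 384) (.e (nat_lit 57412) (nat_lit 12) (.e (nat_lit 336176) (nat_lit 10) (.e (nat_lit 344174) (nat_lit 42) (.e (nat_lit 761869) (nat_lit 5) .nil))))))) (.g (nat_lit 7) .nil .nil))) 
(.lf (nat_lit 65379) (.g (nat_lit 1345) (.e (nat_lit 1597) (nat_lit 111) (.e (nat_lit 360451) (nat_lit 0) (.e (nat_lit 7265) (nat_lit 384) (.e (nat_lit 57412) (nat_lit 12) .nil)))) .nil))) (.nd (nat_lit 5) 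
(.lf (nat_lit 65363) (.g (nat_lit 2666) (.e (nat_lit 1597) (nat_lit 111) (.e (nat_lit 360449) (nat_lit 0) (.e (nat_lit 7265) (nat_lit 384) (.e (nat_lit 57426) (nat_lit 15) (.e (nat_lit 360488) (nat_lit 20) (.e (nat_lit 761867) (nat_lit 5) .nil)))))) (.g (nat_lit 0) .nil .nil))) 
(.lf (nat_lit 65395) (.g (nat_lit 1899) (.e (nat_lit 1597) (nat_lit 111) (.e (nat_lit 360452) (nat_lit 0) (.e (nat_lit 7270) (nat_lit 385) (.e (nat_lit 122916) (nat_lit 14) (.e (nat_lit 352302) (nat_lit 20) (.e (nat_lit 2270) (nat_lit 149) (.e (nat_lit 761867) (nat_lit 5) .nil))))))) (.g (nat_lit 4) .nil .nil))))) (.nd (nat_lit 4) (.nd (nat_lit 5) 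
(.lf (nat_lit 65355) (.g (nat_lit 3284) (.e (nat_lit 1597) (nat_lit 111) (.e (nat_lit 360449) (nat_lit 0) (.e (nat_lit 7265) (nat_lit 384) (.e (nat_lit 57412) (nat_lit 12) (.e (nat_lit 336173) (nat_lit 10) (.e (nat_lit 344174) (nat_lit 42) (.e (nat_lit 761866) (nat_lit 5) .nil))))))) (.g (nat_lit 7) .nil .nil))) 
(.lf (nat_lit 65387) (.g (nat_lit 2208) (.e (nat_lit 1597) (nat_lit 111) (.e (nat_lit 360452) (nat_lit 0) (.e (nat_lit 5907) (nat_lit 320) (.e (nat_lit 1221) (nat_lit 90) (.e (nat_lit 89856) (nat_lit 8) (.e (nat_lit 262147) (nat_lit 0) .nil)))))) (.g (nat_lit 4) .nil .nil)))) (.nd (nat_lit 5) 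
(.lf (nat_lit 65371) (.g (nat_lit 2372) (.e (nat_lit 1597) (nat_lit 111) (.e (nat_lit 360449) (nat_lit 0) (.e (nat_lit 7266) (nat_lit 384) (.e (nat_lit 57426) (nat_lit 15) (.e (nat_lit 360488) (nat_lit 20) (.e (nat_lit 761867) (nat_lit 5) .nil)))))) (.g (nat_lit 0) .nil .nil))) 
(.lf (nat_lit 65403) (.g (nat_lit 1589) (.e (nat_lit 1597) (nat_lit 111) (.e (nat_lit 360452) (nat_lit 0) (.e (nat_lit 7270) (nat_lit 385) (.e (nat_lit 122918) (nat_lit 15) (.e (nat_lit 360488) (nat_lit 20) .nil))))) .nil))))) (.nd (nat_lit 3) (.nd (nat_lit 4) (.nd (nat_lit 5) 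
(.lf (nat_lit 65351) (.g (nat_lit 1610) (.e (nat_lit 1597) (nat_lit 111) (.e (nat_lit 360449) (nat_lit 0) (.e (nat_lit 7263) (nat_lit 384) (.e (nat_lit 57427) (nat_lit 15) (.e (nat_lit 360488) (nat_lit 20) (.e (nat_lit 761868) (nat_lit 5) .nil)))))) (.g (nat_lit 5) .nil .nil))) 
(.lf (nat_lit 65383) (.g (nat_lit 1432) (.e (nat_lit 1597) (nat_lit 111) (.e (nat_lit 360452) (nat_lit 0) (.e (nat_lit 5907) (nat_lit 320) (.e (nat_lit 1015) (nat_lit 81) .nil)))) .nil))) (.nd (nat_lit 5) 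
(.lf (nat_lit 65367) (.g (nat_lit 2766) (.e (nat_lit 1597) (nat_lit 111) (.e (nat_lit 360449) (nat_lit 0) (.e (nat_lit 7265) (nat_lit 384) (.e (nat_lit 57427) (nat_lit 15) (.e (nat_lit 360488) (nat_lit 20) (.e (nat_lit 761868) (nat_lit 5) .nil)))))) (.g (nat_lit 6) .nil .nil))) 
(.lf (nat_lit 65399) (.g (nat_lit 3839) (.e (nat_lit 1597) (nat_lit 111) (.e (nat_lit 360452) (nat_lit 0) (.e (nat_lit 7270) (nat_lit 385) (.e (nat_lit 122916) (nat_lit 14) (.e (nat_lit 352309) (nat_lit 21) (.e (nat_lit 57666) (nat_lit 152) (.e (nat_lit 1079) (nat_lit 81) .nil))))))) (.g (nat_lit 6) .nil .nil))))) (.nd (nat_lit 4) (.nd (nat_lit 5) 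
(.lf (nat_lit 65359) (.g (nat_lit 2253) (.e (nat_lit 1597) (nat_lit 111) (.e (nat_lit 360449) (nat_lit 0) (.e (nat_lit 7265) (nat_lit 384) (.e (nat_lit 57424) (nat_lit 14) (.e (nat_lit 352295) (nat_lit 20) .nil))))) .nil)) 
(.lf (nat_lit 65391) (.g (nat_lit 2206) (.e (nat_lit 1597) (nat_lit 111) (.e (nat_lit 360452) (nat_lit 0) (.e (nat_lit 7270) (nat_lit 385) (.e (nat_lit 122916) (nat_lit 14) (.e (nat_lit 352293) (nat_lit 20) (.e (nat_lit 2270) (nat_lit 149) (.e (nat_lit 761867) (nat_lit 5) .nil))))))) (.g (nat_lit 4) .nil .nil)))) (.nd (nat_lit 5) 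
(.lf (nat_lit 65375) (.g (nat_lit 2562) (.e (nat_lit 1597) (nat_lit 111) (.e (nat_lit 360449) (nat_lit 0) (.e (nat_lit 7266) (nat_lit 384) (.e (nat_lit 57427) (nat_lit 15) (.e (nat_lit 360488) (nat_lit 20) (.e (nat_lit 761869) (nat_lit 5) .nil)))))) (.g (nat_lit 5) .nil .nil))) 
(.lf (nat_lit 65407) (.g (nat_lit 3213) (.e (nat_lit 1597) (nat_lit 111) (.e (nat_lit 360452) (nat_lit 0) (.e (nat_lit 7270) (nat_lit 385) (.e (nat_lit 122919) (nat_lit 15) (.e (nat_lit 360488) (nat_lit 20) (.e (nat_lit 761868) (nat_lit 5) .nil)))))) (.g (nat_lit 6) .nil .nil)))))))))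

noncomputable def tv900 : DT := (.nd (nat_lit 0) (.nd (nat_lit 1) (.nd (nat_lit 2) (.nd (nat_lit 3) (.nd (nat_lit 4) (.nd (nat_lit 5) 
(.lf (nat_lit 65408) (.g (nat_lit 3172) (.e (nat_lit 1597) (nat_lit 111) (.e (nat_lit 360452) (nat_lit 0) (.e (nat_lit 7270) (nat_lit 385) (.e (nat_lit 122919) (nat_lit 15) (.e (nat_lit 360488) (nat_lit 20) (.e (nat_lit 761869) (nat_lit 5) .nil)))))) (.g (nat_lit 6) .nil .nil))) 
(.lf (nat_lit 65440) (.g (nat_lit 2029) (.e (nat_lit 1597) (nat_lit 111) (.e (nat_lit 360452) (nat_lit 0) (.e (nat_lit 7272) (nat_lit 385) (.e (nat_lit 122916) (nat_lit 14) (.e (nat_lit 352302) (nat_lit 20) (.e (nat_lit 2270) (nat_lit 149) (.e (nat_lit 761867) (nat_lit 5) .nil))))))) (.g (nat_lit 4) .nil .nil)))) (.nd (nat_lit 5) 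
(.lf (nat_lit 65424) (.g (nat_lit 2548) (.e (nat_lit 1597) (nat_lit 111) (.e (nat_lit 360452) (nat_lit 0) (.e (nat_lit 7271) (nat_lit 385) (.e (nat_lit 122919) (nat_lit 15) (.e (nat_lit 360488) (nat_lit 20) (.e (nat_lit 761866) (nat_lit 5) .nil)))))) (.g (nat_lit 6) .nil .nil))) 
(.lf (nat_lit 65456) (.g (nat_lit 2842) (.e (nat_lit 1597) (nat_lit 111) (.e (nat_lit 360452) (nat_lit 0) (.e (nat_lit 7273) (nat_lit 385) (.e (nat_lit 122916) (nat_lit 14) (.e (nat_lit 352293) (nat_lit 20) (.e (nat_lit 2270) (nat_lit 149) (.e (nat_lit 761868) (nat_lit 5) .nil))))))) (.g (nat_lit 7) .nil .nil))))) (.nd (nat_lit 4) (.nd (nat_lit 5) 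
(.lf (nat_lit 65416) (.g (nat_lit 3295) (.e (nat_lit 1597) (nat_lit 111) (.e (nat_lit 360452) (nat_lit 0) (.e (nat_lit 7271) (nat_lit 385) (.e (nat_lit 122916) (nat_lit 14) (.e (nat_lit 352309) (nat_lit 21) (.e (nat_lit 57666) (nat_lit 152) (.e (nat_lit 1078) (nat_lit 81) .nil))))))) (.g (nat_lit 6) .nil .nil))) 
(.lf (nat_lit 65448) (.g (nat_lit 1656) (.e (nat_lit 1597) (nat_lit 111) (.e (nat_lit 360452) (nat_lit 0) (.e (nat_lit 7272) (nat_lit 385) (.e (nat_lit 122918) (nat_lit 15) (.e (nat_lit 360488) (nat_lit 20) (.e (nat_lit 761869) (nat_lit 5) .nil)))))) (.g (nat_lit 4) .nil .nil)))) (.nd (nat_lit 5) 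
(.lf (nat_lit 65432) (.g (nat_lit 1647) (.e (nat_lit 1597) (nat_lit 111) (.e (nat_lit 360452) (nat_lit 0) (.e (nat_lit 7272) (nat_lit 385) (.e (nat_lit 122906) (nat_lit 12) (.e (nat_lit 336175) (nat_lit 10) (.e (nat_lit 344174) (nat_lit 42) (.e (nat_lit 761868) (nat_lit 5) .nil))))))) (.g (nat_lit 4) .nil .nil))) 
(.lf (nat_lit 65464) (.g (nat_lit 2061) (.e (nat_lit 1597) (nat_lit 111) (.e (nat_lit 360452) (nat_lit 0) (.e (nat_lit 7273) (nat_lit 385) (.e (nat_lit 122919) (nat_lit 15) (.e (nat_lit 360488) (nat_lit 20) (.e (nat_lit 761868) (nat_lit 5) .nil)))))) (.g (nat_lit 5) .nil .nil)))))) (.nd (nat_lit 3) (.nd (nat_lit 4) (.nd (nat_lit 5) 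
(.lf (nat_lit 65412) (.g (nat_lit 1789) (.e (nat_lit 1597) (nat_lit 111) (.e (nat_lit 360452) (nat_lit 0) (.e (nat_lit 7271) (nat_lit 385) (.e (nat_lit 122916) (nat_lit 14) (.e (nat_lit 352292) (nat_lit 20) (.e (nat_lit 2270) (nat_lit 149) (.e (nat_lit 761868) (nat_lit 5) .nil))))))) (.g (nat_lit 4) .nil .nil))) 
(.lf (nat_lit 65444) (.g (nat_lit 2853) (.e (nat_lit 1597) (nat_lit 111) (.e (nat_lit 360452) (nat_lit 0) (.e (nat_lit 7272) (nat_lit 385) (.e (nat_lit 122917) (nat_lit 15) (.e (nat_lit 360488) (nat_lit 20) (.e (nat_lit 761867) (nat_lit 5) .nil)))))) (.g (nat_lit 0) .nil .nil)))) (.nd (nat_lit 5) 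
(.lf (nat_lit 65428) (.g (nat_lit 404) (.e (nat_lit 1597) (nat_lit 111) (.e (nat_lit 360452) (nat_lit 0) (.e (nat_lit 7272) (nat_lit 385) .nil))) .nil)) 
(.lf (nat_lit 65460) (.g (nat_lit 2098) (.e (nat_lit 1597) (nat_lit 111) (.e (nat_lit 360452) (nat_lit 0) (.e (nat_lit 7273) (nat_lit 385) (.e (nat_lit 122917) (nat_lit 15) (.e (nat_lit 360488) (nat_lit 20) (.e (nat_lit 761867) (nat_lit 5) .nil)))))) (.g (nat_lit 0) .nil .nil))))) (.nd (nat_lit 4) (.nd (nat_lit 5) 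
(.lf (nat_lit 65420) (.g (nat_lit 1767) (.e (nat_lit 1597) (nat_lit 111) (.e (nat_lit 360452) (nat_lit 0) (.e (nat_lit 7271) (nat_lit 385) (.e (nat_lit 122918) (nat_lit 15) (.e (nat_lit 360488) (nat_lit 20) (.e (nat_lit 761866) (nat_lit 5) .nil)))))) (.g (nat_lit 5) .nil .nil))) 
(.lf (nat_lit 65452) (.g (nat_lit 399) (.e (nat_lit 1597) (nat_lit 111) (.e (nat_lit 360452) (nat_lit 0) (.e (nat_lit 7273) (nat_lit 385) .nil))) .nil))) (.nd (nat_lit 5) 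
(.lf (nat_lit 65436) (.g (nat_lit 2228) (.e (nat_lit 1597) (nat_lit 111) (.e (nat_lit 360452) (nat_lit 0) (.e (nat_lit 7272) (nat_lit 385) (.e (nat_lit 122916) (nat_lit 14) (.e (nat_lit 352292) (nat_lit 20) (.e (nat_lit 2270) (nat_lit 149) (.e (nat_lit 761868) (nat_lit 5) .nil))))))) (.g (nat_lit 4) .nil .nil))) 
(.lf (nat_lit 65468) (.g (nat_lit 1556) (.e (nat_lit 1597) (nat_lit 111) (.e (nat_lit 368384) (nat_lit 0) (.e (nat_lit 5224) (nat_lit 296) (.e (nat_lit 163933) (nat_lit 17) (.e (nat_lit 466967) (nat_lit 20) (.e (nat_lit 2443) (nat_lit 157) (.e (nat_lit 5120) (nat_lit 292) (.e (nat_lit 1079) (nat_lit 81) .nil)))))))) (.g (nat_lit 4) .nil .nil))))))) 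
(.nd (nat_lit 2) (.nd (nat_lit 3) (.nd (nat_lit 4) (.nd (nat_lit 5) 
(.lf (nat_lit 65410) (.g (nat_lit 765) (.e (nat_lit 1597) (nat_lit 111) (.e (nat_lit 360452) (nat_lit 0) (.e (nat_lit 7271) (nat_lit 385) (.e (nat_lit 122906) (nat_lit 12) .nil)))) .nil)) 
(.lf (nat_lit 65442) (.g (nat_lit 3709) (.e (nat_lit 1597) (nat_lit 111) (.e (nat_lit 360452) (nat_lit 0) (.e (nat_lit 7272) (nat_lit 385) (.e (nat_lit 122916) (nat_lit 14) (.e (nat_lit 352309) (nat_lit 21) (.e (nat_lit 57666) (nat_lit 152) (.e (nat_lit 1078) (nat_lit 81) .nil))))))) (.g (nat_lit 6) .nil .nil)))) (.nd (nat_lit 5) 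
(.lf (nat_lit 65426) (.g (nat_lit 2618) (.e (nat_lit 1597) (nat_lit 111) (.e (nat_lit 360452) (nat_lit 0) (.e (nat_lit 7271) (nat_lit 385) (.e (nat_lit 122919) (nat_lit 15) (.e (nat_lit 360488) (nat_lit 20) (.e (nat_lit 761868) (nat_lit 5) .nil)))))) (.g (nat_lit 6) .nil .nil))) 
(.lf (nat_lit 65458) (.g (nat_lit 2765) (.e (nat_lit 1597) (nat_lit 111) (.e (nat_lit 360452) (nat_lit 0) (.e (nat_lit 7273) (nat_lit 385) (.e (nat_lit 122916) (nat_lit 14) (.e (nat_lit 352302) (nat_lit 20) (.e (nat_lit 2270) (nat_lit 149) (.e (nat_lit 761868) (nat_lit 5) .nil))))))) (.g (nat_lit 6) .nil .nil))))) (.nd (nat_lit 4) (.nd (nat_lit 5) 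
(.lf (nat_lit 65418) (.g (nat_lit 2214) (.e (nat_lit 1597) (nat_lit 111) (.e (nat_lit 360452) (nat_lit 0) (.e (nat_lit 7271) (nat_lit 385) (.e (nat_lit 122917) (nat_lit 15) (.e (nat_lit 360488) (nat_lit 20) (.e (nat_lit 761867) (nat_lit 5) .nil)))))) (.g (nat_lit 0) .nil .nil))) 
(.lf (nat_lit 65450) (.g (nat_lit 2678) (.e (nat_lit 1597) (nat_lit 111) (.e (nat_lit 360452) (nat_lit 0) (.e (nat_lit 7272) (nat_lit 385) (.e (nat_lit 122919) (nat_lit 15) (.e (nat_lit 360488) (nat_lit 20) (.e (nat_lit 761867) (nat_lit 5) .nil)))))) (.g (nat_lit 6) .nil .nil)))) (.nd (nat_lit 5) 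
(.lf (nat_lit 65434) (.g (nat_lit 1255) (.e (nat_lit 1597) (nat_lit 111) (.e (nat_lit 360452) (nat_lit 0) (.e (nat_lit 7272) (nat_lit 385) (.e (nat_lit 122915) (nat_lit 14) .nil)))) .nil)) 
(.lf (nat_lit 65466) (.g (nat_lit 1480) (.e (nat_lit 1597) (nat_lit 111) (.e (nat_lit 368384) (nat_lit 0) (.e (nat_lit 5222) (nat_lit 296) (.e (nat_lit 163933) (nat_lit 17) (.e (nat_lit 466967) (nat_lit 20) (.e (nat_lit 2443) (nat_lit 157) (.e (nat_lit 5120) (nat_lit 292) (.e (nat_lit 1079) (nat_lit 81) .nil)))))))) (.g (nat_lit 5) .nil .nil)))))) 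
(.nd (nat_lit 3) (.nd (nat_lit 4) (.nd (nat_lit 5) 
(.lf (nat_lit 65414) (.g (nat_lit 1552) (.e (nat_lit 1597) (nat_lit 111) (.e (nat_lit 360452) (nat_lit 0) (.e (nat_lit 7271) (nat_lit 385) (.e (nat_lit 122916) (nat_lit 14) (.e (nat_lit 352302) (nat_lit 20) (.e (nat_lit 2270) (nat_lit 149) (.e (nat_lit 761867) (nat_lit 5) .nil))))))) (.g (nat_lit 4) .nil .nil))) 
(.lf (nat_lit 65446) (.g (nat_lit 1642) (.e (nat_lit 1597) (nat_lit 111) (.e (nat_lit 360452) (nat_lit 0) (.e (nat_lit 7272) (nat_lit 385) (.e (nat_lit 122918) (nat_lit 15) (.e (nat_lit 360488) (nat_lit 20) (.e (nat_lit 761866) (nat_lit 5) .nil)))))) (.g (nat_lit 4) .nil .nil)))) (.nd (nat_lit 5) 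
(.lf (nat_lit 65430) (.g (nat_lit 2363) (.e (nat_lit 1597) (nat_lit 111) (.e (nat_lit 360452) (nat_lit 0) (.e (nat_lit 7272) (nat_lit 385) (.e (nat_lit 122906) (nat_lit 12) (.e (nat_lit 336172) (nat_lit 10) (.e (nat_lit 344174) (nat_lit 42) (.e (nat_lit 761869) (nat_lit 5) .nil))))))) (.g (nat_lit 7) .nil .nil))) 
(.lf (nat_lit 65462) (.g (nat_lit 1991) (.e (nat_lit 1597) (nat_lit 111) (.e (nat_lit 360452) (nat_lit 0) (.e (nat_lit 7273) (nat_lit 385) (.e (nat_lit 122919) (nat_lit 15) (.e (nat_lit 360488) (nat_lit 20) (.e (nat_lit 761866) (nat_lit 5) .nil)))))) (.g (nat_lit 5) .nil .nil))))) (.nd (nat_lit 4) (.nd (nat_lit 5) 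
(.lf (nat_lit 65422) (.g (nat_lit 1802) (.e (nat_lit 1597) (nat_lit 111) (.e (nat_lit 360452) (nat_lit 0) (.e (nat_lit 7271) (nat_lit 385) (.e (nat_lit 122918) (nat_lit 15) (.e (nat_lit 360488) (nat_lit 20) (.e (nat_lit 761868) (nat_lit 5) .nil)))))) (.g (nat_lit 5) .nil .nil))) 
(.lf (nat_lit 65454) (.g (nat_lit 1781) (.e (nat_lit 1597) (nat_lit 111) (.e (nat_lit 360452) (nat_lit 0) (.e (nat_lit 7273) (nat_lit 385) (.e (nat_lit 122916) (nat_lit 14) (.e (nat_lit 352292) (nat_lit 20) (.e (nat_lit 2270) (nat_lit 149) (.e (nat_lit 761868) (nat_lit 5) .nil))))))) (.g (nat_lit 4) .nil .nil)))) (.nd (nat_lit 5) 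
(.lf (nat_lit 65438) (.g (nat_lit 3330) (.e (nat_lit 1597) (nat_lit 111) (.e (nat_lit 360452) (nat_lit 0) (.e (nat_lit 7272) (nat_lit 385) (.e (nat_lit 122916) (nat_lit 14) (.e (nat_lit 352293) (nat_lit 20) (.e (nat_lit 2270) (nat_lit 149) (.e (nat_lit 761868) (nat_lit 5) .nil))))))) (.g (nat_lit 0) .nil .nil))) 
(.lf (nat_lit 65470) (.g (nat_lit 1804) (.e (nat_lit 1597) (nat_lit 111) (.e (nat_lit 368384) (nat_lit 0) (.e (nat_lit 5905) (nat_lit 320) (.e (nat_lit 1220) (nat_lit 90) (.e (nat_lit 89856) (nat_lit 8) (.e (nat_lit 262148) (nat_lit 0) .nil)))))) (.g (nat_lit 4) .nil .nil)))))))) (.nd (nat_lit 1) (.nd (nat_lit 2) (.nd (nat_lit 3) (.nd (nat_lit 4) (.nd (nat_lit 5) 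
(.lf (nat_lit 65409) (.g (nat_lit 413) (.e (nat_lit 1597) (nat_lit 111) (.e (nat_lit 360452) (nat_lit 0) (.e (nat_lit 7271) (nat_lit 385) .nil))) .nil)) 
(.lf (nat_lit 65441) (.g (nat_lit 1417) (.e (nat_lit 1597) (nat_lit 111) (.e (nat_lit 360452) (nat_lit 0) (.e (nat_lit 7272) (nat_lit 385) (.e (nat_lit 122916) (nat_lit 14) (.e (nat_lit 352309) (nat_lit 21) .nil))))) .nil))) (.nd (nat_lit 5) 
(.lf (nat_lit 65425) (.g (nat_lit 2437) (.e (nat_lit 1597) (nat_lit 111) (.e (nat_lit 360452) (nat_lit 0) (.e (nat_lit 7271) (nat_lit 385) (.e (nat_lit 122919) (nat_lit 15) (.e (nat_lit 360488) (nat_lit 20) (.e (nat_lit 761867) (nat_lit 5) .nil)))))) (.g (nat_lit 5) .nil .nil))) 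
(.lf (nat_lit 65457) (.g (nat_lit 2031) (.e (nat_lit 1597) (nat_lit 111) (.e (nat_lit 360452) (nat_lit 0) (.e (nat_lit 7273) (nat_lit 385) (.e (nat_lit 122916) (nat_lit 14) (.e (nat_lit 352301) (nat_lit 20) (.e (nat_lit 2270) (nat_lit 149) (.e (nat_lit 761868) (nat_lit 5) .nil))))))) (.g (nat_lit 5) .nil .nil))))) (.nd (nat_lit 4) (.nd (nat_lit 5) 
(.lf (nat_lit 65417) (.g (nat_lit 3346) (.e (nat_lit 1597) (nat_lit 111) (.e (nat_lit 360452) (nat_lit 0) (.e (nat_lit 7271) (nat_lit 385) (.e (nat_lit 122916) (nat_lit 14) (.e (nat_lit 352309) (nat_lit 21) (.e (nat_lit 57666) (nat_lit 152) (.e (nat_lit 1079) (nat_lit 81) .nil))))))) (.g (nat_lit 6) .nil .nil))) 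
(.lf (nat_lit 65449) (.g (nat_lit 2789) (.e (nat_lit 1597) (nat_lit 111) (.e (nat_lit 360452) (nat_lit 0) (.e (nat_lit 7272) (nat_lit 385) (.e (nat_lit 122919) (nat_lit 15) (.e (nat_lit 360488) (nat_lit 20) (.e (nat_lit 761866) (nat_lit 5) .nil)))))) (.g (nat_lit 6) .nil .nil)))) (.nd (nat_lit 5) 
(.lf (nat_lit 65433) (.g (nat_lit 1607) (.e (nat_lit 1597) (nat_lit 111) (.e (nat_lit 360452) (nat_lit 0) (.e (nat_lit 7272) (nat_lit 385) (.e (nat_lit 122906) (nat_lit 12) (.e (nat_lit 336175) (nat_lit 10) (.e (nat_lit 344174) (nat_lit 42) (.e (nat_lit 761869) (nat_lit 5) .nil))))))) (.g (nat_lit 4) .nil .nil))) 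
(.lf (nat_lit 65465) (.g (nat_lit 2017) (.e (nat_lit 1597) (nat_lit 111) (.e (nat_lit 360452) (nat_lit 0) (.e (nat_lit 7273) (nat_lit 385) (.e (nat_lit 122919) (nat_lit 15) (.e (nat_lit 360488) (nat_lit 20) (.e (nat_lit 761869) (nat_lit 5) .nil)))))) (.g (nat_lit 5) .nil .nil)))))) (.nd (nat_lit 3) (.nd (nat_lit 4) (.nd (nat_lit 5) 
(.lf (nat_lit 65413) (.g (nat_lit 1833) (.e (nat_lit 1597) (nat_lit 111) (.e (nat_lit 360452) (nat_lit 0) (.e (nat_lit 7271) (nat_lit 385) (.e (nat_lit 122916) (nat_lit 14) (.e (nat_lit 352293) (nat_lit 20) (.e (nat_lit 2270) (nat_lit 149) (.e (nat_lit 761867) (nat_lit 5) .nil))))))) (.g (nat_lit 4) .nil .nil))) 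
(.lf (nat_lit 65445) (.g (nat_lit 2988) (.e (nat_lit 1597) (nat_lit 111) (.e (nat_lit 360452) (nat_lit 0) (.e (nat_lit 7272) (nat_lit 385) (.e (nat_lit 122917) (nat_lit 15) (.e (nat_lit 360488) (nat_lit 20) (.e (nat_lit 761869) (nat_lit 5) .nil)))))) (.g (nat_lit 0) .nil .nil)))) (.nd (nat_lit 5) 
(.lf (nat_lit 65429) (.g (nat_lit 1140) (.e (nat_lit 1597) (nat_lit 111) (.e (nat_lit 360452) (nat_lit 0) (.e (nat_lit 7272) (nat_lit 385) (.e (nat_lit 122906) (nat_lit 12) .nil)))) .nil)) 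
(.lf (nat_lit 65461) (.g (nat_lit 2246) (.e (nat_lit 1597) (nat_lit 111) (.e (nat_lit 360452) (nat_lit 0) (.e (nat_lit 7273) (nat_lit 385) (.e (nat_lit 122917) (nat_lit 15) (.e (nat_lit 360488) (nat_lit 20) (.e (nat_lit 761869) (nat_lit 5) .nil)))))) (.g (nat_lit 0) .nil .nil))))) (.nd (nat_lit 4) (.nd (nat_lit 5) 
(.lf (nat_lit 65421) (.g (nat_lit 1654) (.e (nat_lit 1597) (nat_lit 111) (.e (nat_lit 360452) (nat_lit 0) (.e (nat_lit 7271) (nat_lit 385) (.e (nat_lit 122918) (nat_lit 15) (.e (nat_lit 360488) (nat_lit 20) (.e (nat_lit 761867) (nat_lit 5) .nil)))))) (.g (nat_lit 5) .nil .nil))) 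
(.lf (nat_lit 65453) (.g (nat_lit 896) (.e (nat_lit 1597) (nat_lit 111) (.e (nat_lit 360452) (nat_lit 0) (.e (nat_lit 7273) (nat_lit 385) (.e (nat_lit 122906) (nat_lit 12) .nil)))) .nil))) (.nd (nat_lit 5) 
(.lf (nat_lit 65437) (.g (nat_lit 2160) (.e (nat_lit 1597) (nat_lit 111) (.e (nat_lit 360452) (nat_lit 0) (.e (nat_lit 7272) (nat_lit 385) (.e (nat_lit 122916) (nat_lit 14) (.e (nat_lit 352293) (nat_lit 20) (.e (nat_lit 2270) (nat_lit 149) (.e (nat_lit 761867) (nat_lit 5) .nil))))))) (.g (nat_lit 4) .nil .nil))) 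
(.lf (nat_lit 65469) (.g (nat_lit 1274) (.e (nat_lit 1597) (nat_lit 111) (.e (nat_lit 368384) (nat_lit 0) (.e (nat_lit 5905) (nat_lit 320) (.e (nat_lit 1219) (nat_lit 90) (.e (nat_lit 89856) (nat_lit 8) (.e (nat_lit 262145) (nat_lit 0) .nil)))))) (.g (nat_lit 4) .nil .nil))))))) (.nd (nat_lit 2) (.nd (nat_lit 3) (.nd (nat_lit 4) (.nd (nat_lit 5) 
(.lf (nat_lit 65411) (.g (nat_lit 1227) (.e (nat_lit 1597) (nat_lit 111) (.e (nat_lit 360452) (nat_lit 0) (.e (nat_lit 7271) (nat_lit 385) (.e (nat_lit 122906) (nat_lit 12) (.e (nat_lit 336172) (nat_lit 10) (.e (nat_lit 344174) (nat_lit 42) (.e (nat_lit 761867) (nat_lit 5) .nil))))))) (.g (nat_lit 4) .nil .nil))) 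
(.lf (nat_lit 65443) (.g (nat_lit 3760) (.e (nat_lit 1597) (nat_lit 111) (.e (nat_lit 360452) (nat_lit 0) (.e (nat_lit 7272) (nat_lit 385) (.e (nat_lit 122916) (nat_lit 14) (.e (nat_lit 352309) (nat_lit 21) (.e (nat_lit 57666) (nat_lit 152) (.e (nat_lit 1079) (nat_lit 81) .nil))))))) (.g (nat_lit 6) .nil .nil)))) (.nd (nat_lit 5) 
(.lf (nat_lit 65427) (.g (nat_lit 2576) (.e (nat_lit 1597) (nat_lit 111) (.e (nat_lit 360452) (nat_lit 0) (.e (nat_lit 7271) (nat_lit 385) (.e (nat_lit 122919) (nat_lit 15) (.e (nat_lit 360488) (nat_lit 20) (.e (nat_lit 761869) (nat_lit 5) .nil)))))) (.g (nat_lit 6) .nil .nil))) 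
(.lf (nat_lit 65459) (.g (nat_lit 3371) (.e (nat_lit 1597) (nat_lit 111) (.e (nat_lit 360452) (nat_lit 0) (.e (nat_lit 7273) (nat_lit 385) (.e (nat_lit 122916) (nat_lit 14) (.e (nat_lit 352309) (nat_lit 21) (.e (nat_lit 57666) (nat_lit 152) (.e (nat_lit 1077) (nat_lit 81) .nil))))))) (.g (nat_lit 5) .nil .nil))))) (.nd (nat_lit 4) (.nd (nat_lit 5) 
(.lf (nat_lit 65419) (.g (nat_lit 2346) (.e (nat_lit 1597) (nat_lit 111) (.e (nat_lit 360452) (nat_lit 0) (.e (nat_lit 7271) (nat_lit 385) (.e (nat_lit 122917) (nat_lit 15) (.e (nat_lit 360488) (nat_lit 20) (.e (nat_lit 761869) (nat_lit 5) .nil)))))) (.g (nat_lit 0) .nil .nil))) 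
(.lf (nat_lit 65451) (.g (nat_lit 2815) (.e (nat_lit 1597) (nat_lit 111) (.e (nat_lit 360452) (nat_lit 0) (.e (nat_lit 7272) (nat_lit 385) (.e (nat_lit 122919) (nat_lit 15) (.e (nat_lit 360488) (nat_lit 20) (.e (nat_lit 761869) (nat_lit 5) .nil)))))) (.g (nat_lit 0) .nil .nil)))) (.nd (nat_lit 5) 
(.lf (nat_lit 65435) (.g (nat_lit 1139) (.e (nat_lit 1597) (nat_lit 111) (.e (nat_lit 360452) (nat_lit 0) (.e (nat_lit 7272) (nat_lit 385) (.e (nat_lit 122916) (nat_lit 14) .nil)))) .nil)) 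
(.lf (nat_lit 65467) (.g (nat_lit 1245) (.e (nat_lit 1597) (nat_lit 111) (.e (nat_lit 368384) (nat_lit 0) (.e (nat_lit 5222) (nat_lit 296) (.e (nat_lit 163933) (nat_lit 17) (.e (nat_lit 466967) (nat_lit 20) (.e (nat_lit 2444) (nat_lit 157) (.e (nat_lit 5170) (nat_lit 292) (.e (nat_lit 1079) (nat_lit 81) .nil)))))))) (.g (nat_lit 4) .nil .nil)))))) 
(.nd (nat_lit 3) (.nd (nat_lit 4) (.nd (nat_lit 5) 
(.lf (nat_lit 65415) (.g (nat_lit 2962) (.e (nat_lit 1597) (nat_lit 111) (.e (nat_lit 360452) (nat_lit 0) (.e (nat_lit 7271) (nat_lit 385) (.e (nat_lit 122916) (nat_lit 14) (.e (nat_lit 352302) (nat_lit 20) (.e (nat_lit 2270) (nat_lit 149) (.e (nat_lit 761868) (nat_lit 5) .nil))))))) (.g (nat_lit 7) .nil .nil))) 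
(.lf (nat_lit 65447) (.g (nat_lit 1677) (.e (nat_lit 1597) (nat_lit 111) (.e (nat_lit 360452) (nat_lit 0) (.e (nat_lit 7272) (nat_lit 385) (.e (nat_lit 122918) (nat_lit 15) (.e (nat_lit 360488) (nat_lit 20) (.e (nat_lit 761868) (nat_lit 5) .nil)))))) (.g (nat_lit 4) .nil .nil)))) (.nd (nat_lit 5) 
(.lf (nat_lit 65431) (.g (nat_lit 1686) (.e (nat_lit 1597) (nat_lit 111) (.e (nat_lit 360452) (nat_lit 0) (.e (nat_lit 7272) (nat_lit 385) (.e (nat_lit 122906) (nat_lit 12) (.e (nat_lit 336173) (nat_lit 10) (.e (nat_lit 344174) (nat_lit 42) (.e (nat_lit 761868) (nat_lit 5) .nil))))))) (.g (nat_lit 4) .nil .nil))) 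
(.lf (nat_lit 65463) (.g (nat_lit 1877) (.e (nat_lit 1597) (nat_lit 111) (.e (nat_lit 360452) (nat_lit 0) (.e (nat_lit 7273) (nat_lit 385) (.e (nat_lit 122919) (nat_lit 15) (.e (nat_lit 360488) (nat_lit 20) (.e (nat_lit 761867) (nat_lit 5) .nil)))))) (.g (nat_lit 5) .nil .nil))))) (.nd (nat_lit 4) (.nd (nat_lit 5) 
(.lf (nat_lit 65423) (.g (nat_lit 1785) (.e (nat_lit 1597) (nat_lit 111) (.e (nat_lit 360452) (nat_lit 0) (.e (nat_lit 7271) (nat_lit 385) (.e (nat_lit 122918) (nat_lit 15) (.e (nat_lit 360488) (nat_lit 20) (.e (nat_lit 761869) (nat_lit 5) .nil)))))) (.g (nat_lit 5) .nil .nil))) 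
(.lf (nat_lit 65455) (.g (nat_lit 1669) (.e (nat_lit 1597) (nat_lit 111) (.e (nat_lit 360452) (nat_lit 0) (.e (nat_lit 7273) (nat_lit 385) (.e (nat_lit 122916) (nat_lit 14) (.e (nat_lit 352293) (nat_lit 20) (.e (nat_lit 2270) (nat_lit 149) (.e (nat_lit 761867) (nat_lit 5) .nil))))))) (.g (nat_lit 4) .nil .nil)))) (.nd (nat_lit 5) 
(.lf (nat_lit 65439) (.g (nat_lit 1907) (.e (nat_lit 1597) (nat_lit 111) (.e (nat_lit 360452) (nat_lit 0) (.e (nat_lit 7272) (nat_lit 385) (.e (nat_lit 122916) (nat_lit 14) (.e (nat_lit 352295) (nat_lit 20) .nil))))) .nil)) 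
(.lf (nat_lit 65471) (.g (nat_lit 936) (.e (nat_lit 1597) (nat_lit 111) (.e (nat_lit 368384) (nat_lit 0) (.e (nat_lit 5906) (nat_lit 320) (.e (nat_lit 1219) (nat_lit 90) (.e (nat_lit 89856) (nat_lit 8) (.e (nat_lit 262145) (nat_lit 0) .nil)))))) (.g (nat_lit 4) .nil .nil)))))))))


end

end Pool.Agent.Lib.MP_5854e1_co.Cz
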