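import Pool.Agent.Lib.MP_5854e1_co.DtD

/-!
# Windows and cells of the rings
-/

set_option autoImplicit false
set_option maxRecDepth 100000
set_option deprecated.oldSectionVars true

namespace Pool.Agent.Lib.MP_5854e1_co.Cz

open Pool.Agent.Lib.MP_5854e1_co

noncomputable section

noncomputable def tv5620 : DT := (.nd (nat_lit 0) (.nd (nat_lit 1) (.nd (nat_lit 2) (.nd (nat_lit 3) (.nd (nat_lit 4) (.nd (nat_lit 5) (.nd (nat_lit 6) (.nd (nat_lit 7) (.nd (nat_lit 8) (.nd (nat_lit 9) 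
(.lf (nat_lit 573440) (.g (nat_lit 1936) (.e (nat_lit 483365) (nat_lit 18) (.e (nat_lit 57931) (nat_lit 282) (.e (nat_lit 163866) (nat_lit 2) (.e (nat_lit 196672) (nat_lit 15) (.e (nat_lit 89856) (nat_lit 18) .nil))))) (.g (nat_lit 1) (.e (nat_lit 357882) (nat_lit 0) .nil) .nil))) 
(.lf (nat_lit 573952) (.g (nat_lit 2007) (.e (nat_lit 483384) (nat_lit 23) (.e (nat_lit 336324) (nat_lit 18) (.e (nat_lit 204831) (nat_lit 18) (.e (nat_lit 57852) (nat_lit 252) (.e (nat_lit 57409) (nat_lit 12) .nil))))) (.g (nat_lit 0) (.e (nat_lit 359242) (nat_lit 0) .nil) .nil)))) (.nd (nat_lit 9) 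
(.lf (nat_lit 573696) (.g (nat_lit 500) (.e (nat_lit 483372) (nat_lit 21) (.e (nat_lit 319533) (nat_lit 16) (.e (nat_lit 286725) (nat_lit 0) .nil))) (.g (nat_lit 0) (.e (nat_lit 358410) (nat_lit 0) .nil) .nil))) 
(.lf (nat_lit 574208) (.g (nat_lit 1292) (.e (nat_lit 483394) (nat_lit 24) (.e (nat_lit 344117) (nat_lit 21) (.e (nat_lit 516195) (nat_lit 26) (.e (nat_lit 335993) (nat_lit 1) (.e (nat_lit 57929) (nat_lit 282) .nil))))) (.g (nat_lit 0) (.e (nat_lit 360104) (nat_lit 0) .nil) .nil))))) (.nd (nat_lit 8) (.nd (nat_lit 9) 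
(.lf (nat_lit 573568) (.g (nat_lit 3768) (.e (nat_lit 483366) (nat_lit 18) (.e (nat_lit 57854) (nat_lit 252) (.e (nat_lit 57373) (nat_lit 2) (.e (nat_lit 90160) (nat_lit 11) (.e (nat_lit 24628) (nat_lit 9) (.e (nat_lit 336454) (nat_lit 34) .nil)))))) (.g (nat_lit 1) (.e (nat_lit 358029) (nat_lit 0) .nil) .nil))) 
(.lf (nat_lit 574080) (.g (nat_lit 1827) (.e (nat_lit 483393) (nat_lit 23) (.e (nat_lit 335987) (nat_lit 1) (.e (nat_lit 57854) (nat_lit 252) (.e (nat_lit 57347) (nat_lit 0) (.e (nat_lit 2083) (nat_lit 142) .nil))))) (.g (nat_lit 0) (.e (nat_lit 359725) (nat_lit 0) .nil) .nil)))) (.nd (nat_lit 9) 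
(.lf (nat_lit 573824) (.g (nat_lit 2066) (.e (nat_lit 483382) (nat_lit 23) (.e (nat_lit 336320) (nat_lit 17) (.e (nat_lit 196698) (nat_lit 19) (.e (nat_lit 57816) (nat_lit 246) (.e (nat_lit 57881) (nat_lit 270) (.e (nat_lit 496) (nat_lit 39) .nil)))))) (.g (nat_lit 1) (.e (nat_lit 358864) (nat_lit 0) .nil) .nil))) 
(.lf (nat_lit 574336) (.g (nat_lit 1170) (.e (nat_lit 483398) (nat_lit 25) (.e (nat_lit 368676) (nat_lit 21) (.e (nat_lit 516117) (nat_lit 1) (.e (nat_lit 164183) (nat_lit 154) (.e (nat_lit 65280) (nat_lit 12) .nil))))) (.g (nat_lit 0) (.e (nat_lit 360452) (nat_lit 0) .nil) .nil)))))) (.nd (nat_lit 7) (.nd (nat_lit 8) (.nd (nat_lit 9) 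
(.lf (nat_lit 573504) (.g (nat_lit 1915) (.e (nat_lit 483366) (nat_lit 18) (.e (nat_lit 57847) (nat_lit 252) (.e (nat_lit 57372) (nat_lit 2) (.e (nat_lit 90128) (nat_lit 9) (.e (nat_lit 309) (nat_lit 23) .nil))))) (.g (nat_lit 0) (.e (nat_lit 357964) (nat_lit 0) .nil) .nil))) 
(.lf (nat_lit 574016) (.g (nat_lit 2457) (.e (nat_lit 483388) (nat_lit 23) (.e (nat_lit 336295) (nat_lit 15) (.e (nat_lit 3632) (nat_lit 227) (.e (nat_lit 778324) (nat_lit 5) (.e (nat_lit 73781) (nat_lit 32) .nil))))) (.g (nat_lit 0) (.e (nat_lit 359552) (nat_lit 0) .nil) .nil)))) (.nd (nat_lit 9) 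
(.lf (nat_lit 573760) (.g (nat_lit 3823) (.e (nat_lit 483380) (nat_lit 23) (.e (nat_lit 336324) (nat_lit 18) (.e (nat_lit 204831) (nat_lit 18) (.e (nat_lit 57829) (nat_lit 250) .nil)))) (.g (nat_lit 0) (.e (nat_lit 358673) (nat_lit 0) .nil) .nil))) 
(.lf (nat_lit 574272) (.g (nat_lit 2464) (.e (nat_lit 483395) (nat_lit 24) (.e (nat_lit 344169) (nat_lit 40) (.e (nat_lit 671763) (nat_lit 5) (.e (nat_lit 73781) (nat_lit 32) (.e (nat_lit 3089) (nat_lit 191) .nil))))) (.g (nat_lit 1) (.e (nat_lit 360289) (nat_lit 0) .nil) .nil))))) (.nd (nat_lit 8) (.nd (nat_lit 9) 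
(.lf (nat_lit 573632) (.g (nat_lit 1203) (.e (nat_lit 483370) (nat_lit 20) (.e (nat_lit 147498) (nat_lit 12) (.e (nat_lit 164054) (nat_lit 56) (.e (nat_lit 786457) (nat_lit 18) (.e (nat_lit 98365) (nat_lit 26) (.e (nat_lit 426325) (nat_lit 13) .nil)))))) (.g (nat_lit 1) (.e (nat_lit 358152) (nat_lit 0) .nil) .nil))) 
(.lf (nat_lit 574144) (.g (nat_lit 885) (.e (nat_lit 483393) (nat_lit 23) (.e (nat_lit 336027) (nat_lit 3) (.e (nat_lit 98332) (nat_lit 18) .nil))) (.g (nat_lit 0) (.e (nat_lit 359979) (nat_lit 0) .nil) .nil)))) (.nd (nat_lit 9) 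
(.lf (nat_lit 573888) (.g (nat_lit 1995) (.e (nat_lit 483383) (nat_lit 23) (.e (nat_lit 336324) (nat_lit 18) (.e (nat_lit 204829) (nat_lit 18) (.e (nat_lit 57848) (nat_lit 252) (.e (nat_lit 57408) (nat_lit 12) .nil))))) (.g (nat_lit 0) (.e (nat_lit 359099) (nat_lit 0) .nil) .nil))) 
(.lf (nat_lit 574400) (.g (nat_lit 1275) (.e (nat_lit 483402) (nat_lit 26) (.e (nat_lit 385092) (nat_lit 49) (.e (nat_lit 778323) (nat_lit 5) (.e (nat_lit 73782) (nat_lit 32) (.e (nat_lit 3087) (nat_lit 191) .nil))))) (.g (nat_lit 1) (.e (nat_lit 360673) (nat_lit 0) .nil) .nil))))))) (.nd (nat_lit 6) (.nd (nat_lit 7) (.nd (nat_lit 8) (.nd (nat_lit 9) 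
(.lf (nat_lit 573472) (.g (nat_lit 2256) (.e (nat_lit 483366) (nat_lit 18) (.e (nat_lit 57688) (nat_lit 156) (.e (nat_lit 163905) (nat_lit 12) (.e (nat_lit 426436) (nat_lit 18) (.e (nat_lit 98358) (nat_lit 26) .nil))))) (.g (nat_lit 0) (.e (nat_lit 357925) (nat_lit 0) .nil) .nil))) 
(.lf (nat_lit 573984) (.g (nat_lit 3983) (.e (nat_lit 483385) (nat_lit 23) (.e (nat_lit 336324) (nat_lit 18) (.e (nat_lit 204831) (nat_lit 18) (.e (nat_lit 57845) (nat_lit 252) .nil)))) (.g (nat_lit 0) (.e (nat_lit 359400) (nat_lit 0) .nil) .nil)))) (.nd (nat_lit 9) 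
(.lf (nat_lit 573728) (.g (nat_lit 2091) (.e (nat_lit 483378) (nat_lit 23) (.e (nat_lit 336282) (nat_lit 15) (.e (nat_lit 3632) (nat_lit 227) (.e (nat_lit 778323) (nat_lit 5) (.e (nat_lit 73782) (nat_lit 32) .nil))))) (.g (nat_lit 0) (.e (nat_lit 358587) (nat_lit 0) .nil) .nil))) 
(.lf (nat_lit 574240) (.g (nat_lit 2008) (.e (nat_lit 483395) (nat_lit 24) (.e (nat_lit 344117) (nat_lit 21) (.e (nat_lit 516097) (nat_lit 0) (.e (nat_lit 3460) (nat_lit 216) .nil)))) (.g (nat_lit 0) (.e (nat_lit 360173) (nat_lit 0) .nil) .nil))))) (.nd (nat_lit 8) (.nd (nat_lit 9) 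
(.lf (nat_lit 573600) (.g (nat_lit 1549) (.e (nat_lit 483366) (nat_lit 18) (.e (nat_lit 57930) (nat_lit 282) (.e (nat_lit 163869) (nat_lit 2) (.e (nat_lit 196672) (nat_lit 15) (.e (nat_lit 89856) (nat_lit 18) .nil))))) (.g (nat_lit 1) (.e (nat_lit 358064) (nat_lit 0) .nil) .nil))) 
(.lf (nat_lit 574112) (.g (nat_lit 974) (.e (nat_lit 483393) (nat_lit 23) (.e (nat_lit 335994) (nat_lit 1) (.e (nat_lit 57873) (nat_lit 264) (.e (nat_lit 1209) (nat_lit 89) .nil)))) (.g (nat_lit 0) (.e (nat_lit 359815) (nat_lit 0) .nil) .nil)))) (.nd (nat_lit 9) 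
(.lf (nat_lit 573856) (.g (nat_lit 396) (.e (nat_lit 483383) (nat_lit 23) (.e (nat_lit 336019) (nat_lit 3) (.e (nat_lit 98333) (nat_lit 18) .nil))) (.g (nat_lit 0) (.e (nat_lit 359038) (nat_lit 0) .nil) .nil))) 
(.lf (nat_lit 574368) (.g (nat_lit 849) (.e (nat_lit 483400) (nat_lit 25) (.e (nat_lit 368676) (nat_lit 21) (.e (nat_lit 516115) (nat_lit 1) .nil))) (.g (nat_lit 0) (.e (nat_lit 360557) (nat_lit 0) .nil) .nil)))))) (.nd (nat_lit 7) (.nd (nat_lit 8) (.nd (nat_lit 9) 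
(.lf (nat_lit 573536) (.g (nat_lit 2696) (.e (nat_lit 483366) (nat_lit 18) (.e (nat_lit 57849) (nat_lit 252) (.e (nat_lit 57374) (nat_lit 2) (.e (nat_lit 90158) (nat_lit 11) (.e (nat_lit 24625) (nat_lit 9) .nil))))) (.g (nat_lit 0) (.e (nat_lit 357997) (nat_lit 0) .nil) .nil))) 
(.lf (nat_lit 574048) (.g (nat_lit 1735) (.e (nat_lit 483392) (nat_lit 23) (.e (nat_lit 335995) (nat_lit 1) (.e (nat_lit 57872) (nat_lit 264) (.e (nat_lit 1211) (nat_lit 89) (.e (nat_lit 73782) (nat_lit 32) .nil))))) (.g (nat_lit 0) (.e (nat_lit 359629) (nat_lit 0) .nil) .nil)))) (.nd (nat_lit 9) 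
(.lf (nat_lit 573792) (.g (nat_lit 2664) (.e (nat_lit 483381) (nat_lit 23) (.e (nat_lit 336324) (nat_lit 18) (.e (nat_lit 204831) (nat_lit 18) (.e (nat_lit 57846) (nat_lit 252) .nil)))) (.g (nat_lit 0) (.e (nat_lit 358799) (nat_lit 0) .nil) .nil))) 
(.lf (nat_lit 574304) (.g (nat_lit 508) (.e (nat_lit 483396) (nat_lit 24) (.e (nat_lit 344169) (nat_lit 40) (.e (nat_lit 671748) (nat_lit 0) .nil))) (.g (nat_lit 0) (.e (nat_lit 360364) (nat_lit 0) .nil) .nil))))) (.nd (nat_lit 8) (.nd (nat_lit 9) 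
(.lf (nat_lit 573664) (.g (nat_lit 556) (.e (nat_lit 483372) (nat_lit 21) (.e (nat_lit 319505) (nat_lit 10) (.e (nat_lit 580) (nat_lit 43) .nil))) (.g (nat_lit 0) (.e (nat_lit 358282) (nat_lit 0) .nil) .nil))) 
(.lf (nat_lit 574176) (.g (nat_lit 3530) (.e (nat_lit 483394) (nat_lit 24) (.e (nat_lit 344097) (nat_lit 18) (.e (nat_lit 5906) (nat_lit 320) (.e (nat_lit 1209) (nat_lit 89) (.e (nat_lit 73781) (nat_lit 32) (.e (nat_lit 3090) (nat_lit 191) .nil)))))) (.g (nat_lit 1) (.e (nat_lit 360046) (nat_lit 0) .nil) .nil)))) (.nd (nat_lit 9) 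
(.lf (nat_lit 573920) (.g (nat_lit 1772) (.e (nat_lit 483384) (nat_lit 23) (.e (nat_lit 336019) (nat_lit 3) (.e (nat_lit 98334) (nat_lit 18) (.e (nat_lit 164161) (nat_lit 152) .nil)))) (.g (nat_lit 0) (.e (nat_lit 359182) (nat_lit 0) .nil) .nil))) 
(.lf (nat_lit 574432) (.g (nat_lit 293) (.e (nat_lit 483403) (nat_lit 26) (.e (nat_lit 385094) (nat_lit 49) (.e (nat_lit 778324) (nat_lit 5) .nil))) (.g (nat_lit 0) (.e (nat_lit 360756) (nat_lit 0) .nil) .nil)))))))) (.nd (nat_lit 5) (.nd (nat_lit 6) (.nd (nat_lit 7) (.nd (nat_lit 8) (.nd (nat_lit 9) 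
(.lf (nat_lit 573456) (.g (nat_lit 2190) (.e (nat_lit 483365) (nat_lit 18) (.e (nat_lit 57931) (nat_lit 282) (.e (nat_lit 163873) (nat_lit 3) (.e (nat_lit 204878) (nat_lit 31) (.e (nat_lit 384768) (nat_lit 18) .nil))))) (.g (nat_lit 1) (.e (nat_lit 357903) (nat_lit 0) .nil) .nil))) 
(.lf (nat_lit 573968) (.g (nat_lit 2043) (.e (nat_lit 483385) (nat_lit 23) (.e (nat_lit 336306) (nat_lit 15) (.e (nat_lit 3238) (nat_lit 197) (.e (nat_lit 532500) (nat_lit 1) (.e (nat_lit 57844) (nat_lit 252) .nil))))) (.g (nat_lit 0) (.e (nat_lit 359328) (nat_lit 0) .nil) .nil)))) (.nd (nat_lit 9) 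
(.lf (nat_lit 573712) (.g (nat_lit 1940) (.e (nat_lit 483372) (nat_lit 21) (.e (nat_lit 319534) (nat_lit 16) (.e (nat_lit 286728) (nat_lit 0) (.e (nat_lit 2391) (nat_lit 156) (.e (nat_lit 819202) (nat_lit 0) .nil))))) (.g (nat_lit 0) (.e (nat_lit 358456) (nat_lit 0) .nil) .nil))) 
(.lf (nat_lit 574224) (.g (nat_lit 2263) (.e (nat_lit 483394) (nat_lit 24) (.e (nat_lit 344169) (nat_lit 40) (.e (nat_lit 671763) (nat_lit 5) (.e (nat_lit 73782) (nat_lit 32) (.e (nat_lit 3089) (nat_lit 191) .nil))))) (.g (nat_lit 1) (.e (nat_lit 360138) (nat_lit 0) .nil) .nil))))) (.nd (nat_lit 8) (.nd (nat_lit 9) 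
(.lf (nat_lit 573584) (.g (nat_lit 1408) (.e (nat_lit 483366) (nat_lit 18) (.e (nat_lit 57924) (nat_lit 282) (.e (nat_lit 163875) (nat_lit 3) (.e (nat_lit 204865) (nat_lit 28) (.e (nat_lit 360192) (nat_lit 18) .nil))))) (.g (nat_lit 1) (.e (nat_lit 358047) (nat_lit 0) .nil) .nil))) 
(.lf (nat_lit 574096) (.g (nat_lit 1390) (.e (nat_lit 483393) (nat_lit 23) (.e (nat_lit 335988) (nat_lit 1) (.e (nat_lit 57854) (nat_lit 252) (.e (nat_lit 57345) (nat_lit 0) .nil)))) (.g (nat_lit 0) (.e (nat_lit 359776) (nat_lit 0) .nil) .nil)))) (.nd (nat_lit 9) 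
(.lf (nat_lit 573840) (.g (nat_lit 1966) (.e (nat_lit 483382) (nat_lit 23) (.e (nat_lit 336324) (nat_lit 18) (.e (nat_lit 204831) (nat_lit 18) (.e (nat_lit 57844) (nat_lit 252) .nil)))) (.g (nat_lit 0) (.e (nat_lit 358895) (nat_lit 0) .nil) .nil))) 
(.lf (nat_lit 574352) (.g (nat_lit 743) (.e (nat_lit 483399) (nat_lit 25) (.e (nat_lit 368676) (nat_lit 21) (.e (nat_lit 516097) (nat_lit 0) .nil))) (.g (nat_lit 0) (.e (nat_lit 360490) (nat_lit 0) .nil) .nil)))))) (.nd (nat_lit 7) (.nd (nat_lit 8) (.nd (nat_lit 9) 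
(.lf (nat_lit 573520) (.g (nat_lit 1317) (.e (nat_lit 483366) (nat_lit 18) (.e (nat_lit 57848) (nat_lit 252) (.e (nat_lit 57372) (nat_lit 2) (.e (nat_lit 90133) (nat_lit 9) (.e (nat_lit 333) (nat_lit 26) .nil))))) (.g (nat_lit 0) (.e (nat_lit 357980) (nat_lit 0) .nil) .nil))) 
(.lf (nat_lit 574032) (.g (nat_lit 1439) (.e (nat_lit 483391) (nat_lit 23) (.e (nat_lit 335998) (nat_lit 1) (.e (nat_lit 57873) (nat_lit 264) (.e (nat_lit 1210) (nat_lit 89) .nil)))) (.g (nat_lit 0) (.e (nat_lit 359588) (nat_lit 0) .nil) .nil)))) (.nd (nat_lit 9) 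
(.lf (nat_lit 573776) (.g (nat_lit 3702) (.e (nat_lit 483380) (nat_lit 23) (.e (nat_lit 336324) (nat_lit 18) (.e (nat_lit 204831) (nat_lit 18) (.e (nat_lit 57854) (nat_lit 252) (.e (nat_lit 57406) (nat_lit 12) (.e (nat_lit 336454) (nat_lit 34) .nil)))))) (.g (nat_lit 1) (.e (nat_lit 358700) (nat_lit 0) .nil) .nil))) 
(.lf (nat_lit 574288) (.g (nat_lit 2066) (.e (nat_lit 483396) (nat_lit 24) (.e (nat_lit 344097) (nat_lit 18) (.e (nat_lit 5907) (nat_lit 320) (.e (nat_lit 1209) (nat_lit 89) (.e (nat_lit 73782) (nat_lit 32) .nil))))) (.g (nat_lit 0) (.e (nat_lit 360318) (nat_lit 0) .nil) .nil))))) (.nd (nat_lit 8) (.nd (nat_lit 9) 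
(.lf (nat_lit 573648) (.g (nat_lit 388) (.e (nat_lit 483372) (nat_lit 21) (.e (nat_lit 319504) (nat_lit 10) (.e (nat_lit 584) (nat_lit 43) .nil))) (.g (nat_lit 0) (.e (nat_lit 358248) (nat_lit 0) .nil) .nil))) 
(.lf (nat_lit 574160) (.g (nat_lit 526) (.e (nat_lit 491264) (nat_lit 23) (.e (nat_lit 335996) (nat_lit 1) (.e (nat_lit 57851) (nat_lit 252) .nil))) (.g (nat_lit 0) (.e (nat_lit 360013) (nat_lit 0) .nil) .nil)))) (.nd (nat_lit 9) 
(.lf (nat_lit 573904) (.g (nat_lit 3917) (.e (nat_lit 483383) (nat_lit 23) (.e (nat_lit 336324) (nat_lit 18) (.e (nat_lit 204831) (nat_lit 18) (.e (nat_lit 57856) (nat_lit 253) .nil)))) (.g (nat_lit 0) (.e (nat_lit 359128) (nat_lit 0) .nil) .nil))) 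
(.lf (nat_lit 574416) (.g (nat_lit 1968) (.e (nat_lit 483403) (nat_lit 26) (.e (nat_lit 385066) (nat_lit 26) (.e (nat_lit 532503) (nat_lit 1) (.e (nat_lit 57849) (nat_lit 252) (.e (nat_lit 57405) (nat_lit 12) .nil))))) (.g (nat_lit 0) (.e (nat_lit 360719) (nat_lit 0) .nil) .nil))))))) (.nd (nat_lit 6) (.nd (nat_lit 7) (.nd (nat_lit 8) (.nd (nat_lit 9) 
(.lf (nat_lit 573488) (.g (nat_lit 1327) (.e (nat_lit 483366) (nat_lit 18) (.e (nat_lit 57692) (nat_lit 156) (.e (nat_lit 163906) (nat_lit 12) (.e (nat_lit 426438) (nat_lit 18) (.e (nat_lit 98363) (nat_lit 26) .nil))))) (.g (nat_lit 0) (.e (nat_lit 357948) (nat_lit 0) .nil) .nil))) 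
(.lf (nat_lit 574000) (.g (nat_lit 511) (.e (nat_lit 483386) (nat_lit 23) (.e (nat_lit 336295) (nat_lit 15) (.e (nat_lit 3253) (nat_lit 197) .nil))) (.g (nat_lit 0) (.e (nat_lit 359510) (nat_lit 0) .nil) .nil)))) (.nd (nat_lit 9) 
(.lf (nat_lit 573744) (.g (nat_lit 2745) (.e (nat_lit 483380) (nat_lit 23) (.e (nat_lit 336261) (nat_lit 15) (.e (nat_lit 3633) (nat_lit 227) (.e (nat_lit 778324) (nat_lit 5) (.e (nat_lit 73781) (nat_lit 32) (.e (nat_lit 3090) (nat_lit 191) .nil)))))) (.g (nat_lit 1) (.e (nat_lit 358630) (nat_lit 0) .nil) .nil))) 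
(.lf (nat_lit 574256) (.g (nat_lit 1282) (.e (nat_lit 483395) (nat_lit 24) (.e (nat_lit 344118) (nat_lit 21) (.e (nat_lit 516117) (nat_lit 1) (.e (nat_lit 164183) (nat_lit 154) .nil)))) (.g (nat_lit 0) (.e (nat_lit 360223) (nat_lit 0) .nil) .nil))))) (.nd (nat_lit 8) (.nd (nat_lit 9) 
(.lf (nat_lit 573616) (.g (nat_lit 2242) (.e (nat_lit 483366) (nat_lit 18) (.e (nat_lit 57931) (nat_lit 282) (.e (nat_lit 163874) (nat_lit 3) (.e (nat_lit 204866) (nat_lit 28) (.e (nat_lit 360192) (nat_lit 18) .nil))))) (.g (nat_lit 1) (.e (nat_lit 358084) (nat_lit 0) .nil) .nil))) 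
(.lf (nat_lit 574128) (.g (nat_lit 2103) (.e (nat_lit 483393) (nat_lit 23) (.e (nat_lit 336021) (nat_lit 3) (.e (nat_lit 98316) (nat_lit 9) (.e (nat_lit 335988) (nat_lit 1) (.e (nat_lit 57926) (nat_lit 282) .nil))))) (.g (nat_lit 0) (.e (nat_lit 359945) (nat_lit 0) .nil) .nil)))) (.nd (nat_lit 9) 
(.lf (nat_lit 573872) (.g (nat_lit 1348) (.e (nat_lit 483383) (nat_lit 23) (.e (nat_lit 336019) (nat_lit 3) (.e (nat_lit 98335) (nat_lit 18) (.e (nat_lit 164147) (nat_lit 152) .nil)))) (.g (nat_lit 0) (.e (nat_lit 359069) (nat_lit 0) .nil) .nil))) 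
(.lf (nat_lit 574384) (.g (nat_lit 2135) (.e (nat_lit 483401) (nat_lit 25) (.e (nat_lit 368676) (nat_lit 21) (.e (nat_lit 516119) (nat_lit 1) (.e (nat_lit 164149) (nat_lit 152) (.e (nat_lit 1204) (nat_lit 88) .nil))))) (.g (nat_lit 0) (.e (nat_lit 360616) (nat_lit 0) .nil) .nil)))))) (.nd (nat_lit 7) (.nd (nat_lit 8) (.nd (nat_lit 9) 
(.lf (nat_lit 573552) (.g (nat_lit 2447) (.e (nat_lit 483366) (nat_lit 18) (.e (nat_lit 57854) (nat_lit 252) (.e (nat_lit 57371) (nat_lit 2) (.e (nat_lit 90123) (nat_lit 9) .nil)))) (.g (nat_lit 0) (.e (nat_lit 358013) (nat_lit 0) .nil) .nil))) 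
(.lf (nat_lit 574064) (.g (nat_lit 1661) (.e (nat_lit 483393) (nat_lit 23) (.e (nat_lit 335986) (nat_lit 1) (.e (nat_lit 57847) (nat_lit 252) (.e (nat_lit 57358) (nat_lit 0) .nil)))) (.g (nat_lit 0) (.e (nat_lit 359670) (nat_lit 0) .nil) .nil)))) (.nd (nat_lit 9) 
(.lf (nat_lit 573808) (.g (nat_lit 1070) (.e (nat_lit 483381) (nat_lit 23) (.e (nat_lit 336336) (nat_lit 20) (.e (nat_lit 229120) (nat_lit 5) (.e (nat_lit 114698) (nat_lit 11) (.e (nat_lit 426333) (nat_lit 13) .nil))))) (.g (nat_lit 0) (.e (nat_lit 358823) (nat_lit 0) .nil) .nil))) 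
(.lf (nat_lit 574320) (.g (nat_lit 1766) (.e (nat_lit 483397) (nat_lit 25) (.e (nat_lit 368676) (nat_lit 21) (.e (nat_lit 516117) (nat_lit 1) (.e (nat_lit 164183) (nat_lit 154) .nil)))) (.g (nat_lit 0) (.e (nat_lit 360396) (nat_lit 0) .nil) .nil))))) (.nd (nat_lit 8) (.nd (nat_lit 9) 
(.lf (nat_lit 573680) (.g (nat_lit 385) (.e (nat_lit 483372) (nat_lit 21) (.e (nat_lit 319539) (nat_lit 19) (.e (nat_lit 319232) (nat_lit 27) .nil))) (.g (nat_lit 0) (.e (nat_lit 358329) (nat_lit 0) .nil) .nil))) 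
(.lf (nat_lit 574192) (.g (nat_lit 2018) (.e (nat_lit 483394) (nat_lit 24) (.e (nat_lit 344117) (nat_lit 21) (.e (nat_lit 516116) (nat_lit 1) (.e (nat_lit 164158) (nat_lit 152) .nil)))) (.g (nat_lit 0) (.e (nat_lit 360073) (nat_lit 0) .nil) .nil)))) (.nd (nat_lit 9) 
(.lf (nat_lit 573936) (.g (nat_lit 1353) (.e (nat_lit 483384) (nat_lit 23) (.e (nat_lit 336324) (nat_lit 18) (.e (nat_lit 204831) (nat_lit 18) (.e (nat_lit 57830) (nat_lit 250) .nil)))) (.g (nat_lit 0) (.e (nat_lit 359220) (nat_lit 0) .nil) .nil))) 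
(.lf (nat_lit 574448) (.g (nat_lit 1813) (.e (nat_lit 483405) (nat_lit 26) (.e (nat_lit 385057) (nat_lit 22) (.e (nat_lit 499780) (nat_lit 1) (.e (nat_lit 57809) (nat_lit 246) (.e (nat_lit 57883) (nat_lit 270) (.e (nat_lit 496) (nat_lit 39) .nil)))))) (.g (nat_lit 1) (.e (nat_lit 360832) (nat_lit 0) .nil) .nil))))))))) 
(.nd (nat_lit 4) (.nd (nat_lit 5) (.nd (nat_lit 6) (.nd (nat_lit 7) (.nd (nat_lit 8) 
(.nd (nat_lit 9) 
(.lf (nat_lit 573448) (.g (nat_lit 2452) (.e (nat_lit 483365) (nat_lit 18) (.e (nat_lit 57931) (nat_lit 282) (.e (nat_lit 163869) (nat_lit 2) (.e (nat_lit 196672) (nat_lit 15) (.e (nat_lit 89856) (nat_lit 18) .nil))))) (.g (nat_lit 1) (.e (nat_lit 357894) (nat_lit 0) .nil) .nil))) 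
(.lf (nat_lit 573960) (.g (nat_lit 440) (.e (nat_lit 483384) (nat_lit 23) (.e (nat_lit 336334) (nat_lit 20) (.e (nat_lit 229120) (nat_lit 5) .nil))) (.g (nat_lit 0) (.e (nat_lit 359269) (nat_lit 0) .nil) .nil)))) (.nd (nat_lit 9) 
(.lf (nat_lit 573704) (.g (nat_lit 283) (.e (nat_lit 483372) (nat_lit 21) (.e (nat_lit 319534) (nat_lit 16) (.e (nat_lit 286722) (nat_lit 0) .nil))) (.g (nat_lit 0) (.e (nat_lit 358444) (nat_lit 0) .nil) .nil))) 
(.lf (nat_lit 574216) (.g (nat_lit 1901) (.e (nat_lit 483394) (nat_lit 24) (.e (nat_lit 344129) (nat_lit 26) (.e (nat_lit 557090) (nat_lit 12) (.e (nat_lit 163999) (nat_lit 38) .nil)))) (.g (nat_lit 0) (.e (nat_lit 360114) (nat_lit 0) .nil) .nil))))) (.nd (nat_lit 8) (.nd (nat_lit 9) 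
(.lf (nat_lit 573576) (.g (nat_lit 2536) (.e (nat_lit 483366) (nat_lit 18) (.e (nat_lit 57854) (nat_lit 252) (.e (nat_lit 57378) (nat_lit 3) (.e (nat_lit 98314) (nat_lit 9) .nil)))) (.g (nat_lit 0) (.e (nat_lit 358038) (nat_lit 0) .nil) .nil))) 
(.lf (nat_lit 574088) (.g (nat_lit 1855) (.e (nat_lit 483393) (nat_lit 23) (.e (nat_lit 335988) (nat_lit 1) (.e (nat_lit 57852) (nat_lit 252) (.e (nat_lit 57349) (nat_lit 0) .nil)))) (.g (nat_lit 0) (.e (nat_lit 359753) (nat_lit 0) .nil) .nil)))) (.nd (nat_lit 9) 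
(.lf (nat_lit 573832) (.g (nat_lit 4239) (.e (nat_lit 483382) (nat_lit 23) (.e (nat_lit 336324) (nat_lit 18) (.e (nat_lit 204831) (nat_lit 18) (.e (nat_lit 57823) (nat_lit 250) .nil)))) (.g (nat_lit 0) (.e (nat_lit 358881) (nat_lit 0) .nil) .nil))) 
(.lf (nat_lit 574344) (.g (nat_lit 1573) (.e (nat_lit 483398) (nat_lit 25) (.e (nat_lit 368676) (nat_lit 21) (.e (nat_lit 516119) (nat_lit 1) (.e (nat_lit 164183) (nat_lit 154) .nil)))) (.g (nat_lit 0) (.e (nat_lit 360460) (nat_lit 0) .nil) .nil)))))) (.nd (nat_lit 7) (.nd (nat_lit 8) (.nd (nat_lit 9) 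
(.lf (nat_lit 573512) (.g (nat_lit 1351) (.e (nat_lit 483366) (nat_lit 18) (.e (nat_lit 57848) (nat_lit 252) (.e (nat_lit 57372) (nat_lit 2) (.e (nat_lit 90122) (nat_lit 9) .nil)))) (.g (nat_lit 0) (.e (nat_lit 357972) (nat_lit 0) .nil) .nil))) 
(.lf (nat_lit 574024) (.g (nat_lit 2709) (.e (nat_lit 483389) (nat_lit 23) (.e (nat_lit 336295) (nat_lit 15) (.e (nat_lit 3632) (nat_lit 227) (.e (nat_lit 778323) (nat_lit 5) (.e (nat_lit 73782) (nat_lit 32) (.e (nat_lit 3089) (nat_lit 191) .nil)))))) (.g (nat_lit 1) (.e (nat_lit 359570) (nat_lit 0) .nil) .nil)))) (.nd (nat_lit 9) 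
(.lf (nat_lit 573768) (.g (nat_lit 3627) (.e (nat_lit 483380) (nat_lit 23) (.e (nat_lit 336324) (nat_lit 18) (.e (nat_lit 204831) (nat_lit 18) (.e (nat_lit 57848) (nat_lit 252) (.e (nat_lit 57407) (nat_lit 12) (.e (nat_lit 336454) (nat_lit 34) .nil)))))) (.g (nat_lit 1) (.e (nat_lit 358688) (nat_lit 0) .nil) .nil))) 
(.lf (nat_lit 574280) (.g (nat_lit 1411) (.e (nat_lit 483395) (nat_lit 24) (.e (nat_lit 344160) (nat_lit 37) (.e (nat_lit 647203) (nat_lit 14) (.e (nat_lit 1341) (nat_lit 101) .nil)))) (.g (nat_lit 0) (.e (nat_lit 360305) (nat_lit 0) .nil) .nil))))) (.nd (nat_lit 8) (.nd (nat_lit 9) 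
(.lf (nat_lit 573640) (.g (nat_lit 532) (.e (nat_lit 483371) (nat_lit 21) (.e (nat_lit 319506) (nat_lit 10) (.e (nat_lit 5722) (nat_lit 312) .nil))) (.g (nat_lit 0) (.e (nat_lit 358162) (nat_lit 0) .nil) .nil))) 
(.lf (nat_lit 574152) (.g (nat_lit 777) (.e (nat_lit 491264) (nat_lit 23) (.e (nat_lit 335988) (nat_lit 1) (.e (nat_lit 57854) (nat_lit 252) .nil))) (.g (nat_lit 0) (.e (nat_lit 359995) (nat_lit 0) .nil) .nil)))) (.nd (nat_lit 9) 
(.lf (nat_lit 573896) (.g (nat_lit 4102) (.e (nat_lit 483383) (nat_lit 23) (.e (nat_lit 336324) (nat_lit 18) (.e (nat_lit 204831) (nat_lit 18) (.e (nat_lit 57829) (nat_lit 250) .nil)))) (.g (nat_lit 0) (.e (nat_lit 359115) (nat_lit 0) .nil) .nil))) 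
(.lf (nat_lit 574408) (.g (nat_lit 2522) (.e (nat_lit 483403) (nat_lit 26) (.e (nat_lit 385057) (nat_lit 22) (.e (nat_lit 499780) (nat_lit 1) (.e (nat_lit 57816) (nat_lit 246) (.e (nat_lit 57878) (nat_lit 270) (.e (nat_lit 496) (nat_lit 39) .nil)))))) (.g (nat_lit 1) (.e (nat_lit 360698) (nat_lit 0) .nil) .nil))))))) (.nd (nat_lit 6) (.nd (nat_lit 7) (.nd (nat_lit 8) (.nd (nat_lit 9) 
(.lf (nat_lit 573480) (.g (nat_lit 2875) (.e (nat_lit 483366) (nat_lit 18) (.e (nat_lit 57688) (nat_lit 156) (.e (nat_lit 163936) (nat_lit 18) (.e (nat_lit 475179) (nat_lit 24) (.e (nat_lit 516150) (nat_lit 9) (.e (nat_lit 426323) (nat_lit 13) .nil)))))) (.g (nat_lit 1) (.e (nat_lit 357934) (nat_lit 0) .nil) .nil))) 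
(.lf (nat_lit 573992) (.g (nat_lit 3796) (.e (nat_lit 483385) (nat_lit 23) (.e (nat_lit 336324) (nat_lit 18) (.e (nat_lit 204831) (nat_lit 18) (.e (nat_lit 57854) (nat_lit 252) (.e (nat_lit 57406) (nat_lit 12) (.e (nat_lit 336454) (nat_lit 34) .nil)))))) (.g (nat_lit 1) (.e (nat_lit 359417) (nat_lit 0) .nil) .nil)))) (.nd (nat_lit 9) 
(.lf (nat_lit 573736) (.g (nat_lit 2790) (.e (nat_lit 483378) (nat_lit 23) (.e (nat_lit 336324) (nat_lit 18) (.e (nat_lit 204831) (nat_lit 18) (.e (nat_lit 57854) (nat_lit 252) .nil)))) (.g (nat_lit 0) (.e (nat_lit 358595) (nat_lit 0) .nil) .nil))) 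
(.lf (nat_lit 574248) (.g (nat_lit 1912) (.e (nat_lit 483395) (nat_lit 24) (.e (nat_lit 344117) (nat_lit 21) (.e (nat_lit 516116) (nat_lit 1) (.e (nat_lit 164181) (nat_lit 154) (.e (nat_lit 57409) (nat_lit 12) .nil))))) (.g (nat_lit 0) (.e (nat_lit 360196) (nat_lit 0) .nil) .nil))))) (.nd (nat_lit 8) (.nd (nat_lit 9) 
(.lf (nat_lit 573608) (.g (nat_lit 1962) (.e (nat_lit 483366) (nat_lit 18) (.e (nat_lit 57931) (nat_lit 282) (.e (nat_lit 163867) (nat_lit 2) (.e (nat_lit 196674) (nat_lit 15) (.e (nat_lit 89856) (nat_lit 18) .nil))))) (.g (nat_lit 1) (.e (nat_lit 358073) (nat_lit 0) .nil) .nil))) 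
(.lf (nat_lit 574120) (.g (nat_lit 1494) (.e (nat_lit 483393) (nat_lit 23) (.e (nat_lit 335996) (nat_lit 1) (.e (nat_lit 57852) (nat_lit 252) (.e (nat_lit 57350) (nat_lit 0) .nil)))) (.g (nat_lit 0) (.e (nat_lit 359832) (nat_lit 0) .nil) .nil)))) (.nd (nat_lit 9) 
(.lf (nat_lit 573864) (.g (nat_lit 1974) (.e (nat_lit 483383) (nat_lit 23) (.e (nat_lit 336019) (nat_lit 3) (.e (nat_lit 98333) (nat_lit 18) (.e (nat_lit 164180) (nat_lit 154) .nil)))) (.g (nat_lit 0) (.e (nat_lit 359051) (nat_lit 0) .nil) .nil))) 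
(.lf (nat_lit 574376) (.g (nat_lit 2072) (.e (nat_lit 483401) (nat_lit 25) (.e (nat_lit 368676) (nat_lit 21) (.e (nat_lit 516115) (nat_lit 1) (.e (nat_lit 164148) (nat_lit 152) (.e (nat_lit 1204) (nat_lit 88) .nil))))) (.g (nat_lit 0) (.e (nat_lit 360604) (nat_lit 0) .nil) .nil)))))) (.nd (nat_lit 7) (.nd (nat_lit 8) (.nd (nat_lit 9) 
(.lf (nat_lit 573544) (.g (nat_lit 3283) (.e (nat_lit 483366) (nat_lit 18) (.e (nat_lit 57851) (nat_lit 252) (.e (nat_lit 57371) (nat_lit 2) (.e (nat_lit 90160) (nat_lit 11) (.e (nat_lit 24628) (nat_lit 9) (.e (nat_lit 336454) (nat_lit 34) .nil)))))) (.g (nat_lit 1) (.e (nat_lit 358005) (nat_lit 0) .nil) .nil))) 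
(.lf (nat_lit 574056) (.g (nat_lit 1326) (.e (nat_lit 483392) (nat_lit 23) (.e (nat_lit 336027) (nat_lit 3) (.e (nat_lit 98334) (nat_lit 18) (.e (nat_lit 164183) (nat_lit 154) .nil)))) (.g (nat_lit 0) (.e (nat_lit 359649) (nat_lit 0) .nil) .nil)))) (.nd (nat_lit 9) 
(.lf (nat_lit 573800) (.g (nat_lit 2324) (.e (nat_lit 483381) (nat_lit 23) (.e (nat_lit 336324) (nat_lit 18) (.e (nat_lit 204831) (nat_lit 18) (.e (nat_lit 57852) (nat_lit 252) .nil)))) (.g (nat_lit 0) (.e (nat_lit 358807) (nat_lit 0) .nil) .nil))) 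
(.lf (nat_lit 574312) (.g (nat_lit 1198) (.e (nat_lit 483397) (nat_lit 25) (.e (nat_lit 368662) (nat_lit 18) (.e (nat_lit 5195) (nat_lit 294) (.e (nat_lit 57383) (nat_lit 4) .nil)))) (.g (nat_lit 0) (.e (nat_lit 360378) (nat_lit 0) .nil) .nil))))) (.nd (nat_lit 8) (.nd (nat_lit 9) 
(.lf (nat_lit 573672) (.g (nat_lit 678) (.e (nat_lit 483372) (nat_lit 21) (.e (nat_lit 319505) (nat_lit 10) (.e (nat_lit 5734) (nat_lit 312) (.e (nat_lit 7936) (nat_lit 22) .nil)))) (.g (nat_lit 0) (.e (nat_lit 358298) (nat_lit 0) .nil) .nil))) 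
(.lf (nat_lit 574184) (.g (nat_lit 2351) (.e (nat_lit 483394) (nat_lit 24) (.e (nat_lit 344117) (nat_lit 21) (.e (nat_lit 516115) (nat_lit 1) (.e (nat_lit 164148) (nat_lit 152) .nil)))) (.g (nat_lit 0) (.e (nat_lit 360063) (nat_lit 0) .nil) .nil)))) (.nd (nat_lit 9) 
(.lf (nat_lit 573928) (.g (nat_lit 1688) (.e (nat_lit 483384) (nat_lit 23) (.e (nat_lit 336324) (nat_lit 18) (.e (nat_lit 204830) (nat_lit 18) (.e (nat_lit 57852) (nat_lit 252) (.e (nat_lit 65280) (nat_lit 12) .nil))))) (.g (nat_lit 0) (.e (nat_lit 359210) (nat_lit 0) .nil) .nil))) 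
(.lf (nat_lit 574440) (.g (nat_lit 1513) (.e (nat_lit 483404) (nat_lit 26) (.e (nat_lit 385066) (nat_lit 26) (.e (nat_lit 532501) (nat_lit 1) (.e (nat_lit 57852) (nat_lit 252) (.e (nat_lit 57409) (nat_lit 12) .nil))))) (.g (nat_lit 0) (.e (nat_lit 360797) (nat_lit 0) .nil) .nil)))))))) (.nd (nat_lit 5) (.nd (nat_lit 6) (.nd (nat_lit 7) (.nd (nat_lit 8) (.nd (nat_lit 9) 
(.lf (nat_lit 573464) (.g (nat_lit 2845) (.e (nat_lit 483366) (nat_lit 18) (.e (nat_lit 57686) (nat_lit 156) (.e (nat_lit 163903) (nat_lit 12) (.e (nat_lit 426438) (nat_lit 18) (.e (nat_lit 98358) (nat_lit 26) (.e (nat_lit 426323) (nat_lit 13) .nil)))))) (.g (nat_lit 1) (.e (nat_lit 357912) (nat_lit 0) .nil) .nil))) 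
(.lf (nat_lit 573976) (.g (nat_lit 4684) (.e (nat_lit 483385) (nat_lit 23) (.e (nat_lit 336324) (nat_lit 18) (.e (nat_lit 204831) (nat_lit 18) (.e (nat_lit 57826) (nat_lit 250) .nil)))) (.g (nat_lit 0) (.e (nat_lit 359375) (nat_lit 0) .nil) .nil)))) (.nd (nat_lit 9) 
(.lf (nat_lit 573720) (.g (nat_lit 2683) (.e (nat_lit 483377) (nat_lit 22) (.e (nat_lit 327692) (nat_lit 1) (.e (nat_lit 8446) (nat_lit 140) (.e (nat_lit 57400) (nat_lit 10) (.e (nat_lit 319490) (nat_lit 0) (.e (nat_lit 5664) (nat_lit 312) (.e (nat_lit 3085) (nat_lit 191) .nil))))))) (.g (nat_lit 1) (.e (nat_lit 358522) (nat_lit 0) .nil) .nil))) 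
(.lf (nat_lit 574232) (.g (nat_lit 1244) (.e (nat_lit 483394) (nat_lit 24) (.e (nat_lit 344161) (nat_lit 37) (.e (nat_lit 647195) (nat_lit 9) (.e (nat_lit 982) (nat_lit 81) .nil)))) (.g (nat_lit 0) (.e (nat_lit 360153) (nat_lit 0) .nil) .nil))))) (.nd (nat_lit 8) (.nd (nat_lit 9) 
(.lf (nat_lit 573592) (.g (nat_lit 1506) (.e (nat_lit 483366) (nat_lit 18) (.e (nat_lit 57929) (nat_lit 282) (.e (nat_lit 163874) (nat_lit 3) (.e (nat_lit 204865) (nat_lit 28) (.e (nat_lit 360192) (nat_lit 18) .nil))))) (.g (nat_lit 1) (.e (nat_lit 358056) (nat_lit 0) .nil) .nil))) 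
(.lf (nat_lit 574104) (.g (nat_lit 1891) (.e (nat_lit 483393) (nat_lit 23) (.e (nat_lit 335988) (nat_lit 1) (.e (nat_lit 57854) (nat_lit 252) (.e (nat_lit 57347) (nat_lit 0) (.e (nat_lit 2095) (nat_lit 142) .nil))))) (.g (nat_lit 0) (.e (nat_lit 359784) (nat_lit 0) .nil) .nil)))) (.nd (nat_lit 9) 
(.lf (nat_lit 573848) (.g (nat_lit 1606) (.e (nat_lit 483382) (nat_lit 23) (.e (nat_lit 336326) (nat_lit 18) (.e (nat_lit 204830) (nat_lit 18) (.e (nat_lit 57851) (nat_lit 252) (.e (nat_lit 57406) (nat_lit 12) .nil))))) (.g (nat_lit 0) (.e (nat_lit 358913) (nat_lit 0) .nil) .nil))) 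
(.lf (nat_lit 574360) (.g (nat_lit 416) (.e (nat_lit 483399) (nat_lit 25) (.e (nat_lit 368676) (nat_lit 21) (.e (nat_lit 516119) (nat_lit 1) .nil))) (.g (nat_lit 0) (.e (nat_lit 360521) (nat_lit 0) .nil) .nil)))))) (.nd (nat_lit 7) (.nd (nat_lit 8) (.nd (nat_lit 9) 
(.lf (nat_lit 573528) (.g (nat_lit 1975) (.e (nat_lit 483366) (nat_lit 18) (.e (nat_lit 57848) (nat_lit 252) (.e (nat_lit 57375) (nat_lit 2) (.e (nat_lit 90121) (nat_lit 9) (.e (nat_lit 312) (nat_lit 23) .nil))))) (.g (nat_lit 0) (.e (nat_lit 357989) (nat_lit 0) .nil) .nil))) 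
(.lf (nat_lit 574040) (.g (nat_lit 1386) (.e (nat_lit 483391) (nat_lit 23) (.e (nat_lit 336319) (nat_lit 17) (.e (nat_lit 196698) (nat_lit 19) (.e (nat_lit 57811) (nat_lit 246) (.e (nat_lit 57883) (nat_lit 270) (.e (nat_lit 496) (nat_lit 39) .nil)))))) (.g (nat_lit 1) (.e (nat_lit 359608) (nat_lit 0) .nil) .nil)))) (.nd (nat_lit 9) 
(.lf (nat_lit 573784) (.g (nat_lit 497) (.e (nat_lit 483381) (nat_lit 23) (.e (nat_lit 336324) (nat_lit 18) (.e (nat_lit 204829) (nat_lit 18) .nil))) (.g (nat_lit 0) (.e (nat_lit 358784) (nat_lit 0) .nil) .nil))) 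
(.lf (nat_lit 574296) (.g (nat_lit 1128) (.e (nat_lit 483396) (nat_lit 24) (.e (nat_lit 344119) (nat_lit 21) (.e (nat_lit 516119) (nat_lit 1) (.e (nat_lit 164147) (nat_lit 152) .nil)))) (.g (nat_lit 0) (.e (nat_lit 360335) (nat_lit 0) .nil) .nil))))) (.nd (nat_lit 8) (.nd (nat_lit 9) 
(.lf (nat_lit 573656) (.g (nat_lit 574) (.e (nat_lit 483372) (nat_lit 21) (.e (nat_lit 319504) (nat_lit 10) (.e (nat_lit 4962) (nat_lit 287) .nil))) (.g (nat_lit 0) (.e (nat_lit 358266) (nat_lit 0) .nil) .nil))) 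
(.lf (nat_lit 574168) (.g (nat_lit 2568) (.e (nat_lit 491264) (nat_lit 23) (.e (nat_lit 336324) (nat_lit 18) (.e (nat_lit 204831) (nat_lit 18) (.e (nat_lit 57847) (nat_lit 252) .nil)))) (.g (nat_lit 0) (.e (nat_lit 360034) (nat_lit 0) .nil) .nil)))) (.nd (nat_lit 9) 
(.lf (nat_lit 573912) (.g (nat_lit 427) (.e (nat_lit 483384) (nat_lit 23) (.e (nat_lit 336019) (nat_lit 3) (.e (nat_lit 98333) (nat_lit 18) .nil))) (.g (nat_lit 0) (.e (nat_lit 359171) (nat_lit 0) .nil) .nil))) 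
(.lf (nat_lit 574424) (.g (nat_lit 2249) (.e (nat_lit 483403) (nat_lit 26) (.e (nat_lit 385068) (nat_lit 26) (.e (nat_lit 532503) (nat_lit 1) (.e (nat_lit 57851) (nat_lit 252) (.e (nat_lit 57406) (nat_lit 12) .nil))))) (.g (nat_lit 0) (.e (nat_lit 360738) (nat_lit 0) .nil) .nil))))))) (.nd (nat_lit 6) (.nd (nat_lit 7) (.nd (nat_lit 8) (.nd (nat_lit 9) 
(.lf (nat_lit 573496) (.g (nat_lit 998) (.e (nat_lit 483366) (nat_lit 18) (.e (nat_lit 57844) (nat_lit 252) (.e (nat_lit 57377) (nat_lit 3) (.e (nat_lit 106240) (nat_lit 14) .nil)))) (.g (nat_lit 0) (.e (nat_lit 357956) (nat_lit 0) .nil) .nil))) 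
(.lf (nat_lit 574008) (.g (nat_lit 470) (.e (nat_lit 483387) (nat_lit 23) (.e (nat_lit 336028) (nat_lit 3) (.e (nat_lit 98325) (nat_lit 17) .nil))) (.g (nat_lit 0) (.e (nat_lit 359540) (nat_lit 0) .nil) .nil)))) (.nd (nat_lit 9) 
(.lf (nat_lit 573752) (.g (nat_lit 1256) (.e (nat_lit 483380) (nat_lit 23) (.e (nat_lit 336324) (nat_lit 18) (.e (nat_lit 204829) (nat_lit 18) (.e (nat_lit 57845) (nat_lit 252) .nil)))) (.g (nat_lit 0) (.e (nat_lit 358655) (nat_lit 0) .nil) .nil))) 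
(.lf (nat_lit 574264) (.g (nat_lit 1926) (.e (nat_lit 483395) (nat_lit 24) (.e (nat_lit 344133) (nat_lit 26) (.e (nat_lit 557091) (nat_lit 12) (.e (nat_lit 164006) (nat_lit 41) .nil)))) (.g (nat_lit 0) (.e (nat_lit 360264) (nat_lit 0) .nil) .nil))))) (.nd (nat_lit 8) (.nd (nat_lit 9) 
(.lf (nat_lit 573624) (.g (nat_lit 1118) (.e (nat_lit 491264) (nat_lit 18) (.e (nat_lit 57927) (nat_lit 282) (.e (nat_lit 163874) (nat_lit 3) (.e (nat_lit 204877) (nat_lit 31) .nil)))) (.g (nat_lit 0) (.e (nat_lit 358094) (nat_lit 0) .nil) .nil))) 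
(.lf (nat_lit 574136) (.g (nat_lit 3678) (.e (nat_lit 483393) (nat_lit 23) (.e (nat_lit 336021) (nat_lit 3) (.e (nat_lit 98317) (nat_lit 9) (.e (nat_lit 335988) (nat_lit 1) (.e (nat_lit 57931) (nat_lit 282) (.e (nat_lit 163941) (nat_lit 19) .nil)))))) (.g (nat_lit 1) (.e (nat_lit 359957) (nat_lit 0) .nil) .nil)))) (.nd (nat_lit 9) 
(.lf (nat_lit 573880) (.g (nat_lit 2156) (.e (nat_lit 483383) (nat_lit 23) (.e (nat_lit 336240) (nat_lit 15) (.e (nat_lit 3244) (nat_lit 197) (.e (nat_lit 532504) (nat_lit 1) (.e (nat_lit 57851) (nat_lit 252) .nil))))) (.g (nat_lit 0) (.e (nat_lit 359078) (nat_lit 0) .nil) .nil))) 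
(.lf (nat_lit 574392) (.g (nat_lit 1768) (.e (nat_lit 483402) (nat_lit 26) (.e (nat_lit 385068) (nat_lit 26) (.e (nat_lit 532501) (nat_lit 1) (.e (nat_lit 57829) (nat_lit 250) .nil)))) (.g (nat_lit 0) (.e (nat_lit 360649) (nat_lit 0) .nil) .nil)))))) (.nd (nat_lit 7) (.nd (nat_lit 8) (.nd (nat_lit 9) 
(.lf (nat_lit 573560) (.g (nat_lit 2603) (.e (nat_lit 483366) (nat_lit 18) (.e (nat_lit 57854) (nat_lit 252) (.e (nat_lit 57373) (nat_lit 2) (.e (nat_lit 90134) (nat_lit 9) (.e (nat_lit 7936) (nat_lit 23) .nil))))) (.g (nat_lit 0) (.e (nat_lit 358021) (nat_lit 0) .nil) .nil))) 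
(.lf (nat_lit 574072) (.g (nat_lit 1260) (.e (nat_lit 483393) (nat_lit 23) (.e (nat_lit 335987) (nat_lit 1) (.e (nat_lit 57852) (nat_lit 252) (.e (nat_lit 57347) (nat_lit 0) .nil)))) (.g (nat_lit 0) (.e (nat_lit 359712) (nat_lit 0) .nil) .nil)))) (.nd (nat_lit 9) 
(.lf (nat_lit 573816) (.g (nat_lit 1653) (.e (nat_lit 483382) (nat_lit 23) (.e (nat_lit 336019) (nat_lit 3) (.e (nat_lit 98334) (nat_lit 18) (.e (nat_lit 164147) (nat_lit 152) .nil)))) (.g (nat_lit 0) (.e (nat_lit 358855) (nat_lit 0) .nil) .nil))) 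
(.lf (nat_lit 574328) (.g (nat_lit 2180) (.e (nat_lit 483397) (nat_lit 25) (.e (nat_lit 368676) (nat_lit 21) (.e (nat_lit 516119) (nat_lit 1) (.e (nat_lit 164182) (nat_lit 154) .nil)))) (.g (nat_lit 0) (.e (nat_lit 360404) (nat_lit 0) .nil) .nil))))) (.nd (nat_lit 8) (.nd (nat_lit 9) 
(.lf (nat_lit 573688) (.g (nat_lit 362) (.e (nat_lit 483372) (nat_lit 21) (.e (nat_lit 319531) (nat_lit 16) (.e (nat_lit 286728) (nat_lit 0) .nil))) (.g (nat_lit 0) (.e (nat_lit 358365) (nat_lit 0) .nil) .nil))) 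
(.lf (nat_lit 574200) (.g (nat_lit 1517) (.e (nat_lit 483394) (nat_lit 24) (.e (nat_lit 344117) (nat_lit 21) (.e (nat_lit 516195) (nat_lit 26) (.e (nat_lit 335986) (nat_lit 1) (.e (nat_lit 57926) (nat_lit 282) .nil))))) (.g (nat_lit 0) (.e (nat_lit 360096) (nat_lit 0) .nil) .nil)))) (.nd (nat_lit 9) 
(.lf (nat_lit 573944) (.g (nat_lit 3819) (.e (nat_lit 483384) (nat_lit 23) (.e (nat_lit 336324) (nat_lit 18) (.e (nat_lit 204831) (nat_lit 18) (.e (nat_lit 57847) (nat_lit 252) (.e (nat_lit 57407) (nat_lit 12) (.e (nat_lit 336454) (nat_lit 34) .nil)))))) (.g (nat_lit 1) (.e (nat_lit 359232) (nat_lit 0) .nil) .nil))) 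
(.lf (nat_lit 574456) (.g (nat_lit 1833) (.e (nat_lit 483405) (nat_lit 26) (.e (nat_lit 385066) (nat_lit 26) (.e (nat_lit 532499) (nat_lit 1) (.e (nat_lit 57851) (nat_lit 252) .nil)))) (.g (nat_lit 0) (.e (nat_lit 360842) (nat_lit 0) .nil) .nil)))))))))) (.nd (nat_lit 3) (.nd (nat_lit 4) (.nd (nat_lit 5) (.nd (nat_lit 6) (.nd (nat_lit 7) (.nd (nat_lit 8) (.nd (nat_lit 9) 
(.lf (nat_lit 573444) (.g (nat_lit 2031) (.e (nat_lit 483365) (nat_lit 18) (.e (nat_lit 57931) (nat_lit 282) (.e (nat_lit 163867) (nat_lit 2) (.e (nat_lit 196673) (nat_lit 15) (.e (nat_lit 89856) (nat_lit 18) .nil))))) (.g (nat_lit 1) (.e (nat_lit 357887) (nat_lit 0) .nil) .nil))) 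
(.lf (nat_lit 573956) (.g (nat_lit 1472) (.e (nat_lit 483384) (nat_lit 23) (.e (nat_lit 336325) (nat_lit 18) (.e (nat_lit 204830) (nat_lit 18) (.e (nat_lit 57854) (nat_lit 252) (.e (nat_lit 57406) (nat_lit 12) .nil))))) (.g (nat_lit 0) (.e (nat_lit 359248) (nat_lit 0) .nil) .nil)))) (.nd (nat_lit 9) 
(.lf (nat_lit 573700) (.g (nat_lit 699) (.e (nat_lit 483372) (nat_lit 21) (.e (nat_lit 319533) (nat_lit 16) (.e (nat_lit 286736) (nat_lit 4) .nil))) (.g (nat_lit 0) (.e (nat_lit 358423) (nat_lit 0) .nil) .nil))) 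
(.lf (nat_lit 574212) (.g (nat_lit 2125) (.e (nat_lit 483394) (nat_lit 24) (.e (nat_lit 344117) (nat_lit 21) (.e (nat_lit 516195) (nat_lit 26) (.e (nat_lit 335996) (nat_lit 1) (.e (nat_lit 57931) (nat_lit 282) (.e (nat_lit 163942) (nat_lit 19) .nil)))))) (.g (nat_lit 1) (.e (nat_lit 360108) (nat_lit 0) .nil) .nil))))) (.nd (nat_lit 8) (.nd (nat_lit 9) 
(.lf (nat_lit 573572) (.g (nat_lit 2793) (.e (nat_lit 483366) (nat_lit 18) (.e (nat_lit 57854) (nat_lit 252) (.e (nat_lit 57377) (nat_lit 3) (.e (nat_lit 98314) (nat_lit 9) .nil)))) (.g (nat_lit 0) (.e (nat_lit 358034) (nat_lit 0) .nil) .nil))) 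
(.lf (nat_lit 574084) (.g (nat_lit 472) (.e (nat_lit 483393) (nat_lit 23) (.e (nat_lit 335988) (nat_lit 1) (.e (nat_lit 57852) (nat_lit 252) .nil))) (.g (nat_lit 0) (.e (nat_lit 359748) (nat_lit 0) .nil) .nil)))) (.nd (nat_lit 9) 
(.lf (nat_lit 573828) (.g (nat_lit 1434) (.e (nat_lit 483382) (nat_lit 23) (.e (nat_lit 336324) (nat_lit 18) (.e (nat_lit 204830) (nat_lit 18) (.e (nat_lit 57830) (nat_lit 250) (.e (nat_lit 1004) (nat_lit 81) .nil))))) (.g (nat_lit 0) (.e (nat_lit 358869) (nat_lit 0) .nil) .nil))) 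
(.lf (nat_lit 574340) (.g (nat_lit 944) (.e (nat_lit 483398) (nat_lit 25) (.e (nat_lit 368676) (nat_lit 21) (.e (nat_lit 516118) (nat_lit 1) (.e (nat_lit 164150) (nat_lit 152) .nil)))) (.g (nat_lit 0) (.e (nat_lit 360456) (nat_lit 0) .nil) .nil)))))) (.nd (nat_lit 7) (.nd (nat_lit 8) (.nd (nat_lit 9) 
(.lf (nat_lit 573508) (.g (nat_lit 1711) (.e (nat_lit 483366) (nat_lit 18) (.e (nat_lit 57847) (nat_lit 252) (.e (nat_lit 57375) (nat_lit 2) (.e (nat_lit 90128) (nat_lit 9) (.e (nat_lit 310) (nat_lit 23) .nil))))) (.g (nat_lit 0) (.e (nat_lit 357968) (nat_lit 0) .nil) .nil))) 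
(.lf (nat_lit 574020) (.g (nat_lit 2286) (.e (nat_lit 483389) (nat_lit 23) (.e (nat_lit 336295) (nat_lit 15) (.e (nat_lit 3253) (nat_lit 197) (.e (nat_lit 532501) (nat_lit 1) (.e (nat_lit 57851) (nat_lit 252) .nil))))) (.g (nat_lit 0) (.e (nat_lit 359566) (nat_lit 0) .nil) .nil)))) (.nd (nat_lit 9) 
(.lf (nat_lit 573764) (.g (nat_lit 2840) (.e (nat_lit 483380) (nat_lit 23) (.e (nat_lit 336324) (nat_lit 18) (.e (nat_lit 204831) (nat_lit 18) (.e (nat_lit 57845) (nat_lit 252) .nil)))) (.g (nat_lit 0) (.e (nat_lit 358683) (nat_lit 0) .nil) .nil))) 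
(.lf (nat_lit 574276) (.g (nat_lit 1186) (.e (nat_lit 483395) (nat_lit 24) (.e (nat_lit 344160) (nat_lit 37) (.e (nat_lit 647200) (nat_lit 12) (.e (nat_lit 57508) (nat_lit 39) .nil)))) (.g (nat_lit 0) (.e (nat_lit 360298) (nat_lit 0) .nil) .nil))))) (.nd (nat_lit 8) (.nd (nat_lit 9) 
(.lf (nat_lit 573636) (.g (nat_lit 1216) (.e (nat_lit 483370) (nat_lit 20) (.e (nat_lit 147504) (nat_lit 12) (.e (nat_lit 164058) (nat_lit 56) (.e (nat_lit 786457) (nat_lit 18) (.e (nat_lit 98365) (nat_lit 26) (.e (nat_lit 426325) (nat_lit 13) .nil)))))) (.g (nat_lit 1) (.e (nat_lit 358156) (nat_lit 0) .nil) .nil))) 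
(.lf (nat_lit 574148) (.g (nat_lit 1622) (.e (nat_lit 483393) (nat_lit 23) (.e (nat_lit 336275) (nat_lit 15) (.e (nat_lit 3631) (nat_lit 227) (.e (nat_lit 778323) (nat_lit 5) (.e (nat_lit 73782) (nat_lit 32) (.e (nat_lit 3089) (nat_lit 191) .nil)))))) (.g (nat_lit 1) (.e (nat_lit 359986) (nat_lit 0) .nil) .nil)))) (.nd (nat_lit 9) 
(.lf (nat_lit 573892) (.g (nat_lit 4050) (.e (nat_lit 483383) (nat_lit 23) (.e (nat_lit 336324) (nat_lit 18) (.e (nat_lit 204831) (nat_lit 18) (.e (nat_lit 57823) (nat_lit 250) .nil)))) (.g (nat_lit 0) (.e (nat_lit 359111) (nat_lit 0) .nil) .nil))) 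
(.lf (nat_lit 574404) (.g (nat_lit 2135) (.e (nat_lit 483402) (nat_lit 26) (.e (nat_lit 385094) (nat_lit 49) (.e (nat_lit 778323) (nat_lit 5) (.e (nat_lit 73781) (nat_lit 32) (.e (nat_lit 3089) (nat_lit 191) .nil))))) (.g (nat_lit 1) (.e (nat_lit 360677) (nat_lit 0) .nil) .nil))))))) (.nd (nat_lit 6) (.nd (nat_lit 7) (.nd (nat_lit 8) (.nd (nat_lit 9) 
(.lf (nat_lit 573476) (.g (nat_lit 2633) (.e (nat_lit 483366) (nat_lit 18) (.e (nat_lit 57688) (nat_lit 156) (.e (nat_lit 163907) (nat_lit 12) (.e (nat_lit 426436) (nat_lit 18) (.e (nat_lit 98358) (nat_lit 26) (.e (nat_lit 433920) (nat_lit 13) .nil)))))) (.g (nat_lit 1) (.e (nat_lit 357930) (nat_lit 0) .nil) .nil))) 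
(.lf (nat_lit 573988) (.g (nat_lit 4033) (.e (nat_lit 483385) (nat_lit 23) (.e (nat_lit 336324) (nat_lit 18) (.e (nat_lit 204831) (nat_lit 18) (.e (nat_lit 57848) (nat_lit 252) (.e (nat_lit 57407) (nat_lit 12) (.e (nat_lit 336454) (nat_lit 34) .nil)))))) (.g (nat_lit 1) (.e (nat_lit 359404) (nat_lit 0) .nil) .nil)))) (.nd (nat_lit 9) 
(.lf (nat_lit 573732) (.g (nat_lit 4149) (.e (nat_lit 483378) (nat_lit 23) (.e (nat_lit 336324) (nat_lit 18) (.e (nat_lit 204831) (nat_lit 18) (.e (nat_lit 57844) (nat_lit 252) (.e (nat_lit 57406) (nat_lit 12) .nil))))) (.g (nat_lit 0) (.e (nat_lit 358591) (nat_lit 0) .nil) .nil))) 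
(.lf (nat_lit 574244) (.g (nat_lit 1785) (.e (nat_lit 483395) (nat_lit 24) (.e (nat_lit 344117) (nat_lit 21) (.e (nat_lit 516115) (nat_lit 1) (.e (nat_lit 164149) (nat_lit 152) .nil)))) (.g (nat_lit 0) (.e (nat_lit 360183) (nat_lit 0) .nil) .nil))))) (.nd (nat_lit 8) (.nd (nat_lit 9) 
(.lf (nat_lit 573604) (.g (nat_lit 1532) (.e (nat_lit 483366) (nat_lit 18) (.e (nat_lit 57931) (nat_lit 282) (.e (nat_lit 163866) (nat_lit 2) (.e (nat_lit 196672) (nat_lit 15) (.e (nat_lit 89856) (nat_lit 18) .nil))))) (.g (nat_lit 0) (.e (nat_lit 358068) (nat_lit 0) .nil) .nil))) 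
(.lf (nat_lit 574116) (.g (nat_lit 2425) (.e (nat_lit 483393) (nat_lit 23) (.e (nat_lit 335995) (nat_lit 1) (.e (nat_lit 57873) (nat_lit 264) (.e (nat_lit 1209) (nat_lit 89) (.e (nat_lit 73781) (nat_lit 32) .nil))))) (.g (nat_lit 0) (.e (nat_lit 359825) (nat_lit 0) .nil) .nil)))) (.nd (nat_lit 9) 
(.lf (nat_lit 573860) (.g (nat_lit 1907) (.e (nat_lit 483383) (nat_lit 23) (.e (nat_lit 336019) (nat_lit 3) (.e (nat_lit 98333) (nat_lit 18) (.e (nat_lit 164190) (nat_lit 157) .nil)))) (.g (nat_lit 0) (.e (nat_lit 359046) (nat_lit 0) .nil) .nil))) 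
(.lf (nat_lit 574372) (.g (nat_lit 1056) (.e (nat_lit 483400) (nat_lit 25) (.e (nat_lit 368676) (nat_lit 21) (.e (nat_lit 516120) (nat_lit 1) .nil))) (.g (nat_lit 0) (.e (nat_lit 360561) (nat_lit 0) .nil) .nil)))))) (.nd (nat_lit 7) (.nd (nat_lit 8) (.nd (nat_lit 9) 
(.lf (nat_lit 573540) (.g (nat_lit 1475) (.e (nat_lit 483366) (nat_lit 18) (.e (nat_lit 57849) (nat_lit 252) (.e (nat_lit 57379) (nat_lit 3) (.e (nat_lit 98315) (nat_lit 9) .nil)))) (.g (nat_lit 0) (.e (nat_lit 358001) (nat_lit 0) .nil) .nil))) 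
(.lf (nat_lit 574052) (.g (nat_lit 1484) (.e (nat_lit 483392) (nat_lit 23) (.e (nat_lit 336021) (nat_lit 3) (.e (nat_lit 98317) (nat_lit 9) (.e (nat_lit 335988) (nat_lit 1) .nil)))) (.g (nat_lit 0) (.e (nat_lit 359645) (nat_lit 0) .nil) .nil)))) (.nd (nat_lit 9) 
(.lf (nat_lit 573796) (.g (nat_lit 3066) (.e (nat_lit 483381) (nat_lit 23) (.e (nat_lit 336324) (nat_lit 18) (.e (nat_lit 204831) (nat_lit 18) (.e (nat_lit 57847) (nat_lit 252) (.e (nat_lit 57411) (nat_lit 12) .nil))))) (.g (nat_lit 0) (.e (nat_lit 358803) (nat_lit 0) .nil) .nil))) 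
(.lf (nat_lit 574308) (.g (nat_lit 610) (.e (nat_lit 483396) (nat_lit 24) (.e (nat_lit 344160) (nat_lit 37) (.e (nat_lit 655104) (nat_lit 15) .nil))) (.g (nat_lit 0) (.e (nat_lit 360370) (nat_lit 0) .nil) .nil))))) (.nd (nat_lit 8) (.nd (nat_lit 9) 
(.lf (nat_lit 573668) (.g (nat_lit 2616) (.e (nat_lit 483372) (nat_lit 21) (.e (nat_lit 319505) (nat_lit 10) (.e (nat_lit 618) (nat_lit 48) (.e (nat_lit 557103) (nat_lit 14) (.e (nat_lit 188160) (nat_lit 32) (.e (nat_lit 493) (nat_lit 39) .nil)))))) (.g (nat_lit 1) (.e (nat_lit 358289) (nat_lit 0) .nil) .nil))) 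
(.lf (nat_lit 574180) (.g (nat_lit 1635) (.e (nat_lit 483394) (nat_lit 24) (.e (nat_lit 344117) (nat_lit 21) (.e (nat_lit 516097) (nat_lit 0) (.e (nat_lit 3460) (nat_lit 216) .nil)))) (.g (nat_lit 0) (.e (nat_lit 360057) (nat_lit 0) .nil) .nil)))) (.nd (nat_lit 9) 
(.lf (nat_lit 573924) (.g (nat_lit 3961) (.e (nat_lit 483384) (nat_lit 23) (.e (nat_lit 336306) (nat_lit 15) (.e (nat_lit 3238) (nat_lit 197) (.e (nat_lit 532500) (nat_lit 1) (.e (nat_lit 57851) (nat_lit 252) (.e (nat_lit 57406) (nat_lit 12) (.e (nat_lit 336456) (nat_lit 34) .nil))))))) (.g (nat_lit 1) (.e (nat_lit 359188) (nat_lit 0) .nil) .nil))) 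
(.lf (nat_lit 574436) (.g (nat_lit 1463) (.e (nat_lit 483403) (nat_lit 26) (.e (nat_lit 385109) (nat_lit 51) (.e (nat_lit 794638) (nat_lit 20) .nil))) (.g (nat_lit 0) (.e (nat_lit 360774) (nat_lit 0) .nil) .nil)))))))) (.nd (nat_lit 5) (.nd (nat_lit 6) (.nd (nat_lit 7) (.nd (nat_lit 8) (.nd (nat_lit 9) 
(.lf (nat_lit 573460) (.g (nat_lit 1493) (.e (nat_lit 483365) (nat_lit 18) (.e (nat_lit 57931) (nat_lit 282) (.e (nat_lit 163874) (nat_lit 3) (.e (nat_lit 204875) (nat_lit 31) (.e (nat_lit 384768) (nat_lit 18) .nil))))) (.g (nat_lit 0) (.e (nat_lit 357907) (nat_lit 0) .nil) .nil))) 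
(.lf (nat_lit 573972) (.g (nat_lit 3454) (.e (nat_lit 483385) (nat_lit 23) (.e (nat_lit 336324) (nat_lit 18) (.e (nat_lit 204831) (nat_lit 18) (.e (nat_lit 57822) (nat_lit 250) .nil)))) (.g (nat_lit 0) (.e (nat_lit 359371) (nat_lit 0) .nil) .nil)))) (.nd (nat_lit 9) 
(.lf (nat_lit 573716) (.g (nat_lit 1920) (.e (nat_lit 483375) (nat_lit 22) (.e (nat_lit 327703) (nat_lit 10) (.e (nat_lit 618) (nat_lit 48) (.e (nat_lit 557105) (nat_lit 14) (.e (nat_lit 188160) (nat_lit 32) .nil))))) (.g (nat_lit 0) (.e (nat_lit 358498) (nat_lit 0) .nil) .nil))) 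
(.lf (nat_lit 574228) (.g (nat_lit 1904) (.e (nat_lit 483394) (nat_lit 24) (.e (nat_lit 344160) (nat_lit 37) (.e (nat_lit 647200) (nat_lit 12) (.e (nat_lit 57502) (nat_lit 38) (.e (nat_lit 638998) (nat_lit 8) .nil))))) (.g (nat_lit 0) (.e (nat_lit 360146) (nat_lit 0) .nil) .nil))))) (.nd (nat_lit 8) (.nd (nat_lit 9) 
(.lf (nat_lit 573588) (.g (nat_lit 1379) (.e (nat_lit 483366) (nat_lit 18) (.e (nat_lit 57929) (nat_lit 282) (.e (nat_lit 163869) (nat_lit 2) (.e (nat_lit 196673) (nat_lit 15) (.e (nat_lit 89856) (nat_lit 18) .nil))))) (.g (nat_lit 0) (.e (nat_lit 358051) (nat_lit 0) .nil) .nil))) 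
(.lf (nat_lit 574100) (.g (nat_lit 1888) (.e (nat_lit 483393) (nat_lit 23) (.e (nat_lit 335988) (nat_lit 1) (.e (nat_lit 57854) (nat_lit 252) (.e (nat_lit 57347) (nat_lit 0) (.e (nat_lit 2076) (nat_lit 142) .nil))))) (.g (nat_lit 0) (.e (nat_lit 359780) (nat_lit 0) .nil) .nil)))) (.nd (nat_lit 9) 
(.lf (nat_lit 573844) (.g (nat_lit 1841) (.e (nat_lit 483382) (nat_lit 23) (.e (nat_lit 336324) (nat_lit 18) (.e (nat_lit 204831) (nat_lit 18) (.e (nat_lit 57852) (nat_lit 252) (.e (nat_lit 57404) (nat_lit 12) .nil))))) (.g (nat_lit 0) (.e (nat_lit 358900) (nat_lit 0) .nil) .nil))) 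
(.lf (nat_lit 574356) (.g (nat_lit 1316) (.e (nat_lit 483399) (nat_lit 25) (.e (nat_lit 368676) (nat_lit 21) (.e (nat_lit 516117) (nat_lit 1) (.e (nat_lit 164184) (nat_lit 155) .nil)))) (.g (nat_lit 0) (.e (nat_lit 360517) (nat_lit 0) .nil) .nil)))))) (.nd (nat_lit 7) (.nd (nat_lit 8) (.nd (nat_lit 9) 
(.lf (nat_lit 573524) (.g (nat_lit 1942) (.e (nat_lit 483366) (nat_lit 18) (.e (nat_lit 57848) (nat_lit 252) (.e (nat_lit 57374) (nat_lit 2) (.e (nat_lit 90121) (nat_lit 9) (.e (nat_lit 312) (nat_lit 23) .nil))))) (.g (nat_lit 0) (.e (nat_lit 357984) (nat_lit 0) .nil) .nil))) 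
(.lf (nat_lit 574036) (.g (nat_lit 2862) (.e (nat_lit 483391) (nat_lit 23) (.e (nat_lit 336300) (nat_lit 15) (.e (nat_lit 3632) (nat_lit 227) (.e (nat_lit 778323) (nat_lit 5) (.e (nat_lit 73781) (nat_lit 32) (.e (nat_lit 3089) (nat_lit 191) .nil)))))) (.g (nat_lit 1) (.e (nat_lit 359604) (nat_lit 0) .nil) .nil)))) (.nd (nat_lit 9) 
(.lf (nat_lit 573780) (.g (nat_lit 1891) (.e (nat_lit 483380) (nat_lit 23) (.e (nat_lit 336326) (nat_lit 18) (.e (nat_lit 204831) (nat_lit 18) (.e (nat_lit 57852) (nat_lit 252) (.e (nat_lit 65280) (nat_lit 12) .nil))))) (.g (nat_lit 0) (.e (nat_lit 358741) (nat_lit 0) .nil) .nil))) 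
(.lf (nat_lit 574292) (.g (nat_lit 2921) (.e (nat_lit 483396) (nat_lit 24) (.e (nat_lit 344117) (nat_lit 21) (.e (nat_lit 516115) (nat_lit 1) (.e (nat_lit 164179) (nat_lit 154) (.e (nat_lit 57411) (nat_lit 12) .nil))))) (.g (nat_lit 0) (.e (nat_lit 360322) (nat_lit 0) .nil) .nil))))) (.nd (nat_lit 8) (.nd (nat_lit 9) 
(.lf (nat_lit 573652) (.g (nat_lit 1053) (.e (nat_lit 483372) (nat_lit 21) (.e (nat_lit 319504) (nat_lit 10) (.e (nat_lit 618) (nat_lit 48) (.e (nat_lit 557104) (nat_lit 14) .nil)))) (.g (nat_lit 0) (.e (nat_lit 358256) (nat_lit 0) .nil) .nil))) 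
(.lf (nat_lit 574164) (.g (nat_lit 1850) (.e (nat_lit 491264) (nat_lit 23) (.e (nat_lit 336021) (nat_lit 3) (.e (nat_lit 98317) (nat_lit 9) (.e (nat_lit 335996) (nat_lit 1) (.e (nat_lit 57931) (nat_lit 282) .nil))))) (.g (nat_lit 0) (.e (nat_lit 360028) (nat_lit 0) .nil) .nil)))) (.nd (nat_lit 9) 
(.lf (nat_lit 573908) (.g (nat_lit 878) (.e (nat_lit 483383) (nat_lit 23) (.e (nat_lit 336326) (nat_lit 18) (.e (nat_lit 204831) (nat_lit 18) (.e (nat_lit 57830) (nat_lit 250) .nil)))) (.g (nat_lit 0) (.e (nat_lit 359137) (nat_lit 0) .nil) .nil))) 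
(.lf (nat_lit 574420) (.g (nat_lit 1520) (.e (nat_lit 483403) (nat_lit 26) (.e (nat_lit 385068) (nat_lit 26) (.e (nat_lit 532501) (nat_lit 1) (.e (nat_lit 57830) (nat_lit 250) .nil)))) (.g (nat_lit 0) (.e (nat_lit 360731) (nat_lit 0) .nil) .nil))))))) (.nd (nat_lit 6) (.nd (nat_lit 7) (.nd (nat_lit 8) (.nd (nat_lit 9) 
(.lf (nat_lit 573492) (.g (nat_lit 2160) (.e (nat_lit 483366) (nat_lit 18) (.e (nat_lit 57844) (nat_lit 252) (.e (nat_lit 57371) (nat_lit 2) (.e (nat_lit 90128) (nat_lit 9) (.e (nat_lit 309) (nat_lit 23) .nil))))) (.g (nat_lit 0) (.e (nat_lit 357952) (nat_lit 0) .nil) .nil))) 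
(.lf (nat_lit 574004) (.g (nat_lit 2195) (.e (nat_lit 483386) (nat_lit 23) (.e (nat_lit 336295) (nat_lit 15) (.e (nat_lit 3632) (nat_lit 227) (.e (nat_lit 778323) (nat_lit 5) (.e (nat_lit 73782) (nat_lit 32) (.e (nat_lit 3087) (nat_lit 191) .nil)))))) (.g (nat_lit 1) (.e (nat_lit 359514) (nat_lit 0) .nil) .nil)))) (.nd (nat_lit 9) 
(.lf (nat_lit 573748) (.g (nat_lit 2049) (.e (nat_lit 483380) (nat_lit 23) (.e (nat_lit 336320) (nat_lit 17) (.e (nat_lit 196698) (nat_lit 19) (.e (nat_lit 57811) (nat_lit 246) (.e (nat_lit 57879) (nat_lit 270) (.e (nat_lit 496) (nat_lit 39) .nil)))))) (.g (nat_lit 1) (.e (nat_lit 358646) (nat_lit 0) .nil) .nil))) 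
(.lf (nat_lit 574260) (.g (nat_lit 1671) (.e (nat_lit 483395) (nat_lit 24) (.e (nat_lit 344133) (nat_lit 26) (.e (nat_lit 557089) (nat_lit 12) (.e (nat_lit 164000) (nat_lit 38) .nil)))) (.g (nat_lit 0) (.e (nat_lit 360251) (nat_lit 0) .nil) .nil))))) (.nd (nat_lit 8) (.nd (nat_lit 9) 
(.lf (nat_lit 573620) (.g (nat_lit 1922) (.e (nat_lit 483366) (nat_lit 18) (.e (nat_lit 57931) (nat_lit 282) (.e (nat_lit 163874) (nat_lit 3) (.e (nat_lit 204877) (nat_lit 31) (.e (nat_lit 384768) (nat_lit 18) .nil))))) (.g (nat_lit 1) (.e (nat_lit 358088) (nat_lit 0) .nil) .nil))) 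
(.lf (nat_lit 574132) (.g (nat_lit 2364) (.e (nat_lit 483393) (nat_lit 23) (.e (nat_lit 336021) (nat_lit 3) (.e (nat_lit 98317) (nat_lit 9) (.e (nat_lit 335986) (nat_lit 1) (.e (nat_lit 57926) (nat_lit 282) (.e (nat_lit 163944) (nat_lit 19) .nil)))))) (.g (nat_lit 1) (.e (nat_lit 359952) (nat_lit 0) .nil) .nil)))) (.nd (nat_lit 9) 
(.lf (nat_lit 573876) (.g (nat_lit 2019) (.e (nat_lit 483383) (nat_lit 23) (.e (nat_lit 336240) (nat_lit 15) (.e (nat_lit 3230) (nat_lit 197) (.e (nat_lit 532501) (nat_lit 1) (.e (nat_lit 57851) (nat_lit 252) .nil))))) (.g (nat_lit 0) (.e (nat_lit 359074) (nat_lit 0) .nil) .nil))) 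
(.lf (nat_lit 574388) (.g (nat_lit 339) (.e (nat_lit 483402) (nat_lit 26) (.e (nat_lit 385057) (nat_lit 22) (.e (nat_lit 499780) (nat_lit 1) .nil))) (.g (nat_lit 0) (.e (nat_lit 360644) (nat_lit 0) .nil) .nil)))))) (.nd (nat_lit 7) (.nd (nat_lit 8) (.nd (nat_lit 9) 
(.lf (nat_lit 573556) (.g (nat_lit 2130) (.e (nat_lit 483366) (nat_lit 18) (.e (nat_lit 57854) (nat_lit 252) (.e (nat_lit 57373) (nat_lit 2) (.e (nat_lit 90122) (nat_lit 9) .nil)))) (.g (nat_lit 0) (.e (nat_lit 358017) (nat_lit 0) .nil) .nil))) 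
(.lf (nat_lit 574068) (.g (nat_lit 1893) (.e (nat_lit 483393) (nat_lit 23) (.e (nat_lit 335986) (nat_lit 1) (.e (nat_lit 57849) (nat_lit 252) (.e (nat_lit 57348) (nat_lit 0) (.e (nat_lit 2044) (nat_lit 142) .nil))))) (.g (nat_lit 0) (.e (nat_lit 359686) (nat_lit 0) .nil) .nil)))) (.nd (nat_lit 9) 
(.lf (nat_lit 573812) (.g (nat_lit 1450) (.e (nat_lit 483382) (nat_lit 23) (.e (nat_lit 336019) (nat_lit 3) (.e (nat_lit 98333) (nat_lit 18) (.e (nat_lit 164151) (nat_lit 152) .nil)))) (.g (nat_lit 0) (.e (nat_lit 358851) (nat_lit 0) .nil) .nil))) 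
(.lf (nat_lit 574324) (.g (nat_lit 2146) (.e (nat_lit 483397) (nat_lit 25) (.e (nat_lit 368676) (nat_lit 21) (.e (nat_lit 516119) (nat_lit 1) (.e (nat_lit 164149) (nat_lit 152) .nil)))) (.g (nat_lit 0) (.e (nat_lit 360400) (nat_lit 0) .nil) .nil))))) (.nd (nat_lit 8) (.nd (nat_lit 9) 
(.lf (nat_lit 573684) (.g (nat_lit 1445) (.e (nat_lit 483372) (nat_lit 21) (.e (nat_lit 319530) (nat_lit 16) (.e (nat_lit 286727) (nat_lit 0) (.e (nat_lit 1014) (nat_lit 81) .nil)))) (.g (nat_lit 0) (.e (nat_lit 358342) (nat_lit 0) .nil) .nil))) 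
(.lf (nat_lit 574196) (.g (nat_lit 2303) (.e (nat_lit 483394) (nat_lit 24) (.e (nat_lit 344117) (nat_lit 21) (.e (nat_lit 516118) (nat_lit 1) (.e (nat_lit 164182) (nat_lit 154) (.e (nat_lit 57411) (nat_lit 12) .nil))))) (.g (nat_lit 0) (.e (nat_lit 360079) (nat_lit 0) .nil) .nil)))) (.nd (nat_lit 9) 
(.lf (nat_lit 573940) (.g (nat_lit 2594) (.e (nat_lit 483384) (nat_lit 23) (.e (nat_lit 336324) (nat_lit 18) (.e (nat_lit 204831) (nat_lit 18) (.e (nat_lit 57844) (nat_lit 252) .nil)))) (.g (nat_lit 0) (.e (nat_lit 359227) (nat_lit 0) .nil) .nil))) 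
(.lf (nat_lit 574452) (.g (nat_lit 1818) (.e (nat_lit 483405) (nat_lit 26) (.e (nat_lit 385065) (nat_lit 26) (.e (nat_lit 532501) (nat_lit 1) (.e (nat_lit 57852) (nat_lit 252) (.e (nat_lit 57409) (nat_lit 12) .nil))))) (.g (nat_lit 0) (.e (nat_lit 360836) (nat_lit 0) .nil) .nil))))))))) (.nd (nat_lit 4) (.nd (nat_lit 5) (.nd (nat_lit 6) (.nd (nat_lit 7) (.nd (nat_lit 8) (.nd (nat_lit 9) 
(.lf (nat_lit 573452) (.g (nat_lit 2434) (.e (nat_lit 483365) (nat_lit 18) (.e (nat_lit 57931) (nat_lit 282) (.e (nat_lit 163873) (nat_lit 3) (.e (nat_lit 204865) (nat_lit 28) (.e (nat_lit 360192) (nat_lit 18) .nil))))) (.g (nat_lit 1) (.e (nat_lit 357899) (nat_lit 0) .nil) .nil))) 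
(.lf (nat_lit 573964) (.g (nat_lit 1781) (.e (nat_lit 483385) (nat_lit 23) (.e (nat_lit 336019) (nat_lit 3) (.e (nat_lit 98335) (nat_lit 18) (.e (nat_lit 164148) (nat_lit 152) (.e (nat_lit 1204) (nat_lit 88) .nil))))) (.g (nat_lit 0) (.e (nat_lit 359311) (nat_lit 0) .nil) .nil)))) (.nd (nat_lit 9) 
(.lf (nat_lit 573708) (.g (nat_lit 1889) (.e (nat_lit 483372) (nat_lit 21) (.e (nat_lit 319534) (nat_lit 16) (.e (nat_lit 286724) (nat_lit 0) (.e (nat_lit 2391) (nat_lit 156) (.e (nat_lit 827136) (nat_lit 11) .nil))))) (.g (nat_lit 0) (.e (nat_lit 358448) (nat_lit 0) .nil) .nil))) 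
(.lf (nat_lit 574220) (.g (nat_lit 613) (.e (nat_lit 483394) (nat_lit 24) (.e (nat_lit 344169) (nat_lit 40) (.e (nat_lit 671748) (nat_lit 0) .nil))) (.g (nat_lit 0) (.e (nat_lit 360133) (nat_lit 0) .nil) .nil))))) (.nd (nat_lit 8) (.nd (nat_lit 9) 
(.lf (nat_lit 573580) (.g (nat_lit 1452) (.e (nat_lit 483366) (nat_lit 18) (.e (nat_lit 57924) (nat_lit 282) (.e (nat_lit 163867) (nat_lit 2) (.e (nat_lit 196674) (nat_lit 15) (.e (nat_lit 89856) (nat_lit 18) .nil))))) (.g (nat_lit 0) (.e (nat_lit 358043) (nat_lit 0) .nil) .nil))) 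
(.lf (nat_lit 574092) (.g (nat_lit 1375) (.e (nat_lit 483393) (nat_lit 23) (.e (nat_lit 335988) (nat_lit 1) (.e (nat_lit 57852) (nat_lit 252) (.e (nat_lit 57382) (nat_lit 4) .nil)))) (.g (nat_lit 0) (.e (nat_lit 359758) (nat_lit 0) .nil) .nil)))) (.nd (nat_lit 9) 
(.lf (nat_lit 573836) (.g (nat_lit 4213) (.e (nat_lit 483382) (nat_lit 23) (.e (nat_lit 336324) (nat_lit 18) (.e (nat_lit 204831) (nat_lit 18) (.e (nat_lit 57829) (nat_lit 250) .nil)))) (.g (nat_lit 0) (.e (nat_lit 358885) (nat_lit 0) .nil) .nil))) 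
(.lf (nat_lit 574348) (.g (nat_lit 4226) (.e (nat_lit 483398) (nat_lit 25) (.e (nat_lit 368676) (nat_lit 21) (.e (nat_lit 516195) (nat_lit 26) (.e (nat_lit 335988) (nat_lit 1) (.e (nat_lit 57931) (nat_lit 282) (.e (nat_lit 163943) (nat_lit 19) .nil)))))) (.g (nat_lit 1) (.e (nat_lit 360479) (nat_lit 0) .nil) .nil)))))) (.nd (nat_lit 7) (.nd (nat_lit 8) (.nd (nat_lit 9) 
(.lf (nat_lit 573516) (.g (nat_lit 1455) (.e (nat_lit 483366) (nat_lit 18) (.e (nat_lit 57848) (nat_lit 252) (.e (nat_lit 57372) (nat_lit 2) (.e (nat_lit 90125) (nat_lit 9) (.e (nat_lit 7936) (nat_lit 23) .nil))))) (.g (nat_lit 0) (.e (nat_lit 357976) (nat_lit 0) .nil) .nil))) 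
(.lf (nat_lit 574028) (.g (nat_lit 2260) (.e (nat_lit 483390) (nat_lit 23) (.e (nat_lit 336028) (nat_lit 3) (.e (nat_lit 98333) (nat_lit 18) (.e (nat_lit 164179) (nat_lit 154) (.e (nat_lit 57407) (nat_lit 12) .nil))))) (.g (nat_lit 0) (.e (nat_lit 359579) (nat_lit 0) .nil) .nil)))) (.nd (nat_lit 9) 
(.lf (nat_lit 573772) (.g (nat_lit 3331) (.e (nat_lit 483380) (nat_lit 23) (.e (nat_lit 336324) (nat_lit 18) (.e (nat_lit 204831) (nat_lit 18) (.e (nat_lit 57850) (nat_lit 252) .nil)))) (.g (nat_lit 0) (.e (nat_lit 358694) (nat_lit 0) .nil) .nil))) 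
(.lf (nat_lit 574284) (.g (nat_lit 2023) (.e (nat_lit 483396) (nat_lit 24) (.e (nat_lit 344097) (nat_lit 18) (.e (nat_lit 5906) (nat_lit 320) (.e (nat_lit 1209) (nat_lit 89) (.e (nat_lit 73781) (nat_lit 32) .nil))))) (.g (nat_lit 0) (.e (nat_lit 360314) (nat_lit 0) .nil) .nil))))) (.nd (nat_lit 8) (.nd (nat_lit 9) 
(.lf (nat_lit 573644) (.g (nat_lit 565) (.e (nat_lit 483371) (nat_lit 21) (.e (nat_lit 319533) (nat_lit 16) (.e (nat_lit 286724) (nat_lit 0) .nil))) (.g (nat_lit 0) (.e (nat_lit 358234) (nat_lit 0) .nil) .nil))) 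
(.lf (nat_lit 574156) (.g (nat_lit 2090) (.e (nat_lit 491264) (nat_lit 23) (.e (nat_lit 335995) (nat_lit 1) (.e (nat_lit 57872) (nat_lit 264) (.e (nat_lit 1209) (nat_lit 89) (.e (nat_lit 73781) (nat_lit 32) .nil))))) (.g (nat_lit 0) (.e (nat_lit 360009) (nat_lit 0) .nil) .nil)))) (.nd (nat_lit 9) 
(.lf (nat_lit 573900) (.g (nat_lit 1876) (.e (nat_lit 483383) (nat_lit 23) (.e (nat_lit 336324) (nat_lit 18) (.e (nat_lit 204831) (nat_lit 18) (.e (nat_lit 57846) (nat_lit 252) (.e (nat_lit 57405) (nat_lit 12) .nil))))) (.g (nat_lit 0) (.e (nat_lit 359121) (nat_lit 0) .nil) .nil))) 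
(.lf (nat_lit 574412) (.g (nat_lit 2107) (.e (nat_lit 483403) (nat_lit 26) (.e (nat_lit 385066) (nat_lit 26) (.e (nat_lit 532499) (nat_lit 1) (.e (nat_lit 57850) (nat_lit 252) .nil)))) (.g (nat_lit 0) (.e (nat_lit 360708) (nat_lit 0) .nil) .nil))))))) (.nd (nat_lit 6) (.nd (nat_lit 7) (.nd (nat_lit 8) (.nd (nat_lit 9) 
(.lf (nat_lit 573484) (.g (nat_lit 3014) (.e (nat_lit 483366) (nat_lit 18) (.e (nat_lit 57691) (nat_lit 156) (.e (nat_lit 163907) (nat_lit 12) (.e (nat_lit 426436) (nat_lit 18) (.e (nat_lit 98358) (nat_lit 26) (.e (nat_lit 426323) (nat_lit 13) .nil)))))) (.g (nat_lit 1) (.e (nat_lit 357942) (nat_lit 0) .nil) .nil))) 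
(.lf (nat_lit 573996) (.g (nat_lit 1151) (.e (nat_lit 483385) (nat_lit 23) (.e (nat_lit 336325) (nat_lit 18) (.e (nat_lit 204830) (nat_lit 18) (.e (nat_lit 57830) (nat_lit 250) (.e (nat_lit 1004) (nat_lit 81) .nil))))) (.g (nat_lit 0) (.e (nat_lit 359424) (nat_lit 0) .nil) .nil)))) (.nd (nat_lit 9) 
(.lf (nat_lit 573740) (.g (nat_lit 3113) (.e (nat_lit 483379) (nat_lit 23) (.e (nat_lit 336324) (nat_lit 18) (.e (nat_lit 204831) (nat_lit 18) (.e (nat_lit 57830) (nat_lit 250) .nil)))) (.g (nat_lit 0) (.e (nat_lit 358604) (nat_lit 0) .nil) .nil))) 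
(.lf (nat_lit 574252) (.g (nat_lit 1980) (.e (nat_lit 483395) (nat_lit 24) (.e (nat_lit 344117) (nat_lit 21) (.e (nat_lit 516116) (nat_lit 1) (.e (nat_lit 164184) (nat_lit 155) (.e (nat_lit 122906) (nat_lit 12) .nil))))) (.g (nat_lit 0) (.e (nat_lit 360201) (nat_lit 0) .nil) .nil))))) (.nd (nat_lit 8) (.nd (nat_lit 9) 
(.lf (nat_lit 573612) (.g (nat_lit 1935) (.e (nat_lit 483366) (nat_lit 18) (.e (nat_lit 57931) (nat_lit 282) (.e (nat_lit 163873) (nat_lit 3) (.e (nat_lit 204865) (nat_lit 28) (.e (nat_lit 360192) (nat_lit 18) .nil))))) (.g (nat_lit 1) (.e (nat_lit 358080) (nat_lit 0) .nil) .nil))) 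
(.lf (nat_lit 574124) (.g (nat_lit 3682) (.e (nat_lit 483393) (nat_lit 23) (.e (nat_lit 336021) (nat_lit 3) (.e (nat_lit 98313) (nat_lit 9) (.e (nat_lit 335986) (nat_lit 1) (.e (nat_lit 57931) (nat_lit 282) (.e (nat_lit 163943) (nat_lit 19) .nil)))))) (.g (nat_lit 1) (.e (nat_lit 359925) (nat_lit 0) .nil) .nil)))) (.nd (nat_lit 9) 
(.lf (nat_lit 573868) (.g (nat_lit 1243) (.e (nat_lit 483383) (nat_lit 23) (.e (nat_lit 336019) (nat_lit 3) (.e (nat_lit 98334) (nat_lit 18) (.e (nat_lit 171776) (nat_lit 152) .nil)))) (.g (nat_lit 0) (.e (nat_lit 359063) (nat_lit 0) .nil) .nil))) 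
(.lf (nat_lit 574380) (.g (nat_lit 617) (.e (nat_lit 483401) (nat_lit 25) (.e (nat_lit 368676) (nat_lit 21) (.e (nat_lit 516118) (nat_lit 1) .nil))) (.g (nat_lit 0) (.e (nat_lit 360612) (nat_lit 0) .nil) .nil)))))) (.nd (nat_lit 7) (.nd (nat_lit 8) (.nd (nat_lit 9) 
(.lf (nat_lit 573548) (.g (nat_lit 2834) (.e (nat_lit 483366) (nat_lit 18) (.e (nat_lit 57854) (nat_lit 252) (.e (nat_lit 57347) (nat_lit 0) (.e (nat_lit 1705) (nat_lit 117) .nil)))) (.g (nat_lit 0) (.e (nat_lit 358009) (nat_lit 0) .nil) .nil))) 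
(.lf (nat_lit 574060) (.g (nat_lit 1661) (.e (nat_lit 483393) (nat_lit 23) (.e (nat_lit 335986) (nat_lit 1) (.e (nat_lit 57847) (nat_lit 252) (.e (nat_lit 57347) (nat_lit 0) .nil)))) (.g (nat_lit 0) (.e (nat_lit 359664) (nat_lit 0) .nil) .nil)))) (.nd (nat_lit 9) 
(.lf (nat_lit 573804) (.g (nat_lit 2582) (.e (nat_lit 483381) (nat_lit 23) (.e (nat_lit 336324) (nat_lit 18) (.e (nat_lit 204831) (nat_lit 18) (.e (nat_lit 57854) (nat_lit 252) .nil)))) (.g (nat_lit 0) (.e (nat_lit 358814) (nat_lit 0) .nil) .nil))) 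
(.lf (nat_lit 574316) (.g (nat_lit 1370) (.e (nat_lit 483397) (nat_lit 25) (.e (nat_lit 368676) (nat_lit 21) (.e (nat_lit 516115) (nat_lit 1) (.e (nat_lit 164177) (nat_lit 154) .nil)))) (.g (nat_lit 0) (.e (nat_lit 360391) (nat_lit 0) .nil) .nil))))) (.nd (nat_lit 8) (.nd (nat_lit 9) 
(.lf (nat_lit 573676) (.g (nat_lit 477) (.e (nat_lit 483372) (nat_lit 21) (.e (nat_lit 319506) (nat_lit 10) (.e (nat_lit 4994) (nat_lit 288) .nil))) (.g (nat_lit 0) (.e (nat_lit 358307) (nat_lit 0) .nil) .nil))) 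
(.lf (nat_lit 574188) (.g (nat_lit 2129) (.e (nat_lit 483394) (nat_lit 24) (.e (nat_lit 344117) (nat_lit 21) (.e (nat_lit 516115) (nat_lit 1) (.e (nat_lit 164161) (nat_lit 152) .nil)))) (.g (nat_lit 0) (.e (nat_lit 360068) (nat_lit 0) .nil) .nil)))) (.nd (nat_lit 9) 
(.lf (nat_lit 573932) (.g (nat_lit 4343) (.e (nat_lit 483384) (nat_lit 23) (.e (nat_lit 336324) (nat_lit 18) (.e (nat_lit 204831) (nat_lit 18) (.e (nat_lit 57823) (nat_lit 250) .nil)))) (.g (nat_lit 0) (.e (nat_lit 359215) (nat_lit 0) .nil) .nil))) 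
(.lf (nat_lit 574444) (.g (nat_lit 1904) (.e (nat_lit 483404) (nat_lit 26) (.e (nat_lit 385068) (nat_lit 26) (.e (nat_lit 532503) (nat_lit 1) (.e (nat_lit 57849) (nat_lit 252) .nil)))) (.g (nat_lit 0) (.e (nat_lit 360810) (nat_lit 0) .nil) .nil)))))))) (.nd (nat_lit 5) (.nd (nat_lit 6) (.nd (nat_lit 7) (.nd (nat_lit 8) (.nd (nat_lit 9) 
(.lf (nat_lit 573468) (.g (nat_lit 401) (.e (nat_lit 483366) (nat_lit 18) (.e (nat_lit 57688) (nat_lit 156) (.e (nat_lit 163903) (nat_lit 12) .nil))) (.g (nat_lit 0) (.e (nat_lit 357920) (nat_lit 0) .nil) .nil))) 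
(.lf (nat_lit 573980) (.g (nat_lit 2827) (.e (nat_lit 483385) (nat_lit 23) (.e (nat_lit 336324) (nat_lit 18) (.e (nat_lit 204831) (nat_lit 18) (.e (nat_lit 57832) (nat_lit 250) .nil)))) (.g (nat_lit 0) (.e (nat_lit 359390) (nat_lit 0) .nil) .nil)))) (.nd (nat_lit 9) 
(.lf (nat_lit 573724) (.g (nat_lit 406) (.e (nat_lit 483378) (nat_lit 23) (.e (nat_lit 336028) (nat_lit 3) (.e (nat_lit 98325) (nat_lit 17) .nil))) (.g (nat_lit 0) (.e (nat_lit 358580) (nat_lit 0) .nil) .nil))) 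
(.lf (nat_lit 574236) (.g (nat_lit 861) (.e (nat_lit 483395) (nat_lit 24) (.e (nat_lit 344097) (nat_lit 18) (.e (nat_lit 5906) (nat_lit 320) (.e (nat_lit 1210) (nat_lit 89) .nil)))) (.g (nat_lit 0) (.e (nat_lit 360162) (nat_lit 0) .nil) .nil))))) (.nd (nat_lit 8) (.nd (nat_lit 9) 
(.lf (nat_lit 573596) (.g (nat_lit 1524) (.e (nat_lit 483366) (nat_lit 18) (.e (nat_lit 57929) (nat_lit 282) (.e (nat_lit 163874) (nat_lit 3) (.e (nat_lit 204877) (nat_lit 31) (.e (nat_lit 384768) (nat_lit 18) .nil))))) (.g (nat_lit 1) (.e (nat_lit 358060) (nat_lit 0) .nil) .nil))) 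
(.lf (nat_lit 574108) (.g (nat_lit 2627) (.e (nat_lit 483393) (nat_lit 23) (.e (nat_lit 335988) (nat_lit 1) (.e (nat_lit 57854) (nat_lit 252) (.e (nat_lit 57384) (nat_lit 4) (.e (nat_lit 114432) (nat_lit 11) .nil))))) (.g (nat_lit 0) (.e (nat_lit 359798) (nat_lit 0) .nil) .nil)))) (.nd (nat_lit 9) 
(.lf (nat_lit 573852) (.g (nat_lit 2684) (.e (nat_lit 483383) (nat_lit 23) (.e (nat_lit 336000) (nat_lit 1) (.e (nat_lit 57846) (nat_lit 252) (.e (nat_lit 57388) (nat_lit 5) (.e (nat_lit 114698) (nat_lit 11) (.e (nat_lit 426334) (nat_lit 13) .nil)))))) (.g (nat_lit 1) (.e (nat_lit 359013) (nat_lit 0) .nil) .nil))) 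
(.lf (nat_lit 574364) (.g (nat_lit 1586) (.e (nat_lit 483399) (nat_lit 25) (.e (nat_lit 368676) (nat_lit 21) (.e (nat_lit 516119) (nat_lit 1) (.e (nat_lit 164183) (nat_lit 154) .nil)))) (.g (nat_lit 0) (.e (nat_lit 360525) (nat_lit 0) .nil) .nil)))))) (.nd (nat_lit 7) (.nd (nat_lit 8) (.nd (nat_lit 9) 
(.lf (nat_lit 573532) (.g (nat_lit 1637) (.e (nat_lit 483366) (nat_lit 18) (.e (nat_lit 57848) (nat_lit 252) (.e (nat_lit 57375) (nat_lit 2) (.e (nat_lit 90157) (nat_lit 11) .nil)))) (.g (nat_lit 0) (.e (nat_lit 357993) (nat_lit 0) .nil) .nil))) 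
(.lf (nat_lit 574044) (.g (nat_lit 1903) (.e (nat_lit 483392) (nat_lit 23) (.e (nat_lit 335988) (nat_lit 1) (.e (nat_lit 57854) (nat_lit 252) (.e (nat_lit 57382) (nat_lit 4) .nil)))) (.g (nat_lit 0) (.e (nat_lit 359619) (nat_lit 0) .nil) .nil)))) (.nd (nat_lit 9) 
(.lf (nat_lit 573788) (.g (nat_lit 4314) (.e (nat_lit 483381) (nat_lit 23) (.e (nat_lit 336324) (nat_lit 18) (.e (nat_lit 204831) (nat_lit 18) (.e (nat_lit 57822) (nat_lit 250) .nil)))) (.g (nat_lit 0) (.e (nat_lit 358792) (nat_lit 0) .nil) .nil))) 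
(.lf (nat_lit 574300) (.g (nat_lit 885) (.e (nat_lit 483396) (nat_lit 24) (.e (nat_lit 344133) (nat_lit 26) (.e (nat_lit 564992) (nat_lit 8) .nil))) (.g (nat_lit 0) (.e (nat_lit 360350) (nat_lit 0) .nil) .nil))))) (.nd (nat_lit 8) (.nd (nat_lit 9) 
(.lf (nat_lit 573660) (.g (nat_lit 704) (.e (nat_lit 483372) (nat_lit 21) (.e (nat_lit 319504) (nat_lit 10) (.e (nat_lit 5736) (nat_lit 312) .nil))) (.g (nat_lit 0) (.e (nat_lit 358270) (nat_lit 0) .nil) .nil))) 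
(.lf (nat_lit 574172) (.g (nat_lit 2679) (.e (nat_lit 491264) (nat_lit 23) (.e (nat_lit 336324) (nat_lit 18) (.e (nat_lit 204831) (nat_lit 18) (.e (nat_lit 57853) (nat_lit 252) .nil)))) (.g (nat_lit 0) (.e (nat_lit 360038) (nat_lit 0) .nil) .nil)))) (.nd (nat_lit 9) 
(.lf (nat_lit 573916) (.g (nat_lit 1974) (.e (nat_lit 483384) (nat_lit 23) (.e (nat_lit 336019) (nat_lit 3) (.e (nat_lit 98333) (nat_lit 18) (.e (nat_lit 164161) (nat_lit 152) .nil)))) (.g (nat_lit 0) (.e (nat_lit 359176) (nat_lit 0) .nil) .nil))) 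
(.lf (nat_lit 574428) (.g (nat_lit 3535) (.e (nat_lit 483403) (nat_lit 26) (.e (nat_lit 385068) (nat_lit 26) (.e (nat_lit 532504) (nat_lit 1) (.e (nat_lit 57852) (nat_lit 252) (.e (nat_lit 57406) (nat_lit 12) (.e (nat_lit 336452) (nat_lit 34) .nil)))))) (.g (nat_lit 1) (.e (nat_lit 360743) (nat_lit 0) .nil) .nil))))))) (.nd (nat_lit 6) (.nd (nat_lit 7) (.nd (nat_lit 8) (.nd (nat_lit 9) 
(.lf (nat_lit 573500) (.g (nat_lit 551) (.e (nat_lit 483366) (nat_lit 18) (.e (nat_lit 57846) (nat_lit 252) (.e (nat_lit 57376) (nat_lit 3) .nil))) (.g (nat_lit 0) (.e (nat_lit 357960) (nat_lit 0) .nil) .nil))) 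
(.lf (nat_lit 574012) (.g (nat_lit 3440) (.e (nat_lit 483387) (nat_lit 23) (.e (nat_lit 336282) (nat_lit 15) (.e (nat_lit 3632) (nat_lit 227) (.e (nat_lit 778323) (nat_lit 5) (.e (nat_lit 73781) (nat_lit 32) (.e (nat_lit 3090) (nat_lit 191) .nil)))))) (.g (nat_lit 1) (.e (nat_lit 359547) (nat_lit 0) .nil) .nil)))) (.nd (nat_lit 9) 
(.lf (nat_lit 573756) (.g (nat_lit 3772) (.e (nat_lit 483380) (nat_lit 23) (.e (nat_lit 336324) (nat_lit 18) (.e (nat_lit 204831) (nat_lit 18) (.e (nat_lit 57823) (nat_lit 250) .nil)))) (.g (nat_lit 0) (.e (nat_lit 358669) (nat_lit 0) .nil) .nil))) 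
(.lf (nat_lit 574268) (.g (nat_lit 2581) (.e (nat_lit 483395) (nat_lit 24) (.e (nat_lit 344168) (nat_lit 40) (.e (nat_lit 671763) (nat_lit 5) (.e (nat_lit 73781) (nat_lit 32) (.e (nat_lit 3090) (nat_lit 191) .nil))))) (.g (nat_lit 1) (.e (nat_lit 360282) (nat_lit 0) .nil) .nil))))) (.nd (nat_lit 8) (.nd (nat_lit 9) 
(.lf (nat_lit 573628) (.g (nat_lit 388) (.e (nat_lit 483367) (nat_lit 19) (.e (nat_lit 123197) (nat_lit 266) (.e (nat_lit 57347) (nat_lit 0) .nil))) (.g (nat_lit 0) (.e (nat_lit 358100) (nat_lit 0) .nil) .nil))) 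
(.lf (nat_lit 574140) (.g (nat_lit 2742) (.e (nat_lit 483393) (nat_lit 23) (.e (nat_lit 336021) (nat_lit 3) (.e (nat_lit 98335) (nat_lit 18) (.e (nat_lit 164179) (nat_lit 154) (.e (nat_lit 57406) (nat_lit 12) .nil))))) (.g (nat_lit 0) (.e (nat_lit 359970) (nat_lit 0) .nil) .nil)))) (.nd (nat_lit 9) 
(.lf (nat_lit 573884) (.g (nat_lit 2315) (.e (nat_lit 483383) (nat_lit 23) (.e (nat_lit 336286) (nat_lit 15) (.e (nat_lit 3632) (nat_lit 227) (.e (nat_lit 778324) (nat_lit 5) (.e (nat_lit 73781) (nat_lit 32) (.e (nat_lit 3089) (nat_lit 191) .nil)))))) (.g (nat_lit 1) (.e (nat_lit 359082) (nat_lit 0) .nil) .nil))) 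
(.lf (nat_lit 574396) (.g (nat_lit 2264) (.e (nat_lit 483402) (nat_lit 26) (.e (nat_lit 385068) (nat_lit 26) (.e (nat_lit 532503) (nat_lit 1) (.e (nat_lit 57846) (nat_lit 252) (.e (nat_lit 57407) (nat_lit 12) .nil))))) (.g (nat_lit 0) (.e (nat_lit 360656) (nat_lit 0) .nil) .nil)))))) (.nd (nat_lit 7) (.nd (nat_lit 8) (.nd (nat_lit 9) 
(.lf (nat_lit 573564) (.g (nat_lit 3713) (.e (nat_lit 483366) (nat_lit 18) (.e (nat_lit 57854) (nat_lit 252) (.e (nat_lit 57373) (nat_lit 2) (.e (nat_lit 90153) (nat_lit 10) .nil)))) (.g (nat_lit 0) (.e (nat_lit 358025) (nat_lit 0) .nil) .nil))) 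
(.lf (nat_lit 574076) (.g (nat_lit 1825) (.e (nat_lit 483393) (nat_lit 23) (.e (nat_lit 335987) (nat_lit 1) (.e (nat_lit 57854) (nat_lit 252) (.e (nat_lit 57347) (nat_lit 0) (.e (nat_lit 2074) (nat_lit 142) .nil))))) (.g (nat_lit 0) (.e (nat_lit 359721) (nat_lit 0) .nil) .nil)))) (.nd (nat_lit 9) 
(.lf (nat_lit 573820) (.g (nat_lit 531) (.e (nat_lit 483382) (nat_lit 23) (.e (nat_lit 336316) (nat_lit 17) (.e (nat_lit 196697) (nat_lit 19) .nil))) (.g (nat_lit 0) (.e (nat_lit 358860) (nat_lit 0) .nil) .nil))) 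
(.lf (nat_lit 574332) (.g (nat_lit 1431) (.e (nat_lit 483398) (nat_lit 25) (.e (nat_lit 368676) (nat_lit 21) (.e (nat_lit 516097) (nat_lit 0) (.e (nat_lit 3460) (nat_lit 216) .nil)))) (.g (nat_lit 0) (.e (nat_lit 360428) (nat_lit 0) .nil) .nil))))) (.nd (nat_lit 8) (.nd (nat_lit 9) 
(.lf (nat_lit 573692) (.g (nat_lit 2042) (.e (nat_lit 483372) (nat_lit 21) (.e (nat_lit 319531) (nat_lit 16) (.e (nat_lit 286727) (nat_lit 0) (.e (nat_lit 1015) (nat_lit 81) .nil)))) (.g (nat_lit 0) (.e (nat_lit 358372) (nat_lit 0) .nil) .nil))) 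
(.lf (nat_lit 574204) (.g (nat_lit 2913) (.e (nat_lit 483394) (nat_lit 24) (.e (nat_lit 344117) (nat_lit 21) (.e (nat_lit 516195) (nat_lit 26) (.e (nat_lit 335988) (nat_lit 1) (.e (nat_lit 57927) (nat_lit 282) (.e (nat_lit 163941) (nat_lit 19) .nil)))))) (.g (nat_lit 1) (.e (nat_lit 360100) (nat_lit 0) .nil) .nil)))) (.nd (nat_lit 9) 
(.lf (nat_lit 573948) (.g (nat_lit 4189) (.e (nat_lit 483384) (nat_lit 23) (.e (nat_lit 336324) (nat_lit 18) (.e (nat_lit 204831) (nat_lit 18) (.e (nat_lit 57850) (nat_lit 252) .nil)))) (.g (nat_lit 0) (.e (nat_lit 359237) (nat_lit 0) .nil) .nil))) 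
(.lf (nat_lit 574460) (.g (nat_lit 2205) (.e (nat_lit 483405) (nat_lit 26) (.e (nat_lit 385066) (nat_lit 26) (.e (nat_lit 532501) (nat_lit 1) (.e (nat_lit 57853) (nat_lit 252) (.e (nat_lit 57406) (nat_lit 12) .nil))))) (.g (nat_lit 0) (.e (nat_lit 360855) (nat_lit 0) .nil) .nil))))))))))) 
(.nd (nat_lit 2) (.nd (nat_lit 3) (.nd (nat_lit 4) (.nd (nat_lit 5) (.nd (nat_lit 6) 
(.nd (nat_lit 7) (.nd (nat_lit 8) (.nd (nat_lit 9) 
(.lf (nat_lit 573442) (.g (nat_lit 1390) (.e (nat_lit 483365) (nat_lit 18) (.e (nat_lit 57931) (nat_lit 282) (.e (nat_lit 163867) (nat_lit 2) (.e (nat_lit 196664) (nat_lit 13) .nil)))) (.g (nat_lit 0) (.e (nat_lit 357884) (nat_lit 0) .nil) .nil))) 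
(.lf (nat_lit 573954) (.g (nat_lit 1369) (.e (nat_lit 483384) (nat_lit 23) (.e (nat_lit 336324) (nat_lit 18) (.e (nat_lit 204831) (nat_lit 18) (.e (nat_lit 57854) (nat_lit 252) .nil)))) (.g (nat_lit 0) (.e (nat_lit 359246) (nat_lit 0) .nil) .nil)))) (.nd (nat_lit 9) 
(.lf (nat_lit 573698) (.g (nat_lit 330) (.e (nat_lit 483372) (nat_lit 21) (.e (nat_lit 319533) (nat_lit 16) (.e (nat_lit 286731) (nat_lit 1) .nil))) (.g (nat_lit 0) (.e (nat_lit 358417) (nat_lit 0) .nil) .nil))) 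
(.lf (nat_lit 574210) (.g (nat_lit 2824) (.e (nat_lit 483394) (nat_lit 24) (.e (nat_lit 344117) (nat_lit 21) (.e (nat_lit 516195) (nat_lit 26) (.e (nat_lit 335995) (nat_lit 1) (.e (nat_lit 57931) (nat_lit 282) (.e (nat_lit 163941) (nat_lit 19) .nil)))))) (.g (nat_lit 1) (.e (nat_lit 360106) (nat_lit 0) .nil) .nil))))) (.nd (nat_lit 8) (.nd (nat_lit 9) 
(.lf (nat_lit 573570) (.g (nat_lit 1862) (.e (nat_lit 483366) (nat_lit 18) (.e (nat_lit 57854) (nat_lit 252) (.e (nat_lit 57373) (nat_lit 2) (.e (nat_lit 90160) (nat_lit 11) (.e (nat_lit 24638) (nat_lit 9) .nil))))) (.g (nat_lit 0) (.e (nat_lit 358031) (nat_lit 0) .nil) .nil))) 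
(.lf (nat_lit 574082) (.g (nat_lit 454) (.e (nat_lit 483393) (nat_lit 23) (.e (nat_lit 335988) (nat_lit 1) (.e (nat_lit 57851) (nat_lit 252) .nil))) (.g (nat_lit 0) (.e (nat_lit 359744) (nat_lit 0) .nil) .nil)))) (.nd (nat_lit 9) 
(.lf (nat_lit 573826) (.g (nat_lit 1689) (.e (nat_lit 483382) (nat_lit 23) (.e (nat_lit 336322) (nat_lit 18) (.e (nat_lit 204830) (nat_lit 18) (.e (nat_lit 57852) (nat_lit 252) (.e (nat_lit 57409) (nat_lit 12) .nil))))) (.g (nat_lit 0) (.e (nat_lit 358866) (nat_lit 0) .nil) .nil))) 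
(.lf (nat_lit 574338) (.g (nat_lit 1642) (.e (nat_lit 483398) (nat_lit 25) (.e (nat_lit 368676) (nat_lit 21) (.e (nat_lit 516117) (nat_lit 1) (.e (nat_lit 164184) (nat_lit 155) (.e (nat_lit 122903) (nat_lit 12) .nil))))) (.g (nat_lit 0) (.e (nat_lit 360454) (nat_lit 0) .nil) .nil)))))) (.nd (nat_lit 7) (.nd (nat_lit 8) (.nd (nat_lit 9) 
(.lf (nat_lit 573506) (.g (nat_lit 1156) (.e (nat_lit 483366) (nat_lit 18) (.e (nat_lit 57847) (nat_lit 252) (.e (nat_lit 57374) (nat_lit 2) (.e (nat_lit 90158) (nat_lit 11) .nil)))) (.g (nat_lit 0) (.e (nat_lit 357966) (nat_lit 0) .nil) .nil))) 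
(.lf (nat_lit 574018) (.g (nat_lit 737) (.e (nat_lit 483389) (nat_lit 23) (.e (nat_lit 335997) (nat_lit 1) (.e (nat_lit 57872) (nat_lit 264) (.e (nat_lit 1211) (nat_lit 89) .nil)))) (.g (nat_lit 0) (.e (nat_lit 359555) (nat_lit 0) .nil) .nil)))) (.nd (nat_lit 9) 
(.lf (nat_lit 573762) (.g (nat_lit 3113) (.e (nat_lit 483380) (nat_lit 23) (.e (nat_lit 336324) (nat_lit 18) (.e (nat_lit 204831) (nat_lit 18) (.e (nat_lit 57832) (nat_lit 250) .nil)))) (.g (nat_lit 0) (.e (nat_lit 358681) (nat_lit 0) .nil) .nil))) 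
(.lf (nat_lit 574274) (.g (nat_lit 346) (.e (nat_lit 483395) (nat_lit 24) (.e (nat_lit 344160) (nat_lit 37) (.e (nat_lit 647200) (nat_lit 12) .nil))) (.g (nat_lit 0) (.e (nat_lit 360296) (nat_lit 0) .nil) .nil))))) (.nd (nat_lit 8) (.nd (nat_lit 9) 
(.lf (nat_lit 573634) (.g (nat_lit 1233) (.e (nat_lit 483370) (nat_lit 20) (.e (nat_lit 147503) (nat_lit 12) (.e (nat_lit 164058) (nat_lit 56) (.e (nat_lit 786457) (nat_lit 18) (.e (nat_lit 98365) (nat_lit 26) (.e (nat_lit 426325) (nat_lit 13) .nil)))))) (.g (nat_lit 1) (.e (nat_lit 358154) (nat_lit 0) .nil) .nil))) 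
(.lf (nat_lit 574146) (.g (nat_lit 682) (.e (nat_lit 483393) (nat_lit 23) (.e (nat_lit 336027) (nat_lit 3) (.e (nat_lit 98334) (nat_lit 18) .nil))) (.g (nat_lit 0) (.e (nat_lit 359983) (nat_lit 0) .nil) .nil)))) (.nd (nat_lit 9) 
(.lf (nat_lit 573890) (.g (nat_lit 386) (.e (nat_lit 483383) (nat_lit 23) (.e (nat_lit 336324) (nat_lit 18) (.e (nat_lit 204831) (nat_lit 18) .nil))) (.g (nat_lit 0) (.e (nat_lit 359109) (nat_lit 0) .nil) .nil))) 
(.lf (nat_lit 574402) (.g (nat_lit 2090) (.e (nat_lit 483402) (nat_lit 26) (.e (nat_lit 385093) (nat_lit 49) (.e (nat_lit 778323) (nat_lit 5) (.e (nat_lit 73782) (nat_lit 32) (.e (nat_lit 3087) (nat_lit 191) .nil))))) (.g (nat_lit 1) (.e (nat_lit 360675) (nat_lit 0) .nil) .nil))))))) (.nd (nat_lit 6) (.nd (nat_lit 7) (.nd (nat_lit 8) (.nd (nat_lit 9) 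
(.lf (nat_lit 573474) (.g (nat_lit 2582) (.e (nat_lit 483366) (nat_lit 18) (.e (nat_lit 57688) (nat_lit 156) (.e (nat_lit 163907) (nat_lit 12) (.e (nat_lit 426428) (nat_lit 17) (.e (nat_lit 90170) (nat_lit 13) .nil))))) (.g (nat_lit 0) (.e (nat_lit 357927) (nat_lit 0) .nil) .nil))) 
(.lf (nat_lit 573986) (.g (nat_lit 4171) (.e (nat_lit 483385) (nat_lit 23) (.e (nat_lit 336324) (nat_lit 18) (.e (nat_lit 204831) (nat_lit 18) (.e (nat_lit 57847) (nat_lit 252) (.e (nat_lit 57407) (nat_lit 12) (.e (nat_lit 336454) (nat_lit 34) .nil)))))) (.g (nat_lit 1) (.e (nat_lit 359402) (nat_lit 0) .nil) .nil)))) (.nd (nat_lit 9) 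
(.lf (nat_lit 573730) (.g (nat_lit 2406) (.e (nat_lit 483378) (nat_lit 23) (.e (nat_lit 336295) (nat_lit 15) (.e (nat_lit 3632) (nat_lit 227) (.e (nat_lit 778324) (nat_lit 5) (.e (nat_lit 73781) (nat_lit 32) .nil))))) (.g (nat_lit 0) (.e (nat_lit 358589) (nat_lit 0) .nil) .nil))) 
(.lf (nat_lit 574242) (.g (nat_lit 1911) (.e (nat_lit 483395) (nat_lit 24) (.e (nat_lit 344117) (nat_lit 21) (.e (nat_lit 516106) (nat_lit 0) (.e (nat_lit 2478) (nat_lit 157) .nil)))) (.g (nat_lit 0) (.e (nat_lit 360177) (nat_lit 0) .nil) .nil))))) (.nd (nat_lit 8) (.nd (nat_lit 9) 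
(.lf (nat_lit 573602) (.g (nat_lit 2068) (.e (nat_lit 483366) (nat_lit 18) (.e (nat_lit 57930) (nat_lit 282) (.e (nat_lit 163873) (nat_lit 3) (.e (nat_lit 204865) (nat_lit 28) (.e (nat_lit 360192) (nat_lit 18) .nil))))) (.g (nat_lit 1) (.e (nat_lit 358066) (nat_lit 0) .nil) .nil))) 
(.lf (nat_lit 574114) (.g (nat_lit 1886) (.e (nat_lit 483393) (nat_lit 23) (.e (nat_lit 335995) (nat_lit 1) (.e (nat_lit 57870) (nat_lit 264) (.e (nat_lit 1209) (nat_lit 89) (.e (nat_lit 73781) (nat_lit 32) .nil))))) (.g (nat_lit 0) (.e (nat_lit 359823) (nat_lit 0) .nil) .nil)))) (.nd (nat_lit 9) 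
(.lf (nat_lit 573858) (.g (nat_lit 1741) (.e (nat_lit 483383) (nat_lit 23) (.e (nat_lit 336019) (nat_lit 3) (.e (nat_lit 98333) (nat_lit 18) (.e (nat_lit 164155) (nat_lit 152) .nil)))) (.g (nat_lit 0) (.e (nat_lit 359041) (nat_lit 0) .nil) .nil))) 
(.lf (nat_lit 574370) (.g (nat_lit 1965) (.e (nat_lit 483400) (nat_lit 25) (.e (nat_lit 368676) (nat_lit 21) (.e (nat_lit 516118) (nat_lit 1) (.e (nat_lit 164183) (nat_lit 154) (.e (nat_lit 57409) (nat_lit 12) .nil))))) (.g (nat_lit 0) (.e (nat_lit 360559) (nat_lit 0) .nil) .nil)))))) (.nd (nat_lit 7) (.nd (nat_lit 8) (.nd (nat_lit 9) 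
(.lf (nat_lit 573538) (.g (nat_lit 1695) (.e (nat_lit 483366) (nat_lit 18) (.e (nat_lit 57849) (nat_lit 252) (.e (nat_lit 57375) (nat_lit 2) (.e (nat_lit 90123) (nat_lit 9) .nil)))) (.g (nat_lit 0) (.e (nat_lit 357999) (nat_lit 0) .nil) .nil))) 
(.lf (nat_lit 574050) (.g (nat_lit 746) (.e (nat_lit 483392) (nat_lit 23) (.e (nat_lit 335996) (nat_lit 1) (.e (nat_lit 57851) (nat_lit 252) .nil))) (.g (nat_lit 0) (.e (nat_lit 359631) (nat_lit 0) .nil) .nil)))) (.nd (nat_lit 9) 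
(.lf (nat_lit 573794) (.g (nat_lit 2663) (.e (nat_lit 483381) (nat_lit 23) (.e (nat_lit 336324) (nat_lit 18) (.e (nat_lit 204831) (nat_lit 18) (.e (nat_lit 57847) (nat_lit 252) .nil)))) (.g (nat_lit 0) (.e (nat_lit 358801) (nat_lit 0) .nil) .nil))) 
(.lf (nat_lit 574306) (.g (nat_lit 1834) (.e (nat_lit 483396) (nat_lit 24) (.e (nat_lit 344160) (nat_lit 37) (.e (nat_lit 647190) (nat_lit 9) (.e (nat_lit 1030) (nat_lit 81) .nil)))) (.g (nat_lit 0) (.e (nat_lit 360368) (nat_lit 0) .nil) .nil))))) (.nd (nat_lit 8) (.nd (nat_lit 9) 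
(.lf (nat_lit 573666) (.g (nat_lit 315) (.e (nat_lit 483372) (nat_lit 21) (.e (nat_lit 319505) (nat_lit 10) (.e (nat_lit 618) (nat_lit 48) .nil))) (.g (nat_lit 0) (.e (nat_lit 358286) (nat_lit 0) .nil) .nil))) 
(.lf (nat_lit 574178) (.g (nat_lit 1460) (.e (nat_lit 483394) (nat_lit 24) (.e (nat_lit 344097) (nat_lit 18) (.e (nat_lit 5907) (nat_lit 320) (.e (nat_lit 1211) (nat_lit 89) (.e (nat_lit 81664) (nat_lit 32) .nil))))) (.g (nat_lit 0) (.e (nat_lit 360048) (nat_lit 0) .nil) .nil)))) (.nd (nat_lit 9) 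
(.lf (nat_lit 573922) (.g (nat_lit 1431) (.e (nat_lit 483384) (nat_lit 23) (.e (nat_lit 336019) (nat_lit 3) (.e (nat_lit 98335) (nat_lit 18) (.e (nat_lit 164148) (nat_lit 152) .nil)))) (.g (nat_lit 0) (.e (nat_lit 359185) (nat_lit 0) .nil) .nil))) 
(.lf (nat_lit 574434) (.g (nat_lit 451) (.e (nat_lit 483403) (nat_lit 26) (.e (nat_lit 385106) (nat_lit 50) (.e (nat_lit 786473) (nat_lit 27) .nil))) (.g (nat_lit 0) (.e (nat_lit 360767) (nat_lit 0) .nil) .nil)))))))) (.nd (nat_lit 5) (.nd (nat_lit 6) (.nd (nat_lit 7) (.nd (nat_lit 8) (.nd (nat_lit 9) 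
(.lf (nat_lit 573458) (.g (nat_lit 2534) (.e (nat_lit 483365) (nat_lit 18) (.e (nat_lit 57931) (nat_lit 282) (.e (nat_lit 163874) (nat_lit 3) (.e (nat_lit 204866) (nat_lit 28) (.e (nat_lit 360192) (nat_lit 18) .nil))))) (.g (nat_lit 1) (.e (nat_lit 357905) (nat_lit 0) .nil) .nil))) 
(.lf (nat_lit 573970) (.g (nat_lit 1078) (.e (nat_lit 483385) (nat_lit 23) (.e (nat_lit 336324) (nat_lit 18) (.e (nat_lit 204830) (nat_lit 18) (.e (nat_lit 57830) (nat_lit 250) .nil)))) (.g (nat_lit 0) (.e (nat_lit 359361) (nat_lit 0) .nil) .nil)))) (.nd (nat_lit 9) 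
(.lf (nat_lit 573714) (.g (nat_lit 771) (.e (nat_lit 483372) (nat_lit 21) (.e (nat_lit 319534) (nat_lit 16) (.e (nat_lit 286736) (nat_lit 4) .nil))) (.g (nat_lit 0) (.e (nat_lit 358463) (nat_lit 0) .nil) .nil))) 
(.lf (nat_lit 574226) (.g (nat_lit 1741) (.e (nat_lit 483394) (nat_lit 24) (.e (nat_lit 344160) (nat_lit 37) (.e (nat_lit 647195) (nat_lit 9) (.e (nat_lit 982) (nat_lit 81) .nil)))) (.g (nat_lit 0) (.e (nat_lit 360143) (nat_lit 0) .nil) .nil))))) (.nd (nat_lit 8) (.nd (nat_lit 9) 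
(.lf (nat_lit 573586) (.g (nat_lit 1606) (.e (nat_lit 483366) (nat_lit 18) (.e (nat_lit 57929) (nat_lit 282) (.e (nat_lit 163867) (nat_lit 2) (.e (nat_lit 196672) (nat_lit 15) (.e (nat_lit 89856) (nat_lit 18) .nil))))) (.g (nat_lit 0) (.e (nat_lit 358049) (nat_lit 0) .nil) .nil))) 
(.lf (nat_lit 574098) (.g (nat_lit 1888) (.e (nat_lit 483393) (nat_lit 23) (.e (nat_lit 335988) (nat_lit 1) (.e (nat_lit 57854) (nat_lit 252) (.e (nat_lit 57347) (nat_lit 0) (.e (nat_lit 2075) (nat_lit 142) .nil))))) (.g (nat_lit 0) (.e (nat_lit 359778) (nat_lit 0) .nil) .nil)))) (.nd (nat_lit 9) 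
(.lf (nat_lit 573842) (.g (nat_lit 2406) (.e (nat_lit 483382) (nat_lit 23) (.e (nat_lit 336324) (nat_lit 18) (.e (nat_lit 204831) (nat_lit 18) (.e (nat_lit 57849) (nat_lit 252) (.e (nat_lit 57405) (nat_lit 12) .nil))))) (.g (nat_lit 0) (.e (nat_lit 358897) (nat_lit 0) .nil) .nil))) 
(.lf (nat_lit 574354) (.g (nat_lit 1734) (.e (nat_lit 483399) (nat_lit 25) (.e (nat_lit 368676) (nat_lit 21) (.e (nat_lit 516115) (nat_lit 1) (.e (nat_lit 164179) (nat_lit 154) (.e (nat_lit 65280) (nat_lit 12) .nil))))) (.g (nat_lit 0) (.e (nat_lit 360504) (nat_lit 0) .nil) .nil)))))) (.nd (nat_lit 7) (.nd (nat_lit 8) (.nd (nat_lit 9) 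
(.lf (nat_lit 573522) (.g (nat_lit 3059) (.e (nat_lit 483366) (nat_lit 18) (.e (nat_lit 57848) (nat_lit 252) (.e (nat_lit 57372) (nat_lit 2) (.e (nat_lit 90160) (nat_lit 11) (.e (nat_lit 24628) (nat_lit 9) (.e (nat_lit 336454) (nat_lit 34) .nil)))))) (.g (nat_lit 1) (.e (nat_lit 357982) (nat_lit 0) .nil) .nil))) 
(.lf (nat_lit 574034) (.g (nat_lit 960) (.e (nat_lit 483391) (nat_lit 23) (.e (nat_lit 336017) (nat_lit 3) (.e (nat_lit 98334) (nat_lit 18) (.e (nat_lit 164159) (nat_lit 152) .nil)))) (.g (nat_lit 0) (.e (nat_lit 359600) (nat_lit 0) .nil) .nil)))) (.nd (nat_lit 9) 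
(.lf (nat_lit 573778) (.g (nat_lit 3699) (.e (nat_lit 483380) (nat_lit 23) (.e (nat_lit 336324) (nat_lit 18) (.e (nat_lit 204831) (nat_lit 18) (.e (nat_lit 57931) (nat_lit 282) .nil)))) (.g (nat_lit 0) (.e (nat_lit 358704) (nat_lit 0) .nil) .nil))) 
(.lf (nat_lit 574290) (.g (nat_lit 862) (.e (nat_lit 483396) (nat_lit 24) (.e (nat_lit 344117) (nat_lit 21) (.e (nat_lit 516115) (nat_lit 1) .nil))) (.g (nat_lit 0) (.e (nat_lit 360320) (nat_lit 0) .nil) .nil))))) (.nd (nat_lit 8) (.nd (nat_lit 9) 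
(.lf (nat_lit 573650) (.g (nat_lit 286) (.e (nat_lit 483372) (nat_lit 21) (.e (nat_lit 319504) (nat_lit 10) (.e (nat_lit 618) (nat_lit 48) .nil))) (.g (nat_lit 0) (.e (nat_lit 358251) (nat_lit 0) .nil) .nil))) 
(.lf (nat_lit 574162) (.g (nat_lit 1458) (.e (nat_lit 491264) (nat_lit 23) (.e (nat_lit 336021) (nat_lit 3) (.e (nat_lit 98317) (nat_lit 9) (.e (nat_lit 335988) (nat_lit 1) .nil)))) (.g (nat_lit 0) (.e (nat_lit 360024) (nat_lit 0) .nil) .nil)))) (.nd (nat_lit 9) 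
(.lf (nat_lit 573906) (.g (nat_lit 2498) (.e (nat_lit 483383) (nat_lit 23) (.e (nat_lit 336326) (nat_lit 18) (.e (nat_lit 204829) (nat_lit 18) (.e (nat_lit 57854) (nat_lit 252) (.e (nat_lit 57409) (nat_lit 12) .nil))))) (.g (nat_lit 0) (.e (nat_lit 359132) (nat_lit 0) .nil) .nil))) 
(.lf (nat_lit 574418) (.g (nat_lit 1873) (.e (nat_lit 483403) (nat_lit 26) (.e (nat_lit 385068) (nat_lit 26) (.e (nat_lit 532500) (nat_lit 1) (.e (nat_lit 57851) (nat_lit 252) .nil)))) (.g (nat_lit 0) (.e (nat_lit 360729) (nat_lit 0) .nil) .nil))))))) (.nd (nat_lit 6) (.nd (nat_lit 7) (.nd (nat_lit 8) (.nd (nat_lit 9) 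
(.lf (nat_lit 573490) (.g (nat_lit 1383) (.e (nat_lit 483366) (nat_lit 18) (.e (nat_lit 57692) (nat_lit 156) (.e (nat_lit 163907) (nat_lit 12) (.e (nat_lit 426438) (nat_lit 18) (.e (nat_lit 98363) (nat_lit 26) .nil))))) (.g (nat_lit 0) (.e (nat_lit 357950) (nat_lit 0) .nil) .nil))) 
(.lf (nat_lit 574002) (.g (nat_lit 2048) (.e (nat_lit 483386) (nat_lit 23) (.e (nat_lit 336295) (nat_lit 15) (.e (nat_lit 3632) (nat_lit 227) (.e (nat_lit 778323) (nat_lit 5) (.e (nat_lit 73781) (nat_lit 32) (.e (nat_lit 3087) (nat_lit 191) .nil)))))) (.g (nat_lit 1) (.e (nat_lit 359512) (nat_lit 0) .nil) .nil)))) (.nd (nat_lit 9) 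
(.lf (nat_lit 573746) (.g (nat_lit 2030) (.e (nat_lit 483380) (nat_lit 23) (.e (nat_lit 336320) (nat_lit 17) (.e (nat_lit 196698) (nat_lit 19) (.e (nat_lit 57809) (nat_lit 246) (.e (nat_lit 57879) (nat_lit 270) (.e (nat_lit 496) (nat_lit 39) .nil)))))) (.g (nat_lit 1) (.e (nat_lit 358640) (nat_lit 0) .nil) .nil))) 
(.lf (nat_lit 574258) (.g (nat_lit 1603) (.e (nat_lit 483395) (nat_lit 24) (.e (nat_lit 344129) (nat_lit 26) (.e (nat_lit 557090) (nat_lit 12) (.e (nat_lit 163999) (nat_lit 38) .nil)))) (.g (nat_lit 0) (.e (nat_lit 360229) (nat_lit 0) .nil) .nil))))) (.nd (nat_lit 8) (.nd (nat_lit 9) 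
(.lf (nat_lit 573618) (.g (nat_lit 1445) (.e (nat_lit 483366) (nat_lit 18) (.e (nat_lit 57931) (nat_lit 282) (.e (nat_lit 163874) (nat_lit 3) (.e (nat_lit 204875) (nat_lit 31) .nil)))) (.g (nat_lit 0) (.e (nat_lit 358086) (nat_lit 0) .nil) .nil))) 
(.lf (nat_lit 574130) (.g (nat_lit 2535) (.e (nat_lit 483393) (nat_lit 23) (.e (nat_lit 336021) (nat_lit 3) (.e (nat_lit 98317) (nat_lit 9) (.e (nat_lit 335986) (nat_lit 1) (.e (nat_lit 57926) (nat_lit 282) (.e (nat_lit 163941) (nat_lit 19) .nil)))))) (.g (nat_lit 1) (.e (nat_lit 359950) (nat_lit 0) .nil) .nil)))) (.nd (nat_lit 9) 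
(.lf (nat_lit 573874) (.g (nat_lit 1002) (.e (nat_lit 483383) (nat_lit 23) (.e (nat_lit 336019) (nat_lit 3) (.e (nat_lit 98335) (nat_lit 18) (.e (nat_lit 164177) (nat_lit 154) .nil)))) (.g (nat_lit 0) (.e (nat_lit 359071) (nat_lit 0) .nil) .nil))) 
(.lf (nat_lit 574386) (.g (nat_lit 2233) (.e (nat_lit 483401) (nat_lit 25) (.e (nat_lit 368676) (nat_lit 21) (.e (nat_lit 516119) (nat_lit 1) (.e (nat_lit 164163) (nat_lit 152) (.e (nat_lit 1190) (nat_lit 88) .nil))))) (.g (nat_lit 0) (.e (nat_lit 360618) (nat_lit 0) .nil) .nil)))))) (.nd (nat_lit 7) (.nd (nat_lit 8) (.nd (nat_lit 9) 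
(.lf (nat_lit 573554) (.g (nat_lit 3288) (.e (nat_lit 483366) (nat_lit 18) (.e (nat_lit 57854) (nat_lit 252) (.e (nat_lit 57371) (nat_lit 2) (.e (nat_lit 90160) (nat_lit 11) (.e (nat_lit 24628) (nat_lit 9) (.e (nat_lit 336454) (nat_lit 34) .nil)))))) (.g (nat_lit 1) (.e (nat_lit 358015) (nat_lit 0) .nil) .nil))) 
(.lf (nat_lit 574066) (.g (nat_lit 321) (.e (nat_lit 483393) (nat_lit 23) (.e (nat_lit 335986) (nat_lit 1) (.e (nat_lit 57849) (nat_lit 252) .nil))) (.g (nat_lit 0) (.e (nat_lit 359684) (nat_lit 0) .nil) .nil)))) (.nd (nat_lit 9) 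
(.lf (nat_lit 573810) (.g (nat_lit 2212) (.e (nat_lit 483382) (nat_lit 23) (.e (nat_lit 336019) (nat_lit 3) (.e (nat_lit 98333) (nat_lit 18) (.e (nat_lit 164149) (nat_lit 152) .nil)))) (.g (nat_lit 0) (.e (nat_lit 358849) (nat_lit 0) .nil) .nil))) 
(.lf (nat_lit 574322) (.g (nat_lit 951) (.e (nat_lit 483397) (nat_lit 25) (.e (nat_lit 368676) (nat_lit 21) (.e (nat_lit 516119) (nat_lit 1) .nil))) (.g (nat_lit 0) (.e (nat_lit 360398) (nat_lit 0) .nil) .nil))))) (.nd (nat_lit 8) (.nd (nat_lit 9) 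
(.lf (nat_lit 573682) (.g (nat_lit 1894) (.e (nat_lit 483372) (nat_lit 21) (.e (nat_lit 319530) (nat_lit 16) (.e (nat_lit 286728) (nat_lit 0) (.e (nat_lit 2391) (nat_lit 156) (.e (nat_lit 819237) (nat_lit 11) .nil))))) (.g (nat_lit 0) (.e (nat_lit 358340) (nat_lit 0) .nil) .nil))) 
(.lf (nat_lit 574194) (.g (nat_lit 3301) (.e (nat_lit 483394) (nat_lit 24) (.e (nat_lit 344117) (nat_lit 21) (.e (nat_lit 516116) (nat_lit 1) (.e (nat_lit 164182) (nat_lit 154) (.e (nat_lit 57410) (nat_lit 12) .nil))))) (.g (nat_lit 0) (.e (nat_lit 360077) (nat_lit 0) .nil) .nil)))) (.nd (nat_lit 9) 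
(.lf (nat_lit 573938) (.g (nat_lit 3282) (.e (nat_lit 483384) (nat_lit 23) (.e (nat_lit 336324) (nat_lit 18) (.e (nat_lit 204831) (nat_lit 18) (.e (nat_lit 57832) (nat_lit 250) .nil)))) (.g (nat_lit 0) (.e (nat_lit 359225) (nat_lit 0) .nil) .nil))) 
(.lf (nat_lit 574450) (.g (nat_lit 1340) (.e (nat_lit 483405) (nat_lit 26) (.e (nat_lit 385064) (nat_lit 26) (.e (nat_lit 532501) (nat_lit 1) (.e (nat_lit 57851) (nat_lit 252) (.e (nat_lit 57406) (nat_lit 12) .nil))))) (.g (nat_lit 0) (.e (nat_lit 360834) (nat_lit 0) .nil) .nil))))))))) (.nd (nat_lit 4) (.nd (nat_lit 5) (.nd (nat_lit 6) (.nd (nat_lit 7) (.nd (nat_lit 8) (.nd (nat_lit 9) 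
(.lf (nat_lit 573450) (.g (nat_lit 2707) (.e (nat_lit 483365) (nat_lit 18) (.e (nat_lit 57931) (nat_lit 282) (.e (nat_lit 163869) (nat_lit 2) (.e (nat_lit 196674) (nat_lit 15) (.e (nat_lit 89856) (nat_lit 18) .nil))))) (.g (nat_lit 1) (.e (nat_lit 357896) (nat_lit 0) .nil) .nil))) 
(.lf (nat_lit 573962) (.g (nat_lit 1790) (.e (nat_lit 483385) (nat_lit 23) (.e (nat_lit 336019) (nat_lit 3) (.e (nat_lit 98333) (nat_lit 18) (.e (nat_lit 164178) (nat_lit 154) (.e (nat_lit 57407) (nat_lit 12) .nil))))) (.g (nat_lit 0) (.e (nat_lit 359308) (nat_lit 0) .nil) .nil)))) (.nd (nat_lit 9) 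
(.lf (nat_lit 573706) (.g (nat_lit 867) (.e (nat_lit 483372) (nat_lit 21) (.e (nat_lit 319534) (nat_lit 16) (.e (nat_lit 286724) (nat_lit 0) .nil))) (.g (nat_lit 0) (.e (nat_lit 358446) (nat_lit 0) .nil) .nil))) 
(.lf (nat_lit 574218) (.g (nat_lit 2155) (.e (nat_lit 483394) (nat_lit 24) (.e (nat_lit 344168) (nat_lit 40) (.e (nat_lit 671763) (nat_lit 5) (.e (nat_lit 73781) (nat_lit 32) (.e (nat_lit 3088) (nat_lit 191) .nil))))) (.g (nat_lit 1) (.e (nat_lit 360131) (nat_lit 0) .nil) .nil))))) (.nd (nat_lit 8) (.nd (nat_lit 9) 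
(.lf (nat_lit 573578) (.g (nat_lit 967) (.e (nat_lit 483366) (nat_lit 18) (.e (nat_lit 57872) (nat_lit 264) (.e (nat_lit 1182) (nat_lit 87) (.e (nat_lit 57469) (nat_lit 26) (.e (nat_lit 540703) (nat_lit 11) .nil))))) (.g (nat_lit 0) (.e (nat_lit 358040) (nat_lit 0) .nil) .nil))) 
(.lf (nat_lit 574090) (.g (nat_lit 2439) (.e (nat_lit 483393) (nat_lit 23) (.e (nat_lit 335988) (nat_lit 1) (.e (nat_lit 57852) (nat_lit 252) (.e (nat_lit 57354) (nat_lit 0) (.e (nat_lit 2061) (nat_lit 142) .nil))))) (.g (nat_lit 0) (.e (nat_lit 359755) (nat_lit 0) .nil) .nil)))) (.nd (nat_lit 9) 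
(.lf (nat_lit 573834) (.g (nat_lit 4191) (.e (nat_lit 483382) (nat_lit 23) (.e (nat_lit 336324) (nat_lit 18) (.e (nat_lit 204831) (nat_lit 18) (.e (nat_lit 57825) (nat_lit 250) .nil)))) (.g (nat_lit 0) (.e (nat_lit 358883) (nat_lit 0) .nil) .nil))) 
(.lf (nat_lit 574346) (.g (nat_lit 458) (.e (nat_lit 483398) (nat_lit 25) (.e (nat_lit 368676) (nat_lit 21) (.e (nat_lit 516195) (nat_lit 26) .nil))) (.g (nat_lit 0) (.e (nat_lit 360476) (nat_lit 0) .nil) .nil)))))) (.nd (nat_lit 7) (.nd (nat_lit 8) (.nd (nat_lit 9) 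
(.lf (nat_lit 573514) (.g (nat_lit 1752) (.e (nat_lit 483366) (nat_lit 18) (.e (nat_lit 57848) (nat_lit 252) (.e (nat_lit 57372) (nat_lit 2) (.e (nat_lit 90123) (nat_lit 9) .nil)))) (.g (nat_lit 0) (.e (nat_lit 357974) (nat_lit 0) .nil) .nil))) 
(.lf (nat_lit 574026) (.g (nat_lit 456) (.e (nat_lit 483390) (nat_lit 23) (.e (nat_lit 335997) (nat_lit 1) (.e (nat_lit 57872) (nat_lit 264) .nil))) (.g (nat_lit 0) (.e (nat_lit 359572) (nat_lit 0) .nil) .nil)))) (.nd (nat_lit 9) 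
(.lf (nat_lit 573770) (.g (nat_lit 3322) (.e (nat_lit 483380) (nat_lit 23) (.e (nat_lit 336324) (nat_lit 18) (.e (nat_lit 204831) (nat_lit 18) (.e (nat_lit 57849) (nat_lit 252) (.e (nat_lit 57407) (nat_lit 12) (.e (nat_lit 336455) (nat_lit 34) .nil)))))) (.g (nat_lit 1) (.e (nat_lit 358691) (nat_lit 0) .nil) .nil))) 
(.lf (nat_lit 574282) (.g (nat_lit 2471) (.e (nat_lit 483396) (nat_lit 24) (.e (nat_lit 344097) (nat_lit 18) (.e (nat_lit 5905) (nat_lit 320) (.e (nat_lit 1209) (nat_lit 89) (.e (nat_lit 73781) (nat_lit 32) (.e (nat_lit 3090) (nat_lit 191) .nil)))))) (.g (nat_lit 1) (.e (nat_lit 360312) (nat_lit 0) .nil) .nil))))) (.nd (nat_lit 8) (.nd (nat_lit 9) 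
(.lf (nat_lit 573642) (.g (nat_lit 1697) (.e (nat_lit 483371) (nat_lit 21) (.e (nat_lit 319539) (nat_lit 19) (.e (nat_lit 311357) (nat_lit 28) (.e (nat_lit 344069) (nat_lit 0) (.e (nat_lit 3089) (nat_lit 191) .nil))))) (.g (nat_lit 1) (.e (nat_lit 358165) (nat_lit 0) .nil) .nil))) 
(.lf (nat_lit 574154) (.g (nat_lit 407) (.e (nat_lit 491264) (nat_lit 23) (.e (nat_lit 335995) (nat_lit 1) (.e (nat_lit 57848) (nat_lit 252) .nil))) (.g (nat_lit 0) (.e (nat_lit 360001) (nat_lit 0) .nil) .nil)))) (.nd (nat_lit 9) 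
(.lf (nat_lit 573898) (.g (nat_lit 3073) (.e (nat_lit 483383) (nat_lit 23) (.e (nat_lit 336324) (nat_lit 18) (.e (nat_lit 204831) (nat_lit 18) (.e (nat_lit 57832) (nat_lit 250) .nil)))) (.g (nat_lit 0) (.e (nat_lit 359118) (nat_lit 0) .nil) .nil))) 
(.lf (nat_lit 574410) (.g (nat_lit 1586) (.e (nat_lit 483403) (nat_lit 26) (.e (nat_lit 385065) (nat_lit 26) (.e (nat_lit 532501) (nat_lit 1) (.e (nat_lit 57851) (nat_lit 252) .nil)))) (.g (nat_lit 0) (.e (nat_lit 360704) (nat_lit 0) .nil) .nil))))))) (.nd (nat_lit 6) (.nd (nat_lit 7) (.nd (nat_lit 8) (.nd (nat_lit 9) 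
(.lf (nat_lit 573482) (.g (nat_lit 1172) (.e (nat_lit 483366) (nat_lit 18) (.e (nat_lit 57691) (nat_lit 156) (.e (nat_lit 163905) (nat_lit 12) (.e (nat_lit 426438) (nat_lit 18) .nil)))) (.g (nat_lit 0) (.e (nat_lit 357939) (nat_lit 0) .nil) .nil))) 
(.lf (nat_lit 573994) (.g (nat_lit 4415) (.e (nat_lit 483385) (nat_lit 23) (.e (nat_lit 336324) (nat_lit 18) (.e (nat_lit 204831) (nat_lit 18) (.e (nat_lit 57856) (nat_lit 253) .nil)))) (.g (nat_lit 0) (.e (nat_lit 359419) (nat_lit 0) .nil) .nil)))) (.nd (nat_lit 9) 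
(.lf (nat_lit 573738) (.g (nat_lit 483) (.e (nat_lit 483379) (nat_lit 23) (.e (nat_lit 336316) (nat_lit 17) (.e (nat_lit 204544) (nat_lit 19) .nil))) (.g (nat_lit 0) (.e (nat_lit 358602) (nat_lit 0) .nil) .nil))) 
(.lf (nat_lit 574250) (.g (nat_lit 2332) (.e (nat_lit 483395) (nat_lit 24) (.e (nat_lit 344117) (nat_lit 21) (.e (nat_lit 516116) (nat_lit 1) (.e (nat_lit 164182) (nat_lit 154) (.e (nat_lit 57411) (nat_lit 12) .nil))))) (.g (nat_lit 0) (.e (nat_lit 360199) (nat_lit 0) .nil) .nil))))) (.nd (nat_lit 8) (.nd (nat_lit 9) 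
(.lf (nat_lit 573610) (.g (nat_lit 2305) (.e (nat_lit 483366) (nat_lit 18) (.e (nat_lit 57931) (nat_lit 282) (.e (nat_lit 163869) (nat_lit 2) (.e (nat_lit 196673) (nat_lit 15) (.e (nat_lit 89856) (nat_lit 18) .nil))))) (.g (nat_lit 1) (.e (nat_lit 358078) (nat_lit 0) .nil) .nil))) 
(.lf (nat_lit 574122) (.g (nat_lit 596) (.e (nat_lit 483393) (nat_lit 23) (.e (nat_lit 336004) (nat_lit 2) (.e (nat_lit 90164) (nat_lit 12) .nil))) (.g (nat_lit 0) (.e (nat_lit 359904) (nat_lit 0) .nil) .nil)))) (.nd (nat_lit 9) 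
(.lf (nat_lit 573866) (.g (nat_lit 2089) (.e (nat_lit 483383) (nat_lit 23) (.e (nat_lit 336019) (nat_lit 3) (.e (nat_lit 98333) (nat_lit 18) (.e (nat_lit 164184) (nat_lit 155) .nil)))) (.g (nat_lit 0) (.e (nat_lit 359054) (nat_lit 0) .nil) .nil))) 
(.lf (nat_lit 574378) (.g (nat_lit 1729) (.e (nat_lit 483401) (nat_lit 25) (.e (nat_lit 368676) (nat_lit 21) (.e (nat_lit 516115) (nat_lit 1) (.e (nat_lit 164151) (nat_lit 152) (.e (nat_lit 1203) (nat_lit 88) .nil))))) (.g (nat_lit 0) (.e (nat_lit 360606) (nat_lit 0) .nil) .nil)))))) (.nd (nat_lit 7) (.nd (nat_lit 8) (.nd (nat_lit 9) 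
(.lf (nat_lit 573546) (.g (nat_lit 2190) (.e (nat_lit 483366) (nat_lit 18) (.e (nat_lit 57851) (nat_lit 252) (.e (nat_lit 57373) (nat_lit 2) (.e (nat_lit 90158) (nat_lit 11) (.e (nat_lit 24628) (nat_lit 9) .nil))))) (.g (nat_lit 0) (.e (nat_lit 358007) (nat_lit 0) .nil) .nil))) 
(.lf (nat_lit 574058) (.g (nat_lit 397) (.e (nat_lit 483393) (nat_lit 23) (.e (nat_lit 335986) (nat_lit 1) (.e (nat_lit 57847) (nat_lit 252) .nil))) (.g (nat_lit 0) (.e (nat_lit 359662) (nat_lit 0) .nil) .nil)))) (.nd (nat_lit 9) 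
(.lf (nat_lit 573802) (.g (nat_lit 2990) (.e (nat_lit 483381) (nat_lit 23) (.e (nat_lit 336324) (nat_lit 18) (.e (nat_lit 204831) (nat_lit 18) (.e (nat_lit 57852) (nat_lit 252) (.e (nat_lit 57409) (nat_lit 12) .nil))))) (.g (nat_lit 0) (.e (nat_lit 358809) (nat_lit 0) .nil) .nil))) 
(.lf (nat_lit 574314) (.g (nat_lit 2044) (.e (nat_lit 483397) (nat_lit 25) (.e (nat_lit 368676) (nat_lit 21) (.e (nat_lit 516115) (nat_lit 1) (.e (nat_lit 164149) (nat_lit 152) .nil)))) (.g (nat_lit 0) (.e (nat_lit 360388) (nat_lit 0) .nil) .nil))))) (.nd (nat_lit 8) (.nd (nat_lit 9) 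
(.lf (nat_lit 573674) (.g (nat_lit 353) (.e (nat_lit 483372) (nat_lit 21) (.e (nat_lit 319505) (nat_lit 10) (.e (nat_lit 5712) (nat_lit 312) .nil))) (.g (nat_lit 0) (.e (nat_lit 358300) (nat_lit 0) .nil) .nil))) 
(.lf (nat_lit 574186) (.g (nat_lit 2238) (.e (nat_lit 483394) (nat_lit 24) (.e (nat_lit 344117) (nat_lit 21) (.e (nat_lit 516115) (nat_lit 1) (.e (nat_lit 164150) (nat_lit 152) .nil)))) (.g (nat_lit 0) (.e (nat_lit 360065) (nat_lit 0) .nil) .nil)))) (.nd (nat_lit 9) 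
(.lf (nat_lit 573930) (.g (nat_lit 308) (.e (nat_lit 483384) (nat_lit 23) (.e (nat_lit 336324) (nat_lit 18) (.e (nat_lit 204831) (nat_lit 18) .nil))) (.g (nat_lit 0) (.e (nat_lit 359213) (nat_lit 0) .nil) .nil))) 
(.lf (nat_lit 574442) (.g (nat_lit 1987) (.e (nat_lit 483404) (nat_lit 26) (.e (nat_lit 385068) (nat_lit 26) (.e (nat_lit 532499) (nat_lit 1) (.e (nat_lit 57847) (nat_lit 252) (.e (nat_lit 57411) (nat_lit 12) .nil))))) (.g (nat_lit 0) (.e (nat_lit 360804) (nat_lit 0) .nil) .nil)))))))) (.nd (nat_lit 5) (.nd (nat_lit 6) (.nd (nat_lit 7) (.nd (nat_lit 8) (.nd (nat_lit 9) 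
(.lf (nat_lit 573466) (.g (nat_lit 2507) (.e (nat_lit 483366) (nat_lit 18) (.e (nat_lit 57688) (nat_lit 156) (.e (nat_lit 163902) (nat_lit 12) (.e (nat_lit 426436) (nat_lit 18) (.e (nat_lit 98358) (nat_lit 26) (.e (nat_lit 433920) (nat_lit 13) .nil)))))) (.g (nat_lit 1) (.e (nat_lit 357918) (nat_lit 0) .nil) .nil))) 
(.lf (nat_lit 573978) (.g (nat_lit 1288) (.e (nat_lit 483385) (nat_lit 23) (.e (nat_lit 336324) (nat_lit 18) (.e (nat_lit 204831) (nat_lit 18) (.e (nat_lit 57830) (nat_lit 250) .nil)))) (.g (nat_lit 0) (.e (nat_lit 359382) (nat_lit 0) .nil) .nil)))) (.nd (nat_lit 9) 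
(.lf (nat_lit 573722) (.g (nat_lit 657) (.e (nat_lit 483378) (nat_lit 23) (.e (nat_lit 335997) (nat_lit 1) (.e (nat_lit 57871) (nat_lit 264) (.e (nat_lit 1211) (nat_lit 89) .nil)))) (.g (nat_lit 0) (.e (nat_lit 358570) (nat_lit 0) .nil) .nil))) 
(.lf (nat_lit 574234) (.g (nat_lit 333) (.e (nat_lit 483395) (nat_lit 24) (.e (nat_lit 344097) (nat_lit 18) (.e (nat_lit 5195) (nat_lit 294) .nil))) (.g (nat_lit 0) (.e (nat_lit 360157) (nat_lit 0) .nil) .nil))))) (.nd (nat_lit 8) (.nd (nat_lit 9) 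
(.lf (nat_lit 573594) (.g (nat_lit 1823) (.e (nat_lit 483366) (nat_lit 18) (.e (nat_lit 57929) (nat_lit 282) (.e (nat_lit 163874) (nat_lit 3) (.e (nat_lit 204867) (nat_lit 28) .nil)))) (.g (nat_lit 0) (.e (nat_lit 358058) (nat_lit 0) .nil) .nil))) 
(.lf (nat_lit 574106) (.g (nat_lit 1891) (.e (nat_lit 483393) (nat_lit 23) (.e (nat_lit 335988) (nat_lit 1) (.e (nat_lit 57854) (nat_lit 252) (.e (nat_lit 57347) (nat_lit 0) (.e (nat_lit 2086) (nat_lit 142) .nil))))) (.g (nat_lit 0) (.e (nat_lit 359786) (nat_lit 0) .nil) .nil)))) (.nd (nat_lit 9) 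
(.lf (nat_lit 573850) (.g (nat_lit 1553) (.e (nat_lit 483382) (nat_lit 23) (.e (nat_lit 336326) (nat_lit 18) (.e (nat_lit 204831) (nat_lit 18) (.e (nat_lit 57851) (nat_lit 252) (.e (nat_lit 57406) (nat_lit 12) .nil))))) (.g (nat_lit 0) (.e (nat_lit 358922) (nat_lit 0) .nil) .nil))) 
(.lf (nat_lit 574362) (.g (nat_lit 1942) (.e (nat_lit 483399) (nat_lit 25) (.e (nat_lit 368676) (nat_lit 21) (.e (nat_lit 516119) (nat_lit 1) (.e (nat_lit 164176) (nat_lit 154) (.e (nat_lit 57408) (nat_lit 12) .nil))))) (.g (nat_lit 0) (.e (nat_lit 360523) (nat_lit 0) .nil) .nil)))))) (.nd (nat_lit 7) (.nd (nat_lit 8) (.nd (nat_lit 9) 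
(.lf (nat_lit 573530) (.g (nat_lit 1268) (.e (nat_lit 483366) (nat_lit 18) (.e (nat_lit 57848) (nat_lit 252) (.e (nat_lit 57375) (nat_lit 2) (.e (nat_lit 90125) (nat_lit 9) .nil)))) (.g (nat_lit 0) (.e (nat_lit 357991) (nat_lit 0) .nil) .nil))) 
(.lf (nat_lit 574042) (.g (nat_lit 704) (.e (nat_lit 483392) (nat_lit 23) (.e (nat_lit 335986) (nat_lit 1) (.e (nat_lit 57854) (nat_lit 252) .nil))) (.g (nat_lit 0) (.e (nat_lit 359615) (nat_lit 0) .nil) .nil)))) (.nd (nat_lit 9) 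
(.lf (nat_lit 573786) (.g (nat_lit 1694) (.e (nat_lit 483381) (nat_lit 23) (.e (nat_lit 336324) (nat_lit 18) (.e (nat_lit 204830) (nat_lit 18) (.e (nat_lit 57852) (nat_lit 252) (.e (nat_lit 57409) (nat_lit 12) .nil))))) (.g (nat_lit 0) (.e (nat_lit 358789) (nat_lit 0) .nil) .nil))) 
(.lf (nat_lit 574298) (.g (nat_lit 1871) (.e (nat_lit 483396) (nat_lit 24) (.e (nat_lit 344119) (nat_lit 21) (.e (nat_lit 516119) (nat_lit 1) (.e (nat_lit 164179) (nat_lit 154) (.e (nat_lit 57411) (nat_lit 12) .nil))))) (.g (nat_lit 0) (.e (nat_lit 360337) (nat_lit 0) .nil) .nil))))) (.nd (nat_lit 8) (.nd (nat_lit 9) 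
(.lf (nat_lit 573658) (.g (nat_lit 680) (.e (nat_lit 483372) (nat_lit 21) (.e (nat_lit 319504) (nat_lit 10) (.e (nat_lit 5688) (nat_lit 312) .nil))) (.g (nat_lit 0) (.e (nat_lit 358268) (nat_lit 0) .nil) .nil))) 
(.lf (nat_lit 574170) (.g (nat_lit 2398) (.e (nat_lit 491264) (nat_lit 23) (.e (nat_lit 336324) (nat_lit 18) (.e (nat_lit 204831) (nat_lit 18) (.e (nat_lit 57849) (nat_lit 252) .nil)))) (.g (nat_lit 0) (.e (nat_lit 360036) (nat_lit 0) .nil) .nil)))) (.nd (nat_lit 9) 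
(.lf (nat_lit 573914) (.g (nat_lit 2210) (.e (nat_lit 483384) (nat_lit 23) (.e (nat_lit 336019) (nat_lit 3) (.e (nat_lit 98333) (nat_lit 18) (.e (nat_lit 164149) (nat_lit 152) .nil)))) (.g (nat_lit 0) (.e (nat_lit 359173) (nat_lit 0) .nil) .nil))) 
(.lf (nat_lit 574426) (.g (nat_lit 1678) (.e (nat_lit 483403) (nat_lit 26) (.e (nat_lit 385068) (nat_lit 26) (.e (nat_lit 532504) (nat_lit 1) (.e (nat_lit 57830) (nat_lit 250) .nil)))) (.g (nat_lit 0) (.e (nat_lit 360740) (nat_lit 0) .nil) .nil))))))) (.nd (nat_lit 6) (.nd (nat_lit 7) (.nd (nat_lit 8) (.nd (nat_lit 9) 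
(.lf (nat_lit 573498) (.g (nat_lit 1437) (.e (nat_lit 483366) (nat_lit 18) (.e (nat_lit 57846) (nat_lit 252) (.e (nat_lit 57373) (nat_lit 2) (.e (nat_lit 90160) (nat_lit 11) .nil)))) (.g (nat_lit 0) (.e (nat_lit 357958) (nat_lit 0) .nil) .nil))) 
(.lf (nat_lit 574010) (.g (nat_lit 669) (.e (nat_lit 483387) (nat_lit 23) (.e (nat_lit 336028) (nat_lit 3) (.e (nat_lit 98333) (nat_lit 18) .nil))) (.g (nat_lit 0) (.e (nat_lit 359543) (nat_lit 0) .nil) .nil)))) (.nd (nat_lit 9) 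
(.lf (nat_lit 573754) (.g (nat_lit 385) (.e (nat_lit 483380) (nat_lit 23) (.e (nat_lit 336324) (nat_lit 18) (.e (nat_lit 204831) (nat_lit 18) .nil))) (.g (nat_lit 0) (.e (nat_lit 358667) (nat_lit 0) .nil) .nil))) 
(.lf (nat_lit 574266) (.g (nat_lit 2199) (.e (nat_lit 483395) (nat_lit 24) (.e (nat_lit 344133) (nat_lit 26) (.e (nat_lit 557119) (nat_lit 18) (.e (nat_lit 2783) (nat_lit 179) .nil)))) (.g (nat_lit 0) (.e (nat_lit 360271) (nat_lit 0) .nil) .nil))))) (.nd (nat_lit 8) (.nd (nat_lit 9) 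
(.lf (nat_lit 573626) (.g (nat_lit 1095) (.e (nat_lit 491264) (nat_lit 18) (.e (nat_lit 57927) (nat_lit 282) (.e (nat_lit 163875) (nat_lit 3) (.e (nat_lit 204876) (nat_lit 31) (.e (nat_lit 384768) (nat_lit 18) .nil))))) (.g (nat_lit 0) (.e (nat_lit 358096) (nat_lit 0) .nil) .nil))) 
(.lf (nat_lit 574138) (.g (nat_lit 2083) (.e (nat_lit 483393) (nat_lit 23) (.e (nat_lit 336021) (nat_lit 3) (.e (nat_lit 98334) (nat_lit 18) (.e (nat_lit 164183) (nat_lit 154) .nil)))) (.g (nat_lit 0) (.e (nat_lit 359968) (nat_lit 0) .nil) .nil)))) (.nd (nat_lit 9) 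
(.lf (nat_lit 573882) (.g (nat_lit 2363) (.e (nat_lit 483383) (nat_lit 23) (.e (nat_lit 336286) (nat_lit 15) (.e (nat_lit 3632) (nat_lit 227) (.e (nat_lit 778323) (nat_lit 5) (.e (nat_lit 73781) (nat_lit 32) (.e (nat_lit 3089) (nat_lit 191) .nil)))))) (.g (nat_lit 1) (.e (nat_lit 359080) (nat_lit 0) .nil) .nil))) 
(.lf (nat_lit 574394) (.g (nat_lit 1678) (.e (nat_lit 483402) (nat_lit 26) (.e (nat_lit 385068) (nat_lit 26) (.e (nat_lit 532501) (nat_lit 1) (.e (nat_lit 57852) (nat_lit 252) .nil)))) (.g (nat_lit 0) (.e (nat_lit 360653) (nat_lit 0) .nil) .nil)))))) (.nd (nat_lit 7) (.nd (nat_lit 8) (.nd (nat_lit 9) 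
(.lf (nat_lit 573562) (.g (nat_lit 4035) (.e (nat_lit 483366) (nat_lit 18) (.e (nat_lit 57854) (nat_lit 252) (.e (nat_lit 57373) (nat_lit 2) (.e (nat_lit 90149) (nat_lit 9) .nil)))) (.g (nat_lit 0) (.e (nat_lit 358023) (nat_lit 0) .nil) .nil))) 
(.lf (nat_lit 574074) (.g (nat_lit 1095) (.e (nat_lit 483393) (nat_lit 23) (.e (nat_lit 335987) (nat_lit 1) (.e (nat_lit 57854) (nat_lit 252) (.e (nat_lit 57345) (nat_lit 0) .nil)))) (.g (nat_lit 0) (.e (nat_lit 359719) (nat_lit 0) .nil) .nil)))) (.nd (nat_lit 9) 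
(.lf (nat_lit 573818) (.g (nat_lit 1911) (.e (nat_lit 483382) (nat_lit 23) (.e (nat_lit 336019) (nat_lit 3) (.e (nat_lit 98334) (nat_lit 18) (.e (nat_lit 164183) (nat_lit 154) (.e (nat_lit 57409) (nat_lit 12) .nil))))) (.g (nat_lit 0) (.e (nat_lit 358858) (nat_lit 0) .nil) .nil))) 
(.lf (nat_lit 574330) (.g (nat_lit 925) (.e (nat_lit 483398) (nat_lit 25) (.e (nat_lit 368674) (nat_lit 21) (.e (nat_lit 516119) (nat_lit 1) (.e (nat_lit 164179) (nat_lit 154) .nil)))) (.g (nat_lit 0) (.e (nat_lit 360421) (nat_lit 0) .nil) .nil))))) (.nd (nat_lit 8) (.nd (nat_lit 9) 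
(.lf (nat_lit 573690) (.g (nat_lit 869) (.e (nat_lit 483372) (nat_lit 21) (.e (nat_lit 319531) (nat_lit 16) (.e (nat_lit 286728) (nat_lit 0) (.e (nat_lit 2280) (nat_lit 150) .nil)))) (.g (nat_lit 0) (.e (nat_lit 358369) (nat_lit 0) .nil) .nil))) 
(.lf (nat_lit 574202) (.g (nat_lit 3942) (.e (nat_lit 483394) (nat_lit 24) (.e (nat_lit 344117) (nat_lit 21) (.e (nat_lit 516195) (nat_lit 26) (.e (nat_lit 335986) (nat_lit 1) (.e (nat_lit 57931) (nat_lit 282) (.e (nat_lit 163943) (nat_lit 19) .nil)))))) (.g (nat_lit 1) (.e (nat_lit 360098) (nat_lit 0) .nil) .nil)))) (.nd (nat_lit 9) 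
(.lf (nat_lit 573946) (.g (nat_lit 3832) (.e (nat_lit 483384) (nat_lit 23) (.e (nat_lit 336324) (nat_lit 18) (.e (nat_lit 204831) (nat_lit 18) (.e (nat_lit 57849) (nat_lit 252) (.e (nat_lit 57407) (nat_lit 12) (.e (nat_lit 336454) (nat_lit 34) .nil)))))) (.g (nat_lit 1) (.e (nat_lit 359235) (nat_lit 0) .nil) .nil))) 
(.lf (nat_lit 574458) (.g (nat_lit 389) (.e (nat_lit 483405) (nat_lit 26) (.e (nat_lit 385066) (nat_lit 26) (.e (nat_lit 532501) (nat_lit 1) .nil))) (.g (nat_lit 0) (.e (nat_lit 360844) (nat_lit 0) .nil) .nil)))))))))) (.nd (nat_lit 3) (.nd (nat_lit 4) (.nd (nat_lit 5) (.nd (nat_lit 6) (.nd (nat_lit 7) (.nd (nat_lit 8) (.nd (nat_lit 9) 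
(.lf (nat_lit 573446) (.g (nat_lit 1873) (.e (nat_lit 483365) (nat_lit 18) (.e (nat_lit 57931) (nat_lit 282) (.e (nat_lit 163869) (nat_lit 2) (.e (nat_lit 196663) (nat_lit 13) .nil)))) (.g (nat_lit 0) (.e (nat_lit 357889) (nat_lit 0) .nil) .nil))) 
(.lf (nat_lit 573958) (.g (nat_lit 2714) (.e (nat_lit 483384) (nat_lit 23) (.e (nat_lit 336326) (nat_lit 18) (.e (nat_lit 204829) (nat_lit 18) (.e (nat_lit 57854) (nat_lit 252) (.e (nat_lit 57409) (nat_lit 12) .nil))))) (.g (nat_lit 0) (.e (nat_lit 359251) (nat_lit 0) .nil) .nil)))) (.nd (nat_lit 9) 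
(.lf (nat_lit 573702) (.g (nat_lit 931) (.e (nat_lit 483372) (nat_lit 21) (.e (nat_lit 319534) (nat_lit 16) (.e (nat_lit 286720) (nat_lit 0) (.e (nat_lit 2391) (nat_lit 156) .nil)))) (.g (nat_lit 0) (.e (nat_lit 358442) (nat_lit 0) .nil) .nil))) 
(.lf (nat_lit 574214) (.g (nat_lit 1782) (.e (nat_lit 483394) (nat_lit 24) (.e (nat_lit 344118) (nat_lit 21) (.e (nat_lit 516119) (nat_lit 1) (.e (nat_lit 164179) (nat_lit 154) (.e (nat_lit 57407) (nat_lit 12) .nil))))) (.g (nat_lit 0) (.e (nat_lit 360110) (nat_lit 0) .nil) .nil))))) (.nd (nat_lit 8) (.nd (nat_lit 9) 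
(.lf (nat_lit 573574) (.g (nat_lit 2627) (.e (nat_lit 483366) (nat_lit 18) (.e (nat_lit 57854) (nat_lit 252) (.e (nat_lit 57378) (nat_lit 3) (.e (nat_lit 98309) (nat_lit 0) .nil)))) (.g (nat_lit 0) (.e (nat_lit 358036) (nat_lit 0) .nil) .nil))) 
(.lf (nat_lit 574086) (.g (nat_lit 1734) (.e (nat_lit 483393) (nat_lit 23) (.e (nat_lit 335988) (nat_lit 1) (.e (nat_lit 57852) (nat_lit 252) (.e (nat_lit 57347) (nat_lit 0) .nil)))) (.g (nat_lit 0) (.e (nat_lit 359750) (nat_lit 0) .nil) .nil)))) (.nd (nat_lit 9) 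
(.lf (nat_lit 573830) (.g (nat_lit 386) (.e (nat_lit 483382) (nat_lit 23) (.e (nat_lit 336324) (nat_lit 18) (.e (nat_lit 204831) (nat_lit 18) .nil))) (.g (nat_lit 0) (.e (nat_lit 358879) (nat_lit 0) .nil) .nil))) 
(.lf (nat_lit 574342) (.g (nat_lit 1890) (.e (nat_lit 483398) (nat_lit 25) (.e (nat_lit 368676) (nat_lit 21) (.e (nat_lit 516119) (nat_lit 1) (.e (nat_lit 164176) (nat_lit 154) (.e (nat_lit 57408) (nat_lit 12) .nil))))) (.g (nat_lit 0) (.e (nat_lit 360458) (nat_lit 0) .nil) .nil)))))) (.nd (nat_lit 7) (.nd (nat_lit 8) (.nd (nat_lit 9) 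
(.lf (nat_lit 573510) (.g (nat_lit 1354) (.e (nat_lit 483366) (nat_lit 18) (.e (nat_lit 57848) (nat_lit 252) (.e (nat_lit 57372) (nat_lit 2) (.e (nat_lit 90121) (nat_lit 9) (.e (nat_lit 309) (nat_lit 23) .nil))))) (.g (nat_lit 0) (.e (nat_lit 357970) (nat_lit 0) .nil) .nil))) 
(.lf (nat_lit 574022) (.g (nat_lit 2786) (.e (nat_lit 483389) (nat_lit 23) (.e (nat_lit 336295) (nat_lit 15) (.e (nat_lit 3632) (nat_lit 227) (.e (nat_lit 778323) (nat_lit 5) (.e (nat_lit 73781) (nat_lit 32) .nil))))) (.g (nat_lit 0) (.e (nat_lit 359568) (nat_lit 0) .nil) .nil)))) (.nd (nat_lit 9) 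
(.lf (nat_lit 573766) (.g (nat_lit 3857) (.e (nat_lit 483380) (nat_lit 23) (.e (nat_lit 336324) (nat_lit 18) (.e (nat_lit 204831) (nat_lit 18) (.e (nat_lit 57847) (nat_lit 252) (.e (nat_lit 57407) (nat_lit 12) (.e (nat_lit 336454) (nat_lit 34) .nil)))))) (.g (nat_lit 1) (.e (nat_lit 358686) (nat_lit 0) .nil) .nil))) 
(.lf (nat_lit 574278) (.g (nat_lit 1448) (.e (nat_lit 483395) (nat_lit 24) (.e (nat_lit 344160) (nat_lit 37) (.e (nat_lit 647203) (nat_lit 14) (.e (nat_lit 1326) (nat_lit 100) .nil)))) (.g (nat_lit 0) (.e (nat_lit 360303) (nat_lit 0) .nil) .nil))))) (.nd (nat_lit 8) (.nd (nat_lit 9) 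
(.lf (nat_lit 573638) (.g (nat_lit 1680) (.e (nat_lit 483371) (nat_lit 21) (.e (nat_lit 319505) (nat_lit 10) (.e (nat_lit 618) (nat_lit 48) (.e (nat_lit 557105) (nat_lit 14) .nil)))) (.g (nat_lit 0) (.e (nat_lit 358159) (nat_lit 0) .nil) .nil))) 
(.lf (nat_lit 574150) (.g (nat_lit 1654) (.e (nat_lit 483393) (nat_lit 23) (.e (nat_lit 336293) (nat_lit 15) (.e (nat_lit 3631) (nat_lit 227) (.e (nat_lit 778323) (nat_lit 5) (.e (nat_lit 73781) (nat_lit 32) (.e (nat_lit 3089) (nat_lit 191) .nil)))))) (.g (nat_lit 1) (.e (nat_lit 359988) (nat_lit 0) .nil) .nil)))) (.nd (nat_lit 9) 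
(.lf (nat_lit 573894) (.g (nat_lit 3954) (.e (nat_lit 483383) (nat_lit 23) (.e (nat_lit 336324) (nat_lit 18) (.e (nat_lit 204831) (nat_lit 18) (.e (nat_lit 57825) (nat_lit 250) .nil)))) (.g (nat_lit 0) (.e (nat_lit 359113) (nat_lit 0) .nil) .nil))) 
(.lf (nat_lit 574406) (.g (nat_lit 1311) (.e (nat_lit 483402) (nat_lit 26) (.e (nat_lit 385094) (nat_lit 49) (.e (nat_lit 778324) (nat_lit 5) (.e (nat_lit 73781) (nat_lit 32) (.e (nat_lit 3087) (nat_lit 191) .nil))))) (.g (nat_lit 1) (.e (nat_lit 360679) (nat_lit 0) .nil) .nil))))))) (.nd (nat_lit 6) (.nd (nat_lit 7) (.nd (nat_lit 8) (.nd (nat_lit 9) 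
(.lf (nat_lit 573478) (.g (nat_lit 2283) (.e (nat_lit 483366) (nat_lit 18) (.e (nat_lit 57688) (nat_lit 156) (.e (nat_lit 163908) (nat_lit 12) (.e (nat_lit 426412) (nat_lit 15) (.e (nat_lit 1800) (nat_lit 119) .nil))))) (.g (nat_lit 0) (.e (nat_lit 357932) (nat_lit 0) .nil) .nil))) 
(.lf (nat_lit 573990) (.g (nat_lit 3809) (.e (nat_lit 483385) (nat_lit 23) (.e (nat_lit 336324) (nat_lit 18) (.e (nat_lit 204831) (nat_lit 18) (.e (nat_lit 57850) (nat_lit 252) .nil)))) (.g (nat_lit 0) (.e (nat_lit 359406) (nat_lit 0) .nil) .nil)))) (.nd (nat_lit 9) 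
(.lf (nat_lit 573734) (.g (nat_lit 2809) (.e (nat_lit 483378) (nat_lit 23) (.e (nat_lit 336324) (nat_lit 18) (.e (nat_lit 204831) (nat_lit 18) (.e (nat_lit 57847) (nat_lit 252) .nil)))) (.g (nat_lit 0) (.e (nat_lit 358593) (nat_lit 0) .nil) .nil))) 
(.lf (nat_lit 574246) (.g (nat_lit 461) (.e (nat_lit 483395) (nat_lit 24) (.e (nat_lit 344117) (nat_lit 21) (.e (nat_lit 516116) (nat_lit 1) .nil))) (.g (nat_lit 0) (.e (nat_lit 360186) (nat_lit 0) .nil) .nil))))) (.nd (nat_lit 8) (.nd (nat_lit 9) 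
(.lf (nat_lit 573606) (.g (nat_lit 1979) (.e (nat_lit 483366) (nat_lit 18) (.e (nat_lit 57931) (nat_lit 282) (.e (nat_lit 163867) (nat_lit 2) (.e (nat_lit 196672) (nat_lit 15) (.e (nat_lit 89856) (nat_lit 18) .nil))))) (.g (nat_lit 1) (.e (nat_lit 358071) (nat_lit 0) .nil) .nil))) 
(.lf (nat_lit 574118) (.g (nat_lit 2000) (.e (nat_lit 483393) (nat_lit 23) (.e (nat_lit 335996) (nat_lit 1) (.e (nat_lit 57851) (nat_lit 252) (.e (nat_lit 57347) (nat_lit 0) (.e (nat_lit 2044) (nat_lit 142) .nil))))) (.g (nat_lit 0) (.e (nat_lit 359827) (nat_lit 0) .nil) .nil)))) (.nd (nat_lit 9) 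
(.lf (nat_lit 573862) (.g (nat_lit 1799) (.e (nat_lit 483383) (nat_lit 23) (.e (nat_lit 336019) (nat_lit 3) (.e (nat_lit 98333) (nat_lit 18) (.e (nat_lit 164177) (nat_lit 154) (.e (nat_lit 57408) (nat_lit 12) .nil))))) (.g (nat_lit 0) (.e (nat_lit 359048) (nat_lit 0) .nil) .nil))) 
(.lf (nat_lit 574374) (.g (nat_lit 2160) (.e (nat_lit 483401) (nat_lit 25) (.e (nat_lit 368662) (nat_lit 18) (.e (nat_lit 5906) (nat_lit 320) (.e (nat_lit 1209) (nat_lit 89) (.e (nat_lit 81664) (nat_lit 32) .nil))))) (.g (nat_lit 0) (.e (nat_lit 360572) (nat_lit 0) .nil) .nil)))))) (.nd (nat_lit 7) (.nd (nat_lit 8) (.nd (nat_lit 9) 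
(.lf (nat_lit 573542) (.g (nat_lit 1395) (.e (nat_lit 483366) (nat_lit 18) (.e (nat_lit 57849) (nat_lit 252) (.e (nat_lit 57379) (nat_lit 3) (.e (nat_lit 106240) (nat_lit 14) .nil)))) (.g (nat_lit 0) (.e (nat_lit 358003) (nat_lit 0) .nil) .nil))) 
(.lf (nat_lit 574054) (.g (nat_lit 1449) (.e (nat_lit 483392) (nat_lit 23) (.e (nat_lit 336021) (nat_lit 3) (.e (nat_lit 98317) (nat_lit 9) (.e (nat_lit 335996) (nat_lit 1) .nil)))) (.g (nat_lit 0) (.e (nat_lit 359647) (nat_lit 0) .nil) .nil)))) (.nd (nat_lit 9) 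
(.lf (nat_lit 573798) (.g (nat_lit 2990) (.e (nat_lit 483381) (nat_lit 23) (.e (nat_lit 336324) (nat_lit 18) (.e (nat_lit 204831) (nat_lit 18) (.e (nat_lit 57849) (nat_lit 252) (.e (nat_lit 57407) (nat_lit 12) .nil))))) (.g (nat_lit 0) (.e (nat_lit 358805) (nat_lit 0) .nil) .nil))) 
(.lf (nat_lit 574310) (.g (nat_lit 377) (.e (nat_lit 483396) (nat_lit 24) (.e (nat_lit 344161) (nat_lit 37) (.e (nat_lit 647201) (nat_lit 12) .nil))) (.g (nat_lit 0) (.e (nat_lit 360375) (nat_lit 0) .nil) .nil))))) (.nd (nat_lit 8) (.nd (nat_lit 9) 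
(.lf (nat_lit 573670) (.g (nat_lit 556) (.e (nat_lit 483372) (nat_lit 21) (.e (nat_lit 319505) (nat_lit 10) (.e (nat_lit 4919) (nat_lit 287) .nil))) (.g (nat_lit 0) (.e (nat_lit 358296) (nat_lit 0) .nil) .nil))) 
(.lf (nat_lit 574182) (.g (nat_lit 1714) (.e (nat_lit 483394) (nat_lit 24) (.e (nat_lit 344117) (nat_lit 21) (.e (nat_lit 516106) (nat_lit 0) (.e (nat_lit 2478) (nat_lit 157) (.e (nat_lit 6273) (nat_lit 337) .nil))))) (.g (nat_lit 0) (.e (nat_lit 360060) (nat_lit 0) .nil) .nil)))) (.nd (nat_lit 9) 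
(.lf (nat_lit 573926) (.g (nat_lit 1171) (.e (nat_lit 483384) (nat_lit 23) (.e (nat_lit 336324) (nat_lit 18) (.e (nat_lit 204830) (nat_lit 18) (.e (nat_lit 57830) (nat_lit 250) .nil)))) (.g (nat_lit 0) (.e (nat_lit 359202) (nat_lit 0) .nil) .nil))) 
(.lf (nat_lit 574438) (.g (nat_lit 339) (.e (nat_lit 483404) (nat_lit 26) (.e (nat_lit 385057) (nat_lit 22) (.e (nat_lit 499780) (nat_lit 1) .nil))) (.g (nat_lit 0) (.e (nat_lit 360792) (nat_lit 0) .nil) .nil)))))))) (.nd (nat_lit 5) (.nd (nat_lit 6) (.nd (nat_lit 7) (.nd (nat_lit 8) (.nd (nat_lit 9) 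
(.lf (nat_lit 573462) (.g (nat_lit 2203) (.e (nat_lit 483365) (nat_lit 18) (.e (nat_lit 57931) (nat_lit 282) (.e (nat_lit 163874) (nat_lit 3) (.e (nat_lit 204877) (nat_lit 31) (.e (nat_lit 384768) (nat_lit 18) .nil))))) (.g (nat_lit 1) (.e (nat_lit 357909) (nat_lit 0) .nil) .nil))) 
(.lf (nat_lit 573974) (.g (nat_lit 4048) (.e (nat_lit 483385) (nat_lit 23) (.e (nat_lit 336324) (nat_lit 18) (.e (nat_lit 204831) (nat_lit 18) (.e (nat_lit 57824) (nat_lit 250) .nil)))) (.g (nat_lit 0) (.e (nat_lit 359373) (nat_lit 0) .nil) .nil)))) (.nd (nat_lit 9) 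
(.lf (nat_lit 573718) (.g (nat_lit 2800) (.e (nat_lit 483377) (nat_lit 22) (.e (nat_lit 327692) (nat_lit 1) (.e (nat_lit 8444) (nat_lit 140) (.e (nat_lit 57400) (nat_lit 10) (.e (nat_lit 319490) (nat_lit 0) (.e (nat_lit 5664) (nat_lit 312) (.e (nat_lit 3085) (nat_lit 191) .nil))))))) (.g (nat_lit 1) (.e (nat_lit 358520) (nat_lit 0) .nil) .nil))) 
(.lf (nat_lit 574230) (.g (nat_lit 438) (.e (nat_lit 483394) (nat_lit 24) (.e (nat_lit 344160) (nat_lit 37) (.e (nat_lit 647203) (nat_lit 14) .nil))) (.g (nat_lit 0) (.e (nat_lit 360148) (nat_lit 0) .nil) .nil))))) (.nd (nat_lit 8) (.nd (nat_lit 9) 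
(.lf (nat_lit 573590) (.g (nat_lit 1698) (.e (nat_lit 483366) (nat_lit 18) (.e (nat_lit 57929) (nat_lit 282) (.e (nat_lit 163873) (nat_lit 3) (.e (nat_lit 204865) (nat_lit 28) (.e (nat_lit 360192) (nat_lit 18) .nil))))) (.g (nat_lit 1) (.e (nat_lit 358054) (nat_lit 0) .nil) .nil))) 
(.lf (nat_lit 574102) (.g (nat_lit 1891) (.e (nat_lit 483393) (nat_lit 23) (.e (nat_lit 335988) (nat_lit 1) (.e (nat_lit 57854) (nat_lit 252) (.e (nat_lit 57347) (nat_lit 0) (.e (nat_lit 2082) (nat_lit 142) .nil))))) (.g (nat_lit 0) (.e (nat_lit 359782) (nat_lit 0) .nil) .nil)))) (.nd (nat_lit 9) 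
(.lf (nat_lit 573846) (.g (nat_lit 2505) (.e (nat_lit 483382) (nat_lit 23) (.e (nat_lit 336326) (nat_lit 18) (.e (nat_lit 204829) (nat_lit 18) (.e (nat_lit 57854) (nat_lit 252) (.e (nat_lit 57406) (nat_lit 12) .nil))))) (.g (nat_lit 0) (.e (nat_lit 358910) (nat_lit 0) .nil) .nil))) 
(.lf (nat_lit 574358) (.g (nat_lit 408) (.e (nat_lit 483399) (nat_lit 25) (.e (nat_lit 368676) (nat_lit 21) (.e (nat_lit 516118) (nat_lit 1) .nil))) (.g (nat_lit 0) (.e (nat_lit 360519) (nat_lit 0) .nil) .nil)))))) (.nd (nat_lit 7) (.nd (nat_lit 8) (.nd (nat_lit 9) 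
(.lf (nat_lit 573526) (.g (nat_lit 1381) (.e (nat_lit 483366) (nat_lit 18) (.e (nat_lit 57848) (nat_lit 252) (.e (nat_lit 57374) (nat_lit 2) (.e (nat_lit 90125) (nat_lit 9) .nil)))) (.g (nat_lit 0) (.e (nat_lit 357986) (nat_lit 0) .nil) .nil))) 
(.lf (nat_lit 574038) (.g (nat_lit 2169) (.e (nat_lit 483391) (nat_lit 23) (.e (nat_lit 336300) (nat_lit 15) (.e (nat_lit 3632) (nat_lit 227) (.e (nat_lit 778323) (nat_lit 5) (.e (nat_lit 73782) (nat_lit 32) (.e (nat_lit 3087) (nat_lit 191) .nil)))))) (.g (nat_lit 1) (.e (nat_lit 359606) (nat_lit 0) .nil) .nil)))) (.nd (nat_lit 9) 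
(.lf (nat_lit 573782) (.g (nat_lit 1551) (.e (nat_lit 483380) (nat_lit 23) (.e (nat_lit 336336) (nat_lit 20) (.e (nat_lit 221196) (nat_lit 20) .nil))) (.g (nat_lit 0) (.e (nat_lit 358754) (nat_lit 0) .nil) .nil))) 
(.lf (nat_lit 574294) (.g (nat_lit 1912) (.e (nat_lit 483396) (nat_lit 24) (.e (nat_lit 344117) (nat_lit 21) (.e (nat_lit 516115) (nat_lit 1) (.e (nat_lit 164183) (nat_lit 154) .nil)))) (.g (nat_lit 0) (.e (nat_lit 360324) (nat_lit 0) .nil) .nil))))) (.nd (nat_lit 8) (.nd (nat_lit 9) 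
(.lf (nat_lit 573654) (.g (nat_lit 2039) (.e (nat_lit 483372) (nat_lit 21) (.e (nat_lit 319504) (nat_lit 10) (.e (nat_lit 618) (nat_lit 48) (.e (nat_lit 557105) (nat_lit 14) (.e (nat_lit 188160) (nat_lit 32) (.e (nat_lit 493) (nat_lit 39) .nil)))))) (.g (nat_lit 1) (.e (nat_lit 358260) (nat_lit 0) .nil) .nil))) 
(.lf (nat_lit 574166) (.g (nat_lit 844) (.e (nat_lit 491264) (nat_lit 23) (.e (nat_lit 336300) (nat_lit 15) (.e (nat_lit 3632) (nat_lit 227) (.e (nat_lit 778324) (nat_lit 5) .nil)))) (.g (nat_lit 0) (.e (nat_lit 360032) (nat_lit 0) .nil) .nil)))) (.nd (nat_lit 9) 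
(.lf (nat_lit 573910) (.g (nat_lit 458) (.e (nat_lit 483383) (nat_lit 23) (.e (nat_lit 336332) (nat_lit 19) (.e (nat_lit 212997) (nat_lit 0) .nil))) (.g (nat_lit 0) (.e (nat_lit 359141) (nat_lit 0) .nil) .nil))) 
(.lf (nat_lit 574422) (.g (nat_lit 1396) (.e (nat_lit 483403) (nat_lit 26) (.e (nat_lit 385068) (nat_lit 26) (.e (nat_lit 532501) (nat_lit 1) (.e (nat_lit 57852) (nat_lit 252) .nil)))) (.g (nat_lit 0) (.e (nat_lit 360733) (nat_lit 0) .nil) .nil))))))) (.nd (nat_lit 6) (.nd (nat_lit 7) (.nd (nat_lit 8) (.nd (nat_lit 9) 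
(.lf (nat_lit 573494) (.g (nat_lit 2451) (.e (nat_lit 483366) (nat_lit 18) (.e (nat_lit 57844) (nat_lit 252) (.e (nat_lit 57375) (nat_lit 2) (.e (nat_lit 90160) (nat_lit 11) (.e (nat_lit 24628) (nat_lit 9) (.e (nat_lit 336454) (nat_lit 34) .nil)))))) (.g (nat_lit 1) (.e (nat_lit 357954) (nat_lit 0) .nil) .nil))) 
(.lf (nat_lit 574006) (.g (nat_lit 534) (.e (nat_lit 483387) (nat_lit 23) (.e (nat_lit 336013) (nat_lit 2) (.e (nat_lit 98048) (nat_lit 3) .nil))) (.g (nat_lit 0) (.e (nat_lit 359519) (nat_lit 0) .nil) .nil)))) (.nd (nat_lit 9) 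
(.lf (nat_lit 573750) (.g (nat_lit 2177) (.e (nat_lit 483380) (nat_lit 23) (.e (nat_lit 336320) (nat_lit 17) (.e (nat_lit 196698) (nat_lit 19) (.e (nat_lit 57813) (nat_lit 246) (.e (nat_lit 57878) (nat_lit 270) (.e (nat_lit 496) (nat_lit 39) .nil)))))) (.g (nat_lit 1) (.e (nat_lit 358649) (nat_lit 0) .nil) .nil))) 
(.lf (nat_lit 574262) (.g (nat_lit 2916) (.e (nat_lit 483395) (nat_lit 24) (.e (nat_lit 344133) (nat_lit 26) (.e (nat_lit 557091) (nat_lit 12) (.e (nat_lit 163999) (nat_lit 38) (.e (nat_lit 639011) (nat_lit 13) .nil))))) (.g (nat_lit 0) (.e (nat_lit 360259) (nat_lit 0) .nil) .nil))))) (.nd (nat_lit 8) (.nd (nat_lit 9) 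
(.lf (nat_lit 573622) (.g (nat_lit 1970) (.e (nat_lit 491264) (nat_lit 18) (.e (nat_lit 57927) (nat_lit 282) (.e (nat_lit 163874) (nat_lit 3) (.e (nat_lit 204861) (nat_lit 26) (.e (nat_lit 336075) (nat_lit 9) .nil))))) (.g (nat_lit 0) (.e (nat_lit 358092) (nat_lit 0) .nil) .nil))) 
(.lf (nat_lit 574134) (.g (nat_lit 1997) (.e (nat_lit 483393) (nat_lit 23) (.e (nat_lit 336021) (nat_lit 3) (.e (nat_lit 98317) (nat_lit 9) (.e (nat_lit 335987) (nat_lit 1) .nil)))) (.g (nat_lit 0) (.e (nat_lit 359954) (nat_lit 0) .nil) .nil)))) (.nd (nat_lit 9) 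
(.lf (nat_lit 573878) (.g (nat_lit 1954) (.e (nat_lit 483383) (nat_lit 23) (.e (nat_lit 336240) (nat_lit 15) (.e (nat_lit 3248) (nat_lit 197) (.e (nat_lit 532501) (nat_lit 1) (.e (nat_lit 57851) (nat_lit 252) (.e (nat_lit 57408) (nat_lit 12) (.e (nat_lit 336454) (nat_lit 34) .nil))))))) (.g (nat_lit 1) (.e (nat_lit 359076) (nat_lit 0) .nil) .nil))) 
(.lf (nat_lit 574390) (.g (nat_lit 1416) (.e (nat_lit 483402) (nat_lit 26) (.e (nat_lit 385066) (nat_lit 26) (.e (nat_lit 532503) (nat_lit 1) (.e (nat_lit 57848) (nat_lit 252) .nil)))) (.g (nat_lit 0) (.e (nat_lit 360646) (nat_lit 0) .nil) .nil)))))) (.nd (nat_lit 7) (.nd (nat_lit 8) (.nd (nat_lit 9) 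
(.lf (nat_lit 573558) (.g (nat_lit 1858) (.e (nat_lit 483366) (nat_lit 18) (.e (nat_lit 57854) (nat_lit 252) (.e (nat_lit 57373) (nat_lit 2) (.e (nat_lit 90125) (nat_lit 9) (.e (nat_lit 7936) (nat_lit 23) .nil))))) (.g (nat_lit 0) (.e (nat_lit 358019) (nat_lit 0) .nil) .nil))) 
(.lf (nat_lit 574070) (.g (nat_lit 1150) (.e (nat_lit 483393) (nat_lit 23) (.e (nat_lit 335987) (nat_lit 1) (.e (nat_lit 57844) (nat_lit 252) (.e (nat_lit 57382) (nat_lit 4) (.e (nat_lit 106534) (nat_lit 11) .nil))))) (.g (nat_lit 0) (.e (nat_lit 359709) (nat_lit 0) .nil) .nil)))) (.nd (nat_lit 9) 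
(.lf (nat_lit 573814) (.g (nat_lit 2465) (.e (nat_lit 483382) (nat_lit 23) (.e (nat_lit 336019) (nat_lit 3) (.e (nat_lit 98333) (nat_lit 18) (.e (nat_lit 164182) (nat_lit 154) (.e (nat_lit 57411) (nat_lit 12) .nil))))) (.g (nat_lit 0) (.e (nat_lit 358853) (nat_lit 0) .nil) .nil))) 
(.lf (nat_lit 574326) (.g (nat_lit 2310) (.e (nat_lit 483397) (nat_lit 25) (.e (nat_lit 368676) (nat_lit 21) (.e (nat_lit 516119) (nat_lit 1) (.e (nat_lit 164163) (nat_lit 152) .nil)))) (.g (nat_lit 0) (.e (nat_lit 360402) (nat_lit 0) .nil) .nil))))) (.nd (nat_lit 8) (.nd (nat_lit 9) 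
(.lf (nat_lit 573686) (.g (nat_lit 1511) (.e (nat_lit 483372) (nat_lit 21) (.e (nat_lit 319530) (nat_lit 16) (.e (nat_lit 286727) (nat_lit 0) (.e (nat_lit 1040) (nat_lit 81) .nil)))) (.g (nat_lit 0) (.e (nat_lit 358344) (nat_lit 0) .nil) .nil))) 
(.lf (nat_lit 574198) (.g (nat_lit 2192) (.e (nat_lit 483394) (nat_lit 24) (.e (nat_lit 344117) (nat_lit 21) (.e (nat_lit 516119) (nat_lit 1) (.e (nat_lit 164179) (nat_lit 154) .nil)))) (.g (nat_lit 0) (.e (nat_lit 360081) (nat_lit 0) .nil) .nil)))) (.nd (nat_lit 9) 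
(.lf (nat_lit 573942) (.g (nat_lit 3882) (.e (nat_lit 483384) (nat_lit 23) (.e (nat_lit 336324) (nat_lit 18) (.e (nat_lit 204831) (nat_lit 18) (.e (nat_lit 57846) (nat_lit 252) (.e (nat_lit 57407) (nat_lit 12) (.e (nat_lit 336454) (nat_lit 34) .nil)))))) (.g (nat_lit 1) (.e (nat_lit 359229) (nat_lit 0) .nil) .nil))) 
(.lf (nat_lit 574454) (.g (nat_lit 2116) (.e (nat_lit 483405) (nat_lit 26) (.e (nat_lit 385066) (nat_lit 26) (.e (nat_lit 532499) (nat_lit 1) (.e (nat_lit 57846) (nat_lit 252) .nil)))) (.g (nat_lit 0) (.e (nat_lit 360840) (nat_lit 0) .nil) .nil))))))))) (.nd (nat_lit 4) (.nd (nat_lit 5) (.nd (nat_lit 6) (.nd (nat_lit 7) (.nd (nat_lit 8) (.nd (nat_lit 9) 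
(.lf (nat_lit 573454) (.g (nat_lit 1534) (.e (nat_lit 483365) (nat_lit 18) (.e (nat_lit 57931) (nat_lit 282) (.e (nat_lit 163873) (nat_lit 3) (.e (nat_lit 204876) (nat_lit 31) .nil)))) (.g (nat_lit 0) (.e (nat_lit 357901) (nat_lit 0) .nil) .nil))) 
(.lf (nat_lit 573966) (.g (nat_lit 2165) (.e (nat_lit 483385) (nat_lit 23) (.e (nat_lit 336260) (nat_lit 15) (.e (nat_lit 3238) (nat_lit 197) (.e (nat_lit 532504) (nat_lit 1) (.e (nat_lit 57854) (nat_lit 252) .nil))))) (.g (nat_lit 0) (.e (nat_lit 359314) (nat_lit 0) .nil) .nil)))) (.nd (nat_lit 9) 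
(.lf (nat_lit 573710) (.g (nat_lit 371) (.e (nat_lit 483372) (nat_lit 21) (.e (nat_lit 319534) (nat_lit 16) (.e (nat_lit 286728) (nat_lit 0) .nil))) (.g (nat_lit 0) (.e (nat_lit 358450) (nat_lit 0) .nil) .nil))) 
(.lf (nat_lit 574222) (.g (nat_lit 2319) (.e (nat_lit 483394) (nat_lit 24) (.e (nat_lit 344169) (nat_lit 40) (.e (nat_lit 671763) (nat_lit 5) (.e (nat_lit 73781) (nat_lit 32) (.e (nat_lit 3089) (nat_lit 191) .nil))))) (.g (nat_lit 1) (.e (nat_lit 360136) (nat_lit 0) .nil) .nil))))) (.nd (nat_lit 8) (.nd (nat_lit 9) 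
(.lf (nat_lit 573582) (.g (nat_lit 1557) (.e (nat_lit 483366) (nat_lit 18) (.e (nat_lit 57924) (nat_lit 282) (.e (nat_lit 163868) (nat_lit 2) (.e (nat_lit 196672) (nat_lit 15) (.e (nat_lit 89856) (nat_lit 18) .nil))))) (.g (nat_lit 1) (.e (nat_lit 358045) (nat_lit 0) .nil) .nil))) 
(.lf (nat_lit 574094) (.g (nat_lit 1359) (.e (nat_lit 483393) (nat_lit 23) (.e (nat_lit 335988) (nat_lit 1) (.e (nat_lit 57853) (nat_lit 252) (.e (nat_lit 57382) (nat_lit 4) .nil)))) (.g (nat_lit 0) (.e (nat_lit 359767) (nat_lit 0) .nil) .nil)))) (.nd (nat_lit 9) 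
(.lf (nat_lit 573838) (.g (nat_lit 4246) (.e (nat_lit 483382) (nat_lit 23) (.e (nat_lit 336324) (nat_lit 18) (.e (nat_lit 204831) (nat_lit 18) (.e (nat_lit 57831) (nat_lit 250) .nil)))) (.g (nat_lit 0) (.e (nat_lit 358893) (nat_lit 0) .nil) .nil))) 
(.lf (nat_lit 574350) (.g (nat_lit 550) (.e (nat_lit 483398) (nat_lit 25) (.e (nat_lit 368676) (nat_lit 21) (.e (nat_lit 516198) (nat_lit 26) .nil))) (.g (nat_lit 0) (.e (nat_lit 360483) (nat_lit 0) .nil) .nil)))))) (.nd (nat_lit 7) (.nd (nat_lit 8) (.nd (nat_lit 9) 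
(.lf (nat_lit 573518) (.g (nat_lit 1309) (.e (nat_lit 483366) (nat_lit 18) (.e (nat_lit 57848) (nat_lit 252) (.e (nat_lit 57372) (nat_lit 2) (.e (nat_lit 90133) (nat_lit 9) (.e (nat_lit 313) (nat_lit 23) .nil))))) (.g (nat_lit 0) (.e (nat_lit 357978) (nat_lit 0) .nil) .nil))) 
(.lf (nat_lit 574030) (.g (nat_lit 1612) (.e (nat_lit 483390) (nat_lit 23) (.e (nat_lit 336028) (nat_lit 3) (.e (nat_lit 98335) (nat_lit 18) (.e (nat_lit 164179) (nat_lit 154) .nil)))) (.g (nat_lit 0) (.e (nat_lit 359581) (nat_lit 0) .nil) .nil)))) (.nd (nat_lit 9) 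
(.lf (nat_lit 573774) (.g (nat_lit 3521) (.e (nat_lit 483380) (nat_lit 23) (.e (nat_lit 336324) (nat_lit 18) (.e (nat_lit 204831) (nat_lit 18) (.e (nat_lit 57852) (nat_lit 252) (.e (nat_lit 57406) (nat_lit 12) (.e (nat_lit 336455) (nat_lit 34) .nil)))))) (.g (nat_lit 1) (.e (nat_lit 358696) (nat_lit 0) .nil) .nil))) 
(.lf (nat_lit 574286) (.g (nat_lit 647) (.e (nat_lit 483396) (nat_lit 24) (.e (nat_lit 344097) (nat_lit 18) (.e (nat_lit 5907) (nat_lit 320) .nil))) (.g (nat_lit 0) (.e (nat_lit 360316) (nat_lit 0) .nil) .nil))))) (.nd (nat_lit 8) (.nd (nat_lit 9) 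
(.lf (nat_lit 573646) (.g (nat_lit 785) (.e (nat_lit 483372) (nat_lit 21) (.e (nat_lit 319490) (nat_lit 0) (.e (nat_lit 595) (nat_lit 45) .nil))) (.g (nat_lit 0) (.e (nat_lit 358246) (nat_lit 0) .nil) .nil))) 
(.lf (nat_lit 574158) (.g (nat_lit 1745) (.e (nat_lit 491264) (nat_lit 23) (.e (nat_lit 335995) (nat_lit 1) (.e (nat_lit 57872) (nat_lit 264) (.e (nat_lit 1211) (nat_lit 89) (.e (nat_lit 73782) (nat_lit 32) .nil))))) (.g (nat_lit 0) (.e (nat_lit 360011) (nat_lit 0) .nil) .nil)))) (.nd (nat_lit 9) 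
(.lf (nat_lit 573902) (.g (nat_lit 3562) (.e (nat_lit 483383) (nat_lit 23) (.e (nat_lit 336324) (nat_lit 18) (.e (nat_lit 204831) (nat_lit 18) (.e (nat_lit 57852) (nat_lit 252) (.e (nat_lit 57406) (nat_lit 12) (.e (nat_lit 336452) (nat_lit 34) .nil)))))) (.g (nat_lit 1) (.e (nat_lit 359124) (nat_lit 0) .nil) .nil))) 
(.lf (nat_lit 574414) (.g (nat_lit 1368) (.e (nat_lit 483403) (nat_lit 26) (.e (nat_lit 385066) (nat_lit 26) (.e (nat_lit 532501) (nat_lit 1) (.e (nat_lit 57850) (nat_lit 252) .nil)))) (.g (nat_lit 0) (.e (nat_lit 360715) (nat_lit 0) .nil) .nil))))))) (.nd (nat_lit 6) (.nd (nat_lit 7) (.nd (nat_lit 8) (.nd (nat_lit 9) 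
(.lf (nat_lit 573486) (.g (nat_lit 2348) (.e (nat_lit 483366) (nat_lit 18) (.e (nat_lit 57692) (nat_lit 156) (.e (nat_lit 163905) (nat_lit 12) (.e (nat_lit 426436) (nat_lit 18) (.e (nat_lit 98358) (nat_lit 26) (.e (nat_lit 433920) (nat_lit 13) .nil)))))) (.g (nat_lit 1) (.e (nat_lit 357946) (nat_lit 0) .nil) .nil))) 
(.lf (nat_lit 573998) (.g (nat_lit 458) (.e (nat_lit 483385) (nat_lit 23) (.e (nat_lit 336336) (nat_lit 20) (.e (nat_lit 229120) (nat_lit 4) .nil))) (.g (nat_lit 0) (.e (nat_lit 359469) (nat_lit 0) .nil) .nil)))) (.nd (nat_lit 9) 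
(.lf (nat_lit 573742) (.g (nat_lit 2680) (.e (nat_lit 483379) (nat_lit 23) (.e (nat_lit 336326) (nat_lit 18) (.e (nat_lit 204829) (nat_lit 18) (.e (nat_lit 57854) (nat_lit 252) (.e (nat_lit 57409) (nat_lit 12) .nil))))) (.g (nat_lit 0) (.e (nat_lit 358606) (nat_lit 0) .nil) .nil))) 
(.lf (nat_lit 574254) (.g (nat_lit 2039) (.e (nat_lit 483395) (nat_lit 24) (.e (nat_lit 344117) (nat_lit 21) (.e (nat_lit 516119) (nat_lit 1) (.e (nat_lit 164179) (nat_lit 154) .nil)))) (.g (nat_lit 0) (.e (nat_lit 360203) (nat_lit 0) .nil) .nil))))) (.nd (nat_lit 8) (.nd (nat_lit 9) 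
(.lf (nat_lit 573614) (.g (nat_lit 1576) (.e (nat_lit 483366) (nat_lit 18) (.e (nat_lit 57931) (nat_lit 282) (.e (nat_lit 163873) (nat_lit 3) (.e (nat_lit 204878) (nat_lit 31) (.e (nat_lit 384768) (nat_lit 18) .nil))))) (.g (nat_lit 0) (.e (nat_lit 358082) (nat_lit 0) .nil) .nil))) 
(.lf (nat_lit 574126) (.g (nat_lit 3736) (.e (nat_lit 483393) (nat_lit 23) (.e (nat_lit 336021) (nat_lit 3) (.e (nat_lit 98313) (nat_lit 9) (.e (nat_lit 335988) (nat_lit 1) (.e (nat_lit 57931) (nat_lit 282) (.e (nat_lit 163941) (nat_lit 19) .nil)))))) (.g (nat_lit 1) (.e (nat_lit 359932) (nat_lit 0) .nil) .nil)))) (.nd (nat_lit 9) 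
(.lf (nat_lit 573870) (.g (nat_lit 1360) (.e (nat_lit 483383) (nat_lit 23) (.e (nat_lit 336019) (nat_lit 3) (.e (nat_lit 98334) (nat_lit 18) (.e (nat_lit 164184) (nat_lit 155) .nil)))) (.g (nat_lit 0) (.e (nat_lit 359067) (nat_lit 0) .nil) .nil))) 
(.lf (nat_lit 574382) (.g (nat_lit 1215) (.e (nat_lit 483401) (nat_lit 25) (.e (nat_lit 368676) (nat_lit 21) (.e (nat_lit 516118) (nat_lit 1) (.e (nat_lit 164163) (nat_lit 152) .nil)))) (.g (nat_lit 0) (.e (nat_lit 360614) (nat_lit 0) .nil) .nil)))))) (.nd (nat_lit 7) (.nd (nat_lit 8) (.nd (nat_lit 9) 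
(.lf (nat_lit 573550) (.g (nat_lit 2354) (.e (nat_lit 483366) (nat_lit 18) (.e (nat_lit 57854) (nat_lit 252) (.e (nat_lit 57371) (nat_lit 2) (.e (nat_lit 90121) (nat_lit 9) .nil)))) (.g (nat_lit 0) (.e (nat_lit 358011) (nat_lit 0) .nil) .nil))) 
(.lf (nat_lit 574062) (.g (nat_lit 1661) (.e (nat_lit 483393) (nat_lit 23) (.e (nat_lit 335986) (nat_lit 1) (.e (nat_lit 57847) (nat_lit 252) (.e (nat_lit 57349) (nat_lit 0) .nil)))) (.g (nat_lit 0) (.e (nat_lit 359668) (nat_lit 0) .nil) .nil)))) (.nd (nat_lit 9) 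
(.lf (nat_lit 573806) (.g (nat_lit 528) (.e (nat_lit 483381) (nat_lit 23) (.e (nat_lit 336326) (nat_lit 18) (.e (nat_lit 204831) (nat_lit 18) .nil))) (.g (nat_lit 0) (.e (nat_lit 358816) (nat_lit 0) .nil) .nil))) 
(.lf (nat_lit 574318) (.g (nat_lit 1469) (.e (nat_lit 483397) (nat_lit 25) (.e (nat_lit 368676) (nat_lit 21) (.e (nat_lit 516115) (nat_lit 1) (.e (nat_lit 164182) (nat_lit 154) .nil)))) (.g (nat_lit 0) (.e (nat_lit 360393) (nat_lit 0) .nil) .nil))))) (.nd (nat_lit 8) (.nd (nat_lit 9) 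
(.lf (nat_lit 573678) (.g (nat_lit 80) (.e (nat_lit 483372) (nat_lit 21) (.e (nat_lit 319512) (nat_lit 10) (.e (nat_lit 4990) (nat_lit 288) .nil))) (.g (nat_lit 0) (.e (nat_lit 358323) (nat_lit 0) .nil) .nil))) 
(.lf (nat_lit 574190) (.g (nat_lit 2267) (.e (nat_lit 483394) (nat_lit 24) (.e (nat_lit 344117) (nat_lit 21) (.e (nat_lit 516115) (nat_lit 1) (.e (nat_lit 164178) (nat_lit 154) .nil)))) (.g (nat_lit 0) (.e (nat_lit 360070) (nat_lit 0) .nil) .nil)))) (.nd (nat_lit 9) 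
(.lf (nat_lit 573934) (.g (nat_lit 4295) (.e (nat_lit 483384) (nat_lit 23) (.e (nat_lit 336324) (nat_lit 18) (.e (nat_lit 204831) (nat_lit 18) (.e (nat_lit 57825) (nat_lit 250) .nil)))) (.g (nat_lit 0) (.e (nat_lit 359217) (nat_lit 0) .nil) .nil))) 
(.lf (nat_lit 574446) (.g (nat_lit 655) (.e (nat_lit 483404) (nat_lit 26) (.e (nat_lit 385109) (nat_lit 51) (.e (nat_lit 794642) (nat_lit 20) .nil))) (.g (nat_lit 0) (.e (nat_lit 360821) (nat_lit 0) .nil) .nil)))))))) (.nd (nat_lit 5) (.nd (nat_lit 6) (.nd (nat_lit 7) (.nd (nat_lit 8) (.nd (nat_lit 9) 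
(.lf (nat_lit 573470) (.g (nat_lit 1433) (.e (nat_lit 483366) (nat_lit 18) (.e (nat_lit 57688) (nat_lit 156) (.e (nat_lit 163903) (nat_lit 12) (.e (nat_lit 426438) (nat_lit 18) (.e (nat_lit 98363) (nat_lit 26) .nil))))) (.g (nat_lit 0) (.e (nat_lit 357923) (nat_lit 0) .nil) .nil))) 
(.lf (nat_lit 573982) (.g (nat_lit 4249) (.e (nat_lit 483385) (nat_lit 23) (.e (nat_lit 336324) (nat_lit 18) (.e (nat_lit 204831) (nat_lit 18) (.e (nat_lit 57834) (nat_lit 250) .nil)))) (.g (nat_lit 0) (.e (nat_lit 359393) (nat_lit 0) .nil) .nil)))) (.nd (nat_lit 9) 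
(.lf (nat_lit 573726) (.g (nat_lit 2113) (.e (nat_lit 483378) (nat_lit 23) (.e (nat_lit 336282) (nat_lit 15) (.e (nat_lit 3632) (nat_lit 227) (.e (nat_lit 778323) (nat_lit 5) (.e (nat_lit 73781) (nat_lit 32) .nil))))) (.g (nat_lit 0) (.e (nat_lit 358585) (nat_lit 0) .nil) .nil))) 
(.lf (nat_lit 574238) (.g (nat_lit 659) (.e (nat_lit 483395) (nat_lit 24) (.e (nat_lit 344097) (nat_lit 18) (.e (nat_lit 5907) (nat_lit 320) (.e (nat_lit 1209) (nat_lit 89) .nil)))) (.g (nat_lit 0) (.e (nat_lit 360164) (nat_lit 0) .nil) .nil))))) (.nd (nat_lit 8) (.nd (nat_lit 9) 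
(.lf (nat_lit 573598) (.g (nat_lit 2046) (.e (nat_lit 483366) (nat_lit 18) (.e (nat_lit 57930) (nat_lit 282) (.e (nat_lit 163867) (nat_lit 2) (.e (nat_lit 196672) (nat_lit 15) (.e (nat_lit 89856) (nat_lit 18) .nil))))) (.g (nat_lit 1) (.e (nat_lit 358062) (nat_lit 0) .nil) .nil))) 
(.lf (nat_lit 574110) (.g (nat_lit 3158) (.e (nat_lit 483393) (nat_lit 23) (.e (nat_lit 335988) (nat_lit 1) (.e (nat_lit 57854) (nat_lit 252) (.e (nat_lit 57388) (nat_lit 5) (.e (nat_lit 114698) (nat_lit 11) (.e (nat_lit 426334) (nat_lit 13) .nil)))))) (.g (nat_lit 1) (.e (nat_lit 359801) (nat_lit 0) .nil) .nil)))) (.nd (nat_lit 9) 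
(.lf (nat_lit 573854) (.g (nat_lit 436) (.e (nat_lit 483383) (nat_lit 23) (.e (nat_lit 336019) (nat_lit 3) (.e (nat_lit 98321) (nat_lit 17) .nil))) (.g (nat_lit 0) (.e (nat_lit 359035) (nat_lit 0) .nil) .nil))) 
(.lf (nat_lit 574366) (.g (nat_lit 594) (.e (nat_lit 483399) (nat_lit 25) (.e (nat_lit 368676) (nat_lit 21) (.e (nat_lit 516198) (nat_lit 26) .nil))) (.g (nat_lit 0) (.e (nat_lit 360547) (nat_lit 0) .nil) .nil)))))) (.nd (nat_lit 7) (.nd (nat_lit 8) (.nd (nat_lit 9) 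
(.lf (nat_lit 573534) (.g (nat_lit 1095) (.e (nat_lit 483366) (nat_lit 18) (.e (nat_lit 57848) (nat_lit 252) (.e (nat_lit 57379) (nat_lit 3) (.e (nat_lit 98315) (nat_lit 9) .nil)))) (.g (nat_lit 0) (.e (nat_lit 357995) (nat_lit 0) .nil) .nil))) 
(.lf (nat_lit 574046) (.g (nat_lit 1137) (.e (nat_lit 483392) (nat_lit 23) (.e (nat_lit 335995) (nat_lit 1) (.e (nat_lit 57872) (nat_lit 264) (.e (nat_lit 1209) (nat_lit 89) .nil)))) (.g (nat_lit 0) (.e (nat_lit 359627) (nat_lit 0) .nil) .nil)))) (.nd (nat_lit 9) 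
(.lf (nat_lit 573790) (.g (nat_lit 4047) (.e (nat_lit 483381) (nat_lit 23) (.e (nat_lit 336324) (nat_lit 18) (.e (nat_lit 204831) (nat_lit 18) (.e (nat_lit 57832) (nat_lit 250) .nil)))) (.g (nat_lit 0) (.e (nat_lit 358797) (nat_lit 0) .nil) .nil))) 
(.lf (nat_lit 574302) (.g (nat_lit 2186) (.e (nat_lit 483396) (nat_lit 24) (.e (nat_lit 344168) (nat_lit 40) (.e (nat_lit 671763) (nat_lit 5) (.e (nat_lit 73781) (nat_lit 32) (.e (nat_lit 3090) (nat_lit 191) .nil))))) (.g (nat_lit 1) (.e (nat_lit 360362) (nat_lit 0) .nil) .nil))))) (.nd (nat_lit 8) (.nd (nat_lit 9) 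
(.lf (nat_lit 573662) (.g (nat_lit 432) (.e (nat_lit 483372) (nat_lit 21) (.e (nat_lit 319504) (nat_lit 10) (.e (nat_lit 7936) (nat_lit 312) .nil))) (.g (nat_lit 0) (.e (nat_lit 358274) (nat_lit 0) .nil) .nil))) 
(.lf (nat_lit 574174) (.g (nat_lit 1076) (.e (nat_lit 491264) (nat_lit 23) (.e (nat_lit 336336) (nat_lit 20) (.e (nat_lit 229120) (nat_lit 5) (.e (nat_lit 114698) (nat_lit 11) (.e (nat_lit 426326) (nat_lit 13) .nil))))) (.g (nat_lit 0) (.e (nat_lit 360040) (nat_lit 0) .nil) .nil)))) (.nd (nat_lit 9) 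
(.lf (nat_lit 573918) (.g (nat_lit 484) (.e (nat_lit 483384) (nat_lit 23) (.e (nat_lit 336019) (nat_lit 3) (.e (nat_lit 98334) (nat_lit 18) .nil))) (.g (nat_lit 0) (.e (nat_lit 359178) (nat_lit 0) .nil) .nil))) 
(.lf (nat_lit 574430) (.g (nat_lit 2441) (.e (nat_lit 483403) (nat_lit 26) (.e (nat_lit 385093) (nat_lit 49) (.e (nat_lit 778323) (nat_lit 5) (.e (nat_lit 73782) (nat_lit 32) (.e (nat_lit 3089) (nat_lit 191) .nil))))) (.g (nat_lit 1) (.e (nat_lit 360753) (nat_lit 0) .nil) .nil))))))) (.nd (nat_lit 6) (.nd (nat_lit 7) (.nd (nat_lit 8) (.nd (nat_lit 9) 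
(.lf (nat_lit 573502) (.g (nat_lit 1514) (.e (nat_lit 483366) (nat_lit 18) (.e (nat_lit 57846) (nat_lit 252) (.e (nat_lit 57379) (nat_lit 3) (.e (nat_lit 106240) (nat_lit 11) .nil)))) (.g (nat_lit 0) (.e (nat_lit 357962) (nat_lit 0) .nil) .nil))) 
(.lf (nat_lit 574014) (.g (nat_lit 629) (.e (nat_lit 483387) (nat_lit 23) (.e (nat_lit 336294) (nat_lit 15) (.e (nat_lit 3632) (nat_lit 227) (.e (nat_lit 778324) (nat_lit 5) .nil)))) (.g (nat_lit 0) (.e (nat_lit 359549) (nat_lit 0) .nil) .nil)))) (.nd (nat_lit 9) 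
(.lf (nat_lit 573758) (.g (nat_lit 3724) (.e (nat_lit 483380) (nat_lit 23) (.e (nat_lit 336324) (nat_lit 18) (.e (nat_lit 204831) (nat_lit 18) (.e (nat_lit 57825) (nat_lit 250) .nil)))) (.g (nat_lit 0) (.e (nat_lit 358671) (nat_lit 0) .nil) .nil))) 
(.lf (nat_lit 574270) (.g (nat_lit 371) (.e (nat_lit 483395) (nat_lit 24) (.e (nat_lit 344169) (nat_lit 40) (.e (nat_lit 671748) (nat_lit 0) .nil))) (.g (nat_lit 0) (.e (nat_lit 360284) (nat_lit 0) .nil) .nil))))) (.nd (nat_lit 8) (.nd (nat_lit 9) 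
(.lf (nat_lit 573630) (.g (nat_lit 572) (.e (nat_lit 483368) (nat_lit 19) (.e (nat_lit 123195) (nat_lit 266) (.e (nat_lit 57347) (nat_lit 0) .nil))) (.g (nat_lit 0) (.e (nat_lit 358106) (nat_lit 0) .nil) .nil))) 
(.lf (nat_lit 574142) (.g (nat_lit 160) (.e (nat_lit 483393) (nat_lit 23) (.e (nat_lit 336026) (nat_lit 3) (.e (nat_lit 98335) (nat_lit 18) .nil))) (.g (nat_lit 0) (.e (nat_lit 359977) (nat_lit 0) .nil) .nil)))) (.nd (nat_lit 9) 
(.lf (nat_lit 573886) (.g (nat_lit 2271) (.e (nat_lit 483383) (nat_lit 23) (.e (nat_lit 336320) (nat_lit 17) (.e (nat_lit 196698) (nat_lit 19) (.e (nat_lit 57811) (nat_lit 246) (.e (nat_lit 57883) (nat_lit 270) (.e (nat_lit 496) (nat_lit 39) .nil)))))) (.g (nat_lit 1) (.e (nat_lit 359091) (nat_lit 0) .nil) .nil))) 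
(.lf (nat_lit 574398) (.g (nat_lit 1699) (.e (nat_lit 483402) (nat_lit 26) (.e (nat_lit 385068) (nat_lit 26) (.e (nat_lit 532504) (nat_lit 1) (.e (nat_lit 57830) (nat_lit 250) .nil)))) (.g (nat_lit 0) (.e (nat_lit 360659) (nat_lit 0) .nil) .nil)))))) (.nd (nat_lit 7) (.nd (nat_lit 8) (.nd (nat_lit 9) 
(.lf (nat_lit 573566) (.g (nat_lit 3968) (.e (nat_lit 483366) (nat_lit 18) (.e (nat_lit 57854) (nat_lit 252) (.e (nat_lit 57373) (nat_lit 2) (.e (nat_lit 90155) (nat_lit 10) .nil)))) (.g (nat_lit 0) (.e (nat_lit 358027) (nat_lit 0) .nil) .nil))) 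
(.lf (nat_lit 574078) (.g (nat_lit 1825) (.e (nat_lit 483393) (nat_lit 23) (.e (nat_lit 335987) (nat_lit 1) (.e (nat_lit 57854) (nat_lit 252) (.e (nat_lit 57347) (nat_lit 0) (.e (nat_lit 2077) (nat_lit 142) .nil))))) (.g (nat_lit 0) (.e (nat_lit 359723) (nat_lit 0) .nil) .nil)))) (.nd (nat_lit 9) 
(.lf (nat_lit 573822) (.g (nat_lit 1923) (.e (nat_lit 483382) (nat_lit 23) (.e (nat_lit 336320) (nat_lit 17) (.e (nat_lit 196698) (nat_lit 19) (.e (nat_lit 57813) (nat_lit 246) (.e (nat_lit 57878) (nat_lit 270) (.e (nat_lit 496) (nat_lit 39) .nil)))))) (.g (nat_lit 1) (.e (nat_lit 358862) (nat_lit 0) .nil) .nil))) 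
(.lf (nat_lit 574334) (.g (nat_lit 1730) (.e (nat_lit 483398) (nat_lit 25) (.e (nat_lit 368676) (nat_lit 21) (.e (nat_lit 516115) (nat_lit 1) (.e (nat_lit 164179) (nat_lit 154) (.e (nat_lit 65280) (nat_lit 12) .nil))))) (.g (nat_lit 0) (.e (nat_lit 360439) (nat_lit 0) .nil) .nil))))) (.nd (nat_lit 8) (.nd (nat_lit 9) 
(.lf (nat_lit 573694) (.g (nat_lit 789) (.e (nat_lit 483372) (nat_lit 21) (.e (nat_lit 319533) (nat_lit 16) (.e (nat_lit 286721) (nat_lit 0) .nil))) (.g (nat_lit 0) (.e (nat_lit 358405) (nat_lit 0) .nil) .nil))) 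
(.lf (nat_lit 574206) (.g (nat_lit 2531) (.e (nat_lit 483394) (nat_lit 24) (.e (nat_lit 344117) (nat_lit 21) (.e (nat_lit 516195) (nat_lit 26) (.e (nat_lit 335988) (nat_lit 1) (.e (nat_lit 57929) (nat_lit 282) .nil))))) (.g (nat_lit 0) (.e (nat_lit 360102) (nat_lit 0) .nil) .nil)))) (.nd (nat_lit 9) 
(.lf (nat_lit 573950) (.g (nat_lit 1340) (.e (nat_lit 483384) (nat_lit 23) (.e (nat_lit 336324) (nat_lit 18) (.e (nat_lit 204831) (nat_lit 18) (.e (nat_lit 57852) (nat_lit 252) .nil)))) (.g (nat_lit 0) (.e (nat_lit 359239) (nat_lit 0) .nil) .nil))) 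
(.lf (nat_lit 574462) (.g (nat_lit 422) (.e (nat_lit 483405) (nat_lit 26) (.e (nat_lit 385066) (nat_lit 26) (.e (nat_lit 532504) (nat_lit 1) .nil))) (.g (nat_lit 0) (.e (nat_lit 360859) (nat_lit 0) .nil) .nil)))))))))))) (.nd (nat_lit 1) (.nd (nat_lit 2) (.nd (nat_lit 3) (.nd (nat_lit 4) (.nd (nat_lit 5) (.nd (nat_lit 6) (.nd (nat_lit 7) (.nd (nat_lit 8) (.nd (nat_lit 9) 
(.lf (nat_lit 573441) (.g (nat_lit 964) (.e (nat_lit 483365) (nat_lit 18) (.e (nat_lit 57931) (nat_lit 282) (.e (nat_lit 163866) (nat_lit 2) (.e (nat_lit 196673) (nat_lit 15) .nil)))) (.g (nat_lit 0) (.e (nat_lit 357883) (nat_lit 0) .nil) .nil))) 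
(.lf (nat_lit 573953) (.g (nat_lit 2187) (.e (nat_lit 483384) (nat_lit 23) (.e (nat_lit 336324) (nat_lit 18) (.e (nat_lit 204831) (nat_lit 18) (.e (nat_lit 57852) (nat_lit 252) (.e (nat_lit 65280) (nat_lit 12) .nil))))) (.g (nat_lit 0) (.e (nat_lit 359245) (nat_lit 0) .nil) .nil)))) (.nd (nat_lit 9) 
(.lf (nat_lit 573697) (.g (nat_lit 641) (.e (nat_lit 483372) (nat_lit 21) (.e (nat_lit 319533) (nat_lit 16) (.e (nat_lit 286728) (nat_lit 0) .nil))) (.g (nat_lit 0) (.e (nat_lit 358411) (nat_lit 0) .nil) .nil))) 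
(.lf (nat_lit 574209) (.g (nat_lit 3161) (.e (nat_lit 483394) (nat_lit 24) (.e (nat_lit 344117) (nat_lit 21) (.e (nat_lit 516195) (nat_lit 26) (.e (nat_lit 335995) (nat_lit 1) (.e (nat_lit 57929) (nat_lit 282) (.e (nat_lit 163943) (nat_lit 19) .nil)))))) (.g (nat_lit 1) (.e (nat_lit 360105) (nat_lit 0) .nil) .nil))))) (.nd (nat_lit 8) (.nd (nat_lit 9) 
(.lf (nat_lit 573569) (.g (nat_lit 2384) (.e (nat_lit 483366) (nat_lit 18) (.e (nat_lit 57854) (nat_lit 252) (.e (nat_lit 57373) (nat_lit 2) (.e (nat_lit 90160) (nat_lit 11) (.e (nat_lit 24636) (nat_lit 9) (.e (nat_lit 343808) (nat_lit 34) .nil)))))) (.g (nat_lit 1) (.e (nat_lit 358030) (nat_lit 0) .nil) .nil))) 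
(.lf (nat_lit 574081) (.g (nat_lit 1825) (.e (nat_lit 483393) (nat_lit 23) (.e (nat_lit 335987) (nat_lit 1) (.e (nat_lit 57854) (nat_lit 252) (.e (nat_lit 57347) (nat_lit 0) (.e (nat_lit 2086) (nat_lit 142) .nil))))) (.g (nat_lit 0) (.e (nat_lit 359726) (nat_lit 0) .nil) .nil)))) (.nd (nat_lit 9) 
(.lf (nat_lit 573825) (.g (nat_lit 841) (.e (nat_lit 483382) (nat_lit 23) (.e (nat_lit 336322) (nat_lit 18) (.e (nat_lit 204830) (nat_lit 18) (.e (nat_lit 57851) (nat_lit 252) .nil)))) (.g (nat_lit 0) (.e (nat_lit 358865) (nat_lit 0) .nil) .nil))) 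
(.lf (nat_lit 574337) (.g (nat_lit 1349) (.e (nat_lit 483398) (nat_lit 25) (.e (nat_lit 368676) (nat_lit 21) (.e (nat_lit 516117) (nat_lit 1) (.e (nat_lit 164184) (nat_lit 155) .nil)))) (.g (nat_lit 0) (.e (nat_lit 360453) (nat_lit 0) .nil) .nil)))))) (.nd (nat_lit 7) (.nd (nat_lit 8) (.nd (nat_lit 9) 
(.lf (nat_lit 573505) (.g (nat_lit 2342) (.e (nat_lit 483366) (nat_lit 18) (.e (nat_lit 57847) (nat_lit 252) (.e (nat_lit 57373) (nat_lit 2) (.e (nat_lit 90160) (nat_lit 11) (.e (nat_lit 24628) (nat_lit 9) .nil))))) (.g (nat_lit 0) (.e (nat_lit 357965) (nat_lit 0) .nil) .nil))) 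
(.lf (nat_lit 574017) (.g (nat_lit 1035) (.e (nat_lit 483389) (nat_lit 23) (.e (nat_lit 335997) (nat_lit 1) (.e (nat_lit 57848) (nat_lit 252) (.e (nat_lit 57383) (nat_lit 4) .nil)))) (.g (nat_lit 0) (.e (nat_lit 359553) (nat_lit 0) .nil) .nil)))) (.nd (nat_lit 9) 
(.lf (nat_lit 573761) (.g (nat_lit 3857) (.e (nat_lit 483380) (nat_lit 23) (.e (nat_lit 336324) (nat_lit 18) (.e (nat_lit 204831) (nat_lit 18) (.e (nat_lit 57831) (nat_lit 250) .nil)))) (.g (nat_lit 0) (.e (nat_lit 358680) (nat_lit 0) .nil) .nil))) 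
(.lf (nat_lit 574273) (.g (nat_lit 2437) (.e (nat_lit 483395) (nat_lit 24) (.e (nat_lit 344169) (nat_lit 40) (.e (nat_lit 671763) (nat_lit 5) (.e (nat_lit 73782) (nat_lit 32) (.e (nat_lit 3089) (nat_lit 191) .nil))))) (.g (nat_lit 1) (.e (nat_lit 360290) (nat_lit 0) .nil) .nil))))) (.nd (nat_lit 8) (.nd (nat_lit 9) 
(.lf (nat_lit 573633) (.g (nat_lit 1212) (.e (nat_lit 483370) (nat_lit 20) (.e (nat_lit 147500) (nat_lit 12) (.e (nat_lit 164054) (nat_lit 56) (.e (nat_lit 786457) (nat_lit 18) (.e (nat_lit 98365) (nat_lit 26) (.e (nat_lit 426325) (nat_lit 13) .nil)))))) (.g (nat_lit 1) (.e (nat_lit 358153) (nat_lit 0) .nil) .nil))) 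
(.lf (nat_lit 574145) (.g (nat_lit 709) (.e (nat_lit 483393) (nat_lit 23) (.e (nat_lit 336027) (nat_lit 3) (.e (nat_lit 98333) (nat_lit 18) .nil))) (.g (nat_lit 0) (.e (nat_lit 359980) (nat_lit 0) .nil) .nil)))) (.nd (nat_lit 9) 
(.lf (nat_lit 573889) (.g (nat_lit 821) (.e (nat_lit 483383) (nat_lit 23) (.e (nat_lit 336324) (nat_lit 18) (.e (nat_lit 204830) (nat_lit 18) (.e (nat_lit 57830) (nat_lit 250) .nil)))) (.g (nat_lit 0) (.e (nat_lit 359101) (nat_lit 0) .nil) .nil))) 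
(.lf (nat_lit 574401) (.g (nat_lit 1961) (.e (nat_lit 483402) (nat_lit 26) (.e (nat_lit 385093) (nat_lit 49) (.e (nat_lit 778323) (nat_lit 5) (.e (nat_lit 73781) (nat_lit 32) (.e (nat_lit 3087) (nat_lit 191) .nil))))) (.g (nat_lit 1) (.e (nat_lit 360674) (nat_lit 0) .nil) .nil))))))) (.nd (nat_lit 6) (.nd (nat_lit 7) (.nd (nat_lit 8) (.nd (nat_lit 9) 
(.lf (nat_lit 573473) (.g (nat_lit 1866) (.e (nat_lit 483366) (nat_lit 18) (.e (nat_lit 57688) (nat_lit 156) (.e (nat_lit 163905) (nat_lit 12) (.e (nat_lit 426438) (nat_lit 18) (.e (nat_lit 98363) (nat_lit 26) .nil))))) (.g (nat_lit 0) (.e (nat_lit 357926) (nat_lit 0) .nil) .nil))) 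
(.lf (nat_lit 573985) (.g (nat_lit 4172) (.e (nat_lit 483385) (nat_lit 23) (.e (nat_lit 336324) (nat_lit 18) (.e (nat_lit 204831) (nat_lit 18) (.e (nat_lit 57846) (nat_lit 252) (.e (nat_lit 57407) (nat_lit 12) (.e (nat_lit 336454) (nat_lit 34) .nil)))))) (.g (nat_lit 1) (.e (nat_lit 359401) (nat_lit 0) .nil) .nil)))) (.nd (nat_lit 9) 
(.lf (nat_lit 573729) (.g (nat_lit 1987) (.e (nat_lit 483378) (nat_lit 23) (.e (nat_lit 336295) (nat_lit 15) (.e (nat_lit 3632) (nat_lit 227) (.e (nat_lit 778323) (nat_lit 5) .nil)))) (.g (nat_lit 0) (.e (nat_lit 358588) (nat_lit 0) .nil) .nil))) 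
(.lf (nat_lit 574241) (.g (nat_lit 779) (.e (nat_lit 483395) (nat_lit 24) (.e (nat_lit 344117) (nat_lit 21) (.e (nat_lit 516106) (nat_lit 0) .nil))) (.g (nat_lit 0) (.e (nat_lit 360176) (nat_lit 0) .nil) .nil))))) (.nd (nat_lit 8) (.nd (nat_lit 9) 
(.lf (nat_lit 573601) (.g (nat_lit 1589) (.e (nat_lit 483366) (nat_lit 18) (.e (nat_lit 57930) (nat_lit 282) (.e (nat_lit 163869) (nat_lit 2) (.e (nat_lit 196674) (nat_lit 15) (.e (nat_lit 89856) (nat_lit 18) .nil))))) (.g (nat_lit 1) (.e (nat_lit 358065) (nat_lit 0) .nil) .nil))) 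
(.lf (nat_lit 574113) (.g (nat_lit 786) (.e (nat_lit 483393) (nat_lit 23) (.e (nat_lit 335995) (nat_lit 1) (.e (nat_lit 57848) (nat_lit 252) .nil))) (.g (nat_lit 0) (.e (nat_lit 359816) (nat_lit 0) .nil) .nil)))) (.nd (nat_lit 9) 
(.lf (nat_lit 573857) (.g (nat_lit 1689) (.e (nat_lit 483383) (nat_lit 23) (.e (nat_lit 336019) (nat_lit 3) (.e (nat_lit 98333) (nat_lit 18) (.e (nat_lit 164153) (nat_lit 152) .nil)))) (.g (nat_lit 0) (.e (nat_lit 359039) (nat_lit 0) .nil) .nil))) 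
(.lf (nat_lit 574369) (.g (nat_lit 2504) (.e (nat_lit 483400) (nat_lit 25) (.e (nat_lit 368676) (nat_lit 21) (.e (nat_lit 516115) (nat_lit 1) (.e (nat_lit 164179) (nat_lit 154) (.e (nat_lit 57411) (nat_lit 12) .nil))))) (.g (nat_lit 0) (.e (nat_lit 360558) (nat_lit 0) .nil) .nil)))))) (.nd (nat_lit 7) (.nd (nat_lit 8) (.nd (nat_lit 9) 
(.lf (nat_lit 573537) (.g (nat_lit 2699) (.e (nat_lit 483366) (nat_lit 18) (.e (nat_lit 57849) (nat_lit 252) (.e (nat_lit 57374) (nat_lit 2) (.e (nat_lit 90158) (nat_lit 11) (.e (nat_lit 24628) (nat_lit 9) .nil))))) (.g (nat_lit 0) (.e (nat_lit 357998) (nat_lit 0) .nil) .nil))) 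
(.lf (nat_lit 574049) (.g (nat_lit 741) (.e (nat_lit 483392) (nat_lit 23) (.e (nat_lit 335995) (nat_lit 1) (.e (nat_lit 57873) (nat_lit 264) .nil))) (.g (nat_lit 0) (.e (nat_lit 359630) (nat_lit 0) .nil) .nil)))) (.nd (nat_lit 9) 
(.lf (nat_lit 573793) (.g (nat_lit 3471) (.e (nat_lit 483381) (nat_lit 23) (.e (nat_lit 336324) (nat_lit 18) (.e (nat_lit 204831) (nat_lit 18) (.e (nat_lit 57846) (nat_lit 252) (.e (nat_lit 57409) (nat_lit 12) .nil))))) (.g (nat_lit 0) (.e (nat_lit 358800) (nat_lit 0) .nil) .nil))) 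
(.lf (nat_lit 574305) (.g (nat_lit 595) (.e (nat_lit 483396) (nat_lit 24) (.e (nat_lit 344169) (nat_lit 40) (.e (nat_lit 671763) (nat_lit 5) (.e (nat_lit 81664) (nat_lit 32) .nil)))) (.g (nat_lit 0) (.e (nat_lit 360365) (nat_lit 0) .nil) .nil))))) (.nd (nat_lit 8) (.nd (nat_lit 9) 
(.lf (nat_lit 573665) (.g (nat_lit 299) (.e (nat_lit 483372) (nat_lit 21) (.e (nat_lit 319505) (nat_lit 10) (.e (nat_lit 584) (nat_lit 43) .nil))) (.g (nat_lit 0) (.e (nat_lit 358283) (nat_lit 0) .nil) .nil))) 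
(.lf (nat_lit 574177) (.g (nat_lit 1015) (.e (nat_lit 483394) (nat_lit 24) (.e (nat_lit 344097) (nat_lit 18) (.e (nat_lit 5907) (nat_lit 320) (.e (nat_lit 1209) (nat_lit 89) (.e (nat_lit 81664) (nat_lit 32) .nil))))) (.g (nat_lit 0) (.e (nat_lit 360047) (nat_lit 0) .nil) .nil)))) (.nd (nat_lit 9) 
(.lf (nat_lit 573921) (.g (nat_lit 1431) (.e (nat_lit 483384) (nat_lit 23) (.e (nat_lit 336019) (nat_lit 3) (.e (nat_lit 98335) (nat_lit 18) (.e (nat_lit 164147) (nat_lit 152) .nil)))) (.g (nat_lit 0) (.e (nat_lit 359184) (nat_lit 0) .nil) .nil))) 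
(.lf (nat_lit 574433) (.g (nat_lit 2011) (.e (nat_lit 483403) (nat_lit 26) (.e (nat_lit 385094) (nat_lit 49) (.e (nat_lit 778324) (nat_lit 5) (.e (nat_lit 73781) (nat_lit 32) (.e (nat_lit 3087) (nat_lit 191) .nil))))) (.g (nat_lit 1) (.e (nat_lit 360757) (nat_lit 0) .nil) .nil)))))))) (.nd (nat_lit 5) (.nd (nat_lit 6) (.nd (nat_lit 7) (.nd (nat_lit 8) (.nd (nat_lit 9) 
(.lf (nat_lit 573457) (.g (nat_lit 2262) (.e (nat_lit 483365) (nat_lit 18) (.e (nat_lit 57931) (nat_lit 282) (.e (nat_lit 163874) (nat_lit 3) (.e (nat_lit 204865) (nat_lit 28) (.e (nat_lit 360192) (nat_lit 18) .nil))))) (.g (nat_lit 1) (.e (nat_lit 357904) (nat_lit 0) .nil) .nil))) 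
(.lf (nat_lit 573969) (.g (nat_lit 2660) (.e (nat_lit 483385) (nat_lit 23) (.e (nat_lit 336324) (nat_lit 18) (.e (nat_lit 204829) (nat_lit 18) (.e (nat_lit 57846) (nat_lit 252) (.e (nat_lit 57407) (nat_lit 12) .nil))))) (.g (nat_lit 0) (.e (nat_lit 359360) (nat_lit 0) .nil) .nil)))) (.nd (nat_lit 9) 
(.lf (nat_lit 573713) (.g (nat_lit 356) (.e (nat_lit 483372) (nat_lit 21) (.e (nat_lit 319534) (nat_lit 16) (.e (nat_lit 286731) (nat_lit 1) .nil))) (.g (nat_lit 0) (.e (nat_lit 358460) (nat_lit 0) .nil) .nil))) 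
(.lf (nat_lit 574225) (.g (nat_lit 1666) (.e (nat_lit 483394) (nat_lit 24) (.e (nat_lit 344160) (nat_lit 37) (.e (nat_lit 647190) (nat_lit 9) (.e (nat_lit 1047) (nat_lit 81) .nil)))) (.g (nat_lit 0) (.e (nat_lit 360142) (nat_lit 0) .nil) .nil))))) (.nd (nat_lit 8) (.nd (nat_lit 9) 
(.lf (nat_lit 573585) (.g (nat_lit 1659) (.e (nat_lit 483366) (nat_lit 18) (.e (nat_lit 57924) (nat_lit 282) (.e (nat_lit 163875) (nat_lit 3) (.e (nat_lit 204866) (nat_lit 28) (.e (nat_lit 360192) (nat_lit 18) .nil))))) (.g (nat_lit 0) (.e (nat_lit 358048) (nat_lit 0) .nil) .nil))) 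
(.lf (nat_lit 574097) (.g (nat_lit 1891) (.e (nat_lit 483393) (nat_lit 23) (.e (nat_lit 335988) (nat_lit 1) (.e (nat_lit 57854) (nat_lit 252) (.e (nat_lit 57347) (nat_lit 0) (.e (nat_lit 2074) (nat_lit 142) .nil))))) (.g (nat_lit 0) (.e (nat_lit 359777) (nat_lit 0) .nil) .nil)))) (.nd (nat_lit 9) 
(.lf (nat_lit 573841) (.g (nat_lit 1745) (.e (nat_lit 483382) (nat_lit 23) (.e (nat_lit 336324) (nat_lit 18) (.e (nat_lit 204831) (nat_lit 18) (.e (nat_lit 57846) (nat_lit 252) (.e (nat_lit 57407) (nat_lit 12) .nil))))) (.g (nat_lit 0) (.e (nat_lit 358896) (nat_lit 0) .nil) .nil))) 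
(.lf (nat_lit 574353) (.g (nat_lit 1417) (.e (nat_lit 483399) (nat_lit 25) (.e (nat_lit 368676) (nat_lit 21) (.e (nat_lit 516115) (nat_lit 1) (.e (nat_lit 164178) (nat_lit 154) (.e (nat_lit 57408) (nat_lit 12) .nil))))) (.g (nat_lit 0) (.e (nat_lit 360502) (nat_lit 0) .nil) .nil)))))) (.nd (nat_lit 7) (.nd (nat_lit 8) (.nd (nat_lit 9) 
(.lf (nat_lit 573521) (.g (nat_lit 2901) (.e (nat_lit 483366) (nat_lit 18) (.e (nat_lit 57848) (nat_lit 252) (.e (nat_lit 57372) (nat_lit 2) (.e (nat_lit 90159) (nat_lit 11) (.e (nat_lit 24628) (nat_lit 9) (.e (nat_lit 336454) (nat_lit 34) .nil)))))) (.g (nat_lit 1) (.e (nat_lit 357981) (nat_lit 0) .nil) .nil))) 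
(.lf (nat_lit 574033) (.g (nat_lit 885) (.e (nat_lit 483391) (nat_lit 23) (.e (nat_lit 335998) (nat_lit 1) (.e (nat_lit 57873) (nat_lit 264) (.e (nat_lit 1211) (nat_lit 89) .nil)))) (.g (nat_lit 0) (.e (nat_lit 359589) (nat_lit 0) .nil) .nil)))) (.nd (nat_lit 9) 
(.lf (nat_lit 573777) (.g (nat_lit 3809) (.e (nat_lit 483380) (nat_lit 23) (.e (nat_lit 336324) (nat_lit 18) (.e (nat_lit 204831) (nat_lit 18) (.e (nat_lit 57855) (nat_lit 253) .nil)))) (.g (nat_lit 0) (.e (nat_lit 358701) (nat_lit 0) .nil) .nil))) 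
(.lf (nat_lit 574289) (.g (nat_lit 1781) (.e (nat_lit 483396) (nat_lit 24) (.e (nat_lit 344100) (nat_lit 18) (.e (nat_lit 5906) (nat_lit 320) (.e (nat_lit 1209) (nat_lit 89) (.e (nat_lit 73782) (nat_lit 32) .nil))))) (.g (nat_lit 0) (.e (nat_lit 360319) (nat_lit 0) .nil) .nil))))) (.nd (nat_lit 8) (.nd (nat_lit 9) 
(.lf (nat_lit 573649) (.g (nat_lit 725) (.e (nat_lit 483372) (nat_lit 21) (.e (nat_lit 319504) (nat_lit 10) (.e (nat_lit 616) (nat_lit 48) .nil))) (.g (nat_lit 0) (.e (nat_lit 358250) (nat_lit 0) .nil) .nil))) 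
(.lf (nat_lit 574161) (.g (nat_lit 1467) (.e (nat_lit 491264) (nat_lit 23) (.e (nat_lit 336021) (nat_lit 3) (.e (nat_lit 98317) (nat_lit 9) (.e (nat_lit 335986) (nat_lit 1) .nil)))) (.g (nat_lit 0) (.e (nat_lit 360022) (nat_lit 0) .nil) .nil)))) (.nd (nat_lit 9) 
(.lf (nat_lit 573905) (.g (nat_lit 2518) (.e (nat_lit 483383) (nat_lit 23) (.e (nat_lit 336326) (nat_lit 18) (.e (nat_lit 204829) (nat_lit 18) (.e (nat_lit 57854) (nat_lit 252) (.e (nat_lit 57408) (nat_lit 12) .nil))))) (.g (nat_lit 0) (.e (nat_lit 359131) (nat_lit 0) .nil) .nil))) 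
(.lf (nat_lit 574417) (.g (nat_lit 1535) (.e (nat_lit 483403) (nat_lit 26) (.e (nat_lit 385066) (nat_lit 26) (.e (nat_lit 532504) (nat_lit 1) (.e (nat_lit 57829) (nat_lit 250) (.e (nat_lit 1068) (nat_lit 81) .nil))))) (.g (nat_lit 0) (.e (nat_lit 360720) (nat_lit 0) .nil) .nil))))))) (.nd (nat_lit 6) (.nd (nat_lit 7) (.nd (nat_lit 8) (.nd (nat_lit 9) 
(.lf (nat_lit 573489) (.g (nat_lit 2460) (.e (nat_lit 483366) (nat_lit 18) (.e (nat_lit 57692) (nat_lit 156) (.e (nat_lit 163907) (nat_lit 12) (.e (nat_lit 426436) (nat_lit 18) (.e (nat_lit 98358) (nat_lit 26) (.e (nat_lit 433920) (nat_lit 13) .nil)))))) (.g (nat_lit 1) (.e (nat_lit 357949) (nat_lit 0) .nil) .nil))) 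
(.lf (nat_lit 574001) (.g (nat_lit 1260) (.e (nat_lit 483386) (nat_lit 23) (.e (nat_lit 336295) (nat_lit 15) (.e (nat_lit 3631) (nat_lit 227) (.e (nat_lit 778324) (nat_lit 5) .nil)))) (.g (nat_lit 0) (.e (nat_lit 359511) (nat_lit 0) .nil) .nil)))) (.nd (nat_lit 9) 
(.lf (nat_lit 573745) (.g (nat_lit 2020) (.e (nat_lit 483380) (nat_lit 23) (.e (nat_lit 336320) (nat_lit 17) (.e (nat_lit 196698) (nat_lit 19) (.e (nat_lit 57808) (nat_lit 246) (.e (nat_lit 57879) (nat_lit 270) (.e (nat_lit 496) (nat_lit 39) .nil)))))) (.g (nat_lit 1) (.e (nat_lit 358638) (nat_lit 0) .nil) .nil))) 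
(.lf (nat_lit 574257) (.g (nat_lit 1618) (.e (nat_lit 483395) (nat_lit 24) (.e (nat_lit 344118) (nat_lit 21) (.e (nat_lit 516119) (nat_lit 1) (.e (nat_lit 164150) (nat_lit 152) (.e (nat_lit 1204) (nat_lit 88) .nil))))) (.g (nat_lit 0) (.e (nat_lit 360224) (nat_lit 0) .nil) .nil))))) (.nd (nat_lit 8) (.nd (nat_lit 9) 
(.lf (nat_lit 573617) (.g (nat_lit 2787) (.e (nat_lit 483366) (nat_lit 18) (.e (nat_lit 57931) (nat_lit 282) (.e (nat_lit 163874) (nat_lit 3) (.e (nat_lit 204867) (nat_lit 28) (.e (nat_lit 360192) (nat_lit 18) .nil))))) (.g (nat_lit 1) (.e (nat_lit 358085) (nat_lit 0) .nil) .nil))) 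
(.lf (nat_lit 574129) (.g (nat_lit 2064) (.e (nat_lit 483393) (nat_lit 23) (.e (nat_lit 336021) (nat_lit 3) (.e (nat_lit 98316) (nat_lit 9) (.e (nat_lit 335988) (nat_lit 1) (.e (nat_lit 57927) (nat_lit 282) .nil))))) (.g (nat_lit 0) (.e (nat_lit 359946) (nat_lit 0) .nil) .nil)))) (.nd (nat_lit 9) 
(.lf (nat_lit 573873) (.g (nat_lit 1760) (.e (nat_lit 483383) (nat_lit 23) (.e (nat_lit 336019) (nat_lit 3) (.e (nat_lit 98335) (nat_lit 18) (.e (nat_lit 164148) (nat_lit 152) (.e (nat_lit 1204) (nat_lit 88) .nil))))) (.g (nat_lit 0) (.e (nat_lit 359070) (nat_lit 0) .nil) .nil))) 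
(.lf (nat_lit 574385) (.g (nat_lit 2226) (.e (nat_lit 483401) (nat_lit 25) (.e (nat_lit 368676) (nat_lit 21) (.e (nat_lit 516119) (nat_lit 1) (.e (nat_lit 164150) (nat_lit 152) (.e (nat_lit 1204) (nat_lit 88) .nil))))) (.g (nat_lit 0) (.e (nat_lit 360617) (nat_lit 0) .nil) .nil)))))) (.nd (nat_lit 7) (.nd (nat_lit 8) (.nd (nat_lit 9) 
(.lf (nat_lit 573553) (.g (nat_lit 2444) (.e (nat_lit 483366) (nat_lit 18) (.e (nat_lit 57854) (nat_lit 252) (.e (nat_lit 57371) (nat_lit 2) (.e (nat_lit 90125) (nat_lit 9) .nil)))) (.g (nat_lit 0) (.e (nat_lit 358014) (nat_lit 0) .nil) .nil))) 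
(.lf (nat_lit 574065) (.g (nat_lit 1661) (.e (nat_lit 483393) (nat_lit 23) (.e (nat_lit 335986) (nat_lit 1) (.e (nat_lit 57847) (nat_lit 252) (.e (nat_lit 57382) (nat_lit 4) .nil)))) (.g (nat_lit 0) (.e (nat_lit 359671) (nat_lit 0) .nil) .nil)))) (.nd (nat_lit 9) 
(.lf (nat_lit 573809) (.g (nat_lit 2008) (.e (nat_lit 483382) (nat_lit 23) (.e (nat_lit 336019) (nat_lit 3) (.e (nat_lit 98333) (nat_lit 18) (.e (nat_lit 164148) (nat_lit 152) .nil)))) (.g (nat_lit 0) (.e (nat_lit 358848) (nat_lit 0) .nil) .nil))) 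
(.lf (nat_lit 574321) (.g (nat_lit 712) (.e (nat_lit 483397) (nat_lit 25) (.e (nat_lit 368676) (nat_lit 21) (.e (nat_lit 516118) (nat_lit 1) .nil))) (.g (nat_lit 0) (.e (nat_lit 360397) (nat_lit 0) .nil) .nil))))) (.nd (nat_lit 8) (.nd (nat_lit 9) 
(.lf (nat_lit 573681) (.g (nat_lit 522) (.e (nat_lit 483372) (nat_lit 21) (.e (nat_lit 319530) (nat_lit 16) (.e (nat_lit 286728) (nat_lit 0) .nil))) (.g (nat_lit 0) (.e (nat_lit 358338) (nat_lit 0) .nil) .nil))) 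
(.lf (nat_lit 574193) (.g (nat_lit 2111) (.e (nat_lit 483394) (nat_lit 24) (.e (nat_lit 344117) (nat_lit 21) (.e (nat_lit 516116) (nat_lit 1) (.e (nat_lit 164161) (nat_lit 152) .nil)))) (.g (nat_lit 0) (.e (nat_lit 360075) (nat_lit 0) .nil) .nil)))) (.nd (nat_lit 9) 
(.lf (nat_lit 573937) (.g (nat_lit 4428) (.e (nat_lit 483384) (nat_lit 23) (.e (nat_lit 336324) (nat_lit 18) (.e (nat_lit 204831) (nat_lit 18) (.e (nat_lit 57831) (nat_lit 250) .nil)))) (.g (nat_lit 0) (.e (nat_lit 359224) (nat_lit 0) .nil) .nil))) 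
(.lf (nat_lit 574449) (.g (nat_lit 1962) (.e (nat_lit 483405) (nat_lit 26) (.e (nat_lit 385057) (nat_lit 22) (.e (nat_lit 499780) (nat_lit 1) (.e (nat_lit 57816) (nat_lit 246) (.e (nat_lit 57881) (nat_lit 270) (.e (nat_lit 496) (nat_lit 39) .nil)))))) (.g (nat_lit 1) (.e (nat_lit 360833) (nat_lit 0) .nil) .nil))))))))) 
(.nd (nat_lit 4) (.nd (nat_lit 5) (.nd (nat_lit 6) (.nd (nat_lit 7) (.nd (nat_lit 8) 
(.nd (nat_lit 9) 
(.lf (nat_lit 573449) (.g (nat_lit 2597) (.e (nat_lit 483365) (nat_lit 18) (.e (nat_lit 57931) (nat_lit 282) (.e (nat_lit 163869) (nat_lit 2) (.e (nat_lit 196673) (nat_lit 15) (.e (nat_lit 89856) (nat_lit 18) .nil))))) (.g (nat_lit 1) (.e (nat_lit 357895) (nat_lit 0) .nil) .nil))) 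
(.lf (nat_lit 573961) (.g (nat_lit 1948) (.e (nat_lit 483385) (nat_lit 23) (.e (nat_lit 336019) (nat_lit 3) (.e (nat_lit 98333) (nat_lit 18) (.e (nat_lit 164161) (nat_lit 152) .nil)))) (.g (nat_lit 0) (.e (nat_lit 359306) (nat_lit 0) .nil) .nil)))) (.nd (nat_lit 9) 
(.lf (nat_lit 573705) (.g (nat_lit 684) (.e (nat_lit 483372) (nat_lit 21) (.e (nat_lit 319534) (nat_lit 16) (.e (nat_lit 286723) (nat_lit 0) .nil))) (.g (nat_lit 0) (.e (nat_lit 358445) (nat_lit 0) .nil) .nil))) 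
(.lf (nat_lit 574217) (.g (nat_lit 420) (.e (nat_lit 483394) (nat_lit 24) (.e (nat_lit 344168) (nat_lit 40) (.e (nat_lit 671751) (nat_lit 0) .nil))) (.g (nat_lit 0) (.e (nat_lit 360130) (nat_lit 0) .nil) .nil))))) (.nd (nat_lit 8) (.nd (nat_lit 9) 
(.lf (nat_lit 573577) (.g (nat_lit 1186) (.e (nat_lit 483366) (nat_lit 18) (.e (nat_lit 57854) (nat_lit 252) (.e (nat_lit 57378) (nat_lit 3) (.e (nat_lit 98315) (nat_lit 9) .nil)))) (.g (nat_lit 0) (.e (nat_lit 358039) (nat_lit 0) .nil) .nil))) 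
(.lf (nat_lit 574089) (.g (nat_lit 1177) (.e (nat_lit 483393) (nat_lit 23) (.e (nat_lit 335988) (nat_lit 1) (.e (nat_lit 57852) (nat_lit 252) (.e (nat_lit 57350) (nat_lit 0) .nil)))) (.g (nat_lit 0) (.e (nat_lit 359754) (nat_lit 0) .nil) .nil)))) (.nd (nat_lit 9) 
(.lf (nat_lit 573833) (.g (nat_lit 4239) (.e (nat_lit 483382) (nat_lit 23) (.e (nat_lit 336324) (nat_lit 18) (.e (nat_lit 204831) (nat_lit 18) (.e (nat_lit 57824) (nat_lit 250) .nil)))) (.g (nat_lit 0) (.e (nat_lit 358882) (nat_lit 0) .nil) .nil))) 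
(.lf (nat_lit 574345) (.g (nat_lit 761) (.e (nat_lit 483398) (nat_lit 25) (.e (nat_lit 368676) (nat_lit 21) (.e (nat_lit 516194) (nat_lit 26) .nil))) (.g (nat_lit 0) (.e (nat_lit 360475) (nat_lit 0) .nil) .nil)))))) (.nd (nat_lit 7) (.nd (nat_lit 8) (.nd (nat_lit 9) 
(.lf (nat_lit 573513) (.g (nat_lit 1466) (.e (nat_lit 483366) (nat_lit 18) (.e (nat_lit 57848) (nat_lit 252) (.e (nat_lit 57372) (nat_lit 2) (.e (nat_lit 90122) (nat_lit 9) (.e (nat_lit 309) (nat_lit 23) .nil))))) (.g (nat_lit 0) (.e (nat_lit 357973) (nat_lit 0) .nil) .nil))) 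
(.lf (nat_lit 574025) (.g (nat_lit 2657) (.e (nat_lit 483389) (nat_lit 23) (.e (nat_lit 336295) (nat_lit 15) (.e (nat_lit 3632) (nat_lit 227) (.e (nat_lit 778324) (nat_lit 5) (.e (nat_lit 73781) (nat_lit 32) (.e (nat_lit 3089) (nat_lit 191) .nil)))))) (.g (nat_lit 1) (.e (nat_lit 359571) (nat_lit 0) .nil) .nil)))) (.nd (nat_lit 9) 
(.lf (nat_lit 573769) (.g (nat_lit 3866) (.e (nat_lit 483380) (nat_lit 23) (.e (nat_lit 336324) (nat_lit 18) (.e (nat_lit 204831) (nat_lit 18) (.e (nat_lit 57849) (nat_lit 252) (.e (nat_lit 57407) (nat_lit 12) (.e (nat_lit 336454) (nat_lit 34) .nil)))))) (.g (nat_lit 1) (.e (nat_lit 358690) (nat_lit 0) .nil) .nil))) 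
(.lf (nat_lit 574281) (.g (nat_lit 1796) (.e (nat_lit 483395) (nat_lit 24) (.e (nat_lit 344161) (nat_lit 37) (.e (nat_lit 647200) (nat_lit 12) (.e (nat_lit 57504) (nat_lit 38) (.e (nat_lit 638998) (nat_lit 8) .nil))))) (.g (nat_lit 0) (.e (nat_lit 360307) (nat_lit 0) .nil) .nil))))) (.nd (nat_lit 8) (.nd (nat_lit 9) 
(.lf (nat_lit 573641) (.g (nat_lit 384) (.e (nat_lit 483371) (nat_lit 21) (.e (nat_lit 319538) (nat_lit 19) (.e (nat_lit 311357) (nat_lit 28) .nil))) (.g (nat_lit 0) (.e (nat_lit 358163) (nat_lit 0) .nil) .nil))) 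
(.lf (nat_lit 574153) (.g (nat_lit 551) (.e (nat_lit 491264) (nat_lit 23) (.e (nat_lit 335995) (nat_lit 1) (.e (nat_lit 57847) (nat_lit 252) .nil))) (.g (nat_lit 0) (.e (nat_lit 359999) (nat_lit 0) .nil) .nil)))) (.nd (nat_lit 9) 
(.lf (nat_lit 573897) (.g (nat_lit 4126) (.e (nat_lit 483383) (nat_lit 23) (.e (nat_lit 336324) (nat_lit 18) (.e (nat_lit 204831) (nat_lit 18) (.e (nat_lit 57831) (nat_lit 250) .nil)))) (.g (nat_lit 0) (.e (nat_lit 359117) (nat_lit 0) .nil) .nil))) 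
(.lf (nat_lit 574409) (.g (nat_lit 2672) (.e (nat_lit 483403) (nat_lit 26) (.e (nat_lit 385057) (nat_lit 22) (.e (nat_lit 499780) (nat_lit 1) (.e (nat_lit 57816) (nat_lit 246) (.e (nat_lit 57881) (nat_lit 270) (.e (nat_lit 496) (nat_lit 39) .nil)))))) (.g (nat_lit 1) (.e (nat_lit 360700) (nat_lit 0) .nil) .nil))))))) (.nd (nat_lit 6) (.nd (nat_lit 7) (.nd (nat_lit 8) (.nd (nat_lit 9) 
(.lf (nat_lit 573481) (.g (nat_lit 2281) (.e (nat_lit 483366) (nat_lit 18) (.e (nat_lit 57691) (nat_lit 156) (.e (nat_lit 163905) (nat_lit 12) (.e (nat_lit 426436) (nat_lit 18) (.e (nat_lit 98358) (nat_lit 26) .nil))))) (.g (nat_lit 0) (.e (nat_lit 357938) (nat_lit 0) .nil) .nil))) 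
(.lf (nat_lit 573993) (.g (nat_lit 4430) (.e (nat_lit 483385) (nat_lit 23) (.e (nat_lit 336324) (nat_lit 18) (.e (nat_lit 204831) (nat_lit 18) (.e (nat_lit 57855) (nat_lit 253) .nil)))) (.g (nat_lit 0) (.e (nat_lit 359418) (nat_lit 0) .nil) .nil)))) (.nd (nat_lit 9) 
(.lf (nat_lit 573737) (.g (nat_lit 2715) (.e (nat_lit 483378) (nat_lit 23) (.e (nat_lit 336326) (nat_lit 18) (.e (nat_lit 204829) (nat_lit 18) (.e (nat_lit 57854) (nat_lit 252) (.e (nat_lit 57409) (nat_lit 12) .nil))))) (.g (nat_lit 0) (.e (nat_lit 358596) (nat_lit 0) .nil) .nil))) 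
(.lf (nat_lit 574249) (.g (nat_lit 1613) (.e (nat_lit 483395) (nat_lit 24) (.e (nat_lit 344117) (nat_lit 21) (.e (nat_lit 516116) (nat_lit 1) (.e (nat_lit 164182) (nat_lit 154) .nil)))) (.g (nat_lit 0) (.e (nat_lit 360197) (nat_lit 0) .nil) .nil))))) (.nd (nat_lit 8) (.nd (nat_lit 9) 
(.lf (nat_lit 573609) (.g (nat_lit 2165) (.e (nat_lit 483366) (nat_lit 18) (.e (nat_lit 57931) (nat_lit 282) (.e (nat_lit 163869) (nat_lit 2) (.e (nat_lit 196672) (nat_lit 15) (.e (nat_lit 89856) (nat_lit 18) .nil))))) (.g (nat_lit 1) (.e (nat_lit 358077) (nat_lit 0) .nil) .nil))) 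
(.lf (nat_lit 574121) (.g (nat_lit 1753) (.e (nat_lit 483393) (nat_lit 23) (.e (nat_lit 335996) (nat_lit 1) (.e (nat_lit 57852) (nat_lit 252) (.e (nat_lit 57382) (nat_lit 4) (.e (nat_lit 106534) (nat_lit 11) .nil))))) (.g (nat_lit 0) (.e (nat_lit 359833) (nat_lit 0) .nil) .nil)))) (.nd (nat_lit 9) 
(.lf (nat_lit 573865) (.g (nat_lit 1925) (.e (nat_lit 483383) (nat_lit 23) (.e (nat_lit 336019) (nat_lit 3) (.e (nat_lit 98333) (nat_lit 18) (.e (nat_lit 164183) (nat_lit 154) (.e (nat_lit 65280) (nat_lit 12) .nil))))) (.g (nat_lit 0) (.e (nat_lit 359053) (nat_lit 0) .nil) .nil))) 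
(.lf (nat_lit 574377) (.g (nat_lit 1845) (.e (nat_lit 483401) (nat_lit 25) (.e (nat_lit 368676) (nat_lit 21) (.e (nat_lit 516115) (nat_lit 1) (.e (nat_lit 164149) (nat_lit 152) .nil)))) (.g (nat_lit 0) (.e (nat_lit 360605) (nat_lit 0) .nil) .nil)))))) (.nd (nat_lit 7) (.nd (nat_lit 8) (.nd (nat_lit 9) 
(.lf (nat_lit 573545) (.g (nat_lit 2364) (.e (nat_lit 483366) (nat_lit 18) (.e (nat_lit 57851) (nat_lit 252) (.e (nat_lit 57371) (nat_lit 2) (.e (nat_lit 90160) (nat_lit 11) (.e (nat_lit 24636) (nat_lit 9) (.e (nat_lit 336453) (nat_lit 34) .nil)))))) (.g (nat_lit 1) (.e (nat_lit 358006) (nat_lit 0) .nil) .nil))) 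
(.lf (nat_lit 574057) (.g (nat_lit 573) (.e (nat_lit 483393) (nat_lit 23) (.e (nat_lit 335986) (nat_lit 1) (.e (nat_lit 57844) (nat_lit 252) .nil))) (.g (nat_lit 0) (.e (nat_lit 359650) (nat_lit 0) .nil) .nil)))) (.nd (nat_lit 9) 
(.lf (nat_lit 573801) (.g (nat_lit 3274) (.e (nat_lit 483381) (nat_lit 23) (.e (nat_lit 336324) (nat_lit 18) (.e (nat_lit 204831) (nat_lit 18) (.e (nat_lit 57852) (nat_lit 252) (.e (nat_lit 57406) (nat_lit 12) (.e (nat_lit 336452) (nat_lit 34) .nil)))))) (.g (nat_lit 1) (.e (nat_lit 358808) (nat_lit 0) .nil) .nil))) 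
(.lf (nat_lit 574313) (.g (nat_lit 2033) (.e (nat_lit 483397) (nat_lit 25) (.e (nat_lit 368676) (nat_lit 21) (.e (nat_lit 516115) (nat_lit 1) (.e (nat_lit 164148) (nat_lit 152) .nil)))) (.g (nat_lit 0) (.e (nat_lit 360387) (nat_lit 0) .nil) .nil))))) (.nd (nat_lit 8) (.nd (nat_lit 9) 
(.lf (nat_lit 573673) (.g (nat_lit 556) (.e (nat_lit 483372) (nat_lit 21) (.e (nat_lit 319505) (nat_lit 10) (.e (nat_lit 5736) (nat_lit 312) .nil))) (.g (nat_lit 0) (.e (nat_lit 358299) (nat_lit 0) .nil) .nil))) 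
(.lf (nat_lit 574185) (.g (nat_lit 2347) (.e (nat_lit 483394) (nat_lit 24) (.e (nat_lit 344117) (nat_lit 21) (.e (nat_lit 516115) (nat_lit 1) (.e (nat_lit 164149) (nat_lit 152) .nil)))) (.g (nat_lit 0) (.e (nat_lit 360064) (nat_lit 0) .nil) .nil)))) (.nd (nat_lit 9) 
(.lf (nat_lit 573929) (.g (nat_lit 2249) (.e (nat_lit 483384) (nat_lit 23) (.e (nat_lit 336324) (nat_lit 18) (.e (nat_lit 204830) (nat_lit 18) (.e (nat_lit 57853) (nat_lit 252) (.e (nat_lit 57406) (nat_lit 12) .nil))))) (.g (nat_lit 0) (.e (nat_lit 359211) (nat_lit 0) .nil) .nil))) 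
(.lf (nat_lit 574441) (.g (nat_lit 1117) (.e (nat_lit 483404) (nat_lit 26) (.e (nat_lit 385066) (nat_lit 26) (.e (nat_lit 532504) (nat_lit 1) (.e (nat_lit 57852) (nat_lit 252) .nil)))) (.g (nat_lit 0) (.e (nat_lit 360801) (nat_lit 0) .nil) .nil)))))))) (.nd (nat_lit 5) (.nd (nat_lit 6) (.nd (nat_lit 7) (.nd (nat_lit 8) (.nd (nat_lit 9) 
(.lf (nat_lit 573465) (.g (nat_lit 2663) (.e (nat_lit 483366) (nat_lit 18) (.e (nat_lit 57687) (nat_lit 156) (.e (nat_lit 163903) (nat_lit 12) (.e (nat_lit 426438) (nat_lit 18) (.e (nat_lit 98358) (nat_lit 26) (.e (nat_lit 426323) (nat_lit 13) .nil)))))) (.g (nat_lit 1) (.e (nat_lit 357914) (nat_lit 0) .nil) .nil))) 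
(.lf (nat_lit 573977) (.g (nat_lit 5265) (.e (nat_lit 483385) (nat_lit 23) (.e (nat_lit 336324) (nat_lit 18) (.e (nat_lit 204831) (nat_lit 18) (.e (nat_lit 57828) (nat_lit 250) .nil)))) (.g (nat_lit 0) (.e (nat_lit 359377) (nat_lit 0) .nil) .nil)))) (.nd (nat_lit 9) 
(.lf (nat_lit 573721) (.g (nat_lit 412) (.e (nat_lit 483377) (nat_lit 22) (.e (nat_lit 327708) (nat_lit 10) (.e (nat_lit 577) (nat_lit 43) .nil))) (.g (nat_lit 0) (.e (nat_lit 358523) (nat_lit 0) .nil) .nil))) 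
(.lf (nat_lit 574233) (.g (nat_lit 1621) (.e (nat_lit 483394) (nat_lit 24) (.e (nat_lit 344161) (nat_lit 37) (.e (nat_lit 647200) (nat_lit 12) (.e (nat_lit 57503) (nat_lit 38) (.e (nat_lit 638998) (nat_lit 8) .nil))))) (.g (nat_lit 0) (.e (nat_lit 360154) (nat_lit 0) .nil) .nil))))) (.nd (nat_lit 8) (.nd (nat_lit 9) 
(.lf (nat_lit 573593) (.g (nat_lit 1811) (.e (nat_lit 483366) (nat_lit 18) (.e (nat_lit 57929) (nat_lit 282) (.e (nat_lit 163874) (nat_lit 3) (.e (nat_lit 204866) (nat_lit 28) (.e (nat_lit 360192) (nat_lit 18) .nil))))) (.g (nat_lit 1) (.e (nat_lit 358057) (nat_lit 0) .nil) .nil))) 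
(.lf (nat_lit 574105) (.g (nat_lit 1891) (.e (nat_lit 483393) (nat_lit 23) (.e (nat_lit 335988) (nat_lit 1) (.e (nat_lit 57854) (nat_lit 252) (.e (nat_lit 57347) (nat_lit 0) (.e (nat_lit 2084) (nat_lit 142) .nil))))) (.g (nat_lit 0) (.e (nat_lit 359785) (nat_lit 0) .nil) .nil)))) (.nd (nat_lit 9) 
(.lf (nat_lit 573849) (.g (nat_lit 1792) (.e (nat_lit 483382) (nat_lit 23) (.e (nat_lit 336326) (nat_lit 18) (.e (nat_lit 204830) (nat_lit 18) (.e (nat_lit 57852) (nat_lit 252) (.e (nat_lit 65280) (nat_lit 12) .nil))))) (.g (nat_lit 0) (.e (nat_lit 358917) (nat_lit 0) .nil) .nil))) 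
(.lf (nat_lit 574361) (.g (nat_lit 1567) (.e (nat_lit 483399) (nat_lit 25) (.e (nat_lit 368676) (nat_lit 21) (.e (nat_lit 516119) (nat_lit 1) (.e (nat_lit 164148) (nat_lit 152) .nil)))) (.g (nat_lit 0) (.e (nat_lit 360522) (nat_lit 0) .nil) .nil)))))) (.nd (nat_lit 7) (.nd (nat_lit 8) (.nd (nat_lit 9) 
(.lf (nat_lit 573529) (.g (nat_lit 1579) (.e (nat_lit 483366) (nat_lit 18) (.e (nat_lit 57848) (nat_lit 252) (.e (nat_lit 57375) (nat_lit 2) (.e (nat_lit 90122) (nat_lit 9) .nil)))) (.g (nat_lit 0) (.e (nat_lit 357990) (nat_lit 0) .nil) .nil))) 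
(.lf (nat_lit 574041) (.g (nat_lit 507) (.e (nat_lit 483392) (nat_lit 23) (.e (nat_lit 335986) (nat_lit 1) (.e (nat_lit 57847) (nat_lit 252) .nil))) (.g (nat_lit 0) (.e (nat_lit 359610) (nat_lit 0) .nil) .nil)))) (.nd (nat_lit 9) 
(.lf (nat_lit 573785) (.g (nat_lit 1766) (.e (nat_lit 483381) (nat_lit 23) (.e (nat_lit 336324) (nat_lit 18) (.e (nat_lit 204829) (nat_lit 18) (.e (nat_lit 57847) (nat_lit 252) (.e (nat_lit 57411) (nat_lit 12) .nil))))) (.g (nat_lit 0) (.e (nat_lit 358785) (nat_lit 0) .nil) .nil))) 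
(.lf (nat_lit 574297) (.g (nat_lit 1597) (.e (nat_lit 483396) (nat_lit 24) (.e (nat_lit 344119) (nat_lit 21) (.e (nat_lit 516119) (nat_lit 1) (.e (nat_lit 164150) (nat_lit 152) (.e (nat_lit 1204) (nat_lit 88) .nil))))) (.g (nat_lit 0) (.e (nat_lit 360336) (nat_lit 0) .nil) .nil))))) (.nd (nat_lit 8) (.nd (nat_lit 9) 
(.lf (nat_lit 573657) (.g (nat_lit 625) (.e (nat_lit 483372) (nat_lit 21) (.e (nat_lit 319504) (nat_lit 10) (.e (nat_lit 4963) (nat_lit 287) .nil))) (.g (nat_lit 0) (.e (nat_lit 358267) (nat_lit 0) .nil) .nil))) 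
(.lf (nat_lit 574169) (.g (nat_lit 3036) (.e (nat_lit 491264) (nat_lit 23) (.e (nat_lit 336324) (nat_lit 18) (.e (nat_lit 204831) (nat_lit 18) (.e (nat_lit 57848) (nat_lit 252) (.e (nat_lit 57407) (nat_lit 12) .nil))))) (.g (nat_lit 0) (.e (nat_lit 360035) (nat_lit 0) .nil) .nil)))) (.nd (nat_lit 9) 
(.lf (nat_lit 573913) (.g (nat_lit 2210) (.e (nat_lit 483384) (nat_lit 23) (.e (nat_lit 336019) (nat_lit 3) (.e (nat_lit 98333) (nat_lit 18) (.e (nat_lit 164147) (nat_lit 152) .nil)))) (.g (nat_lit 0) (.e (nat_lit 359172) (nat_lit 0) .nil) .nil))) 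
(.lf (nat_lit 574425) (.g (nat_lit 2456) (.e (nat_lit 483403) (nat_lit 26) (.e (nat_lit 385068) (nat_lit 26) (.e (nat_lit 532503) (nat_lit 1) (.e (nat_lit 57853) (nat_lit 252) (.e (nat_lit 57408) (nat_lit 12) .nil))))) (.g (nat_lit 0) (.e (nat_lit 360739) (nat_lit 0) .nil) .nil))))))) (.nd (nat_lit 6) (.nd (nat_lit 7) (.nd (nat_lit 8) (.nd (nat_lit 9) 
(.lf (nat_lit 573497) (.g (nat_lit 2367) (.e (nat_lit 483366) (nat_lit 18) (.e (nat_lit 57846) (nat_lit 252) (.e (nat_lit 57371) (nat_lit 2) (.e (nat_lit 90160) (nat_lit 11) (.e (nat_lit 24628) (nat_lit 9) .nil))))) (.g (nat_lit 0) (.e (nat_lit 357957) (nat_lit 0) .nil) .nil))) 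
(.lf (nat_lit 574009) (.g (nat_lit 960) (.e (nat_lit 483387) (nat_lit 23) (.e (nat_lit 336028) (nat_lit 3) (.e (nat_lit 98332) (nat_lit 18) .nil))) (.g (nat_lit 0) (.e (nat_lit 359542) (nat_lit 0) .nil) .nil)))) (.nd (nat_lit 9) 
(.lf (nat_lit 573753) (.g (nat_lit 1507) (.e (nat_lit 483380) (nat_lit 23) (.e (nat_lit 336324) (nat_lit 18) (.e (nat_lit 204830) (nat_lit 18) (.e (nat_lit 57850) (nat_lit 252) (.e (nat_lit 57408) (nat_lit 12) .nil))))) (.g (nat_lit 0) (.e (nat_lit 358663) (nat_lit 0) .nil) .nil))) 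
(.lf (nat_lit 574265) (.g (nat_lit 670) (.e (nat_lit 483395) (nat_lit 24) (.e (nat_lit 344133) (nat_lit 26) (.e (nat_lit 557119) (nat_lit 18) .nil))) (.g (nat_lit 0) (.e (nat_lit 360268) (nat_lit 0) .nil) .nil))))) (.nd (nat_lit 8) (.nd (nat_lit 9) 
(.lf (nat_lit 573625) (.g (nat_lit 1023) (.e (nat_lit 491264) (nat_lit 18) (.e (nat_lit 57927) (nat_lit 282) (.e (nat_lit 163875) (nat_lit 3) (.e (nat_lit 204866) (nat_lit 28) .nil)))) (.g (nat_lit 0) (.e (nat_lit 358095) (nat_lit 0) .nil) .nil))) 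
(.lf (nat_lit 574137) (.g (nat_lit 1990) (.e (nat_lit 483393) (nat_lit 23) (.e (nat_lit 336021) (nat_lit 3) (.e (nat_lit 98317) (nat_lit 9) (.e (nat_lit 335993) (nat_lit 1) .nil)))) (.g (nat_lit 0) (.e (nat_lit 359958) (nat_lit 0) .nil) .nil)))) (.nd (nat_lit 9) 
(.lf (nat_lit 573881) (.g (nat_lit 3254) (.e (nat_lit 483383) (nat_lit 23) (.e (nat_lit 336306) (nat_lit 15) (.e (nat_lit 3238) (nat_lit 197) (.e (nat_lit 532501) (nat_lit 1) (.e (nat_lit 57851) (nat_lit 252) (.e (nat_lit 57408) (nat_lit 12) (.e (nat_lit 336454) (nat_lit 34) .nil))))))) (.g (nat_lit 1) (.e (nat_lit 359079) (nat_lit 0) .nil) .nil))) 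
(.lf (nat_lit 574393) (.g (nat_lit 1494) (.e (nat_lit 483402) (nat_lit 26) (.e (nat_lit 385068) (nat_lit 26) (.e (nat_lit 532501) (nat_lit 1) (.e (nat_lit 57830) (nat_lit 250) .nil)))) (.g (nat_lit 0) (.e (nat_lit 360651) (nat_lit 0) .nil) .nil)))))) (.nd (nat_lit 7) (.nd (nat_lit 8) (.nd (nat_lit 9) 
(.lf (nat_lit 573561) (.g (nat_lit 4035) (.e (nat_lit 483366) (nat_lit 18) (.e (nat_lit 57854) (nat_lit 252) (.e (nat_lit 57373) (nat_lit 2) (.e (nat_lit 90148) (nat_lit 9) .nil)))) (.g (nat_lit 0) (.e (nat_lit 358022) (nat_lit 0) .nil) .nil))) 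
(.lf (nat_lit 574073) (.g (nat_lit 2193) (.e (nat_lit 483393) (nat_lit 23) (.e (nat_lit 335987) (nat_lit 1) (.e (nat_lit 57852) (nat_lit 252) (.e (nat_lit 57347) (nat_lit 0) (.e (nat_lit 2044) (nat_lit 142) .nil))))) (.g (nat_lit 0) (.e (nat_lit 359713) (nat_lit 0) .nil) .nil)))) (.nd (nat_lit 9) 
(.lf (nat_lit 573817) (.g (nat_lit 2484) (.e (nat_lit 483382) (nat_lit 23) (.e (nat_lit 336019) (nat_lit 3) (.e (nat_lit 98334) (nat_lit 18) (.e (nat_lit 164182) (nat_lit 154) (.e (nat_lit 57411) (nat_lit 12) .nil))))) (.g (nat_lit 0) (.e (nat_lit 358857) (nat_lit 0) .nil) .nil))) 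
(.lf (nat_lit 574329) (.g (nat_lit 2062) (.e (nat_lit 483397) (nat_lit 25) (.e (nat_lit 368676) (nat_lit 21) (.e (nat_lit 516120) (nat_lit 1) (.e (nat_lit 164182) (nat_lit 154) .nil)))) (.g (nat_lit 0) (.e (nat_lit 360405) (nat_lit 0) .nil) .nil))))) (.nd (nat_lit 8) (.nd (nat_lit 9) 
(.lf (nat_lit 573689) (.g (nat_lit 928) (.e (nat_lit 483372) (nat_lit 21) (.e (nat_lit 319531) (nat_lit 16) (.e (nat_lit 286728) (nat_lit 0) (.e (nat_lit 988) (nat_lit 81) .nil)))) (.g (nat_lit 0) (.e (nat_lit 358366) (nat_lit 0) .nil) .nil))) 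
(.lf (nat_lit 574201) (.g (nat_lit 1931) (.e (nat_lit 483394) (nat_lit 24) (.e (nat_lit 344117) (nat_lit 21) (.e (nat_lit 516195) (nat_lit 26) (.e (nat_lit 335986) (nat_lit 1) (.e (nat_lit 57927) (nat_lit 282) (.e (nat_lit 163942) (nat_lit 19) .nil)))))) (.g (nat_lit 1) (.e (nat_lit 360097) (nat_lit 0) .nil) .nil)))) (.nd (nat_lit 9) 
(.lf (nat_lit 573945) (.g (nat_lit 3456) (.e (nat_lit 483384) (nat_lit 23) (.e (nat_lit 336324) (nat_lit 18) (.e (nat_lit 204831) (nat_lit 18) (.e (nat_lit 57847) (nat_lit 252) (.e (nat_lit 57411) (nat_lit 12) (.e (nat_lit 336454) (nat_lit 34) .nil)))))) (.g (nat_lit 1) (.e (nat_lit 359233) (nat_lit 0) .nil) .nil))) 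
(.lf (nat_lit 574457) (.g (nat_lit 2063) (.e (nat_lit 483405) (nat_lit 26) (.e (nat_lit 385066) (nat_lit 26) (.e (nat_lit 532500) (nat_lit 1) (.e (nat_lit 57851) (nat_lit 252) (.e (nat_lit 57406) (nat_lit 12) .nil))))) (.g (nat_lit 0) (.e (nat_lit 360843) (nat_lit 0) .nil) .nil)))))))))) 
(.nd (nat_lit 3) (.nd (nat_lit 4) (.nd (nat_lit 5) (.nd (nat_lit 6) (.nd (nat_lit 7) 
(.nd (nat_lit 8) (.nd (nat_lit 9) 
(.lf (nat_lit 573445) (.g (nat_lit 2393) (.e (nat_lit 483365) (nat_lit 18) (.e (nat_lit 57931) (nat_lit 282) (.e (nat_lit 163867) (nat_lit 2) (.e (nat_lit 196674) (nat_lit 15) (.e (nat_lit 89856) (nat_lit 18) .nil))))) (.g (nat_lit 1) (.e (nat_lit 357888) (nat_lit 0) .nil) .nil))) 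
(.lf (nat_lit 573957) (.g (nat_lit 2676) (.e (nat_lit 483384) (nat_lit 23) (.e (nat_lit 336326) (nat_lit 18) (.e (nat_lit 204829) (nat_lit 18) (.e (nat_lit 57854) (nat_lit 252) (.e (nat_lit 57406) (nat_lit 12) .nil))))) (.g (nat_lit 0) (.e (nat_lit 359250) (nat_lit 0) .nil) .nil)))) (.nd (nat_lit 9) 
(.lf (nat_lit 573701) (.g (nat_lit 801) (.e (nat_lit 483372) (nat_lit 21) (.e (nat_lit 319534) (nat_lit 16) (.e (nat_lit 286720) (nat_lit 0) .nil))) (.g (nat_lit 0) (.e (nat_lit 358440) (nat_lit 0) .nil) .nil))) 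
(.lf (nat_lit 574213) (.g (nat_lit 1779) (.e (nat_lit 483394) (nat_lit 24) (.e (nat_lit 344118) (nat_lit 21) (.e (nat_lit 516119) (nat_lit 1) (.e (nat_lit 164179) (nat_lit 154) (.e (nat_lit 57406) (nat_lit 12) .nil))))) (.g (nat_lit 0) (.e (nat_lit 360109) (nat_lit 0) .nil) .nil))))) (.nd (nat_lit 8) (.nd (nat_lit 9) 
(.lf (nat_lit 573573) (.g (nat_lit 3220) (.e (nat_lit 483366) (nat_lit 18) (.e (nat_lit 57854) (nat_lit 252) (.e (nat_lit 57378) (nat_lit 3) (.e (nat_lit 98307) (nat_lit 0) .nil)))) (.g (nat_lit 0) (.e (nat_lit 358035) (nat_lit 0) .nil) .nil))) 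
(.lf (nat_lit 574085) (.g (nat_lit 1855) (.e (nat_lit 483393) (nat_lit 23) (.e (nat_lit 335988) (nat_lit 1) (.e (nat_lit 57852) (nat_lit 252) (.e (nat_lit 57345) (nat_lit 0) .nil)))) (.g (nat_lit 0) (.e (nat_lit 359749) (nat_lit 0) .nil) .nil)))) (.nd (nat_lit 9) 
(.lf (nat_lit 573829) (.g (nat_lit 2116) (.e (nat_lit 483382) (nat_lit 23) (.e (nat_lit 336324) (nat_lit 18) (.e (nat_lit 204830) (nat_lit 18) (.e (nat_lit 57854) (nat_lit 252) (.e (nat_lit 57405) (nat_lit 12) .nil))))) (.g (nat_lit 0) (.e (nat_lit 358878) (nat_lit 0) .nil) .nil))) 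
(.lf (nat_lit 574341) (.g (nat_lit 398) (.e (nat_lit 483398) (nat_lit 25) (.e (nat_lit 368676) (nat_lit 21) (.e (nat_lit 516119) (nat_lit 1) .nil))) (.g (nat_lit 0) (.e (nat_lit 360457) (nat_lit 0) .nil) .nil)))))) (.nd (nat_lit 7) (.nd (nat_lit 8) (.nd (nat_lit 9) 
(.lf (nat_lit 573509) (.g (nat_lit 1888) (.e (nat_lit 483366) (nat_lit 18) (.e (nat_lit 57848) (nat_lit 252) (.e (nat_lit 57371) (nat_lit 2) (.e (nat_lit 90158) (nat_lit 11) (.e (nat_lit 24628) (nat_lit 9) .nil))))) (.g (nat_lit 0) (.e (nat_lit 357969) (nat_lit 0) .nil) .nil))) 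
(.lf (nat_lit 574021) (.g (nat_lit 2184) (.e (nat_lit 483389) (nat_lit 23) (.e (nat_lit 336295) (nat_lit 15) (.e (nat_lit 3253) (nat_lit 197) (.e (nat_lit 532504) (nat_lit 1) (.e (nat_lit 57851) (nat_lit 252) .nil))))) (.g (nat_lit 0) (.e (nat_lit 359567) (nat_lit 0) .nil) .nil)))) (.nd (nat_lit 9) 
(.lf (nat_lit 573765) (.g (nat_lit 3967) (.e (nat_lit 483380) (nat_lit 23) (.e (nat_lit 336324) (nat_lit 18) (.e (nat_lit 204831) (nat_lit 18) (.e (nat_lit 57846) (nat_lit 252) (.e (nat_lit 57407) (nat_lit 12) (.e (nat_lit 336454) (nat_lit 34) .nil)))))) (.g (nat_lit 1) (.e (nat_lit 358685) (nat_lit 0) .nil) .nil))) 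
(.lf (nat_lit 574277) (.g (nat_lit 377) (.e (nat_lit 483395) (nat_lit 24) (.e (nat_lit 344160) (nat_lit 37) (.e (nat_lit 647203) (nat_lit 14) .nil))) (.g (nat_lit 0) (.e (nat_lit 360299) (nat_lit 0) .nil) .nil))))) (.nd (nat_lit 8) (.nd (nat_lit 9) 
(.lf (nat_lit 573637) (.g (nat_lit 1364) (.e (nat_lit 483371) (nat_lit 21) (.e (nat_lit 319505) (nat_lit 10) (.e (nat_lit 618) (nat_lit 48) (.e (nat_lit 557103) (nat_lit 14) .nil)))) (.g (nat_lit 0) (.e (nat_lit 358158) (nat_lit 0) .nil) .nil))) 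
(.lf (nat_lit 574149) (.g (nat_lit 1666) (.e (nat_lit 483393) (nat_lit 23) (.e (nat_lit 336275) (nat_lit 15) (.e (nat_lit 3632) (nat_lit 227) (.e (nat_lit 778323) (nat_lit 5) (.e (nat_lit 73782) (nat_lit 32) .nil))))) (.g (nat_lit 0) (.e (nat_lit 359987) (nat_lit 0) .nil) .nil)))) (.nd (nat_lit 9) 
(.lf (nat_lit 573893) (.g (nat_lit 4121) (.e (nat_lit 483383) (nat_lit 23) (.e (nat_lit 336324) (nat_lit 18) (.e (nat_lit 204831) (nat_lit 18) (.e (nat_lit 57824) (nat_lit 250) .nil)))) (.g (nat_lit 0) (.e (nat_lit 359112) (nat_lit 0) .nil) .nil))) 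
(.lf (nat_lit 574405) (.g (nat_lit 2117) (.e (nat_lit 483402) (nat_lit 26) (.e (nat_lit 385094) (nat_lit 49) (.e (nat_lit 778323) (nat_lit 5) (.e (nat_lit 73782) (nat_lit 32) (.e (nat_lit 3089) (nat_lit 191) .nil))))) (.g (nat_lit 1) (.e (nat_lit 360678) (nat_lit 0) .nil) .nil))))))) (.nd (nat_lit 6) (.nd (nat_lit 7) (.nd (nat_lit 8) (.nd (nat_lit 9) 
(.lf (nat_lit 573477) (.g (nat_lit 2247) (.e (nat_lit 483366) (nat_lit 18) (.e (nat_lit 57688) (nat_lit 156) (.e (nat_lit 163907) (nat_lit 12) (.e (nat_lit 426438) (nat_lit 18) (.e (nat_lit 98363) (nat_lit 26) .nil))))) (.g (nat_lit 0) (.e (nat_lit 357931) (nat_lit 0) .nil) .nil))) 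
(.lf (nat_lit 573989) (.g (nat_lit 4179) (.e (nat_lit 483385) (nat_lit 23) (.e (nat_lit 336324) (nat_lit 18) (.e (nat_lit 204831) (nat_lit 18) (.e (nat_lit 57849) (nat_lit 252) (.e (nat_lit 57407) (nat_lit 12) (.e (nat_lit 336454) (nat_lit 34) .nil)))))) (.g (nat_lit 1) (.e (nat_lit 359405) (nat_lit 0) .nil) .nil)))) (.nd (nat_lit 9) 
(.lf (nat_lit 573733) (.g (nat_lit 2813) (.e (nat_lit 483378) (nat_lit 23) (.e (nat_lit 336324) (nat_lit 18) (.e (nat_lit 204831) (nat_lit 18) (.e (nat_lit 57846) (nat_lit 252) .nil)))) (.g (nat_lit 0) (.e (nat_lit 358592) (nat_lit 0) .nil) .nil))) 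
(.lf (nat_lit 574245) (.g (nat_lit 2427) (.e (nat_lit 483395) (nat_lit 24) (.e (nat_lit 344117) (nat_lit 21) (.e (nat_lit 516115) (nat_lit 1) (.e (nat_lit 164179) (nat_lit 154) (.e (nat_lit 65280) (nat_lit 12) .nil))))) (.g (nat_lit 0) (.e (nat_lit 360185) (nat_lit 0) .nil) .nil))))) (.nd (nat_lit 8) (.nd (nat_lit 9) 
(.lf (nat_lit 573605) (.g (nat_lit 835) (.e (nat_lit 483366) (nat_lit 18) (.e (nat_lit 57931) (nat_lit 282) (.e (nat_lit 163866) (nat_lit 2) (.e (nat_lit 196673) (nat_lit 15) .nil)))) (.g (nat_lit 0) (.e (nat_lit 358069) (nat_lit 0) .nil) .nil))) 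
(.lf (nat_lit 574117) (.g (nat_lit 2292) (.e (nat_lit 483393) (nat_lit 23) (.e (nat_lit 335995) (nat_lit 1) (.e (nat_lit 57873) (nat_lit 264) (.e (nat_lit 1209) (nat_lit 89) (.e (nat_lit 73782) (nat_lit 32) .nil))))) (.g (nat_lit 0) (.e (nat_lit 359826) (nat_lit 0) .nil) .nil)))) (.nd (nat_lit 9) 
(.lf (nat_lit 573861) (.g (nat_lit 2088) (.e (nat_lit 483383) (nat_lit 23) (.e (nat_lit 336019) (nat_lit 3) (.e (nat_lit 98333) (nat_lit 18) (.e (nat_lit 164176) (nat_lit 154) .nil)))) (.g (nat_lit 0) (.e (nat_lit 359047) (nat_lit 0) .nil) .nil))) 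
(.lf (nat_lit 574373) (.g (nat_lit 1846) (.e (nat_lit 483400) (nat_lit 25) (.e (nat_lit 368676) (nat_lit 21) (.e (nat_lit 516120) (nat_lit 1) (.e (nat_lit 164183) (nat_lit 154) .nil)))) (.g (nat_lit 0) (.e (nat_lit 360562) (nat_lit 0) .nil) .nil)))))) (.nd (nat_lit 7) (.nd (nat_lit 8) (.nd (nat_lit 9) 
(.lf (nat_lit 573541) (.g (nat_lit 1395) (.e (nat_lit 483366) (nat_lit 18) (.e (nat_lit 57849) (nat_lit 252) (.e (nat_lit 57379) (nat_lit 3) (.e (nat_lit 106240) (nat_lit 11) .nil)))) (.g (nat_lit 0) (.e (nat_lit 358002) (nat_lit 0) .nil) .nil))) 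
(.lf (nat_lit 574053) (.g (nat_lit 1928) (.e (nat_lit 483392) (nat_lit 23) (.e (nat_lit 336021) (nat_lit 3) (.e (nat_lit 98317) (nat_lit 9) (.e (nat_lit 335988) (nat_lit 1) (.e (nat_lit 57927) (nat_lit 282) .nil))))) (.g (nat_lit 0) (.e (nat_lit 359646) (nat_lit 0) .nil) .nil)))) (.nd (nat_lit 9) 
(.lf (nat_lit 573797) (.g (nat_lit 2737) (.e (nat_lit 483381) (nat_lit 23) (.e (nat_lit 336324) (nat_lit 18) (.e (nat_lit 204831) (nat_lit 18) (.e (nat_lit 57848) (nat_lit 252) (.e (nat_lit 57407) (nat_lit 12) .nil))))) (.g (nat_lit 0) (.e (nat_lit 358804) (nat_lit 0) .nil) .nil))) 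
(.lf (nat_lit 574309) (.g (nat_lit 1267) (.e (nat_lit 483396) (nat_lit 24) (.e (nat_lit 344161) (nat_lit 37) (.e (nat_lit 647195) (nat_lit 9) (.e (nat_lit 982) (nat_lit 81) .nil)))) (.g (nat_lit 0) (.e (nat_lit 360373) (nat_lit 0) .nil) .nil))))) (.nd (nat_lit 8) (.nd (nat_lit 9) 
(.lf (nat_lit 573669) (.g (nat_lit 2165) (.e (nat_lit 483372) (nat_lit 21) (.e (nat_lit 319505) (nat_lit 10) (.e (nat_lit 618) (nat_lit 48) (.e (nat_lit 557104) (nat_lit 14) (.e (nat_lit 188160) (nat_lit 32) .nil))))) (.g (nat_lit 0) (.e (nat_lit 358291) (nat_lit 0) .nil) .nil))) 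
(.lf (nat_lit 574181) (.g (nat_lit 345) (.e (nat_lit 483394) (nat_lit 24) (.e (nat_lit 344117) (nat_lit 21) (.e (nat_lit 516106) (nat_lit 0) .nil))) (.g (nat_lit 0) (.e (nat_lit 360059) (nat_lit 0) .nil) .nil)))) (.nd (nat_lit 9) 
(.lf (nat_lit 573925) (.g (nat_lit 2287) (.e (nat_lit 483384) (nat_lit 23) (.e (nat_lit 336324) (nat_lit 18) (.e (nat_lit 204829) (nat_lit 18) (.e (nat_lit 57852) (nat_lit 252) (.e (nat_lit 57406) (nat_lit 12) .nil))))) (.g (nat_lit 0) (.e (nat_lit 359201) (nat_lit 0) .nil) .nil))) 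
(.lf (nat_lit 574437) (.g (nat_lit 1463) (.e (nat_lit 483403) (nat_lit 26) (.e (nat_lit 385109) (nat_lit 51) (.e (nat_lit 794645) (nat_lit 20) .nil))) (.g (nat_lit 0) (.e (nat_lit 360776) (nat_lit 0) .nil) .nil)))))))) (.nd (nat_lit 5) (.nd (nat_lit 6) (.nd (nat_lit 7) (.nd (nat_lit 8) (.nd (nat_lit 9) 
(.lf (nat_lit 573461) (.g (nat_lit 2090) (.e (nat_lit 483365) (nat_lit 18) (.e (nat_lit 57931) (nat_lit 282) (.e (nat_lit 163874) (nat_lit 3) (.e (nat_lit 204876) (nat_lit 31) (.e (nat_lit 384768) (nat_lit 18) .nil))))) (.g (nat_lit 1) (.e (nat_lit 357908) (nat_lit 0) .nil) .nil))) 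
(.lf (nat_lit 573973) (.g (nat_lit 3932) (.e (nat_lit 483385) (nat_lit 23) (.e (nat_lit 336324) (nat_lit 18) (.e (nat_lit 204831) (nat_lit 18) (.e (nat_lit 57823) (nat_lit 250) .nil)))) (.g (nat_lit 0) (.e (nat_lit 359372) (nat_lit 0) .nil) .nil)))) (.nd (nat_lit 9) 
(.lf (nat_lit 573717) (.g (nat_lit 2038) (.e (nat_lit 483377) (nat_lit 22) (.e (nat_lit 327692) (nat_lit 1) (.e (nat_lit 8443) (nat_lit 140) (.e (nat_lit 57350) (nat_lit 0) (.e (nat_lit 6113) (nat_lit 332) (.e (nat_lit 2810) (nat_lit 180) (.e (nat_lit 303145) (nat_lit 13) .nil))))))) (.g (nat_lit 1) (.e (nat_lit 358519) (nat_lit 0) .nil) .nil))) 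
(.lf (nat_lit 574229) (.g (nat_lit 1520) (.e (nat_lit 483394) (nat_lit 24) (.e (nat_lit 344160) (nat_lit 37) (.e (nat_lit 647200) (nat_lit 12) (.e (nat_lit 57507) (nat_lit 39) .nil)))) (.g (nat_lit 0) (.e (nat_lit 360147) (nat_lit 0) .nil) .nil))))) (.nd (nat_lit 8) (.nd (nat_lit 9) 
(.lf (nat_lit 573589) (.g (nat_lit 1723) (.e (nat_lit 483366) (nat_lit 18) (.e (nat_lit 57929) (nat_lit 282) (.e (nat_lit 163869) (nat_lit 2) (.e (nat_lit 196674) (nat_lit 15) (.e (nat_lit 89856) (nat_lit 18) .nil))))) (.g (nat_lit 1) (.e (nat_lit 358052) (nat_lit 0) .nil) .nil))) 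
(.lf (nat_lit 574101) (.g (nat_lit 1893) (.e (nat_lit 483393) (nat_lit 23) (.e (nat_lit 335988) (nat_lit 1) (.e (nat_lit 57854) (nat_lit 252) (.e (nat_lit 57347) (nat_lit 0) (.e (nat_lit 2083) (nat_lit 142) .nil))))) (.g (nat_lit 0) (.e (nat_lit 359781) (nat_lit 0) .nil) .nil)))) (.nd (nat_lit 9) 
(.lf (nat_lit 573845) (.g (nat_lit 2164) (.e (nat_lit 483382) (nat_lit 23) (.e (nat_lit 336324) (nat_lit 18) (.e (nat_lit 204831) (nat_lit 18) (.e (nat_lit 57852) (nat_lit 252) (.e (nat_lit 57404) (nat_lit 12) (.e (nat_lit 336452) (nat_lit 34) .nil)))))) (.g (nat_lit 1) (.e (nat_lit 358901) (nat_lit 0) .nil) .nil))) 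
(.lf (nat_lit 574357) (.g (nat_lit 1609) (.e (nat_lit 483399) (nat_lit 25) (.e (nat_lit 368676) (nat_lit 21) (.e (nat_lit 516117) (nat_lit 1) (.e (nat_lit 164184) (nat_lit 155) (.e (nat_lit 122903) (nat_lit 12) .nil))))) (.g (nat_lit 0) (.e (nat_lit 360518) (nat_lit 0) .nil) .nil)))))) (.nd (nat_lit 7) (.nd (nat_lit 8) (.nd (nat_lit 9) 
(.lf (nat_lit 573525) (.g (nat_lit 1654) (.e (nat_lit 483366) (nat_lit 18) (.e (nat_lit 57848) (nat_lit 252) (.e (nat_lit 57374) (nat_lit 2) (.e (nat_lit 90122) (nat_lit 9) .nil)))) (.g (nat_lit 0) (.e (nat_lit 357985) (nat_lit 0) .nil) .nil))) 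
(.lf (nat_lit 574037) (.g (nat_lit 3056) (.e (nat_lit 483391) (nat_lit 23) (.e (nat_lit 336300) (nat_lit 15) (.e (nat_lit 3632) (nat_lit 227) (.e (nat_lit 778323) (nat_lit 5) (.e (nat_lit 73781) (nat_lit 32) (.e (nat_lit 3090) (nat_lit 191) .nil)))))) (.g (nat_lit 1) (.e (nat_lit 359605) (nat_lit 0) .nil) .nil)))) (.nd (nat_lit 9) 
(.lf (nat_lit 573781) (.g (nat_lit 433) (.e (nat_lit 483380) (nat_lit 23) (.e (nat_lit 336332) (nat_lit 19) (.e (nat_lit 212996) (nat_lit 0) .nil))) (.g (nat_lit 0) (.e (nat_lit 358746) (nat_lit 0) .nil) .nil))) 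
(.lf (nat_lit 574293) (.g (nat_lit 2059) (.e (nat_lit 483396) (nat_lit 24) (.e (nat_lit 344117) (nat_lit 21) (.e (nat_lit 516115) (nat_lit 1) (.e (nat_lit 164182) (nat_lit 154) .nil)))) (.g (nat_lit 0) (.e (nat_lit 360323) (nat_lit 0) .nil) .nil))))) (.nd (nat_lit 8) (.nd (nat_lit 9) 
(.lf (nat_lit 573653) (.g (nat_lit 2308) (.e (nat_lit 483372) (nat_lit 21) (.e (nat_lit 319504) (nat_lit 10) (.e (nat_lit 618) (nat_lit 48) (.e (nat_lit 557105) (nat_lit 14) (.e (nat_lit 188160) (nat_lit 32) (.e (nat_lit 491) (nat_lit 39) .nil)))))) (.g (nat_lit 1) (.e (nat_lit 358259) (nat_lit 0) .nil) .nil))) 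
(.lf (nat_lit 574165) (.g (nat_lit 680) (.e (nat_lit 491264) (nat_lit 23) (.e (nat_lit 336027) (nat_lit 3) (.e (nat_lit 98334) (nat_lit 18) .nil))) (.g (nat_lit 0) (.e (nat_lit 360031) (nat_lit 0) .nil) .nil)))) (.nd (nat_lit 9) 
(.lf (nat_lit 573909) (.g (nat_lit 1928) (.e (nat_lit 483383) (nat_lit 23) (.e (nat_lit 336326) (nat_lit 18) (.e (nat_lit 204831) (nat_lit 18) (.e (nat_lit 57852) (nat_lit 252) (.e (nat_lit 65280) (nat_lit 12) .nil))))) (.g (nat_lit 0) (.e (nat_lit 359140) (nat_lit 0) .nil) .nil))) 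
(.lf (nat_lit 574421) (.g (nat_lit 1779) (.e (nat_lit 483403) (nat_lit 26) (.e (nat_lit 385068) (nat_lit 26) (.e (nat_lit 532501) (nat_lit 1) (.e (nat_lit 57850) (nat_lit 252) .nil)))) (.g (nat_lit 0) (.e (nat_lit 360732) (nat_lit 0) .nil) .nil))))))) (.nd (nat_lit 6) (.nd (nat_lit 7) (.nd (nat_lit 8) (.nd (nat_lit 9) 
(.lf (nat_lit 573493) (.g (nat_lit 2367) (.e (nat_lit 483366) (nat_lit 18) (.e (nat_lit 57844) (nat_lit 252) (.e (nat_lit 57371) (nat_lit 2) (.e (nat_lit 90160) (nat_lit 11) (.e (nat_lit 24636) (nat_lit 9) (.e (nat_lit 336453) (nat_lit 34) .nil)))))) (.g (nat_lit 1) (.e (nat_lit 357953) (nat_lit 0) .nil) .nil))) 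
(.lf (nat_lit 574005) (.g (nat_lit 2233) (.e (nat_lit 483386) (nat_lit 23) (.e (nat_lit 336295) (nat_lit 15) (.e (nat_lit 3632) (nat_lit 227) (.e (nat_lit 778323) (nat_lit 5) (.e (nat_lit 73782) (nat_lit 32) (.e (nat_lit 3089) (nat_lit 191) .nil)))))) (.g (nat_lit 1) (.e (nat_lit 359515) (nat_lit 0) .nil) .nil)))) (.nd (nat_lit 9) 
(.lf (nat_lit 573749) (.g (nat_lit 2207) (.e (nat_lit 483380) (nat_lit 23) (.e (nat_lit 336320) (nat_lit 17) (.e (nat_lit 196698) (nat_lit 19) (.e (nat_lit 57811) (nat_lit 246) (.e (nat_lit 57883) (nat_lit 270) (.e (nat_lit 496) (nat_lit 39) .nil)))))) (.g (nat_lit 1) (.e (nat_lit 358647) (nat_lit 0) .nil) .nil))) 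
(.lf (nat_lit 574261) (.g (nat_lit 2816) (.e (nat_lit 483395) (nat_lit 24) (.e (nat_lit 344133) (nat_lit 26) (.e (nat_lit 557091) (nat_lit 12) (.e (nat_lit 163999) (nat_lit 38) (.e (nat_lit 639007) (nat_lit 13) .nil))))) (.g (nat_lit 0) (.e (nat_lit 360258) (nat_lit 0) .nil) .nil))))) (.nd (nat_lit 8) (.nd (nat_lit 9) 
(.lf (nat_lit 573621) (.g (nat_lit 2260) (.e (nat_lit 483366) (nat_lit 18) (.e (nat_lit 57931) (nat_lit 282) (.e (nat_lit 163874) (nat_lit 3) (.e (nat_lit 204878) (nat_lit 31) .nil)))) (.g (nat_lit 0) (.e (nat_lit 358089) (nat_lit 0) .nil) .nil))) 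
(.lf (nat_lit 574133) (.g (nat_lit 2369) (.e (nat_lit 483393) (nat_lit 23) (.e (nat_lit 336021) (nat_lit 3) (.e (nat_lit 98317) (nat_lit 9) (.e (nat_lit 335986) (nat_lit 1) (.e (nat_lit 57931) (nat_lit 282) (.e (nat_lit 163941) (nat_lit 19) .nil)))))) (.g (nat_lit 1) (.e (nat_lit 359953) (nat_lit 0) .nil) .nil)))) (.nd (nat_lit 9) 
(.lf (nat_lit 573877) (.g (nat_lit 2020) (.e (nat_lit 483383) (nat_lit 23) (.e (nat_lit 336240) (nat_lit 15) (.e (nat_lit 3230) (nat_lit 197) (.e (nat_lit 532504) (nat_lit 1) (.e (nat_lit 57851) (nat_lit 252) (.e (nat_lit 57408) (nat_lit 12) (.e (nat_lit 336454) (nat_lit 34) .nil))))))) (.g (nat_lit 1) (.e (nat_lit 359075) (nat_lit 0) .nil) .nil))) 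
(.lf (nat_lit 574389) (.g (nat_lit 1479) (.e (nat_lit 483402) (nat_lit 26) (.e (nat_lit 385066) (nat_lit 26) (.e (nat_lit 532503) (nat_lit 1) (.e (nat_lit 57847) (nat_lit 252) .nil)))) (.g (nat_lit 0) (.e (nat_lit 360645) (nat_lit 0) .nil) .nil)))))) (.nd (nat_lit 7) (.nd (nat_lit 8) (.nd (nat_lit 9) 
(.lf (nat_lit 573557) (.g (nat_lit 2100) (.e (nat_lit 483366) (nat_lit 18) (.e (nat_lit 57854) (nat_lit 252) (.e (nat_lit 57373) (nat_lit 2) (.e (nat_lit 90124) (nat_lit 9) .nil)))) (.g (nat_lit 0) (.e (nat_lit 358018) (nat_lit 0) .nil) .nil))) 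
(.lf (nat_lit 574069) (.g (nat_lit 1888) (.e (nat_lit 483393) (nat_lit 23) (.e (nat_lit 335986) (nat_lit 1) (.e (nat_lit 57854) (nat_lit 252) (.e (nat_lit 57382) (nat_lit 4) (.e (nat_lit 106534) (nat_lit 11) .nil))))) (.g (nat_lit 0) (.e (nat_lit 359697) (nat_lit 0) .nil) .nil)))) (.nd (nat_lit 9) 
(.lf (nat_lit 573813) (.g (nat_lit 2219) (.e (nat_lit 483382) (nat_lit 23) (.e (nat_lit 336019) (nat_lit 3) (.e (nat_lit 98333) (nat_lit 18) (.e (nat_lit 164163) (nat_lit 152) .nil)))) (.g (nat_lit 0) (.e (nat_lit 358852) (nat_lit 0) .nil) .nil))) 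
(.lf (nat_lit 574325) (.g (nat_lit 2123) (.e (nat_lit 483397) (nat_lit 25) (.e (nat_lit 368676) (nat_lit 21) (.e (nat_lit 516119) (nat_lit 1) (.e (nat_lit 164150) (nat_lit 152) .nil)))) (.g (nat_lit 0) (.e (nat_lit 360401) (nat_lit 0) .nil) .nil))))) (.nd (nat_lit 8) (.nd (nat_lit 9) 
(.lf (nat_lit 573685) (.g (nat_lit 1439) (.e (nat_lit 483372) (nat_lit 21) (.e (nat_lit 319530) (nat_lit 16) (.e (nat_lit 286727) (nat_lit 0) (.e (nat_lit 1015) (nat_lit 81) .nil)))) (.g (nat_lit 0) (.e (nat_lit 358343) (nat_lit 0) .nil) .nil))) 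
(.lf (nat_lit 574197) (.g (nat_lit 1709) (.e (nat_lit 483394) (nat_lit 24) (.e (nat_lit 344117) (nat_lit 21) (.e (nat_lit 516118) (nat_lit 1) (.e (nat_lit 164183) (nat_lit 154) .nil)))) (.g (nat_lit 0) (.e (nat_lit 360080) (nat_lit 0) .nil) .nil)))) (.nd (nat_lit 9) 
(.lf (nat_lit 573941) (.g (nat_lit 4197) (.e (nat_lit 483384) (nat_lit 23) (.e (nat_lit 336324) (nat_lit 18) (.e (nat_lit 204831) (nat_lit 18) (.e (nat_lit 57845) (nat_lit 252) .nil)))) (.g (nat_lit 0) (.e (nat_lit 359228) (nat_lit 0) .nil) .nil))) 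
(.lf (nat_lit 574453) (.g (nat_lit 1756) (.e (nat_lit 483405) (nat_lit 26) (.e (nat_lit 385065) (nat_lit 26) (.e (nat_lit 532503) (nat_lit 1) (.e (nat_lit 57848) (nat_lit 252) (.e (nat_lit 57407) (nat_lit 12) .nil))))) (.g (nat_lit 0) (.e (nat_lit 360837) (nat_lit 0) .nil) .nil))))))))) (.nd (nat_lit 4) (.nd (nat_lit 5) (.nd (nat_lit 6) (.nd (nat_lit 7) (.nd (nat_lit 8) (.nd (nat_lit 9) 
(.lf (nat_lit 573453) (.g (nat_lit 3057) (.e (nat_lit 483365) (nat_lit 18) (.e (nat_lit 57931) (nat_lit 282) (.e (nat_lit 163873) (nat_lit 3) (.e (nat_lit 204866) (nat_lit 28) (.e (nat_lit 360192) (nat_lit 18) .nil))))) (.g (nat_lit 1) (.e (nat_lit 357900) (nat_lit 0) .nil) .nil))) 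
(.lf (nat_lit 573965) (.g (nat_lit 1687) (.e (nat_lit 483385) (nat_lit 23) (.e (nat_lit 336019) (nat_lit 3) (.e (nat_lit 98335) (nat_lit 18) (.e (nat_lit 164149) (nat_lit 152) (.e (nat_lit 1204) (nat_lit 88) .nil))))) (.g (nat_lit 0) (.e (nat_lit 359312) (nat_lit 0) .nil) .nil)))) (.nd (nat_lit 9) 
(.lf (nat_lit 573709) (.g (nat_lit 954) (.e (nat_lit 483372) (nat_lit 21) (.e (nat_lit 319534) (nat_lit 16) (.e (nat_lit 286726) (nat_lit 0) .nil))) (.g (nat_lit 0) (.e (nat_lit 358449) (nat_lit 0) .nil) .nil))) 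
(.lf (nat_lit 574221) (.g (nat_lit 2393) (.e (nat_lit 483394) (nat_lit 24) (.e (nat_lit 344169) (nat_lit 40) (.e (nat_lit 671763) (nat_lit 5) (.e (nat_lit 73781) (nat_lit 32) (.e (nat_lit 3088) (nat_lit 191) .nil))))) (.g (nat_lit 1) (.e (nat_lit 360135) (nat_lit 0) .nil) .nil))))) (.nd (nat_lit 8) (.nd (nat_lit 9) 
(.lf (nat_lit 573581) (.g (nat_lit 1718) (.e (nat_lit 483366) (nat_lit 18) (.e (nat_lit 57924) (nat_lit 282) (.e (nat_lit 163867) (nat_lit 2) (.e (nat_lit 196681) (nat_lit 17) (.e (nat_lit 131105) (nat_lit 9) .nil))))) (.g (nat_lit 0) (.e (nat_lit 358044) (nat_lit 0) .nil) .nil))) 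
(.lf (nat_lit 574093) (.g (nat_lit 1827) (.e (nat_lit 483393) (nat_lit 23) (.e (nat_lit 335988) (nat_lit 1) (.e (nat_lit 57852) (nat_lit 252) (.e (nat_lit 57398) (nat_lit 9) .nil)))) (.g (nat_lit 0) (.e (nat_lit 359764) (nat_lit 0) .nil) .nil)))) (.nd (nat_lit 9) 
(.lf (nat_lit 573837) (.g (nat_lit 1523) (.e (nat_lit 483382) (nat_lit 23) (.e (nat_lit 336324) (nat_lit 18) (.e (nat_lit 204831) (nat_lit 18) (.e (nat_lit 57830) (nat_lit 250) (.e (nat_lit 1004) (nat_lit 81) .nil))))) (.g (nat_lit 0) (.e (nat_lit 358886) (nat_lit 0) .nil) .nil))) 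
(.lf (nat_lit 574349) (.g (nat_lit 1309) (.e (nat_lit 483398) (nat_lit 25) (.e (nat_lit 368676) (nat_lit 21) (.e (nat_lit 516195) (nat_lit 26) (.e (nat_lit 335993) (nat_lit 1) .nil)))) (.g (nat_lit 0) (.e (nat_lit 360480) (nat_lit 0) .nil) .nil)))))) (.nd (nat_lit 7) (.nd (nat_lit 8) (.nd (nat_lit 9) 
(.lf (nat_lit 573517) (.g (nat_lit 1902) (.e (nat_lit 483366) (nat_lit 18) (.e (nat_lit 57848) (nat_lit 252) (.e (nat_lit 57372) (nat_lit 2) (.e (nat_lit 90131) (nat_lit 9) .nil)))) (.g (nat_lit 0) (.e (nat_lit 357977) (nat_lit 0) .nil) .nil))) 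
(.lf (nat_lit 574029) (.g (nat_lit 2420) (.e (nat_lit 483390) (nat_lit 23) (.e (nat_lit 336028) (nat_lit 3) (.e (nat_lit 98334) (nat_lit 18) (.e (nat_lit 164182) (nat_lit 154) (.e (nat_lit 57411) (nat_lit 12) .nil))))) (.g (nat_lit 0) (.e (nat_lit 359580) (nat_lit 0) .nil) .nil)))) (.nd (nat_lit 9) 
(.lf (nat_lit 573773) (.g (nat_lit 4084) (.e (nat_lit 483380) (nat_lit 23) (.e (nat_lit 336324) (nat_lit 18) (.e (nat_lit 204831) (nat_lit 18) (.e (nat_lit 57852) (nat_lit 252) (.e (nat_lit 57406) (nat_lit 12) (.e (nat_lit 336454) (nat_lit 34) .nil)))))) (.g (nat_lit 1) (.e (nat_lit 358695) (nat_lit 0) .nil) .nil))) 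
(.lf (nat_lit 574285) (.g (nat_lit 1913) (.e (nat_lit 483396) (nat_lit 24) (.e (nat_lit 344097) (nat_lit 18) (.e (nat_lit 5906) (nat_lit 320) (.e (nat_lit 1209) (nat_lit 89) (.e (nat_lit 73782) (nat_lit 32) .nil))))) (.g (nat_lit 0) (.e (nat_lit 360315) (nat_lit 0) .nil) .nil))))) (.nd (nat_lit 8) (.nd (nat_lit 9) 
(.lf (nat_lit 573645) (.g (nat_lit 1514) (.e (nat_lit 483371) (nat_lit 21) (.e (nat_lit 319534) (nat_lit 16) (.e (nat_lit 286728) (nat_lit 0) (.e (nat_lit 2391) (nat_lit 156) .nil)))) (.g (nat_lit 0) (.e (nat_lit 358241) (nat_lit 0) .nil) .nil))) 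
(.lf (nat_lit 574157) (.g (nat_lit 1599) (.e (nat_lit 491264) (nat_lit 23) (.e (nat_lit 335995) (nat_lit 1) (.e (nat_lit 57872) (nat_lit 264) (.e (nat_lit 1211) (nat_lit 89) (.e (nat_lit 73781) (nat_lit 32) .nil))))) (.g (nat_lit 0) (.e (nat_lit 360010) (nat_lit 0) .nil) .nil)))) (.nd (nat_lit 9) 
(.lf (nat_lit 573901) (.g (nat_lit 2936) (.e (nat_lit 483383) (nat_lit 23) (.e (nat_lit 336324) (nat_lit 18) (.e (nat_lit 204831) (nat_lit 18) (.e (nat_lit 57847) (nat_lit 252) (.e (nat_lit 57411) (nat_lit 12) (.e (nat_lit 336455) (nat_lit 34) .nil)))))) (.g (nat_lit 1) (.e (nat_lit 359122) (nat_lit 0) .nil) .nil))) 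
(.lf (nat_lit 574413) (.g (nat_lit 2691) (.e (nat_lit 483403) (nat_lit 26) (.e (nat_lit 385066) (nat_lit 26) (.e (nat_lit 532500) (nat_lit 1) (.e (nat_lit 57852) (nat_lit 252) (.e (nat_lit 57408) (nat_lit 12) .nil))))) (.g (nat_lit 0) (.e (nat_lit 360709) (nat_lit 0) .nil) .nil))))))) (.nd (nat_lit 6) (.nd (nat_lit 7) (.nd (nat_lit 8) (.nd (nat_lit 9) 
(.lf (nat_lit 573485) (.g (nat_lit 1230) (.e (nat_lit 483366) (nat_lit 18) (.e (nat_lit 57691) (nat_lit 156) (.e (nat_lit 163907) (nat_lit 12) (.e (nat_lit 426438) (nat_lit 18) .nil)))) (.g (nat_lit 0) (.e (nat_lit 357943) (nat_lit 0) .nil) .nil))) 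
(.lf (nat_lit 573997) (.g (nat_lit 1758) (.e (nat_lit 483385) (nat_lit 23) (.e (nat_lit 336326) (nat_lit 18) (.e (nat_lit 204830) (nat_lit 18) (.e (nat_lit 57830) (nat_lit 250) (.e (nat_lit 1004) (nat_lit 81) .nil))))) (.g (nat_lit 0) (.e (nat_lit 359432) (nat_lit 0) .nil) .nil)))) (.nd (nat_lit 9) 
(.lf (nat_lit 573741) (.g (nat_lit 1935) (.e (nat_lit 483379) (nat_lit 23) (.e (nat_lit 336324) (nat_lit 18) (.e (nat_lit 204831) (nat_lit 18) (.e (nat_lit 57852) (nat_lit 252) .nil)))) (.g (nat_lit 0) (.e (nat_lit 358605) (nat_lit 0) .nil) .nil))) 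
(.lf (nat_lit 574253) (.g (nat_lit 761) (.e (nat_lit 483395) (nat_lit 24) (.e (nat_lit 344117) (nat_lit 21) (.e (nat_lit 516118) (nat_lit 1) .nil))) (.g (nat_lit 0) (.e (nat_lit 360202) (nat_lit 0) .nil) .nil))))) (.nd (nat_lit 8) (.nd (nat_lit 9) 
(.lf (nat_lit 573613) (.g (nat_lit 2592) (.e (nat_lit 483366) (nat_lit 18) (.e (nat_lit 57931) (nat_lit 282) (.e (nat_lit 163873) (nat_lit 3) (.e (nat_lit 204866) (nat_lit 28) (.e (nat_lit 360192) (nat_lit 18) .nil))))) (.g (nat_lit 1) (.e (nat_lit 358081) (nat_lit 0) .nil) .nil))) 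
(.lf (nat_lit 574125) (.g (nat_lit 2976) (.e (nat_lit 483393) (nat_lit 23) (.e (nat_lit 336021) (nat_lit 3) (.e (nat_lit 98313) (nat_lit 9) (.e (nat_lit 335987) (nat_lit 1) (.e (nat_lit 57927) (nat_lit 282) (.e (nat_lit 163941) (nat_lit 19) .nil)))))) (.g (nat_lit 1) (.e (nat_lit 359926) (nat_lit 0) .nil) .nil)))) (.nd (nat_lit 9) 
(.lf (nat_lit 573869) (.g (nat_lit 1237) (.e (nat_lit 483383) (nat_lit 23) (.e (nat_lit 336019) (nat_lit 3) (.e (nat_lit 98334) (nat_lit 18) (.e (nat_lit 164181) (nat_lit 154) .nil)))) (.g (nat_lit 0) (.e (nat_lit 359064) (nat_lit 0) .nil) .nil))) 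
(.lf (nat_lit 574381) (.g (nat_lit 1529) (.e (nat_lit 483401) (nat_lit 25) (.e (nat_lit 368676) (nat_lit 21) (.e (nat_lit 516118) (nat_lit 1) (.e (nat_lit 164150) (nat_lit 152) (.e (nat_lit 1204) (nat_lit 88) .nil))))) (.g (nat_lit 0) (.e (nat_lit 360613) (nat_lit 0) .nil) .nil)))))) (.nd (nat_lit 7) (.nd (nat_lit 8) (.nd (nat_lit 9) 
(.lf (nat_lit 573549) (.g (nat_lit 359) (.e (nat_lit 483366) (nat_lit 18) (.e (nat_lit 57854) (nat_lit 252) (.e (nat_lit 57371) (nat_lit 2) .nil))) (.g (nat_lit 0) (.e (nat_lit 358010) (nat_lit 0) .nil) .nil))) 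
(.lf (nat_lit 574061) (.g (nat_lit 1477) (.e (nat_lit 483393) (nat_lit 23) (.e (nat_lit 335986) (nat_lit 1) (.e (nat_lit 57847) (nat_lit 252) (.e (nat_lit 57348) (nat_lit 0) .nil)))) (.g (nat_lit 0) (.e (nat_lit 359665) (nat_lit 0) .nil) .nil)))) (.nd (nat_lit 9) 
(.lf (nat_lit 573805) (.g (nat_lit 3220) (.e (nat_lit 483381) (nat_lit 23) (.e (nat_lit 336324) (nat_lit 18) (.e (nat_lit 204831) (nat_lit 18) (.e (nat_lit 57854) (nat_lit 252) (.e (nat_lit 57406) (nat_lit 12) (.e (nat_lit 336452) (nat_lit 34) .nil)))))) (.g (nat_lit 1) (.e (nat_lit 358815) (nat_lit 0) .nil) .nil))) 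
(.lf (nat_lit 574317) (.g (nat_lit 1767) (.e (nat_lit 483397) (nat_lit 25) (.e (nat_lit 368676) (nat_lit 21) (.e (nat_lit 516115) (nat_lit 1) (.e (nat_lit 164178) (nat_lit 154) .nil)))) (.g (nat_lit 0) (.e (nat_lit 360392) (nat_lit 0) .nil) .nil))))) (.nd (nat_lit 8) (.nd (nat_lit 9) 
(.lf (nat_lit 573677) (.g (nat_lit 873) (.e (nat_lit 483372) (nat_lit 21) (.e (nat_lit 319511) (nat_lit 10) (.e (nat_lit 5664) (nat_lit 312) (.e (nat_lit 2739) (nat_lit 174) .nil)))) (.g (nat_lit 0) (.e (nat_lit 358317) (nat_lit 0) .nil) .nil))) 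
(.lf (nat_lit 574189) (.g (nat_lit 2336) (.e (nat_lit 483394) (nat_lit 24) (.e (nat_lit 344117) (nat_lit 21) (.e (nat_lit 516115) (nat_lit 1) (.e (nat_lit 164163) (nat_lit 152) .nil)))) (.g (nat_lit 0) (.e (nat_lit 360069) (nat_lit 0) .nil) .nil)))) (.nd (nat_lit 9) 
(.lf (nat_lit 573933) (.g (nat_lit 4421) (.e (nat_lit 483384) (nat_lit 23) (.e (nat_lit 336324) (nat_lit 18) (.e (nat_lit 204831) (nat_lit 18) (.e (nat_lit 57824) (nat_lit 250) .nil)))) (.g (nat_lit 0) (.e (nat_lit 359216) (nat_lit 0) .nil) .nil))) 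
(.lf (nat_lit 574445) (.g (nat_lit 399) (.e (nat_lit 483404) (nat_lit 26) (.e (nat_lit 385093) (nat_lit 49) (.e (nat_lit 778323) (nat_lit 5) .nil))) (.g (nat_lit 0) (.e (nat_lit 360813) (nat_lit 0) .nil) .nil)))))))) (.nd (nat_lit 5) (.nd (nat_lit 6) (.nd (nat_lit 7) (.nd (nat_lit 8) (.nd (nat_lit 9) 
(.lf (nat_lit 573469) (.g (nat_lit 2468) (.e (nat_lit 483366) (nat_lit 18) (.e (nat_lit 57688) (nat_lit 156) (.e (nat_lit 163903) (nat_lit 12) (.e (nat_lit 426436) (nat_lit 18) (.e (nat_lit 98358) (nat_lit 26) (.e (nat_lit 433920) (nat_lit 13) .nil)))))) (.g (nat_lit 1) (.e (nat_lit 357922) (nat_lit 0) .nil) .nil))) 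
(.lf (nat_lit 573981) (.g (nat_lit 5128) (.e (nat_lit 483385) (nat_lit 23) (.e (nat_lit 336324) (nat_lit 18) (.e (nat_lit 204831) (nat_lit 18) (.e (nat_lit 57833) (nat_lit 250) .nil)))) (.g (nat_lit 0) (.e (nat_lit 359392) (nat_lit 0) .nil) .nil)))) (.nd (nat_lit 9) 
(.lf (nat_lit 573725) (.g (nat_lit 780) (.e (nat_lit 483378) (nat_lit 23) (.e (nat_lit 336028) (nat_lit 3) (.e (nat_lit 98332) (nat_lit 18) .nil))) (.g (nat_lit 0) (.e (nat_lit 358583) (nat_lit 0) .nil) .nil))) 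
(.lf (nat_lit 574237) (.g (nat_lit 1289) (.e (nat_lit 483395) (nat_lit 24) (.e (nat_lit 344097) (nat_lit 18) (.e (nat_lit 5907) (nat_lit 320) (.e (nat_lit 1189) (nat_lit 88) .nil)))) (.g (nat_lit 0) (.e (nat_lit 360163) (nat_lit 0) .nil) .nil))))) (.nd (nat_lit 8) (.nd (nat_lit 9) 
(.lf (nat_lit 573597) (.g (nat_lit 720) (.e (nat_lit 483366) (nat_lit 18) (.e (nat_lit 57930) (nat_lit 282) (.e (nat_lit 163866) (nat_lit 2) (.e (nat_lit 196681) (nat_lit 17) .nil)))) (.g (nat_lit 0) (.e (nat_lit 358061) (nat_lit 0) .nil) .nil))) 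
(.lf (nat_lit 574109) (.g (nat_lit 3270) (.e (nat_lit 483393) (nat_lit 23) (.e (nat_lit 335988) (nat_lit 1) (.e (nat_lit 57854) (nat_lit 252) (.e (nat_lit 57388) (nat_lit 5) (.e (nat_lit 114698) (nat_lit 11) (.e (nat_lit 426326) (nat_lit 13) .nil)))))) (.g (nat_lit 1) (.e (nat_lit 359800) (nat_lit 0) .nil) .nil)))) (.nd (nat_lit 9) 
(.lf (nat_lit 573853) (.g (nat_lit 2033) (.e (nat_lit 483383) (nat_lit 23) (.e (nat_lit 336000) (nat_lit 1) (.e (nat_lit 57846) (nat_lit 252) (.e (nat_lit 57390) (nat_lit 5) (.e (nat_lit 114698) (nat_lit 11) (.e (nat_lit 426334) (nat_lit 13) .nil)))))) (.g (nat_lit 1) (.e (nat_lit 359014) (nat_lit 0) .nil) .nil))) 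
(.lf (nat_lit 574365) (.g (nat_lit 4125) (.e (nat_lit 483399) (nat_lit 25) (.e (nat_lit 368676) (nat_lit 21) (.e (nat_lit 516195) (nat_lit 26) (.e (nat_lit 335988) (nat_lit 1) (.e (nat_lit 57931) (nat_lit 282) (.e (nat_lit 163943) (nat_lit 19) .nil)))))) (.g (nat_lit 1) (.e (nat_lit 360542) (nat_lit 0) .nil) .nil)))))) (.nd (nat_lit 7) (.nd (nat_lit 8) (.nd (nat_lit 9) 
(.lf (nat_lit 573533) (.g (nat_lit 2756) (.e (nat_lit 483366) (nat_lit 18) (.e (nat_lit 57848) (nat_lit 252) (.e (nat_lit 57375) (nat_lit 2) (.e (nat_lit 90159) (nat_lit 11) (.e (nat_lit 24628) (nat_lit 9) (.e (nat_lit 336454) (nat_lit 34) .nil)))))) (.g (nat_lit 1) (.e (nat_lit 357994) (nat_lit 0) .nil) .nil))) 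
(.lf (nat_lit 574045) (.g (nat_lit 1231) (.e (nat_lit 483392) (nat_lit 23) (.e (nat_lit 335995) (nat_lit 1) (.e (nat_lit 57870) (nat_lit 264) (.e (nat_lit 1210) (nat_lit 89) .nil)))) (.g (nat_lit 0) (.e (nat_lit 359626) (nat_lit 0) .nil) .nil)))) (.nd (nat_lit 9) 
(.lf (nat_lit 573789) (.g (nat_lit 1925) (.e (nat_lit 483381) (nat_lit 23) (.e (nat_lit 336324) (nat_lit 18) (.e (nat_lit 204831) (nat_lit 18) (.e (nat_lit 57830) (nat_lit 250) .nil)))) (.g (nat_lit 0) (.e (nat_lit 358795) (nat_lit 0) .nil) .nil))) 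
(.lf (nat_lit 574301) (.g (nat_lit 1803) (.e (nat_lit 483396) (nat_lit 24) (.e (nat_lit 344133) (nat_lit 26) (.e (nat_lit 557091) (nat_lit 12) (.e (nat_lit 164000) (nat_lit 38) .nil)))) (.g (nat_lit 0) (.e (nat_lit 360356) (nat_lit 0) .nil) .nil))))) (.nd (nat_lit 8) (.nd (nat_lit 9) 
(.lf (nat_lit 573661) (.g (nat_lit 485) (.e (nat_lit 483372) (nat_lit 21) (.e (nat_lit 319504) (nat_lit 10) (.e (nat_lit 5714) (nat_lit 312) .nil))) (.g (nat_lit 0) (.e (nat_lit 358271) (nat_lit 0) .nil) .nil))) 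
(.lf (nat_lit 574173) (.g (nat_lit 3104) (.e (nat_lit 491264) (nat_lit 23) (.e (nat_lit 336324) (nat_lit 18) (.e (nat_lit 204831) (nat_lit 18) (.e (nat_lit 57854) (nat_lit 252) (.e (nat_lit 57406) (nat_lit 12) .nil))))) (.g (nat_lit 0) (.e (nat_lit 360039) (nat_lit 0) .nil) .nil)))) (.nd (nat_lit 9) 
(.lf (nat_lit 573917) (.g (nat_lit 1579) (.e (nat_lit 483384) (nat_lit 23) (.e (nat_lit 336019) (nat_lit 3) (.e (nat_lit 98333) (nat_lit 18) (.e (nat_lit 164178) (nat_lit 154) .nil)))) (.g (nat_lit 0) (.e (nat_lit 359177) (nat_lit 0) .nil) .nil))) 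
(.lf (nat_lit 574429) (.g (nat_lit 2515) (.e (nat_lit 483403) (nat_lit 26) (.e (nat_lit 385093) (nat_lit 49) (.e (nat_lit 778323) (nat_lit 5) (.e (nat_lit 73781) (nat_lit 32) (.e (nat_lit 3089) (nat_lit 191) .nil))))) (.g (nat_lit 1) (.e (nat_lit 360752) (nat_lit 0) .nil) .nil))))))) (.nd (nat_lit 6) (.nd (nat_lit 7) (.nd (nat_lit 8) (.nd (nat_lit 9) 
(.lf (nat_lit 573501) (.g (nat_lit 1405) (.e (nat_lit 483366) (nat_lit 18) (.e (nat_lit 57846) (nat_lit 252) (.e (nat_lit 57379) (nat_lit 3) (.e (nat_lit 98315) (nat_lit 9) .nil)))) (.g (nat_lit 0) (.e (nat_lit 357961) (nat_lit 0) .nil) .nil))) 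
(.lf (nat_lit 574013) (.g (nat_lit 2004) (.e (nat_lit 483387) (nat_lit 23) (.e (nat_lit 336282) (nat_lit 15) (.e (nat_lit 3632) (nat_lit 227) (.e (nat_lit 778323) (nat_lit 5) (.e (nat_lit 73782) (nat_lit 32) .nil))))) (.g (nat_lit 0) (.e (nat_lit 359548) (nat_lit 0) .nil) .nil)))) (.nd (nat_lit 9) 
(.lf (nat_lit 573757) (.g (nat_lit 3850) (.e (nat_lit 483380) (nat_lit 23) (.e (nat_lit 336324) (nat_lit 18) (.e (nat_lit 204831) (nat_lit 18) (.e (nat_lit 57824) (nat_lit 250) .nil)))) (.g (nat_lit 0) (.e (nat_lit 358670) (nat_lit 0) .nil) .nil))) 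
(.lf (nat_lit 574269) (.g (nat_lit 2622) (.e (nat_lit 483395) (nat_lit 24) (.e (nat_lit 344168) (nat_lit 40) (.e (nat_lit 671763) (nat_lit 5) (.e (nat_lit 73782) (nat_lit 32) (.e (nat_lit 3088) (nat_lit 191) .nil))))) (.g (nat_lit 1) (.e (nat_lit 360283) (nat_lit 0) .nil) .nil))))) (.nd (nat_lit 8) (.nd (nat_lit 9) 
(.lf (nat_lit 573629) (.g (nat_lit 1278) (.e (nat_lit 483368) (nat_lit 19) (.e (nat_lit 123194) (nat_lit 266) (.e (nat_lit 57347) (nat_lit 0) (.e (nat_lit 1829) (nat_lit 122) (.e (nat_lit 540703) (nat_lit 11) .nil))))) (.g (nat_lit 0) (.e (nat_lit 358105) (nat_lit 0) .nil) .nil))) 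
(.lf (nat_lit 574141) (.g (nat_lit 1966) (.e (nat_lit 483393) (nat_lit 23) (.e (nat_lit 336021) (nat_lit 3) (.e (nat_lit 98335) (nat_lit 18) (.e (nat_lit 164182) (nat_lit 154) .nil)))) (.g (nat_lit 0) (.e (nat_lit 359971) (nat_lit 0) .nil) .nil)))) (.nd (nat_lit 9) 
(.lf (nat_lit 573885) (.g (nat_lit 438) (.e (nat_lit 483383) (nat_lit 23) (.e (nat_lit 336316) (nat_lit 17) (.e (nat_lit 196661) (nat_lit 12) .nil))) (.g (nat_lit 0) (.e (nat_lit 359085) (nat_lit 0) .nil) .nil))) 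
(.lf (nat_lit 574397) (.g (nat_lit 2230) (.e (nat_lit 483402) (nat_lit 26) (.e (nat_lit 385068) (nat_lit 26) (.e (nat_lit 532503) (nat_lit 1) (.e (nat_lit 57849) (nat_lit 252) (.e (nat_lit 57411) (nat_lit 12) .nil))))) (.g (nat_lit 0) (.e (nat_lit 360657) (nat_lit 0) .nil) .nil)))))) (.nd (nat_lit 7) (.nd (nat_lit 8) (.nd (nat_lit 9) 
(.lf (nat_lit 573565) (.g (nat_lit 3179) (.e (nat_lit 483366) (nat_lit 18) (.e (nat_lit 57854) (nat_lit 252) (.e (nat_lit 57373) (nat_lit 2) (.e (nat_lit 90154) (nat_lit 10) .nil)))) (.g (nat_lit 0) (.e (nat_lit 358026) (nat_lit 0) .nil) .nil))) 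
(.lf (nat_lit 574077) (.g (nat_lit 1822) (.e (nat_lit 483393) (nat_lit 23) (.e (nat_lit 335987) (nat_lit 1) (.e (nat_lit 57854) (nat_lit 252) (.e (nat_lit 57347) (nat_lit 0) (.e (nat_lit 2075) (nat_lit 142) .nil))))) (.g (nat_lit 0) (.e (nat_lit 359722) (nat_lit 0) .nil) .nil)))) (.nd (nat_lit 9) 
(.lf (nat_lit 573821) (.g (nat_lit 1926) (.e (nat_lit 483382) (nat_lit 23) (.e (nat_lit 336320) (nat_lit 17) (.e (nat_lit 196698) (nat_lit 19) (.e (nat_lit 57809) (nat_lit 246) (.e (nat_lit 57883) (nat_lit 270) (.e (nat_lit 496) (nat_lit 39) .nil)))))) (.g (nat_lit 1) (.e (nat_lit 358861) (nat_lit 0) .nil) .nil))) 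
(.lf (nat_lit 574333) (.g (nat_lit 1420) (.e (nat_lit 483398) (nat_lit 25) (.e (nat_lit 368676) (nat_lit 21) (.e (nat_lit 516115) (nat_lit 1) (.e (nat_lit 164178) (nat_lit 154) (.e (nat_lit 57408) (nat_lit 12) .nil))))) (.g (nat_lit 0) (.e (nat_lit 360437) (nat_lit 0) .nil) .nil))))) (.nd (nat_lit 8) (.nd (nat_lit 9) 
(.lf (nat_lit 573693) (.g (nat_lit 326) (.e (nat_lit 483372) (nat_lit 21) (.e (nat_lit 319533) (nat_lit 16) (.e (nat_lit 286720) (nat_lit 0) .nil))) (.g (nat_lit 0) (.e (nat_lit 358403) (nat_lit 0) .nil) .nil))) 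
(.lf (nat_lit 574205) (.g (nat_lit 2103) (.e (nat_lit 483394) (nat_lit 24) (.e (nat_lit 344117) (nat_lit 21) (.e (nat_lit 516195) (nat_lit 26) (.e (nat_lit 335988) (nat_lit 1) (.e (nat_lit 57927) (nat_lit 282) (.e (nat_lit 163942) (nat_lit 19) .nil)))))) (.g (nat_lit 1) (.e (nat_lit 360101) (nat_lit 0) .nil) .nil)))) (.nd (nat_lit 9) 
(.lf (nat_lit 573949) (.g (nat_lit 2878) (.e (nat_lit 483384) (nat_lit 23) (.e (nat_lit 336324) (nat_lit 18) (.e (nat_lit 204831) (nat_lit 18) (.e (nat_lit 57851) (nat_lit 252) (.e (nat_lit 57406) (nat_lit 12) (.e (nat_lit 336454) (nat_lit 34) .nil)))))) (.g (nat_lit 1) (.e (nat_lit 359238) (nat_lit 0) .nil) .nil))) 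
(.lf (nat_lit 574461) (.g (nat_lit 413) (.e (nat_lit 483405) (nat_lit 26) (.e (nat_lit 385066) (nat_lit 26) (.e (nat_lit 532503) (nat_lit 1) .nil))) (.g (nat_lit 0) (.e (nat_lit 360858) (nat_lit 0) .nil) .nil))))))))))) (.nd (nat_lit 2) (.nd (nat_lit 3) (.nd (nat_lit 4) (.nd (nat_lit 5) (.nd (nat_lit 6) (.nd (nat_lit 7) (.nd (nat_lit 8) (.nd (nat_lit 9) 
(.lf (nat_lit 573443) (.g (nat_lit 2316) (.e (nat_lit 483365) (nat_lit 18) (.e (nat_lit 57931) (nat_lit 282) (.e (nat_lit 163867) (nat_lit 2) (.e (nat_lit 196672) (nat_lit 15) (.e (nat_lit 89856) (nat_lit 18) .nil))))) (.g (nat_lit 1) (.e (nat_lit 357886) (nat_lit 0) .nil) .nil))) 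
(.lf (nat_lit 573955) (.g (nat_lit 1604) (.e (nat_lit 483384) (nat_lit 23) (.e (nat_lit 336325) (nat_lit 18) (.e (nat_lit 204829) (nat_lit 18) (.e (nat_lit 57847) (nat_lit 252) (.e (nat_lit 57407) (nat_lit 12) .nil))))) (.g (nat_lit 0) (.e (nat_lit 359247) (nat_lit 0) .nil) .nil)))) (.nd (nat_lit 9) 
(.lf (nat_lit 573699) (.g (nat_lit 869) (.e (nat_lit 483372) (nat_lit 21) (.e (nat_lit 319533) (nat_lit 16) (.e (nat_lit 286731) (nat_lit 1) (.e (nat_lit 57657) (nat_lit 152) .nil)))) (.g (nat_lit 0) (.e (nat_lit 358420) (nat_lit 0) .nil) .nil))) 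
(.lf (nat_lit 574211) (.g (nat_lit 2047) (.e (nat_lit 483394) (nat_lit 24) (.e (nat_lit 344117) (nat_lit 21) (.e (nat_lit 516195) (nat_lit 26) (.e (nat_lit 335995) (nat_lit 1) (.e (nat_lit 57931) (nat_lit 282) (.e (nat_lit 163942) (nat_lit 19) .nil)))))) (.g (nat_lit 1) (.e (nat_lit 360107) (nat_lit 0) .nil) .nil))))) (.nd (nat_lit 8) (.nd (nat_lit 9) 
(.lf (nat_lit 573571) (.g (nat_lit 434) (.e (nat_lit 483366) (nat_lit 18) (.e (nat_lit 57854) (nat_lit 252) (.e (nat_lit 57376) (nat_lit 3) .nil))) (.g (nat_lit 0) (.e (nat_lit 358033) (nat_lit 0) .nil) .nil))) 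
(.lf (nat_lit 574083) (.g (nat_lit 1395) (.e (nat_lit 483393) (nat_lit 23) (.e (nat_lit 335988) (nat_lit 1) (.e (nat_lit 57851) (nat_lit 252) (.e (nat_lit 57347) (nat_lit 0) .nil)))) (.g (nat_lit 0) (.e (nat_lit 359745) (nat_lit 0) .nil) .nil)))) (.nd (nat_lit 9) 
(.lf (nat_lit 573827) (.g (nat_lit 437) (.e (nat_lit 483382) (nat_lit 23) (.e (nat_lit 336324) (nat_lit 18) (.e (nat_lit 204830) (nat_lit 18) .nil))) (.g (nat_lit 0) (.e (nat_lit 358868) (nat_lit 0) .nil) .nil))) 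
(.lf (nat_lit 574339) (.g (nat_lit 414) (.e (nat_lit 483398) (nat_lit 25) (.e (nat_lit 368676) (nat_lit 21) (.e (nat_lit 516118) (nat_lit 1) .nil))) (.g (nat_lit 0) (.e (nat_lit 360455) (nat_lit 0) .nil) .nil)))))) (.nd (nat_lit 7) (.nd (nat_lit 8) (.nd (nat_lit 9) 
(.lf (nat_lit 573507) (.g (nat_lit 1711) (.e (nat_lit 483366) (nat_lit 18) (.e (nat_lit 57847) (nat_lit 252) (.e (nat_lit 57375) (nat_lit 2) (.e (nat_lit 90128) (nat_lit 9) (.e (nat_lit 309) (nat_lit 23) .nil))))) (.g (nat_lit 0) (.e (nat_lit 357967) (nat_lit 0) .nil) .nil))) 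
(.lf (nat_lit 574019) (.g (nat_lit 795) (.e (nat_lit 483389) (nat_lit 23) (.e (nat_lit 336028) (nat_lit 3) (.e (nat_lit 98333) (nat_lit 18) .nil))) (.g (nat_lit 0) (.e (nat_lit 359565) (nat_lit 0) .nil) .nil)))) (.nd (nat_lit 9) 
(.lf (nat_lit 573763) (.g (nat_lit 3935) (.e (nat_lit 483380) (nat_lit 23) (.e (nat_lit 336324) (nat_lit 18) (.e (nat_lit 204831) (nat_lit 18) (.e (nat_lit 57834) (nat_lit 250) .nil)))) (.g (nat_lit 0) (.e (nat_lit 358682) (nat_lit 0) .nil) .nil))) 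
(.lf (nat_lit 574275) (.g (nat_lit 1481) (.e (nat_lit 483395) (nat_lit 24) (.e (nat_lit 344160) (nat_lit 37) (.e (nat_lit 647200) (nat_lit 12) (.e (nat_lit 57502) (nat_lit 38) .nil)))) (.g (nat_lit 0) (.e (nat_lit 360297) (nat_lit 0) .nil) .nil))))) (.nd (nat_lit 8) (.nd (nat_lit 9) 
(.lf (nat_lit 573635) (.g (nat_lit 1207) (.e (nat_lit 483370) (nat_lit 20) (.e (nat_lit 147504) (nat_lit 12) (.e (nat_lit 164056) (nat_lit 56) (.e (nat_lit 786457) (nat_lit 18) (.e (nat_lit 98365) (nat_lit 26) (.e (nat_lit 426325) (nat_lit 13) .nil)))))) (.g (nat_lit 1) (.e (nat_lit 358155) (nat_lit 0) .nil) .nil))) 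
(.lf (nat_lit 574147) (.g (nat_lit 1923) (.e (nat_lit 483393) (nat_lit 23) (.e (nat_lit 336027) (nat_lit 3) (.e (nat_lit 98335) (nat_lit 18) (.e (nat_lit 164179) (nat_lit 154) .nil)))) (.g (nat_lit 0) (.e (nat_lit 359984) (nat_lit 0) .nil) .nil)))) (.nd (nat_lit 9) 
(.lf (nat_lit 573891) (.g (nat_lit 4123) (.e (nat_lit 483383) (nat_lit 23) (.e (nat_lit 336324) (nat_lit 18) (.e (nat_lit 204831) (nat_lit 18) (.e (nat_lit 57822) (nat_lit 250) .nil)))) (.g (nat_lit 0) (.e (nat_lit 359110) (nat_lit 0) .nil) .nil))) 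
(.lf (nat_lit 574403) (.g (nat_lit 2204) (.e (nat_lit 483402) (nat_lit 26) (.e (nat_lit 385093) (nat_lit 49) (.e (nat_lit 778324) (nat_lit 5) (.e (nat_lit 73781) (nat_lit 32) (.e (nat_lit 3089) (nat_lit 191) .nil))))) (.g (nat_lit 1) (.e (nat_lit 360676) (nat_lit 0) .nil) .nil))))))) (.nd (nat_lit 6) (.nd (nat_lit 7) (.nd (nat_lit 8) (.nd (nat_lit 9) 
(.lf (nat_lit 573475) (.g (nat_lit 3067) (.e (nat_lit 483366) (nat_lit 18) (.e (nat_lit 57688) (nat_lit 156) (.e (nat_lit 163907) (nat_lit 12) (.e (nat_lit 426428) (nat_lit 17) (.e (nat_lit 90170) (nat_lit 13) (.e (nat_lit 172123) (nat_lit 13) .nil)))))) (.g (nat_lit 1) (.e (nat_lit 357928) (nat_lit 0) .nil) .nil))) 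
(.lf (nat_lit 573987) (.g (nat_lit 3752) (.e (nat_lit 483385) (nat_lit 23) (.e (nat_lit 336324) (nat_lit 18) (.e (nat_lit 204831) (nat_lit 18) (.e (nat_lit 57847) (nat_lit 252) (.e (nat_lit 57411) (nat_lit 12) (.e (nat_lit 336454) (nat_lit 34) .nil)))))) (.g (nat_lit 1) (.e (nat_lit 359403) (nat_lit 0) .nil) .nil)))) (.nd (nat_lit 9) 
(.lf (nat_lit 573731) (.g (nat_lit 3754) (.e (nat_lit 483378) (nat_lit 23) (.e (nat_lit 336324) (nat_lit 18) (.e (nat_lit 204831) (nat_lit 18) (.e (nat_lit 57830) (nat_lit 250) .nil)))) (.g (nat_lit 0) (.e (nat_lit 358590) (nat_lit 0) .nil) .nil))) 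
(.lf (nat_lit 574243) (.g (nat_lit 1789) (.e (nat_lit 483395) (nat_lit 24) (.e (nat_lit 344117) (nat_lit 21) (.e (nat_lit 516115) (nat_lit 1) (.e (nat_lit 164148) (nat_lit 152) .nil)))) (.g (nat_lit 0) (.e (nat_lit 360182) (nat_lit 0) .nil) .nil))))) (.nd (nat_lit 8) (.nd (nat_lit 9) 
(.lf (nat_lit 573603) (.g (nat_lit 1425) (.e (nat_lit 483366) (nat_lit 18) (.e (nat_lit 57930) (nat_lit 282) (.e (nat_lit 163873) (nat_lit 3) (.e (nat_lit 204878) (nat_lit 31) .nil)))) (.g (nat_lit 0) (.e (nat_lit 358067) (nat_lit 0) .nil) .nil))) 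
(.lf (nat_lit 574115) (.g (nat_lit 1227) (.e (nat_lit 483393) (nat_lit 23) (.e (nat_lit 335995) (nat_lit 1) (.e (nat_lit 57872) (nat_lit 264) (.e (nat_lit 1210) (nat_lit 89) .nil)))) (.g (nat_lit 0) (.e (nat_lit 359824) (nat_lit 0) .nil) .nil)))) (.nd (nat_lit 9) 
(.lf (nat_lit 573859) (.g (nat_lit 1925) (.e (nat_lit 483383) (nat_lit 23) (.e (nat_lit 336019) (nat_lit 3) (.e (nat_lit 98333) (nat_lit 18) (.e (nat_lit 164160) (nat_lit 152) .nil)))) (.g (nat_lit 0) (.e (nat_lit 359043) (nat_lit 0) .nil) .nil))) 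
(.lf (nat_lit 574371) (.g (nat_lit 1957) (.e (nat_lit 483400) (nat_lit 25) (.e (nat_lit 368676) (nat_lit 21) (.e (nat_lit 516118) (nat_lit 1) (.e (nat_lit 164183) (nat_lit 154) (.e (nat_lit 57411) (nat_lit 12) .nil))))) (.g (nat_lit 0) (.e (nat_lit 360560) (nat_lit 0) .nil) .nil)))))) (.nd (nat_lit 7) (.nd (nat_lit 8) (.nd (nat_lit 9) 
(.lf (nat_lit 573539) (.g (nat_lit 2487) (.e (nat_lit 483366) (nat_lit 18) (.e (nat_lit 57849) (nat_lit 252) (.e (nat_lit 57375) (nat_lit 2) (.e (nat_lit 90128) (nat_lit 9) (.e (nat_lit 334) (nat_lit 26) .nil))))) (.g (nat_lit 0) (.e (nat_lit 358000) (nat_lit 0) .nil) .nil))) 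
(.lf (nat_lit 574051) (.g (nat_lit 1494) (.e (nat_lit 483392) (nat_lit 23) (.e (nat_lit 336021) (nat_lit 3) (.e (nat_lit 98317) (nat_lit 9) (.e (nat_lit 335986) (nat_lit 1) .nil)))) (.g (nat_lit 0) (.e (nat_lit 359644) (nat_lit 0) .nil) .nil)))) (.nd (nat_lit 9) 
(.lf (nat_lit 573795) (.g (nat_lit 3158) (.e (nat_lit 483381) (nat_lit 23) (.e (nat_lit 336324) (nat_lit 18) (.e (nat_lit 204831) (nat_lit 18) (.e (nat_lit 57847) (nat_lit 252) (.e (nat_lit 57407) (nat_lit 12) .nil))))) (.g (nat_lit 0) (.e (nat_lit 358802) (nat_lit 0) .nil) .nil))) 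
(.lf (nat_lit 574307) (.g (nat_lit 1727) (.e (nat_lit 483396) (nat_lit 24) (.e (nat_lit 344160) (nat_lit 37) (.e (nat_lit 647195) (nat_lit 9) (.e (nat_lit 982) (nat_lit 81) .nil)))) (.g (nat_lit 0) (.e (nat_lit 360369) (nat_lit 0) .nil) .nil))))) (.nd (nat_lit 8) (.nd (nat_lit 9) 
(.lf (nat_lit 573667) (.g (nat_lit 3261) (.e (nat_lit 483372) (nat_lit 21) (.e (nat_lit 319505) (nat_lit 10) (.e (nat_lit 618) (nat_lit 48) (.e (nat_lit 557103) (nat_lit 14) (.e (nat_lit 188160) (nat_lit 32) (.e (nat_lit 491) (nat_lit 39) .nil)))))) (.g (nat_lit 1) (.e (nat_lit 358288) (nat_lit 0) .nil) .nil))) 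
(.lf (nat_lit 574179) (.g (nat_lit 1667) (.e (nat_lit 483394) (nat_lit 24) (.e (nat_lit 344100) (nat_lit 18) (.e (nat_lit 5907) (nat_lit 320) (.e (nat_lit 1209) (nat_lit 89) (.e (nat_lit 73781) (nat_lit 32) .nil))))) (.g (nat_lit 0) (.e (nat_lit 360052) (nat_lit 0) .nil) .nil)))) (.nd (nat_lit 9) 
(.lf (nat_lit 573923) (.g (nat_lit 1431) (.e (nat_lit 483384) (nat_lit 23) (.e (nat_lit 336019) (nat_lit 3) (.e (nat_lit 98335) (nat_lit 18) (.e (nat_lit 164149) (nat_lit 152) .nil)))) (.g (nat_lit 0) (.e (nat_lit 359186) (nat_lit 0) .nil) .nil))) 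
(.lf (nat_lit 574435) (.g (nat_lit 1463) (.e (nat_lit 483403) (nat_lit 26) (.e (nat_lit 385109) (nat_lit 51) (.e (nat_lit 794626) (nat_lit 0) .nil))) (.g (nat_lit 0) (.e (nat_lit 360773) (nat_lit 0) .nil) .nil)))))))) (.nd (nat_lit 5) (.nd (nat_lit 6) (.nd (nat_lit 7) (.nd (nat_lit 8) (.nd (nat_lit 9) 
(.lf (nat_lit 573459) (.g (nat_lit 2968) (.e (nat_lit 483365) (nat_lit 18) (.e (nat_lit 57931) (nat_lit 282) (.e (nat_lit 163874) (nat_lit 3) (.e (nat_lit 204867) (nat_lit 28) (.e (nat_lit 360192) (nat_lit 18) .nil))))) (.g (nat_lit 1) (.e (nat_lit 357906) (nat_lit 0) .nil) .nil))) 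
(.lf (nat_lit 573971) (.g (nat_lit 271) (.e (nat_lit 483385) (nat_lit 23) (.e (nat_lit 336324) (nat_lit 18) (.e (nat_lit 204831) (nat_lit 18) .nil))) (.g (nat_lit 0) (.e (nat_lit 359370) (nat_lit 0) .nil) .nil)))) (.nd (nat_lit 9) 
(.lf (nat_lit 573715) (.g (nat_lit 627) (.e (nat_lit 483372) (nat_lit 21) (.e (nat_lit 319534) (nat_lit 16) (.e (nat_lit 286764) (nat_lit 15) .nil))) (.g (nat_lit 0) (.e (nat_lit 358469) (nat_lit 0) .nil) .nil))) 
(.lf (nat_lit 574227) (.g (nat_lit 1722) (.e (nat_lit 483394) (nat_lit 24) (.e (nat_lit 344160) (nat_lit 37) (.e (nat_lit 647195) (nat_lit 9) (.e (nat_lit 1040) (nat_lit 81) (.e (nat_lit 1958) (nat_lit 134) .nil))))) (.g (nat_lit 0) (.e (nat_lit 360144) (nat_lit 0) .nil) .nil))))) (.nd (nat_lit 8) (.nd (nat_lit 9) 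
(.lf (nat_lit 573587) (.g (nat_lit 1551) (.e (nat_lit 483366) (nat_lit 18) (.e (nat_lit 57929) (nat_lit 282) (.e (nat_lit 163869) (nat_lit 2) (.e (nat_lit 196672) (nat_lit 15) (.e (nat_lit 89856) (nat_lit 18) .nil))))) (.g (nat_lit 1) (.e (nat_lit 358050) (nat_lit 0) .nil) .nil))) 
(.lf (nat_lit 574099) (.g (nat_lit 1891) (.e (nat_lit 483393) (nat_lit 23) (.e (nat_lit 335988) (nat_lit 1) (.e (nat_lit 57854) (nat_lit 252) (.e (nat_lit 57347) (nat_lit 0) (.e (nat_lit 2077) (nat_lit 142) .nil))))) (.g (nat_lit 0) (.e (nat_lit 359779) (nat_lit 0) .nil) .nil)))) (.nd (nat_lit 9) 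
(.lf (nat_lit 573843) (.g (nat_lit 2377) (.e (nat_lit 483382) (nat_lit 23) (.e (nat_lit 336324) (nat_lit 18) (.e (nat_lit 204831) (nat_lit 18) (.e (nat_lit 57849) (nat_lit 252) (.e (nat_lit 57410) (nat_lit 12) .nil))))) (.g (nat_lit 0) (.e (nat_lit 358898) (nat_lit 0) .nil) .nil))) 
(.lf (nat_lit 574355) (.g (nat_lit 1132) (.e (nat_lit 483399) (nat_lit 25) (.e (nat_lit 368676) (nat_lit 21) (.e (nat_lit 516117) (nat_lit 1) (.e (nat_lit 164183) (nat_lit 154) (.e (nat_lit 65280) (nat_lit 12) .nil))))) (.g (nat_lit 0) (.e (nat_lit 360516) (nat_lit 0) .nil) .nil)))))) (.nd (nat_lit 7) (.nd (nat_lit 8) (.nd (nat_lit 9) 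
(.lf (nat_lit 573523) (.g (nat_lit 2141) (.e (nat_lit 483366) (nat_lit 18) (.e (nat_lit 57848) (nat_lit 252) (.e (nat_lit 57372) (nat_lit 2) (.e (nat_lit 90160) (nat_lit 11) (.e (nat_lit 24636) (nat_lit 9) (.e (nat_lit 336453) (nat_lit 34) .nil)))))) (.g (nat_lit 1) (.e (nat_lit 357983) (nat_lit 0) .nil) .nil))) 
(.lf (nat_lit 574035) (.g (nat_lit 1712) (.e (nat_lit 483391) (nat_lit 23) (.e (nat_lit 336300) (nat_lit 15) (.e (nat_lit 3631) (nat_lit 227) (.e (nat_lit 778323) (nat_lit 5) (.e (nat_lit 73781) (nat_lit 32) (.e (nat_lit 3089) (nat_lit 191) .nil)))))) (.g (nat_lit 1) (.e (nat_lit 359603) (nat_lit 0) .nil) .nil)))) (.nd (nat_lit 9) 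
(.lf (nat_lit 573779) (.g (nat_lit 2482) (.e (nat_lit 483380) (nat_lit 23) (.e (nat_lit 336326) (nat_lit 18) (.e (nat_lit 204829) (nat_lit 18) (.e (nat_lit 57854) (nat_lit 252) (.e (nat_lit 57408) (nat_lit 12) .nil))))) (.g (nat_lit 0) (.e (nat_lit 358712) (nat_lit 0) .nil) .nil))) 
(.lf (nat_lit 574291) (.g (nat_lit 1885) (.e (nat_lit 483396) (nat_lit 24) (.e (nat_lit 344117) (nat_lit 21) (.e (nat_lit 516115) (nat_lit 1) (.e (nat_lit 164179) (nat_lit 154) .nil)))) (.g (nat_lit 0) (.e (nat_lit 360321) (nat_lit 0) .nil) .nil))))) (.nd (nat_lit 8) (.nd (nat_lit 9) 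
(.lf (nat_lit 573651) (.g (nat_lit 2472) (.e (nat_lit 483372) (nat_lit 21) (.e (nat_lit 319504) (nat_lit 10) (.e (nat_lit 618) (nat_lit 48) (.e (nat_lit 557103) (nat_lit 14) (.e (nat_lit 188160) (nat_lit 32) (.e (nat_lit 491) (nat_lit 39) .nil)))))) (.g (nat_lit 1) (.e (nat_lit 358252) (nat_lit 0) .nil) .nil))) 
(.lf (nat_lit 574163) (.g (nat_lit 1763) (.e (nat_lit 491264) (nat_lit 23) (.e (nat_lit 336021) (nat_lit 3) (.e (nat_lit 98317) (nat_lit 9) (.e (nat_lit 335995) (nat_lit 1) (.e (nat_lit 57931) (nat_lit 282) .nil))))) (.g (nat_lit 0) (.e (nat_lit 360026) (nat_lit 0) .nil) .nil)))) (.nd (nat_lit 9) 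
(.lf (nat_lit 573907) (.g (nat_lit 1064) (.e (nat_lit 483383) (nat_lit 23) (.e (nat_lit 336326) (nat_lit 18) (.e (nat_lit 204830) (nat_lit 18) (.e (nat_lit 57830) (nat_lit 250) .nil)))) (.g (nat_lit 0) (.e (nat_lit 359133) (nat_lit 0) .nil) .nil))) 
(.lf (nat_lit 574419) (.g (nat_lit 1647) (.e (nat_lit 483403) (nat_lit 26) (.e (nat_lit 385068) (nat_lit 26) (.e (nat_lit 532501) (nat_lit 1) (.e (nat_lit 57829) (nat_lit 250) .nil)))) (.g (nat_lit 0) (.e (nat_lit 360730) (nat_lit 0) .nil) .nil))))))) (.nd (nat_lit 6) (.nd (nat_lit 7) (.nd (nat_lit 8) (.nd (nat_lit 9) 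
(.lf (nat_lit 573491) (.g (nat_lit 385) (.e (nat_lit 483366) (nat_lit 18) (.e (nat_lit 57692) (nat_lit 156) (.e (nat_lit 171776) (nat_lit 18) .nil))) (.g (nat_lit 0) (.e (nat_lit 357951) (nat_lit 0) .nil) .nil))) 
(.lf (nat_lit 574003) (.g (nat_lit 2237) (.e (nat_lit 483386) (nat_lit 23) (.e (nat_lit 336295) (nat_lit 15) (.e (nat_lit 3632) (nat_lit 227) (.e (nat_lit 778323) (nat_lit 5) (.e (nat_lit 73781) (nat_lit 32) (.e (nat_lit 3089) (nat_lit 191) .nil)))))) (.g (nat_lit 1) (.e (nat_lit 359513) (nat_lit 0) .nil) .nil)))) (.nd (nat_lit 9) 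
(.lf (nat_lit 573747) (.g (nat_lit 2051) (.e (nat_lit 483380) (nat_lit 23) (.e (nat_lit 336320) (nat_lit 17) (.e (nat_lit 196698) (nat_lit 19) (.e (nat_lit 57810) (nat_lit 246) (.e (nat_lit 57879) (nat_lit 270) (.e (nat_lit 496) (nat_lit 39) .nil)))))) (.g (nat_lit 1) (.e (nat_lit 358643) (nat_lit 0) .nil) .nil))) 
(.lf (nat_lit 574259) (.g (nat_lit 539) (.e (nat_lit 483395) (nat_lit 24) (.e (nat_lit 344132) (nat_lit 26) (.e (nat_lit 557094) (nat_lit 12) .nil))) (.g (nat_lit 0) (.e (nat_lit 360246) (nat_lit 0) .nil) .nil))))) (.nd (nat_lit 8) (.nd (nat_lit 9) 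
(.lf (nat_lit 573619) (.g (nat_lit 1821) (.e (nat_lit 483366) (nat_lit 18) (.e (nat_lit 57931) (nat_lit 282) (.e (nat_lit 163874) (nat_lit 3) (.e (nat_lit 204876) (nat_lit 31) (.e (nat_lit 384768) (nat_lit 18) .nil))))) (.g (nat_lit 1) (.e (nat_lit 358087) (nat_lit 0) .nil) .nil))) 
(.lf (nat_lit 574131) (.g (nat_lit 2492) (.e (nat_lit 483393) (nat_lit 23) (.e (nat_lit 336021) (nat_lit 3) (.e (nat_lit 98317) (nat_lit 9) (.e (nat_lit 335986) (nat_lit 1) (.e (nat_lit 57926) (nat_lit 282) (.e (nat_lit 163943) (nat_lit 19) .nil)))))) (.g (nat_lit 1) (.e (nat_lit 359951) (nat_lit 0) .nil) .nil)))) (.nd (nat_lit 9) 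
(.lf (nat_lit 573875) (.g (nat_lit 1578) (.e (nat_lit 483383) (nat_lit 23) (.e (nat_lit 336019) (nat_lit 3) (.e (nat_lit 98335) (nat_lit 18) (.e (nat_lit 164183) (nat_lit 154) (.e (nat_lit 65280) (nat_lit 12) .nil))))) (.g (nat_lit 0) (.e (nat_lit 359072) (nat_lit 0) .nil) .nil))) 
(.lf (nat_lit 574387) (.g (nat_lit 2484) (.e (nat_lit 483401) (nat_lit 25) (.e (nat_lit 368676) (nat_lit 21) (.e (nat_lit 516120) (nat_lit 1) (.e (nat_lit 164182) (nat_lit 154) (.e (nat_lit 57411) (nat_lit 12) .nil))))) (.g (nat_lit 0) (.e (nat_lit 360620) (nat_lit 0) .nil) .nil)))))) (.nd (nat_lit 7) (.nd (nat_lit 8) (.nd (nat_lit 9) 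
(.lf (nat_lit 573555) (.g (nat_lit 1956) (.e (nat_lit 483366) (nat_lit 18) (.e (nat_lit 57854) (nat_lit 252) (.e (nat_lit 57371) (nat_lit 2) (.e (nat_lit 90160) (nat_lit 11) (.e (nat_lit 24636) (nat_lit 9) (.e (nat_lit 343808) (nat_lit 34) .nil)))))) (.g (nat_lit 1) (.e (nat_lit 358016) (nat_lit 0) .nil) .nil))) 
(.lf (nat_lit 574067) (.g (nat_lit 1406) (.e (nat_lit 483393) (nat_lit 23) (.e (nat_lit 335986) (nat_lit 1) (.e (nat_lit 57849) (nat_lit 252) (.e (nat_lit 57347) (nat_lit 0) .nil)))) (.g (nat_lit 0) (.e (nat_lit 359685) (nat_lit 0) .nil) .nil)))) (.nd (nat_lit 9) 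
(.lf (nat_lit 573811) (.g (nat_lit 1823) (.e (nat_lit 483382) (nat_lit 23) (.e (nat_lit 336019) (nat_lit 3) (.e (nat_lit 98333) (nat_lit 18) (.e (nat_lit 164150) (nat_lit 152) .nil)))) (.g (nat_lit 0) (.e (nat_lit 358850) (nat_lit 0) .nil) .nil))) 
(.lf (nat_lit 574323) (.g (nat_lit 2235) (.e (nat_lit 483397) (nat_lit 25) (.e (nat_lit 368676) (nat_lit 21) (.e (nat_lit 516119) (nat_lit 1) (.e (nat_lit 164147) (nat_lit 152) .nil)))) (.g (nat_lit 0) (.e (nat_lit 360399) (nat_lit 0) .nil) .nil))))) (.nd (nat_lit 8) (.nd (nat_lit 9) 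
(.lf (nat_lit 573683) (.g (nat_lit 1445) (.e (nat_lit 483372) (nat_lit 21) (.e (nat_lit 319530) (nat_lit 16) (.e (nat_lit 286727) (nat_lit 0) (.e (nat_lit 982) (nat_lit 81) .nil)))) (.g (nat_lit 0) (.e (nat_lit 358341) (nat_lit 0) .nil) .nil))) 
(.lf (nat_lit 574195) (.g (nat_lit 848) (.e (nat_lit 483394) (nat_lit 24) (.e (nat_lit 344117) (nat_lit 21) (.e (nat_lit 516118) (nat_lit 1) .nil))) (.g (nat_lit 0) (.e (nat_lit 360078) (nat_lit 0) .nil) .nil)))) (.nd (nat_lit 9) 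
(.lf (nat_lit 573939) (.g (nat_lit 4431) (.e (nat_lit 483384) (nat_lit 23) (.e (nat_lit 336324) (nat_lit 18) (.e (nat_lit 204831) (nat_lit 18) (.e (nat_lit 57839) (nat_lit 250) .nil)))) (.g (nat_lit 0) (.e (nat_lit 359226) (nat_lit 0) .nil) .nil))) 
(.lf (nat_lit 574451) (.g (nat_lit 1131) (.e (nat_lit 483405) (nat_lit 26) (.e (nat_lit 385065) (nat_lit 26) (.e (nat_lit 532501) (nat_lit 1) (.e (nat_lit 57852) (nat_lit 252) .nil)))) (.g (nat_lit 0) (.e (nat_lit 360835) (nat_lit 0) .nil) .nil))))))))) (.nd (nat_lit 4) (.nd (nat_lit 5) (.nd (nat_lit 6) (.nd (nat_lit 7) (.nd (nat_lit 8) (.nd (nat_lit 9) 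
(.lf (nat_lit 573451) (.g (nat_lit 2791) (.e (nat_lit 483365) (nat_lit 18) (.e (nat_lit 57931) (nat_lit 282) (.e (nat_lit 163873) (nat_lit 3) (.e (nat_lit 204854) (nat_lit 26) (.e (nat_lit 336115) (nat_lit 9) .nil))))) (.g (nat_lit 0) (.e (nat_lit 357898) (nat_lit 0) .nil) .nil))) 
(.lf (nat_lit 573963) (.g (nat_lit 1369) (.e (nat_lit 483385) (nat_lit 23) (.e (nat_lit 336019) (nat_lit 3) (.e (nat_lit 98335) (nat_lit 18) (.e (nat_lit 164147) (nat_lit 152) .nil)))) (.g (nat_lit 0) (.e (nat_lit 359310) (nat_lit 0) .nil) .nil)))) (.nd (nat_lit 9) 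
(.lf (nat_lit 573707) (.g (nat_lit 1091) (.e (nat_lit 483372) (nat_lit 21) (.e (nat_lit 319534) (nat_lit 16) (.e (nat_lit 286724) (nat_lit 0) (.e (nat_lit 2281) (nat_lit 150) .nil)))) (.g (nat_lit 0) (.e (nat_lit 358447) (nat_lit 0) .nil) .nil))) 
(.lf (nat_lit 574219) (.g (nat_lit 2283) (.e (nat_lit 483394) (nat_lit 24) (.e (nat_lit 344168) (nat_lit 40) (.e (nat_lit 671763) (nat_lit 5) (.e (nat_lit 73782) (nat_lit 32) (.e (nat_lit 3088) (nat_lit 191) .nil))))) (.g (nat_lit 1) (.e (nat_lit 360132) (nat_lit 0) .nil) .nil))))) (.nd (nat_lit 8) (.nd (nat_lit 9) 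
(.lf (nat_lit 573579) (.g (nat_lit 2003) (.e (nat_lit 483366) (nat_lit 18) (.e (nat_lit 57924) (nat_lit 282) (.e (nat_lit 163867) (nat_lit 2) (.e (nat_lit 196672) (nat_lit 15) (.e (nat_lit 89856) (nat_lit 18) .nil))))) (.g (nat_lit 1) (.e (nat_lit 358042) (nat_lit 0) .nil) .nil))) 
(.lf (nat_lit 574091) (.g (nat_lit 1843) (.e (nat_lit 483393) (nat_lit 23) (.e (nat_lit 335988) (nat_lit 1) (.e (nat_lit 57852) (nat_lit 252) (.e (nat_lit 57357) (nat_lit 0) .nil)))) (.g (nat_lit 0) (.e (nat_lit 359756) (nat_lit 0) .nil) .nil)))) (.nd (nat_lit 9) 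
(.lf (nat_lit 573835) (.g (nat_lit 4251) (.e (nat_lit 483382) (nat_lit 23) (.e (nat_lit 336324) (nat_lit 18) (.e (nat_lit 204831) (nat_lit 18) (.e (nat_lit 57827) (nat_lit 250) .nil)))) (.g (nat_lit 0) (.e (nat_lit 358884) (nat_lit 0) .nil) .nil))) 
(.lf (nat_lit 574347) (.g (nat_lit 3730) (.e (nat_lit 483398) (nat_lit 25) (.e (nat_lit 368676) (nat_lit 21) (.e (nat_lit 516195) (nat_lit 26) (.e (nat_lit 335986) (nat_lit 1) (.e (nat_lit 57931) (nat_lit 282) (.e (nat_lit 163943) (nat_lit 19) .nil)))))) (.g (nat_lit 1) (.e (nat_lit 360477) (nat_lit 0) .nil) .nil)))))) (.nd (nat_lit 7) (.nd (nat_lit 8) (.nd (nat_lit 9) 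
(.lf (nat_lit 573515) (.g (nat_lit 1286) (.e (nat_lit 483366) (nat_lit 18) (.e (nat_lit 57848) (nat_lit 252) (.e (nat_lit 57372) (nat_lit 2) (.e (nat_lit 90125) (nat_lit 9) .nil)))) (.g (nat_lit 0) (.e (nat_lit 357975) (nat_lit 0) .nil) .nil))) 
(.lf (nat_lit 574027) (.g (nat_lit 2232) (.e (nat_lit 483390) (nat_lit 23) (.e (nat_lit 336028) (nat_lit 3) (.e (nat_lit 98333) (nat_lit 18) (.e (nat_lit 164179) (nat_lit 154) (.e (nat_lit 57406) (nat_lit 12) .nil))))) (.g (nat_lit 0) (.e (nat_lit 359578) (nat_lit 0) .nil) .nil)))) (.nd (nat_lit 9) 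
(.lf (nat_lit 573771) (.g (nat_lit 3720) (.e (nat_lit 483380) (nat_lit 23) (.e (nat_lit 336324) (nat_lit 18) (.e (nat_lit 204831) (nat_lit 18) (.e (nat_lit 57849) (nat_lit 252) (.e (nat_lit 57407) (nat_lit 12) (.e (nat_lit 336456) (nat_lit 34) .nil)))))) (.g (nat_lit 1) (.e (nat_lit 358692) (nat_lit 0) .nil) .nil))) 
(.lf (nat_lit 574283) (.g (nat_lit 1976) (.e (nat_lit 483396) (nat_lit 24) (.e (nat_lit 344097) (nat_lit 18) (.e (nat_lit 5905) (nat_lit 320) (.e (nat_lit 1209) (nat_lit 89) (.e (nat_lit 73782) (nat_lit 32) .nil))))) (.g (nat_lit 0) (.e (nat_lit 360313) (nat_lit 0) .nil) .nil))))) (.nd (nat_lit 8) (.nd (nat_lit 9) 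
(.lf (nat_lit 573643) (.g (nat_lit 1479) (.e (nat_lit 483371) (nat_lit 21) (.e (nat_lit 319531) (nat_lit 16) (.e (nat_lit 286728) (nat_lit 0) (.e (nat_lit 2391) (nat_lit 156) .nil)))) (.g (nat_lit 0) (.e (nat_lit 358212) (nat_lit 0) .nil) .nil))) 
(.lf (nat_lit 574155) (.g (nat_lit 616) (.e (nat_lit 491264) (nat_lit 23) (.e (nat_lit 335995) (nat_lit 1) (.e (nat_lit 57849) (nat_lit 252) .nil))) (.g (nat_lit 0) (.e (nat_lit 360003) (nat_lit 0) .nil) .nil)))) (.nd (nat_lit 9) 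
(.lf (nat_lit 573899) (.g (nat_lit 4210) (.e (nat_lit 483383) (nat_lit 23) (.e (nat_lit 336324) (nat_lit 18) (.e (nat_lit 204831) (nat_lit 18) (.e (nat_lit 57834) (nat_lit 250) .nil)))) (.g (nat_lit 0) (.e (nat_lit 359120) (nat_lit 0) .nil) .nil))) 
(.lf (nat_lit 574411) (.g (nat_lit 2191) (.e (nat_lit 483403) (nat_lit 26) (.e (nat_lit 385066) (nat_lit 26) (.e (nat_lit 532499) (nat_lit 1) (.e (nat_lit 57825) (nat_lit 250) .nil)))) (.g (nat_lit 0) (.e (nat_lit 360707) (nat_lit 0) .nil) .nil))))))) (.nd (nat_lit 6) (.nd (nat_lit 7) (.nd (nat_lit 8) (.nd (nat_lit 9) 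
(.lf (nat_lit 573483) (.g (nat_lit 1040) (.e (nat_lit 483366) (nat_lit 18) (.e (nat_lit 57691) (nat_lit 156) (.e (nat_lit 163906) (nat_lit 12) (.e (nat_lit 426438) (nat_lit 18) .nil)))) (.g (nat_lit 0) (.e (nat_lit 357940) (nat_lit 0) .nil) .nil))) 
(.lf (nat_lit 573995) (.g (nat_lit 4274) (.e (nat_lit 483385) (nat_lit 23) (.e (nat_lit 336324) (nat_lit 18) (.e (nat_lit 204831) (nat_lit 18) (.e (nat_lit 65280) (nat_lit 253) .nil)))) (.g (nat_lit 0) (.e (nat_lit 359420) (nat_lit 0) .nil) .nil)))) (.nd (nat_lit 9) 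
(.lf (nat_lit 573739) (.g (nat_lit 376) (.e (nat_lit 483379) (nat_lit 23) (.e (nat_lit 336324) (nat_lit 18) (.e (nat_lit 204831) (nat_lit 18) .nil))) (.g (nat_lit 0) (.e (nat_lit 358603) (nat_lit 0) .nil) .nil))) 
(.lf (nat_lit 574251) (.g (nat_lit 1683) (.e (nat_lit 483395) (nat_lit 24) (.e (nat_lit 344117) (nat_lit 21) (.e (nat_lit 516116) (nat_lit 1) (.e (nat_lit 164184) (nat_lit 155) .nil)))) (.g (nat_lit 0) (.e (nat_lit 360200) (nat_lit 0) .nil) .nil))))) (.nd (nat_lit 8) (.nd (nat_lit 9) 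
(.lf (nat_lit 573611) (.g (nat_lit 2358) (.e (nat_lit 483366) (nat_lit 18) (.e (nat_lit 57931) (nat_lit 282) (.e (nat_lit 163869) (nat_lit 2) (.e (nat_lit 196674) (nat_lit 15) (.e (nat_lit 89856) (nat_lit 18) .nil))))) (.g (nat_lit 1) (.e (nat_lit 358079) (nat_lit 0) .nil) .nil))) 
(.lf (nat_lit 574123) (.g (nat_lit 332) (.e (nat_lit 483393) (nat_lit 23) (.e (nat_lit 336021) (nat_lit 3) (.e (nat_lit 98313) (nat_lit 9) .nil))) (.g (nat_lit 0) (.e (nat_lit 359921) (nat_lit 0) .nil) .nil)))) (.nd (nat_lit 9) 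
(.lf (nat_lit 573867) (.g (nat_lit 1511) (.e (nat_lit 483383) (nat_lit 23) (.e (nat_lit 336019) (nat_lit 3) (.e (nat_lit 98334) (nat_lit 18) (.e (nat_lit 164157) (nat_lit 152) .nil)))) (.g (nat_lit 0) (.e (nat_lit 359055) (nat_lit 0) .nil) .nil))) 
(.lf (nat_lit 574379) (.g (nat_lit 1580) (.e (nat_lit 483401) (nat_lit 25) (.e (nat_lit 368676) (nat_lit 21) (.e (nat_lit 516117) (nat_lit 1) (.e (nat_lit 164183) (nat_lit 154) .nil)))) (.g (nat_lit 0) (.e (nat_lit 360611) (nat_lit 0) .nil) .nil)))))) (.nd (nat_lit 7) (.nd (nat_lit 8) (.nd (nat_lit 9) 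
(.lf (nat_lit 573547) (.g (nat_lit 1455) (.e (nat_lit 483366) (nat_lit 18) (.e (nat_lit 57853) (nat_lit 252) (.e (nat_lit 57371) (nat_lit 2) (.e (nat_lit 90128) (nat_lit 9) .nil)))) (.g (nat_lit 0) (.e (nat_lit 358008) (nat_lit 0) .nil) .nil))) 
(.lf (nat_lit 574059) (.g (nat_lit 1667) (.e (nat_lit 483393) (nat_lit 23) (.e (nat_lit 335986) (nat_lit 1) (.e (nat_lit 57847) (nat_lit 252) (.e (nat_lit 57345) (nat_lit 0) .nil)))) (.g (nat_lit 0) (.e (nat_lit 359663) (nat_lit 0) .nil) .nil)))) (.nd (nat_lit 9) 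
(.lf (nat_lit 573803) (.g (nat_lit 3371) (.e (nat_lit 483381) (nat_lit 23) (.e (nat_lit 336324) (nat_lit 18) (.e (nat_lit 204831) (nat_lit 18) (.e (nat_lit 57853) (nat_lit 252) .nil)))) (.g (nat_lit 0) (.e (nat_lit 358813) (nat_lit 0) .nil) .nil))) 
(.lf (nat_lit 574315) (.g (nat_lit 1888) (.e (nat_lit 483397) (nat_lit 25) (.e (nat_lit 368676) (nat_lit 21) (.e (nat_lit 516115) (nat_lit 1) (.e (nat_lit 164150) (nat_lit 152) .nil)))) (.g (nat_lit 0) (.e (nat_lit 360389) (nat_lit 0) .nil) .nil))))) (.nd (nat_lit 8) (.nd (nat_lit 9) 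
(.lf (nat_lit 573675) (.g (nat_lit 424) (.e (nat_lit 483372) (nat_lit 21) (.e (nat_lit 319505) (nat_lit 10) (.e (nat_lit 7936) (nat_lit 312) .nil))) (.g (nat_lit 0) (.e (nat_lit 358303) (nat_lit 0) .nil) .nil))) 
(.lf (nat_lit 574187) (.g (nat_lit 2016) (.e (nat_lit 483394) (nat_lit 24) (.e (nat_lit 344117) (nat_lit 21) (.e (nat_lit 516115) (nat_lit 1) (.e (nat_lit 164151) (nat_lit 152) .nil)))) (.g (nat_lit 0) (.e (nat_lit 360066) (nat_lit 0) .nil) .nil)))) (.nd (nat_lit 9) 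
(.lf (nat_lit 573931) (.g (nat_lit 4430) (.e (nat_lit 483384) (nat_lit 23) (.e (nat_lit 336324) (nat_lit 18) (.e (nat_lit 204831) (nat_lit 18) (.e (nat_lit 57822) (nat_lit 250) .nil)))) (.g (nat_lit 0) (.e (nat_lit 359214) (nat_lit 0) .nil) .nil))) 
(.lf (nat_lit 574443) (.g (nat_lit 1980) (.e (nat_lit 483404) (nat_lit 26) (.e (nat_lit 385068) (nat_lit 26) (.e (nat_lit 532501) (nat_lit 1) (.e (nat_lit 57852) (nat_lit 252) .nil)))) (.g (nat_lit 0) (.e (nat_lit 360807) (nat_lit 0) .nil) .nil)))))))) (.nd (nat_lit 5) (.nd (nat_lit 6) (.nd (nat_lit 7) (.nd (nat_lit 8) (.nd (nat_lit 9) 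
(.lf (nat_lit 573467) (.g (nat_lit 1489) (.e (nat_lit 483366) (nat_lit 18) (.e (nat_lit 57688) (nat_lit 156) (.e (nat_lit 163902) (nat_lit 12) (.e (nat_lit 426438) (nat_lit 18) (.e (nat_lit 98363) (nat_lit 26) .nil))))) (.g (nat_lit 0) (.e (nat_lit 357919) (nat_lit 0) .nil) .nil))) 
(.lf (nat_lit 573979) (.g (nat_lit 4014) (.e (nat_lit 483385) (nat_lit 23) (.e (nat_lit 336324) (nat_lit 18) (.e (nat_lit 204831) (nat_lit 18) (.e (nat_lit 57831) (nat_lit 250) .nil)))) (.g (nat_lit 0) (.e (nat_lit 359389) (nat_lit 0) .nil) .nil)))) (.nd (nat_lit 9) 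
(.lf (nat_lit 573723) (.g (nat_lit 1659) (.e (nat_lit 483378) (nat_lit 23) (.e (nat_lit 336019) (nat_lit 3) (.e (nat_lit 98333) (nat_lit 18) (.e (nat_lit 164179) (nat_lit 154) .nil)))) (.g (nat_lit 0) (.e (nat_lit 358576) (nat_lit 0) .nil) .nil))) 
(.lf (nat_lit 574235) (.g (nat_lit 2076) (.e (nat_lit 483395) (nat_lit 24) (.e (nat_lit 344097) (nat_lit 18) (.e (nat_lit 5905) (nat_lit 320) (.e (nat_lit 1190) (nat_lit 88) (.e (nat_lit 65630) (nat_lit 14) .nil))))) (.g (nat_lit 0) (.e (nat_lit 360161) (nat_lit 0) .nil) .nil))))) (.nd (nat_lit 8) (.nd (nat_lit 9) 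
(.lf (nat_lit 573595) (.g (nat_lit 1400) (.e (nat_lit 483366) (nat_lit 18) (.e (nat_lit 57929) (nat_lit 282) (.e (nat_lit 163874) (nat_lit 3) (.e (nat_lit 204876) (nat_lit 31) (.e (nat_lit 384768) (nat_lit 18) .nil))))) (.g (nat_lit 1) (.e (nat_lit 358059) (nat_lit 0) .nil) .nil))) 
(.lf (nat_lit 574107) (.g (nat_lit 1509) (.e (nat_lit 483393) (nat_lit 23) (.e (nat_lit 335988) (nat_lit 1) (.e (nat_lit 57854) (nat_lit 252) (.e (nat_lit 57349) (nat_lit 0) .nil)))) (.g (nat_lit 0) (.e (nat_lit 359789) (nat_lit 0) .nil) .nil)))) (.nd (nat_lit 9) 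
(.lf (nat_lit 573851) (.g (nat_lit 1812) (.e (nat_lit 483382) (nat_lit 23) (.e (nat_lit 336326) (nat_lit 18) (.e (nat_lit 204831) (nat_lit 18) (.e (nat_lit 57852) (nat_lit 252) (.e (nat_lit 57409) (nat_lit 12) .nil))))) (.g (nat_lit 0) (.e (nat_lit 358924) (nat_lit 0) .nil) .nil))) 
(.lf (nat_lit 574363) (.g (nat_lit 1664) (.e (nat_lit 483399) (nat_lit 25) (.e (nat_lit 368676) (nat_lit 21) (.e (nat_lit 516119) (nat_lit 1) (.e (nat_lit 164178) (nat_lit 154) (.e (nat_lit 57408) (nat_lit 12) .nil))))) (.g (nat_lit 0) (.e (nat_lit 360524) (nat_lit 0) .nil) .nil)))))) (.nd (nat_lit 7) (.nd (nat_lit 8) (.nd (nat_lit 9) 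
(.lf (nat_lit 573531) (.g (nat_lit 1571) (.e (nat_lit 483366) (nat_lit 18) (.e (nat_lit 57848) (nat_lit 252) (.e (nat_lit 57375) (nat_lit 2) (.e (nat_lit 90125) (nat_lit 9) (.e (nat_lit 333) (nat_lit 26) .nil))))) (.g (nat_lit 0) (.e (nat_lit 357992) (nat_lit 0) .nil) .nil))) 
(.lf (nat_lit 574043) (.g (nat_lit 788) (.e (nat_lit 483392) (nat_lit 23) (.e (nat_lit 335988) (nat_lit 1) (.e (nat_lit 57852) (nat_lit 252) .nil))) (.g (nat_lit 0) (.e (nat_lit 359617) (nat_lit 0) .nil) .nil)))) (.nd (nat_lit 9) 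
(.lf (nat_lit 573787) (.g (nat_lit 401) (.e (nat_lit 483381) (nat_lit 23) (.e (nat_lit 336324) (nat_lit 18) (.e (nat_lit 204831) (nat_lit 18) .nil))) (.g (nat_lit 0) (.e (nat_lit 358791) (nat_lit 0) .nil) .nil))) 
(.lf (nat_lit 574299) (.g (nat_lit 358) (.e (nat_lit 483396) (nat_lit 24) (.e (nat_lit 344130) (nat_lit 26) (.e (nat_lit 557090) (nat_lit 12) .nil))) (.g (nat_lit 0) (.e (nat_lit 360341) (nat_lit 0) .nil) .nil))))) (.nd (nat_lit 8) (.nd (nat_lit 9) 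
(.lf (nat_lit 573659) (.g (nat_lit 525) (.e (nat_lit 483372) (nat_lit 21) (.e (nat_lit 319504) (nat_lit 10) (.e (nat_lit 5734) (nat_lit 312) .nil))) (.g (nat_lit 0) (.e (nat_lit 358269) (nat_lit 0) .nil) .nil))) 
(.lf (nat_lit 574171) (.g (nat_lit 3532) (.e (nat_lit 491264) (nat_lit 23) (.e (nat_lit 336324) (nat_lit 18) (.e (nat_lit 204831) (nat_lit 18) (.e (nat_lit 57852) (nat_lit 252) (.e (nat_lit 57406) (nat_lit 12) .nil))))) (.g (nat_lit 0) (.e (nat_lit 360037) (nat_lit 0) .nil) .nil)))) (.nd (nat_lit 9) 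
(.lf (nat_lit 573915) (.g (nat_lit 2088) (.e (nat_lit 483384) (nat_lit 23) (.e (nat_lit 336019) (nat_lit 3) (.e (nat_lit 98333) (nat_lit 18) (.e (nat_lit 164151) (nat_lit 152) (.e (nat_lit 1203) (nat_lit 88) .nil))))) (.g (nat_lit 0) (.e (nat_lit 359174) (nat_lit 0) .nil) .nil))) 
(.lf (nat_lit 574427) (.g (nat_lit 2505) (.e (nat_lit 483403) (nat_lit 26) (.e (nat_lit 385068) (nat_lit 26) (.e (nat_lit 532504) (nat_lit 1) (.e (nat_lit 57852) (nat_lit 252) (.e (nat_lit 57405) (nat_lit 12) .nil))))) (.g (nat_lit 0) (.e (nat_lit 360742) (nat_lit 0) .nil) .nil))))))) (.nd (nat_lit 6) (.nd (nat_lit 7) (.nd (nat_lit 8) (.nd (nat_lit 9) 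
(.lf (nat_lit 573499) (.g (nat_lit 2431) (.e (nat_lit 483366) (nat_lit 18) (.e (nat_lit 57846) (nat_lit 252) (.e (nat_lit 57375) (nat_lit 2) (.e (nat_lit 90160) (nat_lit 11) (.e (nat_lit 24628) (nat_lit 9) .nil))))) (.g (nat_lit 0) (.e (nat_lit 357959) (nat_lit 0) .nil) .nil))) 
(.lf (nat_lit 574011) (.g (nat_lit 1267) (.e (nat_lit 483387) (nat_lit 23) (.e (nat_lit 336282) (nat_lit 15) (.e (nat_lit 3631) (nat_lit 227) (.e (nat_lit 778323) (nat_lit 5) .nil)))) (.g (nat_lit 0) (.e (nat_lit 359546) (nat_lit 0) .nil) .nil)))) (.nd (nat_lit 9) 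
(.lf (nat_lit 573755) (.g (nat_lit 3859) (.e (nat_lit 483380) (nat_lit 23) (.e (nat_lit 336324) (nat_lit 18) (.e (nat_lit 204831) (nat_lit 18) (.e (nat_lit 57822) (nat_lit 250) .nil)))) (.g (nat_lit 0) (.e (nat_lit 358668) (nat_lit 0) .nil) .nil))) 
(.lf (nat_lit 574267) (.g (nat_lit 2196) (.e (nat_lit 483395) (nat_lit 24) (.e (nat_lit 344133) (nat_lit 26) (.e (nat_lit 557119) (nat_lit 18) (.e (nat_lit 2787) (nat_lit 179) .nil)))) (.g (nat_lit 0) (.e (nat_lit 360272) (nat_lit 0) .nil) .nil))))) (.nd (nat_lit 8) (.nd (nat_lit 9) 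
(.lf (nat_lit 573627) (.g (nat_lit 1154) (.e (nat_lit 491264) (nat_lit 18) (.e (nat_lit 57927) (nat_lit 282) (.e (nat_lit 163875) (nat_lit 3) (.e (nat_lit 204877) (nat_lit 31) (.e (nat_lit 384768) (nat_lit 18) .nil))))) (.g (nat_lit 0) (.e (nat_lit 358097) (nat_lit 0) .nil) .nil))) 
(.lf (nat_lit 574139) (.g (nat_lit 1013) (.e (nat_lit 483393) (nat_lit 23) (.e (nat_lit 336021) (nat_lit 3) (.e (nat_lit 98335) (nat_lit 18) .nil))) (.g (nat_lit 0) (.e (nat_lit 359969) (nat_lit 0) .nil) .nil)))) (.nd (nat_lit 9) 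
(.lf (nat_lit 573883) (.g (nat_lit 2448) (.e (nat_lit 483383) (nat_lit 23) (.e (nat_lit 336286) (nat_lit 15) (.e (nat_lit 3632) (nat_lit 227) (.e (nat_lit 778323) (nat_lit 5) (.e (nat_lit 73782) (nat_lit 32) (.e (nat_lit 3089) (nat_lit 191) .nil)))))) (.g (nat_lit 1) (.e (nat_lit 359081) (nat_lit 0) .nil) .nil))) 
(.lf (nat_lit 574395) (.g (nat_lit 2263) (.e (nat_lit 483402) (nat_lit 26) (.e (nat_lit 385068) (nat_lit 26) (.e (nat_lit 532503) (nat_lit 1) (.e (nat_lit 57844) (nat_lit 252) (.e (nat_lit 57408) (nat_lit 12) .nil))))) (.g (nat_lit 0) (.e (nat_lit 360655) (nat_lit 0) .nil) .nil)))))) (.nd (nat_lit 7) (.nd (nat_lit 8) (.nd (nat_lit 9) 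
(.lf (nat_lit 573563) (.g (nat_lit 4035) (.e (nat_lit 483366) (nat_lit 18) (.e (nat_lit 57854) (nat_lit 252) (.e (nat_lit 57373) (nat_lit 2) (.e (nat_lit 90150) (nat_lit 9) .nil)))) (.g (nat_lit 0) (.e (nat_lit 358024) (nat_lit 0) .nil) .nil))) 
(.lf (nat_lit 574075) (.g (nat_lit 1255) (.e (nat_lit 483393) (nat_lit 23) (.e (nat_lit 335987) (nat_lit 1) (.e (nat_lit 57854) (nat_lit 252) (.e (nat_lit 57346) (nat_lit 0) .nil)))) (.g (nat_lit 0) (.e (nat_lit 359720) (nat_lit 0) .nil) .nil)))) (.nd (nat_lit 9) 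
(.lf (nat_lit 573819) (.g (nat_lit 1638) (.e (nat_lit 483382) (nat_lit 23) (.e (nat_lit 336019) (nat_lit 3) (.e (nat_lit 98335) (nat_lit 18) (.e (nat_lit 164150) (nat_lit 152) (.e (nat_lit 1204) (nat_lit 88) .nil))))) (.g (nat_lit 0) (.e (nat_lit 358859) (nat_lit 0) .nil) .nil))) 
(.lf (nat_lit 574331) (.g (nat_lit 668) (.e (nat_lit 483398) (nat_lit 25) (.e (nat_lit 368676) (nat_lit 21) (.e (nat_lit 516097) (nat_lit 0) .nil))) (.g (nat_lit 0) (.e (nat_lit 360422) (nat_lit 0) .nil) .nil))))) (.nd (nat_lit 8) (.nd (nat_lit 9) 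
(.lf (nat_lit 573691) (.g (nat_lit 482) (.e (nat_lit 483372) (nat_lit 21) (.e (nat_lit 319531) (nat_lit 16) (.e (nat_lit 286727) (nat_lit 0) .nil))) (.g (nat_lit 0) (.e (nat_lit 358371) (nat_lit 0) .nil) .nil))) 
(.lf (nat_lit 574203) (.g (nat_lit 1391) (.e (nat_lit 483394) (nat_lit 24) (.e (nat_lit 344117) (nat_lit 21) (.e (nat_lit 516195) (nat_lit 26) (.e (nat_lit 335987) (nat_lit 1) (.e (nat_lit 57927) (nat_lit 282) .nil))))) (.g (nat_lit 0) (.e (nat_lit 360099) (nat_lit 0) .nil) .nil)))) (.nd (nat_lit 9) 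
(.lf (nat_lit 573947) (.g (nat_lit 3351) (.e (nat_lit 483384) (nat_lit 23) (.e (nat_lit 336324) (nat_lit 18) (.e (nat_lit 204831) (nat_lit 18) (.e (nat_lit 57849) (nat_lit 252) (.e (nat_lit 57411) (nat_lit 12) (.e (nat_lit 336454) (nat_lit 34) .nil)))))) (.g (nat_lit 1) (.e (nat_lit 359236) (nat_lit 0) .nil) .nil))) 
(.lf (nat_lit 574459) (.g (nat_lit 878) (.e (nat_lit 483405) (nat_lit 26) (.e (nat_lit 385066) (nat_lit 26) (.e (nat_lit 532501) (nat_lit 1) (.e (nat_lit 57830) (nat_lit 250) .nil)))) (.g (nat_lit 0) (.e (nat_lit 360845) (nat_lit 0) .nil) .nil)))))))))) (.nd (nat_lit 3) (.nd (nat_lit 4) (.nd (nat_lit 5) (.nd (nat_lit 6) (.nd (nat_lit 7) (.nd (nat_lit 8) (.nd (nat_lit 9) 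
(.lf (nat_lit 573447) (.g (nat_lit 2753) (.e (nat_lit 483365) (nat_lit 18) (.e (nat_lit 57931) (nat_lit 282) (.e (nat_lit 163869) (nat_lit 2) (.e (nat_lit 196666) (nat_lit 13) (.e (nat_lit 65591) (nat_lit 9) (.e (nat_lit 336456) (nat_lit 34) .nil)))))) (.g (nat_lit 1) (.e (nat_lit 357890) (nat_lit 0) .nil) .nil))) 
(.lf (nat_lit 573959) (.g (nat_lit 528) (.e (nat_lit 483384) (nat_lit 23) (.e (nat_lit 336326) (nat_lit 18) (.e (nat_lit 204831) (nat_lit 18) .nil))) (.g (nat_lit 0) (.e (nat_lit 359253) (nat_lit 0) .nil) .nil)))) (.nd (nat_lit 9) 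
(.lf (nat_lit 573703) (.g (nat_lit 768) (.e (nat_lit 483372) (nat_lit 21) (.e (nat_lit 319534) (nat_lit 16) (.e (nat_lit 286721) (nat_lit 0) .nil))) (.g (nat_lit 0) (.e (nat_lit 358443) (nat_lit 0) .nil) .nil))) 
(.lf (nat_lit 574215) (.g (nat_lit 523) (.e (nat_lit 483394) (nat_lit 24) (.e (nat_lit 344129) (nat_lit 26) (.e (nat_lit 557090) (nat_lit 12) .nil))) (.g (nat_lit 0) (.e (nat_lit 360113) (nat_lit 0) .nil) .nil))))) (.nd (nat_lit 8) (.nd (nat_lit 9) 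
(.lf (nat_lit 573575) (.g (nat_lit 1740) (.e (nat_lit 483366) (nat_lit 18) (.e (nat_lit 57854) (nat_lit 252) (.e (nat_lit 57378) (nat_lit 3) (.e (nat_lit 98313) (nat_lit 9) (.e (nat_lit 336075) (nat_lit 9) .nil))))) (.g (nat_lit 0) (.e (nat_lit 358037) (nat_lit 0) .nil) .nil))) 
(.lf (nat_lit 574087) (.g (nat_lit 2653) (.e (nat_lit 483393) (nat_lit 23) (.e (nat_lit 335988) (nat_lit 1) (.e (nat_lit 57852) (nat_lit 252) (.e (nat_lit 57347) (nat_lit 0) (.e (nat_lit 2044) (nat_lit 142) .nil))))) (.g (nat_lit 0) (.e (nat_lit 359751) (nat_lit 0) .nil) .nil)))) (.nd (nat_lit 9) 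
(.lf (nat_lit 573831) (.g (nat_lit 4248) (.e (nat_lit 483382) (nat_lit 23) (.e (nat_lit 336324) (nat_lit 18) (.e (nat_lit 204831) (nat_lit 18) (.e (nat_lit 57822) (nat_lit 250) .nil)))) (.g (nat_lit 0) (.e (nat_lit 358880) (nat_lit 0) .nil) .nil))) 
(.lf (nat_lit 574343) (.g (nat_lit 1671) (.e (nat_lit 483398) (nat_lit 25) (.e (nat_lit 368676) (nat_lit 21) (.e (nat_lit 516119) (nat_lit 1) (.e (nat_lit 164178) (nat_lit 154) (.e (nat_lit 57408) (nat_lit 12) .nil))))) (.g (nat_lit 0) (.e (nat_lit 360459) (nat_lit 0) .nil) .nil)))))) (.nd (nat_lit 7) (.nd (nat_lit 8) (.nd (nat_lit 9) 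
(.lf (nat_lit 573511) (.g (nat_lit 1345) (.e (nat_lit 483366) (nat_lit 18) (.e (nat_lit 57848) (nat_lit 252) (.e (nat_lit 57372) (nat_lit 2) (.e (nat_lit 90121) (nat_lit 9) (.e (nat_lit 310) (nat_lit 23) .nil))))) (.g (nat_lit 0) (.e (nat_lit 357971) (nat_lit 0) .nil) .nil))) 
(.lf (nat_lit 574023) (.g (nat_lit 2705) (.e (nat_lit 483389) (nat_lit 23) (.e (nat_lit 336295) (nat_lit 15) (.e (nat_lit 3632) (nat_lit 227) (.e (nat_lit 778323) (nat_lit 5) (.e (nat_lit 73782) (nat_lit 32) .nil))))) (.g (nat_lit 0) (.e (nat_lit 359569) (nat_lit 0) .nil) .nil)))) (.nd (nat_lit 9) 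
(.lf (nat_lit 573767) (.g (nat_lit 3396) (.e (nat_lit 483380) (nat_lit 23) (.e (nat_lit 336324) (nat_lit 18) (.e (nat_lit 204831) (nat_lit 18) (.e (nat_lit 57847) (nat_lit 252) (.e (nat_lit 57411) (nat_lit 12) (.e (nat_lit 336454) (nat_lit 34) .nil)))))) (.g (nat_lit 1) (.e (nat_lit 358687) (nat_lit 0) .nil) .nil))) 
(.lf (nat_lit 574279) (.g (nat_lit 1404) (.e (nat_lit 483395) (nat_lit 24) (.e (nat_lit 344160) (nat_lit 37) (.e (nat_lit 647203) (nat_lit 14) (.e (nat_lit 1332) (nat_lit 100) .nil)))) (.g (nat_lit 0) (.e (nat_lit 360304) (nat_lit 0) .nil) .nil))))) (.nd (nat_lit 8) (.nd (nat_lit 9) 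
(.lf (nat_lit 573639) (.g (nat_lit 522) (.e (nat_lit 483371) (nat_lit 21) (.e (nat_lit 319506) (nat_lit 10) (.e (nat_lit 5721) (nat_lit 312) .nil))) (.g (nat_lit 0) (.e (nat_lit 358161) (nat_lit 0) .nil) .nil))) 
(.lf (nat_lit 574151) (.g (nat_lit 481) (.e (nat_lit 491264) (nat_lit 23) (.e (nat_lit 335986) (nat_lit 1) (.e (nat_lit 57847) (nat_lit 252) .nil))) (.g (nat_lit 0) (.e (nat_lit 359989) (nat_lit 0) .nil) .nil)))) (.nd (nat_lit 9) 
(.lf (nat_lit 573895) (.g (nat_lit 3918) (.e (nat_lit 483383) (nat_lit 23) (.e (nat_lit 336324) (nat_lit 18) (.e (nat_lit 204831) (nat_lit 18) (.e (nat_lit 57827) (nat_lit 250) .nil)))) (.g (nat_lit 0) (.e (nat_lit 359114) (nat_lit 0) .nil) .nil))) 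
(.lf (nat_lit 574407) (.g (nat_lit 539) (.e (nat_lit 483402) (nat_lit 26) (.e (nat_lit 385106) (nat_lit 50) (.e (nat_lit 786467) (nat_lit 27) .nil))) (.g (nat_lit 0) (.e (nat_lit 360685) (nat_lit 0) .nil) .nil))))))) (.nd (nat_lit 6) (.nd (nat_lit 7) (.nd (nat_lit 8) (.nd (nat_lit 9) 
(.lf (nat_lit 573479) (.g (nat_lit 2845) (.e (nat_lit 483366) (nat_lit 18) (.e (nat_lit 57688) (nat_lit 156) (.e (nat_lit 163936) (nat_lit 18) (.e (nat_lit 475177) (nat_lit 24) (.e (nat_lit 516150) (nat_lit 9) (.e (nat_lit 426323) (nat_lit 13) .nil)))))) (.g (nat_lit 1) (.e (nat_lit 357933) (nat_lit 0) .nil) .nil))) 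
(.lf (nat_lit 573991) (.g (nat_lit 4118) (.e (nat_lit 483385) (nat_lit 23) (.e (nat_lit 336324) (nat_lit 18) (.e (nat_lit 204831) (nat_lit 18) (.e (nat_lit 57852) (nat_lit 252) (.e (nat_lit 57406) (nat_lit 12) (.e (nat_lit 336454) (nat_lit 34) .nil)))))) (.g (nat_lit 1) (.e (nat_lit 359413) (nat_lit 0) .nil) .nil)))) (.nd (nat_lit 9) 
(.lf (nat_lit 573735) (.g (nat_lit 3196) (.e (nat_lit 483378) (nat_lit 23) (.e (nat_lit 336324) (nat_lit 18) (.e (nat_lit 204831) (nat_lit 18) (.e (nat_lit 57852) (nat_lit 252) .nil)))) (.g (nat_lit 0) (.e (nat_lit 358594) (nat_lit 0) .nil) .nil))) 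
(.lf (nat_lit 574247) (.g (nat_lit 1475) (.e (nat_lit 483395) (nat_lit 24) (.e (nat_lit 344117) (nat_lit 21) (.e (nat_lit 516116) (nat_lit 1) (.e (nat_lit 164159) (nat_lit 152) .nil)))) (.g (nat_lit 0) (.e (nat_lit 360188) (nat_lit 0) .nil) .nil))))) (.nd (nat_lit 8) (.nd (nat_lit 9) 
(.lf (nat_lit 573607) (.g (nat_lit 1730) (.e (nat_lit 483366) (nat_lit 18) (.e (nat_lit 57931) (nat_lit 282) (.e (nat_lit 163867) (nat_lit 2) (.e (nat_lit 196673) (nat_lit 15) (.e (nat_lit 89856) (nat_lit 18) .nil))))) (.g (nat_lit 0) (.e (nat_lit 358072) (nat_lit 0) .nil) .nil))) 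
(.lf (nat_lit 574119) (.g (nat_lit 1491) (.e (nat_lit 483393) (nat_lit 23) (.e (nat_lit 335996) (nat_lit 1) (.e (nat_lit 57852) (nat_lit 252) (.e (nat_lit 57347) (nat_lit 0) .nil)))) (.g (nat_lit 0) (.e (nat_lit 359831) (nat_lit 0) .nil) .nil)))) (.nd (nat_lit 9) 
(.lf (nat_lit 573863) (.g (nat_lit 1584) (.e (nat_lit 483383) (nat_lit 23) (.e (nat_lit 336019) (nat_lit 3) (.e (nat_lit 98333) (nat_lit 18) (.e (nat_lit 164178) (nat_lit 154) (.e (nat_lit 57408) (nat_lit 12) .nil))))) (.g (nat_lit 0) (.e (nat_lit 359049) (nat_lit 0) .nil) .nil))) 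
(.lf (nat_lit 574375) (.g (nat_lit 1295) (.e (nat_lit 483401) (nat_lit 25) (.e (nat_lit 368662) (nat_lit 18) (.e (nat_lit 5907) (nat_lit 320) (.e (nat_lit 1003) (nat_lit 81) .nil)))) (.g (nat_lit 0) (.e (nat_lit 360574) (nat_lit 0) .nil) .nil)))))) (.nd (nat_lit 7) (.nd (nat_lit 8) (.nd (nat_lit 9) 
(.lf (nat_lit 573543) (.g (nat_lit 1238) (.e (nat_lit 483366) (nat_lit 18) (.e (nat_lit 57851) (nat_lit 252) (.e (nat_lit 57371) (nat_lit 2) (.e (nat_lit 90125) (nat_lit 9) .nil)))) (.g (nat_lit 0) (.e (nat_lit 358004) (nat_lit 0) .nil) .nil))) 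
(.lf (nat_lit 574055) (.g (nat_lit 1708) (.e (nat_lit 483392) (nat_lit 23) (.e (nat_lit 336021) (nat_lit 3) (.e (nat_lit 98333) (nat_lit 18) (.e (nat_lit 164183) (nat_lit 154) .nil)))) (.g (nat_lit 0) (.e (nat_lit 359648) (nat_lit 0) .nil) .nil)))) (.nd (nat_lit 9) 
(.lf (nat_lit 573799) (.g (nat_lit 1883) (.e (nat_lit 483381) (nat_lit 23) (.e (nat_lit 336324) (nat_lit 18) (.e (nat_lit 204831) (nat_lit 18) (.e (nat_lit 57851) (nat_lit 252) .nil)))) (.g (nat_lit 0) (.e (nat_lit 358806) (nat_lit 0) .nil) .nil))) 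
(.lf (nat_lit 574311) (.g (nat_lit 594) (.e (nat_lit 483397) (nat_lit 25) (.e (nat_lit 368662) (nat_lit 18) (.e (nat_lit 5195) (nat_lit 294) .nil))) (.g (nat_lit 0) (.e (nat_lit 360377) (nat_lit 0) .nil) .nil))))) (.nd (nat_lit 8) (.nd (nat_lit 9) 
(.lf (nat_lit 573671) (.g (nat_lit 556) (.e (nat_lit 483372) (nat_lit 21) (.e (nat_lit 319505) (nat_lit 10) (.e (nat_lit 4923) (nat_lit 287) .nil))) (.g (nat_lit 0) (.e (nat_lit 358297) (nat_lit 0) .nil) .nil))) 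
(.lf (nat_lit 574183) (.g (nat_lit 437) (.e (nat_lit 483394) (nat_lit 24) (.e (nat_lit 344117) (nat_lit 21) (.e (nat_lit 516115) (nat_lit 1) .nil))) (.g (nat_lit 0) (.e (nat_lit 360062) (nat_lit 0) .nil) .nil)))) (.nd (nat_lit 9) 
(.lf (nat_lit 573927) (.g (nat_lit 1188) (.e (nat_lit 483384) (nat_lit 23) (.e (nat_lit 336324) (nat_lit 18) (.e (nat_lit 204830) (nat_lit 18) (.e (nat_lit 57852) (nat_lit 252) .nil)))) (.g (nat_lit 0) (.e (nat_lit 359206) (nat_lit 0) .nil) .nil))) 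
(.lf (nat_lit 574439) (.g (nat_lit 1977) (.e (nat_lit 483404) (nat_lit 26) (.e (nat_lit 385066) (nat_lit 26) (.e (nat_lit 532499) (nat_lit 1) (.e (nat_lit 57847) (nat_lit 252) (.e (nat_lit 57411) (nat_lit 12) .nil))))) (.g (nat_lit 0) (.e (nat_lit 360793) (nat_lit 0) .nil) .nil)))))))) (.nd (nat_lit 5) (.nd (nat_lit 6) (.nd (nat_lit 7) (.nd (nat_lit 8) (.nd (nat_lit 9) 
(.lf (nat_lit 573463) (.g (nat_lit 2394) (.e (nat_lit 483365) (nat_lit 18) (.e (nat_lit 57931) (nat_lit 282) (.e (nat_lit 163874) (nat_lit 3) (.e (nat_lit 204878) (nat_lit 31) (.e (nat_lit 384768) (nat_lit 18) .nil))))) (.g (nat_lit 0) (.e (nat_lit 357910) (nat_lit 0) .nil) .nil))) 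
(.lf (nat_lit 573975) (.g (nat_lit 3719) (.e (nat_lit 483385) (nat_lit 23) (.e (nat_lit 336324) (nat_lit 18) (.e (nat_lit 204831) (nat_lit 18) (.e (nat_lit 57825) (nat_lit 250) .nil)))) (.g (nat_lit 0) (.e (nat_lit 359374) (nat_lit 0) .nil) .nil)))) (.nd (nat_lit 9) 
(.lf (nat_lit 573719) (.g (nat_lit 2862) (.e (nat_lit 483377) (nat_lit 22) (.e (nat_lit 327692) (nat_lit 1) (.e (nat_lit 8445) (nat_lit 140) (.e (nat_lit 57400) (nat_lit 10) (.e (nat_lit 319490) (nat_lit 0) (.e (nat_lit 5664) (nat_lit 312) (.e (nat_lit 3085) (nat_lit 191) .nil))))))) (.g (nat_lit 1) (.e (nat_lit 358521) (nat_lit 0) .nil) .nil))) 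
(.lf (nat_lit 574231) (.g (nat_lit 1316) (.e (nat_lit 483394) (nat_lit 24) (.e (nat_lit 344160) (nat_lit 37) (.e (nat_lit 647203) (nat_lit 14) (.e (nat_lit 1341) (nat_lit 101) .nil)))) (.g (nat_lit 0) (.e (nat_lit 360151) (nat_lit 0) .nil) .nil))))) (.nd (nat_lit 8) (.nd (nat_lit 9) 
(.lf (nat_lit 573591) (.g (nat_lit 1230) (.e (nat_lit 483366) (nat_lit 18) (.e (nat_lit 57929) (nat_lit 282) (.e (nat_lit 163873) (nat_lit 3) (.e (nat_lit 204878) (nat_lit 31) .nil)))) (.g (nat_lit 0) (.e (nat_lit 358055) (nat_lit 0) .nil) .nil))) 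
(.lf (nat_lit 574103) (.g (nat_lit 1891) (.e (nat_lit 483393) (nat_lit 23) (.e (nat_lit 335988) (nat_lit 1) (.e (nat_lit 57854) (nat_lit 252) (.e (nat_lit 57347) (nat_lit 0) (.e (nat_lit 2093) (nat_lit 142) .nil))))) (.g (nat_lit 0) (.e (nat_lit 359783) (nat_lit 0) .nil) .nil)))) (.nd (nat_lit 9) 
(.lf (nat_lit 573847) (.g (nat_lit 2543) (.e (nat_lit 483382) (nat_lit 23) (.e (nat_lit 336326) (nat_lit 18) (.e (nat_lit 204829) (nat_lit 18) (.e (nat_lit 57854) (nat_lit 252) (.e (nat_lit 57409) (nat_lit 12) .nil))))) (.g (nat_lit 0) (.e (nat_lit 358911) (nat_lit 0) .nil) .nil))) 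
(.lf (nat_lit 574359) (.g (nat_lit 951) (.e (nat_lit 483399) (nat_lit 25) (.e (nat_lit 368676) (nat_lit 21) (.e (nat_lit 516118) (nat_lit 1) (.e (nat_lit 164150) (nat_lit 152) .nil)))) (.g (nat_lit 0) (.e (nat_lit 360520) (nat_lit 0) .nil) .nil)))))) (.nd (nat_lit 7) (.nd (nat_lit 8) (.nd (nat_lit 9) 
(.lf (nat_lit 573527) (.g (nat_lit 1856) (.e (nat_lit 483366) (nat_lit 18) (.e (nat_lit 57848) (nat_lit 252) (.e (nat_lit 57374) (nat_lit 2) (.e (nat_lit 90133) (nat_lit 9) (.e (nat_lit 313) (nat_lit 23) .nil))))) (.g (nat_lit 0) (.e (nat_lit 357987) (nat_lit 0) .nil) .nil))) 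
(.lf (nat_lit 574039) (.g (nat_lit 2853) (.e (nat_lit 483391) (nat_lit 23) (.e (nat_lit 336300) (nat_lit 15) (.e (nat_lit 3632) (nat_lit 227) (.e (nat_lit 778324) (nat_lit 5) (.e (nat_lit 73781) (nat_lit 32) (.e (nat_lit 3090) (nat_lit 191) .nil)))))) (.g (nat_lit 1) (.e (nat_lit 359607) (nat_lit 0) .nil) .nil)))) (.nd (nat_lit 9) 
(.lf (nat_lit 573783) (.g (nat_lit 496) (.e (nat_lit 483381) (nat_lit 23) (.e (nat_lit 336320) (nat_lit 17) (.e (nat_lit 196698) (nat_lit 19) .nil))) (.g (nat_lit 0) (.e (nat_lit 358783) (nat_lit 0) .nil) .nil))) 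
(.lf (nat_lit 574295) (.g (nat_lit 1023) (.e (nat_lit 483396) (nat_lit 24) (.e (nat_lit 344117) (nat_lit 21) (.e (nat_lit 516116) (nat_lit 1) .nil))) (.g (nat_lit 0) (.e (nat_lit 360325) (nat_lit 0) .nil) .nil))))) (.nd (nat_lit 8) (.nd (nat_lit 9) 
(.lf (nat_lit 573655) (.g (nat_lit 701) (.e (nat_lit 483372) (nat_lit 21) (.e (nat_lit 319504) (nat_lit 10) (.e (nat_lit 4923) (nat_lit 287) .nil))) (.g (nat_lit 0) (.e (nat_lit 358265) (nat_lit 0) .nil) .nil))) 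
(.lf (nat_lit 574167) (.g (nat_lit 2498) (.e (nat_lit 491264) (nat_lit 23) (.e (nat_lit 336324) (nat_lit 18) (.e (nat_lit 204831) (nat_lit 18) (.e (nat_lit 57846) (nat_lit 252) .nil)))) (.g (nat_lit 0) (.e (nat_lit 360033) (nat_lit 0) .nil) .nil)))) (.nd (nat_lit 9) 
(.lf (nat_lit 573911) (.g (nat_lit 256) (.e (nat_lit 483383) (nat_lit 23) (.e (nat_lit 336332) (nat_lit 19) (.e (nat_lit 220928) (nat_lit 5) .nil))) (.g (nat_lit 0) (.e (nat_lit 359142) (nat_lit 0) .nil) .nil))) 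
(.lf (nat_lit 574423) (.g (nat_lit 2524) (.e (nat_lit 483403) (nat_lit 26) (.e (nat_lit 385068) (nat_lit 26) (.e (nat_lit 532501) (nat_lit 1) (.e (nat_lit 57853) (nat_lit 252) (.e (nat_lit 57408) (nat_lit 12) .nil))))) (.g (nat_lit 0) (.e (nat_lit 360737) (nat_lit 0) .nil) .nil))))))) (.nd (nat_lit 6) (.nd (nat_lit 7) (.nd (nat_lit 8) (.nd (nat_lit 9) 
(.lf (nat_lit 573495) (.g (nat_lit 998) (.e (nat_lit 483366) (nat_lit 18) (.e (nat_lit 57844) (nat_lit 252) (.e (nat_lit 57377) (nat_lit 3) (.e (nat_lit 106240) (nat_lit 11) .nil)))) (.g (nat_lit 0) (.e (nat_lit 357955) (nat_lit 0) .nil) .nil))) 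
(.lf (nat_lit 574007) (.g (nat_lit 492) (.e (nat_lit 483387) (nat_lit 23) (.e (nat_lit 336013) (nat_lit 2) (.e (nat_lit 90165) (nat_lit 12) .nil))) (.g (nat_lit 0) (.e (nat_lit 359529) (nat_lit 0) .nil) .nil)))) (.nd (nat_lit 9) 
(.lf (nat_lit 573751) (.g (nat_lit 709) (.e (nat_lit 483380) (nat_lit 23) (.e (nat_lit 336324) (nat_lit 18) (.e (nat_lit 204828) (nat_lit 18) .nil))) (.g (nat_lit 0) (.e (nat_lit 358654) (nat_lit 0) .nil) .nil))) 
(.lf (nat_lit 574263) (.g (nat_lit 3040) (.e (nat_lit 483395) (nat_lit 24) (.e (nat_lit 344133) (nat_lit 26) (.e (nat_lit 557091) (nat_lit 12) (.e (nat_lit 164000) (nat_lit 38) (.e (nat_lit 639008) (nat_lit 13) .nil))))) (.g (nat_lit 0) (.e (nat_lit 360261) (nat_lit 0) .nil) .nil))))) (.nd (nat_lit 8) (.nd (nat_lit 9) 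
(.lf (nat_lit 573623) (.g (nat_lit 1125) (.e (nat_lit 491264) (nat_lit 18) (.e (nat_lit 57927) (nat_lit 282) (.e (nat_lit 163874) (nat_lit 3) (.e (nat_lit 204876) (nat_lit 31) .nil)))) (.g (nat_lit 0) (.e (nat_lit 358093) (nat_lit 0) .nil) .nil))) 
(.lf (nat_lit 574135) (.g (nat_lit 3556) (.e (nat_lit 483393) (nat_lit 23) (.e (nat_lit 336021) (nat_lit 3) (.e (nat_lit 98317) (nat_lit 9) (.e (nat_lit 335988) (nat_lit 1) (.e (nat_lit 57926) (nat_lit 282) (.e (nat_lit 163941) (nat_lit 19) .nil)))))) (.g (nat_lit 1) (.e (nat_lit 359955) (nat_lit 0) .nil) .nil)))) (.nd (nat_lit 9) 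
(.lf (nat_lit 573879) (.g (nat_lit 2355) (.e (nat_lit 483383) (nat_lit 23) (.e (nat_lit 336240) (nat_lit 15) (.e (nat_lit 3256) (nat_lit 197) (.e (nat_lit 532501) (nat_lit 1) (.e (nat_lit 57851) (nat_lit 252) .nil))))) (.g (nat_lit 0) (.e (nat_lit 359077) (nat_lit 0) .nil) .nil))) 
(.lf (nat_lit 574391) (.g (nat_lit 2510) (.e (nat_lit 483402) (nat_lit 26) (.e (nat_lit 385068) (nat_lit 26) (.e (nat_lit 532499) (nat_lit 1) (.e (nat_lit 57854) (nat_lit 252) (.e (nat_lit 57406) (nat_lit 12) .nil))))) (.g (nat_lit 0) (.e (nat_lit 360648) (nat_lit 0) .nil) .nil)))))) (.nd (nat_lit 7) (.nd (nat_lit 8) (.nd (nat_lit 9) 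
(.lf (nat_lit 573559) (.g (nat_lit 1747) (.e (nat_lit 483366) (nat_lit 18) (.e (nat_lit 57854) (nat_lit 252) (.e (nat_lit 57373) (nat_lit 2) (.e (nat_lit 90125) (nat_lit 9) (.e (nat_lit 331) (nat_lit 26) .nil))))) (.g (nat_lit 0) (.e (nat_lit 358020) (nat_lit 0) .nil) .nil))) 
(.lf (nat_lit 574071) (.g (nat_lit 1024) (.e (nat_lit 483393) (nat_lit 23) (.e (nat_lit 335987) (nat_lit 1) (.e (nat_lit 57851) (nat_lit 252) (.e (nat_lit 57382) (nat_lit 4) (.e (nat_lit 106534) (nat_lit 11) .nil))))) (.g (nat_lit 0) (.e (nat_lit 359710) (nat_lit 0) .nil) .nil)))) (.nd (nat_lit 9) 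
(.lf (nat_lit 573815) (.g (nat_lit 498) (.e (nat_lit 483382) (nat_lit 23) (.e (nat_lit 336019) (nat_lit 3) (.e (nat_lit 98334) (nat_lit 18) .nil))) (.g (nat_lit 0) (.e (nat_lit 358854) (nat_lit 0) .nil) .nil))) 
(.lf (nat_lit 574327) (.g (nat_lit 2316) (.e (nat_lit 483397) (nat_lit 25) (.e (nat_lit 368676) (nat_lit 21) (.e (nat_lit 516119) (nat_lit 1) (.e (nat_lit 164178) (nat_lit 154) (.e (nat_lit 57407) (nat_lit 12) .nil))))) (.g (nat_lit 0) (.e (nat_lit 360403) (nat_lit 0) .nil) .nil))))) (.nd (nat_lit 8) (.nd (nat_lit 9) 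
(.lf (nat_lit 573687) (.g (nat_lit 1445) (.e (nat_lit 483372) (nat_lit 21) (.e (nat_lit 319530) (nat_lit 16) (.e (nat_lit 286727) (nat_lit 0) (.e (nat_lit 2385) (nat_lit 156) .nil)))) (.g (nat_lit 0) (.e (nat_lit 358345) (nat_lit 0) .nil) .nil))) 
(.lf (nat_lit 574199) (.g (nat_lit 394) (.e (nat_lit 483394) (nat_lit 24) (.e (nat_lit 344117) (nat_lit 21) (.e (nat_lit 516195) (nat_lit 26) .nil))) (.g (nat_lit 0) (.e (nat_lit 360095) (nat_lit 0) .nil) .nil)))) (.nd (nat_lit 9) 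
(.lf (nat_lit 573943) (.g (nat_lit 1442) (.e (nat_lit 483384) (nat_lit 23) (.e (nat_lit 336324) (nat_lit 18) (.e (nat_lit 204831) (nat_lit 18) (.e (nat_lit 57847) (nat_lit 252) .nil)))) (.g (nat_lit 0) (.e (nat_lit 359230) (nat_lit 0) .nil) .nil))) 
(.lf (nat_lit 574455) (.g (nat_lit 2382) (.e (nat_lit 483405) (nat_lit 26) (.e (nat_lit 385066) (nat_lit 26) (.e (nat_lit 532499) (nat_lit 1) (.e (nat_lit 57848) (nat_lit 252) (.e (nat_lit 57407) (nat_lit 12) .nil))))) (.g (nat_lit 0) (.e (nat_lit 360841) (nat_lit 0) .nil) .nil))))))))) (.nd (nat_lit 4) (.nd (nat_lit 5) (.nd (nat_lit 6) (.nd (nat_lit 7) (.nd (nat_lit 8) (.nd (nat_lit 9) 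
(.lf (nat_lit 573455) (.g (nat_lit 1628) (.e (nat_lit 483365) (nat_lit 18) (.e (nat_lit 57931) (nat_lit 282) (.e (nat_lit 163873) (nat_lit 3) (.e (nat_lit 204877) (nat_lit 31) .nil)))) (.g (nat_lit 0) (.e (nat_lit 357902) (nat_lit 0) .nil) .nil))) 
(.lf (nat_lit 573967) (.g (nat_lit 1180) (.e (nat_lit 483385) (nat_lit 23) (.e (nat_lit 336260) (nat_lit 15) (.e (nat_lit 3255) (nat_lit 197) (.e (nat_lit 532501) (nat_lit 1) (.e (nat_lit 57830) (nat_lit 250) .nil))))) (.g (nat_lit 0) (.e (nat_lit 359316) (nat_lit 0) .nil) .nil)))) (.nd (nat_lit 9) 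
(.lf (nat_lit 573711) (.g (nat_lit 1692) (.e (nat_lit 483372) (nat_lit 21) (.e (nat_lit 319534) (nat_lit 16) (.e (nat_lit 286728) (nat_lit 0) (.e (nat_lit 2270) (nat_lit 149) (.e (nat_lit 769792) (nat_lit 0) .nil))))) (.g (nat_lit 0) (.e (nat_lit 358453) (nat_lit 0) .nil) .nil))) 
(.lf (nat_lit 574223) (.g (nat_lit 2036) (.e (nat_lit 483394) (nat_lit 24) (.e (nat_lit 344169) (nat_lit 40) (.e (nat_lit 671763) (nat_lit 5) (.e (nat_lit 73782) (nat_lit 32) (.e (nat_lit 3087) (nat_lit 191) .nil))))) (.g (nat_lit 1) (.e (nat_lit 360137) (nat_lit 0) .nil) .nil))))) (.nd (nat_lit 8) (.nd (nat_lit 9) 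
(.lf (nat_lit 573583) (.g (nat_lit 1658) (.e (nat_lit 483366) (nat_lit 18) (.e (nat_lit 57924) (nat_lit 282) (.e (nat_lit 163871) (nat_lit 2) (.e (nat_lit 196672) (nat_lit 15) (.e (nat_lit 89856) (nat_lit 18) .nil))))) (.g (nat_lit 1) (.e (nat_lit 358046) (nat_lit 0) .nil) .nil))) 
(.lf (nat_lit 574095) (.g (nat_lit 433) (.e (nat_lit 483393) (nat_lit 23) (.e (nat_lit 335988) (nat_lit 1) (.e (nat_lit 57854) (nat_lit 252) .nil))) (.g (nat_lit 0) (.e (nat_lit 359775) (nat_lit 0) .nil) .nil)))) (.nd (nat_lit 9) 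
(.lf (nat_lit 573839) (.g (nat_lit 3482) (.e (nat_lit 483382) (nat_lit 23) (.e (nat_lit 336324) (nat_lit 18) (.e (nat_lit 204831) (nat_lit 18) (.e (nat_lit 57832) (nat_lit 250) .nil)))) (.g (nat_lit 0) (.e (nat_lit 358894) (nat_lit 0) .nil) .nil))) 
(.lf (nat_lit 574351) (.g (nat_lit 2038) (.e (nat_lit 483399) (nat_lit 25) (.e (nat_lit 368662) (nat_lit 18) (.e (nat_lit 5906) (nat_lit 320) (.e (nat_lit 1209) (nat_lit 89) (.e (nat_lit 73781) (nat_lit 32) .nil))))) (.g (nat_lit 0) (.e (nat_lit 360488) (nat_lit 0) .nil) .nil)))))) (.nd (nat_lit 7) (.nd (nat_lit 8) (.nd (nat_lit 9) 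
(.lf (nat_lit 573519) (.g (nat_lit 1362) (.e (nat_lit 483366) (nat_lit 18) (.e (nat_lit 57848) (nat_lit 252) (.e (nat_lit 57372) (nat_lit 2) (.e (nat_lit 90133) (nat_lit 9) (.e (nat_lit 331) (nat_lit 26) .nil))))) (.g (nat_lit 0) (.e (nat_lit 357979) (nat_lit 0) .nil) .nil))) 
(.lf (nat_lit 574031) (.g (nat_lit 350) (.e (nat_lit 483391) (nat_lit 23) (.e (nat_lit 335998) (nat_lit 1) (.e (nat_lit 57849) (nat_lit 252) .nil))) (.g (nat_lit 0) (.e (nat_lit 359582) (nat_lit 0) .nil) .nil)))) (.nd (nat_lit 9) 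
(.lf (nat_lit 573775) (.g (nat_lit 3820) (.e (nat_lit 483380) (nat_lit 23) (.e (nat_lit 336324) (nat_lit 18) (.e (nat_lit 204831) (nat_lit 18) (.e (nat_lit 57853) (nat_lit 252) (.e (nat_lit 57406) (nat_lit 12) (.e (nat_lit 336454) (nat_lit 34) .nil)))))) (.g (nat_lit 1) (.e (nat_lit 358699) (nat_lit 0) .nil) .nil))) 
(.lf (nat_lit 574287) (.g (nat_lit 2136) (.e (nat_lit 483396) (nat_lit 24) (.e (nat_lit 344097) (nat_lit 18) (.e (nat_lit 5907) (nat_lit 320) (.e (nat_lit 1209) (nat_lit 89) (.e (nat_lit 73781) (nat_lit 32) .nil))))) (.g (nat_lit 0) (.e (nat_lit 360317) (nat_lit 0) .nil) .nil))))) (.nd (nat_lit 8) (.nd (nat_lit 9) 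
(.lf (nat_lit 573647) (.g (nat_lit 701) (.e (nat_lit 483372) (nat_lit 21) (.e (nat_lit 319504) (nat_lit 10) (.e (nat_lit 580) (nat_lit 43) .nil))) (.g (nat_lit 0) (.e (nat_lit 358247) (nat_lit 0) .nil) .nil))) 
(.lf (nat_lit 574159) (.g (nat_lit 1280) (.e (nat_lit 491264) (nat_lit 23) (.e (nat_lit 335995) (nat_lit 1) (.e (nat_lit 57873) (nat_lit 264) (.e (nat_lit 1209) (nat_lit 89) .nil)))) (.g (nat_lit 0) (.e (nat_lit 360012) (nat_lit 0) .nil) .nil)))) (.nd (nat_lit 9) 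
(.lf (nat_lit 573903) (.g (nat_lit 3984) (.e (nat_lit 483383) (nat_lit 23) (.e (nat_lit 336324) (nat_lit 18) (.e (nat_lit 204831) (nat_lit 18) (.e (nat_lit 57855) (nat_lit 253) .nil)))) (.g (nat_lit 0) (.e (nat_lit 359127) (nat_lit 0) .nil) .nil))) 
(.lf (nat_lit 574415) (.g (nat_lit 1660) (.e (nat_lit 483403) (nat_lit 26) (.e (nat_lit 385066) (nat_lit 26) (.e (nat_lit 532501) (nat_lit 1) (.e (nat_lit 57854) (nat_lit 252) (.e (nat_lit 57405) (nat_lit 12) .nil))))) (.g (nat_lit 0) (.e (nat_lit 360718) (nat_lit 0) .nil) .nil))))))) (.nd (nat_lit 6) (.nd (nat_lit 7) (.nd (nat_lit 8) (.nd (nat_lit 9) 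
(.lf (nat_lit 573487) (.g (nat_lit 1238) (.e (nat_lit 483366) (nat_lit 18) (.e (nat_lit 57692) (nat_lit 156) (.e (nat_lit 163905) (nat_lit 12) (.e (nat_lit 426438) (nat_lit 18) (.e (nat_lit 98363) (nat_lit 26) .nil))))) (.g (nat_lit 0) (.e (nat_lit 357947) (nat_lit 0) .nil) .nil))) 
(.lf (nat_lit 573999) (.g (nat_lit 1172) (.e (nat_lit 483386) (nat_lit 23) (.e (nat_lit 336020) (nat_lit 3) (.e (nat_lit 98333) (nat_lit 18) (.e (nat_lit 164183) (nat_lit 154) .nil)))) (.g (nat_lit 0) (.e (nat_lit 359508) (nat_lit 0) .nil) .nil)))) (.nd (nat_lit 9) 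
(.lf (nat_lit 573743) (.g (nat_lit 1036) (.e (nat_lit 483379) (nat_lit 23) (.e (nat_lit 336336) (nat_lit 20) (.e (nat_lit 229120) (nat_lit 5) (.e (nat_lit 114698) (nat_lit 11) (.e (nat_lit 426326) (nat_lit 13) .nil))))) (.g (nat_lit 0) (.e (nat_lit 358613) (nat_lit 0) .nil) .nil))) 
(.lf (nat_lit 574255) (.g (nat_lit 2171) (.e (nat_lit 483395) (nat_lit 24) (.e (nat_lit 344117) (nat_lit 21) (.e (nat_lit 516120) (nat_lit 1) (.e (nat_lit 164183) (nat_lit 154) .nil)))) (.g (nat_lit 0) (.e (nat_lit 360204) (nat_lit 0) .nil) .nil))))) (.nd (nat_lit 8) (.nd (nat_lit 9) 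
(.lf (nat_lit 573615) (.g (nat_lit 1949) (.e (nat_lit 483366) (nat_lit 18) (.e (nat_lit 57931) (nat_lit 282) (.e (nat_lit 163874) (nat_lit 3) (.e (nat_lit 204865) (nat_lit 28) (.e (nat_lit 360192) (nat_lit 18) .nil))))) (.g (nat_lit 1) (.e (nat_lit 358083) (nat_lit 0) .nil) .nil))) 
(.lf (nat_lit 574127) (.g (nat_lit 4070) (.e (nat_lit 483393) (nat_lit 23) (.e (nat_lit 336021) (nat_lit 3) (.e (nat_lit 98313) (nat_lit 9) (.e (nat_lit 335988) (nat_lit 1) (.e (nat_lit 57931) (nat_lit 282) (.e (nat_lit 163943) (nat_lit 19) .nil)))))) (.g (nat_lit 1) (.e (nat_lit 359933) (nat_lit 0) .nil) .nil)))) (.nd (nat_lit 9) 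
(.lf (nat_lit 573871) (.g (nat_lit 390) (.e (nat_lit 483383) (nat_lit 23) (.e (nat_lit 336019) (nat_lit 3) (.e (nat_lit 98335) (nat_lit 18) .nil))) (.g (nat_lit 0) (.e (nat_lit 359068) (nat_lit 0) .nil) .nil))) 
(.lf (nat_lit 574383) (.g (nat_lit 861) (.e (nat_lit 483401) (nat_lit 25) (.e (nat_lit 368676) (nat_lit 21) (.e (nat_lit 516119) (nat_lit 1) .nil))) (.g (nat_lit 0) (.e (nat_lit 360615) (nat_lit 0) .nil) .nil)))))) (.nd (nat_lit 7) (.nd (nat_lit 8) (.nd (nat_lit 9) 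
(.lf (nat_lit 573551) (.g (nat_lit 2447) (.e (nat_lit 483366) (nat_lit 18) (.e (nat_lit 57854) (nat_lit 252) (.e (nat_lit 57371) (nat_lit 2) (.e (nat_lit 90122) (nat_lit 9) .nil)))) (.g (nat_lit 0) (.e (nat_lit 358012) (nat_lit 0) .nil) .nil))) 
(.lf (nat_lit 574063) (.g (nat_lit 1661) (.e (nat_lit 483393) (nat_lit 23) (.e (nat_lit 335986) (nat_lit 1) (.e (nat_lit 57847) (nat_lit 252) (.e (nat_lit 57353) (nat_lit 0) .nil)))) (.g (nat_lit 0) (.e (nat_lit 359669) (nat_lit 0) .nil) .nil)))) (.nd (nat_lit 9) 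
(.lf (nat_lit 573807) (.g (nat_lit 953) (.e (nat_lit 483381) (nat_lit 23) (.e (nat_lit 336326) (nat_lit 18) (.e (nat_lit 204831) (nat_lit 18) (.e (nat_lit 57847) (nat_lit 252) .nil)))) (.g (nat_lit 0) (.e (nat_lit 358817) (nat_lit 0) .nil) .nil))) 
(.lf (nat_lit 574319) (.g (nat_lit 881) (.e (nat_lit 483397) (nat_lit 25) (.e (nat_lit 368676) (nat_lit 21) (.e (nat_lit 516117) (nat_lit 1) .nil))) (.g (nat_lit 0) (.e (nat_lit 360394) (nat_lit 0) .nil) .nil))))) (.nd (nat_lit 8) (.nd (nat_lit 9) 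
(.lf (nat_lit 573679) (.g (nat_lit 461) (.e (nat_lit 483372) (nat_lit 21) (.e (nat_lit 319539) (nat_lit 19) (.e (nat_lit 311352) (nat_lit 27) .nil))) (.g (nat_lit 0) (.e (nat_lit 358328) (nat_lit 0) .nil) .nil))) 
(.lf (nat_lit 574191) (.g (nat_lit 1029) (.e (nat_lit 483394) (nat_lit 24) (.e (nat_lit 344117) (nat_lit 21) (.e (nat_lit 516115) (nat_lit 1) (.e (nat_lit 164179) (nat_lit 154) .nil)))) (.g (nat_lit 0) (.e (nat_lit 360071) (nat_lit 0) .nil) .nil)))) (.nd (nat_lit 9) 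
(.lf (nat_lit 573935) (.g (nat_lit 3807) (.e (nat_lit 483384) (nat_lit 23) (.e (nat_lit 336324) (nat_lit 18) (.e (nat_lit 204831) (nat_lit 18) (.e (nat_lit 57829) (nat_lit 250) .nil)))) (.g (nat_lit 0) (.e (nat_lit 359219) (nat_lit 0) .nil) .nil))) 
(.lf (nat_lit 574447) (.g (nat_lit 1035) (.e (nat_lit 483404) (nat_lit 26) (.e (nat_lit 385109) (nat_lit 51) (.e (nat_lit 794644) (nat_lit 20) .nil))) (.g (nat_lit 0) (.e (nat_lit 360822) (nat_lit 0) .nil) .nil)))))))) (.nd (nat_lit 5) (.nd (nat_lit 6) (.nd (nat_lit 7) (.nd (nat_lit 8) (.nd (nat_lit 9) 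
(.lf (nat_lit 573471) (.g (nat_lit 1956) (.e (nat_lit 483366) (nat_lit 18) (.e (nat_lit 57688) (nat_lit 156) (.e (nat_lit 163905) (nat_lit 12) (.e (nat_lit 426428) (nat_lit 17) (.e (nat_lit 90170) (nat_lit 13) .nil))))) (.g (nat_lit 0) (.e (nat_lit 357924) (nat_lit 0) .nil) .nil))) 
(.lf (nat_lit 573983) (.g (nat_lit 5248) (.e (nat_lit 483385) (nat_lit 23) (.e (nat_lit 336324) (nat_lit 18) (.e (nat_lit 204831) (nat_lit 18) (.e (nat_lit 57838) (nat_lit 250) .nil)))) (.g (nat_lit 0) (.e (nat_lit 359397) (nat_lit 0) .nil) .nil)))) (.nd (nat_lit 9) 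
(.lf (nat_lit 573727) (.g (nat_lit 2439) (.e (nat_lit 483378) (nat_lit 23) (.e (nat_lit 336282) (nat_lit 15) (.e (nat_lit 3632) (nat_lit 227) (.e (nat_lit 778323) (nat_lit 5) (.e (nat_lit 73781) (nat_lit 32) (.e (nat_lit 3090) (nat_lit 191) .nil)))))) (.g (nat_lit 1) (.e (nat_lit 358586) (nat_lit 0) .nil) .nil))) 
(.lf (nat_lit 574239) (.g (nat_lit 748) (.e (nat_lit 483395) (nat_lit 24) (.e (nat_lit 344117) (nat_lit 21) (.e (nat_lit 516097) (nat_lit 0) .nil))) (.g (nat_lit 0) (.e (nat_lit 360169) (nat_lit 0) .nil) .nil))))) (.nd (nat_lit 8) (.nd (nat_lit 9) 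
(.lf (nat_lit 573599) (.g (nat_lit 1921) (.e (nat_lit 483366) (nat_lit 18) (.e (nat_lit 57930) (nat_lit 282) (.e (nat_lit 163867) (nat_lit 2) (.e (nat_lit 196674) (nat_lit 15) (.e (nat_lit 89856) (nat_lit 18) .nil))))) (.g (nat_lit 0) (.e (nat_lit 358063) (nat_lit 0) .nil) .nil))) 
(.lf (nat_lit 574111) (.g (nat_lit 1331) (.e (nat_lit 483393) (nat_lit 23) (.e (nat_lit 335988) (nat_lit 1) (.e (nat_lit 57854) (nat_lit 252) (.e (nat_lit 57398) (nat_lit 9) .nil)))) (.g (nat_lit 0) (.e (nat_lit 359805) (nat_lit 0) .nil) .nil)))) (.nd (nat_lit 9) 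
(.lf (nat_lit 573855) (.g (nat_lit 771) (.e (nat_lit 483383) (nat_lit 23) (.e (nat_lit 336019) (nat_lit 3) (.e (nat_lit 98332) (nat_lit 18) .nil))) (.g (nat_lit 0) (.e (nat_lit 359037) (nat_lit 0) .nil) .nil))) 
(.lf (nat_lit 574367) (.g (nat_lit 1624) (.e (nat_lit 483399) (nat_lit 25) (.e (nat_lit 368677) (nat_lit 21) (.e (nat_lit 516119) (nat_lit 1) (.e (nat_lit 164179) (nat_lit 154) (.e (nat_lit 57406) (nat_lit 12) .nil))))) (.g (nat_lit 0) (.e (nat_lit 360549) (nat_lit 0) .nil) .nil)))))) (.nd (nat_lit 7) (.nd (nat_lit 8) (.nd (nat_lit 9) 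
(.lf (nat_lit 573535) (.g (nat_lit 2237) (.e (nat_lit 483366) (nat_lit 18) (.e (nat_lit 57849) (nat_lit 252) (.e (nat_lit 57373) (nat_lit 2) (.e (nat_lit 90158) (nat_lit 11) (.e (nat_lit 24628) (nat_lit 9) .nil))))) (.g (nat_lit 0) (.e (nat_lit 357996) (nat_lit 0) .nil) .nil))) 
(.lf (nat_lit 574047) (.g (nat_lit 1446) (.e (nat_lit 483392) (nat_lit 23) (.e (nat_lit 335995) (nat_lit 1) (.e (nat_lit 57872) (nat_lit 264) (.e (nat_lit 1211) (nat_lit 89) .nil)))) (.g (nat_lit 0) (.e (nat_lit 359628) (nat_lit 0) .nil) .nil)))) (.nd (nat_lit 9) 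
(.lf (nat_lit 573791) (.g (nat_lit 3476) (.e (nat_lit 483381) (nat_lit 23) (.e (nat_lit 336324) (nat_lit 18) (.e (nat_lit 204831) (nat_lit 18) (.e (nat_lit 57844) (nat_lit 252) .nil)))) (.g (nat_lit 0) (.e (nat_lit 358798) (nat_lit 0) .nil) .nil))) 
(.lf (nat_lit 574303) (.g (nat_lit 2155) (.e (nat_lit 483396) (nat_lit 24) (.e (nat_lit 344168) (nat_lit 40) (.e (nat_lit 671763) (nat_lit 5) (.e (nat_lit 73782) (nat_lit 32) (.e (nat_lit 3090) (nat_lit 191) .nil))))) (.g (nat_lit 1) (.e (nat_lit 360363) (nat_lit 0) .nil) .nil))))) (.nd (nat_lit 8) (.nd (nat_lit 9) 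
(.lf (nat_lit 573663) (.g (nat_lit 467) (.e (nat_lit 483372) (nat_lit 21) (.e (nat_lit 319504) (nat_lit 10) (.e (nat_lit 5396) (nat_lit 301) .nil))) (.g (nat_lit 0) (.e (nat_lit 358281) (nat_lit 0) .nil) .nil))) 
(.lf (nat_lit 574175) (.g (nat_lit 365) (.e (nat_lit 483394) (nat_lit 24) (.e (nat_lit 344097) (nat_lit 18) (.e (nat_lit 5195) (nat_lit 294) .nil))) (.g (nat_lit 0) (.e (nat_lit 360043) (nat_lit 0) .nil) .nil)))) (.nd (nat_lit 9) 
(.lf (nat_lit 573919) (.g (nat_lit 1738) (.e (nat_lit 483384) (nat_lit 23) (.e (nat_lit 336019) (nat_lit 3) (.e (nat_lit 98334) (nat_lit 18) (.e (nat_lit 164147) (nat_lit 152) .nil)))) (.g (nat_lit 0) (.e (nat_lit 359179) (nat_lit 0) .nil) .nil))) 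
(.lf (nat_lit 574431) (.g (nat_lit 842) (.e (nat_lit 483403) (nat_lit 26) (.e (nat_lit 385093) (nat_lit 49) (.e (nat_lit 778323) (nat_lit 5) (.e (nat_lit 81664) (nat_lit 32) .nil)))) (.g (nat_lit 0) (.e (nat_lit 360754) (nat_lit 0) .nil) .nil))))))) (.nd (nat_lit 6) (.nd (nat_lit 7) (.nd (nat_lit 8) (.nd (nat_lit 9) 
(.lf (nat_lit 573503) (.g (nat_lit 1514) (.e (nat_lit 483366) (nat_lit 18) (.e (nat_lit 57846) (nat_lit 252) (.e (nat_lit 57379) (nat_lit 3) (.e (nat_lit 106240) (nat_lit 14) .nil)))) (.g (nat_lit 0) (.e (nat_lit 357963) (nat_lit 0) .nil) .nil))) 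
(.lf (nat_lit 574015) (.g (nat_lit 2028) (.e (nat_lit 483388) (nat_lit 23) (.e (nat_lit 336295) (nat_lit 15) (.e (nat_lit 3632) (nat_lit 227) (.e (nat_lit 778323) (nat_lit 5) .nil)))) (.g (nat_lit 0) (.e (nat_lit 359551) (nat_lit 0) .nil) .nil)))) (.nd (nat_lit 9) 
(.lf (nat_lit 573759) (.g (nat_lit 3883) (.e (nat_lit 483380) (nat_lit 23) (.e (nat_lit 336324) (nat_lit 18) (.e (nat_lit 204831) (nat_lit 18) (.e (nat_lit 57827) (nat_lit 250) .nil)))) (.g (nat_lit 0) (.e (nat_lit 358672) (nat_lit 0) .nil) .nil))) 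
(.lf (nat_lit 574271) (.g (nat_lit 409) (.e (nat_lit 483395) (nat_lit 24) (.e (nat_lit 344169) (nat_lit 40) (.e (nat_lit 671763) (nat_lit 5) .nil))) (.g (nat_lit 0) (.e (nat_lit 360288) (nat_lit 0) .nil) .nil))))) (.nd (nat_lit 8) (.nd (nat_lit 9) 
(.lf (nat_lit 573631) (.g (nat_lit 1232) (.e (nat_lit 483370) (nat_lit 20) (.e (nat_lit 147498) (nat_lit 12) (.e (nat_lit 164053) (nat_lit 56) (.e (nat_lit 786457) (nat_lit 18) (.e (nat_lit 98365) (nat_lit 26) (.e (nat_lit 426325) (nat_lit 13) .nil)))))) (.g (nat_lit 1) (.e (nat_lit 358151) (nat_lit 0) .nil) .nil))) 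
(.lf (nat_lit 574143) (.g (nat_lit 665) (.e (nat_lit 483393) (nat_lit 23) (.e (nat_lit 336027) (nat_lit 3) (.e (nat_lit 98317) (nat_lit 9) .nil))) (.g (nat_lit 0) (.e (nat_lit 359978) (nat_lit 0) .nil) .nil)))) (.nd (nat_lit 9) 
(.lf (nat_lit 573887) (.g (nat_lit 2205) (.e (nat_lit 483383) (nat_lit 23) (.e (nat_lit 336324) (nat_lit 18) (.e (nat_lit 204829) (nat_lit 18) (.e (nat_lit 57846) (nat_lit 252) (.e (nat_lit 57407) (nat_lit 12) .nil))))) (.g (nat_lit 0) (.e (nat_lit 359097) (nat_lit 0) .nil) .nil))) 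
(.lf (nat_lit 574399) (.g (nat_lit 2102) (.e (nat_lit 483402) (nat_lit 26) (.e (nat_lit 385092) (nat_lit 49) (.e (nat_lit 778323) (nat_lit 5) (.e (nat_lit 73781) (nat_lit 32) (.e (nat_lit 3090) (nat_lit 191) .nil))))) (.g (nat_lit 1) (.e (nat_lit 360672) (nat_lit 0) .nil) .nil)))))) (.nd (nat_lit 7) (.nd (nat_lit 8) (.nd (nat_lit 9) 
(.lf (nat_lit 573567) (.g (nat_lit 3025) (.e (nat_lit 483366) (nat_lit 18) (.e (nat_lit 57854) (nat_lit 252) (.e (nat_lit 57373) (nat_lit 2) (.e (nat_lit 90156) (nat_lit 11) .nil)))) (.g (nat_lit 0) (.e (nat_lit 358028) (nat_lit 0) .nil) .nil))) 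
(.lf (nat_lit 574079) (.g (nat_lit 1822) (.e (nat_lit 483393) (nat_lit 23) (.e (nat_lit 335987) (nat_lit 1) (.e (nat_lit 57854) (nat_lit 252) (.e (nat_lit 57347) (nat_lit 0) (.e (nat_lit 2076) (nat_lit 142) .nil))))) (.g (nat_lit 0) (.e (nat_lit 359724) (nat_lit 0) .nil) .nil)))) (.nd (nat_lit 9) 
(.lf (nat_lit 573823) (.g (nat_lit 1924) (.e (nat_lit 483382) (nat_lit 23) (.e (nat_lit 336320) (nat_lit 17) (.e (nat_lit 196698) (nat_lit 19) (.e (nat_lit 57816) (nat_lit 246) (.e (nat_lit 57878) (nat_lit 270) (.e (nat_lit 496) (nat_lit 39) .nil)))))) (.g (nat_lit 1) (.e (nat_lit 358863) (nat_lit 0) .nil) .nil))) 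
(.lf (nat_lit 574335) (.g (nat_lit 1197) (.e (nat_lit 483398) (nat_lit 25) (.e (nat_lit 368676) (nat_lit 21) (.e (nat_lit 516115) (nat_lit 1) (.e (nat_lit 164185) (nat_lit 155) .nil)))) (.g (nat_lit 0) (.e (nat_lit 360440) (nat_lit 0) .nil) .nil))))) (.nd (nat_lit 8) (.nd (nat_lit 9) 
(.lf (nat_lit 573695) (.g (nat_lit 424) (.e (nat_lit 483372) (nat_lit 21) (.e (nat_lit 319533) (nat_lit 16) (.e (nat_lit 286724) (nat_lit 0) .nil))) (.g (nat_lit 0) (.e (nat_lit 358408) (nat_lit 0) .nil) .nil))) 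
(.lf (nat_lit 574207) (.g (nat_lit 4438) (.e (nat_lit 483394) (nat_lit 24) (.e (nat_lit 344117) (nat_lit 21) (.e (nat_lit 516195) (nat_lit 26) (.e (nat_lit 335988) (nat_lit 1) (.e (nat_lit 57931) (nat_lit 282) (.e (nat_lit 163943) (nat_lit 19) .nil)))))) (.g (nat_lit 1) (.e (nat_lit 360103) (nat_lit 0) .nil) .nil)))) (.nd (nat_lit 9) 
(.lf (nat_lit 573951) (.g (nat_lit 4014) (.e (nat_lit 483384) (nat_lit 23) (.e (nat_lit 336324) (nat_lit 18) (.e (nat_lit 204831) (nat_lit 18) (.e (nat_lit 57852) (nat_lit 252) (.e (nat_lit 57406) (nat_lit 12) (.e (nat_lit 336454) (nat_lit 34) .nil)))))) (.g (nat_lit 1) (.e (nat_lit 359241) (nat_lit 0) .nil) .nil))) 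
(.lf (nat_lit 574463) (.g (nat_lit 886) (.e (nat_lit 483405) (nat_lit 26) (.e (nat_lit 385066) (nat_lit 26) (.e (nat_lit 532504) (nat_lit 1) (.e (nat_lit 57830) (nat_lit 250) .nil)))) (.g (nat_lit 0) (.e (nat_lit 360860) (nat_lit 0) .nil) .nil)))))))))))))

noncomputable def tv5621 : DT := (.nd (nat_lit 0) (.nd (nat_lit 1) (.nd (nat_lit 2) (.nd (nat_lit 3) (.nd (nat_lit 4) (.nd (nat_lit 5) (.nd (nat_lit 6) (.nd (nat_lit 7) (.nd (nat_lit 8) (.nd (nat_lit 9) 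
(.lf (nat_lit 574464) (.g (nat_lit 1692) (.e (nat_lit 483405) (nat_lit 26) (.e (nat_lit 385066) (nat_lit 26) (.e (nat_lit 532504) (nat_lit 1) (.e (nat_lit 57852) (nat_lit 252) (.e (nat_lit 65280) (nat_lit 12) .nil))))) (.g (nat_lit 0) (.e (nat_lit 360870) (nat_lit 0) .nil) .nil))) 
(.lf (nat_lit 574976) (.g (nat_lit 2528) (.e (nat_lit 491539) (nat_lit 3) (.e (nat_lit 98365) (nat_lit 26) (.e (nat_lit 426306) (nat_lit 12) (.e (nat_lit 475185) (nat_lit 29) (.e (nat_lit 557099) (nat_lit 13) .nil))))) (.g (nat_lit 0) (.e (nat_lit 362722) (nat_lit 0) .nil) .nil)))) (.nd (nat_lit 9) 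
(.lf (nat_lit 574720) (.g (nat_lit 4477) (.e (nat_lit 491525) (nat_lit 0) (.e (nat_lit 1801) (nat_lit 119) (.e (nat_lit 516166) (nat_lit 12) (.e (nat_lit 450587) (nat_lit 10) (.e (nat_lit 573469) (nat_lit 11) .nil))))) (.g (nat_lit 0) (.e (nat_lit 362435) (nat_lit 0) .nil) .nil))) 
(.lf (nat_lit 575232) (.g (nat_lit 4127) (.e (nat_lit 491540) (nat_lit 3) (.e (nat_lit 98373) (nat_lit 29) (.e (nat_lit 450588) (nat_lit 10) (.e (nat_lit 573450) (nat_lit 9) (.e (nat_lit 411) (nat_lit 32) (.e (nat_lit 426340) (nat_lit 14) .nil)))))) (.g (nat_lit 1) (.e (nat_lit 362999) (nat_lit 0) .nil) .nil))))) (.nd (nat_lit 8) (.nd (nat_lit 9) 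
(.lf (nat_lit 574592) (.g (nat_lit 2249) (.e (nat_lit 483409) (nat_lit 27) (.e (nat_lit 401459) (nat_lit 13) (.e (nat_lit 483409) (nat_lit 27) (.e (nat_lit 401458) (nat_lit 13) .nil)))) (.g (nat_lit 1) (.e (nat_lit 361410) (nat_lit 0) .nil) .nil))) 
(.lf (nat_lit 575104) (.g (nat_lit 3089) (.e (nat_lit 491540) (nat_lit 3) (.e (nat_lit 98372) (nat_lit 29) (.e (nat_lit 450588) (nat_lit 10) (.e (nat_lit 573452) (nat_lit 9) (.e (nat_lit 430) (nat_lit 32) .nil))))) (.g (nat_lit 0) (.e (nat_lit 362869) (nat_lit 0) .nil) .nil)))) (.nd (nat_lit 9) 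
(.lf (nat_lit 574848) (.g (nat_lit 3848) (.e (nat_lit 491537) (nat_lit 2) (.e (nat_lit 90170) (nat_lit 13) (.e (nat_lit 172106) (nat_lit 10) (.e (nat_lit 434244) (nat_lit 28) (.e (nat_lit 573451) (nat_lit 9) (.e (nat_lit 430) (nat_lit 32) (.e (nat_lit 426343) (nat_lit 14) .nil))))))) (.g (nat_lit 1) (.e (nat_lit 362586) (nat_lit 0) .nil) .nil))) 
(.lf (nat_lit 575360) (.g (nat_lit 1499) (.e (nat_lit 491549) (nat_lit 9) (.e (nat_lit 336432) (nat_lit 30) (.e (nat_lit 450563) (nat_lit 0) (.e (nat_lit 5537) (nat_lit 306) (.e (nat_lit 2629) (nat_lit 164) .nil))))) (.g (nat_lit 0) (.e (nat_lit 363201) (nat_lit 0) .nil) .nil)))))) (.nd (nat_lit 7) (.nd (nat_lit 8) (.nd (nat_lit 9) 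
(.lf (nat_lit 574528) (.g (nat_lit 1913) (.e (nat_lit 483407) (nat_lit 26) (.e (nat_lit 385068) (nat_lit 26) (.e (nat_lit 532501) (nat_lit 1) (.e (nat_lit 57830) (nat_lit 250) .nil)))) (.g (nat_lit 0) (.e (nat_lit 361099) (nat_lit 0) .nil) .nil))) 
(.lf (nat_lit 575040) (.g (nat_lit 4174) (.e (nat_lit 491539) (nat_lit 3) (.e (nat_lit 98373) (nat_lit 29) (.e (nat_lit 450588) (nat_lit 10) (.e (nat_lit 573451) (nat_lit 9) (.e (nat_lit 430) (nat_lit 32) (.e (nat_lit 426344) (nat_lit 14) .nil)))))) (.g (nat_lit 1) (.e (nat_lit 362788) (nat_lit 0) .nil) .nil)))) (.nd (nat_lit 9) 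
(.lf (nat_lit 574784) (.g (nat_lit 1960) (.e (nat_lit 491536) (nat_lit 2) (.e (nat_lit 90170) (nat_lit 13) (.e (nat_lit 172113) (nat_lit 10) (.e (nat_lit 434248) (nat_lit 28) (.e (nat_lit 573470) (nat_lit 11) .nil))))) (.g (nat_lit 0) (.e (nat_lit 362520) (nat_lit 0) .nil) .nil))) 
(.lf (nat_lit 575296) (.g (nat_lit 82) (.e (nat_lit 491546) (nat_lit 9) (.e (nat_lit 336013) (nat_lit 2) (.e (nat_lit 98048) (nat_lit 2) .nil))) (.g (nat_lit 0) (.e (nat_lit 363068) (nat_lit 0) .nil) .nil))))) (.nd (nat_lit 8) (.nd (nat_lit 9) 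
(.lf (nat_lit 574656) (.g (nat_lit 2110) (.e (nat_lit 483413) (nat_lit 27) (.e (nat_lit 401439) (nat_lit 9) (.e (nat_lit 426470) (nat_lit 25) (.e (nat_lit 319490) (nat_lit 0) (.e (nat_lit 5664) (nat_lit 312) (.e (nat_lit 3078) (nat_lit 191) .nil)))))) (.g (nat_lit 1) (.e (nat_lit 361987) (nat_lit 0) .nil) .nil))) 
(.lf (nat_lit 575168) (.g (nat_lit 3321) (.e (nat_lit 491540) (nat_lit 3) (.e (nat_lit 98373) (nat_lit 29) (.e (nat_lit 450585) (nat_lit 10) (.e (nat_lit 573450) (nat_lit 9) (.e (nat_lit 433) (nat_lit 32) .nil))))) (.g (nat_lit 0) (.e (nat_lit 362935) (nat_lit 0) .nil) .nil)))) (.nd (nat_lit 9) 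
(.lf (nat_lit 574912) (.g (nat_lit 708) (.e (nat_lit 491537) (nat_lit 2) (.e (nat_lit 90176) (nat_lit 15) (.e (nat_lit 188438) (nat_lit 20) .nil))) (.g (nat_lit 0) (.e (nat_lit 362651) (nat_lit 0) .nil) .nil))) 
(.lf (nat_lit 575424) (.g (nat_lit 2963) (.e (nat_lit 491552) (nat_lit 9) (.e (nat_lit 336412) (nat_lit 27) (.e (nat_lit 426343) (nat_lit 14) (.e (nat_lit 491568) (nat_lit 13) (.e (nat_lit 393299) (nat_lit 27) .nil))))) (.g (nat_lit 1) (.e (nat_lit 363293) (nat_lit 0) .nil) .nil))))))) (.nd (nat_lit 6) (.nd (nat_lit 7) (.nd (nat_lit 8) (.nd (nat_lit 9) 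
(.lf (nat_lit 574496) (.g (nat_lit 1646) (.e (nat_lit 483406) (nat_lit 26) (.e (nat_lit 385068) (nat_lit 26) (.e (nat_lit 532501) (nat_lit 1) (.e (nat_lit 57829) (nat_lit 250) .nil)))) (.g (nat_lit 0) (.e (nat_lit 361020) (nat_lit 0) .nil) .nil))) 
(.lf (nat_lit 575008) (.g (nat_lit 4022) (.e (nat_lit 491539) (nat_lit 3) (.e (nat_lit 98373) (nat_lit 29) (.e (nat_lit 450586) (nat_lit 10) (.e (nat_lit 573451) (nat_lit 9) (.e (nat_lit 430) (nat_lit 32) .nil))))) (.g (nat_lit 0) (.e (nat_lit 362756) (nat_lit 0) .nil) .nil)))) (.nd (nat_lit 9) 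
(.lf (nat_lit 574752) (.g (nat_lit 1262) (.e (nat_lit 491535) (nat_lit 2) (.e (nat_lit 90176) (nat_lit 15) (.e (nat_lit 188440) (nat_lit 20) (.e (nat_lit 3307) (nat_lit 202) .nil)))) (.g (nat_lit 0) (.e (nat_lit 362488) (nat_lit 0) .nil) .nil))) 
(.lf (nat_lit 575264) (.g (nat_lit 3952) (.e (nat_lit 491540) (nat_lit 3) (.e (nat_lit 98373) (nat_lit 29) (.e (nat_lit 450588) (nat_lit 10) (.e (nat_lit 573469) (nat_lit 11) (.e (nat_lit 16471) (nat_lit 14) .nil))))) (.g (nat_lit 0) (.e (nat_lit 363031) (nat_lit 0) .nil) .nil))))) (.nd (nat_lit 8) (.nd (nat_lit 9) 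
(.lf (nat_lit 574624) (.g (nat_lit 1470) (.e (nat_lit 483411) (nat_lit 27) (.e (nat_lit 401426) (nat_lit 3) (.e (nat_lit 204829) (nat_lit 18) (.e (nat_lit 57731) (nat_lit 181) .nil)))) (.g (nat_lit 0) (.e (nat_lit 361555) (nat_lit 0) .nil) .nil))) 
(.lf (nat_lit 575136) (.g (nat_lit 2889) (.e (nat_lit 491540) (nat_lit 3) (.e (nat_lit 98373) (nat_lit 29) (.e (nat_lit 450563) (nat_lit 0) (.e (nat_lit 3948) (nat_lit 239) .nil)))) (.g (nat_lit 0) (.e (nat_lit 362901) (nat_lit 0) .nil) .nil)))) (.nd (nat_lit 9) 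
(.lf (nat_lit 574880) (.g (nat_lit 1762) (.e (nat_lit 491537) (nat_lit 2) (.e (nat_lit 90170) (nat_lit 13) (.e (nat_lit 172113) (nat_lit 10) (.e (nat_lit 434248) (nat_lit 28) (.e (nat_lit 573450) (nat_lit 9) .nil))))) (.g (nat_lit 0) (.e (nat_lit 362618) (nat_lit 0) .nil) .nil))) 
(.lf (nat_lit 575392) (.g (nat_lit 1710) (.e (nat_lit 491550) (nat_lit 9) (.e (nat_lit 336421) (nat_lit 28) (.e (nat_lit 434189) (nat_lit 13) (.e (nat_lit 2788) (nat_lit 179) (.e (nat_lit 294969) (nat_lit 27) (.e (nat_lit 426340) (nat_lit 14) .nil)))))) (.g (nat_lit 1) (.e (nat_lit 363249) (nat_lit 0) .nil) .nil)))))) (.nd (nat_lit 7) (.nd (nat_lit 8) (.nd (nat_lit 9) 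
(.lf (nat_lit 574560) (.g (nat_lit 1510) (.e (nat_lit 483408) (nat_lit 26) (.e (nat_lit 385068) (nat_lit 26) (.e (nat_lit 532504) (nat_lit 1) (.e (nat_lit 57851) (nat_lit 252) .nil)))) (.g (nat_lit 0) (.e (nat_lit 361213) (nat_lit 0) .nil) .nil))) 
(.lf (nat_lit 575072) (.g (nat_lit 2515) (.e (nat_lit 491540) (nat_lit 3) (.e (nat_lit 98365) (nat_lit 26) (.e (nat_lit 426306) (nat_lit 12) (.e (nat_lit 475185) (nat_lit 29) (.e (nat_lit 557099) (nat_lit 13) (.e (nat_lit 172126) (nat_lit 14) .nil)))))) (.g (nat_lit 1) (.e (nat_lit 362832) (nat_lit 0) .nil) .nil)))) (.nd (nat_lit 9) 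
(.lf (nat_lit 574816) (.g (nat_lit 4226) (.e (nat_lit 491537) (nat_lit 2) (.e (nat_lit 90170) (nat_lit 13) (.e (nat_lit 172106) (nat_lit 10) (.e (nat_lit 434231) (nat_lit 23) (.e (nat_lit 532481) (nat_lit 0) (.e (nat_lit 6617) (nat_lit 357) (.e (nat_lit 3098) (nat_lit 192) .nil))))))) (.g (nat_lit 1) (.e (nat_lit 362554) (nat_lit 0) .nil) .nil))) 
(.lf (nat_lit 575328) (.g (nat_lit 3421) (.e (nat_lit 491548) (nat_lit 9) (.e (nat_lit 336306) (nat_lit 15) (.e (nat_lit 3308) (nat_lit 202) (.e (nat_lit 573482) (nat_lit 13) (.e (nat_lit 65619) (nat_lit 10) (.e (nat_lit 344117) (nat_lit 21) (.e (nat_lit 516183) (nat_lit 16) .nil))))))) (.g (nat_lit 1) (.e (nat_lit 363126) (nat_lit 0) .nil) .nil))))) (.nd (nat_lit 8) (.nd (nat_lit 9) 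
(.lf (nat_lit 574688) (.g (nat_lit 719) (.e (nat_lit 491264) (nat_lit 27) (.e (nat_lit 401456) (nat_lit 13) (.e (nat_lit 483412) (nat_lit 27) .nil))) (.g (nat_lit 0) (.e (nat_lit 362400) (nat_lit 0) .nil) .nil))) 
(.lf (nat_lit 575200) (.g (nat_lit 2589) (.e (nat_lit 491540) (nat_lit 3) (.e (nat_lit 98373) (nat_lit 29) (.e (nat_lit 450587) (nat_lit 10) (.e (nat_lit 573449) (nat_lit 9) .nil)))) (.g (nat_lit 0) (.e (nat_lit 362967) (nat_lit 0) .nil) .nil)))) (.nd (nat_lit 9) 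
(.lf (nat_lit 574944) (.g (nat_lit 3033) (.e (nat_lit 491538) (nat_lit 3) (.e (nat_lit 98372) (nat_lit 29) (.e (nat_lit 450588) (nat_lit 10) (.e (nat_lit 573452) (nat_lit 9) (.e (nat_lit 430) (nat_lit 32) .nil))))) (.g (nat_lit 0) (.e (nat_lit 362688) (nat_lit 0) .nil) .nil))) 
(.lf (nat_lit 575456) (.g (nat_lit 2069) (.e (nat_lit 491558) (nat_lit 10) (.e (nat_lit 344177) (nat_lit 43) (.e (nat_lit 770072) (nat_lit 8) (.e (nat_lit 65598) (nat_lit 9) (.e (nat_lit 336412) (nat_lit 27) .nil))))) (.g (nat_lit 0) (.e (nat_lit 363329) (nat_lit 0) .nil) .nil)))))))) (.nd (nat_lit 5) (.nd (nat_lit 6) (.nd (nat_lit 7) (.nd (nat_lit 8) (.nd (nat_lit 9) 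
(.lf (nat_lit 574480) (.g (nat_lit 678) (.e (nat_lit 483405) (nat_lit 26) (.e (nat_lit 385093) (nat_lit 49) (.e (nat_lit 778498) (nat_lit 14) .nil))) (.g (nat_lit 0) (.e (nat_lit 360922) (nat_lit 0) .nil) .nil))) 
(.lf (nat_lit 574992) (.g (nat_lit 2427) (.e (nat_lit 491539) (nat_lit 3) (.e (nat_lit 98373) (nat_lit 29) (.e (nat_lit 450568) (nat_lit 0) (.e (nat_lit 3966) (nat_lit 239) .nil)))) (.g (nat_lit 0) (.e (nat_lit 362740) (nat_lit 0) .nil) .nil)))) (.nd (nat_lit 9) 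
(.lf (nat_lit 574736) (.g (nat_lit 3904) (.e (nat_lit 491531) (nat_lit 0) (.e (nat_lit 1800) (nat_lit 119) (.e (nat_lit 516166) (nat_lit 12) (.e (nat_lit 450587) (nat_lit 10) (.e (nat_lit 573469) (nat_lit 11) .nil))))) (.g (nat_lit 0) (.e (nat_lit 362453) (nat_lit 0) .nil) .nil))) 
(.lf (nat_lit 575248) (.g (nat_lit 4225) (.e (nat_lit 491540) (nat_lit 3) (.e (nat_lit 98373) (nat_lit 29) (.e (nat_lit 450588) (nat_lit 10) (.e (nat_lit 573454) (nat_lit 9) (.e (nat_lit 397) (nat_lit 32) .nil))))) (.g (nat_lit 0) (.e (nat_lit 363015) (nat_lit 0) .nil) .nil))))) (.nd (nat_lit 8) (.nd (nat_lit 9) 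
(.lf (nat_lit 574608) (.g (nat_lit 3185) (.e (nat_lit 483410) (nat_lit 27) (.e (nat_lit 401444) (nat_lit 9) (.e (nat_lit 426163) (nat_lit 6) (.e (nat_lit 253992) (nat_lit 11) (.e (nat_lit 16463) (nat_lit 13) .nil))))) (.g (nat_lit 1) (.e (nat_lit 361449) (nat_lit 0) .nil) .nil))) 
(.lf (nat_lit 575120) (.g (nat_lit 3356) (.e (nat_lit 491540) (nat_lit 3) (.e (nat_lit 98373) (nat_lit 29) (.e (nat_lit 450562) (nat_lit 0) (.e (nat_lit 3921) (nat_lit 239) .nil)))) (.g (nat_lit 0) (.e (nat_lit 362885) (nat_lit 0) .nil) .nil)))) (.nd (nat_lit 9) 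
(.lf (nat_lit 574864) (.g (nat_lit 2660) (.e (nat_lit 491537) (nat_lit 2) (.e (nat_lit 90170) (nat_lit 13) (.e (nat_lit 172113) (nat_lit 10) (.e (nat_lit 434245) (nat_lit 28) (.e (nat_lit 573449) (nat_lit 9) (.e (nat_lit 411) (nat_lit 32) (.e (nat_lit 426340) (nat_lit 14) .nil))))))) (.g (nat_lit 1) (.e (nat_lit 362602) (nat_lit 0) .nil) .nil))) 
(.lf (nat_lit 575376) (.g (nat_lit 2617) (.e (nat_lit 491550) (nat_lit 9) (.e (nat_lit 336369) (nat_lit 27) (.e (nat_lit 426173) (nat_lit 7) (.e (nat_lit 409641) (nat_lit 17) (.e (nat_lit 294969) (nat_lit 27) .nil))))) (.g (nat_lit 0) (.e (nat_lit 363232) (nat_lit 0) .nil) .nil)))))) (.nd (nat_lit 7) (.nd (nat_lit 8) (.nd (nat_lit 9) 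
(.lf (nat_lit 574544) (.g (nat_lit 1442) (.e (nat_lit 483408) (nat_lit 26) (.e (nat_lit 385065) (nat_lit 26) (.e (nat_lit 532501) (nat_lit 1) (.e (nat_lit 57830) (nat_lit 250) (.e (nat_lit 1004) (nat_lit 81) .nil))))) (.g (nat_lit 0) (.e (nat_lit 361157) (nat_lit 0) .nil) .nil))) 
(.lf (nat_lit 575056) (.g (nat_lit 3147) (.e (nat_lit 491539) (nat_lit 3) (.e (nat_lit 98373) (nat_lit 29) (.e (nat_lit 450588) (nat_lit 10) (.e (nat_lit 581376) (nat_lit 11) .nil)))) (.g (nat_lit 0) (.e (nat_lit 362804) (nat_lit 0) .nil) .nil)))) (.nd (nat_lit 9) 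
(.lf (nat_lit 574800) (.g (nat_lit 1857) (.e (nat_lit 491536) (nat_lit 2) (.e (nat_lit 90178) (nat_lit 15) (.e (nat_lit 188440) (nat_lit 20) (.e (nat_lit 3307) (nat_lit 202) (.e (nat_lit 573471) (nat_lit 11) .nil))))) (.g (nat_lit 0) (.e (nat_lit 362536) (nat_lit 0) .nil) .nil))) 
(.lf (nat_lit 575312) (.g (nat_lit 2408) (.e (nat_lit 491547) (nat_lit 9) (.e (nat_lit 336019) (nat_lit 3) (.e (nat_lit 98389) (nat_lit 33) (.e (nat_lit 491560) (nat_lit 10) (.e (nat_lit 344109) (nat_lit 19) .nil))))) (.g (nat_lit 0) (.e (nat_lit 363094) (nat_lit 0) .nil) .nil))))) (.nd (nat_lit 8) (.nd (nat_lit 9) 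
(.lf (nat_lit 574672) (.g (nat_lit 3545) (.e (nat_lit 483413) (nat_lit 27) (.e (nat_lit 401447) (nat_lit 10) (.e (nat_lit 434289) (nat_lit 43) (.e (nat_lit 696320) (nat_lit 0) (.e (nat_lit 1380) (nat_lit 105) (.e (nat_lit 311341) (nat_lit 13) .nil)))))) (.g (nat_lit 1) (.e (nat_lit 362178) (nat_lit 0) .nil) .nil))) 
(.lf (nat_lit 575184) (.g (nat_lit 1918) (.e (nat_lit 491540) (nat_lit 3) (.e (nat_lit 98373) (nat_lit 29) (.e (nat_lit 450586) (nat_lit 10) (.e (nat_lit 573452) (nat_lit 9) .nil)))) (.g (nat_lit 0) (.e (nat_lit 362951) (nat_lit 0) .nil) .nil)))) (.nd (nat_lit 9) 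
(.lf (nat_lit 574928) (.g (nat_lit 1347) (.e (nat_lit 499456) (nat_lit 2) (.e (nat_lit 90170) (nat_lit 13) (.e (nat_lit 172106) (nat_lit 10) (.e (nat_lit 434244) (nat_lit 28) .nil)))) (.g (nat_lit 0) (.e (nat_lit 362669) (nat_lit 0) .nil) .nil))) 
(.lf (nat_lit 575440) (.g (nat_lit 3600) (.e (nat_lit 491558) (nat_lit 10) (.e (nat_lit 344115) (nat_lit 20) (.e (nat_lit 507923) (nat_lit 6) (.e (nat_lit 286747) (nat_lit 9) (.e (nat_lit 336013) (nat_lit 2) (.e (nat_lit 90143) (nat_lit 9) (.e (nat_lit 3102) (nat_lit 192) .nil))))))) (.g (nat_lit 1) (.e (nat_lit 363313) (nat_lit 0) .nil) .nil))))))) 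
(.nd (nat_lit 6) (.nd (nat_lit 7) (.nd (nat_lit 8) (.nd (nat_lit 9) 
(.lf (nat_lit 574512) (.g (nat_lit 2895) (.e (nat_lit 483406) (nat_lit 26) (.e (nat_lit 385093) (nat_lit 49) (.e (nat_lit 778323) (nat_lit 5) (.e (nat_lit 73782) (nat_lit 32) (.e (nat_lit 3089) (nat_lit 191) .nil))))) (.g (nat_lit 1) (.e (nat_lit 361061) (nat_lit 0) .nil) .nil))) 
(.lf (nat_lit 575024) (.g (nat_lit 4190) (.e (nat_lit 491539) (nat_lit 3) (.e (nat_lit 98373) (nat_lit 29) (.e (nat_lit 450587) (nat_lit 10) (.e (nat_lit 573461) (nat_lit 9) .nil)))) (.g (nat_lit 0) (.e (nat_lit 362772) (nat_lit 0) .nil) .nil)))) (.nd (nat_lit 9) 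
(.lf (nat_lit 574768) (.g (nat_lit 5286) (.e (nat_lit 491536) (nat_lit 2) (.e (nat_lit 90170) (nat_lit 13) (.e (nat_lit 172106) (nat_lit 10) (.e (nat_lit 434231) (nat_lit 23) (.e (nat_lit 532569) (nat_lit 16) (.e (nat_lit 401460) (nat_lit 14) .nil)))))) (.g (nat_lit 1) (.e (nat_lit 362504) (nat_lit 0) .nil) .nil))) 
(.lf (nat_lit 575280) (.g (nat_lit 1643) (.e (nat_lit 499456) (nat_lit 3) (.e (nat_lit 98373) (nat_lit 29) (.e (nat_lit 450586) (nat_lit 10) (.e (nat_lit 573470) (nat_lit 11) .nil)))) (.g (nat_lit 0) (.e (nat_lit 363047) (nat_lit 0) .nil) .nil))))) (.nd (nat_lit 8) (.nd (nat_lit 9) 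
(.lf (nat_lit 574640) (.g (nat_lit 3132) (.e (nat_lit 483411) (nat_lit 27) (.e (nat_lit 401448) (nat_lit 10) (.e (nat_lit 434291) (nat_lit 44) (.e (nat_lit 704738) (nat_lit 11) (.e (nat_lit 16463) (nat_lit 13) .nil))))) (.g (nat_lit 1) (.e (nat_lit 361666) (nat_lit 0) .nil) .nil))) 
(.lf (nat_lit 575152) (.g (nat_lit 1931) (.e (nat_lit 491540) (nat_lit 3) (.e (nat_lit 98373) (nat_lit 29) (.e (nat_lit 450567) (nat_lit 0) (.e (nat_lit 4189) (nat_lit 251) .nil)))) (.g (nat_lit 0) (.e (nat_lit 362919) (nat_lit 0) .nil) .nil)))) (.nd (nat_lit 9) 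
(.lf (nat_lit 574896) (.g (nat_lit 3742) (.e (nat_lit 491537) (nat_lit 2) (.e (nat_lit 90170) (nat_lit 13) (.e (nat_lit 172118) (nat_lit 12) (.e (nat_lit 475185) (nat_lit 29) (.e (nat_lit 557101) (nat_lit 13) (.e (nat_lit 172124) (nat_lit 14) .nil)))))) (.g (nat_lit 1) (.e (nat_lit 362634) (nat_lit 0) .nil) .nil))) 
(.lf (nat_lit 575408) (.g (nat_lit 3213) (.e (nat_lit 491550) (nat_lit 9) (.e (nat_lit 336430) (nat_lit 29) (.e (nat_lit 442429) (nat_lit 24) (.e (nat_lit 229663) (nat_lit 240) (.e (nat_lit 2630) (nat_lit 164) (.e (nat_lit 172124) (nat_lit 14) .nil)))))) (.g (nat_lit 1) (.e (nat_lit 363270) (nat_lit 0) .nil) .nil)))))) (.nd (nat_lit 7) (.nd (nat_lit 8) (.nd (nat_lit 9) 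
(.lf (nat_lit 574576) (.g (nat_lit 2039) (.e (nat_lit 483409) (nat_lit 27) (.e (nat_lit 401437) (nat_lit 9) (.e (nat_lit 426533) (nat_lit 28) (.e (nat_lit 344068) (nat_lit 0) (.e (nat_lit 3089) (nat_lit 191) .nil))))) (.g (nat_lit 1) (.e (nat_lit 361334) (nat_lit 0) .nil) .nil))) 
(.lf (nat_lit 575088) (.g (nat_lit 1278) (.e (nat_lit 491540) (nat_lit 3) (.e (nat_lit 98372) (nat_lit 29) (.e (nat_lit 450583) (nat_lit 7) (.e (nat_lit 556800) (nat_lit 18) .nil)))) (.g (nat_lit 0) (.e (nat_lit 362853) (nat_lit 0) .nil) .nil)))) (.nd (nat_lit 9) 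
(.lf (nat_lit 574832) (.g (nat_lit 2762) (.e (nat_lit 491537) (nat_lit 2) (.e (nat_lit 90170) (nat_lit 13) (.e (nat_lit 172106) (nat_lit 10) (.e (nat_lit 434231) (nat_lit 23) (.e (nat_lit 532567) (nat_lit 16) .nil))))) (.g (nat_lit 0) (.e (nat_lit 362570) (nat_lit 0) .nil) .nil))) 
(.lf (nat_lit 575344) (.g (nat_lit 2412) (.e (nat_lit 491549) (nat_lit 9) (.e (nat_lit 336019) (nat_lit 3) (.e (nat_lit 98389) (nat_lit 33) (.e (nat_lit 491560) (nat_lit 10) (.e (nat_lit 344109) (nat_lit 19) .nil))))) (.g (nat_lit 0) (.e (nat_lit 363171) (nat_lit 0) .nil) .nil))))) (.nd (nat_lit 8) (.nd (nat_lit 9) 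
(.lf (nat_lit 574704) (.g (nat_lit 2925) (.e (nat_lit 491520) (nat_lit 0) (.e (nat_lit 1788) (nat_lit 119) (.e (nat_lit 516165) (nat_lit 12) (.e (nat_lit 450588) (nat_lit 10) (.e (nat_lit 573452) (nat_lit 9) .nil))))) (.g (nat_lit 0) (.e (nat_lit 362416) (nat_lit 0) .nil) .nil))) 
(.lf (nat_lit 575216) (.g (nat_lit 3770) (.e (nat_lit 491540) (nat_lit 3) (.e (nat_lit 98373) (nat_lit 29) (.e (nat_lit 450587) (nat_lit 10) (.e (nat_lit 573458) (nat_lit 9) .nil)))) (.g (nat_lit 0) (.e (nat_lit 362983) (nat_lit 0) .nil) .nil)))) (.nd (nat_lit 9) 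
(.lf (nat_lit 574960) (.g (nat_lit 1777) (.e (nat_lit 491538) (nat_lit 3) (.e (nat_lit 98373) (nat_lit 29) (.e (nat_lit 450587) (nat_lit 10) (.e (nat_lit 573456) (nat_lit 9) (.e (nat_lit 430) (nat_lit 32) .nil))))) (.g (nat_lit 0) (.e (nat_lit 362704) (nat_lit 0) .nil) .nil))) 
(.lf (nat_lit 575472) (.g (nat_lit 3849) (.e (nat_lit 491560) (nat_lit 10) (.e (nat_lit 344117) (nat_lit 21) (.e (nat_lit 516102) (nat_lit 0) (.e (nat_lit 6989) (nat_lit 377) (.e (nat_lit 2777) (nat_lit 178) (.e (nat_lit 286734) (nat_lit 3) (.e (nat_lit 98389) (nat_lit 33) .nil))))))) (.g (nat_lit 1) (.e (nat_lit 363346) (nat_lit 0) .nil) .nil))))))))) 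
(.nd (nat_lit 4) (.nd (nat_lit 5) (.nd (nat_lit 6) (.nd (nat_lit 7) (.nd (nat_lit 8) 
(.nd (nat_lit 9) 
(.lf (nat_lit 574472) (.g (nat_lit 2383) (.e (nat_lit 483405) (nat_lit 26) (.e (nat_lit 385068) (nat_lit 26) (.e (nat_lit 532503) (nat_lit 1) (.e (nat_lit 57844) (nat_lit 252) (.e (nat_lit 57408) (nat_lit 12) .nil))))) (.g (nat_lit 0) (.e (nat_lit 360889) (nat_lit 0) .nil) .nil))) 
(.lf (nat_lit 574984) (.g (nat_lit 3613) (.e (nat_lit 491539) (nat_lit 3) (.e (nat_lit 98372) (nat_lit 29) (.e (nat_lit 450588) (nat_lit 10) (.e (nat_lit 573471) (nat_lit 11) (.e (nat_lit 16471) (nat_lit 14) .nil))))) (.g (nat_lit 0) (.e (nat_lit 362732) (nat_lit 0) .nil) .nil)))) (.nd (nat_lit 9) 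
(.lf (nat_lit 574728) (.g (nat_lit 2405) (.e (nat_lit 491526) (nat_lit 0) (.e (nat_lit 1788) (nat_lit 119) (.e (nat_lit 516165) (nat_lit 12) (.e (nat_lit 450587) (nat_lit 10) (.e (nat_lit 573457) (nat_lit 9) (.e (nat_lit 430) (nat_lit 32) (.e (nat_lit 426343) (nat_lit 14) .nil))))))) (.g (nat_lit 1) (.e (nat_lit 362443) (nat_lit 0) .nil) .nil))) 
(.lf (nat_lit 575240) (.g (nat_lit 1854) (.e (nat_lit 491540) (nat_lit 3) (.e (nat_lit 98373) (nat_lit 29) (.e (nat_lit 450588) (nat_lit 10) (.e (nat_lit 573452) (nat_lit 9) .nil)))) (.g (nat_lit 0) (.e (nat_lit 363007) (nat_lit 0) .nil) .nil))))) (.nd (nat_lit 8) (.nd (nat_lit 9) 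
(.lf (nat_lit 574600) (.g (nat_lit 729) (.e (nat_lit 483410) (nat_lit 27) (.e (nat_lit 401437) (nat_lit 9) (.e (nat_lit 426493) (nat_lit 27) .nil))) (.g (nat_lit 0) (.e (nat_lit 361431) (nat_lit 0) .nil) .nil))) 
(.lf (nat_lit 575112) (.g (nat_lit 3564) (.e (nat_lit 491540) (nat_lit 3) (.e (nat_lit 98372) (nat_lit 29) (.e (nat_lit 450588) (nat_lit 10) (.e (nat_lit 573471) (nat_lit 11) (.e (nat_lit 16471) (nat_lit 14) .nil))))) (.g (nat_lit 0) (.e (nat_lit 362877) (nat_lit 0) .nil) .nil)))) (.nd (nat_lit 9) 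
(.lf (nat_lit 574856) (.g (nat_lit 3270) (.e (nat_lit 491537) (nat_lit 2) (.e (nat_lit 90170) (nat_lit 13) (.e (nat_lit 172113) (nat_lit 10) (.e (nat_lit 434238) (nat_lit 25) (.e (nat_lit 548911) (nat_lit 18) (.e (nat_lit 172126) (nat_lit 14) .nil)))))) (.g (nat_lit 1) (.e (nat_lit 362594) (nat_lit 0) .nil) .nil))) 
(.lf (nat_lit 575368) (.g (nat_lit 3247) (.e (nat_lit 491550) (nat_lit 9) (.e (nat_lit 336019) (nat_lit 3) (.e (nat_lit 98389) (nat_lit 33) (.e (nat_lit 491560) (nat_lit 10) (.e (nat_lit 344105) (nat_lit 19) (.e (nat_lit 499828) (nat_lit 5) (.e (nat_lit 3098) (nat_lit 192) .nil))))))) (.g (nat_lit 1) (.e (nat_lit 363216) (nat_lit 0) .nil) .nil)))))) 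
(.nd (nat_lit 7) (.nd (nat_lit 8) (.nd (nat_lit 9) 
(.lf (nat_lit 574536) (.g (nat_lit 1279) (.e (nat_lit 483407) (nat_lit 26) (.e (nat_lit 385093) (nat_lit 49) (.e (nat_lit 778324) (nat_lit 5) (.e (nat_lit 73781) (nat_lit 32) .nil)))) (.g (nat_lit 0) (.e (nat_lit 361120) (nat_lit 0) .nil) .nil))) 
(.lf (nat_lit 575048) (.g (nat_lit 3930) (.e (nat_lit 491539) (nat_lit 3) (.e (nat_lit 98373) (nat_lit 29) (.e (nat_lit 450588) (nat_lit 10) (.e (nat_lit 573458) (nat_lit 9) .nil)))) (.g (nat_lit 0) (.e (nat_lit 362796) (nat_lit 0) .nil) .nil)))) (.nd (nat_lit 9) 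
(.lf (nat_lit 574792) (.g (nat_lit 1278) (.e (nat_lit 491536) (nat_lit 2) (.e (nat_lit 90176) (nat_lit 15) (.e (nat_lit 188441) (nat_lit 20) (.e (nat_lit 3272) (nat_lit 199) .nil)))) (.g (nat_lit 0) (.e (nat_lit 362528) (nat_lit 0) .nil) .nil))) 
(.lf (nat_lit 575304) (.g (nat_lit 2000) (.e (nat_lit 491546) (nat_lit 9) (.e (nat_lit 336028) (nat_lit 3) (.e (nat_lit 98350) (nat_lit 24) (.e (nat_lit 409641) (nat_lit 17) .nil)))) (.g (nat_lit 0) (.e (nat_lit 363078) (nat_lit 0) .nil) .nil))))) (.nd (nat_lit 8) (.nd (nat_lit 9) 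
(.lf (nat_lit 574664) (.g (nat_lit 606) (.e (nat_lit 483413) (nat_lit 27) (.e (nat_lit 401446) (nat_lit 10) (.e (nat_lit 434291) (nat_lit 44) .nil))) (.g (nat_lit 0) (.e (nat_lit 362129) (nat_lit 0) .nil) .nil))) 
(.lf (nat_lit 575176) (.g (nat_lit 2074) (.e (nat_lit 491540) (nat_lit 3) (.e (nat_lit 98373) (nat_lit 29) (.e (nat_lit 450585) (nat_lit 10) (.e (nat_lit 573471) (nat_lit 11) .nil)))) (.g (nat_lit 0) (.e (nat_lit 362943) (nat_lit 0) .nil) .nil)))) (.nd (nat_lit 9) 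
(.lf (nat_lit 574920) (.g (nat_lit 1173) (.e (nat_lit 491537) (nat_lit 2) (.e (nat_lit 90178) (nat_lit 15) (.e (nat_lit 188440) (nat_lit 20) (.e (nat_lit 3272) (nat_lit 199) .nil)))) (.g (nat_lit 0) (.e (nat_lit 362659) (nat_lit 0) .nil) .nil))) 
(.lf (nat_lit 575432) (.g (nat_lit 1258) (.e (nat_lit 499456) (nat_lit 9) (.e (nat_lit 336369) (nat_lit 27) (.e (nat_lit 426173) (nat_lit 7) (.e (nat_lit 409617) (nat_lit 10) .nil)))) (.g (nat_lit 0) (.e (nat_lit 363305) (nat_lit 0) .nil) .nil))))))) (.nd (nat_lit 6) (.nd (nat_lit 7) (.nd (nat_lit 8) (.nd (nat_lit 9) 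
(.lf (nat_lit 574504) (.g (nat_lit 1662) (.e (nat_lit 483406) (nat_lit 26) (.e (nat_lit 385068) (nat_lit 26) (.e (nat_lit 532504) (nat_lit 1) (.e (nat_lit 57830) (nat_lit 250) .nil)))) (.g (nat_lit 0) (.e (nat_lit 361036) (nat_lit 0) .nil) .nil))) 
(.lf (nat_lit 575016) (.g (nat_lit 5134) (.e (nat_lit 491539) (nat_lit 3) (.e (nat_lit 98373) (nat_lit 29) (.e (nat_lit 450587) (nat_lit 10) (.e (nat_lit 573451) (nat_lit 9) .nil)))) (.g (nat_lit 0) (.e (nat_lit 362764) (nat_lit 0) .nil) .nil)))) (.nd (nat_lit 9) 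
(.lf (nat_lit 574760) (.g (nat_lit 2079) (.e (nat_lit 491535) (nat_lit 2) (.e (nat_lit 90178) (nat_lit 15) (.e (nat_lit 188440) (nat_lit 20) (.e (nat_lit 3307) (nat_lit 202) (.e (nat_lit 573457) (nat_lit 9) .nil))))) (.g (nat_lit 0) (.e (nat_lit 362496) (nat_lit 0) .nil) .nil))) 
(.lf (nat_lit 575272) (.g (nat_lit 1099) (.e (nat_lit 499456) (nat_lit 3) (.e (nat_lit 98359) (nat_lit 26) (.e (nat_lit 426286) (nat_lit 10) (.e (nat_lit 434247) (nat_lit 28) .nil)))) (.g (nat_lit 0) (.e (nat_lit 363039) (nat_lit 0) .nil) .nil))))) (.nd (nat_lit 8) (.nd (nat_lit 9) 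
(.lf (nat_lit 574632) (.g (nat_lit 374) (.e (nat_lit 483411) (nat_lit 27) (.e (nat_lit 401444) (nat_lit 9) (.e (nat_lit 426503) (nat_lit 27) .nil))) (.g (nat_lit 0) (.e (nat_lit 361574) (nat_lit 0) .nil) .nil))) 
(.lf (nat_lit 575144) (.g (nat_lit 2377) (.e (nat_lit 491540) (nat_lit 3) (.e (nat_lit 98373) (nat_lit 29) (.e (nat_lit 450565) (nat_lit 0) (.e (nat_lit 3944) (nat_lit 239) .nil)))) (.g (nat_lit 0) (.e (nat_lit 362910) (nat_lit 0) .nil) .nil)))) (.nd (nat_lit 9) 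
(.lf (nat_lit 574888) (.g (nat_lit 5107) (.e (nat_lit 491537) (nat_lit 2) (.e (nat_lit 90170) (nat_lit 13) (.e (nat_lit 172113) (nat_lit 10) (.e (nat_lit 434248) (nat_lit 28) (.e (nat_lit 573470) (nat_lit 11) (.e (nat_lit 16470) (nat_lit 14) .nil)))))) (.g (nat_lit 1) (.e (nat_lit 362626) (nat_lit 0) .nil) .nil))) 
(.lf (nat_lit 575400) (.g (nat_lit 2596) (.e (nat_lit 491550) (nat_lit 9) (.e (nat_lit 336430) (nat_lit 29) (.e (nat_lit 442402) (nat_lit 20) (.e (nat_lit 3409) (nat_lit 212) (.e (nat_lit 655376) (nat_lit 4) (.e (nat_lit 172126) (nat_lit 14) .nil)))))) (.g (nat_lit 1) (.e (nat_lit 363258) (nat_lit 0) .nil) .nil)))))) (.nd (nat_lit 7) (.nd (nat_lit 8) (.nd (nat_lit 9) 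
(.lf (nat_lit 574568) (.g (nat_lit 998) (.e (nat_lit 483408) (nat_lit 26) (.e (nat_lit 385093) (nat_lit 49) (.e (nat_lit 778323) (nat_lit 5) (.e (nat_lit 81664) (nat_lit 32) .nil)))) (.g (nat_lit 0) (.e (nat_lit 361282) (nat_lit 0) .nil) .nil))) 
(.lf (nat_lit 575080) (.g (nat_lit 670) (.e (nat_lit 491540) (nat_lit 3) (.e (nat_lit 98370) (nat_lit 28) (.e (nat_lit 442402) (nat_lit 20) .nil))) (.g (nat_lit 0) (.e (nat_lit 362844) (nat_lit 0) .nil) .nil)))) (.nd (nat_lit 9) 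
(.lf (nat_lit 574824) (.g (nat_lit 4700) (.e (nat_lit 491537) (nat_lit 2) (.e (nat_lit 90170) (nat_lit 13) (.e (nat_lit 172106) (nat_lit 10) (.e (nat_lit 434231) (nat_lit 23) (.e (nat_lit 532482) (nat_lit 0) (.e (nat_lit 6696) (nat_lit 357) (.e (nat_lit 3099) (nat_lit 192) .nil))))))) (.g (nat_lit 1) (.e (nat_lit 362562) (nat_lit 0) .nil) .nil))) 
(.lf (nat_lit 575336) (.g (nat_lit 2496) (.e (nat_lit 491548) (nat_lit 9) (.e (nat_lit 336430) (nat_lit 29) (.e (nat_lit 442395) (nat_lit 20) (.e (nat_lit 3402) (nat_lit 211) (.e (nat_lit 647183) (nat_lit 4) (.e (nat_lit 172126) (nat_lit 14) .nil)))))) (.g (nat_lit 1) (.e (nat_lit 363142) (nat_lit 0) .nil) .nil))))) (.nd (nat_lit 8) (.nd (nat_lit 9) 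
(.lf (nat_lit 574696) (.g (nat_lit 2580) (.e (nat_lit 491520) (nat_lit 0) (.e (nat_lit 1788) (nat_lit 119) (.e (nat_lit 516151) (nat_lit 9) (.e (nat_lit 426275) (nat_lit 10) .nil)))) (.g (nat_lit 0) (.e (nat_lit 362408) (nat_lit 0) .nil) .nil))) 
(.lf (nat_lit 575208) (.g (nat_lit 2165) (.e (nat_lit 491540) (nat_lit 3) (.e (nat_lit 98373) (nat_lit 29) (.e (nat_lit 450587) (nat_lit 10) (.e (nat_lit 573452) (nat_lit 9) .nil)))) (.g (nat_lit 0) (.e (nat_lit 362975) (nat_lit 0) .nil) .nil)))) (.nd (nat_lit 9) 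
(.lf (nat_lit 574952) (.g (nat_lit 2122) (.e (nat_lit 491538) (nat_lit 3) (.e (nat_lit 98373) (nat_lit 29) (.e (nat_lit 450585) (nat_lit 10) (.e (nat_lit 573471) (nat_lit 11) .nil)))) (.g (nat_lit 0) (.e (nat_lit 362696) (nat_lit 0) .nil) .nil))) 
(.lf (nat_lit 575464) (.g (nat_lit 1812) (.e (nat_lit 491559) (nat_lit 10) (.e (nat_lit 344126) (nat_lit 25) (.e (nat_lit 548891) (nat_lit 11) (.e (nat_lit 81960) (nat_lit 25) .nil)))) (.g (nat_lit 0) (.e (nat_lit 363337) (nat_lit 0) .nil) .nil)))))))) (.nd (nat_lit 5) (.nd (nat_lit 6) (.nd (nat_lit 7) (.nd (nat_lit 8) (.nd (nat_lit 9) 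
(.lf (nat_lit 574488) (.g (nat_lit 2862) (.e (nat_lit 483406) (nat_lit 26) (.e (nat_lit 385065) (nat_lit 26) (.e (nat_lit 532500) (nat_lit 1) (.e (nat_lit 57852) (nat_lit 252) (.e (nat_lit 57408) (nat_lit 12) .nil))))) (.g (nat_lit 0) (.e (nat_lit 360998) (nat_lit 0) .nil) .nil))) 
(.lf (nat_lit 575000) (.g (nat_lit 2670) (.e (nat_lit 491539) (nat_lit 3) (.e (nat_lit 98373) (nat_lit 29) (.e (nat_lit 450585) (nat_lit 10) (.e (nat_lit 573457) (nat_lit 9) .nil)))) (.g (nat_lit 0) (.e (nat_lit 362748) (nat_lit 0) .nil) .nil)))) (.nd (nat_lit 9) 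
(.lf (nat_lit 574744) (.g (nat_lit 1144) (.e (nat_lit 491535) (nat_lit 2) (.e (nat_lit 90170) (nat_lit 13) (.e (nat_lit 172113) (nat_lit 10) (.e (nat_lit 434248) (nat_lit 28) .nil)))) (.g (nat_lit 0) (.e (nat_lit 362480) (nat_lit 0) .nil) .nil))) 
(.lf (nat_lit 575256) (.g (nat_lit 3965) (.e (nat_lit 491540) (nat_lit 3) (.e (nat_lit 98373) (nat_lit 29) (.e (nat_lit 450588) (nat_lit 10) (.e (nat_lit 573458) (nat_lit 9) (.e (nat_lit 7936) (nat_lit 32) .nil))))) (.g (nat_lit 0) (.e (nat_lit 363023) (nat_lit 0) .nil) .nil))))) (.nd (nat_lit 8) (.nd (nat_lit 9) 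
(.lf (nat_lit 574616) (.g (nat_lit 3086) (.e (nat_lit 483410) (nat_lit 27) (.e (nat_lit 401458) (nat_lit 13) (.e (nat_lit 483409) (nat_lit 27) (.e (nat_lit 401459) (nat_lit 13) .nil)))) (.g (nat_lit 1) (.e (nat_lit 361521) (nat_lit 0) .nil) .nil))) 
(.lf (nat_lit 575128) (.g (nat_lit 3122) (.e (nat_lit 491540) (nat_lit 3) (.e (nat_lit 98373) (nat_lit 29) (.e (nat_lit 450562) (nat_lit 0) (.e (nat_lit 3967) (nat_lit 239) .nil)))) (.g (nat_lit 0) (.e (nat_lit 362893) (nat_lit 0) .nil) .nil)))) (.nd (nat_lit 9) 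
(.lf (nat_lit 574872) (.g (nat_lit 4888) (.e (nat_lit 491537) (nat_lit 2) (.e (nat_lit 90170) (nat_lit 13) (.e (nat_lit 172113) (nat_lit 10) (.e (nat_lit 434245) (nat_lit 28) (.e (nat_lit 573470) (nat_lit 11) (.e (nat_lit 16470) (nat_lit 14) .nil)))))) (.g (nat_lit 1) (.e (nat_lit 362610) (nat_lit 0) .nil) .nil))) 
(.lf (nat_lit 575384) (.g (nat_lit 2130) (.e (nat_lit 491550) (nat_lit 9) (.e (nat_lit 336395) (nat_lit 27) (.e (nat_lit 426340) (nat_lit 14) (.e (nat_lit 491550) (nat_lit 9) (.e (nat_lit 336395) (nat_lit 27) (.e (nat_lit 426340) (nat_lit 14) .nil)))))) (.g (nat_lit 1) (.e (nat_lit 363241) (nat_lit 0) .nil) .nil)))))) (.nd (nat_lit 7) (.nd (nat_lit 8) (.nd (nat_lit 9) 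
(.lf (nat_lit 574552) (.g (nat_lit 1571) (.e (nat_lit 483408) (nat_lit 26) (.e (nat_lit 385068) (nat_lit 26) (.e (nat_lit 532501) (nat_lit 1) (.e (nat_lit 57832) (nat_lit 250) .nil)))) (.g (nat_lit 0) (.e (nat_lit 361199) (nat_lit 0) .nil) .nil))) 
(.lf (nat_lit 575064) (.g (nat_lit 1195) (.e (nat_lit 491540) (nat_lit 3) (.e (nat_lit 98358) (nat_lit 26) (.e (nat_lit 425988) (nat_lit 0) (.e (nat_lit 7544) (nat_lit 402) .nil)))) (.g (nat_lit 0) (.e (nat_lit 362820) (nat_lit 0) .nil) .nil)))) (.nd (nat_lit 9) 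
(.lf (nat_lit 574808) (.g (nat_lit 3323) (.e (nat_lit 491537) (nat_lit 2) (.e (nat_lit 90170) (nat_lit 13) (.e (nat_lit 172079) (nat_lit 7) (.e (nat_lit 409631) (nat_lit 12) (.e (nat_lit 32806) (nat_lit 18) (.e (nat_lit 172126) (nat_lit 14) .nil)))))) (.g (nat_lit 1) (.e (nat_lit 362546) (nat_lit 0) .nil) .nil))) 
(.lf (nat_lit 575320) (.g (nat_lit 1744) (.e (nat_lit 491547) (nat_lit 9) (.e (nat_lit 336443) (nat_lit 32) (.e (nat_lit 466969) (nat_lit 21) (.e (nat_lit 164345) (nat_lit 240) (.e (nat_lit 2618) (nat_lit 164) .nil))))) (.g (nat_lit 0) (.e (nat_lit 363114) (nat_lit 0) .nil) .nil))))) (.nd (nat_lit 8) (.nd (nat_lit 9) 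
(.lf (nat_lit 574680) (.g (nat_lit 1744) (.e (nat_lit 491264) (nat_lit 27) (.e (nat_lit 401437) (nat_lit 9) (.e (nat_lit 426533) (nat_lit 28) (.e (nat_lit 344068) (nat_lit 0) (.e (nat_lit 3088) (nat_lit 191) .nil))))) (.g (nat_lit 0) (.e (nat_lit 362391) (nat_lit 0) .nil) .nil))) 
(.lf (nat_lit 575192) (.g (nat_lit 2261) (.e (nat_lit 491540) (nat_lit 3) (.e (nat_lit 98373) (nat_lit 29) (.e (nat_lit 450586) (nat_lit 10) (.e (nat_lit 581376) (nat_lit 9) .nil)))) (.g (nat_lit 0) (.e (nat_lit 362959) (nat_lit 0) .nil) .nil)))) (.nd (nat_lit 9) 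
(.lf (nat_lit 574936) (.g (nat_lit 1821) (.e (nat_lit 491538) (nat_lit 3) (.e (nat_lit 98359) (nat_lit 26) (.e (nat_lit 426286) (nat_lit 10) (.e (nat_lit 434245) (nat_lit 28) (.e (nat_lit 573470) (nat_lit 11) .nil))))) (.g (nat_lit 0) (.e (nat_lit 362679) (nat_lit 0) .nil) .nil))) 
(.lf (nat_lit 575448) (.g (nat_lit 1264) (.e (nat_lit 491558) (nat_lit 10) (.e (nat_lit 344129) (nat_lit 26) (.e (nat_lit 557087) (nat_lit 11) (.e (nat_lit 24638) (nat_lit 9) .nil)))) (.g (nat_lit 0) (.e (nat_lit 363321) (nat_lit 0) .nil) .nil))))))) (.nd (nat_lit 6) (.nd (nat_lit 7) (.nd (nat_lit 8) (.nd (nat_lit 9) 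
(.lf (nat_lit 574520) (.g (nat_lit 2083) (.e (nat_lit 483407) (nat_lit 26) (.e (nat_lit 385066) (nat_lit 26) (.e (nat_lit 532499) (nat_lit 1) (.e (nat_lit 57848) (nat_lit 252) .nil)))) (.g (nat_lit 0) (.e (nat_lit 361084) (nat_lit 0) .nil) .nil))) 
(.lf (nat_lit 575032) (.g (nat_lit 4197) (.e (nat_lit 491539) (nat_lit 3) (.e (nat_lit 98373) (nat_lit 29) (.e (nat_lit 450588) (nat_lit 10) (.e (nat_lit 573449) (nat_lit 9) .nil)))) (.g (nat_lit 0) (.e (nat_lit 362780) (nat_lit 0) .nil) .nil)))) (.nd (nat_lit 9) 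
(.lf (nat_lit 574776) (.g (nat_lit 1210) (.e (nat_lit 491536) (nat_lit 2) (.e (nat_lit 90170) (nat_lit 13) (.e (nat_lit 172113) (nat_lit 10) (.e (nat_lit 434245) (nat_lit 28) .nil)))) (.g (nat_lit 0) (.e (nat_lit 362512) (nat_lit 0) .nil) .nil))) 
(.lf (nat_lit 575288) (.g (nat_lit 3146) (.e (nat_lit 499456) (nat_lit 3) (.e (nat_lit 98373) (nat_lit 29) (.e (nat_lit 450588) (nat_lit 10) (.e (nat_lit 573457) (nat_lit 9) .nil)))) (.g (nat_lit 0) (.e (nat_lit 363055) (nat_lit 0) .nil) .nil))))) (.nd (nat_lit 8) (.nd (nat_lit 9) 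
(.lf (nat_lit 574648) (.g (nat_lit 3166) (.e (nat_lit 483412) (nat_lit 27) (.e (nat_lit 401448) (nat_lit 10) (.e (nat_lit 434291) (nat_lit 44) (.e (nat_lit 704738) (nat_lit 11) (.e (nat_lit 16463) (nat_lit 13) .nil))))) (.g (nat_lit 1) (.e (nat_lit 361902) (nat_lit 0) .nil) .nil))) 
(.lf (nat_lit 575160) (.g (nat_lit 3417) (.e (nat_lit 491540) (nat_lit 3) (.e (nat_lit 98373) (nat_lit 29) (.e (nat_lit 450583) (nat_lit 7) (.e (nat_lit 548898) (nat_lit 14) (.e (nat_lit 2842) (nat_lit 184) .nil))))) (.g (nat_lit 0) (.e (nat_lit 362927) (nat_lit 0) .nil) .nil)))) (.nd (nat_lit 9) 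
(.lf (nat_lit 574904) (.g (nat_lit 2729) (.e (nat_lit 491537) (nat_lit 2) (.e (nat_lit 90170) (nat_lit 13) (.e (nat_lit 172120) (nat_lit 12) (.e (nat_lit 475185) (nat_lit 29) (.e (nat_lit 564992) (nat_lit 13) .nil))))) (.g (nat_lit 0) (.e (nat_lit 362642) (nat_lit 0) .nil) .nil))) 
(.lf (nat_lit 575416) (.g (nat_lit 2105) (.e (nat_lit 491550) (nat_lit 9) (.e (nat_lit 336443) (nat_lit 32) (.e (nat_lit 466969) (nat_lit 21) (.e (nat_lit 164348) (nat_lit 240) (.e (nat_lit 2618) (nat_lit 164) .nil))))) (.g (nat_lit 0) (.e (nat_lit 363282) (nat_lit 0) .nil) .nil)))))) (.nd (nat_lit 7) (.nd (nat_lit 8) (.nd (nat_lit 9) 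
(.lf (nat_lit 574584) (.g (nat_lit 831) (.e (nat_lit 483409) (nat_lit 27) (.e (nat_lit 401459) (nat_lit 13) (.e (nat_lit 483343) (nat_lit 17) .nil))) (.g (nat_lit 0) (.e (nat_lit 361384) (nat_lit 0) .nil) .nil))) 
(.lf (nat_lit 575096) (.g (nat_lit 2337) (.e (nat_lit 491540) (nat_lit 3) (.e (nat_lit 98372) (nat_lit 29) (.e (nat_lit 450586) (nat_lit 10) (.e (nat_lit 573457) (nat_lit 9) (.e (nat_lit 430) (nat_lit 32) (.e (nat_lit 426341) (nat_lit 14) .nil)))))) (.g (nat_lit 1) (.e (nat_lit 362861) (nat_lit 0) .nil) .nil)))) (.nd (nat_lit 9) 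
(.lf (nat_lit 574840) (.g (nat_lit 3847) (.e (nat_lit 491537) (nat_lit 2) (.e (nat_lit 90170) (nat_lit 13) (.e (nat_lit 172106) (nat_lit 10) (.e (nat_lit 434238) (nat_lit 25) (.e (nat_lit 548911) (nat_lit 18) (.e (nat_lit 172126) (nat_lit 14) .nil)))))) (.g (nat_lit 1) (.e (nat_lit 362578) (nat_lit 0) .nil) .nil))) 
(.lf (nat_lit 575352) (.g (nat_lit 1702) (.e (nat_lit 491549) (nat_lit 9) (.e (nat_lit 336421) (nat_lit 28) (.e (nat_lit 434186) (nat_lit 13) (.e (nat_lit 2789) (nat_lit 179) (.e (nat_lit 294969) (nat_lit 27) (.e (nat_lit 426340) (nat_lit 14) .nil)))))) (.g (nat_lit 1) (.e (nat_lit 363192) (nat_lit 0) .nil) .nil))))) (.nd (nat_lit 8) (.nd (nat_lit 9) 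
(.lf (nat_lit 574712) (.g (nat_lit 4411) (.e (nat_lit 491520) (nat_lit 0) (.e (nat_lit 1794) (nat_lit 119) (.e (nat_lit 516166) (nat_lit 12) (.e (nat_lit 450587) (nat_lit 10) (.e (nat_lit 573469) (nat_lit 11) .nil))))) (.g (nat_lit 0) (.e (nat_lit 362424) (nat_lit 0) .nil) .nil))) 
(.lf (nat_lit 575224) (.g (nat_lit 4612) (.e (nat_lit 491540) (nat_lit 3) (.e (nat_lit 98373) (nat_lit 29) (.e (nat_lit 450587) (nat_lit 10) (.e (nat_lit 573464) (nat_lit 9) .nil)))) (.g (nat_lit 0) (.e (nat_lit 362991) (nat_lit 0) .nil) .nil)))) (.nd (nat_lit 9) 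
(.lf (nat_lit 574968) (.g (nat_lit 1025) (.e (nat_lit 491538) (nat_lit 3) (.e (nat_lit 98384) (nat_lit 32) (.e (nat_lit 483072) (nat_lit 51) .nil))) (.g (nat_lit 0) (.e (nat_lit 362712) (nat_lit 0) .nil) .nil))) 
(.lf (nat_lit 575480) (.g (nat_lit 2445) (.e (nat_lit 491560) (nat_lit 10) (.e (nat_lit 344118) (nat_lit 21) (.e (nat_lit 516185) (nat_lit 16) (.e (nat_lit 491560) (nat_lit 10) (.e (nat_lit 344118) (nat_lit 21) .nil))))) (.g (nat_lit 0) (.e (nat_lit 363354) (nat_lit 0) .nil) .nil)))))))))) 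
(.nd (nat_lit 3) (.nd (nat_lit 4) (.nd (nat_lit 5) (.nd (nat_lit 6) (.nd (nat_lit 7) 
(.nd (nat_lit 8) (.nd (nat_lit 9) 
(.lf (nat_lit 574468) (.g (nat_lit 1623) (.e (nat_lit 483405) (nat_lit 26) (.e (nat_lit 385068) (nat_lit 26) (.e (nat_lit 532501) (nat_lit 1) (.e (nat_lit 57830) (nat_lit 250) .nil)))) (.g (nat_lit 0) (.e (nat_lit 360877) (nat_lit 0) .nil) .nil))) 
(.lf (nat_lit 574980) (.g (nat_lit 2546) (.e (nat_lit 491539) (nat_lit 3) (.e (nat_lit 98372) (nat_lit 29) (.e (nat_lit 450588) (nat_lit 10) (.e (nat_lit 573457) (nat_lit 9) .nil)))) (.g (nat_lit 0) (.e (nat_lit 362728) (nat_lit 0) .nil) .nil)))) (.nd (nat_lit 9) 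
(.lf (nat_lit 574724) (.g (nat_lit 3925) (.e (nat_lit 491526) (nat_lit 0) (.e (nat_lit 1788) (nat_lit 119) (.e (nat_lit 516151) (nat_lit 9) (.e (nat_lit 426285) (nat_lit 10) (.e (nat_lit 434248) (nat_lit 28) .nil))))) (.g (nat_lit 0) (.e (nat_lit 362439) (nat_lit 0) .nil) .nil))) 
(.lf (nat_lit 575236) (.g (nat_lit 2991) (.e (nat_lit 491540) (nat_lit 3) (.e (nat_lit 98373) (nat_lit 29) (.e (nat_lit 450588) (nat_lit 10) (.e (nat_lit 573451) (nat_lit 9) (.e (nat_lit 437) (nat_lit 32) .nil))))) (.g (nat_lit 0) (.e (nat_lit 363003) (nat_lit 0) .nil) .nil))))) (.nd (nat_lit 8) (.nd (nat_lit 9) 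
(.lf (nat_lit 574596) (.g (nat_lit 2510) (.e (nat_lit 483409) (nat_lit 27) (.e (nat_lit 401459) (nat_lit 13) (.e (nat_lit 483411) (nat_lit 27) (.e (nat_lit 401455) (nat_lit 13) .nil)))) (.g (nat_lit 1) (.e (nat_lit 361414) (nat_lit 0) .nil) .nil))) 
(.lf (nat_lit 575108) (.g (nat_lit 4137) (.e (nat_lit 491540) (nat_lit 3) (.e (nat_lit 98372) (nat_lit 29) (.e (nat_lit 450588) (nat_lit 10) (.e (nat_lit 573469) (nat_lit 11) (.e (nat_lit 16470) (nat_lit 14) .nil))))) (.g (nat_lit 0) (.e (nat_lit 362873) (nat_lit 0) .nil) .nil)))) (.nd (nat_lit 9) 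
(.lf (nat_lit 574852) (.g (nat_lit 1359) (.e (nat_lit 491537) (nat_lit 2) (.e (nat_lit 90170) (nat_lit 13) (.e (nat_lit 172113) (nat_lit 10) (.e (nat_lit 434199) (nat_lit 18) (.e (nat_lit 3969) (nat_lit 239) .nil))))) (.g (nat_lit 0) (.e (nat_lit 362590) (nat_lit 0) .nil) .nil))) 
(.lf (nat_lit 575364) (.g (nat_lit 3666) (.e (nat_lit 491549) (nat_lit 9) (.e (nat_lit 336434) (nat_lit 30) (.e (nat_lit 450593) (nat_lit 16) (.e (nat_lit 655378) (nat_lit 4) (.e (nat_lit 172126) (nat_lit 14) .nil))))) (.g (nat_lit 1) (.e (nat_lit 363205) (nat_lit 0) .nil) .nil)))))) (.nd (nat_lit 7) (.nd (nat_lit 8) (.nd (nat_lit 9) 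
(.lf (nat_lit 574532) (.g (nat_lit 2454) (.e (nat_lit 483407) (nat_lit 26) (.e (nat_lit 385068) (nat_lit 26) (.e (nat_lit 532503) (nat_lit 1) (.e (nat_lit 57849) (nat_lit 252) (.e (nat_lit 57411) (nat_lit 12) .nil))))) (.g (nat_lit 0) (.e (nat_lit 361103) (nat_lit 0) .nil) .nil))) 
(.lf (nat_lit 575044) (.g (nat_lit 5138) (.e (nat_lit 491539) (nat_lit 3) (.e (nat_lit 98373) (nat_lit 29) (.e (nat_lit 450588) (nat_lit 10) (.e (nat_lit 573454) (nat_lit 9) (.e (nat_lit 397) (nat_lit 32) .nil))))) (.g (nat_lit 0) (.e (nat_lit 362792) (nat_lit 0) .nil) .nil)))) (.nd (nat_lit 9) 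
(.lf (nat_lit 574788) (.g (nat_lit 1450) (.e (nat_lit 491536) (nat_lit 2) (.e (nat_lit 90170) (nat_lit 13) (.e (nat_lit 172124) (nat_lit 14) (.e (nat_lit 491540) (nat_lit 3) .nil)))) (.g (nat_lit 0) (.e (nat_lit 362524) (nat_lit 0) .nil) .nil))) 
(.lf (nat_lit 575300) (.g (nat_lit 1539) (.e (nat_lit 491546) (nat_lit 9) (.e (nat_lit 336028) (nat_lit 3) (.e (nat_lit 98319) (nat_lit 17) (.e (nat_lit 7593) (nat_lit 407) (.e (nat_lit 73746) (nat_lit 3) .nil))))) (.g (nat_lit 0) (.e (nat_lit 363074) (nat_lit 0) .nil) .nil))))) (.nd (nat_lit 8) (.nd (nat_lit 9) 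
(.lf (nat_lit 574660) (.g (nat_lit 560) (.e (nat_lit 483413) (nat_lit 27) (.e (nat_lit 401446) (nat_lit 10) (.e (nat_lit 434201) (nat_lit 18) .nil))) (.g (nat_lit 0) (.e (nat_lit 362043) (nat_lit 0) .nil) .nil))) 
(.lf (nat_lit 575172) (.g (nat_lit 2410) (.e (nat_lit 491540) (nat_lit 3) (.e (nat_lit 98373) (nat_lit 29) (.e (nat_lit 450585) (nat_lit 10) (.e (nat_lit 573457) (nat_lit 9) .nil)))) (.g (nat_lit 0) (.e (nat_lit 362939) (nat_lit 0) .nil) .nil)))) (.nd (nat_lit 9) 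
(.lf (nat_lit 574916) (.g (nat_lit 2725) (.e (nat_lit 491537) (nat_lit 2) (.e (nat_lit 90176) (nat_lit 15) (.e (nat_lit 188452) (nat_lit 23) (.e (nat_lit 204816) (nat_lit 17) .nil)))) (.g (nat_lit 0) (.e (nat_lit 362655) (nat_lit 0) .nil) .nil))) 
(.lf (nat_lit 575428) (.g (nat_lit 2459) (.e (nat_lit 491556) (nat_lit 9) (.e (nat_lit 336051) (nat_lit 6) (.e (nat_lit 147496) (nat_lit 11) (.e (nat_lit 24625) (nat_lit 9) (.e (nat_lit 336367) (nat_lit 27) (.e (nat_lit 426348) (nat_lit 14) .nil)))))) (.g (nat_lit 1) (.e (nat_lit 363299) (nat_lit 0) .nil) .nil))))))) (.nd (nat_lit 6) (.nd (nat_lit 7) (.nd (nat_lit 8) (.nd (nat_lit 9) 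
(.lf (nat_lit 574500) (.g (nat_lit 2523) (.e (nat_lit 483406) (nat_lit 26) (.e (nat_lit 385068) (nat_lit 26) (.e (nat_lit 532501) (nat_lit 1) (.e (nat_lit 57853) (nat_lit 252) (.e (nat_lit 57408) (nat_lit 12) .nil))))) (.g (nat_lit 0) (.e (nat_lit 361032) (nat_lit 0) .nil) .nil))) 
(.lf (nat_lit 575012) (.g (nat_lit 2441) (.e (nat_lit 491539) (nat_lit 3) (.e (nat_lit 98373) (nat_lit 29) (.e (nat_lit 450586) (nat_lit 10) (.e (nat_lit 581376) (nat_lit 11) .nil)))) (.g (nat_lit 0) (.e (nat_lit 362760) (nat_lit 0) .nil) .nil)))) (.nd (nat_lit 9) 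
(.lf (nat_lit 574756) (.g (nat_lit 3604) (.e (nat_lit 491535) (nat_lit 2) (.e (nat_lit 90176) (nat_lit 15) (.e (nat_lit 188452) (nat_lit 23) (.e (nat_lit 204885) (nat_lit 33) (.e (nat_lit 401460) (nat_lit 14) .nil))))) (.g (nat_lit 0) (.e (nat_lit 362492) (nat_lit 0) .nil) .nil))) 
(.lf (nat_lit 575268) (.g (nat_lit 2962) (.e (nat_lit 491540) (nat_lit 3) (.e (nat_lit 98374) (nat_lit 29) (.e (nat_lit 450583) (nat_lit 7) (.e (nat_lit 548913) (nat_lit 18) (.e (nat_lit 172126) (nat_lit 14) .nil))))) (.g (nat_lit 1) (.e (nat_lit 363035) (nat_lit 0) .nil) .nil))))) (.nd (nat_lit 8) (.nd (nat_lit 9) 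
(.lf (nat_lit 574628) (.g (nat_lit 792) (.e (nat_lit 483411) (nat_lit 27) (.e (nat_lit 401437) (nat_lit 9) (.e (nat_lit 426479) (nat_lit 27) .nil))) (.g (nat_lit 0) (.e (nat_lit 361563) (nat_lit 0) .nil) .nil))) 
(.lf (nat_lit 575140) (.g (nat_lit 3193) (.e (nat_lit 491540) (nat_lit 3) (.e (nat_lit 98373) (nat_lit 29) (.e (nat_lit 450563) (nat_lit 0) (.e (nat_lit 7936) (nat_lit 243) .nil)))) (.g (nat_lit 0) (.e (nat_lit 362905) (nat_lit 0) .nil) .nil)))) (.nd (nat_lit 9) 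
(.lf (nat_lit 574884) (.g (nat_lit 2523) (.e (nat_lit 491537) (nat_lit 2) (.e (nat_lit 90170) (nat_lit 13) (.e (nat_lit 172113) (nat_lit 10) (.e (nat_lit 434248) (nat_lit 28) (.e (nat_lit 573456) (nat_lit 9) .nil))))) (.g (nat_lit 0) (.e (nat_lit 362622) (nat_lit 0) .nil) .nil))) 
(.lf (nat_lit 575396) (.g (nat_lit 1944) (.e (nat_lit 491550) (nat_lit 9) (.e (nat_lit 336421) (nat_lit 28) (.e (nat_lit 434198) (nat_lit 17) (.e (nat_lit 229644) (nat_lit 232) (.e (nat_lit 404) (nat_lit 32) (.e (nat_lit 426340) (nat_lit 14) .nil)))))) (.g (nat_lit 1) (.e (nat_lit 363253) (nat_lit 0) .nil) .nil)))))) (.nd (nat_lit 7) (.nd (nat_lit 8) (.nd (nat_lit 9) 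
(.lf (nat_lit 574564) (.g (nat_lit 2046) (.e (nat_lit 483408) (nat_lit 26) (.e (nat_lit 385091) (nat_lit 49) (.e (nat_lit 778324) (nat_lit 5) (.e (nat_lit 73781) (nat_lit 32) (.e (nat_lit 3088) (nat_lit 191) .nil))))) (.g (nat_lit 1) (.e (nat_lit 361270) (nat_lit 0) .nil) .nil))) 
(.lf (nat_lit 575076) (.g (nat_lit 688) (.e (nat_lit 491540) (nat_lit 3) (.e (nat_lit 98367) (nat_lit 27) (.e (nat_lit 434192) (nat_lit 13) (.e (nat_lit 2569) (nat_lit 160) .nil)))) (.g (nat_lit 0) (.e (nat_lit 362837) (nat_lit 0) .nil) .nil)))) (.nd (nat_lit 9) 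
(.lf (nat_lit 574820) (.g (nat_lit 4449) (.e (nat_lit 491537) (nat_lit 2) (.e (nat_lit 90170) (nat_lit 13) (.e (nat_lit 172106) (nat_lit 10) (.e (nat_lit 434231) (nat_lit 23) (.e (nat_lit 532481) (nat_lit 0) (.e (nat_lit 6691) (nat_lit 357) (.e (nat_lit 3099) (nat_lit 192) .nil))))))) (.g (nat_lit 1) (.e (nat_lit 362558) (nat_lit 0) .nil) .nil))) 
(.lf (nat_lit 575332) (.g (nat_lit 1755) (.e (nat_lit 491548) (nat_lit 9) (.e (nat_lit 336369) (nat_lit 27) (.e (nat_lit 426173) (nat_lit 7) (.e (nat_lit 409617) (nat_lit 10) (.e (nat_lit 7936) (nat_lit 300) .nil))))) (.g (nat_lit 0) (.e (nat_lit 363132) (nat_lit 0) .nil) .nil))))) (.nd (nat_lit 8) (.nd (nat_lit 9) 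
(.lf (nat_lit 574692) (.g (nat_lit 1022) (.e (nat_lit 491264) (nat_lit 27) (.e (nat_lit 401458) (nat_lit 13) (.e (nat_lit 483350) (nat_lit 17) (.e (nat_lit 7936) (nat_lit 357) .nil)))) (.g (nat_lit 0) (.e (nat_lit 362404) (nat_lit 0) .nil) .nil))) 
(.lf (nat_lit 575204) (.g (nat_lit 3615) (.e (nat_lit 491540) (nat_lit 3) (.e (nat_lit 98373) (nat_lit 29) (.e (nat_lit 450587) (nat_lit 10) (.e (nat_lit 573449) (nat_lit 9) (.e (nat_lit 7936) (nat_lit 32) (.e (nat_lit 426340) (nat_lit 14) .nil)))))) (.g (nat_lit 1) (.e (nat_lit 362971) (nat_lit 0) .nil) .nil)))) (.nd (nat_lit 9) 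
(.lf (nat_lit 574948) (.g (nat_lit 2022) (.e (nat_lit 491538) (nat_lit 3) (.e (nat_lit 98372) (nat_lit 29) (.e (nat_lit 450588) (nat_lit 10) (.e (nat_lit 573470) (nat_lit 11) .nil)))) (.g (nat_lit 0) (.e (nat_lit 362692) (nat_lit 0) .nil) .nil))) 
(.lf (nat_lit 575460) (.g (nat_lit 927) (.e (nat_lit 491559) (nat_lit 10) (.e (nat_lit 344096) (nat_lit 18) (.e (nat_lit 7464) (nat_lit 396) (.e (nat_lit 2555) (nat_lit 159) .nil)))) (.g (nat_lit 0) (.e (nat_lit 363333) (nat_lit 0) .nil) .nil)))))))) (.nd (nat_lit 5) (.nd (nat_lit 6) (.nd (nat_lit 7) (.nd (nat_lit 8) (.nd (nat_lit 9) 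
(.lf (nat_lit 574484) (.g (nat_lit 1063) (.e (nat_lit 483405) (nat_lit 26) (.e (nat_lit 385109) (nat_lit 51) (.e (nat_lit 794645) (nat_lit 20) .nil))) (.g (nat_lit 0) (.e (nat_lit 360960) (nat_lit 0) .nil) .nil))) 
(.lf (nat_lit 574996) (.g (nat_lit 385) (.e (nat_lit 491539) (nat_lit 3) (.e (nat_lit 98373) (nat_lit 29) (.e (nat_lit 450585) (nat_lit 10) .nil))) (.g (nat_lit 0) (.e (nat_lit 362744) (nat_lit 0) .nil) .nil)))) (.nd (nat_lit 9) 
(.lf (nat_lit 574740) (.g (nat_lit 1034) (.e (nat_lit 491535) (nat_lit 2) (.e (nat_lit 90170) (nat_lit 13) (.e (nat_lit 172113) (nat_lit 10) (.e (nat_lit 434242) (nat_lit 28) .nil)))) (.g (nat_lit 0) (.e (nat_lit 362476) (nat_lit 0) .nil) .nil))) 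
(.lf (nat_lit 575252) (.g (nat_lit 5683) (.e (nat_lit 491540) (nat_lit 3) (.e (nat_lit 98373) (nat_lit 29) (.e (nat_lit 450588) (nat_lit 10) (.e (nat_lit 573456) (nat_lit 9) .nil)))) (.g (nat_lit 0) (.e (nat_lit 363019) (nat_lit 0) .nil) .nil))))) (.nd (nat_lit 8) (.nd (nat_lit 9) 
(.lf (nat_lit 574612) (.g (nat_lit 1138) (.e (nat_lit 483410) (nat_lit 27) (.e (nat_lit 401448) (nat_lit 10) (.e (nat_lit 434291) (nat_lit 44) (.e (nat_lit 704735) (nat_lit 11) .nil)))) (.g (nat_lit 0) (.e (nat_lit 361474) (nat_lit 0) .nil) .nil))) 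
(.lf (nat_lit 575124) (.g (nat_lit 3025) (.e (nat_lit 491540) (nat_lit 3) (.e (nat_lit 98373) (nat_lit 29) (.e (nat_lit 450562) (nat_lit 0) (.e (nat_lit 3953) (nat_lit 239) .nil)))) (.g (nat_lit 0) (.e (nat_lit 362889) (nat_lit 0) .nil) .nil)))) (.nd (nat_lit 9) 
(.lf (nat_lit 574868) (.g (nat_lit 3984) (.e (nat_lit 491537) (nat_lit 2) (.e (nat_lit 90170) (nat_lit 13) (.e (nat_lit 172113) (nat_lit 10) (.e (nat_lit 434245) (nat_lit 28) (.e (nat_lit 573450) (nat_lit 9) (.e (nat_lit 433) (nat_lit 32) (.e (nat_lit 426347) (nat_lit 14) .nil))))))) (.g (nat_lit 1) (.e (nat_lit 362606) (nat_lit 0) .nil) .nil))) 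
(.lf (nat_lit 575380) (.g (nat_lit 916) (.e (nat_lit 491550) (nat_lit 9) (.e (nat_lit 336369) (nat_lit 27) (.e (nat_lit 426291) (nat_lit 10) (.e (nat_lit 434272) (nat_lit 38) .nil)))) (.g (nat_lit 0) (.e (nat_lit 363236) (nat_lit 0) .nil) .nil)))))) (.nd (nat_lit 7) (.nd (nat_lit 8) (.nd (nat_lit 9) 
(.lf (nat_lit 574548) (.g (nat_lit 848) (.e (nat_lit 483408) (nat_lit 26) (.e (nat_lit 385067) (nat_lit 26) (.e (nat_lit 532504) (nat_lit 1) (.e (nat_lit 57829) (nat_lit 250) .nil)))) (.g (nat_lit 0) (.e (nat_lit 361185) (nat_lit 0) .nil) .nil))) 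
(.lf (nat_lit 575060) (.g (nat_lit 2032) (.e (nat_lit 491540) (nat_lit 3) (.e (nat_lit 98349) (nat_lit 24) (.e (nat_lit 409602) (nat_lit 0) (.e (nat_lit 5245) (nat_lit 298) .nil)))) (.g (nat_lit 0) (.e (nat_lit 362816) (nat_lit 0) .nil) .nil)))) (.nd (nat_lit 9) 
(.lf (nat_lit 574804) (.g (nat_lit 1150) (.e (nat_lit 491536) (nat_lit 2) (.e (nat_lit 90178) (nat_lit 15) (.e (nat_lit 188441) (nat_lit 20) (.e (nat_lit 3308) (nat_lit 202) .nil)))) (.g (nat_lit 0) (.e (nat_lit 362540) (nat_lit 0) .nil) .nil))) 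
(.lf (nat_lit 575316) (.g (nat_lit 678) (.e (nat_lit 491547) (nat_lit 9) (.e (nat_lit 336430) (nat_lit 29) (.e (nat_lit 442403) (nat_lit 20) .nil))) (.g (nat_lit 0) (.e (nat_lit 363106) (nat_lit 0) .nil) .nil))))) (.nd (nat_lit 8) (.nd (nat_lit 9) 
(.lf (nat_lit 574676) (.g (nat_lit 696) (.e (nat_lit 483413) (nat_lit 27) (.e (nat_lit 401448) (nat_lit 10) (.e (nat_lit 434204) (nat_lit 18) .nil))) (.g (nat_lit 0) (.e (nat_lit 362232) (nat_lit 0) .nil) .nil))) 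
(.lf (nat_lit 575188) (.g (nat_lit 2705) (.e (nat_lit 491540) (nat_lit 3) (.e (nat_lit 98373) (nat_lit 29) (.e (nat_lit 450586) (nat_lit 10) (.e (nat_lit 573456) (nat_lit 9) (.e (nat_lit 430) (nat_lit 32) .nil))))) (.g (nat_lit 0) (.e (nat_lit 362955) (nat_lit 0) .nil) .nil)))) (.nd (nat_lit 9) 
(.lf (nat_lit 574932) (.g (nat_lit 1151) (.e (nat_lit 491538) (nat_lit 3) (.e (nat_lit 98333) (nat_lit 18) (.e (nat_lit 164226) (nat_lit 181) .nil))) (.g (nat_lit 0) (.e (nat_lit 362673) (nat_lit 0) .nil) .nil))) 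
(.lf (nat_lit 575444) (.g (nat_lit 1248) (.e (nat_lit 491558) (nat_lit 10) (.e (nat_lit 344117) (nat_lit 21) (.e (nat_lit 516106) (nat_lit 0) (.e (nat_lit 7936) (nat_lit 407) .nil)))) (.g (nat_lit 0) (.e (nat_lit 363317) (nat_lit 0) .nil) .nil))))))) (.nd (nat_lit 6) (.nd (nat_lit 7) (.nd (nat_lit 8) (.nd (nat_lit 9) 
(.lf (nat_lit 574516) (.g (nat_lit 435) (.e (nat_lit 483406) (nat_lit 26) (.e (nat_lit 385106) (nat_lit 50) (.e (nat_lit 786473) (nat_lit 27) .nil))) (.g (nat_lit 0) (.e (nat_lit 361069) (nat_lit 0) .nil) .nil))) 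
(.lf (nat_lit 575028) (.g (nat_lit 3738) (.e (nat_lit 491539) (nat_lit 3) (.e (nat_lit 98373) (nat_lit 29) (.e (nat_lit 450587) (nat_lit 10) (.e (nat_lit 573465) (nat_lit 9) .nil)))) (.g (nat_lit 0) (.e (nat_lit 362776) (nat_lit 0) .nil) .nil)))) (.nd (nat_lit 9) 
(.lf (nat_lit 574772) (.g (nat_lit 2348) (.e (nat_lit 491536) (nat_lit 2) (.e (nat_lit 90170) (nat_lit 13) (.e (nat_lit 172106) (nat_lit 10) (.e (nat_lit 434244) (nat_lit 28) (.e (nat_lit 573451) (nat_lit 9) (.e (nat_lit 428) (nat_lit 32) (.e (nat_lit 426347) (nat_lit 14) .nil))))))) (.g (nat_lit 1) (.e (nat_lit 362508) (nat_lit 0) .nil) .nil))) 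
(.lf (nat_lit 575284) (.g (nat_lit 3258) (.e (nat_lit 499456) (nat_lit 3) (.e (nat_lit 98373) (nat_lit 29) (.e (nat_lit 450587) (nat_lit 10) (.e (nat_lit 573469) (nat_lit 11) .nil)))) (.g (nat_lit 0) (.e (nat_lit 363051) (nat_lit 0) .nil) .nil))))) (.nd (nat_lit 8) (.nd (nat_lit 9) 
(.lf (nat_lit 574644) (.g (nat_lit 2777) (.e (nat_lit 483412) (nat_lit 27) (.e (nat_lit 401435) (nat_lit 9) (.e (nat_lit 426533) (nat_lit 28) (.e (nat_lit 344069) (nat_lit 0) (.e (nat_lit 3088) (nat_lit 191) .nil))))) (.g (nat_lit 1) (.e (nat_lit 361726) (nat_lit 0) .nil) .nil))) 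
(.lf (nat_lit 575156) (.g (nat_lit 1622) (.e (nat_lit 491540) (nat_lit 3) (.e (nat_lit 98373) (nat_lit 29) (.e (nat_lit 450569) (nat_lit 0) (.e (nat_lit 3966) (nat_lit 239) (.e (nat_lit 2616) (nat_lit 164) .nil))))) (.g (nat_lit 0) (.e (nat_lit 362923) (nat_lit 0) .nil) .nil)))) (.nd (nat_lit 9) 
(.lf (nat_lit 574900) (.g (nat_lit 1072) (.e (nat_lit 491537) (nat_lit 2) (.e (nat_lit 90170) (nat_lit 13) (.e (nat_lit 172120) (nat_lit 12) (.e (nat_lit 475185) (nat_lit 29) .nil)))) (.g (nat_lit 0) (.e (nat_lit 362638) (nat_lit 0) .nil) .nil))) 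
(.lf (nat_lit 575412) (.g (nat_lit 1861) (.e (nat_lit 491550) (nat_lit 9) (.e (nat_lit 336434) (nat_lit 30) (.e (nat_lit 450564) (nat_lit 0) (.e (nat_lit 5548) (nat_lit 306) (.e (nat_lit 2618) (nat_lit 164) (.e (nat_lit 172124) (nat_lit 14) .nil)))))) (.g (nat_lit 1) (.e (nat_lit 363274) (nat_lit 0) .nil) .nil)))))) (.nd (nat_lit 7) (.nd (nat_lit 8) (.nd (nat_lit 9) 
(.lf (nat_lit 574580) (.g (nat_lit 669) (.e (nat_lit 483409) (nat_lit 27) (.e (nat_lit 401446) (nat_lit 10) (.e (nat_lit 442112) (nat_lit 44) .nil))) (.g (nat_lit 0) (.e (nat_lit 361345) (nat_lit 0) .nil) .nil))) 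
(.lf (nat_lit 575092) (.g (nat_lit 2821) (.e (nat_lit 491540) (nat_lit 3) (.e (nat_lit 98372) (nat_lit 29) (.e (nat_lit 450586) (nat_lit 10) (.e (nat_lit 573451) (nat_lit 9) (.e (nat_lit 428) (nat_lit 32) .nil))))) (.g (nat_lit 0) (.e (nat_lit 362857) (nat_lit 0) .nil) .nil)))) (.nd (nat_lit 9) 
(.lf (nat_lit 574836) (.g (nat_lit 3262) (.e (nat_lit 491537) (nat_lit 2) (.e (nat_lit 90170) (nat_lit 13) (.e (nat_lit 172106) (nat_lit 10) (.e (nat_lit 434238) (nat_lit 25) (.e (nat_lit 548898) (nat_lit 14) (.e (nat_lit 2862) (nat_lit 184) (.e (nat_lit 426348) (nat_lit 14) .nil))))))) (.g (nat_lit 1) (.e (nat_lit 362574) (nat_lit 0) .nil) .nil))) 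
(.lf (nat_lit 575348) (.g (nat_lit 1775) (.e (nat_lit 491549) (nat_lit 9) (.e (nat_lit 336369) (nat_lit 27) (.e (nat_lit 426173) (nat_lit 7) (.e (nat_lit 409640) (nat_lit 17) .nil)))) (.g (nat_lit 0) (.e (nat_lit 363182) (nat_lit 0) .nil) .nil))))) (.nd (nat_lit 8) (.nd (nat_lit 9) 
(.lf (nat_lit 574708) (.g (nat_lit 2259) (.e (nat_lit 491520) (nat_lit 0) (.e (nat_lit 1788) (nat_lit 119) (.e (nat_lit 516166) (nat_lit 12) (.e (nat_lit 450587) (nat_lit 10) (.e (nat_lit 573457) (nat_lit 9) .nil))))) (.g (nat_lit 0) (.e (nat_lit 362420) (nat_lit 0) .nil) .nil))) 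
(.lf (nat_lit 575220) (.g (nat_lit 4617) (.e (nat_lit 491540) (nat_lit 3) (.e (nat_lit 98373) (nat_lit 29) (.e (nat_lit 450587) (nat_lit 10) (.e (nat_lit 573460) (nat_lit 9) .nil)))) (.g (nat_lit 0) (.e (nat_lit 362987) (nat_lit 0) .nil) .nil)))) (.nd (nat_lit 9) 
(.lf (nat_lit 574964) (.g (nat_lit 2958) (.e (nat_lit 491538) (nat_lit 3) (.e (nat_lit 98373) (nat_lit 29) (.e (nat_lit 450588) (nat_lit 10) (.e (nat_lit 573451) (nat_lit 9) .nil)))) (.g (nat_lit 0) (.e (nat_lit 362708) (nat_lit 0) .nil) .nil))) 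
(.lf (nat_lit 575476) (.g (nat_lit 3007) (.e (nat_lit 491560) (nat_lit 10) (.e (nat_lit 344117) (nat_lit 21) (.e (nat_lit 516185) (nat_lit 16) (.e (nat_lit 491560) (nat_lit 10) (.e (nat_lit 344108) (nat_lit 19) .nil))))) (.g (nat_lit 0) (.e (nat_lit 363350) (nat_lit 0) .nil) .nil))))))))) (.nd (nat_lit 4) (.nd (nat_lit 5) (.nd (nat_lit 6) (.nd (nat_lit 7) (.nd (nat_lit 8) (.nd (nat_lit 9) 
(.lf (nat_lit 574476) (.g (nat_lit 1789) (.e (nat_lit 483405) (nat_lit 26) (.e (nat_lit 385093) (nat_lit 49) (.e (nat_lit 778320) (nat_lit 4) (.e (nat_lit 65630) (nat_lit 14) (.e (nat_lit 401455) (nat_lit 13) .nil))))) (.g (nat_lit 0) (.e (nat_lit 360915) (nat_lit 0) .nil) .nil))) 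
(.lf (nat_lit 574988) (.g (nat_lit 3319) (.e (nat_lit 491539) (nat_lit 3) (.e (nat_lit 98373) (nat_lit 29) (.e (nat_lit 450563) (nat_lit 0) (.e (nat_lit 3948) (nat_lit 239) .nil)))) (.g (nat_lit 0) (.e (nat_lit 362736) (nat_lit 0) .nil) .nil)))) (.nd (nat_lit 9) 
(.lf (nat_lit 574732) (.g (nat_lit 3438) (.e (nat_lit 491526) (nat_lit 0) (.e (nat_lit 1788) (nat_lit 119) (.e (nat_lit 516166) (nat_lit 12) (.e (nat_lit 450588) (nat_lit 10) (.e (nat_lit 573452) (nat_lit 9) (.e (nat_lit 430) (nat_lit 32) (.e (nat_lit 426342) (nat_lit 14) .nil))))))) (.g (nat_lit 1) (.e (nat_lit 362447) (nat_lit 0) .nil) .nil))) 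
(.lf (nat_lit 575244) (.g (nat_lit 2401) (.e (nat_lit 491540) (nat_lit 3) (.e (nat_lit 98373) (nat_lit 29) (.e (nat_lit 450588) (nat_lit 10) (.e (nat_lit 573452) (nat_lit 9) (.e (nat_lit 7936) (nat_lit 32) .nil))))) (.g (nat_lit 0) (.e (nat_lit 363011) (nat_lit 0) .nil) .nil))))) (.nd (nat_lit 8) (.nd (nat_lit 9) 
(.lf (nat_lit 574604) (.g (nat_lit 4107) (.e (nat_lit 483410) (nat_lit 27) (.e (nat_lit 401438) (nat_lit 9) (.e (nat_lit 426530) (nat_lit 27) (.e (nat_lit 336235) (nat_lit 14) (.e (nat_lit 401458) (nat_lit 13) .nil))))) (.g (nat_lit 1) (.e (nat_lit 361440) (nat_lit 0) .nil) .nil))) 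
(.lf (nat_lit 575116) (.g (nat_lit 1825) (.e (nat_lit 491540) (nat_lit 3) (.e (nat_lit 98373) (nat_lit 29) (.e (nat_lit 450560) (nat_lit 0) (.e (nat_lit 7936) (nat_lit 243) .nil)))) (.g (nat_lit 0) (.e (nat_lit 362881) (nat_lit 0) .nil) .nil)))) (.nd (nat_lit 9) 
(.lf (nat_lit 574860) (.g (nat_lit 2141) (.e (nat_lit 491537) (nat_lit 2) (.e (nat_lit 90170) (nat_lit 13) (.e (nat_lit 172113) (nat_lit 10) (.e (nat_lit 434244) (nat_lit 28) (.e (nat_lit 573450) (nat_lit 9) .nil))))) (.g (nat_lit 0) (.e (nat_lit 362598) (nat_lit 0) .nil) .nil))) 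
(.lf (nat_lit 575372) (.g (nat_lit 4291) (.e (nat_lit 491550) (nat_lit 9) (.e (nat_lit 336306) (nat_lit 15) (.e (nat_lit 3308) (nat_lit 202) (.e (nat_lit 573493) (nat_lit 15) (.e (nat_lit 81953) (nat_lit 22) (.e (nat_lit 90134) (nat_lit 9) (.e (nat_lit 3098) (nat_lit 192) .nil))))))) (.g (nat_lit 1) (.e (nat_lit 363224) (nat_lit 0) .nil) .nil)))))) 
(.nd (nat_lit 7) (.nd (nat_lit 8) (.nd (nat_lit 9) 
(.lf (nat_lit 574540) (.g (nat_lit 1570) (.e (nat_lit 483407) (nat_lit 26) (.e (nat_lit 385094) (nat_lit 49) (.e (nat_lit 778324) (nat_lit 5) (.e (nat_lit 73781) (nat_lit 32) (.e (nat_lit 3087) (nat_lit 191) .nil))))) (.g (nat_lit 1) (.e (nat_lit 361130) (nat_lit 0) .nil) .nil))) 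
(.lf (nat_lit 575052) (.g (nat_lit 5899) (.e (nat_lit 491539) (nat_lit 3) (.e (nat_lit 98373) (nat_lit 29) (.e (nat_lit 450588) (nat_lit 10) (.e (nat_lit 573464) (nat_lit 9) .nil)))) (.g (nat_lit 0) (.e (nat_lit 362800) (nat_lit 0) .nil) .nil)))) (.nd (nat_lit 9) 
(.lf (nat_lit 574796) (.g (nat_lit 663) (.e (nat_lit 491536) (nat_lit 2) (.e (nat_lit 90178) (nat_lit 15) (.e (nat_lit 188442) (nat_lit 20) .nil))) (.g (nat_lit 0) (.e (nat_lit 362532) (nat_lit 0) .nil) .nil))) 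
(.lf (nat_lit 575308) (.g (nat_lit 2937) (.e (nat_lit 491546) (nat_lit 9) (.e (nat_lit 336295) (nat_lit 15) (.e (nat_lit 3305) (nat_lit 202) (.e (nat_lit 573491) (nat_lit 15) (.e (nat_lit 81954) (nat_lit 23) .nil))))) (.g (nat_lit 0) (.e (nat_lit 363084) (nat_lit 0) .nil) .nil))))) (.nd (nat_lit 8) (.nd (nat_lit 9) 
(.lf (nat_lit 574668) (.g (nat_lit 512) (.e (nat_lit 483413) (nat_lit 27) (.e (nat_lit 401447) (nat_lit 10) (.e (nat_lit 434205) (nat_lit 18) .nil))) (.g (nat_lit 0) (.e (nat_lit 362159) (nat_lit 0) .nil) .nil))) 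
(.lf (nat_lit 575180) (.g (nat_lit 2854) (.e (nat_lit 491540) (nat_lit 3) (.e (nat_lit 98373) (nat_lit 29) (.e (nat_lit 450586) (nat_lit 10) (.e (nat_lit 573450) (nat_lit 9) (.e (nat_lit 411) (nat_lit 32) .nil))))) (.g (nat_lit 0) (.e (nat_lit 362947) (nat_lit 0) .nil) .nil)))) (.nd (nat_lit 9) 
(.lf (nat_lit 574924) (.g (nat_lit 2716) (.e (nat_lit 491537) (nat_lit 2) (.e (nat_lit 90178) (nat_lit 15) (.e (nat_lit 188452) (nat_lit 23) (.e (nat_lit 204816) (nat_lit 17) .nil)))) (.g (nat_lit 0) (.e (nat_lit 362663) (nat_lit 0) .nil) .nil))) 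
(.lf (nat_lit 575436) (.g (nat_lit 2375) (.e (nat_lit 491558) (nat_lit 10) (.e (nat_lit 344115) (nat_lit 20) (.e (nat_lit 507908) (nat_lit 0) (.e (nat_lit 5403) (nat_lit 302) (.e (nat_lit 65577) (nat_lit 5) (.e (nat_lit 139289) (nat_lit 9) (.e (nat_lit 3102) (nat_lit 192) .nil))))))) (.g (nat_lit 1) (.e (nat_lit 363309) (nat_lit 0) .nil) .nil))))))) 
(.nd (nat_lit 6) (.nd (nat_lit 7) (.nd (nat_lit 8) (.nd (nat_lit 9) 
(.lf (nat_lit 574508) (.g (nat_lit 2368) (.e (nat_lit 483406) (nat_lit 26) (.e (nat_lit 385092) (nat_lit 49) (.e (nat_lit 778323) (nat_lit 5) (.e (nat_lit 73781) (nat_lit 32) (.e (nat_lit 3089) (nat_lit 191) .nil))))) (.g (nat_lit 1) (.e (nat_lit 361057) (nat_lit 0) .nil) .nil))) 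
(.lf (nat_lit 575020) (.g (nat_lit 1765) (.e (nat_lit 491539) (nat_lit 3) (.e (nat_lit 98373) (nat_lit 29) (.e (nat_lit 450587) (nat_lit 10) (.e (nat_lit 573456) (nat_lit 9) .nil)))) (.g (nat_lit 0) (.e (nat_lit 362768) (nat_lit 0) .nil) .nil)))) (.nd (nat_lit 9) 
(.lf (nat_lit 574764) (.g (nat_lit 2068) (.e (nat_lit 491536) (nat_lit 2) (.e (nat_lit 90167) (nat_lit 13) (.e (nat_lit 172126) (nat_lit 14) (.e (nat_lit 491539) (nat_lit 3) (.e (nat_lit 98365) (nat_lit 26) .nil))))) (.g (nat_lit 0) (.e (nat_lit 362500) (nat_lit 0) .nil) .nil))) 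
(.lf (nat_lit 575276) (.g (nat_lit 2987) (.e (nat_lit 499456) (nat_lit 3) (.e (nat_lit 98372) (nat_lit 29) (.e (nat_lit 450588) (nat_lit 10) (.e (nat_lit 573469) (nat_lit 11) .nil)))) (.g (nat_lit 0) (.e (nat_lit 363043) (nat_lit 0) .nil) .nil))))) (.nd (nat_lit 8) (.nd (nat_lit 9) 
(.lf (nat_lit 574636) (.g (nat_lit 543) (.e (nat_lit 483411) (nat_lit 27) (.e (nat_lit 401446) (nat_lit 10) (.e (nat_lit 434292) (nat_lit 44) .nil))) (.g (nat_lit 0) (.e (nat_lit 361611) (nat_lit 0) .nil) .nil))) 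
(.lf (nat_lit 575148) (.g (nat_lit 2177) (.e (nat_lit 491540) (nat_lit 3) (.e (nat_lit 98373) (nat_lit 29) (.e (nat_lit 450566) (nat_lit 0) (.e (nat_lit 3944) (nat_lit 239) .nil)))) (.g (nat_lit 0) (.e (nat_lit 362915) (nat_lit 0) .nil) .nil)))) (.nd (nat_lit 9) 
(.lf (nat_lit 574892) (.g (nat_lit 2047) (.e (nat_lit 491537) (nat_lit 2) (.e (nat_lit 90170) (nat_lit 13) (.e (nat_lit 172115) (nat_lit 10) (.e (nat_lit 434244) (nat_lit 28) (.e (nat_lit 573450) (nat_lit 9) .nil))))) (.g (nat_lit 0) (.e (nat_lit 362630) (nat_lit 0) .nil) .nil))) 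
(.lf (nat_lit 575404) (.g (nat_lit 2430) (.e (nat_lit 491550) (nat_lit 9) (.e (nat_lit 336430) (nat_lit 29) (.e (nat_lit 442419) (nat_lit 21) (.e (nat_lit 164348) (nat_lit 240) (.e (nat_lit 2618) (nat_lit 164) (.e (nat_lit 172124) (nat_lit 14) .nil)))))) (.g (nat_lit 1) (.e (nat_lit 363263) (nat_lit 0) .nil) .nil)))))) (.nd (nat_lit 7) (.nd (nat_lit 8) (.nd (nat_lit 9) 
(.lf (nat_lit 574572) (.g (nat_lit 1000) (.e (nat_lit 491264) (nat_lit 26) (.e (nat_lit 385093) (nat_lit 49) (.e (nat_lit 778323) (nat_lit 5) (.e (nat_lit 73781) (nat_lit 32) .nil)))) (.g (nat_lit 0) (.e (nat_lit 361325) (nat_lit 0) .nil) .nil))) 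
(.lf (nat_lit 575084) (.g (nat_lit 1857) (.e (nat_lit 491540) (nat_lit 3) (.e (nat_lit 98372) (nat_lit 29) (.e (nat_lit 450579) (nat_lit 5) (.e (nat_lit 532567) (nat_lit 16) (.e (nat_lit 409344) (nat_lit 14) .nil))))) (.g (nat_lit 0) (.e (nat_lit 362849) (nat_lit 0) .nil) .nil)))) (.nd (nat_lit 9) 
(.lf (nat_lit 574828) (.g (nat_lit 4046) (.e (nat_lit 491537) (nat_lit 2) (.e (nat_lit 90170) (nat_lit 13) (.e (nat_lit 172106) (nat_lit 10) (.e (nat_lit 434231) (nat_lit 23) (.e (nat_lit 532483) (nat_lit 0) (.e (nat_lit 7936) (nat_lit 357) (.e (nat_lit 3096) (nat_lit 192) .nil))))))) (.g (nat_lit 1) (.e (nat_lit 362566) (nat_lit 0) .nil) .nil))) 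
(.lf (nat_lit 575340) (.g (nat_lit 2278) (.e (nat_lit 491548) (nat_lit 9) (.e (nat_lit 336430) (nat_lit 29) (.e (nat_lit 442409) (nat_lit 20) (.e (nat_lit 3409) (nat_lit 212) (.e (nat_lit 655378) (nat_lit 4) (.e (nat_lit 172124) (nat_lit 14) .nil)))))) (.g (nat_lit 1) (.e (nat_lit 363147) (nat_lit 0) .nil) .nil))))) (.nd (nat_lit 8) (.nd (nat_lit 9) 
(.lf (nat_lit 574700) (.g (nat_lit 2049) (.e (nat_lit 491520) (nat_lit 0) (.e (nat_lit 1788) (nat_lit 119) (.e (nat_lit 516151) (nat_lit 9) (.e (nat_lit 426286) (nat_lit 10) (.e (nat_lit 434247) (nat_lit 28) .nil))))) (.g (nat_lit 0) (.e (nat_lit 362412) (nat_lit 0) .nil) .nil))) 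
(.lf (nat_lit 575212) (.g (nat_lit 3263) (.e (nat_lit 491540) (nat_lit 3) (.e (nat_lit 98373) (nat_lit 29) (.e (nat_lit 450587) (nat_lit 10) (.e (nat_lit 573454) (nat_lit 9) (.e (nat_lit 425) (nat_lit 32) (.e (nat_lit 426338) (nat_lit 14) .nil)))))) (.g (nat_lit 1) (.e (nat_lit 362979) (nat_lit 0) .nil) .nil)))) (.nd (nat_lit 9) 
(.lf (nat_lit 574956) (.g (nat_lit 1639) (.e (nat_lit 491538) (nat_lit 3) (.e (nat_lit 98373) (nat_lit 29) (.e (nat_lit 450586) (nat_lit 10) (.e (nat_lit 573469) (nat_lit 11) .nil)))) (.g (nat_lit 0) (.e (nat_lit 362700) (nat_lit 0) .nil) .nil))) 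
(.lf (nat_lit 575468) (.g (nat_lit 4106) (.e (nat_lit 491560) (nat_lit 10) (.e (nat_lit 344115) (nat_lit 20) (.e (nat_lit 507923) (nat_lit 6) (.e (nat_lit 286747) (nat_lit 9) (.e (nat_lit 336013) (nat_lit 2) (.e (nat_lit 90135) (nat_lit 9) (.e (nat_lit 3102) (nat_lit 192) .nil))))))) (.g (nat_lit 1) (.e (nat_lit 363341) (nat_lit 0) .nil) .nil)))))))) 
(.nd (nat_lit 5) (.nd (nat_lit 6) (.nd (nat_lit 7) (.nd (nat_lit 8) (.nd (nat_lit 9) 
(.lf (nat_lit 574492) (.g (nat_lit 201) (.e (nat_lit 483406) (nat_lit 26) (.e (nat_lit 385067) (nat_lit 26) (.e (nat_lit 532503) (nat_lit 1) .nil))) (.g (nat_lit 0) (.e (nat_lit 361016) (nat_lit 0) .nil) .nil))) 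
(.lf (nat_lit 575004) (.g (nat_lit 2566) (.e (nat_lit 491539) (nat_lit 3) (.e (nat_lit 98373) (nat_lit 29) (.e (nat_lit 450585) (nat_lit 10) (.e (nat_lit 573471) (nat_lit 11) .nil)))) (.g (nat_lit 0) (.e (nat_lit 362752) (nat_lit 0) .nil) .nil)))) (.nd (nat_lit 9) 
(.lf (nat_lit 574748) (.g (nat_lit 1545) (.e (nat_lit 491535) (nat_lit 2) (.e (nat_lit 90170) (nat_lit 13) (.e (nat_lit 172124) (nat_lit 14) (.e (nat_lit 491540) (nat_lit 3) .nil)))) (.g (nat_lit 0) (.e (nat_lit 362484) (nat_lit 0) .nil) .nil))) 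
(.lf (nat_lit 575260) (.g (nat_lit 5622) (.e (nat_lit 491540) (nat_lit 3) (.e (nat_lit 98373) (nat_lit 29) (.e (nat_lit 450588) (nat_lit 10) (.e (nat_lit 573463) (nat_lit 9) .nil)))) (.g (nat_lit 0) (.e (nat_lit 363027) (nat_lit 0) .nil) .nil))))) (.nd (nat_lit 8) (.nd (nat_lit 9) 
(.lf (nat_lit 574620) (.g (nat_lit 2933) (.e (nat_lit 483410) (nat_lit 27) (.e (nat_lit 401459) (nat_lit 13) (.e (nat_lit 483410) (nat_lit 27) (.e (nat_lit 401457) (nat_lit 13) .nil)))) (.g (nat_lit 1) (.e (nat_lit 361550) (nat_lit 0) .nil) .nil))) 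
(.lf (nat_lit 575132) (.g (nat_lit 2870) (.e (nat_lit 491540) (nat_lit 3) (.e (nat_lit 98373) (nat_lit 29) (.e (nat_lit 450563) (nat_lit 0) (.e (nat_lit 3919) (nat_lit 239) .nil)))) (.g (nat_lit 0) (.e (nat_lit 362897) (nat_lit 0) .nil) .nil)))) (.nd (nat_lit 9) 
(.lf (nat_lit 574876) (.g (nat_lit 1900) (.e (nat_lit 491537) (nat_lit 2) (.e (nat_lit 90170) (nat_lit 13) (.e (nat_lit 172113) (nat_lit 10) (.e (nat_lit 434247) (nat_lit 28) (.e (nat_lit 573457) (nat_lit 9) (.e (nat_lit 430) (nat_lit 32) (.e (nat_lit 433920) (nat_lit 14) .nil))))))) (.g (nat_lit 1) (.e (nat_lit 362614) (nat_lit 0) .nil) .nil))) 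
(.lf (nat_lit 575388) (.g (nat_lit 1218) (.e (nat_lit 491550) (nat_lit 9) (.e (nat_lit 336421) (nat_lit 28) (.e (nat_lit 434181) (nat_lit 0) (.e (nat_lit 1661) (nat_lit 115) (.e (nat_lit 401152) (nat_lit 27) .nil))))) (.g (nat_lit 0) (.e (nat_lit 363245) (nat_lit 0) .nil) .nil)))))) (.nd (nat_lit 7) (.nd (nat_lit 8) (.nd (nat_lit 9) 
(.lf (nat_lit 574556) (.g (nat_lit 3131) (.e (nat_lit 483408) (nat_lit 26) (.e (nat_lit 385068) (nat_lit 26) (.e (nat_lit 532503) (nat_lit 1) (.e (nat_lit 57852) (nat_lit 252) (.e (nat_lit 57406) (nat_lit 12) .nil))))) (.g (nat_lit 0) (.e (nat_lit 361205) (nat_lit 0) .nil) .nil))) 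
(.lf (nat_lit 575068) (.g (nat_lit 3926) (.e (nat_lit 491540) (nat_lit 3) (.e (nat_lit 98359) (nat_lit 26) (.e (nat_lit 426285) (nat_lit 10) (.e (nat_lit 434238) (nat_lit 25) (.e (nat_lit 548913) (nat_lit 18) (.e (nat_lit 172124) (nat_lit 14) .nil)))))) (.g (nat_lit 1) (.e (nat_lit 362825) (nat_lit 0) .nil) .nil)))) (.nd (nat_lit 9) 
(.lf (nat_lit 574812) (.g (nat_lit 3410) (.e (nat_lit 491537) (nat_lit 2) (.e (nat_lit 90170) (nat_lit 13) (.e (nat_lit 172106) (nat_lit 10) (.e (nat_lit 434209) (nat_lit 18) (.e (nat_lit 3944) (nat_lit 239) (.e (nat_lit 2625) (nat_lit 164) (.e (nat_lit 172126) (nat_lit 14) .nil))))))) (.g (nat_lit 1) (.e (nat_lit 362550) (nat_lit 0) .nil) .nil))) 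
(.lf (nat_lit 575324) (.g (nat_lit 4058) (.e (nat_lit 491548) (nat_lit 9) (.e (nat_lit 336019) (nat_lit 3) (.e (nat_lit 98389) (nat_lit 33) (.e (nat_lit 491546) (nat_lit 9) (.e (nat_lit 336013) (nat_lit 2) (.e (nat_lit 90134) (nat_lit 9) (.e (nat_lit 3098) (nat_lit 192) .nil))))))) (.g (nat_lit 1) (.e (nat_lit 363121) (nat_lit 0) .nil) .nil))))) (.nd (nat_lit 8) (.nd (nat_lit 9) 
(.lf (nat_lit 574684) (.g (nat_lit 876) (.e (nat_lit 491264) (nat_lit 27) (.e (nat_lit 401438) (nat_lit 9) (.e (nat_lit 426533) (nat_lit 28) (.e (nat_lit 344068) (nat_lit 0) .nil)))) (.g (nat_lit 0) (.e (nat_lit 362395) (nat_lit 0) .nil) .nil))) 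
(.lf (nat_lit 575196) (.g (nat_lit 2677) (.e (nat_lit 491540) (nat_lit 3) (.e (nat_lit 98373) (nat_lit 29) (.e (nat_lit 450586) (nat_lit 10) (.e (nat_lit 573470) (nat_lit 11) (.e (nat_lit 16469) (nat_lit 14) .nil))))) (.g (nat_lit 0) (.e (nat_lit 362963) (nat_lit 0) .nil) .nil)))) (.nd (nat_lit 9) 
(.lf (nat_lit 574940) (.g (nat_lit 4209) (.e (nat_lit 491538) (nat_lit 3) (.e (nat_lit 98359) (nat_lit 26) (.e (nat_lit 426286) (nat_lit 10) (.e (nat_lit 434248) (nat_lit 28) (.e (nat_lit 573471) (nat_lit 11) (.e (nat_lit 16472) (nat_lit 14) .nil)))))) (.g (nat_lit 1) (.e (nat_lit 362683) (nat_lit 0) .nil) .nil))) 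
(.lf (nat_lit 575452) (.g (nat_lit 1489) (.e (nat_lit 491558) (nat_lit 10) (.e (nat_lit 344160) (nat_lit 37) (.e (nat_lit 647203) (nat_lit 14) (.e (nat_lit 1161) (nat_lit 86) .nil)))) (.g (nat_lit 0) (.e (nat_lit 363325) (nat_lit 0) .nil) .nil))))))) (.nd (nat_lit 6) (.nd (nat_lit 7) (.nd (nat_lit 8) (.nd (nat_lit 9) 
(.lf (nat_lit 574524) (.g (nat_lit 1043) (.e (nat_lit 483407) (nat_lit 26) (.e (nat_lit 385066) (nat_lit 26) (.e (nat_lit 532504) (nat_lit 1) (.e (nat_lit 57830) (nat_lit 250) .nil)))) (.g (nat_lit 0) (.e (nat_lit 361091) (nat_lit 0) .nil) .nil))) 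
(.lf (nat_lit 575036) (.g (nat_lit 5267) (.e (nat_lit 491539) (nat_lit 3) (.e (nat_lit 98373) (nat_lit 29) (.e (nat_lit 450588) (nat_lit 10) (.e (nat_lit 573449) (nat_lit 9) (.e (nat_lit 430) (nat_lit 32) (.e (nat_lit 426343) (nat_lit 14) .nil)))))) (.g (nat_lit 1) (.e (nat_lit 362784) (nat_lit 0) .nil) .nil)))) (.nd (nat_lit 9) 
(.lf (nat_lit 574780) (.g (nat_lit 1716) (.e (nat_lit 491536) (nat_lit 2) (.e (nat_lit 90170) (nat_lit 13) (.e (nat_lit 172113) (nat_lit 10) (.e (nat_lit 434248) (nat_lit 28) (.e (nat_lit 573455) (nat_lit 9) .nil))))) (.g (nat_lit 0) (.e (nat_lit 362516) (nat_lit 0) .nil) .nil))) 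
(.lf (nat_lit 575292) (.g (nat_lit 3297) (.e (nat_lit 499456) (nat_lit 3) (.e (nat_lit 98373) (nat_lit 29) (.e (nat_lit 450588) (nat_lit 10) (.e (nat_lit 573471) (nat_lit 11) (.e (nat_lit 16472) (nat_lit 14) .nil))))) (.g (nat_lit 0) (.e (nat_lit 363059) (nat_lit 0) .nil) .nil))))) (.nd (nat_lit 8) (.nd (nat_lit 9) 
(.lf (nat_lit 574652) (.g (nat_lit 485) (.e (nat_lit 483413) (nat_lit 27) (.e (nat_lit 401414) (nat_lit 0) (.e (nat_lit 3297) (nat_lit 202) .nil))) (.g (nat_lit 0) (.e (nat_lit 361952) (nat_lit 0) .nil) .nil))) 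
(.lf (nat_lit 575164) (.g (nat_lit 3751) (.e (nat_lit 491540) (nat_lit 3) (.e (nat_lit 98373) (nat_lit 29) (.e (nat_lit 450583) (nat_lit 7) (.e (nat_lit 548913) (nat_lit 18) (.e (nat_lit 172125) (nat_lit 14) .nil))))) (.g (nat_lit 1) (.e (nat_lit 362931) (nat_lit 0) .nil) .nil)))) (.nd (nat_lit 9) 
(.lf (nat_lit 574908) (.g (nat_lit 2495) (.e (nat_lit 491537) (nat_lit 2) (.e (nat_lit 90170) (nat_lit 13) (.e (nat_lit 172126) (nat_lit 14) (.e (nat_lit 491537) (nat_lit 2) (.e (nat_lit 90134) (nat_lit 9) .nil))))) (.g (nat_lit 0) (.e (nat_lit 362647) (nat_lit 0) .nil) .nil))) 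
(.lf (nat_lit 575420) (.g (nat_lit 1895) (.e (nat_lit 491552) (nat_lit 9) (.e (nat_lit 336282) (nat_lit 15) (.e (nat_lit 3305) (nat_lit 202) (.e (nat_lit 573484) (nat_lit 13) (.e (nat_lit 65610) (nat_lit 10) .nil))))) (.g (nat_lit 0) (.e (nat_lit 363287) (nat_lit 0) .nil) .nil)))))) (.nd (nat_lit 7) (.nd (nat_lit 8) (.nd (nat_lit 9) 
(.lf (nat_lit 574588) (.g (nat_lit 1184) (.e (nat_lit 483409) (nat_lit 27) (.e (nat_lit 401459) (nat_lit 13) (.e (nat_lit 483356) (nat_lit 17) (.e (nat_lit 6680) (nat_lit 357) .nil)))) (.g (nat_lit 0) (.e (nat_lit 361404) (nat_lit 0) .nil) .nil))) 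
(.lf (nat_lit 575100) (.g (nat_lit 3495) (.e (nat_lit 491540) (nat_lit 3) (.e (nat_lit 98372) (nat_lit 29) (.e (nat_lit 450588) (nat_lit 10) (.e (nat_lit 573450) (nat_lit 9) (.e (nat_lit 433) (nat_lit 32) .nil))))) (.g (nat_lit 0) (.e (nat_lit 362865) (nat_lit 0) .nil) .nil)))) (.nd (nat_lit 9) 
(.lf (nat_lit 574844) (.g (nat_lit 3425) (.e (nat_lit 491537) (nat_lit 2) (.e (nat_lit 90170) (nat_lit 13) (.e (nat_lit 172106) (nat_lit 10) (.e (nat_lit 434244) (nat_lit 28) (.e (nat_lit 573450) (nat_lit 9) (.e (nat_lit 375) (nat_lit 32) (.e (nat_lit 426339) (nat_lit 14) .nil))))))) (.g (nat_lit 1) (.e (nat_lit 362582) (nat_lit 0) .nil) .nil))) 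
(.lf (nat_lit 575356) (.g (nat_lit 2663) (.e (nat_lit 491549) (nat_lit 9) (.e (nat_lit 336430) (nat_lit 29) (.e (nat_lit 442419) (nat_lit 21) (.e (nat_lit 164348) (nat_lit 240) (.e (nat_lit 2618) (nat_lit 164) (.e (nat_lit 172124) (nat_lit 14) .nil)))))) (.g (nat_lit 1) (.e (nat_lit 363196) (nat_lit 0) .nil) .nil))))) (.nd (nat_lit 8) (.nd (nat_lit 9) 
(.lf (nat_lit 574716) (.g (nat_lit 4104) (.e (nat_lit 491525) (nat_lit 0) (.e (nat_lit 1788) (nat_lit 119) (.e (nat_lit 516151) (nat_lit 9) (.e (nat_lit 426285) (nat_lit 10) (.e (nat_lit 434248) (nat_lit 28) .nil))))) (.g (nat_lit 0) (.e (nat_lit 362431) (nat_lit 0) .nil) .nil))) 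
(.lf (nat_lit 575228) (.g (nat_lit 2365) (.e (nat_lit 491540) (nat_lit 3) (.e (nat_lit 98373) (nat_lit 29) (.e (nat_lit 450587) (nat_lit 10) (.e (nat_lit 581376) (nat_lit 11) .nil)))) (.g (nat_lit 0) (.e (nat_lit 362995) (nat_lit 0) .nil) .nil)))) (.nd (nat_lit 9) 
(.lf (nat_lit 574972) (.g (nat_lit 746) (.e (nat_lit 491539) (nat_lit 3) (.e (nat_lit 98359) (nat_lit 26) (.e (nat_lit 426286) (nat_lit 10) .nil))) (.g (nat_lit 0) (.e (nat_lit 362718) (nat_lit 0) .nil) .nil))) 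
(.lf (nat_lit 575484) (.g (nat_lit 1936) (.e (nat_lit 491560) (nat_lit 10) (.e (nat_lit 344168) (nat_lit 40) (.e (nat_lit 671762) (nat_lit 4) (.e (nat_lit 65617) (nat_lit 10) (.e (nat_lit 344161) (nat_lit 37) .nil))))) (.g (nat_lit 0) (.e (nat_lit 363359) (nat_lit 0) .nil) .nil))))))))))) 
(.nd (nat_lit 2) (.nd (nat_lit 3) (.nd (nat_lit 4) (.nd (nat_lit 5) (.nd (nat_lit 6) 
(.nd (nat_lit 7) (.nd (nat_lit 8) (.nd (nat_lit 9) 
(.lf (nat_lit 574466) (.g (nat_lit 2603) (.e (nat_lit 483405) (nat_lit 26) (.e (nat_lit 385068) (nat_lit 26) (.e (nat_lit 532499) (nat_lit 1) (.e (nat_lit 57854) (nat_lit 252) (.e (nat_lit 57406) (nat_lit 12) .nil))))) (.g (nat_lit 0) (.e (nat_lit 360875) (nat_lit 0) .nil) .nil))) 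
(.lf (nat_lit 574978) (.g (nat_lit 413) (.e (nat_lit 491539) (nat_lit 3) (.e (nat_lit 98367) (nat_lit 27) (.e (nat_lit 434193) (nat_lit 13) .nil))) (.g (nat_lit 0) (.e (nat_lit 362724) (nat_lit 0) .nil) .nil)))) (.nd (nat_lit 9) 
(.lf (nat_lit 574722) (.g (nat_lit 1533) (.e (nat_lit 491525) (nat_lit 0) (.e (nat_lit 2270) (nat_lit 149) (.e (nat_lit 761906) (nat_lit 16) (.e (nat_lit 172097) (nat_lit 9) (.e (nat_lit 426158) (nat_lit 6) .nil))))) (.g (nat_lit 0) (.e (nat_lit 362437) (nat_lit 0) .nil) .nil))) 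
(.lf (nat_lit 575234) (.g (nat_lit 2949) (.e (nat_lit 491540) (nat_lit 3) (.e (nat_lit 98373) (nat_lit 29) (.e (nat_lit 450588) (nat_lit 10) (.e (nat_lit 573451) (nat_lit 9) (.e (nat_lit 392) (nat_lit 32) (.e (nat_lit 426338) (nat_lit 14) .nil)))))) (.g (nat_lit 1) (.e (nat_lit 363001) (nat_lit 0) .nil) .nil))))) (.nd (nat_lit 8) (.nd (nat_lit 9) 
(.lf (nat_lit 574594) (.g (nat_lit 3380) (.e (nat_lit 483409) (nat_lit 27) (.e (nat_lit 401459) (nat_lit 13) (.e (nat_lit 483410) (nat_lit 27) (.e (nat_lit 401457) (nat_lit 13) .nil)))) (.g (nat_lit 1) (.e (nat_lit 361412) (nat_lit 0) .nil) .nil))) 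
(.lf (nat_lit 575106) (.g (nat_lit 2446) (.e (nat_lit 491540) (nat_lit 3) (.e (nat_lit 98372) (nat_lit 29) (.e (nat_lit 450588) (nat_lit 10) (.e (nat_lit 573457) (nat_lit 9) .nil)))) (.g (nat_lit 0) (.e (nat_lit 362871) (nat_lit 0) .nil) .nil)))) (.nd (nat_lit 9) 
(.lf (nat_lit 574850) (.g (nat_lit 2493) (.e (nat_lit 491537) (nat_lit 2) (.e (nat_lit 90170) (nat_lit 13) (.e (nat_lit 172106) (nat_lit 10) (.e (nat_lit 434244) (nat_lit 28) (.e (nat_lit 581376) (nat_lit 11) .nil))))) (.g (nat_lit 0) (.e (nat_lit 362588) (nat_lit 0) .nil) .nil))) 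
(.lf (nat_lit 575362) (.g (nat_lit 2883) (.e (nat_lit 491549) (nat_lit 9) (.e (nat_lit 336432) (nat_lit 30) (.e (nat_lit 450564) (nat_lit 0) (.e (nat_lit 5548) (nat_lit 306) (.e (nat_lit 2629) (nat_lit 164) (.e (nat_lit 172124) (nat_lit 14) .nil)))))) (.g (nat_lit 1) (.e (nat_lit 363203) (nat_lit 0) .nil) .nil)))))) (.nd (nat_lit 7) (.nd (nat_lit 8) (.nd (nat_lit 9) 
(.lf (nat_lit 574530) (.g (nat_lit 1908) (.e (nat_lit 483407) (nat_lit 26) (.e (nat_lit 385068) (nat_lit 26) (.e (nat_lit 532501) (nat_lit 1) (.e (nat_lit 57852) (nat_lit 252) .nil)))) (.g (nat_lit 0) (.e (nat_lit 361101) (nat_lit 0) .nil) .nil))) 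
(.lf (nat_lit 575042) (.g (nat_lit 5533) (.e (nat_lit 491539) (nat_lit 3) (.e (nat_lit 98373) (nat_lit 29) (.e (nat_lit 450588) (nat_lit 10) (.e (nat_lit 573453) (nat_lit 9) .nil)))) (.g (nat_lit 0) (.e (nat_lit 362790) (nat_lit 0) .nil) .nil)))) (.nd (nat_lit 9) 
(.lf (nat_lit 574786) (.g (nat_lit 2600) (.e (nat_lit 491536) (nat_lit 2) (.e (nat_lit 90170) (nat_lit 13) (.e (nat_lit 172113) (nat_lit 10) (.e (nat_lit 434248) (nat_lit 28) (.e (nat_lit 573471) (nat_lit 11) (.e (nat_lit 16472) (nat_lit 14) .nil)))))) (.g (nat_lit 1) (.e (nat_lit 362522) (nat_lit 0) .nil) .nil))) 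
(.lf (nat_lit 575298) (.g (nat_lit 1338) (.e (nat_lit 491546) (nat_lit 9) (.e (nat_lit 336013) (nat_lit 2) (.e (nat_lit 90137) (nat_lit 9) .nil))) (.g (nat_lit 0) (.e (nat_lit 363071) (nat_lit 0) .nil) .nil))))) (.nd (nat_lit 8) (.nd (nat_lit 9) 
(.lf (nat_lit 574658) (.g (nat_lit 606) (.e (nat_lit 483413) (nat_lit 27) (.e (nat_lit 401446) (nat_lit 10) (.e (nat_lit 434199) (nat_lit 18) .nil))) (.g (nat_lit 0) (.e (nat_lit 362039) (nat_lit 0) .nil) .nil))) 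
(.lf (nat_lit 575170) (.g (nat_lit 3343) (.e (nat_lit 491540) (nat_lit 3) (.e (nat_lit 98373) (nat_lit 29) (.e (nat_lit 450585) (nat_lit 10) (.e (nat_lit 573451) (nat_lit 9) (.e (nat_lit 430) (nat_lit 32) .nil))))) (.g (nat_lit 0) (.e (nat_lit 362937) (nat_lit 0) .nil) .nil)))) (.nd (nat_lit 9) 
(.lf (nat_lit 574914) (.g (nat_lit 1732) (.e (nat_lit 491537) (nat_lit 2) (.e (nat_lit 90176) (nat_lit 15) (.e (nat_lit 188450) (nat_lit 23) (.e (nat_lit 204817) (nat_lit 17) (.e (nat_lit 7936) (nat_lit 357) (.e (nat_lit 3098) (nat_lit 192) .nil)))))) (.g (nat_lit 1) (.e (nat_lit 362653) (nat_lit 0) .nil) .nil))) 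
(.lf (nat_lit 575426) (.g (nat_lit 2111) (.e (nat_lit 491554) (nat_lit 9) (.e (nat_lit 336295) (nat_lit 15) (.e (nat_lit 3305) (nat_lit 202) (.e (nat_lit 573491) (nat_lit 15) .nil)))) (.g (nat_lit 0) (.e (nat_lit 363297) (nat_lit 0) .nil) .nil))))))) (.nd (nat_lit 6) (.nd (nat_lit 7) (.nd (nat_lit 8) (.nd (nat_lit 9) 
(.lf (nat_lit 574498) (.g (nat_lit 1778) (.e (nat_lit 483406) (nat_lit 26) (.e (nat_lit 385068) (nat_lit 26) (.e (nat_lit 532501) (nat_lit 1) (.e (nat_lit 57850) (nat_lit 252) .nil)))) (.g (nat_lit 0) (.e (nat_lit 361027) (nat_lit 0) .nil) .nil))) 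
(.lf (nat_lit 575010) (.g (nat_lit 2476) (.e (nat_lit 491539) (nat_lit 3) (.e (nat_lit 98373) (nat_lit 29) (.e (nat_lit 450586) (nat_lit 10) (.e (nat_lit 573469) (nat_lit 11) .nil)))) (.g (nat_lit 0) (.e (nat_lit 362758) (nat_lit 0) .nil) .nil)))) (.nd (nat_lit 9) 
(.lf (nat_lit 574754) (.g (nat_lit 1049) (.e (nat_lit 491535) (nat_lit 2) (.e (nat_lit 90176) (nat_lit 15) (.e (nat_lit 188450) (nat_lit 23) (.e (nat_lit 204884) (nat_lit 33) .nil)))) (.g (nat_lit 0) (.e (nat_lit 362490) (nat_lit 0) .nil) .nil))) 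
(.lf (nat_lit 575266) (.g (nat_lit 728) (.e (nat_lit 491540) (nat_lit 3) (.e (nat_lit 98373) (nat_lit 29) (.e (nat_lit 458496) (nat_lit 10) .nil))) (.g (nat_lit 0) (.e (nat_lit 363033) (nat_lit 0) .nil) .nil))))) (.nd (nat_lit 8) (.nd (nat_lit 9) 
(.lf (nat_lit 574626) (.g (nat_lit 389) (.e (nat_lit 483411) (nat_lit 27) (.e (nat_lit 401434) (nat_lit 9) (.e (nat_lit 426160) (nat_lit 6) .nil))) (.g (nat_lit 0) (.e (nat_lit 361559) (nat_lit 0) .nil) .nil))) 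
(.lf (nat_lit 575138) (.g (nat_lit 2954) (.e (nat_lit 491540) (nat_lit 3) (.e (nat_lit 98373) (nat_lit 29) (.e (nat_lit 450563) (nat_lit 0) (.e (nat_lit 3966) (nat_lit 239) .nil)))) (.g (nat_lit 0) (.e (nat_lit 362903) (nat_lit 0) .nil) .nil)))) (.nd (nat_lit 9) 
(.lf (nat_lit 574882) (.g (nat_lit 4716) (.e (nat_lit 491537) (nat_lit 2) (.e (nat_lit 90170) (nat_lit 13) (.e (nat_lit 172113) (nat_lit 10) (.e (nat_lit 434248) (nat_lit 28) (.e (nat_lit 573452) (nat_lit 9) (.e (nat_lit 430) (nat_lit 32) (.e (nat_lit 426341) (nat_lit 14) .nil))))))) (.g (nat_lit 1) (.e (nat_lit 362620) (nat_lit 0) .nil) .nil))) 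
(.lf (nat_lit 575394) (.g (nat_lit 1645) (.e (nat_lit 491550) (nat_lit 9) (.e (nat_lit 336421) (nat_lit 28) (.e (nat_lit 434193) (nat_lit 13) (.e (nat_lit 2789) (nat_lit 179) (.e (nat_lit 294969) (nat_lit 27) (.e (nat_lit 426340) (nat_lit 14) .nil)))))) (.g (nat_lit 1) (.e (nat_lit 363251) (nat_lit 0) .nil) .nil)))))) (.nd (nat_lit 7) (.nd (nat_lit 8) (.nd (nat_lit 9) 
(.lf (nat_lit 574562) (.g (nat_lit 1490) (.e (nat_lit 483408) (nat_lit 26) (.e (nat_lit 385091) (nat_lit 49) (.e (nat_lit 778323) (nat_lit 5) (.e (nat_lit 73781) (nat_lit 32) (.e (nat_lit 3087) (nat_lit 191) .nil))))) (.g (nat_lit 1) (.e (nat_lit 361268) (nat_lit 0) .nil) .nil))) 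
(.lf (nat_lit 575074) (.g (nat_lit 1273) (.e (nat_lit 491540) (nat_lit 3) (.e (nat_lit 98365) (nat_lit 26) (.e (nat_lit 426341) (nat_lit 14) (.e (nat_lit 491537) (nat_lit 2) .nil)))) (.g (nat_lit 0) (.e (nat_lit 362834) (nat_lit 0) .nil) .nil)))) (.nd (nat_lit 9) 
(.lf (nat_lit 574818) (.g (nat_lit 4269) (.e (nat_lit 491537) (nat_lit 2) (.e (nat_lit 90170) (nat_lit 13) (.e (nat_lit 172106) (nat_lit 10) (.e (nat_lit 434231) (nat_lit 23) (.e (nat_lit 532481) (nat_lit 0) (.e (nat_lit 6628) (nat_lit 357) (.e (nat_lit 3105) (nat_lit 192) .nil))))))) (.g (nat_lit 1) (.e (nat_lit 362556) (nat_lit 0) .nil) .nil))) 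
(.lf (nat_lit 575330) (.g (nat_lit 3137) (.e (nat_lit 491548) (nat_lit 9) (.e (nat_lit 336306) (nat_lit 15) (.e (nat_lit 3308) (nat_lit 202) (.e (nat_lit 573493) (nat_lit 15) (.e (nat_lit 81956) (nat_lit 23) (.e (nat_lit 98387) (nat_lit 33) .nil)))))) (.g (nat_lit 1) (.e (nat_lit 363128) (nat_lit 0) .nil) .nil))))) (.nd (nat_lit 8) (.nd (nat_lit 9) 
(.lf (nat_lit 574690) (.g (nat_lit 554) (.e (nat_lit 491264) (nat_lit 27) (.e (nat_lit 401457) (nat_lit 13) (.e (nat_lit 483413) (nat_lit 27) .nil))) (.g (nat_lit 0) (.e (nat_lit 362402) (nat_lit 0) .nil) .nil))) 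
(.lf (nat_lit 575202) (.g (nat_lit 3504) (.e (nat_lit 491540) (nat_lit 3) (.e (nat_lit 98373) (nat_lit 29) (.e (nat_lit 450587) (nat_lit 10) (.e (nat_lit 573449) (nat_lit 9) (.e (nat_lit 393) (nat_lit 32) .nil))))) (.g (nat_lit 0) (.e (nat_lit 362969) (nat_lit 0) .nil) .nil)))) (.nd (nat_lit 9) 
(.lf (nat_lit 574946) (.g (nat_lit 3818) (.e (nat_lit 491538) (nat_lit 3) (.e (nat_lit 98372) (nat_lit 29) (.e (nat_lit 450588) (nat_lit 10) (.e (nat_lit 573469) (nat_lit 11) (.e (nat_lit 16472) (nat_lit 14) .nil))))) (.g (nat_lit 0) (.e (nat_lit 362690) (nat_lit 0) .nil) .nil))) 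
(.lf (nat_lit 575458) (.g (nat_lit 1539) (.e (nat_lit 491558) (nat_lit 10) (.e (nat_lit 344179) (nat_lit 44) (.e (nat_lit 778466) (nat_lit 11) (.e (nat_lit 24658) (nat_lit 13) .nil)))) (.g (nat_lit 0) (.e (nat_lit 363331) (nat_lit 0) .nil) .nil)))))))) (.nd (nat_lit 5) (.nd (nat_lit 6) (.nd (nat_lit 7) (.nd (nat_lit 8) (.nd (nat_lit 9) 
(.lf (nat_lit 574482) (.g (nat_lit 667) (.e (nat_lit 483405) (nat_lit 26) (.e (nat_lit 385109) (nat_lit 51) (.e (nat_lit 794642) (nat_lit 20) .nil))) (.g (nat_lit 0) (.e (nat_lit 360958) (nat_lit 0) .nil) .nil))) 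
(.lf (nat_lit 574994) (.g (nat_lit 2563) (.e (nat_lit 491539) (nat_lit 3) (.e (nat_lit 98373) (nat_lit 29) (.e (nat_lit 450583) (nat_lit 7) (.e (nat_lit 548896) (nat_lit 14) .nil)))) (.g (nat_lit 0) (.e (nat_lit 362742) (nat_lit 0) .nil) .nil)))) (.nd (nat_lit 9) 
(.lf (nat_lit 574738) (.g (nat_lit 1933) (.e (nat_lit 491535) (nat_lit 2) (.e (nat_lit 90170) (nat_lit 13) (.e (nat_lit 172106) (nat_lit 10) (.e (nat_lit 434238) (nat_lit 25) .nil)))) (.g (nat_lit 0) (.e (nat_lit 362474) (nat_lit 0) .nil) .nil))) 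
(.lf (nat_lit 575250) (.g (nat_lit 3933) (.e (nat_lit 491540) (nat_lit 3) (.e (nat_lit 98373) (nat_lit 29) (.e (nat_lit 450588) (nat_lit 10) (.e (nat_lit 573454) (nat_lit 9) (.e (nat_lit 7936) (nat_lit 32) .nil))))) (.g (nat_lit 0) (.e (nat_lit 363017) (nat_lit 0) .nil) .nil))))) (.nd (nat_lit 8) (.nd (nat_lit 9) 
(.lf (nat_lit 574610) (.g (nat_lit 884) (.e (nat_lit 483410) (nat_lit 27) (.e (nat_lit 401448) (nat_lit 10) (.e (nat_lit 434200) (nat_lit 18) .nil))) (.g (nat_lit 0) (.e (nat_lit 361457) (nat_lit 0) .nil) .nil))) 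
(.lf (nat_lit 575122) (.g (nat_lit 3356) (.e (nat_lit 491540) (nat_lit 3) (.e (nat_lit 98373) (nat_lit 29) (.e (nat_lit 450562) (nat_lit 0) (.e (nat_lit 3924) (nat_lit 239) .nil)))) (.g (nat_lit 0) (.e (nat_lit 362887) (nat_lit 0) .nil) .nil)))) (.nd (nat_lit 9) 
(.lf (nat_lit 574866) (.g (nat_lit 3028) (.e (nat_lit 491537) (nat_lit 2) (.e (nat_lit 90170) (nat_lit 13) (.e (nat_lit 172113) (nat_lit 10) (.e (nat_lit 434245) (nat_lit 28) (.e (nat_lit 573450) (nat_lit 9) (.e (nat_lit 370) (nat_lit 32) (.e (nat_lit 426340) (nat_lit 14) .nil))))))) (.g (nat_lit 1) (.e (nat_lit 362604) (nat_lit 0) .nil) .nil))) 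
(.lf (nat_lit 575378) (.g (nat_lit 491) (.e (nat_lit 491550) (nat_lit 9) (.e (nat_lit 336369) (nat_lit 27) (.e (nat_lit 426288) (nat_lit 10) .nil))) (.g (nat_lit 0) (.e (nat_lit 363234) (nat_lit 0) .nil) .nil)))))) (.nd (nat_lit 7) (.nd (nat_lit 8) (.nd (nat_lit 9) 
(.lf (nat_lit 574546) (.g (nat_lit 1263) (.e (nat_lit 483408) (nat_lit 26) (.e (nat_lit 385066) (nat_lit 26) (.e (nat_lit 532501) (nat_lit 1) (.e (nat_lit 57830) (nat_lit 250) (.e (nat_lit 1004) (nat_lit 81) .nil))))) (.g (nat_lit 0) (.e (nat_lit 361166) (nat_lit 0) .nil) .nil))) 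
(.lf (nat_lit 575058) (.g (nat_lit 1100) (.e (nat_lit 491540) (nat_lit 3) (.e (nat_lit 98333) (nat_lit 18) (.e (nat_lit 164233) (nat_lit 186) .nil))) (.g (nat_lit 0) (.e (nat_lit 362812) (nat_lit 0) .nil) .nil)))) (.nd (nat_lit 9) 
(.lf (nat_lit 574802) (.g (nat_lit 1535) (.e (nat_lit 491536) (nat_lit 2) (.e (nat_lit 90178) (nat_lit 15) (.e (nat_lit 188440) (nat_lit 20) (.e (nat_lit 3308) (nat_lit 202) .nil)))) (.g (nat_lit 0) (.e (nat_lit 362538) (nat_lit 0) .nil) .nil))) 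
(.lf (nat_lit 575314) (.g (nat_lit 903) (.e (nat_lit 491547) (nat_lit 9) (.e (nat_lit 336369) (nat_lit 27) (.e (nat_lit 426345) (nat_lit 14) (.e (nat_lit 491571) (nat_lit 13) .nil)))) (.g (nat_lit 0) (.e (nat_lit 363103) (nat_lit 0) .nil) .nil))))) (.nd (nat_lit 8) (.nd (nat_lit 9) 
(.lf (nat_lit 574674) (.g (nat_lit 461) (.e (nat_lit 483413) (nat_lit 27) (.e (nat_lit 401447) (nat_lit 10) (.e (nat_lit 442112) (nat_lit 45) .nil))) (.g (nat_lit 0) (.e (nat_lit 362189) (nat_lit 0) .nil) .nil))) 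
(.lf (nat_lit 575186) (.g (nat_lit 2297) (.e (nat_lit 491540) (nat_lit 3) (.e (nat_lit 98373) (nat_lit 29) (.e (nat_lit 450586) (nat_lit 10) (.e (nat_lit 573456) (nat_lit 9) .nil)))) (.g (nat_lit 0) (.e (nat_lit 362953) (nat_lit 0) .nil) .nil)))) (.nd (nat_lit 9) 
(.lf (nat_lit 574930) (.g (nat_lit 1763) (.e (nat_lit 499456) (nat_lit 2) (.e (nat_lit 90170) (nat_lit 13) (.e (nat_lit 172113) (nat_lit 10) (.e (nat_lit 434245) (nat_lit 28) (.e (nat_lit 573470) (nat_lit 11) .nil))))) (.g (nat_lit 0) (.e (nat_lit 362671) (nat_lit 0) .nil) .nil))) 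
(.lf (nat_lit 575442) (.g (nat_lit 3486) (.e (nat_lit 491558) (nat_lit 10) (.e (nat_lit 344115) (nat_lit 20) (.e (nat_lit 507923) (nat_lit 6) (.e (nat_lit 286747) (nat_lit 9) (.e (nat_lit 336013) (nat_lit 2) (.e (nat_lit 90145) (nat_lit 9) (.e (nat_lit 3102) (nat_lit 192) .nil))))))) (.g (nat_lit 1) (.e (nat_lit 363315) (nat_lit 0) .nil) .nil))))))) 
(.nd (nat_lit 6) (.nd (nat_lit 7) (.nd (nat_lit 8) (.nd (nat_lit 9) 
(.lf (nat_lit 574514) (.g (nat_lit 96) (.e (nat_lit 483406) (nat_lit 26) (.e (nat_lit 385100) (nat_lit 49) (.e (nat_lit 778322) (nat_lit 5) .nil))) (.g (nat_lit 0) (.e (nat_lit 361064) (nat_lit 0) .nil) .nil))) 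
(.lf (nat_lit 575026) (.g (nat_lit 4742) (.e (nat_lit 491539) (nat_lit 3) (.e (nat_lit 98373) (nat_lit 29) (.e (nat_lit 450587) (nat_lit 10) (.e (nat_lit 573463) (nat_lit 9) .nil)))) (.g (nat_lit 0) (.e (nat_lit 362774) (nat_lit 0) .nil) .nil)))) (.nd (nat_lit 9) 
(.lf (nat_lit 574770) (.g (nat_lit 3662) (.e (nat_lit 491536) (nat_lit 2) (.e (nat_lit 90170) (nat_lit 13) (.e (nat_lit 172106) (nat_lit 10) (.e (nat_lit 434244) (nat_lit 28) (.e (nat_lit 573450) (nat_lit 9) (.e (nat_lit 375) (nat_lit 32) (.e (nat_lit 426346) (nat_lit 14) .nil))))))) (.g (nat_lit 1) (.e (nat_lit 362506) (nat_lit 0) .nil) .nil))) 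
(.lf (nat_lit 575282) (.g (nat_lit 2484) (.e (nat_lit 499456) (nat_lit 3) (.e (nat_lit 98373) (nat_lit 29) (.e (nat_lit 450587) (nat_lit 10) (.e (nat_lit 573456) (nat_lit 9) .nil)))) (.g (nat_lit 0) (.e (nat_lit 363049) (nat_lit 0) .nil) .nil))))) (.nd (nat_lit 8) (.nd (nat_lit 9) 
(.lf (nat_lit 574642) (.g (nat_lit 2931) (.e (nat_lit 483411) (nat_lit 27) (.e (nat_lit 401456) (nat_lit 13) (.e (nat_lit 483409) (nat_lit 27) (.e (nat_lit 401459) (nat_lit 13) .nil)))) (.g (nat_lit 1) (.e (nat_lit 361690) (nat_lit 0) .nil) .nil))) 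
(.lf (nat_lit 575154) (.g (nat_lit 2045) (.e (nat_lit 491540) (nat_lit 3) (.e (nat_lit 98373) (nat_lit 29) (.e (nat_lit 450568) (nat_lit 0) (.e (nat_lit 7936) (nat_lit 239) .nil)))) (.g (nat_lit 0) (.e (nat_lit 362921) (nat_lit 0) .nil) .nil)))) (.nd (nat_lit 9) 
(.lf (nat_lit 574898) (.g (nat_lit 3023) (.e (nat_lit 491537) (nat_lit 2) (.e (nat_lit 90170) (nat_lit 13) (.e (nat_lit 172120) (nat_lit 12) (.e (nat_lit 475183) (nat_lit 29) (.e (nat_lit 557096) (nat_lit 13) .nil))))) (.g (nat_lit 0) (.e (nat_lit 362636) (nat_lit 0) .nil) .nil))) 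
(.lf (nat_lit 575410) (.g (nat_lit 948) (.e (nat_lit 491550) (nat_lit 9) (.e (nat_lit 336432) (nat_lit 30) (.e (nat_lit 450564) (nat_lit 0) (.e (nat_lit 5546) (nat_lit 306) .nil)))) (.g (nat_lit 0) (.e (nat_lit 363272) (nat_lit 0) .nil) .nil)))))) (.nd (nat_lit 7) (.nd (nat_lit 8) (.nd (nat_lit 9) 
(.lf (nat_lit 574578) (.g (nat_lit 2108) (.e (nat_lit 483409) (nat_lit 27) (.e (nat_lit 401438) (nat_lit 9) (.e (nat_lit 426533) (nat_lit 28) (.e (nat_lit 344068) (nat_lit 0) (.e (nat_lit 3089) (nat_lit 191) .nil))))) (.g (nat_lit 1) (.e (nat_lit 361340) (nat_lit 0) .nil) .nil))) 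
(.lf (nat_lit 575090) (.g (nat_lit 2876) (.e (nat_lit 491540) (nat_lit 3) (.e (nat_lit 98372) (nat_lit 29) (.e (nat_lit 450586) (nat_lit 10) (.e (nat_lit 573450) (nat_lit 9) (.e (nat_lit 433) (nat_lit 32) (.e (nat_lit 426347) (nat_lit 14) .nil)))))) (.g (nat_lit 1) (.e (nat_lit 362855) (nat_lit 0) .nil) .nil)))) (.nd (nat_lit 9) 
(.lf (nat_lit 574834) (.g (nat_lit 2202) (.e (nat_lit 491537) (nat_lit 2) (.e (nat_lit 90170) (nat_lit 13) (.e (nat_lit 172106) (nat_lit 10) (.e (nat_lit 434236) (nat_lit 25) .nil)))) (.g (nat_lit 0) (.e (nat_lit 362572) (nat_lit 0) .nil) .nil))) 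
(.lf (nat_lit 575346) (.g (nat_lit 1130) (.e (nat_lit 491549) (nat_lit 9) (.e (nat_lit 336336) (nat_lit 20) (.e (nat_lit 221218) (nat_lit 24) .nil))) (.g (nat_lit 0) (.e (nat_lit 363180) (nat_lit 0) .nil) .nil))))) (.nd (nat_lit 8) (.nd (nat_lit 9) 
(.lf (nat_lit 574706) (.g (nat_lit 457) (.e (nat_lit 491520) (nat_lit 0) (.e (nat_lit 1788) (nat_lit 119) (.e (nat_lit 516166) (nat_lit 12) .nil))) (.g (nat_lit 0) (.e (nat_lit 362418) (nat_lit 0) .nil) .nil))) 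
(.lf (nat_lit 575218) (.g (nat_lit 4278) (.e (nat_lit 491540) (nat_lit 3) (.e (nat_lit 98373) (nat_lit 29) (.e (nat_lit 450587) (nat_lit 10) (.e (nat_lit 573458) (nat_lit 9) (.e (nat_lit 7936) (nat_lit 32) .nil))))) (.g (nat_lit 0) (.e (nat_lit 362985) (nat_lit 0) .nil) .nil)))) (.nd (nat_lit 9) 
(.lf (nat_lit 574962) (.g (nat_lit 2548) (.e (nat_lit 491538) (nat_lit 3) (.e (nat_lit 98373) (nat_lit 29) (.e (nat_lit 450587) (nat_lit 10) (.e (nat_lit 573471) (nat_lit 11) .nil)))) (.g (nat_lit 0) (.e (nat_lit 362706) (nat_lit 0) .nil) .nil))) 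
(.lf (nat_lit 575474) (.g (nat_lit 1647) (.e (nat_lit 491560) (nat_lit 10) (.e (nat_lit 344117) (nat_lit 21) (.e (nat_lit 516106) (nat_lit 0) (.e (nat_lit 7936) (nat_lit 402) .nil)))) (.g (nat_lit 0) (.e (nat_lit 363348) (nat_lit 0) .nil) .nil))))))))) (.nd (nat_lit 4) (.nd (nat_lit 5) (.nd (nat_lit 6) (.nd (nat_lit 7) (.nd (nat_lit 8) (.nd (nat_lit 9) 
(.lf (nat_lit 574474) (.g (nat_lit 2688) (.e (nat_lit 483405) (nat_lit 26) (.e (nat_lit 385068) (nat_lit 26) (.e (nat_lit 532503) (nat_lit 1) (.e (nat_lit 57853) (nat_lit 252) (.e (nat_lit 57406) (nat_lit 12) .nil))))) (.g (nat_lit 0) (.e (nat_lit 360892) (nat_lit 0) .nil) .nil))) 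
(.lf (nat_lit 574986) (.g (nat_lit 3153) (.e (nat_lit 491539) (nat_lit 3) (.e (nat_lit 98373) (nat_lit 29) (.e (nat_lit 450562) (nat_lit 0) (.e (nat_lit 3948) (nat_lit 239) .nil)))) (.g (nat_lit 0) (.e (nat_lit 362734) (nat_lit 0) .nil) .nil)))) (.nd (nat_lit 9) 
(.lf (nat_lit 574730) (.g (nat_lit 3095) (.e (nat_lit 491526) (nat_lit 0) (.e (nat_lit 1788) (nat_lit 119) (.e (nat_lit 516166) (nat_lit 12) (.e (nat_lit 450587) (nat_lit 10) (.e (nat_lit 573456) (nat_lit 9) (.e (nat_lit 430) (nat_lit 32) (.e (nat_lit 426342) (nat_lit 14) .nil))))))) (.g (nat_lit 1) (.e (nat_lit 362445) (nat_lit 0) .nil) .nil))) 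
(.lf (nat_lit 575242) (.g (nat_lit 3750) (.e (nat_lit 491540) (nat_lit 3) (.e (nat_lit 98373) (nat_lit 29) (.e (nat_lit 450588) (nat_lit 10) (.e (nat_lit 573452) (nat_lit 9) (.e (nat_lit 428) (nat_lit 32) (.e (nat_lit 426347) (nat_lit 14) .nil)))))) (.g (nat_lit 1) (.e (nat_lit 363009) (nat_lit 0) .nil) .nil))))) (.nd (nat_lit 8) (.nd (nat_lit 9) 
(.lf (nat_lit 574602) (.g (nat_lit 191) (.e (nat_lit 483410) (nat_lit 27) (.e (nat_lit 401438) (nat_lit 9) (.e (nat_lit 426482) (nat_lit 27) .nil))) (.g (nat_lit 0) (.e (nat_lit 361436) (nat_lit 0) .nil) .nil))) 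
(.lf (nat_lit 575114) (.g (nat_lit 1825) (.e (nat_lit 491540) (nat_lit 3) (.e (nat_lit 98373) (nat_lit 29) (.e (nat_lit 450560) (nat_lit 0) (.e (nat_lit 3953) (nat_lit 239) .nil)))) (.g (nat_lit 0) (.e (nat_lit 362879) (nat_lit 0) .nil) .nil)))) (.nd (nat_lit 9) 
(.lf (nat_lit 574858) (.g (nat_lit 3764) (.e (nat_lit 491537) (nat_lit 2) (.e (nat_lit 90170) (nat_lit 13) (.e (nat_lit 172113) (nat_lit 10) (.e (nat_lit 434242) (nat_lit 28) (.e (nat_lit 573450) (nat_lit 9) (.e (nat_lit 411) (nat_lit 32) (.e (nat_lit 426340) (nat_lit 14) .nil))))))) (.g (nat_lit 1) (.e (nat_lit 362596) (nat_lit 0) .nil) .nil))) 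
(.lf (nat_lit 575370) (.g (nat_lit 4721) (.e (nat_lit 491550) (nat_lit 9) (.e (nat_lit 336306) (nat_lit 15) (.e (nat_lit 3308) (nat_lit 202) (.e (nat_lit 573482) (nat_lit 13) (.e (nat_lit 65604) (nat_lit 9) (.e (nat_lit 336013) (nat_lit 2) (.e (nat_lit 90134) (nat_lit 9) (.e (nat_lit 3098) (nat_lit 192) .nil)))))))) (.g (nat_lit 1) (.e (nat_lit 363221) (nat_lit 0) .nil) .nil)))))) 
(.nd (nat_lit 7) (.nd (nat_lit 8) (.nd (nat_lit 9) 
(.lf (nat_lit 574538) (.g (nat_lit 2403) (.e (nat_lit 483407) (nat_lit 26) (.e (nat_lit 385094) (nat_lit 49) (.e (nat_lit 778323) (nat_lit 5) (.e (nat_lit 73782) (nat_lit 32) (.e (nat_lit 3088) (nat_lit 191) .nil))))) (.g (nat_lit 1) (.e (nat_lit 361127) (nat_lit 0) .nil) .nil))) 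
(.lf (nat_lit 575050) (.g (nat_lit 5910) (.e (nat_lit 491539) (nat_lit 3) (.e (nat_lit 98373) (nat_lit 29) (.e (nat_lit 450588) (nat_lit 10) (.e (nat_lit 573460) (nat_lit 9) .nil)))) (.g (nat_lit 0) (.e (nat_lit 362798) (nat_lit 0) .nil) .nil)))) (.nd (nat_lit 9) 
(.lf (nat_lit 574794) (.g (nat_lit 3367) (.e (nat_lit 491536) (nat_lit 2) (.e (nat_lit 90176) (nat_lit 15) (.e (nat_lit 188452) (nat_lit 23) (.e (nat_lit 204885) (nat_lit 33) (.e (nat_lit 401460) (nat_lit 14) .nil))))) (.g (nat_lit 0) (.e (nat_lit 362530) (nat_lit 0) .nil) .nil))) 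
(.lf (nat_lit 575306) (.g (nat_lit 3146) (.e (nat_lit 491546) (nat_lit 9) (.e (nat_lit 336261) (nat_lit 15) (.e (nat_lit 3308) (nat_lit 202) (.e (nat_lit 573492) (nat_lit 15) (.e (nat_lit 81956) (nat_lit 23) (.e (nat_lit 98389) (nat_lit 33) .nil)))))) (.g (nat_lit 1) (.e (nat_lit 363082) (nat_lit 0) .nil) .nil))))) (.nd (nat_lit 8) (.nd (nat_lit 9) 
(.lf (nat_lit 574666) (.g (nat_lit 500) (.e (nat_lit 483413) (nat_lit 27) (.e (nat_lit 401447) (nat_lit 10) (.e (nat_lit 434202) (nat_lit 18) .nil))) (.g (nat_lit 0) (.e (nat_lit 362135) (nat_lit 0) .nil) .nil))) 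
(.lf (nat_lit 575178) (.g (nat_lit 308) (.e (nat_lit 491540) (nat_lit 3) (.e (nat_lit 98373) (nat_lit 29) (.e (nat_lit 450586) (nat_lit 10) .nil))) (.g (nat_lit 0) (.e (nat_lit 362945) (nat_lit 0) .nil) .nil)))) (.nd (nat_lit 9) 
(.lf (nat_lit 574922) (.g (nat_lit 1148) (.e (nat_lit 491537) (nat_lit 2) (.e (nat_lit 90178) (nat_lit 15) (.e (nat_lit 188441) (nat_lit 20) (.e (nat_lit 3270) (nat_lit 199) .nil)))) (.g (nat_lit 0) (.e (nat_lit 362661) (nat_lit 0) .nil) .nil))) 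
(.lf (nat_lit 575434) (.g (nat_lit 890) (.e (nat_lit 491558) (nat_lit 10) (.e (nat_lit 344097) (nat_lit 18) (.e (nat_lit 7254) (nat_lit 383) (.e (nat_lit 8198) (nat_lit 0) .nil)))) (.g (nat_lit 0) (.e (nat_lit 363307) (nat_lit 0) .nil) .nil))))))) (.nd (nat_lit 6) (.nd (nat_lit 7) (.nd (nat_lit 8) (.nd (nat_lit 9) 
(.lf (nat_lit 574506) (.g (nat_lit 664) (.e (nat_lit 483406) (nat_lit 26) (.e (nat_lit 385074) (nat_lit 31) (.e (nat_lit 581376) (nat_lit 0) .nil))) (.g (nat_lit 0) (.e (nat_lit 361048) (nat_lit 0) .nil) .nil))) 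
(.lf (nat_lit 575018) (.g (nat_lit 2576) (.e (nat_lit 491539) (nat_lit 3) (.e (nat_lit 98373) (nat_lit 29) (.e (nat_lit 450587) (nat_lit 10) (.e (nat_lit 573452) (nat_lit 9) (.e (nat_lit 430) (nat_lit 32) (.e (nat_lit 426342) (nat_lit 14) .nil)))))) (.g (nat_lit 1) (.e (nat_lit 362766) (nat_lit 0) .nil) .nil)))) (.nd (nat_lit 9) 
(.lf (nat_lit 574762) (.g (nat_lit 2077) (.e (nat_lit 491536) (nat_lit 2) (.e (nat_lit 90167) (nat_lit 13) (.e (nat_lit 172126) (nat_lit 14) (.e (nat_lit 491537) (nat_lit 2) (.e (nat_lit 90133) (nat_lit 9) (.e (nat_lit 2936) (nat_lit 184) (.e (nat_lit 426347) (nat_lit 14) .nil))))))) (.g (nat_lit 1) (.e (nat_lit 362498) (nat_lit 0) .nil) .nil))) 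
(.lf (nat_lit 575274) (.g (nat_lit 1636) (.e (nat_lit 499456) (nat_lit 3) (.e (nat_lit 98359) (nat_lit 26) (.e (nat_lit 426286) (nat_lit 10) (.e (nat_lit 434248) (nat_lit 28) (.e (nat_lit 573471) (nat_lit 11) .nil))))) (.g (nat_lit 0) (.e (nat_lit 363041) (nat_lit 0) .nil) .nil))))) (.nd (nat_lit 8) (.nd (nat_lit 9) 
(.lf (nat_lit 574634) (.g (nat_lit 578) (.e (nat_lit 483411) (nat_lit 27) (.e (nat_lit 401444) (nat_lit 9) (.e (nat_lit 426520) (nat_lit 27) .nil))) (.g (nat_lit 0) (.e (nat_lit 361576) (nat_lit 0) .nil) .nil))) 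
(.lf (nat_lit 575146) (.g (nat_lit 2453) (.e (nat_lit 491540) (nat_lit 3) (.e (nat_lit 98373) (nat_lit 29) (.e (nat_lit 450565) (nat_lit 0) (.e (nat_lit 7936) (nat_lit 239) .nil)))) (.g (nat_lit 0) (.e (nat_lit 362912) (nat_lit 0) .nil) .nil)))) (.nd (nat_lit 9) 
(.lf (nat_lit 574890) (.g (nat_lit 578) (.e (nat_lit 491537) (nat_lit 2) (.e (nat_lit 90170) (nat_lit 13) (.e (nat_lit 172115) (nat_lit 10) .nil))) (.g (nat_lit 0) (.e (nat_lit 362628) (nat_lit 0) .nil) .nil))) 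
(.lf (nat_lit 575402) (.g (nat_lit 2588) (.e (nat_lit 491550) (nat_lit 9) (.e (nat_lit 336430) (nat_lit 29) (.e (nat_lit 442409) (nat_lit 20) (.e (nat_lit 3409) (nat_lit 212) (.e (nat_lit 655376) (nat_lit 4) (.e (nat_lit 172126) (nat_lit 14) .nil)))))) (.g (nat_lit 1) (.e (nat_lit 363261) (nat_lit 0) .nil) .nil)))))) (.nd (nat_lit 7) (.nd (nat_lit 8) (.nd (nat_lit 9) 
(.lf (nat_lit 574570) (.g (nat_lit 406) (.e (nat_lit 483408) (nat_lit 26) (.e (nat_lit 385109) (nat_lit 51) (.e (nat_lit 802560) (nat_lit 4) .nil))) (.g (nat_lit 0) (.e (nat_lit 361313) (nat_lit 0) .nil) .nil))) 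
(.lf (nat_lit 575082) (.g (nat_lit 1511) (.e (nat_lit 491540) (nat_lit 3) (.e (nat_lit 98370) (nat_lit 28) (.e (nat_lit 442430) (nat_lit 24) (.e (nat_lit 229535) (nat_lit 134) .nil)))) (.g (nat_lit 0) (.e (nat_lit 362847) (nat_lit 0) .nil) .nil)))) (.nd (nat_lit 9) 
(.lf (nat_lit 574826) (.g (nat_lit 3256) (.e (nat_lit 491537) (nat_lit 2) (.e (nat_lit 90170) (nat_lit 13) (.e (nat_lit 172106) (nat_lit 10) (.e (nat_lit 434231) (nat_lit 23) (.e (nat_lit 532483) (nat_lit 0) .nil))))) (.g (nat_lit 0) (.e (nat_lit 362564) (nat_lit 0) .nil) .nil))) 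
(.lf (nat_lit 575338) (.g (nat_lit 2369) (.e (nat_lit 491548) (nat_lit 9) (.e (nat_lit 336430) (nat_lit 29) (.e (nat_lit 442402) (nat_lit 20) (.e (nat_lit 3409) (nat_lit 212) (.e (nat_lit 655378) (nat_lit 4) (.e (nat_lit 172124) (nat_lit 14) .nil)))))) (.g (nat_lit 1) (.e (nat_lit 363144) (nat_lit 0) .nil) .nil))))) (.nd (nat_lit 8) (.nd (nat_lit 9) 
(.lf (nat_lit 574698) (.g (nat_lit 2146) (.e (nat_lit 491520) (nat_lit 0) (.e (nat_lit 1788) (nat_lit 119) (.e (nat_lit 516151) (nat_lit 9) (.e (nat_lit 426286) (nat_lit 10) (.e (nat_lit 434242) (nat_lit 28) .nil))))) (.g (nat_lit 0) (.e (nat_lit 362410) (nat_lit 0) .nil) .nil))) 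
(.lf (nat_lit 575210) (.g (nat_lit 2102) (.e (nat_lit 491540) (nat_lit 3) (.e (nat_lit 98373) (nat_lit 29) (.e (nat_lit 450587) (nat_lit 10) (.e (nat_lit 573454) (nat_lit 9) .nil)))) (.g (nat_lit 0) (.e (nat_lit 362977) (nat_lit 0) .nil) .nil)))) (.nd (nat_lit 9) 
(.lf (nat_lit 574954) (.g (nat_lit 1544) (.e (nat_lit 491538) (nat_lit 3) (.e (nat_lit 98373) (nat_lit 29) (.e (nat_lit 450586) (nat_lit 10) (.e (nat_lit 573456) (nat_lit 9) .nil)))) (.g (nat_lit 0) (.e (nat_lit 362698) (nat_lit 0) .nil) .nil))) 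
(.lf (nat_lit 575466) (.g (nat_lit 1697) (.e (nat_lit 491560) (nat_lit 10) (.e (nat_lit 344097) (nat_lit 18) (.e (nat_lit 7270) (nat_lit 385) (.e (nat_lit 122914) (nat_lit 14) .nil)))) (.g (nat_lit 0) (.e (nat_lit 363339) (nat_lit 0) .nil) .nil)))))))) (.nd (nat_lit 5) (.nd (nat_lit 6) (.nd (nat_lit 7) (.nd (nat_lit 8) (.nd (nat_lit 9) 
(.lf (nat_lit 574490) (.g (nat_lit 2112) (.e (nat_lit 483406) (nat_lit 26) (.e (nat_lit 385066) (nat_lit 26) (.e (nat_lit 532499) (nat_lit 1) (.e (nat_lit 57850) (nat_lit 252) .nil)))) (.g (nat_lit 0) (.e (nat_lit 361000) (nat_lit 0) .nil) .nil))) 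
(.lf (nat_lit 575002) (.g (nat_lit 2688) (.e (nat_lit 491539) (nat_lit 3) (.e (nat_lit 98373) (nat_lit 29) (.e (nat_lit 450585) (nat_lit 10) (.e (nat_lit 573470) (nat_lit 11) .nil)))) (.g (nat_lit 0) (.e (nat_lit 362750) (nat_lit 0) .nil) .nil)))) (.nd (nat_lit 9) 
(.lf (nat_lit 574746) (.g (nat_lit 2227) (.e (nat_lit 491535) (nat_lit 2) (.e (nat_lit 90170) (nat_lit 13) (.e (nat_lit 172113) (nat_lit 10) (.e (nat_lit 434248) (nat_lit 28) (.e (nat_lit 573457) (nat_lit 9) .nil))))) (.g (nat_lit 0) (.e (nat_lit 362482) (nat_lit 0) .nil) .nil))) 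
(.lf (nat_lit 575258) (.g (nat_lit 5710) (.e (nat_lit 491540) (nat_lit 3) (.e (nat_lit 98373) (nat_lit 29) (.e (nat_lit 450588) (nat_lit 10) (.e (nat_lit 573460) (nat_lit 9) .nil)))) (.g (nat_lit 0) (.e (nat_lit 363025) (nat_lit 0) .nil) .nil))))) (.nd (nat_lit 8) (.nd (nat_lit 9) 
(.lf (nat_lit 574618) (.g (nat_lit 2685) (.e (nat_lit 483410) (nat_lit 27) (.e (nat_lit 401459) (nat_lit 13) (.e (nat_lit 483409) (nat_lit 27) (.e (nat_lit 401457) (nat_lit 13) .nil)))) (.g (nat_lit 1) (.e (nat_lit 361548) (nat_lit 0) .nil) .nil))) 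
(.lf (nat_lit 575130) (.g (nat_lit 3512) (.e (nat_lit 491540) (nat_lit 3) (.e (nat_lit 98373) (nat_lit 29) (.e (nat_lit 450562) (nat_lit 0) (.e (nat_lit 3968) (nat_lit 239) (.e (nat_lit 2625) (nat_lit 164) .nil))))) (.g (nat_lit 0) (.e (nat_lit 362895) (nat_lit 0) .nil) .nil)))) (.nd (nat_lit 9) 
(.lf (nat_lit 574874) (.g (nat_lit 2203) (.e (nat_lit 491537) (nat_lit 2) (.e (nat_lit 90170) (nat_lit 13) (.e (nat_lit 172113) (nat_lit 10) (.e (nat_lit 434247) (nat_lit 28) (.e (nat_lit 573456) (nat_lit 9) (.e (nat_lit 430) (nat_lit 32) (.e (nat_lit 433920) (nat_lit 14) .nil))))))) (.g (nat_lit 1) (.e (nat_lit 362612) (nat_lit 0) .nil) .nil))) 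
(.lf (nat_lit 575386) (.g (nat_lit 3953) (.e (nat_lit 491550) (nat_lit 9) (.e (nat_lit 336414) (nat_lit 27) (.e (nat_lit 426318) (nat_lit 12) (.e (nat_lit 475210) (nat_lit 41) (.e (nat_lit 712745) (nat_lit 27) (.e (nat_lit 426347) (nat_lit 14) .nil)))))) (.g (nat_lit 1) (.e (nat_lit 363243) (nat_lit 0) .nil) .nil)))))) (.nd (nat_lit 7) (.nd (nat_lit 8) (.nd (nat_lit 9) 
(.lf (nat_lit 574554) (.g (nat_lit 1571) (.e (nat_lit 483408) (nat_lit 26) (.e (nat_lit 385068) (nat_lit 26) (.e (nat_lit 532501) (nat_lit 1) (.e (nat_lit 57926) (nat_lit 282) .nil)))) (.g (nat_lit 0) (.e (nat_lit 361203) (nat_lit 0) .nil) .nil))) 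
(.lf (nat_lit 575066) (.g (nat_lit 1158) (.e (nat_lit 491540) (nat_lit 3) (.e (nat_lit 98358) (nat_lit 26) (.e (nat_lit 426337) (nat_lit 14) .nil))) (.g (nat_lit 0) (.e (nat_lit 362822) (nat_lit 0) .nil) .nil)))) (.nd (nat_lit 9) 
(.lf (nat_lit 574810) (.g (nat_lit 490) (.e (nat_lit 491537) (nat_lit 2) (.e (nat_lit 90170) (nat_lit 13) (.e (nat_lit 172085) (nat_lit 9) .nil))) (.g (nat_lit 0) (.e (nat_lit 362548) (nat_lit 0) .nil) .nil))) 
(.lf (nat_lit 575322) (.g (nat_lit 1171) (.e (nat_lit 491547) (nat_lit 9) (.e (nat_lit 336443) (nat_lit 32) (.e (nat_lit 466982) (nat_lit 24) .nil))) (.g (nat_lit 0) (.e (nat_lit 363117) (nat_lit 0) .nil) .nil))))) (.nd (nat_lit 8) (.nd (nat_lit 9) 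
(.lf (nat_lit 574682) (.g (nat_lit 1330) (.e (nat_lit 491264) (nat_lit 27) (.e (nat_lit 401437) (nat_lit 9) (.e (nat_lit 426533) (nat_lit 28) (.e (nat_lit 344069) (nat_lit 0) .nil)))) (.g (nat_lit 0) (.e (nat_lit 362393) (nat_lit 0) .nil) .nil))) 
(.lf (nat_lit 575194) (.g (nat_lit 3258) (.e (nat_lit 491540) (nat_lit 3) (.e (nat_lit 98373) (nat_lit 29) (.e (nat_lit 450586) (nat_lit 10) (.e (nat_lit 573469) (nat_lit 11) (.e (nat_lit 16469) (nat_lit 14) .nil))))) (.g (nat_lit 0) (.e (nat_lit 362961) (nat_lit 0) .nil) .nil)))) (.nd (nat_lit 9) 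
(.lf (nat_lit 574938) (.g (nat_lit 3473) (.e (nat_lit 491538) (nat_lit 3) (.e (nat_lit 98359) (nat_lit 26) (.e (nat_lit 426286) (nat_lit 10) (.e (nat_lit 434248) (nat_lit 28) (.e (nat_lit 573452) (nat_lit 9) (.e (nat_lit 430) (nat_lit 32) (.e (nat_lit 426344) (nat_lit 14) .nil))))))) (.g (nat_lit 1) (.e (nat_lit 362681) (nat_lit 0) .nil) .nil))) 
(.lf (nat_lit 575450) (.g (nat_lit 1785) (.e (nat_lit 491558) (nat_lit 10) (.e (nat_lit 344168) (nat_lit 40) (.e (nat_lit 671762) (nat_lit 4) (.e (nat_lit 65617) (nat_lit 10) (.e (nat_lit 344164) (nat_lit 37) .nil))))) (.g (nat_lit 0) (.e (nat_lit 363323) (nat_lit 0) .nil) .nil))))))) (.nd (nat_lit 6) (.nd (nat_lit 7) (.nd (nat_lit 8) (.nd (nat_lit 9) 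
(.lf (nat_lit 574522) (.g (nat_lit 996) (.e (nat_lit 483407) (nat_lit 26) (.e (nat_lit 385066) (nat_lit 26) (.e (nat_lit 532501) (nat_lit 1) (.e (nat_lit 57830) (nat_lit 250) .nil)))) (.g (nat_lit 0) (.e (nat_lit 361086) (nat_lit 0) .nil) .nil))) 
(.lf (nat_lit 575034) (.g (nat_lit 5128) (.e (nat_lit 491539) (nat_lit 3) (.e (nat_lit 98373) (nat_lit 29) (.e (nat_lit 450588) (nat_lit 10) (.e (nat_lit 573449) (nat_lit 9) (.e (nat_lit 411) (nat_lit 32) .nil))))) (.g (nat_lit 0) (.e (nat_lit 362782) (nat_lit 0) .nil) .nil)))) (.nd (nat_lit 9) 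
(.lf (nat_lit 574778) (.g (nat_lit 3521) (.e (nat_lit 491536) (nat_lit 2) (.e (nat_lit 90170) (nat_lit 13) (.e (nat_lit 172113) (nat_lit 10) (.e (nat_lit 434245) (nat_lit 28) (.e (nat_lit 573470) (nat_lit 11) (.e (nat_lit 16472) (nat_lit 14) .nil)))))) (.g (nat_lit 1) (.e (nat_lit 362514) (nat_lit 0) .nil) .nil))) 
(.lf (nat_lit 575290) (.g (nat_lit 2725) (.e (nat_lit 499456) (nat_lit 3) (.e (nat_lit 98373) (nat_lit 29) (.e (nat_lit 450588) (nat_lit 10) (.e (nat_lit 573470) (nat_lit 11) .nil)))) (.g (nat_lit 0) (.e (nat_lit 363057) (nat_lit 0) .nil) .nil))))) (.nd (nat_lit 8) (.nd (nat_lit 9) 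
(.lf (nat_lit 574650) (.g (nat_lit 419) (.e (nat_lit 483412) (nat_lit 27) (.e (nat_lit 401448) (nat_lit 10) (.e (nat_lit 442112) (nat_lit 44) .nil))) (.g (nat_lit 0) (.e (nat_lit 361904) (nat_lit 0) .nil) .nil))) 
(.lf (nat_lit 575162) (.g (nat_lit 2668) (.e (nat_lit 491540) (nat_lit 3) (.e (nat_lit 98373) (nat_lit 29) (.e (nat_lit 450583) (nat_lit 7) (.e (nat_lit 556800) (nat_lit 14) .nil)))) (.g (nat_lit 0) (.e (nat_lit 362929) (nat_lit 0) .nil) .nil)))) (.nd (nat_lit 9) 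
(.lf (nat_lit 574906) (.g (nat_lit 2818) (.e (nat_lit 491537) (nat_lit 2) (.e (nat_lit 90170) (nat_lit 13) (.e (nat_lit 172124) (nat_lit 14) (.e (nat_lit 491537) (nat_lit 2) (.e (nat_lit 90168) (nat_lit 13) .nil))))) (.g (nat_lit 0) (.e (nat_lit 362645) (nat_lit 0) .nil) .nil))) 
(.lf (nat_lit 575418) (.g (nat_lit 1527) (.e (nat_lit 491550) (nat_lit 9) (.e (nat_lit 336443) (nat_lit 32) (.e (nat_lit 466972) (nat_lit 21) (.e (nat_lit 164403) (nat_lit 256) .nil)))) (.g (nat_lit 0) (.e (nat_lit 363284) (nat_lit 0) .nil) .nil)))))) (.nd (nat_lit 7) (.nd (nat_lit 8) (.nd (nat_lit 9) 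
(.lf (nat_lit 574586) (.g (nat_lit 1804) (.e (nat_lit 483409) (nat_lit 27) (.e (nat_lit 401459) (nat_lit 13) (.e (nat_lit 483350) (nat_lit 17) (.e (nat_lit 6676) (nat_lit 357) .nil)))) (.g (nat_lit 0) (.e (nat_lit 361397) (nat_lit 0) .nil) .nil))) 
(.lf (nat_lit 575098) (.g (nat_lit 2329) (.e (nat_lit 491540) (nat_lit 3) (.e (nat_lit 98372) (nat_lit 29) (.e (nat_lit 450588) (nat_lit 10) (.e (nat_lit 573450) (nat_lit 9) .nil)))) (.g (nat_lit 0) (.e (nat_lit 362863) (nat_lit 0) .nil) .nil)))) (.nd (nat_lit 9) 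
(.lf (nat_lit 574842) (.g (nat_lit 1898) (.e (nat_lit 491537) (nat_lit 2) (.e (nat_lit 90170) (nat_lit 13) (.e (nat_lit 172106) (nat_lit 10) (.e (nat_lit 434244) (nat_lit 28) (.e (nat_lit 573449) (nat_lit 9) .nil))))) (.g (nat_lit 0) (.e (nat_lit 362580) (nat_lit 0) .nil) .nil))) 
(.lf (nat_lit 575354) (.g (nat_lit 457) (.e (nat_lit 491549) (nat_lit 9) (.e (nat_lit 336430) (nat_lit 29) (.e (nat_lit 442376) (nat_lit 0) .nil))) (.g (nat_lit 0) (.e (nat_lit 363194) (nat_lit 0) .nil) .nil))))) (.nd (nat_lit 8) (.nd (nat_lit 9) 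
(.lf (nat_lit 574714) (.g (nat_lit 3347) (.e (nat_lit 491525) (nat_lit 0) (.e (nat_lit 1788) (nat_lit 119) (.e (nat_lit 516151) (nat_lit 9) (.e (nat_lit 426275) (nat_lit 10) (.e (nat_lit 434248) (nat_lit 28) .nil))))) (.g (nat_lit 0) (.e (nat_lit 362429) (nat_lit 0) .nil) .nil))) 
(.lf (nat_lit 575226) (.g (nat_lit 2922) (.e (nat_lit 491540) (nat_lit 3) (.e (nat_lit 98373) (nat_lit 29) (.e (nat_lit 450587) (nat_lit 10) (.e (nat_lit 573465) (nat_lit 9) (.e (nat_lit 7936) (nat_lit 32) .nil))))) (.g (nat_lit 0) (.e (nat_lit 362993) (nat_lit 0) .nil) .nil)))) (.nd (nat_lit 9) 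
(.lf (nat_lit 574970) (.g (nat_lit 2633) (.e (nat_lit 491539) (nat_lit 3) (.e (nat_lit 98350) (nat_lit 24) (.e (nat_lit 409602) (nat_lit 0) (.e (nat_lit 5293) (nat_lit 298) (.e (nat_lit 1232) (nat_lit 91) .nil))))) (.g (nat_lit 0) (.e (nat_lit 362715) (nat_lit 0) .nil) .nil))) 
(.lf (nat_lit 575482) (.g (nat_lit 2860) (.e (nat_lit 491560) (nat_lit 10) (.e (nat_lit 344129) (nat_lit 26) (.e (nat_lit 557066) (nat_lit 9) (.e (nat_lit 232) (nat_lit 21) (.e (nat_lit 336189) (nat_lit 11) .nil))))) (.g (nat_lit 0) (.e (nat_lit 363356) (nat_lit 0) .nil) .nil)))))))))) 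
(.nd (nat_lit 3) (.nd (nat_lit 4) (.nd (nat_lit 5) (.nd (nat_lit 6) (.nd (nat_lit 7) 
(.nd (nat_lit 8) (.nd (nat_lit 9) 
(.lf (nat_lit 574470) (.g (nat_lit 1646) (.e (nat_lit 483405) (nat_lit 26) (.e (nat_lit 385068) (nat_lit 26) (.e (nat_lit 532501) (nat_lit 1) (.e (nat_lit 57852) (nat_lit 252) .nil)))) (.g (nat_lit 0) (.e (nat_lit 360884) (nat_lit 0) .nil) .nil))) 
(.lf (nat_lit 574982) (.g (nat_lit 4085) (.e (nat_lit 491539) (nat_lit 3) (.e (nat_lit 98372) (nat_lit 29) (.e (nat_lit 450588) (nat_lit 10) (.e (nat_lit 573469) (nat_lit 11) (.e (nat_lit 16473) (nat_lit 14) .nil))))) (.g (nat_lit 0) (.e (nat_lit 362730) (nat_lit 0) .nil) .nil)))) (.nd (nat_lit 9) 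
(.lf (nat_lit 574726) (.g (nat_lit 1998) (.e (nat_lit 491526) (nat_lit 0) (.e (nat_lit 1788) (nat_lit 119) (.e (nat_lit 516151) (nat_lit 9) (.e (nat_lit 426286) (nat_lit 10) (.e (nat_lit 434247) (nat_lit 28) .nil))))) (.g (nat_lit 0) (.e (nat_lit 362441) (nat_lit 0) .nil) .nil))) 
(.lf (nat_lit 575238) (.g (nat_lit 2709) (.e (nat_lit 491540) (nat_lit 3) (.e (nat_lit 98373) (nat_lit 29) (.e (nat_lit 450588) (nat_lit 10) (.e (nat_lit 573451) (nat_lit 9) (.e (nat_lit 7936) (nat_lit 32) .nil))))) (.g (nat_lit 0) (.e (nat_lit 363005) (nat_lit 0) .nil) .nil))))) (.nd (nat_lit 8) (.nd (nat_lit 9) 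
(.lf (nat_lit 574598) (.g (nat_lit 1965) (.e (nat_lit 483409) (nat_lit 27) (.e (nat_lit 401459) (nat_lit 13) (.e (nat_lit 483411) (nat_lit 27) (.e (nat_lit 409344) (nat_lit 13) .nil)))) (.g (nat_lit 1) (.e (nat_lit 361416) (nat_lit 0) .nil) .nil))) 
(.lf (nat_lit 575110) (.g (nat_lit 2065) (.e (nat_lit 491540) (nat_lit 3) (.e (nat_lit 98372) (nat_lit 29) (.e (nat_lit 450588) (nat_lit 10) (.e (nat_lit 573470) (nat_lit 11) .nil)))) (.g (nat_lit 0) (.e (nat_lit 362875) (nat_lit 0) .nil) .nil)))) (.nd (nat_lit 9) 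
(.lf (nat_lit 574854) (.g (nat_lit 3165) (.e (nat_lit 491537) (nat_lit 2) (.e (nat_lit 90170) (nat_lit 13) (.e (nat_lit 172113) (nat_lit 10) (.e (nat_lit 434238) (nat_lit 25) (.e (nat_lit 548898) (nat_lit 14) (.e (nat_lit 2888) (nat_lit 184) (.e (nat_lit 426340) (nat_lit 14) .nil))))))) (.g (nat_lit 1) (.e (nat_lit 362592) (nat_lit 0) .nil) .nil))) 
(.lf (nat_lit 575366) (.g (nat_lit 3566) (.e (nat_lit 491549) (nat_lit 9) (.e (nat_lit 336443) (nat_lit 32) (.e (nat_lit 466969) (nat_lit 21) (.e (nat_lit 164348) (nat_lit 240) (.e (nat_lit 2629) (nat_lit 164) (.e (nat_lit 172126) (nat_lit 14) .nil)))))) (.g (nat_lit 1) (.e (nat_lit 363207) (nat_lit 0) .nil) .nil)))))) (.nd (nat_lit 7) (.nd (nat_lit 8) (.nd (nat_lit 9) 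
(.lf (nat_lit 574534) (.g (nat_lit 1710) (.e (nat_lit 483407) (nat_lit 26) (.e (nat_lit 385093) (nat_lit 49) (.e (nat_lit 778323) (nat_lit 5) (.e (nat_lit 73782) (nat_lit 32) (.e (nat_lit 3087) (nat_lit 191) .nil))))) (.g (nat_lit 0) (.e (nat_lit 361118) (nat_lit 0) .nil) .nil))) 
(.lf (nat_lit 575046) (.g (nat_lit 5781) (.e (nat_lit 491539) (nat_lit 3) (.e (nat_lit 98373) (nat_lit 29) (.e (nat_lit 450588) (nat_lit 10) (.e (nat_lit 573456) (nat_lit 9) .nil)))) (.g (nat_lit 0) (.e (nat_lit 362794) (nat_lit 0) .nil) .nil)))) (.nd (nat_lit 9) 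
(.lf (nat_lit 574790) (.g (nat_lit 695) (.e (nat_lit 491536) (nat_lit 2) (.e (nat_lit 90174) (nat_lit 14) (.e (nat_lit 180287) (nat_lit 45) .nil))) (.g (nat_lit 0) (.e (nat_lit 362526) (nat_lit 0) .nil) .nil))) 
(.lf (nat_lit 575302) (.g (nat_lit 2224) (.e (nat_lit 491546) (nat_lit 9) (.e (nat_lit 336028) (nat_lit 3) (.e (nat_lit 98350) (nat_lit 24) (.e (nat_lit 409648) (nat_lit 18) (.e (nat_lit 303108) (nat_lit 0) .nil))))) (.g (nat_lit 0) (.e (nat_lit 363076) (nat_lit 0) .nil) .nil))))) (.nd (nat_lit 8) (.nd (nat_lit 9) 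
(.lf (nat_lit 574662) (.g (nat_lit 404) (.e (nat_lit 483413) (nat_lit 27) (.e (nat_lit 401446) (nat_lit 10) (.e (nat_lit 434203) (nat_lit 18) .nil))) (.g (nat_lit 0) (.e (nat_lit 362058) (nat_lit 0) .nil) .nil))) 
(.lf (nat_lit 575174) (.g (nat_lit 2410) (.e (nat_lit 491540) (nat_lit 3) (.e (nat_lit 98373) (nat_lit 29) (.e (nat_lit 450585) (nat_lit 10) (.e (nat_lit 573469) (nat_lit 11) .nil)))) (.g (nat_lit 0) (.e (nat_lit 362941) (nat_lit 0) .nil) .nil)))) (.nd (nat_lit 9) 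
(.lf (nat_lit 574918) (.g (nat_lit 3361) (.e (nat_lit 491537) (nat_lit 2) (.e (nat_lit 90176) (nat_lit 15) (.e (nat_lit 188452) (nat_lit 23) (.e (nat_lit 204885) (nat_lit 33) (.e (nat_lit 401460) (nat_lit 14) .nil))))) (.g (nat_lit 0) (.e (nat_lit 362657) (nat_lit 0) .nil) .nil))) 
(.lf (nat_lit 575430) (.g (nat_lit 3952) (.e (nat_lit 491556) (nat_lit 9) (.e (nat_lit 336390) (nat_lit 27) (.e (nat_lit 426344) (nat_lit 14) (.e (nat_lit 491556) (nat_lit 9) (.e (nat_lit 336390) (nat_lit 27) (.e (nat_lit 426344) (nat_lit 14) .nil)))))) (.g (nat_lit 1) (.e (nat_lit 363303) (nat_lit 0) .nil) .nil))))))) (.nd (nat_lit 6) (.nd (nat_lit 7) (.nd (nat_lit 8) (.nd (nat_lit 9) 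
(.lf (nat_lit 574502) (.g (nat_lit 2236) (.e (nat_lit 483406) (nat_lit 26) (.e (nat_lit 385068) (nat_lit 26) (.e (nat_lit 532503) (nat_lit 1) (.e (nat_lit 57851) (nat_lit 252) (.e (nat_lit 57406) (nat_lit 12) .nil))))) (.g (nat_lit 0) (.e (nat_lit 361034) (nat_lit 0) .nil) .nil))) 
(.lf (nat_lit 575014) (.g (nat_lit 2790) (.e (nat_lit 491539) (nat_lit 3) (.e (nat_lit 98373) (nat_lit 29) (.e (nat_lit 450587) (nat_lit 10) (.e (nat_lit 573449) (nat_lit 9) .nil)))) (.g (nat_lit 0) (.e (nat_lit 362762) (nat_lit 0) .nil) .nil)))) (.nd (nat_lit 9) 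
(.lf (nat_lit 574758) (.g (nat_lit 1229) (.e (nat_lit 491535) (nat_lit 2) (.e (nat_lit 90178) (nat_lit 15) (.e (nat_lit 188440) (nat_lit 20) (.e (nat_lit 3307) (nat_lit 202) .nil)))) (.g (nat_lit 0) (.e (nat_lit 362494) (nat_lit 0) .nil) .nil))) 
(.lf (nat_lit 575270) (.g (nat_lit 1043) (.e (nat_lit 499456) (nat_lit 3) (.e (nat_lit 98359) (nat_lit 26) (.e (nat_lit 426286) (nat_lit 10) (.e (nat_lit 434242) (nat_lit 28) .nil)))) (.g (nat_lit 0) (.e (nat_lit 363037) (nat_lit 0) .nil) .nil))))) (.nd (nat_lit 8) (.nd (nat_lit 9) 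
(.lf (nat_lit 574630) (.g (nat_lit 2606) (.e (nat_lit 483411) (nat_lit 27) (.e (nat_lit 401444) (nat_lit 9) (.e (nat_lit 426163) (nat_lit 6) (.e (nat_lit 253991) (nat_lit 11) (.e (nat_lit 16465) (nat_lit 13) .nil))))) (.g (nat_lit 1) (.e (nat_lit 361570) (nat_lit 0) .nil) .nil))) 
(.lf (nat_lit 575142) (.g (nat_lit 2503) (.e (nat_lit 491540) (nat_lit 3) (.e (nat_lit 98373) (nat_lit 29) (.e (nat_lit 450564) (nat_lit 0) (.e (nat_lit 3944) (nat_lit 239) .nil)))) (.g (nat_lit 0) (.e (nat_lit 362907) (nat_lit 0) .nil) .nil)))) (.nd (nat_lit 9) 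
(.lf (nat_lit 574886) (.g (nat_lit 3060) (.e (nat_lit 491537) (nat_lit 2) (.e (nat_lit 90170) (nat_lit 13) (.e (nat_lit 172113) (nat_lit 10) (.e (nat_lit 434248) (nat_lit 28) (.e (nat_lit 573457) (nat_lit 9) (.e (nat_lit 430) (nat_lit 32) (.e (nat_lit 426341) (nat_lit 14) .nil))))))) (.g (nat_lit 1) (.e (nat_lit 362624) (nat_lit 0) .nil) .nil))) 
(.lf (nat_lit 575398) (.g (nat_lit 526) (.e (nat_lit 491550) (nat_lit 9) (.e (nat_lit 336430) (nat_lit 29) (.e (nat_lit 442375) (nat_lit 0) .nil))) (.g (nat_lit 0) (.e (nat_lit 363255) (nat_lit 0) .nil) .nil)))))) (.nd (nat_lit 7) (.nd (nat_lit 8) (.nd (nat_lit 9) 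
(.lf (nat_lit 574566) (.g (nat_lit 2423) (.e (nat_lit 483408) (nat_lit 26) (.e (nat_lit 385093) (nat_lit 49) (.e (nat_lit 778323) (nat_lit 5) (.e (nat_lit 73782) (nat_lit 32) (.e (nat_lit 3087) (nat_lit 191) .nil))))) (.g (nat_lit 1) (.e (nat_lit 361279) (nat_lit 0) .nil) .nil))) 
(.lf (nat_lit 575078) (.g (nat_lit 347) (.e (nat_lit 491540) (nat_lit 3) (.e (nat_lit 98369) (nat_lit 28) (.e (nat_lit 442407) (nat_lit 20) .nil))) (.g (nat_lit 0) (.e (nat_lit 362841) (nat_lit 0) .nil) .nil)))) (.nd (nat_lit 9) 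
(.lf (nat_lit 574822) (.g (nat_lit 3501) (.e (nat_lit 491537) (nat_lit 2) (.e (nat_lit 90170) (nat_lit 13) (.e (nat_lit 172106) (nat_lit 10) (.e (nat_lit 434231) (nat_lit 23) (.e (nat_lit 532482) (nat_lit 0) (.e (nat_lit 6628) (nat_lit 357) (.e (nat_lit 3105) (nat_lit 192) .nil))))))) (.g (nat_lit 1) (.e (nat_lit 362560) (nat_lit 0) .nil) .nil))) 
(.lf (nat_lit 575334) (.g (nat_lit 2147) (.e (nat_lit 491548) (nat_lit 9) (.e (nat_lit 336395) (nat_lit 27) (.e (nat_lit 426340) (nat_lit 14) (.e (nat_lit 491571) (nat_lit 13) (.e (nat_lit 393297) (nat_lit 27) .nil))))) (.g (nat_lit 1) (.e (nat_lit 363136) (nat_lit 0) .nil) .nil))))) (.nd (nat_lit 8) (.nd (nat_lit 9) 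
(.lf (nat_lit 574694) (.g (nat_lit 1120) (.e (nat_lit 491264) (nat_lit 27) (.e (nat_lit 401459) (nat_lit 13) (.e (nat_lit 483354) (nat_lit 17) (.e (nat_lit 6676) (nat_lit 357) (.e (nat_lit 3089) (nat_lit 191) .nil))))) (.g (nat_lit 0) (.e (nat_lit 362406) (nat_lit 0) .nil) .nil))) 
(.lf (nat_lit 575206) (.g (nat_lit 3481) (.e (nat_lit 491540) (nat_lit 3) (.e (nat_lit 98373) (nat_lit 29) (.e (nat_lit 450587) (nat_lit 10) (.e (nat_lit 573450) (nat_lit 9) (.e (nat_lit 411) (nat_lit 32) .nil))))) (.g (nat_lit 0) (.e (nat_lit 362973) (nat_lit 0) .nil) .nil)))) (.nd (nat_lit 9) 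
(.lf (nat_lit 574950) (.g (nat_lit 517) (.e (nat_lit 491538) (nat_lit 3) (.e (nat_lit 98373) (nat_lit 29) (.e (nat_lit 450583) (nat_lit 7) .nil))) (.g (nat_lit 0) (.e (nat_lit 362694) (nat_lit 0) .nil) .nil))) 
(.lf (nat_lit 575462) (.g (nat_lit 3827) (.e (nat_lit 491559) (nat_lit 10) (.e (nat_lit 344117) (nat_lit 21) (.e (nat_lit 516185) (nat_lit 16) (.e (nat_lit 491560) (nat_lit 10) (.e (nat_lit 344108) (nat_lit 19) .nil))))) (.g (nat_lit 0) (.e (nat_lit 363335) (nat_lit 0) .nil) .nil)))))))) (.nd (nat_lit 5) (.nd (nat_lit 6) (.nd (nat_lit 7) (.nd (nat_lit 8) (.nd (nat_lit 9) 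
(.lf (nat_lit 574486) (.g (nat_lit 2845) (.e (nat_lit 483406) (nat_lit 26) (.e (nat_lit 385064) (nat_lit 26) (.e (nat_lit 532503) (nat_lit 1) (.e (nat_lit 57847) (nat_lit 252) (.e (nat_lit 57408) (nat_lit 12) .nil))))) (.g (nat_lit 0) (.e (nat_lit 360996) (nat_lit 0) .nil) .nil))) 
(.lf (nat_lit 574998) (.g (nat_lit 3603) (.e (nat_lit 491539) (nat_lit 3) (.e (nat_lit 98373) (nat_lit 29) (.e (nat_lit 450585) (nat_lit 10) (.e (nat_lit 573451) (nat_lit 9) (.e (nat_lit 430) (nat_lit 32) .nil))))) (.g (nat_lit 0) (.e (nat_lit 362746) (nat_lit 0) .nil) .nil)))) (.nd (nat_lit 9) 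
(.lf (nat_lit 574742) (.g (nat_lit 4188) (.e (nat_lit 491535) (nat_lit 2) (.e (nat_lit 90170) (nat_lit 13) (.e (nat_lit 172113) (nat_lit 10) (.e (nat_lit 434245) (nat_lit 28) (.e (nat_lit 573471) (nat_lit 11) (.e (nat_lit 16472) (nat_lit 14) .nil)))))) (.g (nat_lit 1) (.e (nat_lit 362478) (nat_lit 0) .nil) .nil))) 
(.lf (nat_lit 575254) (.g (nat_lit 3139) (.e (nat_lit 491540) (nat_lit 3) (.e (nat_lit 98373) (nat_lit 29) (.e (nat_lit 450588) (nat_lit 10) (.e (nat_lit 573458) (nat_lit 9) .nil)))) (.g (nat_lit 0) (.e (nat_lit 363021) (nat_lit 0) .nil) .nil))))) (.nd (nat_lit 8) (.nd (nat_lit 9) 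
(.lf (nat_lit 574614) (.g (nat_lit 1181) (.e (nat_lit 483410) (nat_lit 27) (.e (nat_lit 401454) (nat_lit 12) (.e (nat_lit 475188) (nat_lit 33) .nil))) (.g (nat_lit 0) (.e (nat_lit 361487) (nat_lit 0) .nil) .nil))) 
(.lf (nat_lit 575126) (.g (nat_lit 3356) (.e (nat_lit 491540) (nat_lit 3) (.e (nat_lit 98373) (nat_lit 29) (.e (nat_lit 450562) (nat_lit 0) (.e (nat_lit 3963) (nat_lit 239) .nil)))) (.g (nat_lit 0) (.e (nat_lit 362891) (nat_lit 0) .nil) .nil)))) (.nd (nat_lit 9) 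
(.lf (nat_lit 574870) (.g (nat_lit 2182) (.e (nat_lit 491537) (nat_lit 2) (.e (nat_lit 90170) (nat_lit 13) (.e (nat_lit 172113) (nat_lit 10) (.e (nat_lit 434245) (nat_lit 28) (.e (nat_lit 573451) (nat_lit 9) (.e (nat_lit 430) (nat_lit 32) (.e (nat_lit 433920) (nat_lit 14) .nil))))))) (.g (nat_lit 1) (.e (nat_lit 362608) (nat_lit 0) .nil) .nil))) 
(.lf (nat_lit 575382) (.g (nat_lit 2475) (.e (nat_lit 491550) (nat_lit 9) (.e (nat_lit 336369) (nat_lit 27) (.e (nat_lit 426310) (nat_lit 12) (.e (nat_lit 475211) (nat_lit 41) (.e (nat_lit 712745) (nat_lit 27) (.e (nat_lit 426347) (nat_lit 14) .nil)))))) (.g (nat_lit 1) (.e (nat_lit 363238) (nat_lit 0) .nil) .nil)))))) (.nd (nat_lit 7) (.nd (nat_lit 8) (.nd (nat_lit 9) 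
(.lf (nat_lit 574550) (.g (nat_lit 1033) (.e (nat_lit 483408) (nat_lit 26) (.e (nat_lit 385068) (nat_lit 26) (.e (nat_lit 532498) (nat_lit 1) .nil))) (.g (nat_lit 0) (.e (nat_lit 361192) (nat_lit 0) .nil) .nil))) 
(.lf (nat_lit 575062) (.g (nat_lit 679) (.e (nat_lit 491540) (nat_lit 3) (.e (nat_lit 98349) (nat_lit 24) (.e (nat_lit 409603) (nat_lit 0) .nil))) (.g (nat_lit 0) (.e (nat_lit 362818) (nat_lit 0) .nil) .nil)))) (.nd (nat_lit 9) 
(.lf (nat_lit 574806) (.g (nat_lit 1174) (.e (nat_lit 491537) (nat_lit 2) (.e (nat_lit 90170) (nat_lit 13) (.e (nat_lit 172042) (nat_lit 0) (.e (nat_lit 7015) (nat_lit 377) .nil)))) (.g (nat_lit 0) (.e (nat_lit 362544) (nat_lit 0) .nil) .nil))) 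
(.lf (nat_lit 575318) (.g (nat_lit 383) (.e (nat_lit 491547) (nat_lit 9) (.e (nat_lit 336438) (nat_lit 31) (.e (nat_lit 458769) (nat_lit 16) .nil))) (.g (nat_lit 0) (.e (nat_lit 363109) (nat_lit 0) .nil) .nil))))) (.nd (nat_lit 8) (.nd (nat_lit 9) 
(.lf (nat_lit 574678) (.g (nat_lit 566) (.e (nat_lit 483413) (nat_lit 27) (.e (nat_lit 401448) (nat_lit 10) (.e (nat_lit 434207) (nat_lit 18) .nil))) (.g (nat_lit 0) (.e (nat_lit 362255) (nat_lit 0) .nil) .nil))) 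
(.lf (nat_lit 575190) (.g (nat_lit 2545) (.e (nat_lit 491540) (nat_lit 3) (.e (nat_lit 98373) (nat_lit 29) (.e (nat_lit 450586) (nat_lit 10) (.e (nat_lit 573457) (nat_lit 9) (.e (nat_lit 428) (nat_lit 32) .nil))))) (.g (nat_lit 0) (.e (nat_lit 362957) (nat_lit 0) .nil) .nil)))) (.nd (nat_lit 9) 
(.lf (nat_lit 574934) (.g (nat_lit 2000) (.e (nat_lit 491538) (nat_lit 3) (.e (nat_lit 98359) (nat_lit 26) (.e (nat_lit 426285) (nat_lit 10) (.e (nat_lit 434238) (nat_lit 25) (.e (nat_lit 548913) (nat_lit 18) .nil))))) (.g (nat_lit 0) (.e (nat_lit 362677) (nat_lit 0) .nil) .nil))) 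
(.lf (nat_lit 575446) (.g (nat_lit 2807) (.e (nat_lit 491558) (nat_lit 10) (.e (nat_lit 344117) (nat_lit 21) (.e (nat_lit 516185) (nat_lit 16) (.e (nat_lit 491560) (nat_lit 10) (.e (nat_lit 344108) (nat_lit 19) .nil))))) (.g (nat_lit 0) (.e (nat_lit 363319) (nat_lit 0) .nil) .nil))))))) (.nd (nat_lit 6) (.nd (nat_lit 7) (.nd (nat_lit 8) (.nd (nat_lit 9) 
(.lf (nat_lit 574518) (.g (nat_lit 2244) (.e (nat_lit 483407) (nat_lit 26) (.e (nat_lit 385065) (nat_lit 26) (.e (nat_lit 532503) (nat_lit 1) (.e (nat_lit 57847) (nat_lit 252) (.e (nat_lit 57407) (nat_lit 12) .nil))))) (.g (nat_lit 0) (.e (nat_lit 361082) (nat_lit 0) .nil) .nil))) 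
(.lf (nat_lit 575030) (.g (nat_lit 2309) (.e (nat_lit 491539) (nat_lit 3) (.e (nat_lit 98373) (nat_lit 29) (.e (nat_lit 450587) (nat_lit 10) (.e (nat_lit 573470) (nat_lit 11) .nil)))) (.g (nat_lit 0) (.e (nat_lit 362778) (nat_lit 0) .nil) .nil)))) (.nd (nat_lit 9) 
(.lf (nat_lit 574774) (.g (nat_lit 2328) (.e (nat_lit 491536) (nat_lit 2) (.e (nat_lit 90170) (nat_lit 13) (.e (nat_lit 172106) (nat_lit 10) (.e (nat_lit 434244) (nat_lit 28) (.e (nat_lit 573458) (nat_lit 9) (.e (nat_lit 426) (nat_lit 32) (.e (nat_lit 426342) (nat_lit 14) .nil))))))) (.g (nat_lit 1) (.e (nat_lit 362510) (nat_lit 0) .nil) .nil))) 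
(.lf (nat_lit 575286) (.g (nat_lit 3927) (.e (nat_lit 499456) (nat_lit 3) (.e (nat_lit 98373) (nat_lit 29) (.e (nat_lit 450588) (nat_lit 10) (.e (nat_lit 573451) (nat_lit 9) .nil)))) (.g (nat_lit 0) (.e (nat_lit 363053) (nat_lit 0) .nil) .nil))))) (.nd (nat_lit 8) (.nd (nat_lit 9) 
(.lf (nat_lit 574646) (.g (nat_lit 671) (.e (nat_lit 483412) (nat_lit 27) (.e (nat_lit 401446) (nat_lit 10) (.e (nat_lit 434291) (nat_lit 44) .nil))) (.g (nat_lit 0) (.e (nat_lit 361812) (nat_lit 0) .nil) .nil))) 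
(.lf (nat_lit 575158) (.g (nat_lit 1907) (.e (nat_lit 491540) (nat_lit 3) (.e (nat_lit 98373) (nat_lit 29) (.e (nat_lit 450569) (nat_lit 0) (.e (nat_lit 4215) (nat_lit 251) .nil)))) (.g (nat_lit 0) (.e (nat_lit 362925) (nat_lit 0) .nil) .nil)))) (.nd (nat_lit 9) 
(.lf (nat_lit 574902) (.g (nat_lit 3506) (.e (nat_lit 491537) (nat_lit 2) (.e (nat_lit 90170) (nat_lit 13) (.e (nat_lit 172120) (nat_lit 12) (.e (nat_lit 475185) (nat_lit 29) (.e (nat_lit 557099) (nat_lit 13) (.e (nat_lit 172126) (nat_lit 14) .nil)))))) (.g (nat_lit 1) (.e (nat_lit 362640) (nat_lit 0) .nil) .nil))) 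
(.lf (nat_lit 575414) (.g (nat_lit 1157) (.e (nat_lit 491550) (nat_lit 9) (.e (nat_lit 336443) (nat_lit 32) (.e (nat_lit 466959) (nat_lit 20) .nil))) (.g (nat_lit 0) (.e (nat_lit 363279) (nat_lit 0) .nil) .nil)))))) (.nd (nat_lit 7) (.nd (nat_lit 8) (.nd (nat_lit 9) 
(.lf (nat_lit 574582) (.g (nat_lit 1065) (.e (nat_lit 483409) (nat_lit 27) (.e (nat_lit 401454) (nat_lit 12) (.e (nat_lit 475191) (nat_lit 36) .nil))) (.g (nat_lit 0) (.e (nat_lit 361359) (nat_lit 0) .nil) .nil))) 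
(.lf (nat_lit 575094) (.g (nat_lit 2411) (.e (nat_lit 491540) (nat_lit 3) (.e (nat_lit 98372) (nat_lit 29) (.e (nat_lit 450586) (nat_lit 10) (.e (nat_lit 573452) (nat_lit 9) (.e (nat_lit 430) (nat_lit 32) (.e (nat_lit 426341) (nat_lit 14) .nil)))))) (.g (nat_lit 1) (.e (nat_lit 362859) (nat_lit 0) .nil) .nil)))) (.nd (nat_lit 9) 
(.lf (nat_lit 574838) (.g (nat_lit 4023) (.e (nat_lit 491537) (nat_lit 2) (.e (nat_lit 90170) (nat_lit 13) (.e (nat_lit 172106) (nat_lit 10) (.e (nat_lit 434238) (nat_lit 25) (.e (nat_lit 548898) (nat_lit 14) (.e (nat_lit 2888) (nat_lit 184) (.e (nat_lit 426340) (nat_lit 14) .nil))))))) (.g (nat_lit 1) (.e (nat_lit 362576) (nat_lit 0) .nil) .nil))) 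
(.lf (nat_lit 575350) (.g (nat_lit 2344) (.e (nat_lit 491549) (nat_lit 9) (.e (nat_lit 336395) (nat_lit 27) (.e (nat_lit 426340) (nat_lit 14) (.e (nat_lit 491571) (nat_lit 13) (.e (nat_lit 401152) (nat_lit 27) .nil))))) (.g (nat_lit 1) (.e (nat_lit 363189) (nat_lit 0) .nil) .nil))))) (.nd (nat_lit 8) (.nd (nat_lit 9) 
(.lf (nat_lit 574710) (.g (nat_lit 2588) (.e (nat_lit 491520) (nat_lit 0) (.e (nat_lit 1788) (nat_lit 119) (.e (nat_lit 516166) (nat_lit 12) (.e (nat_lit 450588) (nat_lit 10) (.e (nat_lit 573452) (nat_lit 9) (.e (nat_lit 430) (nat_lit 32) (.e (nat_lit 426343) (nat_lit 14) .nil))))))) (.g (nat_lit 1) (.e (nat_lit 362422) (nat_lit 0) .nil) .nil))) 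
(.lf (nat_lit 575222) (.g (nat_lit 3861) (.e (nat_lit 491540) (nat_lit 3) (.e (nat_lit 98373) (nat_lit 29) (.e (nat_lit 450587) (nat_lit 10) (.e (nat_lit 573461) (nat_lit 9) .nil)))) (.g (nat_lit 0) (.e (nat_lit 362989) (nat_lit 0) .nil) .nil)))) (.nd (nat_lit 9) 
(.lf (nat_lit 574966) (.g (nat_lit 1879) (.e (nat_lit 491538) (nat_lit 3) (.e (nat_lit 98373) (nat_lit 29) (.e (nat_lit 450588) (nat_lit 10) (.e (nat_lit 573452) (nat_lit 9) (.e (nat_lit 430) (nat_lit 32) .nil))))) (.g (nat_lit 0) (.e (nat_lit 362710) (nat_lit 0) .nil) .nil))) 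
(.lf (nat_lit 575478) (.g (nat_lit 1579) (.e (nat_lit 491560) (nat_lit 10) (.e (nat_lit 344118) (nat_lit 21) (.e (nat_lit 516120) (nat_lit 1) (.e (nat_lit 164427) (nat_lit 278) (.e (nat_lit 2554) (nat_lit 159) .nil))))) (.g (nat_lit 0) (.e (nat_lit 363352) (nat_lit 0) .nil) .nil))))))))) (.nd (nat_lit 4) (.nd (nat_lit 5) (.nd (nat_lit 6) (.nd (nat_lit 7) (.nd (nat_lit 8) (.nd (nat_lit 9) 
(.lf (nat_lit 574478) (.g (nat_lit 977) (.e (nat_lit 483405) (nat_lit 26) (.e (nat_lit 385093) (nat_lit 49) (.e (nat_lit 778323) (nat_lit 5) (.e (nat_lit 81664) (nat_lit 32) .nil)))) (.g (nat_lit 0) (.e (nat_lit 360919) (nat_lit 0) .nil) .nil))) 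
(.lf (nat_lit 574990) (.g (nat_lit 3398) (.e (nat_lit 491539) (nat_lit 3) (.e (nat_lit 98373) (nat_lit 29) (.e (nat_lit 450563) (nat_lit 0) (.e (nat_lit 4200) (nat_lit 251) .nil)))) (.g (nat_lit 0) (.e (nat_lit 362738) (nat_lit 0) .nil) .nil)))) (.nd (nat_lit 9) 
(.lf (nat_lit 574734) (.g (nat_lit 4884) (.e (nat_lit 491529) (nat_lit 0) (.e (nat_lit 1784) (nat_lit 119) (.e (nat_lit 516166) (nat_lit 12) (.e (nat_lit 450588) (nat_lit 10) (.e (nat_lit 573469) (nat_lit 11) .nil))))) (.g (nat_lit 0) (.e (nat_lit 362451) (nat_lit 0) .nil) .nil))) 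
(.lf (nat_lit 575246) (.g (nat_lit 3403) (.e (nat_lit 491540) (nat_lit 3) (.e (nat_lit 98373) (nat_lit 29) (.e (nat_lit 450588) (nat_lit 10) (.e (nat_lit 573454) (nat_lit 9) .nil)))) (.g (nat_lit 0) (.e (nat_lit 363013) (nat_lit 0) .nil) .nil))))) (.nd (nat_lit 8) (.nd (nat_lit 9) 
(.lf (nat_lit 574606) (.g (nat_lit 2744) (.e (nat_lit 483410) (nat_lit 27) (.e (nat_lit 401438) (nat_lit 9) (.e (nat_lit 426533) (nat_lit 28) (.e (nat_lit 344068) (nat_lit 0) (.e (nat_lit 3089) (nat_lit 191) .nil))))) (.g (nat_lit 1) (.e (nat_lit 361444) (nat_lit 0) .nil) .nil))) 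
(.lf (nat_lit 575118) (.g (nat_lit 2482) (.e (nat_lit 491540) (nat_lit 3) (.e (nat_lit 98373) (nat_lit 29) (.e (nat_lit 450561) (nat_lit 0) (.e (nat_lit 3953) (nat_lit 239) .nil)))) (.g (nat_lit 0) (.e (nat_lit 362883) (nat_lit 0) .nil) .nil)))) (.nd (nat_lit 9) 
(.lf (nat_lit 574862) (.g (nat_lit 1684) (.e (nat_lit 491537) (nat_lit 2) (.e (nat_lit 90170) (nat_lit 13) (.e (nat_lit 172113) (nat_lit 10) (.e (nat_lit 434245) (nat_lit 28) (.e (nat_lit 573448) (nat_lit 9) .nil))))) (.g (nat_lit 0) (.e (nat_lit 362600) (nat_lit 0) .nil) .nil))) 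
(.lf (nat_lit 575374) (.g (nat_lit 4146) (.e (nat_lit 491550) (nat_lit 9) (.e (nat_lit 336324) (nat_lit 18) (.e (nat_lit 204831) (nat_lit 18) (.e (nat_lit 57854) (nat_lit 252) .nil)))) (.g (nat_lit 0) (.e (nat_lit 363228) (nat_lit 0) .nil) .nil)))))) (.nd (nat_lit 7) (.nd (nat_lit 8) (.nd (nat_lit 9) 
(.lf (nat_lit 574542) (.g (nat_lit 2445) (.e (nat_lit 483408) (nat_lit 26) (.e (nat_lit 385064) (nat_lit 26) (.e (nat_lit 532500) (nat_lit 1) (.e (nat_lit 57852) (nat_lit 252) (.e (nat_lit 57406) (nat_lit 12) .nil))))) (.g (nat_lit 0) (.e (nat_lit 361155) (nat_lit 0) .nil) .nil))) 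
(.lf (nat_lit 575054) (.g (nat_lit 4076) (.e (nat_lit 491539) (nat_lit 3) (.e (nat_lit 98373) (nat_lit 29) (.e (nat_lit 450588) (nat_lit 10) (.e (nat_lit 573469) (nat_lit 11) (.e (nat_lit 16471) (nat_lit 14) .nil))))) (.g (nat_lit 0) (.e (nat_lit 362802) (nat_lit 0) .nil) .nil)))) (.nd (nat_lit 9) 
(.lf (nat_lit 574798) (.g (nat_lit 2691) (.e (nat_lit 491536) (nat_lit 2) (.e (nat_lit 90178) (nat_lit 15) (.e (nat_lit 188440) (nat_lit 20) (.e (nat_lit 3307) (nat_lit 202) (.e (nat_lit 573456) (nat_lit 9) (.e (nat_lit 430) (nat_lit 32) (.e (nat_lit 426342) (nat_lit 14) .nil))))))) (.g (nat_lit 1) (.e (nat_lit 362534) (nat_lit 0) .nil) .nil))) 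
(.lf (nat_lit 575310) (.g (nat_lit 1173) (.e (nat_lit 491546) (nat_lit 9) (.e (nat_lit 336443) (nat_lit 32) (.e (nat_lit 466959) (nat_lit 20) .nil))) (.g (nat_lit 0) (.e (nat_lit 363087) (nat_lit 0) .nil) .nil))))) (.nd (nat_lit 8) (.nd (nat_lit 9) 
(.lf (nat_lit 574670) (.g (nat_lit 504) (.e (nat_lit 483413) (nat_lit 27) (.e (nat_lit 401447) (nat_lit 10) (.e (nat_lit 434207) (nat_lit 18) .nil))) (.g (nat_lit 0) (.e (nat_lit 362161) (nat_lit 0) .nil) .nil))) 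
(.lf (nat_lit 575182) (.g (nat_lit 3754) (.e (nat_lit 491540) (nat_lit 3) (.e (nat_lit 98373) (nat_lit 29) (.e (nat_lit 450586) (nat_lit 10) (.e (nat_lit 573451) (nat_lit 9) (.e (nat_lit 428) (nat_lit 32) .nil))))) (.g (nat_lit 0) (.e (nat_lit 362949) (nat_lit 0) .nil) .nil)))) (.nd (nat_lit 9) 
(.lf (nat_lit 574926) (.g (nat_lit 3575) (.e (nat_lit 491537) (nat_lit 2) (.e (nat_lit 90178) (nat_lit 15) (.e (nat_lit 188452) (nat_lit 23) (.e (nat_lit 204885) (nat_lit 33) (.e (nat_lit 401460) (nat_lit 14) .nil))))) (.g (nat_lit 0) (.e (nat_lit 362665) (nat_lit 0) .nil) .nil))) 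
(.lf (nat_lit 575438) (.g (nat_lit 3405) (.e (nat_lit 491558) (nat_lit 10) (.e (nat_lit 344115) (nat_lit 20) (.e (nat_lit 507923) (nat_lit 6) (.e (nat_lit 286747) (nat_lit 9) (.e (nat_lit 336013) (nat_lit 2) (.e (nat_lit 90135) (nat_lit 9) (.e (nat_lit 3102) (nat_lit 192) .nil))))))) (.g (nat_lit 1) (.e (nat_lit 363311) (nat_lit 0) .nil) .nil))))))) 
(.nd (nat_lit 6) (.nd (nat_lit 7) (.nd (nat_lit 8) (.nd (nat_lit 9) 
(.lf (nat_lit 574510) (.g (nat_lit 3051) (.e (nat_lit 483406) (nat_lit 26) (.e (nat_lit 385093) (nat_lit 49) (.e (nat_lit 778323) (nat_lit 5) (.e (nat_lit 73781) (nat_lit 32) (.e (nat_lit 3090) (nat_lit 191) .nil))))) (.g (nat_lit 1) (.e (nat_lit 361059) (nat_lit 0) .nil) .nil))) 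
(.lf (nat_lit 575022) (.g (nat_lit 4729) (.e (nat_lit 491539) (nat_lit 3) (.e (nat_lit 98373) (nat_lit 29) (.e (nat_lit 450587) (nat_lit 10) (.e (nat_lit 573458) (nat_lit 9) .nil)))) (.g (nat_lit 0) (.e (nat_lit 362770) (nat_lit 0) .nil) .nil)))) (.nd (nat_lit 9) 
(.lf (nat_lit 574766) (.g (nat_lit 3689) (.e (nat_lit 491536) (nat_lit 2) (.e (nat_lit 90170) (nat_lit 13) (.e (nat_lit 172106) (nat_lit 10) (.e (nat_lit 434231) (nat_lit 23) (.e (nat_lit 532481) (nat_lit 0) .nil))))) (.g (nat_lit 0) (.e (nat_lit 362502) (nat_lit 0) .nil) .nil))) 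
(.lf (nat_lit 575278) (.g (nat_lit 3083) (.e (nat_lit 499456) (nat_lit 3) (.e (nat_lit 98372) (nat_lit 29) (.e (nat_lit 450588) (nat_lit 10) (.e (nat_lit 573470) (nat_lit 11) (.e (nat_lit 16473) (nat_lit 14) .nil))))) (.g (nat_lit 0) (.e (nat_lit 363045) (nat_lit 0) .nil) .nil))))) (.nd (nat_lit 8) (.nd (nat_lit 9) 
(.lf (nat_lit 574638) (.g (nat_lit 2199) (.e (nat_lit 483411) (nat_lit 27) (.e (nat_lit 401448) (nat_lit 10) (.e (nat_lit 434291) (nat_lit 44) (.e (nat_lit 704737) (nat_lit 11) (.e (nat_lit 16464) (nat_lit 13) .nil))))) (.g (nat_lit 1) (.e (nat_lit 361662) (nat_lit 0) .nil) .nil))) 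
(.lf (nat_lit 575150) (.g (nat_lit 1932) (.e (nat_lit 491540) (nat_lit 3) (.e (nat_lit 98373) (nat_lit 29) (.e (nat_lit 450567) (nat_lit 0) (.e (nat_lit 3966) (nat_lit 239) .nil)))) (.g (nat_lit 0) (.e (nat_lit 362917) (nat_lit 0) .nil) .nil)))) (.nd (nat_lit 9) 
(.lf (nat_lit 574894) (.g (nat_lit 1433) (.e (nat_lit 491537) (nat_lit 2) (.e (nat_lit 90170) (nat_lit 13) (.e (nat_lit 172118) (nat_lit 12) (.e (nat_lit 475184) (nat_lit 29) (.e (nat_lit 557096) (nat_lit 13) .nil))))) (.g (nat_lit 0) (.e (nat_lit 362632) (nat_lit 0) .nil) .nil))) 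
(.lf (nat_lit 575406) (.g (nat_lit 3607) (.e (nat_lit 491550) (nat_lit 9) (.e (nat_lit 336430) (nat_lit 29) (.e (nat_lit 442421) (nat_lit 21) (.e (nat_lit 164348) (nat_lit 240) (.e (nat_lit 2628) (nat_lit 164) (.e (nat_lit 172126) (nat_lit 14) .nil)))))) (.g (nat_lit 1) (.e (nat_lit 363266) (nat_lit 0) .nil) .nil)))))) (.nd (nat_lit 7) (.nd (nat_lit 8) (.nd (nat_lit 9) 
(.lf (nat_lit 574574) (.g (nat_lit 1679) (.e (nat_lit 483409) (nat_lit 27) (.e (nat_lit 401436) (nat_lit 9) (.e (nat_lit 426533) (nat_lit 28) (.e (nat_lit 344068) (nat_lit 0) (.e (nat_lit 3089) (nat_lit 191) .nil))))) (.g (nat_lit 1) (.e (nat_lit 361328) (nat_lit 0) .nil) .nil))) 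
(.lf (nat_lit 575086) (.g (nat_lit 2677) (.e (nat_lit 491540) (nat_lit 3) (.e (nat_lit 98372) (nat_lit 29) (.e (nat_lit 450583) (nat_lit 7) (.e (nat_lit 548911) (nat_lit 18) (.e (nat_lit 172126) (nat_lit 14) .nil))))) (.g (nat_lit 1) (.e (nat_lit 362851) (nat_lit 0) .nil) .nil)))) (.nd (nat_lit 9) 
(.lf (nat_lit 574830) (.g (nat_lit 3655) (.e (nat_lit 491537) (nat_lit 2) (.e (nat_lit 90170) (nat_lit 13) (.e (nat_lit 172106) (nat_lit 10) (.e (nat_lit 434231) (nat_lit 23) (.e (nat_lit 532483) (nat_lit 0) (.e (nat_lit 7936) (nat_lit 357) (.e (nat_lit 3105) (nat_lit 192) .nil))))))) (.g (nat_lit 1) (.e (nat_lit 362568) (nat_lit 0) .nil) .nil))) 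
(.lf (nat_lit 575342) (.g (nat_lit 351) (.e (nat_lit 491548) (nat_lit 9) (.e (nat_lit 336438) (nat_lit 31) (.e (nat_lit 466688) (nat_lit 4) .nil))) (.g (nat_lit 0) (.e (nat_lit 363159) (nat_lit 0) .nil) .nil))))) (.nd (nat_lit 8) (.nd (nat_lit 9) 
(.lf (nat_lit 574702) (.g (nat_lit 1958) (.e (nat_lit 491520) (nat_lit 0) (.e (nat_lit 1788) (nat_lit 119) (.e (nat_lit 516165) (nat_lit 12) (.e (nat_lit 450586) (nat_lit 10) (.e (nat_lit 573452) (nat_lit 9) .nil))))) (.g (nat_lit 0) (.e (nat_lit 362414) (nat_lit 0) .nil) .nil))) 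
(.lf (nat_lit 575214) (.g (nat_lit 3608) (.e (nat_lit 491540) (nat_lit 3) (.e (nat_lit 98373) (nat_lit 29) (.e (nat_lit 450587) (nat_lit 10) (.e (nat_lit 573457) (nat_lit 9) (.e (nat_lit 428) (nat_lit 32) (.e (nat_lit 426347) (nat_lit 14) .nil)))))) (.g (nat_lit 1) (.e (nat_lit 362981) (nat_lit 0) .nil) .nil)))) (.nd (nat_lit 9) 
(.lf (nat_lit 574958) (.g (nat_lit 1488) (.e (nat_lit 491538) (nat_lit 3) (.e (nat_lit 98373) (nat_lit 29) (.e (nat_lit 450586) (nat_lit 10) (.e (nat_lit 573471) (nat_lit 11) .nil)))) (.g (nat_lit 0) (.e (nat_lit 362702) (nat_lit 0) .nil) .nil))) 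
(.lf (nat_lit 575470) (.g (nat_lit 4301) (.e (nat_lit 491560) (nat_lit 10) (.e (nat_lit 344115) (nat_lit 20) (.e (nat_lit 507923) (nat_lit 6) (.e (nat_lit 286747) (nat_lit 9) (.e (nat_lit 336013) (nat_lit 2) (.e (nat_lit 90143) (nat_lit 9) (.e (nat_lit 3102) (nat_lit 192) .nil))))))) (.g (nat_lit 1) (.e (nat_lit 363343) (nat_lit 0) .nil) .nil)))))))) 
(.nd (nat_lit 5) (.nd (nat_lit 6) (.nd (nat_lit 7) (.nd (nat_lit 8) (.nd (nat_lit 9) 
(.lf (nat_lit 574494) (.g (nat_lit 1980) (.e (nat_lit 483406) (nat_lit 26) (.e (nat_lit 385068) (nat_lit 26) (.e (nat_lit 532500) (nat_lit 1) (.e (nat_lit 57851) (nat_lit 252) .nil)))) (.g (nat_lit 0) (.e (nat_lit 361018) (nat_lit 0) .nil) .nil))) 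
(.lf (nat_lit 575006) (.g (nat_lit 2396) (.e (nat_lit 491539) (nat_lit 3) (.e (nat_lit 98373) (nat_lit 29) (.e (nat_lit 450586) (nat_lit 10) (.e (nat_lit 573450) (nat_lit 9) .nil)))) (.g (nat_lit 0) (.e (nat_lit 362754) (nat_lit 0) .nil) .nil)))) (.nd (nat_lit 9) 
(.lf (nat_lit 574750) (.g (nat_lit 1229) (.e (nat_lit 491535) (nat_lit 2) (.e (nat_lit 90174) (nat_lit 14) (.e (nat_lit 180277) (nat_lit 32) (.e (nat_lit 1253) (nat_lit 92) .nil)))) (.g (nat_lit 0) (.e (nat_lit 362486) (nat_lit 0) .nil) .nil))) 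
(.lf (nat_lit 575262) (.g (nat_lit 2074) (.e (nat_lit 491540) (nat_lit 3) (.e (nat_lit 98373) (nat_lit 29) (.e (nat_lit 450588) (nat_lit 10) (.e (nat_lit 581376) (nat_lit 9) .nil)))) (.g (nat_lit 0) (.e (nat_lit 363029) (nat_lit 0) .nil) .nil))))) (.nd (nat_lit 8) (.nd (nat_lit 9) 
(.lf (nat_lit 574622) (.g (nat_lit 3189) (.e (nat_lit 483410) (nat_lit 27) (.e (nat_lit 401459) (nat_lit 13) (.e (nat_lit 483411) (nat_lit 27) (.e (nat_lit 401458) (nat_lit 13) .nil)))) (.g (nat_lit 1) (.e (nat_lit 361552) (nat_lit 0) .nil) .nil))) 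
(.lf (nat_lit 575134) (.g (nat_lit 3273) (.e (nat_lit 491540) (nat_lit 3) (.e (nat_lit 98373) (nat_lit 29) (.e (nat_lit 450563) (nat_lit 0) (.e (nat_lit 3926) (nat_lit 239) .nil)))) (.g (nat_lit 0) (.e (nat_lit 362899) (nat_lit 0) .nil) .nil)))) (.nd (nat_lit 9) 
(.lf (nat_lit 574878) (.g (nat_lit 1920) (.e (nat_lit 491537) (nat_lit 2) (.e (nat_lit 90170) (nat_lit 13) (.e (nat_lit 172113) (nat_lit 10) (.e (nat_lit 434247) (nat_lit 28) (.e (nat_lit 573471) (nat_lit 11) .nil))))) (.g (nat_lit 0) (.e (nat_lit 362616) (nat_lit 0) .nil) .nil))) 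
(.lf (nat_lit 575390) (.g (nat_lit 1725) (.e (nat_lit 491550) (nat_lit 9) (.e (nat_lit 336421) (nat_lit 28) (.e (nat_lit 434187) (nat_lit 13) (.e (nat_lit 2782) (nat_lit 178) (.e (nat_lit 286768) (nat_lit 27) (.e (nat_lit 426340) (nat_lit 14) .nil)))))) (.g (nat_lit 1) (.e (nat_lit 363247) (nat_lit 0) .nil) .nil)))))) (.nd (nat_lit 7) (.nd (nat_lit 8) (.nd (nat_lit 9) 
(.lf (nat_lit 574558) (.g (nat_lit 2137) (.e (nat_lit 483408) (nat_lit 26) (.e (nat_lit 385068) (nat_lit 26) (.e (nat_lit 532504) (nat_lit 1) (.e (nat_lit 57829) (nat_lit 250) .nil)))) (.g (nat_lit 0) (.e (nat_lit 361207) (nat_lit 0) .nil) .nil))) 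
(.lf (nat_lit 575070) (.g (nat_lit 444) (.e (nat_lit 491540) (nat_lit 3) (.e (nat_lit 98359) (nat_lit 26) (.e (nat_lit 426286) (nat_lit 10) .nil))) (.g (nat_lit 0) (.e (nat_lit 362827) (nat_lit 0) .nil) .nil)))) (.nd (nat_lit 9) 
(.lf (nat_lit 574814) (.g (nat_lit 1473) (.e (nat_lit 491537) (nat_lit 2) (.e (nat_lit 90170) (nat_lit 13) (.e (nat_lit 172106) (nat_lit 10) (.e (nat_lit 434231) (nat_lit 23) .nil)))) (.g (nat_lit 0) (.e (nat_lit 362552) (nat_lit 0) .nil) .nil))) 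
(.lf (nat_lit 575326) (.g (nat_lit 2493) (.e (nat_lit 491548) (nat_lit 9) (.e (nat_lit 336019) (nat_lit 3) (.e (nat_lit 98389) (nat_lit 33) (.e (nat_lit 491560) (nat_lit 10) (.e (nat_lit 344111) (nat_lit 19) .nil))))) (.g (nat_lit 0) (.e (nat_lit 363123) (nat_lit 0) .nil) .nil))))) (.nd (nat_lit 8) (.nd (nat_lit 9) 
(.lf (nat_lit 574686) (.g (nat_lit 1156) (.e (nat_lit 491264) (nat_lit 27) (.e (nat_lit 401454) (nat_lit 12) (.e (nat_lit 475191) (nat_lit 36) .nil))) (.g (nat_lit 0) (.e (nat_lit 362398) (nat_lit 0) .nil) .nil))) 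
(.lf (nat_lit 575198) (.g (nat_lit 3178) (.e (nat_lit 491540) (nat_lit 3) (.e (nat_lit 98373) (nat_lit 29) (.e (nat_lit 450587) (nat_lit 10) (.e (nat_lit 573448) (nat_lit 9) .nil)))) (.g (nat_lit 0) (.e (nat_lit 362965) (nat_lit 0) .nil) .nil)))) (.nd (nat_lit 9) 
(.lf (nat_lit 574942) (.g (nat_lit 1240) (.e (nat_lit 491538) (nat_lit 3) (.e (nat_lit 98372) (nat_lit 29) (.e (nat_lit 450587) (nat_lit 10) (.e (nat_lit 573469) (nat_lit 11) .nil)))) (.g (nat_lit 0) (.e (nat_lit 362686) (nat_lit 0) .nil) .nil))) 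
(.lf (nat_lit 575454) (.g (nat_lit 1570) (.e (nat_lit 491558) (nat_lit 10) (.e (nat_lit 344177) (nat_lit 43) (.e (nat_lit 770072) (nat_lit 8) (.e (nat_lit 65592) (nat_lit 9) .nil)))) (.g (nat_lit 0) (.e (nat_lit 363327) (nat_lit 0) .nil) .nil))))))) (.nd (nat_lit 6) (.nd (nat_lit 7) (.nd (nat_lit 8) (.nd (nat_lit 9) 
(.lf (nat_lit 574526) (.g (nat_lit 2960) (.e (nat_lit 483407) (nat_lit 26) (.e (nat_lit 385068) (nat_lit 26) (.e (nat_lit 532499) (nat_lit 1) (.e (nat_lit 57847) (nat_lit 252) (.e (nat_lit 57405) (nat_lit 12) .nil))))) (.g (nat_lit 0) (.e (nat_lit 361097) (nat_lit 0) .nil) .nil))) 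
(.lf (nat_lit 575038) (.g (nat_lit 2041) (.e (nat_lit 491539) (nat_lit 3) (.e (nat_lit 98373) (nat_lit 29) (.e (nat_lit 450588) (nat_lit 10) (.e (nat_lit 573451) (nat_lit 9) .nil)))) (.g (nat_lit 0) (.e (nat_lit 362786) (nat_lit 0) .nil) .nil)))) (.nd (nat_lit 9) 
(.lf (nat_lit 574782) (.g (nat_lit 2625) (.e (nat_lit 491536) (nat_lit 2) (.e (nat_lit 90170) (nat_lit 13) (.e (nat_lit 172113) (nat_lit 10) (.e (nat_lit 434248) (nat_lit 28) (.e (nat_lit 573457) (nat_lit 9) (.e (nat_lit 430) (nat_lit 32) (.e (nat_lit 426343) (nat_lit 14) .nil))))))) (.g (nat_lit 1) (.e (nat_lit 362518) (nat_lit 0) .nil) .nil))) 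
(.lf (nat_lit 575294) (.g (nat_lit 532) (.e (nat_lit 491544) (nat_lit 7) (.e (nat_lit 319504) (nat_lit 10) (.e (nat_lit 7936) (nat_lit 45) .nil))) (.g (nat_lit 0) (.e (nat_lit 363064) (nat_lit 0) .nil) .nil))))) (.nd (nat_lit 8) (.nd (nat_lit 9) 
(.lf (nat_lit 574654) (.g (nat_lit 1101) (.e (nat_lit 483413) (nat_lit 27) (.e (nat_lit 401434) (nat_lit 9) (.e (nat_lit 426109) (nat_lit 1) (.e (nat_lit 164148) (nat_lit 152) .nil)))) (.g (nat_lit 0) (.e (nat_lit 361973) (nat_lit 0) .nil) .nil))) 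
(.lf (nat_lit 575166) (.g (nat_lit 2444) (.e (nat_lit 491540) (nat_lit 3) (.e (nat_lit 98373) (nat_lit 29) (.e (nat_lit 450585) (nat_lit 10) (.e (nat_lit 573450) (nat_lit 9) .nil)))) (.g (nat_lit 0) (.e (nat_lit 362933) (nat_lit 0) .nil) .nil)))) (.nd (nat_lit 9) 
(.lf (nat_lit 574910) (.g (nat_lit 5378) (.e (nat_lit 491537) (nat_lit 2) (.e (nat_lit 90170) (nat_lit 13) (.e (nat_lit 172126) (nat_lit 14) (.e (nat_lit 491537) (nat_lit 2) (.e (nat_lit 90170) (nat_lit 13) (.e (nat_lit 172126) (nat_lit 14) .nil)))))) (.g (nat_lit 1) (.e (nat_lit 362649) (nat_lit 0) .nil) .nil))) 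
(.lf (nat_lit 575422) (.g (nat_lit 2412) (.e (nat_lit 491552) (nat_lit 9) (.e (nat_lit 336389) (nat_lit 27) (.e (nat_lit 426343) (nat_lit 14) (.e (nat_lit 491556) (nat_lit 9) (.e (nat_lit 336390) (nat_lit 27) .nil))))) (.g (nat_lit 0) (.e (nat_lit 363290) (nat_lit 0) .nil) .nil)))))) (.nd (nat_lit 7) (.nd (nat_lit 8) (.nd (nat_lit 9) 
(.lf (nat_lit 574590) (.g (nat_lit 572) (.e (nat_lit 483409) (nat_lit 27) (.e (nat_lit 401459) (nat_lit 13) (.e (nat_lit 491264) (nat_lit 17) .nil))) (.g (nat_lit 0) (.e (nat_lit 361406) (nat_lit 0) .nil) .nil))) 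
(.lf (nat_lit 575102) (.g (nat_lit 2313) (.e (nat_lit 491540) (nat_lit 3) (.e (nat_lit 98372) (nat_lit 29) (.e (nat_lit 450588) (nat_lit 10) (.e (nat_lit 573452) (nat_lit 9) .nil)))) (.g (nat_lit 0) (.e (nat_lit 362867) (nat_lit 0) .nil) .nil)))) (.nd (nat_lit 9) 
(.lf (nat_lit 574846) (.g (nat_lit 2186) (.e (nat_lit 491537) (nat_lit 2) (.e (nat_lit 90170) (nat_lit 13) (.e (nat_lit 172106) (nat_lit 10) (.e (nat_lit 434244) (nat_lit 28) (.e (nat_lit 573451) (nat_lit 9) .nil))))) (.g (nat_lit 0) (.e (nat_lit 362584) (nat_lit 0) .nil) .nil))) 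
(.lf (nat_lit 575358) (.g (nat_lit 3781) (.e (nat_lit 491549) (nat_lit 9) (.e (nat_lit 336430) (nat_lit 29) (.e (nat_lit 442421) (nat_lit 21) (.e (nat_lit 164348) (nat_lit 240) (.e (nat_lit 2628) (nat_lit 164) (.e (nat_lit 172126) (nat_lit 14) .nil)))))) (.g (nat_lit 1) (.e (nat_lit 363198) (nat_lit 0) .nil) .nil))))) (.nd (nat_lit 8) (.nd (nat_lit 9) 
(.lf (nat_lit 574718) (.g (nat_lit 2726) (.e (nat_lit 491525) (nat_lit 0) (.e (nat_lit 1788) (nat_lit 119) (.e (nat_lit 516165) (nat_lit 12) (.e (nat_lit 450588) (nat_lit 10) (.e (nat_lit 573470) (nat_lit 11) .nil))))) (.g (nat_lit 0) (.e (nat_lit 362433) (nat_lit 0) .nil) .nil))) 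
(.lf (nat_lit 575230) (.g (nat_lit 3073) (.e (nat_lit 491540) (nat_lit 3) (.e (nat_lit 98373) (nat_lit 29) (.e (nat_lit 450588) (nat_lit 10) (.e (nat_lit 573449) (nat_lit 9) .nil)))) (.g (nat_lit 0) (.e (nat_lit 362997) (nat_lit 0) .nil) .nil)))) (.nd (nat_lit 9) 
(.lf (nat_lit 574974) (.g (nat_lit 1915) (.e (nat_lit 491539) (nat_lit 3) (.e (nat_lit 98359) (nat_lit 26) (.e (nat_lit 426338) (nat_lit 14) (.e (nat_lit 491536) (nat_lit 2) .nil)))) (.g (nat_lit 0) (.e (nat_lit 362720) (nat_lit 0) .nil) .nil))) 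
(.lf (nat_lit 575486) (.g (nat_lit 1803) (.e (nat_lit 491560) (nat_lit 10) (.e (nat_lit 344169) (nat_lit 40) (.e (nat_lit 671764) (nat_lit 6) (.e (nat_lit 81959) (nat_lit 24) (.e (nat_lit 123228) (nat_lit 282) .nil))))) (.g (nat_lit 0) (.e (nat_lit 363361) (nat_lit 0) .nil) .nil)))))))))))) 
(.nd (nat_lit 1) (.nd (nat_lit 2) (.nd (nat_lit 3) (.nd (nat_lit 4) (.nd (nat_lit 5) 
(.nd (nat_lit 6) (.nd (nat_lit 7) (.nd (nat_lit 8) (.nd (nat_lit 9) 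
(.lf (nat_lit 574465) (.g (nat_lit 2286) (.e (nat_lit 483405) (nat_lit 26) (.e (nat_lit 385068) (nat_lit 26) (.e (nat_lit 532499) (nat_lit 1) (.e (nat_lit 57847) (nat_lit 252) (.e (nat_lit 57410) (nat_lit 12) .nil))))) (.g (nat_lit 0) (.e (nat_lit 360874) (nat_lit 0) .nil) .nil))) 
(.lf (nat_lit 574977) (.g (nat_lit 1091) (.e (nat_lit 491539) (nat_lit 3) (.e (nat_lit 98367) (nat_lit 27) (.e (nat_lit 434178) (nat_lit 0) .nil))) (.g (nat_lit 0) (.e (nat_lit 362723) (nat_lit 0) .nil) .nil)))) (.nd (nat_lit 9) 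
(.lf (nat_lit 574721) (.g (nat_lit 412) (.e (nat_lit 491525) (nat_lit 0) (.e (nat_lit 2270) (nat_lit 149) (.e (nat_lit 761867) (nat_lit 5) .nil))) (.g (nat_lit 0) (.e (nat_lit 362436) (nat_lit 0) .nil) .nil))) 
(.lf (nat_lit 575233) (.g (nat_lit 4149) (.e (nat_lit 491540) (nat_lit 3) (.e (nat_lit 98373) (nat_lit 29) (.e (nat_lit 450588) (nat_lit 10) (.e (nat_lit 573450) (nat_lit 9) (.e (nat_lit 433) (nat_lit 32) (.e (nat_lit 426347) (nat_lit 14) .nil)))))) (.g (nat_lit 1) (.e (nat_lit 363000) (nat_lit 0) .nil) .nil))))) (.nd (nat_lit 8) (.nd (nat_lit 9) 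
(.lf (nat_lit 574593) (.g (nat_lit 2780) (.e (nat_lit 483409) (nat_lit 27) (.e (nat_lit 401459) (nat_lit 13) (.e (nat_lit 483409) (nat_lit 27) (.e (nat_lit 401459) (nat_lit 13) .nil)))) (.g (nat_lit 1) (.e (nat_lit 361411) (nat_lit 0) .nil) .nil))) 
(.lf (nat_lit 575105) (.g (nat_lit 3156) (.e (nat_lit 491540) (nat_lit 3) (.e (nat_lit 98372) (nat_lit 29) (.e (nat_lit 450588) (nat_lit 10) (.e (nat_lit 573452) (nat_lit 9) (.e (nat_lit 7936) (nat_lit 32) .nil))))) (.g (nat_lit 0) (.e (nat_lit 362870) (nat_lit 0) .nil) .nil)))) (.nd (nat_lit 9) 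
(.lf (nat_lit 574849) (.g (nat_lit 1867) (.e (nat_lit 491537) (nat_lit 2) (.e (nat_lit 90170) (nat_lit 13) (.e (nat_lit 172106) (nat_lit 10) (.e (nat_lit 434244) (nat_lit 28) (.e (nat_lit 573454) (nat_lit 9) .nil))))) (.g (nat_lit 0) (.e (nat_lit 362587) (nat_lit 0) .nil) .nil))) 
(.lf (nat_lit 575361) (.g (nat_lit 2816) (.e (nat_lit 491549) (nat_lit 9) (.e (nat_lit 336432) (nat_lit 30) (.e (nat_lit 450564) (nat_lit 0) (.e (nat_lit 5548) (nat_lit 306) (.e (nat_lit 2628) (nat_lit 164) (.e (nat_lit 172126) (nat_lit 14) .nil)))))) (.g (nat_lit 1) (.e (nat_lit 363202) (nat_lit 0) .nil) .nil)))))) (.nd (nat_lit 7) (.nd (nat_lit 8) (.nd (nat_lit 9) 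
(.lf (nat_lit 574529) (.g (nat_lit 2380) (.e (nat_lit 483407) (nat_lit 26) (.e (nat_lit 385068) (nat_lit 26) (.e (nat_lit 532501) (nat_lit 1) (.e (nat_lit 57851) (nat_lit 252) .nil)))) (.g (nat_lit 0) (.e (nat_lit 361100) (nat_lit 0) .nil) .nil))) 
(.lf (nat_lit 575041) (.g (nat_lit 1975) (.e (nat_lit 491539) (nat_lit 3) (.e (nat_lit 98373) (nat_lit 29) (.e (nat_lit 450588) (nat_lit 10) (.e (nat_lit 573452) (nat_lit 9) .nil)))) (.g (nat_lit 0) (.e (nat_lit 362789) (nat_lit 0) .nil) .nil)))) (.nd (nat_lit 9) 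
(.lf (nat_lit 574785) (.g (nat_lit 3710) (.e (nat_lit 491536) (nat_lit 2) (.e (nat_lit 90170) (nat_lit 13) (.e (nat_lit 172113) (nat_lit 10) (.e (nat_lit 434248) (nat_lit 28) (.e (nat_lit 573470) (nat_lit 11) (.e (nat_lit 16472) (nat_lit 14) .nil)))))) (.g (nat_lit 1) (.e (nat_lit 362521) (nat_lit 0) .nil) .nil))) 
(.lf (nat_lit 575297) (.g (nat_lit 2517) (.e (nat_lit 491546) (nat_lit 9) (.e (nat_lit 336013) (nat_lit 2) (.e (nat_lit 90134) (nat_lit 9) (.e (nat_lit 3098) (nat_lit 192) (.e (nat_lit 491546) (nat_lit 9) .nil))))) (.g (nat_lit 0) (.e (nat_lit 363070) (nat_lit 0) .nil) .nil))))) (.nd (nat_lit 8) (.nd (nat_lit 9) 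
(.lf (nat_lit 574657) (.g (nat_lit 2932) (.e (nat_lit 483413) (nat_lit 27) (.e (nat_lit 401444) (nat_lit 9) (.e (nat_lit 426163) (nat_lit 6) (.e (nat_lit 253992) (nat_lit 11) (.e (nat_lit 16463) (nat_lit 13) .nil))))) (.g (nat_lit 1) (.e (nat_lit 362033) (nat_lit 0) .nil) .nil))) 
(.lf (nat_lit 575169) (.g (nat_lit 2418) (.e (nat_lit 491540) (nat_lit 3) (.e (nat_lit 98373) (nat_lit 29) (.e (nat_lit 450585) (nat_lit 10) (.e (nat_lit 573451) (nat_lit 9) .nil)))) (.g (nat_lit 0) (.e (nat_lit 362936) (nat_lit 0) .nil) .nil)))) (.nd (nat_lit 9) 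
(.lf (nat_lit 574913) (.g (nat_lit 738) (.e (nat_lit 491537) (nat_lit 2) (.e (nat_lit 90176) (nat_lit 15) (.e (nat_lit 188441) (nat_lit 20) .nil))) (.g (nat_lit 0) (.e (nat_lit 362652) (nat_lit 0) .nil) .nil))) 
(.lf (nat_lit 575425) (.g (nat_lit 1815) (.e (nat_lit 491554) (nat_lit 9) (.e (nat_lit 336295) (nat_lit 15) (.e (nat_lit 3305) (nat_lit 202) (.e (nat_lit 573485) (nat_lit 13) .nil)))) (.g (nat_lit 0) (.e (nat_lit 363296) (nat_lit 0) .nil) .nil))))))) (.nd (nat_lit 6) (.nd (nat_lit 7) (.nd (nat_lit 8) (.nd (nat_lit 9) 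
(.lf (nat_lit 574497) (.g (nat_lit 1512) (.e (nat_lit 483406) (nat_lit 26) (.e (nat_lit 385068) (nat_lit 26) (.e (nat_lit 532501) (nat_lit 1) (.e (nat_lit 57830) (nat_lit 250) .nil)))) (.g (nat_lit 0) (.e (nat_lit 361021) (nat_lit 0) .nil) .nil))) 
(.lf (nat_lit 575009) (.g (nat_lit 2168) (.e (nat_lit 491539) (nat_lit 3) (.e (nat_lit 98373) (nat_lit 29) (.e (nat_lit 450586) (nat_lit 10) (.e (nat_lit 573452) (nat_lit 9) .nil)))) (.g (nat_lit 0) (.e (nat_lit 362757) (nat_lit 0) .nil) .nil)))) (.nd (nat_lit 9) 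
(.lf (nat_lit 574753) (.g (nat_lit 2394) (.e (nat_lit 491535) (nat_lit 2) (.e (nat_lit 90176) (nat_lit 15) (.e (nat_lit 188440) (nat_lit 20) (.e (nat_lit 3307) (nat_lit 202) (.e (nat_lit 573456) (nat_lit 9) .nil))))) (.g (nat_lit 0) (.e (nat_lit 362489) (nat_lit 0) .nil) .nil))) 
(.lf (nat_lit 575265) (.g (nat_lit 2074) (.e (nat_lit 491540) (nat_lit 3) (.e (nat_lit 98373) (nat_lit 29) (.e (nat_lit 450588) (nat_lit 10) (.e (nat_lit 581376) (nat_lit 11) .nil)))) (.g (nat_lit 0) (.e (nat_lit 363032) (nat_lit 0) .nil) .nil))))) (.nd (nat_lit 8) (.nd (nat_lit 9) 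
(.lf (nat_lit 574625) (.g (nat_lit 530) (.e (nat_lit 483411) (nat_lit 27) (.e (nat_lit 401432) (nat_lit 7) (.e (nat_lit 417536) (nat_lit 3) .nil))) (.g (nat_lit 0) (.e (nat_lit 361556) (nat_lit 0) .nil) .nil))) 
(.lf (nat_lit 575137) (.g (nat_lit 3302) (.e (nat_lit 491540) (nat_lit 3) (.e (nat_lit 98373) (nat_lit 29) (.e (nat_lit 450563) (nat_lit 0) (.e (nat_lit 3963) (nat_lit 239) .nil)))) (.g (nat_lit 0) (.e (nat_lit 362902) (nat_lit 0) .nil) .nil)))) (.nd (nat_lit 9) 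
(.lf (nat_lit 574881) (.g (nat_lit 3557) (.e (nat_lit 491537) (nat_lit 2) (.e (nat_lit 90170) (nat_lit 13) (.e (nat_lit 172113) (nat_lit 10) (.e (nat_lit 434248) (nat_lit 28) (.e (nat_lit 573452) (nat_lit 9) (.e (nat_lit 428) (nat_lit 32) (.e (nat_lit 426347) (nat_lit 14) .nil))))))) (.g (nat_lit 1) (.e (nat_lit 362619) (nat_lit 0) .nil) .nil))) 
(.lf (nat_lit 575393) (.g (nat_lit 1893) (.e (nat_lit 491550) (nat_lit 9) (.e (nat_lit 336421) (nat_lit 28) (.e (nat_lit 434189) (nat_lit 13) (.e (nat_lit 2789) (nat_lit 179) (.e (nat_lit 294969) (nat_lit 27) (.e (nat_lit 426340) (nat_lit 14) .nil)))))) (.g (nat_lit 1) (.e (nat_lit 363250) (nat_lit 0) .nil) .nil)))))) (.nd (nat_lit 7) (.nd (nat_lit 8) (.nd (nat_lit 9) 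
(.lf (nat_lit 574561) (.g (nat_lit 2138) (.e (nat_lit 483408) (nat_lit 26) (.e (nat_lit 385068) (nat_lit 26) (.e (nat_lit 532504) (nat_lit 1) (.e (nat_lit 57852) (nat_lit 252) (.e (nat_lit 57419) (nat_lit 12) .nil))))) (.g (nat_lit 0) (.e (nat_lit 361215) (nat_lit 0) .nil) .nil))) 
(.lf (nat_lit 575073) (.g (nat_lit 2435) (.e (nat_lit 491540) (nat_lit 3) (.e (nat_lit 98365) (nat_lit 26) (.e (nat_lit 426315) (nat_lit 12) (.e (nat_lit 475183) (nat_lit 29) (.e (nat_lit 557096) (nat_lit 13) .nil))))) (.g (nat_lit 0) (.e (nat_lit 362833) (nat_lit 0) .nil) .nil)))) (.nd (nat_lit 9) 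
(.lf (nat_lit 574817) (.g (nat_lit 5266) (.e (nat_lit 491537) (nat_lit 2) (.e (nat_lit 90170) (nat_lit 13) (.e (nat_lit 172106) (nat_lit 10) (.e (nat_lit 434231) (nat_lit 23) (.e (nat_lit 532481) (nat_lit 0) (.e (nat_lit 6619) (nat_lit 357) (.e (nat_lit 3104) (nat_lit 192) .nil))))))) (.g (nat_lit 1) (.e (nat_lit 362555) (nat_lit 0) .nil) .nil))) 
(.lf (nat_lit 575329) (.g (nat_lit 1990) (.e (nat_lit 491548) (nat_lit 9) (.e (nat_lit 336306) (nat_lit 15) (.e (nat_lit 3308) (nat_lit 202) (.e (nat_lit 573491) (nat_lit 15) (.e (nat_lit 81954) (nat_lit 23) (.e (nat_lit 98387) (nat_lit 33) .nil)))))) (.g (nat_lit 1) (.e (nat_lit 363127) (nat_lit 0) .nil) .nil))))) (.nd (nat_lit 8) (.nd (nat_lit 9) 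
(.lf (nat_lit 574689) (.g (nat_lit 889) (.e (nat_lit 491264) (nat_lit 27) (.e (nat_lit 401457) (nat_lit 13) (.e (nat_lit 483409) (nat_lit 27) .nil))) (.g (nat_lit 0) (.e (nat_lit 362401) (nat_lit 0) .nil) .nil))) 
(.lf (nat_lit 575201) (.g (nat_lit 3504) (.e (nat_lit 491540) (nat_lit 3) (.e (nat_lit 98373) (nat_lit 29) (.e (nat_lit 450587) (nat_lit 10) (.e (nat_lit 573449) (nat_lit 9) (.e (nat_lit 391) (nat_lit 32) .nil))))) (.g (nat_lit 0) (.e (nat_lit 362968) (nat_lit 0) .nil) .nil)))) (.nd (nat_lit 9) 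
(.lf (nat_lit 574945) (.g (nat_lit 3336) (.e (nat_lit 491538) (nat_lit 3) (.e (nat_lit 98372) (nat_lit 29) (.e (nat_lit 450588) (nat_lit 10) (.e (nat_lit 573452) (nat_lit 9) (.e (nat_lit 430) (nat_lit 32) (.e (nat_lit 426344) (nat_lit 14) .nil)))))) (.g (nat_lit 1) (.e (nat_lit 362689) (nat_lit 0) .nil) .nil))) 
(.lf (nat_lit 575457) (.g (nat_lit 1171) (.e (nat_lit 491558) (nat_lit 10) (.e (nat_lit 344177) (nat_lit 43) (.e (nat_lit 770074) (nat_lit 10) (.e (nat_lit 81927) (nat_lit 11) .nil)))) (.g (nat_lit 0) (.e (nat_lit 363330) (nat_lit 0) .nil) .nil)))))))) (.nd (nat_lit 5) (.nd (nat_lit 6) (.nd (nat_lit 7) (.nd (nat_lit 8) (.nd (nat_lit 9) 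
(.lf (nat_lit 574481) (.g (nat_lit 1093) (.e (nat_lit 483405) (nat_lit 26) (.e (nat_lit 385109) (nat_lit 51) (.e (nat_lit 794638) (nat_lit 20) .nil))) (.g (nat_lit 0) (.e (nat_lit 360957) (nat_lit 0) .nil) .nil))) 
(.lf (nat_lit 574993) (.g (nat_lit 2305) (.e (nat_lit 491539) (nat_lit 3) (.e (nat_lit 98373) (nat_lit 29) (.e (nat_lit 450569) (nat_lit 0) (.e (nat_lit 3966) (nat_lit 239) (.e (nat_lit 2626) (nat_lit 164) .nil))))) (.g (nat_lit 0) (.e (nat_lit 362741) (nat_lit 0) .nil) .nil)))) (.nd (nat_lit 9) 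
(.lf (nat_lit 574737) (.g (nat_lit 613) (.e (nat_lit 491534) (nat_lit 1) (.e (nat_lit 57688) (nat_lit 156) (.e (nat_lit 163933) (nat_lit 17) .nil))) (.g (nat_lit 0) (.e (nat_lit 362470) (nat_lit 0) .nil) .nil))) 
(.lf (nat_lit 575249) (.g (nat_lit 4162) (.e (nat_lit 491540) (nat_lit 3) (.e (nat_lit 98373) (nat_lit 29) (.e (nat_lit 450588) (nat_lit 10) (.e (nat_lit 573454) (nat_lit 9) (.e (nat_lit 410) (nat_lit 32) .nil))))) (.g (nat_lit 0) (.e (nat_lit 363016) (nat_lit 0) .nil) .nil))))) (.nd (nat_lit 8) (.nd (nat_lit 9) 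
(.lf (nat_lit 574609) (.g (nat_lit 695) (.e (nat_lit 483410) (nat_lit 27) (.e (nat_lit 401446) (nat_lit 10) (.e (nat_lit 442112) (nat_lit 44) .nil))) (.g (nat_lit 0) (.e (nat_lit 361451) (nat_lit 0) .nil) .nil))) 
(.lf (nat_lit 575121) (.g (nat_lit 3356) (.e (nat_lit 491540) (nat_lit 3) (.e (nat_lit 98373) (nat_lit 29) (.e (nat_lit 450562) (nat_lit 0) (.e (nat_lit 3926) (nat_lit 239) .nil)))) (.g (nat_lit 0) (.e (nat_lit 362886) (nat_lit 0) .nil) .nil)))) (.nd (nat_lit 9) 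
(.lf (nat_lit 574865) (.g (nat_lit 1596) (.e (nat_lit 491537) (nat_lit 2) (.e (nat_lit 90170) (nat_lit 13) (.e (nat_lit 172113) (nat_lit 10) (.e (nat_lit 434245) (nat_lit 28) (.e (nat_lit 573450) (nat_lit 9) .nil))))) (.g (nat_lit 0) (.e (nat_lit 362603) (nat_lit 0) .nil) .nil))) 
(.lf (nat_lit 575377) (.g (nat_lit 1933) (.e (nat_lit 491550) (nat_lit 9) (.e (nat_lit 336369) (nat_lit 27) (.e (nat_lit 426173) (nat_lit 7) (.e (nat_lit 409642) (nat_lit 17) .nil)))) (.g (nat_lit 0) (.e (nat_lit 363233) (nat_lit 0) .nil) .nil)))))) (.nd (nat_lit 7) (.nd (nat_lit 8) (.nd (nat_lit 9) 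
(.lf (nat_lit 574545) (.g (nat_lit 1014) (.e (nat_lit 483408) (nat_lit 26) (.e (nat_lit 385065) (nat_lit 26) (.e (nat_lit 532501) (nat_lit 1) (.e (nat_lit 57852) (nat_lit 252) .nil)))) (.g (nat_lit 0) (.e (nat_lit 361162) (nat_lit 0) .nil) .nil))) 
(.lf (nat_lit 575057) (.g (nat_lit 797) (.e (nat_lit 491539) (nat_lit 3) (.e (nat_lit 98373) (nat_lit 29) (.e (nat_lit 458496) (nat_lit 10) .nil))) (.g (nat_lit 0) (.e (nat_lit 362805) (nat_lit 0) .nil) .nil)))) (.nd (nat_lit 9) 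
(.lf (nat_lit 574801) (.g (nat_lit 1943) (.e (nat_lit 491536) (nat_lit 2) (.e (nat_lit 90178) (nat_lit 15) (.e (nat_lit 188440) (nat_lit 20) (.e (nat_lit 3307) (nat_lit 202) (.e (nat_lit 581376) (nat_lit 11) .nil))))) (.g (nat_lit 0) (.e (nat_lit 362537) (nat_lit 0) .nil) .nil))) 
(.lf (nat_lit 575313) (.g (nat_lit 4149) (.e (nat_lit 491547) (nat_lit 9) (.e (nat_lit 336324) (nat_lit 18) (.e (nat_lit 204831) (nat_lit 18) (.e (nat_lit 57854) (nat_lit 252) .nil)))) (.g (nat_lit 0) (.e (nat_lit 363099) (nat_lit 0) .nil) .nil))))) (.nd (nat_lit 8) (.nd (nat_lit 9) 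
(.lf (nat_lit 574673) (.g (nat_lit 472) (.e (nat_lit 483413) (nat_lit 27) (.e (nat_lit 401447) (nat_lit 10) (.e (nat_lit 434290) (nat_lit 44) .nil))) (.g (nat_lit 0) (.e (nat_lit 362187) (nat_lit 0) .nil) .nil))) 
(.lf (nat_lit 575185) (.g (nat_lit 2276) (.e (nat_lit 491540) (nat_lit 3) (.e (nat_lit 98373) (nat_lit 29) (.e (nat_lit 450586) (nat_lit 10) (.e (nat_lit 573452) (nat_lit 9) (.e (nat_lit 395) (nat_lit 32) .nil))))) (.g (nat_lit 0) (.e (nat_lit 362952) (nat_lit 0) .nil) .nil)))) (.nd (nat_lit 9) 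
(.lf (nat_lit 574929) (.g (nat_lit 983) (.e (nat_lit 499456) (nat_lit 2) (.e (nat_lit 90170) (nat_lit 13) (.e (nat_lit 172113) (nat_lit 10) (.e (nat_lit 434242) (nat_lit 28) .nil)))) (.g (nat_lit 0) (.e (nat_lit 362670) (nat_lit 0) .nil) .nil))) 
(.lf (nat_lit 575441) (.g (nat_lit 3490) (.e (nat_lit 491558) (nat_lit 10) (.e (nat_lit 344115) (nat_lit 20) (.e (nat_lit 507923) (nat_lit 6) (.e (nat_lit 286747) (nat_lit 9) (.e (nat_lit 336013) (nat_lit 2) (.e (nat_lit 90144) (nat_lit 9) (.e (nat_lit 3102) (nat_lit 192) .nil))))))) (.g (nat_lit 1) (.e (nat_lit 363314) (nat_lit 0) .nil) .nil))))))) 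
(.nd (nat_lit 6) (.nd (nat_lit 7) (.nd (nat_lit 8) (.nd (nat_lit 9) 
(.lf (nat_lit 574513) (.g (nat_lit 171) (.e (nat_lit 483406) (nat_lit 26) (.e (nat_lit 385096) (nat_lit 49) (.e (nat_lit 786176) (nat_lit 5) .nil))) (.g (nat_lit 0) (.e (nat_lit 361063) (nat_lit 0) .nil) .nil))) 
(.lf (nat_lit 575025) (.g (nat_lit 4941) (.e (nat_lit 491539) (nat_lit 3) (.e (nat_lit 98373) (nat_lit 29) (.e (nat_lit 450587) (nat_lit 10) (.e (nat_lit 573462) (nat_lit 9) .nil)))) (.g (nat_lit 0) (.e (nat_lit 362773) (nat_lit 0) .nil) .nil)))) (.nd (nat_lit 9) 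
(.lf (nat_lit 574769) (.g (nat_lit 1678) (.e (nat_lit 491536) (nat_lit 2) (.e (nat_lit 90170) (nat_lit 13) (.e (nat_lit 172106) (nat_lit 10) (.e (nat_lit 434244) (nat_lit 28) (.e (nat_lit 573450) (nat_lit 9) .nil))))) (.g (nat_lit 0) (.e (nat_lit 362505) (nat_lit 0) .nil) .nil))) 
(.lf (nat_lit 575281) (.g (nat_lit 1628) (.e (nat_lit 499456) (nat_lit 3) (.e (nat_lit 98373) (nat_lit 29) (.e (nat_lit 450586) (nat_lit 10) (.e (nat_lit 573471) (nat_lit 11) .nil)))) (.g (nat_lit 0) (.e (nat_lit 363048) (nat_lit 0) .nil) .nil))))) (.nd (nat_lit 8) (.nd (nat_lit 9) 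
(.lf (nat_lit 574641) (.g (nat_lit 434) (.e (nat_lit 483411) (nat_lit 27) (.e (nat_lit 401448) (nat_lit 10) (.e (nat_lit 442112) (nat_lit 44) .nil))) (.g (nat_lit 0) (.e (nat_lit 361668) (nat_lit 0) .nil) .nil))) 
(.lf (nat_lit 575153) (.g (nat_lit 2057) (.e (nat_lit 491540) (nat_lit 3) (.e (nat_lit 98373) (nat_lit 29) (.e (nat_lit 450568) (nat_lit 0) (.e (nat_lit 3966) (nat_lit 239) .nil)))) (.g (nat_lit 0) (.e (nat_lit 362920) (nat_lit 0) .nil) .nil)))) (.nd (nat_lit 9) 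
(.lf (nat_lit 574897) (.g (nat_lit 2091) (.e (nat_lit 491537) (nat_lit 2) (.e (nat_lit 90170) (nat_lit 13) (.e (nat_lit 172118) (nat_lit 12) (.e (nat_lit 475185) (nat_lit 29) (.e (nat_lit 564992) (nat_lit 13) .nil))))) (.g (nat_lit 0) (.e (nat_lit 362635) (nat_lit 0) .nil) .nil))) 
(.lf (nat_lit 575409) (.g (nat_lit 1723) (.e (nat_lit 491550) (nat_lit 9) (.e (nat_lit 336430) (nat_lit 29) (.e (nat_lit 442430) (nat_lit 24) (.e (nat_lit 229665) (nat_lit 240) (.e (nat_lit 2622) (nat_lit 164) .nil))))) (.g (nat_lit 0) (.e (nat_lit 363271) (nat_lit 0) .nil) .nil)))))) (.nd (nat_lit 7) (.nd (nat_lit 8) (.nd (nat_lit 9) 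
(.lf (nat_lit 574577) (.g (nat_lit 1564) (.e (nat_lit 483409) (nat_lit 27) (.e (nat_lit 401438) (nat_lit 9) (.e (nat_lit 426482) (nat_lit 27) (.e (nat_lit 336228) (nat_lit 14) .nil)))) (.g (nat_lit 0) (.e (nat_lit 361338) (nat_lit 0) .nil) .nil))) 
(.lf (nat_lit 575089) (.g (nat_lit 1242) (.e (nat_lit 491540) (nat_lit 3) (.e (nat_lit 98372) (nat_lit 29) (.e (nat_lit 450586) (nat_lit 10) (.e (nat_lit 573449) (nat_lit 9) .nil)))) (.g (nat_lit 0) (.e (nat_lit 362854) (nat_lit 0) .nil) .nil)))) (.nd (nat_lit 9) 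
(.lf (nat_lit 574833) (.g (nat_lit 4684) (.e (nat_lit 491537) (nat_lit 2) (.e (nat_lit 90170) (nat_lit 13) (.e (nat_lit 172106) (nat_lit 10) (.e (nat_lit 434231) (nat_lit 23) (.e (nat_lit 532569) (nat_lit 16) (.e (nat_lit 409344) (nat_lit 14) .nil)))))) (.g (nat_lit 1) (.e (nat_lit 362571) (nat_lit 0) .nil) .nil))) 
(.lf (nat_lit 575345) (.g (nat_lit 4440) (.e (nat_lit 491549) (nat_lit 9) (.e (nat_lit 336306) (nat_lit 15) (.e (nat_lit 3308) (nat_lit 202) (.e (nat_lit 573493) (nat_lit 15) (.e (nat_lit 81951) (nat_lit 22) (.e (nat_lit 90134) (nat_lit 9) (.e (nat_lit 3098) (nat_lit 192) .nil))))))) (.g (nat_lit 1) (.e (nat_lit 363177) (nat_lit 0) .nil) .nil))))) (.nd (nat_lit 8) (.nd (nat_lit 9) 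
(.lf (nat_lit 574705) (.g (nat_lit 2627) (.e (nat_lit 491520) (nat_lit 0) (.e (nat_lit 1788) (nat_lit 119) (.e (nat_lit 516165) (nat_lit 12) (.e (nat_lit 450588) (nat_lit 10) (.e (nat_lit 573471) (nat_lit 11) .nil))))) (.g (nat_lit 0) (.e (nat_lit 362417) (nat_lit 0) .nil) .nil))) 
(.lf (nat_lit 575217) (.g (nat_lit 4191) (.e (nat_lit 491540) (nat_lit 3) (.e (nat_lit 98373) (nat_lit 29) (.e (nat_lit 450587) (nat_lit 10) (.e (nat_lit 573458) (nat_lit 9) (.e (nat_lit 394) (nat_lit 32) .nil))))) (.g (nat_lit 0) (.e (nat_lit 362984) (nat_lit 0) .nil) .nil)))) (.nd (nat_lit 9) 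
(.lf (nat_lit 574961) (.g (nat_lit 1325) (.e (nat_lit 491538) (nat_lit 3) (.e (nat_lit 98373) (nat_lit 29) (.e (nat_lit 450587) (nat_lit 10) (.e (nat_lit 573457) (nat_lit 9) .nil)))) (.g (nat_lit 0) (.e (nat_lit 362705) (nat_lit 0) .nil) .nil))) 
(.lf (nat_lit 575473) (.g (nat_lit 4538) (.e (nat_lit 491560) (nat_lit 10) (.e (nat_lit 344117) (nat_lit 21) (.e (nat_lit 516106) (nat_lit 0) (.e (nat_lit 6986) (nat_lit 377) (.e (nat_lit 2777) (nat_lit 178) (.e (nat_lit 286734) (nat_lit 3) (.e (nat_lit 98389) (nat_lit 33) .nil))))))) (.g (nat_lit 1) (.e (nat_lit 363347) (nat_lit 0) .nil) .nil))))))))) 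
(.nd (nat_lit 4) (.nd (nat_lit 5) (.nd (nat_lit 6) (.nd (nat_lit 7) (.nd (nat_lit 8) 
(.nd (nat_lit 9) 
(.lf (nat_lit 574473) (.g (nat_lit 2461) (.e (nat_lit 483405) (nat_lit 26) (.e (nat_lit 385068) (nat_lit 26) (.e (nat_lit 532503) (nat_lit 1) (.e (nat_lit 57846) (nat_lit 252) (.e (nat_lit 57407) (nat_lit 12) .nil))))) (.g (nat_lit 0) (.e (nat_lit 360890) (nat_lit 0) .nil) .nil))) 
(.lf (nat_lit 574985) (.g (nat_lit 3247) (.e (nat_lit 491539) (nat_lit 3) (.e (nat_lit 98372) (nat_lit 29) (.e (nat_lit 450588) (nat_lit 10) (.e (nat_lit 573471) (nat_lit 11) (.e (nat_lit 16472) (nat_lit 14) .nil))))) (.g (nat_lit 0) (.e (nat_lit 362733) (nat_lit 0) .nil) .nil)))) (.nd (nat_lit 9) 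
(.lf (nat_lit 574729) (.g (nat_lit 2466) (.e (nat_lit 491526) (nat_lit 0) (.e (nat_lit 1788) (nat_lit 119) (.e (nat_lit 516165) (nat_lit 12) (.e (nat_lit 450588) (nat_lit 10) (.e (nat_lit 573470) (nat_lit 11) .nil))))) (.g (nat_lit 0) (.e (nat_lit 362444) (nat_lit 0) .nil) .nil))) 
(.lf (nat_lit 575241) (.g (nat_lit 2601) (.e (nat_lit 491540) (nat_lit 3) (.e (nat_lit 98373) (nat_lit 29) (.e (nat_lit 450588) (nat_lit 10) (.e (nat_lit 573452) (nat_lit 9) (.e (nat_lit 396) (nat_lit 32) .nil))))) (.g (nat_lit 0) (.e (nat_lit 363008) (nat_lit 0) .nil) .nil))))) (.nd (nat_lit 8) (.nd (nat_lit 9) 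
(.lf (nat_lit 574601) (.g (nat_lit 544) (.e (nat_lit 483410) (nat_lit 27) (.e (nat_lit 401438) (nat_lit 9) (.e (nat_lit 426157) (nat_lit 6) .nil))) (.g (nat_lit 0) (.e (nat_lit 361434) (nat_lit 0) .nil) .nil))) 
(.lf (nat_lit 575113) (.g (nat_lit 3557) (.e (nat_lit 491540) (nat_lit 3) (.e (nat_lit 98372) (nat_lit 29) (.e (nat_lit 450588) (nat_lit 10) (.e (nat_lit 573471) (nat_lit 11) (.e (nat_lit 24320) (nat_lit 14) .nil))))) (.g (nat_lit 0) (.e (nat_lit 362878) (nat_lit 0) .nil) .nil)))) (.nd (nat_lit 9) 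
(.lf (nat_lit 574857) (.g (nat_lit 897) (.e (nat_lit 491537) (nat_lit 2) (.e (nat_lit 90170) (nat_lit 13) (.e (nat_lit 172113) (nat_lit 10) (.e (nat_lit 434242) (nat_lit 28) .nil)))) (.g (nat_lit 0) (.e (nat_lit 362595) (nat_lit 0) .nil) .nil))) 
(.lf (nat_lit 575369) (.g (nat_lit 3602) (.e (nat_lit 491550) (nat_lit 9) (.e (nat_lit 336306) (nat_lit 15) (.e (nat_lit 3298) (nat_lit 202) (.e (nat_lit 573493) (nat_lit 15) (.e (nat_lit 81953) (nat_lit 22) (.e (nat_lit 90133) (nat_lit 9) (.e (nat_lit 3105) (nat_lit 192) .nil))))))) (.g (nat_lit 1) (.e (nat_lit 363220) (nat_lit 0) .nil) .nil)))))) 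
(.nd (nat_lit 7) (.nd (nat_lit 8) (.nd (nat_lit 9) 
(.lf (nat_lit 574537) (.g (nat_lit 2098) (.e (nat_lit 483407) (nat_lit 26) (.e (nat_lit 385094) (nat_lit 49) (.e (nat_lit 778323) (nat_lit 5) (.e (nat_lit 73782) (nat_lit 32) (.e (nat_lit 3087) (nat_lit 191) .nil))))) (.g (nat_lit 1) (.e (nat_lit 361126) (nat_lit 0) .nil) .nil))) 
(.lf (nat_lit 575049) (.g (nat_lit 4800) (.e (nat_lit 491539) (nat_lit 3) (.e (nat_lit 98373) (nat_lit 29) (.e (nat_lit 450588) (nat_lit 10) (.e (nat_lit 573458) (nat_lit 9) (.e (nat_lit 426) (nat_lit 32) .nil))))) (.g (nat_lit 0) (.e (nat_lit 362797) (nat_lit 0) .nil) .nil)))) (.nd (nat_lit 9) 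
(.lf (nat_lit 574793) (.g (nat_lit 1441) (.e (nat_lit 491536) (nat_lit 2) (.e (nat_lit 90176) (nat_lit 15) (.e (nat_lit 188450) (nat_lit 23) (.e (nat_lit 204884) (nat_lit 33) (.e (nat_lit 401460) (nat_lit 14) .nil))))) (.g (nat_lit 0) (.e (nat_lit 362529) (nat_lit 0) .nil) .nil))) 
(.lf (nat_lit 575305) (.g (nat_lit 2193) (.e (nat_lit 491546) (nat_lit 9) (.e (nat_lit 336028) (nat_lit 3) (.e (nat_lit 98389) (nat_lit 33) (.e (nat_lit 491560) (nat_lit 10) (.e (nat_lit 344109) (nat_lit 19) .nil))))) (.g (nat_lit 0) (.e (nat_lit 363081) (nat_lit 0) .nil) .nil))))) (.nd (nat_lit 8) (.nd (nat_lit 9) 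
(.lf (nat_lit 574665) (.g (nat_lit 490) (.e (nat_lit 483413) (nat_lit 27) (.e (nat_lit 401447) (nat_lit 10) (.e (nat_lit 434199) (nat_lit 18) .nil))) (.g (nat_lit 0) (.e (nat_lit 362131) (nat_lit 0) .nil) .nil))) 
(.lf (nat_lit 575177) (.g (nat_lit 2868) (.e (nat_lit 491540) (nat_lit 3) (.e (nat_lit 98373) (nat_lit 29) (.e (nat_lit 450585) (nat_lit 10) (.e (nat_lit 573471) (nat_lit 11) (.e (nat_lit 16472) (nat_lit 14) .nil))))) (.g (nat_lit 0) (.e (nat_lit 362944) (nat_lit 0) .nil) .nil)))) (.nd (nat_lit 9) 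
(.lf (nat_lit 574921) (.g (nat_lit 1782) (.e (nat_lit 491537) (nat_lit 2) (.e (nat_lit 90178) (nat_lit 15) (.e (nat_lit 188440) (nat_lit 20) (.e (nat_lit 3272) (nat_lit 199) (.e (nat_lit 556800) (nat_lit 14) .nil))))) (.g (nat_lit 0) (.e (nat_lit 362660) (nat_lit 0) .nil) .nil))) 
(.lf (nat_lit 575433) (.g (nat_lit 2009) (.e (nat_lit 491558) (nat_lit 10) (.e (nat_lit 344096) (nat_lit 18) (.e (nat_lit 7265) (nat_lit 384) (.e (nat_lit 57406) (nat_lit 12) (.e (nat_lit 336146) (nat_lit 9) .nil))))) (.g (nat_lit 0) (.e (nat_lit 363306) (nat_lit 0) .nil) .nil))))))) (.nd (nat_lit 6) (.nd (nat_lit 7) (.nd (nat_lit 8) (.nd (nat_lit 9) 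
(.lf (nat_lit 574505) (.g (nat_lit 2531) (.e (nat_lit 483406) (nat_lit 26) (.e (nat_lit 385068) (nat_lit 26) (.e (nat_lit 532504) (nat_lit 1) (.e (nat_lit 57852) (nat_lit 252) (.e (nat_lit 57412) (nat_lit 12) .nil))))) (.g (nat_lit 0) (.e (nat_lit 361040) (nat_lit 0) .nil) .nil))) 
(.lf (nat_lit 575017) (.g (nat_lit 1696) (.e (nat_lit 491539) (nat_lit 3) (.e (nat_lit 98373) (nat_lit 29) (.e (nat_lit 450587) (nat_lit 10) (.e (nat_lit 573452) (nat_lit 9) .nil)))) (.g (nat_lit 0) (.e (nat_lit 362765) (nat_lit 0) .nil) .nil)))) (.nd (nat_lit 9) 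
(.lf (nat_lit 574761) (.g (nat_lit 1805) (.e (nat_lit 491535) (nat_lit 2) (.e (nat_lit 90178) (nat_lit 15) (.e (nat_lit 188441) (nat_lit 20) (.e (nat_lit 3304) (nat_lit 202) (.e (nat_lit 581376) (nat_lit 11) .nil))))) (.g (nat_lit 0) (.e (nat_lit 362497) (nat_lit 0) .nil) .nil))) 
(.lf (nat_lit 575273) (.g (nat_lit 1794) (.e (nat_lit 499456) (nat_lit 3) (.e (nat_lit 98359) (nat_lit 26) (.e (nat_lit 426286) (nat_lit 10) (.e (nat_lit 434248) (nat_lit 28) (.e (nat_lit 573470) (nat_lit 11) .nil))))) (.g (nat_lit 0) (.e (nat_lit 363040) (nat_lit 0) .nil) .nil))))) (.nd (nat_lit 8) (.nd (nat_lit 9) 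
(.lf (nat_lit 574633) (.g (nat_lit 4029) (.e (nat_lit 483411) (nat_lit 27) (.e (nat_lit 401444) (nat_lit 9) (.e (nat_lit 426503) (nat_lit 27) (.e (nat_lit 336231) (nat_lit 14) (.e (nat_lit 401458) (nat_lit 13) .nil))))) (.g (nat_lit 1) (.e (nat_lit 361575) (nat_lit 0) .nil) .nil))) 
(.lf (nat_lit 575145) (.g (nat_lit 2451) (.e (nat_lit 491540) (nat_lit 3) (.e (nat_lit 98373) (nat_lit 29) (.e (nat_lit 450565) (nat_lit 0) (.e (nat_lit 3966) (nat_lit 239) .nil)))) (.g (nat_lit 0) (.e (nat_lit 362911) (nat_lit 0) .nil) .nil)))) (.nd (nat_lit 9) 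
(.lf (nat_lit 574889) (.g (nat_lit 6063) (.e (nat_lit 491537) (nat_lit 2) (.e (nat_lit 90170) (nat_lit 13) (.e (nat_lit 172113) (nat_lit 10) (.e (nat_lit 434248) (nat_lit 28) (.e (nat_lit 573471) (nat_lit 11) (.e (nat_lit 16470) (nat_lit 14) .nil)))))) (.g (nat_lit 1) (.e (nat_lit 362627) (nat_lit 0) .nil) .nil))) 
(.lf (nat_lit 575401) (.g (nat_lit 526) (.e (nat_lit 491550) (nat_lit 9) (.e (nat_lit 336430) (nat_lit 29) (.e (nat_lit 442403) (nat_lit 20) .nil))) (.g (nat_lit 0) (.e (nat_lit 363259) (nat_lit 0) .nil) .nil)))))) (.nd (nat_lit 7) (.nd (nat_lit 8) (.nd (nat_lit 9) 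
(.lf (nat_lit 574569) (.g (nat_lit 653) (.e (nat_lit 483408) (nat_lit 26) (.e (nat_lit 385093) (nat_lit 49) (.e (nat_lit 778486) (nat_lit 12) .nil))) (.g (nat_lit 0) (.e (nat_lit 361284) (nat_lit 0) .nil) .nil))) 
(.lf (nat_lit 575081) (.g (nat_lit 1331) (.e (nat_lit 491540) (nat_lit 3) (.e (nat_lit 98370) (nat_lit 28) (.e (nat_lit 442428) (nat_lit 24) (.e (nat_lit 229535) (nat_lit 134) .nil)))) (.g (nat_lit 0) (.e (nat_lit 362846) (nat_lit 0) .nil) .nil)))) (.nd (nat_lit 9) 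
(.lf (nat_lit 574825) (.g (nat_lit 3087) (.e (nat_lit 491537) (nat_lit 2) (.e (nat_lit 90170) (nat_lit 13) (.e (nat_lit 172106) (nat_lit 10) (.e (nat_lit 434231) (nat_lit 23) (.e (nat_lit 532482) (nat_lit 0) (.e (nat_lit 7936) (nat_lit 357) (.e (nat_lit 3098) (nat_lit 192) .nil))))))) (.g (nat_lit 1) (.e (nat_lit 362563) (nat_lit 0) .nil) .nil))) 
(.lf (nat_lit 575337) (.g (nat_lit 2733) (.e (nat_lit 491548) (nat_lit 9) (.e (nat_lit 336430) (nat_lit 29) (.e (nat_lit 442399) (nat_lit 20) (.e (nat_lit 3402) (nat_lit 211) (.e (nat_lit 647183) (nat_lit 4) (.e (nat_lit 172126) (nat_lit 14) .nil)))))) (.g (nat_lit 1) (.e (nat_lit 363143) (nat_lit 0) .nil) .nil))))) (.nd (nat_lit 8) (.nd (nat_lit 9) 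
(.lf (nat_lit 574697) (.g (nat_lit 4086) (.e (nat_lit 491520) (nat_lit 0) (.e (nat_lit 1788) (nat_lit 119) (.e (nat_lit 516151) (nat_lit 9) (.e (nat_lit 426285) (nat_lit 10) (.e (nat_lit 434248) (nat_lit 28) .nil))))) (.g (nat_lit 0) (.e (nat_lit 362409) (nat_lit 0) .nil) .nil))) 
(.lf (nat_lit 575209) (.g (nat_lit 5175) (.e (nat_lit 491540) (nat_lit 3) (.e (nat_lit 98373) (nat_lit 29) (.e (nat_lit 450587) (nat_lit 10) (.e (nat_lit 573453) (nat_lit 9) .nil)))) (.g (nat_lit 0) (.e (nat_lit 362976) (nat_lit 0) .nil) .nil)))) (.nd (nat_lit 9) 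
(.lf (nat_lit 574953) (.g (nat_lit 1297) (.e (nat_lit 491538) (nat_lit 3) (.e (nat_lit 98373) (nat_lit 29) (.e (nat_lit 450586) (nat_lit 10) (.e (nat_lit 573452) (nat_lit 9) .nil)))) (.g (nat_lit 0) (.e (nat_lit 362697) (nat_lit 0) .nil) .nil))) 
(.lf (nat_lit 575465) (.g (nat_lit 1814) (.e (nat_lit 491559) (nat_lit 10) (.e (nat_lit 344126) (nat_lit 25) (.e (nat_lit 548891) (nat_lit 11) (.e (nat_lit 81961) (nat_lit 25) .nil)))) (.g (nat_lit 0) (.e (nat_lit 363338) (nat_lit 0) .nil) .nil)))))))) (.nd (nat_lit 5) (.nd (nat_lit 6) (.nd (nat_lit 7) (.nd (nat_lit 8) (.nd (nat_lit 9) 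
(.lf (nat_lit 574489) (.g (nat_lit 414) (.e (nat_lit 483406) (nat_lit 26) (.e (nat_lit 385066) (nat_lit 26) (.e (nat_lit 532498) (nat_lit 1) .nil))) (.g (nat_lit 0) (.e (nat_lit 360999) (nat_lit 0) .nil) .nil))) 
(.lf (nat_lit 575001) (.g (nat_lit 2670) (.e (nat_lit 491539) (nat_lit 3) (.e (nat_lit 98373) (nat_lit 29) (.e (nat_lit 450585) (nat_lit 10) (.e (nat_lit 573469) (nat_lit 11) .nil)))) (.g (nat_lit 0) (.e (nat_lit 362749) (nat_lit 0) .nil) .nil)))) (.nd (nat_lit 9) 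
(.lf (nat_lit 574745) (.g (nat_lit 2071) (.e (nat_lit 491535) (nat_lit 2) (.e (nat_lit 90170) (nat_lit 13) (.e (nat_lit 172113) (nat_lit 10) (.e (nat_lit 434248) (nat_lit 28) (.e (nat_lit 573452) (nat_lit 9) .nil))))) (.g (nat_lit 0) (.e (nat_lit 362481) (nat_lit 0) .nil) .nil))) 
(.lf (nat_lit 575257) (.g (nat_lit 5709) (.e (nat_lit 491540) (nat_lit 3) (.e (nat_lit 98373) (nat_lit 29) (.e (nat_lit 450588) (nat_lit 10) (.e (nat_lit 573459) (nat_lit 9) .nil)))) (.g (nat_lit 0) (.e (nat_lit 363024) (nat_lit 0) .nil) .nil))))) (.nd (nat_lit 8) (.nd (nat_lit 9) 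
(.lf (nat_lit 574617) (.g (nat_lit 3229) (.e (nat_lit 483410) (nat_lit 27) (.e (nat_lit 401458) (nat_lit 13) (.e (nat_lit 483410) (nat_lit 27) (.e (nat_lit 401459) (nat_lit 13) .nil)))) (.g (nat_lit 1) (.e (nat_lit 361523) (nat_lit 0) .nil) .nil))) 
(.lf (nat_lit 575129) (.g (nat_lit 3356) (.e (nat_lit 491540) (nat_lit 3) (.e (nat_lit 98373) (nat_lit 29) (.e (nat_lit 450562) (nat_lit 0) (.e (nat_lit 3968) (nat_lit 239) .nil)))) (.g (nat_lit 0) (.e (nat_lit 362894) (nat_lit 0) .nil) .nil)))) (.nd (nat_lit 9) 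
(.lf (nat_lit 574873) (.g (nat_lit 977) (.e (nat_lit 491537) (nat_lit 2) (.e (nat_lit 90170) (nat_lit 13) (.e (nat_lit 172113) (nat_lit 10) (.e (nat_lit 434247) (nat_lit 28) .nil)))) (.g (nat_lit 0) (.e (nat_lit 362611) (nat_lit 0) .nil) .nil))) 
(.lf (nat_lit 575385) (.g (nat_lit 2089) (.e (nat_lit 491550) (nat_lit 9) (.e (nat_lit 336395) (nat_lit 27) (.e (nat_lit 426340) (nat_lit 14) (.e (nat_lit 491571) (nat_lit 13) (.e (nat_lit 401152) (nat_lit 27) .nil))))) (.g (nat_lit 1) (.e (nat_lit 363242) (nat_lit 0) .nil) .nil)))))) (.nd (nat_lit 7) (.nd (nat_lit 8) (.nd (nat_lit 9) 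
(.lf (nat_lit 574553) (.g (nat_lit 1535) (.e (nat_lit 483408) (nat_lit 26) (.e (nat_lit 385068) (nat_lit 26) (.e (nat_lit 532501) (nat_lit 1) (.e (nat_lit 57852) (nat_lit 252) (.e (nat_lit 65280) (nat_lit 12) .nil))))) (.g (nat_lit 0) (.e (nat_lit 361202) (nat_lit 0) .nil) .nil))) 
(.lf (nat_lit 575065) (.g (nat_lit 1158) (.e (nat_lit 491540) (nat_lit 3) (.e (nat_lit 98358) (nat_lit 26) (.e (nat_lit 426165) (nat_lit 7) .nil))) (.g (nat_lit 0) (.e (nat_lit 362821) (nat_lit 0) .nil) .nil)))) (.nd (nat_lit 9) 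
(.lf (nat_lit 574809) (.g (nat_lit 2805) (.e (nat_lit 491537) (nat_lit 2) (.e (nat_lit 90170) (nat_lit 13) (.e (nat_lit 172082) (nat_lit 7) (.e (nat_lit 409631) (nat_lit 12) (.e (nat_lit 32806) (nat_lit 18) (.e (nat_lit 172126) (nat_lit 14) .nil)))))) (.g (nat_lit 1) (.e (nat_lit 362547) (nat_lit 0) .nil) .nil))) 
(.lf (nat_lit 575321) (.g (nat_lit 1495) (.e (nat_lit 491547) (nat_lit 9) (.e (nat_lit 336443) (nat_lit 32) (.e (nat_lit 466971) (nat_lit 21) (.e (nat_lit 164346) (nat_lit 240) .nil)))) (.g (nat_lit 0) (.e (nat_lit 363115) (nat_lit 0) .nil) .nil))))) (.nd (nat_lit 8) (.nd (nat_lit 9) 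
(.lf (nat_lit 574681) (.g (nat_lit 1668) (.e (nat_lit 491264) (nat_lit 27) (.e (nat_lit 401437) (nat_lit 9) (.e (nat_lit 426533) (nat_lit 28) (.e (nat_lit 344068) (nat_lit 0) (.e (nat_lit 3090) (nat_lit 191) .nil))))) (.g (nat_lit 0) (.e (nat_lit 362392) (nat_lit 0) .nil) .nil))) 
(.lf (nat_lit 575193) (.g (nat_lit 2392) (.e (nat_lit 491540) (nat_lit 3) (.e (nat_lit 98373) (nat_lit 29) (.e (nat_lit 450586) (nat_lit 10) (.e (nat_lit 573469) (nat_lit 11) .nil)))) (.g (nat_lit 0) (.e (nat_lit 362960) (nat_lit 0) .nil) .nil)))) (.nd (nat_lit 9) 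
(.lf (nat_lit 574937) (.g (nat_lit 1154) (.e (nat_lit 491538) (nat_lit 3) (.e (nat_lit 98359) (nat_lit 26) (.e (nat_lit 426286) (nat_lit 10) (.e (nat_lit 434247) (nat_lit 28) .nil)))) (.g (nat_lit 0) (.e (nat_lit 362680) (nat_lit 0) .nil) .nil))) 
(.lf (nat_lit 575449) (.g (nat_lit 2482) (.e (nat_lit 491558) (nat_lit 10) (.e (nat_lit 344133) (nat_lit 26) (.e (nat_lit 557119) (nat_lit 18) (.e (nat_lit 2798) (nat_lit 180) (.e (nat_lit 303133) (nat_lit 9) (.e (nat_lit 426499) (nat_lit 27) (.e (nat_lit 343808) (nat_lit 35) .nil))))))) (.g (nat_lit 1) (.e (nat_lit 363322) (nat_lit 0) .nil) .nil))))))) 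
(.nd (nat_lit 6) (.nd (nat_lit 7) (.nd (nat_lit 8) (.nd (nat_lit 9) 
(.lf (nat_lit 574521) (.g (nat_lit 464) (.e (nat_lit 483407) (nat_lit 26) (.e (nat_lit 385066) (nat_lit 26) (.e (nat_lit 532501) (nat_lit 1) .nil))) (.g (nat_lit 0) (.e (nat_lit 361085) (nat_lit 0) .nil) .nil))) 
(.lf (nat_lit 575033) (.g (nat_lit 5164) (.e (nat_lit 491539) (nat_lit 3) (.e (nat_lit 98373) (nat_lit 29) (.e (nat_lit 450588) (nat_lit 10) (.e (nat_lit 573449) (nat_lit 9) (.e (nat_lit 396) (nat_lit 32) .nil))))) (.g (nat_lit 0) (.e (nat_lit 362781) (nat_lit 0) .nil) .nil)))) (.nd (nat_lit 9) 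
(.lf (nat_lit 574777) (.g (nat_lit 3870) (.e (nat_lit 491536) (nat_lit 2) (.e (nat_lit 90170) (nat_lit 13) (.e (nat_lit 172113) (nat_lit 10) (.e (nat_lit 434245) (nat_lit 28) (.e (nat_lit 573469) (nat_lit 11) (.e (nat_lit 16473) (nat_lit 14) .nil)))))) (.g (nat_lit 1) (.e (nat_lit 362513) (nat_lit 0) .nil) .nil))) 
(.lf (nat_lit 575289) (.g (nat_lit 3020) (.e (nat_lit 499456) (nat_lit 3) (.e (nat_lit 98373) (nat_lit 29) (.e (nat_lit 450588) (nat_lit 10) (.e (nat_lit 573469) (nat_lit 11) .nil)))) (.g (nat_lit 0) (.e (nat_lit 363056) (nat_lit 0) .nil) .nil))))) (.nd (nat_lit 8) (.nd (nat_lit 9) 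
(.lf (nat_lit 574649) (.g (nat_lit 3333) (.e (nat_lit 483412) (nat_lit 27) (.e (nat_lit 401448) (nat_lit 10) (.e (nat_lit 434291) (nat_lit 44) (.e (nat_lit 704738) (nat_lit 11) (.e (nat_lit 16466) (nat_lit 13) .nil))))) (.g (nat_lit 1) (.e (nat_lit 361903) (nat_lit 0) .nil) .nil))) 
(.lf (nat_lit 575161) (.g (nat_lit 2668) (.e (nat_lit 491540) (nat_lit 3) (.e (nat_lit 98373) (nat_lit 29) (.e (nat_lit 450583) (nat_lit 7) (.e (nat_lit 548901) (nat_lit 14) .nil)))) (.g (nat_lit 0) (.e (nat_lit 362928) (nat_lit 0) .nil) .nil)))) (.nd (nat_lit 9) 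
(.lf (nat_lit 574905) (.g (nat_lit 2240) (.e (nat_lit 491537) (nat_lit 2) (.e (nat_lit 90170) (nat_lit 13) (.e (nat_lit 172124) (nat_lit 14) (.e (nat_lit 491537) (nat_lit 2) (.e (nat_lit 90134) (nat_lit 9) .nil))))) (.g (nat_lit 0) (.e (nat_lit 362644) (nat_lit 0) .nil) .nil))) 
(.lf (nat_lit 575417) (.g (nat_lit 1793) (.e (nat_lit 491550) (nat_lit 9) (.e (nat_lit 336443) (nat_lit 32) (.e (nat_lit 466971) (nat_lit 21) (.e (nat_lit 164346) (nat_lit 240) (.e (nat_lit 2628) (nat_lit 164) .nil))))) (.g (nat_lit 0) (.e (nat_lit 363283) (nat_lit 0) .nil) .nil)))))) (.nd (nat_lit 7) (.nd (nat_lit 8) (.nd (nat_lit 9) 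
(.lf (nat_lit 574585) (.g (nat_lit 1679) (.e (nat_lit 483409) (nat_lit 27) (.e (nat_lit 401459) (nat_lit 13) (.e (nat_lit 483350) (nat_lit 17) (.e (nat_lit 6666) (nat_lit 357) .nil)))) (.g (nat_lit 0) (.e (nat_lit 361396) (nat_lit 0) .nil) .nil))) 
(.lf (nat_lit 575097) (.g (nat_lit 542) (.e (nat_lit 491540) (nat_lit 3) (.e (nat_lit 98372) (nat_lit 29) (.e (nat_lit 450588) (nat_lit 10) .nil))) (.g (nat_lit 0) (.e (nat_lit 362862) (nat_lit 0) .nil) .nil)))) (.nd (nat_lit 9) 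
(.lf (nat_lit 574841) (.g (nat_lit 2239) (.e (nat_lit 491537) (nat_lit 2) (.e (nat_lit 90170) (nat_lit 13) (.e (nat_lit 172106) (nat_lit 10) (.e (nat_lit 434238) (nat_lit 25) (.e (nat_lit 548912) (nat_lit 18) .nil))))) (.g (nat_lit 0) (.e (nat_lit 362579) (nat_lit 0) .nil) .nil))) 
(.lf (nat_lit 575353) (.g (nat_lit 183) (.e (nat_lit 491549) (nat_lit 9) (.e (nat_lit 336421) (nat_lit 28) (.e (nat_lit 434198) (nat_lit 17) .nil))) (.g (nat_lit 0) (.e (nat_lit 363193) (nat_lit 0) .nil) .nil))))) (.nd (nat_lit 8) (.nd (nat_lit 9) 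
(.lf (nat_lit 574713) (.g (nat_lit 1602) (.e (nat_lit 491521) (nat_lit 0) (.e (nat_lit 1794) (nat_lit 119) (.e (nat_lit 516166) (nat_lit 12) (.e (nat_lit 450587) (nat_lit 10) .nil)))) (.g (nat_lit 0) (.e (nat_lit 362426) (nat_lit 0) .nil) .nil))) 
(.lf (nat_lit 575225) (.g (nat_lit 2431) (.e (nat_lit 491540) (nat_lit 3) (.e (nat_lit 98373) (nat_lit 29) (.e (nat_lit 450587) (nat_lit 10) (.e (nat_lit 573465) (nat_lit 9) .nil)))) (.g (nat_lit 0) (.e (nat_lit 362992) (nat_lit 0) .nil) .nil)))) (.nd (nat_lit 9) 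
(.lf (nat_lit 574969) (.g (nat_lit 1151) (.e (nat_lit 491539) (nat_lit 3) (.e (nat_lit 98333) (nat_lit 18) (.e (nat_lit 164227) (nat_lit 181) .nil))) (.g (nat_lit 0) (.e (nat_lit 362713) (nat_lit 0) .nil) .nil))) 
(.lf (nat_lit 575481) (.g (nat_lit 1624) (.e (nat_lit 491560) (nat_lit 10) (.e (nat_lit 344126) (nat_lit 25) (.e (nat_lit 548891) (nat_lit 11) (.e (nat_lit 81960) (nat_lit 25) .nil)))) (.g (nat_lit 0) (.e (nat_lit 363355) (nat_lit 0) .nil) .nil)))))))))) (.nd (nat_lit 3) (.nd (nat_lit 4) (.nd (nat_lit 5) (.nd (nat_lit 6) (.nd (nat_lit 7) (.nd (nat_lit 8) (.nd (nat_lit 9) 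
(.lf (nat_lit 574469) (.g (nat_lit 1646) (.e (nat_lit 483405) (nat_lit 26) (.e (nat_lit 385068) (nat_lit 26) (.e (nat_lit 532501) (nat_lit 1) (.e (nat_lit 57851) (nat_lit 252) .nil)))) (.g (nat_lit 0) (.e (nat_lit 360883) (nat_lit 0) .nil) .nil))) 
(.lf (nat_lit 574981) (.g (nat_lit 3031) (.e (nat_lit 491539) (nat_lit 3) (.e (nat_lit 98372) (nat_lit 29) (.e (nat_lit 450588) (nat_lit 10) (.e (nat_lit 573469) (nat_lit 11) .nil)))) (.g (nat_lit 0) (.e (nat_lit 362729) (nat_lit 0) .nil) .nil)))) (.nd (nat_lit 9) 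
(.lf (nat_lit 574725) (.g (nat_lit 2095) (.e (nat_lit 491526) (nat_lit 0) (.e (nat_lit 1788) (nat_lit 119) (.e (nat_lit 516151) (nat_lit 9) (.e (nat_lit 426286) (nat_lit 10) (.e (nat_lit 434242) (nat_lit 28) .nil))))) (.g (nat_lit 0) (.e (nat_lit 362440) (nat_lit 0) .nil) .nil))) 
(.lf (nat_lit 575237) (.g (nat_lit 2716) (.e (nat_lit 491540) (nat_lit 3) (.e (nat_lit 98373) (nat_lit 29) (.e (nat_lit 450588) (nat_lit 10) (.e (nat_lit 573451) (nat_lit 9) (.e (nat_lit 430) (nat_lit 32) .nil))))) (.g (nat_lit 0) (.e (nat_lit 363004) (nat_lit 0) .nil) .nil))))) (.nd (nat_lit 8) (.nd (nat_lit 9) 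
(.lf (nat_lit 574597) (.g (nat_lit 3278) (.e (nat_lit 483409) (nat_lit 27) (.e (nat_lit 401459) (nat_lit 13) (.e (nat_lit 483411) (nat_lit 27) (.e (nat_lit 401457) (nat_lit 13) .nil)))) (.g (nat_lit 1) (.e (nat_lit 361415) (nat_lit 0) .nil) .nil))) 
(.lf (nat_lit 575109) (.g (nat_lit 4008) (.e (nat_lit 491540) (nat_lit 3) (.e (nat_lit 98372) (nat_lit 29) (.e (nat_lit 450588) (nat_lit 10) (.e (nat_lit 573469) (nat_lit 11) (.e (nat_lit 16472) (nat_lit 14) .nil))))) (.g (nat_lit 0) (.e (nat_lit 362874) (nat_lit 0) .nil) .nil)))) (.nd (nat_lit 9) 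
(.lf (nat_lit 574853) (.g (nat_lit 1755) (.e (nat_lit 491537) (nat_lit 2) (.e (nat_lit 90170) (nat_lit 13) (.e (nat_lit 172113) (nat_lit 10) (.e (nat_lit 434203) (nat_lit 18) (.e (nat_lit 3955) (nat_lit 239) .nil))))) (.g (nat_lit 0) (.e (nat_lit 362591) (nat_lit 0) .nil) .nil))) 
(.lf (nat_lit 575365) (.g (nat_lit 1371) (.e (nat_lit 491549) (nat_lit 9) (.e (nat_lit 336443) (nat_lit 32) (.e (nat_lit 466969) (nat_lit 21) (.e (nat_lit 164346) (nat_lit 240) .nil)))) (.g (nat_lit 0) (.e (nat_lit 363206) (nat_lit 0) .nil) .nil)))))) (.nd (nat_lit 7) (.nd (nat_lit 8) (.nd (nat_lit 9) 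
(.lf (nat_lit 574533) (.g (nat_lit 1769) (.e (nat_lit 483407) (nat_lit 26) (.e (nat_lit 385093) (nat_lit 49) (.e (nat_lit 778323) (nat_lit 5) (.e (nat_lit 73781) (nat_lit 32) (.e (nat_lit 3087) (nat_lit 191) .nil))))) (.g (nat_lit 0) (.e (nat_lit 361117) (nat_lit 0) .nil) .nil))) 
(.lf (nat_lit 575045) (.g (nat_lit 5872) (.e (nat_lit 491539) (nat_lit 3) (.e (nat_lit 98373) (nat_lit 29) (.e (nat_lit 450588) (nat_lit 10) (.e (nat_lit 573455) (nat_lit 9) .nil)))) (.g (nat_lit 0) (.e (nat_lit 362793) (nat_lit 0) .nil) .nil)))) (.nd (nat_lit 9) 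
(.lf (nat_lit 574789) (.g (nat_lit 1514) (.e (nat_lit 491536) (nat_lit 2) (.e (nat_lit 90170) (nat_lit 13) (.e (nat_lit 172126) (nat_lit 14) (.e (nat_lit 491540) (nat_lit 3) .nil)))) (.g (nat_lit 0) (.e (nat_lit 362525) (nat_lit 0) .nil) .nil))) 
(.lf (nat_lit 575301) (.g (nat_lit 1307) (.e (nat_lit 491546) (nat_lit 9) (.e (nat_lit 336028) (nat_lit 3) (.e (nat_lit 98349) (nat_lit 24) (.e (nat_lit 409641) (nat_lit 17) .nil)))) (.g (nat_lit 0) (.e (nat_lit 363075) (nat_lit 0) .nil) .nil))))) (.nd (nat_lit 8) (.nd (nat_lit 9) 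
(.lf (nat_lit 574661) (.g (nat_lit 388) (.e (nat_lit 483413) (nat_lit 27) (.e (nat_lit 401446) (nat_lit 10) (.e (nat_lit 434202) (nat_lit 18) .nil))) (.g (nat_lit 0) (.e (nat_lit 362044) (nat_lit 0) .nil) .nil))) 
(.lf (nat_lit 575173) (.g (nat_lit 2410) (.e (nat_lit 491540) (nat_lit 3) (.e (nat_lit 98373) (nat_lit 29) (.e (nat_lit 450585) (nat_lit 10) (.e (nat_lit 573458) (nat_lit 9) .nil)))) (.g (nat_lit 0) (.e (nat_lit 362940) (nat_lit 0) .nil) .nil)))) (.nd (nat_lit 9) 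
(.lf (nat_lit 574917) (.g (nat_lit 3541) (.e (nat_lit 491537) (nat_lit 2) (.e (nat_lit 90176) (nat_lit 15) (.e (nat_lit 188452) (nat_lit 23) (.e (nat_lit 204816) (nat_lit 17) (.e (nat_lit 6619) (nat_lit 357) .nil))))) (.g (nat_lit 0) (.e (nat_lit 362656) (nat_lit 0) .nil) .nil))) 
(.lf (nat_lit 575429) (.g (nat_lit 4231) (.e (nat_lit 491556) (nat_lit 9) (.e (nat_lit 336300) (nat_lit 15) (.e (nat_lit 3295) (nat_lit 202) (.e (nat_lit 573492) (nat_lit 15) (.e (nat_lit 81956) (nat_lit 23) (.e (nat_lit 98389) (nat_lit 33) .nil)))))) (.g (nat_lit 1) (.e (nat_lit 363302) (nat_lit 0) .nil) .nil))))))) (.nd (nat_lit 6) (.nd (nat_lit 7) (.nd (nat_lit 8) (.nd (nat_lit 9) 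
(.lf (nat_lit 574501) (.g (nat_lit 1696) (.e (nat_lit 483406) (nat_lit 26) (.e (nat_lit 385068) (nat_lit 26) (.e (nat_lit 532503) (nat_lit 1) (.e (nat_lit 57850) (nat_lit 252) .nil)))) (.g (nat_lit 0) (.e (nat_lit 361033) (nat_lit 0) .nil) .nil))) 
(.lf (nat_lit 575013) (.g (nat_lit 3414) (.e (nat_lit 491539) (nat_lit 3) (.e (nat_lit 98373) (nat_lit 29) (.e (nat_lit 450587) (nat_lit 10) (.e (nat_lit 573448) (nat_lit 9) .nil)))) (.g (nat_lit 0) (.e (nat_lit 362761) (nat_lit 0) .nil) .nil)))) (.nd (nat_lit 9) 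
(.lf (nat_lit 574757) (.g (nat_lit 2156) (.e (nat_lit 491535) (nat_lit 2) (.e (nat_lit 90178) (nat_lit 15) (.e (nat_lit 188440) (nat_lit 20) (.e (nat_lit 3304) (nat_lit 202) (.e (nat_lit 581376) (nat_lit 11) .nil))))) (.g (nat_lit 0) (.e (nat_lit 362493) (nat_lit 0) .nil) .nil))) 
(.lf (nat_lit 575269) (.g (nat_lit 2961) (.e (nat_lit 491540) (nat_lit 3) (.e (nat_lit 98381) (nat_lit 31) (.e (nat_lit 466967) (nat_lit 20) (.e (nat_lit 3266) (nat_lit 199) (.e (nat_lit 548913) (nat_lit 18) (.e (nat_lit 172126) (nat_lit 14) .nil)))))) (.g (nat_lit 1) (.e (nat_lit 363036) (nat_lit 0) .nil) .nil))))) (.nd (nat_lit 8) (.nd (nat_lit 9) 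
(.lf (nat_lit 574629) (.g (nat_lit 792) (.e (nat_lit 483411) (nat_lit 27) (.e (nat_lit 401437) (nat_lit 9) (.e (nat_lit 426489) (nat_lit 27) .nil))) (.g (nat_lit 0) (.e (nat_lit 361564) (nat_lit 0) .nil) .nil))) 
(.lf (nat_lit 575141) (.g (nat_lit 762) (.e (nat_lit 491540) (nat_lit 3) (.e (nat_lit 98373) (nat_lit 29) (.e (nat_lit 450564) (nat_lit 0) .nil))) (.g (nat_lit 0) (.e (nat_lit 362906) (nat_lit 0) .nil) .nil)))) (.nd (nat_lit 9) 
(.lf (nat_lit 574885) (.g (nat_lit 2008) (.e (nat_lit 491537) (nat_lit 2) (.e (nat_lit 90170) (nat_lit 13) (.e (nat_lit 172113) (nat_lit 10) (.e (nat_lit 434248) (nat_lit 28) (.e (nat_lit 573457) (nat_lit 9) .nil))))) (.g (nat_lit 0) (.e (nat_lit 362623) (nat_lit 0) .nil) .nil))) 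
(.lf (nat_lit 575397) (.g (nat_lit 2016) (.e (nat_lit 491550) (nat_lit 9) (.e (nat_lit 336421) (nat_lit 28) (.e (nat_lit 434198) (nat_lit 17) (.e (nat_lit 229646) (nat_lit 232) (.e (nat_lit 404) (nat_lit 32) (.e (nat_lit 426340) (nat_lit 14) .nil)))))) (.g (nat_lit 1) (.e (nat_lit 363254) (nat_lit 0) .nil) .nil)))))) (.nd (nat_lit 7) (.nd (nat_lit 8) (.nd (nat_lit 9) 
(.lf (nat_lit 574565) (.g (nat_lit 2408) (.e (nat_lit 483408) (nat_lit 26) (.e (nat_lit 385092) (nat_lit 49) (.e (nat_lit 778323) (nat_lit 5) (.e (nat_lit 73782) (nat_lit 32) (.e (nat_lit 3088) (nat_lit 191) .nil))))) (.g (nat_lit 1) (.e (nat_lit 361273) (nat_lit 0) .nil) .nil))) 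
(.lf (nat_lit 575077) (.g (nat_lit 347) (.e (nat_lit 491540) (nat_lit 3) (.e (nat_lit 98369) (nat_lit 28) (.e (nat_lit 442403) (nat_lit 20) .nil))) (.g (nat_lit 0) (.e (nat_lit 362840) (nat_lit 0) .nil) .nil)))) (.nd (nat_lit 9) 
(.lf (nat_lit 574821) (.g (nat_lit 4208) (.e (nat_lit 491537) (nat_lit 2) (.e (nat_lit 90170) (nat_lit 13) (.e (nat_lit 172106) (nat_lit 10) (.e (nat_lit 434231) (nat_lit 23) (.e (nat_lit 532482) (nat_lit 0) (.e (nat_lit 6624) (nat_lit 357) (.e (nat_lit 3096) (nat_lit 192) .nil))))))) (.g (nat_lit 1) (.e (nat_lit 362559) (nat_lit 0) .nil) .nil))) 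
(.lf (nat_lit 575333) (.g (nat_lit 1695) (.e (nat_lit 491548) (nat_lit 9) (.e (nat_lit 336398) (nat_lit 27) (.e (nat_lit 426211) (nat_lit 9) (.e (nat_lit 426025) (nat_lit 0) (.e (nat_lit 3397) (nat_lit 211) .nil))))) (.g (nat_lit 0) (.e (nat_lit 363134) (nat_lit 0) .nil) .nil))))) (.nd (nat_lit 8) (.nd (nat_lit 9) 
(.lf (nat_lit 574693) (.g (nat_lit 1657) (.e (nat_lit 491264) (nat_lit 27) (.e (nat_lit 401459) (nat_lit 13) (.e (nat_lit 483350) (nat_lit 17) (.e (nat_lit 6677) (nat_lit 357) .nil)))) (.g (nat_lit 0) (.e (nat_lit 362405) (nat_lit 0) .nil) .nil))) 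
(.lf (nat_lit 575205) (.g (nat_lit 2568) (.e (nat_lit 491540) (nat_lit 3) (.e (nat_lit 98373) (nat_lit 29) (.e (nat_lit 450587) (nat_lit 10) (.e (nat_lit 573450) (nat_lit 9) .nil)))) (.g (nat_lit 0) (.e (nat_lit 362972) (nat_lit 0) .nil) .nil)))) (.nd (nat_lit 9) 
(.lf (nat_lit 574949) (.g (nat_lit 3322) (.e (nat_lit 491538) (nat_lit 3) (.e (nat_lit 98372) (nat_lit 29) (.e (nat_lit 450588) (nat_lit 10) (.e (nat_lit 573471) (nat_lit 11) (.e (nat_lit 16471) (nat_lit 14) .nil))))) (.g (nat_lit 0) (.e (nat_lit 362693) (nat_lit 0) .nil) .nil))) 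
(.lf (nat_lit 575461) (.g (nat_lit 3416) (.e (nat_lit 491559) (nat_lit 10) (.e (nat_lit 344117) (nat_lit 21) (.e (nat_lit 516185) (nat_lit 16) (.e (nat_lit 491560) (nat_lit 10) (.e (nat_lit 344107) (nat_lit 19) .nil))))) (.g (nat_lit 0) (.e (nat_lit 363334) (nat_lit 0) .nil) .nil)))))))) (.nd (nat_lit 5) (.nd (nat_lit 6) (.nd (nat_lit 7) (.nd (nat_lit 8) (.nd (nat_lit 9) 
(.lf (nat_lit 574485) (.g (nat_lit 2130) (.e (nat_lit 483406) (nat_lit 26) (.e (nat_lit 385057) (nat_lit 22) (.e (nat_lit 499780) (nat_lit 1) (.e (nat_lit 57813) (nat_lit 246) (.e (nat_lit 57878) (nat_lit 270) (.e (nat_lit 496) (nat_lit 39) .nil)))))) (.g (nat_lit 1) (.e (nat_lit 360991) (nat_lit 0) .nil) .nil))) 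
(.lf (nat_lit 574997) (.g (nat_lit 2678) (.e (nat_lit 491539) (nat_lit 3) (.e (nat_lit 98373) (nat_lit 29) (.e (nat_lit 450585) (nat_lit 10) (.e (nat_lit 573451) (nat_lit 9) .nil)))) (.g (nat_lit 0) (.e (nat_lit 362745) (nat_lit 0) .nil) .nil)))) (.nd (nat_lit 9) 
(.lf (nat_lit 574741) (.g (nat_lit 1902) (.e (nat_lit 491535) (nat_lit 2) (.e (nat_lit 90170) (nat_lit 13) (.e (nat_lit 172113) (nat_lit 10) (.e (nat_lit 434245) (nat_lit 28) (.e (nat_lit 573458) (nat_lit 9) .nil))))) (.g (nat_lit 0) (.e (nat_lit 362477) (nat_lit 0) .nil) .nil))) 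
(.lf (nat_lit 575253) (.g (nat_lit 3190) (.e (nat_lit 491540) (nat_lit 3) (.e (nat_lit 98373) (nat_lit 29) (.e (nat_lit 450588) (nat_lit 10) (.e (nat_lit 573457) (nat_lit 9) .nil)))) (.g (nat_lit 0) (.e (nat_lit 363020) (nat_lit 0) .nil) .nil))))) (.nd (nat_lit 8) (.nd (nat_lit 9) 
(.lf (nat_lit 574613) (.g (nat_lit 375) (.e (nat_lit 483410) (nat_lit 27) (.e (nat_lit 401448) (nat_lit 10) (.e (nat_lit 442112) (nat_lit 44) .nil))) (.g (nat_lit 0) (.e (nat_lit 361475) (nat_lit 0) .nil) .nil))) 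
(.lf (nat_lit 575125) (.g (nat_lit 3099) (.e (nat_lit 491540) (nat_lit 3) (.e (nat_lit 98373) (nat_lit 29) (.e (nat_lit 450562) (nat_lit 0) (.e (nat_lit 3955) (nat_lit 239) .nil)))) (.g (nat_lit 0) (.e (nat_lit 362890) (nat_lit 0) .nil) .nil)))) (.nd (nat_lit 9) 
(.lf (nat_lit 574869) (.g (nat_lit 3704) (.e (nat_lit 491537) (nat_lit 2) (.e (nat_lit 90170) (nat_lit 13) (.e (nat_lit 172113) (nat_lit 10) (.e (nat_lit 434245) (nat_lit 28) (.e (nat_lit 573451) (nat_lit 9) (.e (nat_lit 428) (nat_lit 32) (.e (nat_lit 426347) (nat_lit 14) .nil))))))) (.g (nat_lit 1) (.e (nat_lit 362607) (nat_lit 0) .nil) .nil))) 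
(.lf (nat_lit 575381) (.g (nat_lit 1727) (.e (nat_lit 491550) (nat_lit 9) (.e (nat_lit 336369) (nat_lit 27) (.e (nat_lit 426305) (nat_lit 12) (.e (nat_lit 475211) (nat_lit 41) .nil)))) (.g (nat_lit 0) (.e (nat_lit 363237) (nat_lit 0) .nil) .nil)))))) (.nd (nat_lit 7) (.nd (nat_lit 8) (.nd (nat_lit 9) 
(.lf (nat_lit 574549) (.g (nat_lit 2156) (.e (nat_lit 483408) (nat_lit 26) (.e (nat_lit 385067) (nat_lit 26) (.e (nat_lit 532504) (nat_lit 1) (.e (nat_lit 57830) (nat_lit 250) (.e (nat_lit 1004) (nat_lit 81) .nil))))) (.g (nat_lit 0) (.e (nat_lit 361189) (nat_lit 0) .nil) .nil))) 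
(.lf (nat_lit 575061) (.g (nat_lit 3153) (.e (nat_lit 491540) (nat_lit 3) (.e (nat_lit 98349) (nat_lit 24) (.e (nat_lit 409602) (nat_lit 0) (.e (nat_lit 5293) (nat_lit 298) (.e (nat_lit 1232) (nat_lit 91) .nil))))) (.g (nat_lit 0) (.e (nat_lit 362817) (nat_lit 0) .nil) .nil)))) (.nd (nat_lit 9) 
(.lf (nat_lit 574805) (.g (nat_lit 691) (.e (nat_lit 491537) (nat_lit 2) (.e (nat_lit 90170) (nat_lit 13) (.e (nat_lit 172041) (nat_lit 0) .nil))) (.g (nat_lit 0) (.e (nat_lit 362543) (nat_lit 0) .nil) .nil))) 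
(.lf (nat_lit 575317) (.g (nat_lit 859) (.e (nat_lit 491547) (nat_lit 9) (.e (nat_lit 336430) (nat_lit 29) (.e (nat_lit 442412) (nat_lit 20) (.e (nat_lit 3408) (nat_lit 212) .nil)))) (.g (nat_lit 0) (.e (nat_lit 363107) (nat_lit 0) .nil) .nil))))) (.nd (nat_lit 8) (.nd (nat_lit 9) 
(.lf (nat_lit 574677) (.g (nat_lit 355) (.e (nat_lit 483413) (nat_lit 27) (.e (nat_lit 401448) (nat_lit 10) (.e (nat_lit 434206) (nat_lit 18) .nil))) (.g (nat_lit 0) (.e (nat_lit 362234) (nat_lit 0) .nil) .nil))) 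
(.lf (nat_lit 575189) (.g (nat_lit 2295) (.e (nat_lit 491540) (nat_lit 3) (.e (nat_lit 98373) (nat_lit 29) (.e (nat_lit 450586) (nat_lit 10) (.e (nat_lit 573457) (nat_lit 9) .nil)))) (.g (nat_lit 0) (.e (nat_lit 362956) (nat_lit 0) .nil) .nil)))) (.nd (nat_lit 9) 
(.lf (nat_lit 574933) (.g (nat_lit 682) (.e (nat_lit 491538) (nat_lit 3) (.e (nat_lit 98356) (nat_lit 26) (.e (nat_lit 433920) (nat_lit 10) .nil))) (.g (nat_lit 0) (.e (nat_lit 362676) (nat_lit 0) .nil) .nil))) 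
(.lf (nat_lit 575445) (.g (nat_lit 2798) (.e (nat_lit 491558) (nat_lit 10) (.e (nat_lit 344117) (nat_lit 21) (.e (nat_lit 516139) (nat_lit 7) (.e (nat_lit 409642) (nat_lit 17) (.e (nat_lit 294931) (nat_lit 3) .nil))))) (.g (nat_lit 0) (.e (nat_lit 363318) (nat_lit 0) .nil) .nil))))))) (.nd (nat_lit 6) (.nd (nat_lit 7) (.nd (nat_lit 8) (.nd (nat_lit 9) 
(.lf (nat_lit 574517) (.g (nat_lit 755) (.e (nat_lit 483406) (nat_lit 26) (.e (nat_lit 385107) (nat_lit 51) (.e (nat_lit 802560) (nat_lit 5) .nil))) (.g (nat_lit 0) (.e (nat_lit 361071) (nat_lit 0) .nil) .nil))) 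
(.lf (nat_lit 575029) (.g (nat_lit 2853) (.e (nat_lit 491539) (nat_lit 3) (.e (nat_lit 98373) (nat_lit 29) (.e (nat_lit 450587) (nat_lit 10) (.e (nat_lit 573469) (nat_lit 11) (.e (nat_lit 16471) (nat_lit 14) .nil))))) (.g (nat_lit 0) (.e (nat_lit 362777) (nat_lit 0) .nil) .nil)))) (.nd (nat_lit 9) 
(.lf (nat_lit 574773) (.g (nat_lit 1661) (.e (nat_lit 491536) (nat_lit 2) (.e (nat_lit 90170) (nat_lit 13) (.e (nat_lit 172106) (nat_lit 10) (.e (nat_lit 434244) (nat_lit 28) (.e (nat_lit 573458) (nat_lit 9) .nil))))) (.g (nat_lit 0) (.e (nat_lit 362509) (nat_lit 0) .nil) .nil))) 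
(.lf (nat_lit 575285) (.g (nat_lit 2728) (.e (nat_lit 499456) (nat_lit 3) (.e (nat_lit 98373) (nat_lit 29) (.e (nat_lit 450587) (nat_lit 10) (.e (nat_lit 573471) (nat_lit 11) .nil)))) (.g (nat_lit 0) (.e (nat_lit 363052) (nat_lit 0) .nil) .nil))))) (.nd (nat_lit 8) (.nd (nat_lit 9) 
(.lf (nat_lit 574645) (.g (nat_lit 527) (.e (nat_lit 483412) (nat_lit 27) (.e (nat_lit 401444) (nat_lit 9) (.e (nat_lit 425984) (nat_lit 0) .nil))) (.g (nat_lit 0) (.e (nat_lit 361745) (nat_lit 0) .nil) .nil))) 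
(.lf (nat_lit 575157) (.g (nat_lit 2077) (.e (nat_lit 491540) (nat_lit 3) (.e (nat_lit 98373) (nat_lit 29) (.e (nat_lit 450569) (nat_lit 0) (.e (nat_lit 7936) (nat_lit 239) .nil)))) (.g (nat_lit 0) (.e (nat_lit 362924) (nat_lit 0) .nil) .nil)))) (.nd (nat_lit 9) 
(.lf (nat_lit 574901) (.g (nat_lit 3721) (.e (nat_lit 491537) (nat_lit 2) (.e (nat_lit 90170) (nat_lit 13) (.e (nat_lit 172120) (nat_lit 12) (.e (nat_lit 475185) (nat_lit 29) (.e (nat_lit 557096) (nat_lit 13) (.e (nat_lit 172126) (nat_lit 14) .nil)))))) (.g (nat_lit 1) (.e (nat_lit 362639) (nat_lit 0) .nil) .nil))) 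
(.lf (nat_lit 575413) (.g (nat_lit 3326) (.e (nat_lit 491550) (nat_lit 9) (.e (nat_lit 336434) (nat_lit 30) (.e (nat_lit 450593) (nat_lit 16) (.e (nat_lit 655378) (nat_lit 4) (.e (nat_lit 172126) (nat_lit 14) .nil))))) (.g (nat_lit 1) (.e (nat_lit 363275) (nat_lit 0) .nil) .nil)))))) (.nd (nat_lit 7) (.nd (nat_lit 8) (.nd (nat_lit 9) 
(.lf (nat_lit 574581) (.g (nat_lit 935) (.e (nat_lit 483409) (nat_lit 27) (.e (nat_lit 401454) (nat_lit 12) (.e (nat_lit 475155) (nat_lit 21) .nil))) (.g (nat_lit 0) (.e (nat_lit 361356) (nat_lit 0) .nil) .nil))) 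
(.lf (nat_lit 575093) (.g (nat_lit 2932) (.e (nat_lit 491540) (nat_lit 3) (.e (nat_lit 98372) (nat_lit 29) (.e (nat_lit 450586) (nat_lit 10) (.e (nat_lit 573451) (nat_lit 9) (.e (nat_lit 430) (nat_lit 32) .nil))))) (.g (nat_lit 0) (.e (nat_lit 362858) (nat_lit 0) .nil) .nil)))) (.nd (nat_lit 9) 
(.lf (nat_lit 574837) (.g (nat_lit 3734) (.e (nat_lit 491537) (nat_lit 2) (.e (nat_lit 90170) (nat_lit 13) (.e (nat_lit 172106) (nat_lit 10) (.e (nat_lit 434238) (nat_lit 25) (.e (nat_lit 548898) (nat_lit 14) (.e (nat_lit 2873) (nat_lit 184) (.e (nat_lit 426340) (nat_lit 14) .nil))))))) (.g (nat_lit 1) (.e (nat_lit 362575) (nat_lit 0) .nil) .nil))) 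
(.lf (nat_lit 575349) (.g (nat_lit 4175) (.e (nat_lit 491549) (nat_lit 9) (.e (nat_lit 336395) (nat_lit 27) (.e (nat_lit 426211) (nat_lit 9) (.e (nat_lit 426025) (nat_lit 0) (.e (nat_lit 3397) (nat_lit 211) (.e (nat_lit 647183) (nat_lit 4) (.e (nat_lit 172126) (nat_lit 14) .nil))))))) (.g (nat_lit 1) (.e (nat_lit 363188) (nat_lit 0) .nil) .nil))))) (.nd (nat_lit 8) (.nd (nat_lit 9) 
(.lf (nat_lit 574709) (.g (nat_lit 2494) (.e (nat_lit 491520) (nat_lit 0) (.e (nat_lit 1788) (nat_lit 119) (.e (nat_lit 516166) (nat_lit 12) (.e (nat_lit 450588) (nat_lit 10) (.e (nat_lit 573452) (nat_lit 9) .nil))))) (.g (nat_lit 0) (.e (nat_lit 362421) (nat_lit 0) .nil) .nil))) 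
(.lf (nat_lit 575221) (.g (nat_lit 4664) (.e (nat_lit 491540) (nat_lit 3) (.e (nat_lit 98373) (nat_lit 29) (.e (nat_lit 450587) (nat_lit 10) (.e (nat_lit 573460) (nat_lit 9) (.e (nat_lit 426) (nat_lit 32) .nil))))) (.g (nat_lit 0) (.e (nat_lit 362988) (nat_lit 0) .nil) .nil)))) (.nd (nat_lit 9) 
(.lf (nat_lit 574965) (.g (nat_lit 1570) (.e (nat_lit 491538) (nat_lit 3) (.e (nat_lit 98373) (nat_lit 29) (.e (nat_lit 450588) (nat_lit 10) (.e (nat_lit 573452) (nat_lit 9) .nil)))) (.g (nat_lit 0) (.e (nat_lit 362709) (nat_lit 0) .nil) .nil))) 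
(.lf (nat_lit 575477) (.g (nat_lit 3449) (.e (nat_lit 491560) (nat_lit 10) (.e (nat_lit 344117) (nat_lit 21) (.e (nat_lit 516185) (nat_lit 16) (.e (nat_lit 491560) (nat_lit 10) (.e (nat_lit 344108) (nat_lit 19) (.e (nat_lit 499843) (nat_lit 5) (.e (nat_lit 3102) (nat_lit 192) .nil))))))) (.g (nat_lit 1) (.e (nat_lit 363351) (nat_lit 0) .nil) .nil))))))))) 
(.nd (nat_lit 4) (.nd (nat_lit 5) (.nd (nat_lit 6) (.nd (nat_lit 7) (.nd (nat_lit 8) 
(.nd (nat_lit 9) 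
(.lf (nat_lit 574477) (.g (nat_lit 2546) (.e (nat_lit 483405) (nat_lit 26) (.e (nat_lit 385093) (nat_lit 49) (.e (nat_lit 778323) (nat_lit 5) (.e (nat_lit 73782) (nat_lit 32) (.e (nat_lit 3088) (nat_lit 191) .nil))))) (.g (nat_lit 1) (.e (nat_lit 360918) (nat_lit 0) .nil) .nil))) 
(.lf (nat_lit 574989) (.g (nat_lit 3396) (.e (nat_lit 491539) (nat_lit 3) (.e (nat_lit 98373) (nat_lit 29) (.e (nat_lit 450563) (nat_lit 0) (.e (nat_lit 3966) (nat_lit 239) .nil)))) (.g (nat_lit 0) (.e (nat_lit 362737) (nat_lit 0) .nil) .nil)))) (.nd (nat_lit 9) 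
(.lf (nat_lit 574733) (.g (nat_lit 1511) (.e (nat_lit 491526) (nat_lit 0) (.e (nat_lit 7936) (nat_lit 119) (.e (nat_lit 516166) (nat_lit 12) (.e (nat_lit 450587) (nat_lit 10) (.e (nat_lit 573456) (nat_lit 9) (.e (nat_lit 430) (nat_lit 32) (.e (nat_lit 426342) (nat_lit 14) .nil))))))) (.g (nat_lit 1) (.e (nat_lit 362448) (nat_lit 0) .nil) .nil))) 
(.lf (nat_lit 575245) (.g (nat_lit 5026) (.e (nat_lit 491540) (nat_lit 3) (.e (nat_lit 98373) (nat_lit 29) (.e (nat_lit 450588) (nat_lit 10) (.e (nat_lit 573453) (nat_lit 9) .nil)))) (.g (nat_lit 0) (.e (nat_lit 363012) (nat_lit 0) .nil) .nil))))) (.nd (nat_lit 8) (.nd (nat_lit 9) 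
(.lf (nat_lit 574605) (.g (nat_lit 2900) (.e (nat_lit 483410) (nat_lit 27) (.e (nat_lit 401438) (nat_lit 9) (.e (nat_lit 426533) (nat_lit 28) (.e (nat_lit 344068) (nat_lit 0) (.e (nat_lit 3088) (nat_lit 191) .nil))))) (.g (nat_lit 1) (.e (nat_lit 361443) (nat_lit 0) .nil) .nil))) 
(.lf (nat_lit 575117) (.g (nat_lit 2488) (.e (nat_lit 491540) (nat_lit 3) (.e (nat_lit 98373) (nat_lit 29) (.e (nat_lit 450561) (nat_lit 0) (.e (nat_lit 3919) (nat_lit 239) .nil)))) (.g (nat_lit 0) (.e (nat_lit 362882) (nat_lit 0) .nil) .nil)))) (.nd (nat_lit 9) 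
(.lf (nat_lit 574861) (.g (nat_lit 2198) (.e (nat_lit 491537) (nat_lit 2) (.e (nat_lit 90170) (nat_lit 13) (.e (nat_lit 172113) (nat_lit 10) (.e (nat_lit 434244) (nat_lit 28) (.e (nat_lit 573471) (nat_lit 11) .nil))))) (.g (nat_lit 0) (.e (nat_lit 362599) (nat_lit 0) .nil) .nil))) 
(.lf (nat_lit 575373) (.g (nat_lit 588) (.e (nat_lit 491550) (nat_lit 9) (.e (nat_lit 336324) (nat_lit 18) (.e (nat_lit 204831) (nat_lit 18) .nil))) (.g (nat_lit 0) (.e (nat_lit 363227) (nat_lit 0) .nil) .nil)))))) (.nd (nat_lit 7) (.nd (nat_lit 8) (.nd (nat_lit 9) 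
(.lf (nat_lit 574541) (.g (nat_lit 2241) (.e (nat_lit 483407) (nat_lit 26) (.e (nat_lit 385094) (nat_lit 49) (.e (nat_lit 778324) (nat_lit 5) (.e (nat_lit 73781) (nat_lit 32) (.e (nat_lit 3088) (nat_lit 191) .nil))))) (.g (nat_lit 1) (.e (nat_lit 361131) (nat_lit 0) .nil) .nil))) 
(.lf (nat_lit 575053) (.g (nat_lit 4156) (.e (nat_lit 491539) (nat_lit 3) (.e (nat_lit 98373) (nat_lit 29) (.e (nat_lit 450588) (nat_lit 10) (.e (nat_lit 573469) (nat_lit 11) (.e (nat_lit 16469) (nat_lit 14) .nil))))) (.g (nat_lit 0) (.e (nat_lit 362801) (nat_lit 0) .nil) .nil)))) (.nd (nat_lit 9) 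
(.lf (nat_lit 574797) (.g (nat_lit 1039) (.e (nat_lit 491536) (nat_lit 2) (.e (nat_lit 90178) (nat_lit 15) (.e (nat_lit 188440) (nat_lit 20) (.e (nat_lit 3307) (nat_lit 202) .nil)))) (.g (nat_lit 0) (.e (nat_lit 362533) (nat_lit 0) .nil) .nil))) 
(.lf (nat_lit 575309) (.g (nat_lit 3502) (.e (nat_lit 491546) (nat_lit 9) (.e (nat_lit 336295) (nat_lit 15) (.e (nat_lit 3305) (nat_lit 202) (.e (nat_lit 573493) (nat_lit 15) (.e (nat_lit 81956) (nat_lit 23) (.e (nat_lit 98389) (nat_lit 33) .nil)))))) (.g (nat_lit 1) (.e (nat_lit 363085) (nat_lit 0) .nil) .nil))))) (.nd (nat_lit 8) (.nd (nat_lit 9) 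
(.lf (nat_lit 574669) (.g (nat_lit 475) (.e (nat_lit 483413) (nat_lit 27) (.e (nat_lit 401447) (nat_lit 10) (.e (nat_lit 434206) (nat_lit 18) .nil))) (.g (nat_lit 0) (.e (nat_lit 362160) (nat_lit 0) .nil) .nil))) 
(.lf (nat_lit 575181) (.g (nat_lit 2402) (.e (nat_lit 491540) (nat_lit 3) (.e (nat_lit 98373) (nat_lit 29) (.e (nat_lit 450586) (nat_lit 10) (.e (nat_lit 573451) (nat_lit 9) .nil)))) (.g (nat_lit 0) (.e (nat_lit 362948) (nat_lit 0) .nil) .nil)))) (.nd (nat_lit 9) 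
(.lf (nat_lit 574925) (.g (nat_lit 3537) (.e (nat_lit 491537) (nat_lit 2) (.e (nat_lit 90178) (nat_lit 15) (.e (nat_lit 188452) (nat_lit 23) (.e (nat_lit 204816) (nat_lit 17) (.e (nat_lit 6619) (nat_lit 357) .nil))))) (.g (nat_lit 0) (.e (nat_lit 362664) (nat_lit 0) .nil) .nil))) 
(.lf (nat_lit 575437) (.g (nat_lit 3321) (.e (nat_lit 491558) (nat_lit 10) (.e (nat_lit 344115) (nat_lit 20) (.e (nat_lit 507923) (nat_lit 6) (.e (nat_lit 286747) (nat_lit 9) (.e (nat_lit 336013) (nat_lit 2) (.e (nat_lit 90121) (nat_lit 9) (.e (nat_lit 3102) (nat_lit 192) .nil))))))) (.g (nat_lit 1) (.e (nat_lit 363310) (nat_lit 0) .nil) .nil))))))) 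
(.nd (nat_lit 6) (.nd (nat_lit 7) (.nd (nat_lit 8) (.nd (nat_lit 9) 
(.lf (nat_lit 574509) (.g (nat_lit 2460) (.e (nat_lit 483406) (nat_lit 26) (.e (nat_lit 385092) (nat_lit 49) (.e (nat_lit 778323) (nat_lit 5) (.e (nat_lit 73782) (nat_lit 32) (.e (nat_lit 3089) (nat_lit 191) .nil))))) (.g (nat_lit 1) (.e (nat_lit 361058) (nat_lit 0) .nil) .nil))) 
(.lf (nat_lit 575021) (.g (nat_lit 1862) (.e (nat_lit 491539) (nat_lit 3) (.e (nat_lit 98373) (nat_lit 29) (.e (nat_lit 450587) (nat_lit 10) (.e (nat_lit 573457) (nat_lit 9) .nil)))) (.g (nat_lit 0) (.e (nat_lit 362769) (nat_lit 0) .nil) .nil)))) (.nd (nat_lit 9) 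
(.lf (nat_lit 574765) (.g (nat_lit 2339) (.e (nat_lit 491536) (nat_lit 2) (.e (nat_lit 90167) (nat_lit 13) (.e (nat_lit 172126) (nat_lit 14) (.e (nat_lit 491540) (nat_lit 3) (.e (nat_lit 98362) (nat_lit 26) (.e (nat_lit 426346) (nat_lit 14) .nil)))))) (.g (nat_lit 1) (.e (nat_lit 362501) (nat_lit 0) .nil) .nil))) 
(.lf (nat_lit 575277) (.g (nat_lit 2225) (.e (nat_lit 499456) (nat_lit 3) (.e (nat_lit 98372) (nat_lit 29) (.e (nat_lit 450588) (nat_lit 10) (.e (nat_lit 573470) (nat_lit 11) .nil)))) (.g (nat_lit 0) (.e (nat_lit 363044) (nat_lit 0) .nil) .nil))))) (.nd (nat_lit 8) (.nd (nat_lit 9) 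
(.lf (nat_lit 574637) (.g (nat_lit 345) (.e (nat_lit 483411) (nat_lit 27) (.e (nat_lit 401448) (nat_lit 10) (.e (nat_lit 434291) (nat_lit 44) .nil))) (.g (nat_lit 0) (.e (nat_lit 361659) (nat_lit 0) .nil) .nil))) 
(.lf (nat_lit 575149) (.g (nat_lit 2229) (.e (nat_lit 491540) (nat_lit 3) (.e (nat_lit 98373) (nat_lit 29) (.e (nat_lit 450566) (nat_lit 0) (.e (nat_lit 7936) (nat_lit 243) .nil)))) (.g (nat_lit 0) (.e (nat_lit 362916) (nat_lit 0) .nil) .nil)))) (.nd (nat_lit 9) 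
(.lf (nat_lit 574893) (.g (nat_lit 704) (.e (nat_lit 491537) (nat_lit 2) (.e (nat_lit 90170) (nat_lit 13) (.e (nat_lit 172116) (nat_lit 10) .nil))) (.g (nat_lit 0) (.e (nat_lit 362631) (nat_lit 0) .nil) .nil))) 
(.lf (nat_lit 575405) (.g (nat_lit 1888) (.e (nat_lit 491550) (nat_lit 9) (.e (nat_lit 336430) (nat_lit 29) (.e (nat_lit 442421) (nat_lit 21) (.e (nat_lit 164348) (nat_lit 240) (.e (nat_lit 2618) (nat_lit 164) .nil))))) (.g (nat_lit 0) (.e (nat_lit 363265) (nat_lit 0) .nil) .nil)))))) (.nd (nat_lit 7) (.nd (nat_lit 8) (.nd (nat_lit 9) 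
(.lf (nat_lit 574573) (.g (nat_lit 1075) (.e (nat_lit 491264) (nat_lit 26) (.e (nat_lit 385093) (nat_lit 49) (.e (nat_lit 778324) (nat_lit 5) (.e (nat_lit 73781) (nat_lit 32) .nil)))) (.g (nat_lit 0) (.e (nat_lit 361326) (nat_lit 0) .nil) .nil))) 
(.lf (nat_lit 575085) (.g (nat_lit 1992) (.e (nat_lit 491540) (nat_lit 3) (.e (nat_lit 98372) (nat_lit 29) (.e (nat_lit 450579) (nat_lit 5) (.e (nat_lit 532569) (nat_lit 16) (.e (nat_lit 409344) (nat_lit 14) .nil))))) (.g (nat_lit 0) (.e (nat_lit 362850) (nat_lit 0) .nil) .nil)))) (.nd (nat_lit 9) 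
(.lf (nat_lit 574829) (.g (nat_lit 3745) (.e (nat_lit 491537) (nat_lit 2) (.e (nat_lit 90170) (nat_lit 13) (.e (nat_lit 172106) (nat_lit 10) (.e (nat_lit 434231) (nat_lit 23) (.e (nat_lit 532483) (nat_lit 0) (.e (nat_lit 7936) (nat_lit 357) (.e (nat_lit 3104) (nat_lit 192) .nil))))))) (.g (nat_lit 1) (.e (nat_lit 362567) (nat_lit 0) .nil) .nil))) 
(.lf (nat_lit 575341) (.g (nat_lit 2819) (.e (nat_lit 491548) (nat_lit 9) (.e (nat_lit 336430) (nat_lit 29) (.e (nat_lit 442409) (nat_lit 20) (.e (nat_lit 3409) (nat_lit 212) (.e (nat_lit 655378) (nat_lit 4) (.e (nat_lit 172126) (nat_lit 14) .nil)))))) (.g (nat_lit 1) (.e (nat_lit 363148) (nat_lit 0) .nil) .nil))))) (.nd (nat_lit 8) (.nd (nat_lit 9) 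
(.lf (nat_lit 574701) (.g (nat_lit 2015) (.e (nat_lit 491520) (nat_lit 0) (.e (nat_lit 1788) (nat_lit 119) (.e (nat_lit 516151) (nat_lit 9) (.e (nat_lit 426286) (nat_lit 10) (.e (nat_lit 434248) (nat_lit 28) .nil))))) (.g (nat_lit 0) (.e (nat_lit 362413) (nat_lit 0) .nil) .nil))) 
(.lf (nat_lit 575213) (.g (nat_lit 2879) (.e (nat_lit 491540) (nat_lit 3) (.e (nat_lit 98373) (nat_lit 29) (.e (nat_lit 450587) (nat_lit 10) (.e (nat_lit 573455) (nat_lit 9) .nil)))) (.g (nat_lit 0) (.e (nat_lit 362980) (nat_lit 0) .nil) .nil)))) (.nd (nat_lit 9) 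
(.lf (nat_lit 574957) (.g (nat_lit 1927) (.e (nat_lit 491538) (nat_lit 3) (.e (nat_lit 98373) (nat_lit 29) (.e (nat_lit 450586) (nat_lit 10) (.e (nat_lit 573470) (nat_lit 11) (.e (nat_lit 16472) (nat_lit 14) .nil))))) (.g (nat_lit 0) (.e (nat_lit 362701) (nat_lit 0) .nil) .nil))) 
(.lf (nat_lit 575469) (.g (nat_lit 4309) (.e (nat_lit 491560) (nat_lit 10) (.e (nat_lit 344115) (nat_lit 20) (.e (nat_lit 507923) (nat_lit 6) (.e (nat_lit 286747) (nat_lit 9) (.e (nat_lit 336013) (nat_lit 2) (.e (nat_lit 90137) (nat_lit 9) (.e (nat_lit 3102) (nat_lit 192) .nil))))))) (.g (nat_lit 1) (.e (nat_lit 363342) (nat_lit 0) .nil) .nil)))))))) 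
(.nd (nat_lit 5) (.nd (nat_lit 6) (.nd (nat_lit 7) (.nd (nat_lit 8) (.nd (nat_lit 9) 
(.lf (nat_lit 574493) (.g (nat_lit 2468) (.e (nat_lit 483406) (nat_lit 26) (.e (nat_lit 385068) (nat_lit 26) (.e (nat_lit 532499) (nat_lit 1) (.e (nat_lit 57853) (nat_lit 252) (.e (nat_lit 57406) (nat_lit 12) .nil))))) (.g (nat_lit 0) (.e (nat_lit 361017) (nat_lit 0) .nil) .nil))) 
(.lf (nat_lit 575005) (.g (nat_lit 444) (.e (nat_lit 491539) (nat_lit 3) (.e (nat_lit 98373) (nat_lit 29) (.e (nat_lit 450586) (nat_lit 10) .nil))) (.g (nat_lit 0) (.e (nat_lit 362753) (nat_lit 0) .nil) .nil)))) (.nd (nat_lit 9) 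
(.lf (nat_lit 574749) (.g (nat_lit 750) (.e (nat_lit 491535) (nat_lit 2) (.e (nat_lit 90170) (nat_lit 13) (.e (nat_lit 172126) (nat_lit 14) .nil))) (.g (nat_lit 0) (.e (nat_lit 362485) (nat_lit 0) .nil) .nil))) 
(.lf (nat_lit 575261) (.g (nat_lit 5515) (.e (nat_lit 491540) (nat_lit 3) (.e (nat_lit 98373) (nat_lit 29) (.e (nat_lit 450588) (nat_lit 10) (.e (nat_lit 573464) (nat_lit 9) .nil)))) (.g (nat_lit 0) (.e (nat_lit 363028) (nat_lit 0) .nil) .nil))))) (.nd (nat_lit 8) (.nd (nat_lit 9) 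
(.lf (nat_lit 574621) (.g (nat_lit 2683) (.e (nat_lit 483410) (nat_lit 27) (.e (nat_lit 401459) (nat_lit 13) (.e (nat_lit 483411) (nat_lit 27) (.e (nat_lit 401457) (nat_lit 13) .nil)))) (.g (nat_lit 1) (.e (nat_lit 361551) (nat_lit 0) .nil) .nil))) 
(.lf (nat_lit 575133) (.g (nat_lit 3302) (.e (nat_lit 491540) (nat_lit 3) (.e (nat_lit 98373) (nat_lit 29) (.e (nat_lit 450563) (nat_lit 0) (.e (nat_lit 3921) (nat_lit 239) .nil)))) (.g (nat_lit 0) (.e (nat_lit 362898) (nat_lit 0) .nil) .nil)))) (.nd (nat_lit 9) 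
(.lf (nat_lit 574877) (.g (nat_lit 3481) (.e (nat_lit 491537) (nat_lit 2) (.e (nat_lit 90170) (nat_lit 13) (.e (nat_lit 172113) (nat_lit 10) (.e (nat_lit 434247) (nat_lit 28) (.e (nat_lit 573470) (nat_lit 11) (.e (nat_lit 16470) (nat_lit 14) .nil)))))) (.g (nat_lit 1) (.e (nat_lit 362615) (nat_lit 0) .nil) .nil))) 
(.lf (nat_lit 575389) (.g (nat_lit 2208) (.e (nat_lit 491550) (nat_lit 9) (.e (nat_lit 336421) (nat_lit 28) (.e (nat_lit 434187) (nat_lit 13) (.e (nat_lit 2777) (nat_lit 178) (.e (nat_lit 286768) (nat_lit 27) (.e (nat_lit 426340) (nat_lit 14) .nil)))))) (.g (nat_lit 1) (.e (nat_lit 363246) (nat_lit 0) .nil) .nil)))))) (.nd (nat_lit 7) (.nd (nat_lit 8) (.nd (nat_lit 9) 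
(.lf (nat_lit 574557) (.g (nat_lit 2919) (.e (nat_lit 483408) (nat_lit 26) (.e (nat_lit 385068) (nat_lit 26) (.e (nat_lit 532503) (nat_lit 1) (.e (nat_lit 57931) (nat_lit 282) (.e (nat_lit 171776) (nat_lit 62) .nil))))) (.g (nat_lit 0) (.e (nat_lit 361206) (nat_lit 0) .nil) .nil))) 
(.lf (nat_lit 575069) (.g (nat_lit 4286) (.e (nat_lit 491540) (nat_lit 3) (.e (nat_lit 98359) (nat_lit 26) (.e (nat_lit 426285) (nat_lit 10) (.e (nat_lit 434238) (nat_lit 25) (.e (nat_lit 548913) (nat_lit 18) (.e (nat_lit 172126) (nat_lit 14) .nil)))))) (.g (nat_lit 1) (.e (nat_lit 362826) (nat_lit 0) .nil) .nil)))) (.nd (nat_lit 9) 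
(.lf (nat_lit 574813) (.g (nat_lit 3317) (.e (nat_lit 491537) (nat_lit 2) (.e (nat_lit 90170) (nat_lit 13) (.e (nat_lit 172106) (nat_lit 10) (.e (nat_lit 434209) (nat_lit 18) (.e (nat_lit 3966) (nat_lit 239) .nil))))) (.g (nat_lit 0) (.e (nat_lit 362551) (nat_lit 0) .nil) .nil))) 
(.lf (nat_lit 575325) (.g (nat_lit 2494) (.e (nat_lit 491548) (nat_lit 9) (.e (nat_lit 336019) (nat_lit 3) (.e (nat_lit 98389) (nat_lit 33) (.e (nat_lit 491560) (nat_lit 10) (.e (nat_lit 344108) (nat_lit 19) .nil))))) (.g (nat_lit 0) (.e (nat_lit 363122) (nat_lit 0) .nil) .nil))))) (.nd (nat_lit 8) (.nd (nat_lit 9) 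
(.lf (nat_lit 574685) (.g (nat_lit 880) (.e (nat_lit 491264) (nat_lit 27) (.e (nat_lit 401438) (nat_lit 9) (.e (nat_lit 426533) (nat_lit 28) (.e (nat_lit 344069) (nat_lit 0) .nil)))) (.g (nat_lit 0) (.e (nat_lit 362396) (nat_lit 0) .nil) .nil))) 
(.lf (nat_lit 575197) (.g (nat_lit 3245) (.e (nat_lit 491540) (nat_lit 3) (.e (nat_lit 98373) (nat_lit 29) (.e (nat_lit 450586) (nat_lit 10) (.e (nat_lit 573471) (nat_lit 11) (.e (nat_lit 24320) (nat_lit 14) .nil))))) (.g (nat_lit 0) (.e (nat_lit 362964) (nat_lit 0) .nil) .nil)))) (.nd (nat_lit 9) 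
(.lf (nat_lit 574941) (.g (nat_lit 875) (.e (nat_lit 491538) (nat_lit 3) (.e (nat_lit 98370) (nat_lit 28) (.e (nat_lit 442402) (nat_lit 20) .nil))) (.g (nat_lit 0) (.e (nat_lit 362685) (nat_lit 0) .nil) .nil))) 
(.lf (nat_lit 575453) (.g (nat_lit 1095) (.e (nat_lit 491558) (nat_lit 10) (.e (nat_lit 344176) (nat_lit 43) (.e (nat_lit 770074) (nat_lit 10) (.e (nat_lit 81927) (nat_lit 11) .nil)))) (.g (nat_lit 0) (.e (nat_lit 363326) (nat_lit 0) .nil) .nil))))))) (.nd (nat_lit 6) (.nd (nat_lit 7) (.nd (nat_lit 8) (.nd (nat_lit 9) 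
(.lf (nat_lit 574525) (.g (nat_lit 1083) (.e (nat_lit 483407) (nat_lit 26) (.e (nat_lit 385066) (nat_lit 26) (.e (nat_lit 532504) (nat_lit 1) (.e (nat_lit 57852) (nat_lit 252) .nil)))) (.g (nat_lit 0) (.e (nat_lit 361094) (nat_lit 0) .nil) .nil))) 
(.lf (nat_lit 575037) (.g (nat_lit 2465) (.e (nat_lit 491539) (nat_lit 3) (.e (nat_lit 98373) (nat_lit 29) (.e (nat_lit 450588) (nat_lit 10) (.e (nat_lit 573450) (nat_lit 9) .nil)))) (.g (nat_lit 0) (.e (nat_lit 362785) (nat_lit 0) .nil) .nil)))) (.nd (nat_lit 9) 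
(.lf (nat_lit 574781) (.g (nat_lit 2283) (.e (nat_lit 491536) (nat_lit 2) (.e (nat_lit 90170) (nat_lit 13) (.e (nat_lit 172113) (nat_lit 10) (.e (nat_lit 434248) (nat_lit 28) (.e (nat_lit 573457) (nat_lit 9) .nil))))) (.g (nat_lit 0) (.e (nat_lit 362517) (nat_lit 0) .nil) .nil))) 
(.lf (nat_lit 575293) (.g (nat_lit 1144) (.e (nat_lit 491544) (nat_lit 7) (.e (nat_lit 319490) (nat_lit 0) (.e (nat_lit 888) (nat_lit 75) .nil))) (.g (nat_lit 0) (.e (nat_lit 363063) (nat_lit 0) .nil) .nil))))) (.nd (nat_lit 8) (.nd (nat_lit 9) 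
(.lf (nat_lit 574653) (.g (nat_lit 1499) (.e (nat_lit 483413) (nat_lit 27) (.e (nat_lit 401426) (nat_lit 3) (.e (nat_lit 204830) (nat_lit 18) (.e (nat_lit 57731) (nat_lit 181) (.e (nat_lit 1190) (nat_lit 88) .nil))))) (.g (nat_lit 0) (.e (nat_lit 361969) (nat_lit 0) .nil) .nil))) 
(.lf (nat_lit 575165) (.g (nat_lit 2668) (.e (nat_lit 491540) (nat_lit 3) (.e (nat_lit 98373) (nat_lit 29) (.e (nat_lit 450583) (nat_lit 7) (.e (nat_lit 556800) (nat_lit 18) .nil)))) (.g (nat_lit 0) (.e (nat_lit 362932) (nat_lit 0) .nil) .nil)))) (.nd (nat_lit 9) 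
(.lf (nat_lit 574909) (.g (nat_lit 2942) (.e (nat_lit 491537) (nat_lit 2) (.e (nat_lit 90170) (nat_lit 13) (.e (nat_lit 172126) (nat_lit 14) (.e (nat_lit 491537) (nat_lit 2) (.e (nat_lit 90168) (nat_lit 13) .nil))))) (.g (nat_lit 0) (.e (nat_lit 362648) (nat_lit 0) .nil) .nil))) 
(.lf (nat_lit 575421) (.g (nat_lit 3020) (.e (nat_lit 491552) (nat_lit 9) (.e (nat_lit 336295) (nat_lit 15) (.e (nat_lit 3305) (nat_lit 202) (.e (nat_lit 573482) (nat_lit 13) (.e (nat_lit 65619) (nat_lit 10) .nil))))) (.g (nat_lit 0) (.e (nat_lit 363288) (nat_lit 0) .nil) .nil)))))) (.nd (nat_lit 7) (.nd (nat_lit 8) (.nd (nat_lit 9) 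
(.lf (nat_lit 574589) (.g (nat_lit 971) (.e (nat_lit 483409) (nat_lit 27) (.e (nat_lit 401459) (nat_lit 13) (.e (nat_lit 483357) (nat_lit 17) .nil))) (.g (nat_lit 0) (.e (nat_lit 361405) (nat_lit 0) .nil) .nil))) 
(.lf (nat_lit 575101) (.g (nat_lit 3186) (.e (nat_lit 491540) (nat_lit 3) (.e (nat_lit 98372) (nat_lit 29) (.e (nat_lit 450588) (nat_lit 10) (.e (nat_lit 573451) (nat_lit 9) .nil)))) (.g (nat_lit 0) (.e (nat_lit 362866) (nat_lit 0) .nil) .nil)))) (.nd (nat_lit 9) 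
(.lf (nat_lit 574845) (.g (nat_lit 2719) (.e (nat_lit 491537) (nat_lit 2) (.e (nat_lit 90170) (nat_lit 13) (.e (nat_lit 172106) (nat_lit 10) (.e (nat_lit 434244) (nat_lit 28) (.e (nat_lit 573450) (nat_lit 9) (.e (nat_lit 411) (nat_lit 32) (.e (nat_lit 426338) (nat_lit 14) .nil))))))) (.g (nat_lit 1) (.e (nat_lit 362583) (nat_lit 0) .nil) .nil))) 
(.lf (nat_lit 575357) (.g (nat_lit 3749) (.e (nat_lit 491549) (nat_lit 9) (.e (nat_lit 336430) (nat_lit 29) (.e (nat_lit 442419) (nat_lit 21) (.e (nat_lit 164348) (nat_lit 240) (.e (nat_lit 2629) (nat_lit 164) (.e (nat_lit 172126) (nat_lit 14) .nil)))))) (.g (nat_lit 1) (.e (nat_lit 363197) (nat_lit 0) .nil) .nil))))) (.nd (nat_lit 8) (.nd (nat_lit 9) 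
(.lf (nat_lit 574717) (.g (nat_lit 1885) (.e (nat_lit 491525) (nat_lit 0) (.e (nat_lit 1788) (nat_lit 119) (.e (nat_lit 516165) (nat_lit 12) (.e (nat_lit 450586) (nat_lit 10) (.e (nat_lit 573470) (nat_lit 11) .nil))))) (.g (nat_lit 0) (.e (nat_lit 362432) (nat_lit 0) .nil) .nil))) 
(.lf (nat_lit 575229) (.g (nat_lit 4084) (.e (nat_lit 491540) (nat_lit 3) (.e (nat_lit 98373) (nat_lit 29) (.e (nat_lit 450588) (nat_lit 10) (.e (nat_lit 573448) (nat_lit 9) .nil)))) (.g (nat_lit 0) (.e (nat_lit 362996) (nat_lit 0) .nil) .nil)))) (.nd (nat_lit 9) 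
(.lf (nat_lit 574973) (.g (nat_lit 1602) (.e (nat_lit 491539) (nat_lit 3) (.e (nat_lit 98359) (nat_lit 26) (.e (nat_lit 426286) (nat_lit 10) (.e (nat_lit 434245) (nat_lit 28) .nil)))) (.g (nat_lit 0) (.e (nat_lit 362719) (nat_lit 0) .nil) .nil))) 
(.lf (nat_lit 575485) (.g (nat_lit 1864) (.e (nat_lit 491560) (nat_lit 10) (.e (nat_lit 344169) (nat_lit 40) (.e (nat_lit 671764) (nat_lit 6) (.e (nat_lit 81950) (nat_lit 21) (.e (nat_lit 57931) (nat_lit 282) .nil))))) (.g (nat_lit 0) (.e (nat_lit 363360) (nat_lit 0) .nil) .nil))))))))))) 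
(.nd (nat_lit 2) (.nd (nat_lit 3) (.nd (nat_lit 4) (.nd (nat_lit 5) (.nd (nat_lit 6) 
(.nd (nat_lit 7) (.nd (nat_lit 8) (.nd (nat_lit 9) 
(.lf (nat_lit 574467) (.g (nat_lit 1898) (.e (nat_lit 483405) (nat_lit 26) (.e (nat_lit 385068) (nat_lit 26) (.e (nat_lit 532501) (nat_lit 1) (.e (nat_lit 57829) (nat_lit 250) .nil)))) (.g (nat_lit 0) (.e (nat_lit 360876) (nat_lit 0) .nil) .nil))) 
(.lf (nat_lit 574979) (.g (nat_lit 3234) (.e (nat_lit 491539) (nat_lit 3) (.e (nat_lit 98372) (nat_lit 29) (.e (nat_lit 450588) (nat_lit 10) (.e (nat_lit 573451) (nat_lit 9) .nil)))) (.g (nat_lit 0) (.e (nat_lit 362727) (nat_lit 0) .nil) .nil)))) (.nd (nat_lit 9) 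
(.lf (nat_lit 574723) (.g (nat_lit 2380) (.e (nat_lit 491526) (nat_lit 0) (.e (nat_lit 1788) (nat_lit 119) (.e (nat_lit 516151) (nat_lit 9) (.e (nat_lit 426282) (nat_lit 10) .nil)))) (.g (nat_lit 0) (.e (nat_lit 362438) (nat_lit 0) .nil) .nil))) 
(.lf (nat_lit 575235) (.g (nat_lit 2643) (.e (nat_lit 491540) (nat_lit 3) (.e (nat_lit 98373) (nat_lit 29) (.e (nat_lit 450588) (nat_lit 10) (.e (nat_lit 573451) (nat_lit 9) (.e (nat_lit 396) (nat_lit 32) .nil))))) (.g (nat_lit 0) (.e (nat_lit 363002) (nat_lit 0) .nil) .nil))))) (.nd (nat_lit 8) (.nd (nat_lit 9) 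
(.lf (nat_lit 574595) (.g (nat_lit 3158) (.e (nat_lit 483409) (nat_lit 27) (.e (nat_lit 401459) (nat_lit 13) (.e (nat_lit 483410) (nat_lit 27) (.e (nat_lit 401459) (nat_lit 13) .nil)))) (.g (nat_lit 1) (.e (nat_lit 361413) (nat_lit 0) .nil) .nil))) 
(.lf (nat_lit 575107) (.g (nat_lit 2931) (.e (nat_lit 491540) (nat_lit 3) (.e (nat_lit 98372) (nat_lit 29) (.e (nat_lit 450588) (nat_lit 10) (.e (nat_lit 573469) (nat_lit 11) .nil)))) (.g (nat_lit 0) (.e (nat_lit 362872) (nat_lit 0) .nil) .nil)))) (.nd (nat_lit 9) 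
(.lf (nat_lit 574851) (.g (nat_lit 523) (.e (nat_lit 491537) (nat_lit 2) (.e (nat_lit 90170) (nat_lit 13) (.e (nat_lit 172110) (nat_lit 10) .nil))) (.g (nat_lit 0) (.e (nat_lit 362589) (nat_lit 0) .nil) .nil))) 
(.lf (nat_lit 575363) (.g (nat_lit 3124) (.e (nat_lit 491549) (nat_lit 9) (.e (nat_lit 336434) (nat_lit 30) (.e (nat_lit 450593) (nat_lit 16) (.e (nat_lit 655378) (nat_lit 4) (.e (nat_lit 172125) (nat_lit 14) .nil))))) (.g (nat_lit 1) (.e (nat_lit 363204) (nat_lit 0) .nil) .nil)))))) (.nd (nat_lit 7) (.nd (nat_lit 8) (.nd (nat_lit 9) 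
(.lf (nat_lit 574531) (.g (nat_lit 2488) (.e (nat_lit 483407) (nat_lit 26) (.e (nat_lit 385068) (nat_lit 26) (.e (nat_lit 532503) (nat_lit 1) (.e (nat_lit 57846) (nat_lit 252) (.e (nat_lit 57407) (nat_lit 12) .nil))))) (.g (nat_lit 0) (.e (nat_lit 361102) (nat_lit 0) .nil) .nil))) 
(.lf (nat_lit 575043) (.g (nat_lit 4315) (.e (nat_lit 491539) (nat_lit 3) (.e (nat_lit 98373) (nat_lit 29) (.e (nat_lit 450588) (nat_lit 10) (.e (nat_lit 573454) (nat_lit 9) .nil)))) (.g (nat_lit 0) (.e (nat_lit 362791) (nat_lit 0) .nil) .nil)))) (.nd (nat_lit 9) 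
(.lf (nat_lit 574787) (.g (nat_lit 1655) (.e (nat_lit 491536) (nat_lit 2) (.e (nat_lit 90170) (nat_lit 13) (.e (nat_lit 172120) (nat_lit 12) (.e (nat_lit 475185) (nat_lit 29) .nil)))) (.g (nat_lit 0) (.e (nat_lit 362523) (nat_lit 0) .nil) .nil))) 
(.lf (nat_lit 575299) (.g (nat_lit 1338) (.e (nat_lit 491546) (nat_lit 9) (.e (nat_lit 336013) (nat_lit 2) (.e (nat_lit 90138) (nat_lit 9) .nil))) (.g (nat_lit 0) (.e (nat_lit 363072) (nat_lit 0) .nil) .nil))))) (.nd (nat_lit 8) (.nd (nat_lit 9) 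
(.lf (nat_lit 574659) (.g (nat_lit 570) (.e (nat_lit 483413) (nat_lit 27) (.e (nat_lit 401446) (nat_lit 10) (.e (nat_lit 434200) (nat_lit 18) .nil))) (.g (nat_lit 0) (.e (nat_lit 362041) (nat_lit 0) .nil) .nil))) 
(.lf (nat_lit 575171) (.g (nat_lit 2431) (.e (nat_lit 491540) (nat_lit 3) (.e (nat_lit 98373) (nat_lit 29) (.e (nat_lit 450585) (nat_lit 10) (.e (nat_lit 573456) (nat_lit 9) .nil)))) (.g (nat_lit 0) (.e (nat_lit 362938) (nat_lit 0) .nil) .nil)))) (.nd (nat_lit 9) 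
(.lf (nat_lit 574915) (.g (nat_lit 1216) (.e (nat_lit 491537) (nat_lit 2) (.e (nat_lit 90176) (nat_lit 15) (.e (nat_lit 188450) (nat_lit 23) (.e (nat_lit 204819) (nat_lit 17) .nil)))) (.g (nat_lit 0) (.e (nat_lit 362654) (nat_lit 0) .nil) .nil))) 
(.lf (nat_lit 575427) (.g (nat_lit 1416) (.e (nat_lit 491556) (nat_lit 9) (.e (nat_lit 336051) (nat_lit 6) (.e (nat_lit 147496) (nat_lit 11) (.e (nat_lit 24623) (nat_lit 9) .nil)))) (.g (nat_lit 0) (.e (nat_lit 363298) (nat_lit 0) .nil) .nil))))))) (.nd (nat_lit 6) (.nd (nat_lit 7) (.nd (nat_lit 8) (.nd (nat_lit 9) 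
(.lf (nat_lit 574499) (.g (nat_lit 2239) (.e (nat_lit 483406) (nat_lit 26) (.e (nat_lit 385068) (nat_lit 26) (.e (nat_lit 532501) (nat_lit 1) (.e (nat_lit 57852) (nat_lit 252) (.e (nat_lit 65280) (nat_lit 12) .nil))))) (.g (nat_lit 0) (.e (nat_lit 361031) (nat_lit 0) .nil) .nil))) 
(.lf (nat_lit 575011) (.g (nat_lit 2101) (.e (nat_lit 491539) (nat_lit 3) (.e (nat_lit 98373) (nat_lit 29) (.e (nat_lit 450586) (nat_lit 10) (.e (nat_lit 573470) (nat_lit 11) .nil)))) (.g (nat_lit 0) (.e (nat_lit 362759) (nat_lit 0) .nil) .nil)))) (.nd (nat_lit 9) 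
(.lf (nat_lit 574755) (.g (nat_lit 1667) (.e (nat_lit 491535) (nat_lit 2) (.e (nat_lit 90176) (nat_lit 15) (.e (nat_lit 188450) (nat_lit 23) (.e (nat_lit 204885) (nat_lit 33) (.e (nat_lit 409344) (nat_lit 14) .nil))))) (.g (nat_lit 0) (.e (nat_lit 362491) (nat_lit 0) .nil) .nil))) 
(.lf (nat_lit 575267) (.g (nat_lit 763) (.e (nat_lit 491540) (nat_lit 3) (.e (nat_lit 98373) (nat_lit 29) (.e (nat_lit 450589) (nat_lit 11) .nil))) (.g (nat_lit 0) (.e (nat_lit 363034) (nat_lit 0) .nil) .nil))))) (.nd (nat_lit 8) (.nd (nat_lit 9) 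
(.lf (nat_lit 574627) (.g (nat_lit 476) (.e (nat_lit 483411) (nat_lit 27) (.e (nat_lit 401434) (nat_lit 9) (.e (nat_lit 426470) (nat_lit 25) .nil))) (.g (nat_lit 0) (.e (nat_lit 361560) (nat_lit 0) .nil) .nil))) 
(.lf (nat_lit 575139) (.g (nat_lit 3193) (.e (nat_lit 491540) (nat_lit 3) (.e (nat_lit 98373) (nat_lit 29) (.e (nat_lit 450563) (nat_lit 0) (.e (nat_lit 7936) (nat_lit 239) .nil)))) (.g (nat_lit 0) (.e (nat_lit 362904) (nat_lit 0) .nil) .nil)))) (.nd (nat_lit 9) 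
(.lf (nat_lit 574883) (.g (nat_lit 2229) (.e (nat_lit 491537) (nat_lit 2) (.e (nat_lit 90170) (nat_lit 13) (.e (nat_lit 172113) (nat_lit 10) (.e (nat_lit 434248) (nat_lit 28) (.e (nat_lit 573452) (nat_lit 9) (.e (nat_lit 430) (nat_lit 32) (.e (nat_lit 433920) (nat_lit 14) .nil))))))) (.g (nat_lit 1) (.e (nat_lit 362621) (nat_lit 0) .nil) .nil))) 
(.lf (nat_lit 575395) (.g (nat_lit 1736) (.e (nat_lit 491550) (nat_lit 9) (.e (nat_lit 336421) (nat_lit 28) (.e (nat_lit 434197) (nat_lit 16) (.e (nat_lit 164337) (nat_lit 232) (.e (nat_lit 403) (nat_lit 32) (.e (nat_lit 426340) (nat_lit 14) .nil)))))) (.g (nat_lit 1) (.e (nat_lit 363252) (nat_lit 0) .nil) .nil)))))) (.nd (nat_lit 7) (.nd (nat_lit 8) (.nd (nat_lit 9) 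
(.lf (nat_lit 574563) (.g (nat_lit 1459) (.e (nat_lit 483408) (nat_lit 26) (.e (nat_lit 385091) (nat_lit 49) (.e (nat_lit 778324) (nat_lit 5) (.e (nat_lit 73781) (nat_lit 32) (.e (nat_lit 3087) (nat_lit 191) .nil))))) (.g (nat_lit 1) (.e (nat_lit 361269) (nat_lit 0) .nil) .nil))) 
(.lf (nat_lit 575075) (.g (nat_lit 2599) (.e (nat_lit 491540) (nat_lit 3) (.e (nat_lit 98365) (nat_lit 26) (.e (nat_lit 426344) (nat_lit 14) (.e (nat_lit 491526) (nat_lit 0) (.e (nat_lit 1698) (nat_lit 117) .nil))))) (.g (nat_lit 0) (.e (nat_lit 362836) (nat_lit 0) .nil) .nil)))) (.nd (nat_lit 9) 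
(.lf (nat_lit 574819) (.g (nat_lit 4122) (.e (nat_lit 491537) (nat_lit 2) (.e (nat_lit 90170) (nat_lit 13) (.e (nat_lit 172106) (nat_lit 10) (.e (nat_lit 434231) (nat_lit 23) (.e (nat_lit 532481) (nat_lit 0) (.e (nat_lit 6691) (nat_lit 357) (.e (nat_lit 3096) (nat_lit 192) .nil))))))) (.g (nat_lit 1) (.e (nat_lit 362557) (nat_lit 0) .nil) .nil))) 
(.lf (nat_lit 575331) (.g (nat_lit 1416) (.e (nat_lit 491548) (nat_lit 9) (.e (nat_lit 336369) (nat_lit 27) (.e (nat_lit 426173) (nat_lit 7) (.e (nat_lit 409616) (nat_lit 10) .nil)))) (.g (nat_lit 0) (.e (nat_lit 363131) (nat_lit 0) .nil) .nil))))) (.nd (nat_lit 8) (.nd (nat_lit 9) 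
(.lf (nat_lit 574691) (.g (nat_lit 1270) (.e (nat_lit 491264) (nat_lit 27) (.e (nat_lit 401458) (nat_lit 13) (.e (nat_lit 483350) (nat_lit 17) (.e (nat_lit 6651) (nat_lit 357) .nil)))) (.g (nat_lit 0) (.e (nat_lit 362403) (nat_lit 0) .nil) .nil))) 
(.lf (nat_lit 575203) (.g (nat_lit 3517) (.e (nat_lit 491540) (nat_lit 3) (.e (nat_lit 98373) (nat_lit 29) (.e (nat_lit 450587) (nat_lit 10) (.e (nat_lit 573449) (nat_lit 9) (.e (nat_lit 428) (nat_lit 32) .nil))))) (.g (nat_lit 0) (.e (nat_lit 362970) (nat_lit 0) .nil) .nil)))) (.nd (nat_lit 9) 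
(.lf (nat_lit 574947) (.g (nat_lit 3847) (.e (nat_lit 491538) (nat_lit 3) (.e (nat_lit 98372) (nat_lit 29) (.e (nat_lit 450588) (nat_lit 10) (.e (nat_lit 573469) (nat_lit 11) (.e (nat_lit 16473) (nat_lit 14) .nil))))) (.g (nat_lit 0) (.e (nat_lit 362691) (nat_lit 0) .nil) .nil))) 
(.lf (nat_lit 575459) (.g (nat_lit 551) (.e (nat_lit 491559) (nat_lit 10) (.e (nat_lit 344096) (nat_lit 18) (.e (nat_lit 7464) (nat_lit 396) .nil))) (.g (nat_lit 0) (.e (nat_lit 363332) (nat_lit 0) .nil) .nil)))))))) (.nd (nat_lit 5) (.nd (nat_lit 6) (.nd (nat_lit 7) (.nd (nat_lit 8) (.nd (nat_lit 9) 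
(.lf (nat_lit 574483) (.g (nat_lit 1093) (.e (nat_lit 483405) (nat_lit 26) (.e (nat_lit 385109) (nat_lit 51) (.e (nat_lit 794643) (nat_lit 20) .nil))) (.g (nat_lit 0) (.e (nat_lit 360959) (nat_lit 0) .nil) .nil))) 
(.lf (nat_lit 574995) (.g (nat_lit 2625) (.e (nat_lit 491539) (nat_lit 3) (.e (nat_lit 98373) (nat_lit 29) (.e (nat_lit 450583) (nat_lit 7) (.e (nat_lit 548902) (nat_lit 14) .nil)))) (.g (nat_lit 0) (.e (nat_lit 362743) (nat_lit 0) .nil) .nil)))) (.nd (nat_lit 9) 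
(.lf (nat_lit 574739) (.g (nat_lit 1863) (.e (nat_lit 491535) (nat_lit 2) (.e (nat_lit 90170) (nat_lit 13) (.e (nat_lit 172106) (nat_lit 10) (.e (nat_lit 434244) (nat_lit 28) (.e (nat_lit 573451) (nat_lit 9) .nil))))) (.g (nat_lit 0) (.e (nat_lit 362475) (nat_lit 0) .nil) .nil))) 
(.lf (nat_lit 575251) (.g (nat_lit 5362) (.e (nat_lit 491540) (nat_lit 3) (.e (nat_lit 98373) (nat_lit 29) (.e (nat_lit 450588) (nat_lit 10) (.e (nat_lit 573455) (nat_lit 9) .nil)))) (.g (nat_lit 0) (.e (nat_lit 363018) (nat_lit 0) .nil) .nil))))) (.nd (nat_lit 8) (.nd (nat_lit 9) 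
(.lf (nat_lit 574611) (.g (nat_lit 557) (.e (nat_lit 483410) (nat_lit 27) (.e (nat_lit 401448) (nat_lit 10) (.e (nat_lit 434290) (nat_lit 44) .nil))) (.g (nat_lit 0) (.e (nat_lit 361473) (nat_lit 0) .nil) .nil))) 
(.lf (nat_lit 575123) (.g (nat_lit 2713) (.e (nat_lit 491540) (nat_lit 3) (.e (nat_lit 98373) (nat_lit 29) (.e (nat_lit 450562) (nat_lit 0) (.e (nat_lit 3948) (nat_lit 239) .nil)))) (.g (nat_lit 0) (.e (nat_lit 362888) (nat_lit 0) .nil) .nil)))) (.nd (nat_lit 9) 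
(.lf (nat_lit 574867) (.g (nat_lit 4315) (.e (nat_lit 491537) (nat_lit 2) (.e (nat_lit 90170) (nat_lit 13) (.e (nat_lit 172113) (nat_lit 10) (.e (nat_lit 434245) (nat_lit 28) (.e (nat_lit 573450) (nat_lit 9) (.e (nat_lit 411) (nat_lit 32) (.e (nat_lit 426340) (nat_lit 14) .nil))))))) (.g (nat_lit 1) (.e (nat_lit 362605) (nat_lit 0) .nil) .nil))) 
(.lf (nat_lit 575379) (.g (nat_lit 548) (.e (nat_lit 491550) (nat_lit 9) (.e (nat_lit 336369) (nat_lit 27) (.e (nat_lit 426286) (nat_lit 10) .nil))) (.g (nat_lit 0) (.e (nat_lit 363235) (nat_lit 0) .nil) .nil)))))) (.nd (nat_lit 7) (.nd (nat_lit 8) (.nd (nat_lit 9) 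
(.lf (nat_lit 574547) (.g (nat_lit 1273) (.e (nat_lit 483408) (nat_lit 26) (.e (nat_lit 385066) (nat_lit 26) (.e (nat_lit 532504) (nat_lit 1) (.e (nat_lit 57830) (nat_lit 250) (.e (nat_lit 1004) (nat_lit 81) .nil))))) (.g (nat_lit 0) (.e (nat_lit 361171) (nat_lit 0) .nil) .nil))) 
(.lf (nat_lit 575059) (.g (nat_lit 955) (.e (nat_lit 491540) (nat_lit 3) (.e (nat_lit 98334) (nat_lit 18) (.e (nat_lit 164227) (nat_lit 181) .nil))) (.g (nat_lit 0) (.e (nat_lit 362814) (nat_lit 0) .nil) .nil)))) (.nd (nat_lit 9) 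
(.lf (nat_lit 574803) (.g (nat_lit 1173) (.e (nat_lit 491536) (nat_lit 2) (.e (nat_lit 90178) (nat_lit 15) (.e (nat_lit 188441) (nat_lit 20) (.e (nat_lit 3297) (nat_lit 202) .nil)))) (.g (nat_lit 0) (.e (nat_lit 362539) (nat_lit 0) .nil) .nil))) 
(.lf (nat_lit 575315) (.g (nat_lit 424) (.e (nat_lit 491547) (nat_lit 9) (.e (nat_lit 336414) (nat_lit 27) (.e (nat_lit 426347) (nat_lit 14) .nil))) (.g (nat_lit 0) (.e (nat_lit 363104) (nat_lit 0) .nil) .nil))))) (.nd (nat_lit 8) (.nd (nat_lit 9) 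
(.lf (nat_lit 574675) (.g (nat_lit 433) (.e (nat_lit 483413) (nat_lit 27) (.e (nat_lit 401448) (nat_lit 10) (.e (nat_lit 434202) (nat_lit 18) .nil))) (.g (nat_lit 0) (.e (nat_lit 362198) (nat_lit 0) .nil) .nil))) 
(.lf (nat_lit 575187) (.g (nat_lit 2946) (.e (nat_lit 491540) (nat_lit 3) (.e (nat_lit 98373) (nat_lit 29) (.e (nat_lit 450586) (nat_lit 10) (.e (nat_lit 573456) (nat_lit 9) (.e (nat_lit 428) (nat_lit 32) .nil))))) (.g (nat_lit 0) (.e (nat_lit 362954) (nat_lit 0) .nil) .nil)))) (.nd (nat_lit 9) 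
(.lf (nat_lit 574931) (.g (nat_lit 1885) (.e (nat_lit 499456) (nat_lit 2) (.e (nat_lit 90170) (nat_lit 13) (.e (nat_lit 172113) (nat_lit 10) (.e (nat_lit 434248) (nat_lit 28) (.e (nat_lit 573470) (nat_lit 11) .nil))))) (.g (nat_lit 0) (.e (nat_lit 362672) (nat_lit 0) .nil) .nil))) 
(.lf (nat_lit 575443) (.g (nat_lit 3807) (.e (nat_lit 491558) (nat_lit 10) (.e (nat_lit 344117) (nat_lit 21) (.e (nat_lit 516102) (nat_lit 0) (.e (nat_lit 6989) (nat_lit 377) (.e (nat_lit 2777) (nat_lit 178) (.e (nat_lit 286735) (nat_lit 3) (.e (nat_lit 98389) (nat_lit 33) .nil))))))) (.g (nat_lit 1) (.e (nat_lit 363316) (nat_lit 0) .nil) .nil))))))) 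
(.nd (nat_lit 6) (.nd (nat_lit 7) (.nd (nat_lit 8) (.nd (nat_lit 9) 
(.lf (nat_lit 574515) (.g (nat_lit 1629) (.e (nat_lit 483406) (nat_lit 26) (.e (nat_lit 385105) (nat_lit 50) (.e (nat_lit 786473) (nat_lit 27) (.e (nat_lit 343808) (nat_lit 14) .nil)))) (.g (nat_lit 0) (.e (nat_lit 361067) (nat_lit 0) .nil) .nil))) 
(.lf (nat_lit 575027) (.g (nat_lit 4935) (.e (nat_lit 491539) (nat_lit 3) (.e (nat_lit 98373) (nat_lit 29) (.e (nat_lit 450587) (nat_lit 10) (.e (nat_lit 573464) (nat_lit 9) .nil)))) (.g (nat_lit 0) (.e (nat_lit 362775) (nat_lit 0) .nil) .nil)))) (.nd (nat_lit 9) 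
(.lf (nat_lit 574771) (.g (nat_lit 3363) (.e (nat_lit 491536) (nat_lit 2) (.e (nat_lit 90170) (nat_lit 13) (.e (nat_lit 172106) (nat_lit 10) (.e (nat_lit 434244) (nat_lit 28) (.e (nat_lit 573451) (nat_lit 9) (.e (nat_lit 396) (nat_lit 32) (.e (nat_lit 426344) (nat_lit 14) .nil))))))) (.g (nat_lit 1) (.e (nat_lit 362507) (nat_lit 0) .nil) .nil))) 
(.lf (nat_lit 575283) (.g (nat_lit 2417) (.e (nat_lit 499456) (nat_lit 3) (.e (nat_lit 98373) (nat_lit 29) (.e (nat_lit 450587) (nat_lit 10) (.e (nat_lit 573457) (nat_lit 9) .nil)))) (.g (nat_lit 0) (.e (nat_lit 363050) (nat_lit 0) .nil) .nil))))) (.nd (nat_lit 8) (.nd (nat_lit 9) 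
(.lf (nat_lit 574643) (.g (nat_lit 423) (.e (nat_lit 483412) (nat_lit 27) (.e (nat_lit 401434) (nat_lit 9) (.e (nat_lit 426160) (nat_lit 6) .nil))) (.g (nat_lit 0) (.e (nat_lit 361719) (nat_lit 0) .nil) .nil))) 
(.lf (nat_lit 575155) (.g (nat_lit 2090) (.e (nat_lit 491540) (nat_lit 3) (.e (nat_lit 98373) (nat_lit 29) (.e (nat_lit 450569) (nat_lit 0) (.e (nat_lit 3962) (nat_lit 239) .nil)))) (.g (nat_lit 0) (.e (nat_lit 362922) (nat_lit 0) .nil) .nil)))) (.nd (nat_lit 9) 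
(.lf (nat_lit 574899) (.g (nat_lit 2853) (.e (nat_lit 491537) (nat_lit 2) (.e (nat_lit 90170) (nat_lit 13) (.e (nat_lit 172120) (nat_lit 12) (.e (nat_lit 475184) (nat_lit 29) (.e (nat_lit 557096) (nat_lit 13) .nil))))) (.g (nat_lit 0) (.e (nat_lit 362637) (nat_lit 0) .nil) .nil))) 
(.lf (nat_lit 575411) (.g (nat_lit 1705) (.e (nat_lit 491550) (nat_lit 9) (.e (nat_lit 336434) (nat_lit 30) (.e (nat_lit 450564) (nat_lit 0) (.e (nat_lit 5547) (nat_lit 306) (.e (nat_lit 2628) (nat_lit 164) (.e (nat_lit 172124) (nat_lit 14) .nil)))))) (.g (nat_lit 1) (.e (nat_lit 363273) (nat_lit 0) .nil) .nil)))))) (.nd (nat_lit 7) (.nd (nat_lit 8) (.nd (nat_lit 9) 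
(.lf (nat_lit 574579) (.g (nat_lit 2023) (.e (nat_lit 483409) (nat_lit 27) (.e (nat_lit 401438) (nat_lit 9) (.e (nat_lit 426533) (nat_lit 28) (.e (nat_lit 344069) (nat_lit 0) (.e (nat_lit 3089) (nat_lit 191) .nil))))) (.g (nat_lit 1) (.e (nat_lit 361342) (nat_lit 0) .nil) .nil))) 
(.lf (nat_lit 575091) (.g (nat_lit 1320) (.e (nat_lit 491540) (nat_lit 3) (.e (nat_lit 98372) (nat_lit 29) (.e (nat_lit 450586) (nat_lit 10) (.e (nat_lit 573451) (nat_lit 9) .nil)))) (.g (nat_lit 0) (.e (nat_lit 362856) (nat_lit 0) .nil) .nil)))) (.nd (nat_lit 9) 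
(.lf (nat_lit 574835) (.g (nat_lit 1924) (.e (nat_lit 491537) (nat_lit 2) (.e (nat_lit 90170) (nat_lit 13) (.e (nat_lit 172106) (nat_lit 10) (.e (nat_lit 434238) (nat_lit 25) (.e (nat_lit 548898) (nat_lit 14) .nil))))) (.g (nat_lit 0) (.e (nat_lit 362573) (nat_lit 0) .nil) .nil))) 
(.lf (nat_lit 575347) (.g (nat_lit 1775) (.e (nat_lit 491549) (nat_lit 9) (.e (nat_lit 336369) (nat_lit 27) (.e (nat_lit 426173) (nat_lit 7) (.e (nat_lit 409623) (nat_lit 10) .nil)))) (.g (nat_lit 0) (.e (nat_lit 363181) (nat_lit 0) .nil) .nil))))) (.nd (nat_lit 8) (.nd (nat_lit 9) 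
(.lf (nat_lit 574707) (.g (nat_lit 1565) (.e (nat_lit 491520) (nat_lit 0) (.e (nat_lit 1788) (nat_lit 119) (.e (nat_lit 516166) (nat_lit 12) (.e (nat_lit 450587) (nat_lit 10) .nil)))) (.g (nat_lit 0) (.e (nat_lit 362419) (nat_lit 0) .nil) .nil))) 
(.lf (nat_lit 575219) (.g (nat_lit 5175) (.e (nat_lit 491540) (nat_lit 3) (.e (nat_lit 98373) (nat_lit 29) (.e (nat_lit 450587) (nat_lit 10) (.e (nat_lit 573459) (nat_lit 9) .nil)))) (.g (nat_lit 0) (.e (nat_lit 362986) (nat_lit 0) .nil) .nil)))) (.nd (nat_lit 9) 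
(.lf (nat_lit 574963) (.g (nat_lit 2194) (.e (nat_lit 491538) (nat_lit 3) (.e (nat_lit 98373) (nat_lit 29) (.e (nat_lit 450588) (nat_lit 10) (.e (nat_lit 573449) (nat_lit 9) .nil)))) (.g (nat_lit 0) (.e (nat_lit 362707) (nat_lit 0) .nil) .nil))) 
(.lf (nat_lit 575475) (.g (nat_lit 2708) (.e (nat_lit 491560) (nat_lit 10) (.e (nat_lit 344117) (nat_lit 21) (.e (nat_lit 516185) (nat_lit 16) (.e (nat_lit 491558) (nat_lit 10) (.e (nat_lit 344107) (nat_lit 19) .nil))))) (.g (nat_lit 0) (.e (nat_lit 363349) (nat_lit 0) .nil) .nil))))))))) (.nd (nat_lit 4) (.nd (nat_lit 5) (.nd (nat_lit 6) (.nd (nat_lit 7) (.nd (nat_lit 8) (.nd (nat_lit 9) 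
(.lf (nat_lit 574475) (.g (nat_lit 219) (.e (nat_lit 483405) (nat_lit 26) (.e (nat_lit 385092) (nat_lit 49) (.e (nat_lit 778320) (nat_lit 4) .nil))) (.g (nat_lit 0) (.e (nat_lit 360914) (nat_lit 0) .nil) .nil))) 
(.lf (nat_lit 574987) (.g (nat_lit 3153) (.e (nat_lit 491539) (nat_lit 3) (.e (nat_lit 98373) (nat_lit 29) (.e (nat_lit 450562) (nat_lit 0) (.e (nat_lit 4290) (nat_lit 254) .nil)))) (.g (nat_lit 0) (.e (nat_lit 362735) (nat_lit 0) .nil) .nil)))) (.nd (nat_lit 9) 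
(.lf (nat_lit 574731) (.g (nat_lit 2774) (.e (nat_lit 491526) (nat_lit 0) (.e (nat_lit 1788) (nat_lit 119) (.e (nat_lit 516166) (nat_lit 12) (.e (nat_lit 450587) (nat_lit 10) (.e (nat_lit 581376) (nat_lit 11) .nil))))) (.g (nat_lit 0) (.e (nat_lit 362446) (nat_lit 0) .nil) .nil))) 
(.lf (nat_lit 575243) (.g (nat_lit 3823) (.e (nat_lit 491540) (nat_lit 3) (.e (nat_lit 98373) (nat_lit 29) (.e (nat_lit 450588) (nat_lit 10) (.e (nat_lit 573452) (nat_lit 9) (.e (nat_lit 430) (nat_lit 32) (.e (nat_lit 426341) (nat_lit 14) .nil)))))) (.g (nat_lit 1) (.e (nat_lit 363010) (nat_lit 0) .nil) .nil))))) (.nd (nat_lit 8) (.nd (nat_lit 9) 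
(.lf (nat_lit 574603) (.g (nat_lit 2775) (.e (nat_lit 483410) (nat_lit 27) (.e (nat_lit 401438) (nat_lit 9) (.e (nat_lit 426509) (nat_lit 27) (.e (nat_lit 336228) (nat_lit 14) (.e (nat_lit 401457) (nat_lit 13) .nil))))) (.g (nat_lit 1) (.e (nat_lit 361439) (nat_lit 0) .nil) .nil))) 
(.lf (nat_lit 575115) (.g (nat_lit 1636) (.e (nat_lit 491540) (nat_lit 3) (.e (nat_lit 98373) (nat_lit 29) (.e (nat_lit 450560) (nat_lit 0) (.e (nat_lit 3991) (nat_lit 239) .nil)))) (.g (nat_lit 0) (.e (nat_lit 362880) (nat_lit 0) .nil) .nil)))) (.nd (nat_lit 9) 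
(.lf (nat_lit 574859) (.g (nat_lit 1247) (.e (nat_lit 491537) (nat_lit 2) (.e (nat_lit 90170) (nat_lit 13) (.e (nat_lit 172113) (nat_lit 10) (.e (nat_lit 434242) (nat_lit 28) (.e (nat_lit 573456) (nat_lit 9) .nil))))) (.g (nat_lit 0) (.e (nat_lit 362597) (nat_lit 0) .nil) .nil))) 
(.lf (nat_lit 575371) (.g (nat_lit 4128) (.e (nat_lit 491550) (nat_lit 9) (.e (nat_lit 336306) (nat_lit 15) (.e (nat_lit 3308) (nat_lit 202) (.e (nat_lit 573493) (nat_lit 15) (.e (nat_lit 81951) (nat_lit 22) (.e (nat_lit 90134) (nat_lit 9) (.e (nat_lit 3098) (nat_lit 192) .nil))))))) (.g (nat_lit 1) (.e (nat_lit 363223) (nat_lit 0) .nil) .nil)))))) 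
(.nd (nat_lit 7) (.nd (nat_lit 8) (.nd (nat_lit 9) 
(.lf (nat_lit 574539) (.g (nat_lit 1140) (.e (nat_lit 483407) (nat_lit 26) (.e (nat_lit 385094) (nat_lit 49) (.e (nat_lit 778323) (nat_lit 5) (.e (nat_lit 81664) (nat_lit 32) .nil)))) (.g (nat_lit 0) (.e (nat_lit 361129) (nat_lit 0) .nil) .nil))) 
(.lf (nat_lit 575051) (.g (nat_lit 5910) (.e (nat_lit 491539) (nat_lit 3) (.e (nat_lit 98373) (nat_lit 29) (.e (nat_lit 450588) (nat_lit 10) (.e (nat_lit 573463) (nat_lit 9) .nil)))) (.g (nat_lit 0) (.e (nat_lit 362799) (nat_lit 0) .nil) .nil)))) (.nd (nat_lit 9) 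
(.lf (nat_lit 574795) (.g (nat_lit 2645) (.e (nat_lit 491536) (nat_lit 2) (.e (nat_lit 90177) (nat_lit 15) (.e (nat_lit 188452) (nat_lit 23) (.e (nat_lit 204884) (nat_lit 33) .nil)))) (.g (nat_lit 0) (.e (nat_lit 362531) (nat_lit 0) .nil) .nil))) 
(.lf (nat_lit 575307) (.g (nat_lit 1628) (.e (nat_lit 491546) (nat_lit 9) (.e (nat_lit 336282) (nat_lit 15) (.e (nat_lit 3305) (nat_lit 202) (.e (nat_lit 573491) (nat_lit 15) (.e (nat_lit 81954) (nat_lit 23) .nil))))) (.g (nat_lit 0) (.e (nat_lit 363083) (nat_lit 0) .nil) .nil))))) (.nd (nat_lit 8) (.nd (nat_lit 9) 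
(.lf (nat_lit 574667) (.g (nat_lit 445) (.e (nat_lit 483413) (nat_lit 27) (.e (nat_lit 401447) (nat_lit 10) (.e (nat_lit 434203) (nat_lit 18) .nil))) (.g (nat_lit 0) (.e (nat_lit 362140) (nat_lit 0) .nil) .nil))) 
(.lf (nat_lit 575179) (.g (nat_lit 2363) (.e (nat_lit 491540) (nat_lit 3) (.e (nat_lit 98373) (nat_lit 29) (.e (nat_lit 450586) (nat_lit 10) (.e (nat_lit 573449) (nat_lit 9) .nil)))) (.g (nat_lit 0) (.e (nat_lit 362946) (nat_lit 0) .nil) .nil)))) (.nd (nat_lit 9) 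
(.lf (nat_lit 574923) (.g (nat_lit 639) (.e (nat_lit 491537) (nat_lit 2) (.e (nat_lit 90178) (nat_lit 15) (.e (nat_lit 188449) (nat_lit 22) .nil))) (.g (nat_lit 0) (.e (nat_lit 362662) (nat_lit 0) .nil) .nil))) 
(.lf (nat_lit 575435) (.g (nat_lit 2201) (.e (nat_lit 491558) (nat_lit 10) (.e (nat_lit 344115) (nat_lit 20) (.e (nat_lit 507907) (nat_lit 0) (.e (nat_lit 5403) (nat_lit 302) (.e (nat_lit 65577) (nat_lit 5) (.e (nat_lit 139289) (nat_lit 9) (.e (nat_lit 3102) (nat_lit 192) .nil))))))) (.g (nat_lit 1) (.e (nat_lit 363308) (nat_lit 0) .nil) .nil))))))) 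
(.nd (nat_lit 6) (.nd (nat_lit 7) (.nd (nat_lit 8) (.nd (nat_lit 9) 
(.lf (nat_lit 574507) (.g (nat_lit 2274) (.e (nat_lit 483406) (nat_lit 26) (.e (nat_lit 385091) (nat_lit 49) (.e (nat_lit 778324) (nat_lit 5) (.e (nat_lit 73781) (nat_lit 32) (.e (nat_lit 3089) (nat_lit 191) .nil))))) (.g (nat_lit 1) (.e (nat_lit 361056) (nat_lit 0) .nil) .nil))) 
(.lf (nat_lit 575019) (.g (nat_lit 4081) (.e (nat_lit 491539) (nat_lit 3) (.e (nat_lit 98373) (nat_lit 29) (.e (nat_lit 450587) (nat_lit 10) (.e (nat_lit 573455) (nat_lit 9) .nil)))) (.g (nat_lit 0) (.e (nat_lit 362767) (nat_lit 0) .nil) .nil)))) (.nd (nat_lit 9) 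
(.lf (nat_lit 574763) (.g (nat_lit 1301) (.e (nat_lit 491536) (nat_lit 2) (.e (nat_lit 90167) (nat_lit 13) (.e (nat_lit 172126) (nat_lit 14) (.e (nat_lit 491538) (nat_lit 3) .nil)))) (.g (nat_lit 0) (.e (nat_lit 362499) (nat_lit 0) .nil) .nil))) 
(.lf (nat_lit 575275) (.g (nat_lit 1195) (.e (nat_lit 499456) (nat_lit 3) (.e (nat_lit 98372) (nat_lit 29) (.e (nat_lit 450586) (nat_lit 10) (.e (nat_lit 573470) (nat_lit 11) .nil)))) (.g (nat_lit 0) (.e (nat_lit 363042) (nat_lit 0) .nil) .nil))))) (.nd (nat_lit 8) (.nd (nat_lit 9) 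
(.lf (nat_lit 574635) (.g (nat_lit 2973) (.e (nat_lit 483411) (nat_lit 27) (.e (nat_lit 401444) (nat_lit 9) (.e (nat_lit 426532) (nat_lit 28) (.e (nat_lit 344069) (nat_lit 0) (.e (nat_lit 3090) (nat_lit 191) .nil))))) (.g (nat_lit 1) (.e (nat_lit 361577) (nat_lit 0) .nil) .nil))) 
(.lf (nat_lit 575147) (.g (nat_lit 704) (.e (nat_lit 491540) (nat_lit 3) (.e (nat_lit 98373) (nat_lit 29) (.e (nat_lit 450566) (nat_lit 0) .nil))) (.g (nat_lit 0) (.e (nat_lit 362913) (nat_lit 0) .nil) .nil)))) (.nd (nat_lit 9) 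
(.lf (nat_lit 574891) (.g (nat_lit 1184) (.e (nat_lit 491537) (nat_lit 2) (.e (nat_lit 90170) (nat_lit 13) (.e (nat_lit 172115) (nat_lit 10) (.e (nat_lit 434231) (nat_lit 23) .nil)))) (.g (nat_lit 0) (.e (nat_lit 362629) (nat_lit 0) .nil) .nil))) 
(.lf (nat_lit 575403) (.g (nat_lit 2060) (.e (nat_lit 491550) (nat_lit 9) (.e (nat_lit 336430) (nat_lit 29) (.e (nat_lit 442419) (nat_lit 21) (.e (nat_lit 164348) (nat_lit 240) (.e (nat_lit 2618) (nat_lit 164) .nil))))) (.g (nat_lit 0) (.e (nat_lit 363262) (nat_lit 0) .nil) .nil)))))) (.nd (nat_lit 7) (.nd (nat_lit 8) (.nd (nat_lit 9) 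
(.lf (nat_lit 574571) (.g (nat_lit 2110) (.e (nat_lit 491264) (nat_lit 26) (.e (nat_lit 385068) (nat_lit 26) (.e (nat_lit 532501) (nat_lit 1) (.e (nat_lit 57851) (nat_lit 252) (.e (nat_lit 57406) (nat_lit 12) .nil))))) (.g (nat_lit 0) (.e (nat_lit 361324) (nat_lit 0) .nil) .nil))) 
(.lf (nat_lit 575083) (.g (nat_lit 1435) (.e (nat_lit 491540) (nat_lit 3) (.e (nat_lit 98370) (nat_lit 28) (.e (nat_lit 442430) (nat_lit 24) (.e (nat_lit 237312) (nat_lit 134) .nil)))) (.g (nat_lit 0) (.e (nat_lit 362848) (nat_lit 0) .nil) .nil)))) (.nd (nat_lit 9) 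
(.lf (nat_lit 574827) (.g (nat_lit 4079) (.e (nat_lit 491537) (nat_lit 2) (.e (nat_lit 90170) (nat_lit 13) (.e (nat_lit 172106) (nat_lit 10) (.e (nat_lit 434231) (nat_lit 23) (.e (nat_lit 532483) (nat_lit 0) (.e (nat_lit 6650) (nat_lit 357) (.e (nat_lit 3096) (nat_lit 192) .nil))))))) (.g (nat_lit 1) (.e (nat_lit 362565) (nat_lit 0) .nil) .nil))) 
(.lf (nat_lit 575339) (.g (nat_lit 2905) (.e (nat_lit 491548) (nat_lit 9) (.e (nat_lit 336430) (nat_lit 29) (.e (nat_lit 442402) (nat_lit 20) (.e (nat_lit 3409) (nat_lit 212) (.e (nat_lit 655378) (nat_lit 4) (.e (nat_lit 172126) (nat_lit 14) .nil)))))) (.g (nat_lit 1) (.e (nat_lit 363145) (nat_lit 0) .nil) .nil))))) (.nd (nat_lit 8) (.nd (nat_lit 9) 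
(.lf (nat_lit 574699) (.g (nat_lit 1964) (.e (nat_lit 491520) (nat_lit 0) (.e (nat_lit 1788) (nat_lit 119) (.e (nat_lit 516151) (nat_lit 9) (.e (nat_lit 426286) (nat_lit 10) (.e (nat_lit 434245) (nat_lit 28) .nil))))) (.g (nat_lit 0) (.e (nat_lit 362411) (nat_lit 0) .nil) .nil))) 
(.lf (nat_lit 575211) (.g (nat_lit 3595) (.e (nat_lit 491540) (nat_lit 3) (.e (nat_lit 98373) (nat_lit 29) (.e (nat_lit 450587) (nat_lit 10) (.e (nat_lit 573454) (nat_lit 9) (.e (nat_lit 380) (nat_lit 32) (.e (nat_lit 426337) (nat_lit 14) .nil)))))) (.g (nat_lit 1) (.e (nat_lit 362978) (nat_lit 0) .nil) .nil)))) (.nd (nat_lit 9) 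
(.lf (nat_lit 574955) (.g (nat_lit 1549) (.e (nat_lit 491538) (nat_lit 3) (.e (nat_lit 98373) (nat_lit 29) (.e (nat_lit 450586) (nat_lit 10) (.e (nat_lit 573457) (nat_lit 9) .nil)))) (.g (nat_lit 0) (.e (nat_lit 362699) (nat_lit 0) .nil) .nil))) 
(.lf (nat_lit 575467) (.g (nat_lit 4022) (.e (nat_lit 491560) (nat_lit 10) (.e (nat_lit 344115) (nat_lit 20) (.e (nat_lit 507923) (nat_lit 6) (.e (nat_lit 286747) (nat_lit 9) (.e (nat_lit 336013) (nat_lit 2) (.e (nat_lit 90121) (nat_lit 9) (.e (nat_lit 3102) (nat_lit 192) .nil))))))) (.g (nat_lit 1) (.e (nat_lit 363340) (nat_lit 0) .nil) .nil)))))))) 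
(.nd (nat_lit 5) (.nd (nat_lit 6) (.nd (nat_lit 7) (.nd (nat_lit 8) (.nd (nat_lit 9) 
(.lf (nat_lit 574491) (.g (nat_lit 2187) (.e (nat_lit 483406) (nat_lit 26) (.e (nat_lit 385066) (nat_lit 26) (.e (nat_lit 532499) (nat_lit 1) (.e (nat_lit 57856) (nat_lit 253) .nil)))) (.g (nat_lit 0) (.e (nat_lit 361001) (nat_lit 0) .nil) .nil))) 
(.lf (nat_lit 575003) (.g (nat_lit 3119) (.e (nat_lit 491539) (nat_lit 3) (.e (nat_lit 98373) (nat_lit 29) (.e (nat_lit 450585) (nat_lit 10) (.e (nat_lit 573470) (nat_lit 11) (.e (nat_lit 16472) (nat_lit 14) .nil))))) (.g (nat_lit 0) (.e (nat_lit 362751) (nat_lit 0) .nil) .nil)))) (.nd (nat_lit 9) 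
(.lf (nat_lit 574747) (.g (nat_lit 2307) (.e (nat_lit 491535) (nat_lit 2) (.e (nat_lit 90170) (nat_lit 13) (.e (nat_lit 172113) (nat_lit 10) (.e (nat_lit 434248) (nat_lit 28) (.e (nat_lit 573457) (nat_lit 9) (.e (nat_lit 430) (nat_lit 32) (.e (nat_lit 426343) (nat_lit 14) .nil))))))) (.g (nat_lit 1) (.e (nat_lit 362483) (nat_lit 0) .nil) .nil))) 
(.lf (nat_lit 575259) (.g (nat_lit 5710) (.e (nat_lit 491540) (nat_lit 3) (.e (nat_lit 98373) (nat_lit 29) (.e (nat_lit 450588) (nat_lit 10) (.e (nat_lit 573462) (nat_lit 9) .nil)))) (.g (nat_lit 0) (.e (nat_lit 363026) (nat_lit 0) .nil) .nil))))) (.nd (nat_lit 8) (.nd (nat_lit 9) 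
(.lf (nat_lit 574619) (.g (nat_lit 2570) (.e (nat_lit 483410) (nat_lit 27) (.e (nat_lit 401459) (nat_lit 13) (.e (nat_lit 483409) (nat_lit 27) (.e (nat_lit 401458) (nat_lit 13) .nil)))) (.g (nat_lit 1) (.e (nat_lit 361549) (nat_lit 0) .nil) .nil))) 
(.lf (nat_lit 575131) (.g (nat_lit 2496) (.e (nat_lit 491540) (nat_lit 3) (.e (nat_lit 98373) (nat_lit 29) (.e (nat_lit 450562) (nat_lit 0) (.e (nat_lit 7936) (nat_lit 239) .nil)))) (.g (nat_lit 0) (.e (nat_lit 362896) (nat_lit 0) .nil) .nil)))) (.nd (nat_lit 9) 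
(.lf (nat_lit 574875) (.g (nat_lit 3229) (.e (nat_lit 491537) (nat_lit 2) (.e (nat_lit 90170) (nat_lit 13) (.e (nat_lit 172113) (nat_lit 10) (.e (nat_lit 434247) (nat_lit 28) (.e (nat_lit 573457) (nat_lit 9) (.e (nat_lit 428) (nat_lit 32) (.e (nat_lit 426347) (nat_lit 14) .nil))))))) (.g (nat_lit 1) (.e (nat_lit 362613) (nat_lit 0) .nil) .nil))) 
(.lf (nat_lit 575387) (.g (nat_lit 1161) (.e (nat_lit 491550) (nat_lit 9) (.e (nat_lit 336421) (nat_lit 28) (.e (nat_lit 434180) (nat_lit 0) (.e (nat_lit 1661) (nat_lit 115) (.e (nat_lit 401152) (nat_lit 27) .nil))))) (.g (nat_lit 0) (.e (nat_lit 363244) (nat_lit 0) .nil) .nil)))))) (.nd (nat_lit 7) (.nd (nat_lit 8) (.nd (nat_lit 9) 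
(.lf (nat_lit 574555) (.g (nat_lit 2059) (.e (nat_lit 483408) (nat_lit 26) (.e (nat_lit 385068) (nat_lit 26) (.e (nat_lit 532503) (nat_lit 1) (.e (nat_lit 57822) (nat_lit 250) .nil)))) (.g (nat_lit 0) (.e (nat_lit 361204) (nat_lit 0) .nil) .nil))) 
(.lf (nat_lit 575067) (.g (nat_lit 766) (.e (nat_lit 491540) (nat_lit 3) (.e (nat_lit 98359) (nat_lit 26) (.e (nat_lit 426166) (nat_lit 7) .nil))) (.g (nat_lit 0) (.e (nat_lit 362824) (nat_lit 0) .nil) .nil)))) (.nd (nat_lit 9) 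
(.lf (nat_lit 574811) (.g (nat_lit 2608) (.e (nat_lit 491537) (nat_lit 2) (.e (nat_lit 90170) (nat_lit 13) (.e (nat_lit 172106) (nat_lit 10) (.e (nat_lit 434201) (nat_lit 18) (.e (nat_lit 3988) (nat_lit 239) .nil))))) (.g (nat_lit 0) (.e (nat_lit 362549) (nat_lit 0) .nil) .nil))) 
(.lf (nat_lit 575323) (.g (nat_lit 751) (.e (nat_lit 491547) (nat_lit 9) (.e (nat_lit 336454) (nat_lit 34) (.e (nat_lit 483365) (nat_lit 18) .nil))) (.g (nat_lit 0) (.e (nat_lit 363119) (nat_lit 0) .nil) .nil))))) (.nd (nat_lit 8) (.nd (nat_lit 9) 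
(.lf (nat_lit 574683) (.g (nat_lit 1538) (.e (nat_lit 491264) (nat_lit 27) (.e (nat_lit 401437) (nat_lit 9) (.e (nat_lit 426533) (nat_lit 28) (.e (nat_lit 344069) (nat_lit 0) (.e (nat_lit 3088) (nat_lit 191) .nil))))) (.g (nat_lit 0) (.e (nat_lit 362394) (nat_lit 0) .nil) .nil))) 
(.lf (nat_lit 575195) (.g (nat_lit 2084) (.e (nat_lit 491540) (nat_lit 3) (.e (nat_lit 98373) (nat_lit 29) (.e (nat_lit 450586) (nat_lit 10) (.e (nat_lit 573470) (nat_lit 11) .nil)))) (.g (nat_lit 0) (.e (nat_lit 362962) (nat_lit 0) .nil) .nil)))) (.nd (nat_lit 9) 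
(.lf (nat_lit 574939) (.g (nat_lit 2208) (.e (nat_lit 491538) (nat_lit 3) (.e (nat_lit 98359) (nat_lit 26) (.e (nat_lit 426286) (nat_lit 10) (.e (nat_lit 434248) (nat_lit 28) (.e (nat_lit 573457) (nat_lit 9) .nil))))) (.g (nat_lit 0) (.e (nat_lit 362682) (nat_lit 0) .nil) .nil))) 
(.lf (nat_lit 575451) (.g (nat_lit 1598) (.e (nat_lit 491558) (nat_lit 10) (.e (nat_lit 344169) (nat_lit 40) (.e (nat_lit 671762) (nat_lit 4) (.e (nat_lit 65617) (nat_lit 10) .nil)))) (.g (nat_lit 0) (.e (nat_lit 363324) (nat_lit 0) .nil) .nil))))))) (.nd (nat_lit 6) (.nd (nat_lit 7) (.nd (nat_lit 8) (.nd (nat_lit 9) 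
(.lf (nat_lit 574523) (.g (nat_lit 1437) (.e (nat_lit 483407) (nat_lit 26) (.e (nat_lit 385066) (nat_lit 26) (.e (nat_lit 532501) (nat_lit 1) (.e (nat_lit 57852) (nat_lit 252) (.e (nat_lit 65280) (nat_lit 12) .nil))))) (.g (nat_lit 0) (.e (nat_lit 361090) (nat_lit 0) .nil) .nil))) 
(.lf (nat_lit 575035) (.g (nat_lit 5192) (.e (nat_lit 491539) (nat_lit 3) (.e (nat_lit 98373) (nat_lit 29) (.e (nat_lit 450588) (nat_lit 10) (.e (nat_lit 573449) (nat_lit 9) (.e (nat_lit 430) (nat_lit 32) .nil))))) (.g (nat_lit 0) (.e (nat_lit 362783) (nat_lit 0) .nil) .nil)))) (.nd (nat_lit 9) 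
(.lf (nat_lit 574779) (.g (nat_lit 4147) (.e (nat_lit 491536) (nat_lit 2) (.e (nat_lit 90170) (nat_lit 13) (.e (nat_lit 172113) (nat_lit 10) (.e (nat_lit 434245) (nat_lit 28) (.e (nat_lit 573471) (nat_lit 11) (.e (nat_lit 16472) (nat_lit 14) .nil)))))) (.g (nat_lit 1) (.e (nat_lit 362515) (nat_lit 0) .nil) .nil))) 
(.lf (nat_lit 575291) (.g (nat_lit 2919) (.e (nat_lit 499456) (nat_lit 3) (.e (nat_lit 98373) (nat_lit 29) (.e (nat_lit 450588) (nat_lit 10) (.e (nat_lit 573471) (nat_lit 11) (.e (nat_lit 16471) (nat_lit 14) .nil))))) (.g (nat_lit 0) (.e (nat_lit 363058) (nat_lit 0) .nil) .nil))))) (.nd (nat_lit 8) (.nd (nat_lit 9) 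
(.lf (nat_lit 574651) (.g (nat_lit 370) (.e (nat_lit 483413) (nat_lit 27) (.e (nat_lit 401414) (nat_lit 0) (.e (nat_lit 3238) (nat_lit 197) .nil))) (.g (nat_lit 0) (.e (nat_lit 361950) (nat_lit 0) .nil) .nil))) 
(.lf (nat_lit 575163) (.g (nat_lit 3133) (.e (nat_lit 491540) (nat_lit 3) (.e (nat_lit 98373) (nat_lit 29) (.e (nat_lit 450583) (nat_lit 7) (.e (nat_lit 548911) (nat_lit 18) (.e (nat_lit 172126) (nat_lit 14) .nil))))) (.g (nat_lit 1) (.e (nat_lit 362930) (nat_lit 0) .nil) .nil)))) (.nd (nat_lit 9) 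
(.lf (nat_lit 574907) (.g (nat_lit 3046) (.e (nat_lit 491537) (nat_lit 2) (.e (nat_lit 90170) (nat_lit 13) (.e (nat_lit 172126) (nat_lit 14) (.e (nat_lit 491537) (nat_lit 2) (.e (nat_lit 90125) (nat_lit 9) .nil))))) (.g (nat_lit 0) (.e (nat_lit 362646) (nat_lit 0) .nil) .nil))) 
(.lf (nat_lit 575419) (.g (nat_lit 3540) (.e (nat_lit 491550) (nat_lit 9) (.e (nat_lit 336443) (nat_lit 32) (.e (nat_lit 466982) (nat_lit 24) (.e (nat_lit 229663) (nat_lit 240) (.e (nat_lit 2630) (nat_lit 164) (.e (nat_lit 172124) (nat_lit 14) .nil)))))) (.g (nat_lit 1) (.e (nat_lit 363285) (nat_lit 0) .nil) .nil)))))) (.nd (nat_lit 7) (.nd (nat_lit 8) (.nd (nat_lit 9) 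
(.lf (nat_lit 574587) (.g (nat_lit 2231) (.e (nat_lit 483409) (nat_lit 27) (.e (nat_lit 401459) (nat_lit 13) (.e (nat_lit 483354) (nat_lit 17) (.e (nat_lit 6676) (nat_lit 357) (.e (nat_lit 3089) (nat_lit 191) .nil))))) (.g (nat_lit 1) (.e (nat_lit 361402) (nat_lit 0) .nil) .nil))) 
(.lf (nat_lit 575099) (.g (nat_lit 3321) (.e (nat_lit 491540) (nat_lit 3) (.e (nat_lit 98372) (nat_lit 29) (.e (nat_lit 450588) (nat_lit 10) (.e (nat_lit 573450) (nat_lit 9) (.e (nat_lit 411) (nat_lit 32) .nil))))) (.g (nat_lit 0) (.e (nat_lit 362864) (nat_lit 0) .nil) .nil)))) (.nd (nat_lit 9) 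
(.lf (nat_lit 574843) (.g (nat_lit 2066) (.e (nat_lit 491537) (nat_lit 2) (.e (nat_lit 90170) (nat_lit 13) (.e (nat_lit 172106) (nat_lit 10) (.e (nat_lit 434244) (nat_lit 28) (.e (nat_lit 573450) (nat_lit 9) .nil))))) (.g (nat_lit 0) (.e (nat_lit 362581) (nat_lit 0) .nil) .nil))) 
(.lf (nat_lit 575355) (.g (nat_lit 3020) (.e (nat_lit 491549) (nat_lit 9) (.e (nat_lit 336430) (nat_lit 29) (.e (nat_lit 442409) (nat_lit 20) (.e (nat_lit 3409) (nat_lit 212) (.e (nat_lit 655378) (nat_lit 4) (.e (nat_lit 172124) (nat_lit 14) .nil)))))) (.g (nat_lit 1) (.e (nat_lit 363195) (nat_lit 0) .nil) .nil))))) (.nd (nat_lit 8) (.nd (nat_lit 9) 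
(.lf (nat_lit 574715) (.g (nat_lit 3122) (.e (nat_lit 491525) (nat_lit 0) (.e (nat_lit 1788) (nat_lit 119) (.e (nat_lit 516151) (nat_lit 9) (.e (nat_lit 426282) (nat_lit 10) (.e (nat_lit 434248) (nat_lit 28) .nil))))) (.g (nat_lit 0) (.e (nat_lit 362430) (nat_lit 0) .nil) .nil))) 
(.lf (nat_lit 575227) (.g (nat_lit 2784) (.e (nat_lit 491540) (nat_lit 3) (.e (nat_lit 98373) (nat_lit 29) (.e (nat_lit 450587) (nat_lit 10) (.e (nat_lit 573471) (nat_lit 11) (.e (nat_lit 24320) (nat_lit 14) .nil))))) (.g (nat_lit 0) (.e (nat_lit 362994) (nat_lit 0) .nil) .nil)))) (.nd (nat_lit 9) 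
(.lf (nat_lit 574971) (.g (nat_lit 1245) (.e (nat_lit 491539) (nat_lit 3) (.e (nat_lit 98358) (nat_lit 26) (.e (nat_lit 426272) (nat_lit 10) .nil))) (.g (nat_lit 0) (.e (nat_lit 362716) (nat_lit 0) .nil) .nil))) 
(.lf (nat_lit 575483) (.g (nat_lit 2701) (.e (nat_lit 491560) (nat_lit 10) (.e (nat_lit 344132) (nat_lit 26) (.e (nat_lit 557085) (nat_lit 11) (.e (nat_lit 24627) (nat_lit 9) (.e (nat_lit 336019) (nat_lit 3) .nil))))) (.g (nat_lit 0) (.e (nat_lit 363357) (nat_lit 0) .nil) .nil)))))))))) 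
(.nd (nat_lit 3) (.nd (nat_lit 4) (.nd (nat_lit 5) (.nd (nat_lit 6) (.nd (nat_lit 7) 
(.nd (nat_lit 8) (.nd (nat_lit 9) 
(.lf (nat_lit 574471) (.g (nat_lit 2496) (.e (nat_lit 483405) (nat_lit 26) (.e (nat_lit 385068) (nat_lit 26) (.e (nat_lit 532501) (nat_lit 1) (.e (nat_lit 57852) (nat_lit 252) (.e (nat_lit 57406) (nat_lit 12) .nil))))) (.g (nat_lit 0) (.e (nat_lit 360886) (nat_lit 0) .nil) .nil))) 
(.lf (nat_lit 574983) (.g (nat_lit 2216) (.e (nat_lit 491539) (nat_lit 3) (.e (nat_lit 98372) (nat_lit 29) (.e (nat_lit 450588) (nat_lit 10) (.e (nat_lit 573470) (nat_lit 11) .nil)))) (.g (nat_lit 0) (.e (nat_lit 362731) (nat_lit 0) .nil) .nil)))) (.nd (nat_lit 9) 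
(.lf (nat_lit 574727) (.g (nat_lit 2320) (.e (nat_lit 491526) (nat_lit 0) (.e (nat_lit 1788) (nat_lit 119) (.e (nat_lit 516165) (nat_lit 12) (.e (nat_lit 450587) (nat_lit 10) (.e (nat_lit 573456) (nat_lit 9) (.e (nat_lit 430) (nat_lit 32) (.e (nat_lit 426344) (nat_lit 14) .nil))))))) (.g (nat_lit 1) (.e (nat_lit 362442) (nat_lit 0) .nil) .nil))) 
(.lf (nat_lit 575239) (.g (nat_lit 3021) (.e (nat_lit 491540) (nat_lit 3) (.e (nat_lit 98373) (nat_lit 29) (.e (nat_lit 450588) (nat_lit 10) (.e (nat_lit 573451) (nat_lit 9) (.e (nat_lit 7936) (nat_lit 32) (.e (nat_lit 426347) (nat_lit 14) .nil)))))) (.g (nat_lit 1) (.e (nat_lit 363006) (nat_lit 0) .nil) .nil))))) (.nd (nat_lit 8) (.nd (nat_lit 9) 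
(.lf (nat_lit 574599) (.g (nat_lit 640) (.e (nat_lit 483410) (nat_lit 27) (.e (nat_lit 401435) (nat_lit 9) (.e (nat_lit 426530) (nat_lit 27) .nil))) (.g (nat_lit 0) (.e (nat_lit 361424) (nat_lit 0) .nil) .nil))) 
(.lf (nat_lit 575111) (.g (nat_lit 3474) (.e (nat_lit 491540) (nat_lit 3) (.e (nat_lit 98372) (nat_lit 29) (.e (nat_lit 450588) (nat_lit 10) (.e (nat_lit 573470) (nat_lit 11) (.e (nat_lit 16469) (nat_lit 14) .nil))))) (.g (nat_lit 0) (.e (nat_lit 362876) (nat_lit 0) .nil) .nil)))) (.nd (nat_lit 9) 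
(.lf (nat_lit 574855) (.g (nat_lit 1828) (.e (nat_lit 491537) (nat_lit 2) (.e (nat_lit 90170) (nat_lit 13) (.e (nat_lit 172113) (nat_lit 10) (.e (nat_lit 434238) (nat_lit 25) (.e (nat_lit 556800) (nat_lit 14) .nil))))) (.g (nat_lit 0) (.e (nat_lit 362593) (nat_lit 0) .nil) .nil))) 
(.lf (nat_lit 575367) (.g (nat_lit 3508) (.e (nat_lit 491549) (nat_lit 9) (.e (nat_lit 336443) (nat_lit 32) (.e (nat_lit 466971) (nat_lit 21) (.e (nat_lit 164348) (nat_lit 240) (.e (nat_lit 2629) (nat_lit 164) (.e (nat_lit 172126) (nat_lit 14) .nil)))))) (.g (nat_lit 1) (.e (nat_lit 363208) (nat_lit 0) .nil) .nil)))))) (.nd (nat_lit 7) (.nd (nat_lit 8) (.nd (nat_lit 9) 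
(.lf (nat_lit 574535) (.g (nat_lit 1270) (.e (nat_lit 483407) (nat_lit 26) (.e (nat_lit 385093) (nat_lit 49) (.e (nat_lit 778323) (nat_lit 5) (.e (nat_lit 81664) (nat_lit 32) .nil)))) (.g (nat_lit 0) (.e (nat_lit 361119) (nat_lit 0) .nil) .nil))) 
(.lf (nat_lit 575047) (.g (nat_lit 3233) (.e (nat_lit 491539) (nat_lit 3) (.e (nat_lit 98373) (nat_lit 29) (.e (nat_lit 450588) (nat_lit 10) (.e (nat_lit 573457) (nat_lit 9) .nil)))) (.g (nat_lit 0) (.e (nat_lit 362795) (nat_lit 0) .nil) .nil)))) (.nd (nat_lit 9) 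
(.lf (nat_lit 574791) (.g (nat_lit 1194) (.e (nat_lit 491536) (nat_lit 2) (.e (nat_lit 90176) (nat_lit 15) (.e (nat_lit 188434) (nat_lit 20) (.e (nat_lit 3272) (nat_lit 199) .nil)))) (.g (nat_lit 0) (.e (nat_lit 362527) (nat_lit 0) .nil) .nil))) 
(.lf (nat_lit 575303) (.g (nat_lit 4218) (.e (nat_lit 491546) (nat_lit 9) (.e (nat_lit 336028) (nat_lit 3) (.e (nat_lit 98350) (nat_lit 24) (.e (nat_lit 409649) (nat_lit 18) (.e (nat_lit 303111) (nat_lit 0) (.e (nat_lit 3308) (nat_lit 202) (.e (nat_lit 573452) (nat_lit 9) (.e (nat_lit 498) (nat_lit 40) .nil)))))))) (.g (nat_lit 1) (.e (nat_lit 363077) (nat_lit 0) .nil) .nil))))) 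
(.nd (nat_lit 8) (.nd (nat_lit 9) 
(.lf (nat_lit 574663) (.g (nat_lit 357) (.e (nat_lit 483413) (nat_lit 27) (.e (nat_lit 401446) (nat_lit 10) (.e (nat_lit 434208) (nat_lit 18) .nil))) (.g (nat_lit 0) (.e (nat_lit 362085) (nat_lit 0) .nil) .nil))) 
(.lf (nat_lit 575175) (.g (nat_lit 2403) (.e (nat_lit 491540) (nat_lit 3) (.e (nat_lit 98373) (nat_lit 29) (.e (nat_lit 450585) (nat_lit 10) (.e (nat_lit 573470) (nat_lit 11) .nil)))) (.g (nat_lit 0) (.e (nat_lit 362942) (nat_lit 0) .nil) .nil)))) (.nd (nat_lit 9) 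
(.lf (nat_lit 574919) (.g (nat_lit 2647) (.e (nat_lit 491537) (nat_lit 2) (.e (nat_lit 90177) (nat_lit 15) (.e (nat_lit 188452) (nat_lit 23) (.e (nat_lit 204884) (nat_lit 33) .nil)))) (.g (nat_lit 0) (.e (nat_lit 362658) (nat_lit 0) .nil) .nil))) 
(.lf (nat_lit 575431) (.g (nat_lit 1750) (.e (nat_lit 499456) (nat_lit 9) (.e (nat_lit 336369) (nat_lit 27) (.e (nat_lit 426173) (nat_lit 7) (.e (nat_lit 409616) (nat_lit 10) (.e (nat_lit 7936) (nat_lit 300) .nil))))) (.g (nat_lit 0) (.e (nat_lit 363304) (nat_lit 0) .nil) .nil))))))) (.nd (nat_lit 6) (.nd (nat_lit 7) (.nd (nat_lit 8) (.nd (nat_lit 9) 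
(.lf (nat_lit 574503) (.g (nat_lit 1513) (.e (nat_lit 483406) (nat_lit 26) (.e (nat_lit 385068) (nat_lit 26) (.e (nat_lit 532504) (nat_lit 1) (.e (nat_lit 57829) (nat_lit 250) .nil)))) (.g (nat_lit 0) (.e (nat_lit 361035) (nat_lit 0) .nil) .nil))) 
(.lf (nat_lit 575015) (.g (nat_lit 3584) (.e (nat_lit 491539) (nat_lit 3) (.e (nat_lit 98373) (nat_lit 29) (.e (nat_lit 450587) (nat_lit 10) (.e (nat_lit 573450) (nat_lit 9) .nil)))) (.g (nat_lit 0) (.e (nat_lit 362763) (nat_lit 0) .nil) .nil)))) (.nd (nat_lit 9) 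
(.lf (nat_lit 574759) (.g (nat_lit 2692) (.e (nat_lit 491535) (nat_lit 2) (.e (nat_lit 90178) (nat_lit 15) (.e (nat_lit 188440) (nat_lit 20) (.e (nat_lit 3307) (nat_lit 202) (.e (nat_lit 573456) (nat_lit 9) (.e (nat_lit 430) (nat_lit 32) (.e (nat_lit 426342) (nat_lit 14) .nil))))))) (.g (nat_lit 1) (.e (nat_lit 362495) (nat_lit 0) .nil) .nil))) 
(.lf (nat_lit 575271) (.g (nat_lit 1717) (.e (nat_lit 499456) (nat_lit 3) (.e (nat_lit 98359) (nat_lit 26) (.e (nat_lit 426286) (nat_lit 10) (.e (nat_lit 434245) (nat_lit 28) (.e (nat_lit 573470) (nat_lit 11) .nil))))) (.g (nat_lit 0) (.e (nat_lit 363038) (nat_lit 0) .nil) .nil))))) (.nd (nat_lit 8) (.nd (nat_lit 9) 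
(.lf (nat_lit 574631) (.g (nat_lit 2868) (.e (nat_lit 483411) (nat_lit 27) (.e (nat_lit 401444) (nat_lit 9) (.e (nat_lit 426163) (nat_lit 6) (.e (nat_lit 253992) (nat_lit 11) (.e (nat_lit 16464) (nat_lit 13) .nil))))) (.g (nat_lit 1) (.e (nat_lit 361573) (nat_lit 0) .nil) .nil))) 
(.lf (nat_lit 575143) (.g (nat_lit 2612) (.e (nat_lit 491540) (nat_lit 3) (.e (nat_lit 98373) (nat_lit 29) (.e (nat_lit 450564) (nat_lit 0) (.e (nat_lit 7936) (nat_lit 243) .nil)))) (.g (nat_lit 0) (.e (nat_lit 362908) (nat_lit 0) .nil) .nil)))) (.nd (nat_lit 9) 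
(.lf (nat_lit 574887) (.g (nat_lit 5483) (.e (nat_lit 491537) (nat_lit 2) (.e (nat_lit 90170) (nat_lit 13) (.e (nat_lit 172113) (nat_lit 10) (.e (nat_lit 434248) (nat_lit 28) (.e (nat_lit 573469) (nat_lit 11) (.e (nat_lit 16470) (nat_lit 14) .nil)))))) (.g (nat_lit 1) (.e (nat_lit 362625) (nat_lit 0) .nil) .nil))) 
(.lf (nat_lit 575399) (.g (nat_lit 591) (.e (nat_lit 491550) (nat_lit 9) (.e (nat_lit 336430) (nat_lit 29) (.e (nat_lit 442375) (nat_lit 0) (.e (nat_lit 2148) (nat_lit 142) .nil)))) (.g (nat_lit 0) (.e (nat_lit 363256) (nat_lit 0) .nil) .nil)))))) (.nd (nat_lit 7) (.nd (nat_lit 8) (.nd (nat_lit 9) 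
(.lf (nat_lit 574567) (.g (nat_lit 2817) (.e (nat_lit 483408) (nat_lit 26) (.e (nat_lit 385093) (nat_lit 49) (.e (nat_lit 778323) (nat_lit 5) (.e (nat_lit 73782) (nat_lit 32) (.e (nat_lit 3088) (nat_lit 191) .nil))))) (.g (nat_lit 1) (.e (nat_lit 361280) (nat_lit 0) .nil) .nil))) 
(.lf (nat_lit 575079) (.g (nat_lit 678) (.e (nat_lit 491540) (nat_lit 3) (.e (nat_lit 98370) (nat_lit 28) (.e (nat_lit 442392) (nat_lit 20) .nil))) (.g (nat_lit 0) (.e (nat_lit 362843) (nat_lit 0) .nil) .nil)))) (.nd (nat_lit 9) 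
(.lf (nat_lit 574823) (.g (nat_lit 4219) (.e (nat_lit 491537) (nat_lit 2) (.e (nat_lit 90170) (nat_lit 13) (.e (nat_lit 172106) (nat_lit 10) (.e (nat_lit 434231) (nat_lit 23) (.e (nat_lit 532482) (nat_lit 0) (.e (nat_lit 6643) (nat_lit 357) (.e (nat_lit 3096) (nat_lit 192) .nil))))))) (.g (nat_lit 1) (.e (nat_lit 362561) (nat_lit 0) .nil) .nil))) 
(.lf (nat_lit 575335) (.g (nat_lit 1979) (.e (nat_lit 491548) (nat_lit 9) (.e (nat_lit 336430) (nat_lit 29) (.e (nat_lit 442379) (nat_lit 0) (.e (nat_lit 2175) (nat_lit 143) (.e (nat_lit 712745) (nat_lit 27) (.e (nat_lit 426347) (nat_lit 14) .nil)))))) (.g (nat_lit 1) (.e (nat_lit 363141) (nat_lit 0) .nil) .nil))))) (.nd (nat_lit 8) (.nd (nat_lit 9) 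
(.lf (nat_lit 574695) (.g (nat_lit 1087) (.e (nat_lit 491264) (nat_lit 27) (.e (nat_lit 401459) (nat_lit 13) (.e (nat_lit 483354) (nat_lit 17) (.e (nat_lit 6680) (nat_lit 357) (.e (nat_lit 3089) (nat_lit 191) .nil))))) (.g (nat_lit 0) (.e (nat_lit 362407) (nat_lit 0) .nil) .nil))) 
(.lf (nat_lit 575207) (.g (nat_lit 5108) (.e (nat_lit 491540) (nat_lit 3) (.e (nat_lit 98373) (nat_lit 29) (.e (nat_lit 450587) (nat_lit 10) (.e (nat_lit 573451) (nat_lit 9) .nil)))) (.g (nat_lit 0) (.e (nat_lit 362974) (nat_lit 0) .nil) .nil)))) (.nd (nat_lit 9) 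
(.lf (nat_lit 574951) (.g (nat_lit 913) (.e (nat_lit 491538) (nat_lit 3) (.e (nat_lit 98373) (nat_lit 29) (.e (nat_lit 450585) (nat_lit 10) .nil))) (.g (nat_lit 0) (.e (nat_lit 362695) (nat_lit 0) .nil) .nil))) 
(.lf (nat_lit 575463) (.g (nat_lit 1850) (.e (nat_lit 491559) (nat_lit 10) (.e (nat_lit 344126) (nat_lit 25) (.e (nat_lit 548874) (nat_lit 5) (.e (nat_lit 1562) (nat_lit 110) (.e (nat_lit 352321) (nat_lit 25) .nil))))) (.g (nat_lit 0) (.e (nat_lit 363336) (nat_lit 0) .nil) .nil)))))))) (.nd (nat_lit 5) (.nd (nat_lit 6) (.nd (nat_lit 7) (.nd (nat_lit 8) (.nd (nat_lit 9) 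
(.lf (nat_lit 574487) (.g (nat_lit 1487) (.e (nat_lit 483406) (nat_lit 26) (.e (nat_lit 385065) (nat_lit 26) (.e (nat_lit 532500) (nat_lit 1) (.e (nat_lit 57844) (nat_lit 252) .nil)))) (.g (nat_lit 0) (.e (nat_lit 360997) (nat_lit 0) .nil) .nil))) 
(.lf (nat_lit 574999) (.g (nat_lit 2691) (.e (nat_lit 491539) (nat_lit 3) (.e (nat_lit 98373) (nat_lit 29) (.e (nat_lit 450585) (nat_lit 10) (.e (nat_lit 573456) (nat_lit 9) .nil)))) (.g (nat_lit 0) (.e (nat_lit 362747) (nat_lit 0) .nil) .nil)))) (.nd (nat_lit 9) 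
(.lf (nat_lit 574743) (.g (nat_lit 3994) (.e (nat_lit 491535) (nat_lit 2) (.e (nat_lit 90170) (nat_lit 13) (.e (nat_lit 172113) (nat_lit 10) (.e (nat_lit 434247) (nat_lit 28) (.e (nat_lit 573456) (nat_lit 9) (.e (nat_lit 430) (nat_lit 32) (.e (nat_lit 426343) (nat_lit 14) .nil))))))) (.g (nat_lit 1) (.e (nat_lit 362479) (nat_lit 0) .nil) .nil))) 
(.lf (nat_lit 575255) (.g (nat_lit 4033) (.e (nat_lit 491540) (nat_lit 3) (.e (nat_lit 98373) (nat_lit 29) (.e (nat_lit 450588) (nat_lit 10) (.e (nat_lit 573458) (nat_lit 9) (.e (nat_lit 426) (nat_lit 32) (.e (nat_lit 426341) (nat_lit 14) .nil)))))) (.g (nat_lit 1) (.e (nat_lit 363022) (nat_lit 0) .nil) .nil))))) (.nd (nat_lit 8) (.nd (nat_lit 9) 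
(.lf (nat_lit 574615) (.g (nat_lit 1560) (.e (nat_lit 483410) (nat_lit 27) (.e (nat_lit 401455) (nat_lit 13) (.e (nat_lit 483410) (nat_lit 27) (.e (nat_lit 401459) (nat_lit 13) .nil)))) (.g (nat_lit 1) (.e (nat_lit 361489) (nat_lit 0) .nil) .nil))) 
(.lf (nat_lit 575127) (.g (nat_lit 3035) (.e (nat_lit 491540) (nat_lit 3) (.e (nat_lit 98373) (nat_lit 29) (.e (nat_lit 450562) (nat_lit 0) (.e (nat_lit 3966) (nat_lit 239) .nil)))) (.g (nat_lit 0) (.e (nat_lit 362892) (nat_lit 0) .nil) .nil)))) (.nd (nat_lit 9) 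
(.lf (nat_lit 574871) (.g (nat_lit 1688) (.e (nat_lit 491537) (nat_lit 2) (.e (nat_lit 90170) (nat_lit 13) (.e (nat_lit 172113) (nat_lit 10) (.e (nat_lit 434245) (nat_lit 28) (.e (nat_lit 573458) (nat_lit 9) .nil))))) (.g (nat_lit 0) (.e (nat_lit 362609) (nat_lit 0) .nil) .nil))) 
(.lf (nat_lit 575383) (.g (nat_lit 2215) (.e (nat_lit 491550) (nat_lit 9) (.e (nat_lit 336395) (nat_lit 27) (.e (nat_lit 426338) (nat_lit 14) (.e (nat_lit 491549) (nat_lit 9) (.e (nat_lit 336395) (nat_lit 27) (.e (nat_lit 426340) (nat_lit 14) .nil)))))) (.g (nat_lit 1) (.e (nat_lit 363240) (nat_lit 0) .nil) .nil)))))) (.nd (nat_lit 7) (.nd (nat_lit 8) (.nd (nat_lit 9) 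
(.lf (nat_lit 574551) (.g (nat_lit 1341) (.e (nat_lit 483408) (nat_lit 26) (.e (nat_lit 385068) (nat_lit 26) (.e (nat_lit 532501) (nat_lit 1) (.e (nat_lit 57829) (nat_lit 250) .nil)))) (.g (nat_lit 0) (.e (nat_lit 361194) (nat_lit 0) .nil) .nil))) 
(.lf (nat_lit 575063) (.g (nat_lit 682) (.e (nat_lit 491540) (nat_lit 3) (.e (nat_lit 98356) (nat_lit 26) (.e (nat_lit 433920) (nat_lit 14) .nil))) (.g (nat_lit 0) (.e (nat_lit 362819) (nat_lit 0) .nil) .nil)))) (.nd (nat_lit 9) 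
(.lf (nat_lit 574807) (.g (nat_lit 1093) (.e (nat_lit 491537) (nat_lit 2) (.e (nat_lit 90170) (nat_lit 13) (.e (nat_lit 172079) (nat_lit 7) (.e (nat_lit 409611) (nat_lit 10) .nil)))) (.g (nat_lit 0) (.e (nat_lit 362545) (nat_lit 0) .nil) .nil))) 
(.lf (nat_lit 575319) (.g (nat_lit 1171) (.e (nat_lit 491547) (nat_lit 9) (.e (nat_lit 336443) (nat_lit 32) (.e (nat_lit 466955) (nat_lit 20) .nil))) (.g (nat_lit 0) (.e (nat_lit 363113) (nat_lit 0) .nil) .nil))))) (.nd (nat_lit 8) (.nd (nat_lit 9) 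
(.lf (nat_lit 574679) (.g (nat_lit 631) (.e (nat_lit 491264) (nat_lit 27) (.e (nat_lit 401437) (nat_lit 9) (.e (nat_lit 426530) (nat_lit 27) .nil))) (.g (nat_lit 0) (.e (nat_lit 362390) (nat_lit 0) .nil) .nil))) 
(.lf (nat_lit 575191) (.g (nat_lit 2553) (.e (nat_lit 491540) (nat_lit 3) (.e (nat_lit 98373) (nat_lit 29) (.e (nat_lit 450586) (nat_lit 10) (.e (nat_lit 573457) (nat_lit 9) (.e (nat_lit 430) (nat_lit 32) .nil))))) (.g (nat_lit 0) (.e (nat_lit 362958) (nat_lit 0) .nil) .nil)))) (.nd (nat_lit 9) 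
(.lf (nat_lit 574935) (.g (nat_lit 3958) (.e (nat_lit 491538) (nat_lit 3) (.e (nat_lit 98359) (nat_lit 26) (.e (nat_lit 426286) (nat_lit 10) (.e (nat_lit 434245) (nat_lit 28) (.e (nat_lit 573469) (nat_lit 11) (.e (nat_lit 16473) (nat_lit 14) .nil)))))) (.g (nat_lit 1) (.e (nat_lit 362678) (nat_lit 0) .nil) .nil))) 
(.lf (nat_lit 575447) (.g (nat_lit 2384) (.e (nat_lit 491558) (nat_lit 10) (.e (nat_lit 344119) (nat_lit 21) (.e (nat_lit 516139) (nat_lit 7) (.e (nat_lit 409642) (nat_lit 17) (.e (nat_lit 294931) (nat_lit 3) .nil))))) (.g (nat_lit 0) (.e (nat_lit 363320) (nat_lit 0) .nil) .nil))))))) (.nd (nat_lit 6) (.nd (nat_lit 7) (.nd (nat_lit 8) (.nd (nat_lit 9) 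
(.lf (nat_lit 574519) (.g (nat_lit 2934) (.e (nat_lit 483407) (nat_lit 26) (.e (nat_lit 385066) (nat_lit 26) (.e (nat_lit 532499) (nat_lit 1) (.e (nat_lit 57847) (nat_lit 252) (.e (nat_lit 57405) (nat_lit 12) .nil))))) (.g (nat_lit 0) (.e (nat_lit 361083) (nat_lit 0) .nil) .nil))) 
(.lf (nat_lit 575031) (.g (nat_lit 5164) (.e (nat_lit 491539) (nat_lit 3) (.e (nat_lit 98373) (nat_lit 29) (.e (nat_lit 450588) (nat_lit 10) (.e (nat_lit 573448) (nat_lit 9) .nil)))) (.g (nat_lit 0) (.e (nat_lit 362779) (nat_lit 0) .nil) .nil)))) (.nd (nat_lit 9) 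
(.lf (nat_lit 574775) (.g (nat_lit 1026) (.e (nat_lit 491536) (nat_lit 2) (.e (nat_lit 90170) (nat_lit 13) (.e (nat_lit 172113) (nat_lit 10) (.e (nat_lit 434242) (nat_lit 28) .nil)))) (.g (nat_lit 0) (.e (nat_lit 362511) (nat_lit 0) .nil) .nil))) 
(.lf (nat_lit 575287) (.g (nat_lit 2793) (.e (nat_lit 499456) (nat_lit 3) (.e (nat_lit 98373) (nat_lit 29) (.e (nat_lit 450588) (nat_lit 10) (.e (nat_lit 573452) (nat_lit 9) .nil)))) (.g (nat_lit 0) (.e (nat_lit 363054) (nat_lit 0) .nil) .nil))))) (.nd (nat_lit 8) (.nd (nat_lit 9) 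
(.lf (nat_lit 574647) (.g (nat_lit 1147) (.e (nat_lit 483412) (nat_lit 27) (.e (nat_lit 401448) (nat_lit 10) (.e (nat_lit 434209) (nat_lit 18) (.e (nat_lit 6270) (nat_lit 337) .nil)))) (.g (nat_lit 0) (.e (nat_lit 361871) (nat_lit 0) .nil) .nil))) 
(.lf (nat_lit 575159) (.g (nat_lit 2632) (.e (nat_lit 491540) (nat_lit 3) (.e (nat_lit 98373) (nat_lit 29) (.e (nat_lit 450583) (nat_lit 7) (.e (nat_lit 548894) (nat_lit 14) .nil)))) (.g (nat_lit 0) (.e (nat_lit 362926) (nat_lit 0) .nil) .nil)))) (.nd (nat_lit 9) 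
(.lf (nat_lit 574903) (.g (nat_lit 4440) (.e (nat_lit 491537) (nat_lit 2) (.e (nat_lit 90170) (nat_lit 13) (.e (nat_lit 172120) (nat_lit 12) (.e (nat_lit 475185) (nat_lit 29) (.e (nat_lit 557101) (nat_lit 13) (.e (nat_lit 172124) (nat_lit 14) .nil)))))) (.g (nat_lit 1) (.e (nat_lit 362641) (nat_lit 0) .nil) .nil))) 
(.lf (nat_lit 575415) (.g (nat_lit 1646) (.e (nat_lit 491550) (nat_lit 9) (.e (nat_lit 336443) (nat_lit 32) (.e (nat_lit 466969) (nat_lit 21) (.e (nat_lit 164346) (nat_lit 240) .nil)))) (.g (nat_lit 0) (.e (nat_lit 363281) (nat_lit 0) .nil) .nil)))))) (.nd (nat_lit 7) (.nd (nat_lit 8) (.nd (nat_lit 9) 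
(.lf (nat_lit 574583) (.g (nat_lit 788) (.e (nat_lit 483409) (nat_lit 27) (.e (nat_lit 401456) (nat_lit 13) (.e (nat_lit 483409) (nat_lit 27) .nil))) (.g (nat_lit 0) (.e (nat_lit 361360) (nat_lit 0) .nil) .nil))) 
(.lf (nat_lit 575095) (.g (nat_lit 1021) (.e (nat_lit 491540) (nat_lit 3) (.e (nat_lit 98372) (nat_lit 29) (.e (nat_lit 450586) (nat_lit 10) (.e (nat_lit 573456) (nat_lit 9) .nil)))) (.g (nat_lit 0) (.e (nat_lit 362860) (nat_lit 0) .nil) .nil)))) (.nd (nat_lit 9) 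
(.lf (nat_lit 574839) (.g (nat_lit 2297) (.e (nat_lit 491537) (nat_lit 2) (.e (nat_lit 90170) (nat_lit 13) (.e (nat_lit 172106) (nat_lit 10) (.e (nat_lit 434238) (nat_lit 25) (.e (nat_lit 556800) (nat_lit 14) .nil))))) (.g (nat_lit 0) (.e (nat_lit 362577) (nat_lit 0) .nil) .nil))) 
(.lf (nat_lit 575351) (.g (nat_lit 1005) (.e (nat_lit 491549) (nat_lit 9) (.e (nat_lit 336414) (nat_lit 27) (.e (nat_lit 426347) (nat_lit 14) (.e (nat_lit 491548) (nat_lit 9) .nil)))) (.g (nat_lit 0) (.e (nat_lit 363191) (nat_lit 0) .nil) .nil))))) (.nd (nat_lit 8) (.nd (nat_lit 9) 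
(.lf (nat_lit 574711) (.g (nat_lit 3208) (.e (nat_lit 491520) (nat_lit 0) (.e (nat_lit 1788) (nat_lit 119) (.e (nat_lit 516166) (nat_lit 12) (.e (nat_lit 450588) (nat_lit 10) (.e (nat_lit 573457) (nat_lit 9) .nil))))) (.g (nat_lit 0) (.e (nat_lit 362423) (nat_lit 0) .nil) .nil))) 
(.lf (nat_lit 575223) (.g (nat_lit 4425) (.e (nat_lit 491540) (nat_lit 3) (.e (nat_lit 98373) (nat_lit 29) (.e (nat_lit 450587) (nat_lit 10) (.e (nat_lit 573462) (nat_lit 9) .nil)))) (.g (nat_lit 0) (.e (nat_lit 362990) (nat_lit 0) .nil) .nil)))) (.nd (nat_lit 9) 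
(.lf (nat_lit 574967) (.g (nat_lit 2292) (.e (nat_lit 491538) (nat_lit 3) (.e (nat_lit 98373) (nat_lit 29) (.e (nat_lit 450588) (nat_lit 10) (.e (nat_lit 573457) (nat_lit 9) .nil)))) (.g (nat_lit 0) (.e (nat_lit 362711) (nat_lit 0) .nil) .nil))) 
(.lf (nat_lit 575479) (.g (nat_lit 2758) (.e (nat_lit 491560) (nat_lit 10) (.e (nat_lit 344118) (nat_lit 21) (.e (nat_lit 516139) (nat_lit 7) (.e (nat_lit 409641) (nat_lit 17) (.e (nat_lit 294930) (nat_lit 3) .nil))))) (.g (nat_lit 0) (.e (nat_lit 363353) (nat_lit 0) .nil) .nil))))))))) (.nd (nat_lit 4) (.nd (nat_lit 5) (.nd (nat_lit 6) (.nd (nat_lit 7) (.nd (nat_lit 8) (.nd (nat_lit 9) 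
(.lf (nat_lit 574479) (.g (nat_lit 861) (.e (nat_lit 483405) (nat_lit 26) (.e (nat_lit 385093) (nat_lit 49) (.e (nat_lit 778324) (nat_lit 5) (.e (nat_lit 81664) (nat_lit 32) .nil)))) (.g (nat_lit 0) (.e (nat_lit 360921) (nat_lit 0) .nil) .nil))) 
(.lf (nat_lit 574991) (.g (nat_lit 3397) (.e (nat_lit 491539) (nat_lit 3) (.e (nat_lit 98373) (nat_lit 29) (.e (nat_lit 450563) (nat_lit 0) (.e (nat_lit 4288) (nat_lit 254) .nil)))) (.g (nat_lit 0) (.e (nat_lit 362739) (nat_lit 0) .nil) .nil)))) (.nd (nat_lit 9) 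
(.lf (nat_lit 574735) (.g (nat_lit 1515) (.e (nat_lit 491531) (nat_lit 0) (.e (nat_lit 1800) (nat_lit 119) (.e (nat_lit 516165) (nat_lit 12) (.e (nat_lit 450586) (nat_lit 10) .nil)))) (.g (nat_lit 0) (.e (nat_lit 362452) (nat_lit 0) .nil) .nil))) 
(.lf (nat_lit 575247) (.g (nat_lit 4142) (.e (nat_lit 491540) (nat_lit 3) (.e (nat_lit 98373) (nat_lit 29) (.e (nat_lit 450588) (nat_lit 10) (.e (nat_lit 573454) (nat_lit 9) (.e (nat_lit 385) (nat_lit 32) .nil))))) (.g (nat_lit 0) (.e (nat_lit 363014) (nat_lit 0) .nil) .nil))))) (.nd (nat_lit 8) (.nd (nat_lit 9) 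
(.lf (nat_lit 574607) (.g (nat_lit 2649) (.e (nat_lit 483410) (nat_lit 27) (.e (nat_lit 401438) (nat_lit 9) (.e (nat_lit 426533) (nat_lit 28) (.e (nat_lit 344069) (nat_lit 0) (.e (nat_lit 3089) (nat_lit 191) .nil))))) (.g (nat_lit 1) (.e (nat_lit 361445) (nat_lit 0) .nil) .nil))) 
(.lf (nat_lit 575119) (.g (nat_lit 3354) (.e (nat_lit 491540) (nat_lit 3) (.e (nat_lit 98373) (nat_lit 29) (.e (nat_lit 450562) (nat_lit 0) (.e (nat_lit 3919) (nat_lit 239) .nil)))) (.g (nat_lit 0) (.e (nat_lit 362884) (nat_lit 0) .nil) .nil)))) (.nd (nat_lit 9) 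
(.lf (nat_lit 574863) (.g (nat_lit 1503) (.e (nat_lit 491537) (nat_lit 2) (.e (nat_lit 90170) (nat_lit 13) (.e (nat_lit 172113) (nat_lit 10) (.e (nat_lit 434245) (nat_lit 28) (.e (nat_lit 573449) (nat_lit 9) .nil))))) (.g (nat_lit 0) (.e (nat_lit 362601) (nat_lit 0) .nil) .nil))) 
(.lf (nat_lit 575375) (.g (nat_lit 2544) (.e (nat_lit 491550) (nat_lit 9) (.e (nat_lit 336369) (nat_lit 27) (.e (nat_lit 426173) (nat_lit 7) (.e (nat_lit 409640) (nat_lit 17) (.e (nat_lit 294969) (nat_lit 27) .nil))))) (.g (nat_lit 0) (.e (nat_lit 363231) (nat_lit 0) .nil) .nil)))))) (.nd (nat_lit 7) (.nd (nat_lit 8) (.nd (nat_lit 9) 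
(.lf (nat_lit 574543) (.g (nat_lit 1221) (.e (nat_lit 483408) (nat_lit 26) (.e (nat_lit 385065) (nat_lit 26) (.e (nat_lit 532501) (nat_lit 1) (.e (nat_lit 57829) (nat_lit 250) .nil)))) (.g (nat_lit 0) (.e (nat_lit 361156) (nat_lit 0) .nil) .nil))) 
(.lf (nat_lit 575055) (.g (nat_lit 2953) (.e (nat_lit 491539) (nat_lit 3) (.e (nat_lit 98373) (nat_lit 29) (.e (nat_lit 450588) (nat_lit 10) (.e (nat_lit 573470) (nat_lit 11) (.e (nat_lit 16471) (nat_lit 14) .nil))))) (.g (nat_lit 0) (.e (nat_lit 362803) (nat_lit 0) .nil) .nil)))) (.nd (nat_lit 9) 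
(.lf (nat_lit 574799) (.g (nat_lit 1889) (.e (nat_lit 491536) (nat_lit 2) (.e (nat_lit 90178) (nat_lit 15) (.e (nat_lit 188440) (nat_lit 20) (.e (nat_lit 3307) (nat_lit 202) (.e (nat_lit 573457) (nat_lit 9) .nil))))) (.g (nat_lit 0) (.e (nat_lit 362535) (nat_lit 0) .nil) .nil))) 
(.lf (nat_lit 575311) (.g (nat_lit 2959) (.e (nat_lit 491547) (nat_lit 9) (.e (nat_lit 336019) (nat_lit 3) (.e (nat_lit 98389) (nat_lit 33) (.e (nat_lit 491560) (nat_lit 10) (.e (nat_lit 344105) (nat_lit 19) (.e (nat_lit 499828) (nat_lit 5) (.e (nat_lit 3098) (nat_lit 192) .nil))))))) (.g (nat_lit 1) (.e (nat_lit 363093) (nat_lit 0) .nil) .nil))))) (.nd (nat_lit 8) (.nd (nat_lit 9) 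
(.lf (nat_lit 574671) (.g (nat_lit 475) (.e (nat_lit 483413) (nat_lit 27) (.e (nat_lit 401447) (nat_lit 10) (.e (nat_lit 434208) (nat_lit 18) .nil))) (.g (nat_lit 0) (.e (nat_lit 362165) (nat_lit 0) .nil) .nil))) 
(.lf (nat_lit 575183) (.g (nat_lit 3882) (.e (nat_lit 491540) (nat_lit 3) (.e (nat_lit 98373) (nat_lit 29) (.e (nat_lit 450586) (nat_lit 10) (.e (nat_lit 573451) (nat_lit 9) (.e (nat_lit 430) (nat_lit 32) .nil))))) (.g (nat_lit 0) (.e (nat_lit 362950) (nat_lit 0) .nil) .nil)))) (.nd (nat_lit 9) 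
(.lf (nat_lit 574927) (.g (nat_lit 949) (.e (nat_lit 491537) (nat_lit 2) (.e (nat_lit 90185) (nat_lit 17) (.e (nat_lit 237605) (nat_lit 9) (.e (nat_lit 426426) (nat_lit 16) .nil)))) (.g (nat_lit 0) (.e (nat_lit 362668) (nat_lit 0) .nil) .nil))) 
(.lf (nat_lit 575439) (.g (nat_lit 3608) (.e (nat_lit 491558) (nat_lit 10) (.e (nat_lit 344115) (nat_lit 20) (.e (nat_lit 507923) (nat_lit 6) (.e (nat_lit 286747) (nat_lit 9) (.e (nat_lit 336013) (nat_lit 2) (.e (nat_lit 90137) (nat_lit 9) (.e (nat_lit 3102) (nat_lit 192) .nil))))))) (.g (nat_lit 1) (.e (nat_lit 363312) (nat_lit 0) .nil) .nil))))))) 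
(.nd (nat_lit 6) (.nd (nat_lit 7) (.nd (nat_lit 8) (.nd (nat_lit 9) 
(.lf (nat_lit 574511) (.g (nat_lit 2280) (.e (nat_lit 483406) (nat_lit 26) (.e (nat_lit 385093) (nat_lit 49) (.e (nat_lit 778323) (nat_lit 5) (.e (nat_lit 73782) (nat_lit 32) (.e (nat_lit 3087) (nat_lit 191) .nil))))) (.g (nat_lit 1) (.e (nat_lit 361060) (nat_lit 0) .nil) .nil))) 
(.lf (nat_lit 575023) (.g (nat_lit 4964) (.e (nat_lit 491539) (nat_lit 3) (.e (nat_lit 98373) (nat_lit 29) (.e (nat_lit 450587) (nat_lit 10) (.e (nat_lit 573460) (nat_lit 9) .nil)))) (.g (nat_lit 0) (.e (nat_lit 362771) (nat_lit 0) .nil) .nil)))) (.nd (nat_lit 9) 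
(.lf (nat_lit 574767) (.g (nat_lit 3063) (.e (nat_lit 491536) (nat_lit 2) (.e (nat_lit 90170) (nat_lit 13) (.e (nat_lit 172106) (nat_lit 10) (.e (nat_lit 434231) (nat_lit 23) (.e (nat_lit 532569) (nat_lit 16) .nil))))) (.g (nat_lit 0) (.e (nat_lit 362503) (nat_lit 0) .nil) .nil))) 
(.lf (nat_lit 575279) (.g (nat_lit 870) (.e (nat_lit 499456) (nat_lit 3) (.e (nat_lit 98373) (nat_lit 29) (.e (nat_lit 450585) (nat_lit 10) .nil))) (.g (nat_lit 0) (.e (nat_lit 363046) (nat_lit 0) .nil) .nil))))) (.nd (nat_lit 8) (.nd (nat_lit 9) 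
(.lf (nat_lit 574639) (.g (nat_lit 2919) (.e (nat_lit 483411) (nat_lit 27) (.e (nat_lit 401448) (nat_lit 10) (.e (nat_lit 434291) (nat_lit 44) (.e (nat_lit 704737) (nat_lit 11) (.e (nat_lit 16465) (nat_lit 13) .nil))))) (.g (nat_lit 1) (.e (nat_lit 361663) (nat_lit 0) .nil) .nil))) 
(.lf (nat_lit 575151) (.g (nat_lit 1927) (.e (nat_lit 491540) (nat_lit 3) (.e (nat_lit 98373) (nat_lit 29) (.e (nat_lit 450567) (nat_lit 0) (.e (nat_lit 7936) (nat_lit 243) .nil)))) (.g (nat_lit 0) (.e (nat_lit 362918) (nat_lit 0) .nil) .nil)))) (.nd (nat_lit 9) 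
(.lf (nat_lit 574895) (.g (nat_lit 3048) (.e (nat_lit 491537) (nat_lit 2) (.e (nat_lit 90170) (nat_lit 13) (.e (nat_lit 172118) (nat_lit 12) (.e (nat_lit 475185) (nat_lit 29) (.e (nat_lit 557096) (nat_lit 13) (.e (nat_lit 172126) (nat_lit 14) .nil)))))) (.g (nat_lit 1) (.e (nat_lit 362633) (nat_lit 0) .nil) .nil))) 
(.lf (nat_lit 575407) (.g (nat_lit 3600) (.e (nat_lit 491550) (nat_lit 9) (.e (nat_lit 336430) (nat_lit 29) (.e (nat_lit 442421) (nat_lit 21) (.e (nat_lit 164348) (nat_lit 240) (.e (nat_lit 2629) (nat_lit 164) (.e (nat_lit 172124) (nat_lit 14) .nil)))))) (.g (nat_lit 1) (.e (nat_lit 363267) (nat_lit 0) .nil) .nil)))))) (.nd (nat_lit 7) (.nd (nat_lit 8) (.nd (nat_lit 9) 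
(.lf (nat_lit 574575) (.g (nat_lit 614) (.e (nat_lit 483409) (nat_lit 27) (.e (nat_lit 401437) (nat_lit 9) (.e (nat_lit 426482) (nat_lit 27) .nil))) (.g (nat_lit 0) (.e (nat_lit 361330) (nat_lit 0) .nil) .nil))) 
(.lf (nat_lit 575087) (.g (nat_lit 3151) (.e (nat_lit 491540) (nat_lit 3) (.e (nat_lit 98372) (nat_lit 29) (.e (nat_lit 450583) (nat_lit 7) (.e (nat_lit 548913) (nat_lit 18) (.e (nat_lit 172125) (nat_lit 14) .nil))))) (.g (nat_lit 1) (.e (nat_lit 362852) (nat_lit 0) .nil) .nil)))) (.nd (nat_lit 9) 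
(.lf (nat_lit 574831) (.g (nat_lit 3467) (.e (nat_lit 491537) (nat_lit 2) (.e (nat_lit 90170) (nat_lit 13) (.e (nat_lit 172106) (nat_lit 10) (.e (nat_lit 434231) (nat_lit 23) (.e (nat_lit 532490) (nat_lit 0) (.e (nat_lit 7936) (nat_lit 357) (.e (nat_lit 3104) (nat_lit 192) .nil))))))) (.g (nat_lit 1) (.e (nat_lit 362569) (nat_lit 0) .nil) .nil))) 
(.lf (nat_lit 575343) (.g (nat_lit 1150) (.e (nat_lit 491548) (nat_lit 9) (.e (nat_lit 336443) (nat_lit 32) (.e (nat_lit 466968) (nat_lit 21) .nil))) (.g (nat_lit 0) (.e (nat_lit 363162) (nat_lit 0) .nil) .nil))))) (.nd (nat_lit 8) (.nd (nat_lit 9) 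
(.lf (nat_lit 574703) (.g (nat_lit 1970) (.e (nat_lit 491520) (nat_lit 0) (.e (nat_lit 1788) (nat_lit 119) (.e (nat_lit 516165) (nat_lit 12) (.e (nat_lit 450586) (nat_lit 10) (.e (nat_lit 573457) (nat_lit 9) .nil))))) (.g (nat_lit 0) (.e (nat_lit 362415) (nat_lit 0) .nil) .nil))) 
(.lf (nat_lit 575215) (.g (nat_lit 3646) (.e (nat_lit 491540) (nat_lit 3) (.e (nat_lit 98373) (nat_lit 29) (.e (nat_lit 450587) (nat_lit 10) (.e (nat_lit 573457) (nat_lit 9) (.e (nat_lit 430) (nat_lit 32) (.e (nat_lit 426341) (nat_lit 14) .nil)))))) (.g (nat_lit 1) (.e (nat_lit 362982) (nat_lit 0) .nil) .nil)))) (.nd (nat_lit 9) 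
(.lf (nat_lit 574959) (.g (nat_lit 1548) (.e (nat_lit 491538) (nat_lit 3) (.e (nat_lit 98373) (nat_lit 29) (.e (nat_lit 450586) (nat_lit 10) (.e (nat_lit 581376) (nat_lit 11) .nil)))) (.g (nat_lit 0) (.e (nat_lit 362703) (nat_lit 0) .nil) .nil))) 
(.lf (nat_lit 575471) (.g (nat_lit 4187) (.e (nat_lit 491560) (nat_lit 10) (.e (nat_lit 344115) (nat_lit 20) (.e (nat_lit 507923) (nat_lit 6) (.e (nat_lit 286747) (nat_lit 9) (.e (nat_lit 336013) (nat_lit 2) (.e (nat_lit 90145) (nat_lit 9) (.e (nat_lit 3102) (nat_lit 192) .nil))))))) (.g (nat_lit 1) (.e (nat_lit 363344) (nat_lit 0) .nil) .nil)))))))) 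
(.nd (nat_lit 5) (.nd (nat_lit 6) (.nd (nat_lit 7) (.nd (nat_lit 8) (.nd (nat_lit 9) 
(.lf (nat_lit 574495) (.g (nat_lit 3237) (.e (nat_lit 483406) (nat_lit 26) (.e (nat_lit 385068) (nat_lit 26) (.e (nat_lit 532500) (nat_lit 1) (.e (nat_lit 57851) (nat_lit 252) (.e (nat_lit 57406) (nat_lit 12) .nil))))) (.g (nat_lit 0) (.e (nat_lit 361019) (nat_lit 0) .nil) .nil))) 
(.lf (nat_lit 575007) (.g (nat_lit 2542) (.e (nat_lit 491539) (nat_lit 3) (.e (nat_lit 98373) (nat_lit 29) (.e (nat_lit 450586) (nat_lit 10) (.e (nat_lit 573451) (nat_lit 9) .nil)))) (.g (nat_lit 0) (.e (nat_lit 362755) (nat_lit 0) .nil) .nil)))) (.nd (nat_lit 9) 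
(.lf (nat_lit 574751) (.g (nat_lit 825) (.e (nat_lit 491535) (nat_lit 2) (.e (nat_lit 90176) (nat_lit 15) (.e (nat_lit 188438) (nat_lit 20) (.e (nat_lit 3304) (nat_lit 202) .nil)))) (.g (nat_lit 0) (.e (nat_lit 362487) (nat_lit 0) .nil) .nil))) 
(.lf (nat_lit 575263) (.g (nat_lit 2692) (.e (nat_lit 491540) (nat_lit 3) (.e (nat_lit 98373) (nat_lit 29) (.e (nat_lit 450588) (nat_lit 10) (.e (nat_lit 573469) (nat_lit 11) .nil)))) (.g (nat_lit 0) (.e (nat_lit 363030) (nat_lit 0) .nil) .nil))))) (.nd (nat_lit 8) (.nd (nat_lit 9) 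
(.lf (nat_lit 574623) (.g (nat_lit 2154) (.e (nat_lit 483410) (nat_lit 27) (.e (nat_lit 401459) (nat_lit 13) (.e (nat_lit 483411) (nat_lit 27) (.e (nat_lit 409344) (nat_lit 13) .nil)))) (.g (nat_lit 1) (.e (nat_lit 361553) (nat_lit 0) .nil) .nil))) 
(.lf (nat_lit 575135) (.g (nat_lit 3302) (.e (nat_lit 491540) (nat_lit 3) (.e (nat_lit 98373) (nat_lit 29) (.e (nat_lit 450563) (nat_lit 0) (.e (nat_lit 3924) (nat_lit 239) .nil)))) (.g (nat_lit 0) (.e (nat_lit 362900) (nat_lit 0) .nil) .nil)))) (.nd (nat_lit 9) 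
(.lf (nat_lit 574879) (.g (nat_lit 1809) (.e (nat_lit 491537) (nat_lit 2) (.e (nat_lit 90170) (nat_lit 13) (.e (nat_lit 172113) (nat_lit 10) (.e (nat_lit 434248) (nat_lit 28) (.e (nat_lit 573449) (nat_lit 9) .nil))))) (.g (nat_lit 0) (.e (nat_lit 362617) (nat_lit 0) .nil) .nil))) 
(.lf (nat_lit 575391) (.g (nat_lit 1537) (.e (nat_lit 491550) (nat_lit 9) (.e (nat_lit 336421) (nat_lit 28) (.e (nat_lit 434189) (nat_lit 13) (.e (nat_lit 2786) (nat_lit 179) (.e (nat_lit 294969) (nat_lit 27) (.e (nat_lit 426340) (nat_lit 14) .nil)))))) (.g (nat_lit 1) (.e (nat_lit 363248) (nat_lit 0) .nil) .nil)))))) (.nd (nat_lit 7) (.nd (nat_lit 8) (.nd (nat_lit 9) 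
(.lf (nat_lit 574559) (.g (nat_lit 2486) (.e (nat_lit 483408) (nat_lit 26) (.e (nat_lit 385068) (nat_lit 26) (.e (nat_lit 532504) (nat_lit 1) (.e (nat_lit 57830) (nat_lit 250) (.e (nat_lit 1004) (nat_lit 81) .nil))))) (.g (nat_lit 0) (.e (nat_lit 361209) (nat_lit 0) .nil) .nil))) 
(.lf (nat_lit 575071) (.g (nat_lit 752) (.e (nat_lit 491540) (nat_lit 3) (.e (nat_lit 98365) (nat_lit 26) (.e (nat_lit 426172) (nat_lit 7) .nil))) (.g (nat_lit 0) (.e (nat_lit 362830) (nat_lit 0) .nil) .nil)))) (.nd (nat_lit 9) 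
(.lf (nat_lit 574815) (.g (nat_lit 3383) (.e (nat_lit 491537) (nat_lit 2) (.e (nat_lit 90170) (nat_lit 13) (.e (nat_lit 172106) (nat_lit 10) (.e (nat_lit 434231) (nat_lit 23) (.e (nat_lit 532481) (nat_lit 0) .nil))))) (.g (nat_lit 0) (.e (nat_lit 362553) (nat_lit 0) .nil) .nil))) 
(.lf (nat_lit 575327) (.g (nat_lit 2582) (.e (nat_lit 491548) (nat_lit 9) (.e (nat_lit 336306) (nat_lit 15) (.e (nat_lit 3298) (nat_lit 202) (.e (nat_lit 573492) (nat_lit 15) (.e (nat_lit 81956) (nat_lit 23) (.e (nat_lit 98387) (nat_lit 33) .nil)))))) (.g (nat_lit 1) (.e (nat_lit 363124) (nat_lit 0) .nil) .nil))))) (.nd (nat_lit 8) (.nd (nat_lit 9) 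
(.lf (nat_lit 574687) (.g (nat_lit 757) (.e (nat_lit 491264) (nat_lit 27) (.e (nat_lit 401456) (nat_lit 13) (.e (nat_lit 483410) (nat_lit 27) .nil))) (.g (nat_lit 0) (.e (nat_lit 362399) (nat_lit 0) .nil) .nil))) 
(.lf (nat_lit 575199) (.g (nat_lit 3459) (.e (nat_lit 491540) (nat_lit 3) (.e (nat_lit 98373) (nat_lit 29) (.e (nat_lit 450587) (nat_lit 10) (.e (nat_lit 573448) (nat_lit 9) (.e (nat_lit 393) (nat_lit 32) .nil))))) (.g (nat_lit 0) (.e (nat_lit 362966) (nat_lit 0) .nil) .nil)))) (.nd (nat_lit 9) 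
(.lf (nat_lit 574943) (.g (nat_lit 2996) (.e (nat_lit 491538) (nat_lit 3) (.e (nat_lit 98372) (nat_lit 29) (.e (nat_lit 450588) (nat_lit 10) (.e (nat_lit 573451) (nat_lit 9) .nil)))) (.g (nat_lit 0) (.e (nat_lit 362687) (nat_lit 0) .nil) .nil))) 
(.lf (nat_lit 575455) (.g (nat_lit 1623) (.e (nat_lit 491558) (nat_lit 10) (.e (nat_lit 344177) (nat_lit 43) (.e (nat_lit 770072) (nat_lit 8) (.e (nat_lit 65592) (nat_lit 9) (.e (nat_lit 336412) (nat_lit 27) .nil))))) (.g (nat_lit 0) (.e (nat_lit 363328) (nat_lit 0) .nil) .nil))))))) (.nd (nat_lit 6) (.nd (nat_lit 7) (.nd (nat_lit 8) (.nd (nat_lit 9) 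
(.lf (nat_lit 574527) (.g (nat_lit 2704) (.e (nat_lit 483407) (nat_lit 26) (.e (nat_lit 385068) (nat_lit 26) (.e (nat_lit 532499) (nat_lit 1) (.e (nat_lit 57854) (nat_lit 252) (.e (nat_lit 57406) (nat_lit 12) .nil))))) (.g (nat_lit 0) (.e (nat_lit 361098) (nat_lit 0) .nil) .nil))) 
(.lf (nat_lit 575039) (.g (nat_lit 3781) (.e (nat_lit 491539) (nat_lit 3) (.e (nat_lit 98373) (nat_lit 29) (.e (nat_lit 450588) (nat_lit 10) (.e (nat_lit 573451) (nat_lit 9) (.e (nat_lit 430) (nat_lit 32) (.e (nat_lit 426342) (nat_lit 14) .nil)))))) (.g (nat_lit 1) (.e (nat_lit 362787) (nat_lit 0) .nil) .nil)))) (.nd (nat_lit 9) 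
(.lf (nat_lit 574783) (.g (nat_lit 3606) (.e (nat_lit 491536) (nat_lit 2) (.e (nat_lit 90170) (nat_lit 13) (.e (nat_lit 172113) (nat_lit 10) (.e (nat_lit 434248) (nat_lit 28) (.e (nat_lit 573469) (nat_lit 11) (.e (nat_lit 16472) (nat_lit 14) .nil)))))) (.g (nat_lit 1) (.e (nat_lit 362519) (nat_lit 0) .nil) .nil))) 
(.lf (nat_lit 575295) (.g (nat_lit 916) (.e (nat_lit 491544) (nat_lit 7) (.e (nat_lit 319533) (nat_lit 16) (.e (nat_lit 286756) (nat_lit 10) .nil))) (.g (nat_lit 0) (.e (nat_lit 363065) (nat_lit 0) .nil) .nil))))) (.nd (nat_lit 8) (.nd (nat_lit 9) 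
(.lf (nat_lit 574655) (.g (nat_lit 386) (.e (nat_lit 483413) (nat_lit 27) (.e (nat_lit 401435) (nat_lit 9) (.e (nat_lit 433920) (nat_lit 25) .nil))) (.g (nat_lit 0) (.e (nat_lit 361979) (nat_lit 0) .nil) .nil))) 
(.lf (nat_lit 575167) (.g (nat_lit 3707) (.e (nat_lit 491540) (nat_lit 3) (.e (nat_lit 98373) (nat_lit 29) (.e (nat_lit 450585) (nat_lit 10) (.e (nat_lit 573450) (nat_lit 9) (.e (nat_lit 411) (nat_lit 32) (.e (nat_lit 426340) (nat_lit 14) .nil)))))) (.g (nat_lit 1) (.e (nat_lit 362934) (nat_lit 0) .nil) .nil)))) (.nd (nat_lit 9) 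
(.lf (nat_lit 574911) (.g (nat_lit 634) (.e (nat_lit 491537) (nat_lit 2) (.e (nat_lit 90172) (nat_lit 14) (.e (nat_lit 180275) (nat_lit 32) .nil))) (.g (nat_lit 0) (.e (nat_lit 362650) (nat_lit 0) .nil) .nil))) 
(.lf (nat_lit 575423) (.g (nat_lit 2702) (.e (nat_lit 491552) (nat_lit 9) (.e (nat_lit 336412) (nat_lit 27) (.e (nat_lit 426341) (nat_lit 14) (.e (nat_lit 491571) (nat_lit 13) (.e (nat_lit 393299) (nat_lit 27) .nil))))) (.g (nat_lit 1) (.e (nat_lit 363292) (nat_lit 0) .nil) .nil)))))) (.nd (nat_lit 7) (.nd (nat_lit 8) (.nd (nat_lit 9) 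
(.lf (nat_lit 574591) (.g (nat_lit 2905) (.e (nat_lit 483409) (nat_lit 27) (.e (nat_lit 401459) (nat_lit 13) (.e (nat_lit 483409) (nat_lit 27) (.e (nat_lit 401457) (nat_lit 13) .nil)))) (.g (nat_lit 1) (.e (nat_lit 361409) (nat_lit 0) .nil) .nil))) 
(.lf (nat_lit 575103) (.g (nat_lit 3098) (.e (nat_lit 491540) (nat_lit 3) (.e (nat_lit 98372) (nat_lit 29) (.e (nat_lit 450588) (nat_lit 10) (.e (nat_lit 573452) (nat_lit 9) (.e (nat_lit 428) (nat_lit 32) .nil))))) (.g (nat_lit 0) (.e (nat_lit 362868) (nat_lit 0) .nil) .nil)))) (.nd (nat_lit 9) 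
(.lf (nat_lit 574847) (.g (nat_lit 4468) (.e (nat_lit 491537) (nat_lit 2) (.e (nat_lit 90170) (nat_lit 13) (.e (nat_lit 172106) (nat_lit 10) (.e (nat_lit 434244) (nat_lit 28) (.e (nat_lit 573451) (nat_lit 9) (.e (nat_lit 430) (nat_lit 32) (.e (nat_lit 426341) (nat_lit 14) .nil))))))) (.g (nat_lit 1) (.e (nat_lit 362585) (nat_lit 0) .nil) .nil))) 
(.lf (nat_lit 575359) (.g (nat_lit 3554) (.e (nat_lit 491549) (nat_lit 9) (.e (nat_lit 336430) (nat_lit 29) (.e (nat_lit 442421) (nat_lit 21) (.e (nat_lit 164348) (nat_lit 240) (.e (nat_lit 2629) (nat_lit 164) (.e (nat_lit 172126) (nat_lit 14) .nil)))))) (.g (nat_lit 1) (.e (nat_lit 363199) (nat_lit 0) .nil) .nil))))) (.nd (nat_lit 8) (.nd (nat_lit 9) 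
(.lf (nat_lit 574719) (.g (nat_lit 5064) (.e (nat_lit 491525) (nat_lit 0) (.e (nat_lit 1799) (nat_lit 119) (.e (nat_lit 516166) (nat_lit 12) (.e (nat_lit 450588) (nat_lit 10) (.e (nat_lit 573470) (nat_lit 11) .nil))))) (.g (nat_lit 0) (.e (nat_lit 362434) (nat_lit 0) .nil) .nil))) 
(.lf (nat_lit 575231) (.g (nat_lit 1877) (.e (nat_lit 491540) (nat_lit 3) (.e (nat_lit 98373) (nat_lit 29) (.e (nat_lit 450588) (nat_lit 10) (.e (nat_lit 573450) (nat_lit 9) .nil)))) (.g (nat_lit 0) (.e (nat_lit 362998) (nat_lit 0) .nil) .nil)))) (.nd (nat_lit 9) 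
(.lf (nat_lit 574975) (.g (nat_lit 1639) (.e (nat_lit 491539) (nat_lit 3) (.e (nat_lit 98365) (nat_lit 26) (.e (nat_lit 426188) (nat_lit 9) (.e (nat_lit 426354) (nat_lit 15) (.e (nat_lit 1860) (nat_lit 124) .nil))))) (.g (nat_lit 0) (.e (nat_lit 362721) (nat_lit 0) .nil) .nil))) 
(.lf (nat_lit 575487) (.g (nat_lit 356) (.e (nat_lit 491560) (nat_lit 10) (.e (nat_lit 344177) (nat_lit 43) (.e (nat_lit 770072) (nat_lit 8) .nil))) (.g (nat_lit 0) (.e (nat_lit 363362) (nat_lit 0) .nil) .nil)))))))))))))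

noncomputable def tv5622 : DT := (.nd (nat_lit 0) (.nd (nat_lit 1) (.nd (nat_lit 2) (.nd (nat_lit 3) (.nd (nat_lit 4) (.nd (nat_lit 5) (.nd (nat_lit 6) (.nd (nat_lit 7) (.nd (nat_lit 8) (.nd (nat_lit 9) 
(.lf (nat_lit 575488) (.g (nat_lit 1352) (.e (nat_lit 491560) (nat_lit 10) (.e (nat_lit 344177) (nat_lit 43) (.e (nat_lit 770072) (nat_lit 8) (.e (nat_lit 65598) (nat_lit 9) .nil)))) (.g (nat_lit 0) (.e (nat_lit 363364) (nat_lit 0) .nil) .nil))) 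
(.lf (nat_lit 576000) (.g (nat_lit 856) (.e (nat_lit 491571) (nat_lit 13) (.e (nat_lit 393299) (nat_lit 27) (.e (nat_lit 491530) (nat_lit 0) .nil))) (.g (nat_lit 0) (.e (nat_lit 364262) (nat_lit 0) .nil) .nil)))) (.nd (nat_lit 9) 
(.lf (nat_lit 575744) (.g (nat_lit 1053) (.e (nat_lit 491568) (nat_lit 13) (.e (nat_lit 393300) (nat_lit 27) (.e (nat_lit 491546) (nat_lit 9) (.e (nat_lit 336412) (nat_lit 27) .nil)))) (.g (nat_lit 0) (.e (nat_lit 363769) (nat_lit 0) .nil) .nil))) 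
(.lf (nat_lit 576256) (.g (nat_lit 1979) (.e (nat_lit 319528) (nat_lit 16) (.e (nat_lit 286759) (nat_lit 12) (.e (nat_lit 385094) (nat_lit 49) (.e (nat_lit 778486) (nat_lit 12) (.e (nat_lit 164043) (nat_lit 55) .nil))))) (.g (nat_lit 0) (.e (nat_lit 365150) (nat_lit 0) .nil) .nil))))) (.nd (nat_lit 8) (.nd (nat_lit 9) 
(.lf (nat_lit 575616) (.g (nat_lit 4020) (.e (nat_lit 491566) (nat_lit 12) (.e (nat_lit 385072) (nat_lit 31) (.e (nat_lit 573493) (nat_lit 15) (.e (nat_lit 81951) (nat_lit 22) (.e (nat_lit 90133) (nat_lit 9) .nil))))) (.g (nat_lit 0) (.e (nat_lit 363561) (nat_lit 0) .nil) .nil))) 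
(.lf (nat_lit 576128) (.g (nat_lit 2684) (.e (nat_lit 319491) (nat_lit 0) (.e (nat_lit 5664) (nat_lit 312) (.e (nat_lit 3085) (nat_lit 191) (.e (nat_lit 483412) (nat_lit 27) (.e (nat_lit 401440) (nat_lit 9) (.e (nat_lit 426470) (nat_lit 25) .nil)))))) (.g (nat_lit 1) (.e (nat_lit 364675) (nat_lit 0) .nil) .nil)))) (.nd (nat_lit 9) 
(.lf (nat_lit 575872) (.g (nat_lit 1004) (.e (nat_lit 491570) (nat_lit 13) (.e (nat_lit 393259) (nat_lit 21) (.e (nat_lit 409641) (nat_lit 17) (.e (nat_lit 302848) (nat_lit 27) .nil)))) (.g (nat_lit 0) (.e (nat_lit 363942) (nat_lit 0) .nil) .nil))) 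
(.lf (nat_lit 576384) (.g (nat_lit 3320) (.e (nat_lit 319533) (nat_lit 16) (.e (nat_lit 286735) (nat_lit 3) (.e (nat_lit 98364) (nat_lit 26) (.e (nat_lit 426200) (nat_lit 9) (.e (nat_lit 426131) (nat_lit 3) (.e (nat_lit 204846) (nat_lit 24) .nil)))))) (.g (nat_lit 1) (.e (nat_lit 365400) (nat_lit 0) .nil) .nil)))))) (.nd (nat_lit 7) (.nd (nat_lit 8) (.nd (nat_lit 9) 
(.lf (nat_lit 575552) (.g (nat_lit 3818) (.e (nat_lit 491565) (nat_lit 12) (.e (nat_lit 385072) (nat_lit 31) (.e (nat_lit 573493) (nat_lit 15) (.e (nat_lit 81954) (nat_lit 23) (.e (nat_lit 98387) (nat_lit 33) .nil))))) (.g (nat_lit 0) (.e (nat_lit 363437) (nat_lit 0) .nil) .nil))) 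
(.lf (nat_lit 576064) (.g (nat_lit 3489) (.e (nat_lit 319490) (nat_lit 0) (.e (nat_lit 5664) (nat_lit 312) (.e (nat_lit 2887) (nat_lit 184) (.e (nat_lit 426499) (nat_lit 27) (.e (nat_lit 336231) (nat_lit 14) (.e (nat_lit 401440) (nat_lit 9) (.e (nat_lit 426470) (nat_lit 25) .nil))))))) (.g (nat_lit 1) (.e (nat_lit 364546) (nat_lit 0) .nil) .nil)))) (.nd (nat_lit 9) 
(.lf (nat_lit 575808) (.g (nat_lit 2906) (.e (nat_lit 491569) (nat_lit 13) (.e (nat_lit 393301) (nat_lit 27) (.e (nat_lit 491558) (nat_lit 10) (.e (nat_lit 344091) (nat_lit 18) (.e (nat_lit 6850) (nat_lit 371) (.e (nat_lit 2437) (nat_lit 157) (.e (nat_lit 3105) (nat_lit 192) .nil))))))) (.g (nat_lit 1) (.e (nat_lit 363865) (nat_lit 0) .nil) .nil))) 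
(.lf (nat_lit 576320) (.g (nat_lit 492) (.e (nat_lit 319531) (nat_lit 16) (.e (nat_lit 286735) (nat_lit 3) (.e (nat_lit 98354) (nat_lit 26) .nil))) (.g (nat_lit 0) (.e (nat_lit 365295) (nat_lit 0) .nil) .nil))))) (.nd (nat_lit 8) (.nd (nat_lit 9) 
(.lf (nat_lit 575680) (.g (nat_lit 2403) (.e (nat_lit 491566) (nat_lit 12) (.e (nat_lit 385093) (nat_lit 49) (.e (nat_lit 778326) (nat_lit 6) (.e (nat_lit 81948) (nat_lit 21) (.e (nat_lit 57927) (nat_lit 282) (.e (nat_lit 163946) (nat_lit 20) .nil)))))) (.g (nat_lit 1) (.e (nat_lit 363677) (nat_lit 0) .nil) .nil))) 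
(.lf (nat_lit 576192) (.g (nat_lit 697) (.e (nat_lit 319526) (nat_lit 15) (.e (nat_lit 278546) (nat_lit 8) (.e (nat_lit 303124) (nat_lit 7) (.e (nat_lit 409636) (nat_lit 14) (.e (nat_lit 270373) (nat_lit 16) (.e (nat_lit 286740) (nat_lit 7) .nil)))))) (.g (nat_lit 1) (.e (nat_lit 365028) (nat_lit 0) .nil) .nil)))) (.nd (nat_lit 9) 
(.lf (nat_lit 575936) (.g (nat_lit 1572) (.e (nat_lit 491571) (nat_lit 13) (.e (nat_lit 393238) (nat_lit 17) (.e (nat_lit 7107) (nat_lit 380) (.e (nat_lit 164340) (nat_lit 232) .nil)))) (.g (nat_lit 0) (.e (nat_lit 364074) (nat_lit 0) .nil) .nil))) 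
(.lf (nat_lit 576448) (.g (nat_lit 2716) (.e (nat_lit 319534) (nat_lit 16) (.e (nat_lit 286756) (nat_lit 10) (.e (nat_lit 344160) (nat_lit 37) (.e (nat_lit 647203) (nat_lit 14) (.e (nat_lit 2510) (nat_lit 157) (.e (nat_lit 879) (nat_lit 75) (.e (nat_lit 778464) (nat_lit 11) (.e (nat_lit 24617) (nat_lit 7) .nil)))))))) (.g (nat_lit 1) (.e (nat_lit 365494) (nat_lit 0) .nil) .nil))))))) 
(.nd (nat_lit 6) (.nd (nat_lit 7) (.nd (nat_lit 8) (.nd (nat_lit 9) 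
(.lf (nat_lit 575520) (.g (nat_lit 3309) (.e (nat_lit 491564) (nat_lit 12) (.e (nat_lit 385072) (nat_lit 31) (.e (nat_lit 573493) (nat_lit 15) (.e (nat_lit 81953) (nat_lit 22) (.e (nat_lit 90134) (nat_lit 9) (.e (nat_lit 3098) (nat_lit 192) .nil)))))) (.g (nat_lit 1) (.e (nat_lit 363400) (nat_lit 0) .nil) .nil))) 
(.lf (nat_lit 576032) (.g (nat_lit 3329) (.e (nat_lit 491572) (nat_lit 14) (.e (nat_lit 401459) (nat_lit 13) (.e (nat_lit 483372) (nat_lit 21) (.e (nat_lit 319531) (nat_lit 16) .nil)))) (.g (nat_lit 0) (.e (nat_lit 364310) (nat_lit 0) .nil) .nil)))) (.nd (nat_lit 9) 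
(.lf (nat_lit 575776) (.g (nat_lit 1361) (.e (nat_lit 491569) (nat_lit 13) (.e (nat_lit 393268) (nat_lit 23) (.e (nat_lit 426444) (nat_lit 19) (.e (nat_lit 114432) (nat_lit 4) .nil)))) (.g (nat_lit 0) (.e (nat_lit 363815) (nat_lit 0) .nil) .nil))) 
(.lf (nat_lit 576288) (.g (nat_lit 1615) (.e (nat_lit 319530) (nat_lit 16) (.e (nat_lit 286735) (nat_lit 3) (.e (nat_lit 98367) (nat_lit 27) (.e (nat_lit 442112) (nat_lit 8) .nil)))) (.g (nat_lit 0) (.e (nat_lit 365229) (nat_lit 0) .nil) .nil))))) (.nd (nat_lit 8) (.nd (nat_lit 9) 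
(.lf (nat_lit 575648) (.g (nat_lit 4161) (.e (nat_lit 491566) (nat_lit 12) (.e (nat_lit 385073) (nat_lit 31) (.e (nat_lit 573493) (nat_lit 15) (.e (nat_lit 81956) (nat_lit 23) (.e (nat_lit 106240) (nat_lit 33) .nil))))) (.g (nat_lit 1) (.e (nat_lit 363619) (nat_lit 0) .nil) .nil))) 
(.lf (nat_lit 576160) (.g (nat_lit 1637) (.e (nat_lit 327424) (nat_lit 8) (.e (nat_lit 303117) (nat_lit 2) (.e (nat_lit 196668) (nat_lit 14) (.e (nat_lit 73782) (nat_lit 32) .nil)))) (.g (nat_lit 0) (.e (nat_lit 364783) (nat_lit 0) .nil) .nil)))) (.nd (nat_lit 9) 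
(.lf (nat_lit 575904) (.g (nat_lit 1172) (.e (nat_lit 491570) (nat_lit 13) (.e (nat_lit 393290) (nat_lit 26) (.e (nat_lit 475211) (nat_lit 41) (.e (nat_lit 712742) (nat_lit 27) .nil)))) (.g (nat_lit 0) (.e (nat_lit 364019) (nat_lit 0) .nil) .nil))) 
(.lf (nat_lit 576416) (.g (nat_lit 2514) (.e (nat_lit 319534) (nat_lit 16) (.e (nat_lit 286734) (nat_lit 3) (.e (nat_lit 98365) (nat_lit 26) (.e (nat_lit 426188) (nat_lit 9) (.e (nat_lit 426130) (nat_lit 3) .nil))))) (.g (nat_lit 0) (.e (nat_lit 365459) (nat_lit 0) .nil) .nil)))))) (.nd (nat_lit 7) (.nd (nat_lit 8) (.nd (nat_lit 9) 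
(.lf (nat_lit 575584) (.g (nat_lit 880) (.e (nat_lit 491566) (nat_lit 12) (.e (nat_lit 392960) (nat_lit 24) (.e (nat_lit 516144) (nat_lit 9) (.e (nat_lit 426323) (nat_lit 13) (.e (nat_lit 491264) (nat_lit 16) .nil))))) (.g (nat_lit 1) (.e (nat_lit 363522) (nat_lit 0) .nil) .nil))) 
(.lf (nat_lit 576096) (.g (nat_lit 3731) (.e (nat_lit 319490) (nat_lit 0) (.e (nat_lit 5664) (nat_lit 312) (.e (nat_lit 3085) (nat_lit 191) (.e (nat_lit 483413) (nat_lit 27) (.e (nat_lit 401444) (nat_lit 9) (.e (nat_lit 433920) (nat_lit 25) .nil)))))) (.g (nat_lit 1) (.e (nat_lit 364595) (nat_lit 0) .nil) .nil)))) (.nd (nat_lit 9) 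
(.lf (nat_lit 575840) (.g (nat_lit 3206) (.e (nat_lit 491569) (nat_lit 13) (.e (nat_lit 393301) (nat_lit 27) (.e (nat_lit 491560) (nat_lit 10) (.e (nat_lit 344091) (nat_lit 18) (.e (nat_lit 6940) (nat_lit 375) (.e (nat_lit 163945) (nat_lit 20) .nil)))))) (.g (nat_lit 1) (.e (nat_lit 363897) (nat_lit 0) .nil) .nil))) 
(.lf (nat_lit 576352) (.g (nat_lit 1033) (.e (nat_lit 319533) (nat_lit 16) (.e (nat_lit 286732) (nat_lit 2) (.e (nat_lit 90166) (nat_lit 13) (.e (nat_lit 172109) (nat_lit 10) .nil)))) (.g (nat_lit 0) (.e (nat_lit 365362) (nat_lit 0) .nil) .nil))))) (.nd (nat_lit 8) (.nd (nat_lit 9) 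
(.lf (nat_lit 575712) (.g (nat_lit 858) (.e (nat_lit 491566) (nat_lit 12) (.e (nat_lit 385109) (nat_lit 51) (.e (nat_lit 794683) (nat_lit 25) .nil))) (.g (nat_lit 0) (.e (nat_lit 363730) (nat_lit 0) .nil) .nil))) 
(.lf (nat_lit 576224) (.g (nat_lit 1214) (.e (nat_lit 319528) (nat_lit 16) (.e (nat_lit 286733) (nat_lit 2) (.e (nat_lit 90169) (nat_lit 13) (.e (nat_lit 172057) (nat_lit 0) .nil)))) (.g (nat_lit 0) (.e (nat_lit 365116) (nat_lit 0) .nil) .nil)))) (.nd (nat_lit 9) 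
(.lf (nat_lit 575968) (.g (nat_lit 632) (.e (nat_lit 491571) (nat_lit 13) (.e (nat_lit 393260) (nat_lit 21) (.e (nat_lit 409625) (nat_lit 10) .nil))) (.g (nat_lit 0) (.e (nat_lit 364135) (nat_lit 0) .nil) .nil))) 
(.lf (nat_lit 576480) (.g (nat_lit 3758) (.e (nat_lit 319535) (nat_lit 17) (.e (nat_lit 294928) (nat_lit 2) (.e (nat_lit 90175) (nat_lit 15) (.e (nat_lit 188452) (nat_lit 23) (.e (nat_lit 204846) (nat_lit 24) .nil))))) (.g (nat_lit 1) (.e (nat_lit 365571) (nat_lit 0) .nil) .nil)))))))) (.nd (nat_lit 5) (.nd (nat_lit 6) (.nd (nat_lit 7) (.nd (nat_lit 8) (.nd (nat_lit 9) 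
(.lf (nat_lit 575504) (.g (nat_lit 2059) (.e (nat_lit 491562) (nat_lit 12) (.e (nat_lit 385074) (nat_lit 31) (.e (nat_lit 573484) (nat_lit 13) (.e (nat_lit 65617) (nat_lit 10) .nil)))) (.g (nat_lit 0) (.e (nat_lit 363383) (nat_lit 0) .nil) .nil))) 
(.lf (nat_lit 576016) (.g (nat_lit 2918) (.e (nat_lit 491571) (nat_lit 13) (.e (nat_lit 393299) (nat_lit 27) (.e (nat_lit 491560) (nat_lit 10) (.e (nat_lit 344096) (nat_lit 18) (.e (nat_lit 6940) (nat_lit 375) (.e (nat_lit 163946) (nat_lit 20) .nil)))))) (.g (nat_lit 1) (.e (nat_lit 364281) (nat_lit 0) .nil) .nil)))) (.nd (nat_lit 9) 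
(.lf (nat_lit 575760) (.g (nat_lit 1582) (.e (nat_lit 491568) (nat_lit 13) (.e (nat_lit 393301) (nat_lit 27) (.e (nat_lit 491560) (nat_lit 10) (.e (nat_lit 344094) (nat_lit 18) .nil)))) (.g (nat_lit 0) (.e (nat_lit 363786) (nat_lit 0) .nil) .nil))) 
(.lf (nat_lit 576272) (.g (nat_lit 2313) (.e (nat_lit 319529) (nat_lit 16) (.e (nat_lit 286735) (nat_lit 3) (.e (nat_lit 98367) (nat_lit 27) (.e (nat_lit 434183) (nat_lit 8) .nil)))) (.g (nat_lit 0) (.e (nat_lit 365181) (nat_lit 0) .nil) .nil))))) (.nd (nat_lit 8) (.nd (nat_lit 9) 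
(.lf (nat_lit 575632) (.g (nat_lit 1530) (.e (nat_lit 491566) (nat_lit 12) (.e (nat_lit 385073) (nat_lit 31) (.e (nat_lit 573492) (nat_lit 15) (.e (nat_lit 81953) (nat_lit 22) .nil)))) (.g (nat_lit 0) (.e (nat_lit 363582) (nat_lit 0) .nil) .nil))) 
(.lf (nat_lit 576144) (.g (nat_lit 2170) (.e (nat_lit 319492) (nat_lit 0) (.e (nat_lit 5664) (nat_lit 312) (.e (nat_lit 3085) (nat_lit 191) (.e (nat_lit 483346) (nat_lit 17) (.e (nat_lit 6718) (nat_lit 361) .nil))))) (.g (nat_lit 0) (.e (nat_lit 364726) (nat_lit 0) .nil) .nil)))) (.nd (nat_lit 9) 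
(.lf (nat_lit 575888) (.g (nat_lit 3105) (.e (nat_lit 491570) (nat_lit 13) (.e (nat_lit 393260) (nat_lit 21) (.e (nat_lit 409649) (nat_lit 18) (.e (nat_lit 303111) (nat_lit 0) (.e (nat_lit 3579) (nat_lit 223) (.e (nat_lit 745473) (nat_lit 0) (.e (nat_lit 498) (nat_lit 40) .nil))))))) (.g (nat_lit 1) (.e (nat_lit 363962) (nat_lit 0) .nil) .nil))) 
(.lf (nat_lit 576400) (.g (nat_lit 1746) (.e (nat_lit 319533) (nat_lit 16) (.e (nat_lit 286758) (nat_lit 12) (.e (nat_lit 385109) (nat_lit 51) (.e (nat_lit 794680) (nat_lit 24) .nil)))) (.g (nat_lit 0) (.e (nat_lit 365419) (nat_lit 0) .nil) .nil)))))) (.nd (nat_lit 7) (.nd (nat_lit 8) (.nd (nat_lit 9) 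
(.lf (nat_lit 575568) (.g (nat_lit 3297) (.e (nat_lit 491565) (nat_lit 12) (.e (nat_lit 385074) (nat_lit 31) (.e (nat_lit 573493) (nat_lit 15) (.e (nat_lit 81956) (nat_lit 23) (.e (nat_lit 106240) (nat_lit 33) .nil))))) (.g (nat_lit 0) (.e (nat_lit 363475) (nat_lit 0) .nil) .nil))) 
(.lf (nat_lit 576080) (.g (nat_lit 2005) (.e (nat_lit 319490) (nat_lit 0) (.e (nat_lit 5664) (nat_lit 312) (.e (nat_lit 3085) (nat_lit 191) (.e (nat_lit 483377) (nat_lit 22) (.e (nat_lit 327708) (nat_lit 10) (.e (nat_lit 5612) (nat_lit 312) (.e (nat_lit 216) (nat_lit 19) .nil))))))) (.g (nat_lit 1) (.e (nat_lit 364578) (nat_lit 0) .nil) .nil)))) (.nd (nat_lit 9) 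
(.lf (nat_lit 575824) (.g (nat_lit 3679) (.e (nat_lit 491569) (nat_lit 13) (.e (nat_lit 393301) (nat_lit 27) (.e (nat_lit 491559) (nat_lit 10) (.e (nat_lit 344091) (nat_lit 18) (.e (nat_lit 6923) (nat_lit 371) (.e (nat_lit 2477) (nat_lit 157) (.e (nat_lit 3096) (nat_lit 192) .nil))))))) (.g (nat_lit 1) (.e (nat_lit 363881) (nat_lit 0) .nil) .nil))) 
(.lf (nat_lit 576336) (.g (nat_lit 1822) (.e (nat_lit 319532) (nat_lit 16) (.e (nat_lit 286732) (nat_lit 2) (.e (nat_lit 90176) (nat_lit 15) (.e (nat_lit 188437) (nat_lit 20) .nil)))) (.g (nat_lit 0) (.e (nat_lit 365323) (nat_lit 0) .nil) .nil))))) (.nd (nat_lit 8) (.nd (nat_lit 9) 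
(.lf (nat_lit 575696) (.g (nat_lit 1514) (.e (nat_lit 491566) (nat_lit 12) (.e (nat_lit 385104) (nat_lit 50) (.e (nat_lit 786483) (nat_lit 30) (.e (nat_lit 360454) (nat_lit 0) .nil)))) (.g (nat_lit 0) (.e (nat_lit 363710) (nat_lit 0) .nil) .nil))) 
(.lf (nat_lit 576208) (.g (nat_lit 2544) (.e (nat_lit 319538) (nat_lit 19) (.e (nat_lit 311315) (nat_lit 3) (.e (nat_lit 204846) (nat_lit 24) (.e (nat_lit 319534) (nat_lit 16) (.e (nat_lit 286728) (nat_lit 0) (.e (nat_lit 1842) (nat_lit 123) (.e (nat_lit 548873) (nat_lit 5) (.e (nat_lit 1395) (nat_lit 106) .nil)))))))) (.g (nat_lit 1) (.e (nat_lit 365087) (nat_lit 0) .nil) .nil)))) 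
(.nd (nat_lit 9) 
(.lf (nat_lit 575952) (.g (nat_lit 566) (.e (nat_lit 491571) (nat_lit 13) (.e (nat_lit 393260) (nat_lit 21) (.e (nat_lit 409612) (nat_lit 10) .nil))) (.g (nat_lit 0) (.e (nat_lit 364118) (nat_lit 0) .nil) .nil))) 
(.lf (nat_lit 576464) (.g (nat_lit 2592) (.e (nat_lit 327424) (nat_lit 16) (.e (nat_lit 286733) (nat_lit 2) (.e (nat_lit 90170) (nat_lit 13) (.e (nat_lit 172085) (nat_lit 9) (.e (nat_lit 426140) (nat_lit 3) .nil))))) (.g (nat_lit 0) (.e (nat_lit 365547) (nat_lit 0) .nil) .nil))))))) (.nd (nat_lit 6) (.nd (nat_lit 7) (.nd (nat_lit 8) (.nd (nat_lit 9) 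
(.lf (nat_lit 575536) (.g (nat_lit 3564) (.e (nat_lit 491564) (nat_lit 12) (.e (nat_lit 385074) (nat_lit 31) (.e (nat_lit 573493) (nat_lit 15) (.e (nat_lit 81954) (nat_lit 23) (.e (nat_lit 98389) (nat_lit 33) .nil))))) (.g (nat_lit 0) (.e (nat_lit 363417) (nat_lit 0) .nil) .nil))) 
(.lf (nat_lit 576048) (.g (nat_lit 230) (.e (nat_lit 499456) (nat_lit 29) (.e (nat_lit 442381) (nat_lit 7) (.e (nat_lit 139282) (nat_lit 6) (.e (nat_lit 89856) (nat_lit 19) .nil)))) (.g (nat_lit 0) (.e (nat_lit 364445) (nat_lit 0) .nil) .nil)))) (.nd (nat_lit 9) 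
(.lf (nat_lit 575792) (.g (nat_lit 418) (.e (nat_lit 491569) (nat_lit 13) (.e (nat_lit 393296) (nat_lit 26) (.e (nat_lit 475207) (nat_lit 41) .nil))) (.g (nat_lit 0) (.e (nat_lit 363847) (nat_lit 0) .nil) .nil))) 
(.lf (nat_lit 576304) (.g (nat_lit 1979) (.e (nat_lit 319530) (nat_lit 16) (.e (nat_lit 286759) (nat_lit 12) (.e (nat_lit 385109) (nat_lit 51) (.e (nat_lit 794678) (nat_lit 24) .nil)))) (.g (nat_lit 0) (.e (nat_lit 365245) (nat_lit 0) .nil) .nil))))) (.nd (nat_lit 8) (.nd (nat_lit 9) 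
(.lf (nat_lit 575664) (.g (nat_lit 1220) (.e (nat_lit 491566) (nat_lit 12) (.e (nat_lit 385074) (nat_lit 31) (.e (nat_lit 573493) (nat_lit 15) (.e (nat_lit 81938) (nat_lit 20) .nil)))) (.g (nat_lit 0) (.e (nat_lit 363647) (nat_lit 0) .nil) .nil))) 
(.lf (nat_lit 576176) (.g (nat_lit 2375) (.e (nat_lit 319504) (nat_lit 10) (.e (nat_lit 5389) (nat_lit 301) (.e (nat_lit 57464) (nat_lit 23) (.e (nat_lit 516151) (nat_lit 9) (.e (nat_lit 426289) (nat_lit 10) .nil))))) (.g (nat_lit 0) (.e (nat_lit 364939) (nat_lit 0) .nil) .nil)))) (.nd (nat_lit 9) 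
(.lf (nat_lit 575920) (.g (nat_lit 3590) (.e (nat_lit 491570) (nat_lit 13) (.e (nat_lit 393299) (nat_lit 27) (.e (nat_lit 491552) (nat_lit 9) (.e (nat_lit 336412) (nat_lit 27) (.e (nat_lit 426343) (nat_lit 14) .nil))))) (.g (nat_lit 1) (.e (nat_lit 364040) (nat_lit 0) .nil) .nil))) 
(.lf (nat_lit 576432) (.g (nat_lit 4215) (.e (nat_lit 319534) (nat_lit 16) (.e (nat_lit 286749) (nat_lit 9) (.e (nat_lit 335997) (nat_lit 1) (.e (nat_lit 57692) (nat_lit 156) (.e (nat_lit 163864) (nat_lit 1) (.e (nat_lit 164332) (nat_lit 230) (.e (nat_lit 163905) (nat_lit 12) (.e (nat_lit 426472) (nat_lit 25) .nil)))))))) (.g (nat_lit 1) (.e (nat_lit 365478) (nat_lit 0) .nil) .nil)))))) 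
(.nd (nat_lit 7) (.nd (nat_lit 8) (.nd (nat_lit 9) 
(.lf (nat_lit 575600) (.g (nat_lit 4920) (.e (nat_lit 491566) (nat_lit 12) (.e (nat_lit 385072) (nat_lit 31) (.e (nat_lit 573482) (nat_lit 13) (.e (nat_lit 65604) (nat_lit 9) (.e (nat_lit 336013) (nat_lit 2) (.e (nat_lit 90134) (nat_lit 9) (.e (nat_lit 3096) (nat_lit 192) .nil))))))) (.g (nat_lit 1) (.e (nat_lit 363545) (nat_lit 0) .nil) .nil))) 
(.lf (nat_lit 576112) (.g (nat_lit 313) (.e (nat_lit 319491) (nat_lit 0) (.e (nat_lit 5664) (nat_lit 312) (.e (nat_lit 3085) (nat_lit 191) .nil))) (.g (nat_lit 0) (.e (nat_lit 364658) (nat_lit 0) .nil) .nil)))) (.nd (nat_lit 9) 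
(.lf (nat_lit 575856) (.g (nat_lit 1402) (.e (nat_lit 491570) (nat_lit 13) (.e (nat_lit 393230) (nat_lit 17) (.e (nat_lit 6989) (nat_lit 377) (.e (nat_lit 2777) (nat_lit 178) (.e (nat_lit 286768) (nat_lit 27) .nil))))) (.g (nat_lit 0) (.e (nat_lit 363919) (nat_lit 0) .nil) .nil))) 
(.lf (nat_lit 576368) (.g (nat_lit 3045) (.e (nat_lit 319533) (nat_lit 16) (.e (nat_lit 286734) (nat_lit 3) (.e (nat_lit 98353) (nat_lit 25) (.e (nat_lit 417813) (nat_lit 9) (.e (nat_lit 311315) (nat_lit 3) (.e (nat_lit 204846) (nat_lit 24) .nil)))))) (.g (nat_lit 1) (.e (nat_lit 365382) (nat_lit 0) .nil) .nil))))) (.nd (nat_lit 8) (.nd (nat_lit 9) 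
(.lf (nat_lit 575728) (.g (nat_lit 1177) (.e (nat_lit 491568) (nat_lit 13) (.e (nat_lit 393271) (nat_lit 23) (.e (nat_lit 426442) (nat_lit 19) .nil))) (.g (nat_lit 0) (.e (nat_lit 363749) (nat_lit 0) .nil) .nil))) 
(.lf (nat_lit 576240) (.g (nat_lit 2107) (.e (nat_lit 319528) (nat_lit 16) (.e (nat_lit 286735) (nat_lit 3) (.e (nat_lit 98358) (nat_lit 26) (.e (nat_lit 426227) (nat_lit 9) .nil)))) (.g (nat_lit 0) (.e (nat_lit 365132) (nat_lit 0) .nil) .nil)))) (.nd (nat_lit 9) 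
(.lf (nat_lit 575984) (.g (nat_lit 721) (.e (nat_lit 491571) (nat_lit 13) (.e (nat_lit 393298) (nat_lit 27) (.e (nat_lit 491523) (nat_lit 0) .nil))) (.g (nat_lit 0) (.e (nat_lit 364223) (nat_lit 0) .nil) .nil))) 
(.lf (nat_lit 576496) (.g (nat_lit 1744) (.e (nat_lit 327698) (nat_lit 8) (.e (nat_lit 303119) (nat_lit 3) (.e (nat_lit 204845) (nat_lit 24) (.e (nat_lit 327424) (nat_lit 8) .nil)))) (.g (nat_lit 0) (.e (nat_lit 365964) (nat_lit 0) .nil) .nil))))))))) (.nd (nat_lit 4) (.nd (nat_lit 5) (.nd (nat_lit 6) (.nd (nat_lit 7) (.nd (nat_lit 8) (.nd (nat_lit 9) 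
(.lf (nat_lit 575496) (.g (nat_lit 1154) (.e (nat_lit 491560) (nat_lit 10) (.e (nat_lit 344179) (nat_lit 44) (.e (nat_lit 778466) (nat_lit 11) (.e (nat_lit 24626) (nat_lit 9) .nil)))) (.g (nat_lit 0) (.e (nat_lit 363372) (nat_lit 0) .nil) .nil))) 
(.lf (nat_lit 576008) (.g (nat_lit 2983) (.e (nat_lit 491571) (nat_lit 13) (.e (nat_lit 393299) (nat_lit 27) (.e (nat_lit 491552) (nat_lit 9) (.e (nat_lit 336417) (nat_lit 27) (.e (nat_lit 426338) (nat_lit 14) .nil))))) (.g (nat_lit 1) (.e (nat_lit 364270) (nat_lit 0) .nil) .nil)))) (.nd (nat_lit 9) 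
(.lf (nat_lit 575752) (.g (nat_lit 2356) (.e (nat_lit 491568) (nat_lit 13) (.e (nat_lit 393301) (nat_lit 27) (.e (nat_lit 491559) (nat_lit 10) (.e (nat_lit 344091) (nat_lit 18) (.e (nat_lit 6853) (nat_lit 371) .nil))))) (.g (nat_lit 0) (.e (nat_lit 363778) (nat_lit 0) .nil) .nil))) 
(.lf (nat_lit 576264) (.g (nat_lit 3262) (.e (nat_lit 319529) (nat_lit 16) (.e (nat_lit 286733) (nat_lit 2) (.e (nat_lit 90178) (nat_lit 15) (.e (nat_lit 188450) (nat_lit 23) (.e (nat_lit 204845) (nat_lit 24) .nil))))) (.g (nat_lit 1) (.e (nat_lit 365168) (nat_lit 0) .nil) .nil))))) (.nd (nat_lit 8) (.nd (nat_lit 9) 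
(.lf (nat_lit 575624) (.g (nat_lit 4221) (.e (nat_lit 491566) (nat_lit 12) (.e (nat_lit 385072) (nat_lit 31) (.e (nat_lit 573493) (nat_lit 15) (.e (nat_lit 81956) (nat_lit 23) (.e (nat_lit 106240) (nat_lit 33) .nil))))) (.g (nat_lit 1) (.e (nat_lit 363569) (nat_lit 0) .nil) .nil))) 
(.lf (nat_lit 576136) (.g (nat_lit 3496) (.e (nat_lit 319491) (nat_lit 0) (.e (nat_lit 5664) (nat_lit 312) (.e (nat_lit 3085) (nat_lit 191) (.e (nat_lit 483413) (nat_lit 27) (.e (nat_lit 401444) (nat_lit 9) (.e (nat_lit 433920) (nat_lit 25) .nil)))))) (.g (nat_lit 1) (.e (nat_lit 364683) (nat_lit 0) .nil) .nil)))) (.nd (nat_lit 9) 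
(.lf (nat_lit 575880) (.g (nat_lit 1326) (.e (nat_lit 491570) (nat_lit 13) (.e (nat_lit 393260) (nat_lit 21) (.e (nat_lit 409618) (nat_lit 10) (.e (nat_lit 5364) (nat_lit 298) .nil)))) (.g (nat_lit 0) (.e (nat_lit 363952) (nat_lit 0) .nil) .nil))) 
(.lf (nat_lit 576392) (.g (nat_lit 2552) (.e (nat_lit 319533) (nat_lit 16) (.e (nat_lit 286742) (nat_lit 9) (.e (nat_lit 336337) (nat_lit 20) (.e (nat_lit 221218) (nat_lit 24) (.e (nat_lit 213030) (nat_lit 11) (.e (nat_lit 24617) (nat_lit 7) .nil)))))) (.g (nat_lit 1) (.e (nat_lit 365410) (nat_lit 0) .nil) .nil)))))) (.nd (nat_lit 7) (.nd (nat_lit 8) (.nd (nat_lit 9) 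
(.lf (nat_lit 575560) (.g (nat_lit 2040) (.e (nat_lit 491565) (nat_lit 12) (.e (nat_lit 385074) (nat_lit 31) (.e (nat_lit 573482) (nat_lit 13) (.e (nat_lit 65610) (nat_lit 10) .nil)))) (.g (nat_lit 0) (.e (nat_lit 363466) (nat_lit 0) .nil) .nil))) 
(.lf (nat_lit 576072) (.g (nat_lit 2541) (.e (nat_lit 319490) (nat_lit 0) (.e (nat_lit 5664) (nat_lit 312) (.e (nat_lit 3085) (nat_lit 191) (.e (nat_lit 483346) (nat_lit 17) (.e (nat_lit 6718) (nat_lit 361) (.e (nat_lit 179968) (nat_lit 25) .nil)))))) (.g (nat_lit 1) (.e (nat_lit 364570) (nat_lit 0) .nil) .nil)))) (.nd (nat_lit 9) 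
(.lf (nat_lit 575816) (.g (nat_lit 2509) (.e (nat_lit 491569) (nat_lit 13) (.e (nat_lit 393301) (nat_lit 27) (.e (nat_lit 491558) (nat_lit 10) (.e (nat_lit 344091) (nat_lit 18) (.e (nat_lit 6938) (nat_lit 375) (.e (nat_lit 163945) (nat_lit 20) .nil)))))) (.g (nat_lit 1) (.e (nat_lit 363873) (nat_lit 0) .nil) .nil))) 
(.lf (nat_lit 576328) (.g (nat_lit 2334) (.e (nat_lit 319531) (nat_lit 16) (.e (nat_lit 286748) (nat_lit 9) (.e (nat_lit 336295) (nat_lit 15) (.e (nat_lit 3632) (nat_lit 227) (.e (nat_lit 778570) (nat_lit 15) (.e (nat_lit 65280) (nat_lit 115) (.e (nat_lit 770072) (nat_lit 8) (.e (nat_lit 65586) (nat_lit 7) .nil)))))))) (.g (nat_lit 1) (.e (nat_lit 365304) (nat_lit 0) .nil) .nil))))) 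
(.nd (nat_lit 8) (.nd (nat_lit 9) 
(.lf (nat_lit 575688) (.g (nat_lit 2084) (.e (nat_lit 491566) (nat_lit 12) (.e (nat_lit 385104) (nat_lit 50) (.e (nat_lit 786480) (nat_lit 29) (.e (nat_lit 352307) (nat_lit 21) (.e (nat_lit 57926) (nat_lit 282) .nil))))) (.g (nat_lit 0) (.e (nat_lit 363700) (nat_lit 0) .nil) .nil))) 
(.lf (nat_lit 576200) (.g (nat_lit 4365) (.e (nat_lit 319537) (nat_lit 19) (.e (nat_lit 311315) (nat_lit 3) (.e (nat_lit 204846) (nat_lit 24) (.e (nat_lit 319533) (nat_lit 16) (.e (nat_lit 286724) (nat_lit 0) (.e (nat_lit 1842) (nat_lit 123) (.e (nat_lit 548874) (nat_lit 5) (.e (nat_lit 1395) (nat_lit 106) .nil)))))))) (.g (nat_lit 1) (.e (nat_lit 365078) (nat_lit 0) .nil) .nil)))) 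
(.nd (nat_lit 9) 
(.lf (nat_lit 575944) (.g (nat_lit 1821) (.e (nat_lit 491571) (nat_lit 13) (.e (nat_lit 393242) (nat_lit 17) (.e (nat_lit 7095) (nat_lit 380) (.e (nat_lit 164340) (nat_lit 232) (.e (nat_lit 403) (nat_lit 32) (.e (nat_lit 426340) (nat_lit 14) .nil)))))) (.g (nat_lit 1) (.e (nat_lit 364087) (nat_lit 0) .nil) .nil))) 
(.lf (nat_lit 576456) (.g (nat_lit 2097) (.e (nat_lit 319534) (nat_lit 16) (.e (nat_lit 286759) (nat_lit 12) (.e (nat_lit 385094) (nat_lit 49) (.e (nat_lit 778487) (nat_lit 13) .nil)))) (.g (nat_lit 0) (.e (nat_lit 365504) (nat_lit 0) .nil) .nil))))))) (.nd (nat_lit 6) (.nd (nat_lit 7) (.nd (nat_lit 8) (.nd (nat_lit 9) 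
(.lf (nat_lit 575528) (.g (nat_lit 3220) (.e (nat_lit 491564) (nat_lit 12) (.e (nat_lit 385074) (nat_lit 31) (.e (nat_lit 573484) (nat_lit 13) (.e (nat_lit 65617) (nat_lit 10) .nil)))) (.g (nat_lit 0) (.e (nat_lit 363409) (nat_lit 0) .nil) .nil))) 
(.lf (nat_lit 576040) (.g (nat_lit 1698) (.e (nat_lit 499456) (nat_lit 25) (.e (nat_lit 409649) (nat_lit 18) (.e (nat_lit 303132) (nat_lit 9) (.e (nat_lit 426162) (nat_lit 6) .nil)))) (.g (nat_lit 0) (.e (nat_lit 364386) (nat_lit 0) .nil) .nil)))) (.nd (nat_lit 9) 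
(.lf (nat_lit 575784) (.g (nat_lit 860) (.e (nat_lit 491569) (nat_lit 13) (.e (nat_lit 393291) (nat_lit 26) (.e (nat_lit 475205) (nat_lit 40) .nil))) (.g (nat_lit 0) (.e (nat_lit 363837) (nat_lit 0) .nil) .nil))) 
(.lf (nat_lit 576296) (.g (nat_lit 2393) (.e (nat_lit 319530) (nat_lit 16) (.e (nat_lit 286748) (nat_lit 9) (.e (nat_lit 336295) (nat_lit 15) (.e (nat_lit 3632) (nat_lit 227) (.e (nat_lit 778568) (nat_lit 15) (.e (nat_lit 65280) (nat_lit 115) (.e (nat_lit 770072) (nat_lit 8) (.e (nat_lit 65583) (nat_lit 7) .nil)))))))) (.g (nat_lit 1) (.e (nat_lit 365237) (nat_lit 0) .nil) .nil))))) 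
(.nd (nat_lit 8) (.nd (nat_lit 9) 
(.lf (nat_lit 575656) (.g (nat_lit 2831) (.e (nat_lit 491566) (nat_lit 12) (.e (nat_lit 385074) (nat_lit 31) (.e (nat_lit 573484) (nat_lit 13) (.e (nat_lit 65617) (nat_lit 10) (.e (nat_lit 344117) (nat_lit 21) .nil))))) (.g (nat_lit 0) (.e (nat_lit 363634) (nat_lit 0) .nil) .nil))) 
(.lf (nat_lit 576168) (.g (nat_lit 395) (.e (nat_lit 327424) (nat_lit 8) (.e (nat_lit 303127) (nat_lit 9) (.e (nat_lit 426539) (nat_lit 29) .nil))) (.g (nat_lit 0) (.e (nat_lit 364810) (nat_lit 0) .nil) .nil)))) (.nd (nat_lit 9) 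
(.lf (nat_lit 575912) (.g (nat_lit 1818) (.e (nat_lit 491570) (nat_lit 13) (.e (nat_lit 393294) (nat_lit 26) (.e (nat_lit 475210) (nat_lit 41) (.e (nat_lit 712742) (nat_lit 27) .nil)))) (.g (nat_lit 0) (.e (nat_lit 364032) (nat_lit 0) .nil) .nil))) 
(.lf (nat_lit 576424) (.g (nat_lit 2948) (.e (nat_lit 319534) (nat_lit 16) (.e (nat_lit 286749) (nat_lit 9) (.e (nat_lit 335997) (nat_lit 1) (.e (nat_lit 57688) (nat_lit 156) (.e (nat_lit 163861) (nat_lit 1) (.e (nat_lit 164332) (nat_lit 230) (.e (nat_lit 163902) (nat_lit 12) (.e (nat_lit 426472) (nat_lit 25) .nil)))))))) (.g (nat_lit 1) (.e (nat_lit 365470) (nat_lit 0) .nil) .nil)))))) 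
(.nd (nat_lit 7) (.nd (nat_lit 8) (.nd (nat_lit 9) 
(.lf (nat_lit 575592) (.g (nat_lit 1065) (.e (nat_lit 491566) (nat_lit 12) (.e (nat_lit 392960) (nat_lit 24) (.e (nat_lit 516158) (nat_lit 9) (.e (nat_lit 426187) (nat_lit 9) (.e (nat_lit 426489) (nat_lit 27) (.e (nat_lit 343808) (nat_lit 35) .nil)))))) (.g (nat_lit 1) (.e (nat_lit 363537) (nat_lit 0) .nil) .nil))) 
(.lf (nat_lit 576104) (.g (nat_lit 2911) (.e (nat_lit 319491) (nat_lit 0) (.e (nat_lit 5626) (nat_lit 312) (.e (nat_lit 2685) (nat_lit 168) (.e (nat_lit 204868) (nat_lit 29) (.e (nat_lit 360473) (nat_lit 8) (.e (nat_lit 557073) (nat_lit 9) (.e (nat_lit 214) (nat_lit 19) .nil))))))) (.g (nat_lit 1) (.e (nat_lit 364629) (nat_lit 0) .nil) .nil)))) (.nd (nat_lit 9) 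
(.lf (nat_lit 575848) (.g (nat_lit 3050) (.e (nat_lit 491569) (nat_lit 13) (.e (nat_lit 393301) (nat_lit 27) (.e (nat_lit 491560) (nat_lit 10) (.e (nat_lit 344178) (nat_lit 44) (.e (nat_lit 778279) (nat_lit 0) (.e (nat_lit 7936) (nat_lit 40) .nil)))))) (.g (nat_lit 1) (.e (nat_lit 363905) (nat_lit 0) .nil) .nil))) 
(.lf (nat_lit 576360) (.g (nat_lit 484) (.e (nat_lit 319533) (nat_lit 16) (.e (nat_lit 286733) (nat_lit 2) (.e (nat_lit 90133) (nat_lit 9) .nil))) (.g (nat_lit 0) (.e (nat_lit 365372) (nat_lit 0) .nil) .nil))))) (.nd (nat_lit 8) (.nd (nat_lit 9) 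
(.lf (nat_lit 575720) (.g (nat_lit 864) (.e (nat_lit 491568) (nat_lit 13) (.e (nat_lit 393260) (nat_lit 21) (.e (nat_lit 409621) (nat_lit 10) .nil))) (.g (nat_lit 0) (.e (nat_lit 363741) (nat_lit 0) .nil) .nil))) 
(.lf (nat_lit 576232) (.g (nat_lit 444) (.e (nat_lit 319528) (nat_lit 16) (.e (nat_lit 286735) (nat_lit 3) (.e (nat_lit 98325) (nat_lit 17) .nil))) (.g (nat_lit 0) (.e (nat_lit 365124) (nat_lit 0) .nil) .nil)))) (.nd (nat_lit 9) 
(.lf (nat_lit 575976) (.g (nat_lit 1838) (.e (nat_lit 491571) (nat_lit 13) (.e (nat_lit 393268) (nat_lit 23) (.e (nat_lit 426444) (nat_lit 19) (.e (nat_lit 106500) (nat_lit 0) .nil)))) (.g (nat_lit 0) (.e (nat_lit 364158) (nat_lit 0) .nil) .nil))) 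
(.lf (nat_lit 576488) (.g (nat_lit 1707) (.e (nat_lit 327698) (nat_lit 8) (.e (nat_lit 303116) (nat_lit 2) (.e (nat_lit 196670) (nat_lit 14) (.e (nat_lit 73781) (nat_lit 32) .nil)))) (.g (nat_lit 0) (.e (nat_lit 365948) (nat_lit 0) .nil) .nil)))))))) (.nd (nat_lit 5) (.nd (nat_lit 6) (.nd (nat_lit 7) (.nd (nat_lit 8) (.nd (nat_lit 9) 
(.lf (nat_lit 575512) (.g (nat_lit 2560) (.e (nat_lit 491563) (nat_lit 12) (.e (nat_lit 385073) (nat_lit 31) (.e (nat_lit 573493) (nat_lit 15) (.e (nat_lit 81953) (nat_lit 22) (.e (nat_lit 90134) (nat_lit 9) .nil))))) (.g (nat_lit 0) (.e (nat_lit 363391) (nat_lit 0) .nil) .nil))) 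
(.lf (nat_lit 576024) (.g (nat_lit 1705) (.e (nat_lit 491572) (nat_lit 14) (.e (nat_lit 401458) (nat_lit 13) (.e (nat_lit 483372) (nat_lit 21) (.e (nat_lit 319504) (nat_lit 10) .nil)))) (.g (nat_lit 0) (.e (nat_lit 364302) (nat_lit 0) .nil) .nil)))) (.nd (nat_lit 9) 
(.lf (nat_lit 575768) (.g (nat_lit 2870) (.e (nat_lit 491568) (nat_lit 13) (.e (nat_lit 393301) (nat_lit 27) (.e (nat_lit 491563) (nat_lit 12) (.e (nat_lit 385029) (nat_lit 8) .nil)))) (.g (nat_lit 0) (.e (nat_lit 363794) (nat_lit 0) .nil) .nil))) 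
(.lf (nat_lit 576280) (.g (nat_lit 260) (.e (nat_lit 319530) (nat_lit 16) (.e (nat_lit 286733) (nat_lit 2) (.e (nat_lit 90134) (nat_lit 9) .nil))) (.g (nat_lit 0) (.e (nat_lit 365221) (nat_lit 0) .nil) .nil))))) (.nd (nat_lit 8) (.nd (nat_lit 9) 
(.lf (nat_lit 575640) (.g (nat_lit 6054) (.e (nat_lit 491566) (nat_lit 12) (.e (nat_lit 385073) (nat_lit 31) (.e (nat_lit 573493) (nat_lit 15) (.e (nat_lit 81953) (nat_lit 22) (.e (nat_lit 90128) (nat_lit 9) (.e (nat_lit 3106) (nat_lit 192) .nil)))))) (.g (nat_lit 1) (.e (nat_lit 363611) (nat_lit 0) .nil) .nil))) 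
(.lf (nat_lit 576152) (.g (nat_lit 4226) (.e (nat_lit 319492) (nat_lit 0) (.e (nat_lit 5761) (nat_lit 315) (.e (nat_lit 163962) (nat_lit 25) (.e (nat_lit 532482) (nat_lit 0) (.e (nat_lit 6203) (nat_lit 332) (.e (nat_lit 2798) (nat_lit 180) (.e (nat_lit 303119) (nat_lit 3) (.e (nat_lit 204846) (nat_lit 24) .nil)))))))) (.g (nat_lit 1) (.e (nat_lit 364736) (nat_lit 0) .nil) .nil)))) 
(.nd (nat_lit 9) 
(.lf (nat_lit 575896) (.g (nat_lit 1773) (.e (nat_lit 491570) (nat_lit 13) (.e (nat_lit 393271) (nat_lit 23) (.e (nat_lit 426416) (nat_lit 15) (.e (nat_lit 2174) (nat_lit 143) (.e (nat_lit 712745) (nat_lit 27) .nil))))) (.g (nat_lit 0) (.e (nat_lit 363979) (nat_lit 0) .nil) .nil))) 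
(.lf (nat_lit 576408) (.g (nat_lit 811) (.e (nat_lit 319534) (nat_lit 16) (.e (nat_lit 286732) (nat_lit 2) (.e (nat_lit 90167) (nat_lit 13) .nil))) (.g (nat_lit 0) (.e (nat_lit 365449) (nat_lit 0) .nil) .nil)))))) (.nd (nat_lit 7) (.nd (nat_lit 8) (.nd (nat_lit 9) 
(.lf (nat_lit 575576) (.g (nat_lit 2151) (.e (nat_lit 491566) (nat_lit 12) (.e (nat_lit 385068) (nat_lit 26) (.e (nat_lit 532501) (nat_lit 1) (.e (nat_lit 57734) (nat_lit 182) .nil)))) (.g (nat_lit 0) (.e (nat_lit 363509) (nat_lit 0) .nil) .nil))) 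
(.lf (nat_lit 576088) (.g (nat_lit 2644) (.e (nat_lit 319490) (nat_lit 0) (.e (nat_lit 5664) (nat_lit 312) (.e (nat_lit 3085) (nat_lit 191) (.e (nat_lit 483412) (nat_lit 27) (.e (nat_lit 401434) (nat_lit 9) (.e (nat_lit 433920) (nat_lit 25) .nil)))))) (.g (nat_lit 1) (.e (nat_lit 364586) (nat_lit 0) .nil) .nil)))) (.nd (nat_lit 9) 
(.lf (nat_lit 575832) (.g (nat_lit 2959) (.e (nat_lit 491569) (nat_lit 13) (.e (nat_lit 393301) (nat_lit 27) (.e (nat_lit 491560) (nat_lit 10) (.e (nat_lit 344088) (nat_lit 18) (.e (nat_lit 6942) (nat_lit 375) (.e (nat_lit 163945) (nat_lit 20) .nil)))))) (.g (nat_lit 1) (.e (nat_lit 363889) (nat_lit 0) .nil) .nil))) 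
(.lf (nat_lit 576344) (.g (nat_lit 1611) (.e (nat_lit 319532) (nat_lit 16) (.e (nat_lit 286735) (nat_lit 3) (.e (nat_lit 98356) (nat_lit 26) (.e (nat_lit 433920) (nat_lit 10) .nil)))) (.g (nat_lit 0) (.e (nat_lit 365336) (nat_lit 0) .nil) .nil))))) (.nd (nat_lit 8) (.nd (nat_lit 9) 
(.lf (nat_lit 575704) (.g (nat_lit 3162) (.e (nat_lit 491566) (nat_lit 12) (.e (nat_lit 385105) (nat_lit 50) (.e (nat_lit 786483) (nat_lit 30) (.e (nat_lit 360450) (nat_lit 0) (.e (nat_lit 5595) (nat_lit 310) (.e (nat_lit 163946) (nat_lit 20) .nil)))))) (.g (nat_lit 1) (.e (nat_lit 363720) (nat_lit 0) .nil) .nil))) 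
(.lf (nat_lit 576216) (.g (nat_lit 2408) (.e (nat_lit 319539) (nat_lit 19) (.e (nat_lit 311315) (nat_lit 3) (.e (nat_lit 204846) (nat_lit 24) (.e (nat_lit 319533) (nat_lit 16) (.e (nat_lit 286724) (nat_lit 0) .nil))))) (.g (nat_lit 0) (.e (nat_lit 365097) (nat_lit 0) .nil) .nil)))) (.nd (nat_lit 9) 
(.lf (nat_lit 575960) (.g (nat_lit 3579) (.e (nat_lit 491571) (nat_lit 13) (.e (nat_lit 393260) (nat_lit 21) (.e (nat_lit 409617) (nat_lit 10) (.e (nat_lit 5353) (nat_lit 298) (.e (nat_lit 418) (nat_lit 32) (.e (nat_lit 433920) (nat_lit 14) .nil)))))) (.g (nat_lit 1) (.e (nat_lit 364127) (nat_lit 0) .nil) .nil))) 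
(.lf (nat_lit 576472) (.g (nat_lit 2167) (.e (nat_lit 327424) (nat_lit 16) (.e (nat_lit 286735) (nat_lit 3) (.e (nat_lit 98359) (nat_lit 26) (.e (nat_lit 426216) (nat_lit 9) (.e (nat_lit 426140) (nat_lit 3) .nil))))) (.g (nat_lit 0) (.e (nat_lit 365556) (nat_lit 0) .nil) .nil))))))) (.nd (nat_lit 6) (.nd (nat_lit 7) (.nd (nat_lit 8) (.nd (nat_lit 9) 
(.lf (nat_lit 575544) (.g (nat_lit 738) (.e (nat_lit 491564) (nat_lit 12) (.e (nat_lit 385109) (nat_lit 51) (.e (nat_lit 794684) (nat_lit 25) .nil))) (.g (nat_lit 0) (.e (nat_lit 363428) (nat_lit 0) .nil) .nil))) 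
(.lf (nat_lit 576056) (.g (nat_lit 1472) (.e (nat_lit 499456) (nat_lit 30) (.e (nat_lit 450588) (nat_lit 10) (.e (nat_lit 573503) (nat_lit 18) (.e (nat_lit 992) (nat_lit 81) .nil)))) (.g (nat_lit 0) (.e (nat_lit 364500) (nat_lit 0) .nil) .nil)))) (.nd (nat_lit 9) 
(.lf (nat_lit 575800) (.g (nat_lit 1568) (.e (nat_lit 491569) (nat_lit 13) (.e (nat_lit 393300) (nat_lit 27) (.e (nat_lit 491570) (nat_lit 13) (.e (nat_lit 401152) (nat_lit 27) .nil)))) (.g (nat_lit 0) (.e (nat_lit 363855) (nat_lit 0) .nil) .nil))) 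
(.lf (nat_lit 576312) (.g (nat_lit 1429) (.e (nat_lit 319531) (nat_lit 16) (.e (nat_lit 286733) (nat_lit 2) (.e (nat_lit 90172) (nat_lit 14) (.e (nat_lit 180281) (nat_lit 40) .nil)))) (.g (nat_lit 0) (.e (nat_lit 365287) (nat_lit 0) .nil) .nil))))) (.nd (nat_lit 8) (.nd (nat_lit 9) 
(.lf (nat_lit 575672) (.g (nat_lit 6411) (.e (nat_lit 491566) (nat_lit 12) (.e (nat_lit 385074) (nat_lit 31) (.e (nat_lit 573493) (nat_lit 15) (.e (nat_lit 81953) (nat_lit 22) (.e (nat_lit 90128) (nat_lit 9) (.e (nat_lit 3095) (nat_lit 192) .nil)))))) (.g (nat_lit 1) (.e (nat_lit 363658) (nat_lit 0) .nil) .nil))) 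
(.lf (nat_lit 576184) (.g (nat_lit 1431) (.e (nat_lit 319511) (nat_lit 10) (.e (nat_lit 5293) (nat_lit 298) (.e (nat_lit 1250) (nat_lit 92) (.e (nat_lit 98350) (nat_lit 24) (.e (nat_lit 409602) (nat_lit 0) .nil))))) (.g (nat_lit 0) (.e (nat_lit 364983) (nat_lit 0) .nil) .nil)))) (.nd (nat_lit 9) 
(.lf (nat_lit 575928) (.g (nat_lit 449) (.e (nat_lit 491571) (nat_lit 13) (.e (nat_lit 393238) (nat_lit 17) (.e (nat_lit 6970) (nat_lit 377) .nil))) (.g (nat_lit 0) (.e (nat_lit 364066) (nat_lit 0) .nil) .nil))) 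
(.lf (nat_lit 576440) (.g (nat_lit 2184) (.e (nat_lit 319534) (nat_lit 16) (.e (nat_lit 286756) (nat_lit 10) (.e (nat_lit 344160) (nat_lit 37) (.e (nat_lit 647190) (nat_lit 9) (.e (nat_lit 1025) (nat_lit 81) .nil))))) (.g (nat_lit 0) (.e (nat_lit 365486) (nat_lit 0) .nil) .nil)))))) (.nd (nat_lit 7) (.nd (nat_lit 8) (.nd (nat_lit 9) 
(.lf (nat_lit 575608) (.g (nat_lit 5263) (.e (nat_lit 491566) (nat_lit 12) (.e (nat_lit 385072) (nat_lit 31) (.e (nat_lit 573492) (nat_lit 15) (.e (nat_lit 81953) (nat_lit 22) (.e (nat_lit 90122) (nat_lit 9) (.e (nat_lit 3095) (nat_lit 192) .nil)))))) (.g (nat_lit 1) (.e (nat_lit 363553) (nat_lit 0) .nil) .nil))) 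
(.lf (nat_lit 576120) (.g (nat_lit 1747) (.e (nat_lit 319491) (nat_lit 0) (.e (nat_lit 5664) (nat_lit 312) (.e (nat_lit 3085) (nat_lit 191) (.e (nat_lit 483377) (nat_lit 22) (.e (nat_lit 335616) (nat_lit 18) (.e (nat_lit 311040) (nat_lit 25) .nil)))))) (.g (nat_lit 1) (.e (nat_lit 364666) (nat_lit 0) .nil) .nil)))) (.nd (nat_lit 9) 
(.lf (nat_lit 575864) (.g (nat_lit 1431) (.e (nat_lit 491570) (nat_lit 13) (.e (nat_lit 393238) (nat_lit 17) (.e (nat_lit 7107) (nat_lit 380) (.e (nat_lit 164340) (nat_lit 232) .nil)))) (.g (nat_lit 0) (.e (nat_lit 363928) (nat_lit 0) .nil) .nil))) 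
(.lf (nat_lit 576376) (.g (nat_lit 1723) (.e (nat_lit 319533) (nat_lit 16) (.e (nat_lit 286735) (nat_lit 3) (.e (nat_lit 98325) (nat_lit 17) (.e (nat_lit 6986) (nat_lit 377) .nil)))) (.g (nat_lit 0) (.e (nat_lit 365391) (nat_lit 0) .nil) .nil))))) (.nd (nat_lit 8) (.nd (nat_lit 9) 
(.lf (nat_lit 575736) (.g (nat_lit 4047) (.e (nat_lit 491568) (nat_lit 13) (.e (nat_lit 393291) (nat_lit 26) (.e (nat_lit 475210) (nat_lit 41) (.e (nat_lit 712745) (nat_lit 27) (.e (nat_lit 426347) (nat_lit 14) .nil))))) (.g (nat_lit 1) (.e (nat_lit 363759) (nat_lit 0) .nil) .nil))) 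
(.lf (nat_lit 576248) (.g (nat_lit 1401) (.e (nat_lit 319528) (nat_lit 16) (.e (nat_lit 286735) (nat_lit 3) (.e (nat_lit 98365) (nat_lit 26) (.e (nat_lit 426258) (nat_lit 9) .nil)))) (.g (nat_lit 0) (.e (nat_lit 365140) (nat_lit 0) .nil) .nil)))) (.nd (nat_lit 9) 
(.lf (nat_lit 575992) (.g (nat_lit 2185) (.e (nat_lit 491571) (nat_lit 13) (.e (nat_lit 393298) (nat_lit 27) (.e (nat_lit 491549) (nat_lit 9) (.e (nat_lit 336370) (nat_lit 27) .nil)))) (.g (nat_lit 0) (.e (nat_lit 364244) (nat_lit 0) .nil) .nil))) 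
(.lf (nat_lit 576504) (.g (nat_lit 659) (.e (nat_lit 327699) (nat_lit 8) (.e (nat_lit 303116) (nat_lit 2) (.e (nat_lit 196669) (nat_lit 14) .nil))) (.g (nat_lit 0) (.e (nat_lit 366023) (nat_lit 0) .nil) .nil)))))))))) (.nd (nat_lit 3) (.nd (nat_lit 4) (.nd (nat_lit 5) (.nd (nat_lit 6) (.nd (nat_lit 7) (.nd (nat_lit 8) (.nd (nat_lit 9) 
(.lf (nat_lit 575492) (.g (nat_lit 1693) (.e (nat_lit 491560) (nat_lit 10) (.e (nat_lit 344179) (nat_lit 44) (.e (nat_lit 778466) (nat_lit 11) (.e (nat_lit 24577) (nat_lit 0) (.e (nat_lit 6510) (nat_lit 345) .nil))))) (.g (nat_lit 0) (.e (nat_lit 363368) (nat_lit 0) .nil) .nil))) 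
(.lf (nat_lit 576004) (.g (nat_lit 1779) (.e (nat_lit 491571) (nat_lit 13) (.e (nat_lit 393299) (nat_lit 27) (.e (nat_lit 491549) (nat_lit 9) (.e (nat_lit 336366) (nat_lit 27) .nil)))) (.g (nat_lit 0) (.e (nat_lit 364266) (nat_lit 0) .nil) .nil)))) (.nd (nat_lit 9) 
(.lf (nat_lit 575748) (.g (nat_lit 1720) (.e (nat_lit 491568) (nat_lit 13) (.e (nat_lit 393301) (nat_lit 27) (.e (nat_lit 491556) (nat_lit 9) (.e (nat_lit 343808) (nat_lit 27) .nil)))) (.g (nat_lit 0) (.e (nat_lit 363774) (nat_lit 0) .nil) .nil))) 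
(.lf (nat_lit 576260) (.g (nat_lit 2382) (.e (nat_lit 319529) (nat_lit 16) (.e (nat_lit 286733) (nat_lit 2) (.e (nat_lit 90170) (nat_lit 13) (.e (nat_lit 172097) (nat_lit 9) .nil)))) (.g (nat_lit 0) (.e (nat_lit 365164) (nat_lit 0) .nil) .nil))))) (.nd (nat_lit 8) (.nd (nat_lit 9) 
(.lf (nat_lit 575620) (.g (nat_lit 5558) (.e (nat_lit 491566) (nat_lit 12) (.e (nat_lit 385072) (nat_lit 31) (.e (nat_lit 573493) (nat_lit 15) (.e (nat_lit 81953) (nat_lit 22) (.e (nat_lit 90122) (nat_lit 9) .nil))))) (.g (nat_lit 0) (.e (nat_lit 363565) (nat_lit 0) .nil) .nil))) 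
(.lf (nat_lit 576132) (.g (nat_lit 3241) (.e (nat_lit 319491) (nat_lit 0) (.e (nat_lit 5664) (nat_lit 312) (.e (nat_lit 3085) (nat_lit 191) (.e (nat_lit 483413) (nat_lit 27) (.e (nat_lit 401434) (nat_lit 9) (.e (nat_lit 433920) (nat_lit 25) .nil)))))) (.g (nat_lit 1) (.e (nat_lit 364679) (nat_lit 0) .nil) .nil)))) (.nd (nat_lit 9) 
(.lf (nat_lit 575876) (.g (nat_lit 2735) (.e (nat_lit 491570) (nat_lit 13) (.e (nat_lit 393260) (nat_lit 21) (.e (nat_lit 409617) (nat_lit 10) (.e (nat_lit 5353) (nat_lit 298) (.e (nat_lit 418) (nat_lit 32) (.e (nat_lit 433920) (nat_lit 14) .nil)))))) (.g (nat_lit 1) (.e (nat_lit 363948) (nat_lit 0) .nil) .nil))) 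
(.lf (nat_lit 576388) (.g (nat_lit 2835) (.e (nat_lit 319533) (nat_lit 16) (.e (nat_lit 286735) (nat_lit 3) (.e (nat_lit 98367) (nat_lit 27) (.e (nat_lit 434208) (nat_lit 18) .nil)))) (.g (nat_lit 0) (.e (nat_lit 365404) (nat_lit 0) .nil) .nil)))))) (.nd (nat_lit 7) (.nd (nat_lit 8) (.nd (nat_lit 9) 
(.lf (nat_lit 575556) (.g (nat_lit 3136) (.e (nat_lit 491565) (nat_lit 12) (.e (nat_lit 385073) (nat_lit 31) (.e (nat_lit 573493) (nat_lit 15) (.e (nat_lit 81953) (nat_lit 22) (.e (nat_lit 90133) (nat_lit 9) (.e (nat_lit 3105) (nat_lit 192) .nil)))))) (.g (nat_lit 1) (.e (nat_lit 363457) (nat_lit 0) .nil) .nil))) 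
(.lf (nat_lit 576068) (.g (nat_lit 1662) (.e (nat_lit 319490) (nat_lit 0) (.e (nat_lit 5664) (nat_lit 312) (.e (nat_lit 3085) (nat_lit 191) (.e (nat_lit 483343) (nat_lit 17) .nil)))) (.g (nat_lit 0) (.e (nat_lit 364566) (nat_lit 0) .nil) .nil)))) (.nd (nat_lit 9) 
(.lf (nat_lit 575812) (.g (nat_lit 3255) (.e (nat_lit 491569) (nat_lit 13) (.e (nat_lit 393301) (nat_lit 27) (.e (nat_lit 491558) (nat_lit 10) (.e (nat_lit 344091) (nat_lit 18) (.e (nat_lit 6923) (nat_lit 371) (.e (nat_lit 2423) (nat_lit 157) (.e (nat_lit 3095) (nat_lit 192) .nil))))))) (.g (nat_lit 1) (.e (nat_lit 363869) (nat_lit 0) .nil) .nil))) 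
(.lf (nat_lit 576324) (.g (nat_lit 2567) (.e (nat_lit 319531) (nat_lit 16) (.e (nat_lit 286748) (nat_lit 9) (.e (nat_lit 336046) (nat_lit 6) (.e (nat_lit 147495) (nat_lit 11) (.e (nat_lit 24665) (nat_lit 14) (.e (nat_lit 409344) (nat_lit 25) .nil)))))) (.g (nat_lit 1) (.e (nat_lit 365300) (nat_lit 0) .nil) .nil))))) (.nd (nat_lit 8) (.nd (nat_lit 9) 
(.lf (nat_lit 575684) (.g (nat_lit 2313) (.e (nat_lit 491566) (nat_lit 12) (.e (nat_lit 385093) (nat_lit 49) (.e (nat_lit 778326) (nat_lit 6) (.e (nat_lit 81950) (nat_lit 21) (.e (nat_lit 57931) (nat_lit 282) (.e (nat_lit 163946) (nat_lit 20) .nil)))))) (.g (nat_lit 1) (.e (nat_lit 363681) (nat_lit 0) .nil) .nil))) 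
(.lf (nat_lit 576196) (.g (nat_lit 2650) (.e (nat_lit 319537) (nat_lit 19) (.e (nat_lit 311315) (nat_lit 3) (.e (nat_lit 204846) (nat_lit 24) (.e (nat_lit 319504) (nat_lit 10) (.e (nat_lit 5712) (nat_lit 312) (.e (nat_lit 2505) (nat_lit 157) (.e (nat_lit 3249) (nat_lit 197) (.e (nat_lit 532523) (nat_lit 7) .nil)))))))) (.g (nat_lit 1) (.e (nat_lit 365071) (nat_lit 0) .nil) .nil)))) 
(.nd (nat_lit 9) 
(.lf (nat_lit 575940) (.g (nat_lit 2260) (.e (nat_lit 491571) (nat_lit 13) (.e (nat_lit 393242) (nat_lit 17) (.e (nat_lit 6986) (nat_lit 377) (.e (nat_lit 2781) (nat_lit 178) (.e (nat_lit 286768) (nat_lit 27) (.e (nat_lit 426340) (nat_lit 14) .nil)))))) (.g (nat_lit 1) (.e (nat_lit 364080) (nat_lit 0) .nil) .nil))) 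
(.lf (nat_lit 576452) (.g (nat_lit 2171) (.e (nat_lit 319534) (nat_lit 16) (.e (nat_lit 286759) (nat_lit 12) (.e (nat_lit 385094) (nat_lit 49) (.e (nat_lit 778336) (nat_lit 9) .nil)))) (.g (nat_lit 0) (.e (nat_lit 365499) (nat_lit 0) .nil) .nil))))))) (.nd (nat_lit 6) (.nd (nat_lit 7) (.nd (nat_lit 8) (.nd (nat_lit 9) 
(.lf (nat_lit 575524) (.g (nat_lit 3141) (.e (nat_lit 491564) (nat_lit 12) (.e (nat_lit 385073) (nat_lit 31) (.e (nat_lit 573493) (nat_lit 15) (.e (nat_lit 81951) (nat_lit 22) (.e (nat_lit 90134) (nat_lit 9) .nil))))) (.g (nat_lit 0) (.e (nat_lit 363404) (nat_lit 0) .nil) .nil))) 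
(.lf (nat_lit 576036) (.g (nat_lit 1484) (.e (nat_lit 491577) (nat_lit 15) (.e (nat_lit 3307) (nat_lit 202) (.e (nat_lit 573477) (nat_lit 12) (.e (nat_lit 65280) (nat_lit 206) .nil)))) (.g (nat_lit 0) (.e (nat_lit 364318) (nat_lit 0) .nil) .nil)))) (.nd (nat_lit 9) 
(.lf (nat_lit 575780) (.g (nat_lit 1028) (.e (nat_lit 491569) (nat_lit 13) (.e (nat_lit 393271) (nat_lit 23) (.e (nat_lit 426402) (nat_lit 15) .nil))) (.g (nat_lit 0) (.e (nat_lit 363824) (nat_lit 0) .nil) .nil))) 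
(.lf (nat_lit 576292) (.g (nat_lit 3531) (.e (nat_lit 319530) (nat_lit 16) (.e (nat_lit 286735) (nat_lit 3) (.e (nat_lit 98382) (nat_lit 31) (.e (nat_lit 466967) (nat_lit 20) (.e (nat_lit 3253) (nat_lit 197) (.e (nat_lit 532522) (nat_lit 7) .nil)))))) (.g (nat_lit 1) (.e (nat_lit 365233) (nat_lit 0) .nil) .nil))))) (.nd (nat_lit 8) (.nd (nat_lit 9) 
(.lf (nat_lit 575652) (.g (nat_lit 4263) (.e (nat_lit 491566) (nat_lit 12) (.e (nat_lit 385074) (nat_lit 31) (.e (nat_lit 573482) (nat_lit 13) (.e (nat_lit 65604) (nat_lit 9) (.e (nat_lit 336028) (nat_lit 3) (.e (nat_lit 106240) (nat_lit 33) .nil)))))) (.g (nat_lit 1) (.e (nat_lit 363629) (nat_lit 0) .nil) .nil))) 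
(.lf (nat_lit 576164) (.g (nat_lit 2612) (.e (nat_lit 327424) (nat_lit 8) (.e (nat_lit 303117) (nat_lit 2) (.e (nat_lit 196674) (nat_lit 15) (.e (nat_lit 81946) (nat_lit 20) (.e (nat_lit 1841) (nat_lit 123) .nil))))) (.g (nat_lit 0) (.e (nat_lit 364791) (nat_lit 0) .nil) .nil)))) (.nd (nat_lit 9) 
(.lf (nat_lit 575908) (.g (nat_lit 2253) (.e (nat_lit 491570) (nat_lit 13) (.e (nat_lit 393291) (nat_lit 26) (.e (nat_lit 475210) (nat_lit 41) (.e (nat_lit 712745) (nat_lit 27) (.e (nat_lit 433920) (nat_lit 14) .nil))))) (.g (nat_lit 0) (.e (nat_lit 364025) (nat_lit 0) .nil) .nil))) 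
(.lf (nat_lit 576420) (.g (nat_lit 2604) (.e (nat_lit 319534) (nat_lit 16) (.e (nat_lit 286735) (nat_lit 3) (.e (nat_lit 98379) (nat_lit 31) (.e (nat_lit 466980) (nat_lit 23) (.e (nat_lit 204846) (nat_lit 24) .nil))))) (.g (nat_lit 1) (.e (nat_lit 365464) (nat_lit 0) .nil) .nil)))))) (.nd (nat_lit 7) (.nd (nat_lit 8) (.nd (nat_lit 9) 
(.lf (nat_lit 575588) (.g (nat_lit 482) (.e (nat_lit 491566) (nat_lit 12) (.e (nat_lit 392960) (nat_lit 24) (.e (nat_lit 516152) (nat_lit 9) (.e (nat_lit 426330) (nat_lit 13) (.e (nat_lit 491264) (nat_lit 16) .nil))))) (.g (nat_lit 1) (.e (nat_lit 363528) (nat_lit 0) .nil) .nil))) 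
(.lf (nat_lit 576100) (.g (nat_lit 1294) (.e (nat_lit 319490) (nat_lit 0) (.e (nat_lit 5766) (nat_lit 316) (.e (nat_lit 172150) (nat_lit 27) (.e (nat_lit 335892) (nat_lit 0) (.e (nat_lit 6720) (nat_lit 361) (.e (nat_lit 172143) (nat_lit 25) .nil)))))) (.g (nat_lit 1) (.e (nat_lit 364611) (nat_lit 0) .nil) .nil)))) (.nd (nat_lit 9) 
(.lf (nat_lit 575844) (.g (nat_lit 2982) (.e (nat_lit 491569) (nat_lit 13) (.e (nat_lit 393301) (nat_lit 27) (.e (nat_lit 491560) (nat_lit 10) (.e (nat_lit 344098) (nat_lit 18) .nil)))) (.g (nat_lit 0) (.e (nat_lit 363901) (nat_lit 0) .nil) .nil))) 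
(.lf (nat_lit 576356) (.g (nat_lit 4722) (.e (nat_lit 319533) (nat_lit 16) (.e (nat_lit 286732) (nat_lit 2) (.e (nat_lit 90176) (nat_lit 15) (.e (nat_lit 188452) (nat_lit 23) (.e (nat_lit 204846) (nat_lit 24) .nil))))) (.g (nat_lit 1) (.e (nat_lit 365366) (nat_lit 0) .nil) .nil))))) (.nd (nat_lit 8) (.nd (nat_lit 9) 
(.lf (nat_lit 575716) (.g (nat_lit 1868) (.e (nat_lit 491567) (nat_lit 13) (.e (nat_lit 393291) (nat_lit 26) (.e (nat_lit 475199) (nat_lit 40) (.e (nat_lit 704592) (nat_lit 4) (.e (nat_lit 172126) (nat_lit 14) .nil))))) (.g (nat_lit 0) (.e (nat_lit 363736) (nat_lit 0) .nil) .nil))) 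
(.lf (nat_lit 576228) (.g (nat_lit 493) (.e (nat_lit 319528) (nat_lit 16) (.e (nat_lit 286734) (nat_lit 3) (.e (nat_lit 98380) (nat_lit 31) .nil))) (.g (nat_lit 0) (.e (nat_lit 365120) (nat_lit 0) .nil) .nil)))) (.nd (nat_lit 9) 
(.lf (nat_lit 575972) (.g (nat_lit 1487) (.e (nat_lit 491571) (nat_lit 13) (.e (nat_lit 393260) (nat_lit 21) (.e (nat_lit 409641) (nat_lit 17) (.e (nat_lit 294972) (nat_lit 27) .nil)))) (.g (nat_lit 0) (.e (nat_lit 364146) (nat_lit 0) .nil) .nil))) 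
(.lf (nat_lit 576484) (.g (nat_lit 3386) (.e (nat_lit 319536) (nat_lit 17) (.e (nat_lit 294927) (nat_lit 2) (.e (nat_lit 90170) (nat_lit 13) (.e (nat_lit 172106) (nat_lit 10) (.e (nat_lit 434231) (nat_lit 23) (.e (nat_lit 532523) (nat_lit 7) .nil)))))) (.g (nat_lit 1) (.e (nat_lit 365575) (nat_lit 0) .nil) .nil)))))))) 
(.nd (nat_lit 5) (.nd (nat_lit 6) (.nd (nat_lit 7) (.nd (nat_lit 8) (.nd (nat_lit 9) 
(.lf (nat_lit 575508) (.g (nat_lit 3080) (.e (nat_lit 491562) (nat_lit 12) (.e (nat_lit 385074) (nat_lit 31) (.e (nat_lit 573493) (nat_lit 15) (.e (nat_lit 81954) (nat_lit 23) (.e (nat_lit 98387) (nat_lit 33) .nil))))) (.g (nat_lit 0) (.e (nat_lit 363387) (nat_lit 0) .nil) .nil))) 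
(.lf (nat_lit 576020) (.g (nat_lit 526) (.e (nat_lit 491572) (nat_lit 14) (.e (nat_lit 401435) (nat_lit 9) (.e (nat_lit 426555) (nat_lit 32) .nil))) (.g (nat_lit 0) (.e (nat_lit 364297) (nat_lit 0) .nil) .nil)))) (.nd (nat_lit 9) 
(.lf (nat_lit 575764) (.g (nat_lit 2208) (.e (nat_lit 491568) (nat_lit 13) (.e (nat_lit 393301) (nat_lit 27) (.e (nat_lit 491560) (nat_lit 10) (.e (nat_lit 344170) (nat_lit 41) .nil)))) (.g (nat_lit 0) (.e (nat_lit 363790) (nat_lit 0) .nil) .nil))) 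
(.lf (nat_lit 576276) (.g (nat_lit 583) (.e (nat_lit 319530) (nat_lit 16) (.e (nat_lit 286727) (nat_lit 0) (.e (nat_lit 1855) (nat_lit 124) .nil))) (.g (nat_lit 0) (.e (nat_lit 365196) (nat_lit 0) .nil) .nil))))) (.nd (nat_lit 8) (.nd (nat_lit 9) 
(.lf (nat_lit 575636) (.g (nat_lit 4718) (.e (nat_lit 491566) (nat_lit 12) (.e (nat_lit 385073) (nat_lit 31) (.e (nat_lit 573493) (nat_lit 15) (.e (nat_lit 81953) (nat_lit 22) (.e (nat_lit 90121) (nat_lit 9) (.e (nat_lit 3103) (nat_lit 192) .nil)))))) (.g (nat_lit 1) (.e (nat_lit 363607) (nat_lit 0) .nil) .nil))) 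
(.lf (nat_lit 576148) (.g (nat_lit 1993) (.e (nat_lit 319492) (nat_lit 0) (.e (nat_lit 5664) (nat_lit 312) (.e (nat_lit 3085) (nat_lit 191) (.e (nat_lit 483412) (nat_lit 27) (.e (nat_lit 401434) (nat_lit 9) .nil))))) (.g (nat_lit 0) (.e (nat_lit 364730) (nat_lit 0) .nil) .nil)))) (.nd (nat_lit 9) 
(.lf (nat_lit 575892) (.g (nat_lit 1178) (.e (nat_lit 491570) (nat_lit 13) (.e (nat_lit 393268) (nat_lit 23) (.e (nat_lit 426374) (nat_lit 15) .nil))) (.g (nat_lit 0) (.e (nat_lit 363967) (nat_lit 0) .nil) .nil))) 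
(.lf (nat_lit 576404) (.g (nat_lit 1312) (.e (nat_lit 319533) (nat_lit 16) (.e (nat_lit 286762) (nat_lit 14) (.e (nat_lit 401434) (nat_lit 9) (.e (nat_lit 426109) (nat_lit 1) .nil)))) (.g (nat_lit 0) (.e (nat_lit 365424) (nat_lit 0) .nil) .nil)))))) (.nd (nat_lit 7) (.nd (nat_lit 8) (.nd (nat_lit 9) 
(.lf (nat_lit 575572) (.g (nat_lit 493) (.e (nat_lit 491566) (nat_lit 12) (.e (nat_lit 392960) (nat_lit 22) (.e (nat_lit 499943) (nat_lit 13) (.e (nat_lit 237621) (nat_lit 13) (.e (nat_lit 491264) (nat_lit 16) .nil))))) (.g (nat_lit 1) (.e (nat_lit 363501) (nat_lit 0) .nil) .nil))) 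
(.lf (nat_lit 576084) (.g (nat_lit 2111) (.e (nat_lit 319490) (nat_lit 0) (.e (nat_lit 5664) (nat_lit 312) (.e (nat_lit 3085) (nat_lit 191) (.e (nat_lit 483377) (nat_lit 22) (.e (nat_lit 327718) (nat_lit 19) (.e (nat_lit 319232) (nat_lit 25) .nil)))))) (.g (nat_lit 1) (.e (nat_lit 364582) (nat_lit 0) .nil) .nil)))) (.nd (nat_lit 9) 
(.lf (nat_lit 575828) (.g (nat_lit 2517) (.e (nat_lit 491569) (nat_lit 13) (.e (nat_lit 393301) (nat_lit 27) (.e (nat_lit 491559) (nat_lit 10) (.e (nat_lit 344098) (nat_lit 18) (.e (nat_lit 6902) (nat_lit 371) .nil))))) (.g (nat_lit 0) (.e (nat_lit 363885) (nat_lit 0) .nil) .nil))) 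
(.lf (nat_lit 576340) (.g (nat_lit 2218) (.e (nat_lit 319532) (nat_lit 16) (.e (nat_lit 286733) (nat_lit 2) (.e (nat_lit 90170) (nat_lit 13) (.e (nat_lit 172085) (nat_lit 9) (.e (nat_lit 426135) (nat_lit 3) .nil))))) (.g (nat_lit 0) (.e (nat_lit 365328) (nat_lit 0) .nil) .nil))))) (.nd (nat_lit 8) (.nd (nat_lit 9) 
(.lf (nat_lit 575700) (.g (nat_lit 2776) (.e (nat_lit 491566) (nat_lit 12) (.e (nat_lit 385105) (nat_lit 50) (.e (nat_lit 786480) (nat_lit 29) (.e (nat_lit 352309) (nat_lit 21) (.e (nat_lit 57930) (nat_lit 282) .nil))))) (.g (nat_lit 0) (.e (nat_lit 363716) (nat_lit 0) .nil) .nil))) 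
(.lf (nat_lit 576212) (.g (nat_lit 1745) (.e (nat_lit 319539) (nat_lit 19) (.e (nat_lit 311315) (nat_lit 3) (.e (nat_lit 204845) (nat_lit 24) (.e (nat_lit 319538) (nat_lit 19) (.e (nat_lit 311315) (nat_lit 3) .nil))))) (.g (nat_lit 0) (.e (nat_lit 365092) (nat_lit 0) .nil) .nil)))) (.nd (nat_lit 9) 
(.lf (nat_lit 575956) (.g (nat_lit 2159) (.e (nat_lit 491571) (nat_lit 13) (.e (nat_lit 393260) (nat_lit 21) (.e (nat_lit 409616) (nat_lit 10) (.e (nat_lit 5355) (nat_lit 298) (.e (nat_lit 7936) (nat_lit 32) (.e (nat_lit 426340) (nat_lit 14) .nil)))))) (.g (nat_lit 1) (.e (nat_lit 364123) (nat_lit 0) .nil) .nil))) 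
(.lf (nat_lit 576468) (.g (nat_lit 1866) (.e (nat_lit 327424) (nat_lit 16) (.e (nat_lit 286733) (nat_lit 2) (.e (nat_lit 90176) (nat_lit 15) (.e (nat_lit 188439) (nat_lit 20) .nil)))) (.g (nat_lit 0) (.e (nat_lit 365551) (nat_lit 0) .nil) .nil))))))) (.nd (nat_lit 6) (.nd (nat_lit 7) (.nd (nat_lit 8) (.nd (nat_lit 9) 
(.lf (nat_lit 575540) (.g (nat_lit 1773) (.e (nat_lit 491564) (nat_lit 12) (.e (nat_lit 385094) (nat_lit 49) (.e (nat_lit 778320) (nat_lit 4) (.e (nat_lit 65586) (nat_lit 7) .nil)))) (.g (nat_lit 0) (.e (nat_lit 363423) (nat_lit 0) .nil) .nil))) 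
(.lf (nat_lit 576052) (.g (nat_lit 85) (.e (nat_lit 499456) (nat_lit 30) (.e (nat_lit 450575) (nat_lit 1) (.e (nat_lit 499826) (nat_lit 5) (.e (nat_lit 7936) (nat_lit 23) .nil)))) (.g (nat_lit 0) (.e (nat_lit 364450) (nat_lit 0) .nil) .nil)))) (.nd (nat_lit 9) 
(.lf (nat_lit 575796) (.g (nat_lit 1776) (.e (nat_lit 491569) (nat_lit 13) (.e (nat_lit 393298) (nat_lit 27) (.e (nat_lit 491569) (nat_lit 13) (.e (nat_lit 401152) (nat_lit 27) .nil)))) (.g (nat_lit 0) (.e (nat_lit 363851) (nat_lit 0) .nil) .nil))) 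
(.lf (nat_lit 576308) (.g (nat_lit 1485) (.e (nat_lit 319531) (nat_lit 16) (.e (nat_lit 286732) (nat_lit 2) (.e (nat_lit 90178) (nat_lit 15) (.e (nat_lit 188450) (nat_lit 23) .nil)))) (.g (nat_lit 0) (.e (nat_lit 365278) (nat_lit 0) .nil) .nil))))) (.nd (nat_lit 8) (.nd (nat_lit 9) 
(.lf (nat_lit 575668) (.g (nat_lit 3851) (.e (nat_lit 491566) (nat_lit 12) (.e (nat_lit 385074) (nat_lit 31) (.e (nat_lit 573493) (nat_lit 15) (.e (nat_lit 81951) (nat_lit 22) (.e (nat_lit 90133) (nat_lit 9) (.e (nat_lit 3105) (nat_lit 192) .nil)))))) (.g (nat_lit 1) (.e (nat_lit 363654) (nat_lit 0) .nil) .nil))) 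
(.lf (nat_lit 576180) (.g (nat_lit 558) (.e (nat_lit 319505) (nat_lit 10) (.e (nat_lit 618) (nat_lit 48) (.e (nat_lit 557104) (nat_lit 14) .nil))) (.g (nat_lit 0) (.e (nat_lit 364954) (nat_lit 0) .nil) .nil)))) (.nd (nat_lit 9) 
(.lf (nat_lit 575924) (.g (nat_lit 3871) (.e (nat_lit 491571) (nat_lit 13) (.e (nat_lit 393229) (nat_lit 9) (.e (nat_lit 335995) (nat_lit 1) (.e (nat_lit 57921) (nat_lit 280) .nil)))) (.g (nat_lit 0) (.e (nat_lit 364054) (nat_lit 0) .nil) .nil))) 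
(.lf (nat_lit 576436) (.g (nat_lit 2637) (.e (nat_lit 319534) (nat_lit 16) (.e (nat_lit 286756) (nat_lit 10) (.e (nat_lit 344160) (nat_lit 37) (.e (nat_lit 647190) (nat_lit 9) (.e (nat_lit 984) (nat_lit 81) (.e (nat_lit 2311) (nat_lit 151) (.e (nat_lit 778464) (nat_lit 11) (.e (nat_lit 24617) (nat_lit 7) .nil)))))))) (.g (nat_lit 1) (.e (nat_lit 365482) (nat_lit 0) .nil) .nil)))))) 
(.nd (nat_lit 7) (.nd (nat_lit 8) (.nd (nat_lit 9) 
(.lf (nat_lit 575604) (.g (nat_lit 2392) (.e (nat_lit 491566) (nat_lit 12) (.e (nat_lit 385072) (nat_lit 31) (.e (nat_lit 573485) (nat_lit 13) (.e (nat_lit 65604) (nat_lit 9) (.e (nat_lit 336028) (nat_lit 3) (.e (nat_lit 106240) (nat_lit 33) .nil)))))) (.g (nat_lit 1) (.e (nat_lit 363549) (nat_lit 0) .nil) .nil))) 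
(.lf (nat_lit 576116) (.g (nat_lit 1880) (.e (nat_lit 319491) (nat_lit 0) (.e (nat_lit 5664) (nat_lit 312) (.e (nat_lit 3085) (nat_lit 191) (.e (nat_lit 483346) (nat_lit 17) (.e (nat_lit 6718) (nat_lit 361) .nil))))) (.g (nat_lit 0) (.e (nat_lit 364662) (nat_lit 0) .nil) .nil)))) (.nd (nat_lit 9) 
(.lf (nat_lit 575860) (.g (nat_lit 2276) (.e (nat_lit 491570) (nat_lit 13) (.e (nat_lit 393238) (nat_lit 17) (.e (nat_lit 6989) (nat_lit 377) (.e (nat_lit 2777) (nat_lit 178) (.e (nat_lit 294656) (nat_lit 27) (.e (nat_lit 433920) (nat_lit 14) .nil)))))) (.g (nat_lit 1) (.e (nat_lit 363923) (nat_lit 0) .nil) .nil))) 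
(.lf (nat_lit 576372) (.g (nat_lit 3642) (.e (nat_lit 319533) (nat_lit 16) (.e (nat_lit 286734) (nat_lit 3) (.e (nat_lit 98371) (nat_lit 28) (.e (nat_lit 442427) (nat_lit 23) (.e (nat_lit 204846) (nat_lit 24) .nil))))) (.g (nat_lit 1) (.e (nat_lit 365386) (nat_lit 0) .nil) .nil))))) (.nd (nat_lit 8) (.nd (nat_lit 9) 
(.lf (nat_lit 575732) (.g (nat_lit 1192) (.e (nat_lit 491568) (nat_lit 13) (.e (nat_lit 393283) (nat_lit 24) (.e (nat_lit 434272) (nat_lit 38) (.e (nat_lit 655382) (nat_lit 8) .nil)))) (.g (nat_lit 0) (.e (nat_lit 363754) (nat_lit 0) .nil) .nil))) 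
(.lf (nat_lit 576244) (.g (nat_lit 513) (.e (nat_lit 319528) (nat_lit 16) (.e (nat_lit 286735) (nat_lit 3) (.e (nat_lit 98365) (nat_lit 26) .nil))) (.g (nat_lit 0) (.e (nat_lit 365136) (nat_lit 0) .nil) .nil)))) (.nd (nat_lit 9) 
(.lf (nat_lit 575988) (.g (nat_lit 1298) (.e (nat_lit 491571) (nat_lit 13) (.e (nat_lit 393298) (nat_lit 27) (.e (nat_lit 491548) (nat_lit 9) (.e (nat_lit 336398) (nat_lit 27) .nil)))) (.g (nat_lit 0) (.e (nat_lit 364240) (nat_lit 0) .nil) .nil))) 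
(.lf (nat_lit 576500) (.g (nat_lit 1068) (.e (nat_lit 327698) (nat_lit 8) (.e (nat_lit 303119) (nat_lit 3) (.e (nat_lit 204849) (nat_lit 25) (.e (nat_lit 327700) (nat_lit 8) .nil)))) (.g (nat_lit 0) (.e (nat_lit 365968) (nat_lit 0) .nil) .nil))))))))) (.nd (nat_lit 4) (.nd (nat_lit 5) (.nd (nat_lit 6) (.nd (nat_lit 7) (.nd (nat_lit 8) (.nd (nat_lit 9) 
(.lf (nat_lit 575500) (.g (nat_lit 3474) (.e (nat_lit 491562) (nat_lit 12) (.e (nat_lit 385073) (nat_lit 31) (.e (nat_lit 573493) (nat_lit 15) (.e (nat_lit 81954) (nat_lit 23) (.e (nat_lit 98389) (nat_lit 33) .nil))))) (.g (nat_lit 0) (.e (nat_lit 363378) (nat_lit 0) .nil) .nil))) 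
(.lf (nat_lit 576012) (.g (nat_lit 1838) (.e (nat_lit 491571) (nat_lit 13) (.e (nat_lit 393299) (nat_lit 27) (.e (nat_lit 491560) (nat_lit 10) (.e (nat_lit 344087) (nat_lit 18) (.e (nat_lit 6938) (nat_lit 375) .nil))))) (.g (nat_lit 0) (.e (nat_lit 364275) (nat_lit 0) .nil) .nil)))) (.nd (nat_lit 9) 
(.lf (nat_lit 575756) (.g (nat_lit 2602) (.e (nat_lit 491568) (nat_lit 13) (.e (nat_lit 393301) (nat_lit 27) (.e (nat_lit 491560) (nat_lit 10) (.e (nat_lit 344088) (nat_lit 18) (.e (nat_lit 6923) (nat_lit 371) .nil))))) (.g (nat_lit 0) (.e (nat_lit 363782) (nat_lit 0) .nil) .nil))) 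
(.lf (nat_lit 576268) (.g (nat_lit 4226) (.e (nat_lit 319529) (nat_lit 16) (.e (nat_lit 286735) (nat_lit 3) (.e (nat_lit 98356) (nat_lit 26) (.e (nat_lit 426241) (nat_lit 9) (.e (nat_lit 426139) (nat_lit 3) (.e (nat_lit 204846) (nat_lit 24) .nil)))))) (.g (nat_lit 1) (.e (nat_lit 365175) (nat_lit 0) .nil) .nil))))) (.nd (nat_lit 8) (.nd (nat_lit 9) 
(.lf (nat_lit 575628) (.g (nat_lit 2304) (.e (nat_lit 491566) (nat_lit 12) (.e (nat_lit 385073) (nat_lit 31) (.e (nat_lit 573485) (nat_lit 13) (.e (nat_lit 65604) (nat_lit 9) (.e (nat_lit 336028) (nat_lit 3) (.e (nat_lit 106240) (nat_lit 33) .nil)))))) (.g (nat_lit 1) (.e (nat_lit 363578) (nat_lit 0) .nil) .nil))) 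
(.lf (nat_lit 576140) (.g (nat_lit 1831) (.e (nat_lit 319491) (nat_lit 0) (.e (nat_lit 5771) (nat_lit 316) (.e (nat_lit 172150) (nat_lit 27) (.e (nat_lit 335895) (nat_lit 0) (.e (nat_lit 6720) (nat_lit 361) (.e (nat_lit 172143) (nat_lit 25) .nil)))))) (.g (nat_lit 1) (.e (nat_lit 364689) (nat_lit 0) .nil) .nil)))) (.nd (nat_lit 9) 
(.lf (nat_lit 575884) (.g (nat_lit 1506) (.e (nat_lit 491570) (nat_lit 13) (.e (nat_lit 393260) (nat_lit 21) (.e (nat_lit 409649) (nat_lit 18) (.e (nat_lit 303111) (nat_lit 0) .nil)))) (.g (nat_lit 0) (.e (nat_lit 363958) (nat_lit 0) .nil) .nil))) 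
(.lf (nat_lit 576396) (.g (nat_lit 2787) (.e (nat_lit 319533) (nat_lit 16) (.e (nat_lit 286753) (nat_lit 10) (.e (nat_lit 344179) (nat_lit 44) (.e (nat_lit 778465) (nat_lit 11) (.e (nat_lit 24665) (nat_lit 14) (.e (nat_lit 409344) (nat_lit 25) .nil)))))) (.g (nat_lit 1) (.e (nat_lit 365414) (nat_lit 0) .nil) .nil)))))) (.nd (nat_lit 7) (.nd (nat_lit 8) (.nd (nat_lit 9) 
(.lf (nat_lit 575564) (.g (nat_lit 3386) (.e (nat_lit 491565) (nat_lit 12) (.e (nat_lit 385074) (nat_lit 31) (.e (nat_lit 573493) (nat_lit 15) (.e (nat_lit 81951) (nat_lit 22) (.e (nat_lit 90133) (nat_lit 9) (.e (nat_lit 3105) (nat_lit 192) .nil)))))) (.g (nat_lit 1) (.e (nat_lit 363471) (nat_lit 0) .nil) .nil))) 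
(.lf (nat_lit 576076) (.g (nat_lit 1524) (.e (nat_lit 319490) (nat_lit 0) (.e (nat_lit 5664) (nat_lit 312) (.e (nat_lit 3085) (nat_lit 191) (.e (nat_lit 483376) (nat_lit 22) .nil)))) (.g (nat_lit 0) (.e (nat_lit 364574) (nat_lit 0) .nil) .nil)))) (.nd (nat_lit 9) 
(.lf (nat_lit 575820) (.g (nat_lit 1989) (.e (nat_lit 491569) (nat_lit 13) (.e (nat_lit 393301) (nat_lit 27) (.e (nat_lit 491558) (nat_lit 10) (.e (nat_lit 344096) (nat_lit 18) (.e (nat_lit 6923) (nat_lit 371) .nil))))) (.g (nat_lit 0) (.e (nat_lit 363877) (nat_lit 0) .nil) .nil))) 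
(.lf (nat_lit 576332) (.g (nat_lit 1786) (.e (nat_lit 319531) (nat_lit 16) (.e (nat_lit 286759) (nat_lit 12) (.e (nat_lit 385094) (nat_lit 49) (.e (nat_lit 778445) (nat_lit 9) (.e (nat_lit 2689) (nat_lit 169) .nil))))) (.g (nat_lit 0) (.e (nat_lit 365309) (nat_lit 0) .nil) .nil))))) (.nd (nat_lit 8) (.nd (nat_lit 9) 
(.lf (nat_lit 575692) (.g (nat_lit 315) (.e (nat_lit 491566) (nat_lit 12) (.e (nat_lit 385104) (nat_lit 50) (.e (nat_lit 786483) (nat_lit 30) .nil))) (.g (nat_lit 0) (.e (nat_lit 363704) (nat_lit 0) .nil) .nil))) 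
(.lf (nat_lit 576204) (.g (nat_lit 2746) (.e (nat_lit 319538) (nat_lit 19) (.e (nat_lit 311315) (nat_lit 3) (.e (nat_lit 204846) (nat_lit 24) (.e (nat_lit 319538) (nat_lit 19) (.e (nat_lit 311314) (nat_lit 3) .nil))))) (.g (nat_lit 0) (.e (nat_lit 365083) (nat_lit 0) .nil) .nil)))) (.nd (nat_lit 9) 
(.lf (nat_lit 575948) (.g (nat_lit 603) (.e (nat_lit 491571) (nat_lit 13) (.e (nat_lit 393252) (nat_lit 18) (.e (nat_lit 164413) (nat_lit 260) .nil))) (.g (nat_lit 0) (.e (nat_lit 364113) (nat_lit 0) .nil) .nil))) 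
(.lf (nat_lit 576460) (.g (nat_lit 1965) (.e (nat_lit 319534) (nat_lit 16) (.e (nat_lit 286762) (nat_lit 14) (.e (nat_lit 401446) (nat_lit 10) (.e (nat_lit 434268) (nat_lit 36) (.e (nat_lit 639020) (nat_lit 16) .nil))))) (.g (nat_lit 0) (.e (nat_lit 365509) (nat_lit 0) .nil) .nil))))))) (.nd (nat_lit 6) (.nd (nat_lit 7) (.nd (nat_lit 8) (.nd (nat_lit 9) 
(.lf (nat_lit 575532) (.g (nat_lit 3671) (.e (nat_lit 491564) (nat_lit 12) (.e (nat_lit 385074) (nat_lit 31) (.e (nat_lit 573493) (nat_lit 15) (.e (nat_lit 81951) (nat_lit 22) (.e (nat_lit 90133) (nat_lit 9) .nil))))) (.g (nat_lit 0) (.e (nat_lit 363413) (nat_lit 0) .nil) .nil))) 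
(.lf (nat_lit 576044) (.g (nat_lit 1601) (.e (nat_lit 491582) (nat_lit 27) (.e (nat_lit 426163) (nat_lit 6) (.e (nat_lit 253991) (nat_lit 11) (.e (nat_lit 24320) (nat_lit 18) .nil)))) (.g (nat_lit 0) (.e (nat_lit 364411) (nat_lit 0) .nil) .nil)))) (.nd (nat_lit 9) 
(.lf (nat_lit 575788) (.g (nat_lit 748) (.e (nat_lit 491569) (nat_lit 13) (.e (nat_lit 393294) (nat_lit 26) (.e (nat_lit 475210) (nat_lit 41) .nil))) (.g (nat_lit 0) (.e (nat_lit 363842) (nat_lit 0) .nil) .nil))) 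
(.lf (nat_lit 576300) (.g (nat_lit 2299) (.e (nat_lit 319530) (nat_lit 16) (.e (nat_lit 286759) (nat_lit 12) (.e (nat_lit 385094) (nat_lit 49) (.e (nat_lit 778572) (nat_lit 15) .nil)))) (.g (nat_lit 0) (.e (nat_lit 365241) (nat_lit 0) .nil) .nil))))) (.nd (nat_lit 8) (.nd (nat_lit 9) 
(.lf (nat_lit 575660) (.g (nat_lit 326) (.e (nat_lit 491566) (nat_lit 12) (.e (nat_lit 385074) (nat_lit 31) (.e (nat_lit 573491) (nat_lit 15) .nil))) (.g (nat_lit 0) (.e (nat_lit 363642) (nat_lit 0) .nil) .nil))) 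
(.lf (nat_lit 576172) (.g (nat_lit 1093) (.e (nat_lit 327424) (nat_lit 8) (.e (nat_lit 303145) (nat_lit 13) (.e (nat_lit 483405) (nat_lit 26) (.e (nat_lit 385100) (nat_lit 49) .nil)))) (.g (nat_lit 0) (.e (nat_lit 364875) (nat_lit 0) .nil) .nil)))) (.nd (nat_lit 9) 
(.lf (nat_lit 575916) (.g (nat_lit 1104) (.e (nat_lit 491570) (nat_lit 13) (.e (nat_lit 393298) (nat_lit 27) (.e (nat_lit 491552) (nat_lit 9) (.e (nat_lit 336410) (nat_lit 27) .nil)))) (.g (nat_lit 0) (.e (nat_lit 364036) (nat_lit 0) .nil) .nil))) 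
(.lf (nat_lit 576428) (.g (nat_lit 2998) (.e (nat_lit 319534) (nat_lit 16) (.e (nat_lit 286749) (nat_lit 9) (.e (nat_lit 335997) (nat_lit 1) (.e (nat_lit 57691) (nat_lit 156) (.e (nat_lit 163862) (nat_lit 1) (.e (nat_lit 164332) (nat_lit 230) (.e (nat_lit 163905) (nat_lit 12) (.e (nat_lit 426472) (nat_lit 25) .nil)))))))) (.g (nat_lit 1) (.e (nat_lit 365474) (nat_lit 0) .nil) .nil)))))) 
(.nd (nat_lit 7) (.nd (nat_lit 8) (.nd (nat_lit 9) 
(.lf (nat_lit 575596) (.g (nat_lit 698) (.e (nat_lit 491566) (nat_lit 12) (.e (nat_lit 392960) (nat_lit 24) (.e (nat_lit 516158) (nat_lit 9) (.e (nat_lit 426333) (nat_lit 13) (.e (nat_lit 491264) (nat_lit 16) .nil))))) (.g (nat_lit 1) (.e (nat_lit 363541) (nat_lit 0) .nil) .nil))) 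
(.lf (nat_lit 576108) (.g (nat_lit 2979) (.e (nat_lit 319491) (nat_lit 0) (.e (nat_lit 5664) (nat_lit 312) (.e (nat_lit 2887) (nat_lit 184) (.e (nat_lit 426499) (nat_lit 27) (.e (nat_lit 336231) (nat_lit 14) (.e (nat_lit 401440) (nat_lit 9) (.e (nat_lit 426470) (nat_lit 25) .nil))))))) (.g (nat_lit 1) (.e (nat_lit 364640) (nat_lit 0) .nil) .nil)))) (.nd (nat_lit 9) 
(.lf (nat_lit 575852) (.g (nat_lit 3894) (.e (nat_lit 491569) (nat_lit 13) (.e (nat_lit 393301) (nat_lit 27) (.e (nat_lit 491560) (nat_lit 10) (.e (nat_lit 344179) (nat_lit 44) (.e (nat_lit 778285) (nat_lit 0) (.e (nat_lit 7936) (nat_lit 40) .nil)))))) (.g (nat_lit 1) (.e (nat_lit 363909) (nat_lit 0) .nil) .nil))) 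
(.lf (nat_lit 576364) (.g (nat_lit 1990) (.e (nat_lit 319533) (nat_lit 16) (.e (nat_lit 286733) (nat_lit 2) (.e (nat_lit 90178) (nat_lit 15) (.e (nat_lit 196352) (nat_lit 20) .nil)))) (.g (nat_lit 0) (.e (nat_lit 365378) (nat_lit 0) .nil) .nil))))) (.nd (nat_lit 8) (.nd (nat_lit 9) 
(.lf (nat_lit 575724) (.g (nat_lit 1305) (.e (nat_lit 491568) (nat_lit 13) (.e (nat_lit 393271) (nat_lit 23) (.e (nat_lit 425986) (nat_lit 0) (.e (nat_lit 3411) (nat_lit 212) .nil)))) (.g (nat_lit 0) (.e (nat_lit 363745) (nat_lit 0) .nil) .nil))) 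
(.lf (nat_lit 576236) (.g (nat_lit 1146) (.e (nat_lit 319528) (nat_lit 16) (.e (nat_lit 286735) (nat_lit 3) (.e (nat_lit 98352) (nat_lit 25) (.e (nat_lit 417813) (nat_lit 9) .nil)))) (.g (nat_lit 0) (.e (nat_lit 365128) (nat_lit 0) .nil) .nil)))) (.nd (nat_lit 9) 
(.lf (nat_lit 575980) (.g (nat_lit 2723) (.e (nat_lit 491571) (nat_lit 13) (.e (nat_lit 393297) (nat_lit 27) (.e (nat_lit 491549) (nat_lit 9) (.e (nat_lit 336395) (nat_lit 27) (.e (nat_lit 426340) (nat_lit 14) .nil))))) (.g (nat_lit 1) (.e (nat_lit 364219) (nat_lit 0) .nil) .nil))) 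
(.lf (nat_lit 576492) (.g (nat_lit 1074) (.e (nat_lit 327698) (nat_lit 8) (.e (nat_lit 303118) (nat_lit 3) (.e (nat_lit 204849) (nat_lit 25) (.e (nat_lit 327681) (nat_lit 0) .nil)))) (.g (nat_lit 0) (.e (nat_lit 365959) (nat_lit 0) .nil) .nil)))))))) (.nd (nat_lit 5) (.nd (nat_lit 6) (.nd (nat_lit 7) (.nd (nat_lit 8) (.nd (nat_lit 9) 
(.lf (nat_lit 575516) (.g (nat_lit 1505) (.e (nat_lit 491564) (nat_lit 12) (.e (nat_lit 385072) (nat_lit 31) (.e (nat_lit 573484) (nat_lit 13) (.e (nat_lit 65610) (nat_lit 10) (.e (nat_lit 344117) (nat_lit 21) .nil))))) (.g (nat_lit 0) (.e (nat_lit 363396) (nat_lit 0) .nil) .nil))) 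
(.lf (nat_lit 576028) (.g (nat_lit 3467) (.e (nat_lit 491572) (nat_lit 14) (.e (nat_lit 401459) (nat_lit 13) (.e (nat_lit 483372) (nat_lit 21) (.e (nat_lit 327424) (nat_lit 10) .nil)))) (.g (nat_lit 0) (.e (nat_lit 364306) (nat_lit 0) .nil) .nil)))) (.nd (nat_lit 9) 
(.lf (nat_lit 575772) (.g (nat_lit 3396) (.e (nat_lit 491569) (nat_lit 13) (.e (nat_lit 393238) (nat_lit 17) (.e (nat_lit 6989) (nat_lit 377) (.e (nat_lit 2777) (nat_lit 178) (.e (nat_lit 286768) (nat_lit 27) (.e (nat_lit 426340) (nat_lit 14) .nil)))))) (.g (nat_lit 1) (.e (nat_lit 363809) (nat_lit 0) .nil) .nil))) 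
(.lf (nat_lit 576284) (.g (nat_lit 890) (.e (nat_lit 319530) (nat_lit 16) (.e (nat_lit 286735) (nat_lit 3) (.e (nat_lit 98352) (nat_lit 25) (.e (nat_lit 417813) (nat_lit 9) .nil)))) (.g (nat_lit 0) (.e (nat_lit 365225) (nat_lit 0) .nil) .nil))))) (.nd (nat_lit 8) (.nd (nat_lit 9) 
(.lf (nat_lit 575644) (.g (nat_lit 1990) (.e (nat_lit 491566) (nat_lit 12) (.e (nat_lit 385073) (nat_lit 31) (.e (nat_lit 573493) (nat_lit 15) (.e (nat_lit 81953) (nat_lit 22) (.e (nat_lit 98048) (nat_lit 9) (.e (nat_lit 3095) (nat_lit 192) .nil)))))) (.g (nat_lit 1) (.e (nat_lit 363615) (nat_lit 0) .nil) .nil))) 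
(.lf (nat_lit 576156) (.g (nat_lit 1830) (.e (nat_lit 319493) (nat_lit 0) (.e (nat_lit 5771) (nat_lit 316) (.e (nat_lit 172150) (nat_lit 27) (.e (nat_lit 335895) (nat_lit 0) (.e (nat_lit 6720) (nat_lit 361) (.e (nat_lit 172143) (nat_lit 25) .nil)))))) (.g (nat_lit 1) (.e (nat_lit 364761) (nat_lit 0) .nil) .nil)))) (.nd (nat_lit 9) 
(.lf (nat_lit 575900) (.g (nat_lit 3139) (.e (nat_lit 491570) (nat_lit 13) (.e (nat_lit 393282) (nat_lit 24) (.e (nat_lit 434272) (nat_lit 38) (.e (nat_lit 655378) (nat_lit 4) (.e (nat_lit 172125) (nat_lit 14) .nil))))) (.g (nat_lit 1) (.e (nat_lit 363999) (nat_lit 0) .nil) .nil))) 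
(.lf (nat_lit 576412) (.g (nat_lit 2086) (.e (nat_lit 319534) (nat_lit 16) (.e (nat_lit 286733) (nat_lit 2) (.e (nat_lit 90170) (nat_lit 13) (.e (nat_lit 172049) (nat_lit 0) .nil)))) (.g (nat_lit 0) (.e (nat_lit 365455) (nat_lit 0) .nil) .nil)))))) (.nd (nat_lit 7) (.nd (nat_lit 8) (.nd (nat_lit 9) 
(.lf (nat_lit 575580) (.g (nat_lit 2219) (.e (nat_lit 491566) (nat_lit 12) (.e (nat_lit 385068) (nat_lit 26) (.e (nat_lit 532504) (nat_lit 1) (.e (nat_lit 57830) (nat_lit 250) .nil)))) (.g (nat_lit 0) (.e (nat_lit 363517) (nat_lit 0) .nil) .nil))) 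
(.lf (nat_lit 576092) (.g (nat_lit 2276) (.e (nat_lit 319490) (nat_lit 0) (.e (nat_lit 5664) (nat_lit 312) (.e (nat_lit 3085) (nat_lit 191) (.e (nat_lit 483412) (nat_lit 27) (.e (nat_lit 409344) (nat_lit 9) (.e (nat_lit 433920) (nat_lit 25) .nil)))))) (.g (nat_lit 1) (.e (nat_lit 364591) (nat_lit 0) .nil) .nil)))) (.nd (nat_lit 9) 
(.lf (nat_lit 575836) (.g (nat_lit 3586) (.e (nat_lit 491569) (nat_lit 13) (.e (nat_lit 393301) (nat_lit 27) (.e (nat_lit 491560) (nat_lit 10) (.e (nat_lit 344090) (nat_lit 18) (.e (nat_lit 6923) (nat_lit 371) (.e (nat_lit 2449) (nat_lit 157) (.e (nat_lit 3096) (nat_lit 192) .nil))))))) (.g (nat_lit 1) (.e (nat_lit 363893) (nat_lit 0) .nil) .nil))) 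
(.lf (nat_lit 576348) (.g (nat_lit 2443) (.e (nat_lit 319532) (nat_lit 16) (.e (nat_lit 286743) (nat_lit 9) (.e (nat_lit 336337) (nat_lit 20) (.e (nat_lit 221218) (nat_lit 24) (.e (nat_lit 213030) (nat_lit 11) (.e (nat_lit 24617) (nat_lit 7) .nil)))))) (.g (nat_lit 1) (.e (nat_lit 365345) (nat_lit 0) .nil) .nil))))) (.nd (nat_lit 8) (.nd (nat_lit 9) 
(.lf (nat_lit 575708) (.g (nat_lit 2894) (.e (nat_lit 491566) (nat_lit 12) (.e (nat_lit 385105) (nat_lit 50) (.e (nat_lit 786483) (nat_lit 30) (.e (nat_lit 360451) (nat_lit 0) (.e (nat_lit 5595) (nat_lit 310) (.e (nat_lit 163946) (nat_lit 20) .nil)))))) (.g (nat_lit 1) (.e (nat_lit 363724) (nat_lit 0) .nil) .nil))) 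
(.lf (nat_lit 576220) (.g (nat_lit 939) (.e (nat_lit 319528) (nat_lit 16) (.e (nat_lit 286733) (nat_lit 2) (.e (nat_lit 90128) (nat_lit 9) (.e (nat_lit 3044) (nat_lit 189) .nil)))) (.g (nat_lit 0) (.e (nat_lit 365107) (nat_lit 0) .nil) .nil)))) (.nd (nat_lit 9) 
(.lf (nat_lit 575964) (.g (nat_lit 969) (.e (nat_lit 491571) (nat_lit 13) (.e (nat_lit 393260) (nat_lit 21) (.e (nat_lit 409620) (nat_lit 10) .nil))) (.g (nat_lit 0) (.e (nat_lit 364131) (nat_lit 0) .nil) .nil))) 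
(.lf (nat_lit 576476) (.g (nat_lit 2490) (.e (nat_lit 327424) (nat_lit 16) (.e (nat_lit 286735) (nat_lit 3) (.e (nat_lit 98367) (nat_lit 27) (.e (nat_lit 434184) (nat_lit 8) .nil)))) (.g (nat_lit 0) (.e (nat_lit 365561) (nat_lit 0) .nil) .nil))))))) (.nd (nat_lit 6) (.nd (nat_lit 7) (.nd (nat_lit 8) (.nd (nat_lit 9) 
(.lf (nat_lit 575548) (.g (nat_lit 2178) (.e (nat_lit 491565) (nat_lit 12) (.e (nat_lit 385072) (nat_lit 31) (.e (nat_lit 573491) (nat_lit 15) (.e (nat_lit 81951) (nat_lit 22) (.e (nat_lit 90133) (nat_lit 9) .nil))))) (.g (nat_lit 0) (.e (nat_lit 363433) (nat_lit 0) .nil) .nil))) 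
(.lf (nat_lit 576060) (.g (nat_lit 3870) (.e (nat_lit 319490) (nat_lit 0) (.e (nat_lit 5664) (nat_lit 312) (.e (nat_lit 2826) (nat_lit 182) (.e (nat_lit 409649) (nat_lit 18) (.e (nat_lit 303140) (nat_lit 10) (.e (nat_lit 434269) (nat_lit 36) (.e (nat_lit 639009) (nat_lit 13) (.e (nat_lit 1399) (nat_lit 106) .nil)))))))) (.g (nat_lit 1) (.e (nat_lit 364542) (nat_lit 0) .nil) .nil)))) 
(.nd (nat_lit 9) 
(.lf (nat_lit 575804) (.g (nat_lit 2702) (.e (nat_lit 491569) (nat_lit 13) (.e (nat_lit 393301) (nat_lit 27) (.e (nat_lit 491547) (nat_lit 9) (.e (nat_lit 336395) (nat_lit 27) (.e (nat_lit 426340) (nat_lit 14) .nil))))) (.g (nat_lit 1) (.e (nat_lit 363861) (nat_lit 0) .nil) .nil))) 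
(.lf (nat_lit 576316) (.g (nat_lit 658) (.e (nat_lit 319531) (nat_lit 16) (.e (nat_lit 286734) (nat_lit 3) (.e (nat_lit 98355) (nat_lit 26) .nil))) (.g (nat_lit 0) (.e (nat_lit 365291) (nat_lit 0) .nil) .nil))))) (.nd (nat_lit 8) (.nd (nat_lit 9) 
(.lf (nat_lit 575676) (.g (nat_lit 3163) (.e (nat_lit 491566) (nat_lit 12) (.e (nat_lit 385074) (nat_lit 31) (.e (nat_lit 573493) (nat_lit 15) (.e (nat_lit 81954) (nat_lit 23) (.e (nat_lit 106240) (nat_lit 33) .nil))))) (.g (nat_lit 1) (.e (nat_lit 363662) (nat_lit 0) .nil) .nil))) 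
(.lf (nat_lit 576188) (.g (nat_lit 1105) (.e (nat_lit 319511) (nat_lit 10) (.e (nat_lit 5293) (nat_lit 298) (.e (nat_lit 1633) (nat_lit 114) (.e (nat_lit 385093) (nat_lit 49) .nil)))) (.g (nat_lit 0) (.e (nat_lit 364987) (nat_lit 0) .nil) .nil)))) (.nd (nat_lit 9) 
(.lf (nat_lit 575932) (.g (nat_lit 2597) (.e (nat_lit 491571) (nat_lit 13) (.e (nat_lit 393238) (nat_lit 17) (.e (nat_lit 6989) (nat_lit 377) (.e (nat_lit 2777) (nat_lit 178) (.e (nat_lit 294656) (nat_lit 27) (.e (nat_lit 426340) (nat_lit 14) .nil)))))) (.g (nat_lit 1) (.e (nat_lit 364070) (nat_lit 0) .nil) .nil))) 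
(.lf (nat_lit 576444) (.g (nat_lit 2203) (.e (nat_lit 319534) (nat_lit 16) (.e (nat_lit 286756) (nat_lit 10) (.e (nat_lit 344160) (nat_lit 37) (.e (nat_lit 647190) (nat_lit 9) (.e (nat_lit 1045) (nat_lit 81) .nil))))) (.g (nat_lit 0) (.e (nat_lit 365490) (nat_lit 0) .nil) .nil)))))) (.nd (nat_lit 7) (.nd (nat_lit 8) (.nd (nat_lit 9) 
(.lf (nat_lit 575612) (.g (nat_lit 3473) (.e (nat_lit 491566) (nat_lit 12) (.e (nat_lit 385072) (nat_lit 31) (.e (nat_lit 573492) (nat_lit 15) (.e (nat_lit 81953) (nat_lit 22) (.e (nat_lit 90130) (nat_lit 9) .nil))))) (.g (nat_lit 0) (.e (nat_lit 363557) (nat_lit 0) .nil) .nil))) 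
(.lf (nat_lit 576124) (.g (nat_lit 2528) (.e (nat_lit 319491) (nat_lit 0) (.e (nat_lit 5664) (nat_lit 312) (.e (nat_lit 3085) (nat_lit 191) (.e (nat_lit 483411) (nat_lit 27) (.e (nat_lit 401440) (nat_lit 9) .nil))))) (.g (nat_lit 0) (.e (nat_lit 364671) (nat_lit 0) .nil) .nil)))) (.nd (nat_lit 9) 
(.lf (nat_lit 575868) (.g (nat_lit 1092) (.e (nat_lit 491570) (nat_lit 13) (.e (nat_lit 393251) (nat_lit 18) (.e (nat_lit 164182) (nat_lit 154) .nil))) (.g (nat_lit 0) (.e (nat_lit 363934) (nat_lit 0) .nil) .nil))) 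
(.lf (nat_lit 576380) (.g (nat_lit 1583) (.e (nat_lit 319533) (nat_lit 16) (.e (nat_lit 286735) (nat_lit 3) (.e (nat_lit 98357) (nat_lit 26) (.e (nat_lit 426227) (nat_lit 9) .nil)))) (.g (nat_lit 0) (.e (nat_lit 365396) (nat_lit 0) .nil) .nil))))) (.nd (nat_lit 8) (.nd (nat_lit 9) 
(.lf (nat_lit 575740) (.g (nat_lit 1578) (.e (nat_lit 491568) (nat_lit 13) (.e (nat_lit 393294) (nat_lit 26) (.e (nat_lit 475209) (nat_lit 41) (.e (nat_lit 712743) (nat_lit 27) .nil)))) (.g (nat_lit 0) (.e (nat_lit 363764) (nat_lit 0) .nil) .nil))) 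
(.lf (nat_lit 576252) (.g (nat_lit 1258) (.e (nat_lit 319528) (nat_lit 16) (.e (nat_lit 286735) (nat_lit 3) (.e (nat_lit 98368) (nat_lit 27) (.e (nat_lit 442112) (nat_lit 11) .nil)))) (.g (nat_lit 0) (.e (nat_lit 365144) (nat_lit 0) .nil) .nil)))) (.nd (nat_lit 9) 
(.lf (nat_lit 575996) (.g (nat_lit 2221) (.e (nat_lit 491571) (nat_lit 13) (.e (nat_lit 393298) (nat_lit 27) (.e (nat_lit 491550) (nat_lit 9) (.e (nat_lit 336370) (nat_lit 27) .nil)))) (.g (nat_lit 0) (.e (nat_lit 364248) (nat_lit 0) .nil) .nil))) 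
(.lf (nat_lit 576508) (.g (nat_lit 4358) (.e (nat_lit 327699) (nat_lit 8) (.e (nat_lit 303117) (nat_lit 2) (.e (nat_lit 196666) (nat_lit 13) (.e (nat_lit 65630) (nat_lit 14) (.e (nat_lit 401428) (nat_lit 3) (.e (nat_lit 204848) (nat_lit 25) .nil)))))) (.g (nat_lit 1) (.e (nat_lit 366035) (nat_lit 0) .nil) .nil))))))))))) 
(.nd (nat_lit 2) (.nd (nat_lit 3) (.nd (nat_lit 4) (.nd (nat_lit 5) (.nd (nat_lit 6) 
(.nd (nat_lit 7) (.nd (nat_lit 8) (.nd (nat_lit 9) 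
(.lf (nat_lit 575490) (.g (nat_lit 2235) (.e (nat_lit 491560) (nat_lit 10) (.e (nat_lit 344179) (nat_lit 44) (.e (nat_lit 778465) (nat_lit 11) (.e (nat_lit 24588) (nat_lit 0) (.e (nat_lit 7936) (nat_lit 345) .nil))))) (.g (nat_lit 0) (.e (nat_lit 363366) (nat_lit 0) .nil) .nil))) 
(.lf (nat_lit 576002) (.g (nat_lit 1205) (.e (nat_lit 491571) (nat_lit 13) (.e (nat_lit 393299) (nat_lit 27) (.e (nat_lit 491547) (nat_lit 9) (.e (nat_lit 336370) (nat_lit 27) .nil)))) (.g (nat_lit 0) (.e (nat_lit 364264) (nat_lit 0) .nil) .nil)))) (.nd (nat_lit 9) 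
(.lf (nat_lit 575746) (.g (nat_lit 3404) (.e (nat_lit 491568) (nat_lit 13) (.e (nat_lit 393301) (nat_lit 27) (.e (nat_lit 491546) (nat_lit 9) (.e (nat_lit 336412) (nat_lit 27) (.e (nat_lit 426343) (nat_lit 14) .nil))))) (.g (nat_lit 1) (.e (nat_lit 363772) (nat_lit 0) .nil) .nil))) 
(.lf (nat_lit 576258) (.g (nat_lit 2261) (.e (nat_lit 319528) (nat_lit 16) (.e (nat_lit 286759) (nat_lit 12) (.e (nat_lit 385094) (nat_lit 49) (.e (nat_lit 778509) (nat_lit 14) .nil)))) (.g (nat_lit 0) (.e (nat_lit 365152) (nat_lit 0) .nil) .nil))))) (.nd (nat_lit 8) (.nd (nat_lit 9) 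
(.lf (nat_lit 575618) (.g (nat_lit 4363) (.e (nat_lit 491566) (nat_lit 12) (.e (nat_lit 385072) (nat_lit 31) (.e (nat_lit 573493) (nat_lit 15) (.e (nat_lit 81951) (nat_lit 22) (.e (nat_lit 90134) (nat_lit 9) (.e (nat_lit 3097) (nat_lit 192) .nil)))))) (.g (nat_lit 1) (.e (nat_lit 363563) (nat_lit 0) .nil) .nil))) 
(.lf (nat_lit 576130) (.g (nat_lit 3149) (.e (nat_lit 319491) (nat_lit 0) (.e (nat_lit 5664) (nat_lit 312) (.e (nat_lit 3085) (nat_lit 191) (.e (nat_lit 483412) (nat_lit 27) (.e (nat_lit 401444) (nat_lit 9) (.e (nat_lit 433920) (nat_lit 25) .nil)))))) (.g (nat_lit 1) (.e (nat_lit 364677) (nat_lit 0) .nil) .nil)))) (.nd (nat_lit 9) 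
(.lf (nat_lit 575874) (.g (nat_lit 1018) (.e (nat_lit 491570) (nat_lit 13) (.e (nat_lit 393260) (nat_lit 21) (.e (nat_lit 409608) (nat_lit 10) (.e (nat_lit 5318) (nat_lit 298) .nil)))) (.g (nat_lit 0) (.e (nat_lit 363946) (nat_lit 0) .nil) .nil))) 
(.lf (nat_lit 576386) (.g (nat_lit 4103) (.e (nat_lit 319533) (nat_lit 16) (.e (nat_lit 286735) (nat_lit 3) (.e (nat_lit 98365) (nat_lit 26) (.e (nat_lit 426200) (nat_lit 9) (.e (nat_lit 426131) (nat_lit 3) (.e (nat_lit 204846) (nat_lit 24) .nil)))))) (.g (nat_lit 1) (.e (nat_lit 365402) (nat_lit 0) .nil) .nil)))))) (.nd (nat_lit 7) (.nd (nat_lit 8) (.nd (nat_lit 9) 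
(.lf (nat_lit 575554) (.g (nat_lit 240) (.e (nat_lit 491565) (nat_lit 12) (.e (nat_lit 385073) (nat_lit 31) (.e (nat_lit 573492) (nat_lit 15) .nil))) (.g (nat_lit 0) (.e (nat_lit 363439) (nat_lit 0) .nil) .nil))) 
(.lf (nat_lit 576066) (.g (nat_lit 344) (.e (nat_lit 319490) (nat_lit 0) (.e (nat_lit 5664) (nat_lit 312) (.e (nat_lit 3085) (nat_lit 191) .nil))) (.g (nat_lit 0) (.e (nat_lit 364564) (nat_lit 0) .nil) .nil)))) (.nd (nat_lit 9) 
(.lf (nat_lit 575810) (.g (nat_lit 3049) (.e (nat_lit 491569) (nat_lit 13) (.e (nat_lit 393301) (nat_lit 27) (.e (nat_lit 491558) (nat_lit 10) (.e (nat_lit 344091) (nat_lit 18) (.e (nat_lit 6853) (nat_lit 371) (.e (nat_lit 2439) (nat_lit 157) (.e (nat_lit 3105) (nat_lit 192) .nil))))))) (.g (nat_lit 1) (.e (nat_lit 363867) (nat_lit 0) .nil) .nil))) 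
(.lf (nat_lit 576322) (.g (nat_lit 2187) (.e (nat_lit 319531) (nat_lit 16) (.e (nat_lit 286735) (nat_lit 3) (.e (nat_lit 98359) (nat_lit 26) (.e (nat_lit 426283) (nat_lit 10) .nil)))) (.g (nat_lit 0) (.e (nat_lit 365297) (nat_lit 0) .nil) .nil))))) (.nd (nat_lit 8) (.nd (nat_lit 9) 
(.lf (nat_lit 575682) (.g (nat_lit 1663) (.e (nat_lit 491566) (nat_lit 12) (.e (nat_lit 385093) (nat_lit 49) (.e (nat_lit 778326) (nat_lit 6) (.e (nat_lit 81950) (nat_lit 21) (.e (nat_lit 57929) (nat_lit 282) .nil))))) (.g (nat_lit 0) (.e (nat_lit 363679) (nat_lit 0) .nil) .nil))) 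
(.lf (nat_lit 576194) (.g (nat_lit 1507) (.e (nat_lit 319526) (nat_lit 15) (.e (nat_lit 278547) (nat_lit 8) (.e (nat_lit 303132) (nat_lit 9) (.e (nat_lit 426109) (nat_lit 1) (.e (nat_lit 164319) (nat_lit 228) (.e (nat_lit 57412) (nat_lit 12) (.e (nat_lit 336058) (nat_lit 7) .nil))))))) (.g (nat_lit 1) (.e (nat_lit 365030) (nat_lit 0) .nil) .nil)))) (.nd (nat_lit 9) 
(.lf (nat_lit 575938) (.g (nat_lit 2647) (.e (nat_lit 491571) (nat_lit 13) (.e (nat_lit 393242) (nat_lit 17) (.e (nat_lit 6986) (nat_lit 377) (.e (nat_lit 2777) (nat_lit 178) (.e (nat_lit 286768) (nat_lit 27) (.e (nat_lit 426340) (nat_lit 14) .nil)))))) (.g (nat_lit 1) (.e (nat_lit 364078) (nat_lit 0) .nil) .nil))) 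
(.lf (nat_lit 576450) (.g (nat_lit 3561) (.e (nat_lit 319534) (nat_lit 16) (.e (nat_lit 286756) (nat_lit 10) (.e (nat_lit 344179) (nat_lit 44) (.e (nat_lit 778465) (nat_lit 11) (.e (nat_lit 24665) (nat_lit 14) (.e (nat_lit 409344) (nat_lit 25) .nil)))))) (.g (nat_lit 1) (.e (nat_lit 365496) (nat_lit 0) .nil) .nil))))))) (.nd (nat_lit 6) (.nd (nat_lit 7) (.nd (nat_lit 8) (.nd (nat_lit 9) 
(.lf (nat_lit 575522) (.g (nat_lit 3952) (.e (nat_lit 491564) (nat_lit 12) (.e (nat_lit 385072) (nat_lit 31) (.e (nat_lit 573493) (nat_lit 15) (.e (nat_lit 81956) (nat_lit 23) (.e (nat_lit 98389) (nat_lit 33) .nil))))) (.g (nat_lit 0) (.e (nat_lit 363402) (nat_lit 0) .nil) .nil))) 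
(.lf (nat_lit 576034) (.g (nat_lit 903) (.e (nat_lit 499456) (nat_lit 14) (.e (nat_lit 401424) (nat_lit 2) (.e (nat_lit 196672) (nat_lit 15) (.e (nat_lit 81954) (nat_lit 23) .nil)))) (.g (nat_lit 0) (.e (nat_lit 364312) (nat_lit 0) .nil) .nil)))) (.nd (nat_lit 9) 
(.lf (nat_lit 575778) (.g (nat_lit 1578) (.e (nat_lit 491569) (nat_lit 13) (.e (nat_lit 393271) (nat_lit 23) (.e (nat_lit 426364) (nat_lit 15) (.e (nat_lit 2160) (nat_lit 143) .nil)))) (.g (nat_lit 0) (.e (nat_lit 363819) (nat_lit 0) .nil) .nil))) 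
(.lf (nat_lit 576290) (.g (nat_lit 2678) (.e (nat_lit 319530) (nat_lit 16) (.e (nat_lit 286735) (nat_lit 3) (.e (nat_lit 98371) (nat_lit 28) (.e (nat_lit 442425) (nat_lit 23) (.e (nat_lit 204845) (nat_lit 24) .nil))))) (.g (nat_lit 1) (.e (nat_lit 365231) (nat_lit 0) .nil) .nil))))) (.nd (nat_lit 8) (.nd (nat_lit 9) 
(.lf (nat_lit 575650) (.g (nat_lit 2506) (.e (nat_lit 491566) (nat_lit 12) (.e (nat_lit 385074) (nat_lit 31) (.e (nat_lit 573482) (nat_lit 13) (.e (nat_lit 65597) (nat_lit 9) (.e (nat_lit 336013) (nat_lit 2) .nil))))) (.g (nat_lit 0) (.e (nat_lit 363627) (nat_lit 0) .nil) .nil))) 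
(.lf (nat_lit 576162) (.g (nat_lit 1866) (.e (nat_lit 327424) (nat_lit 8) (.e (nat_lit 303117) (nat_lit 2) (.e (nat_lit 196672) (nat_lit 15) (.e (nat_lit 81943) (nat_lit 20) .nil)))) (.g (nat_lit 0) (.e (nat_lit 364789) (nat_lit 0) .nil) .nil)))) (.nd (nat_lit 9) 
(.lf (nat_lit 575906) (.g (nat_lit 810) (.e (nat_lit 491570) (nat_lit 13) (.e (nat_lit 393291) (nat_lit 26) (.e (nat_lit 475208) (nat_lit 41) .nil))) (.g (nat_lit 0) (.e (nat_lit 364023) (nat_lit 0) .nil) .nil))) 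
(.lf (nat_lit 576418) (.g (nat_lit 2092) (.e (nat_lit 319534) (nat_lit 16) (.e (nat_lit 286735) (nat_lit 3) (.e (nat_lit 98367) (nat_lit 27) (.e (nat_lit 434184) (nat_lit 8) .nil)))) (.g (nat_lit 0) (.e (nat_lit 365461) (nat_lit 0) .nil) .nil)))))) (.nd (nat_lit 7) (.nd (nat_lit 8) (.nd (nat_lit 9) 
(.lf (nat_lit 575586) (.g (nat_lit 1477) (.e (nat_lit 491566) (nat_lit 12) (.e (nat_lit 392960) (nat_lit 24) (.e (nat_lit 516150) (nat_lit 9) (.e (nat_lit 426323) (nat_lit 13) (.e (nat_lit 491264) (nat_lit 16) .nil))))) (.g (nat_lit 1) (.e (nat_lit 363526) (nat_lit 0) .nil) .nil))) 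
(.lf (nat_lit 576098) (.g (nat_lit 2625) (.e (nat_lit 319490) (nat_lit 0) (.e (nat_lit 5761) (nat_lit 315) (.e (nat_lit 163962) (nat_lit 25) (.e (nat_lit 532535) (nat_lit 9) (.e (nat_lit 336058) (nat_lit 7) (.e (nat_lit 319519) (nat_lit 12) (.e (nat_lit 32778) (nat_lit 5) (.e (nat_lit 1399) (nat_lit 106) .nil)))))))) (.g (nat_lit 1) (.e (nat_lit 364606) (nat_lit 0) .nil) .nil)))) (.nd (nat_lit 9) 
(.lf (nat_lit 575842) (.g (nat_lit 3544) (.e (nat_lit 491569) (nat_lit 13) (.e (nat_lit 393301) (nat_lit 27) (.e (nat_lit 491560) (nat_lit 10) (.e (nat_lit 344096) (nat_lit 18) (.e (nat_lit 6940) (nat_lit 375) (.e (nat_lit 163945) (nat_lit 20) .nil)))))) (.g (nat_lit 1) (.e (nat_lit 363899) (nat_lit 0) .nil) .nil))) 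
(.lf (nat_lit 576354) (.g (nat_lit 805) (.e (nat_lit 319533) (nat_lit 16) (.e (nat_lit 286732) (nat_lit 2) (.e (nat_lit 90169) (nat_lit 13) .nil))) (.g (nat_lit 0) (.e (nat_lit 365364) (nat_lit 0) .nil) .nil))))) (.nd (nat_lit 8) (.nd (nat_lit 9) 
(.lf (nat_lit 575714) (.g (nat_lit 1211) (.e (nat_lit 499456) (nat_lit 12) (.e (nat_lit 385073) (nat_lit 31) (.e (nat_lit 573493) (nat_lit 15) (.e (nat_lit 81956) (nat_lit 23) .nil)))) (.g (nat_lit 0) (.e (nat_lit 363732) (nat_lit 0) .nil) .nil))) 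
(.lf (nat_lit 576226) (.g (nat_lit 3533) (.e (nat_lit 319528) (nat_lit 16) (.e (nat_lit 286733) (nat_lit 2) (.e (nat_lit 90170) (nat_lit 13) (.e (nat_lit 172094) (nat_lit 9) (.e (nat_lit 426140) (nat_lit 3) .nil))))) (.g (nat_lit 0) (.e (nat_lit 365118) (nat_lit 0) .nil) .nil)))) (.nd (nat_lit 9) 
(.lf (nat_lit 575970) (.g (nat_lit 662) (.e (nat_lit 491571) (nat_lit 13) (.e (nat_lit 393260) (nat_lit 21) (.e (nat_lit 409647) (nat_lit 18) .nil))) (.g (nat_lit 0) (.e (nat_lit 364141) (nat_lit 0) .nil) .nil))) 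
(.lf (nat_lit 576482) (.g (nat_lit 3867) (.e (nat_lit 319535) (nat_lit 17) (.e (nat_lit 294928) (nat_lit 2) (.e (nat_lit 90177) (nat_lit 15) (.e (nat_lit 188452) (nat_lit 23) (.e (nat_lit 204846) (nat_lit 24) .nil))))) (.g (nat_lit 1) (.e (nat_lit 365573) (nat_lit 0) .nil) .nil)))))))) (.nd (nat_lit 5) (.nd (nat_lit 6) (.nd (nat_lit 7) (.nd (nat_lit 8) (.nd (nat_lit 9) 
(.lf (nat_lit 575506) (.g (nat_lit 2556) (.e (nat_lit 491562) (nat_lit 12) (.e (nat_lit 385074) (nat_lit 31) (.e (nat_lit 573493) (nat_lit 15) (.e (nat_lit 81953) (nat_lit 22) (.e (nat_lit 90133) (nat_lit 9) .nil))))) (.g (nat_lit 0) (.e (nat_lit 363385) (nat_lit 0) .nil) .nil))) 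
(.lf (nat_lit 576018) (.g (nat_lit 473) (.e (nat_lit 491572) (nat_lit 14) (.e (nat_lit 401424) (nat_lit 2) (.e (nat_lit 196671) (nat_lit 15) .nil))) (.g (nat_lit 0) (.e (nat_lit 364291) (nat_lit 0) .nil) .nil)))) (.nd (nat_lit 9) 
(.lf (nat_lit 575762) (.g (nat_lit 2886) (.e (nat_lit 491568) (nat_lit 13) (.e (nat_lit 393301) (nat_lit 27) (.e (nat_lit 491560) (nat_lit 10) (.e (nat_lit 344097) (nat_lit 18) (.e (nat_lit 6875) (nat_lit 371) .nil))))) (.g (nat_lit 0) (.e (nat_lit 363788) (nat_lit 0) .nil) .nil))) 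
(.lf (nat_lit 576274) (.g (nat_lit 1780) (.e (nat_lit 319529) (nat_lit 16) (.e (nat_lit 286759) (nat_lit 12) (.e (nat_lit 385109) (nat_lit 51) (.e (nat_lit 794676) (nat_lit 24) .nil)))) (.g (nat_lit 0) (.e (nat_lit 365191) (nat_lit 0) .nil) .nil))))) (.nd (nat_lit 8) (.nd (nat_lit 9) 
(.lf (nat_lit 575634) (.g (nat_lit 4452) (.e (nat_lit 491566) (nat_lit 12) (.e (nat_lit 385073) (nat_lit 31) (.e (nat_lit 573493) (nat_lit 15) (.e (nat_lit 81953) (nat_lit 22) (.e (nat_lit 90121) (nat_lit 9) (.e (nat_lit 3095) (nat_lit 192) .nil)))))) (.g (nat_lit 1) (.e (nat_lit 363605) (nat_lit 0) .nil) .nil))) 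
(.lf (nat_lit 576146) (.g (nat_lit 1452) (.e (nat_lit 319492) (nat_lit 0) (.e (nat_lit 5664) (nat_lit 312) (.e (nat_lit 3085) (nat_lit 191) (.e (nat_lit 483349) (nat_lit 17) .nil)))) (.g (nat_lit 0) (.e (nat_lit 364728) (nat_lit 0) .nil) .nil)))) (.nd (nat_lit 9) 
(.lf (nat_lit 575890) (.g (nat_lit 612) (.e (nat_lit 491570) (nat_lit 13) (.e (nat_lit 393266) (nat_lit 23) (.e (nat_lit 426364) (nat_lit 15) (.e (nat_lit 2160) (nat_lit 143) .nil)))) (.g (nat_lit 0) (.e (nat_lit 363965) (nat_lit 0) .nil) .nil))) 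
(.lf (nat_lit 576402) (.g (nat_lit 1893) (.e (nat_lit 319533) (nat_lit 16) (.e (nat_lit 286759) (nat_lit 12) (.e (nat_lit 385094) (nat_lit 49) (.e (nat_lit 786176) (nat_lit 12) .nil)))) (.g (nat_lit 0) (.e (nat_lit 365422) (nat_lit 0) .nil) .nil)))))) (.nd (nat_lit 7) (.nd (nat_lit 8) (.nd (nat_lit 9) 
(.lf (nat_lit 575570) (.g (nat_lit 1196) (.e (nat_lit 491565) (nat_lit 12) (.e (nat_lit 385109) (nat_lit 51) (.e (nat_lit 794683) (nat_lit 25) .nil))) (.g (nat_lit 0) (.e (nat_lit 363478) (nat_lit 0) .nil) .nil))) 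
(.lf (nat_lit 576082) (.g (nat_lit 3818) (.e (nat_lit 319490) (nat_lit 0) (.e (nat_lit 5664) (nat_lit 312) (.e (nat_lit 3085) (nat_lit 191) (.e (nat_lit 483377) (nat_lit 22) (.e (nat_lit 327708) (nat_lit 10) (.e (nat_lit 5626) (nat_lit 312) (.e (nat_lit 214) (nat_lit 19) .nil))))))) (.g (nat_lit 1) (.e (nat_lit 364580) (nat_lit 0) .nil) .nil)))) (.nd (nat_lit 9) 
(.lf (nat_lit 575826) (.g (nat_lit 3116) (.e (nat_lit 491569) (nat_lit 13) (.e (nat_lit 393301) (nat_lit 27) (.e (nat_lit 491559) (nat_lit 10) (.e (nat_lit 344097) (nat_lit 18) (.e (nat_lit 6875) (nat_lit 371) .nil))))) (.g (nat_lit 0) (.e (nat_lit 363883) (nat_lit 0) .nil) .nil))) 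
(.lf (nat_lit 576338) (.g (nat_lit 1741) (.e (nat_lit 319532) (nat_lit 16) (.e (nat_lit 286733) (nat_lit 2) (.e (nat_lit 90134) (nat_lit 9) (.e (nat_lit 3025) (nat_lit 187) (.e (nat_lit 450578) (nat_lit 5) .nil))))) (.g (nat_lit 0) (.e (nat_lit 365326) (nat_lit 0) .nil) .nil))))) (.nd (nat_lit 8) (.nd (nat_lit 9) 
(.lf (nat_lit 575698) (.g (nat_lit 2699) (.e (nat_lit 491566) (nat_lit 12) (.e (nat_lit 385104) (nat_lit 50) (.e (nat_lit 786483) (nat_lit 30) (.e (nat_lit 360484) (nat_lit 15) (.e (nat_lit 647172) (nat_lit 0) (.e (nat_lit 3096) (nat_lit 192) .nil)))))) (.g (nat_lit 1) (.e (nat_lit 363712) (nat_lit 0) .nil) .nil))) 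
(.lf (nat_lit 576210) (.g (nat_lit 2929) (.e (nat_lit 319538) (nat_lit 19) (.e (nat_lit 311357) (nat_lit 28) (.e (nat_lit 344068) (nat_lit 0) (.e (nat_lit 3089) (nat_lit 191) (.e (nat_lit 483372) (nat_lit 21) .nil))))) (.g (nat_lit 1) (.e (nat_lit 365089) (nat_lit 0) .nil) .nil)))) (.nd (nat_lit 9) 
(.lf (nat_lit 575954) (.g (nat_lit 463) (.e (nat_lit 491571) (nat_lit 13) (.e (nat_lit 393260) (nat_lit 21) (.e (nat_lit 409616) (nat_lit 10) .nil))) (.g (nat_lit 0) (.e (nat_lit 364120) (nat_lit 0) .nil) .nil))) 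
(.lf (nat_lit 576466) (.g (nat_lit 1860) (.e (nat_lit 327424) (nat_lit 16) (.e (nat_lit 286733) (nat_lit 2) (.e (nat_lit 90176) (nat_lit 15) (.e (nat_lit 188424) (nat_lit 20) .nil)))) (.g (nat_lit 0) (.e (nat_lit 365549) (nat_lit 0) .nil) .nil))))))) (.nd (nat_lit 6) (.nd (nat_lit 7) (.nd (nat_lit 8) (.nd (nat_lit 9) 
(.lf (nat_lit 575538) (.g (nat_lit 2356) (.e (nat_lit 491564) (nat_lit 12) (.e (nat_lit 385074) (nat_lit 31) (.e (nat_lit 573493) (nat_lit 15) (.e (nat_lit 81962) (nat_lit 25) (.e (nat_lit 139289) (nat_lit 9) .nil))))) (.g (nat_lit 0) (.e (nat_lit 363419) (nat_lit 0) .nil) .nil))) 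
(.lf (nat_lit 576050) (.g (nat_lit 352) (.e (nat_lit 499456) (nat_lit 30) (.e (nat_lit 450574) (nat_lit 1) (.e (nat_lit 499811) (nat_lit 5) (.e (nat_lit 333) (nat_lit 26) (.e (nat_lit 384768) (nat_lit 19) .nil))))) (.g (nat_lit 0) (.e (nat_lit 364448) (nat_lit 0) .nil) .nil)))) (.nd (nat_lit 9) 
(.lf (nat_lit 575794) (.g (nat_lit 511) (.e (nat_lit 491569) (nat_lit 13) (.e (nat_lit 393296) (nat_lit 26) (.e (nat_lit 475209) (nat_lit 41) .nil))) (.g (nat_lit 0) (.e (nat_lit 363849) (nat_lit 0) .nil) .nil))) 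
(.lf (nat_lit 576306) (.g (nat_lit 1170) (.e (nat_lit 319531) (nat_lit 16) (.e (nat_lit 286731) (nat_lit 1) (.e (nat_lit 57687) (nat_lit 156) (.e (nat_lit 163933) (nat_lit 17) (.e (nat_lit 474880) (nat_lit 11) .nil))))) (.g (nat_lit 0) (.e (nat_lit 365270) (nat_lit 0) .nil) .nil))))) (.nd (nat_lit 8) (.nd (nat_lit 9) 
(.lf (nat_lit 575666) (.g (nat_lit 5020) (.e (nat_lit 491566) (nat_lit 12) (.e (nat_lit 385074) (nat_lit 31) (.e (nat_lit 573493) (nat_lit 15) (.e (nat_lit 81951) (nat_lit 22) (.e (nat_lit 90123) (nat_lit 9) (.e (nat_lit 3095) (nat_lit 192) .nil)))))) (.g (nat_lit 1) (.e (nat_lit 363652) (nat_lit 0) .nil) .nil))) 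
(.lf (nat_lit 576178) (.g (nat_lit 1891) (.e (nat_lit 319505) (nat_lit 10) (.e (nat_lit 618) (nat_lit 48) (.e (nat_lit 557098) (nat_lit 13) (.e (nat_lit 172032) (nat_lit 0) .nil)))) (.g (nat_lit 0) (.e (nat_lit 364945) (nat_lit 0) .nil) .nil)))) (.nd (nat_lit 9) 
(.lf (nat_lit 575922) (.g (nat_lit 2137) (.e (nat_lit 491571) (nat_lit 13) (.e (nat_lit 393225) (nat_lit 9) (.e (nat_lit 335995) (nat_lit 1) (.e (nat_lit 57921) (nat_lit 280) .nil)))) (.g (nat_lit 0) (.e (nat_lit 364052) (nat_lit 0) .nil) .nil))) 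
(.lf (nat_lit 576434) (.g (nat_lit 2648) (.e (nat_lit 319534) (nat_lit 16) (.e (nat_lit 286749) (nat_lit 9) (.e (nat_lit 336046) (nat_lit 6) (.e (nat_lit 147495) (nat_lit 11) (.e (nat_lit 24665) (nat_lit 14) (.e (nat_lit 409344) (nat_lit 25) .nil)))))) (.g (nat_lit 1) (.e (nat_lit 365480) (nat_lit 0) .nil) .nil)))))) (.nd (nat_lit 7) (.nd (nat_lit 8) (.nd (nat_lit 9) 
(.lf (nat_lit 575602) (.g (nat_lit 2653) (.e (nat_lit 491566) (nat_lit 12) (.e (nat_lit 385072) (nat_lit 31) (.e (nat_lit 573482) (nat_lit 13) (.e (nat_lit 65604) (nat_lit 9) (.e (nat_lit 336028) (nat_lit 3) (.e (nat_lit 106240) (nat_lit 33) .nil)))))) (.g (nat_lit 1) (.e (nat_lit 363547) (nat_lit 0) .nil) .nil))) 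
(.lf (nat_lit 576114) (.g (nat_lit 1599) (.e (nat_lit 319491) (nat_lit 0) (.e (nat_lit 5664) (nat_lit 312) (.e (nat_lit 3085) (nat_lit 191) (.e (nat_lit 483343) (nat_lit 17) .nil)))) (.g (nat_lit 0) (.e (nat_lit 364660) (nat_lit 0) .nil) .nil)))) (.nd (nat_lit 9) 
(.lf (nat_lit 575858) (.g (nat_lit 1869) (.e (nat_lit 491570) (nat_lit 13) (.e (nat_lit 393238) (nat_lit 17) (.e (nat_lit 6989) (nat_lit 377) (.e (nat_lit 2404) (nat_lit 157) (.e (nat_lit 5259) (nat_lit 298) (.e (nat_lit 371) (nat_lit 32) (.e (nat_lit 433920) (nat_lit 14) .nil))))))) (.g (nat_lit 1) (.e (nat_lit 363921) (nat_lit 0) .nil) .nil))) 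
(.lf (nat_lit 576370) (.g (nat_lit 2678) (.e (nat_lit 319533) (nat_lit 16) (.e (nat_lit 286734) (nat_lit 3) (.e (nat_lit 98369) (nat_lit 28) (.e (nat_lit 442426) (nat_lit 23) (.e (nat_lit 204846) (nat_lit 24) .nil))))) (.g (nat_lit 1) (.e (nat_lit 365384) (nat_lit 0) .nil) .nil))))) (.nd (nat_lit 8) (.nd (nat_lit 9) 
(.lf (nat_lit 575730) (.g (nat_lit 1785) (.e (nat_lit 491568) (nat_lit 13) (.e (nat_lit 393283) (nat_lit 24) (.e (nat_lit 434209) (nat_lit 18) (.e (nat_lit 5546) (nat_lit 306) (.e (nat_lit 2628) (nat_lit 164) .nil))))) (.g (nat_lit 0) (.e (nat_lit 363752) (nat_lit 0) .nil) .nil))) 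
(.lf (nat_lit 576242) (.g (nat_lit 1433) (.e (nat_lit 319528) (nat_lit 16) (.e (nat_lit 286735) (nat_lit 3) (.e (nat_lit 98363) (nat_lit 26) (.e (nat_lit 426230) (nat_lit 9) (.e (nat_lit 433920) (nat_lit 3) .nil))))) (.g (nat_lit 0) (.e (nat_lit 365134) (nat_lit 0) .nil) .nil)))) (.nd (nat_lit 9) 
(.lf (nat_lit 575986) (.g (nat_lit 1903) (.e (nat_lit 491571) (nat_lit 13) (.e (nat_lit 393298) (nat_lit 27) (.e (nat_lit 491547) (nat_lit 9) (.e (nat_lit 336367) (nat_lit 27) .nil)))) (.g (nat_lit 0) (.e (nat_lit 364238) (nat_lit 0) .nil) .nil))) 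
(.lf (nat_lit 576498) (.g (nat_lit 2375) (.e (nat_lit 327698) (nat_lit 8) (.e (nat_lit 303119) (nat_lit 3) (.e (nat_lit 204846) (nat_lit 24) (.e (nat_lit 319491) (nat_lit 0) .nil)))) (.g (nat_lit 0) (.e (nat_lit 365966) (nat_lit 0) .nil) .nil))))))))) (.nd (nat_lit 4) (.nd (nat_lit 5) (.nd (nat_lit 6) (.nd (nat_lit 7) (.nd (nat_lit 8) (.nd (nat_lit 9) 
(.lf (nat_lit 575498) (.g (nat_lit 3610) (.e (nat_lit 491560) (nat_lit 10) (.e (nat_lit 344179) (nat_lit 44) (.e (nat_lit 778466) (nat_lit 11) (.e (nat_lit 24655) (nat_lit 13) (.e (nat_lit 393301) (nat_lit 27) .nil))))) (.g (nat_lit 1) (.e (nat_lit 363374) (nat_lit 0) .nil) .nil))) 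
(.lf (nat_lit 576010) (.g (nat_lit 1003) (.e (nat_lit 491571) (nat_lit 13) (.e (nat_lit 393299) (nat_lit 27) (.e (nat_lit 491554) (nat_lit 9) .nil))) (.g (nat_lit 0) (.e (nat_lit 364272) (nat_lit 0) .nil) .nil)))) (.nd (nat_lit 9) 
(.lf (nat_lit 575754) (.g (nat_lit 1798) (.e (nat_lit 491568) (nat_lit 13) (.e (nat_lit 393301) (nat_lit 27) (.e (nat_lit 491559) (nat_lit 10) (.e (nat_lit 344095) (nat_lit 18) .nil)))) (.g (nat_lit 0) (.e (nat_lit 363780) (nat_lit 0) .nil) .nil))) 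
(.lf (nat_lit 576266) (.g (nat_lit 1408) (.e (nat_lit 319529) (nat_lit 16) (.e (nat_lit 286735) (nat_lit 3) (.e (nat_lit 98349) (nat_lit 24) (.e (nat_lit 417536) (nat_lit 8) .nil)))) (.g (nat_lit 0) (.e (nat_lit 365171) (nat_lit 0) .nil) .nil))))) (.nd (nat_lit 8) (.nd (nat_lit 9) 
(.lf (nat_lit 575626) (.g (nat_lit 2507) (.e (nat_lit 491566) (nat_lit 12) (.e (nat_lit 385073) (nat_lit 31) (.e (nat_lit 573482) (nat_lit 13) (.e (nat_lit 65604) (nat_lit 9) (.e (nat_lit 336028) (nat_lit 3) (.e (nat_lit 106240) (nat_lit 33) .nil)))))) (.g (nat_lit 1) (.e (nat_lit 363576) (nat_lit 0) .nil) .nil))) 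
(.lf (nat_lit 576138) (.g (nat_lit 917) (.e (nat_lit 319491) (nat_lit 0) (.e (nat_lit 5771) (nat_lit 316) (.e (nat_lit 172150) (nat_lit 27) (.e (nat_lit 335892) (nat_lit 0) (.e (nat_lit 6720) (nat_lit 361) (.e (nat_lit 172143) (nat_lit 25) .nil)))))) (.g (nat_lit 1) (.e (nat_lit 364687) (nat_lit 0) .nil) .nil)))) (.nd (nat_lit 9) 
(.lf (nat_lit 575882) (.g (nat_lit 2490) (.e (nat_lit 491570) (nat_lit 13) (.e (nat_lit 393260) (nat_lit 21) (.e (nat_lit 409623) (nat_lit 10) (.e (nat_lit 5259) (nat_lit 298) (.e (nat_lit 371) (nat_lit 32) (.e (nat_lit 433920) (nat_lit 14) .nil)))))) (.g (nat_lit 1) (.e (nat_lit 363954) (nat_lit 0) .nil) .nil))) 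
(.lf (nat_lit 576394) (.g (nat_lit 2775) (.e (nat_lit 319533) (nat_lit 16) (.e (nat_lit 286753) (nat_lit 10) (.e (nat_lit 344160) (nat_lit 37) (.e (nat_lit 647195) (nat_lit 9) (.e (nat_lit 1014) (nat_lit 81) (.e (nat_lit 2350) (nat_lit 151) (.e (nat_lit 778464) (nat_lit 11) (.e (nat_lit 24617) (nat_lit 7) .nil)))))))) (.g (nat_lit 1) (.e (nat_lit 365412) (nat_lit 0) .nil) .nil)))))) 
(.nd (nat_lit 7) (.nd (nat_lit 8) (.nd (nat_lit 9) 
(.lf (nat_lit 575562) (.g (nat_lit 2191) (.e (nat_lit 491565) (nat_lit 12) (.e (nat_lit 385074) (nat_lit 31) (.e (nat_lit 573485) (nat_lit 13) (.e (nat_lit 65604) (nat_lit 9) (.e (nat_lit 336013) (nat_lit 2) .nil))))) (.g (nat_lit 0) (.e (nat_lit 363468) (nat_lit 0) .nil) .nil))) 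
(.lf (nat_lit 576074) (.g (nat_lit 3075) (.e (nat_lit 319490) (nat_lit 0) (.e (nat_lit 5664) (nat_lit 312) (.e (nat_lit 3085) (nat_lit 191) (.e (nat_lit 483346) (nat_lit 17) (.e (nat_lit 6735) (nat_lit 364) (.e (nat_lit 245504) (nat_lit 25) .nil)))))) (.g (nat_lit 1) (.e (nat_lit 364572) (nat_lit 0) .nil) .nil)))) (.nd (nat_lit 9) 
(.lf (nat_lit 575818) (.g (nat_lit 2065) (.e (nat_lit 491569) (nat_lit 13) (.e (nat_lit 393301) (nat_lit 27) (.e (nat_lit 491558) (nat_lit 10) (.e (nat_lit 344091) (nat_lit 18) (.e (nat_lit 7454) (nat_lit 396) .nil))))) (.g (nat_lit 0) (.e (nat_lit 363875) (nat_lit 0) .nil) .nil))) 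
(.lf (nat_lit 576330) (.g (nat_lit 2645) (.e (nat_lit 319531) (nat_lit 16) (.e (nat_lit 286756) (nat_lit 10) (.e (nat_lit 344179) (nat_lit 44) (.e (nat_lit 778465) (nat_lit 11) (.e (nat_lit 24665) (nat_lit 14) (.e (nat_lit 409344) (nat_lit 25) .nil)))))) (.g (nat_lit 1) (.e (nat_lit 365306) (nat_lit 0) .nil) .nil))))) (.nd (nat_lit 8) (.nd (nat_lit 9) 
(.lf (nat_lit 575690) (.g (nat_lit 3267) (.e (nat_lit 491566) (nat_lit 12) (.e (nat_lit 385104) (nat_lit 50) (.e (nat_lit 786480) (nat_lit 29) (.e (nat_lit 352309) (nat_lit 21) (.e (nat_lit 57930) (nat_lit 282) (.e (nat_lit 163945) (nat_lit 20) .nil)))))) (.g (nat_lit 1) (.e (nat_lit 363702) (nat_lit 0) .nil) .nil))) 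
(.lf (nat_lit 576202) (.g (nat_lit 443) (.e (nat_lit 319538) (nat_lit 19) (.e (nat_lit 311312) (nat_lit 2) (.e (nat_lit 196661) (nat_lit 12) .nil))) (.g (nat_lit 0) (.e (nat_lit 365081) (nat_lit 0) .nil) .nil)))) (.nd (nat_lit 9) 
(.lf (nat_lit 575946) (.g (nat_lit 2836) (.e (nat_lit 491571) (nat_lit 13) (.e (nat_lit 393242) (nat_lit 17) (.e (nat_lit 7556) (nat_lit 402) (.e (nat_lit 1427) (nat_lit 108) (.e (nat_lit 336395) (nat_lit 27) (.e (nat_lit 426340) (nat_lit 14) .nil)))))) (.g (nat_lit 1) (.e (nat_lit 364094) (nat_lit 0) .nil) .nil))) 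
(.lf (nat_lit 576458) (.g (nat_lit 1774) (.e (nat_lit 319534) (nat_lit 16) (.e (nat_lit 286759) (nat_lit 12) (.e (nat_lit 385107) (nat_lit 51) (.e (nat_lit 794691) (nat_lit 29) .nil)))) (.g (nat_lit 0) (.e (nat_lit 365506) (nat_lit 0) .nil) .nil))))))) (.nd (nat_lit 6) (.nd (nat_lit 7) (.nd (nat_lit 8) (.nd (nat_lit 9) 
(.lf (nat_lit 575530) (.g (nat_lit 1958) (.e (nat_lit 491564) (nat_lit 12) (.e (nat_lit 385074) (nat_lit 31) (.e (nat_lit 573491) (nat_lit 15) (.e (nat_lit 81946) (nat_lit 20) (.e (nat_lit 1718) (nat_lit 117) .nil))))) (.g (nat_lit 0) (.e (nat_lit 363411) (nat_lit 0) .nil) .nil))) 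
(.lf (nat_lit 576042) (.g (nat_lit 776) (.e (nat_lit 491579) (nat_lit 27) (.e (nat_lit 426316) (nat_lit 12) (.e (nat_lit 475179) (nat_lit 24) .nil))) (.g (nat_lit 0) (.e (nat_lit 364396) (nat_lit 0) .nil) .nil)))) (.nd (nat_lit 9) 
(.lf (nat_lit 575786) (.g (nat_lit 889) (.e (nat_lit 491569) (nat_lit 13) (.e (nat_lit 393294) (nat_lit 26) (.e (nat_lit 475195) (nat_lit 40) .nil))) (.g (nat_lit 0) (.e (nat_lit 363839) (nat_lit 0) .nil) .nil))) 
(.lf (nat_lit 576298) (.g (nat_lit 2255) (.e (nat_lit 319530) (nat_lit 16) (.e (nat_lit 286756) (nat_lit 10) (.e (nat_lit 344160) (nat_lit 37) (.e (nat_lit 647190) (nat_lit 9) (.e (nat_lit 1025) (nat_lit 81) .nil))))) (.g (nat_lit 0) (.e (nat_lit 365239) (nat_lit 0) .nil) .nil))))) (.nd (nat_lit 8) (.nd (nat_lit 9) 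
(.lf (nat_lit 575658) (.g (nat_lit 3386) (.e (nat_lit 491566) (nat_lit 12) (.e (nat_lit 385074) (nat_lit 31) (.e (nat_lit 573485) (nat_lit 13) (.e (nat_lit 65604) (nat_lit 9) (.e (nat_lit 336028) (nat_lit 3) (.e (nat_lit 106240) (nat_lit 33) .nil)))))) (.g (nat_lit 1) (.e (nat_lit 363640) (nat_lit 0) .nil) .nil))) 
(.lf (nat_lit 576170) (.g (nat_lit 372) (.e (nat_lit 327424) (nat_lit 8) (.e (nat_lit 303145) (nat_lit 13) (.e (nat_lit 483401) (nat_lit 25) .nil))) (.g (nat_lit 0) (.e (nat_lit 364871) (nat_lit 0) .nil) .nil)))) (.nd (nat_lit 9) 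
(.lf (nat_lit 575914) (.g (nat_lit 1124) (.e (nat_lit 491570) (nat_lit 13) (.e (nat_lit 393297) (nat_lit 27) (.e (nat_lit 491547) (nat_lit 9) (.e (nat_lit 336414) (nat_lit 27) .nil)))) (.g (nat_lit 0) (.e (nat_lit 364034) (nat_lit 0) .nil) .nil))) 
(.lf (nat_lit 576426) (.g (nat_lit 2683) (.e (nat_lit 319534) (nat_lit 16) (.e (nat_lit 286749) (nat_lit 9) (.e (nat_lit 335997) (nat_lit 1) (.e (nat_lit 57688) (nat_lit 156) (.e (nat_lit 163864) (nat_lit 1) (.e (nat_lit 164332) (nat_lit 230) (.e (nat_lit 163905) (nat_lit 12) (.e (nat_lit 426472) (nat_lit 25) .nil)))))))) (.g (nat_lit 1) (.e (nat_lit 365472) (nat_lit 0) .nil) .nil)))))) 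
(.nd (nat_lit 7) (.nd (nat_lit 8) (.nd (nat_lit 9) 
(.lf (nat_lit 575594) (.g (nat_lit 758) (.e (nat_lit 491566) (nat_lit 12) (.e (nat_lit 392960) (nat_lit 24) (.e (nat_lit 516158) (nat_lit 9) (.e (nat_lit 426326) (nat_lit 13) (.e (nat_lit 491264) (nat_lit 16) .nil))))) (.g (nat_lit 1) (.e (nat_lit 363539) (nat_lit 0) .nil) .nil))) 
(.lf (nat_lit 576106) (.g (nat_lit 4180) (.e (nat_lit 319491) (nat_lit 0) (.e (nat_lit 5626) (nat_lit 312) (.e (nat_lit 2685) (nat_lit 168) (.e (nat_lit 204869) (nat_lit 29) (.e (nat_lit 360475) (nat_lit 8) (.e (nat_lit 557068) (nat_lit 9) (.e (nat_lit 214) (nat_lit 19) .nil))))))) (.g (nat_lit 1) (.e (nat_lit 364631) (nat_lit 0) .nil) .nil)))) (.nd (nat_lit 9) 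
(.lf (nat_lit 575850) (.g (nat_lit 3413) (.e (nat_lit 491569) (nat_lit 13) (.e (nat_lit 393301) (nat_lit 27) (.e (nat_lit 491560) (nat_lit 10) (.e (nat_lit 344179) (nat_lit 44) (.e (nat_lit 778262) (nat_lit 0) (.e (nat_lit 7936) (nat_lit 40) .nil)))))) (.g (nat_lit 1) (.e (nat_lit 363907) (nat_lit 0) .nil) .nil))) 
(.lf (nat_lit 576362) (.g (nat_lit 1069) (.e (nat_lit 319533) (nat_lit 16) (.e (nat_lit 286733) (nat_lit 2) (.e (nat_lit 90168) (nat_lit 13) (.e (nat_lit 172109) (nat_lit 10) .nil)))) (.g (nat_lit 0) (.e (nat_lit 365374) (nat_lit 0) .nil) .nil))))) (.nd (nat_lit 8) (.nd (nat_lit 9) 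
(.lf (nat_lit 575722) (.g (nat_lit 1339) (.e (nat_lit 491568) (nat_lit 13) (.e (nat_lit 393260) (nat_lit 21) (.e (nat_lit 409640) (nat_lit 17) (.e (nat_lit 294969) (nat_lit 27) .nil)))) (.g (nat_lit 0) (.e (nat_lit 363743) (nat_lit 0) .nil) .nil))) 
(.lf (nat_lit 576234) (.g (nat_lit 1177) (.e (nat_lit 319528) (nat_lit 16) (.e (nat_lit 286735) (nat_lit 3) (.e (nat_lit 98325) (nat_lit 17) (.e (nat_lit 7350) (nat_lit 388) .nil)))) (.g (nat_lit 0) (.e (nat_lit 365126) (nat_lit 0) .nil) .nil)))) (.nd (nat_lit 9) 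
(.lf (nat_lit 575978) (.g (nat_lit 1441) (.e (nat_lit 491571) (nat_lit 13) (.e (nat_lit 393291) (nat_lit 26) (.e (nat_lit 475157) (nat_lit 21) .nil))) (.g (nat_lit 0) (.e (nat_lit 364198) (nat_lit 0) .nil) .nil))) 
(.lf (nat_lit 576490) (.g (nat_lit 1663) (.e (nat_lit 327698) (nat_lit 8) (.e (nat_lit 303117) (nat_lit 2) (.e (nat_lit 196668) (nat_lit 14) (.e (nat_lit 81664) (nat_lit 38) .nil)))) (.g (nat_lit 0) (.e (nat_lit 365954) (nat_lit 0) .nil) .nil)))))))) (.nd (nat_lit 5) (.nd (nat_lit 6) (.nd (nat_lit 7) (.nd (nat_lit 8) (.nd (nat_lit 9) 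
(.lf (nat_lit 575514) (.g (nat_lit 1291) (.e (nat_lit 491563) (nat_lit 12) (.e (nat_lit 385074) (nat_lit 31) (.e (nat_lit 573487) (nat_lit 14) (.e (nat_lit 81664) (nat_lit 45) .nil)))) (.g (nat_lit 0) (.e (nat_lit 363393) (nat_lit 0) .nil) .nil))) 
(.lf (nat_lit 576026) (.g (nat_lit 3284) (.e (nat_lit 491572) (nat_lit 14) (.e (nat_lit 401459) (nat_lit 13) (.e (nat_lit 483372) (nat_lit 21) (.e (nat_lit 319505) (nat_lit 10) .nil)))) (.g (nat_lit 0) (.e (nat_lit 364304) (nat_lit 0) .nil) .nil)))) (.nd (nat_lit 9) 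
(.lf (nat_lit 575770) (.g (nat_lit 2653) (.e (nat_lit 491568) (nat_lit 13) (.e (nat_lit 393301) (nat_lit 27) (.e (nat_lit 491563) (nat_lit 12) (.e (nat_lit 385031) (nat_lit 8) .nil)))) (.g (nat_lit 0) (.e (nat_lit 363796) (nat_lit 0) .nil) .nil))) 
(.lf (nat_lit 576282) (.g (nat_lit 2422) (.e (nat_lit 319530) (nat_lit 16) (.e (nat_lit 286733) (nat_lit 2) (.e (nat_lit 90178) (nat_lit 15) (.e (nat_lit 188440) (nat_lit 20) (.e (nat_lit 3255) (nat_lit 197) (.e (nat_lit 540416) (nat_lit 7) .nil)))))) (.g (nat_lit 1) (.e (nat_lit 365223) (nat_lit 0) .nil) .nil))))) (.nd (nat_lit 8) (.nd (nat_lit 9) 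
(.lf (nat_lit 575642) (.g (nat_lit 2082) (.e (nat_lit 491566) (nat_lit 12) (.e (nat_lit 385073) (nat_lit 31) (.e (nat_lit 573493) (nat_lit 15) (.e (nat_lit 81953) (nat_lit 22) (.e (nat_lit 90134) (nat_lit 9) .nil))))) (.g (nat_lit 0) (.e (nat_lit 363613) (nat_lit 0) .nil) .nil))) 
(.lf (nat_lit 576154) (.g (nat_lit 1870) (.e (nat_lit 319492) (nat_lit 0) (.e (nat_lit 5771) (nat_lit 316) (.e (nat_lit 172150) (nat_lit 27) (.e (nat_lit 336231) (nat_lit 14) (.e (nat_lit 401444) (nat_lit 9) (.e (nat_lit 433920) (nat_lit 25) .nil)))))) (.g (nat_lit 1) (.e (nat_lit 364743) (nat_lit 0) .nil) .nil)))) (.nd (nat_lit 9) 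
(.lf (nat_lit 575898) (.g (nat_lit 1025) (.e (nat_lit 491570) (nat_lit 13) (.e (nat_lit 393282) (nat_lit 24) (.e (nat_lit 434271) (nat_lit 38) (.e (nat_lit 655367) (nat_lit 0) .nil)))) (.g (nat_lit 0) (.e (nat_lit 363996) (nat_lit 0) .nil) .nil))) 
(.lf (nat_lit 576410) (.g (nat_lit 751) (.e (nat_lit 319534) (nat_lit 16) (.e (nat_lit 286732) (nat_lit 2) (.e (nat_lit 90172) (nat_lit 14) .nil))) (.g (nat_lit 0) (.e (nat_lit 365451) (nat_lit 0) .nil) .nil)))))) (.nd (nat_lit 7) (.nd (nat_lit 8) (.nd (nat_lit 9) 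
(.lf (nat_lit 575578) (.g (nat_lit 4392) (.e (nat_lit 491566) (nat_lit 12) (.e (nat_lit 385068) (nat_lit 26) (.e (nat_lit 532501) (nat_lit 1) (.e (nat_lit 57783) (nat_lit 239) (.e (nat_lit 2619) (nat_lit 164) (.e (nat_lit 172150) (nat_lit 27) (.e (nat_lit 343808) (nat_lit 35) .nil))))))) (.g (nat_lit 1) (.e (nat_lit 363514) (nat_lit 0) .nil) .nil))) 
(.lf (nat_lit 576090) (.g (nat_lit 2812) (.e (nat_lit 319490) (nat_lit 0) (.e (nat_lit 5664) (nat_lit 312) (.e (nat_lit 3085) (nat_lit 191) (.e (nat_lit 483412) (nat_lit 27) (.e (nat_lit 401443) (nat_lit 9) (.e (nat_lit 433920) (nat_lit 25) .nil)))))) (.g (nat_lit 1) (.e (nat_lit 364589) (nat_lit 0) .nil) .nil)))) (.nd (nat_lit 9) 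
(.lf (nat_lit 575834) (.g (nat_lit 1920) (.e (nat_lit 491569) (nat_lit 13) (.e (nat_lit 393301) (nat_lit 27) (.e (nat_lit 491560) (nat_lit 10) (.e (nat_lit 344089) (nat_lit 18) (.e (nat_lit 6916) (nat_lit 371) .nil))))) (.g (nat_lit 0) (.e (nat_lit 363891) (nat_lit 0) .nil) .nil))) 
(.lf (nat_lit 576346) (.g (nat_lit 947) (.e (nat_lit 319532) (nat_lit 16) (.e (nat_lit 286735) (nat_lit 3) (.e (nat_lit 98364) (nat_lit 26) (.e (nat_lit 426298) (nat_lit 11) .nil)))) (.g (nat_lit 0) (.e (nat_lit 365340) (nat_lit 0) .nil) .nil))))) (.nd (nat_lit 8) (.nd (nat_lit 9) 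
(.lf (nat_lit 575706) (.g (nat_lit 1133) (.e (nat_lit 491566) (nat_lit 12) (.e (nat_lit 385105) (nat_lit 50) (.e (nat_lit 786483) (nat_lit 30) (.e (nat_lit 360451) (nat_lit 0) .nil)))) (.g (nat_lit 0) (.e (nat_lit 363722) (nat_lit 0) .nil) .nil))) 
(.lf (nat_lit 576218) (.g (nat_lit 2110) (.e (nat_lit 319539) (nat_lit 19) (.e (nat_lit 311315) (nat_lit 3) (.e (nat_lit 204846) (nat_lit 24) (.e (nat_lit 319534) (nat_lit 16) (.e (nat_lit 286728) (nat_lit 0) (.e (nat_lit 1842) (nat_lit 123) (.e (nat_lit 548873) (nat_lit 5) (.e (nat_lit 1395) (nat_lit 106) .nil)))))))) (.g (nat_lit 1) (.e (nat_lit 365099) (nat_lit 0) .nil) .nil)))) 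
(.nd (nat_lit 9) 
(.lf (nat_lit 575962) (.g (nat_lit 1025) (.e (nat_lit 491571) (nat_lit 13) (.e (nat_lit 393260) (nat_lit 21) (.e (nat_lit 409617) (nat_lit 10) (.e (nat_lit 7936) (nat_lit 298) .nil)))) (.g (nat_lit 0) (.e (nat_lit 364129) (nat_lit 0) .nil) .nil))) 
(.lf (nat_lit 576474) (.g (nat_lit 1791) (.e (nat_lit 327424) (nat_lit 16) (.e (nat_lit 286735) (nat_lit 3) (.e (nat_lit 98365) (nat_lit 26) (.e (nat_lit 426187) (nat_lit 9) .nil)))) (.g (nat_lit 0) (.e (nat_lit 365558) (nat_lit 0) .nil) .nil))))))) (.nd (nat_lit 6) (.nd (nat_lit 7) (.nd (nat_lit 8) (.nd (nat_lit 9) 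
(.lf (nat_lit 575546) (.g (nat_lit 3057) (.e (nat_lit 491565) (nat_lit 12) (.e (nat_lit 385067) (nat_lit 26) (.e (nat_lit 532513) (nat_lit 3) (.e (nat_lit 122624) (nat_lit 12) (.e (nat_lit 434248) (nat_lit 28) (.e (nat_lit 573452) (nat_lit 9) (.e (nat_lit 498) (nat_lit 40) .nil))))))) (.g (nat_lit 1) (.e (nat_lit 363431) (nat_lit 0) .nil) .nil))) 
(.lf (nat_lit 576058) (.g (nat_lit 3807) (.e (nat_lit 319490) (nat_lit 0) (.e (nat_lit 5664) (nat_lit 312) (.e (nat_lit 2661) (nat_lit 167) (.e (nat_lit 196666) (nat_lit 13) (.e (nat_lit 65628) (nat_lit 14) (.e (nat_lit 401428) (nat_lit 3) (.e (nat_lit 204846) (nat_lit 24) .nil))))))) (.g (nat_lit 1) (.e (nat_lit 364537) (nat_lit 0) .nil) .nil)))) (.nd (nat_lit 9) 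
(.lf (nat_lit 575802) (.g (nat_lit 1367) (.e (nat_lit 491569) (nat_lit 13) (.e (nat_lit 393301) (nat_lit 27) (.e (nat_lit 491525) (nat_lit 0) (.e (nat_lit 6459) (nat_lit 343) .nil)))) (.g (nat_lit 0) (.e (nat_lit 363857) (nat_lit 0) .nil) .nil))) 
(.lf (nat_lit 576314) (.g (nat_lit 3675) (.e (nat_lit 319531) (nat_lit 16) (.e (nat_lit 286733) (nat_lit 2) (.e (nat_lit 90178) (nat_lit 15) (.e (nat_lit 188450) (nat_lit 23) (.e (nat_lit 204846) (nat_lit 24) .nil))))) (.g (nat_lit 1) (.e (nat_lit 365289) (nat_lit 0) .nil) .nil))))) (.nd (nat_lit 8) (.nd (nat_lit 9) 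
(.lf (nat_lit 575674) (.g (nat_lit 5077) (.e (nat_lit 491566) (nat_lit 12) (.e (nat_lit 385074) (nat_lit 31) (.e (nat_lit 573493) (nat_lit 15) (.e (nat_lit 81953) (nat_lit 22) (.e (nat_lit 90130) (nat_lit 9) (.e (nat_lit 3103) (nat_lit 192) .nil)))))) (.g (nat_lit 1) (.e (nat_lit 363660) (nat_lit 0) .nil) .nil))) 
(.lf (nat_lit 576186) (.g (nat_lit 1914) (.e (nat_lit 319511) (nat_lit 10) (.e (nat_lit 5293) (nat_lit 298) (.e (nat_lit 1626) (nat_lit 114) (.e (nat_lit 385109) (nat_lit 51) (.e (nat_lit 794676) (nat_lit 24) .nil))))) (.g (nat_lit 0) (.e (nat_lit 364985) (nat_lit 0) .nil) .nil)))) (.nd (nat_lit 9) 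
(.lf (nat_lit 575930) (.g (nat_lit 3399) (.e (nat_lit 491571) (nat_lit 13) (.e (nat_lit 393238) (nat_lit 17) (.e (nat_lit 6989) (nat_lit 377) (.e (nat_lit 2777) (nat_lit 178) (.e (nat_lit 286769) (nat_lit 27) .nil))))) (.g (nat_lit 0) (.e (nat_lit 364068) (nat_lit 0) .nil) .nil))) 
(.lf (nat_lit 576442) (.g (nat_lit 2203) (.e (nat_lit 319534) (nat_lit 16) (.e (nat_lit 286756) (nat_lit 10) (.e (nat_lit 344160) (nat_lit 37) (.e (nat_lit 647190) (nat_lit 9) (.e (nat_lit 1027) (nat_lit 81) .nil))))) (.g (nat_lit 0) (.e (nat_lit 365488) (nat_lit 0) .nil) .nil)))))) (.nd (nat_lit 7) (.nd (nat_lit 8) (.nd (nat_lit 9) 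
(.lf (nat_lit 575610) (.g (nat_lit 4638) (.e (nat_lit 491566) (nat_lit 12) (.e (nat_lit 385072) (nat_lit 31) (.e (nat_lit 573492) (nat_lit 15) (.e (nat_lit 81953) (nat_lit 22) (.e (nat_lit 90127) (nat_lit 9) (.e (nat_lit 3097) (nat_lit 192) .nil)))))) (.g (nat_lit 1) (.e (nat_lit 363555) (nat_lit 0) .nil) .nil))) 
(.lf (nat_lit 576122) (.g (nat_lit 1421) (.e (nat_lit 319491) (nat_lit 0) (.e (nat_lit 5664) (nat_lit 312) (.e (nat_lit 3085) (nat_lit 191) (.e (nat_lit 483377) (nat_lit 22) (.e (nat_lit 335616) (nat_lit 19) .nil))))) (.g (nat_lit 0) (.e (nat_lit 364668) (nat_lit 0) .nil) .nil)))) (.nd (nat_lit 9) 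
(.lf (nat_lit 575866) (.g (nat_lit 1106) (.e (nat_lit 491570) (nat_lit 13) (.e (nat_lit 393251) (nat_lit 18) (.e (nat_lit 164179) (nat_lit 154) .nil))) (.g (nat_lit 0) (.e (nat_lit 363931) (nat_lit 0) .nil) .nil))) 
(.lf (nat_lit 576378) (.g (nat_lit 669) (.e (nat_lit 319533) (nat_lit 16) (.e (nat_lit 286735) (nat_lit 3) (.e (nat_lit 98354) (nat_lit 26) .nil))) (.g (nat_lit 0) (.e (nat_lit 365394) (nat_lit 0) .nil) .nil))))) (.nd (nat_lit 8) (.nd (nat_lit 9) 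
(.lf (nat_lit 575738) (.g (nat_lit 2915) (.e (nat_lit 491568) (nat_lit 13) (.e (nat_lit 393293) (nat_lit 26) (.e (nat_lit 475210) (nat_lit 41) (.e (nat_lit 712745) (nat_lit 27) (.e (nat_lit 426347) (nat_lit 14) .nil))))) (.g (nat_lit 1) (.e (nat_lit 363761) (nat_lit 0) .nil) .nil))) 
(.lf (nat_lit 576250) (.g (nat_lit 2203) (.e (nat_lit 319528) (nat_lit 16) (.e (nat_lit 286735) (nat_lit 3) (.e (nat_lit 98367) (nat_lit 27) (.e (nat_lit 434183) (nat_lit 8) .nil)))) (.g (nat_lit 0) (.e (nat_lit 365142) (nat_lit 0) .nil) .nil)))) (.nd (nat_lit 9) 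
(.lf (nat_lit 575994) (.g (nat_lit 339) (.e (nat_lit 491571) (nat_lit 13) (.e (nat_lit 393298) (nat_lit 27) (.e (nat_lit 491550) (nat_lit 9) .nil))) (.g (nat_lit 0) (.e (nat_lit 364246) (nat_lit 0) .nil) .nil))) 
(.lf (nat_lit 576506) (.g (nat_lit 1801) (.e (nat_lit 327699) (nat_lit 8) (.e (nat_lit 303117) (nat_lit 2) (.e (nat_lit 196666) (nat_lit 13) (.e (nat_lit 65628) (nat_lit 14) .nil)))) (.g (nat_lit 0) (.e (nat_lit 366032) (nat_lit 0) .nil) .nil)))))))))) (.nd (nat_lit 3) (.nd (nat_lit 4) (.nd (nat_lit 5) (.nd (nat_lit 6) (.nd (nat_lit 7) (.nd (nat_lit 8) (.nd (nat_lit 9) 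
(.lf (nat_lit 575494) (.g (nat_lit 1156) (.e (nat_lit 491560) (nat_lit 10) (.e (nat_lit 344179) (nat_lit 44) (.e (nat_lit 778466) (nat_lit 11) (.e (nat_lit 24624) (nat_lit 9) .nil)))) (.g (nat_lit 0) (.e (nat_lit 363370) (nat_lit 0) .nil) .nil))) 
(.lf (nat_lit 576006) (.g (nat_lit 1018) (.e (nat_lit 491571) (nat_lit 13) (.e (nat_lit 393299) (nat_lit 27) (.e (nat_lit 491551) (nat_lit 9) .nil))) (.g (nat_lit 0) (.e (nat_lit 364268) (nat_lit 0) .nil) .nil)))) (.nd (nat_lit 9) 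
(.lf (nat_lit 575750) (.g (nat_lit 962) (.e (nat_lit 491568) (nat_lit 13) (.e (nat_lit 393301) (nat_lit 27) (.e (nat_lit 491558) (nat_lit 10) (.e (nat_lit 352000) (nat_lit 44) .nil)))) (.g (nat_lit 0) (.e (nat_lit 363776) (nat_lit 0) .nil) .nil))) 
(.lf (nat_lit 576262) (.g (nat_lit 3286) (.e (nat_lit 319529) (nat_lit 16) (.e (nat_lit 286733) (nat_lit 2) (.e (nat_lit 90177) (nat_lit 15) (.e (nat_lit 188450) (nat_lit 23) (.e (nat_lit 204845) (nat_lit 24) .nil))))) (.g (nat_lit 1) (.e (nat_lit 365166) (nat_lit 0) .nil) .nil))))) (.nd (nat_lit 8) (.nd (nat_lit 9) 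
(.lf (nat_lit 575622) (.g (nat_lit 5389) (.e (nat_lit 491566) (nat_lit 12) (.e (nat_lit 385072) (nat_lit 31) (.e (nat_lit 573493) (nat_lit 15) (.e (nat_lit 81953) (nat_lit 22) (.e (nat_lit 90130) (nat_lit 9) .nil))))) (.g (nat_lit 0) (.e (nat_lit 363567) (nat_lit 0) .nil) .nil))) 
(.lf (nat_lit 576134) (.g (nat_lit 3264) (.e (nat_lit 319491) (nat_lit 0) (.e (nat_lit 5664) (nat_lit 312) (.e (nat_lit 3085) (nat_lit 191) (.e (nat_lit 483413) (nat_lit 27) (.e (nat_lit 401440) (nat_lit 9) (.e (nat_lit 426470) (nat_lit 25) .nil)))))) (.g (nat_lit 1) (.e (nat_lit 364681) (nat_lit 0) .nil) .nil)))) (.nd (nat_lit 9) 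
(.lf (nat_lit 575878) (.g (nat_lit 2207) (.e (nat_lit 491570) (nat_lit 13) (.e (nat_lit 393260) (nat_lit 21) (.e (nat_lit 409617) (nat_lit 10) (.e (nat_lit 5355) (nat_lit 298) (.e (nat_lit 417) (nat_lit 32) .nil))))) (.g (nat_lit 0) (.e (nat_lit 363950) (nat_lit 0) .nil) .nil))) 
(.lf (nat_lit 576390) (.g (nat_lit 1463) (.e (nat_lit 319533) (nat_lit 16) (.e (nat_lit 286735) (nat_lit 3) (.e (nat_lit 98371) (nat_lit 28) (.e (nat_lit 450304) (nat_lit 23) .nil)))) (.g (nat_lit 0) (.e (nat_lit 365406) (nat_lit 0) .nil) .nil)))))) (.nd (nat_lit 7) (.nd (nat_lit 8) (.nd (nat_lit 9) 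
(.lf (nat_lit 575558) (.g (nat_lit 1899) (.e (nat_lit 491565) (nat_lit 12) (.e (nat_lit 385074) (nat_lit 31) (.e (nat_lit 573482) (nat_lit 13) (.e (nat_lit 65589) (nat_lit 9) .nil)))) (.g (nat_lit 0) (.e (nat_lit 363464) (nat_lit 0) .nil) .nil))) 
(.lf (nat_lit 576070) (.g (nat_lit 2125) (.e (nat_lit 319490) (nat_lit 0) (.e (nat_lit 5664) (nat_lit 312) (.e (nat_lit 3085) (nat_lit 191) (.e (nat_lit 483346) (nat_lit 17) (.e (nat_lit 6617) (nat_lit 357) .nil))))) (.g (nat_lit 0) (.e (nat_lit 364568) (nat_lit 0) .nil) .nil)))) (.nd (nat_lit 9) 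
(.lf (nat_lit 575814) (.g (nat_lit 2817) (.e (nat_lit 491569) (nat_lit 13) (.e (nat_lit 393301) (nat_lit 27) (.e (nat_lit 491558) (nat_lit 10) (.e (nat_lit 344091) (nat_lit 18) (.e (nat_lit 6923) (nat_lit 371) (.e (nat_lit 2442) (nat_lit 157) (.e (nat_lit 3096) (nat_lit 192) .nil))))))) (.g (nat_lit 1) (.e (nat_lit 363871) (nat_lit 0) .nil) .nil))) 
(.lf (nat_lit 576326) (.g (nat_lit 2254) (.e (nat_lit 319531) (nat_lit 16) (.e (nat_lit 286748) (nat_lit 9) (.e (nat_lit 336295) (nat_lit 15) (.e (nat_lit 3632) (nat_lit 227) (.e (nat_lit 778342) (nat_lit 9) (.e (nat_lit 2471) (nat_lit 157) (.e (nat_lit 3613) (nat_lit 226) (.e (nat_lit 770072) (nat_lit 8) (.e (nat_lit 65586) (nat_lit 7) .nil))))))))) (.g (nat_lit 1) (.e (nat_lit 365302) (nat_lit 0) .nil) .nil))))) 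
(.nd (nat_lit 8) (.nd (nat_lit 9) 
(.lf (nat_lit 575686) (.g (nat_lit 2718) (.e (nat_lit 491566) (nat_lit 12) (.e (nat_lit 385093) (nat_lit 49) (.e (nat_lit 778327) (nat_lit 6) (.e (nat_lit 81959) (nat_lit 24) (.e (nat_lit 123228) (nat_lit 282) (.e (nat_lit 163945) (nat_lit 20) .nil)))))) (.g (nat_lit 1) (.e (nat_lit 363686) (nat_lit 0) .nil) .nil))) 
(.lf (nat_lit 576198) (.g (nat_lit 4654) (.e (nat_lit 319537) (nat_lit 19) (.e (nat_lit 311315) (nat_lit 3) (.e (nat_lit 204846) (nat_lit 24) (.e (nat_lit 319538) (nat_lit 19) (.e (nat_lit 311315) (nat_lit 3) (.e (nat_lit 204846) (nat_lit 24) .nil)))))) (.g (nat_lit 1) (.e (nat_lit 365075) (nat_lit 0) .nil) .nil)))) (.nd (nat_lit 9) 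
(.lf (nat_lit 575942) (.g (nat_lit 1870) (.e (nat_lit 491571) (nat_lit 13) (.e (nat_lit 393242) (nat_lit 17) (.e (nat_lit 7095) (nat_lit 380) (.e (nat_lit 164337) (nat_lit 232) (.e (nat_lit 403) (nat_lit 32) (.e (nat_lit 426340) (nat_lit 14) .nil)))))) (.g (nat_lit 1) (.e (nat_lit 364085) (nat_lit 0) .nil) .nil))) 
(.lf (nat_lit 576454) (.g (nat_lit 2102) (.e (nat_lit 319534) (nat_lit 16) (.e (nat_lit 286759) (nat_lit 12) (.e (nat_lit 385094) (nat_lit 49) (.e (nat_lit 778445) (nat_lit 9) (.e (nat_lit 2689) (nat_lit 169) .nil))))) (.g (nat_lit 0) (.e (nat_lit 365502) (nat_lit 0) .nil) .nil))))))) (.nd (nat_lit 6) (.nd (nat_lit 7) (.nd (nat_lit 8) (.nd (nat_lit 9) 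
(.lf (nat_lit 575526) (.g (nat_lit 1820) (.e (nat_lit 491564) (nat_lit 12) (.e (nat_lit 385073) (nat_lit 31) (.e (nat_lit 573493) (nat_lit 15) (.e (nat_lit 81962) (nat_lit 25) (.e (nat_lit 139289) (nat_lit 9) .nil))))) (.g (nat_lit 0) (.e (nat_lit 363406) (nat_lit 0) .nil) .nil))) 
(.lf (nat_lit 576038) (.g (nat_lit 2420) (.e (nat_lit 499456) (nat_lit 25) (.e (nat_lit 409645) (nat_lit 18) (.e (nat_lit 303143) (nat_lit 12) (.e (nat_lit 475191) (nat_lit 36) (.e (nat_lit 614435) (nat_lit 11) .nil))))) (.g (nat_lit 0) (.e (nat_lit 364370) (nat_lit 0) .nil) .nil)))) (.nd (nat_lit 9) 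
(.lf (nat_lit 575782) (.g (nat_lit 1069) (.e (nat_lit 491569) (nat_lit 13) (.e (nat_lit 393283) (nat_lit 24) (.e (nat_lit 434271) (nat_lit 38) (.e (nat_lit 655367) (nat_lit 0) .nil)))) (.g (nat_lit 0) (.e (nat_lit 363831) (nat_lit 0) .nil) .nil))) 
(.lf (nat_lit 576294) (.g (nat_lit 2464) (.e (nat_lit 319530) (nat_lit 16) (.e (nat_lit 286748) (nat_lit 9) (.e (nat_lit 336295) (nat_lit 15) (.e (nat_lit 3632) (nat_lit 227) (.e (nat_lit 778445) (nat_lit 9) (.e (nat_lit 2458) (nat_lit 157) (.e (nat_lit 3613) (nat_lit 226) (.e (nat_lit 770072) (nat_lit 8) (.e (nat_lit 65583) (nat_lit 7) .nil))))))))) (.g (nat_lit 1) (.e (nat_lit 365235) (nat_lit 0) .nil) .nil))))) 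
(.nd (nat_lit 8) (.nd (nat_lit 9) 
(.lf (nat_lit 575654) (.g (nat_lit 2468) (.e (nat_lit 491566) (nat_lit 12) (.e (nat_lit 385074) (nat_lit 31) (.e (nat_lit 573484) (nat_lit 13) (.e (nat_lit 65604) (nat_lit 9) .nil)))) (.g (nat_lit 0) (.e (nat_lit 363631) (nat_lit 0) .nil) .nil))) 
(.lf (nat_lit 576166) (.g (nat_lit 2567) (.e (nat_lit 327424) (nat_lit 8) (.e (nat_lit 303117) (nat_lit 2) (.e (nat_lit 196674) (nat_lit 15) (.e (nat_lit 81947) (nat_lit 20) (.e (nat_lit 1841) (nat_lit 123) .nil))))) (.g (nat_lit 0) (.e (nat_lit 364793) (nat_lit 0) .nil) .nil)))) (.nd (nat_lit 9) 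
(.lf (nat_lit 575910) (.g (nat_lit 889) (.e (nat_lit 491570) (nat_lit 13) (.e (nat_lit 393294) (nat_lit 26) (.e (nat_lit 475195) (nat_lit 40) .nil))) (.g (nat_lit 0) (.e (nat_lit 364028) (nat_lit 0) .nil) .nil))) 
(.lf (nat_lit 576422) (.g (nat_lit 3002) (.e (nat_lit 319534) (nat_lit 16) (.e (nat_lit 286749) (nat_lit 9) (.e (nat_lit 335997) (nat_lit 1) (.e (nat_lit 57688) (nat_lit 156) (.e (nat_lit 163860) (nat_lit 1) (.e (nat_lit 164329) (nat_lit 230) (.e (nat_lit 163902) (nat_lit 12) (.e (nat_lit 426472) (nat_lit 25) .nil)))))))) (.g (nat_lit 1) (.e (nat_lit 365468) (nat_lit 0) .nil) .nil)))))) 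
(.nd (nat_lit 7) (.nd (nat_lit 8) (.nd (nat_lit 9) 
(.lf (nat_lit 575590) (.g (nat_lit 798) (.e (nat_lit 491566) (nat_lit 12) (.e (nat_lit 392960) (nat_lit 24) (.e (nat_lit 516154) (nat_lit 9) (.e (nat_lit 426329) (nat_lit 13) (.e (nat_lit 491264) (nat_lit 16) .nil))))) (.g (nat_lit 1) (.e (nat_lit 363531) (nat_lit 0) .nil) .nil))) 
(.lf (nat_lit 576102) (.g (nat_lit 2581) (.e (nat_lit 319490) (nat_lit 0) (.e (nat_lit 5270) (nat_lit 298) (.e (nat_lit 1256) (nat_lit 92) (.e (nat_lit 98350) (nat_lit 24) (.e (nat_lit 409623) (nat_lit 10) (.e (nat_lit 5664) (nat_lit 312) (.e (nat_lit 2679) (nat_lit 168) (.e (nat_lit 204846) (nat_lit 24) .nil)))))))) (.g (nat_lit 1) (.e (nat_lit 364622) (nat_lit 0) .nil) .nil)))) (.nd (nat_lit 9) 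
(.lf (nat_lit 575846) (.g (nat_lit 2551) (.e (nat_lit 491569) (nat_lit 13) (.e (nat_lit 393301) (nat_lit 27) (.e (nat_lit 491560) (nat_lit 10) (.e (nat_lit 344103) (nat_lit 18) .nil)))) (.g (nat_lit 0) (.e (nat_lit 363903) (nat_lit 0) .nil) .nil))) 
(.lf (nat_lit 576358) (.g (nat_lit 786) (.e (nat_lit 319533) (nat_lit 16) (.e (nat_lit 286732) (nat_lit 2) (.e (nat_lit 90183) (nat_lit 17) .nil))) (.g (nat_lit 0) (.e (nat_lit 365368) (nat_lit 0) .nil) .nil))))) (.nd (nat_lit 8) (.nd (nat_lit 9) 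
(.lf (nat_lit 575718) (.g (nat_lit 1098) (.e (nat_lit 491568) (nat_lit 13) (.e (nat_lit 393251) (nat_lit 18) (.e (nat_lit 164179) (nat_lit 154) .nil))) (.g (nat_lit 0) (.e (nat_lit 363739) (nat_lit 0) .nil) .nil))) 
(.lf (nat_lit 576230) (.g (nat_lit 571) (.e (nat_lit 319528) (nat_lit 16) (.e (nat_lit 286735) (nat_lit 3) (.e (nat_lit 98320) (nat_lit 17) .nil))) (.g (nat_lit 0) (.e (nat_lit 365122) (nat_lit 0) .nil) .nil)))) (.nd (nat_lit 9) 
(.lf (nat_lit 575974) (.g (nat_lit 1855) (.e (nat_lit 491571) (nat_lit 13) (.e (nat_lit 393266) (nat_lit 23) (.e (nat_lit 426396) (nat_lit 15) (.e (nat_lit 2174) (nat_lit 143) (.e (nat_lit 712745) (nat_lit 27) .nil))))) (.g (nat_lit 0) (.e (nat_lit 364151) (nat_lit 0) .nil) .nil))) 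
(.lf (nat_lit 576486) (.g (nat_lit 3164) (.e (nat_lit 327698) (nat_lit 8) (.e (nat_lit 303116) (nat_lit 2) (.e (nat_lit 196666) (nat_lit 13) (.e (nat_lit 65630) (nat_lit 14) (.e (nat_lit 401428) (nat_lit 3) (.e (nat_lit 204849) (nat_lit 25) .nil)))))) (.g (nat_lit 1) (.e (nat_lit 365945) (nat_lit 0) .nil) .nil)))))))) 
(.nd (nat_lit 5) (.nd (nat_lit 6) (.nd (nat_lit 7) (.nd (nat_lit 8) (.nd (nat_lit 9) 
(.lf (nat_lit 575510) (.g (nat_lit 1361) (.e (nat_lit 491562) (nat_lit 12) (.e (nat_lit 385109) (nat_lit 51) (.e (nat_lit 794675) (nat_lit 24) .nil))) (.g (nat_lit 0) (.e (nat_lit 363389) (nat_lit 0) .nil) .nil))) 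
(.lf (nat_lit 576022) (.g (nat_lit 3197) (.e (nat_lit 491572) (nat_lit 14) (.e (nat_lit 401456) (nat_lit 13) (.e (nat_lit 483372) (nat_lit 21) (.e (nat_lit 319533) (nat_lit 16) (.e (nat_lit 294656) (nat_lit 35) .nil))))) (.g (nat_lit 0) (.e (nat_lit 364300) (nat_lit 0) .nil) .nil)))) (.nd (nat_lit 9) 
(.lf (nat_lit 575766) (.g (nat_lit 1728) (.e (nat_lit 491568) (nat_lit 13) (.e (nat_lit 393301) (nat_lit 27) (.e (nat_lit 491560) (nat_lit 10) (.e (nat_lit 344179) (nat_lit 44) .nil)))) (.g (nat_lit 0) (.e (nat_lit 363792) (nat_lit 0) .nil) .nil))) 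
(.lf (nat_lit 576278) (.g (nat_lit 837) (.e (nat_lit 319530) (nat_lit 16) (.e (nat_lit 286733) (nat_lit 2) (.e (nat_lit 90128) (nat_lit 9) (.e (nat_lit 3044) (nat_lit 189) .nil)))) (.g (nat_lit 0) (.e (nat_lit 365219) (nat_lit 0) .nil) .nil))))) (.nd (nat_lit 8) (.nd (nat_lit 9) 
(.lf (nat_lit 575638) (.g (nat_lit 6100) (.e (nat_lit 491566) (nat_lit 12) (.e (nat_lit 385073) (nat_lit 31) (.e (nat_lit 573493) (nat_lit 15) (.e (nat_lit 81953) (nat_lit 22) (.e (nat_lit 90123) (nat_lit 9) (.e (nat_lit 3095) (nat_lit 192) .nil)))))) (.g (nat_lit 1) (.e (nat_lit 363609) (nat_lit 0) .nil) .nil))) 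
(.lf (nat_lit 576150) (.g (nat_lit 2189) (.e (nat_lit 319492) (nat_lit 0) (.e (nat_lit 5664) (nat_lit 312) (.e (nat_lit 3085) (nat_lit 191) (.e (nat_lit 483413) (nat_lit 27) (.e (nat_lit 401440) (nat_lit 9) .nil))))) (.g (nat_lit 0) (.e (nat_lit 364734) (nat_lit 0) .nil) .nil)))) (.nd (nat_lit 9) 
(.lf (nat_lit 575894) (.g (nat_lit 870) (.e (nat_lit 491570) (nat_lit 13) (.e (nat_lit 393271) (nat_lit 23) (.e (nat_lit 425998) (nat_lit 0) .nil))) (.g (nat_lit 0) (.e (nat_lit 363971) (nat_lit 0) .nil) .nil))) 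
(.lf (nat_lit 576406) (.g (nat_lit 1754) (.e (nat_lit 319534) (nat_lit 16) (.e (nat_lit 286728) (nat_lit 0) (.e (nat_lit 1788) (nat_lit 119) (.e (nat_lit 516141) (nat_lit 8) (.e (nat_lit 417813) (nat_lit 9) .nil))))) (.g (nat_lit 0) (.e (nat_lit 365440) (nat_lit 0) .nil) .nil)))))) (.nd (nat_lit 7) (.nd (nat_lit 8) (.nd (nat_lit 9) 
(.lf (nat_lit 575574) (.g (nat_lit 3616) (.e (nat_lit 491566) (nat_lit 12) (.e (nat_lit 385068) (nat_lit 26) (.e (nat_lit 532499) (nat_lit 1) (.e (nat_lit 57783) (nat_lit 239) (.e (nat_lit 2619) (nat_lit 164) (.e (nat_lit 172150) (nat_lit 27) (.e (nat_lit 343808) (nat_lit 35) .nil))))))) (.g (nat_lit 1) (.e (nat_lit 363507) (nat_lit 0) .nil) .nil))) 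
(.lf (nat_lit 576086) (.g (nat_lit 3396) (.e (nat_lit 319490) (nat_lit 0) (.e (nat_lit 5664) (nat_lit 312) (.e (nat_lit 3085) (nat_lit 191) (.e (nat_lit 483411) (nat_lit 27) (.e (nat_lit 401440) (nat_lit 9) (.e (nat_lit 426470) (nat_lit 25) .nil)))))) (.g (nat_lit 1) (.e (nat_lit 364584) (nat_lit 0) .nil) .nil)))) (.nd (nat_lit 9) 
(.lf (nat_lit 575830) (.g (nat_lit 3183) (.e (nat_lit 491569) (nat_lit 13) (.e (nat_lit 393301) (nat_lit 27) (.e (nat_lit 491560) (nat_lit 10) (.e (nat_lit 344088) (nat_lit 18) (.e (nat_lit 6852) (nat_lit 371) (.e (nat_lit 2420) (nat_lit 157) (.e (nat_lit 3105) (nat_lit 192) .nil))))))) (.g (nat_lit 1) (.e (nat_lit 363887) (nat_lit 0) .nil) .nil))) 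
(.lf (nat_lit 576342) (.g (nat_lit 1612) (.e (nat_lit 319532) (nat_lit 16) (.e (nat_lit 286733) (nat_lit 2) (.e (nat_lit 90176) (nat_lit 15) (.e (nat_lit 196352) (nat_lit 20) .nil)))) (.g (nat_lit 0) (.e (nat_lit 365330) (nat_lit 0) .nil) .nil))))) (.nd (nat_lit 8) (.nd (nat_lit 9) 
(.lf (nat_lit 575702) (.g (nat_lit 1176) (.e (nat_lit 491566) (nat_lit 12) (.e (nat_lit 385105) (nat_lit 50) (.e (nat_lit 786481) (nat_lit 30) (.e (nat_lit 360482) (nat_lit 15) .nil)))) (.g (nat_lit 0) (.e (nat_lit 363718) (nat_lit 0) .nil) .nil))) 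
(.lf (nat_lit 576214) (.g (nat_lit 1968) (.e (nat_lit 319539) (nat_lit 19) (.e (nat_lit 311315) (nat_lit 3) (.e (nat_lit 204846) (nat_lit 24) (.e (nat_lit 319505) (nat_lit 10) (.e (nat_lit 5712) (nat_lit 312) .nil))))) (.g (nat_lit 0) (.e (nat_lit 365094) (nat_lit 0) .nil) .nil)))) (.nd (nat_lit 9) 
(.lf (nat_lit 575958) (.g (nat_lit 1936) (.e (nat_lit 491571) (nat_lit 13) (.e (nat_lit 393260) (nat_lit 21) (.e (nat_lit 409616) (nat_lit 10) (.e (nat_lit 5347) (nat_lit 298) (.e (nat_lit 401) (nat_lit 32) .nil))))) (.g (nat_lit 0) (.e (nat_lit 364125) (nat_lit 0) .nil) .nil))) 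
(.lf (nat_lit 576470) (.g (nat_lit 1840) (.e (nat_lit 327424) (nat_lit 16) (.e (nat_lit 286735) (nat_lit 3) (.e (nat_lit 98323) (nat_lit 17) (.e (nat_lit 6989) (nat_lit 377) (.e (nat_lit 1076) (nat_lit 81) .nil))))) (.g (nat_lit 0) (.e (nat_lit 365554) (nat_lit 0) .nil) .nil))))))) (.nd (nat_lit 6) (.nd (nat_lit 7) (.nd (nat_lit 8) (.nd (nat_lit 9) 
(.lf (nat_lit 575542) (.g (nat_lit 1069) (.e (nat_lit 491564) (nat_lit 12) (.e (nat_lit 385109) (nat_lit 51) (.e (nat_lit 794682) (nat_lit 25) .nil))) (.g (nat_lit 0) (.e (nat_lit 363426) (nat_lit 0) .nil) .nil))) 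
(.lf (nat_lit 576054) (.g (nat_lit 1546) (.e (nat_lit 499456) (nat_lit 30) (.e (nat_lit 450587) (nat_lit 10) (.e (nat_lit 573502) (nat_lit 18) (.e (nat_lit 1008) (nat_lit 81) .nil)))) (.g (nat_lit 0) (.e (nat_lit 364494) (nat_lit 0) .nil) .nil)))) (.nd (nat_lit 9) 
(.lf (nat_lit 575798) (.g (nat_lit 2087) (.e (nat_lit 491569) (nat_lit 13) (.e (nat_lit 393298) (nat_lit 27) (.e (nat_lit 491571) (nat_lit 13) (.e (nat_lit 401152) (nat_lit 27) .nil)))) (.g (nat_lit 0) (.e (nat_lit 363853) (nat_lit 0) .nil) .nil))) 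
(.lf (nat_lit 576310) (.g (nat_lit 469) (.e (nat_lit 319531) (nat_lit 16) (.e (nat_lit 286733) (nat_lit 2) (.e (nat_lit 90146) (nat_lit 9) .nil))) (.g (nat_lit 0) (.e (nat_lit 365284) (nat_lit 0) .nil) .nil))))) (.nd (nat_lit 8) (.nd (nat_lit 9) 
(.lf (nat_lit 575670) (.g (nat_lit 6382) (.e (nat_lit 491566) (nat_lit 12) (.e (nat_lit 385074) (nat_lit 31) (.e (nat_lit 573493) (nat_lit 15) (.e (nat_lit 81953) (nat_lit 22) (.e (nat_lit 90122) (nat_lit 9) (.e (nat_lit 3095) (nat_lit 192) .nil)))))) (.g (nat_lit 1) (.e (nat_lit 363656) (nat_lit 0) .nil) .nil))) 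
(.lf (nat_lit 576182) (.g (nat_lit 2781) (.e (nat_lit 319509) (nat_lit 10) (.e (nat_lit 5723) (nat_lit 312) (.e (nat_lit 300) (nat_lit 22) (.e (nat_lit 344069) (nat_lit 0) (.e (nat_lit 3090) (nat_lit 191) (.e (nat_lit 483372) (nat_lit 21) .nil)))))) (.g (nat_lit 1) (.e (nat_lit 364960) (nat_lit 0) .nil) .nil)))) (.nd (nat_lit 9) 
(.lf (nat_lit 575926) (.g (nat_lit 3526) (.e (nat_lit 491571) (nat_lit 13) (.e (nat_lit 393232) (nat_lit 17) (.e (nat_lit 3555) (nat_lit 220) (.e (nat_lit 720956) (nat_lit 25) (.e (nat_lit 114716) (nat_lit 22) (.e (nat_lit 90133) (nat_lit 9) (.e (nat_lit 3105) (nat_lit 192) .nil))))))) (.g (nat_lit 1) (.e (nat_lit 364057) (nat_lit 0) .nil) .nil))) 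
(.lf (nat_lit 576438) (.g (nat_lit 2539) (.e (nat_lit 319534) (nat_lit 16) (.e (nat_lit 286756) (nat_lit 10) (.e (nat_lit 344160) (nat_lit 37) (.e (nat_lit 647190) (nat_lit 9) (.e (nat_lit 984) (nat_lit 81) (.e (nat_lit 2333) (nat_lit 151) (.e (nat_lit 778464) (nat_lit 11) (.e (nat_lit 24617) (nat_lit 7) .nil)))))))) (.g (nat_lit 1) (.e (nat_lit 365484) (nat_lit 0) .nil) .nil)))))) 
(.nd (nat_lit 7) (.nd (nat_lit 8) (.nd (nat_lit 9) 
(.lf (nat_lit 575606) (.g (nat_lit 1995) (.e (nat_lit 491566) (nat_lit 12) (.e (nat_lit 385072) (nat_lit 31) (.e (nat_lit 573491) (nat_lit 15) (.e (nat_lit 81954) (nat_lit 23) (.e (nat_lit 106240) (nat_lit 33) .nil))))) (.g (nat_lit 1) (.e (nat_lit 363551) (nat_lit 0) .nil) .nil))) 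
(.lf (nat_lit 576118) (.g (nat_lit 1841) (.e (nat_lit 319491) (nat_lit 0) (.e (nat_lit 5664) (nat_lit 312) (.e (nat_lit 3085) (nat_lit 191) (.e (nat_lit 483376) (nat_lit 22) (.e (nat_lit 327718) (nat_lit 19) .nil))))) (.g (nat_lit 0) (.e (nat_lit 364664) (nat_lit 0) .nil) .nil)))) (.nd (nat_lit 9) 
(.lf (nat_lit 575862) (.g (nat_lit 551) (.e (nat_lit 491570) (nat_lit 13) (.e (nat_lit 393238) (nat_lit 17) (.e (nat_lit 7101) (nat_lit 380) .nil))) (.g (nat_lit 0) (.e (nat_lit 363925) (nat_lit 0) .nil) .nil))) 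
(.lf (nat_lit 576374) (.g (nat_lit 1742) (.e (nat_lit 319533) (nat_lit 16) (.e (nat_lit 286735) (nat_lit 3) (.e (nat_lit 98320) (nat_lit 17) (.e (nat_lit 7394) (nat_lit 395) .nil)))) (.g (nat_lit 0) (.e (nat_lit 365389) (nat_lit 0) .nil) .nil))))) (.nd (nat_lit 8) (.nd (nat_lit 9) 
(.lf (nat_lit 575734) (.g (nat_lit 1729) (.e (nat_lit 491568) (nat_lit 13) (.e (nat_lit 393291) (nat_lit 26) (.e (nat_lit 475198) (nat_lit 40) (.e (nat_lit 704592) (nat_lit 4) .nil)))) (.g (nat_lit 0) (.e (nat_lit 363757) (nat_lit 0) .nil) .nil))) 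
(.lf (nat_lit 576246) (.g (nat_lit 1935) (.e (nat_lit 319528) (nat_lit 16) (.e (nat_lit 286735) (nat_lit 3) (.e (nat_lit 98365) (nat_lit 26) (.e (nat_lit 426187) (nat_lit 9) (.e (nat_lit 433920) (nat_lit 3) .nil))))) (.g (nat_lit 0) (.e (nat_lit 365138) (nat_lit 0) .nil) .nil)))) (.nd (nat_lit 9) 
(.lf (nat_lit 575990) (.g (nat_lit 2571) (.e (nat_lit 491571) (nat_lit 13) (.e (nat_lit 393298) (nat_lit 27) (.e (nat_lit 491549) (nat_lit 9) (.e (nat_lit 336366) (nat_lit 27) (.e (nat_lit 426339) (nat_lit 14) .nil))))) (.g (nat_lit 0) (.e (nat_lit 364242) (nat_lit 0) .nil) .nil))) 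
(.lf (nat_lit 576502) (.g (nat_lit 2099) (.e (nat_lit 327698) (nat_lit 8) (.e (nat_lit 303119) (nat_lit 3) (.e (nat_lit 204863) (nat_lit 27) (.e (nat_lit 344068) (nat_lit 0) .nil)))) (.g (nat_lit 0) (.e (nat_lit 365971) (nat_lit 0) .nil) .nil))))))))) (.nd (nat_lit 4) (.nd (nat_lit 5) (.nd (nat_lit 6) (.nd (nat_lit 7) (.nd (nat_lit 8) (.nd (nat_lit 9) 
(.lf (nat_lit 575502) (.g (nat_lit 3377) (.e (nat_lit 491562) (nat_lit 12) (.e (nat_lit 385073) (nat_lit 31) (.e (nat_lit 573493) (nat_lit 15) (.e (nat_lit 81962) (nat_lit 25) (.e (nat_lit 139289) (nat_lit 9) (.e (nat_lit 3102) (nat_lit 192) .nil)))))) (.g (nat_lit 1) (.e (nat_lit 363380) (nat_lit 0) .nil) .nil))) 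
(.lf (nat_lit 576014) (.g (nat_lit 3105) (.e (nat_lit 491571) (nat_lit 13) (.e (nat_lit 393299) (nat_lit 27) (.e (nat_lit 491560) (nat_lit 10) (.e (nat_lit 344091) (nat_lit 18) (.e (nat_lit 6940) (nat_lit 375) (.e (nat_lit 163946) (nat_lit 20) .nil)))))) (.g (nat_lit 1) (.e (nat_lit 364277) (nat_lit 0) .nil) .nil)))) (.nd (nat_lit 9) 
(.lf (nat_lit 575758) (.g (nat_lit 2690) (.e (nat_lit 491568) (nat_lit 13) (.e (nat_lit 393301) (nat_lit 27) (.e (nat_lit 491560) (nat_lit 10) (.e (nat_lit 344090) (nat_lit 18) (.e (nat_lit 6923) (nat_lit 371) .nil))))) (.g (nat_lit 0) (.e (nat_lit 363784) (nat_lit 0) .nil) .nil))) 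
(.lf (nat_lit 576270) (.g (nat_lit 599) (.e (nat_lit 319529) (nat_lit 16) (.e (nat_lit 286735) (nat_lit 3) (.e (nat_lit 98363) (nat_lit 26) .nil))) (.g (nat_lit 0) (.e (nat_lit 365177) (nat_lit 0) .nil) .nil))))) (.nd (nat_lit 8) (.nd (nat_lit 9) 
(.lf (nat_lit 575630) (.g (nat_lit 1902) (.e (nat_lit 491566) (nat_lit 12) (.e (nat_lit 385073) (nat_lit 31) (.e (nat_lit 573491) (nat_lit 15) (.e (nat_lit 81954) (nat_lit 23) (.e (nat_lit 106240) (nat_lit 33) .nil))))) (.g (nat_lit 1) (.e (nat_lit 363580) (nat_lit 0) .nil) .nil))) 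
(.lf (nat_lit 576142) (.g (nat_lit 1474) (.e (nat_lit 319492) (nat_lit 0) (.e (nat_lit 5664) (nat_lit 312) (.e (nat_lit 3085) (nat_lit 191) (.e (nat_lit 483345) (nat_lit 17) .nil)))) (.g (nat_lit 0) (.e (nat_lit 364724) (nat_lit 0) .nil) .nil)))) (.nd (nat_lit 9) 
(.lf (nat_lit 575886) (.g (nat_lit 3405) (.e (nat_lit 491570) (nat_lit 13) (.e (nat_lit 393260) (nat_lit 21) (.e (nat_lit 409649) (nat_lit 18) (.e (nat_lit 303111) (nat_lit 0) (.e (nat_lit 3578) (nat_lit 223) (.e (nat_lit 745474) (nat_lit 0) (.e (nat_lit 498) (nat_lit 40) .nil))))))) (.g (nat_lit 1) (.e (nat_lit 363960) (nat_lit 0) .nil) .nil))) 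
(.lf (nat_lit 576398) (.g (nat_lit 2812) (.e (nat_lit 319533) (nat_lit 16) (.e (nat_lit 286758) (nat_lit 12) (.e (nat_lit 385107) (nat_lit 51) (.e (nat_lit 794677) (nat_lit 24) (.e (nat_lit 213030) (nat_lit 11) (.e (nat_lit 24617) (nat_lit 7) .nil)))))) (.g (nat_lit 1) (.e (nat_lit 365416) (nat_lit 0) .nil) .nil)))))) (.nd (nat_lit 7) (.nd (nat_lit 8) (.nd (nat_lit 9) 
(.lf (nat_lit 575566) (.g (nat_lit 3247) (.e (nat_lit 491565) (nat_lit 12) (.e (nat_lit 385074) (nat_lit 31) (.e (nat_lit 573493) (nat_lit 15) (.e (nat_lit 81954) (nat_lit 23) (.e (nat_lit 98388) (nat_lit 33) .nil))))) (.g (nat_lit 0) (.e (nat_lit 363473) (nat_lit 0) .nil) .nil))) 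
(.lf (nat_lit 576078) (.g (nat_lit 1541) (.e (nat_lit 319490) (nat_lit 0) (.e (nat_lit 5664) (nat_lit 312) (.e (nat_lit 3085) (nat_lit 191) (.e (nat_lit 483377) (nat_lit 22) (.e (nat_lit 327707) (nat_lit 10) .nil))))) (.g (nat_lit 0) (.e (nat_lit 364576) (nat_lit 0) .nil) .nil)))) (.nd (nat_lit 9) 
(.lf (nat_lit 575822) (.g (nat_lit 2200) (.e (nat_lit 491569) (nat_lit 13) (.e (nat_lit 393301) (nat_lit 27) (.e (nat_lit 491559) (nat_lit 10) (.e (nat_lit 344089) (nat_lit 18) .nil)))) (.g (nat_lit 0) (.e (nat_lit 363879) (nat_lit 0) .nil) .nil))) 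
(.lf (nat_lit 576334) (.g (nat_lit 1936) (.e (nat_lit 319531) (nat_lit 16) (.e (nat_lit 286759) (nat_lit 12) (.e (nat_lit 385094) (nat_lit 49) (.e (nat_lit 778487) (nat_lit 13) .nil)))) (.g (nat_lit 0) (.e (nat_lit 365311) (nat_lit 0) .nil) .nil))))) (.nd (nat_lit 8) (.nd (nat_lit 9) 
(.lf (nat_lit 575694) (.g (nat_lit 2625) (.e (nat_lit 491566) (nat_lit 12) (.e (nat_lit 385104) (nat_lit 50) (.e (nat_lit 786483) (nat_lit 30) (.e (nat_lit 360450) (nat_lit 0) (.e (nat_lit 5604) (nat_lit 310) (.e (nat_lit 163946) (nat_lit 20) .nil)))))) (.g (nat_lit 1) (.e (nat_lit 363706) (nat_lit 0) .nil) .nil))) 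
(.lf (nat_lit 576206) (.g (nat_lit 2792) (.e (nat_lit 319538) (nat_lit 19) (.e (nat_lit 311315) (nat_lit 3) (.e (nat_lit 204846) (nat_lit 24) (.e (nat_lit 319533) (nat_lit 16) (.e (nat_lit 286724) (nat_lit 0) (.e (nat_lit 1841) (nat_lit 123) (.e (nat_lit 548874) (nat_lit 5) (.e (nat_lit 1395) (nat_lit 106) .nil)))))))) (.g (nat_lit 1) (.e (nat_lit 365085) (nat_lit 0) .nil) .nil)))) 
(.nd (nat_lit 9) 
(.lf (nat_lit 575950) (.g (nat_lit 812) (.e (nat_lit 491571) (nat_lit 13) (.e (nat_lit 393260) (nat_lit 21) (.e (nat_lit 409610) (nat_lit 10) .nil))) (.g (nat_lit 0) (.e (nat_lit 364116) (nat_lit 0) .nil) .nil))) 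
(.lf (nat_lit 576462) (.g (nat_lit 1557) (.e (nat_lit 327424) (nat_lit 16) (.e (nat_lit 286733) (nat_lit 2) (.e (nat_lit 90134) (nat_lit 9) (.e (nat_lit 2992) (nat_lit 186) .nil)))) (.g (nat_lit 0) (.e (nat_lit 365536) (nat_lit 0) .nil) .nil))))))) (.nd (nat_lit 6) (.nd (nat_lit 7) (.nd (nat_lit 8) (.nd (nat_lit 9) 
(.lf (nat_lit 575534) (.g (nat_lit 3322) (.e (nat_lit 491564) (nat_lit 12) (.e (nat_lit 385074) (nat_lit 31) (.e (nat_lit 573493) (nat_lit 15) (.e (nat_lit 81954) (nat_lit 23) (.e (nat_lit 98387) (nat_lit 33) .nil))))) (.g (nat_lit 0) (.e (nat_lit 363415) (nat_lit 0) .nil) .nil))) 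
(.lf (nat_lit 576046) (.g (nat_lit 453) (.e (nat_lit 491584) (nat_lit 28) (.e (nat_lit 434208) (nat_lit 18) (.e (nat_lit 6420) (nat_lit 341) .nil))) (.g (nat_lit 0) (.e (nat_lit 364425) (nat_lit 0) .nil) .nil)))) (.nd (nat_lit 9) 
(.lf (nat_lit 575790) (.g (nat_lit 1601) (.e (nat_lit 491569) (nat_lit 13) (.e (nat_lit 393294) (nat_lit 26) (.e (nat_lit 475211) (nat_lit 41) (.e (nat_lit 712742) (nat_lit 27) .nil)))) (.g (nat_lit 0) (.e (nat_lit 363844) (nat_lit 0) .nil) .nil))) 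
(.lf (nat_lit 576302) (.g (nat_lit 1895) (.e (nat_lit 319530) (nat_lit 16) (.e (nat_lit 286759) (nat_lit 12) (.e (nat_lit 385107) (nat_lit 51) (.e (nat_lit 794650) (nat_lit 20) .nil)))) (.g (nat_lit 0) (.e (nat_lit 365243) (nat_lit 0) .nil) .nil))))) (.nd (nat_lit 8) (.nd (nat_lit 9) 
(.lf (nat_lit 575662) (.g (nat_lit 2414) (.e (nat_lit 491566) (nat_lit 12) (.e (nat_lit 385074) (nat_lit 31) (.e (nat_lit 573491) (nat_lit 15) (.e (nat_lit 81954) (nat_lit 23) (.e (nat_lit 106240) (nat_lit 33) .nil))))) (.g (nat_lit 1) (.e (nat_lit 363645) (nat_lit 0) .nil) .nil))) 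
(.lf (nat_lit 576174) (.g (nat_lit 1649) (.e (nat_lit 319500) (nat_lit 10) (.e (nat_lit 618) (nat_lit 48) (.e (nat_lit 557107) (nat_lit 15) (.e (nat_lit 188441) (nat_lit 20) (.e (nat_lit 3579) (nat_lit 223) .nil))))) (.g (nat_lit 0) (.e (nat_lit 364918) (nat_lit 0) .nil) .nil)))) (.nd (nat_lit 9) 
(.lf (nat_lit 575918) (.g (nat_lit 1542) (.e (nat_lit 491570) (nat_lit 13) (.e (nat_lit 393298) (nat_lit 27) (.e (nat_lit 491570) (nat_lit 13) (.e (nat_lit 401152) (nat_lit 27) .nil)))) (.g (nat_lit 0) (.e (nat_lit 364038) (nat_lit 0) .nil) .nil))) 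
(.lf (nat_lit 576430) (.g (nat_lit 2960) (.e (nat_lit 319534) (nat_lit 16) (.e (nat_lit 286749) (nat_lit 9) (.e (nat_lit 335997) (nat_lit 1) (.e (nat_lit 57692) (nat_lit 156) (.e (nat_lit 163862) (nat_lit 1) (.e (nat_lit 164332) (nat_lit 230) (.e (nat_lit 163905) (nat_lit 12) (.e (nat_lit 426472) (nat_lit 25) .nil)))))))) (.g (nat_lit 1) (.e (nat_lit 365476) (nat_lit 0) .nil) .nil)))))) 
(.nd (nat_lit 7) (.nd (nat_lit 8) (.nd (nat_lit 9) 
(.lf (nat_lit 575598) (.g (nat_lit 1927) (.e (nat_lit 491566) (nat_lit 12) (.e (nat_lit 392960) (nat_lit 24) (.e (nat_lit 516158) (nat_lit 9) (.e (nat_lit 426335) (nat_lit 13) (.e (nat_lit 491264) (nat_lit 16) .nil))))) (.g (nat_lit 1) (.e (nat_lit 363543) (nat_lit 0) .nil) .nil))) 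
(.lf (nat_lit 576110) (.g (nat_lit 2231) (.e (nat_lit 319491) (nat_lit 0) (.e (nat_lit 5664) (nat_lit 312) (.e (nat_lit 3078) (nat_lit 191) (.e (nat_lit 483346) (nat_lit 17) (.e (nat_lit 6720) (nat_lit 361) (.e (nat_lit 172143) (nat_lit 25) .nil)))))) (.g (nat_lit 1) (.e (nat_lit 364656) (nat_lit 0) .nil) .nil)))) (.nd (nat_lit 9) 
(.lf (nat_lit 575854) (.g (nat_lit 2920) (.e (nat_lit 491569) (nat_lit 13) (.e (nat_lit 393301) (nat_lit 27) (.e (nat_lit 491563) (nat_lit 12) (.e (nat_lit 385029) (nat_lit 8) .nil)))) (.g (nat_lit 0) (.e (nat_lit 363911) (nat_lit 0) .nil) .nil))) 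
(.lf (nat_lit 576366) (.g (nat_lit 649) (.e (nat_lit 319533) (nat_lit 16) (.e (nat_lit 286733) (nat_lit 2) (.e (nat_lit 90186) (nat_lit 17) .nil))) (.g (nat_lit 0) (.e (nat_lit 365380) (nat_lit 0) .nil) .nil))))) (.nd (nat_lit 8) (.nd (nat_lit 9) 
(.lf (nat_lit 575726) (.g (nat_lit 1032) (.e (nat_lit 491568) (nat_lit 13) (.e (nat_lit 393271) (nat_lit 23) (.e (nat_lit 426354) (nat_lit 15) .nil))) (.g (nat_lit 0) (.e (nat_lit 363747) (nat_lit 0) .nil) .nil))) 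
(.lf (nat_lit 576238) (.g (nat_lit 2341) (.e (nat_lit 319528) (nat_lit 16) (.e (nat_lit 286735) (nat_lit 3) (.e (nat_lit 98356) (nat_lit 26) (.e (nat_lit 426227) (nat_lit 9) (.e (nat_lit 433920) (nat_lit 3) .nil))))) (.g (nat_lit 0) (.e (nat_lit 365130) (nat_lit 0) .nil) .nil)))) (.nd (nat_lit 9) 
(.lf (nat_lit 575982) (.g (nat_lit 558) (.e (nat_lit 491571) (nat_lit 13) (.e (nat_lit 393298) (nat_lit 27) (.e (nat_lit 491520) (nat_lit 0) .nil))) (.g (nat_lit 0) (.e (nat_lit 364221) (nat_lit 0) .nil) .nil))) 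
(.lf (nat_lit 576494) (.g (nat_lit 4176) (.e (nat_lit 327698) (nat_lit 8) (.e (nat_lit 303119) (nat_lit 3) (.e (nat_lit 204816) (nat_lit 17) (.e (nat_lit 6203) (nat_lit 332) (.e (nat_lit 2798) (nat_lit 180) (.e (nat_lit 303119) (nat_lit 3) (.e (nat_lit 204849) (nat_lit 25) .nil))))))) (.g (nat_lit 1) (.e (nat_lit 365962) (nat_lit 0) .nil) .nil)))))))) 
(.nd (nat_lit 5) (.nd (nat_lit 6) (.nd (nat_lit 7) (.nd (nat_lit 8) (.nd (nat_lit 9) 
(.lf (nat_lit 575518) (.g (nat_lit 2493) (.e (nat_lit 491564) (nat_lit 12) (.e (nat_lit 385072) (nat_lit 31) (.e (nat_lit 573492) (nat_lit 15) (.e (nat_lit 81953) (nat_lit 22) (.e (nat_lit 90134) (nat_lit 9) .nil))))) (.g (nat_lit 0) (.e (nat_lit 363398) (nat_lit 0) .nil) .nil))) 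
(.lf (nat_lit 576030) (.g (nat_lit 3463) (.e (nat_lit 491572) (nat_lit 14) (.e (nat_lit 401459) (nat_lit 13) (.e (nat_lit 483372) (nat_lit 21) (.e (nat_lit 319529) (nat_lit 16) .nil)))) (.g (nat_lit 0) (.e (nat_lit 364308) (nat_lit 0) .nil) .nil)))) (.nd (nat_lit 9) 
(.lf (nat_lit 575774) (.g (nat_lit 3148) (.e (nat_lit 491569) (nat_lit 13) (.e (nat_lit 393251) (nat_lit 18) (.e (nat_lit 164182) (nat_lit 154) (.e (nat_lit 57411) (nat_lit 12) (.e (nat_lit 335878) (nat_lit 0) .nil))))) (.g (nat_lit 0) (.e (nat_lit 363811) (nat_lit 0) .nil) .nil))) 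
(.lf (nat_lit 576286) (.g (nat_lit 1018) (.e (nat_lit 319530) (nat_lit 16) (.e (nat_lit 286735) (nat_lit 3) (.e (nat_lit 106240) (nat_lit 26) (.e (nat_lit 426265) (nat_lit 9) (.e (nat_lit 426133) (nat_lit 3) (.e (nat_lit 212736) (nat_lit 24) .nil)))))) (.g (nat_lit 1) (.e (nat_lit 365227) (nat_lit 0) .nil) .nil))))) (.nd (nat_lit 8) (.nd (nat_lit 9) 
(.lf (nat_lit 575646) (.g (nat_lit 3553) (.e (nat_lit 491566) (nat_lit 12) (.e (nat_lit 385073) (nat_lit 31) (.e (nat_lit 573493) (nat_lit 15) (.e (nat_lit 81954) (nat_lit 23) (.e (nat_lit 98387) (nat_lit 33) .nil))))) (.g (nat_lit 1) (.e (nat_lit 363617) (nat_lit 0) .nil) .nil))) 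
(.lf (nat_lit 576158) (.g (nat_lit 3081) (.e (nat_lit 327424) (nat_lit 8) (.e (nat_lit 303117) (nat_lit 2) (.e (nat_lit 196666) (nat_lit 13) (.e (nat_lit 65628) (nat_lit 14) (.e (nat_lit 401428) (nat_lit 3) .nil))))) (.g (nat_lit 0) (.e (nat_lit 364780) (nat_lit 0) .nil) .nil)))) (.nd (nat_lit 9) 
(.lf (nat_lit 575902) (.g (nat_lit 3742) (.e (nat_lit 491570) (nat_lit 13) (.e (nat_lit 393283) (nat_lit 24) (.e (nat_lit 434272) (nat_lit 38) (.e (nat_lit 655378) (nat_lit 4) (.e (nat_lit 172126) (nat_lit 14) .nil))))) (.g (nat_lit 1) (.e (nat_lit 364008) (nat_lit 0) .nil) .nil))) 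
(.lf (nat_lit 576414) (.g (nat_lit 1111) (.e (nat_lit 319534) (nat_lit 16) (.e (nat_lit 286734) (nat_lit 3) (.e (nat_lit 98320) (nat_lit 17) (.e (nat_lit 7394) (nat_lit 395) .nil)))) (.g (nat_lit 0) (.e (nat_lit 365457) (nat_lit 0) .nil) .nil)))))) (.nd (nat_lit 7) (.nd (nat_lit 8) (.nd (nat_lit 9) 
(.lf (nat_lit 575582) (.g (nat_lit 992) (.e (nat_lit 491566) (nat_lit 12) (.e (nat_lit 392960) (nat_lit 24) (.e (nat_lit 516143) (nat_lit 9) (.e (nat_lit 426336) (nat_lit 13) (.e (nat_lit 491264) (nat_lit 16) .nil))))) (.g (nat_lit 1) (.e (nat_lit 363520) (nat_lit 0) .nil) .nil))) 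
(.lf (nat_lit 576094) (.g (nat_lit 2597) (.e (nat_lit 319490) (nat_lit 0) (.e (nat_lit 5664) (nat_lit 312) (.e (nat_lit 3085) (nat_lit 191) (.e (nat_lit 483413) (nat_lit 27) (.e (nat_lit 401440) (nat_lit 9) (.e (nat_lit 433920) (nat_lit 25) .nil)))))) (.g (nat_lit 1) (.e (nat_lit 364593) (nat_lit 0) .nil) .nil)))) (.nd (nat_lit 9) 
(.lf (nat_lit 575838) (.g (nat_lit 2659) (.e (nat_lit 491569) (nat_lit 13) (.e (nat_lit 393301) (nat_lit 27) (.e (nat_lit 491560) (nat_lit 10) (.e (nat_lit 344090) (nat_lit 18) (.e (nat_lit 6945) (nat_lit 376) .nil))))) (.g (nat_lit 0) (.e (nat_lit 363895) (nat_lit 0) .nil) .nil))) 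
(.lf (nat_lit 576350) (.g (nat_lit 1595) (.e (nat_lit 319532) (nat_lit 16) (.e (nat_lit 286759) (nat_lit 12) (.e (nat_lit 385109) (nat_lit 51) (.e (nat_lit 794676) (nat_lit 24) .nil)))) (.g (nat_lit 0) (.e (nat_lit 365347) (nat_lit 0) .nil) .nil))))) (.nd (nat_lit 8) (.nd (nat_lit 9) 
(.lf (nat_lit 575710) (.g (nat_lit 2365) (.e (nat_lit 491566) (nat_lit 12) (.e (nat_lit 385105) (nat_lit 50) (.e (nat_lit 786483) (nat_lit 30) (.e (nat_lit 360484) (nat_lit 15) (.e (nat_lit 647171) (nat_lit 0) (.e (nat_lit 7936) (nat_lit 192) .nil)))))) (.g (nat_lit 1) (.e (nat_lit 363726) (nat_lit 0) .nil) .nil))) 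
(.lf (nat_lit 576222) (.g (nat_lit 1771) (.e (nat_lit 319528) (nat_lit 16) (.e (nat_lit 286733) (nat_lit 2) (.e (nat_lit 90134) (nat_lit 9) (.e (nat_lit 3025) (nat_lit 187) (.e (nat_lit 450578) (nat_lit 5) .nil))))) (.g (nat_lit 0) (.e (nat_lit 365114) (nat_lit 0) .nil) .nil)))) (.nd (nat_lit 9) 
(.lf (nat_lit 575966) (.g (nat_lit 680) (.e (nat_lit 491571) (nat_lit 13) (.e (nat_lit 393260) (nat_lit 21) (.e (nat_lit 409622) (nat_lit 10) .nil))) (.g (nat_lit 0) (.e (nat_lit 364133) (nat_lit 0) .nil) .nil))) 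
(.lf (nat_lit 576478) (.g (nat_lit 1731) (.e (nat_lit 327424) (nat_lit 16) (.e (nat_lit 286735) (nat_lit 3) (.e (nat_lit 98369) (nat_lit 28) (.e (nat_lit 442404) (nat_lit 20) .nil)))) (.g (nat_lit 0) (.e (nat_lit 365564) (nat_lit 0) .nil) .nil))))))) (.nd (nat_lit 6) (.nd (nat_lit 7) (.nd (nat_lit 8) (.nd (nat_lit 9) 
(.lf (nat_lit 575550) (.g (nat_lit 4386) (.e (nat_lit 491565) (nat_lit 12) (.e (nat_lit 385072) (nat_lit 31) (.e (nat_lit 573493) (nat_lit 15) (.e (nat_lit 81951) (nat_lit 22) (.e (nat_lit 90134) (nat_lit 9) (.e (nat_lit 3098) (nat_lit 192) .nil)))))) (.g (nat_lit 1) (.e (nat_lit 363435) (nat_lit 0) .nil) .nil))) 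
(.lf (nat_lit 576062) (.g (nat_lit 3214) (.e (nat_lit 319490) (nat_lit 0) (.e (nat_lit 5664) (nat_lit 312) (.e (nat_lit 2887) (nat_lit 184) (.e (nat_lit 426499) (nat_lit 27) (.e (nat_lit 335894) (nat_lit 0) (.e (nat_lit 6720) (nat_lit 361) (.e (nat_lit 172143) (nat_lit 25) .nil))))))) (.g (nat_lit 1) (.e (nat_lit 364544) (nat_lit 0) .nil) .nil)))) (.nd (nat_lit 9) 
(.lf (nat_lit 575806) (.g (nat_lit 1800) (.e (nat_lit 491569) (nat_lit 13) (.e (nat_lit 393301) (nat_lit 27) (.e (nat_lit 491558) (nat_lit 10) (.e (nat_lit 344090) (nat_lit 18) (.e (nat_lit 6923) (nat_lit 371) .nil))))) (.g (nat_lit 0) (.e (nat_lit 363863) (nat_lit 0) .nil) .nil))) 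
(.lf (nat_lit 576318) (.g (nat_lit 670) (.e (nat_lit 319531) (nat_lit 16) (.e (nat_lit 286734) (nat_lit 3) (.e (nat_lit 98380) (nat_lit 31) .nil))) (.g (nat_lit 0) (.e (nat_lit 365293) (nat_lit 0) .nil) .nil))))) (.nd (nat_lit 8) (.nd (nat_lit 9) 
(.lf (nat_lit 575678) (.g (nat_lit 3519) (.e (nat_lit 491566) (nat_lit 12) (.e (nat_lit 385074) (nat_lit 31) (.e (nat_lit 573493) (nat_lit 15) (.e (nat_lit 81962) (nat_lit 25) (.e (nat_lit 139289) (nat_lit 9) (.e (nat_lit 3099) (nat_lit 192) .nil)))))) (.g (nat_lit 1) (.e (nat_lit 363668) (nat_lit 0) .nil) .nil))) 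
(.lf (nat_lit 576190) (.g (nat_lit 2321) (.e (nat_lit 327424) (nat_lit 10) (.e (nat_lit 5395) (nat_lit 301) (.e (nat_lit 57464) (nat_lit 23) (.e (nat_lit 516151) (nat_lit 9) (.e (nat_lit 426215) (nat_lit 9) .nil))))) (.g (nat_lit 0) (.e (nat_lit 365000) (nat_lit 0) .nil) .nil)))) (.nd (nat_lit 9) 
(.lf (nat_lit 575934) (.g (nat_lit 674) (.e (nat_lit 491571) (nat_lit 13) (.e (nat_lit 393238) (nat_lit 17) (.e (nat_lit 6989) (nat_lit 377) (.e (nat_lit 7936) (nat_lit 178) .nil)))) (.g (nat_lit 0) (.e (nat_lit 364072) (nat_lit 0) .nil) .nil))) 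
(.lf (nat_lit 576446) (.g (nat_lit 2494) (.e (nat_lit 319534) (nat_lit 16) (.e (nat_lit 286756) (nat_lit 10) (.e (nat_lit 344160) (nat_lit 37) (.e (nat_lit 647195) (nat_lit 9) (.e (nat_lit 982) (nat_lit 81) (.e (nat_lit 2309) (nat_lit 151) (.e (nat_lit 778466) (nat_lit 11) (.e (nat_lit 24617) (nat_lit 7) .nil)))))))) (.g (nat_lit 1) (.e (nat_lit 365492) (nat_lit 0) .nil) .nil)))))) 
(.nd (nat_lit 7) (.nd (nat_lit 8) (.nd (nat_lit 9) 
(.lf (nat_lit 575614) (.g (nat_lit 4488) (.e (nat_lit 491566) (nat_lit 12) (.e (nat_lit 385072) (nat_lit 31) (.e (nat_lit 573492) (nat_lit 15) (.e (nat_lit 81956) (nat_lit 23) (.e (nat_lit 106240) (nat_lit 33) .nil))))) (.g (nat_lit 1) (.e (nat_lit 363559) (nat_lit 0) .nil) .nil))) 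
(.lf (nat_lit 576126) (.g (nat_lit 2735) (.e (nat_lit 319491) (nat_lit 0) (.e (nat_lit 5664) (nat_lit 312) (.e (nat_lit 3085) (nat_lit 191) (.e (nat_lit 483412) (nat_lit 27) (.e (nat_lit 401434) (nat_lit 9) (.e (nat_lit 426470) (nat_lit 25) .nil)))))) (.g (nat_lit 1) (.e (nat_lit 364673) (nat_lit 0) .nil) .nil)))) (.nd (nat_lit 9) 
(.lf (nat_lit 575870) (.g (nat_lit 2523) (.e (nat_lit 491570) (nat_lit 13) (.e (nat_lit 393251) (nat_lit 18) (.e (nat_lit 164183) (nat_lit 154) (.e (nat_lit 57411) (nat_lit 12) (.e (nat_lit 335878) (nat_lit 0) .nil))))) (.g (nat_lit 0) (.e (nat_lit 363937) (nat_lit 0) .nil) .nil))) 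
(.lf (nat_lit 576382) (.g (nat_lit 2919) (.e (nat_lit 319533) (nat_lit 16) (.e (nat_lit 286735) (nat_lit 3) (.e (nat_lit 98359) (nat_lit 26) (.e (nat_lit 426239) (nat_lit 9) .nil)))) (.g (nat_lit 0) (.e (nat_lit 365398) (nat_lit 0) .nil) .nil))))) (.nd (nat_lit 8) (.nd (nat_lit 9) 
(.lf (nat_lit 575742) (.g (nat_lit 1570) (.e (nat_lit 491568) (nat_lit 13) (.e (nat_lit 393296) (nat_lit 26) (.e (nat_lit 475198) (nat_lit 40) (.e (nat_lit 704592) (nat_lit 4) .nil)))) (.g (nat_lit 0) (.e (nat_lit 363766) (nat_lit 0) .nil) .nil))) 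
(.lf (nat_lit 576254) (.g (nat_lit 1442) (.e (nat_lit 319528) (nat_lit 16) (.e (nat_lit 286735) (nat_lit 3) (.e (nat_lit 98381) (nat_lit 31) (.e (nat_lit 474880) (nat_lit 23) .nil)))) (.g (nat_lit 0) (.e (nat_lit 365147) (nat_lit 0) .nil) .nil)))) (.nd (nat_lit 9) 
(.lf (nat_lit 575998) (.g (nat_lit 1280) (.e (nat_lit 491571) (nat_lit 13) (.e (nat_lit 393299) (nat_lit 27) (.e (nat_lit 491521) (nat_lit 0) (.e (nat_lit 7936) (nat_lit 345) .nil)))) (.g (nat_lit 0) (.e (nat_lit 364257) (nat_lit 0) .nil) .nil))) 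
(.lf (nat_lit 576510) (.g (nat_lit 2184) (.e (nat_lit 327699) (nat_lit 8) (.e (nat_lit 303117) (nat_lit 2) (.e (nat_lit 196668) (nat_lit 14) (.e (nat_lit 73782) (nat_lit 32) (.e (nat_lit 2682) (nat_lit 168) .nil))))) (.g (nat_lit 0) (.e (nat_lit 366037) (nat_lit 0) .nil) .nil)))))))))))) 
(.nd (nat_lit 1) (.nd (nat_lit 2) (.nd (nat_lit 3) (.nd (nat_lit 4) (.nd (nat_lit 5) 
(.nd (nat_lit 6) (.nd (nat_lit 7) (.nd (nat_lit 8) (.nd (nat_lit 9) 
(.lf (nat_lit 575489) (.g (nat_lit 1352) (.e (nat_lit 491560) (nat_lit 10) (.e (nat_lit 344179) (nat_lit 44) (.e (nat_lit 778464) (nat_lit 11) (.e (nat_lit 24580) (nat_lit 0) (.e (nat_lit 7936) (nat_lit 345) .nil))))) (.g (nat_lit 0) (.e (nat_lit 363365) (nat_lit 0) .nil) .nil))) 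
(.lf (nat_lit 576001) (.g (nat_lit 363) (.e (nat_lit 491571) (nat_lit 13) (.e (nat_lit 393299) (nat_lit 27) (.e (nat_lit 491547) (nat_lit 9) .nil))) (.g (nat_lit 0) (.e (nat_lit 364263) (nat_lit 0) .nil) .nil)))) (.nd (nat_lit 9) 
(.lf (nat_lit 575745) (.g (nat_lit 1622) (.e (nat_lit 491568) (nat_lit 13) (.e (nat_lit 393300) (nat_lit 27) (.e (nat_lit 491570) (nat_lit 13) (.e (nat_lit 401152) (nat_lit 27) .nil)))) (.g (nat_lit 0) (.e (nat_lit 363770) (nat_lit 0) .nil) .nil))) 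
(.lf (nat_lit 576257) (.g (nat_lit 1958) (.e (nat_lit 319528) (nat_lit 16) (.e (nat_lit 286759) (nat_lit 12) (.e (nat_lit 385094) (nat_lit 49) (.e (nat_lit 778487) (nat_lit 13) .nil)))) (.g (nat_lit 0) (.e (nat_lit 365151) (nat_lit 0) .nil) .nil))))) (.nd (nat_lit 8) (.nd (nat_lit 9) 
(.lf (nat_lit 575617) (.g (nat_lit 4314) (.e (nat_lit 491566) (nat_lit 12) (.e (nat_lit 385072) (nat_lit 31) (.e (nat_lit 573493) (nat_lit 15) (.e (nat_lit 81951) (nat_lit 22) (.e (nat_lit 90134) (nat_lit 9) (.e (nat_lit 3096) (nat_lit 192) .nil)))))) (.g (nat_lit 1) (.e (nat_lit 363562) (nat_lit 0) .nil) .nil))) 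
(.lf (nat_lit 576129) (.g (nat_lit 2252) (.e (nat_lit 319491) (nat_lit 0) (.e (nat_lit 5664) (nat_lit 312) (.e (nat_lit 3085) (nat_lit 191) (.e (nat_lit 483412) (nat_lit 27) (.e (nat_lit 401443) (nat_lit 9) (.e (nat_lit 433920) (nat_lit 25) .nil)))))) (.g (nat_lit 1) (.e (nat_lit 364676) (nat_lit 0) .nil) .nil)))) (.nd (nat_lit 9) 
(.lf (nat_lit 575873) (.g (nat_lit 267) (.e (nat_lit 491570) (nat_lit 13) (.e (nat_lit 393259) (nat_lit 21) (.e (nat_lit 409642) (nat_lit 17) .nil))) (.g (nat_lit 0) (.e (nat_lit 363943) (nat_lit 0) .nil) .nil))) 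
(.lf (nat_lit 576385) (.g (nat_lit 3348) (.e (nat_lit 319533) (nat_lit 16) (.e (nat_lit 286735) (nat_lit 3) (.e (nat_lit 98365) (nat_lit 26) (.e (nat_lit 426188) (nat_lit 9) (.e (nat_lit 426130) (nat_lit 3) .nil))))) (.g (nat_lit 0) (.e (nat_lit 365401) (nat_lit 0) .nil) .nil)))))) (.nd (nat_lit 7) (.nd (nat_lit 8) (.nd (nat_lit 9) 
(.lf (nat_lit 575553) (.g (nat_lit 2361) (.e (nat_lit 491565) (nat_lit 12) (.e (nat_lit 385073) (nat_lit 31) (.e (nat_lit 573491) (nat_lit 15) (.e (nat_lit 81951) (nat_lit 22) (.e (nat_lit 90133) (nat_lit 9) (.e (nat_lit 3105) (nat_lit 192) .nil)))))) (.g (nat_lit 1) (.e (nat_lit 363438) (nat_lit 0) .nil) .nil))) 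
(.lf (nat_lit 576065) (.g (nat_lit 3093) (.e (nat_lit 319490) (nat_lit 0) (.e (nat_lit 5664) (nat_lit 312) (.e (nat_lit 2887) (nat_lit 184) (.e (nat_lit 426499) (nat_lit 27) (.e (nat_lit 336232) (nat_lit 14) (.e (nat_lit 401440) (nat_lit 9) (.e (nat_lit 426470) (nat_lit 25) .nil))))))) (.g (nat_lit 1) (.e (nat_lit 364547) (nat_lit 0) .nil) .nil)))) (.nd (nat_lit 9) 
(.lf (nat_lit 575809) (.g (nat_lit 3164) (.e (nat_lit 491569) (nat_lit 13) (.e (nat_lit 393301) (nat_lit 27) (.e (nat_lit 491558) (nat_lit 10) (.e (nat_lit 344091) (nat_lit 18) (.e (nat_lit 6852) (nat_lit 371) (.e (nat_lit 2420) (nat_lit 157) (.e (nat_lit 3105) (nat_lit 192) .nil))))))) (.g (nat_lit 1) (.e (nat_lit 363866) (nat_lit 0) .nil) .nil))) 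
(.lf (nat_lit 576321) (.g (nat_lit 3348) (.e (nat_lit 319531) (nat_lit 16) (.e (nat_lit 286735) (nat_lit 3) (.e (nat_lit 98359) (nat_lit 26) (.e (nat_lit 426215) (nat_lit 9) (.e (nat_lit 426140) (nat_lit 3) (.e (nat_lit 204845) (nat_lit 24) .nil)))))) (.g (nat_lit 1) (.e (nat_lit 365296) (nat_lit 0) .nil) .nil))))) (.nd (nat_lit 8) (.nd (nat_lit 9) 
(.lf (nat_lit 575681) (.g (nat_lit 2145) (.e (nat_lit 491566) (nat_lit 12) (.e (nat_lit 385093) (nat_lit 49) (.e (nat_lit 778326) (nat_lit 6) (.e (nat_lit 81948) (nat_lit 21) (.e (nat_lit 57931) (nat_lit 282) (.e (nat_lit 163945) (nat_lit 20) .nil)))))) (.g (nat_lit 1) (.e (nat_lit 363678) (nat_lit 0) .nil) .nil))) 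
(.lf (nat_lit 576193) (.g (nat_lit 2172) (.e (nat_lit 319526) (nat_lit 15) (.e (nat_lit 278546) (nat_lit 8) (.e (nat_lit 303137) (nat_lit 10) (.e (nat_lit 434268) (nat_lit 36) (.e (nat_lit 639020) (nat_lit 16) (.e (nat_lit 65585) (nat_lit 7) .nil)))))) (.g (nat_lit 1) (.e (nat_lit 365029) (nat_lit 0) .nil) .nil)))) (.nd (nat_lit 9) 
(.lf (nat_lit 575937) (.g (nat_lit 555) (.e (nat_lit 491571) (nat_lit 13) (.e (nat_lit 393238) (nat_lit 17) (.e (nat_lit 7503) (nat_lit 402) .nil))) (.g (nat_lit 0) (.e (nat_lit 364077) (nat_lit 0) .nil) .nil))) 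
(.lf (nat_lit 576449) (.g (nat_lit 3514) (.e (nat_lit 319534) (nat_lit 16) (.e (nat_lit 286756) (nat_lit 10) (.e (nat_lit 344179) (nat_lit 44) (.e (nat_lit 778465) (nat_lit 11) (.e (nat_lit 24662) (nat_lit 14) (.e (nat_lit 409344) (nat_lit 25) .nil)))))) (.g (nat_lit 1) (.e (nat_lit 365495) (nat_lit 0) .nil) .nil))))))) (.nd (nat_lit 6) (.nd (nat_lit 7) (.nd (nat_lit 8) (.nd (nat_lit 9) 
(.lf (nat_lit 575521) (.g (nat_lit 4076) (.e (nat_lit 491564) (nat_lit 12) (.e (nat_lit 385072) (nat_lit 31) (.e (nat_lit 573493) (nat_lit 15) (.e (nat_lit 81956) (nat_lit 23) (.e (nat_lit 98388) (nat_lit 33) .nil))))) (.g (nat_lit 0) (.e (nat_lit 363401) (nat_lit 0) .nil) .nil))) 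
(.lf (nat_lit 576033) (.g (nat_lit 3846) (.e (nat_lit 491572) (nat_lit 14) (.e (nat_lit 401459) (nat_lit 13) (.e (nat_lit 483372) (nat_lit 21) (.e (nat_lit 319532) (nat_lit 16) .nil)))) (.g (nat_lit 0) (.e (nat_lit 364311) (nat_lit 0) .nil) .nil)))) (.nd (nat_lit 9) 
(.lf (nat_lit 575777) (.g (nat_lit 1088) (.e (nat_lit 491569) (nat_lit 13) (.e (nat_lit 393271) (nat_lit 23) (.e (nat_lit 426354) (nat_lit 15) .nil))) (.g (nat_lit 0) (.e (nat_lit 363818) (nat_lit 0) .nil) .nil))) 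
(.lf (nat_lit 576289) (.g (nat_lit 4154) (.e (nat_lit 319530) (nat_lit 16) (.e (nat_lit 286735) (nat_lit 3) (.e (nat_lit 98369) (nat_lit 28) (.e (nat_lit 442427) (nat_lit 23) (.e (nat_lit 204846) (nat_lit 24) .nil))))) (.g (nat_lit 1) (.e (nat_lit 365230) (nat_lit 0) .nil) .nil))))) (.nd (nat_lit 8) (.nd (nat_lit 9) 
(.lf (nat_lit 575649) (.g (nat_lit 2003) (.e (nat_lit 491566) (nat_lit 12) (.e (nat_lit 385074) (nat_lit 31) (.e (nat_lit 573482) (nat_lit 13) (.e (nat_lit 65595) (nat_lit 9) .nil)))) (.g (nat_lit 0) (.e (nat_lit 363626) (nat_lit 0) .nil) .nil))) 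
(.lf (nat_lit 576161) (.g (nat_lit 2150) (.e (nat_lit 327424) (nat_lit 8) (.e (nat_lit 303117) (nat_lit 2) (.e (nat_lit 196670) (nat_lit 14) (.e (nat_lit 73781) (nat_lit 32) (.e (nat_lit 2682) (nat_lit 168) .nil))))) (.g (nat_lit 0) (.e (nat_lit 364787) (nat_lit 0) .nil) .nil)))) (.nd (nat_lit 9) 
(.lf (nat_lit 575905) (.g (nat_lit 3333) (.e (nat_lit 491570) (nat_lit 13) (.e (nat_lit 393291) (nat_lit 26) (.e (nat_lit 475199) (nat_lit 40) (.e (nat_lit 704592) (nat_lit 4) (.e (nat_lit 172126) (nat_lit 14) .nil))))) (.g (nat_lit 1) (.e (nat_lit 364020) (nat_lit 0) .nil) .nil))) 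
(.lf (nat_lit 576417) (.g (nat_lit 2241) (.e (nat_lit 319534) (nat_lit 16) (.e (nat_lit 286735) (nat_lit 3) (.e (nat_lit 98359) (nat_lit 26) (.e (nat_lit 426283) (nat_lit 10) .nil)))) (.g (nat_lit 0) (.e (nat_lit 365460) (nat_lit 0) .nil) .nil)))))) (.nd (nat_lit 7) (.nd (nat_lit 8) (.nd (nat_lit 9) 
(.lf (nat_lit 575585) (.g (nat_lit 747) (.e (nat_lit 491566) (nat_lit 12) (.e (nat_lit 392960) (nat_lit 24) (.e (nat_lit 516147) (nat_lit 9) (.e (nat_lit 426322) (nat_lit 13) (.e (nat_lit 491264) (nat_lit 16) .nil))))) (.g (nat_lit 1) (.e (nat_lit 363523) (nat_lit 0) .nil) .nil))) 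
(.lf (nat_lit 576097) (.g (nat_lit 5045) (.e (nat_lit 319490) (nat_lit 0) (.e (nat_lit 5756) (nat_lit 315) (.e (nat_lit 163962) (nat_lit 25) (.e (nat_lit 532482) (nat_lit 0) (.e (nat_lit 6203) (nat_lit 332) (.e (nat_lit 2798) (nat_lit 180) (.e (nat_lit 303119) (nat_lit 3) (.e (nat_lit 204846) (nat_lit 24) .nil)))))))) (.g (nat_lit 1) (.e (nat_lit 364596) (nat_lit 0) .nil) .nil)))) 
(.nd (nat_lit 9) 
(.lf (nat_lit 575841) (.g (nat_lit 3038) (.e (nat_lit 491569) (nat_lit 13) (.e (nat_lit 393301) (nat_lit 27) (.e (nat_lit 491560) (nat_lit 10) (.e (nat_lit 344091) (nat_lit 18) (.e (nat_lit 6943) (nat_lit 375) (.e (nat_lit 163945) (nat_lit 20) .nil)))))) (.g (nat_lit 1) (.e (nat_lit 363898) (nat_lit 0) .nil) .nil))) 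
(.lf (nat_lit 576353) (.g (nat_lit 786) (.e (nat_lit 319533) (nat_lit 16) (.e (nat_lit 286732) (nat_lit 2) (.e (nat_lit 90167) (nat_lit 13) .nil))) (.g (nat_lit 0) (.e (nat_lit 365363) (nat_lit 0) .nil) .nil))))) (.nd (nat_lit 8) (.nd (nat_lit 9) 
(.lf (nat_lit 575713) (.g (nat_lit 1574) (.e (nat_lit 499456) (nat_lit 12) (.e (nat_lit 385072) (nat_lit 31) (.e (nat_lit 573492) (nat_lit 15) (.e (nat_lit 81956) (nat_lit 23) .nil)))) (.g (nat_lit 0) (.e (nat_lit 363731) (nat_lit 0) .nil) .nil))) 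
(.lf (nat_lit 576225) (.g (nat_lit 2716) (.e (nat_lit 319528) (nat_lit 16) (.e (nat_lit 286733) (nat_lit 2) (.e (nat_lit 90170) (nat_lit 13) (.e (nat_lit 172085) (nat_lit 9) (.e (nat_lit 426140) (nat_lit 3) .nil))))) (.g (nat_lit 0) (.e (nat_lit 365117) (nat_lit 0) .nil) .nil)))) (.nd (nat_lit 9) 
(.lf (nat_lit 575969) (.g (nat_lit 542) (.e (nat_lit 491571) (nat_lit 13) (.e (nat_lit 393260) (nat_lit 21) (.e (nat_lit 409646) (nat_lit 18) .nil))) (.g (nat_lit 0) (.e (nat_lit 364140) (nat_lit 0) .nil) .nil))) 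
(.lf (nat_lit 576481) (.g (nat_lit 4213) (.e (nat_lit 319535) (nat_lit 17) (.e (nat_lit 294928) (nat_lit 2) (.e (nat_lit 90176) (nat_lit 15) (.e (nat_lit 188452) (nat_lit 23) (.e (nat_lit 204846) (nat_lit 24) .nil))))) (.g (nat_lit 1) (.e (nat_lit 365572) (nat_lit 0) .nil) .nil)))))))) (.nd (nat_lit 5) (.nd (nat_lit 6) (.nd (nat_lit 7) (.nd (nat_lit 8) (.nd (nat_lit 9) 
(.lf (nat_lit 575505) (.g (nat_lit 3283) (.e (nat_lit 491562) (nat_lit 12) (.e (nat_lit 385074) (nat_lit 31) (.e (nat_lit 573493) (nat_lit 15) (.e (nat_lit 81951) (nat_lit 22) (.e (nat_lit 90134) (nat_lit 9) .nil))))) (.g (nat_lit 0) (.e (nat_lit 363384) (nat_lit 0) .nil) .nil))) 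
(.lf (nat_lit 576017) (.g (nat_lit 554) (.e (nat_lit 491571) (nat_lit 13) (.e (nat_lit 393299) (nat_lit 27) (.e (nat_lit 499456) (nat_lit 13) .nil))) (.g (nat_lit 0) (.e (nat_lit 364284) (nat_lit 0) .nil) .nil)))) (.nd (nat_lit 9) 
(.lf (nat_lit 575761) (.g (nat_lit 1936) (.e (nat_lit 491568) (nat_lit 13) (.e (nat_lit 393301) (nat_lit 27) (.e (nat_lit 491560) (nat_lit 10) (.e (nat_lit 344097) (nat_lit 18) .nil)))) (.g (nat_lit 0) (.e (nat_lit 363787) (nat_lit 0) .nil) .nil))) 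
(.lf (nat_lit 576273) (.g (nat_lit 2185) (.e (nat_lit 319529) (nat_lit 16) (.e (nat_lit 286759) (nat_lit 12) (.e (nat_lit 385094) (nat_lit 49) (.e (nat_lit 778510) (nat_lit 14) .nil)))) (.g (nat_lit 0) (.e (nat_lit 365187) (nat_lit 0) .nil) .nil))))) (.nd (nat_lit 8) (.nd (nat_lit 9) 
(.lf (nat_lit 575633) (.g (nat_lit 2229) (.e (nat_lit 491566) (nat_lit 12) (.e (nat_lit 385073) (nat_lit 31) (.e (nat_lit 573493) (nat_lit 15) (.e (nat_lit 81928) (nat_lit 20) .nil)))) (.g (nat_lit 0) (.e (nat_lit 363583) (nat_lit 0) .nil) .nil))) 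
(.lf (nat_lit 576145) (.g (nat_lit 1993) (.e (nat_lit 319492) (nat_lit 0) (.e (nat_lit 5664) (nat_lit 312) (.e (nat_lit 3085) (nat_lit 191) (.e (nat_lit 483346) (nat_lit 17) (.e (nat_lit 7936) (nat_lit 361) .nil))))) (.g (nat_lit 0) (.e (nat_lit 364727) (nat_lit 0) .nil) .nil)))) (.nd (nat_lit 9) 
(.lf (nat_lit 575889) (.g (nat_lit 1270) (.e (nat_lit 491570) (nat_lit 13) (.e (nat_lit 393260) (nat_lit 21) (.e (nat_lit 409642) (nat_lit 17) (.e (nat_lit 302848) (nat_lit 27) .nil)))) (.g (nat_lit 0) (.e (nat_lit 363963) (nat_lit 0) .nil) .nil))) 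
(.lf (nat_lit 576401) (.g (nat_lit 2387) (.e (nat_lit 319533) (nat_lit 16) (.e (nat_lit 286759) (nat_lit 12) (.e (nat_lit 385094) (nat_lit 49) (.e (nat_lit 778445) (nat_lit 9) .nil)))) (.g (nat_lit 0) (.e (nat_lit 365421) (nat_lit 0) .nil) .nil)))))) (.nd (nat_lit 7) (.nd (nat_lit 8) (.nd (nat_lit 9) 
(.lf (nat_lit 575569) (.g (nat_lit 1844) (.e (nat_lit 491565) (nat_lit 12) (.e (nat_lit 385102) (nat_lit 50) (.e (nat_lit 786483) (nat_lit 30) (.e (nat_lit 360484) (nat_lit 15) (.e (nat_lit 647171) (nat_lit 0) (.e (nat_lit 7936) (nat_lit 192) .nil)))))) (.g (nat_lit 1) (.e (nat_lit 363476) (nat_lit 0) .nil) .nil))) 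
(.lf (nat_lit 576081) (.g (nat_lit 3198) (.e (nat_lit 319490) (nat_lit 0) (.e (nat_lit 5664) (nat_lit 312) (.e (nat_lit 3085) (nat_lit 191) (.e (nat_lit 483377) (nat_lit 22) (.e (nat_lit 327708) (nat_lit 10) (.e (nat_lit 5629) (nat_lit 312) (.e (nat_lit 216) (nat_lit 19) .nil))))))) (.g (nat_lit 1) (.e (nat_lit 364579) (nat_lit 0) .nil) .nil)))) (.nd (nat_lit 9) 
(.lf (nat_lit 575825) (.g (nat_lit 2200) (.e (nat_lit 491569) (nat_lit 13) (.e (nat_lit 393301) (nat_lit 27) (.e (nat_lit 491559) (nat_lit 10) (.e (nat_lit 344094) (nat_lit 18) .nil)))) (.g (nat_lit 0) (.e (nat_lit 363882) (nat_lit 0) .nil) .nil))) 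
(.lf (nat_lit 576337) (.g (nat_lit 1430) (.e (nat_lit 319532) (nat_lit 16) (.e (nat_lit 286733) (nat_lit 2) (.e (nat_lit 90134) (nat_lit 9) (.e (nat_lit 2882) (nat_lit 184) .nil)))) (.g (nat_lit 0) (.e (nat_lit 365324) (nat_lit 0) .nil) .nil))))) (.nd (nat_lit 8) (.nd (nat_lit 9) 
(.lf (nat_lit 575697) (.g (nat_lit 2849) (.e (nat_lit 491566) (nat_lit 12) (.e (nat_lit 385104) (nat_lit 50) (.e (nat_lit 786483) (nat_lit 30) (.e (nat_lit 360457) (nat_lit 0) (.e (nat_lit 5597) (nat_lit 310) (.e (nat_lit 163946) (nat_lit 20) .nil)))))) (.g (nat_lit 1) (.e (nat_lit 363711) (nat_lit 0) .nil) .nil))) 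
(.lf (nat_lit 576209) (.g (nat_lit 4317) (.e (nat_lit 319538) (nat_lit 19) (.e (nat_lit 311315) (nat_lit 3) (.e (nat_lit 204885) (nat_lit 33) (.e (nat_lit 401434) (nat_lit 9) (.e (nat_lit 426140) (nat_lit 3) (.e (nat_lit 204845) (nat_lit 24) .nil)))))) (.g (nat_lit 1) (.e (nat_lit 365088) (nat_lit 0) .nil) .nil)))) (.nd (nat_lit 9) 
(.lf (nat_lit 575953) (.g (nat_lit 489) (.e (nat_lit 491571) (nat_lit 13) (.e (nat_lit 393260) (nat_lit 21) (.e (nat_lit 409615) (nat_lit 10) .nil))) (.g (nat_lit 0) (.e (nat_lit 364119) (nat_lit 0) .nil) .nil))) 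
(.lf (nat_lit 576465) (.g (nat_lit 2887) (.e (nat_lit 327424) (nat_lit 16) (.e (nat_lit 286733) (nat_lit 2) (.e (nat_lit 90170) (nat_lit 13) (.e (nat_lit 172097) (nat_lit 9) .nil)))) (.g (nat_lit 0) (.e (nat_lit 365548) (nat_lit 0) .nil) .nil))))))) (.nd (nat_lit 6) (.nd (nat_lit 7) (.nd (nat_lit 8) (.nd (nat_lit 9) 
(.lf (nat_lit 575537) (.g (nat_lit 2919) (.e (nat_lit 491564) (nat_lit 12) (.e (nat_lit 385074) (nat_lit 31) (.e (nat_lit 573493) (nat_lit 15) (.e (nat_lit 81956) (nat_lit 23) (.e (nat_lit 106240) (nat_lit 33) .nil))))) (.g (nat_lit 0) (.e (nat_lit 363418) (nat_lit 0) .nil) .nil))) 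
(.lf (nat_lit 576049) (.g (nat_lit 1034) (.e (nat_lit 499456) (nat_lit 30) (.e (nat_lit 450560) (nat_lit 0) (.e (nat_lit 4120) (nat_lit 245) (.e (nat_lit 1220) (nat_lit 90) (.e (nat_lit 89856) (nat_lit 19) .nil))))) (.g (nat_lit 0) (.e (nat_lit 364446) (nat_lit 0) .nil) .nil)))) (.nd (nat_lit 9) 
(.lf (nat_lit 575793) (.g (nat_lit 2572) (.e (nat_lit 491569) (nat_lit 13) (.e (nat_lit 393296) (nat_lit 26) (.e (nat_lit 475207) (nat_lit 41) (.e (nat_lit 712742) (nat_lit 27) (.e (nat_lit 426338) (nat_lit 14) .nil))))) (.g (nat_lit 1) (.e (nat_lit 363848) (nat_lit 0) .nil) .nil))) 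
(.lf (nat_lit 576305) (.g (nat_lit 130) (.e (nat_lit 319531) (nat_lit 16) (.e (nat_lit 286722) (nat_lit 0) (.e (nat_lit 2265) (nat_lit 149) .nil))) (.g (nat_lit 0) (.e (nat_lit 365258) (nat_lit 0) .nil) .nil))))) (.nd (nat_lit 8) (.nd (nat_lit 9) 
(.lf (nat_lit 575665) (.g (nat_lit 4234) (.e (nat_lit 491566) (nat_lit 12) (.e (nat_lit 385074) (nat_lit 31) (.e (nat_lit 573493) (nat_lit 15) (.e (nat_lit 81951) (nat_lit 22) (.e (nat_lit 90122) (nat_lit 9) (.e (nat_lit 3095) (nat_lit 192) .nil)))))) (.g (nat_lit 1) (.e (nat_lit 363651) (nat_lit 0) .nil) .nil))) 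
(.lf (nat_lit 576177) (.g (nat_lit 1477) (.e (nat_lit 319505) (nat_lit 10) (.e (nat_lit 584) (nat_lit 43) (.e (nat_lit 516129) (nat_lit 3) (.e (nat_lit 221210) (nat_lit 22) (.e (nat_lit 196668) (nat_lit 14) .nil))))) (.g (nat_lit 0) (.e (nat_lit 364941) (nat_lit 0) .nil) .nil)))) (.nd (nat_lit 9) 
(.lf (nat_lit 575921) (.g (nat_lit 920) (.e (nat_lit 491570) (nat_lit 13) (.e (nat_lit 393299) (nat_lit 27) (.e (nat_lit 491554) (nat_lit 9) .nil))) (.g (nat_lit 0) (.e (nat_lit 364041) (nat_lit 0) .nil) .nil))) 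
(.lf (nat_lit 576433) (.g (nat_lit 2498) (.e (nat_lit 319534) (nat_lit 16) (.e (nat_lit 286749) (nat_lit 9) (.e (nat_lit 335997) (nat_lit 1) (.e (nat_lit 57849) (nat_lit 252) (.e (nat_lit 65280) (nat_lit 65) (.e (nat_lit 213030) (nat_lit 11) (.e (nat_lit 24617) (nat_lit 7) .nil))))))) (.g (nat_lit 1) (.e (nat_lit 365479) (nat_lit 0) .nil) .nil)))))) 
(.nd (nat_lit 7) (.nd (nat_lit 8) (.nd (nat_lit 9) 
(.lf (nat_lit 575601) (.g (nat_lit 4730) (.e (nat_lit 491566) (nat_lit 12) (.e (nat_lit 385072) (nat_lit 31) (.e (nat_lit 573482) (nat_lit 13) (.e (nat_lit 65604) (nat_lit 9) (.e (nat_lit 336013) (nat_lit 2) (.e (nat_lit 90134) (nat_lit 9) (.e (nat_lit 3097) (nat_lit 192) .nil))))))) (.g (nat_lit 1) (.e (nat_lit 363546) (nat_lit 0) .nil) .nil))) 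
(.lf (nat_lit 576113) (.g (nat_lit 1599) (.e (nat_lit 319491) (nat_lit 0) (.e (nat_lit 5664) (nat_lit 312) (.e (nat_lit 3085) (nat_lit 191) (.e (nat_lit 483342) (nat_lit 17) .nil)))) (.g (nat_lit 0) (.e (nat_lit 364659) (nat_lit 0) .nil) .nil)))) (.nd (nat_lit 9) 
(.lf (nat_lit 575857) (.g (nat_lit 495) (.e (nat_lit 491570) (nat_lit 13) (.e (nat_lit 393238) (nat_lit 17) (.e (nat_lit 6970) (nat_lit 377) .nil))) (.g (nat_lit 0) (.e (nat_lit 363920) (nat_lit 0) .nil) .nil))) 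
(.lf (nat_lit 576369) (.g (nat_lit 1931) (.e (nat_lit 319533) (nat_lit 16) (.e (nat_lit 286734) (nat_lit 3) (.e (nat_lit 98358) (nat_lit 26) (.e (nat_lit 426270) (nat_lit 9) .nil)))) (.g (nat_lit 0) (.e (nat_lit 365383) (nat_lit 0) .nil) .nil))))) (.nd (nat_lit 8) (.nd (nat_lit 9) 
(.lf (nat_lit 575729) (.g (nat_lit 2888) (.e (nat_lit 491568) (nat_lit 13) (.e (nat_lit 393282) (nat_lit 24) (.e (nat_lit 434272) (nat_lit 38) (.e (nat_lit 655378) (nat_lit 4) (.e (nat_lit 172126) (nat_lit 14) .nil))))) (.g (nat_lit 1) (.e (nat_lit 363751) (nat_lit 0) .nil) .nil))) 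
(.lf (nat_lit 576241) (.g (nat_lit 3103) (.e (nat_lit 319528) (nat_lit 16) (.e (nat_lit 286735) (nat_lit 3) (.e (nat_lit 98363) (nat_lit 26) (.e (nat_lit 426230) (nat_lit 9) (.e (nat_lit 426129) (nat_lit 3) (.e (nat_lit 204846) (nat_lit 24) .nil)))))) (.g (nat_lit 1) (.e (nat_lit 365133) (nat_lit 0) .nil) .nil)))) (.nd (nat_lit 9) 
(.lf (nat_lit 575985) (.g (nat_lit 545) (.e (nat_lit 491571) (nat_lit 13) (.e (nat_lit 393298) (nat_lit 27) (.e (nat_lit 491547) (nat_lit 9) .nil))) (.g (nat_lit 0) (.e (nat_lit 364237) (nat_lit 0) .nil) .nil))) 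
(.lf (nat_lit 576497) (.g (nat_lit 2354) (.e (nat_lit 327698) (nat_lit 8) (.e (nat_lit 303119) (nat_lit 3) (.e (nat_lit 204846) (nat_lit 24) (.e (nat_lit 319490) (nat_lit 0) (.e (nat_lit 5756) (nat_lit 315) (.e (nat_lit 163962) (nat_lit 25) (.e (nat_lit 532526) (nat_lit 8) .nil))))))) (.g (nat_lit 1) (.e (nat_lit 365965) (nat_lit 0) .nil) .nil))))))))) 
(.nd (nat_lit 4) (.nd (nat_lit 5) (.nd (nat_lit 6) (.nd (nat_lit 7) (.nd (nat_lit 8) 
(.nd (nat_lit 9) 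
(.lf (nat_lit 575497) (.g (nat_lit 2363) (.e (nat_lit 491560) (nat_lit 10) (.e (nat_lit 344179) (nat_lit 44) (.e (nat_lit 778466) (nat_lit 11) (.e (nat_lit 24632) (nat_lit 9) (.e (nat_lit 336417) (nat_lit 27) (.e (nat_lit 426342) (nat_lit 14) .nil)))))) (.g (nat_lit 1) (.e (nat_lit 363373) (nat_lit 0) .nil) .nil))) 
(.lf (nat_lit 576009) (.g (nat_lit 1427) (.e (nat_lit 491571) (nat_lit 13) (.e (nat_lit 393299) (nat_lit 27) (.e (nat_lit 491552) (nat_lit 9) (.e (nat_lit 336412) (nat_lit 27) (.e (nat_lit 433920) (nat_lit 14) .nil))))) (.g (nat_lit 1) (.e (nat_lit 364271) (nat_lit 0) .nil) .nil)))) (.nd (nat_lit 9) 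
(.lf (nat_lit 575753) (.g (nat_lit 2239) (.e (nat_lit 491568) (nat_lit 13) (.e (nat_lit 393301) (nat_lit 27) (.e (nat_lit 491559) (nat_lit 10) (.e (nat_lit 344091) (nat_lit 18) (.e (nat_lit 6923) (nat_lit 371) .nil))))) (.g (nat_lit 0) (.e (nat_lit 363779) (nat_lit 0) .nil) .nil))) 
(.lf (nat_lit 576265) (.g (nat_lit 1144) (.e (nat_lit 319529) (nat_lit 16) (.e (nat_lit 286734) (nat_lit 3) (.e (nat_lit 98365) (nat_lit 26) (.e (nat_lit 426298) (nat_lit 11) .nil)))) (.g (nat_lit 0) (.e (nat_lit 365169) (nat_lit 0) .nil) .nil))))) (.nd (nat_lit 8) (.nd (nat_lit 9) 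
(.lf (nat_lit 575625) (.g (nat_lit 3487) (.e (nat_lit 491566) (nat_lit 12) (.e (nat_lit 385072) (nat_lit 31) (.e (nat_lit 573493) (nat_lit 15) (.e (nat_lit 81962) (nat_lit 25) (.e (nat_lit 139289) (nat_lit 9) (.e (nat_lit 3099) (nat_lit 192) .nil)))))) (.g (nat_lit 1) (.e (nat_lit 363575) (nat_lit 0) .nil) .nil))) 
(.lf (nat_lit 576137) (.g (nat_lit 1844) (.e (nat_lit 319491) (nat_lit 0) (.e (nat_lit 5766) (nat_lit 316) (.e (nat_lit 172150) (nat_lit 27) (.e (nat_lit 335894) (nat_lit 0) (.e (nat_lit 6720) (nat_lit 361) (.e (nat_lit 172143) (nat_lit 25) .nil)))))) (.g (nat_lit 1) (.e (nat_lit 364686) (nat_lit 0) .nil) .nil)))) (.nd (nat_lit 9) 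
(.lf (nat_lit 575881) (.g (nat_lit 902) (.e (nat_lit 491570) (nat_lit 13) (.e (nat_lit 393260) (nat_lit 21) (.e (nat_lit 409621) (nat_lit 10) .nil))) (.g (nat_lit 0) (.e (nat_lit 363953) (nat_lit 0) .nil) .nil))) 
(.lf (nat_lit 576393) (.g (nat_lit 2328) (.e (nat_lit 319533) (nat_lit 16) (.e (nat_lit 286753) (nat_lit 10) (.e (nat_lit 344160) (nat_lit 37) (.e (nat_lit 647195) (nat_lit 9) (.e (nat_lit 7936) (nat_lit 31) (.e (nat_lit 417811) (nat_lit 6) (.e (nat_lit 286740) (nat_lit 7) .nil))))))) (.g (nat_lit 1) (.e (nat_lit 365411) (nat_lit 0) .nil) .nil)))))) 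
(.nd (nat_lit 7) (.nd (nat_lit 8) (.nd (nat_lit 9) 
(.lf (nat_lit 575561) (.g (nat_lit 2756) (.e (nat_lit 491565) (nat_lit 12) (.e (nat_lit 385074) (nat_lit 31) (.e (nat_lit 573484) (nat_lit 13) (.e (nat_lit 65617) (nat_lit 10) .nil)))) (.g (nat_lit 0) (.e (nat_lit 363467) (nat_lit 0) .nil) .nil))) 
(.lf (nat_lit 576073) (.g (nat_lit 2199) (.e (nat_lit 319490) (nat_lit 0) (.e (nat_lit 5664) (nat_lit 312) (.e (nat_lit 3085) (nat_lit 191) (.e (nat_lit 483346) (nat_lit 17) (.e (nat_lit 6732) (nat_lit 364) .nil))))) (.g (nat_lit 0) (.e (nat_lit 364571) (nat_lit 0) .nil) .nil)))) (.nd (nat_lit 9) 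
(.lf (nat_lit 575817) (.g (nat_lit 2773) (.e (nat_lit 491569) (nat_lit 13) (.e (nat_lit 393301) (nat_lit 27) (.e (nat_lit 491558) (nat_lit 10) (.e (nat_lit 344091) (nat_lit 18) (.e (nat_lit 6942) (nat_lit 375) (.e (nat_lit 163945) (nat_lit 20) .nil)))))) (.g (nat_lit 1) (.e (nat_lit 363874) (nat_lit 0) .nil) .nil))) 
(.lf (nat_lit 576329) (.g (nat_lit 2185) (.e (nat_lit 319531) (nat_lit 16) (.e (nat_lit 286756) (nat_lit 10) (.e (nat_lit 344160) (nat_lit 37) (.e (nat_lit 647190) (nat_lit 9) (.e (nat_lit 1035) (nat_lit 81) .nil))))) (.g (nat_lit 0) (.e (nat_lit 365305) (nat_lit 0) .nil) .nil))))) (.nd (nat_lit 8) (.nd (nat_lit 9) 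
(.lf (nat_lit 575689) (.g (nat_lit 1484) (.e (nat_lit 491566) (nat_lit 12) (.e (nat_lit 385104) (nat_lit 50) (.e (nat_lit 786480) (nat_lit 29) (.e (nat_lit 352308) (nat_lit 21) (.e (nat_lit 57931) (nat_lit 282) .nil))))) (.g (nat_lit 0) (.e (nat_lit 363701) (nat_lit 0) .nil) .nil))) 
(.lf (nat_lit 576201) (.g (nat_lit 4263) (.e (nat_lit 319537) (nat_lit 19) (.e (nat_lit 311315) (nat_lit 3) (.e (nat_lit 204846) (nat_lit 24) (.e (nat_lit 319534) (nat_lit 16) (.e (nat_lit 286728) (nat_lit 0) (.e (nat_lit 1842) (nat_lit 123) (.e (nat_lit 548874) (nat_lit 5) (.e (nat_lit 1395) (nat_lit 106) .nil)))))))) (.g (nat_lit 1) (.e (nat_lit 365079) (nat_lit 0) .nil) .nil)))) 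
(.nd (nat_lit 9) 
(.lf (nat_lit 575945) (.g (nat_lit 2011) (.e (nat_lit 491571) (nat_lit 13) (.e (nat_lit 393242) (nat_lit 17) (.e (nat_lit 7556) (nat_lit 402) (.e (nat_lit 1425) (nat_lit 108) (.e (nat_lit 336395) (nat_lit 27) (.e (nat_lit 426340) (nat_lit 14) .nil)))))) (.g (nat_lit 1) (.e (nat_lit 364093) (nat_lit 0) .nil) .nil))) 
(.lf (nat_lit 576457) (.g (nat_lit 2301) (.e (nat_lit 319534) (nat_lit 16) (.e (nat_lit 286759) (nat_lit 12) (.e (nat_lit 385094) (nat_lit 49) (.e (nat_lit 778509) (nat_lit 14) .nil)))) (.g (nat_lit 0) (.e (nat_lit 365505) (nat_lit 0) .nil) .nil))))))) (.nd (nat_lit 6) (.nd (nat_lit 7) (.nd (nat_lit 8) (.nd (nat_lit 9) 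
(.lf (nat_lit 575529) (.g (nat_lit 3486) (.e (nat_lit 491564) (nat_lit 12) (.e (nat_lit 385074) (nat_lit 31) (.e (nat_lit 573485) (nat_lit 13) (.e (nat_lit 65604) (nat_lit 9) (.e (nat_lit 336013) (nat_lit 2) (.e (nat_lit 90134) (nat_lit 9) (.e (nat_lit 3096) (nat_lit 192) .nil))))))) (.g (nat_lit 1) (.e (nat_lit 363410) (nat_lit 0) .nil) .nil))) 
(.lf (nat_lit 576041) (.g (nat_lit 886) (.e (nat_lit 491579) (nat_lit 27) (.e (nat_lit 426316) (nat_lit 12) (.e (nat_lit 475181) (nat_lit 27) .nil))) (.g (nat_lit 0) (.e (nat_lit 364395) (nat_lit 0) .nil) .nil)))) (.nd (nat_lit 9) 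
(.lf (nat_lit 575785) (.g (nat_lit 751) (.e (nat_lit 491569) (nat_lit 13) (.e (nat_lit 393291) (nat_lit 26) (.e (nat_lit 475210) (nat_lit 41) .nil))) (.g (nat_lit 0) (.e (nat_lit 363838) (nat_lit 0) .nil) .nil))) 
(.lf (nat_lit 576297) (.g (nat_lit 1996) (.e (nat_lit 319530) (nat_lit 16) (.e (nat_lit 286751) (nat_lit 10) (.e (nat_lit 344160) (nat_lit 37) (.e (nat_lit 647195) (nat_lit 9) (.e (nat_lit 982) (nat_lit 81) .nil))))) (.g (nat_lit 0) (.e (nat_lit 365238) (nat_lit 0) .nil) .nil))))) (.nd (nat_lit 8) (.nd (nat_lit 9) 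
(.lf (nat_lit 575657) (.g (nat_lit 2518) (.e (nat_lit 491566) (nat_lit 12) (.e (nat_lit 385074) (nat_lit 31) (.e (nat_lit 573484) (nat_lit 13) (.e (nat_lit 65619) (nat_lit 10) .nil)))) (.g (nat_lit 0) (.e (nat_lit 363639) (nat_lit 0) .nil) .nil))) 
(.lf (nat_lit 576169) (.g (nat_lit 1283) (.e (nat_lit 327424) (nat_lit 8) (.e (nat_lit 303133) (nat_lit 9) (.e (nat_lit 426499) (nat_lit 27) (.e (nat_lit 336196) (nat_lit 12) .nil)))) (.g (nat_lit 0) (.e (nat_lit 364828) (nat_lit 0) .nil) .nil)))) (.nd (nat_lit 9) 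
(.lf (nat_lit 575913) (.g (nat_lit 1509) (.e (nat_lit 491570) (nat_lit 13) (.e (nat_lit 393294) (nat_lit 26) (.e (nat_lit 475211) (nat_lit 41) (.e (nat_lit 712742) (nat_lit 27) .nil)))) (.g (nat_lit 0) (.e (nat_lit 364033) (nat_lit 0) .nil) .nil))) 
(.lf (nat_lit 576425) (.g (nat_lit 3201) (.e (nat_lit 319534) (nat_lit 16) (.e (nat_lit 286749) (nat_lit 9) (.e (nat_lit 335997) (nat_lit 1) (.e (nat_lit 57688) (nat_lit 156) (.e (nat_lit 163861) (nat_lit 1) (.e (nat_lit 164332) (nat_lit 230) (.e (nat_lit 163905) (nat_lit 12) (.e (nat_lit 426472) (nat_lit 25) .nil)))))))) (.g (nat_lit 1) (.e (nat_lit 365471) (nat_lit 0) .nil) .nil)))))) 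
(.nd (nat_lit 7) (.nd (nat_lit 8) (.nd (nat_lit 9) 
(.lf (nat_lit 575593) (.g (nat_lit 1443) (.e (nat_lit 491566) (nat_lit 12) (.e (nat_lit 392960) (nat_lit 24) (.e (nat_lit 516158) (nat_lit 9) (.e (nat_lit 426325) (nat_lit 13) (.e (nat_lit 491264) (nat_lit 16) .nil))))) (.g (nat_lit 1) (.e (nat_lit 363538) (nat_lit 0) .nil) .nil))) 
(.lf (nat_lit 576105) (.g (nat_lit 3610) (.e (nat_lit 319491) (nat_lit 0) (.e (nat_lit 5626) (nat_lit 312) (.e (nat_lit 2685) (nat_lit 168) (.e (nat_lit 204869) (nat_lit 29) (.e (nat_lit 360474) (nat_lit 8) (.e (nat_lit 557073) (nat_lit 9) (.e (nat_lit 214) (nat_lit 19) .nil))))))) (.g (nat_lit 1) (.e (nat_lit 364630) (nat_lit 0) .nil) .nil)))) (.nd (nat_lit 9) 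
(.lf (nat_lit 575849) (.g (nat_lit 2305) (.e (nat_lit 491569) (nat_lit 13) (.e (nat_lit 393301) (nat_lit 27) (.e (nat_lit 491560) (nat_lit 10) (.e (nat_lit 344179) (nat_lit 44) .nil)))) (.g (nat_lit 0) (.e (nat_lit 363906) (nat_lit 0) .nil) .nil))) 
(.lf (nat_lit 576361) (.g (nat_lit 648) (.e (nat_lit 319533) (nat_lit 16) (.e (nat_lit 286733) (nat_lit 2) (.e (nat_lit 90168) (nat_lit 13) .nil))) (.g (nat_lit 0) (.e (nat_lit 365373) (nat_lit 0) .nil) .nil))))) (.nd (nat_lit 8) (.nd (nat_lit 9) 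
(.lf (nat_lit 575721) (.g (nat_lit 549) (.e (nat_lit 491568) (nat_lit 13) (.e (nat_lit 393260) (nat_lit 21) (.e (nat_lit 409649) (nat_lit 18) .nil))) (.g (nat_lit 0) (.e (nat_lit 363742) (nat_lit 0) .nil) .nil))) 
(.lf (nat_lit 576233) (.g (nat_lit 2003) (.e (nat_lit 319528) (nat_lit 16) (.e (nat_lit 286735) (nat_lit 3) (.e (nat_lit 98325) (nat_lit 17) (.e (nat_lit 6986) (nat_lit 377) (.e (nat_lit 977) (nat_lit 81) .nil))))) (.g (nat_lit 0) (.e (nat_lit 365125) (nat_lit 0) .nil) .nil)))) (.nd (nat_lit 9) 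
(.lf (nat_lit 575977) (.g (nat_lit 1394) (.e (nat_lit 491571) (nat_lit 13) (.e (nat_lit 393291) (nat_lit 26) (.e (nat_lit 475156) (nat_lit 21) .nil))) (.g (nat_lit 0) (.e (nat_lit 364197) (nat_lit 0) .nil) .nil))) 
(.lf (nat_lit 576489) (.g (nat_lit 3756) (.e (nat_lit 327698) (nat_lit 8) (.e (nat_lit 303117) (nat_lit 2) (.e (nat_lit 196666) (nat_lit 13) (.e (nat_lit 65630) (nat_lit 14) (.e (nat_lit 401428) (nat_lit 3) .nil))))) (.g (nat_lit 0) (.e (nat_lit 365952) (nat_lit 0) .nil) .nil)))))))) (.nd (nat_lit 5) (.nd (nat_lit 6) (.nd (nat_lit 7) (.nd (nat_lit 8) (.nd (nat_lit 9) 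
(.lf (nat_lit 575513) (.g (nat_lit 2670) (.e (nat_lit 491563) (nat_lit 12) (.e (nat_lit 385073) (nat_lit 31) (.e (nat_lit 573493) (nat_lit 15) (.e (nat_lit 81962) (nat_lit 25) (.e (nat_lit 139289) (nat_lit 9) (.e (nat_lit 3099) (nat_lit 192) .nil)))))) (.g (nat_lit 1) (.e (nat_lit 363392) (nat_lit 0) .nil) .nil))) 
(.lf (nat_lit 576025) (.g (nat_lit 3824) (.e (nat_lit 491572) (nat_lit 14) (.e (nat_lit 401459) (nat_lit 13) (.e (nat_lit 483372) (nat_lit 21) (.e (nat_lit 319504) (nat_lit 10) .nil)))) (.g (nat_lit 0) (.e (nat_lit 364303) (nat_lit 0) .nil) .nil)))) (.nd (nat_lit 9) 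
(.lf (nat_lit 575769) (.g (nat_lit 2731) (.e (nat_lit 491568) (nat_lit 13) (.e (nat_lit 393301) (nat_lit 27) (.e (nat_lit 491563) (nat_lit 12) (.e (nat_lit 385030) (nat_lit 8) .nil)))) (.g (nat_lit 0) (.e (nat_lit 363795) (nat_lit 0) .nil) .nil))) 
(.lf (nat_lit 576281) (.g (nat_lit 3363) (.e (nat_lit 319530) (nat_lit 16) (.e (nat_lit 286733) (nat_lit 2) (.e (nat_lit 90177) (nat_lit 15) (.e (nat_lit 188450) (nat_lit 23) (.e (nat_lit 204846) (nat_lit 24) .nil))))) (.g (nat_lit 1) (.e (nat_lit 365222) (nat_lit 0) .nil) .nil))))) (.nd (nat_lit 8) (.nd (nat_lit 9) 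
(.lf (nat_lit 575641) (.g (nat_lit 5172) (.e (nat_lit 491566) (nat_lit 12) (.e (nat_lit 385073) (nat_lit 31) (.e (nat_lit 573493) (nat_lit 15) (.e (nat_lit 81953) (nat_lit 22) (.e (nat_lit 90130) (nat_lit 9) (.e (nat_lit 3103) (nat_lit 192) .nil)))))) (.g (nat_lit 1) (.e (nat_lit 363612) (nat_lit 0) .nil) .nil))) 
(.lf (nat_lit 576153) (.g (nat_lit 2582) (.e (nat_lit 319492) (nat_lit 0) (.e (nat_lit 5761) (nat_lit 315) (.e (nat_lit 163962) (nat_lit 25) (.e (nat_lit 532550) (nat_lit 12) (.e (nat_lit 360475) (nat_lit 8) (.e (nat_lit 557073) (nat_lit 9) (.e (nat_lit 7936) (nat_lit 19) .nil))))))) (.g (nat_lit 1) (.e (nat_lit 364739) (nat_lit 0) .nil) .nil)))) (.nd (nat_lit 9) 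
(.lf (nat_lit 575897) (.g (nat_lit 1514) (.e (nat_lit 491570) (nat_lit 13) (.e (nat_lit 393271) (nat_lit 23) (.e (nat_lit 426402) (nat_lit 15) (.e (nat_lit 2162) (nat_lit 143) .nil)))) (.g (nat_lit 0) (.e (nat_lit 363981) (nat_lit 0) .nil) .nil))) 
(.lf (nat_lit 576409) (.g (nat_lit 3434) (.e (nat_lit 319534) (nat_lit 16) (.e (nat_lit 286732) (nat_lit 2) (.e (nat_lit 90170) (nat_lit 13) (.e (nat_lit 172106) (nat_lit 10) (.e (nat_lit 434231) (nat_lit 23) (.e (nat_lit 540416) (nat_lit 7) .nil)))))) (.g (nat_lit 1) (.e (nat_lit 365450) (nat_lit 0) .nil) .nil)))))) (.nd (nat_lit 7) (.nd (nat_lit 8) (.nd (nat_lit 9) 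
(.lf (nat_lit 575577) (.g (nat_lit 3604) (.e (nat_lit 491566) (nat_lit 12) (.e (nat_lit 385068) (nat_lit 26) (.e (nat_lit 532501) (nat_lit 1) (.e (nat_lit 57783) (nat_lit 239) (.e (nat_lit 2617) (nat_lit 164) (.e (nat_lit 172150) (nat_lit 27) (.e (nat_lit 343808) (nat_lit 35) .nil))))))) (.g (nat_lit 1) (.e (nat_lit 363513) (nat_lit 0) .nil) .nil))) 
(.lf (nat_lit 576089) (.g (nat_lit 2013) (.e (nat_lit 319490) (nat_lit 0) (.e (nat_lit 5664) (nat_lit 312) (.e (nat_lit 3085) (nat_lit 191) (.e (nat_lit 483412) (nat_lit 27) (.e (nat_lit 401440) (nat_lit 9) (.e (nat_lit 433920) (nat_lit 25) .nil)))))) (.g (nat_lit 1) (.e (nat_lit 364588) (nat_lit 0) .nil) .nil)))) (.nd (nat_lit 9) 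
(.lf (nat_lit 575833) (.g (nat_lit 1685) (.e (nat_lit 491569) (nat_lit 13) (.e (nat_lit 393301) (nat_lit 27) (.e (nat_lit 491560) (nat_lit 10) (.e (nat_lit 344089) (nat_lit 18) .nil)))) (.g (nat_lit 0) (.e (nat_lit 363890) (nat_lit 0) .nil) .nil))) 
(.lf (nat_lit 576345) (.g (nat_lit 649) (.e (nat_lit 319532) (nat_lit 16) (.e (nat_lit 286735) (nat_lit 3) (.e (nat_lit 98362) (nat_lit 26) .nil))) (.g (nat_lit 0) (.e (nat_lit 365338) (nat_lit 0) .nil) .nil))))) (.nd (nat_lit 8) (.nd (nat_lit 9) 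
(.lf (nat_lit 575705) (.g (nat_lit 3044) (.e (nat_lit 491566) (nat_lit 12) (.e (nat_lit 385105) (nat_lit 50) (.e (nat_lit 786483) (nat_lit 30) (.e (nat_lit 360450) (nat_lit 0) (.e (nat_lit 5604) (nat_lit 310) (.e (nat_lit 163946) (nat_lit 20) .nil)))))) (.g (nat_lit 1) (.e (nat_lit 363721) (nat_lit 0) .nil) .nil))) 
(.lf (nat_lit 576217) (.g (nat_lit 2573) (.e (nat_lit 319539) (nat_lit 19) (.e (nat_lit 311315) (nat_lit 3) (.e (nat_lit 204846) (nat_lit 24) (.e (nat_lit 319533) (nat_lit 16) (.e (nat_lit 286724) (nat_lit 0) (.e (nat_lit 1841) (nat_lit 123) (.e (nat_lit 548874) (nat_lit 5) (.e (nat_lit 1401) (nat_lit 106) .nil)))))))) (.g (nat_lit 1) (.e (nat_lit 365098) (nat_lit 0) .nil) .nil)))) 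
(.nd (nat_lit 9) 
(.lf (nat_lit 575961) (.g (nat_lit 1660) (.e (nat_lit 491571) (nat_lit 13) (.e (nat_lit 393260) (nat_lit 21) (.e (nat_lit 409617) (nat_lit 10) (.e (nat_lit 5355) (nat_lit 298) (.e (nat_lit 7936) (nat_lit 32) (.e (nat_lit 426340) (nat_lit 14) .nil)))))) (.g (nat_lit 1) (.e (nat_lit 364128) (nat_lit 0) .nil) .nil))) 
(.lf (nat_lit 576473) (.g (nat_lit 565) (.e (nat_lit 327424) (nat_lit 16) (.e (nat_lit 286735) (nat_lit 3) (.e (nat_lit 98363) (nat_lit 26) .nil))) (.g (nat_lit 0) (.e (nat_lit 365557) (nat_lit 0) .nil) .nil))))))) (.nd (nat_lit 6) (.nd (nat_lit 7) (.nd (nat_lit 8) (.nd (nat_lit 9) 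
(.lf (nat_lit 575545) (.g (nat_lit 4268) (.e (nat_lit 491565) (nat_lit 12) (.e (nat_lit 385067) (nat_lit 26) (.e (nat_lit 532513) (nat_lit 3) (.e (nat_lit 122624) (nat_lit 12) (.e (nat_lit 434244) (nat_lit 28) (.e (nat_lit 573451) (nat_lit 9) (.e (nat_lit 498) (nat_lit 40) .nil))))))) (.g (nat_lit 1) (.e (nat_lit 363430) (nat_lit 0) .nil) .nil))) 
(.lf (nat_lit 576057) (.g (nat_lit 478) (.e (nat_lit 499456) (nat_lit 30) (.e (nat_lit 450584) (nat_lit 9) (.e (nat_lit 565251) (nat_lit 0) .nil))) (.g (nat_lit 0) (.e (nat_lit 364512) (nat_lit 0) .nil) .nil)))) (.nd (nat_lit 9) 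
(.lf (nat_lit 575801) (.g (nat_lit 1027) (.e (nat_lit 491569) (nat_lit 13) (.e (nat_lit 393301) (nat_lit 27) (.e (nat_lit 491520) (nat_lit 0) (.e (nat_lit 6459) (nat_lit 343) .nil)))) (.g (nat_lit 0) (.e (nat_lit 363856) (nat_lit 0) .nil) .nil))) 
(.lf (nat_lit 576313) (.g (nat_lit 4294) (.e (nat_lit 319531) (nat_lit 16) (.e (nat_lit 286733) (nat_lit 2) (.e (nat_lit 90176) (nat_lit 15) (.e (nat_lit 188450) (nat_lit 23) (.e (nat_lit 204846) (nat_lit 24) .nil))))) (.g (nat_lit 1) (.e (nat_lit 365288) (nat_lit 0) .nil) .nil))))) (.nd (nat_lit 8) (.nd (nat_lit 9) 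
(.lf (nat_lit 575673) (.g (nat_lit 5777) (.e (nat_lit 491566) (nat_lit 12) (.e (nat_lit 385074) (nat_lit 31) (.e (nat_lit 573493) (nat_lit 15) (.e (nat_lit 81953) (nat_lit 22) (.e (nat_lit 90128) (nat_lit 9) (.e (nat_lit 3106) (nat_lit 192) .nil)))))) (.g (nat_lit 1) (.e (nat_lit 363659) (nat_lit 0) .nil) .nil))) 
(.lf (nat_lit 576185) (.g (nat_lit 2250) (.e (nat_lit 319511) (nat_lit 10) (.e (nat_lit 5293) (nat_lit 298) (.e (nat_lit 1250) (nat_lit 92) (.e (nat_lit 98367) (nat_lit 27) (.e (nat_lit 442112) (nat_lit 8) .nil))))) (.g (nat_lit 0) (.e (nat_lit 364984) (nat_lit 0) .nil) .nil)))) (.nd (nat_lit 9) 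
(.lf (nat_lit 575929) (.g (nat_lit 2277) (.e (nat_lit 491571) (nat_lit 13) (.e (nat_lit 393238) (nat_lit 17) (.e (nat_lit 6989) (nat_lit 377) (.e (nat_lit 2777) (nat_lit 178) (.e (nat_lit 286767) (nat_lit 27) .nil))))) (.g (nat_lit 0) (.e (nat_lit 364067) (nat_lit 0) .nil) .nil))) 
(.lf (nat_lit 576441) (.g (nat_lit 2873) (.e (nat_lit 319534) (nat_lit 16) (.e (nat_lit 286756) (nat_lit 10) (.e (nat_lit 344160) (nat_lit 37) (.e (nat_lit 647190) (nat_lit 9) (.e (nat_lit 1026) (nat_lit 81) (.e (nat_lit 2346) (nat_lit 151) (.e (nat_lit 778466) (nat_lit 11) (.e (nat_lit 24617) (nat_lit 7) .nil)))))))) (.g (nat_lit 1) (.e (nat_lit 365487) (nat_lit 0) .nil) .nil)))))) 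
(.nd (nat_lit 7) (.nd (nat_lit 8) (.nd (nat_lit 9) 
(.lf (nat_lit 575609) (.g (nat_lit 5543) (.e (nat_lit 491566) (nat_lit 12) (.e (nat_lit 385072) (nat_lit 31) (.e (nat_lit 573492) (nat_lit 15) (.e (nat_lit 81953) (nat_lit 22) (.e (nat_lit 90123) (nat_lit 9) (.e (nat_lit 3095) (nat_lit 192) .nil)))))) (.g (nat_lit 1) (.e (nat_lit 363554) (nat_lit 0) .nil) .nil))) 
(.lf (nat_lit 576121) (.g (nat_lit 1611) (.e (nat_lit 319491) (nat_lit 0) (.e (nat_lit 5664) (nat_lit 312) (.e (nat_lit 3085) (nat_lit 191) (.e (nat_lit 483377) (nat_lit 22) (.e (nat_lit 327718) (nat_lit 19) (.e (nat_lit 319232) (nat_lit 25) .nil)))))) (.g (nat_lit 1) (.e (nat_lit 364667) (nat_lit 0) .nil) .nil)))) (.nd (nat_lit 9) 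
(.lf (nat_lit 575865) (.g (nat_lit 1503) (.e (nat_lit 491570) (nat_lit 13) (.e (nat_lit 393238) (nat_lit 17) (.e (nat_lit 7537) (nat_lit 402) (.e (nat_lit 1659) (nat_lit 115) (.e (nat_lit 401152) (nat_lit 27) .nil))))) (.g (nat_lit 0) (.e (nat_lit 363929) (nat_lit 0) .nil) .nil))) 
(.lf (nat_lit 576377) (.g (nat_lit 1458) (.e (nat_lit 319533) (nat_lit 16) (.e (nat_lit 286735) (nat_lit 3) (.e (nat_lit 98351) (nat_lit 25) (.e (nat_lit 417813) (nat_lit 9) .nil)))) (.g (nat_lit 0) (.e (nat_lit 365393) (nat_lit 0) .nil) .nil))))) (.nd (nat_lit 8) (.nd (nat_lit 9) 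
(.lf (nat_lit 575737) (.g (nat_lit 1784) (.e (nat_lit 491568) (nat_lit 13) (.e (nat_lit 393291) (nat_lit 26) (.e (nat_lit 475211) (nat_lit 41) (.e (nat_lit 712739) (nat_lit 27) .nil)))) (.g (nat_lit 0) (.e (nat_lit 363760) (nat_lit 0) .nil) .nil))) 
(.lf (nat_lit 576249) (.g (nat_lit 589) (.e (nat_lit 319528) (nat_lit 16) (.e (nat_lit 286735) (nat_lit 3) (.e (nat_lit 106240) (nat_lit 26) .nil))) (.g (nat_lit 0) (.e (nat_lit 365141) (nat_lit 0) .nil) .nil)))) (.nd (nat_lit 9) 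
(.lf (nat_lit 575993) (.g (nat_lit 2344) (.e (nat_lit 491571) (nat_lit 13) (.e (nat_lit 393298) (nat_lit 27) (.e (nat_lit 491549) (nat_lit 9) (.e (nat_lit 336372) (nat_lit 27) (.e (nat_lit 426337) (nat_lit 14) .nil))))) (.g (nat_lit 0) (.e (nat_lit 364245) (nat_lit 0) .nil) .nil))) 
(.lf (nat_lit 576505) (.g (nat_lit 2161) (.e (nat_lit 327699) (nat_lit 8) (.e (nat_lit 303116) (nat_lit 2) (.e (nat_lit 196670) (nat_lit 14) (.e (nat_lit 73781) (nat_lit 32) (.e (nat_lit 2681) (nat_lit 168) .nil))))) (.g (nat_lit 0) (.e (nat_lit 366024) (nat_lit 0) .nil) .nil)))))))))) 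
(.nd (nat_lit 3) (.nd (nat_lit 4) (.nd (nat_lit 5) (.nd (nat_lit 6) (.nd (nat_lit 7) 
(.nd (nat_lit 8) (.nd (nat_lit 9) 
(.lf (nat_lit 575493) (.g (nat_lit 2199) (.e (nat_lit 491560) (nat_lit 10) (.e (nat_lit 344179) (nat_lit 44) (.e (nat_lit 778466) (nat_lit 11) (.e (nat_lit 24588) (nat_lit 0) (.e (nat_lit 7936) (nat_lit 345) .nil))))) (.g (nat_lit 0) (.e (nat_lit 363369) (nat_lit 0) .nil) .nil))) 
(.lf (nat_lit 576005) (.g (nat_lit 1779) (.e (nat_lit 491571) (nat_lit 13) (.e (nat_lit 393299) (nat_lit 27) (.e (nat_lit 491549) (nat_lit 9) (.e (nat_lit 336372) (nat_lit 27) .nil)))) (.g (nat_lit 0) (.e (nat_lit 364267) (nat_lit 0) .nil) .nil)))) (.nd (nat_lit 9) 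
(.lf (nat_lit 575749) (.g (nat_lit 1019) (.e (nat_lit 491568) (nat_lit 13) (.e (nat_lit 393301) (nat_lit 27) (.e (nat_lit 491558) (nat_lit 10) (.e (nat_lit 344091) (nat_lit 18) .nil)))) (.g (nat_lit 0) (.e (nat_lit 363775) (nat_lit 0) .nil) .nil))) 
(.lf (nat_lit 576261) (.g (nat_lit 1381) (.e (nat_lit 319529) (nat_lit 16) (.e (nat_lit 286733) (nat_lit 2) (.e (nat_lit 90174) (nat_lit 14) (.e (nat_lit 188160) (nat_lit 40) .nil)))) (.g (nat_lit 0) (.e (nat_lit 365165) (nat_lit 0) .nil) .nil))))) (.nd (nat_lit 8) (.nd (nat_lit 9) 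
(.lf (nat_lit 575621) (.g (nat_lit 5327) (.e (nat_lit 491566) (nat_lit 12) (.e (nat_lit 385072) (nat_lit 31) (.e (nat_lit 573493) (nat_lit 15) (.e (nat_lit 81953) (nat_lit 22) (.e (nat_lit 90128) (nat_lit 9) .nil))))) (.g (nat_lit 0) (.e (nat_lit 363566) (nat_lit 0) .nil) .nil))) 
(.lf (nat_lit 576133) (.g (nat_lit 3495) (.e (nat_lit 319491) (nat_lit 0) (.e (nat_lit 5664) (nat_lit 312) (.e (nat_lit 3085) (nat_lit 191) (.e (nat_lit 483413) (nat_lit 27) (.e (nat_lit 401439) (nat_lit 9) (.e (nat_lit 426470) (nat_lit 25) .nil)))))) (.g (nat_lit 1) (.e (nat_lit 364680) (nat_lit 0) .nil) .nil)))) (.nd (nat_lit 9) 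
(.lf (nat_lit 575877) (.g (nat_lit 1538) (.e (nat_lit 491570) (nat_lit 13) (.e (nat_lit 393260) (nat_lit 21) (.e (nat_lit 409617) (nat_lit 10) (.e (nat_lit 5353) (nat_lit 298) (.e (nat_lit 7936) (nat_lit 32) .nil))))) (.g (nat_lit 0) (.e (nat_lit 363949) (nat_lit 0) .nil) .nil))) 
(.lf (nat_lit 576389) (.g (nat_lit 3565) (.e (nat_lit 319533) (nat_lit 16) (.e (nat_lit 286735) (nat_lit 3) (.e (nat_lit 98369) (nat_lit 28) (.e (nat_lit 442427) (nat_lit 23) (.e (nat_lit 204845) (nat_lit 24) .nil))))) (.g (nat_lit 1) (.e (nat_lit 365405) (nat_lit 0) .nil) .nil)))))) (.nd (nat_lit 7) (.nd (nat_lit 8) (.nd (nat_lit 9) 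
(.lf (nat_lit 575557) (.g (nat_lit 736) (.e (nat_lit 491565) (nat_lit 12) (.e (nat_lit 385074) (nat_lit 31) (.e (nat_lit 573481) (nat_lit 13) .nil))) (.g (nat_lit 0) (.e (nat_lit 363463) (nat_lit 0) .nil) .nil))) 
(.lf (nat_lit 576069) (.g (nat_lit 1690) (.e (nat_lit 319490) (nat_lit 0) (.e (nat_lit 5664) (nat_lit 312) (.e (nat_lit 3085) (nat_lit 191) (.e (nat_lit 483345) (nat_lit 17) (.e (nat_lit 6735) (nat_lit 364) .nil))))) (.g (nat_lit 0) (.e (nat_lit 364567) (nat_lit 0) .nil) .nil)))) (.nd (nat_lit 9) 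
(.lf (nat_lit 575813) (.g (nat_lit 3734) (.e (nat_lit 491569) (nat_lit 13) (.e (nat_lit 393301) (nat_lit 27) (.e (nat_lit 491558) (nat_lit 10) (.e (nat_lit 344091) (nat_lit 18) (.e (nat_lit 6923) (nat_lit 371) (.e (nat_lit 2427) (nat_lit 157) (.e (nat_lit 3104) (nat_lit 192) .nil))))))) (.g (nat_lit 1) (.e (nat_lit 363870) (nat_lit 0) .nil) .nil))) 
(.lf (nat_lit 576325) (.g (nat_lit 2245) (.e (nat_lit 319531) (nat_lit 16) (.e (nat_lit 286748) (nat_lit 9) (.e (nat_lit 336048) (nat_lit 6) (.e (nat_lit 147495) (nat_lit 11) (.e (nat_lit 24665) (nat_lit 14) (.e (nat_lit 409344) (nat_lit 25) .nil)))))) (.g (nat_lit 1) (.e (nat_lit 365301) (nat_lit 0) .nil) .nil))))) (.nd (nat_lit 8) (.nd (nat_lit 9) 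
(.lf (nat_lit 575685) (.g (nat_lit 2086) (.e (nat_lit 491566) (nat_lit 12) (.e (nat_lit 385093) (nat_lit 49) (.e (nat_lit 778327) (nat_lit 6) (.e (nat_lit 81948) (nat_lit 21) (.e (nat_lit 57926) (nat_lit 282) (.e (nat_lit 163945) (nat_lit 20) .nil)))))) (.g (nat_lit 1) (.e (nat_lit 363685) (nat_lit 0) .nil) .nil))) 
(.lf (nat_lit 576197) (.g (nat_lit 2784) (.e (nat_lit 319537) (nat_lit 19) (.e (nat_lit 311315) (nat_lit 3) (.e (nat_lit 204846) (nat_lit 24) (.e (nat_lit 319538) (nat_lit 19) (.e (nat_lit 311312) (nat_lit 2) .nil))))) (.g (nat_lit 0) (.e (nat_lit 365073) (nat_lit 0) .nil) .nil)))) (.nd (nat_lit 9) 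
(.lf (nat_lit 575941) (.g (nat_lit 2131) (.e (nat_lit 491571) (nat_lit 13) (.e (nat_lit 393242) (nat_lit 17) (.e (nat_lit 6986) (nat_lit 377) (.e (nat_lit 2782) (nat_lit 178) (.e (nat_lit 286768) (nat_lit 27) (.e (nat_lit 426340) (nat_lit 14) .nil)))))) (.g (nat_lit 1) (.e (nat_lit 364081) (nat_lit 0) .nil) .nil))) 
(.lf (nat_lit 576453) (.g (nat_lit 1904) (.e (nat_lit 319534) (nat_lit 16) (.e (nat_lit 286759) (nat_lit 12) (.e (nat_lit 385094) (nat_lit 49) (.e (nat_lit 778441) (nat_lit 9) .nil)))) (.g (nat_lit 0) (.e (nat_lit 365501) (nat_lit 0) .nil) .nil))))))) (.nd (nat_lit 6) (.nd (nat_lit 7) (.nd (nat_lit 8) (.nd (nat_lit 9) 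
(.lf (nat_lit 575525) (.g (nat_lit 3141) (.e (nat_lit 491564) (nat_lit 12) (.e (nat_lit 385073) (nat_lit 31) (.e (nat_lit 573493) (nat_lit 15) (.e (nat_lit 81953) (nat_lit 22) (.e (nat_lit 90134) (nat_lit 9) (.e (nat_lit 3098) (nat_lit 192) .nil)))))) (.g (nat_lit 1) (.e (nat_lit 363405) (nat_lit 0) .nil) .nil))) 
(.lf (nat_lit 576037) (.g (nat_lit 551) (.e (nat_lit 499456) (nat_lit 17) (.e (nat_lit 196668) (nat_lit 14) (.e (nat_lit 81664) (nat_lit 32) .nil))) (.g (nat_lit 0) (.e (nat_lit 364338) (nat_lit 0) .nil) .nil)))) (.nd (nat_lit 9) 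
(.lf (nat_lit 575781) (.g (nat_lit 1886) (.e (nat_lit 491569) (nat_lit 13) (.e (nat_lit 393271) (nat_lit 23) (.e (nat_lit 426402) (nat_lit 15) (.e (nat_lit 2046) (nat_lit 142) .nil)))) (.g (nat_lit 0) (.e (nat_lit 363826) (nat_lit 0) .nil) .nil))) 
(.lf (nat_lit 576293) (.g (nat_lit 2521) (.e (nat_lit 319530) (nat_lit 16) (.e (nat_lit 286743) (nat_lit 9) (.e (nat_lit 336337) (nat_lit 20) (.e (nat_lit 221218) (nat_lit 24) (.e (nat_lit 213030) (nat_lit 11) (.e (nat_lit 24617) (nat_lit 7) .nil)))))) (.g (nat_lit 1) (.e (nat_lit 365234) (nat_lit 0) .nil) .nil))))) (.nd (nat_lit 8) (.nd (nat_lit 9) 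
(.lf (nat_lit 575653) (.g (nat_lit 2999) (.e (nat_lit 491566) (nat_lit 12) (.e (nat_lit 385074) (nat_lit 31) (.e (nat_lit 573482) (nat_lit 13) (.e (nat_lit 65619) (nat_lit 10) (.e (nat_lit 344117) (nat_lit 21) (.e (nat_lit 524032) (nat_lit 16) .nil)))))) (.g (nat_lit 1) (.e (nat_lit 363630) (nat_lit 0) .nil) .nil))) 
(.lf (nat_lit 576165) (.g (nat_lit 2580) (.e (nat_lit 327424) (nat_lit 8) (.e (nat_lit 303117) (nat_lit 2) (.e (nat_lit 196674) (nat_lit 15) (.e (nat_lit 81946) (nat_lit 20) (.e (nat_lit 1842) (nat_lit 123) .nil))))) (.g (nat_lit 0) (.e (nat_lit 364792) (nat_lit 0) .nil) .nil)))) (.nd (nat_lit 9) 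
(.lf (nat_lit 575909) (.g (nat_lit 1431) (.e (nat_lit 491570) (nat_lit 13) (.e (nat_lit 393291) (nat_lit 26) (.e (nat_lit 475211) (nat_lit 41) (.e (nat_lit 712742) (nat_lit 27) .nil)))) (.g (nat_lit 0) (.e (nat_lit 364026) (nat_lit 0) .nil) .nil))) 
(.lf (nat_lit 576421) (.g (nat_lit 2596) (.e (nat_lit 319534) (nat_lit 16) (.e (nat_lit 286743) (nat_lit 9) (.e (nat_lit 336337) (nat_lit 20) (.e (nat_lit 221219) (nat_lit 24) (.e (nat_lit 213030) (nat_lit 11) (.e (nat_lit 24617) (nat_lit 7) .nil)))))) (.g (nat_lit 1) (.e (nat_lit 365467) (nat_lit 0) .nil) .nil)))))) (.nd (nat_lit 7) (.nd (nat_lit 8) (.nd (nat_lit 9) 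
(.lf (nat_lit 575589) (.g (nat_lit 898) (.e (nat_lit 491566) (nat_lit 12) (.e (nat_lit 392960) (nat_lit 24) (.e (nat_lit 516154) (nat_lit 9) (.e (nat_lit 426328) (nat_lit 13) (.e (nat_lit 491264) (nat_lit 16) .nil))))) (.g (nat_lit 1) (.e (nat_lit 363530) (nat_lit 0) .nil) .nil))) 
(.lf (nat_lit 576101) (.g (nat_lit 1109) (.e (nat_lit 319490) (nat_lit 0) (.e (nat_lit 5771) (nat_lit 316) (.e (nat_lit 172150) (nat_lit 27) (.e (nat_lit 335895) (nat_lit 0) (.e (nat_lit 7936) (nat_lit 361) (.e (nat_lit 172143) (nat_lit 25) .nil)))))) (.g (nat_lit 1) (.e (nat_lit 364614) (nat_lit 0) .nil) .nil)))) (.nd (nat_lit 9) 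
(.lf (nat_lit 575845) (.g (nat_lit 2982) (.e (nat_lit 491569) (nat_lit 13) (.e (nat_lit 393301) (nat_lit 27) (.e (nat_lit 491560) (nat_lit 10) (.e (nat_lit 344102) (nat_lit 18) .nil)))) (.g (nat_lit 0) (.e (nat_lit 363902) (nat_lit 0) .nil) .nil))) 
(.lf (nat_lit 576357) (.g (nat_lit 1404) (.e (nat_lit 319533) (nat_lit 16) (.e (nat_lit 286732) (nat_lit 2) (.e (nat_lit 90176) (nat_lit 15) (.e (nat_lit 196352) (nat_lit 23) .nil)))) (.g (nat_lit 0) (.e (nat_lit 365367) (nat_lit 0) .nil) .nil))))) (.nd (nat_lit 8) (.nd (nat_lit 9) 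
(.lf (nat_lit 575717) (.g (nat_lit 1820) (.e (nat_lit 491568) (nat_lit 13) (.e (nat_lit 393238) (nat_lit 17) (.e (nat_lit 6989) (nat_lit 377) (.e (nat_lit 2779) (nat_lit 178) (.e (nat_lit 286768) (nat_lit 27) .nil))))) (.g (nat_lit 0) (.e (nat_lit 363738) (nat_lit 0) .nil) .nil))) 
(.lf (nat_lit 576229) (.g (nat_lit 520) (.e (nat_lit 319528) (nat_lit 16) (.e (nat_lit 286734) (nat_lit 3) (.e (nat_lit 98381) (nat_lit 31) .nil))) (.g (nat_lit 0) (.e (nat_lit 365121) (nat_lit 0) .nil) .nil)))) (.nd (nat_lit 9) 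
(.lf (nat_lit 575973) (.g (nat_lit 1325) (.e (nat_lit 491571) (nat_lit 13) (.e (nat_lit 393260) (nat_lit 21) (.e (nat_lit 409641) (nat_lit 17) (.e (nat_lit 302848) (nat_lit 27) .nil)))) (.g (nat_lit 0) (.e (nat_lit 364147) (nat_lit 0) .nil) .nil))) 
(.lf (nat_lit 576485) (.g (nat_lit 2954) (.e (nat_lit 327681) (nat_lit 0) (.e (nat_lit 5762) (nat_lit 315) (.e (nat_lit 163962) (nat_lit 25) (.e (nat_lit 532550) (nat_lit 12) (.e (nat_lit 360475) (nat_lit 8) (.e (nat_lit 557068) (nat_lit 9) (.e (nat_lit 220) (nat_lit 20) .nil))))))) (.g (nat_lit 1) (.e (nat_lit 365590) (nat_lit 0) .nil) .nil)))))))) 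
(.nd (nat_lit 5) (.nd (nat_lit 6) (.nd (nat_lit 7) (.nd (nat_lit 8) (.nd (nat_lit 9) 
(.lf (nat_lit 575509) (.g (nat_lit 1566) (.e (nat_lit 491562) (nat_lit 12) (.e (nat_lit 385106) (nat_lit 50) (.e (nat_lit 786483) (nat_lit 30) (.e (nat_lit 360457) (nat_lit 0) .nil)))) (.g (nat_lit 0) (.e (nat_lit 363388) (nat_lit 0) .nil) .nil))) 
(.lf (nat_lit 576021) (.g (nat_lit 1491) (.e (nat_lit 491572) (nat_lit 14) (.e (nat_lit 401437) (nat_lit 9) (.e (nat_lit 426555) (nat_lit 32) (.e (nat_lit 376860) (nat_lit 21) .nil)))) (.g (nat_lit 0) (.e (nat_lit 364298) (nat_lit 0) .nil) .nil)))) (.nd (nat_lit 9) 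
(.lf (nat_lit 575765) (.g (nat_lit 1648) (.e (nat_lit 491568) (nat_lit 13) (.e (nat_lit 393301) (nat_lit 27) (.e (nat_lit 491560) (nat_lit 10) (.e (nat_lit 344178) (nat_lit 44) .nil)))) (.g (nat_lit 0) (.e (nat_lit 363791) (nat_lit 0) .nil) .nil))) 
(.lf (nat_lit 576277) (.g (nat_lit 2276) (.e (nat_lit 319530) (nat_lit 16) (.e (nat_lit 286731) (nat_lit 1) (.e (nat_lit 57688) (nat_lit 156) (.e (nat_lit 163933) (nat_lit 17) (.e (nat_lit 474880) (nat_lit 11) (.e (nat_lit 336056) (nat_lit 7) .nil)))))) (.g (nat_lit 1) (.e (nat_lit 365214) (nat_lit 0) .nil) .nil))))) (.nd (nat_lit 8) (.nd (nat_lit 9) 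
(.lf (nat_lit 575637) (.g (nat_lit 6340) (.e (nat_lit 491566) (nat_lit 12) (.e (nat_lit 385073) (nat_lit 31) (.e (nat_lit 573493) (nat_lit 15) (.e (nat_lit 81953) (nat_lit 22) (.e (nat_lit 90122) (nat_lit 9) (.e (nat_lit 3095) (nat_lit 192) .nil)))))) (.g (nat_lit 1) (.e (nat_lit 363608) (nat_lit 0) .nil) .nil))) 
(.lf (nat_lit 576149) (.g (nat_lit 1928) (.e (nat_lit 319492) (nat_lit 0) (.e (nat_lit 5664) (nat_lit 312) (.e (nat_lit 3085) (nat_lit 191) (.e (nat_lit 483412) (nat_lit 27) (.e (nat_lit 409344) (nat_lit 9) .nil))))) (.g (nat_lit 0) (.e (nat_lit 364732) (nat_lit 0) .nil) .nil)))) (.nd (nat_lit 9) 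
(.lf (nat_lit 575893) (.g (nat_lit 1178) (.e (nat_lit 491570) (nat_lit 13) (.e (nat_lit 393268) (nat_lit 23) (.e (nat_lit 426376) (nat_lit 15) .nil))) (.g (nat_lit 0) (.e (nat_lit 363968) (nat_lit 0) .nil) .nil))) 
(.lf (nat_lit 576405) (.g (nat_lit 621) (.e (nat_lit 319534) (nat_lit 16) (.e (nat_lit 286720) (nat_lit 0) (.e (nat_lit 1788) (nat_lit 119) (.e (nat_lit 516142) (nat_lit 8) .nil)))) (.g (nat_lit 0) (.e (nat_lit 365436) (nat_lit 0) .nil) .nil)))))) (.nd (nat_lit 7) (.nd (nat_lit 8) (.nd (nat_lit 9) 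
(.lf (nat_lit 575573) (.g (nat_lit 2492) (.e (nat_lit 491566) (nat_lit 12) (.e (nat_lit 385068) (nat_lit 26) (.e (nat_lit 532499) (nat_lit 1) (.e (nat_lit 57783) (nat_lit 239) (.e (nat_lit 2619) (nat_lit 164) .nil))))) (.g (nat_lit 0) (.e (nat_lit 363506) (nat_lit 0) .nil) .nil))) 
(.lf (nat_lit 576085) (.g (nat_lit 1313) (.e (nat_lit 319490) (nat_lit 0) (.e (nat_lit 5664) (nat_lit 312) (.e (nat_lit 3085) (nat_lit 191) (.e (nat_lit 483405) (nat_lit 26) .nil)))) (.g (nat_lit 0) (.e (nat_lit 364583) (nat_lit 0) .nil) .nil)))) (.nd (nat_lit 9) 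
(.lf (nat_lit 575829) (.g (nat_lit 2231) (.e (nat_lit 491569) (nat_lit 13) (.e (nat_lit 393301) (nat_lit 27) (.e (nat_lit 491559) (nat_lit 10) (.e (nat_lit 352000) (nat_lit 44) .nil)))) (.g (nat_lit 0) (.e (nat_lit 363886) (nat_lit 0) .nil) .nil))) 
(.lf (nat_lit 576341) (.g (nat_lit 2607) (.e (nat_lit 319532) (nat_lit 16) (.e (nat_lit 286733) (nat_lit 2) (.e (nat_lit 90170) (nat_lit 13) (.e (nat_lit 172094) (nat_lit 9) .nil)))) (.g (nat_lit 0) (.e (nat_lit 365329) (nat_lit 0) .nil) .nil))))) (.nd (nat_lit 8) (.nd (nat_lit 9) 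
(.lf (nat_lit 575701) (.g (nat_lit 2753) (.e (nat_lit 491566) (nat_lit 12) (.e (nat_lit 385105) (nat_lit 50) (.e (nat_lit 786480) (nat_lit 29) (.e (nat_lit 352309) (nat_lit 21) (.e (nat_lit 57931) (nat_lit 282) .nil))))) (.g (nat_lit 0) (.e (nat_lit 363717) (nat_lit 0) .nil) .nil))) 
(.lf (nat_lit 576213) (.g (nat_lit 2565) (.e (nat_lit 319539) (nat_lit 19) (.e (nat_lit 311315) (nat_lit 3) (.e (nat_lit 204846) (nat_lit 24) (.e (nat_lit 319504) (nat_lit 10) (.e (nat_lit 5712) (nat_lit 312) .nil))))) (.g (nat_lit 0) (.e (nat_lit 365093) (nat_lit 0) .nil) .nil)))) (.nd (nat_lit 9) 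
(.lf (nat_lit 575957) (.g (nat_lit 1535) (.e (nat_lit 491571) (nat_lit 13) (.e (nat_lit 393260) (nat_lit 21) (.e (nat_lit 409616) (nat_lit 10) (.e (nat_lit 5345) (nat_lit 298) .nil)))) (.g (nat_lit 0) (.e (nat_lit 364124) (nat_lit 0) .nil) .nil))) 
(.lf (nat_lit 576469) (.g (nat_lit 2721) (.e (nat_lit 327424) (nat_lit 16) (.e (nat_lit 286733) (nat_lit 2) (.e (nat_lit 90178) (nat_lit 15) (.e (nat_lit 188441) (nat_lit 20) (.e (nat_lit 3238) (nat_lit 197) .nil))))) (.g (nat_lit 0) (.e (nat_lit 365552) (nat_lit 0) .nil) .nil))))))) (.nd (nat_lit 6) (.nd (nat_lit 7) (.nd (nat_lit 8) (.nd (nat_lit 9) 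
(.lf (nat_lit 575541) (.g (nat_lit 736) (.e (nat_lit 491564) (nat_lit 12) (.e (nat_lit 385094) (nat_lit 49) (.e (nat_lit 778321) (nat_lit 4) .nil))) (.g (nat_lit 0) (.e (nat_lit 363424) (nat_lit 0) .nil) .nil))) 
(.lf (nat_lit 576053) (.g (nat_lit 1252) (.e (nat_lit 499456) (nat_lit 30) (.e (nat_lit 450587) (nat_lit 10) (.e (nat_lit 573501) (nat_lit 18) .nil))) (.g (nat_lit 0) (.e (nat_lit 364492) (nat_lit 0) .nil) .nil)))) (.nd (nat_lit 9) 
(.lf (nat_lit 575797) (.g (nat_lit 1408) (.e (nat_lit 491569) (nat_lit 13) (.e (nat_lit 393298) (nat_lit 27) (.e (nat_lit 491570) (nat_lit 13) (.e (nat_lit 401152) (nat_lit 27) .nil)))) (.g (nat_lit 0) (.e (nat_lit 363852) (nat_lit 0) .nil) .nil))) 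
(.lf (nat_lit 576309) (.g (nat_lit 458) (.e (nat_lit 319531) (nat_lit 16) (.e (nat_lit 286733) (nat_lit 2) (.e (nat_lit 90130) (nat_lit 9) .nil))) (.g (nat_lit 0) (.e (nat_lit 365282) (nat_lit 0) .nil) .nil))))) (.nd (nat_lit 8) (.nd (nat_lit 9) 
(.lf (nat_lit 575669) (.g (nat_lit 4441) (.e (nat_lit 491566) (nat_lit 12) (.e (nat_lit 385074) (nat_lit 31) (.e (nat_lit 573493) (nat_lit 15) (.e (nat_lit 81951) (nat_lit 22) (.e (nat_lit 90134) (nat_lit 9) (.e (nat_lit 3096) (nat_lit 192) .nil)))))) (.g (nat_lit 1) (.e (nat_lit 363655) (nat_lit 0) .nil) .nil))) 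
(.lf (nat_lit 576181) (.g (nat_lit 1871) (.e (nat_lit 319505) (nat_lit 10) (.e (nat_lit 618) (nat_lit 48) (.e (nat_lit 557105) (nat_lit 14) (.e (nat_lit 180238) (nat_lit 1) .nil)))) (.g (nat_lit 0) (.e (nat_lit 364956) (nat_lit 0) .nil) .nil)))) (.nd (nat_lit 9) 
(.lf (nat_lit 575925) (.g (nat_lit 2142) (.e (nat_lit 491571) (nat_lit 13) (.e (nat_lit 393231) (nat_lit 17) (.e (nat_lit 3555) (nat_lit 220) (.e (nat_lit 720956) (nat_lit 25) (.e (nat_lit 114716) (nat_lit 22) (.e (nat_lit 90133) (nat_lit 9) (.e (nat_lit 3105) (nat_lit 192) .nil))))))) (.g (nat_lit 1) (.e (nat_lit 364055) (nat_lit 0) .nil) .nil))) 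
(.lf (nat_lit 576437) (.g (nat_lit 2709) (.e (nat_lit 319534) (nat_lit 16) (.e (nat_lit 286756) (nat_lit 10) (.e (nat_lit 344160) (nat_lit 37) (.e (nat_lit 647190) (nat_lit 9) (.e (nat_lit 984) (nat_lit 81) (.e (nat_lit 2313) (nat_lit 151) (.e (nat_lit 778464) (nat_lit 11) (.e (nat_lit 24617) (nat_lit 7) .nil)))))))) (.g (nat_lit 1) (.e (nat_lit 365483) (nat_lit 0) .nil) .nil)))))) 
(.nd (nat_lit 7) (.nd (nat_lit 8) (.nd (nat_lit 9) 
(.lf (nat_lit 575605) (.g (nat_lit 407) (.e (nat_lit 491566) (nat_lit 12) (.e (nat_lit 385072) (nat_lit 31) (.e (nat_lit 573491) (nat_lit 15) .nil))) (.g (nat_lit 0) (.e (nat_lit 363550) (nat_lit 0) .nil) .nil))) 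
(.lf (nat_lit 576117) (.g (nat_lit 1554) (.e (nat_lit 319491) (nat_lit 0) (.e (nat_lit 5664) (nat_lit 312) (.e (nat_lit 3085) (nat_lit 191) (.e (nat_lit 483376) (nat_lit 22) .nil)))) (.g (nat_lit 0) (.e (nat_lit 364663) (nat_lit 0) .nil) .nil)))) (.nd (nat_lit 9) 
(.lf (nat_lit 575861) (.g (nat_lit 1954) (.e (nat_lit 491570) (nat_lit 13) (.e (nat_lit 393238) (nat_lit 17) (.e (nat_lit 6989) (nat_lit 377) (.e (nat_lit 2779) (nat_lit 178) (.e (nat_lit 294656) (nat_lit 27) (.e (nat_lit 433920) (nat_lit 14) .nil)))))) (.g (nat_lit 1) (.e (nat_lit 363924) (nat_lit 0) .nil) .nil))) 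
(.lf (nat_lit 576373) (.g (nat_lit 1052) (.e (nat_lit 319533) (nat_lit 16) (.e (nat_lit 286734) (nat_lit 3) (.e (nat_lit 98381) (nat_lit 31) (.e (nat_lit 466959) (nat_lit 20) .nil)))) (.g (nat_lit 0) (.e (nat_lit 365388) (nat_lit 0) .nil) .nil))))) (.nd (nat_lit 8) (.nd (nat_lit 9) 
(.lf (nat_lit 575733) (.g (nat_lit 1012) (.e (nat_lit 491568) (nat_lit 13) (.e (nat_lit 393291) (nat_lit 26) (.e (nat_lit 475197) (nat_lit 40) .nil))) (.g (nat_lit 0) (.e (nat_lit 363756) (nat_lit 0) .nil) .nil))) 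
(.lf (nat_lit 576245) (.g (nat_lit 1384) (.e (nat_lit 319528) (nat_lit 16) (.e (nat_lit 286735) (nat_lit 3) (.e (nat_lit 98365) (nat_lit 26) (.e (nat_lit 426187) (nat_lit 9) .nil)))) (.g (nat_lit 0) (.e (nat_lit 365137) (nat_lit 0) .nil) .nil)))) (.nd (nat_lit 9) 
(.lf (nat_lit 575989) (.g (nat_lit 2185) (.e (nat_lit 491571) (nat_lit 13) (.e (nat_lit 393298) (nat_lit 27) (.e (nat_lit 491549) (nat_lit 9) (.e (nat_lit 336366) (nat_lit 27) .nil)))) (.g (nat_lit 0) (.e (nat_lit 364241) (nat_lit 0) .nil) .nil))) 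
(.lf (nat_lit 576501) (.g (nat_lit 2602) (.e (nat_lit 327698) (nat_lit 8) (.e (nat_lit 303119) (nat_lit 3) (.e (nat_lit 204863) (nat_lit 27) (.e (nat_lit 344065) (nat_lit 0) (.e (nat_lit 2505) (nat_lit 157) .nil))))) (.g (nat_lit 0) (.e (nat_lit 365970) (nat_lit 0) .nil) .nil))))))))) (.nd (nat_lit 4) (.nd (nat_lit 5) (.nd (nat_lit 6) (.nd (nat_lit 7) (.nd (nat_lit 8) (.nd (nat_lit 9) 
(.lf (nat_lit 575501) (.g (nat_lit 3209) (.e (nat_lit 491562) (nat_lit 12) (.e (nat_lit 385073) (nat_lit 31) (.e (nat_lit 573493) (nat_lit 15) (.e (nat_lit 81962) (nat_lit 25) (.e (nat_lit 139289) (nat_lit 9) (.e (nat_lit 3100) (nat_lit 192) .nil)))))) (.g (nat_lit 1) (.e (nat_lit 363379) (nat_lit 0) .nil) .nil))) 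
(.lf (nat_lit 576013) (.g (nat_lit 3058) (.e (nat_lit 491571) (nat_lit 13) (.e (nat_lit 393299) (nat_lit 27) (.e (nat_lit 491560) (nat_lit 10) (.e (nat_lit 344090) (nat_lit 18) (.e (nat_lit 6942) (nat_lit 375) (.e (nat_lit 163945) (nat_lit 20) .nil)))))) (.g (nat_lit 1) (.e (nat_lit 364276) (nat_lit 0) .nil) .nil)))) (.nd (nat_lit 9) 
(.lf (nat_lit 575757) (.g (nat_lit 2275) (.e (nat_lit 491568) (nat_lit 13) (.e (nat_lit 393301) (nat_lit 27) (.e (nat_lit 491560) (nat_lit 10) (.e (nat_lit 344089) (nat_lit 18) .nil)))) (.g (nat_lit 0) (.e (nat_lit 363783) (nat_lit 0) .nil) .nil))) 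
(.lf (nat_lit 576269) (.g (nat_lit 2117) (.e (nat_lit 319529) (nat_lit 16) (.e (nat_lit 286735) (nat_lit 3) (.e (nat_lit 98359) (nat_lit 26) (.e (nat_lit 426214) (nat_lit 9) .nil)))) (.g (nat_lit 0) (.e (nat_lit 365176) (nat_lit 0) .nil) .nil))))) (.nd (nat_lit 8) (.nd (nat_lit 9) 
(.lf (nat_lit 575629) (.g (nat_lit 2373) (.e (nat_lit 491566) (nat_lit 12) (.e (nat_lit 385073) (nat_lit 31) (.e (nat_lit 573485) (nat_lit 13) (.e (nat_lit 65619) (nat_lit 10) (.e (nat_lit 344117) (nat_lit 21) (.e (nat_lit 524032) (nat_lit 16) .nil)))))) (.g (nat_lit 1) (.e (nat_lit 363579) (nat_lit 0) .nil) .nil))) 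
(.lf (nat_lit 576141) (.g (nat_lit 431) (.e (nat_lit 319492) (nat_lit 0) (.e (nat_lit 5626) (nat_lit 312) (.e (nat_lit 2685) (nat_lit 168) .nil))) (.g (nat_lit 0) (.e (nat_lit 364710) (nat_lit 0) .nil) .nil)))) (.nd (nat_lit 9) 
(.lf (nat_lit 575885) (.g (nat_lit 3443) (.e (nat_lit 491570) (nat_lit 13) (.e (nat_lit 393260) (nat_lit 21) (.e (nat_lit 409649) (nat_lit 18) (.e (nat_lit 303111) (nat_lit 0) (.e (nat_lit 3578) (nat_lit 223) (.e (nat_lit 745472) (nat_lit 0) (.e (nat_lit 498) (nat_lit 40) .nil))))))) (.g (nat_lit 1) (.e (nat_lit 363959) (nat_lit 0) .nil) .nil))) 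
(.lf (nat_lit 576397) (.g (nat_lit 3220) (.e (nat_lit 319533) (nat_lit 16) (.e (nat_lit 286753) (nat_lit 10) (.e (nat_lit 344179) (nat_lit 44) (.e (nat_lit 778466) (nat_lit 11) (.e (nat_lit 24662) (nat_lit 14) (.e (nat_lit 409344) (nat_lit 25) .nil)))))) (.g (nat_lit 1) (.e (nat_lit 365415) (nat_lit 0) .nil) .nil)))))) (.nd (nat_lit 7) (.nd (nat_lit 8) (.nd (nat_lit 9) 
(.lf (nat_lit 575565) (.g (nat_lit 2615) (.e (nat_lit 491565) (nat_lit 12) (.e (nat_lit 385074) (nat_lit 31) (.e (nat_lit 573493) (nat_lit 15) (.e (nat_lit 81953) (nat_lit 22) (.e (nat_lit 90134) (nat_lit 9) (.e (nat_lit 3096) (nat_lit 192) .nil)))))) (.g (nat_lit 1) (.e (nat_lit 363472) (nat_lit 0) .nil) .nil))) 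
(.lf (nat_lit 576077) (.g (nat_lit 1805) (.e (nat_lit 319490) (nat_lit 0) (.e (nat_lit 5664) (nat_lit 312) (.e (nat_lit 3085) (nat_lit 191) (.e (nat_lit 483376) (nat_lit 22) (.e (nat_lit 327707) (nat_lit 10) .nil))))) (.g (nat_lit 0) (.e (nat_lit 364575) (nat_lit 0) .nil) .nil)))) (.nd (nat_lit 9) 
(.lf (nat_lit 575821) (.g (nat_lit 1314) (.e (nat_lit 491569) (nat_lit 13) (.e (nat_lit 393301) (nat_lit 27) (.e (nat_lit 491558) (nat_lit 10) (.e (nat_lit 352000) (nat_lit 44) .nil)))) (.g (nat_lit 0) (.e (nat_lit 363878) (nat_lit 0) .nil) .nil))) 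
(.lf (nat_lit 576333) (.g (nat_lit 1880) (.e (nat_lit 319531) (nat_lit 16) (.e (nat_lit 286759) (nat_lit 12) (.e (nat_lit 385094) (nat_lit 49) (.e (nat_lit 778486) (nat_lit 12) (.e (nat_lit 164043) (nat_lit 55) .nil))))) (.g (nat_lit 0) (.e (nat_lit 365310) (nat_lit 0) .nil) .nil))))) (.nd (nat_lit 8) (.nd (nat_lit 9) 
(.lf (nat_lit 575693) (.g (nat_lit 2743) (.e (nat_lit 491566) (nat_lit 12) (.e (nat_lit 385104) (nat_lit 50) (.e (nat_lit 786483) (nat_lit 30) (.e (nat_lit 360450) (nat_lit 0) (.e (nat_lit 5595) (nat_lit 310) (.e (nat_lit 163946) (nat_lit 20) .nil)))))) (.g (nat_lit 1) (.e (nat_lit 363705) (nat_lit 0) .nil) .nil))) 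
(.lf (nat_lit 576205) (.g (nat_lit 3068) (.e (nat_lit 319538) (nat_lit 19) (.e (nat_lit 311315) (nat_lit 3) (.e (nat_lit 204846) (nat_lit 24) (.e (nat_lit 319539) (nat_lit 19) (.e (nat_lit 311315) (nat_lit 3) .nil))))) (.g (nat_lit 0) (.e (nat_lit 365084) (nat_lit 0) .nil) .nil)))) (.nd (nat_lit 9) 
(.lf (nat_lit 575949) (.g (nat_lit 619) (.e (nat_lit 491571) (nat_lit 13) (.e (nat_lit 393260) (nat_lit 21) (.e (nat_lit 409609) (nat_lit 10) .nil))) (.g (nat_lit 0) (.e (nat_lit 364115) (nat_lit 0) .nil) .nil))) 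
(.lf (nat_lit 576461) (.g (nat_lit 1029) (.e (nat_lit 327424) (nat_lit 16) (.e (nat_lit 286733) (nat_lit 2) (.e (nat_lit 90128) (nat_lit 9) (.e (nat_lit 3044) (nat_lit 189) .nil)))) (.g (nat_lit 0) (.e (nat_lit 365530) (nat_lit 0) .nil) .nil))))))) (.nd (nat_lit 6) (.nd (nat_lit 7) (.nd (nat_lit 8) (.nd (nat_lit 9) 
(.lf (nat_lit 575533) (.g (nat_lit 4021) (.e (nat_lit 491564) (nat_lit 12) (.e (nat_lit 385074) (nat_lit 31) (.e (nat_lit 573493) (nat_lit 15) (.e (nat_lit 81951) (nat_lit 22) (.e (nat_lit 90134) (nat_lit 9) (.e (nat_lit 3098) (nat_lit 192) .nil)))))) (.g (nat_lit 1) (.e (nat_lit 363414) (nat_lit 0) .nil) .nil))) 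
(.lf (nat_lit 576045) (.g (nat_lit 1428) (.e (nat_lit 491582) (nat_lit 27) (.e (nat_lit 426163) (nat_lit 6) (.e (nat_lit 253992) (nat_lit 11) (.e (nat_lit 24320) (nat_lit 18) .nil)))) (.g (nat_lit 0) (.e (nat_lit 364412) (nat_lit 0) .nil) .nil)))) (.nd (nat_lit 9) 
(.lf (nat_lit 575789) (.g (nat_lit 2068) (.e (nat_lit 491569) (nat_lit 13) (.e (nat_lit 393294) (nat_lit 26) (.e (nat_lit 475210) (nat_lit 41) (.e (nat_lit 712742) (nat_lit 27) .nil)))) (.g (nat_lit 0) (.e (nat_lit 363843) (nat_lit 0) .nil) .nil))) 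
(.lf (nat_lit 576301) (.g (nat_lit 1360) (.e (nat_lit 319530) (nat_lit 16) (.e (nat_lit 286759) (nat_lit 12) (.e (nat_lit 385107) (nat_lit 51) (.e (nat_lit 794648) (nat_lit 20) .nil)))) (.g (nat_lit 0) (.e (nat_lit 365242) (nat_lit 0) .nil) .nil))))) (.nd (nat_lit 8) (.nd (nat_lit 9) 
(.lf (nat_lit 575661) (.g (nat_lit 943) (.e (nat_lit 491566) (nat_lit 12) (.e (nat_lit 385074) (nat_lit 31) (.e (nat_lit 573491) (nat_lit 15) (.e (nat_lit 81953) (nat_lit 22) .nil)))) (.g (nat_lit 0) (.e (nat_lit 363644) (nat_lit 0) .nil) .nil))) 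
(.lf (nat_lit 576173) (.g (nat_lit 2250) (.e (nat_lit 319500) (nat_lit 10) (.e (nat_lit 618) (nat_lit 48) (.e (nat_lit 557098) (nat_lit 13) (.e (nat_lit 172115) (nat_lit 10) (.e (nat_lit 434295) (nat_lit 49) .nil))))) (.g (nat_lit 0) (.e (nat_lit 364917) (nat_lit 0) .nil) .nil)))) (.nd (nat_lit 9) 
(.lf (nat_lit 575917) (.g (nat_lit 1950) (.e (nat_lit 491570) (nat_lit 13) (.e (nat_lit 393298) (nat_lit 27) (.e (nat_lit 491569) (nat_lit 13) (.e (nat_lit 401152) (nat_lit 27) .nil)))) (.g (nat_lit 0) (.e (nat_lit 364037) (nat_lit 0) .nil) .nil))) 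
(.lf (nat_lit 576429) (.g (nat_lit 5056) (.e (nat_lit 319534) (nat_lit 16) (.e (nat_lit 286749) (nat_lit 9) (.e (nat_lit 335997) (nat_lit 1) (.e (nat_lit 57691) (nat_lit 156) (.e (nat_lit 163864) (nat_lit 1) (.e (nat_lit 164332) (nat_lit 230) (.e (nat_lit 163902) (nat_lit 12) (.e (nat_lit 426472) (nat_lit 25) .nil)))))))) (.g (nat_lit 1) (.e (nat_lit 365475) (nat_lit 0) .nil) .nil)))))) 
(.nd (nat_lit 7) (.nd (nat_lit 8) (.nd (nat_lit 9) 
(.lf (nat_lit 575597) (.g (nat_lit 1184) (.e (nat_lit 491566) (nat_lit 12) (.e (nat_lit 392960) (nat_lit 24) (.e (nat_lit 516158) (nat_lit 9) (.e (nat_lit 426334) (nat_lit 13) (.e (nat_lit 491264) (nat_lit 16) .nil))))) (.g (nat_lit 1) (.e (nat_lit 363542) (nat_lit 0) .nil) .nil))) 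
(.lf (nat_lit 576109) (.g (nat_lit 3405) (.e (nat_lit 319491) (nat_lit 0) (.e (nat_lit 5664) (nat_lit 312) (.e (nat_lit 2887) (nat_lit 184) (.e (nat_lit 426499) (nat_lit 27) (.e (nat_lit 336231) (nat_lit 14) (.e (nat_lit 401444) (nat_lit 9) (.e (nat_lit 433920) (nat_lit 25) .nil))))))) (.g (nat_lit 1) (.e (nat_lit 364641) (nat_lit 0) .nil) .nil)))) (.nd (nat_lit 9) 
(.lf (nat_lit 575853) (.g (nat_lit 1652) (.e (nat_lit 491569) (nat_lit 13) (.e (nat_lit 393301) (nat_lit 27) (.e (nat_lit 491560) (nat_lit 10) (.e (nat_lit 352000) (nat_lit 44) .nil)))) (.g (nat_lit 0) (.e (nat_lit 363910) (nat_lit 0) .nil) .nil))) 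
(.lf (nat_lit 576365) (.g (nat_lit 645) (.e (nat_lit 319533) (nat_lit 16) (.e (nat_lit 286733) (nat_lit 2) (.e (nat_lit 90184) (nat_lit 17) .nil))) (.g (nat_lit 0) (.e (nat_lit 365379) (nat_lit 0) .nil) .nil))))) (.nd (nat_lit 8) (.nd (nat_lit 9) 
(.lf (nat_lit 575725) (.g (nat_lit 557) (.e (nat_lit 491568) (nat_lit 13) (.e (nat_lit 393271) (nat_lit 23) (.e (nat_lit 426112) (nat_lit 1) .nil))) (.g (nat_lit 0) (.e (nat_lit 363746) (nat_lit 0) .nil) .nil))) 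
(.lf (nat_lit 576237) (.g (nat_lit 653) (.e (nat_lit 319528) (nat_lit 16) (.e (nat_lit 286735) (nat_lit 3) (.e (nat_lit 98356) (nat_lit 26) .nil))) (.g (nat_lit 0) (.e (nat_lit 365129) (nat_lit 0) .nil) .nil)))) (.nd (nat_lit 9) 
(.lf (nat_lit 575981) (.g (nat_lit 2384) (.e (nat_lit 491571) (nat_lit 13) (.e (nat_lit 393297) (nat_lit 27) (.e (nat_lit 491550) (nat_lit 9) (.e (nat_lit 336395) (nat_lit 27) (.e (nat_lit 426340) (nat_lit 14) .nil))))) (.g (nat_lit 1) (.e (nat_lit 364220) (nat_lit 0) .nil) .nil))) 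
(.lf (nat_lit 576493) (.g (nat_lit 2783) (.e (nat_lit 327698) (nat_lit 8) (.e (nat_lit 303118) (nat_lit 3) (.e (nat_lit 204849) (nat_lit 25) (.e (nat_lit 327699) (nat_lit 8) (.e (nat_lit 303118) (nat_lit 3) (.e (nat_lit 204849) (nat_lit 25) .nil)))))) (.g (nat_lit 1) (.e (nat_lit 365960) (nat_lit 0) .nil) .nil)))))))) 
(.nd (nat_lit 5) (.nd (nat_lit 6) (.nd (nat_lit 7) (.nd (nat_lit 8) (.nd (nat_lit 9) 
(.lf (nat_lit 575517) (.g (nat_lit 533) (.e (nat_lit 491564) (nat_lit 12) (.e (nat_lit 385072) (nat_lit 31) (.e (nat_lit 573491) (nat_lit 15) .nil))) (.g (nat_lit 0) (.e (nat_lit 363397) (nat_lit 0) .nil) .nil))) 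
(.lf (nat_lit 576029) (.g (nat_lit 3252) (.e (nat_lit 491572) (nat_lit 14) (.e (nat_lit 401459) (nat_lit 13) (.e (nat_lit 483372) (nat_lit 21) (.e (nat_lit 319528) (nat_lit 16) .nil)))) (.g (nat_lit 0) (.e (nat_lit 364307) (nat_lit 0) .nil) .nil)))) (.nd (nat_lit 9) 
(.lf (nat_lit 575773) (.g (nat_lit 1141) (.e (nat_lit 491569) (nat_lit 13) (.e (nat_lit 393251) (nat_lit 18) (.e (nat_lit 164179) (nat_lit 154) .nil))) (.g (nat_lit 0) (.e (nat_lit 363810) (nat_lit 0) .nil) .nil))) 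
(.lf (nat_lit 576285) (.g (nat_lit 2160) (.e (nat_lit 319530) (nat_lit 16) (.e (nat_lit 286735) (nat_lit 3) (.e (nat_lit 98365) (nat_lit 26) (.e (nat_lit 426188) (nat_lit 9) (.e (nat_lit 433920) (nat_lit 3) .nil))))) (.g (nat_lit 0) (.e (nat_lit 365226) (nat_lit 0) .nil) .nil))))) (.nd (nat_lit 8) (.nd (nat_lit 9) 
(.lf (nat_lit 575645) (.g (nat_lit 1928) (.e (nat_lit 491566) (nat_lit 12) (.e (nat_lit 385073) (nat_lit 31) (.e (nat_lit 573493) (nat_lit 15) (.e (nat_lit 81953) (nat_lit 22) (.e (nat_lit 98048) (nat_lit 9) (.e (nat_lit 3106) (nat_lit 192) .nil)))))) (.g (nat_lit 1) (.e (nat_lit 363616) (nat_lit 0) .nil) .nil))) 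
(.lf (nat_lit 576157) (.g (nat_lit 2599) (.e (nat_lit 327424) (nat_lit 8) (.e (nat_lit 303117) (nat_lit 2) (.e (nat_lit 196666) (nat_lit 13) (.e (nat_lit 65617) (nat_lit 10) .nil)))) (.g (nat_lit 0) (.e (nat_lit 364779) (nat_lit 0) .nil) .nil)))) (.nd (nat_lit 9) 
(.lf (nat_lit 575901) (.g (nat_lit 3525) (.e (nat_lit 491570) (nat_lit 13) (.e (nat_lit 393283) (nat_lit 24) (.e (nat_lit 434272) (nat_lit 38) (.e (nat_lit 655378) (nat_lit 4) (.e (nat_lit 172124) (nat_lit 14) .nil))))) (.g (nat_lit 1) (.e (nat_lit 364007) (nat_lit 0) .nil) .nil))) 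
(.lf (nat_lit 576413) (.g (nat_lit 3625) (.e (nat_lit 319534) (nat_lit 16) (.e (nat_lit 286733) (nat_lit 2) (.e (nat_lit 90170) (nat_lit 13) (.e (nat_lit 172106) (nat_lit 10) (.e (nat_lit 434231) (nat_lit 23) (.e (nat_lit 540416) (nat_lit 7) .nil)))))) (.g (nat_lit 1) (.e (nat_lit 365456) (nat_lit 0) .nil) .nil)))))) (.nd (nat_lit 7) (.nd (nat_lit 8) (.nd (nat_lit 9) 
(.lf (nat_lit 575581) (.g (nat_lit 572) (.e (nat_lit 491566) (nat_lit 12) (.e (nat_lit 392960) (nat_lit 24) (.e (nat_lit 516143) (nat_lit 9) (.e (nat_lit 426328) (nat_lit 13) (.e (nat_lit 491264) (nat_lit 16) .nil))))) (.g (nat_lit 1) (.e (nat_lit 363519) (nat_lit 0) .nil) .nil))) 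
(.lf (nat_lit 576093) (.g (nat_lit 3353) (.e (nat_lit 319490) (nat_lit 0) (.e (nat_lit 5664) (nat_lit 312) (.e (nat_lit 3085) (nat_lit 191) (.e (nat_lit 483413) (nat_lit 27) (.e (nat_lit 401434) (nat_lit 9) (.e (nat_lit 433920) (nat_lit 25) .nil)))))) (.g (nat_lit 1) (.e (nat_lit 364592) (nat_lit 0) .nil) .nil)))) (.nd (nat_lit 9) 
(.lf (nat_lit 575837) (.g (nat_lit 2659) (.e (nat_lit 491569) (nat_lit 13) (.e (nat_lit 393301) (nat_lit 27) (.e (nat_lit 491560) (nat_lit 10) (.e (nat_lit 344090) (nat_lit 18) (.e (nat_lit 6943) (nat_lit 375) .nil))))) (.g (nat_lit 0) (.e (nat_lit 363894) (nat_lit 0) .nil) .nil))) 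
(.lf (nat_lit 576349) (.g (nat_lit 2095) (.e (nat_lit 319532) (nat_lit 16) (.e (nat_lit 286759) (nat_lit 12) (.e (nat_lit 385094) (nat_lit 49) (.e (nat_lit 778445) (nat_lit 9) .nil)))) (.g (nat_lit 0) (.e (nat_lit 365346) (nat_lit 0) .nil) .nil))))) (.nd (nat_lit 8) (.nd (nat_lit 9) 
(.lf (nat_lit 575709) (.g (nat_lit 1107) (.e (nat_lit 491566) (nat_lit 12) (.e (nat_lit 385105) (nat_lit 50) (.e (nat_lit 786483) (nat_lit 30) (.e (nat_lit 360484) (nat_lit 15) .nil)))) (.g (nat_lit 0) (.e (nat_lit 363725) (nat_lit 0) .nil) .nil))) 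
(.lf (nat_lit 576221) (.g (nat_lit 638) (.e (nat_lit 319528) (nat_lit 16) (.e (nat_lit 286733) (nat_lit 2) (.e (nat_lit 90134) (nat_lit 9) .nil))) (.g (nat_lit 0) (.e (nat_lit 365111) (nat_lit 0) .nil) .nil)))) (.nd (nat_lit 9) 
(.lf (nat_lit 575965) (.g (nat_lit 564) (.e (nat_lit 491571) (nat_lit 13) (.e (nat_lit 393260) (nat_lit 21) (.e (nat_lit 409621) (nat_lit 10) .nil))) (.g (nat_lit 0) (.e (nat_lit 364132) (nat_lit 0) .nil) .nil))) 
(.lf (nat_lit 576477) (.g (nat_lit 1731) (.e (nat_lit 327424) (nat_lit 16) (.e (nat_lit 286735) (nat_lit 3) (.e (nat_lit 98369) (nat_lit 28) (.e (nat_lit 442403) (nat_lit 20) .nil)))) (.g (nat_lit 0) (.e (nat_lit 365563) (nat_lit 0) .nil) .nil))))))) (.nd (nat_lit 6) (.nd (nat_lit 7) (.nd (nat_lit 8) (.nd (nat_lit 9) 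
(.lf (nat_lit 575549) (.g (nat_lit 3163) (.e (nat_lit 491565) (nat_lit 12) (.e (nat_lit 385072) (nat_lit 31) (.e (nat_lit 573492) (nat_lit 15) (.e (nat_lit 81953) (nat_lit 22) (.e (nat_lit 90133) (nat_lit 9) (.e (nat_lit 3105) (nat_lit 192) .nil)))))) (.g (nat_lit 1) (.e (nat_lit 363434) (nat_lit 0) .nil) .nil))) 
(.lf (nat_lit 576061) (.g (nat_lit 906) (.e (nat_lit 319490) (nat_lit 0) (.e (nat_lit 5664) (nat_lit 312) (.e (nat_lit 2887) (nat_lit 184) (.e (nat_lit 426499) (nat_lit 27) .nil)))) (.g (nat_lit 0) (.e (nat_lit 364543) (nat_lit 0) .nil) .nil)))) (.nd (nat_lit 9) 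
(.lf (nat_lit 575805) (.g (nat_lit 3484) (.e (nat_lit 491569) (nat_lit 13) (.e (nat_lit 393301) (nat_lit 27) (.e (nat_lit 491547) (nat_lit 9) (.e (nat_lit 336414) (nat_lit 27) (.e (nat_lit 426347) (nat_lit 14) .nil))))) (.g (nat_lit 1) (.e (nat_lit 363862) (nat_lit 0) .nil) .nil))) 
(.lf (nat_lit 576317) (.g (nat_lit 658) (.e (nat_lit 319531) (nat_lit 16) (.e (nat_lit 286734) (nat_lit 3) (.e (nat_lit 98360) (nat_lit 26) .nil))) (.g (nat_lit 0) (.e (nat_lit 365292) (nat_lit 0) .nil) .nil))))) (.nd (nat_lit 8) (.nd (nat_lit 9) 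
(.lf (nat_lit 575677) (.g (nat_lit 3895) (.e (nat_lit 491566) (nat_lit 12) (.e (nat_lit 385074) (nat_lit 31) (.e (nat_lit 573493) (nat_lit 15) (.e (nat_lit 81956) (nat_lit 23) (.e (nat_lit 106240) (nat_lit 33) .nil))))) (.g (nat_lit 1) (.e (nat_lit 363663) (nat_lit 0) .nil) .nil))) 
(.lf (nat_lit 576189) (.g (nat_lit 1798) (.e (nat_lit 319511) (nat_lit 10) (.e (nat_lit 5293) (nat_lit 298) (.e (nat_lit 1633) (nat_lit 114) (.e (nat_lit 385107) (nat_lit 51) (.e (nat_lit 794678) (nat_lit 24) .nil))))) (.g (nat_lit 0) (.e (nat_lit 364988) (nat_lit 0) .nil) .nil)))) (.nd (nat_lit 9) 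
(.lf (nat_lit 575933) (.g (nat_lit 3946) (.e (nat_lit 491571) (nat_lit 13) (.e (nat_lit 393238) (nat_lit 17) (.e (nat_lit 6989) (nat_lit 377) (.e (nat_lit 2779) (nat_lit 178) (.e (nat_lit 286769) (nat_lit 27) .nil))))) (.g (nat_lit 0) (.e (nat_lit 364071) (nat_lit 0) .nil) .nil))) 
(.lf (nat_lit 576445) (.g (nat_lit 2879) (.e (nat_lit 319534) (nat_lit 16) (.e (nat_lit 286756) (nat_lit 10) (.e (nat_lit 344160) (nat_lit 37) (.e (nat_lit 647190) (nat_lit 9) (.e (nat_lit 1048) (nat_lit 81) (.e (nat_lit 2346) (nat_lit 151) (.e (nat_lit 778466) (nat_lit 11) (.e (nat_lit 24617) (nat_lit 7) .nil)))))))) (.g (nat_lit 1) (.e (nat_lit 365491) (nat_lit 0) .nil) .nil)))))) 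
(.nd (nat_lit 7) (.nd (nat_lit 8) (.nd (nat_lit 9) 
(.lf (nat_lit 575613) (.g (nat_lit 3518) (.e (nat_lit 491566) (nat_lit 12) (.e (nat_lit 385072) (nat_lit 31) (.e (nat_lit 573492) (nat_lit 15) (.e (nat_lit 81953) (nat_lit 22) (.e (nat_lit 90141) (nat_lit 9) (.e (nat_lit 3096) (nat_lit 192) .nil)))))) (.g (nat_lit 1) (.e (nat_lit 363558) (nat_lit 0) .nil) .nil))) 
(.lf (nat_lit 576125) (.g (nat_lit 992) (.e (nat_lit 319491) (nat_lit 0) (.e (nat_lit 5664) (nat_lit 312) (.e (nat_lit 3085) (nat_lit 191) (.e (nat_lit 483412) (nat_lit 27) .nil)))) (.g (nat_lit 0) (.e (nat_lit 364672) (nat_lit 0) .nil) .nil)))) (.nd (nat_lit 9) 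
(.lf (nat_lit 575869) (.g (nat_lit 966) (.e (nat_lit 491570) (nat_lit 13) (.e (nat_lit 393251) (nat_lit 18) (.e (nat_lit 164183) (nat_lit 154) .nil))) (.g (nat_lit 0) (.e (nat_lit 363936) (nat_lit 0) .nil) .nil))) 
(.lf (nat_lit 576381) (.g (nat_lit 3008) (.e (nat_lit 319533) (nat_lit 16) (.e (nat_lit 286735) (nat_lit 3) (.e (nat_lit 98358) (nat_lit 26) (.e (nat_lit 426227) (nat_lit 9) (.e (nat_lit 433920) (nat_lit 3) .nil))))) (.g (nat_lit 0) (.e (nat_lit 365397) (nat_lit 0) .nil) .nil))))) (.nd (nat_lit 8) (.nd (nat_lit 9) 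
(.lf (nat_lit 575741) (.g (nat_lit 3346) (.e (nat_lit 491568) (nat_lit 13) (.e (nat_lit 393294) (nat_lit 26) (.e (nat_lit 475210) (nat_lit 41) (.e (nat_lit 712745) (nat_lit 27) (.e (nat_lit 426347) (nat_lit 14) .nil))))) (.g (nat_lit 1) (.e (nat_lit 363765) (nat_lit 0) .nil) .nil))) 
(.lf (nat_lit 576253) (.g (nat_lit 1030) (.e (nat_lit 319528) (nat_lit 16) (.e (nat_lit 286735) (nat_lit 3) (.e (nat_lit 98371) (nat_lit 28) (.e (nat_lit 450304) (nat_lit 23) .nil)))) (.g (nat_lit 0) (.e (nat_lit 365146) (nat_lit 0) .nil) .nil)))) (.nd (nat_lit 9) 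
(.lf (nat_lit 575997) (.g (nat_lit 989) (.e (nat_lit 491571) (nat_lit 13) (.e (nat_lit 393298) (nat_lit 27) (.e (nat_lit 491552) (nat_lit 9) (.e (nat_lit 343808) (nat_lit 27) .nil)))) (.g (nat_lit 0) (.e (nat_lit 364249) (nat_lit 0) .nil) .nil))) 
(.lf (nat_lit 576509) (.g (nat_lit 590) (.e (nat_lit 327699) (nat_lit 8) (.e (nat_lit 303117) (nat_lit 2) (.e (nat_lit 196668) (nat_lit 14) .nil))) (.g (nat_lit 0) (.e (nat_lit 366036) (nat_lit 0) .nil) .nil))))))))))) (.nd (nat_lit 2) (.nd (nat_lit 3) (.nd (nat_lit 4) (.nd (nat_lit 5) (.nd (nat_lit 6) (.nd (nat_lit 7) (.nd (nat_lit 8) (.nd (nat_lit 9) 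
(.lf (nat_lit 575491) (.g (nat_lit 1587) (.e (nat_lit 491560) (nat_lit 10) (.e (nat_lit 344179) (nat_lit 44) (.e (nat_lit 778465) (nat_lit 11) (.e (nat_lit 24634) (nat_lit 9) .nil)))) (.g (nat_lit 0) (.e (nat_lit 363367) (nat_lit 0) .nil) .nil))) 
(.lf (nat_lit 576003) (.g (nat_lit 3085) (.e (nat_lit 491571) (nat_lit 13) (.e (nat_lit 393299) (nat_lit 27) (.e (nat_lit 491547) (nat_lit 9) (.e (nat_lit 336369) (nat_lit 27) (.e (nat_lit 426338) (nat_lit 14) .nil))))) (.g (nat_lit 1) (.e (nat_lit 364265) (nat_lit 0) .nil) .nil)))) (.nd (nat_lit 9) 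
(.lf (nat_lit 575747) (.g (nat_lit 1106) (.e (nat_lit 491568) (nat_lit 13) (.e (nat_lit 393301) (nat_lit 27) (.e (nat_lit 491551) (nat_lit 9) (.e (nat_lit 336412) (nat_lit 27) .nil)))) (.g (nat_lit 0) (.e (nat_lit 363773) (nat_lit 0) .nil) .nil))) 
(.lf (nat_lit 576259) (.g (nat_lit 1706) (.e (nat_lit 319529) (nat_lit 16) (.e (nat_lit 286732) (nat_lit 2) (.e (nat_lit 90170) (nat_lit 13) (.e (nat_lit 172097) (nat_lit 9) .nil)))) (.g (nat_lit 0) (.e (nat_lit 365159) (nat_lit 0) .nil) .nil))))) (.nd (nat_lit 8) (.nd (nat_lit 9) 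
(.lf (nat_lit 575619) (.g (nat_lit 5240) (.e (nat_lit 491566) (nat_lit 12) (.e (nat_lit 385072) (nat_lit 31) (.e (nat_lit 573493) (nat_lit 15) (.e (nat_lit 81953) (nat_lit 22) (.e (nat_lit 90121) (nat_lit 9) (.e (nat_lit 3097) (nat_lit 192) .nil)))))) (.g (nat_lit 1) (.e (nat_lit 363564) (nat_lit 0) .nil) .nil))) 
(.lf (nat_lit 576131) (.g (nat_lit 1954) (.e (nat_lit 319491) (nat_lit 0) (.e (nat_lit 5664) (nat_lit 312) (.e (nat_lit 3085) (nat_lit 191) (.e (nat_lit 483412) (nat_lit 27) (.e (nat_lit 409344) (nat_lit 9) (.e (nat_lit 433920) (nat_lit 25) .nil)))))) (.g (nat_lit 1) (.e (nat_lit 364678) (nat_lit 0) .nil) .nil)))) (.nd (nat_lit 9) 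
(.lf (nat_lit 575875) (.g (nat_lit 1595) (.e (nat_lit 491570) (nat_lit 13) (.e (nat_lit 393260) (nat_lit 21) (.e (nat_lit 409617) (nat_lit 10) (.e (nat_lit 5353) (nat_lit 298) (.e (nat_lit 405) (nat_lit 32) .nil))))) (.g (nat_lit 0) (.e (nat_lit 363947) (nat_lit 0) .nil) .nil))) 
(.lf (nat_lit 576387) (.g (nat_lit 2798) (.e (nat_lit 319533) (nat_lit 16) (.e (nat_lit 286735) (nat_lit 3) (.e (nat_lit 98367) (nat_lit 27) (.e (nat_lit 434183) (nat_lit 8) .nil)))) (.g (nat_lit 0) (.e (nat_lit 365403) (nat_lit 0) .nil) .nil)))))) (.nd (nat_lit 7) (.nd (nat_lit 8) (.nd (nat_lit 9) 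
(.lf (nat_lit 575555) (.g (nat_lit 3506) (.e (nat_lit 491565) (nat_lit 12) (.e (nat_lit 385073) (nat_lit 31) (.e (nat_lit 573493) (nat_lit 15) (.e (nat_lit 81951) (nat_lit 22) (.e (nat_lit 90133) (nat_lit 9) (.e (nat_lit 3105) (nat_lit 192) .nil)))))) (.g (nat_lit 1) (.e (nat_lit 363456) (nat_lit 0) .nil) .nil))) 
(.lf (nat_lit 576067) (.g (nat_lit 1717) (.e (nat_lit 319490) (nat_lit 0) (.e (nat_lit 5664) (nat_lit 312) (.e (nat_lit 3085) (nat_lit 191) (.e (nat_lit 483342) (nat_lit 17) .nil)))) (.g (nat_lit 0) (.e (nat_lit 364565) (nat_lit 0) .nil) .nil)))) (.nd (nat_lit 9) 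
(.lf (nat_lit 575811) (.g (nat_lit 3002) (.e (nat_lit 491569) (nat_lit 13) (.e (nat_lit 393301) (nat_lit 27) (.e (nat_lit 491558) (nat_lit 10) (.e (nat_lit 344091) (nat_lit 18) (.e (nat_lit 6923) (nat_lit 371) (.e (nat_lit 2416) (nat_lit 157) (.e (nat_lit 3105) (nat_lit 192) .nil))))))) (.g (nat_lit 1) (.e (nat_lit 363868) (nat_lit 0) .nil) .nil))) 
(.lf (nat_lit 576323) (.g (nat_lit 1285) (.e (nat_lit 319531) (nat_lit 16) (.e (nat_lit 286735) (nat_lit 3) (.e (nat_lit 98366) (nat_lit 27) (.e (nat_lit 442112) (nat_lit 8) .nil)))) (.g (nat_lit 0) (.e (nat_lit 365298) (nat_lit 0) .nil) .nil))))) (.nd (nat_lit 8) (.nd (nat_lit 9) 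
(.lf (nat_lit 575683) (.g (nat_lit 2518) (.e (nat_lit 491566) (nat_lit 12) (.e (nat_lit 385093) (nat_lit 49) (.e (nat_lit 778326) (nat_lit 6) (.e (nat_lit 81950) (nat_lit 21) (.e (nat_lit 57931) (nat_lit 282) (.e (nat_lit 163945) (nat_lit 20) .nil)))))) (.g (nat_lit 1) (.e (nat_lit 363680) (nat_lit 0) .nil) .nil))) 
(.lf (nat_lit 576195) (.g (nat_lit 429) (.e (nat_lit 319537) (nat_lit 19) (.e (nat_lit 311312) (nat_lit 2) (.e (nat_lit 196661) (nat_lit 12) .nil))) (.g (nat_lit 0) (.e (nat_lit 365069) (nat_lit 0) .nil) .nil)))) (.nd (nat_lit 9) 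
(.lf (nat_lit 575939) (.g (nat_lit 2263) (.e (nat_lit 491571) (nat_lit 13) (.e (nat_lit 393242) (nat_lit 17) (.e (nat_lit 6986) (nat_lit 377) (.e (nat_lit 2779) (nat_lit 178) (.e (nat_lit 286768) (nat_lit 27) (.e (nat_lit 426340) (nat_lit 14) .nil)))))) (.g (nat_lit 1) (.e (nat_lit 364079) (nat_lit 0) .nil) .nil))) 
(.lf (nat_lit 576451) (.g (nat_lit 3499) (.e (nat_lit 319534) (nat_lit 16) (.e (nat_lit 286756) (nat_lit 10) (.e (nat_lit 344179) (nat_lit 44) (.e (nat_lit 778466) (nat_lit 11) (.e (nat_lit 24662) (nat_lit 14) (.e (nat_lit 409344) (nat_lit 25) .nil)))))) (.g (nat_lit 1) (.e (nat_lit 365497) (nat_lit 0) .nil) .nil))))))) (.nd (nat_lit 6) (.nd (nat_lit 7) (.nd (nat_lit 8) (.nd (nat_lit 9) 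
(.lf (nat_lit 575523) (.g (nat_lit 1667) (.e (nat_lit 491564) (nat_lit 12) (.e (nat_lit 385073) (nat_lit 31) (.e (nat_lit 573482) (nat_lit 13) (.e (nat_lit 65604) (nat_lit 9) (.e (nat_lit 336028) (nat_lit 3) .nil))))) (.g (nat_lit 0) (.e (nat_lit 363403) (nat_lit 0) .nil) .nil))) 
(.lf (nat_lit 576035) (.g (nat_lit 1992) (.e (nat_lit 499456) (nat_lit 14) (.e (nat_lit 401425) (nat_lit 2) (.e (nat_lit 196672) (nat_lit 15) (.e (nat_lit 81954) (nat_lit 23) (.e (nat_lit 98389) (nat_lit 33) .nil))))) (.g (nat_lit 0) (.e (nat_lit 364313) (nat_lit 0) .nil) .nil)))) (.nd (nat_lit 9) 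
(.lf (nat_lit 575779) (.g (nat_lit 2597) (.e (nat_lit 491569) (nat_lit 13) (.e (nat_lit 393271) (nat_lit 23) (.e (nat_lit 426374) (nat_lit 15) (.e (nat_lit 2174) (nat_lit 143) (.e (nat_lit 712745) (nat_lit 27) .nil))))) (.g (nat_lit 0) (.e (nat_lit 363820) (nat_lit 0) .nil) .nil))) 
(.lf (nat_lit 576291) (.g (nat_lit 1543) (.e (nat_lit 319530) (nat_lit 16) (.e (nat_lit 286735) (nat_lit 3) (.e (nat_lit 98381) (nat_lit 31) (.e (nat_lit 466960) (nat_lit 20) .nil)))) (.g (nat_lit 0) (.e (nat_lit 365232) (nat_lit 0) .nil) .nil))))) (.nd (nat_lit 8) (.nd (nat_lit 9) 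
(.lf (nat_lit 575651) (.g (nat_lit 4910) (.e (nat_lit 491566) (nat_lit 12) (.e (nat_lit 385074) (nat_lit 31) (.e (nat_lit 573482) (nat_lit 13) (.e (nat_lit 65604) (nat_lit 9) (.e (nat_lit 336013) (nat_lit 2) (.e (nat_lit 90134) (nat_lit 9) (.e (nat_lit 3096) (nat_lit 192) .nil))))))) (.g (nat_lit 1) (.e (nat_lit 363628) (nat_lit 0) .nil) .nil))) 
(.lf (nat_lit 576163) (.g (nat_lit 2220) (.e (nat_lit 327424) (nat_lit 8) (.e (nat_lit 303117) (nat_lit 2) (.e (nat_lit 196672) (nat_lit 15) (.e (nat_lit 81943) (nat_lit 20) (.e (nat_lit 1842) (nat_lit 123) .nil))))) (.g (nat_lit 0) (.e (nat_lit 364790) (nat_lit 0) .nil) .nil)))) (.nd (nat_lit 9) 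
(.lf (nat_lit 575907) (.g (nat_lit 1512) (.e (nat_lit 491570) (nat_lit 13) (.e (nat_lit 393291) (nat_lit 26) (.e (nat_lit 475210) (nat_lit 41) (.e (nat_lit 712739) (nat_lit 27) .nil)))) (.g (nat_lit 0) (.e (nat_lit 364024) (nat_lit 0) .nil) .nil))) 
(.lf (nat_lit 576419) (.g (nat_lit 3721) (.e (nat_lit 319534) (nat_lit 16) (.e (nat_lit 286735) (nat_lit 3) (.e (nat_lit 98369) (nat_lit 28) (.e (nat_lit 442427) (nat_lit 23) (.e (nat_lit 204846) (nat_lit 24) .nil))))) (.g (nat_lit 1) (.e (nat_lit 365463) (nat_lit 0) .nil) .nil)))))) (.nd (nat_lit 7) (.nd (nat_lit 8) (.nd (nat_lit 9) 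
(.lf (nat_lit 575587) (.g (nat_lit 1437) (.e (nat_lit 491566) (nat_lit 12) (.e (nat_lit 392960) (nat_lit 24) (.e (nat_lit 516151) (nat_lit 9) (.e (nat_lit 426330) (nat_lit 13) (.e (nat_lit 491264) (nat_lit 16) .nil))))) (.g (nat_lit 1) (.e (nat_lit 363527) (nat_lit 0) .nil) .nil))) 
(.lf (nat_lit 576099) (.g (nat_lit 2769) (.e (nat_lit 319490) (nat_lit 0) (.e (nat_lit 5761) (nat_lit 315) (.e (nat_lit 163962) (nat_lit 25) (.e (nat_lit 532535) (nat_lit 9) (.e (nat_lit 336061) (nat_lit 7) (.e (nat_lit 319519) (nat_lit 12) (.e (nat_lit 32780) (nat_lit 5) (.e (nat_lit 1399) (nat_lit 106) .nil)))))))) (.g (nat_lit 1) (.e (nat_lit 364608) (nat_lit 0) .nil) .nil)))) (.nd (nat_lit 9) 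
(.lf (nat_lit 575843) (.g (nat_lit 4162) (.e (nat_lit 491569) (nat_lit 13) (.e (nat_lit 393301) (nat_lit 27) (.e (nat_lit 491560) (nat_lit 10) (.e (nat_lit 344097) (nat_lit 18) (.e (nat_lit 6902) (nat_lit 371) (.e (nat_lit 2445) (nat_lit 157) (.e (nat_lit 3098) (nat_lit 192) .nil))))))) (.g (nat_lit 1) (.e (nat_lit 363900) (nat_lit 0) .nil) .nil))) 
(.lf (nat_lit 576355) (.g (nat_lit 730) (.e (nat_lit 319533) (nat_lit 16) (.e (nat_lit 286732) (nat_lit 2) (.e (nat_lit 90172) (nat_lit 14) .nil))) (.g (nat_lit 0) (.e (nat_lit 365365) (nat_lit 0) .nil) .nil))))) (.nd (nat_lit 8) (.nd (nat_lit 9) 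
(.lf (nat_lit 575715) (.g (nat_lit 1458) (.e (nat_lit 499456) (nat_lit 12) (.e (nat_lit 385074) (nat_lit 31) (.e (nat_lit 573482) (nat_lit 13) (.e (nat_lit 65619) (nat_lit 10) .nil)))) (.g (nat_lit 0) (.e (nat_lit 363733) (nat_lit 0) .nil) .nil))) 
(.lf (nat_lit 576227) (.g (nat_lit 3758) (.e (nat_lit 319528) (nat_lit 16) (.e (nat_lit 286734) (nat_lit 3) (.e (nat_lit 98370) (nat_lit 28) (.e (nat_lit 442427) (nat_lit 23) (.e (nat_lit 204845) (nat_lit 24) .nil))))) (.g (nat_lit 1) (.e (nat_lit 365119) (nat_lit 0) .nil) .nil)))) (.nd (nat_lit 9) 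
(.lf (nat_lit 575971) (.g (nat_lit 2055) (.e (nat_lit 491571) (nat_lit 13) (.e (nat_lit 393260) (nat_lit 21) (.e (nat_lit 409649) (nat_lit 18) (.e (nat_lit 303108) (nat_lit 0) .nil)))) (.g (nat_lit 0) (.e (nat_lit 364142) (nat_lit 0) .nil) .nil))) 
(.lf (nat_lit 576483) (.g (nat_lit 5315) (.e (nat_lit 319535) (nat_lit 17) (.e (nat_lit 294928) (nat_lit 2) (.e (nat_lit 90178) (nat_lit 15) (.e (nat_lit 188452) (nat_lit 23) (.e (nat_lit 204846) (nat_lit 24) .nil))))) (.g (nat_lit 1) (.e (nat_lit 365574) (nat_lit 0) .nil) .nil)))))))) (.nd (nat_lit 5) (.nd (nat_lit 6) (.nd (nat_lit 7) (.nd (nat_lit 8) (.nd (nat_lit 9) 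
(.lf (nat_lit 575507) (.g (nat_lit 3486) (.e (nat_lit 491562) (nat_lit 12) (.e (nat_lit 385074) (nat_lit 31) (.e (nat_lit 573493) (nat_lit 15) (.e (nat_lit 81953) (nat_lit 22) (.e (nat_lit 90134) (nat_lit 9) (.e (nat_lit 3098) (nat_lit 192) .nil)))))) (.g (nat_lit 1) (.e (nat_lit 363386) (nat_lit 0) .nil) .nil))) 
(.lf (nat_lit 576019) (.g (nat_lit 2544) (.e (nat_lit 491572) (nat_lit 14) (.e (nat_lit 401425) (nat_lit 2) (.e (nat_lit 196666) (nat_lit 13) (.e (nat_lit 65619) (nat_lit 10) (.e (nat_lit 344117) (nat_lit 21) .nil))))) (.g (nat_lit 0) (.e (nat_lit 364292) (nat_lit 0) .nil) .nil)))) (.nd (nat_lit 9) 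
(.lf (nat_lit 575763) (.g (nat_lit 2881) (.e (nat_lit 491568) (nat_lit 13) (.e (nat_lit 393301) (nat_lit 27) (.e (nat_lit 491560) (nat_lit 10) (.e (nat_lit 344097) (nat_lit 18) (.e (nat_lit 6902) (nat_lit 371) .nil))))) (.g (nat_lit 0) (.e (nat_lit 363789) (nat_lit 0) .nil) .nil))) 
(.lf (nat_lit 576275) (.g (nat_lit 366) (.e (nat_lit 319530) (nat_lit 16) (.e (nat_lit 286727) (nat_lit 0) (.e (nat_lit 1715) (nat_lit 117) .nil))) (.g (nat_lit 0) (.e (nat_lit 365195) (nat_lit 0) .nil) .nil))))) (.nd (nat_lit 8) (.nd (nat_lit 9) 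
(.lf (nat_lit 575635) (.g (nat_lit 4888) (.e (nat_lit 491566) (nat_lit 12) (.e (nat_lit 385073) (nat_lit 31) (.e (nat_lit 573493) (nat_lit 15) (.e (nat_lit 81953) (nat_lit 22) (.e (nat_lit 90121) (nat_lit 9) (.e (nat_lit 3097) (nat_lit 192) .nil)))))) (.g (nat_lit 1) (.e (nat_lit 363606) (nat_lit 0) .nil) .nil))) 
(.lf (nat_lit 576147) (.g (nat_lit 1237) (.e (nat_lit 319492) (nat_lit 0) (.e (nat_lit 5664) (nat_lit 312) (.e (nat_lit 3085) (nat_lit 191) (.e (nat_lit 483377) (nat_lit 22) .nil)))) (.g (nat_lit 0) (.e (nat_lit 364729) (nat_lit 0) .nil) .nil)))) (.nd (nat_lit 9) 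
(.lf (nat_lit 575891) (.g (nat_lit 1683) (.e (nat_lit 491570) (nat_lit 13) (.e (nat_lit 393268) (nat_lit 23) (.e (nat_lit 426364) (nat_lit 15) (.e (nat_lit 2160) (nat_lit 143) .nil)))) (.g (nat_lit 0) (.e (nat_lit 363966) (nat_lit 0) .nil) .nil))) 
(.lf (nat_lit 576403) (.g (nat_lit 1754) (.e (nat_lit 319533) (nat_lit 16) (.e (nat_lit 286759) (nat_lit 12) (.e (nat_lit 385109) (nat_lit 51) (.e (nat_lit 794676) (nat_lit 24) .nil)))) (.g (nat_lit 0) (.e (nat_lit 365423) (nat_lit 0) .nil) .nil)))))) (.nd (nat_lit 7) (.nd (nat_lit 8) (.nd (nat_lit 9) 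
(.lf (nat_lit 575571) (.g (nat_lit 876) (.e (nat_lit 491565) (nat_lit 12) (.e (nat_lit 385109) (nat_lit 51) (.e (nat_lit 794684) (nat_lit 25) .nil))) (.g (nat_lit 0) (.e (nat_lit 363479) (nat_lit 0) .nil) .nil))) 
(.lf (nat_lit 576083) (.g (nat_lit 2094) (.e (nat_lit 319490) (nat_lit 0) (.e (nat_lit 5664) (nat_lit 312) (.e (nat_lit 3085) (nat_lit 191) (.e (nat_lit 483377) (nat_lit 22) (.e (nat_lit 335616) (nat_lit 18) (.e (nat_lit 311040) (nat_lit 25) .nil)))))) (.g (nat_lit 1) (.e (nat_lit 364581) (nat_lit 0) .nil) .nil)))) (.nd (nat_lit 9) 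
(.lf (nat_lit 575827) (.g (nat_lit 2230) (.e (nat_lit 491569) (nat_lit 13) (.e (nat_lit 393301) (nat_lit 27) (.e (nat_lit 491559) (nat_lit 10) (.e (nat_lit 344098) (nat_lit 18) .nil)))) (.g (nat_lit 0) (.e (nat_lit 363884) (nat_lit 0) .nil) .nil))) 
(.lf (nat_lit 576339) (.g (nat_lit 1762) (.e (nat_lit 319532) (nat_lit 16) (.e (nat_lit 286733) (nat_lit 2) (.e (nat_lit 90170) (nat_lit 13) (.e (nat_lit 172085) (nat_lit 9) .nil)))) (.g (nat_lit 0) (.e (nat_lit 365327) (nat_lit 0) .nil) .nil))))) (.nd (nat_lit 8) (.nd (nat_lit 9) 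
(.lf (nat_lit 575699) (.g (nat_lit 2082) (.e (nat_lit 491566) (nat_lit 12) (.e (nat_lit 385104) (nat_lit 50) (.e (nat_lit 786485) (nat_lit 32) (.e (nat_lit 376860) (nat_lit 21) (.e (nat_lit 57931) (nat_lit 282) (.e (nat_lit 163945) (nat_lit 20) .nil)))))) (.g (nat_lit 1) (.e (nat_lit 363713) (nat_lit 0) .nil) .nil))) 
(.lf (nat_lit 576211) (.g (nat_lit 2688) (.e (nat_lit 319538) (nat_lit 19) (.e (nat_lit 311357) (nat_lit 28) (.e (nat_lit 344069) (nat_lit 0) (.e (nat_lit 3089) (nat_lit 191) (.e (nat_lit 483372) (nat_lit 21) .nil))))) (.g (nat_lit 1) (.e (nat_lit 365090) (nat_lit 0) .nil) .nil)))) (.nd (nat_lit 9) 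
(.lf (nat_lit 575955) (.g (nat_lit 1892) (.e (nat_lit 491571) (nat_lit 13) (.e (nat_lit 393260) (nat_lit 21) (.e (nat_lit 409616) (nat_lit 10) (.e (nat_lit 5323) (nat_lit 298) .nil)))) (.g (nat_lit 0) (.e (nat_lit 364122) (nat_lit 0) .nil) .nil))) 
(.lf (nat_lit 576467) (.g (nat_lit 1858) (.e (nat_lit 327424) (nat_lit 16) (.e (nat_lit 286733) (nat_lit 2) (.e (nat_lit 90176) (nat_lit 15) (.e (nat_lit 188437) (nat_lit 20) .nil)))) (.g (nat_lit 0) (.e (nat_lit 365550) (nat_lit 0) .nil) .nil))))))) (.nd (nat_lit 6) (.nd (nat_lit 7) (.nd (nat_lit 8) (.nd (nat_lit 9) 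
(.lf (nat_lit 575539) (.g (nat_lit 722) (.e (nat_lit 491564) (nat_lit 12) (.e (nat_lit 385094) (nat_lit 49) (.e (nat_lit 778320) (nat_lit 4) .nil))) (.g (nat_lit 0) (.e (nat_lit 363422) (nat_lit 0) .nil) .nil))) 
(.lf (nat_lit 576051) (.g (nat_lit 242) (.e (nat_lit 499456) (nat_lit 30) (.e (nat_lit 450574) (nat_lit 1) (.e (nat_lit 499846) (nat_lit 5) (.e (nat_lit 7936) (nat_lit 23) .nil)))) (.g (nat_lit 0) (.e (nat_lit 364449) (nat_lit 0) .nil) .nil)))) (.nd (nat_lit 9) 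
(.lf (nat_lit 575795) (.g (nat_lit 1098) (.e (nat_lit 491569) (nat_lit 13) (.e (nat_lit 393296) (nat_lit 26) (.e (nat_lit 475209) (nat_lit 41) (.e (nat_lit 712745) (nat_lit 27) .nil)))) (.g (nat_lit 0) (.e (nat_lit 363850) (nat_lit 0) .nil) .nil))) 
(.lf (nat_lit 576307) (.g (nat_lit 2754) (.e (nat_lit 319531) (nat_lit 16) (.e (nat_lit 286732) (nat_lit 2) (.e (nat_lit 90170) (nat_lit 13) (.e (nat_lit 172095) (nat_lit 9) (.e (nat_lit 426140) (nat_lit 3) (.e (nat_lit 204845) (nat_lit 24) .nil)))))) (.g (nat_lit 1) (.e (nat_lit 365276) (nat_lit 0) .nil) .nil))))) (.nd (nat_lit 8) (.nd (nat_lit 9) 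
(.lf (nat_lit 575667) (.g (nat_lit 4247) (.e (nat_lit 491566) (nat_lit 12) (.e (nat_lit 385074) (nat_lit 31) (.e (nat_lit 573493) (nat_lit 15) (.e (nat_lit 81951) (nat_lit 22) (.e (nat_lit 90128) (nat_lit 9) (.e (nat_lit 3095) (nat_lit 192) .nil)))))) (.g (nat_lit 1) (.e (nat_lit 363653) (nat_lit 0) .nil) .nil))) 
(.lf (nat_lit 576179) (.g (nat_lit 1249) (.e (nat_lit 319505) (nat_lit 10) (.e (nat_lit 618) (nat_lit 48) (.e (nat_lit 557103) (nat_lit 14) (.e (nat_lit 188160) (nat_lit 34) .nil)))) (.g (nat_lit 0) (.e (nat_lit 364953) (nat_lit 0) .nil) .nil)))) (.nd (nat_lit 9) 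
(.lf (nat_lit 575923) (.g (nat_lit 2033) (.e (nat_lit 491571) (nat_lit 13) (.e (nat_lit 393225) (nat_lit 9) (.e (nat_lit 335996) (nat_lit 1) (.e (nat_lit 57921) (nat_lit 280) .nil)))) (.g (nat_lit 0) (.e (nat_lit 364053) (nat_lit 0) .nil) .nil))) 
(.lf (nat_lit 576435) (.g (nat_lit 2868) (.e (nat_lit 319534) (nat_lit 16) (.e (nat_lit 286749) (nat_lit 9) (.e (nat_lit 336048) (nat_lit 6) (.e (nat_lit 147495) (nat_lit 11) (.e (nat_lit 24665) (nat_lit 14) (.e (nat_lit 409344) (nat_lit 25) .nil)))))) (.g (nat_lit 1) (.e (nat_lit 365481) (nat_lit 0) .nil) .nil)))))) (.nd (nat_lit 7) (.nd (nat_lit 8) (.nd (nat_lit 9) 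
(.lf (nat_lit 575603) (.g (nat_lit 4706) (.e (nat_lit 491566) (nat_lit 12) (.e (nat_lit 385072) (nat_lit 31) (.e (nat_lit 573485) (nat_lit 13) (.e (nat_lit 65604) (nat_lit 9) (.e (nat_lit 336013) (nat_lit 2) (.e (nat_lit 90134) (nat_lit 9) (.e (nat_lit 3096) (nat_lit 192) .nil))))))) (.g (nat_lit 1) (.e (nat_lit 363548) (nat_lit 0) .nil) .nil))) 
(.lf (nat_lit 576115) (.g (nat_lit 1598) (.e (nat_lit 319491) (nat_lit 0) (.e (nat_lit 5664) (nat_lit 312) (.e (nat_lit 3085) (nat_lit 191) (.e (nat_lit 483344) (nat_lit 17) .nil)))) (.g (nat_lit 0) (.e (nat_lit 364661) (nat_lit 0) .nil) .nil)))) (.nd (nat_lit 9) 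
(.lf (nat_lit 575859) (.g (nat_lit 2238) (.e (nat_lit 491570) (nat_lit 13) (.e (nat_lit 393238) (nat_lit 17) (.e (nat_lit 6989) (nat_lit 377) (.e (nat_lit 2777) (nat_lit 178) (.e (nat_lit 286767) (nat_lit 27) .nil))))) (.g (nat_lit 0) (.e (nat_lit 363922) (nat_lit 0) .nil) .nil))) 
(.lf (nat_lit 576371) (.g (nat_lit 3854) (.e (nat_lit 319533) (nat_lit 16) (.e (nat_lit 286734) (nat_lit 3) (.e (nat_lit 98370) (nat_lit 28) (.e (nat_lit 442426) (nat_lit 23) (.e (nat_lit 204846) (nat_lit 24) .nil))))) (.g (nat_lit 1) (.e (nat_lit 365385) (nat_lit 0) .nil) .nil))))) (.nd (nat_lit 8) (.nd (nat_lit 9) 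
(.lf (nat_lit 575731) (.g (nat_lit 1050) (.e (nat_lit 491568) (nat_lit 13) (.e (nat_lit 393283) (nat_lit 24) (.e (nat_lit 434271) (nat_lit 38) (.e (nat_lit 655382) (nat_lit 8) .nil)))) (.g (nat_lit 0) (.e (nat_lit 363753) (nat_lit 0) .nil) .nil))) 
(.lf (nat_lit 576243) (.g (nat_lit 3103) (.e (nat_lit 319528) (nat_lit 16) (.e (nat_lit 286735) (nat_lit 3) (.e (nat_lit 98363) (nat_lit 26) (.e (nat_lit 426260) (nat_lit 9) (.e (nat_lit 426129) (nat_lit 3) (.e (nat_lit 204846) (nat_lit 24) .nil)))))) (.g (nat_lit 1) (.e (nat_lit 365135) (nat_lit 0) .nil) .nil)))) (.nd (nat_lit 9) 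
(.lf (nat_lit 575987) (.g (nat_lit 2593) (.e (nat_lit 491571) (nat_lit 13) (.e (nat_lit 393298) (nat_lit 27) (.e (nat_lit 491547) (nat_lit 9) (.e (nat_lit 336369) (nat_lit 27) (.e (nat_lit 426339) (nat_lit 14) .nil))))) (.g (nat_lit 0) (.e (nat_lit 364239) (nat_lit 0) .nil) .nil))) 
(.lf (nat_lit 576499) (.g (nat_lit 800) (.e (nat_lit 327698) (nat_lit 8) (.e (nat_lit 303119) (nat_lit 3) (.e (nat_lit 204848) (nat_lit 25) .nil))) (.g (nat_lit 0) (.e (nat_lit 365967) (nat_lit 0) .nil) .nil))))))))) (.nd (nat_lit 4) (.nd (nat_lit 5) (.nd (nat_lit 6) (.nd (nat_lit 7) (.nd (nat_lit 8) (.nd (nat_lit 9) 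
(.lf (nat_lit 575499) (.g (nat_lit 4156) (.e (nat_lit 491562) (nat_lit 12) (.e (nat_lit 385072) (nat_lit 31) (.e (nat_lit 573493) (nat_lit 15) (.e (nat_lit 81956) (nat_lit 23) (.e (nat_lit 98388) (nat_lit 33) .nil))))) (.g (nat_lit 0) (.e (nat_lit 363377) (nat_lit 0) .nil) .nil))) 
(.lf (nat_lit 576011) (.g (nat_lit 554) (.e (nat_lit 491571) (nat_lit 13) (.e (nat_lit 393299) (nat_lit 27) (.e (nat_lit 499456) (nat_lit 9) .nil))) (.g (nat_lit 0) (.e (nat_lit 364273) (nat_lit 0) .nil) .nil)))) (.nd (nat_lit 9) 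
(.lf (nat_lit 575755) (.g (nat_lit 2167) (.e (nat_lit 491568) (nat_lit 13) (.e (nat_lit 393301) (nat_lit 27) (.e (nat_lit 491560) (nat_lit 10) (.e (nat_lit 344087) (nat_lit 18) (.e (nat_lit 6942) (nat_lit 375) .nil))))) (.g (nat_lit 0) (.e (nat_lit 363781) (nat_lit 0) .nil) .nil))) 
(.lf (nat_lit 576267) (.g (nat_lit 658) (.e (nat_lit 319529) (nat_lit 16) (.e (nat_lit 286735) (nat_lit 3) (.e (nat_lit 98352) (nat_lit 25) .nil))) (.g (nat_lit 0) (.e (nat_lit 365172) (nat_lit 0) .nil) .nil))))) (.nd (nat_lit 8) (.nd (nat_lit 9) 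
(.lf (nat_lit 575627) (.g (nat_lit 2679) (.e (nat_lit 491566) (nat_lit 12) (.e (nat_lit 385073) (nat_lit 31) (.e (nat_lit 573482) (nat_lit 13) (.e (nat_lit 65619) (nat_lit 10) (.e (nat_lit 344117) (nat_lit 21) (.e (nat_lit 524032) (nat_lit 16) .nil)))))) (.g (nat_lit 1) (.e (nat_lit 363577) (nat_lit 0) .nil) .nil))) 
(.lf (nat_lit 576139) (.g (nat_lit 1872) (.e (nat_lit 319491) (nat_lit 0) (.e (nat_lit 5771) (nat_lit 316) (.e (nat_lit 172150) (nat_lit 27) (.e (nat_lit 335894) (nat_lit 0) (.e (nat_lit 6720) (nat_lit 361) (.e (nat_lit 172143) (nat_lit 25) .nil)))))) (.g (nat_lit 1) (.e (nat_lit 364688) (nat_lit 0) .nil) .nil)))) (.nd (nat_lit 9) 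
(.lf (nat_lit 575883) (.g (nat_lit 2217) (.e (nat_lit 491570) (nat_lit 13) (.e (nat_lit 393260) (nat_lit 21) (.e (nat_lit 409623) (nat_lit 10) (.e (nat_lit 5293) (nat_lit 298) (.e (nat_lit 7936) (nat_lit 32) (.e (nat_lit 426340) (nat_lit 14) .nil)))))) (.g (nat_lit 1) (.e (nat_lit 363955) (nat_lit 0) .nil) .nil))) 
(.lf (nat_lit 576395) (.g (nat_lit 3906) (.e (nat_lit 319533) (nat_lit 16) (.e (nat_lit 286753) (nat_lit 10) (.e (nat_lit 344160) (nat_lit 37) (.e (nat_lit 647201) (nat_lit 12) (.e (nat_lit 57575) (nat_lit 55) (.e (nat_lit 778466) (nat_lit 11) (.e (nat_lit 24616) (nat_lit 7) .nil))))))) (.g (nat_lit 1) (.e (nat_lit 365413) (nat_lit 0) .nil) .nil)))))) 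
(.nd (nat_lit 7) (.nd (nat_lit 8) (.nd (nat_lit 9) 
(.lf (nat_lit 575563) (.g (nat_lit 2933) (.e (nat_lit 491565) (nat_lit 12) (.e (nat_lit 385074) (nat_lit 31) (.e (nat_lit 573491) (nat_lit 15) (.e (nat_lit 81951) (nat_lit 22) (.e (nat_lit 90133) (nat_lit 9) (.e (nat_lit 3105) (nat_lit 192) .nil)))))) (.g (nat_lit 1) (.e (nat_lit 363469) (nat_lit 0) .nil) .nil))) 
(.lf (nat_lit 576075) (.g (nat_lit 1672) (.e (nat_lit 319490) (nat_lit 0) (.e (nat_lit 5664) (nat_lit 312) (.e (nat_lit 3085) (nat_lit 191) (.e (nat_lit 483375) (nat_lit 22) .nil)))) (.g (nat_lit 0) (.e (nat_lit 364573) (nat_lit 0) .nil) .nil)))) (.nd (nat_lit 9) 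
(.lf (nat_lit 575819) (.g (nat_lit 2010) (.e (nat_lit 491569) (nat_lit 13) (.e (nat_lit 393301) (nat_lit 27) (.e (nat_lit 491558) (nat_lit 10) (.e (nat_lit 344096) (nat_lit 18) (.e (nat_lit 6869) (nat_lit 371) .nil))))) (.g (nat_lit 0) (.e (nat_lit 363876) (nat_lit 0) .nil) .nil))) 
(.lf (nat_lit 576331) (.g (nat_lit 2009) (.e (nat_lit 319531) (nat_lit 16) (.e (nat_lit 286759) (nat_lit 12) (.e (nat_lit 385094) (nat_lit 49) (.e (nat_lit 778348) (nat_lit 9) .nil)))) (.g (nat_lit 0) (.e (nat_lit 365307) (nat_lit 0) .nil) .nil))))) (.nd (nat_lit 8) (.nd (nat_lit 9) 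
(.lf (nat_lit 575691) (.g (nat_lit 2263) (.e (nat_lit 491566) (nat_lit 12) (.e (nat_lit 385104) (nat_lit 50) (.e (nat_lit 786481) (nat_lit 30) (.e (nat_lit 360481) (nat_lit 15) (.e (nat_lit 647170) (nat_lit 0) (.e (nat_lit 3097) (nat_lit 192) .nil)))))) (.g (nat_lit 1) (.e (nat_lit 363703) (nat_lit 0) .nil) .nil))) 
(.lf (nat_lit 576203) (.g (nat_lit 2721) (.e (nat_lit 319538) (nat_lit 19) (.e (nat_lit 311315) (nat_lit 3) (.e (nat_lit 204846) (nat_lit 24) (.e (nat_lit 319505) (nat_lit 10) (.e (nat_lit 5714) (nat_lit 312) (.e (nat_lit 2681) (nat_lit 168) (.e (nat_lit 204845) (nat_lit 24) .nil))))))) (.g (nat_lit 1) (.e (nat_lit 365082) (nat_lit 0) .nil) .nil)))) (.nd (nat_lit 9) 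
(.lf (nat_lit 575947) (.g (nat_lit 2363) (.e (nat_lit 491571) (nat_lit 13) (.e (nat_lit 393242) (nat_lit 17) (.e (nat_lit 7556) (nat_lit 402) (.e (nat_lit 1428) (nat_lit 108) (.e (nat_lit 336395) (nat_lit 27) (.e (nat_lit 426340) (nat_lit 14) .nil)))))) (.g (nat_lit 1) (.e (nat_lit 364095) (nat_lit 0) .nil) .nil))) 
(.lf (nat_lit 576459) (.g (nat_lit 2081) (.e (nat_lit 319534) (nat_lit 16) (.e (nat_lit 286759) (nat_lit 12) (.e (nat_lit 385109) (nat_lit 51) (.e (nat_lit 794677) (nat_lit 24) (.e (nat_lit 213030) (nat_lit 11) .nil))))) (.g (nat_lit 0) (.e (nat_lit 365507) (nat_lit 0) .nil) .nil))))))) (.nd (nat_lit 6) (.nd (nat_lit 7) (.nd (nat_lit 8) (.nd (nat_lit 9) 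
(.lf (nat_lit 575531) (.g (nat_lit 1551) (.e (nat_lit 491564) (nat_lit 12) (.e (nat_lit 385074) (nat_lit 31) (.e (nat_lit 573491) (nat_lit 15) (.e (nat_lit 81955) (nat_lit 23) .nil)))) (.g (nat_lit 0) (.e (nat_lit 363412) (nat_lit 0) .nil) .nil))) 
(.lf (nat_lit 576043) (.g (nat_lit 332) (.e (nat_lit 491580) (nat_lit 27) (.e (nat_lit 426211) (nat_lit 9) (.e (nat_lit 426125) (nat_lit 2) .nil))) (.g (nat_lit 0) (.e (nat_lit 364407) (nat_lit 0) .nil) .nil)))) (.nd (nat_lit 9) 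
(.lf (nat_lit 575787) (.g (nat_lit 1596) (.e (nat_lit 491569) (nat_lit 13) (.e (nat_lit 393294) (nat_lit 26) (.e (nat_lit 475209) (nat_lit 41) (.e (nat_lit 712745) (nat_lit 27) .nil)))) (.g (nat_lit 0) (.e (nat_lit 363841) (nat_lit 0) .nil) .nil))) 
(.lf (nat_lit 576299) (.g (nat_lit 2359) (.e (nat_lit 319530) (nat_lit 16) (.e (nat_lit 286759) (nat_lit 12) (.e (nat_lit 385094) (nat_lit 49) (.e (nat_lit 778509) (nat_lit 14) .nil)))) (.g (nat_lit 0) (.e (nat_lit 365240) (nat_lit 0) .nil) .nil))))) (.nd (nat_lit 8) (.nd (nat_lit 9) 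
(.lf (nat_lit 575659) (.g (nat_lit 3473) (.e (nat_lit 491566) (nat_lit 12) (.e (nat_lit 385074) (nat_lit 31) (.e (nat_lit 573485) (nat_lit 13) (.e (nat_lit 65619) (nat_lit 10) (.e (nat_lit 344117) (nat_lit 21) (.e (nat_lit 524032) (nat_lit 16) .nil)))))) (.g (nat_lit 1) (.e (nat_lit 363641) (nat_lit 0) .nil) .nil))) 
(.lf (nat_lit 576171) (.g (nat_lit 507) (.e (nat_lit 327424) (nat_lit 8) (.e (nat_lit 303145) (nat_lit 13) (.e (nat_lit 483405) (nat_lit 26) .nil))) (.g (nat_lit 0) (.e (nat_lit 364873) (nat_lit 0) .nil) .nil)))) (.nd (nat_lit 9) 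
(.lf (nat_lit 575915) (.g (nat_lit 1041) (.e (nat_lit 491570) (nat_lit 13) (.e (nat_lit 393298) (nat_lit 27) (.e (nat_lit 491548) (nat_lit 9) (.e (nat_lit 336395) (nat_lit 27) .nil)))) (.g (nat_lit 0) (.e (nat_lit 364035) (nat_lit 0) .nil) .nil))) 
(.lf (nat_lit 576427) (.g (nat_lit 2811) (.e (nat_lit 319534) (nat_lit 16) (.e (nat_lit 286749) (nat_lit 9) (.e (nat_lit 335997) (nat_lit 1) (.e (nat_lit 57689) (nat_lit 156) (.e (nat_lit 163864) (nat_lit 1) (.e (nat_lit 164332) (nat_lit 230) (.e (nat_lit 163905) (nat_lit 12) (.e (nat_lit 426472) (nat_lit 25) .nil)))))))) (.g (nat_lit 1) (.e (nat_lit 365473) (nat_lit 0) .nil) .nil)))))) 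
(.nd (nat_lit 7) (.nd (nat_lit 8) (.nd (nat_lit 9) 
(.lf (nat_lit 575595) (.g (nat_lit 1138) (.e (nat_lit 491566) (nat_lit 12) (.e (nat_lit 392960) (nat_lit 24) (.e (nat_lit 516158) (nat_lit 9) (.e (nat_lit 426327) (nat_lit 13) (.e (nat_lit 491264) (nat_lit 16) .nil))))) (.g (nat_lit 1) (.e (nat_lit 363540) (nat_lit 0) .nil) .nil))) 
(.lf (nat_lit 576107) (.g (nat_lit 3690) (.e (nat_lit 319491) (nat_lit 0) (.e (nat_lit 5664) (nat_lit 312) (.e (nat_lit 2887) (nat_lit 184) (.e (nat_lit 426499) (nat_lit 27) (.e (nat_lit 335895) (nat_lit 0) (.e (nat_lit 6720) (nat_lit 361) (.e (nat_lit 172143) (nat_lit 25) .nil))))))) (.g (nat_lit 1) (.e (nat_lit 364639) (nat_lit 0) .nil) .nil)))) (.nd (nat_lit 9) 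
(.lf (nat_lit 575851) (.g (nat_lit 4003) (.e (nat_lit 491569) (nat_lit 13) (.e (nat_lit 393301) (nat_lit 27) (.e (nat_lit 491560) (nat_lit 10) (.e (nat_lit 344179) (nat_lit 44) (.e (nat_lit 778265) (nat_lit 0) (.e (nat_lit 7936) (nat_lit 40) .nil)))))) (.g (nat_lit 1) (.e (nat_lit 363908) (nat_lit 0) .nil) .nil))) 
(.lf (nat_lit 576363) (.g (nat_lit 2476) (.e (nat_lit 319533) (nat_lit 16) (.e (nat_lit 286733) (nat_lit 2) (.e (nat_lit 90170) (nat_lit 13) (.e (nat_lit 172049) (nat_lit 0) .nil)))) (.g (nat_lit 0) (.e (nat_lit 365376) (nat_lit 0) .nil) .nil))))) (.nd (nat_lit 8) (.nd (nat_lit 9) 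
(.lf (nat_lit 575723) (.g (nat_lit 769) (.e (nat_lit 491568) (nat_lit 13) (.e (nat_lit 393271) (nat_lit 23) (.e (nat_lit 425986) (nat_lit 0) .nil))) (.g (nat_lit 0) (.e (nat_lit 363744) (nat_lit 0) .nil) .nil))) 
(.lf (nat_lit 576235) (.g (nat_lit 1514) (.e (nat_lit 319528) (nat_lit 16) (.e (nat_lit 286735) (nat_lit 3) (.e (nat_lit 98349) (nat_lit 24) (.e (nat_lit 417536) (nat_lit 8) .nil)))) (.g (nat_lit 0) (.e (nat_lit 365127) (nat_lit 0) .nil) .nil)))) (.nd (nat_lit 9) 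
(.lf (nat_lit 575979) (.g (nat_lit 3591) (.e (nat_lit 491571) (nat_lit 13) (.e (nat_lit 393292) (nat_lit 26) (.e (nat_lit 475198) (nat_lit 40) (.e (nat_lit 704592) (nat_lit 4) (.e (nat_lit 172126) (nat_lit 14) .nil))))) (.g (nat_lit 1) (.e (nat_lit 364214) (nat_lit 0) .nil) .nil))) 
(.lf (nat_lit 576491) (.g (nat_lit 1707) (.e (nat_lit 327698) (nat_lit 8) (.e (nat_lit 303117) (nat_lit 2) (.e (nat_lit 196670) (nat_lit 14) (.e (nat_lit 73781) (nat_lit 32) .nil)))) (.g (nat_lit 0) (.e (nat_lit 365957) (nat_lit 0) .nil) .nil)))))))) (.nd (nat_lit 5) (.nd (nat_lit 6) (.nd (nat_lit 7) (.nd (nat_lit 8) (.nd (nat_lit 9) 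
(.lf (nat_lit 575515) (.g (nat_lit 2385) (.e (nat_lit 491564) (nat_lit 12) (.e (nat_lit 385072) (nat_lit 31) (.e (nat_lit 573481) (nat_lit 13) (.e (nat_lit 65619) (nat_lit 10) (.e (nat_lit 344117) (nat_lit 21) .nil))))) (.g (nat_lit 0) (.e (nat_lit 363395) (nat_lit 0) .nil) .nil))) 
(.lf (nat_lit 576027) (.g (nat_lit 3612) (.e (nat_lit 491572) (nat_lit 14) (.e (nat_lit 401459) (nat_lit 13) (.e (nat_lit 483372) (nat_lit 21) (.e (nat_lit 319511) (nat_lit 10) .nil)))) (.g (nat_lit 0) (.e (nat_lit 364305) (nat_lit 0) .nil) .nil)))) (.nd (nat_lit 9) 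
(.lf (nat_lit 575771) (.g (nat_lit 1023) (.e (nat_lit 491569) (nat_lit 13) (.e (nat_lit 393234) (nat_lit 17) (.e (nat_lit 7110) (nat_lit 380) (.e (nat_lit 164340) (nat_lit 232) .nil)))) (.g (nat_lit 0) (.e (nat_lit 363803) (nat_lit 0) .nil) .nil))) 
(.lf (nat_lit 576283) (.g (nat_lit 1734) (.e (nat_lit 319530) (nat_lit 16) (.e (nat_lit 286734) (nat_lit 3) (.e (nat_lit 98358) (nat_lit 26) (.e (nat_lit 426227) (nat_lit 9) .nil)))) (.g (nat_lit 0) (.e (nat_lit 365224) (nat_lit 0) .nil) .nil))))) (.nd (nat_lit 8) (.nd (nat_lit 9) 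
(.lf (nat_lit 575643) (.g (nat_lit 2556) (.e (nat_lit 491566) (nat_lit 12) (.e (nat_lit 385073) (nat_lit 31) (.e (nat_lit 573493) (nat_lit 15) (.e (nat_lit 81953) (nat_lit 22) (.e (nat_lit 90134) (nat_lit 9) (.e (nat_lit 3097) (nat_lit 192) .nil)))))) (.g (nat_lit 1) (.e (nat_lit 363614) (nat_lit 0) .nil) .nil))) 
(.lf (nat_lit 576155) (.g (nat_lit 1413) (.e (nat_lit 319493) (nat_lit 0) (.e (nat_lit 5664) (nat_lit 312) (.e (nat_lit 3085) (nat_lit 191) (.e (nat_lit 483412) (nat_lit 27) .nil)))) (.g (nat_lit 0) (.e (nat_lit 364758) (nat_lit 0) .nil) .nil)))) (.nd (nat_lit 9) 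
(.lf (nat_lit 575899) (.g (nat_lit 3190) (.e (nat_lit 491570) (nat_lit 13) (.e (nat_lit 393282) (nat_lit 24) (.e (nat_lit 434272) (nat_lit 38) (.e (nat_lit 655378) (nat_lit 4) (.e (nat_lit 172124) (nat_lit 14) .nil))))) (.g (nat_lit 1) (.e (nat_lit 363998) (nat_lit 0) .nil) .nil))) 
(.lf (nat_lit 576411) (.g (nat_lit 1930) (.e (nat_lit 319534) (nat_lit 16) (.e (nat_lit 286732) (nat_lit 2) (.e (nat_lit 90185) (nat_lit 17) (.e (nat_lit 237610) (nat_lit 9) .nil)))) (.g (nat_lit 0) (.e (nat_lit 365453) (nat_lit 0) .nil) .nil)))))) (.nd (nat_lit 7) (.nd (nat_lit 8) (.nd (nat_lit 9) 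
(.lf (nat_lit 575579) (.g (nat_lit 2039) (.e (nat_lit 491566) (nat_lit 12) (.e (nat_lit 385068) (nat_lit 26) (.e (nat_lit 532501) (nat_lit 1) (.e (nat_lit 57852) (nat_lit 252) .nil)))) (.g (nat_lit 0) (.e (nat_lit 363515) (nat_lit 0) .nil) .nil))) 
(.lf (nat_lit 576091) (.g (nat_lit 3610) (.e (nat_lit 319490) (nat_lit 0) (.e (nat_lit 5664) (nat_lit 312) (.e (nat_lit 3085) (nat_lit 191) (.e (nat_lit 483412) (nat_lit 27) (.e (nat_lit 401444) (nat_lit 9) (.e (nat_lit 433920) (nat_lit 25) .nil)))))) (.g (nat_lit 1) (.e (nat_lit 364590) (nat_lit 0) .nil) .nil)))) (.nd (nat_lit 9) 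
(.lf (nat_lit 575835) (.g (nat_lit 3631) (.e (nat_lit 491569) (nat_lit 13) (.e (nat_lit 393301) (nat_lit 27) (.e (nat_lit 491560) (nat_lit 10) (.e (nat_lit 344090) (nat_lit 18) (.e (nat_lit 6923) (nat_lit 371) (.e (nat_lit 2427) (nat_lit 157) (.e (nat_lit 3104) (nat_lit 192) .nil))))))) (.g (nat_lit 1) (.e (nat_lit 363892) (nat_lit 0) .nil) .nil))) 
(.lf (nat_lit 576347) (.g (nat_lit 667) (.e (nat_lit 319532) (nat_lit 16) (.e (nat_lit 286735) (nat_lit 3) (.e (nat_lit 98365) (nat_lit 26) .nil))) (.g (nat_lit 0) (.e (nat_lit 365341) (nat_lit 0) .nil) .nil))))) (.nd (nat_lit 8) (.nd (nat_lit 9) 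
(.lf (nat_lit 575707) (.g (nat_lit 3094) (.e (nat_lit 491566) (nat_lit 12) (.e (nat_lit 385105) (nat_lit 50) (.e (nat_lit 786483) (nat_lit 30) (.e (nat_lit 360451) (nat_lit 0) (.e (nat_lit 5584) (nat_lit 310) (.e (nat_lit 163946) (nat_lit 20) .nil)))))) (.g (nat_lit 1) (.e (nat_lit 363723) (nat_lit 0) .nil) .nil))) 
(.lf (nat_lit 576219) (.g (nat_lit 4927) (.e (nat_lit 319539) (nat_lit 19) (.e (nat_lit 311315) (nat_lit 3) (.e (nat_lit 204846) (nat_lit 24) (.e (nat_lit 319534) (nat_lit 16) (.e (nat_lit 286728) (nat_lit 0) (.e (nat_lit 1842) (nat_lit 123) (.e (nat_lit 548874) (nat_lit 5) (.e (nat_lit 1401) (nat_lit 106) .nil)))))))) (.g (nat_lit 1) (.e (nat_lit 365100) (nat_lit 0) .nil) .nil)))) 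
(.nd (nat_lit 9) 
(.lf (nat_lit 575963) (.g (nat_lit 948) (.e (nat_lit 491571) (nat_lit 13) (.e (nat_lit 393260) (nat_lit 21) (.e (nat_lit 409618) (nat_lit 10) (.e (nat_lit 5364) (nat_lit 298) (.e (nat_lit 7936) (nat_lit 32) .nil))))) (.g (nat_lit 0) (.e (nat_lit 364130) (nat_lit 0) .nil) .nil))) 
(.lf (nat_lit 576475) (.g (nat_lit 1792) (.e (nat_lit 327424) (nat_lit 16) (.e (nat_lit 286735) (nat_lit 3) (.e (nat_lit 98365) (nat_lit 26) (.e (nat_lit 426296) (nat_lit 11) .nil)))) (.g (nat_lit 0) (.e (nat_lit 365559) (nat_lit 0) .nil) .nil))))))) (.nd (nat_lit 6) (.nd (nat_lit 7) (.nd (nat_lit 8) (.nd (nat_lit 9) 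
(.lf (nat_lit 575547) (.g (nat_lit 491) (.e (nat_lit 491565) (nat_lit 12) (.e (nat_lit 385072) (nat_lit 31) (.e (nat_lit 573491) (nat_lit 15) .nil))) (.g (nat_lit 0) (.e (nat_lit 363432) (nat_lit 0) .nil) .nil))) 
(.lf (nat_lit 576059) (.g (nat_lit 6145) (.e (nat_lit 319490) (nat_lit 0) (.e (nat_lit 5664) (nat_lit 312) (.e (nat_lit 2679) (nat_lit 168) (.e (nat_lit 204849) (nat_lit 25) (.e (nat_lit 327699) (nat_lit 8) (.e (nat_lit 303119) (nat_lit 3) (.e (nat_lit 204846) (nat_lit 24) .nil))))))) (.g (nat_lit 1) (.e (nat_lit 364540) (nat_lit 0) .nil) .nil)))) (.nd (nat_lit 9) 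
(.lf (nat_lit 575803) (.g (nat_lit 1809) (.e (nat_lit 491569) (nat_lit 13) (.e (nat_lit 393301) (nat_lit 27) (.e (nat_lit 491526) (nat_lit 0) (.e (nat_lit 6493) (nat_lit 343) (.e (nat_lit 401) (nat_lit 32) .nil))))) (.g (nat_lit 0) (.e (nat_lit 363858) (nat_lit 0) .nil) .nil))) 
(.lf (nat_lit 576315) (.g (nat_lit 2007) (.e (nat_lit 319531) (nat_lit 16) (.e (nat_lit 286734) (nat_lit 3) (.e (nat_lit 98350) (nat_lit 24) (.e (nat_lit 409603) (nat_lit 0) .nil)))) (.g (nat_lit 0) (.e (nat_lit 365290) (nat_lit 0) .nil) .nil))))) (.nd (nat_lit 8) (.nd (nat_lit 9) 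
(.lf (nat_lit 575675) (.g (nat_lit 1846) (.e (nat_lit 491566) (nat_lit 12) (.e (nat_lit 385074) (nat_lit 31) (.e (nat_lit 573493) (nat_lit 15) (.e (nat_lit 81953) (nat_lit 22) (.e (nat_lit 90133) (nat_lit 9) (.e (nat_lit 7936) (nat_lit 192) .nil)))))) (.g (nat_lit 1) (.e (nat_lit 363661) (nat_lit 0) .nil) .nil))) 
(.lf (nat_lit 576187) (.g (nat_lit 303) (.e (nat_lit 319511) (nat_lit 10) (.e (nat_lit 5293) (nat_lit 298) (.e (nat_lit 1633) (nat_lit 114) .nil))) (.g (nat_lit 0) (.e (nat_lit 364986) (nat_lit 0) .nil) .nil)))) (.nd (nat_lit 9) 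
(.lf (nat_lit 575931) (.g (nat_lit 3501) (.e (nat_lit 491571) (nat_lit 13) (.e (nat_lit 393238) (nat_lit 17) (.e (nat_lit 6989) (nat_lit 377) (.e (nat_lit 2777) (nat_lit 178) (.e (nat_lit 294656) (nat_lit 27) (.e (nat_lit 426337) (nat_lit 14) .nil)))))) (.g (nat_lit 1) (.e (nat_lit 364069) (nat_lit 0) .nil) .nil))) 
(.lf (nat_lit 576443) (.g (nat_lit 2830) (.e (nat_lit 319534) (nat_lit 16) (.e (nat_lit 286756) (nat_lit 10) (.e (nat_lit 344160) (nat_lit 37) (.e (nat_lit 647190) (nat_lit 9) (.e (nat_lit 1029) (nat_lit 81) (.e (nat_lit 2346) (nat_lit 151) (.e (nat_lit 778466) (nat_lit 11) (.e (nat_lit 24617) (nat_lit 7) .nil)))))))) (.g (nat_lit 1) (.e (nat_lit 365489) (nat_lit 0) .nil) .nil)))))) 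
(.nd (nat_lit 7) (.nd (nat_lit 8) (.nd (nat_lit 9) 
(.lf (nat_lit 575611) (.g (nat_lit 4470) (.e (nat_lit 491566) (nat_lit 12) (.e (nat_lit 385072) (nat_lit 31) (.e (nat_lit 573492) (nat_lit 15) (.e (nat_lit 81953) (nat_lit 22) (.e (nat_lit 90128) (nat_lit 9) (.e (nat_lit 3095) (nat_lit 192) .nil)))))) (.g (nat_lit 1) (.e (nat_lit 363556) (nat_lit 0) .nil) .nil))) 
(.lf (nat_lit 576123) (.g (nat_lit 2634) (.e (nat_lit 319491) (nat_lit 0) (.e (nat_lit 5664) (nat_lit 312) (.e (nat_lit 3085) (nat_lit 191) (.e (nat_lit 483410) (nat_lit 27) (.e (nat_lit 401440) (nat_lit 9) .nil))))) (.g (nat_lit 0) (.e (nat_lit 364670) (nat_lit 0) .nil) .nil)))) (.nd (nat_lit 9) 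
(.lf (nat_lit 575867) (.g (nat_lit 2058) (.e (nat_lit 491570) (nat_lit 13) (.e (nat_lit 393251) (nat_lit 18) (.e (nat_lit 164179) (nat_lit 154) (.e (nat_lit 57421) (nat_lit 13) .nil)))) (.g (nat_lit 0) (.e (nat_lit 363932) (nat_lit 0) .nil) .nil))) 
(.lf (nat_lit 576379) (.g (nat_lit 2954) (.e (nat_lit 319533) (nat_lit 16) (.e (nat_lit 286735) (nat_lit 3) (.e (nat_lit 98356) (nat_lit 26) (.e (nat_lit 426254) (nat_lit 9) (.e (nat_lit 426129) (nat_lit 3) .nil))))) (.g (nat_lit 0) (.e (nat_lit 365395) (nat_lit 0) .nil) .nil))))) (.nd (nat_lit 8) (.nd (nat_lit 9) 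
(.lf (nat_lit 575739) (.g (nat_lit 968) (.e (nat_lit 491568) (nat_lit 13) (.e (nat_lit 393294) (nat_lit 26) (.e (nat_lit 475196) (nat_lit 40) .nil))) (.g (nat_lit 0) (.e (nat_lit 363762) (nat_lit 0) .nil) .nil))) 
(.lf (nat_lit 576251) (.g (nat_lit 1258) (.e (nat_lit 319528) (nat_lit 16) (.e (nat_lit 286735) (nat_lit 3) (.e (nat_lit 98368) (nat_lit 27) (.e (nat_lit 442112) (nat_lit 8) .nil)))) (.g (nat_lit 0) (.e (nat_lit 365143) (nat_lit 0) .nil) .nil)))) (.nd (nat_lit 9) 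
(.lf (nat_lit 575995) (.g (nat_lit 2256) (.e (nat_lit 491571) (nat_lit 13) (.e (nat_lit 393298) (nat_lit 27) (.e (nat_lit 491550) (nat_lit 9) (.e (nat_lit 336367) (nat_lit 27) .nil)))) (.g (nat_lit 0) (.e (nat_lit 364247) (nat_lit 0) .nil) .nil))) 
(.lf (nat_lit 576507) (.g (nat_lit 1622) (.e (nat_lit 327699) (nat_lit 8) (.e (nat_lit 303117) (nat_lit 2) (.e (nat_lit 196666) (nat_lit 13) (.e (nat_lit 65630) (nat_lit 14) .nil)))) (.g (nat_lit 0) (.e (nat_lit 366033) (nat_lit 0) .nil) .nil)))))))))) (.nd (nat_lit 3) (.nd (nat_lit 4) (.nd (nat_lit 5) (.nd (nat_lit 6) (.nd (nat_lit 7) (.nd (nat_lit 8) (.nd (nat_lit 9) 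
(.lf (nat_lit 575495) (.g (nat_lit 1412) (.e (nat_lit 491560) (nat_lit 10) (.e (nat_lit 344179) (nat_lit 44) (.e (nat_lit 778466) (nat_lit 11) (.e (nat_lit 24625) (nat_lit 9) .nil)))) (.g (nat_lit 0) (.e (nat_lit 363371) (nat_lit 0) .nil) .nil))) 
(.lf (nat_lit 576007) (.g (nat_lit 1601) (.e (nat_lit 491571) (nat_lit 13) (.e (nat_lit 393299) (nat_lit 27) (.e (nat_lit 491551) (nat_lit 9) (.e (nat_lit 336417) (nat_lit 27) .nil)))) (.g (nat_lit 0) (.e (nat_lit 364269) (nat_lit 0) .nil) .nil)))) (.nd (nat_lit 9) 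
(.lf (nat_lit 575751) (.g (nat_lit 2331) (.e (nat_lit 491568) (nat_lit 13) (.e (nat_lit 393301) (nat_lit 27) (.e (nat_lit 491559) (nat_lit 10) (.e (nat_lit 344091) (nat_lit 18) (.e (nat_lit 6852) (nat_lit 371) .nil))))) (.g (nat_lit 0) (.e (nat_lit 363777) (nat_lit 0) .nil) .nil))) 
(.lf (nat_lit 576263) (.g (nat_lit 3963) (.e (nat_lit 319529) (nat_lit 16) (.e (nat_lit 286733) (nat_lit 2) (.e (nat_lit 90177) (nat_lit 15) (.e (nat_lit 188452) (nat_lit 23) (.e (nat_lit 204846) (nat_lit 24) .nil))))) (.g (nat_lit 1) (.e (nat_lit 365167) (nat_lit 0) .nil) .nil))))) (.nd (nat_lit 8) (.nd (nat_lit 9) 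
(.lf (nat_lit 575623) (.g (nat_lit 3847) (.e (nat_lit 491566) (nat_lit 12) (.e (nat_lit 385072) (nat_lit 31) (.e (nat_lit 573493) (nat_lit 15) (.e (nat_lit 81954) (nat_lit 23) (.e (nat_lit 98387) (nat_lit 33) .nil))))) (.g (nat_lit 0) (.e (nat_lit 363568) (nat_lit 0) .nil) .nil))) 
(.lf (nat_lit 576135) (.g (nat_lit 2220) (.e (nat_lit 319491) (nat_lit 0) (.e (nat_lit 5664) (nat_lit 312) (.e (nat_lit 3085) (nat_lit 191) (.e (nat_lit 483413) (nat_lit 27) (.e (nat_lit 401440) (nat_lit 9) (.e (nat_lit 433920) (nat_lit 25) .nil)))))) (.g (nat_lit 1) (.e (nat_lit 364682) (nat_lit 0) .nil) .nil)))) (.nd (nat_lit 9) 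
(.lf (nat_lit 575879) (.g (nat_lit 486) (.e (nat_lit 491570) (nat_lit 13) (.e (nat_lit 393260) (nat_lit 21) (.e (nat_lit 409618) (nat_lit 10) .nil))) (.g (nat_lit 0) (.e (nat_lit 363951) (nat_lit 0) .nil) .nil))) 
(.lf (nat_lit 576391) (.g (nat_lit 1728) (.e (nat_lit 319533) (nat_lit 16) (.e (nat_lit 286735) (nat_lit 3) (.e (nat_lit 98381) (nat_lit 31) (.e (nat_lit 474880) (nat_lit 23) .nil)))) (.g (nat_lit 0) (.e (nat_lit 365409) (nat_lit 0) .nil) .nil)))))) (.nd (nat_lit 7) (.nd (nat_lit 8) (.nd (nat_lit 9) 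
(.lf (nat_lit 575559) (.g (nat_lit 2100) (.e (nat_lit 491565) (nat_lit 12) (.e (nat_lit 385074) (nat_lit 31) (.e (nat_lit 573482) (nat_lit 13) (.e (nat_lit 65603) (nat_lit 9) .nil)))) (.g (nat_lit 0) (.e (nat_lit 363465) (nat_lit 0) .nil) .nil))) 
(.lf (nat_lit 576071) (.g (nat_lit 3139) (.e (nat_lit 319490) (nat_lit 0) (.e (nat_lit 5664) (nat_lit 312) (.e (nat_lit 3085) (nat_lit 191) (.e (nat_lit 483346) (nat_lit 17) (.e (nat_lit 6718) (nat_lit 361) (.e (nat_lit 172143) (nat_lit 25) .nil)))))) (.g (nat_lit 1) (.e (nat_lit 364569) (nat_lit 0) .nil) .nil)))) (.nd (nat_lit 9) 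
(.lf (nat_lit 575815) (.g (nat_lit 2982) (.e (nat_lit 491569) (nat_lit 13) (.e (nat_lit 393301) (nat_lit 27) (.e (nat_lit 491558) (nat_lit 10) (.e (nat_lit 344091) (nat_lit 18) (.e (nat_lit 6923) (nat_lit 371) (.e (nat_lit 2477) (nat_lit 157) (.e (nat_lit 3096) (nat_lit 192) .nil))))))) (.g (nat_lit 1) (.e (nat_lit 363872) (nat_lit 0) .nil) .nil))) 
(.lf (nat_lit 576327) (.g (nat_lit 2074) (.e (nat_lit 319531) (nat_lit 16) (.e (nat_lit 286748) (nat_lit 9) (.e (nat_lit 336295) (nat_lit 15) (.e (nat_lit 3632) (nat_lit 227) (.e (nat_lit 778441) (nat_lit 9) (.e (nat_lit 2458) (nat_lit 157) (.e (nat_lit 3613) (nat_lit 226) (.e (nat_lit 770072) (nat_lit 8) (.e (nat_lit 65586) (nat_lit 7) .nil))))))))) (.g (nat_lit 1) (.e (nat_lit 365303) (nat_lit 0) .nil) .nil))))) 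
(.nd (nat_lit 8) (.nd (nat_lit 9) 
(.lf (nat_lit 575687) (.g (nat_lit 1614) (.e (nat_lit 491566) (nat_lit 12) (.e (nat_lit 385093) (nat_lit 49) (.e (nat_lit 778327) (nat_lit 6) (.e (nat_lit 81959) (nat_lit 24) (.e (nat_lit 123229) (nat_lit 282) .nil))))) (.g (nat_lit 0) (.e (nat_lit 363687) (nat_lit 0) .nil) .nil))) 
(.lf (nat_lit 576199) (.g (nat_lit 2777) (.e (nat_lit 319537) (nat_lit 19) (.e (nat_lit 311315) (nat_lit 3) (.e (nat_lit 204846) (nat_lit 24) (.e (nat_lit 319533) (nat_lit 16) (.e (nat_lit 286724) (nat_lit 0) (.e (nat_lit 1841) (nat_lit 123) (.e (nat_lit 548874) (nat_lit 5) (.e (nat_lit 1401) (nat_lit 106) .nil)))))))) (.g (nat_lit 1) (.e (nat_lit 365077) (nat_lit 0) .nil) .nil)))) 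
(.nd (nat_lit 9) 
(.lf (nat_lit 575943) (.g (nat_lit 1871) (.e (nat_lit 491571) (nat_lit 13) (.e (nat_lit 393242) (nat_lit 17) (.e (nat_lit 7095) (nat_lit 380) (.e (nat_lit 164339) (nat_lit 232) (.e (nat_lit 403) (nat_lit 32) (.e (nat_lit 426340) (nat_lit 14) .nil)))))) (.g (nat_lit 1) (.e (nat_lit 364086) (nat_lit 0) .nil) .nil))) 
(.lf (nat_lit 576455) (.g (nat_lit 2017) (.e (nat_lit 319534) (nat_lit 16) (.e (nat_lit 286759) (nat_lit 12) (.e (nat_lit 385094) (nat_lit 49) (.e (nat_lit 778486) (nat_lit 12) (.e (nat_lit 164043) (nat_lit 55) .nil))))) (.g (nat_lit 0) (.e (nat_lit 365503) (nat_lit 0) .nil) .nil))))))) (.nd (nat_lit 6) (.nd (nat_lit 7) (.nd (nat_lit 8) (.nd (nat_lit 9) 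
(.lf (nat_lit 575527) (.g (nat_lit 2086) (.e (nat_lit 491564) (nat_lit 12) (.e (nat_lit 385074) (nat_lit 31) (.e (nat_lit 573482) (nat_lit 13) (.e (nat_lit 65619) (nat_lit 10) (.e (nat_lit 344117) (nat_lit 21) .nil))))) (.g (nat_lit 0) (.e (nat_lit 363407) (nat_lit 0) .nil) .nil))) 
(.lf (nat_lit 576039) (.g (nat_lit 1836) (.e (nat_lit 499456) (nat_lit 25) (.e (nat_lit 409646) (nat_lit 18) (.e (nat_lit 303143) (nat_lit 12) (.e (nat_lit 475191) (nat_lit 36) .nil)))) (.g (nat_lit 0) (.e (nat_lit 364379) (nat_lit 0) .nil) .nil)))) (.nd (nat_lit 9) 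
(.lf (nat_lit 575783) (.g (nat_lit 946) (.e (nat_lit 491569) (nat_lit 13) (.e (nat_lit 393291) (nat_lit 26) (.e (nat_lit 475197) (nat_lit 40) .nil))) (.g (nat_lit 0) (.e (nat_lit 363836) (nat_lit 0) .nil) .nil))) 
(.lf (nat_lit 576295) (.g (nat_lit 2644) (.e (nat_lit 319530) (nat_lit 16) (.e (nat_lit 286748) (nat_lit 9) (.e (nat_lit 336295) (nat_lit 15) (.e (nat_lit 3632) (nat_lit 227) (.e (nat_lit 778567) (nat_lit 15) (.e (nat_lit 65280) (nat_lit 115) (.e (nat_lit 770072) (nat_lit 8) (.e (nat_lit 65583) (nat_lit 7) .nil)))))))) (.g (nat_lit 1) (.e (nat_lit 365236) (nat_lit 0) .nil) .nil))))) 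
(.nd (nat_lit 8) (.nd (nat_lit 9) 
(.lf (nat_lit 575655) (.g (nat_lit 4140) (.e (nat_lit 491566) (nat_lit 12) (.e (nat_lit 385074) (nat_lit 31) (.e (nat_lit 573484) (nat_lit 13) (.e (nat_lit 65610) (nat_lit 10) (.e (nat_lit 344117) (nat_lit 21) (.e (nat_lit 524032) (nat_lit 16) .nil)))))) (.g (nat_lit 1) (.e (nat_lit 363632) (nat_lit 0) .nil) .nil))) 
(.lf (nat_lit 576167) (.g (nat_lit 1920) (.e (nat_lit 327424) (nat_lit 8) (.e (nat_lit 303119) (nat_lit 3) (.e (nat_lit 204869) (nat_lit 29) (.e (nat_lit 360474) (nat_lit 8) (.e (nat_lit 557072) (nat_lit 9) .nil))))) (.g (nat_lit 0) (.e (nat_lit 364804) (nat_lit 0) .nil) .nil)))) (.nd (nat_lit 9) 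
(.lf (nat_lit 575911) (.g (nat_lit 753) (.e (nat_lit 491570) (nat_lit 13) (.e (nat_lit 393294) (nat_lit 26) (.e (nat_lit 475207) (nat_lit 41) .nil))) (.g (nat_lit 0) (.e (nat_lit 364031) (nat_lit 0) .nil) .nil))) 
(.lf (nat_lit 576423) (.g (nat_lit 3163) (.e (nat_lit 319534) (nat_lit 16) (.e (nat_lit 286749) (nat_lit 9) (.e (nat_lit 335997) (nat_lit 1) (.e (nat_lit 57688) (nat_lit 156) (.e (nat_lit 163860) (nat_lit 1) (.e (nat_lit 164332) (nat_lit 230) (.e (nat_lit 163905) (nat_lit 12) (.e (nat_lit 426472) (nat_lit 25) .nil)))))))) (.g (nat_lit 1) (.e (nat_lit 365469) (nat_lit 0) .nil) .nil)))))) 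
(.nd (nat_lit 7) (.nd (nat_lit 8) (.nd (nat_lit 9) 
(.lf (nat_lit 575591) (.g (nat_lit 865) (.e (nat_lit 491566) (nat_lit 12) (.e (nat_lit 392960) (nat_lit 24) (.e (nat_lit 516154) (nat_lit 9) (.e (nat_lit 426330) (nat_lit 13) (.e (nat_lit 491264) (nat_lit 16) .nil))))) (.g (nat_lit 1) (.e (nat_lit 363532) (nat_lit 0) .nil) .nil))) 
(.lf (nat_lit 576103) (.g (nat_lit 3060) (.e (nat_lit 319491) (nat_lit 0) (.e (nat_lit 5626) (nat_lit 312) (.e (nat_lit 2685) (nat_lit 168) (.e (nat_lit 204868) (nat_lit 29) (.e (nat_lit 360473) (nat_lit 8) (.e (nat_lit 557068) (nat_lit 9) (.e (nat_lit 214) (nat_lit 19) .nil))))))) (.g (nat_lit 1) (.e (nat_lit 364628) (nat_lit 0) .nil) .nil)))) (.nd (nat_lit 9) 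
(.lf (nat_lit 575847) (.g (nat_lit 1832) (.e (nat_lit 491569) (nat_lit 13) (.e (nat_lit 393301) (nat_lit 27) (.e (nat_lit 491560) (nat_lit 10) (.e (nat_lit 344178) (nat_lit 44) .nil)))) (.g (nat_lit 0) (.e (nat_lit 363904) (nat_lit 0) .nil) .nil))) 
(.lf (nat_lit 576359) (.g (nat_lit 1988) (.e (nat_lit 319533) (nat_lit 16) (.e (nat_lit 286732) (nat_lit 2) (.e (nat_lit 90185) (nat_lit 17) (.e (nat_lit 237610) (nat_lit 9) .nil)))) (.g (nat_lit 0) (.e (nat_lit 365369) (nat_lit 0) .nil) .nil))))) (.nd (nat_lit 8) (.nd (nat_lit 9) 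
(.lf (nat_lit 575719) (.g (nat_lit 1931) (.e (nat_lit 491568) (nat_lit 13) (.e (nat_lit 393251) (nat_lit 18) (.e (nat_lit 164182) (nat_lit 154) (.e (nat_lit 57420) (nat_lit 13) .nil)))) (.g (nat_lit 0) (.e (nat_lit 363740) (nat_lit 0) .nil) .nil))) 
(.lf (nat_lit 576231) (.g (nat_lit 1113) (.e (nat_lit 319528) (nat_lit 16) (.e (nat_lit 286735) (nat_lit 3) (.e (nat_lit 98323) (nat_lit 17) (.e (nat_lit 7936) (nat_lit 392) .nil)))) (.g (nat_lit 0) (.e (nat_lit 365123) (nat_lit 0) .nil) .nil)))) (.nd (nat_lit 9) 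
(.lf (nat_lit 575975) (.g (nat_lit 910) (.e (nat_lit 491571) (nat_lit 13) (.e (nat_lit 393268) (nat_lit 23) (.e (nat_lit 426111) (nat_lit 1) .nil))) (.g (nat_lit 0) (.e (nat_lit 364154) (nat_lit 0) .nil) .nil))) 
(.lf (nat_lit 576487) (.g (nat_lit 773) (.e (nat_lit 327698) (nat_lit 8) (.e (nat_lit 303116) (nat_lit 2) (.e (nat_lit 196668) (nat_lit 14) .nil))) (.g (nat_lit 0) (.e (nat_lit 365946) (nat_lit 0) .nil) .nil)))))))) (.nd (nat_lit 5) (.nd (nat_lit 6) (.nd (nat_lit 7) (.nd (nat_lit 8) (.nd (nat_lit 9) 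
(.lf (nat_lit 575511) (.g (nat_lit 4137) (.e (nat_lit 491563) (nat_lit 12) (.e (nat_lit 385072) (nat_lit 31) (.e (nat_lit 573493) (nat_lit 15) (.e (nat_lit 81954) (nat_lit 23) (.e (nat_lit 98389) (nat_lit 33) .nil))))) (.g (nat_lit 0) (.e (nat_lit 363390) (nat_lit 0) .nil) .nil))) 
(.lf (nat_lit 576023) (.g (nat_lit 2154) (.e (nat_lit 491572) (nat_lit 14) (.e (nat_lit 401456) (nat_lit 13) (.e (nat_lit 483372) (nat_lit 21) (.e (nat_lit 319534) (nat_lit 16) .nil)))) (.g (nat_lit 0) (.e (nat_lit 364301) (nat_lit 0) .nil) .nil)))) (.nd (nat_lit 9) 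
(.lf (nat_lit 575767) (.g (nat_lit 2269) (.e (nat_lit 491568) (nat_lit 13) (.e (nat_lit 393301) (nat_lit 27) (.e (nat_lit 491560) (nat_lit 10) (.e (nat_lit 344179) (nat_lit 44) (.e (nat_lit 786176) (nat_lit 0) .nil))))) (.g (nat_lit 0) (.e (nat_lit 363793) (nat_lit 0) .nil) .nil))) 
(.lf (nat_lit 576279) (.g (nat_lit 1131) (.e (nat_lit 319530) (nat_lit 16) (.e (nat_lit 286733) (nat_lit 2) (.e (nat_lit 90128) (nat_lit 9) (.e (nat_lit 3044) (nat_lit 189) (.e (nat_lit 466976) (nat_lit 22) .nil))))) (.g (nat_lit 0) (.e (nat_lit 365220) (nat_lit 0) .nil) .nil))))) (.nd (nat_lit 8) (.nd (nat_lit 9) 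
(.lf (nat_lit 575639) (.g (nat_lit 6463) (.e (nat_lit 491566) (nat_lit 12) (.e (nat_lit 385073) (nat_lit 31) (.e (nat_lit 573493) (nat_lit 15) (.e (nat_lit 81953) (nat_lit 22) (.e (nat_lit 90128) (nat_lit 9) (.e (nat_lit 3095) (nat_lit 192) .nil)))))) (.g (nat_lit 1) (.e (nat_lit 363610) (nat_lit 0) .nil) .nil))) 
(.lf (nat_lit 576151) (.g (nat_lit 3106) (.e (nat_lit 319492) (nat_lit 0) (.e (nat_lit 5664) (nat_lit 312) (.e (nat_lit 3085) (nat_lit 191) (.e (nat_lit 483413) (nat_lit 27) (.e (nat_lit 401443) (nat_lit 9) (.e (nat_lit 433920) (nat_lit 25) .nil)))))) (.g (nat_lit 1) (.e (nat_lit 364735) (nat_lit 0) .nil) .nil)))) (.nd (nat_lit 9) 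
(.lf (nat_lit 575895) (.g (nat_lit 738) (.e (nat_lit 491570) (nat_lit 13) (.e (nat_lit 393271) (nat_lit 23) (.e (nat_lit 426364) (nat_lit 15) .nil))) (.g (nat_lit 0) (.e (nat_lit 363976) (nat_lit 0) .nil) .nil))) 
(.lf (nat_lit 576407) (.g (nat_lit 810) (.e (nat_lit 319534) (nat_lit 16) (.e (nat_lit 286732) (nat_lit 2) (.e (nat_lit 90166) (nat_lit 13) .nil))) (.g (nat_lit 0) (.e (nat_lit 365448) (nat_lit 0) .nil) .nil)))))) (.nd (nat_lit 7) (.nd (nat_lit 8) (.nd (nat_lit 9) 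
(.lf (nat_lit 575575) (.g (nat_lit 2161) (.e (nat_lit 491566) (nat_lit 12) (.e (nat_lit 385068) (nat_lit 26) (.e (nat_lit 532501) (nat_lit 1) (.e (nat_lit 57730) (nat_lit 181) .nil)))) (.g (nat_lit 0) (.e (nat_lit 363508) (nat_lit 0) .nil) .nil))) 
(.lf (nat_lit 576087) (.g (nat_lit 3684) (.e (nat_lit 319490) (nat_lit 0) (.e (nat_lit 5664) (nat_lit 312) (.e (nat_lit 3085) (nat_lit 191) (.e (nat_lit 483412) (nat_lit 27) (.e (nat_lit 401434) (nat_lit 9) (.e (nat_lit 426470) (nat_lit 25) .nil)))))) (.g (nat_lit 1) (.e (nat_lit 364585) (nat_lit 0) .nil) .nil)))) (.nd (nat_lit 9) 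
(.lf (nat_lit 575831) (.g (nat_lit 2737) (.e (nat_lit 491569) (nat_lit 13) (.e (nat_lit 393301) (nat_lit 27) (.e (nat_lit 491560) (nat_lit 10) (.e (nat_lit 344088) (nat_lit 18) (.e (nat_lit 6938) (nat_lit 375) (.e (nat_lit 163945) (nat_lit 20) .nil)))))) (.g (nat_lit 1) (.e (nat_lit 363888) (nat_lit 0) .nil) .nil))) 
(.lf (nat_lit 576343) (.g (nat_lit 1911) (.e (nat_lit 319532) (nat_lit 16) (.e (nat_lit 286733) (nat_lit 2) (.e (nat_lit 90178) (nat_lit 15) (.e (nat_lit 196352) (nat_lit 23) .nil)))) (.g (nat_lit 0) (.e (nat_lit 365331) (nat_lit 0) .nil) .nil))))) (.nd (nat_lit 8) (.nd (nat_lit 9) 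
(.lf (nat_lit 575703) (.g (nat_lit 428) (.e (nat_lit 491566) (nat_lit 12) (.e (nat_lit 385105) (nat_lit 50) (.e (nat_lit 786483) (nat_lit 30) .nil))) (.g (nat_lit 0) (.e (nat_lit 363719) (nat_lit 0) .nil) .nil))) 
(.lf (nat_lit 576215) (.g (nat_lit 2940) (.e (nat_lit 319539) (nat_lit 19) (.e (nat_lit 311315) (nat_lit 3) (.e (nat_lit 204846) (nat_lit 24) (.e (nat_lit 319538) (nat_lit 19) (.e (nat_lit 311315) (nat_lit 3) .nil))))) (.g (nat_lit 0) (.e (nat_lit 365096) (nat_lit 0) .nil) .nil)))) (.nd (nat_lit 9) 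
(.lf (nat_lit 575959) (.g (nat_lit 1087) (.e (nat_lit 491571) (nat_lit 13) (.e (nat_lit 393260) (nat_lit 21) (.e (nat_lit 409617) (nat_lit 10) (.e (nat_lit 5353) (nat_lit 298) .nil)))) (.g (nat_lit 0) (.e (nat_lit 364126) (nat_lit 0) .nil) .nil))) 
(.lf (nat_lit 576471) (.g (nat_lit 1841) (.e (nat_lit 327424) (nat_lit 16) (.e (nat_lit 286735) (nat_lit 3) (.e (nat_lit 98356) (nat_lit 26) (.e (nat_lit 433920) (nat_lit 9) .nil)))) (.g (nat_lit 0) (.e (nat_lit 365555) (nat_lit 0) .nil) .nil))))))) (.nd (nat_lit 6) (.nd (nat_lit 7) (.nd (nat_lit 8) (.nd (nat_lit 9) 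
(.lf (nat_lit 575543) (.g (nat_lit 1125) (.e (nat_lit 491564) (nat_lit 12) (.e (nat_lit 385109) (nat_lit 51) (.e (nat_lit 794683) (nat_lit 25) .nil))) (.g (nat_lit 0) (.e (nat_lit 363427) (nat_lit 0) .nil) .nil))) 
(.lf (nat_lit 576055) (.g (nat_lit 516) (.e (nat_lit 499456) (nat_lit 30) (.e (nat_lit 450588) (nat_lit 10) (.e (nat_lit 573503) (nat_lit 18) .nil))) (.g (nat_lit 0) (.e (nat_lit 364499) (nat_lit 0) .nil) .nil)))) (.nd (nat_lit 9) 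
(.lf (nat_lit 575799) (.g (nat_lit 1470) (.e (nat_lit 491569) (nat_lit 13) (.e (nat_lit 393300) (nat_lit 27) (.e (nat_lit 491569) (nat_lit 13) (.e (nat_lit 401152) (nat_lit 27) .nil)))) (.g (nat_lit 0) (.e (nat_lit 363854) (nat_lit 0) .nil) .nil))) 
(.lf (nat_lit 576311) (.g (nat_lit 2862) (.e (nat_lit 319531) (nat_lit 16) (.e (nat_lit 286733) (nat_lit 2) (.e (nat_lit 90170) (nat_lit 13) (.e (nat_lit 172106) (nat_lit 10) (.e (nat_lit 434231) (nat_lit 23) (.e (nat_lit 540416) (nat_lit 7) .nil)))))) (.g (nat_lit 1) (.e (nat_lit 365286) (nat_lit 0) .nil) .nil))))) (.nd (nat_lit 8) (.nd (nat_lit 9) 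
(.lf (nat_lit 575671) (.g (nat_lit 5941) (.e (nat_lit 491566) (nat_lit 12) (.e (nat_lit 385074) (nat_lit 31) (.e (nat_lit 573493) (nat_lit 15) (.e (nat_lit 81953) (nat_lit 22) (.e (nat_lit 90123) (nat_lit 9) (.e (nat_lit 3095) (nat_lit 192) .nil)))))) (.g (nat_lit 1) (.e (nat_lit 363657) (nat_lit 0) .nil) .nil))) 
(.lf (nat_lit 576183) (.g (nat_lit 985) (.e (nat_lit 319511) (nat_lit 10) (.e (nat_lit 5626) (nat_lit 312) (.e (nat_lit 248) (nat_lit 21) .nil))) (.g (nat_lit 0) (.e (nat_lit 364962) (nat_lit 0) .nil) .nil)))) (.nd (nat_lit 9) 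
(.lf (nat_lit 575927) (.g (nat_lit 396) (.e (nat_lit 491571) (nat_lit 13) (.e (nat_lit 393232) (nat_lit 17) (.e (nat_lit 7111) (nat_lit 381) .nil))) (.g (nat_lit 0) (.e (nat_lit 364058) (nat_lit 0) .nil) .nil))) 
(.lf (nat_lit 576439) (.g (nat_lit 2617) (.e (nat_lit 319534) (nat_lit 16) (.e (nat_lit 286756) (nat_lit 10) (.e (nat_lit 344160) (nat_lit 37) (.e (nat_lit 647190) (nat_lit 9) (.e (nat_lit 984) (nat_lit 81) (.e (nat_lit 2349) (nat_lit 151) (.e (nat_lit 778464) (nat_lit 11) (.e (nat_lit 24617) (nat_lit 7) .nil)))))))) (.g (nat_lit 1) (.e (nat_lit 365485) (nat_lit 0) .nil) .nil)))))) 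
(.nd (nat_lit 7) (.nd (nat_lit 8) (.nd (nat_lit 9) 
(.lf (nat_lit 575607) (.g (nat_lit 2139) (.e (nat_lit 491566) (nat_lit 12) (.e (nat_lit 385072) (nat_lit 31) (.e (nat_lit 573492) (nat_lit 15) (.e (nat_lit 81951) (nat_lit 22) (.e (nat_lit 90133) (nat_lit 9) .nil))))) (.g (nat_lit 0) (.e (nat_lit 363552) (nat_lit 0) .nil) .nil))) 
(.lf (nat_lit 576119) (.g (nat_lit 3108) (.e (nat_lit 319491) (nat_lit 0) (.e (nat_lit 5664) (nat_lit 312) (.e (nat_lit 3085) (nat_lit 191) (.e (nat_lit 483377) (nat_lit 22) (.e (nat_lit 327708) (nat_lit 10) (.e (nat_lit 5626) (nat_lit 312) (.e (nat_lit 214) (nat_lit 19) .nil))))))) (.g (nat_lit 1) (.e (nat_lit 364665) (nat_lit 0) .nil) .nil)))) (.nd (nat_lit 9) 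
(.lf (nat_lit 575863) (.g (nat_lit 1265) (.e (nat_lit 491570) (nat_lit 13) (.e (nat_lit 393238) (nat_lit 17) (.e (nat_lit 7107) (nat_lit 380) (.e (nat_lit 164338) (nat_lit 232) .nil)))) (.g (nat_lit 0) (.e (nat_lit 363927) (nat_lit 0) .nil) .nil))) 
(.lf (nat_lit 576375) (.g (nat_lit 1949) (.e (nat_lit 319533) (nat_lit 16) (.e (nat_lit 286735) (nat_lit 3) (.e (nat_lit 98323) (nat_lit 17) (.e (nat_lit 6989) (nat_lit 377) (.e (nat_lit 1076) (nat_lit 81) .nil))))) (.g (nat_lit 0) (.e (nat_lit 365390) (nat_lit 0) .nil) .nil))))) (.nd (nat_lit 8) (.nd (nat_lit 9) 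
(.lf (nat_lit 575735) (.g (nat_lit 2143) (.e (nat_lit 491568) (nat_lit 13) (.e (nat_lit 393291) (nat_lit 26) (.e (nat_lit 475210) (nat_lit 41) (.e (nat_lit 712743) (nat_lit 27) .nil)))) (.g (nat_lit 0) (.e (nat_lit 363758) (nat_lit 0) .nil) .nil))) 
(.lf (nat_lit 576247) (.g (nat_lit 2635) (.e (nat_lit 319528) (nat_lit 16) (.e (nat_lit 286735) (nat_lit 3) (.e (nat_lit 98365) (nat_lit 26) (.e (nat_lit 426188) (nat_lit 9) (.e (nat_lit 426130) (nat_lit 3) .nil))))) (.g (nat_lit 0) (.e (nat_lit 365139) (nat_lit 0) .nil) .nil)))) (.nd (nat_lit 9) 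
(.lf (nat_lit 575991) (.g (nat_lit 2185) (.e (nat_lit 491571) (nat_lit 13) (.e (nat_lit 393298) (nat_lit 27) (.e (nat_lit 491549) (nat_lit 9) (.e (nat_lit 336367) (nat_lit 27) .nil)))) (.g (nat_lit 0) (.e (nat_lit 364243) (nat_lit 0) .nil) .nil))) 
(.lf (nat_lit 576503) (.g (nat_lit 3616) (.e (nat_lit 327699) (nat_lit 8) (.e (nat_lit 303116) (nat_lit 2) (.e (nat_lit 196666) (nat_lit 13) (.e (nat_lit 65630) (nat_lit 14) (.e (nat_lit 401428) (nat_lit 3) (.e (nat_lit 204849) (nat_lit 25) .nil)))))) (.g (nat_lit 1) (.e (nat_lit 366022) (nat_lit 0) .nil) .nil))))))))) 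
(.nd (nat_lit 4) (.nd (nat_lit 5) (.nd (nat_lit 6) (.nd (nat_lit 7) (.nd (nat_lit 8) 
(.nd (nat_lit 9) 
(.lf (nat_lit 575503) (.g (nat_lit 2217) (.e (nat_lit 491562) (nat_lit 12) (.e (nat_lit 385074) (nat_lit 31) (.e (nat_lit 573482) (nat_lit 13) (.e (nat_lit 65604) (nat_lit 9) .nil)))) (.g (nat_lit 0) (.e (nat_lit 363381) (nat_lit 0) .nil) .nil))) 
(.lf (nat_lit 576015) (.g (nat_lit 3282) (.e (nat_lit 491571) (nat_lit 13) (.e (nat_lit 393299) (nat_lit 27) (.e (nat_lit 491560) (nat_lit 10) (.e (nat_lit 344096) (nat_lit 18) (.e (nat_lit 6940) (nat_lit 375) (.e (nat_lit 163945) (nat_lit 20) .nil)))))) (.g (nat_lit 1) (.e (nat_lit 364280) (nat_lit 0) .nil) .nil)))) (.nd (nat_lit 9) 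
(.lf (nat_lit 575759) (.g (nat_lit 2538) (.e (nat_lit 491568) (nat_lit 13) (.e (nat_lit 393301) (nat_lit 27) (.e (nat_lit 491560) (nat_lit 10) (.e (nat_lit 344091) (nat_lit 18) (.e (nat_lit 7454) (nat_lit 396) .nil))))) (.g (nat_lit 0) (.e (nat_lit 363785) (nat_lit 0) .nil) .nil))) 
(.lf (nat_lit 576271) (.g (nat_lit 3299) (.e (nat_lit 319529) (nat_lit 16) (.e (nat_lit 286735) (nat_lit 3) (.e (nat_lit 98365) (nat_lit 26) (.e (nat_lit 426188) (nat_lit 9) (.e (nat_lit 426131) (nat_lit 3) (.e (nat_lit 204846) (nat_lit 24) .nil)))))) (.g (nat_lit 1) (.e (nat_lit 365179) (nat_lit 0) .nil) .nil))))) (.nd (nat_lit 8) (.nd (nat_lit 9) 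
(.lf (nat_lit 575631) (.g (nat_lit 1132) (.e (nat_lit 491566) (nat_lit 12) (.e (nat_lit 385073) (nat_lit 31) (.e (nat_lit 573491) (nat_lit 15) (.e (nat_lit 81955) (nat_lit 23) .nil)))) (.g (nat_lit 0) (.e (nat_lit 363581) (nat_lit 0) .nil) .nil))) 
(.lf (nat_lit 576143) (.g (nat_lit 1884) (.e (nat_lit 319492) (nat_lit 0) (.e (nat_lit 5664) (nat_lit 312) (.e (nat_lit 3085) (nat_lit 191) (.e (nat_lit 483345) (nat_lit 17) (.e (nat_lit 6720) (nat_lit 361) .nil))))) (.g (nat_lit 0) (.e (nat_lit 364725) (nat_lit 0) .nil) .nil)))) (.nd (nat_lit 9) 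
(.lf (nat_lit 575887) (.g (nat_lit 2822) (.e (nat_lit 491570) (nat_lit 13) (.e (nat_lit 393260) (nat_lit 21) (.e (nat_lit 409649) (nat_lit 18) (.e (nat_lit 303111) (nat_lit 0) (.e (nat_lit 3579) (nat_lit 223) (.e (nat_lit 745472) (nat_lit 0) (.e (nat_lit 498) (nat_lit 40) .nil))))))) (.g (nat_lit 1) (.e (nat_lit 363961) (nat_lit 0) .nil) .nil))) 
(.lf (nat_lit 576399) (.g (nat_lit 2829) (.e (nat_lit 319533) (nat_lit 16) (.e (nat_lit 286758) (nat_lit 12) (.e (nat_lit 385107) (nat_lit 51) (.e (nat_lit 794680) (nat_lit 24) (.e (nat_lit 213030) (nat_lit 11) (.e (nat_lit 24617) (nat_lit 7) .nil)))))) (.g (nat_lit 1) (.e (nat_lit 365417) (nat_lit 0) .nil) .nil)))))) (.nd (nat_lit 7) (.nd (nat_lit 8) (.nd (nat_lit 9) 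
(.lf (nat_lit 575567) (.g (nat_lit 3199) (.e (nat_lit 491565) (nat_lit 12) (.e (nat_lit 385074) (nat_lit 31) (.e (nat_lit 573493) (nat_lit 15) (.e (nat_lit 81954) (nat_lit 23) (.e (nat_lit 106240) (nat_lit 33) .nil))))) (.g (nat_lit 0) (.e (nat_lit 363474) (nat_lit 0) .nil) .nil))) 
(.lf (nat_lit 576079) (.g (nat_lit 2149) (.e (nat_lit 319490) (nat_lit 0) (.e (nat_lit 5664) (nat_lit 312) (.e (nat_lit 3085) (nat_lit 191) (.e (nat_lit 483377) (nat_lit 22) (.e (nat_lit 327707) (nat_lit 10) (.e (nat_lit 5632) (nat_lit 312) (.e (nat_lit 216) (nat_lit 19) .nil))))))) (.g (nat_lit 1) (.e (nat_lit 364577) (nat_lit 0) .nil) .nil)))) (.nd (nat_lit 9) 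
(.lf (nat_lit 575823) (.g (nat_lit 2809) (.e (nat_lit 491569) (nat_lit 13) (.e (nat_lit 393301) (nat_lit 27) (.e (nat_lit 491559) (nat_lit 10) (.e (nat_lit 344090) (nat_lit 18) (.e (nat_lit 6923) (nat_lit 371) .nil))))) (.g (nat_lit 0) (.e (nat_lit 363880) (nat_lit 0) .nil) .nil))) 
(.lf (nat_lit 576335) (.g (nat_lit 2089) (.e (nat_lit 319531) (nat_lit 16) (.e (nat_lit 286759) (nat_lit 12) (.e (nat_lit 385094) (nat_lit 49) (.e (nat_lit 778570) (nat_lit 15) .nil)))) (.g (nat_lit 0) (.e (nat_lit 365312) (nat_lit 0) .nil) .nil))))) (.nd (nat_lit 8) (.nd (nat_lit 9) 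
(.lf (nat_lit 575695) (.g (nat_lit 2621) (.e (nat_lit 491566) (nat_lit 12) (.e (nat_lit 385104) (nat_lit 50) (.e (nat_lit 786483) (nat_lit 30) (.e (nat_lit 360451) (nat_lit 0) (.e (nat_lit 5584) (nat_lit 310) (.e (nat_lit 163946) (nat_lit 20) .nil)))))) (.g (nat_lit 1) (.e (nat_lit 363707) (nat_lit 0) .nil) .nil))) 
(.lf (nat_lit 576207) (.g (nat_lit 2758) (.e (nat_lit 319538) (nat_lit 19) (.e (nat_lit 311315) (nat_lit 3) (.e (nat_lit 204846) (nat_lit 24) (.e (nat_lit 319533) (nat_lit 16) (.e (nat_lit 286724) (nat_lit 0) (.e (nat_lit 1842) (nat_lit 123) (.e (nat_lit 548873) (nat_lit 5) (.e (nat_lit 1395) (nat_lit 106) .nil)))))))) (.g (nat_lit 1) (.e (nat_lit 365086) (nat_lit 0) .nil) .nil)))) 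
(.nd (nat_lit 9) 
(.lf (nat_lit 575951) (.g (nat_lit 881) (.e (nat_lit 491571) (nat_lit 13) (.e (nat_lit 393260) (nat_lit 21) (.e (nat_lit 409611) (nat_lit 10) .nil))) (.g (nat_lit 0) (.e (nat_lit 364117) (nat_lit 0) .nil) .nil))) 
(.lf (nat_lit 576463) (.g (nat_lit 1563) (.e (nat_lit 327424) (nat_lit 16) (.e (nat_lit 286733) (nat_lit 2) (.e (nat_lit 90134) (nat_lit 9) (.e (nat_lit 3045) (nat_lit 189) .nil)))) (.g (nat_lit 0) (.e (nat_lit 365546) (nat_lit 0) .nil) .nil))))))) (.nd (nat_lit 6) (.nd (nat_lit 7) (.nd (nat_lit 8) (.nd (nat_lit 9) 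
(.lf (nat_lit 575535) (.g (nat_lit 3613) (.e (nat_lit 491564) (nat_lit 12) (.e (nat_lit 385074) (nat_lit 31) (.e (nat_lit 573493) (nat_lit 15) (.e (nat_lit 81954) (nat_lit 23) (.e (nat_lit 98388) (nat_lit 33) .nil))))) (.g (nat_lit 0) (.e (nat_lit 363416) (nat_lit 0) .nil) .nil))) 
(.lf (nat_lit 576047) (.g (nat_lit 1005) (.e (nat_lit 491584) (nat_lit 28) (.e (nat_lit 434208) (nat_lit 18) (.e (nat_lit 6420) (nat_lit 341) (.e (nat_lit 163902) (nat_lit 12) (.e (nat_lit 426438) (nat_lit 18) .nil))))) (.g (nat_lit 0) (.e (nat_lit 364426) (nat_lit 0) .nil) .nil)))) (.nd (nat_lit 9) 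
(.lf (nat_lit 575791) (.g (nat_lit 811) (.e (nat_lit 491569) (nat_lit 13) (.e (nat_lit 393296) (nat_lit 26) (.e (nat_lit 475195) (nat_lit 40) .nil))) (.g (nat_lit 0) (.e (nat_lit 363846) (nat_lit 0) .nil) .nil))) 
(.lf (nat_lit 576303) (.g (nat_lit 1979) (.e (nat_lit 319530) (nat_lit 16) (.e (nat_lit 286759) (nat_lit 12) (.e (nat_lit 385109) (nat_lit 51) (.e (nat_lit 794675) (nat_lit 24) .nil)))) (.g (nat_lit 0) (.e (nat_lit 365244) (nat_lit 0) .nil) .nil))))) (.nd (nat_lit 8) (.nd (nat_lit 9) 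
(.lf (nat_lit 575663) (.g (nat_lit 1405) (.e (nat_lit 491566) (nat_lit 12) (.e (nat_lit 385074) (nat_lit 31) (.e (nat_lit 573491) (nat_lit 15) (.e (nat_lit 81955) (nat_lit 23) .nil)))) (.g (nat_lit 0) (.e (nat_lit 363646) (nat_lit 0) .nil) .nil))) 
(.lf (nat_lit 576175) (.g (nat_lit 2375) (.e (nat_lit 319503) (nat_lit 10) (.e (nat_lit 618) (nat_lit 48) (.e (nat_lit 557098) (nat_lit 13) (.e (nat_lit 172115) (nat_lit 10) (.e (nat_lit 434202) (nat_lit 18) .nil))))) (.g (nat_lit 0) (.e (nat_lit 364926) (nat_lit 0) .nil) .nil)))) (.nd (nat_lit 9) 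
(.lf (nat_lit 575919) (.g (nat_lit 2231) (.e (nat_lit 491570) (nat_lit 13) (.e (nat_lit 393298) (nat_lit 27) (.e (nat_lit 491571) (nat_lit 13) (.e (nat_lit 401152) (nat_lit 27) .nil)))) (.g (nat_lit 0) (.e (nat_lit 364039) (nat_lit 0) .nil) .nil))) 
(.lf (nat_lit 576431) (.g (nat_lit 2959) (.e (nat_lit 319534) (nat_lit 16) (.e (nat_lit 286749) (nat_lit 9) (.e (nat_lit 335997) (nat_lit 1) (.e (nat_lit 57692) (nat_lit 156) (.e (nat_lit 163864) (nat_lit 1) (.e (nat_lit 164330) (nat_lit 230) (.e (nat_lit 163902) (nat_lit 12) (.e (nat_lit 426472) (nat_lit 25) .nil)))))))) (.g (nat_lit 1) (.e (nat_lit 365477) (nat_lit 0) .nil) .nil)))))) 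
(.nd (nat_lit 7) (.nd (nat_lit 8) (.nd (nat_lit 9) 
(.lf (nat_lit 575599) (.g (nat_lit 2434) (.e (nat_lit 491566) (nat_lit 12) (.e (nat_lit 385072) (nat_lit 31) (.e (nat_lit 573481) (nat_lit 13) (.e (nat_lit 65604) (nat_lit 9) (.e (nat_lit 336028) (nat_lit 3) (.e (nat_lit 106240) (nat_lit 33) .nil)))))) (.g (nat_lit 1) (.e (nat_lit 363544) (nat_lit 0) .nil) .nil))) 
(.lf (nat_lit 576111) (.g (nat_lit 2680) (.e (nat_lit 319491) (nat_lit 0) (.e (nat_lit 5664) (nat_lit 312) (.e (nat_lit 3078) (nat_lit 191) (.e (nat_lit 483413) (nat_lit 27) (.e (nat_lit 401440) (nat_lit 9) (.e (nat_lit 426470) (nat_lit 25) .nil)))))) (.g (nat_lit 1) (.e (nat_lit 364657) (nat_lit 0) .nil) .nil)))) (.nd (nat_lit 9) 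
(.lf (nat_lit 575855) (.g (nat_lit 2632) (.e (nat_lit 491569) (nat_lit 13) (.e (nat_lit 393301) (nat_lit 27) (.e (nat_lit 491563) (nat_lit 12) (.e (nat_lit 385030) (nat_lit 8) .nil)))) (.g (nat_lit 0) (.e (nat_lit 363912) (nat_lit 0) .nil) .nil))) 
(.lf (nat_lit 576367) (.g (nat_lit 1893) (.e (nat_lit 319533) (nat_lit 16) (.e (nat_lit 286734) (nat_lit 3) (.e (nat_lit 98323) (nat_lit 17) (.e (nat_lit 6989) (nat_lit 377) (.e (nat_lit 1076) (nat_lit 81) .nil))))) (.g (nat_lit 0) (.e (nat_lit 365381) (nat_lit 0) .nil) .nil))))) (.nd (nat_lit 8) (.nd (nat_lit 9) 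
(.lf (nat_lit 575727) (.g (nat_lit 1544) (.e (nat_lit 491568) (nat_lit 13) (.e (nat_lit 393271) (nat_lit 23) (.e (nat_lit 426364) (nat_lit 15) (.e (nat_lit 2160) (nat_lit 143) .nil)))) (.g (nat_lit 0) (.e (nat_lit 363748) (nat_lit 0) .nil) .nil))) 
(.lf (nat_lit 576239) (.g (nat_lit 784) (.e (nat_lit 319528) (nat_lit 16) (.e (nat_lit 286735) (nat_lit 3) (.e (nat_lit 98357) (nat_lit 26) .nil))) (.g (nat_lit 0) (.e (nat_lit 365131) (nat_lit 0) .nil) .nil)))) (.nd (nat_lit 9) 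
(.lf (nat_lit 575983) (.g (nat_lit 721) (.e (nat_lit 491571) (nat_lit 13) (.e (nat_lit 393298) (nat_lit 27) (.e (nat_lit 491521) (nat_lit 0) .nil))) (.g (nat_lit 0) (.e (nat_lit 364222) (nat_lit 0) .nil) .nil))) 
(.lf (nat_lit 576495) (.g (nat_lit 790) (.e (nat_lit 327698) (nat_lit 8) (.e (nat_lit 303119) (nat_lit 3) (.e (nat_lit 204821) (nat_lit 17) .nil))) (.g (nat_lit 0) (.e (nat_lit 365963) (nat_lit 0) .nil) .nil)))))))) (.nd (nat_lit 5) (.nd (nat_lit 6) (.nd (nat_lit 7) (.nd (nat_lit 8) (.nd (nat_lit 9) 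
(.lf (nat_lit 575519) (.g (nat_lit 2853) (.e (nat_lit 491564) (nat_lit 12) (.e (nat_lit 385072) (nat_lit 31) (.e (nat_lit 573492) (nat_lit 15) (.e (nat_lit 81956) (nat_lit 23) (.e (nat_lit 98388) (nat_lit 33) .nil))))) (.g (nat_lit 0) (.e (nat_lit 363399) (nat_lit 0) .nil) .nil))) 
(.lf (nat_lit 576031) (.g (nat_lit 4147) (.e (nat_lit 491572) (nat_lit 14) (.e (nat_lit 401459) (nat_lit 13) (.e (nat_lit 483372) (nat_lit 21) (.e (nat_lit 319530) (nat_lit 16) .nil)))) (.g (nat_lit 0) (.e (nat_lit 364309) (nat_lit 0) .nil) .nil)))) (.nd (nat_lit 9) 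
(.lf (nat_lit 575775) (.g (nat_lit 1931) (.e (nat_lit 491569) (nat_lit 13) (.e (nat_lit 393251) (nat_lit 18) (.e (nat_lit 164182) (nat_lit 154) (.e (nat_lit 57420) (nat_lit 13) .nil)))) (.g (nat_lit 0) (.e (nat_lit 363812) (nat_lit 0) .nil) .nil))) 
(.lf (nat_lit 576287) (.g (nat_lit 1340) (.e (nat_lit 319530) (nat_lit 16) (.e (nat_lit 286735) (nat_lit 3) (.e (nat_lit 98366) (nat_lit 27) (.e (nat_lit 442112) (nat_lit 8) .nil)))) (.g (nat_lit 0) (.e (nat_lit 365228) (nat_lit 0) .nil) .nil))))) (.nd (nat_lit 8) (.nd (nat_lit 9) 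
(.lf (nat_lit 575647) (.g (nat_lit 3083) (.e (nat_lit 491566) (nat_lit 12) (.e (nat_lit 385073) (nat_lit 31) (.e (nat_lit 573493) (nat_lit 15) (.e (nat_lit 81954) (nat_lit 23) (.e (nat_lit 106240) (nat_lit 33) .nil))))) (.g (nat_lit 0) (.e (nat_lit 363618) (nat_lit 0) .nil) .nil))) 
(.lf (nat_lit 576159) (.g (nat_lit 2749) (.e (nat_lit 327424) (nat_lit 8) (.e (nat_lit 303117) (nat_lit 2) (.e (nat_lit 196666) (nat_lit 13) (.e (nat_lit 65630) (nat_lit 14) .nil)))) (.g (nat_lit 0) (.e (nat_lit 364781) (nat_lit 0) .nil) .nil)))) (.nd (nat_lit 9) 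
(.lf (nat_lit 575903) (.g (nat_lit 1834) (.e (nat_lit 491570) (nat_lit 13) (.e (nat_lit 393290) (nat_lit 26) (.e (nat_lit 475210) (nat_lit 41) (.e (nat_lit 712745) (nat_lit 27) (.e (nat_lit 433920) (nat_lit 14) .nil))))) (.g (nat_lit 0) (.e (nat_lit 364018) (nat_lit 0) .nil) .nil))) 
(.lf (nat_lit 576415) (.g (nat_lit 2008) (.e (nat_lit 319534) (nat_lit 16) (.e (nat_lit 286734) (nat_lit 3) (.e (nat_lit 98323) (nat_lit 17) (.e (nat_lit 6989) (nat_lit 377) (.e (nat_lit 1076) (nat_lit 81) .nil))))) (.g (nat_lit 0) (.e (nat_lit 365458) (nat_lit 0) .nil) .nil)))))) (.nd (nat_lit 7) (.nd (nat_lit 8) (.nd (nat_lit 9) 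
(.lf (nat_lit 575583) (.g (nat_lit 764) (.e (nat_lit 491566) (nat_lit 12) (.e (nat_lit 392960) (nat_lit 24) (.e (nat_lit 516144) (nat_lit 9) (.e (nat_lit 426322) (nat_lit 13) (.e (nat_lit 491264) (nat_lit 16) .nil))))) (.g (nat_lit 1) (.e (nat_lit 363521) (nat_lit 0) .nil) .nil))) 
(.lf (nat_lit 576095) (.g (nat_lit 3501) (.e (nat_lit 319490) (nat_lit 0) (.e (nat_lit 5664) (nat_lit 312) (.e (nat_lit 3085) (nat_lit 191) (.e (nat_lit 483413) (nat_lit 27) (.e (nat_lit 401443) (nat_lit 9) (.e (nat_lit 433920) (nat_lit 25) .nil)))))) (.g (nat_lit 1) (.e (nat_lit 364594) (nat_lit 0) .nil) .nil)))) (.nd (nat_lit 9) 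
(.lf (nat_lit 575839) (.g (nat_lit 3137) (.e (nat_lit 491569) (nat_lit 13) (.e (nat_lit 393301) (nat_lit 27) (.e (nat_lit 491560) (nat_lit 10) (.e (nat_lit 344091) (nat_lit 18) (.e (nat_lit 6923) (nat_lit 371) (.e (nat_lit 2449) (nat_lit 157) (.e (nat_lit 3096) (nat_lit 192) .nil))))))) (.g (nat_lit 1) (.e (nat_lit 363896) (nat_lit 0) .nil) .nil))) 
(.lf (nat_lit 576351) (.g (nat_lit 786) (.e (nat_lit 319533) (nat_lit 16) (.e (nat_lit 286732) (nat_lit 2) (.e (nat_lit 90166) (nat_lit 13) .nil))) (.g (nat_lit 0) (.e (nat_lit 365361) (nat_lit 0) .nil) .nil))))) (.nd (nat_lit 8) (.nd (nat_lit 9) 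
(.lf (nat_lit 575711) (.g (nat_lit 905) (.e (nat_lit 491566) (nat_lit 12) (.e (nat_lit 385109) (nat_lit 51) (.e (nat_lit 794682) (nat_lit 25) .nil))) (.g (nat_lit 0) (.e (nat_lit 363729) (nat_lit 0) .nil) .nil))) 
(.lf (nat_lit 576223) (.g (nat_lit 607) (.e (nat_lit 319528) (nat_lit 16) (.e (nat_lit 286733) (nat_lit 2) (.e (nat_lit 90165) (nat_lit 12) .nil))) (.g (nat_lit 0) (.e (nat_lit 365115) (nat_lit 0) .nil) .nil)))) (.nd (nat_lit 9) 
(.lf (nat_lit 575967) (.g (nat_lit 4388) (.e (nat_lit 491571) (nat_lit 13) (.e (nat_lit 393260) (nat_lit 21) (.e (nat_lit 409623) (nat_lit 10) (.e (nat_lit 5259) (nat_lit 298) (.e (nat_lit 371) (nat_lit 32) (.e (nat_lit 433920) (nat_lit 14) .nil)))))) (.g (nat_lit 1) (.e (nat_lit 364134) (nat_lit 0) .nil) .nil))) 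
(.lf (nat_lit 576479) (.g (nat_lit 3288) (.e (nat_lit 319535) (nat_lit 17) (.e (nat_lit 294927) (nat_lit 2) (.e (nat_lit 90176) (nat_lit 15) (.e (nat_lit 188450) (nat_lit 23) (.e (nat_lit 204846) (nat_lit 24) .nil))))) (.g (nat_lit 1) (.e (nat_lit 365569) (nat_lit 0) .nil) .nil))))))) (.nd (nat_lit 6) (.nd (nat_lit 7) (.nd (nat_lit 8) (.nd (nat_lit 9) 
(.lf (nat_lit 575551) (.g (nat_lit 4238) (.e (nat_lit 491565) (nat_lit 12) (.e (nat_lit 385072) (nat_lit 31) (.e (nat_lit 573493) (nat_lit 15) (.e (nat_lit 81953) (nat_lit 22) (.e (nat_lit 90133) (nat_lit 9) (.e (nat_lit 3105) (nat_lit 192) .nil)))))) (.g (nat_lit 1) (.e (nat_lit 363436) (nat_lit 0) .nil) .nil))) 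
(.lf (nat_lit 576063) (.g (nat_lit 4347) (.e (nat_lit 319490) (nat_lit 0) (.e (nat_lit 5664) (nat_lit 312) (.e (nat_lit 2887) (nat_lit 184) (.e (nat_lit 426499) (nat_lit 27) (.e (nat_lit 335895) (nat_lit 0) (.e (nat_lit 6720) (nat_lit 361) (.e (nat_lit 172143) (nat_lit 25) .nil))))))) (.g (nat_lit 1) (.e (nat_lit 364545) (nat_lit 0) .nil) .nil)))) (.nd (nat_lit 9) 
(.lf (nat_lit 575807) (.g (nat_lit 3127) (.e (nat_lit 491569) (nat_lit 13) (.e (nat_lit 393301) (nat_lit 27) (.e (nat_lit 491558) (nat_lit 10) (.e (nat_lit 344091) (nat_lit 18) (.e (nat_lit 6850) (nat_lit 371) (.e (nat_lit 2433) (nat_lit 157) (.e (nat_lit 3098) (nat_lit 192) .nil))))))) (.g (nat_lit 1) (.e (nat_lit 363864) (nat_lit 0) .nil) .nil))) 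
(.lf (nat_lit 576319) (.g (nat_lit 967) (.e (nat_lit 319531) (nat_lit 16) (.e (nat_lit 286735) (nat_lit 3) (.e (nat_lit 98352) (nat_lit 25) (.e (nat_lit 417813) (nat_lit 9) (.e (nat_lit 311315) (nat_lit 3) .nil))))) (.g (nat_lit 0) (.e (nat_lit 365294) (nat_lit 0) .nil) .nil))))) (.nd (nat_lit 8) (.nd (nat_lit 9) 
(.lf (nat_lit 575679) (.g (nat_lit 1988) (.e (nat_lit 491566) (nat_lit 12) (.e (nat_lit 385092) (nat_lit 49) (.e (nat_lit 778326) (nat_lit 6) (.e (nat_lit 81948) (nat_lit 21) (.e (nat_lit 57926) (nat_lit 282) (.e (nat_lit 163945) (nat_lit 20) .nil)))))) (.g (nat_lit 1) (.e (nat_lit 363675) (nat_lit 0) .nil) .nil))) 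
(.lf (nat_lit 576191) (.g (nat_lit 135) (.e (nat_lit 319526) (nat_lit 15) (.e (nat_lit 278546) (nat_lit 8) (.e (nat_lit 303124) (nat_lit 7) .nil))) (.g (nat_lit 0) (.e (nat_lit 365027) (nat_lit 0) .nil) .nil)))) (.nd (nat_lit 9) 
(.lf (nat_lit 575935) (.g (nat_lit 2918) (.e (nat_lit 491571) (nat_lit 13) (.e (nat_lit 393238) (nat_lit 17) (.e (nat_lit 7107) (nat_lit 380) (.e (nat_lit 164339) (nat_lit 232) (.e (nat_lit 403) (nat_lit 32) (.e (nat_lit 426340) (nat_lit 14) .nil)))))) (.g (nat_lit 1) (.e (nat_lit 364073) (nat_lit 0) .nil) .nil))) 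
(.lf (nat_lit 576447) (.g (nat_lit 2723) (.e (nat_lit 319534) (nat_lit 16) (.e (nat_lit 286756) (nat_lit 10) (.e (nat_lit 344160) (nat_lit 37) (.e (nat_lit 647203) (nat_lit 14) (.e (nat_lit 2509) (nat_lit 157) (.e (nat_lit 879) (nat_lit 75) (.e (nat_lit 778465) (nat_lit 11) (.e (nat_lit 24617) (nat_lit 7) .nil)))))))) (.g (nat_lit 1) (.e (nat_lit 365493) (nat_lit 0) .nil) .nil)))))) 
(.nd (nat_lit 7) (.nd (nat_lit 8) (.nd (nat_lit 9) 
(.lf (nat_lit 575615) (.g (nat_lit 1956) (.e (nat_lit 491566) (nat_lit 12) (.e (nat_lit 385072) (nat_lit 31) (.e (nat_lit 573493) (nat_lit 15) (.e (nat_lit 81951) (nat_lit 22) .nil)))) (.g (nat_lit 0) (.e (nat_lit 363560) (nat_lit 0) .nil) .nil))) 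
(.lf (nat_lit 576127) (.g (nat_lit 2868) (.e (nat_lit 319491) (nat_lit 0) (.e (nat_lit 5664) (nat_lit 312) (.e (nat_lit 3085) (nat_lit 191) (.e (nat_lit 483412) (nat_lit 27) (.e (nat_lit 401439) (nat_lit 9) (.e (nat_lit 426470) (nat_lit 25) .nil)))))) (.g (nat_lit 1) (.e (nat_lit 364674) (nat_lit 0) .nil) .nil)))) (.nd (nat_lit 9) 
(.lf (nat_lit 575871) (.g (nat_lit 993) (.e (nat_lit 491570) (nat_lit 13) (.e (nat_lit 393259) (nat_lit 21) (.e (nat_lit 409641) (nat_lit 17) (.e (nat_lit 294968) (nat_lit 27) .nil)))) (.g (nat_lit 0) (.e (nat_lit 363941) (nat_lit 0) .nil) .nil))) 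
(.lf (nat_lit 576383) (.g (nat_lit 705) (.e (nat_lit 319533) (nat_lit 16) (.e (nat_lit 286735) (nat_lit 3) (.e (nat_lit 98360) (nat_lit 26) .nil))) (.g (nat_lit 0) (.e (nat_lit 365399) (nat_lit 0) .nil) .nil))))) (.nd (nat_lit 8) (.nd (nat_lit 9) 
(.lf (nat_lit 575743) (.g (nat_lit 2775) (.e (nat_lit 491568) (nat_lit 13) (.e (nat_lit 393299) (nat_lit 27) (.e (nat_lit 491552) (nat_lit 9) (.e (nat_lit 336412) (nat_lit 27) (.e (nat_lit 426344) (nat_lit 14) .nil))))) (.g (nat_lit 1) (.e (nat_lit 363768) (nat_lit 0) .nil) .nil))) 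
(.lf (nat_lit 576255) (.g (nat_lit 2434) (.e (nat_lit 319528) (nat_lit 16) (.e (nat_lit 286759) (nat_lit 12) (.e (nat_lit 385094) (nat_lit 49) (.e (nat_lit 778351) (nat_lit 9) .nil)))) (.g (nat_lit 0) (.e (nat_lit 365149) (nat_lit 0) .nil) .nil)))) (.nd (nat_lit 9) 
(.lf (nat_lit 575999) (.g (nat_lit 1159) (.e (nat_lit 491571) (nat_lit 13) (.e (nat_lit 393299) (nat_lit 27) (.e (nat_lit 491523) (nat_lit 0) .nil))) (.g (nat_lit 0) (.e (nat_lit 364259) (nat_lit 0) .nil) .nil))) 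
(.lf (nat_lit 576511) (.g (nat_lit 2414) (.e (nat_lit 327699) (nat_lit 8) (.e (nat_lit 303117) (nat_lit 2) (.e (nat_lit 196670) (nat_lit 14) (.e (nat_lit 73781) (nat_lit 32) (.e (nat_lit 2505) (nat_lit 157) .nil))))) (.g (nat_lit 0) (.e (nat_lit 366040) (nat_lit 0) .nil) .nil)))))))))))))

noncomputable def tv5623 : DT := (.nd (nat_lit 0) (.nd (nat_lit 1) (.nd (nat_lit 2) (.nd (nat_lit 3) (.nd (nat_lit 4) (.nd (nat_lit 5) (.nd (nat_lit 6) (.nd (nat_lit 7) (.nd (nat_lit 8) (.nd (nat_lit 9) 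
(.lf (nat_lit 576512) (.g (nat_lit 4693) (.e (nat_lit 327699) (nat_lit 8) (.e (nat_lit 303118) (nat_lit 3) (.e (nat_lit 204816) (nat_lit 17) (.e (nat_lit 6203) (nat_lit 332) (.e (nat_lit 2798) (nat_lit 180) (.e (nat_lit 303119) (nat_lit 3) (.e (nat_lit 204849) (nat_lit 25) .nil))))))) (.g (nat_lit 1) (.e (nat_lit 366042) (nat_lit 0) .nil) .nil))) 
(.lf (nat_lit 577024) (.g (nat_lit 1657) (.e (nat_lit 336001) (nat_lit 2) (.e (nat_lit 90170) (nat_lit 13) (.e (nat_lit 172106) (nat_lit 10) (.e (nat_lit 434244) (nat_lit 28) (.e (nat_lit 573474) (nat_lit 12) .nil))))) (.g (nat_lit 0) (.e (nat_lit 368084) (nat_lit 0) .nil) .nil)))) (.nd (nat_lit 9) 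
(.lf (nat_lit 576768) (.g (nat_lit 2409) (.e (nat_lit 335986) (nat_lit 1) (.e (nat_lit 57927) (nat_lit 282) (.e (nat_lit 163868) (nat_lit 2) (.e (nat_lit 196681) (nat_lit 17) (.e (nat_lit 131124) (nat_lit 13) (.e (nat_lit 393229) (nat_lit 9) .nil)))))) (.g (nat_lit 1) (.e (nat_lit 367307) (nat_lit 0) .nil) .nil))) 
(.lf (nat_lit 577280) (.g (nat_lit 2599) (.e (nat_lit 336019) (nat_lit 3) (.e (nat_lit 98350) (nat_lit 24) (.e (nat_lit 409646) (nat_lit 18) (.e (nat_lit 303112) (nat_lit 0) (.e (nat_lit 3144) (nat_lit 193) .nil))))) (.g (nat_lit 0) (.e (nat_lit 368479) (nat_lit 0) .nil) .nil))))) (.nd (nat_lit 8) (.nd (nat_lit 9) 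
(.lf (nat_lit 576640) (.g (nat_lit 442) (.e (nat_lit 335894) (nat_lit 0) (.e (nat_lit 6724) (nat_lit 362) (.e (nat_lit 180224) (nat_lit 0) .nil))) (.g (nat_lit 0) (.e (nat_lit 366925) (nat_lit 0) .nil) .nil))) 
(.lf (nat_lit 577152) (.g (nat_lit 5353) (.e (nat_lit 336013) (nat_lit 2) (.e (nat_lit 90170) (nat_lit 13) (.e (nat_lit 172061) (nat_lit 1) (.e (nat_lit 164348) (nat_lit 240) (.e (nat_lit 2610) (nat_lit 163) (.e (nat_lit 163978) (nat_lit 30) (.e (nat_lit 573485) (nat_lit 13) (.e (nat_lit 65604) (nat_lit 9) .nil)))))))) (.g (nat_lit 1) (.e (nat_lit 368293) (nat_lit 0) .nil) .nil)))) 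
(.nd (nat_lit 9) 
(.lf (nat_lit 576896) (.g (nat_lit 2457) (.e (nat_lit 335988) (nat_lit 1) (.e (nat_lit 57927) (nat_lit 282) (.e (nat_lit 163946) (nat_lit 20) (.e (nat_lit 491566) (nat_lit 12) (.e (nat_lit 385092) (nat_lit 49) (.e (nat_lit 778331) (nat_lit 8) (.e (nat_lit 131116) (nat_lit 9) .nil))))))) (.g (nat_lit 1) (.e (nat_lit 367642) (nat_lit 0) .nil) .nil))) 
(.lf (nat_lit 577408) (.g (nat_lit 773) (.e (nat_lit 336022) (nat_lit 3) (.e (nat_lit 98365) (nat_lit 26) (.e (nat_lit 426306) (nat_lit 12) .nil))) (.g (nat_lit 0) (.e (nat_lit 368709) (nat_lit 0) .nil) .nil)))))) (.nd (nat_lit 7) (.nd (nat_lit 8) (.nd (nat_lit 9) 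
(.lf (nat_lit 576576) (.g (nat_lit 3389) (.e (nat_lit 327715) (nat_lit 16) (.e (nat_lit 286732) (nat_lit 2) (.e (nat_lit 90170) (nat_lit 13) (.e (nat_lit 172106) (nat_lit 10) (.e (nat_lit 434231) (nat_lit 23) (.e (nat_lit 532525) (nat_lit 8) .nil)))))) (.g (nat_lit 1) (.e (nat_lit 366381) (nat_lit 0) .nil) .nil))) 
(.lf (nat_lit 577088) (.g (nat_lit 2758) (.e (nat_lit 336008) (nat_lit 2) (.e (nat_lit 90170) (nat_lit 13) (.e (nat_lit 172113) (nat_lit 10) (.e (nat_lit 434245) (nat_lit 28) (.e (nat_lit 573473) (nat_lit 12) (.e (nat_lit 57348) (nat_lit 0) (.e (nat_lit 7265) (nat_lit 384) (.e (nat_lit 57412) (nat_lit 12) .nil)))))))) (.g (nat_lit 1) (.e (nat_lit 368195) (nat_lit 0) .nil) .nil)))) 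
(.nd (nat_lit 9) 
(.lf (nat_lit 576832) (.g (nat_lit 2779) (.e (nat_lit 335987) (nat_lit 1) (.e (nat_lit 57927) (nat_lit 282) (.e (nat_lit 163944) (nat_lit 19) (.e (nat_lit 483393) (nat_lit 23) (.e (nat_lit 336021) (nat_lit 3) (.e (nat_lit 98313) (nat_lit 9) .nil)))))) (.g (nat_lit 1) (.e (nat_lit 367450) (nat_lit 0) .nil) .nil))) 
(.lf (nat_lit 577344) (.g (nat_lit 1604) (.e (nat_lit 336020) (nat_lit 3) (.e (nat_lit 98333) (nat_lit 18) (.e (nat_lit 164182) (nat_lit 154) (.e (nat_lit 57411) (nat_lit 12) .nil)))) (.g (nat_lit 0) (.e (nat_lit 368572) (nat_lit 0) .nil) .nil))))) (.nd (nat_lit 8) (.nd (nat_lit 9) 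
(.lf (nat_lit 576704) (.g (nat_lit 3660) (.e (nat_lit 335986) (nat_lit 1) (.e (nat_lit 57691) (nat_lit 156) (.e (nat_lit 163905) (nat_lit 12) (.e (nat_lit 426428) (nat_lit 17) (.e (nat_lit 90178) (nat_lit 15) (.e (nat_lit 188421) (nat_lit 11) .nil)))))) (.g (nat_lit 1) (.e (nat_lit 367198) (nat_lit 0) .nil) .nil))) 
(.lf (nat_lit 577216) (.g (nat_lit 1303) (.e (nat_lit 336019) (nat_lit 3) (.e (nat_lit 98333) (nat_lit 18) (.e (nat_lit 164183) (nat_lit 154) (.e (nat_lit 57410) (nat_lit 12) .nil)))) (.g (nat_lit 0) (.e (nat_lit 368398) (nat_lit 0) .nil) .nil)))) (.nd (nat_lit 9) 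
(.lf (nat_lit 576960) (.g (nat_lit 2689) (.e (nat_lit 335995) (nat_lit 1) (.e (nat_lit 57929) (nat_lit 282) (.e (nat_lit 163905) (nat_lit 12) (.e (nat_lit 426555) (nat_lit 32) (.e (nat_lit 376869) (nat_lit 23) (.e (nat_lit 98313) (nat_lit 9) .nil)))))) (.g (nat_lit 1) (.e (nat_lit 367819) (nat_lit 0) .nil) .nil))) 
(.lf (nat_lit 577472) (.g (nat_lit 3802) (.e (nat_lit 336025) (nat_lit 3) (.e (nat_lit 98333) (nat_lit 18) (.e (nat_lit 164182) (nat_lit 154) (.e (nat_lit 57379) (nat_lit 3) (.e (nat_lit 98341) (nat_lit 20) (.e (nat_lit 221215) (nat_lit 23) (.e (nat_lit 204861) (nat_lit 26) .nil))))))) (.g (nat_lit 1) (.e (nat_lit 368793) (nat_lit 0) .nil) .nil))))))) 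
(.nd (nat_lit 6) (.nd (nat_lit 7) (.nd (nat_lit 8) (.nd (nat_lit 9) 
(.lf (nat_lit 576544) (.g (nat_lit 2226) (.e (nat_lit 327700) (nat_lit 8) (.e (nat_lit 303117) (nat_lit 2) (.e (nat_lit 196668) (nat_lit 14) (.e (nat_lit 73782) (nat_lit 32) .nil)))) (.g (nat_lit 0) (.e (nat_lit 366152) (nat_lit 0) .nil) .nil))) 
(.lf (nat_lit 577056) (.g (nat_lit 2554) (.e (nat_lit 336001) (nat_lit 2) (.e (nat_lit 90170) (nat_lit 13) (.e (nat_lit 172113) (nat_lit 10) (.e (nat_lit 434248) (nat_lit 28) (.e (nat_lit 573475) (nat_lit 12) (.e (nat_lit 57347) (nat_lit 0) (.e (nat_lit 7261) (nat_lit 384) (.e (nat_lit 57413) (nat_lit 12) .nil)))))))) (.g (nat_lit 1) (.e (nat_lit 368116) (nat_lit 0) .nil) .nil)))) 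
(.nd (nat_lit 9) 
(.lf (nat_lit 576800) (.g (nat_lit 1427) (.e (nat_lit 335987) (nat_lit 1) (.e (nat_lit 57852) (nat_lit 252) (.e (nat_lit 57354) (nat_lit 0) (.e (nat_lit 2061) (nat_lit 142) .nil)))) (.g (nat_lit 0) (.e (nat_lit 367376) (nat_lit 0) .nil) .nil))) 
(.lf (nat_lit 577312) (.g (nat_lit 3856) (.e (nat_lit 336019) (nat_lit 3) (.e (nat_lit 98372) (nat_lit 29) (.e (nat_lit 450588) (nat_lit 10) (.e (nat_lit 573474) (nat_lit 12) .nil)))) (.g (nat_lit 0) (.e (nat_lit 368522) (nat_lit 0) .nil) .nil))))) (.nd (nat_lit 8) (.nd (nat_lit 9) 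
(.lf (nat_lit 576672) (.g (nat_lit 539) (.e (nat_lit 335925) (nat_lit 0) (.e (nat_lit 1858) (nat_lit 124) (.e (nat_lit 557100) (nat_lit 13) .nil))) (.g (nat_lit 0) (.e (nat_lit 367087) (nat_lit 0) .nil) .nil))) 
(.lf (nat_lit 577184) (.g (nat_lit 1713) (.e (nat_lit 336017) (nat_lit 3) (.e (nat_lit 98350) (nat_lit 24) (.e (nat_lit 409650) (nat_lit 19) (.e (nat_lit 311315) (nat_lit 3) (.e (nat_lit 204859) (nat_lit 26) .nil))))) (.g (nat_lit 0) (.e (nat_lit 368351) (nat_lit 0) .nil) .nil)))) (.nd (nat_lit 9) 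
(.lf (nat_lit 576928) (.g (nat_lit 496) (.e (nat_lit 335994) (nat_lit 1) (.e (nat_lit 57931) (nat_lit 282) (.e (nat_lit 163943) (nat_lit 19) .nil))) (.g (nat_lit 0) (.e (nat_lit 367768) (nat_lit 0) .nil) .nil))) 
(.lf (nat_lit 577440) (.g (nat_lit 3377) (.e (nat_lit 336023) (nat_lit 3) (.e (nat_lit 98384) (nat_lit 32) (.e (nat_lit 475199) (nat_lit 40) (.e (nat_lit 704589) (nat_lit 3) (.e (nat_lit 163975) (nat_lit 30) .nil))))) (.g (nat_lit 0) (.e (nat_lit 368747) (nat_lit 0) .nil) .nil)))))) (.nd (nat_lit 7) (.nd (nat_lit 8) (.nd (nat_lit 9) 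
(.lf (nat_lit 576608) (.g (nat_lit 2535) (.e (nat_lit 335874) (nat_lit 0) (.e (nat_lit 6713) (nat_lit 360) (.e (nat_lit 163962) (nat_lit 25) (.e (nat_lit 532550) (nat_lit 12) (.e (nat_lit 360474) (nat_lit 8) (.e (nat_lit 557070) (nat_lit 9) (.e (nat_lit 281) (nat_lit 21) .nil))))))) (.g (nat_lit 1) (.e (nat_lit 366538) (nat_lit 0) .nil) .nil))) 
(.lf (nat_lit 577120) (.g (nat_lit 3476) (.e (nat_lit 336011) (nat_lit 2) (.e (nat_lit 90170) (nat_lit 13) (.e (nat_lit 172120) (nat_lit 12) (.e (nat_lit 475179) (nat_lit 24) (.e (nat_lit 516129) (nat_lit 3) (.e (nat_lit 221190) (nat_lit 11) .nil)))))) (.g (nat_lit 1) (.e (nat_lit 368229) (nat_lit 0) .nil) .nil)))) (.nd (nat_lit 9) 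
(.lf (nat_lit 576864) (.g (nat_lit 1384) (.e (nat_lit 335988) (nat_lit 1) (.e (nat_lit 57927) (nat_lit 282) (.e (nat_lit 163868) (nat_lit 2) (.e (nat_lit 196680) (nat_lit 17) .nil)))) (.g (nat_lit 0) (.e (nat_lit 367584) (nat_lit 0) .nil) .nil))) 
(.lf (nat_lit 577376) (.g (nat_lit 1540) (.e (nat_lit 336020) (nat_lit 3) (.e (nat_lit 98350) (nat_lit 24) (.e (nat_lit 409647) (nat_lit 18) (.e (nat_lit 303118) (nat_lit 3) .nil)))) (.g (nat_lit 0) (.e (nat_lit 368626) (nat_lit 0) .nil) .nil))))) (.nd (nat_lit 8) (.nd (nat_lit 9) 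
(.lf (nat_lit 576736) (.g (nat_lit 2470) (.e (nat_lit 335986) (nat_lit 1) (.e (nat_lit 57847) (nat_lit 252) (.e (nat_lit 57375) (nat_lit 2) (.e (nat_lit 90160) (nat_lit 11) (.e (nat_lit 24628) (nat_lit 9) (.e (nat_lit 336377) (nat_lit 27) (.e (nat_lit 426525) (nat_lit 27) .nil))))))) (.g (nat_lit 1) (.e (nat_lit 367240) (nat_lit 0) .nil) .nil))) 
(.lf (nat_lit 577248) (.g (nat_lit 3760) (.e (nat_lit 336019) (nat_lit 3) (.e (nat_lit 98342) (nat_lit 20) (.e (nat_lit 221214) (nat_lit 23) (.e (nat_lit 204829) (nat_lit 18) (.e (nat_lit 57931) (nat_lit 282) (.e (nat_lit 163873) (nat_lit 3) (.e (nat_lit 204853) (nat_lit 26) .nil))))))) (.g (nat_lit 1) (.e (nat_lit 368435) (nat_lit 0) .nil) .nil)))) (.nd (nat_lit 9) 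
(.lf (nat_lit 576992) (.g (nat_lit 3381) (.e (nat_lit 335996) (nat_lit 1) (.e (nat_lit 57931) (nat_lit 282) (.e (nat_lit 163873) (nat_lit 3) (.e (nat_lit 204866) (nat_lit 28) (.e (nat_lit 352277) (nat_lit 11) (.e (nat_lit 426500) (nat_lit 27) .nil)))))) (.g (nat_lit 1) (.e (nat_lit 367905) (nat_lit 0) .nil) .nil))) 
(.lf (nat_lit 577504) (.g (nat_lit 1898) (.e (nat_lit 336025) (nat_lit 3) (.e (nat_lit 98350) (nat_lit 24) (.e (nat_lit 409649) (nat_lit 18) (.e (nat_lit 303118) (nat_lit 3) .nil)))) (.g (nat_lit 0) (.e (nat_lit 368839) (nat_lit 0) .nil) .nil)))))))) (.nd (nat_lit 5) (.nd (nat_lit 6) (.nd (nat_lit 7) (.nd (nat_lit 8) (.nd (nat_lit 9) 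
(.lf (nat_lit 576528) (.g (nat_lit 2027) (.e (nat_lit 327699) (nat_lit 8) (.e (nat_lit 303119) (nat_lit 3) (.e (nat_lit 204846) (nat_lit 24) (.e (nat_lit 319490) (nat_lit 0) .nil)))) (.g (nat_lit 0) (.e (nat_lit 366065) (nat_lit 0) .nil) .nil))) 
(.lf (nat_lit 577040) (.g (nat_lit 2787) (.e (nat_lit 336001) (nat_lit 2) (.e (nat_lit 90170) (nat_lit 13) (.e (nat_lit 172113) (nat_lit 10) (.e (nat_lit 434245) (nat_lit 28) (.e (nat_lit 573473) (nat_lit 12) (.e (nat_lit 57354) (nat_lit 0) (.e (nat_lit 7270) (nat_lit 385) (.e (nat_lit 122905) (nat_lit 12) .nil)))))))) (.g (nat_lit 1) (.e (nat_lit 368100) (nat_lit 0) .nil) .nil)))) 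
(.nd (nat_lit 9) 
(.lf (nat_lit 576784) (.g (nat_lit 2590) (.e (nat_lit 335986) (nat_lit 1) (.e (nat_lit 57927) (nat_lit 282) (.e (nat_lit 163905) (nat_lit 12) (.e (nat_lit 426555) (nat_lit 32) (.e (nat_lit 376867) (nat_lit 23) (.e (nat_lit 98313) (nat_lit 9) .nil)))))) (.g (nat_lit 1) (.e (nat_lit 367325) (nat_lit 0) .nil) .nil))) 
(.lf (nat_lit 577296) (.g (nat_lit 3204) (.e (nat_lit 336019) (nat_lit 3) (.e (nat_lit 98350) (nat_lit 24) (.e (nat_lit 409649) (nat_lit 18) (.e (nat_lit 303116) (nat_lit 2) (.e (nat_lit 196681) (nat_lit 17) (.e (nat_lit 131108) (nat_lit 9) .nil)))))) (.g (nat_lit 1) (.e (nat_lit 368497) (nat_lit 0) .nil) .nil))))) (.nd (nat_lit 8) (.nd (nat_lit 9) 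
(.lf (nat_lit 576656) (.g (nat_lit 1679) (.e (nat_lit 335907) (nat_lit 0) (.e (nat_lit 1994) (nat_lit 137) (.e (nat_lit 663565) (nat_lit 3) (.e (nat_lit 57480) (nat_lit 28) (.e (nat_lit 557107) (nat_lit 15) .nil))))) (.g (nat_lit 0) (.e (nat_lit 367053) (nat_lit 0) .nil) .nil))) 
(.lf (nat_lit 577168) (.g (nat_lit 2108) (.e (nat_lit 343808) (nat_lit 2) (.e (nat_lit 90170) (nat_lit 13) (.e (nat_lit 172113) (nat_lit 10) (.e (nat_lit 434247) (nat_lit 28) (.e (nat_lit 573477) (nat_lit 12) .nil))))) (.g (nat_lit 0) (.e (nat_lit 368317) (nat_lit 0) .nil) .nil)))) (.nd (nat_lit 9) 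
(.lf (nat_lit 576912) (.g (nat_lit 2116) (.e (nat_lit 335993) (nat_lit 1) (.e (nat_lit 57688) (nat_lit 156) (.e (nat_lit 163902) (nat_lit 12) (.e (nat_lit 426438) (nat_lit 18) (.e (nat_lit 98381) (nat_lit 31) .nil))))) (.g (nat_lit 0) (.e (nat_lit 367721) (nat_lit 0) .nil) .nil))) 
(.lf (nat_lit 577424) (.g (nat_lit 2358) (.e (nat_lit 336023) (nat_lit 3) (.e (nat_lit 98350) (nat_lit 24) (.e (nat_lit 409648) (nat_lit 18) (.e (nat_lit 303116) (nat_lit 2) (.e (nat_lit 196666) (nat_lit 13) .nil))))) (.g (nat_lit 0) (.e (nat_lit 368729) (nat_lit 0) .nil) .nil)))))) (.nd (nat_lit 7) (.nd (nat_lit 8) (.nd (nat_lit 9) 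
(.lf (nat_lit 576592) (.g (nat_lit 3148) (.e (nat_lit 335872) (nat_lit 0) (.e (nat_lit 6711) (nat_lit 360) (.e (nat_lit 163962) (nat_lit 25) (.e (nat_lit 532550) (nat_lit 12) (.e (nat_lit 360475) (nat_lit 8) (.e (nat_lit 557073) (nat_lit 9) (.e (nat_lit 288) (nat_lit 21) .nil))))))) (.g (nat_lit 1) (.e (nat_lit 366450) (nat_lit 0) .nil) .nil))) 
(.lf (nat_lit 577104) (.g (nat_lit 3315) (.e (nat_lit 336008) (nat_lit 2) (.e (nat_lit 90170) (nat_lit 13) (.e (nat_lit 172113) (nat_lit 10) (.e (nat_lit 434248) (nat_lit 28) (.e (nat_lit 573473) (nat_lit 12) (.e (nat_lit 57354) (nat_lit 0) (.e (nat_lit 7270) (nat_lit 385) (.e (nat_lit 122906) (nat_lit 12) .nil)))))))) (.g (nat_lit 1) (.e (nat_lit 368211) (nat_lit 0) .nil) .nil)))) 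
(.nd (nat_lit 9) 
(.lf (nat_lit 576848) (.g (nat_lit 2426) (.e (nat_lit 335988) (nat_lit 1) (.e (nat_lit 57926) (nat_lit 282) (.e (nat_lit 163869) (nat_lit 2) (.e (nat_lit 196674) (nat_lit 15) (.e (nat_lit 89856) (nat_lit 11) (.e (nat_lit 426523) (nat_lit 27) .nil)))))) (.g (nat_lit 1) (.e (nat_lit 367523) (nat_lit 0) .nil) .nil))) 
(.lf (nat_lit 577360) (.g (nat_lit 2649) (.e (nat_lit 336020) (nat_lit 3) (.e (nat_lit 98349) (nat_lit 24) (.e (nat_lit 409645) (nat_lit 18) (.e (nat_lit 303117) (nat_lit 2) (.e (nat_lit 196665) (nat_lit 13) .nil))))) (.g (nat_lit 0) (.e (nat_lit 368607) (nat_lit 0) .nil) .nil))))) (.nd (nat_lit 8) (.nd (nat_lit 9) 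
(.lf (nat_lit 576720) (.g (nat_lit 3090) (.e (nat_lit 335986) (nat_lit 1) (.e (nat_lit 57847) (nat_lit 252) (.e (nat_lit 57365) (nat_lit 1) (.e (nat_lit 57927) (nat_lit 282) (.e (nat_lit 163933) (nat_lit 17) (.e (nat_lit 466972) (nat_lit 21) (.e (nat_lit 164402) (nat_lit 256) (.e (nat_lit 57419) (nat_lit 12) .nil)))))))) (.g (nat_lit 1) (.e (nat_lit 367224) (nat_lit 0) .nil) .nil))) 
(.lf (nat_lit 577232) (.g (nat_lit 2566) (.e (nat_lit 336019) (nat_lit 3) (.e (nat_lit 98341) (nat_lit 20) (.e (nat_lit 221214) (nat_lit 23) (.e (nat_lit 204830) (nat_lit 18) (.e (nat_lit 57931) (nat_lit 282) (.e (nat_lit 163873) (nat_lit 3) (.e (nat_lit 204853) (nat_lit 26) .nil))))))) (.g (nat_lit 1) (.e (nat_lit 368416) (nat_lit 0) .nil) .nil)))) (.nd (nat_lit 9) 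
(.lf (nat_lit 576976) (.g (nat_lit 3021) (.e (nat_lit 335996) (nat_lit 1) (.e (nat_lit 57692) (nat_lit 156) (.e (nat_lit 163907) (nat_lit 12) (.e (nat_lit 426432) (nat_lit 17) (.e (nat_lit 90176) (nat_lit 15) (.e (nat_lit 188423) (nat_lit 11) .nil)))))) (.g (nat_lit 1) (.e (nat_lit 367853) (nat_lit 0) .nil) .nil))) 
(.lf (nat_lit 577488) (.g (nat_lit 658) (.e (nat_lit 336025) (nat_lit 3) (.e (nat_lit 98349) (nat_lit 24) (.e (nat_lit 409649) (nat_lit 18) .nil))) (.g (nat_lit 0) (.e (nat_lit 368817) (nat_lit 0) .nil) .nil))))))) (.nd (nat_lit 6) (.nd (nat_lit 7) (.nd (nat_lit 8) (.nd (nat_lit 9) 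
(.lf (nat_lit 576560) (.g (nat_lit 1203) (.e (nat_lit 327700) (nat_lit 8) (.e (nat_lit 303144) (nat_lit 13) (.e (nat_lit 483343) (nat_lit 17) (.e (nat_lit 6720) (nat_lit 361) (.e (nat_lit 172144) (nat_lit 26) .nil))))) (.g (nat_lit 1) (.e (nat_lit 366257) (nat_lit 0) .nil) .nil))) 
(.lf (nat_lit 577072) (.g (nat_lit 766) (.e (nat_lit 336005) (nat_lit 2) (.e (nat_lit 90170) (nat_lit 13) (.e (nat_lit 172113) (nat_lit 10) .nil))) (.g (nat_lit 0) (.e (nat_lit 368173) (nat_lit 0) .nil) .nil)))) (.nd (nat_lit 9) 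
(.lf (nat_lit 576816) (.g (nat_lit 2275) (.e (nat_lit 335987) (nat_lit 1) (.e (nat_lit 57927) (nat_lit 282) (.e (nat_lit 163874) (nat_lit 3) (.e (nat_lit 204861) (nat_lit 26) (.e (nat_lit 336076) (nat_lit 9) (.e (nat_lit 336377) (nat_lit 27) (.e (nat_lit 426524) (nat_lit 27) .nil))))))) (.g (nat_lit 1) (.e (nat_lit 367427) (nat_lit 0) .nil) .nil))) 
(.lf (nat_lit 577328) (.g (nat_lit 6017) (.e (nat_lit 336019) (nat_lit 3) (.e (nat_lit 98373) (nat_lit 29) (.e (nat_lit 450588) (nat_lit 10) (.e (nat_lit 573474) (nat_lit 12) (.e (nat_lit 57347) (nat_lit 0) .nil))))) (.g (nat_lit 0) (.e (nat_lit 368538) (nat_lit 0) .nil) .nil))))) (.nd (nat_lit 8) (.nd (nat_lit 9) 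
(.lf (nat_lit 576688) (.g (nat_lit 2671) (.e (nat_lit 335986) (nat_lit 1) (.e (nat_lit 57686) (nat_lit 156) (.e (nat_lit 163902) (nat_lit 12) (.e (nat_lit 426428) (nat_lit 17) (.e (nat_lit 90176) (nat_lit 15) (.e (nat_lit 188423) (nat_lit 11) .nil)))))) (.g (nat_lit 1) (.e (nat_lit 367179) (nat_lit 0) .nil) .nil))) 
(.lf (nat_lit 577200) (.g (nat_lit 2356) (.e (nat_lit 336018) (nat_lit 3) (.e (nat_lit 98359) (nat_lit 26) (.e (nat_lit 426286) (nat_lit 10) (.e (nat_lit 434245) (nat_lit 28) (.e (nat_lit 573474) (nat_lit 12) .nil))))) (.g (nat_lit 0) (.e (nat_lit 368371) (nat_lit 0) .nil) .nil)))) (.nd (nat_lit 9) 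
(.lf (nat_lit 576944) (.g (nat_lit 2307) (.e (nat_lit 335995) (nat_lit 1) (.e (nat_lit 57688) (nat_lit 156) (.e (nat_lit 163903) (nat_lit 12) (.e (nat_lit 426436) (nat_lit 18) (.e (nat_lit 98382) (nat_lit 31) (.e (nat_lit 466950) (nat_lit 11) .nil)))))) (.g (nat_lit 1) (.e (nat_lit 367787) (nat_lit 0) .nil) .nil))) 
(.lf (nat_lit 577456) (.g (nat_lit 3511) (.e (nat_lit 336024) (nat_lit 3) (.e (nat_lit 98350) (nat_lit 24) (.e (nat_lit 409648) (nat_lit 18) (.e (nat_lit 303117) (nat_lit 2) (.e (nat_lit 196666) (nat_lit 13) (.e (nat_lit 65596) (nat_lit 9) .nil)))))) (.g (nat_lit 1) (.e (nat_lit 368771) (nat_lit 0) .nil) .nil)))))) (.nd (nat_lit 7) (.nd (nat_lit 8) (.nd (nat_lit 9) 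
(.lf (nat_lit 576624) (.g (nat_lit 2882) (.e (nat_lit 335876) (nat_lit 0) (.e (nat_lit 6713) (nat_lit 360) (.e (nat_lit 163962) (nat_lit 25) (.e (nat_lit 532550) (nat_lit 12) (.e (nat_lit 360475) (nat_lit 8) (.e (nat_lit 557073) (nat_lit 9) (.e (nat_lit 288) (nat_lit 21) .nil))))))) (.g (nat_lit 1) (.e (nat_lit 366629) (nat_lit 0) .nil) .nil))) 
(.lf (nat_lit 577136) (.g (nat_lit 6015) (.e (nat_lit 336013) (nat_lit 2) (.e (nat_lit 90134) (nat_lit 9) (.e (nat_lit 3098) (nat_lit 192) (.e (nat_lit 491566) (nat_lit 12) (.e (nat_lit 385074) (nat_lit 31) (.e (nat_lit 573482) (nat_lit 13) (.e (nat_lit 65604) (nat_lit 9) .nil))))))) (.g (nat_lit 1) (.e (nat_lit 368264) (nat_lit 0) .nil) .nil)))) (.nd (nat_lit 9) 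
(.lf (nat_lit 576880) (.g (nat_lit 338) (.e (nat_lit 335988) (nat_lit 1) (.e (nat_lit 57927) (nat_lit 282) (.e (nat_lit 163903) (nat_lit 12) .nil))) (.g (nat_lit 0) (.e (nat_lit 367609) (nat_lit 0) .nil) .nil))) 
(.lf (nat_lit 577392) (.g (nat_lit 3784) (.e (nat_lit 336020) (nat_lit 3) (.e (nat_lit 98384) (nat_lit 32) (.e (nat_lit 475199) (nat_lit 40) (.e (nat_lit 704589) (nat_lit 3) (.e (nat_lit 163978) (nat_lit 30) .nil))))) (.g (nat_lit 0) (.e (nat_lit 368644) (nat_lit 0) .nil) .nil))))) (.nd (nat_lit 8) (.nd (nat_lit 9) 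
(.lf (nat_lit 576752) (.g (nat_lit 2274) (.e (nat_lit 335986) (nat_lit 1) (.e (nat_lit 57849) (nat_lit 252) (.e (nat_lit 57375) (nat_lit 2) (.e (nat_lit 90158) (nat_lit 11) (.e (nat_lit 24628) (nat_lit 9) (.e (nat_lit 336372) (nat_lit 27) (.e (nat_lit 426524) (nat_lit 27) .nil))))))) (.g (nat_lit 1) (.e (nat_lit 367261) (nat_lit 0) .nil) .nil))) 
(.lf (nat_lit 577264) (.g (nat_lit 3009) (.e (nat_lit 336019) (nat_lit 3) (.e (nat_lit 98342) (nat_lit 20) (.e (nat_lit 221215) (nat_lit 23) (.e (nat_lit 204831) (nat_lit 18) (.e (nat_lit 57931) (nat_lit 282) (.e (nat_lit 163873) (nat_lit 3) (.e (nat_lit 204851) (nat_lit 26) .nil))))))) (.g (nat_lit 1) (.e (nat_lit 368457) (nat_lit 0) .nil) .nil)))) (.nd (nat_lit 9) 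
(.lf (nat_lit 577008) (.g (nat_lit 1689) (.e (nat_lit 335997) (nat_lit 1) (.e (nat_lit 57857) (nat_lit 254) (.e (nat_lit 163908) (nat_lit 12) (.e (nat_lit 426286) (nat_lit 10) (.e (nat_lit 434265) (nat_lit 35) (.e (nat_lit 630820) (nat_lit 16) (.e (nat_lit 65598) (nat_lit 9) .nil))))))) (.g (nat_lit 1) (.e (nat_lit 367948) (nat_lit 0) .nil) .nil))) 
(.lf (nat_lit 577520) (.g (nat_lit 2897) (.e (nat_lit 336026) (nat_lit 3) (.e (nat_lit 98333) (nat_lit 18) (.e (nat_lit 164183) (nat_lit 154) (.e (nat_lit 57378) (nat_lit 3) (.e (nat_lit 98341) (nat_lit 20) (.e (nat_lit 221214) (nat_lit 23) (.e (nat_lit 204861) (nat_lit 26) .nil))))))) (.g (nat_lit 1) (.e (nat_lit 368868) (nat_lit 0) .nil) .nil))))))))) 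
(.nd (nat_lit 4) (.nd (nat_lit 5) (.nd (nat_lit 6) (.nd (nat_lit 7) (.nd (nat_lit 8) 
(.nd (nat_lit 9) 
(.lf (nat_lit 576520) (.g (nat_lit 2609) (.e (nat_lit 327699) (nat_lit 8) (.e (nat_lit 303118) (nat_lit 3) (.e (nat_lit 204869) (nat_lit 29) (.e (nat_lit 360474) (nat_lit 8) (.e (nat_lit 557073) (nat_lit 9) (.e (nat_lit 220) (nat_lit 20) .nil)))))) (.g (nat_lit 1) (.e (nat_lit 366052) (nat_lit 0) .nil) .nil))) 
(.lf (nat_lit 577032) (.g (nat_lit 2075) (.e (nat_lit 336001) (nat_lit 2) (.e (nat_lit 90170) (nat_lit 13) (.e (nat_lit 172106) (nat_lit 10) (.e (nat_lit 434244) (nat_lit 28) (.e (nat_lit 573474) (nat_lit 12) (.e (nat_lit 57356) (nat_lit 0) (.e (nat_lit 7270) (nat_lit 385) (.e (nat_lit 122905) (nat_lit 12) .nil)))))))) (.g (nat_lit 1) (.e (nat_lit 368092) (nat_lit 0) .nil) .nil)))) 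
(.nd (nat_lit 9) 
(.lf (nat_lit 576776) (.g (nat_lit 2422) (.e (nat_lit 335986) (nat_lit 1) (.e (nat_lit 57927) (nat_lit 282) (.e (nat_lit 163874) (nat_lit 3) (.e (nat_lit 204861) (nat_lit 26) (.e (nat_lit 336076) (nat_lit 9) (.e (nat_lit 336377) (nat_lit 27) (.e (nat_lit 426524) (nat_lit 27) .nil))))))) (.g (nat_lit 1) (.e (nat_lit 367317) (nat_lit 0) .nil) .nil))) 
(.lf (nat_lit 577288) (.g (nat_lit 3256) (.e (nat_lit 336019) (nat_lit 3) (.e (nat_lit 98350) (nat_lit 24) (.e (nat_lit 409648) (nat_lit 18) (.e (nat_lit 303116) (nat_lit 2) (.e (nat_lit 196681) (nat_lit 17) (.e (nat_lit 131108) (nat_lit 9) .nil)))))) (.g (nat_lit 1) (.e (nat_lit 368487) (nat_lit 0) .nil) .nil))))) (.nd (nat_lit 8) (.nd (nat_lit 9) 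
(.lf (nat_lit 576648) (.g (nat_lit 3286) (.e (nat_lit 335895) (nat_lit 0) (.e (nat_lit 6718) (nat_lit 361) (.e (nat_lit 172143) (nat_lit 25) (.e (nat_lit 319490) (nat_lit 0) (.e (nat_lit 5664) (nat_lit 312) (.e (nat_lit 2887) (nat_lit 184) (.e (nat_lit 426499) (nat_lit 27) .nil))))))) (.g (nat_lit 1) (.e (nat_lit 366983) (nat_lit 0) .nil) .nil))) 
(.lf (nat_lit 577160) (.g (nat_lit 2546) (.e (nat_lit 336014) (nat_lit 2) (.e (nat_lit 90170) (nat_lit 13) (.e (nat_lit 172106) (nat_lit 10) (.e (nat_lit 434244) (nat_lit 28) .nil)))) (.g (nat_lit 0) (.e (nat_lit 368301) (nat_lit 0) .nil) .nil)))) (.nd (nat_lit 9) 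
(.lf (nat_lit 576904) (.g (nat_lit 3602) (.e (nat_lit 335988) (nat_lit 1) (.e (nat_lit 57931) (nat_lit 282) (.e (nat_lit 163905) (nat_lit 12) (.e (nat_lit 426542) (nat_lit 29) (.e (nat_lit 352315) (nat_lit 23) (.e (nat_lit 98312) (nat_lit 9) .nil)))))) (.g (nat_lit 1) (.e (nat_lit 367667) (nat_lit 0) .nil) .nil))) 
(.lf (nat_lit 577416) (.g (nat_lit 861) (.e (nat_lit 336023) (nat_lit 3) (.e (nat_lit 98334) (nat_lit 18) (.e (nat_lit 164183) (nat_lit 154) .nil))) (.g (nat_lit 0) (.e (nat_lit 368719) (nat_lit 0) .nil) .nil)))))) (.nd (nat_lit 7) (.nd (nat_lit 8) (.nd (nat_lit 9) 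
(.lf (nat_lit 576584) (.g (nat_lit 3386) (.e (nat_lit 327716) (nat_lit 16) (.e (nat_lit 286733) (nat_lit 2) (.e (nat_lit 90170) (nat_lit 13) (.e (nat_lit 172106) (nat_lit 10) (.e (nat_lit 434231) (nat_lit 23) (.e (nat_lit 532525) (nat_lit 8) .nil)))))) (.g (nat_lit 1) (.e (nat_lit 366415) (nat_lit 0) .nil) .nil))) 
(.lf (nat_lit 577096) (.g (nat_lit 2801) (.e (nat_lit 336008) (nat_lit 2) (.e (nat_lit 90170) (nat_lit 13) (.e (nat_lit 172113) (nat_lit 10) (.e (nat_lit 434247) (nat_lit 28) (.e (nat_lit 573477) (nat_lit 12) (.e (nat_lit 57353) (nat_lit 0) (.e (nat_lit 7261) (nat_lit 384) (.e (nat_lit 57412) (nat_lit 12) .nil)))))))) (.g (nat_lit 1) (.e (nat_lit 368203) (nat_lit 0) .nil) .nil)))) 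
(.nd (nat_lit 9) 
(.lf (nat_lit 576840) (.g (nat_lit 2219) (.e (nat_lit 335988) (nat_lit 1) (.e (nat_lit 57926) (nat_lit 282) (.e (nat_lit 163867) (nat_lit 2) (.e (nat_lit 196672) (nat_lit 15) (.e (nat_lit 81925) (nat_lit 11) (.e (nat_lit 426500) (nat_lit 27) .nil)))))) (.g (nat_lit 1) (.e (nat_lit 367513) (nat_lit 0) .nil) .nil))) 
(.lf (nat_lit 577352) (.g (nat_lit 1454) (.e (nat_lit 336020) (nat_lit 3) (.e (nat_lit 98334) (nat_lit 18) (.e (nat_lit 164183) (nat_lit 154) (.e (nat_lit 57378) (nat_lit 3) .nil)))) (.g (nat_lit 0) (.e (nat_lit 368590) (nat_lit 0) .nil) .nil))))) (.nd (nat_lit 8) (.nd (nat_lit 9) 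
(.lf (nat_lit 576712) (.g (nat_lit 2798) (.e (nat_lit 335986) (nat_lit 1) (.e (nat_lit 57692) (nat_lit 156) (.e (nat_lit 163905) (nat_lit 12) (.e (nat_lit 426438) (nat_lit 18) (.e (nat_lit 98370) (nat_lit 28) (.e (nat_lit 442390) (nat_lit 11) .nil)))))) (.g (nat_lit 1) (.e (nat_lit 367206) (nat_lit 0) .nil) .nil))) 
(.lf (nat_lit 577224) (.g (nat_lit 1927) (.e (nat_lit 336019) (nat_lit 3) (.e (nat_lit 98335) (nat_lit 18) (.e (nat_lit 164183) (nat_lit 154) (.e (nat_lit 57411) (nat_lit 12) (.e (nat_lit 336375) (nat_lit 27) .nil))))) (.g (nat_lit 0) (.e (nat_lit 368407) (nat_lit 0) .nil) .nil)))) (.nd (nat_lit 9) 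
(.lf (nat_lit 576968) (.g (nat_lit 3073) (.e (nat_lit 335995) (nat_lit 1) (.e (nat_lit 57931) (nat_lit 282) (.e (nat_lit 163905) (nat_lit 12) (.e (nat_lit 426542) (nat_lit 29) (.e (nat_lit 352315) (nat_lit 23) (.e (nat_lit 98316) (nat_lit 9) .nil)))))) (.g (nat_lit 1) (.e (nat_lit 367834) (nat_lit 0) .nil) .nil))) 
(.lf (nat_lit 577480) (.g (nat_lit 747) (.e (nat_lit 336025) (nat_lit 3) (.e (nat_lit 98335) (nat_lit 18) (.e (nat_lit 164182) (nat_lit 154) .nil))) (.g (nat_lit 0) (.e (nat_lit 368808) (nat_lit 0) .nil) .nil))))))) (.nd (nat_lit 6) (.nd (nat_lit 7) (.nd (nat_lit 8) (.nd (nat_lit 9) 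
(.lf (nat_lit 576552) (.g (nat_lit 4674) (.e (nat_lit 327700) (nat_lit 8) (.e (nat_lit 303119) (nat_lit 3) (.e (nat_lit 204869) (nat_lit 29) (.e (nat_lit 360450) (nat_lit 0) (.e (nat_lit 4153) (nat_lit 249) .nil))))) (.g (nat_lit 0) (.e (nat_lit 366178) (nat_lit 0) .nil) .nil))) 
(.lf (nat_lit 577064) (.g (nat_lit 1979) (.e (nat_lit 336001) (nat_lit 2) (.e (nat_lit 90185) (nat_lit 17) (.e (nat_lit 237605) (nat_lit 9) (.e (nat_lit 426436) (nat_lit 18) (.e (nat_lit 98342) (nat_lit 20) .nil))))) (.g (nat_lit 0) (.e (nat_lit 368124) (nat_lit 0) .nil) .nil)))) (.nd (nat_lit 9) 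
(.lf (nat_lit 576808) (.g (nat_lit 1432) (.e (nat_lit 335987) (nat_lit 1) (.e (nat_lit 57926) (nat_lit 282) (.e (nat_lit 163875) (nat_lit 3) (.e (nat_lit 204877) (nat_lit 31) (.e (nat_lit 376840) (nat_lit 11) .nil))))) (.g (nat_lit 0) (.e (nat_lit 367409) (nat_lit 0) .nil) .nil))) 
(.lf (nat_lit 577320) (.g (nat_lit 1138) (.e (nat_lit 336019) (nat_lit 3) (.e (nat_lit 98373) (nat_lit 29) (.e (nat_lit 450586) (nat_lit 10) .nil))) (.g (nat_lit 0) (.e (nat_lit 368530) (nat_lit 0) .nil) .nil))))) (.nd (nat_lit 8) (.nd (nat_lit 9) 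
(.lf (nat_lit 576680) (.g (nat_lit 2055) (.e (nat_lit 335971) (nat_lit 0) (.e (nat_lit 1788) (nat_lit 119) (.e (nat_lit 516165) (nat_lit 12) (.e (nat_lit 450586) (nat_lit 10) (.e (nat_lit 573475) (nat_lit 12) .nil))))) (.g (nat_lit 0) (.e (nat_lit 367144) (nat_lit 0) .nil) .nil))) 
(.lf (nat_lit 577192) (.g (nat_lit 887) (.e (nat_lit 336018) (nat_lit 3) (.e (nat_lit 98335) (nat_lit 18) (.e (nat_lit 164179) (nat_lit 154) .nil))) (.g (nat_lit 0) (.e (nat_lit 368360) (nat_lit 0) .nil) .nil)))) (.nd (nat_lit 9) 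
(.lf (nat_lit 576936) (.g (nat_lit 927) (.e (nat_lit 335995) (nat_lit 1) (.e (nat_lit 57688) (nat_lit 156) (.e (nat_lit 163902) (nat_lit 12) (.e (nat_lit 426436) (nat_lit 18) .nil)))) (.g (nat_lit 0) (.e (nat_lit 367779) (nat_lit 0) .nil) .nil))) 
(.lf (nat_lit 577448) (.g (nat_lit 1805) (.e (nat_lit 336024) (nat_lit 3) (.e (nat_lit 98333) (nat_lit 18) (.e (nat_lit 164182) (nat_lit 154) (.e (nat_lit 57379) (nat_lit 3) .nil)))) (.g (nat_lit 0) (.e (nat_lit 368756) (nat_lit 0) .nil) .nil)))))) (.nd (nat_lit 7) (.nd (nat_lit 8) (.nd (nat_lit 9) 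
(.lf (nat_lit 576616) (.g (nat_lit 2308) (.e (nat_lit 335876) (nat_lit 0) (.e (nat_lit 6711) (nat_lit 360) (.e (nat_lit 163962) (nat_lit 25) (.e (nat_lit 532550) (nat_lit 12) (.e (nat_lit 360474) (nat_lit 8) (.e (nat_lit 557072) (nat_lit 9) (.e (nat_lit 7936) (nat_lit 21) .nil))))))) (.g (nat_lit 1) (.e (nat_lit 366614) (nat_lit 0) .nil) .nil))) 
(.lf (nat_lit 577128) (.g (nat_lit 3765) (.e (nat_lit 336013) (nat_lit 2) (.e (nat_lit 90134) (nat_lit 9) (.e (nat_lit 3025) (nat_lit 187) (.e (nat_lit 450587) (nat_lit 10) (.e (nat_lit 573477) (nat_lit 12) (.e (nat_lit 57574) (nat_lit 55) (.e (nat_lit 778362) (nat_lit 9) (.e (nat_lit 232) (nat_lit 21) .nil)))))))) (.g (nat_lit 1) (.e (nat_lit 368255) (nat_lit 0) .nil) .nil)))) (.nd (nat_lit 9) 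
(.lf (nat_lit 576872) (.g (nat_lit 2883) (.e (nat_lit 335988) (nat_lit 1) (.e (nat_lit 57927) (nat_lit 282) (.e (nat_lit 163873) (nat_lit 3) (.e (nat_lit 204866) (nat_lit 28) (.e (nat_lit 352277) (nat_lit 11) (.e (nat_lit 426500) (nat_lit 27) .nil)))))) (.g (nat_lit 1) (.e (nat_lit 367596) (nat_lit 0) .nil) .nil))) 
(.lf (nat_lit 577384) (.g (nat_lit 775) (.e (nat_lit 336020) (nat_lit 3) (.e (nat_lit 98365) (nat_lit 26) (.e (nat_lit 426188) (nat_lit 9) .nil))) (.g (nat_lit 0) (.e (nat_lit 368636) (nat_lit 0) .nil) .nil))))) (.nd (nat_lit 8) (.nd (nat_lit 9) 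
(.lf (nat_lit 576744) (.g (nat_lit 3061) (.e (nat_lit 335986) (nat_lit 1) (.e (nat_lit 57849) (nat_lit 252) (.e (nat_lit 57372) (nat_lit 2) (.e (nat_lit 90158) (nat_lit 11) (.e (nat_lit 24628) (nat_lit 9) (.e (nat_lit 336375) (nat_lit 27) (.e (nat_lit 426525) (nat_lit 27) .nil))))))) (.g (nat_lit 1) (.e (nat_lit 367253) (nat_lit 0) .nil) .nil))) 
(.lf (nat_lit 577256) (.g (nat_lit 4297) (.e (nat_lit 336019) (nat_lit 3) (.e (nat_lit 98342) (nat_lit 20) (.e (nat_lit 221215) (nat_lit 23) (.e (nat_lit 204829) (nat_lit 18) (.e (nat_lit 57927) (nat_lit 282) (.e (nat_lit 163873) (nat_lit 3) (.e (nat_lit 204853) (nat_lit 26) .nil))))))) (.g (nat_lit 1) (.e (nat_lit 368445) (nat_lit 0) .nil) .nil)))) (.nd (nat_lit 9) 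
(.lf (nat_lit 577000) (.g (nat_lit 2918) (.e (nat_lit 335996) (nat_lit 1) (.e (nat_lit 57931) (nat_lit 282) (.e (nat_lit 163905) (nat_lit 12) (.e (nat_lit 426555) (nat_lit 32) (.e (nat_lit 376867) (nat_lit 23) (.e (nat_lit 98317) (nat_lit 9) .nil)))))) (.g (nat_lit 1) (.e (nat_lit 367913) (nat_lit 0) .nil) .nil))) 
(.lf (nat_lit 577512) (.g (nat_lit 3531) (.e (nat_lit 336026) (nat_lit 3) (.e (nat_lit 98333) (nat_lit 18) (.e (nat_lit 164179) (nat_lit 154) (.e (nat_lit 57378) (nat_lit 3) (.e (nat_lit 98340) (nat_lit 20) .nil))))) (.g (nat_lit 0) (.e (nat_lit 368857) (nat_lit 0) .nil) .nil)))))))) (.nd (nat_lit 5) (.nd (nat_lit 6) (.nd (nat_lit 7) (.nd (nat_lit 8) (.nd (nat_lit 9) 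
(.lf (nat_lit 576536) (.g (nat_lit 4671) (.e (nat_lit 327699) (nat_lit 8) (.e (nat_lit 303119) (nat_lit 3) (.e (nat_lit 204869) (nat_lit 29) (.e (nat_lit 360450) (nat_lit 0) (.e (nat_lit 4153) (nat_lit 249) .nil))))) (.g (nat_lit 0) (.e (nat_lit 366082) (nat_lit 0) .nil) .nil))) 
(.lf (nat_lit 577048) (.g (nat_lit 2573) (.e (nat_lit 336001) (nat_lit 2) (.e (nat_lit 90170) (nat_lit 13) (.e (nat_lit 172113) (nat_lit 10) (.e (nat_lit 434247) (nat_lit 28) (.e (nat_lit 573473) (nat_lit 12) .nil))))) (.g (nat_lit 0) (.e (nat_lit 368108) (nat_lit 0) .nil) .nil)))) (.nd (nat_lit 9) 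
(.lf (nat_lit 576792) (.g (nat_lit 2655) (.e (nat_lit 335986) (nat_lit 1) (.e (nat_lit 57931) (nat_lit 282) (.e (nat_lit 163867) (nat_lit 2) (.e (nat_lit 196674) (nat_lit 15) (.e (nat_lit 81925) (nat_lit 11) (.e (nat_lit 426500) (nat_lit 27) .nil)))))) (.g (nat_lit 1) (.e (nat_lit 367344) (nat_lit 0) .nil) .nil))) 
(.lf (nat_lit 577304) (.g (nat_lit 3024) (.e (nat_lit 336019) (nat_lit 3) (.e (nat_lit 98372) (nat_lit 29) (.e (nat_lit 450586) (nat_lit 10) (.e (nat_lit 573473) (nat_lit 12) (.e (nat_lit 57354) (nat_lit 0) (.e (nat_lit 7270) (nat_lit 385) (.e (nat_lit 122904) (nat_lit 12) .nil))))))) (.g (nat_lit 1) (.e (nat_lit 368514) (nat_lit 0) .nil) .nil))))) (.nd (nat_lit 8) (.nd (nat_lit 9) 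
(.lf (nat_lit 576664) (.g (nat_lit 472) (.e (nat_lit 335923) (nat_lit 0) (.e (nat_lit 1788) (nat_lit 119) (.e (nat_lit 516139) (nat_lit 7) .nil))) (.g (nat_lit 0) (.e (nat_lit 367074) (nat_lit 0) .nil) .nil))) 
(.lf (nat_lit 577176) (.g (nat_lit 2916) (.e (nat_lit 336017) (nat_lit 3) (.e (nat_lit 98342) (nat_lit 20) (.e (nat_lit 221214) (nat_lit 23) (.e (nat_lit 204829) (nat_lit 18) (.e (nat_lit 57931) (nat_lit 282) (.e (nat_lit 163874) (nat_lit 3) (.e (nat_lit 204859) (nat_lit 26) .nil))))))) (.g (nat_lit 1) (.e (nat_lit 368343) (nat_lit 0) .nil) .nil)))) (.nd (nat_lit 9) 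
(.lf (nat_lit 576920) (.g (nat_lit 1778) (.e (nat_lit 335994) (nat_lit 1) (.e (nat_lit 57688) (nat_lit 156) (.e (nat_lit 163902) (nat_lit 12) (.e (nat_lit 426436) (nat_lit 18) (.e (nat_lit 98379) (nat_lit 31) .nil))))) (.g (nat_lit 0) (.e (nat_lit 367753) (nat_lit 0) .nil) .nil))) 
(.lf (nat_lit 577432) (.g (nat_lit 4611) (.e (nat_lit 336023) (nat_lit 3) (.e (nat_lit 98373) (nat_lit 29) (.e (nat_lit 450588) (nat_lit 10) (.e (nat_lit 573473) (nat_lit 12) (.e (nat_lit 57348) (nat_lit 0) (.e (nat_lit 7261) (nat_lit 384) (.e (nat_lit 57412) (nat_lit 12) .nil))))))) (.g (nat_lit 1) (.e (nat_lit 368739) (nat_lit 0) .nil) .nil)))))) 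
(.nd (nat_lit 7) (.nd (nat_lit 8) (.nd (nat_lit 9) 
(.lf (nat_lit 576600) (.g (nat_lit 1028) (.e (nat_lit 335878) (nat_lit 0) (.e (nat_lit 1860) (nat_lit 124) (.e (nat_lit 557072) (nat_lit 9) (.e (nat_lit 2741) (nat_lit 174) .nil)))) (.g (nat_lit 0) (.e (nat_lit 366499) (nat_lit 0) .nil) .nil))) 
(.lf (nat_lit 577112) (.g (nat_lit 1809) (.e (nat_lit 336009) (nat_lit 2) (.e (nat_lit 90170) (nat_lit 13) (.e (nat_lit 172120) (nat_lit 12) (.e (nat_lit 475177) (nat_lit 24) .nil)))) (.g (nat_lit 0) (.e (nat_lit 368220) (nat_lit 0) .nil) .nil)))) (.nd (nat_lit 9) 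
(.lf (nat_lit 576856) (.g (nat_lit 3357) (.e (nat_lit 335988) (nat_lit 1) (.e (nat_lit 57926) (nat_lit 282) (.e (nat_lit 163905) (nat_lit 12) (.e (nat_lit 426542) (nat_lit 29) (.e (nat_lit 352315) (nat_lit 23) (.e (nat_lit 98312) (nat_lit 9) .nil)))))) (.g (nat_lit 1) (.e (nat_lit 367550) (nat_lit 0) .nil) .nil))) 
(.lf (nat_lit 577368) (.g (nat_lit 752) (.e (nat_lit 336020) (nat_lit 3) (.e (nat_lit 98350) (nat_lit 24) (.e (nat_lit 409617) (nat_lit 10) .nil))) (.g (nat_lit 0) (.e (nat_lit 368616) (nat_lit 0) .nil) .nil))))) (.nd (nat_lit 8) (.nd (nat_lit 9) 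
(.lf (nat_lit 576728) (.g (nat_lit 2023) (.e (nat_lit 335986) (nat_lit 1) (.e (nat_lit 57847) (nat_lit 252) (.e (nat_lit 57372) (nat_lit 2) (.e (nat_lit 90160) (nat_lit 11) (.e (nat_lit 24628) (nat_lit 9) (.e (nat_lit 336368) (nat_lit 27) (.e (nat_lit 426501) (nat_lit 27) .nil))))))) (.g (nat_lit 1) (.e (nat_lit 367232) (nat_lit 0) .nil) .nil))) 
(.lf (nat_lit 577240) (.g (nat_lit 440) (.e (nat_lit 336019) (nat_lit 3) (.e (nat_lit 98342) (nat_lit 20) (.e (nat_lit 221198) (nat_lit 20) .nil))) (.g (nat_lit 0) (.e (nat_lit 368426) (nat_lit 0) .nil) .nil)))) (.nd (nat_lit 9) 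
(.lf (nat_lit 576984) (.g (nat_lit 2442) (.e (nat_lit 335996) (nat_lit 1) (.e (nat_lit 57929) (nat_lit 282) (.e (nat_lit 163867) (nat_lit 2) (.e (nat_lit 196674) (nat_lit 15) (.e (nat_lit 81925) (nat_lit 11) (.e (nat_lit 426500) (nat_lit 27) .nil)))))) (.g (nat_lit 1) (.e (nat_lit 367887) (nat_lit 0) .nil) .nil))) 
(.lf (nat_lit 577496) (.g (nat_lit 2988) (.e (nat_lit 336025) (nat_lit 3) (.e (nat_lit 98350) (nat_lit 24) (.e (nat_lit 409646) (nat_lit 18) (.e (nat_lit 303117) (nat_lit 2) (.e (nat_lit 196665) (nat_lit 13) (.e (nat_lit 65608) (nat_lit 9) .nil)))))) (.g (nat_lit 1) (.e (nat_lit 368831) (nat_lit 0) .nil) .nil))))))) (.nd (nat_lit 6) (.nd (nat_lit 7) (.nd (nat_lit 8) (.nd (nat_lit 9) 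
(.lf (nat_lit 576568) (.g (nat_lit 431) (.e (nat_lit 327700) (nat_lit 8) (.e (nat_lit 303145) (nat_lit 13) (.e (nat_lit 483413) (nat_lit 27) .nil))) (.g (nat_lit 0) (.e (nat_lit 366279) (nat_lit 0) .nil) .nil))) 
(.lf (nat_lit 577080) (.g (nat_lit 2396) (.e (nat_lit 336006) (nat_lit 2) (.e (nat_lit 90170) (nat_lit 13) (.e (nat_lit 172113) (nat_lit 10) (.e (nat_lit 434245) (nat_lit 28) (.e (nat_lit 573473) (nat_lit 12) .nil))))) (.g (nat_lit 0) (.e (nat_lit 368181) (nat_lit 0) .nil) .nil)))) (.nd (nat_lit 9) 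
(.lf (nat_lit 576824) (.g (nat_lit 2325) (.e (nat_lit 335987) (nat_lit 1) (.e (nat_lit 57927) (nat_lit 282) (.e (nat_lit 163905) (nat_lit 12) (.e (nat_lit 426542) (nat_lit 29) (.e (nat_lit 352315) (nat_lit 23) (.e (nat_lit 98312) (nat_lit 9) .nil)))))) (.g (nat_lit 1) (.e (nat_lit 367435) (nat_lit 0) .nil) .nil))) 
(.lf (nat_lit 577336) (.g (nat_lit 4410) (.e (nat_lit 336019) (nat_lit 3) (.e (nat_lit 98373) (nat_lit 29) (.e (nat_lit 450588) (nat_lit 10) (.e (nat_lit 573478) (nat_lit 12) .nil)))) (.g (nat_lit 0) (.e (nat_lit 368546) (nat_lit 0) .nil) .nil))))) (.nd (nat_lit 8) (.nd (nat_lit 9) 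
(.lf (nat_lit 576696) (.g (nat_lit 3229) (.e (nat_lit 335986) (nat_lit 1) (.e (nat_lit 57688) (nat_lit 156) (.e (nat_lit 163902) (nat_lit 12) (.e (nat_lit 426438) (nat_lit 18) (.e (nat_lit 98370) (nat_lit 28) (.e (nat_lit 442390) (nat_lit 11) .nil)))))) (.g (nat_lit 1) (.e (nat_lit 367187) (nat_lit 0) .nil) .nil))) 
(.lf (nat_lit 577208) (.g (nat_lit 4135) (.e (nat_lit 336018) (nat_lit 3) (.e (nat_lit 98373) (nat_lit 29) (.e (nat_lit 450587) (nat_lit 10) (.e (nat_lit 573472) (nat_lit 12) .nil)))) (.g (nat_lit 0) (.e (nat_lit 368379) (nat_lit 0) .nil) .nil)))) (.nd (nat_lit 9) 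
(.lf (nat_lit 576952) (.g (nat_lit 1688) (.e (nat_lit 335995) (nat_lit 1) (.e (nat_lit 57848) (nat_lit 252) (.e (nat_lit 57374) (nat_lit 2) (.e (nat_lit 98048) (nat_lit 11) .nil)))) (.g (nat_lit 0) (.e (nat_lit 367803) (nat_lit 0) .nil) .nil))) 
(.lf (nat_lit 577464) (.g (nat_lit 1445) (.e (nat_lit 336025) (nat_lit 3) (.e (nat_lit 98317) (nat_lit 9) (.e (nat_lit 335988) (nat_lit 1) (.e (nat_lit 57927) (nat_lit 282) .nil)))) (.g (nat_lit 0) (.e (nat_lit 368780) (nat_lit 0) .nil) .nil)))))) (.nd (nat_lit 7) (.nd (nat_lit 8) (.nd (nat_lit 9) 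
(.lf (nat_lit 576632) (.g (nat_lit 1135) (.e (nat_lit 335893) (nat_lit 0) (.e (nat_lit 6720) (nat_lit 361) (.e (nat_lit 172143) (nat_lit 25) (.e (nat_lit 319492) (nat_lit 0) (.e (nat_lit 5771) (nat_lit 316) (.e (nat_lit 172150) (nat_lit 27) .nil)))))) (.g (nat_lit 1) (.e (nat_lit 366781) (nat_lit 0) .nil) .nil))) 
(.lf (nat_lit 577144) (.g (nat_lit 4772) (.e (nat_lit 336013) (nat_lit 2) (.e (nat_lit 90170) (nat_lit 13) (.e (nat_lit 172042) (nat_lit 0) (.e (nat_lit 3406) (nat_lit 212) (.e (nat_lit 655375) (nat_lit 3) (.e (nat_lit 163978) (nat_lit 30) (.e (nat_lit 573485) (nat_lit 13) (.e (nat_lit 65604) (nat_lit 9) .nil)))))))) (.g (nat_lit 1) (.e (nat_lit 368285) (nat_lit 0) .nil) .nil)))) (.nd (nat_lit 9) 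
(.lf (nat_lit 576888) (.g (nat_lit 2764) (.e (nat_lit 335988) (nat_lit 1) (.e (nat_lit 57927) (nat_lit 282) (.e (nat_lit 163905) (nat_lit 12) (.e (nat_lit 426555) (nat_lit 32) (.e (nat_lit 376867) (nat_lit 23) (.e (nat_lit 98317) (nat_lit 9) .nil)))))) (.g (nat_lit 1) (.e (nat_lit 367618) (nat_lit 0) .nil) .nil))) 
(.lf (nat_lit 577400) (.g (nat_lit 3255) (.e (nat_lit 336021) (nat_lit 3) (.e (nat_lit 98350) (nat_lit 24) (.e (nat_lit 409648) (nat_lit 18) (.e (nat_lit 303117) (nat_lit 2) (.e (nat_lit 196665) (nat_lit 13) .nil))))) (.g (nat_lit 0) (.e (nat_lit 368696) (nat_lit 0) .nil) .nil))))) (.nd (nat_lit 8) (.nd (nat_lit 9) 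
(.lf (nat_lit 576760) (.g (nat_lit 2231) (.e (nat_lit 335986) (nat_lit 1) (.e (nat_lit 57924) (nat_lit 282) (.e (nat_lit 163867) (nat_lit 2) (.e (nat_lit 196672) (nat_lit 15) (.e (nat_lit 81925) (nat_lit 11) (.e (nat_lit 426500) (nat_lit 27) .nil)))))) (.g (nat_lit 1) (.e (nat_lit 367292) (nat_lit 0) .nil) .nil))) 
(.lf (nat_lit 577272) (.g (nat_lit 1197) (.e (nat_lit 336019) (nat_lit 3) (.e (nat_lit 98350) (nat_lit 24) (.e (nat_lit 409623) (nat_lit 10) (.e (nat_lit 5664) (nat_lit 312) .nil)))) (.g (nat_lit 0) (.e (nat_lit 368471) (nat_lit 0) .nil) .nil)))) (.nd (nat_lit 9) 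
(.lf (nat_lit 577016) (.g (nat_lit 2023) (.e (nat_lit 335998) (nat_lit 1) (.e (nat_lit 57848) (nat_lit 252) (.e (nat_lit 57372) (nat_lit 2) (.e (nat_lit 90159) (nat_lit 11) (.e (nat_lit 24657) (nat_lit 13) (.e (nat_lit 393227) (nat_lit 9) .nil)))))) (.g (nat_lit 1) (.e (nat_lit 367993) (nat_lit 0) .nil) .nil))) 
(.lf (nat_lit 577528) (.g (nat_lit 2569) (.e (nat_lit 336026) (nat_lit 3) (.e (nat_lit 98335) (nat_lit 18) (.e (nat_lit 164179) (nat_lit 154) (.e (nat_lit 57378) (nat_lit 3) (.e (nat_lit 98342) (nat_lit 20) .nil))))) (.g (nat_lit 0) (.e (nat_lit 368887) (nat_lit 0) .nil) .nil)))))))))) 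
(.nd (nat_lit 3) (.nd (nat_lit 4) (.nd (nat_lit 5) (.nd (nat_lit 6) (.nd (nat_lit 7) 
(.nd (nat_lit 8) (.nd (nat_lit 9) 
(.lf (nat_lit 576516) (.g (nat_lit 4847) (.e (nat_lit 327699) (nat_lit 8) (.e (nat_lit 303118) (nat_lit 3) (.e (nat_lit 204849) (nat_lit 25) (.e (nat_lit 327699) (nat_lit 8) (.e (nat_lit 303119) (nat_lit 3) (.e (nat_lit 204849) (nat_lit 25) .nil)))))) (.g (nat_lit 1) (.e (nat_lit 366047) (nat_lit 0) .nil) .nil))) 
(.lf (nat_lit 577028) (.g (nat_lit 3478) (.e (nat_lit 336001) (nat_lit 2) (.e (nat_lit 90170) (nat_lit 13) (.e (nat_lit 172106) (nat_lit 10) (.e (nat_lit 434244) (nat_lit 28) (.e (nat_lit 573474) (nat_lit 12) (.e (nat_lit 57352) (nat_lit 0) (.e (nat_lit 7263) (nat_lit 384) (.e (nat_lit 57412) (nat_lit 12) .nil)))))))) (.g (nat_lit 1) (.e (nat_lit 368088) (nat_lit 0) .nil) .nil)))) 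
(.nd (nat_lit 9) 
(.lf (nat_lit 576772) (.g (nat_lit 3218) (.e (nat_lit 335986) (nat_lit 1) (.e (nat_lit 57927) (nat_lit 282) (.e (nat_lit 163869) (nat_lit 2) (.e (nat_lit 196674) (nat_lit 15) (.e (nat_lit 81925) (nat_lit 11) (.e (nat_lit 426500) (nat_lit 27) .nil)))))) (.g (nat_lit 1) (.e (nat_lit 367313) (nat_lit 0) .nil) .nil))) 
(.lf (nat_lit 577284) (.g (nat_lit 2887) (.e (nat_lit 336019) (nat_lit 3) (.e (nat_lit 98350) (nat_lit 24) (.e (nat_lit 409647) (nat_lit 18) (.e (nat_lit 303116) (nat_lit 2) (.e (nat_lit 196681) (nat_lit 17) (.e (nat_lit 131105) (nat_lit 9) .nil)))))) (.g (nat_lit 1) (.e (nat_lit 368483) (nat_lit 0) .nil) .nil))))) (.nd (nat_lit 8) (.nd (nat_lit 9) 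
(.lf (nat_lit 576644) (.g (nat_lit 319) (.e (nat_lit 335894) (nat_lit 0) (.e (nat_lit 6724) (nat_lit 362) (.e (nat_lit 180269) (nat_lit 25) .nil))) (.g (nat_lit 0) (.e (nat_lit 366949) (nat_lit 0) .nil) .nil))) 
(.lf (nat_lit 577156) (.g (nat_lit 4020) (.e (nat_lit 336013) (nat_lit 2) (.e (nat_lit 90170) (nat_lit 13) (.e (nat_lit 172113) (nat_lit 10) (.e (nat_lit 434242) (nat_lit 28) (.e (nat_lit 573474) (nat_lit 12) (.e (nat_lit 57569) (nat_lit 53) (.e (nat_lit 761867) (nat_lit 5) (.e (nat_lit 1454) (nat_lit 108) .nil)))))))) (.g (nat_lit 1) (.e (nat_lit 368297) (nat_lit 0) .nil) .nil)))) 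
(.nd (nat_lit 9) 
(.lf (nat_lit 576900) (.g (nat_lit 3149) (.e (nat_lit 335988) (nat_lit 1) (.e (nat_lit 57931) (nat_lit 282) (.e (nat_lit 163869) (nat_lit 2) (.e (nat_lit 196674) (nat_lit 15) (.e (nat_lit 81925) (nat_lit 11) (.e (nat_lit 426497) (nat_lit 27) .nil)))))) (.g (nat_lit 1) (.e (nat_lit 367652) (nat_lit 0) .nil) .nil))) 
(.lf (nat_lit 577412) (.g (nat_lit 1853) (.e (nat_lit 336022) (nat_lit 3) (.e (nat_lit 98372) (nat_lit 29) (.e (nat_lit 450586) (nat_lit 10) (.e (nat_lit 573477) (nat_lit 12) (.e (nat_lit 57353) (nat_lit 0) .nil))))) (.g (nat_lit 0) (.e (nat_lit 368713) (nat_lit 0) .nil) .nil)))))) (.nd (nat_lit 7) (.nd (nat_lit 8) (.nd (nat_lit 9) 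
(.lf (nat_lit 576580) (.g (nat_lit 2822) (.e (nat_lit 327715) (nat_lit 16) (.e (nat_lit 286733) (nat_lit 2) (.e (nat_lit 90178) (nat_lit 15) (.e (nat_lit 188450) (nat_lit 23) (.e (nat_lit 204848) (nat_lit 25) .nil))))) (.g (nat_lit 1) (.e (nat_lit 366388) (nat_lit 0) .nil) .nil))) 
(.lf (nat_lit 577092) (.g (nat_lit 2586) (.e (nat_lit 336008) (nat_lit 2) (.e (nat_lit 90170) (nat_lit 13) (.e (nat_lit 172113) (nat_lit 10) (.e (nat_lit 434245) (nat_lit 28) (.e (nat_lit 573474) (nat_lit 12) (.e (nat_lit 57354) (nat_lit 0) (.e (nat_lit 7272) (nat_lit 385) (.e (nat_lit 122906) (nat_lit 12) .nil)))))))) (.g (nat_lit 1) (.e (nat_lit 368199) (nat_lit 0) .nil) .nil)))) 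
(.nd (nat_lit 9) 
(.lf (nat_lit 576836) (.g (nat_lit 729) (.e (nat_lit 335988) (nat_lit 1) (.e (nat_lit 57692) (nat_lit 156) (.e (nat_lit 163916) (nat_lit 13) .nil))) (.g (nat_lit 0) (.e (nat_lit 367457) (nat_lit 0) .nil) .nil))) 
(.lf (nat_lit 577348) (.g (nat_lit 2514) (.e (nat_lit 336020) (nat_lit 3) (.e (nat_lit 98334) (nat_lit 18) (.e (nat_lit 164182) (nat_lit 154) (.e (nat_lit 57378) (nat_lit 3) (.e (nat_lit 98341) (nat_lit 20) .nil))))) (.g (nat_lit 0) (.e (nat_lit 368578) (nat_lit 0) .nil) .nil))))) (.nd (nat_lit 8) (.nd (nat_lit 9) 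
(.lf (nat_lit 576708) (.g (nat_lit 2767) (.e (nat_lit 335986) (nat_lit 1) (.e (nat_lit 57691) (nat_lit 156) (.e (nat_lit 163907) (nat_lit 12) (.e (nat_lit 426436) (nat_lit 18) (.e (nat_lit 98369) (nat_lit 28) (.e (nat_lit 442390) (nat_lit 11) .nil)))))) (.g (nat_lit 1) (.e (nat_lit 367202) (nat_lit 0) .nil) .nil))) 
(.lf (nat_lit 577220) (.g (nat_lit 2515) (.e (nat_lit 336019) (nat_lit 3) (.e (nat_lit 98334) (nat_lit 18) (.e (nat_lit 164182) (nat_lit 154) (.e (nat_lit 57411) (nat_lit 12) (.e (nat_lit 336377) (nat_lit 27) .nil))))) (.g (nat_lit 0) (.e (nat_lit 368402) (nat_lit 0) .nil) .nil)))) (.nd (nat_lit 9) 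
(.lf (nat_lit 576964) (.g (nat_lit 583) (.e (nat_lit 335995) (nat_lit 1) (.e (nat_lit 57931) (nat_lit 282) (.e (nat_lit 163900) (nat_lit 12) .nil))) (.g (nat_lit 0) (.e (nat_lit 367830) (nat_lit 0) .nil) .nil))) 
(.lf (nat_lit 577476) (.g (nat_lit 2075) (.e (nat_lit 336025) (nat_lit 3) (.e (nat_lit 98334) (nat_lit 18) (.e (nat_lit 164183) (nat_lit 154) (.e (nat_lit 57378) (nat_lit 3) (.e (nat_lit 98340) (nat_lit 20) .nil))))) (.g (nat_lit 0) (.e (nat_lit 368802) (nat_lit 0) .nil) .nil))))))) (.nd (nat_lit 6) (.nd (nat_lit 7) (.nd (nat_lit 8) (.nd (nat_lit 9) 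
(.lf (nat_lit 576548) (.g (nat_lit 1233) (.e (nat_lit 327700) (nat_lit 8) (.e (nat_lit 303118) (nat_lit 3) (.e (nat_lit 204869) (nat_lit 29) (.e (nat_lit 360475) (nat_lit 8) .nil)))) (.g (nat_lit 0) (.e (nat_lit 366166) (nat_lit 0) .nil) .nil))) 
(.lf (nat_lit 577060) (.g (nat_lit 3591) (.e (nat_lit 336001) (nat_lit 2) (.e (nat_lit 90170) (nat_lit 13) (.e (nat_lit 172113) (nat_lit 10) (.e (nat_lit 434248) (nat_lit 28) (.e (nat_lit 573475) (nat_lit 12) (.e (nat_lit 57354) (nat_lit 0) (.e (nat_lit 7270) (nat_lit 385) (.e (nat_lit 122905) (nat_lit 12) .nil)))))))) (.g (nat_lit 1) (.e (nat_lit 368120) (nat_lit 0) .nil) .nil)))) 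
(.nd (nat_lit 9) 
(.lf (nat_lit 576804) (.g (nat_lit 2820) (.e (nat_lit 335987) (nat_lit 1) (.e (nat_lit 57854) (nat_lit 252) (.e (nat_lit 57388) (nat_lit 5) (.e (nat_lit 114698) (nat_lit 11) (.e (nat_lit 426334) (nat_lit 13) (.e (nat_lit 483393) (nat_lit 23) .nil)))))) (.g (nat_lit 1) (.e (nat_lit 367400) (nat_lit 0) .nil) .nil))) 
(.lf (nat_lit 577316) (.g (nat_lit 5000) (.e (nat_lit 336019) (nat_lit 3) (.e (nat_lit 98372) (nat_lit 29) (.e (nat_lit 450588) (nat_lit 10) (.e (nat_lit 573475) (nat_lit 12) (.e (nat_lit 57348) (nat_lit 0) (.e (nat_lit 7265) (nat_lit 384) (.e (nat_lit 57406) (nat_lit 12) .nil))))))) (.g (nat_lit 1) (.e (nat_lit 368526) (nat_lit 0) .nil) .nil))))) (.nd (nat_lit 8) (.nd (nat_lit 9) 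
(.lf (nat_lit 576676) (.g (nat_lit 3341) (.e (nat_lit 335938) (nat_lit 0) (.e (nat_lit 1788) (nat_lit 119) (.e (nat_lit 516166) (nat_lit 12) (.e (nat_lit 450588) (nat_lit 10) (.e (nat_lit 573473) (nat_lit 12) .nil))))) (.g (nat_lit 0) (.e (nat_lit 367135) (nat_lit 0) .nil) .nil))) 
(.lf (nat_lit 577188) (.g (nat_lit 2409) (.e (nat_lit 336017) (nat_lit 3) (.e (nat_lit 98365) (nat_lit 26) (.e (nat_lit 426306) (nat_lit 12) (.e (nat_lit 475177) (nat_lit 24) (.e (nat_lit 516131) (nat_lit 3) .nil))))) (.g (nat_lit 0) (.e (nat_lit 368356) (nat_lit 0) .nil) .nil)))) (.nd (nat_lit 9) 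
(.lf (nat_lit 576932) (.g (nat_lit 2626) (.e (nat_lit 335995) (nat_lit 1) (.e (nat_lit 57687) (nat_lit 156) (.e (nat_lit 163902) (nat_lit 12) (.e (nat_lit 426428) (nat_lit 17) (.e (nat_lit 90176) (nat_lit 15) (.e (nat_lit 188423) (nat_lit 11) .nil)))))) (.g (nat_lit 1) (.e (nat_lit 367775) (nat_lit 0) .nil) .nil))) 
(.lf (nat_lit 577444) (.g (nat_lit 653) (.e (nat_lit 336023) (nat_lit 3) (.e (nat_lit 98386) (nat_lit 32) (.e (nat_lit 475198) (nat_lit 40) .nil))) (.g (nat_lit 0) (.e (nat_lit 368751) (nat_lit 0) .nil) .nil)))))) (.nd (nat_lit 7) (.nd (nat_lit 8) (.nd (nat_lit 9) 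
(.lf (nat_lit 576612) (.g (nat_lit 967) (.e (nat_lit 335874) (nat_lit 0) (.e (nat_lit 6719) (nat_lit 361) (.e (nat_lit 172143) (nat_lit 25) (.e (nat_lit 319490) (nat_lit 0) (.e (nat_lit 5771) (nat_lit 316) (.e (nat_lit 172149) (nat_lit 27) .nil)))))) (.g (nat_lit 1) (.e (nat_lit 366548) (nat_lit 0) .nil) .nil))) 
(.lf (nat_lit 577124) (.g (nat_lit 4035) (.e (nat_lit 336013) (nat_lit 2) (.e (nat_lit 90134) (nat_lit 9) (.e (nat_lit 3025) (nat_lit 187) (.e (nat_lit 450586) (nat_lit 10) (.e (nat_lit 573474) (nat_lit 12) (.e (nat_lit 57572) (nat_lit 54) (.e (nat_lit 770056) (nat_lit 5) (.e (nat_lit 1449) (nat_lit 108) .nil)))))))) (.g (nat_lit 1) (.e (nat_lit 368251) (nat_lit 0) .nil) .nil)))) (.nd (nat_lit 9) 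
(.lf (nat_lit 576868) (.g (nat_lit 2947) (.e (nat_lit 335988) (nat_lit 1) (.e (nat_lit 57927) (nat_lit 282) (.e (nat_lit 163869) (nat_lit 2) (.e (nat_lit 196681) (nat_lit 17) (.e (nat_lit 131125) (nat_lit 13) (.e (nat_lit 393229) (nat_lit 9) .nil)))))) (.g (nat_lit 1) (.e (nat_lit 367591) (nat_lit 0) .nil) .nil))) 
(.lf (nat_lit 577380) (.g (nat_lit 2217) (.e (nat_lit 336020) (nat_lit 3) (.e (nat_lit 98350) (nat_lit 24) (.e (nat_lit 409649) (nat_lit 18) (.e (nat_lit 303118) (nat_lit 3) (.e (nat_lit 204855) (nat_lit 26) .nil))))) (.g (nat_lit 0) (.e (nat_lit 368631) (nat_lit 0) .nil) .nil))))) (.nd (nat_lit 8) (.nd (nat_lit 9) 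
(.lf (nat_lit 576740) (.g (nat_lit 2723) (.e (nat_lit 335986) (nat_lit 1) (.e (nat_lit 57849) (nat_lit 252) (.e (nat_lit 57372) (nat_lit 2) (.e (nat_lit 90158) (nat_lit 11) (.e (nat_lit 24628) (nat_lit 9) (.e (nat_lit 336368) (nat_lit 27) (.e (nat_lit 426501) (nat_lit 27) .nil))))))) (.g (nat_lit 1) (.e (nat_lit 367249) (nat_lit 0) .nil) .nil))) 
(.lf (nat_lit 577252) (.g (nat_lit 3033) (.e (nat_lit 336019) (nat_lit 3) (.e (nat_lit 98342) (nat_lit 20) (.e (nat_lit 221214) (nat_lit 23) (.e (nat_lit 204830) (nat_lit 18) (.e (nat_lit 57931) (nat_lit 282) (.e (nat_lit 163874) (nat_lit 3) (.e (nat_lit 204853) (nat_lit 26) .nil))))))) (.g (nat_lit 1) (.e (nat_lit 368441) (nat_lit 0) .nil) .nil)))) (.nd (nat_lit 9) 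
(.lf (nat_lit 576996) (.g (nat_lit 3068) (.e (nat_lit 335996) (nat_lit 1) (.e (nat_lit 57931) (nat_lit 282) (.e (nat_lit 163874) (nat_lit 3) (.e (nat_lit 204876) (nat_lit 31) (.e (nat_lit 376842) (nat_lit 11) (.e (nat_lit 426500) (nat_lit 27) .nil)))))) (.g (nat_lit 1) (.e (nat_lit 367909) (nat_lit 0) .nil) .nil))) 
(.lf (nat_lit 577508) (.g (nat_lit 2859) (.e (nat_lit 336025) (nat_lit 3) (.e (nat_lit 98384) (nat_lit 32) (.e (nat_lit 475199) (nat_lit 40) (.e (nat_lit 704589) (nat_lit 3) .nil)))) (.g (nat_lit 0) (.e (nat_lit 368844) (nat_lit 0) .nil) .nil)))))))) (.nd (nat_lit 5) (.nd (nat_lit 6) (.nd (nat_lit 7) (.nd (nat_lit 8) (.nd (nat_lit 9) 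
(.lf (nat_lit 576532) (.g (nat_lit 3079) (.e (nat_lit 327699) (nat_lit 8) (.e (nat_lit 303119) (nat_lit 3) (.e (nat_lit 204849) (nat_lit 25) (.e (nat_lit 327699) (nat_lit 8) (.e (nat_lit 303119) (nat_lit 3) (.e (nat_lit 204848) (nat_lit 25) .nil)))))) (.g (nat_lit 1) (.e (nat_lit 366072) (nat_lit 0) .nil) .nil))) 
(.lf (nat_lit 577044) (.g (nat_lit 2715) (.e (nat_lit 336001) (nat_lit 2) (.e (nat_lit 90170) (nat_lit 13) (.e (nat_lit 172113) (nat_lit 10) (.e (nat_lit 434245) (nat_lit 28) (.e (nat_lit 573474) (nat_lit 12) (.e (nat_lit 57354) (nat_lit 0) (.e (nat_lit 7270) (nat_lit 385) (.e (nat_lit 122903) (nat_lit 12) .nil)))))))) (.g (nat_lit 1) (.e (nat_lit 368104) (nat_lit 0) .nil) .nil)))) 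
(.nd (nat_lit 9) 
(.lf (nat_lit 576788) (.g (nat_lit 3201) (.e (nat_lit 335986) (nat_lit 1) (.e (nat_lit 57927) (nat_lit 282) (.e (nat_lit 163941) (nat_lit 19) (.e (nat_lit 483393) (nat_lit 23) (.e (nat_lit 336021) (nat_lit 3) (.e (nat_lit 98317) (nat_lit 9) .nil)))))) (.g (nat_lit 1) (.e (nat_lit 367333) (nat_lit 0) .nil) .nil))) 
(.lf (nat_lit 577300) (.g (nat_lit 2793) (.e (nat_lit 336019) (nat_lit 3) (.e (nat_lit 98356) (nat_lit 26) (.e (nat_lit 426422) (nat_lit 16) (.e (nat_lit 57688) (nat_lit 156) (.e (nat_lit 163875) (nat_lit 3) (.e (nat_lit 204829) (nat_lit 18) (.e (nat_lit 57847) (nat_lit 252) (.e (nat_lit 57410) (nat_lit 12) .nil)))))))) (.g (nat_lit 1) (.e (nat_lit 368509) (nat_lit 0) .nil) .nil))))) 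
(.nd (nat_lit 8) (.nd (nat_lit 9) 
(.lf (nat_lit 576660) (.g (nat_lit 2428) (.e (nat_lit 335916) (nat_lit 0) (.e (nat_lit 1788) (nat_lit 119) (.e (nat_lit 516139) (nat_lit 7) (.e (nat_lit 409649) (nat_lit 18) (.e (nat_lit 303117) (nat_lit 2) .nil))))) (.g (nat_lit 0) (.e (nat_lit 367067) (nat_lit 0) .nil) .nil))) 
(.lf (nat_lit 577172) (.g (nat_lit 363) (.e (nat_lit 336017) (nat_lit 3) (.e (nat_lit 98333) (nat_lit 18) (.e (nat_lit 164179) (nat_lit 154) .nil))) (.g (nat_lit 0) (.e (nat_lit 368329) (nat_lit 0) .nil) .nil)))) (.nd (nat_lit 9) 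
(.lf (nat_lit 576916) (.g (nat_lit 1416) (.e (nat_lit 335994) (nat_lit 1) (.e (nat_lit 57686) (nat_lit 156) (.e (nat_lit 163903) (nat_lit 12) (.e (nat_lit 426436) (nat_lit 18) .nil)))) (.g (nat_lit 0) (.e (nat_lit 367749) (nat_lit 0) .nil) .nil))) 
(.lf (nat_lit 577428) (.g (nat_lit 1819) (.e (nat_lit 336023) (nat_lit 3) (.e (nat_lit 98350) (nat_lit 24) (.e (nat_lit 409649) (nat_lit 18) (.e (nat_lit 303117) (nat_lit 2) .nil)))) (.g (nat_lit 0) (.e (nat_lit 368733) (nat_lit 0) .nil) .nil)))))) (.nd (nat_lit 7) (.nd (nat_lit 8) (.nd (nat_lit 9) 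
(.lf (nat_lit 576596) (.g (nat_lit 2883) (.e (nat_lit 335872) (nat_lit 0) (.e (nat_lit 6713) (nat_lit 360) (.e (nat_lit 163962) (nat_lit 25) (.e (nat_lit 532550) (nat_lit 12) (.e (nat_lit 360475) (nat_lit 8) (.e (nat_lit 557068) (nat_lit 9) (.e (nat_lit 288) (nat_lit 21) .nil))))))) (.g (nat_lit 1) (.e (nat_lit 366455) (nat_lit 0) .nil) .nil))) 
(.lf (nat_lit 577108) (.g (nat_lit 2457) (.e (nat_lit 336008) (nat_lit 2) (.e (nat_lit 90170) (nat_lit 13) (.e (nat_lit 172113) (nat_lit 10) (.e (nat_lit 434248) (nat_lit 28) (.e (nat_lit 573475) (nat_lit 12) (.e (nat_lit 57354) (nat_lit 0) (.e (nat_lit 7272) (nat_lit 385) (.e (nat_lit 122906) (nat_lit 12) .nil)))))))) (.g (nat_lit 1) (.e (nat_lit 368215) (nat_lit 0) .nil) .nil)))) 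
(.nd (nat_lit 9) 
(.lf (nat_lit 576852) (.g (nat_lit 2667) (.e (nat_lit 335988) (nat_lit 1) (.e (nat_lit 57926) (nat_lit 282) (.e (nat_lit 163875) (nat_lit 3) (.e (nat_lit 204852) (nat_lit 26) (.e (nat_lit 336211) (nat_lit 13) (.e (nat_lit 393224) (nat_lit 9) .nil)))))) (.g (nat_lit 1) (.e (nat_lit 367532) (nat_lit 0) .nil) .nil))) 
(.lf (nat_lit 577364) (.g (nat_lit 1794) (.e (nat_lit 336020) (nat_lit 3) (.e (nat_lit 98349) (nat_lit 24) (.e (nat_lit 409649) (nat_lit 18) (.e (nat_lit 303119) (nat_lit 3) .nil)))) (.g (nat_lit 0) (.e (nat_lit 368611) (nat_lit 0) .nil) .nil))))) (.nd (nat_lit 8) (.nd (nat_lit 9) 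
(.lf (nat_lit 576724) (.g (nat_lit 2632) (.e (nat_lit 335986) (nat_lit 1) (.e (nat_lit 57847) (nat_lit 252) (.e (nat_lit 57372) (nat_lit 2) (.e (nat_lit 90160) (nat_lit 11) (.e (nat_lit 24624) (nat_lit 9) (.e (nat_lit 336375) (nat_lit 27) (.e (nat_lit 426525) (nat_lit 27) .nil))))))) (.g (nat_lit 1) (.e (nat_lit 367228) (nat_lit 0) .nil) .nil))) 
(.lf (nat_lit 577236) (.g (nat_lit 3118) (.e (nat_lit 336019) (nat_lit 3) (.e (nat_lit 98341) (nat_lit 20) (.e (nat_lit 221215) (nat_lit 23) (.e (nat_lit 204830) (nat_lit 18) (.e (nat_lit 57926) (nat_lit 282) (.e (nat_lit 163874) (nat_lit 3) (.e (nat_lit 204854) (nat_lit 26) .nil))))))) (.g (nat_lit 1) (.e (nat_lit 368421) (nat_lit 0) .nil) .nil)))) (.nd (nat_lit 9) 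
(.lf (nat_lit 576980) (.g (nat_lit 2474) (.e (nat_lit 335996) (nat_lit 1) (.e (nat_lit 57853) (nat_lit 252) (.e (nat_lit 57371) (nat_lit 2) (.e (nat_lit 90160) (nat_lit 11) (.e (nat_lit 24630) (nat_lit 9) .nil))))) (.g (nat_lit 0) (.e (nat_lit 367870) (nat_lit 0) .nil) .nil))) 
(.lf (nat_lit 577492) (.g (nat_lit 2962) (.e (nat_lit 336025) (nat_lit 3) (.e (nat_lit 98350) (nat_lit 24) (.e (nat_lit 409645) (nat_lit 18) (.e (nat_lit 303112) (nat_lit 0) (.e (nat_lit 3252) (nat_lit 197) .nil))))) (.g (nat_lit 0) (.e (nat_lit 368827) (nat_lit 0) .nil) .nil))))))) (.nd (nat_lit 6) (.nd (nat_lit 7) (.nd (nat_lit 8) (.nd (nat_lit 9) 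
(.lf (nat_lit 576564) (.g (nat_lit 599) (.e (nat_lit 327700) (nat_lit 8) (.e (nat_lit 303145) (nat_lit 13) (.e (nat_lit 483344) (nat_lit 17) .nil))) (.g (nat_lit 0) (.e (nat_lit 366265) (nat_lit 0) .nil) .nil))) 
(.lf (nat_lit 577076) (.g (nat_lit 3491) (.e (nat_lit 336005) (nat_lit 2) (.e (nat_lit 90170) (nat_lit 13) (.e (nat_lit 172113) (nat_lit 10) (.e (nat_lit 434245) (nat_lit 28) (.e (nat_lit 573474) (nat_lit 12) (.e (nat_lit 57354) (nat_lit 0) (.e (nat_lit 7270) (nat_lit 385) (.e (nat_lit 122906) (nat_lit 12) .nil)))))))) (.g (nat_lit 1) (.e (nat_lit 368177) (nat_lit 0) .nil) .nil)))) 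
(.nd (nat_lit 9) 
(.lf (nat_lit 576820) (.g (nat_lit 2134) (.e (nat_lit 335987) (nat_lit 1) (.e (nat_lit 57927) (nat_lit 282) (.e (nat_lit 163875) (nat_lit 3) (.e (nat_lit 204877) (nat_lit 31) (.e (nat_lit 376842) (nat_lit 11) (.e (nat_lit 426521) (nat_lit 27) .nil)))))) (.g (nat_lit 1) (.e (nat_lit 367431) (nat_lit 0) .nil) .nil))) 
(.lf (nat_lit 577332) (.g (nat_lit 6423) (.e (nat_lit 336019) (nat_lit 3) (.e (nat_lit 98373) (nat_lit 29) (.e (nat_lit 450588) (nat_lit 10) (.e (nat_lit 573475) (nat_lit 12) (.e (nat_lit 57347) (nat_lit 0) (.e (nat_lit 7266) (nat_lit 384) (.e (nat_lit 57409) (nat_lit 12) .nil))))))) (.g (nat_lit 1) (.e (nat_lit 368542) (nat_lit 0) .nil) .nil))))) (.nd (nat_lit 8) (.nd (nat_lit 9) 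
(.lf (nat_lit 576692) (.g (nat_lit 3530) (.e (nat_lit 335986) (nat_lit 1) (.e (nat_lit 57686) (nat_lit 156) (.e (nat_lit 163903) (nat_lit 12) (.e (nat_lit 426428) (nat_lit 17) (.e (nat_lit 90178) (nat_lit 15) (.e (nat_lit 188421) (nat_lit 11) .nil)))))) (.g (nat_lit 1) (.e (nat_lit 367183) (nat_lit 0) .nil) .nil))) 
(.lf (nat_lit 577204) (.g (nat_lit 2308) (.e (nat_lit 336018) (nat_lit 3) (.e (nat_lit 98372) (nat_lit 29) (.e (nat_lit 450588) (nat_lit 10) (.e (nat_lit 573473) (nat_lit 12) .nil)))) (.g (nat_lit 0) (.e (nat_lit 368375) (nat_lit 0) .nil) .nil)))) (.nd (nat_lit 9) 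
(.lf (nat_lit 576948) (.g (nat_lit 2897) (.e (nat_lit 335995) (nat_lit 1) (.e (nat_lit 57688) (nat_lit 156) (.e (nat_lit 163907) (nat_lit 12) (.e (nat_lit 426436) (nat_lit 18) (.e (nat_lit 98371) (nat_lit 28) .nil))))) (.g (nat_lit 0) (.e (nat_lit 367791) (nat_lit 0) .nil) .nil))) 
(.lf (nat_lit 577460) (.g (nat_lit 2856) (.e (nat_lit 336024) (nat_lit 3) (.e (nat_lit 98384) (nat_lit 32) (.e (nat_lit 475199) (nat_lit 40) (.e (nat_lit 704589) (nat_lit 3) .nil)))) (.g (nat_lit 0) (.e (nat_lit 368776) (nat_lit 0) .nil) .nil)))))) (.nd (nat_lit 7) (.nd (nat_lit 8) (.nd (nat_lit 9) 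
(.lf (nat_lit 576628) (.g (nat_lit 1282) (.e (nat_lit 335891) (nat_lit 0) (.e (nat_lit 1999) (nat_lit 137) (.e (nat_lit 663567) (nat_lit 4) (.e (nat_lit 65630) (nat_lit 14) (.e (nat_lit 401458) (nat_lit 13) .nil))))) (.g (nat_lit 0) (.e (nat_lit 366693) (nat_lit 0) .nil) .nil))) 
(.lf (nat_lit 577140) (.g (nat_lit 3739) (.e (nat_lit 336013) (nat_lit 2) (.e (nat_lit 90165) (nat_lit 12) (.e (nat_lit 164219) (nat_lit 180) (.e (nat_lit 229644) (nat_lit 232) (.e (nat_lit 78) (nat_lit 0) (.e (nat_lit 3307) (nat_lit 202) (.e (nat_lit 573485) (nat_lit 13) (.e (nat_lit 65604) (nat_lit 9) .nil)))))))) (.g (nat_lit 1) (.e (nat_lit 368281) (nat_lit 0) .nil) .nil)))) (.nd (nat_lit 9) 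
(.lf (nat_lit 576884) (.g (nat_lit 2979) (.e (nat_lit 335988) (nat_lit 1) (.e (nat_lit 57927) (nat_lit 282) (.e (nat_lit 163903) (nat_lit 12) (.e (nat_lit 426555) (nat_lit 32) (.e (nat_lit 376869) (nat_lit 23) (.e (nat_lit 98317) (nat_lit 9) .nil)))))) (.g (nat_lit 1) (.e (nat_lit 367614) (nat_lit 0) .nil) .nil))) 
(.lf (nat_lit 577396) (.g (nat_lit 3309) (.e (nat_lit 336021) (nat_lit 3) (.e (nat_lit 98317) (nat_lit 9) (.e (nat_lit 335988) (nat_lit 1) (.e (nat_lit 57926) (nat_lit 282) (.e (nat_lit 163944) (nat_lit 19) (.e (nat_lit 483393) (nat_lit 23) .nil)))))) (.g (nat_lit 1) (.e (nat_lit 368669) (nat_lit 0) .nil) .nil))))) (.nd (nat_lit 8) (.nd (nat_lit 9) 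
(.lf (nat_lit 576756) (.g (nat_lit 1901) (.e (nat_lit 335986) (nat_lit 1) (.e (nat_lit 57849) (nat_lit 252) (.e (nat_lit 57375) (nat_lit 2) (.e (nat_lit 90158) (nat_lit 11) (.e (nat_lit 24630) (nat_lit 9) (.e (nat_lit 336379) (nat_lit 27) (.e (nat_lit 426522) (nat_lit 27) .nil))))))) (.g (nat_lit 1) (.e (nat_lit 367265) (nat_lit 0) .nil) .nil))) 
(.lf (nat_lit 577268) (.g (nat_lit 1393) (.e (nat_lit 336019) (nat_lit 3) (.e (nat_lit 98349) (nat_lit 24) (.e (nat_lit 409645) (nat_lit 18) (.e (nat_lit 303119) (nat_lit 3) .nil)))) (.g (nat_lit 0) (.e (nat_lit 368462) (nat_lit 0) .nil) .nil)))) (.nd (nat_lit 9) 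
(.lf (nat_lit 577012) (.g (nat_lit 835) (.e (nat_lit 335997) (nat_lit 1) (.e (nat_lit 57871) (nat_lit 264) (.e (nat_lit 1211) (nat_lit 89) (.e (nat_lit 73781) (nat_lit 32) (.e (nat_lit 3089) (nat_lit 191) .nil))))) (.g (nat_lit 0) (.e (nat_lit 367975) (nat_lit 0) .nil) .nil))) 
(.lf (nat_lit 577524) (.g (nat_lit 824) (.e (nat_lit 336026) (nat_lit 3) (.e (nat_lit 98335) (nat_lit 18) (.e (nat_lit 164176) (nat_lit 154) .nil))) (.g (nat_lit 0) (.e (nat_lit 368872) (nat_lit 0) .nil) .nil))))))))) (.nd (nat_lit 4) (.nd (nat_lit 5) (.nd (nat_lit 6) (.nd (nat_lit 7) (.nd (nat_lit 8) (.nd (nat_lit 9) 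
(.lf (nat_lit 576524) (.g (nat_lit 579) (.e (nat_lit 327699) (nat_lit 8) (.e (nat_lit 303119) (nat_lit 3) (.e (nat_lit 204845) (nat_lit 24) .nil))) (.g (nat_lit 0) (.e (nat_lit 366061) (nat_lit 0) .nil) .nil))) 
(.lf (nat_lit 577036) (.g (nat_lit 1899) (.e (nat_lit 336001) (nat_lit 2) (.e (nat_lit 90170) (nat_lit 13) (.e (nat_lit 172106) (nat_lit 10) (.e (nat_lit 434244) (nat_lit 28) (.e (nat_lit 573474) (nat_lit 12) (.e (nat_lit 57356) (nat_lit 0) (.e (nat_lit 7272) (nat_lit 385) (.e (nat_lit 122905) (nat_lit 12) .nil)))))))) (.g (nat_lit 1) (.e (nat_lit 368096) (nat_lit 0) .nil) .nil)))) 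
(.nd (nat_lit 9) 
(.lf (nat_lit 576780) (.g (nat_lit 2899) (.e (nat_lit 335986) (nat_lit 1) (.e (nat_lit 57927) (nat_lit 282) (.e (nat_lit 163874) (nat_lit 3) (.e (nat_lit 204876) (nat_lit 31) (.e (nat_lit 376842) (nat_lit 11) (.e (nat_lit 426500) (nat_lit 27) .nil)))))) (.g (nat_lit 1) (.e (nat_lit 367321) (nat_lit 0) .nil) .nil))) 
(.lf (nat_lit 577292) (.g (nat_lit 2865) (.e (nat_lit 336019) (nat_lit 3) (.e (nat_lit 98350) (nat_lit 24) (.e (nat_lit 409649) (nat_lit 18) (.e (nat_lit 303111) (nat_lit 0) (.e (nat_lit 3143) (nat_lit 193) (.e (nat_lit 500089) (nat_lit 22) (.e (nat_lit 131109) (nat_lit 9) .nil))))))) (.g (nat_lit 1) (.e (nat_lit 368493) (nat_lit 0) .nil) .nil))))) (.nd (nat_lit 8) (.nd (nat_lit 9) 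
(.lf (nat_lit 576652) (.g (nat_lit 638) (.e (nat_lit 335895) (nat_lit 0) (.e (nat_lit 6724) (nat_lit 362) (.e (nat_lit 180268) (nat_lit 24) (.e (nat_lit 688138) (nat_lit 5) .nil)))) (.g (nat_lit 0) (.e (nat_lit 367018) (nat_lit 0) .nil) .nil))) 
(.lf (nat_lit 577164) (.g (nat_lit 2554) (.e (nat_lit 336015) (nat_lit 2) (.e (nat_lit 90170) (nat_lit 13) (.e (nat_lit 172113) (nat_lit 10) (.e (nat_lit 434248) (nat_lit 28) (.e (nat_lit 573475) (nat_lit 12) .nil))))) (.g (nat_lit 0) (.e (nat_lit 368305) (nat_lit 0) .nil) .nil)))) (.nd (nat_lit 9) 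
(.lf (nat_lit 576908) (.g (nat_lit 1608) (.e (nat_lit 335991) (nat_lit 1) (.e (nat_lit 57873) (nat_lit 264) (.e (nat_lit 1209) (nat_lit 89) (.e (nat_lit 73782) (nat_lit 32) (.e (nat_lit 3090) (nat_lit 191) .nil))))) (.g (nat_lit 0) (.e (nat_lit 367711) (nat_lit 0) .nil) .nil))) 
(.lf (nat_lit 577420) (.g (nat_lit 1807) (.e (nat_lit 336023) (nat_lit 3) (.e (nat_lit 98350) (nat_lit 24) (.e (nat_lit 409645) (nat_lit 18) (.e (nat_lit 303119) (nat_lit 3) .nil)))) (.g (nat_lit 0) (.e (nat_lit 368725) (nat_lit 0) .nil) .nil)))))) (.nd (nat_lit 7) (.nd (nat_lit 8) (.nd (nat_lit 9) 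
(.lf (nat_lit 576588) (.g (nat_lit 535) (.e (nat_lit 327716) (nat_lit 16) (.e (nat_lit 286759) (nat_lit 12) (.e (nat_lit 385107) (nat_lit 51) .nil))) (.g (nat_lit 0) (.e (nat_lit 366424) (nat_lit 0) .nil) .nil))) 
(.lf (nat_lit 577100) (.g (nat_lit 2651) (.e (nat_lit 336008) (nat_lit 2) (.e (nat_lit 90170) (nat_lit 13) (.e (nat_lit 172113) (nat_lit 10) (.e (nat_lit 434248) (nat_lit 28) (.e (nat_lit 573473) (nat_lit 12) (.e (nat_lit 57352) (nat_lit 0) (.e (nat_lit 7261) (nat_lit 384) (.e (nat_lit 57412) (nat_lit 12) .nil)))))))) (.g (nat_lit 1) (.e (nat_lit 368207) (nat_lit 0) .nil) .nil)))) 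
(.nd (nat_lit 9) 
(.lf (nat_lit 576844) (.g (nat_lit 2354) (.e (nat_lit 335988) (nat_lit 1) (.e (nat_lit 57926) (nat_lit 282) (.e (nat_lit 163868) (nat_lit 2) (.e (nat_lit 196672) (nat_lit 15) (.e (nat_lit 89856) (nat_lit 11) (.e (nat_lit 426523) (nat_lit 27) .nil)))))) (.g (nat_lit 1) (.e (nat_lit 367519) (nat_lit 0) .nil) .nil))) 
(.lf (nat_lit 577356) (.g (nat_lit 901) (.e (nat_lit 336020) (nat_lit 3) (.e (nat_lit 98335) (nat_lit 18) (.e (nat_lit 164183) (nat_lit 154) .nil))) (.g (nat_lit 0) (.e (nat_lit 368595) (nat_lit 0) .nil) .nil))))) (.nd (nat_lit 8) (.nd (nat_lit 9) 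
(.lf (nat_lit 576716) (.g (nat_lit 2810) (.e (nat_lit 335986) (nat_lit 1) (.e (nat_lit 57692) (nat_lit 156) (.e (nat_lit 163938) (nat_lit 18) (.e (nat_lit 475177) (nat_lit 24) (.e (nat_lit 516176) (nat_lit 14) (.e (nat_lit 466954) (nat_lit 11) .nil)))))) (.g (nat_lit 1) (.e (nat_lit 367210) (nat_lit 0) .nil) .nil))) 
(.lf (nat_lit 577228) (.g (nat_lit 3874) (.e (nat_lit 336019) (nat_lit 3) (.e (nat_lit 98341) (nat_lit 20) (.e (nat_lit 221214) (nat_lit 23) (.e (nat_lit 204829) (nat_lit 18) (.e (nat_lit 57927) (nat_lit 282) (.e (nat_lit 163874) (nat_lit 3) (.e (nat_lit 204854) (nat_lit 26) .nil))))))) (.g (nat_lit 1) (.e (nat_lit 368411) (nat_lit 0) .nil) .nil)))) (.nd (nat_lit 9) 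
(.lf (nat_lit 576972) (.g (nat_lit 3177) (.e (nat_lit 335996) (nat_lit 1) (.e (nat_lit 57691) (nat_lit 156) (.e (nat_lit 163905) (nat_lit 12) (.e (nat_lit 426428) (nat_lit 17) (.e (nat_lit 90176) (nat_lit 15) (.e (nat_lit 188423) (nat_lit 11) .nil)))))) (.g (nat_lit 1) (.e (nat_lit 367849) (nat_lit 0) .nil) .nil))) 
(.lf (nat_lit 577484) (.g (nat_lit 1654) (.e (nat_lit 336025) (nat_lit 3) (.e (nat_lit 98335) (nat_lit 18) (.e (nat_lit 164183) (nat_lit 154) (.e (nat_lit 57411) (nat_lit 12) .nil)))) (.g (nat_lit 0) (.e (nat_lit 368813) (nat_lit 0) .nil) .nil))))))) (.nd (nat_lit 6) (.nd (nat_lit 7) (.nd (nat_lit 8) (.nd (nat_lit 9) 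
(.lf (nat_lit 576556) (.g (nat_lit 6035) (.e (nat_lit 327700) (nat_lit 8) (.e (nat_lit 303119) (nat_lit 3) (.e (nat_lit 204869) (nat_lit 29) (.e (nat_lit 360475) (nat_lit 8) (.e (nat_lit 557068) (nat_lit 9) .nil))))) (.g (nat_lit 0) (.e (nat_lit 366182) (nat_lit 0) .nil) .nil))) 
(.lf (nat_lit 577068) (.g (nat_lit 3243) (.e (nat_lit 336004) (nat_lit 2) (.e (nat_lit 90130) (nat_lit 9) (.e (nat_lit 2830) (nat_lit 182) (.e (nat_lit 409648) (nat_lit 18) (.e (nat_lit 303119) (nat_lit 3) (.e (nat_lit 212736) (nat_lit 26) (.e (nat_lit 336158) (nat_lit 9) .nil))))))) (.g (nat_lit 1) (.e (nat_lit 368158) (nat_lit 0) .nil) .nil)))) (.nd (nat_lit 9) 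
(.lf (nat_lit 576812) (.g (nat_lit 1269) (.e (nat_lit 335987) (nat_lit 1) (.e (nat_lit 57927) (nat_lit 282) (.e (nat_lit 163868) (nat_lit 2) (.e (nat_lit 196674) (nat_lit 15) .nil)))) (.g (nat_lit 0) (.e (nat_lit 367422) (nat_lit 0) .nil) .nil))) 
(.lf (nat_lit 577324) (.g (nat_lit 5918) (.e (nat_lit 336019) (nat_lit 3) (.e (nat_lit 98373) (nat_lit 29) (.e (nat_lit 450587) (nat_lit 10) (.e (nat_lit 573475) (nat_lit 12) (.e (nat_lit 57354) (nat_lit 0) (.e (nat_lit 7270) (nat_lit 385) (.e (nat_lit 122904) (nat_lit 12) .nil))))))) (.g (nat_lit 1) (.e (nat_lit 368534) (nat_lit 0) .nil) .nil))))) (.nd (nat_lit 8) (.nd (nat_lit 9) 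
(.lf (nat_lit 576684) (.g (nat_lit 1793) (.e (nat_lit 343808) (nat_lit 0) (.e (nat_lit 1853) (nat_lit 124) (.e (nat_lit 557087) (nat_lit 11) (.e (nat_lit 24617) (nat_lit 7) .nil)))) (.g (nat_lit 0) (.e (nat_lit 367149) (nat_lit 0) .nil) .nil))) 
(.lf (nat_lit 577196) (.g (nat_lit 1233) (.e (nat_lit 336018) (nat_lit 3) (.e (nat_lit 98350) (nat_lit 24) (.e (nat_lit 409649) (nat_lit 18) (.e (nat_lit 303111) (nat_lit 0) .nil)))) (.g (nat_lit 0) (.e (nat_lit 368367) (nat_lit 0) .nil) .nil)))) (.nd (nat_lit 9) 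
(.lf (nat_lit 576940) (.g (nat_lit 2014) (.e (nat_lit 335995) (nat_lit 1) (.e (nat_lit 57688) (nat_lit 156) (.e (nat_lit 163902) (nat_lit 12) (.e (nat_lit 426437) (nat_lit 18) (.e (nat_lit 98381) (nat_lit 31) .nil))))) (.g (nat_lit 0) (.e (nat_lit 367783) (nat_lit 0) .nil) .nil))) 
(.lf (nat_lit 577452) (.g (nat_lit 658) (.e (nat_lit 336024) (nat_lit 3) (.e (nat_lit 98349) (nat_lit 24) (.e (nat_lit 409649) (nat_lit 18) .nil))) (.g (nat_lit 0) (.e (nat_lit 368764) (nat_lit 0) .nil) .nil)))))) (.nd (nat_lit 7) (.nd (nat_lit 8) (.nd (nat_lit 9) 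
(.lf (nat_lit 576620) (.g (nat_lit 2818) (.e (nat_lit 335876) (nat_lit 0) (.e (nat_lit 6711) (nat_lit 360) (.e (nat_lit 163962) (nat_lit 25) (.e (nat_lit 532550) (nat_lit 12) (.e (nat_lit 360475) (nat_lit 8) (.e (nat_lit 557073) (nat_lit 9) (.e (nat_lit 7936) (nat_lit 21) .nil))))))) (.g (nat_lit 1) (.e (nat_lit 366618) (nat_lit 0) .nil) .nil))) 
(.lf (nat_lit 577132) (.g (nat_lit 3989) (.e (nat_lit 336013) (nat_lit 2) (.e (nat_lit 90134) (nat_lit 9) (.e (nat_lit 3025) (nat_lit 187) (.e (nat_lit 450588) (nat_lit 10) (.e (nat_lit 573474) (nat_lit 12) (.e (nat_lit 57572) (nat_lit 54) (.e (nat_lit 770057) (nat_lit 5) (.e (nat_lit 1464) (nat_lit 108) .nil)))))))) (.g (nat_lit 1) (.e (nat_lit 368259) (nat_lit 0) .nil) .nil)))) (.nd (nat_lit 9) 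
(.lf (nat_lit 576876) (.g (nat_lit 2295) (.e (nat_lit 335988) (nat_lit 1) (.e (nat_lit 57927) (nat_lit 282) (.e (nat_lit 163874) (nat_lit 3) (.e (nat_lit 204861) (nat_lit 26) (.e (nat_lit 336076) (nat_lit 9) (.e (nat_lit 336377) (nat_lit 27) (.e (nat_lit 426522) (nat_lit 27) .nil))))))) (.g (nat_lit 1) (.e (nat_lit 367600) (nat_lit 0) .nil) .nil))) 
(.lf (nat_lit 577388) (.g (nat_lit 1932) (.e (nat_lit 336020) (nat_lit 3) (.e (nat_lit 98365) (nat_lit 26) (.e (nat_lit 426306) (nat_lit 12) (.e (nat_lit 475179) (nat_lit 24) (.e (nat_lit 516129) (nat_lit 3) .nil))))) (.g (nat_lit 0) (.e (nat_lit 368640) (nat_lit 0) .nil) .nil))))) (.nd (nat_lit 8) (.nd (nat_lit 9) 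
(.lf (nat_lit 576748) (.g (nat_lit 1818) (.e (nat_lit 335986) (nat_lit 1) (.e (nat_lit 57849) (nat_lit 252) (.e (nat_lit 57375) (nat_lit 2) (.e (nat_lit 90157) (nat_lit 11) (.e (nat_lit 24630) (nat_lit 9) .nil))))) (.g (nat_lit 0) (.e (nat_lit 367257) (nat_lit 0) .nil) .nil))) 
(.lf (nat_lit 577260) (.g (nat_lit 4287) (.e (nat_lit 336019) (nat_lit 3) (.e (nat_lit 98342) (nat_lit 20) (.e (nat_lit 221215) (nat_lit 23) (.e (nat_lit 204830) (nat_lit 18) (.e (nat_lit 57927) (nat_lit 282) (.e (nat_lit 163873) (nat_lit 3) (.e (nat_lit 204853) (nat_lit 26) .nil))))))) (.g (nat_lit 1) (.e (nat_lit 368453) (nat_lit 0) .nil) .nil)))) (.nd (nat_lit 9) 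
(.lf (nat_lit 577004) (.g (nat_lit 1172) (.e (nat_lit 335997) (nat_lit 1) (.e (nat_lit 57704) (nat_lit 164) (.e (nat_lit 2628) (nat_lit 164) (.e (nat_lit 172113) (nat_lit 10) .nil)))) (.g (nat_lit 0) (.e (nat_lit 367934) (nat_lit 0) .nil) .nil))) 
(.lf (nat_lit 577516) (.g (nat_lit 2707) (.e (nat_lit 336026) (nat_lit 3) (.e (nat_lit 98333) (nat_lit 18) (.e (nat_lit 164182) (nat_lit 154) (.e (nat_lit 57378) (nat_lit 3) (.e (nat_lit 98342) (nat_lit 20) .nil))))) (.g (nat_lit 0) (.e (nat_lit 368862) (nat_lit 0) .nil) .nil)))))))) (.nd (nat_lit 5) (.nd (nat_lit 6) (.nd (nat_lit 7) (.nd (nat_lit 8) (.nd (nat_lit 9) 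
(.lf (nat_lit 576540) (.g (nat_lit 4078) (.e (nat_lit 327699) (nat_lit 8) (.e (nat_lit 303119) (nat_lit 3) (.e (nat_lit 204869) (nat_lit 29) (.e (nat_lit 360475) (nat_lit 8) (.e (nat_lit 557065) (nat_lit 9) .nil))))) (.g (nat_lit 0) (.e (nat_lit 366086) (nat_lit 0) .nil) .nil))) 
(.lf (nat_lit 577052) (.g (nat_lit 2146) (.e (nat_lit 336001) (nat_lit 2) (.e (nat_lit 90170) (nat_lit 13) (.e (nat_lit 172113) (nat_lit 10) (.e (nat_lit 434248) (nat_lit 28) (.e (nat_lit 573475) (nat_lit 12) .nil))))) (.g (nat_lit 0) (.e (nat_lit 368112) (nat_lit 0) .nil) .nil)))) (.nd (nat_lit 9) 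
(.lf (nat_lit 576796) (.g (nat_lit 1863) (.e (nat_lit 335987) (nat_lit 1) (.e (nat_lit 57691) (nat_lit 156) (.e (nat_lit 163905) (nat_lit 12) (.e (nat_lit 426438) (nat_lit 18) (.e (nat_lit 98370) (nat_lit 28) (.e (nat_lit 442388) (nat_lit 11) .nil)))))) (.g (nat_lit 1) (.e (nat_lit 367357) (nat_lit 0) .nil) .nil))) 
(.lf (nat_lit 577308) (.g (nat_lit 2350) (.e (nat_lit 336019) (nat_lit 3) (.e (nat_lit 98372) (nat_lit 29) (.e (nat_lit 450588) (nat_lit 10) (.e (nat_lit 573473) (nat_lit 12) .nil)))) (.g (nat_lit 0) (.e (nat_lit 368518) (nat_lit 0) .nil) .nil))))) (.nd (nat_lit 8) (.nd (nat_lit 9) 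
(.lf (nat_lit 576668) (.g (nat_lit 2261) (.e (nat_lit 335923) (nat_lit 0) (.e (nat_lit 1788) (nat_lit 119) (.e (nat_lit 516139) (nat_lit 7) (.e (nat_lit 409649) (nat_lit 18) (.e (nat_lit 303118) (nat_lit 3) .nil))))) (.g (nat_lit 0) (.e (nat_lit 367079) (nat_lit 0) .nil) .nil))) 
(.lf (nat_lit 577180) (.g (nat_lit 2807) (.e (nat_lit 336017) (nat_lit 3) (.e (nat_lit 98342) (nat_lit 20) (.e (nat_lit 221215) (nat_lit 23) (.e (nat_lit 204829) (nat_lit 18) (.e (nat_lit 57931) (nat_lit 282) (.e (nat_lit 163874) (nat_lit 3) (.e (nat_lit 204859) (nat_lit 26) .nil))))))) (.g (nat_lit 1) (.e (nat_lit 368347) (nat_lit 0) .nil) .nil)))) (.nd (nat_lit 9) 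
(.lf (nat_lit 576924) (.g (nat_lit 2919) (.e (nat_lit 335994) (nat_lit 1) (.e (nat_lit 57688) (nat_lit 156) (.e (nat_lit 163939) (nat_lit 18) (.e (nat_lit 475177) (nat_lit 24) (.e (nat_lit 516176) (nat_lit 14) (.e (nat_lit 466954) (nat_lit 11) .nil)))))) (.g (nat_lit 1) (.e (nat_lit 367757) (nat_lit 0) .nil) .nil))) 
(.lf (nat_lit 577436) (.g (nat_lit 4573) (.e (nat_lit 336023) (nat_lit 3) (.e (nat_lit 98373) (nat_lit 29) (.e (nat_lit 450588) (nat_lit 10) (.e (nat_lit 573475) (nat_lit 12) (.e (nat_lit 57347) (nat_lit 0) (.e (nat_lit 7263) (nat_lit 384) (.e (nat_lit 57412) (nat_lit 12) .nil))))))) (.g (nat_lit 1) (.e (nat_lit 368743) (nat_lit 0) .nil) .nil)))))) 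
(.nd (nat_lit 7) (.nd (nat_lit 8) (.nd (nat_lit 9) 
(.lf (nat_lit 576604) (.g (nat_lit 2685) (.e (nat_lit 335874) (nat_lit 0) (.e (nat_lit 6711) (nat_lit 360) (.e (nat_lit 163962) (nat_lit 25) (.e (nat_lit 532550) (nat_lit 12) (.e (nat_lit 360474) (nat_lit 8) (.e (nat_lit 557070) (nat_lit 9) (.e (nat_lit 281) (nat_lit 21) .nil))))))) (.g (nat_lit 1) (.e (nat_lit 366528) (nat_lit 0) .nil) .nil))) 
(.lf (nat_lit 577116) (.g (nat_lit 3006) (.e (nat_lit 336010) (nat_lit 2) (.e (nat_lit 90170) (nat_lit 13) (.e (nat_lit 172120) (nat_lit 12) (.e (nat_lit 475179) (nat_lit 24) (.e (nat_lit 516131) (nat_lit 3) (.e (nat_lit 221194) (nat_lit 11) .nil)))))) (.g (nat_lit 1) (.e (nat_lit 368224) (nat_lit 0) .nil) .nil)))) (.nd (nat_lit 9) 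
(.lf (nat_lit 576860) (.g (nat_lit 2530) (.e (nat_lit 335988) (nat_lit 1) (.e (nat_lit 57926) (nat_lit 282) (.e (nat_lit 163907) (nat_lit 12) (.e (nat_lit 426555) (nat_lit 32) (.e (nat_lit 376869) (nat_lit 23) (.e (nat_lit 98316) (nat_lit 9) .nil)))))) (.g (nat_lit 1) (.e (nat_lit 367554) (nat_lit 0) .nil) .nil))) 
(.lf (nat_lit 577372) (.g (nat_lit 1837) (.e (nat_lit 336020) (nat_lit 3) (.e (nat_lit 98350) (nat_lit 24) (.e (nat_lit 409646) (nat_lit 18) (.e (nat_lit 303112) (nat_lit 0) .nil)))) (.g (nat_lit 0) (.e (nat_lit 368622) (nat_lit 0) .nil) .nil))))) (.nd (nat_lit 8) (.nd (nat_lit 9) 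
(.lf (nat_lit 576732) (.g (nat_lit 2520) (.e (nat_lit 335986) (nat_lit 1) (.e (nat_lit 57847) (nat_lit 252) (.e (nat_lit 57375) (nat_lit 2) (.e (nat_lit 90160) (nat_lit 11) (.e (nat_lit 24624) (nat_lit 9) (.e (nat_lit 336375) (nat_lit 27) (.e (nat_lit 426525) (nat_lit 27) .nil))))))) (.g (nat_lit 1) (.e (nat_lit 367236) (nat_lit 0) .nil) .nil))) 
(.lf (nat_lit 577244) (.g (nat_lit 3097) (.e (nat_lit 336019) (nat_lit 3) (.e (nat_lit 98342) (nat_lit 20) (.e (nat_lit 221212) (nat_lit 22) (.e (nat_lit 196660) (nat_lit 12) (.e (nat_lit 57507) (nat_lit 39) (.e (nat_lit 647181) (nat_lit 3) (.e (nat_lit 163964) (nat_lit 25) (.e (nat_lit 532531) (nat_lit 9) .nil)))))))) (.g (nat_lit 1) (.e (nat_lit 368430) (nat_lit 0) .nil) .nil)))) 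
(.nd (nat_lit 9) 
(.lf (nat_lit 576988) (.g (nat_lit 2873) (.e (nat_lit 335996) (nat_lit 1) (.e (nat_lit 57930) (nat_lit 282) (.e (nat_lit 163867) (nat_lit 2) (.e (nat_lit 196672) (nat_lit 15) (.e (nat_lit 81925) (nat_lit 11) (.e (nat_lit 426500) (nat_lit 27) .nil)))))) (.g (nat_lit 1) (.e (nat_lit 367895) (nat_lit 0) .nil) .nil))) 
(.lf (nat_lit 577500) (.g (nat_lit 3251) (.e (nat_lit 336025) (nat_lit 3) (.e (nat_lit 98350) (nat_lit 24) (.e (nat_lit 409648) (nat_lit 18) (.e (nat_lit 303117) (nat_lit 2) (.e (nat_lit 196665) (nat_lit 13) .nil))))) (.g (nat_lit 0) (.e (nat_lit 368835) (nat_lit 0) .nil) .nil))))))) (.nd (nat_lit 6) (.nd (nat_lit 7) (.nd (nat_lit 8) (.nd (nat_lit 9) 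
(.lf (nat_lit 576572) (.g (nat_lit 2020) (.e (nat_lit 327700) (nat_lit 8) (.e (nat_lit 303145) (nat_lit 13) (.e (nat_lit 483413) (nat_lit 27) (.e (nat_lit 401444) (nat_lit 9) .nil)))) (.g (nat_lit 0) (.e (nat_lit 366287) (nat_lit 0) .nil) .nil))) 
(.lf (nat_lit 577084) (.g (nat_lit 2463) (.e (nat_lit 336008) (nat_lit 2) (.e (nat_lit 90170) (nat_lit 13) (.e (nat_lit 172106) (nat_lit 10) (.e (nat_lit 434244) (nat_lit 28) (.e (nat_lit 573474) (nat_lit 12) (.e (nat_lit 57356) (nat_lit 0) (.e (nat_lit 7272) (nat_lit 385) (.e (nat_lit 122906) (nat_lit 12) .nil)))))))) (.g (nat_lit 1) (.e (nat_lit 368191) (nat_lit 0) .nil) .nil)))) 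
(.nd (nat_lit 9) 
(.lf (nat_lit 576828) (.g (nat_lit 1709) (.e (nat_lit 335987) (nat_lit 1) (.e (nat_lit 57927) (nat_lit 282) (.e (nat_lit 163906) (nat_lit 12) (.e (nat_lit 426555) (nat_lit 32) (.e (nat_lit 376867) (nat_lit 23) (.e (nat_lit 98313) (nat_lit 9) .nil)))))) (.g (nat_lit 1) (.e (nat_lit 367439) (nat_lit 0) .nil) .nil))) 
(.lf (nat_lit 577340) (.g (nat_lit 2585) (.e (nat_lit 336019) (nat_lit 3) (.e (nat_lit 98384) (nat_lit 32) (.e (nat_lit 475214) (nat_lit 42) (.e (nat_lit 720914) (nat_lit 20) .nil)))) (.g (nat_lit 0) (.e (nat_lit 368553) (nat_lit 0) .nil) .nil))))) (.nd (nat_lit 8) (.nd (nat_lit 9) 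
(.lf (nat_lit 576700) (.g (nat_lit 1519) (.e (nat_lit 335986) (nat_lit 1) (.e (nat_lit 57688) (nat_lit 156) (.e (nat_lit 163907) (nat_lit 12) (.e (nat_lit 426428) (nat_lit 17) .nil)))) (.g (nat_lit 0) (.e (nat_lit 367191) (nat_lit 0) .nil) .nil))) 
(.lf (nat_lit 577212) (.g (nat_lit 4737) (.e (nat_lit 336018) (nat_lit 3) (.e (nat_lit 98373) (nat_lit 29) (.e (nat_lit 450588) (nat_lit 10) (.e (nat_lit 573475) (nat_lit 12) (.e (nat_lit 57569) (nat_lit 53) .nil))))) (.g (nat_lit 0) (.e (nat_lit 368383) (nat_lit 0) .nil) .nil)))) (.nd (nat_lit 9) 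
(.lf (nat_lit 576956) (.g (nat_lit 2174) (.e (nat_lit 335995) (nat_lit 1) (.e (nat_lit 57929) (nat_lit 282) (.e (nat_lit 163867) (nat_lit 2) (.e (nat_lit 196674) (nat_lit 15) (.e (nat_lit 81925) (nat_lit 11) (.e (nat_lit 426500) (nat_lit 27) .nil)))))) (.g (nat_lit 1) (.e (nat_lit 367815) (nat_lit 0) .nil) .nil))) 
(.lf (nat_lit 577468) (.g (nat_lit 2916) (.e (nat_lit 336025) (nat_lit 3) (.e (nat_lit 98333) (nat_lit 18) (.e (nat_lit 164182) (nat_lit 154) (.e (nat_lit 57378) (nat_lit 3) (.e (nat_lit 98340) (nat_lit 20) .nil))))) (.g (nat_lit 0) (.e (nat_lit 368789) (nat_lit 0) .nil) .nil)))))) (.nd (nat_lit 7) (.nd (nat_lit 8) (.nd (nat_lit 9) 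
(.lf (nat_lit 576636) (.g (nat_lit 280) (.e (nat_lit 335894) (nat_lit 0) (.e (nat_lit 6722) (nat_lit 362) (.e (nat_lit 180268) (nat_lit 24) .nil))) (.g (nat_lit 0) (.e (nat_lit 366920) (nat_lit 0) .nil) .nil))) 
(.lf (nat_lit 577148) (.g (nat_lit 726) (.e (nat_lit 336013) (nat_lit 2) (.e (nat_lit 90170) (nat_lit 13) (.e (nat_lit 172046) (nat_lit 0) .nil))) (.g (nat_lit 0) (.e (nat_lit 368289) (nat_lit 0) .nil) .nil)))) (.nd (nat_lit 9) 
(.lf (nat_lit 576892) (.g (nat_lit 2981) (.e (nat_lit 335988) (nat_lit 1) (.e (nat_lit 57927) (nat_lit 282) (.e (nat_lit 163907) (nat_lit 12) (.e (nat_lit 426555) (nat_lit 32) (.e (nat_lit 376869) (nat_lit 23) (.e (nat_lit 98317) (nat_lit 9) .nil)))))) (.g (nat_lit 1) (.e (nat_lit 367622) (nat_lit 0) .nil) .nil))) 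
(.lf (nat_lit 577404) (.g (nat_lit 1733) (.e (nat_lit 336022) (nat_lit 3) (.e (nat_lit 98349) (nat_lit 24) (.e (nat_lit 409645) (nat_lit 18) (.e (nat_lit 303119) (nat_lit 3) .nil)))) (.g (nat_lit 0) (.e (nat_lit 368704) (nat_lit 0) .nil) .nil))))) (.nd (nat_lit 8) (.nd (nat_lit 9) 
(.lf (nat_lit 576764) (.g (nat_lit 2386) (.e (nat_lit 335986) (nat_lit 1) (.e (nat_lit 57926) (nat_lit 282) (.e (nat_lit 163869) (nat_lit 2) (.e (nat_lit 196672) (nat_lit 15) (.e (nat_lit 81925) (nat_lit 11) (.e (nat_lit 426500) (nat_lit 27) .nil)))))) (.g (nat_lit 1) (.e (nat_lit 367298) (nat_lit 0) .nil) .nil))) 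
(.lf (nat_lit 577276) (.g (nat_lit 1709) (.e (nat_lit 336019) (nat_lit 3) (.e (nat_lit 98350) (nat_lit 24) (.e (nat_lit 409643) (nat_lit 18) (.e (nat_lit 303119) (nat_lit 3) (.e (nat_lit 204855) (nat_lit 26) .nil))))) (.g (nat_lit 0) (.e (nat_lit 368475) (nat_lit 0) .nil) .nil)))) (.nd (nat_lit 9) 
(.lf (nat_lit 577020) (.g (nat_lit 1531) (.e (nat_lit 343808) (nat_lit 1) (.e (nat_lit 57873) (nat_lit 264) (.e (nat_lit 1209) (nat_lit 89) (.e (nat_lit 73782) (nat_lit 32) .nil)))) (.g (nat_lit 0) (.e (nat_lit 368053) (nat_lit 0) .nil) .nil))) 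
(.lf (nat_lit 577532) (.g (nat_lit 759) (.e (nat_lit 336026) (nat_lit 3) (.e (nat_lit 98335) (nat_lit 18) (.e (nat_lit 164183) (nat_lit 154) .nil))) (.g (nat_lit 0) (.e (nat_lit 368893) (nat_lit 0) .nil) .nil))))))))))) (.nd (nat_lit 2) (.nd (nat_lit 3) (.nd (nat_lit 4) (.nd (nat_lit 5) (.nd (nat_lit 6) (.nd (nat_lit 7) (.nd (nat_lit 8) (.nd (nat_lit 9) 
(.lf (nat_lit 576514) (.g (nat_lit 493) (.e (nat_lit 327699) (nat_lit 8) (.e (nat_lit 303118) (nat_lit 3) (.e (nat_lit 204846) (nat_lit 24) .nil))) (.g (nat_lit 0) (.e (nat_lit 366044) (nat_lit 0) .nil) .nil))) 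
(.lf (nat_lit 577026) (.g (nat_lit 3888) (.e (nat_lit 336001) (nat_lit 2) (.e (nat_lit 90170) (nat_lit 13) (.e (nat_lit 172106) (nat_lit 10) (.e (nat_lit 434244) (nat_lit 28) (.e (nat_lit 573474) (nat_lit 12) (.e (nat_lit 57348) (nat_lit 0) (.e (nat_lit 7263) (nat_lit 384) (.e (nat_lit 57412) (nat_lit 12) .nil)))))))) (.g (nat_lit 1) (.e (nat_lit 368086) (nat_lit 0) .nil) .nil)))) 
(.nd (nat_lit 9) 
(.lf (nat_lit 576770) (.g (nat_lit 2594) (.e (nat_lit 335986) (nat_lit 1) (.e (nat_lit 57927) (nat_lit 282) (.e (nat_lit 163869) (nat_lit 2) (.e (nat_lit 196672) (nat_lit 15) (.e (nat_lit 81927) (nat_lit 11) (.e (nat_lit 426500) (nat_lit 27) .nil)))))) (.g (nat_lit 1) (.e (nat_lit 367311) (nat_lit 0) .nil) .nil))) 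
(.lf (nat_lit 577282) (.g (nat_lit 3135) (.e (nat_lit 336019) (nat_lit 3) (.e (nat_lit 98350) (nat_lit 24) (.e (nat_lit 409646) (nat_lit 18) (.e (nat_lit 303117) (nat_lit 2) (.e (nat_lit 196681) (nat_lit 17) (.e (nat_lit 131108) (nat_lit 9) .nil)))))) (.g (nat_lit 1) (.e (nat_lit 368481) (nat_lit 0) .nil) .nil))))) (.nd (nat_lit 8) (.nd (nat_lit 9) 
(.lf (nat_lit 576642) (.g (nat_lit 392) (.e (nat_lit 335894) (nat_lit 0) (.e (nat_lit 6724) (nat_lit 362) (.e (nat_lit 180227) (nat_lit 0) .nil))) (.g (nat_lit 0) (.e (nat_lit 366938) (nat_lit 0) .nil) .nil))) 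
(.lf (nat_lit 577154) (.g (nat_lit 2625) (.e (nat_lit 336013) (nat_lit 2) (.e (nat_lit 90170) (nat_lit 13) (.e (nat_lit 172106) (nat_lit 10) (.e (nat_lit 434244) (nat_lit 28) (.e (nat_lit 573474) (nat_lit 12) (.e (nat_lit 57347) (nat_lit 0) (.e (nat_lit 7266) (nat_lit 384) (.e (nat_lit 57415) (nat_lit 12) .nil)))))))) (.g (nat_lit 1) (.e (nat_lit 368295) (nat_lit 0) .nil) .nil)))) 
(.nd (nat_lit 9) 
(.lf (nat_lit 576898) (.g (nat_lit 3290) (.e (nat_lit 335988) (nat_lit 1) (.e (nat_lit 57931) (nat_lit 282) (.e (nat_lit 163869) (nat_lit 2) (.e (nat_lit 196672) (nat_lit 15) (.e (nat_lit 81925) (nat_lit 11) (.e (nat_lit 426500) (nat_lit 27) .nil)))))) (.g (nat_lit 1) (.e (nat_lit 367649) (nat_lit 0) .nil) .nil))) 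
(.lf (nat_lit 577410) (.g (nat_lit 2167) (.e (nat_lit 336022) (nat_lit 3) (.e (nat_lit 98372) (nat_lit 29) (.e (nat_lit 450586) (nat_lit 10) (.e (nat_lit 573473) (nat_lit 12) (.e (nat_lit 57353) (nat_lit 0) .nil))))) (.g (nat_lit 0) (.e (nat_lit 368711) (nat_lit 0) .nil) .nil)))))) (.nd (nat_lit 7) (.nd (nat_lit 8) (.nd (nat_lit 9) 
(.lf (nat_lit 576578) (.g (nat_lit 3637) (.e (nat_lit 327715) (nat_lit 16) (.e (nat_lit 286733) (nat_lit 2) (.e (nat_lit 90176) (nat_lit 15) (.e (nat_lit 188450) (nat_lit 23) (.e (nat_lit 204848) (nat_lit 25) .nil))))) (.g (nat_lit 1) (.e (nat_lit 366386) (nat_lit 0) .nil) .nil))) 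
(.lf (nat_lit 577090) (.g (nat_lit 3337) (.e (nat_lit 336008) (nat_lit 2) (.e (nat_lit 90170) (nat_lit 13) (.e (nat_lit 172113) (nat_lit 10) (.e (nat_lit 434245) (nat_lit 28) (.e (nat_lit 573474) (nat_lit 12) (.e (nat_lit 57348) (nat_lit 0) (.e (nat_lit 7261) (nat_lit 384) (.e (nat_lit 57412) (nat_lit 12) .nil)))))))) (.g (nat_lit 1) (.e (nat_lit 368197) (nat_lit 0) .nil) .nil)))) 
(.nd (nat_lit 9) 
(.lf (nat_lit 576834) (.g (nat_lit 2734) (.e (nat_lit 335988) (nat_lit 1) (.e (nat_lit 57692) (nat_lit 156) (.e (nat_lit 163905) (nat_lit 12) (.e (nat_lit 426438) (nat_lit 18) (.e (nat_lit 98380) (nat_lit 31) (.e (nat_lit 466954) (nat_lit 11) .nil)))))) (.g (nat_lit 1) (.e (nat_lit 367455) (nat_lit 0) .nil) .nil))) 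
(.lf (nat_lit 577346) (.g (nat_lit 737) (.e (nat_lit 336020) (nat_lit 3) (.e (nat_lit 98334) (nat_lit 18) (.e (nat_lit 164182) (nat_lit 154) .nil))) (.g (nat_lit 0) (.e (nat_lit 368575) (nat_lit 0) .nil) .nil))))) (.nd (nat_lit 8) (.nd (nat_lit 9) 
(.lf (nat_lit 576706) (.g (nat_lit 3741) (.e (nat_lit 335986) (nat_lit 1) (.e (nat_lit 57691) (nat_lit 156) (.e (nat_lit 163907) (nat_lit 12) (.e (nat_lit 426428) (nat_lit 17) (.e (nat_lit 90178) (nat_lit 15) (.e (nat_lit 188421) (nat_lit 11) .nil)))))) (.g (nat_lit 1) (.e (nat_lit 367200) (nat_lit 0) .nil) .nil))) 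
(.lf (nat_lit 577218) (.g (nat_lit 2042) (.e (nat_lit 336019) (nat_lit 3) (.e (nat_lit 98333) (nat_lit 18) (.e (nat_lit 164183) (nat_lit 154) (.e (nat_lit 57411) (nat_lit 12) (.e (nat_lit 336377) (nat_lit 27) .nil))))) (.g (nat_lit 0) (.e (nat_lit 368400) (nat_lit 0) .nil) .nil)))) (.nd (nat_lit 9) 
(.lf (nat_lit 576962) (.g (nat_lit 2710) (.e (nat_lit 335995) (nat_lit 1) (.e (nat_lit 57931) (nat_lit 282) (.e (nat_lit 163869) (nat_lit 2) (.e (nat_lit 196672) (nat_lit 15) (.e (nat_lit 81925) (nat_lit 11) (.e (nat_lit 426500) (nat_lit 27) .nil)))))) (.g (nat_lit 1) (.e (nat_lit 367828) (nat_lit 0) .nil) .nil))) 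
(.lf (nat_lit 577474) (.g (nat_lit 2753) (.e (nat_lit 336025) (nat_lit 3) (.e (nat_lit 98333) (nat_lit 18) (.e (nat_lit 164183) (nat_lit 154) (.e (nat_lit 57378) (nat_lit 3) (.e (nat_lit 98340) (nat_lit 20) .nil))))) (.g (nat_lit 0) (.e (nat_lit 368799) (nat_lit 0) .nil) .nil))))))) (.nd (nat_lit 6) (.nd (nat_lit 7) (.nd (nat_lit 8) (.nd (nat_lit 9) 
(.lf (nat_lit 576546) (.g (nat_lit 1660) (.e (nat_lit 327700) (nat_lit 8) (.e (nat_lit 303118) (nat_lit 3) (.e (nat_lit 204849) (nat_lit 25) (.e (nat_lit 327699) (nat_lit 8) (.e (nat_lit 303118) (nat_lit 3) .nil))))) (.g (nat_lit 0) (.e (nat_lit 366160) (nat_lit 0) .nil) .nil))) 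
(.lf (nat_lit 577058) (.g (nat_lit 2543) (.e (nat_lit 336001) (nat_lit 2) (.e (nat_lit 90170) (nat_lit 13) (.e (nat_lit 172113) (nat_lit 10) (.e (nat_lit 434248) (nat_lit 28) (.e (nat_lit 573475) (nat_lit 12) (.e (nat_lit 57353) (nat_lit 0) (.e (nat_lit 7263) (nat_lit 384) (.e (nat_lit 57412) (nat_lit 12) .nil)))))))) (.g (nat_lit 1) (.e (nat_lit 368118) (nat_lit 0) .nil) .nil)))) 
(.nd (nat_lit 9) 
(.lf (nat_lit 576802) (.g (nat_lit 426) (.e (nat_lit 335987) (nat_lit 1) (.e (nat_lit 57854) (nat_lit 252) (.e (nat_lit 57347) (nat_lit 0) .nil))) (.g (nat_lit 0) (.e (nat_lit 367385) (nat_lit 0) .nil) .nil))) 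
(.lf (nat_lit 577314) (.g (nat_lit 3759) (.e (nat_lit 336019) (nat_lit 3) (.e (nat_lit 98372) (nat_lit 29) (.e (nat_lit 450588) (nat_lit 10) (.e (nat_lit 573475) (nat_lit 12) (.e (nat_lit 57347) (nat_lit 0) .nil))))) (.g (nat_lit 0) (.e (nat_lit 368524) (nat_lit 0) .nil) .nil))))) (.nd (nat_lit 8) (.nd (nat_lit 9) 
(.lf (nat_lit 576674) (.g (nat_lit 2490) (.e (nat_lit 335938) (nat_lit 0) (.e (nat_lit 1788) (nat_lit 119) (.e (nat_lit 516139) (nat_lit 7) (.e (nat_lit 409648) (nat_lit 18) (.e (nat_lit 303117) (nat_lit 2) .nil))))) (.g (nat_lit 0) (.e (nat_lit 367133) (nat_lit 0) .nil) .nil))) 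
(.lf (nat_lit 577186) (.g (nat_lit 705) (.e (nat_lit 336017) (nat_lit 3) (.e (nat_lit 98365) (nat_lit 26) (.e (nat_lit 426188) (nat_lit 9) .nil))) (.g (nat_lit 0) (.e (nat_lit 368354) (nat_lit 0) .nil) .nil)))) (.nd (nat_lit 9) 
(.lf (nat_lit 576930) (.g (nat_lit 1669) (.e (nat_lit 335994) (nat_lit 1) (.e (nat_lit 57931) (nat_lit 282) (.e (nat_lit 163943) (nat_lit 19) (.e (nat_lit 483398) (nat_lit 25) (.e (nat_lit 368676) (nat_lit 21) .nil))))) (.g (nat_lit 0) (.e (nat_lit 367772) (nat_lit 0) .nil) .nil))) 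
(.lf (nat_lit 577442) (.g (nat_lit 3253) (.e (nat_lit 336023) (nat_lit 3) (.e (nat_lit 98384) (nat_lit 32) (.e (nat_lit 475199) (nat_lit 40) (.e (nat_lit 704589) (nat_lit 3) (.e (nat_lit 163979) (nat_lit 30) .nil))))) (.g (nat_lit 0) (.e (nat_lit 368749) (nat_lit 0) .nil) .nil)))))) (.nd (nat_lit 7) (.nd (nat_lit 8) (.nd (nat_lit 9) 
(.lf (nat_lit 576610) (.g (nat_lit 2816) (.e (nat_lit 335874) (nat_lit 0) (.e (nat_lit 6713) (nat_lit 360) (.e (nat_lit 163962) (nat_lit 25) (.e (nat_lit 532550) (nat_lit 12) (.e (nat_lit 360475) (nat_lit 8) (.e (nat_lit 557068) (nat_lit 9) (.e (nat_lit 288) (nat_lit 21) .nil))))))) (.g (nat_lit 1) (.e (nat_lit 366540) (nat_lit 0) .nil) .nil))) 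
(.lf (nat_lit 577122) (.g (nat_lit 522) (.e (nat_lit 336012) (nat_lit 2) (.e (nat_lit 90172) (nat_lit 14) (.e (nat_lit 180233) (nat_lit 0) .nil))) (.g (nat_lit 0) (.e (nat_lit 368240) (nat_lit 0) .nil) .nil)))) (.nd (nat_lit 9) 
(.lf (nat_lit 576866) (.g (nat_lit 2128) (.e (nat_lit 335988) (nat_lit 1) (.e (nat_lit 57927) (nat_lit 282) (.e (nat_lit 163869) (nat_lit 2) (.e (nat_lit 196672) (nat_lit 15) (.e (nat_lit 81925) (nat_lit 11) (.e (nat_lit 426500) (nat_lit 27) .nil)))))) (.g (nat_lit 1) (.e (nat_lit 367589) (nat_lit 0) .nil) .nil))) 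
(.lf (nat_lit 577378) (.g (nat_lit 2242) (.e (nat_lit 336020) (nat_lit 3) (.e (nat_lit 98350) (nat_lit 24) (.e (nat_lit 409649) (nat_lit 18) (.e (nat_lit 303116) (nat_lit 2) (.e (nat_lit 196666) (nat_lit 13) .nil))))) (.g (nat_lit 0) (.e (nat_lit 368629) (nat_lit 0) .nil) .nil))))) (.nd (nat_lit 8) (.nd (nat_lit 9) 
(.lf (nat_lit 576738) (.g (nat_lit 777) (.e (nat_lit 335986) (nat_lit 1) (.e (nat_lit 57849) (nat_lit 252) (.e (nat_lit 57348) (nat_lit 0) .nil))) (.g (nat_lit 0) (.e (nat_lit 367247) (nat_lit 0) .nil) .nil))) 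
(.lf (nat_lit 577250) (.g (nat_lit 3802) (.e (nat_lit 336019) (nat_lit 3) (.e (nat_lit 98342) (nat_lit 20) (.e (nat_lit 221214) (nat_lit 23) (.e (nat_lit 204830) (nat_lit 18) (.e (nat_lit 57926) (nat_lit 282) (.e (nat_lit 163874) (nat_lit 3) (.e (nat_lit 204851) (nat_lit 26) .nil))))))) (.g (nat_lit 1) (.e (nat_lit 368439) (nat_lit 0) .nil) .nil)))) (.nd (nat_lit 9) 
(.lf (nat_lit 576994) (.g (nat_lit 3016) (.e (nat_lit 335996) (nat_lit 1) (.e (nat_lit 57931) (nat_lit 282) (.e (nat_lit 163874) (nat_lit 3) (.e (nat_lit 204865) (nat_lit 28) (.e (nat_lit 352277) (nat_lit 11) (.e (nat_lit 426500) (nat_lit 27) .nil)))))) (.g (nat_lit 1) (.e (nat_lit 367907) (nat_lit 0) .nil) .nil))) 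
(.lf (nat_lit 577506) (.g (nat_lit 1886) (.e (nat_lit 336025) (nat_lit 3) (.e (nat_lit 98350) (nat_lit 24) (.e (nat_lit 409649) (nat_lit 18) (.e (nat_lit 303119) (nat_lit 3) .nil)))) (.g (nat_lit 0) (.e (nat_lit 368841) (nat_lit 0) .nil) .nil)))))))) (.nd (nat_lit 5) (.nd (nat_lit 6) (.nd (nat_lit 7) (.nd (nat_lit 8) (.nd (nat_lit 9) 
(.lf (nat_lit 576530) (.g (nat_lit 3194) (.e (nat_lit 327699) (nat_lit 8) (.e (nat_lit 303119) (nat_lit 3) (.e (nat_lit 204846) (nat_lit 24) (.e (nat_lit 319494) (nat_lit 0) .nil)))) (.g (nat_lit 0) (.e (nat_lit 366069) (nat_lit 0) .nil) .nil))) 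
(.lf (nat_lit 577042) (.g (nat_lit 2237) (.e (nat_lit 336001) (nat_lit 2) (.e (nat_lit 90170) (nat_lit 13) (.e (nat_lit 172113) (nat_lit 10) (.e (nat_lit 434245) (nat_lit 28) (.e (nat_lit 573474) (nat_lit 12) (.e (nat_lit 57344) (nat_lit 0) (.e (nat_lit 7263) (nat_lit 384) (.e (nat_lit 57412) (nat_lit 12) .nil)))))))) (.g (nat_lit 1) (.e (nat_lit 368102) (nat_lit 0) .nil) .nil)))) 
(.nd (nat_lit 9) 
(.lf (nat_lit 576786) (.g (nat_lit 2711) (.e (nat_lit 335986) (nat_lit 1) (.e (nat_lit 57927) (nat_lit 282) (.e (nat_lit 163905) (nat_lit 12) (.e (nat_lit 426555) (nat_lit 32) (.e (nat_lit 376869) (nat_lit 23) (.e (nat_lit 98317) (nat_lit 9) .nil)))))) (.g (nat_lit 1) (.e (nat_lit 367327) (nat_lit 0) .nil) .nil))) 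
(.lf (nat_lit 577298) (.g (nat_lit 791) (.e (nat_lit 336019) (nat_lit 3) (.e (nat_lit 98350) (nat_lit 24) (.e (nat_lit 417536) (nat_lit 18) .nil))) (.g (nat_lit 0) (.e (nat_lit 368499) (nat_lit 0) .nil) .nil))))) (.nd (nat_lit 8) (.nd (nat_lit 9) 
(.lf (nat_lit 576658) (.g (nat_lit 2256) (.e (nat_lit 335907) (nat_lit 0) (.e (nat_lit 6113) (nat_lit 332) (.e (nat_lit 1374) (nat_lit 104) (.e (nat_lit 311040) (nat_lit 27) .nil)))) (.g (nat_lit 0) (.e (nat_lit 367060) (nat_lit 0) .nil) .nil))) 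
(.lf (nat_lit 577170) (.g (nat_lit 1954) (.e (nat_lit 343808) (nat_lit 2) (.e (nat_lit 90170) (nat_lit 13) (.e (nat_lit 172113) (nat_lit 10) (.e (nat_lit 434248) (nat_lit 28) (.e (nat_lit 573473) (nat_lit 12) .nil))))) (.g (nat_lit 0) (.e (nat_lit 368319) (nat_lit 0) .nil) .nil)))) (.nd (nat_lit 9) 
(.lf (nat_lit 576914) (.g (nat_lit 1761) (.e (nat_lit 335993) (nat_lit 1) (.e (nat_lit 57688) (nat_lit 156) (.e (nat_lit 163903) (nat_lit 12) (.e (nat_lit 426436) (nat_lit 18) (.e (nat_lit 98381) (nat_lit 31) .nil))))) (.g (nat_lit 0) (.e (nat_lit 367723) (nat_lit 0) .nil) .nil))) 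
(.lf (nat_lit 577426) (.g (nat_lit 1698) (.e (nat_lit 336023) (nat_lit 3) (.e (nat_lit 98350) (nat_lit 24) (.e (nat_lit 409648) (nat_lit 18) (.e (nat_lit 303119) (nat_lit 3) .nil)))) (.g (nat_lit 0) (.e (nat_lit 368731) (nat_lit 0) .nil) .nil)))))) (.nd (nat_lit 7) (.nd (nat_lit 8) (.nd (nat_lit 9) 
(.lf (nat_lit 576594) (.g (nat_lit 3116) (.e (nat_lit 335872) (nat_lit 0) (.e (nat_lit 6713) (nat_lit 360) (.e (nat_lit 163962) (nat_lit 25) (.e (nat_lit 532535) (nat_lit 9) (.e (nat_lit 336058) (nat_lit 7) (.e (nat_lit 319519) (nat_lit 12) (.e (nat_lit 32778) (nat_lit 5) (.e (nat_lit 1512) (nat_lit 108) .nil)))))))) (.g (nat_lit 1) (.e (nat_lit 366452) (nat_lit 0) .nil) .nil))) 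
(.lf (nat_lit 577106) (.g (nat_lit 2571) (.e (nat_lit 336008) (nat_lit 2) (.e (nat_lit 90170) (nat_lit 13) (.e (nat_lit 172113) (nat_lit 10) (.e (nat_lit 434248) (nat_lit 28) (.e (nat_lit 573475) (nat_lit 12) (.e (nat_lit 57353) (nat_lit 0) (.e (nat_lit 7261) (nat_lit 384) (.e (nat_lit 57412) (nat_lit 12) .nil)))))))) (.g (nat_lit 1) (.e (nat_lit 368213) (nat_lit 0) .nil) .nil)))) 
(.nd (nat_lit 9) 
(.lf (nat_lit 576850) (.g (nat_lit 2473) (.e (nat_lit 335988) (nat_lit 1) (.e (nat_lit 57926) (nat_lit 282) (.e (nat_lit 163871) (nat_lit 2) (.e (nat_lit 196672) (nat_lit 15) (.e (nat_lit 89856) (nat_lit 11) (.e (nat_lit 426523) (nat_lit 27) .nil)))))) (.g (nat_lit 1) (.e (nat_lit 367526) (nat_lit 0) .nil) .nil))) 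
(.lf (nat_lit 577362) (.g (nat_lit 2902) (.e (nat_lit 336020) (nat_lit 3) (.e (nat_lit 98349) (nat_lit 24) (.e (nat_lit 409646) (nat_lit 18) (.e (nat_lit 303117) (nat_lit 2) (.e (nat_lit 196665) (nat_lit 13) .nil))))) (.g (nat_lit 0) (.e (nat_lit 368609) (nat_lit 0) .nil) .nil))))) (.nd (nat_lit 8) (.nd (nat_lit 9) 
(.lf (nat_lit 576722) (.g (nat_lit 2648) (.e (nat_lit 335986) (nat_lit 1) (.e (nat_lit 57847) (nat_lit 252) (.e (nat_lit 57370) (nat_lit 2) (.e (nat_lit 90158) (nat_lit 11) (.e (nat_lit 24628) (nat_lit 9) (.e (nat_lit 336368) (nat_lit 27) (.e (nat_lit 426501) (nat_lit 27) .nil))))))) (.g (nat_lit 1) (.e (nat_lit 367226) (nat_lit 0) .nil) .nil))) 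
(.lf (nat_lit 577234) (.g (nat_lit 2351) (.e (nat_lit 336019) (nat_lit 3) (.e (nat_lit 98341) (nat_lit 20) (.e (nat_lit 221215) (nat_lit 23) (.e (nat_lit 204829) (nat_lit 18) (.e (nat_lit 57926) (nat_lit 282) (.e (nat_lit 163874) (nat_lit 3) (.e (nat_lit 204854) (nat_lit 26) .nil))))))) (.g (nat_lit 1) (.e (nat_lit 368418) (nat_lit 0) .nil) .nil)))) (.nd (nat_lit 9) 
(.lf (nat_lit 576978) (.g (nat_lit 2965) (.e (nat_lit 335996) (nat_lit 1) (.e (nat_lit 57692) (nat_lit 156) (.e (nat_lit 163938) (nat_lit 18) (.e (nat_lit 475177) (nat_lit 24) (.e (nat_lit 516176) (nat_lit 14) (.e (nat_lit 466954) (nat_lit 11) .nil)))))) (.g (nat_lit 1) (.e (nat_lit 367855) (nat_lit 0) .nil) .nil))) 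
(.lf (nat_lit 577490) (.g (nat_lit 2300) (.e (nat_lit 336025) (nat_lit 3) (.e (nat_lit 98350) (nat_lit 24) (.e (nat_lit 409643) (nat_lit 18) (.e (nat_lit 303119) (nat_lit 3) (.e (nat_lit 204852) (nat_lit 26) .nil))))) (.g (nat_lit 0) (.e (nat_lit 368825) (nat_lit 0) .nil) .nil))))))) (.nd (nat_lit 6) (.nd (nat_lit 7) (.nd (nat_lit 8) (.nd (nat_lit 9) 
(.lf (nat_lit 576562) (.g (nat_lit 1697) (.e (nat_lit 327700) (nat_lit 8) (.e (nat_lit 303144) (nat_lit 13) (.e (nat_lit 483345) (nat_lit 17) (.e (nat_lit 6720) (nat_lit 361) (.e (nat_lit 172144) (nat_lit 26) .nil))))) (.g (nat_lit 1) (.e (nat_lit 366259) (nat_lit 0) .nil) .nil))) 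
(.lf (nat_lit 577074) (.g (nat_lit 2863) (.e (nat_lit 336005) (nat_lit 2) (.e (nat_lit 90170) (nat_lit 13) (.e (nat_lit 172113) (nat_lit 10) (.e (nat_lit 434245) (nat_lit 28) (.e (nat_lit 573474) (nat_lit 12) (.e (nat_lit 57348) (nat_lit 0) (.e (nat_lit 7261) (nat_lit 384) (.e (nat_lit 57412) (nat_lit 12) .nil)))))))) (.g (nat_lit 1) (.e (nat_lit 368175) (nat_lit 0) .nil) .nil)))) 
(.nd (nat_lit 9) 
(.lf (nat_lit 576818) (.g (nat_lit 1391) (.e (nat_lit 335987) (nat_lit 1) (.e (nat_lit 57927) (nat_lit 282) (.e (nat_lit 163875) (nat_lit 3) (.e (nat_lit 204876) (nat_lit 31) (.e (nat_lit 376840) (nat_lit 11) .nil))))) (.g (nat_lit 0) (.e (nat_lit 367429) (nat_lit 0) .nil) .nil))) 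
(.lf (nat_lit 577330) (.g (nat_lit 5335) (.e (nat_lit 336019) (nat_lit 3) (.e (nat_lit 98373) (nat_lit 29) (.e (nat_lit 450588) (nat_lit 10) (.e (nat_lit 573475) (nat_lit 12) (.e (nat_lit 57347) (nat_lit 0) (.e (nat_lit 7261) (nat_lit 384) (.e (nat_lit 57405) (nat_lit 12) .nil))))))) (.g (nat_lit 1) (.e (nat_lit 368540) (nat_lit 0) .nil) .nil))))) (.nd (nat_lit 8) (.nd (nat_lit 9) 
(.lf (nat_lit 576690) (.g (nat_lit 1150) (.e (nat_lit 335986) (nat_lit 1) (.e (nat_lit 57686) (nat_lit 156) (.e (nat_lit 163902) (nat_lit 12) (.e (nat_lit 426436) (nat_lit 18) .nil)))) (.g (nat_lit 0) (.e (nat_lit 367181) (nat_lit 0) .nil) .nil))) 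
(.lf (nat_lit 577202) (.g (nat_lit 2447) (.e (nat_lit 336018) (nat_lit 3) (.e (nat_lit 98359) (nat_lit 26) (.e (nat_lit 426286) (nat_lit 10) (.e (nat_lit 434248) (nat_lit 28) (.e (nat_lit 573475) (nat_lit 12) .nil))))) (.g (nat_lit 0) (.e (nat_lit 368373) (nat_lit 0) .nil) .nil)))) (.nd (nat_lit 9) 
(.lf (nat_lit 576946) (.g (nat_lit 3808) (.e (nat_lit 335995) (nat_lit 1) (.e (nat_lit 57688) (nat_lit 156) (.e (nat_lit 163907) (nat_lit 12) (.e (nat_lit 426428) (nat_lit 17) (.e (nat_lit 90176) (nat_lit 15) (.e (nat_lit 188423) (nat_lit 11) .nil)))))) (.g (nat_lit 1) (.e (nat_lit 367789) (nat_lit 0) .nil) .nil))) 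
(.lf (nat_lit 577458) (.g (nat_lit 2504) (.e (nat_lit 336024) (nat_lit 3) (.e (nat_lit 98350) (nat_lit 24) (.e (nat_lit 409649) (nat_lit 18) (.e (nat_lit 303117) (nat_lit 2) (.e (nat_lit 196666) (nat_lit 13) .nil))))) (.g (nat_lit 0) (.e (nat_lit 368774) (nat_lit 0) .nil) .nil)))))) (.nd (nat_lit 7) (.nd (nat_lit 8) (.nd (nat_lit 9) 
(.lf (nat_lit 576626) (.g (nat_lit 3024) (.e (nat_lit 335877) (nat_lit 0) (.e (nat_lit 6711) (nat_lit 360) (.e (nat_lit 163962) (nat_lit 25) (.e (nat_lit 532550) (nat_lit 12) (.e (nat_lit 360475) (nat_lit 8) (.e (nat_lit 557073) (nat_lit 9) (.e (nat_lit 288) (nat_lit 21) .nil))))))) (.g (nat_lit 1) (.e (nat_lit 366658) (nat_lit 0) .nil) .nil))) 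
(.lf (nat_lit 577138) (.g (nat_lit 3748) (.e (nat_lit 336013) (nat_lit 2) (.e (nat_lit 90165) (nat_lit 12) (.e (nat_lit 164207) (nat_lit 176) (.e (nat_lit 2797) (nat_lit 180) (.e (nat_lit 303117) (nat_lit 2) (.e (nat_lit 196665) (nat_lit 13) (.e (nat_lit 65589) (nat_lit 9) .nil))))))) (.g (nat_lit 1) (.e (nat_lit 368277) (nat_lit 0) .nil) .nil)))) (.nd (nat_lit 9) 
(.lf (nat_lit 576882) (.g (nat_lit 2198) (.e (nat_lit 335988) (nat_lit 1) (.e (nat_lit 57927) (nat_lit 282) (.e (nat_lit 163903) (nat_lit 12) (.e (nat_lit 426555) (nat_lit 32) (.e (nat_lit 376869) (nat_lit 23) (.e (nat_lit 98312) (nat_lit 9) .nil)))))) (.g (nat_lit 1) (.e (nat_lit 367612) (nat_lit 0) .nil) .nil))) 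
(.lf (nat_lit 577394) (.g (nat_lit 2848) (.e (nat_lit 336020) (nat_lit 3) (.e (nat_lit 98384) (nat_lit 32) (.e (nat_lit 475199) (nat_lit 40) (.e (nat_lit 704590) (nat_lit 3) .nil)))) (.g (nat_lit 0) (.e (nat_lit 368646) (nat_lit 0) .nil) .nil))))) (.nd (nat_lit 8) (.nd (nat_lit 9) 
(.lf (nat_lit 576754) (.g (nat_lit 2302) (.e (nat_lit 335986) (nat_lit 1) (.e (nat_lit 57849) (nat_lit 252) (.e (nat_lit 57375) (nat_lit 2) (.e (nat_lit 90158) (nat_lit 11) (.e (nat_lit 24628) (nat_lit 9) (.e (nat_lit 336379) (nat_lit 27) (.e (nat_lit 426522) (nat_lit 27) .nil))))))) (.g (nat_lit 1) (.e (nat_lit 367263) (nat_lit 0) .nil) .nil))) 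
(.lf (nat_lit 577266) (.g (nat_lit 1780) (.e (nat_lit 336019) (nat_lit 3) (.e (nat_lit 98349) (nat_lit 24) (.e (nat_lit 409644) (nat_lit 18) (.e (nat_lit 303112) (nat_lit 0) (.e (nat_lit 3144) (nat_lit 193) .nil))))) (.g (nat_lit 0) (.e (nat_lit 368460) (nat_lit 0) .nil) .nil)))) (.nd (nat_lit 9) 
(.lf (nat_lit 577010) (.g (nat_lit 2179) (.e (nat_lit 335997) (nat_lit 1) (.e (nat_lit 57848) (nat_lit 252) (.e (nat_lit 57372) (nat_lit 2) (.e (nat_lit 90159) (nat_lit 11) (.e (nat_lit 24657) (nat_lit 13) (.e (nat_lit 401152) (nat_lit 9) .nil)))))) (.g (nat_lit 1) (.e (nat_lit 367958) (nat_lit 0) .nil) .nil))) 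
(.lf (nat_lit 577522) (.g (nat_lit 2956) (.e (nat_lit 336026) (nat_lit 3) (.e (nat_lit 98333) (nat_lit 18) (.e (nat_lit 164183) (nat_lit 154) (.e (nat_lit 57379) (nat_lit 3) (.e (nat_lit 98340) (nat_lit 20) .nil))))) (.g (nat_lit 0) (.e (nat_lit 368870) (nat_lit 0) .nil) .nil))))))))) (.nd (nat_lit 4) (.nd (nat_lit 5) (.nd (nat_lit 6) (.nd (nat_lit 7) (.nd (nat_lit 8) (.nd (nat_lit 9) 
(.lf (nat_lit 576522) (.g (nat_lit 4113) (.e (nat_lit 327699) (nat_lit 8) (.e (nat_lit 303118) (nat_lit 3) (.e (nat_lit 204869) (nat_lit 29) (.e (nat_lit 360475) (nat_lit 8) (.e (nat_lit 557073) (nat_lit 9) .nil))))) (.g (nat_lit 0) (.e (nat_lit 366054) (nat_lit 0) .nil) .nil))) 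
(.lf (nat_lit 577034) (.g (nat_lit 2042) (.e (nat_lit 336001) (nat_lit 2) (.e (nat_lit 90170) (nat_lit 13) (.e (nat_lit 172106) (nat_lit 10) (.e (nat_lit 434244) (nat_lit 28) (.e (nat_lit 573474) (nat_lit 12) (.e (nat_lit 57356) (nat_lit 0) (.e (nat_lit 7271) (nat_lit 385) (.e (nat_lit 122905) (nat_lit 12) .nil)))))))) (.g (nat_lit 1) (.e (nat_lit 368094) (nat_lit 0) .nil) .nil)))) 
(.nd (nat_lit 9) 
(.lf (nat_lit 576778) (.g (nat_lit 3003) (.e (nat_lit 335986) (nat_lit 1) (.e (nat_lit 57927) (nat_lit 282) (.e (nat_lit 163874) (nat_lit 3) (.e (nat_lit 204866) (nat_lit 28) (.e (nat_lit 352277) (nat_lit 11) (.e (nat_lit 426500) (nat_lit 27) .nil)))))) (.g (nat_lit 1) (.e (nat_lit 367319) (nat_lit 0) .nil) .nil))) 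
(.lf (nat_lit 577290) (.g (nat_lit 1697) (.e (nat_lit 336019) (nat_lit 3) (.e (nat_lit 98350) (nat_lit 24) (.e (nat_lit 409649) (nat_lit 18) (.e (nat_lit 303112) (nat_lit 0) .nil)))) (.g (nat_lit 0) (.e (nat_lit 368489) (nat_lit 0) .nil) .nil))))) (.nd (nat_lit 8) (.nd (nat_lit 9) 
(.lf (nat_lit 576650) (.g (nat_lit 2639) (.e (nat_lit 335895) (nat_lit 0) (.e (nat_lit 6718) (nat_lit 361) (.e (nat_lit 172143) (nat_lit 25) (.e (nat_lit 319491) (nat_lit 0) (.e (nat_lit 5664) (nat_lit 312) (.e (nat_lit 2887) (nat_lit 184) (.e (nat_lit 426499) (nat_lit 27) .nil))))))) (.g (nat_lit 1) (.e (nat_lit 366985) (nat_lit 0) .nil) .nil))) 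
(.lf (nat_lit 577162) (.g (nat_lit 2685) (.e (nat_lit 336015) (nat_lit 2) (.e (nat_lit 90170) (nat_lit 13) (.e (nat_lit 172106) (nat_lit 10) (.e (nat_lit 434244) (nat_lit 28) .nil)))) (.g (nat_lit 0) (.e (nat_lit 368303) (nat_lit 0) .nil) .nil)))) (.nd (nat_lit 9) 
(.lf (nat_lit 576906) (.g (nat_lit 3016) (.e (nat_lit 335988) (nat_lit 1) (.e (nat_lit 57931) (nat_lit 282) (.e (nat_lit 163905) (nat_lit 12) (.e (nat_lit 426555) (nat_lit 32) (.e (nat_lit 376868) (nat_lit 23) (.e (nat_lit 98317) (nat_lit 9) .nil)))))) (.g (nat_lit 1) (.e (nat_lit 367669) (nat_lit 0) .nil) .nil))) 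
(.lf (nat_lit 577418) (.g (nat_lit 1919) (.e (nat_lit 336023) (nat_lit 3) (.e (nat_lit 98350) (nat_lit 24) (.e (nat_lit 409616) (nat_lit 10) (.e (nat_lit 5756) (nat_lit 315) .nil)))) (.g (nat_lit 0) (.e (nat_lit 368722) (nat_lit 0) .nil) .nil)))))) (.nd (nat_lit 7) (.nd (nat_lit 8) (.nd (nat_lit 9) 
(.lf (nat_lit 576586) (.g (nat_lit 3336) (.e (nat_lit 327716) (nat_lit 16) (.e (nat_lit 286733) (nat_lit 2) (.e (nat_lit 90176) (nat_lit 15) (.e (nat_lit 188452) (nat_lit 23) (.e (nat_lit 204849) (nat_lit 25) .nil))))) (.g (nat_lit 1) (.e (nat_lit 366417) (nat_lit 0) .nil) .nil))) 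
(.lf (nat_lit 577098) (.g (nat_lit 2878) (.e (nat_lit 336008) (nat_lit 2) (.e (nat_lit 90170) (nat_lit 13) (.e (nat_lit 172113) (nat_lit 10) (.e (nat_lit 434248) (nat_lit 28) (.e (nat_lit 573473) (nat_lit 12) (.e (nat_lit 57348) (nat_lit 0) (.e (nat_lit 7261) (nat_lit 384) (.e (nat_lit 57412) (nat_lit 12) .nil)))))))) (.g (nat_lit 1) (.e (nat_lit 368205) (nat_lit 0) .nil) .nil)))) 
(.nd (nat_lit 9) 
(.lf (nat_lit 576842) (.g (nat_lit 2684) (.e (nat_lit 335988) (nat_lit 1) (.e (nat_lit 57926) (nat_lit 282) (.e (nat_lit 163868) (nat_lit 2) (.e (nat_lit 196672) (nat_lit 15) (.e (nat_lit 81925) (nat_lit 11) (.e (nat_lit 426500) (nat_lit 27) .nil)))))) (.g (nat_lit 1) (.e (nat_lit 367517) (nat_lit 0) .nil) .nil))) 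
(.lf (nat_lit 577354) (.g (nat_lit 1575) (.e (nat_lit 336020) (nat_lit 3) (.e (nat_lit 98334) (nat_lit 18) (.e (nat_lit 164183) (nat_lit 154) (.e (nat_lit 57379) (nat_lit 3) .nil)))) (.g (nat_lit 0) (.e (nat_lit 368592) (nat_lit 0) .nil) .nil))))) (.nd (nat_lit 8) (.nd (nat_lit 9) 
(.lf (nat_lit 576714) (.g (nat_lit 2612) (.e (nat_lit 335986) (nat_lit 1) (.e (nat_lit 57692) (nat_lit 156) (.e (nat_lit 163907) (nat_lit 12) (.e (nat_lit 426438) (nat_lit 18) (.e (nat_lit 98369) (nat_lit 28) (.e (nat_lit 442390) (nat_lit 11) .nil)))))) (.g (nat_lit 1) (.e (nat_lit 367208) (nat_lit 0) .nil) .nil))) 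
(.lf (nat_lit 577226) (.g (nat_lit 1581) (.e (nat_lit 336019) (nat_lit 3) (.e (nat_lit 98341) (nat_lit 20) (.e (nat_lit 221210) (nat_lit 22) (.e (nat_lit 196658) (nat_lit 12) (.e (nat_lit 57508) (nat_lit 39) .nil))))) (.g (nat_lit 0) (.e (nat_lit 368409) (nat_lit 0) .nil) .nil)))) (.nd (nat_lit 9) 
(.lf (nat_lit 576970) (.g (nat_lit 2937) (.e (nat_lit 335995) (nat_lit 1) (.e (nat_lit 57931) (nat_lit 282) (.e (nat_lit 163905) (nat_lit 12) (.e (nat_lit 426555) (nat_lit 32) (.e (nat_lit 376869) (nat_lit 23) (.e (nat_lit 98317) (nat_lit 9) .nil)))))) (.g (nat_lit 1) (.e (nat_lit 367836) (nat_lit 0) .nil) .nil))) 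
(.lf (nat_lit 577482) (.g (nat_lit 2421) (.e (nat_lit 336025) (nat_lit 3) (.e (nat_lit 98335) (nat_lit 18) (.e (nat_lit 164183) (nat_lit 154) (.e (nat_lit 57378) (nat_lit 3) (.e (nat_lit 98342) (nat_lit 20) .nil))))) (.g (nat_lit 0) (.e (nat_lit 368811) (nat_lit 0) .nil) .nil))))))) (.nd (nat_lit 6) (.nd (nat_lit 7) (.nd (nat_lit 8) (.nd (nat_lit 9) 
(.lf (nat_lit 576554) (.g (nat_lit 4025) (.e (nat_lit 327700) (nat_lit 8) (.e (nat_lit 303119) (nat_lit 3) (.e (nat_lit 204869) (nat_lit 29) (.e (nat_lit 360474) (nat_lit 8) (.e (nat_lit 557073) (nat_lit 9) .nil))))) (.g (nat_lit 0) (.e (nat_lit 366180) (nat_lit 0) .nil) .nil))) 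
(.lf (nat_lit 577066) (.g (nat_lit 1281) (.e (nat_lit 336002) (nat_lit 2) (.e (nat_lit 90158) (nat_lit 11) (.e (nat_lit 24608) (nat_lit 3) (.e (nat_lit 98334) (nat_lit 18) .nil)))) (.g (nat_lit 0) (.e (nat_lit 368130) (nat_lit 0) .nil) .nil)))) (.nd (nat_lit 9) 
(.lf (nat_lit 576810) (.g (nat_lit 1607) (.e (nat_lit 335987) (nat_lit 1) (.e (nat_lit 57926) (nat_lit 282) (.e (nat_lit 163903) (nat_lit 12) (.e (nat_lit 426544) (nat_lit 30) .nil)))) (.g (nat_lit 0) (.e (nat_lit 367413) (nat_lit 0) .nil) .nil))) 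
(.lf (nat_lit 577322) (.g (nat_lit 4809) (.e (nat_lit 336019) (nat_lit 3) (.e (nat_lit 98373) (nat_lit 29) (.e (nat_lit 450587) (nat_lit 10) (.e (nat_lit 573473) (nat_lit 12) (.e (nat_lit 57352) (nat_lit 0) .nil))))) (.g (nat_lit 0) (.e (nat_lit 368532) (nat_lit 0) .nil) .nil))))) (.nd (nat_lit 8) (.nd (nat_lit 9) 
(.lf (nat_lit 576682) (.g (nat_lit 3342) (.e (nat_lit 335971) (nat_lit 0) (.e (nat_lit 1788) (nat_lit 119) (.e (nat_lit 516166) (nat_lit 12) (.e (nat_lit 450588) (nat_lit 10) (.e (nat_lit 573473) (nat_lit 12) .nil))))) (.g (nat_lit 0) (.e (nat_lit 367146) (nat_lit 0) .nil) .nil))) 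
(.lf (nat_lit 577194) (.g (nat_lit 2395) (.e (nat_lit 336018) (nat_lit 3) (.e (nat_lit 98350) (nat_lit 24) (.e (nat_lit 409647) (nat_lit 18) (.e (nat_lit 303119) (nat_lit 3) (.e (nat_lit 204861) (nat_lit 26) .nil))))) (.g (nat_lit 0) (.e (nat_lit 368365) (nat_lit 0) .nil) .nil)))) (.nd (nat_lit 9) 
(.lf (nat_lit 576938) (.g (nat_lit 2461) (.e (nat_lit 335995) (nat_lit 1) (.e (nat_lit 57688) (nat_lit 156) (.e (nat_lit 163902) (nat_lit 12) (.e (nat_lit 426436) (nat_lit 18) (.e (nat_lit 98381) (nat_lit 31) (.e (nat_lit 466950) (nat_lit 11) .nil)))))) (.g (nat_lit 1) (.e (nat_lit 367781) (nat_lit 0) .nil) .nil))) 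
(.lf (nat_lit 577450) (.g (nat_lit 2586) (.e (nat_lit 336024) (nat_lit 3) (.e (nat_lit 98349) (nat_lit 24) (.e (nat_lit 409645) (nat_lit 18) (.e (nat_lit 303119) (nat_lit 3) (.e (nat_lit 204855) (nat_lit 26) .nil))))) (.g (nat_lit 0) (.e (nat_lit 368762) (nat_lit 0) .nil) .nil)))))) (.nd (nat_lit 7) (.nd (nat_lit 8) (.nd (nat_lit 9) 
(.lf (nat_lit 576618) (.g (nat_lit 2888) (.e (nat_lit 335876) (nat_lit 0) (.e (nat_lit 6711) (nat_lit 360) (.e (nat_lit 163962) (nat_lit 25) (.e (nat_lit 532550) (nat_lit 12) (.e (nat_lit 360475) (nat_lit 8) (.e (nat_lit 557068) (nat_lit 9) (.e (nat_lit 7936) (nat_lit 21) .nil))))))) (.g (nat_lit 1) (.e (nat_lit 366616) (nat_lit 0) .nil) .nil))) 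
(.lf (nat_lit 577130) (.g (nat_lit 3822) (.e (nat_lit 336013) (nat_lit 2) (.e (nat_lit 90134) (nat_lit 9) (.e (nat_lit 3025) (nat_lit 187) (.e (nat_lit 450588) (nat_lit 10) (.e (nat_lit 573474) (nat_lit 12) (.e (nat_lit 57572) (nat_lit 54) (.e (nat_lit 770056) (nat_lit 5) (.e (nat_lit 1464) (nat_lit 108) .nil)))))))) (.g (nat_lit 1) (.e (nat_lit 368257) (nat_lit 0) .nil) .nil)))) (.nd (nat_lit 9) 
(.lf (nat_lit 576874) (.g (nat_lit 2295) (.e (nat_lit 335988) (nat_lit 1) (.e (nat_lit 57927) (nat_lit 282) (.e (nat_lit 163874) (nat_lit 3) (.e (nat_lit 204861) (nat_lit 26) (.e (nat_lit 336075) (nat_lit 9) (.e (nat_lit 336366) (nat_lit 27) (.e (nat_lit 426501) (nat_lit 27) .nil))))))) (.g (nat_lit 1) (.e (nat_lit 367598) (nat_lit 0) .nil) .nil))) 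
(.lf (nat_lit 577386) (.g (nat_lit 2514) (.e (nat_lit 336020) (nat_lit 3) (.e (nat_lit 98365) (nat_lit 26) (.e (nat_lit 426306) (nat_lit 12) (.e (nat_lit 475177) (nat_lit 24) (.e (nat_lit 516129) (nat_lit 3) .nil))))) (.g (nat_lit 0) (.e (nat_lit 368638) (nat_lit 0) .nil) .nil))))) (.nd (nat_lit 8) (.nd (nat_lit 9) 
(.lf (nat_lit 576746) (.g (nat_lit 2847) (.e (nat_lit 335986) (nat_lit 1) (.e (nat_lit 57849) (nat_lit 252) (.e (nat_lit 57372) (nat_lit 2) (.e (nat_lit 90158) (nat_lit 11) (.e (nat_lit 24628) (nat_lit 9) (.e (nat_lit 336379) (nat_lit 27) (.e (nat_lit 426525) (nat_lit 27) .nil))))))) (.g (nat_lit 1) (.e (nat_lit 367255) (nat_lit 0) .nil) .nil))) 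
(.lf (nat_lit 577258) (.g (nat_lit 3768) (.e (nat_lit 336019) (nat_lit 3) (.e (nat_lit 98342) (nat_lit 20) (.e (nat_lit 221215) (nat_lit 23) (.e (nat_lit 204830) (nat_lit 18) (.e (nat_lit 57926) (nat_lit 282) (.e (nat_lit 163873) (nat_lit 3) (.e (nat_lit 204853) (nat_lit 26) .nil))))))) (.g (nat_lit 1) (.e (nat_lit 368450) (nat_lit 0) .nil) .nil)))) (.nd (nat_lit 9) 
(.lf (nat_lit 577002) (.g (nat_lit 3013) (.e (nat_lit 335996) (nat_lit 1) (.e (nat_lit 57931) (nat_lit 282) (.e (nat_lit 163905) (nat_lit 12) (.e (nat_lit 426555) (nat_lit 32) (.e (nat_lit 376869) (nat_lit 23) (.e (nat_lit 98317) (nat_lit 9) .nil)))))) (.g (nat_lit 1) (.e (nat_lit 367915) (nat_lit 0) .nil) .nil))) 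
(.lf (nat_lit 577514) (.g (nat_lit 1861) (.e (nat_lit 336026) (nat_lit 3) (.e (nat_lit 98333) (nat_lit 18) (.e (nat_lit 164182) (nat_lit 154) (.e (nat_lit 57378) (nat_lit 3) .nil)))) (.g (nat_lit 0) (.e (nat_lit 368860) (nat_lit 0) .nil) .nil)))))))) (.nd (nat_lit 5) (.nd (nat_lit 6) (.nd (nat_lit 7) (.nd (nat_lit 8) (.nd (nat_lit 9) 
(.lf (nat_lit 576538) (.g (nat_lit 4001) (.e (nat_lit 327699) (nat_lit 8) (.e (nat_lit 303119) (nat_lit 3) (.e (nat_lit 204869) (nat_lit 29) (.e (nat_lit 360474) (nat_lit 8) (.e (nat_lit 557073) (nat_lit 9) .nil))))) (.g (nat_lit 0) (.e (nat_lit 366084) (nat_lit 0) .nil) .nil))) 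
(.lf (nat_lit 577050) (.g (nat_lit 2577) (.e (nat_lit 336001) (nat_lit 2) (.e (nat_lit 90170) (nat_lit 13) (.e (nat_lit 172113) (nat_lit 10) (.e (nat_lit 434247) (nat_lit 28) (.e (nat_lit 573478) (nat_lit 12) (.e (nat_lit 57356) (nat_lit 0) (.e (nat_lit 7272) (nat_lit 385) (.e (nat_lit 122906) (nat_lit 12) .nil)))))))) (.g (nat_lit 1) (.e (nat_lit 368110) (nat_lit 0) .nil) .nil)))) 
(.nd (nat_lit 9) 
(.lf (nat_lit 576794) (.g (nat_lit 1370) (.e (nat_lit 335986) (nat_lit 1) (.e (nat_lit 57931) (nat_lit 282) (.e (nat_lit 163869) (nat_lit 2) (.e (nat_lit 196681) (nat_lit 17) .nil)))) (.g (nat_lit 0) (.e (nat_lit 367348) (nat_lit 0) .nil) .nil))) 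
(.lf (nat_lit 577306) (.g (nat_lit 3229) (.e (nat_lit 336019) (nat_lit 3) (.e (nat_lit 98372) (nat_lit 29) (.e (nat_lit 450586) (nat_lit 10) (.e (nat_lit 573475) (nat_lit 12) (.e (nat_lit 57354) (nat_lit 0) (.e (nat_lit 7270) (nat_lit 385) (.e (nat_lit 122904) (nat_lit 12) .nil))))))) (.g (nat_lit 1) (.e (nat_lit 368516) (nat_lit 0) .nil) .nil))))) (.nd (nat_lit 8) (.nd (nat_lit 9) 
(.lf (nat_lit 576666) (.g (nat_lit 4481) (.e (nat_lit 335923) (nat_lit 0) (.e (nat_lit 1788) (nat_lit 119) (.e (nat_lit 516139) (nat_lit 7) (.e (nat_lit 409648) (nat_lit 18) (.e (nat_lit 303117) (nat_lit 2) (.e (nat_lit 196666) (nat_lit 13) (.e (nat_lit 65596) (nat_lit 9) .nil))))))) (.g (nat_lit 1) (.e (nat_lit 367077) (nat_lit 0) .nil) .nil))) 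
(.lf (nat_lit 577178) (.g (nat_lit 2738) (.e (nat_lit 336017) (nat_lit 3) (.e (nat_lit 98342) (nat_lit 20) (.e (nat_lit 221214) (nat_lit 23) (.e (nat_lit 204830) (nat_lit 18) (.e (nat_lit 57927) (nat_lit 282) (.e (nat_lit 163875) (nat_lit 3) (.e (nat_lit 204859) (nat_lit 26) .nil))))))) (.g (nat_lit 1) (.e (nat_lit 368345) (nat_lit 0) .nil) .nil)))) (.nd (nat_lit 9) 
(.lf (nat_lit 576922) (.g (nat_lit 1837) (.e (nat_lit 335994) (nat_lit 1) (.e (nat_lit 57688) (nat_lit 156) (.e (nat_lit 163903) (nat_lit 12) (.e (nat_lit 426436) (nat_lit 18) (.e (nat_lit 98379) (nat_lit 31) .nil))))) (.g (nat_lit 0) (.e (nat_lit 367755) (nat_lit 0) .nil) .nil))) 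
(.lf (nat_lit 577434) (.g (nat_lit 4627) (.e (nat_lit 336023) (nat_lit 3) (.e (nat_lit 98373) (nat_lit 29) (.e (nat_lit 450588) (nat_lit 10) (.e (nat_lit 573473) (nat_lit 12) (.e (nat_lit 57353) (nat_lit 0) (.e (nat_lit 7265) (nat_lit 384) (.e (nat_lit 57412) (nat_lit 12) .nil))))))) (.g (nat_lit 1) (.e (nat_lit 368741) (nat_lit 0) .nil) .nil)))))) 
(.nd (nat_lit 7) (.nd (nat_lit 8) (.nd (nat_lit 9) 
(.lf (nat_lit 576602) (.g (nat_lit 3816) (.e (nat_lit 335874) (nat_lit 0) (.e (nat_lit 6711) (nat_lit 360) (.e (nat_lit 163962) (nat_lit 25) (.e (nat_lit 532482) (nat_lit 0) (.e (nat_lit 6203) (nat_lit 332) (.e (nat_lit 2798) (nat_lit 180) (.e (nat_lit 303119) (nat_lit 3) (.e (nat_lit 204859) (nat_lit 26) .nil)))))))) (.g (nat_lit 1) (.e (nat_lit 366525) (nat_lit 0) .nil) .nil))) 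
(.lf (nat_lit 577114) (.g (nat_lit 2712) (.e (nat_lit 336010) (nat_lit 2) (.e (nat_lit 90170) (nat_lit 13) (.e (nat_lit 172118) (nat_lit 12) (.e (nat_lit 475179) (nat_lit 24) (.e (nat_lit 516131) (nat_lit 3) (.e (nat_lit 221194) (nat_lit 11) .nil)))))) (.g (nat_lit 1) (.e (nat_lit 368222) (nat_lit 0) .nil) .nil)))) (.nd (nat_lit 9) 
(.lf (nat_lit 576858) (.g (nat_lit 2822) (.e (nat_lit 335988) (nat_lit 1) (.e (nat_lit 57926) (nat_lit 282) (.e (nat_lit 163905) (nat_lit 12) (.e (nat_lit 426555) (nat_lit 32) (.e (nat_lit 376868) (nat_lit 23) (.e (nat_lit 98317) (nat_lit 9) .nil)))))) (.g (nat_lit 1) (.e (nat_lit 367552) (nat_lit 0) .nil) .nil))) 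
(.lf (nat_lit 577370) (.g (nat_lit 2650) (.e (nat_lit 336020) (nat_lit 3) (.e (nat_lit 98350) (nat_lit 24) (.e (nat_lit 409645) (nat_lit 18) (.e (nat_lit 303112) (nat_lit 0) (.e (nat_lit 3252) (nat_lit 197) .nil))))) (.g (nat_lit 0) (.e (nat_lit 368620) (nat_lit 0) .nil) .nil))))) (.nd (nat_lit 8) (.nd (nat_lit 9) 
(.lf (nat_lit 576730) (.g (nat_lit 2231) (.e (nat_lit 335986) (nat_lit 1) (.e (nat_lit 57847) (nat_lit 252) (.e (nat_lit 57374) (nat_lit 2) (.e (nat_lit 90157) (nat_lit 11) (.e (nat_lit 24657) (nat_lit 13) (.e (nat_lit 393229) (nat_lit 9) .nil)))))) (.g (nat_lit 1) (.e (nat_lit 367234) (nat_lit 0) .nil) .nil))) 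
(.lf (nat_lit 577242) (.g (nat_lit 1287) (.e (nat_lit 336019) (nat_lit 3) (.e (nat_lit 98342) (nat_lit 20) (.e (nat_lit 221210) (nat_lit 22) (.e (nat_lit 196658) (nat_lit 12) .nil)))) (.g (nat_lit 0) (.e (nat_lit 368428) (nat_lit 0) .nil) .nil)))) (.nd (nat_lit 9) 
(.lf (nat_lit 576986) (.g (nat_lit 2651) (.e (nat_lit 335996) (nat_lit 1) (.e (nat_lit 57929) (nat_lit 282) (.e (nat_lit 163873) (nat_lit 3) (.e (nat_lit 204866) (nat_lit 28) (.e (nat_lit 352277) (nat_lit 11) (.e (nat_lit 426500) (nat_lit 27) .nil)))))) (.g (nat_lit 1) (.e (nat_lit 367889) (nat_lit 0) .nil) .nil))) 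
(.lf (nat_lit 577498) (.g (nat_lit 2205) (.e (nat_lit 336025) (nat_lit 3) (.e (nat_lit 98350) (nat_lit 24) (.e (nat_lit 409647) (nat_lit 18) (.e (nat_lit 303118) (nat_lit 3) (.e (nat_lit 204852) (nat_lit 26) .nil))))) (.g (nat_lit 0) (.e (nat_lit 368833) (nat_lit 0) .nil) .nil))))))) (.nd (nat_lit 6) (.nd (nat_lit 7) (.nd (nat_lit 8) (.nd (nat_lit 9) 
(.lf (nat_lit 576570) (.g (nat_lit 4624) (.e (nat_lit 327700) (nat_lit 8) (.e (nat_lit 303145) (nat_lit 13) (.e (nat_lit 483413) (nat_lit 27) (.e (nat_lit 401441) (nat_lit 9) .nil)))) (.g (nat_lit 0) (.e (nat_lit 366285) (nat_lit 0) .nil) .nil))) 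
(.lf (nat_lit 577082) (.g (nat_lit 2480) (.e (nat_lit 336006) (nat_lit 2) (.e (nat_lit 90170) (nat_lit 13) (.e (nat_lit 172113) (nat_lit 10) (.e (nat_lit 434248) (nat_lit 28) (.e (nat_lit 573473) (nat_lit 12) .nil))))) (.g (nat_lit 0) (.e (nat_lit 368183) (nat_lit 0) .nil) .nil)))) (.nd (nat_lit 9) 
(.lf (nat_lit 576826) (.g (nat_lit 2159) (.e (nat_lit 335987) (nat_lit 1) (.e (nat_lit 57927) (nat_lit 282) (.e (nat_lit 163905) (nat_lit 12) (.e (nat_lit 426546) (nat_lit 30) (.e (nat_lit 360466) (nat_lit 3) (.e (nat_lit 516194) (nat_lit 26) .nil)))))) (.g (nat_lit 1) (.e (nat_lit 367437) (nat_lit 0) .nil) .nil))) 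
(.lf (nat_lit 577338) (.g (nat_lit 3045) (.e (nat_lit 336019) (nat_lit 3) (.e (nat_lit 98384) (nat_lit 32) (.e (nat_lit 475199) (nat_lit 40) (.e (nat_lit 704589) (nat_lit 3) (.e (nat_lit 163979) (nat_lit 30) (.e (nat_lit 573482) (nat_lit 13) (.e (nat_lit 65591) (nat_lit 9) .nil))))))) (.g (nat_lit 1) (.e (nat_lit 368550) (nat_lit 0) .nil) .nil))))) (.nd (nat_lit 8) (.nd (nat_lit 9) 
(.lf (nat_lit 576698) (.g (nat_lit 2845) (.e (nat_lit 335986) (nat_lit 1) (.e (nat_lit 57688) (nat_lit 156) (.e (nat_lit 163903) (nat_lit 12) (.e (nat_lit 426438) (nat_lit 18) (.e (nat_lit 98369) (nat_lit 28) (.e (nat_lit 442390) (nat_lit 11) .nil)))))) (.g (nat_lit 1) (.e (nat_lit 367189) (nat_lit 0) .nil) .nil))) 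
(.lf (nat_lit 577210) (.g (nat_lit 3124) (.e (nat_lit 336018) (nat_lit 3) (.e (nat_lit 98373) (nat_lit 29) (.e (nat_lit 450587) (nat_lit 10) (.e (nat_lit 573478) (nat_lit 12) .nil)))) (.g (nat_lit 0) (.e (nat_lit 368381) (nat_lit 0) .nil) .nil)))) (.nd (nat_lit 9) 
(.lf (nat_lit 576954) (.g (nat_lit 2498) (.e (nat_lit 335995) (nat_lit 1) (.e (nat_lit 57872) (nat_lit 264) (.e (nat_lit 1209) (nat_lit 89) (.e (nat_lit 73781) (nat_lit 32) (.e (nat_lit 3090) (nat_lit 191) (.e (nat_lit 491264) (nat_lit 23) .nil)))))) (.g (nat_lit 1) (.e (nat_lit 367812) (nat_lit 0) .nil) .nil))) 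
(.lf (nat_lit 577466) (.g (nat_lit 3388) (.e (nat_lit 336025) (nat_lit 3) (.e (nat_lit 98333) (nat_lit 18) (.e (nat_lit 164179) (nat_lit 154) (.e (nat_lit 57378) (nat_lit 3) (.e (nat_lit 98340) (nat_lit 20) .nil))))) (.g (nat_lit 0) (.e (nat_lit 368786) (nat_lit 0) .nil) .nil)))))) (.nd (nat_lit 7) (.nd (nat_lit 8) (.nd (nat_lit 9) 
(.lf (nat_lit 576634) (.g (nat_lit 1969) (.e (nat_lit 335894) (nat_lit 0) (.e (nat_lit 6720) (nat_lit 361) (.e (nat_lit 172128) (nat_lit 15) (.e (nat_lit 6236) (nat_lit 335) (.e (nat_lit 164377) (nat_lit 253) (.e (nat_lit 237636) (nat_lit 27) .nil)))))) (.g (nat_lit 1) (.e (nat_lit 366893) (nat_lit 0) .nil) .nil))) 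
(.lf (nat_lit 577146) (.g (nat_lit 4903) (.e (nat_lit 336013) (nat_lit 2) (.e (nat_lit 90170) (nat_lit 13) (.e (nat_lit 172042) (nat_lit 0) (.e (nat_lit 3409) (nat_lit 212) (.e (nat_lit 655375) (nat_lit 3) (.e (nat_lit 163978) (nat_lit 30) (.e (nat_lit 573485) (nat_lit 13) (.e (nat_lit 65604) (nat_lit 9) .nil)))))))) (.g (nat_lit 1) (.e (nat_lit 368287) (nat_lit 0) .nil) .nil)))) (.nd (nat_lit 9) 
(.lf (nat_lit 576890) (.g (nat_lit 2866) (.e (nat_lit 335988) (nat_lit 1) (.e (nat_lit 57927) (nat_lit 282) (.e (nat_lit 163905) (nat_lit 12) (.e (nat_lit 426555) (nat_lit 32) (.e (nat_lit 376869) (nat_lit 23) (.e (nat_lit 98317) (nat_lit 9) .nil)))))) (.g (nat_lit 1) (.e (nat_lit 367620) (nat_lit 0) .nil) .nil))) 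
(.lf (nat_lit 577402) (.g (nat_lit 2350) (.e (nat_lit 336021) (nat_lit 3) (.e (nat_lit 98353) (nat_lit 25) (.e (nat_lit 417820) (nat_lit 10) (.e (nat_lit 5761) (nat_lit 315) (.e (nat_lit 163950) (nat_lit 21) (.e (nat_lit 507648) (nat_lit 22) (.e (nat_lit 131116) (nat_lit 9) .nil))))))) (.g (nat_lit 1) (.e (nat_lit 368698) (nat_lit 0) .nil) .nil))))) (.nd (nat_lit 8) (.nd (nat_lit 9) 
(.lf (nat_lit 576762) (.g (nat_lit 2808) (.e (nat_lit 335986) (nat_lit 1) (.e (nat_lit 57926) (nat_lit 282) (.e (nat_lit 163868) (nat_lit 2) (.e (nat_lit 196672) (nat_lit 15) (.e (nat_lit 81925) (nat_lit 11) (.e (nat_lit 426500) (nat_lit 27) .nil)))))) (.g (nat_lit 1) (.e (nat_lit 367296) (nat_lit 0) .nil) .nil))) 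
(.lf (nat_lit 577274) (.g (nat_lit 2316) (.e (nat_lit 336019) (nat_lit 3) (.e (nat_lit 98350) (nat_lit 24) (.e (nat_lit 409643) (nat_lit 18) (.e (nat_lit 303117) (nat_lit 2) (.e (nat_lit 196681) (nat_lit 17) (.e (nat_lit 131105) (nat_lit 9) .nil)))))) (.g (nat_lit 1) (.e (nat_lit 368473) (nat_lit 0) .nil) .nil)))) (.nd (nat_lit 9) 
(.lf (nat_lit 577018) (.g (nat_lit 2201) (.e (nat_lit 336000) (nat_lit 1) (.e (nat_lit 57849) (nat_lit 252) (.e (nat_lit 57375) (nat_lit 2) (.e (nat_lit 90159) (nat_lit 11) (.e (nat_lit 24657) (nat_lit 13) (.e (nat_lit 401152) (nat_lit 9) .nil)))))) (.g (nat_lit 1) (.e (nat_lit 368045) (nat_lit 0) .nil) .nil))) 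
(.lf (nat_lit 577530) (.g (nat_lit 2984) (.e (nat_lit 336026) (nat_lit 3) (.e (nat_lit 98335) (nat_lit 18) (.e (nat_lit 164182) (nat_lit 154) (.e (nat_lit 57379) (nat_lit 3) (.e (nat_lit 98340) (nat_lit 20) .nil))))) (.g (nat_lit 0) (.e (nat_lit 368891) (nat_lit 0) .nil) .nil)))))))))) 
(.nd (nat_lit 3) (.nd (nat_lit 4) (.nd (nat_lit 5) (.nd (nat_lit 6) (.nd (nat_lit 7) 
(.nd (nat_lit 8) (.nd (nat_lit 9) 
(.lf (nat_lit 576518) (.g (nat_lit 4317) (.e (nat_lit 327699) (nat_lit 8) (.e (nat_lit 303118) (nat_lit 3) (.e (nat_lit 204855) (nat_lit 26) (.e (nat_lit 336226) (nat_lit 14) (.e (nat_lit 401428) (nat_lit 3) (.e (nat_lit 204849) (nat_lit 25) .nil)))))) (.g (nat_lit 1) (.e (nat_lit 366050) (nat_lit 0) .nil) .nil))) 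
(.lf (nat_lit 577030) (.g (nat_lit 4136) (.e (nat_lit 336001) (nat_lit 2) (.e (nat_lit 90170) (nat_lit 13) (.e (nat_lit 172106) (nat_lit 10) (.e (nat_lit 434244) (nat_lit 28) (.e (nat_lit 573474) (nat_lit 12) (.e (nat_lit 57354) (nat_lit 0) (.e (nat_lit 7270) (nat_lit 385) (.e (nat_lit 122905) (nat_lit 12) .nil)))))))) (.g (nat_lit 1) (.e (nat_lit 368090) (nat_lit 0) .nil) .nil)))) 
(.nd (nat_lit 9) 
(.lf (nat_lit 576774) (.g (nat_lit 2602) (.e (nat_lit 335986) (nat_lit 1) (.e (nat_lit 57927) (nat_lit 282) (.e (nat_lit 163871) (nat_lit 2) (.e (nat_lit 196672) (nat_lit 15) (.e (nat_lit 81927) (nat_lit 11) (.e (nat_lit 426500) (nat_lit 27) .nil)))))) (.g (nat_lit 1) (.e (nat_lit 367315) (nat_lit 0) .nil) .nil))) 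
(.lf (nat_lit 577286) (.g (nat_lit 1397) (.e (nat_lit 336019) (nat_lit 3) (.e (nat_lit 98350) (nat_lit 24) (.e (nat_lit 409648) (nat_lit 18) (.e (nat_lit 303108) (nat_lit 0) .nil)))) (.g (nat_lit 0) (.e (nat_lit 368485) (nat_lit 0) .nil) .nil))))) (.nd (nat_lit 8) (.nd (nat_lit 9) 
(.lf (nat_lit 576646) (.g (nat_lit 2188) (.e (nat_lit 335895) (nat_lit 0) (.e (nat_lit 6712) (nat_lit 360) (.e (nat_lit 163975) (nat_lit 30) (.e (nat_lit 573451) (nat_lit 9) (.e (nat_lit 1543) (nat_lit 109) .nil))))) (.g (nat_lit 0) (.e (nat_lit 366972) (nat_lit 0) .nil) .nil))) 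
(.lf (nat_lit 577158) (.g (nat_lit 2785) (.e (nat_lit 336013) (nat_lit 2) (.e (nat_lit 90170) (nat_lit 13) (.e (nat_lit 172113) (nat_lit 10) (.e (nat_lit 434247) (nat_lit 28) (.e (nat_lit 573473) (nat_lit 12) (.e (nat_lit 57569) (nat_lit 53) (.e (nat_lit 761866) (nat_lit 5) (.e (nat_lit 1454) (nat_lit 108) .nil)))))))) (.g (nat_lit 1) (.e (nat_lit 368299) (nat_lit 0) .nil) .nil)))) 
(.nd (nat_lit 9) 
(.lf (nat_lit 576902) (.g (nat_lit 2726) (.e (nat_lit 335988) (nat_lit 1) (.e (nat_lit 57931) (nat_lit 282) (.e (nat_lit 163869) (nat_lit 2) (.e (nat_lit 196674) (nat_lit 15) (.e (nat_lit 89856) (nat_lit 11) (.e (nat_lit 426523) (nat_lit 27) .nil)))))) (.g (nat_lit 1) (.e (nat_lit 367654) (nat_lit 0) .nil) .nil))) 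
(.lf (nat_lit 577414) (.g (nat_lit 4018) (.e (nat_lit 336022) (nat_lit 3) (.e (nat_lit 98373) (nat_lit 29) (.e (nat_lit 450588) (nat_lit 10) (.e (nat_lit 573475) (nat_lit 12) (.e (nat_lit 57351) (nat_lit 0) (.e (nat_lit 7263) (nat_lit 384) (.e (nat_lit 57412) (nat_lit 12) .nil))))))) (.g (nat_lit 1) (.e (nat_lit 368715) (nat_lit 0) .nil) .nil)))))) 
(.nd (nat_lit 7) (.nd (nat_lit 8) (.nd (nat_lit 9) 
(.lf (nat_lit 576582) (.g (nat_lit 1781) (.e (nat_lit 327715) (nat_lit 16) (.e (nat_lit 286759) (nat_lit 12) (.e (nat_lit 385107) (nat_lit 51) (.e (nat_lit 794679) (nat_lit 24) .nil)))) (.g (nat_lit 0) (.e (nat_lit 366407) (nat_lit 0) .nil) .nil))) 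
(.lf (nat_lit 577094) (.g (nat_lit 2713) (.e (nat_lit 336008) (nat_lit 2) (.e (nat_lit 90170) (nat_lit 13) (.e (nat_lit 172113) (nat_lit 10) (.e (nat_lit 434247) (nat_lit 28) (.e (nat_lit 573477) (nat_lit 12) (.e (nat_lit 57352) (nat_lit 0) (.e (nat_lit 7261) (nat_lit 384) (.e (nat_lit 57412) (nat_lit 12) .nil)))))))) (.g (nat_lit 1) (.e (nat_lit 368201) (nat_lit 0) .nil) .nil)))) 
(.nd (nat_lit 9) 
(.lf (nat_lit 576838) (.g (nat_lit 2953) (.e (nat_lit 335988) (nat_lit 1) (.e (nat_lit 57692) (nat_lit 156) (.e (nat_lit 163939) (nat_lit 18) (.e (nat_lit 475177) (nat_lit 24) (.e (nat_lit 516176) (nat_lit 14) (.e (nat_lit 466954) (nat_lit 11) .nil)))))) (.g (nat_lit 1) (.e (nat_lit 367460) (nat_lit 0) .nil) .nil))) 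
(.lf (nat_lit 577350) (.g (nat_lit 2808) (.e (nat_lit 336020) (nat_lit 3) (.e (nat_lit 98334) (nat_lit 18) (.e (nat_lit 164182) (nat_lit 154) (.e (nat_lit 57379) (nat_lit 3) (.e (nat_lit 98340) (nat_lit 20) .nil))))) (.g (nat_lit 0) (.e (nat_lit 368580) (nat_lit 0) .nil) .nil))))) (.nd (nat_lit 8) (.nd (nat_lit 9) 
(.lf (nat_lit 576710) (.g (nat_lit 3084) (.e (nat_lit 335986) (nat_lit 1) (.e (nat_lit 57691) (nat_lit 156) (.e (nat_lit 163939) (nat_lit 18) (.e (nat_lit 475177) (nat_lit 24) (.e (nat_lit 516176) (nat_lit 14) (.e (nat_lit 466954) (nat_lit 11) .nil)))))) (.g (nat_lit 1) (.e (nat_lit 367204) (nat_lit 0) .nil) .nil))) 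
(.lf (nat_lit 577222) (.g (nat_lit 2030) (.e (nat_lit 336019) (nat_lit 3) (.e (nat_lit 98334) (nat_lit 18) (.e (nat_lit 164183) (nat_lit 154) (.e (nat_lit 57411) (nat_lit 12) (.e (nat_lit 336377) (nat_lit 27) .nil))))) (.g (nat_lit 0) (.e (nat_lit 368404) (nat_lit 0) .nil) .nil)))) (.nd (nat_lit 9) 
(.lf (nat_lit 576966) (.g (nat_lit 2839) (.e (nat_lit 335995) (nat_lit 1) (.e (nat_lit 57931) (nat_lit 282) (.e (nat_lit 163902) (nat_lit 12) (.e (nat_lit 426555) (nat_lit 32) (.e (nat_lit 376869) (nat_lit 23) (.e (nat_lit 98316) (nat_lit 9) .nil)))))) (.g (nat_lit 1) (.e (nat_lit 367832) (nat_lit 0) .nil) .nil))) 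
(.lf (nat_lit 577478) (.g (nat_lit 2750) (.e (nat_lit 336025) (nat_lit 3) (.e (nat_lit 98335) (nat_lit 18) (.e (nat_lit 164179) (nat_lit 154) (.e (nat_lit 57378) (nat_lit 3) (.e (nat_lit 98341) (nat_lit 20) .nil))))) (.g (nat_lit 0) (.e (nat_lit 368806) (nat_lit 0) .nil) .nil))))))) (.nd (nat_lit 6) (.nd (nat_lit 7) (.nd (nat_lit 8) (.nd (nat_lit 9) 
(.lf (nat_lit 576550) (.g (nat_lit 2190) (.e (nat_lit 327700) (nat_lit 8) (.e (nat_lit 303119) (nat_lit 3) (.e (nat_lit 204868) (nat_lit 29) (.e (nat_lit 360473) (nat_lit 8) (.e (nat_lit 557068) (nat_lit 9) (.e (nat_lit 220) (nat_lit 20) .nil)))))) (.g (nat_lit 1) (.e (nat_lit 366176) (nat_lit 0) .nil) .nil))) 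
(.lf (nat_lit 577062) (.g (nat_lit 2267) (.e (nat_lit 336001) (nat_lit 2) (.e (nat_lit 90170) (nat_lit 13) (.e (nat_lit 172113) (nat_lit 10) (.e (nat_lit 434248) (nat_lit 28) (.e (nat_lit 573476) (nat_lit 12) .nil))))) (.g (nat_lit 0) (.e (nat_lit 368122) (nat_lit 0) .nil) .nil)))) (.nd (nat_lit 9) 
(.lf (nat_lit 576806) (.g (nat_lit 3547) (.e (nat_lit 335987) (nat_lit 1) (.e (nat_lit 57854) (nat_lit 252) (.e (nat_lit 57389) (nat_lit 5) (.e (nat_lit 114698) (nat_lit 11) (.e (nat_lit 426335) (nat_lit 13) (.e (nat_lit 483393) (nat_lit 23) .nil)))))) (.g (nat_lit 1) (.e (nat_lit 367405) (nat_lit 0) .nil) .nil))) 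
(.lf (nat_lit 577318) (.g (nat_lit 4338) (.e (nat_lit 336019) (nat_lit 3) (.e (nat_lit 98372) (nat_lit 29) (.e (nat_lit 450588) (nat_lit 10) (.e (nat_lit 573475) (nat_lit 12) (.e (nat_lit 57354) (nat_lit 0) (.e (nat_lit 7270) (nat_lit 385) (.e (nat_lit 122904) (nat_lit 12) .nil))))))) (.g (nat_lit 1) (.e (nat_lit 368528) (nat_lit 0) .nil) .nil))))) (.nd (nat_lit 8) (.nd (nat_lit 9) 
(.lf (nat_lit 576678) (.g (nat_lit 2437) (.e (nat_lit 335957) (nat_lit 0) (.e (nat_lit 1796) (nat_lit 119) (.e (nat_lit 516166) (nat_lit 12) (.e (nat_lit 450587) (nat_lit 10) (.e (nat_lit 573478) (nat_lit 12) .nil))))) (.g (nat_lit 0) (.e (nat_lit 367142) (nat_lit 0) .nil) .nil))) 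
(.lf (nat_lit 577190) (.g (nat_lit 1853) (.e (nat_lit 336017) (nat_lit 3) (.e (nat_lit 98365) (nat_lit 26) (.e (nat_lit 426306) (nat_lit 12) (.e (nat_lit 475179) (nat_lit 24) (.e (nat_lit 516131) (nat_lit 3) .nil))))) (.g (nat_lit 0) (.e (nat_lit 368358) (nat_lit 0) .nil) .nil)))) (.nd (nat_lit 9) 
(.lf (nat_lit 576934) (.g (nat_lit 2457) (.e (nat_lit 335995) (nat_lit 1) (.e (nat_lit 57688) (nat_lit 156) (.e (nat_lit 163902) (nat_lit 12) (.e (nat_lit 426432) (nat_lit 17) (.e (nat_lit 90176) (nat_lit 15) (.e (nat_lit 188423) (nat_lit 11) .nil)))))) (.g (nat_lit 1) (.e (nat_lit 367777) (nat_lit 0) .nil) .nil))) 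
(.lf (nat_lit 577446) (.g (nat_lit 1019) (.e (nat_lit 336024) (nat_lit 3) (.e (nat_lit 98333) (nat_lit 18) (.e (nat_lit 164179) (nat_lit 154) .nil))) (.g (nat_lit 0) (.e (nat_lit 368754) (nat_lit 0) .nil) .nil)))))) (.nd (nat_lit 7) (.nd (nat_lit 8) (.nd (nat_lit 9) 
(.lf (nat_lit 576614) (.g (nat_lit 506) (.e (nat_lit 335874) (nat_lit 0) (.e (nat_lit 6719) (nat_lit 361) (.e (nat_lit 172143) (nat_lit 25) (.e (nat_lit 319492) (nat_lit 0) (.e (nat_lit 5771) (nat_lit 316) (.e (nat_lit 172149) (nat_lit 27) .nil)))))) (.g (nat_lit 1) (.e (nat_lit 366550) (nat_lit 0) .nil) .nil))) 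
(.lf (nat_lit 577126) (.g (nat_lit 4061) (.e (nat_lit 336013) (nat_lit 2) (.e (nat_lit 90134) (nat_lit 9) (.e (nat_lit 3025) (nat_lit 187) (.e (nat_lit 450586) (nat_lit 10) (.e (nat_lit 573474) (nat_lit 12) (.e (nat_lit 57572) (nat_lit 54) (.e (nat_lit 770057) (nat_lit 5) (.e (nat_lit 1449) (nat_lit 108) .nil)))))))) (.g (nat_lit 1) (.e (nat_lit 368253) (nat_lit 0) .nil) .nil)))) (.nd (nat_lit 9) 
(.lf (nat_lit 576870) (.g (nat_lit 1416) (.e (nat_lit 335988) (nat_lit 1) (.e (nat_lit 57927) (nat_lit 282) (.e (nat_lit 163871) (nat_lit 2) (.e (nat_lit 196665) (nat_lit 13) .nil)))) (.g (nat_lit 0) (.e (nat_lit 367593) (nat_lit 0) .nil) .nil))) 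
(.lf (nat_lit 577382) (.g (nat_lit 2580) (.e (nat_lit 336020) (nat_lit 3) (.e (nat_lit 98350) (nat_lit 24) (.e (nat_lit 409649) (nat_lit 18) (.e (nat_lit 303119) (nat_lit 3) (.e (nat_lit 204855) (nat_lit 26) .nil))))) (.g (nat_lit 0) (.e (nat_lit 368633) (nat_lit 0) .nil) .nil))))) (.nd (nat_lit 8) (.nd (nat_lit 9) 
(.lf (nat_lit 576742) (.g (nat_lit 3000) (.e (nat_lit 335986) (nat_lit 1) (.e (nat_lit 57849) (nat_lit 252) (.e (nat_lit 57372) (nat_lit 2) (.e (nat_lit 90158) (nat_lit 11) (.e (nat_lit 24628) (nat_lit 9) (.e (nat_lit 336372) (nat_lit 27) (.e (nat_lit 426525) (nat_lit 27) .nil))))))) (.g (nat_lit 1) (.e (nat_lit 367251) (nat_lit 0) .nil) .nil))) 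
(.lf (nat_lit 577254) (.g (nat_lit 411) (.e (nat_lit 336019) (nat_lit 3) (.e (nat_lit 98342) (nat_lit 20) (.e (nat_lit 221215) (nat_lit 23) .nil))) (.g (nat_lit 0) (.e (nat_lit 368443) (nat_lit 0) .nil) .nil)))) (.nd (nat_lit 9) 
(.lf (nat_lit 576998) (.g (nat_lit 2981) (.e (nat_lit 335996) (nat_lit 1) (.e (nat_lit 57931) (nat_lit 282) (.e (nat_lit 163902) (nat_lit 12) (.e (nat_lit 426555) (nat_lit 32) (.e (nat_lit 376867) (nat_lit 23) (.e (nat_lit 98317) (nat_lit 9) .nil)))))) (.g (nat_lit 1) (.e (nat_lit 367911) (nat_lit 0) .nil) .nil))) 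
(.lf (nat_lit 577510) (.g (nat_lit 1077) (.e (nat_lit 336026) (nat_lit 3) (.e (nat_lit 98333) (nat_lit 18) (.e (nat_lit 164179) (nat_lit 154) .nil))) (.g (nat_lit 0) (.e (nat_lit 368849) (nat_lit 0) .nil) .nil)))))))) (.nd (nat_lit 5) (.nd (nat_lit 6) (.nd (nat_lit 7) (.nd (nat_lit 8) (.nd (nat_lit 9) 
(.lf (nat_lit 576534) (.g (nat_lit 2000) (.e (nat_lit 327699) (nat_lit 8) (.e (nat_lit 303119) (nat_lit 3) (.e (nat_lit 204855) (nat_lit 26) (.e (nat_lit 336226) (nat_lit 14) .nil)))) (.g (nat_lit 0) (.e (nat_lit 366075) (nat_lit 0) .nil) .nil))) 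
(.lf (nat_lit 577046) (.g (nat_lit 3395) (.e (nat_lit 336001) (nat_lit 2) (.e (nat_lit 90170) (nat_lit 13) (.e (nat_lit 172113) (nat_lit 10) (.e (nat_lit 434245) (nat_lit 28) (.e (nat_lit 573474) (nat_lit 12) (.e (nat_lit 57354) (nat_lit 0) (.e (nat_lit 7272) (nat_lit 385) (.e (nat_lit 122906) (nat_lit 12) .nil)))))))) (.g (nat_lit 1) (.e (nat_lit 368106) (nat_lit 0) .nil) .nil)))) 
(.nd (nat_lit 9) 
(.lf (nat_lit 576790) (.g (nat_lit 3140) (.e (nat_lit 335986) (nat_lit 1) (.e (nat_lit 57927) (nat_lit 282) (.e (nat_lit 163944) (nat_lit 19) (.e (nat_lit 483393) (nat_lit 23) (.e (nat_lit 336021) (nat_lit 3) (.e (nat_lit 98317) (nat_lit 9) .nil)))))) (.g (nat_lit 1) (.e (nat_lit 367341) (nat_lit 0) .nil) .nil))) 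
(.lf (nat_lit 577302) (.g (nat_lit 3669) (.e (nat_lit 336019) (nat_lit 3) (.e (nat_lit 98356) (nat_lit 26) (.e (nat_lit 426422) (nat_lit 16) (.e (nat_lit 57691) (nat_lit 156) (.e (nat_lit 163875) (nat_lit 3) (.e (nat_lit 204830) (nat_lit 18) (.e (nat_lit 57852) (nat_lit 252) (.e (nat_lit 57409) (nat_lit 12) .nil)))))))) (.g (nat_lit 1) (.e (nat_lit 368511) (nat_lit 0) .nil) .nil))))) 
(.nd (nat_lit 8) (.nd (nat_lit 9) 
(.lf (nat_lit 576662) (.g (nat_lit 2428) (.e (nat_lit 335919) (nat_lit 0) (.e (nat_lit 1788) (nat_lit 119) (.e (nat_lit 516139) (nat_lit 7) (.e (nat_lit 409649) (nat_lit 18) (.e (nat_lit 303117) (nat_lit 2) .nil))))) (.g (nat_lit 0) (.e (nat_lit 367069) (nat_lit 0) .nil) .nil))) 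
(.lf (nat_lit 577174) (.g (nat_lit 1041) (.e (nat_lit 336017) (nat_lit 3) (.e (nat_lit 98342) (nat_lit 20) (.e (nat_lit 221198) (nat_lit 20) .nil))) (.g (nat_lit 0) (.e (nat_lit 368340) (nat_lit 0) .nil) .nil)))) (.nd (nat_lit 9) 
(.lf (nat_lit 576918) (.g (nat_lit 2328) (.e (nat_lit 335994) (nat_lit 1) (.e (nat_lit 57687) (nat_lit 156) (.e (nat_lit 163903) (nat_lit 12) (.e (nat_lit 426438) (nat_lit 18) (.e (nat_lit 98381) (nat_lit 31) .nil))))) (.g (nat_lit 0) (.e (nat_lit 367751) (nat_lit 0) .nil) .nil))) 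
(.lf (nat_lit 577430) (.g (nat_lit 1829) (.e (nat_lit 336023) (nat_lit 3) (.e (nat_lit 98350) (nat_lit 24) (.e (nat_lit 409649) (nat_lit 18) (.e (nat_lit 303119) (nat_lit 3) .nil)))) (.g (nat_lit 0) (.e (nat_lit 368735) (nat_lit 0) .nil) .nil)))))) (.nd (nat_lit 7) (.nd (nat_lit 8) (.nd (nat_lit 9) 
(.lf (nat_lit 576598) (.g (nat_lit 1425) (.e (nat_lit 335872) (nat_lit 0) (.e (nat_lit 6717) (nat_lit 361) (.e (nat_lit 172150) (nat_lit 27) (.e (nat_lit 336078) (nat_lit 9) (.e (nat_lit 336270) (nat_lit 15) (.e (nat_lit 3748) (nat_lit 228) (.e (nat_lit 786473) (nat_lit 27) .nil))))))) (.g (nat_lit 1) (.e (nat_lit 366458) (nat_lit 0) .nil) .nil))) 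
(.lf (nat_lit 577110) (.g (nat_lit 2456) (.e (nat_lit 336009) (nat_lit 2) (.e (nat_lit 90170) (nat_lit 13) (.e (nat_lit 172113) (nat_lit 10) (.e (nat_lit 434248) (nat_lit 28) (.e (nat_lit 573476) (nat_lit 12) .nil))))) (.g (nat_lit 0) (.e (nat_lit 368218) (nat_lit 0) .nil) .nil)))) (.nd (nat_lit 9) 
(.lf (nat_lit 576854) (.g (nat_lit 3269) (.e (nat_lit 335988) (nat_lit 1) (.e (nat_lit 57926) (nat_lit 282) (.e (nat_lit 163875) (nat_lit 3) (.e (nat_lit 204877) (nat_lit 31) (.e (nat_lit 376842) (nat_lit 11) (.e (nat_lit 426521) (nat_lit 27) .nil)))))) (.g (nat_lit 1) (.e (nat_lit 367539) (nat_lit 0) .nil) .nil))) 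
(.lf (nat_lit 577366) (.g (nat_lit 1880) (.e (nat_lit 336020) (nat_lit 3) (.e (nat_lit 98350) (nat_lit 24) (.e (nat_lit 409616) (nat_lit 10) (.e (nat_lit 5763) (nat_lit 315) .nil)))) (.g (nat_lit 0) (.e (nat_lit 368614) (nat_lit 0) .nil) .nil))))) (.nd (nat_lit 8) (.nd (nat_lit 9) 
(.lf (nat_lit 576726) (.g (nat_lit 2747) (.e (nat_lit 335986) (nat_lit 1) (.e (nat_lit 57847) (nat_lit 252) (.e (nat_lit 57372) (nat_lit 2) (.e (nat_lit 90160) (nat_lit 11) (.e (nat_lit 24624) (nat_lit 9) (.e (nat_lit 336377) (nat_lit 27) (.e (nat_lit 426525) (nat_lit 27) .nil))))))) (.g (nat_lit 1) (.e (nat_lit 367230) (nat_lit 0) .nil) .nil))) 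
(.lf (nat_lit 577238) (.g (nat_lit 3042) (.e (nat_lit 336019) (nat_lit 3) (.e (nat_lit 98341) (nat_lit 20) (.e (nat_lit 221215) (nat_lit 23) (.e (nat_lit 204830) (nat_lit 18) (.e (nat_lit 57931) (nat_lit 282) (.e (nat_lit 163874) (nat_lit 3) (.e (nat_lit 204854) (nat_lit 26) .nil))))))) (.g (nat_lit 1) (.e (nat_lit 368424) (nat_lit 0) .nil) .nil)))) (.nd (nat_lit 9) 
(.lf (nat_lit 576982) (.g (nat_lit 2228) (.e (nat_lit 335996) (nat_lit 1) (.e (nat_lit 57924) (nat_lit 282) (.e (nat_lit 163867) (nat_lit 2) (.e (nat_lit 196672) (nat_lit 15) (.e (nat_lit 81925) (nat_lit 11) (.e (nat_lit 426500) (nat_lit 27) .nil)))))) (.g (nat_lit 1) (.e (nat_lit 367884) (nat_lit 0) .nil) .nil))) 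
(.lf (nat_lit 577494) (.g (nat_lit 1846) (.e (nat_lit 336025) (nat_lit 3) (.e (nat_lit 98350) (nat_lit 24) (.e (nat_lit 409645) (nat_lit 18) (.e (nat_lit 303119) (nat_lit 3) .nil)))) (.g (nat_lit 0) (.e (nat_lit 368829) (nat_lit 0) .nil) .nil))))))) (.nd (nat_lit 6) (.nd (nat_lit 7) (.nd (nat_lit 8) (.nd (nat_lit 9) 
(.lf (nat_lit 576566) (.g (nat_lit 2644) (.e (nat_lit 327700) (nat_lit 8) (.e (nat_lit 303145) (nat_lit 13) (.e (nat_lit 483346) (nat_lit 17) (.e (nat_lit 7936) (nat_lit 361) .nil)))) (.g (nat_lit 0) (.e (nat_lit 366268) (nat_lit 0) .nil) .nil))) 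
(.lf (nat_lit 577078) (.g (nat_lit 2767) (.e (nat_lit 336005) (nat_lit 2) (.e (nat_lit 90170) (nat_lit 13) (.e (nat_lit 172113) (nat_lit 10) (.e (nat_lit 434248) (nat_lit 28) (.e (nat_lit 573475) (nat_lit 12) (.e (nat_lit 57347) (nat_lit 0) (.e (nat_lit 7263) (nat_lit 384) (.e (nat_lit 57412) (nat_lit 12) .nil)))))))) (.g (nat_lit 1) (.e (nat_lit 368179) (nat_lit 0) .nil) .nil)))) 
(.nd (nat_lit 9) 
(.lf (nat_lit 576822) (.g (nat_lit 2196) (.e (nat_lit 335987) (nat_lit 1) (.e (nat_lit 57927) (nat_lit 282) (.e (nat_lit 163903) (nat_lit 12) (.e (nat_lit 426555) (nat_lit 32) (.e (nat_lit 376869) (nat_lit 23) (.e (nat_lit 98316) (nat_lit 9) .nil)))))) (.g (nat_lit 1) (.e (nat_lit 367433) (nat_lit 0) .nil) .nil))) 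
(.lf (nat_lit 577334) (.g (nat_lit 6082) (.e (nat_lit 336019) (nat_lit 3) (.e (nat_lit 98373) (nat_lit 29) (.e (nat_lit 450588) (nat_lit 10) (.e (nat_lit 573475) (nat_lit 12) (.e (nat_lit 57354) (nat_lit 0) (.e (nat_lit 7270) (nat_lit 385) (.e (nat_lit 122904) (nat_lit 12) .nil))))))) (.g (nat_lit 1) (.e (nat_lit 368544) (nat_lit 0) .nil) .nil))))) (.nd (nat_lit 8) (.nd (nat_lit 9) 
(.lf (nat_lit 576694) (.g (nat_lit 1881) (.e (nat_lit 335986) (nat_lit 1) (.e (nat_lit 57688) (nat_lit 156) (.e (nat_lit 163902) (nat_lit 12) (.e (nat_lit 426437) (nat_lit 18) (.e (nat_lit 98369) (nat_lit 28) .nil))))) (.g (nat_lit 0) (.e (nat_lit 367185) (nat_lit 0) .nil) .nil))) 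
(.lf (nat_lit 577206) (.g (nat_lit 3940) (.e (nat_lit 336018) (nat_lit 3) (.e (nat_lit 98372) (nat_lit 29) (.e (nat_lit 450588) (nat_lit 10) (.e (nat_lit 573475) (nat_lit 12) (.e (nat_lit 57348) (nat_lit 0) .nil))))) (.g (nat_lit 0) (.e (nat_lit 368377) (nat_lit 0) .nil) .nil)))) (.nd (nat_lit 9) 
(.lf (nat_lit 576950) (.g (nat_lit 3763) (.e (nat_lit 335995) (nat_lit 1) (.e (nat_lit 57683) (nat_lit 155) (.e (nat_lit 122913) (nat_lit 13) (.e (nat_lit 344130) (nat_lit 26) (.e (nat_lit 557067) (nat_lit 9) (.e (nat_lit 2828) (nat_lit 182) (.e (nat_lit 409649) (nat_lit 18) (.e (nat_lit 303151) (nat_lit 27) .nil)))))))) (.g (nat_lit 1) (.e (nat_lit 367794) (nat_lit 0) .nil) .nil))) 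
(.lf (nat_lit 577462) (.g (nat_lit 1312) (.e (nat_lit 336025) (nat_lit 3) (.e (nat_lit 98317) (nat_lit 9) (.e (nat_lit 335986) (nat_lit 1) (.e (nat_lit 57927) (nat_lit 282) .nil)))) (.g (nat_lit 0) (.e (nat_lit 368778) (nat_lit 0) .nil) .nil)))))) (.nd (nat_lit 7) (.nd (nat_lit 8) (.nd (nat_lit 9) 
(.lf (nat_lit 576630) (.g (nat_lit 1595) (.e (nat_lit 335893) (nat_lit 0) (.e (nat_lit 6720) (nat_lit 361) (.e (nat_lit 172143) (nat_lit 25) (.e (nat_lit 319490) (nat_lit 0) (.e (nat_lit 5771) (nat_lit 316) (.e (nat_lit 172150) (nat_lit 27) .nil)))))) (.g (nat_lit 1) (.e (nat_lit 366779) (nat_lit 0) .nil) .nil))) 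
(.lf (nat_lit 577142) (.g (nat_lit 517) (.e (nat_lit 336013) (nat_lit 2) (.e (nat_lit 90170) (nat_lit 13) (.e (nat_lit 172042) (nat_lit 0) .nil))) (.g (nat_lit 0) (.e (nat_lit 368283) (nat_lit 0) .nil) .nil)))) (.nd (nat_lit 9) 
(.lf (nat_lit 576886) (.g (nat_lit 2658) (.e (nat_lit 335988) (nat_lit 1) (.e (nat_lit 57927) (nat_lit 282) (.e (nat_lit 163905) (nat_lit 12) (.e (nat_lit 426542) (nat_lit 29) (.e (nat_lit 352315) (nat_lit 23) (.e (nat_lit 98316) (nat_lit 9) .nil)))))) (.g (nat_lit 1) (.e (nat_lit 367616) (nat_lit 0) .nil) .nil))) 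
(.lf (nat_lit 577398) (.g (nat_lit 2584) (.e (nat_lit 336021) (nat_lit 3) (.e (nat_lit 98333) (nat_lit 18) (.e (nat_lit 164182) (nat_lit 154) (.e (nat_lit 57378) (nat_lit 3) (.e (nat_lit 98340) (nat_lit 20) (.e (nat_lit 221215) (nat_lit 23) (.e (nat_lit 204861) (nat_lit 26) .nil))))))) (.g (nat_lit 1) (.e (nat_lit 368687) (nat_lit 0) .nil) .nil))))) (.nd (nat_lit 8) (.nd (nat_lit 9) 
(.lf (nat_lit 576758) (.g (nat_lit 765) (.e (nat_lit 335986) (nat_lit 1) (.e (nat_lit 57849) (nat_lit 252) (.e (nat_lit 57382) (nat_lit 4) .nil))) (.g (nat_lit 0) (.e (nat_lit 367268) (nat_lit 0) .nil) .nil))) 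
(.lf (nat_lit 577270) (.g (nat_lit 2515) (.e (nat_lit 336019) (nat_lit 3) (.e (nat_lit 98349) (nat_lit 24) (.e (nat_lit 409646) (nat_lit 18) (.e (nat_lit 303119) (nat_lit 3) (.e (nat_lit 204861) (nat_lit 26) .nil))))) (.g (nat_lit 0) (.e (nat_lit 368464) (nat_lit 0) .nil) .nil)))) (.nd (nat_lit 9) 
(.lf (nat_lit 577014) (.g (nat_lit 588) (.e (nat_lit 335997) (nat_lit 1) (.e (nat_lit 57873) (nat_lit 264) (.e (nat_lit 1209) (nat_lit 89) .nil))) (.g (nat_lit 0) (.e (nat_lit 367977) (nat_lit 0) .nil) .nil))) 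
(.lf (nat_lit 577526) (.g (nat_lit 746) (.e (nat_lit 336026) (nat_lit 3) (.e (nat_lit 98335) (nat_lit 18) (.e (nat_lit 164179) (nat_lit 154) .nil))) (.g (nat_lit 0) (.e (nat_lit 368878) (nat_lit 0) .nil) .nil))))))))) (.nd (nat_lit 4) (.nd (nat_lit 5) (.nd (nat_lit 6) (.nd (nat_lit 7) (.nd (nat_lit 8) (.nd (nat_lit 9) 
(.lf (nat_lit 576526) (.g (nat_lit 1955) (.e (nat_lit 327699) (nat_lit 8) (.e (nat_lit 303119) (nat_lit 3) (.e (nat_lit 204845) (nat_lit 24) (.e (nat_lit 319491) (nat_lit 0) .nil)))) (.g (nat_lit 0) (.e (nat_lit 366063) (nat_lit 0) .nil) .nil))) 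
(.lf (nat_lit 577038) (.g (nat_lit 4039) (.e (nat_lit 336001) (nat_lit 2) (.e (nat_lit 90170) (nat_lit 13) (.e (nat_lit 172113) (nat_lit 10) (.e (nat_lit 434242) (nat_lit 28) (.e (nat_lit 573474) (nat_lit 12) (.e (nat_lit 57347) (nat_lit 0) (.e (nat_lit 7263) (nat_lit 384) (.e (nat_lit 57412) (nat_lit 12) .nil)))))))) (.g (nat_lit 1) (.e (nat_lit 368098) (nat_lit 0) .nil) .nil)))) 
(.nd (nat_lit 9) 
(.lf (nat_lit 576782) (.g (nat_lit 2757) (.e (nat_lit 335986) (nat_lit 1) (.e (nat_lit 57927) (nat_lit 282) (.e (nat_lit 163903) (nat_lit 12) (.e (nat_lit 426555) (nat_lit 32) (.e (nat_lit 376867) (nat_lit 23) (.e (nat_lit 98317) (nat_lit 9) .nil)))))) (.g (nat_lit 1) (.e (nat_lit 367323) (nat_lit 0) .nil) .nil))) 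
(.lf (nat_lit 577294) (.g (nat_lit 2200) (.e (nat_lit 336019) (nat_lit 3) (.e (nat_lit 98350) (nat_lit 24) (.e (nat_lit 409649) (nat_lit 18) (.e (nat_lit 303111) (nat_lit 0) (.e (nat_lit 3147) (nat_lit 193) (.e (nat_lit 500089) (nat_lit 22) (.e (nat_lit 131105) (nat_lit 9) .nil))))))) (.g (nat_lit 1) (.e (nat_lit 368495) (nat_lit 0) .nil) .nil))))) (.nd (nat_lit 8) (.nd (nat_lit 9) 
(.lf (nat_lit 576654) (.g (nat_lit 1939) (.e (nat_lit 335906) (nat_lit 0) (.e (nat_lit 6113) (nat_lit 332) (.e (nat_lit 1374) (nat_lit 104) (.e (nat_lit 311040) (nat_lit 26) .nil)))) (.g (nat_lit 0) (.e (nat_lit 367046) (nat_lit 0) .nil) .nil))) 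
(.lf (nat_lit 577166) (.g (nat_lit 2075) (.e (nat_lit 336016) (nat_lit 2) (.e (nat_lit 90176) (nat_lit 15) (.e (nat_lit 188452) (nat_lit 23) (.e (nat_lit 212736) (nat_lit 1) .nil)))) (.g (nat_lit 0) (.e (nat_lit 368315) (nat_lit 0) .nil) .nil)))) (.nd (nat_lit 9) 
(.lf (nat_lit 576910) (.g (nat_lit 1633) (.e (nat_lit 335993) (nat_lit 1) (.e (nat_lit 57688) (nat_lit 156) (.e (nat_lit 163902) (nat_lit 12) (.e (nat_lit 426436) (nat_lit 18) (.e (nat_lit 98381) (nat_lit 31) .nil))))) (.g (nat_lit 0) (.e (nat_lit 367719) (nat_lit 0) .nil) .nil))) 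
(.lf (nat_lit 577422) (.g (nat_lit 2026) (.e (nat_lit 336023) (nat_lit 3) (.e (nat_lit 98350) (nat_lit 24) (.e (nat_lit 409647) (nat_lit 18) (.e (nat_lit 303118) (nat_lit 3) (.e (nat_lit 204855) (nat_lit 26) .nil))))) (.g (nat_lit 0) (.e (nat_lit 368727) (nat_lit 0) .nil) .nil)))))) (.nd (nat_lit 7) (.nd (nat_lit 8) (.nd (nat_lit 9) 
(.lf (nat_lit 576590) (.g (nat_lit 3086) (.e (nat_lit 335872) (nat_lit 0) (.e (nat_lit 6711) (nat_lit 360) (.e (nat_lit 163962) (nat_lit 25) (.e (nat_lit 532535) (nat_lit 9) (.e (nat_lit 336058) (nat_lit 7) (.e (nat_lit 319519) (nat_lit 12) (.e (nat_lit 32778) (nat_lit 5) (.e (nat_lit 1512) (nat_lit 108) .nil)))))))) (.g (nat_lit 1) (.e (nat_lit 366445) (nat_lit 0) .nil) .nil))) 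
(.lf (nat_lit 577102) (.g (nat_lit 2757) (.e (nat_lit 336008) (nat_lit 2) (.e (nat_lit 90170) (nat_lit 13) (.e (nat_lit 172113) (nat_lit 10) (.e (nat_lit 434248) (nat_lit 28) (.e (nat_lit 573473) (nat_lit 12) (.e (nat_lit 57353) (nat_lit 0) (.e (nat_lit 7261) (nat_lit 384) (.e (nat_lit 57412) (nat_lit 12) .nil)))))))) (.g (nat_lit 1) (.e (nat_lit 368209) (nat_lit 0) .nil) .nil)))) 
(.nd (nat_lit 9) 
(.lf (nat_lit 576846) (.g (nat_lit 2529) (.e (nat_lit 335988) (nat_lit 1) (.e (nat_lit 57926) (nat_lit 282) (.e (nat_lit 163869) (nat_lit 2) (.e (nat_lit 196672) (nat_lit 15) (.e (nat_lit 81927) (nat_lit 11) (.e (nat_lit 426497) (nat_lit 27) .nil)))))) (.g (nat_lit 1) (.e (nat_lit 367521) (nat_lit 0) .nil) .nil))) 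
(.lf (nat_lit 577358) (.g (nat_lit 1353) (.e (nat_lit 336020) (nat_lit 3) (.e (nat_lit 98342) (nat_lit 20) (.e (nat_lit 221214) (nat_lit 23) (.e (nat_lit 204829) (nat_lit 18) .nil)))) (.g (nat_lit 0) (.e (nat_lit 368602) (nat_lit 0) .nil) .nil))))) (.nd (nat_lit 8) (.nd (nat_lit 9) 
(.lf (nat_lit 576718) (.g (nat_lit 2814) (.e (nat_lit 335986) (nat_lit 1) (.e (nat_lit 57692) (nat_lit 156) (.e (nat_lit 163939) (nat_lit 18) (.e (nat_lit 475177) (nat_lit 24) (.e (nat_lit 516176) (nat_lit 14) (.e (nat_lit 466954) (nat_lit 11) .nil)))))) (.g (nat_lit 1) (.e (nat_lit 367212) (nat_lit 0) .nil) .nil))) 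
(.lf (nat_lit 577230) (.g (nat_lit 4009) (.e (nat_lit 336019) (nat_lit 3) (.e (nat_lit 98341) (nat_lit 20) (.e (nat_lit 221214) (nat_lit 23) (.e (nat_lit 204829) (nat_lit 18) (.e (nat_lit 57931) (nat_lit 282) (.e (nat_lit 163874) (nat_lit 3) (.e (nat_lit 204854) (nat_lit 26) .nil))))))) (.g (nat_lit 1) (.e (nat_lit 368413) (nat_lit 0) .nil) .nil)))) (.nd (nat_lit 9) 
(.lf (nat_lit 576974) (.g (nat_lit 2472) (.e (nat_lit 335996) (nat_lit 1) (.e (nat_lit 57692) (nat_lit 156) (.e (nat_lit 163905) (nat_lit 12) (.e (nat_lit 426436) (nat_lit 18) (.e (nat_lit 98371) (nat_lit 28) (.e (nat_lit 442385) (nat_lit 11) .nil)))))) (.g (nat_lit 1) (.e (nat_lit 367851) (nat_lit 0) .nil) .nil))) 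
(.lf (nat_lit 577486) (.g (nat_lit 1635) (.e (nat_lit 336025) (nat_lit 3) (.e (nat_lit 98349) (nat_lit 24) (.e (nat_lit 409645) (nat_lit 18) (.e (nat_lit 303119) (nat_lit 3) .nil)))) (.g (nat_lit 0) (.e (nat_lit 368815) (nat_lit 0) .nil) .nil))))))) (.nd (nat_lit 6) (.nd (nat_lit 7) (.nd (nat_lit 8) (.nd (nat_lit 9) 
(.lf (nat_lit 576558) (.g (nat_lit 1897) (.e (nat_lit 327700) (nat_lit 8) (.e (nat_lit 303124) (nat_lit 7) (.e (nat_lit 409649) (nat_lit 18) (.e (nat_lit 303140) (nat_lit 10) (.e (nat_lit 434275) (nat_lit 39) .nil))))) (.g (nat_lit 0) (.e (nat_lit 366189) (nat_lit 0) .nil) .nil))) 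
(.lf (nat_lit 577070) (.g (nat_lit 3396) (.e (nat_lit 336004) (nat_lit 2) (.e (nat_lit 90160) (nat_lit 11) (.e (nat_lit 24604) (nat_lit 2) (.e (nat_lit 90158) (nat_lit 11) (.e (nat_lit 24608) (nat_lit 3) (.e (nat_lit 98317) (nat_lit 9) .nil)))))) (.g (nat_lit 1) (.e (nat_lit 368167) (nat_lit 0) .nil) .nil)))) (.nd (nat_lit 9) 
(.lf (nat_lit 576814) (.g (nat_lit 1124) (.e (nat_lit 335987) (nat_lit 1) (.e (nat_lit 57927) (nat_lit 282) (.e (nat_lit 163869) (nat_lit 2) (.e (nat_lit 196681) (nat_lit 17) .nil)))) (.g (nat_lit 0) (.e (nat_lit 367424) (nat_lit 0) .nil) .nil))) 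
(.lf (nat_lit 577326) (.g (nat_lit 5501) (.e (nat_lit 336019) (nat_lit 3) (.e (nat_lit 98373) (nat_lit 29) (.e (nat_lit 450588) (nat_lit 10) (.e (nat_lit 573473) (nat_lit 12) (.e (nat_lit 57348) (nat_lit 0) (.e (nat_lit 7266) (nat_lit 384) (.e (nat_lit 57409) (nat_lit 12) .nil))))))) (.g (nat_lit 1) (.e (nat_lit 368536) (nat_lit 0) .nil) .nil))))) (.nd (nat_lit 8) (.nd (nat_lit 9) 
(.lf (nat_lit 576686) (.g (nat_lit 1713) (.e (nat_lit 335985) (nat_lit 1) (.e (nat_lit 57688) (nat_lit 156) (.e (nat_lit 163903) (nat_lit 12) (.e (nat_lit 426438) (nat_lit 18) .nil)))) (.g (nat_lit 0) (.e (nat_lit 367151) (nat_lit 0) .nil) .nil))) 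
(.lf (nat_lit 577198) (.g (nat_lit 2952) (.e (nat_lit 336018) (nat_lit 3) (.e (nat_lit 98350) (nat_lit 24) (.e (nat_lit 409649) (nat_lit 18) (.e (nat_lit 303117) (nat_lit 2) (.e (nat_lit 196681) (nat_lit 17) (.e (nat_lit 131109) (nat_lit 9) .nil)))))) (.g (nat_lit 1) (.e (nat_lit 368369) (nat_lit 0) .nil) .nil)))) (.nd (nat_lit 9) 
(.lf (nat_lit 576942) (.g (nat_lit 2145) (.e (nat_lit 335995) (nat_lit 1) (.e (nat_lit 57688) (nat_lit 156) (.e (nat_lit 163903) (nat_lit 12) (.e (nat_lit 426436) (nat_lit 18) (.e (nat_lit 98371) (nat_lit 28) .nil))))) (.g (nat_lit 0) (.e (nat_lit 367785) (nat_lit 0) .nil) .nil))) 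
(.lf (nat_lit 577454) (.g (nat_lit 1877) (.e (nat_lit 336024) (nat_lit 3) (.e (nat_lit 98350) (nat_lit 24) (.e (nat_lit 409616) (nat_lit 10) (.e (nat_lit 5763) (nat_lit 315) .nil)))) (.g (nat_lit 0) (.e (nat_lit 368768) (nat_lit 0) .nil) .nil)))))) (.nd (nat_lit 7) (.nd (nat_lit 8) (.nd (nat_lit 9) 
(.lf (nat_lit 576622) (.g (nat_lit 1978) (.e (nat_lit 335876) (nat_lit 0) (.e (nat_lit 6713) (nat_lit 360) (.e (nat_lit 163962) (nat_lit 25) (.e (nat_lit 532550) (nat_lit 12) (.e (nat_lit 360474) (nat_lit 8) (.e (nat_lit 557073) (nat_lit 9) (.e (nat_lit 7936) (nat_lit 21) .nil))))))) (.g (nat_lit 1) (.e (nat_lit 366627) (nat_lit 0) .nil) .nil))) 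
(.lf (nat_lit 577134) (.g (nat_lit 3999) (.e (nat_lit 336013) (nat_lit 2) (.e (nat_lit 90134) (nat_lit 9) (.e (nat_lit 3025) (nat_lit 187) (.e (nat_lit 450588) (nat_lit 10) (.e (nat_lit 573475) (nat_lit 12) (.e (nat_lit 57574) (nat_lit 55) (.e (nat_lit 778361) (nat_lit 9) (.e (nat_lit 232) (nat_lit 21) .nil)))))))) (.g (nat_lit 1) (.e (nat_lit 368261) (nat_lit 0) .nil) .nil)))) (.nd (nat_lit 9) 
(.lf (nat_lit 576878) (.g (nat_lit 2795) (.e (nat_lit 335988) (nat_lit 1) (.e (nat_lit 57927) (nat_lit 282) (.e (nat_lit 163874) (nat_lit 3) (.e (nat_lit 204865) (nat_lit 28) (.e (nat_lit 352277) (nat_lit 11) (.e (nat_lit 426500) (nat_lit 27) .nil)))))) (.g (nat_lit 1) (.e (nat_lit 367602) (nat_lit 0) .nil) .nil))) 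
(.lf (nat_lit 577390) (.g (nat_lit 3761) (.e (nat_lit 336020) (nat_lit 3) (.e (nat_lit 98384) (nat_lit 32) (.e (nat_lit 475199) (nat_lit 40) (.e (nat_lit 704589) (nat_lit 3) (.e (nat_lit 163975) (nat_lit 30) .nil))))) (.g (nat_lit 0) (.e (nat_lit 368642) (nat_lit 0) .nil) .nil))))) (.nd (nat_lit 8) (.nd (nat_lit 9) 
(.lf (nat_lit 576750) (.g (nat_lit 2664) (.e (nat_lit 335986) (nat_lit 1) (.e (nat_lit 57849) (nat_lit 252) (.e (nat_lit 57375) (nat_lit 2) (.e (nat_lit 90158) (nat_lit 11) (.e (nat_lit 24628) (nat_lit 9) (.e (nat_lit 336370) (nat_lit 27) (.e (nat_lit 426501) (nat_lit 27) .nil))))))) (.g (nat_lit 1) (.e (nat_lit 367259) (nat_lit 0) .nil) .nil))) 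
(.lf (nat_lit 577262) (.g (nat_lit 2851) (.e (nat_lit 336019) (nat_lit 3) (.e (nat_lit 98342) (nat_lit 20) (.e (nat_lit 221215) (nat_lit 23) (.e (nat_lit 204830) (nat_lit 18) (.e (nat_lit 57930) (nat_lit 282) (.e (nat_lit 163873) (nat_lit 3) (.e (nat_lit 204853) (nat_lit 26) .nil))))))) (.g (nat_lit 1) (.e (nat_lit 368455) (nat_lit 0) .nil) .nil)))) (.nd (nat_lit 9) 
(.lf (nat_lit 577006) (.g (nat_lit 1507) (.e (nat_lit 335997) (nat_lit 1) (.e (nat_lit 57857) (nat_lit 254) (.e (nat_lit 163908) (nat_lit 12) (.e (nat_lit 426022) (nat_lit 0) (.e (nat_lit 7107) (nat_lit 380) (.e (nat_lit 164281) (nat_lit 222) (.e (nat_lit 57884) (nat_lit 270) (.e (nat_lit 1463) (nat_lit 108) .nil)))))))) (.g (nat_lit 1) (.e (nat_lit 367946) (nat_lit 0) .nil) .nil))) 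
(.lf (nat_lit 577518) (.g (nat_lit 1906) (.e (nat_lit 336026) (nat_lit 3) (.e (nat_lit 98333) (nat_lit 18) (.e (nat_lit 164183) (nat_lit 154) (.e (nat_lit 57378) (nat_lit 3) .nil)))) (.g (nat_lit 0) (.e (nat_lit 368866) (nat_lit 0) .nil) .nil)))))))) (.nd (nat_lit 5) (.nd (nat_lit 6) (.nd (nat_lit 7) (.nd (nat_lit 8) (.nd (nat_lit 9) 
(.lf (nat_lit 576542) (.g (nat_lit 6172) (.e (nat_lit 327699) (nat_lit 8) (.e (nat_lit 303119) (nat_lit 3) (.e (nat_lit 204869) (nat_lit 29) (.e (nat_lit 360475) (nat_lit 8) (.e (nat_lit 557068) (nat_lit 9) .nil))))) (.g (nat_lit 0) (.e (nat_lit 366088) (nat_lit 0) .nil) .nil))) 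
(.lf (nat_lit 577054) (.g (nat_lit 3119) (.e (nat_lit 336001) (nat_lit 2) (.e (nat_lit 90170) (nat_lit 13) (.e (nat_lit 172113) (nat_lit 10) (.e (nat_lit 434248) (nat_lit 28) (.e (nat_lit 573475) (nat_lit 12) (.e (nat_lit 57344) (nat_lit 0) (.e (nat_lit 7263) (nat_lit 384) (.e (nat_lit 57412) (nat_lit 12) .nil)))))))) (.g (nat_lit 1) (.e (nat_lit 368114) (nat_lit 0) .nil) .nil)))) 
(.nd (nat_lit 9) 
(.lf (nat_lit 576798) (.g (nat_lit 1831) (.e (nat_lit 335987) (nat_lit 1) (.e (nat_lit 57692) (nat_lit 156) (.e (nat_lit 163905) (nat_lit 12) (.e (nat_lit 426438) (nat_lit 18) (.e (nat_lit 98370) (nat_lit 28) (.e (nat_lit 442388) (nat_lit 11) .nil)))))) (.g (nat_lit 1) (.e (nat_lit 367359) (nat_lit 0) .nil) .nil))) 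
(.lf (nat_lit 577310) (.g (nat_lit 4392) (.e (nat_lit 336019) (nat_lit 3) (.e (nat_lit 98372) (nat_lit 29) (.e (nat_lit 450588) (nat_lit 10) (.e (nat_lit 573473) (nat_lit 12) (.e (nat_lit 57347) (nat_lit 0) (.e (nat_lit 7265) (nat_lit 384) (.e (nat_lit 57406) (nat_lit 12) .nil))))))) (.g (nat_lit 1) (.e (nat_lit 368520) (nat_lit 0) .nil) .nil))))) (.nd (nat_lit 8) (.nd (nat_lit 9) 
(.lf (nat_lit 576670) (.g (nat_lit 1556) (.e (nat_lit 335923) (nat_lit 0) (.e (nat_lit 1788) (nat_lit 119) (.e (nat_lit 516166) (nat_lit 12) (.e (nat_lit 450587) (nat_lit 10) .nil)))) (.g (nat_lit 0) (.e (nat_lit 367082) (nat_lit 0) .nil) .nil))) 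
(.lf (nat_lit 577182) (.g (nat_lit 2693) (.e (nat_lit 336017) (nat_lit 3) (.e (nat_lit 98342) (nat_lit 20) (.e (nat_lit 221215) (nat_lit 23) (.e (nat_lit 204830) (nat_lit 18) (.e (nat_lit 57927) (nat_lit 282) (.e (nat_lit 163875) (nat_lit 3) (.e (nat_lit 204859) (nat_lit 26) .nil))))))) (.g (nat_lit 1) (.e (nat_lit 368349) (nat_lit 0) .nil) .nil)))) (.nd (nat_lit 9) 
(.lf (nat_lit 576926) (.g (nat_lit 2383) (.e (nat_lit 335994) (nat_lit 1) (.e (nat_lit 57848) (nat_lit 252) (.e (nat_lit 57374) (nat_lit 2) (.e (nat_lit 90157) (nat_lit 11) (.e (nat_lit 24655) (nat_lit 13) (.e (nat_lit 393229) (nat_lit 9) .nil)))))) (.g (nat_lit 1) (.e (nat_lit 367759) (nat_lit 0) .nil) .nil))) 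
(.lf (nat_lit 577438) (.g (nat_lit 5656) (.e (nat_lit 336023) (nat_lit 3) (.e (nat_lit 98373) (nat_lit 29) (.e (nat_lit 450588) (nat_lit 10) (.e (nat_lit 573475) (nat_lit 12) (.e (nat_lit 57354) (nat_lit 0) (.e (nat_lit 7270) (nat_lit 385) (.e (nat_lit 122906) (nat_lit 12) .nil))))))) (.g (nat_lit 1) (.e (nat_lit 368745) (nat_lit 0) .nil) .nil)))))) 
(.nd (nat_lit 7) (.nd (nat_lit 8) (.nd (nat_lit 9) 
(.lf (nat_lit 576606) (.g (nat_lit 3041) (.e (nat_lit 335874) (nat_lit 0) (.e (nat_lit 6713) (nat_lit 360) (.e (nat_lit 163962) (nat_lit 25) (.e (nat_lit 532535) (nat_lit 9) (.e (nat_lit 336058) (nat_lit 7) (.e (nat_lit 319519) (nat_lit 12) (.e (nat_lit 32773) (nat_lit 5) (.e (nat_lit 1512) (nat_lit 108) .nil)))))))) (.g (nat_lit 1) (.e (nat_lit 366530) (nat_lit 0) .nil) .nil))) 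
(.lf (nat_lit 577118) (.g (nat_lit 2708) (.e (nat_lit 336011) (nat_lit 2) (.e (nat_lit 90170) (nat_lit 13) (.e (nat_lit 172106) (nat_lit 10) (.e (nat_lit 434244) (nat_lit 28) (.e (nat_lit 573474) (nat_lit 12) (.e (nat_lit 57347) (nat_lit 0) (.e (nat_lit 7266) (nat_lit 384) (.e (nat_lit 57419) (nat_lit 12) .nil)))))))) (.g (nat_lit 1) (.e (nat_lit 368227) (nat_lit 0) .nil) .nil)))) 
(.nd (nat_lit 9) 
(.lf (nat_lit 576862) (.g (nat_lit 2163) (.e (nat_lit 335988) (nat_lit 1) (.e (nat_lit 57926) (nat_lit 282) (.e (nat_lit 163946) (nat_lit 20) (.e (nat_lit 491566) (nat_lit 12) (.e (nat_lit 385092) (nat_lit 49) (.e (nat_lit 778331) (nat_lit 8) (.e (nat_lit 131116) (nat_lit 9) .nil))))))) (.g (nat_lit 1) (.e (nat_lit 367577) (nat_lit 0) .nil) .nil))) 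
(.lf (nat_lit 577374) (.g (nat_lit 3431) (.e (nat_lit 336020) (nat_lit 3) (.e (nat_lit 98350) (nat_lit 24) (.e (nat_lit 409646) (nat_lit 18) (.e (nat_lit 303117) (nat_lit 2) (.e (nat_lit 196666) (nat_lit 13) .nil))))) (.g (nat_lit 0) (.e (nat_lit 368624) (nat_lit 0) .nil) .nil))))) (.nd (nat_lit 8) (.nd (nat_lit 9) 
(.lf (nat_lit 576734) (.g (nat_lit 2635) (.e (nat_lit 335986) (nat_lit 1) (.e (nat_lit 57847) (nat_lit 252) (.e (nat_lit 57375) (nat_lit 2) (.e (nat_lit 90160) (nat_lit 11) (.e (nat_lit 24624) (nat_lit 9) (.e (nat_lit 336377) (nat_lit 27) (.e (nat_lit 426525) (nat_lit 27) .nil))))))) (.g (nat_lit 1) (.e (nat_lit 367238) (nat_lit 0) .nil) .nil))) 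
(.lf (nat_lit 577246) (.g (nat_lit 3588) (.e (nat_lit 336019) (nat_lit 3) (.e (nat_lit 98342) (nat_lit 20) (.e (nat_lit 221214) (nat_lit 23) (.e (nat_lit 204829) (nat_lit 18) (.e (nat_lit 57926) (nat_lit 282) (.e (nat_lit 163874) (nat_lit 3) (.e (nat_lit 204854) (nat_lit 26) .nil))))))) (.g (nat_lit 1) (.e (nat_lit 368432) (nat_lit 0) .nil) .nil)))) (.nd (nat_lit 9) 
(.lf (nat_lit 576990) (.g (nat_lit 1261) (.e (nat_lit 335996) (nat_lit 1) (.e (nat_lit 57931) (nat_lit 282) (.e (nat_lit 163867) (nat_lit 2) (.e (nat_lit 196682) (nat_lit 17) .nil)))) (.g (nat_lit 0) (.e (nat_lit 367900) (nat_lit 0) .nil) .nil))) 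
(.lf (nat_lit 577502) (.g (nat_lit 1611) (.e (nat_lit 336025) (nat_lit 3) (.e (nat_lit 98350) (nat_lit 24) (.e (nat_lit 409649) (nat_lit 18) (.e (nat_lit 303111) (nat_lit 0) .nil)))) (.g (nat_lit 0) (.e (nat_lit 368837) (nat_lit 0) .nil) .nil))))))) (.nd (nat_lit 6) (.nd (nat_lit 7) (.nd (nat_lit 8) (.nd (nat_lit 9) 
(.lf (nat_lit 576574) (.g (nat_lit 1138) (.e (nat_lit 327697) (nat_lit 7) (.e (nat_lit 294931) (nat_lit 3) (.e (nat_lit 98350) (nat_lit 24) (.e (nat_lit 409616) (nat_lit 10) .nil)))) (.g (nat_lit 0) (.e (nat_lit 366329) (nat_lit 0) .nil) .nil))) 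
(.lf (nat_lit 577086) (.g (nat_lit 3310) (.e (nat_lit 336008) (nat_lit 2) (.e (nat_lit 90170) (nat_lit 13) (.e (nat_lit 172113) (nat_lit 10) (.e (nat_lit 434242) (nat_lit 28) (.e (nat_lit 573474) (nat_lit 12) (.e (nat_lit 57347) (nat_lit 0) (.e (nat_lit 7265) (nat_lit 384) (.e (nat_lit 57412) (nat_lit 12) .nil)))))))) (.g (nat_lit 1) (.e (nat_lit 368193) (nat_lit 0) .nil) .nil)))) 
(.nd (nat_lit 9) 
(.lf (nat_lit 576830) (.g (nat_lit 2172) (.e (nat_lit 335987) (nat_lit 1) (.e (nat_lit 57927) (nat_lit 282) (.e (nat_lit 163907) (nat_lit 12) (.e (nat_lit 426555) (nat_lit 32) (.e (nat_lit 376869) (nat_lit 23) (.e (nat_lit 98316) (nat_lit 9) .nil)))))) (.g (nat_lit 1) (.e (nat_lit 367441) (nat_lit 0) .nil) .nil))) 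
(.lf (nat_lit 577342) (.g (nat_lit 855) (.e (nat_lit 336020) (nat_lit 3) (.e (nat_lit 98333) (nat_lit 18) (.e (nat_lit 164179) (nat_lit 154) .nil))) (.g (nat_lit 0) (.e (nat_lit 368569) (nat_lit 0) .nil) .nil))))) (.nd (nat_lit 8) (.nd (nat_lit 9) 
(.lf (nat_lit 576702) (.g (nat_lit 3294) (.e (nat_lit 335986) (nat_lit 1) (.e (nat_lit 57688) (nat_lit 156) (.e (nat_lit 163936) (nat_lit 18) (.e (nat_lit 475179) (nat_lit 24) (.e (nat_lit 516176) (nat_lit 14) (.e (nat_lit 466954) (nat_lit 11) .nil)))))) (.g (nat_lit 1) (.e (nat_lit 367196) (nat_lit 0) .nil) .nil))) 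
(.lf (nat_lit 577214) (.g (nat_lit 2073) (.e (nat_lit 336019) (nat_lit 3) (.e (nat_lit 98333) (nat_lit 18) (.e (nat_lit 164177) (nat_lit 154) (.e (nat_lit 57407) (nat_lit 12) (.e (nat_lit 336454) (nat_lit 34) .nil))))) (.g (nat_lit 0) (.e (nat_lit 368396) (nat_lit 0) .nil) .nil)))) (.nd (nat_lit 9) 
(.lf (nat_lit 576958) (.g (nat_lit 2661) (.e (nat_lit 335995) (nat_lit 1) (.e (nat_lit 57929) (nat_lit 282) (.e (nat_lit 163873) (nat_lit 3) (.e (nat_lit 204865) (nat_lit 28) (.e (nat_lit 352277) (nat_lit 11) (.e (nat_lit 426500) (nat_lit 27) .nil)))))) (.g (nat_lit 1) (.e (nat_lit 367817) (nat_lit 0) .nil) .nil))) 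
(.lf (nat_lit 577470) (.g (nat_lit 2532) (.e (nat_lit 336025) (nat_lit 3) (.e (nat_lit 98333) (nat_lit 18) (.e (nat_lit 164182) (nat_lit 154) (.e (nat_lit 57378) (nat_lit 3) (.e (nat_lit 98342) (nat_lit 20) .nil))))) (.g (nat_lit 0) (.e (nat_lit 368791) (nat_lit 0) .nil) .nil)))))) (.nd (nat_lit 7) (.nd (nat_lit 8) (.nd (nat_lit 9) 
(.lf (nat_lit 576638) (.g (nat_lit 973) (.e (nat_lit 335894) (nat_lit 0) (.e (nat_lit 6722) (nat_lit 362) (.e (nat_lit 180269) (nat_lit 25) (.e (nat_lit 696343) (nat_lit 8) (.e (nat_lit 172092) (nat_lit 9) .nil))))) (.g (nat_lit 0) (.e (nat_lit 366922) (nat_lit 0) .nil) .nil))) 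
(.lf (nat_lit 577150) (.g (nat_lit 3762) (.e (nat_lit 336013) (nat_lit 2) (.e (nat_lit 90170) (nat_lit 13) (.e (nat_lit 172061) (nat_lit 1) (.e (nat_lit 164345) (nat_lit 240) (.e (nat_lit 2600) (nat_lit 163) (.e (nat_lit 163977) (nat_lit 30) (.e (nat_lit 573485) (nat_lit 13) (.e (nat_lit 65604) (nat_lit 9) .nil)))))))) (.g (nat_lit 1) (.e (nat_lit 368291) (nat_lit 0) .nil) .nil)))) 
(.nd (nat_lit 9) 
(.lf (nat_lit 576894) (.g (nat_lit 3429) (.e (nat_lit 335988) (nat_lit 1) (.e (nat_lit 57927) (nat_lit 282) (.e (nat_lit 163943) (nat_lit 19) (.e (nat_lit 483393) (nat_lit 23) (.e (nat_lit 336021) (nat_lit 3) (.e (nat_lit 98317) (nat_lit 9) .nil)))))) (.g (nat_lit 1) (.e (nat_lit 367637) (nat_lit 0) .nil) .nil))) 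
(.lf (nat_lit 577406) (.g (nat_lit 1870) (.e (nat_lit 336022) (nat_lit 3) (.e (nat_lit 98350) (nat_lit 24) (.e (nat_lit 409649) (nat_lit 18) (.e (nat_lit 303117) (nat_lit 2) .nil)))) (.g (nat_lit 0) (.e (nat_lit 368706) (nat_lit 0) .nil) .nil))))) (.nd (nat_lit 8) (.nd (nat_lit 9) 
(.lf (nat_lit 576766) (.g (nat_lit 353) (.e (nat_lit 335986) (nat_lit 1) (.e (nat_lit 57927) (nat_lit 282) (.e (nat_lit 163868) (nat_lit 2) .nil))) (.g (nat_lit 0) (.e (nat_lit 367304) (nat_lit 0) .nil) .nil))) 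
(.lf (nat_lit 577278) (.g (nat_lit 1646) (.e (nat_lit 336019) (nat_lit 3) (.e (nat_lit 98350) (nat_lit 24) (.e (nat_lit 409645) (nat_lit 18) (.e (nat_lit 303112) (nat_lit 0) .nil)))) (.g (nat_lit 0) (.e (nat_lit 368477) (nat_lit 0) .nil) .nil)))) (.nd (nat_lit 9) 
(.lf (nat_lit 577022) (.g (nat_lit 3272) (.e (nat_lit 336001) (nat_lit 2) (.e (nat_lit 90170) (nat_lit 13) (.e (nat_lit 172106) (nat_lit 10) (.e (nat_lit 434244) (nat_lit 28) (.e (nat_lit 573473) (nat_lit 12) (.e (nat_lit 57353) (nat_lit 0) (.e (nat_lit 7263) (nat_lit 384) (.e (nat_lit 57412) (nat_lit 12) .nil)))))))) (.g (nat_lit 1) (.e (nat_lit 368082) (nat_lit 0) .nil) .nil))) 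
(.lf (nat_lit 577534) (.g (nat_lit 1733) (.e (nat_lit 336026) (nat_lit 3) (.e (nat_lit 98349) (nat_lit 24) (.e (nat_lit 409645) (nat_lit 18) (.e (nat_lit 303119) (nat_lit 3) .nil)))) (.g (nat_lit 0) (.e (nat_lit 368906) (nat_lit 0) .nil) .nil)))))))))))) 
(.nd (nat_lit 1) (.nd (nat_lit 2) (.nd (nat_lit 3) (.nd (nat_lit 4) (.nd (nat_lit 5) 
(.nd (nat_lit 6) (.nd (nat_lit 7) (.nd (nat_lit 8) (.nd (nat_lit 9) 
(.lf (nat_lit 576513) (.g (nat_lit 1187) (.e (nat_lit 327699) (nat_lit 8) (.e (nat_lit 303118) (nat_lit 3) (.e (nat_lit 204845) (nat_lit 24) (.e (nat_lit 327424) (nat_lit 8) .nil)))) (.g (nat_lit 0) (.e (nat_lit 366043) (nat_lit 0) .nil) .nil))) 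
(.lf (nat_lit 577025) (.g (nat_lit 2697) (.e (nat_lit 336001) (nat_lit 2) (.e (nat_lit 90170) (nat_lit 13) (.e (nat_lit 172106) (nat_lit 10) (.e (nat_lit 434244) (nat_lit 28) (.e (nat_lit 573474) (nat_lit 12) (.e (nat_lit 57344) (nat_lit 0) (.e (nat_lit 7261) (nat_lit 384) (.e (nat_lit 57412) (nat_lit 12) .nil)))))))) (.g (nat_lit 1) (.e (nat_lit 368085) (nat_lit 0) .nil) .nil)))) 
(.nd (nat_lit 9) 
(.lf (nat_lit 576769) (.g (nat_lit 2181) (.e (nat_lit 335986) (nat_lit 1) (.e (nat_lit 57927) (nat_lit 282) (.e (nat_lit 163869) (nat_lit 2) (.e (nat_lit 196672) (nat_lit 15) (.e (nat_lit 81925) (nat_lit 11) (.e (nat_lit 426500) (nat_lit 27) .nil)))))) (.g (nat_lit 1) (.e (nat_lit 367310) (nat_lit 0) .nil) .nil))) 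
(.lf (nat_lit 577281) (.g (nat_lit 3652) (.e (nat_lit 336019) (nat_lit 3) (.e (nat_lit 98350) (nat_lit 24) (.e (nat_lit 409646) (nat_lit 18) (.e (nat_lit 303117) (nat_lit 2) (.e (nat_lit 196681) (nat_lit 17) (.e (nat_lit 131105) (nat_lit 9) .nil)))))) (.g (nat_lit 1) (.e (nat_lit 368480) (nat_lit 0) .nil) .nil))))) (.nd (nat_lit 8) (.nd (nat_lit 9) 
(.lf (nat_lit 576641) (.g (nat_lit 1788) (.e (nat_lit 335894) (nat_lit 0) (.e (nat_lit 6724) (nat_lit 362) (.e (nat_lit 180225) (nat_lit 0) (.e (nat_lit 6416) (nat_lit 341) (.e (nat_lit 163843) (nat_lit 0) (.e (nat_lit 7936) (nat_lit 392) (.e (nat_lit 172150) (nat_lit 27) .nil))))))) (.g (nat_lit 1) (.e (nat_lit 366929) (nat_lit 0) .nil) .nil))) 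
(.lf (nat_lit 577153) (.g (nat_lit 5148) (.e (nat_lit 336013) (nat_lit 2) (.e (nat_lit 90170) (nat_lit 13) (.e (nat_lit 172070) (nat_lit 4) (.e (nat_lit 229666) (nat_lit 240) (.e (nat_lit 2612) (nat_lit 163) (.e (nat_lit 163978) (nat_lit 30) (.e (nat_lit 573485) (nat_lit 13) (.e (nat_lit 65604) (nat_lit 9) .nil)))))))) (.g (nat_lit 1) (.e (nat_lit 368294) (nat_lit 0) .nil) .nil)))) 
(.nd (nat_lit 9) 
(.lf (nat_lit 576897) (.g (nat_lit 2921) (.e (nat_lit 335988) (nat_lit 1) (.e (nat_lit 57931) (nat_lit 282) (.e (nat_lit 163869) (nat_lit 2) (.e (nat_lit 196666) (nat_lit 13) (.e (nat_lit 65626) (nat_lit 13) .nil))))) (.g (nat_lit 0) (.e (nat_lit 367647) (nat_lit 0) .nil) .nil))) 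
(.lf (nat_lit 577409) (.g (nat_lit 1244) (.e (nat_lit 336022) (nat_lit 3) (.e (nat_lit 98367) (nat_lit 27) (.e (nat_lit 434272) (nat_lit 38) .nil))) (.g (nat_lit 0) (.e (nat_lit 368710) (nat_lit 0) .nil) .nil)))))) (.nd (nat_lit 7) (.nd (nat_lit 8) (.nd (nat_lit 9) 
(.lf (nat_lit 576577) (.g (nat_lit 4170) (.e (nat_lit 327715) (nat_lit 16) (.e (nat_lit 286733) (nat_lit 2) (.e (nat_lit 90170) (nat_lit 13) (.e (nat_lit 172106) (nat_lit 10) (.e (nat_lit 434231) (nat_lit 23) (.e (nat_lit 532525) (nat_lit 8) .nil)))))) (.g (nat_lit 1) (.e (nat_lit 366385) (nat_lit 0) .nil) .nil))) 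
(.lf (nat_lit 577089) (.g (nat_lit 2687) (.e (nat_lit 336008) (nat_lit 2) (.e (nat_lit 90170) (nat_lit 13) (.e (nat_lit 172113) (nat_lit 10) (.e (nat_lit 434245) (nat_lit 28) (.e (nat_lit 573473) (nat_lit 12) (.e (nat_lit 57353) (nat_lit 0) (.e (nat_lit 7265) (nat_lit 384) (.e (nat_lit 57412) (nat_lit 12) .nil)))))))) (.g (nat_lit 1) (.e (nat_lit 368196) (nat_lit 0) .nil) .nil)))) 
(.nd (nat_lit 9) 
(.lf (nat_lit 576833) (.g (nat_lit 504) (.e (nat_lit 335987) (nat_lit 1) (.e (nat_lit 57931) (nat_lit 282) (.e (nat_lit 163943) (nat_lit 19) .nil))) (.g (nat_lit 0) (.e (nat_lit 367453) (nat_lit 0) .nil) .nil))) 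
(.lf (nat_lit 577345) (.g (nat_lit 943) (.e (nat_lit 336020) (nat_lit 3) (.e (nat_lit 98333) (nat_lit 18) (.e (nat_lit 164183) (nat_lit 154) .nil))) (.g (nat_lit 0) (.e (nat_lit 368573) (nat_lit 0) .nil) .nil))))) (.nd (nat_lit 8) (.nd (nat_lit 9) 
(.lf (nat_lit 576705) (.g (nat_lit 3235) (.e (nat_lit 335986) (nat_lit 1) (.e (nat_lit 57691) (nat_lit 156) (.e (nat_lit 163907) (nat_lit 12) (.e (nat_lit 426428) (nat_lit 17) (.e (nat_lit 90176) (nat_lit 15) (.e (nat_lit 188423) (nat_lit 11) .nil)))))) (.g (nat_lit 1) (.e (nat_lit 367199) (nat_lit 0) .nil) .nil))) 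
(.lf (nat_lit 577217) (.g (nat_lit 2171) (.e (nat_lit 336019) (nat_lit 3) (.e (nat_lit 98333) (nat_lit 18) (.e (nat_lit 164183) (nat_lit 154) (.e (nat_lit 57411) (nat_lit 12) (.e (nat_lit 336368) (nat_lit 27) .nil))))) (.g (nat_lit 0) (.e (nat_lit 368399) (nat_lit 0) .nil) .nil)))) (.nd (nat_lit 9) 
(.lf (nat_lit 576961) (.g (nat_lit 2489) (.e (nat_lit 335995) (nat_lit 1) (.e (nat_lit 57930) (nat_lit 282) (.e (nat_lit 163867) (nat_lit 2) (.e (nat_lit 196672) (nat_lit 15) (.e (nat_lit 81925) (nat_lit 11) (.e (nat_lit 426500) (nat_lit 27) .nil)))))) (.g (nat_lit 1) (.e (nat_lit 367823) (nat_lit 0) .nil) .nil))) 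
(.lf (nat_lit 577473) (.g (nat_lit 1031) (.e (nat_lit 336025) (nat_lit 3) (.e (nat_lit 98333) (nat_lit 18) (.e (nat_lit 164183) (nat_lit 154) .nil))) (.g (nat_lit 0) (.e (nat_lit 368795) (nat_lit 0) .nil) .nil))))))) (.nd (nat_lit 6) (.nd (nat_lit 7) (.nd (nat_lit 8) (.nd (nat_lit 9) 
(.lf (nat_lit 576545) (.g (nat_lit 846) (.e (nat_lit 327700) (nat_lit 8) (.e (nat_lit 303117) (nat_lit 2) (.e (nat_lit 196670) (nat_lit 14) .nil))) (.g (nat_lit 0) (.e (nat_lit 366156) (nat_lit 0) .nil) .nil))) 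
(.lf (nat_lit 577057) (.g (nat_lit 2568) (.e (nat_lit 336001) (nat_lit 2) (.e (nat_lit 90170) (nat_lit 13) (.e (nat_lit 172113) (nat_lit 10) (.e (nat_lit 434248) (nat_lit 28) (.e (nat_lit 573475) (nat_lit 12) (.e (nat_lit 57347) (nat_lit 0) (.e (nat_lit 7266) (nat_lit 384) (.e (nat_lit 57412) (nat_lit 12) .nil)))))))) (.g (nat_lit 1) (.e (nat_lit 368117) (nat_lit 0) .nil) .nil)))) 
(.nd (nat_lit 9) 
(.lf (nat_lit 576801) (.g (nat_lit 2534) (.e (nat_lit 335987) (nat_lit 1) (.e (nat_lit 57852) (nat_lit 252) (.e (nat_lit 57388) (nat_lit 5) (.e (nat_lit 114698) (nat_lit 11) (.e (nat_lit 426326) (nat_lit 13) (.e (nat_lit 483393) (nat_lit 23) .nil)))))) (.g (nat_lit 1) (.e (nat_lit 367378) (nat_lit 0) .nil) .nil))) 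
(.lf (nat_lit 577313) (.g (nat_lit 2310) (.e (nat_lit 336019) (nat_lit 3) (.e (nat_lit 98372) (nat_lit 29) (.e (nat_lit 450588) (nat_lit 10) (.e (nat_lit 573475) (nat_lit 12) .nil)))) (.g (nat_lit 0) (.e (nat_lit 368523) (nat_lit 0) .nil) .nil))))) (.nd (nat_lit 8) (.nd (nat_lit 9) 
(.lf (nat_lit 576673) (.g (nat_lit 2429) (.e (nat_lit 335925) (nat_lit 0) (.e (nat_lit 1858) (nat_lit 124) (.e (nat_lit 557105) (nat_lit 14) (.e (nat_lit 180252) (nat_lit 10) (.e (nat_lit 573503) (nat_lit 18) .nil))))) (.g (nat_lit 0) (.e (nat_lit 367122) (nat_lit 0) .nil) .nil))) 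
(.lf (nat_lit 577185) (.g (nat_lit 1954) (.e (nat_lit 336017) (nat_lit 3) (.e (nat_lit 98358) (nat_lit 26) (.e (nat_lit 426320) (nat_lit 12) (.e (nat_lit 475179) (nat_lit 24) (.e (nat_lit 516131) (nat_lit 3) .nil))))) (.g (nat_lit 0) (.e (nat_lit 368352) (nat_lit 0) .nil) .nil)))) (.nd (nat_lit 9) 
(.lf (nat_lit 576929) (.g (nat_lit 1485) (.e (nat_lit 335994) (nat_lit 1) (.e (nat_lit 57931) (nat_lit 282) (.e (nat_lit 163943) (nat_lit 19) (.e (nat_lit 483394) (nat_lit 24) .nil)))) (.g (nat_lit 0) (.e (nat_lit 367770) (nat_lit 0) .nil) .nil))) 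
(.lf (nat_lit 577441) (.g (nat_lit 3248) (.e (nat_lit 336023) (nat_lit 3) (.e (nat_lit 98384) (nat_lit 32) (.e (nat_lit 475199) (nat_lit 40) (.e (nat_lit 704589) (nat_lit 3) (.e (nat_lit 163976) (nat_lit 30) .nil))))) (.g (nat_lit 0) (.e (nat_lit 368748) (nat_lit 0) .nil) .nil)))))) (.nd (nat_lit 7) (.nd (nat_lit 8) (.nd (nat_lit 9) 
(.lf (nat_lit 576609) (.g (nat_lit 2166) (.e (nat_lit 335874) (nat_lit 0) (.e (nat_lit 6713) (nat_lit 360) (.e (nat_lit 163962) (nat_lit 25) (.e (nat_lit 532550) (nat_lit 12) (.e (nat_lit 360474) (nat_lit 8) (.e (nat_lit 557073) (nat_lit 9) (.e (nat_lit 288) (nat_lit 21) .nil))))))) (.g (nat_lit 1) (.e (nat_lit 366539) (nat_lit 0) .nil) .nil))) 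
(.lf (nat_lit 577121) (.g (nat_lit 952) (.e (nat_lit 336012) (nat_lit 2) (.e (nat_lit 90160) (nat_lit 11) (.e (nat_lit 24593) (nat_lit 0) .nil))) (.g (nat_lit 0) (.e (nat_lit 368231) (nat_lit 0) .nil) .nil)))) (.nd (nat_lit 9) 
(.lf (nat_lit 576865) (.g (nat_lit 2447) (.e (nat_lit 335988) (nat_lit 1) (.e (nat_lit 57927) (nat_lit 282) (.e (nat_lit 163868) (nat_lit 2) (.e (nat_lit 196681) (nat_lit 17) (.e (nat_lit 131124) (nat_lit 13) (.e (nat_lit 393229) (nat_lit 9) .nil)))))) (.g (nat_lit 1) (.e (nat_lit 367585) (nat_lit 0) .nil) .nil))) 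
(.lf (nat_lit 577377) (.g (nat_lit 2727) (.e (nat_lit 336020) (nat_lit 3) (.e (nat_lit 98350) (nat_lit 24) (.e (nat_lit 409648) (nat_lit 18) (.e (nat_lit 303118) (nat_lit 3) (.e (nat_lit 204855) (nat_lit 26) .nil))))) (.g (nat_lit 0) (.e (nat_lit 368628) (nat_lit 0) .nil) .nil))))) (.nd (nat_lit 8) (.nd (nat_lit 9) 
(.lf (nat_lit 576737) (.g (nat_lit 1456) (.e (nat_lit 335986) (nat_lit 1) (.e (nat_lit 57847) (nat_lit 252) (.e (nat_lit 57389) (nat_lit 5) (.e (nat_lit 122624) (nat_lit 16) .nil)))) (.g (nat_lit 0) (.e (nat_lit 367245) (nat_lit 0) .nil) .nil))) 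
(.lf (nat_lit 577249) (.g (nat_lit 2704) (.e (nat_lit 336019) (nat_lit 3) (.e (nat_lit 98342) (nat_lit 20) (.e (nat_lit 221214) (nat_lit 23) (.e (nat_lit 204830) (nat_lit 18) (.e (nat_lit 57924) (nat_lit 282) (.e (nat_lit 163873) (nat_lit 3) (.e (nat_lit 204853) (nat_lit 26) .nil))))))) (.g (nat_lit 1) (.e (nat_lit 368438) (nat_lit 0) .nil) .nil)))) (.nd (nat_lit 9) 
(.lf (nat_lit 576993) (.g (nat_lit 2904) (.e (nat_lit 335996) (nat_lit 1) (.e (nat_lit 57931) (nat_lit 282) (.e (nat_lit 163874) (nat_lit 3) (.e (nat_lit 204852) (nat_lit 26) (.e (nat_lit 336211) (nat_lit 13) (.e (nat_lit 393225) (nat_lit 9) .nil)))))) (.g (nat_lit 1) (.e (nat_lit 367906) (nat_lit 0) .nil) .nil))) 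
(.lf (nat_lit 577505) (.g (nat_lit 3077) (.e (nat_lit 336025) (nat_lit 3) (.e (nat_lit 98350) (nat_lit 24) (.e (nat_lit 409649) (nat_lit 18) (.e (nat_lit 303118) (nat_lit 3) (.e (nat_lit 204852) (nat_lit 26) .nil))))) (.g (nat_lit 0) (.e (nat_lit 368840) (nat_lit 0) .nil) .nil)))))))) (.nd (nat_lit 5) (.nd (nat_lit 6) (.nd (nat_lit 7) (.nd (nat_lit 8) (.nd (nat_lit 9) 
(.lf (nat_lit 576529) (.g (nat_lit 2639) (.e (nat_lit 327699) (nat_lit 8) (.e (nat_lit 303119) (nat_lit 3) (.e (nat_lit 204846) (nat_lit 24) (.e (nat_lit 319490) (nat_lit 0) (.e (nat_lit 5626) (nat_lit 312) .nil))))) (.g (nat_lit 0) (.e (nat_lit 366067) (nat_lit 0) .nil) .nil))) 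
(.lf (nat_lit 577041) (.g (nat_lit 2005) (.e (nat_lit 336001) (nat_lit 2) (.e (nat_lit 90170) (nat_lit 13) (.e (nat_lit 172113) (nat_lit 10) (.e (nat_lit 434245) (nat_lit 28) (.e (nat_lit 573474) (nat_lit 12) .nil))))) (.g (nat_lit 0) (.e (nat_lit 368101) (nat_lit 0) .nil) .nil)))) (.nd (nat_lit 9) 
(.lf (nat_lit 576785) (.g (nat_lit 2611) (.e (nat_lit 335986) (nat_lit 1) (.e (nat_lit 57927) (nat_lit 282) (.e (nat_lit 163905) (nat_lit 12) (.e (nat_lit 426555) (nat_lit 32) (.e (nat_lit 376867) (nat_lit 23) (.e (nat_lit 98317) (nat_lit 9) .nil)))))) (.g (nat_lit 1) (.e (nat_lit 367326) (nat_lit 0) .nil) .nil))) 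
(.lf (nat_lit 577297) (.g (nat_lit 3644) (.e (nat_lit 336019) (nat_lit 3) (.e (nat_lit 98350) (nat_lit 24) (.e (nat_lit 409649) (nat_lit 18) (.e (nat_lit 303117) (nat_lit 2) (.e (nat_lit 196681) (nat_lit 17) (.e (nat_lit 131105) (nat_lit 9) .nil)))))) (.g (nat_lit 1) (.e (nat_lit 368498) (nat_lit 0) .nil) .nil))))) (.nd (nat_lit 8) (.nd (nat_lit 9) 
(.lf (nat_lit 576657) (.g (nat_lit 3420) (.e (nat_lit 335907) (nat_lit 0) (.e (nat_lit 2342) (nat_lit 151) (.e (nat_lit 778466) (nat_lit 11) (.e (nat_lit 24617) (nat_lit 7) (.e (nat_lit 319505) (nat_lit 10) (.e (nat_lit 720) (nat_lit 64) (.e (nat_lit 688177) (nat_lit 16) (.e (nat_lit 65604) (nat_lit 9) .nil)))))))) (.g (nat_lit 1) (.e (nat_lit 367056) (nat_lit 0) .nil) .nil))) 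
(.lf (nat_lit 577169) (.g (nat_lit 1935) (.e (nat_lit 343808) (nat_lit 2) (.e (nat_lit 90170) (nat_lit 13) (.e (nat_lit 172113) (nat_lit 10) (.e (nat_lit 434247) (nat_lit 28) (.e (nat_lit 573478) (nat_lit 12) .nil))))) (.g (nat_lit 0) (.e (nat_lit 368318) (nat_lit 0) .nil) .nil)))) (.nd (nat_lit 9) 
(.lf (nat_lit 576913) (.g (nat_lit 1773) (.e (nat_lit 335993) (nat_lit 1) (.e (nat_lit 57688) (nat_lit 156) (.e (nat_lit 163903) (nat_lit 12) (.e (nat_lit 426436) (nat_lit 18) (.e (nat_lit 98380) (nat_lit 31) .nil))))) (.g (nat_lit 0) (.e (nat_lit 367722) (nat_lit 0) .nil) .nil))) 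
(.lf (nat_lit 577425) (.g (nat_lit 2871) (.e (nat_lit 336023) (nat_lit 3) (.e (nat_lit 98350) (nat_lit 24) (.e (nat_lit 409648) (nat_lit 18) (.e (nat_lit 303118) (nat_lit 3) (.e (nat_lit 204855) (nat_lit 26) .nil))))) (.g (nat_lit 0) (.e (nat_lit 368730) (nat_lit 0) .nil) .nil)))))) (.nd (nat_lit 7) (.nd (nat_lit 8) (.nd (nat_lit 9) 
(.lf (nat_lit 576593) (.g (nat_lit 3065) (.e (nat_lit 335872) (nat_lit 0) (.e (nat_lit 6713) (nat_lit 360) (.e (nat_lit 163962) (nat_lit 25) (.e (nat_lit 532535) (nat_lit 9) (.e (nat_lit 336058) (nat_lit 7) (.e (nat_lit 319519) (nat_lit 12) (.e (nat_lit 32773) (nat_lit 5) (.e (nat_lit 1512) (nat_lit 108) .nil)))))))) (.g (nat_lit 1) (.e (nat_lit 366451) (nat_lit 0) .nil) .nil))) 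
(.lf (nat_lit 577105) (.g (nat_lit 2713) (.e (nat_lit 336008) (nat_lit 2) (.e (nat_lit 90170) (nat_lit 13) (.e (nat_lit 172113) (nat_lit 10) (.e (nat_lit 434248) (nat_lit 28) (.e (nat_lit 573475) (nat_lit 12) (.e (nat_lit 57348) (nat_lit 0) (.e (nat_lit 7263) (nat_lit 384) (.e (nat_lit 57412) (nat_lit 12) .nil)))))))) (.g (nat_lit 1) (.e (nat_lit 368212) (nat_lit 0) .nil) .nil)))) 
(.nd (nat_lit 9) 
(.lf (nat_lit 576849) (.g (nat_lit 3153) (.e (nat_lit 335988) (nat_lit 1) (.e (nat_lit 57926) (nat_lit 282) (.e (nat_lit 163870) (nat_lit 2) (.e (nat_lit 196666) (nat_lit 13) (.e (nat_lit 65625) (nat_lit 13) (.e (nat_lit 393229) (nat_lit 9) .nil)))))) (.g (nat_lit 1) (.e (nat_lit 367525) (nat_lit 0) .nil) .nil))) 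
(.lf (nat_lit 577361) (.g (nat_lit 1664) (.e (nat_lit 336020) (nat_lit 3) (.e (nat_lit 98349) (nat_lit 24) (.e (nat_lit 409645) (nat_lit 18) (.e (nat_lit 303119) (nat_lit 3) .nil)))) (.g (nat_lit 0) (.e (nat_lit 368608) (nat_lit 0) .nil) .nil))))) (.nd (nat_lit 8) (.nd (nat_lit 9) 
(.lf (nat_lit 576721) (.g (nat_lit 2635) (.e (nat_lit 335986) (nat_lit 1) (.e (nat_lit 57847) (nat_lit 252) (.e (nat_lit 57370) (nat_lit 2) (.e (nat_lit 90158) (nat_lit 11) (.e (nat_lit 24628) (nat_lit 9) (.e (nat_lit 336366) (nat_lit 27) (.e (nat_lit 426501) (nat_lit 27) .nil))))))) (.g (nat_lit 1) (.e (nat_lit 367225) (nat_lit 0) .nil) .nil))) 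
(.lf (nat_lit 577233) (.g (nat_lit 2708) (.e (nat_lit 336019) (nat_lit 3) (.e (nat_lit 98341) (nat_lit 20) (.e (nat_lit 221214) (nat_lit 23) (.e (nat_lit 204831) (nat_lit 18) (.e (nat_lit 57931) (nat_lit 282) (.e (nat_lit 163873) (nat_lit 3) (.e (nat_lit 204853) (nat_lit 26) .nil))))))) (.g (nat_lit 1) (.e (nat_lit 368417) (nat_lit 0) .nil) .nil)))) (.nd (nat_lit 9) 
(.lf (nat_lit 576977) (.g (nat_lit 2459) (.e (nat_lit 335996) (nat_lit 1) (.e (nat_lit 57692) (nat_lit 156) (.e (nat_lit 163907) (nat_lit 12) (.e (nat_lit 426436) (nat_lit 18) (.e (nat_lit 98371) (nat_lit 28) (.e (nat_lit 442385) (nat_lit 11) .nil)))))) (.g (nat_lit 1) (.e (nat_lit 367854) (nat_lit 0) .nil) .nil))) 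
(.lf (nat_lit 577489) (.g (nat_lit 1389) (.e (nat_lit 336025) (nat_lit 3) (.e (nat_lit 98350) (nat_lit 24) (.e (nat_lit 409643) (nat_lit 18) (.e (nat_lit 303117) (nat_lit 2) .nil)))) (.g (nat_lit 0) (.e (nat_lit 368824) (nat_lit 0) .nil) .nil))))))) (.nd (nat_lit 6) (.nd (nat_lit 7) (.nd (nat_lit 8) (.nd (nat_lit 9) 
(.lf (nat_lit 576561) (.g (nat_lit 1165) (.e (nat_lit 327700) (nat_lit 8) (.e (nat_lit 303144) (nat_lit 13) (.e (nat_lit 483344) (nat_lit 17) (.e (nat_lit 6720) (nat_lit 361) (.e (nat_lit 172144) (nat_lit 26) .nil))))) (.g (nat_lit 0) (.e (nat_lit 366258) (nat_lit 0) .nil) .nil))) 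
(.lf (nat_lit 577073) (.g (nat_lit 2694) (.e (nat_lit 336005) (nat_lit 2) (.e (nat_lit 90170) (nat_lit 13) (.e (nat_lit 172113) (nat_lit 10) (.e (nat_lit 434245) (nat_lit 28) (.e (nat_lit 573473) (nat_lit 12) (.e (nat_lit 57354) (nat_lit 0) (.e (nat_lit 7270) (nat_lit 385) (.e (nat_lit 122906) (nat_lit 12) .nil)))))))) (.g (nat_lit 1) (.e (nat_lit 368174) (nat_lit 0) .nil) .nil)))) 
(.nd (nat_lit 9) 
(.lf (nat_lit 576817) (.g (nat_lit 1885) (.e (nat_lit 335987) (nat_lit 1) (.e (nat_lit 57927) (nat_lit 282) (.e (nat_lit 163874) (nat_lit 3) (.e (nat_lit 204877) (nat_lit 31) (.e (nat_lit 376840) (nat_lit 11) (.e (nat_lit 426525) (nat_lit 27) .nil)))))) (.g (nat_lit 1) (.e (nat_lit 367428) (nat_lit 0) .nil) .nil))) 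
(.lf (nat_lit 577329) (.g (nat_lit 5325) (.e (nat_lit 336019) (nat_lit 3) (.e (nat_lit 98373) (nat_lit 29) (.e (nat_lit 450588) (nat_lit 10) (.e (nat_lit 573474) (nat_lit 12) (.e (nat_lit 57572) (nat_lit 54) .nil))))) (.g (nat_lit 0) (.e (nat_lit 368539) (nat_lit 0) .nil) .nil))))) (.nd (nat_lit 8) (.nd (nat_lit 9) 
(.lf (nat_lit 576689) (.g (nat_lit 3134) (.e (nat_lit 335986) (nat_lit 1) (.e (nat_lit 57686) (nat_lit 156) (.e (nat_lit 163902) (nat_lit 12) (.e (nat_lit 426428) (nat_lit 17) (.e (nat_lit 90178) (nat_lit 15) (.e (nat_lit 188421) (nat_lit 11) .nil)))))) (.g (nat_lit 1) (.e (nat_lit 367180) (nat_lit 0) .nil) .nil))) 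
(.lf (nat_lit 577201) (.g (nat_lit 2437) (.e (nat_lit 336018) (nat_lit 3) (.e (nat_lit 98359) (nat_lit 26) (.e (nat_lit 426286) (nat_lit 10) (.e (nat_lit 434248) (nat_lit 28) (.e (nat_lit 573473) (nat_lit 12) .nil))))) (.g (nat_lit 0) (.e (nat_lit 368372) (nat_lit 0) .nil) .nil)))) (.nd (nat_lit 9) 
(.lf (nat_lit 576945) (.g (nat_lit 3323) (.e (nat_lit 335995) (nat_lit 1) (.e (nat_lit 57688) (nat_lit 156) (.e (nat_lit 163905) (nat_lit 12) (.e (nat_lit 426428) (nat_lit 17) (.e (nat_lit 90176) (nat_lit 15) (.e (nat_lit 188423) (nat_lit 11) .nil)))))) (.g (nat_lit 1) (.e (nat_lit 367788) (nat_lit 0) .nil) .nil))) 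
(.lf (nat_lit 577457) (.g (nat_lit 2083) (.e (nat_lit 336024) (nat_lit 3) (.e (nat_lit 98350) (nat_lit 24) (.e (nat_lit 409648) (nat_lit 18) (.e (nat_lit 303117) (nat_lit 2) (.e (nat_lit 196666) (nat_lit 13) (.e (nat_lit 65599) (nat_lit 9) .nil)))))) (.g (nat_lit 1) (.e (nat_lit 368772) (nat_lit 0) .nil) .nil)))))) (.nd (nat_lit 7) (.nd (nat_lit 8) (.nd (nat_lit 9) 
(.lf (nat_lit 576625) (.g (nat_lit 2689) (.e (nat_lit 335876) (nat_lit 0) (.e (nat_lit 6713) (nat_lit 360) (.e (nat_lit 163962) (nat_lit 25) (.e (nat_lit 532550) (nat_lit 12) (.e (nat_lit 360475) (nat_lit 8) (.e (nat_lit 557073) (nat_lit 9) (.e (nat_lit 7936) (nat_lit 21) .nil))))))) (.g (nat_lit 1) (.e (nat_lit 366630) (nat_lit 0) .nil) .nil))) 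
(.lf (nat_lit 577137) (.g (nat_lit 5441) (.e (nat_lit 336013) (nat_lit 2) (.e (nat_lit 90134) (nat_lit 9) (.e (nat_lit 3098) (nat_lit 192) (.e (nat_lit 491566) (nat_lit 12) (.e (nat_lit 385074) (nat_lit 31) (.e (nat_lit 573485) (nat_lit 13) (.e (nat_lit 65604) (nat_lit 9) .nil))))))) (.g (nat_lit 1) (.e (nat_lit 368265) (nat_lit 0) .nil) .nil)))) (.nd (nat_lit 9) 
(.lf (nat_lit 576881) (.g (nat_lit 2899) (.e (nat_lit 335988) (nat_lit 1) (.e (nat_lit 57927) (nat_lit 282) (.e (nat_lit 163903) (nat_lit 12) (.e (nat_lit 426555) (nat_lit 32) (.e (nat_lit 376867) (nat_lit 23) (.e (nat_lit 98317) (nat_lit 9) .nil)))))) (.g (nat_lit 1) (.e (nat_lit 367611) (nat_lit 0) .nil) .nil))) 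
(.lf (nat_lit 577393) (.g (nat_lit 3637) (.e (nat_lit 336020) (nat_lit 3) (.e (nat_lit 98384) (nat_lit 32) (.e (nat_lit 475199) (nat_lit 40) (.e (nat_lit 704589) (nat_lit 3) (.e (nat_lit 163979) (nat_lit 30) .nil))))) (.g (nat_lit 0) (.e (nat_lit 368645) (nat_lit 0) .nil) .nil))))) (.nd (nat_lit 8) (.nd (nat_lit 9) 
(.lf (nat_lit 576753) (.g (nat_lit 3085) (.e (nat_lit 335986) (nat_lit 1) (.e (nat_lit 57849) (nat_lit 252) (.e (nat_lit 57375) (nat_lit 2) (.e (nat_lit 90158) (nat_lit 11) (.e (nat_lit 24628) (nat_lit 9) (.e (nat_lit 336375) (nat_lit 27) (.e (nat_lit 426525) (nat_lit 27) .nil))))))) (.g (nat_lit 1) (.e (nat_lit 367262) (nat_lit 0) .nil) .nil))) 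
(.lf (nat_lit 577265) (.g (nat_lit 4124) (.e (nat_lit 336019) (nat_lit 3) (.e (nat_lit 98342) (nat_lit 20) (.e (nat_lit 221215) (nat_lit 23) (.e (nat_lit 204831) (nat_lit 18) (.e (nat_lit 57931) (nat_lit 282) (.e (nat_lit 163873) (nat_lit 3) (.e (nat_lit 204853) (nat_lit 26) .nil))))))) (.g (nat_lit 1) (.e (nat_lit 368458) (nat_lit 0) .nil) .nil)))) (.nd (nat_lit 9) 
(.lf (nat_lit 577009) (.g (nat_lit 1254) (.e (nat_lit 335997) (nat_lit 1) (.e (nat_lit 57857) (nat_lit 254) (.e (nat_lit 163920) (nat_lit 14) (.e (nat_lit 442402) (nat_lit 20) .nil)))) (.g (nat_lit 0) (.e (nat_lit 367949) (nat_lit 0) .nil) .nil))) 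
(.lf (nat_lit 577521) (.g (nat_lit 2612) (.e (nat_lit 336026) (nat_lit 3) (.e (nat_lit 98333) (nat_lit 18) (.e (nat_lit 164183) (nat_lit 154) (.e (nat_lit 57378) (nat_lit 3) (.e (nat_lit 98342) (nat_lit 20) .nil))))) (.g (nat_lit 0) (.e (nat_lit 368869) (nat_lit 0) .nil) .nil))))))))) (.nd (nat_lit 4) (.nd (nat_lit 5) (.nd (nat_lit 6) (.nd (nat_lit 7) (.nd (nat_lit 8) (.nd (nat_lit 9) 
(.lf (nat_lit 576521) (.g (nat_lit 3606) (.e (nat_lit 327699) (nat_lit 8) (.e (nat_lit 303118) (nat_lit 3) (.e (nat_lit 204869) (nat_lit 29) (.e (nat_lit 360475) (nat_lit 8) (.e (nat_lit 557068) (nat_lit 9) (.e (nat_lit 220) (nat_lit 20) .nil)))))) (.g (nat_lit 1) (.e (nat_lit 366053) (nat_lit 0) .nil) .nil))) 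
(.lf (nat_lit 577033) (.g (nat_lit 1677) (.e (nat_lit 336001) (nat_lit 2) (.e (nat_lit 90170) (nat_lit 13) (.e (nat_lit 172106) (nat_lit 10) (.e (nat_lit 434244) (nat_lit 28) (.e (nat_lit 573474) (nat_lit 12) (.e (nat_lit 57356) (nat_lit 0) (.e (nat_lit 7271) (nat_lit 385) (.e (nat_lit 122903) (nat_lit 12) .nil)))))))) (.g (nat_lit 1) (.e (nat_lit 368093) (nat_lit 0) .nil) .nil)))) 
(.nd (nat_lit 9) 
(.lf (nat_lit 576777) (.g (nat_lit 2813) (.e (nat_lit 335986) (nat_lit 1) (.e (nat_lit 57927) (nat_lit 282) (.e (nat_lit 163874) (nat_lit 3) (.e (nat_lit 204865) (nat_lit 28) (.e (nat_lit 352277) (nat_lit 11) (.e (nat_lit 426500) (nat_lit 27) .nil)))))) (.g (nat_lit 1) (.e (nat_lit 367318) (nat_lit 0) .nil) .nil))) 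
(.lf (nat_lit 577289) (.g (nat_lit 3658) (.e (nat_lit 336019) (nat_lit 3) (.e (nat_lit 98350) (nat_lit 24) (.e (nat_lit 409648) (nat_lit 18) (.e (nat_lit 303117) (nat_lit 2) (.e (nat_lit 196681) (nat_lit 17) (.e (nat_lit 131109) (nat_lit 9) .nil)))))) (.g (nat_lit 1) (.e (nat_lit 368488) (nat_lit 0) .nil) .nil))))) (.nd (nat_lit 8) (.nd (nat_lit 9) 
(.lf (nat_lit 576649) (.g (nat_lit 1394) (.e (nat_lit 335895) (nat_lit 0) (.e (nat_lit 6718) (nat_lit 361) (.e (nat_lit 172143) (nat_lit 25) (.e (nat_lit 319490) (nat_lit 0) (.e (nat_lit 5771) (nat_lit 316) (.e (nat_lit 172150) (nat_lit 27) .nil)))))) (.g (nat_lit 1) (.e (nat_lit 366984) (nat_lit 0) .nil) .nil))) 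
(.lf (nat_lit 577161) (.g (nat_lit 1764) (.e (nat_lit 336014) (nat_lit 2) (.e (nat_lit 90170) (nat_lit 13) (.e (nat_lit 172113) (nat_lit 10) (.e (nat_lit 434247) (nat_lit 28) .nil)))) (.g (nat_lit 0) (.e (nat_lit 368302) (nat_lit 0) .nil) .nil)))) (.nd (nat_lit 9) 
(.lf (nat_lit 576905) (.g (nat_lit 2728) (.e (nat_lit 335988) (nat_lit 1) (.e (nat_lit 57931) (nat_lit 282) (.e (nat_lit 163905) (nat_lit 12) (.e (nat_lit 426542) (nat_lit 29) (.e (nat_lit 352315) (nat_lit 23) (.e (nat_lit 98316) (nat_lit 9) .nil)))))) (.g (nat_lit 1) (.e (nat_lit 367668) (nat_lit 0) .nil) .nil))) 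
(.lf (nat_lit 577417) (.g (nat_lit 1453) (.e (nat_lit 336023) (nat_lit 3) (.e (nat_lit 98335) (nat_lit 18) (.e (nat_lit 164182) (nat_lit 154) (.e (nat_lit 57411) (nat_lit 12) .nil)))) (.g (nat_lit 0) (.e (nat_lit 368720) (nat_lit 0) .nil) .nil)))))) (.nd (nat_lit 7) (.nd (nat_lit 8) (.nd (nat_lit 9) 
(.lf (nat_lit 576585) (.g (nat_lit 3195) (.e (nat_lit 327716) (nat_lit 16) (.e (nat_lit 286733) (nat_lit 2) (.e (nat_lit 90170) (nat_lit 13) (.e (nat_lit 172113) (nat_lit 10) .nil)))) (.g (nat_lit 0) (.e (nat_lit 366416) (nat_lit 0) .nil) .nil))) 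
(.lf (nat_lit 577097) (.g (nat_lit 2816) (.e (nat_lit 336008) (nat_lit 2) (.e (nat_lit 90170) (nat_lit 13) (.e (nat_lit 172113) (nat_lit 10) (.e (nat_lit 434247) (nat_lit 28) (.e (nat_lit 573477) (nat_lit 12) (.e (nat_lit 57353) (nat_lit 0) (.e (nat_lit 7265) (nat_lit 384) (.e (nat_lit 57412) (nat_lit 12) .nil)))))))) (.g (nat_lit 1) (.e (nat_lit 368204) (nat_lit 0) .nil) .nil)))) 
(.nd (nat_lit 9) 
(.lf (nat_lit 576841) (.g (nat_lit 2465) (.e (nat_lit 335988) (nat_lit 1) (.e (nat_lit 57926) (nat_lit 282) (.e (nat_lit 163867) (nat_lit 2) (.e (nat_lit 196672) (nat_lit 15) (.e (nat_lit 89856) (nat_lit 11) (.e (nat_lit 426523) (nat_lit 27) .nil)))))) (.g (nat_lit 1) (.e (nat_lit 367514) (nat_lit 0) .nil) .nil))) 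
(.lf (nat_lit 577353) (.g (nat_lit 2413) (.e (nat_lit 336020) (nat_lit 3) (.e (nat_lit 98334) (nat_lit 18) (.e (nat_lit 164183) (nat_lit 154) (.e (nat_lit 57378) (nat_lit 3) (.e (nat_lit 98340) (nat_lit 20) .nil))))) (.g (nat_lit 0) (.e (nat_lit 368591) (nat_lit 0) .nil) .nil))))) (.nd (nat_lit 8) (.nd (nat_lit 9) 
(.lf (nat_lit 576713) (.g (nat_lit 2399) (.e (nat_lit 335986) (nat_lit 1) (.e (nat_lit 57692) (nat_lit 156) (.e (nat_lit 163907) (nat_lit 12) (.e (nat_lit 426432) (nat_lit 17) (.e (nat_lit 90176) (nat_lit 15) (.e (nat_lit 188423) (nat_lit 11) .nil)))))) (.g (nat_lit 1) (.e (nat_lit 367207) (nat_lit 0) .nil) .nil))) 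
(.lf (nat_lit 577225) (.g (nat_lit 2629) (.e (nat_lit 336019) (nat_lit 3) (.e (nat_lit 98341) (nat_lit 20) (.e (nat_lit 221204) (nat_lit 20) (.e (nat_lit 3253) (nat_lit 197) (.e (nat_lit 532501) (nat_lit 1) (.e (nat_lit 57929) (nat_lit 282) (.e (nat_lit 163874) (nat_lit 3) (.e (nat_lit 204854) (nat_lit 26) .nil)))))))) (.g (nat_lit 1) (.e (nat_lit 368408) (nat_lit 0) .nil) .nil)))) 
(.nd (nat_lit 9) 
(.lf (nat_lit 576969) (.g (nat_lit 2845) (.e (nat_lit 335995) (nat_lit 1) (.e (nat_lit 57931) (nat_lit 282) (.e (nat_lit 163905) (nat_lit 12) (.e (nat_lit 426555) (nat_lit 32) (.e (nat_lit 376867) (nat_lit 23) (.e (nat_lit 98317) (nat_lit 9) .nil)))))) (.g (nat_lit 1) (.e (nat_lit 367835) (nat_lit 0) .nil) .nil))) 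
(.lf (nat_lit 577481) (.g (nat_lit 2723) (.e (nat_lit 336025) (nat_lit 3) (.e (nat_lit 98335) (nat_lit 18) (.e (nat_lit 164183) (nat_lit 154) (.e (nat_lit 57378) (nat_lit 3) (.e (nat_lit 98340) (nat_lit 20) .nil))))) (.g (nat_lit 0) (.e (nat_lit 368810) (nat_lit 0) .nil) .nil))))))) (.nd (nat_lit 6) (.nd (nat_lit 7) (.nd (nat_lit 8) (.nd (nat_lit 9) 
(.lf (nat_lit 576553) (.g (nat_lit 4073) (.e (nat_lit 327700) (nat_lit 8) (.e (nat_lit 303119) (nat_lit 3) (.e (nat_lit 204869) (nat_lit 29) (.e (nat_lit 360474) (nat_lit 8) (.e (nat_lit 557072) (nat_lit 9) .nil))))) (.g (nat_lit 0) (.e (nat_lit 366179) (nat_lit 0) .nil) .nil))) 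
(.lf (nat_lit 577065) (.g (nat_lit 1320) (.e (nat_lit 336002) (nat_lit 2) (.e (nat_lit 90158) (nat_lit 11) (.e (nat_lit 24608) (nat_lit 3) (.e (nat_lit 98333) (nat_lit 18) .nil)))) (.g (nat_lit 0) (.e (nat_lit 368129) (nat_lit 0) .nil) .nil)))) (.nd (nat_lit 9) 
(.lf (nat_lit 576809) (.g (nat_lit 1777) (.e (nat_lit 335987) (nat_lit 1) (.e (nat_lit 57926) (nat_lit 282) (.e (nat_lit 163902) (nat_lit 12) (.e (nat_lit 426544) (nat_lit 30) (.e (nat_lit 360467) (nat_lit 3) .nil))))) (.g (nat_lit 0) (.e (nat_lit 367412) (nat_lit 0) .nil) .nil))) 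
(.lf (nat_lit 577321) (.g (nat_lit 4217) (.e (nat_lit 336019) (nat_lit 3) (.e (nat_lit 98373) (nat_lit 29) (.e (nat_lit 450587) (nat_lit 10) (.e (nat_lit 573472) (nat_lit 12) .nil)))) (.g (nat_lit 0) (.e (nat_lit 368531) (nat_lit 0) .nil) .nil))))) (.nd (nat_lit 8) (.nd (nat_lit 9) 
(.lf (nat_lit 576681) (.g (nat_lit 3008) (.e (nat_lit 335971) (nat_lit 0) (.e (nat_lit 1788) (nat_lit 119) (.e (nat_lit 516165) (nat_lit 12) (.e (nat_lit 450588) (nat_lit 10) (.e (nat_lit 573473) (nat_lit 12) .nil))))) (.g (nat_lit 0) (.e (nat_lit 367145) (nat_lit 0) .nil) .nil))) 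
(.lf (nat_lit 577193) (.g (nat_lit 3173) (.e (nat_lit 336018) (nat_lit 3) (.e (nat_lit 98350) (nat_lit 24) (.e (nat_lit 409646) (nat_lit 18) (.e (nat_lit 303117) (nat_lit 2) (.e (nat_lit 196681) (nat_lit 17) .nil))))) (.g (nat_lit 0) (.e (nat_lit 368364) (nat_lit 0) .nil) .nil)))) (.nd (nat_lit 9) 
(.lf (nat_lit 576937) (.g (nat_lit 2100) (.e (nat_lit 335995) (nat_lit 1) (.e (nat_lit 57688) (nat_lit 156) (.e (nat_lit 163902) (nat_lit 12) (.e (nat_lit 426436) (nat_lit 18) (.e (nat_lit 98371) (nat_lit 28) .nil))))) (.g (nat_lit 0) (.e (nat_lit 367780) (nat_lit 0) .nil) .nil))) 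
(.lf (nat_lit 577449) (.g (nat_lit 1027) (.e (nat_lit 336024) (nat_lit 3) (.e (nat_lit 98333) (nat_lit 18) (.e (nat_lit 164183) (nat_lit 154) .nil))) (.g (nat_lit 0) (.e (nat_lit 368757) (nat_lit 0) .nil) .nil)))))) (.nd (nat_lit 7) (.nd (nat_lit 8) (.nd (nat_lit 9) 
(.lf (nat_lit 576617) (.g (nat_lit 2117) (.e (nat_lit 335876) (nat_lit 0) (.e (nat_lit 6711) (nat_lit 360) (.e (nat_lit 163962) (nat_lit 25) (.e (nat_lit 532550) (nat_lit 12) (.e (nat_lit 360474) (nat_lit 8) (.e (nat_lit 557073) (nat_lit 9) (.e (nat_lit 7936) (nat_lit 21) .nil))))))) (.g (nat_lit 1) (.e (nat_lit 366615) (nat_lit 0) .nil) .nil))) 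
(.lf (nat_lit 577129) (.g (nat_lit 3879) (.e (nat_lit 336013) (nat_lit 2) (.e (nat_lit 90134) (nat_lit 9) (.e (nat_lit 3025) (nat_lit 187) (.e (nat_lit 450588) (nat_lit 10) (.e (nat_lit 573474) (nat_lit 12) (.e (nat_lit 57572) (nat_lit 54) (.e (nat_lit 770056) (nat_lit 5) (.e (nat_lit 1449) (nat_lit 108) .nil)))))))) (.g (nat_lit 1) (.e (nat_lit 368256) (nat_lit 0) .nil) .nil)))) (.nd (nat_lit 9) 
(.lf (nat_lit 576873) (.g (nat_lit 2794) (.e (nat_lit 335988) (nat_lit 1) (.e (nat_lit 57927) (nat_lit 282) (.e (nat_lit 163874) (nat_lit 3) (.e (nat_lit 204852) (nat_lit 26) (.e (nat_lit 336211) (nat_lit 13) (.e (nat_lit 393225) (nat_lit 9) .nil)))))) (.g (nat_lit 1) (.e (nat_lit 367597) (nat_lit 0) .nil) .nil))) 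
(.lf (nat_lit 577385) (.g (nat_lit 773) (.e (nat_lit 336020) (nat_lit 3) (.e (nat_lit 98365) (nat_lit 26) (.e (nat_lit 426306) (nat_lit 12) .nil))) (.g (nat_lit 0) (.e (nat_lit 368637) (nat_lit 0) .nil) .nil))))) (.nd (nat_lit 8) (.nd (nat_lit 9) 
(.lf (nat_lit 576745) (.g (nat_lit 2238) (.e (nat_lit 335986) (nat_lit 1) (.e (nat_lit 57849) (nat_lit 252) (.e (nat_lit 57372) (nat_lit 2) (.e (nat_lit 90158) (nat_lit 11) (.e (nat_lit 24628) (nat_lit 9) (.e (nat_lit 336379) (nat_lit 27) (.e (nat_lit 426522) (nat_lit 27) .nil))))))) (.g (nat_lit 1) (.e (nat_lit 367254) (nat_lit 0) .nil) .nil))) 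
(.lf (nat_lit 577257) (.g (nat_lit 3653) (.e (nat_lit 336019) (nat_lit 3) (.e (nat_lit 98342) (nat_lit 20) (.e (nat_lit 221215) (nat_lit 23) (.e (nat_lit 204829) (nat_lit 18) (.e (nat_lit 57931) (nat_lit 282) (.e (nat_lit 163873) (nat_lit 3) (.e (nat_lit 204853) (nat_lit 26) .nil))))))) (.g (nat_lit 1) (.e (nat_lit 368447) (nat_lit 0) .nil) .nil)))) (.nd (nat_lit 9) 
(.lf (nat_lit 577001) (.g (nat_lit 2505) (.e (nat_lit 335996) (nat_lit 1) (.e (nat_lit 57931) (nat_lit 282) (.e (nat_lit 163905) (nat_lit 12) (.e (nat_lit 426555) (nat_lit 32) (.e (nat_lit 376868) (nat_lit 23) (.e (nat_lit 98317) (nat_lit 9) .nil)))))) (.g (nat_lit 1) (.e (nat_lit 367914) (nat_lit 0) .nil) .nil))) 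
(.lf (nat_lit 577513) (.g (nat_lit 3003) (.e (nat_lit 336026) (nat_lit 3) (.e (nat_lit 98333) (nat_lit 18) (.e (nat_lit 164179) (nat_lit 154) (.e (nat_lit 57378) (nat_lit 3) (.e (nat_lit 98341) (nat_lit 20) .nil))))) (.g (nat_lit 0) (.e (nat_lit 368858) (nat_lit 0) .nil) .nil)))))))) (.nd (nat_lit 5) (.nd (nat_lit 6) (.nd (nat_lit 7) (.nd (nat_lit 8) (.nd (nat_lit 9) 
(.lf (nat_lit 576537) (.g (nat_lit 4049) (.e (nat_lit 327699) (nat_lit 8) (.e (nat_lit 303119) (nat_lit 3) (.e (nat_lit 204869) (nat_lit 29) (.e (nat_lit 360474) (nat_lit 8) (.e (nat_lit 557072) (nat_lit 9) .nil))))) (.g (nat_lit 0) (.e (nat_lit 366083) (nat_lit 0) .nil) .nil))) 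
(.lf (nat_lit 577049) (.g (nat_lit 2343) (.e (nat_lit 336001) (nat_lit 2) (.e (nat_lit 90170) (nat_lit 13) (.e (nat_lit 172113) (nat_lit 10) (.e (nat_lit 434247) (nat_lit 28) (.e (nat_lit 573478) (nat_lit 12) (.e (nat_lit 57353) (nat_lit 0) (.e (nat_lit 7263) (nat_lit 384) (.e (nat_lit 57412) (nat_lit 12) .nil)))))))) (.g (nat_lit 1) (.e (nat_lit 368109) (nat_lit 0) .nil) .nil)))) 
(.nd (nat_lit 9) 
(.lf (nat_lit 576793) (.g (nat_lit 2959) (.e (nat_lit 335986) (nat_lit 1) (.e (nat_lit 57931) (nat_lit 282) (.e (nat_lit 163869) (nat_lit 2) (.e (nat_lit 196672) (nat_lit 15) (.e (nat_lit 81925) (nat_lit 11) (.e (nat_lit 426500) (nat_lit 27) .nil)))))) (.g (nat_lit 1) (.e (nat_lit 367347) (nat_lit 0) .nil) .nil))) 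
(.lf (nat_lit 577305) (.g (nat_lit 3050) (.e (nat_lit 336019) (nat_lit 3) (.e (nat_lit 98372) (nat_lit 29) (.e (nat_lit 450586) (nat_lit 10) (.e (nat_lit 573475) (nat_lit 12) (.e (nat_lit 57347) (nat_lit 0) (.e (nat_lit 7261) (nat_lit 384) (.e (nat_lit 57406) (nat_lit 12) .nil))))))) (.g (nat_lit 1) (.e (nat_lit 368515) (nat_lit 0) .nil) .nil))))) (.nd (nat_lit 8) (.nd (nat_lit 9) 
(.lf (nat_lit 576665) (.g (nat_lit 2319) (.e (nat_lit 335923) (nat_lit 0) (.e (nat_lit 1788) (nat_lit 119) (.e (nat_lit 516139) (nat_lit 7) (.e (nat_lit 409647) (nat_lit 18) (.e (nat_lit 303119) (nat_lit 3) .nil))))) (.g (nat_lit 0) (.e (nat_lit 367076) (nat_lit 0) .nil) .nil))) 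
(.lf (nat_lit 577177) (.g (nat_lit 2754) (.e (nat_lit 336017) (nat_lit 3) (.e (nat_lit 98342) (nat_lit 20) (.e (nat_lit 221214) (nat_lit 23) (.e (nat_lit 204830) (nat_lit 18) (.e (nat_lit 57927) (nat_lit 282) (.e (nat_lit 163874) (nat_lit 3) (.e (nat_lit 204859) (nat_lit 26) .nil))))))) (.g (nat_lit 1) (.e (nat_lit 368344) (nat_lit 0) .nil) .nil)))) (.nd (nat_lit 9) 
(.lf (nat_lit 576921) (.g (nat_lit 2714) (.e (nat_lit 335994) (nat_lit 1) (.e (nat_lit 57688) (nat_lit 156) (.e (nat_lit 163902) (nat_lit 12) (.e (nat_lit 426438) (nat_lit 18) (.e (nat_lit 98380) (nat_lit 31) (.e (nat_lit 466954) (nat_lit 11) .nil)))))) (.g (nat_lit 1) (.e (nat_lit 367754) (nat_lit 0) .nil) .nil))) 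
(.lf (nat_lit 577433) (.g (nat_lit 4488) (.e (nat_lit 336023) (nat_lit 3) (.e (nat_lit 98373) (nat_lit 29) (.e (nat_lit 450588) (nat_lit 10) (.e (nat_lit 573473) (nat_lit 12) (.e (nat_lit 57353) (nat_lit 0) (.e (nat_lit 7261) (nat_lit 384) (.e (nat_lit 57412) (nat_lit 12) .nil))))))) (.g (nat_lit 1) (.e (nat_lit 368740) (nat_lit 0) .nil) .nil)))))) 
(.nd (nat_lit 7) (.nd (nat_lit 8) (.nd (nat_lit 9) 
(.lf (nat_lit 576601) (.g (nat_lit 193) (.e (nat_lit 335878) (nat_lit 0) (.e (nat_lit 2283) (nat_lit 150) (.e (nat_lit 770071) (nat_lit 8) .nil))) (.g (nat_lit 0) (.e (nat_lit 366501) (nat_lit 0) .nil) .nil))) 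
(.lf (nat_lit 577113) (.g (nat_lit 2998) (.e (nat_lit 336010) (nat_lit 2) (.e (nat_lit 90170) (nat_lit 13) (.e (nat_lit 172118) (nat_lit 12) (.e (nat_lit 475179) (nat_lit 24) (.e (nat_lit 516129) (nat_lit 3) (.e (nat_lit 221194) (nat_lit 11) .nil)))))) (.g (nat_lit 1) (.e (nat_lit 368221) (nat_lit 0) .nil) .nil)))) (.nd (nat_lit 9) 
(.lf (nat_lit 576857) (.g (nat_lit 2808) (.e (nat_lit 335988) (nat_lit 1) (.e (nat_lit 57926) (nat_lit 282) (.e (nat_lit 163905) (nat_lit 12) (.e (nat_lit 426542) (nat_lit 29) (.e (nat_lit 352315) (nat_lit 23) (.e (nat_lit 98316) (nat_lit 9) .nil)))))) (.g (nat_lit 1) (.e (nat_lit 367551) (nat_lit 0) .nil) .nil))) 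
(.lf (nat_lit 577369) (.g (nat_lit 669) (.e (nat_lit 336020) (nat_lit 3) (.e (nat_lit 98350) (nat_lit 24) (.e (nat_lit 409645) (nat_lit 18) .nil))) (.g (nat_lit 0) (.e (nat_lit 368619) (nat_lit 0) .nil) .nil))))) (.nd (nat_lit 8) (.nd (nat_lit 9) 
(.lf (nat_lit 576729) (.g (nat_lit 1423) (.e (nat_lit 335986) (nat_lit 1) (.e (nat_lit 57847) (nat_lit 252) (.e (nat_lit 57373) (nat_lit 2) (.e (nat_lit 90158) (nat_lit 11) (.e (nat_lit 24628) (nat_lit 9) .nil))))) (.g (nat_lit 0) (.e (nat_lit 367233) (nat_lit 0) .nil) .nil))) 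
(.lf (nat_lit 577241) (.g (nat_lit 5441) (.e (nat_lit 336019) (nat_lit 3) (.e (nat_lit 98342) (nat_lit 20) (.e (nat_lit 221198) (nat_lit 20) (.e (nat_lit 3266) (nat_lit 199) (.e (nat_lit 548889) (nat_lit 9) (.e (nat_lit 65642) (nat_lit 15) (.e (nat_lit 3253) (nat_lit 197) (.e (nat_lit 532534) (nat_lit 9) .nil)))))))) (.g (nat_lit 1) (.e (nat_lit 368427) (nat_lit 0) .nil) .nil)))) (.nd (nat_lit 9) 
(.lf (nat_lit 576985) (.g (nat_lit 2352) (.e (nat_lit 335996) (nat_lit 1) (.e (nat_lit 57929) (nat_lit 282) (.e (nat_lit 163869) (nat_lit 2) (.e (nat_lit 196672) (nat_lit 15) (.e (nat_lit 81925) (nat_lit 11) (.e (nat_lit 426500) (nat_lit 27) .nil)))))) (.g (nat_lit 1) (.e (nat_lit 367888) (nat_lit 0) .nil) .nil))) 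
(.lf (nat_lit 577497) (.g (nat_lit 1870) (.e (nat_lit 336025) (nat_lit 3) (.e (nat_lit 98350) (nat_lit 24) (.e (nat_lit 409646) (nat_lit 18) (.e (nat_lit 303119) (nat_lit 3) .nil)))) (.g (nat_lit 0) (.e (nat_lit 368832) (nat_lit 0) .nil) .nil))))))) (.nd (nat_lit 6) (.nd (nat_lit 7) (.nd (nat_lit 8) (.nd (nat_lit 9) 
(.lf (nat_lit 576569) (.g (nat_lit 3540) (.e (nat_lit 327700) (nat_lit 8) (.e (nat_lit 303145) (nat_lit 13) (.e (nat_lit 483413) (nat_lit 27) (.e (nat_lit 401434) (nat_lit 9) .nil)))) (.g (nat_lit 0) (.e (nat_lit 366280) (nat_lit 0) .nil) .nil))) 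
(.lf (nat_lit 577081) (.g (nat_lit 1743) (.e (nat_lit 336006) (nat_lit 2) (.e (nat_lit 90170) (nat_lit 13) (.e (nat_lit 172113) (nat_lit 10) (.e (nat_lit 434247) (nat_lit 28) .nil)))) (.g (nat_lit 0) (.e (nat_lit 368182) (nat_lit 0) .nil) .nil)))) (.nd (nat_lit 9) 
(.lf (nat_lit 576825) (.g (nat_lit 2129) (.e (nat_lit 335987) (nat_lit 1) (.e (nat_lit 57927) (nat_lit 282) (.e (nat_lit 163905) (nat_lit 12) (.e (nat_lit 426542) (nat_lit 29) (.e (nat_lit 352315) (nat_lit 23) (.e (nat_lit 98316) (nat_lit 9) .nil)))))) (.g (nat_lit 1) (.e (nat_lit 367436) (nat_lit 0) .nil) .nil))) 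
(.lf (nat_lit 577337) (.g (nat_lit 3387) (.e (nat_lit 336019) (nat_lit 3) (.e (nat_lit 98384) (nat_lit 32) (.e (nat_lit 475199) (nat_lit 40) (.e (nat_lit 704589) (nat_lit 3) (.e (nat_lit 163979) (nat_lit 30) (.e (nat_lit 573482) (nat_lit 13) (.e (nat_lit 65589) (nat_lit 9) .nil))))))) (.g (nat_lit 1) (.e (nat_lit 368549) (nat_lit 0) .nil) .nil))))) (.nd (nat_lit 8) (.nd (nat_lit 9) 
(.lf (nat_lit 576697) (.g (nat_lit 2492) (.e (nat_lit 335986) (nat_lit 1) (.e (nat_lit 57688) (nat_lit 156) (.e (nat_lit 163903) (nat_lit 12) (.e (nat_lit 426432) (nat_lit 17) (.e (nat_lit 90176) (nat_lit 15) (.e (nat_lit 188423) (nat_lit 11) .nil)))))) (.g (nat_lit 1) (.e (nat_lit 367188) (nat_lit 0) .nil) .nil))) 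
(.lf (nat_lit 577209) (.g (nat_lit 3812) (.e (nat_lit 336018) (nat_lit 3) (.e (nat_lit 98373) (nat_lit 29) (.e (nat_lit 450587) (nat_lit 10) (.e (nat_lit 573473) (nat_lit 12) .nil)))) (.g (nat_lit 0) (.e (nat_lit 368380) (nat_lit 0) .nil) .nil)))) (.nd (nat_lit 9) 
(.lf (nat_lit 576953) (.g (nat_lit 1880) (.e (nat_lit 335995) (nat_lit 1) (.e (nat_lit 57848) (nat_lit 252) (.e (nat_lit 57375) (nat_lit 2) (.e (nat_lit 90159) (nat_lit 11) (.e (nat_lit 24627) (nat_lit 9) (.e (nat_lit 336377) (nat_lit 27) (.e (nat_lit 426522) (nat_lit 27) .nil))))))) (.g (nat_lit 1) (.e (nat_lit 367804) (nat_lit 0) .nil) .nil))) 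
(.lf (nat_lit 577465) (.g (nat_lit 1003) (.e (nat_lit 336025) (nat_lit 3) (.e (nat_lit 98333) (nat_lit 18) (.e (nat_lit 164179) (nat_lit 154) .nil))) (.g (nat_lit 0) (.e (nat_lit 368782) (nat_lit 0) .nil) .nil)))))) (.nd (nat_lit 7) (.nd (nat_lit 8) (.nd (nat_lit 9) 
(.lf (nat_lit 576633) (.g (nat_lit 1075) (.e (nat_lit 335893) (nat_lit 0) (.e (nat_lit 6720) (nat_lit 361) (.e (nat_lit 172143) (nat_lit 25) (.e (nat_lit 319493) (nat_lit 0) (.e (nat_lit 5771) (nat_lit 316) (.e (nat_lit 172150) (nat_lit 27) .nil)))))) (.g (nat_lit 1) (.e (nat_lit 366782) (nat_lit 0) .nil) .nil))) 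
(.lf (nat_lit 577145) (.g (nat_lit 4246) (.e (nat_lit 336013) (nat_lit 2) (.e (nat_lit 90170) (nat_lit 13) (.e (nat_lit 172042) (nat_lit 0) (.e (nat_lit 3409) (nat_lit 212) (.e (nat_lit 655375) (nat_lit 3) (.e (nat_lit 163977) (nat_lit 30) (.e (nat_lit 573485) (nat_lit 13) (.e (nat_lit 65604) (nat_lit 9) .nil)))))))) (.g (nat_lit 1) (.e (nat_lit 368286) (nat_lit 0) .nil) .nil)))) (.nd (nat_lit 9) 
(.lf (nat_lit 576889) (.g (nat_lit 2389) (.e (nat_lit 335988) (nat_lit 1) (.e (nat_lit 57927) (nat_lit 282) (.e (nat_lit 163905) (nat_lit 12) (.e (nat_lit 426555) (nat_lit 32) (.e (nat_lit 376868) (nat_lit 23) (.e (nat_lit 98317) (nat_lit 9) .nil)))))) (.g (nat_lit 1) (.e (nat_lit 367619) (nat_lit 0) .nil) .nil))) 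
(.lf (nat_lit 577401) (.g (nat_lit 2614) (.e (nat_lit 336021) (nat_lit 3) (.e (nat_lit 98350) (nat_lit 24) (.e (nat_lit 409649) (nat_lit 18) (.e (nat_lit 303117) (nat_lit 2) (.e (nat_lit 196665) (nat_lit 13) .nil))))) (.g (nat_lit 0) (.e (nat_lit 368697) (nat_lit 0) .nil) .nil))))) (.nd (nat_lit 8) (.nd (nat_lit 9) 
(.lf (nat_lit 576761) (.g (nat_lit 2354) (.e (nat_lit 335986) (nat_lit 1) (.e (nat_lit 57926) (nat_lit 282) (.e (nat_lit 163867) (nat_lit 2) (.e (nat_lit 196672) (nat_lit 15) (.e (nat_lit 81925) (nat_lit 11) (.e (nat_lit 426500) (nat_lit 27) .nil)))))) (.g (nat_lit 1) (.e (nat_lit 367293) (nat_lit 0) .nil) .nil))) 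
(.lf (nat_lit 577273) (.g (nat_lit 1981) (.e (nat_lit 336019) (nat_lit 3) (.e (nat_lit 98350) (nat_lit 24) (.e (nat_lit 409643) (nat_lit 18) (.e (nat_lit 303116) (nat_lit 2) (.e (nat_lit 196681) (nat_lit 17) .nil))))) (.g (nat_lit 0) (.e (nat_lit 368472) (nat_lit 0) .nil) .nil)))) (.nd (nat_lit 9) 
(.lf (nat_lit 577017) (.g (nat_lit 903) (.e (nat_lit 335998) (nat_lit 1) (.e (nat_lit 57873) (nat_lit 264) (.e (nat_lit 1209) (nat_lit 89) (.e (nat_lit 81664) (nat_lit 32) .nil)))) (.g (nat_lit 0) (.e (nat_lit 368010) (nat_lit 0) .nil) .nil))) 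
(.lf (nat_lit 577529) (.g (nat_lit 2512) (.e (nat_lit 336026) (nat_lit 3) (.e (nat_lit 98335) (nat_lit 18) (.e (nat_lit 164182) (nat_lit 154) (.e (nat_lit 57378) (nat_lit 3) (.e (nat_lit 98341) (nat_lit 20) .nil))))) (.g (nat_lit 0) (.e (nat_lit 368890) (nat_lit 0) .nil) .nil)))))))))) 
(.nd (nat_lit 3) (.nd (nat_lit 4) (.nd (nat_lit 5) (.nd (nat_lit 6) (.nd (nat_lit 7) 
(.nd (nat_lit 8) (.nd (nat_lit 9) 
(.lf (nat_lit 576517) (.g (nat_lit 1307) (.e (nat_lit 327699) (nat_lit 8) (.e (nat_lit 303118) (nat_lit 3) (.e (nat_lit 204855) (nat_lit 26) (.e (nat_lit 336226) (nat_lit 14) .nil)))) (.g (nat_lit 0) (.e (nat_lit 366048) (nat_lit 0) .nil) .nil))) 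
(.lf (nat_lit 577029) (.g (nat_lit 3267) (.e (nat_lit 336001) (nat_lit 2) (.e (nat_lit 90170) (nat_lit 13) (.e (nat_lit 172106) (nat_lit 10) (.e (nat_lit 434244) (nat_lit 28) (.e (nat_lit 573474) (nat_lit 12) (.e (nat_lit 57354) (nat_lit 0) (.e (nat_lit 7270) (nat_lit 385) (.e (nat_lit 122903) (nat_lit 12) .nil)))))))) (.g (nat_lit 1) (.e (nat_lit 368089) (nat_lit 0) .nil) .nil)))) 
(.nd (nat_lit 9) 
(.lf (nat_lit 576773) (.g (nat_lit 1465) (.e (nat_lit 335986) (nat_lit 1) (.e (nat_lit 57927) (nat_lit 282) (.e (nat_lit 163871) (nat_lit 2) (.e (nat_lit 196665) (nat_lit 13) .nil)))) (.g (nat_lit 0) (.e (nat_lit 367314) (nat_lit 0) .nil) .nil))) 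
(.lf (nat_lit 577285) (.g (nat_lit 1458) (.e (nat_lit 336019) (nat_lit 3) (.e (nat_lit 98350) (nat_lit 24) (.e (nat_lit 409647) (nat_lit 18) (.e (nat_lit 303118) (nat_lit 3) .nil)))) (.g (nat_lit 0) (.e (nat_lit 368484) (nat_lit 0) .nil) .nil))))) (.nd (nat_lit 8) (.nd (nat_lit 9) 
(.lf (nat_lit 576645) (.g (nat_lit 533) (.e (nat_lit 335894) (nat_lit 0) (.e (nat_lit 6724) (nat_lit 362) (.e (nat_lit 180271) (nat_lit 26) .nil))) (.g (nat_lit 0) (.e (nat_lit 366953) (nat_lit 0) .nil) .nil))) 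
(.lf (nat_lit 577157) (.g (nat_lit 4097) (.e (nat_lit 336013) (nat_lit 2) (.e (nat_lit 90170) (nat_lit 13) (.e (nat_lit 172113) (nat_lit 10) (.e (nat_lit 434245) (nat_lit 28) (.e (nat_lit 573474) (nat_lit 12) (.e (nat_lit 57347) (nat_lit 0) (.e (nat_lit 7266) (nat_lit 384) (.e (nat_lit 57415) (nat_lit 12) .nil)))))))) (.g (nat_lit 1) (.e (nat_lit 368298) (nat_lit 0) .nil) .nil)))) 
(.nd (nat_lit 9) 
(.lf (nat_lit 576901) (.g (nat_lit 2928) (.e (nat_lit 335988) (nat_lit 1) (.e (nat_lit 57931) (nat_lit 282) (.e (nat_lit 163869) (nat_lit 2) (.e (nat_lit 196674) (nat_lit 15) (.e (nat_lit 81925) (nat_lit 11) (.e (nat_lit 426521) (nat_lit 27) .nil)))))) (.g (nat_lit 1) (.e (nat_lit 367653) (nat_lit 0) .nil) .nil))) 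
(.lf (nat_lit 577413) (.g (nat_lit 4075) (.e (nat_lit 336022) (nat_lit 3) (.e (nat_lit 98373) (nat_lit 29) (.e (nat_lit 450588) (nat_lit 10) (.e (nat_lit 573473) (nat_lit 12) (.e (nat_lit 57347) (nat_lit 0) (.e (nat_lit 7261) (nat_lit 384) (.e (nat_lit 57412) (nat_lit 12) .nil))))))) (.g (nat_lit 1) (.e (nat_lit 368714) (nat_lit 0) .nil) .nil)))))) 
(.nd (nat_lit 7) (.nd (nat_lit 8) (.nd (nat_lit 9) 
(.lf (nat_lit 576581) (.g (nat_lit 494) (.e (nat_lit 327715) (nat_lit 16) (.e (nat_lit 286759) (nat_lit 12) (.e (nat_lit 385107) (nat_lit 51) .nil))) (.g (nat_lit 0) (.e (nat_lit 366406) (nat_lit 0) .nil) .nil))) 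
(.lf (nat_lit 577093) (.g (nat_lit 2401) (.e (nat_lit 336008) (nat_lit 2) (.e (nat_lit 90170) (nat_lit 13) (.e (nat_lit 172113) (nat_lit 10) (.e (nat_lit 434245) (nat_lit 28) (.e (nat_lit 573474) (nat_lit 12) (.e (nat_lit 57356) (nat_lit 0) (.e (nat_lit 7272) (nat_lit 385) (.e (nat_lit 122906) (nat_lit 12) .nil)))))))) (.g (nat_lit 1) (.e (nat_lit 368200) (nat_lit 0) .nil) .nil)))) 
(.nd (nat_lit 9) 
(.lf (nat_lit 576837) (.g (nat_lit 2962) (.e (nat_lit 335988) (nat_lit 1) (.e (nat_lit 57692) (nat_lit 156) (.e (nat_lit 163938) (nat_lit 18) (.e (nat_lit 475177) (nat_lit 24) (.e (nat_lit 516176) (nat_lit 14) (.e (nat_lit 466954) (nat_lit 11) .nil)))))) (.g (nat_lit 1) (.e (nat_lit 367459) (nat_lit 0) .nil) .nil))) 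
(.lf (nat_lit 577349) (.g (nat_lit 2452) (.e (nat_lit 336020) (nat_lit 3) (.e (nat_lit 98334) (nat_lit 18) (.e (nat_lit 164182) (nat_lit 154) (.e (nat_lit 57378) (nat_lit 3) (.e (nat_lit 98342) (nat_lit 20) .nil))))) (.g (nat_lit 0) (.e (nat_lit 368579) (nat_lit 0) .nil) .nil))))) (.nd (nat_lit 8) (.nd (nat_lit 9) 
(.lf (nat_lit 576709) (.g (nat_lit 3295) (.e (nat_lit 335986) (nat_lit 1) (.e (nat_lit 57691) (nat_lit 156) (.e (nat_lit 163938) (nat_lit 18) (.e (nat_lit 475177) (nat_lit 24) (.e (nat_lit 516176) (nat_lit 14) (.e (nat_lit 466954) (nat_lit 11) .nil)))))) (.g (nat_lit 1) (.e (nat_lit 367203) (nat_lit 0) .nil) .nil))) 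
(.lf (nat_lit 577221) (.g (nat_lit 2161) (.e (nat_lit 336019) (nat_lit 3) (.e (nat_lit 98334) (nat_lit 18) (.e (nat_lit 164183) (nat_lit 154) (.e (nat_lit 57409) (nat_lit 12) (.e (nat_lit 336377) (nat_lit 27) .nil))))) (.g (nat_lit 0) (.e (nat_lit 368403) (nat_lit 0) .nil) .nil)))) (.nd (nat_lit 9) 
(.lf (nat_lit 576965) (.g (nat_lit 2654) (.e (nat_lit 335995) (nat_lit 1) (.e (nat_lit 57931) (nat_lit 282) (.e (nat_lit 163902) (nat_lit 12) (.e (nat_lit 426538) (nat_lit 29) (.e (nat_lit 352315) (nat_lit 23) (.e (nat_lit 98316) (nat_lit 9) .nil)))))) (.g (nat_lit 1) (.e (nat_lit 367831) (nat_lit 0) .nil) .nil))) 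
(.lf (nat_lit 577477) (.g (nat_lit 2205) (.e (nat_lit 336025) (nat_lit 3) (.e (nat_lit 98334) (nat_lit 18) (.e (nat_lit 164183) (nat_lit 154) (.e (nat_lit 57379) (nat_lit 3) (.e (nat_lit 98340) (nat_lit 20) .nil))))) (.g (nat_lit 0) (.e (nat_lit 368803) (nat_lit 0) .nil) .nil))))))) (.nd (nat_lit 6) (.nd (nat_lit 7) (.nd (nat_lit 8) (.nd (nat_lit 9) 
(.lf (nat_lit 576549) (.g (nat_lit 4330) (.e (nat_lit 327700) (nat_lit 8) (.e (nat_lit 303118) (nat_lit 3) (.e (nat_lit 204869) (nat_lit 29) (.e (nat_lit 360475) (nat_lit 8) (.e (nat_lit 557073) (nat_lit 9) (.e (nat_lit 220) (nat_lit 20) .nil)))))) (.g (nat_lit 1) (.e (nat_lit 366167) (nat_lit 0) .nil) .nil))) 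
(.lf (nat_lit 577061) (.g (nat_lit 4732) (.e (nat_lit 336001) (nat_lit 2) (.e (nat_lit 90170) (nat_lit 13) (.e (nat_lit 172113) (nat_lit 10) (.e (nat_lit 434248) (nat_lit 28) (.e (nat_lit 573475) (nat_lit 12) (.e (nat_lit 57354) (nat_lit 0) (.e (nat_lit 7270) (nat_lit 385) (.e (nat_lit 122906) (nat_lit 12) .nil)))))))) (.g (nat_lit 1) (.e (nat_lit 368121) (nat_lit 0) .nil) .nil)))) 
(.nd (nat_lit 9) 
(.lf (nat_lit 576805) (.g (nat_lit 3139) (.e (nat_lit 335987) (nat_lit 1) (.e (nat_lit 57854) (nat_lit 252) (.e (nat_lit 57389) (nat_lit 5) (.e (nat_lit 114698) (nat_lit 11) (.e (nat_lit 426334) (nat_lit 13) (.e (nat_lit 483393) (nat_lit 23) .nil)))))) (.g (nat_lit 1) (.e (nat_lit 367404) (nat_lit 0) .nil) .nil))) 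
(.lf (nat_lit 577317) (.g (nat_lit 4245) (.e (nat_lit 336019) (nat_lit 3) (.e (nat_lit 98372) (nat_lit 29) (.e (nat_lit 450588) (nat_lit 10) (.e (nat_lit 573475) (nat_lit 12) (.e (nat_lit 57353) (nat_lit 0) (.e (nat_lit 7265) (nat_lit 384) (.e (nat_lit 57406) (nat_lit 12) .nil))))))) (.g (nat_lit 1) (.e (nat_lit 368527) (nat_lit 0) .nil) .nil))))) (.nd (nat_lit 8) (.nd (nat_lit 9) 
(.lf (nat_lit 576677) (.g (nat_lit 995) (.e (nat_lit 335946) (nat_lit 0) (.e (nat_lit 1800) (nat_lit 119) (.e (nat_lit 516119) (nat_lit 1) (.e (nat_lit 164179) (nat_lit 154) .nil)))) (.g (nat_lit 0) (.e (nat_lit 367141) (nat_lit 0) .nil) .nil))) 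
(.lf (nat_lit 577189) (.g (nat_lit 1321) (.e (nat_lit 336017) (nat_lit 3) (.e (nat_lit 98365) (nat_lit 26) (.e (nat_lit 426306) (nat_lit 12) (.e (nat_lit 475179) (nat_lit 24) .nil)))) (.g (nat_lit 0) (.e (nat_lit 368357) (nat_lit 0) .nil) .nil)))) (.nd (nat_lit 9) 
(.lf (nat_lit 576933) (.g (nat_lit 3673) (.e (nat_lit 335995) (nat_lit 1) (.e (nat_lit 57687) (nat_lit 156) (.e (nat_lit 163903) (nat_lit 12) (.e (nat_lit 426428) (nat_lit 17) (.e (nat_lit 90176) (nat_lit 15) (.e (nat_lit 188423) (nat_lit 11) .nil)))))) (.g (nat_lit 1) (.e (nat_lit 367776) (nat_lit 0) .nil) .nil))) 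
(.lf (nat_lit 577445) (.g (nat_lit 632) (.e (nat_lit 336023) (nat_lit 3) (.e (nat_lit 98386) (nat_lit 32) (.e (nat_lit 475199) (nat_lit 40) .nil))) (.g (nat_lit 0) (.e (nat_lit 368752) (nat_lit 0) .nil) .nil)))))) (.nd (nat_lit 7) (.nd (nat_lit 8) (.nd (nat_lit 9) 
(.lf (nat_lit 576613) (.g (nat_lit 455) (.e (nat_lit 335874) (nat_lit 0) (.e (nat_lit 6719) (nat_lit 361) (.e (nat_lit 172143) (nat_lit 25) (.e (nat_lit 319491) (nat_lit 0) (.e (nat_lit 5771) (nat_lit 316) (.e (nat_lit 172149) (nat_lit 27) .nil)))))) (.g (nat_lit 1) (.e (nat_lit 366549) (nat_lit 0) .nil) .nil))) 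
(.lf (nat_lit 577125) (.g (nat_lit 3978) (.e (nat_lit 336013) (nat_lit 2) (.e (nat_lit 90134) (nat_lit 9) (.e (nat_lit 3025) (nat_lit 187) (.e (nat_lit 450586) (nat_lit 10) (.e (nat_lit 573474) (nat_lit 12) (.e (nat_lit 57572) (nat_lit 54) (.e (nat_lit 770056) (nat_lit 5) (.e (nat_lit 1464) (nat_lit 108) .nil)))))))) (.g (nat_lit 1) (.e (nat_lit 368252) (nat_lit 0) .nil) .nil)))) (.nd (nat_lit 9) 
(.lf (nat_lit 576869) (.g (nat_lit 2973) (.e (nat_lit 335988) (nat_lit 1) (.e (nat_lit 57927) (nat_lit 282) (.e (nat_lit 163869) (nat_lit 2) (.e (nat_lit 196681) (nat_lit 17) (.e (nat_lit 131128) (nat_lit 13) (.e (nat_lit 393229) (nat_lit 9) .nil)))))) (.g (nat_lit 1) (.e (nat_lit 367592) (nat_lit 0) .nil) .nil))) 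
(.lf (nat_lit 577381) (.g (nat_lit 2634) (.e (nat_lit 336020) (nat_lit 3) (.e (nat_lit 98350) (nat_lit 24) (.e (nat_lit 409649) (nat_lit 18) (.e (nat_lit 303119) (nat_lit 3) (.e (nat_lit 204852) (nat_lit 26) .nil))))) (.g (nat_lit 0) (.e (nat_lit 368632) (nat_lit 0) .nil) .nil))))) (.nd (nat_lit 8) (.nd (nat_lit 9) 
(.lf (nat_lit 576741) (.g (nat_lit 2768) (.e (nat_lit 335986) (nat_lit 1) (.e (nat_lit 57849) (nat_lit 252) (.e (nat_lit 57372) (nat_lit 2) (.e (nat_lit 90158) (nat_lit 11) (.e (nat_lit 24628) (nat_lit 9) (.e (nat_lit 336370) (nat_lit 27) (.e (nat_lit 426501) (nat_lit 27) .nil))))))) (.g (nat_lit 1) (.e (nat_lit 367250) (nat_lit 0) .nil) .nil))) 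
(.lf (nat_lit 577253) (.g (nat_lit 3792) (.e (nat_lit 336019) (nat_lit 3) (.e (nat_lit 98342) (nat_lit 20) (.e (nat_lit 221214) (nat_lit 23) (.e (nat_lit 204831) (nat_lit 18) (.e (nat_lit 57931) (nat_lit 282) (.e (nat_lit 163873) (nat_lit 3) (.e (nat_lit 204853) (nat_lit 26) .nil))))))) (.g (nat_lit 1) (.e (nat_lit 368442) (nat_lit 0) .nil) .nil)))) (.nd (nat_lit 9) 
(.lf (nat_lit 576997) (.g (nat_lit 395) (.e (nat_lit 335996) (nat_lit 1) (.e (nat_lit 57931) (nat_lit 282) (.e (nat_lit 163902) (nat_lit 12) .nil))) (.g (nat_lit 0) (.e (nat_lit 367910) (nat_lit 0) .nil) .nil))) 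
(.lf (nat_lit 577509) (.g (nat_lit 2484) (.e (nat_lit 336026) (nat_lit 3) (.e (nat_lit 98333) (nat_lit 18) (.e (nat_lit 164177) (nat_lit 154) (.e (nat_lit 57379) (nat_lit 3) (.e (nat_lit 98340) (nat_lit 20) .nil))))) (.g (nat_lit 0) (.e (nat_lit 368848) (nat_lit 0) .nil) .nil)))))))) (.nd (nat_lit 5) (.nd (nat_lit 6) (.nd (nat_lit 7) (.nd (nat_lit 8) (.nd (nat_lit 9) 
(.lf (nat_lit 576533) (.g (nat_lit 3932) (.e (nat_lit 327699) (nat_lit 8) (.e (nat_lit 303119) (nat_lit 3) (.e (nat_lit 204849) (nat_lit 25) (.e (nat_lit 327700) (nat_lit 8) (.e (nat_lit 303119) (nat_lit 3) (.e (nat_lit 204849) (nat_lit 25) .nil)))))) (.g (nat_lit 1) (.e (nat_lit 366073) (nat_lit 0) .nil) .nil))) 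
(.lf (nat_lit 577045) (.g (nat_lit 4725) (.e (nat_lit 336001) (nat_lit 2) (.e (nat_lit 90170) (nat_lit 13) (.e (nat_lit 172113) (nat_lit 10) (.e (nat_lit 434245) (nat_lit 28) (.e (nat_lit 573474) (nat_lit 12) (.e (nat_lit 57354) (nat_lit 0) (.e (nat_lit 7270) (nat_lit 385) (.e (nat_lit 122906) (nat_lit 12) .nil)))))))) (.g (nat_lit 1) (.e (nat_lit 368105) (nat_lit 0) .nil) .nil)))) 
(.nd (nat_lit 9) 
(.lf (nat_lit 576789) (.g (nat_lit 3283) (.e (nat_lit 335986) (nat_lit 1) (.e (nat_lit 57927) (nat_lit 282) (.e (nat_lit 163943) (nat_lit 19) (.e (nat_lit 483393) (nat_lit 23) (.e (nat_lit 336021) (nat_lit 3) (.e (nat_lit 98317) (nat_lit 9) .nil)))))) (.g (nat_lit 1) (.e (nat_lit 367339) (nat_lit 0) .nil) .nil))) 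
(.lf (nat_lit 577301) (.g (nat_lit 3568) (.e (nat_lit 336019) (nat_lit 3) (.e (nat_lit 98356) (nat_lit 26) (.e (nat_lit 426422) (nat_lit 16) (.e (nat_lit 57691) (nat_lit 156) (.e (nat_lit 163875) (nat_lit 3) (.e (nat_lit 204829) (nat_lit 18) (.e (nat_lit 57847) (nat_lit 252) (.e (nat_lit 57410) (nat_lit 12) .nil)))))))) (.g (nat_lit 1) (.e (nat_lit 368510) (nat_lit 0) .nil) .nil))))) 
(.nd (nat_lit 8) (.nd (nat_lit 9) 
(.lf (nat_lit 576661) (.g (nat_lit 2447) (.e (nat_lit 335916) (nat_lit 0) (.e (nat_lit 1848) (nat_lit 124) (.e (nat_lit 557066) (nat_lit 9) (.e (nat_lit 232) (nat_lit 21) (.e (nat_lit 336060) (nat_lit 7) .nil))))) (.g (nat_lit 0) (.e (nat_lit 367068) (nat_lit 0) .nil) .nil))) 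
(.lf (nat_lit 577173) (.g (nat_lit 597) (.e (nat_lit 336017) (nat_lit 3) (.e (nat_lit 98335) (nat_lit 18) (.e (nat_lit 164179) (nat_lit 154) .nil))) (.g (nat_lit 0) (.e (nat_lit 368339) (nat_lit 0) .nil) .nil)))) (.nd (nat_lit 9) 
(.lf (nat_lit 576917) (.g (nat_lit 2344) (.e (nat_lit 335994) (nat_lit 1) (.e (nat_lit 57687) (nat_lit 156) (.e (nat_lit 163903) (nat_lit 12) (.e (nat_lit 426438) (nat_lit 18) (.e (nat_lit 98380) (nat_lit 31) .nil))))) (.g (nat_lit 0) (.e (nat_lit 367750) (nat_lit 0) .nil) .nil))) 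
(.lf (nat_lit 577429) (.g (nat_lit 2317) (.e (nat_lit 336023) (nat_lit 3) (.e (nat_lit 98350) (nat_lit 24) (.e (nat_lit 409649) (nat_lit 18) (.e (nat_lit 303118) (nat_lit 3) (.e (nat_lit 204855) (nat_lit 26) .nil))))) (.g (nat_lit 0) (.e (nat_lit 368734) (nat_lit 0) .nil) .nil)))))) (.nd (nat_lit 7) (.nd (nat_lit 8) (.nd (nat_lit 9) 
(.lf (nat_lit 576597) (.g (nat_lit 2970) (.e (nat_lit 335872) (nat_lit 0) (.e (nat_lit 6713) (nat_lit 360) (.e (nat_lit 163962) (nat_lit 25) (.e (nat_lit 532550) (nat_lit 12) (.e (nat_lit 360475) (nat_lit 8) (.e (nat_lit 557073) (nat_lit 9) (.e (nat_lit 288) (nat_lit 21) .nil))))))) (.g (nat_lit 1) (.e (nat_lit 366456) (nat_lit 0) .nil) .nil))) 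
(.lf (nat_lit 577109) (.g (nat_lit 2424) (.e (nat_lit 336008) (nat_lit 2) (.e (nat_lit 90170) (nat_lit 13) (.e (nat_lit 172113) (nat_lit 10) (.e (nat_lit 434248) (nat_lit 28) (.e (nat_lit 573475) (nat_lit 12) (.e (nat_lit 57356) (nat_lit 0) (.e (nat_lit 7272) (nat_lit 385) (.e (nat_lit 122906) (nat_lit 12) .nil)))))))) (.g (nat_lit 1) (.e (nat_lit 368216) (nat_lit 0) .nil) .nil)))) 
(.nd (nat_lit 9) 
(.lf (nat_lit 576853) (.g (nat_lit 3092) (.e (nat_lit 335988) (nat_lit 1) (.e (nat_lit 57926) (nat_lit 282) (.e (nat_lit 163875) (nat_lit 3) (.e (nat_lit 204855) (nat_lit 26) (.e (nat_lit 336212) (nat_lit 13) (.e (nat_lit 393229) (nat_lit 9) .nil)))))) (.g (nat_lit 1) (.e (nat_lit 367533) (nat_lit 0) .nil) .nil))) 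
(.lf (nat_lit 577365) (.g (nat_lit 1924) (.e (nat_lit 336020) (nat_lit 3) (.e (nat_lit 98350) (nat_lit 24) (.e (nat_lit 409616) (nat_lit 10) (.e (nat_lit 5756) (nat_lit 315) .nil)))) (.g (nat_lit 0) (.e (nat_lit 368612) (nat_lit 0) .nil) .nil))))) (.nd (nat_lit 8) (.nd (nat_lit 9) 
(.lf (nat_lit 576725) (.g (nat_lit 2443) (.e (nat_lit 335986) (nat_lit 1) (.e (nat_lit 57847) (nat_lit 252) (.e (nat_lit 57372) (nat_lit 2) (.e (nat_lit 90160) (nat_lit 11) (.e (nat_lit 24624) (nat_lit 9) (.e (nat_lit 336377) (nat_lit 27) (.e (nat_lit 426522) (nat_lit 27) .nil))))))) (.g (nat_lit 1) (.e (nat_lit 367229) (nat_lit 0) .nil) .nil))) 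
(.lf (nat_lit 577237) (.g (nat_lit 3247) (.e (nat_lit 336019) (nat_lit 3) (.e (nat_lit 98341) (nat_lit 20) (.e (nat_lit 221215) (nat_lit 23) (.e (nat_lit 204830) (nat_lit 18) (.e (nat_lit 57927) (nat_lit 282) (.e (nat_lit 163873) (nat_lit 3) (.e (nat_lit 204853) (nat_lit 26) .nil))))))) (.g (nat_lit 1) (.e (nat_lit 368423) (nat_lit 0) .nil) .nil)))) (.nd (nat_lit 9) 
(.lf (nat_lit 576981) (.g (nat_lit 1071) (.e (nat_lit 335996) (nat_lit 1) (.e (nat_lit 57854) (nat_lit 252) (.e (nat_lit 57389) (nat_lit 5) (.e (nat_lit 114698) (nat_lit 11) .nil)))) (.g (nat_lit 0) (.e (nat_lit 367880) (nat_lit 0) .nil) .nil))) 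
(.lf (nat_lit 577493) (.g (nat_lit 2725) (.e (nat_lit 336025) (nat_lit 3) (.e (nat_lit 98350) (nat_lit 24) (.e (nat_lit 409645) (nat_lit 18) (.e (nat_lit 303117) (nat_lit 2) (.e (nat_lit 196665) (nat_lit 13) .nil))))) (.g (nat_lit 0) (.e (nat_lit 368828) (nat_lit 0) .nil) .nil))))))) (.nd (nat_lit 6) (.nd (nat_lit 7) (.nd (nat_lit 8) (.nd (nat_lit 9) 
(.lf (nat_lit 576565) (.g (nat_lit 1685) (.e (nat_lit 327700) (nat_lit 8) (.e (nat_lit 303145) (nat_lit 13) (.e (nat_lit 483345) (nat_lit 17) (.e (nat_lit 7936) (nat_lit 361) .nil)))) (.g (nat_lit 0) (.e (nat_lit 366266) (nat_lit 0) .nil) .nil))) 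
(.lf (nat_lit 577077) (.g (nat_lit 2891) (.e (nat_lit 336005) (nat_lit 2) (.e (nat_lit 90170) (nat_lit 13) (.e (nat_lit 172113) (nat_lit 10) (.e (nat_lit 434248) (nat_lit 28) (.e (nat_lit 573473) (nat_lit 12) (.e (nat_lit 57354) (nat_lit 0) (.e (nat_lit 7270) (nat_lit 385) (.e (nat_lit 122906) (nat_lit 12) .nil)))))))) (.g (nat_lit 1) (.e (nat_lit 368178) (nat_lit 0) .nil) .nil)))) 
(.nd (nat_lit 9) 
(.lf (nat_lit 576821) (.g (nat_lit 3023) (.e (nat_lit 335987) (nat_lit 1) (.e (nat_lit 57927) (nat_lit 282) (.e (nat_lit 163903) (nat_lit 12) (.e (nat_lit 426546) (nat_lit 30) (.e (nat_lit 360466) (nat_lit 3) (.e (nat_lit 516194) (nat_lit 26) .nil)))))) (.g (nat_lit 1) (.e (nat_lit 367432) (nat_lit 0) .nil) .nil))) 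
(.lf (nat_lit 577333) (.g (nat_lit 5338) (.e (nat_lit 336019) (nat_lit 3) (.e (nat_lit 98373) (nat_lit 29) (.e (nat_lit 450588) (nat_lit 10) (.e (nat_lit 573475) (nat_lit 12) (.e (nat_lit 57348) (nat_lit 0) (.e (nat_lit 7266) (nat_lit 384) (.e (nat_lit 57409) (nat_lit 12) .nil))))))) (.g (nat_lit 1) (.e (nat_lit 368543) (nat_lit 0) .nil) .nil))))) (.nd (nat_lit 8) (.nd (nat_lit 9) 
(.lf (nat_lit 576693) (.g (nat_lit 2419) (.e (nat_lit 335986) (nat_lit 1) (.e (nat_lit 57688) (nat_lit 156) (.e (nat_lit 163902) (nat_lit 12) (.e (nat_lit 426432) (nat_lit 17) (.e (nat_lit 90176) (nat_lit 15) (.e (nat_lit 188423) (nat_lit 11) .nil)))))) (.g (nat_lit 1) (.e (nat_lit 367184) (nat_lit 0) .nil) .nil))) 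
(.lf (nat_lit 577205) (.g (nat_lit 3717) (.e (nat_lit 336018) (nat_lit 3) (.e (nat_lit 98372) (nat_lit 29) (.e (nat_lit 450588) (nat_lit 10) (.e (nat_lit 573475) (nat_lit 12) (.e (nat_lit 57347) (nat_lit 0) .nil))))) (.g (nat_lit 0) (.e (nat_lit 368376) (nat_lit 0) .nil) .nil)))) (.nd (nat_lit 9) 
(.lf (nat_lit 576949) (.g (nat_lit 2825) (.e (nat_lit 335995) (nat_lit 1) (.e (nat_lit 57688) (nat_lit 156) (.e (nat_lit 163936) (nat_lit 18) (.e (nat_lit 475179) (nat_lit 24) (.e (nat_lit 516176) (nat_lit 14) (.e (nat_lit 466950) (nat_lit 11) .nil)))))) (.g (nat_lit 1) (.e (nat_lit 367793) (nat_lit 0) .nil) .nil))) 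
(.lf (nat_lit 577461) (.g (nat_lit 2863) (.e (nat_lit 336024) (nat_lit 3) (.e (nat_lit 98384) (nat_lit 32) (.e (nat_lit 475199) (nat_lit 40) (.e (nat_lit 704590) (nat_lit 3) .nil)))) (.g (nat_lit 0) (.e (nat_lit 368777) (nat_lit 0) .nil) .nil)))))) (.nd (nat_lit 7) (.nd (nat_lit 8) (.nd (nat_lit 9) 
(.lf (nat_lit 576629) (.g (nat_lit 444) (.e (nat_lit 335893) (nat_lit 0) (.e (nat_lit 6718) (nat_lit 361) (.e (nat_lit 172128) (nat_lit 15) .nil))) (.g (nat_lit 0) (.e (nat_lit 366774) (nat_lit 0) .nil) .nil))) 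
(.lf (nat_lit 577141) (.g (nat_lit 3803) (.e (nat_lit 336013) (nat_lit 2) (.e (nat_lit 90165) (nat_lit 12) (.e (nat_lit 164219) (nat_lit 180) (.e (nat_lit 229646) (nat_lit 232) (.e (nat_lit 78) (nat_lit 0) (.e (nat_lit 3307) (nat_lit 202) (.e (nat_lit 573485) (nat_lit 13) (.e (nat_lit 65604) (nat_lit 9) .nil)))))))) (.g (nat_lit 1) (.e (nat_lit 368282) (nat_lit 0) .nil) .nil)))) (.nd (nat_lit 9) 
(.lf (nat_lit 576885) (.g (nat_lit 333) (.e (nat_lit 335988) (nat_lit 1) (.e (nat_lit 57927) (nat_lit 282) (.e (nat_lit 163905) (nat_lit 12) .nil))) (.g (nat_lit 0) (.e (nat_lit 367615) (nat_lit 0) .nil) .nil))) 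
(.lf (nat_lit 577397) (.g (nat_lit 2723) (.e (nat_lit 336021) (nat_lit 3) (.e (nat_lit 98333) (nat_lit 18) (.e (nat_lit 164179) (nat_lit 154) (.e (nat_lit 57378) (nat_lit 3) (.e (nat_lit 98340) (nat_lit 20) (.e (nat_lit 221214) (nat_lit 23) (.e (nat_lit 204861) (nat_lit 26) .nil))))))) (.g (nat_lit 1) (.e (nat_lit 368685) (nat_lit 0) .nil) .nil))))) (.nd (nat_lit 8) (.nd (nat_lit 9) 
(.lf (nat_lit 576757) (.g (nat_lit 1555) (.e (nat_lit 335986) (nat_lit 1) (.e (nat_lit 57849) (nat_lit 252) (.e (nat_lit 57379) (nat_lit 3) (.e (nat_lit 98334) (nat_lit 18) .nil)))) (.g (nat_lit 0) (.e (nat_lit 367267) (nat_lit 0) .nil) .nil))) 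
(.lf (nat_lit 577269) (.g (nat_lit 2900) (.e (nat_lit 336019) (nat_lit 3) (.e (nat_lit 98349) (nat_lit 24) (.e (nat_lit 409646) (nat_lit 18) (.e (nat_lit 303116) (nat_lit 2) (.e (nat_lit 196681) (nat_lit 17) (.e (nat_lit 131109) (nat_lit 9) .nil)))))) (.g (nat_lit 1) (.e (nat_lit 368463) (nat_lit 0) .nil) .nil)))) (.nd (nat_lit 9) 
(.lf (nat_lit 577013) (.g (nat_lit 1101) (.e (nat_lit 335997) (nat_lit 1) (.e (nat_lit 57872) (nat_lit 264) (.e (nat_lit 1209) (nat_lit 89) (.e (nat_lit 73781) (nat_lit 32) .nil)))) (.g (nat_lit 0) (.e (nat_lit 367976) (nat_lit 0) .nil) .nil))) 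
(.lf (nat_lit 577525) (.g (nat_lit 2080) (.e (nat_lit 336026) (nat_lit 3) (.e (nat_lit 98335) (nat_lit 18) (.e (nat_lit 164177) (nat_lit 154) (.e (nat_lit 57379) (nat_lit 3) (.e (nat_lit 98340) (nat_lit 20) .nil))))) (.g (nat_lit 0) (.e (nat_lit 368876) (nat_lit 0) .nil) .nil))))))))) (.nd (nat_lit 4) (.nd (nat_lit 5) (.nd (nat_lit 6) (.nd (nat_lit 7) (.nd (nat_lit 8) (.nd (nat_lit 9) 
(.lf (nat_lit 576525) (.g (nat_lit 3669) (.e (nat_lit 327699) (nat_lit 8) (.e (nat_lit 303119) (nat_lit 3) (.e (nat_lit 204845) (nat_lit 24) (.e (nat_lit 319490) (nat_lit 0) (.e (nat_lit 5664) (nat_lit 312) (.e (nat_lit 2679) (nat_lit 168) (.e (nat_lit 204849) (nat_lit 25) .nil))))))) (.g (nat_lit 1) (.e (nat_lit 366062) (nat_lit 0) .nil) .nil))) 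
(.lf (nat_lit 577037) (.g (nat_lit 1882) (.e (nat_lit 336001) (nat_lit 2) (.e (nat_lit 90170) (nat_lit 13) (.e (nat_lit 172106) (nat_lit 10) (.e (nat_lit 434244) (nat_lit 28) (.e (nat_lit 573474) (nat_lit 12) (.e (nat_lit 57356) (nat_lit 0) (.e (nat_lit 7273) (nat_lit 385) (.e (nat_lit 122906) (nat_lit 12) .nil)))))))) (.g (nat_lit 1) (.e (nat_lit 368097) (nat_lit 0) .nil) .nil)))) 
(.nd (nat_lit 9) 
(.lf (nat_lit 576781) (.g (nat_lit 2243) (.e (nat_lit 335986) (nat_lit 1) (.e (nat_lit 57927) (nat_lit 282) (.e (nat_lit 163874) (nat_lit 3) (.e (nat_lit 204877) (nat_lit 31) (.e (nat_lit 376840) (nat_lit 11) (.e (nat_lit 426525) (nat_lit 27) .nil)))))) (.g (nat_lit 1) (.e (nat_lit 367322) (nat_lit 0) .nil) .nil))) 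
(.lf (nat_lit 577293) (.g (nat_lit 2130) (.e (nat_lit 336019) (nat_lit 3) (.e (nat_lit 98350) (nat_lit 24) (.e (nat_lit 409649) (nat_lit 18) (.e (nat_lit 303111) (nat_lit 0) (.e (nat_lit 3146) (nat_lit 193) (.e (nat_lit 500089) (nat_lit 22) (.e (nat_lit 131105) (nat_lit 9) .nil))))))) (.g (nat_lit 1) (.e (nat_lit 368494) (nat_lit 0) .nil) .nil))))) (.nd (nat_lit 8) (.nd (nat_lit 9) 
(.lf (nat_lit 576653) (.g (nat_lit 1427) (.e (nat_lit 335895) (nat_lit 0) (.e (nat_lit 6724) (nat_lit 362) (.e (nat_lit 180271) (nat_lit 26) (.e (nat_lit 704738) (nat_lit 11) (.e (nat_lit 16440) (nat_lit 9) .nil))))) (.g (nat_lit 0) (.e (nat_lit 367025) (nat_lit 0) .nil) .nil))) 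
(.lf (nat_lit 577165) (.g (nat_lit 656) (.e (nat_lit 336015) (nat_lit 2) (.e (nat_lit 90176) (nat_lit 15) (.e (nat_lit 188450) (nat_lit 23) .nil))) (.g (nat_lit 0) (.e (nat_lit 368306) (nat_lit 0) .nil) .nil)))) (.nd (nat_lit 9) 
(.lf (nat_lit 576909) (.g (nat_lit 1647) (.e (nat_lit 335993) (nat_lit 1) (.e (nat_lit 57688) (nat_lit 156) (.e (nat_lit 163902) (nat_lit 12) (.e (nat_lit 426436) (nat_lit 18) (.e (nat_lit 98380) (nat_lit 31) .nil))))) (.g (nat_lit 0) (.e (nat_lit 367718) (nat_lit 0) .nil) .nil))) 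
(.lf (nat_lit 577421) (.g (nat_lit 1958) (.e (nat_lit 336023) (nat_lit 3) (.e (nat_lit 98350) (nat_lit 24) (.e (nat_lit 409646) (nat_lit 18) (.e (nat_lit 303119) (nat_lit 3) .nil)))) (.g (nat_lit 0) (.e (nat_lit 368726) (nat_lit 0) .nil) .nil)))))) (.nd (nat_lit 7) (.nd (nat_lit 8) (.nd (nat_lit 9) 
(.lf (nat_lit 576589) (.g (nat_lit 3195) (.e (nat_lit 327717) (nat_lit 17) (.e (nat_lit 294928) (nat_lit 2) (.e (nat_lit 90170) (nat_lit 13) (.e (nat_lit 172115) (nat_lit 10) (.e (nat_lit 434231) (nat_lit 23) (.e (nat_lit 532525) (nat_lit 8) .nil)))))) (.g (nat_lit 1) (.e (nat_lit 366430) (nat_lit 0) .nil) .nil))) 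
(.lf (nat_lit 577101) (.g (nat_lit 2571) (.e (nat_lit 336008) (nat_lit 2) (.e (nat_lit 90170) (nat_lit 13) (.e (nat_lit 172113) (nat_lit 10) (.e (nat_lit 434248) (nat_lit 28) (.e (nat_lit 573473) (nat_lit 12) (.e (nat_lit 57352) (nat_lit 0) (.e (nat_lit 7263) (nat_lit 384) (.e (nat_lit 57412) (nat_lit 12) .nil)))))))) (.g (nat_lit 1) (.e (nat_lit 368208) (nat_lit 0) .nil) .nil)))) 
(.nd (nat_lit 9) 
(.lf (nat_lit 576845) (.g (nat_lit 2312) (.e (nat_lit 335988) (nat_lit 1) (.e (nat_lit 57926) (nat_lit 282) (.e (nat_lit 163869) (nat_lit 2) (.e (nat_lit 196672) (nat_lit 15) (.e (nat_lit 81925) (nat_lit 11) (.e (nat_lit 426500) (nat_lit 27) .nil)))))) (.g (nat_lit 1) (.e (nat_lit 367520) (nat_lit 0) .nil) .nil))) 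
(.lf (nat_lit 577357) (.g (nat_lit 815) (.e (nat_lit 336020) (nat_lit 3) (.e (nat_lit 98342) (nat_lit 20) (.e (nat_lit 221214) (nat_lit 23) .nil))) (.g (nat_lit 0) (.e (nat_lit 368600) (nat_lit 0) .nil) .nil))))) (.nd (nat_lit 8) (.nd (nat_lit 9) 
(.lf (nat_lit 576717) (.g (nat_lit 3012) (.e (nat_lit 335986) (nat_lit 1) (.e (nat_lit 57692) (nat_lit 156) (.e (nat_lit 163938) (nat_lit 18) (.e (nat_lit 475179) (nat_lit 24) (.e (nat_lit 516176) (nat_lit 14) (.e (nat_lit 466954) (nat_lit 11) .nil)))))) (.g (nat_lit 1) (.e (nat_lit 367211) (nat_lit 0) .nil) .nil))) 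
(.lf (nat_lit 577229) (.g (nat_lit 2967) (.e (nat_lit 336019) (nat_lit 3) (.e (nat_lit 98341) (nat_lit 20) (.e (nat_lit 221214) (nat_lit 23) (.e (nat_lit 204829) (nat_lit 18) (.e (nat_lit 57931) (nat_lit 282) (.e (nat_lit 163873) (nat_lit 3) (.e (nat_lit 204853) (nat_lit 26) .nil))))))) (.g (nat_lit 1) (.e (nat_lit 368412) (nat_lit 0) .nil) .nil)))) (.nd (nat_lit 9) 
(.lf (nat_lit 576973) (.g (nat_lit 2573) (.e (nat_lit 335996) (nat_lit 1) (.e (nat_lit 57692) (nat_lit 156) (.e (nat_lit 163905) (nat_lit 12) (.e (nat_lit 426432) (nat_lit 17) (.e (nat_lit 90176) (nat_lit 15) (.e (nat_lit 188423) (nat_lit 11) .nil)))))) (.g (nat_lit 1) (.e (nat_lit 367850) (nat_lit 0) .nil) .nil))) 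
(.lf (nat_lit 577485) (.g (nat_lit 2641) (.e (nat_lit 336025) (nat_lit 3) (.e (nat_lit 98349) (nat_lit 24) (.e (nat_lit 409645) (nat_lit 18) (.e (nat_lit 303117) (nat_lit 2) (.e (nat_lit 196665) (nat_lit 13) .nil))))) (.g (nat_lit 0) (.e (nat_lit 368814) (nat_lit 0) .nil) .nil))))))) (.nd (nat_lit 6) (.nd (nat_lit 7) (.nd (nat_lit 8) (.nd (nat_lit 9) 
(.lf (nat_lit 576557) (.g (nat_lit 7799) (.e (nat_lit 327700) (nat_lit 8) (.e (nat_lit 303119) (nat_lit 3) (.e (nat_lit 204869) (nat_lit 29) (.e (nat_lit 360475) (nat_lit 8) (.e (nat_lit 557068) (nat_lit 9) (.e (nat_lit 220) (nat_lit 20) .nil)))))) (.g (nat_lit 1) (.e (nat_lit 366183) (nat_lit 0) .nil) .nil))) 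
(.lf (nat_lit 577069) (.g (nat_lit 2666) (.e (nat_lit 336004) (nat_lit 2) (.e (nat_lit 90130) (nat_lit 9) (.e (nat_lit 2830) (nat_lit 182) (.e (nat_lit 409649) (nat_lit 18) (.e (nat_lit 303119) (nat_lit 3) (.e (nat_lit 212736) (nat_lit 26) (.e (nat_lit 336158) (nat_lit 9) .nil))))))) (.g (nat_lit 1) (.e (nat_lit 368159) (nat_lit 0) .nil) .nil)))) (.nd (nat_lit 9) 
(.lf (nat_lit 576813) (.g (nat_lit 497) (.e (nat_lit 335987) (nat_lit 1) (.e (nat_lit 57927) (nat_lit 282) (.e (nat_lit 163869) (nat_lit 2) .nil))) (.g (nat_lit 0) (.e (nat_lit 367423) (nat_lit 0) .nil) .nil))) 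
(.lf (nat_lit 577325) (.g (nat_lit 4309) (.e (nat_lit 336019) (nat_lit 3) (.e (nat_lit 98373) (nat_lit 29) (.e (nat_lit 450588) (nat_lit 10) (.e (nat_lit 573453) (nat_lit 9) .nil)))) (.g (nat_lit 0) (.e (nat_lit 368535) (nat_lit 0) .nil) .nil))))) (.nd (nat_lit 8) (.nd (nat_lit 9) 
(.lf (nat_lit 576685) (.g (nat_lit 1611) (.e (nat_lit 335985) (nat_lit 1) (.e (nat_lit 57688) (nat_lit 156) (.e (nat_lit 163902) (nat_lit 12) (.e (nat_lit 426438) (nat_lit 18) .nil)))) (.g (nat_lit 0) (.e (nat_lit 367150) (nat_lit 0) .nil) .nil))) 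
(.lf (nat_lit 577197) (.g (nat_lit 2888) (.e (nat_lit 336018) (nat_lit 3) (.e (nat_lit 98350) (nat_lit 24) (.e (nat_lit 409649) (nat_lit 18) (.e (nat_lit 303116) (nat_lit 2) (.e (nat_lit 196681) (nat_lit 17) (.e (nat_lit 131109) (nat_lit 9) .nil)))))) (.g (nat_lit 1) (.e (nat_lit 368368) (nat_lit 0) .nil) .nil)))) (.nd (nat_lit 9) 
(.lf (nat_lit 576941) (.g (nat_lit 2751) (.e (nat_lit 335995) (nat_lit 1) (.e (nat_lit 57688) (nat_lit 156) (.e (nat_lit 163903) (nat_lit 12) (.e (nat_lit 426432) (nat_lit 17) (.e (nat_lit 90176) (nat_lit 15) (.e (nat_lit 188423) (nat_lit 11) .nil)))))) (.g (nat_lit 1) (.e (nat_lit 367784) (nat_lit 0) .nil) .nil))) 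
(.lf (nat_lit 577453) (.g (nat_lit 605) (.e (nat_lit 336024) (nat_lit 3) (.e (nat_lit 98350) (nat_lit 24) (.e (nat_lit 409616) (nat_lit 10) .nil))) (.g (nat_lit 0) (.e (nat_lit 368765) (nat_lit 0) .nil) .nil)))))) (.nd (nat_lit 7) (.nd (nat_lit 8) (.nd (nat_lit 9) 
(.lf (nat_lit 576621) (.g (nat_lit 2169) (.e (nat_lit 335876) (nat_lit 0) (.e (nat_lit 6713) (nat_lit 360) (.e (nat_lit 163962) (nat_lit 25) (.e (nat_lit 532550) (nat_lit 12) (.e (nat_lit 360474) (nat_lit 8) (.e (nat_lit 557072) (nat_lit 9) (.e (nat_lit 7936) (nat_lit 21) .nil))))))) (.g (nat_lit 1) (.e (nat_lit 366626) (nat_lit 0) .nil) .nil))) 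
(.lf (nat_lit 577133) (.g (nat_lit 4486) (.e (nat_lit 336013) (nat_lit 2) (.e (nat_lit 90134) (nat_lit 9) (.e (nat_lit 3025) (nat_lit 187) (.e (nat_lit 450588) (nat_lit 10) (.e (nat_lit 573474) (nat_lit 12) (.e (nat_lit 57572) (nat_lit 54) (.e (nat_lit 770058) (nat_lit 5) (.e (nat_lit 1449) (nat_lit 108) .nil)))))))) (.g (nat_lit 1) (.e (nat_lit 368260) (nat_lit 0) .nil) .nil)))) (.nd (nat_lit 9) 
(.lf (nat_lit 576877) (.g (nat_lit 2569) (.e (nat_lit 335988) (nat_lit 1) (.e (nat_lit 57927) (nat_lit 282) (.e (nat_lit 163874) (nat_lit 3) (.e (nat_lit 204861) (nat_lit 26) (.e (nat_lit 336076) (nat_lit 9) (.e (nat_lit 336377) (nat_lit 27) (.e (nat_lit 426524) (nat_lit 27) .nil))))))) (.g (nat_lit 1) (.e (nat_lit 367601) (nat_lit 0) .nil) .nil))) 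
(.lf (nat_lit 577389) (.g (nat_lit 2724) (.e (nat_lit 336020) (nat_lit 3) (.e (nat_lit 98367) (nat_lit 27) (.e (nat_lit 434272) (nat_lit 38) (.e (nat_lit 655375) (nat_lit 3) .nil)))) (.g (nat_lit 0) (.e (nat_lit 368641) (nat_lit 0) .nil) .nil))))) (.nd (nat_lit 8) (.nd (nat_lit 9) 
(.lf (nat_lit 576749) (.g (nat_lit 1818) (.e (nat_lit 335986) (nat_lit 1) (.e (nat_lit 57849) (nat_lit 252) (.e (nat_lit 57375) (nat_lit 2) (.e (nat_lit 90157) (nat_lit 11) (.e (nat_lit 24660) (nat_lit 13) .nil))))) (.g (nat_lit 0) (.e (nat_lit 367258) (nat_lit 0) .nil) .nil))) 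
(.lf (nat_lit 577261) (.g (nat_lit 3498) (.e (nat_lit 336019) (nat_lit 3) (.e (nat_lit 98342) (nat_lit 20) (.e (nat_lit 221215) (nat_lit 23) (.e (nat_lit 204830) (nat_lit 18) (.e (nat_lit 57929) (nat_lit 282) (.e (nat_lit 163873) (nat_lit 3) (.e (nat_lit 204853) (nat_lit 26) .nil))))))) (.g (nat_lit 1) (.e (nat_lit 368454) (nat_lit 0) .nil) .nil)))) (.nd (nat_lit 9) 
(.lf (nat_lit 577005) (.g (nat_lit 1882) (.e (nat_lit 335997) (nat_lit 1) (.e (nat_lit 57857) (nat_lit 254) (.e (nat_lit 163908) (nat_lit 12) (.e (nat_lit 426022) (nat_lit 0) (.e (nat_lit 7107) (nat_lit 380) (.e (nat_lit 164281) (nat_lit 222) (.e (nat_lit 57884) (nat_lit 270) (.e (nat_lit 1413) (nat_lit 108) .nil)))))))) (.g (nat_lit 1) (.e (nat_lit 367945) (nat_lit 0) .nil) .nil))) 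
(.lf (nat_lit 577517) (.g (nat_lit 2970) (.e (nat_lit 336026) (nat_lit 3) (.e (nat_lit 98333) (nat_lit 18) (.e (nat_lit 164182) (nat_lit 154) (.e (nat_lit 57379) (nat_lit 3) (.e (nat_lit 98340) (nat_lit 20) .nil))))) (.g (nat_lit 0) (.e (nat_lit 368863) (nat_lit 0) .nil) .nil)))))))) (.nd (nat_lit 5) (.nd (nat_lit 6) (.nd (nat_lit 7) (.nd (nat_lit 8) (.nd (nat_lit 9) 
(.lf (nat_lit 576541) (.g (nat_lit 4645) (.e (nat_lit 327699) (nat_lit 8) (.e (nat_lit 303119) (nat_lit 3) (.e (nat_lit 204869) (nat_lit 29) (.e (nat_lit 360475) (nat_lit 8) (.e (nat_lit 557065) (nat_lit 9) (.e (nat_lit 223) (nat_lit 20) .nil)))))) (.g (nat_lit 1) (.e (nat_lit 366087) (nat_lit 0) .nil) .nil))) 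
(.lf (nat_lit 577053) (.g (nat_lit 2233) (.e (nat_lit 336001) (nat_lit 2) (.e (nat_lit 90170) (nat_lit 13) (.e (nat_lit 172113) (nat_lit 10) (.e (nat_lit 434248) (nat_lit 28) (.e (nat_lit 573475) (nat_lit 12) (.e (nat_lit 57344) (nat_lit 0) (.e (nat_lit 7261) (nat_lit 384) (.e (nat_lit 57412) (nat_lit 12) .nil)))))))) (.g (nat_lit 1) (.e (nat_lit 368113) (nat_lit 0) .nil) .nil)))) 
(.nd (nat_lit 9) 
(.lf (nat_lit 576797) (.g (nat_lit 1961) (.e (nat_lit 335987) (nat_lit 1) (.e (nat_lit 57691) (nat_lit 156) (.e (nat_lit 163907) (nat_lit 12) (.e (nat_lit 426438) (nat_lit 18) (.e (nat_lit 98370) (nat_lit 28) (.e (nat_lit 442388) (nat_lit 11) .nil)))))) (.g (nat_lit 1) (.e (nat_lit 367358) (nat_lit 0) .nil) .nil))) 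
(.lf (nat_lit 577309) (.g (nat_lit 3809) (.e (nat_lit 336019) (nat_lit 3) (.e (nat_lit 98372) (nat_lit 29) (.e (nat_lit 450588) (nat_lit 10) (.e (nat_lit 573473) (nat_lit 12) (.e (nat_lit 57347) (nat_lit 0) .nil))))) (.g (nat_lit 0) (.e (nat_lit 368519) (nat_lit 0) .nil) .nil))))) (.nd (nat_lit 8) (.nd (nat_lit 9) 
(.lf (nat_lit 576669) (.g (nat_lit 4460) (.e (nat_lit 335923) (nat_lit 0) (.e (nat_lit 1788) (nat_lit 119) (.e (nat_lit 516139) (nat_lit 7) (.e (nat_lit 409649) (nat_lit 18) (.e (nat_lit 303118) (nat_lit 3) (.e (nat_lit 204855) (nat_lit 26) (.e (nat_lit 336097) (nat_lit 9) .nil))))))) (.g (nat_lit 1) (.e (nat_lit 367080) (nat_lit 0) .nil) .nil))) 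
(.lf (nat_lit 577181) (.g (nat_lit 2703) (.e (nat_lit 336017) (nat_lit 3) (.e (nat_lit 98342) (nat_lit 20) (.e (nat_lit 221215) (nat_lit 23) (.e (nat_lit 204830) (nat_lit 18) (.e (nat_lit 57927) (nat_lit 282) (.e (nat_lit 163874) (nat_lit 3) (.e (nat_lit 204859) (nat_lit 26) .nil))))))) (.g (nat_lit 1) (.e (nat_lit 368348) (nat_lit 0) .nil) .nil)))) (.nd (nat_lit 9) 
(.lf (nat_lit 576925) (.g (nat_lit 2300) (.e (nat_lit 335994) (nat_lit 1) (.e (nat_lit 57692) (nat_lit 156) (.e (nat_lit 163905) (nat_lit 12) (.e (nat_lit 426438) (nat_lit 18) (.e (nat_lit 98380) (nat_lit 31) (.e (nat_lit 466954) (nat_lit 11) .nil)))))) (.g (nat_lit 1) (.e (nat_lit 367758) (nat_lit 0) .nil) .nil))) 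
(.lf (nat_lit 577437) (.g (nat_lit 4514) (.e (nat_lit 336023) (nat_lit 3) (.e (nat_lit 98373) (nat_lit 29) (.e (nat_lit 450588) (nat_lit 10) (.e (nat_lit 573475) (nat_lit 12) (.e (nat_lit 57348) (nat_lit 0) (.e (nat_lit 7265) (nat_lit 384) (.e (nat_lit 57412) (nat_lit 12) .nil))))))) (.g (nat_lit 1) (.e (nat_lit 368744) (nat_lit 0) .nil) .nil)))))) 
(.nd (nat_lit 7) (.nd (nat_lit 8) (.nd (nat_lit 9) 
(.lf (nat_lit 576605) (.g (nat_lit 3067) (.e (nat_lit 335874) (nat_lit 0) (.e (nat_lit 6711) (nat_lit 360) (.e (nat_lit 163962) (nat_lit 25) (.e (nat_lit 532550) (nat_lit 12) (.e (nat_lit 360475) (nat_lit 8) (.e (nat_lit 557073) (nat_lit 9) (.e (nat_lit 288) (nat_lit 21) .nil))))))) (.g (nat_lit 1) (.e (nat_lit 366529) (nat_lit 0) .nil) .nil))) 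
(.lf (nat_lit 577117) (.g (nat_lit 1719) (.e (nat_lit 336011) (nat_lit 2) (.e (nat_lit 90160) (nat_lit 11) (.e (nat_lit 24604) (nat_lit 2) (.e (nat_lit 90158) (nat_lit 11) .nil)))) (.g (nat_lit 0) (.e (nat_lit 368225) (nat_lit 0) .nil) .nil)))) (.nd (nat_lit 9) 
(.lf (nat_lit 576861) (.g (nat_lit 377) (.e (nat_lit 335988) (nat_lit 1) (.e (nat_lit 57926) (nat_lit 282) (.e (nat_lit 163943) (nat_lit 19) .nil))) (.g (nat_lit 0) (.e (nat_lit 367558) (nat_lit 0) .nil) .nil))) 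
(.lf (nat_lit 577373) (.g (nat_lit 3047) (.e (nat_lit 336020) (nat_lit 3) (.e (nat_lit 98350) (nat_lit 24) (.e (nat_lit 409646) (nat_lit 18) (.e (nat_lit 303117) (nat_lit 2) (.e (nat_lit 196665) (nat_lit 13) .nil))))) (.g (nat_lit 0) (.e (nat_lit 368623) (nat_lit 0) .nil) .nil))))) (.nd (nat_lit 8) (.nd (nat_lit 9) 
(.lf (nat_lit 576733) (.g (nat_lit 2331) (.e (nat_lit 335986) (nat_lit 1) (.e (nat_lit 57847) (nat_lit 252) (.e (nat_lit 57375) (nat_lit 2) (.e (nat_lit 90160) (nat_lit 11) (.e (nat_lit 24624) (nat_lit 9) (.e (nat_lit 336377) (nat_lit 27) (.e (nat_lit 426522) (nat_lit 27) .nil))))))) (.g (nat_lit 1) (.e (nat_lit 367237) (nat_lit 0) .nil) .nil))) 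
(.lf (nat_lit 577245) (.g (nat_lit 3706) (.e (nat_lit 336019) (nat_lit 3) (.e (nat_lit 98342) (nat_lit 20) (.e (nat_lit 221213) (nat_lit 23) (.e (nat_lit 204829) (nat_lit 18) (.e (nat_lit 57927) (nat_lit 282) (.e (nat_lit 163873) (nat_lit 3) (.e (nat_lit 204853) (nat_lit 26) .nil))))))) (.g (nat_lit 1) (.e (nat_lit 368431) (nat_lit 0) .nil) .nil)))) (.nd (nat_lit 9) 
(.lf (nat_lit 576989) (.g (nat_lit 2831) (.e (nat_lit 335996) (nat_lit 1) (.e (nat_lit 57931) (nat_lit 282) (.e (nat_lit 163866) (nat_lit 2) (.e (nat_lit 196666) (nat_lit 13) (.e (nat_lit 65625) (nat_lit 13) (.e (nat_lit 393225) (nat_lit 9) .nil)))))) (.g (nat_lit 1) (.e (nat_lit 367897) (nat_lit 0) .nil) .nil))) 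
(.lf (nat_lit 577501) (.g (nat_lit 1881) (.e (nat_lit 336025) (nat_lit 3) (.e (nat_lit 98350) (nat_lit 24) (.e (nat_lit 409648) (nat_lit 18) (.e (nat_lit 303118) (nat_lit 3) .nil)))) (.g (nat_lit 0) (.e (nat_lit 368836) (nat_lit 0) .nil) .nil))))))) (.nd (nat_lit 6) (.nd (nat_lit 7) (.nd (nat_lit 8) (.nd (nat_lit 9) 
(.lf (nat_lit 576573) (.g (nat_lit 4105) (.e (nat_lit 327700) (nat_lit 8) (.e (nat_lit 303145) (nat_lit 13) (.e (nat_lit 483413) (nat_lit 27) (.e (nat_lit 409344) (nat_lit 9) .nil)))) (.g (nat_lit 0) (.e (nat_lit 366288) (nat_lit 0) .nil) .nil))) 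
(.lf (nat_lit 577085) (.g (nat_lit 3303) (.e (nat_lit 336008) (nat_lit 2) (.e (nat_lit 90170) (nat_lit 13) (.e (nat_lit 172113) (nat_lit 10) (.e (nat_lit 434242) (nat_lit 28) (.e (nat_lit 573474) (nat_lit 12) (.e (nat_lit 57347) (nat_lit 0) (.e (nat_lit 7261) (nat_lit 384) (.e (nat_lit 57412) (nat_lit 12) .nil)))))))) (.g (nat_lit 1) (.e (nat_lit 368192) (nat_lit 0) .nil) .nil)))) 
(.nd (nat_lit 9) 
(.lf (nat_lit 576829) (.g (nat_lit 2528) (.e (nat_lit 335987) (nat_lit 1) (.e (nat_lit 57927) (nat_lit 282) (.e (nat_lit 163907) (nat_lit 12) (.e (nat_lit 426555) (nat_lit 32) (.e (nat_lit 376869) (nat_lit 23) (.e (nat_lit 98313) (nat_lit 9) .nil)))))) (.g (nat_lit 1) (.e (nat_lit 367440) (nat_lit 0) .nil) .nil))) 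
(.lf (nat_lit 577341) (.g (nat_lit 1826) (.e (nat_lit 336019) (nat_lit 3) (.e (nat_lit 98389) (nat_lit 33) (.e (nat_lit 491560) (nat_lit 10) (.e (nat_lit 344111) (nat_lit 19) .nil)))) (.g (nat_lit 0) (.e (nat_lit 368556) (nat_lit 0) .nil) .nil))))) (.nd (nat_lit 8) (.nd (nat_lit 9) 
(.lf (nat_lit 576701) (.g (nat_lit 3121) (.e (nat_lit 335986) (nat_lit 1) (.e (nat_lit 57688) (nat_lit 156) (.e (nat_lit 163936) (nat_lit 18) (.e (nat_lit 475177) (nat_lit 24) (.e (nat_lit 516176) (nat_lit 14) (.e (nat_lit 466954) (nat_lit 11) .nil)))))) (.g (nat_lit 1) (.e (nat_lit 367195) (nat_lit 0) .nil) .nil))) 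
(.lf (nat_lit 577213) (.g (nat_lit 1237) (.e (nat_lit 336019) (nat_lit 3) (.e (nat_lit 106240) (nat_lit 10) (.e (nat_lit 344161) (nat_lit 37) (.e (nat_lit 647183) (nat_lit 4) (.e (nat_lit 172147) (nat_lit 27) (.e (nat_lit 336087) (nat_lit 9) .nil)))))) (.g (nat_lit 1) (.e (nat_lit 368393) (nat_lit 0) .nil) .nil)))) (.nd (nat_lit 9) 
(.lf (nat_lit 576957) (.g (nat_lit 3139) (.e (nat_lit 335995) (nat_lit 1) (.e (nat_lit 57929) (nat_lit 282) (.e (nat_lit 163869) (nat_lit 2) (.e (nat_lit 196674) (nat_lit 15) (.e (nat_lit 81925) (nat_lit 11) (.e (nat_lit 426500) (nat_lit 27) .nil)))))) (.g (nat_lit 1) (.e (nat_lit 367816) (nat_lit 0) .nil) .nil))) 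
(.lf (nat_lit 577469) (.g (nat_lit 2591) (.e (nat_lit 336025) (nat_lit 3) (.e (nat_lit 98333) (nat_lit 18) (.e (nat_lit 164182) (nat_lit 154) (.e (nat_lit 57378) (nat_lit 3) (.e (nat_lit 98341) (nat_lit 20) .nil))))) (.g (nat_lit 0) (.e (nat_lit 368790) (nat_lit 0) .nil) .nil)))))) (.nd (nat_lit 7) (.nd (nat_lit 8) (.nd (nat_lit 9) 
(.lf (nat_lit 576637) (.g (nat_lit 273) (.e (nat_lit 335894) (nat_lit 0) (.e (nat_lit 6722) (nat_lit 362) (.e (nat_lit 180269) (nat_lit 25) .nil))) (.g (nat_lit 0) (.e (nat_lit 366921) (nat_lit 0) .nil) .nil))) 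
(.lf (nat_lit 577149) (.g (nat_lit 1002) (.e (nat_lit 336013) (nat_lit 2) (.e (nat_lit 90170) (nat_lit 13) (.e (nat_lit 172052) (nat_lit 0) .nil))) (.g (nat_lit 0) (.e (nat_lit 368290) (nat_lit 0) .nil) .nil)))) (.nd (nat_lit 9) 
(.lf (nat_lit 576893) (.g (nat_lit 3330) (.e (nat_lit 335988) (nat_lit 1) (.e (nat_lit 57927) (nat_lit 282) (.e (nat_lit 163941) (nat_lit 19) (.e (nat_lit 483393) (nat_lit 23) (.e (nat_lit 336021) (nat_lit 3) (.e (nat_lit 98317) (nat_lit 9) .nil)))))) (.g (nat_lit 1) (.e (nat_lit 367627) (nat_lit 0) .nil) .nil))) 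
(.lf (nat_lit 577405) (.g (nat_lit 2931) (.e (nat_lit 336022) (nat_lit 3) (.e (nat_lit 98350) (nat_lit 24) (.e (nat_lit 409648) (nat_lit 18) (.e (nat_lit 303118) (nat_lit 3) (.e (nat_lit 204855) (nat_lit 26) .nil))))) (.g (nat_lit 0) (.e (nat_lit 368705) (nat_lit 0) .nil) .nil))))) (.nd (nat_lit 8) (.nd (nat_lit 9) 
(.lf (nat_lit 576765) (.g (nat_lit 470) (.e (nat_lit 335986) (nat_lit 1) (.e (nat_lit 57926) (nat_lit 282) (.e (nat_lit 163872) (nat_lit 3) .nil))) (.g (nat_lit 0) (.e (nat_lit 367300) (nat_lit 0) .nil) .nil))) 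
(.lf (nat_lit 577277) (.g (nat_lit 2264) (.e (nat_lit 336019) (nat_lit 3) (.e (nat_lit 98350) (nat_lit 24) (.e (nat_lit 409644) (nat_lit 18) (.e (nat_lit 303119) (nat_lit 3) (.e (nat_lit 204861) (nat_lit 26) .nil))))) (.g (nat_lit 0) (.e (nat_lit 368476) (nat_lit 0) .nil) .nil)))) (.nd (nat_lit 9) 
(.lf (nat_lit 577021) (.g (nat_lit 1352) (.e (nat_lit 343808) (nat_lit 1) (.e (nat_lit 57927) (nat_lit 282) (.e (nat_lit 163875) (nat_lit 3) (.e (nat_lit 204850) (nat_lit 26) .nil)))) (.g (nat_lit 0) (.e (nat_lit 368059) (nat_lit 0) .nil) .nil))) 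
(.lf (nat_lit 577533) (.g (nat_lit 2582) (.e (nat_lit 336026) (nat_lit 3) (.e (nat_lit 98335) (nat_lit 18) (.e (nat_lit 164183) (nat_lit 154) (.e (nat_lit 57378) (nat_lit 3) (.e (nat_lit 98340) (nat_lit 20) .nil))))) (.g (nat_lit 0) (.e (nat_lit 368903) (nat_lit 0) .nil) .nil))))))))))) 
(.nd (nat_lit 2) (.nd (nat_lit 3) (.nd (nat_lit 4) (.nd (nat_lit 5) (.nd (nat_lit 6) 
(.nd (nat_lit 7) (.nd (nat_lit 8) (.nd (nat_lit 9) 
(.lf (nat_lit 576515) (.g (nat_lit 2093) (.e (nat_lit 327699) (nat_lit 8) (.e (nat_lit 303118) (nat_lit 3) (.e (nat_lit 204846) (nat_lit 24) (.e (nat_lit 319491) (nat_lit 0) (.e (nat_lit 5761) (nat_lit 315) .nil))))) (.g (nat_lit 0) (.e (nat_lit 366046) (nat_lit 0) .nil) .nil))) 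
(.lf (nat_lit 577027) (.g (nat_lit 3590) (.e (nat_lit 336001) (nat_lit 2) (.e (nat_lit 90170) (nat_lit 13) (.e (nat_lit 172106) (nat_lit 10) (.e (nat_lit 434244) (nat_lit 28) (.e (nat_lit 573474) (nat_lit 12) (.e (nat_lit 57352) (nat_lit 0) (.e (nat_lit 7261) (nat_lit 384) (.e (nat_lit 57412) (nat_lit 12) .nil)))))))) (.g (nat_lit 1) (.e (nat_lit 368087) (nat_lit 0) .nil) .nil)))) 
(.nd (nat_lit 9) 
(.lf (nat_lit 576771) (.g (nat_lit 1813) (.e (nat_lit 335986) (nat_lit 1) (.e (nat_lit 57927) (nat_lit 282) (.e (nat_lit 163869) (nat_lit 2) (.e (nat_lit 196672) (nat_lit 15) (.e (nat_lit 89856) (nat_lit 11) (.e (nat_lit 426523) (nat_lit 27) .nil)))))) (.g (nat_lit 1) (.e (nat_lit 367312) (nat_lit 0) .nil) .nil))) 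
(.lf (nat_lit 577283) (.g (nat_lit 2295) (.e (nat_lit 336019) (nat_lit 3) (.e (nat_lit 98350) (nat_lit 24) (.e (nat_lit 409646) (nat_lit 18) (.e (nat_lit 303119) (nat_lit 3) (.e (nat_lit 204855) (nat_lit 26) .nil))))) (.g (nat_lit 0) (.e (nat_lit 368482) (nat_lit 0) .nil) .nil))))) (.nd (nat_lit 8) (.nd (nat_lit 9) 
(.lf (nat_lit 576643) (.g (nat_lit 2254) (.e (nat_lit 335894) (nat_lit 0) (.e (nat_lit 6724) (nat_lit 362) (.e (nat_lit 180227) (nat_lit 0) (.e (nat_lit 6420) (nat_lit 341) (.e (nat_lit 163843) (nat_lit 0) (.e (nat_lit 7936) (nat_lit 392) (.e (nat_lit 172150) (nat_lit 27) .nil))))))) (.g (nat_lit 1) (.e (nat_lit 366943) (nat_lit 0) .nil) .nil))) 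
(.lf (nat_lit 577155) (.g (nat_lit 4566) (.e (nat_lit 336013) (nat_lit 2) (.e (nat_lit 90170) (nat_lit 13) (.e (nat_lit 172113) (nat_lit 10) (.e (nat_lit 434242) (nat_lit 28) (.e (nat_lit 573474) (nat_lit 12) (.e (nat_lit 57569) (nat_lit 53) (.e (nat_lit 761866) (nat_lit 5) (.e (nat_lit 1454) (nat_lit 108) .nil)))))))) (.g (nat_lit 1) (.e (nat_lit 368296) (nat_lit 0) .nil) .nil)))) 
(.nd (nat_lit 9) 
(.lf (nat_lit 576899) (.g (nat_lit 2837) (.e (nat_lit 335988) (nat_lit 1) (.e (nat_lit 57931) (nat_lit 282) (.e (nat_lit 163869) (nat_lit 2) (.e (nat_lit 196672) (nat_lit 15) (.e (nat_lit 89856) (nat_lit 11) (.e (nat_lit 426523) (nat_lit 27) .nil)))))) (.g (nat_lit 1) (.e (nat_lit 367650) (nat_lit 0) .nil) .nil))) 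
(.lf (nat_lit 577411) (.g (nat_lit 1527) (.e (nat_lit 336022) (nat_lit 3) (.e (nat_lit 98372) (nat_lit 29) (.e (nat_lit 450586) (nat_lit 10) (.e (nat_lit 573475) (nat_lit 12) .nil)))) (.g (nat_lit 0) (.e (nat_lit 368712) (nat_lit 0) .nil) .nil)))))) (.nd (nat_lit 7) (.nd (nat_lit 8) (.nd (nat_lit 9) 
(.lf (nat_lit 576579) (.g (nat_lit 3823) (.e (nat_lit 327715) (nat_lit 16) (.e (nat_lit 286733) (nat_lit 2) (.e (nat_lit 90177) (nat_lit 15) (.e (nat_lit 188452) (nat_lit 23) (.e (nat_lit 204848) (nat_lit 25) .nil))))) (.g (nat_lit 1) (.e (nat_lit 366387) (nat_lit 0) .nil) .nil))) 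
(.lf (nat_lit 577091) (.g (nat_lit 3406) (.e (nat_lit 336008) (nat_lit 2) (.e (nat_lit 90170) (nat_lit 13) (.e (nat_lit 172113) (nat_lit 10) (.e (nat_lit 434245) (nat_lit 28) (.e (nat_lit 573474) (nat_lit 12) (.e (nat_lit 57348) (nat_lit 0) (.e (nat_lit 7265) (nat_lit 384) (.e (nat_lit 57412) (nat_lit 12) .nil)))))))) (.g (nat_lit 1) (.e (nat_lit 368198) (nat_lit 0) .nil) .nil)))) 
(.nd (nat_lit 9) 
(.lf (nat_lit 576835) (.g (nat_lit 4036) (.e (nat_lit 335988) (nat_lit 1) (.e (nat_lit 57692) (nat_lit 156) (.e (nat_lit 163907) (nat_lit 12) (.e (nat_lit 426428) (nat_lit 17) (.e (nat_lit 90178) (nat_lit 15) (.e (nat_lit 188421) (nat_lit 11) .nil)))))) (.g (nat_lit 1) (.e (nat_lit 367456) (nat_lit 0) .nil) .nil))) 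
(.lf (nat_lit 577347) (.g (nat_lit 1641) (.e (nat_lit 336020) (nat_lit 3) (.e (nat_lit 98334) (nat_lit 18) (.e (nat_lit 164182) (nat_lit 154) (.e (nat_lit 57378) (nat_lit 3) .nil)))) (.g (nat_lit 0) (.e (nat_lit 368577) (nat_lit 0) .nil) .nil))))) (.nd (nat_lit 8) (.nd (nat_lit 9) 
(.lf (nat_lit 576707) (.g (nat_lit 2733) (.e (nat_lit 335986) (nat_lit 1) (.e (nat_lit 57691) (nat_lit 156) (.e (nat_lit 163907) (nat_lit 12) (.e (nat_lit 426432) (nat_lit 17) (.e (nat_lit 90176) (nat_lit 15) (.e (nat_lit 188423) (nat_lit 11) .nil)))))) (.g (nat_lit 1) (.e (nat_lit 367201) (nat_lit 0) .nil) .nil))) 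
(.lf (nat_lit 577219) (.g (nat_lit 786) (.e (nat_lit 336019) (nat_lit 3) (.e (nat_lit 98333) (nat_lit 18) (.e (nat_lit 164243) (nat_lit 195) .nil))) (.g (nat_lit 0) (.e (nat_lit 368401) (nat_lit 0) .nil) .nil)))) (.nd (nat_lit 9) 
(.lf (nat_lit 576963) (.g (nat_lit 3497) (.e (nat_lit 335995) (nat_lit 1) (.e (nat_lit 57931) (nat_lit 282) (.e (nat_lit 163873) (nat_lit 3) (.e (nat_lit 204866) (nat_lit 28) (.e (nat_lit 352277) (nat_lit 11) (.e (nat_lit 426500) (nat_lit 27) .nil)))))) (.g (nat_lit 1) (.e (nat_lit 367829) (nat_lit 0) .nil) .nil))) 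
(.lf (nat_lit 577475) (.g (nat_lit 3204) (.e (nat_lit 336025) (nat_lit 3) (.e (nat_lit 98333) (nat_lit 18) (.e (nat_lit 164183) (nat_lit 154) (.e (nat_lit 57379) (nat_lit 3) (.e (nat_lit 98340) (nat_lit 20) (.e (nat_lit 221215) (nat_lit 23) (.e (nat_lit 204861) (nat_lit 26) .nil))))))) (.g (nat_lit 1) (.e (nat_lit 368800) (nat_lit 0) .nil) .nil))))))) 
(.nd (nat_lit 6) (.nd (nat_lit 7) (.nd (nat_lit 8) (.nd (nat_lit 9) 
(.lf (nat_lit 576547) (.g (nat_lit 2702) (.e (nat_lit 327700) (nat_lit 8) (.e (nat_lit 303118) (nat_lit 3) (.e (nat_lit 204868) (nat_lit 29) (.e (nat_lit 360475) (nat_lit 8) (.e (nat_lit 557068) (nat_lit 9) .nil))))) (.g (nat_lit 0) (.e (nat_lit 366165) (nat_lit 0) .nil) .nil))) 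
(.lf (nat_lit 577059) (.g (nat_lit 2766) (.e (nat_lit 336001) (nat_lit 2) (.e (nat_lit 90170) (nat_lit 13) (.e (nat_lit 172113) (nat_lit 10) (.e (nat_lit 434248) (nat_lit 28) (.e (nat_lit 573475) (nat_lit 12) (.e (nat_lit 57354) (nat_lit 0) (.e (nat_lit 7270) (nat_lit 385) (.e (nat_lit 122903) (nat_lit 12) .nil)))))))) (.g (nat_lit 1) (.e (nat_lit 368119) (nat_lit 0) .nil) .nil)))) 
(.nd (nat_lit 9) 
(.lf (nat_lit 576803) (.g (nat_lit 1322) (.e (nat_lit 335987) (nat_lit 1) (.e (nat_lit 57854) (nat_lit 252) (.e (nat_lit 57378) (nat_lit 3) (.e (nat_lit 98334) (nat_lit 18) .nil)))) (.g (nat_lit 0) (.e (nat_lit 367389) (nat_lit 0) .nil) .nil))) 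
(.lf (nat_lit 577315) (.g (nat_lit 4411) (.e (nat_lit 336019) (nat_lit 3) (.e (nat_lit 98372) (nat_lit 29) (.e (nat_lit 450588) (nat_lit 10) (.e (nat_lit 573475) (nat_lit 12) (.e (nat_lit 57347) (nat_lit 0) (.e (nat_lit 7266) (nat_lit 384) (.e (nat_lit 57409) (nat_lit 12) .nil))))))) (.g (nat_lit 1) (.e (nat_lit 368525) (nat_lit 0) .nil) .nil))))) (.nd (nat_lit 8) (.nd (nat_lit 9) 
(.lf (nat_lit 576675) (.g (nat_lit 2428) (.e (nat_lit 335938) (nat_lit 0) (.e (nat_lit 1788) (nat_lit 119) (.e (nat_lit 516139) (nat_lit 7) (.e (nat_lit 409649) (nat_lit 18) (.e (nat_lit 303117) (nat_lit 2) .nil))))) (.g (nat_lit 0) (.e (nat_lit 367134) (nat_lit 0) .nil) .nil))) 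
(.lf (nat_lit 577187) (.g (nat_lit 1834) (.e (nat_lit 336017) (nat_lit 3) (.e (nat_lit 98365) (nat_lit 26) (.e (nat_lit 426306) (nat_lit 12) (.e (nat_lit 475177) (nat_lit 24) .nil)))) (.g (nat_lit 0) (.e (nat_lit 368355) (nat_lit 0) .nil) .nil)))) (.nd (nat_lit 9) 
(.lf (nat_lit 576931) (.g (nat_lit 1718) (.e (nat_lit 335994) (nat_lit 1) (.e (nat_lit 57931) (nat_lit 282) (.e (nat_lit 163943) (nat_lit 19) (.e (nat_lit 483399) (nat_lit 25) (.e (nat_lit 368676) (nat_lit 21) .nil))))) (.g (nat_lit 0) (.e (nat_lit 367773) (nat_lit 0) .nil) .nil))) 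
(.lf (nat_lit 577443) (.g (nat_lit 2453) (.e (nat_lit 336023) (nat_lit 3) (.e (nat_lit 98384) (nat_lit 32) (.e (nat_lit 475199) (nat_lit 40) (.e (nat_lit 704590) (nat_lit 3) .nil)))) (.g (nat_lit 0) (.e (nat_lit 368750) (nat_lit 0) .nil) .nil)))))) (.nd (nat_lit 7) (.nd (nat_lit 8) (.nd (nat_lit 9) 
(.lf (nat_lit 576611) (.g (nat_lit 2901) (.e (nat_lit 335874) (nat_lit 0) (.e (nat_lit 6713) (nat_lit 360) (.e (nat_lit 163962) (nat_lit 25) (.e (nat_lit 532550) (nat_lit 12) (.e (nat_lit 360475) (nat_lit 8) (.e (nat_lit 557073) (nat_lit 9) (.e (nat_lit 288) (nat_lit 21) .nil))))))) (.g (nat_lit 1) (.e (nat_lit 366541) (nat_lit 0) .nil) .nil))) 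
(.lf (nat_lit 577123) (.g (nat_lit 426) (.e (nat_lit 336013) (nat_lit 2) (.e (nat_lit 90134) (nat_lit 9) (.e (nat_lit 2822) (nat_lit 182) .nil))) (.g (nat_lit 0) (.e (nat_lit 368247) (nat_lit 0) .nil) .nil)))) (.nd (nat_lit 9) 
(.lf (nat_lit 576867) (.g (nat_lit 3170) (.e (nat_lit 335988) (nat_lit 1) (.e (nat_lit 57927) (nat_lit 282) (.e (nat_lit 163869) (nat_lit 2) (.e (nat_lit 196674) (nat_lit 15) (.e (nat_lit 81925) (nat_lit 11) (.e (nat_lit 426500) (nat_lit 27) .nil)))))) (.g (nat_lit 1) (.e (nat_lit 367590) (nat_lit 0) .nil) .nil))) 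
(.lf (nat_lit 577379) (.g (nat_lit 2494) (.e (nat_lit 336020) (nat_lit 3) (.e (nat_lit 98350) (nat_lit 24) (.e (nat_lit 409649) (nat_lit 18) (.e (nat_lit 303117) (nat_lit 2) (.e (nat_lit 196666) (nat_lit 13) .nil))))) (.g (nat_lit 0) (.e (nat_lit 368630) (nat_lit 0) .nil) .nil))))) (.nd (nat_lit 8) (.nd (nat_lit 9) 
(.lf (nat_lit 576739) (.g (nat_lit 1757) (.e (nat_lit 335986) (nat_lit 1) (.e (nat_lit 57849) (nat_lit 252) (.e (nat_lit 57372) (nat_lit 2) (.e (nat_lit 90157) (nat_lit 11) .nil)))) (.g (nat_lit 0) (.e (nat_lit 367248) (nat_lit 0) .nil) .nil))) 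
(.lf (nat_lit 577251) (.g (nat_lit 4317) (.e (nat_lit 336019) (nat_lit 3) (.e (nat_lit 98342) (nat_lit 20) (.e (nat_lit 221214) (nat_lit 23) (.e (nat_lit 204830) (nat_lit 18) (.e (nat_lit 57927) (nat_lit 282) (.e (nat_lit 163873) (nat_lit 3) (.e (nat_lit 204853) (nat_lit 26) .nil))))))) (.g (nat_lit 1) (.e (nat_lit 368440) (nat_lit 0) .nil) .nil)))) (.nd (nat_lit 9) 
(.lf (nat_lit 576995) (.g (nat_lit 3205) (.e (nat_lit 335996) (nat_lit 1) (.e (nat_lit 57931) (nat_lit 282) (.e (nat_lit 163874) (nat_lit 3) (.e (nat_lit 204866) (nat_lit 28) (.e (nat_lit 352277) (nat_lit 11) (.e (nat_lit 426500) (nat_lit 27) .nil)))))) (.g (nat_lit 1) (.e (nat_lit 367908) (nat_lit 0) .nil) .nil))) 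
(.lf (nat_lit 577507) (.g (nat_lit 1641) (.e (nat_lit 336025) (nat_lit 3) (.e (nat_lit 98384) (nat_lit 32) (.e (nat_lit 475199) (nat_lit 40) .nil))) (.g (nat_lit 0) (.e (nat_lit 368843) (nat_lit 0) .nil) .nil)))))))) (.nd (nat_lit 5) (.nd (nat_lit 6) (.nd (nat_lit 7) (.nd (nat_lit 8) (.nd (nat_lit 9) 
(.lf (nat_lit 576531) (.g (nat_lit 4136) (.e (nat_lit 327699) (nat_lit 8) (.e (nat_lit 303119) (nat_lit 3) (.e (nat_lit 204849) (nat_lit 25) (.e (nat_lit 327698) (nat_lit 8) (.e (nat_lit 303118) (nat_lit 3) (.e (nat_lit 204849) (nat_lit 25) .nil)))))) (.g (nat_lit 1) (.e (nat_lit 366071) (nat_lit 0) .nil) .nil))) 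
(.lf (nat_lit 577043) (.g (nat_lit 3451) (.e (nat_lit 336001) (nat_lit 2) (.e (nat_lit 90170) (nat_lit 13) (.e (nat_lit 172113) (nat_lit 10) (.e (nat_lit 434245) (nat_lit 28) (.e (nat_lit 573474) (nat_lit 12) (.e (nat_lit 57353) (nat_lit 0) (.e (nat_lit 7265) (nat_lit 384) (.e (nat_lit 57412) (nat_lit 12) .nil)))))))) (.g (nat_lit 1) (.e (nat_lit 368103) (nat_lit 0) .nil) .nil)))) 
(.nd (nat_lit 9) 
(.lf (nat_lit 576787) (.g (nat_lit 2838) (.e (nat_lit 335986) (nat_lit 1) (.e (nat_lit 57927) (nat_lit 282) (.e (nat_lit 163907) (nat_lit 12) (.e (nat_lit 426555) (nat_lit 32) (.e (nat_lit 376869) (nat_lit 23) (.e (nat_lit 98317) (nat_lit 9) .nil)))))) (.g (nat_lit 1) (.e (nat_lit 367328) (nat_lit 0) .nil) .nil))) 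
(.lf (nat_lit 577299) (.g (nat_lit 2381) (.e (nat_lit 336019) (nat_lit 3) (.e (nat_lit 98353) (nat_lit 25) (.e (nat_lit 417828) (nat_lit 18) (.e (nat_lit 303117) (nat_lit 2) (.e (nat_lit 196681) (nat_lit 17) (.e (nat_lit 131109) (nat_lit 9) .nil)))))) (.g (nat_lit 1) (.e (nat_lit 368507) (nat_lit 0) .nil) .nil))))) (.nd (nat_lit 8) (.nd (nat_lit 9) 
(.lf (nat_lit 576659) (.g (nat_lit 2490) (.e (nat_lit 335916) (nat_lit 0) (.e (nat_lit 1788) (nat_lit 119) (.e (nat_lit 516139) (nat_lit 7) (.e (nat_lit 409648) (nat_lit 18) (.e (nat_lit 303117) (nat_lit 2) .nil))))) (.g (nat_lit 0) (.e (nat_lit 367066) (nat_lit 0) .nil) .nil))) 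
(.lf (nat_lit 577171) (.g (nat_lit 1983) (.e (nat_lit 343808) (nat_lit 2) (.e (nat_lit 90170) (nat_lit 13) (.e (nat_lit 172113) (nat_lit 10) (.e (nat_lit 434248) (nat_lit 28) (.e (nat_lit 573475) (nat_lit 12) .nil))))) (.g (nat_lit 0) (.e (nat_lit 368320) (nat_lit 0) .nil) .nil)))) (.nd (nat_lit 9) 
(.lf (nat_lit 576915) (.g (nat_lit 1280) (.e (nat_lit 335993) (nat_lit 1) (.e (nat_lit 57872) (nat_lit 264) (.e (nat_lit 1209) (nat_lit 89) (.e (nat_lit 73781) (nat_lit 32) .nil)))) (.g (nat_lit 0) (.e (nat_lit 367743) (nat_lit 0) .nil) .nil))) 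
(.lf (nat_lit 577427) (.g (nat_lit 603) (.e (nat_lit 336023) (nat_lit 3) (.e (nat_lit 98350) (nat_lit 24) (.e (nat_lit 409649) (nat_lit 18) .nil))) (.g (nat_lit 0) (.e (nat_lit 368732) (nat_lit 0) .nil) .nil)))))) (.nd (nat_lit 7) (.nd (nat_lit 8) (.nd (nat_lit 9) 
(.lf (nat_lit 576595) (.g (nat_lit 2474) (.e (nat_lit 335872) (nat_lit 0) (.e (nat_lit 6713) (nat_lit 360) (.e (nat_lit 163962) (nat_lit 25) (.e (nat_lit 532550) (nat_lit 12) (.e (nat_lit 360474) (nat_lit 8) (.e (nat_lit 557070) (nat_lit 9) (.e (nat_lit 281) (nat_lit 21) .nil))))))) (.g (nat_lit 1) (.e (nat_lit 366454) (nat_lit 0) .nil) .nil))) 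
(.lf (nat_lit 577107) (.g (nat_lit 2658) (.e (nat_lit 336008) (nat_lit 2) (.e (nat_lit 90170) (nat_lit 13) (.e (nat_lit 172113) (nat_lit 10) (.e (nat_lit 434248) (nat_lit 28) (.e (nat_lit 573475) (nat_lit 12) (.e (nat_lit 57353) (nat_lit 0) (.e (nat_lit 7265) (nat_lit 384) (.e (nat_lit 57412) (nat_lit 12) .nil)))))))) (.g (nat_lit 1) (.e (nat_lit 368214) (nat_lit 0) .nil) .nil)))) 
(.nd (nat_lit 9) 
(.lf (nat_lit 576851) (.g (nat_lit 2428) (.e (nat_lit 335988) (nat_lit 1) (.e (nat_lit 57926) (nat_lit 282) (.e (nat_lit 163871) (nat_lit 2) (.e (nat_lit 196674) (nat_lit 15) (.e (nat_lit 81925) (nat_lit 11) (.e (nat_lit 426521) (nat_lit 27) .nil)))))) (.g (nat_lit 1) (.e (nat_lit 367527) (nat_lit 0) .nil) .nil))) 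
(.lf (nat_lit 577363) (.g (nat_lit 1708) (.e (nat_lit 336020) (nat_lit 3) (.e (nat_lit 98349) (nat_lit 24) (.e (nat_lit 409646) (nat_lit 18) (.e (nat_lit 303119) (nat_lit 3) .nil)))) (.g (nat_lit 0) (.e (nat_lit 368610) (nat_lit 0) .nil) .nil))))) (.nd (nat_lit 8) (.nd (nat_lit 9) 
(.lf (nat_lit 576723) (.g (nat_lit 1917) (.e (nat_lit 335986) (nat_lit 1) (.e (nat_lit 57847) (nat_lit 252) (.e (nat_lit 57372) (nat_lit 2) (.e (nat_lit 90157) (nat_lit 11) .nil)))) (.g (nat_lit 0) (.e (nat_lit 367227) (nat_lit 0) .nil) .nil))) 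
(.lf (nat_lit 577235) (.g (nat_lit 3125) (.e (nat_lit 336019) (nat_lit 3) (.e (nat_lit 98341) (nat_lit 20) (.e (nat_lit 221215) (nat_lit 23) (.e (nat_lit 204829) (nat_lit 18) (.e (nat_lit 57927) (nat_lit 282) (.e (nat_lit 163873) (nat_lit 3) (.e (nat_lit 204853) (nat_lit 26) .nil))))))) (.g (nat_lit 1) (.e (nat_lit 368420) (nat_lit 0) .nil) .nil)))) (.nd (nat_lit 9) 
(.lf (nat_lit 576979) (.g (nat_lit 3788) (.e (nat_lit 335996) (nat_lit 1) (.e (nat_lit 57852) (nat_lit 252) (.e (nat_lit 57371) (nat_lit 2) (.e (nat_lit 90160) (nat_lit 11) (.e (nat_lit 24630) (nat_lit 9) (.e (nat_lit 336369) (nat_lit 27) (.e (nat_lit 426501) (nat_lit 27) .nil))))))) (.g (nat_lit 1) (.e (nat_lit 367865) (nat_lit 0) .nil) .nil))) 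
(.lf (nat_lit 577491) (.g (nat_lit 2427) (.e (nat_lit 336025) (nat_lit 3) (.e (nat_lit 98350) (nat_lit 24) (.e (nat_lit 409644) (nat_lit 18) (.e (nat_lit 303119) (nat_lit 3) (.e (nat_lit 204852) (nat_lit 26) .nil))))) (.g (nat_lit 0) (.e (nat_lit 368826) (nat_lit 0) .nil) .nil))))))) (.nd (nat_lit 6) (.nd (nat_lit 7) (.nd (nat_lit 8) (.nd (nat_lit 9) 
(.lf (nat_lit 576563) (.g (nat_lit 1781) (.e (nat_lit 327700) (nat_lit 8) (.e (nat_lit 303144) (nat_lit 13) (.e (nat_lit 483412) (nat_lit 27) (.e (nat_lit 401444) (nat_lit 9) (.e (nat_lit 433920) (nat_lit 26) .nil))))) (.g (nat_lit 0) (.e (nat_lit 366262) (nat_lit 0) .nil) .nil))) 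
(.lf (nat_lit 577075) (.g (nat_lit 2905) (.e (nat_lit 336005) (nat_lit 2) (.e (nat_lit 90170) (nat_lit 13) (.e (nat_lit 172113) (nat_lit 10) (.e (nat_lit 434245) (nat_lit 28) (.e (nat_lit 573474) (nat_lit 12) (.e (nat_lit 57348) (nat_lit 0) (.e (nat_lit 7265) (nat_lit 384) (.e (nat_lit 57412) (nat_lit 12) .nil)))))))) (.g (nat_lit 1) (.e (nat_lit 368176) (nat_lit 0) .nil) .nil)))) 
(.nd (nat_lit 9) 
(.lf (nat_lit 576819) (.g (nat_lit 2139) (.e (nat_lit 335987) (nat_lit 1) (.e (nat_lit 57927) (nat_lit 282) (.e (nat_lit 163875) (nat_lit 3) (.e (nat_lit 204876) (nat_lit 31) (.e (nat_lit 376842) (nat_lit 11) (.e (nat_lit 426521) (nat_lit 27) .nil)))))) (.g (nat_lit 1) (.e (nat_lit 367430) (nat_lit 0) .nil) .nil))) 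
(.lf (nat_lit 577331) (.g (nat_lit 5360) (.e (nat_lit 336019) (nat_lit 3) (.e (nat_lit 98373) (nat_lit 29) (.e (nat_lit 450588) (nat_lit 10) (.e (nat_lit 573475) (nat_lit 12) (.e (nat_lit 57347) (nat_lit 0) (.e (nat_lit 7265) (nat_lit 384) (.e (nat_lit 57405) (nat_lit 12) .nil))))))) (.g (nat_lit 1) (.e (nat_lit 368541) (nat_lit 0) .nil) .nil))))) (.nd (nat_lit 8) (.nd (nat_lit 9) 
(.lf (nat_lit 576691) (.g (nat_lit 3069) (.e (nat_lit 335986) (nat_lit 1) (.e (nat_lit 57686) (nat_lit 156) (.e (nat_lit 163903) (nat_lit 12) (.e (nat_lit 426428) (nat_lit 17) (.e (nat_lit 90176) (nat_lit 15) (.e (nat_lit 188423) (nat_lit 11) .nil)))))) (.g (nat_lit 1) (.e (nat_lit 367182) (nat_lit 0) .nil) .nil))) 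
(.lf (nat_lit 577203) (.g (nat_lit 2741) (.e (nat_lit 336018) (nat_lit 3) (.e (nat_lit 98372) (nat_lit 29) (.e (nat_lit 450586) (nat_lit 10) (.e (nat_lit 573475) (nat_lit 12) (.e (nat_lit 57348) (nat_lit 0) (.e (nat_lit 7265) (nat_lit 384) (.e (nat_lit 57406) (nat_lit 12) .nil))))))) (.g (nat_lit 1) (.e (nat_lit 368374) (nat_lit 0) .nil) .nil)))) (.nd (nat_lit 9) 
(.lf (nat_lit 576947) (.g (nat_lit 2761) (.e (nat_lit 335995) (nat_lit 1) (.e (nat_lit 57688) (nat_lit 156) (.e (nat_lit 163907) (nat_lit 12) (.e (nat_lit 426436) (nat_lit 18) (.e (nat_lit 98370) (nat_lit 28) .nil))))) (.g (nat_lit 0) (.e (nat_lit 367790) (nat_lit 0) .nil) .nil))) 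
(.lf (nat_lit 577459) (.g (nat_lit 2313) (.e (nat_lit 336024) (nat_lit 3) (.e (nat_lit 98350) (nat_lit 24) (.e (nat_lit 409649) (nat_lit 18) (.e (nat_lit 303118) (nat_lit 3) (.e (nat_lit 204855) (nat_lit 26) .nil))))) (.g (nat_lit 0) (.e (nat_lit 368775) (nat_lit 0) .nil) .nil)))))) (.nd (nat_lit 7) (.nd (nat_lit 8) (.nd (nat_lit 9) 
(.lf (nat_lit 576627) (.g (nat_lit 2673) (.e (nat_lit 335880) (nat_lit 0) (.e (nat_lit 1796) (nat_lit 119) (.e (nat_lit 516166) (nat_lit 12) (.e (nat_lit 450588) (nat_lit 10) (.e (nat_lit 573475) (nat_lit 12) .nil))))) (.g (nat_lit 0) (.e (nat_lit 366677) (nat_lit 0) .nil) .nil))) 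
(.lf (nat_lit 577139) (.g (nat_lit 3516) (.e (nat_lit 336013) (nat_lit 2) (.e (nat_lit 90165) (nat_lit 12) (.e (nat_lit 164218) (nat_lit 179) (.e (nat_lit 164340) (nat_lit 232) (.e (nat_lit 77) (nat_lit 0) (.e (nat_lit 3307) (nat_lit 202) (.e (nat_lit 573485) (nat_lit 13) (.e (nat_lit 65604) (nat_lit 9) .nil)))))))) (.g (nat_lit 1) (.e (nat_lit 368280) (nat_lit 0) .nil) .nil)))) (.nd (nat_lit 9) 
(.lf (nat_lit 576883) (.g (nat_lit 2616) (.e (nat_lit 335988) (nat_lit 1) (.e (nat_lit 57927) (nat_lit 282) (.e (nat_lit 163903) (nat_lit 12) (.e (nat_lit 426555) (nat_lit 32) (.e (nat_lit 376869) (nat_lit 23) (.e (nat_lit 98316) (nat_lit 9) .nil)))))) (.g (nat_lit 1) (.e (nat_lit 367613) (nat_lit 0) .nil) .nil))) 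
(.lf (nat_lit 577395) (.g (nat_lit 3141) (.e (nat_lit 336021) (nat_lit 3) (.e (nat_lit 98313) (nat_lit 9) (.e (nat_lit 335988) (nat_lit 1) (.e (nat_lit 57927) (nat_lit 282) (.e (nat_lit 163944) (nat_lit 19) (.e (nat_lit 483393) (nat_lit 23) .nil)))))) (.g (nat_lit 1) (.e (nat_lit 368651) (nat_lit 0) .nil) .nil))))) (.nd (nat_lit 8) (.nd (nat_lit 9) 
(.lf (nat_lit 576755) (.g (nat_lit 2897) (.e (nat_lit 335986) (nat_lit 1) (.e (nat_lit 57849) (nat_lit 252) (.e (nat_lit 57375) (nat_lit 2) (.e (nat_lit 90158) (nat_lit 11) (.e (nat_lit 24628) (nat_lit 9) (.e (nat_lit 336379) (nat_lit 27) (.e (nat_lit 426525) (nat_lit 27) .nil))))))) (.g (nat_lit 1) (.e (nat_lit 367264) (nat_lit 0) .nil) .nil))) 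
(.lf (nat_lit 577267) (.g (nat_lit 2972) (.e (nat_lit 336019) (nat_lit 3) (.e (nat_lit 98349) (nat_lit 24) (.e (nat_lit 409645) (nat_lit 18) (.e (nat_lit 303112) (nat_lit 0) (.e (nat_lit 3144) (nat_lit 193) .nil))))) (.g (nat_lit 0) (.e (nat_lit 368461) (nat_lit 0) .nil) .nil)))) (.nd (nat_lit 9) 
(.lf (nat_lit 577011) (.g (nat_lit 2107) (.e (nat_lit 335997) (nat_lit 1) (.e (nat_lit 57848) (nat_lit 252) (.e (nat_lit 57375) (nat_lit 2) (.e (nat_lit 90159) (nat_lit 11) (.e (nat_lit 24657) (nat_lit 13) (.e (nat_lit 401152) (nat_lit 9) .nil)))))) (.g (nat_lit 1) (.e (nat_lit 367961) (nat_lit 0) .nil) .nil))) 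
(.lf (nat_lit 577523) (.g (nat_lit 819) (.e (nat_lit 336026) (nat_lit 3) (.e (nat_lit 98334) (nat_lit 18) (.e (nat_lit 164182) (nat_lit 154) .nil))) (.g (nat_lit 0) (.e (nat_lit 368871) (nat_lit 0) .nil) .nil))))))))) (.nd (nat_lit 4) (.nd (nat_lit 5) (.nd (nat_lit 6) (.nd (nat_lit 7) (.nd (nat_lit 8) (.nd (nat_lit 9) 
(.lf (nat_lit 576523) (.g (nat_lit 1211) (.e (nat_lit 327699) (nat_lit 8) (.e (nat_lit 303119) (nat_lit 3) (.e (nat_lit 204816) (nat_lit 17) (.e (nat_lit 6203) (nat_lit 332) .nil)))) (.g (nat_lit 0) (.e (nat_lit 366057) (nat_lit 0) .nil) .nil))) 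
(.lf (nat_lit 577035) (.g (nat_lit 1794) (.e (nat_lit 336001) (nat_lit 2) (.e (nat_lit 90170) (nat_lit 13) (.e (nat_lit 172106) (nat_lit 10) (.e (nat_lit 434244) (nat_lit 28) (.e (nat_lit 573474) (nat_lit 12) (.e (nat_lit 57356) (nat_lit 0) (.e (nat_lit 7272) (nat_lit 385) (.e (nat_lit 122903) (nat_lit 12) .nil)))))))) (.g (nat_lit 1) (.e (nat_lit 368095) (nat_lit 0) .nil) .nil)))) 
(.nd (nat_lit 9) 
(.lf (nat_lit 576779) (.g (nat_lit 2053) (.e (nat_lit 335986) (nat_lit 1) (.e (nat_lit 57927) (nat_lit 282) (.e (nat_lit 163874) (nat_lit 3) (.e (nat_lit 204876) (nat_lit 31) (.e (nat_lit 376840) (nat_lit 11) (.e (nat_lit 426525) (nat_lit 27) .nil)))))) (.g (nat_lit 1) (.e (nat_lit 367320) (nat_lit 0) .nil) .nil))) 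
(.lf (nat_lit 577291) (.g (nat_lit 1242) (.e (nat_lit 336019) (nat_lit 3) (.e (nat_lit 98350) (nat_lit 24) (.e (nat_lit 409649) (nat_lit 18) (.e (nat_lit 303111) (nat_lit 0) .nil)))) (.g (nat_lit 0) (.e (nat_lit 368490) (nat_lit 0) .nil) .nil))))) (.nd (nat_lit 8) (.nd (nat_lit 9) 
(.lf (nat_lit 576651) (.g (nat_lit 3406) (.e (nat_lit 335895) (nat_lit 0) (.e (nat_lit 6718) (nat_lit 361) (.e (nat_lit 172150) (nat_lit 27) (.e (nat_lit 336232) (nat_lit 14) (.e (nat_lit 401444) (nat_lit 9) (.e (nat_lit 426503) (nat_lit 27) .nil)))))) (.g (nat_lit 1) (.e (nat_lit 366986) (nat_lit 0) .nil) .nil))) 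
(.lf (nat_lit 577163) (.g (nat_lit 2445) (.e (nat_lit 336015) (nat_lit 2) (.e (nat_lit 90170) (nat_lit 13) (.e (nat_lit 172113) (nat_lit 10) (.e (nat_lit 434245) (nat_lit 28) (.e (nat_lit 573474) (nat_lit 12) .nil))))) (.g (nat_lit 0) (.e (nat_lit 368304) (nat_lit 0) .nil) .nil)))) (.nd (nat_lit 9) 
(.lf (nat_lit 576907) (.g (nat_lit 414) (.e (nat_lit 335988) (nat_lit 1) (.e (nat_lit 57931) (nat_lit 282) (.e (nat_lit 163943) (nat_lit 19) .nil))) (.g (nat_lit 0) (.e (nat_lit 367673) (nat_lit 0) .nil) .nil))) 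
(.lf (nat_lit 577419) (.g (nat_lit 1875) (.e (nat_lit 336023) (nat_lit 3) (.e (nat_lit 98350) (nat_lit 24) (.e (nat_lit 409616) (nat_lit 10) (.e (nat_lit 5763) (nat_lit 315) .nil)))) (.g (nat_lit 0) (.e (nat_lit 368723) (nat_lit 0) .nil) .nil)))))) (.nd (nat_lit 7) (.nd (nat_lit 8) (.nd (nat_lit 9) 
(.lf (nat_lit 576587) (.g (nat_lit 3660) (.e (nat_lit 327716) (nat_lit 16) (.e (nat_lit 286733) (nat_lit 2) (.e (nat_lit 90178) (nat_lit 15) (.e (nat_lit 188452) (nat_lit 23) (.e (nat_lit 204849) (nat_lit 25) .nil))))) (.g (nat_lit 1) (.e (nat_lit 366418) (nat_lit 0) .nil) .nil))) 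
(.lf (nat_lit 577099) (.g (nat_lit 2617) (.e (nat_lit 336008) (nat_lit 2) (.e (nat_lit 90170) (nat_lit 13) (.e (nat_lit 172113) (nat_lit 10) (.e (nat_lit 434248) (nat_lit 28) (.e (nat_lit 573473) (nat_lit 12) (.e (nat_lit 57348) (nat_lit 0) (.e (nat_lit 7263) (nat_lit 384) (.e (nat_lit 57412) (nat_lit 12) .nil)))))))) (.g (nat_lit 1) (.e (nat_lit 368206) (nat_lit 0) .nil) .nil)))) 
(.nd (nat_lit 9) 
(.lf (nat_lit 576843) (.g (nat_lit 2681) (.e (nat_lit 335988) (nat_lit 1) (.e (nat_lit 57926) (nat_lit 282) (.e (nat_lit 163868) (nat_lit 2) (.e (nat_lit 196672) (nat_lit 15) (.e (nat_lit 81927) (nat_lit 11) (.e (nat_lit 426497) (nat_lit 27) .nil)))))) (.g (nat_lit 1) (.e (nat_lit 367518) (nat_lit 0) .nil) .nil))) 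
(.lf (nat_lit 577355) (.g (nat_lit 1481) (.e (nat_lit 336020) (nat_lit 3) (.e (nat_lit 98334) (nat_lit 18) (.e (nat_lit 164183) (nat_lit 154) (.e (nat_lit 57411) (nat_lit 12) .nil)))) (.g (nat_lit 0) (.e (nat_lit 368593) (nat_lit 0) .nil) .nil))))) (.nd (nat_lit 8) (.nd (nat_lit 9) 
(.lf (nat_lit 576715) (.g (nat_lit 2957) (.e (nat_lit 335986) (nat_lit 1) (.e (nat_lit 57692) (nat_lit 156) (.e (nat_lit 163907) (nat_lit 12) (.e (nat_lit 426438) (nat_lit 18) (.e (nat_lit 98370) (nat_lit 28) (.e (nat_lit 442390) (nat_lit 11) .nil)))))) (.g (nat_lit 1) (.e (nat_lit 367209) (nat_lit 0) .nil) .nil))) 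
(.lf (nat_lit 577227) (.g (nat_lit 2776) (.e (nat_lit 336019) (nat_lit 3) (.e (nat_lit 98341) (nat_lit 20) (.e (nat_lit 221214) (nat_lit 23) (.e (nat_lit 204829) (nat_lit 18) (.e (nat_lit 57926) (nat_lit 282) (.e (nat_lit 163874) (nat_lit 3) (.e (nat_lit 204854) (nat_lit 26) .nil))))))) (.g (nat_lit 1) (.e (nat_lit 368410) (nat_lit 0) .nil) .nil)))) (.nd (nat_lit 9) 
(.lf (nat_lit 576971) (.g (nat_lit 3484) (.e (nat_lit 335995) (nat_lit 1) (.e (nat_lit 57931) (nat_lit 282) (.e (nat_lit 163943) (nat_lit 19) (.e (nat_lit 483393) (nat_lit 23) (.e (nat_lit 336021) (nat_lit 3) (.e (nat_lit 98317) (nat_lit 9) .nil)))))) (.g (nat_lit 1) (.e (nat_lit 367845) (nat_lit 0) .nil) .nil))) 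
(.lf (nat_lit 577483) (.g (nat_lit 2801) (.e (nat_lit 336025) (nat_lit 3) (.e (nat_lit 98335) (nat_lit 18) (.e (nat_lit 164183) (nat_lit 154) (.e (nat_lit 57379) (nat_lit 3) (.e (nat_lit 98340) (nat_lit 20) .nil))))) (.g (nat_lit 0) (.e (nat_lit 368812) (nat_lit 0) .nil) .nil))))))) (.nd (nat_lit 6) (.nd (nat_lit 7) (.nd (nat_lit 8) (.nd (nat_lit 9) 
(.lf (nat_lit 576555) (.g (nat_lit 4078) (.e (nat_lit 327700) (nat_lit 8) (.e (nat_lit 303119) (nat_lit 3) (.e (nat_lit 204869) (nat_lit 29) (.e (nat_lit 360475) (nat_lit 8) (.e (nat_lit 557065) (nat_lit 9) .nil))))) (.g (nat_lit 0) (.e (nat_lit 366181) (nat_lit 0) .nil) .nil))) 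
(.lf (nat_lit 577067) (.g (nat_lit 2779) (.e (nat_lit 336003) (nat_lit 2) (.e (nat_lit 90158) (nat_lit 11) (.e (nat_lit 24608) (nat_lit 3) (.e (nat_lit 98333) (nat_lit 18) (.e (nat_lit 164183) (nat_lit 154) (.e (nat_lit 65280) (nat_lit 64) (.e (nat_lit 204861) (nat_lit 26) .nil))))))) (.g (nat_lit 1) (.e (nat_lit 368142) (nat_lit 0) .nil) .nil)))) (.nd (nat_lit 9) 
(.lf (nat_lit 576811) (.g (nat_lit 1315) (.e (nat_lit 335987) (nat_lit 1) (.e (nat_lit 57927) (nat_lit 282) (.e (nat_lit 163868) (nat_lit 2) (.e (nat_lit 196672) (nat_lit 15) .nil)))) (.g (nat_lit 0) (.e (nat_lit 367421) (nat_lit 0) .nil) .nil))) 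
(.lf (nat_lit 577323) (.g (nat_lit 5042) (.e (nat_lit 336019) (nat_lit 3) (.e (nat_lit 98373) (nat_lit 29) (.e (nat_lit 450587) (nat_lit 10) (.e (nat_lit 573473) (nat_lit 12) (.e (nat_lit 57354) (nat_lit 0) (.e (nat_lit 7270) (nat_lit 385) (.e (nat_lit 122904) (nat_lit 12) .nil))))))) (.g (nat_lit 1) (.e (nat_lit 368533) (nat_lit 0) .nil) .nil))))) (.nd (nat_lit 8) (.nd (nat_lit 9) 
(.lf (nat_lit 576683) (.g (nat_lit 1647) (.e (nat_lit 335973) (nat_lit 0) (.e (nat_lit 1788) (nat_lit 119) (.e (nat_lit 516119) (nat_lit 1) (.e (nat_lit 164179) (nat_lit 154) .nil)))) (.g (nat_lit 0) (.e (nat_lit 367147) (nat_lit 0) .nil) .nil))) 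
(.lf (nat_lit 577195) (.g (nat_lit 2966) (.e (nat_lit 336018) (nat_lit 3) (.e (nat_lit 98350) (nat_lit 24) (.e (nat_lit 409648) (nat_lit 18) (.e (nat_lit 303116) (nat_lit 2) (.e (nat_lit 196681) (nat_lit 17) (.e (nat_lit 131109) (nat_lit 9) .nil)))))) (.g (nat_lit 1) (.e (nat_lit 368366) (nat_lit 0) .nil) .nil)))) (.nd (nat_lit 9) 
(.lf (nat_lit 576939) (.g (nat_lit 2251) (.e (nat_lit 335995) (nat_lit 1) (.e (nat_lit 57688) (nat_lit 156) (.e (nat_lit 163902) (nat_lit 12) (.e (nat_lit 426436) (nat_lit 18) (.e (nat_lit 98382) (nat_lit 31) (.e (nat_lit 466950) (nat_lit 11) .nil)))))) (.g (nat_lit 1) (.e (nat_lit 367782) (nat_lit 0) .nil) .nil))) 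
(.lf (nat_lit 577451) (.g (nat_lit 2609) (.e (nat_lit 336024) (nat_lit 3) (.e (nat_lit 98349) (nat_lit 24) (.e (nat_lit 409646) (nat_lit 18) (.e (nat_lit 303119) (nat_lit 3) (.e (nat_lit 204855) (nat_lit 26) .nil))))) (.g (nat_lit 0) (.e (nat_lit 368763) (nat_lit 0) .nil) .nil)))))) (.nd (nat_lit 7) (.nd (nat_lit 8) (.nd (nat_lit 9) 
(.lf (nat_lit 576619) (.g (nat_lit 3071) (.e (nat_lit 335876) (nat_lit 0) (.e (nat_lit 6711) (nat_lit 360) (.e (nat_lit 163962) (nat_lit 25) (.e (nat_lit 532550) (nat_lit 12) (.e (nat_lit 360475) (nat_lit 8) (.e (nat_lit 557073) (nat_lit 9) (.e (nat_lit 288) (nat_lit 21) .nil))))))) (.g (nat_lit 1) (.e (nat_lit 366617) (nat_lit 0) .nil) .nil))) 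
(.lf (nat_lit 577131) (.g (nat_lit 3889) (.e (nat_lit 336013) (nat_lit 2) (.e (nat_lit 90134) (nat_lit 9) (.e (nat_lit 3025) (nat_lit 187) (.e (nat_lit 450588) (nat_lit 10) (.e (nat_lit 573474) (nat_lit 12) (.e (nat_lit 57572) (nat_lit 54) (.e (nat_lit 770057) (nat_lit 5) (.e (nat_lit 1449) (nat_lit 108) .nil)))))))) (.g (nat_lit 1) (.e (nat_lit 368258) (nat_lit 0) .nil) .nil)))) (.nd (nat_lit 9) 
(.lf (nat_lit 576875) (.g (nat_lit 2492) (.e (nat_lit 335988) (nat_lit 1) (.e (nat_lit 57927) (nat_lit 282) (.e (nat_lit 163874) (nat_lit 3) (.e (nat_lit 204861) (nat_lit 26) (.e (nat_lit 336076) (nat_lit 9) (.e (nat_lit 336370) (nat_lit 27) (.e (nat_lit 426501) (nat_lit 27) .nil))))))) (.g (nat_lit 1) (.e (nat_lit 367599) (nat_lit 0) .nil) .nil))) 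
(.lf (nat_lit 577387) (.g (nat_lit 2489) (.e (nat_lit 336020) (nat_lit 3) (.e (nat_lit 98365) (nat_lit 26) (.e (nat_lit 426306) (nat_lit 12) (.e (nat_lit 475177) (nat_lit 24) (.e (nat_lit 516131) (nat_lit 3) .nil))))) (.g (nat_lit 0) (.e (nat_lit 368639) (nat_lit 0) .nil) .nil))))) (.nd (nat_lit 8) (.nd (nat_lit 9) 
(.lf (nat_lit 576747) (.g (nat_lit 1907) (.e (nat_lit 335986) (nat_lit 1) (.e (nat_lit 57849) (nat_lit 252) (.e (nat_lit 57372) (nat_lit 2) (.e (nat_lit 90158) (nat_lit 11) (.e (nat_lit 24630) (nat_lit 9) (.e (nat_lit 336379) (nat_lit 27) (.e (nat_lit 426522) (nat_lit 27) .nil))))))) (.g (nat_lit 1) (.e (nat_lit 367256) (nat_lit 0) .nil) .nil))) 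
(.lf (nat_lit 577259) (.g (nat_lit 3110) (.e (nat_lit 336019) (nat_lit 3) (.e (nat_lit 98342) (nat_lit 20) (.e (nat_lit 221215) (nat_lit 23) (.e (nat_lit 204830) (nat_lit 18) (.e (nat_lit 57926) (nat_lit 282) (.e (nat_lit 163875) (nat_lit 3) (.e (nat_lit 204851) (nat_lit 26) .nil))))))) (.g (nat_lit 1) (.e (nat_lit 368452) (nat_lit 0) .nil) .nil)))) (.nd (nat_lit 9) 
(.lf (nat_lit 577003) (.g (nat_lit 3558) (.e (nat_lit 335996) (nat_lit 1) (.e (nat_lit 57931) (nat_lit 282) (.e (nat_lit 163943) (nat_lit 19) (.e (nat_lit 483393) (nat_lit 23) (.e (nat_lit 336021) (nat_lit 3) (.e (nat_lit 98317) (nat_lit 9) .nil)))))) (.g (nat_lit 1) (.e (nat_lit 367924) (nat_lit 0) .nil) .nil))) 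
(.lf (nat_lit 577515) (.g (nat_lit 2766) (.e (nat_lit 336026) (nat_lit 3) (.e (nat_lit 98333) (nat_lit 18) (.e (nat_lit 164182) (nat_lit 154) (.e (nat_lit 57378) (nat_lit 3) (.e (nat_lit 98341) (nat_lit 20) .nil))))) (.g (nat_lit 0) (.e (nat_lit 368861) (nat_lit 0) .nil) .nil)))))))) (.nd (nat_lit 5) (.nd (nat_lit 6) (.nd (nat_lit 7) (.nd (nat_lit 8) (.nd (nat_lit 9) 
(.lf (nat_lit 576539) (.g (nat_lit 4862) (.e (nat_lit 327699) (nat_lit 8) (.e (nat_lit 303119) (nat_lit 3) (.e (nat_lit 204869) (nat_lit 29) (.e (nat_lit 360475) (nat_lit 8) (.e (nat_lit 557064) (nat_lit 9) .nil))))) (.g (nat_lit 0) (.e (nat_lit 366085) (nat_lit 0) .nil) .nil))) 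
(.lf (nat_lit 577051) (.g (nat_lit 2926) (.e (nat_lit 336001) (nat_lit 2) (.e (nat_lit 90170) (nat_lit 13) (.e (nat_lit 172113) (nat_lit 10) (.e (nat_lit 434248) (nat_lit 28) (.e (nat_lit 573473) (nat_lit 12) (.e (nat_lit 57354) (nat_lit 0) (.e (nat_lit 7270) (nat_lit 385) (.e (nat_lit 122905) (nat_lit 12) .nil)))))))) (.g (nat_lit 1) (.e (nat_lit 368111) (nat_lit 0) .nil) .nil)))) 
(.nd (nat_lit 9) 
(.lf (nat_lit 576795) (.g (nat_lit 2917) (.e (nat_lit 335986) (nat_lit 1) (.e (nat_lit 57931) (nat_lit 282) (.e (nat_lit 163874) (nat_lit 3) (.e (nat_lit 204852) (nat_lit 26) (.e (nat_lit 336211) (nat_lit 13) (.e (nat_lit 393225) (nat_lit 9) .nil)))))) (.g (nat_lit 1) (.e (nat_lit 367349) (nat_lit 0) .nil) .nil))) 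
(.lf (nat_lit 577307) (.g (nat_lit 1795) (.e (nat_lit 336019) (nat_lit 3) (.e (nat_lit 98372) (nat_lit 29) (.e (nat_lit 450587) (nat_lit 10) (.e (nat_lit 573477) (nat_lit 12) (.e (nat_lit 57353) (nat_lit 0) .nil))))) (.g (nat_lit 0) (.e (nat_lit 368517) (nat_lit 0) .nil) .nil))))) (.nd (nat_lit 8) (.nd (nat_lit 9) 
(.lf (nat_lit 576667) (.g (nat_lit 4382) (.e (nat_lit 335923) (nat_lit 0) (.e (nat_lit 1788) (nat_lit 119) (.e (nat_lit 516139) (nat_lit 7) (.e (nat_lit 409649) (nat_lit 18) (.e (nat_lit 303117) (nat_lit 2) (.e (nat_lit 196666) (nat_lit 13) (.e (nat_lit 65596) (nat_lit 9) .nil))))))) (.g (nat_lit 1) (.e (nat_lit 367078) (nat_lit 0) .nil) .nil))) 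
(.lf (nat_lit 577179) (.g (nat_lit 2874) (.e (nat_lit 336017) (nat_lit 3) (.e (nat_lit 98342) (nat_lit 20) (.e (nat_lit 221214) (nat_lit 23) (.e (nat_lit 204831) (nat_lit 18) (.e (nat_lit 57931) (nat_lit 282) (.e (nat_lit 163874) (nat_lit 3) (.e (nat_lit 204859) (nat_lit 26) .nil))))))) (.g (nat_lit 1) (.e (nat_lit 368346) (nat_lit 0) .nil) .nil)))) (.nd (nat_lit 9) 
(.lf (nat_lit 576923) (.g (nat_lit 2720) (.e (nat_lit 335994) (nat_lit 1) (.e (nat_lit 57688) (nat_lit 156) (.e (nat_lit 163907) (nat_lit 12) (.e (nat_lit 426436) (nat_lit 18) (.e (nat_lit 98381) (nat_lit 31) (.e (nat_lit 466954) (nat_lit 11) .nil)))))) (.g (nat_lit 1) (.e (nat_lit 367756) (nat_lit 0) .nil) .nil))) 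
(.lf (nat_lit 577435) (.g (nat_lit 5284) (.e (nat_lit 336023) (nat_lit 3) (.e (nat_lit 98373) (nat_lit 29) (.e (nat_lit 450588) (nat_lit 10) (.e (nat_lit 573473) (nat_lit 12) (.e (nat_lit 57354) (nat_lit 0) (.e (nat_lit 7270) (nat_lit 385) (.e (nat_lit 122906) (nat_lit 12) .nil))))))) (.g (nat_lit 1) (.e (nat_lit 368742) (nat_lit 0) .nil) .nil)))))) 
(.nd (nat_lit 7) (.nd (nat_lit 8) (.nd (nat_lit 9) 
(.lf (nat_lit 576603) (.g (nat_lit 3063) (.e (nat_lit 335874) (nat_lit 0) (.e (nat_lit 6711) (nat_lit 360) (.e (nat_lit 163962) (nat_lit 25) (.e (nat_lit 532535) (nat_lit 9) (.e (nat_lit 336058) (nat_lit 7) (.e (nat_lit 319519) (nat_lit 12) (.e (nat_lit 32778) (nat_lit 5) (.e (nat_lit 1512) (nat_lit 108) .nil)))))))) (.g (nat_lit 1) (.e (nat_lit 366526) (nat_lit 0) .nil) .nil))) 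
(.lf (nat_lit 577115) (.g (nat_lit 3298) (.e (nat_lit 336010) (nat_lit 2) (.e (nat_lit 90170) (nat_lit 13) (.e (nat_lit 172120) (nat_lit 12) (.e (nat_lit 475179) (nat_lit 24) (.e (nat_lit 516129) (nat_lit 3) (.e (nat_lit 221194) (nat_lit 11) .nil)))))) (.g (nat_lit 1) (.e (nat_lit 368223) (nat_lit 0) .nil) .nil)))) (.nd (nat_lit 9) 
(.lf (nat_lit 576859) (.g (nat_lit 2513) (.e (nat_lit 335988) (nat_lit 1) (.e (nat_lit 57926) (nat_lit 282) (.e (nat_lit 163905) (nat_lit 12) (.e (nat_lit 426555) (nat_lit 32) (.e (nat_lit 376869) (nat_lit 23) (.e (nat_lit 98316) (nat_lit 9) .nil)))))) (.g (nat_lit 1) (.e (nat_lit 367553) (nat_lit 0) .nil) .nil))) 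
(.lf (nat_lit 577371) (.g (nat_lit 2606) (.e (nat_lit 336020) (nat_lit 3) (.e (nat_lit 98350) (nat_lit 24) (.e (nat_lit 409645) (nat_lit 18) (.e (nat_lit 303119) (nat_lit 3) (.e (nat_lit 204852) (nat_lit 26) .nil))))) (.g (nat_lit 0) (.e (nat_lit 368621) (nat_lit 0) .nil) .nil))))) (.nd (nat_lit 8) (.nd (nat_lit 9) 
(.lf (nat_lit 576731) (.g (nat_lit 2268) (.e (nat_lit 335986) (nat_lit 1) (.e (nat_lit 57847) (nat_lit 252) (.e (nat_lit 57374) (nat_lit 2) (.e (nat_lit 90160) (nat_lit 11) (.e (nat_lit 24657) (nat_lit 13) (.e (nat_lit 393229) (nat_lit 9) .nil)))))) (.g (nat_lit 1) (.e (nat_lit 367235) (nat_lit 0) .nil) .nil))) 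
(.lf (nat_lit 577243) (.g (nat_lit 642) (.e (nat_lit 336019) (nat_lit 3) (.e (nat_lit 98342) (nat_lit 20) (.e (nat_lit 221212) (nat_lit 22) .nil))) (.g (nat_lit 0) (.e (nat_lit 368429) (nat_lit 0) .nil) .nil)))) (.nd (nat_lit 9) 
(.lf (nat_lit 576987) (.g (nat_lit 1879) (.e (nat_lit 335996) (nat_lit 1) (.e (nat_lit 57929) (nat_lit 282) (.e (nat_lit 163905) (nat_lit 12) (.e (nat_lit 426546) (nat_lit 30) (.e (nat_lit 360466) (nat_lit 3) (.e (nat_lit 516194) (nat_lit 26) .nil)))))) (.g (nat_lit 1) (.e (nat_lit 367890) (nat_lit 0) .nil) .nil))) 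
(.lf (nat_lit 577499) (.g (nat_lit 1811) (.e (nat_lit 336025) (nat_lit 3) (.e (nat_lit 98350) (nat_lit 24) (.e (nat_lit 409648) (nat_lit 18) (.e (nat_lit 303116) (nat_lit 2) .nil)))) (.g (nat_lit 0) (.e (nat_lit 368834) (nat_lit 0) .nil) .nil))))))) (.nd (nat_lit 6) (.nd (nat_lit 7) (.nd (nat_lit 8) (.nd (nat_lit 9) 
(.lf (nat_lit 576571) (.g (nat_lit 4599) (.e (nat_lit 327700) (nat_lit 8) (.e (nat_lit 303145) (nat_lit 13) (.e (nat_lit 483413) (nat_lit 27) (.e (nat_lit 401443) (nat_lit 9) .nil)))) (.g (nat_lit 0) (.e (nat_lit 366286) (nat_lit 0) .nil) .nil))) 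
(.lf (nat_lit 577083) (.g (nat_lit 2785) (.e (nat_lit 336008) (nat_lit 2) (.e (nat_lit 90170) (nat_lit 13) (.e (nat_lit 172106) (nat_lit 10) (.e (nat_lit 434244) (nat_lit 28) (.e (nat_lit 573473) (nat_lit 12) .nil))))) (.g (nat_lit 0) (.e (nat_lit 368190) (nat_lit 0) .nil) .nil)))) (.nd (nat_lit 9) 
(.lf (nat_lit 576827) (.g (nat_lit 2218) (.e (nat_lit 335987) (nat_lit 1) (.e (nat_lit 57927) (nat_lit 282) (.e (nat_lit 163905) (nat_lit 12) (.e (nat_lit 426555) (nat_lit 32) (.e (nat_lit 376869) (nat_lit 23) (.e (nat_lit 98316) (nat_lit 9) .nil)))))) (.g (nat_lit 1) (.e (nat_lit 367438) (nat_lit 0) .nil) .nil))) 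
(.lf (nat_lit 577339) (.g (nat_lit 2457) (.e (nat_lit 336019) (nat_lit 3) (.e (nat_lit 98384) (nat_lit 32) (.e (nat_lit 475199) (nat_lit 40) (.e (nat_lit 704590) (nat_lit 3) (.e (nat_lit 163975) (nat_lit 30) (.e (nat_lit 573481) (nat_lit 13) (.e (nat_lit 65589) (nat_lit 9) .nil))))))) (.g (nat_lit 1) (.e (nat_lit 368551) (nat_lit 0) .nil) .nil))))) (.nd (nat_lit 8) (.nd (nat_lit 9) 
(.lf (nat_lit 576699) (.g (nat_lit 3193) (.e (nat_lit 335986) (nat_lit 1) (.e (nat_lit 57688) (nat_lit 156) (.e (nat_lit 163903) (nat_lit 12) (.e (nat_lit 426438) (nat_lit 18) (.e (nat_lit 98370) (nat_lit 28) (.e (nat_lit 442390) (nat_lit 11) .nil)))))) (.g (nat_lit 1) (.e (nat_lit 367190) (nat_lit 0) .nil) .nil))) 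
(.lf (nat_lit 577211) (.g (nat_lit 663) (.e (nat_lit 336018) (nat_lit 3) (.e (nat_lit 98373) (nat_lit 29) (.e (nat_lit 450588) (nat_lit 10) .nil))) (.g (nat_lit 0) (.e (nat_lit 368382) (nat_lit 0) .nil) .nil)))) (.nd (nat_lit 9) 
(.lf (nat_lit 576955) (.g (nat_lit 2249) (.e (nat_lit 335995) (nat_lit 1) (.e (nat_lit 57924) (nat_lit 282) (.e (nat_lit 163871) (nat_lit 2) (.e (nat_lit 196674) (nat_lit 15) (.e (nat_lit 81925) (nat_lit 11) (.e (nat_lit 426500) (nat_lit 27) .nil)))))) (.g (nat_lit 1) (.e (nat_lit 367814) (nat_lit 0) .nil) .nil))) 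
(.lf (nat_lit 577467) (.g (nat_lit 2813) (.e (nat_lit 336025) (nat_lit 3) (.e (nat_lit 98333) (nat_lit 18) (.e (nat_lit 164179) (nat_lit 154) (.e (nat_lit 57378) (nat_lit 3) (.e (nat_lit 98342) (nat_lit 20) .nil))))) (.g (nat_lit 0) (.e (nat_lit 368787) (nat_lit 0) .nil) .nil)))))) (.nd (nat_lit 7) (.nd (nat_lit 8) (.nd (nat_lit 9) 
(.lf (nat_lit 576635) (.g (nat_lit 301) (.e (nat_lit 335894) (nat_lit 0) (.e (nat_lit 6722) (nat_lit 362) (.e (nat_lit 180227) (nat_lit 0) .nil))) (.g (nat_lit 0) (.e (nat_lit 366907) (nat_lit 0) .nil) .nil))) 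
(.lf (nat_lit 577147) (.g (nat_lit 955) (.e (nat_lit 336013) (nat_lit 2) (.e (nat_lit 90170) (nat_lit 13) (.e (nat_lit 172043) (nat_lit 0) .nil))) (.g (nat_lit 0) (.e (nat_lit 368288) (nat_lit 0) .nil) .nil)))) (.nd (nat_lit 9) 
(.lf (nat_lit 576891) (.g (nat_lit 2606) (.e (nat_lit 335988) (nat_lit 1) (.e (nat_lit 57927) (nat_lit 282) (.e (nat_lit 163907) (nat_lit 12) (.e (nat_lit 426555) (nat_lit 32) (.e (nat_lit 376869) (nat_lit 23) (.e (nat_lit 98316) (nat_lit 9) .nil)))))) (.g (nat_lit 1) (.e (nat_lit 367621) (nat_lit 0) .nil) .nil))) 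
(.lf (nat_lit 577403) (.g (nat_lit 1635) (.e (nat_lit 336021) (nat_lit 3) (.e (nat_lit 98384) (nat_lit 32) (.e (nat_lit 475199) (nat_lit 40) .nil))) (.g (nat_lit 0) (.e (nat_lit 368699) (nat_lit 0) .nil) .nil))))) (.nd (nat_lit 8) (.nd (nat_lit 9) 
(.lf (nat_lit 576763) (.g (nat_lit 2882) (.e (nat_lit 335986) (nat_lit 1) (.e (nat_lit 57926) (nat_lit 282) (.e (nat_lit 163868) (nat_lit 2) (.e (nat_lit 196674) (nat_lit 15) (.e (nat_lit 81925) (nat_lit 11) (.e (nat_lit 426500) (nat_lit 27) .nil)))))) (.g (nat_lit 1) (.e (nat_lit 367297) (nat_lit 0) .nil) .nil))) 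
(.lf (nat_lit 577275) (.g (nat_lit 928) (.e (nat_lit 336019) (nat_lit 3) (.e (nat_lit 98350) (nat_lit 24) (.e (nat_lit 409643) (nat_lit 18) (.e (nat_lit 303119) (nat_lit 3) .nil)))) (.g (nat_lit 0) (.e (nat_lit 368474) (nat_lit 0) .nil) .nil)))) (.nd (nat_lit 9) 
(.lf (nat_lit 577019) (.g (nat_lit 634) (.e (nat_lit 336000) (nat_lit 1) (.e (nat_lit 57849) (nat_lit 252) (.e (nat_lit 57381) (nat_lit 4) .nil))) (.g (nat_lit 0) (.e (nat_lit 368047) (nat_lit 0) .nil) .nil))) 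
(.lf (nat_lit 577531) (.g (nat_lit 3768) (.e (nat_lit 336026) (nat_lit 3) (.e (nat_lit 98335) (nat_lit 18) (.e (nat_lit 164182) (nat_lit 154) (.e (nat_lit 57379) (nat_lit 3) (.e (nat_lit 98342) (nat_lit 20) (.e (nat_lit 221215) (nat_lit 23) (.e (nat_lit 204861) (nat_lit 26) .nil))))))) (.g (nat_lit 1) (.e (nat_lit 368892) (nat_lit 0) .nil) .nil)))))))))) 
(.nd (nat_lit 3) (.nd (nat_lit 4) (.nd (nat_lit 5) (.nd (nat_lit 6) (.nd (nat_lit 7) 
(.nd (nat_lit 8) (.nd (nat_lit 9) 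
(.lf (nat_lit 576519) (.g (nat_lit 2867) (.e (nat_lit 327699) (nat_lit 8) (.e (nat_lit 303118) (nat_lit 3) (.e (nat_lit 204869) (nat_lit 29) (.e (nat_lit 360474) (nat_lit 8) (.e (nat_lit 557072) (nat_lit 9) (.e (nat_lit 220) (nat_lit 20) .nil)))))) (.g (nat_lit 1) (.e (nat_lit 366051) (nat_lit 0) .nil) .nil))) 
(.lf (nat_lit 577031) (.g (nat_lit 1971) (.e (nat_lit 336001) (nat_lit 2) (.e (nat_lit 90170) (nat_lit 13) (.e (nat_lit 172106) (nat_lit 10) (.e (nat_lit 434244) (nat_lit 28) (.e (nat_lit 573474) (nat_lit 12) (.e (nat_lit 57356) (nat_lit 0) (.e (nat_lit 7270) (nat_lit 385) (.e (nat_lit 122903) (nat_lit 12) .nil)))))))) (.g (nat_lit 1) (.e (nat_lit 368091) (nat_lit 0) .nil) .nil)))) 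
(.nd (nat_lit 9) 
(.lf (nat_lit 576775) (.g (nat_lit 3071) (.e (nat_lit 335986) (nat_lit 1) (.e (nat_lit 57927) (nat_lit 282) (.e (nat_lit 163873) (nat_lit 3) (.e (nat_lit 204866) (nat_lit 28) (.e (nat_lit 352277) (nat_lit 11) (.e (nat_lit 426500) (nat_lit 27) .nil)))))) (.g (nat_lit 1) (.e (nat_lit 367316) (nat_lit 0) .nil) .nil))) 
(.lf (nat_lit 577287) (.g (nat_lit 2426) (.e (nat_lit 336019) (nat_lit 3) (.e (nat_lit 98350) (nat_lit 24) (.e (nat_lit 409648) (nat_lit 18) (.e (nat_lit 303116) (nat_lit 2) (.e (nat_lit 196680) (nat_lit 17) (.e (nat_lit 131108) (nat_lit 9) .nil)))))) (.g (nat_lit 1) (.e (nat_lit 368486) (nat_lit 0) .nil) .nil))))) (.nd (nat_lit 8) (.nd (nat_lit 9) 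
(.lf (nat_lit 576647) (.g (nat_lit 2003) (.e (nat_lit 335895) (nat_lit 0) (.e (nat_lit 6712) (nat_lit 360) (.e (nat_lit 163975) (nat_lit 30) (.e (nat_lit 573488) (nat_lit 14) (.e (nat_lit 73769) (nat_lit 20) .nil))))) (.g (nat_lit 0) (.e (nat_lit 366975) (nat_lit 0) .nil) .nil))) 
(.lf (nat_lit 577159) (.g (nat_lit 4316) (.e (nat_lit 336013) (nat_lit 2) (.e (nat_lit 90170) (nat_lit 13) (.e (nat_lit 172113) (nat_lit 10) (.e (nat_lit 434248) (nat_lit 28) (.e (nat_lit 573475) (nat_lit 12) (.e (nat_lit 57347) (nat_lit 0) (.e (nat_lit 7266) (nat_lit 384) (.e (nat_lit 57415) (nat_lit 12) .nil)))))))) (.g (nat_lit 1) (.e (nat_lit 368300) (nat_lit 0) .nil) .nil)))) 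
(.nd (nat_lit 9) 
(.lf (nat_lit 576903) (.g (nat_lit 3459) (.e (nat_lit 335988) (nat_lit 1) (.e (nat_lit 57931) (nat_lit 282) (.e (nat_lit 163874) (nat_lit 3) (.e (nat_lit 204852) (nat_lit 26) (.e (nat_lit 336211) (nat_lit 13) (.e (nat_lit 393225) (nat_lit 9) .nil)))))) (.g (nat_lit 1) (.e (nat_lit 367657) (nat_lit 0) .nil) .nil))) 
(.lf (nat_lit 577415) (.g (nat_lit 2856) (.e (nat_lit 336022) (nat_lit 3) (.e (nat_lit 98384) (nat_lit 32) (.e (nat_lit 475199) (nat_lit 40) (.e (nat_lit 704589) (nat_lit 3) .nil)))) (.g (nat_lit 0) (.e (nat_lit 368716) (nat_lit 0) .nil) .nil)))))) (.nd (nat_lit 7) (.nd (nat_lit 8) (.nd (nat_lit 9) 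
(.lf (nat_lit 576583) (.g (nat_lit 1860) (.e (nat_lit 327715) (nat_lit 16) (.e (nat_lit 286759) (nat_lit 12) (.e (nat_lit 385107) (nat_lit 51) (.e (nat_lit 794680) (nat_lit 24) .nil)))) (.g (nat_lit 0) (.e (nat_lit 366408) (nat_lit 0) .nil) .nil))) 
(.lf (nat_lit 577095) (.g (nat_lit 2660) (.e (nat_lit 336008) (nat_lit 2) (.e (nat_lit 90170) (nat_lit 13) (.e (nat_lit 172113) (nat_lit 10) (.e (nat_lit 434247) (nat_lit 28) (.e (nat_lit 573477) (nat_lit 12) (.e (nat_lit 57352) (nat_lit 0) (.e (nat_lit 7263) (nat_lit 384) (.e (nat_lit 57412) (nat_lit 12) .nil)))))))) (.g (nat_lit 1) (.e (nat_lit 368202) (nat_lit 0) .nil) .nil)))) 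
(.nd (nat_lit 9) 
(.lf (nat_lit 576839) (.g (nat_lit 1260) (.e (nat_lit 335988) (nat_lit 1) (.e (nat_lit 57830) (nat_lit 250) (.e (nat_lit 1183) (nat_lit 87) (.e (nat_lit 57540) (nat_lit 46) .nil)))) (.g (nat_lit 0) (.e (nat_lit 367465) (nat_lit 0) .nil) .nil))) 
(.lf (nat_lit 577351) (.g (nat_lit 1600) (.e (nat_lit 336020) (nat_lit 3) (.e (nat_lit 98334) (nat_lit 18) (.e (nat_lit 164182) (nat_lit 154) (.e (nat_lit 57411) (nat_lit 12) .nil)))) (.g (nat_lit 0) (.e (nat_lit 368581) (nat_lit 0) .nil) .nil))))) (.nd (nat_lit 8) (.nd (nat_lit 9) 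
(.lf (nat_lit 576711) (.g (nat_lit 2456) (.e (nat_lit 335986) (nat_lit 1) (.e (nat_lit 57692) (nat_lit 156) (.e (nat_lit 163905) (nat_lit 12) (.e (nat_lit 426438) (nat_lit 18) (.e (nat_lit 98369) (nat_lit 28) (.e (nat_lit 442390) (nat_lit 11) .nil)))))) (.g (nat_lit 1) (.e (nat_lit 367205) (nat_lit 0) .nil) .nil))) 
(.lf (nat_lit 577223) (.g (nat_lit 1801) (.e (nat_lit 336019) (nat_lit 3) (.e (nat_lit 98335) (nat_lit 18) (.e (nat_lit 164183) (nat_lit 154) (.e (nat_lit 57409) (nat_lit 12) (.e (nat_lit 336375) (nat_lit 27) .nil))))) (.g (nat_lit 0) (.e (nat_lit 368406) (nat_lit 0) .nil) .nil)))) (.nd (nat_lit 9) 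
(.lf (nat_lit 576967) (.g (nat_lit 2433) (.e (nat_lit 335995) (nat_lit 1) (.e (nat_lit 57931) (nat_lit 282) (.e (nat_lit 163904) (nat_lit 12) (.e (nat_lit 426555) (nat_lit 32) (.e (nat_lit 376869) (nat_lit 23) (.e (nat_lit 98316) (nat_lit 9) .nil)))))) (.g (nat_lit 1) (.e (nat_lit 367833) (nat_lit 0) .nil) .nil))) 
(.lf (nat_lit 577479) (.g (nat_lit 2710) (.e (nat_lit 336025) (nat_lit 3) (.e (nat_lit 98335) (nat_lit 18) (.e (nat_lit 164179) (nat_lit 154) (.e (nat_lit 57378) (nat_lit 3) (.e (nat_lit 98342) (nat_lit 20) .nil))))) (.g (nat_lit 0) (.e (nat_lit 368807) (nat_lit 0) .nil) .nil))))))) (.nd (nat_lit 6) (.nd (nat_lit 7) (.nd (nat_lit 8) (.nd (nat_lit 9) 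
(.lf (nat_lit 576551) (.g (nat_lit 3774) (.e (nat_lit 327700) (nat_lit 8) (.e (nat_lit 303119) (nat_lit 3) (.e (nat_lit 204868) (nat_lit 29) (.e (nat_lit 360475) (nat_lit 8) (.e (nat_lit 557067) (nat_lit 9) .nil))))) (.g (nat_lit 0) (.e (nat_lit 366177) (nat_lit 0) .nil) .nil))) 
(.lf (nat_lit 577063) (.g (nat_lit 1746) (.e (nat_lit 336001) (nat_lit 2) (.e (nat_lit 90185) (nat_lit 17) (.e (nat_lit 237601) (nat_lit 9) (.e (nat_lit 426436) (nat_lit 18) (.e (nat_lit 98342) (nat_lit 20) .nil))))) (.g (nat_lit 0) (.e (nat_lit 368123) (nat_lit 0) .nil) .nil)))) (.nd (nat_lit 9) 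
(.lf (nat_lit 576807) (.g (nat_lit 1313) (.e (nat_lit 335987) (nat_lit 1) (.e (nat_lit 57926) (nat_lit 282) (.e (nat_lit 163875) (nat_lit 3) (.e (nat_lit 204876) (nat_lit 31) (.e (nat_lit 376840) (nat_lit 11) .nil))))) (.g (nat_lit 0) (.e (nat_lit 367408) (nat_lit 0) .nil) .nil))) 
(.lf (nat_lit 577319) (.g (nat_lit 3126) (.e (nat_lit 336019) (nat_lit 3) (.e (nat_lit 98373) (nat_lit 29) (.e (nat_lit 450585) (nat_lit 10) (.e (nat_lit 573474) (nat_lit 12) .nil)))) (.g (nat_lit 0) (.e (nat_lit 368529) (nat_lit 0) .nil) .nil))))) (.nd (nat_lit 8) (.nd (nat_lit 9) 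
(.lf (nat_lit 576679) (.g (nat_lit 656) (.e (nat_lit 335978) (nat_lit 0) (.e (nat_lit 1800) (nat_lit 119) (.e (nat_lit 516119) (nat_lit 1) .nil))) (.g (nat_lit 0) (.e (nat_lit 367143) (nat_lit 0) .nil) .nil))) 
(.lf (nat_lit 577191) (.g (nat_lit 821) (.e (nat_lit 336017) (nat_lit 3) (.e (nat_lit 98369) (nat_lit 28) (.e (nat_lit 442374) (nat_lit 0) (.e (nat_lit 1800) (nat_lit 119) .nil)))) (.g (nat_lit 0) (.e (nat_lit 368359) (nat_lit 0) .nil) .nil)))) (.nd (nat_lit 9) 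
(.lf (nat_lit 576935) (.g (nat_lit 1734) (.e (nat_lit 335995) (nat_lit 1) (.e (nat_lit 57688) (nat_lit 156) (.e (nat_lit 163902) (nat_lit 12) (.e (nat_lit 426434) (nat_lit 18) (.e (nat_lit 98381) (nat_lit 31) .nil))))) (.g (nat_lit 0) (.e (nat_lit 367778) (nat_lit 0) .nil) .nil))) 
(.lf (nat_lit 577447) (.g (nat_lit 1041) (.e (nat_lit 336024) (nat_lit 3) (.e (nat_lit 98333) (nat_lit 18) (.e (nat_lit 164182) (nat_lit 154) .nil))) (.g (nat_lit 0) (.e (nat_lit 368755) (nat_lit 0) .nil) .nil)))))) (.nd (nat_lit 7) (.nd (nat_lit 8) (.nd (nat_lit 9) 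
(.lf (nat_lit 576615) (.g (nat_lit 450) (.e (nat_lit 335874) (nat_lit 0) (.e (nat_lit 6719) (nat_lit 361) (.e (nat_lit 172143) (nat_lit 25) (.e (nat_lit 319493) (nat_lit 0) (.e (nat_lit 5771) (nat_lit 316) (.e (nat_lit 172149) (nat_lit 27) .nil)))))) (.g (nat_lit 1) (.e (nat_lit 366551) (nat_lit 0) .nil) .nil))) 
(.lf (nat_lit 577127) (.g (nat_lit 4161) (.e (nat_lit 336013) (nat_lit 2) (.e (nat_lit 90134) (nat_lit 9) (.e (nat_lit 3025) (nat_lit 187) (.e (nat_lit 450586) (nat_lit 10) (.e (nat_lit 573474) (nat_lit 12) (.e (nat_lit 57572) (nat_lit 54) (.e (nat_lit 770057) (nat_lit 5) (.e (nat_lit 1464) (nat_lit 108) .nil)))))))) (.g (nat_lit 1) (.e (nat_lit 368254) (nat_lit 0) .nil) .nil)))) (.nd (nat_lit 9) 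
(.lf (nat_lit 576871) (.g (nat_lit 2129) (.e (nat_lit 335988) (nat_lit 1) (.e (nat_lit 57927) (nat_lit 282) (.e (nat_lit 163873) (nat_lit 3) (.e (nat_lit 204861) (nat_lit 26) (.e (nat_lit 336076) (nat_lit 9) (.e (nat_lit 336377) (nat_lit 27) (.e (nat_lit 426524) (nat_lit 27) .nil))))))) (.g (nat_lit 1) (.e (nat_lit 367595) (nat_lit 0) .nil) .nil))) 
(.lf (nat_lit 577383) (.g (nat_lit 795) (.e (nat_lit 336020) (nat_lit 3) (.e (nat_lit 98365) (nat_lit 26) (.e (nat_lit 426187) (nat_lit 9) .nil))) (.g (nat_lit 0) (.e (nat_lit 368635) (nat_lit 0) .nil) .nil))))) (.nd (nat_lit 8) (.nd (nat_lit 9) 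
(.lf (nat_lit 576743) (.g (nat_lit 2255) (.e (nat_lit 335986) (nat_lit 1) (.e (nat_lit 57849) (nat_lit 252) (.e (nat_lit 57372) (nat_lit 2) (.e (nat_lit 90158) (nat_lit 11) (.e (nat_lit 24628) (nat_lit 9) (.e (nat_lit 336372) (nat_lit 27) (.e (nat_lit 426524) (nat_lit 27) .nil))))))) (.g (nat_lit 1) (.e (nat_lit 367252) (nat_lit 0) .nil) .nil))) 
(.lf (nat_lit 577255) (.g (nat_lit 3508) (.e (nat_lit 336019) (nat_lit 3) (.e (nat_lit 98342) (nat_lit 20) (.e (nat_lit 221215) (nat_lit 23) (.e (nat_lit 204829) (nat_lit 18) (.e (nat_lit 57926) (nat_lit 282) (.e (nat_lit 163874) (nat_lit 3) (.e (nat_lit 204854) (nat_lit 26) .nil))))))) (.g (nat_lit 1) (.e (nat_lit 368444) (nat_lit 0) .nil) .nil)))) (.nd (nat_lit 9) 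
(.lf (nat_lit 576999) (.g (nat_lit 2837) (.e (nat_lit 335996) (nat_lit 1) (.e (nat_lit 57931) (nat_lit 282) (.e (nat_lit 163905) (nat_lit 12) (.e (nat_lit 426542) (nat_lit 29) (.e (nat_lit 352315) (nat_lit 23) (.e (nat_lit 98312) (nat_lit 9) .nil)))))) (.g (nat_lit 1) (.e (nat_lit 367912) (nat_lit 0) .nil) .nil))) 
(.lf (nat_lit 577511) (.g (nat_lit 2173) (.e (nat_lit 336026) (nat_lit 3) (.e (nat_lit 98333) (nat_lit 18) (.e (nat_lit 164179) (nat_lit 154) (.e (nat_lit 57378) (nat_lit 3) .nil)))) (.g (nat_lit 0) (.e (nat_lit 368856) (nat_lit 0) .nil) .nil)))))))) (.nd (nat_lit 5) (.nd (nat_lit 6) (.nd (nat_lit 7) (.nd (nat_lit 8) (.nd (nat_lit 9) 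
(.lf (nat_lit 576535) (.g (nat_lit 1575) (.e (nat_lit 327699) (nat_lit 8) (.e (nat_lit 303119) (nat_lit 3) (.e (nat_lit 204868) (nat_lit 29) (.e (nat_lit 360473) (nat_lit 8) (.e (nat_lit 557068) (nat_lit 9) (.e (nat_lit 220) (nat_lit 20) .nil)))))) (.g (nat_lit 1) (.e (nat_lit 366081) (nat_lit 0) .nil) .nil))) 
(.lf (nat_lit 577047) (.g (nat_lit 3210) (.e (nat_lit 336001) (nat_lit 2) (.e (nat_lit 90170) (nat_lit 13) (.e (nat_lit 172113) (nat_lit 10) (.e (nat_lit 434245) (nat_lit 28) (.e (nat_lit 573474) (nat_lit 12) (.e (nat_lit 57356) (nat_lit 0) (.e (nat_lit 7272) (nat_lit 385) (.e (nat_lit 122906) (nat_lit 12) .nil)))))))) (.g (nat_lit 1) (.e (nat_lit 368107) (nat_lit 0) .nil) .nil)))) 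
(.nd (nat_lit 9) 
(.lf (nat_lit 576791) (.g (nat_lit 2578) (.e (nat_lit 335986) (nat_lit 1) (.e (nat_lit 57931) (nat_lit 282) (.e (nat_lit 163866) (nat_lit 2) (.e (nat_lit 196666) (nat_lit 13) (.e (nat_lit 65625) (nat_lit 13) .nil))))) (.g (nat_lit 0) (.e (nat_lit 367343) (nat_lit 0) .nil) .nil))) 
(.lf (nat_lit 577303) (.g (nat_lit 2921) (.e (nat_lit 336019) (nat_lit 3) (.e (nat_lit 98372) (nat_lit 29) (.e (nat_lit 450586) (nat_lit 10) (.e (nat_lit 573473) (nat_lit 12) (.e (nat_lit 57347) (nat_lit 0) (.e (nat_lit 7266) (nat_lit 384) (.e (nat_lit 57409) (nat_lit 12) .nil))))))) (.g (nat_lit 1) (.e (nat_lit 368513) (nat_lit 0) .nil) .nil))))) (.nd (nat_lit 8) (.nd (nat_lit 9) 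
(.lf (nat_lit 576663) (.g (nat_lit 2382) (.e (nat_lit 335921) (nat_lit 0) (.e (nat_lit 1788) (nat_lit 119) (.e (nat_lit 516139) (nat_lit 7) (.e (nat_lit 409648) (nat_lit 18) (.e (nat_lit 303116) (nat_lit 2) .nil))))) (.g (nat_lit 0) (.e (nat_lit 367073) (nat_lit 0) .nil) .nil))) 
(.lf (nat_lit 577175) (.g (nat_lit 2684) (.e (nat_lit 336017) (nat_lit 3) (.e (nat_lit 98342) (nat_lit 20) (.e (nat_lit 221214) (nat_lit 23) (.e (nat_lit 204829) (nat_lit 18) (.e (nat_lit 57927) (nat_lit 282) (.e (nat_lit 163875) (nat_lit 3) (.e (nat_lit 204859) (nat_lit 26) .nil))))))) (.g (nat_lit 1) (.e (nat_lit 368342) (nat_lit 0) .nil) .nil)))) (.nd (nat_lit 9) 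
(.lf (nat_lit 576919) (.g (nat_lit 1706) (.e (nat_lit 335994) (nat_lit 1) (.e (nat_lit 57688) (nat_lit 156) (.e (nat_lit 163902) (nat_lit 12) (.e (nat_lit 426434) (nat_lit 18) .nil)))) (.g (nat_lit 0) (.e (nat_lit 367752) (nat_lit 0) .nil) .nil))) 
(.lf (nat_lit 577431) (.g (nat_lit 2821) (.e (nat_lit 336023) (nat_lit 3) (.e (nat_lit 98367) (nat_lit 27) (.e (nat_lit 434272) (nat_lit 38) (.e (nat_lit 655375) (nat_lit 3) .nil)))) (.g (nat_lit 0) (.e (nat_lit 368738) (nat_lit 0) .nil) .nil)))))) (.nd (nat_lit 7) (.nd (nat_lit 8) (.nd (nat_lit 9) 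
(.lf (nat_lit 576599) (.g (nat_lit 557) (.e (nat_lit 335872) (nat_lit 0) (.e (nat_lit 6719) (nat_lit 361) (.e (nat_lit 172143) (nat_lit 25) (.e (nat_lit 319492) (nat_lit 0) (.e (nat_lit 5771) (nat_lit 316) (.e (nat_lit 172149) (nat_lit 27) .nil)))))) (.g (nat_lit 1) (.e (nat_lit 366462) (nat_lit 0) .nil) .nil))) 
(.lf (nat_lit 577111) (.g (nat_lit 2202) (.e (nat_lit 336009) (nat_lit 2) (.e (nat_lit 90170) (nat_lit 13) (.e (nat_lit 172118) (nat_lit 12) (.e (nat_lit 475177) (nat_lit 24) (.e (nat_lit 516129) (nat_lit 3) .nil))))) (.g (nat_lit 0) (.e (nat_lit 368219) (nat_lit 0) .nil) .nil)))) (.nd (nat_lit 9) 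
(.lf (nat_lit 576855) (.g (nat_lit 2605) (.e (nat_lit 335988) (nat_lit 1) (.e (nat_lit 57926) (nat_lit 282) (.e (nat_lit 163902) (nat_lit 12) (.e (nat_lit 426555) (nat_lit 32) (.e (nat_lit 376869) (nat_lit 23) (.e (nat_lit 98316) (nat_lit 9) .nil)))))) (.g (nat_lit 1) (.e (nat_lit 367549) (nat_lit 0) .nil) .nil))) 
(.lf (nat_lit 577367) (.g (nat_lit 1628) (.e (nat_lit 336020) (nat_lit 3) (.e (nat_lit 98350) (nat_lit 24) (.e (nat_lit 409616) (nat_lit 10) (.e (nat_lit 7936) (nat_lit 318) .nil)))) (.g (nat_lit 0) (.e (nat_lit 368615) (nat_lit 0) .nil) .nil))))) (.nd (nat_lit 8) (.nd (nat_lit 9) 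
(.lf (nat_lit 576727) (.g (nat_lit 2091) (.e (nat_lit 335986) (nat_lit 1) (.e (nat_lit 57847) (nat_lit 252) (.e (nat_lit 57372) (nat_lit 2) (.e (nat_lit 90160) (nat_lit 11) (.e (nat_lit 24628) (nat_lit 9) (.e (nat_lit 336366) (nat_lit 27) (.e (nat_lit 426501) (nat_lit 27) .nil))))))) (.g (nat_lit 1) (.e (nat_lit 367231) (nat_lit 0) .nil) .nil))) 
(.lf (nat_lit 577239) (.g (nat_lit 3450) (.e (nat_lit 336019) (nat_lit 3) (.e (nat_lit 98341) (nat_lit 20) (.e (nat_lit 221215) (nat_lit 23) (.e (nat_lit 204831) (nat_lit 18) (.e (nat_lit 57931) (nat_lit 282) (.e (nat_lit 163874) (nat_lit 3) (.e (nat_lit 204854) (nat_lit 26) .nil))))))) (.g (nat_lit 1) (.e (nat_lit 368425) (nat_lit 0) .nil) .nil)))) (.nd (nat_lit 9) 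
(.lf (nat_lit 576983) (.g (nat_lit 2011) (.e (nat_lit 335996) (nat_lit 1) (.e (nat_lit 57929) (nat_lit 282) (.e (nat_lit 163867) (nat_lit 2) (.e (nat_lit 196672) (nat_lit 15) (.e (nat_lit 81925) (nat_lit 11) (.e (nat_lit 426500) (nat_lit 27) .nil)))))) (.g (nat_lit 1) (.e (nat_lit 367886) (nat_lit 0) .nil) .nil))) 
(.lf (nat_lit 577495) (.g (nat_lit 2401) (.e (nat_lit 336025) (nat_lit 3) (.e (nat_lit 98350) (nat_lit 24) (.e (nat_lit 409646) (nat_lit 18) (.e (nat_lit 303112) (nat_lit 0) (.e (nat_lit 3252) (nat_lit 197) .nil))))) (.g (nat_lit 0) (.e (nat_lit 368830) (nat_lit 0) .nil) .nil))))))) (.nd (nat_lit 6) (.nd (nat_lit 7) (.nd (nat_lit 8) (.nd (nat_lit 9) 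
(.lf (nat_lit 576567) (.g (nat_lit 361) (.e (nat_lit 327700) (nat_lit 8) (.e (nat_lit 303145) (nat_lit 13) (.e (nat_lit 483410) (nat_lit 27) .nil))) (.g (nat_lit 0) (.e (nat_lit 366270) (nat_lit 0) .nil) .nil))) 
(.lf (nat_lit 577079) (.g (nat_lit 3556) (.e (nat_lit 336005) (nat_lit 2) (.e (nat_lit 90170) (nat_lit 13) (.e (nat_lit 172113) (nat_lit 10) (.e (nat_lit 434248) (nat_lit 28) (.e (nat_lit 573475) (nat_lit 12) (.e (nat_lit 57354) (nat_lit 0) (.e (nat_lit 7270) (nat_lit 385) (.e (nat_lit 122906) (nat_lit 12) .nil)))))))) (.g (nat_lit 1) (.e (nat_lit 368180) (nat_lit 0) .nil) .nil)))) 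
(.nd (nat_lit 9) 
(.lf (nat_lit 576823) (.g (nat_lit 1588) (.e (nat_lit 335987) (nat_lit 1) (.e (nat_lit 57927) (nat_lit 282) (.e (nat_lit 163905) (nat_lit 12) (.e (nat_lit 426542) (nat_lit 29) (.e (nat_lit 352313) (nat_lit 23) (.e (nat_lit 98312) (nat_lit 9) .nil)))))) (.g (nat_lit 1) (.e (nat_lit 367434) (nat_lit 0) .nil) .nil))) 
(.lf (nat_lit 577335) (.g (nat_lit 4496) (.e (nat_lit 336019) (nat_lit 3) (.e (nat_lit 98373) (nat_lit 29) (.e (nat_lit 450588) (nat_lit 10) (.e (nat_lit 573475) (nat_lit 12) (.e (nat_lit 57570) (nat_lit 54) .nil))))) (.g (nat_lit 0) (.e (nat_lit 368545) (nat_lit 0) .nil) .nil))))) (.nd (nat_lit 8) (.nd (nat_lit 9) 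
(.lf (nat_lit 576695) (.g (nat_lit 2903) (.e (nat_lit 335986) (nat_lit 1) (.e (nat_lit 57688) (nat_lit 156) (.e (nat_lit 163902) (nat_lit 12) (.e (nat_lit 426438) (nat_lit 18) (.e (nat_lit 98369) (nat_lit 28) (.e (nat_lit 442390) (nat_lit 11) .nil)))))) (.g (nat_lit 1) (.e (nat_lit 367186) (nat_lit 0) .nil) .nil))) 
(.lf (nat_lit 577207) (.g (nat_lit 3386) (.e (nat_lit 336018) (nat_lit 3) (.e (nat_lit 98372) (nat_lit 29) (.e (nat_lit 450588) (nat_lit 10) (.e (nat_lit 573475) (nat_lit 12) (.e (nat_lit 57351) (nat_lit 0) .nil))))) (.g (nat_lit 0) (.e (nat_lit 368378) (nat_lit 0) .nil) .nil)))) (.nd (nat_lit 9) 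
(.lf (nat_lit 576951) (.g (nat_lit 1997) (.e (nat_lit 335995) (nat_lit 1) (.e (nat_lit 57848) (nat_lit 252) (.e (nat_lit 57372) (nat_lit 2) (.e (nat_lit 90159) (nat_lit 11) (.e (nat_lit 24627) (nat_lit 9) (.e (nat_lit 336377) (nat_lit 27) (.e (nat_lit 426522) (nat_lit 27) .nil))))))) (.g (nat_lit 1) (.e (nat_lit 367802) (nat_lit 0) .nil) .nil))) 
(.lf (nat_lit 577463) (.g (nat_lit 697) (.e (nat_lit 336025) (nat_lit 3) (.e (nat_lit 98317) (nat_lit 9) (.e (nat_lit 335988) (nat_lit 1) .nil))) (.g (nat_lit 0) (.e (nat_lit 368779) (nat_lit 0) .nil) .nil)))))) (.nd (nat_lit 7) (.nd (nat_lit 8) (.nd (nat_lit 9) 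
(.lf (nat_lit 576631) (.g (nat_lit 1072) (.e (nat_lit 335893) (nat_lit 0) (.e (nat_lit 6720) (nat_lit 361) (.e (nat_lit 172143) (nat_lit 25) (.e (nat_lit 319491) (nat_lit 0) (.e (nat_lit 5771) (nat_lit 316) (.e (nat_lit 172150) (nat_lit 27) .nil)))))) (.g (nat_lit 1) (.e (nat_lit 366780) (nat_lit 0) .nil) .nil))) 
(.lf (nat_lit 577143) (.g (nat_lit 4125) (.e (nat_lit 336013) (nat_lit 2) (.e (nat_lit 90170) (nat_lit 13) (.e (nat_lit 172042) (nat_lit 0) (.e (nat_lit 3406) (nat_lit 212) (.e (nat_lit 655375) (nat_lit 3) (.e (nat_lit 163977) (nat_lit 30) (.e (nat_lit 573485) (nat_lit 13) (.e (nat_lit 65604) (nat_lit 9) .nil)))))))) (.g (nat_lit 1) (.e (nat_lit 368284) (nat_lit 0) .nil) .nil)))) (.nd (nat_lit 9) 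
(.lf (nat_lit 576887) (.g (nat_lit 1855) (.e (nat_lit 335988) (nat_lit 1) (.e (nat_lit 57927) (nat_lit 282) (.e (nat_lit 163905) (nat_lit 12) (.e (nat_lit 426542) (nat_lit 29) (.e (nat_lit 352315) (nat_lit 23) (.e (nat_lit 106240) (nat_lit 9) .nil)))))) (.g (nat_lit 1) (.e (nat_lit 367617) (nat_lit 0) .nil) .nil))) 
(.lf (nat_lit 577399) (.g (nat_lit 3131) (.e (nat_lit 336021) (nat_lit 3) (.e (nat_lit 98349) (nat_lit 24) (.e (nat_lit 409645) (nat_lit 18) (.e (nat_lit 303117) (nat_lit 2) (.e (nat_lit 196665) (nat_lit 13) (.e (nat_lit 65608) (nat_lit 9) .nil)))))) (.g (nat_lit 1) (.e (nat_lit 368695) (nat_lit 0) .nil) .nil))))) (.nd (nat_lit 8) (.nd (nat_lit 9) 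
(.lf (nat_lit 576759) (.g (nat_lit 622) (.e (nat_lit 335986) (nat_lit 1) (.e (nat_lit 57854) (nat_lit 252) (.e (nat_lit 57347) (nat_lit 0) .nil))) (.g (nat_lit 0) (.e (nat_lit 367285) (nat_lit 0) .nil) .nil))) 
(.lf (nat_lit 577271) (.g (nat_lit 2585) (.e (nat_lit 336019) (nat_lit 3) (.e (nat_lit 98349) (nat_lit 24) (.e (nat_lit 409649) (nat_lit 18) (.e (nat_lit 303117) (nat_lit 2) (.e (nat_lit 196681) (nat_lit 17) (.e (nat_lit 131109) (nat_lit 9) .nil)))))) (.g (nat_lit 1) (.e (nat_lit 368465) (nat_lit 0) .nil) .nil)))) (.nd (nat_lit 9) 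
(.lf (nat_lit 577015) (.g (nat_lit 1413) (.e (nat_lit 335997) (nat_lit 1) (.e (nat_lit 57873) (nat_lit 264) (.e (nat_lit 1209) (nat_lit 89) (.e (nat_lit 73781) (nat_lit 32) .nil)))) (.g (nat_lit 0) (.e (nat_lit 367978) (nat_lit 0) .nil) .nil))) 
(.lf (nat_lit 577527) (.g (nat_lit 3132) (.e (nat_lit 336026) (nat_lit 3) (.e (nat_lit 98335) (nat_lit 18) (.e (nat_lit 164179) (nat_lit 154) (.e (nat_lit 57378) (nat_lit 3) (.e (nat_lit 98340) (nat_lit 20) .nil))))) (.g (nat_lit 0) (.e (nat_lit 368886) (nat_lit 0) .nil) .nil))))))))) (.nd (nat_lit 4) (.nd (nat_lit 5) (.nd (nat_lit 6) (.nd (nat_lit 7) (.nd (nat_lit 8) (.nd (nat_lit 9) 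
(.lf (nat_lit 576527) (.g (nat_lit 1955) (.e (nat_lit 327699) (nat_lit 8) (.e (nat_lit 303119) (nat_lit 3) (.e (nat_lit 204845) (nat_lit 24) (.e (nat_lit 319492) (nat_lit 0) .nil)))) (.g (nat_lit 0) (.e (nat_lit 366064) (nat_lit 0) .nil) .nil))) 
(.lf (nat_lit 577039) (.g (nat_lit 4169) (.e (nat_lit 336001) (nat_lit 2) (.e (nat_lit 90170) (nat_lit 13) (.e (nat_lit 172113) (nat_lit 10) (.e (nat_lit 434242) (nat_lit 28) (.e (nat_lit 573474) (nat_lit 12) (.e (nat_lit 57348) (nat_lit 0) (.e (nat_lit 7263) (nat_lit 384) (.e (nat_lit 57412) (nat_lit 12) .nil)))))))) (.g (nat_lit 1) (.e (nat_lit 368099) (nat_lit 0) .nil) .nil)))) 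
(.nd (nat_lit 9) 
(.lf (nat_lit 576783) (.g (nat_lit 2835) (.e (nat_lit 335986) (nat_lit 1) (.e (nat_lit 57927) (nat_lit 282) (.e (nat_lit 163903) (nat_lit 12) (.e (nat_lit 426555) (nat_lit 32) (.e (nat_lit 376869) (nat_lit 23) (.e (nat_lit 98317) (nat_lit 9) .nil)))))) (.g (nat_lit 1) (.e (nat_lit 367324) (nat_lit 0) .nil) .nil))) 
(.lf (nat_lit 577295) (.g (nat_lit 2397) (.e (nat_lit 336019) (nat_lit 3) (.e (nat_lit 98350) (nat_lit 24) (.e (nat_lit 409649) (nat_lit 18) (.e (nat_lit 303116) (nat_lit 2) (.e (nat_lit 196680) (nat_lit 17) (.e (nat_lit 131108) (nat_lit 9) .nil)))))) (.g (nat_lit 1) (.e (nat_lit 368496) (nat_lit 0) .nil) .nil))))) (.nd (nat_lit 8) (.nd (nat_lit 9) 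
(.lf (nat_lit 576655) (.g (nat_lit 793) (.e (nat_lit 335906) (nat_lit 0) (.e (nat_lit 6113) (nat_lit 332) (.e (nat_lit 1376) (nat_lit 104) (.e (nat_lit 311040) (nat_lit 26) .nil)))) (.g (nat_lit 0) (.e (nat_lit 367047) (nat_lit 0) .nil) .nil))) 
(.lf (nat_lit 577167) (.g (nat_lit 1777) (.e (nat_lit 343808) (nat_lit 2) (.e (nat_lit 90170) (nat_lit 13) (.e (nat_lit 172113) (nat_lit 10) (.e (nat_lit 434245) (nat_lit 28) (.e (nat_lit 573473) (nat_lit 12) .nil))))) (.g (nat_lit 0) (.e (nat_lit 368316) (nat_lit 0) .nil) .nil)))) (.nd (nat_lit 9) 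
(.lf (nat_lit 576911) (.g (nat_lit 2110) (.e (nat_lit 335993) (nat_lit 1) (.e (nat_lit 57688) (nat_lit 156) (.e (nat_lit 163902) (nat_lit 12) (.e (nat_lit 426438) (nat_lit 18) (.e (nat_lit 98380) (nat_lit 31) .nil))))) (.g (nat_lit 0) (.e (nat_lit 367720) (nat_lit 0) .nil) .nil))) 
(.lf (nat_lit 577423) (.g (nat_lit 1762) (.e (nat_lit 336023) (nat_lit 3) (.e (nat_lit 98350) (nat_lit 24) (.e (nat_lit 409648) (nat_lit 18) (.e (nat_lit 303108) (nat_lit 0) .nil)))) (.g (nat_lit 0) (.e (nat_lit 368728) (nat_lit 0) .nil) .nil)))))) (.nd (nat_lit 7) (.nd (nat_lit 8) (.nd (nat_lit 9) 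
(.lf (nat_lit 576591) (.g (nat_lit 3214) (.e (nat_lit 335872) (nat_lit 0) (.e (nat_lit 6711) (nat_lit 360) (.e (nat_lit 163962) (nat_lit 25) (.e (nat_lit 532535) (nat_lit 9) (.e (nat_lit 336058) (nat_lit 7) (.e (nat_lit 319519) (nat_lit 12) (.e (nat_lit 32779) (nat_lit 5) (.e (nat_lit 1512) (nat_lit 108) .nil)))))))) (.g (nat_lit 1) (.e (nat_lit 366446) (nat_lit 0) .nil) .nil))) 
(.lf (nat_lit 577103) (.g (nat_lit 2858) (.e (nat_lit 336008) (nat_lit 2) (.e (nat_lit 90170) (nat_lit 13) (.e (nat_lit 172113) (nat_lit 10) (.e (nat_lit 434248) (nat_lit 28) (.e (nat_lit 573473) (nat_lit 12) (.e (nat_lit 57353) (nat_lit 0) (.e (nat_lit 7265) (nat_lit 384) (.e (nat_lit 57412) (nat_lit 12) .nil)))))))) (.g (nat_lit 1) (.e (nat_lit 368210) (nat_lit 0) .nil) .nil)))) 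
(.nd (nat_lit 9) 
(.lf (nat_lit 576847) (.g (nat_lit 2419) (.e (nat_lit 335988) (nat_lit 1) (.e (nat_lit 57926) (nat_lit 282) (.e (nat_lit 163869) (nat_lit 2) (.e (nat_lit 196674) (nat_lit 15) (.e (nat_lit 81925) (nat_lit 11) (.e (nat_lit 426521) (nat_lit 27) .nil)))))) (.g (nat_lit 1) (.e (nat_lit 367522) (nat_lit 0) .nil) .nil))) 
(.lf (nat_lit 577359) (.g (nat_lit 1159) (.e (nat_lit 336020) (nat_lit 3) (.e (nat_lit 98342) (nat_lit 20) (.e (nat_lit 221215) (nat_lit 23) (.e (nat_lit 204829) (nat_lit 18) .nil)))) (.g (nat_lit 0) (.e (nat_lit 368606) (nat_lit 0) .nil) .nil))))) (.nd (nat_lit 8) (.nd (nat_lit 9) 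
(.lf (nat_lit 576719) (.g (nat_lit 3990) (.e (nat_lit 335986) (nat_lit 1) (.e (nat_lit 57847) (nat_lit 252) (.e (nat_lit 57365) (nat_lit 1) (.e (nat_lit 57926) (nat_lit 282) (.e (nat_lit 163933) (nat_lit 17) (.e (nat_lit 466972) (nat_lit 21) (.e (nat_lit 164402) (nat_lit 256) (.e (nat_lit 57419) (nat_lit 12) .nil)))))))) (.g (nat_lit 1) (.e (nat_lit 367223) (nat_lit 0) .nil) .nil))) 
(.lf (nat_lit 577231) (.g (nat_lit 3524) (.e (nat_lit 336019) (nat_lit 3) (.e (nat_lit 98341) (nat_lit 20) (.e (nat_lit 221214) (nat_lit 23) (.e (nat_lit 204830) (nat_lit 18) (.e (nat_lit 57926) (nat_lit 282) (.e (nat_lit 163874) (nat_lit 3) (.e (nat_lit 204854) (nat_lit 26) .nil))))))) (.g (nat_lit 1) (.e (nat_lit 368415) (nat_lit 0) .nil) .nil)))) (.nd (nat_lit 9) 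
(.lf (nat_lit 576975) (.g (nat_lit 2735) (.e (nat_lit 335996) (nat_lit 1) (.e (nat_lit 57692) (nat_lit 156) (.e (nat_lit 163905) (nat_lit 12) (.e (nat_lit 426438) (nat_lit 18) (.e (nat_lit 98380) (nat_lit 31) (.e (nat_lit 466954) (nat_lit 11) .nil)))))) (.g (nat_lit 1) (.e (nat_lit 367852) (nat_lit 0) .nil) .nil))) 
(.lf (nat_lit 577487) (.g (nat_lit 2902) (.e (nat_lit 336025) (nat_lit 3) (.e (nat_lit 98349) (nat_lit 24) (.e (nat_lit 409646) (nat_lit 18) (.e (nat_lit 303117) (nat_lit 2) (.e (nat_lit 196665) (nat_lit 13) .nil))))) (.g (nat_lit 0) (.e (nat_lit 368816) (nat_lit 0) .nil) .nil))))))) (.nd (nat_lit 6) (.nd (nat_lit 7) (.nd (nat_lit 8) (.nd (nat_lit 9) 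
(.lf (nat_lit 576559) (.g (nat_lit 1616) (.e (nat_lit 327700) (nat_lit 8) (.e (nat_lit 303132) (nat_lit 9) (.e (nat_lit 426470) (nat_lit 25) (.e (nat_lit 319490) (nat_lit 0) (.e (nat_lit 5771) (nat_lit 316) (.e (nat_lit 172144) (nat_lit 26) .nil)))))) (.g (nat_lit 1) (.e (nat_lit 366202) (nat_lit 0) .nil) .nil))) 
(.lf (nat_lit 577071) (.g (nat_lit 2956) (.e (nat_lit 336005) (nat_lit 2) (.e (nat_lit 90170) (nat_lit 13) (.e (nat_lit 172106) (nat_lit 10) (.e (nat_lit 434244) (nat_lit 28) (.e (nat_lit 573473) (nat_lit 12) .nil))))) (.g (nat_lit 0) (.e (nat_lit 368172) (nat_lit 0) .nil) .nil)))) (.nd (nat_lit 9) 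
(.lf (nat_lit 576815) (.g (nat_lit 2010) (.e (nat_lit 335987) (nat_lit 1) (.e (nat_lit 57927) (nat_lit 282) (.e (nat_lit 163874) (nat_lit 3) (.e (nat_lit 204861) (nat_lit 26) (.e (nat_lit 336075) (nat_lit 9) .nil))))) (.g (nat_lit 0) (.e (nat_lit 367426) (nat_lit 0) .nil) .nil))) 
(.lf (nat_lit 577327) (.g (nat_lit 5710) (.e (nat_lit 336019) (nat_lit 3) (.e (nat_lit 98373) (nat_lit 29) (.e (nat_lit 450588) (nat_lit 10) (.e (nat_lit 573473) (nat_lit 12) (.e (nat_lit 57354) (nat_lit 0) (.e (nat_lit 7270) (nat_lit 385) (.e (nat_lit 122904) (nat_lit 12) .nil))))))) (.g (nat_lit 1) (.e (nat_lit 368537) (nat_lit 0) .nil) .nil))))) (.nd (nat_lit 8) (.nd (nat_lit 9) 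
(.lf (nat_lit 576687) (.g (nat_lit 1145) (.e (nat_lit 335985) (nat_lit 1) (.e (nat_lit 57873) (nat_lit 264) (.e (nat_lit 1209) (nat_lit 89) (.e (nat_lit 73782) (nat_lit 32) .nil)))) (.g (nat_lit 0) (.e (nat_lit 367175) (nat_lit 0) .nil) .nil))) 
(.lf (nat_lit 577199) (.g (nat_lit 2346) (.e (nat_lit 336018) (nat_lit 3) (.e (nat_lit 98359) (nat_lit 26) (.e (nat_lit 426286) (nat_lit 10) (.e (nat_lit 434245) (nat_lit 28) (.e (nat_lit 573473) (nat_lit 12) .nil))))) (.g (nat_lit 0) (.e (nat_lit 368370) (nat_lit 0) .nil) .nil)))) (.nd (nat_lit 9) 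
(.lf (nat_lit 576943) (.g (nat_lit 2514) (.e (nat_lit 335995) (nat_lit 1) (.e (nat_lit 57688) (nat_lit 156) (.e (nat_lit 163903) (nat_lit 12) (.e (nat_lit 426436) (nat_lit 18) (.e (nat_lit 98381) (nat_lit 31) (.e (nat_lit 466950) (nat_lit 11) .nil)))))) (.g (nat_lit 1) (.e (nat_lit 367786) (nat_lit 0) .nil) .nil))) 
(.lf (nat_lit 577455) (.g (nat_lit 2120) (.e (nat_lit 336024) (nat_lit 3) (.e (nat_lit 98350) (nat_lit 24) (.e (nat_lit 409648) (nat_lit 18) (.e (nat_lit 303116) (nat_lit 2) (.e (nat_lit 196666) (nat_lit 13) .nil))))) (.g (nat_lit 0) (.e (nat_lit 368770) (nat_lit 0) .nil) .nil)))))) (.nd (nat_lit 7) (.nd (nat_lit 8) (.nd (nat_lit 9) 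
(.lf (nat_lit 576623) (.g (nat_lit 2759) (.e (nat_lit 335876) (nat_lit 0) (.e (nat_lit 6713) (nat_lit 360) (.e (nat_lit 163962) (nat_lit 25) (.e (nat_lit 532550) (nat_lit 12) (.e (nat_lit 360475) (nat_lit 8) (.e (nat_lit 557068) (nat_lit 9) (.e (nat_lit 7936) (nat_lit 21) .nil))))))) (.g (nat_lit 1) (.e (nat_lit 366628) (nat_lit 0) .nil) .nil))) 
(.lf (nat_lit 577135) (.g (nat_lit 2745) (.e (nat_lit 336013) (nat_lit 2) (.e (nat_lit 90134) (nat_lit 9) (.e (nat_lit 3098) (nat_lit 192) (.e (nat_lit 491564) (nat_lit 12) (.e (nat_lit 385073) (nat_lit 31) (.e (nat_lit 573485) (nat_lit 13) (.e (nat_lit 65604) (nat_lit 9) .nil))))))) (.g (nat_lit 1) (.e (nat_lit 368263) (nat_lit 0) .nil) .nil)))) (.nd (nat_lit 9) 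
(.lf (nat_lit 576879) (.g (nat_lit 2984) (.e (nat_lit 335988) (nat_lit 1) (.e (nat_lit 57927) (nat_lit 282) (.e (nat_lit 163874) (nat_lit 3) (.e (nat_lit 204866) (nat_lit 28) (.e (nat_lit 352277) (nat_lit 11) (.e (nat_lit 426500) (nat_lit 27) .nil)))))) (.g (nat_lit 1) (.e (nat_lit 367603) (nat_lit 0) .nil) .nil))) 
(.lf (nat_lit 577391) (.g (nat_lit 3632) (.e (nat_lit 336020) (nat_lit 3) (.e (nat_lit 98384) (nat_lit 32) (.e (nat_lit 475199) (nat_lit 40) (.e (nat_lit 704589) (nat_lit 3) (.e (nat_lit 163976) (nat_lit 30) .nil))))) (.g (nat_lit 0) (.e (nat_lit 368643) (nat_lit 0) .nil) .nil))))) (.nd (nat_lit 8) (.nd (nat_lit 9) 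
(.lf (nat_lit 576751) (.g (nat_lit 3026) (.e (nat_lit 335986) (nat_lit 1) (.e (nat_lit 57849) (nat_lit 252) (.e (nat_lit 57375) (nat_lit 2) (.e (nat_lit 90158) (nat_lit 11) (.e (nat_lit 24628) (nat_lit 9) (.e (nat_lit 336372) (nat_lit 27) (.e (nat_lit 426525) (nat_lit 27) .nil))))))) (.g (nat_lit 1) (.e (nat_lit 367260) (nat_lit 0) .nil) .nil))) 
(.lf (nat_lit 577263) (.g (nat_lit 3242) (.e (nat_lit 336019) (nat_lit 3) (.e (nat_lit 98342) (nat_lit 20) (.e (nat_lit 221215) (nat_lit 23) (.e (nat_lit 204830) (nat_lit 18) (.e (nat_lit 57931) (nat_lit 282) (.e (nat_lit 163873) (nat_lit 3) (.e (nat_lit 204853) (nat_lit 26) .nil))))))) (.g (nat_lit 1) (.e (nat_lit 368456) (nat_lit 0) .nil) .nil)))) (.nd (nat_lit 9) 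
(.lf (nat_lit 577007) (.g (nat_lit 1507) (.e (nat_lit 335997) (nat_lit 1) (.e (nat_lit 57857) (nat_lit 254) (.e (nat_lit 163908) (nat_lit 12) (.e (nat_lit 426023) (nat_lit 0) (.e (nat_lit 7107) (nat_lit 380) (.e (nat_lit 164281) (nat_lit 222) (.e (nat_lit 57884) (nat_lit 270) (.e (nat_lit 1448) (nat_lit 108) .nil)))))))) (.g (nat_lit 1) (.e (nat_lit 367947) (nat_lit 0) .nil) .nil))) 
(.lf (nat_lit 577519) (.g (nat_lit 2982) (.e (nat_lit 336026) (nat_lit 3) (.e (nat_lit 98333) (nat_lit 18) (.e (nat_lit 164183) (nat_lit 154) (.e (nat_lit 57378) (nat_lit 3) (.e (nat_lit 98340) (nat_lit 20) (.e (nat_lit 221215) (nat_lit 23) (.e (nat_lit 204861) (nat_lit 26) .nil))))))) (.g (nat_lit 1) (.e (nat_lit 368867) (nat_lit 0) .nil) .nil)))))))) 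
(.nd (nat_lit 5) (.nd (nat_lit 6) (.nd (nat_lit 7) (.nd (nat_lit 8) (.nd (nat_lit 9) 
(.lf (nat_lit 576543) (.g (nat_lit 7744) (.e (nat_lit 327699) (nat_lit 8) (.e (nat_lit 303119) (nat_lit 3) (.e (nat_lit 204869) (nat_lit 29) (.e (nat_lit 360475) (nat_lit 8) (.e (nat_lit 557068) (nat_lit 9) (.e (nat_lit 220) (nat_lit 20) .nil)))))) (.g (nat_lit 1) (.e (nat_lit 366089) (nat_lit 0) .nil) .nil))) 
(.lf (nat_lit 577055) (.g (nat_lit 2151) (.e (nat_lit 336001) (nat_lit 2) (.e (nat_lit 90170) (nat_lit 13) (.e (nat_lit 172113) (nat_lit 10) (.e (nat_lit 434248) (nat_lit 28) (.e (nat_lit 573475) (nat_lit 12) (.e (nat_lit 57344) (nat_lit 0) (.e (nat_lit 7265) (nat_lit 384) (.e (nat_lit 57412) (nat_lit 12) .nil)))))))) (.g (nat_lit 1) (.e (nat_lit 368115) (nat_lit 0) .nil) .nil)))) 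
(.nd (nat_lit 9) 
(.lf (nat_lit 576799) (.g (nat_lit 1933) (.e (nat_lit 335987) (nat_lit 1) (.e (nat_lit 57692) (nat_lit 156) (.e (nat_lit 163907) (nat_lit 12) (.e (nat_lit 426438) (nat_lit 18) (.e (nat_lit 98370) (nat_lit 28) (.e (nat_lit 442388) (nat_lit 11) .nil)))))) (.g (nat_lit 1) (.e (nat_lit 367360) (nat_lit 0) .nil) .nil))) 
(.lf (nat_lit 577311) (.g (nat_lit 3836) (.e (nat_lit 336019) (nat_lit 3) (.e (nat_lit 98372) (nat_lit 29) (.e (nat_lit 450588) (nat_lit 10) (.e (nat_lit 573473) (nat_lit 12) (.e (nat_lit 57354) (nat_lit 0) (.e (nat_lit 7270) (nat_lit 385) (.e (nat_lit 122904) (nat_lit 12) .nil))))))) (.g (nat_lit 1) (.e (nat_lit 368521) (nat_lit 0) .nil) .nil))))) (.nd (nat_lit 8) (.nd (nat_lit 9) 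
(.lf (nat_lit 576671) (.g (nat_lit 2428) (.e (nat_lit 335925) (nat_lit 0) (.e (nat_lit 1788) (nat_lit 119) (.e (nat_lit 516139) (nat_lit 7) (.e (nat_lit 409649) (nat_lit 18) (.e (nat_lit 303117) (nat_lit 2) .nil))))) (.g (nat_lit 0) (.e (nat_lit 367086) (nat_lit 0) .nil) .nil))) 
(.lf (nat_lit 577183) (.g (nat_lit 2709) (.e (nat_lit 336017) (nat_lit 3) (.e (nat_lit 98349) (nat_lit 24) (.e (nat_lit 409645) (nat_lit 18) (.e (nat_lit 303119) (nat_lit 3) (.e (nat_lit 204859) (nat_lit 26) .nil))))) (.g (nat_lit 0) (.e (nat_lit 368350) (nat_lit 0) .nil) .nil)))) (.nd (nat_lit 9) 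
(.lf (nat_lit 576927) (.g (nat_lit 618) (.e (nat_lit 335994) (nat_lit 1) (.e (nat_lit 57873) (nat_lit 264) (.e (nat_lit 1209) (nat_lit 89) .nil))) (.g (nat_lit 0) (.e (nat_lit 367761) (nat_lit 0) .nil) .nil))) 
(.lf (nat_lit 577439) (.g (nat_lit 2434) (.e (nat_lit 336023) (nat_lit 3) (.e (nat_lit 98384) (nat_lit 32) (.e (nat_lit 475199) (nat_lit 40) (.e (nat_lit 704589) (nat_lit 3) .nil)))) (.g (nat_lit 0) (.e (nat_lit 368746) (nat_lit 0) .nil) .nil)))))) (.nd (nat_lit 7) (.nd (nat_lit 8) (.nd (nat_lit 9) 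
(.lf (nat_lit 576607) (.g (nat_lit 3007) (.e (nat_lit 335874) (nat_lit 0) (.e (nat_lit 6713) (nat_lit 360) (.e (nat_lit 163962) (nat_lit 25) (.e (nat_lit 532535) (nat_lit 9) (.e (nat_lit 336058) (nat_lit 7) (.e (nat_lit 319519) (nat_lit 12) (.e (nat_lit 40704) (nat_lit 5) (.e (nat_lit 1515) (nat_lit 108) .nil)))))))) (.g (nat_lit 1) (.e (nat_lit 366531) (nat_lit 0) .nil) .nil))) 
(.lf (nat_lit 577119) (.g (nat_lit 3272) (.e (nat_lit 336011) (nat_lit 2) (.e (nat_lit 90170) (nat_lit 13) (.e (nat_lit 172118) (nat_lit 12) (.e (nat_lit 475179) (nat_lit 24) (.e (nat_lit 516129) (nat_lit 3) (.e (nat_lit 221190) (nat_lit 11) .nil)))))) (.g (nat_lit 1) (.e (nat_lit 368228) (nat_lit 0) .nil) .nil)))) (.nd (nat_lit 9) 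
(.lf (nat_lit 576863) (.g (nat_lit 2646) (.e (nat_lit 335988) (nat_lit 1) (.e (nat_lit 57927) (nat_lit 282) (.e (nat_lit 163868) (nat_lit 2) (.e (nat_lit 196672) (nat_lit 15) (.e (nat_lit 81925) (nat_lit 11) (.e (nat_lit 426500) (nat_lit 27) .nil)))))) (.g (nat_lit 1) (.e (nat_lit 367582) (nat_lit 0) .nil) .nil))) 
(.lf (nat_lit 577375) (.g (nat_lit 1918) (.e (nat_lit 336020) (nat_lit 3) (.e (nat_lit 98350) (nat_lit 24) (.e (nat_lit 409646) (nat_lit 18) (.e (nat_lit 303119) (nat_lit 3) .nil)))) (.g (nat_lit 0) (.e (nat_lit 368625) (nat_lit 0) .nil) .nil))))) (.nd (nat_lit 8) (.nd (nat_lit 9) 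
(.lf (nat_lit 576735) (.g (nat_lit 2653) (.e (nat_lit 335986) (nat_lit 1) (.e (nat_lit 57847) (nat_lit 252) (.e (nat_lit 57375) (nat_lit 2) (.e (nat_lit 90160) (nat_lit 11) (.e (nat_lit 24628) (nat_lit 9) (.e (nat_lit 336379) (nat_lit 27) (.e (nat_lit 426525) (nat_lit 27) .nil))))))) (.g (nat_lit 1) (.e (nat_lit 367239) (nat_lit 0) .nil) .nil))) 
(.lf (nat_lit 577247) (.g (nat_lit 4392) (.e (nat_lit 336019) (nat_lit 3) (.e (nat_lit 98342) (nat_lit 20) (.e (nat_lit 221214) (nat_lit 23) (.e (nat_lit 204829) (nat_lit 18) (.e (nat_lit 57927) (nat_lit 282) (.e (nat_lit 163873) (nat_lit 3) (.e (nat_lit 204853) (nat_lit 26) .nil))))))) (.g (nat_lit 1) (.e (nat_lit 368433) (nat_lit 0) .nil) .nil)))) (.nd (nat_lit 9) 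
(.lf (nat_lit 576991) (.g (nat_lit 2666) (.e (nat_lit 335996) (nat_lit 1) (.e (nat_lit 57931) (nat_lit 282) (.e (nat_lit 163869) (nat_lit 2) (.e (nat_lit 196672) (nat_lit 15) (.e (nat_lit 81925) (nat_lit 11) (.e (nat_lit 426500) (nat_lit 27) .nil)))))) (.g (nat_lit 1) (.e (nat_lit 367903) (nat_lit 0) .nil) .nil))) 
(.lf (nat_lit 577503) (.g (nat_lit 2741) (.e (nat_lit 336025) (nat_lit 3) (.e (nat_lit 98350) (nat_lit 24) (.e (nat_lit 409649) (nat_lit 18) (.e (nat_lit 303117) (nat_lit 2) (.e (nat_lit 196665) (nat_lit 13) .nil))))) (.g (nat_lit 0) (.e (nat_lit 368838) (nat_lit 0) .nil) .nil))))))) (.nd (nat_lit 6) (.nd (nat_lit 7) (.nd (nat_lit 8) (.nd (nat_lit 9) 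
(.lf (nat_lit 576575) (.g (nat_lit 921) (.e (nat_lit 335616) (nat_lit 10) (.e (nat_lit 5293) (nat_lit 298) (.e (nat_lit 1232) (nat_lit 91) (.e (nat_lit 90176) (nat_lit 15) .nil)))) (.g (nat_lit 0) (.e (nat_lit 366354) (nat_lit 0) .nil) .nil))) 
(.lf (nat_lit 577087) (.g (nat_lit 2696) (.e (nat_lit 336008) (nat_lit 2) (.e (nat_lit 90170) (nat_lit 13) (.e (nat_lit 172113) (nat_lit 10) (.e (nat_lit 434245) (nat_lit 28) (.e (nat_lit 573473) (nat_lit 12) (.e (nat_lit 57348) (nat_lit 0) (.e (nat_lit 7261) (nat_lit 384) (.e (nat_lit 57412) (nat_lit 12) .nil)))))))) (.g (nat_lit 1) (.e (nat_lit 368194) (nat_lit 0) .nil) .nil)))) 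
(.nd (nat_lit 9) 
(.lf (nat_lit 576831) (.g (nat_lit 421) (.e (nat_lit 335987) (nat_lit 1) (.e (nat_lit 57927) (nat_lit 282) (.e (nat_lit 163941) (nat_lit 19) .nil))) (.g (nat_lit 0) (.e (nat_lit 367443) (nat_lit 0) .nil) .nil))) 
(.lf (nat_lit 577343) (.g (nat_lit 873) (.e (nat_lit 336020) (nat_lit 3) (.e (nat_lit 98333) (nat_lit 18) (.e (nat_lit 164182) (nat_lit 154) .nil))) (.g (nat_lit 0) (.e (nat_lit 368571) (nat_lit 0) .nil) .nil))))) (.nd (nat_lit 8) (.nd (nat_lit 9) 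
(.lf (nat_lit 576703) (.g (nat_lit 3157) (.e (nat_lit 335986) (nat_lit 1) (.e (nat_lit 57691) (nat_lit 156) (.e (nat_lit 163905) (nat_lit 12) (.e (nat_lit 426428) (nat_lit 17) (.e (nat_lit 90176) (nat_lit 15) (.e (nat_lit 188423) (nat_lit 11) .nil)))))) (.g (nat_lit 1) (.e (nat_lit 367197) (nat_lit 0) .nil) .nil))) 
(.lf (nat_lit 577215) (.g (nat_lit 2147) (.e (nat_lit 336019) (nat_lit 3) (.e (nat_lit 98333) (nat_lit 18) (.e (nat_lit 164183) (nat_lit 154) (.e (nat_lit 57409) (nat_lit 12) (.e (nat_lit 336377) (nat_lit 27) .nil))))) (.g (nat_lit 0) (.e (nat_lit 368397) (nat_lit 0) .nil) .nil)))) (.nd (nat_lit 9) 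
(.lf (nat_lit 576959) (.g (nat_lit 2632) (.e (nat_lit 335995) (nat_lit 1) (.e (nat_lit 57929) (nat_lit 282) (.e (nat_lit 163905) (nat_lit 12) (.e (nat_lit 426555) (nat_lit 32) (.e (nat_lit 376867) (nat_lit 23) (.e (nat_lit 98313) (nat_lit 9) .nil)))))) (.g (nat_lit 1) (.e (nat_lit 367818) (nat_lit 0) .nil) .nil))) 
(.lf (nat_lit 577471) (.g (nat_lit 3113) (.e (nat_lit 336025) (nat_lit 3) (.e (nat_lit 98333) (nat_lit 18) (.e (nat_lit 164182) (nat_lit 154) (.e (nat_lit 57379) (nat_lit 3) (.e (nat_lit 98340) (nat_lit 20) (.e (nat_lit 221215) (nat_lit 23) (.e (nat_lit 204861) (nat_lit 26) .nil))))))) (.g (nat_lit 1) (.e (nat_lit 368792) (nat_lit 0) .nil) .nil)))))) 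
(.nd (nat_lit 7) (.nd (nat_lit 8) (.nd (nat_lit 9) 
(.lf (nat_lit 576639) (.g (nat_lit 286) (.e (nat_lit 335894) (nat_lit 0) (.e (nat_lit 6722) (nat_lit 362) (.e (nat_lit 180272) (nat_lit 26) .nil))) (.g (nat_lit 0) (.e (nat_lit 366923) (nat_lit 0) .nil) .nil))) 
(.lf (nat_lit 577151) (.g (nat_lit 3706) (.e (nat_lit 336013) (nat_lit 2) (.e (nat_lit 90170) (nat_lit 13) (.e (nat_lit 172061) (nat_lit 1) (.e (nat_lit 164346) (nat_lit 240) (.e (nat_lit 2600) (nat_lit 163) (.e (nat_lit 163977) (nat_lit 30) (.e (nat_lit 573485) (nat_lit 13) (.e (nat_lit 65604) (nat_lit 9) .nil)))))))) (.g (nat_lit 1) (.e (nat_lit 368292) (nat_lit 0) .nil) .nil)))) 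
(.nd (nat_lit 9) 
(.lf (nat_lit 576895) (.g (nat_lit 3288) (.e (nat_lit 335988) (nat_lit 1) (.e (nat_lit 57927) (nat_lit 282) (.e (nat_lit 163944) (nat_lit 19) (.e (nat_lit 483393) (nat_lit 23) (.e (nat_lit 336021) (nat_lit 3) (.e (nat_lit 98317) (nat_lit 9) .nil)))))) (.g (nat_lit 1) (.e (nat_lit 367640) (nat_lit 0) .nil) .nil))) 
(.lf (nat_lit 577407) (.g (nat_lit 1891) (.e (nat_lit 336022) (nat_lit 3) (.e (nat_lit 98350) (nat_lit 24) (.e (nat_lit 409649) (nat_lit 18) (.e (nat_lit 303118) (nat_lit 3) .nil)))) (.g (nat_lit 0) (.e (nat_lit 368707) (nat_lit 0) .nil) .nil))))) (.nd (nat_lit 8) (.nd (nat_lit 9) 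
(.lf (nat_lit 576767) (.g (nat_lit 2715) (.e (nat_lit 335986) (nat_lit 1) (.e (nat_lit 57927) (nat_lit 282) (.e (nat_lit 163868) (nat_lit 2) (.e (nat_lit 196672) (nat_lit 15) (.e (nat_lit 81925) (nat_lit 11) (.e (nat_lit 426500) (nat_lit 27) .nil)))))) (.g (nat_lit 1) (.e (nat_lit 367306) (nat_lit 0) .nil) .nil))) 
(.lf (nat_lit 577279) (.g (nat_lit 1490) (.e (nat_lit 336019) (nat_lit 3) (.e (nat_lit 98350) (nat_lit 24) (.e (nat_lit 409645) (nat_lit 18) (.e (nat_lit 303119) (nat_lit 3) .nil)))) (.g (nat_lit 0) (.e (nat_lit 368478) (nat_lit 0) .nil) .nil)))) (.nd (nat_lit 9) 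
(.lf (nat_lit 577023) (.g (nat_lit 3756) (.e (nat_lit 336001) (nat_lit 2) (.e (nat_lit 90170) (nat_lit 13) (.e (nat_lit 172106) (nat_lit 10) (.e (nat_lit 434244) (nat_lit 28) (.e (nat_lit 573473) (nat_lit 12) (.e (nat_lit 57354) (nat_lit 0) (.e (nat_lit 7270) (nat_lit 385) (.e (nat_lit 122906) (nat_lit 12) .nil)))))))) (.g (nat_lit 1) (.e (nat_lit 368083) (nat_lit 0) .nil) .nil))) 
(.lf (nat_lit 577535) (.g (nat_lit 2962) (.e (nat_lit 336026) (nat_lit 3) (.e (nat_lit 98350) (nat_lit 24) (.e (nat_lit 409645) (nat_lit 18) (.e (nat_lit 303112) (nat_lit 0) (.e (nat_lit 3252) (nat_lit 197) .nil))))) (.g (nat_lit 0) (.e (nat_lit 368910) (nat_lit 0) .nil) .nil)))))))))))))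

noncomputable def tv5624 : DT := (.nd (nat_lit 0) (.nd (nat_lit 1) (.nd (nat_lit 2) (.nd (nat_lit 3) (.nd (nat_lit 4) (.nd (nat_lit 5) (.nd (nat_lit 6) (.nd (nat_lit 7) (.nd (nat_lit 8) (.nd (nat_lit 9) 
(.lf (nat_lit 577536) (.g (nat_lit 1758) (.e (nat_lit 336026) (nat_lit 3) (.e (nat_lit 98350) (nat_lit 24) (.e (nat_lit 409646) (nat_lit 18) (.e (nat_lit 303112) (nat_lit 0) .nil)))) (.g (nat_lit 0) (.e (nat_lit 368911) (nat_lit 0) .nil) .nil))) 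
(.lf (nat_lit 578048) (.g (nat_lit 3829) (.e (nat_lit 336099) (nat_lit 9) (.e (nat_lit 336013) (nat_lit 2) (.e (nat_lit 90170) (nat_lit 13) (.e (nat_lit 172059) (nat_lit 1) .nil)))) (.g (nat_lit 0) (.e (nat_lit 370219) (nat_lit 0) .nil) .nil)))) (.nd (nat_lit 9) 
(.lf (nat_lit 577792) (.g (nat_lit 430) (.e (nat_lit 336073) (nat_lit 9) (.e (nat_lit 336013) (nat_lit 2) (.e (nat_lit 90165) (nat_lit 12) .nil))) (.g (nat_lit 0) (.e (nat_lit 369531) (nat_lit 0) .nil) .nil))) 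
(.lf (nat_lit 578304) (.g (nat_lit 2584) (.e (nat_lit 336176) (nat_lit 10) (.e (nat_lit 344130) (nat_lit 26) (.e (nat_lit 557065) (nat_lit 9) (.e (nat_lit 214) (nat_lit 19) (.e (nat_lit 319492) (nat_lit 0) (.e (nat_lit 5761) (nat_lit 315) (.e (nat_lit 163962) (nat_lit 25) (.e (nat_lit 532535) (nat_lit 9) .nil)))))))) (.g (nat_lit 1) (.e (nat_lit 371055) (nat_lit 0) .nil) .nil))))) 
(.nd (nat_lit 8) (.nd (nat_lit 9) 
(.lf (nat_lit 577664) (.g (nat_lit 1548) (.e (nat_lit 343808) (nat_lit 3) (.e (nat_lit 98349) (nat_lit 24) (.e (nat_lit 409646) (nat_lit 18) (.e (nat_lit 303112) (nat_lit 0) .nil)))) (.g (nat_lit 0) (.e (nat_lit 369096) (nat_lit 0) .nil) .nil))) 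
(.lf (nat_lit 578176) (.g (nat_lit 509) (.e (nat_lit 336158) (nat_lit 9) (.e (nat_lit 335988) (nat_lit 1) (.e (nat_lit 57851) (nat_lit 252) .nil))) (.g (nat_lit 0) (.e (nat_lit 370708) (nat_lit 0) .nil) .nil)))) (.nd (nat_lit 9) 
(.lf (nat_lit 577920) (.g (nat_lit 4810) (.e (nat_lit 336079) (nat_lit 9) (.e (nat_lit 336324) (nat_lit 18) (.e (nat_lit 204831) (nat_lit 18) (.e (nat_lit 57849) (nat_lit 252) .nil)))) (.g (nat_lit 0) (.e (nat_lit 369886) (nat_lit 0) .nil) .nil))) 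
(.lf (nat_lit 578432) (.g (nat_lit 2355) (.e (nat_lit 336202) (nat_lit 12) (.e (nat_lit 385074) (nat_lit 31) (.e (nat_lit 573484) (nat_lit 13) (.e (nat_lit 65617) (nat_lit 10) (.e (nat_lit 344130) (nat_lit 26) .nil))))) (.g (nat_lit 0) (.e (nat_lit 371573) (nat_lit 0) .nil) .nil)))))) (.nd (nat_lit 7) (.nd (nat_lit 8) (.nd (nat_lit 9) 
(.lf (nat_lit 577600) (.g (nat_lit 3765) (.e (nat_lit 336028) (nat_lit 3) (.e (nat_lit 98349) (nat_lit 24) (.e (nat_lit 409645) (nat_lit 18) (.e (nat_lit 303119) (nat_lit 3) (.e (nat_lit 204855) (nat_lit 26) (.e (nat_lit 336102) (nat_lit 9) .nil)))))) (.g (nat_lit 1) (.e (nat_lit 369005) (nat_lit 0) .nil) .nil))) 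
(.lf (nat_lit 578112) (.g (nat_lit 4127) (.e (nat_lit 336113) (nat_lit 9) (.e (nat_lit 336324) (nat_lit 18) (.e (nat_lit 204831) (nat_lit 18) (.e (nat_lit 57847) (nat_lit 252) .nil)))) (.g (nat_lit 0) (.e (nat_lit 370383) (nat_lit 0) .nil) .nil)))) (.nd (nat_lit 9) 
(.lf (nat_lit 577856) (.g (nat_lit 2759) (.e (nat_lit 336075) (nat_lit 9) (.e (nat_lit 336368) (nat_lit 27) (.e (nat_lit 426499) (nat_lit 27) (.e (nat_lit 335986) (nat_lit 1) (.e (nat_lit 57927) (nat_lit 282) (.e (nat_lit 163874) (nat_lit 3) (.e (nat_lit 204861) (nat_lit 26) .nil))))))) (.g (nat_lit 1) (.e (nat_lit 369687) (nat_lit 0) .nil) .nil))) 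
(.lf (nat_lit 578368) (.g (nat_lit 2246) (.e (nat_lit 343808) (nat_lit 10) (.e (nat_lit 344117) (nat_lit 21) (.e (nat_lit 516139) (nat_lit 7) (.e (nat_lit 409646) (nat_lit 18) (.e (nat_lit 303119) (nat_lit 3) .nil))))) (.g (nat_lit 0) (.e (nat_lit 371229) (nat_lit 0) .nil) .nil))))) (.nd (nat_lit 8) (.nd (nat_lit 9) 
(.lf (nat_lit 577728) (.g (nat_lit 2720) (.e (nat_lit 336034) (nat_lit 4) (.e (nat_lit 123182) (nat_lit 264) (.e (nat_lit 1183) (nat_lit 87) (.e (nat_lit 57480) (nat_lit 28) (.e (nat_lit 557107) (nat_lit 15) .nil))))) (.g (nat_lit 0) (.e (nat_lit 369178) (nat_lit 0) .nil) .nil))) 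
(.lf (nat_lit 578240) (.g (nat_lit 1716) (.e (nat_lit 336163) (nat_lit 10) (.e (nat_lit 344129) (nat_lit 26) (.e (nat_lit 557087) (nat_lit 11) (.e (nat_lit 24617) (nat_lit 7) .nil)))) (.g (nat_lit 0) (.e (nat_lit 370839) (nat_lit 0) .nil) .nil)))) (.nd (nat_lit 9) 
(.lf (nat_lit 577984) (.g (nat_lit 808) (.e (nat_lit 336094) (nat_lit 9) (.e (nat_lit 336013) (nat_lit 2) (.e (nat_lit 90165) (nat_lit 12) .nil))) (.g (nat_lit 0) (.e (nat_lit 370097) (nat_lit 0) .nil) .nil))) 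
(.lf (nat_lit 578496) (.g (nat_lit 4041) (.e (nat_lit 336208) (nat_lit 12) (.e (nat_lit 385074) (nat_lit 31) (.e (nat_lit 573482) (nat_lit 13) (.e (nat_lit 65630) (nat_lit 14) (.e (nat_lit 401428) (nat_lit 3) (.e (nat_lit 204854) (nat_lit 26) .nil)))))) (.g (nat_lit 1) (.e (nat_lit 371757) (nat_lit 0) .nil) .nil))))))) (.nd (nat_lit 6) (.nd (nat_lit 7) (.nd (nat_lit 8) (.nd (nat_lit 9) 
(.lf (nat_lit 577568) (.g (nat_lit 1540) (.e (nat_lit 336027) (nat_lit 3) (.e (nat_lit 98350) (nat_lit 24) (.e (nat_lit 409648) (nat_lit 18) (.e (nat_lit 303108) (nat_lit 0) .nil)))) (.g (nat_lit 0) (.e (nat_lit 368960) (nat_lit 0) .nil) .nil))) 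
(.lf (nat_lit 578080) (.g (nat_lit 2219) (.e (nat_lit 336101) (nat_lit 9) (.e (nat_lit 336013) (nat_lit 2) (.e (nat_lit 90165) (nat_lit 12) (.e (nat_lit 164208) (nat_lit 176) .nil)))) (.g (nat_lit 0) (.e (nat_lit 370319) (nat_lit 0) .nil) .nil)))) (.nd (nat_lit 9) 
(.lf (nat_lit 577824) (.g (nat_lit 2094) (.e (nat_lit 336074) (nat_lit 9) (.e (nat_lit 336443) (nat_lit 32) (.e (nat_lit 466971) (nat_lit 21) (.e (nat_lit 164322) (nat_lit 230) (.e (nat_lit 163885) (nat_lit 5) (.e (nat_lit 221193) (nat_lit 11) .nil)))))) (.g (nat_lit 1) (.e (nat_lit 369608) (nat_lit 0) .nil) .nil))) 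
(.lf (nat_lit 578336) (.g (nat_lit 2682) (.e (nat_lit 336176) (nat_lit 10) (.e (nat_lit 344133) (nat_lit 26) (.e (nat_lit 557093) (nat_lit 12) (.e (nat_lit 164022) (nat_lit 46) (.e (nat_lit 704629) (nat_lit 9) .nil))))) (.g (nat_lit 0) (.e (nat_lit 371176) (nat_lit 0) .nil) .nil))))) (.nd (nat_lit 8) (.nd (nat_lit 9) 
(.lf (nat_lit 577696) (.g (nat_lit 1801) (.e (nat_lit 343808) (nat_lit 3) (.e (nat_lit 98373) (nat_lit 29) (.e (nat_lit 450587) (nat_lit 10) (.e (nat_lit 573477) (nat_lit 12) .nil)))) (.g (nat_lit 0) (.e (nat_lit 369134) (nat_lit 0) .nil) .nil))) 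
(.lf (nat_lit 578208) (.g (nat_lit 1653) (.e (nat_lit 336142) (nat_lit 9) (.e (nat_lit 336027) (nat_lit 3) (.e (nat_lit 98350) (nat_lit 24) (.e (nat_lit 409623) (nat_lit 10) .nil)))) (.g (nat_lit 0) (.e (nat_lit 370791) (nat_lit 0) .nil) .nil)))) (.nd (nat_lit 9) 
(.lf (nat_lit 577952) (.g (nat_lit 585) (.e (nat_lit 336084) (nat_lit 9) (.e (nat_lit 336443) (nat_lit 32) (.e (nat_lit 466972) (nat_lit 21) .nil))) (.g (nat_lit 0) (.e (nat_lit 369972) (nat_lit 0) .nil) .nil))) 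
(.lf (nat_lit 578464) (.g (nat_lit 1695) (.e (nat_lit 336205) (nat_lit 12) (.e (nat_lit 385074) (nat_lit 31) (.e (nat_lit 573493) (nat_lit 15) (.e (nat_lit 81947) (nat_lit 20) .nil)))) (.g (nat_lit 0) (.e (nat_lit 371658) (nat_lit 0) .nil) .nil)))))) (.nd (nat_lit 7) (.nd (nat_lit 8) (.nd (nat_lit 9) 
(.lf (nat_lit 577632) (.g (nat_lit 1432) (.e (nat_lit 336028) (nat_lit 3) (.e (nat_lit 98350) (nat_lit 24) (.e (nat_lit 409648) (nat_lit 18) (.e (nat_lit 303104) (nat_lit 0) .nil)))) (.g (nat_lit 0) (.e (nat_lit 369048) (nat_lit 0) .nil) .nil))) 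
(.lf (nat_lit 578144) (.g (nat_lit 787) (.e (nat_lit 336136) (nat_lit 9) (.e (nat_lit 336013) (nat_lit 2) (.e (nat_lit 90165) (nat_lit 12) .nil))) (.g (nat_lit 0) (.e (nat_lit 370554) (nat_lit 0) .nil) .nil)))) (.nd (nat_lit 9) 
(.lf (nat_lit 577888) (.g (nat_lit 3750) (.e (nat_lit 336076) (nat_lit 9) (.e (nat_lit 336454) (nat_lit 34) (.e (nat_lit 483365) (nat_lit 18) (.e (nat_lit 57929) (nat_lit 282) (.e (nat_lit 163874) (nat_lit 3) (.e (nat_lit 204861) (nat_lit 26) .nil)))))) (.g (nat_lit 1) (.e (nat_lit 369759) (nat_lit 0) .nil) .nil))) 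
(.lf (nat_lit 578400) (.g (nat_lit 1956) (.e (nat_lit 336194) (nat_lit 12) (.e (nat_lit 385103) (nat_lit 50) (.e (nat_lit 786483) (nat_lit 30) (.e (nat_lit 360457) (nat_lit 0) (.e (nat_lit 5948) (nat_lit 322) (.e (nat_lit 57419) (nat_lit 12) .nil)))))) (.g (nat_lit 1) (.e (nat_lit 371369) (nat_lit 0) .nil) .nil))))) (.nd (nat_lit 8) (.nd (nat_lit 9) 
(.lf (nat_lit 577760) (.g (nat_lit 3131) (.e (nat_lit 336051) (nat_lit 6) (.e (nat_lit 147496) (nat_lit 11) (.e (nat_lit 24608) (nat_lit 3) (.e (nat_lit 98334) (nat_lit 18) (.e (nat_lit 164226) (nat_lit 181) (.e (nat_lit 2617) (nat_lit 164) (.e (nat_lit 172149) (nat_lit 27) .nil))))))) (.g (nat_lit 1) (.e (nat_lit 369238) (nat_lit 0) .nil) .nil))) 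
(.lf (nat_lit 578272) (.g (nat_lit 1632) (.e (nat_lit 336173) (nat_lit 10) (.e (nat_lit 344133) (nat_lit 26) (.e (nat_lit 557091) (nat_lit 12) (.e (nat_lit 164020) (nat_lit 45) .nil)))) (.g (nat_lit 0) (.e (nat_lit 370936) (nat_lit 0) .nil) .nil)))) (.nd (nat_lit 9) 
(.lf (nat_lit 578016) (.g (nat_lit 1117) (.e (nat_lit 336099) (nat_lit 9) (.e (nat_lit 336013) (nat_lit 2) (.e (nat_lit 90133) (nat_lit 9) .nil))) (.g (nat_lit 0) (.e (nat_lit 370180) (nat_lit 0) .nil) .nil))) 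
(.lf (nat_lit 578528) (.g (nat_lit 1477) (.e (nat_lit 336220) (nat_lit 13) (.e (nat_lit 393229) (nat_lit 9) (.e (nat_lit 335988) (nat_lit 1) (.e (nat_lit 57927) (nat_lit 282) .nil)))) (.g (nat_lit 0) (.e (nat_lit 371864) (nat_lit 0) .nil) .nil)))))))) (.nd (nat_lit 5) (.nd (nat_lit 6) (.nd (nat_lit 7) (.nd (nat_lit 8) (.nd (nat_lit 9) 
(.lf (nat_lit 577552) (.g (nat_lit 4140) (.e (nat_lit 336027) (nat_lit 3) (.e (nat_lit 98349) (nat_lit 24) (.e (nat_lit 409645) (nat_lit 18) (.e (nat_lit 303119) (nat_lit 3) (.e (nat_lit 204852) (nat_lit 26) (.e (nat_lit 336129) (nat_lit 9) .nil)))))) (.g (nat_lit 1) (.e (nat_lit 368938) (nat_lit 0) .nil) .nil))) 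
(.lf (nat_lit 578064) (.g (nat_lit 751) (.e (nat_lit 336099) (nat_lit 9) (.e (nat_lit 336028) (nat_lit 3) (.e (nat_lit 98353) (nat_lit 25) .nil))) (.g (nat_lit 0) (.e (nat_lit 370253) (nat_lit 0) .nil) .nil)))) (.nd (nat_lit 9) 
(.lf (nat_lit 577808) (.g (nat_lit 4333) (.e (nat_lit 336073) (nat_lit 9) (.e (nat_lit 336324) (nat_lit 18) (.e (nat_lit 204831) (nat_lit 18) (.e (nat_lit 57849) (nat_lit 252) (.e (nat_lit 57445) (nat_lit 19) .nil))))) (.g (nat_lit 0) (.e (nat_lit 369567) (nat_lit 0) .nil) .nil))) 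
(.lf (nat_lit 578320) (.g (nat_lit 2337) (.e (nat_lit 336176) (nat_lit 10) (.e (nat_lit 344133) (nat_lit 26) (.e (nat_lit 557087) (nat_lit 11) (.e (nat_lit 24576) (nat_lit 0) .nil)))) (.g (nat_lit 0) (.e (nat_lit 371136) (nat_lit 0) .nil) .nil))))) (.nd (nat_lit 8) (.nd (nat_lit 9) 
(.lf (nat_lit 577680) (.g (nat_lit 1998) (.e (nat_lit 343808) (nat_lit 3) (.e (nat_lit 98373) (nat_lit 29) (.e (nat_lit 450585) (nat_lit 10) (.e (nat_lit 573474) (nat_lit 12) .nil)))) (.g (nat_lit 0) (.e (nat_lit 369118) (nat_lit 0) .nil) .nil))) 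
(.lf (nat_lit 578192) (.g (nat_lit 1506) (.e (nat_lit 336158) (nat_lit 9) (.e (nat_lit 336004) (nat_lit 2) (.e (nat_lit 90181) (nat_lit 16) (.e (nat_lit 229569) (nat_lit 176) (.e (nat_lit 2815) (nat_lit 181) (.e (nat_lit 311314) (nat_lit 3) (.e (nat_lit 212736) (nat_lit 26) .nil))))))) (.g (nat_lit 1) (.e (nat_lit 370744) (nat_lit 0) .nil) .nil)))) (.nd (nat_lit 9) 
(.lf (nat_lit 577936) (.g (nat_lit 2149) (.e (nat_lit 336083) (nat_lit 9) (.e (nat_lit 336443) (nat_lit 32) (.e (nat_lit 466969) (nat_lit 21) (.e (nat_lit 164327) (nat_lit 230) (.e (nat_lit 163886) (nat_lit 5) (.e (nat_lit 229120) (nat_lit 11) .nil)))))) (.g (nat_lit 1) (.e (nat_lit 369934) (nat_lit 0) .nil) .nil))) 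
(.lf (nat_lit 578448) (.g (nat_lit 2061) (.e (nat_lit 336204) (nat_lit 12) (.e (nat_lit 385074) (nat_lit 31) (.e (nat_lit 573493) (nat_lit 15) (.e (nat_lit 81958) (nat_lit 24) .nil)))) (.g (nat_lit 0) (.e (nat_lit 371623) (nat_lit 0) .nil) .nil)))))) (.nd (nat_lit 7) (.nd (nat_lit 8) (.nd (nat_lit 9) 
(.lf (nat_lit 577616) (.g (nat_lit 1709) (.e (nat_lit 336028) (nat_lit 3) (.e (nat_lit 98350) (nat_lit 24) (.e (nat_lit 409643) (nat_lit 18) (.e (nat_lit 303119) (nat_lit 3) (.e (nat_lit 204861) (nat_lit 26) .nil))))) (.g (nat_lit 0) (.e (nat_lit 369032) (nat_lit 0) .nil) .nil))) 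
(.lf (nat_lit 578128) (.g (nat_lit 2302) (.e (nat_lit 336129) (nat_lit 9) (.e (nat_lit 336025) (nat_lit 3) (.e (nat_lit 98350) (nat_lit 24) (.e (nat_lit 409646) (nat_lit 18) (.e (nat_lit 303119) (nat_lit 3) .nil))))) (.g (nat_lit 0) (.e (nat_lit 370491) (nat_lit 0) .nil) .nil)))) (.nd (nat_lit 9) 
(.lf (nat_lit 577872) (.g (nat_lit 2854) (.e (nat_lit 336075) (nat_lit 9) (.e (nat_lit 336454) (nat_lit 34) (.e (nat_lit 483364) (nat_lit 18) (.e (nat_lit 57929) (nat_lit 282) (.e (nat_lit 163873) (nat_lit 3) (.e (nat_lit 204861) (nat_lit 26) .nil)))))) (.g (nat_lit 1) (.e (nat_lit 369708) (nat_lit 0) .nil) .nil))) 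
(.lf (nat_lit 578384) (.g (nat_lit 1669) (.e (nat_lit 336186) (nat_lit 11) (.e (nat_lit 368676) (nat_lit 21) (.e (nat_lit 516185) (nat_lit 16) (.e (nat_lit 491526) (nat_lit 0) .nil)))) (.g (nat_lit 0) (.e (nat_lit 371303) (nat_lit 0) .nil) .nil))))) (.nd (nat_lit 8) (.nd (nat_lit 9) 
(.lf (nat_lit 577744) (.g (nat_lit 980) (.e (nat_lit 336049) (nat_lit 6) (.e (nat_lit 147500) (nat_lit 12) (.e (nat_lit 164054) (nat_lit 56) (.e (nat_lit 786457) (nat_lit 18) (.e (nat_lit 98381) (nat_lit 31) (.e (nat_lit 466954) (nat_lit 11) .nil)))))) (.g (nat_lit 1) (.e (nat_lit 369210) (nat_lit 0) .nil) .nil))) 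
(.lf (nat_lit 578256) (.g (nat_lit 2991) (.e (nat_lit 336173) (nat_lit 10) (.e (nat_lit 344117) (nat_lit 21) (.e (nat_lit 516139) (nat_lit 7) (.e (nat_lit 417536) (nat_lit 10) .nil)))) (.g (nat_lit 0) (.e (nat_lit 370889) (nat_lit 0) .nil) .nil)))) (.nd (nat_lit 9) 
(.lf (nat_lit 578000) (.g (nat_lit 2307) (.e (nat_lit 336096) (nat_lit 9) (.e (nat_lit 336013) (nat_lit 2) (.e (nat_lit 90165) (nat_lit 12) (.e (nat_lit 164209) (nat_lit 176) .nil)))) (.g (nat_lit 0) (.e (nat_lit 370145) (nat_lit 0) .nil) .nil))) 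
(.lf (nat_lit 578512) (.g (nat_lit 1106) (.e (nat_lit 336211) (nat_lit 13) (.e (nat_lit 393225) (nat_lit 9) (.e (nat_lit 335996) (nat_lit 1) (.e (nat_lit 57929) (nat_lit 282) .nil)))) (.g (nat_lit 0) (.e (nat_lit 371796) (nat_lit 0) .nil) .nil))))))) (.nd (nat_lit 6) (.nd (nat_lit 7) (.nd (nat_lit 8) (.nd (nat_lit 9) 
(.lf (nat_lit 577584) (.g (nat_lit 3593) (.e (nat_lit 336027) (nat_lit 3) (.e (nat_lit 98384) (nat_lit 32) (.e (nat_lit 475199) (nat_lit 40) (.e (nat_lit 704589) (nat_lit 3) (.e (nat_lit 163979) (nat_lit 30) .nil))))) (.g (nat_lit 0) (.e (nat_lit 368978) (nat_lit 0) .nil) .nil))) 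
(.lf (nat_lit 578096) (.g (nat_lit 2221) (.e (nat_lit 336111) (nat_lit 9) (.e (nat_lit 336028) (nat_lit 3) (.e (nat_lit 98349) (nat_lit 24) (.e (nat_lit 409647) (nat_lit 18) (.e (nat_lit 303118) (nat_lit 3) .nil))))) (.g (nat_lit 0) (.e (nat_lit 370348) (nat_lit 0) .nil) .nil)))) (.nd (nat_lit 9) 
(.lf (nat_lit 577840) (.g (nat_lit 1454) (.e (nat_lit 336074) (nat_lit 9) (.e (nat_lit 336456) (nat_lit 34) (.e (nat_lit 483363) (nat_lit 18) (.e (nat_lit 57847) (nat_lit 252) .nil)))) (.g (nat_lit 0) (.e (nat_lit 369624) (nat_lit 0) .nil) .nil))) 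
(.lf (nat_lit 578352) (.g (nat_lit 3696) (.e (nat_lit 336178) (nat_lit 10) (.e (nat_lit 344117) (nat_lit 21) (.e (nat_lit 516138) (nat_lit 7) (.e (nat_lit 409646) (nat_lit 18) (.e (nat_lit 303119) (nat_lit 3) (.e (nat_lit 204855) (nat_lit 26) .nil)))))) (.g (nat_lit 1) (.e (nat_lit 371209) (nat_lit 0) .nil) .nil))))) (.nd (nat_lit 8) (.nd (nat_lit 9) 
(.lf (nat_lit 577712) (.g (nat_lit 3849) (.e (nat_lit 343808) (nat_lit 3) (.e (nat_lit 98373) (nat_lit 29) (.e (nat_lit 450588) (nat_lit 10) (.e (nat_lit 573478) (nat_lit 12) .nil)))) (.g (nat_lit 0) (.e (nat_lit 369150) (nat_lit 0) .nil) .nil))) 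
(.lf (nat_lit 578224) (.g (nat_lit 3903) (.e (nat_lit 336160) (nat_lit 10) (.e (nat_lit 344119) (nat_lit 21) (.e (nat_lit 516139) (nat_lit 7) (.e (nat_lit 409646) (nat_lit 18) (.e (nat_lit 303119) (nat_lit 3) (.e (nat_lit 204852) (nat_lit 26) .nil)))))) (.g (nat_lit 1) (.e (nat_lit 370813) (nat_lit 0) .nil) .nil)))) (.nd (nat_lit 9) 
(.lf (nat_lit 577968) (.g (nat_lit 1629) (.e (nat_lit 336088) (nat_lit 9) (.e (nat_lit 336019) (nat_lit 3) (.e (nat_lit 106240) (nat_lit 10) (.e (nat_lit 344161) (nat_lit 37) (.e (nat_lit 647183) (nat_lit 4) (.e (nat_lit 172147) (nat_lit 27) .nil)))))) (.g (nat_lit 1) (.e (nat_lit 370043) (nat_lit 0) .nil) .nil))) 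
(.lf (nat_lit 578480) (.g (nat_lit 2691) (.e (nat_lit 336206) (nat_lit 12) (.e (nat_lit 385074) (nat_lit 31) (.e (nat_lit 573488) (nat_lit 14) (.e (nat_lit 73782) (nat_lit 32) (.e (nat_lit 2681) (nat_lit 168) (.e (nat_lit 204859) (nat_lit 26) .nil)))))) (.g (nat_lit 1) (.e (nat_lit 371707) (nat_lit 0) .nil) .nil)))))) (.nd (nat_lit 7) (.nd (nat_lit 8) (.nd (nat_lit 9) 
(.lf (nat_lit 577648) (.g (nat_lit 2229) (.e (nat_lit 336028) (nat_lit 3) (.e (nat_lit 98350) (nat_lit 24) (.e (nat_lit 409649) (nat_lit 18) (.e (nat_lit 303119) (nat_lit 3) (.e (nat_lit 204855) (nat_lit 26) .nil))))) (.g (nat_lit 0) (.e (nat_lit 369064) (nat_lit 0) .nil) .nil))) 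
(.lf (nat_lit 578160) (.g (nat_lit 1620) (.e (nat_lit 336152) (nat_lit 9) (.e (nat_lit 336442) (nat_lit 32) (.e (nat_lit 466971) (nat_lit 21) (.e (nat_lit 164325) (nat_lit 230) (.e (nat_lit 163886) (nat_lit 5) (.e (nat_lit 221192) (nat_lit 11) .nil)))))) (.g (nat_lit 1) (.e (nat_lit 370620) (nat_lit 0) .nil) .nil)))) (.nd (nat_lit 9) 
(.lf (nat_lit 577904) (.g (nat_lit 3347) (.e (nat_lit 336077) (nat_lit 9) (.e (nat_lit 336443) (nat_lit 32) (.e (nat_lit 466972) (nat_lit 21) (.e (nat_lit 164330) (nat_lit 230) (.e (nat_lit 163885) (nat_lit 5) (.e (nat_lit 221194) (nat_lit 11) .nil)))))) (.g (nat_lit 1) (.e (nat_lit 369810) (nat_lit 0) .nil) .nil))) 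
(.lf (nat_lit 578416) (.g (nat_lit 2414) (.e (nat_lit 336198) (nat_lit 12) (.e (nat_lit 385074) (nat_lit 31) (.e (nat_lit 573493) (nat_lit 15) (.e (nat_lit 81938) (nat_lit 20) (.e (nat_lit 1842) (nat_lit 123) .nil))))) (.g (nat_lit 0) (.e (nat_lit 371506) (nat_lit 0) .nil) .nil))))) (.nd (nat_lit 8) (.nd (nat_lit 9) 
(.lf (nat_lit 577776) (.g (nat_lit 345) (.e (nat_lit 336060) (nat_lit 7) (.e (nat_lit 319505) (nat_lit 10) (.e (nat_lit 4925) (nat_lit 287) .nil))) (.g (nat_lit 0) (.e (nat_lit 369440) (nat_lit 0) .nil) .nil))) 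
(.lf (nat_lit 578288) (.g (nat_lit 2887) (.e (nat_lit 336176) (nat_lit 10) (.e (nat_lit 344117) (nat_lit 21) (.e (nat_lit 516139) (nat_lit 7) (.e (nat_lit 417536) (nat_lit 18) .nil)))) (.g (nat_lit 0) (.e (nat_lit 370988) (nat_lit 0) .nil) .nil)))) (.nd (nat_lit 9) 
(.lf (nat_lit 578032) (.g (nat_lit 2068) (.e (nat_lit 336099) (nat_lit 9) (.e (nat_lit 336013) (nat_lit 2) (.e (nat_lit 90165) (nat_lit 12) (.e (nat_lit 164211) (nat_lit 176) .nil)))) (.g (nat_lit 0) (.e (nat_lit 370197) (nat_lit 0) .nil) .nil))) 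
(.lf (nat_lit 578544) (.g (nat_lit 1156) (.e (nat_lit 336226) (nat_lit 14) (.e (nat_lit 401437) (nat_lit 9) (.e (nat_lit 426533) (nat_lit 28) (.e (nat_lit 344085) (nat_lit 15) .nil)))) (.g (nat_lit 0) (.e (nat_lit 371928) (nat_lit 0) .nil) .nil))))))))) (.nd (nat_lit 4) (.nd (nat_lit 5) (.nd (nat_lit 6) (.nd (nat_lit 7) (.nd (nat_lit 8) (.nd (nat_lit 9) 
(.lf (nat_lit 577544) (.g (nat_lit 1459) (.e (nat_lit 336027) (nat_lit 3) (.e (nat_lit 98323) (nat_lit 17) (.e (nat_lit 6989) (nat_lit 377) (.e (nat_lit 2810) (nat_lit 180) (.e (nat_lit 303119) (nat_lit 3) .nil))))) (.g (nat_lit 0) (.e (nat_lit 368923) (nat_lit 0) .nil) .nil))) 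
(.lf (nat_lit 578056) (.g (nat_lit 2114) (.e (nat_lit 336099) (nat_lit 9) (.e (nat_lit 336028) (nat_lit 3) (.e (nat_lit 98349) (nat_lit 24) (.e (nat_lit 409644) (nat_lit 18) (.e (nat_lit 303106) (nat_lit 0) (.e (nat_lit 7936) (nat_lit 197) (.e (nat_lit 532535) (nat_lit 9) .nil))))))) (.g (nat_lit 1) (.e (nat_lit 370243) (nat_lit 0) .nil) .nil)))) (.nd (nat_lit 9) 
(.lf (nat_lit 577800) (.g (nat_lit 2612) (.e (nat_lit 336073) (nat_lit 9) (.e (nat_lit 336028) (nat_lit 3) (.e (nat_lit 98349) (nat_lit 24) (.e (nat_lit 409649) (nat_lit 18) (.e (nat_lit 303119) (nat_lit 3) .nil))))) (.g (nat_lit 0) (.e (nat_lit 369545) (nat_lit 0) .nil) .nil))) 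
(.lf (nat_lit 578312) (.g (nat_lit 2155) (.e (nat_lit 336176) (nat_lit 10) (.e (nat_lit 344132) (nat_lit 26) (.e (nat_lit 557091) (nat_lit 12) (.e (nat_lit 164019) (nat_lit 45) (.e (nat_lit 696344) (nat_lit 8) .nil))))) (.g (nat_lit 0) (.e (nat_lit 371119) (nat_lit 0) .nil) .nil))))) (.nd (nat_lit 8) (.nd (nat_lit 9) 
(.lf (nat_lit 577672) (.g (nat_lit 1979) (.e (nat_lit 343808) (nat_lit 3) (.e (nat_lit 98350) (nat_lit 24) (.e (nat_lit 409647) (nat_lit 18) (.e (nat_lit 303118) (nat_lit 3) (.e (nat_lit 204855) (nat_lit 26) .nil))))) (.g (nat_lit 0) (.e (nat_lit 369108) (nat_lit 0) .nil) .nil))) 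
(.lf (nat_lit 578184) (.g (nat_lit 2145) (.e (nat_lit 336158) (nat_lit 9) (.e (nat_lit 335988) (nat_lit 1) (.e (nat_lit 57854) (nat_lit 252) (.e (nat_lit 57389) (nat_lit 5) (.e (nat_lit 122624) (nat_lit 16) .nil))))) (.g (nat_lit 0) (.e (nat_lit 370723) (nat_lit 0) .nil) .nil)))) (.nd (nat_lit 9) 
(.lf (nat_lit 577928) (.g (nat_lit 3546) (.e (nat_lit 336082) (nat_lit 9) (.e (nat_lit 336454) (nat_lit 34) (.e (nat_lit 483365) (nat_lit 18) (.e (nat_lit 57851) (nat_lit 252) .nil)))) (.g (nat_lit 0) (.e (nat_lit 369912) (nat_lit 0) .nil) .nil))) 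
(.lf (nat_lit 578440) (.g (nat_lit 4004) (.e (nat_lit 336204) (nat_lit 12) (.e (nat_lit 385074) (nat_lit 31) (.e (nat_lit 573484) (nat_lit 13) (.e (nat_lit 65630) (nat_lit 14) (.e (nat_lit 401427) (nat_lit 3) .nil))))) (.g (nat_lit 0) (.e (nat_lit 371615) (nat_lit 0) .nil) .nil)))))) (.nd (nat_lit 7) (.nd (nat_lit 8) (.nd (nat_lit 9) 
(.lf (nat_lit 577608) (.g (nat_lit 2216) (.e (nat_lit 336028) (nat_lit 3) (.e (nat_lit 98349) (nat_lit 24) (.e (nat_lit 409649) (nat_lit 18) (.e (nat_lit 303119) (nat_lit 3) (.e (nat_lit 204855) (nat_lit 26) .nil))))) (.g (nat_lit 0) (.e (nat_lit 369013) (nat_lit 0) .nil) .nil))) 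
(.lf (nat_lit 578120) (.g (nat_lit 4089) (.e (nat_lit 336114) (nat_lit 9) (.e (nat_lit 336454) (nat_lit 34) (.e (nat_lit 483365) (nat_lit 18) (.e (nat_lit 57854) (nat_lit 252) .nil)))) (.g (nat_lit 0) (.e (nat_lit 370410) (nat_lit 0) .nil) .nil)))) (.nd (nat_lit 9) 
(.lf (nat_lit 577864) (.g (nat_lit 4134) (.e (nat_lit 336075) (nat_lit 9) (.e (nat_lit 336454) (nat_lit 34) (.e (nat_lit 483363) (nat_lit 18) (.e (nat_lit 57926) (nat_lit 282) (.e (nat_lit 163875) (nat_lit 3) (.e (nat_lit 204861) (nat_lit 26) .nil)))))) (.g (nat_lit 1) (.e (nat_lit 369700) (nat_lit 0) .nil) .nil))) 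
(.lf (nat_lit 578376) (.g (nat_lit 2888) (.e (nat_lit 336186) (nat_lit 11) (.e (nat_lit 368676) (nat_lit 21) (.e (nat_lit 516138) (nat_lit 7) (.e (nat_lit 409646) (nat_lit 18) (.e (nat_lit 303119) (nat_lit 3) (.e (nat_lit 204860) (nat_lit 26) .nil)))))) (.g (nat_lit 1) (.e (nat_lit 371279) (nat_lit 0) .nil) .nil))))) (.nd (nat_lit 8) (.nd (nat_lit 9) 
(.lf (nat_lit 577736) (.g (nat_lit 2166) (.e (nat_lit 336047) (nat_lit 6) (.e (nat_lit 147495) (nat_lit 11) (.e (nat_lit 24640) (nat_lit 10) (.e (nat_lit 344177) (nat_lit 43) .nil)))) (.g (nat_lit 0) (.e (nat_lit 369190) (nat_lit 0) .nil) .nil))) 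
(.lf (nat_lit 578248) (.g (nat_lit 564) (.e (nat_lit 336171) (nat_lit 10) (.e (nat_lit 344132) (nat_lit 26) (.e (nat_lit 557091) (nat_lit 12) .nil))) (.g (nat_lit 0) (.e (nat_lit 370867) (nat_lit 0) .nil) .nil)))) (.nd (nat_lit 9) 
(.lf (nat_lit 577992) (.g (nat_lit 2764) (.e (nat_lit 336097) (nat_lit 9) (.e (nat_lit 336028) (nat_lit 3) (.e (nat_lit 98350) (nat_lit 24) (.e (nat_lit 409643) (nat_lit 18) (.e (nat_lit 303119) (nat_lit 3) .nil))))) (.g (nat_lit 0) (.e (nat_lit 370134) (nat_lit 0) .nil) .nil))) 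
(.lf (nat_lit 578504) (.g (nat_lit 1033) (.e (nat_lit 336208) (nat_lit 12) (.e (nat_lit 385093) (nat_lit 49) (.e (nat_lit 778324) (nat_lit 5) (.e (nat_lit 81664) (nat_lit 32) .nil)))) (.g (nat_lit 0) (.e (nat_lit 371777) (nat_lit 0) .nil) .nil))))))) (.nd (nat_lit 6) (.nd (nat_lit 7) (.nd (nat_lit 8) (.nd (nat_lit 9) 
(.lf (nat_lit 577576) (.g (nat_lit 771) (.e (nat_lit 336027) (nat_lit 3) (.e (nat_lit 98373) (nat_lit 29) (.e (nat_lit 450560) (nat_lit 0) .nil))) (.g (nat_lit 0) (.e (nat_lit 368970) (nat_lit 0) .nil) .nil))) 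
(.lf (nat_lit 578088) (.g (nat_lit 1579) (.e (nat_lit 336110) (nat_lit 9) (.e (nat_lit 336028) (nat_lit 3) (.e (nat_lit 98350) (nat_lit 24) (.e (nat_lit 409616) (nat_lit 10) .nil)))) (.g (nat_lit 0) (.e (nat_lit 370337) (nat_lit 0) .nil) .nil)))) (.nd (nat_lit 9) 
(.lf (nat_lit 577832) (.g (nat_lit 1851) (.e (nat_lit 336074) (nat_lit 9) (.e (nat_lit 336454) (nat_lit 34) (.e (nat_lit 483363) (nat_lit 18) (.e (nat_lit 57854) (nat_lit 252) .nil)))) (.g (nat_lit 0) (.e (nat_lit 369616) (nat_lit 0) .nil) .nil))) 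
(.lf (nat_lit 578344) (.g (nat_lit 4456) (.e (nat_lit 336177) (nat_lit 10) (.e (nat_lit 344117) (nat_lit 21) (.e (nat_lit 516139) (nat_lit 7) (.e (nat_lit 409645) (nat_lit 18) (.e (nat_lit 303112) (nat_lit 0) (.e (nat_lit 3252) (nat_lit 197) (.e (nat_lit 532536) (nat_lit 9) .nil))))))) (.g (nat_lit 1) (.e (nat_lit 371193) (nat_lit 0) .nil) .nil))))) (.nd (nat_lit 8) (.nd (nat_lit 9) 
(.lf (nat_lit 577704) (.g (nat_lit 3225) (.e (nat_lit 343808) (nat_lit 3) (.e (nat_lit 98373) (nat_lit 29) (.e (nat_lit 450588) (nat_lit 10) (.e (nat_lit 573475) (nat_lit 12) (.e (nat_lit 57348) (nat_lit 0) .nil))))) (.g (nat_lit 0) (.e (nat_lit 369142) (nat_lit 0) .nil) .nil))) 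
(.lf (nat_lit 578216) (.g (nat_lit 2338) (.e (nat_lit 343808) (nat_lit 9) (.e (nat_lit 336324) (nat_lit 18) (.e (nat_lit 204838) (nat_lit 20) (.e (nat_lit 114698) (nat_lit 11) (.e (nat_lit 426138) (nat_lit 3) .nil))))) (.g (nat_lit 0) (.e (nat_lit 370805) (nat_lit 0) .nil) .nil)))) (.nd (nat_lit 9) 
(.lf (nat_lit 577960) (.g (nat_lit 2463) (.e (nat_lit 336086) (nat_lit 9) (.e (nat_lit 336324) (nat_lit 18) (.e (nat_lit 204838) (nat_lit 20) (.e (nat_lit 114698) (nat_lit 11) (.e (nat_lit 426137) (nat_lit 3) .nil))))) (.g (nat_lit 0) (.e (nat_lit 370012) (nat_lit 0) .nil) .nil))) 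
(.lf (nat_lit 578472) (.g (nat_lit 1408) (.e (nat_lit 336206) (nat_lit 12) (.e (nat_lit 385067) (nat_lit 26) (.e (nat_lit 532508) (nat_lit 2) (.e (nat_lit 106534) (nat_lit 11) (.e (nat_lit 16416) (nat_lit 3) (.e (nat_lit 204859) (nat_lit 26) .nil)))))) (.g (nat_lit 1) (.e (nat_lit 371675) (nat_lit 0) .nil) .nil)))))) (.nd (nat_lit 7) (.nd (nat_lit 8) (.nd (nat_lit 9) 
(.lf (nat_lit 577640) (.g (nat_lit 2277) (.e (nat_lit 336028) (nat_lit 3) (.e (nat_lit 98350) (nat_lit 24) (.e (nat_lit 409648) (nat_lit 18) (.e (nat_lit 303119) (nat_lit 3) (.e (nat_lit 204855) (nat_lit 26) .nil))))) (.g (nat_lit 0) (.e (nat_lit 369056) (nat_lit 0) .nil) .nil))) 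
(.lf (nat_lit 578152) (.g (nat_lit 1709) (.e (nat_lit 336152) (nat_lit 9) (.e (nat_lit 336442) (nat_lit 32) (.e (nat_lit 466969) (nat_lit 21) (.e (nat_lit 164324) (nat_lit 230) (.e (nat_lit 163886) (nat_lit 5) (.e (nat_lit 221192) (nat_lit 11) .nil)))))) (.g (nat_lit 1) (.e (nat_lit 370612) (nat_lit 0) .nil) .nil)))) (.nd (nat_lit 9) 
(.lf (nat_lit 577896) (.g (nat_lit 2612) (.e (nat_lit 336077) (nat_lit 9) (.e (nat_lit 336443) (nat_lit 32) (.e (nat_lit 466969) (nat_lit 21) (.e (nat_lit 164325) (nat_lit 230) (.e (nat_lit 163886) (nat_lit 5) (.e (nat_lit 221194) (nat_lit 11) .nil)))))) (.g (nat_lit 1) (.e (nat_lit 369802) (nat_lit 0) .nil) .nil))) 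
(.lf (nat_lit 578408) (.g (nat_lit 964) (.e (nat_lit 336197) (nat_lit 12) (.e (nat_lit 385093) (nat_lit 49) (.e (nat_lit 778323) (nat_lit 5) .nil))) (.g (nat_lit 0) (.e (nat_lit 371481) (nat_lit 0) .nil) .nil))))) (.nd (nat_lit 8) (.nd (nat_lit 9) 
(.lf (nat_lit 577768) (.g (nat_lit 2067) (.e (nat_lit 336058) (nat_lit 7) (.e (nat_lit 319530) (nat_lit 16) (.e (nat_lit 286731) (nat_lit 1) (.e (nat_lit 57688) (nat_lit 156) (.e (nat_lit 163933) (nat_lit 17) .nil))))) (.g (nat_lit 0) (.e (nat_lit 369320) (nat_lit 0) .nil) .nil))) 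
(.lf (nat_lit 578280) (.g (nat_lit 3525) (.e (nat_lit 336176) (nat_lit 10) (.e (nat_lit 344117) (nat_lit 21) (.e (nat_lit 516139) (nat_lit 7) (.e (nat_lit 409617) (nat_lit 10) (.e (nat_lit 5762) (nat_lit 315) (.e (nat_lit 163962) (nat_lit 25) (.e (nat_lit 532535) (nat_lit 9) .nil))))))) (.g (nat_lit 1) (.e (nat_lit 370970) (nat_lit 0) .nil) .nil)))) (.nd (nat_lit 9) 
(.lf (nat_lit 578024) (.g (nat_lit 5110) (.e (nat_lit 336099) (nat_lit 9) (.e (nat_lit 336013) (nat_lit 2) (.e (nat_lit 90134) (nat_lit 9) (.e (nat_lit 2828) (nat_lit 182) (.e (nat_lit 409646) (nat_lit 18) (.e (nat_lit 303117) (nat_lit 2) (.e (nat_lit 196630) (nat_lit 9) (.e (nat_lit 1413) (nat_lit 108) .nil)))))))) (.g (nat_lit 1) (.e (nat_lit 370188) (nat_lit 0) .nil) .nil))) 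
(.lf (nat_lit 578536) (.g (nat_lit 1490) (.e (nat_lit 336225) (nat_lit 14) (.e (nat_lit 401458) (nat_lit 13) (.e (nat_lit 483350) (nat_lit 17) (.e (nat_lit 6097) (nat_lit 332) .nil)))) (.g (nat_lit 0) (.e (nat_lit 371891) (nat_lit 0) .nil) .nil)))))))) (.nd (nat_lit 5) (.nd (nat_lit 6) (.nd (nat_lit 7) (.nd (nat_lit 8) (.nd (nat_lit 9) 
(.lf (nat_lit 577560) (.g (nat_lit 3150) (.e (nat_lit 336027) (nat_lit 3) (.e (nat_lit 98349) (nat_lit 24) (.e (nat_lit 409648) (nat_lit 18) (.e (nat_lit 303119) (nat_lit 3) (.e (nat_lit 204852) (nat_lit 26) .nil))))) (.g (nat_lit 0) (.e (nat_lit 368946) (nat_lit 0) .nil) .nil))) 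
(.lf (nat_lit 578072) (.g (nat_lit 2272) (.e (nat_lit 336102) (nat_lit 9) (.e (nat_lit 336028) (nat_lit 3) (.e (nat_lit 98349) (nat_lit 24) (.e (nat_lit 409649) (nat_lit 18) (.e (nat_lit 303118) (nat_lit 3) .nil))))) (.g (nat_lit 0) (.e (nat_lit 370290) (nat_lit 0) .nil) .nil)))) (.nd (nat_lit 9) 
(.lf (nat_lit 577816) (.g (nat_lit 2009) (.e (nat_lit 336074) (nat_lit 9) (.e (nat_lit 336431) (nat_lit 29) (.e (nat_lit 442421) (nat_lit 21) (.e (nat_lit 164326) (nat_lit 230) (.e (nat_lit 163884) (nat_lit 5) (.e (nat_lit 221194) (nat_lit 11) .nil)))))) (.g (nat_lit 1) (.e (nat_lit 369600) (nat_lit 0) .nil) .nil))) 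
(.lf (nat_lit 578328) (.g (nat_lit 2293) (.e (nat_lit 336176) (nat_lit 10) (.e (nat_lit 344133) (nat_lit 26) (.e (nat_lit 557087) (nat_lit 11) (.e (nat_lit 24590) (nat_lit 0) .nil)))) (.g (nat_lit 0) (.e (nat_lit 371157) (nat_lit 0) .nil) .nil))))) (.nd (nat_lit 8) (.nd (nat_lit 9) 
(.lf (nat_lit 577688) (.g (nat_lit 3712) (.e (nat_lit 343808) (nat_lit 3) (.e (nat_lit 98373) (nat_lit 29) (.e (nat_lit 450587) (nat_lit 10) (.e (nat_lit 573475) (nat_lit 12) (.e (nat_lit 57348) (nat_lit 0) .nil))))) (.g (nat_lit 0) (.e (nat_lit 369126) (nat_lit 0) .nil) .nil))) 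
(.lf (nat_lit 578200) (.g (nat_lit 1933) (.e (nat_lit 336159) (nat_lit 9) (.e (nat_lit 335996) (nat_lit 1) (.e (nat_lit 57854) (nat_lit 252) (.e (nat_lit 57388) (nat_lit 5) .nil)))) (.g (nat_lit 0) (.e (nat_lit 370759) (nat_lit 0) .nil) .nil)))) (.nd (nat_lit 9) 
(.lf (nat_lit 577944) (.g (nat_lit 2602) (.e (nat_lit 336084) (nat_lit 9) (.e (nat_lit 336443) (nat_lit 32) (.e (nat_lit 466969) (nat_lit 21) (.e (nat_lit 164324) (nat_lit 230) (.e (nat_lit 163886) (nat_lit 5) (.e (nat_lit 221193) (nat_lit 11) .nil)))))) (.g (nat_lit 1) (.e (nat_lit 369964) (nat_lit 0) .nil) .nil))) 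
(.lf (nat_lit 578456) (.g (nat_lit 1549) (.e (nat_lit 336205) (nat_lit 12) (.e (nat_lit 385074) (nat_lit 31) (.e (nat_lit 573484) (nat_lit 13) (.e (nat_lit 65617) (nat_lit 10) (.e (nat_lit 344130) (nat_lit 26) .nil))))) (.g (nat_lit 0) (.e (nat_lit 371646) (nat_lit 0) .nil) .nil)))))) (.nd (nat_lit 7) (.nd (nat_lit 8) (.nd (nat_lit 9) 
(.lf (nat_lit 577624) (.g (nat_lit 2287) (.e (nat_lit 336028) (nat_lit 3) (.e (nat_lit 98350) (nat_lit 24) (.e (nat_lit 409646) (nat_lit 18) (.e (nat_lit 303117) (nat_lit 2) (.e (nat_lit 196665) (nat_lit 13) .nil))))) (.g (nat_lit 0) (.e (nat_lit 369040) (nat_lit 0) .nil) .nil))) 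
(.lf (nat_lit 578136) (.g (nat_lit 2128) (.e (nat_lit 336130) (nat_lit 9) (.e (nat_lit 336027) (nat_lit 3) (.e (nat_lit 98350) (nat_lit 24) (.e (nat_lit 409643) (nat_lit 18) .nil)))) (.g (nat_lit 0) (.e (nat_lit 370538) (nat_lit 0) .nil) .nil)))) (.nd (nat_lit 9) 
(.lf (nat_lit 577880) (.g (nat_lit 3343) (.e (nat_lit 336076) (nat_lit 9) (.e (nat_lit 336326) (nat_lit 18) (.e (nat_lit 204835) (nat_lit 19) (.e (nat_lit 106536) (nat_lit 11) (.e (nat_lit 16415) (nat_lit 3) (.e (nat_lit 204861) (nat_lit 26) .nil)))))) (.g (nat_lit 1) (.e (nat_lit 369739) (nat_lit 0) .nil) .nil))) 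
(.lf (nat_lit 578392) (.g (nat_lit 1405) (.e (nat_lit 336194) (nat_lit 12) (.e (nat_lit 385066) (nat_lit 26) (.e (nat_lit 532501) (nat_lit 1) (.e (nat_lit 57852) (nat_lit 252) (.e (nat_lit 57404) (nat_lit 12) .nil))))) (.g (nat_lit 0) (.e (nat_lit 371346) (nat_lit 0) .nil) .nil))))) (.nd (nat_lit 8) (.nd (nat_lit 9) 
(.lf (nat_lit 577752) (.g (nat_lit 3520) (.e (nat_lit 336051) (nat_lit 6) (.e (nat_lit 147495) (nat_lit 11) (.e (nat_lit 24608) (nat_lit 3) (.e (nat_lit 98333) (nat_lit 18) (.e (nat_lit 164226) (nat_lit 181) (.e (nat_lit 2617) (nat_lit 164) (.e (nat_lit 172149) (nat_lit 27) .nil))))))) (.g (nat_lit 1) (.e (nat_lit 369225) (nat_lit 0) .nil) .nil))) 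
(.lf (nat_lit 578264) (.g (nat_lit 2485) (.e (nat_lit 336173) (nat_lit 10) (.e (nat_lit 344126) (nat_lit 25) (.e (nat_lit 548889) (nat_lit 9) (.e (nat_lit 65583) (nat_lit 7) (.e (nat_lit 319498) (nat_lit 10) .nil))))) (.g (nat_lit 0) (.e (nat_lit 370915) (nat_lit 0) .nil) .nil)))) (.nd (nat_lit 9) 
(.lf (nat_lit 578008) (.g (nat_lit 1036) (.e (nat_lit 336099) (nat_lit 9) (.e (nat_lit 336013) (nat_lit 2) (.e (nat_lit 90120) (nat_lit 0) .nil))) (.g (nat_lit 0) (.e (nat_lit 370165) (nat_lit 0) .nil) .nil))) 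
(.lf (nat_lit 578520) (.g (nat_lit 2642) (.e (nat_lit 336213) (nat_lit 13) (.e (nat_lit 393221) (nat_lit 0) (.e (nat_lit 6216) (nat_lit 333) (.e (nat_lit 57881) (nat_lit 270) (.e (nat_lit 174) (nat_lit 12) (.e (nat_lit 204861) (nat_lit 26) .nil)))))) (.g (nat_lit 1) (.e (nat_lit 371819) (nat_lit 0) .nil) .nil))))))) (.nd (nat_lit 6) (.nd (nat_lit 7) (.nd (nat_lit 8) (.nd (nat_lit 9) 
(.lf (nat_lit 577592) (.g (nat_lit 1574) (.e (nat_lit 336028) (nat_lit 3) (.e (nat_lit 98334) (nat_lit 18) (.e (nat_lit 164182) (nat_lit 154) (.e (nat_lit 57411) (nat_lit 12) .nil)))) (.g (nat_lit 0) (.e (nat_lit 368997) (nat_lit 0) .nil) .nil))) 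
(.lf (nat_lit 578104) (.g (nat_lit 808) (.e (nat_lit 336103) (nat_lit 9) (.e (nat_lit 336013) (nat_lit 2) (.e (nat_lit 90165) (nat_lit 12) .nil))) (.g (nat_lit 0) (.e (nat_lit 370360) (nat_lit 0) .nil) .nil)))) (.nd (nat_lit 9) 
(.lf (nat_lit 577848) (.g (nat_lit 3695) (.e (nat_lit 336075) (nat_lit 9) (.e (nat_lit 336324) (nat_lit 18) (.e (nat_lit 204838) (nat_lit 20) (.e (nat_lit 114698) (nat_lit 11) (.e (nat_lit 426133) (nat_lit 3) (.e (nat_lit 204861) (nat_lit 26) .nil)))))) (.g (nat_lit 1) (.e (nat_lit 369645) (nat_lit 0) .nil) .nil))) 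
(.lf (nat_lit 578360) (.g (nat_lit 3038) (.e (nat_lit 336178) (nat_lit 10) (.e (nat_lit 344117) (nat_lit 21) (.e (nat_lit 516139) (nat_lit 7) (.e (nat_lit 409647) (nat_lit 18) (.e (nat_lit 303119) (nat_lit 3) .nil))))) (.g (nat_lit 0) (.e (nat_lit 371219) (nat_lit 0) .nil) .nil))))) (.nd (nat_lit 8) (.nd (nat_lit 9) 
(.lf (nat_lit 577720) (.g (nat_lit 2720) (.e (nat_lit 336031) (nat_lit 4) (.e (nat_lit 123182) (nat_lit 264) (.e (nat_lit 1183) (nat_lit 87) (.e (nat_lit 57480) (nat_lit 28) (.e (nat_lit 557107) (nat_lit 15) .nil))))) (.g (nat_lit 0) (.e (nat_lit 369164) (nat_lit 0) .nil) .nil))) 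
(.lf (nat_lit 578232) (.g (nat_lit 2835) (.e (nat_lit 336163) (nat_lit 10) (.e (nat_lit 344117) (nat_lit 21) (.e (nat_lit 516139) (nat_lit 7) (.e (nat_lit 409643) (nat_lit 18) (.e (nat_lit 303118) (nat_lit 3) .nil))))) (.g (nat_lit 0) (.e (nat_lit 370830) (nat_lit 0) .nil) .nil)))) (.nd (nat_lit 9) 
(.lf (nat_lit 577976) (.g (nat_lit 3720) (.e (nat_lit 336089) (nat_lit 9) (.e (nat_lit 336324) (nat_lit 18) (.e (nat_lit 204831) (nat_lit 18) (.e (nat_lit 57846) (nat_lit 252) .nil)))) (.g (nat_lit 0) (.e (nat_lit 370079) (nat_lit 0) .nil) .nil))) 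
(.lf (nat_lit 578488) (.g (nat_lit 1376) (.e (nat_lit 336206) (nat_lit 12) (.e (nat_lit 385106) (nat_lit 50) (.e (nat_lit 786480) (nat_lit 29) (.e (nat_lit 352265) (nat_lit 0) .nil)))) (.g (nat_lit 0) (.e (nat_lit 371715) (nat_lit 0) .nil) .nil)))))) (.nd (nat_lit 7) (.nd (nat_lit 8) (.nd (nat_lit 9) 
(.lf (nat_lit 577656) (.g (nat_lit 4931) (.e (nat_lit 336028) (nat_lit 3) (.e (nat_lit 98367) (nat_lit 27) (.e (nat_lit 434271) (nat_lit 38) (.e (nat_lit 655375) (nat_lit 3) (.e (nat_lit 163978) (nat_lit 30) (.e (nat_lit 573479) (nat_lit 13) (.e (nat_lit 65604) (nat_lit 9) .nil))))))) (.g (nat_lit 1) (.e (nat_lit 369087) (nat_lit 0) .nil) .nil))) 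
(.lf (nat_lit 578168) (.g (nat_lit 1922) (.e (nat_lit 336158) (nat_lit 9) (.e (nat_lit 335986) (nat_lit 1) (.e (nat_lit 57847) (nat_lit 252) (.e (nat_lit 57345) (nat_lit 0) .nil)))) (.g (nat_lit 0) (.e (nat_lit 370690) (nat_lit 0) .nil) .nil)))) (.nd (nat_lit 9) 
(.lf (nat_lit 577912) (.g (nat_lit 2084) (.e (nat_lit 336078) (nat_lit 9) (.e (nat_lit 336286) (nat_lit 15) (.e (nat_lit 3747) (nat_lit 228) (.e (nat_lit 786473) (nat_lit 27) (.e (nat_lit 335872) (nat_lit 0) (.e (nat_lit 6719) (nat_lit 361) (.e (nat_lit 172150) (nat_lit 27) .nil))))))) (.g (nat_lit 1) (.e (nat_lit 369837) (nat_lit 0) .nil) .nil))) 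
(.lf (nat_lit 578424) (.g (nat_lit 2363) (.e (nat_lit 336200) (nat_lit 12) (.e (nat_lit 385074) (nat_lit 31) (.e (nat_lit 573491) (nat_lit 15) (.e (nat_lit 81943) (nat_lit 20) .nil)))) (.g (nat_lit 0) (.e (nat_lit 371548) (nat_lit 0) .nil) .nil))))) (.nd (nat_lit 8) (.nd (nat_lit 9) 
(.lf (nat_lit 577784) (.g (nat_lit 1122) (.e (nat_lit 336060) (nat_lit 7) (.e (nat_lit 319534) (nat_lit 16) (.e (nat_lit 286728) (nat_lit 0) (.e (nat_lit 2270) (nat_lit 149) .nil)))) (.g (nat_lit 0) (.e (nat_lit 369462) (nat_lit 0) .nil) .nil))) 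
(.lf (nat_lit 578296) (.g (nat_lit 2300) (.e (nat_lit 336176) (nat_lit 10) (.e (nat_lit 344127) (nat_lit 26) (.e (nat_lit 557090) (nat_lit 12) (.e (nat_lit 164018) (nat_lit 45) .nil)))) (.g (nat_lit 0) (.e (nat_lit 371029) (nat_lit 0) .nil) .nil)))) (.nd (nat_lit 9) 
(.lf (nat_lit 578040) (.g (nat_lit 4959) (.e (nat_lit 336099) (nat_lit 9) (.e (nat_lit 336013) (nat_lit 2) (.e (nat_lit 90170) (nat_lit 13) (.e (nat_lit 172040) (nat_lit 0) .nil)))) (.g (nat_lit 0) (.e (nat_lit 370207) (nat_lit 0) .nil) .nil))) 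
(.lf (nat_lit 578552) (.g (nat_lit 1937) (.e (nat_lit 336226) (nat_lit 14) (.e (nat_lit 401457) (nat_lit 13) (.e (nat_lit 483410) (nat_lit 27) (.e (nat_lit 401437) (nat_lit 9) .nil)))) (.g (nat_lit 0) (.e (nat_lit 371956) (nat_lit 0) .nil) .nil)))))))))) (.nd (nat_lit 3) (.nd (nat_lit 4) (.nd (nat_lit 5) (.nd (nat_lit 6) (.nd (nat_lit 7) (.nd (nat_lit 8) (.nd (nat_lit 9) 
(.lf (nat_lit 577540) (.g (nat_lit 2291) (.e (nat_lit 336026) (nat_lit 3) (.e (nat_lit 98363) (nat_lit 26) (.e (nat_lit 426318) (nat_lit 12) (.e (nat_lit 475179) (nat_lit 24) (.e (nat_lit 516129) (nat_lit 3) (.e (nat_lit 221193) (nat_lit 11) .nil)))))) (.g (nat_lit 1) (.e (nat_lit 368917) (nat_lit 0) .nil) .nil))) 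
(.lf (nat_lit 578052) (.g (nat_lit 627) (.e (nat_lit 336099) (nat_lit 9) (.e (nat_lit 336013) (nat_lit 2) (.e (nat_lit 90189) (nat_lit 18) .nil))) (.g (nat_lit 0) (.e (nat_lit 370236) (nat_lit 0) .nil) .nil)))) (.nd (nat_lit 9) 
(.lf (nat_lit 577796) (.g (nat_lit 2192) (.e (nat_lit 336073) (nat_lit 9) (.e (nat_lit 336013) (nat_lit 2) (.e (nat_lit 90165) (nat_lit 12) (.e (nat_lit 164213) (nat_lit 176) .nil)))) (.g (nat_lit 0) (.e (nat_lit 369535) (nat_lit 0) .nil) .nil))) 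
(.lf (nat_lit 578308) (.g (nat_lit 2306) (.e (nat_lit 336176) (nat_lit 10) (.e (nat_lit 344132) (nat_lit 26) (.e (nat_lit 557072) (nat_lit 9) (.e (nat_lit 214) (nat_lit 19) (.e (nat_lit 319490) (nat_lit 0) .nil))))) (.g (nat_lit 0) (.e (nat_lit 371100) (nat_lit 0) .nil) .nil))))) (.nd (nat_lit 8) (.nd (nat_lit 9) 
(.lf (nat_lit 577668) (.g (nat_lit 2907) (.e (nat_lit 343808) (nat_lit 3) (.e (nat_lit 98350) (nat_lit 24) (.e (nat_lit 409645) (nat_lit 18) (.e (nat_lit 303112) (nat_lit 0) (.e (nat_lit 3252) (nat_lit 197) .nil))))) (.g (nat_lit 0) (.e (nat_lit 369104) (nat_lit 0) .nil) .nil))) 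
(.lf (nat_lit 578180) (.g (nat_lit 1956) (.e (nat_lit 336158) (nat_lit 9) (.e (nat_lit 335988) (nat_lit 1) (.e (nat_lit 57852) (nat_lit 252) (.e (nat_lit 57389) (nat_lit 5) (.e (nat_lit 122624) (nat_lit 13) .nil))))) (.g (nat_lit 0) (.e (nat_lit 370714) (nat_lit 0) .nil) .nil)))) (.nd (nat_lit 9) 
(.lf (nat_lit 577924) (.g (nat_lit 560) (.e (nat_lit 336082) (nat_lit 9) (.e (nat_lit 336454) (nat_lit 34) (.e (nat_lit 483365) (nat_lit 18) .nil))) (.g (nat_lit 0) (.e (nat_lit 369908) (nat_lit 0) .nil) .nil))) 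
(.lf (nat_lit 578436) (.g (nat_lit 2586) (.e (nat_lit 336203) (nat_lit 12) (.e (nat_lit 385074) (nat_lit 31) (.e (nat_lit 573484) (nat_lit 13) (.e (nat_lit 65610) (nat_lit 10) (.e (nat_lit 344129) (nat_lit 26) .nil))))) (.g (nat_lit 0) (.e (nat_lit 371592) (nat_lit 0) .nil) .nil)))))) (.nd (nat_lit 7) (.nd (nat_lit 8) (.nd (nat_lit 9) 
(.lf (nat_lit 577604) (.g (nat_lit 2447) (.e (nat_lit 336028) (nat_lit 3) (.e (nat_lit 98349) (nat_lit 24) (.e (nat_lit 409646) (nat_lit 18) (.e (nat_lit 303117) (nat_lit 2) (.e (nat_lit 196665) (nat_lit 13) (.e (nat_lit 65601) (nat_lit 9) .nil)))))) (.g (nat_lit 1) (.e (nat_lit 369009) (nat_lit 0) .nil) .nil))) 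
(.lf (nat_lit 578116) (.g (nat_lit 2711) (.e (nat_lit 336113) (nat_lit 9) (.e (nat_lit 336324) (nat_lit 18) (.e (nat_lit 204835) (nat_lit 19) (.e (nat_lit 106536) (nat_lit 11) .nil)))) (.g (nat_lit 0) (.e (nat_lit 370387) (nat_lit 0) .nil) .nil)))) (.nd (nat_lit 9) 
(.lf (nat_lit 577860) (.g (nat_lit 3681) (.e (nat_lit 336075) (nat_lit 9) (.e (nat_lit 336443) (nat_lit 32) (.e (nat_lit 466971) (nat_lit 21) (.e (nat_lit 164327) (nat_lit 230) (.e (nat_lit 163884) (nat_lit 5) (.e (nat_lit 221194) (nat_lit 11) .nil)))))) (.g (nat_lit 1) (.e (nat_lit 369692) (nat_lit 0) .nil) .nil))) 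
(.lf (nat_lit 578372) (.g (nat_lit 1461) (.e (nat_lit 336185) (nat_lit 11) (.e (nat_lit 368676) (nat_lit 21) (.e (nat_lit 516098) (nat_lit 0) (.e (nat_lit 7593) (nat_lit 407) .nil)))) (.g (nat_lit 0) (.e (nat_lit 371263) (nat_lit 0) .nil) .nil))))) (.nd (nat_lit 8) (.nd (nat_lit 9) 
(.lf (nat_lit 577732) (.g (nat_lit 2962) (.e (nat_lit 336036) (nat_lit 4) (.e (nat_lit 123182) (nat_lit 264) (.e (nat_lit 1183) (nat_lit 87) (.e (nat_lit 57479) (nat_lit 28) (.e (nat_lit 557100) (nat_lit 13) .nil))))) (.g (nat_lit 0) (.e (nat_lit 369183) (nat_lit 0) .nil) .nil))) 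
(.lf (nat_lit 578244) (.g (nat_lit 3059) (.e (nat_lit 336164) (nat_lit 10) (.e (nat_lit 344117) (nat_lit 21) (.e (nat_lit 516139) (nat_lit 7) (.e (nat_lit 409645) (nat_lit 18) (.e (nat_lit 303119) (nat_lit 3) (.e (nat_lit 204856) (nat_lit 26) .nil)))))) (.g (nat_lit 1) (.e (nat_lit 370850) (nat_lit 0) .nil) .nil)))) (.nd (nat_lit 9) 
(.lf (nat_lit 577988) (.g (nat_lit 2214) (.e (nat_lit 336095) (nat_lit 9) (.e (nat_lit 336013) (nat_lit 2) (.e (nat_lit 90165) (nat_lit 12) (.e (nat_lit 164210) (nat_lit 176) .nil)))) (.g (nat_lit 0) (.e (nat_lit 370105) (nat_lit 0) .nil) .nil))) 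
(.lf (nat_lit 578500) (.g (nat_lit 1609) (.e (nat_lit 336208) (nat_lit 12) (.e (nat_lit 385074) (nat_lit 31) (.e (nat_lit 573491) (nat_lit 15) (.e (nat_lit 81943) (nat_lit 20) .nil)))) (.g (nat_lit 0) (.e (nat_lit 371767) (nat_lit 0) .nil) .nil))))))) (.nd (nat_lit 6) (.nd (nat_lit 7) (.nd (nat_lit 8) (.nd (nat_lit 9) 
(.lf (nat_lit 577572) (.g (nat_lit 1936) (.e (nat_lit 336027) (nat_lit 3) (.e (nat_lit 98367) (nat_lit 27) (.e (nat_lit 434272) (nat_lit 38) (.e (nat_lit 655375) (nat_lit 3) .nil)))) (.g (nat_lit 0) (.e (nat_lit 368966) (nat_lit 0) .nil) .nil))) 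
(.lf (nat_lit 578084) (.g (nat_lit 2714) (.e (nat_lit 336101) (nat_lit 9) (.e (nat_lit 336028) (nat_lit 3) (.e (nat_lit 98350) (nat_lit 24) (.e (nat_lit 409648) (nat_lit 18) (.e (nat_lit 303118) (nat_lit 3) .nil))))) (.g (nat_lit 0) (.e (nat_lit 370329) (nat_lit 0) .nil) .nil)))) (.nd (nat_lit 9) 
(.lf (nat_lit 577828) (.g (nat_lit 2429) (.e (nat_lit 336074) (nat_lit 9) (.e (nat_lit 336443) (nat_lit 32) (.e (nat_lit 466971) (nat_lit 21) (.e (nat_lit 164332) (nat_lit 230) (.e (nat_lit 163885) (nat_lit 5) (.e (nat_lit 221193) (nat_lit 11) .nil)))))) (.g (nat_lit 1) (.e (nat_lit 369612) (nat_lit 0) .nil) .nil))) 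
(.lf (nat_lit 578340) (.g (nat_lit 2209) (.e (nat_lit 336175) (nat_lit 10) (.e (nat_lit 344130) (nat_lit 26) (.e (nat_lit 557087) (nat_lit 11) (.e (nat_lit 24617) (nat_lit 7) (.e (nat_lit 319504) (nat_lit 10) (.e (nat_lit 7936) (nat_lit 45) (.e (nat_lit 532527) (nat_lit 9) .nil))))))) (.g (nat_lit 1) (.e (nat_lit 371187) (nat_lit 0) .nil) .nil))))) (.nd (nat_lit 8) (.nd (nat_lit 9) 
(.lf (nat_lit 577700) (.g (nat_lit 3674) (.e (nat_lit 343808) (nat_lit 3) (.e (nat_lit 98373) (nat_lit 29) (.e (nat_lit 450588) (nat_lit 10) (.e (nat_lit 573473) (nat_lit 12) (.e (nat_lit 57354) (nat_lit 0) .nil))))) (.g (nat_lit 0) (.e (nat_lit 369138) (nat_lit 0) .nil) .nil))) 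
(.lf (nat_lit 578212) (.g (nat_lit 1784) (.e (nat_lit 343808) (nat_lit 9) (.e (nat_lit 336324) (nat_lit 18) (.e (nat_lit 204837) (nat_lit 20) (.e (nat_lit 114697) (nat_lit 11) (.e (nat_lit 426138) (nat_lit 3) .nil))))) (.g (nat_lit 0) (.e (nat_lit 370801) (nat_lit 0) .nil) .nil)))) (.nd (nat_lit 9) 
(.lf (nat_lit 577956) (.g (nat_lit 3737) (.e (nat_lit 336084) (nat_lit 9) (.e (nat_lit 336443) (nat_lit 32) (.e (nat_lit 466972) (nat_lit 21) (.e (nat_lit 164331) (nat_lit 230) (.e (nat_lit 163884) (nat_lit 5) (.e (nat_lit 221194) (nat_lit 11) .nil)))))) (.g (nat_lit 1) (.e (nat_lit 369976) (nat_lit 0) .nil) .nil))) 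
(.lf (nat_lit 578468) (.g (nat_lit 1024) (.e (nat_lit 336205) (nat_lit 12) (.e (nat_lit 385094) (nat_lit 49) (.e (nat_lit 778323) (nat_lit 5) (.e (nat_lit 81664) (nat_lit 32) .nil)))) (.g (nat_lit 0) (.e (nat_lit 371662) (nat_lit 0) .nil) .nil)))))) (.nd (nat_lit 7) (.nd (nat_lit 8) (.nd (nat_lit 9) 
(.lf (nat_lit 577636) (.g (nat_lit 1752) (.e (nat_lit 336028) (nat_lit 3) (.e (nat_lit 98350) (nat_lit 24) (.e (nat_lit 409648) (nat_lit 18) (.e (nat_lit 303117) (nat_lit 2) (.e (nat_lit 196666) (nat_lit 13) .nil))))) (.g (nat_lit 0) (.e (nat_lit 369052) (nat_lit 0) .nil) .nil))) 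
(.lf (nat_lit 578148) (.g (nat_lit 2412) (.e (nat_lit 336151) (nat_lit 9) (.e (nat_lit 336300) (nat_lit 15) (.e (nat_lit 3253) (nat_lit 197) (.e (nat_lit 532501) (nat_lit 1) (.e (nat_lit 57851) (nat_lit 252) (.e (nat_lit 57446) (nat_lit 19) (.e (nat_lit 393227) (nat_lit 9) .nil))))))) (.g (nat_lit 1) (.e (nat_lit 370597) (nat_lit 0) .nil) .nil)))) (.nd (nat_lit 9) 
(.lf (nat_lit 577892) (.g (nat_lit 3510) (.e (nat_lit 336077) (nat_lit 9) (.e (nat_lit 336324) (nat_lit 18) (.e (nat_lit 204831) (nat_lit 18) (.e (nat_lit 57852) (nat_lit 252) (.e (nat_lit 57446) (nat_lit 19) .nil))))) (.g (nat_lit 0) (.e (nat_lit 369765) (nat_lit 0) .nil) .nil))) 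
(.lf (nat_lit 578404) (.g (nat_lit 688) (.e (nat_lit 336197) (nat_lit 12) (.e (nat_lit 385068) (nat_lit 26) (.e (nat_lit 532513) (nat_lit 3) .nil))) (.g (nat_lit 0) (.e (nat_lit 371471) (nat_lit 0) .nil) .nil))))) (.nd (nat_lit 8) (.nd (nat_lit 9) 
(.lf (nat_lit 577764) (.g (nat_lit 1046) (.e (nat_lit 336056) (nat_lit 7) (.e (nat_lit 319531) (nat_lit 16) (.e (nat_lit 286731) (nat_lit 1) .nil))) (.g (nat_lit 0) (.e (nat_lit 369299) (nat_lit 0) .nil) .nil))) 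
(.lf (nat_lit 578276) (.g (nat_lit 3332) (.e (nat_lit 336176) (nat_lit 10) (.e (nat_lit 344117) (nat_lit 21) (.e (nat_lit 516139) (nat_lit 7) (.e (nat_lit 409611) (nat_lit 10) .nil)))) (.g (nat_lit 0) (.e (nat_lit 370955) (nat_lit 0) .nil) .nil)))) (.nd (nat_lit 9) 
(.lf (nat_lit 578020) (.g (nat_lit 2415) (.e (nat_lit 336099) (nat_lit 9) (.e (nat_lit 336013) (nat_lit 2) (.e (nat_lit 90134) (nat_lit 9) (.e (nat_lit 2824) (nat_lit 182) .nil)))) (.g (nat_lit 0) (.e (nat_lit 370184) (nat_lit 0) .nil) .nil))) 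
(.lf (nat_lit 578532) (.g (nat_lit 1814) (.e (nat_lit 343808) (nat_lit 13) (.e (nat_lit 393229) (nat_lit 9) (.e (nat_lit 335995) (nat_lit 1) (.e (nat_lit 57931) (nat_lit 282) .nil)))) (.g (nat_lit 0) (.e (nat_lit 371883) (nat_lit 0) .nil) .nil)))))))) (.nd (nat_lit 5) (.nd (nat_lit 6) (.nd (nat_lit 7) (.nd (nat_lit 8) (.nd (nat_lit 9) 
(.lf (nat_lit 577556) (.g (nat_lit 1449) (.e (nat_lit 336027) (nat_lit 3) (.e (nat_lit 98349) (nat_lit 24) (.e (nat_lit 409646) (nat_lit 18) (.e (nat_lit 303119) (nat_lit 3) .nil)))) (.g (nat_lit 0) (.e (nat_lit 368942) (nat_lit 0) .nil) .nil))) 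
(.lf (nat_lit 578068) (.g (nat_lit 1741) (.e (nat_lit 336102) (nat_lit 9) (.e (nat_lit 336022) (nat_lit 3) (.e (nat_lit 98350) (nat_lit 24) (.e (nat_lit 409647) (nat_lit 18) (.e (nat_lit 303118) (nat_lit 3) .nil))))) (.g (nat_lit 0) (.e (nat_lit 370285) (nat_lit 0) .nil) .nil)))) (.nd (nat_lit 9) 
(.lf (nat_lit 577812) (.g (nat_lit 2801) (.e (nat_lit 336074) (nat_lit 9) (.e (nat_lit 336324) (nat_lit 18) (.e (nat_lit 204835) (nat_lit 19) (.e (nat_lit 106534) (nat_lit 11) .nil)))) (.g (nat_lit 0) (.e (nat_lit 369579) (nat_lit 0) .nil) .nil))) 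
(.lf (nat_lit 578324) (.g (nat_lit 2284) (.e (nat_lit 336176) (nat_lit 10) (.e (nat_lit 344133) (nat_lit 26) (.e (nat_lit 557087) (nat_lit 11) (.e (nat_lit 24583) (nat_lit 0) .nil)))) (.g (nat_lit 0) (.e (nat_lit 371149) (nat_lit 0) .nil) .nil))))) (.nd (nat_lit 8) (.nd (nat_lit 9) 
(.lf (nat_lit 577684) (.g (nat_lit 2687) (.e (nat_lit 343808) (nat_lit 3) (.e (nat_lit 98373) (nat_lit 29) (.e (nat_lit 450587) (nat_lit 10) (.e (nat_lit 573473) (nat_lit 12) (.e (nat_lit 57353) (nat_lit 0) .nil))))) (.g (nat_lit 0) (.e (nat_lit 369122) (nat_lit 0) .nil) .nil))) 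
(.lf (nat_lit 578196) (.g (nat_lit 1764) (.e (nat_lit 336158) (nat_lit 9) (.e (nat_lit 336012) (nat_lit 2) (.e (nat_lit 90181) (nat_lit 16) (.e (nat_lit 229569) (nat_lit 176) (.e (nat_lit 2816) (nat_lit 181) (.e (nat_lit 311314) (nat_lit 3) (.e (nat_lit 212736) (nat_lit 26) .nil))))))) (.g (nat_lit 1) (.e (nat_lit 370748) (nat_lit 0) .nil) .nil)))) (.nd (nat_lit 9) 
(.lf (nat_lit 577940) (.g (nat_lit 542) (.e (nat_lit 336084) (nat_lit 9) (.e (nat_lit 336430) (nat_lit 29) (.e (nat_lit 442419) (nat_lit 21) .nil))) (.g (nat_lit 0) (.e (nat_lit 369960) (nat_lit 0) .nil) .nil))) 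
(.lf (nat_lit 578452) (.g (nat_lit 1644) (.e (nat_lit 336205) (nat_lit 12) (.e (nat_lit 385068) (nat_lit 26) (.e (nat_lit 532513) (nat_lit 3) (.e (nat_lit 114694) (nat_lit 11) .nil)))) (.g (nat_lit 0) (.e (nat_lit 371637) (nat_lit 0) .nil) .nil)))))) (.nd (nat_lit 7) (.nd (nat_lit 8) (.nd (nat_lit 9) 
(.lf (nat_lit 577620) (.g (nat_lit 2860) (.e (nat_lit 336028) (nat_lit 3) (.e (nat_lit 98350) (nat_lit 24) (.e (nat_lit 409645) (nat_lit 18) (.e (nat_lit 303117) (nat_lit 2) (.e (nat_lit 196666) (nat_lit 13) .nil))))) (.g (nat_lit 0) (.e (nat_lit 369036) (nat_lit 0) .nil) .nil))) 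
(.lf (nat_lit 578132) (.g (nat_lit 684) (.e (nat_lit 336132) (nat_lit 9) (.e (nat_lit 336027) (nat_lit 3) (.e (nat_lit 98350) (nat_lit 24) .nil))) (.g (nat_lit 0) (.e (nat_lit 370512) (nat_lit 0) .nil) .nil)))) (.nd (nat_lit 9) 
(.lf (nat_lit 577876) (.g (nat_lit 3941) (.e (nat_lit 336075) (nat_lit 9) (.e (nat_lit 336454) (nat_lit 34) (.e (nat_lit 483365) (nat_lit 18) (.e (nat_lit 57931) (nat_lit 282) (.e (nat_lit 163874) (nat_lit 3) (.e (nat_lit 204861) (nat_lit 26) .nil)))))) (.g (nat_lit 1) (.e (nat_lit 369718) (nat_lit 0) .nil) .nil))) 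
(.lf (nat_lit 578388) (.g (nat_lit 2036) (.e (nat_lit 336186) (nat_lit 11) (.e (nat_lit 368676) (nat_lit 21) (.e (nat_lit 524032) (nat_lit 27) (.e (nat_lit 344160) (nat_lit 37) (.e (nat_lit 647183) (nat_lit 4) (.e (nat_lit 172147) (nat_lit 27) .nil)))))) (.g (nat_lit 1) (.e (nat_lit 371311) (nat_lit 0) .nil) .nil))))) (.nd (nat_lit 8) (.nd (nat_lit 9) 
(.lf (nat_lit 577748) (.g (nat_lit 974) (.e (nat_lit 336049) (nat_lit 6) (.e (nat_lit 147504) (nat_lit 12) (.e (nat_lit 164056) (nat_lit 56) (.e (nat_lit 786457) (nat_lit 18) (.e (nat_lit 98381) (nat_lit 31) (.e (nat_lit 466954) (nat_lit 11) .nil)))))) (.g (nat_lit 1) (.e (nat_lit 369214) (nat_lit 0) .nil) .nil))) 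
(.lf (nat_lit 578260) (.g (nat_lit 3451) (.e (nat_lit 336173) (nat_lit 10) (.e (nat_lit 344117) (nat_lit 21) (.e (nat_lit 516139) (nat_lit 7) (.e (nat_lit 409649) (nat_lit 18) (.e (nat_lit 303111) (nat_lit 0) .nil))))) (.g (nat_lit 0) (.e (nat_lit 370894) (nat_lit 0) .nil) .nil)))) (.nd (nat_lit 9) 
(.lf (nat_lit 578004) (.g (nat_lit 3801) (.e (nat_lit 336099) (nat_lit 9) (.e (nat_lit 335924) (nat_lit 0) (.e (nat_lit 1848) (nat_lit 124) (.e (nat_lit 557087) (nat_lit 11) (.e (nat_lit 24617) (nat_lit 7) (.e (nat_lit 319504) (nat_lit 10) (.e (nat_lit 7936) (nat_lit 45) (.e (nat_lit 532535) (nat_lit 9) .nil)))))))) (.g (nat_lit 1) (.e (nat_lit 370161) (nat_lit 0) .nil) .nil))) 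
(.lf (nat_lit 578516) (.g (nat_lit 2538) (.e (nat_lit 336212) (nat_lit 13) (.e (nat_lit 393229) (nat_lit 9) (.e (nat_lit 335996) (nat_lit 1) (.e (nat_lit 57929) (nat_lit 282) .nil)))) (.g (nat_lit 0) (.e (nat_lit 371805) (nat_lit 0) .nil) .nil))))))) (.nd (nat_lit 6) (.nd (nat_lit 7) (.nd (nat_lit 8) (.nd (nat_lit 9) 
(.lf (nat_lit 577588) (.g (nat_lit 3057) (.e (nat_lit 336027) (nat_lit 3) (.e (nat_lit 98387) (nat_lit 33) (.e (nat_lit 491566) (nat_lit 12) (.e (nat_lit 385066) (nat_lit 26) (.e (nat_lit 532481) (nat_lit 0) .nil))))) (.g (nat_lit 0) (.e (nat_lit 368982) (nat_lit 0) .nil) .nil))) 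
(.lf (nat_lit 578100) (.g (nat_lit 3488) (.e (nat_lit 336111) (nat_lit 9) (.e (nat_lit 336028) (nat_lit 3) (.e (nat_lit 98350) (nat_lit 24) (.e (nat_lit 409616) (nat_lit 10) (.e (nat_lit 5757) (nat_lit 315) (.e (nat_lit 163962) (nat_lit 25) (.e (nat_lit 532535) (nat_lit 9) .nil))))))) (.g (nat_lit 1) (.e (nat_lit 370354) (nat_lit 0) .nil) .nil)))) (.nd (nat_lit 9) 
(.lf (nat_lit 577844) (.g (nat_lit 3298) (.e (nat_lit 336075) (nat_lit 9) (.e (nat_lit 336324) (nat_lit 18) (.e (nat_lit 204837) (nat_lit 20) (.e (nat_lit 114698) (nat_lit 11) (.e (nat_lit 426138) (nat_lit 3) (.e (nat_lit 204861) (nat_lit 26) .nil)))))) (.g (nat_lit 1) (.e (nat_lit 369641) (nat_lit 0) .nil) .nil))) 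
(.lf (nat_lit 578356) (.g (nat_lit 2579) (.e (nat_lit 336178) (nat_lit 10) (.e (nat_lit 344117) (nat_lit 21) (.e (nat_lit 516139) (nat_lit 7) (.e (nat_lit 409644) (nat_lit 18) (.e (nat_lit 303118) (nat_lit 3) .nil))))) (.g (nat_lit 0) (.e (nat_lit 371215) (nat_lit 0) .nil) .nil))))) (.nd (nat_lit 8) (.nd (nat_lit 9) 
(.lf (nat_lit 577716) (.g (nat_lit 1641) (.e (nat_lit 336031) (nat_lit 4) (.e (nat_lit 123182) (nat_lit 264) (.e (nat_lit 1183) (nat_lit 87) (.e (nat_lit 57478) (nat_lit 28) .nil)))) (.g (nat_lit 0) (.e (nat_lit 369160) (nat_lit 0) .nil) .nil))) 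
(.lf (nat_lit 578228) (.g (nat_lit 1165) (.e (nat_lit 336161) (nat_lit 10) (.e (nat_lit 344133) (nat_lit 26) (.e (nat_lit 557087) (nat_lit 11) .nil))) (.g (nat_lit 0) (.e (nat_lit 370818) (nat_lit 0) .nil) .nil)))) (.nd (nat_lit 9) 
(.lf (nat_lit 577972) (.g (nat_lit 3063) (.e (nat_lit 336088) (nat_lit 9) (.e (nat_lit 336324) (nat_lit 18) (.e (nat_lit 204835) (nat_lit 19) (.e (nat_lit 106536) (nat_lit 11) (.e (nat_lit 16415) (nat_lit 3) .nil))))) (.g (nat_lit 0) (.e (nat_lit 370057) (nat_lit 0) .nil) .nil))) 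
(.lf (nat_lit 578484) (.g (nat_lit 2845) (.e (nat_lit 336206) (nat_lit 12) (.e (nat_lit 385094) (nat_lit 49) (.e (nat_lit 778323) (nat_lit 5) (.e (nat_lit 73781) (nat_lit 32) (.e (nat_lit 2856) (nat_lit 184) (.e (nat_lit 426530) (nat_lit 27) .nil)))))) (.g (nat_lit 1) (.e (nat_lit 371711) (nat_lit 0) .nil) .nil)))))) (.nd (nat_lit 7) (.nd (nat_lit 8) (.nd (nat_lit 9) 
(.lf (nat_lit 577652) (.g (nat_lit 4968) (.e (nat_lit 336028) (nat_lit 3) (.e (nat_lit 98366) (nat_lit 27) (.e (nat_lit 434272) (nat_lit 38) (.e (nat_lit 655375) (nat_lit 3) (.e (nat_lit 163978) (nat_lit 30) (.e (nat_lit 573485) (nat_lit 13) (.e (nat_lit 65604) (nat_lit 9) .nil))))))) (.g (nat_lit 1) (.e (nat_lit 369076) (nat_lit 0) .nil) .nil))) 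
(.lf (nat_lit 578164) (.g (nat_lit 1214) (.e (nat_lit 336153) (nat_lit 9) (.e (nat_lit 336442) (nat_lit 32) (.e (nat_lit 466969) (nat_lit 21) (.e (nat_lit 164326) (nat_lit 230) (.e (nat_lit 163886) (nat_lit 5) (.e (nat_lit 221191) (nat_lit 11) .nil)))))) (.g (nat_lit 1) (.e (nat_lit 370639) (nat_lit 0) .nil) .nil)))) (.nd (nat_lit 9) 
(.lf (nat_lit 577908) (.g (nat_lit 3504) (.e (nat_lit 336077) (nat_lit 9) (.e (nat_lit 336454) (nat_lit 34) (.e (nat_lit 483365) (nat_lit 18) (.e (nat_lit 57930) (nat_lit 282) (.e (nat_lit 163874) (nat_lit 3) .nil))))) (.g (nat_lit 0) (.e (nat_lit 369814) (nat_lit 0) .nil) .nil))) 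
(.lf (nat_lit 578420) (.g (nat_lit 1634) (.e (nat_lit 336200) (nat_lit 12) (.e (nat_lit 385074) (nat_lit 31) (.e (nat_lit 573480) (nat_lit 13) (.e (nat_lit 65630) (nat_lit 14) .nil)))) (.g (nat_lit 0) (.e (nat_lit 371522) (nat_lit 0) .nil) .nil))))) (.nd (nat_lit 8) (.nd (nat_lit 9) 
(.lf (nat_lit 577780) (.g (nat_lit 1923) (.e (nat_lit 336060) (nat_lit 7) (.e (nat_lit 319530) (nat_lit 16) (.e (nat_lit 286731) (nat_lit 1) (.e (nat_lit 57688) (nat_lit 156) .nil)))) (.g (nat_lit 0) (.e (nat_lit 369445) (nat_lit 0) .nil) .nil))) 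
(.lf (nat_lit 578292) (.g (nat_lit 3546) (.e (nat_lit 336176) (nat_lit 10) (.e (nat_lit 344126) (nat_lit 25) (.e (nat_lit 548889) (nat_lit 9) (.e (nat_lit 65630) (nat_lit 14) (.e (nat_lit 401412) (nat_lit 0) .nil))))) (.g (nat_lit 0) (.e (nat_lit 371004) (nat_lit 0) .nil) .nil)))) (.nd (nat_lit 9) 
(.lf (nat_lit 578036) (.g (nat_lit 1250) (.e (nat_lit 336099) (nat_lit 9) (.e (nat_lit 336013) (nat_lit 2) (.e (nat_lit 90170) (nat_lit 13) .nil))) (.g (nat_lit 0) (.e (nat_lit 370202) (nat_lit 0) .nil) .nil))) 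
(.lf (nat_lit 578548) (.g (nat_lit 452) (.e (nat_lit 336226) (nat_lit 14) (.e (nat_lit 401437) (nat_lit 9) (.e (nat_lit 426546) (nat_lit 30) .nil))) (.g (nat_lit 0) (.e (nat_lit 371932) (nat_lit 0) .nil) .nil))))))))) (.nd (nat_lit 4) (.nd (nat_lit 5) (.nd (nat_lit 6) (.nd (nat_lit 7) (.nd (nat_lit 8) (.nd (nat_lit 9) 
(.lf (nat_lit 577548) (.g (nat_lit 901) (.e (nat_lit 336027) (nat_lit 3) (.e (nat_lit 98335) (nat_lit 18) (.e (nat_lit 164183) (nat_lit 154) .nil))) (.g (nat_lit 0) (.e (nat_lit 368934) (nat_lit 0) .nil) .nil))) 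
(.lf (nat_lit 578060) (.g (nat_lit 1714) (.e (nat_lit 336099) (nat_lit 9) (.e (nat_lit 336028) (nat_lit 3) (.e (nat_lit 98350) (nat_lit 24) (.e (nat_lit 409616) (nat_lit 10) .nil)))) (.g (nat_lit 0) (.e (nat_lit 370248) (nat_lit 0) .nil) .nil)))) (.nd (nat_lit 9) 
(.lf (nat_lit 577804) (.g (nat_lit 2449) (.e (nat_lit 336073) (nat_lit 9) (.e (nat_lit 336028) (nat_lit 3) (.e (nat_lit 98350) (nat_lit 24) (.e (nat_lit 409646) (nat_lit 18) (.e (nat_lit 303118) (nat_lit 3) .nil))))) (.g (nat_lit 0) (.e (nat_lit 369561) (nat_lit 0) .nil) .nil))) 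
(.lf (nat_lit 578316) (.g (nat_lit 2880) (.e (nat_lit 336176) (nat_lit 10) (.e (nat_lit 344133) (nat_lit 26) (.e (nat_lit 557065) (nat_lit 9) (.e (nat_lit 214) (nat_lit 19) (.e (nat_lit 319492) (nat_lit 0) (.e (nat_lit 5761) (nat_lit 315) (.e (nat_lit 163962) (nat_lit 25) (.e (nat_lit 532535) (nat_lit 9) .nil)))))))) (.g (nat_lit 1) (.e (nat_lit 371126) (nat_lit 0) .nil) .nil))))) 
(.nd (nat_lit 8) (.nd (nat_lit 9) 
(.lf (nat_lit 577676) (.g (nat_lit 2373) (.e (nat_lit 343808) (nat_lit 3) (.e (nat_lit 98350) (nat_lit 24) (.e (nat_lit 409649) (nat_lit 18) (.e (nat_lit 303117) (nat_lit 2) (.e (nat_lit 196666) (nat_lit 13) .nil))))) (.g (nat_lit 0) (.e (nat_lit 369114) (nat_lit 0) .nil) .nil))) 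
(.lf (nat_lit 578188) (.g (nat_lit 1791) (.e (nat_lit 336158) (nat_lit 9) (.e (nat_lit 335996) (nat_lit 1) (.e (nat_lit 57854) (nat_lit 252) (.e (nat_lit 57388) (nat_lit 5) (.e (nat_lit 122624) (nat_lit 13) .nil))))) (.g (nat_lit 0) (.e (nat_lit 370734) (nat_lit 0) .nil) .nil)))) (.nd (nat_lit 9) 
(.lf (nat_lit 577932) (.g (nat_lit 1524) (.e (nat_lit 336083) (nat_lit 9) (.e (nat_lit 336019) (nat_lit 3) (.e (nat_lit 98350) (nat_lit 24) (.e (nat_lit 409647) (nat_lit 18) .nil)))) (.g (nat_lit 0) (.e (nat_lit 369926) (nat_lit 0) .nil) .nil))) 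
(.lf (nat_lit 578444) (.g (nat_lit 1485) (.e (nat_lit 336204) (nat_lit 12) (.e (nat_lit 385074) (nat_lit 31) (.e (nat_lit 573489) (nat_lit 14) (.e (nat_lit 73781) (nat_lit 32) (.e (nat_lit 2681) (nat_lit 168) (.e (nat_lit 212736) (nat_lit 26) .nil)))))) (.g (nat_lit 1) (.e (nat_lit 371619) (nat_lit 0) .nil) .nil)))))) (.nd (nat_lit 7) (.nd (nat_lit 8) (.nd (nat_lit 9) 
(.lf (nat_lit 577612) (.g (nat_lit 661) (.e (nat_lit 336028) (nat_lit 3) (.e (nat_lit 98350) (nat_lit 24) (.e (nat_lit 409623) (nat_lit 10) .nil))) (.g (nat_lit 0) (.e (nat_lit 369024) (nat_lit 0) .nil) .nil))) 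
(.lf (nat_lit 578124) (.g (nat_lit 429) (.e (nat_lit 336116) (nat_lit 9) (.e (nat_lit 336437) (nat_lit 31) (.e (nat_lit 458769) (nat_lit 16) (.e (nat_lit 164292) (nat_lit 224) (.e (nat_lit 164112) (nat_lit 118) (.e (nat_lit 802560) (nat_lit 11) .nil)))))) (.g (nat_lit 1) (.e (nat_lit 370421) (nat_lit 0) .nil) .nil)))) (.nd (nat_lit 9) 
(.lf (nat_lit 577868) (.g (nat_lit 3745) (.e (nat_lit 336075) (nat_lit 9) (.e (nat_lit 336454) (nat_lit 34) (.e (nat_lit 483364) (nat_lit 18) (.e (nat_lit 57926) (nat_lit 282) (.e (nat_lit 163875) (nat_lit 3) (.e (nat_lit 204861) (nat_lit 26) .nil)))))) (.g (nat_lit 1) (.e (nat_lit 369704) (nat_lit 0) .nil) .nil))) 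
(.lf (nat_lit 578380) (.g (nat_lit 2381) (.e (nat_lit 336186) (nat_lit 11) (.e (nat_lit 368676) (nat_lit 21) (.e (nat_lit 516139) (nat_lit 7) (.e (nat_lit 409650) (nat_lit 19) (.e (nat_lit 311315) (nat_lit 3) (.e (nat_lit 204861) (nat_lit 26) .nil)))))) (.g (nat_lit 1) (.e (nat_lit 371283) (nat_lit 0) .nil) .nil))))) (.nd (nat_lit 8) (.nd (nat_lit 9) 
(.lf (nat_lit 577740) (.g (nat_lit 973) (.e (nat_lit 336049) (nat_lit 6) (.e (nat_lit 147498) (nat_lit 12) (.e (nat_lit 164054) (nat_lit 56) (.e (nat_lit 786457) (nat_lit 18) (.e (nat_lit 98381) (nat_lit 31) (.e (nat_lit 466954) (nat_lit 11) .nil)))))) (.g (nat_lit 1) (.e (nat_lit 369206) (nat_lit 0) .nil) .nil))) 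
(.lf (nat_lit 578252) (.g (nat_lit 4998) (.e (nat_lit 336172) (nat_lit 10) (.e (nat_lit 344133) (nat_lit 26) (.e (nat_lit 557087) (nat_lit 11) (.e (nat_lit 24617) (nat_lit 7) (.e (nat_lit 319511) (nat_lit 10) .nil))))) (.g (nat_lit 0) (.e (nat_lit 370875) (nat_lit 0) .nil) .nil)))) (.nd (nat_lit 9) 
(.lf (nat_lit 577996) (.g (nat_lit 3034) (.e (nat_lit 336097) (nat_lit 9) (.e (nat_lit 336028) (nat_lit 3) (.e (nat_lit 98350) (nat_lit 24) (.e (nat_lit 409647) (nat_lit 18) (.e (nat_lit 303119) (nat_lit 3) .nil))))) (.g (nat_lit 0) (.e (nat_lit 370138) (nat_lit 0) .nil) .nil))) 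
(.lf (nat_lit 578508) (.g (nat_lit 1508) (.e (nat_lit 343808) (nat_lit 12) (.e (nat_lit 385106) (nat_lit 50) (.e (nat_lit 786480) (nat_lit 29) (.e (nat_lit 352265) (nat_lit 0) .nil)))) (.g (nat_lit 0) (.e (nat_lit 371786) (nat_lit 0) .nil) .nil))))))) (.nd (nat_lit 6) (.nd (nat_lit 7) (.nd (nat_lit 8) (.nd (nat_lit 9) 
(.lf (nat_lit 577580) (.g (nat_lit 4128) (.e (nat_lit 336027) (nat_lit 3) (.e (nat_lit 98384) (nat_lit 32) (.e (nat_lit 475199) (nat_lit 40) (.e (nat_lit 704589) (nat_lit 3) (.e (nat_lit 163975) (nat_lit 30) (.e (nat_lit 573481) (nat_lit 13) (.e (nat_lit 65606) (nat_lit 9) .nil))))))) (.g (nat_lit 1) (.e (nat_lit 368974) (nat_lit 0) .nil) .nil))) 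
(.lf (nat_lit 578092) (.g (nat_lit 2162) (.e (nat_lit 336111) (nat_lit 9) (.e (nat_lit 336013) (nat_lit 2) (.e (nat_lit 90165) (nat_lit 12) (.e (nat_lit 164208) (nat_lit 176) .nil)))) (.g (nat_lit 0) (.e (nat_lit 370342) (nat_lit 0) .nil) .nil)))) (.nd (nat_lit 9) 
(.lf (nat_lit 577836) (.g (nat_lit 1958) (.e (nat_lit 336074) (nat_lit 9) (.e (nat_lit 336454) (nat_lit 34) (.e (nat_lit 483365) (nat_lit 18) (.e (nat_lit 57852) (nat_lit 252) (.e (nat_lit 57378) (nat_lit 3) .nil))))) (.g (nat_lit 0) (.e (nat_lit 369620) (nat_lit 0) .nil) .nil))) 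
(.lf (nat_lit 578348) (.g (nat_lit 1305) (.e (nat_lit 336178) (nat_lit 10) (.e (nat_lit 344097) (nat_lit 18) (.e (nat_lit 5195) (nat_lit 294) (.e (nat_lit 57388) (nat_lit 5) .nil)))) (.g (nat_lit 0) (.e (nat_lit 371200) (nat_lit 0) .nil) .nil))))) (.nd (nat_lit 8) (.nd (nat_lit 9) 
(.lf (nat_lit 577708) (.g (nat_lit 3090) (.e (nat_lit 343808) (nat_lit 3) (.e (nat_lit 98373) (nat_lit 29) (.e (nat_lit 450588) (nat_lit 10) (.e (nat_lit 573475) (nat_lit 12) (.e (nat_lit 57568) (nat_lit 53) .nil))))) (.g (nat_lit 0) (.e (nat_lit 369146) (nat_lit 0) .nil) .nil))) 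
(.lf (nat_lit 578220) (.g (nat_lit 2518) (.e (nat_lit 343808) (nat_lit 9) (.e (nat_lit 336454) (nat_lit 34) (.e (nat_lit 483365) (nat_lit 18) (.e (nat_lit 57847) (nat_lit 252) (.e (nat_lit 57378) (nat_lit 3) .nil))))) (.g (nat_lit 0) (.e (nat_lit 370809) (nat_lit 0) .nil) .nil)))) (.nd (nat_lit 9) 
(.lf (nat_lit 577964) (.g (nat_lit 2157) (.e (nat_lit 336087) (nat_lit 9) (.e (nat_lit 336426) (nat_lit 29) (.e (nat_lit 442421) (nat_lit 21) (.e (nat_lit 164322) (nat_lit 230) (.e (nat_lit 163885) (nat_lit 5) (.e (nat_lit 221193) (nat_lit 11) .nil)))))) (.g (nat_lit 1) (.e (nat_lit 370038) (nat_lit 0) .nil) .nil))) 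
(.lf (nat_lit 578476) (.g (nat_lit 2327) (.e (nat_lit 336206) (nat_lit 12) (.e (nat_lit 385074) (nat_lit 31) (.e (nat_lit 573480) (nat_lit 13) (.e (nat_lit 65630) (nat_lit 14) (.e (nat_lit 401425) (nat_lit 2) (.e (nat_lit 196628) (nat_lit 9) (.e (nat_lit 1471) (nat_lit 108) .nil))))))) (.g (nat_lit 1) (.e (nat_lit 371690) (nat_lit 0) .nil) .nil)))))) 
(.nd (nat_lit 7) (.nd (nat_lit 8) (.nd (nat_lit 9) 
(.lf (nat_lit 577644) (.g (nat_lit 4537) (.e (nat_lit 336028) (nat_lit 3) (.e (nat_lit 98350) (nat_lit 24) (.e (nat_lit 409649) (nat_lit 18) (.e (nat_lit 303111) (nat_lit 0) (.e (nat_lit 3238) (nat_lit 197) (.e (nat_lit 532535) (nat_lit 9) (.e (nat_lit 336110) (nat_lit 9) .nil))))))) (.g (nat_lit 1) (.e (nat_lit 369060) (nat_lit 0) .nil) .nil))) 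
(.lf (nat_lit 578156) (.g (nat_lit 1996) (.e (nat_lit 336152) (nat_lit 9) (.e (nat_lit 336442) (nat_lit 32) (.e (nat_lit 466969) (nat_lit 21) (.e (nat_lit 164332) (nat_lit 230) (.e (nat_lit 163885) (nat_lit 5) (.e (nat_lit 221192) (nat_lit 11) .nil)))))) (.g (nat_lit 1) (.e (nat_lit 370616) (nat_lit 0) .nil) .nil)))) (.nd (nat_lit 9) 
(.lf (nat_lit 577900) (.g (nat_lit 1655) (.e (nat_lit 336077) (nat_lit 9) (.e (nat_lit 336443) (nat_lit 32) (.e (nat_lit 466971) (nat_lit 21) (.e (nat_lit 164326) (nat_lit 230) (.e (nat_lit 163886) (nat_lit 5) .nil))))) (.g (nat_lit 0) (.e (nat_lit 369806) (nat_lit 0) .nil) .nil))) 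
(.lf (nat_lit 578412) (.g (nat_lit 3598) (.e (nat_lit 336198) (nat_lit 12) (.e (nat_lit 385074) (nat_lit 31) (.e (nat_lit 573482) (nat_lit 13) (.e (nat_lit 65628) (nat_lit 14) (.e (nat_lit 401428) (nat_lit 3) (.e (nat_lit 204858) (nat_lit 26) .nil)))))) (.g (nat_lit 1) (.e (nat_lit 371489) (nat_lit 0) .nil) .nil))))) (.nd (nat_lit 8) (.nd (nat_lit 9) 
(.lf (nat_lit 577772) (.g (nat_lit 2657) (.e (nat_lit 336061) (nat_lit 7) (.e (nat_lit 319531) (nat_lit 16) (.e (nat_lit 286731) (nat_lit 1) (.e (nat_lit 57688) (nat_lit 156) (.e (nat_lit 163933) (nat_lit 17) (.e (nat_lit 474880) (nat_lit 11) .nil)))))) (.g (nat_lit 1) (.e (nat_lit 369344) (nat_lit 0) .nil) .nil))) 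
(.lf (nat_lit 578284) (.g (nat_lit 1961) (.e (nat_lit 336176) (nat_lit 10) (.e (nat_lit 344117) (nat_lit 21) (.e (nat_lit 516139) (nat_lit 7) (.e (nat_lit 409648) (nat_lit 18) .nil)))) (.g (nat_lit 0) (.e (nat_lit 370984) (nat_lit 0) .nil) .nil)))) (.nd (nat_lit 9) 
(.lf (nat_lit 578028) (.g (nat_lit 1360) (.e (nat_lit 336099) (nat_lit 9) (.e (nat_lit 336013) (nat_lit 2) (.e (nat_lit 90162) (nat_lit 12) .nil))) (.g (nat_lit 0) (.e (nat_lit 370193) (nat_lit 0) .nil) .nil))) 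
(.lf (nat_lit 578540) (.g (nat_lit 500) (.e (nat_lit 336225) (nat_lit 14) (.e (nat_lit 401459) (nat_lit 13) (.e (nat_lit 483410) (nat_lit 27) .nil))) (.g (nat_lit 0) (.e (nat_lit 371896) (nat_lit 0) .nil) .nil)))))))) (.nd (nat_lit 5) (.nd (nat_lit 6) (.nd (nat_lit 7) (.nd (nat_lit 8) (.nd (nat_lit 9) 
(.lf (nat_lit 577564) (.g (nat_lit 4037) (.e (nat_lit 336027) (nat_lit 3) (.e (nat_lit 98350) (nat_lit 24) (.e (nat_lit 409645) (nat_lit 18) (.e (nat_lit 303112) (nat_lit 0) (.e (nat_lit 3252) (nat_lit 197) (.e (nat_lit 532530) (nat_lit 9) (.e (nat_lit 336129) (nat_lit 9) .nil))))))) (.g (nat_lit 1) (.e (nat_lit 368955) (nat_lit 0) .nil) .nil))) 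
(.lf (nat_lit 578076) (.g (nat_lit 3412) (.e (nat_lit 336102) (nat_lit 9) (.e (nat_lit 336028) (nat_lit 3) (.e (nat_lit 98350) (nat_lit 24) (.e (nat_lit 409645) (nat_lit 18) (.e (nat_lit 303119) (nat_lit 3) .nil))))) (.g (nat_lit 0) (.e (nat_lit 370303) (nat_lit 0) .nil) .nil)))) (.nd (nat_lit 9) 
(.lf (nat_lit 577820) (.g (nat_lit 2355) (.e (nat_lit 336074) (nat_lit 9) (.e (nat_lit 336443) (nat_lit 32) (.e (nat_lit 466969) (nat_lit 21) (.e (nat_lit 164331) (nat_lit 230) (.e (nat_lit 163884) (nat_lit 5) .nil))))) (.g (nat_lit 0) (.e (nat_lit 369604) (nat_lit 0) .nil) .nil))) 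
(.lf (nat_lit 578332) (.g (nat_lit 2696) (.e (nat_lit 336176) (nat_lit 10) (.e (nat_lit 344133) (nat_lit 26) (.e (nat_lit 557087) (nat_lit 11) (.e (nat_lit 24595) (nat_lit 0) (.e (nat_lit 7936) (nat_lit 360) .nil))))) (.g (nat_lit 0) (.e (nat_lit 371163) (nat_lit 0) .nil) .nil))))) (.nd (nat_lit 8) (.nd (nat_lit 9) 
(.lf (nat_lit 577692) (.g (nat_lit 3485) (.e (nat_lit 343808) (nat_lit 3) (.e (nat_lit 98373) (nat_lit 29) (.e (nat_lit 450587) (nat_lit 10) (.e (nat_lit 573475) (nat_lit 12) (.e (nat_lit 57354) (nat_lit 0) .nil))))) (.g (nat_lit 0) (.e (nat_lit 369130) (nat_lit 0) .nil) .nil))) 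
(.lf (nat_lit 578204) (.g (nat_lit 2011) (.e (nat_lit 336141) (nat_lit 9) (.e (nat_lit 335996) (nat_lit 1) (.e (nat_lit 57854) (nat_lit 252) (.e (nat_lit 57389) (nat_lit 5) .nil)))) (.g (nat_lit 0) (.e (nat_lit 370783) (nat_lit 0) .nil) .nil)))) (.nd (nat_lit 9) 
(.lf (nat_lit 577948) (.g (nat_lit 2758) (.e (nat_lit 336084) (nat_lit 9) (.e (nat_lit 336443) (nat_lit 32) (.e (nat_lit 466969) (nat_lit 21) (.e (nat_lit 164331) (nat_lit 230) (.e (nat_lit 163884) (nat_lit 5) (.e (nat_lit 221193) (nat_lit 11) .nil)))))) (.g (nat_lit 1) (.e (nat_lit 369968) (nat_lit 0) .nil) .nil))) 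
(.lf (nat_lit 578460) (.g (nat_lit 1205) (.e (nat_lit 336205) (nat_lit 12) (.e (nat_lit 385074) (nat_lit 31) (.e (nat_lit 573491) (nat_lit 15) (.e (nat_lit 81946) (nat_lit 20) .nil)))) (.g (nat_lit 0) (.e (nat_lit 371654) (nat_lit 0) .nil) .nil)))))) (.nd (nat_lit 7) (.nd (nat_lit 8) (.nd (nat_lit 9) 
(.lf (nat_lit 577628) (.g (nat_lit 3908) (.e (nat_lit 336028) (nat_lit 3) (.e (nat_lit 98350) (nat_lit 24) (.e (nat_lit 409646) (nat_lit 18) (.e (nat_lit 303119) (nat_lit 3) (.e (nat_lit 204855) (nat_lit 26) (.e (nat_lit 336073) (nat_lit 9) .nil)))))) (.g (nat_lit 1) (.e (nat_lit 369044) (nat_lit 0) .nil) .nil))) 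
(.lf (nat_lit 578140) (.g (nat_lit 2786) (.e (nat_lit 336130) (nat_lit 9) (.e (nat_lit 336027) (nat_lit 3) (.e (nat_lit 98350) (nat_lit 24) (.e (nat_lit 409649) (nat_lit 18) (.e (nat_lit 303111) (nat_lit 0) .nil))))) (.g (nat_lit 0) (.e (nat_lit 370542) (nat_lit 0) .nil) .nil)))) (.nd (nat_lit 9) 
(.lf (nat_lit 577884) (.g (nat_lit 2508) (.e (nat_lit 336076) (nat_lit 9) (.e (nat_lit 336372) (nat_lit 27) (.e (nat_lit 426482) (nat_lit 27) (.e (nat_lit 335997) (nat_lit 1) (.e (nat_lit 57931) (nat_lit 282) (.e (nat_lit 163874) (nat_lit 3) (.e (nat_lit 204861) (nat_lit 26) .nil))))))) (.g (nat_lit 1) (.e (nat_lit 369749) (nat_lit 0) .nil) .nil))) 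
(.lf (nat_lit 578396) (.g (nat_lit 862) (.e (nat_lit 336194) (nat_lit 12) (.e (nat_lit 385074) (nat_lit 31) (.e (nat_lit 573456) (nat_lit 9) .nil))) (.g (nat_lit 0) (.e (nat_lit 371353) (nat_lit 0) .nil) .nil))))) (.nd (nat_lit 8) (.nd (nat_lit 9) 
(.lf (nat_lit 577756) (.g (nat_lit 1891) (.e (nat_lit 336051) (nat_lit 6) (.e (nat_lit 147496) (nat_lit 11) (.e (nat_lit 24603) (nat_lit 2) (.e (nat_lit 90162) (nat_lit 12) (.e (nat_lit 164031) (nat_lit 53) (.e (nat_lit 761905) (nat_lit 16) (.e (nat_lit 179968) (nat_lit 27) .nil))))))) (.g (nat_lit 1) (.e (nat_lit 369234) (nat_lit 0) .nil) .nil))) 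
(.lf (nat_lit 578268) (.g (nat_lit 4267) (.e (nat_lit 336173) (nat_lit 10) (.e (nat_lit 344126) (nat_lit 25) (.e (nat_lit 548889) (nat_lit 9) (.e (nat_lit 65630) (nat_lit 14) (.e (nat_lit 401411) (nat_lit 0) .nil))))) (.g (nat_lit 0) (.e (nat_lit 370925) (nat_lit 0) .nil) .nil)))) (.nd (nat_lit 9) 
(.lf (nat_lit 578012) (.g (nat_lit 3504) (.e (nat_lit 336099) (nat_lit 9) (.e (nat_lit 336013) (nat_lit 2) (.e (nat_lit 90121) (nat_lit 9) (.e (nat_lit 2828) (nat_lit 182) (.e (nat_lit 409646) (nat_lit 18) (.e (nat_lit 303117) (nat_lit 2) (.e (nat_lit 196630) (nat_lit 9) (.e (nat_lit 1413) (nat_lit 108) .nil)))))))) (.g (nat_lit 1) (.e (nat_lit 370170) (nat_lit 0) .nil) .nil))) 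
(.lf (nat_lit 578524) (.g (nat_lit 2385) (.e (nat_lit 336215) (nat_lit 13) (.e (nat_lit 393229) (nat_lit 9) (.e (nat_lit 335986) (nat_lit 1) (.e (nat_lit 57924) (nat_lit 282) .nil)))) (.g (nat_lit 0) (.e (nat_lit 371829) (nat_lit 0) .nil) .nil))))))) (.nd (nat_lit 6) (.nd (nat_lit 7) (.nd (nat_lit 8) (.nd (nat_lit 9) 
(.lf (nat_lit 577596) (.g (nat_lit 3534) (.e (nat_lit 336028) (nat_lit 3) (.e (nat_lit 98349) (nat_lit 24) (.e (nat_lit 409645) (nat_lit 18) (.e (nat_lit 303117) (nat_lit 2) (.e (nat_lit 196665) (nat_lit 13) (.e (nat_lit 65597) (nat_lit 9) .nil)))))) (.g (nat_lit 1) (.e (nat_lit 369001) (nat_lit 0) .nil) .nil))) 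
(.lf (nat_lit 578108) (.g (nat_lit 2609) (.e (nat_lit 336104) (nat_lit 9) (.e (nat_lit 336028) (nat_lit 3) (.e (nat_lit 98350) (nat_lit 24) (.e (nat_lit 409648) (nat_lit 18) (.e (nat_lit 303118) (nat_lit 3) .nil))))) (.g (nat_lit 0) (.e (nat_lit 370376) (nat_lit 0) .nil) .nil)))) (.nd (nat_lit 9) 
(.lf (nat_lit 577852) (.g (nat_lit 2795) (.e (nat_lit 336075) (nat_lit 9) (.e (nat_lit 336326) (nat_lit 18) (.e (nat_lit 204835) (nat_lit 19) (.e (nat_lit 106536) (nat_lit 11) (.e (nat_lit 16415) (nat_lit 3) (.e (nat_lit 204861) (nat_lit 26) .nil)))))) (.g (nat_lit 1) (.e (nat_lit 369649) (nat_lit 0) .nil) .nil))) 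
(.lf (nat_lit 578364) (.g (nat_lit 2852) (.e (nat_lit 336178) (nat_lit 10) (.e (nat_lit 344117) (nat_lit 21) (.e (nat_lit 516195) (nat_lit 26) (.e (nat_lit 335986) (nat_lit 1) (.e (nat_lit 57926) (nat_lit 282) (.e (nat_lit 163901) (nat_lit 12) (.e (nat_lit 426506) (nat_lit 27) .nil))))))) (.g (nat_lit 1) (.e (nat_lit 371223) (nat_lit 0) .nil) .nil))))) (.nd (nat_lit 8) (.nd (nat_lit 9) 
(.lf (nat_lit 577724) (.g (nat_lit 1555) (.e (nat_lit 336032) (nat_lit 4) (.e (nat_lit 123184) (nat_lit 264) (.e (nat_lit 1222) (nat_lit 90) (.e (nat_lit 81935) (nat_lit 20) (.e (nat_lit 1996) (nat_lit 137) .nil))))) (.g (nat_lit 0) (.e (nat_lit 369170) (nat_lit 0) .nil) .nil))) 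
(.lf (nat_lit 578236) (.g (nat_lit 3095) (.e (nat_lit 336163) (nat_lit 10) (.e (nat_lit 344117) (nat_lit 21) (.e (nat_lit 516139) (nat_lit 7) (.e (nat_lit 409647) (nat_lit 18) (.e (nat_lit 303119) (nat_lit 3) .nil))))) (.g (nat_lit 0) (.e (nat_lit 370834) (nat_lit 0) .nil) .nil)))) (.nd (nat_lit 9) 
(.lf (nat_lit 577980) (.g (nat_lit 1423) (.e (nat_lit 336089) (nat_lit 9) (.e (nat_lit 336324) (nat_lit 18) (.e (nat_lit 204837) (nat_lit 20) (.e (nat_lit 114697) (nat_lit 11) .nil)))) (.g (nat_lit 0) (.e (nat_lit 370083) (nat_lit 0) .nil) .nil))) 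
(.lf (nat_lit 578492) (.g (nat_lit 2704) (.e (nat_lit 336208) (nat_lit 12) (.e (nat_lit 385068) (nat_lit 26) (.e (nat_lit 532515) (nat_lit 3) (.e (nat_lit 114697) (nat_lit 11) (.e (nat_lit 426138) (nat_lit 3) (.e (nat_lit 204854) (nat_lit 26) .nil)))))) (.g (nat_lit 1) (.e (nat_lit 371745) (nat_lit 0) .nil) .nil)))))) (.nd (nat_lit 7) (.nd (nat_lit 8) (.nd (nat_lit 9) 
(.lf (nat_lit 577660) (.g (nat_lit 2012) (.e (nat_lit 336028) (nat_lit 3) (.e (nat_lit 98368) (nat_lit 27) (.e (nat_lit 434209) (nat_lit 18) (.e (nat_lit 5548) (nat_lit 306) (.e (nat_lit 2610) (nat_lit 163) .nil))))) (.g (nat_lit 0) (.e (nat_lit 369091) (nat_lit 0) .nil) .nil))) 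
(.lf (nat_lit 578172) (.g (nat_lit 956) (.e (nat_lit 336158) (nat_lit 9) (.e (nat_lit 335986) (nat_lit 1) (.e (nat_lit 57849) (nat_lit 252) (.e (nat_lit 57388) (nat_lit 5) .nil)))) (.g (nat_lit 0) (.e (nat_lit 370696) (nat_lit 0) .nil) .nil)))) (.nd (nat_lit 9) 
(.lf (nat_lit 577916) (.g (nat_lit 1787) (.e (nat_lit 336078) (nat_lit 9) (.e (nat_lit 336324) (nat_lit 18) (.e (nat_lit 204838) (nat_lit 20) (.e (nat_lit 114696) (nat_lit 11) .nil)))) (.g (nat_lit 0) (.e (nat_lit 369842) (nat_lit 0) .nil) .nil))) 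
(.lf (nat_lit 578428) (.g (nat_lit 2572) (.e (nat_lit 336201) (nat_lit 12) (.e (nat_lit 385074) (nat_lit 31) (.e (nat_lit 573482) (nat_lit 13) (.e (nat_lit 65619) (nat_lit 10) (.e (nat_lit 344129) (nat_lit 26) .nil))))) (.g (nat_lit 0) (.e (nat_lit 371556) (nat_lit 0) .nil) .nil))))) (.nd (nat_lit 8) (.nd (nat_lit 9) 
(.lf (nat_lit 577788) (.g (nat_lit 3534) (.e (nat_lit 336067) (nat_lit 8) (.e (nat_lit 327708) (nat_lit 10) (.e (nat_lit 5270) (nat_lit 298) (.e (nat_lit 1183) (nat_lit 87) .nil)))) (.g (nat_lit 0) (.e (nat_lit 369500) (nat_lit 0) .nil) .nil))) 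
(.lf (nat_lit 578300) (.g (nat_lit 3300) (.e (nat_lit 336176) (nat_lit 10) (.e (nat_lit 344127) (nat_lit 26) (.e (nat_lit 557090) (nat_lit 12) (.e (nat_lit 164022) (nat_lit 46) (.e (nat_lit 704629) (nat_lit 9) .nil))))) (.g (nat_lit 0) (.e (nat_lit 371041) (nat_lit 0) .nil) .nil)))) (.nd (nat_lit 9) 
(.lf (nat_lit 578044) (.g (nat_lit 4958) (.e (nat_lit 336099) (nat_lit 9) (.e (nat_lit 336013) (nat_lit 2) (.e (nat_lit 90170) (nat_lit 13) (.e (nat_lit 172054) (nat_lit 0) .nil)))) (.g (nat_lit 0) (.e (nat_lit 370215) (nat_lit 0) .nil) .nil))) 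
(.lf (nat_lit 578556) (.g (nat_lit 2077) (.e (nat_lit 336226) (nat_lit 14) (.e (nat_lit 401458) (nat_lit 13) (.e (nat_lit 483372) (nat_lit 21) (.e (nat_lit 319537) (nat_lit 19) (.e (nat_lit 311352) (nat_lit 27) .nil))))) (.g (nat_lit 1) (.e (nat_lit 371966) (nat_lit 0) .nil) .nil))))))))))) 
(.nd (nat_lit 2) (.nd (nat_lit 3) (.nd (nat_lit 4) (.nd (nat_lit 5) (.nd (nat_lit 6) 
(.nd (nat_lit 7) (.nd (nat_lit 8) (.nd (nat_lit 9) 
(.lf (nat_lit 577538) (.g (nat_lit 2113) (.e (nat_lit 336026) (nat_lit 3) (.e (nat_lit 98362) (nat_lit 26) (.e (nat_lit 426310) (nat_lit 12) (.e (nat_lit 475179) (nat_lit 24) (.e (nat_lit 516129) (nat_lit 3) (.e (nat_lit 221194) (nat_lit 11) .nil)))))) (.g (nat_lit 1) (.e (nat_lit 368915) (nat_lit 0) .nil) .nil))) 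
(.lf (nat_lit 578050) (.g (nat_lit 1360) (.e (nat_lit 336099) (nat_lit 9) (.e (nat_lit 336013) (nat_lit 2) (.e (nat_lit 90179) (nat_lit 16) .nil))) (.g (nat_lit 0) (.e (nat_lit 370229) (nat_lit 0) .nil) .nil)))) (.nd (nat_lit 9) 
(.lf (nat_lit 577794) (.g (nat_lit 1856) (.e (nat_lit 336073) (nat_lit 9) (.e (nat_lit 336013) (nat_lit 2) (.e (nat_lit 90165) (nat_lit 12) (.e (nat_lit 164208) (nat_lit 176) .nil)))) (.g (nat_lit 0) (.e (nat_lit 369533) (nat_lit 0) .nil) .nil))) 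
(.lf (nat_lit 578306) (.g (nat_lit 2174) (.e (nat_lit 336176) (nat_lit 10) (.e (nat_lit 344130) (nat_lit 26) (.e (nat_lit 557087) (nat_lit 11) (.e (nat_lit 24586) (nat_lit 0) .nil)))) (.g (nat_lit 0) (.e (nat_lit 371067) (nat_lit 0) .nil) .nil))))) (.nd (nat_lit 8) (.nd (nat_lit 9) 
(.lf (nat_lit 577666) (.g (nat_lit 1105) (.e (nat_lit 343808) (nat_lit 3) (.e (nat_lit 98350) (nat_lit 24) (.e (nat_lit 409616) (nat_lit 10) (.e (nat_lit 7936) (nat_lit 318) .nil)))) (.g (nat_lit 0) (.e (nat_lit 369098) (nat_lit 0) .nil) .nil))) 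
(.lf (nat_lit 578178) (.g (nat_lit 1445) (.e (nat_lit 336158) (nat_lit 9) (.e (nat_lit 335988) (nat_lit 1) (.e (nat_lit 57851) (nat_lit 252) (.e (nat_lit 57389) (nat_lit 5) (.e (nat_lit 122624) (nat_lit 16) .nil))))) (.g (nat_lit 0) (.e (nat_lit 370711) (nat_lit 0) .nil) .nil)))) (.nd (nat_lit 9) 
(.lf (nat_lit 577922) (.g (nat_lit 735) (.e (nat_lit 336079) (nat_lit 9) (.e (nat_lit 336454) (nat_lit 34) (.e (nat_lit 483365) (nat_lit 18) .nil))) (.g (nat_lit 0) (.e (nat_lit 369894) (nat_lit 0) .nil) .nil))) 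
(.lf (nat_lit 578434) (.g (nat_lit 1671) (.e (nat_lit 336203) (nat_lit 12) (.e (nat_lit 385074) (nat_lit 31) (.e (nat_lit 573480) (nat_lit 13) (.e (nat_lit 65630) (nat_lit 14) (.e (nat_lit 401428) (nat_lit 3) .nil))))) (.g (nat_lit 0) (.e (nat_lit 371590) (nat_lit 0) .nil) .nil)))))) (.nd (nat_lit 7) (.nd (nat_lit 8) (.nd (nat_lit 9) 
(.lf (nat_lit 577602) (.g (nat_lit 3496) (.e (nat_lit 336028) (nat_lit 3) (.e (nat_lit 98349) (nat_lit 24) (.e (nat_lit 409646) (nat_lit 18) (.e (nat_lit 303117) (nat_lit 2) (.e (nat_lit 196665) (nat_lit 13) (.e (nat_lit 65597) (nat_lit 9) .nil)))))) (.g (nat_lit 1) (.e (nat_lit 369007) (nat_lit 0) .nil) .nil))) 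
(.lf (nat_lit 578114) (.g (nat_lit 4767) (.e (nat_lit 336113) (nat_lit 9) (.e (nat_lit 336324) (nat_lit 18) (.e (nat_lit 204831) (nat_lit 18) (.e (nat_lit 57849) (nat_lit 252) .nil)))) (.g (nat_lit 0) (.e (nat_lit 370385) (nat_lit 0) .nil) .nil)))) (.nd (nat_lit 9) 
(.lf (nat_lit 577858) (.g (nat_lit 2679) (.e (nat_lit 336075) (nat_lit 9) (.e (nat_lit 336370) (nat_lit 27) (.e (nat_lit 426499) (nat_lit 27) (.e (nat_lit 335986) (nat_lit 1) (.e (nat_lit 57927) (nat_lit 282) (.e (nat_lit 163873) (nat_lit 3) (.e (nat_lit 204861) (nat_lit 26) .nil))))))) (.g (nat_lit 1) (.e (nat_lit 369689) (nat_lit 0) .nil) .nil))) 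
(.lf (nat_lit 578370) (.g (nat_lit 1646) (.e (nat_lit 336183) (nat_lit 11) (.e (nat_lit 368676) (nat_lit 21) (.e (nat_lit 516185) (nat_lit 16) (.e (nat_lit 491560) (nat_lit 10) .nil)))) (.g (nat_lit 0) (.e (nat_lit 371253) (nat_lit 0) .nil) .nil))))) (.nd (nat_lit 8) (.nd (nat_lit 9) 
(.lf (nat_lit 577730) (.g (nat_lit 2160) (.e (nat_lit 336035) (nat_lit 4) (.e (nat_lit 123185) (nat_lit 264) (.e (nat_lit 1183) (nat_lit 87) (.e (nat_lit 57479) (nat_lit 28) (.e (nat_lit 557101) (nat_lit 13) .nil))))) (.g (nat_lit 0) (.e (nat_lit 369181) (nat_lit 0) .nil) .nil))) 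
(.lf (nat_lit 578242) (.g (nat_lit 2004) (.e (nat_lit 336163) (nat_lit 10) (.e (nat_lit 344133) (nat_lit 26) (.e (nat_lit 557090) (nat_lit 12) (.e (nat_lit 164020) (nat_lit 45) .nil)))) (.g (nat_lit 0) (.e (nat_lit 370844) (nat_lit 0) .nil) .nil)))) (.nd (nat_lit 9) 
(.lf (nat_lit 577986) (.g (nat_lit 2046) (.e (nat_lit 336095) (nat_lit 9) (.e (nat_lit 336013) (nat_lit 2) (.e (nat_lit 90165) (nat_lit 12) (.e (nat_lit 164207) (nat_lit 176) .nil)))) (.g (nat_lit 0) (.e (nat_lit 370102) (nat_lit 0) .nil) .nil))) 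
(.lf (nat_lit 578498) (.g (nat_lit 2021) (.e (nat_lit 336208) (nat_lit 12) (.e (nat_lit 385074) (nat_lit 31) (.e (nat_lit 573484) (nat_lit 13) (.e (nat_lit 65617) (nat_lit 10) (.e (nat_lit 344130) (nat_lit 26) .nil))))) (.g (nat_lit 0) (.e (nat_lit 371760) (nat_lit 0) .nil) .nil))))))) (.nd (nat_lit 6) (.nd (nat_lit 7) (.nd (nat_lit 8) (.nd (nat_lit 9) 
(.lf (nat_lit 577570) (.g (nat_lit 2665) (.e (nat_lit 336027) (nat_lit 3) (.e (nat_lit 98350) (nat_lit 24) (.e (nat_lit 409648) (nat_lit 18) (.e (nat_lit 303112) (nat_lit 0) (.e (nat_lit 3252) (nat_lit 197) .nil))))) (.g (nat_lit 0) (.e (nat_lit 368962) (nat_lit 0) .nil) .nil))) 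
(.lf (nat_lit 578082) (.g (nat_lit 2249) (.e (nat_lit 336101) (nat_lit 9) (.e (nat_lit 336013) (nat_lit 2) (.e (nat_lit 90165) (nat_lit 12) (.e (nat_lit 164210) (nat_lit 176) .nil)))) (.g (nat_lit 0) (.e (nat_lit 370321) (nat_lit 0) .nil) .nil)))) (.nd (nat_lit 9) 
(.lf (nat_lit 577826) (.g (nat_lit 1906) (.e (nat_lit 336074) (nat_lit 9) (.e (nat_lit 336443) (nat_lit 32) (.e (nat_lit 466971) (nat_lit 21) (.e (nat_lit 164325) (nat_lit 230) (.e (nat_lit 163886) (nat_lit 5) .nil))))) (.g (nat_lit 0) (.e (nat_lit 369610) (nat_lit 0) .nil) .nil))) 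
(.lf (nat_lit 578338) (.g (nat_lit 4107) (.e (nat_lit 336176) (nat_lit 10) (.e (nat_lit 344161) (nat_lit 37) (.e (nat_lit 647170) (nat_lit 0) (.e (nat_lit 3098) (nat_lit 192) (.e (nat_lit 491566) (nat_lit 12) (.e (nat_lit 385100) (nat_lit 49) (.e (nat_lit 778278) (nat_lit 0) (.e (nat_lit 1454) (nat_lit 108) .nil)))))))) (.g (nat_lit 1) (.e (nat_lit 371179) (nat_lit 0) .nil) .nil))))) 
(.nd (nat_lit 8) (.nd (nat_lit 9) 
(.lf (nat_lit 577698) (.g (nat_lit 3604) (.e (nat_lit 343808) (nat_lit 3) (.e (nat_lit 98373) (nat_lit 29) (.e (nat_lit 450588) (nat_lit 10) (.e (nat_lit 573473) (nat_lit 12) (.e (nat_lit 57347) (nat_lit 0) .nil))))) (.g (nat_lit 0) (.e (nat_lit 369136) (nat_lit 0) .nil) .nil))) 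
(.lf (nat_lit 578210) (.g (nat_lit 629) (.e (nat_lit 343808) (nat_lit 9) (.e (nat_lit 336013) (nat_lit 2) (.e (nat_lit 90165) (nat_lit 12) .nil))) (.g (nat_lit 0) (.e (nat_lit 370796) (nat_lit 0) .nil) .nil)))) (.nd (nat_lit 9) 
(.lf (nat_lit 577954) (.g (nat_lit 2730) (.e (nat_lit 336084) (nat_lit 9) (.e (nat_lit 336443) (nat_lit 32) (.e (nat_lit 466972) (nat_lit 21) (.e (nat_lit 164329) (nat_lit 230) (.e (nat_lit 163885) (nat_lit 5) (.e (nat_lit 221193) (nat_lit 11) .nil)))))) (.g (nat_lit 1) (.e (nat_lit 369974) (nat_lit 0) .nil) .nil))) 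
(.lf (nat_lit 578466) (.g (nat_lit 841) (.e (nat_lit 336205) (nat_lit 12) (.e (nat_lit 385093) (nat_lit 49) (.e (nat_lit 778323) (nat_lit 5) (.e (nat_lit 81664) (nat_lit 32) .nil)))) (.g (nat_lit 0) (.e (nat_lit 371660) (nat_lit 0) .nil) .nil)))))) (.nd (nat_lit 7) (.nd (nat_lit 8) (.nd (nat_lit 9) 
(.lf (nat_lit 577634) (.g (nat_lit 2722) (.e (nat_lit 336028) (nat_lit 3) (.e (nat_lit 98350) (nat_lit 24) (.e (nat_lit 409648) (nat_lit 18) (.e (nat_lit 303117) (nat_lit 2) (.e (nat_lit 196665) (nat_lit 13) .nil))))) (.g (nat_lit 0) (.e (nat_lit 369050) (nat_lit 0) .nil) .nil))) 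
(.lf (nat_lit 578146) (.g (nat_lit 2856) (.e (nat_lit 336136) (nat_lit 9) (.e (nat_lit 336028) (nat_lit 3) (.e (nat_lit 98350) (nat_lit 24) (.e (nat_lit 409646) (nat_lit 18) (.e (nat_lit 303119) (nat_lit 3) .nil))))) (.g (nat_lit 0) (.e (nat_lit 370559) (nat_lit 0) .nil) .nil)))) (.nd (nat_lit 9) 
(.lf (nat_lit 577890) (.g (nat_lit 4144) (.e (nat_lit 336076) (nat_lit 9) (.e (nat_lit 336454) (nat_lit 34) (.e (nat_lit 483365) (nat_lit 18) (.e (nat_lit 57931) (nat_lit 282) (.e (nat_lit 163874) (nat_lit 3) (.e (nat_lit 204861) (nat_lit 26) .nil)))))) (.g (nat_lit 1) (.e (nat_lit 369761) (nat_lit 0) .nil) .nil))) 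
(.lf (nat_lit 578402) (.g (nat_lit 222) (.e (nat_lit 336194) (nat_lit 12) (.e (nat_lit 385109) (nat_lit 51) (.e (nat_lit 802560) (nat_lit 5) .nil))) (.g (nat_lit 0) (.e (nat_lit 371374) (nat_lit 0) .nil) .nil))))) (.nd (nat_lit 8) (.nd (nat_lit 9) 
(.lf (nat_lit 577762) (.g (nat_lit 1768) (.e (nat_lit 336051) (nat_lit 6) (.e (nat_lit 147496) (nat_lit 11) (.e (nat_lit 24625) (nat_lit 9) (.e (nat_lit 336370) (nat_lit 27) .nil)))) (.g (nat_lit 0) (.e (nat_lit 369240) (nat_lit 0) .nil) .nil))) 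
(.lf (nat_lit 578274) (.g (nat_lit 543) (.e (nat_lit 336173) (nat_lit 10) (.e (nat_lit 344156) (nat_lit 36) (.e (nat_lit 638985) (nat_lit 5) (.e (nat_lit 3015) (nat_lit 187) .nil)))) (.g (nat_lit 0) (.e (nat_lit 370938) (nat_lit 0) .nil) .nil)))) (.nd (nat_lit 9) 
(.lf (nat_lit 578018) (.g (nat_lit 2547) (.e (nat_lit 336099) (nat_lit 9) (.e (nat_lit 336013) (nat_lit 2) (.e (nat_lit 90134) (nat_lit 9) (.e (nat_lit 2822) (nat_lit 182) .nil)))) (.g (nat_lit 0) (.e (nat_lit 370182) (nat_lit 0) .nil) .nil))) 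
(.lf (nat_lit 578530) (.g (nat_lit 3303) (.e (nat_lit 336221) (nat_lit 13) (.e (nat_lit 393281) (nat_lit 23) (.e (nat_lit 426100) (nat_lit 1) (.e (nat_lit 164332) (nat_lit 230) (.e (nat_lit 163885) (nat_lit 5) (.e (nat_lit 221194) (nat_lit 11) .nil)))))) (.g (nat_lit 1) (.e (nat_lit 371866) (nat_lit 0) .nil) .nil)))))))) 
(.nd (nat_lit 5) (.nd (nat_lit 6) (.nd (nat_lit 7) (.nd (nat_lit 8) (.nd (nat_lit 9) 
(.lf (nat_lit 577554) (.g (nat_lit 2414) (.e (nat_lit 336027) (nat_lit 3) (.e (nat_lit 98349) (nat_lit 24) (.e (nat_lit 409646) (nat_lit 18) (.e (nat_lit 303112) (nat_lit 0) (.e (nat_lit 3252) (nat_lit 197) .nil))))) (.g (nat_lit 0) (.e (nat_lit 368940) (nat_lit 0) .nil) .nil))) 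
(.lf (nat_lit 578066) (.g (nat_lit 1858) (.e (nat_lit 336102) (nat_lit 9) (.e (nat_lit 336013) (nat_lit 2) (.e (nat_lit 90165) (nat_lit 12) (.e (nat_lit 164207) (nat_lit 176) .nil)))) (.g (nat_lit 0) (.e (nat_lit 370279) (nat_lit 0) .nil) .nil)))) (.nd (nat_lit 9) 
(.lf (nat_lit 577810) (.g (nat_lit 505) (.e (nat_lit 336073) (nat_lit 9) (.e (nat_lit 336454) (nat_lit 34) (.e (nat_lit 483365) (nat_lit 18) .nil))) (.g (nat_lit 0) (.e (nat_lit 369570) (nat_lit 0) .nil) .nil))) 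
(.lf (nat_lit 578322) (.g (nat_lit 1768) (.e (nat_lit 336176) (nat_lit 10) (.e (nat_lit 344133) (nat_lit 26) (.e (nat_lit 557087) (nat_lit 11) (.e (nat_lit 24581) (nat_lit 0) .nil)))) (.g (nat_lit 0) (.e (nat_lit 371146) (nat_lit 0) .nil) .nil))))) (.nd (nat_lit 8) (.nd (nat_lit 9) 
(.lf (nat_lit 577682) (.g (nat_lit 2551) (.e (nat_lit 343808) (nat_lit 3) (.e (nat_lit 98373) (nat_lit 29) (.e (nat_lit 450587) (nat_lit 10) (.e (nat_lit 573473) (nat_lit 12) (.e (nat_lit 57347) (nat_lit 0) .nil))))) (.g (nat_lit 0) (.e (nat_lit 369120) (nat_lit 0) .nil) .nil))) 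
(.lf (nat_lit 578194) (.g (nat_lit 969) (.e (nat_lit 336158) (nat_lit 9) (.e (nat_lit 336012) (nat_lit 2) (.e (nat_lit 90130) (nat_lit 9) (.e (nat_lit 2830) (nat_lit 182) .nil)))) (.g (nat_lit 0) (.e (nat_lit 370746) (nat_lit 0) .nil) .nil)))) (.nd (nat_lit 9) 
(.lf (nat_lit 577938) (.g (nat_lit 2065) (.e (nat_lit 336083) (nat_lit 9) (.e (nat_lit 336443) (nat_lit 32) (.e (nat_lit 466971) (nat_lit 21) (.e (nat_lit 164327) (nat_lit 230) (.e (nat_lit 163886) (nat_lit 5) (.e (nat_lit 229120) (nat_lit 11) .nil)))))) (.g (nat_lit 1) (.e (nat_lit 369936) (nat_lit 0) .nil) .nil))) 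
(.lf (nat_lit 578450) (.g (nat_lit 3312) (.e (nat_lit 336205) (nat_lit 12) (.e (nat_lit 385068) (nat_lit 26) (.e (nat_lit 532501) (nat_lit 1) (.e (nat_lit 57851) (nat_lit 252) (.e (nat_lit 57406) (nat_lit 12) .nil))))) (.g (nat_lit 0) (.e (nat_lit 371634) (nat_lit 0) .nil) .nil)))))) (.nd (nat_lit 7) (.nd (nat_lit 8) (.nd (nat_lit 9) 
(.lf (nat_lit 577618) (.g (nat_lit 2189) (.e (nat_lit 336028) (nat_lit 3) (.e (nat_lit 98350) (nat_lit 24) (.e (nat_lit 409645) (nat_lit 18) (.e (nat_lit 303117) (nat_lit 2) (.e (nat_lit 196665) (nat_lit 13) .nil))))) (.g (nat_lit 0) (.e (nat_lit 369034) (nat_lit 0) .nil) .nil))) 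
(.lf (nat_lit 578130) (.g (nat_lit 545) (.e (nat_lit 336129) (nat_lit 9) (.e (nat_lit 336027) (nat_lit 3) (.e (nat_lit 98350) (nat_lit 24) .nil))) (.g (nat_lit 0) (.e (nat_lit 370493) (nat_lit 0) .nil) .nil)))) (.nd (nat_lit 9) 
(.lf (nat_lit 577874) (.g (nat_lit 3549) (.e (nat_lit 336075) (nat_lit 9) (.e (nat_lit 336454) (nat_lit 34) (.e (nat_lit 483365) (nat_lit 18) (.e (nat_lit 57929) (nat_lit 282) (.e (nat_lit 163874) (nat_lit 3) (.e (nat_lit 204861) (nat_lit 26) .nil)))))) (.g (nat_lit 1) (.e (nat_lit 369716) (nat_lit 0) .nil) .nil))) 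
(.lf (nat_lit 578386) (.g (nat_lit 772) (.e (nat_lit 336186) (nat_lit 11) (.e (nat_lit 368676) (nat_lit 21) (.e (nat_lit 516195) (nat_lit 26) .nil))) (.g (nat_lit 0) (.e (nat_lit 371308) (nat_lit 0) .nil) .nil))))) (.nd (nat_lit 8) (.nd (nat_lit 9) 
(.lf (nat_lit 577746) (.g (nat_lit 997) (.e (nat_lit 336049) (nat_lit 6) (.e (nat_lit 147503) (nat_lit 12) (.e (nat_lit 164058) (nat_lit 56) (.e (nat_lit 786457) (nat_lit 18) (.e (nat_lit 98381) (nat_lit 31) (.e (nat_lit 466954) (nat_lit 11) .nil)))))) (.g (nat_lit 1) (.e (nat_lit 369212) (nat_lit 0) .nil) .nil))) 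
(.lf (nat_lit 578258) (.g (nat_lit 4061) (.e (nat_lit 336173) (nat_lit 10) (.e (nat_lit 344117) (nat_lit 21) (.e (nat_lit 516139) (nat_lit 7) (.e (nat_lit 409647) (nat_lit 18) (.e (nat_lit 303118) (nat_lit 3) (.e (nat_lit 204855) (nat_lit 26) .nil)))))) (.g (nat_lit 1) (.e (nat_lit 370892) (nat_lit 0) .nil) .nil)))) (.nd (nat_lit 9) 
(.lf (nat_lit 578002) (.g (nat_lit 1010) (.e (nat_lit 336096) (nat_lit 9) (.e (nat_lit 336028) (nat_lit 3) (.e (nat_lit 98350) (nat_lit 24) .nil))) (.g (nat_lit 0) (.e (nat_lit 370147) (nat_lit 0) .nil) .nil))) 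
(.lf (nat_lit 578514) (.g (nat_lit 481) (.e (nat_lit 336211) (nat_lit 13) (.e (nat_lit 393252) (nat_lit 18) (.e (nat_lit 164159) (nat_lit 152) .nil))) (.g (nat_lit 0) (.e (nat_lit 371798) (nat_lit 0) .nil) .nil))))))) (.nd (nat_lit 6) (.nd (nat_lit 7) (.nd (nat_lit 8) (.nd (nat_lit 9) 
(.lf (nat_lit 577586) (.g (nat_lit 4739) (.e (nat_lit 336027) (nat_lit 3) (.e (nat_lit 98384) (nat_lit 32) (.e (nat_lit 475199) (nat_lit 40) (.e (nat_lit 704589) (nat_lit 3) (.e (nat_lit 163979) (nat_lit 30) (.e (nat_lit 573482) (nat_lit 13) (.e (nat_lit 73472) (nat_lit 9) .nil))))))) (.g (nat_lit 1) (.e (nat_lit 368980) (nat_lit 0) .nil) .nil))) 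
(.lf (nat_lit 578098) (.g (nat_lit 1685) (.e (nat_lit 336111) (nat_lit 9) (.e (nat_lit 336028) (nat_lit 3) (.e (nat_lit 98349) (nat_lit 24) (.e (nat_lit 417536) (nat_lit 18) .nil)))) (.g (nat_lit 0) (.e (nat_lit 370350) (nat_lit 0) .nil) .nil)))) (.nd (nat_lit 9) 
(.lf (nat_lit 577842) (.g (nat_lit 3616) (.e (nat_lit 336075) (nat_lit 9) (.e (nat_lit 336324) (nat_lit 18) (.e (nat_lit 204837) (nat_lit 20) (.e (nat_lit 114698) (nat_lit 11) (.e (nat_lit 426133) (nat_lit 3) (.e (nat_lit 204861) (nat_lit 26) .nil)))))) (.g (nat_lit 1) (.e (nat_lit 369639) (nat_lit 0) .nil) .nil))) 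
(.lf (nat_lit 578354) (.g (nat_lit 1975) (.e (nat_lit 336178) (nat_lit 10) (.e (nat_lit 344117) (nat_lit 21) (.e (nat_lit 516139) (nat_lit 7) (.e (nat_lit 409618) (nat_lit 10) .nil)))) (.g (nat_lit 0) (.e (nat_lit 371212) (nat_lit 0) .nil) .nil))))) (.nd (nat_lit 8) (.nd (nat_lit 9) 
(.lf (nat_lit 577714) (.g (nat_lit 1977) (.e (nat_lit 336030) (nat_lit 4) (.e (nat_lit 123182) (nat_lit 264) (.e (nat_lit 1183) (nat_lit 87) (.e (nat_lit 57478) (nat_lit 28) (.e (nat_lit 557107) (nat_lit 15) .nil))))) (.g (nat_lit 0) (.e (nat_lit 369154) (nat_lit 0) .nil) .nil))) 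
(.lf (nat_lit 578226) (.g (nat_lit 3794) (.e (nat_lit 336160) (nat_lit 10) (.e (nat_lit 344119) (nat_lit 21) (.e (nat_lit 516139) (nat_lit 7) (.e (nat_lit 409649) (nat_lit 18) (.e (nat_lit 303119) (nat_lit 3) (.e (nat_lit 204852) (nat_lit 26) .nil)))))) (.g (nat_lit 1) (.e (nat_lit 370815) (nat_lit 0) .nil) .nil)))) (.nd (nat_lit 9) 
(.lf (nat_lit 577970) (.g (nat_lit 2601) (.e (nat_lit 336088) (nat_lit 9) (.e (nat_lit 336324) (nat_lit 18) (.e (nat_lit 204835) (nat_lit 19) (.e (nat_lit 106534) (nat_lit 11) .nil)))) (.g (nat_lit 0) (.e (nat_lit 370055) (nat_lit 0) .nil) .nil))) 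
(.lf (nat_lit 578482) (.g (nat_lit 683) (.e (nat_lit 336206) (nat_lit 12) (.e (nat_lit 385074) (nat_lit 31) (.e (nat_lit 573491) (nat_lit 15) .nil))) (.g (nat_lit 0) (.e (nat_lit 371709) (nat_lit 0) .nil) .nil)))))) (.nd (nat_lit 7) (.nd (nat_lit 8) (.nd (nat_lit 9) 
(.lf (nat_lit 577650) (.g (nat_lit 2295) (.e (nat_lit 336028) (nat_lit 3) (.e (nat_lit 98350) (nat_lit 24) (.e (nat_lit 409649) (nat_lit 18) (.e (nat_lit 303119) (nat_lit 3) (.e (nat_lit 204861) (nat_lit 26) .nil))))) (.g (nat_lit 0) (.e (nat_lit 369066) (nat_lit 0) .nil) .nil))) 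
(.lf (nat_lit 578162) (.g (nat_lit 2139) (.e (nat_lit 336152) (nat_lit 9) (.e (nat_lit 336442) (nat_lit 32) (.e (nat_lit 466972) (nat_lit 21) (.e (nat_lit 164332) (nat_lit 230) (.e (nat_lit 163885) (nat_lit 5) (.e (nat_lit 221192) (nat_lit 11) .nil)))))) (.g (nat_lit 1) (.e (nat_lit 370622) (nat_lit 0) .nil) .nil)))) (.nd (nat_lit 9) 
(.lf (nat_lit 577906) (.g (nat_lit 2125) (.e (nat_lit 336077) (nat_lit 9) (.e (nat_lit 336454) (nat_lit 34) (.e (nat_lit 483363) (nat_lit 18) (.e (nat_lit 57930) (nat_lit 282) .nil)))) (.g (nat_lit 0) (.e (nat_lit 369812) (nat_lit 0) .nil) .nil))) 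
(.lf (nat_lit 578418) (.g (nat_lit 793) (.e (nat_lit 336200) (nat_lit 12) (.e (nat_lit 385068) (nat_lit 26) (.e (nat_lit 532510) (nat_lit 2) .nil))) (.g (nat_lit 0) (.e (nat_lit 371518) (nat_lit 0) .nil) .nil))))) (.nd (nat_lit 8) (.nd (nat_lit 9) 
(.lf (nat_lit 577778) (.g (nat_lit 271) (.e (nat_lit 336060) (nat_lit 7) (.e (nat_lit 319505) (nat_lit 10) (.e (nat_lit 7936) (nat_lit 314) .nil))) (.g (nat_lit 0) (.e (nat_lit 369442) (nat_lit 0) .nil) .nil))) 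
(.lf (nat_lit 578290) (.g (nat_lit 2718) (.e (nat_lit 336176) (nat_lit 10) (.e (nat_lit 344119) (nat_lit 21) (.e (nat_lit 516139) (nat_lit 7) (.e (nat_lit 409649) (nat_lit 18) (.e (nat_lit 303111) (nat_lit 0) (.e (nat_lit 3238) (nat_lit 197) (.e (nat_lit 532535) (nat_lit 9) .nil))))))) (.g (nat_lit 1) (.e (nat_lit 370998) (nat_lit 0) .nil) .nil)))) (.nd (nat_lit 9) 
(.lf (nat_lit 578034) (.g (nat_lit 1948) (.e (nat_lit 336099) (nat_lit 9) (.e (nat_lit 336013) (nat_lit 2) (.e (nat_lit 90165) (nat_lit 12) (.e (nat_lit 171776) (nat_lit 176) .nil)))) (.g (nat_lit 0) (.e (nat_lit 370199) (nat_lit 0) .nil) .nil))) 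
(.lf (nat_lit 578546) (.g (nat_lit 484) (.e (nat_lit 336226) (nat_lit 14) (.e (nat_lit 401437) (nat_lit 9) (.e (nat_lit 426544) (nat_lit 30) .nil))) (.g (nat_lit 0) (.e (nat_lit 371930) (nat_lit 0) .nil) .nil))))))))) (.nd (nat_lit 4) (.nd (nat_lit 5) (.nd (nat_lit 6) (.nd (nat_lit 7) (.nd (nat_lit 8) (.nd (nat_lit 9) 
(.lf (nat_lit 577546) (.g (nat_lit 3432) (.e (nat_lit 336027) (nat_lit 3) (.e (nat_lit 98333) (nat_lit 18) (.e (nat_lit 164179) (nat_lit 154) (.e (nat_lit 57378) (nat_lit 3) (.e (nat_lit 98340) (nat_lit 20) (.e (nat_lit 221215) (nat_lit 23) (.e (nat_lit 204861) (nat_lit 26) .nil))))))) (.g (nat_lit 1) (.e (nat_lit 368925) (nat_lit 0) .nil) .nil))) 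
(.lf (nat_lit 578058) (.g (nat_lit 4211) (.e (nat_lit 336099) (nat_lit 9) (.e (nat_lit 336028) (nat_lit 3) (.e (nat_lit 98349) (nat_lit 24) (.e (nat_lit 409646) (nat_lit 18) (.e (nat_lit 303118) (nat_lit 3) (.e (nat_lit 204855) (nat_lit 26) .nil)))))) (.g (nat_lit 1) (.e (nat_lit 370245) (nat_lit 0) .nil) .nil)))) (.nd (nat_lit 9) 
(.lf (nat_lit 577802) (.g (nat_lit 2345) (.e (nat_lit 336073) (nat_lit 9) (.e (nat_lit 336028) (nat_lit 3) (.e (nat_lit 98350) (nat_lit 24) (.e (nat_lit 409643) (nat_lit 18) (.e (nat_lit 303118) (nat_lit 3) .nil))))) (.g (nat_lit 0) (.e (nat_lit 369559) (nat_lit 0) .nil) .nil))) 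
(.lf (nat_lit 578314) (.g (nat_lit 4195) (.e (nat_lit 336176) (nat_lit 10) (.e (nat_lit 344132) (nat_lit 26) (.e (nat_lit 557093) (nat_lit 12) (.e (nat_lit 164023) (nat_lit 46) (.e (nat_lit 704629) (nat_lit 9) (.e (nat_lit 375) (nat_lit 32) (.e (nat_lit 426140) (nat_lit 3) (.e (nat_lit 204855) (nat_lit 26) .nil)))))))) (.g (nat_lit 1) (.e (nat_lit 371122) (nat_lit 0) .nil) .nil))))) 
(.nd (nat_lit 8) (.nd (nat_lit 9) 
(.lf (nat_lit 577674) (.g (nat_lit 1401) (.e (nat_lit 343808) (nat_lit 3) (.e (nat_lit 98350) (nat_lit 24) (.e (nat_lit 409648) (nat_lit 18) (.e (nat_lit 303116) (nat_lit 2) .nil)))) (.g (nat_lit 0) (.e (nat_lit 369111) (nat_lit 0) .nil) .nil))) 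
(.lf (nat_lit 578186) (.g (nat_lit 672) (.e (nat_lit 336158) (nat_lit 9) (.e (nat_lit 335996) (nat_lit 1) (.e (nat_lit 57854) (nat_lit 252) .nil))) (.g (nat_lit 0) (.e (nat_lit 370732) (nat_lit 0) .nil) .nil)))) (.nd (nat_lit 9) 
(.lf (nat_lit 577930) (.g (nat_lit 3065) (.e (nat_lit 336082) (nat_lit 9) (.e (nat_lit 336454) (nat_lit 34) (.e (nat_lit 483365) (nat_lit 18) (.e (nat_lit 57929) (nat_lit 282) .nil)))) (.g (nat_lit 0) (.e (nat_lit 369920) (nat_lit 0) .nil) .nil))) 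
(.lf (nat_lit 578442) (.g (nat_lit 1720) (.e (nat_lit 336204) (nat_lit 12) (.e (nat_lit 385074) (nat_lit 31) (.e (nat_lit 573487) (nat_lit 14) (.e (nat_lit 73782) (nat_lit 32) (.e (nat_lit 2681) (nat_lit 168) (.e (nat_lit 212736) (nat_lit 26) .nil)))))) (.g (nat_lit 1) (.e (nat_lit 371617) (nat_lit 0) .nil) .nil)))))) (.nd (nat_lit 7) (.nd (nat_lit 8) (.nd (nat_lit 9) 
(.lf (nat_lit 577610) (.g (nat_lit 540) (.e (nat_lit 336028) (nat_lit 3) (.e (nat_lit 98350) (nat_lit 24) (.e (nat_lit 409617) (nat_lit 10) .nil))) (.g (nat_lit 0) (.e (nat_lit 369018) (nat_lit 0) .nil) .nil))) 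
(.lf (nat_lit 578122) (.g (nat_lit 1592) (.e (nat_lit 336116) (nat_lit 9) (.e (nat_lit 336323) (nat_lit 18) (.e (nat_lit 204838) (nat_lit 20) (.e (nat_lit 114697) (nat_lit 11) (.e (nat_lit 426138) (nat_lit 3) (.e (nat_lit 204859) (nat_lit 26) .nil)))))) (.g (nat_lit 1) (.e (nat_lit 370419) (nat_lit 0) .nil) .nil)))) (.nd (nat_lit 9) 
(.lf (nat_lit 577866) (.g (nat_lit 3617) (.e (nat_lit 336075) (nat_lit 9) (.e (nat_lit 336454) (nat_lit 34) (.e (nat_lit 483363) (nat_lit 18) (.e (nat_lit 57927) (nat_lit 282) (.e (nat_lit 163874) (nat_lit 3) (.e (nat_lit 204861) (nat_lit 26) .nil)))))) (.g (nat_lit 1) (.e (nat_lit 369702) (nat_lit 0) .nil) .nil))) 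
(.lf (nat_lit 578378) (.g (nat_lit 425) (.e (nat_lit 336186) (nat_lit 11) (.e (nat_lit 368676) (nat_lit 21) (.e (nat_lit 516139) (nat_lit 7) .nil))) (.g (nat_lit 0) (.e (nat_lit 371281) (nat_lit 0) .nil) .nil))))) (.nd (nat_lit 8) (.nd (nat_lit 9) 
(.lf (nat_lit 577738) (.g (nat_lit 1945) (.e (nat_lit 336048) (nat_lit 6) (.e (nat_lit 147496) (nat_lit 11) (.e (nat_lit 24640) (nat_lit 10) (.e (nat_lit 344177) (nat_lit 43) .nil)))) (.g (nat_lit 0) (.e (nat_lit 369197) (nat_lit 0) .nil) .nil))) 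
(.lf (nat_lit 578250) (.g (nat_lit 4939) (.e (nat_lit 336171) (nat_lit 10) (.e (nat_lit 344133) (nat_lit 26) (.e (nat_lit 557087) (nat_lit 11) (.e (nat_lit 24617) (nat_lit 7) (.e (nat_lit 319511) (nat_lit 10) .nil))))) (.g (nat_lit 0) (.e (nat_lit 370871) (nat_lit 0) .nil) .nil)))) (.nd (nat_lit 9) 
(.lf (nat_lit 577994) (.g (nat_lit 4229) (.e (nat_lit 336097) (nat_lit 9) (.e (nat_lit 336028) (nat_lit 3) (.e (nat_lit 98350) (nat_lit 24) (.e (nat_lit 409645) (nat_lit 18) (.e (nat_lit 303118) (nat_lit 3) .nil))))) (.g (nat_lit 0) (.e (nat_lit 370136) (nat_lit 0) .nil) .nil))) 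
(.lf (nat_lit 578506) (.g (nat_lit 2012) (.e (nat_lit 343808) (nat_lit 12) (.e (nat_lit 385074) (nat_lit 31) (.e (nat_lit 573482) (nat_lit 13) (.e (nat_lit 65628) (nat_lit 14) .nil)))) (.g (nat_lit 0) (.e (nat_lit 371781) (nat_lit 0) .nil) .nil))))))) (.nd (nat_lit 6) (.nd (nat_lit 7) (.nd (nat_lit 8) (.nd (nat_lit 9) 
(.lf (nat_lit 577578) (.g (nat_lit 2920) (.e (nat_lit 336027) (nat_lit 3) (.e (nat_lit 98384) (nat_lit 32) (.e (nat_lit 475198) (nat_lit 40) (.e (nat_lit 704590) (nat_lit 3) (.e (nat_lit 163975) (nat_lit 30) .nil))))) (.g (nat_lit 0) (.e (nat_lit 368972) (nat_lit 0) .nil) .nil))) 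
(.lf (nat_lit 578090) (.g (nat_lit 485) (.e (nat_lit 336111) (nat_lit 9) (.e (nat_lit 336013) (nat_lit 2) (.e (nat_lit 90165) (nat_lit 12) .nil))) (.g (nat_lit 0) (.e (nat_lit 370340) (nat_lit 0) .nil) .nil)))) (.nd (nat_lit 9) 
(.lf (nat_lit 577834) (.g (nat_lit 1811) (.e (nat_lit 336074) (nat_lit 9) (.e (nat_lit 336454) (nat_lit 34) (.e (nat_lit 483365) (nat_lit 18) (.e (nat_lit 57849) (nat_lit 252) .nil)))) (.g (nat_lit 0) (.e (nat_lit 369618) (nat_lit 0) .nil) .nil))) 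
(.lf (nat_lit 578346) (.g (nat_lit 3003) (.e (nat_lit 336177) (nat_lit 10) (.e (nat_lit 344117) (nat_lit 21) (.e (nat_lit 516139) (nat_lit 7) (.e (nat_lit 409646) (nat_lit 18) (.e (nat_lit 303112) (nat_lit 0) (.e (nat_lit 3252) (nat_lit 197) (.e (nat_lit 532536) (nat_lit 9) .nil))))))) (.g (nat_lit 1) (.e (nat_lit 371195) (nat_lit 0) .nil) .nil))))) (.nd (nat_lit 8) (.nd (nat_lit 9) 
(.lf (nat_lit 577706) (.g (nat_lit 3344) (.e (nat_lit 343808) (nat_lit 3) (.e (nat_lit 98373) (nat_lit 29) (.e (nat_lit 450588) (nat_lit 10) (.e (nat_lit 573475) (nat_lit 12) (.e (nat_lit 57353) (nat_lit 0) .nil))))) (.g (nat_lit 0) (.e (nat_lit 369144) (nat_lit 0) .nil) .nil))) 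
(.lf (nat_lit 578218) (.g (nat_lit 2118) (.e (nat_lit 343808) (nat_lit 9) (.e (nat_lit 336454) (nat_lit 34) (.e (nat_lit 483363) (nat_lit 18) (.e (nat_lit 57847) (nat_lit 252) (.e (nat_lit 57379) (nat_lit 3) .nil))))) (.g (nat_lit 0) (.e (nat_lit 370807) (nat_lit 0) .nil) .nil)))) (.nd (nat_lit 9) 
(.lf (nat_lit 577962) (.g (nat_lit 2205) (.e (nat_lit 336086) (nat_lit 9) (.e (nat_lit 336427) (nat_lit 29) (.e (nat_lit 442421) (nat_lit 21) (.e (nat_lit 164326) (nat_lit 230) (.e (nat_lit 163884) (nat_lit 5) (.e (nat_lit 221193) (nat_lit 11) .nil)))))) (.g (nat_lit 1) (.e (nat_lit 370027) (nat_lit 0) .nil) .nil))) 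
(.lf (nat_lit 578474) (.g (nat_lit 3078) (.e (nat_lit 336206) (nat_lit 12) (.e (nat_lit 385068) (nat_lit 26) (.e (nat_lit 532513) (nat_lit 3) (.e (nat_lit 114694) (nat_lit 11) (.e (nat_lit 426139) (nat_lit 3) (.e (nat_lit 204859) (nat_lit 26) .nil)))))) (.g (nat_lit 1) (.e (nat_lit 371682) (nat_lit 0) .nil) .nil)))))) (.nd (nat_lit 7) (.nd (nat_lit 8) (.nd (nat_lit 9) 
(.lf (nat_lit 577642) (.g (nat_lit 2199) (.e (nat_lit 336028) (nat_lit 3) (.e (nat_lit 98350) (nat_lit 24) (.e (nat_lit 409649) (nat_lit 18) (.e (nat_lit 303111) (nat_lit 0) (.e (nat_lit 3124) (nat_lit 193) (.e (nat_lit 500059) (nat_lit 18) (.e (nat_lit 65603) (nat_lit 9) .nil))))))) (.g (nat_lit 1) (.e (nat_lit 369058) (nat_lit 0) .nil) .nil))) 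
(.lf (nat_lit 578154) (.g (nat_lit 1248) (.e (nat_lit 336152) (nat_lit 9) (.e (nat_lit 336442) (nat_lit 32) (.e (nat_lit 466969) (nat_lit 21) (.e (nat_lit 164326) (nat_lit 230) (.e (nat_lit 163886) (nat_lit 5) (.e (nat_lit 221191) (nat_lit 11) .nil)))))) (.g (nat_lit 1) (.e (nat_lit 370614) (nat_lit 0) .nil) .nil)))) (.nd (nat_lit 9) 
(.lf (nat_lit 577898) (.g (nat_lit 3071) (.e (nat_lit 336077) (nat_lit 9) (.e (nat_lit 336443) (nat_lit 32) (.e (nat_lit 466969) (nat_lit 21) (.e (nat_lit 164330) (nat_lit 230) (.e (nat_lit 163885) (nat_lit 5) (.e (nat_lit 221194) (nat_lit 11) .nil)))))) (.g (nat_lit 1) (.e (nat_lit 369804) (nat_lit 0) .nil) .nil))) 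
(.lf (nat_lit 578410) (.g (nat_lit 412) (.e (nat_lit 336198) (nat_lit 12) (.e (nat_lit 385068) (nat_lit 26) (.e (nat_lit 532515) (nat_lit 3) .nil))) (.g (nat_lit 0) (.e (nat_lit 371485) (nat_lit 0) .nil) .nil))))) (.nd (nat_lit 8) (.nd (nat_lit 9) 
(.lf (nat_lit 577770) (.g (nat_lit 811) (.e (nat_lit 336061) (nat_lit 7) (.e (nat_lit 319531) (nat_lit 16) (.e (nat_lit 286730) (nat_lit 1) .nil))) (.g (nat_lit 0) (.e (nat_lit 369332) (nat_lit 0) .nil) .nil))) 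
(.lf (nat_lit 578282) (.g (nat_lit 2887) (.e (nat_lit 336176) (nat_lit 10) (.e (nat_lit 344117) (nat_lit 21) (.e (nat_lit 516139) (nat_lit 7) (.e (nat_lit 417536) (nat_lit 10) .nil)))) (.g (nat_lit 0) (.e (nat_lit 370982) (nat_lit 0) .nil) .nil)))) (.nd (nat_lit 9) 
(.lf (nat_lit 578026) (.g (nat_lit 4209) (.e (nat_lit 336099) (nat_lit 9) (.e (nat_lit 336013) (nat_lit 2) (.e (nat_lit 90134) (nat_lit 9) (.e (nat_lit 2828) (nat_lit 182) (.e (nat_lit 409646) (nat_lit 18) (.e (nat_lit 303119) (nat_lit 3) (.e (nat_lit 212736) (nat_lit 26) .nil))))))) (.g (nat_lit 1) (.e (nat_lit 370190) (nat_lit 0) .nil) .nil))) 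
(.lf (nat_lit 578538) (.g (nat_lit 2171) (.e (nat_lit 336225) (nat_lit 14) (.e (nat_lit 401459) (nat_lit 13) (.e (nat_lit 483344) (nat_lit 17) (.e (nat_lit 6696) (nat_lit 357) (.e (nat_lit 2845) (nat_lit 184) (.e (nat_lit 426486) (nat_lit 27) .nil)))))) (.g (nat_lit 1) (.e (nat_lit 371894) (nat_lit 0) .nil) .nil)))))))) 
(.nd (nat_lit 5) (.nd (nat_lit 6) (.nd (nat_lit 7) (.nd (nat_lit 8) (.nd (nat_lit 9) 
(.lf (nat_lit 577562) (.g (nat_lit 4415) (.e (nat_lit 336027) (nat_lit 3) (.e (nat_lit 98350) (nat_lit 24) (.e (nat_lit 409644) (nat_lit 18) (.e (nat_lit 303119) (nat_lit 3) (.e (nat_lit 204852) (nat_lit 26) (.e (nat_lit 336130) (nat_lit 9) .nil)))))) (.g (nat_lit 1) (.e (nat_lit 368953) (nat_lit 0) .nil) .nil))) 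
(.lf (nat_lit 578074) (.g (nat_lit 2463) (.e (nat_lit 336102) (nat_lit 9) (.e (nat_lit 336028) (nat_lit 3) (.e (nat_lit 98350) (nat_lit 24) (.e (nat_lit 409643) (nat_lit 18) (.e (nat_lit 303119) (nat_lit 3) .nil))))) (.g (nat_lit 0) (.e (nat_lit 370301) (nat_lit 0) .nil) .nil)))) (.nd (nat_lit 9) 
(.lf (nat_lit 577818) (.g (nat_lit 2083) (.e (nat_lit 336074) (nat_lit 9) (.e (nat_lit 336443) (nat_lit 32) (.e (nat_lit 466969) (nat_lit 21) (.e (nat_lit 164326) (nat_lit 230) (.e (nat_lit 163886) (nat_lit 5) .nil))))) (.g (nat_lit 0) (.e (nat_lit 369602) (nat_lit 0) .nil) .nil))) 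
(.lf (nat_lit 578330) (.g (nat_lit 2859) (.e (nat_lit 336176) (nat_lit 10) (.e (nat_lit 344133) (nat_lit 26) (.e (nat_lit 557087) (nat_lit 11) (.e (nat_lit 24593) (nat_lit 0) (.e (nat_lit 7936) (nat_lit 360) .nil))))) (.g (nat_lit 0) (.e (nat_lit 371161) (nat_lit 0) .nil) .nil))))) (.nd (nat_lit 8) (.nd (nat_lit 9) 
(.lf (nat_lit 577690) (.g (nat_lit 4553) (.e (nat_lit 343808) (nat_lit 3) (.e (nat_lit 98373) (nat_lit 29) (.e (nat_lit 450587) (nat_lit 10) (.e (nat_lit 573475) (nat_lit 12) (.e (nat_lit 57352) (nat_lit 0) .nil))))) (.g (nat_lit 0) (.e (nat_lit 369128) (nat_lit 0) .nil) .nil))) 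
(.lf (nat_lit 578202) (.g (nat_lit 1011) (.e (nat_lit 336157) (nat_lit 9) (.e (nat_lit 335996) (nat_lit 1) (.e (nat_lit 57854) (nat_lit 252) .nil))) (.g (nat_lit 0) (.e (nat_lit 370770) (nat_lit 0) .nil) .nil)))) (.nd (nat_lit 9) 
(.lf (nat_lit 577946) (.g (nat_lit 1173) (.e (nat_lit 336084) (nat_lit 9) (.e (nat_lit 336443) (nat_lit 32) (.e (nat_lit 466969) (nat_lit 21) (.e (nat_lit 164327) (nat_lit 230) .nil)))) (.g (nat_lit 0) (.e (nat_lit 369966) (nat_lit 0) .nil) .nil))) 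
(.lf (nat_lit 578458) (.g (nat_lit 1797) (.e (nat_lit 336205) (nat_lit 12) (.e (nat_lit 385074) (nat_lit 31) (.e (nat_lit 573484) (nat_lit 13) (.e (nat_lit 65628) (nat_lit 14) .nil)))) (.g (nat_lit 0) (.e (nat_lit 371649) (nat_lit 0) .nil) .nil)))))) (.nd (nat_lit 7) (.nd (nat_lit 8) (.nd (nat_lit 9) 
(.lf (nat_lit 577626) (.g (nat_lit 2216) (.e (nat_lit 336028) (nat_lit 3) (.e (nat_lit 98350) (nat_lit 24) (.e (nat_lit 409646) (nat_lit 18) (.e (nat_lit 303118) (nat_lit 3) (.e (nat_lit 204855) (nat_lit 26) .nil))))) (.g (nat_lit 0) (.e (nat_lit 369042) (nat_lit 0) .nil) .nil))) 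
(.lf (nat_lit 578138) (.g (nat_lit 4525) (.e (nat_lit 336130) (nat_lit 9) (.e (nat_lit 336027) (nat_lit 3) (.e (nat_lit 98350) (nat_lit 24) (.e (nat_lit 409645) (nat_lit 18) (.e (nat_lit 303112) (nat_lit 0) (.e (nat_lit 3252) (nat_lit 197) (.e (nat_lit 532529) (nat_lit 9) .nil))))))) (.g (nat_lit 1) (.e (nat_lit 370540) (nat_lit 0) .nil) .nil)))) (.nd (nat_lit 9) 
(.lf (nat_lit 577882) (.g (nat_lit 2524) (.e (nat_lit 336076) (nat_lit 9) (.e (nat_lit 336367) (nat_lit 27) (.e (nat_lit 426482) (nat_lit 27) (.e (nat_lit 335997) (nat_lit 1) (.e (nat_lit 57931) (nat_lit 282) (.e (nat_lit 163874) (nat_lit 3) (.e (nat_lit 204861) (nat_lit 26) .nil))))))) (.g (nat_lit 1) (.e (nat_lit 369747) (nat_lit 0) .nil) .nil))) 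
(.lf (nat_lit 578394) (.g (nat_lit 646) (.e (nat_lit 336194) (nat_lit 12) (.e (nat_lit 385068) (nat_lit 26) (.e (nat_lit 532486) (nat_lit 0) .nil))) (.g (nat_lit 0) (.e (nat_lit 371348) (nat_lit 0) .nil) .nil))))) (.nd (nat_lit 8) (.nd (nat_lit 9) 
(.lf (nat_lit 577754) (.g (nat_lit 3895) (.e (nat_lit 336051) (nat_lit 6) (.e (nat_lit 147495) (nat_lit 11) (.e (nat_lit 24608) (nat_lit 3) (.e (nat_lit 98341) (nat_lit 20) (.e (nat_lit 221204) (nat_lit 20) (.e (nat_lit 3748) (nat_lit 228) (.e (nat_lit 786473) (nat_lit 27) .nil))))))) (.g (nat_lit 1) (.e (nat_lit 369227) (nat_lit 0) .nil) .nil))) 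
(.lf (nat_lit 578266) (.g (nat_lit 2350) (.e (nat_lit 336173) (nat_lit 10) (.e (nat_lit 344126) (nat_lit 25) (.e (nat_lit 548889) (nat_lit 9) (.e (nat_lit 65630) (nat_lit 14) .nil)))) (.g (nat_lit 0) (.e (nat_lit 370922) (nat_lit 0) .nil) .nil)))) (.nd (nat_lit 9) 
(.lf (nat_lit 578010) (.g (nat_lit 1644) (.e (nat_lit 336099) (nat_lit 9) (.e (nat_lit 336013) (nat_lit 2) (.e (nat_lit 90121) (nat_lit 9) (.e (nat_lit 2823) (nat_lit 182) .nil)))) (.g (nat_lit 0) (.e (nat_lit 370168) (nat_lit 0) .nil) .nil))) 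
(.lf (nat_lit 578522) (.g (nat_lit 2346) (.e (nat_lit 336213) (nat_lit 13) (.e (nat_lit 393221) (nat_lit 0) (.e (nat_lit 6217) (nat_lit 333) (.e (nat_lit 57883) (nat_lit 270) (.e (nat_lit 174) (nat_lit 12) (.e (nat_lit 204861) (nat_lit 26) .nil)))))) (.g (nat_lit 1) (.e (nat_lit 371821) (nat_lit 0) .nil) .nil))))))) (.nd (nat_lit 6) (.nd (nat_lit 7) (.nd (nat_lit 8) (.nd (nat_lit 9) 
(.lf (nat_lit 577594) (.g (nat_lit 829) (.e (nat_lit 336028) (nat_lit 3) (.e (nat_lit 98335) (nat_lit 18) (.e (nat_lit 164183) (nat_lit 154) .nil))) (.g (nat_lit 0) (.e (nat_lit 368999) (nat_lit 0) .nil) .nil))) 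
(.lf (nat_lit 578106) (.g (nat_lit 2049) (.e (nat_lit 336104) (nat_lit 9) (.e (nat_lit 336013) (nat_lit 2) (.e (nat_lit 90165) (nat_lit 12) (.e (nat_lit 164207) (nat_lit 176) .nil)))) (.g (nat_lit 0) (.e (nat_lit 370368) (nat_lit 0) .nil) .nil)))) (.nd (nat_lit 9) 
(.lf (nat_lit 577850) (.g (nat_lit 4069) (.e (nat_lit 336075) (nat_lit 9) (.e (nat_lit 336324) (nat_lit 18) (.e (nat_lit 204838) (nat_lit 20) (.e (nat_lit 114698) (nat_lit 11) (.e (nat_lit 426139) (nat_lit 3) (.e (nat_lit 204861) (nat_lit 26) .nil)))))) (.g (nat_lit 1) (.e (nat_lit 369647) (nat_lit 0) .nil) .nil))) 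
(.lf (nat_lit 578362) (.g (nat_lit 4709) (.e (nat_lit 336178) (nat_lit 10) (.e (nat_lit 344117) (nat_lit 21) (.e (nat_lit 516139) (nat_lit 7) (.e (nat_lit 409649) (nat_lit 18) (.e (nat_lit 303118) (nat_lit 3) (.e (nat_lit 204855) (nat_lit 26) .nil)))))) (.g (nat_lit 1) (.e (nat_lit 371221) (nat_lit 0) .nil) .nil))))) (.nd (nat_lit 8) (.nd (nat_lit 9) 
(.lf (nat_lit 577722) (.g (nat_lit 2679) (.e (nat_lit 336032) (nat_lit 4) (.e (nat_lit 123182) (nat_lit 264) (.e (nat_lit 1183) (nat_lit 87) (.e (nat_lit 57480) (nat_lit 28) (.e (nat_lit 557107) (nat_lit 15) .nil))))) (.g (nat_lit 0) (.e (nat_lit 369167) (nat_lit 0) .nil) .nil))) 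
(.lf (nat_lit 578234) (.g (nat_lit 2783) (.e (nat_lit 336163) (nat_lit 10) (.e (nat_lit 344117) (nat_lit 21) (.e (nat_lit 516139) (nat_lit 7) (.e (nat_lit 409645) (nat_lit 18) (.e (nat_lit 303118) (nat_lit 3) (.e (nat_lit 204855) (nat_lit 26) .nil)))))) (.g (nat_lit 1) (.e (nat_lit 370832) (nat_lit 0) .nil) .nil)))) (.nd (nat_lit 9) 
(.lf (nat_lit 577978) (.g (nat_lit 4861) (.e (nat_lit 336089) (nat_lit 9) (.e (nat_lit 336324) (nat_lit 18) (.e (nat_lit 204831) (nat_lit 18) (.e (nat_lit 57852) (nat_lit 252) (.e (nat_lit 57406) (nat_lit 12) .nil))))) (.g (nat_lit 0) (.e (nat_lit 370081) (nat_lit 0) .nil) .nil))) 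
(.lf (nat_lit 578490) (.g (nat_lit 2363) (.e (nat_lit 336207) (nat_lit 12) (.e (nat_lit 385074) (nat_lit 31) (.e (nat_lit 573485) (nat_lit 13) (.e (nat_lit 65630) (nat_lit 14) (.e (nat_lit 401428) (nat_lit 3) .nil))))) (.g (nat_lit 0) (.e (nat_lit 371730) (nat_lit 0) .nil) .nil)))))) (.nd (nat_lit 7) (.nd (nat_lit 8) (.nd (nat_lit 9) 
(.lf (nat_lit 577658) (.g (nat_lit 3319) (.e (nat_lit 336028) (nat_lit 3) (.e (nat_lit 98367) (nat_lit 27) (.e (nat_lit 434272) (nat_lit 38) (.e (nat_lit 655364) (nat_lit 0) (.e (nat_lit 2466) (nat_lit 157) (.e (nat_lit 3307) (nat_lit 202) (.e (nat_lit 573485) (nat_lit 13) (.e (nat_lit 65604) (nat_lit 9) .nil)))))))) (.g (nat_lit 1) (.e (nat_lit 369089) (nat_lit 0) .nil) .nil))) 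
(.lf (nat_lit 578170) (.g (nat_lit 1191) (.e (nat_lit 336158) (nat_lit 9) (.e (nat_lit 335986) (nat_lit 1) (.e (nat_lit 57847) (nat_lit 252) (.e (nat_lit 57388) (nat_lit 5) .nil)))) (.g (nat_lit 0) (.e (nat_lit 370693) (nat_lit 0) .nil) .nil)))) (.nd (nat_lit 9) 
(.lf (nat_lit 577914) (.g (nat_lit 1852) (.e (nat_lit 336078) (nat_lit 9) (.e (nat_lit 336324) (nat_lit 18) (.e (nat_lit 204831) (nat_lit 18) (.e (nat_lit 57852) (nat_lit 252) (.e (nat_lit 57404) (nat_lit 12) .nil))))) (.g (nat_lit 0) (.e (nat_lit 369839) (nat_lit 0) .nil) .nil))) 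
(.lf (nat_lit 578426) (.g (nat_lit 2019) (.e (nat_lit 336200) (nat_lit 12) (.e (nat_lit 385074) (nat_lit 31) (.e (nat_lit 573493) (nat_lit 15) (.e (nat_lit 81938) (nat_lit 20) .nil)))) (.g (nat_lit 0) (.e (nat_lit 371551) (nat_lit 0) .nil) .nil))))) (.nd (nat_lit 8) (.nd (nat_lit 9) 
(.lf (nat_lit 577786) (.g (nat_lit 742) (.e (nat_lit 336060) (nat_lit 7) (.e (nat_lit 319534) (nat_lit 16) (.e (nat_lit 286767) (nat_lit 27) .nil))) (.g (nat_lit 0) (.e (nat_lit 369482) (nat_lit 0) .nil) .nil))) 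
(.lf (nat_lit 578298) (.g (nat_lit 1959) (.e (nat_lit 336176) (nat_lit 10) (.e (nat_lit 344127) (nat_lit 26) (.e (nat_lit 557090) (nat_lit 12) (.e (nat_lit 164020) (nat_lit 45) .nil)))) (.g (nat_lit 0) (.e (nat_lit 371031) (nat_lit 0) .nil) .nil)))) (.nd (nat_lit 9) 
(.lf (nat_lit 578042) (.g (nat_lit 4959) (.e (nat_lit 336099) (nat_lit 9) (.e (nat_lit 336013) (nat_lit 2) (.e (nat_lit 90170) (nat_lit 13) (.e (nat_lit 172045) (nat_lit 0) .nil)))) (.g (nat_lit 0) (.e (nat_lit 370210) (nat_lit 0) .nil) .nil))) 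
(.lf (nat_lit 578554) (.g (nat_lit 1577) (.e (nat_lit 336226) (nat_lit 14) (.e (nat_lit 401457) (nat_lit 13) (.e (nat_lit 483413) (nat_lit 27) (.e (nat_lit 401435) (nat_lit 9) .nil)))) (.g (nat_lit 0) (.e (nat_lit 371959) (nat_lit 0) .nil) .nil)))))))))) (.nd (nat_lit 3) (.nd (nat_lit 4) (.nd (nat_lit 5) (.nd (nat_lit 6) (.nd (nat_lit 7) (.nd (nat_lit 8) (.nd (nat_lit 9) 
(.lf (nat_lit 577542) (.g (nat_lit 2306) (.e (nat_lit 336026) (nat_lit 3) (.e (nat_lit 98363) (nat_lit 26) (.e (nat_lit 426318) (nat_lit 12) (.e (nat_lit 475179) (nat_lit 24) (.e (nat_lit 516131) (nat_lit 3) (.e (nat_lit 221194) (nat_lit 11) .nil)))))) (.g (nat_lit 1) (.e (nat_lit 368919) (nat_lit 0) .nil) .nil))) 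
(.lf (nat_lit 578054) (.g (nat_lit 402) (.e (nat_lit 336099) (nat_lit 9) (.e (nat_lit 336028) (nat_lit 3) (.e (nat_lit 98349) (nat_lit 24) .nil))) (.g (nat_lit 0) (.e (nat_lit 370240) (nat_lit 0) .nil) .nil)))) (.nd (nat_lit 9) 
(.lf (nat_lit 577798) (.g (nat_lit 2375) (.e (nat_lit 336073) (nat_lit 9) (.e (nat_lit 336028) (nat_lit 3) (.e (nat_lit 98349) (nat_lit 24) (.e (nat_lit 409643) (nat_lit 18) (.e (nat_lit 303119) (nat_lit 3) .nil))))) (.g (nat_lit 0) (.e (nat_lit 369543) (nat_lit 0) .nil) .nil))) 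
(.lf (nat_lit 578310) (.g (nat_lit 2261) (.e (nat_lit 336176) (nat_lit 10) (.e (nat_lit 344132) (nat_lit 26) (.e (nat_lit 557089) (nat_lit 12) (.e (nat_lit 164017) (nat_lit 44) (.e (nat_lit 688138) (nat_lit 5) .nil))))) (.g (nat_lit 0) (.e (nat_lit 371106) (nat_lit 0) .nil) .nil))))) (.nd (nat_lit 8) (.nd (nat_lit 9) 
(.lf (nat_lit 577670) (.g (nat_lit 1665) (.e (nat_lit 343808) (nat_lit 3) (.e (nat_lit 98350) (nat_lit 24) (.e (nat_lit 409646) (nat_lit 18) (.e (nat_lit 303112) (nat_lit 0) .nil)))) (.g (nat_lit 0) (.e (nat_lit 369106) (nat_lit 0) .nil) .nil))) 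
(.lf (nat_lit 578182) (.g (nat_lit 1343) (.e (nat_lit 336158) (nat_lit 9) (.e (nat_lit 335988) (nat_lit 1) (.e (nat_lit 57854) (nat_lit 252) (.e (nat_lit 57388) (nat_lit 5) .nil)))) (.g (nat_lit 0) (.e (nat_lit 370719) (nat_lit 0) .nil) .nil)))) (.nd (nat_lit 9) 
(.lf (nat_lit 577926) (.g (nat_lit 3890) (.e (nat_lit 336082) (nat_lit 9) (.e (nat_lit 336454) (nat_lit 34) (.e (nat_lit 483365) (nat_lit 18) (.e (nat_lit 57848) (nat_lit 252) .nil)))) (.g (nat_lit 0) (.e (nat_lit 369910) (nat_lit 0) .nil) .nil))) 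
(.lf (nat_lit 578438) (.g (nat_lit 603) (.e (nat_lit 336203) (nat_lit 12) (.e (nat_lit 385105) (nat_lit 50) (.e (nat_lit 786477) (nat_lit 28) .nil))) (.g (nat_lit 0) (.e (nat_lit 371602) (nat_lit 0) .nil) .nil)))))) (.nd (nat_lit 7) (.nd (nat_lit 8) (.nd (nat_lit 9) 
(.lf (nat_lit 577606) (.g (nat_lit 2345) (.e (nat_lit 336028) (nat_lit 3) (.e (nat_lit 98349) (nat_lit 24) (.e (nat_lit 409648) (nat_lit 18) (.e (nat_lit 303119) (nat_lit 3) (.e (nat_lit 204855) (nat_lit 26) .nil))))) (.g (nat_lit 0) (.e (nat_lit 369011) (nat_lit 0) .nil) .nil))) 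
(.lf (nat_lit 578118) (.g (nat_lit 2745) (.e (nat_lit 336114) (nat_lit 9) (.e (nat_lit 336324) (nat_lit 18) (.e (nat_lit 204835) (nat_lit 19) (.e (nat_lit 106534) (nat_lit 11) .nil)))) (.g (nat_lit 0) (.e (nat_lit 370403) (nat_lit 0) .nil) .nil)))) (.nd (nat_lit 9) 
(.lf (nat_lit 577862) (.g (nat_lit 2625) (.e (nat_lit 336075) (nat_lit 9) (.e (nat_lit 336450) (nat_lit 33) (.e (nat_lit 475152) (nat_lit 17) (.e (nat_lit 57881) (nat_lit 270) (.e (nat_lit 174) (nat_lit 12) (.e (nat_lit 204861) (nat_lit 26) .nil)))))) (.g (nat_lit 1) (.e (nat_lit 369694) (nat_lit 0) .nil) .nil))) 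
(.lf (nat_lit 578374) (.g (nat_lit 1262) (.e (nat_lit 336186) (nat_lit 11) (.e (nat_lit 368676) (nat_lit 21) (.e (nat_lit 516098) (nat_lit 0) (.e (nat_lit 7581) (nat_lit 405) .nil)))) (.g (nat_lit 0) (.e (nat_lit 371273) (nat_lit 0) .nil) .nil))))) (.nd (nat_lit 8) (.nd (nat_lit 9) 
(.lf (nat_lit 577734) (.g (nat_lit 2813) (.e (nat_lit 336046) (nat_lit 6) (.e (nat_lit 147495) (nat_lit 11) (.e (nat_lit 24640) (nat_lit 10) (.e (nat_lit 344177) (nat_lit 43) (.e (nat_lit 770072) (nat_lit 8) .nil))))) (.g (nat_lit 0) (.e (nat_lit 369187) (nat_lit 0) .nil) .nil))) 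
(.lf (nat_lit 578246) (.g (nat_lit 840) (.e (nat_lit 336164) (nat_lit 10) (.e (nat_lit 344117) (nat_lit 21) (.e (nat_lit 516195) (nat_lit 26) .nil))) (.g (nat_lit 0) (.e (nat_lit 370852) (nat_lit 0) .nil) .nil)))) (.nd (nat_lit 9) 
(.lf (nat_lit 577990) (.g (nat_lit 2645) (.e (nat_lit 336097) (nat_lit 9) (.e (nat_lit 336024) (nat_lit 3) (.e (nat_lit 98350) (nat_lit 24) (.e (nat_lit 409645) (nat_lit 18) (.e (nat_lit 303119) (nat_lit 3) .nil))))) (.g (nat_lit 0) (.e (nat_lit 370125) (nat_lit 0) .nil) .nil))) 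
(.lf (nat_lit 578502) (.g (nat_lit 1566) (.e (nat_lit 336208) (nat_lit 12) (.e (nat_lit 385074) (nat_lit 31) (.e (nat_lit 573491) (nat_lit 15) (.e (nat_lit 81947) (nat_lit 20) .nil)))) (.g (nat_lit 0) (.e (nat_lit 371769) (nat_lit 0) .nil) .nil))))))) (.nd (nat_lit 6) (.nd (nat_lit 7) (.nd (nat_lit 8) (.nd (nat_lit 9) 
(.lf (nat_lit 577574) (.g (nat_lit 3078) (.e (nat_lit 336027) (nat_lit 3) (.e (nat_lit 98367) (nat_lit 27) (.e (nat_lit 434272) (nat_lit 38) (.e (nat_lit 655375) (nat_lit 3) (.e (nat_lit 163978) (nat_lit 30) (.e (nat_lit 573480) (nat_lit 13) (.e (nat_lit 65606) (nat_lit 9) .nil))))))) (.g (nat_lit 1) (.e (nat_lit 368968) (nat_lit 0) .nil) .nil))) 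
(.lf (nat_lit 578086) (.g (nat_lit 2054) (.e (nat_lit 336110) (nat_lit 9) (.e (nat_lit 336013) (nat_lit 2) (.e (nat_lit 90165) (nat_lit 12) (.e (nat_lit 164207) (nat_lit 176) .nil)))) (.g (nat_lit 0) (.e (nat_lit 370333) (nat_lit 0) .nil) .nil)))) (.nd (nat_lit 9) 
(.lf (nat_lit 577830) (.g (nat_lit 2343) (.e (nat_lit 336074) (nat_lit 9) (.e (nat_lit 336443) (nat_lit 32) (.e (nat_lit 466972) (nat_lit 21) (.e (nat_lit 164332) (nat_lit 230) (.e (nat_lit 163884) (nat_lit 5) (.e (nat_lit 221193) (nat_lit 11) .nil)))))) (.g (nat_lit 1) (.e (nat_lit 369614) (nat_lit 0) .nil) .nil))) 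
(.lf (nat_lit 578342) (.g (nat_lit 2560) (.e (nat_lit 336177) (nat_lit 10) (.e (nat_lit 344117) (nat_lit 21) (.e (nat_lit 516138) (nat_lit 7) (.e (nat_lit 409646) (nat_lit 18) (.e (nat_lit 303112) (nat_lit 0) (.e (nat_lit 3252) (nat_lit 197) (.e (nat_lit 532536) (nat_lit 9) .nil))))))) (.g (nat_lit 1) (.e (nat_lit 371191) (nat_lit 0) .nil) .nil))))) (.nd (nat_lit 8) (.nd (nat_lit 9) 
(.lf (nat_lit 577702) (.g (nat_lit 3378) (.e (nat_lit 343808) (nat_lit 3) (.e (nat_lit 98373) (nat_lit 29) (.e (nat_lit 450588) (nat_lit 10) (.e (nat_lit 573473) (nat_lit 12) (.e (nat_lit 65280) (nat_lit 57) .nil))))) (.g (nat_lit 0) (.e (nat_lit 369140) (nat_lit 0) .nil) .nil))) 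
(.lf (nat_lit 578214) (.g (nat_lit 1799) (.e (nat_lit 343808) (nat_lit 9) (.e (nat_lit 336324) (nat_lit 18) (.e (nat_lit 204838) (nat_lit 20) (.e (nat_lit 114697) (nat_lit 11) (.e (nat_lit 426138) (nat_lit 3) .nil))))) (.g (nat_lit 0) (.e (nat_lit 370803) (nat_lit 0) .nil) .nil)))) (.nd (nat_lit 9) 
(.lf (nat_lit 577958) (.g (nat_lit 2122) (.e (nat_lit 336086) (nat_lit 9) (.e (nat_lit 336324) (nat_lit 18) (.e (nat_lit 204837) (nat_lit 20) (.e (nat_lit 114698) (nat_lit 11) (.e (nat_lit 426137) (nat_lit 3) .nil))))) (.g (nat_lit 0) (.e (nat_lit 370010) (nat_lit 0) .nil) .nil))) 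
(.lf (nat_lit 578470) (.g (nat_lit 2499) (.e (nat_lit 336206) (nat_lit 12) (.e (nat_lit 385066) (nat_lit 26) (.e (nat_lit 532513) (nat_lit 3) (.e (nat_lit 114694) (nat_lit 11) (.e (nat_lit 426139) (nat_lit 3) (.e (nat_lit 204859) (nat_lit 26) .nil)))))) (.g (nat_lit 1) (.e (nat_lit 371673) (nat_lit 0) .nil) .nil)))))) (.nd (nat_lit 7) (.nd (nat_lit 8) (.nd (nat_lit 9) 
(.lf (nat_lit 577638) (.g (nat_lit 3969) (.e (nat_lit 336028) (nat_lit 3) (.e (nat_lit 98350) (nat_lit 24) (.e (nat_lit 409648) (nat_lit 18) (.e (nat_lit 303118) (nat_lit 3) (.e (nat_lit 204855) (nat_lit 26) (.e (nat_lit 336102) (nat_lit 9) .nil)))))) (.g (nat_lit 1) (.e (nat_lit 369054) (nat_lit 0) .nil) .nil))) 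
(.lf (nat_lit 578150) (.g (nat_lit 683) (.e (nat_lit 336151) (nat_lit 9) (.e (nat_lit 336437) (nat_lit 31) (.e (nat_lit 458769) (nat_lit 16) (.e (nat_lit 164292) (nat_lit 224) (.e (nat_lit 164112) (nat_lit 118) (.e (nat_lit 794635) (nat_lit 11) .nil)))))) (.g (nat_lit 1) (.e (nat_lit 370600) (nat_lit 0) .nil) .nil)))) (.nd (nat_lit 9) 
(.lf (nat_lit 577894) (.g (nat_lit 426) (.e (nat_lit 336077) (nat_lit 9) (.e (nat_lit 336443) (nat_lit 32) (.e (nat_lit 466969) (nat_lit 21) .nil))) (.g (nat_lit 0) (.e (nat_lit 369800) (nat_lit 0) .nil) .nil))) 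
(.lf (nat_lit 578406) (.g (nat_lit 1938) (.e (nat_lit 336197) (nat_lit 12) (.e (nat_lit 385074) (nat_lit 31) (.e (nat_lit 573485) (nat_lit 13) (.e (nat_lit 65628) (nat_lit 14) (.e (nat_lit 401428) (nat_lit 3) .nil))))) (.g (nat_lit 0) (.e (nat_lit 371475) (nat_lit 0) .nil) .nil))))) (.nd (nat_lit 8) (.nd (nat_lit 9) 
(.lf (nat_lit 577766) (.g (nat_lit 2088) (.e (nat_lit 336057) (nat_lit 7) (.e (nat_lit 319530) (nat_lit 16) (.e (nat_lit 286731) (nat_lit 1) (.e (nat_lit 57688) (nat_lit 156) (.e (nat_lit 163933) (nat_lit 17) .nil))))) (.g (nat_lit 0) (.e (nat_lit 369303) (nat_lit 0) .nil) .nil))) 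
(.lf (nat_lit 578278) (.g (nat_lit 2732) (.e (nat_lit 336176) (nat_lit 10) (.e (nat_lit 344117) (nat_lit 21) (.e (nat_lit 516139) (nat_lit 7) (.e (nat_lit 409614) (nat_lit 10) .nil)))) (.g (nat_lit 0) (.e (nat_lit 370958) (nat_lit 0) .nil) .nil)))) (.nd (nat_lit 9) 
(.lf (nat_lit 578022) (.g (nat_lit 2650) (.e (nat_lit 336099) (nat_lit 9) (.e (nat_lit 336013) (nat_lit 2) (.e (nat_lit 90134) (nat_lit 9) (.e (nat_lit 2827) (nat_lit 182) .nil)))) (.g (nat_lit 0) (.e (nat_lit 370186) (nat_lit 0) .nil) .nil))) 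
(.lf (nat_lit 578534) (.g (nat_lit 2391) (.e (nat_lit 336225) (nat_lit 14) (.e (nat_lit 401425) (nat_lit 2) (.e (nat_lit 196666) (nat_lit 13) (.e (nat_lit 65630) (nat_lit 14) .nil)))) (.g (nat_lit 0) (.e (nat_lit 371885) (nat_lit 0) .nil) .nil)))))))) (.nd (nat_lit 5) (.nd (nat_lit 6) (.nd (nat_lit 7) (.nd (nat_lit 8) (.nd (nat_lit 9) 
(.lf (nat_lit 577558) (.g (nat_lit 4132) (.e (nat_lit 336027) (nat_lit 3) (.e (nat_lit 98349) (nat_lit 24) (.e (nat_lit 409646) (nat_lit 18) (.e (nat_lit 303119) (nat_lit 3) (.e (nat_lit 204852) (nat_lit 26) (.e (nat_lit 336130) (nat_lit 9) .nil)))))) (.g (nat_lit 1) (.e (nat_lit 368944) (nat_lit 0) .nil) .nil))) 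
(.lf (nat_lit 578070) (.g (nat_lit 2356) (.e (nat_lit 336102) (nat_lit 9) (.e (nat_lit 336028) (nat_lit 3) (.e (nat_lit 98349) (nat_lit 24) (.e (nat_lit 409646) (nat_lit 18) (.e (nat_lit 303118) (nat_lit 3) .nil))))) (.g (nat_lit 0) (.e (nat_lit 370288) (nat_lit 0) .nil) .nil)))) (.nd (nat_lit 9) 
(.lf (nat_lit 577814) (.g (nat_lit 2572) (.e (nat_lit 336074) (nat_lit 9) (.e (nat_lit 336324) (nat_lit 18) (.e (nat_lit 204838) (nat_lit 20) (.e (nat_lit 114698) (nat_lit 11) (.e (nat_lit 426137) (nat_lit 3) .nil))))) (.g (nat_lit 0) (.e (nat_lit 369581) (nat_lit 0) .nil) .nil))) 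
(.lf (nat_lit 578326) (.g (nat_lit 3595) (.e (nat_lit 336176) (nat_lit 10) (.e (nat_lit 344133) (nat_lit 26) (.e (nat_lit 557087) (nat_lit 11) (.e (nat_lit 24588) (nat_lit 0) (.e (nat_lit 7936) (nat_lit 360) (.e (nat_lit 163962) (nat_lit 25) (.e (nat_lit 532535) (nat_lit 9) .nil))))))) (.g (nat_lit 1) (.e (nat_lit 371154) (nat_lit 0) .nil) .nil))))) (.nd (nat_lit 8) (.nd (nat_lit 9) 
(.lf (nat_lit 577686) (.g (nat_lit 2753) (.e (nat_lit 343808) (nat_lit 3) (.e (nat_lit 98373) (nat_lit 29) (.e (nat_lit 450587) (nat_lit 10) (.e (nat_lit 573473) (nat_lit 12) (.e (nat_lit 57569) (nat_lit 53) .nil))))) (.g (nat_lit 0) (.e (nat_lit 369124) (nat_lit 0) .nil) .nil))) 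
(.lf (nat_lit 578198) (.g (nat_lit 892) (.e (nat_lit 336158) (nat_lit 9) (.e (nat_lit 336027) (nat_lit 3) (.e (nat_lit 98350) (nat_lit 24) .nil))) (.g (nat_lit 0) (.e (nat_lit 370756) (nat_lit 0) .nil) .nil)))) (.nd (nat_lit 9) 
(.lf (nat_lit 577942) (.g (nat_lit 1183) (.e (nat_lit 336084) (nat_lit 9) (.e (nat_lit 336443) (nat_lit 32) (.e (nat_lit 466968) (nat_lit 21) .nil))) (.g (nat_lit 0) (.e (nat_lit 369962) (nat_lit 0) .nil) .nil))) 
(.lf (nat_lit 578454) (.g (nat_lit 2487) (.e (nat_lit 336205) (nat_lit 12) (.e (nat_lit 385074) (nat_lit 31) (.e (nat_lit 573482) (nat_lit 13) (.e (nat_lit 65584) (nat_lit 7) .nil)))) (.g (nat_lit 0) (.e (nat_lit 371644) (nat_lit 0) .nil) .nil)))))) (.nd (nat_lit 7) (.nd (nat_lit 8) (.nd (nat_lit 9) 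
(.lf (nat_lit 577622) (.g (nat_lit 2277) (.e (nat_lit 336028) (nat_lit 3) (.e (nat_lit 98350) (nat_lit 24) (.e (nat_lit 409645) (nat_lit 18) (.e (nat_lit 303119) (nat_lit 3) (.e (nat_lit 204855) (nat_lit 26) .nil))))) (.g (nat_lit 0) (.e (nat_lit 369038) (nat_lit 0) .nil) .nil))) 
(.lf (nat_lit 578134) (.g (nat_lit 1589) (.e (nat_lit 336130) (nat_lit 9) (.e (nat_lit 336027) (nat_lit 3) (.e (nat_lit 98349) (nat_lit 24) (.e (nat_lit 409644) (nat_lit 18) .nil)))) (.g (nat_lit 0) (.e (nat_lit 370527) (nat_lit 0) .nil) .nil)))) (.nd (nat_lit 9) 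
(.lf (nat_lit 577878) (.g (nat_lit 3437) (.e (nat_lit 336075) (nat_lit 9) (.e (nat_lit 336454) (nat_lit 34) (.e (nat_lit 483366) (nat_lit 18) (.e (nat_lit 57931) (nat_lit 282) (.e (nat_lit 163874) (nat_lit 3) (.e (nat_lit 204861) (nat_lit 26) .nil)))))) (.g (nat_lit 1) (.e (nat_lit 369720) (nat_lit 0) .nil) .nil))) 
(.lf (nat_lit 578390) (.g (nat_lit 1349) (.e (nat_lit 336193) (nat_lit 12) (.e (nat_lit 385074) (nat_lit 31) (.e (nat_lit 573484) (nat_lit 13) (.e (nat_lit 65617) (nat_lit 10) .nil)))) (.g (nat_lit 0) (.e (nat_lit 371328) (nat_lit 0) .nil) .nil))))) (.nd (nat_lit 8) (.nd (nat_lit 9) 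
(.lf (nat_lit 577750) (.g (nat_lit 617) (.e (nat_lit 336051) (nat_lit 6) (.e (nat_lit 147466) (nat_lit 9) (.e (nat_lit 225) (nat_lit 21) .nil))) (.g (nat_lit 0) (.e (nat_lit 369218) (nat_lit 0) .nil) .nil))) 
(.lf (nat_lit 578262) (.g (nat_lit 2991) (.e (nat_lit 336173) (nat_lit 10) (.e (nat_lit 344117) (nat_lit 21) (.e (nat_lit 516139) (nat_lit 7) (.e (nat_lit 417536) (nat_lit 18) .nil)))) (.g (nat_lit 0) (.e (nat_lit 370896) (nat_lit 0) .nil) .nil)))) (.nd (nat_lit 9) 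
(.lf (nat_lit 578006) (.g (nat_lit 3489) (.e (nat_lit 336099) (nat_lit 9) (.e (nat_lit 335938) (nat_lit 0) (.e (nat_lit 1848) (nat_lit 124) (.e (nat_lit 557087) (nat_lit 11) (.e (nat_lit 24617) (nat_lit 7) (.e (nat_lit 319505) (nat_lit 10) (.e (nat_lit 7936) (nat_lit 45) (.e (nat_lit 532535) (nat_lit 9) .nil)))))))) (.g (nat_lit 1) (.e (nat_lit 370163) (nat_lit 0) .nil) .nil))) 
(.lf (nat_lit 578518) (.g (nat_lit 529) (.e (nat_lit 336212) (nat_lit 13) (.e (nat_lit 393251) (nat_lit 18) (.e (nat_lit 164183) (nat_lit 154) .nil))) (.g (nat_lit 0) (.e (nat_lit 371816) (nat_lit 0) .nil) .nil))))))) (.nd (nat_lit 6) (.nd (nat_lit 7) (.nd (nat_lit 8) (.nd (nat_lit 9) 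
(.lf (nat_lit 577590) (.g (nat_lit 197) (.e (nat_lit 336028) (nat_lit 3) (.e (nat_lit 98325) (nat_lit 17) (.e (nat_lit 7095) (nat_lit 380) .nil))) (.g (nat_lit 0) (.e (nat_lit 368995) (nat_lit 0) .nil) .nil))) 
(.lf (nat_lit 578102) (.g (nat_lit 3866) (.e (nat_lit 336111) (nat_lit 9) (.e (nat_lit 336028) (nat_lit 3) (.e (nat_lit 98350) (nat_lit 24) (.e (nat_lit 409645) (nat_lit 18) (.e (nat_lit 303118) (nat_lit 3) .nil))))) (.g (nat_lit 0) (.e (nat_lit 370357) (nat_lit 0) .nil) .nil)))) (.nd (nat_lit 9) 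
(.lf (nat_lit 577846) (.g (nat_lit 2785) (.e (nat_lit 336075) (nat_lit 9) (.e (nat_lit 336324) (nat_lit 18) (.e (nat_lit 204838) (nat_lit 20) (.e (nat_lit 114697) (nat_lit 11) (.e (nat_lit 426138) (nat_lit 3) (.e (nat_lit 204861) (nat_lit 26) .nil)))))) (.g (nat_lit 1) (.e (nat_lit 369643) (nat_lit 0) .nil) .nil))) 
(.lf (nat_lit 578358) (.g (nat_lit 2903) (.e (nat_lit 336178) (nat_lit 10) (.e (nat_lit 344117) (nat_lit 21) (.e (nat_lit 516139) (nat_lit 7) (.e (nat_lit 409645) (nat_lit 18) (.e (nat_lit 303112) (nat_lit 0) (.e (nat_lit 3252) (nat_lit 197) (.e (nat_lit 532539) (nat_lit 9) .nil))))))) (.g (nat_lit 1) (.e (nat_lit 371217) (nat_lit 0) .nil) .nil))))) (.nd (nat_lit 8) (.nd (nat_lit 9) 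
(.lf (nat_lit 577718) (.g (nat_lit 2690) (.e (nat_lit 336031) (nat_lit 4) (.e (nat_lit 123182) (nat_lit 264) (.e (nat_lit 1183) (nat_lit 87) (.e (nat_lit 57479) (nat_lit 28) (.e (nat_lit 557101) (nat_lit 13) .nil))))) (.g (nat_lit 0) (.e (nat_lit 369162) (nat_lit 0) .nil) .nil))) 
(.lf (nat_lit 578230) (.g (nat_lit 1727) (.e (nat_lit 336163) (nat_lit 10) (.e (nat_lit 344117) (nat_lit 21) (.e (nat_lit 516106) (nat_lit 0) (.e (nat_lit 7936) (nat_lit 377) .nil)))) (.g (nat_lit 0) (.e (nat_lit 370825) (nat_lit 0) .nil) .nil)))) (.nd (nat_lit 9) 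
(.lf (nat_lit 577974) (.g (nat_lit 2267) (.e (nat_lit 336088) (nat_lit 9) (.e (nat_lit 336368) (nat_lit 27) (.e (nat_lit 426499) (nat_lit 27) (.e (nat_lit 335986) (nat_lit 1) (.e (nat_lit 57847) (nat_lit 252) .nil))))) (.g (nat_lit 0) (.e (nat_lit 370077) (nat_lit 0) .nil) .nil))) 
(.lf (nat_lit 578486) (.g (nat_lit 2943) (.e (nat_lit 336206) (nat_lit 12) (.e (nat_lit 385094) (nat_lit 49) (.e (nat_lit 778324) (nat_lit 5) (.e (nat_lit 73781) (nat_lit 32) (.e (nat_lit 2856) (nat_lit 184) (.e (nat_lit 426530) (nat_lit 27) .nil)))))) (.g (nat_lit 1) (.e (nat_lit 371713) (nat_lit 0) .nil) .nil)))))) (.nd (nat_lit 7) (.nd (nat_lit 8) (.nd (nat_lit 9) 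
(.lf (nat_lit 577654) (.g (nat_lit 5784) (.e (nat_lit 336028) (nat_lit 3) (.e (nat_lit 98367) (nat_lit 27) (.e (nat_lit 434209) (nat_lit 18) (.e (nat_lit 5548) (nat_lit 306) (.e (nat_lit 2610) (nat_lit 163) (.e (nat_lit 163978) (nat_lit 30) (.e (nat_lit 573485) (nat_lit 13) (.e (nat_lit 65604) (nat_lit 9) .nil)))))))) (.g (nat_lit 1) (.e (nat_lit 369081) (nat_lit 0) .nil) .nil))) 
(.lf (nat_lit 578166) (.g (nat_lit 799) (.e (nat_lit 336155) (nat_lit 9) (.e (nat_lit 335986) (nat_lit 1) (.e (nat_lit 57847) (nat_lit 252) .nil))) (.g (nat_lit 0) (.e (nat_lit 370658) (nat_lit 0) .nil) .nil)))) (.nd (nat_lit 9) 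
(.lf (nat_lit 577910) (.g (nat_lit 2116) (.e (nat_lit 336078) (nat_lit 9) (.e (nat_lit 336270) (nat_lit 15) (.e (nat_lit 3747) (nat_lit 228) (.e (nat_lit 786473) (nat_lit 27) (.e (nat_lit 335872) (nat_lit 0) (.e (nat_lit 6719) (nat_lit 361) (.e (nat_lit 172150) (nat_lit 27) .nil))))))) (.g (nat_lit 1) (.e (nat_lit 369834) (nat_lit 0) .nil) .nil))) 
(.lf (nat_lit 578422) (.g (nat_lit 1041) (.e (nat_lit 336200) (nat_lit 12) (.e (nat_lit 385074) (nat_lit 31) (.e (nat_lit 573485) (nat_lit 13) (.e (nat_lit 65630) (nat_lit 14) .nil)))) (.g (nat_lit 0) (.e (nat_lit 371542) (nat_lit 0) .nil) .nil))))) (.nd (nat_lit 8) (.nd (nat_lit 9) 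
(.lf (nat_lit 577782) (.g (nat_lit 778) (.e (nat_lit 336060) (nat_lit 7) (.e (nat_lit 319533) (nat_lit 16) (.e (nat_lit 286720) (nat_lit 0) .nil))) (.g (nat_lit 0) (.e (nat_lit 369450) (nat_lit 0) .nil) .nil))) 
(.lf (nat_lit 578294) (.g (nat_lit 2197) (.e (nat_lit 336176) (nat_lit 10) (.e (nat_lit 344127) (nat_lit 26) (.e (nat_lit 557090) (nat_lit 12) (.e (nat_lit 164017) (nat_lit 44) .nil)))) (.g (nat_lit 0) (.e (nat_lit 371026) (nat_lit 0) .nil) .nil)))) (.nd (nat_lit 9) 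
(.lf (nat_lit 578038) (.g (nat_lit 4678) (.e (nat_lit 336099) (nat_lit 9) (.e (nat_lit 336013) (nat_lit 2) (.e (nat_lit 90170) (nat_lit 13) (.e (nat_lit 172034) (nat_lit 0) .nil)))) (.g (nat_lit 0) (.e (nat_lit 370204) (nat_lit 0) .nil) .nil))) 
(.lf (nat_lit 578550) (.g (nat_lit 2239) (.e (nat_lit 336226) (nat_lit 14) (.e (nat_lit 401457) (nat_lit 13) (.e (nat_lit 483383) (nat_lit 23) (.e (nat_lit 336240) (nat_lit 15) .nil)))) (.g (nat_lit 0) (.e (nat_lit 371954) (nat_lit 0) .nil) .nil))))))))) (.nd (nat_lit 4) (.nd (nat_lit 5) (.nd (nat_lit 6) (.nd (nat_lit 7) (.nd (nat_lit 8) (.nd (nat_lit 9) 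
(.lf (nat_lit 577550) (.g (nat_lit 2766) (.e (nat_lit 336027) (nat_lit 3) (.e (nat_lit 98349) (nat_lit 24) (.e (nat_lit 409645) (nat_lit 18) (.e (nat_lit 303112) (nat_lit 0) (.e (nat_lit 3252) (nat_lit 197) .nil))))) (.g (nat_lit 0) (.e (nat_lit 368936) (nat_lit 0) .nil) .nil))) 
(.lf (nat_lit 578062) (.g (nat_lit 3155) (.e (nat_lit 336099) (nat_lit 9) (.e (nat_lit 336028) (nat_lit 3) (.e (nat_lit 98350) (nat_lit 24) (.e (nat_lit 409646) (nat_lit 18) (.e (nat_lit 303118) (nat_lit 3) (.e (nat_lit 204855) (nat_lit 26) .nil)))))) (.g (nat_lit 1) (.e (nat_lit 370251) (nat_lit 0) .nil) .nil)))) (.nd (nat_lit 9) 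
(.lf (nat_lit 577806) (.g (nat_lit 3455) (.e (nat_lit 336073) (nat_lit 9) (.e (nat_lit 336324) (nat_lit 18) (.e (nat_lit 204831) (nat_lit 18) (.e (nat_lit 57846) (nat_lit 252) .nil)))) (.g (nat_lit 0) (.e (nat_lit 369565) (nat_lit 0) .nil) .nil))) 
(.lf (nat_lit 578318) (.g (nat_lit 1123) (.e (nat_lit 336176) (nat_lit 10) (.e (nat_lit 344133) (nat_lit 26) (.e (nat_lit 557070) (nat_lit 9) .nil))) (.g (nat_lit 0) (.e (nat_lit 371133) (nat_lit 0) .nil) .nil))))) (.nd (nat_lit 8) (.nd (nat_lit 9) 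
(.lf (nat_lit 577678) (.g (nat_lit 1861) (.e (nat_lit 343808) (nat_lit 3) (.e (nat_lit 98372) (nat_lit 29) (.e (nat_lit 450586) (nat_lit 10) (.e (nat_lit 573473) (nat_lit 12) (.e (nat_lit 57353) (nat_lit 0) .nil))))) (.g (nat_lit 0) (.e (nat_lit 369116) (nat_lit 0) .nil) .nil))) 
(.lf (nat_lit 578190) (.g (nat_lit 962) (.e (nat_lit 336158) (nat_lit 9) (.e (nat_lit 336004) (nat_lit 2) (.e (nat_lit 90130) (nat_lit 9) (.e (nat_lit 2830) (nat_lit 182) .nil)))) (.g (nat_lit 0) (.e (nat_lit 370739) (nat_lit 0) .nil) .nil)))) (.nd (nat_lit 9) 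
(.lf (nat_lit 577934) (.g (nat_lit 794) (.e (nat_lit 336083) (nat_lit 9) (.e (nat_lit 336443) (nat_lit 32) (.e (nat_lit 466969) (nat_lit 21) .nil))) (.g (nat_lit 0) (.e (nat_lit 369932) (nat_lit 0) .nil) .nil))) 
(.lf (nat_lit 578446) (.g (nat_lit 1818) (.e (nat_lit 336204) (nat_lit 12) (.e (nat_lit 385074) (nat_lit 31) (.e (nat_lit 573489) (nat_lit 14) (.e (nat_lit 73782) (nat_lit 32) (.e (nat_lit 2682) (nat_lit 168) (.e (nat_lit 212736) (nat_lit 26) .nil)))))) (.g (nat_lit 1) (.e (nat_lit 371621) (nat_lit 0) .nil) .nil)))))) (.nd (nat_lit 7) (.nd (nat_lit 8) (.nd (nat_lit 9) 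
(.lf (nat_lit 577614) (.g (nat_lit 1903) (.e (nat_lit 336028) (nat_lit 3) (.e (nat_lit 98350) (nat_lit 24) (.e (nat_lit 409643) (nat_lit 18) (.e (nat_lit 303118) (nat_lit 3) (.e (nat_lit 204855) (nat_lit 26) .nil))))) (.g (nat_lit 0) (.e (nat_lit 369030) (nat_lit 0) .nil) .nil))) 
(.lf (nat_lit 578126) (.g (nat_lit 1043) (.e (nat_lit 336129) (nat_lit 9) (.e (nat_lit 336021) (nat_lit 3) (.e (nat_lit 98350) (nat_lit 24) .nil))) (.g (nat_lit 0) (.e (nat_lit 370488) (nat_lit 0) .nil) .nil)))) (.nd (nat_lit 9) 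
(.lf (nat_lit 577870) (.g (nat_lit 3457) (.e (nat_lit 336075) (nat_lit 9) (.e (nat_lit 336454) (nat_lit 34) (.e (nat_lit 483364) (nat_lit 18) (.e (nat_lit 57927) (nat_lit 282) (.e (nat_lit 163874) (nat_lit 3) (.e (nat_lit 204861) (nat_lit 26) .nil)))))) (.g (nat_lit 1) (.e (nat_lit 369706) (nat_lit 0) .nil) .nil))) 
(.lf (nat_lit 578382) (.g (nat_lit 3038) (.e (nat_lit 336186) (nat_lit 11) (.e (nat_lit 368676) (nat_lit 21) (.e (nat_lit 516141) (nat_lit 8) (.e (nat_lit 417830) (nat_lit 19) (.e (nat_lit 311314) (nat_lit 3) (.e (nat_lit 204861) (nat_lit 26) .nil)))))) (.g (nat_lit 1) (.e (nat_lit 371285) (nat_lit 0) .nil) .nil))))) (.nd (nat_lit 8) (.nd (nat_lit 9) 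
(.lf (nat_lit 577742) (.g (nat_lit 997) (.e (nat_lit 336049) (nat_lit 6) (.e (nat_lit 147500) (nat_lit 12) (.e (nat_lit 164053) (nat_lit 56) (.e (nat_lit 786457) (nat_lit 18) (.e (nat_lit 98381) (nat_lit 31) (.e (nat_lit 466954) (nat_lit 11) .nil)))))) (.g (nat_lit 1) (.e (nat_lit 369208) (nat_lit 0) .nil) .nil))) 
(.lf (nat_lit 578254) (.g (nat_lit 2262) (.e (nat_lit 336173) (nat_lit 10) (.e (nat_lit 344117) (nat_lit 21) (.e (nat_lit 516139) (nat_lit 7) (.e (nat_lit 409616) (nat_lit 10) .nil)))) (.g (nat_lit 0) (.e (nat_lit 370883) (nat_lit 0) .nil) .nil)))) (.nd (nat_lit 9) 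
(.lf (nat_lit 577998) (.g (nat_lit 2052) (.e (nat_lit 336096) (nat_lit 9) (.e (nat_lit 336013) (nat_lit 2) (.e (nat_lit 90165) (nat_lit 12) (.e (nat_lit 164207) (nat_lit 176) .nil)))) (.g (nat_lit 0) (.e (nat_lit 370143) (nat_lit 0) .nil) .nil))) 
(.lf (nat_lit 578510) (.g (nat_lit 882) (.e (nat_lit 336211) (nat_lit 13) (.e (nat_lit 393221) (nat_lit 0) (.e (nat_lit 6207) (nat_lit 333) (.e (nat_lit 65280) (nat_lit 271) .nil)))) (.g (nat_lit 0) (.e (nat_lit 371791) (nat_lit 0) .nil) .nil))))))) (.nd (nat_lit 6) (.nd (nat_lit 7) (.nd (nat_lit 8) (.nd (nat_lit 9) 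
(.lf (nat_lit 577582) (.g (nat_lit 4100) (.e (nat_lit 336027) (nat_lit 3) (.e (nat_lit 98384) (nat_lit 32) (.e (nat_lit 475199) (nat_lit 40) (.e (nat_lit 704589) (nat_lit 3) (.e (nat_lit 163975) (nat_lit 30) (.e (nat_lit 573481) (nat_lit 13) (.e (nat_lit 65607) (nat_lit 9) .nil))))))) (.g (nat_lit 1) (.e (nat_lit 368976) (nat_lit 0) .nil) .nil))) 
(.lf (nat_lit 578094) (.g (nat_lit 2830) (.e (nat_lit 336111) (nat_lit 9) (.e (nat_lit 336028) (nat_lit 3) (.e (nat_lit 98349) (nat_lit 24) (.e (nat_lit 409645) (nat_lit 18) (.e (nat_lit 303118) (nat_lit 3) .nil))))) (.g (nat_lit 0) (.e (nat_lit 370346) (nat_lit 0) .nil) .nil)))) (.nd (nat_lit 9) 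
(.lf (nat_lit 577838) (.g (nat_lit 3056) (.e (nat_lit 336074) (nat_lit 9) (.e (nat_lit 336454) (nat_lit 34) (.e (nat_lit 483365) (nat_lit 18) (.e (nat_lit 57930) (nat_lit 282) .nil)))) (.g (nat_lit 0) (.e (nat_lit 369622) (nat_lit 0) .nil) .nil))) 
(.lf (nat_lit 578350) (.g (nat_lit 2253) (.e (nat_lit 336178) (nat_lit 10) (.e (nat_lit 344117) (nat_lit 21) (.e (nat_lit 516138) (nat_lit 7) (.e (nat_lit 409646) (nat_lit 18) (.e (nat_lit 303112) (nat_lit 0) .nil))))) (.g (nat_lit 0) (.e (nat_lit 371207) (nat_lit 0) .nil) .nil))))) (.nd (nat_lit 8) (.nd (nat_lit 9) 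
(.lf (nat_lit 577710) (.g (nat_lit 3214) (.e (nat_lit 343808) (nat_lit 3) (.e (nat_lit 98373) (nat_lit 29) (.e (nat_lit 450588) (nat_lit 10) (.e (nat_lit 573475) (nat_lit 12) (.e (nat_lit 57574) (nat_lit 55) .nil))))) (.g (nat_lit 0) (.e (nat_lit 369148) (nat_lit 0) .nil) .nil))) 
(.lf (nat_lit 578222) (.g (nat_lit 2494) (.e (nat_lit 343808) (nat_lit 9) (.e (nat_lit 336454) (nat_lit 34) (.e (nat_lit 483365) (nat_lit 18) (.e (nat_lit 57852) (nat_lit 252) (.e (nat_lit 57378) (nat_lit 3) .nil))))) (.g (nat_lit 0) (.e (nat_lit 370811) (nat_lit 0) .nil) .nil)))) (.nd (nat_lit 9) 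
(.lf (nat_lit 577966) (.g (nat_lit 2314) (.e (nat_lit 336087) (nat_lit 9) (.e (nat_lit 336431) (nat_lit 29) (.e (nat_lit 442421) (nat_lit 21) (.e (nat_lit 164326) (nat_lit 230) (.e (nat_lit 163884) (nat_lit 5) (.e (nat_lit 221193) (nat_lit 11) .nil)))))) (.g (nat_lit 1) (.e (nat_lit 370040) (nat_lit 0) .nil) .nil))) 
(.lf (nat_lit 578478) (.g (nat_lit 2967) (.e (nat_lit 336206) (nat_lit 12) (.e (nat_lit 385074) (nat_lit 31) (.e (nat_lit 573485) (nat_lit 13) (.e (nat_lit 65630) (nat_lit 14) (.e (nat_lit 401427) (nat_lit 3) (.e (nat_lit 204859) (nat_lit 26) .nil)))))) (.g (nat_lit 1) (.e (nat_lit 371705) (nat_lit 0) .nil) .nil)))))) (.nd (nat_lit 7) (.nd (nat_lit 8) (.nd (nat_lit 9) 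
(.lf (nat_lit 577646) (.g (nat_lit 2284) (.e (nat_lit 336028) (nat_lit 3) (.e (nat_lit 98350) (nat_lit 24) (.e (nat_lit 409649) (nat_lit 18) (.e (nat_lit 303117) (nat_lit 2) (.e (nat_lit 196665) (nat_lit 13) .nil))))) (.g (nat_lit 0) (.e (nat_lit 369062) (nat_lit 0) .nil) .nil))) 
(.lf (nat_lit 578158) (.g (nat_lit 1976) (.e (nat_lit 336152) (nat_lit 9) (.e (nat_lit 336442) (nat_lit 32) (.e (nat_lit 466971) (nat_lit 21) (.e (nat_lit 164322) (nat_lit 230) (.e (nat_lit 163885) (nat_lit 5) (.e (nat_lit 221191) (nat_lit 11) .nil)))))) (.g (nat_lit 1) (.e (nat_lit 370618) (nat_lit 0) .nil) .nil)))) (.nd (nat_lit 9) 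
(.lf (nat_lit 577902) (.g (nat_lit 2093) (.e (nat_lit 336077) (nat_lit 9) (.e (nat_lit 336443) (nat_lit 32) (.e (nat_lit 466971) (nat_lit 21) (.e (nat_lit 164331) (nat_lit 230) (.e (nat_lit 163884) (nat_lit 5) (.e (nat_lit 221193) (nat_lit 11) .nil)))))) (.g (nat_lit 1) (.e (nat_lit 369808) (nat_lit 0) .nil) .nil))) 
(.lf (nat_lit 578414) (.g (nat_lit 1705) (.e (nat_lit 336198) (nat_lit 12) (.e (nat_lit 385074) (nat_lit 31) (.e (nat_lit 573491) (nat_lit 15) (.e (nat_lit 81943) (nat_lit 20) .nil)))) (.g (nat_lit 0) (.e (nat_lit 371500) (nat_lit 0) .nil) .nil))))) (.nd (nat_lit 8) (.nd (nat_lit 9) 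
(.lf (nat_lit 577774) (.g (nat_lit 1612) (.e (nat_lit 336059) (nat_lit 7) (.e (nat_lit 319530) (nat_lit 16) (.e (nat_lit 286759) (nat_lit 12) (.e (nat_lit 385109) (nat_lit 51) .nil)))) (.g (nat_lit 0) (.e (nat_lit 369378) (nat_lit 0) .nil) .nil))) 
(.lf (nat_lit 578286) (.g (nat_lit 3401) (.e (nat_lit 336176) (nat_lit 10) (.e (nat_lit 344117) (nat_lit 21) (.e (nat_lit 516139) (nat_lit 7) (.e (nat_lit 409649) (nat_lit 18) (.e (nat_lit 303111) (nat_lit 0) (.e (nat_lit 3238) (nat_lit 197) (.e (nat_lit 532535) (nat_lit 9) .nil))))))) (.g (nat_lit 1) (.e (nat_lit 370986) (nat_lit 0) .nil) .nil)))) (.nd (nat_lit 9) 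
(.lf (nat_lit 578030) (.g (nat_lit 1755) (.e (nat_lit 336099) (nat_lit 9) (.e (nat_lit 336013) (nat_lit 2) (.e (nat_lit 90165) (nat_lit 12) (.e (nat_lit 164207) (nat_lit 176) .nil)))) (.g (nat_lit 0) (.e (nat_lit 370195) (nat_lit 0) .nil) .nil))) 
(.lf (nat_lit 578542) (.g (nat_lit 2523) (.e (nat_lit 336226) (nat_lit 14) (.e (nat_lit 401437) (nat_lit 9) (.e (nat_lit 426530) (nat_lit 27) (.e (nat_lit 336235) (nat_lit 14) (.e (nat_lit 401438) (nat_lit 9) (.e (nat_lit 426509) (nat_lit 27) .nil)))))) (.g (nat_lit 1) (.e (nat_lit 371926) (nat_lit 0) .nil) .nil)))))))) 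
(.nd (nat_lit 5) (.nd (nat_lit 6) (.nd (nat_lit 7) (.nd (nat_lit 8) (.nd (nat_lit 9) 
(.lf (nat_lit 577566) (.g (nat_lit 3309) (.e (nat_lit 336027) (nat_lit 3) (.e (nat_lit 98350) (nat_lit 24) (.e (nat_lit 409645) (nat_lit 18) (.e (nat_lit 303112) (nat_lit 0) (.e (nat_lit 3252) (nat_lit 197) (.e (nat_lit 532531) (nat_lit 9) (.e (nat_lit 336142) (nat_lit 9) .nil))))))) (.g (nat_lit 1) (.e (nat_lit 368958) (nat_lit 0) .nil) .nil))) 
(.lf (nat_lit 578078) (.g (nat_lit 809) (.e (nat_lit 336101) (nat_lit 9) (.e (nat_lit 336013) (nat_lit 2) (.e (nat_lit 90165) (nat_lit 12) .nil))) (.g (nat_lit 0) (.e (nat_lit 370317) (nat_lit 0) .nil) .nil)))) (.nd (nat_lit 9) 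
(.lf (nat_lit 577822) (.g (nat_lit 2244) (.e (nat_lit 336074) (nat_lit 9) (.e (nat_lit 336443) (nat_lit 32) (.e (nat_lit 466969) (nat_lit 21) (.e (nat_lit 164332) (nat_lit 230) (.e (nat_lit 163884) (nat_lit 5) (.e (nat_lit 221193) (nat_lit 11) .nil)))))) (.g (nat_lit 1) (.e (nat_lit 369606) (nat_lit 0) .nil) .nil))) 
(.lf (nat_lit 578334) (.g (nat_lit 2203) (.e (nat_lit 336176) (nat_lit 10) (.e (nat_lit 344133) (nat_lit 26) (.e (nat_lit 557091) (nat_lit 12) (.e (nat_lit 164020) (nat_lit 45) (.e (nat_lit 696342) (nat_lit 8) .nil))))) (.g (nat_lit 0) (.e (nat_lit 371173) (nat_lit 0) .nil) .nil))))) (.nd (nat_lit 8) (.nd (nat_lit 9) 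
(.lf (nat_lit 577694) (.g (nat_lit 3947) (.e (nat_lit 343808) (nat_lit 3) (.e (nat_lit 98373) (nat_lit 29) (.e (nat_lit 450587) (nat_lit 10) (.e (nat_lit 573475) (nat_lit 12) (.e (nat_lit 57568) (nat_lit 53) .nil))))) (.g (nat_lit 0) (.e (nat_lit 369132) (nat_lit 0) .nil) .nil))) 
(.lf (nat_lit 578206) (.g (nat_lit 1907) (.e (nat_lit 336142) (nat_lit 9) (.e (nat_lit 336027) (nat_lit 3) (.e (nat_lit 98350) (nat_lit 24) (.e (nat_lit 409616) (nat_lit 10) .nil)))) (.g (nat_lit 0) (.e (nat_lit 370788) (nat_lit 0) .nil) .nil)))) (.nd (nat_lit 9) 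
(.lf (nat_lit 577950) (.g (nat_lit 2342) (.e (nat_lit 336084) (nat_lit 9) (.e (nat_lit 336443) (nat_lit 32) (.e (nat_lit 466971) (nat_lit 21) (.e (nat_lit 164325) (nat_lit 230) (.e (nat_lit 163886) (nat_lit 5) (.e (nat_lit 221193) (nat_lit 11) .nil)))))) (.g (nat_lit 1) (.e (nat_lit 369970) (nat_lit 0) .nil) .nil))) 
(.lf (nat_lit 578462) (.g (nat_lit 438) (.e (nat_lit 336205) (nat_lit 12) (.e (nat_lit 385074) (nat_lit 31) (.e (nat_lit 573493) (nat_lit 15) .nil))) (.g (nat_lit 0) (.e (nat_lit 371656) (nat_lit 0) .nil) .nil)))))) (.nd (nat_lit 7) (.nd (nat_lit 8) (.nd (nat_lit 9) 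
(.lf (nat_lit 577630) (.g (nat_lit 4047) (.e (nat_lit 336028) (nat_lit 3) (.e (nat_lit 98350) (nat_lit 24) (.e (nat_lit 409647) (nat_lit 18) (.e (nat_lit 303118) (nat_lit 3) (.e (nat_lit 204855) (nat_lit 26) (.e (nat_lit 336102) (nat_lit 9) .nil)))))) (.g (nat_lit 1) (.e (nat_lit 369046) (nat_lit 0) .nil) .nil))) 
(.lf (nat_lit 578142) (.g (nat_lit 809) (.e (nat_lit 336138) (nat_lit 9) (.e (nat_lit 336013) (nat_lit 2) (.e (nat_lit 90165) (nat_lit 12) .nil))) (.g (nat_lit 0) (.e (nat_lit 370551) (nat_lit 0) .nil) .nil)))) (.nd (nat_lit 9) 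
(.lf (nat_lit 577886) (.g (nat_lit 2608) (.e (nat_lit 336076) (nat_lit 9) (.e (nat_lit 336450) (nat_lit 33) (.e (nat_lit 475152) (nat_lit 17) (.e (nat_lit 57883) (nat_lit 270) (.e (nat_lit 174) (nat_lit 12) (.e (nat_lit 204861) (nat_lit 26) .nil)))))) (.g (nat_lit 1) (.e (nat_lit 369752) (nat_lit 0) .nil) .nil))) 
(.lf (nat_lit 578398) (.g (nat_lit 1552) (.e (nat_lit 336194) (nat_lit 12) (.e (nat_lit 385074) (nat_lit 31) (.e (nat_lit 573484) (nat_lit 13) (.e (nat_lit 65617) (nat_lit 10) .nil)))) (.g (nat_lit 0) (.e (nat_lit 371357) (nat_lit 0) .nil) .nil))))) (.nd (nat_lit 8) (.nd (nat_lit 9) 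
(.lf (nat_lit 577758) (.g (nat_lit 1790) (.e (nat_lit 336051) (nat_lit 6) (.e (nat_lit 147496) (nat_lit 11) (.e (nat_lit 24607) (nat_lit 3) (.e (nat_lit 98333) (nat_lit 18) .nil)))) (.g (nat_lit 0) (.e (nat_lit 369236) (nat_lit 0) .nil) .nil))) 
(.lf (nat_lit 578270) (.g (nat_lit 4766) (.e (nat_lit 336173) (nat_lit 10) (.e (nat_lit 344133) (nat_lit 26) (.e (nat_lit 557087) (nat_lit 11) (.e (nat_lit 24617) (nat_lit 7) (.e (nat_lit 319511) (nat_lit 10) (.e (nat_lit 595) (nat_lit 45) (.e (nat_lit 532535) (nat_lit 9) .nil))))))) (.g (nat_lit 1) (.e (nat_lit 370932) (nat_lit 0) .nil) .nil)))) (.nd (nat_lit 9) 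
(.lf (nat_lit 578014) (.g (nat_lit 2146) (.e (nat_lit 336099) (nat_lit 9) (.e (nat_lit 336013) (nat_lit 2) (.e (nat_lit 90129) (nat_lit 9) (.e (nat_lit 2828) (nat_lit 182) (.e (nat_lit 409646) (nat_lit 18) .nil))))) (.g (nat_lit 0) (.e (nat_lit 370173) (nat_lit 0) .nil) .nil))) 
(.lf (nat_lit 578526) (.g (nat_lit 1679) (.e (nat_lit 336219) (nat_lit 13) (.e (nat_lit 393251) (nat_lit 18) (.e (nat_lit 164182) (nat_lit 154) (.e (nat_lit 57410) (nat_lit 12) .nil)))) (.g (nat_lit 0) (.e (nat_lit 371858) (nat_lit 0) .nil) .nil))))))) (.nd (nat_lit 6) (.nd (nat_lit 7) (.nd (nat_lit 8) (.nd (nat_lit 9) 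
(.lf (nat_lit 577598) (.g (nat_lit 2488) (.e (nat_lit 336028) (nat_lit 3) (.e (nat_lit 98349) (nat_lit 24) (.e (nat_lit 409645) (nat_lit 18) (.e (nat_lit 303119) (nat_lit 3) (.e (nat_lit 204852) (nat_lit 26) .nil))))) (.g (nat_lit 0) (.e (nat_lit 369003) (nat_lit 0) .nil) .nil))) 
(.lf (nat_lit 578110) (.g (nat_lit 4696) (.e (nat_lit 336113) (nat_lit 9) (.e (nat_lit 336324) (nat_lit 18) (.e (nat_lit 204831) (nat_lit 18) (.e (nat_lit 57844) (nat_lit 252) .nil)))) (.g (nat_lit 0) (.e (nat_lit 370381) (nat_lit 0) .nil) .nil)))) (.nd (nat_lit 9) 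
(.lf (nat_lit 577854) (.g (nat_lit 398) (.e (nat_lit 336075) (nat_lit 9) (.e (nat_lit 336336) (nat_lit 20) (.e (nat_lit 229120) (nat_lit 5) .nil))) (.g (nat_lit 0) (.e (nat_lit 369658) (nat_lit 0) .nil) .nil))) 
(.lf (nat_lit 578366) (.g (nat_lit 2962) (.e (nat_lit 336178) (nat_lit 10) (.e (nat_lit 344117) (nat_lit 21) (.e (nat_lit 516195) (nat_lit 26) (.e (nat_lit 335988) (nat_lit 1) (.e (nat_lit 57926) (nat_lit 282) (.e (nat_lit 163901) (nat_lit 12) (.e (nat_lit 426506) (nat_lit 27) .nil))))))) (.g (nat_lit 1) (.e (nat_lit 371225) (nat_lit 0) .nil) .nil))))) (.nd (nat_lit 8) (.nd (nat_lit 9) 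
(.lf (nat_lit 577726) (.g (nat_lit 2655) (.e (nat_lit 336032) (nat_lit 4) (.e (nat_lit 123198) (nat_lit 266) (.e (nat_lit 57400) (nat_lit 10) (.e (nat_lit 319490) (nat_lit 0) (.e (nat_lit 5664) (nat_lit 312) (.e (nat_lit 3085) (nat_lit 191) (.e (nat_lit 483387) (nat_lit 23) .nil))))))) (.g (nat_lit 1) (.e (nat_lit 369173) (nat_lit 0) .nil) .nil))) 
(.lf (nat_lit 578238) (.g (nat_lit 2123) (.e (nat_lit 336163) (nat_lit 10) (.e (nat_lit 344117) (nat_lit 21) (.e (nat_lit 524032) (nat_lit 27) (.e (nat_lit 344160) (nat_lit 37) (.e (nat_lit 647183) (nat_lit 4) (.e (nat_lit 172147) (nat_lit 27) .nil)))))) (.g (nat_lit 1) (.e (nat_lit 370836) (nat_lit 0) .nil) .nil)))) (.nd (nat_lit 9) 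
(.lf (nat_lit 577982) (.g (nat_lit 1420) (.e (nat_lit 336089) (nat_lit 9) (.e (nat_lit 336324) (nat_lit 18) (.e (nat_lit 204837) (nat_lit 20) (.e (nat_lit 122624) (nat_lit 11) .nil)))) (.g (nat_lit 0) (.e (nat_lit 370085) (nat_lit 0) .nil) .nil))) 
(.lf (nat_lit 578494) (.g (nat_lit 2652) (.e (nat_lit 336208) (nat_lit 12) (.e (nat_lit 385073) (nat_lit 31) (.e (nat_lit 573482) (nat_lit 13) (.e (nat_lit 65630) (nat_lit 14) (.e (nat_lit 401428) (nat_lit 3) (.e (nat_lit 204854) (nat_lit 26) .nil)))))) (.g (nat_lit 1) (.e (nat_lit 371751) (nat_lit 0) .nil) .nil)))))) (.nd (nat_lit 7) (.nd (nat_lit 8) (.nd (nat_lit 9) 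
(.lf (nat_lit 577662) (.g (nat_lit 2771) (.e (nat_lit 343808) (nat_lit 3) (.e (nat_lit 98349) (nat_lit 24) (.e (nat_lit 409645) (nat_lit 18) (.e (nat_lit 303112) (nat_lit 0) (.e (nat_lit 3252) (nat_lit 197) .nil))))) (.g (nat_lit 0) (.e (nat_lit 369094) (nat_lit 0) .nil) .nil))) 
(.lf (nat_lit 578174) (.g (nat_lit 2159) (.e (nat_lit 336158) (nat_lit 9) (.e (nat_lit 335986) (nat_lit 1) (.e (nat_lit 57854) (nat_lit 252) (.e (nat_lit 57389) (nat_lit 5) (.e (nat_lit 122624) (nat_lit 13) .nil))))) (.g (nat_lit 0) (.e (nat_lit 370698) (nat_lit 0) .nil) .nil)))) (.nd (nat_lit 9) 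
(.lf (nat_lit 577918) (.g (nat_lit 589) (.e (nat_lit 336079) (nat_lit 9) (.e (nat_lit 336324) (nat_lit 18) (.e (nat_lit 204831) (nat_lit 18) .nil))) (.g (nat_lit 0) (.e (nat_lit 369884) (nat_lit 0) .nil) .nil))) 
(.lf (nat_lit 578430) (.g (nat_lit 2162) (.e (nat_lit 336201) (nat_lit 12) (.e (nat_lit 385074) (nat_lit 31) (.e (nat_lit 573485) (nat_lit 13) (.e (nat_lit 65619) (nat_lit 10) (.e (nat_lit 344129) (nat_lit 26) .nil))))) (.g (nat_lit 0) (.e (nat_lit 371558) (nat_lit 0) .nil) .nil))))) (.nd (nat_lit 8) (.nd (nat_lit 9) 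
(.lf (nat_lit 577790) (.g (nat_lit 2496) (.e (nat_lit 336070) (nat_lit 8) (.e (nat_lit 327708) (nat_lit 10) (.e (nat_lit 5270) (nat_lit 298) (.e (nat_lit 1183) (nat_lit 87) (.e (nat_lit 57686) (nat_lit 156) .nil))))) (.g (nat_lit 0) (.e (nat_lit 369516) (nat_lit 0) .nil) .nil))) 
(.lf (nat_lit 578302) (.g (nat_lit 2380) (.e (nat_lit 336176) (nat_lit 10) (.e (nat_lit 344129) (nat_lit 26) (.e (nat_lit 557087) (nat_lit 11) (.e (nat_lit 24584) (nat_lit 0) .nil)))) (.g (nat_lit 0) (.e (nat_lit 371050) (nat_lit 0) .nil) .nil)))) (.nd (nat_lit 9) 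
(.lf (nat_lit 578046) (.g (nat_lit 4959) (.e (nat_lit 336099) (nat_lit 9) (.e (nat_lit 336013) (nat_lit 2) (.e (nat_lit 90170) (nat_lit 13) (.e (nat_lit 172051) (nat_lit 0) .nil)))) (.g (nat_lit 0) (.e (nat_lit 370217) (nat_lit 0) .nil) .nil))) 
(.lf (nat_lit 578558) (.g (nat_lit 3912) (.e (nat_lit 336226) (nat_lit 14) (.e (nat_lit 401459) (nat_lit 13) (.e (nat_lit 483372) (nat_lit 21) (.e (nat_lit 319503) (nat_lit 10) .nil)))) (.g (nat_lit 0) (.e (nat_lit 371968) (nat_lit 0) .nil) .nil)))))))))))) 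
(.nd (nat_lit 1) (.nd (nat_lit 2) (.nd (nat_lit 3) (.nd (nat_lit 4) (.nd (nat_lit 5) 
(.nd (nat_lit 6) (.nd (nat_lit 7) (.nd (nat_lit 8) (.nd (nat_lit 9) 
(.lf (nat_lit 577537) (.g (nat_lit 642) (.e (nat_lit 336026) (nat_lit 3) (.e (nat_lit 98350) (nat_lit 24) (.e (nat_lit 409649) (nat_lit 18) .nil))) (.g (nat_lit 0) (.e (nat_lit 368913) (nat_lit 0) .nil) .nil))) 
(.lf (nat_lit 578049) (.g (nat_lit 4554) (.e (nat_lit 336099) (nat_lit 9) (.e (nat_lit 336013) (nat_lit 2) (.e (nat_lit 90170) (nat_lit 13) (.e (nat_lit 172069) (nat_lit 4) .nil)))) (.g (nat_lit 0) (.e (nat_lit 370224) (nat_lit 0) .nil) .nil)))) (.nd (nat_lit 9) 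
(.lf (nat_lit 577793) (.g (nat_lit 1867) (.e (nat_lit 336073) (nat_lit 9) (.e (nat_lit 336013) (nat_lit 2) (.e (nat_lit 90165) (nat_lit 12) (.e (nat_lit 164207) (nat_lit 176) .nil)))) (.g (nat_lit 0) (.e (nat_lit 369532) (nat_lit 0) .nil) .nil))) 
(.lf (nat_lit 578305) (.g (nat_lit 2121) (.e (nat_lit 336176) (nat_lit 10) (.e (nat_lit 344130) (nat_lit 26) (.e (nat_lit 557087) (nat_lit 11) (.e (nat_lit 24585) (nat_lit 0) .nil)))) (.g (nat_lit 0) (.e (nat_lit 371066) (nat_lit 0) .nil) .nil))))) (.nd (nat_lit 8) (.nd (nat_lit 9) 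
(.lf (nat_lit 577665) (.g (nat_lit 2536) (.e (nat_lit 343808) (nat_lit 3) (.e (nat_lit 98349) (nat_lit 24) (.e (nat_lit 409646) (nat_lit 18) (.e (nat_lit 303117) (nat_lit 2) (.e (nat_lit 196665) (nat_lit 13) .nil))))) (.g (nat_lit 0) (.e (nat_lit 369097) (nat_lit 0) .nil) .nil))) 
(.lf (nat_lit 578177) (.g (nat_lit 1421) (.e (nat_lit 336158) (nat_lit 9) (.e (nat_lit 335988) (nat_lit 1) (.e (nat_lit 57851) (nat_lit 252) (.e (nat_lit 57388) (nat_lit 5) (.e (nat_lit 122624) (nat_lit 13) .nil))))) (.g (nat_lit 0) (.e (nat_lit 370709) (nat_lit 0) .nil) .nil)))) (.nd (nat_lit 9) 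
(.lf (nat_lit 577921) (.g (nat_lit 4085) (.e (nat_lit 336079) (nat_lit 9) (.e (nat_lit 336324) (nat_lit 18) (.e (nat_lit 204831) (nat_lit 18) (.e (nat_lit 57851) (nat_lit 252) .nil)))) (.g (nat_lit 0) (.e (nat_lit 369887) (nat_lit 0) .nil) .nil))) 
(.lf (nat_lit 578433) (.g (nat_lit 1709) (.e (nat_lit 336202) (nat_lit 12) (.e (nat_lit 385074) (nat_lit 31) (.e (nat_lit 573485) (nat_lit 13) (.e (nat_lit 65619) (nat_lit 10) (.e (nat_lit 344129) (nat_lit 26) .nil))))) (.g (nat_lit 0) (.e (nat_lit 371574) (nat_lit 0) .nil) .nil)))))) (.nd (nat_lit 7) (.nd (nat_lit 8) (.nd (nat_lit 9) 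
(.lf (nat_lit 577601) (.g (nat_lit 3969) (.e (nat_lit 336028) (nat_lit 3) (.e (nat_lit 98349) (nat_lit 24) (.e (nat_lit 409645) (nat_lit 18) (.e (nat_lit 303119) (nat_lit 3) (.e (nat_lit 204855) (nat_lit 26) (.e (nat_lit 336111) (nat_lit 9) .nil)))))) (.g (nat_lit 1) (.e (nat_lit 369006) (nat_lit 0) .nil) .nil))) 
(.lf (nat_lit 578113) (.g (nat_lit 4652) (.e (nat_lit 336113) (nat_lit 9) (.e (nat_lit 336324) (nat_lit 18) (.e (nat_lit 204831) (nat_lit 18) (.e (nat_lit 57848) (nat_lit 252) .nil)))) (.g (nat_lit 0) (.e (nat_lit 370384) (nat_lit 0) .nil) .nil)))) (.nd (nat_lit 9) 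
(.lf (nat_lit 577857) (.g (nat_lit 2459) (.e (nat_lit 336075) (nat_lit 9) (.e (nat_lit 336368) (nat_lit 27) (.e (nat_lit 426499) (nat_lit 27) (.e (nat_lit 335986) (nat_lit 1) (.e (nat_lit 57927) (nat_lit 282) (.e (nat_lit 163875) (nat_lit 3) (.e (nat_lit 204861) (nat_lit 26) .nil))))))) (.g (nat_lit 1) (.e (nat_lit 369688) (nat_lit 0) .nil) .nil))) 
(.lf (nat_lit 578369) (.g (nat_lit 2822) (.e (nat_lit 336183) (nat_lit 11) (.e (nat_lit 368676) (nat_lit 21) (.e (nat_lit 516142) (nat_lit 8) (.e (nat_lit 417828) (nat_lit 18) (.e (nat_lit 303119) (nat_lit 3) .nil))))) (.g (nat_lit 0) (.e (nat_lit 371252) (nat_lit 0) .nil) .nil))))) (.nd (nat_lit 8) (.nd (nat_lit 9) 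
(.lf (nat_lit 577729) (.g (nat_lit 1516) (.e (nat_lit 336035) (nat_lit 4) (.e (nat_lit 123185) (nat_lit 264) (.e (nat_lit 1183) (nat_lit 87) (.e (nat_lit 57478) (nat_lit 28) (.e (nat_lit 557107) (nat_lit 15) .nil))))) (.g (nat_lit 0) (.e (nat_lit 369180) (nat_lit 0) .nil) .nil))) 
(.lf (nat_lit 578241) (.g (nat_lit 3032) (.e (nat_lit 336163) (nat_lit 10) (.e (nat_lit 344133) (nat_lit 26) (.e (nat_lit 557066) (nat_lit 9) (.e (nat_lit 232) (nat_lit 21) (.e (nat_lit 336060) (nat_lit 7) .nil))))) (.g (nat_lit 0) (.e (nat_lit 370840) (nat_lit 0) .nil) .nil)))) (.nd (nat_lit 9) 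
(.lf (nat_lit 577985) (.g (nat_lit 2218) (.e (nat_lit 336094) (nat_lit 9) (.e (nat_lit 336013) (nat_lit 2) (.e (nat_lit 90165) (nat_lit 12) (.e (nat_lit 164208) (nat_lit 176) .nil)))) (.g (nat_lit 0) (.e (nat_lit 370098) (nat_lit 0) .nil) .nil))) 
(.lf (nat_lit 578497) (.g (nat_lit 1488) (.e (nat_lit 336208) (nat_lit 12) (.e (nat_lit 385074) (nat_lit 31) (.e (nat_lit 573484) (nat_lit 13) (.e (nat_lit 65617) (nat_lit 10) .nil)))) (.g (nat_lit 0) (.e (nat_lit 371759) (nat_lit 0) .nil) .nil))))))) (.nd (nat_lit 6) (.nd (nat_lit 7) (.nd (nat_lit 8) (.nd (nat_lit 9) 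
(.lf (nat_lit 577569) (.g (nat_lit 1684) (.e (nat_lit 336027) (nat_lit 3) (.e (nat_lit 98350) (nat_lit 24) (.e (nat_lit 409648) (nat_lit 18) (.e (nat_lit 303109) (nat_lit 0) .nil)))) (.g (nat_lit 0) (.e (nat_lit 368961) (nat_lit 0) .nil) .nil))) 
(.lf (nat_lit 578081) (.g (nat_lit 2309) (.e (nat_lit 336101) (nat_lit 9) (.e (nat_lit 336013) (nat_lit 2) (.e (nat_lit 90165) (nat_lit 12) (.e (nat_lit 164209) (nat_lit 176) .nil)))) (.g (nat_lit 0) (.e (nat_lit 370320) (nat_lit 0) .nil) .nil)))) (.nd (nat_lit 9) 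
(.lf (nat_lit 577825) (.g (nat_lit 2018) (.e (nat_lit 336074) (nat_lit 9) (.e (nat_lit 336443) (nat_lit 32) (.e (nat_lit 466971) (nat_lit 21) (.e (nat_lit 164324) (nat_lit 230) (.e (nat_lit 163886) (nat_lit 5) .nil))))) (.g (nat_lit 0) (.e (nat_lit 369609) (nat_lit 0) .nil) .nil))) 
(.lf (nat_lit 578337) (.g (nat_lit 2223) (.e (nat_lit 336176) (nat_lit 10) (.e (nat_lit 344133) (nat_lit 26) (.e (nat_lit 557094) (nat_lit 12) (.e (nat_lit 164022) (nat_lit 46) (.e (nat_lit 704629) (nat_lit 9) .nil))))) (.g (nat_lit 0) (.e (nat_lit 371177) (nat_lit 0) .nil) .nil))))) (.nd (nat_lit 8) (.nd (nat_lit 9) 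
(.lf (nat_lit 577697) (.g (nat_lit 1690) (.e (nat_lit 343808) (nat_lit 3) (.e (nat_lit 98373) (nat_lit 29) (.e (nat_lit 450587) (nat_lit 10) (.e (nat_lit 573478) (nat_lit 12) .nil)))) (.g (nat_lit 0) (.e (nat_lit 369135) (nat_lit 0) .nil) .nil))) 
(.lf (nat_lit 578209) (.g (nat_lit 2213) (.e (nat_lit 336142) (nat_lit 9) (.e (nat_lit 336027) (nat_lit 3) (.e (nat_lit 98350) (nat_lit 24) (.e (nat_lit 409646) (nat_lit 18) (.e (nat_lit 303112) (nat_lit 0) (.e (nat_lit 3252) (nat_lit 197) (.e (nat_lit 532531) (nat_lit 9) .nil))))))) (.g (nat_lit 1) (.e (nat_lit 370793) (nat_lit 0) .nil) .nil)))) (.nd (nat_lit 9) 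
(.lf (nat_lit 577953) (.g (nat_lit 2423) (.e (nat_lit 336084) (nat_lit 9) (.e (nat_lit 336443) (nat_lit 32) (.e (nat_lit 466972) (nat_lit 21) (.e (nat_lit 164322) (nat_lit 230) (.e (nat_lit 163885) (nat_lit 5) (.e (nat_lit 221193) (nat_lit 11) .nil)))))) (.g (nat_lit 1) (.e (nat_lit 369973) (nat_lit 0) .nil) .nil))) 
(.lf (nat_lit 578465) (.g (nat_lit 3513) (.e (nat_lit 336205) (nat_lit 12) (.e (nat_lit 385093) (nat_lit 49) (.e (nat_lit 778323) (nat_lit 5) (.e (nat_lit 73781) (nat_lit 32) (.e (nat_lit 2856) (nat_lit 184) (.e (nat_lit 426509) (nat_lit 27) .nil)))))) (.g (nat_lit 1) (.e (nat_lit 371659) (nat_lit 0) .nil) .nil)))))) (.nd (nat_lit 7) (.nd (nat_lit 8) (.nd (nat_lit 9) 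
(.lf (nat_lit 577633) (.g (nat_lit 1207) (.e (nat_lit 336028) (nat_lit 3) (.e (nat_lit 98350) (nat_lit 24) (.e (nat_lit 409648) (nat_lit 18) (.e (nat_lit 303116) (nat_lit 2) .nil)))) (.g (nat_lit 0) (.e (nat_lit 369049) (nat_lit 0) .nil) .nil))) 
(.lf (nat_lit 578145) (.g (nat_lit 2925) (.e (nat_lit 336136) (nat_lit 9) (.e (nat_lit 336028) (nat_lit 3) (.e (nat_lit 98350) (nat_lit 24) (.e (nat_lit 409645) (nat_lit 18) .nil)))) (.g (nat_lit 0) (.e (nat_lit 370558) (nat_lit 0) .nil) .nil)))) (.nd (nat_lit 9) 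
(.lf (nat_lit 577889) (.g (nat_lit 3727) (.e (nat_lit 336076) (nat_lit 9) (.e (nat_lit 336454) (nat_lit 34) (.e (nat_lit 483365) (nat_lit 18) (.e (nat_lit 57931) (nat_lit 282) (.e (nat_lit 163873) (nat_lit 3) (.e (nat_lit 204861) (nat_lit 26) .nil)))))) (.g (nat_lit 1) (.e (nat_lit 369760) (nat_lit 0) .nil) .nil))) 
(.lf (nat_lit 578401) (.g (nat_lit 1998) (.e (nat_lit 336194) (nat_lit 12) (.e (nat_lit 385103) (nat_lit 50) (.e (nat_lit 786483) (nat_lit 30) (.e (nat_lit 360457) (nat_lit 0) (.e (nat_lit 5949) (nat_lit 322) (.e (nat_lit 57419) (nat_lit 12) .nil)))))) (.g (nat_lit 1) (.e (nat_lit 371370) (nat_lit 0) .nil) .nil))))) (.nd (nat_lit 8) (.nd (nat_lit 9) 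
(.lf (nat_lit 577761) (.g (nat_lit 1939) (.e (nat_lit 336051) (nat_lit 6) (.e (nat_lit 147496) (nat_lit 11) (.e (nat_lit 24625) (nat_lit 9) (.e (nat_lit 336366) (nat_lit 27) .nil)))) (.g (nat_lit 0) (.e (nat_lit 369239) (nat_lit 0) .nil) .nil))) 
(.lf (nat_lit 578273) (.g (nat_lit 376) (.e (nat_lit 336173) (nat_lit 10) (.e (nat_lit 344156) (nat_lit 36) (.e (nat_lit 638985) (nat_lit 5) .nil))) (.g (nat_lit 0) (.e (nat_lit 370937) (nat_lit 0) .nil) .nil)))) (.nd (nat_lit 9) 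
(.lf (nat_lit 578017) (.g (nat_lit 1122) (.e (nat_lit 336099) (nat_lit 9) (.e (nat_lit 336013) (nat_lit 2) (.e (nat_lit 90134) (nat_lit 9) .nil))) (.g (nat_lit 0) (.e (nat_lit 370181) (nat_lit 0) .nil) .nil))) 
(.lf (nat_lit 578529) (.g (nat_lit 3033) (.e (nat_lit 336221) (nat_lit 13) (.e (nat_lit 393281) (nat_lit 23) (.e (nat_lit 426100) (nat_lit 1) (.e (nat_lit 164332) (nat_lit 230) (.e (nat_lit 163884) (nat_lit 5) (.e (nat_lit 221194) (nat_lit 11) .nil)))))) (.g (nat_lit 1) (.e (nat_lit 371865) (nat_lit 0) .nil) .nil)))))))) 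
(.nd (nat_lit 5) (.nd (nat_lit 6) (.nd (nat_lit 7) (.nd (nat_lit 8) (.nd (nat_lit 9) 
(.lf (nat_lit 577553) (.g (nat_lit 3964) (.e (nat_lit 336027) (nat_lit 3) (.e (nat_lit 98349) (nat_lit 24) (.e (nat_lit 409645) (nat_lit 18) (.e (nat_lit 303119) (nat_lit 3) (.e (nat_lit 204852) (nat_lit 26) (.e (nat_lit 336130) (nat_lit 9) .nil)))))) (.g (nat_lit 1) (.e (nat_lit 368939) (nat_lit 0) .nil) .nil))) 
(.lf (nat_lit 578065) (.g (nat_lit 613) (.e (nat_lit 336102) (nat_lit 9) (.e (nat_lit 336013) (nat_lit 2) (.e (nat_lit 90165) (nat_lit 12) .nil))) (.g (nat_lit 0) (.e (nat_lit 370278) (nat_lit 0) .nil) .nil)))) (.nd (nat_lit 9) 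
(.lf (nat_lit 577809) (.g (nat_lit 805) (.e (nat_lit 336073) (nat_lit 9) (.e (nat_lit 336443) (nat_lit 32) (.e (nat_lit 466972) (nat_lit 21) .nil))) (.g (nat_lit 0) (.e (nat_lit 369568) (nat_lit 0) .nil) .nil))) 
(.lf (nat_lit 578321) (.g (nat_lit 3198) (.e (nat_lit 336176) (nat_lit 10) (.e (nat_lit 344133) (nat_lit 26) (.e (nat_lit 557087) (nat_lit 11) (.e (nat_lit 24577) (nat_lit 0) (.e (nat_lit 7936) (nat_lit 360) .nil))))) (.g (nat_lit 0) (.e (nat_lit 371140) (nat_lit 0) .nil) .nil))))) (.nd (nat_lit 8) (.nd (nat_lit 9) 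
(.lf (nat_lit 577681) (.g (nat_lit 3779) (.e (nat_lit 343808) (nat_lit 3) (.e (nat_lit 98373) (nat_lit 29) (.e (nat_lit 450587) (nat_lit 10) (.e (nat_lit 573472) (nat_lit 12) .nil)))) (.g (nat_lit 0) (.e (nat_lit 369119) (nat_lit 0) .nil) .nil))) 
(.lf (nat_lit 578193) (.g (nat_lit 1829) (.e (nat_lit 336158) (nat_lit 9) (.e (nat_lit 336004) (nat_lit 2) (.e (nat_lit 90181) (nat_lit 16) (.e (nat_lit 229569) (nat_lit 176) (.e (nat_lit 2816) (nat_lit 181) (.e (nat_lit 311314) (nat_lit 3) (.e (nat_lit 212736) (nat_lit 26) .nil))))))) (.g (nat_lit 1) (.e (nat_lit 370745) (nat_lit 0) .nil) .nil)))) (.nd (nat_lit 9) 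
(.lf (nat_lit 577937) (.g (nat_lit 2139) (.e (nat_lit 336083) (nat_lit 9) (.e (nat_lit 336443) (nat_lit 32) (.e (nat_lit 466971) (nat_lit 21) (.e (nat_lit 164327) (nat_lit 230) (.e (nat_lit 163884) (nat_lit 5) (.e (nat_lit 229120) (nat_lit 11) .nil)))))) (.g (nat_lit 1) (.e (nat_lit 369935) (nat_lit 0) .nil) .nil))) 
(.lf (nat_lit 578449) (.g (nat_lit 279) (.e (nat_lit 336204) (nat_lit 12) (.e (nat_lit 385109) (nat_lit 51) (.e (nat_lit 802560) (nat_lit 5) .nil))) (.g (nat_lit 0) (.e (nat_lit 371624) (nat_lit 0) .nil) .nil)))))) (.nd (nat_lit 7) (.nd (nat_lit 8) (.nd (nat_lit 9) 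
(.lf (nat_lit 577617) (.g (nat_lit 2197) (.e (nat_lit 336028) (nat_lit 3) (.e (nat_lit 98350) (nat_lit 24) (.e (nat_lit 409644) (nat_lit 18) (.e (nat_lit 303119) (nat_lit 3) (.e (nat_lit 204855) (nat_lit 26) .nil))))) (.g (nat_lit 0) (.e (nat_lit 369033) (nat_lit 0) .nil) .nil))) 
(.lf (nat_lit 578129) (.g (nat_lit 615) (.e (nat_lit 336129) (nat_lit 9) (.e (nat_lit 336027) (nat_lit 3) (.e (nat_lit 98349) (nat_lit 24) .nil))) (.g (nat_lit 0) (.e (nat_lit 370492) (nat_lit 0) .nil) .nil)))) (.nd (nat_lit 9) 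
(.lf (nat_lit 577873) (.g (nat_lit 3849) (.e (nat_lit 336075) (nat_lit 9) (.e (nat_lit 336454) (nat_lit 34) (.e (nat_lit 483364) (nat_lit 18) (.e (nat_lit 57931) (nat_lit 282) (.e (nat_lit 163874) (nat_lit 3) (.e (nat_lit 204861) (nat_lit 26) .nil)))))) (.g (nat_lit 1) (.e (nat_lit 369709) (nat_lit 0) .nil) .nil))) 
(.lf (nat_lit 578385) (.g (nat_lit 2548) (.e (nat_lit 336186) (nat_lit 11) (.e (nat_lit 368676) (nat_lit 21) (.e (nat_lit 516185) (nat_lit 16) (.e (nat_lit 491572) (nat_lit 14) (.e (nat_lit 401426) (nat_lit 3) (.e (nat_lit 204861) (nat_lit 26) .nil)))))) (.g (nat_lit 1) (.e (nat_lit 371304) (nat_lit 0) .nil) .nil))))) (.nd (nat_lit 8) (.nd (nat_lit 9) 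
(.lf (nat_lit 577745) (.g (nat_lit 1001) (.e (nat_lit 336049) (nat_lit 6) (.e (nat_lit 147503) (nat_lit 12) (.e (nat_lit 164056) (nat_lit 56) (.e (nat_lit 786457) (nat_lit 18) (.e (nat_lit 98381) (nat_lit 31) (.e (nat_lit 466954) (nat_lit 11) .nil)))))) (.g (nat_lit 1) (.e (nat_lit 369211) (nat_lit 0) .nil) .nil))) 
(.lf (nat_lit 578257) (.g (nat_lit 4850) (.e (nat_lit 336173) (nat_lit 10) (.e (nat_lit 344117) (nat_lit 21) (.e (nat_lit 516139) (nat_lit 7) (.e (nat_lit 409645) (nat_lit 18) (.e (nat_lit 303119) (nat_lit 3) (.e (nat_lit 204855) (nat_lit 26) .nil)))))) (.g (nat_lit 1) (.e (nat_lit 370891) (nat_lit 0) .nil) .nil)))) (.nd (nat_lit 9) 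
(.lf (nat_lit 578001) (.g (nat_lit 2234) (.e (nat_lit 336096) (nat_lit 9) (.e (nat_lit 336013) (nat_lit 2) (.e (nat_lit 90165) (nat_lit 12) (.e (nat_lit 164210) (nat_lit 176) .nil)))) (.g (nat_lit 0) (.e (nat_lit 370146) (nat_lit 0) .nil) .nil))) 
(.lf (nat_lit 578513) (.g (nat_lit 1592) (.e (nat_lit 336211) (nat_lit 13) (.e (nat_lit 393225) (nat_lit 9) (.e (nat_lit 335996) (nat_lit 1) (.e (nat_lit 57930) (nat_lit 282) .nil)))) (.g (nat_lit 0) (.e (nat_lit 371797) (nat_lit 0) .nil) .nil))))))) (.nd (nat_lit 6) (.nd (nat_lit 7) (.nd (nat_lit 8) (.nd (nat_lit 9) 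
(.lf (nat_lit 577585) (.g (nat_lit 4054) (.e (nat_lit 336027) (nat_lit 3) (.e (nat_lit 98384) (nat_lit 32) (.e (nat_lit 475199) (nat_lit 40) (.e (nat_lit 704589) (nat_lit 3) (.e (nat_lit 163979) (nat_lit 30) (.e (nat_lit 573482) (nat_lit 13) (.e (nat_lit 65607) (nat_lit 9) .nil))))))) (.g (nat_lit 1) (.e (nat_lit 368979) (nat_lit 0) .nil) .nil))) 
(.lf (nat_lit 578097) (.g (nat_lit 2339) (.e (nat_lit 336111) (nat_lit 9) (.e (nat_lit 336028) (nat_lit 3) (.e (nat_lit 98349) (nat_lit 24) (.e (nat_lit 409649) (nat_lit 18) (.e (nat_lit 303118) (nat_lit 3) .nil))))) (.g (nat_lit 0) (.e (nat_lit 370349) (nat_lit 0) .nil) .nil)))) (.nd (nat_lit 9) 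
(.lf (nat_lit 577841) (.g (nat_lit 2725) (.e (nat_lit 336075) (nat_lit 9) (.e (nat_lit 336324) (nat_lit 18) (.e (nat_lit 204837) (nat_lit 20) (.e (nat_lit 114697) (nat_lit 11) (.e (nat_lit 426138) (nat_lit 3) (.e (nat_lit 204861) (nat_lit 26) .nil)))))) (.g (nat_lit 1) (.e (nat_lit 369638) (nat_lit 0) .nil) .nil))) 
(.lf (nat_lit 578353) (.g (nat_lit 2754) (.e (nat_lit 336178) (nat_lit 10) (.e (nat_lit 344117) (nat_lit 21) (.e (nat_lit 516138) (nat_lit 7) (.e (nat_lit 409649) (nat_lit 18) (.e (nat_lit 303118) (nat_lit 3) (.e (nat_lit 204855) (nat_lit 26) .nil)))))) (.g (nat_lit 1) (.e (nat_lit 371210) (nat_lit 0) .nil) .nil))))) (.nd (nat_lit 8) (.nd (nat_lit 9) 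
(.lf (nat_lit 577713) (.g (nat_lit 1641) (.e (nat_lit 336029) (nat_lit 4) (.e (nat_lit 123182) (nat_lit 264) (.e (nat_lit 1183) (nat_lit 87) (.e (nat_lit 57478) (nat_lit 28) .nil)))) (.g (nat_lit 0) (.e (nat_lit 369153) (nat_lit 0) .nil) .nil))) 
(.lf (nat_lit 578225) (.g (nat_lit 3681) (.e (nat_lit 336160) (nat_lit 10) (.e (nat_lit 344119) (nat_lit 21) (.e (nat_lit 516139) (nat_lit 7) (.e (nat_lit 409648) (nat_lit 18) (.e (nat_lit 303118) (nat_lit 3) (.e (nat_lit 204852) (nat_lit 26) .nil)))))) (.g (nat_lit 1) (.e (nat_lit 370814) (nat_lit 0) .nil) .nil)))) (.nd (nat_lit 9) 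
(.lf (nat_lit 577969) (.g (nat_lit 2094) (.e (nat_lit 336088) (nat_lit 9) (.e (nat_lit 336240) (nat_lit 15) (.e (nat_lit 3248) (nat_lit 197) (.e (nat_lit 532504) (nat_lit 1) (.e (nat_lit 57851) (nat_lit 252) (.e (nat_lit 57446) (nat_lit 19) (.e (nat_lit 393229) (nat_lit 9) .nil))))))) (.g (nat_lit 1) (.e (nat_lit 370045) (nat_lit 0) .nil) .nil))) 
(.lf (nat_lit 578481) (.g (nat_lit 2732) (.e (nat_lit 336206) (nat_lit 12) (.e (nat_lit 385074) (nat_lit 31) (.e (nat_lit 573488) (nat_lit 14) (.e (nat_lit 73782) (nat_lit 32) (.e (nat_lit 2682) (nat_lit 168) (.e (nat_lit 204859) (nat_lit 26) .nil)))))) (.g (nat_lit 1) (.e (nat_lit 371708) (nat_lit 0) .nil) .nil)))))) (.nd (nat_lit 7) (.nd (nat_lit 8) (.nd (nat_lit 9) 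
(.lf (nat_lit 577649) (.g (nat_lit 3908) (.e (nat_lit 336028) (nat_lit 3) (.e (nat_lit 98350) (nat_lit 24) (.e (nat_lit 409649) (nat_lit 18) (.e (nat_lit 303119) (nat_lit 3) (.e (nat_lit 204855) (nat_lit 26) (.e (nat_lit 336073) (nat_lit 9) .nil)))))) (.g (nat_lit 1) (.e (nat_lit 369065) (nat_lit 0) .nil) .nil))) 
(.lf (nat_lit 578161) (.g (nat_lit 2090) (.e (nat_lit 336152) (nat_lit 9) (.e (nat_lit 336442) (nat_lit 32) (.e (nat_lit 466972) (nat_lit 21) (.e (nat_lit 164331) (nat_lit 230) (.e (nat_lit 163885) (nat_lit 5) (.e (nat_lit 221192) (nat_lit 11) .nil)))))) (.g (nat_lit 1) (.e (nat_lit 370621) (nat_lit 0) .nil) .nil)))) (.nd (nat_lit 9) 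
(.lf (nat_lit 577905) (.g (nat_lit 3521) (.e (nat_lit 336077) (nat_lit 9) (.e (nat_lit 336443) (nat_lit 32) (.e (nat_lit 466972) (nat_lit 21) (.e (nat_lit 164332) (nat_lit 230) (.e (nat_lit 163885) (nat_lit 5) (.e (nat_lit 221194) (nat_lit 11) .nil)))))) (.g (nat_lit 1) (.e (nat_lit 369811) (nat_lit 0) .nil) .nil))) 
(.lf (nat_lit 578417) (.g (nat_lit 3141) (.e (nat_lit 336199) (nat_lit 12) (.e (nat_lit 385074) (nat_lit 31) (.e (nat_lit 573484) (nat_lit 13) (.e (nat_lit 65617) (nat_lit 10) .nil)))) (.g (nat_lit 0) (.e (nat_lit 371512) (nat_lit 0) .nil) .nil))))) (.nd (nat_lit 8) (.nd (nat_lit 9) 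
(.lf (nat_lit 577777) (.g (nat_lit 1030) (.e (nat_lit 336060) (nat_lit 7) (.e (nat_lit 319505) (nat_lit 10) (.e (nat_lit 5714) (nat_lit 312) (.e (nat_lit 2608) (nat_lit 163) .nil)))) (.g (nat_lit 0) (.e (nat_lit 369441) (nat_lit 0) .nil) .nil))) 
(.lf (nat_lit 578289) (.g (nat_lit 723) (.e (nat_lit 336176) (nat_lit 10) (.e (nat_lit 344117) (nat_lit 21) (.e (nat_lit 516141) (nat_lit 8) .nil))) (.g (nat_lit 0) (.e (nat_lit 370989) (nat_lit 0) .nil) .nil)))) (.nd (nat_lit 9) 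
(.lf (nat_lit 578033) (.g (nat_lit 2194) (.e (nat_lit 336099) (nat_lit 9) (.e (nat_lit 336013) (nat_lit 2) (.e (nat_lit 90165) (nat_lit 12) (.e (nat_lit 164214) (nat_lit 176) .nil)))) (.g (nat_lit 0) (.e (nat_lit 370198) (nat_lit 0) .nil) .nil))) 
(.lf (nat_lit 578545) (.g (nat_lit 1304) (.e (nat_lit 336226) (nat_lit 14) (.e (nat_lit 401437) (nat_lit 9) (.e (nat_lit 426542) (nat_lit 29) (.e (nat_lit 352267) (nat_lit 0) .nil)))) (.g (nat_lit 0) (.e (nat_lit 371929) (nat_lit 0) .nil) .nil))))))))) (.nd (nat_lit 4) (.nd (nat_lit 5) (.nd (nat_lit 6) (.nd (nat_lit 7) (.nd (nat_lit 8) (.nd (nat_lit 9) 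
(.lf (nat_lit 577545) (.g (nat_lit 2769) (.e (nat_lit 336027) (nat_lit 3) (.e (nat_lit 98333) (nat_lit 18) (.e (nat_lit 164179) (nat_lit 154) (.e (nat_lit 57378) (nat_lit 3) (.e (nat_lit 98340) (nat_lit 20) .nil))))) (.g (nat_lit 0) (.e (nat_lit 368924) (nat_lit 0) .nil) .nil))) 
(.lf (nat_lit 578057) (.g (nat_lit 2326) (.e (nat_lit 336099) (nat_lit 9) (.e (nat_lit 336028) (nat_lit 3) (.e (nat_lit 98349) (nat_lit 24) (.e (nat_lit 409646) (nat_lit 18) (.e (nat_lit 303104) (nat_lit 0) (.e (nat_lit 7936) (nat_lit 197) (.e (nat_lit 532535) (nat_lit 9) .nil))))))) (.g (nat_lit 1) (.e (nat_lit 370244) (nat_lit 0) .nil) .nil)))) (.nd (nat_lit 9) 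
(.lf (nat_lit 577801) (.g (nat_lit 1874) (.e (nat_lit 336073) (nat_lit 9) (.e (nat_lit 336028) (nat_lit 3) (.e (nat_lit 98350) (nat_lit 24) (.e (nat_lit 409623) (nat_lit 10) .nil)))) (.g (nat_lit 0) (.e (nat_lit 369556) (nat_lit 0) .nil) .nil))) 
(.lf (nat_lit 578313) (.g (nat_lit 2691) (.e (nat_lit 336176) (nat_lit 10) (.e (nat_lit 344132) (nat_lit 26) (.e (nat_lit 557091) (nat_lit 12) (.e (nat_lit 164022) (nat_lit 46) (.e (nat_lit 704629) (nat_lit 9) .nil))))) (.g (nat_lit 0) (.e (nat_lit 371120) (nat_lit 0) .nil) .nil))))) (.nd (nat_lit 8) (.nd (nat_lit 9) 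
(.lf (nat_lit 577673) (.g (nat_lit 1483) (.e (nat_lit 343808) (nat_lit 3) (.e (nat_lit 98350) (nat_lit 24) (.e (nat_lit 409648) (nat_lit 18) (.e (nat_lit 303108) (nat_lit 0) .nil)))) (.g (nat_lit 0) (.e (nat_lit 369109) (nat_lit 0) .nil) .nil))) 
(.lf (nat_lit 578185) (.g (nat_lit 1158) (.e (nat_lit 336158) (nat_lit 9) (.e (nat_lit 335996) (nat_lit 1) (.e (nat_lit 57851) (nat_lit 252) (.e (nat_lit 57388) (nat_lit 5) .nil)))) (.g (nat_lit 0) (.e (nat_lit 370730) (nat_lit 0) .nil) .nil)))) (.nd (nat_lit 9) 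
(.lf (nat_lit 577929) (.g (nat_lit 3650) (.e (nat_lit 336082) (nat_lit 9) (.e (nat_lit 336454) (nat_lit 34) (.e (nat_lit 483365) (nat_lit 18) (.e (nat_lit 57853) (nat_lit 252) .nil)))) (.g (nat_lit 0) (.e (nat_lit 369913) (nat_lit 0) .nil) .nil))) 
(.lf (nat_lit 578441) (.g (nat_lit 2254) (.e (nat_lit 336204) (nat_lit 12) (.e (nat_lit 385074) (nat_lit 31) (.e (nat_lit 573487) (nat_lit 14) (.e (nat_lit 73781) (nat_lit 32) (.e (nat_lit 2682) (nat_lit 168) (.e (nat_lit 212736) (nat_lit 26) .nil)))))) (.g (nat_lit 1) (.e (nat_lit 371616) (nat_lit 0) .nil) .nil)))))) (.nd (nat_lit 7) (.nd (nat_lit 8) (.nd (nat_lit 9) 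
(.lf (nat_lit 577609) (.g (nat_lit 2977) (.e (nat_lit 336028) (nat_lit 3) (.e (nat_lit 98350) (nat_lit 24) (.e (nat_lit 409616) (nat_lit 10) (.e (nat_lit 5758) (nat_lit 315) (.e (nat_lit 163962) (nat_lit 25) (.e (nat_lit 532535) (nat_lit 9) (.e (nat_lit 336110) (nat_lit 9) .nil))))))) (.g (nat_lit 1) (.e (nat_lit 369017) (nat_lit 0) .nil) .nil))) 
(.lf (nat_lit 578121) (.g (nat_lit 4179) (.e (nat_lit 336114) (nat_lit 9) (.e (nat_lit 336454) (nat_lit 34) (.e (nat_lit 483365) (nat_lit 18) (.e (nat_lit 57931) (nat_lit 282) .nil)))) (.g (nat_lit 0) (.e (nat_lit 370411) (nat_lit 0) .nil) .nil)))) (.nd (nat_lit 9) 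
(.lf (nat_lit 577865) (.g (nat_lit 3268) (.e (nat_lit 336075) (nat_lit 9) (.e (nat_lit 336454) (nat_lit 34) (.e (nat_lit 483363) (nat_lit 18) (.e (nat_lit 57927) (nat_lit 282) (.e (nat_lit 163873) (nat_lit 3) (.e (nat_lit 204861) (nat_lit 26) .nil)))))) (.g (nat_lit 1) (.e (nat_lit 369701) (nat_lit 0) .nil) .nil))) 
(.lf (nat_lit 578377) (.g (nat_lit 3913) (.e (nat_lit 336186) (nat_lit 11) (.e (nat_lit 368676) (nat_lit 21) (.e (nat_lit 516138) (nat_lit 7) (.e (nat_lit 409646) (nat_lit 18) (.e (nat_lit 303119) (nat_lit 3) (.e (nat_lit 204861) (nat_lit 26) .nil)))))) (.g (nat_lit 1) (.e (nat_lit 371280) (nat_lit 0) .nil) .nil))))) (.nd (nat_lit 8) (.nd (nat_lit 9) 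
(.lf (nat_lit 577737) (.g (nat_lit 1772) (.e (nat_lit 336048) (nat_lit 6) (.e (nat_lit 147495) (nat_lit 11) (.e (nat_lit 24640) (nat_lit 10) (.e (nat_lit 344177) (nat_lit 43) .nil)))) (.g (nat_lit 0) (.e (nat_lit 369195) (nat_lit 0) .nil) .nil))) 
(.lf (nat_lit 578249) (.g (nat_lit 938) (.e (nat_lit 336171) (nat_lit 10) (.e (nat_lit 344133) (nat_lit 26) (.e (nat_lit 557087) (nat_lit 11) .nil))) (.g (nat_lit 0) (.e (nat_lit 370868) (nat_lit 0) .nil) .nil)))) (.nd (nat_lit 9) 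
(.lf (nat_lit 577993) (.g (nat_lit 2638) (.e (nat_lit 336097) (nat_lit 9) (.e (nat_lit 336028) (nat_lit 3) (.e (nat_lit 98350) (nat_lit 24) (.e (nat_lit 409644) (nat_lit 18) (.e (nat_lit 303119) (nat_lit 3) .nil))))) (.g (nat_lit 0) (.e (nat_lit 370135) (nat_lit 0) .nil) .nil))) 
(.lf (nat_lit 578505) (.g (nat_lit 860) (.e (nat_lit 336208) (nat_lit 12) (.e (nat_lit 385094) (nat_lit 49) (.e (nat_lit 778324) (nat_lit 5) (.e (nat_lit 81664) (nat_lit 32) .nil)))) (.g (nat_lit 0) (.e (nat_lit 371778) (nat_lit 0) .nil) .nil))))))) (.nd (nat_lit 6) (.nd (nat_lit 7) (.nd (nat_lit 8) (.nd (nat_lit 9) 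
(.lf (nat_lit 577577) (.g (nat_lit 2067) (.e (nat_lit 336027) (nat_lit 3) (.e (nat_lit 98384) (nat_lit 32) (.e (nat_lit 475198) (nat_lit 40) (.e (nat_lit 704589) (nat_lit 3) .nil)))) (.g (nat_lit 0) (.e (nat_lit 368971) (nat_lit 0) .nil) .nil))) 
(.lf (nat_lit 578089) (.g (nat_lit 1450) (.e (nat_lit 336110) (nat_lit 9) (.e (nat_lit 336028) (nat_lit 3) (.e (nat_lit 98350) (nat_lit 24) (.e (nat_lit 409617) (nat_lit 10) .nil)))) (.g (nat_lit 0) (.e (nat_lit 370338) (nat_lit 0) .nil) .nil)))) (.nd (nat_lit 9) 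
(.lf (nat_lit 577833) (.g (nat_lit 2487) (.e (nat_lit 336074) (nat_lit 9) (.e (nat_lit 336454) (nat_lit 34) (.e (nat_lit 483365) (nat_lit 18) (.e (nat_lit 57848) (nat_lit 252) .nil)))) (.g (nat_lit 0) (.e (nat_lit 369617) (nat_lit 0) .nil) .nil))) 
(.lf (nat_lit 578345) (.g (nat_lit 3511) (.e (nat_lit 336177) (nat_lit 10) (.e (nat_lit 344117) (nat_lit 21) (.e (nat_lit 516139) (nat_lit 7) (.e (nat_lit 409645) (nat_lit 18) (.e (nat_lit 303119) (nat_lit 3) (.e (nat_lit 204856) (nat_lit 26) .nil)))))) (.g (nat_lit 1) (.e (nat_lit 371194) (nat_lit 0) .nil) .nil))))) (.nd (nat_lit 8) (.nd (nat_lit 9) 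
(.lf (nat_lit 577705) (.g (nat_lit 3060) (.e (nat_lit 343808) (nat_lit 3) (.e (nat_lit 98373) (nat_lit 29) (.e (nat_lit 450588) (nat_lit 10) (.e (nat_lit 573475) (nat_lit 12) (.e (nat_lit 57351) (nat_lit 0) .nil))))) (.g (nat_lit 0) (.e (nat_lit 369143) (nat_lit 0) .nil) .nil))) 
(.lf (nat_lit 578217) (.g (nat_lit 1424) (.e (nat_lit 343808) (nat_lit 9) (.e (nat_lit 336324) (nat_lit 18) (.e (nat_lit 204838) (nat_lit 20) (.e (nat_lit 122624) (nat_lit 11) .nil)))) (.g (nat_lit 0) (.e (nat_lit 370806) (nat_lit 0) .nil) .nil)))) (.nd (nat_lit 9) 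
(.lf (nat_lit 577961) (.g (nat_lit 1087) (.e (nat_lit 336086) (nat_lit 9) (.e (nat_lit 336324) (nat_lit 18) (.e (nat_lit 204838) (nat_lit 20) (.e (nat_lit 122624) (nat_lit 11) .nil)))) (.g (nat_lit 0) (.e (nat_lit 370013) (nat_lit 0) .nil) .nil))) 
(.lf (nat_lit 578473) (.g (nat_lit 1350) (.e (nat_lit 336206) (nat_lit 12) (.e (nat_lit 385067) (nat_lit 26) (.e (nat_lit 532511) (nat_lit 2) (.e (nat_lit 106534) (nat_lit 11) (.e (nat_lit 16416) (nat_lit 3) (.e (nat_lit 204859) (nat_lit 26) .nil)))))) (.g (nat_lit 1) (.e (nat_lit 371676) (nat_lit 0) .nil) .nil)))))) (.nd (nat_lit 7) (.nd (nat_lit 8) (.nd (nat_lit 9) 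
(.lf (nat_lit 577641) (.g (nat_lit 1413) (.e (nat_lit 336028) (nat_lit 3) (.e (nat_lit 98350) (nat_lit 24) (.e (nat_lit 409649) (nat_lit 18) (.e (nat_lit 303104) (nat_lit 0) .nil)))) (.g (nat_lit 0) (.e (nat_lit 369057) (nat_lit 0) .nil) .nil))) 
(.lf (nat_lit 578153) (.g (nat_lit 1665) (.e (nat_lit 336152) (nat_lit 9) (.e (nat_lit 336442) (nat_lit 32) (.e (nat_lit 466969) (nat_lit 21) (.e (nat_lit 164325) (nat_lit 230) (.e (nat_lit 163886) (nat_lit 5) (.e (nat_lit 221192) (nat_lit 11) .nil)))))) (.g (nat_lit 1) (.e (nat_lit 370613) (nat_lit 0) .nil) .nil)))) (.nd (nat_lit 9) 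
(.lf (nat_lit 577897) (.g (nat_lit 2650) (.e (nat_lit 336077) (nat_lit 9) (.e (nat_lit 336443) (nat_lit 32) (.e (nat_lit 466969) (nat_lit 21) (.e (nat_lit 164327) (nat_lit 230) (.e (nat_lit 163886) (nat_lit 5) (.e (nat_lit 221194) (nat_lit 11) .nil)))))) (.g (nat_lit 1) (.e (nat_lit 369803) (nat_lit 0) .nil) .nil))) 
(.lf (nat_lit 578409) (.g (nat_lit 410) (.e (nat_lit 336198) (nat_lit 12) (.e (nat_lit 385068) (nat_lit 26) (.e (nat_lit 532513) (nat_lit 3) .nil))) (.g (nat_lit 0) (.e (nat_lit 371483) (nat_lit 0) .nil) .nil))))) (.nd (nat_lit 8) (.nd (nat_lit 9) 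
(.lf (nat_lit 577769) (.g (nat_lit 975) (.e (nat_lit 336058) (nat_lit 7) (.e (nat_lit 319531) (nat_lit 16) (.e (nat_lit 286731) (nat_lit 1) .nil))) (.g (nat_lit 0) (.e (nat_lit 369321) (nat_lit 0) .nil) .nil))) 
(.lf (nat_lit 578281) (.g (nat_lit 2476) (.e (nat_lit 336176) (nat_lit 10) (.e (nat_lit 344117) (nat_lit 21) (.e (nat_lit 516139) (nat_lit 7) (.e (nat_lit 409623) (nat_lit 10) .nil)))) (.g (nat_lit 0) (.e (nat_lit 370976) (nat_lit 0) .nil) .nil)))) (.nd (nat_lit 9) 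
(.lf (nat_lit 578025) (.g (nat_lit 4612) (.e (nat_lit 336099) (nat_lit 9) (.e (nat_lit 336013) (nat_lit 2) (.e (nat_lit 90134) (nat_lit 9) (.e (nat_lit 2828) (nat_lit 182) (.e (nat_lit 409646) (nat_lit 18) (.e (nat_lit 303117) (nat_lit 2) (.e (nat_lit 196630) (nat_lit 9) (.e (nat_lit 1453) (nat_lit 108) .nil)))))))) (.g (nat_lit 1) (.e (nat_lit 370189) (nat_lit 0) .nil) .nil))) 
(.lf (nat_lit 578537) (.g (nat_lit 1501) (.e (nat_lit 336225) (nat_lit 14) (.e (nat_lit 401459) (nat_lit 13) (.e (nat_lit 483344) (nat_lit 17) (.e (nat_lit 6696) (nat_lit 357) .nil)))) (.g (nat_lit 0) (.e (nat_lit 371893) (nat_lit 0) .nil) .nil)))))))) (.nd (nat_lit 5) (.nd (nat_lit 6) (.nd (nat_lit 7) (.nd (nat_lit 8) (.nd (nat_lit 9) 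
(.lf (nat_lit 577561) (.g (nat_lit 2592) (.e (nat_lit 336027) (nat_lit 3) (.e (nat_lit 98349) (nat_lit 24) (.e (nat_lit 409649) (nat_lit 18) (.e (nat_lit 303119) (nat_lit 3) (.e (nat_lit 204852) (nat_lit 26) .nil))))) (.g (nat_lit 0) (.e (nat_lit 368947) (nat_lit 0) .nil) .nil))) 
(.lf (nat_lit 578073) (.g (nat_lit 2562) (.e (nat_lit 336102) (nat_lit 9) (.e (nat_lit 336028) (nat_lit 3) (.e (nat_lit 98350) (nat_lit 24) (.e (nat_lit 409643) (nat_lit 18) (.e (nat_lit 303118) (nat_lit 3) .nil))))) (.g (nat_lit 0) (.e (nat_lit 370300) (nat_lit 0) .nil) .nil)))) (.nd (nat_lit 9) 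
(.lf (nat_lit 577817) (.g (nat_lit 2221) (.e (nat_lit 336074) (nat_lit 9) (.e (nat_lit 336443) (nat_lit 32) (.e (nat_lit 466969) (nat_lit 21) (.e (nat_lit 164324) (nat_lit 230) (.e (nat_lit 163885) (nat_lit 5) .nil))))) (.g (nat_lit 0) (.e (nat_lit 369601) (nat_lit 0) .nil) .nil))) 
(.lf (nat_lit 578329) (.g (nat_lit 2778) (.e (nat_lit 336176) (nat_lit 10) (.e (nat_lit 344133) (nat_lit 26) (.e (nat_lit 557087) (nat_lit 11) (.e (nat_lit 24591) (nat_lit 0) (.e (nat_lit 7936) (nat_lit 360) .nil))))) (.g (nat_lit 0) (.e (nat_lit 371159) (nat_lit 0) .nil) .nil))))) (.nd (nat_lit 8) (.nd (nat_lit 9) 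
(.lf (nat_lit 577689) (.g (nat_lit 3708) (.e (nat_lit 343808) (nat_lit 3) (.e (nat_lit 98373) (nat_lit 29) (.e (nat_lit 450587) (nat_lit 10) (.e (nat_lit 573475) (nat_lit 12) (.e (nat_lit 57351) (nat_lit 0) .nil))))) (.g (nat_lit 0) (.e (nat_lit 369127) (nat_lit 0) .nil) .nil))) 
(.lf (nat_lit 578201) (.g (nat_lit 2011) (.e (nat_lit 336159) (nat_lit 9) (.e (nat_lit 335996) (nat_lit 1) (.e (nat_lit 57854) (nat_lit 252) (.e (nat_lit 57389) (nat_lit 5) .nil)))) (.g (nat_lit 0) (.e (nat_lit 370760) (nat_lit 0) .nil) .nil)))) (.nd (nat_lit 9) 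
(.lf (nat_lit 577945) (.g (nat_lit 2523) (.e (nat_lit 336084) (nat_lit 9) (.e (nat_lit 336443) (nat_lit 32) (.e (nat_lit 466969) (nat_lit 21) (.e (nat_lit 164325) (nat_lit 230) (.e (nat_lit 163886) (nat_lit 5) (.e (nat_lit 221193) (nat_lit 11) .nil)))))) (.g (nat_lit 1) (.e (nat_lit 369965) (nat_lit 0) .nil) .nil))) 
(.lf (nat_lit 578457) (.g (nat_lit 1497) (.e (nat_lit 336205) (nat_lit 12) (.e (nat_lit 385074) (nat_lit 31) (.e (nat_lit 573484) (nat_lit 13) (.e (nat_lit 65617) (nat_lit 10) (.e (nat_lit 344133) (nat_lit 26) .nil))))) (.g (nat_lit 0) (.e (nat_lit 371647) (nat_lit 0) .nil) .nil)))))) (.nd (nat_lit 7) (.nd (nat_lit 8) (.nd (nat_lit 9) 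
(.lf (nat_lit 577625) (.g (nat_lit 3055) (.e (nat_lit 336028) (nat_lit 3) (.e (nat_lit 98350) (nat_lit 24) (.e (nat_lit 409646) (nat_lit 18) (.e (nat_lit 303117) (nat_lit 2) (.e (nat_lit 196665) (nat_lit 13) (.e (nat_lit 65597) (nat_lit 9) .nil)))))) (.g (nat_lit 1) (.e (nat_lit 369041) (nat_lit 0) .nil) .nil))) 
(.lf (nat_lit 578137) (.g (nat_lit 2686) (.e (nat_lit 336130) (nat_lit 9) (.e (nat_lit 336027) (nat_lit 3) (.e (nat_lit 98350) (nat_lit 24) (.e (nat_lit 409644) (nat_lit 18) (.e (nat_lit 303112) (nat_lit 0) .nil))))) (.g (nat_lit 0) (.e (nat_lit 370539) (nat_lit 0) .nil) .nil)))) (.nd (nat_lit 9) 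
(.lf (nat_lit 577881) (.g (nat_lit 3220) (.e (nat_lit 336076) (nat_lit 9) (.e (nat_lit 336366) (nat_lit 27) (.e (nat_lit 426499) (nat_lit 27) (.e (nat_lit 335986) (nat_lit 1) (.e (nat_lit 57927) (nat_lit 282) (.e (nat_lit 163873) (nat_lit 3) (.e (nat_lit 204861) (nat_lit 26) .nil))))))) (.g (nat_lit 1) (.e (nat_lit 369746) (nat_lit 0) .nil) .nil))) 
(.lf (nat_lit 578393) (.g (nat_lit 555) (.e (nat_lit 336194) (nat_lit 12) (.e (nat_lit 385068) (nat_lit 26) (.e (nat_lit 532484) (nat_lit 0) .nil))) (.g (nat_lit 0) (.e (nat_lit 371347) (nat_lit 0) .nil) .nil))))) (.nd (nat_lit 8) (.nd (nat_lit 9) 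
(.lf (nat_lit 577753) (.g (nat_lit 3868) (.e (nat_lit 336051) (nat_lit 6) (.e (nat_lit 147495) (nat_lit 11) (.e (nat_lit 24608) (nat_lit 3) (.e (nat_lit 98334) (nat_lit 18) (.e (nat_lit 164226) (nat_lit 181) (.e (nat_lit 2617) (nat_lit 164) (.e (nat_lit 172149) (nat_lit 27) .nil))))))) (.g (nat_lit 1) (.e (nat_lit 369226) (nat_lit 0) .nil) .nil))) 
(.lf (nat_lit 578265) (.g (nat_lit 3433) (.e (nat_lit 336173) (nat_lit 10) (.e (nat_lit 344126) (nat_lit 25) (.e (nat_lit 548889) (nat_lit 9) (.e (nat_lit 65628) (nat_lit 14) (.e (nat_lit 401411) (nat_lit 0) .nil))))) (.g (nat_lit 0) (.e (nat_lit 370920) (nat_lit 0) .nil) .nil)))) (.nd (nat_lit 9) 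
(.lf (nat_lit 578009) (.g (nat_lit 1172) (.e (nat_lit 336099) (nat_lit 9) (.e (nat_lit 336013) (nat_lit 2) (.e (nat_lit 90121) (nat_lit 9) .nil))) (.g (nat_lit 0) (.e (nat_lit 370167) (nat_lit 0) .nil) .nil))) 
(.lf (nat_lit 578521) (.g (nat_lit 2461) (.e (nat_lit 336213) (nat_lit 13) (.e (nat_lit 393221) (nat_lit 0) (.e (nat_lit 6216) (nat_lit 333) (.e (nat_lit 57883) (nat_lit 270) (.e (nat_lit 174) (nat_lit 12) (.e (nat_lit 204861) (nat_lit 26) .nil)))))) (.g (nat_lit 1) (.e (nat_lit 371820) (nat_lit 0) .nil) .nil))))))) (.nd (nat_lit 6) (.nd (nat_lit 7) (.nd (nat_lit 8) (.nd (nat_lit 9) 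
(.lf (nat_lit 577593) (.g (nat_lit 754) (.e (nat_lit 336028) (nat_lit 3) (.e (nat_lit 98334) (nat_lit 18) (.e (nat_lit 164183) (nat_lit 154) .nil))) (.g (nat_lit 0) (.e (nat_lit 368998) (nat_lit 0) .nil) .nil))) 
(.lf (nat_lit 578105) (.g (nat_lit 804) (.e (nat_lit 336104) (nat_lit 9) (.e (nat_lit 336013) (nat_lit 2) (.e (nat_lit 90165) (nat_lit 12) .nil))) (.g (nat_lit 0) (.e (nat_lit 370367) (nat_lit 0) .nil) .nil)))) (.nd (nat_lit 9) 
(.lf (nat_lit 577849) (.g (nat_lit 3431) (.e (nat_lit 336075) (nat_lit 9) (.e (nat_lit 336324) (nat_lit 18) (.e (nat_lit 204838) (nat_lit 20) (.e (nat_lit 114698) (nat_lit 11) (.e (nat_lit 426138) (nat_lit 3) (.e (nat_lit 204861) (nat_lit 26) .nil)))))) (.g (nat_lit 1) (.e (nat_lit 369646) (nat_lit 0) .nil) .nil))) 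
(.lf (nat_lit 578361) (.g (nat_lit 3788) (.e (nat_lit 336178) (nat_lit 10) (.e (nat_lit 344117) (nat_lit 21) (.e (nat_lit 516139) (nat_lit 7) (.e (nat_lit 409648) (nat_lit 18) (.e (nat_lit 303118) (nat_lit 3) (.e (nat_lit 204855) (nat_lit 26) .nil)))))) (.g (nat_lit 1) (.e (nat_lit 371220) (nat_lit 0) .nil) .nil))))) (.nd (nat_lit 8) (.nd (nat_lit 9) 
(.lf (nat_lit 577721) (.g (nat_lit 2580) (.e (nat_lit 336032) (nat_lit 4) (.e (nat_lit 123182) (nat_lit 264) (.e (nat_lit 1183) (nat_lit 87) (.e (nat_lit 57480) (nat_lit 28) (.e (nat_lit 557098) (nat_lit 13) .nil))))) (.g (nat_lit 0) (.e (nat_lit 369166) (nat_lit 0) .nil) .nil))) 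
(.lf (nat_lit 578233) (.g (nat_lit 3758) (.e (nat_lit 336163) (nat_lit 10) (.e (nat_lit 344117) (nat_lit 21) (.e (nat_lit 516139) (nat_lit 7) (.e (nat_lit 409644) (nat_lit 18) (.e (nat_lit 303119) (nat_lit 3) (.e (nat_lit 204855) (nat_lit 26) .nil)))))) (.g (nat_lit 1) (.e (nat_lit 370831) (nat_lit 0) .nil) .nil)))) (.nd (nat_lit 9) 
(.lf (nat_lit 577977) (.g (nat_lit 3682) (.e (nat_lit 336089) (nat_lit 9) (.e (nat_lit 336324) (nat_lit 18) (.e (nat_lit 204831) (nat_lit 18) (.e (nat_lit 57847) (nat_lit 252) .nil)))) (.g (nat_lit 0) (.e (nat_lit 370080) (nat_lit 0) .nil) .nil))) 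
(.lf (nat_lit 578489) (.g (nat_lit 687) (.e (nat_lit 336207) (nat_lit 12) (.e (nat_lit 385068) (nat_lit 26) (.e (nat_lit 532513) (nat_lit 3) .nil))) (.g (nat_lit 0) (.e (nat_lit 371721) (nat_lit 0) .nil) .nil)))))) (.nd (nat_lit 7) (.nd (nat_lit 8) (.nd (nat_lit 9) 
(.lf (nat_lit 577657) (.g (nat_lit 3740) (.e (nat_lit 336028) (nat_lit 3) (.e (nat_lit 98367) (nat_lit 27) (.e (nat_lit 434271) (nat_lit 38) (.e (nat_lit 655375) (nat_lit 3) (.e (nat_lit 163978) (nat_lit 30) (.e (nat_lit 573481) (nat_lit 13) (.e (nat_lit 65604) (nat_lit 9) .nil))))))) (.g (nat_lit 1) (.e (nat_lit 369088) (nat_lit 0) .nil) .nil))) 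
(.lf (nat_lit 578169) (.g (nat_lit 1715) (.e (nat_lit 336158) (nat_lit 9) (.e (nat_lit 335986) (nat_lit 1) (.e (nat_lit 57847) (nat_lit 252) (.e (nat_lit 57348) (nat_lit 0) .nil)))) (.g (nat_lit 0) (.e (nat_lit 370691) (nat_lit 0) .nil) .nil)))) (.nd (nat_lit 9) 
(.lf (nat_lit 577913) (.g (nat_lit 1277) (.e (nat_lit 336078) (nat_lit 9) (.e (nat_lit 336324) (nat_lit 18) (.e (nat_lit 204831) (nat_lit 18) (.e (nat_lit 57849) (nat_lit 252) .nil)))) (.g (nat_lit 0) (.e (nat_lit 369838) (nat_lit 0) .nil) .nil))) 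
(.lf (nat_lit 578425) (.g (nat_lit 2176) (.e (nat_lit 336200) (nat_lit 12) (.e (nat_lit 385074) (nat_lit 31) (.e (nat_lit 573491) (nat_lit 15) (.e (nat_lit 81946) (nat_lit 20) .nil)))) (.g (nat_lit 0) (.e (nat_lit 371549) (nat_lit 0) .nil) .nil))))) (.nd (nat_lit 8) (.nd (nat_lit 9) 
(.lf (nat_lit 577785) (.g (nat_lit 1048) (.e (nat_lit 336060) (nat_lit 7) (.e (nat_lit 319534) (nat_lit 16) (.e (nat_lit 286731) (nat_lit 1) (.e (nat_lit 57687) (nat_lit 156) .nil)))) (.g (nat_lit 0) (.e (nat_lit 369472) (nat_lit 0) .nil) .nil))) 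
(.lf (nat_lit 578297) (.g (nat_lit 2171) (.e (nat_lit 336176) (nat_lit 10) (.e (nat_lit 344127) (nat_lit 26) (.e (nat_lit 557090) (nat_lit 12) (.e (nat_lit 164019) (nat_lit 45) .nil)))) (.g (nat_lit 0) (.e (nat_lit 371030) (nat_lit 0) .nil) .nil)))) (.nd (nat_lit 9) 
(.lf (nat_lit 578041) (.g (nat_lit 4957) (.e (nat_lit 336099) (nat_lit 9) (.e (nat_lit 336013) (nat_lit 2) (.e (nat_lit 90170) (nat_lit 13) (.e (nat_lit 172043) (nat_lit 0) .nil)))) (.g (nat_lit 0) (.e (nat_lit 370209) (nat_lit 0) .nil) .nil))) 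
(.lf (nat_lit 578553) (.g (nat_lit 1524) (.e (nat_lit 336226) (nat_lit 14) (.e (nat_lit 401457) (nat_lit 13) (.e (nat_lit 483410) (nat_lit 27) (.e (nat_lit 401438) (nat_lit 9) .nil)))) (.g (nat_lit 0) (.e (nat_lit 371957) (nat_lit 0) .nil) .nil)))))))))) (.nd (nat_lit 3) (.nd (nat_lit 4) (.nd (nat_lit 5) (.nd (nat_lit 6) (.nd (nat_lit 7) (.nd (nat_lit 8) (.nd (nat_lit 9) 
(.lf (nat_lit 577541) (.g (nat_lit 2597) (.e (nat_lit 336026) (nat_lit 3) (.e (nat_lit 98363) (nat_lit 26) (.e (nat_lit 426318) (nat_lit 12) (.e (nat_lit 475179) (nat_lit 24) (.e (nat_lit 516129) (nat_lit 3) (.e (nat_lit 221194) (nat_lit 11) .nil)))))) (.g (nat_lit 1) (.e (nat_lit 368918) (nat_lit 0) .nil) .nil))) 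
(.lf (nat_lit 578053) (.g (nat_lit 978) (.e (nat_lit 336099) (nat_lit 9) (.e (nat_lit 336013) (nat_lit 2) (.e (nat_lit 90202) (nat_lit 21) .nil))) (.g (nat_lit 0) (.e (nat_lit 370237) (nat_lit 0) .nil) .nil)))) (.nd (nat_lit 9) 
(.lf (nat_lit 577797) (.g (nat_lit 1741) (.e (nat_lit 336073) (nat_lit 9) (.e (nat_lit 336019) (nat_lit 3) (.e (nat_lit 98350) (nat_lit 24) (.e (nat_lit 409616) (nat_lit 10) .nil)))) (.g (nat_lit 0) (.e (nat_lit 369538) (nat_lit 0) .nil) .nil))) 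
(.lf (nat_lit 578309) (.g (nat_lit 2155) (.e (nat_lit 336176) (nat_lit 10) (.e (nat_lit 344132) (nat_lit 26) (.e (nat_lit 557072) (nat_lit 9) (.e (nat_lit 214) (nat_lit 19) (.e (nat_lit 319492) (nat_lit 0) .nil))))) (.g (nat_lit 0) (.e (nat_lit 371102) (nat_lit 0) .nil) .nil))))) (.nd (nat_lit 8) (.nd (nat_lit 9) 
(.lf (nat_lit 577669) (.g (nat_lit 1899) (.e (nat_lit 343808) (nat_lit 3) (.e (nat_lit 98350) (nat_lit 24) (.e (nat_lit 409645) (nat_lit 18) (.e (nat_lit 303117) (nat_lit 2) .nil)))) (.g (nat_lit 0) (.e (nat_lit 369105) (nat_lit 0) .nil) .nil))) 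
(.lf (nat_lit 578181) (.g (nat_lit 824) (.e (nat_lit 336158) (nat_lit 9) (.e (nat_lit 335988) (nat_lit 1) (.e (nat_lit 57853) (nat_lit 252) .nil))) (.g (nat_lit 0) (.e (nat_lit 370718) (nat_lit 0) .nil) .nil)))) (.nd (nat_lit 9) 
(.lf (nat_lit 577925) (.g (nat_lit 4028) (.e (nat_lit 336082) (nat_lit 9) (.e (nat_lit 336454) (nat_lit 34) (.e (nat_lit 483365) (nat_lit 18) (.e (nat_lit 57846) (nat_lit 252) .nil)))) (.g (nat_lit 0) (.e (nat_lit 369909) (nat_lit 0) .nil) .nil))) 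
(.lf (nat_lit 578437) (.g (nat_lit 1856) (.e (nat_lit 336203) (nat_lit 12) (.e (nat_lit 385102) (nat_lit 50) (.e (nat_lit 786483) (nat_lit 30) (.e (nat_lit 360451) (nat_lit 0) (.e (nat_lit 4847) (nat_lit 285) (.e (nat_lit 164088) (nat_lit 73) .nil)))))) (.g (nat_lit 1) (.e (nat_lit 371599) (nat_lit 0) .nil) .nil)))))) (.nd (nat_lit 7) (.nd (nat_lit 8) (.nd (nat_lit 9) 
(.lf (nat_lit 577605) (.g (nat_lit 1018) (.e (nat_lit 336028) (nat_lit 3) (.e (nat_lit 98349) (nat_lit 24) (.e (nat_lit 409648) (nat_lit 18) (.e (nat_lit 303117) (nat_lit 2) .nil)))) (.g (nat_lit 0) (.e (nat_lit 369010) (nat_lit 0) .nil) .nil))) 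
(.lf (nat_lit 578117) (.g (nat_lit 1102) (.e (nat_lit 336113) (nat_lit 9) (.e (nat_lit 336430) (nat_lit 29) (.e (nat_lit 442419) (nat_lit 21) (.e (nat_lit 164327) (nat_lit 230) .nil)))) (.g (nat_lit 0) (.e (nat_lit 370399) (nat_lit 0) .nil) .nil)))) (.nd (nat_lit 9) 
(.lf (nat_lit 577861) (.g (nat_lit 4049) (.e (nat_lit 336075) (nat_lit 9) (.e (nat_lit 336443) (nat_lit 32) (.e (nat_lit 466972) (nat_lit 21) (.e (nat_lit 164331) (nat_lit 230) (.e (nat_lit 163884) (nat_lit 5) (.e (nat_lit 221194) (nat_lit 11) .nil)))))) (.g (nat_lit 1) (.e (nat_lit 369693) (nat_lit 0) .nil) .nil))) 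
(.lf (nat_lit 578373) (.g (nat_lit 919) (.e (nat_lit 336186) (nat_lit 11) (.e (nat_lit 368676) (nat_lit 21) (.e (nat_lit 516096) (nat_lit 0) .nil))) (.g (nat_lit 0) (.e (nat_lit 371268) (nat_lit 0) .nil) .nil))))) (.nd (nat_lit 8) (.nd (nat_lit 9) 
(.lf (nat_lit 577733) (.g (nat_lit 2724) (.e (nat_lit 343808) (nat_lit 4) (.e (nat_lit 123182) (nat_lit 264) (.e (nat_lit 1183) (nat_lit 87) (.e (nat_lit 57480) (nat_lit 28) (.e (nat_lit 557107) (nat_lit 15) .nil))))) (.g (nat_lit 0) (.e (nat_lit 369184) (nat_lit 0) .nil) .nil))) 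
(.lf (nat_lit 578245) (.g (nat_lit 3214) (.e (nat_lit 336164) (nat_lit 10) (.e (nat_lit 344117) (nat_lit 21) (.e (nat_lit 516139) (nat_lit 7) (.e (nat_lit 409646) (nat_lit 18) (.e (nat_lit 303119) (nat_lit 3) .nil))))) (.g (nat_lit 0) (.e (nat_lit 370851) (nat_lit 0) .nil) .nil)))) (.nd (nat_lit 9) 
(.lf (nat_lit 577989) (.g (nat_lit 2789) (.e (nat_lit 336097) (nat_lit 9) (.e (nat_lit 336020) (nat_lit 3) (.e (nat_lit 98350) (nat_lit 24) (.e (nat_lit 409645) (nat_lit 18) (.e (nat_lit 303119) (nat_lit 3) .nil))))) (.g (nat_lit 0) (.e (nat_lit 370123) (nat_lit 0) .nil) .nil))) 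
(.lf (nat_lit 578501) (.g (nat_lit 1454) (.e (nat_lit 336208) (nat_lit 12) (.e (nat_lit 385074) (nat_lit 31) (.e (nat_lit 573491) (nat_lit 15) (.e (nat_lit 81946) (nat_lit 20) .nil)))) (.g (nat_lit 0) (.e (nat_lit 371768) (nat_lit 0) .nil) .nil))))))) (.nd (nat_lit 6) (.nd (nat_lit 7) (.nd (nat_lit 8) (.nd (nat_lit 9) 
(.lf (nat_lit 577573) (.g (nat_lit 2439) (.e (nat_lit 336027) (nat_lit 3) (.e (nat_lit 98367) (nat_lit 27) (.e (nat_lit 434272) (nat_lit 38) (.e (nat_lit 655375) (nat_lit 3) (.e (nat_lit 163978) (nat_lit 30) .nil))))) (.g (nat_lit 0) (.e (nat_lit 368967) (nat_lit 0) .nil) .nil))) 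
(.lf (nat_lit 578085) (.g (nat_lit 2522) (.e (nat_lit 336101) (nat_lit 9) (.e (nat_lit 336028) (nat_lit 3) (.e (nat_lit 98350) (nat_lit 24) (.e (nat_lit 409649) (nat_lit 18) (.e (nat_lit 303118) (nat_lit 3) .nil))))) (.g (nat_lit 0) (.e (nat_lit 370330) (nat_lit 0) .nil) .nil)))) (.nd (nat_lit 9) 
(.lf (nat_lit 577829) (.g (nat_lit 806) (.e (nat_lit 336074) (nat_lit 9) (.e (nat_lit 336443) (nat_lit 32) (.e (nat_lit 466972) (nat_lit 21) .nil))) (.g (nat_lit 0) (.e (nat_lit 369613) (nat_lit 0) .nil) .nil))) 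
(.lf (nat_lit 578341) (.g (nat_lit 2441) (.e (nat_lit 336175) (nat_lit 10) (.e (nat_lit 344130) (nat_lit 26) (.e (nat_lit 557087) (nat_lit 11) (.e (nat_lit 24617) (nat_lit 7) (.e (nat_lit 319505) (nat_lit 10) (.e (nat_lit 7936) (nat_lit 45) (.e (nat_lit 532527) (nat_lit 9) .nil))))))) (.g (nat_lit 1) (.e (nat_lit 371188) (nat_lit 0) .nil) .nil))))) (.nd (nat_lit 8) (.nd (nat_lit 9) 
(.lf (nat_lit 577701) (.g (nat_lit 3586) (.e (nat_lit 343808) (nat_lit 3) (.e (nat_lit 98373) (nat_lit 29) (.e (nat_lit 450588) (nat_lit 10) (.e (nat_lit 573473) (nat_lit 12) (.e (nat_lit 57569) (nat_lit 53) .nil))))) (.g (nat_lit 0) (.e (nat_lit 369139) (nat_lit 0) .nil) .nil))) 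
(.lf (nat_lit 578213) (.g (nat_lit 2155) (.e (nat_lit 343808) (nat_lit 9) (.e (nat_lit 336324) (nat_lit 18) (.e (nat_lit 204837) (nat_lit 20) (.e (nat_lit 114698) (nat_lit 11) (.e (nat_lit 426138) (nat_lit 3) .nil))))) (.g (nat_lit 0) (.e (nat_lit 370802) (nat_lit 0) .nil) .nil)))) (.nd (nat_lit 9) 
(.lf (nat_lit 577957) (.g (nat_lit 3002) (.e (nat_lit 336084) (nat_lit 9) (.e (nat_lit 336443) (nat_lit 32) (.e (nat_lit 466972) (nat_lit 21) (.e (nat_lit 164332) (nat_lit 230) (.e (nat_lit 163884) (nat_lit 5) (.e (nat_lit 221193) (nat_lit 11) .nil)))))) (.g (nat_lit 1) (.e (nat_lit 369977) (nat_lit 0) .nil) .nil))) 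
(.lf (nat_lit 578469) (.g (nat_lit 1047) (.e (nat_lit 336205) (nat_lit 12) (.e (nat_lit 385109) (nat_lit 51) (.e (nat_lit 802560) (nat_lit 5) .nil))) (.g (nat_lit 0) (.e (nat_lit 371665) (nat_lit 0) .nil) .nil)))))) (.nd (nat_lit 7) (.nd (nat_lit 8) (.nd (nat_lit 9) 
(.lf (nat_lit 577637) (.g (nat_lit 3414) (.e (nat_lit 336028) (nat_lit 3) (.e (nat_lit 98350) (nat_lit 24) (.e (nat_lit 409648) (nat_lit 18) (.e (nat_lit 303118) (nat_lit 3) (.e (nat_lit 204855) (nat_lit 26) (.e (nat_lit 336097) (nat_lit 9) .nil)))))) (.g (nat_lit 1) (.e (nat_lit 369053) (nat_lit 0) .nil) .nil))) 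
(.lf (nat_lit 578149) (.g (nat_lit 2806) (.e (nat_lit 336151) (nat_lit 9) (.e (nat_lit 336300) (nat_lit 15) (.e (nat_lit 3253) (nat_lit 197) (.e (nat_lit 532503) (nat_lit 1) (.e (nat_lit 57848) (nat_lit 252) (.e (nat_lit 57445) (nat_lit 19) (.e (nat_lit 393227) (nat_lit 9) .nil))))))) (.g (nat_lit 1) (.e (nat_lit 370598) (nat_lit 0) .nil) .nil)))) (.nd (nat_lit 9) 
(.lf (nat_lit 577893) (.g (nat_lit 2500) (.e (nat_lit 336077) (nat_lit 9) (.e (nat_lit 336443) (nat_lit 32) (.e (nat_lit 466968) (nat_lit 21) (.e (nat_lit 164332) (nat_lit 230) (.e (nat_lit 163885) (nat_lit 5) (.e (nat_lit 221194) (nat_lit 11) .nil)))))) (.g (nat_lit 1) (.e (nat_lit 369799) (nat_lit 0) .nil) .nil))) 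
(.lf (nat_lit 578405) (.g (nat_lit 2455) (.e (nat_lit 336197) (nat_lit 12) (.e (nat_lit 385074) (nat_lit 31) (.e (nat_lit 573484) (nat_lit 13) (.e (nat_lit 65617) (nat_lit 10) .nil)))) (.g (nat_lit 0) (.e (nat_lit 371472) (nat_lit 0) .nil) .nil))))) (.nd (nat_lit 8) (.nd (nat_lit 9) 
(.lf (nat_lit 577765) (.g (nat_lit 2445) (.e (nat_lit 336057) (nat_lit 7) (.e (nat_lit 319530) (nat_lit 16) (.e (nat_lit 286731) (nat_lit 1) (.e (nat_lit 57687) (nat_lit 156) (.e (nat_lit 163933) (nat_lit 17) (.e (nat_lit 474880) (nat_lit 11) .nil)))))) (.g (nat_lit 1) (.e (nat_lit 369302) (nat_lit 0) .nil) .nil))) 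
(.lf (nat_lit 578277) (.g (nat_lit 3076) (.e (nat_lit 336176) (nat_lit 10) (.e (nat_lit 344117) (nat_lit 21) (.e (nat_lit 516139) (nat_lit 7) (.e (nat_lit 409612) (nat_lit 10) .nil)))) (.g (nat_lit 0) (.e (nat_lit 370956) (nat_lit 0) .nil) .nil)))) (.nd (nat_lit 9) 
(.lf (nat_lit 578021) (.g (nat_lit 2650) (.e (nat_lit 336099) (nat_lit 9) (.e (nat_lit 336013) (nat_lit 2) (.e (nat_lit 90134) (nat_lit 9) (.e (nat_lit 2825) (nat_lit 182) .nil)))) (.g (nat_lit 0) (.e (nat_lit 370185) (nat_lit 0) .nil) .nil))) 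
(.lf (nat_lit 578533) (.g (nat_lit 2261) (.e (nat_lit 336225) (nat_lit 14) (.e (nat_lit 401425) (nat_lit 2) (.e (nat_lit 196666) (nat_lit 13) (.e (nat_lit 65628) (nat_lit 14) .nil)))) (.g (nat_lit 0) (.e (nat_lit 371884) (nat_lit 0) .nil) .nil)))))))) (.nd (nat_lit 5) (.nd (nat_lit 6) (.nd (nat_lit 7) (.nd (nat_lit 8) (.nd (nat_lit 9) 
(.lf (nat_lit 577557) (.g (nat_lit 4303) (.e (nat_lit 336027) (nat_lit 3) (.e (nat_lit 98349) (nat_lit 24) (.e (nat_lit 409646) (nat_lit 18) (.e (nat_lit 303119) (nat_lit 3) (.e (nat_lit 204852) (nat_lit 26) (.e (nat_lit 336129) (nat_lit 9) .nil)))))) (.g (nat_lit 1) (.e (nat_lit 368943) (nat_lit 0) .nil) .nil))) 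
(.lf (nat_lit 578069) (.g (nat_lit 2867) (.e (nat_lit 336102) (nat_lit 9) (.e (nat_lit 336028) (nat_lit 3) (.e (nat_lit 98349) (nat_lit 24) (.e (nat_lit 409645) (nat_lit 18) (.e (nat_lit 303118) (nat_lit 3) .nil))))) (.g (nat_lit 0) (.e (nat_lit 370287) (nat_lit 0) .nil) .nil)))) (.nd (nat_lit 9) 
(.lf (nat_lit 577813) (.g (nat_lit 2481) (.e (nat_lit 336074) (nat_lit 9) (.e (nat_lit 336324) (nat_lit 18) (.e (nat_lit 204837) (nat_lit 20) (.e (nat_lit 114698) (nat_lit 11) (.e (nat_lit 426137) (nat_lit 3) .nil))))) (.g (nat_lit 0) (.e (nat_lit 369580) (nat_lit 0) .nil) .nil))) 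
(.lf (nat_lit 578325) (.g (nat_lit 2284) (.e (nat_lit 336176) (nat_lit 10) (.e (nat_lit 344133) (nat_lit 26) (.e (nat_lit 557087) (nat_lit 11) (.e (nat_lit 24587) (nat_lit 0) .nil)))) (.g (nat_lit 0) (.e (nat_lit 371152) (nat_lit 0) .nil) .nil))))) (.nd (nat_lit 8) (.nd (nat_lit 9) 
(.lf (nat_lit 577685) (.g (nat_lit 2844) (.e (nat_lit 343808) (nat_lit 3) (.e (nat_lit 98373) (nat_lit 29) (.e (nat_lit 450587) (nat_lit 10) (.e (nat_lit 573473) (nat_lit 12) (.e (nat_lit 57354) (nat_lit 0) .nil))))) (.g (nat_lit 0) (.e (nat_lit 369123) (nat_lit 0) .nil) .nil))) 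
(.lf (nat_lit 578197) (.g (nat_lit 862) (.e (nat_lit 336158) (nat_lit 9) (.e (nat_lit 336021) (nat_lit 3) (.e (nat_lit 98317) (nat_lit 9) .nil))) (.g (nat_lit 0) (.e (nat_lit 370749) (nat_lit 0) .nil) .nil)))) (.nd (nat_lit 9) 
(.lf (nat_lit 577941) (.g (nat_lit 1412) (.e (nat_lit 336084) (nat_lit 9) (.e (nat_lit 336430) (nat_lit 29) (.e (nat_lit 442419) (nat_lit 21) (.e (nat_lit 164322) (nat_lit 230) .nil)))) (.g (nat_lit 0) (.e (nat_lit 369961) (nat_lit 0) .nil) .nil))) 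
(.lf (nat_lit 578453) (.g (nat_lit 1355) (.e (nat_lit 336205) (nat_lit 12) (.e (nat_lit 385068) (nat_lit 26) (.e (nat_lit 532515) (nat_lit 3) (.e (nat_lit 114694) (nat_lit 11) .nil)))) (.g (nat_lit 0) (.e (nat_lit 371638) (nat_lit 0) .nil) .nil)))))) (.nd (nat_lit 7) (.nd (nat_lit 8) (.nd (nat_lit 9) 
(.lf (nat_lit 577621) (.g (nat_lit 2345) (.e (nat_lit 336028) (nat_lit 3) (.e (nat_lit 98350) (nat_lit 24) (.e (nat_lit 409645) (nat_lit 18) (.e (nat_lit 303118) (nat_lit 3) (.e (nat_lit 204855) (nat_lit 26) .nil))))) (.g (nat_lit 0) (.e (nat_lit 369037) (nat_lit 0) .nil) .nil))) 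
(.lf (nat_lit 578133) (.g (nat_lit 2715) (.e (nat_lit 336130) (nat_lit 9) (.e (nat_lit 336026) (nat_lit 3) (.e (nat_lit 98350) (nat_lit 24) (.e (nat_lit 409645) (nat_lit 18) (.e (nat_lit 303119) (nat_lit 3) .nil))))) (.g (nat_lit 0) (.e (nat_lit 370525) (nat_lit 0) .nil) .nil)))) (.nd (nat_lit 9) 
(.lf (nat_lit 577877) (.g (nat_lit 2619) (.e (nat_lit 336075) (nat_lit 9) (.e (nat_lit 336454) (nat_lit 34) (.e (nat_lit 483366) (nat_lit 18) (.e (nat_lit 57929) (nat_lit 282) (.e (nat_lit 163873) (nat_lit 3) (.e (nat_lit 204861) (nat_lit 26) .nil)))))) (.g (nat_lit 1) (.e (nat_lit 369719) (nat_lit 0) .nil) .nil))) 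
(.lf (nat_lit 578389) (.g (nat_lit 1081) (.e (nat_lit 336187) (nat_lit 11) (.e (nat_lit 368676) (nat_lit 21) (.e (nat_lit 524032) (nat_lit 27) .nil))) (.g (nat_lit 0) (.e (nat_lit 371314) (nat_lit 0) .nil) .nil))))) (.nd (nat_lit 8) (.nd (nat_lit 9) 
(.lf (nat_lit 577749) (.g (nat_lit 980) (.e (nat_lit 336049) (nat_lit 6) (.e (nat_lit 147504) (nat_lit 12) (.e (nat_lit 164058) (nat_lit 56) (.e (nat_lit 786457) (nat_lit 18) (.e (nat_lit 98381) (nat_lit 31) (.e (nat_lit 466954) (nat_lit 11) .nil)))))) (.g (nat_lit 1) (.e (nat_lit 369215) (nat_lit 0) .nil) .nil))) 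
(.lf (nat_lit 578261) (.g (nat_lit 3708) (.e (nat_lit 336173) (nat_lit 10) (.e (nat_lit 344117) (nat_lit 21) (.e (nat_lit 516139) (nat_lit 7) (.e (nat_lit 409649) (nat_lit 18) (.e (nat_lit 303118) (nat_lit 3) (.e (nat_lit 204855) (nat_lit 26) .nil)))))) (.g (nat_lit 1) (.e (nat_lit 370895) (nat_lit 0) .nil) .nil)))) (.nd (nat_lit 9) 
(.lf (nat_lit 578005) (.g (nat_lit 3583) (.e (nat_lit 336099) (nat_lit 9) (.e (nat_lit 335924) (nat_lit 0) (.e (nat_lit 1848) (nat_lit 124) (.e (nat_lit 557087) (nat_lit 11) (.e (nat_lit 24617) (nat_lit 7) (.e (nat_lit 319505) (nat_lit 10) (.e (nat_lit 7936) (nat_lit 45) (.e (nat_lit 532535) (nat_lit 9) .nil)))))))) (.g (nat_lit 1) (.e (nat_lit 370162) (nat_lit 0) .nil) .nil))) 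
(.lf (nat_lit 578517) (.g (nat_lit 1580) (.e (nat_lit 336212) (nat_lit 13) (.e (nat_lit 393251) (nat_lit 18) (.e (nat_lit 164182) (nat_lit 154) (.e (nat_lit 57410) (nat_lit 12) .nil)))) (.g (nat_lit 0) (.e (nat_lit 371813) (nat_lit 0) .nil) .nil))))))) (.nd (nat_lit 6) (.nd (nat_lit 7) (.nd (nat_lit 8) (.nd (nat_lit 9) 
(.lf (nat_lit 577589) (.g (nat_lit 1714) (.e (nat_lit 336028) (nat_lit 3) (.e (nat_lit 106240) (nat_lit 10) (.e (nat_lit 344161) (nat_lit 37) (.e (nat_lit 647183) (nat_lit 4) (.e (nat_lit 172147) (nat_lit 27) (.e (nat_lit 336073) (nat_lit 9) .nil)))))) (.g (nat_lit 1) (.e (nat_lit 368993) (nat_lit 0) .nil) .nil))) 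
(.lf (nat_lit 578101) (.g (nat_lit 2336) (.e (nat_lit 336111) (nat_lit 9) (.e (nat_lit 336028) (nat_lit 3) (.e (nat_lit 98350) (nat_lit 24) (.e (nat_lit 409643) (nat_lit 18) (.e (nat_lit 303118) (nat_lit 3) .nil))))) (.g (nat_lit 0) (.e (nat_lit 370356) (nat_lit 0) .nil) .nil)))) (.nd (nat_lit 9) 
(.lf (nat_lit 577845) (.g (nat_lit 3966) (.e (nat_lit 336075) (nat_lit 9) (.e (nat_lit 336324) (nat_lit 18) (.e (nat_lit 204837) (nat_lit 20) (.e (nat_lit 114698) (nat_lit 11) (.e (nat_lit 426139) (nat_lit 3) (.e (nat_lit 204861) (nat_lit 26) .nil)))))) (.g (nat_lit 1) (.e (nat_lit 369642) (nat_lit 0) .nil) .nil))) 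
(.lf (nat_lit 578357) (.g (nat_lit 3933) (.e (nat_lit 336178) (nat_lit 10) (.e (nat_lit 344117) (nat_lit 21) (.e (nat_lit 516139) (nat_lit 7) (.e (nat_lit 409644) (nat_lit 18) (.e (nat_lit 303119) (nat_lit 3) (.e (nat_lit 204855) (nat_lit 26) .nil)))))) (.g (nat_lit 1) (.e (nat_lit 371216) (nat_lit 0) .nil) .nil))))) (.nd (nat_lit 8) (.nd (nat_lit 9) 
(.lf (nat_lit 577717) (.g (nat_lit 2940) (.e (nat_lit 336031) (nat_lit 4) (.e (nat_lit 123182) (nat_lit 264) (.e (nat_lit 1183) (nat_lit 87) (.e (nat_lit 57479) (nat_lit 28) (.e (nat_lit 557100) (nat_lit 13) .nil))))) (.g (nat_lit 0) (.e (nat_lit 369161) (nat_lit 0) .nil) .nil))) 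
(.lf (nat_lit 578229) (.g (nat_lit 2228) (.e (nat_lit 336161) (nat_lit 10) (.e (nat_lit 344133) (nat_lit 26) (.e (nat_lit 557087) (nat_lit 11) (.e (nat_lit 24665) (nat_lit 14) .nil)))) (.g (nat_lit 0) (.e (nat_lit 370819) (nat_lit 0) .nil) .nil)))) (.nd (nat_lit 9) 
(.lf (nat_lit 577973) (.g (nat_lit 310) (.e (nat_lit 336088) (nat_lit 9) (.e (nat_lit 336336) (nat_lit 20) (.e (nat_lit 229120) (nat_lit 5) .nil))) (.g (nat_lit 0) (.e (nat_lit 370062) (nat_lit 0) .nil) .nil))) 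
(.lf (nat_lit 578485) (.g (nat_lit 1990) (.e (nat_lit 336206) (nat_lit 12) (.e (nat_lit 385094) (nat_lit 49) (.e (nat_lit 778323) (nat_lit 5) (.e (nat_lit 73782) (nat_lit 32) (.e (nat_lit 2857) (nat_lit 184) (.e (nat_lit 426489) (nat_lit 27) .nil)))))) (.g (nat_lit 1) (.e (nat_lit 371712) (nat_lit 0) .nil) .nil)))))) (.nd (nat_lit 7) (.nd (nat_lit 8) (.nd (nat_lit 9) 
(.lf (nat_lit 577653) (.g (nat_lit 2227) (.e (nat_lit 336028) (nat_lit 3) (.e (nat_lit 98367) (nat_lit 27) (.e (nat_lit 434209) (nat_lit 18) (.e (nat_lit 5543) (nat_lit 306) (.e (nat_lit 2610) (nat_lit 163) .nil))))) (.g (nat_lit 0) (.e (nat_lit 369079) (nat_lit 0) .nil) .nil))) 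
(.lf (nat_lit 578165) (.g (nat_lit 1661) (.e (nat_lit 336153) (nat_lit 9) (.e (nat_lit 336442) (nat_lit 32) (.e (nat_lit 466971) (nat_lit 21) (.e (nat_lit 164325) (nat_lit 230) (.e (nat_lit 163886) (nat_lit 5) (.e (nat_lit 221191) (nat_lit 11) .nil)))))) (.g (nat_lit 1) (.e (nat_lit 370640) (nat_lit 0) .nil) .nil)))) (.nd (nat_lit 9) 
(.lf (nat_lit 577909) (.g (nat_lit 3312) (.e (nat_lit 336077) (nat_lit 9) (.e (nat_lit 336454) (nat_lit 34) (.e (nat_lit 483365) (nat_lit 18) (.e (nat_lit 57931) (nat_lit 282) (.e (nat_lit 163873) (nat_lit 3) (.e (nat_lit 204861) (nat_lit 26) .nil)))))) (.g (nat_lit 1) (.e (nat_lit 369815) (nat_lit 0) .nil) .nil))) 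
(.lf (nat_lit 578421) (.g (nat_lit 1236) (.e (nat_lit 336200) (nat_lit 12) (.e (nat_lit 385074) (nat_lit 31) (.e (nat_lit 573484) (nat_lit 13) (.e (nat_lit 65617) (nat_lit 10) .nil)))) (.g (nat_lit 0) (.e (nat_lit 371527) (nat_lit 0) .nil) .nil))))) (.nd (nat_lit 8) (.nd (nat_lit 9) 
(.lf (nat_lit 577781) (.g (nat_lit 2464) (.e (nat_lit 336060) (nat_lit 7) (.e (nat_lit 319531) (nat_lit 16) (.e (nat_lit 286731) (nat_lit 1) (.e (nat_lit 57688) (nat_lit 156) (.e (nat_lit 163933) (nat_lit 17) .nil))))) (.g (nat_lit 0) (.e (nat_lit 369449) (nat_lit 0) .nil) .nil))) 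
(.lf (nat_lit 578293) (.g (nat_lit 2206) (.e (nat_lit 336176) (nat_lit 10) (.e (nat_lit 344127) (nat_lit 26) (.e (nat_lit 557090) (nat_lit 12) (.e (nat_lit 164016) (nat_lit 44) .nil)))) (.g (nat_lit 0) (.e (nat_lit 371025) (nat_lit 0) .nil) .nil)))) (.nd (nat_lit 9) 
(.lf (nat_lit 578037) (.g (nat_lit 4382) (.e (nat_lit 336099) (nat_lit 9) (.e (nat_lit 336013) (nat_lit 2) (.e (nat_lit 90170) (nat_lit 13) (.e (nat_lit 172032) (nat_lit 0) .nil)))) (.g (nat_lit 0) (.e (nat_lit 370203) (nat_lit 0) .nil) .nil))) 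
(.lf (nat_lit 578549) (.g (nat_lit 483) (.e (nat_lit 336226) (nat_lit 14) (.e (nat_lit 401438) (nat_lit 9) (.e (nat_lit 426533) (nat_lit 28) .nil))) (.g (nat_lit 0) (.e (nat_lit 371935) (nat_lit 0) .nil) .nil))))))))) (.nd (nat_lit 4) (.nd (nat_lit 5) (.nd (nat_lit 6) (.nd (nat_lit 7) (.nd (nat_lit 8) (.nd (nat_lit 9) 
(.lf (nat_lit 577549) (.g (nat_lit 3926) (.e (nat_lit 336027) (nat_lit 3) (.e (nat_lit 98349) (nat_lit 24) (.e (nat_lit 409644) (nat_lit 18) (.e (nat_lit 303119) (nat_lit 3) (.e (nat_lit 204852) (nat_lit 26) (.e (nat_lit 336130) (nat_lit 9) .nil)))))) (.g (nat_lit 1) (.e (nat_lit 368935) (nat_lit 0) .nil) .nil))) 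
(.lf (nat_lit 578061) (.g (nat_lit 3838) (.e (nat_lit 336099) (nat_lit 9) (.e (nat_lit 336028) (nat_lit 3) (.e (nat_lit 98350) (nat_lit 24) (.e (nat_lit 409645) (nat_lit 18) (.e (nat_lit 303118) (nat_lit 3) (.e (nat_lit 204855) (nat_lit 26) .nil)))))) (.g (nat_lit 1) (.e (nat_lit 370250) (nat_lit 0) .nil) .nil)))) (.nd (nat_lit 9) 
(.lf (nat_lit 577805) (.g (nat_lit 1912) (.e (nat_lit 336073) (nat_lit 9) (.e (nat_lit 336028) (nat_lit 3) (.e (nat_lit 98350) (nat_lit 24) (.e (nat_lit 417536) (nat_lit 18) .nil)))) (.g (nat_lit 0) (.e (nat_lit 369562) (nat_lit 0) .nil) .nil))) 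
(.lf (nat_lit 578317) (.g (nat_lit 2301) (.e (nat_lit 336176) (nat_lit 10) (.e (nat_lit 344133) (nat_lit 26) (.e (nat_lit 557067) (nat_lit 9) (.e (nat_lit 214) (nat_lit 19) .nil)))) (.g (nat_lit 0) (.e (nat_lit 371128) (nat_lit 0) .nil) .nil))))) (.nd (nat_lit 8) (.nd (nat_lit 9) 
(.lf (nat_lit 577677) (.g (nat_lit 1862) (.e (nat_lit 343808) (nat_lit 3) (.e (nat_lit 98372) (nat_lit 29) (.e (nat_lit 450586) (nat_lit 10) (.e (nat_lit 573473) (nat_lit 12) (.e (nat_lit 57348) (nat_lit 0) .nil))))) (.g (nat_lit 0) (.e (nat_lit 369115) (nat_lit 0) .nil) .nil))) 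
(.lf (nat_lit 578189) (.g (nat_lit 1886) (.e (nat_lit 336158) (nat_lit 9) (.e (nat_lit 335996) (nat_lit 1) (.e (nat_lit 57854) (nat_lit 252) (.e (nat_lit 57389) (nat_lit 5) (.e (nat_lit 122624) (nat_lit 16) .nil))))) (.g (nat_lit 0) (.e (nat_lit 370735) (nat_lit 0) .nil) .nil)))) (.nd (nat_lit 9) 
(.lf (nat_lit 577933) (.g (nat_lit 488) (.e (nat_lit 336083) (nat_lit 9) (.e (nat_lit 336336) (nat_lit 20) (.e (nat_lit 229120) (nat_lit 5) .nil))) (.g (nat_lit 0) (.e (nat_lit 369930) (nat_lit 0) .nil) .nil))) 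
(.lf (nat_lit 578445) (.g (nat_lit 2179) (.e (nat_lit 336204) (nat_lit 12) (.e (nat_lit 385074) (nat_lit 31) (.e (nat_lit 573489) (nat_lit 14) (.e (nat_lit 73781) (nat_lit 32) (.e (nat_lit 2682) (nat_lit 168) (.e (nat_lit 212736) (nat_lit 26) .nil)))))) (.g (nat_lit 1) (.e (nat_lit 371620) (nat_lit 0) .nil) .nil)))))) (.nd (nat_lit 7) (.nd (nat_lit 8) (.nd (nat_lit 9) 
(.lf (nat_lit 577613) (.g (nat_lit 3088) (.e (nat_lit 336028) (nat_lit 3) (.e (nat_lit 98350) (nat_lit 24) (.e (nat_lit 409643) (nat_lit 18) (.e (nat_lit 303117) (nat_lit 2) (.e (nat_lit 196665) (nat_lit 13) (.e (nat_lit 65603) (nat_lit 9) .nil)))))) (.g (nat_lit 1) (.e (nat_lit 369029) (nat_lit 0) .nil) .nil))) 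
(.lf (nat_lit 578125) (.g (nat_lit 1154) (.e (nat_lit 336129) (nat_lit 9) (.e (nat_lit 336021) (nat_lit 3) (.e (nat_lit 98349) (nat_lit 24) .nil))) (.g (nat_lit 0) (.e (nat_lit 370487) (nat_lit 0) .nil) .nil)))) (.nd (nat_lit 9) 
(.lf (nat_lit 577869) (.g (nat_lit 3068) (.e (nat_lit 336075) (nat_lit 9) (.e (nat_lit 336454) (nat_lit 34) (.e (nat_lit 483364) (nat_lit 18) (.e (nat_lit 57927) (nat_lit 282) (.e (nat_lit 163873) (nat_lit 3) (.e (nat_lit 204861) (nat_lit 26) .nil)))))) (.g (nat_lit 1) (.e (nat_lit 369705) (nat_lit 0) .nil) .nil))) 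
(.lf (nat_lit 578381) (.g (nat_lit 2363) (.e (nat_lit 336186) (nat_lit 11) (.e (nat_lit 368676) (nat_lit 21) (.e (nat_lit 516140) (nat_lit 8) (.e (nat_lit 417830) (nat_lit 19) (.e (nat_lit 311315) (nat_lit 3) (.e (nat_lit 204861) (nat_lit 26) .nil)))))) (.g (nat_lit 1) (.e (nat_lit 371284) (nat_lit 0) .nil) .nil))))) (.nd (nat_lit 8) (.nd (nat_lit 9) 
(.lf (nat_lit 577741) (.g (nat_lit 946) (.e (nat_lit 336049) (nat_lit 6) (.e (nat_lit 147500) (nat_lit 12) (.e (nat_lit 164053) (nat_lit 56) (.e (nat_lit 786457) (nat_lit 18) (.e (nat_lit 98380) (nat_lit 31) (.e (nat_lit 466954) (nat_lit 11) .nil)))))) (.g (nat_lit 1) (.e (nat_lit 369207) (nat_lit 0) .nil) .nil))) 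
(.lf (nat_lit 578253) (.g (nat_lit 3317) (.e (nat_lit 336173) (nat_lit 10) (.e (nat_lit 344117) (nat_lit 21) (.e (nat_lit 516139) (nat_lit 7) (.e (nat_lit 409615) (nat_lit 10) .nil)))) (.g (nat_lit 0) (.e (nat_lit 370882) (nat_lit 0) .nil) .nil)))) (.nd (nat_lit 9) 
(.lf (nat_lit 577997) (.g (nat_lit 806) (.e (nat_lit 336096) (nat_lit 9) (.e (nat_lit 336013) (nat_lit 2) (.e (nat_lit 90165) (nat_lit 12) .nil))) (.g (nat_lit 0) (.e (nat_lit 370142) (nat_lit 0) .nil) .nil))) 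
(.lf (nat_lit 578509) (.g (nat_lit 863) (.e (nat_lit 336210) (nat_lit 13) (.e (nat_lit 393225) (nat_lit 9) (.e (nat_lit 335988) (nat_lit 1) .nil))) (.g (nat_lit 0) (.e (nat_lit 371788) (nat_lit 0) .nil) .nil))))))) (.nd (nat_lit 6) (.nd (nat_lit 7) (.nd (nat_lit 8) (.nd (nat_lit 9) 
(.lf (nat_lit 577581) (.g (nat_lit 4466) (.e (nat_lit 336027) (nat_lit 3) (.e (nat_lit 98384) (nat_lit 32) (.e (nat_lit 475199) (nat_lit 40) (.e (nat_lit 704589) (nat_lit 3) (.e (nat_lit 163975) (nat_lit 30) (.e (nat_lit 573481) (nat_lit 13) (.e (nat_lit 65608) (nat_lit 9) .nil))))))) (.g (nat_lit 1) (.e (nat_lit 368975) (nat_lit 0) .nil) .nil))) 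
(.lf (nat_lit 578093) (.g (nat_lit 2196) (.e (nat_lit 336111) (nat_lit 9) (.e (nat_lit 336013) (nat_lit 2) (.e (nat_lit 90165) (nat_lit 12) (.e (nat_lit 164210) (nat_lit 176) .nil)))) (.g (nat_lit 0) (.e (nat_lit 370343) (nat_lit 0) .nil) .nil)))) (.nd (nat_lit 9) 
(.lf (nat_lit 577837) (.g (nat_lit 1844) (.e (nat_lit 336074) (nat_lit 9) (.e (nat_lit 336454) (nat_lit 34) (.e (nat_lit 483365) (nat_lit 18) (.e (nat_lit 57854) (nat_lit 252) .nil)))) (.g (nat_lit 0) (.e (nat_lit 369621) (nat_lit 0) .nil) .nil))) 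
(.lf (nat_lit 578349) (.g (nat_lit 2599) (.e (nat_lit 336178) (nat_lit 10) (.e (nat_lit 344117) (nat_lit 21) (.e (nat_lit 516138) (nat_lit 7) (.e (nat_lit 409645) (nat_lit 18) (.e (nat_lit 303118) (nat_lit 3) (.e (nat_lit 204855) (nat_lit 26) .nil)))))) (.g (nat_lit 1) (.e (nat_lit 371206) (nat_lit 0) .nil) .nil))))) (.nd (nat_lit 8) (.nd (nat_lit 9) 
(.lf (nat_lit 577709) (.g (nat_lit 3319) (.e (nat_lit 343808) (nat_lit 3) (.e (nat_lit 98373) (nat_lit 29) (.e (nat_lit 450588) (nat_lit 10) (.e (nat_lit 573475) (nat_lit 12) (.e (nat_lit 57569) (nat_lit 53) .nil))))) (.g (nat_lit 0) (.e (nat_lit 369147) (nat_lit 0) .nil) .nil))) 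
(.lf (nat_lit 578221) (.g (nat_lit 2470) (.e (nat_lit 343808) (nat_lit 9) (.e (nat_lit 336454) (nat_lit 34) (.e (nat_lit 483365) (nat_lit 18) (.e (nat_lit 57847) (nat_lit 252) (.e (nat_lit 57379) (nat_lit 3) .nil))))) (.g (nat_lit 0) (.e (nat_lit 370810) (nat_lit 0) .nil) .nil)))) (.nd (nat_lit 9) 
(.lf (nat_lit 577965) (.g (nat_lit 2258) (.e (nat_lit 336087) (nat_lit 9) (.e (nat_lit 336426) (nat_lit 29) (.e (nat_lit 442421) (nat_lit 21) (.e (nat_lit 164326) (nat_lit 230) (.e (nat_lit 163884) (nat_lit 5) (.e (nat_lit 221193) (nat_lit 11) .nil)))))) (.g (nat_lit 1) (.e (nat_lit 370039) (nat_lit 0) .nil) .nil))) 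
(.lf (nat_lit 578477) (.g (nat_lit 3448) (.e (nat_lit 336206) (nat_lit 12) (.e (nat_lit 385074) (nat_lit 31) (.e (nat_lit 573482) (nat_lit 13) (.e (nat_lit 65630) (nat_lit 14) (.e (nat_lit 401427) (nat_lit 3) (.e (nat_lit 204859) (nat_lit 26) .nil)))))) (.g (nat_lit 1) (.e (nat_lit 371692) (nat_lit 0) .nil) .nil)))))) (.nd (nat_lit 7) (.nd (nat_lit 8) (.nd (nat_lit 9) 
(.lf (nat_lit 577645) (.g (nat_lit 1770) (.e (nat_lit 336028) (nat_lit 3) (.e (nat_lit 98350) (nat_lit 24) (.e (nat_lit 409649) (nat_lit 18) (.e (nat_lit 303116) (nat_lit 2) (.e (nat_lit 196666) (nat_lit 13) .nil))))) (.g (nat_lit 0) (.e (nat_lit 369061) (nat_lit 0) .nil) .nil))) 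
(.lf (nat_lit 578157) (.g (nat_lit 1724) (.e (nat_lit 336152) (nat_lit 9) (.e (nat_lit 336442) (nat_lit 32) (.e (nat_lit 466971) (nat_lit 21) (.e (nat_lit 164322) (nat_lit 230) (.e (nat_lit 163884) (nat_lit 5) (.e (nat_lit 221192) (nat_lit 11) .nil)))))) (.g (nat_lit 1) (.e (nat_lit 370617) (nat_lit 0) .nil) .nil)))) (.nd (nat_lit 9) 
(.lf (nat_lit 577901) (.g (nat_lit 2624) (.e (nat_lit 336077) (nat_lit 9) (.e (nat_lit 336443) (nat_lit 32) (.e (nat_lit 466971) (nat_lit 21) (.e (nat_lit 164327) (nat_lit 230) (.e (nat_lit 163886) (nat_lit 5) (.e (nat_lit 221194) (nat_lit 11) .nil)))))) (.g (nat_lit 1) (.e (nat_lit 369807) (nat_lit 0) .nil) .nil))) 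
(.lf (nat_lit 578413) (.g (nat_lit 2106) (.e (nat_lit 336198) (nat_lit 12) (.e (nat_lit 385074) (nat_lit 31) (.e (nat_lit 573484) (nat_lit 13) (.e (nat_lit 65617) (nat_lit 10) .nil)))) (.g (nat_lit 0) (.e (nat_lit 371490) (nat_lit 0) .nil) .nil))))) (.nd (nat_lit 8) (.nd (nat_lit 9) 
(.lf (nat_lit 577773) (.g (nat_lit 353) (.e (nat_lit 336059) (nat_lit 7) (.e (nat_lit 319504) (nat_lit 10) (.e (nat_lit 7936) (nat_lit 314) .nil))) (.g (nat_lit 0) (.e (nat_lit 369350) (nat_lit 0) .nil) .nil))) 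
(.lf (nat_lit 578285) (.g (nat_lit 1766) (.e (nat_lit 336176) (nat_lit 10) (.e (nat_lit 344117) (nat_lit 21) (.e (nat_lit 516139) (nat_lit 7) (.e (nat_lit 409649) (nat_lit 18) .nil)))) (.g (nat_lit 0) (.e (nat_lit 370985) (nat_lit 0) .nil) .nil)))) (.nd (nat_lit 9) 
(.lf (nat_lit 578029) (.g (nat_lit 1360) (.e (nat_lit 336099) (nat_lit 9) (.e (nat_lit 336013) (nat_lit 2) (.e (nat_lit 90164) (nat_lit 12) .nil))) (.g (nat_lit 0) (.e (nat_lit 370194) (nat_lit 0) .nil) .nil))) 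
(.lf (nat_lit 578541) (.g (nat_lit 2087) (.e (nat_lit 336226) (nat_lit 14) (.e (nat_lit 401425) (nat_lit 2) (.e (nat_lit 196666) (nat_lit 13) (.e (nat_lit 65629) (nat_lit 14) .nil)))) (.g (nat_lit 0) (.e (nat_lit 371906) (nat_lit 0) .nil) .nil)))))))) (.nd (nat_lit 5) (.nd (nat_lit 6) (.nd (nat_lit 7) (.nd (nat_lit 8) (.nd (nat_lit 9) 
(.lf (nat_lit 577565) (.g (nat_lit 3614) (.e (nat_lit 336027) (nat_lit 3) (.e (nat_lit 98350) (nat_lit 24) (.e (nat_lit 409645) (nat_lit 18) (.e (nat_lit 303112) (nat_lit 0) (.e (nat_lit 3252) (nat_lit 197) (.e (nat_lit 532530) (nat_lit 9) (.e (nat_lit 336142) (nat_lit 9) .nil))))))) (.g (nat_lit 1) (.e (nat_lit 368957) (nat_lit 0) .nil) .nil))) 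
(.lf (nat_lit 578077) (.g (nat_lit 2240) (.e (nat_lit 336100) (nat_lit 9) (.e (nat_lit 336013) (nat_lit 2) (.e (nat_lit 90165) (nat_lit 12) (.e (nat_lit 164208) (nat_lit 176) .nil)))) (.g (nat_lit 0) (.e (nat_lit 370313) (nat_lit 0) .nil) .nil)))) (.nd (nat_lit 9) 
(.lf (nat_lit 577821) (.g (nat_lit 2358) (.e (nat_lit 336074) (nat_lit 9) (.e (nat_lit 336443) (nat_lit 32) (.e (nat_lit 466969) (nat_lit 21) (.e (nat_lit 164331) (nat_lit 230) (.e (nat_lit 163885) (nat_lit 5) .nil))))) (.g (nat_lit 0) (.e (nat_lit 369605) (nat_lit 0) .nil) .nil))) 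
(.lf (nat_lit 578333) (.g (nat_lit 1082) (.e (nat_lit 336176) (nat_lit 10) (.e (nat_lit 344133) (nat_lit 26) (.e (nat_lit 557088) (nat_lit 12) .nil))) (.g (nat_lit 0) (.e (nat_lit 371164) (nat_lit 0) .nil) .nil))))) (.nd (nat_lit 8) (.nd (nat_lit 9) 
(.lf (nat_lit 577693) (.g (nat_lit 4006) (.e (nat_lit 343808) (nat_lit 3) (.e (nat_lit 98373) (nat_lit 29) (.e (nat_lit 450587) (nat_lit 10) (.e (nat_lit 573475) (nat_lit 12) (.e (nat_lit 57356) (nat_lit 0) .nil))))) (.g (nat_lit 0) (.e (nat_lit 369131) (nat_lit 0) .nil) .nil))) 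
(.lf (nat_lit 578205) (.g (nat_lit 880) (.e (nat_lit 336142) (nat_lit 9) (.e (nat_lit 335996) (nat_lit 1) (.e (nat_lit 57854) (nat_lit 252) .nil))) (.g (nat_lit 0) (.e (nat_lit 370785) (nat_lit 0) .nil) .nil)))) (.nd (nat_lit 9) 
(.lf (nat_lit 577949) (.g (nat_lit 2884) (.e (nat_lit 336084) (nat_lit 9) (.e (nat_lit 336443) (nat_lit 32) (.e (nat_lit 466969) (nat_lit 21) (.e (nat_lit 164332) (nat_lit 230) (.e (nat_lit 163884) (nat_lit 5) (.e (nat_lit 221193) (nat_lit 11) .nil)))))) (.g (nat_lit 1) (.e (nat_lit 369969) (nat_lit 0) .nil) .nil))) 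
(.lf (nat_lit 578461) (.g (nat_lit 1464) (.e (nat_lit 336205) (nat_lit 12) (.e (nat_lit 385074) (nat_lit 31) (.e (nat_lit 573491) (nat_lit 15) (.e (nat_lit 81947) (nat_lit 20) .nil)))) (.g (nat_lit 0) (.e (nat_lit 371655) (nat_lit 0) .nil) .nil)))))) (.nd (nat_lit 7) (.nd (nat_lit 8) (.nd (nat_lit 9) 
(.lf (nat_lit 577629) (.g (nat_lit 3490) (.e (nat_lit 336028) (nat_lit 3) (.e (nat_lit 98350) (nat_lit 24) (.e (nat_lit 409646) (nat_lit 18) (.e (nat_lit 303119) (nat_lit 3) (.e (nat_lit 204855) (nat_lit 26) (.e (nat_lit 336097) (nat_lit 9) .nil)))))) (.g (nat_lit 1) (.e (nat_lit 369045) (nat_lit 0) .nil) .nil))) 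
(.lf (nat_lit 578141) (.g (nat_lit 2919) (.e (nat_lit 336134) (nat_lit 9) (.e (nat_lit 336028) (nat_lit 3) (.e (nat_lit 98350) (nat_lit 24) (.e (nat_lit 409645) (nat_lit 18) .nil)))) (.g (nat_lit 0) (.e (nat_lit 370549) (nat_lit 0) .nil) .nil)))) (.nd (nat_lit 9) 
(.lf (nat_lit 577885) (.g (nat_lit 2872) (.e (nat_lit 336076) (nat_lit 9) (.e (nat_lit 336450) (nat_lit 33) (.e (nat_lit 475152) (nat_lit 17) (.e (nat_lit 57881) (nat_lit 270) (.e (nat_lit 174) (nat_lit 12) (.e (nat_lit 204861) (nat_lit 26) .nil)))))) (.g (nat_lit 1) (.e (nat_lit 369751) (nat_lit 0) .nil) .nil))) 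
(.lf (nat_lit 578397) (.g (nat_lit 1847) (.e (nat_lit 336194) (nat_lit 12) (.e (nat_lit 385074) (nat_lit 31) (.e (nat_lit 573481) (nat_lit 13) (.e (nat_lit 65628) (nat_lit 14) .nil)))) (.g (nat_lit 0) (.e (nat_lit 371354) (nat_lit 0) .nil) .nil))))) (.nd (nat_lit 8) (.nd (nat_lit 9) 
(.lf (nat_lit 577757) (.g (nat_lit 632) (.e (nat_lit 336051) (nat_lit 6) (.e (nat_lit 147496) (nat_lit 11) (.e (nat_lit 24607) (nat_lit 3) .nil))) (.g (nat_lit 0) (.e (nat_lit 369235) (nat_lit 0) .nil) .nil))) 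
(.lf (nat_lit 578269) (.g (nat_lit 2175) (.e (nat_lit 336173) (nat_lit 10) (.e (nat_lit 344133) (nat_lit 26) (.e (nat_lit 557087) (nat_lit 11) (.e (nat_lit 24584) (nat_lit 0) .nil)))) (.g (nat_lit 0) (.e (nat_lit 370931) (nat_lit 0) .nil) .nil)))) (.nd (nat_lit 9) 
(.lf (nat_lit 578013) (.g (nat_lit 1360) (.e (nat_lit 336099) (nat_lit 9) (.e (nat_lit 336013) (nat_lit 2) (.e (nat_lit 90125) (nat_lit 9) .nil))) (.g (nat_lit 0) (.e (nat_lit 370172) (nat_lit 0) .nil) .nil))) 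
(.lf (nat_lit 578525) (.g (nat_lit 962) (.e (nat_lit 336217) (nat_lit 13) (.e (nat_lit 393251) (nat_lit 18) (.e (nat_lit 164183) (nat_lit 154) (.e (nat_lit 65280) (nat_lit 12) .nil)))) (.g (nat_lit 0) (.e (nat_lit 371838) (nat_lit 0) .nil) .nil))))))) (.nd (nat_lit 6) (.nd (nat_lit 7) (.nd (nat_lit 8) (.nd (nat_lit 9) 
(.lf (nat_lit 577597) (.g (nat_lit 2979) (.e (nat_lit 336028) (nat_lit 3) (.e (nat_lit 98349) (nat_lit 24) (.e (nat_lit 409645) (nat_lit 18) (.e (nat_lit 303117) (nat_lit 2) (.e (nat_lit 196665) (nat_lit 13) (.e (nat_lit 65599) (nat_lit 9) .nil)))))) (.g (nat_lit 1) (.e (nat_lit 369002) (nat_lit 0) .nil) .nil))) 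
(.lf (nat_lit 578109) (.g (nat_lit 2424) (.e (nat_lit 336104) (nat_lit 9) (.e (nat_lit 336028) (nat_lit 3) (.e (nat_lit 98350) (nat_lit 24) (.e (nat_lit 409649) (nat_lit 18) (.e (nat_lit 303118) (nat_lit 3) .nil))))) (.g (nat_lit 0) (.e (nat_lit 370377) (nat_lit 0) .nil) .nil)))) (.nd (nat_lit 9) 
(.lf (nat_lit 577853) (.g (nat_lit 497) (.e (nat_lit 336075) (nat_lit 9) (.e (nat_lit 336326) (nat_lit 18) (.e (nat_lit 204836) (nat_lit 20) .nil))) (.g (nat_lit 0) (.e (nat_lit 369650) (nat_lit 0) .nil) .nil))) 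
(.lf (nat_lit 578365) (.g (nat_lit 2695) (.e (nat_lit 336178) (nat_lit 10) (.e (nat_lit 344117) (nat_lit 21) (.e (nat_lit 516195) (nat_lit 26) (.e (nat_lit 335986) (nat_lit 1) (.e (nat_lit 57927) (nat_lit 282) (.e (nat_lit 163901) (nat_lit 12) (.e (nat_lit 426506) (nat_lit 27) .nil))))))) (.g (nat_lit 1) (.e (nat_lit 371224) (nat_lit 0) .nil) .nil))))) (.nd (nat_lit 8) (.nd (nat_lit 9) 
(.lf (nat_lit 577725) (.g (nat_lit 3573) (.e (nat_lit 336032) (nat_lit 4) (.e (nat_lit 123197) (nat_lit 266) (.e (nat_lit 57346) (nat_lit 0) (.e (nat_lit 6203) (nat_lit 332) (.e (nat_lit 2798) (nat_lit 180) (.e (nat_lit 303133) (nat_lit 9) (.e (nat_lit 426499) (nat_lit 27) (.e (nat_lit 336073) (nat_lit 9) .nil)))))))) (.g (nat_lit 1) (.e (nat_lit 369172) (nat_lit 0) .nil) .nil))) 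
(.lf (nat_lit 578237) (.g (nat_lit 3352) (.e (nat_lit 336163) (nat_lit 10) (.e (nat_lit 344117) (nat_lit 21) (.e (nat_lit 516139) (nat_lit 7) (.e (nat_lit 409649) (nat_lit 18) (.e (nat_lit 303119) (nat_lit 3) (.e (nat_lit 204855) (nat_lit 26) .nil)))))) (.g (nat_lit 1) (.e (nat_lit 370835) (nat_lit 0) .nil) .nil)))) (.nd (nat_lit 9) 
(.lf (nat_lit 577981) (.g (nat_lit 2189) (.e (nat_lit 336089) (nat_lit 9) (.e (nat_lit 336324) (nat_lit 18) (.e (nat_lit 204837) (nat_lit 20) (.e (nat_lit 114698) (nat_lit 11) (.e (nat_lit 426138) (nat_lit 3) .nil))))) (.g (nat_lit 0) (.e (nat_lit 370084) (nat_lit 0) .nil) .nil))) 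
(.lf (nat_lit 578493) (.g (nat_lit 1572) (.e (nat_lit 336208) (nat_lit 12) (.e (nat_lit 385072) (nat_lit 31) (.e (nat_lit 573481) (nat_lit 13) (.e (nat_lit 65630) (nat_lit 14) .nil)))) (.g (nat_lit 0) (.e (nat_lit 371746) (nat_lit 0) .nil) .nil)))))) (.nd (nat_lit 7) (.nd (nat_lit 8) (.nd (nat_lit 9) 
(.lf (nat_lit 577661) (.g (nat_lit 1478) (.e (nat_lit 336028) (nat_lit 3) (.e (nat_lit 98384) (nat_lit 32) (.e (nat_lit 475205) (nat_lit 40) (.e (nat_lit 704588) (nat_lit 3) .nil)))) (.g (nat_lit 0) (.e (nat_lit 369092) (nat_lit 0) .nil) .nil))) 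
(.lf (nat_lit 578173) (.g (nat_lit 1206) (.e (nat_lit 336158) (nat_lit 9) (.e (nat_lit 335986) (nat_lit 1) (.e (nat_lit 57854) (nat_lit 252) (.e (nat_lit 57388) (nat_lit 5) .nil)))) (.g (nat_lit 0) (.e (nat_lit 370697) (nat_lit 0) .nil) .nil)))) (.nd (nat_lit 9) 
(.lf (nat_lit 577917) (.g (nat_lit 1461) (.e (nat_lit 336078) (nat_lit 9) (.e (nat_lit 336324) (nat_lit 18) (.e (nat_lit 204838) (nat_lit 20) (.e (nat_lit 114698) (nat_lit 11) .nil)))) (.g (nat_lit 0) (.e (nat_lit 369843) (nat_lit 0) .nil) .nil))) 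
(.lf (nat_lit 578429) (.g (nat_lit 1772) (.e (nat_lit 336201) (nat_lit 12) (.e (nat_lit 385074) (nat_lit 31) (.e (nat_lit 573484) (nat_lit 13) (.e (nat_lit 65617) (nat_lit 10) .nil)))) (.g (nat_lit 0) (.e (nat_lit 371557) (nat_lit 0) .nil) .nil))))) (.nd (nat_lit 8) (.nd (nat_lit 9) 
(.lf (nat_lit 577789) (.g (nat_lit 3527) (.e (nat_lit 336069) (nat_lit 8) (.e (nat_lit 327708) (nat_lit 10) (.e (nat_lit 5270) (nat_lit 298) (.e (nat_lit 1183) (nat_lit 87) .nil)))) (.g (nat_lit 0) (.e (nat_lit 369509) (nat_lit 0) .nil) .nil))) 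
(.lf (nat_lit 578301) (.g (nat_lit 2546) (.e (nat_lit 336176) (nat_lit 10) (.e (nat_lit 344129) (nat_lit 26) (.e (nat_lit 557087) (nat_lit 11) (.e (nat_lit 24580) (nat_lit 0) .nil)))) (.g (nat_lit 0) (.e (nat_lit 371049) (nat_lit 0) .nil) .nil)))) (.nd (nat_lit 9) 
(.lf (nat_lit 578045) (.g (nat_lit 4959) (.e (nat_lit 336099) (nat_lit 9) (.e (nat_lit 336013) (nat_lit 2) (.e (nat_lit 90170) (nat_lit 13) (.e (nat_lit 172055) (nat_lit 0) .nil)))) (.g (nat_lit 0) (.e (nat_lit 370216) (nat_lit 0) .nil) .nil))) 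
(.lf (nat_lit 578557) (.g (nat_lit 4325) (.e (nat_lit 336226) (nat_lit 14) (.e (nat_lit 401459) (nat_lit 13) (.e (nat_lit 483372) (nat_lit 21) (.e (nat_lit 319499) (nat_lit 10) .nil)))) (.g (nat_lit 0) (.e (nat_lit 371967) (nat_lit 0) .nil) .nil))))))))))) (.nd (nat_lit 2) (.nd (nat_lit 3) (.nd (nat_lit 4) (.nd (nat_lit 5) (.nd (nat_lit 6) (.nd (nat_lit 7) (.nd (nat_lit 8) (.nd (nat_lit 9) 
(.lf (nat_lit 577539) (.g (nat_lit 1818) (.e (nat_lit 336026) (nat_lit 3) (.e (nat_lit 98362) (nat_lit 26) (.e (nat_lit 426310) (nat_lit 12) (.e (nat_lit 475179) (nat_lit 24) (.e (nat_lit 516131) (nat_lit 3) (.e (nat_lit 221194) (nat_lit 11) .nil)))))) (.g (nat_lit 1) (.e (nat_lit 368916) (nat_lit 0) .nil) .nil))) 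
(.lf (nat_lit 578051) (.g (nat_lit 847) (.e (nat_lit 336099) (nat_lit 9) (.e (nat_lit 336013) (nat_lit 2) (.e (nat_lit 90187) (nat_lit 18) .nil))) (.g (nat_lit 0) (.e (nat_lit 370235) (nat_lit 0) .nil) .nil)))) (.nd (nat_lit 9) 
(.lf (nat_lit 577795) (.g (nat_lit 1861) (.e (nat_lit 336073) (nat_lit 9) (.e (nat_lit 336013) (nat_lit 2) (.e (nat_lit 90165) (nat_lit 12) (.e (nat_lit 164210) (nat_lit 176) .nil)))) (.g (nat_lit 0) (.e (nat_lit 369534) (nat_lit 0) .nil) .nil))) 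
(.lf (nat_lit 578307) (.g (nat_lit 2189) (.e (nat_lit 336176) (nat_lit 10) (.e (nat_lit 344130) (nat_lit 26) (.e (nat_lit 557087) (nat_lit 11) (.e (nat_lit 24592) (nat_lit 0) .nil)))) (.g (nat_lit 0) (.e (nat_lit 371068) (nat_lit 0) .nil) .nil))))) (.nd (nat_lit 8) (.nd (nat_lit 9) 
(.lf (nat_lit 577667) (.g (nat_lit 589) (.e (nat_lit 343808) (nat_lit 3) (.e (nat_lit 98350) (nat_lit 24) (.e (nat_lit 409643) (nat_lit 18) .nil))) (.g (nat_lit 0) (.e (nat_lit 369102) (nat_lit 0) .nil) .nil))) 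
(.lf (nat_lit 578179) (.g (nat_lit 1292) (.e (nat_lit 336158) (nat_lit 9) (.e (nat_lit 335988) (nat_lit 1) (.e (nat_lit 57852) (nat_lit 252) (.e (nat_lit 57388) (nat_lit 5) .nil)))) (.g (nat_lit 0) (.e (nat_lit 370713) (nat_lit 0) .nil) .nil)))) (.nd (nat_lit 9) 
(.lf (nat_lit 577923) (.g (nat_lit 3431) (.e (nat_lit 336079) (nat_lit 9) (.e (nat_lit 336454) (nat_lit 34) (.e (nat_lit 483365) (nat_lit 18) (.e (nat_lit 57929) (nat_lit 282) .nil)))) (.g (nat_lit 0) (.e (nat_lit 369898) (nat_lit 0) .nil) .nil))) 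
(.lf (nat_lit 578435) (.g (nat_lit 2472) (.e (nat_lit 336203) (nat_lit 12) (.e (nat_lit 385074) (nat_lit 31) (.e (nat_lit 573482) (nat_lit 13) (.e (nat_lit 65630) (nat_lit 14) (.e (nat_lit 401428) (nat_lit 3) .nil))))) (.g (nat_lit 0) (.e (nat_lit 371591) (nat_lit 0) .nil) .nil)))))) (.nd (nat_lit 7) (.nd (nat_lit 8) (.nd (nat_lit 9) 
(.lf (nat_lit 577603) (.g (nat_lit 2820) (.e (nat_lit 336028) (nat_lit 3) (.e (nat_lit 98349) (nat_lit 24) (.e (nat_lit 409646) (nat_lit 18) (.e (nat_lit 303117) (nat_lit 2) (.e (nat_lit 196665) (nat_lit 13) (.e (nat_lit 65599) (nat_lit 9) .nil)))))) (.g (nat_lit 1) (.e (nat_lit 369008) (nat_lit 0) .nil) .nil))) 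
(.lf (nat_lit 578115) (.g (nat_lit 2793) (.e (nat_lit 336113) (nat_lit 9) (.e (nat_lit 336324) (nat_lit 18) (.e (nat_lit 204835) (nat_lit 19) (.e (nat_lit 106534) (nat_lit 11) .nil)))) (.g (nat_lit 0) (.e (nat_lit 370386) (nat_lit 0) .nil) .nil)))) (.nd (nat_lit 9) 
(.lf (nat_lit 577859) (.g (nat_lit 3754) (.e (nat_lit 336075) (nat_lit 9) (.e (nat_lit 336443) (nat_lit 32) (.e (nat_lit 466969) (nat_lit 21) (.e (nat_lit 164327) (nat_lit 230) (.e (nat_lit 163884) (nat_lit 5) (.e (nat_lit 221194) (nat_lit 11) .nil)))))) (.g (nat_lit 1) (.e (nat_lit 369691) (nat_lit 0) .nil) .nil))) 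
(.lf (nat_lit 578371) (.g (nat_lit 1542) (.e (nat_lit 336185) (nat_lit 11) (.e (nat_lit 368676) (nat_lit 21) (.e (nat_lit 516098) (nat_lit 0) (.e (nat_lit 7591) (nat_lit 407) .nil)))) (.g (nat_lit 0) (.e (nat_lit 371262) (nat_lit 0) .nil) .nil))))) (.nd (nat_lit 8) (.nd (nat_lit 9) 
(.lf (nat_lit 577731) (.g (nat_lit 1663) (.e (nat_lit 336036) (nat_lit 4) (.e (nat_lit 123182) (nat_lit 264) (.e (nat_lit 1183) (nat_lit 87) (.e (nat_lit 57478) (nat_lit 28) .nil)))) (.g (nat_lit 0) (.e (nat_lit 369182) (nat_lit 0) .nil) .nil))) 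
(.lf (nat_lit 578243) (.g (nat_lit 3280) (.e (nat_lit 336164) (nat_lit 10) (.e (nat_lit 344117) (nat_lit 21) (.e (nat_lit 516139) (nat_lit 7) (.e (nat_lit 409645) (nat_lit 18) (.e (nat_lit 303112) (nat_lit 0) (.e (nat_lit 3252) (nat_lit 197) (.e (nat_lit 532539) (nat_lit 9) .nil))))))) (.g (nat_lit 1) (.e (nat_lit 370849) (nat_lit 0) .nil) .nil)))) (.nd (nat_lit 9) 
(.lf (nat_lit 577987) (.g (nat_lit 2210) (.e (nat_lit 336095) (nat_lit 9) (.e (nat_lit 336013) (nat_lit 2) (.e (nat_lit 90165) (nat_lit 12) (.e (nat_lit 164208) (nat_lit 176) .nil)))) (.g (nat_lit 0) (.e (nat_lit 370103) (nat_lit 0) .nil) .nil))) 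
(.lf (nat_lit 578499) (.g (nat_lit 1969) (.e (nat_lit 336208) (nat_lit 12) (.e (nat_lit 385074) (nat_lit 31) (.e (nat_lit 573484) (nat_lit 13) (.e (nat_lit 65617) (nat_lit 10) (.e (nat_lit 344133) (nat_lit 26) .nil))))) (.g (nat_lit 0) (.e (nat_lit 371761) (nat_lit 0) .nil) .nil))))))) (.nd (nat_lit 6) (.nd (nat_lit 7) (.nd (nat_lit 8) (.nd (nat_lit 9) 
(.lf (nat_lit 577571) (.g (nat_lit 2479) (.e (nat_lit 336027) (nat_lit 3) (.e (nat_lit 98350) (nat_lit 24) (.e (nat_lit 409649) (nat_lit 18) (.e (nat_lit 303112) (nat_lit 0) (.e (nat_lit 3252) (nat_lit 197) .nil))))) (.g (nat_lit 0) (.e (nat_lit 368964) (nat_lit 0) .nil) .nil))) 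
(.lf (nat_lit 578083) (.g (nat_lit 3018) (.e (nat_lit 336101) (nat_lit 9) (.e (nat_lit 336028) (nat_lit 3) (.e (nat_lit 98350) (nat_lit 24) (.e (nat_lit 409647) (nat_lit 18) (.e (nat_lit 303118) (nat_lit 3) .nil))))) (.g (nat_lit 0) (.e (nat_lit 370328) (nat_lit 0) .nil) .nil)))) (.nd (nat_lit 9) 
(.lf (nat_lit 577827) (.g (nat_lit 1555) (.e (nat_lit 336074) (nat_lit 9) (.e (nat_lit 336443) (nat_lit 32) (.e (nat_lit 466971) (nat_lit 21) (.e (nat_lit 164326) (nat_lit 230) .nil)))) (.g (nat_lit 0) (.e (nat_lit 369611) (nat_lit 0) .nil) .nil))) 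
(.lf (nat_lit 578339) (.g (nat_lit 1065) (.e (nat_lit 336174) (nat_lit 10) (.e (nat_lit 344133) (nat_lit 26) (.e (nat_lit 557057) (nat_lit 0) .nil))) (.g (nat_lit 0) (.e (nat_lit 371182) (nat_lit 0) .nil) .nil))))) (.nd (nat_lit 8) (.nd (nat_lit 9) 
(.lf (nat_lit 577699) (.g (nat_lit 3566) (.e (nat_lit 343808) (nat_lit 3) (.e (nat_lit 98373) (nat_lit 29) (.e (nat_lit 450588) (nat_lit 10) (.e (nat_lit 573473) (nat_lit 12) (.e (nat_lit 57352) (nat_lit 0) .nil))))) (.g (nat_lit 0) (.e (nat_lit 369137) (nat_lit 0) .nil) .nil))) 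
(.lf (nat_lit 578211) (.g (nat_lit 570) (.e (nat_lit 343808) (nat_lit 9) (.e (nat_lit 336324) (nat_lit 18) (.e (nat_lit 204837) (nat_lit 20) .nil))) (.g (nat_lit 0) (.e (nat_lit 370800) (nat_lit 0) .nil) .nil)))) (.nd (nat_lit 9) 
(.lf (nat_lit 577955) (.g (nat_lit 2858) (.e (nat_lit 336084) (nat_lit 9) (.e (nat_lit 336443) (nat_lit 32) (.e (nat_lit 466972) (nat_lit 21) (.e (nat_lit 164330) (nat_lit 230) (.e (nat_lit 163885) (nat_lit 5) (.e (nat_lit 221193) (nat_lit 11) .nil)))))) (.g (nat_lit 1) (.e (nat_lit 369975) (nat_lit 0) .nil) .nil))) 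
(.lf (nat_lit 578467) (.g (nat_lit 3286) (.e (nat_lit 336205) (nat_lit 12) (.e (nat_lit 385094) (nat_lit 49) (.e (nat_lit 778323) (nat_lit 5) (.e (nat_lit 73781) (nat_lit 32) (.e (nat_lit 2856) (nat_lit 184) (.e (nat_lit 426509) (nat_lit 27) .nil)))))) (.g (nat_lit 1) (.e (nat_lit 371661) (nat_lit 0) .nil) .nil)))))) (.nd (nat_lit 7) (.nd (nat_lit 8) (.nd (nat_lit 9) 
(.lf (nat_lit 577635) (.g (nat_lit 3747) (.e (nat_lit 336028) (nat_lit 3) (.e (nat_lit 98350) (nat_lit 24) (.e (nat_lit 409648) (nat_lit 18) (.e (nat_lit 303117) (nat_lit 2) (.e (nat_lit 196665) (nat_lit 13) (.e (nat_lit 65603) (nat_lit 9) .nil)))))) (.g (nat_lit 1) (.e (nat_lit 369051) (nat_lit 0) .nil) .nil))) 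
(.lf (nat_lit 578147) (.g (nat_lit 1043) (.e (nat_lit 336144) (nat_lit 9) (.e (nat_lit 336021) (nat_lit 3) (.e (nat_lit 98350) (nat_lit 24) .nil))) (.g (nat_lit 0) (.e (nat_lit 370562) (nat_lit 0) .nil) .nil)))) (.nd (nat_lit 9) 
(.lf (nat_lit 577891) (.g (nat_lit 2703) (.e (nat_lit 336077) (nat_lit 9) (.e (nat_lit 336324) (nat_lit 18) (.e (nat_lit 204831) (nat_lit 18) (.e (nat_lit 57849) (nat_lit 252) .nil)))) (.g (nat_lit 0) (.e (nat_lit 369764) (nat_lit 0) .nil) .nil))) 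
(.lf (nat_lit 578403) (.g (nat_lit 2130) (.e (nat_lit 336195) (nat_lit 12) (.e (nat_lit 385072) (nat_lit 31) (.e (nat_lit 573481) (nat_lit 13) (.e (nat_lit 65619) (nat_lit 10) (.e (nat_lit 344129) (nat_lit 26) .nil))))) (.g (nat_lit 0) (.e (nat_lit 371394) (nat_lit 0) .nil) .nil))))) (.nd (nat_lit 8) (.nd (nat_lit 9) 
(.lf (nat_lit 577763) (.g (nat_lit 2380) (.e (nat_lit 336056) (nat_lit 7) (.e (nat_lit 319530) (nat_lit 16) (.e (nat_lit 286731) (nat_lit 1) (.e (nat_lit 57687) (nat_lit 156) (.e (nat_lit 163933) (nat_lit 17) (.e (nat_lit 474880) (nat_lit 11) .nil)))))) (.g (nat_lit 1) (.e (nat_lit 369295) (nat_lit 0) .nil) .nil))) 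
(.lf (nat_lit 578275) (.g (nat_lit 3303) (.e (nat_lit 336176) (nat_lit 10) (.e (nat_lit 344117) (nat_lit 21) (.e (nat_lit 516139) (nat_lit 7) (.e (nat_lit 409608) (nat_lit 10) .nil)))) (.g (nat_lit 0) (.e (nat_lit 370953) (nat_lit 0) .nil) .nil)))) (.nd (nat_lit 9) 
(.lf (nat_lit 578019) (.g (nat_lit 2664) (.e (nat_lit 336099) (nat_lit 9) (.e (nat_lit 336013) (nat_lit 2) (.e (nat_lit 90134) (nat_lit 9) (.e (nat_lit 2823) (nat_lit 182) .nil)))) (.g (nat_lit 0) (.e (nat_lit 370183) (nat_lit 0) .nil) .nil))) 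
(.lf (nat_lit 578531) (.g (nat_lit 1320) (.e (nat_lit 336222) (nat_lit 13) (.e (nat_lit 393253) (nat_lit 18) (.e (nat_lit 164183) (nat_lit 154) (.e (nat_lit 57410) (nat_lit 12) .nil)))) (.g (nat_lit 0) (.e (nat_lit 371871) (nat_lit 0) .nil) .nil)))))))) (.nd (nat_lit 5) (.nd (nat_lit 6) (.nd (nat_lit 7) (.nd (nat_lit 8) (.nd (nat_lit 9) 
(.lf (nat_lit 577555) (.g (nat_lit 3639) (.e (nat_lit 336027) (nat_lit 3) (.e (nat_lit 98349) (nat_lit 24) (.e (nat_lit 409646) (nat_lit 18) (.e (nat_lit 303117) (nat_lit 2) (.e (nat_lit 196665) (nat_lit 13) (.e (nat_lit 65608) (nat_lit 9) .nil)))))) (.g (nat_lit 1) (.e (nat_lit 368941) (nat_lit 0) .nil) .nil))) 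
(.lf (nat_lit 578067) (.g (nat_lit 1699) (.e (nat_lit 336102) (nat_lit 9) (.e (nat_lit 336013) (nat_lit 2) (.e (nat_lit 90165) (nat_lit 12) (.e (nat_lit 164210) (nat_lit 176) .nil)))) (.g (nat_lit 0) (.e (nat_lit 370281) (nat_lit 0) .nil) .nil)))) (.nd (nat_lit 9) 
(.lf (nat_lit 577811) (.g (nat_lit 2745) (.e (nat_lit 336073) (nat_lit 9) (.e (nat_lit 336454) (nat_lit 34) (.e (nat_lit 483365) (nat_lit 18) (.e (nat_lit 57931) (nat_lit 282) .nil)))) (.g (nat_lit 0) (.e (nat_lit 369572) (nat_lit 0) .nil) .nil))) 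
(.lf (nat_lit 578323) (.g (nat_lit 2284) (.e (nat_lit 336176) (nat_lit 10) (.e (nat_lit 344133) (nat_lit 26) (.e (nat_lit 557087) (nat_lit 11) (.e (nat_lit 24582) (nat_lit 0) .nil)))) (.g (nat_lit 0) (.e (nat_lit 371148) (nat_lit 0) .nil) .nil))))) (.nd (nat_lit 8) (.nd (nat_lit 9) 
(.lf (nat_lit 577683) (.g (nat_lit 2643) (.e (nat_lit 343808) (nat_lit 3) (.e (nat_lit 98373) (nat_lit 29) (.e (nat_lit 450587) (nat_lit 10) (.e (nat_lit 573473) (nat_lit 12) (.e (nat_lit 57348) (nat_lit 0) .nil))))) (.g (nat_lit 0) (.e (nat_lit 369121) (nat_lit 0) .nil) .nil))) 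
(.lf (nat_lit 578195) (.g (nat_lit 1684) (.e (nat_lit 336158) (nat_lit 9) (.e (nat_lit 336012) (nat_lit 2) (.e (nat_lit 90130) (nat_lit 9) (.e (nat_lit 2830) (nat_lit 182) (.e (nat_lit 409647) (nat_lit 18) (.e (nat_lit 303118) (nat_lit 3) (.e (nat_lit 212736) (nat_lit 26) .nil))))))) (.g (nat_lit 1) (.e (nat_lit 370747) (nat_lit 0) .nil) .nil)))) (.nd (nat_lit 9) 
(.lf (nat_lit 577939) (.g (nat_lit 4064) (.e (nat_lit 336083) (nat_lit 9) (.e (nat_lit 336454) (nat_lit 34) (.e (nat_lit 483365) (nat_lit 18) (.e (nat_lit 57931) (nat_lit 282) .nil)))) (.g (nat_lit 0) (.e (nat_lit 369938) (nat_lit 0) .nil) .nil))) 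
(.lf (nat_lit 578451) (.g (nat_lit 2752) (.e (nat_lit 336205) (nat_lit 12) (.e (nat_lit 385068) (nat_lit 26) (.e (nat_lit 532504) (nat_lit 1) (.e (nat_lit 57851) (nat_lit 252) (.e (nat_lit 57406) (nat_lit 12) .nil))))) (.g (nat_lit 0) (.e (nat_lit 371635) (nat_lit 0) .nil) .nil)))))) (.nd (nat_lit 7) (.nd (nat_lit 8) (.nd (nat_lit 9) 
(.lf (nat_lit 577619) (.g (nat_lit 4094) (.e (nat_lit 336028) (nat_lit 3) (.e (nat_lit 98350) (nat_lit 24) (.e (nat_lit 409645) (nat_lit 18) (.e (nat_lit 303117) (nat_lit 2) (.e (nat_lit 196665) (nat_lit 13) (.e (nat_lit 65603) (nat_lit 9) .nil)))))) (.g (nat_lit 1) (.e (nat_lit 369035) (nat_lit 0) .nil) .nil))) 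
(.lf (nat_lit 578131) (.g (nat_lit 1821) (.e (nat_lit 336129) (nat_lit 9) (.e (nat_lit 336027) (nat_lit 3) (.e (nat_lit 98350) (nat_lit 24) (.e (nat_lit 417536) (nat_lit 18) .nil)))) (.g (nat_lit 0) (.e (nat_lit 370501) (nat_lit 0) .nil) .nil)))) (.nd (nat_lit 9) 
(.lf (nat_lit 577875) (.g (nat_lit 3509) (.e (nat_lit 336075) (nat_lit 9) (.e (nat_lit 336454) (nat_lit 34) (.e (nat_lit 483365) (nat_lit 18) (.e (nat_lit 57931) (nat_lit 282) (.e (nat_lit 163873) (nat_lit 3) (.e (nat_lit 204861) (nat_lit 26) .nil)))))) (.g (nat_lit 1) (.e (nat_lit 369717) (nat_lit 0) .nil) .nil))) 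
(.lf (nat_lit 578387) (.g (nat_lit 1284) (.e (nat_lit 336186) (nat_lit 11) (.e (nat_lit 368676) (nat_lit 21) (.e (nat_lit 524032) (nat_lit 27) (.e (nat_lit 344160) (nat_lit 37) (.e (nat_lit 647183) (nat_lit 4) (.e (nat_lit 172145) (nat_lit 27) .nil)))))) (.g (nat_lit 1) (.e (nat_lit 371310) (nat_lit 0) .nil) .nil))))) (.nd (nat_lit 8) (.nd (nat_lit 9) 
(.lf (nat_lit 577747) (.g (nat_lit 922) (.e (nat_lit 336049) (nat_lit 6) (.e (nat_lit 147504) (nat_lit 12) (.e (nat_lit 164056) (nat_lit 56) (.e (nat_lit 786457) (nat_lit 18) (.e (nat_lit 98380) (nat_lit 31) (.e (nat_lit 466954) (nat_lit 11) .nil)))))) (.g (nat_lit 1) (.e (nat_lit 369213) (nat_lit 0) .nil) .nil))) 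
(.lf (nat_lit 578259) (.g (nat_lit 3940) (.e (nat_lit 336173) (nat_lit 10) (.e (nat_lit 344117) (nat_lit 21) (.e (nat_lit 516139) (nat_lit 7) (.e (nat_lit 409647) (nat_lit 18) (.e (nat_lit 303119) (nat_lit 3) .nil))))) (.g (nat_lit 0) (.e (nat_lit 370893) (nat_lit 0) .nil) .nil)))) (.nd (nat_lit 9) 
(.lf (nat_lit 578003) (.g (nat_lit 809) (.e (nat_lit 336098) (nat_lit 9) (.e (nat_lit 336013) (nat_lit 2) (.e (nat_lit 90165) (nat_lit 12) .nil))) (.g (nat_lit 0) (.e (nat_lit 370151) (nat_lit 0) .nil) .nil))) 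
(.lf (nat_lit 578515) (.g (nat_lit 1029) (.e (nat_lit 336211) (nat_lit 13) (.e (nat_lit 393253) (nat_lit 18) (.e (nat_lit 164183) (nat_lit 154) (.e (nat_lit 65280) (nat_lit 18) .nil)))) (.g (nat_lit 0) (.e (nat_lit 371800) (nat_lit 0) .nil) .nil))))))) (.nd (nat_lit 6) (.nd (nat_lit 7) (.nd (nat_lit 8) (.nd (nat_lit 9) 
(.lf (nat_lit 577587) (.g (nat_lit 3982) (.e (nat_lit 336027) (nat_lit 3) (.e (nat_lit 98384) (nat_lit 32) (.e (nat_lit 475199) (nat_lit 40) (.e (nat_lit 704590) (nat_lit 3) (.e (nat_lit 163975) (nat_lit 30) .nil))))) (.g (nat_lit 0) (.e (nat_lit 368981) (nat_lit 0) .nil) .nil))) 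
(.lf (nat_lit 578099) (.g (nat_lit 1918) (.e (nat_lit 336111) (nat_lit 9) (.e (nat_lit 336028) (nat_lit 3) (.e (nat_lit 98350) (nat_lit 24) (.e (nat_lit 409616) (nat_lit 10) .nil)))) (.g (nat_lit 0) (.e (nat_lit 370352) (nat_lit 0) .nil) .nil)))) (.nd (nat_lit 9) 
(.lf (nat_lit 577843) (.g (nat_lit 2634) (.e (nat_lit 336075) (nat_lit 9) (.e (nat_lit 336324) (nat_lit 18) (.e (nat_lit 204837) (nat_lit 20) (.e (nat_lit 114698) (nat_lit 11) (.e (nat_lit 426137) (nat_lit 3) (.e (nat_lit 204861) (nat_lit 26) .nil)))))) (.g (nat_lit 1) (.e (nat_lit 369640) (nat_lit 0) .nil) .nil))) 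
(.lf (nat_lit 578355) (.g (nat_lit 3225) (.e (nat_lit 336178) (nat_lit 10) (.e (nat_lit 344117) (nat_lit 21) (.e (nat_lit 516139) (nat_lit 7) (.e (nat_lit 409643) (nat_lit 18) (.e (nat_lit 303119) (nat_lit 3) (.e (nat_lit 204855) (nat_lit 26) .nil)))))) (.g (nat_lit 1) (.e (nat_lit 371214) (nat_lit 0) .nil) .nil))))) (.nd (nat_lit 8) (.nd (nat_lit 9) 
(.lf (nat_lit 577715) (.g (nat_lit 2066) (.e (nat_lit 336030) (nat_lit 4) (.e (nat_lit 123195) (nat_lit 266) (.e (nat_lit 57354) (nat_lit 0) (.e (nat_lit 1855) (nat_lit 124) (.e (nat_lit 557100) (nat_lit 13) .nil))))) (.g (nat_lit 0) (.e (nat_lit 369155) (nat_lit 0) .nil) .nil))) 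
(.lf (nat_lit 578227) (.g (nat_lit 384) (.e (nat_lit 336160) (nat_lit 10) (.e (nat_lit 344119) (nat_lit 21) (.e (nat_lit 516142) (nat_lit 8) .nil))) (.g (nat_lit 0) (.e (nat_lit 370816) (nat_lit 0) .nil) .nil)))) (.nd (nat_lit 9) 
(.lf (nat_lit 577971) (.g (nat_lit 2619) (.e (nat_lit 336088) (nat_lit 9) (.e (nat_lit 336324) (nat_lit 18) (.e (nat_lit 204835) (nat_lit 19) (.e (nat_lit 106535) (nat_lit 11) .nil)))) (.g (nat_lit 0) (.e (nat_lit 370056) (nat_lit 0) .nil) .nil))) 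
(.lf (nat_lit 578483) (.g (nat_lit 1622) (.e (nat_lit 336206) (nat_lit 12) (.e (nat_lit 385093) (nat_lit 49) (.e (nat_lit 778323) (nat_lit 5) (.e (nat_lit 73782) (nat_lit 32) (.e (nat_lit 2857) (nat_lit 184) (.e (nat_lit 426489) (nat_lit 27) .nil)))))) (.g (nat_lit 1) (.e (nat_lit 371710) (nat_lit 0) .nil) .nil)))))) (.nd (nat_lit 7) (.nd (nat_lit 8) (.nd (nat_lit 9) 
(.lf (nat_lit 577651) (.g (nat_lit 437) (.e (nat_lit 336028) (nat_lit 3) (.e (nat_lit 98366) (nat_lit 27) (.e (nat_lit 434275) (nat_lit 39) .nil))) (.g (nat_lit 0) (.e (nat_lit 369074) (nat_lit 0) .nil) .nil))) 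
(.lf (nat_lit 578163) (.g (nat_lit 1483) (.e (nat_lit 336153) (nat_lit 9) (.e (nat_lit 336442) (nat_lit 32) (.e (nat_lit 466969) (nat_lit 21) (.e (nat_lit 164325) (nat_lit 230) (.e (nat_lit 163886) (nat_lit 5) (.e (nat_lit 221192) (nat_lit 11) .nil)))))) (.g (nat_lit 1) (.e (nat_lit 370638) (nat_lit 0) .nil) .nil)))) (.nd (nat_lit 9) 
(.lf (nat_lit 577907) (.g (nat_lit 1571) (.e (nat_lit 336077) (nat_lit 9) (.e (nat_lit 336454) (nat_lit 34) (.e (nat_lit 483363) (nat_lit 18) (.e (nat_lit 57931) (nat_lit 282) .nil)))) (.g (nat_lit 0) (.e (nat_lit 369813) (nat_lit 0) .nil) .nil))) 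
(.lf (nat_lit 578419) (.g (nat_lit 1948) (.e (nat_lit 336200) (nat_lit 12) (.e (nat_lit 385074) (nat_lit 31) (.e (nat_lit 573454) (nat_lit 9) (.e (nat_lit 1512) (nat_lit 108) .nil)))) (.g (nat_lit 0) (.e (nat_lit 371521) (nat_lit 0) .nil) .nil))))) (.nd (nat_lit 8) (.nd (nat_lit 9) 
(.lf (nat_lit 577779) (.g (nat_lit 810) (.e (nat_lit 336060) (nat_lit 7) (.e (nat_lit 319530) (nat_lit 16) (.e (nat_lit 286722) (nat_lit 0) .nil))) (.g (nat_lit 0) (.e (nat_lit 369444) (nat_lit 0) .nil) .nil))) 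
(.lf (nat_lit 578291) (.g (nat_lit 2632) (.e (nat_lit 336176) (nat_lit 10) (.e (nat_lit 344126) (nat_lit 25) (.e (nat_lit 548889) (nat_lit 9) (.e (nat_lit 65630) (nat_lit 14) .nil)))) (.g (nat_lit 0) (.e (nat_lit 371002) (nat_lit 0) .nil) .nil)))) (.nd (nat_lit 9) 
(.lf (nat_lit 578035) (.g (nat_lit 1268) (.e (nat_lit 336099) (nat_lit 9) (.e (nat_lit 336013) (nat_lit 2) (.e (nat_lit 90166) (nat_lit 13) .nil))) (.g (nat_lit 0) (.e (nat_lit 370200) (nat_lit 0) .nil) .nil))) 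
(.lf (nat_lit 578547) (.g (nat_lit 1256) (.e (nat_lit 336226) (nat_lit 14) (.e (nat_lit 401437) (nat_lit 9) (.e (nat_lit 426544) (nat_lit 30) (.e (nat_lit 360457) (nat_lit 0) .nil)))) (.g (nat_lit 0) (.e (nat_lit 371931) (nat_lit 0) .nil) .nil))))))))) (.nd (nat_lit 4) (.nd (nat_lit 5) (.nd (nat_lit 6) (.nd (nat_lit 7) (.nd (nat_lit 8) (.nd (nat_lit 9) 
(.lf (nat_lit 577547) (.g (nat_lit 3012) (.e (nat_lit 336027) (nat_lit 3) (.e (nat_lit 98334) (nat_lit 18) (.e (nat_lit 164182) (nat_lit 154) (.e (nat_lit 57378) (nat_lit 3) (.e (nat_lit 98340) (nat_lit 20) (.e (nat_lit 221215) (nat_lit 23) (.e (nat_lit 204861) (nat_lit 26) .nil))))))) (.g (nat_lit 1) (.e (nat_lit 368931) (nat_lit 0) .nil) .nil))) 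
(.lf (nat_lit 578059) (.g (nat_lit 2361) (.e (nat_lit 336099) (nat_lit 9) (.e (nat_lit 336028) (nat_lit 3) (.e (nat_lit 98349) (nat_lit 24) (.e (nat_lit 409648) (nat_lit 18) (.e (nat_lit 303104) (nat_lit 0) (.e (nat_lit 7936) (nat_lit 197) (.e (nat_lit 532535) (nat_lit 9) .nil))))))) (.g (nat_lit 1) (.e (nat_lit 370246) (nat_lit 0) .nil) .nil)))) (.nd (nat_lit 9) 
(.lf (nat_lit 577803) (.g (nat_lit 3898) (.e (nat_lit 336073) (nat_lit 9) (.e (nat_lit 336028) (nat_lit 3) (.e (nat_lit 98350) (nat_lit 24) (.e (nat_lit 409645) (nat_lit 18) (.e (nat_lit 303118) (nat_lit 3) .nil))))) (.g (nat_lit 0) (.e (nat_lit 369560) (nat_lit 0) .nil) .nil))) 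
(.lf (nat_lit 578315) (.g (nat_lit 3134) (.e (nat_lit 336176) (nat_lit 10) (.e (nat_lit 344133) (nat_lit 26) (.e (nat_lit 557065) (nat_lit 9) (.e (nat_lit 214) (nat_lit 19) (.e (nat_lit 319490) (nat_lit 0) (.e (nat_lit 5761) (nat_lit 315) (.e (nat_lit 163962) (nat_lit 25) (.e (nat_lit 532535) (nat_lit 9) .nil)))))))) (.g (nat_lit 1) (.e (nat_lit 371125) (nat_lit 0) .nil) .nil))))) 
(.nd (nat_lit 8) (.nd (nat_lit 9) 
(.lf (nat_lit 577675) (.g (nat_lit 2098) (.e (nat_lit 343808) (nat_lit 3) (.e (nat_lit 98350) (nat_lit 24) (.e (nat_lit 409649) (nat_lit 18) (.e (nat_lit 303116) (nat_lit 2) (.e (nat_lit 196666) (nat_lit 13) .nil))))) (.g (nat_lit 0) (.e (nat_lit 369113) (nat_lit 0) .nil) .nil))) 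
(.lf (nat_lit 578187) (.g (nat_lit 1377) (.e (nat_lit 336158) (nat_lit 9) (.e (nat_lit 335996) (nat_lit 1) (.e (nat_lit 57854) (nat_lit 252) (.e (nat_lit 57388) (nat_lit 5) .nil)))) (.g (nat_lit 0) (.e (nat_lit 370733) (nat_lit 0) .nil) .nil)))) (.nd (nat_lit 9) 
(.lf (nat_lit 577931) (.g (nat_lit 2108) (.e (nat_lit 336083) (nat_lit 9) (.e (nat_lit 336019) (nat_lit 3) (.e (nat_lit 98350) (nat_lit 24) (.e (nat_lit 409645) (nat_lit 18) .nil)))) (.g (nat_lit 0) (.e (nat_lit 369925) (nat_lit 0) .nil) .nil))) 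
(.lf (nat_lit 578443) (.g (nat_lit 2065) (.e (nat_lit 336204) (nat_lit 12) (.e (nat_lit 385074) (nat_lit 31) (.e (nat_lit 573487) (nat_lit 14) (.e (nat_lit 73782) (nat_lit 32) (.e (nat_lit 2682) (nat_lit 168) (.e (nat_lit 212736) (nat_lit 26) .nil)))))) (.g (nat_lit 1) (.e (nat_lit 371618) (nat_lit 0) .nil) .nil)))))) (.nd (nat_lit 7) (.nd (nat_lit 8) (.nd (nat_lit 9) 
(.lf (nat_lit 577611) (.g (nat_lit 1590) (.e (nat_lit 336028) (nat_lit 3) (.e (nat_lit 98350) (nat_lit 24) (.e (nat_lit 409617) (nat_lit 10) (.e (nat_lit 5760) (nat_lit 315) .nil)))) (.g (nat_lit 0) (.e (nat_lit 369023) (nat_lit 0) .nil) .nil))) 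
(.lf (nat_lit 578123) (.g (nat_lit 2212) (.e (nat_lit 336116) (nat_lit 9) (.e (nat_lit 336323) (nat_lit 18) (.e (nat_lit 204838) (nat_lit 20) (.e (nat_lit 114698) (nat_lit 11) (.e (nat_lit 426138) (nat_lit 3) (.e (nat_lit 204859) (nat_lit 26) .nil)))))) (.g (nat_lit 1) (.e (nat_lit 370420) (nat_lit 0) .nil) .nil)))) (.nd (nat_lit 9) 
(.lf (nat_lit 577867) (.g (nat_lit 3504) (.e (nat_lit 336075) (nat_lit 9) (.e (nat_lit 336454) (nat_lit 34) (.e (nat_lit 483363) (nat_lit 18) (.e (nat_lit 57927) (nat_lit 282) (.e (nat_lit 163875) (nat_lit 3) (.e (nat_lit 204861) (nat_lit 26) .nil)))))) (.g (nat_lit 1) (.e (nat_lit 369703) (nat_lit 0) .nil) .nil))) 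
(.lf (nat_lit 578379) (.g (nat_lit 1152) (.e (nat_lit 336186) (nat_lit 11) (.e (nat_lit 368676) (nat_lit 21) (.e (nat_lit 516139) (nat_lit 7) (.e (nat_lit 409616) (nat_lit 10) .nil)))) (.g (nat_lit 0) (.e (nat_lit 371282) (nat_lit 0) .nil) .nil))))) (.nd (nat_lit 8) (.nd (nat_lit 9) 
(.lf (nat_lit 577739) (.g (nat_lit 922) (.e (nat_lit 336049) (nat_lit 6) (.e (nat_lit 147498) (nat_lit 12) (.e (nat_lit 164054) (nat_lit 56) (.e (nat_lit 786457) (nat_lit 18) (.e (nat_lit 98380) (nat_lit 31) (.e (nat_lit 466954) (nat_lit 11) .nil)))))) (.g (nat_lit 1) (.e (nat_lit 369205) (nat_lit 0) .nil) .nil))) 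
(.lf (nat_lit 578251) (.g (nat_lit 1981) (.e (nat_lit 336171) (nat_lit 10) (.e (nat_lit 344133) (nat_lit 26) (.e (nat_lit 557090) (nat_lit 12) (.e (nat_lit 164020) (nat_lit 45) .nil)))) (.g (nat_lit 0) (.e (nat_lit 370872) (nat_lit 0) .nil) .nil)))) (.nd (nat_lit 9) 
(.lf (nat_lit 577995) (.g (nat_lit 3703) (.e (nat_lit 336097) (nat_lit 9) (.e (nat_lit 336028) (nat_lit 3) (.e (nat_lit 98350) (nat_lit 24) (.e (nat_lit 409645) (nat_lit 18) (.e (nat_lit 303119) (nat_lit 3) .nil))))) (.g (nat_lit 0) (.e (nat_lit 370137) (nat_lit 0) .nil) .nil))) 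
(.lf (nat_lit 578507) (.g (nat_lit 1157) (.e (nat_lit 343808) (nat_lit 12) (.e (nat_lit 385074) (nat_lit 31) (.e (nat_lit 573485) (nat_lit 13) (.e (nat_lit 65628) (nat_lit 14) .nil)))) (.g (nat_lit 0) (.e (nat_lit 371785) (nat_lit 0) .nil) .nil))))))) (.nd (nat_lit 6) (.nd (nat_lit 7) (.nd (nat_lit 8) (.nd (nat_lit 9) 
(.lf (nat_lit 577579) (.g (nat_lit 1612) (.e (nat_lit 336027) (nat_lit 3) (.e (nat_lit 98384) (nat_lit 32) (.e (nat_lit 475199) (nat_lit 40) .nil))) (.g (nat_lit 0) (.e (nat_lit 368973) (nat_lit 0) .nil) .nil))) 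
(.lf (nat_lit 578091) (.g (nat_lit 2001) (.e (nat_lit 336111) (nat_lit 9) (.e (nat_lit 336013) (nat_lit 2) (.e (nat_lit 90165) (nat_lit 12) (.e (nat_lit 164207) (nat_lit 176) .nil)))) (.g (nat_lit 0) (.e (nat_lit 370341) (nat_lit 0) .nil) .nil)))) (.nd (nat_lit 9) 
(.lf (nat_lit 577835) (.g (nat_lit 2074) (.e (nat_lit 336074) (nat_lit 9) (.e (nat_lit 336454) (nat_lit 34) (.e (nat_lit 483365) (nat_lit 18) (.e (nat_lit 57851) (nat_lit 252) .nil)))) (.g (nat_lit 0) (.e (nat_lit 369619) (nat_lit 0) .nil) .nil))) 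
(.lf (nat_lit 578347) (.g (nat_lit 654) (.e (nat_lit 336177) (nat_lit 10) (.e (nat_lit 344129) (nat_lit 26) (.e (nat_lit 557066) (nat_lit 9) .nil))) (.g (nat_lit 0) (.e (nat_lit 371196) (nat_lit 0) .nil) .nil))))) (.nd (nat_lit 8) (.nd (nat_lit 9) 
(.lf (nat_lit 577707) (.g (nat_lit 2988) (.e (nat_lit 343808) (nat_lit 3) (.e (nat_lit 98373) (nat_lit 29) (.e (nat_lit 450588) (nat_lit 10) (.e (nat_lit 573475) (nat_lit 12) (.e (nat_lit 57354) (nat_lit 0) .nil))))) (.g (nat_lit 0) (.e (nat_lit 369145) (nat_lit 0) .nil) .nil))) 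
(.lf (nat_lit 578219) (.g (nat_lit 2214) (.e (nat_lit 343808) (nat_lit 9) (.e (nat_lit 336454) (nat_lit 34) (.e (nat_lit 483365) (nat_lit 18) (.e (nat_lit 57846) (nat_lit 252) .nil)))) (.g (nat_lit 0) (.e (nat_lit 370808) (nat_lit 0) .nil) .nil)))) (.nd (nat_lit 9) 
(.lf (nat_lit 577963) (.g (nat_lit 1175) (.e (nat_lit 336087) (nat_lit 9) (.e (nat_lit 336019) (nat_lit 3) (.e (nat_lit 98334) (nat_lit 18) (.e (nat_lit 164183) (nat_lit 154) .nil)))) (.g (nat_lit 0) (.e (nat_lit 370028) (nat_lit 0) .nil) .nil))) 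
(.lf (nat_lit 578475) (.g (nat_lit 2448) (.e (nat_lit 336206) (nat_lit 12) (.e (nat_lit 385068) (nat_lit 26) (.e (nat_lit 532513) (nat_lit 3) (.e (nat_lit 114697) (nat_lit 11) (.e (nat_lit 426137) (nat_lit 3) (.e (nat_lit 204859) (nat_lit 26) .nil)))))) (.g (nat_lit 1) (.e (nat_lit 371683) (nat_lit 0) .nil) .nil)))))) (.nd (nat_lit 7) (.nd (nat_lit 8) (.nd (nat_lit 9) 
(.lf (nat_lit 577643) (.g (nat_lit 4779) (.e (nat_lit 336028) (nat_lit 3) (.e (nat_lit 98350) (nat_lit 24) (.e (nat_lit 409649) (nat_lit 18) (.e (nat_lit 303111) (nat_lit 0) (.e (nat_lit 3238) (nat_lit 197) (.e (nat_lit 532535) (nat_lit 9) (.e (nat_lit 336073) (nat_lit 9) .nil))))))) (.g (nat_lit 1) (.e (nat_lit 369059) (nat_lit 0) .nil) .nil))) 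
(.lf (nat_lit 578155) (.g (nat_lit 2037) (.e (nat_lit 336152) (nat_lit 9) (.e (nat_lit 336442) (nat_lit 32) (.e (nat_lit 466969) (nat_lit 21) (.e (nat_lit 164331) (nat_lit 230) (.e (nat_lit 163885) (nat_lit 5) (.e (nat_lit 221192) (nat_lit 11) .nil)))))) (.g (nat_lit 1) (.e (nat_lit 370615) (nat_lit 0) .nil) .nil)))) (.nd (nat_lit 9) 
(.lf (nat_lit 577899) (.g (nat_lit 3438) (.e (nat_lit 336077) (nat_lit 9) (.e (nat_lit 336443) (nat_lit 32) (.e (nat_lit 466969) (nat_lit 21) (.e (nat_lit 164332) (nat_lit 230) (.e (nat_lit 163885) (nat_lit 5) (.e (nat_lit 221194) (nat_lit 11) .nil)))))) (.g (nat_lit 1) (.e (nat_lit 369805) (nat_lit 0) .nil) .nil))) 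
(.lf (nat_lit 578411) (.g (nat_lit 2265) (.e (nat_lit 336198) (nat_lit 12) (.e (nat_lit 385074) (nat_lit 31) (.e (nat_lit 573480) (nat_lit 13) (.e (nat_lit 65630) (nat_lit 14) (.e (nat_lit 401428) (nat_lit 3) (.e (nat_lit 204858) (nat_lit 26) .nil)))))) (.g (nat_lit 1) (.e (nat_lit 371488) (nat_lit 0) .nil) .nil))))) (.nd (nat_lit 8) (.nd (nat_lit 9) 
(.lf (nat_lit 577771) (.g (nat_lit 2741) (.e (nat_lit 336061) (nat_lit 7) (.e (nat_lit 319531) (nat_lit 16) (.e (nat_lit 286731) (nat_lit 1) (.e (nat_lit 57687) (nat_lit 156) (.e (nat_lit 163933) (nat_lit 17) (.e (nat_lit 474880) (nat_lit 11) .nil)))))) (.g (nat_lit 1) (.e (nat_lit 369340) (nat_lit 0) .nil) .nil))) 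
(.lf (nat_lit 578283) (.g (nat_lit 2382) (.e (nat_lit 336176) (nat_lit 10) (.e (nat_lit 344117) (nat_lit 21) (.e (nat_lit 516139) (nat_lit 7) (.e (nat_lit 409647) (nat_lit 18) .nil)))) (.g (nat_lit 0) (.e (nat_lit 370983) (nat_lit 0) .nil) .nil)))) (.nd (nat_lit 9) 
(.lf (nat_lit 578027) (.g (nat_lit 1368) (.e (nat_lit 336099) (nat_lit 9) (.e (nat_lit 336013) (nat_lit 2) (.e (nat_lit 90160) (nat_lit 11) .nil))) (.g (nat_lit 0) (.e (nat_lit 370192) (nat_lit 0) .nil) .nil))) 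
(.lf (nat_lit 578539) (.g (nat_lit 3520) (.e (nat_lit 336225) (nat_lit 14) (.e (nat_lit 401459) (nat_lit 13) (.e (nat_lit 483372) (nat_lit 21) (.e (nat_lit 319505) (nat_lit 10) .nil)))) (.g (nat_lit 0) (.e (nat_lit 371895) (nat_lit 0) .nil) .nil)))))))) (.nd (nat_lit 5) (.nd (nat_lit 6) (.nd (nat_lit 7) (.nd (nat_lit 8) (.nd (nat_lit 9) 
(.lf (nat_lit 577563) (.g (nat_lit 3189) (.e (nat_lit 336027) (nat_lit 3) (.e (nat_lit 98350) (nat_lit 24) (.e (nat_lit 409645) (nat_lit 18) (.e (nat_lit 303112) (nat_lit 0) (.e (nat_lit 3252) (nat_lit 197) (.e (nat_lit 532529) (nat_lit 9) (.e (nat_lit 336129) (nat_lit 9) .nil))))))) (.g (nat_lit 1) (.e (nat_lit 368954) (nat_lit 0) .nil) .nil))) 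
(.lf (nat_lit 578075) (.g (nat_lit 3938) (.e (nat_lit 336102) (nat_lit 9) (.e (nat_lit 336028) (nat_lit 3) (.e (nat_lit 98350) (nat_lit 24) (.e (nat_lit 409645) (nat_lit 18) (.e (nat_lit 303118) (nat_lit 3) .nil))))) (.g (nat_lit 0) (.e (nat_lit 370302) (nat_lit 0) .nil) .nil)))) (.nd (nat_lit 9) 
(.lf (nat_lit 577819) (.g (nat_lit 2212) (.e (nat_lit 336074) (nat_lit 9) (.e (nat_lit 336443) (nat_lit 32) (.e (nat_lit 466969) (nat_lit 21) (.e (nat_lit 164330) (nat_lit 230) (.e (nat_lit 163885) (nat_lit 5) .nil))))) (.g (nat_lit 0) (.e (nat_lit 369603) (nat_lit 0) .nil) .nil))) 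
(.lf (nat_lit 578331) (.g (nat_lit 2286) (.e (nat_lit 336176) (nat_lit 10) (.e (nat_lit 344133) (nat_lit 26) (.e (nat_lit 557087) (nat_lit 11) (.e (nat_lit 24594) (nat_lit 0) .nil)))) (.g (nat_lit 0) (.e (nat_lit 371162) (nat_lit 0) .nil) .nil))))) (.nd (nat_lit 8) (.nd (nat_lit 9) 
(.lf (nat_lit 577691) (.g (nat_lit 3899) (.e (nat_lit 343808) (nat_lit 3) (.e (nat_lit 98373) (nat_lit 29) (.e (nat_lit 450587) (nat_lit 10) (.e (nat_lit 573475) (nat_lit 12) (.e (nat_lit 57353) (nat_lit 0) .nil))))) (.g (nat_lit 0) (.e (nat_lit 369129) (nat_lit 0) .nil) .nil))) 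
(.lf (nat_lit 578203) (.g (nat_lit 1933) (.e (nat_lit 336141) (nat_lit 9) (.e (nat_lit 335996) (nat_lit 1) (.e (nat_lit 57854) (nat_lit 252) (.e (nat_lit 57388) (nat_lit 5) .nil)))) (.g (nat_lit 0) (.e (nat_lit 370782) (nat_lit 0) .nil) .nil)))) (.nd (nat_lit 9) 
(.lf (nat_lit 577947) (.g (nat_lit 2605) (.e (nat_lit 336084) (nat_lit 9) (.e (nat_lit 336443) (nat_lit 32) (.e (nat_lit 466969) (nat_lit 21) (.e (nat_lit 164330) (nat_lit 230) (.e (nat_lit 163885) (nat_lit 5) (.e (nat_lit 221193) (nat_lit 11) .nil)))))) (.g (nat_lit 1) (.e (nat_lit 369967) (nat_lit 0) .nil) .nil))) 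
(.lf (nat_lit 578459) (.g (nat_lit 1256) (.e (nat_lit 336205) (nat_lit 12) (.e (nat_lit 385074) (nat_lit 31) (.e (nat_lit 573491) (nat_lit 15) (.e (nat_lit 81943) (nat_lit 20) .nil)))) (.g (nat_lit 0) (.e (nat_lit 371653) (nat_lit 0) .nil) .nil)))))) (.nd (nat_lit 7) (.nd (nat_lit 8) (.nd (nat_lit 9) 
(.lf (nat_lit 577627) (.g (nat_lit 2229) (.e (nat_lit 336028) (nat_lit 3) (.e (nat_lit 98350) (nat_lit 24) (.e (nat_lit 409646) (nat_lit 18) (.e (nat_lit 303119) (nat_lit 3) (.e (nat_lit 204855) (nat_lit 26) .nil))))) (.g (nat_lit 0) (.e (nat_lit 369043) (nat_lit 0) .nil) .nil))) 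
(.lf (nat_lit 578139) (.g (nat_lit 4690) (.e (nat_lit 336130) (nat_lit 9) (.e (nat_lit 336027) (nat_lit 3) (.e (nat_lit 98350) (nat_lit 24) (.e (nat_lit 409646) (nat_lit 18) (.e (nat_lit 303119) (nat_lit 3) (.e (nat_lit 204852) (nat_lit 26) .nil)))))) (.g (nat_lit 1) (.e (nat_lit 370541) (nat_lit 0) .nil) .nil)))) (.nd (nat_lit 9) 
(.lf (nat_lit 577883) (.g (nat_lit 2749) (.e (nat_lit 336076) (nat_lit 9) (.e (nat_lit 336370) (nat_lit 27) (.e (nat_lit 426499) (nat_lit 27) (.e (nat_lit 335986) (nat_lit 1) (.e (nat_lit 57927) (nat_lit 282) (.e (nat_lit 163873) (nat_lit 3) (.e (nat_lit 204861) (nat_lit 26) .nil))))))) (.g (nat_lit 1) (.e (nat_lit 369748) (nat_lit 0) .nil) .nil))) 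
(.lf (nat_lit 578395) (.g (nat_lit 2751) (.e (nat_lit 336194) (nat_lit 12) (.e (nat_lit 385068) (nat_lit 26) (.e (nat_lit 532515) (nat_lit 3) (.e (nat_lit 114697) (nat_lit 11) (.e (nat_lit 426137) (nat_lit 3) (.e (nat_lit 204861) (nat_lit 26) .nil)))))) (.g (nat_lit 1) (.e (nat_lit 371349) (nat_lit 0) .nil) .nil))))) (.nd (nat_lit 8) (.nd (nat_lit 9) 
(.lf (nat_lit 577755) (.g (nat_lit 2273) (.e (nat_lit 336051) (nat_lit 6) (.e (nat_lit 147496) (nat_lit 11) (.e (nat_lit 24603) (nat_lit 2) (.e (nat_lit 90162) (nat_lit 12) (.e (nat_lit 164031) (nat_lit 53) (.e (nat_lit 761901) (nat_lit 16) (.e (nat_lit 172149) (nat_lit 27) .nil))))))) (.g (nat_lit 1) (.e (nat_lit 369233) (nat_lit 0) .nil) .nil))) 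
(.lf (nat_lit 578267) (.g (nat_lit 3465) (.e (nat_lit 336173) (nat_lit 10) (.e (nat_lit 344126) (nat_lit 25) (.e (nat_lit 548889) (nat_lit 9) (.e (nat_lit 65630) (nat_lit 14) (.e (nat_lit 401410) (nat_lit 0) .nil))))) (.g (nat_lit 0) (.e (nat_lit 370924) (nat_lit 0) .nil) .nil)))) (.nd (nat_lit 9) 
(.lf (nat_lit 578011) (.g (nat_lit 1644) (.e (nat_lit 336099) (nat_lit 9) (.e (nat_lit 336013) (nat_lit 2) (.e (nat_lit 90121) (nat_lit 9) (.e (nat_lit 2824) (nat_lit 182) .nil)))) (.g (nat_lit 0) (.e (nat_lit 370169) (nat_lit 0) .nil) .nil))) 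
(.lf (nat_lit 578523) (.g (nat_lit 853) (.e (nat_lit 336213) (nat_lit 13) (.e (nat_lit 393225) (nat_lit 9) (.e (nat_lit 335931) (nat_lit 0) .nil))) (.g (nat_lit 0) (.e (nat_lit 371822) (nat_lit 0) .nil) .nil))))))) (.nd (nat_lit 6) (.nd (nat_lit 7) (.nd (nat_lit 8) (.nd (nat_lit 9) 
(.lf (nat_lit 577595) (.g (nat_lit 2523) (.e (nat_lit 336028) (nat_lit 3) (.e (nat_lit 98349) (nat_lit 24) (.e (nat_lit 409645) (nat_lit 18) (.e (nat_lit 303117) (nat_lit 2) (.e (nat_lit 196665) (nat_lit 13) .nil))))) (.g (nat_lit 0) (.e (nat_lit 369000) (nat_lit 0) .nil) .nil))) 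
(.lf (nat_lit 578107) (.g (nat_lit 2573) (.e (nat_lit 336104) (nat_lit 9) (.e (nat_lit 336028) (nat_lit 3) (.e (nat_lit 98349) (nat_lit 24) (.e (nat_lit 409645) (nat_lit 18) (.e (nat_lit 303119) (nat_lit 3) .nil))))) (.g (nat_lit 0) (.e (nat_lit 370371) (nat_lit 0) .nil) .nil)))) (.nd (nat_lit 9) 
(.lf (nat_lit 577851) (.g (nat_lit 2467) (.e (nat_lit 336075) (nat_lit 9) (.e (nat_lit 336326) (nat_lit 18) (.e (nat_lit 204835) (nat_lit 19) (.e (nat_lit 106534) (nat_lit 11) (.e (nat_lit 16416) (nat_lit 3) (.e (nat_lit 204861) (nat_lit 26) .nil)))))) (.g (nat_lit 1) (.e (nat_lit 369648) (nat_lit 0) .nil) .nil))) 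
(.lf (nat_lit 578363) (.g (nat_lit 1646) (.e (nat_lit 336178) (nat_lit 10) (.e (nat_lit 344117) (nat_lit 21) (.e (nat_lit 516142) (nat_lit 8) (.e (nat_lit 417829) (nat_lit 18) .nil)))) (.g (nat_lit 0) (.e (nat_lit 371222) (nat_lit 0) .nil) .nil))))) (.nd (nat_lit 8) (.nd (nat_lit 9) 
(.lf (nat_lit 577723) (.g (nat_lit 2095) (.e (nat_lit 336032) (nat_lit 4) (.e (nat_lit 123183) (nat_lit 264) (.e (nat_lit 1183) (nat_lit 87) (.e (nat_lit 57479) (nat_lit 28) (.e (nat_lit 557100) (nat_lit 13) .nil))))) (.g (nat_lit 0) (.e (nat_lit 369169) (nat_lit 0) .nil) .nil))) 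
(.lf (nat_lit 578235) (.g (nat_lit 4197) (.e (nat_lit 336163) (nat_lit 10) (.e (nat_lit 344117) (nat_lit 21) (.e (nat_lit 516139) (nat_lit 7) (.e (nat_lit 409646) (nat_lit 18) (.e (nat_lit 303119) (nat_lit 3) (.e (nat_lit 204855) (nat_lit 26) .nil)))))) (.g (nat_lit 1) (.e (nat_lit 370833) (nat_lit 0) .nil) .nil)))) (.nd (nat_lit 9) 
(.lf (nat_lit 577979) (.g (nat_lit 602) (.e (nat_lit 336089) (nat_lit 9) (.e (nat_lit 336324) (nat_lit 18) (.e (nat_lit 204837) (nat_lit 20) .nil))) (.g (nat_lit 0) (.e (nat_lit 370082) (nat_lit 0) .nil) .nil))) 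
(.lf (nat_lit 578491) (.g (nat_lit 2924) (.e (nat_lit 336208) (nat_lit 12) (.e (nat_lit 385068) (nat_lit 26) (.e (nat_lit 532513) (nat_lit 3) (.e (nat_lit 114697) (nat_lit 11) (.e (nat_lit 426138) (nat_lit 3) (.e (nat_lit 204854) (nat_lit 26) .nil)))))) (.g (nat_lit 1) (.e (nat_lit 371744) (nat_lit 0) .nil) .nil)))))) (.nd (nat_lit 7) (.nd (nat_lit 8) (.nd (nat_lit 9) 
(.lf (nat_lit 577659) (.g (nat_lit 5054) (.e (nat_lit 336028) (nat_lit 3) (.e (nat_lit 98367) (nat_lit 27) (.e (nat_lit 434272) (nat_lit 38) (.e (nat_lit 655375) (nat_lit 3) (.e (nat_lit 163978) (nat_lit 30) (.e (nat_lit 573485) (nat_lit 13) (.e (nat_lit 65604) (nat_lit 9) .nil))))))) (.g (nat_lit 1) (.e (nat_lit 369090) (nat_lit 0) .nil) .nil))) 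
(.lf (nat_lit 578171) (.g (nat_lit 2762) (.e (nat_lit 336158) (nat_lit 9) (.e (nat_lit 335986) (nat_lit 1) (.e (nat_lit 57847) (nat_lit 252) (.e (nat_lit 57389) (nat_lit 5) (.e (nat_lit 122624) (nat_lit 13) .nil))))) (.g (nat_lit 0) (.e (nat_lit 370694) (nat_lit 0) .nil) .nil)))) (.nd (nat_lit 9) 
(.lf (nat_lit 577915) (.g (nat_lit 2406) (.e (nat_lit 336078) (nat_lit 9) (.e (nat_lit 336324) (nat_lit 18) (.e (nat_lit 204831) (nat_lit 18) (.e (nat_lit 57852) (nat_lit 252) (.e (nat_lit 57409) (nat_lit 12) (.e (nat_lit 336377) (nat_lit 27) (.e (nat_lit 426525) (nat_lit 27) .nil))))))) (.g (nat_lit 1) (.e (nat_lit 369840) (nat_lit 0) .nil) .nil))) 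
(.lf (nat_lit 578427) (.g (nat_lit 2263) (.e (nat_lit 336200) (nat_lit 12) (.e (nat_lit 385074) (nat_lit 31) (.e (nat_lit 573493) (nat_lit 15) (.e (nat_lit 81947) (nat_lit 20) .nil)))) (.g (nat_lit 0) (.e (nat_lit 371552) (nat_lit 0) .nil) .nil))))) (.nd (nat_lit 8) (.nd (nat_lit 9) 
(.lf (nat_lit 577787) (.g (nat_lit 3531) (.e (nat_lit 336065) (nat_lit 8) (.e (nat_lit 327708) (nat_lit 10) (.e (nat_lit 5270) (nat_lit 298) (.e (nat_lit 1183) (nat_lit 87) .nil)))) (.g (nat_lit 0) (.e (nat_lit 369497) (nat_lit 0) .nil) .nil))) 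
(.lf (nat_lit 578299) (.g (nat_lit 2207) (.e (nat_lit 336176) (nat_lit 10) (.e (nat_lit 344127) (nat_lit 26) (.e (nat_lit 557090) (nat_lit 12) (.e (nat_lit 164022) (nat_lit 46) .nil)))) (.g (nat_lit 0) (.e (nat_lit 371040) (nat_lit 0) .nil) .nil)))) (.nd (nat_lit 9) 
(.lf (nat_lit 578043) (.g (nat_lit 4958) (.e (nat_lit 336099) (nat_lit 9) (.e (nat_lit 336013) (nat_lit 2) (.e (nat_lit 90170) (nat_lit 13) (.e (nat_lit 172048) (nat_lit 0) .nil)))) (.g (nat_lit 0) (.e (nat_lit 370212) (nat_lit 0) .nil) .nil))) 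
(.lf (nat_lit 578555) (.g (nat_lit 1132) (.e (nat_lit 336226) (nat_lit 14) (.e (nat_lit 401458) (nat_lit 13) (.e (nat_lit 483350) (nat_lit 17) (.e (nat_lit 6113) (nat_lit 332) .nil)))) (.g (nat_lit 0) (.e (nat_lit 371965) (nat_lit 0) .nil) .nil)))))))))) (.nd (nat_lit 3) (.nd (nat_lit 4) (.nd (nat_lit 5) (.nd (nat_lit 6) (.nd (nat_lit 7) (.nd (nat_lit 8) (.nd (nat_lit 9) 
(.lf (nat_lit 577543) (.g (nat_lit 1066) (.e (nat_lit 336027) (nat_lit 3) (.e (nat_lit 98317) (nat_lit 9) (.e (nat_lit 335986) (nat_lit 1) (.e (nat_lit 57927) (nat_lit 282) .nil)))) (.g (nat_lit 0) (.e (nat_lit 368920) (nat_lit 0) .nil) .nil))) 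
(.lf (nat_lit 578055) (.g (nat_lit 2913) (.e (nat_lit 336099) (nat_lit 9) (.e (nat_lit 336028) (nat_lit 3) (.e (nat_lit 98349) (nat_lit 24) (.e (nat_lit 409616) (nat_lit 10) (.e (nat_lit 5763) (nat_lit 315) (.e (nat_lit 171776) (nat_lit 25) (.e (nat_lit 532535) (nat_lit 9) .nil))))))) (.g (nat_lit 1) (.e (nat_lit 370241) (nat_lit 0) .nil) .nil)))) (.nd (nat_lit 9) 
(.lf (nat_lit 577799) (.g (nat_lit 3450) (.e (nat_lit 336073) (nat_lit 9) (.e (nat_lit 336028) (nat_lit 3) (.e (nat_lit 98349) (nat_lit 24) (.e (nat_lit 409645) (nat_lit 18) (.e (nat_lit 303119) (nat_lit 3) (.e (nat_lit 204855) (nat_lit 26) .nil)))))) (.g (nat_lit 1) (.e (nat_lit 369544) (nat_lit 0) .nil) .nil))) 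
(.lf (nat_lit 578311) (.g (nat_lit 2037) (.e (nat_lit 336176) (nat_lit 10) (.e (nat_lit 344132) (nat_lit 26) (.e (nat_lit 557091) (nat_lit 12) (.e (nat_lit 164018) (nat_lit 45) .nil)))) (.g (nat_lit 0) (.e (nat_lit 371118) (nat_lit 0) .nil) .nil))))) (.nd (nat_lit 8) (.nd (nat_lit 9) 
(.lf (nat_lit 577671) (.g (nat_lit 1738) (.e (nat_lit 343808) (nat_lit 3) (.e (nat_lit 98350) (nat_lit 24) (.e (nat_lit 409646) (nat_lit 18) (.e (nat_lit 303117) (nat_lit 2) .nil)))) (.g (nat_lit 0) (.e (nat_lit 369107) (nat_lit 0) .nil) .nil))) 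
(.lf (nat_lit 578183) (.g (nat_lit 1983) (.e (nat_lit 336158) (nat_lit 9) (.e (nat_lit 335988) (nat_lit 1) (.e (nat_lit 57854) (nat_lit 252) (.e (nat_lit 57388) (nat_lit 5) (.e (nat_lit 122624) (nat_lit 13) .nil))))) (.g (nat_lit 0) (.e (nat_lit 370720) (nat_lit 0) .nil) .nil)))) (.nd (nat_lit 9) 
(.lf (nat_lit 577927) (.g (nat_lit 3679) (.e (nat_lit 336082) (nat_lit 9) (.e (nat_lit 336454) (nat_lit 34) (.e (nat_lit 483365) (nat_lit 18) (.e (nat_lit 57849) (nat_lit 252) .nil)))) (.g (nat_lit 0) (.e (nat_lit 369911) (nat_lit 0) .nil) .nil))) 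
(.lf (nat_lit 578439) (.g (nat_lit 1580) (.e (nat_lit 336204) (nat_lit 12) (.e (nat_lit 385074) (nat_lit 31) (.e (nat_lit 573482) (nat_lit 13) (.e (nat_lit 65624) (nat_lit 12) .nil)))) (.g (nat_lit 0) (.e (nat_lit 371614) (nat_lit 0) .nil) .nil)))))) (.nd (nat_lit 7) (.nd (nat_lit 8) (.nd (nat_lit 9) 
(.lf (nat_lit 577607) (.g (nat_lit 2132) (.e (nat_lit 336028) (nat_lit 3) (.e (nat_lit 98349) (nat_lit 24) (.e (nat_lit 409649) (nat_lit 18) (.e (nat_lit 303117) (nat_lit 2) (.e (nat_lit 196665) (nat_lit 13) .nil))))) (.g (nat_lit 0) (.e (nat_lit 369012) (nat_lit 0) .nil) .nil))) 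
(.lf (nat_lit 578119) (.g (nat_lit 758) (.e (nat_lit 336114) (nat_lit 9) (.e (nat_lit 336454) (nat_lit 34) (.e (nat_lit 483365) (nat_lit 18) .nil))) (.g (nat_lit 0) (.e (nat_lit 370409) (nat_lit 0) .nil) .nil)))) (.nd (nat_lit 9) 
(.lf (nat_lit 577863) (.g (nat_lit 2361) (.e (nat_lit 336075) (nat_lit 9) (.e (nat_lit 336450) (nat_lit 33) (.e (nat_lit 475152) (nat_lit 17) (.e (nat_lit 57883) (nat_lit 270) (.e (nat_lit 174) (nat_lit 12) (.e (nat_lit 204861) (nat_lit 26) .nil)))))) (.g (nat_lit 1) (.e (nat_lit 369695) (nat_lit 0) .nil) .nil))) 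
(.lf (nat_lit 578375) (.g (nat_lit 2966) (.e (nat_lit 336186) (nat_lit 11) (.e (nat_lit 368676) (nat_lit 21) (.e (nat_lit 516138) (nat_lit 7) (.e (nat_lit 409645) (nat_lit 18) (.e (nat_lit 303119) (nat_lit 3) (.e (nat_lit 204860) (nat_lit 26) .nil)))))) (.g (nat_lit 1) (.e (nat_lit 371278) (nat_lit 0) .nil) .nil))))) (.nd (nat_lit 8) (.nd (nat_lit 9) 
(.lf (nat_lit 577735) (.g (nat_lit 3538) (.e (nat_lit 336046) (nat_lit 6) (.e (nat_lit 147495) (nat_lit 11) (.e (nat_lit 24658) (nat_lit 13) (.e (nat_lit 393301) (nat_lit 27) (.e (nat_lit 491552) (nat_lit 9) .nil))))) (.g (nat_lit 1) (.e (nat_lit 369188) (nat_lit 0) .nil) .nil))) 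
(.lf (nat_lit 578247) (.g (nat_lit 1129) (.e (nat_lit 336169) (nat_lit 10) (.e (nat_lit 344133) (nat_lit 26) (.e (nat_lit 557087) (nat_lit 11) .nil))) (.g (nat_lit 0) (.e (nat_lit 370864) (nat_lit 0) .nil) .nil)))) (.nd (nat_lit 9) 
(.lf (nat_lit 577991) (.g (nat_lit 3591) (.e (nat_lit 336097) (nat_lit 9) (.e (nat_lit 336028) (nat_lit 3) (.e (nat_lit 98349) (nat_lit 24) (.e (nat_lit 409646) (nat_lit 18) (.e (nat_lit 303119) (nat_lit 3) (.e (nat_lit 204855) (nat_lit 26) .nil)))))) (.g (nat_lit 1) (.e (nat_lit 370127) (nat_lit 0) .nil) .nil))) 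
(.lf (nat_lit 578503) (.g (nat_lit 1887) (.e (nat_lit 336208) (nat_lit 12) (.e (nat_lit 385074) (nat_lit 31) (.e (nat_lit 573491) (nat_lit 15) (.e (nat_lit 81959) (nat_lit 24) .nil)))) (.g (nat_lit 0) (.e (nat_lit 371771) (nat_lit 0) .nil) .nil))))))) (.nd (nat_lit 6) (.nd (nat_lit 7) (.nd (nat_lit 8) (.nd (nat_lit 9) 
(.lf (nat_lit 577575) (.g (nat_lit 3512) (.e (nat_lit 336027) (nat_lit 3) (.e (nat_lit 98367) (nat_lit 27) (.e (nat_lit 434272) (nat_lit 38) (.e (nat_lit 655375) (nat_lit 3) (.e (nat_lit 163978) (nat_lit 30) (.e (nat_lit 573482) (nat_lit 13) (.e (nat_lit 73472) (nat_lit 9) .nil))))))) (.g (nat_lit 1) (.e (nat_lit 368969) (nat_lit 0) .nil) .nil))) 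
(.lf (nat_lit 578087) (.g (nat_lit 2133) (.e (nat_lit 336110) (nat_lit 9) (.e (nat_lit 336013) (nat_lit 2) (.e (nat_lit 90165) (nat_lit 12) (.e (nat_lit 171776) (nat_lit 176) .nil)))) (.g (nat_lit 0) (.e (nat_lit 370334) (nat_lit 0) .nil) .nil)))) (.nd (nat_lit 9) 
(.lf (nat_lit 577831) (.g (nat_lit 2018) (.e (nat_lit 336074) (nat_lit 9) (.e (nat_lit 336454) (nat_lit 34) (.e (nat_lit 483363) (nat_lit 18) (.e (nat_lit 57847) (nat_lit 252) (.e (nat_lit 57379) (nat_lit 3) .nil))))) (.g (nat_lit 0) (.e (nat_lit 369615) (nat_lit 0) .nil) .nil))) 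
(.lf (nat_lit 578343) (.g (nat_lit 3387) (.e (nat_lit 336177) (nat_lit 10) (.e (nat_lit 344117) (nat_lit 21) (.e (nat_lit 516139) (nat_lit 7) (.e (nat_lit 409617) (nat_lit 10) (.e (nat_lit 5756) (nat_lit 315) (.e (nat_lit 163962) (nat_lit 25) (.e (nat_lit 532535) (nat_lit 9) .nil))))))) (.g (nat_lit 1) (.e (nat_lit 371192) (nat_lit 0) .nil) .nil))))) (.nd (nat_lit 8) (.nd (nat_lit 9) 
(.lf (nat_lit 577703) (.g (nat_lit 3454) (.e (nat_lit 343808) (nat_lit 3) (.e (nat_lit 98373) (nat_lit 29) (.e (nat_lit 450588) (nat_lit 10) (.e (nat_lit 573474) (nat_lit 12) .nil)))) (.g (nat_lit 0) (.e (nat_lit 369141) (nat_lit 0) .nil) .nil))) 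
(.lf (nat_lit 578215) (.g (nat_lit 2650) (.e (nat_lit 343808) (nat_lit 9) (.e (nat_lit 336324) (nat_lit 18) (.e (nat_lit 204838) (nat_lit 20) (.e (nat_lit 114698) (nat_lit 11) (.e (nat_lit 426137) (nat_lit 3) .nil))))) (.g (nat_lit 0) (.e (nat_lit 370804) (nat_lit 0) .nil) .nil)))) (.nd (nat_lit 9) 
(.lf (nat_lit 577959) (.g (nat_lit 2780) (.e (nat_lit 336086) (nat_lit 9) (.e (nat_lit 336324) (nat_lit 18) (.e (nat_lit 204838) (nat_lit 20) (.e (nat_lit 114698) (nat_lit 11) (.e (nat_lit 426133) (nat_lit 3) (.e (nat_lit 204861) (nat_lit 26) .nil)))))) (.g (nat_lit 1) (.e (nat_lit 370011) (nat_lit 0) .nil) .nil))) 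
(.lf (nat_lit 578471) (.g (nat_lit 2990) (.e (nat_lit 336206) (nat_lit 12) (.e (nat_lit 385066) (nat_lit 26) (.e (nat_lit 532515) (nat_lit 3) (.e (nat_lit 114698) (nat_lit 11) (.e (nat_lit 426139) (nat_lit 3) (.e (nat_lit 204859) (nat_lit 26) .nil)))))) (.g (nat_lit 1) (.e (nat_lit 371674) (nat_lit 0) .nil) .nil)))))) (.nd (nat_lit 7) (.nd (nat_lit 8) (.nd (nat_lit 9) 
(.lf (nat_lit 577639) (.g (nat_lit 3765) (.e (nat_lit 336028) (nat_lit 3) (.e (nat_lit 98350) (nat_lit 24) (.e (nat_lit 409648) (nat_lit 18) (.e (nat_lit 303118) (nat_lit 3) (.e (nat_lit 204855) (nat_lit 26) (.e (nat_lit 336111) (nat_lit 9) .nil)))))) (.g (nat_lit 1) (.e (nat_lit 369055) (nat_lit 0) .nil) .nil))) 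
(.lf (nat_lit 578151) (.g (nat_lit 976) (.e (nat_lit 336152) (nat_lit 9) (.e (nat_lit 336429) (nat_lit 29) (.e (nat_lit 442421) (nat_lit 21) (.e (nat_lit 164331) (nat_lit 230) .nil)))) (.g (nat_lit 0) (.e (nat_lit 370611) (nat_lit 0) .nil) .nil)))) (.nd (nat_lit 9) 
(.lf (nat_lit 577895) (.g (nat_lit 2505) (.e (nat_lit 336077) (nat_lit 9) (.e (nat_lit 336443) (nat_lit 32) (.e (nat_lit 466969) (nat_lit 21) (.e (nat_lit 164324) (nat_lit 230) (.e (nat_lit 163884) (nat_lit 5) (.e (nat_lit 221193) (nat_lit 11) .nil)))))) (.g (nat_lit 1) (.e (nat_lit 369801) (nat_lit 0) .nil) .nil))) 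
(.lf (nat_lit 578407) (.g (nat_lit 1802) (.e (nat_lit 336197) (nat_lit 12) (.e (nat_lit 385074) (nat_lit 31) (.e (nat_lit 573485) (nat_lit 13) (.e (nat_lit 65630) (nat_lit 14) .nil)))) (.g (nat_lit 0) (.e (nat_lit 371476) (nat_lit 0) .nil) .nil))))) (.nd (nat_lit 8) (.nd (nat_lit 9) 
(.lf (nat_lit 577767) (.g (nat_lit 2397) (.e (nat_lit 336058) (nat_lit 7) (.e (nat_lit 319530) (nat_lit 16) (.e (nat_lit 286731) (nat_lit 1) (.e (nat_lit 57687) (nat_lit 156) (.e (nat_lit 163933) (nat_lit 17) (.e (nat_lit 474880) (nat_lit 11) .nil)))))) (.g (nat_lit 1) (.e (nat_lit 369319) (nat_lit 0) .nil) .nil))) 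
(.lf (nat_lit 578279) (.g (nat_lit 3213) (.e (nat_lit 336176) (nat_lit 10) (.e (nat_lit 344117) (nat_lit 21) (.e (nat_lit 516139) (nat_lit 7) (.e (nat_lit 409615) (nat_lit 10) .nil)))) (.g (nat_lit 0) (.e (nat_lit 370959) (nat_lit 0) .nil) .nil)))) (.nd (nat_lit 9) 
(.lf (nat_lit 578023) (.g (nat_lit 2892) (.e (nat_lit 336099) (nat_lit 9) (.e (nat_lit 336013) (nat_lit 2) (.e (nat_lit 90134) (nat_lit 9) (.e (nat_lit 2828) (nat_lit 182) (.e (nat_lit 409646) (nat_lit 18) .nil))))) (.g (nat_lit 0) (.e (nat_lit 370187) (nat_lit 0) .nil) .nil))) 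
(.lf (nat_lit 578535) (.g (nat_lit 762) (.e (nat_lit 336225) (nat_lit 14) (.e (nat_lit 401437) (nat_lit 9) (.e (nat_lit 426542) (nat_lit 29) .nil))) (.g (nat_lit 0) (.e (nat_lit 371886) (nat_lit 0) .nil) .nil)))))))) (.nd (nat_lit 5) (.nd (nat_lit 6) (.nd (nat_lit 7) (.nd (nat_lit 8) (.nd (nat_lit 9) 
(.lf (nat_lit 577559) (.g (nat_lit 629) (.e (nat_lit 336027) (nat_lit 3) (.e (nat_lit 98349) (nat_lit 24) (.e (nat_lit 409648) (nat_lit 18) .nil))) (.g (nat_lit 0) (.e (nat_lit 368945) (nat_lit 0) .nil) .nil))) 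
(.lf (nat_lit 578071) (.g (nat_lit 2154) (.e (nat_lit 336102) (nat_lit 9) (.e (nat_lit 336028) (nat_lit 3) (.e (nat_lit 98349) (nat_lit 24) (.e (nat_lit 409647) (nat_lit 18) (.e (nat_lit 303118) (nat_lit 3) .nil))))) (.g (nat_lit 0) (.e (nat_lit 370289) (nat_lit 0) .nil) .nil)))) (.nd (nat_lit 9) 
(.lf (nat_lit 577815) (.g (nat_lit 1789) (.e (nat_lit 336074) (nat_lit 9) (.e (nat_lit 336427) (nat_lit 29) (.e (nat_lit 442421) (nat_lit 21) (.e (nat_lit 164326) (nat_lit 230) (.e (nat_lit 163884) (nat_lit 5) (.e (nat_lit 221194) (nat_lit 11) .nil)))))) (.g (nat_lit 1) (.e (nat_lit 369599) (nat_lit 0) .nil) .nil))) 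
(.lf (nat_lit 578327) (.g (nat_lit 3047) (.e (nat_lit 336176) (nat_lit 10) (.e (nat_lit 344133) (nat_lit 26) (.e (nat_lit 557087) (nat_lit 11) (.e (nat_lit 24589) (nat_lit 0) (.e (nat_lit 7936) (nat_lit 360) .nil))))) (.g (nat_lit 0) (.e (nat_lit 371156) (nat_lit 0) .nil) .nil))))) (.nd (nat_lit 8) (.nd (nat_lit 9) 
(.lf (nat_lit 577687) (.g (nat_lit 3603) (.e (nat_lit 343808) (nat_lit 3) (.e (nat_lit 98373) (nat_lit 29) (.e (nat_lit 450587) (nat_lit 10) (.e (nat_lit 573475) (nat_lit 12) (.e (nat_lit 57347) (nat_lit 0) .nil))))) (.g (nat_lit 0) (.e (nat_lit 369125) (nat_lit 0) .nil) .nil))) 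
(.lf (nat_lit 578199) (.g (nat_lit 1594) (.e (nat_lit 336159) (nat_lit 9) (.e (nat_lit 335986) (nat_lit 1) (.e (nat_lit 57847) (nat_lit 252) (.e (nat_lit 57388) (nat_lit 5) .nil)))) (.g (nat_lit 0) (.e (nat_lit 370758) (nat_lit 0) .nil) .nil)))) (.nd (nat_lit 9) 
(.lf (nat_lit 577943) (.g (nat_lit 583) (.e (nat_lit 336084) (nat_lit 9) (.e (nat_lit 336443) (nat_lit 32) (.e (nat_lit 466969) (nat_lit 21) .nil))) (.g (nat_lit 0) (.e (nat_lit 369963) (nat_lit 0) .nil) .nil))) 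
(.lf (nat_lit 578455) (.g (nat_lit 385) (.e (nat_lit 336205) (nat_lit 12) (.e (nat_lit 385074) (nat_lit 31) (.e (nat_lit 573484) (nat_lit 13) .nil))) (.g (nat_lit 0) (.e (nat_lit 371645) (nat_lit 0) .nil) .nil)))))) (.nd (nat_lit 7) (.nd (nat_lit 8) (.nd (nat_lit 9) 
(.lf (nat_lit 577623) (.g (nat_lit 3982) (.e (nat_lit 336028) (nat_lit 3) (.e (nat_lit 98350) (nat_lit 24) (.e (nat_lit 409645) (nat_lit 18) (.e (nat_lit 303119) (nat_lit 3) (.e (nat_lit 204855) (nat_lit 26) (.e (nat_lit 336073) (nat_lit 9) .nil)))))) (.g (nat_lit 1) (.e (nat_lit 369039) (nat_lit 0) .nil) .nil))) 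
(.lf (nat_lit 578135) (.g (nat_lit 893) (.e (nat_lit 336130) (nat_lit 9) (.e (nat_lit 336027) (nat_lit 3) (.e (nat_lit 98350) (nat_lit 24) .nil))) (.g (nat_lit 0) (.e (nat_lit 370528) (nat_lit 0) .nil) .nil)))) (.nd (nat_lit 9) 
(.lf (nat_lit 577879) (.g (nat_lit 4214) (.e (nat_lit 336076) (nat_lit 9) (.e (nat_lit 336324) (nat_lit 18) (.e (nat_lit 204837) (nat_lit 20) (.e (nat_lit 114698) (nat_lit 11) (.e (nat_lit 426139) (nat_lit 3) (.e (nat_lit 204861) (nat_lit 26) .nil)))))) (.g (nat_lit 1) (.e (nat_lit 369738) (nat_lit 0) .nil) .nil))) 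
(.lf (nat_lit 578391) (.g (nat_lit 1792) (.e (nat_lit 336193) (nat_lit 12) (.e (nat_lit 385074) (nat_lit 31) (.e (nat_lit 573484) (nat_lit 13) (.e (nat_lit 65617) (nat_lit 10) (.e (nat_lit 344130) (nat_lit 26) .nil))))) (.g (nat_lit 0) (.e (nat_lit 371329) (nat_lit 0) .nil) .nil))))) (.nd (nat_lit 8) (.nd (nat_lit 9) 
(.lf (nat_lit 577751) (.g (nat_lit 635) (.e (nat_lit 336051) (nat_lit 6) (.e (nat_lit 147495) (nat_lit 11) (.e (nat_lit 24607) (nat_lit 3) .nil))) (.g (nat_lit 0) (.e (nat_lit 369224) (nat_lit 0) .nil) .nil))) 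
(.lf (nat_lit 578263) (.g (nat_lit 2741) (.e (nat_lit 336173) (nat_lit 10) (.e (nat_lit 344119) (nat_lit 21) (.e (nat_lit 516139) (nat_lit 7) (.e (nat_lit 409645) (nat_lit 18) (.e (nat_lit 303119) (nat_lit 3) (.e (nat_lit 204855) (nat_lit 26) .nil)))))) (.g (nat_lit 1) (.e (nat_lit 370903) (nat_lit 0) .nil) .nil)))) (.nd (nat_lit 9) 
(.lf (nat_lit 578007) (.g (nat_lit 1092) (.e (nat_lit 336099) (nat_lit 9) (.e (nat_lit 336013) (nat_lit 2) (.e (nat_lit 90119) (nat_lit 0) .nil))) (.g (nat_lit 0) (.e (nat_lit 370164) (nat_lit 0) .nil) .nil))) 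
(.lf (nat_lit 578519) (.g (nat_lit 631) (.e (nat_lit 336212) (nat_lit 13) (.e (nat_lit 393253) (nat_lit 18) (.e (nat_lit 164183) (nat_lit 154) .nil))) (.g (nat_lit 0) (.e (nat_lit 371818) (nat_lit 0) .nil) .nil))))))) (.nd (nat_lit 6) (.nd (nat_lit 7) (.nd (nat_lit 8) (.nd (nat_lit 9) 
(.lf (nat_lit 577591) (.g (nat_lit 1148) (.e (nat_lit 336028) (nat_lit 3) (.e (nat_lit 98333) (nat_lit 18) (.e (nat_lit 164177) (nat_lit 154) (.e (nat_lit 57407) (nat_lit 12) .nil)))) (.g (nat_lit 0) (.e (nat_lit 368996) (nat_lit 0) .nil) .nil))) 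
(.lf (nat_lit 578103) (.g (nat_lit 1883) (.e (nat_lit 336111) (nat_lit 9) (.e (nat_lit 336028) (nat_lit 3) (.e (nat_lit 98350) (nat_lit 24) (.e (nat_lit 417536) (nat_lit 18) .nil)))) (.g (nat_lit 0) (.e (nat_lit 370358) (nat_lit 0) .nil) .nil)))) (.nd (nat_lit 9) 
(.lf (nat_lit 577847) (.g (nat_lit 3343) (.e (nat_lit 336075) (nat_lit 9) (.e (nat_lit 336324) (nat_lit 18) (.e (nat_lit 204838) (nat_lit 20) (.e (nat_lit 114697) (nat_lit 11) (.e (nat_lit 426139) (nat_lit 3) (.e (nat_lit 204861) (nat_lit 26) .nil)))))) (.g (nat_lit 1) (.e (nat_lit 369644) (nat_lit 0) .nil) .nil))) 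
(.lf (nat_lit 578359) (.g (nat_lit 4328) (.e (nat_lit 336178) (nat_lit 10) (.e (nat_lit 344117) (nat_lit 21) (.e (nat_lit 516139) (nat_lit 7) (.e (nat_lit 409646) (nat_lit 18) (.e (nat_lit 303119) (nat_lit 3) (.e (nat_lit 204855) (nat_lit 26) .nil)))))) (.g (nat_lit 1) (.e (nat_lit 371218) (nat_lit 0) .nil) .nil))))) (.nd (nat_lit 8) (.nd (nat_lit 9) 
(.lf (nat_lit 577719) (.g (nat_lit 2621) (.e (nat_lit 336031) (nat_lit 4) (.e (nat_lit 123182) (nat_lit 264) (.e (nat_lit 1183) (nat_lit 87) (.e (nat_lit 57480) (nat_lit 28) (.e (nat_lit 557098) (nat_lit 13) .nil))))) (.g (nat_lit 0) (.e (nat_lit 369163) (nat_lit 0) .nil) .nil))) 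
(.lf (nat_lit 578231) (.g (nat_lit 1782) (.e (nat_lit 336163) (nat_lit 10) (.e (nat_lit 344117) (nat_lit 21) (.e (nat_lit 516139) (nat_lit 7) (.e (nat_lit 409617) (nat_lit 10) .nil)))) (.g (nat_lit 0) (.e (nat_lit 370826) (nat_lit 0) .nil) .nil)))) (.nd (nat_lit 9) 
(.lf (nat_lit 577975) (.g (nat_lit 3914) (.e (nat_lit 336088) (nat_lit 9) (.e (nat_lit 336454) (nat_lit 34) (.e (nat_lit 483365) (nat_lit 18) (.e (nat_lit 57931) (nat_lit 282) .nil)))) (.g (nat_lit 0) (.e (nat_lit 370078) (nat_lit 0) .nil) .nil))) 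
(.lf (nat_lit 578487) (.g (nat_lit 1774) (.e (nat_lit 336206) (nat_lit 12) (.e (nat_lit 385094) (nat_lit 49) (.e (nat_lit 778324) (nat_lit 5) (.e (nat_lit 73781) (nat_lit 32) (.e (nat_lit 2857) (nat_lit 184) (.e (nat_lit 426489) (nat_lit 27) .nil)))))) (.g (nat_lit 1) (.e (nat_lit 371714) (nat_lit 0) .nil) .nil)))))) (.nd (nat_lit 7) (.nd (nat_lit 8) (.nd (nat_lit 9) 
(.lf (nat_lit 577655) (.g (nat_lit 2424) (.e (nat_lit 336028) (nat_lit 3) (.e (nat_lit 98367) (nat_lit 27) (.e (nat_lit 434275) (nat_lit 39) (.e (nat_lit 663580) (nat_lit 9) (.e (nat_lit 2663) (nat_lit 167) .nil))))) (.g (nat_lit 0) (.e (nat_lit 369086) (nat_lit 0) .nil) .nil))) 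
(.lf (nat_lit 578167) (.g (nat_lit 539) (.e (nat_lit 336158) (nat_lit 9) (.e (nat_lit 335986) (nat_lit 1) (.e (nat_lit 57847) (nat_lit 252) .nil))) (.g (nat_lit 0) (.e (nat_lit 370689) (nat_lit 0) .nil) .nil)))) (.nd (nat_lit 9) 
(.lf (nat_lit 577911) (.g (nat_lit 1931) (.e (nat_lit 336078) (nat_lit 9) (.e (nat_lit 336286) (nat_lit 15) (.e (nat_lit 3632) (nat_lit 227) (.e (nat_lit 778323) (nat_lit 5) (.e (nat_lit 81664) (nat_lit 36) (.e (nat_lit 172150) (nat_lit 27) .nil)))))) (.g (nat_lit 1) (.e (nat_lit 369836) (nat_lit 0) .nil) .nil))) 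
(.lf (nat_lit 578423) (.g (nat_lit 954) (.e (nat_lit 336200) (nat_lit 12) (.e (nat_lit 385074) (nat_lit 31) (.e (nat_lit 573491) (nat_lit 15) .nil))) (.g (nat_lit 0) (.e (nat_lit 371547) (nat_lit 0) .nil) .nil))))) (.nd (nat_lit 8) (.nd (nat_lit 9) 
(.lf (nat_lit 577783) (.g (nat_lit 982) (.e (nat_lit 336060) (nat_lit 7) (.e (nat_lit 319534) (nat_lit 16) (.e (nat_lit 286720) (nat_lit 0) .nil))) (.g (nat_lit 0) (.e (nat_lit 369455) (nat_lit 0) .nil) .nil))) 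
(.lf (nat_lit 578295) (.g (nat_lit 2793) (.e (nat_lit 336176) (nat_lit 10) (.e (nat_lit 344127) (nat_lit 26) (.e (nat_lit 557090) (nat_lit 12) (.e (nat_lit 164017) (nat_lit 44) (.e (nat_lit 688139) (nat_lit 5) .nil))))) (.g (nat_lit 0) (.e (nat_lit 371028) (nat_lit 0) .nil) .nil)))) (.nd (nat_lit 9) 
(.lf (nat_lit 578039) (.g (nat_lit 4221) (.e (nat_lit 336099) (nat_lit 9) (.e (nat_lit 336013) (nat_lit 2) (.e (nat_lit 90170) (nat_lit 13) (.e (nat_lit 172035) (nat_lit 0) .nil)))) (.g (nat_lit 0) (.e (nat_lit 370205) (nat_lit 0) .nil) .nil))) 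
(.lf (nat_lit 578551) (.g (nat_lit 3442) (.e (nat_lit 336226) (nat_lit 14) (.e (nat_lit 401457) (nat_lit 13) (.e (nat_lit 483383) (nat_lit 23) (.e (nat_lit 336260) (nat_lit 15) (.e (nat_lit 3733) (nat_lit 228) (.e (nat_lit 786470) (nat_lit 27) .nil)))))) (.g (nat_lit 1) (.e (nat_lit 371955) (nat_lit 0) .nil) .nil))))))))) 
(.nd (nat_lit 4) (.nd (nat_lit 5) (.nd (nat_lit 6) (.nd (nat_lit 7) (.nd (nat_lit 8) 
(.nd (nat_lit 9) 
(.lf (nat_lit 577551) (.g (nat_lit 1354) (.e (nat_lit 336027) (nat_lit 3) (.e (nat_lit 98349) (nat_lit 24) (.e (nat_lit 409645) (nat_lit 18) (.e (nat_lit 303119) (nat_lit 3) .nil)))) (.g (nat_lit 0) (.e (nat_lit 368937) (nat_lit 0) .nil) .nil))) 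
(.lf (nat_lit 578063) (.g (nat_lit 2483) (.e (nat_lit 336099) (nat_lit 9) (.e (nat_lit 336028) (nat_lit 3) (.e (nat_lit 98350) (nat_lit 24) (.e (nat_lit 409648) (nat_lit 18) (.e (nat_lit 303108) (nat_lit 0) (.e (nat_lit 7936) (nat_lit 197) (.e (nat_lit 532535) (nat_lit 9) .nil))))))) (.g (nat_lit 1) (.e (nat_lit 370252) (nat_lit 0) .nil) .nil)))) (.nd (nat_lit 9) 
(.lf (nat_lit 577807) (.g (nat_lit 3402) (.e (nat_lit 336073) (nat_lit 9) (.e (nat_lit 336324) (nat_lit 18) (.e (nat_lit 204831) (nat_lit 18) (.e (nat_lit 57847) (nat_lit 252) .nil)))) (.g (nat_lit 0) (.e (nat_lit 369566) (nat_lit 0) .nil) .nil))) 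
(.lf (nat_lit 578319) (.g (nat_lit 1500) (.e (nat_lit 336176) (nat_lit 10) (.e (nat_lit 344133) (nat_lit 26) (.e (nat_lit 557072) (nat_lit 9) (.e (nat_lit 290) (nat_lit 21) .nil)))) (.g (nat_lit 0) (.e (nat_lit 371134) (nat_lit 0) .nil) .nil))))) (.nd (nat_lit 8) (.nd (nat_lit 9) 
(.lf (nat_lit 577679) (.g (nat_lit 1905) (.e (nat_lit 343808) (nat_lit 3) (.e (nat_lit 98372) (nat_lit 29) (.e (nat_lit 450586) (nat_lit 10) (.e (nat_lit 573475) (nat_lit 12) (.e (nat_lit 57351) (nat_lit 0) .nil))))) (.g (nat_lit 0) (.e (nat_lit 369117) (nat_lit 0) .nil) .nil))) 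
(.lf (nat_lit 578191) (.g (nat_lit 1772) (.e (nat_lit 336158) (nat_lit 9) (.e (nat_lit 336004) (nat_lit 2) (.e (nat_lit 90130) (nat_lit 9) (.e (nat_lit 2830) (nat_lit 182) (.e (nat_lit 409647) (nat_lit 18) (.e (nat_lit 303118) (nat_lit 3) (.e (nat_lit 212736) (nat_lit 26) .nil))))))) (.g (nat_lit 1) (.e (nat_lit 370740) (nat_lit 0) .nil) .nil)))) (.nd (nat_lit 9) 
(.lf (nat_lit 577935) (.g (nat_lit 2218) (.e (nat_lit 336083) (nat_lit 9) (.e (nat_lit 336443) (nat_lit 32) (.e (nat_lit 466969) (nat_lit 21) (.e (nat_lit 164327) (nat_lit 230) (.e (nat_lit 163884) (nat_lit 5) (.e (nat_lit 229120) (nat_lit 11) .nil)))))) (.g (nat_lit 1) (.e (nat_lit 369933) (nat_lit 0) .nil) .nil))) 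
(.lf (nat_lit 578447) (.g (nat_lit 1922) (.e (nat_lit 336204) (nat_lit 12) (.e (nat_lit 385074) (nat_lit 31) (.e (nat_lit 573493) (nat_lit 15) (.e (nat_lit 81938) (nat_lit 20) (.e (nat_lit 1848) (nat_lit 124) .nil))))) (.g (nat_lit 0) (.e (nat_lit 371622) (nat_lit 0) .nil) .nil)))))) (.nd (nat_lit 7) (.nd (nat_lit 8) (.nd (nat_lit 9) 
(.lf (nat_lit 577615) (.g (nat_lit 1753) (.e (nat_lit 336028) (nat_lit 3) (.e (nat_lit 98350) (nat_lit 24) (.e (nat_lit 409643) (nat_lit 18) (.e (nat_lit 303119) (nat_lit 3) (.e (nat_lit 204855) (nat_lit 26) .nil))))) (.g (nat_lit 0) (.e (nat_lit 369031) (nat_lit 0) .nil) .nil))) 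
(.lf (nat_lit 578127) (.g (nat_lit 1189) (.e (nat_lit 336129) (nat_lit 9) (.e (nat_lit 336021) (nat_lit 3) (.e (nat_lit 98353) (nat_lit 25) .nil))) (.g (nat_lit 0) (.e (nat_lit 370489) (nat_lit 0) .nil) .nil)))) (.nd (nat_lit 9) 
(.lf (nat_lit 577871) (.g (nat_lit 3346) (.e (nat_lit 336075) (nat_lit 9) (.e (nat_lit 336454) (nat_lit 34) (.e (nat_lit 483364) (nat_lit 18) (.e (nat_lit 57927) (nat_lit 282) (.e (nat_lit 163875) (nat_lit 3) (.e (nat_lit 204861) (nat_lit 26) .nil)))))) (.g (nat_lit 1) (.e (nat_lit 369707) (nat_lit 0) .nil) .nil))) 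
(.lf (nat_lit 578383) (.g (nat_lit 974) (.e (nat_lit 336186) (nat_lit 11) (.e (nat_lit 368676) (nat_lit 21) (.e (nat_lit 516169) (nat_lit 13) (.e (nat_lit 458774) (nat_lit 18) .nil)))) (.g (nat_lit 0) (.e (nat_lit 371287) (nat_lit 0) .nil) .nil))))) (.nd (nat_lit 8) (.nd (nat_lit 9) 
(.lf (nat_lit 577743) (.g (nat_lit 929) (.e (nat_lit 336049) (nat_lit 6) (.e (nat_lit 147500) (nat_lit 12) (.e (nat_lit 164054) (nat_lit 56) (.e (nat_lit 786457) (nat_lit 18) (.e (nat_lit 98380) (nat_lit 31) (.e (nat_lit 466954) (nat_lit 11) .nil)))))) (.g (nat_lit 1) (.e (nat_lit 369209) (nat_lit 0) .nil) .nil))) 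
(.lf (nat_lit 578255) (.g (nat_lit 2428) (.e (nat_lit 336173) (nat_lit 10) (.e (nat_lit 344117) (nat_lit 21) (.e (nat_lit 516139) (nat_lit 7) (.e (nat_lit 409617) (nat_lit 10) .nil)))) (.g (nat_lit 0) (.e (nat_lit 370884) (nat_lit 0) .nil) .nil)))) (.nd (nat_lit 9) 
(.lf (nat_lit 577999) (.g (nat_lit 2216) (.e (nat_lit 336096) (nat_lit 9) (.e (nat_lit 336013) (nat_lit 2) (.e (nat_lit 90165) (nat_lit 12) (.e (nat_lit 164208) (nat_lit 176) .nil)))) (.g (nat_lit 0) (.e (nat_lit 370144) (nat_lit 0) .nil) .nil))) 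
(.lf (nat_lit 578511) (.g (nat_lit 1351) (.e (nat_lit 336211) (nat_lit 13) (.e (nat_lit 393225) (nat_lit 9) (.e (nat_lit 335995) (nat_lit 1) (.e (nat_lit 57929) (nat_lit 282) .nil)))) (.g (nat_lit 0) (.e (nat_lit 371795) (nat_lit 0) .nil) .nil))))))) (.nd (nat_lit 6) (.nd (nat_lit 7) (.nd (nat_lit 8) (.nd (nat_lit 9) 
(.lf (nat_lit 577583) (.g (nat_lit 4087) (.e (nat_lit 336027) (nat_lit 3) (.e (nat_lit 98384) (nat_lit 32) (.e (nat_lit 475199) (nat_lit 40) (.e (nat_lit 704589) (nat_lit 3) (.e (nat_lit 163976) (nat_lit 30) (.e (nat_lit 573481) (nat_lit 13) (.e (nat_lit 65608) (nat_lit 9) .nil))))))) (.g (nat_lit 1) (.e (nat_lit 368977) (nat_lit 0) .nil) .nil))) 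
(.lf (nat_lit 578095) (.g (nat_lit 2402) (.e (nat_lit 336111) (nat_lit 9) (.e (nat_lit 336028) (nat_lit 3) (.e (nat_lit 98349) (nat_lit 24) (.e (nat_lit 409646) (nat_lit 18) (.e (nat_lit 303118) (nat_lit 3) .nil))))) (.g (nat_lit 0) (.e (nat_lit 370347) (nat_lit 0) .nil) .nil)))) (.nd (nat_lit 9) 
(.lf (nat_lit 577839) (.g (nat_lit 3023) (.e (nat_lit 336074) (nat_lit 9) (.e (nat_lit 336454) (nat_lit 34) (.e (nat_lit 483365) (nat_lit 18) (.e (nat_lit 57931) (nat_lit 282) .nil)))) (.g (nat_lit 0) (.e (nat_lit 369623) (nat_lit 0) .nil) .nil))) 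
(.lf (nat_lit 578351) (.g (nat_lit 2635) (.e (nat_lit 336178) (nat_lit 10) (.e (nat_lit 344117) (nat_lit 21) (.e (nat_lit 516138) (nat_lit 7) (.e (nat_lit 409646) (nat_lit 18) (.e (nat_lit 303118) (nat_lit 3) (.e (nat_lit 204855) (nat_lit 26) .nil)))))) (.g (nat_lit 1) (.e (nat_lit 371208) (nat_lit 0) .nil) .nil))))) (.nd (nat_lit 8) (.nd (nat_lit 9) 
(.lf (nat_lit 577711) (.g (nat_lit 2999) (.e (nat_lit 343808) (nat_lit 3) (.e (nat_lit 98373) (nat_lit 29) (.e (nat_lit 450588) (nat_lit 10) (.e (nat_lit 573475) (nat_lit 12) (.e (nat_lit 65280) (nat_lit 57) .nil))))) (.g (nat_lit 0) (.e (nat_lit 369149) (nat_lit 0) .nil) .nil))) 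
(.lf (nat_lit 578223) (.g (nat_lit 3368) (.e (nat_lit 343808) (nat_lit 9) (.e (nat_lit 336454) (nat_lit 34) (.e (nat_lit 483365) (nat_lit 18) (.e (nat_lit 57931) (nat_lit 282) .nil)))) (.g (nat_lit 0) (.e (nat_lit 370812) (nat_lit 0) .nil) .nil)))) (.nd (nat_lit 9) 
(.lf (nat_lit 577967) (.g (nat_lit 1883) (.e (nat_lit 336087) (nat_lit 9) (.e (nat_lit 336444) (nat_lit 32) (.e (nat_lit 466971) (nat_lit 21) (.e (nat_lit 164322) (nat_lit 230) (.e (nat_lit 163885) (nat_lit 5) (.e (nat_lit 221193) (nat_lit 11) .nil)))))) (.g (nat_lit 1) (.e (nat_lit 370041) (nat_lit 0) .nil) .nil))) 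
(.lf (nat_lit 578479) (.g (nat_lit 1732) (.e (nat_lit 336206) (nat_lit 12) (.e (nat_lit 385074) (nat_lit 31) (.e (nat_lit 573488) (nat_lit 14) (.e (nat_lit 73781) (nat_lit 32) .nil)))) (.g (nat_lit 0) (.e (nat_lit 371706) (nat_lit 0) .nil) .nil)))))) (.nd (nat_lit 7) (.nd (nat_lit 8) (.nd (nat_lit 9) 
(.lf (nat_lit 577647) (.g (nat_lit 3965) (.e (nat_lit 336028) (nat_lit 3) (.e (nat_lit 98350) (nat_lit 24) (.e (nat_lit 409649) (nat_lit 18) (.e (nat_lit 303117) (nat_lit 2) (.e (nat_lit 196666) (nat_lit 13) (.e (nat_lit 65595) (nat_lit 9) .nil)))))) (.g (nat_lit 1) (.e (nat_lit 369063) (nat_lit 0) .nil) .nil))) 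
(.lf (nat_lit 578159) (.g (nat_lit 1729) (.e (nat_lit 336152) (nat_lit 9) (.e (nat_lit 336442) (nat_lit 32) (.e (nat_lit 466971) (nat_lit 21) (.e (nat_lit 164324) (nat_lit 230) (.e (nat_lit 163886) (nat_lit 5) (.e (nat_lit 221192) (nat_lit 11) .nil)))))) (.g (nat_lit 1) (.e (nat_lit 370619) (nat_lit 0) .nil) .nil)))) (.nd (nat_lit 9) 
(.lf (nat_lit 577903) (.g (nat_lit 2329) (.e (nat_lit 336077) (nat_lit 9) (.e (nat_lit 336443) (nat_lit 32) (.e (nat_lit 466972) (nat_lit 21) (.e (nat_lit 164322) (nat_lit 230) (.e (nat_lit 163885) (nat_lit 5) (.e (nat_lit 221193) (nat_lit 11) .nil)))))) (.g (nat_lit 1) (.e (nat_lit 369809) (nat_lit 0) .nil) .nil))) 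
(.lf (nat_lit 578415) (.g (nat_lit 1506) (.e (nat_lit 336198) (nat_lit 12) (.e (nat_lit 385074) (nat_lit 31) (.e (nat_lit 573491) (nat_lit 15) (.e (nat_lit 81946) (nat_lit 20) .nil)))) (.g (nat_lit 0) (.e (nat_lit 371502) (nat_lit 0) .nil) .nil))))) (.nd (nat_lit 8) (.nd (nat_lit 9) 
(.lf (nat_lit 577775) (.g (nat_lit 822) (.e (nat_lit 336060) (nat_lit 7) (.e (nat_lit 319504) (nat_lit 10) (.e (nat_lit 584) (nat_lit 43) .nil))) (.g (nat_lit 0) (.e (nat_lit 369425) (nat_lit 0) .nil) .nil))) 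
(.lf (nat_lit 578287) (.g (nat_lit 3400) (.e (nat_lit 336176) (nat_lit 10) (.e (nat_lit 344117) (nat_lit 21) (.e (nat_lit 516139) (nat_lit 7) (.e (nat_lit 409649) (nat_lit 18) (.e (nat_lit 303119) (nat_lit 3) .nil))))) (.g (nat_lit 0) (.e (nat_lit 370987) (nat_lit 0) .nil) .nil)))) (.nd (nat_lit 9) 
(.lf (nat_lit 578031) (.g (nat_lit 2148) (.e (nat_lit 336099) (nat_lit 9) (.e (nat_lit 336013) (nat_lit 2) (.e (nat_lit 90165) (nat_lit 12) (.e (nat_lit 164209) (nat_lit 176) .nil)))) (.g (nat_lit 0) (.e (nat_lit 370196) (nat_lit 0) .nil) .nil))) 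
(.lf (nat_lit 578543) (.g (nat_lit 191) (.e (nat_lit 336226) (nat_lit 14) (.e (nat_lit 401437) (nat_lit 9) (.e (nat_lit 426533) (nat_lit 28) .nil))) (.g (nat_lit 0) (.e (nat_lit 371927) (nat_lit 0) .nil) .nil)))))))) (.nd (nat_lit 5) (.nd (nat_lit 6) (.nd (nat_lit 7) (.nd (nat_lit 8) (.nd (nat_lit 9) 
(.lf (nat_lit 577567) (.g (nat_lit 4836) (.e (nat_lit 336027) (nat_lit 3) (.e (nat_lit 98350) (nat_lit 24) (.e (nat_lit 409645) (nat_lit 18) (.e (nat_lit 303119) (nat_lit 3) (.e (nat_lit 204852) (nat_lit 26) (.e (nat_lit 336130) (nat_lit 9) .nil)))))) (.g (nat_lit 1) (.e (nat_lit 368959) (nat_lit 0) .nil) .nil))) 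
(.lf (nat_lit 578079) (.g (nat_lit 2054) (.e (nat_lit 336101) (nat_lit 9) (.e (nat_lit 336013) (nat_lit 2) (.e (nat_lit 90165) (nat_lit 12) (.e (nat_lit 164207) (nat_lit 176) .nil)))) (.g (nat_lit 0) (.e (nat_lit 370318) (nat_lit 0) .nil) .nil)))) (.nd (nat_lit 9) 
(.lf (nat_lit 577823) (.g (nat_lit 1962) (.e (nat_lit 336074) (nat_lit 9) (.e (nat_lit 336443) (nat_lit 32) (.e (nat_lit 466971) (nat_lit 21) (.e (nat_lit 164322) (nat_lit 230) (.e (nat_lit 163884) (nat_lit 5) .nil))))) (.g (nat_lit 0) (.e (nat_lit 369607) (nat_lit 0) .nil) .nil))) 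
(.lf (nat_lit 578335) (.g (nat_lit 1146) (.e (nat_lit 336176) (nat_lit 10) (.e (nat_lit 344133) (nat_lit 26) (.e (nat_lit 557091) (nat_lit 12) (.e (nat_lit 164022) (nat_lit 46) .nil)))) (.g (nat_lit 0) (.e (nat_lit 371174) (nat_lit 0) .nil) .nil))))) (.nd (nat_lit 8) (.nd (nat_lit 9) 
(.lf (nat_lit 577695) (.g (nat_lit 3794) (.e (nat_lit 343808) (nat_lit 3) (.e (nat_lit 98373) (nat_lit 29) (.e (nat_lit 450587) (nat_lit 10) (.e (nat_lit 573475) (nat_lit 12) (.e (nat_lit 57574) (nat_lit 55) .nil))))) (.g (nat_lit 0) (.e (nat_lit 369133) (nat_lit 0) .nil) .nil))) 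
(.lf (nat_lit 578207) (.g (nat_lit 1505) (.e (nat_lit 336142) (nat_lit 9) (.e (nat_lit 336027) (nat_lit 3) (.e (nat_lit 98350) (nat_lit 24) (.e (nat_lit 409617) (nat_lit 10) .nil)))) (.g (nat_lit 0) (.e (nat_lit 370790) (nat_lit 0) .nil) .nil)))) (.nd (nat_lit 9) 
(.lf (nat_lit 577951) (.g (nat_lit 1841) (.e (nat_lit 336084) (nat_lit 9) (.e (nat_lit 336443) (nat_lit 32) (.e (nat_lit 466971) (nat_lit 21) (.e (nat_lit 164326) (nat_lit 230) (.e (nat_lit 163886) (nat_lit 5) .nil))))) (.g (nat_lit 0) (.e (nat_lit 369971) (nat_lit 0) .nil) .nil))) 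
(.lf (nat_lit 578463) (.g (nat_lit 2118) (.e (nat_lit 336205) (nat_lit 12) (.e (nat_lit 385074) (nat_lit 31) (.e (nat_lit 573493) (nat_lit 15) (.e (nat_lit 81938) (nat_lit 20) (.e (nat_lit 1842) (nat_lit 123) .nil))))) (.g (nat_lit 0) (.e (nat_lit 371657) (nat_lit 0) .nil) .nil)))))) (.nd (nat_lit 7) (.nd (nat_lit 8) (.nd (nat_lit 9) 
(.lf (nat_lit 577631) (.g (nat_lit 2197) (.e (nat_lit 336028) (nat_lit 3) (.e (nat_lit 98350) (nat_lit 24) (.e (nat_lit 409647) (nat_lit 18) (.e (nat_lit 303119) (nat_lit 3) (.e (nat_lit 204855) (nat_lit 26) .nil))))) (.g (nat_lit 0) (.e (nat_lit 369047) (nat_lit 0) .nil) .nil))) 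
(.lf (nat_lit 578143) (.g (nat_lit 942) (.e (nat_lit 336138) (nat_lit 9) (.e (nat_lit 336028) (nat_lit 3) (.e (nat_lit 98350) (nat_lit 24) .nil))) (.g (nat_lit 0) (.e (nat_lit 370552) (nat_lit 0) .nil) .nil)))) (.nd (nat_lit 9) 
(.lf (nat_lit 577887) (.g (nat_lit 3756) (.e (nat_lit 336076) (nat_lit 9) (.e (nat_lit 336454) (nat_lit 34) (.e (nat_lit 483365) (nat_lit 18) (.e (nat_lit 57910) (nat_lit 278) .nil)))) (.g (nat_lit 0) (.e (nat_lit 369756) (nat_lit 0) .nil) .nil))) 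
(.lf (nat_lit 578399) (.g (nat_lit 2104) (.e (nat_lit 336194) (nat_lit 12) (.e (nat_lit 385074) (nat_lit 31) (.e (nat_lit 573484) (nat_lit 13) (.e (nat_lit 65617) (nat_lit 10) (.e (nat_lit 344130) (nat_lit 26) .nil))))) (.g (nat_lit 0) (.e (nat_lit 371358) (nat_lit 0) .nil) .nil))))) (.nd (nat_lit 8) (.nd (nat_lit 9) 
(.lf (nat_lit 577759) (.g (nat_lit 600) (.e (nat_lit 336051) (nat_lit 6) (.e (nat_lit 147496) (nat_lit 11) (.e (nat_lit 24608) (nat_lit 3) .nil))) (.g (nat_lit 0) (.e (nat_lit 369237) (nat_lit 0) .nil) .nil))) 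
(.lf (nat_lit 578271) (.g (nat_lit 3874) (.e (nat_lit 336173) (nat_lit 10) (.e (nat_lit 344133) (nat_lit 26) (.e (nat_lit 557087) (nat_lit 11) (.e (nat_lit 24617) (nat_lit 7) (.e (nat_lit 327424) (nat_lit 10) .nil))))) (.g (nat_lit 0) (.e (nat_lit 370933) (nat_lit 0) .nil) .nil)))) (.nd (nat_lit 9) 
(.lf (nat_lit 578015) (.g (nat_lit 1360) (.e (nat_lit 336099) (nat_lit 9) (.e (nat_lit 336013) (nat_lit 2) (.e (nat_lit 90131) (nat_lit 9) .nil))) (.g (nat_lit 0) (.e (nat_lit 370178) (nat_lit 0) .nil) .nil))) 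
(.lf (nat_lit 578527) (.g (nat_lit 613) (.e (nat_lit 336219) (nat_lit 13) (.e (nat_lit 393251) (nat_lit 18) (.e (nat_lit 164183) (nat_lit 154) .nil))) (.g (nat_lit 0) (.e (nat_lit 371862) (nat_lit 0) .nil) .nil))))))) (.nd (nat_lit 6) (.nd (nat_lit 7) (.nd (nat_lit 8) (.nd (nat_lit 9) 
(.lf (nat_lit 577599) (.g (nat_lit 3385) (.e (nat_lit 336028) (nat_lit 3) (.e (nat_lit 98349) (nat_lit 24) (.e (nat_lit 409645) (nat_lit 18) (.e (nat_lit 303119) (nat_lit 3) (.e (nat_lit 204855) (nat_lit 26) (.e (nat_lit 336097) (nat_lit 9) .nil)))))) (.g (nat_lit 1) (.e (nat_lit 369004) (nat_lit 0) .nil) .nil))) 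
(.lf (nat_lit 578111) (.g (nat_lit 4149) (.e (nat_lit 336113) (nat_lit 9) (.e (nat_lit 336324) (nat_lit 18) (.e (nat_lit 204831) (nat_lit 18) (.e (nat_lit 57846) (nat_lit 252) .nil)))) (.g (nat_lit 0) (.e (nat_lit 370382) (nat_lit 0) .nil) .nil)))) (.nd (nat_lit 9) 
(.lf (nat_lit 577855) (.g (nat_lit 2926) (.e (nat_lit 336075) (nat_lit 9) (.e (nat_lit 336366) (nat_lit 27) (.e (nat_lit 426499) (nat_lit 27) (.e (nat_lit 335986) (nat_lit 1) (.e (nat_lit 57927) (nat_lit 282) (.e (nat_lit 163873) (nat_lit 3) (.e (nat_lit 204861) (nat_lit 26) .nil))))))) (.g (nat_lit 1) (.e (nat_lit 369686) (nat_lit 0) .nil) .nil))) 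
(.lf (nat_lit 578367) (.g (nat_lit 2931) (.e (nat_lit 336178) (nat_lit 10) (.e (nat_lit 344117) (nat_lit 21) (.e (nat_lit 516195) (nat_lit 26) (.e (nat_lit 335988) (nat_lit 1) (.e (nat_lit 57927) (nat_lit 282) (.e (nat_lit 163901) (nat_lit 12) (.e (nat_lit 426506) (nat_lit 27) .nil))))))) (.g (nat_lit 1) (.e (nat_lit 371226) (nat_lit 0) .nil) .nil))))) (.nd (nat_lit 8) (.nd (nat_lit 9) 
(.lf (nat_lit 577727) (.g (nat_lit 2940) (.e (nat_lit 336034) (nat_lit 4) (.e (nat_lit 123182) (nat_lit 264) (.e (nat_lit 1183) (nat_lit 87) (.e (nat_lit 57479) (nat_lit 28) (.e (nat_lit 557100) (nat_lit 13) .nil))))) (.g (nat_lit 0) (.e (nat_lit 369177) (nat_lit 0) .nil) .nil))) 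
(.lf (nat_lit 578239) (.g (nat_lit 2131) (.e (nat_lit 336163) (nat_lit 10) (.e (nat_lit 344119) (nat_lit 21) (.e (nat_lit 516139) (nat_lit 7) (.e (nat_lit 409616) (nat_lit 10) (.e (nat_lit 5628) (nat_lit 312) (.e (nat_lit 2685) (nat_lit 168) (.e (nat_lit 204855) (nat_lit 26) .nil))))))) (.g (nat_lit 1) (.e (nat_lit 370838) (nat_lit 0) .nil) .nil)))) (.nd (nat_lit 9) 
(.lf (nat_lit 577983) (.g (nat_lit 1371) (.e (nat_lit 336089) (nat_lit 9) (.e (nat_lit 336324) (nat_lit 18) (.e (nat_lit 204838) (nat_lit 20) (.e (nat_lit 114697) (nat_lit 11) .nil)))) (.g (nat_lit 0) (.e (nat_lit 370086) (nat_lit 0) .nil) .nil))) 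
(.lf (nat_lit 578495) (.g (nat_lit 836) (.e (nat_lit 336208) (nat_lit 12) (.e (nat_lit 385074) (nat_lit 31) (.e (nat_lit 573481) (nat_lit 13) .nil))) (.g (nat_lit 0) (.e (nat_lit 371754) (nat_lit 0) .nil) .nil)))))) (.nd (nat_lit 7) (.nd (nat_lit 8) (.nd (nat_lit 9) 
(.lf (nat_lit 577663) (.g (nat_lit 2368) (.e (nat_lit 343808) (nat_lit 3) (.e (nat_lit 98349) (nat_lit 24) (.e (nat_lit 409645) (nat_lit 18) (.e (nat_lit 303117) (nat_lit 2) (.e (nat_lit 196665) (nat_lit 13) .nil))))) (.g (nat_lit 0) (.e (nat_lit 369095) (nat_lit 0) .nil) .nil))) 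
(.lf (nat_lit 578175) (.g (nat_lit 824) (.e (nat_lit 336158) (nat_lit 9) (.e (nat_lit 335988) (nat_lit 1) (.e (nat_lit 57844) (nat_lit 252) .nil))) (.g (nat_lit 0) (.e (nat_lit 370707) (nat_lit 0) .nil) .nil)))) (.nd (nat_lit 9) 
(.lf (nat_lit 577919) (.g (nat_lit 4694) (.e (nat_lit 336079) (nat_lit 9) (.e (nat_lit 336324) (nat_lit 18) (.e (nat_lit 204831) (nat_lit 18) (.e (nat_lit 57848) (nat_lit 252) .nil)))) (.g (nat_lit 0) (.e (nat_lit 369885) (nat_lit 0) .nil) .nil))) 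
(.lf (nat_lit 578431) (.g (nat_lit 1857) (.e (nat_lit 336202) (nat_lit 12) (.e (nat_lit 385074) (nat_lit 31) (.e (nat_lit 573484) (nat_lit 13) (.e (nat_lit 65617) (nat_lit 10) .nil)))) (.g (nat_lit 0) (.e (nat_lit 371572) (nat_lit 0) .nil) .nil))))) (.nd (nat_lit 8) (.nd (nat_lit 9) 
(.lf (nat_lit 577791) (.g (nat_lit 682) (.e (nat_lit 336073) (nat_lit 9) (.e (nat_lit 336013) (nat_lit 2) (.e (nat_lit 90134) (nat_lit 9) .nil))) (.g (nat_lit 0) (.e (nat_lit 369523) (nat_lit 0) .nil) .nil))) 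
(.lf (nat_lit 578303) (.g (nat_lit 2838) (.e (nat_lit 336176) (nat_lit 10) (.e (nat_lit 344130) (nat_lit 26) (.e (nat_lit 557065) (nat_lit 9) (.e (nat_lit 214) (nat_lit 19) (.e (nat_lit 319490) (nat_lit 0) (.e (nat_lit 5761) (nat_lit 315) (.e (nat_lit 163962) (nat_lit 25) (.e (nat_lit 532535) (nat_lit 9) .nil)))))))) (.g (nat_lit 1) (.e (nat_lit 371053) (nat_lit 0) .nil) .nil)))) (.nd (nat_lit 9) 
(.lf (nat_lit 578047) (.g (nat_lit 4957) (.e (nat_lit 336099) (nat_lit 9) (.e (nat_lit 336013) (nat_lit 2) (.e (nat_lit 90170) (nat_lit 13) (.e (nat_lit 172052) (nat_lit 0) .nil)))) (.g (nat_lit 0) (.e (nat_lit 370218) (nat_lit 0) .nil) .nil))) 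
(.lf (nat_lit 578559) (.g (nat_lit 3657) (.e (nat_lit 336226) (nat_lit 14) (.e (nat_lit 401459) (nat_lit 13) (.e (nat_lit 483372) (nat_lit 21) (.e (nat_lit 319511) (nat_lit 10) (.e (nat_lit 5626) (nat_lit 312) .nil))))) (.g (nat_lit 0) (.e (nat_lit 371969) (nat_lit 0) .nil) .nil)))))))))))))


end

end Pool.Agent.Lib.MP_5854e1_co.Cz
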