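import Pool.Agent.Lib.MP_5854e1_co.DtD

/-!
# Windows and cells of the rings
-/

set_option autoImplicit false
set_option maxRecDepth 100000
set_option deprecated.oldSectionVars true

namespace Pool.Agent.Lib.MP_5854e1_co.Cz

open Pool.Agent.Lib.MP_5854e1_co

noncomputable section

noncomputable def tv5625 : DT := (.nd (nat_lit 0) (.nd (nat_lit 1) (.nd (nat_lit 2) (.nd (nat_lit 3) (.nd (nat_lit 4) (.nd (nat_lit 5) (.nd (nat_lit 6) (.nd (nat_lit 7) (.nd (nat_lit 8) (.nd (nat_lit 9) 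
(.lf (nat_lit 578560) (.g (nat_lit 3652) (.e (nat_lit 336226) (nat_lit 14) (.e (nat_lit 401459) (nat_lit 13) (.e (nat_lit 483372) (nat_lit 21) (.e (nat_lit 319513) (nat_lit 10) .nil)))) (.g (nat_lit 0) (.e (nat_lit 371970) (nat_lit 0) .nil) .nil))) 
(.lf (nat_lit 579072) (.g (nat_lit 2915) (.e (nat_lit 336310) (nat_lit 16) (.e (nat_lit 164179) (nat_lit 154) (.e (nat_lit 57378) (nat_lit 3) (.e (nat_lit 98333) (nat_lit 18) (.e (nat_lit 164325) (nat_lit 230) .nil))))) (.g (nat_lit 0) (.e (nat_lit 373684) (nat_lit 0) .nil) .nil)))) (.nd (nat_lit 9) 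
(.lf (nat_lit 578816) (.g (nat_lit 1351) (.e (nat_lit 336235) (nat_lit 14) (.e (nat_lit 401458) (nat_lit 13) (.e (nat_lit 483350) (nat_lit 17) (.e (nat_lit 7936) (nat_lit 364) .nil)))) (.g (nat_lit 0) (.e (nat_lit 372809) (nat_lit 0) .nil) .nil))) 
(.lf (nat_lit 579328) (.g (nat_lit 734) (.e (nat_lit 336324) (nat_lit 18) (.e (nat_lit 204838) (nat_lit 20) (.e (nat_lit 114711) (nat_lit 21) .nil))) (.g (nat_lit 0) (.e (nat_lit 374393) (nat_lit 0) .nil) .nil))))) (.nd (nat_lit 8) (.nd (nat_lit 9) 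
(.lf (nat_lit 578688) (.g (nat_lit 2778) (.e (nat_lit 336230) (nat_lit 14) (.e (nat_lit 401448) (nat_lit 10) (.e (nat_lit 434289) (nat_lit 43) (.e (nat_lit 696328) (nat_lit 5) (.e (nat_lit 3004) (nat_lit 186) (.e (nat_lit 442390) (nat_lit 11) .nil)))))) (.g (nat_lit 1) (.e (nat_lit 372340) (nat_lit 0) .nil) .nil))) 
(.lf (nat_lit 579200) (.g (nat_lit 1696) (.e (nat_lit 336323) (nat_lit 18) (.e (nat_lit 204829) (nat_lit 18) (.e (nat_lit 57847) (nat_lit 252) (.e (nat_lit 57407) (nat_lit 12) (.e (nat_lit 336367) (nat_lit 27) .nil))))) (.g (nat_lit 0) (.e (nat_lit 374179) (nat_lit 0) .nil) .nil)))) (.nd (nat_lit 9) 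
(.lf (nat_lit 578944) (.g (nat_lit 616) (.e (nat_lit 336282) (nat_lit 15) (.e (nat_lit 3631) (nat_lit 227) (.e (nat_lit 778323) (nat_lit 5) .nil))) (.g (nat_lit 0) (.e (nat_lit 373259) (nat_lit 0) .nil) .nil))) 
(.lf (nat_lit 579456) (.g (nat_lit 580) (.e (nat_lit 336325) (nat_lit 18) (.e (nat_lit 204838) (nat_lit 20) (.e (nat_lit 114694) (nat_lit 11) .nil))) (.g (nat_lit 0) (.e (nat_lit 374602) (nat_lit 0) .nil) .nil)))))) (.nd (nat_lit 7) (.nd (nat_lit 8) (.nd (nat_lit 9) 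
(.lf (nat_lit 578624) (.g (nat_lit 331) (.e (nat_lit 336228) (nat_lit 14) (.e (nat_lit 401457) (nat_lit 13) (.e (nat_lit 483346) (nat_lit 17) .nil))) (.g (nat_lit 0) (.e (nat_lit 372070) (nat_lit 0) .nil) .nil))) 
(.lf (nat_lit 579136) (.g (nat_lit 1204) (.e (nat_lit 336316) (nat_lit 17) (.e (nat_lit 196670) (nat_lit 14) (.e (nat_lit 73753) (nat_lit 8) (.e (nat_lit 557096) (nat_lit 13) .nil)))) (.g (nat_lit 0) (.e (nat_lit 373861) (nat_lit 0) .nil) .nil)))) (.nd (nat_lit 9) 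
(.lf (nat_lit 578880) (.g (nat_lit 3481) (.e (nat_lit 336260) (nat_lit 15) (.e (nat_lit 3307) (nat_lit 202) (.e (nat_lit 573493) (nat_lit 15) (.e (nat_lit 81956) (nat_lit 23) (.e (nat_lit 98388) (nat_lit 33) (.e (nat_lit 491550) (nat_lit 9) .nil)))))) (.g (nat_lit 1) (.e (nat_lit 373120) (nat_lit 0) .nil) .nil))) 
(.lf (nat_lit 579392) (.g (nat_lit 2346) (.e (nat_lit 336324) (nat_lit 18) (.e (nat_lit 204880) (nat_lit 32) (.e (nat_lit 385066) (nat_lit 26) (.e (nat_lit 532529) (nat_lit 9) (.e (nat_lit 336326) (nat_lit 18) (.e (nat_lit 204852) (nat_lit 26) .nil)))))) (.g (nat_lit 1) (.e (nat_lit 374508) (nat_lit 0) .nil) .nil))))) (.nd (nat_lit 8) (.nd (nat_lit 9) 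
(.lf (nat_lit 578752) (.g (nat_lit 679) (.e (nat_lit 336231) (nat_lit 14) (.e (nat_lit 401458) (nat_lit 13) (.e (nat_lit 483354) (nat_lit 17) .nil))) (.g (nat_lit 0) (.e (nat_lit 372569) (nat_lit 0) .nil) .nil))) 
(.lf (nat_lit 579264) (.g (nat_lit 1134) (.e (nat_lit 336324) (nat_lit 18) (.e (nat_lit 204831) (nat_lit 18) (.e (nat_lit 57852) (nat_lit 252) (.e (nat_lit 65280) (nat_lit 12) .nil)))) (.g (nat_lit 0) (.e (nat_lit 374282) (nat_lit 0) .nil) .nil)))) (.nd (nat_lit 9) 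
(.lf (nat_lit 579008) (.g (nat_lit 1784) (.e (nat_lit 336286) (nat_lit 15) (.e (nat_lit 3632) (nat_lit 227) (.e (nat_lit 778323) (nat_lit 5) (.e (nat_lit 73782) (nat_lit 32) (.e (nat_lit 3090) (nat_lit 191) (.e (nat_lit 483381) (nat_lit 23) .nil)))))) (.g (nat_lit 1) (.e (nat_lit 373526) (nat_lit 0) .nil) .nil))) 
(.lf (nat_lit 579520) (.g (nat_lit 2602) (.e (nat_lit 336326) (nat_lit 18) (.e (nat_lit 204852) (nat_lit 26) (.e (nat_lit 336326) (nat_lit 18) (.e (nat_lit 204854) (nat_lit 26) (.e (nat_lit 336263) (nat_lit 15) .nil))))) (.g (nat_lit 0) (.e (nat_lit 374827) (nat_lit 0) .nil) .nil))))))) (.nd (nat_lit 6) (.nd (nat_lit 7) (.nd (nat_lit 8) (.nd (nat_lit 9) 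
(.lf (nat_lit 578592) (.g (nat_lit 1949) (.e (nat_lit 336228) (nat_lit 14) (.e (nat_lit 401425) (nat_lit 2) (.e (nat_lit 196674) (nat_lit 15) (.e (nat_lit 81946) (nat_lit 20) (.e (nat_lit 1842) (nat_lit 123) .nil))))) (.g (nat_lit 0) (.e (nat_lit 372017) (nat_lit 0) .nil) .nil))) 
(.lf (nat_lit 579104) (.g (nat_lit 3196) (.e (nat_lit 336316) (nat_lit 17) (.e (nat_lit 196666) (nat_lit 13) (.e (nat_lit 65610) (nat_lit 10) (.e (nat_lit 344088) (nat_lit 18) (.e (nat_lit 7697) (nat_lit 412) (.e (nat_lit 57366) (nat_lit 1) (.e (nat_lit 57854) (nat_lit 252) (.e (nat_lit 57406) (nat_lit 12) .nil)))))))) (.g (nat_lit 1) (.e (nat_lit 373776) (nat_lit 0) .nil) .nil)))) 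
(.nd (nat_lit 9) 
(.lf (nat_lit 578848) (.g (nat_lit 1495) (.e (nat_lit 336239) (nat_lit 15) (.e (nat_lit 3309) (nat_lit 202) (.e (nat_lit 573485) (nat_lit 13) (.e (nat_lit 65628) (nat_lit 14) (.e (nat_lit 401428) (nat_lit 3) .nil))))) (.g (nat_lit 0) (.e (nat_lit 372894) (nat_lit 0) .nil) .nil))) 
(.lf (nat_lit 579360) (.g (nat_lit 3660) (.e (nat_lit 336324) (nat_lit 18) (.e (nat_lit 204854) (nat_lit 26) (.e (nat_lit 336306) (nat_lit 15) (.e (nat_lit 3238) (nat_lit 197) (.e (nat_lit 532529) (nat_lit 9) (.e (nat_lit 336324) (nat_lit 18) (.e (nat_lit 204853) (nat_lit 26) .nil))))))) (.g (nat_lit 1) (.e (nat_lit 374451) (nat_lit 0) .nil) .nil))))) (.nd (nat_lit 8) (.nd (nat_lit 9) 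
(.lf (nat_lit 578720) (.g (nat_lit 1011) (.e (nat_lit 336231) (nat_lit 14) (.e (nat_lit 401446) (nat_lit 10) (.e (nat_lit 434208) (nat_lit 18) (.e (nat_lit 6420) (nat_lit 341) .nil)))) (.g (nat_lit 0) (.e (nat_lit 372446) (nat_lit 0) .nil) .nil))) 
(.lf (nat_lit 579232) (.g (nat_lit 2302) (.e (nat_lit 336324) (nat_lit 18) (.e (nat_lit 204828) (nat_lit 18) (.e (nat_lit 57849) (nat_lit 252) (.e (nat_lit 57407) (nat_lit 12) (.e (nat_lit 336454) (nat_lit 34) .nil))))) (.g (nat_lit 0) (.e (nat_lit 374231) (nat_lit 0) .nil) .nil)))) (.nd (nat_lit 9) 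
(.lf (nat_lit 578976) (.g (nat_lit 1745) (.e (nat_lit 336306) (nat_lit 15) (.e (nat_lit 3297) (nat_lit 202) (.e (nat_lit 573484) (nat_lit 13) (.e (nat_lit 65617) (nat_lit 10) .nil)))) (.g (nat_lit 0) (.e (nat_lit 373368) (nat_lit 0) .nil) .nil))) 
(.lf (nat_lit 579488) (.g (nat_lit 1903) (.e (nat_lit 336326) (nat_lit 18) (.e (nat_lit 204830) (nat_lit 18) (.e (nat_lit 57852) (nat_lit 252) (.e (nat_lit 57376) (nat_lit 3) .nil)))) (.g (nat_lit 0) (.e (nat_lit 374701) (nat_lit 0) .nil) .nil)))))) (.nd (nat_lit 7) (.nd (nat_lit 8) (.nd (nat_lit 9) 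
(.lf (nat_lit 578656) (.g (nat_lit 1195) (.e (nat_lit 336229) (nat_lit 14) (.e (nat_lit 401458) (nat_lit 13) (.e (nat_lit 483344) (nat_lit 17) (.e (nat_lit 7936) (nat_lit 361) .nil)))) (.g (nat_lit 0) (.e (nat_lit 372162) (nat_lit 0) .nil) .nil))) 
(.lf (nat_lit 579168) (.g (nat_lit 750) (.e (nat_lit 336322) (nat_lit 18) (.e (nat_lit 204830) (nat_lit 18) (.e (nat_lit 57830) (nat_lit 250) .nil))) (.g (nat_lit 0) (.e (nat_lit 374111) (nat_lit 0) .nil) .nil)))) (.nd (nat_lit 9) 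
(.lf (nat_lit 578912) (.g (nat_lit 1381) (.e (nat_lit 336271) (nat_lit 15) (.e (nat_lit 3233) (nat_lit 197) (.e (nat_lit 532504) (nat_lit 1) (.e (nat_lit 57851) (nat_lit 252) (.e (nat_lit 57406) (nat_lit 12) .nil))))) (.g (nat_lit 0) (.e (nat_lit 373193) (nat_lit 0) .nil) .nil))) 
(.lf (nat_lit 579424) (.g (nat_lit 2455) (.e (nat_lit 336324) (nat_lit 18) (.e (nat_lit 204882) (nat_lit 32) (.e (nat_lit 385066) (nat_lit 26) (.e (nat_lit 532530) (nat_lit 9) (.e (nat_lit 336326) (nat_lit 18) (.e (nat_lit 204850) (nat_lit 26) .nil)))))) (.g (nat_lit 1) (.e (nat_lit 374546) (nat_lit 0) .nil) .nil))))) (.nd (nat_lit 8) (.nd (nat_lit 9) 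
(.lf (nat_lit 578784) (.g (nat_lit 2855) (.e (nat_lit 336234) (nat_lit 14) (.e (nat_lit 401448) (nat_lit 10) (.e (nat_lit 434289) (nat_lit 43) (.e (nat_lit 696344) (nat_lit 8) (.e (nat_lit 172087) (nat_lit 9) .nil))))) (.g (nat_lit 0) (.e (nat_lit 372728) (nat_lit 0) .nil) .nil))) 
(.lf (nat_lit 579296) (.g (nat_lit 346) (.e (nat_lit 336324) (nat_lit 18) (.e (nat_lit 204837) (nat_lit 20) (.e (nat_lit 122624) (nat_lit 12) .nil))) (.g (nat_lit 0) (.e (nat_lit 374342) (nat_lit 0) .nil) .nil)))) (.nd (nat_lit 9) 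
(.lf (nat_lit 579040) (.g (nat_lit 1649) (.e (nat_lit 336293) (nat_lit 15) (.e (nat_lit 3632) (nat_lit 227) (.e (nat_lit 778323) (nat_lit 5) (.e (nat_lit 73781) (nat_lit 32) (.e (nat_lit 3087) (nat_lit 191) .nil))))) (.g (nat_lit 0) (.e (nat_lit 373596) (nat_lit 0) .nil) .nil))) 
(.lf (nat_lit 579552) (.g (nat_lit 3612) (.e (nat_lit 336326) (nat_lit 18) (.e (nat_lit 204854) (nat_lit 26) (.e (nat_lit 336324) (nat_lit 18) (.e (nat_lit 204882) (nat_lit 32) (.e (nat_lit 385066) (nat_lit 26) (.e (nat_lit 532534) (nat_lit 9) .nil)))))) (.g (nat_lit 1) (.e (nat_lit 374884) (nat_lit 0) .nil) .nil)))))))) 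
(.nd (nat_lit 5) (.nd (nat_lit 6) (.nd (nat_lit 7) (.nd (nat_lit 8) (.nd (nat_lit 9) 
(.lf (nat_lit 578576) (.g (nat_lit 742) (.e (nat_lit 336228) (nat_lit 14) (.e (nat_lit 401425) (nat_lit 2) (.e (nat_lit 196628) (nat_lit 9) .nil))) (.g (nat_lit 0) (.e (nat_lit 371998) (nat_lit 0) .nil) .nil))) 
(.lf (nat_lit 579088) (.g (nat_lit 2484) (.e (nat_lit 336310) (nat_lit 16) (.e (nat_lit 164183) (nat_lit 154) (.e (nat_lit 57378) (nat_lit 3) (.e (nat_lit 98334) (nat_lit 18) (.e (nat_lit 164330) (nat_lit 230) .nil))))) (.g (nat_lit 0) (.e (nat_lit 373701) (nat_lit 0) .nil) .nil)))) (.nd (nat_lit 9) 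
(.lf (nat_lit 578832) (.g (nat_lit 584) (.e (nat_lit 336236) (nat_lit 14) (.e (nat_lit 401425) (nat_lit 2) (.e (nat_lit 196668) (nat_lit 14) .nil))) (.g (nat_lit 0) (.e (nat_lit 372829) (nat_lit 0) .nil) .nil))) 
(.lf (nat_lit 579344) (.g (nat_lit 1548) (.e (nat_lit 336324) (nat_lit 18) (.e (nat_lit 204852) (nat_lit 26) (.e (nat_lit 336326) (nat_lit 18) (.e (nat_lit 204854) (nat_lit 26) (.e (nat_lit 336284) (nat_lit 15) .nil))))) (.g (nat_lit 0) (.e (nat_lit 374423) (nat_lit 0) .nil) .nil))))) (.nd (nat_lit 8) (.nd (nat_lit 9) 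
(.lf (nat_lit 578704) (.g (nat_lit 2441) (.e (nat_lit 336231) (nat_lit 14) (.e (nat_lit 401432) (nat_lit 7) (.e (nat_lit 409646) (nat_lit 18) (.e (nat_lit 303137) (nat_lit 10) (.e (nat_lit 434275) (nat_lit 39) .nil))))) (.g (nat_lit 0) (.e (nat_lit 372394) (nat_lit 0) .nil) .nil))) 
(.lf (nat_lit 579216) (.g (nat_lit 2956) (.e (nat_lit 336323) (nat_lit 18) (.e (nat_lit 204837) (nat_lit 20) (.e (nat_lit 114698) (nat_lit 11) (.e (nat_lit 426139) (nat_lit 3) (.e (nat_lit 204859) (nat_lit 26) (.e (nat_lit 336116) (nat_lit 9) .nil)))))) (.g (nat_lit 1) (.e (nat_lit 374195) (nat_lit 0) .nil) .nil)))) (.nd (nat_lit 9) 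
(.lf (nat_lit 578960) (.g (nat_lit 454) (.e (nat_lit 336306) (nat_lit 15) (.e (nat_lit 3238) (nat_lit 197) (.e (nat_lit 532502) (nat_lit 1) .nil))) (.g (nat_lit 0) (.e (nat_lit 373320) (nat_lit 0) .nil) .nil))) 
(.lf (nat_lit 579472) (.g (nat_lit 1494) (.e (nat_lit 336325) (nat_lit 18) (.e (nat_lit 204880) (nat_lit 32) (.e (nat_lit 385066) (nat_lit 26) (.e (nat_lit 532529) (nat_lit 9) (.e (nat_lit 336324) (nat_lit 18) .nil))))) (.g (nat_lit 0) (.e (nat_lit 374657) (nat_lit 0) .nil) .nil)))))) (.nd (nat_lit 7) (.nd (nat_lit 8) (.nd (nat_lit 9) 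
(.lf (nat_lit 578640) (.g (nat_lit 2259) (.e (nat_lit 336228) (nat_lit 14) (.e (nat_lit 401458) (nat_lit 13) (.e (nat_lit 483372) (nat_lit 21) (.e (nat_lit 319537) (nat_lit 19) (.e (nat_lit 311353) (nat_lit 27) .nil))))) (.g (nat_lit 1) (.e (nat_lit 372091) (nat_lit 0) .nil) .nil))) 
(.lf (nat_lit 579152) (.g (nat_lit 2036) (.e (nat_lit 336320) (nat_lit 17) (.e (nat_lit 196698) (nat_lit 19) (.e (nat_lit 57811) (nat_lit 246) (.e (nat_lit 57883) (nat_lit 270) (.e (nat_lit 496) (nat_lit 39) (.e (nat_lit 483379) (nat_lit 23) .nil)))))) (.g (nat_lit 1) (.e (nat_lit 374068) (nat_lit 0) .nil) .nil)))) (.nd (nat_lit 9) 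
(.lf (nat_lit 578896) (.g (nat_lit 624) (.e (nat_lit 336267) (nat_lit 15) (.e (nat_lit 3631) (nat_lit 227) (.e (nat_lit 778323) (nat_lit 5) .nil))) (.g (nat_lit 0) (.e (nat_lit 373174) (nat_lit 0) .nil) .nil))) 
(.lf (nat_lit 579408) (.g (nat_lit 1985) (.e (nat_lit 336324) (nat_lit 18) (.e (nat_lit 204880) (nat_lit 32) (.e (nat_lit 385068) (nat_lit 26) (.e (nat_lit 532534) (nat_lit 9) (.e (nat_lit 336326) (nat_lit 18) .nil))))) (.g (nat_lit 0) (.e (nat_lit 374524) (nat_lit 0) .nil) .nil))))) (.nd (nat_lit 8) (.nd (nat_lit 9) 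
(.lf (nat_lit 578768) (.g (nat_lit 2088) (.e (nat_lit 336232) (nat_lit 14) (.e (nat_lit 401446) (nat_lit 10) (.e (nat_lit 434287) (nat_lit 43) (.e (nat_lit 696346) (nat_lit 10) (.e (nat_lit 188423) (nat_lit 11) .nil))))) (.g (nat_lit 1) (.e (nat_lit 372643) (nat_lit 0) .nil) .nil))) 
(.lf (nat_lit 579280) (.g (nat_lit 2012) (.e (nat_lit 336324) (nat_lit 18) (.e (nat_lit 204837) (nat_lit 20) (.e (nat_lit 114697) (nat_lit 11) (.e (nat_lit 426139) (nat_lit 3) (.e (nat_lit 204850) (nat_lit 26) (.e (nat_lit 336089) (nat_lit 9) .nil)))))) (.g (nat_lit 1) (.e (nat_lit 374313) (nat_lit 0) .nil) .nil)))) (.nd (nat_lit 9) 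
(.lf (nat_lit 579024) (.g (nat_lit 1623) (.e (nat_lit 336292) (nat_lit 15) (.e (nat_lit 3632) (nat_lit 227) (.e (nat_lit 778323) (nat_lit 5) (.e (nat_lit 73782) (nat_lit 32) (.e (nat_lit 3089) (nat_lit 191) .nil))))) (.g (nat_lit 0) (.e (nat_lit 373551) (nat_lit 0) .nil) .nil))) 
(.lf (nat_lit 579536) (.g (nat_lit 1128) (.e (nat_lit 336326) (nat_lit 18) (.e (nat_lit 204854) (nat_lit 26) (.e (nat_lit 336269) (nat_lit 15) .nil))) (.g (nat_lit 0) (.e (nat_lit 374857) (nat_lit 0) .nil) .nil))))))) (.nd (nat_lit 6) (.nd (nat_lit 7) (.nd (nat_lit 8) (.nd (nat_lit 9) 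
(.lf (nat_lit 578608) (.g (nat_lit 2384) (.e (nat_lit 336228) (nat_lit 14) (.e (nat_lit 401437) (nat_lit 9) (.e (nat_lit 426533) (nat_lit 28) (.e (nat_lit 344068) (nat_lit 0) (.e (nat_lit 2857) (nat_lit 184) (.e (nat_lit 426509) (nat_lit 27) .nil)))))) (.g (nat_lit 1) (.e (nat_lit 372034) (nat_lit 0) .nil) .nil))) 
(.lf (nat_lit 579120) (.g (nat_lit 2131) (.e (nat_lit 336316) (nat_lit 17) (.e (nat_lit 196666) (nat_lit 13) (.e (nat_lit 65617) (nat_lit 10) (.e (nat_lit 344091) (nat_lit 18) (.e (nat_lit 7936) (nat_lit 412) (.e (nat_lit 57368) (nat_lit 1) (.e (nat_lit 57854) (nat_lit 252) (.e (nat_lit 57406) (nat_lit 12) .nil)))))))) (.g (nat_lit 1) (.e (nat_lit 373797) (nat_lit 0) .nil) .nil)))) 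
(.nd (nat_lit 9) 
(.lf (nat_lit 578864) (.g (nat_lit 1760) (.e (nat_lit 336246) (nat_lit 15) (.e (nat_lit 3249) (nat_lit 197) (.e (nat_lit 532503) (nat_lit 1) (.e (nat_lit 57844) (nat_lit 252) (.e (nat_lit 57406) (nat_lit 12) .nil))))) (.g (nat_lit 0) (.e (nat_lit 373046) (nat_lit 0) .nil) .nil))) 
(.lf (nat_lit 579376) (.g (nat_lit 378) (.e (nat_lit 336324) (nat_lit 18) (.e (nat_lit 204854) (nat_lit 26) (.e (nat_lit 336325) (nat_lit 18) .nil))) (.g (nat_lit 0) (.e (nat_lit 374474) (nat_lit 0) .nil) .nil))))) (.nd (nat_lit 8) (.nd (nat_lit 9) 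
(.lf (nat_lit 578736) (.g (nat_lit 2578) (.e (nat_lit 336231) (nat_lit 14) (.e (nat_lit 401448) (nat_lit 10) (.e (nat_lit 434208) (nat_lit 18) (.e (nat_lit 6420) (nat_lit 341) (.e (nat_lit 163843) (nat_lit 0) (.e (nat_lit 7936) (nat_lit 392) (.e (nat_lit 172150) (nat_lit 27) .nil))))))) (.g (nat_lit 1) (.e (nat_lit 372488) (nat_lit 0) .nil) .nil))) 
(.lf (nat_lit 579248) (.g (nat_lit 3351) (.e (nat_lit 336324) (nat_lit 18) (.e (nat_lit 204831) (nat_lit 18) (.e (nat_lit 57847) (nat_lit 252) (.e (nat_lit 57411) (nat_lit 12) (.e (nat_lit 336455) (nat_lit 34) (.e (nat_lit 483381) (nat_lit 23) .nil)))))) (.g (nat_lit 1) (.e (nat_lit 374259) (nat_lit 0) .nil) .nil)))) (.nd (nat_lit 9) 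
(.lf (nat_lit 578992) (.g (nat_lit 2814) (.e (nat_lit 336306) (nat_lit 15) (.e (nat_lit 3307) (nat_lit 202) (.e (nat_lit 573484) (nat_lit 13) (.e (nat_lit 65617) (nat_lit 10) (.e (nat_lit 344130) (nat_lit 26) .nil))))) (.g (nat_lit 0) (.e (nat_lit 373441) (nat_lit 0) .nil) .nil))) 
(.lf (nat_lit 579504) (.g (nat_lit 377) (.e (nat_lit 336326) (nat_lit 18) (.e (nat_lit 204837) (nat_lit 20) (.e (nat_lit 114698) (nat_lit 11) .nil))) (.g (nat_lit 0) (.e (nat_lit 374781) (nat_lit 0) .nil) .nil)))))) (.nd (nat_lit 7) (.nd (nat_lit 8) (.nd (nat_lit 9) 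
(.lf (nat_lit 578672) (.g (nat_lit 523) (.e (nat_lit 336230) (nat_lit 14) (.e (nat_lit 401434) (nat_lit 9) (.e (nat_lit 426470) (nat_lit 25) .nil))) (.g (nat_lit 0) (.e (nat_lit 372218) (nat_lit 0) .nil) .nil))) 
(.lf (nat_lit 579184) (.g (nat_lit 1770) (.e (nat_lit 336322) (nat_lit 18) (.e (nat_lit 204861) (nat_lit 26) (.e (nat_lit 336215) (nat_lit 13) (.e (nat_lit 393253) (nat_lit 18) .nil)))) (.g (nat_lit 0) (.e (nat_lit 374160) (nat_lit 0) .nil) .nil)))) (.nd (nat_lit 9) 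
(.lf (nat_lit 578928) (.g (nat_lit 1623) (.e (nat_lit 336276) (nat_lit 15) (.e (nat_lit 3632) (nat_lit 227) (.e (nat_lit 778323) (nat_lit 5) (.e (nat_lit 73782) (nat_lit 32) (.e (nat_lit 3089) (nat_lit 191) .nil))))) (.g (nat_lit 0) (.e (nat_lit 373212) (nat_lit 0) .nil) .nil))) 
(.lf (nat_lit 579440) (.g (nat_lit 2820) (.e (nat_lit 336324) (nat_lit 18) (.e (nat_lit 204882) (nat_lit 32) (.e (nat_lit 385068) (nat_lit 26) (.e (nat_lit 532529) (nat_lit 9) (.e (nat_lit 336326) (nat_lit 18) (.e (nat_lit 204854) (nat_lit 26) .nil)))))) (.g (nat_lit 1) (.e (nat_lit 374565) (nat_lit 0) .nil) .nil))))) (.nd (nat_lit 8) (.nd (nat_lit 9) 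
(.lf (nat_lit 578800) (.g (nat_lit 4084) (.e (nat_lit 336235) (nat_lit 14) (.e (nat_lit 401438) (nat_lit 9) (.e (nat_lit 426533) (nat_lit 28) (.e (nat_lit 344068) (nat_lit 0) (.e (nat_lit 2856) (nat_lit 184) (.e (nat_lit 426530) (nat_lit 27) .nil)))))) (.g (nat_lit 1) (.e (nat_lit 372774) (nat_lit 0) .nil) .nil))) 
(.lf (nat_lit 579312) (.g (nat_lit 1195) (.e (nat_lit 336324) (nat_lit 18) (.e (nat_lit 204838) (nat_lit 20) (.e (nat_lit 114698) (nat_lit 11) (.e (nat_lit 426114) (nat_lit 2) .nil)))) (.g (nat_lit 0) (.e (nat_lit 374364) (nat_lit 0) .nil) .nil)))) (.nd (nat_lit 9) 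
(.lf (nat_lit 579056) (.g (nat_lit 1804) (.e (nat_lit 336300) (nat_lit 15) (.e (nat_lit 3253) (nat_lit 197) (.e (nat_lit 532504) (nat_lit 1) (.e (nat_lit 57852) (nat_lit 252) (.e (nat_lit 57446) (nat_lit 19) .nil))))) (.g (nat_lit 0) (.e (nat_lit 373615) (nat_lit 0) .nil) .nil))) 
(.lf (nat_lit 579568) (.g (nat_lit 2636) (.e (nat_lit 336326) (nat_lit 18) (.e (nat_lit 204854) (nat_lit 26) (.e (nat_lit 336326) (nat_lit 18) (.e (nat_lit 204854) (nat_lit 26) (.e (nat_lit 336297) (nat_lit 15) .nil))))) (.g (nat_lit 0) (.e (nat_lit 374903) (nat_lit 0) .nil) .nil))))))))) (.nd (nat_lit 4) (.nd (nat_lit 5) (.nd (nat_lit 6) (.nd (nat_lit 7) (.nd (nat_lit 8) (.nd (nat_lit 9) 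
(.lf (nat_lit 578568) (.g (nat_lit 3683) (.e (nat_lit 336226) (nat_lit 14) (.e (nat_lit 401459) (nat_lit 13) (.e (nat_lit 483411) (nat_lit 27) (.e (nat_lit 401437) (nat_lit 9) (.e (nat_lit 426482) (nat_lit 27) .nil))))) (.g (nat_lit 1) (.e (nat_lit 371978) (nat_lit 0) .nil) .nil))) 
(.lf (nat_lit 579080) (.g (nat_lit 2366) (.e (nat_lit 336310) (nat_lit 16) (.e (nat_lit 164182) (nat_lit 154) (.e (nat_lit 57378) (nat_lit 3) (.e (nat_lit 98333) (nat_lit 18) (.e (nat_lit 164325) (nat_lit 230) .nil))))) (.g (nat_lit 0) (.e (nat_lit 373692) (nat_lit 0) .nil) .nil)))) (.nd (nat_lit 9) 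
(.lf (nat_lit 578824) (.g (nat_lit 4902) (.e (nat_lit 336235) (nat_lit 14) (.e (nat_lit 401459) (nat_lit 13) (.e (nat_lit 483372) (nat_lit 21) (.e (nat_lit 319538) (nat_lit 19) (.e (nat_lit 319232) (nat_lit 27) .nil))))) (.g (nat_lit 1) (.e (nat_lit 372817) (nat_lit 0) .nil) .nil))) 
(.lf (nat_lit 579336) (.g (nat_lit 3125) (.e (nat_lit 336324) (nat_lit 18) (.e (nat_lit 204852) (nat_lit 26) (.e (nat_lit 336324) (nat_lit 18) (.e (nat_lit 204854) (nat_lit 26) (.e (nat_lit 336306) (nat_lit 15) (.e (nat_lit 3238) (nat_lit 197) (.e (nat_lit 532531) (nat_lit 9) .nil))))))) (.g (nat_lit 1) (.e (nat_lit 374405) (nat_lit 0) .nil) .nil))))) (.nd (nat_lit 8) (.nd (nat_lit 9) 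
(.lf (nat_lit 578696) (.g (nat_lit 799) (.e (nat_lit 336230) (nat_lit 14) (.e (nat_lit 401456) (nat_lit 13) (.e (nat_lit 483343) (nat_lit 17) .nil))) (.g (nat_lit 0) (.e (nat_lit 372362) (nat_lit 0) .nil) .nil))) 
(.lf (nat_lit 579208) (.g (nat_lit 1330) (.e (nat_lit 336323) (nat_lit 18) (.e (nat_lit 204831) (nat_lit 18) (.e (nat_lit 57846) (nat_lit 252) (.e (nat_lit 57407) (nat_lit 12) (.e (nat_lit 336367) (nat_lit 27) .nil))))) (.g (nat_lit 0) (.e (nat_lit 374187) (nat_lit 0) .nil) .nil)))) (.nd (nat_lit 9) 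
(.lf (nat_lit 578952) (.g (nat_lit 2183) (.e (nat_lit 336303) (nat_lit 15) (.e (nat_lit 3304) (nat_lit 202) (.e (nat_lit 573484) (nat_lit 13) (.e (nat_lit 65617) (nat_lit 10) (.e (nat_lit 344130) (nat_lit 26) .nil))))) (.g (nat_lit 0) (.e (nat_lit 373274) (nat_lit 0) .nil) .nil))) 
(.lf (nat_lit 579464) (.g (nat_lit 2064) (.e (nat_lit 336325) (nat_lit 18) (.e (nat_lit 204838) (nat_lit 20) (.e (nat_lit 114698) (nat_lit 11) (.e (nat_lit 426139) (nat_lit 3) (.e (nat_lit 204861) (nat_lit 26) .nil))))) (.g (nat_lit 0) (.e (nat_lit 374626) (nat_lit 0) .nil) .nil)))))) (.nd (nat_lit 7) (.nd (nat_lit 8) (.nd (nat_lit 9) 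
(.lf (nat_lit 578632) (.g (nat_lit 1259) (.e (nat_lit 336228) (nat_lit 14) (.e (nat_lit 401458) (nat_lit 13) (.e (nat_lit 483350) (nat_lit 17) (.e (nat_lit 6113) (nat_lit 332) .nil)))) (.g (nat_lit 0) (.e (nat_lit 372081) (nat_lit 0) .nil) .nil))) 
(.lf (nat_lit 579144) (.g (nat_lit 1506) (.e (nat_lit 336316) (nat_lit 17) (.e (nat_lit 196670) (nat_lit 14) (.e (nat_lit 73755) (nat_lit 8) (.e (nat_lit 557098) (nat_lit 13) .nil)))) (.g (nat_lit 0) (.e (nat_lit 373939) (nat_lit 0) .nil) .nil)))) (.nd (nat_lit 9) 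
(.lf (nat_lit 578888) (.g (nat_lit 3472) (.e (nat_lit 336263) (nat_lit 15) (.e (nat_lit 3631) (nat_lit 227) (.e (nat_lit 778323) (nat_lit 5) (.e (nat_lit 73782) (nat_lit 32) (.e (nat_lit 3090) (nat_lit 191) (.e (nat_lit 483380) (nat_lit 23) .nil)))))) (.g (nat_lit 1) (.e (nat_lit 373152) (nat_lit 0) .nil) .nil))) 
(.lf (nat_lit 579400) (.g (nat_lit 1036) (.e (nat_lit 336324) (nat_lit 18) (.e (nat_lit 204880) (nat_lit 32) (.e (nat_lit 385066) (nat_lit 26) (.e (nat_lit 532566) (nat_lit 15) .nil)))) (.g (nat_lit 0) (.e (nat_lit 374516) (nat_lit 0) .nil) .nil))))) (.nd (nat_lit 8) (.nd (nat_lit 9) 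
(.lf (nat_lit 578760) (.g (nat_lit 2105) (.e (nat_lit 336232) (nat_lit 14) (.e (nat_lit 401432) (nat_lit 7) (.e (nat_lit 409649) (nat_lit 18) (.e (nat_lit 303137) (nat_lit 10) .nil)))) (.g (nat_lit 0) (.e (nat_lit 372603) (nat_lit 0) .nil) .nil))) 
(.lf (nat_lit 579272) (.g (nat_lit 2857) (.e (nat_lit 336324) (nat_lit 18) (.e (nat_lit 204831) (nat_lit 18) (.e (nat_lit 57854) (nat_lit 252) (.e (nat_lit 57409) (nat_lit 12) (.e (nat_lit 336452) (nat_lit 34) (.e (nat_lit 483382) (nat_lit 23) .nil)))))) (.g (nat_lit 1) (.e (nat_lit 374295) (nat_lit 0) .nil) .nil)))) (.nd (nat_lit 9) 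
(.lf (nat_lit 579016) (.g (nat_lit 1617) (.e (nat_lit 336291) (nat_lit 15) (.e (nat_lit 3632) (nat_lit 227) (.e (nat_lit 778323) (nat_lit 5) (.e (nat_lit 73782) (nat_lit 32) (.e (nat_lit 3089) (nat_lit 191) .nil))))) (.g (nat_lit 0) (.e (nat_lit 373541) (nat_lit 0) .nil) .nil))) 
(.lf (nat_lit 579528) (.g (nat_lit 2779) (.e (nat_lit 336326) (nat_lit 18) (.e (nat_lit 204852) (nat_lit 26) (.e (nat_lit 336326) (nat_lit 18) (.e (nat_lit 204854) (nat_lit 26) (.e (nat_lit 336301) (nat_lit 15) (.e (nat_lit 3234) (nat_lit 197) (.e (nat_lit 532530) (nat_lit 9) .nil))))))) (.g (nat_lit 1) (.e (nat_lit 374835) (nat_lit 0) .nil) .nil))))))) 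
(.nd (nat_lit 6) (.nd (nat_lit 7) (.nd (nat_lit 8) (.nd (nat_lit 9) 
(.lf (nat_lit 578600) (.g (nat_lit 2964) (.e (nat_lit 336228) (nat_lit 14) (.e (nat_lit 401437) (nat_lit 9) (.e (nat_lit 426482) (nat_lit 27) (.e (nat_lit 336060) (nat_lit 7) (.e (nat_lit 319538) (nat_lit 19) (.e (nat_lit 311353) (nat_lit 27) .nil)))))) (.g (nat_lit 1) (.e (nat_lit 372026) (nat_lit 0) .nil) .nil))) 
(.lf (nat_lit 579112) (.g (nat_lit 2353) (.e (nat_lit 336316) (nat_lit 17) (.e (nat_lit 196666) (nat_lit 13) (.e (nat_lit 65617) (nat_lit 10) (.e (nat_lit 344089) (nat_lit 18) (.e (nat_lit 7693) (nat_lit 412) (.e (nat_lit 57368) (nat_lit 1) (.e (nat_lit 57854) (nat_lit 252) (.e (nat_lit 57409) (nat_lit 12) .nil)))))))) (.g (nat_lit 1) (.e (nat_lit 373789) (nat_lit 0) .nil) .nil)))) 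
(.nd (nat_lit 9) 
(.lf (nat_lit 578856) (.g (nat_lit 1997) (.e (nat_lit 336240) (nat_lit 15) (.e (nat_lit 3309) (nat_lit 202) (.e (nat_lit 573484) (nat_lit 13) (.e (nat_lit 65617) (nat_lit 10) (.e (nat_lit 344130) (nat_lit 26) .nil))))) (.g (nat_lit 0) (.e (nat_lit 372952) (nat_lit 0) .nil) .nil))) 
(.lf (nat_lit 579368) (.g (nat_lit 2388) (.e (nat_lit 336324) (nat_lit 18) (.e (nat_lit 204854) (nat_lit 26) (.e (nat_lit 336324) (nat_lit 18) (.e (nat_lit 204852) (nat_lit 26) (.e (nat_lit 336316) (nat_lit 17) (.e (nat_lit 196630) (nat_lit 9) (.e (nat_lit 1424) (nat_lit 108) .nil))))))) (.g (nat_lit 1) (.e (nat_lit 374460) (nat_lit 0) .nil) .nil))))) (.nd (nat_lit 8) (.nd (nat_lit 9) 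
(.lf (nat_lit 578728) (.g (nat_lit 611) (.e (nat_lit 336231) (nat_lit 14) (.e (nat_lit 401448) (nat_lit 10) (.e (nat_lit 434199) (nat_lit 18) .nil))) (.g (nat_lit 0) (.e (nat_lit 372465) (nat_lit 0) .nil) .nil))) 
(.lf (nat_lit 579240) (.g (nat_lit 3718) (.e (nat_lit 336324) (nat_lit 18) (.e (nat_lit 204831) (nat_lit 18) (.e (nat_lit 57844) (nat_lit 252) (.e (nat_lit 57406) (nat_lit 12) (.e (nat_lit 336456) (nat_lit 34) (.e (nat_lit 483379) (nat_lit 23) .nil)))))) (.g (nat_lit 1) (.e (nat_lit 374251) (nat_lit 0) .nil) .nil)))) (.nd (nat_lit 9) 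
(.lf (nat_lit 578984) (.g (nat_lit 2493) (.e (nat_lit 336306) (nat_lit 15) (.e (nat_lit 3298) (nat_lit 202) (.e (nat_lit 573484) (nat_lit 13) (.e (nat_lit 65617) (nat_lit 10) (.e (nat_lit 344130) (nat_lit 26) .nil))))) (.g (nat_lit 0) (.e (nat_lit 373406) (nat_lit 0) .nil) .nil))) 
(.lf (nat_lit 579496) (.g (nat_lit 1536) (.e (nat_lit 336326) (nat_lit 18) (.e (nat_lit 204831) (nat_lit 18) (.e (nat_lit 57852) (nat_lit 252) (.e (nat_lit 57378) (nat_lit 3) .nil)))) (.g (nat_lit 0) (.e (nat_lit 374739) (nat_lit 0) .nil) .nil)))))) (.nd (nat_lit 7) (.nd (nat_lit 8) (.nd (nat_lit 9) 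
(.lf (nat_lit 578664) (.g (nat_lit 2647) (.e (nat_lit 336229) (nat_lit 14) (.e (nat_lit 401458) (nat_lit 13) (.e (nat_lit 483411) (nat_lit 27) (.e (nat_lit 401444) (nat_lit 9) (.e (nat_lit 426503) (nat_lit 27) .nil))))) (.g (nat_lit 1) (.e (nat_lit 372186) (nat_lit 0) .nil) .nil))) 
(.lf (nat_lit 579176) (.g (nat_lit 1190) (.e (nat_lit 336322) (nat_lit 18) (.e (nat_lit 204852) (nat_lit 26) (.e (nat_lit 336324) (nat_lit 18) (.e (nat_lit 204882) (nat_lit 32) .nil)))) (.g (nat_lit 0) (.e (nat_lit 374142) (nat_lit 0) .nil) .nil)))) (.nd (nat_lit 9) 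
(.lf (nat_lit 578920) (.g (nat_lit 1677) (.e (nat_lit 336275) (nat_lit 15) (.e (nat_lit 3632) (nat_lit 227) (.e (nat_lit 778323) (nat_lit 5) (.e (nat_lit 73781) (nat_lit 32) (.e (nat_lit 3089) (nat_lit 191) .nil))))) (.g (nat_lit 0) (.e (nat_lit 373204) (nat_lit 0) .nil) .nil))) 
(.lf (nat_lit 579432) (.g (nat_lit 1620) (.e (nat_lit 336324) (nat_lit 18) (.e (nat_lit 204882) (nat_lit 32) (.e (nat_lit 385066) (nat_lit 26) (.e (nat_lit 532566) (nat_lit 15) (.e (nat_lit 385065) (nat_lit 26) .nil))))) (.g (nat_lit 0) (.e (nat_lit 374556) (nat_lit 0) .nil) .nil))))) (.nd (nat_lit 8) (.nd (nat_lit 9) 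
(.lf (nat_lit 578792) (.g (nat_lit 1970) (.e (nat_lit 336235) (nat_lit 14) (.e (nat_lit 401435) (nat_lit 9) (.e (nat_lit 426555) (nat_lit 32) (.e (nat_lit 376837) (nat_lit 0) .nil)))) (.g (nat_lit 0) (.e (nat_lit 372760) (nat_lit 0) .nil) .nil))) 
(.lf (nat_lit 579304) (.g (nat_lit 495) (.e (nat_lit 336324) (nat_lit 18) (.e (nat_lit 204838) (nat_lit 20) (.e (nat_lit 114695) (nat_lit 11) .nil))) (.g (nat_lit 0) (.e (nat_lit 374352) (nat_lit 0) .nil) .nil)))) (.nd (nat_lit 9) 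
(.lf (nat_lit 579048) (.g (nat_lit 1532) (.e (nat_lit 336294) (nat_lit 15) (.e (nat_lit 3631) (nat_lit 227) (.e (nat_lit 778323) (nat_lit 5) (.e (nat_lit 73781) (nat_lit 32) (.e (nat_lit 3090) (nat_lit 191) .nil))))) (.g (nat_lit 0) (.e (nat_lit 373606) (nat_lit 0) .nil) .nil))) 
(.lf (nat_lit 579560) (.g (nat_lit 2749) (.e (nat_lit 336326) (nat_lit 18) (.e (nat_lit 204854) (nat_lit 26) (.e (nat_lit 336326) (nat_lit 18) (.e (nat_lit 204854) (nat_lit 26) (.e (nat_lit 336262) (nat_lit 15) (.e (nat_lit 3234) (nat_lit 197) (.e (nat_lit 532530) (nat_lit 9) .nil))))))) (.g (nat_lit 1) (.e (nat_lit 374895) (nat_lit 0) .nil) .nil)))))))) 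
(.nd (nat_lit 5) (.nd (nat_lit 6) (.nd (nat_lit 7) (.nd (nat_lit 8) (.nd (nat_lit 9) 
(.lf (nat_lit 578584) (.g (nat_lit 3159) (.e (nat_lit 336228) (nat_lit 14) (.e (nat_lit 401425) (nat_lit 2) (.e (nat_lit 196666) (nat_lit 13) (.e (nat_lit 65630) (nat_lit 14) (.e (nat_lit 401427) (nat_lit 3) .nil))))) (.g (nat_lit 0) (.e (nat_lit 372006) (nat_lit 0) .nil) .nil))) 
(.lf (nat_lit 579096) (.g (nat_lit 800) (.e (nat_lit 336315) (nat_lit 17) (.e (nat_lit 196666) (nat_lit 13) (.e (nat_lit 65610) (nat_lit 10) .nil))) (.g (nat_lit 0) (.e (nat_lit 373711) (nat_lit 0) .nil) .nil)))) (.nd (nat_lit 9) 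
(.lf (nat_lit 578840) (.g (nat_lit 2680) (.e (nat_lit 343808) (nat_lit 14) (.e (nat_lit 401459) (nat_lit 13) (.e (nat_lit 483372) (nat_lit 21) (.e (nat_lit 319505) (nat_lit 10) .nil)))) (.g (nat_lit 0) (.e (nat_lit 372847) (nat_lit 0) .nil) .nil))) 
(.lf (nat_lit 579352) (.g (nat_lit 862) (.e (nat_lit 336324) (nat_lit 18) (.e (nat_lit 204854) (nat_lit 26) (.e (nat_lit 336115) (nat_lit 9) .nil))) (.g (nat_lit 0) (.e (nat_lit 374441) (nat_lit 0) .nil) .nil))))) (.nd (nat_lit 8) (.nd (nat_lit 9) 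
(.lf (nat_lit 578712) (.g (nat_lit 3142) (.e (nat_lit 336231) (nat_lit 14) (.e (nat_lit 401444) (nat_lit 9) (.e (nat_lit 426163) (nat_lit 6) (.e (nat_lit 253991) (nat_lit 11) (.e (nat_lit 16442) (nat_lit 9) (.e (nat_lit 426499) (nat_lit 27) .nil)))))) (.g (nat_lit 1) (.e (nat_lit 372421) (nat_lit 0) .nil) .nil))) 
(.lf (nat_lit 579224) (.g (nat_lit 916) (.e (nat_lit 336323) (nat_lit 18) (.e (nat_lit 204854) (nat_lit 26) (.e (nat_lit 336284) (nat_lit 15) .nil))) (.g (nat_lit 0) (.e (nat_lit 374212) (nat_lit 0) .nil) .nil)))) (.nd (nat_lit 9) 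
(.lf (nat_lit 578968) (.g (nat_lit 1834) (.e (nat_lit 336306) (nat_lit 15) (.e (nat_lit 3238) (nat_lit 197) (.e (nat_lit 532529) (nat_lit 9) (.e (nat_lit 336316) (nat_lit 17) (.e (nat_lit 196622) (nat_lit 9) .nil))))) (.g (nat_lit 0) (.e (nat_lit 373328) (nat_lit 0) .nil) .nil))) 
(.lf (nat_lit 579480) (.g (nat_lit 1661) (.e (nat_lit 336326) (nat_lit 18) (.e (nat_lit 204829) (nat_lit 18) (.e (nat_lit 57848) (nat_lit 252) (.e (nat_lit 57407) (nat_lit 12) .nil)))) (.g (nat_lit 0) (.e (nat_lit 374682) (nat_lit 0) .nil) .nil)))))) (.nd (nat_lit 7) (.nd (nat_lit 8) (.nd (nat_lit 9) 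
(.lf (nat_lit 578648) (.g (nat_lit 3519) (.e (nat_lit 336228) (nat_lit 14) (.e (nat_lit 401459) (nat_lit 13) (.e (nat_lit 483411) (nat_lit 27) (.e (nat_lit 401437) (nat_lit 9) (.e (nat_lit 426482) (nat_lit 27) .nil))))) (.g (nat_lit 1) (.e (nat_lit 372101) (nat_lit 0) .nil) .nil))) 
(.lf (nat_lit 579160) (.g (nat_lit 2405) (.e (nat_lit 336321) (nat_lit 18) (.e (nat_lit 204838) (nat_lit 20) (.e (nat_lit 114698) (nat_lit 11) (.e (nat_lit 426139) (nat_lit 3) (.e (nat_lit 204859) (nat_lit 26) .nil))))) (.g (nat_lit 0) (.e (nat_lit 374083) (nat_lit 0) .nil) .nil)))) (.nd (nat_lit 9) 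
(.lf (nat_lit 578904) (.g (nat_lit 1916) (.e (nat_lit 336270) (nat_lit 15) (.e (nat_lit 3253) (nat_lit 197) (.e (nat_lit 532504) (nat_lit 1) (.e (nat_lit 57854) (nat_lit 252) (.e (nat_lit 57409) (nat_lit 12) .nil))))) (.g (nat_lit 0) (.e (nat_lit 373182) (nat_lit 0) .nil) .nil))) 
(.lf (nat_lit 579416) (.g (nat_lit 2358) (.e (nat_lit 336324) (nat_lit 18) (.e (nat_lit 204882) (nat_lit 32) (.e (nat_lit 385065) (nat_lit 26) (.e (nat_lit 532535) (nat_lit 9) (.e (nat_lit 343808) (nat_lit 18) .nil))))) (.g (nat_lit 0) (.e (nat_lit 374538) (nat_lit 0) .nil) .nil))))) (.nd (nat_lit 8) (.nd (nat_lit 9) 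
(.lf (nat_lit 578776) (.g (nat_lit 1524) (.e (nat_lit 336232) (nat_lit 14) (.e (nat_lit 401456) (nat_lit 13) (.e (nat_lit 483411) (nat_lit 27) (.e (nat_lit 401434) (nat_lit 9) .nil)))) (.g (nat_lit 0) (.e (nat_lit 372695) (nat_lit 0) .nil) .nil))) 
(.lf (nat_lit 579288) (.g (nat_lit 1056) (.e (nat_lit 336324) (nat_lit 18) (.e (nat_lit 204837) (nat_lit 20) (.e (nat_lit 114698) (nat_lit 11) (.e (nat_lit 426139) (nat_lit 3) .nil)))) (.g (nat_lit 0) (.e (nat_lit 374334) (nat_lit 0) .nil) .nil)))) (.nd (nat_lit 9) 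
(.lf (nat_lit 579032) (.g (nat_lit 4126) (.e (nat_lit 336295) (nat_lit 15) (.e (nat_lit 3305) (nat_lit 202) (.e (nat_lit 573492) (nat_lit 15) (.e (nat_lit 81956) (nat_lit 23) (.e (nat_lit 98389) (nat_lit 33) (.e (nat_lit 491546) (nat_lit 9) .nil)))))) (.g (nat_lit 1) (.e (nat_lit 373584) (nat_lit 0) .nil) .nil))) 
(.lf (nat_lit 579544) (.g (nat_lit 2544) (.e (nat_lit 336326) (nat_lit 18) (.e (nat_lit 204854) (nat_lit 26) (.e (nat_lit 336315) (nat_lit 17) (.e (nat_lit 196666) (nat_lit 13) (.e (nat_lit 65642) (nat_lit 15) .nil))))) (.g (nat_lit 0) (.e (nat_lit 374871) (nat_lit 0) .nil) .nil))))))) (.nd (nat_lit 6) (.nd (nat_lit 7) (.nd (nat_lit 8) (.nd (nat_lit 9) 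
(.lf (nat_lit 578616) (.g (nat_lit 820) (.e (nat_lit 336228) (nat_lit 14) (.e (nat_lit 401454) (nat_lit 12) (.e (nat_lit 475154) (nat_lit 20) .nil))) (.g (nat_lit 0) (.e (nat_lit 372055) (nat_lit 0) .nil) .nil))) 
(.lf (nat_lit 579128) (.g (nat_lit 2572) (.e (nat_lit 336316) (nat_lit 17) (.e (nat_lit 196666) (nat_lit 13) (.e (nat_lit 65617) (nat_lit 10) (.e (nat_lit 344096) (nat_lit 18) (.e (nat_lit 7697) (nat_lit 412) (.e (nat_lit 57364) (nat_lit 1) (.e (nat_lit 57854) (nat_lit 252) (.e (nat_lit 57409) (nat_lit 12) .nil)))))))) (.g (nat_lit 1) (.e (nat_lit 373805) (nat_lit 0) .nil) .nil)))) 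
(.nd (nat_lit 9) 
(.lf (nat_lit 578872) (.g (nat_lit 2628) (.e (nat_lit 336261) (nat_lit 15) (.e (nat_lit 3307) (nat_lit 202) (.e (nat_lit 573484) (nat_lit 13) (.e (nat_lit 65610) (nat_lit 10) (.e (nat_lit 344129) (nat_lit 26) .nil))))) (.g (nat_lit 0) (.e (nat_lit 373084) (nat_lit 0) .nil) .nil))) 
(.lf (nat_lit 579384) (.g (nat_lit 1780) (.e (nat_lit 336324) (nat_lit 18) (.e (nat_lit 204854) (nat_lit 26) (.e (nat_lit 336326) (nat_lit 18) (.e (nat_lit 204880) (nat_lit 32) (.e (nat_lit 385057) (nat_lit 22) .nil))))) (.g (nat_lit 0) (.e (nat_lit 374496) (nat_lit 0) .nil) .nil))))) (.nd (nat_lit 8) (.nd (nat_lit 9) 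
(.lf (nat_lit 578744) (.g (nat_lit 499) (.e (nat_lit 336231) (nat_lit 14) (.e (nat_lit 401448) (nat_lit 10) (.e (nat_lit 434288) (nat_lit 43) .nil))) (.g (nat_lit 0) (.e (nat_lit 372514) (nat_lit 0) .nil) .nil))) 
(.lf (nat_lit 579256) (.g (nat_lit 1569) (.e (nat_lit 336324) (nat_lit 18) (.e (nat_lit 204831) (nat_lit 18) (.e (nat_lit 57851) (nat_lit 252) (.e (nat_lit 57406) (nat_lit 12) (.e (nat_lit 336455) (nat_lit 34) (.e (nat_lit 483384) (nat_lit 23) .nil)))))) (.g (nat_lit 1) (.e (nat_lit 374269) (nat_lit 0) .nil) .nil)))) (.nd (nat_lit 9) 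
(.lf (nat_lit 579000) (.g (nat_lit 1614) (.e (nat_lit 336306) (nat_lit 15) (.e (nat_lit 3308) (nat_lit 202) (.e (nat_lit 573484) (nat_lit 13) (.e (nat_lit 65617) (nat_lit 10) .nil)))) (.g (nat_lit 0) (.e (nat_lit 373481) (nat_lit 0) .nil) .nil))) 
(.lf (nat_lit 579512) (.g (nat_lit 405) (.e (nat_lit 336326) (nat_lit 18) (.e (nat_lit 204852) (nat_lit 26) (.e (nat_lit 336316) (nat_lit 17) .nil))) (.g (nat_lit 0) (.e (nat_lit 374810) (nat_lit 0) .nil) .nil)))))) (.nd (nat_lit 7) (.nd (nat_lit 8) (.nd (nat_lit 9) 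
(.lf (nat_lit 578680) (.g (nat_lit 2181) (.e (nat_lit 336230) (nat_lit 14) (.e (nat_lit 401446) (nat_lit 10) (.e (nat_lit 434289) (nat_lit 43) (.e (nat_lit 696329) (nat_lit 5) (.e (nat_lit 3004) (nat_lit 186) (.e (nat_lit 442390) (nat_lit 11) .nil)))))) (.g (nat_lit 1) (.e (nat_lit 372281) (nat_lit 0) .nil) .nil))) 
(.lf (nat_lit 579192) (.g (nat_lit 1957) (.e (nat_lit 336322) (nat_lit 18) (.e (nat_lit 204880) (nat_lit 32) (.e (nat_lit 385068) (nat_lit 26) (.e (nat_lit 532530) (nat_lit 9) (.e (nat_lit 336324) (nat_lit 18) .nil))))) (.g (nat_lit 0) (.e (nat_lit 374171) (nat_lit 0) .nil) .nil)))) (.nd (nat_lit 9) 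
(.lf (nat_lit 578936) (.g (nat_lit 2233) (.e (nat_lit 336284) (nat_lit 15) (.e (nat_lit 3302) (nat_lit 202) (.e (nat_lit 573484) (nat_lit 13) (.e (nat_lit 65610) (nat_lit 10) (.e (nat_lit 344117) (nat_lit 21) .nil))))) (.g (nat_lit 0) (.e (nat_lit 373231) (nat_lit 0) .nil) .nil))) 
(.lf (nat_lit 579448) (.g (nat_lit 638) (.e (nat_lit 336325) (nat_lit 18) (.e (nat_lit 204837) (nat_lit 20) (.e (nat_lit 114697) (nat_lit 11) .nil))) (.g (nat_lit 0) (.e (nat_lit 374576) (nat_lit 0) .nil) .nil))))) (.nd (nat_lit 8) (.nd (nat_lit 9) 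
(.lf (nat_lit 578808) (.g (nat_lit 805) (.e (nat_lit 336235) (nat_lit 14) (.e (nat_lit 401456) (nat_lit 13) (.e (nat_lit 483380) (nat_lit 23) .nil))) (.g (nat_lit 0) (.e (nat_lit 372797) (nat_lit 0) .nil) .nil))) 
(.lf (nat_lit 579320) (.g (nat_lit 2784) (.e (nat_lit 336324) (nat_lit 18) (.e (nat_lit 204838) (nat_lit 20) (.e (nat_lit 114698) (nat_lit 11) (.e (nat_lit 426139) (nat_lit 3) (.e (nat_lit 204850) (nat_lit 26) .nil))))) (.g (nat_lit 0) (.e (nat_lit 374382) (nat_lit 0) .nil) .nil)))) (.nd (nat_lit 9) 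
(.lf (nat_lit 579064) (.g (nat_lit 2908) (.e (nat_lit 336300) (nat_lit 15) (.e (nat_lit 3632) (nat_lit 227) (.e (nat_lit 778323) (nat_lit 5) (.e (nat_lit 73782) (nat_lit 32) (.e (nat_lit 3089) (nat_lit 191) (.e (nat_lit 483391) (nat_lit 23) .nil)))))) (.g (nat_lit 1) (.e (nat_lit 373629) (nat_lit 0) .nil) .nil))) 
(.lf (nat_lit 579576) (.g (nat_lit 2410) (.e (nat_lit 336326) (nat_lit 18) (.e (nat_lit 204862) (nat_lit 27) (.e (nat_lit 344129) (nat_lit 26) (.e (nat_lit 557096) (nat_lit 13) (.e (nat_lit 172127) (nat_lit 15) .nil))))) (.g (nat_lit 0) (.e (nat_lit 374929) (nat_lit 0) .nil) .nil)))))))))) 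
(.nd (nat_lit 3) (.nd (nat_lit 4) (.nd (nat_lit 5) (.nd (nat_lit 6) (.nd (nat_lit 7) 
(.nd (nat_lit 8) (.nd (nat_lit 9) 
(.lf (nat_lit 578564) (.g (nat_lit 2913) (.e (nat_lit 336226) (nat_lit 14) (.e (nat_lit 401459) (nat_lit 13) (.e (nat_lit 483409) (nat_lit 27) (.e (nat_lit 401437) (nat_lit 9) (.e (nat_lit 426482) (nat_lit 27) .nil))))) (.g (nat_lit 1) (.e (nat_lit 371974) (nat_lit 0) .nil) .nil))) 
(.lf (nat_lit 579076) (.g (nat_lit 2872) (.e (nat_lit 336310) (nat_lit 16) (.e (nat_lit 164179) (nat_lit 154) (.e (nat_lit 57378) (nat_lit 3) (.e (nat_lit 98335) (nat_lit 18) (.e (nat_lit 164330) (nat_lit 230) .nil))))) (.g (nat_lit 0) (.e (nat_lit 373688) (nat_lit 0) .nil) .nil)))) (.nd (nat_lit 9) 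
(.lf (nat_lit 578820) (.g (nat_lit 3887) (.e (nat_lit 336235) (nat_lit 14) (.e (nat_lit 401459) (nat_lit 13) (.e (nat_lit 483354) (nat_lit 17) (.e (nat_lit 6680) (nat_lit 357) (.e (nat_lit 2856) (nat_lit 184) (.e (nat_lit 426530) (nat_lit 27) .nil)))))) (.g (nat_lit 1) (.e (nat_lit 372813) (nat_lit 0) .nil) .nil))) 
(.lf (nat_lit 579332) (.g (nat_lit 2183) (.e (nat_lit 336324) (nat_lit 18) (.e (nat_lit 204852) (nat_lit 26) (.e (nat_lit 336324) (nat_lit 18) (.e (nat_lit 204852) (nat_lit 26) (.e (nat_lit 336316) (nat_lit 17) (.e (nat_lit 196630) (nat_lit 9) (.e (nat_lit 1413) (nat_lit 108) .nil))))))) (.g (nat_lit 1) (.e (nat_lit 374398) (nat_lit 0) .nil) .nil))))) (.nd (nat_lit 8) (.nd (nat_lit 9) 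
(.lf (nat_lit 578692) (.g (nat_lit 2905) (.e (nat_lit 336230) (nat_lit 14) (.e (nat_lit 401448) (nat_lit 10) (.e (nat_lit 434289) (nat_lit 43) (.e (nat_lit 696330) (nat_lit 5) (.e (nat_lit 2988) (nat_lit 186) (.e (nat_lit 442390) (nat_lit 11) .nil)))))) (.g (nat_lit 1) (.e (nat_lit 372344) (nat_lit 0) .nil) .nil))) 
(.lf (nat_lit 579204) (.g (nat_lit 1779) (.e (nat_lit 336323) (nat_lit 18) (.e (nat_lit 204830) (nat_lit 18) (.e (nat_lit 57852) (nat_lit 252) (.e (nat_lit 57406) (nat_lit 12) .nil)))) (.g (nat_lit 0) (.e (nat_lit 374183) (nat_lit 0) .nil) .nil)))) (.nd (nat_lit 9) 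
(.lf (nat_lit 578948) (.g (nat_lit 1666) (.e (nat_lit 336282) (nat_lit 15) (.e (nat_lit 3632) (nat_lit 227) (.e (nat_lit 778323) (nat_lit 5) (.e (nat_lit 73782) (nat_lit 32) (.e (nat_lit 3088) (nat_lit 191) .nil))))) (.g (nat_lit 0) (.e (nat_lit 373264) (nat_lit 0) .nil) .nil))) 
(.lf (nat_lit 579460) (.g (nat_lit 1892) (.e (nat_lit 336325) (nat_lit 18) (.e (nat_lit 204838) (nat_lit 20) (.e (nat_lit 114698) (nat_lit 11) (.e (nat_lit 426133) (nat_lit 3) (.e (nat_lit 204861) (nat_lit 26) .nil))))) (.g (nat_lit 0) (.e (nat_lit 374620) (nat_lit 0) .nil) .nil)))))) (.nd (nat_lit 7) (.nd (nat_lit 8) (.nd (nat_lit 9) 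
(.lf (nat_lit 578628) (.g (nat_lit 2963) (.e (nat_lit 336228) (nat_lit 14) (.e (nat_lit 401457) (nat_lit 13) (.e (nat_lit 483410) (nat_lit 27) (.e (nat_lit 401437) (nat_lit 9) (.e (nat_lit 426509) (nat_lit 27) .nil))))) (.g (nat_lit 1) (.e (nat_lit 372075) (nat_lit 0) .nil) .nil))) 
(.lf (nat_lit 579140) (.g (nat_lit 446) (.e (nat_lit 336316) (nat_lit 17) (.e (nat_lit 196670) (nat_lit 14) (.e (nat_lit 73754) (nat_lit 8) .nil))) (.g (nat_lit 0) (.e (nat_lit 373919) (nat_lit 0) .nil) .nil)))) (.nd (nat_lit 9) 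
(.lf (nat_lit 578884) (.g (nat_lit 656) (.e (nat_lit 336263) (nat_lit 15) (.e (nat_lit 3253) (nat_lit 197) (.e (nat_lit 532503) (nat_lit 1) .nil))) (.g (nat_lit 0) (.e (nat_lit 373146) (nat_lit 0) .nil) .nil))) 
(.lf (nat_lit 579396) (.g (nat_lit 2299) (.e (nat_lit 336324) (nat_lit 18) (.e (nat_lit 204880) (nat_lit 32) (.e (nat_lit 385066) (nat_lit 26) (.e (nat_lit 532532) (nat_lit 9) (.e (nat_lit 336326) (nat_lit 18) (.e (nat_lit 204852) (nat_lit 26) .nil)))))) (.g (nat_lit 1) (.e (nat_lit 374512) (nat_lit 0) .nil) .nil))))) (.nd (nat_lit 8) (.nd (nat_lit 9) 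
(.lf (nat_lit 578756) (.g (nat_lit 3026) (.e (nat_lit 336231) (nat_lit 14) (.e (nat_lit 401458) (nat_lit 13) (.e (nat_lit 483410) (nat_lit 27) (.e (nat_lit 401444) (nat_lit 9) (.e (nat_lit 426503) (nat_lit 27) .nil))))) (.g (nat_lit 1) (.e (nat_lit 372589) (nat_lit 0) .nil) .nil))) 
(.lf (nat_lit 579268) (.g (nat_lit 2665) (.e (nat_lit 336324) (nat_lit 18) (.e (nat_lit 204831) (nat_lit 18) (.e (nat_lit 57854) (nat_lit 252) (.e (nat_lit 57406) (nat_lit 12) (.e (nat_lit 336452) (nat_lit 34) (.e (nat_lit 483382) (nat_lit 23) .nil)))))) (.g (nat_lit 1) (.e (nat_lit 374291) (nat_lit 0) .nil) .nil)))) (.nd (nat_lit 9) 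
(.lf (nat_lit 579012) (.g (nat_lit 1455) (.e (nat_lit 336291) (nat_lit 15) (.e (nat_lit 3305) (nat_lit 202) (.e (nat_lit 573484) (nat_lit 13) (.e (nat_lit 65617) (nat_lit 10) .nil)))) (.g (nat_lit 0) (.e (nat_lit 373534) (nat_lit 0) .nil) .nil))) 
(.lf (nat_lit 579524) (.g (nat_lit 2537) (.e (nat_lit 336326) (nat_lit 18) (.e (nat_lit 204852) (nat_lit 26) (.e (nat_lit 336326) (nat_lit 18) (.e (nat_lit 204854) (nat_lit 26) (.e (nat_lit 336302) (nat_lit 15) .nil))))) (.g (nat_lit 0) (.e (nat_lit 374831) (nat_lit 0) .nil) .nil))))))) (.nd (nat_lit 6) (.nd (nat_lit 7) (.nd (nat_lit 8) (.nd (nat_lit 9) 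
(.lf (nat_lit 578596) (.g (nat_lit 3422) (.e (nat_lit 336228) (nat_lit 14) (.e (nat_lit 401428) (nat_lit 3) (.e (nat_lit 204869) (nat_lit 29) (.e (nat_lit 360474) (nat_lit 8) (.e (nat_lit 557064) (nat_lit 9) .nil))))) (.g (nat_lit 0) (.e (nat_lit 372022) (nat_lit 0) .nil) .nil))) 
(.lf (nat_lit 579108) (.g (nat_lit 3248) (.e (nat_lit 336316) (nat_lit 17) (.e (nat_lit 196666) (nat_lit 13) (.e (nat_lit 65610) (nat_lit 10) (.e (nat_lit 344097) (nat_lit 18) (.e (nat_lit 7936) (nat_lit 412) (.e (nat_lit 57364) (nat_lit 1) (.e (nat_lit 57854) (nat_lit 252) (.e (nat_lit 57409) (nat_lit 12) .nil)))))))) (.g (nat_lit 1) (.e (nat_lit 373785) (nat_lit 0) .nil) .nil)))) 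
(.nd (nat_lit 9) 
(.lf (nat_lit 578852) (.g (nat_lit 3465) (.e (nat_lit 336240) (nat_lit 15) (.e (nat_lit 3309) (nat_lit 202) (.e (nat_lit 573484) (nat_lit 13) (.e (nat_lit 65610) (nat_lit 10) (.e (nat_lit 344129) (nat_lit 26) (.e (nat_lit 557086) (nat_lit 11) (.e (nat_lit 24627) (nat_lit 9) .nil))))))) (.g (nat_lit 1) (.e (nat_lit 372948) (nat_lit 0) .nil) .nil))) 
(.lf (nat_lit 579364) (.g (nat_lit 450) (.e (nat_lit 336324) (nat_lit 18) (.e (nat_lit 204854) (nat_lit 26) (.e (nat_lit 336322) (nat_lit 18) .nil))) (.g (nat_lit 0) (.e (nat_lit 374456) (nat_lit 0) .nil) .nil))))) (.nd (nat_lit 8) (.nd (nat_lit 9) 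
(.lf (nat_lit 578724) (.g (nat_lit 680) (.e (nat_lit 336231) (nat_lit 14) (.e (nat_lit 401446) (nat_lit 10) (.e (nat_lit 434287) (nat_lit 43) .nil))) (.g (nat_lit 0) (.e (nat_lit 372460) (nat_lit 0) .nil) .nil))) 
(.lf (nat_lit 579236) (.g (nat_lit 1465) (.e (nat_lit 336324) (nat_lit 18) (.e (nat_lit 204830) (nat_lit 18) (.e (nat_lit 57852) (nat_lit 252) (.e (nat_lit 57376) (nat_lit 3) .nil)))) (.g (nat_lit 0) (.e (nat_lit 374240) (nat_lit 0) .nil) .nil)))) (.nd (nat_lit 9) 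
(.lf (nat_lit 578980) (.g (nat_lit 797) (.e (nat_lit 336306) (nat_lit 15) (.e (nat_lit 3297) (nat_lit 202) (.e (nat_lit 573491) (nat_lit 15) (.e (nat_lit 81954) (nat_lit 23) .nil)))) (.g (nat_lit 0) (.e (nat_lit 373382) (nat_lit 0) .nil) .nil))) 
(.lf (nat_lit 579492) (.g (nat_lit 1368) (.e (nat_lit 336326) (nat_lit 18) (.e (nat_lit 204831) (nat_lit 18) (.e (nat_lit 57847) (nat_lit 252) (.e (nat_lit 57379) (nat_lit 3) (.e (nat_lit 98342) (nat_lit 20) .nil))))) (.g (nat_lit 0) (.e (nat_lit 374721) (nat_lit 0) .nil) .nil)))))) (.nd (nat_lit 7) (.nd (nat_lit 8) (.nd (nat_lit 9) 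
(.lf (nat_lit 578660) (.g (nat_lit 498) (.e (nat_lit 336229) (nat_lit 14) (.e (nat_lit 401458) (nat_lit 13) (.e (nat_lit 483371) (nat_lit 21) .nil))) (.g (nat_lit 0) (.e (nat_lit 372167) (nat_lit 0) .nil) .nil))) 
(.lf (nat_lit 579172) (.g (nat_lit 2031) (.e (nat_lit 336322) (nat_lit 18) (.e (nat_lit 204838) (nat_lit 20) (.e (nat_lit 114694) (nat_lit 11) (.e (nat_lit 426133) (nat_lit 3) (.e (nat_lit 204861) (nat_lit 26) .nil))))) (.g (nat_lit 0) (.e (nat_lit 374128) (nat_lit 0) .nil) .nil)))) (.nd (nat_lit 9) 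
(.lf (nat_lit 578916) (.g (nat_lit 1714) (.e (nat_lit 336275) (nat_lit 15) (.e (nat_lit 3253) (nat_lit 197) (.e (nat_lit 532503) (nat_lit 1) (.e (nat_lit 57847) (nat_lit 252) (.e (nat_lit 57407) (nat_lit 12) .nil))))) (.g (nat_lit 0) (.e (nat_lit 373200) (nat_lit 0) .nil) .nil))) 
(.lf (nat_lit 579428) (.g (nat_lit 1274) (.e (nat_lit 336324) (nat_lit 18) (.e (nat_lit 204882) (nat_lit 32) (.e (nat_lit 385066) (nat_lit 26) (.e (nat_lit 532533) (nat_lit 9) .nil)))) (.g (nat_lit 0) (.e (nat_lit 374550) (nat_lit 0) .nil) .nil))))) (.nd (nat_lit 8) (.nd (nat_lit 9) 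
(.lf (nat_lit 578788) (.g (nat_lit 1785) (.e (nat_lit 336235) (nat_lit 14) (.e (nat_lit 401425) (nat_lit 2) (.e (nat_lit 196681) (nat_lit 17) (.e (nat_lit 131123) (nat_lit 12) .nil)))) (.g (nat_lit 0) (.e (nat_lit 372751) (nat_lit 0) .nil) .nil))) 
(.lf (nat_lit 579300) (.g (nat_lit 830) (.e (nat_lit 336324) (nat_lit 18) (.e (nat_lit 204838) (nat_lit 20) (.e (nat_lit 114690) (nat_lit 0) .nil))) (.g (nat_lit 0) (.e (nat_lit 374346) (nat_lit 0) .nil) .nil)))) (.nd (nat_lit 9) 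
(.lf (nat_lit 579044) (.g (nat_lit 2174) (.e (nat_lit 336294) (nat_lit 15) (.e (nat_lit 3253) (nat_lit 197) (.e (nat_lit 532501) (nat_lit 1) (.e (nat_lit 57851) (nat_lit 252) (.e (nat_lit 57406) (nat_lit 12) .nil))))) (.g (nat_lit 0) (.e (nat_lit 373600) (nat_lit 0) .nil) .nil))) 
(.lf (nat_lit 579556) (.g (nat_lit 2608) (.e (nat_lit 336326) (nat_lit 18) (.e (nat_lit 204854) (nat_lit 26) (.e (nat_lit 336326) (nat_lit 18) (.e (nat_lit 204854) (nat_lit 26) (.e (nat_lit 336257) (nat_lit 15) .nil))))) (.g (nat_lit 0) (.e (nat_lit 374891) (nat_lit 0) .nil) .nil)))))))) (.nd (nat_lit 5) (.nd (nat_lit 6) (.nd (nat_lit 7) (.nd (nat_lit 8) (.nd (nat_lit 9) 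
(.lf (nat_lit 578580) (.g (nat_lit 2364) (.e (nat_lit 336228) (nat_lit 14) (.e (nat_lit 401425) (nat_lit 2) (.e (nat_lit 196666) (nat_lit 13) (.e (nat_lit 65610) (nat_lit 10) (.e (nat_lit 344126) (nat_lit 25) .nil))))) (.g (nat_lit 0) (.e (nat_lit 372002) (nat_lit 0) .nil) .nil))) 
(.lf (nat_lit 579092) (.g (nat_lit 2345) (.e (nat_lit 336310) (nat_lit 16) (.e (nat_lit 164183) (nat_lit 154) (.e (nat_lit 57378) (nat_lit 3) (.e (nat_lit 98335) (nat_lit 18) (.e (nat_lit 164327) (nat_lit 230) .nil))))) (.g (nat_lit 0) (.e (nat_lit 373705) (nat_lit 0) .nil) .nil)))) (.nd (nat_lit 9) 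
(.lf (nat_lit 578836) (.g (nat_lit 1318) (.e (nat_lit 343808) (nat_lit 14) (.e (nat_lit 401458) (nat_lit 13) (.e (nat_lit 483350) (nat_lit 17) (.e (nat_lit 6097) (nat_lit 332) .nil)))) (.g (nat_lit 0) (.e (nat_lit 372843) (nat_lit 0) .nil) .nil))) 
(.lf (nat_lit 579348) (.g (nat_lit 3115) (.e (nat_lit 336324) (nat_lit 18) (.e (nat_lit 204852) (nat_lit 26) (.e (nat_lit 336326) (nat_lit 18) (.e (nat_lit 204882) (nat_lit 32) (.e (nat_lit 385068) (nat_lit 26) (.e (nat_lit 532534) (nat_lit 9) .nil)))))) (.g (nat_lit 1) (.e (nat_lit 374435) (nat_lit 0) .nil) .nil))))) (.nd (nat_lit 8) (.nd (nat_lit 9) 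
(.lf (nat_lit 578708) (.g (nat_lit 2170) (.e (nat_lit 336231) (nat_lit 14) (.e (nat_lit 401432) (nat_lit 7) (.e (nat_lit 409649) (nat_lit 18) (.e (nat_lit 303140) (nat_lit 10) (.e (nat_lit 434275) (nat_lit 39) .nil))))) (.g (nat_lit 0) (.e (nat_lit 372402) (nat_lit 0) .nil) .nil))) 
(.lf (nat_lit 579220) (.g (nat_lit 3022) (.e (nat_lit 336323) (nat_lit 18) (.e (nat_lit 204838) (nat_lit 20) (.e (nat_lit 114698) (nat_lit 11) (.e (nat_lit 426139) (nat_lit 3) (.e (nat_lit 204859) (nat_lit 26) (.e (nat_lit 336118) (nat_lit 9) .nil)))))) (.g (nat_lit 1) (.e (nat_lit 374200) (nat_lit 0) .nil) .nil)))) (.nd (nat_lit 9) 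
(.lf (nat_lit 578964) (.g (nat_lit 2781) (.e (nat_lit 336306) (nat_lit 15) (.e (nat_lit 3238) (nat_lit 197) (.e (nat_lit 532504) (nat_lit 1) (.e (nat_lit 57851) (nat_lit 252) (.e (nat_lit 57406) (nat_lit 12) .nil))))) (.g (nat_lit 0) (.e (nat_lit 373324) (nat_lit 0) .nil) .nil))) 
(.lf (nat_lit 579476) (.g (nat_lit 3645) (.e (nat_lit 336325) (nat_lit 18) (.e (nat_lit 204880) (nat_lit 32) (.e (nat_lit 385066) (nat_lit 26) (.e (nat_lit 532534) (nat_lit 9) (.e (nat_lit 336324) (nat_lit 18) (.e (nat_lit 204854) (nat_lit 26) .nil)))))) (.g (nat_lit 1) (.e (nat_lit 374661) (nat_lit 0) .nil) .nil)))))) (.nd (nat_lit 7) (.nd (nat_lit 8) (.nd (nat_lit 9) 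
(.lf (nat_lit 578644) (.g (nat_lit 2040) (.e (nat_lit 336228) (nat_lit 14) (.e (nat_lit 401458) (nat_lit 13) (.e (nat_lit 483410) (nat_lit 27) (.e (nat_lit 401437) (nat_lit 9) (.e (nat_lit 426509) (nat_lit 27) .nil))))) (.g (nat_lit 1) (.e (nat_lit 372095) (nat_lit 0) .nil) .nil))) 
(.lf (nat_lit 579156) (.g (nat_lit 2205) (.e (nat_lit 336321) (nat_lit 18) (.e (nat_lit 204837) (nat_lit 20) (.e (nat_lit 114698) (nat_lit 11) (.e (nat_lit 426139) (nat_lit 3) (.e (nat_lit 204859) (nat_lit 26) .nil))))) (.g (nat_lit 0) (.e (nat_lit 374077) (nat_lit 0) .nil) .nil)))) (.nd (nat_lit 9) 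
(.lf (nat_lit 578900) (.g (nat_lit 654) (.e (nat_lit 336270) (nat_lit 15) (.e (nat_lit 3253) (nat_lit 197) (.e (nat_lit 532501) (nat_lit 1) .nil))) (.g (nat_lit 0) (.e (nat_lit 373178) (nat_lit 0) .nil) .nil))) 
(.lf (nat_lit 579412) (.g (nat_lit 319) (.e (nat_lit 336324) (nat_lit 18) (.e (nat_lit 204882) (nat_lit 32) (.e (nat_lit 385065) (nat_lit 26) .nil))) (.g (nat_lit 0) (.e (nat_lit 374532) (nat_lit 0) .nil) .nil))))) (.nd (nat_lit 8) (.nd (nat_lit 9) 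
(.lf (nat_lit 578772) (.g (nat_lit 2598) (.e (nat_lit 336232) (nat_lit 14) (.e (nat_lit 401448) (nat_lit 10) (.e (nat_lit 434287) (nat_lit 43) (.e (nat_lit 696327) (nat_lit 5) (.e (nat_lit 3004) (nat_lit 186) (.e (nat_lit 442390) (nat_lit 11) .nil)))))) (.g (nat_lit 1) (.e (nat_lit 372673) (nat_lit 0) .nil) .nil))) 
(.lf (nat_lit 579284) (.g (nat_lit 2621) (.e (nat_lit 336324) (nat_lit 18) (.e (nat_lit 204837) (nat_lit 20) (.e (nat_lit 114698) (nat_lit 11) (.e (nat_lit 426123) (nat_lit 2) (.e (nat_lit 196680) (nat_lit 17) .nil))))) (.g (nat_lit 0) (.e (nat_lit 374325) (nat_lit 0) .nil) .nil)))) (.nd (nat_lit 9) 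
(.lf (nat_lit 579028) (.g (nat_lit 4151) (.e (nat_lit 336295) (nat_lit 15) (.e (nat_lit 3305) (nat_lit 202) (.e (nat_lit 573484) (nat_lit 13) (.e (nat_lit 65610) (nat_lit 10) (.e (nat_lit 344129) (nat_lit 26) (.e (nat_lit 557087) (nat_lit 11) (.e (nat_lit 24634) (nat_lit 9) .nil))))))) (.g (nat_lit 1) (.e (nat_lit 373563) (nat_lit 0) .nil) .nil))) 
(.lf (nat_lit 579540) (.g (nat_lit 2440) (.e (nat_lit 336326) (nat_lit 18) (.e (nat_lit 204854) (nat_lit 26) (.e (nat_lit 336306) (nat_lit 15) (.e (nat_lit 3238) (nat_lit 197) (.e (nat_lit 532563) (nat_lit 15) (.e (nat_lit 385066) (nat_lit 26) (.e (nat_lit 532532) (nat_lit 9) .nil))))))) (.g (nat_lit 1) (.e (nat_lit 374866) (nat_lit 0) .nil) .nil))))))) 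
(.nd (nat_lit 6) (.nd (nat_lit 7) (.nd (nat_lit 8) (.nd (nat_lit 9) 
(.lf (nat_lit 578612) (.g (nat_lit 1850) (.e (nat_lit 336228) (nat_lit 14) (.e (nat_lit 401438) (nat_lit 9) (.e (nat_lit 426530) (nat_lit 27) (.e (nat_lit 335872) (nat_lit 0) (.e (nat_lit 6719) (nat_lit 361) (.e (nat_lit 179968) (nat_lit 27) .nil)))))) (.g (nat_lit 1) (.e (nat_lit 372042) (nat_lit 0) .nil) .nil))) 
(.lf (nat_lit 579124) (.g (nat_lit 2011) (.e (nat_lit 336316) (nat_lit 17) (.e (nat_lit 196666) (nat_lit 13) (.e (nat_lit 65617) (nat_lit 10) (.e (nat_lit 344096) (nat_lit 18) (.e (nat_lit 7695) (nat_lit 412) .nil))))) (.g (nat_lit 0) (.e (nat_lit 373801) (nat_lit 0) .nil) .nil)))) (.nd (nat_lit 9) 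
(.lf (nat_lit 578868) (.g (nat_lit 2614) (.e (nat_lit 336258) (nat_lit 15) (.e (nat_lit 3637) (nat_lit 227) (.e (nat_lit 778324) (nat_lit 5) (.e (nat_lit 73781) (nat_lit 32) (.e (nat_lit 3090) (nat_lit 191) (.e (nat_lit 483380) (nat_lit 23) .nil)))))) (.g (nat_lit 1) (.e (nat_lit 373074) (nat_lit 0) .nil) .nil))) 
(.lf (nat_lit 579380) (.g (nat_lit 2925) (.e (nat_lit 336324) (nat_lit 18) (.e (nat_lit 204854) (nat_lit 26) (.e (nat_lit 336326) (nat_lit 18) (.e (nat_lit 204854) (nat_lit 26) (.e (nat_lit 336316) (nat_lit 17) (.e (nat_lit 196630) (nat_lit 9) (.e (nat_lit 1413) (nat_lit 108) .nil))))))) (.g (nat_lit 1) (.e (nat_lit 374489) (nat_lit 0) .nil) .nil))))) (.nd (nat_lit 8) (.nd (nat_lit 9) 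
(.lf (nat_lit 578740) (.g (nat_lit 2636) (.e (nat_lit 336231) (nat_lit 14) (.e (nat_lit 401448) (nat_lit 10) (.e (nat_lit 434286) (nat_lit 42) (.e (nat_lit 688138) (nat_lit 5) (.e (nat_lit 2887) (nat_lit 184) (.e (nat_lit 426208) (nat_lit 9) (.e (nat_lit 426528) (nat_lit 27) .nil))))))) (.g (nat_lit 1) (.e (nat_lit 372509) (nat_lit 0) .nil) .nil))) 
(.lf (nat_lit 579252) (.g (nat_lit 2467) (.e (nat_lit 336324) (nat_lit 18) (.e (nat_lit 204831) (nat_lit 18) (.e (nat_lit 57849) (nat_lit 252) (.e (nat_lit 57407) (nat_lit 12) (.e (nat_lit 336452) (nat_lit 34) (.e (nat_lit 483382) (nat_lit 23) .nil)))))) (.g (nat_lit 1) (.e (nat_lit 374265) (nat_lit 0) .nil) .nil)))) (.nd (nat_lit 9) 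
(.lf (nat_lit 578996) (.g (nat_lit 2141) (.e (nat_lit 336306) (nat_lit 15) (.e (nat_lit 3307) (nat_lit 202) (.e (nat_lit 573491) (nat_lit 15) (.e (nat_lit 81954) (nat_lit 23) .nil)))) (.g (nat_lit 0) (.e (nat_lit 373463) (nat_lit 0) .nil) .nil))) 
(.lf (nat_lit 579508) (.g (nat_lit 2678) (.e (nat_lit 336326) (nat_lit 18) (.e (nat_lit 204838) (nat_lit 20) (.e (nat_lit 114697) (nat_lit 11) (.e (nat_lit 426133) (nat_lit 3) (.e (nat_lit 204861) (nat_lit 26) (.e (nat_lit 336075) (nat_lit 9) .nil)))))) (.g (nat_lit 1) (.e (nat_lit 374794) (nat_lit 0) .nil) .nil)))))) (.nd (nat_lit 7) (.nd (nat_lit 8) (.nd (nat_lit 9) 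
(.lf (nat_lit 578676) (.g (nat_lit 2180) (.e (nat_lit 336230) (nat_lit 14) (.e (nat_lit 401446) (nat_lit 10) (.e (nat_lit 434289) (nat_lit 43) (.e (nat_lit 696327) (nat_lit 5) (.e (nat_lit 2988) (nat_lit 186) (.e (nat_lit 442390) (nat_lit 11) .nil)))))) (.g (nat_lit 1) (.e (nat_lit 372277) (nat_lit 0) .nil) .nil))) 
(.lf (nat_lit 579188) (.g (nat_lit 2930) (.e (nat_lit 336322) (nat_lit 18) (.e (nat_lit 204880) (nat_lit 32) (.e (nat_lit 385066) (nat_lit 26) (.e (nat_lit 532530) (nat_lit 9) (.e (nat_lit 336326) (nat_lit 18) (.e (nat_lit 204851) (nat_lit 26) .nil)))))) (.g (nat_lit 1) (.e (nat_lit 374167) (nat_lit 0) .nil) .nil)))) (.nd (nat_lit 9) 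
(.lf (nat_lit 578932) (.g (nat_lit 1741) (.e (nat_lit 336277) (nat_lit 15) (.e (nat_lit 3632) (nat_lit 227) (.e (nat_lit 778323) (nat_lit 5) (.e (nat_lit 73782) (nat_lit 32) (.e (nat_lit 3088) (nat_lit 191) .nil))))) (.g (nat_lit 0) (.e (nat_lit 373224) (nat_lit 0) .nil) .nil))) 
(.lf (nat_lit 579444) (.g (nat_lit 2657) (.e (nat_lit 336324) (nat_lit 18) (.e (nat_lit 204882) (nat_lit 32) (.e (nat_lit 385068) (nat_lit 26) (.e (nat_lit 532534) (nat_lit 9) (.e (nat_lit 336325) (nat_lit 18) (.e (nat_lit 204852) (nat_lit 26) .nil)))))) (.g (nat_lit 1) (.e (nat_lit 374569) (nat_lit 0) .nil) .nil))))) (.nd (nat_lit 8) (.nd (nat_lit 9) 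
(.lf (nat_lit 578804) (.g (nat_lit 1205) (.e (nat_lit 336235) (nat_lit 14) (.e (nat_lit 401438) (nat_lit 9) (.e (nat_lit 426540) (nat_lit 29) (.e (nat_lit 352265) (nat_lit 0) .nil)))) (.g (nat_lit 0) (.e (nat_lit 372778) (nat_lit 0) .nil) .nil))) 
(.lf (nat_lit 579316) (.g (nat_lit 2637) (.e (nat_lit 336324) (nat_lit 18) (.e (nat_lit 204838) (nat_lit 20) (.e (nat_lit 114698) (nat_lit 11) (.e (nat_lit 426133) (nat_lit 3) (.e (nat_lit 204861) (nat_lit 26) (.e (nat_lit 336074) (nat_lit 9) .nil)))))) (.g (nat_lit 1) (.e (nat_lit 374375) (nat_lit 0) .nil) .nil)))) (.nd (nat_lit 9) 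
(.lf (nat_lit 579060) (.g (nat_lit 574) (.e (nat_lit 336300) (nat_lit 15) (.e (nat_lit 3631) (nat_lit 227) (.e (nat_lit 778318) (nat_lit 3) .nil))) (.g (nat_lit 0) (.e (nat_lit 373625) (nat_lit 0) .nil) .nil))) 
(.lf (nat_lit 579572) (.g (nat_lit 1113) (.e (nat_lit 336326) (nat_lit 18) (.e (nat_lit 204854) (nat_lit 26) (.e (nat_lit 336326) (nat_lit 18) (.e (nat_lit 204881) (nat_lit 32) .nil)))) (.g (nat_lit 0) (.e (nat_lit 374911) (nat_lit 0) .nil) .nil))))))))) (.nd (nat_lit 4) (.nd (nat_lit 5) (.nd (nat_lit 6) (.nd (nat_lit 7) (.nd (nat_lit 8) (.nd (nat_lit 9) 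
(.lf (nat_lit 578572) (.g (nat_lit 3162) (.e (nat_lit 336227) (nat_lit 14) (.e (nat_lit 401458) (nat_lit 13) (.e (nat_lit 483372) (nat_lit 21) (.e (nat_lit 319538) (nat_lit 19) (.e (nat_lit 311353) (nat_lit 27) .nil))))) (.g (nat_lit 1) (.e (nat_lit 371993) (nat_lit 0) .nil) .nil))) 
(.lf (nat_lit 579084) (.g (nat_lit 2802) (.e (nat_lit 336310) (nat_lit 16) (.e (nat_lit 164182) (nat_lit 154) (.e (nat_lit 57379) (nat_lit 3) (.e (nat_lit 98334) (nat_lit 18) (.e (nat_lit 164305) (nat_lit 226) .nil))))) (.g (nat_lit 0) (.e (nat_lit 373697) (nat_lit 0) .nil) .nil)))) (.nd (nat_lit 9) 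
(.lf (nat_lit 578828) (.g (nat_lit 3700) (.e (nat_lit 336235) (nat_lit 14) (.e (nat_lit 401459) (nat_lit 13) (.e (nat_lit 483411) (nat_lit 27) (.e (nat_lit 401437) (nat_lit 9) (.e (nat_lit 426530) (nat_lit 27) .nil))))) (.g (nat_lit 1) (.e (nat_lit 372821) (nat_lit 0) .nil) .nil))) 
(.lf (nat_lit 579340) (.g (nat_lit 2985) (.e (nat_lit 336324) (nat_lit 18) (.e (nat_lit 204852) (nat_lit 26) (.e (nat_lit 336324) (nat_lit 18) (.e (nat_lit 204854) (nat_lit 26) (.e (nat_lit 336324) (nat_lit 18) (.e (nat_lit 204853) (nat_lit 26) .nil)))))) (.g (nat_lit 1) (.e (nat_lit 374409) (nat_lit 0) .nil) .nil))))) (.nd (nat_lit 8) (.nd (nat_lit 9) 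
(.lf (nat_lit 578700) (.g (nat_lit 800) (.e (nat_lit 336230) (nat_lit 14) (.e (nat_lit 401458) (nat_lit 13) (.e (nat_lit 483355) (nat_lit 17) (.e (nat_lit 7936) (nat_lit 361) .nil)))) (.g (nat_lit 0) (.e (nat_lit 372379) (nat_lit 0) .nil) .nil))) 
(.lf (nat_lit 579212) (.g (nat_lit 2222) (.e (nat_lit 336323) (nat_lit 18) (.e (nat_lit 204831) (nat_lit 18) (.e (nat_lit 57852) (nat_lit 252) (.e (nat_lit 57406) (nat_lit 12) (.e (nat_lit 336367) (nat_lit 27) .nil))))) (.g (nat_lit 0) (.e (nat_lit 374191) (nat_lit 0) .nil) .nil)))) (.nd (nat_lit 9) 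
(.lf (nat_lit 578956) (.g (nat_lit 3187) (.e (nat_lit 336306) (nat_lit 15) (.e (nat_lit 3238) (nat_lit 197) (.e (nat_lit 532500) (nat_lit 1) (.e (nat_lit 57851) (nat_lit 252) (.e (nat_lit 57408) (nat_lit 12) (.e (nat_lit 336454) (nat_lit 34) (.e (nat_lit 483384) (nat_lit 23) .nil))))))) (.g (nat_lit 1) (.e (nat_lit 373316) (nat_lit 0) .nil) .nil))) 
(.lf (nat_lit 579468) (.g (nat_lit 314) (.e (nat_lit 336325) (nat_lit 18) (.e (nat_lit 204852) (nat_lit 26) (.e (nat_lit 336326) (nat_lit 18) .nil))) (.g (nat_lit 0) (.e (nat_lit 374638) (nat_lit 0) .nil) .nil)))))) (.nd (nat_lit 7) (.nd (nat_lit 8) (.nd (nat_lit 9) 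
(.lf (nat_lit 578636) (.g (nat_lit 1484) (.e (nat_lit 336228) (nat_lit 14) (.e (nat_lit 401458) (nat_lit 13) (.e (nat_lit 483372) (nat_lit 21) (.e (nat_lit 319511) (nat_lit 10) .nil)))) (.g (nat_lit 0) (.e (nat_lit 372086) (nat_lit 0) .nil) .nil))) 
(.lf (nat_lit 579148) (.g (nat_lit 1215) (.e (nat_lit 336319) (nat_lit 17) (.e (nat_lit 196698) (nat_lit 19) (.e (nat_lit 57810) (nat_lit 246) (.e (nat_lit 57883) (nat_lit 270) (.e (nat_lit 496) (nat_lit 39) (.e (nat_lit 483391) (nat_lit 23) .nil)))))) (.g (nat_lit 1) (.e (nat_lit 374040) (nat_lit 0) .nil) .nil)))) (.nd (nat_lit 9) 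
(.lf (nat_lit 578892) (.g (nat_lit 1692) (.e (nat_lit 336267) (nat_lit 15) (.e (nat_lit 3253) (nat_lit 197) (.e (nat_lit 532501) (nat_lit 1) (.e (nat_lit 57854) (nat_lit 252) (.e (nat_lit 57406) (nat_lit 12) .nil))))) (.g (nat_lit 0) (.e (nat_lit 373158) (nat_lit 0) .nil) .nil))) 
(.lf (nat_lit 579404) (.g (nat_lit 3262) (.e (nat_lit 336324) (nat_lit 18) (.e (nat_lit 204880) (nat_lit 32) (.e (nat_lit 385068) (nat_lit 26) (.e (nat_lit 532530) (nat_lit 9) (.e (nat_lit 336326) (nat_lit 18) (.e (nat_lit 204851) (nat_lit 26) .nil)))))) (.g (nat_lit 1) (.e (nat_lit 374520) (nat_lit 0) .nil) .nil))))) (.nd (nat_lit 8) (.nd (nat_lit 9) 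
(.lf (nat_lit 578764) (.g (nat_lit 1717) (.e (nat_lit 336232) (nat_lit 14) (.e (nat_lit 401444) (nat_lit 9) (.e (nat_lit 426163) (nat_lit 6) (.e (nat_lit 253992) (nat_lit 11) (.e (nat_lit 16433) (nat_lit 9) .nil))))) (.g (nat_lit 0) (.e (nat_lit 372617) (nat_lit 0) .nil) .nil))) 
(.lf (nat_lit 579276) (.g (nat_lit 2647) (.e (nat_lit 336324) (nat_lit 18) (.e (nat_lit 204837) (nat_lit 20) (.e (nat_lit 114697) (nat_lit 11) (.e (nat_lit 426114) (nat_lit 2) (.e (nat_lit 196681) (nat_lit 17) (.e (nat_lit 131105) (nat_lit 9) .nil)))))) (.g (nat_lit 1) (.e (nat_lit 374304) (nat_lit 0) .nil) .nil)))) (.nd (nat_lit 9) 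
(.lf (nat_lit 579020) (.g (nat_lit 1931) (.e (nat_lit 336292) (nat_lit 15) (.e (nat_lit 3253) (nat_lit 197) (.e (nat_lit 532503) (nat_lit 1) (.e (nat_lit 57848) (nat_lit 252) (.e (nat_lit 57407) (nat_lit 12) .nil))))) (.g (nat_lit 0) (.e (nat_lit 373545) (nat_lit 0) .nil) .nil))) 
(.lf (nat_lit 579532) (.g (nat_lit 1020) (.e (nat_lit 336326) (nat_lit 18) (.e (nat_lit 204854) (nat_lit 26) (.e (nat_lit 336240) (nat_lit 15) .nil))) (.g (nat_lit 0) (.e (nat_lit 374852) (nat_lit 0) .nil) .nil))))))) (.nd (nat_lit 6) (.nd (nat_lit 7) (.nd (nat_lit 8) (.nd (nat_lit 9) 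
(.lf (nat_lit 578604) (.g (nat_lit 1572) (.e (nat_lit 336228) (nat_lit 14) (.e (nat_lit 401437) (nat_lit 9) (.e (nat_lit 426533) (nat_lit 28) (.e (nat_lit 344066) (nat_lit 0) (.e (nat_lit 2939) (nat_lit 184) (.e (nat_lit 426508) (nat_lit 27) .nil)))))) (.g (nat_lit 1) (.e (nat_lit 372030) (nat_lit 0) .nil) .nil))) 
(.lf (nat_lit 579116) (.g (nat_lit 2674) (.e (nat_lit 336316) (nat_lit 17) (.e (nat_lit 196666) (nat_lit 13) (.e (nat_lit 65617) (nat_lit 10) (.e (nat_lit 344091) (nat_lit 18) (.e (nat_lit 7695) (nat_lit 412) (.e (nat_lit 57366) (nat_lit 1) (.e (nat_lit 57847) (nat_lit 252) (.e (nat_lit 57411) (nat_lit 12) .nil)))))))) (.g (nat_lit 1) (.e (nat_lit 373793) (nat_lit 0) .nil) .nil)))) 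
(.nd (nat_lit 9) 
(.lf (nat_lit 578860) (.g (nat_lit 5097) (.e (nat_lit 336240) (nat_lit 15) (.e (nat_lit 3309) (nat_lit 202) (.e (nat_lit 573492) (nat_lit 15) (.e (nat_lit 81956) (nat_lit 23) (.e (nat_lit 98389) (nat_lit 33) (.e (nat_lit 491546) (nat_lit 9) .nil)))))) (.g (nat_lit 1) (.e (nat_lit 372975) (nat_lit 0) .nil) .nil))) 
(.lf (nat_lit 579372) (.g (nat_lit 3661) (.e (nat_lit 336324) (nat_lit 18) (.e (nat_lit 204854) (nat_lit 26) (.e (nat_lit 336324) (nat_lit 18) (.e (nat_lit 204854) (nat_lit 26) (.e (nat_lit 336306) (nat_lit 15) (.e (nat_lit 3238) (nat_lit 197) (.e (nat_lit 532531) (nat_lit 9) .nil))))))) (.g (nat_lit 1) (.e (nat_lit 374465) (nat_lit 0) .nil) .nil))))) (.nd (nat_lit 8) (.nd (nat_lit 9) 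
(.lf (nat_lit 578732) (.g (nat_lit 2536) (.e (nat_lit 336231) (nat_lit 14) (.e (nat_lit 401448) (nat_lit 10) (.e (nat_lit 434203) (nat_lit 18) (.e (nat_lit 6420) (nat_lit 341) (.e (nat_lit 163843) (nat_lit 0) (.e (nat_lit 7936) (nat_lit 392) (.e (nat_lit 172150) (nat_lit 27) .nil))))))) (.g (nat_lit 1) (.e (nat_lit 372479) (nat_lit 0) .nil) .nil))) 
(.lf (nat_lit 579244) (.g (nat_lit 1666) (.e (nat_lit 336324) (nat_lit 18) (.e (nat_lit 204831) (nat_lit 18) (.e (nat_lit 57846) (nat_lit 252) (.e (nat_lit 57440) (nat_lit 18) (.e (nat_lit 392960) (nat_lit 10) .nil))))) (.g (nat_lit 0) (.e (nat_lit 374255) (nat_lit 0) .nil) .nil)))) (.nd (nat_lit 9) 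
(.lf (nat_lit 578988) (.g (nat_lit 725) (.e (nat_lit 336306) (nat_lit 15) (.e (nat_lit 3307) (nat_lit 202) (.e (nat_lit 573484) (nat_lit 13) .nil))) (.g (nat_lit 0) (.e (nat_lit 373434) (nat_lit 0) .nil) .nil))) 
(.lf (nat_lit 579500) (.g (nat_lit 2250) (.e (nat_lit 336326) (nat_lit 18) (.e (nat_lit 204835) (nat_lit 19) (.e (nat_lit 106534) (nat_lit 11) (.e (nat_lit 16415) (nat_lit 3) (.e (nat_lit 204861) (nat_lit 26) (.e (nat_lit 336075) (nat_lit 9) .nil)))))) (.g (nat_lit 1) (.e (nat_lit 374773) (nat_lit 0) .nil) .nil)))))) (.nd (nat_lit 7) (.nd (nat_lit 8) (.nd (nat_lit 9) 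
(.lf (nat_lit 578668) (.g (nat_lit 2741) (.e (nat_lit 336229) (nat_lit 14) (.e (nat_lit 401459) (nat_lit 13) (.e (nat_lit 483354) (nat_lit 17) (.e (nat_lit 6674) (nat_lit 357) (.e (nat_lit 2936) (nat_lit 184) (.e (nat_lit 426503) (nat_lit 27) .nil)))))) (.g (nat_lit 1) (.e (nat_lit 372190) (nat_lit 0) .nil) .nil))) 
(.lf (nat_lit 579180) (.g (nat_lit 1736) (.e (nat_lit 336322) (nat_lit 18) (.e (nat_lit 204852) (nat_lit 26) (.e (nat_lit 336326) (nat_lit 18) (.e (nat_lit 204880) (nat_lit 32) (.e (nat_lit 385066) (nat_lit 26) .nil))))) (.g (nat_lit 0) (.e (nat_lit 374152) (nat_lit 0) .nil) .nil)))) (.nd (nat_lit 9) 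
(.lf (nat_lit 578924) (.g (nat_lit 1926) (.e (nat_lit 336276) (nat_lit 15) (.e (nat_lit 3253) (nat_lit 197) (.e (nat_lit 532503) (nat_lit 1) (.e (nat_lit 57848) (nat_lit 252) (.e (nat_lit 57407) (nat_lit 12) .nil))))) (.g (nat_lit 0) (.e (nat_lit 373208) (nat_lit 0) .nil) .nil))) 
(.lf (nat_lit 579436) (.g (nat_lit 1753) (.e (nat_lit 336324) (nat_lit 18) (.e (nat_lit 204882) (nat_lit 32) (.e (nat_lit 385068) (nat_lit 26) (.e (nat_lit 532528) (nat_lit 9) .nil)))) (.g (nat_lit 0) (.e (nat_lit 374561) (nat_lit 0) .nil) .nil))))) (.nd (nat_lit 8) (.nd (nat_lit 9) 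
(.lf (nat_lit 578796) (.g (nat_lit 763) (.e (nat_lit 336235) (nat_lit 14) (.e (nat_lit 401437) (nat_lit 9) (.e (nat_lit 426537) (nat_lit 28) .nil))) (.g (nat_lit 0) (.e (nat_lit 372764) (nat_lit 0) .nil) .nil))) 
(.lf (nat_lit 579308) (.g (nat_lit 376) (.e (nat_lit 336324) (nat_lit 18) (.e (nat_lit 204838) (nat_lit 20) (.e (nat_lit 114697) (nat_lit 11) .nil))) (.g (nat_lit 0) (.e (nat_lit 374356) (nat_lit 0) .nil) .nil)))) (.nd (nat_lit 9) 
(.lf (nat_lit 579052) (.g (nat_lit 1694) (.e (nat_lit 336300) (nat_lit 15) (.e (nat_lit 3253) (nat_lit 197) (.e (nat_lit 532501) (nat_lit 1) (.e (nat_lit 57854) (nat_lit 252) (.e (nat_lit 57409) (nat_lit 12) .nil))))) (.g (nat_lit 0) (.e (nat_lit 373611) (nat_lit 0) .nil) .nil))) 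
(.lf (nat_lit 579564) (.g (nat_lit 2685) (.e (nat_lit 336326) (nat_lit 18) (.e (nat_lit 204854) (nat_lit 26) (.e (nat_lit 336326) (nat_lit 18) (.e (nat_lit 204854) (nat_lit 26) (.e (nat_lit 336270) (nat_lit 15) .nil))))) (.g (nat_lit 0) (.e (nat_lit 374899) (nat_lit 0) .nil) .nil)))))))) (.nd (nat_lit 5) (.nd (nat_lit 6) (.nd (nat_lit 7) (.nd (nat_lit 8) (.nd (nat_lit 9) 
(.lf (nat_lit 578588) (.g (nat_lit 1446) (.e (nat_lit 336228) (nat_lit 14) (.e (nat_lit 401425) (nat_lit 2) (.e (nat_lit 196670) (nat_lit 14) (.e (nat_lit 73781) (nat_lit 32) (.e (nat_lit 2682) (nat_lit 168) .nil))))) (.g (nat_lit 0) (.e (nat_lit 372013) (nat_lit 0) .nil) .nil))) 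
(.lf (nat_lit 579100) (.g (nat_lit 2893) (.e (nat_lit 336316) (nat_lit 17) (.e (nat_lit 196666) (nat_lit 13) (.e (nat_lit 65610) (nat_lit 10) (.e (nat_lit 344088) (nat_lit 18) (.e (nat_lit 7695) (nat_lit 412) (.e (nat_lit 57364) (nat_lit 1) (.e (nat_lit 57854) (nat_lit 252) (.e (nat_lit 57409) (nat_lit 12) .nil)))))))) (.g (nat_lit 1) (.e (nat_lit 373772) (nat_lit 0) .nil) .nil)))) 
(.nd (nat_lit 9) 
(.lf (nat_lit 578844) (.g (nat_lit 2101) (.e (nat_lit 336239) (nat_lit 15) (.e (nat_lit 3309) (nat_lit 202) (.e (nat_lit 573484) (nat_lit 13) (.e (nat_lit 65610) (nat_lit 10) (.e (nat_lit 344129) (nat_lit 26) .nil))))) (.g (nat_lit 0) (.e (nat_lit 372870) (nat_lit 0) .nil) .nil))) 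
(.lf (nat_lit 579356) (.g (nat_lit 790) (.e (nat_lit 336324) (nat_lit 18) (.e (nat_lit 204854) (nat_lit 26) (.e (nat_lit 336258) (nat_lit 15) .nil))) (.g (nat_lit 0) (.e (nat_lit 374446) (nat_lit 0) .nil) .nil))))) (.nd (nat_lit 8) (.nd (nat_lit 9) 
(.lf (nat_lit 578716) (.g (nat_lit 412) (.e (nat_lit 336231) (nat_lit 14) (.e (nat_lit 401446) (nat_lit 10) (.e (nat_lit 434203) (nat_lit 18) .nil))) (.g (nat_lit 0) (.e (nat_lit 372430) (nat_lit 0) .nil) .nil))) 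
(.lf (nat_lit 579228) (.g (nat_lit 1016) (.e (nat_lit 336323) (nat_lit 18) (.e (nat_lit 204882) (nat_lit 32) (.e (nat_lit 385065) (nat_lit 26) (.e (nat_lit 532534) (nat_lit 9) .nil)))) (.g (nat_lit 0) (.e (nat_lit 374223) (nat_lit 0) .nil) .nil)))) (.nd (nat_lit 9) 
(.lf (nat_lit 578972) (.g (nat_lit 1075) (.e (nat_lit 336306) (nat_lit 15) (.e (nat_lit 3238) (nat_lit 197) (.e (nat_lit 532563) (nat_lit 15) (.e (nat_lit 385066) (nat_lit 26) .nil)))) (.g (nat_lit 0) (.e (nat_lit 373352) (nat_lit 0) .nil) .nil))) 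
(.lf (nat_lit 579484) (.g (nat_lit 2066) (.e (nat_lit 336326) (nat_lit 18) (.e (nat_lit 204829) (nat_lit 18) (.e (nat_lit 57854) (nat_lit 252) (.e (nat_lit 57378) (nat_lit 3) .nil)))) (.g (nat_lit 0) (.e (nat_lit 374691) (nat_lit 0) .nil) .nil)))))) (.nd (nat_lit 7) (.nd (nat_lit 8) (.nd (nat_lit 9) 
(.lf (nat_lit 578652) (.g (nat_lit 1864) (.e (nat_lit 336229) (nat_lit 14) (.e (nat_lit 401448) (nat_lit 10) (.e (nat_lit 434287) (nat_lit 43) (.e (nat_lit 696346) (nat_lit 10) (.e (nat_lit 188421) (nat_lit 11) .nil))))) (.g (nat_lit 1) (.e (nat_lit 372126) (nat_lit 0) .nil) .nil))) 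
(.lf (nat_lit 579164) (.g (nat_lit 2216) (.e (nat_lit 336322) (nat_lit 18) (.e (nat_lit 204829) (nat_lit 18) (.e (nat_lit 57847) (nat_lit 252) (.e (nat_lit 57408) (nat_lit 12) (.e (nat_lit 336454) (nat_lit 34) .nil))))) (.g (nat_lit 0) (.e (nat_lit 374106) (nat_lit 0) .nil) .nil)))) (.nd (nat_lit 9) 
(.lf (nat_lit 578908) (.g (nat_lit 1233) (.e (nat_lit 336270) (nat_lit 15) (.e (nat_lit 3632) (nat_lit 227) (.e (nat_lit 778323) (nat_lit 5) (.e (nat_lit 73781) (nat_lit 32) .nil)))) (.g (nat_lit 0) (.e (nat_lit 373189) (nat_lit 0) .nil) .nil))) 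
(.lf (nat_lit 579420) (.g (nat_lit 1596) (.e (nat_lit 336324) (nat_lit 18) (.e (nat_lit 204882) (nat_lit 32) (.e (nat_lit 385066) (nat_lit 26) (.e (nat_lit 532527) (nat_lit 9) .nil)))) (.g (nat_lit 0) (.e (nat_lit 374542) (nat_lit 0) .nil) .nil))))) (.nd (nat_lit 8) (.nd (nat_lit 9) 
(.lf (nat_lit 578780) (.g (nat_lit 2717) (.e (nat_lit 336233) (nat_lit 14) (.e (nat_lit 401459) (nat_lit 13) (.e (nat_lit 483411) (nat_lit 27) (.e (nat_lit 401437) (nat_lit 9) (.e (nat_lit 426482) (nat_lit 27) .nil))))) (.g (nat_lit 1) (.e (nat_lit 372718) (nat_lit 0) .nil) .nil))) 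
(.lf (nat_lit 579292) (.g (nat_lit 2829) (.e (nat_lit 336324) (nat_lit 18) (.e (nat_lit 204837) (nat_lit 20) (.e (nat_lit 114698) (nat_lit 11) (.e (nat_lit 426139) (nat_lit 3) (.e (nat_lit 204861) (nat_lit 26) (.e (nat_lit 336074) (nat_lit 9) .nil)))))) (.g (nat_lit 1) (.e (nat_lit 374338) (nat_lit 0) .nil) .nil)))) (.nd (nat_lit 9) 
(.lf (nat_lit 579036) (.g (nat_lit 1615) (.e (nat_lit 336293) (nat_lit 15) (.e (nat_lit 3253) (nat_lit 197) (.e (nat_lit 532503) (nat_lit 1) (.e (nat_lit 57847) (nat_lit 252) (.e (nat_lit 57411) (nat_lit 12) .nil))))) (.g (nat_lit 0) (.e (nat_lit 373591) (nat_lit 0) .nil) .nil))) 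
(.lf (nat_lit 579548) (.g (nat_lit 3080) (.e (nat_lit 336326) (nat_lit 18) (.e (nat_lit 204854) (nat_lit 26) (.e (nat_lit 336322) (nat_lit 18) (.e (nat_lit 204880) (nat_lit 32) (.e (nat_lit 385066) (nat_lit 26) (.e (nat_lit 532534) (nat_lit 9) .nil)))))) (.g (nat_lit 1) (.e (nat_lit 374879) (nat_lit 0) .nil) .nil))))))) (.nd (nat_lit 6) (.nd (nat_lit 7) (.nd (nat_lit 8) (.nd (nat_lit 9) 
(.lf (nat_lit 578620) (.g (nat_lit 2209) (.e (nat_lit 336228) (nat_lit 14) (.e (nat_lit 401456) (nat_lit 13) (.e (nat_lit 483406) (nat_lit 26) (.e (nat_lit 385102) (nat_lit 50) .nil)))) (.g (nat_lit 0) (.e (nat_lit 372064) (nat_lit 0) .nil) .nil))) 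
(.lf (nat_lit 579132) (.g (nat_lit 417) (.e (nat_lit 336316) (nat_lit 17) (.e (nat_lit 196668) (nat_lit 14) (.e (nat_lit 73753) (nat_lit 8) .nil))) (.g (nat_lit 0) (.e (nat_lit 373813) (nat_lit 0) .nil) .nil)))) (.nd (nat_lit 9) 
(.lf (nat_lit 578876) (.g (nat_lit 3098) (.e (nat_lit 336260) (nat_lit 15) (.e (nat_lit 3252) (nat_lit 197) (.e (nat_lit 532499) (nat_lit 1) (.e (nat_lit 57847) (nat_lit 252) (.e (nat_lit 57405) (nat_lit 12) .nil))))) (.g (nat_lit 0) (.e (nat_lit 373099) (nat_lit 0) .nil) .nil))) 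
(.lf (nat_lit 579388) (.g (nat_lit 942) (.e (nat_lit 336324) (nat_lit 18) (.e (nat_lit 204879) (nat_lit 32) (.e (nat_lit 385068) (nat_lit 26) (.e (nat_lit 532566) (nat_lit 15) .nil)))) (.g (nat_lit 0) (.e (nat_lit 374502) (nat_lit 0) .nil) .nil))))) (.nd (nat_lit 8) (.nd (nat_lit 9) 
(.lf (nat_lit 578748) (.g (nat_lit 1323) (.e (nat_lit 336231) (nat_lit 14) (.e (nat_lit 401456) (nat_lit 13) (.e (nat_lit 483372) (nat_lit 21) (.e (nat_lit 319511) (nat_lit 10) .nil)))) (.g (nat_lit 0) (.e (nat_lit 372539) (nat_lit 0) .nil) .nil))) 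
(.lf (nat_lit 579260) (.g (nat_lit 1278) (.e (nat_lit 336324) (nat_lit 18) (.e (nat_lit 204831) (nat_lit 18) (.e (nat_lit 57852) (nat_lit 252) (.e (nat_lit 57405) (nat_lit 12) .nil)))) (.g (nat_lit 0) (.e (nat_lit 374273) (nat_lit 0) .nil) .nil)))) (.nd (nat_lit 9) 
(.lf (nat_lit 579004) (.g (nat_lit 4716) (.e (nat_lit 336306) (nat_lit 15) (.e (nat_lit 3619) (nat_lit 227) (.e (nat_lit 778318) (nat_lit 3) (.e (nat_lit 57476) (nat_lit 28) (.e (nat_lit 557108) (nat_lit 15) (.e (nat_lit 188452) (nat_lit 23) (.e (nat_lit 204851) (nat_lit 26) .nil))))))) (.g (nat_lit 1) (.e (nat_lit 373517) (nat_lit 0) .nil) .nil))) 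
(.lf (nat_lit 579516) (.g (nat_lit 2377) (.e (nat_lit 336326) (nat_lit 18) (.e (nat_lit 204852) (nat_lit 26) (.e (nat_lit 336326) (nat_lit 18) (.e (nat_lit 204854) (nat_lit 26) (.e (nat_lit 336258) (nat_lit 15) .nil))))) (.g (nat_lit 0) (.e (nat_lit 374822) (nat_lit 0) .nil) .nil)))))) (.nd (nat_lit 7) (.nd (nat_lit 8) (.nd (nat_lit 9) 
(.lf (nat_lit 578684) (.g (nat_lit 1157) (.e (nat_lit 336230) (nat_lit 14) (.e (nat_lit 401448) (nat_lit 10) (.e (nat_lit 434288) (nat_lit 43) (.e (nat_lit 696326) (nat_lit 5) .nil)))) (.g (nat_lit 0) (.e (nat_lit 372334) (nat_lit 0) .nil) .nil))) 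
(.lf (nat_lit 579196) (.g (nat_lit 2225) (.e (nat_lit 336322) (nat_lit 18) (.e (nat_lit 204882) (nat_lit 32) (.e (nat_lit 385066) (nat_lit 26) (.e (nat_lit 532530) (nat_lit 9) .nil)))) (.g (nat_lit 0) (.e (nat_lit 374175) (nat_lit 0) .nil) .nil)))) (.nd (nat_lit 9) 
(.lf (nat_lit 578940) (.g (nat_lit 2525) (.e (nat_lit 336281) (nat_lit 15) (.e (nat_lit 3302) (nat_lit 202) (.e (nat_lit 573484) (nat_lit 13) (.e (nat_lit 65617) (nat_lit 10) .nil)))) (.g (nat_lit 0) (.e (nat_lit 373248) (nat_lit 0) .nil) .nil))) 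
(.lf (nat_lit 579452) (.g (nat_lit 1412) (.e (nat_lit 336325) (nat_lit 18) (.e (nat_lit 204837) (nat_lit 20) (.e (nat_lit 114698) (nat_lit 11) (.e (nat_lit 426138) (nat_lit 3) .nil)))) (.g (nat_lit 0) (.e (nat_lit 374595) (nat_lit 0) .nil) .nil))))) (.nd (nat_lit 8) (.nd (nat_lit 9) 
(.lf (nat_lit 578812) (.g (nat_lit 2891) (.e (nat_lit 336235) (nat_lit 14) (.e (nat_lit 401456) (nat_lit 13) (.e (nat_lit 483386) (nat_lit 23) (.e (nat_lit 336295) (nat_lit 15) (.e (nat_lit 3748) (nat_lit 228) (.e (nat_lit 786473) (nat_lit 27) .nil)))))) (.g (nat_lit 1) (.e (nat_lit 372801) (nat_lit 0) .nil) .nil))) 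
(.lf (nat_lit 579324) (.g (nat_lit 2045) (.e (nat_lit 336324) (nat_lit 18) (.e (nat_lit 204838) (nat_lit 20) (.e (nat_lit 122624) (nat_lit 11) (.e (nat_lit 426116) (nat_lit 2) (.e (nat_lit 196681) (nat_lit 17) (.e (nat_lit 131109) (nat_lit 9) .nil)))))) (.g (nat_lit 1) (.e (nat_lit 374387) (nat_lit 0) .nil) .nil)))) (.nd (nat_lit 9) 
(.lf (nat_lit 579068) (.g (nat_lit 1716) (.e (nat_lit 336309) (nat_lit 16) (.e (nat_lit 164183) (nat_lit 154) (.e (nat_lit 57378) (nat_lit 3) (.e (nat_lit 98333) (nat_lit 18) .nil)))) (.g (nat_lit 0) (.e (nat_lit 373679) (nat_lit 0) .nil) .nil))) 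
(.lf (nat_lit 579580) (.g (nat_lit 2635) (.e (nat_lit 336326) (nat_lit 18) (.e (nat_lit 204862) (nat_lit 27) (.e (nat_lit 344133) (nat_lit 26) (.e (nat_lit 557098) (nat_lit 13) (.e (nat_lit 172127) (nat_lit 15) .nil))))) (.g (nat_lit 0) (.e (nat_lit 374933) (nat_lit 0) .nil) .nil))))))))))) 
(.nd (nat_lit 2) (.nd (nat_lit 3) (.nd (nat_lit 4) (.nd (nat_lit 5) (.nd (nat_lit 6) 
(.nd (nat_lit 7) (.nd (nat_lit 8) (.nd (nat_lit 9) 
(.lf (nat_lit 578562) (.g (nat_lit 3200) (.e (nat_lit 336226) (nat_lit 14) (.e (nat_lit 401459) (nat_lit 13) (.e (nat_lit 483372) (nat_lit 21) (.e (nat_lit 319538) (nat_lit 19) .nil)))) (.g (nat_lit 0) (.e (nat_lit 371972) (nat_lit 0) .nil) .nil))) 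
(.lf (nat_lit 579074) (.g (nat_lit 3256) (.e (nat_lit 336310) (nat_lit 16) (.e (nat_lit 164179) (nat_lit 154) (.e (nat_lit 57378) (nat_lit 3) (.e (nat_lit 98334) (nat_lit 18) (.e (nat_lit 164330) (nat_lit 230) .nil))))) (.g (nat_lit 0) (.e (nat_lit 373686) (nat_lit 0) .nil) .nil)))) (.nd (nat_lit 9) 
(.lf (nat_lit 578818) (.g (nat_lit 4007) (.e (nat_lit 336235) (nat_lit 14) (.e (nat_lit 401458) (nat_lit 13) (.e (nat_lit 483410) (nat_lit 27) (.e (nat_lit 401437) (nat_lit 9) (.e (nat_lit 426530) (nat_lit 27) .nil))))) (.g (nat_lit 1) (.e (nat_lit 372811) (nat_lit 0) .nil) .nil))) 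
(.lf (nat_lit 579330) (.g (nat_lit 1640) (.e (nat_lit 336324) (nat_lit 18) (.e (nat_lit 204852) (nat_lit 26) (.e (nat_lit 336316) (nat_lit 17) (.e (nat_lit 196630) (nat_lit 9) (.e (nat_lit 1413) (nat_lit 108) .nil))))) (.g (nat_lit 0) (.e (nat_lit 374396) (nat_lit 0) .nil) .nil))))) (.nd (nat_lit 8) (.nd (nat_lit 9) 
(.lf (nat_lit 578690) (.g (nat_lit 2791) (.e (nat_lit 336230) (nat_lit 14) (.e (nat_lit 401448) (nat_lit 10) (.e (nat_lit 434289) (nat_lit 43) (.e (nat_lit 696329) (nat_lit 5) (.e (nat_lit 3004) (nat_lit 186) (.e (nat_lit 442390) (nat_lit 11) .nil)))))) (.g (nat_lit 1) (.e (nat_lit 372342) (nat_lit 0) .nil) .nil))) 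
(.lf (nat_lit 579202) (.g (nat_lit 1434) (.e (nat_lit 336323) (nat_lit 18) (.e (nat_lit 204829) (nat_lit 18) (.e (nat_lit 57854) (nat_lit 252) (.e (nat_lit 57406) (nat_lit 12) .nil)))) (.g (nat_lit 0) (.e (nat_lit 374181) (nat_lit 0) .nil) .nil)))) (.nd (nat_lit 9) 
(.lf (nat_lit 578946) (.g (nat_lit 1630) (.e (nat_lit 336282) (nat_lit 15) (.e (nat_lit 3632) (nat_lit 227) (.e (nat_lit 778323) (nat_lit 5) (.e (nat_lit 73781) (nat_lit 32) (.e (nat_lit 3087) (nat_lit 191) .nil))))) (.g (nat_lit 0) (.e (nat_lit 373262) (nat_lit 0) .nil) .nil))) 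
(.lf (nat_lit 579458) (.g (nat_lit 697) (.e (nat_lit 336325) (nat_lit 18) (.e (nat_lit 204838) (nat_lit 20) (.e (nat_lit 114697) (nat_lit 11) (.e (nat_lit 426139) (nat_lit 3) .nil)))) (.g (nat_lit 0) (.e (nat_lit 374609) (nat_lit 0) .nil) .nil)))))) (.nd (nat_lit 7) (.nd (nat_lit 8) (.nd (nat_lit 9) 
(.lf (nat_lit 578626) (.g (nat_lit 2561) (.e (nat_lit 336228) (nat_lit 14) (.e (nat_lit 401457) (nat_lit 13) (.e (nat_lit 483409) (nat_lit 27) (.e (nat_lit 401437) (nat_lit 9) (.e (nat_lit 426509) (nat_lit 27) .nil))))) (.g (nat_lit 1) (.e (nat_lit 372072) (nat_lit 0) .nil) .nil))) 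
(.lf (nat_lit 579138) (.g (nat_lit 2296) (.e (nat_lit 336316) (nat_lit 17) (.e (nat_lit 196670) (nat_lit 14) (.e (nat_lit 73753) (nat_lit 8) (.e (nat_lit 557098) (nat_lit 13) (.e (nat_lit 172127) (nat_lit 15) .nil))))) (.g (nat_lit 0) (.e (nat_lit 373872) (nat_lit 0) .nil) .nil)))) (.nd (nat_lit 9) 
(.lf (nat_lit 578882) (.g (nat_lit 1469) (.e (nat_lit 336262) (nat_lit 15) (.e (nat_lit 3305) (nat_lit 202) (.e (nat_lit 573484) (nat_lit 13) (.e (nat_lit 65617) (nat_lit 10) .nil)))) (.g (nat_lit 0) (.e (nat_lit 373144) (nat_lit 0) .nil) .nil))) 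
(.lf (nat_lit 579394) (.g (nat_lit 2557) (.e (nat_lit 336324) (nat_lit 18) (.e (nat_lit 204880) (nat_lit 32) (.e (nat_lit 385066) (nat_lit 26) (.e (nat_lit 532532) (nat_lit 9) (.e (nat_lit 336306) (nat_lit 15) (.e (nat_lit 3238) (nat_lit 197) (.e (nat_lit 532531) (nat_lit 9) .nil))))))) (.g (nat_lit 1) (.e (nat_lit 374510) (nat_lit 0) .nil) .nil))))) (.nd (nat_lit 8) (.nd (nat_lit 9) 
(.lf (nat_lit 578754) (.g (nat_lit 1832) (.e (nat_lit 336231) (nat_lit 14) (.e (nat_lit 401458) (nat_lit 13) (.e (nat_lit 483372) (nat_lit 21) (.e (nat_lit 319504) (nat_lit 10) (.e (nat_lit 7936) (nat_lit 312) .nil))))) (.g (nat_lit 0) (.e (nat_lit 372573) (nat_lit 0) .nil) .nil))) 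
(.lf (nat_lit 579266) (.g (nat_lit 3779) (.e (nat_lit 336324) (nat_lit 18) (.e (nat_lit 204831) (nat_lit 18) (.e (nat_lit 57854) (nat_lit 252) (.e (nat_lit 57378) (nat_lit 3) (.e (nat_lit 98340) (nat_lit 20) (.e (nat_lit 221214) (nat_lit 23) (.e (nat_lit 204852) (nat_lit 26) .nil))))))) (.g (nat_lit 1) (.e (nat_lit 374289) (nat_lit 0) .nil) .nil)))) (.nd (nat_lit 9) 
(.lf (nat_lit 579010) (.g (nat_lit 2910) (.e (nat_lit 336288) (nat_lit 15) (.e (nat_lit 7098) (nat_lit 380) (.e (nat_lit 164368) (nat_lit 247) (.e (nat_lit 8318) (nat_lit 64) (.e (nat_lit 516174) (nat_lit 14) (.e (nat_lit 466954) (nat_lit 11) .nil)))))) (.g (nat_lit 1) (.e (nat_lit 373529) (nat_lit 0) .nil) .nil))) 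
(.lf (nat_lit 579522) (.g (nat_lit 2817) (.e (nat_lit 336326) (nat_lit 18) (.e (nat_lit 204852) (nat_lit 26) (.e (nat_lit 336326) (nat_lit 18) (.e (nat_lit 204854) (nat_lit 26) (.e (nat_lit 336265) (nat_lit 15) (.e (nat_lit 3234) (nat_lit 197) (.e (nat_lit 532530) (nat_lit 9) .nil))))))) (.g (nat_lit 1) (.e (nat_lit 374829) (nat_lit 0) .nil) .nil))))))) 
(.nd (nat_lit 6) (.nd (nat_lit 7) (.nd (nat_lit 8) (.nd (nat_lit 9) 
(.lf (nat_lit 578594) (.g (nat_lit 2110) (.e (nat_lit 336228) (nat_lit 14) (.e (nat_lit 401425) (nat_lit 2) (.e (nat_lit 196674) (nat_lit 15) (.e (nat_lit 81947) (nat_lit 20) (.e (nat_lit 1842) (nat_lit 123) .nil))))) (.g (nat_lit 0) (.e (nat_lit 372019) (nat_lit 0) .nil) .nil))) 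
(.lf (nat_lit 579106) (.g (nat_lit 2234) (.e (nat_lit 336316) (nat_lit 17) (.e (nat_lit 196666) (nat_lit 13) (.e (nat_lit 65610) (nat_lit 10) (.e (nat_lit 344090) (nat_lit 18) (.e (nat_lit 7936) (nat_lit 412) .nil))))) (.g (nat_lit 0) (.e (nat_lit 373778) (nat_lit 0) .nil) .nil)))) (.nd (nat_lit 9) 
(.lf (nat_lit 578850) (.g (nat_lit 1410) (.e (nat_lit 336240) (nat_lit 15) (.e (nat_lit 3299) (nat_lit 202) (.e (nat_lit 573484) (nat_lit 13) (.e (nat_lit 65617) (nat_lit 10) .nil)))) (.g (nat_lit 0) (.e (nat_lit 372926) (nat_lit 0) .nil) .nil))) 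
(.lf (nat_lit 579362) (.g (nat_lit 392) (.e (nat_lit 336324) (nat_lit 18) (.e (nat_lit 204854) (nat_lit 26) (.e (nat_lit 336316) (nat_lit 17) .nil))) (.g (nat_lit 0) (.e (nat_lit 374453) (nat_lit 0) .nil) .nil))))) (.nd (nat_lit 8) (.nd (nat_lit 9) 
(.lf (nat_lit 578722) (.g (nat_lit 1311) (.e (nat_lit 336231) (nat_lit 14) (.e (nat_lit 401446) (nat_lit 10) (.e (nat_lit 434286) (nat_lit 42) (.e (nat_lit 688138) (nat_lit 5) (.e (nat_lit 2887) (nat_lit 184) .nil))))) (.g (nat_lit 0) (.e (nat_lit 372456) (nat_lit 0) .nil) .nil))) 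
(.lf (nat_lit 579234) (.g (nat_lit 1639) (.e (nat_lit 336324) (nat_lit 18) (.e (nat_lit 204829) (nat_lit 18) (.e (nat_lit 57849) (nat_lit 252) (.e (nat_lit 57410) (nat_lit 12) (.e (nat_lit 336454) (nat_lit 34) .nil))))) (.g (nat_lit 0) (.e (nat_lit 374235) (nat_lit 0) .nil) .nil)))) (.nd (nat_lit 9) 
(.lf (nat_lit 578978) (.g (nat_lit 2613) (.e (nat_lit 336306) (nat_lit 15) (.e (nat_lit 3297) (nat_lit 202) (.e (nat_lit 573484) (nat_lit 13) (.e (nat_lit 65617) (nat_lit 10) (.e (nat_lit 344132) (nat_lit 26) .nil))))) (.g (nat_lit 0) (.e (nat_lit 373370) (nat_lit 0) .nil) .nil))) 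
(.lf (nat_lit 579490) (.g (nat_lit 2000) (.e (nat_lit 336326) (nat_lit 18) (.e (nat_lit 204830) (nat_lit 18) (.e (nat_lit 57852) (nat_lit 252) (.e (nat_lit 57409) (nat_lit 12) (.e (nat_lit 336456) (nat_lit 34) .nil))))) (.g (nat_lit 0) (.e (nat_lit 374707) (nat_lit 0) .nil) .nil)))))) (.nd (nat_lit 7) (.nd (nat_lit 8) (.nd (nat_lit 9) 
(.lf (nat_lit 578658) (.g (nat_lit 764) (.e (nat_lit 336229) (nat_lit 14) (.e (nat_lit 401458) (nat_lit 13) (.e (nat_lit 483360) (nat_lit 17) .nil))) (.g (nat_lit 0) (.e (nat_lit 372165) (nat_lit 0) .nil) .nil))) 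
(.lf (nat_lit 579170) (.g (nat_lit 1304) (.e (nat_lit 336322) (nat_lit 18) (.e (nat_lit 204831) (nat_lit 18) (.e (nat_lit 57847) (nat_lit 252) (.e (nat_lit 57411) (nat_lit 12) .nil)))) (.g (nat_lit 0) (.e (nat_lit 374121) (nat_lit 0) .nil) .nil)))) (.nd (nat_lit 9) 
(.lf (nat_lit 578914) (.g (nat_lit 4703) (.e (nat_lit 336272) (nat_lit 15) (.e (nat_lit 3302) (nat_lit 202) (.e (nat_lit 573492) (nat_lit 15) (.e (nat_lit 81956) (nat_lit 23) (.e (nat_lit 98389) (nat_lit 33) (.e (nat_lit 491556) (nat_lit 9) .nil)))))) (.g (nat_lit 1) (.e (nat_lit 373197) (nat_lit 0) .nil) .nil))) 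
(.lf (nat_lit 579426) (.g (nat_lit 2812) (.e (nat_lit 336324) (nat_lit 18) (.e (nat_lit 204882) (nat_lit 32) (.e (nat_lit 385066) (nat_lit 26) (.e (nat_lit 532532) (nat_lit 9) (.e (nat_lit 336306) (nat_lit 15) (.e (nat_lit 3238) (nat_lit 197) (.e (nat_lit 532531) (nat_lit 9) .nil))))))) (.g (nat_lit 1) (.e (nat_lit 374548) (nat_lit 0) .nil) .nil))))) (.nd (nat_lit 8) (.nd (nat_lit 9) 
(.lf (nat_lit 578786) (.g (nat_lit 1217) (.e (nat_lit 336235) (nat_lit 14) (.e (nat_lit 401425) (nat_lit 2) (.e (nat_lit 196666) (nat_lit 13) (.e (nat_lit 65617) (nat_lit 10) (.e (nat_lit 344127) (nat_lit 26) .nil))))) (.g (nat_lit 0) (.e (nat_lit 372749) (nat_lit 0) .nil) .nil))) 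
(.lf (nat_lit 579298) (.g (nat_lit 1641) (.e (nat_lit 336324) (nat_lit 18) (.e (nat_lit 204837) (nat_lit 20) (.e (nat_lit 122624) (nat_lit 12) (.e (nat_lit 434219) (nat_lit 19) (.e (nat_lit 500090) (nat_lit 22) (.e (nat_lit 131106) (nat_lit 9) .nil)))))) (.g (nat_lit 1) (.e (nat_lit 374344) (nat_lit 0) .nil) .nil)))) (.nd (nat_lit 9) 
(.lf (nat_lit 579042) (.g (nat_lit 1632) (.e (nat_lit 336293) (nat_lit 15) (.e (nat_lit 3632) (nat_lit 227) (.e (nat_lit 778323) (nat_lit 5) (.e (nat_lit 73782) (nat_lit 32) (.e (nat_lit 3087) (nat_lit 191) .nil))))) (.g (nat_lit 0) (.e (nat_lit 373598) (nat_lit 0) .nil) .nil))) 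
(.lf (nat_lit 579554) (.g (nat_lit 421) (.e (nat_lit 336326) (nat_lit 18) (.e (nat_lit 204854) (nat_lit 26) (.e (nat_lit 336326) (nat_lit 18) .nil))) (.g (nat_lit 0) (.e (nat_lit 374886) (nat_lit 0) .nil) .nil)))))))) (.nd (nat_lit 5) (.nd (nat_lit 6) (.nd (nat_lit 7) (.nd (nat_lit 8) (.nd (nat_lit 9) 
(.lf (nat_lit 578578) (.g (nat_lit 2357) (.e (nat_lit 336228) (nat_lit 14) (.e (nat_lit 401425) (nat_lit 2) (.e (nat_lit 196666) (nat_lit 13) (.e (nat_lit 65583) (nat_lit 7) (.e (nat_lit 319519) (nat_lit 12) .nil))))) (.g (nat_lit 0) (.e (nat_lit 372000) (nat_lit 0) .nil) .nil))) 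
(.lf (nat_lit 579090) (.g (nat_lit 2150) (.e (nat_lit 336310) (nat_lit 16) (.e (nat_lit 164183) (nat_lit 154) (.e (nat_lit 57378) (nat_lit 3) (.e (nat_lit 98335) (nat_lit 18) (.e (nat_lit 164305) (nat_lit 226) .nil))))) (.g (nat_lit 0) (.e (nat_lit 373703) (nat_lit 0) .nil) .nil)))) (.nd (nat_lit 9) 
(.lf (nat_lit 578834) (.g (nat_lit 3754) (.e (nat_lit 336236) (nat_lit 14) (.e (nat_lit 401459) (nat_lit 13) (.e (nat_lit 483372) (nat_lit 21) (.e (nat_lit 319490) (nat_lit 0) .nil)))) (.g (nat_lit 0) (.e (nat_lit 372835) (nat_lit 0) .nil) .nil))) 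
(.lf (nat_lit 579346) (.g (nat_lit 2863) (.e (nat_lit 336324) (nat_lit 18) (.e (nat_lit 204852) (nat_lit 26) (.e (nat_lit 336326) (nat_lit 18) (.e (nat_lit 204854) (nat_lit 26) (.e (nat_lit 336316) (nat_lit 17) (.e (nat_lit 196630) (nat_lit 9) (.e (nat_lit 1433) (nat_lit 108) .nil))))))) (.g (nat_lit 1) (.e (nat_lit 374429) (nat_lit 0) .nil) .nil))))) (.nd (nat_lit 8) (.nd (nat_lit 9) 
(.lf (nat_lit 578706) (.g (nat_lit 2064) (.e (nat_lit 336231) (nat_lit 14) (.e (nat_lit 401432) (nat_lit 7) (.e (nat_lit 409649) (nat_lit 18) (.e (nat_lit 303136) (nat_lit 10) .nil)))) (.g (nat_lit 0) (.e (nat_lit 372400) (nat_lit 0) .nil) .nil))) 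
(.lf (nat_lit 579218) (.g (nat_lit 2254) (.e (nat_lit 336323) (nat_lit 18) (.e (nat_lit 204838) (nat_lit 20) (.e (nat_lit 114697) (nat_lit 11) (.e (nat_lit 426139) (nat_lit 3) (.e (nat_lit 204859) (nat_lit 26) (.e (nat_lit 336116) (nat_lit 9) .nil)))))) (.g (nat_lit 1) (.e (nat_lit 374198) (nat_lit 0) .nil) .nil)))) (.nd (nat_lit 9) 
(.lf (nat_lit 578962) (.g (nat_lit 1372) (.e (nat_lit 336306) (nat_lit 15) (.e (nat_lit 3238) (nat_lit 197) (.e (nat_lit 532503) (nat_lit 1) (.e (nat_lit 57847) (nat_lit 252) .nil)))) (.g (nat_lit 0) (.e (nat_lit 373322) (nat_lit 0) .nil) .nil))) 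
(.lf (nat_lit 579474) (.g (nat_lit 3777) (.e (nat_lit 336325) (nat_lit 18) (.e (nat_lit 204880) (nat_lit 32) (.e (nat_lit 385066) (nat_lit 26) (.e (nat_lit 532530) (nat_lit 9) (.e (nat_lit 336324) (nat_lit 18) (.e (nat_lit 204854) (nat_lit 26) .nil)))))) (.g (nat_lit 1) (.e (nat_lit 374659) (nat_lit 0) .nil) .nil)))))) (.nd (nat_lit 7) (.nd (nat_lit 8) (.nd (nat_lit 9) 
(.lf (nat_lit 578642) (.g (nat_lit 1619) (.e (nat_lit 336228) (nat_lit 14) (.e (nat_lit 401458) (nat_lit 13) (.e (nat_lit 483409) (nat_lit 27) (.e (nat_lit 401437) (nat_lit 9) (.e (nat_lit 426509) (nat_lit 27) .nil))))) (.g (nat_lit 1) (.e (nat_lit 372093) (nat_lit 0) .nil) .nil))) 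
(.lf (nat_lit 579154) (.g (nat_lit 1516) (.e (nat_lit 336321) (nat_lit 18) (.e (nat_lit 204837) (nat_lit 20) (.e (nat_lit 114698) (nat_lit 11) (.e (nat_lit 426133) (nat_lit 3) .nil)))) (.g (nat_lit 0) (.e (nat_lit 374075) (nat_lit 0) .nil) .nil)))) (.nd (nat_lit 9) 
(.lf (nat_lit 578898) (.g (nat_lit 2339) (.e (nat_lit 336267) (nat_lit 15) (.e (nat_lit 3631) (nat_lit 227) (.e (nat_lit 778323) (nat_lit 5) (.e (nat_lit 73782) (nat_lit 32) (.e (nat_lit 3090) (nat_lit 191) (.e (nat_lit 483387) (nat_lit 23) .nil)))))) (.g (nat_lit 1) (.e (nat_lit 373176) (nat_lit 0) .nil) .nil))) 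
(.lf (nat_lit 579410) (.g (nat_lit 1420) (.e (nat_lit 336324) (nat_lit 18) (.e (nat_lit 204881) (nat_lit 32) (.e (nat_lit 385068) (nat_lit 26) (.e (nat_lit 532566) (nat_lit 15) .nil)))) (.g (nat_lit 0) (.e (nat_lit 374526) (nat_lit 0) .nil) .nil))))) (.nd (nat_lit 8) (.nd (nat_lit 9) 
(.lf (nat_lit 578770) (.g (nat_lit 486) (.e (nat_lit 336232) (nat_lit 14) (.e (nat_lit 401448) (nat_lit 10) (.e (nat_lit 434285) (nat_lit 42) .nil))) (.g (nat_lit 0) (.e (nat_lit 372670) (nat_lit 0) .nil) .nil))) 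
(.lf (nat_lit 579282) (.g (nat_lit 1152) (.e (nat_lit 336324) (nat_lit 18) (.e (nat_lit 204837) (nat_lit 20) (.e (nat_lit 114698) (nat_lit 11) (.e (nat_lit 426114) (nat_lit 2) .nil)))) (.g (nat_lit 0) (.e (nat_lit 374316) (nat_lit 0) .nil) .nil)))) (.nd (nat_lit 9) 
(.lf (nat_lit 579026) (.g (nat_lit 1713) (.e (nat_lit 336295) (nat_lit 15) (.e (nat_lit 3253) (nat_lit 197) (.e (nat_lit 532504) (nat_lit 1) (.e (nat_lit 57854) (nat_lit 252) (.e (nat_lit 57406) (nat_lit 12) .nil))))) (.g (nat_lit 0) (.e (nat_lit 373553) (nat_lit 0) .nil) .nil))) 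
(.lf (nat_lit 579538) (.g (nat_lit 1128) (.e (nat_lit 336326) (nat_lit 18) (.e (nat_lit 204854) (nat_lit 26) (.e (nat_lit 336303) (nat_lit 15) .nil))) (.g (nat_lit 0) (.e (nat_lit 374860) (nat_lit 0) .nil) .nil))))))) (.nd (nat_lit 6) (.nd (nat_lit 7) (.nd (nat_lit 8) (.nd (nat_lit 9) 
(.lf (nat_lit 578610) (.g (nat_lit 1461) (.e (nat_lit 336228) (nat_lit 14) (.e (nat_lit 401437) (nat_lit 9) (.e (nat_lit 426544) (nat_lit 30) (.e (nat_lit 360457) (nat_lit 0) .nil)))) (.g (nat_lit 0) (.e (nat_lit 372037) (nat_lit 0) .nil) .nil))) 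
(.lf (nat_lit 579122) (.g (nat_lit 2164) (.e (nat_lit 336316) (nat_lit 17) (.e (nat_lit 196666) (nat_lit 13) (.e (nat_lit 65617) (nat_lit 10) (.e (nat_lit 344095) (nat_lit 18) (.e (nat_lit 7695) (nat_lit 412) (.e (nat_lit 57365) (nat_lit 1) (.e (nat_lit 57854) (nat_lit 252) (.e (nat_lit 57406) (nat_lit 12) .nil)))))))) (.g (nat_lit 1) (.e (nat_lit 373799) (nat_lit 0) .nil) .nil)))) 
(.nd (nat_lit 9) 
(.lf (nat_lit 578866) (.g (nat_lit 2208) (.e (nat_lit 336244) (nat_lit 15) (.e (nat_lit 3231) (nat_lit 197) (.e (nat_lit 532501) (nat_lit 1) (.e (nat_lit 57851) (nat_lit 252) (.e (nat_lit 57406) (nat_lit 12) .nil))))) (.g (nat_lit 0) (.e (nat_lit 373048) (nat_lit 0) .nil) .nil))) 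
(.lf (nat_lit 579378) (.g (nat_lit 2229) (.e (nat_lit 336324) (nat_lit 18) (.e (nat_lit 204854) (nat_lit 26) (.e (nat_lit 336326) (nat_lit 18) (.e (nat_lit 204854) (nat_lit 26) (.e (nat_lit 336258) (nat_lit 15) .nil))))) (.g (nat_lit 0) (.e (nat_lit 374479) (nat_lit 0) .nil) .nil))))) (.nd (nat_lit 8) (.nd (nat_lit 9) 
(.lf (nat_lit 578738) (.g (nat_lit 523) (.e (nat_lit 336231) (nat_lit 14) (.e (nat_lit 401448) (nat_lit 10) (.e (nat_lit 434285) (nat_lit 42) .nil))) (.g (nat_lit 0) (.e (nat_lit 372505) (nat_lit 0) .nil) .nil))) 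
(.lf (nat_lit 579250) (.g (nat_lit 3950) (.e (nat_lit 336324) (nat_lit 18) (.e (nat_lit 204831) (nat_lit 18) (.e (nat_lit 57849) (nat_lit 252) (.e (nat_lit 57379) (nat_lit 3) (.e (nat_lit 98338) (nat_lit 19) (.e (nat_lit 213013) (nat_lit 9) (.e (nat_lit 2684) (nat_lit 168) (.e (nat_lit 204852) (nat_lit 26) .nil)))))))) (.g (nat_lit 1) (.e (nat_lit 374263) (nat_lit 0) .nil) .nil)))) 
(.nd (nat_lit 9) 
(.lf (nat_lit 578994) (.g (nat_lit 5110) (.e (nat_lit 336306) (nat_lit 15) (.e (nat_lit 3307) (nat_lit 202) (.e (nat_lit 573485) (nat_lit 13) (.e (nat_lit 65604) (nat_lit 9) (.e (nat_lit 336013) (nat_lit 2) (.e (nat_lit 90134) (nat_lit 9) (.e (nat_lit 3098) (nat_lit 192) (.e (nat_lit 491549) (nat_lit 9) .nil)))))))) (.g (nat_lit 1) (.e (nat_lit 373445) (nat_lit 0) .nil) .nil))) 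
(.lf (nat_lit 579506) (.g (nat_lit 874) (.e (nat_lit 336326) (nat_lit 18) (.e (nat_lit 204838) (nat_lit 20) (.e (nat_lit 114695) (nat_lit 11) .nil))) (.g (nat_lit 0) (.e (nat_lit 374788) (nat_lit 0) .nil) .nil)))))) (.nd (nat_lit 7) (.nd (nat_lit 8) (.nd (nat_lit 9) 
(.lf (nat_lit 578674) (.g (nat_lit 2159) (.e (nat_lit 336230) (nat_lit 14) (.e (nat_lit 401446) (nat_lit 10) (.e (nat_lit 434212) (nat_lit 18) (.e (nat_lit 6425) (nat_lit 342) (.e (nat_lit 229412) (nat_lit 14) (.e (nat_lit 442388) (nat_lit 11) .nil)))))) (.g (nat_lit 1) (.e (nat_lit 372266) (nat_lit 0) .nil) .nil))) 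
(.lf (nat_lit 579186) (.g (nat_lit 1060) (.e (nat_lit 336322) (nat_lit 18) (.e (nat_lit 204880) (nat_lit 32) (.e (nat_lit 385066) (nat_lit 26) (.e (nat_lit 532530) (nat_lit 9) .nil)))) (.g (nat_lit 0) (.e (nat_lit 374165) (nat_lit 0) .nil) .nil)))) (.nd (nat_lit 9) 
(.lf (nat_lit 578930) (.g (nat_lit 1673) (.e (nat_lit 336277) (nat_lit 15) (.e (nat_lit 3632) (nat_lit 227) (.e (nat_lit 778323) (nat_lit 5) (.e (nat_lit 73781) (nat_lit 32) (.e (nat_lit 3088) (nat_lit 191) .nil))))) (.g (nat_lit 0) (.e (nat_lit 373222) (nat_lit 0) .nil) .nil))) 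
(.lf (nat_lit 579442) (.g (nat_lit 2279) (.e (nat_lit 336324) (nat_lit 18) (.e (nat_lit 204882) (nat_lit 32) (.e (nat_lit 385068) (nat_lit 26) (.e (nat_lit 532530) (nat_lit 9) (.e (nat_lit 336326) (nat_lit 18) (.e (nat_lit 204850) (nat_lit 26) .nil)))))) (.g (nat_lit 1) (.e (nat_lit 374567) (nat_lit 0) .nil) .nil))))) (.nd (nat_lit 8) (.nd (nat_lit 9) 
(.lf (nat_lit 578802) (.g (nat_lit 3897) (.e (nat_lit 336235) (nat_lit 14) (.e (nat_lit 401438) (nat_lit 9) (.e (nat_lit 426540) (nat_lit 29) (.e (nat_lit 352262) (nat_lit 0) (.e (nat_lit 3747) (nat_lit 228) (.e (nat_lit 786473) (nat_lit 27) .nil)))))) (.g (nat_lit 1) (.e (nat_lit 372776) (nat_lit 0) .nil) .nil))) 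
(.lf (nat_lit 579314) (.g (nat_lit 1606) (.e (nat_lit 336324) (nat_lit 18) (.e (nat_lit 204838) (nat_lit 20) (.e (nat_lit 114698) (nat_lit 11) (.e (nat_lit 426123) (nat_lit 2) .nil)))) (.g (nat_lit 0) (.e (nat_lit 374370) (nat_lit 0) .nil) .nil)))) (.nd (nat_lit 9) 
(.lf (nat_lit 579058) (.g (nat_lit 1926) (.e (nat_lit 336300) (nat_lit 15) (.e (nat_lit 3253) (nat_lit 197) (.e (nat_lit 532504) (nat_lit 1) (.e (nat_lit 57853) (nat_lit 252) (.e (nat_lit 57446) (nat_lit 19) .nil))))) (.g (nat_lit 0) (.e (nat_lit 373617) (nat_lit 0) .nil) .nil))) 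
(.lf (nat_lit 579570) (.g (nat_lit 2758) (.e (nat_lit 336326) (nat_lit 18) (.e (nat_lit 204854) (nat_lit 26) (.e (nat_lit 336326) (nat_lit 18) (.e (nat_lit 204854) (nat_lit 26) (.e (nat_lit 336301) (nat_lit 15) (.e (nat_lit 3234) (nat_lit 197) (.e (nat_lit 532530) (nat_lit 9) .nil))))))) (.g (nat_lit 1) (.e (nat_lit 374905) (nat_lit 0) .nil) .nil))))))))) 
(.nd (nat_lit 4) (.nd (nat_lit 5) (.nd (nat_lit 6) (.nd (nat_lit 7) (.nd (nat_lit 8) 
(.nd (nat_lit 9) 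
(.lf (nat_lit 578570) (.g (nat_lit 452) (.e (nat_lit 336227) (nat_lit 14) (.e (nat_lit 401458) (nat_lit 13) (.e (nat_lit 483350) (nat_lit 17) .nil))) (.g (nat_lit 0) (.e (nat_lit 371991) (nat_lit 0) .nil) .nil))) 
(.lf (nat_lit 579082) (.g (nat_lit 2580) (.e (nat_lit 336310) (nat_lit 16) (.e (nat_lit 164182) (nat_lit 154) (.e (nat_lit 57379) (nat_lit 3) (.e (nat_lit 98333) (nat_lit 18) (.e (nat_lit 164325) (nat_lit 230) .nil))))) (.g (nat_lit 0) (.e (nat_lit 373695) (nat_lit 0) .nil) .nil)))) (.nd (nat_lit 9) 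
(.lf (nat_lit 578826) (.g (nat_lit 4216) (.e (nat_lit 336235) (nat_lit 14) (.e (nat_lit 401459) (nat_lit 13) (.e (nat_lit 483410) (nat_lit 27) (.e (nat_lit 401437) (nat_lit 9) (.e (nat_lit 426530) (nat_lit 27) .nil))))) (.g (nat_lit 1) (.e (nat_lit 372819) (nat_lit 0) .nil) .nil))) 
(.lf (nat_lit 579338) (.g (nat_lit 2072) (.e (nat_lit 336324) (nat_lit 18) (.e (nat_lit 204852) (nat_lit 26) (.e (nat_lit 336324) (nat_lit 18) (.e (nat_lit 204854) (nat_lit 26) (.e (nat_lit 336316) (nat_lit 17) (.e (nat_lit 196630) (nat_lit 9) (.e (nat_lit 1424) (nat_lit 108) .nil))))))) (.g (nat_lit 1) (.e (nat_lit 374407) (nat_lit 0) .nil) .nil))))) (.nd (nat_lit 8) (.nd (nat_lit 9) 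
(.lf (nat_lit 578698) (.g (nat_lit 2561) (.e (nat_lit 336230) (nat_lit 14) (.e (nat_lit 401456) (nat_lit 13) (.e (nat_lit 483346) (nat_lit 17) (.e (nat_lit 6720) (nat_lit 361) (.e (nat_lit 172150) (nat_lit 27) .nil))))) (.g (nat_lit 1) (.e (nat_lit 372364) (nat_lit 0) .nil) .nil))) 
(.lf (nat_lit 579210) (.g (nat_lit 858) (.e (nat_lit 336323) (nat_lit 18) (.e (nat_lit 204831) (nat_lit 18) (.e (nat_lit 57847) (nat_lit 252) (.e (nat_lit 57411) (nat_lit 12) (.e (nat_lit 336367) (nat_lit 27) .nil))))) (.g (nat_lit 0) (.e (nat_lit 374189) (nat_lit 0) .nil) .nil)))) (.nd (nat_lit 9) 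
(.lf (nat_lit 578954) (.g (nat_lit 2848) (.e (nat_lit 336303) (nat_lit 15) (.e (nat_lit 3307) (nat_lit 202) (.e (nat_lit 573484) (nat_lit 13) (.e (nat_lit 65617) (nat_lit 10) .nil)))) (.g (nat_lit 0) (.e (nat_lit 373280) (nat_lit 0) .nil) .nil))) 
(.lf (nat_lit 579466) (.g (nat_lit 760) (.e (nat_lit 336325) (nat_lit 18) (.e (nat_lit 204852) (nat_lit 26) (.e (nat_lit 336322) (nat_lit 18) .nil))) (.g (nat_lit 0) (.e (nat_lit 374632) (nat_lit 0) .nil) .nil)))))) (.nd (nat_lit 7) (.nd (nat_lit 8) (.nd (nat_lit 9) 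
(.lf (nat_lit 578634) (.g (nat_lit 1822) (.e (nat_lit 336228) (nat_lit 14) (.e (nat_lit 401458) (nat_lit 13) (.e (nat_lit 483371) (nat_lit 21) (.e (nat_lit 319538) (nat_lit 19) (.e (nat_lit 311353) (nat_lit 27) .nil))))) (.g (nat_lit 1) (.e (nat_lit 372084) (nat_lit 0) .nil) .nil))) 
(.lf (nat_lit 579146) (.g (nat_lit 535) (.e (nat_lit 336316) (nat_lit 17) (.e (nat_lit 196681) (nat_lit 17) (.e (nat_lit 131127) (nat_lit 13) .nil))) (.g (nat_lit 0) (.e (nat_lit 373990) (nat_lit 0) .nil) .nil)))) (.nd (nat_lit 9) 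
(.lf (nat_lit 578890) (.g (nat_lit 1882) (.e (nat_lit 336265) (nat_lit 15) (.e (nat_lit 3253) (nat_lit 197) (.e (nat_lit 532504) (nat_lit 1) (.e (nat_lit 57854) (nat_lit 252) (.e (nat_lit 57445) (nat_lit 19) .nil))))) (.g (nat_lit 0) (.e (nat_lit 373154) (nat_lit 0) .nil) .nil))) 
(.lf (nat_lit 579402) (.g (nat_lit 1060) (.e (nat_lit 336324) (nat_lit 18) (.e (nat_lit 204880) (nat_lit 32) (.e (nat_lit 385067) (nat_lit 26) (.e (nat_lit 532563) (nat_lit 15) .nil)))) (.g (nat_lit 0) (.e (nat_lit 374518) (nat_lit 0) .nil) .nil))))) (.nd (nat_lit 8) (.nd (nat_lit 9) 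
(.lf (nat_lit 578762) (.g (nat_lit 1087) (.e (nat_lit 336232) (nat_lit 14) (.e (nat_lit 401434) (nat_lit 9) (.e (nat_lit 426530) (nat_lit 27) (.e (nat_lit 335872) (nat_lit 0) .nil)))) (.g (nat_lit 0) (.e (nat_lit 372611) (nat_lit 0) .nil) .nil))) 
(.lf (nat_lit 579274) (.g (nat_lit 178) (.e (nat_lit 336324) (nat_lit 18) (.e (nat_lit 204835) (nat_lit 19) (.e (nat_lit 106534) (nat_lit 11) .nil))) (.g (nat_lit 0) (.e (nat_lit 374302) (nat_lit 0) .nil) .nil)))) (.nd (nat_lit 9) 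
(.lf (nat_lit 579018) (.g (nat_lit 2166) (.e (nat_lit 336291) (nat_lit 15) (.e (nat_lit 3632) (nat_lit 227) (.e (nat_lit 778324) (nat_lit 5) (.e (nat_lit 73781) (nat_lit 32) (.e (nat_lit 3090) (nat_lit 191) (.e (nat_lit 483387) (nat_lit 23) .nil)))))) (.g (nat_lit 1) (.e (nat_lit 373543) (nat_lit 0) .nil) .nil))) 
(.lf (nat_lit 579530) (.g (nat_lit 2092) (.e (nat_lit 336326) (nat_lit 18) (.e (nat_lit 204853) (nat_lit 26) (.e (nat_lit 336324) (nat_lit 18) (.e (nat_lit 204854) (nat_lit 26) (.e (nat_lit 336322) (nat_lit 18) (.e (nat_lit 204852) (nat_lit 26) .nil)))))) (.g (nat_lit 1) (.e (nat_lit 374839) (nat_lit 0) .nil) .nil))))))) (.nd (nat_lit 6) (.nd (nat_lit 7) (.nd (nat_lit 8) (.nd (nat_lit 9) 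
(.lf (nat_lit 578602) (.g (nat_lit 3043) (.e (nat_lit 336228) (nat_lit 14) (.e (nat_lit 401437) (nat_lit 9) (.e (nat_lit 426530) (nat_lit 27) (.e (nat_lit 336235) (nat_lit 14) (.e (nat_lit 401438) (nat_lit 9) (.e (nat_lit 426509) (nat_lit 27) .nil)))))) (.g (nat_lit 1) (.e (nat_lit 372028) (nat_lit 0) .nil) .nil))) 
(.lf (nat_lit 579114) (.g (nat_lit 2401) (.e (nat_lit 336316) (nat_lit 17) (.e (nat_lit 196666) (nat_lit 13) (.e (nat_lit 65617) (nat_lit 10) (.e (nat_lit 344091) (nat_lit 18) (.e (nat_lit 7695) (nat_lit 412) (.e (nat_lit 57363) (nat_lit 1) (.e (nat_lit 57847) (nat_lit 252) (.e (nat_lit 57411) (nat_lit 12) .nil)))))))) (.g (nat_lit 1) (.e (nat_lit 373791) (nat_lit 0) .nil) .nil)))) 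
(.nd (nat_lit 9) 
(.lf (nat_lit 578858) (.g (nat_lit 3639) (.e (nat_lit 336240) (nat_lit 15) (.e (nat_lit 3309) (nat_lit 202) (.e (nat_lit 573485) (nat_lit 13) (.e (nat_lit 65619) (nat_lit 10) (.e (nat_lit 344129) (nat_lit 26) (.e (nat_lit 557087) (nat_lit 11) (.e (nat_lit 32512) (nat_lit 9) .nil))))))) (.g (nat_lit 1) (.e (nat_lit 372969) (nat_lit 0) .nil) .nil))) 
(.lf (nat_lit 579370) (.g (nat_lit 2681) (.e (nat_lit 336324) (nat_lit 18) (.e (nat_lit 204854) (nat_lit 26) (.e (nat_lit 336324) (nat_lit 18) (.e (nat_lit 204852) (nat_lit 26) (.e (nat_lit 336326) (nat_lit 18) (.e (nat_lit 204853) (nat_lit 26) .nil)))))) (.g (nat_lit 1) (.e (nat_lit 374463) (nat_lit 0) .nil) .nil))))) (.nd (nat_lit 8) (.nd (nat_lit 9) 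
(.lf (nat_lit 578730) (.g (nat_lit 952) (.e (nat_lit 336231) (nat_lit 14) (.e (nat_lit 401448) (nat_lit 10) (.e (nat_lit 434202) (nat_lit 18) (.e (nat_lit 6416) (nat_lit 341) .nil)))) (.g (nat_lit 0) (.e (nat_lit 372475) (nat_lit 0) .nil) .nil))) 
(.lf (nat_lit 579242) (.g (nat_lit 3086) (.e (nat_lit 336324) (nat_lit 18) (.e (nat_lit 204831) (nat_lit 18) (.e (nat_lit 57846) (nat_lit 252) (.e (nat_lit 57406) (nat_lit 12) (.e (nat_lit 336456) (nat_lit 34) (.e (nat_lit 483379) (nat_lit 23) .nil)))))) (.g (nat_lit 1) (.e (nat_lit 374253) (nat_lit 0) .nil) .nil)))) (.nd (nat_lit 9) 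
(.lf (nat_lit 578986) (.g (nat_lit 1601) (.e (nat_lit 336306) (nat_lit 15) (.e (nat_lit 3304) (nat_lit 202) (.e (nat_lit 573484) (nat_lit 13) (.e (nat_lit 65617) (nat_lit 10) .nil)))) (.g (nat_lit 0) (.e (nat_lit 373428) (nat_lit 0) .nil) .nil))) 
(.lf (nat_lit 579498) (.g (nat_lit 3501) (.e (nat_lit 336326) (nat_lit 18) (.e (nat_lit 204831) (nat_lit 18) (.e (nat_lit 57854) (nat_lit 252) (.e (nat_lit 57378) (nat_lit 3) (.e (nat_lit 98340) (nat_lit 20) .nil))))) (.g (nat_lit 0) (.e (nat_lit 374763) (nat_lit 0) .nil) .nil)))))) (.nd (nat_lit 7) (.nd (nat_lit 8) (.nd (nat_lit 9) 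
(.lf (nat_lit 578666) (.g (nat_lit 904) (.e (nat_lit 336229) (nat_lit 14) (.e (nat_lit 401459) (nat_lit 13) (.e (nat_lit 483343) (nat_lit 17) (.e (nat_lit 6733) (nat_lit 364) .nil)))) (.g (nat_lit 0) (.e (nat_lit 372188) (nat_lit 0) .nil) .nil))) 
(.lf (nat_lit 579178) (.g (nat_lit 569) (.e (nat_lit 336322) (nat_lit 18) (.e (nat_lit 204852) (nat_lit 26) (.e (nat_lit 336326) (nat_lit 18) .nil))) (.g (nat_lit 0) (.e (nat_lit 374144) (nat_lit 0) .nil) .nil)))) (.nd (nat_lit 9) 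
(.lf (nat_lit 578922) (.g (nat_lit 1136) (.e (nat_lit 336275) (nat_lit 15) (.e (nat_lit 3632) (nat_lit 227) (.e (nat_lit 778324) (nat_lit 5) (.e (nat_lit 73781) (nat_lit 32) .nil)))) (.g (nat_lit 0) (.e (nat_lit 373206) (nat_lit 0) .nil) .nil))) 
(.lf (nat_lit 579434) (.g (nat_lit 775) (.e (nat_lit 336324) (nat_lit 18) (.e (nat_lit 204882) (nat_lit 32) (.e (nat_lit 385067) (nat_lit 26) (.e (nat_lit 532566) (nat_lit 15) .nil)))) (.g (nat_lit 0) (.e (nat_lit 374559) (nat_lit 0) .nil) .nil))))) (.nd (nat_lit 8) (.nd (nat_lit 9) 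
(.lf (nat_lit 578794) (.g (nat_lit 2859) (.e (nat_lit 336235) (nat_lit 14) (.e (nat_lit 401437) (nat_lit 9) (.e (nat_lit 426482) (nat_lit 27) (.e (nat_lit 336060) (nat_lit 7) (.e (nat_lit 327424) (nat_lit 18) (.e (nat_lit 311040) (nat_lit 27) .nil)))))) (.g (nat_lit 1) (.e (nat_lit 372762) (nat_lit 0) .nil) .nil))) 
(.lf (nat_lit 579306) (.g (nat_lit 742) (.e (nat_lit 336324) (nat_lit 18) (.e (nat_lit 204838) (nat_lit 20) (.e (nat_lit 114696) (nat_lit 11) .nil))) (.g (nat_lit 0) (.e (nat_lit 374354) (nat_lit 0) .nil) .nil)))) (.nd (nat_lit 9) 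
(.lf (nat_lit 579050) (.g (nat_lit 3211) (.e (nat_lit 336297) (nat_lit 15) (.e (nat_lit 3632) (nat_lit 227) (.e (nat_lit 778323) (nat_lit 5) (.e (nat_lit 73781) (nat_lit 32) (.e (nat_lit 3090) (nat_lit 191) (.e (nat_lit 483380) (nat_lit 23) .nil)))))) (.g (nat_lit 1) (.e (nat_lit 373608) (nat_lit 0) .nil) .nil))) 
(.lf (nat_lit 579562) (.g (nat_lit 2762) (.e (nat_lit 336326) (nat_lit 18) (.e (nat_lit 204854) (nat_lit 26) (.e (nat_lit 336326) (nat_lit 18) (.e (nat_lit 204854) (nat_lit 26) (.e (nat_lit 336263) (nat_lit 15) (.e (nat_lit 3234) (nat_lit 197) (.e (nat_lit 532530) (nat_lit 9) .nil))))))) (.g (nat_lit 1) (.e (nat_lit 374897) (nat_lit 0) .nil) .nil)))))))) 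
(.nd (nat_lit 5) (.nd (nat_lit 6) (.nd (nat_lit 7) (.nd (nat_lit 8) (.nd (nat_lit 9) 
(.lf (nat_lit 578586) (.g (nat_lit 1013) (.e (nat_lit 336228) (nat_lit 14) (.e (nat_lit 401425) (nat_lit 2) (.e (nat_lit 196668) (nat_lit 14) (.e (nat_lit 81664) (nat_lit 35) .nil)))) (.g (nat_lit 0) (.e (nat_lit 372009) (nat_lit 0) .nil) .nil))) 
(.lf (nat_lit 579098) (.g (nat_lit 3188) (.e (nat_lit 336316) (nat_lit 17) (.e (nat_lit 196666) (nat_lit 13) (.e (nat_lit 65610) (nat_lit 10) (.e (nat_lit 344088) (nat_lit 18) (.e (nat_lit 7693) (nat_lit 412) (.e (nat_lit 57368) (nat_lit 1) (.e (nat_lit 57854) (nat_lit 252) (.e (nat_lit 57406) (nat_lit 12) .nil)))))))) (.g (nat_lit 1) (.e (nat_lit 373770) (nat_lit 0) .nil) .nil)))) 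
(.nd (nat_lit 9) 
(.lf (nat_lit 578842) (.g (nat_lit 2522) (.e (nat_lit 336238) (nat_lit 15) (.e (nat_lit 3302) (nat_lit 202) (.e (nat_lit 573484) (nat_lit 13) (.e (nat_lit 65617) (nat_lit 10) .nil)))) (.g (nat_lit 0) (.e (nat_lit 372855) (nat_lit 0) .nil) .nil))) 
(.lf (nat_lit 579354) (.g (nat_lit 525) (.e (nat_lit 336324) (nat_lit 18) (.e (nat_lit 204854) (nat_lit 26) (.e (nat_lit 343808) (nat_lit 13) .nil))) (.g (nat_lit 0) (.e (nat_lit 374444) (nat_lit 0) .nil) .nil))))) (.nd (nat_lit 8) (.nd (nat_lit 9) 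
(.lf (nat_lit 578714) (.g (nat_lit 451) (.e (nat_lit 336231) (nat_lit 14) (.e (nat_lit 401444) (nat_lit 9) (.e (nat_lit 426503) (nat_lit 27) .nil))) (.g (nat_lit 0) (.e (nat_lit 372423) (nat_lit 0) .nil) .nil))) 
(.lf (nat_lit 579226) (.g (nat_lit 2792) (.e (nat_lit 336323) (nat_lit 18) (.e (nat_lit 204880) (nat_lit 32) (.e (nat_lit 385066) (nat_lit 26) (.e (nat_lit 532534) (nat_lit 9) (.e (nat_lit 336326) (nat_lit 18) (.e (nat_lit 204859) (nat_lit 26) .nil)))))) (.g (nat_lit 1) (.e (nat_lit 374220) (nat_lit 0) .nil) .nil)))) (.nd (nat_lit 9) 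
(.lf (nat_lit 578970) (.g (nat_lit 1704) (.e (nat_lit 336306) (nat_lit 15) (.e (nat_lit 3238) (nat_lit 197) (.e (nat_lit 532535) (nat_lit 9) (.e (nat_lit 336295) (nat_lit 15) .nil)))) (.g (nat_lit 0) (.e (nat_lit 373348) (nat_lit 0) .nil) .nil))) 
(.lf (nat_lit 579482) (.g (nat_lit 1955) (.e (nat_lit 336326) (nat_lit 18) (.e (nat_lit 204829) (nat_lit 18) (.e (nat_lit 57852) (nat_lit 252) (.e (nat_lit 57406) (nat_lit 12) .nil)))) (.g (nat_lit 0) (.e (nat_lit 374689) (nat_lit 0) .nil) .nil)))))) (.nd (nat_lit 7) (.nd (nat_lit 8) (.nd (nat_lit 9) 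
(.lf (nat_lit 578650) (.g (nat_lit 422) (.e (nat_lit 336229) (nat_lit 14) (.e (nat_lit 401444) (nat_lit 9) (.e (nat_lit 426163) (nat_lit 6) .nil))) (.g (nat_lit 0) (.e (nat_lit 372108) (nat_lit 0) .nil) .nil))) 
(.lf (nat_lit 579162) (.g (nat_lit 3111) (.e (nat_lit 336321) (nat_lit 18) (.e (nat_lit 204880) (nat_lit 32) (.e (nat_lit 385066) (nat_lit 26) (.e (nat_lit 532534) (nat_lit 9) (.e (nat_lit 336326) (nat_lit 18) (.e (nat_lit 204859) (nat_lit 26) .nil)))))) (.g (nat_lit 1) (.e (nat_lit 374102) (nat_lit 0) .nil) .nil)))) (.nd (nat_lit 9) 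
(.lf (nat_lit 578906) (.g (nat_lit 2043) (.e (nat_lit 336270) (nat_lit 15) (.e (nat_lit 3305) (nat_lit 202) (.e (nat_lit 573484) (nat_lit 13) (.e (nat_lit 65617) (nat_lit 10) (.e (nat_lit 344132) (nat_lit 26) .nil))))) (.g (nat_lit 0) (.e (nat_lit 373185) (nat_lit 0) .nil) .nil))) 
(.lf (nat_lit 579418) (.g (nat_lit 915) (.e (nat_lit 336324) (nat_lit 18) (.e (nat_lit 204882) (nat_lit 32) (.e (nat_lit 385065) (nat_lit 26) (.e (nat_lit 532565) (nat_lit 15) .nil)))) (.g (nat_lit 0) (.e (nat_lit 374540) (nat_lit 0) .nil) .nil))))) (.nd (nat_lit 8) (.nd (nat_lit 9) 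
(.lf (nat_lit 578778) (.g (nat_lit 2254) (.e (nat_lit 336233) (nat_lit 14) (.e (nat_lit 401459) (nat_lit 13) (.e (nat_lit 483410) (nat_lit 27) (.e (nat_lit 401438) (nat_lit 9) (.e (nat_lit 426482) (nat_lit 27) .nil))))) (.g (nat_lit 0) (.e (nat_lit 372716) (nat_lit 0) .nil) .nil))) 
(.lf (nat_lit 579290) (.g (nat_lit 3688) (.e (nat_lit 336324) (nat_lit 18) (.e (nat_lit 204837) (nat_lit 20) (.e (nat_lit 114698) (nat_lit 11) (.e (nat_lit 426139) (nat_lit 3) (.e (nat_lit 204850) (nat_lit 26) (.e (nat_lit 336089) (nat_lit 9) .nil)))))) (.g (nat_lit 1) (.e (nat_lit 374336) (nat_lit 0) .nil) .nil)))) (.nd (nat_lit 9) 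
(.lf (nat_lit 579034) (.g (nat_lit 3290) (.e (nat_lit 336295) (nat_lit 15) (.e (nat_lit 3632) (nat_lit 227) (.e (nat_lit 778324) (nat_lit 5) (.e (nat_lit 73781) (nat_lit 32) (.e (nat_lit 3090) (nat_lit 191) (.e (nat_lit 483386) (nat_lit 23) .nil)))))) (.g (nat_lit 1) (.e (nat_lit 373588) (nat_lit 0) .nil) .nil))) 
(.lf (nat_lit 579546) (.g (nat_lit 2535) (.e (nat_lit 336326) (nat_lit 18) (.e (nat_lit 204854) (nat_lit 26) (.e (nat_lit 336316) (nat_lit 17) (.e (nat_lit 196630) (nat_lit 9) (.e (nat_lit 1424) (nat_lit 108) (.e (nat_lit 336324) (nat_lit 18) (.e (nat_lit 204852) (nat_lit 26) .nil))))))) (.g (nat_lit 1) (.e (nat_lit 374873) (nat_lit 0) .nil) .nil))))))) 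
(.nd (nat_lit 6) (.nd (nat_lit 7) (.nd (nat_lit 8) (.nd (nat_lit 9) 
(.lf (nat_lit 578618) (.g (nat_lit 335) (.e (nat_lit 336228) (nat_lit 14) (.e (nat_lit 401456) (nat_lit 13) (.e (nat_lit 483372) (nat_lit 21) .nil))) (.g (nat_lit 0) (.e (nat_lit 372062) (nat_lit 0) .nil) .nil))) 
(.lf (nat_lit 579130) (.g (nat_lit 685) (.e (nat_lit 336316) (nat_lit 17) (.e (nat_lit 196666) (nat_lit 13) (.e (nat_lit 65626) (nat_lit 13) .nil))) (.g (nat_lit 0) (.e (nat_lit 373807) (nat_lit 0) .nil) .nil)))) (.nd (nat_lit 9) 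
(.lf (nat_lit 578874) (.g (nat_lit 2325) (.e (nat_lit 336260) (nat_lit 15) (.e (nat_lit 3230) (nat_lit 197) (.e (nat_lit 532501) (nat_lit 1) (.e (nat_lit 57852) (nat_lit 252) (.e (nat_lit 57406) (nat_lit 12) .nil))))) (.g (nat_lit 0) (.e (nat_lit 373096) (nat_lit 0) .nil) .nil))) 
(.lf (nat_lit 579386) (.g (nat_lit 701) (.e (nat_lit 336324) (nat_lit 18) (.e (nat_lit 204866) (nat_lit 28) (.e (nat_lit 352273) (nat_lit 11) .nil))) (.g (nat_lit 0) (.e (nat_lit 374499) (nat_lit 0) .nil) .nil))))) (.nd (nat_lit 8) (.nd (nat_lit 9) 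
(.lf (nat_lit 578746) (.g (nat_lit 480) (.e (nat_lit 336231) (nat_lit 14) (.e (nat_lit 401448) (nat_lit 10) (.e (nat_lit 442112) (nat_lit 44) .nil))) (.g (nat_lit 0) (.e (nat_lit 372518) (nat_lit 0) .nil) .nil))) 
(.lf (nat_lit 579258) (.g (nat_lit 1402) (.e (nat_lit 336324) (nat_lit 18) (.e (nat_lit 204831) (nat_lit 18) (.e (nat_lit 57851) (nat_lit 252) (.e (nat_lit 57440) (nat_lit 18) (.e (nat_lit 392960) (nat_lit 10) .nil))))) (.g (nat_lit 0) (.e (nat_lit 374271) (nat_lit 0) .nil) .nil)))) (.nd (nat_lit 9) 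
(.lf (nat_lit 579002) (.g (nat_lit 177) (.e (nat_lit 336306) (nat_lit 15) (.e (nat_lit 3308) (nat_lit 202) (.e (nat_lit 573491) (nat_lit 15) .nil))) (.g (nat_lit 0) (.e (nat_lit 373488) (nat_lit 0) .nil) .nil))) 
(.lf (nat_lit 579514) (.g (nat_lit 2406) (.e (nat_lit 336326) (nat_lit 18) (.e (nat_lit 204852) (nat_lit 26) (.e (nat_lit 336326) (nat_lit 18) (.e (nat_lit 204854) (nat_lit 26) (.e (nat_lit 336243) (nat_lit 15) .nil))))) (.g (nat_lit 0) (.e (nat_lit 374820) (nat_lit 0) .nil) .nil)))))) (.nd (nat_lit 7) (.nd (nat_lit 8) (.nd (nat_lit 9) 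
(.lf (nat_lit 578682) (.g (nat_lit 2278) (.e (nat_lit 336230) (nat_lit 14) (.e (nat_lit 401446) (nat_lit 10) (.e (nat_lit 434289) (nat_lit 43) (.e (nat_lit 696330) (nat_lit 5) (.e (nat_lit 3004) (nat_lit 186) (.e (nat_lit 442390) (nat_lit 11) .nil)))))) (.g (nat_lit 1) (.e (nat_lit 372283) (nat_lit 0) .nil) .nil))) 
(.lf (nat_lit 579194) (.g (nat_lit 1746) (.e (nat_lit 336322) (nat_lit 18) (.e (nat_lit 204880) (nat_lit 32) (.e (nat_lit 385068) (nat_lit 26) (.e (nat_lit 532534) (nat_lit 9) (.e (nat_lit 336324) (nat_lit 18) .nil))))) (.g (nat_lit 0) (.e (nat_lit 374173) (nat_lit 0) .nil) .nil)))) (.nd (nat_lit 9) 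
(.lf (nat_lit 578938) (.g (nat_lit 1365) (.e (nat_lit 336285) (nat_lit 15) (.e (nat_lit 3253) (nat_lit 197) (.e (nat_lit 532503) (nat_lit 1) (.e (nat_lit 57848) (nat_lit 252) .nil)))) (.g (nat_lit 0) (.e (nat_lit 373241) (nat_lit 0) .nil) .nil))) 
(.lf (nat_lit 579450) (.g (nat_lit 2841) (.e (nat_lit 336325) (nat_lit 18) (.e (nat_lit 204837) (nat_lit 20) (.e (nat_lit 114698) (nat_lit 11) (.e (nat_lit 426123) (nat_lit 2) (.e (nat_lit 196662) (nat_lit 13) .nil))))) (.g (nat_lit 0) (.e (nat_lit 374590) (nat_lit 0) .nil) .nil))))) (.nd (nat_lit 8) (.nd (nat_lit 9) 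
(.lf (nat_lit 578810) (.g (nat_lit 2325) (.e (nat_lit 336235) (nat_lit 14) (.e (nat_lit 401456) (nat_lit 13) (.e (nat_lit 483386) (nat_lit 23) (.e (nat_lit 336282) (nat_lit 15) (.e (nat_lit 3748) (nat_lit 228) .nil))))) (.g (nat_lit 0) (.e (nat_lit 372799) (nat_lit 0) .nil) .nil))) 
(.lf (nat_lit 579322) (.g (nat_lit 350) (.e (nat_lit 336324) (nat_lit 18) (.e (nat_lit 204838) (nat_lit 20) (.e (nat_lit 122624) (nat_lit 11) .nil))) (.g (nat_lit 0) (.e (nat_lit 374385) (nat_lit 0) .nil) .nil)))) (.nd (nat_lit 9) 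
(.lf (nat_lit 579066) (.g (nat_lit 3781) (.e (nat_lit 336301) (nat_lit 15) (.e (nat_lit 3632) (nat_lit 227) (.e (nat_lit 778323) (nat_lit 5) (.e (nat_lit 73781) (nat_lit 32) (.e (nat_lit 3090) (nat_lit 191) (.e (nat_lit 483380) (nat_lit 23) .nil)))))) (.g (nat_lit 1) (.e (nat_lit 373633) (nat_lit 0) .nil) .nil))) 
(.lf (nat_lit 579578) (.g (nat_lit 2556) (.e (nat_lit 336326) (nat_lit 18) (.e (nat_lit 204862) (nat_lit 27) (.e (nat_lit 344129) (nat_lit 26) (.e (nat_lit 557097) (nat_lit 13) (.e (nat_lit 179968) (nat_lit 15) .nil))))) (.g (nat_lit 0) (.e (nat_lit 374931) (nat_lit 0) .nil) .nil)))))))))) 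
(.nd (nat_lit 3) (.nd (nat_lit 4) (.nd (nat_lit 5) (.nd (nat_lit 6) (.nd (nat_lit 7) 
(.nd (nat_lit 8) (.nd (nat_lit 9) 
(.lf (nat_lit 578566) (.g (nat_lit 3259) (.e (nat_lit 336226) (nat_lit 14) (.e (nat_lit 401459) (nat_lit 13) (.e (nat_lit 483410) (nat_lit 27) (.e (nat_lit 401438) (nat_lit 9) (.e (nat_lit 426482) (nat_lit 27) .nil))))) (.g (nat_lit 1) (.e (nat_lit 371976) (nat_lit 0) .nil) .nil))) 
(.lf (nat_lit 579078) (.g (nat_lit 2931) (.e (nat_lit 336310) (nat_lit 16) (.e (nat_lit 164179) (nat_lit 154) (.e (nat_lit 57379) (nat_lit 3) (.e (nat_lit 98334) (nat_lit 18) (.e (nat_lit 164305) (nat_lit 226) .nil))))) (.g (nat_lit 0) (.e (nat_lit 373690) (nat_lit 0) .nil) .nil)))) (.nd (nat_lit 9) 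
(.lf (nat_lit 578822) (.g (nat_lit 3610) (.e (nat_lit 336235) (nat_lit 14) (.e (nat_lit 401459) (nat_lit 13) (.e (nat_lit 483372) (nat_lit 21) (.e (nat_lit 319503) (nat_lit 10) .nil)))) (.g (nat_lit 0) (.e (nat_lit 372815) (nat_lit 0) .nil) .nil))) 
(.lf (nat_lit 579334) (.g (nat_lit 2181) (.e (nat_lit 336324) (nat_lit 18) (.e (nat_lit 204852) (nat_lit 26) (.e (nat_lit 336324) (nat_lit 18) (.e (nat_lit 204852) (nat_lit 26) (.e (nat_lit 336316) (nat_lit 17) (.e (nat_lit 196630) (nat_lit 9) (.e (nat_lit 1433) (nat_lit 108) .nil))))))) (.g (nat_lit 1) (.e (nat_lit 374400) (nat_lit 0) .nil) .nil))))) (.nd (nat_lit 8) (.nd (nat_lit 9) 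
(.lf (nat_lit 578694) (.g (nat_lit 1508) (.e (nat_lit 336230) (nat_lit 14) (.e (nat_lit 401448) (nat_lit 10) (.e (nat_lit 434289) (nat_lit 43) (.e (nat_lit 696343) (nat_lit 8) .nil)))) (.g (nat_lit 0) (.e (nat_lit 372346) (nat_lit 0) .nil) .nil))) 
(.lf (nat_lit 579206) (.g (nat_lit 1302) (.e (nat_lit 336323) (nat_lit 18) (.e (nat_lit 204830) (nat_lit 18) (.e (nat_lit 57854) (nat_lit 252) (.e (nat_lit 57406) (nat_lit 12) (.e (nat_lit 336367) (nat_lit 27) .nil))))) (.g (nat_lit 0) (.e (nat_lit 374185) (nat_lit 0) .nil) .nil)))) (.nd (nat_lit 9) 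
(.lf (nat_lit 578950) (.g (nat_lit 1488) (.e (nat_lit 336303) (nat_lit 15) (.e (nat_lit 3252) (nat_lit 197) (.e (nat_lit 532501) (nat_lit 1) (.e (nat_lit 57851) (nat_lit 252) (.e (nat_lit 57446) (nat_lit 19) .nil))))) (.g (nat_lit 0) (.e (nat_lit 373270) (nat_lit 0) .nil) .nil))) 
(.lf (nat_lit 579462) (.g (nat_lit 1809) (.e (nat_lit 336325) (nat_lit 18) (.e (nat_lit 204838) (nat_lit 20) (.e (nat_lit 114698) (nat_lit 11) (.e (nat_lit 426138) (nat_lit 3) (.e (nat_lit 204858) (nat_lit 26) .nil))))) (.g (nat_lit 0) (.e (nat_lit 374622) (nat_lit 0) .nil) .nil)))))) (.nd (nat_lit 7) (.nd (nat_lit 8) (.nd (nat_lit 9) 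
(.lf (nat_lit 578630) (.g (nat_lit 3590) (.e (nat_lit 336228) (nat_lit 14) (.e (nat_lit 401457) (nat_lit 13) (.e (nat_lit 483412) (nat_lit 27) (.e (nat_lit 401437) (nat_lit 9) (.e (nat_lit 426509) (nat_lit 27) .nil))))) (.g (nat_lit 1) (.e (nat_lit 372077) (nat_lit 0) .nil) .nil))) 
(.lf (nat_lit 579142) (.g (nat_lit 3006) (.e (nat_lit 336316) (nat_lit 17) (.e (nat_lit 196670) (nat_lit 14) (.e (nat_lit 73754) (nat_lit 8) (.e (nat_lit 557100) (nat_lit 13) (.e (nat_lit 179968) (nat_lit 15) .nil))))) (.g (nat_lit 0) (.e (nat_lit 373929) (nat_lit 0) .nil) .nil)))) (.nd (nat_lit 9) 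
(.lf (nat_lit 578886) (.g (nat_lit 1881) (.e (nat_lit 336263) (nat_lit 15) (.e (nat_lit 3253) (nat_lit 197) (.e (nat_lit 532504) (nat_lit 1) (.e (nat_lit 57854) (nat_lit 252) (.e (nat_lit 57445) (nat_lit 19) .nil))))) (.g (nat_lit 0) (.e (nat_lit 373148) (nat_lit 0) .nil) .nil))) 
(.lf (nat_lit 579398) (.g (nat_lit 1670) (.e (nat_lit 336324) (nat_lit 18) (.e (nat_lit 204880) (nat_lit 32) (.e (nat_lit 385066) (nat_lit 26) (.e (nat_lit 532533) (nat_lit 9) (.e (nat_lit 336325) (nat_lit 18) .nil))))) (.g (nat_lit 0) (.e (nat_lit 374514) (nat_lit 0) .nil) .nil))))) (.nd (nat_lit 8) (.nd (nat_lit 9) 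
(.lf (nat_lit 578758) (.g (nat_lit 1872) (.e (nat_lit 336232) (nat_lit 14) (.e (nat_lit 401432) (nat_lit 7) (.e (nat_lit 409646) (nat_lit 18) (.e (nat_lit 303137) (nat_lit 10) .nil)))) (.g (nat_lit 0) (.e (nat_lit 372596) (nat_lit 0) .nil) .nil))) 
(.lf (nat_lit 579270) (.g (nat_lit 2657) (.e (nat_lit 336324) (nat_lit 18) (.e (nat_lit 204831) (nat_lit 18) (.e (nat_lit 57854) (nat_lit 252) (.e (nat_lit 57409) (nat_lit 12) (.e (nat_lit 336377) (nat_lit 27) .nil))))) (.g (nat_lit 0) (.e (nat_lit 374293) (nat_lit 0) .nil) .nil)))) (.nd (nat_lit 9) 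
(.lf (nat_lit 579014) (.g (nat_lit 2353) (.e (nat_lit 336291) (nat_lit 15) (.e (nat_lit 3632) (nat_lit 227) (.e (nat_lit 778317) (nat_lit 3) (.e (nat_lit 57476) (nat_lit 28) (.e (nat_lit 557095) (nat_lit 13) .nil))))) (.g (nat_lit 0) (.e (nat_lit 373539) (nat_lit 0) .nil) .nil))) 
(.lf (nat_lit 579526) (.g (nat_lit 2744) (.e (nat_lit 336326) (nat_lit 18) (.e (nat_lit 204852) (nat_lit 26) (.e (nat_lit 336326) (nat_lit 18) (.e (nat_lit 204854) (nat_lit 26) (.e (nat_lit 336308) (nat_lit 15) (.e (nat_lit 3234) (nat_lit 197) (.e (nat_lit 532530) (nat_lit 9) .nil))))))) (.g (nat_lit 1) (.e (nat_lit 374833) (nat_lit 0) .nil) .nil))))))) 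
(.nd (nat_lit 6) (.nd (nat_lit 7) (.nd (nat_lit 8) (.nd (nat_lit 9) 
(.lf (nat_lit 578598) (.g (nat_lit 1331) (.e (nat_lit 336228) (nat_lit 14) (.e (nat_lit 401437) (nat_lit 9) (.e (nat_lit 426482) (nat_lit 27) (.e (nat_lit 336060) (nat_lit 7) .nil)))) (.g (nat_lit 0) (.e (nat_lit 372024) (nat_lit 0) .nil) .nil))) 
(.lf (nat_lit 579110) (.g (nat_lit 2283) (.e (nat_lit 336316) (nat_lit 17) (.e (nat_lit 196666) (nat_lit 13) (.e (nat_lit 65617) (nat_lit 10) (.e (nat_lit 344088) (nat_lit 18) (.e (nat_lit 7695) (nat_lit 412) (.e (nat_lit 57363) (nat_lit 1) (.e (nat_lit 57847) (nat_lit 252) (.e (nat_lit 57407) (nat_lit 12) .nil)))))))) (.g (nat_lit 1) (.e (nat_lit 373787) (nat_lit 0) .nil) .nil)))) 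
(.nd (nat_lit 9) 
(.lf (nat_lit 578854) (.g (nat_lit 2560) (.e (nat_lit 336240) (nat_lit 15) (.e (nat_lit 3309) (nat_lit 202) (.e (nat_lit 573484) (nat_lit 13) (.e (nat_lit 65610) (nat_lit 10) (.e (nat_lit 344129) (nat_lit 26) (.e (nat_lit 557087) (nat_lit 11) (.e (nat_lit 32512) (nat_lit 9) .nil))))))) (.g (nat_lit 1) (.e (nat_lit 372950) (nat_lit 0) .nil) .nil))) 
(.lf (nat_lit 579366) (.g (nat_lit 385) (.e (nat_lit 336324) (nat_lit 18) (.e (nat_lit 204854) (nat_lit 26) (.e (nat_lit 336324) (nat_lit 18) .nil))) (.g (nat_lit 0) (.e (nat_lit 374458) (nat_lit 0) .nil) .nil))))) (.nd (nat_lit 8) (.nd (nat_lit 9) 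
(.lf (nat_lit 578726) (.g (nat_lit 397) (.e (nat_lit 336231) (nat_lit 14) (.e (nat_lit 401446) (nat_lit 10) (.e (nat_lit 434289) (nat_lit 43) .nil))) (.g (nat_lit 0) (.e (nat_lit 372462) (nat_lit 0) .nil) .nil))) 
(.lf (nat_lit 579238) (.g (nat_lit 1707) (.e (nat_lit 336324) (nat_lit 18) (.e (nat_lit 204830) (nat_lit 18) (.e (nat_lit 57852) (nat_lit 252) (.e (nat_lit 57409) (nat_lit 12) (.e (nat_lit 336379) (nat_lit 27) .nil))))) (.g (nat_lit 0) (.e (nat_lit 374242) (nat_lit 0) .nil) .nil)))) (.nd (nat_lit 9) 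
(.lf (nat_lit 578982) (.g (nat_lit 851) (.e (nat_lit 336306) (nat_lit 15) (.e (nat_lit 3297) (nat_lit 202) (.e (nat_lit 573492) (nat_lit 15) (.e (nat_lit 81953) (nat_lit 22) .nil)))) (.g (nat_lit 0) (.e (nat_lit 373388) (nat_lit 0) .nil) .nil))) 
(.lf (nat_lit 579494) (.g (nat_lit 291) (.e (nat_lit 336326) (nat_lit 18) (.e (nat_lit 204831) (nat_lit 18) (.e (nat_lit 57852) (nat_lit 252) .nil))) (.g (nat_lit 0) (.e (nat_lit 374735) (nat_lit 0) .nil) .nil)))))) (.nd (nat_lit 7) (.nd (nat_lit 8) (.nd (nat_lit 9) 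
(.lf (nat_lit 578662) (.g (nat_lit 1725) (.e (nat_lit 336229) (nat_lit 14) (.e (nat_lit 401458) (nat_lit 13) (.e (nat_lit 483372) (nat_lit 21) (.e (nat_lit 319504) (nat_lit 10) (.e (nat_lit 7936) (nat_lit 312) .nil))))) (.g (nat_lit 0) (.e (nat_lit 372169) (nat_lit 0) .nil) .nil))) 
(.lf (nat_lit 579174) (.g (nat_lit 1417) (.e (nat_lit 336322) (nat_lit 18) (.e (nat_lit 204852) (nat_lit 26) (.e (nat_lit 336324) (nat_lit 18) (.e (nat_lit 204853) (nat_lit 26) (.e (nat_lit 336324) (nat_lit 18) .nil))))) (.g (nat_lit 0) (.e (nat_lit 374137) (nat_lit 0) .nil) .nil)))) (.nd (nat_lit 9) 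
(.lf (nat_lit 578918) (.g (nat_lit 1916) (.e (nat_lit 336275) (nat_lit 15) (.e (nat_lit 3253) (nat_lit 197) (.e (nat_lit 532504) (nat_lit 1) (.e (nat_lit 57854) (nat_lit 252) (.e (nat_lit 57409) (nat_lit 12) .nil))))) (.g (nat_lit 0) (.e (nat_lit 373202) (nat_lit 0) .nil) .nil))) 
(.lf (nat_lit 579430) (.g (nat_lit 1759) (.e (nat_lit 336324) (nat_lit 18) (.e (nat_lit 204882) (nat_lit 32) (.e (nat_lit 385066) (nat_lit 26) (.e (nat_lit 532533) (nat_lit 9) (.e (nat_lit 336325) (nat_lit 18) .nil))))) (.g (nat_lit 0) (.e (nat_lit 374552) (nat_lit 0) .nil) .nil))))) (.nd (nat_lit 8) (.nd (nat_lit 9) 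
(.lf (nat_lit 578790) (.g (nat_lit 3643) (.e (nat_lit 336235) (nat_lit 14) (.e (nat_lit 401428) (nat_lit 3) (.e (nat_lit 204869) (nat_lit 29) (.e (nat_lit 360475) (nat_lit 8) (.e (nat_lit 557065) (nat_lit 9) .nil))))) (.g (nat_lit 0) (.e (nat_lit 372757) (nat_lit 0) .nil) .nil))) 
(.lf (nat_lit 579302) (.g (nat_lit 2489) (.e (nat_lit 336324) (nat_lit 18) (.e (nat_lit 204838) (nat_lit 20) (.e (nat_lit 114694) (nat_lit 11) (.e (nat_lit 426116) (nat_lit 2) (.e (nat_lit 196681) (nat_lit 17) (.e (nat_lit 131105) (nat_lit 9) .nil)))))) (.g (nat_lit 1) (.e (nat_lit 374348) (nat_lit 0) .nil) .nil)))) (.nd (nat_lit 9) 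
(.lf (nat_lit 579046) (.g (nat_lit 2206) (.e (nat_lit 336294) (nat_lit 15) (.e (nat_lit 3304) (nat_lit 202) (.e (nat_lit 573484) (nat_lit 13) (.e (nat_lit 65617) (nat_lit 10) (.e (nat_lit 344130) (nat_lit 26) .nil))))) (.g (nat_lit 0) (.e (nat_lit 373602) (nat_lit 0) .nil) .nil))) 
(.lf (nat_lit 579558) (.g (nat_lit 2568) (.e (nat_lit 336326) (nat_lit 18) (.e (nat_lit 204854) (nat_lit 26) (.e (nat_lit 336326) (nat_lit 18) (.e (nat_lit 204854) (nat_lit 26) (.e (nat_lit 336261) (nat_lit 15) .nil))))) (.g (nat_lit 0) (.e (nat_lit 374893) (nat_lit 0) .nil) .nil)))))))) (.nd (nat_lit 5) (.nd (nat_lit 6) (.nd (nat_lit 7) (.nd (nat_lit 8) (.nd (nat_lit 9) 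
(.lf (nat_lit 578582) (.g (nat_lit 3739) (.e (nat_lit 336228) (nat_lit 14) (.e (nat_lit 401425) (nat_lit 2) (.e (nat_lit 196666) (nat_lit 13) (.e (nat_lit 65628) (nat_lit 14) (.e (nat_lit 401428) (nat_lit 3) (.e (nat_lit 204850) (nat_lit 26) .nil)))))) (.g (nat_lit 1) (.e (nat_lit 372004) (nat_lit 0) .nil) .nil))) 
(.lf (nat_lit 579094) (.g (nat_lit 2630) (.e (nat_lit 336310) (nat_lit 16) (.e (nat_lit 164183) (nat_lit 154) (.e (nat_lit 57379) (nat_lit 3) (.e (nat_lit 98334) (nat_lit 18) (.e (nat_lit 164330) (nat_lit 230) .nil))))) (.g (nat_lit 0) (.e (nat_lit 373708) (nat_lit 0) .nil) .nil)))) (.nd (nat_lit 9) 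
(.lf (nat_lit 578838) (.g (nat_lit 3789) (.e (nat_lit 343808) (nat_lit 14) (.e (nat_lit 401459) (nat_lit 13) (.e (nat_lit 483372) (nat_lit 21) (.e (nat_lit 319500) (nat_lit 10) .nil)))) (.g (nat_lit 0) (.e (nat_lit 372845) (nat_lit 0) .nil) .nil))) 
(.lf (nat_lit 579350) (.g (nat_lit 1885) (.e (nat_lit 336324) (nat_lit 18) (.e (nat_lit 204854) (nat_lit 26) (.e (nat_lit 336019) (nat_lit 3) (.e (nat_lit 98341) (nat_lit 20) .nil)))) (.g (nat_lit 0) (.e (nat_lit 374439) (nat_lit 0) .nil) .nil))))) (.nd (nat_lit 8) (.nd (nat_lit 9) 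
(.lf (nat_lit 578710) (.g (nat_lit 726) (.e (nat_lit 336231) (nat_lit 14) (.e (nat_lit 401437) (nat_lit 9) (.e (nat_lit 426535) (nat_lit 28) .nil))) (.g (nat_lit 0) (.e (nat_lit 372413) (nat_lit 0) .nil) .nil))) 
(.lf (nat_lit 579222) (.g (nat_lit 2129) (.e (nat_lit 336323) (nat_lit 18) (.e (nat_lit 204852) (nat_lit 26) (.e (nat_lit 336326) (nat_lit 18) (.e (nat_lit 204880) (nat_lit 32) (.e (nat_lit 385057) (nat_lit 22) .nil))))) (.g (nat_lit 0) (.e (nat_lit 374203) (nat_lit 0) .nil) .nil)))) (.nd (nat_lit 9) 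
(.lf (nat_lit 578966) (.g (nat_lit 1872) (.e (nat_lit 336306) (nat_lit 15) (.e (nat_lit 3238) (nat_lit 197) (.e (nat_lit 532504) (nat_lit 1) (.e (nat_lit 57852) (nat_lit 252) (.e (nat_lit 57406) (nat_lit 12) .nil))))) (.g (nat_lit 0) (.e (nat_lit 373326) (nat_lit 0) .nil) .nil))) 
(.lf (nat_lit 579478) (.g (nat_lit 1217) (.e (nat_lit 336325) (nat_lit 18) (.e (nat_lit 204880) (nat_lit 32) (.e (nat_lit 385068) (nat_lit 26) .nil))) (.g (nat_lit 0) (.e (nat_lit 374664) (nat_lit 0) .nil) .nil)))))) (.nd (nat_lit 7) (.nd (nat_lit 8) (.nd (nat_lit 9) 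
(.lf (nat_lit 578646) (.g (nat_lit 3213) (.e (nat_lit 336228) (nat_lit 14) (.e (nat_lit 401459) (nat_lit 13) (.e (nat_lit 483410) (nat_lit 27) (.e (nat_lit 401437) (nat_lit 9) (.e (nat_lit 426482) (nat_lit 27) .nil))))) (.g (nat_lit 1) (.e (nat_lit 372099) (nat_lit 0) .nil) .nil))) 
(.lf (nat_lit 579158) (.g (nat_lit 1589) (.e (nat_lit 336321) (nat_lit 18) (.e (nat_lit 204838) (nat_lit 20) (.e (nat_lit 114697) (nat_lit 11) (.e (nat_lit 426137) (nat_lit 3) (.e (nat_lit 204859) (nat_lit 26) .nil))))) (.g (nat_lit 0) (.e (nat_lit 374079) (nat_lit 0) .nil) .nil)))) (.nd (nat_lit 9) 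
(.lf (nat_lit 578902) (.g (nat_lit 1578) (.e (nat_lit 336270) (nat_lit 15) (.e (nat_lit 3253) (nat_lit 197) (.e (nat_lit 532503) (nat_lit 1) (.e (nat_lit 57849) (nat_lit 252) .nil)))) (.g (nat_lit 0) (.e (nat_lit 373180) (nat_lit 0) .nil) .nil))) 
(.lf (nat_lit 579414) (.g (nat_lit 2160) (.e (nat_lit 336324) (nat_lit 18) (.e (nat_lit 204882) (nat_lit 32) (.e (nat_lit 385065) (nat_lit 26) (.e (nat_lit 532530) (nat_lit 9) (.e (nat_lit 336316) (nat_lit 17) (.e (nat_lit 196630) (nat_lit 9) (.e (nat_lit 1433) (nat_lit 108) .nil))))))) (.g (nat_lit 1) (.e (nat_lit 374534) (nat_lit 0) .nil) .nil))))) (.nd (nat_lit 8) (.nd (nat_lit 9) 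
(.lf (nat_lit 578774) (.g (nat_lit 2401) (.e (nat_lit 336232) (nat_lit 14) (.e (nat_lit 401448) (nat_lit 10) (.e (nat_lit 434288) (nat_lit 43) (.e (nat_lit 696346) (nat_lit 10) (.e (nat_lit 188421) (nat_lit 11) .nil))))) (.g (nat_lit 1) (.e (nat_lit 372675) (nat_lit 0) .nil) .nil))) 
(.lf (nat_lit 579286) (.g (nat_lit 1765) (.e (nat_lit 336324) (nat_lit 18) (.e (nat_lit 204837) (nat_lit 20) (.e (nat_lit 114698) (nat_lit 11) (.e (nat_lit 426137) (nat_lit 3) (.e (nat_lit 204852) (nat_lit 26) .nil))))) (.g (nat_lit 0) (.e (nat_lit 374331) (nat_lit 0) .nil) .nil)))) (.nd (nat_lit 9) 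
(.lf (nat_lit 579030) (.g (nat_lit 4676) (.e (nat_lit 336295) (nat_lit 15) (.e (nat_lit 3305) (nat_lit 202) (.e (nat_lit 573485) (nat_lit 13) (.e (nat_lit 65619) (nat_lit 10) (.e (nat_lit 344129) (nat_lit 26) (.e (nat_lit 557087) (nat_lit 11) (.e (nat_lit 24634) (nat_lit 9) .nil))))))) (.g (nat_lit 1) (.e (nat_lit 373578) (nat_lit 0) .nil) .nil))) 
(.lf (nat_lit 579542) (.g (nat_lit 825) (.e (nat_lit 336326) (nat_lit 18) (.e (nat_lit 204854) (nat_lit 26) (.e (nat_lit 336315) (nat_lit 17) .nil))) (.g (nat_lit 0) (.e (nat_lit 374868) (nat_lit 0) .nil) .nil))))))) (.nd (nat_lit 6) (.nd (nat_lit 7) (.nd (nat_lit 8) (.nd (nat_lit 9) 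
(.lf (nat_lit 578614) (.g (nat_lit 3332) (.e (nat_lit 336228) (nat_lit 14) (.e (nat_lit 401438) (nat_lit 9) (.e (nat_lit 426530) (nat_lit 27) (.e (nat_lit 336235) (nat_lit 14) (.e (nat_lit 401438) (nat_lit 9) (.e (nat_lit 426509) (nat_lit 27) .nil)))))) (.g (nat_lit 1) (.e (nat_lit 372045) (nat_lit 0) .nil) .nil))) 
(.lf (nat_lit 579126) (.g (nat_lit 4022) (.e (nat_lit 336316) (nat_lit 17) (.e (nat_lit 196666) (nat_lit 13) (.e (nat_lit 65617) (nat_lit 10) (.e (nat_lit 344096) (nat_lit 18) (.e (nat_lit 7695) (nat_lit 412) (.e (nat_lit 57365) (nat_lit 1) (.e (nat_lit 57854) (nat_lit 252) (.e (nat_lit 57406) (nat_lit 12) .nil)))))))) (.g (nat_lit 1) (.e (nat_lit 373803) (nat_lit 0) .nil) .nil)))) 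
(.nd (nat_lit 9) 
(.lf (nat_lit 578870) (.g (nat_lit 1880) (.e (nat_lit 336261) (nat_lit 15) (.e (nat_lit 3304) (nat_lit 202) (.e (nat_lit 573484) (nat_lit 13) (.e (nat_lit 65617) (nat_lit 10) (.e (nat_lit 344130) (nat_lit 26) .nil))))) (.g (nat_lit 0) (.e (nat_lit 373082) (nat_lit 0) .nil) .nil))) 
(.lf (nat_lit 579382) (.g (nat_lit 2972) (.e (nat_lit 336324) (nat_lit 18) (.e (nat_lit 204854) (nat_lit 26) (.e (nat_lit 336326) (nat_lit 18) (.e (nat_lit 204854) (nat_lit 26) (.e (nat_lit 336316) (nat_lit 17) (.e (nat_lit 196630) (nat_lit 9) (.e (nat_lit 1433) (nat_lit 108) .nil))))))) (.g (nat_lit 1) (.e (nat_lit 374491) (nat_lit 0) .nil) .nil))))) (.nd (nat_lit 8) (.nd (nat_lit 9) 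
(.lf (nat_lit 578742) (.g (nat_lit 2377) (.e (nat_lit 336231) (nat_lit 14) (.e (nat_lit 401448) (nat_lit 10) (.e (nat_lit 434286) (nat_lit 42) (.e (nat_lit 688139) (nat_lit 5) (.e (nat_lit 2887) (nat_lit 184) (.e (nat_lit 426217) (nat_lit 9) (.e (nat_lit 426528) (nat_lit 27) .nil))))))) (.g (nat_lit 1) (.e (nat_lit 372511) (nat_lit 0) .nil) .nil))) 
(.lf (nat_lit 579254) (.g (nat_lit 1792) (.e (nat_lit 336324) (nat_lit 18) (.e (nat_lit 204831) (nat_lit 18) (.e (nat_lit 57851) (nat_lit 252) (.e (nat_lit 57406) (nat_lit 12) (.e (nat_lit 336375) (nat_lit 27) .nil))))) (.g (nat_lit 0) (.e (nat_lit 374267) (nat_lit 0) .nil) .nil)))) (.nd (nat_lit 9) 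
(.lf (nat_lit 578998) (.g (nat_lit 1442) (.e (nat_lit 336306) (nat_lit 15) (.e (nat_lit 3308) (nat_lit 202) (.e (nat_lit 573482) (nat_lit 13) (.e (nat_lit 65615) (nat_lit 10) .nil)))) (.g (nat_lit 0) (.e (nat_lit 373474) (nat_lit 0) .nil) .nil))) 
(.lf (nat_lit 579510) (.g (nat_lit 333) (.e (nat_lit 336326) (nat_lit 18) (.e (nat_lit 204838) (nat_lit 20) (.e (nat_lit 114698) (nat_lit 11) .nil))) (.g (nat_lit 0) (.e (nat_lit 374796) (nat_lit 0) .nil) .nil)))))) (.nd (nat_lit 7) (.nd (nat_lit 8) (.nd (nat_lit 9) 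
(.lf (nat_lit 578678) (.g (nat_lit 2150) (.e (nat_lit 336230) (nat_lit 14) (.e (nat_lit 401446) (nat_lit 10) (.e (nat_lit 434289) (nat_lit 43) (.e (nat_lit 696328) (nat_lit 5) (.e (nat_lit 3004) (nat_lit 186) (.e (nat_lit 442390) (nat_lit 11) .nil)))))) (.g (nat_lit 1) (.e (nat_lit 372279) (nat_lit 0) .nil) .nil))) 
(.lf (nat_lit 579190) (.g (nat_lit 1831) (.e (nat_lit 336322) (nat_lit 18) (.e (nat_lit 204880) (nat_lit 32) (.e (nat_lit 385066) (nat_lit 26) (.e (nat_lit 532534) (nat_lit 9) (.e (nat_lit 336324) (nat_lit 18) .nil))))) (.g (nat_lit 0) (.e (nat_lit 374169) (nat_lit 0) .nil) .nil)))) (.nd (nat_lit 9) 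
(.lf (nat_lit 578934) (.g (nat_lit 2041) (.e (nat_lit 336277) (nat_lit 15) (.e (nat_lit 3632) (nat_lit 227) (.e (nat_lit 778324) (nat_lit 5) (.e (nat_lit 73781) (nat_lit 32) (.e (nat_lit 3089) (nat_lit 191) (.e (nat_lit 483391) (nat_lit 23) .nil)))))) (.g (nat_lit 1) (.e (nat_lit 373226) (nat_lit 0) .nil) .nil))) 
(.lf (nat_lit 579446) (.g (nat_lit 2165) (.e (nat_lit 336324) (nat_lit 18) (.e (nat_lit 204882) (nat_lit 32) (.e (nat_lit 385068) (nat_lit 26) (.e (nat_lit 532534) (nat_lit 9) (.e (nat_lit 336326) (nat_lit 18) (.e (nat_lit 204854) (nat_lit 26) .nil)))))) (.g (nat_lit 1) (.e (nat_lit 374571) (nat_lit 0) .nil) .nil))))) (.nd (nat_lit 8) (.nd (nat_lit 9) 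
(.lf (nat_lit 578806) (.g (nat_lit 599) (.e (nat_lit 336235) (nat_lit 14) (.e (nat_lit 401444) (nat_lit 9) (.e (nat_lit 426552) (nat_lit 32) .nil))) (.g (nat_lit 0) (.e (nat_lit 372781) (nat_lit 0) .nil) .nil))) 
(.lf (nat_lit 579318) (.g (nat_lit 2574) (.e (nat_lit 336324) (nat_lit 18) (.e (nat_lit 204838) (nat_lit 20) (.e (nat_lit 114698) (nat_lit 11) (.e (nat_lit 426138) (nat_lit 3) (.e (nat_lit 204861) (nat_lit 26) (.e (nat_lit 336074) (nat_lit 9) .nil)))))) (.g (nat_lit 1) (.e (nat_lit 374379) (nat_lit 0) .nil) .nil)))) (.nd (nat_lit 9) 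
(.lf (nat_lit 579062) (.g (nat_lit 400) (.e (nat_lit 336300) (nat_lit 15) (.e (nat_lit 3632) (nat_lit 227) (.e (nat_lit 778323) (nat_lit 5) .nil))) (.g (nat_lit 0) (.e (nat_lit 373627) (nat_lit 0) .nil) .nil))) 
(.lf (nat_lit 579574) (.g (nat_lit 2827) (.e (nat_lit 336326) (nat_lit 18) (.e (nat_lit 204859) (nat_lit 26) (.e (nat_lit 336323) (nat_lit 18) (.e (nat_lit 204880) (nat_lit 32) (.e (nat_lit 385066) (nat_lit 26) (.e (nat_lit 532530) (nat_lit 9) .nil)))))) (.g (nat_lit 1) (.e (nat_lit 374918) (nat_lit 0) .nil) .nil))))))))) 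
(.nd (nat_lit 4) (.nd (nat_lit 5) (.nd (nat_lit 6) (.nd (nat_lit 7) (.nd (nat_lit 8) 
(.nd (nat_lit 9) 
(.lf (nat_lit 578574) (.g (nat_lit 3719) (.e (nat_lit 336227) (nat_lit 14) (.e (nat_lit 401459) (nat_lit 13) (.e (nat_lit 483410) (nat_lit 27) (.e (nat_lit 401438) (nat_lit 9) (.e (nat_lit 426482) (nat_lit 27) .nil))))) (.g (nat_lit 1) (.e (nat_lit 371996) (nat_lit 0) .nil) .nil))) 
(.lf (nat_lit 579086) (.g (nat_lit 1464) (.e (nat_lit 336310) (nat_lit 16) (.e (nat_lit 164183) (nat_lit 154) (.e (nat_lit 57378) (nat_lit 3) (.e (nat_lit 98333) (nat_lit 18) .nil)))) (.g (nat_lit 0) (.e (nat_lit 373699) (nat_lit 0) .nil) .nil)))) (.nd (nat_lit 9) 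
(.lf (nat_lit 578830) (.g (nat_lit 2670) (.e (nat_lit 336236) (nat_lit 14) (.e (nat_lit 401425) (nat_lit 2) (.e (nat_lit 196666) (nat_lit 13) (.e (nat_lit 65628) (nat_lit 14) (.e (nat_lit 401428) (nat_lit 3) .nil))))) (.g (nat_lit 0) (.e (nat_lit 372826) (nat_lit 0) .nil) .nil))) 
(.lf (nat_lit 579342) (.g (nat_lit 407) (.e (nat_lit 336324) (nat_lit 18) (.e (nat_lit 204852) (nat_lit 26) (.e (nat_lit 336326) (nat_lit 18) .nil))) (.g (nat_lit 0) (.e (nat_lit 374413) (nat_lit 0) .nil) .nil))))) (.nd (nat_lit 8) (.nd (nat_lit 9) 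
(.lf (nat_lit 578702) (.g (nat_lit 1469) (.e (nat_lit 336230) (nat_lit 14) (.e (nat_lit 401458) (nat_lit 13) (.e (nat_lit 483372) (nat_lit 21) (.e (nat_lit 319504) (nat_lit 10) .nil)))) (.g (nat_lit 0) (.e (nat_lit 372382) (nat_lit 0) .nil) .nil))) 
(.lf (nat_lit 579214) (.g (nat_lit 1626) (.e (nat_lit 336323) (nat_lit 18) (.e (nat_lit 204837) (nat_lit 20) (.e (nat_lit 114694) (nat_lit 11) (.e (nat_lit 426139) (nat_lit 3) (.e (nat_lit 204859) (nat_lit 26) .nil))))) (.g (nat_lit 0) (.e (nat_lit 374193) (nat_lit 0) .nil) .nil)))) (.nd (nat_lit 9) 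
(.lf (nat_lit 578958) (.g (nat_lit 1171) (.e (nat_lit 336306) (nat_lit 15) (.e (nat_lit 3238) (nat_lit 197) (.e (nat_lit 532501) (nat_lit 1) (.e (nat_lit 57830) (nat_lit 250) .nil)))) (.g (nat_lit 0) (.e (nat_lit 373318) (nat_lit 0) .nil) .nil))) 
(.lf (nat_lit 579470) (.g (nat_lit 1133) (.e (nat_lit 336325) (nat_lit 18) (.e (nat_lit 204866) (nat_lit 28) (.e (nat_lit 352277) (nat_lit 11) (.e (nat_lit 426098) (nat_lit 1) .nil)))) (.g (nat_lit 0) (.e (nat_lit 374653) (nat_lit 0) .nil) .nil)))))) (.nd (nat_lit 7) (.nd (nat_lit 8) (.nd (nat_lit 9) 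
(.lf (nat_lit 578638) (.g (nat_lit 1394) (.e (nat_lit 336228) (nat_lit 14) (.e (nat_lit 401458) (nat_lit 13) (.e (nat_lit 483372) (nat_lit 21) (.e (nat_lit 327424) (nat_lit 10) .nil)))) (.g (nat_lit 0) (.e (nat_lit 372089) (nat_lit 0) .nil) .nil))) 
(.lf (nat_lit 579150) (.g (nat_lit 1381) (.e (nat_lit 336319) (nat_lit 17) (.e (nat_lit 196698) (nat_lit 19) (.e (nat_lit 57813) (nat_lit 246) (.e (nat_lit 57878) (nat_lit 270) (.e (nat_lit 496) (nat_lit 39) (.e (nat_lit 483391) (nat_lit 23) .nil)))))) (.g (nat_lit 1) (.e (nat_lit 374042) (nat_lit 0) .nil) .nil)))) (.nd (nat_lit 9) 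
(.lf (nat_lit 578894) (.g (nat_lit 1916) (.e (nat_lit 336267) (nat_lit 15) (.e (nat_lit 3253) (nat_lit 197) (.e (nat_lit 532504) (nat_lit 1) (.e (nat_lit 57854) (nat_lit 252) (.e (nat_lit 57409) (nat_lit 12) .nil))))) (.g (nat_lit 0) (.e (nat_lit 373160) (nat_lit 0) .nil) .nil))) 
(.lf (nat_lit 579406) (.g (nat_lit 2415) (.e (nat_lit 336324) (nat_lit 18) (.e (nat_lit 204880) (nat_lit 32) (.e (nat_lit 385068) (nat_lit 26) (.e (nat_lit 532530) (nat_lit 9) (.e (nat_lit 336326) (nat_lit 18) (.e (nat_lit 204853) (nat_lit 26) .nil)))))) (.g (nat_lit 1) (.e (nat_lit 374522) (nat_lit 0) .nil) .nil))))) (.nd (nat_lit 8) (.nd (nat_lit 9) 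
(.lf (nat_lit 578766) (.g (nat_lit 2420) (.e (nat_lit 336232) (nat_lit 14) (.e (nat_lit 401446) (nat_lit 10) (.e (nat_lit 434212) (nat_lit 18) (.e (nat_lit 6425) (nat_lit 342) (.e (nat_lit 229412) (nat_lit 14) (.e (nat_lit 442385) (nat_lit 11) .nil)))))) (.g (nat_lit 1) (.e (nat_lit 372640) (nat_lit 0) .nil) .nil))) 
(.lf (nat_lit 579278) (.g (nat_lit 2689) (.e (nat_lit 336324) (nat_lit 18) (.e (nat_lit 204837) (nat_lit 20) (.e (nat_lit 114697) (nat_lit 11) (.e (nat_lit 426116) (nat_lit 2) (.e (nat_lit 196681) (nat_lit 17) (.e (nat_lit 131105) (nat_lit 9) .nil)))))) (.g (nat_lit 1) (.e (nat_lit 374306) (nat_lit 0) .nil) .nil)))) (.nd (nat_lit 9) 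
(.lf (nat_lit 579022) (.g (nat_lit 3198) (.e (nat_lit 336292) (nat_lit 15) (.e (nat_lit 3305) (nat_lit 202) (.e (nat_lit 573484) (nat_lit 13) (.e (nat_lit 65610) (nat_lit 10) (.e (nat_lit 344129) (nat_lit 26) (.e (nat_lit 557087) (nat_lit 11) (.e (nat_lit 24632) (nat_lit 9) .nil))))))) (.g (nat_lit 1) (.e (nat_lit 373547) (nat_lit 0) .nil) .nil))) 
(.lf (nat_lit 579534) (.g (nat_lit 2453) (.e (nat_lit 336326) (nat_lit 18) (.e (nat_lit 204854) (nat_lit 26) (.e (nat_lit 336262) (nat_lit 15) (.e (nat_lit 3253) (nat_lit 197) (.e (nat_lit 532563) (nat_lit 15) .nil))))) (.g (nat_lit 0) (.e (nat_lit 374854) (nat_lit 0) .nil) .nil))))))) (.nd (nat_lit 6) (.nd (nat_lit 7) (.nd (nat_lit 8) (.nd (nat_lit 9) 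
(.lf (nat_lit 578606) (.g (nat_lit 2004) (.e (nat_lit 336228) (nat_lit 14) (.e (nat_lit 401437) (nat_lit 9) (.e (nat_lit 426533) (nat_lit 28) (.e (nat_lit 344068) (nat_lit 0) (.e (nat_lit 2854) (nat_lit 184) (.e (nat_lit 426509) (nat_lit 27) .nil)))))) (.g (nat_lit 1) (.e (nat_lit 372032) (nat_lit 0) .nil) .nil))) 
(.lf (nat_lit 579118) (.g (nat_lit 2549) (.e (nat_lit 336316) (nat_lit 17) (.e (nat_lit 196666) (nat_lit 13) (.e (nat_lit 65617) (nat_lit 10) (.e (nat_lit 344091) (nat_lit 18) (.e (nat_lit 7697) (nat_lit 412) (.e (nat_lit 57366) (nat_lit 1) (.e (nat_lit 57847) (nat_lit 252) (.e (nat_lit 57411) (nat_lit 12) .nil)))))))) (.g (nat_lit 1) (.e (nat_lit 373795) (nat_lit 0) .nil) .nil)))) 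
(.nd (nat_lit 9) 
(.lf (nat_lit 578862) (.g (nat_lit 2857) (.e (nat_lit 336240) (nat_lit 15) (.e (nat_lit 3623) (nat_lit 227) (.e (nat_lit 778324) (nat_lit 5) (.e (nat_lit 73781) (nat_lit 32) (.e (nat_lit 3090) (nat_lit 191) (.e (nat_lit 483380) (nat_lit 23) .nil)))))) (.g (nat_lit 1) (.e (nat_lit 373042) (nat_lit 0) .nil) .nil))) 
(.lf (nat_lit 579374) (.g (nat_lit 2657) (.e (nat_lit 336324) (nat_lit 18) (.e (nat_lit 204854) (nat_lit 26) (.e (nat_lit 336324) (nat_lit 18) (.e (nat_lit 204854) (nat_lit 26) (.e (nat_lit 336316) (nat_lit 17) (.e (nat_lit 196630) (nat_lit 9) (.e (nat_lit 1424) (nat_lit 108) .nil))))))) (.g (nat_lit 1) (.e (nat_lit 374467) (nat_lit 0) .nil) .nil))))) (.nd (nat_lit 8) (.nd (nat_lit 9) 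
(.lf (nat_lit 578734) (.g (nat_lit 639) (.e (nat_lit 336231) (nat_lit 14) (.e (nat_lit 401448) (nat_lit 10) (.e (nat_lit 434207) (nat_lit 18) .nil))) (.g (nat_lit 0) (.e (nat_lit 372483) (nat_lit 0) .nil) .nil))) 
(.lf (nat_lit 579246) (.g (nat_lit 3320) (.e (nat_lit 336324) (nat_lit 18) (.e (nat_lit 204831) (nat_lit 18) (.e (nat_lit 57847) (nat_lit 252) (.e (nat_lit 57411) (nat_lit 12) (.e (nat_lit 336452) (nat_lit 34) (.e (nat_lit 483381) (nat_lit 23) .nil)))))) (.g (nat_lit 1) (.e (nat_lit 374257) (nat_lit 0) .nil) .nil)))) (.nd (nat_lit 9) 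
(.lf (nat_lit 578990) (.g (nat_lit 2737) (.e (nat_lit 336306) (nat_lit 15) (.e (nat_lit 3307) (nat_lit 202) (.e (nat_lit 573484) (nat_lit 13) (.e (nat_lit 65610) (nat_lit 10) (.e (nat_lit 344129) (nat_lit 26) .nil))))) (.g (nat_lit 0) (.e (nat_lit 373436) (nat_lit 0) .nil) .nil))) 
(.lf (nat_lit 579502) (.g (nat_lit 1650) (.e (nat_lit 336326) (nat_lit 18) (.e (nat_lit 204837) (nat_lit 20) (.e (nat_lit 114694) (nat_lit 11) (.e (nat_lit 426139) (nat_lit 3) (.e (nat_lit 204861) (nat_lit 26) .nil))))) (.g (nat_lit 0) (.e (nat_lit 374776) (nat_lit 0) .nil) .nil)))))) (.nd (nat_lit 7) (.nd (nat_lit 8) (.nd (nat_lit 9) 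
(.lf (nat_lit 578670) (.g (nat_lit 383) (.e (nat_lit 336229) (nat_lit 14) (.e (nat_lit 401459) (nat_lit 13) (.e (nat_lit 483411) (nat_lit 27) .nil))) (.g (nat_lit 0) (.e (nat_lit 372193) (nat_lit 0) .nil) .nil))) 
(.lf (nat_lit 579182) (.g (nat_lit 807) (.e (nat_lit 336322) (nat_lit 18) (.e (nat_lit 204854) (nat_lit 26) (.e (nat_lit 336324) (nat_lit 18) .nil))) (.g (nat_lit 0) (.e (nat_lit 374154) (nat_lit 0) .nil) .nil)))) (.nd (nat_lit 9) 
(.lf (nat_lit 578926) (.g (nat_lit 1233) (.e (nat_lit 336276) (nat_lit 15) (.e (nat_lit 3632) (nat_lit 227) (.e (nat_lit 778323) (nat_lit 5) (.e (nat_lit 73781) (nat_lit 32) .nil)))) (.g (nat_lit 0) (.e (nat_lit 373210) (nat_lit 0) .nil) .nil))) 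
(.lf (nat_lit 579438) (.g (nat_lit 3247) (.e (nat_lit 336324) (nat_lit 18) (.e (nat_lit 204882) (nat_lit 32) (.e (nat_lit 385068) (nat_lit 26) (.e (nat_lit 532528) (nat_lit 9) (.e (nat_lit 336324) (nat_lit 18) (.e (nat_lit 204854) (nat_lit 26) .nil)))))) (.g (nat_lit 1) (.e (nat_lit 374563) (nat_lit 0) .nil) .nil))))) (.nd (nat_lit 8) (.nd (nat_lit 9) 
(.lf (nat_lit 578798) (.g (nat_lit 2261) (.e (nat_lit 336235) (nat_lit 14) (.e (nat_lit 401438) (nat_lit 9) (.e (nat_lit 426530) (nat_lit 27) (.e (nat_lit 335874) (nat_lit 0) (.e (nat_lit 6719) (nat_lit 361) (.e (nat_lit 179968) (nat_lit 27) .nil)))))) (.g (nat_lit 1) (.e (nat_lit 372772) (nat_lit 0) .nil) .nil))) 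
(.lf (nat_lit 579310) (.g (nat_lit 2285) (.e (nat_lit 336324) (nat_lit 18) (.e (nat_lit 204838) (nat_lit 20) (.e (nat_lit 114697) (nat_lit 11) (.e (nat_lit 426133) (nat_lit 3) (.e (nat_lit 204861) (nat_lit 26) (.e (nat_lit 336074) (nat_lit 9) .nil)))))) (.g (nat_lit 1) (.e (nat_lit 374361) (nat_lit 0) .nil) .nil)))) (.nd (nat_lit 9) 
(.lf (nat_lit 579054) (.g (nat_lit 1625) (.e (nat_lit 336300) (nat_lit 15) (.e (nat_lit 3253) (nat_lit 197) (.e (nat_lit 532503) (nat_lit 1) (.e (nat_lit 57846) (nat_lit 252) .nil)))) (.g (nat_lit 0) (.e (nat_lit 373613) (nat_lit 0) .nil) .nil))) 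
(.lf (nat_lit 579566) (.g (nat_lit 2812) (.e (nat_lit 336326) (nat_lit 18) (.e (nat_lit 204854) (nat_lit 26) (.e (nat_lit 336326) (nat_lit 18) (.e (nat_lit 204854) (nat_lit 26) (.e (nat_lit 336304) (nat_lit 15) (.e (nat_lit 3234) (nat_lit 197) (.e (nat_lit 532530) (nat_lit 9) .nil))))))) (.g (nat_lit 1) (.e (nat_lit 374901) (nat_lit 0) .nil) .nil)))))))) 
(.nd (nat_lit 5) (.nd (nat_lit 6) (.nd (nat_lit 7) (.nd (nat_lit 8) (.nd (nat_lit 9) 
(.lf (nat_lit 578590) (.g (nat_lit 973) (.e (nat_lit 336228) (nat_lit 14) (.e (nat_lit 401425) (nat_lit 2) (.e (nat_lit 196672) (nat_lit 15) (.e (nat_lit 81943) (nat_lit 20) .nil)))) (.g (nat_lit 0) (.e (nat_lit 372015) (nat_lit 0) .nil) .nil))) 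
(.lf (nat_lit 579102) (.g (nat_lit 2868) (.e (nat_lit 336316) (nat_lit 17) (.e (nat_lit 196666) (nat_lit 13) (.e (nat_lit 65610) (nat_lit 10) (.e (nat_lit 344088) (nat_lit 18) (.e (nat_lit 7697) (nat_lit 412) (.e (nat_lit 57364) (nat_lit 1) (.e (nat_lit 57854) (nat_lit 252) (.e (nat_lit 57409) (nat_lit 12) .nil)))))))) (.g (nat_lit 1) (.e (nat_lit 373774) (nat_lit 0) .nil) .nil)))) 
(.nd (nat_lit 9) 
(.lf (nat_lit 578846) (.g (nat_lit 1959) (.e (nat_lit 336239) (nat_lit 15) (.e (nat_lit 3309) (nat_lit 202) (.e (nat_lit 573484) (nat_lit 13) (.e (nat_lit 65617) (nat_lit 10) (.e (nat_lit 344130) (nat_lit 26) .nil))))) (.g (nat_lit 0) (.e (nat_lit 372879) (nat_lit 0) .nil) .nil))) 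
(.lf (nat_lit 579358) (.g (nat_lit 1008) (.e (nat_lit 336324) (nat_lit 18) (.e (nat_lit 204854) (nat_lit 26) (.e (nat_lit 336284) (nat_lit 15) (.e (nat_lit 3249) (nat_lit 197) .nil)))) (.g (nat_lit 0) (.e (nat_lit 374448) (nat_lit 0) .nil) .nil))))) (.nd (nat_lit 8) (.nd (nat_lit 9) 
(.lf (nat_lit 578718) (.g (nat_lit 1027) (.e (nat_lit 336231) (nat_lit 14) (.e (nat_lit 401446) (nat_lit 10) (.e (nat_lit 434203) (nat_lit 18) (.e (nat_lit 6420) (nat_lit 341) .nil)))) (.g (nat_lit 0) (.e (nat_lit 372435) (nat_lit 0) .nil) .nil))) 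
(.lf (nat_lit 579230) (.g (nat_lit 1888) (.e (nat_lit 336323) (nat_lit 18) (.e (nat_lit 204882) (nat_lit 32) (.e (nat_lit 385066) (nat_lit 26) (.e (nat_lit 532534) (nat_lit 9) (.e (nat_lit 336316) (nat_lit 17) .nil))))) (.g (nat_lit 0) (.e (nat_lit 374225) (nat_lit 0) .nil) .nil)))) (.nd (nat_lit 9) 
(.lf (nat_lit 578974) (.g (nat_lit 3231) (.e (nat_lit 336306) (nat_lit 15) (.e (nat_lit 3297) (nat_lit 202) (.e (nat_lit 573481) (nat_lit 13) (.e (nat_lit 65619) (nat_lit 10) (.e (nat_lit 344129) (nat_lit 26) (.e (nat_lit 557087) (nat_lit 11) (.e (nat_lit 32512) (nat_lit 9) .nil))))))) (.g (nat_lit 1) (.e (nat_lit 373366) (nat_lit 0) .nil) .nil))) 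
(.lf (nat_lit 579486) (.g (nat_lit 1619) (.e (nat_lit 336326) (nat_lit 18) (.e (nat_lit 204830) (nat_lit 18) (.e (nat_lit 57830) (nat_lit 250) (.e (nat_lit 1183) (nat_lit 87) (.e (nat_lit 57466) (nat_lit 23) .nil))))) (.g (nat_lit 0) (.e (nat_lit 374695) (nat_lit 0) .nil) .nil)))))) (.nd (nat_lit 7) (.nd (nat_lit 8) (.nd (nat_lit 9) 
(.lf (nat_lit 578654) (.g (nat_lit 2157) (.e (nat_lit 336229) (nat_lit 14) (.e (nat_lit 401456) (nat_lit 13) (.e (nat_lit 483346) (nat_lit 17) (.e (nat_lit 6718) (nat_lit 361) (.e (nat_lit 172150) (nat_lit 27) .nil))))) (.g (nat_lit 0) (.e (nat_lit 372138) (nat_lit 0) .nil) .nil))) 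
(.lf (nat_lit 579166) (.g (nat_lit 1775) (.e (nat_lit 336322) (nat_lit 18) (.e (nat_lit 204829) (nat_lit 18) (.e (nat_lit 57854) (nat_lit 252) (.e (nat_lit 57406) (nat_lit 12) .nil)))) (.g (nat_lit 0) (.e (nat_lit 374109) (nat_lit 0) .nil) .nil)))) (.nd (nat_lit 9) 
(.lf (nat_lit 578910) (.g (nat_lit 2133) (.e (nat_lit 336271) (nat_lit 15) (.e (nat_lit 3232) (nat_lit 197) (.e (nat_lit 532501) (nat_lit 1) (.e (nat_lit 57851) (nat_lit 252) (.e (nat_lit 57406) (nat_lit 12) .nil))))) (.g (nat_lit 0) (.e (nat_lit 373191) (nat_lit 0) .nil) .nil))) 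
(.lf (nat_lit 579422) (.g (nat_lit 1933) (.e (nat_lit 336324) (nat_lit 18) (.e (nat_lit 204882) (nat_lit 32) (.e (nat_lit 385066) (nat_lit 26) (.e (nat_lit 532528) (nat_lit 9) (.e (nat_lit 336322) (nat_lit 18) .nil))))) (.g (nat_lit 0) (.e (nat_lit 374544) (nat_lit 0) .nil) .nil))))) (.nd (nat_lit 8) (.nd (nat_lit 9) 
(.lf (nat_lit 578782) (.g (nat_lit 3333) (.e (nat_lit 336234) (nat_lit 14) (.e (nat_lit 401428) (nat_lit 3) (.e (nat_lit 204869) (nat_lit 29) (.e (nat_lit 360474) (nat_lit 8) (.e (nat_lit 557065) (nat_lit 9) .nil))))) (.g (nat_lit 0) (.e (nat_lit 372723) (nat_lit 0) .nil) .nil))) 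
(.lf (nat_lit 579294) (.g (nat_lit 346) (.e (nat_lit 336324) (nat_lit 18) (.e (nat_lit 204837) (nat_lit 20) (.e (nat_lit 122624) (nat_lit 11) .nil))) (.g (nat_lit 0) (.e (nat_lit 374340) (nat_lit 0) .nil) .nil)))) (.nd (nat_lit 9) 
(.lf (nat_lit 579038) (.g (nat_lit 1916) (.e (nat_lit 336293) (nat_lit 15) (.e (nat_lit 3253) (nat_lit 197) (.e (nat_lit 532504) (nat_lit 1) (.e (nat_lit 57854) (nat_lit 252) (.e (nat_lit 57409) (nat_lit 12) .nil))))) (.g (nat_lit 0) (.e (nat_lit 373593) (nat_lit 0) .nil) .nil))) 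
(.lf (nat_lit 579550) (.g (nat_lit 2096) (.e (nat_lit 336326) (nat_lit 18) (.e (nat_lit 204854) (nat_lit 26) (.e (nat_lit 336324) (nat_lit 18) (.e (nat_lit 204879) (nat_lit 32) (.e (nat_lit 385066) (nat_lit 26) .nil))))) (.g (nat_lit 0) (.e (nat_lit 374882) (nat_lit 0) .nil) .nil))))))) (.nd (nat_lit 6) (.nd (nat_lit 7) (.nd (nat_lit 8) (.nd (nat_lit 9) 
(.lf (nat_lit 578622) (.g (nat_lit 3740) (.e (nat_lit 336228) (nat_lit 14) (.e (nat_lit 401456) (nat_lit 13) (.e (nat_lit 483412) (nat_lit 27) (.e (nat_lit 401437) (nat_lit 9) (.e (nat_lit 426509) (nat_lit 27) .nil))))) (.g (nat_lit 1) (.e (nat_lit 372067) (nat_lit 0) .nil) .nil))) 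
(.lf (nat_lit 579134) (.g (nat_lit 1533) (.e (nat_lit 336316) (nat_lit 17) (.e (nat_lit 196668) (nat_lit 14) (.e (nat_lit 73753) (nat_lit 8) (.e (nat_lit 557100) (nat_lit 13) .nil)))) (.g (nat_lit 0) (.e (nat_lit 373819) (nat_lit 0) .nil) .nil)))) (.nd (nat_lit 9) 
(.lf (nat_lit 578878) (.g (nat_lit 2597) (.e (nat_lit 336260) (nat_lit 15) (.e (nat_lit 3307) (nat_lit 202) (.e (nat_lit 573484) (nat_lit 13) (.e (nat_lit 65610) (nat_lit 10) (.e (nat_lit 344129) (nat_lit 26) .nil))))) (.g (nat_lit 0) (.e (nat_lit 373110) (nat_lit 0) .nil) .nil))) 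
(.lf (nat_lit 579390) (.g (nat_lit 1851) (.e (nat_lit 336324) (nat_lit 18) (.e (nat_lit 204880) (nat_lit 32) (.e (nat_lit 385065) (nat_lit 26) (.e (nat_lit 532563) (nat_lit 15) (.e (nat_lit 385066) (nat_lit 26) .nil))))) (.g (nat_lit 0) (.e (nat_lit 374506) (nat_lit 0) .nil) .nil))))) (.nd (nat_lit 8) (.nd (nat_lit 9) 
(.lf (nat_lit 578750) (.g (nat_lit 410) (.e (nat_lit 336231) (nat_lit 14) (.e (nat_lit 401456) (nat_lit 13) (.e (nat_lit 483413) (nat_lit 27) .nil))) (.g (nat_lit 0) (.e (nat_lit 372550) (nat_lit 0) .nil) .nil))) 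
(.lf (nat_lit 579262) (.g (nat_lit 4665) (.e (nat_lit 336324) (nat_lit 18) (.e (nat_lit 204831) (nat_lit 18) (.e (nat_lit 57852) (nat_lit 252) (.e (nat_lit 57406) (nat_lit 12) (.e (nat_lit 336456) (nat_lit 34) (.e (nat_lit 483378) (nat_lit 23) .nil)))))) (.g (nat_lit 1) (.e (nat_lit 374276) (nat_lit 0) .nil) .nil)))) (.nd (nat_lit 9) 
(.lf (nat_lit 579006) (.g (nat_lit 2276) (.e (nat_lit 336286) (nat_lit 15) (.e (nat_lit 3305) (nat_lit 202) (.e (nat_lit 573484) (nat_lit 13) (.e (nat_lit 65617) (nat_lit 10) (.e (nat_lit 344133) (nat_lit 26) .nil))))) (.g (nat_lit 0) (.e (nat_lit 373524) (nat_lit 0) .nil) .nil))) 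
(.lf (nat_lit 579518) (.g (nat_lit 2502) (.e (nat_lit 336326) (nat_lit 18) (.e (nat_lit 204852) (nat_lit 26) (.e (nat_lit 336326) (nat_lit 18) (.e (nat_lit 204854) (nat_lit 26) (.e (nat_lit 336260) (nat_lit 15) .nil))))) (.g (nat_lit 0) (.e (nat_lit 374825) (nat_lit 0) .nil) .nil)))))) (.nd (nat_lit 7) (.nd (nat_lit 8) (.nd (nat_lit 9) 
(.lf (nat_lit 578686) (.g (nat_lit 2734) (.e (nat_lit 336230) (nat_lit 14) (.e (nat_lit 401448) (nat_lit 10) (.e (nat_lit 434289) (nat_lit 43) (.e (nat_lit 696327) (nat_lit 5) (.e (nat_lit 2988) (nat_lit 186) (.e (nat_lit 442390) (nat_lit 11) .nil)))))) (.g (nat_lit 1) (.e (nat_lit 372338) (nat_lit 0) .nil) .nil))) 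
(.lf (nat_lit 579198) (.g (nat_lit 1452) (.e (nat_lit 336322) (nat_lit 18) (.e (nat_lit 204882) (nat_lit 32) (.e (nat_lit 385068) (nat_lit 26) (.e (nat_lit 532530) (nat_lit 9) .nil)))) (.g (nat_lit 0) (.e (nat_lit 374177) (nat_lit 0) .nil) .nil)))) (.nd (nat_lit 9) 
(.lf (nat_lit 578942) (.g (nat_lit 3659) (.e (nat_lit 336282) (nat_lit 15) (.e (nat_lit 3253) (nat_lit 197) (.e (nat_lit 532503) (nat_lit 1) (.e (nat_lit 57848) (nat_lit 252) (.e (nat_lit 57407) (nat_lit 12) (.e (nat_lit 336456) (nat_lit 34) (.e (nat_lit 483387) (nat_lit 23) .nil))))))) (.g (nat_lit 1) (.e (nat_lit 373250) (nat_lit 0) .nil) .nil))) 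
(.lf (nat_lit 579454) (.g (nat_lit 2914) (.e (nat_lit 336325) (nat_lit 18) (.e (nat_lit 204837) (nat_lit 20) (.e (nat_lit 114698) (nat_lit 11) (.e (nat_lit 426139) (nat_lit 3) (.e (nat_lit 204850) (nat_lit 26) .nil))))) (.g (nat_lit 0) (.e (nat_lit 374597) (nat_lit 0) .nil) .nil))))) (.nd (nat_lit 8) (.nd (nat_lit 9) 
(.lf (nat_lit 578814) (.g (nat_lit 3347) (.e (nat_lit 336235) (nat_lit 14) (.e (nat_lit 401457) (nat_lit 13) (.e (nat_lit 483410) (nat_lit 27) (.e (nat_lit 401438) (nat_lit 9) (.e (nat_lit 426530) (nat_lit 27) .nil))))) (.g (nat_lit 1) (.e (nat_lit 372807) (nat_lit 0) .nil) .nil))) 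
(.lf (nat_lit 579326) (.g (nat_lit 350) (.e (nat_lit 336324) (nat_lit 18) (.e (nat_lit 204838) (nat_lit 20) (.e (nat_lit 122624) (nat_lit 12) .nil))) (.g (nat_lit 0) (.e (nat_lit 374390) (nat_lit 0) .nil) .nil)))) (.nd (nat_lit 9) 
(.lf (nat_lit 579070) (.g (nat_lit 2516) (.e (nat_lit 336310) (nat_lit 16) (.e (nat_lit 164179) (nat_lit 154) (.e (nat_lit 57377) (nat_lit 3) (.e (nat_lit 98333) (nat_lit 18) (.e (nat_lit 164325) (nat_lit 230) .nil))))) (.g (nat_lit 0) (.e (nat_lit 373681) (nat_lit 0) .nil) .nil))) 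
(.lf (nat_lit 579582) (.g (nat_lit 2316) (.e (nat_lit 336326) (nat_lit 18) (.e (nat_lit 204862) (nat_lit 27) (.e (nat_lit 344133) (nat_lit 26) (.e (nat_lit 557098) (nat_lit 13) (.e (nat_lit 179968) (nat_lit 15) .nil))))) (.g (nat_lit 0) (.e (nat_lit 374935) (nat_lit 0) .nil) .nil)))))))))))) 
(.nd (nat_lit 1) (.nd (nat_lit 2) (.nd (nat_lit 3) (.nd (nat_lit 4) (.nd (nat_lit 5) 
(.nd (nat_lit 6) (.nd (nat_lit 7) (.nd (nat_lit 8) (.nd (nat_lit 9) 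
(.lf (nat_lit 578561) (.g (nat_lit 4402) (.e (nat_lit 336226) (nat_lit 14) (.e (nat_lit 401459) (nat_lit 13) (.e (nat_lit 483372) (nat_lit 21) (.e (nat_lit 319537) (nat_lit 19) (.e (nat_lit 311352) (nat_lit 27) .nil))))) (.g (nat_lit 1) (.e (nat_lit 371971) (nat_lit 0) .nil) .nil))) 
(.lf (nat_lit 579073) (.g (nat_lit 2147) (.e (nat_lit 336310) (nat_lit 16) (.e (nat_lit 164179) (nat_lit 154) (.e (nat_lit 57378) (nat_lit 3) (.e (nat_lit 98334) (nat_lit 18) .nil)))) (.g (nat_lit 0) (.e (nat_lit 373685) (nat_lit 0) .nil) .nil)))) (.nd (nat_lit 9) 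
(.lf (nat_lit 578817) (.g (nat_lit 605) (.e (nat_lit 336235) (nat_lit 14) (.e (nat_lit 401458) (nat_lit 13) (.e (nat_lit 483354) (nat_lit 17) .nil))) (.g (nat_lit 0) (.e (nat_lit 372810) (nat_lit 0) .nil) .nil))) 
(.lf (nat_lit 579329) (.g (nat_lit 207) (.e (nat_lit 336324) (nat_lit 18) (.e (nat_lit 204852) (nat_lit 26) (.e (nat_lit 336316) (nat_lit 17) .nil))) (.g (nat_lit 0) (.e (nat_lit 374394) (nat_lit 0) .nil) .nil))))) (.nd (nat_lit 8) (.nd (nat_lit 9) 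
(.lf (nat_lit 578689) (.g (nat_lit 2825) (.e (nat_lit 336230) (nat_lit 14) (.e (nat_lit 401448) (nat_lit 10) (.e (nat_lit 434289) (nat_lit 43) (.e (nat_lit 696329) (nat_lit 5) (.e (nat_lit 2988) (nat_lit 186) (.e (nat_lit 442390) (nat_lit 11) .nil)))))) (.g (nat_lit 1) (.e (nat_lit 372341) (nat_lit 0) .nil) .nil))) 
(.lf (nat_lit 579201) (.g (nat_lit 1691) (.e (nat_lit 336323) (nat_lit 18) (.e (nat_lit 204829) (nat_lit 18) (.e (nat_lit 57851) (nat_lit 252) (.e (nat_lit 57406) (nat_lit 12) .nil)))) (.g (nat_lit 0) (.e (nat_lit 374180) (nat_lit 0) .nil) .nil)))) (.nd (nat_lit 9) 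
(.lf (nat_lit 578945) (.g (nat_lit 378) (.e (nat_lit 336282) (nat_lit 15) (.e (nat_lit 3632) (nat_lit 227) (.e (nat_lit 778323) (nat_lit 5) .nil))) (.g (nat_lit 0) (.e (nat_lit 373261) (nat_lit 0) .nil) .nil))) 
(.lf (nat_lit 579457) (.g (nat_lit 603) (.e (nat_lit 336325) (nat_lit 18) (.e (nat_lit 204838) (nat_lit 20) (.e (nat_lit 114695) (nat_lit 11) (.e (nat_lit 426129) (nat_lit 3) .nil)))) (.g (nat_lit 0) (.e (nat_lit 374604) (nat_lit 0) .nil) .nil)))))) (.nd (nat_lit 7) (.nd (nat_lit 8) (.nd (nat_lit 9) 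
(.lf (nat_lit 578625) (.g (nat_lit 1491) (.e (nat_lit 336228) (nat_lit 14) (.e (nat_lit 401457) (nat_lit 13) (.e (nat_lit 483350) (nat_lit 17) (.e (nat_lit 6113) (nat_lit 332) .nil)))) (.g (nat_lit 0) (.e (nat_lit 372071) (nat_lit 0) .nil) .nil))) 
(.lf (nat_lit 579137) (.g (nat_lit 1810) (.e (nat_lit 336316) (nat_lit 17) (.e (nat_lit 196670) (nat_lit 14) (.e (nat_lit 73753) (nat_lit 8) (.e (nat_lit 557096) (nat_lit 13) (.e (nat_lit 172127) (nat_lit 15) .nil))))) (.g (nat_lit 0) (.e (nat_lit 373862) (nat_lit 0) .nil) .nil)))) (.nd (nat_lit 9) 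
(.lf (nat_lit 578881) (.g (nat_lit 1679) (.e (nat_lit 336260) (nat_lit 15) (.e (nat_lit 3308) (nat_lit 202) (.e (nat_lit 573493) (nat_lit 15) (.e (nat_lit 81954) (nat_lit 23) .nil)))) (.g (nat_lit 0) (.e (nat_lit 373125) (nat_lit 0) .nil) .nil))) 
(.lf (nat_lit 579393) (.g (nat_lit 2143) (.e (nat_lit 336324) (nat_lit 18) (.e (nat_lit 204880) (nat_lit 32) (.e (nat_lit 385066) (nat_lit 26) (.e (nat_lit 532530) (nat_lit 9) (.e (nat_lit 336326) (nat_lit 18) (.e (nat_lit 204850) (nat_lit 26) .nil)))))) (.g (nat_lit 1) (.e (nat_lit 374509) (nat_lit 0) .nil) .nil))))) (.nd (nat_lit 8) (.nd (nat_lit 9) 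
(.lf (nat_lit 578753) (.g (nat_lit 469) (.e (nat_lit 336231) (nat_lit 14) (.e (nat_lit 401458) (nat_lit 13) (.e (nat_lit 483355) (nat_lit 17) .nil))) (.g (nat_lit 0) (.e (nat_lit 372570) (nat_lit 0) .nil) .nil))) 
(.lf (nat_lit 579265) (.g (nat_lit 4772) (.e (nat_lit 336324) (nat_lit 18) (.e (nat_lit 204831) (nat_lit 18) (.e (nat_lit 57854) (nat_lit 252) (.e (nat_lit 57373) (nat_lit 2) (.e (nat_lit 90162) (nat_lit 12) (.e (nat_lit 164060) (nat_lit 57) (.e (nat_lit 794671) (nat_lit 23) (.e (nat_lit 204853) (nat_lit 26) .nil)))))))) (.g (nat_lit 1) (.e (nat_lit 374284) (nat_lit 0) .nil) .nil)))) 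
(.nd (nat_lit 9) 
(.lf (nat_lit 579009) (.g (nat_lit 3404) (.e (nat_lit 336288) (nat_lit 15) (.e (nat_lit 7096) (nat_lit 380) (.e (nat_lit 164368) (nat_lit 247) (.e (nat_lit 8318) (nat_lit 64) (.e (nat_lit 516174) (nat_lit 14) (.e (nat_lit 466954) (nat_lit 11) .nil)))))) (.g (nat_lit 1) (.e (nat_lit 373528) (nat_lit 0) .nil) .nil))) 
(.lf (nat_lit 579521) (.g (nat_lit 2779) (.e (nat_lit 336326) (nat_lit 18) (.e (nat_lit 204852) (nat_lit 26) (.e (nat_lit 336326) (nat_lit 18) (.e (nat_lit 204854) (nat_lit 26) (.e (nat_lit 336263) (nat_lit 15) (.e (nat_lit 3234) (nat_lit 197) (.e (nat_lit 532530) (nat_lit 9) .nil))))))) (.g (nat_lit 1) (.e (nat_lit 374828) (nat_lit 0) .nil) .nil))))))) 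
(.nd (nat_lit 6) (.nd (nat_lit 7) (.nd (nat_lit 8) (.nd (nat_lit 9) 
(.lf (nat_lit 578593) (.g (nat_lit 1545) (.e (nat_lit 336228) (nat_lit 14) (.e (nat_lit 401425) (nat_lit 2) (.e (nat_lit 196674) (nat_lit 15) (.e (nat_lit 81947) (nat_lit 20) .nil)))) (.g (nat_lit 0) (.e (nat_lit 372018) (nat_lit 0) .nil) .nil))) 
(.lf (nat_lit 579105) (.g (nat_lit 4527) (.e (nat_lit 336316) (nat_lit 17) (.e (nat_lit 196666) (nat_lit 13) (.e (nat_lit 65610) (nat_lit 10) (.e (nat_lit 344090) (nat_lit 18) (.e (nat_lit 7695) (nat_lit 412) (.e (nat_lit 57368) (nat_lit 1) (.e (nat_lit 57854) (nat_lit 252) (.e (nat_lit 57406) (nat_lit 12) .nil)))))))) (.g (nat_lit 1) (.e (nat_lit 373777) (nat_lit 0) .nil) .nil)))) 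
(.nd (nat_lit 9) 
(.lf (nat_lit 578849) (.g (nat_lit 1320) (.e (nat_lit 336239) (nat_lit 15) (.e (nat_lit 3309) (nat_lit 202) (.e (nat_lit 573485) (nat_lit 13) (.e (nat_lit 65630) (nat_lit 14) (.e (nat_lit 401428) (nat_lit 3) .nil))))) (.g (nat_lit 0) (.e (nat_lit 372895) (nat_lit 0) .nil) .nil))) 
(.lf (nat_lit 579361) (.g (nat_lit 2293) (.e (nat_lit 336324) (nat_lit 18) (.e (nat_lit 204854) (nat_lit 26) (.e (nat_lit 336306) (nat_lit 15) (.e (nat_lit 3238) (nat_lit 197) (.e (nat_lit 532530) (nat_lit 9) (.e (nat_lit 336324) (nat_lit 18) (.e (nat_lit 204853) (nat_lit 26) .nil))))))) (.g (nat_lit 1) (.e (nat_lit 374452) (nat_lit 0) .nil) .nil))))) (.nd (nat_lit 8) (.nd (nat_lit 9) 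
(.lf (nat_lit 578721) (.g (nat_lit 680) (.e (nat_lit 336231) (nat_lit 14) (.e (nat_lit 401446) (nat_lit 10) (.e (nat_lit 434285) (nat_lit 42) .nil))) (.g (nat_lit 0) (.e (nat_lit 372454) (nat_lit 0) .nil) .nil))) 
(.lf (nat_lit 579233) (.g (nat_lit 1791) (.e (nat_lit 336324) (nat_lit 18) (.e (nat_lit 204829) (nat_lit 18) (.e (nat_lit 57849) (nat_lit 252) (.e (nat_lit 57405) (nat_lit 12) .nil)))) (.g (nat_lit 0) (.e (nat_lit 374234) (nat_lit 0) .nil) .nil)))) (.nd (nat_lit 9) 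
(.lf (nat_lit 578977) (.g (nat_lit 2664) (.e (nat_lit 336306) (nat_lit 15) (.e (nat_lit 3297) (nat_lit 202) (.e (nat_lit 573484) (nat_lit 13) (.e (nat_lit 65617) (nat_lit 10) (.e (nat_lit 344130) (nat_lit 26) .nil))))) (.g (nat_lit 0) (.e (nat_lit 373369) (nat_lit 0) .nil) .nil))) 
(.lf (nat_lit 579489) (.g (nat_lit 1535) (.e (nat_lit 336326) (nat_lit 18) (.e (nat_lit 204830) (nat_lit 18) (.e (nat_lit 57852) (nat_lit 252) (.e (nat_lit 57378) (nat_lit 3) .nil)))) (.g (nat_lit 0) (.e (nat_lit 374703) (nat_lit 0) .nil) .nil)))))) (.nd (nat_lit 7) (.nd (nat_lit 8) (.nd (nat_lit 9) 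
(.lf (nat_lit 578657) (.g (nat_lit 1351) (.e (nat_lit 336229) (nat_lit 14) (.e (nat_lit 401458) (nat_lit 13) (.e (nat_lit 483350) (nat_lit 17) (.e (nat_lit 6632) (nat_lit 357) .nil)))) (.g (nat_lit 0) (.e (nat_lit 372163) (nat_lit 0) .nil) .nil))) 
(.lf (nat_lit 579169) (.g (nat_lit 2041) (.e (nat_lit 336322) (nat_lit 18) (.e (nat_lit 204830) (nat_lit 18) (.e (nat_lit 57852) (nat_lit 252) (.e (nat_lit 57406) (nat_lit 12) (.e (nat_lit 336454) (nat_lit 34) .nil))))) (.g (nat_lit 0) (.e (nat_lit 374116) (nat_lit 0) .nil) .nil)))) (.nd (nat_lit 9) 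
(.lf (nat_lit 578913) (.g (nat_lit 2373) (.e (nat_lit 336271) (nat_lit 15) (.e (nat_lit 3249) (nat_lit 197) (.e (nat_lit 532501) (nat_lit 1) (.e (nat_lit 57851) (nat_lit 252) (.e (nat_lit 57406) (nat_lit 12) .nil))))) (.g (nat_lit 0) (.e (nat_lit 373195) (nat_lit 0) .nil) .nil))) 
(.lf (nat_lit 579425) (.g (nat_lit 2740) (.e (nat_lit 336324) (nat_lit 18) (.e (nat_lit 204882) (nat_lit 32) (.e (nat_lit 385066) (nat_lit 26) (.e (nat_lit 532530) (nat_lit 9) (.e (nat_lit 336326) (nat_lit 18) (.e (nat_lit 204853) (nat_lit 26) .nil)))))) (.g (nat_lit 1) (.e (nat_lit 374547) (nat_lit 0) .nil) .nil))))) (.nd (nat_lit 8) (.nd (nat_lit 9) 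
(.lf (nat_lit 578785) (.g (nat_lit 957) (.e (nat_lit 336235) (nat_lit 14) (.e (nat_lit 401423) (nat_lit 2) (.e (nat_lit 196672) (nat_lit 15) (.e (nat_lit 81943) (nat_lit 20) .nil)))) (.g (nat_lit 0) (.e (nat_lit 372748) (nat_lit 0) .nil) .nil))) 
(.lf (nat_lit 579297) (.g (nat_lit 1685) (.e (nat_lit 336324) (nat_lit 18) (.e (nat_lit 204837) (nat_lit 20) (.e (nat_lit 122624) (nat_lit 12) (.e (nat_lit 434219) (nat_lit 19) (.e (nat_lit 500087) (nat_lit 22) (.e (nat_lit 131106) (nat_lit 9) .nil)))))) (.g (nat_lit 1) (.e (nat_lit 374343) (nat_lit 0) .nil) .nil)))) (.nd (nat_lit 9) 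
(.lf (nat_lit 579041) (.g (nat_lit 1190) (.e (nat_lit 336293) (nat_lit 15) (.e (nat_lit 3632) (nat_lit 227) (.e (nat_lit 778323) (nat_lit 5) (.e (nat_lit 73782) (nat_lit 32) .nil)))) (.g (nat_lit 0) (.e (nat_lit 373597) (nat_lit 0) .nil) .nil))) 
(.lf (nat_lit 579553) (.g (nat_lit 514) (.e (nat_lit 336326) (nat_lit 18) (.e (nat_lit 204854) (nat_lit 26) (.e (nat_lit 336325) (nat_lit 18) .nil))) (.g (nat_lit 0) (.e (nat_lit 374885) (nat_lit 0) .nil) .nil)))))))) (.nd (nat_lit 5) (.nd (nat_lit 6) (.nd (nat_lit 7) (.nd (nat_lit 8) (.nd (nat_lit 9) 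
(.lf (nat_lit 578577) (.g (nat_lit 364) (.e (nat_lit 336228) (nat_lit 14) (.e (nat_lit 401425) (nat_lit 2) (.e (nat_lit 196666) (nat_lit 13) .nil))) (.g (nat_lit 0) (.e (nat_lit 371999) (nat_lit 0) .nil) .nil))) 
(.lf (nat_lit 579089) (.g (nat_lit 1605) (.e (nat_lit 336310) (nat_lit 16) (.e (nat_lit 164183) (nat_lit 154) (.e (nat_lit 57378) (nat_lit 3) (.e (nat_lit 98335) (nat_lit 18) .nil)))) (.g (nat_lit 0) (.e (nat_lit 373702) (nat_lit 0) .nil) .nil)))) (.nd (nat_lit 9) 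
(.lf (nat_lit 578833) (.g (nat_lit 476) (.e (nat_lit 336236) (nat_lit 14) (.e (nat_lit 401459) (nat_lit 13) (.e (nat_lit 483372) (nat_lit 21) .nil))) (.g (nat_lit 0) (.e (nat_lit 372834) (nat_lit 0) .nil) .nil))) 
(.lf (nat_lit 579345) (.g (nat_lit 2905) (.e (nat_lit 336324) (nat_lit 18) (.e (nat_lit 204852) (nat_lit 26) (.e (nat_lit 336326) (nat_lit 18) (.e (nat_lit 204854) (nat_lit 26) (.e (nat_lit 336316) (nat_lit 17) (.e (nat_lit 196630) (nat_lit 9) (.e (nat_lit 1413) (nat_lit 108) .nil))))))) (.g (nat_lit 1) (.e (nat_lit 374428) (nat_lit 0) .nil) .nil))))) (.nd (nat_lit 8) (.nd (nat_lit 9) 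
(.lf (nat_lit 578705) (.g (nat_lit 1641) (.e (nat_lit 336231) (nat_lit 14) (.e (nat_lit 401432) (nat_lit 7) (.e (nat_lit 409648) (nat_lit 18) (.e (nat_lit 303138) (nat_lit 10) .nil)))) (.g (nat_lit 0) (.e (nat_lit 372399) (nat_lit 0) .nil) .nil))) 
(.lf (nat_lit 579217) (.g (nat_lit 3025) (.e (nat_lit 336323) (nat_lit 18) (.e (nat_lit 204837) (nat_lit 20) (.e (nat_lit 114698) (nat_lit 11) (.e (nat_lit 426139) (nat_lit 3) (.e (nat_lit 204859) (nat_lit 26) (.e (nat_lit 336118) (nat_lit 9) .nil)))))) (.g (nat_lit 1) (.e (nat_lit 374196) (nat_lit 0) .nil) .nil)))) (.nd (nat_lit 9) 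
(.lf (nat_lit 578961) (.g (nat_lit 1183) (.e (nat_lit 336306) (nat_lit 15) (.e (nat_lit 3238) (nat_lit 197) (.e (nat_lit 532503) (nat_lit 1) (.e (nat_lit 57844) (nat_lit 252) .nil)))) (.g (nat_lit 0) (.e (nat_lit 373321) (nat_lit 0) .nil) .nil))) 
(.lf (nat_lit 579473) (.g (nat_lit 3380) (.e (nat_lit 336325) (nat_lit 18) (.e (nat_lit 204880) (nat_lit 32) (.e (nat_lit 385066) (nat_lit 26) (.e (nat_lit 532530) (nat_lit 9) (.e (nat_lit 336324) (nat_lit 18) (.e (nat_lit 204852) (nat_lit 26) .nil)))))) (.g (nat_lit 1) (.e (nat_lit 374658) (nat_lit 0) .nil) .nil)))))) (.nd (nat_lit 7) (.nd (nat_lit 8) (.nd (nat_lit 9) 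
(.lf (nat_lit 578641) (.g (nat_lit 2908) (.e (nat_lit 336228) (nat_lit 14) (.e (nat_lit 401458) (nat_lit 13) (.e (nat_lit 483372) (nat_lit 21) (.e (nat_lit 319538) (nat_lit 19) (.e (nat_lit 311353) (nat_lit 27) .nil))))) (.g (nat_lit 1) (.e (nat_lit 372092) (nat_lit 0) .nil) .nil))) 
(.lf (nat_lit 579153) (.g (nat_lit 638) (.e (nat_lit 336321) (nat_lit 18) (.e (nat_lit 204837) (nat_lit 20) (.e (nat_lit 114697) (nat_lit 11) .nil))) (.g (nat_lit 0) (.e (nat_lit 374074) (nat_lit 0) .nil) .nil)))) (.nd (nat_lit 9) 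
(.lf (nat_lit 578897) (.g (nat_lit 2216) (.e (nat_lit 336267) (nat_lit 15) (.e (nat_lit 3631) (nat_lit 227) (.e (nat_lit 778323) (nat_lit 5) (.e (nat_lit 73782) (nat_lit 32) (.e (nat_lit 3090) (nat_lit 191) (.e (nat_lit 483386) (nat_lit 23) .nil)))))) (.g (nat_lit 1) (.e (nat_lit 373175) (nat_lit 0) .nil) .nil))) 
(.lf (nat_lit 579409) (.g (nat_lit 2582) (.e (nat_lit 336324) (nat_lit 18) (.e (nat_lit 204881) (nat_lit 32) (.e (nat_lit 385066) (nat_lit 26) (.e (nat_lit 532534) (nat_lit 9) (.e (nat_lit 336322) (nat_lit 18) (.e (nat_lit 204852) (nat_lit 26) .nil)))))) (.g (nat_lit 1) (.e (nat_lit 374525) (nat_lit 0) .nil) .nil))))) (.nd (nat_lit 8) (.nd (nat_lit 9) 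
(.lf (nat_lit 578769) (.g (nat_lit 2828) (.e (nat_lit 336232) (nat_lit 14) (.e (nat_lit 401446) (nat_lit 10) (.e (nat_lit 434289) (nat_lit 43) (.e (nat_lit 696346) (nat_lit 10) (.e (nat_lit 188423) (nat_lit 11) .nil))))) (.g (nat_lit 1) (.e (nat_lit 372644) (nat_lit 0) .nil) .nil))) 
(.lf (nat_lit 579281) (.g (nat_lit 357) (.e (nat_lit 336324) (nat_lit 18) (.e (nat_lit 204837) (nat_lit 20) (.e (nat_lit 114698) (nat_lit 11) .nil))) (.g (nat_lit 0) (.e (nat_lit 374315) (nat_lit 0) .nil) .nil)))) (.nd (nat_lit 9) 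
(.lf (nat_lit 579025) (.g (nat_lit 2058) (.e (nat_lit 336292) (nat_lit 15) (.e (nat_lit 3632) (nat_lit 227) (.e (nat_lit 778323) (nat_lit 5) (.e (nat_lit 73782) (nat_lit 32) (.e (nat_lit 3090) (nat_lit 191) (.e (nat_lit 483387) (nat_lit 23) .nil)))))) (.g (nat_lit 1) (.e (nat_lit 373552) (nat_lit 0) .nil) .nil))) 
(.lf (nat_lit 579537) (.g (nat_lit 1128) (.e (nat_lit 336326) (nat_lit 18) (.e (nat_lit 204854) (nat_lit 26) (.e (nat_lit 336270) (nat_lit 15) .nil))) (.g (nat_lit 0) (.e (nat_lit 374858) (nat_lit 0) .nil) .nil))))))) (.nd (nat_lit 6) (.nd (nat_lit 7) (.nd (nat_lit 8) (.nd (nat_lit 9) 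
(.lf (nat_lit 578609) (.g (nat_lit 1759) (.e (nat_lit 336228) (nat_lit 14) (.e (nat_lit 401437) (nat_lit 9) (.e (nat_lit 426542) (nat_lit 29) (.e (nat_lit 352318) (nat_lit 24) .nil)))) (.g (nat_lit 0) (.e (nat_lit 372036) (nat_lit 0) .nil) .nil))) 
(.lf (nat_lit 579121) (.g (nat_lit 2277) (.e (nat_lit 336316) (nat_lit 17) (.e (nat_lit 196666) (nat_lit 13) (.e (nat_lit 65617) (nat_lit 10) (.e (nat_lit 344091) (nat_lit 18) (.e (nat_lit 7936) (nat_lit 412) (.e (nat_lit 57368) (nat_lit 1) (.e (nat_lit 57854) (nat_lit 252) (.e (nat_lit 57409) (nat_lit 12) .nil)))))))) (.g (nat_lit 1) (.e (nat_lit 373798) (nat_lit 0) .nil) .nil)))) 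
(.nd (nat_lit 9) 
(.lf (nat_lit 578865) (.g (nat_lit 1542) (.e (nat_lit 336247) (nat_lit 15) (.e (nat_lit 3249) (nat_lit 197) (.e (nat_lit 532504) (nat_lit 1) (.e (nat_lit 57854) (nat_lit 252) .nil)))) (.g (nat_lit 0) (.e (nat_lit 373047) (nat_lit 0) .nil) .nil))) 
(.lf (nat_lit 579377) (.g (nat_lit 382) (.e (nat_lit 336324) (nat_lit 18) (.e (nat_lit 204854) (nat_lit 26) (.e (nat_lit 336326) (nat_lit 18) .nil))) (.g (nat_lit 0) (.e (nat_lit 374476) (nat_lit 0) .nil) .nil))))) (.nd (nat_lit 8) (.nd (nat_lit 9) 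
(.lf (nat_lit 578737) (.g (nat_lit 533) (.e (nat_lit 336231) (nat_lit 14) (.e (nat_lit 401448) (nat_lit 10) (.e (nat_lit 434211) (nat_lit 18) .nil))) (.g (nat_lit 0) (.e (nat_lit 372504) (nat_lit 0) .nil) .nil))) 
(.lf (nat_lit 579249) (.g (nat_lit 348) (.e (nat_lit 336324) (nat_lit 18) (.e (nat_lit 204831) (nat_lit 18) (.e (nat_lit 57848) (nat_lit 252) .nil))) (.g (nat_lit 0) (.e (nat_lit 374261) (nat_lit 0) .nil) .nil)))) (.nd (nat_lit 9) 
(.lf (nat_lit 578993) (.g (nat_lit 3917) (.e (nat_lit 336306) (nat_lit 15) (.e (nat_lit 3307) (nat_lit 202) (.e (nat_lit 573485) (nat_lit 13) (.e (nat_lit 65604) (nat_lit 9) (.e (nat_lit 336013) (nat_lit 2) (.e (nat_lit 90134) (nat_lit 9) (.e (nat_lit 3098) (nat_lit 192) (.e (nat_lit 491548) (nat_lit 9) .nil)))))))) (.g (nat_lit 1) (.e (nat_lit 373444) (nat_lit 0) .nil) .nil))) 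
(.lf (nat_lit 579505) (.g (nat_lit 442) (.e (nat_lit 336326) (nat_lit 18) (.e (nat_lit 204837) (nat_lit 20) (.e (nat_lit 122624) (nat_lit 12) .nil))) (.g (nat_lit 0) (.e (nat_lit 374786) (nat_lit 0) .nil) .nil)))))) (.nd (nat_lit 7) (.nd (nat_lit 8) (.nd (nat_lit 9) 
(.lf (nat_lit 578673) (.g (nat_lit 1037) (.e (nat_lit 336230) (nat_lit 14) (.e (nat_lit 401444) (nat_lit 9) (.e (nat_lit 426503) (nat_lit 27) (.e (nat_lit 335895) (nat_lit 0) .nil)))) (.g (nat_lit 0) (.e (nat_lit 372222) (nat_lit 0) .nil) .nil))) 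
(.lf (nat_lit 579185) (.g (nat_lit 457) (.e (nat_lit 336322) (nat_lit 18) (.e (nat_lit 204880) (nat_lit 32) (.e (nat_lit 385066) (nat_lit 26) .nil))) (.g (nat_lit 0) (.e (nat_lit 374164) (nat_lit 0) .nil) .nil)))) (.nd (nat_lit 9) 
(.lf (nat_lit 578929) (.g (nat_lit 1253) (.e (nat_lit 336277) (nat_lit 15) (.e (nat_lit 3632) (nat_lit 227) (.e (nat_lit 778323) (nat_lit 5) (.e (nat_lit 73781) (nat_lit 32) .nil)))) (.g (nat_lit 0) (.e (nat_lit 373221) (nat_lit 0) .nil) .nil))) 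
(.lf (nat_lit 579441) (.g (nat_lit 2379) (.e (nat_lit 336324) (nat_lit 18) (.e (nat_lit 204882) (nat_lit 32) (.e (nat_lit 385068) (nat_lit 26) (.e (nat_lit 532530) (nat_lit 9) (.e (nat_lit 336322) (nat_lit 18) (.e (nat_lit 204852) (nat_lit 26) .nil)))))) (.g (nat_lit 1) (.e (nat_lit 374566) (nat_lit 0) .nil) .nil))))) (.nd (nat_lit 8) (.nd (nat_lit 9) 
(.lf (nat_lit 578801) (.g (nat_lit 3695) (.e (nat_lit 336235) (nat_lit 14) (.e (nat_lit 401438) (nat_lit 9) (.e (nat_lit 426533) (nat_lit 28) (.e (nat_lit 344069) (nat_lit 0) (.e (nat_lit 2856) (nat_lit 184) (.e (nat_lit 426530) (nat_lit 27) .nil)))))) (.g (nat_lit 1) (.e (nat_lit 372775) (nat_lit 0) .nil) .nil))) 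
(.lf (nat_lit 579313) (.g (nat_lit 1260) (.e (nat_lit 336324) (nat_lit 18) (.e (nat_lit 204838) (nat_lit 20) (.e (nat_lit 114698) (nat_lit 11) (.e (nat_lit 426116) (nat_lit 2) .nil)))) (.g (nat_lit 0) (.e (nat_lit 374366) (nat_lit 0) .nil) .nil)))) (.nd (nat_lit 9) 
(.lf (nat_lit 579057) (.g (nat_lit 2305) (.e (nat_lit 336300) (nat_lit 15) (.e (nat_lit 3253) (nat_lit 197) (.e (nat_lit 532504) (nat_lit 1) (.e (nat_lit 57852) (nat_lit 252) (.e (nat_lit 57447) (nat_lit 19) .nil))))) (.g (nat_lit 0) (.e (nat_lit 373616) (nat_lit 0) .nil) .nil))) 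
(.lf (nat_lit 579569) (.g (nat_lit 2799) (.e (nat_lit 336326) (nat_lit 18) (.e (nat_lit 204854) (nat_lit 26) (.e (nat_lit 336326) (nat_lit 18) (.e (nat_lit 204854) (nat_lit 26) (.e (nat_lit 336297) (nat_lit 15) (.e (nat_lit 3234) (nat_lit 197) (.e (nat_lit 532530) (nat_lit 9) .nil))))))) (.g (nat_lit 1) (.e (nat_lit 374904) (nat_lit 0) .nil) .nil))))))))) 
(.nd (nat_lit 4) (.nd (nat_lit 5) (.nd (nat_lit 6) (.nd (nat_lit 7) (.nd (nat_lit 8) 
(.nd (nat_lit 9) 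
(.lf (nat_lit 578569) (.g (nat_lit 1692) (.e (nat_lit 336226) (nat_lit 14) (.e (nat_lit 401459) (nat_lit 13) (.e (nat_lit 483411) (nat_lit 27) (.e (nat_lit 409344) (nat_lit 9) .nil)))) (.g (nat_lit 0) (.e (nat_lit 371979) (nat_lit 0) .nil) .nil))) 
(.lf (nat_lit 579081) (.g (nat_lit 1747) (.e (nat_lit 336310) (nat_lit 16) (.e (nat_lit 164182) (nat_lit 154) (.e (nat_lit 57378) (nat_lit 3) (.e (nat_lit 98334) (nat_lit 18) .nil)))) (.g (nat_lit 0) (.e (nat_lit 373693) (nat_lit 0) .nil) .nil)))) (.nd (nat_lit 9) 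
(.lf (nat_lit 578825) (.g (nat_lit 3423) (.e (nat_lit 336235) (nat_lit 14) (.e (nat_lit 401459) (nat_lit 13) (.e (nat_lit 483409) (nat_lit 27) (.e (nat_lit 401437) (nat_lit 9) (.e (nat_lit 426530) (nat_lit 27) .nil))))) (.g (nat_lit 1) (.e (nat_lit 372818) (nat_lit 0) .nil) .nil))) 
(.lf (nat_lit 579337) (.g (nat_lit 2442) (.e (nat_lit 336324) (nat_lit 18) (.e (nat_lit 204852) (nat_lit 26) (.e (nat_lit 336324) (nat_lit 18) (.e (nat_lit 204854) (nat_lit 26) (.e (nat_lit 336316) (nat_lit 17) (.e (nat_lit 196630) (nat_lit 9) (.e (nat_lit 1413) (nat_lit 108) .nil))))))) (.g (nat_lit 1) (.e (nat_lit 374406) (nat_lit 0) .nil) .nil))))) (.nd (nat_lit 8) (.nd (nat_lit 9) 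
(.lf (nat_lit 578697) (.g (nat_lit 2430) (.e (nat_lit 336230) (nat_lit 14) (.e (nat_lit 401456) (nat_lit 13) (.e (nat_lit 483346) (nat_lit 17) (.e (nat_lit 6718) (nat_lit 361) (.e (nat_lit 172150) (nat_lit 27) .nil))))) (.g (nat_lit 1) (.e (nat_lit 372363) (nat_lit 0) .nil) .nil))) 
(.lf (nat_lit 579209) (.g (nat_lit 1346) (.e (nat_lit 336323) (nat_lit 18) (.e (nat_lit 204831) (nat_lit 18) (.e (nat_lit 57847) (nat_lit 252) (.e (nat_lit 57407) (nat_lit 12) (.e (nat_lit 336367) (nat_lit 27) .nil))))) (.g (nat_lit 0) (.e (nat_lit 374188) (nat_lit 0) .nil) .nil)))) (.nd (nat_lit 9) 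
(.lf (nat_lit 578953) (.g (nat_lit 2607) (.e (nat_lit 336303) (nat_lit 15) (.e (nat_lit 3307) (nat_lit 202) (.e (nat_lit 573484) (nat_lit 13) (.e (nat_lit 65610) (nat_lit 10) (.e (nat_lit 344129) (nat_lit 26) .nil))))) (.g (nat_lit 0) (.e (nat_lit 373278) (nat_lit 0) .nil) .nil))) 
(.lf (nat_lit 579465) (.g (nat_lit 1198) (.e (nat_lit 336325) (nat_lit 18) (.e (nat_lit 204852) (nat_lit 26) (.e (nat_lit 336316) (nat_lit 17) (.e (nat_lit 196630) (nat_lit 9) .nil)))) (.g (nat_lit 0) (.e (nat_lit 374629) (nat_lit 0) .nil) .nil)))))) (.nd (nat_lit 7) (.nd (nat_lit 8) (.nd (nat_lit 9) 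
(.lf (nat_lit 578633) (.g (nat_lit 1413) (.e (nat_lit 336228) (nat_lit 14) (.e (nat_lit 401458) (nat_lit 13) (.e (nat_lit 483350) (nat_lit 17) (.e (nat_lit 6218) (nat_lit 333) .nil)))) (.g (nat_lit 0) (.e (nat_lit 372083) (nat_lit 0) .nil) .nil))) 
(.lf (nat_lit 579145) (.g (nat_lit 408) (.e (nat_lit 336316) (nat_lit 17) (.e (nat_lit 196674) (nat_lit 15) (.e (nat_lit 81925) (nat_lit 11) .nil))) (.g (nat_lit 0) (.e (nat_lit 373950) (nat_lit 0) .nil) .nil)))) (.nd (nat_lit 9) 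
(.lf (nat_lit 578889) (.g (nat_lit 656) (.e (nat_lit 336265) (nat_lit 15) (.e (nat_lit 3253) (nat_lit 197) (.e (nat_lit 532503) (nat_lit 1) .nil))) (.g (nat_lit 0) (.e (nat_lit 373153) (nat_lit 0) .nil) .nil))) 
(.lf (nat_lit 579401) (.g (nat_lit 670) (.e (nat_lit 336324) (nat_lit 18) (.e (nat_lit 204880) (nat_lit 32) (.e (nat_lit 385067) (nat_lit 26) .nil))) (.g (nat_lit 0) (.e (nat_lit 374517) (nat_lit 0) .nil) .nil))))) (.nd (nat_lit 8) (.nd (nat_lit 9) 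
(.lf (nat_lit 578761) (.g (nat_lit 2259) (.e (nat_lit 336232) (nat_lit 14) (.e (nat_lit 401432) (nat_lit 7) (.e (nat_lit 409649) (nat_lit 18) (.e (nat_lit 303140) (nat_lit 10) (.e (nat_lit 434275) (nat_lit 39) .nil))))) (.g (nat_lit 0) (.e (nat_lit 372604) (nat_lit 0) .nil) .nil))) 
(.lf (nat_lit 579273) (.g (nat_lit 1408) (.e (nat_lit 336324) (nat_lit 18) (.e (nat_lit 204831) (nat_lit 18) (.e (nat_lit 57931) (nat_lit 282) (.e (nat_lit 163878) (nat_lit 4) .nil)))) (.g (nat_lit 0) (.e (nat_lit 374299) (nat_lit 0) .nil) .nil)))) (.nd (nat_lit 9) 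
(.lf (nat_lit 579017) (.g (nat_lit 1125) (.e (nat_lit 336291) (nat_lit 15) (.e (nat_lit 3632) (nat_lit 227) (.e (nat_lit 778324) (nat_lit 5) (.e (nat_lit 73781) (nat_lit 32) .nil)))) (.g (nat_lit 0) (.e (nat_lit 373542) (nat_lit 0) .nil) .nil))) 
(.lf (nat_lit 579529) (.g (nat_lit 1955) (.e (nat_lit 336326) (nat_lit 18) (.e (nat_lit 204852) (nat_lit 26) (.e (nat_lit 336326) (nat_lit 18) (.e (nat_lit 204880) (nat_lit 32) (.e (nat_lit 385065) (nat_lit 26) .nil))))) (.g (nat_lit 0) (.e (nat_lit 374838) (nat_lit 0) .nil) .nil))))))) (.nd (nat_lit 6) (.nd (nat_lit 7) (.nd (nat_lit 8) (.nd (nat_lit 9) 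
(.lf (nat_lit 578601) (.g (nat_lit 1557) (.e (nat_lit 336228) (nat_lit 14) (.e (nat_lit 401437) (nat_lit 9) (.e (nat_lit 426482) (nat_lit 27) (.e (nat_lit 336228) (nat_lit 14) .nil)))) (.g (nat_lit 0) (.e (nat_lit 372027) (nat_lit 0) .nil) .nil))) 
(.lf (nat_lit 579113) (.g (nat_lit 1995) (.e (nat_lit 336316) (nat_lit 17) (.e (nat_lit 196666) (nat_lit 13) (.e (nat_lit 65617) (nat_lit 10) (.e (nat_lit 344091) (nat_lit 18) (.e (nat_lit 7695) (nat_lit 412) .nil))))) (.g (nat_lit 0) (.e (nat_lit 373790) (nat_lit 0) .nil) .nil)))) (.nd (nat_lit 9) 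
(.lf (nat_lit 578857) (.g (nat_lit 2013) (.e (nat_lit 336240) (nat_lit 15) (.e (nat_lit 3309) (nat_lit 202) (.e (nat_lit 573484) (nat_lit 13) (.e (nat_lit 65617) (nat_lit 10) (.e (nat_lit 344132) (nat_lit 26) .nil))))) (.g (nat_lit 0) (.e (nat_lit 372954) (nat_lit 0) .nil) .nil))) 
(.lf (nat_lit 579369) (.g (nat_lit 2805) (.e (nat_lit 336324) (nat_lit 18) (.e (nat_lit 204854) (nat_lit 26) (.e (nat_lit 336324) (nat_lit 18) (.e (nat_lit 204852) (nat_lit 26) (.e (nat_lit 336316) (nat_lit 17) (.e (nat_lit 196630) (nat_lit 9) (.e (nat_lit 1433) (nat_lit 108) .nil))))))) (.g (nat_lit 1) (.e (nat_lit 374461) (nat_lit 0) .nil) .nil))))) (.nd (nat_lit 8) (.nd (nat_lit 9) 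
(.lf (nat_lit 578729) (.g (nat_lit 355) (.e (nat_lit 336231) (nat_lit 14) (.e (nat_lit 401448) (nat_lit 10) (.e (nat_lit 434202) (nat_lit 18) .nil))) (.g (nat_lit 0) (.e (nat_lit 372469) (nat_lit 0) .nil) .nil))) 
(.lf (nat_lit 579241) (.g (nat_lit 3886) (.e (nat_lit 336324) (nat_lit 18) (.e (nat_lit 204831) (nat_lit 18) (.e (nat_lit 57846) (nat_lit 252) (.e (nat_lit 57406) (nat_lit 12) (.e (nat_lit 336454) (nat_lit 34) (.e (nat_lit 483380) (nat_lit 23) .nil)))))) (.g (nat_lit 1) (.e (nat_lit 374252) (nat_lit 0) .nil) .nil)))) (.nd (nat_lit 9) 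
(.lf (nat_lit 578985) (.g (nat_lit 1435) (.e (nat_lit 336306) (nat_lit 15) (.e (nat_lit 3298) (nat_lit 202) (.e (nat_lit 573493) (nat_lit 15) (.e (nat_lit 81954) (nat_lit 23) .nil)))) (.g (nat_lit 0) (.e (nat_lit 373423) (nat_lit 0) .nil) .nil))) 
(.lf (nat_lit 579497) (.g (nat_lit 1469) (.e (nat_lit 336326) (nat_lit 18) (.e (nat_lit 204831) (nat_lit 18) (.e (nat_lit 57852) (nat_lit 252) (.e (nat_lit 65280) (nat_lit 12) .nil)))) (.g (nat_lit 0) (.e (nat_lit 374751) (nat_lit 0) .nil) .nil)))))) (.nd (nat_lit 7) (.nd (nat_lit 8) (.nd (nat_lit 9) 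
(.lf (nat_lit 578665) (.g (nat_lit 745) (.e (nat_lit 336229) (nat_lit 14) (.e (nat_lit 401459) (nat_lit 13) (.e (nat_lit 483343) (nat_lit 17) (.e (nat_lit 6720) (nat_lit 361) .nil)))) (.g (nat_lit 0) (.e (nat_lit 372187) (nat_lit 0) .nil) .nil))) 
(.lf (nat_lit 579177) (.g (nat_lit 823) (.e (nat_lit 336322) (nat_lit 18) (.e (nat_lit 204852) (nat_lit 26) (.e (nat_lit 336325) (nat_lit 18) .nil))) (.g (nat_lit 0) (.e (nat_lit 374143) (nat_lit 0) .nil) .nil)))) (.nd (nat_lit 9) 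
(.lf (nat_lit 578921) (.g (nat_lit 1191) (.e (nat_lit 336275) (nat_lit 15) (.e (nat_lit 3632) (nat_lit 227) (.e (nat_lit 778323) (nat_lit 5) (.e (nat_lit 73782) (nat_lit 32) .nil)))) (.g (nat_lit 0) (.e (nat_lit 373205) (nat_lit 0) .nil) .nil))) 
(.lf (nat_lit 579433) (.g (nat_lit 2918) (.e (nat_lit 336324) (nat_lit 18) (.e (nat_lit 204882) (nat_lit 32) (.e (nat_lit 385067) (nat_lit 26) (.e (nat_lit 532530) (nat_lit 9) (.e (nat_lit 336326) (nat_lit 18) (.e (nat_lit 204852) (nat_lit 26) .nil)))))) (.g (nat_lit 1) (.e (nat_lit 374558) (nat_lit 0) .nil) .nil))))) (.nd (nat_lit 8) (.nd (nat_lit 9) 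
(.lf (nat_lit 578793) (.g (nat_lit 2160) (.e (nat_lit 336235) (nat_lit 14) (.e (nat_lit 401436) (nat_lit 9) (.e (nat_lit 426540) (nat_lit 29) (.e (nat_lit 352262) (nat_lit 0) (.e (nat_lit 3748) (nat_lit 228) (.e (nat_lit 786473) (nat_lit 27) .nil)))))) (.g (nat_lit 1) (.e (nat_lit 372761) (nat_lit 0) .nil) .nil))) 
(.lf (nat_lit 579305) (.g (nat_lit 2833) (.e (nat_lit 336324) (nat_lit 18) (.e (nat_lit 204838) (nat_lit 20) (.e (nat_lit 114695) (nat_lit 11) (.e (nat_lit 426129) (nat_lit 3) (.e (nat_lit 204852) (nat_lit 26) (.e (nat_lit 343808) (nat_lit 9) .nil)))))) (.g (nat_lit 1) (.e (nat_lit 374353) (nat_lit 0) .nil) .nil)))) (.nd (nat_lit 9) 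
(.lf (nat_lit 579049) (.g (nat_lit 2125) (.e (nat_lit 336297) (nat_lit 15) (.e (nat_lit 3253) (nat_lit 197) (.e (nat_lit 532530) (nat_lit 9) (.e (nat_lit 336326) (nat_lit 18) (.e (nat_lit 204852) (nat_lit 26) .nil))))) (.g (nat_lit 0) (.e (nat_lit 373607) (nat_lit 0) .nil) .nil))) 
(.lf (nat_lit 579561) (.g (nat_lit 2654) (.e (nat_lit 336326) (nat_lit 18) (.e (nat_lit 204854) (nat_lit 26) (.e (nat_lit 336326) (nat_lit 18) (.e (nat_lit 204854) (nat_lit 26) (.e (nat_lit 336263) (nat_lit 15) .nil))))) (.g (nat_lit 0) (.e (nat_lit 374896) (nat_lit 0) .nil) .nil)))))))) (.nd (nat_lit 5) (.nd (nat_lit 6) (.nd (nat_lit 7) (.nd (nat_lit 8) (.nd (nat_lit 9) 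
(.lf (nat_lit 578585) (.g (nat_lit 3866) (.e (nat_lit 336228) (nat_lit 14) (.e (nat_lit 401425) (nat_lit 2) (.e (nat_lit 196666) (nat_lit 13) (.e (nat_lit 65630) (nat_lit 14) (.e (nat_lit 401428) (nat_lit 3) (.e (nat_lit 204850) (nat_lit 26) .nil)))))) (.g (nat_lit 1) (.e (nat_lit 372007) (nat_lit 0) .nil) .nil))) 
(.lf (nat_lit 579097) (.g (nat_lit 2073) (.e (nat_lit 336316) (nat_lit 17) (.e (nat_lit 196666) (nat_lit 13) (.e (nat_lit 65610) (nat_lit 10) (.e (nat_lit 344088) (nat_lit 18) .nil)))) (.g (nat_lit 0) (.e (nat_lit 373769) (nat_lit 0) .nil) .nil)))) (.nd (nat_lit 9) 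
(.lf (nat_lit 578841) (.g (nat_lit 3619) (.e (nat_lit 343808) (nat_lit 14) (.e (nat_lit 401459) (nat_lit 13) (.e (nat_lit 483372) (nat_lit 21) (.e (nat_lit 319513) (nat_lit 10) .nil)))) (.g (nat_lit 0) (.e (nat_lit 372848) (nat_lit 0) .nil) .nil))) 
(.lf (nat_lit 579353) (.g (nat_lit 1311) (.e (nat_lit 336324) (nat_lit 18) (.e (nat_lit 204854) (nat_lit 26) (.e (nat_lit 336115) (nat_lit 9) (.e (nat_lit 336418) (nat_lit 27) .nil)))) (.g (nat_lit 0) (.e (nat_lit 374442) (nat_lit 0) .nil) .nil))))) (.nd (nat_lit 8) (.nd (nat_lit 9) 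
(.lf (nat_lit 578713) (.g (nat_lit 2653) (.e (nat_lit 336231) (nat_lit 14) (.e (nat_lit 401444) (nat_lit 9) (.e (nat_lit 426163) (nat_lit 6) (.e (nat_lit 253991) (nat_lit 11) (.e (nat_lit 16444) (nat_lit 9) .nil))))) (.g (nat_lit 0) (.e (nat_lit 372422) (nat_lit 0) .nil) .nil))) 
(.lf (nat_lit 579225) (.g (nat_lit 2334) (.e (nat_lit 336323) (nat_lit 18) (.e (nat_lit 204854) (nat_lit 26) (.e (nat_lit 336324) (nat_lit 18) (.e (nat_lit 204880) (nat_lit 32) (.e (nat_lit 385057) (nat_lit 22) .nil))))) (.g (nat_lit 0) (.e (nat_lit 374213) (nat_lit 0) .nil) .nil)))) (.nd (nat_lit 9) 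
(.lf (nat_lit 578969) (.g (nat_lit 1600) (.e (nat_lit 336306) (nat_lit 15) (.e (nat_lit 3238) (nat_lit 197) (.e (nat_lit 532530) (nat_lit 9) (.e (nat_lit 336316) (nat_lit 17) .nil)))) (.g (nat_lit 0) (.e (nat_lit 373337) (nat_lit 0) .nil) .nil))) 
(.lf (nat_lit 579481) (.g (nat_lit 473) (.e (nat_lit 336326) (nat_lit 18) (.e (nat_lit 204829) (nat_lit 18) (.e (nat_lit 57849) (nat_lit 252) .nil))) (.g (nat_lit 0) (.e (nat_lit 374683) (nat_lit 0) .nil) .nil)))))) (.nd (nat_lit 7) (.nd (nat_lit 8) (.nd (nat_lit 9) 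
(.lf (nat_lit 578649) (.g (nat_lit 2999) (.e (nat_lit 336229) (nat_lit 14) (.e (nat_lit 401438) (nat_lit 9) (.e (nat_lit 426533) (nat_lit 28) (.e (nat_lit 344067) (nat_lit 0) (.e (nat_lit 2936) (nat_lit 184) (.e (nat_lit 426503) (nat_lit 27) .nil)))))) (.g (nat_lit 1) (.e (nat_lit 372106) (nat_lit 0) .nil) .nil))) 
(.lf (nat_lit 579161) (.g (nat_lit 3080) (.e (nat_lit 336321) (nat_lit 18) (.e (nat_lit 204880) (nat_lit 32) (.e (nat_lit 385066) (nat_lit 26) (.e (nat_lit 532530) (nat_lit 9) (.e (nat_lit 336326) (nat_lit 18) (.e (nat_lit 204859) (nat_lit 26) .nil)))))) (.g (nat_lit 1) (.e (nat_lit 374101) (nat_lit 0) .nil) .nil)))) (.nd (nat_lit 9) 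
(.lf (nat_lit 578905) (.g (nat_lit 1504) (.e (nat_lit 336270) (nat_lit 15) (.e (nat_lit 3305) (nat_lit 202) (.e (nat_lit 573484) (nat_lit 13) (.e (nat_lit 65617) (nat_lit 10) .nil)))) (.g (nat_lit 0) (.e (nat_lit 373183) (nat_lit 0) .nil) .nil))) 
(.lf (nat_lit 579417) (.g (nat_lit 3088) (.e (nat_lit 336324) (nat_lit 18) (.e (nat_lit 204882) (nat_lit 32) (.e (nat_lit 385065) (nat_lit 26) (.e (nat_lit 532563) (nat_lit 15) (.e (nat_lit 385066) (nat_lit 26) (.e (nat_lit 532531) (nat_lit 9) .nil)))))) (.g (nat_lit 1) (.e (nat_lit 374539) (nat_lit 0) .nil) .nil))))) (.nd (nat_lit 8) (.nd (nat_lit 9) 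
(.lf (nat_lit 578777) (.g (nat_lit 822) (.e (nat_lit 336233) (nat_lit 14) (.e (nat_lit 401425) (nat_lit 2) (.e (nat_lit 196666) (nat_lit 13) .nil))) (.g (nat_lit 0) (.e (nat_lit 372709) (nat_lit 0) .nil) .nil))) 
(.lf (nat_lit 579289) (.g (nat_lit 2666) (.e (nat_lit 336324) (nat_lit 18) (.e (nat_lit 204837) (nat_lit 20) (.e (nat_lit 114698) (nat_lit 11) (.e (nat_lit 426139) (nat_lit 3) (.e (nat_lit 204850) (nat_lit 26) .nil))))) (.g (nat_lit 0) (.e (nat_lit 374335) (nat_lit 0) .nil) .nil)))) (.nd (nat_lit 9) 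
(.lf (nat_lit 579033) (.g (nat_lit 4093) (.e (nat_lit 336295) (nat_lit 15) (.e (nat_lit 3632) (nat_lit 227) (.e (nat_lit 778318) (nat_lit 3) (.e (nat_lit 57474) (nat_lit 28) (.e (nat_lit 557100) (nat_lit 13) (.e (nat_lit 172106) (nat_lit 10) (.e (nat_lit 434231) (nat_lit 23) (.e (nat_lit 532535) (nat_lit 9) .nil)))))))) (.g (nat_lit 1) (.e (nat_lit 373587) (nat_lit 0) .nil) .nil))) 
(.lf (nat_lit 579545) (.g (nat_lit 1161) (.e (nat_lit 336326) (nat_lit 18) (.e (nat_lit 204854) (nat_lit 26) (.e (nat_lit 336316) (nat_lit 17) (.e (nat_lit 196626) (nat_lit 9) .nil)))) (.g (nat_lit 0) (.e (nat_lit 374872) (nat_lit 0) .nil) .nil))))))) (.nd (nat_lit 6) (.nd (nat_lit 7) (.nd (nat_lit 8) (.nd (nat_lit 9) 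
(.lf (nat_lit 578617) (.g (nat_lit 2342) (.e (nat_lit 336228) (nat_lit 14) (.e (nat_lit 401456) (nat_lit 13) (.e (nat_lit 483371) (nat_lit 21) (.e (nat_lit 319538) (nat_lit 19) (.e (nat_lit 311353) (nat_lit 27) .nil))))) (.g (nat_lit 1) (.e (nat_lit 372061) (nat_lit 0) .nil) .nil))) 
(.lf (nat_lit 579129) (.g (nat_lit 2592) (.e (nat_lit 336316) (nat_lit 17) (.e (nat_lit 196666) (nat_lit 13) (.e (nat_lit 65617) (nat_lit 10) (.e (nat_lit 344096) (nat_lit 18) (.e (nat_lit 7697) (nat_lit 412) (.e (nat_lit 57366) (nat_lit 1) (.e (nat_lit 57847) (nat_lit 252) (.e (nat_lit 57407) (nat_lit 12) .nil)))))))) (.g (nat_lit 1) (.e (nat_lit 373806) (nat_lit 0) .nil) .nil)))) 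
(.nd (nat_lit 9) 
(.lf (nat_lit 578873) (.g (nat_lit 2590) (.e (nat_lit 336261) (nat_lit 15) (.e (nat_lit 3307) (nat_lit 202) (.e (nat_lit 573484) (nat_lit 13) (.e (nat_lit 65617) (nat_lit 10) .nil)))) (.g (nat_lit 0) (.e (nat_lit 373085) (nat_lit 0) .nil) .nil))) 
(.lf (nat_lit 579385) (.g (nat_lit 525) (.e (nat_lit 336324) (nat_lit 18) (.e (nat_lit 204854) (nat_lit 26) (.e (nat_lit 343808) (nat_lit 18) .nil))) (.g (nat_lit 0) (.e (nat_lit 374498) (nat_lit 0) .nil) .nil))))) (.nd (nat_lit 8) (.nd (nat_lit 9) 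
(.lf (nat_lit 578745) (.g (nat_lit 1452) (.e (nat_lit 336231) (nat_lit 14) (.e (nat_lit 401448) (nat_lit 10) (.e (nat_lit 434289) (nat_lit 43) (.e (nat_lit 696343) (nat_lit 8) .nil)))) (.g (nat_lit 0) (.e (nat_lit 372516) (nat_lit 0) .nil) .nil))) 
(.lf (nat_lit 579257) (.g (nat_lit 3148) (.e (nat_lit 336324) (nat_lit 18) (.e (nat_lit 204831) (nat_lit 18) (.e (nat_lit 57851) (nat_lit 252) (.e (nat_lit 57409) (nat_lit 12) (.e (nat_lit 336454) (nat_lit 34) (.e (nat_lit 483385) (nat_lit 23) .nil)))))) (.g (nat_lit 1) (.e (nat_lit 374270) (nat_lit 0) .nil) .nil)))) (.nd (nat_lit 9) 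
(.lf (nat_lit 579001) (.g (nat_lit 2533) (.e (nat_lit 336306) (nat_lit 15) (.e (nat_lit 3308) (nat_lit 202) (.e (nat_lit 573484) (nat_lit 13) (.e (nat_lit 65617) (nat_lit 10) (.e (nat_lit 344130) (nat_lit 26) .nil))))) (.g (nat_lit 0) (.e (nat_lit 373482) (nat_lit 0) .nil) .nil))) 
(.lf (nat_lit 579513) (.g (nat_lit 418) (.e (nat_lit 336326) (nat_lit 18) (.e (nat_lit 204852) (nat_lit 26) (.e (nat_lit 336326) (nat_lit 18) .nil))) (.g (nat_lit 0) (.e (nat_lit 374817) (nat_lit 0) .nil) .nil)))))) (.nd (nat_lit 7) (.nd (nat_lit 8) (.nd (nat_lit 9) 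
(.lf (nat_lit 578681) (.g (nat_lit 2369) (.e (nat_lit 336230) (nat_lit 14) (.e (nat_lit 401446) (nat_lit 10) (.e (nat_lit 434289) (nat_lit 43) (.e (nat_lit 696330) (nat_lit 5) (.e (nat_lit 2988) (nat_lit 186) (.e (nat_lit 442390) (nat_lit 11) .nil)))))) (.g (nat_lit 1) (.e (nat_lit 372282) (nat_lit 0) .nil) .nil))) 
(.lf (nat_lit 579193) (.g (nat_lit 2520) (.e (nat_lit 336322) (nat_lit 18) (.e (nat_lit 204880) (nat_lit 32) (.e (nat_lit 385068) (nat_lit 26) (.e (nat_lit 532530) (nat_lit 9) (.e (nat_lit 336326) (nat_lit 18) (.e (nat_lit 204851) (nat_lit 26) .nil)))))) (.g (nat_lit 1) (.e (nat_lit 374172) (nat_lit 0) .nil) .nil)))) (.nd (nat_lit 9) 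
(.lf (nat_lit 578937) (.g (nat_lit 2404) (.e (nat_lit 336284) (nat_lit 15) (.e (nat_lit 3302) (nat_lit 202) (.e (nat_lit 573484) (nat_lit 13) (.e (nat_lit 65617) (nat_lit 10) .nil)))) (.g (nat_lit 0) (.e (nat_lit 373232) (nat_lit 0) .nil) .nil))) 
(.lf (nat_lit 579449) (.g (nat_lit 501) (.e (nat_lit 336325) (nat_lit 18) (.e (nat_lit 204837) (nat_lit 20) (.e (nat_lit 114698) (nat_lit 11) .nil))) (.g (nat_lit 0) (.e (nat_lit 374585) (nat_lit 0) .nil) .nil))))) (.nd (nat_lit 8) (.nd (nat_lit 9) 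
(.lf (nat_lit 578809) (.g (nat_lit 842) (.e (nat_lit 336235) (nat_lit 14) (.e (nat_lit 401456) (nat_lit 13) (.e (nat_lit 483383) (nat_lit 23) .nil))) (.g (nat_lit 0) (.e (nat_lit 372798) (nat_lit 0) .nil) .nil))) 
(.lf (nat_lit 579321) (.g (nat_lit 3701) (.e (nat_lit 336324) (nat_lit 18) (.e (nat_lit 204838) (nat_lit 20) (.e (nat_lit 114698) (nat_lit 11) (.e (nat_lit 426139) (nat_lit 3) (.e (nat_lit 204852) (nat_lit 26) (.e (nat_lit 343808) (nat_lit 9) .nil)))))) (.g (nat_lit 1) (.e (nat_lit 374383) (nat_lit 0) .nil) .nil)))) (.nd (nat_lit 9) 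
(.lf (nat_lit 579065) (.g (nat_lit 2775) (.e (nat_lit 336300) (nat_lit 15) (.e (nat_lit 3632) (nat_lit 227) (.e (nat_lit 778324) (nat_lit 5) (.e (nat_lit 73781) (nat_lit 32) (.e (nat_lit 3089) (nat_lit 191) (.e (nat_lit 483391) (nat_lit 23) .nil)))))) (.g (nat_lit 1) (.e (nat_lit 373630) (nat_lit 0) .nil) .nil))) 
(.lf (nat_lit 579577) (.g (nat_lit 2644) (.e (nat_lit 336326) (nat_lit 18) (.e (nat_lit 204862) (nat_lit 27) (.e (nat_lit 344129) (nat_lit 26) (.e (nat_lit 557097) (nat_lit 13) (.e (nat_lit 172128) (nat_lit 15) .nil))))) (.g (nat_lit 0) (.e (nat_lit 374930) (nat_lit 0) .nil) .nil)))))))))) 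
(.nd (nat_lit 3) (.nd (nat_lit 4) (.nd (nat_lit 5) (.nd (nat_lit 6) (.nd (nat_lit 7) 
(.nd (nat_lit 8) (.nd (nat_lit 9) 
(.lf (nat_lit 578565) (.g (nat_lit 3968) (.e (nat_lit 336226) (nat_lit 14) (.e (nat_lit 401459) (nat_lit 13) (.e (nat_lit 483410) (nat_lit 27) (.e (nat_lit 401437) (nat_lit 9) (.e (nat_lit 426482) (nat_lit 27) .nil))))) (.g (nat_lit 1) (.e (nat_lit 371975) (nat_lit 0) .nil) .nil))) 
(.lf (nat_lit 579077) (.g (nat_lit 1936) (.e (nat_lit 336310) (nat_lit 16) (.e (nat_lit 164179) (nat_lit 154) (.e (nat_lit 57379) (nat_lit 3) (.e (nat_lit 98334) (nat_lit 18) .nil)))) (.g (nat_lit 0) (.e (nat_lit 373689) (nat_lit 0) .nil) .nil)))) (.nd (nat_lit 9) 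
(.lf (nat_lit 578821) (.g (nat_lit 3688) (.e (nat_lit 336235) (nat_lit 14) (.e (nat_lit 401459) (nat_lit 13) (.e (nat_lit 483372) (nat_lit 21) (.e (nat_lit 319497) (nat_lit 10) .nil)))) (.g (nat_lit 0) (.e (nat_lit 372814) (nat_lit 0) .nil) .nil))) 
(.lf (nat_lit 579333) (.g (nat_lit 1813) (.e (nat_lit 336324) (nat_lit 18) (.e (nat_lit 204852) (nat_lit 26) (.e (nat_lit 336324) (nat_lit 18) (.e (nat_lit 204852) (nat_lit 26) (.e (nat_lit 336316) (nat_lit 17) (.e (nat_lit 196630) (nat_lit 9) (.e (nat_lit 1424) (nat_lit 108) .nil))))))) (.g (nat_lit 1) (.e (nat_lit 374399) (nat_lit 0) .nil) .nil))))) (.nd (nat_lit 8) (.nd (nat_lit 9) 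
(.lf (nat_lit 578693) (.g (nat_lit 2819) (.e (nat_lit 336230) (nat_lit 14) (.e (nat_lit 401448) (nat_lit 10) (.e (nat_lit 434289) (nat_lit 43) (.e (nat_lit 696330) (nat_lit 5) (.e (nat_lit 3004) (nat_lit 186) (.e (nat_lit 442390) (nat_lit 11) .nil)))))) (.g (nat_lit 1) (.e (nat_lit 372345) (nat_lit 0) .nil) .nil))) 
(.lf (nat_lit 579205) (.g (nat_lit 1914) (.e (nat_lit 336323) (nat_lit 18) (.e (nat_lit 204830) (nat_lit 18) (.e (nat_lit 57852) (nat_lit 252) (.e (nat_lit 57447) (nat_lit 19) (.e (nat_lit 393226) (nat_lit 9) .nil))))) (.g (nat_lit 0) (.e (nat_lit 374184) (nat_lit 0) .nil) .nil)))) (.nd (nat_lit 9) 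
(.lf (nat_lit 578949) (.g (nat_lit 3427) (.e (nat_lit 336282) (nat_lit 15) (.e (nat_lit 3632) (nat_lit 227) (.e (nat_lit 778324) (nat_lit 5) (.e (nat_lit 73781) (nat_lit 32) (.e (nat_lit 3090) (nat_lit 191) (.e (nat_lit 483386) (nat_lit 23) .nil)))))) (.g (nat_lit 1) (.e (nat_lit 373265) (nat_lit 0) .nil) .nil))) 
(.lf (nat_lit 579461) (.g (nat_lit 1415) (.e (nat_lit 336325) (nat_lit 18) (.e (nat_lit 204838) (nat_lit 20) (.e (nat_lit 114698) (nat_lit 11) (.e (nat_lit 426138) (nat_lit 3) .nil)))) (.g (nat_lit 0) (.e (nat_lit 374621) (nat_lit 0) .nil) .nil)))))) (.nd (nat_lit 7) (.nd (nat_lit 8) (.nd (nat_lit 9) 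
(.lf (nat_lit 578629) (.g (nat_lit 845) (.e (nat_lit 336228) (nat_lit 14) (.e (nat_lit 401457) (nat_lit 13) (.e (nat_lit 483411) (nat_lit 27) .nil))) (.g (nat_lit 0) (.e (nat_lit 372076) (nat_lit 0) .nil) .nil))) 
(.lf (nat_lit 579141) (.g (nat_lit 1529) (.e (nat_lit 336316) (nat_lit 17) (.e (nat_lit 196670) (nat_lit 14) (.e (nat_lit 73754) (nat_lit 8) (.e (nat_lit 557095) (nat_lit 13) .nil)))) (.g (nat_lit 0) (.e (nat_lit 373925) (nat_lit 0) .nil) .nil)))) (.nd (nat_lit 9) 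
(.lf (nat_lit 578885) (.g (nat_lit 1716) (.e (nat_lit 336263) (nat_lit 15) (.e (nat_lit 3253) (nat_lit 197) (.e (nat_lit 532504) (nat_lit 1) (.e (nat_lit 57852) (nat_lit 252) (.e (nat_lit 57406) (nat_lit 12) .nil))))) (.g (nat_lit 0) (.e (nat_lit 373147) (nat_lit 0) .nil) .nil))) 
(.lf (nat_lit 579397) (.g (nat_lit 1266) (.e (nat_lit 336324) (nat_lit 18) (.e (nat_lit 204880) (nat_lit 32) (.e (nat_lit 385066) (nat_lit 26) (.e (nat_lit 532533) (nat_lit 9) .nil)))) (.g (nat_lit 0) (.e (nat_lit 374513) (nat_lit 0) .nil) .nil))))) (.nd (nat_lit 8) (.nd (nat_lit 9) 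
(.lf (nat_lit 578757) (.g (nat_lit 2135) (.e (nat_lit 336232) (nat_lit 14) (.e (nat_lit 401432) (nat_lit 7) (.e (nat_lit 409645) (nat_lit 18) (.e (nat_lit 303140) (nat_lit 10) (.e (nat_lit 434275) (nat_lit 39) .nil))))) (.g (nat_lit 0) (.e (nat_lit 372595) (nat_lit 0) .nil) .nil))) 
(.lf (nat_lit 579269) (.g (nat_lit 2710) (.e (nat_lit 336324) (nat_lit 18) (.e (nat_lit 204831) (nat_lit 18) (.e (nat_lit 57854) (nat_lit 252) (.e (nat_lit 57409) (nat_lit 12) (.e (nat_lit 336368) (nat_lit 27) .nil))))) (.g (nat_lit 0) (.e (nat_lit 374292) (nat_lit 0) .nil) .nil)))) (.nd (nat_lit 9) 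
(.lf (nat_lit 579013) (.g (nat_lit 1035) (.e (nat_lit 336291) (nat_lit 15) (.e (nat_lit 3631) (nat_lit 227) (.e (nat_lit 778323) (nat_lit 5) (.e (nat_lit 73781) (nat_lit 32) .nil)))) (.g (nat_lit 0) (.e (nat_lit 373538) (nat_lit 0) .nil) .nil))) 
(.lf (nat_lit 579525) (.g (nat_lit 2828) (.e (nat_lit 336326) (nat_lit 18) (.e (nat_lit 204852) (nat_lit 26) (.e (nat_lit 336326) (nat_lit 18) (.e (nat_lit 204854) (nat_lit 26) (.e (nat_lit 336304) (nat_lit 15) (.e (nat_lit 3234) (nat_lit 197) (.e (nat_lit 532530) (nat_lit 9) .nil))))))) (.g (nat_lit 1) (.e (nat_lit 374832) (nat_lit 0) .nil) .nil))))))) 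
(.nd (nat_lit 6) (.nd (nat_lit 7) (.nd (nat_lit 8) (.nd (nat_lit 9) 
(.lf (nat_lit 578597) (.g (nat_lit 1240) (.e (nat_lit 336228) (nat_lit 14) (.e (nat_lit 401435) (nat_lit 9) (.e (nat_lit 426544) (nat_lit 30) (.e (nat_lit 360457) (nat_lit 0) (.e (nat_lit 5949) (nat_lit 322) .nil))))) (.g (nat_lit 0) (.e (nat_lit 372023) (nat_lit 0) .nil) .nil))) 
(.lf (nat_lit 579109) (.g (nat_lit 1456) (.e (nat_lit 336316) (nat_lit 17) (.e (nat_lit 196666) (nat_lit 13) (.e (nat_lit 65617) (nat_lit 10) (.e (nat_lit 344088) (nat_lit 18) .nil)))) (.g (nat_lit 0) (.e (nat_lit 373786) (nat_lit 0) .nil) .nil)))) (.nd (nat_lit 9) 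
(.lf (nat_lit 578853) (.g (nat_lit 3887) (.e (nat_lit 336240) (nat_lit 15) (.e (nat_lit 3309) (nat_lit 202) (.e (nat_lit 573484) (nat_lit 13) (.e (nat_lit 65610) (nat_lit 10) (.e (nat_lit 344129) (nat_lit 26) (.e (nat_lit 557087) (nat_lit 11) (.e (nat_lit 24626) (nat_lit 9) .nil))))))) (.g (nat_lit 1) (.e (nat_lit 372949) (nat_lit 0) .nil) .nil))) 
(.lf (nat_lit 579365) (.g (nat_lit 2511) (.e (nat_lit 336324) (nat_lit 18) (.e (nat_lit 204854) (nat_lit 26) (.e (nat_lit 336322) (nat_lit 18) (.e (nat_lit 204852) (nat_lit 26) (.e (nat_lit 336324) (nat_lit 18) (.e (nat_lit 204853) (nat_lit 26) .nil)))))) (.g (nat_lit 1) (.e (nat_lit 374457) (nat_lit 0) .nil) .nil))))) (.nd (nat_lit 8) (.nd (nat_lit 9) 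
(.lf (nat_lit 578725) (.g (nat_lit 1230) (.e (nat_lit 336231) (nat_lit 14) (.e (nat_lit 401446) (nat_lit 10) (.e (nat_lit 434288) (nat_lit 43) (.e (nat_lit 696342) (nat_lit 8) .nil)))) (.g (nat_lit 0) (.e (nat_lit 372461) (nat_lit 0) .nil) .nil))) 
(.lf (nat_lit 579237) (.g (nat_lit 890) (.e (nat_lit 336324) (nat_lit 18) (.e (nat_lit 204830) (nat_lit 18) (.e (nat_lit 57852) (nat_lit 252) (.e (nat_lit 57404) (nat_lit 12) .nil)))) (.g (nat_lit 0) (.e (nat_lit 374241) (nat_lit 0) .nil) .nil)))) (.nd (nat_lit 9) 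
(.lf (nat_lit 578981) (.g (nat_lit 318) (.e (nat_lit 336306) (nat_lit 15) (.e (nat_lit 3297) (nat_lit 202) (.e (nat_lit 573492) (nat_lit 15) .nil))) (.g (nat_lit 0) (.e (nat_lit 373385) (nat_lit 0) .nil) .nil))) 
(.lf (nat_lit 579493) (.g (nat_lit 2904) (.e (nat_lit 336326) (nat_lit 18) (.e (nat_lit 204831) (nat_lit 18) (.e (nat_lit 57849) (nat_lit 252) (.e (nat_lit 57377) (nat_lit 3) (.e (nat_lit 98338) (nat_lit 19) (.e (nat_lit 213013) (nat_lit 9) (.e (nat_lit 2684) (nat_lit 168) (.e (nat_lit 204852) (nat_lit 26) .nil)))))))) (.g (nat_lit 1) (.e (nat_lit 374730) (nat_lit 0) .nil) .nil)))))) 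
(.nd (nat_lit 7) (.nd (nat_lit 8) (.nd (nat_lit 9) 
(.lf (nat_lit 578661) (.g (nat_lit 1745) (.e (nat_lit 336229) (nat_lit 14) (.e (nat_lit 401458) (nat_lit 13) (.e (nat_lit 483372) (nat_lit 21) (.e (nat_lit 319502) (nat_lit 10) .nil)))) (.g (nat_lit 0) (.e (nat_lit 372168) (nat_lit 0) .nil) .nil))) 
(.lf (nat_lit 579173) (.g (nat_lit 1400) (.e (nat_lit 336322) (nat_lit 18) (.e (nat_lit 204852) (nat_lit 26) (.e (nat_lit 336316) (nat_lit 17) (.e (nat_lit 196630) (nat_lit 9) .nil)))) (.g (nat_lit 0) (.e (nat_lit 374132) (nat_lit 0) .nil) .nil)))) (.nd (nat_lit 9) 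
(.lf (nat_lit 578917) (.g (nat_lit 1615) (.e (nat_lit 336275) (nat_lit 15) (.e (nat_lit 3253) (nat_lit 197) (.e (nat_lit 532503) (nat_lit 1) (.e (nat_lit 57847) (nat_lit 252) (.e (nat_lit 57411) (nat_lit 12) .nil))))) (.g (nat_lit 0) (.e (nat_lit 373201) (nat_lit 0) .nil) .nil))) 
(.lf (nat_lit 579429) (.g (nat_lit 2126) (.e (nat_lit 336324) (nat_lit 18) (.e (nat_lit 204882) (nat_lit 32) (.e (nat_lit 385066) (nat_lit 26) (.e (nat_lit 532533) (nat_lit 9) (.e (nat_lit 336324) (nat_lit 18) (.e (nat_lit 204853) (nat_lit 26) .nil)))))) (.g (nat_lit 1) (.e (nat_lit 374551) (nat_lit 0) .nil) .nil))))) (.nd (nat_lit 8) (.nd (nat_lit 9) 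
(.lf (nat_lit 578789) (.g (nat_lit 4654) (.e (nat_lit 336235) (nat_lit 14) (.e (nat_lit 401428) (nat_lit 3) (.e (nat_lit 204869) (nat_lit 29) (.e (nat_lit 360475) (nat_lit 8) (.e (nat_lit 557064) (nat_lit 9) .nil))))) (.g (nat_lit 0) (.e (nat_lit 372756) (nat_lit 0) .nil) .nil))) 
(.lf (nat_lit 579301) (.g (nat_lit 823) (.e (nat_lit 336324) (nat_lit 18) (.e (nat_lit 204838) (nat_lit 20) (.e (nat_lit 114694) (nat_lit 11) (.e (nat_lit 426115) (nat_lit 2) .nil)))) (.g (nat_lit 0) (.e (nat_lit 374347) (nat_lit 0) .nil) .nil)))) (.nd (nat_lit 9) 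
(.lf (nat_lit 579045) (.g (nat_lit 2090) (.e (nat_lit 336294) (nat_lit 15) (.e (nat_lit 3253) (nat_lit 197) (.e (nat_lit 532504) (nat_lit 1) (.e (nat_lit 57851) (nat_lit 252) (.e (nat_lit 57406) (nat_lit 12) .nil))))) (.g (nat_lit 0) (.e (nat_lit 373601) (nat_lit 0) .nil) .nil))) 
(.lf (nat_lit 579557) (.g (nat_lit 2485) (.e (nat_lit 336326) (nat_lit 18) (.e (nat_lit 204854) (nat_lit 26) (.e (nat_lit 336326) (nat_lit 18) (.e (nat_lit 204854) (nat_lit 26) (.e (nat_lit 336258) (nat_lit 15) .nil))))) (.g (nat_lit 0) (.e (nat_lit 374892) (nat_lit 0) .nil) .nil)))))))) (.nd (nat_lit 5) (.nd (nat_lit 6) (.nd (nat_lit 7) (.nd (nat_lit 8) (.nd (nat_lit 9) 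
(.lf (nat_lit 578581) (.g (nat_lit 1796) (.e (nat_lit 336228) (nat_lit 14) (.e (nat_lit 401425) (nat_lit 2) (.e (nat_lit 196666) (nat_lit 13) (.e (nat_lit 65617) (nat_lit 10) (.e (nat_lit 344091) (nat_lit 18) .nil))))) (.g (nat_lit 0) (.e (nat_lit 372003) (nat_lit 0) .nil) .nil))) 
(.lf (nat_lit 579093) (.g (nat_lit 1546) (.e (nat_lit 336310) (nat_lit 16) (.e (nat_lit 164183) (nat_lit 154) (.e (nat_lit 57379) (nat_lit 3) (.e (nat_lit 98333) (nat_lit 18) .nil)))) (.g (nat_lit 0) (.e (nat_lit 373707) (nat_lit 0) .nil) .nil)))) (.nd (nat_lit 9) 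
(.lf (nat_lit 578837) (.g (nat_lit 4509) (.e (nat_lit 343808) (nat_lit 14) (.e (nat_lit 401459) (nat_lit 13) (.e (nat_lit 483372) (nat_lit 21) (.e (nat_lit 319499) (nat_lit 10) .nil)))) (.g (nat_lit 0) (.e (nat_lit 372844) (nat_lit 0) .nil) .nil))) 
(.lf (nat_lit 579349) (.g (nat_lit 784) (.e (nat_lit 336324) (nat_lit 18) (.e (nat_lit 204854) (nat_lit 26) (.e (nat_lit 336019) (nat_lit 3) .nil))) (.g (nat_lit 0) (.e (nat_lit 374438) (nat_lit 0) .nil) .nil))))) (.nd (nat_lit 8) (.nd (nat_lit 9) 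
(.lf (nat_lit 578709) (.g (nat_lit 434) (.e (nat_lit 336231) (nat_lit 14) (.e (nat_lit 401434) (nat_lit 9) (.e (nat_lit 426160) (nat_lit 6) .nil))) (.g (nat_lit 0) (.e (nat_lit 372405) (nat_lit 0) .nil) .nil))) 
(.lf (nat_lit 579221) (.g (nat_lit 459) (.e (nat_lit 336323) (nat_lit 18) (.e (nat_lit 204852) (nat_lit 26) (.e (nat_lit 336326) (nat_lit 18) .nil))) (.g (nat_lit 0) (.e (nat_lit 374201) (nat_lit 0) .nil) .nil)))) (.nd (nat_lit 9) 
(.lf (nat_lit 578965) (.g (nat_lit 2772) (.e (nat_lit 336306) (nat_lit 15) (.e (nat_lit 3238) (nat_lit 197) (.e (nat_lit 532504) (nat_lit 1) (.e (nat_lit 57851) (nat_lit 252) (.e (nat_lit 57408) (nat_lit 12) .nil))))) (.g (nat_lit 0) (.e (nat_lit 373325) (nat_lit 0) .nil) .nil))) 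
(.lf (nat_lit 579477) (.g (nat_lit 2544) (.e (nat_lit 336325) (nat_lit 18) (.e (nat_lit 204880) (nat_lit 32) (.e (nat_lit 385066) (nat_lit 26) (.e (nat_lit 532534) (nat_lit 9) (.e (nat_lit 336326) (nat_lit 18) (.e (nat_lit 204851) (nat_lit 26) .nil)))))) (.g (nat_lit 1) (.e (nat_lit 374662) (nat_lit 0) .nil) .nil)))))) (.nd (nat_lit 7) (.nd (nat_lit 8) (.nd (nat_lit 9) 
(.lf (nat_lit 578645) (.g (nat_lit 1923) (.e (nat_lit 336228) (nat_lit 14) (.e (nat_lit 401458) (nat_lit 13) (.e (nat_lit 483410) (nat_lit 27) (.e (nat_lit 401438) (nat_lit 9) (.e (nat_lit 426509) (nat_lit 27) .nil))))) (.g (nat_lit 0) (.e (nat_lit 372096) (nat_lit 0) .nil) .nil))) 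
(.lf (nat_lit 579157) (.g (nat_lit 2016) (.e (nat_lit 336321) (nat_lit 18) (.e (nat_lit 204838) (nat_lit 20) (.e (nat_lit 114694) (nat_lit 11) (.e (nat_lit 426139) (nat_lit 3) (.e (nat_lit 204859) (nat_lit 26) .nil))))) (.g (nat_lit 0) (.e (nat_lit 374078) (nat_lit 0) .nil) .nil)))) (.nd (nat_lit 9) 
(.lf (nat_lit 578901) (.g (nat_lit 1212) (.e (nat_lit 336270) (nat_lit 15) (.e (nat_lit 3253) (nat_lit 197) (.e (nat_lit 532503) (nat_lit 1) (.e (nat_lit 57847) (nat_lit 252) .nil)))) (.g (nat_lit 0) (.e (nat_lit 373179) (nat_lit 0) .nil) .nil))) 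
(.lf (nat_lit 579413) (.g (nat_lit 2113) (.e (nat_lit 336324) (nat_lit 18) (.e (nat_lit 204882) (nat_lit 32) (.e (nat_lit 385065) (nat_lit 26) (.e (nat_lit 532530) (nat_lit 9) (.e (nat_lit 336316) (nat_lit 17) (.e (nat_lit 196630) (nat_lit 9) (.e (nat_lit 1413) (nat_lit 108) .nil))))))) (.g (nat_lit 1) (.e (nat_lit 374533) (nat_lit 0) .nil) .nil))))) (.nd (nat_lit 8) (.nd (nat_lit 9) 
(.lf (nat_lit 578773) (.g (nat_lit 2588) (.e (nat_lit 336232) (nat_lit 14) (.e (nat_lit 401448) (nat_lit 10) (.e (nat_lit 434287) (nat_lit 43) (.e (nat_lit 696330) (nat_lit 5) (.e (nat_lit 3004) (nat_lit 186) (.e (nat_lit 442390) (nat_lit 11) .nil)))))) (.g (nat_lit 1) (.e (nat_lit 372674) (nat_lit 0) .nil) .nil))) 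
(.lf (nat_lit 579285) (.g (nat_lit 1135) (.e (nat_lit 336324) (nat_lit 18) (.e (nat_lit 204837) (nat_lit 20) (.e (nat_lit 114698) (nat_lit 11) (.e (nat_lit 426133) (nat_lit 3) .nil)))) (.g (nat_lit 0) (.e (nat_lit 374328) (nat_lit 0) .nil) .nil)))) (.nd (nat_lit 9) 
(.lf (nat_lit 579029) (.g (nat_lit 4272) (.e (nat_lit 336295) (nat_lit 15) (.e (nat_lit 3305) (nat_lit 202) (.e (nat_lit 573484) (nat_lit 13) (.e (nat_lit 65617) (nat_lit 10) (.e (nat_lit 344130) (nat_lit 26) (.e (nat_lit 557087) (nat_lit 11) (.e (nat_lit 24633) (nat_lit 9) .nil))))))) (.g (nat_lit 1) (.e (nat_lit 373569) (nat_lit 0) .nil) .nil))) 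
(.lf (nat_lit 579541) (.g (nat_lit 4117) (.e (nat_lit 336326) (nat_lit 18) (.e (nat_lit 204854) (nat_lit 26) (.e (nat_lit 336306) (nat_lit 15) (.e (nat_lit 3238) (nat_lit 197) (.e (nat_lit 532563) (nat_lit 15) (.e (nat_lit 385066) (nat_lit 26) (.e (nat_lit 532534) (nat_lit 9) .nil))))))) (.g (nat_lit 1) (.e (nat_lit 374867) (nat_lit 0) .nil) .nil))))))) 
(.nd (nat_lit 6) (.nd (nat_lit 7) (.nd (nat_lit 8) (.nd (nat_lit 9) 
(.lf (nat_lit 578613) (.g (nat_lit 1716) (.e (nat_lit 336228) (nat_lit 14) (.e (nat_lit 401438) (nat_lit 9) (.e (nat_lit 426530) (nat_lit 27) (.e (nat_lit 335874) (nat_lit 0) (.e (nat_lit 6719) (nat_lit 361) (.e (nat_lit 179968) (nat_lit 27) .nil)))))) (.g (nat_lit 1) (.e (nat_lit 372044) (nat_lit 0) .nil) .nil))) 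
(.lf (nat_lit 579125) (.g (nat_lit 2418) (.e (nat_lit 336316) (nat_lit 17) (.e (nat_lit 196666) (nat_lit 13) (.e (nat_lit 65617) (nat_lit 10) (.e (nat_lit 344096) (nat_lit 18) (.e (nat_lit 7695) (nat_lit 412) (.e (nat_lit 57363) (nat_lit 1) (.e (nat_lit 57847) (nat_lit 252) (.e (nat_lit 57411) (nat_lit 12) .nil)))))))) (.g (nat_lit 1) (.e (nat_lit 373802) (nat_lit 0) .nil) .nil)))) 
(.nd (nat_lit 9) 
(.lf (nat_lit 578869) (.g (nat_lit 1491) (.e (nat_lit 336261) (nat_lit 15) (.e (nat_lit 3252) (nat_lit 197) (.e (nat_lit 532501) (nat_lit 1) (.e (nat_lit 57851) (nat_lit 252) (.e (nat_lit 57446) (nat_lit 19) .nil))))) (.g (nat_lit 0) (.e (nat_lit 373081) (nat_lit 0) .nil) .nil))) 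
(.lf (nat_lit 579381) (.g (nat_lit 2555) (.e (nat_lit 336324) (nat_lit 18) (.e (nat_lit 204854) (nat_lit 26) (.e (nat_lit 336326) (nat_lit 18) (.e (nat_lit 204854) (nat_lit 26) (.e (nat_lit 336316) (nat_lit 17) (.e (nat_lit 196630) (nat_lit 9) (.e (nat_lit 1424) (nat_lit 108) .nil))))))) (.g (nat_lit 1) (.e (nat_lit 374490) (nat_lit 0) .nil) .nil))))) (.nd (nat_lit 8) (.nd (nat_lit 9) 
(.lf (nat_lit 578741) (.g (nat_lit 2399) (.e (nat_lit 336231) (nat_lit 14) (.e (nat_lit 401448) (nat_lit 10) (.e (nat_lit 434286) (nat_lit 42) (.e (nat_lit 688139) (nat_lit 5) (.e (nat_lit 2887) (nat_lit 184) (.e (nat_lit 426208) (nat_lit 9) (.e (nat_lit 426528) (nat_lit 27) .nil))))))) (.g (nat_lit 1) (.e (nat_lit 372510) (nat_lit 0) .nil) .nil))) 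
(.lf (nat_lit 579253) (.g (nat_lit 2665) (.e (nat_lit 336324) (nat_lit 18) (.e (nat_lit 204831) (nat_lit 18) (.e (nat_lit 57849) (nat_lit 252) (.e (nat_lit 57409) (nat_lit 12) (.e (nat_lit 336454) (nat_lit 34) .nil))))) (.g (nat_lit 0) (.e (nat_lit 374266) (nat_lit 0) .nil) .nil)))) (.nd (nat_lit 9) 
(.lf (nat_lit 578997) (.g (nat_lit 1698) (.e (nat_lit 336306) (nat_lit 15) (.e (nat_lit 3307) (nat_lit 202) (.e (nat_lit 573493) (nat_lit 15) (.e (nat_lit 81953) (nat_lit 22) .nil)))) (.g (nat_lit 0) (.e (nat_lit 373465) (nat_lit 0) .nil) .nil))) 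
(.lf (nat_lit 579509) (.g (nat_lit 2571) (.e (nat_lit 336326) (nat_lit 18) (.e (nat_lit 204838) (nat_lit 20) (.e (nat_lit 114697) (nat_lit 11) (.e (nat_lit 426139) (nat_lit 3) (.e (nat_lit 204861) (nat_lit 26) (.e (nat_lit 336075) (nat_lit 9) .nil)))))) (.g (nat_lit 1) (.e (nat_lit 374795) (nat_lit 0) .nil) .nil)))))) (.nd (nat_lit 7) (.nd (nat_lit 8) (.nd (nat_lit 9) 
(.lf (nat_lit 578677) (.g (nat_lit 2156) (.e (nat_lit 336230) (nat_lit 14) (.e (nat_lit 401446) (nat_lit 10) (.e (nat_lit 434289) (nat_lit 43) (.e (nat_lit 696327) (nat_lit 5) (.e (nat_lit 3004) (nat_lit 186) (.e (nat_lit 442390) (nat_lit 11) .nil)))))) (.g (nat_lit 1) (.e (nat_lit 372278) (nat_lit 0) .nil) .nil))) 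
(.lf (nat_lit 579189) (.g (nat_lit 1325) (.e (nat_lit 336322) (nat_lit 18) (.e (nat_lit 204880) (nat_lit 32) (.e (nat_lit 385066) (nat_lit 26) (.e (nat_lit 532532) (nat_lit 9) .nil)))) (.g (nat_lit 0) (.e (nat_lit 374168) (nat_lit 0) .nil) .nil)))) (.nd (nat_lit 9) 
(.lf (nat_lit 578933) (.g (nat_lit 2182) (.e (nat_lit 336277) (nat_lit 15) (.e (nat_lit 3632) (nat_lit 227) (.e (nat_lit 778323) (nat_lit 5) (.e (nat_lit 73782) (nat_lit 32) (.e (nat_lit 3089) (nat_lit 191) (.e (nat_lit 483391) (nat_lit 23) .nil)))))) (.g (nat_lit 1) (.e (nat_lit 373225) (nat_lit 0) .nil) .nil))) 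
(.lf (nat_lit 579445) (.g (nat_lit 2134) (.e (nat_lit 336324) (nat_lit 18) (.e (nat_lit 204882) (nat_lit 32) (.e (nat_lit 385068) (nat_lit 26) (.e (nat_lit 532534) (nat_lit 9) (.e (nat_lit 336326) (nat_lit 18) .nil))))) (.g (nat_lit 0) (.e (nat_lit 374570) (nat_lit 0) .nil) .nil))))) (.nd (nat_lit 8) (.nd (nat_lit 9) 
(.lf (nat_lit 578805) (.g (nat_lit 3454) (.e (nat_lit 336235) (nat_lit 14) (.e (nat_lit 401438) (nat_lit 9) (.e (nat_lit 426542) (nat_lit 29) (.e (nat_lit 352267) (nat_lit 0) (.e (nat_lit 3747) (nat_lit 228) (.e (nat_lit 786473) (nat_lit 27) .nil)))))) (.g (nat_lit 1) (.e (nat_lit 372779) (nat_lit 0) .nil) .nil))) 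
(.lf (nat_lit 579317) (.g (nat_lit 1271) (.e (nat_lit 336324) (nat_lit 18) (.e (nat_lit 204838) (nat_lit 20) (.e (nat_lit 114698) (nat_lit 11) (.e (nat_lit 426138) (nat_lit 3) .nil)))) (.g (nat_lit 0) (.e (nat_lit 374377) (nat_lit 0) .nil) .nil)))) (.nd (nat_lit 9) 
(.lf (nat_lit 579061) (.g (nat_lit 1887) (.e (nat_lit 336300) (nat_lit 15) (.e (nat_lit 3632) (nat_lit 227) (.e (nat_lit 778318) (nat_lit 3) (.e (nat_lit 57476) (nat_lit 28) (.e (nat_lit 557107) (nat_lit 15) .nil))))) (.g (nat_lit 0) (.e (nat_lit 373626) (nat_lit 0) .nil) .nil))) 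
(.lf (nat_lit 579573) (.g (nat_lit 1137) (.e (nat_lit 336326) (nat_lit 18) (.e (nat_lit 204855) (nat_lit 26) (.e (nat_lit 336212) (nat_lit 13) (.e (nat_lit 393251) (nat_lit 18) .nil)))) (.g (nat_lit 0) (.e (nat_lit 374912) (nat_lit 0) .nil) .nil))))))))) (.nd (nat_lit 4) (.nd (nat_lit 5) (.nd (nat_lit 6) (.nd (nat_lit 7) (.nd (nat_lit 8) (.nd (nat_lit 9) 
(.lf (nat_lit 578573) (.g (nat_lit 1177) (.e (nat_lit 336227) (nat_lit 14) (.e (nat_lit 401459) (nat_lit 13) (.e (nat_lit 483344) (nat_lit 17) (.e (nat_lit 6696) (nat_lit 357) .nil)))) (.g (nat_lit 0) (.e (nat_lit 371995) (nat_lit 0) .nil) .nil))) 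
(.lf (nat_lit 579085) (.g (nat_lit 2915) (.e (nat_lit 336310) (nat_lit 16) (.e (nat_lit 164182) (nat_lit 154) (.e (nat_lit 57379) (nat_lit 3) (.e (nat_lit 98334) (nat_lit 18) (.e (nat_lit 164330) (nat_lit 230) .nil))))) (.g (nat_lit 0) (.e (nat_lit 373698) (nat_lit 0) .nil) .nil)))) (.nd (nat_lit 9) 
(.lf (nat_lit 578829) (.g (nat_lit 2071) (.e (nat_lit 336236) (nat_lit 14) (.e (nat_lit 401425) (nat_lit 2) (.e (nat_lit 196666) (nat_lit 13) (.e (nat_lit 65617) (nat_lit 10) .nil)))) (.g (nat_lit 0) (.e (nat_lit 372825) (nat_lit 0) .nil) .nil))) 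
(.lf (nat_lit 579341) (.g (nat_lit 917) (.e (nat_lit 336324) (nat_lit 18) (.e (nat_lit 204852) (nat_lit 26) (.e (nat_lit 336325) (nat_lit 18) (.e (nat_lit 204852) (nat_lit 26) .nil)))) (.g (nat_lit 0) (.e (nat_lit 374411) (nat_lit 0) .nil) .nil))))) (.nd (nat_lit 8) (.nd (nat_lit 9) 
(.lf (nat_lit 578701) (.g (nat_lit 857) (.e (nat_lit 336230) (nat_lit 14) (.e (nat_lit 401458) (nat_lit 13) (.e (nat_lit 483361) (nat_lit 17) .nil))) (.g (nat_lit 0) (.e (nat_lit 372380) (nat_lit 0) .nil) .nil))) 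
(.lf (nat_lit 579213) (.g (nat_lit 1348) (.e (nat_lit 336323) (nat_lit 18) (.e (nat_lit 204831) (nat_lit 18) (.e (nat_lit 57854) (nat_lit 252) (.e (nat_lit 57406) (nat_lit 12) (.e (nat_lit 336367) (nat_lit 27) .nil))))) (.g (nat_lit 0) (.e (nat_lit 374192) (nat_lit 0) .nil) .nil)))) (.nd (nat_lit 9) 
(.lf (nat_lit 578957) (.g (nat_lit 2053) (.e (nat_lit 336306) (nat_lit 15) (.e (nat_lit 3238) (nat_lit 197) (.e (nat_lit 532500) (nat_lit 1) (.e (nat_lit 57854) (nat_lit 252) (.e (nat_lit 57409) (nat_lit 12) .nil))))) (.g (nat_lit 0) (.e (nat_lit 373317) (nat_lit 0) .nil) .nil))) 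
(.lf (nat_lit 579469) (.g (nat_lit 808) (.e (nat_lit 336325) (nat_lit 18) (.e (nat_lit 204855) (nat_lit 26) (.e (nat_lit 336217) (nat_lit 13) .nil))) (.g (nat_lit 0) (.e (nat_lit 374648) (nat_lit 0) .nil) .nil)))))) (.nd (nat_lit 7) (.nd (nat_lit 8) (.nd (nat_lit 9) 
(.lf (nat_lit 578637) (.g (nat_lit 1954) (.e (nat_lit 336228) (nat_lit 14) (.e (nat_lit 401458) (nat_lit 13) (.e (nat_lit 483372) (nat_lit 21) (.e (nat_lit 319511) (nat_lit 10) (.e (nat_lit 5629) (nat_lit 312) .nil))))) (.g (nat_lit 0) (.e (nat_lit 372087) (nat_lit 0) .nil) .nil))) 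
(.lf (nat_lit 579149) (.g (nat_lit 1252) (.e (nat_lit 336319) (nat_lit 17) (.e (nat_lit 196698) (nat_lit 19) (.e (nat_lit 57811) (nat_lit 246) (.e (nat_lit 57879) (nat_lit 270) (.e (nat_lit 496) (nat_lit 39) (.e (nat_lit 483391) (nat_lit 23) .nil)))))) (.g (nat_lit 1) (.e (nat_lit 374041) (nat_lit 0) .nil) .nil)))) (.nd (nat_lit 9) 
(.lf (nat_lit 578893) (.g (nat_lit 1886) (.e (nat_lit 336267) (nat_lit 15) (.e (nat_lit 3253) (nat_lit 197) (.e (nat_lit 532504) (nat_lit 1) (.e (nat_lit 57854) (nat_lit 252) (.e (nat_lit 57406) (nat_lit 12) .nil))))) (.g (nat_lit 0) (.e (nat_lit 373159) (nat_lit 0) .nil) .nil))) 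
(.lf (nat_lit 579405) (.g (nat_lit 3075) (.e (nat_lit 336324) (nat_lit 18) (.e (nat_lit 204880) (nat_lit 32) (.e (nat_lit 385068) (nat_lit 26) (.e (nat_lit 532530) (nat_lit 9) (.e (nat_lit 336326) (nat_lit 18) (.e (nat_lit 204852) (nat_lit 26) .nil)))))) (.g (nat_lit 1) (.e (nat_lit 374521) (nat_lit 0) .nil) .nil))))) (.nd (nat_lit 8) (.nd (nat_lit 9) 
(.lf (nat_lit 578765) (.g (nat_lit 2384) (.e (nat_lit 336232) (nat_lit 14) (.e (nat_lit 401444) (nat_lit 9) (.e (nat_lit 426163) (nat_lit 6) (.e (nat_lit 253992) (nat_lit 11) (.e (nat_lit 16446) (nat_lit 9) (.e (nat_lit 426500) (nat_lit 27) .nil)))))) (.g (nat_lit 1) (.e (nat_lit 372618) (nat_lit 0) .nil) .nil))) 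
(.lf (nat_lit 579277) (.g (nat_lit 912) (.e (nat_lit 336324) (nat_lit 18) (.e (nat_lit 204837) (nat_lit 20) (.e (nat_lit 114697) (nat_lit 11) (.e (nat_lit 426115) (nat_lit 2) .nil)))) (.g (nat_lit 0) (.e (nat_lit 374305) (nat_lit 0) .nil) .nil)))) (.nd (nat_lit 9) 
(.lf (nat_lit 579021) (.g (nat_lit 2090) (.e (nat_lit 336292) (nat_lit 15) (.e (nat_lit 3253) (nat_lit 197) (.e (nat_lit 532504) (nat_lit 1) (.e (nat_lit 57851) (nat_lit 252) (.e (nat_lit 57406) (nat_lit 12) .nil))))) (.g (nat_lit 0) (.e (nat_lit 373546) (nat_lit 0) .nil) .nil))) 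
(.lf (nat_lit 579533) (.g (nat_lit 2398) (.e (nat_lit 336326) (nat_lit 18) (.e (nat_lit 204854) (nat_lit 26) (.e (nat_lit 336262) (nat_lit 15) (.e (nat_lit 3253) (nat_lit 197) (.e (nat_lit 532530) (nat_lit 9) .nil))))) (.g (nat_lit 0) (.e (nat_lit 374853) (nat_lit 0) .nil) .nil))))))) (.nd (nat_lit 6) (.nd (nat_lit 7) (.nd (nat_lit 8) (.nd (nat_lit 9) 
(.lf (nat_lit 578605) (.g (nat_lit 1512) (.e (nat_lit 336228) (nat_lit 14) (.e (nat_lit 401437) (nat_lit 9) (.e (nat_lit 426533) (nat_lit 28) (.e (nat_lit 344066) (nat_lit 0) (.e (nat_lit 2941) (nat_lit 184) (.e (nat_lit 426508) (nat_lit 27) .nil)))))) (.g (nat_lit 1) (.e (nat_lit 372031) (nat_lit 0) .nil) .nil))) 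
(.lf (nat_lit 579117) (.g (nat_lit 1995) (.e (nat_lit 336316) (nat_lit 17) (.e (nat_lit 196666) (nat_lit 13) (.e (nat_lit 65617) (nat_lit 10) (.e (nat_lit 344091) (nat_lit 18) (.e (nat_lit 7697) (nat_lit 412) .nil))))) (.g (nat_lit 0) (.e (nat_lit 373794) (nat_lit 0) .nil) .nil)))) (.nd (nat_lit 9) 
(.lf (nat_lit 578861) (.g (nat_lit 3464) (.e (nat_lit 336240) (nat_lit 15) (.e (nat_lit 3605) (nat_lit 225) (.e (nat_lit 761898) (nat_lit 15) (.e (nat_lit 163959) (nat_lit 24) (.e (nat_lit 524320) (nat_lit 12) (.e (nat_lit 450579) (nat_lit 5) (.e (nat_lit 532530) (nat_lit 9) .nil))))))) (.g (nat_lit 1) (.e (nat_lit 372978) (nat_lit 0) .nil) .nil))) 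
(.lf (nat_lit 579373) (.g (nat_lit 3027) (.e (nat_lit 336324) (nat_lit 18) (.e (nat_lit 204854) (nat_lit 26) (.e (nat_lit 336324) (nat_lit 18) (.e (nat_lit 204854) (nat_lit 26) (.e (nat_lit 336316) (nat_lit 17) (.e (nat_lit 196630) (nat_lit 9) (.e (nat_lit 1413) (nat_lit 108) .nil))))))) (.g (nat_lit 1) (.e (nat_lit 374466) (nat_lit 0) .nil) .nil))))) (.nd (nat_lit 8) (.nd (nat_lit 9) 
(.lf (nat_lit 578733) (.g (nat_lit 2326) (.e (nat_lit 336231) (nat_lit 14) (.e (nat_lit 401448) (nat_lit 10) (.e (nat_lit 434206) (nat_lit 18) (.e (nat_lit 6420) (nat_lit 341) (.e (nat_lit 163843) (nat_lit 0) (.e (nat_lit 7936) (nat_lit 392) (.e (nat_lit 172150) (nat_lit 27) .nil))))))) (.g (nat_lit 1) (.e (nat_lit 372482) (nat_lit 0) .nil) .nil))) 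
(.lf (nat_lit 579245) (.g (nat_lit 1856) (.e (nat_lit 336324) (nat_lit 18) (.e (nat_lit 204831) (nat_lit 18) (.e (nat_lit 57847) (nat_lit 252) (.e (nat_lit 57407) (nat_lit 12) (.e (nat_lit 336370) (nat_lit 27) .nil))))) (.g (nat_lit 0) (.e (nat_lit 374256) (nat_lit 0) .nil) .nil)))) (.nd (nat_lit 9) 
(.lf (nat_lit 578989) (.g (nat_lit 1715) (.e (nat_lit 336306) (nat_lit 15) (.e (nat_lit 3307) (nat_lit 202) (.e (nat_lit 573484) (nat_lit 13) (.e (nat_lit 65610) (nat_lit 10) .nil)))) (.g (nat_lit 0) (.e (nat_lit 373435) (nat_lit 0) .nil) .nil))) 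
(.lf (nat_lit 579501) (.g (nat_lit 1927) (.e (nat_lit 336326) (nat_lit 18) (.e (nat_lit 204837) (nat_lit 20) (.e (nat_lit 114694) (nat_lit 11) (.e (nat_lit 426133) (nat_lit 3) (.e (nat_lit 204861) (nat_lit 26) .nil))))) (.g (nat_lit 0) (.e (nat_lit 374775) (nat_lit 0) .nil) .nil)))))) (.nd (nat_lit 7) (.nd (nat_lit 8) (.nd (nat_lit 9) 
(.lf (nat_lit 578669) (.g (nat_lit 2603) (.e (nat_lit 336229) (nat_lit 14) (.e (nat_lit 401459) (nat_lit 13) (.e (nat_lit 483354) (nat_lit 17) (.e (nat_lit 6674) (nat_lit 357) (.e (nat_lit 2939) (nat_lit 184) (.e (nat_lit 426503) (nat_lit 27) .nil)))))) (.g (nat_lit 1) (.e (nat_lit 372191) (nat_lit 0) .nil) .nil))) 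
(.lf (nat_lit 579181) (.g (nat_lit 1099) (.e (nat_lit 336322) (nat_lit 18) (.e (nat_lit 204852) (nat_lit 26) (.e (nat_lit 336326) (nat_lit 18) (.e (nat_lit 204882) (nat_lit 32) .nil)))) (.g (nat_lit 0) (.e (nat_lit 374153) (nat_lit 0) .nil) .nil)))) (.nd (nat_lit 9) 
(.lf (nat_lit 578925) (.g (nat_lit 2078) (.e (nat_lit 336276) (nat_lit 15) (.e (nat_lit 3253) (nat_lit 197) (.e (nat_lit 532504) (nat_lit 1) (.e (nat_lit 57851) (nat_lit 252) (.e (nat_lit 57406) (nat_lit 12) .nil))))) (.g (nat_lit 0) (.e (nat_lit 373209) (nat_lit 0) .nil) .nil))) 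
(.lf (nat_lit 579437) (.g (nat_lit 2072) (.e (nat_lit 336324) (nat_lit 18) (.e (nat_lit 204882) (nat_lit 32) (.e (nat_lit 385068) (nat_lit 26) (.e (nat_lit 532528) (nat_lit 9) (.e (nat_lit 336322) (nat_lit 18) .nil))))) (.g (nat_lit 0) (.e (nat_lit 374562) (nat_lit 0) .nil) .nil))))) (.nd (nat_lit 8) (.nd (nat_lit 9) 
(.lf (nat_lit 578797) (.g (nat_lit 2386) (.e (nat_lit 336235) (nat_lit 14) (.e (nat_lit 401438) (nat_lit 9) (.e (nat_lit 426530) (nat_lit 27) (.e (nat_lit 335872) (nat_lit 0) (.e (nat_lit 6719) (nat_lit 361) (.e (nat_lit 179968) (nat_lit 27) .nil)))))) (.g (nat_lit 1) (.e (nat_lit 372771) (nat_lit 0) .nil) .nil))) 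
(.lf (nat_lit 579309) (.g (nat_lit 2768) (.e (nat_lit 336324) (nat_lit 18) (.e (nat_lit 204838) (nat_lit 20) (.e (nat_lit 114697) (nat_lit 11) (.e (nat_lit 426116) (nat_lit 2) (.e (nat_lit 196681) (nat_lit 17) (.e (nat_lit 131105) (nat_lit 9) .nil)))))) (.g (nat_lit 1) (.e (nat_lit 374357) (nat_lit 0) .nil) .nil)))) (.nd (nat_lit 9) 
(.lf (nat_lit 579053) (.g (nat_lit 1485) (.e (nat_lit 336300) (nat_lit 15) (.e (nat_lit 3253) (nat_lit 197) (.e (nat_lit 532503) (nat_lit 1) (.e (nat_lit 57844) (nat_lit 252) .nil)))) (.g (nat_lit 0) (.e (nat_lit 373612) (nat_lit 0) .nil) .nil))) 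
(.lf (nat_lit 579565) (.g (nat_lit 2614) (.e (nat_lit 336326) (nat_lit 18) (.e (nat_lit 204854) (nat_lit 26) (.e (nat_lit 336326) (nat_lit 18) (.e (nat_lit 204854) (nat_lit 26) (.e (nat_lit 336302) (nat_lit 15) .nil))))) (.g (nat_lit 0) (.e (nat_lit 374900) (nat_lit 0) .nil) .nil)))))))) (.nd (nat_lit 5) (.nd (nat_lit 6) (.nd (nat_lit 7) (.nd (nat_lit 8) (.nd (nat_lit 9) 
(.lf (nat_lit 578589) (.g (nat_lit 2165) (.e (nat_lit 336228) (nat_lit 14) (.e (nat_lit 401425) (nat_lit 2) (.e (nat_lit 196670) (nat_lit 14) (.e (nat_lit 73781) (nat_lit 32) (.e (nat_lit 2682) (nat_lit 168) (.e (nat_lit 204858) (nat_lit 26) .nil)))))) (.g (nat_lit 1) (.e (nat_lit 372014) (nat_lit 0) .nil) .nil))) 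
(.lf (nat_lit 579101) (.g (nat_lit 3142) (.e (nat_lit 336316) (nat_lit 17) (.e (nat_lit 196666) (nat_lit 13) (.e (nat_lit 65610) (nat_lit 10) (.e (nat_lit 344088) (nat_lit 18) (.e (nat_lit 7695) (nat_lit 412) (.e (nat_lit 57366) (nat_lit 1) (.e (nat_lit 57847) (nat_lit 252) (.e (nat_lit 57407) (nat_lit 12) .nil)))))))) (.g (nat_lit 1) (.e (nat_lit 373773) (nat_lit 0) .nil) .nil)))) 
(.nd (nat_lit 9) 
(.lf (nat_lit 578845) (.g (nat_lit 1363) (.e (nat_lit 336239) (nat_lit 15) (.e (nat_lit 3309) (nat_lit 202) (.e (nat_lit 573484) (nat_lit 13) (.e (nat_lit 65617) (nat_lit 10) .nil)))) (.g (nat_lit 0) (.e (nat_lit 372878) (nat_lit 0) .nil) .nil))) 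
(.lf (nat_lit 579357) (.g (nat_lit 797) (.e (nat_lit 336324) (nat_lit 18) (.e (nat_lit 204854) (nat_lit 26) (.e (nat_lit 336284) (nat_lit 15) .nil))) (.g (nat_lit 0) (.e (nat_lit 374447) (nat_lit 0) .nil) .nil))))) (.nd (nat_lit 8) (.nd (nat_lit 9) 
(.lf (nat_lit 578717) (.g (nat_lit 1044) (.e (nat_lit 336231) (nat_lit 14) (.e (nat_lit 401446) (nat_lit 10) (.e (nat_lit 434203) (nat_lit 18) (.e (nat_lit 6416) (nat_lit 341) .nil)))) (.g (nat_lit 0) (.e (nat_lit 372433) (nat_lit 0) .nil) .nil))) 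
(.lf (nat_lit 579229) (.g (nat_lit 333) (.e (nat_lit 336323) (nat_lit 18) (.e (nat_lit 204882) (nat_lit 32) (.e (nat_lit 385066) (nat_lit 26) .nil))) (.g (nat_lit 0) (.e (nat_lit 374224) (nat_lit 0) .nil) .nil)))) (.nd (nat_lit 9) 
(.lf (nat_lit 578973) (.g (nat_lit 1445) (.e (nat_lit 336306) (nat_lit 15) (.e (nat_lit 3297) (nat_lit 202) (.e (nat_lit 573481) (nat_lit 13) (.e (nat_lit 65604) (nat_lit 9) (.e (nat_lit 336028) (nat_lit 3) .nil))))) (.g (nat_lit 0) (.e (nat_lit 373362) (nat_lit 0) .nil) .nil))) 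
(.lf (nat_lit 579485) (.g (nat_lit 845) (.e (nat_lit 336326) (nat_lit 18) (.e (nat_lit 204830) (nat_lit 18) (.e (nat_lit 57829) (nat_lit 250) .nil))) (.g (nat_lit 0) (.e (nat_lit 374694) (nat_lit 0) .nil) .nil)))))) (.nd (nat_lit 7) (.nd (nat_lit 8) (.nd (nat_lit 9) 
(.lf (nat_lit 578653) (.g (nat_lit 638) (.e (nat_lit 336229) (nat_lit 14) (.e (nat_lit 401448) (nat_lit 10) (.e (nat_lit 434291) (nat_lit 44) .nil))) (.g (nat_lit 0) (.e (nat_lit 372127) (nat_lit 0) .nil) .nil))) 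
(.lf (nat_lit 579165) (.g (nat_lit 1848) (.e (nat_lit 336322) (nat_lit 18) (.e (nat_lit 204829) (nat_lit 18) (.e (nat_lit 57852) (nat_lit 252) (.e (nat_lit 57406) (nat_lit 12) .nil)))) (.g (nat_lit 0) (.e (nat_lit 374108) (nat_lit 0) .nil) .nil)))) (.nd (nat_lit 9) 
(.lf (nat_lit 578909) (.g (nat_lit 1245) (.e (nat_lit 336270) (nat_lit 15) (.e (nat_lit 3632) (nat_lit 227) (.e (nat_lit 778323) (nat_lit 5) (.e (nat_lit 73782) (nat_lit 32) .nil)))) (.g (nat_lit 0) (.e (nat_lit 373190) (nat_lit 0) .nil) .nil))) 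
(.lf (nat_lit 579421) (.g (nat_lit 1603) (.e (nat_lit 336324) (nat_lit 18) (.e (nat_lit 204882) (nat_lit 32) (.e (nat_lit 385066) (nat_lit 26) (.e (nat_lit 532528) (nat_lit 9) .nil)))) (.g (nat_lit 0) (.e (nat_lit 374543) (nat_lit 0) .nil) .nil))))) (.nd (nat_lit 8) (.nd (nat_lit 9) 
(.lf (nat_lit 578781) (.g (nat_lit 2089) (.e (nat_lit 336234) (nat_lit 14) (.e (nat_lit 401425) (nat_lit 2) (.e (nat_lit 196666) (nat_lit 13) (.e (nat_lit 65617) (nat_lit 10) .nil)))) (.g (nat_lit 0) (.e (nat_lit 372722) (nat_lit 0) .nil) .nil))) 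
(.lf (nat_lit 579293) (.g (nat_lit 3621) (.e (nat_lit 336324) (nat_lit 18) (.e (nat_lit 204837) (nat_lit 20) (.e (nat_lit 114698) (nat_lit 11) (.e (nat_lit 426139) (nat_lit 3) (.e (nat_lit 204861) (nat_lit 26) (.e (nat_lit 336078) (nat_lit 9) .nil)))))) (.g (nat_lit 1) (.e (nat_lit 374339) (nat_lit 0) .nil) .nil)))) (.nd (nat_lit 9) 
(.lf (nat_lit 579037) (.g (nat_lit 2551) (.e (nat_lit 336293) (nat_lit 15) (.e (nat_lit 3253) (nat_lit 197) (.e (nat_lit 532504) (nat_lit 1) (.e (nat_lit 57852) (nat_lit 252) (.e (nat_lit 57378) (nat_lit 3) .nil))))) (.g (nat_lit 0) (.e (nat_lit 373592) (nat_lit 0) .nil) .nil))) 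
(.lf (nat_lit 579549) (.g (nat_lit 465) (.e (nat_lit 336326) (nat_lit 18) (.e (nat_lit 204854) (nat_lit 26) (.e (nat_lit 336324) (nat_lit 18) .nil))) (.g (nat_lit 0) (.e (nat_lit 374880) (nat_lit 0) .nil) .nil))))))) (.nd (nat_lit 6) (.nd (nat_lit 7) (.nd (nat_lit 8) (.nd (nat_lit 9) 
(.lf (nat_lit 578621) (.g (nat_lit 2425) (.e (nat_lit 336228) (nat_lit 14) (.e (nat_lit 401456) (nat_lit 13) (.e (nat_lit 483411) (nat_lit 27) (.e (nat_lit 401437) (nat_lit 9) .nil)))) (.g (nat_lit 0) (.e (nat_lit 372065) (nat_lit 0) .nil) .nil))) 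
(.lf (nat_lit 579133) (.g (nat_lit 1631) (.e (nat_lit 336316) (nat_lit 17) (.e (nat_lit 196668) (nat_lit 14) (.e (nat_lit 73753) (nat_lit 8) (.e (nat_lit 557096) (nat_lit 13) .nil)))) (.g (nat_lit 0) (.e (nat_lit 373817) (nat_lit 0) .nil) .nil)))) (.nd (nat_lit 9) 
(.lf (nat_lit 578877) (.g (nat_lit 1988) (.e (nat_lit 336260) (nat_lit 15) (.e (nat_lit 3304) (nat_lit 202) (.e (nat_lit 573484) (nat_lit 13) (.e (nat_lit 65617) (nat_lit 10) (.e (nat_lit 344132) (nat_lit 26) .nil))))) (.g (nat_lit 0) (.e (nat_lit 373105) (nat_lit 0) .nil) .nil))) 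
(.lf (nat_lit 579389) (.g (nat_lit 670) (.e (nat_lit 336324) (nat_lit 18) (.e (nat_lit 204880) (nat_lit 32) (.e (nat_lit 385065) (nat_lit 26) .nil))) (.g (nat_lit 0) (.e (nat_lit 374505) (nat_lit 0) .nil) .nil))))) (.nd (nat_lit 8) (.nd (nat_lit 9) 
(.lf (nat_lit 578749) (.g (nat_lit 1937) (.e (nat_lit 336231) (nat_lit 14) (.e (nat_lit 401456) (nat_lit 13) (.e (nat_lit 483411) (nat_lit 27) (.e (nat_lit 401434) (nat_lit 9) .nil)))) (.g (nat_lit 0) (.e (nat_lit 372546) (nat_lit 0) .nil) .nil))) 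
(.lf (nat_lit 579261) (.g (nat_lit 3162) (.e (nat_lit 336324) (nat_lit 18) (.e (nat_lit 204831) (nat_lit 18) (.e (nat_lit 57852) (nat_lit 252) (.e (nat_lit 57406) (nat_lit 12) (.e (nat_lit 336452) (nat_lit 34) (.e (nat_lit 483382) (nat_lit 23) .nil)))))) (.g (nat_lit 1) (.e (nat_lit 374275) (nat_lit 0) .nil) .nil)))) (.nd (nat_lit 9) 
(.lf (nat_lit 579005) (.g (nat_lit 2306) (.e (nat_lit 336286) (nat_lit 15) (.e (nat_lit 3305) (nat_lit 202) (.e (nat_lit 573484) (nat_lit 13) (.e (nat_lit 65617) (nat_lit 10) (.e (nat_lit 344130) (nat_lit 26) .nil))))) (.g (nat_lit 0) (.e (nat_lit 373522) (nat_lit 0) .nil) .nil))) 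
(.lf (nat_lit 579517) (.g (nat_lit 2493) (.e (nat_lit 336326) (nat_lit 18) (.e (nat_lit 204852) (nat_lit 26) (.e (nat_lit 336326) (nat_lit 18) (.e (nat_lit 204854) (nat_lit 26) (.e (nat_lit 336261) (nat_lit 15) .nil))))) (.g (nat_lit 0) (.e (nat_lit 374824) (nat_lit 0) .nil) .nil)))))) (.nd (nat_lit 7) (.nd (nat_lit 8) (.nd (nat_lit 9) 
(.lf (nat_lit 578685) (.g (nat_lit 2074) (.e (nat_lit 336230) (nat_lit 14) (.e (nat_lit 401448) (nat_lit 10) (.e (nat_lit 434288) (nat_lit 43) (.e (nat_lit 696346) (nat_lit 10) (.e (nat_lit 188423) (nat_lit 11) .nil))))) (.g (nat_lit 1) (.e (nat_lit 372335) (nat_lit 0) .nil) .nil))) 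
(.lf (nat_lit 579197) (.g (nat_lit 1926) (.e (nat_lit 336322) (nat_lit 18) (.e (nat_lit 204882) (nat_lit 32) (.e (nat_lit 385066) (nat_lit 26) (.e (nat_lit 532534) (nat_lit 9) .nil)))) (.g (nat_lit 0) (.e (nat_lit 374176) (nat_lit 0) .nil) .nil)))) (.nd (nat_lit 9) 
(.lf (nat_lit 578941) (.g (nat_lit 978) (.e (nat_lit 336282) (nat_lit 15) (.e (nat_lit 3253) (nat_lit 197) (.e (nat_lit 532503) (nat_lit 1) (.e (nat_lit 57847) (nat_lit 252) .nil)))) (.g (nat_lit 0) (.e (nat_lit 373249) (nat_lit 0) .nil) .nil))) 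
(.lf (nat_lit 579453) (.g (nat_lit 1780) (.e (nat_lit 336325) (nat_lit 18) (.e (nat_lit 204837) (nat_lit 20) (.e (nat_lit 114698) (nat_lit 11) (.e (nat_lit 426138) (nat_lit 3) (.e (nat_lit 204858) (nat_lit 26) .nil))))) (.g (nat_lit 0) (.e (nat_lit 374596) (nat_lit 0) .nil) .nil))))) (.nd (nat_lit 8) (.nd (nat_lit 9) 
(.lf (nat_lit 578813) (.g (nat_lit 3205) (.e (nat_lit 336235) (nat_lit 14) (.e (nat_lit 401457) (nat_lit 13) (.e (nat_lit 483410) (nat_lit 27) (.e (nat_lit 401437) (nat_lit 9) (.e (nat_lit 426530) (nat_lit 27) .nil))))) (.g (nat_lit 1) (.e (nat_lit 372806) (nat_lit 0) .nil) .nil))) 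
(.lf (nat_lit 579325) (.g (nat_lit 2136) (.e (nat_lit 336324) (nat_lit 18) (.e (nat_lit 204838) (nat_lit 20) (.e (nat_lit 122624) (nat_lit 11) (.e (nat_lit 426125) (nat_lit 2) (.e (nat_lit 196680) (nat_lit 17) (.e (nat_lit 131107) (nat_lit 9) .nil)))))) (.g (nat_lit 1) (.e (nat_lit 374389) (nat_lit 0) .nil) .nil)))) (.nd (nat_lit 9) 
(.lf (nat_lit 579069) (.g (nat_lit 2562) (.e (nat_lit 336310) (nat_lit 16) (.e (nat_lit 164178) (nat_lit 154) (.e (nat_lit 57379) (nat_lit 3) (.e (nat_lit 98334) (nat_lit 18) (.e (nat_lit 164330) (nat_lit 230) .nil))))) (.g (nat_lit 0) (.e (nat_lit 373680) (nat_lit 0) .nil) .nil))) 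
(.lf (nat_lit 579581) (.g (nat_lit 2655) (.e (nat_lit 336326) (nat_lit 18) (.e (nat_lit 204862) (nat_lit 27) (.e (nat_lit 344133) (nat_lit 26) (.e (nat_lit 557098) (nat_lit 13) (.e (nat_lit 172128) (nat_lit 15) .nil))))) (.g (nat_lit 0) (.e (nat_lit 374934) (nat_lit 0) .nil) .nil))))))))))) 
(.nd (nat_lit 2) (.nd (nat_lit 3) (.nd (nat_lit 4) (.nd (nat_lit 5) (.nd (nat_lit 6) 
(.nd (nat_lit 7) (.nd (nat_lit 8) (.nd (nat_lit 9) 
(.lf (nat_lit 578563) (.g (nat_lit 5367) (.e (nat_lit 336226) (nat_lit 14) (.e (nat_lit 401459) (nat_lit 13) (.e (nat_lit 483372) (nat_lit 21) (.e (nat_lit 319538) (nat_lit 19) (.e (nat_lit 311352) (nat_lit 27) .nil))))) (.g (nat_lit 1) (.e (nat_lit 371973) (nat_lit 0) .nil) .nil))) 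
(.lf (nat_lit 579075) (.g (nat_lit 2187) (.e (nat_lit 336310) (nat_lit 16) (.e (nat_lit 164179) (nat_lit 154) (.e (nat_lit 57378) (nat_lit 3) (.e (nat_lit 98335) (nat_lit 18) .nil)))) (.g (nat_lit 0) (.e (nat_lit 373687) (nat_lit 0) .nil) .nil)))) (.nd (nat_lit 9) 
(.lf (nat_lit 578819) (.g (nat_lit 1644) (.e (nat_lit 336235) (nat_lit 14) (.e (nat_lit 401459) (nat_lit 13) (.e (nat_lit 483350) (nat_lit 17) (.e (nat_lit 7936) (nat_lit 361) .nil)))) (.g (nat_lit 0) (.e (nat_lit 372812) (nat_lit 0) .nil) .nil))) 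
(.lf (nat_lit 579331) (.g (nat_lit 401) (.e (nat_lit 336324) (nat_lit 18) (.e (nat_lit 204852) (nat_lit 26) (.e (nat_lit 336324) (nat_lit 18) .nil))) (.g (nat_lit 0) (.e (nat_lit 374397) (nat_lit 0) .nil) .nil))))) (.nd (nat_lit 8) (.nd (nat_lit 9) 
(.lf (nat_lit 578691) (.g (nat_lit 1341) (.e (nat_lit 336230) (nat_lit 14) (.e (nat_lit 401448) (nat_lit 10) (.e (nat_lit 434289) (nat_lit 43) (.e (nat_lit 696330) (nat_lit 5) .nil)))) (.g (nat_lit 0) (.e (nat_lit 372343) (nat_lit 0) .nil) .nil))) 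
(.lf (nat_lit 579203) (.g (nat_lit 2311) (.e (nat_lit 336323) (nat_lit 18) (.e (nat_lit 204829) (nat_lit 18) (.e (nat_lit 57854) (nat_lit 252) (.e (nat_lit 57447) (nat_lit 19) (.e (nat_lit 393226) (nat_lit 9) .nil))))) (.g (nat_lit 0) (.e (nat_lit 374182) (nat_lit 0) .nil) .nil)))) (.nd (nat_lit 9) 
(.lf (nat_lit 578947) (.g (nat_lit 1625) (.e (nat_lit 336282) (nat_lit 15) (.e (nat_lit 3632) (nat_lit 227) (.e (nat_lit 778323) (nat_lit 5) (.e (nat_lit 73781) (nat_lit 32) (.e (nat_lit 3088) (nat_lit 191) .nil))))) (.g (nat_lit 0) (.e (nat_lit 373263) (nat_lit 0) .nil) .nil))) 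
(.lf (nat_lit 579459) (.g (nat_lit 2959) (.e (nat_lit 336325) (nat_lit 18) (.e (nat_lit 204838) (nat_lit 20) (.e (nat_lit 114698) (nat_lit 11) (.e (nat_lit 426123) (nat_lit 2) (.e (nat_lit 196662) (nat_lit 13) .nil))))) (.g (nat_lit 0) (.e (nat_lit 374615) (nat_lit 0) .nil) .nil)))))) (.nd (nat_lit 7) (.nd (nat_lit 8) (.nd (nat_lit 9) 
(.lf (nat_lit 578627) (.g (nat_lit 2267) (.e (nat_lit 336228) (nat_lit 14) (.e (nat_lit 401457) (nat_lit 13) (.e (nat_lit 483409) (nat_lit 27) (.e (nat_lit 401438) (nat_lit 9) (.e (nat_lit 426509) (nat_lit 27) .nil))))) (.g (nat_lit 1) (.e (nat_lit 372073) (nat_lit 0) .nil) .nil))) 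
(.lf (nat_lit 579139) (.g (nat_lit 1234) (.e (nat_lit 336316) (nat_lit 17) (.e (nat_lit 196670) (nat_lit 14) (.e (nat_lit 73753) (nat_lit 8) (.e (nat_lit 557101) (nat_lit 13) .nil)))) (.g (nat_lit 0) (.e (nat_lit 373900) (nat_lit 0) .nil) .nil)))) (.nd (nat_lit 9) 
(.lf (nat_lit 578883) (.g (nat_lit 1358) (.e (nat_lit 336262) (nat_lit 15) (.e (nat_lit 3747) (nat_lit 228) (.e (nat_lit 786473) (nat_lit 27) (.e (nat_lit 336235) (nat_lit 14) .nil)))) (.g (nat_lit 0) (.e (nat_lit 373145) (nat_lit 0) .nil) .nil))) 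
(.lf (nat_lit 579395) (.g (nat_lit 2740) (.e (nat_lit 336324) (nat_lit 18) (.e (nat_lit 204880) (nat_lit 32) (.e (nat_lit 385066) (nat_lit 26) (.e (nat_lit 532532) (nat_lit 9) (.e (nat_lit 336325) (nat_lit 18) (.e (nat_lit 204852) (nat_lit 26) .nil)))))) (.g (nat_lit 1) (.e (nat_lit 374511) (nat_lit 0) .nil) .nil))))) (.nd (nat_lit 8) (.nd (nat_lit 9) 
(.lf (nat_lit 578755) (.g (nat_lit 2181) (.e (nat_lit 336231) (nat_lit 14) (.e (nat_lit 401458) (nat_lit 13) (.e (nat_lit 483372) (nat_lit 21) (.e (nat_lit 319505) (nat_lit 10) (.e (nat_lit 7936) (nat_lit 312) .nil))))) (.g (nat_lit 0) (.e (nat_lit 372585) (nat_lit 0) .nil) .nil))) 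
(.lf (nat_lit 579267) (.g (nat_lit 2507) (.e (nat_lit 336324) (nat_lit 18) (.e (nat_lit 204831) (nat_lit 18) (.e (nat_lit 57854) (nat_lit 252) (.e (nat_lit 57405) (nat_lit 12) (.e (nat_lit 336454) (nat_lit 34) (.e (nat_lit 483382) (nat_lit 23) .nil)))))) (.g (nat_lit 1) (.e (nat_lit 374290) (nat_lit 0) .nil) .nil)))) (.nd (nat_lit 9) 
(.lf (nat_lit 579011) (.g (nat_lit 2232) (.e (nat_lit 336291) (nat_lit 15) (.e (nat_lit 3304) (nat_lit 202) (.e (nat_lit 573484) (nat_lit 13) (.e (nat_lit 65617) (nat_lit 10) (.e (nat_lit 344130) (nat_lit 26) .nil))))) (.g (nat_lit 0) (.e (nat_lit 373531) (nat_lit 0) .nil) .nil))) 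
(.lf (nat_lit 579523) (.g (nat_lit 2622) (.e (nat_lit 336326) (nat_lit 18) (.e (nat_lit 204852) (nat_lit 26) (.e (nat_lit 336326) (nat_lit 18) (.e (nat_lit 204854) (nat_lit 26) (.e (nat_lit 336270) (nat_lit 15) .nil))))) (.g (nat_lit 0) (.e (nat_lit 374830) (nat_lit 0) .nil) .nil))))))) (.nd (nat_lit 6) (.nd (nat_lit 7) (.nd (nat_lit 8) (.nd (nat_lit 9) 
(.lf (nat_lit 578595) (.g (nat_lit 710) (.e (nat_lit 336228) (nat_lit 14) (.e (nat_lit 401425) (nat_lit 2) (.e (nat_lit 196681) (nat_lit 17) .nil))) (.g (nat_lit 0) (.e (nat_lit 372020) (nat_lit 0) .nil) .nil))) 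
(.lf (nat_lit 579107) (.g (nat_lit 3213) (.e (nat_lit 336316) (nat_lit 17) (.e (nat_lit 196666) (nat_lit 13) (.e (nat_lit 65610) (nat_lit 10) (.e (nat_lit 344097) (nat_lit 18) (.e (nat_lit 7279) (nat_lit 386) .nil))))) (.g (nat_lit 0) (.e (nat_lit 373779) (nat_lit 0) .nil) .nil)))) (.nd (nat_lit 9) 
(.lf (nat_lit 578851) (.g (nat_lit 1157) (.e (nat_lit 336240) (nat_lit 15) (.e (nat_lit 3309) (nat_lit 202) (.e (nat_lit 573481) (nat_lit 13) (.e (nat_lit 65630) (nat_lit 14) .nil)))) (.g (nat_lit 0) (.e (nat_lit 372929) (nat_lit 0) .nil) .nil))) 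
(.lf (nat_lit 579363) (.g (nat_lit 521) (.e (nat_lit 336324) (nat_lit 18) (.e (nat_lit 204854) (nat_lit 26) (.e (nat_lit 336320) (nat_lit 17) .nil))) (.g (nat_lit 0) (.e (nat_lit 374455) (nat_lit 0) .nil) .nil))))) (.nd (nat_lit 8) (.nd (nat_lit 9) 
(.lf (nat_lit 578723) (.g (nat_lit 2425) (.e (nat_lit 336231) (nat_lit 14) (.e (nat_lit 401446) (nat_lit 10) (.e (nat_lit 434286) (nat_lit 42) (.e (nat_lit 688138) (nat_lit 5) (.e (nat_lit 2887) (nat_lit 184) (.e (nat_lit 426208) (nat_lit 9) (.e (nat_lit 426528) (nat_lit 27) .nil))))))) (.g (nat_lit 1) (.e (nat_lit 372457) (nat_lit 0) .nil) .nil))) 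
(.lf (nat_lit 579235) (.g (nat_lit 570) (.e (nat_lit 336324) (nat_lit 18) (.e (nat_lit 204830) (nat_lit 18) (.e (nat_lit 57832) (nat_lit 250) .nil))) (.g (nat_lit 0) (.e (nat_lit 374239) (nat_lit 0) .nil) .nil)))) (.nd (nat_lit 9) 
(.lf (nat_lit 578979) (.g (nat_lit 2565) (.e (nat_lit 336306) (nat_lit 15) (.e (nat_lit 3297) (nat_lit 202) (.e (nat_lit 573484) (nat_lit 13) (.e (nat_lit 65617) (nat_lit 10) (.e (nat_lit 344133) (nat_lit 26) .nil))))) (.g (nat_lit 0) (.e (nat_lit 373371) (nat_lit 0) .nil) .nil))) 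
(.lf (nat_lit 579491) (.g (nat_lit 1587) (.e (nat_lit 336326) (nat_lit 18) (.e (nat_lit 204831) (nat_lit 18) (.e (nat_lit 57830) (nat_lit 250) (.e (nat_lit 1183) (nat_lit 87) (.e (nat_lit 57466) (nat_lit 23) .nil))))) (.g (nat_lit 0) (.e (nat_lit 374717) (nat_lit 0) .nil) .nil)))))) (.nd (nat_lit 7) (.nd (nat_lit 8) (.nd (nat_lit 9) 
(.lf (nat_lit 578659) (.g (nat_lit 1128) (.e (nat_lit 336229) (nat_lit 14) (.e (nat_lit 401458) (nat_lit 13) (.e (nat_lit 483361) (nat_lit 17) (.e (nat_lit 7936) (nat_lit 361) .nil)))) (.g (nat_lit 0) (.e (nat_lit 372166) (nat_lit 0) .nil) .nil))) 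
(.lf (nat_lit 579171) (.g (nat_lit 2099) (.e (nat_lit 336322) (nat_lit 18) (.e (nat_lit 204831) (nat_lit 18) (.e (nat_lit 57849) (nat_lit 252) (.e (nat_lit 57407) (nat_lit 12) (.e (nat_lit 336454) (nat_lit 34) .nil))))) (.g (nat_lit 0) (.e (nat_lit 374122) (nat_lit 0) .nil) .nil)))) (.nd (nat_lit 9) 
(.lf (nat_lit 578915) (.g (nat_lit 1233) (.e (nat_lit 336275) (nat_lit 15) (.e (nat_lit 3253) (nat_lit 197) (.e (nat_lit 532501) (nat_lit 1) (.e (nat_lit 57854) (nat_lit 252) .nil)))) (.g (nat_lit 0) (.e (nat_lit 373199) (nat_lit 0) .nil) .nil))) 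
(.lf (nat_lit 579427) (.g (nat_lit 2870) (.e (nat_lit 336324) (nat_lit 18) (.e (nat_lit 204882) (nat_lit 32) (.e (nat_lit 385066) (nat_lit 26) (.e (nat_lit 532532) (nat_lit 9) (.e (nat_lit 336325) (nat_lit 18) (.e (nat_lit 204852) (nat_lit 26) .nil)))))) (.g (nat_lit 1) (.e (nat_lit 374549) (nat_lit 0) .nil) .nil))))) (.nd (nat_lit 8) (.nd (nat_lit 9) 
(.lf (nat_lit 578787) (.g (nat_lit 1671) (.e (nat_lit 336235) (nat_lit 14) (.e (nat_lit 401425) (nat_lit 2) (.e (nat_lit 196681) (nat_lit 17) (.e (nat_lit 131120) (nat_lit 12) .nil)))) (.g (nat_lit 0) (.e (nat_lit 372750) (nat_lit 0) .nil) .nil))) 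
(.lf (nat_lit 579299) (.g (nat_lit 346) (.e (nat_lit 336324) (nat_lit 18) (.e (nat_lit 204837) (nat_lit 20) (.e (nat_lit 122624) (nat_lit 15) .nil))) (.g (nat_lit 0) (.e (nat_lit 374345) (nat_lit 0) .nil) .nil)))) (.nd (nat_lit 9) 
(.lf (nat_lit 579043) (.g (nat_lit 1132) (.e (nat_lit 336293) (nat_lit 15) (.e (nat_lit 3632) (nat_lit 227) (.e (nat_lit 778324) (nat_lit 5) (.e (nat_lit 73781) (nat_lit 32) .nil)))) (.g (nat_lit 0) (.e (nat_lit 373599) (nat_lit 0) .nil) .nil))) 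
(.lf (nat_lit 579555) (.g (nat_lit 2374) (.e (nat_lit 336326) (nat_lit 18) (.e (nat_lit 204854) (nat_lit 26) (.e (nat_lit 336326) (nat_lit 18) (.e (nat_lit 204854) (nat_lit 26) (.e (nat_lit 336247) (nat_lit 15) .nil))))) (.g (nat_lit 0) (.e (nat_lit 374890) (nat_lit 0) .nil) .nil)))))))) (.nd (nat_lit 5) (.nd (nat_lit 6) (.nd (nat_lit 7) (.nd (nat_lit 8) (.nd (nat_lit 9) 
(.lf (nat_lit 578579) (.g (nat_lit 2139) (.e (nat_lit 336228) (nat_lit 14) (.e (nat_lit 401425) (nat_lit 2) (.e (nat_lit 196666) (nat_lit 13) (.e (nat_lit 65586) (nat_lit 7) (.e (nat_lit 319519) (nat_lit 12) .nil))))) (.g (nat_lit 0) (.e (nat_lit 372001) (nat_lit 0) .nil) .nil))) 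
(.lf (nat_lit 579091) (.g (nat_lit 2348) (.e (nat_lit 336310) (nat_lit 16) (.e (nat_lit 164183) (nat_lit 154) (.e (nat_lit 57378) (nat_lit 3) (.e (nat_lit 98335) (nat_lit 18) (.e (nat_lit 164325) (nat_lit 230) .nil))))) (.g (nat_lit 0) (.e (nat_lit 373704) (nat_lit 0) .nil) .nil)))) (.nd (nat_lit 9) 
(.lf (nat_lit 578835) (.g (nat_lit 918) (.e (nat_lit 336236) (nat_lit 14) (.e (nat_lit 401459) (nat_lit 13) (.e (nat_lit 483411) (nat_lit 27) .nil))) (.g (nat_lit 0) (.e (nat_lit 372836) (nat_lit 0) .nil) .nil))) 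
(.lf (nat_lit 579347) (.g (nat_lit 1870) (.e (nat_lit 336324) (nat_lit 18) (.e (nat_lit 204852) (nat_lit 26) (.e (nat_lit 336326) (nat_lit 18) (.e (nat_lit 204880) (nat_lit 32) (.e (nat_lit 385057) (nat_lit 22) .nil))))) (.g (nat_lit 0) (.e (nat_lit 374434) (nat_lit 0) .nil) .nil))))) (.nd (nat_lit 8) (.nd (nat_lit 9) 
(.lf (nat_lit 578707) (.g (nat_lit 2001) (.e (nat_lit 336231) (nat_lit 14) (.e (nat_lit 401432) (nat_lit 7) (.e (nat_lit 409649) (nat_lit 18) (.e (nat_lit 303137) (nat_lit 10) .nil)))) (.g (nat_lit 0) (.e (nat_lit 372401) (nat_lit 0) .nil) .nil))) 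
(.lf (nat_lit 579219) (.g (nat_lit 2949) (.e (nat_lit 336323) (nat_lit 18) (.e (nat_lit 204838) (nat_lit 20) (.e (nat_lit 114698) (nat_lit 11) (.e (nat_lit 426139) (nat_lit 3) (.e (nat_lit 204859) (nat_lit 26) (.e (nat_lit 336116) (nat_lit 9) .nil)))))) (.g (nat_lit 1) (.e (nat_lit 374199) (nat_lit 0) .nil) .nil)))) (.nd (nat_lit 9) 
(.lf (nat_lit 578963) (.g (nat_lit 1084) (.e (nat_lit 336306) (nat_lit 15) (.e (nat_lit 3238) (nat_lit 197) (.e (nat_lit 532503) (nat_lit 1) (.e (nat_lit 57848) (nat_lit 252) .nil)))) (.g (nat_lit 0) (.e (nat_lit 373323) (nat_lit 0) .nil) .nil))) 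
(.lf (nat_lit 579475) (.g (nat_lit 2659) (.e (nat_lit 336325) (nat_lit 18) (.e (nat_lit 204880) (nat_lit 32) (.e (nat_lit 385066) (nat_lit 26) (.e (nat_lit 532531) (nat_lit 9) (.e (nat_lit 336324) (nat_lit 18) (.e (nat_lit 204852) (nat_lit 26) .nil)))))) (.g (nat_lit 1) (.e (nat_lit 374660) (nat_lit 0) .nil) .nil)))))) (.nd (nat_lit 7) (.nd (nat_lit 8) (.nd (nat_lit 9) 
(.lf (nat_lit 578643) (.g (nat_lit 1349) (.e (nat_lit 336228) (nat_lit 14) (.e (nat_lit 401458) (nat_lit 13) (.e (nat_lit 483409) (nat_lit 27) (.e (nat_lit 401438) (nat_lit 9) (.e (nat_lit 426509) (nat_lit 27) .nil))))) (.g (nat_lit 1) (.e (nat_lit 372094) (nat_lit 0) .nil) .nil))) 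
(.lf (nat_lit 579155) (.g (nat_lit 1853) (.e (nat_lit 336321) (nat_lit 18) (.e (nat_lit 204837) (nat_lit 20) (.e (nat_lit 114698) (nat_lit 11) (.e (nat_lit 426138) (nat_lit 3) (.e (nat_lit 204859) (nat_lit 26) .nil))))) (.g (nat_lit 0) (.e (nat_lit 374076) (nat_lit 0) .nil) .nil)))) (.nd (nat_lit 9) 
(.lf (nat_lit 578899) (.g (nat_lit 585) (.e (nat_lit 336267) (nat_lit 15) (.e (nat_lit 3631) (nat_lit 227) (.e (nat_lit 778324) (nat_lit 5) .nil))) (.g (nat_lit 0) (.e (nat_lit 373177) (nat_lit 0) .nil) .nil))) 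
(.lf (nat_lit 579411) (.g (nat_lit 1100) (.e (nat_lit 336324) (nat_lit 18) (.e (nat_lit 204882) (nat_lit 32) (.e (nat_lit 385057) (nat_lit 22) (.e (nat_lit 499966) (nat_lit 14) .nil)))) (.g (nat_lit 0) (.e (nat_lit 374528) (nat_lit 0) .nil) .nil))))) (.nd (nat_lit 8) (.nd (nat_lit 9) 
(.lf (nat_lit 578771) (.g (nat_lit 476) (.e (nat_lit 336232) (nat_lit 14) (.e (nat_lit 401448) (nat_lit 10) (.e (nat_lit 434287) (nat_lit 43) .nil))) (.g (nat_lit 0) (.e (nat_lit 372672) (nat_lit 0) .nil) .nil))) 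
(.lf (nat_lit 579283) (.g (nat_lit 1418) (.e (nat_lit 336324) (nat_lit 18) (.e (nat_lit 204837) (nat_lit 20) (.e (nat_lit 114698) (nat_lit 11) (.e (nat_lit 426123) (nat_lit 2) .nil)))) (.g (nat_lit 0) (.e (nat_lit 374323) (nat_lit 0) .nil) .nil)))) (.nd (nat_lit 9) 
(.lf (nat_lit 579027) (.g (nat_lit 3562) (.e (nat_lit 336295) (nat_lit 15) (.e (nat_lit 3304) (nat_lit 202) (.e (nat_lit 573492) (nat_lit 15) (.e (nat_lit 81956) (nat_lit 23) (.e (nat_lit 98389) (nat_lit 33) (.e (nat_lit 491546) (nat_lit 9) .nil)))))) (.g (nat_lit 1) (.e (nat_lit 373555) (nat_lit 0) .nil) .nil))) 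
(.lf (nat_lit 579539) (.g (nat_lit 3384) (.e (nat_lit 336326) (nat_lit 18) (.e (nat_lit 204854) (nat_lit 26) (.e (nat_lit 336306) (nat_lit 15) (.e (nat_lit 3238) (nat_lit 197) (.e (nat_lit 532531) (nat_lit 9) (.e (nat_lit 336324) (nat_lit 18) (.e (nat_lit 204854) (nat_lit 26) .nil))))))) (.g (nat_lit 1) (.e (nat_lit 374864) (nat_lit 0) .nil) .nil))))))) 
(.nd (nat_lit 6) (.nd (nat_lit 7) (.nd (nat_lit 8) (.nd (nat_lit 9) 
(.lf (nat_lit 578611) (.g (nat_lit 1257) (.e (nat_lit 336228) (nat_lit 14) (.e (nat_lit 401438) (nat_lit 9) (.e (nat_lit 426482) (nat_lit 27) (.e (nat_lit 336060) (nat_lit 7) .nil)))) (.g (nat_lit 0) (.e (nat_lit 372039) (nat_lit 0) .nil) .nil))) 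
(.lf (nat_lit 579123) (.g (nat_lit 2165) (.e (nat_lit 336316) (nat_lit 17) (.e (nat_lit 196666) (nat_lit 13) (.e (nat_lit 65617) (nat_lit 10) (.e (nat_lit 344095) (nat_lit 18) (.e (nat_lit 7697) (nat_lit 412) (.e (nat_lit 57366) (nat_lit 1) (.e (nat_lit 57854) (nat_lit 252) (.e (nat_lit 57409) (nat_lit 12) .nil)))))))) (.g (nat_lit 1) (.e (nat_lit 373800) (nat_lit 0) .nil) .nil)))) 
(.nd (nat_lit 9) 
(.lf (nat_lit 578867) (.g (nat_lit 2371) (.e (nat_lit 336257) (nat_lit 15) (.e (nat_lit 3256) (nat_lit 197) (.e (nat_lit 532563) (nat_lit 15) (.e (nat_lit 385066) (nat_lit 26) (.e (nat_lit 532563) (nat_lit 15) .nil))))) (.g (nat_lit 0) (.e (nat_lit 373051) (nat_lit 0) .nil) .nil))) 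
(.lf (nat_lit 579379) (.g (nat_lit 1960) (.e (nat_lit 336324) (nat_lit 18) (.e (nat_lit 204854) (nat_lit 26) (.e (nat_lit 336326) (nat_lit 18) (.e (nat_lit 204854) (nat_lit 26) (.e (nat_lit 336284) (nat_lit 15) (.e (nat_lit 3249) (nat_lit 197) (.e (nat_lit 532531) (nat_lit 9) .nil))))))) (.g (nat_lit 1) (.e (nat_lit 374483) (nat_lit 0) .nil) .nil))))) (.nd (nat_lit 8) (.nd (nat_lit 9) 
(.lf (nat_lit 578739) (.g (nat_lit 1416) (.e (nat_lit 336231) (nat_lit 14) (.e (nat_lit 401448) (nat_lit 10) (.e (nat_lit 434286) (nat_lit 42) (.e (nat_lit 688138) (nat_lit 5) (.e (nat_lit 2887) (nat_lit 184) .nil))))) (.g (nat_lit 0) (.e (nat_lit 372508) (nat_lit 0) .nil) .nil))) 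
(.lf (nat_lit 579251) (.g (nat_lit 2034) (.e (nat_lit 336324) (nat_lit 18) (.e (nat_lit 204831) (nat_lit 18) (.e (nat_lit 57849) (nat_lit 252) (.e (nat_lit 57407) (nat_lit 12) (.e (nat_lit 336377) (nat_lit 27) .nil))))) (.g (nat_lit 0) (.e (nat_lit 374264) (nat_lit 0) .nil) .nil)))) (.nd (nat_lit 9) 
(.lf (nat_lit 578995) (.g (nat_lit 3274) (.e (nat_lit 336306) (nat_lit 15) (.e (nat_lit 3307) (nat_lit 202) (.e (nat_lit 573485) (nat_lit 13) (.e (nat_lit 65619) (nat_lit 10) (.e (nat_lit 344129) (nat_lit 26) (.e (nat_lit 557087) (nat_lit 11) (.e (nat_lit 32512) (nat_lit 9) .nil))))))) (.g (nat_lit 1) (.e (nat_lit 373451) (nat_lit 0) .nil) .nil))) 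
(.lf (nat_lit 579507) (.g (nat_lit 893) (.e (nat_lit 336326) (nat_lit 18) (.e (nat_lit 204838) (nat_lit 20) (.e (nat_lit 114696) (nat_lit 11) .nil))) (.g (nat_lit 0) (.e (nat_lit 374789) (nat_lit 0) .nil) .nil)))))) (.nd (nat_lit 7) (.nd (nat_lit 8) (.nd (nat_lit 9) 
(.lf (nat_lit 578675) (.g (nat_lit 378) (.e (nat_lit 336230) (nat_lit 14) (.e (nat_lit 401446) (nat_lit 10) (.e (nat_lit 434289) (nat_lit 43) .nil))) (.g (nat_lit 0) (.e (nat_lit 372275) (nat_lit 0) .nil) .nil))) 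
(.lf (nat_lit 579187) (.g (nat_lit 2030) (.e (nat_lit 336322) (nat_lit 18) (.e (nat_lit 204880) (nat_lit 32) (.e (nat_lit 385066) (nat_lit 26) (.e (nat_lit 532530) (nat_lit 9) (.e (nat_lit 336324) (nat_lit 18) .nil))))) (.g (nat_lit 0) (.e (nat_lit 374166) (nat_lit 0) .nil) .nil)))) (.nd (nat_lit 9) 
(.lf (nat_lit 578931) (.g (nat_lit 1265) (.e (nat_lit 336277) (nat_lit 15) (.e (nat_lit 3632) (nat_lit 227) (.e (nat_lit 778323) (nat_lit 5) (.e (nat_lit 73782) (nat_lit 32) .nil)))) (.g (nat_lit 0) (.e (nat_lit 373223) (nat_lit 0) .nil) .nil))) 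
(.lf (nat_lit 579443) (.g (nat_lit 2639) (.e (nat_lit 336324) (nat_lit 18) (.e (nat_lit 204882) (nat_lit 32) (.e (nat_lit 385068) (nat_lit 26) (.e (nat_lit 532530) (nat_lit 9) (.e (nat_lit 336326) (nat_lit 18) (.e (nat_lit 204853) (nat_lit 26) .nil)))))) (.g (nat_lit 1) (.e (nat_lit 374568) (nat_lit 0) .nil) .nil))))) (.nd (nat_lit 8) (.nd (nat_lit 9) 
(.lf (nat_lit 578803) (.g (nat_lit 3683) (.e (nat_lit 336235) (nat_lit 14) (.e (nat_lit 401438) (nat_lit 9) (.e (nat_lit 426540) (nat_lit 29) (.e (nat_lit 352262) (nat_lit 0) (.e (nat_lit 3748) (nat_lit 228) (.e (nat_lit 786473) (nat_lit 27) .nil)))))) (.g (nat_lit 1) (.e (nat_lit 372777) (nat_lit 0) .nil) .nil))) 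
(.lf (nat_lit 579315) (.g (nat_lit 2831) (.e (nat_lit 336324) (nat_lit 18) (.e (nat_lit 204838) (nat_lit 20) (.e (nat_lit 114698) (nat_lit 11) (.e (nat_lit 426123) (nat_lit 2) (.e (nat_lit 196680) (nat_lit 17) .nil))))) (.g (nat_lit 0) (.e (nat_lit 374372) (nat_lit 0) .nil) .nil)))) (.nd (nat_lit 9) 
(.lf (nat_lit 579059) (.g (nat_lit 1830) (.e (nat_lit 336300) (nat_lit 15) (.e (nat_lit 3253) (nat_lit 197) (.e (nat_lit 532504) (nat_lit 1) (.e (nat_lit 57854) (nat_lit 252) (.e (nat_lit 57409) (nat_lit 12) .nil))))) (.g (nat_lit 0) (.e (nat_lit 373618) (nat_lit 0) .nil) .nil))) 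
(.lf (nat_lit 579571) (.g (nat_lit 3531) (.e (nat_lit 336326) (nat_lit 18) (.e (nat_lit 204854) (nat_lit 26) (.e (nat_lit 336326) (nat_lit 18) (.e (nat_lit 204880) (nat_lit 32) (.e (nat_lit 385066) (nat_lit 26) (.e (nat_lit 532534) (nat_lit 9) .nil)))))) (.g (nat_lit 1) (.e (nat_lit 374910) (nat_lit 0) .nil) .nil))))))))) 
(.nd (nat_lit 4) (.nd (nat_lit 5) (.nd (nat_lit 6) (.nd (nat_lit 7) (.nd (nat_lit 8) 
(.nd (nat_lit 9) 
(.lf (nat_lit 578571) (.g (nat_lit 1696) (.e (nat_lit 336227) (nat_lit 14) (.e (nat_lit 401458) (nat_lit 13) (.e (nat_lit 483372) (nat_lit 21) (.e (nat_lit 319511) (nat_lit 10) (.e (nat_lit 5664) (nat_lit 312) .nil))))) (.g (nat_lit 0) (.e (nat_lit 371992) (nat_lit 0) .nil) .nil))) 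
(.lf (nat_lit 579083) (.g (nat_lit 1873) (.e (nat_lit 336310) (nat_lit 16) (.e (nat_lit 164182) (nat_lit 154) (.e (nat_lit 57379) (nat_lit 3) (.e (nat_lit 98334) (nat_lit 18) .nil)))) (.g (nat_lit 0) (.e (nat_lit 373696) (nat_lit 0) .nil) .nil)))) (.nd (nat_lit 9) 
(.lf (nat_lit 578827) (.g (nat_lit 4237) (.e (nat_lit 336235) (nat_lit 14) (.e (nat_lit 401459) (nat_lit 13) (.e (nat_lit 483410) (nat_lit 27) (.e (nat_lit 401438) (nat_lit 9) (.e (nat_lit 426530) (nat_lit 27) .nil))))) (.g (nat_lit 1) (.e (nat_lit 372820) (nat_lit 0) .nil) .nil))) 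
(.lf (nat_lit 579339) (.g (nat_lit 2440) (.e (nat_lit 336324) (nat_lit 18) (.e (nat_lit 204852) (nat_lit 26) (.e (nat_lit 336324) (nat_lit 18) (.e (nat_lit 204854) (nat_lit 26) (.e (nat_lit 336316) (nat_lit 17) (.e (nat_lit 196630) (nat_lit 9) (.e (nat_lit 1433) (nat_lit 108) .nil))))))) (.g (nat_lit 1) (.e (nat_lit 374408) (nat_lit 0) .nil) .nil))))) (.nd (nat_lit 8) (.nd (nat_lit 9) 
(.lf (nat_lit 578699) (.g (nat_lit 1112) (.e (nat_lit 336230) (nat_lit 14) (.e (nat_lit 401458) (nat_lit 13) (.e (nat_lit 483354) (nat_lit 17) (.e (nat_lit 7936) (nat_lit 361) .nil)))) (.g (nat_lit 0) (.e (nat_lit 372378) (nat_lit 0) .nil) .nil))) 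
(.lf (nat_lit 579211) (.g (nat_lit 356) (.e (nat_lit 336323) (nat_lit 18) (.e (nat_lit 204831) (nat_lit 18) (.e (nat_lit 57848) (nat_lit 252) .nil))) (.g (nat_lit 0) (.e (nat_lit 374190) (nat_lit 0) .nil) .nil)))) (.nd (nat_lit 9) 
(.lf (nat_lit 578955) (.g (nat_lit 1332) (.e (nat_lit 336306) (nat_lit 15) (.e (nat_lit 3238) (nat_lit 197) (.e (nat_lit 532500) (nat_lit 1) (.e (nat_lit 57830) (nat_lit 250) .nil)))) (.g (nat_lit 0) (.e (nat_lit 373315) (nat_lit 0) .nil) .nil))) 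
(.lf (nat_lit 579467) (.g (nat_lit 668) (.e (nat_lit 336325) (nat_lit 18) (.e (nat_lit 204852) (nat_lit 26) (.e (nat_lit 336325) (nat_lit 18) .nil))) (.g (nat_lit 0) (.e (nat_lit 374637) (nat_lit 0) .nil) .nil)))))) (.nd (nat_lit 7) (.nd (nat_lit 8) (.nd (nat_lit 9) 
(.lf (nat_lit 578635) (.g (nat_lit 398) (.e (nat_lit 336228) (nat_lit 14) (.e (nat_lit 401458) (nat_lit 13) (.e (nat_lit 483372) (nat_lit 21) .nil))) (.g (nat_lit 0) (.e (nat_lit 372085) (nat_lit 0) .nil) .nil))) 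
(.lf (nat_lit 579147) (.g (nat_lit 1219) (.e (nat_lit 336319) (nat_lit 17) (.e (nat_lit 196698) (nat_lit 19) (.e (nat_lit 57808) (nat_lit 246) (.e (nat_lit 57879) (nat_lit 270) (.e (nat_lit 496) (nat_lit 39) (.e (nat_lit 483391) (nat_lit 23) .nil)))))) (.g (nat_lit 1) (.e (nat_lit 374039) (nat_lit 0) .nil) .nil)))) (.nd (nat_lit 9) 
(.lf (nat_lit 578891) (.g (nat_lit 1922) (.e (nat_lit 336266) (nat_lit 15) (.e (nat_lit 3305) (nat_lit 202) (.e (nat_lit 573484) (nat_lit 13) (.e (nat_lit 65617) (nat_lit 10) .nil)))) (.g (nat_lit 0) (.e (nat_lit 373155) (nat_lit 0) .nil) .nil))) 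
(.lf (nat_lit 579403) (.g (nat_lit 431) (.e (nat_lit 336324) (nat_lit 18) (.e (nat_lit 204880) (nat_lit 32) (.e (nat_lit 385068) (nat_lit 26) .nil))) (.g (nat_lit 0) (.e (nat_lit 374519) (nat_lit 0) .nil) .nil))))) (.nd (nat_lit 8) (.nd (nat_lit 9) 
(.lf (nat_lit 578763) (.g (nat_lit 4171) (.e (nat_lit 336232) (nat_lit 14) (.e (nat_lit 401444) (nat_lit 9) (.e (nat_lit 426163) (nat_lit 6) (.e (nat_lit 253991) (nat_lit 11) (.e (nat_lit 16446) (nat_lit 9) (.e (nat_lit 426500) (nat_lit 27) .nil)))))) (.g (nat_lit 1) (.e (nat_lit 372616) (nat_lit 0) .nil) .nil))) 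
(.lf (nat_lit 579275) (.g (nat_lit 419) (.e (nat_lit 336324) (nat_lit 18) (.e (nat_lit 204837) (nat_lit 20) (.e (nat_lit 114697) (nat_lit 11) .nil))) (.g (nat_lit 0) (.e (nat_lit 374303) (nat_lit 0) .nil) .nil)))) (.nd (nat_lit 9) 
(.lf (nat_lit 579019) (.g (nat_lit 2174) (.e (nat_lit 336292) (nat_lit 15) (.e (nat_lit 3253) (nat_lit 197) (.e (nat_lit 532501) (nat_lit 1) (.e (nat_lit 57851) (nat_lit 252) (.e (nat_lit 57406) (nat_lit 12) .nil))))) (.g (nat_lit 0) (.e (nat_lit 373544) (nat_lit 0) .nil) .nil))) 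
(.lf (nat_lit 579531) (.g (nat_lit 2681) (.e (nat_lit 336326) (nat_lit 18) (.e (nat_lit 204853) (nat_lit 26) (.e (nat_lit 336324) (nat_lit 18) (.e (nat_lit 204854) (nat_lit 26) (.e (nat_lit 336325) (nat_lit 18) (.e (nat_lit 204852) (nat_lit 26) .nil)))))) (.g (nat_lit 1) (.e (nat_lit 374840) (nat_lit 0) .nil) .nil))))))) (.nd (nat_lit 6) (.nd (nat_lit 7) (.nd (nat_lit 8) (.nd (nat_lit 9) 
(.lf (nat_lit 578603) (.g (nat_lit 1596) (.e (nat_lit 336228) (nat_lit 14) (.e (nat_lit 401437) (nat_lit 9) (.e (nat_lit 426533) (nat_lit 28) (.e (nat_lit 344066) (nat_lit 0) (.e (nat_lit 2936) (nat_lit 184) (.e (nat_lit 426508) (nat_lit 27) .nil)))))) (.g (nat_lit 1) (.e (nat_lit 372029) (nat_lit 0) .nil) .nil))) 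
(.lf (nat_lit 579115) (.g (nat_lit 4005) (.e (nat_lit 336316) (nat_lit 17) (.e (nat_lit 196666) (nat_lit 13) (.e (nat_lit 65617) (nat_lit 10) (.e (nat_lit 344091) (nat_lit 18) (.e (nat_lit 7695) (nat_lit 412) (.e (nat_lit 57365) (nat_lit 1) (.e (nat_lit 57854) (nat_lit 252) (.e (nat_lit 57406) (nat_lit 12) .nil)))))))) (.g (nat_lit 1) (.e (nat_lit 373792) (nat_lit 0) .nil) .nil)))) 
(.nd (nat_lit 9) 
(.lf (nat_lit 578859) (.g (nat_lit 2936) (.e (nat_lit 336240) (nat_lit 15) (.e (nat_lit 3309) (nat_lit 202) (.e (nat_lit 573485) (nat_lit 13) (.e (nat_lit 65630) (nat_lit 14) (.e (nat_lit 401425) (nat_lit 2) (.e (nat_lit 196681) (nat_lit 17) (.e (nat_lit 131105) (nat_lit 9) .nil))))))) (.g (nat_lit 1) (.e (nat_lit 372970) (nat_lit 0) .nil) .nil))) 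
(.lf (nat_lit 579371) (.g (nat_lit 884) (.e (nat_lit 336324) (nat_lit 18) (.e (nat_lit 204854) (nat_lit 26) (.e (nat_lit 336324) (nat_lit 18) (.e (nat_lit 204854) (nat_lit 26) .nil)))) (.g (nat_lit 0) (.e (nat_lit 374464) (nat_lit 0) .nil) .nil))))) (.nd (nat_lit 8) (.nd (nat_lit 9) 
(.lf (nat_lit 578731) (.g (nat_lit 1449) (.e (nat_lit 336231) (nat_lit 14) (.e (nat_lit 401448) (nat_lit 10) (.e (nat_lit 434202) (nat_lit 18) (.e (nat_lit 6416) (nat_lit 341) (.e (nat_lit 163843) (nat_lit 0) (.e (nat_lit 7936) (nat_lit 392) (.e (nat_lit 172150) (nat_lit 27) .nil))))))) (.g (nat_lit 1) (.e (nat_lit 372476) (nat_lit 0) .nil) .nil))) 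
(.lf (nat_lit 579243) (.g (nat_lit 2972) (.e (nat_lit 336324) (nat_lit 18) (.e (nat_lit 204831) (nat_lit 18) (.e (nat_lit 57846) (nat_lit 252) (.e (nat_lit 57411) (nat_lit 12) (.e (nat_lit 336454) (nat_lit 34) (.e (nat_lit 483385) (nat_lit 23) .nil)))))) (.g (nat_lit 1) (.e (nat_lit 374254) (nat_lit 0) .nil) .nil)))) (.nd (nat_lit 9) 
(.lf (nat_lit 578987) (.g (nat_lit 2205) (.e (nat_lit 336306) (nat_lit 15) (.e (nat_lit 3304) (nat_lit 202) (.e (nat_lit 573484) (nat_lit 13) (.e (nat_lit 65617) (nat_lit 10) (.e (nat_lit 344130) (nat_lit 26) .nil))))) (.g (nat_lit 0) (.e (nat_lit 373429) (nat_lit 0) .nil) .nil))) 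
(.lf (nat_lit 579499) (.g (nat_lit 1756) (.e (nat_lit 336326) (nat_lit 18) (.e (nat_lit 204831) (nat_lit 18) (.e (nat_lit 57854) (nat_lit 252) (.e (nat_lit 57378) (nat_lit 3) (.e (nat_lit 98342) (nat_lit 20) .nil))))) (.g (nat_lit 0) (.e (nat_lit 374764) (nat_lit 0) .nil) .nil)))))) (.nd (nat_lit 7) (.nd (nat_lit 8) (.nd (nat_lit 9) 
(.lf (nat_lit 578667) (.g (nat_lit 1635) (.e (nat_lit 336229) (nat_lit 14) (.e (nat_lit 401459) (nat_lit 13) (.e (nat_lit 483344) (nat_lit 17) (.e (nat_lit 6732) (nat_lit 364) .nil)))) (.g (nat_lit 0) (.e (nat_lit 372189) (nat_lit 0) .nil) .nil))) 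
(.lf (nat_lit 579179) (.g (nat_lit 1318) (.e (nat_lit 336322) (nat_lit 18) (.e (nat_lit 204852) (nat_lit 26) (.e (nat_lit 336326) (nat_lit 18) (.e (nat_lit 204853) (nat_lit 26) .nil)))) (.g (nat_lit 0) (.e (nat_lit 374147) (nat_lit 0) .nil) .nil)))) (.nd (nat_lit 9) 
(.lf (nat_lit 578923) (.g (nat_lit 2170) (.e (nat_lit 336276) (nat_lit 15) (.e (nat_lit 3253) (nat_lit 197) (.e (nat_lit 532501) (nat_lit 1) (.e (nat_lit 57851) (nat_lit 252) (.e (nat_lit 57406) (nat_lit 12) .nil))))) (.g (nat_lit 0) (.e (nat_lit 373207) (nat_lit 0) .nil) .nil))) 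
(.lf (nat_lit 579435) (.g (nat_lit 430) (.e (nat_lit 336324) (nat_lit 18) (.e (nat_lit 204882) (nat_lit 32) (.e (nat_lit 385068) (nat_lit 26) .nil))) (.g (nat_lit 0) (.e (nat_lit 374560) (nat_lit 0) .nil) .nil))))) (.nd (nat_lit 8) (.nd (nat_lit 9) 
(.lf (nat_lit 578795) (.g (nat_lit 3672) (.e (nat_lit 336235) (nat_lit 14) (.e (nat_lit 401437) (nat_lit 9) (.e (nat_lit 426530) (nat_lit 27) (.e (nat_lit 336235) (nat_lit 14) (.e (nat_lit 401438) (nat_lit 9) (.e (nat_lit 426530) (nat_lit 27) .nil)))))) (.g (nat_lit 1) (.e (nat_lit 372763) (nat_lit 0) .nil) .nil))) 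
(.lf (nat_lit 579307) (.g (nat_lit 3220) (.e (nat_lit 336324) (nat_lit 18) (.e (nat_lit 204838) (nat_lit 20) (.e (nat_lit 114696) (nat_lit 11) (.e (nat_lit 426129) (nat_lit 3) (.e (nat_lit 204852) (nat_lit 26) (.e (nat_lit 343808) (nat_lit 9) .nil)))))) (.g (nat_lit 1) (.e (nat_lit 374355) (nat_lit 0) .nil) .nil)))) (.nd (nat_lit 9) 
(.lf (nat_lit 579051) (.g (nat_lit 3044) (.e (nat_lit 336297) (nat_lit 15) (.e (nat_lit 3632) (nat_lit 227) (.e (nat_lit 778323) (nat_lit 5) (.e (nat_lit 73782) (nat_lit 32) (.e (nat_lit 3090) (nat_lit 191) (.e (nat_lit 483380) (nat_lit 23) .nil)))))) (.g (nat_lit 1) (.e (nat_lit 373609) (nat_lit 0) .nil) .nil))) 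
(.lf (nat_lit 579563) (.g (nat_lit 2804) (.e (nat_lit 336326) (nat_lit 18) (.e (nat_lit 204854) (nat_lit 26) (.e (nat_lit 336326) (nat_lit 18) (.e (nat_lit 204854) (nat_lit 26) (.e (nat_lit 336265) (nat_lit 15) (.e (nat_lit 3234) (nat_lit 197) (.e (nat_lit 532530) (nat_lit 9) .nil))))))) (.g (nat_lit 1) (.e (nat_lit 374898) (nat_lit 0) .nil) .nil)))))))) 
(.nd (nat_lit 5) (.nd (nat_lit 6) (.nd (nat_lit 7) (.nd (nat_lit 8) (.nd (nat_lit 9) 
(.lf (nat_lit 578587) (.g (nat_lit 1597) (.e (nat_lit 336228) (nat_lit 14) (.e (nat_lit 401425) (nat_lit 2) (.e (nat_lit 196670) (nat_lit 14) (.e (nat_lit 73781) (nat_lit 32) (.e (nat_lit 2681) (nat_lit 168) .nil))))) (.g (nat_lit 0) (.e (nat_lit 372012) (nat_lit 0) .nil) .nil))) 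
(.lf (nat_lit 579099) (.g (nat_lit 2947) (.e (nat_lit 336316) (nat_lit 17) (.e (nat_lit 196666) (nat_lit 13) (.e (nat_lit 65610) (nat_lit 10) (.e (nat_lit 344088) (nat_lit 18) (.e (nat_lit 7695) (nat_lit 412) (.e (nat_lit 57363) (nat_lit 1) (.e (nat_lit 57847) (nat_lit 252) (.e (nat_lit 57407) (nat_lit 12) .nil)))))))) (.g (nat_lit 1) (.e (nat_lit 373771) (nat_lit 0) .nil) .nil)))) 
(.nd (nat_lit 9) 
(.lf (nat_lit 578843) (.g (nat_lit 1943) (.e (nat_lit 336238) (nat_lit 15) (.e (nat_lit 3309) (nat_lit 202) (.e (nat_lit 573484) (nat_lit 13) (.e (nat_lit 65610) (nat_lit 10) (.e (nat_lit 344129) (nat_lit 26) .nil))))) (.g (nat_lit 0) (.e (nat_lit 372856) (nat_lit 0) .nil) .nil))) 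
(.lf (nat_lit 579355) (.g (nat_lit 862) (.e (nat_lit 336324) (nat_lit 18) (.e (nat_lit 204854) (nat_lit 26) (.e (nat_lit 336247) (nat_lit 15) .nil))) (.g (nat_lit 0) (.e (nat_lit 374445) (nat_lit 0) .nil) .nil))))) (.nd (nat_lit 8) (.nd (nat_lit 9) 
(.lf (nat_lit 578715) (.g (nat_lit 680) (.e (nat_lit 336231) (nat_lit 14) (.e (nat_lit 401446) (nat_lit 10) (.e (nat_lit 434199) (nat_lit 18) .nil))) (.g (nat_lit 0) (.e (nat_lit 372424) (nat_lit 0) .nil) .nil))) 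
(.lf (nat_lit 579227) (.g (nat_lit 2378) (.e (nat_lit 336323) (nat_lit 18) (.e (nat_lit 204880) (nat_lit 32) (.e (nat_lit 385068) (nat_lit 26) (.e (nat_lit 532530) (nat_lit 9) (.e (nat_lit 336326) (nat_lit 18) (.e (nat_lit 204859) (nat_lit 26) .nil)))))) (.g (nat_lit 1) (.e (nat_lit 374221) (nat_lit 0) .nil) .nil)))) (.nd (nat_lit 9) 
(.lf (nat_lit 578971) (.g (nat_lit 2891) (.e (nat_lit 336306) (nat_lit 15) (.e (nat_lit 3238) (nat_lit 197) (.e (nat_lit 532535) (nat_lit 9) (.e (nat_lit 336295) (nat_lit 15) (.e (nat_lit 3234) (nat_lit 197) (.e (nat_lit 532563) (nat_lit 15) (.e (nat_lit 385066) (nat_lit 26) (.e (nat_lit 532532) (nat_lit 9) .nil)))))))) (.g (nat_lit 1) (.e (nat_lit 373350) (nat_lit 0) .nil) .nil))) 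
(.lf (nat_lit 579483) (.g (nat_lit 1011) (.e (nat_lit 336326) (nat_lit 18) (.e (nat_lit 204829) (nat_lit 18) (.e (nat_lit 57854) (nat_lit 252) .nil))) (.g (nat_lit 0) (.e (nat_lit 374690) (nat_lit 0) .nil) .nil)))))) (.nd (nat_lit 7) (.nd (nat_lit 8) (.nd (nat_lit 9) 
(.lf (nat_lit 578651) (.g (nat_lit 3066) (.e (nat_lit 336229) (nat_lit 14) (.e (nat_lit 401448) (nat_lit 10) (.e (nat_lit 434209) (nat_lit 18) (.e (nat_lit 6425) (nat_lit 342) (.e (nat_lit 229412) (nat_lit 14) .nil))))) (.g (nat_lit 0) (.e (nat_lit 372121) (nat_lit 0) .nil) .nil))) 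
(.lf (nat_lit 579163) (.g (nat_lit 2577) (.e (nat_lit 336321) (nat_lit 18) (.e (nat_lit 204880) (nat_lit 32) (.e (nat_lit 385068) (nat_lit 26) (.e (nat_lit 532530) (nat_lit 9) (.e (nat_lit 336326) (nat_lit 18) .nil))))) (.g (nat_lit 0) (.e (nat_lit 374103) (nat_lit 0) .nil) .nil)))) (.nd (nat_lit 9) 
(.lf (nat_lit 578907) (.g (nat_lit 1964) (.e (nat_lit 336270) (nat_lit 15) (.e (nat_lit 3305) (nat_lit 202) (.e (nat_lit 573484) (nat_lit 13) (.e (nat_lit 65617) (nat_lit 10) (.e (nat_lit 344133) (nat_lit 26) .nil))))) (.g (nat_lit 0) (.e (nat_lit 373186) (nat_lit 0) .nil) .nil))) 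
(.lf (nat_lit 579419) (.g (nat_lit 295) (.e (nat_lit 336324) (nat_lit 18) (.e (nat_lit 204882) (nat_lit 32) (.e (nat_lit 385066) (nat_lit 26) .nil))) (.g (nat_lit 0) (.e (nat_lit 374541) (nat_lit 0) .nil) .nil))))) (.nd (nat_lit 8) (.nd (nat_lit 9) 
(.lf (nat_lit 578779) (.g (nat_lit 1704) (.e (nat_lit 336233) (nat_lit 14) (.e (nat_lit 401459) (nat_lit 13) (.e (nat_lit 483411) (nat_lit 27) (.e (nat_lit 401435) (nat_lit 9) .nil)))) (.g (nat_lit 0) (.e (nat_lit 372717) (nat_lit 0) .nil) .nil))) 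
(.lf (nat_lit 579291) (.g (nat_lit 3691) (.e (nat_lit 336324) (nat_lit 18) (.e (nat_lit 204837) (nat_lit 20) (.e (nat_lit 114698) (nat_lit 11) (.e (nat_lit 426139) (nat_lit 3) (.e (nat_lit 204852) (nat_lit 26) (.e (nat_lit 343808) (nat_lit 9) .nil)))))) (.g (nat_lit 1) (.e (nat_lit 374337) (nat_lit 0) .nil) .nil)))) (.nd (nat_lit 9) 
(.lf (nat_lit 579035) (.g (nat_lit 1730) (.e (nat_lit 336293) (nat_lit 15) (.e (nat_lit 3253) (nat_lit 197) (.e (nat_lit 532501) (nat_lit 1) (.e (nat_lit 57854) (nat_lit 252) (.e (nat_lit 57409) (nat_lit 12) .nil))))) (.g (nat_lit 0) (.e (nat_lit 373590) (nat_lit 0) .nil) .nil))) 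
(.lf (nat_lit 579547) (.g (nat_lit 751) (.e (nat_lit 336326) (nat_lit 18) (.e (nat_lit 204854) (nat_lit 26) (.e (nat_lit 336320) (nat_lit 17) .nil))) (.g (nat_lit 0) (.e (nat_lit 374876) (nat_lit 0) .nil) .nil))))))) (.nd (nat_lit 6) (.nd (nat_lit 7) (.nd (nat_lit 8) (.nd (nat_lit 9) 
(.lf (nat_lit 578619) (.g (nat_lit 1559) (.e (nat_lit 336228) (nat_lit 14) (.e (nat_lit 401456) (nat_lit 13) (.e (nat_lit 483372) (nat_lit 21) (.e (nat_lit 319511) (nat_lit 10) .nil)))) (.g (nat_lit 0) (.e (nat_lit 372063) (nat_lit 0) .nil) .nil))) 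
(.lf (nat_lit 579131) (.g (nat_lit 962) (.e (nat_lit 336316) (nat_lit 17) (.e (nat_lit 196666) (nat_lit 13) (.e (nat_lit 65642) (nat_lit 15) (.e (nat_lit 3253) (nat_lit 197) .nil)))) (.g (nat_lit 0) (.e (nat_lit 373809) (nat_lit 0) .nil) .nil)))) (.nd (nat_lit 9) 
(.lf (nat_lit 578875) (.g (nat_lit 3074) (.e (nat_lit 336260) (nat_lit 15) (.e (nat_lit 3238) (nat_lit 197) (.e (nat_lit 532504) (nat_lit 1) (.e (nat_lit 57851) (nat_lit 252) (.e (nat_lit 57406) (nat_lit 12) .nil))))) (.g (nat_lit 0) (.e (nat_lit 373098) (nat_lit 0) .nil) .nil))) 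
(.lf (nat_lit 579387) (.g (nat_lit 893) (.e (nat_lit 336324) (nat_lit 18) (.e (nat_lit 204866) (nat_lit 28) (.e (nat_lit 352278) (nat_lit 11) .nil))) (.g (nat_lit 0) (.e (nat_lit 374500) (nat_lit 0) .nil) .nil))))) (.nd (nat_lit 8) (.nd (nat_lit 9) 
(.lf (nat_lit 578747) (.g (nat_lit 2536) (.e (nat_lit 336231) (nat_lit 14) (.e (nat_lit 401456) (nat_lit 13) (.e (nat_lit 483372) (nat_lit 21) (.e (nat_lit 319504) (nat_lit 10) (.e (nat_lit 7936) (nat_lit 312) .nil))))) (.g (nat_lit 0) (.e (nat_lit 372537) (nat_lit 0) .nil) .nil))) 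
(.lf (nat_lit 579259) (.g (nat_lit 929) (.e (nat_lit 336324) (nat_lit 18) (.e (nat_lit 204831) (nat_lit 18) (.e (nat_lit 57852) (nat_lit 252) (.e (nat_lit 57404) (nat_lit 12) .nil)))) (.g (nat_lit 0) (.e (nat_lit 374272) (nat_lit 0) .nil) .nil)))) (.nd (nat_lit 9) 
(.lf (nat_lit 579003) (.g (nat_lit 1442) (.e (nat_lit 336306) (nat_lit 15) (.e (nat_lit 3308) (nat_lit 202) (.e (nat_lit 573493) (nat_lit 15) (.e (nat_lit 81954) (nat_lit 23) .nil)))) (.g (nat_lit 0) (.e (nat_lit 373499) (nat_lit 0) .nil) .nil))) 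
(.lf (nat_lit 579515) (.g (nat_lit 2560) (.e (nat_lit 336326) (nat_lit 18) (.e (nat_lit 204852) (nat_lit 26) (.e (nat_lit 336326) (nat_lit 18) (.e (nat_lit 204854) (nat_lit 26) (.e (nat_lit 336257) (nat_lit 15) .nil))))) (.g (nat_lit 0) (.e (nat_lit 374821) (nat_lit 0) .nil) .nil)))))) (.nd (nat_lit 7) (.nd (nat_lit 8) (.nd (nat_lit 9) 
(.lf (nat_lit 578683) (.g (nat_lit 590) (.e (nat_lit 336230) (nat_lit 14) (.e (nat_lit 401448) (nat_lit 10) (.e (nat_lit 434287) (nat_lit 43) .nil))) (.g (nat_lit 0) (.e (nat_lit 372333) (nat_lit 0) .nil) .nil))) 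
(.lf (nat_lit 579195) (.g (nat_lit 1203) (.e (nat_lit 336322) (nat_lit 18) (.e (nat_lit 204880) (nat_lit 32) (.e (nat_lit 385068) (nat_lit 26) (.e (nat_lit 532566) (nat_lit 15) .nil)))) (.g (nat_lit 0) (.e (nat_lit 374174) (nat_lit 0) .nil) .nil)))) (.nd (nat_lit 9) 
(.lf (nat_lit 578939) (.g (nat_lit 1637) (.e (nat_lit 336285) (nat_lit 15) (.e (nat_lit 3253) (nat_lit 197) (.e (nat_lit 532504) (nat_lit 1) (.e (nat_lit 57851) (nat_lit 252) .nil)))) (.g (nat_lit 0) (.e (nat_lit 373242) (nat_lit 0) .nil) .nil))) 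
(.lf (nat_lit 579451) (.g (nat_lit 1967) (.e (nat_lit 336325) (nat_lit 18) (.e (nat_lit 204837) (nat_lit 20) (.e (nat_lit 114698) (nat_lit 11) (.e (nat_lit 426133) (nat_lit 3) (.e (nat_lit 204861) (nat_lit 26) .nil))))) (.g (nat_lit 0) (.e (nat_lit 374594) (nat_lit 0) .nil) .nil))))) (.nd (nat_lit 8) (.nd (nat_lit 9) 
(.lf (nat_lit 578811) (.g (nat_lit 2664) (.e (nat_lit 336235) (nat_lit 14) (.e (nat_lit 401456) (nat_lit 13) (.e (nat_lit 483386) (nat_lit 23) (.e (nat_lit 336295) (nat_lit 15) (.e (nat_lit 3747) (nat_lit 228) (.e (nat_lit 786473) (nat_lit 27) .nil)))))) (.g (nat_lit 1) (.e (nat_lit 372800) (nat_lit 0) .nil) .nil))) 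
(.lf (nat_lit 579323) (.g (nat_lit 2111) (.e (nat_lit 336324) (nat_lit 18) (.e (nat_lit 204838) (nat_lit 20) (.e (nat_lit 122624) (nat_lit 11) (.e (nat_lit 426116) (nat_lit 2) (.e (nat_lit 196681) (nat_lit 17) (.e (nat_lit 131105) (nat_lit 9) .nil)))))) (.g (nat_lit 1) (.e (nat_lit 374386) (nat_lit 0) .nil) .nil)))) (.nd (nat_lit 9) 
(.lf (nat_lit 579067) (.g (nat_lit 1939) (.e (nat_lit 343808) (nat_lit 15) (.e (nat_lit 3307) (nat_lit 202) (.e (nat_lit 573484) (nat_lit 13) (.e (nat_lit 65617) (nat_lit 10) .nil)))) (.g (nat_lit 0) (.e (nat_lit 373645) (nat_lit 0) .nil) .nil))) 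
(.lf (nat_lit 579579) (.g (nat_lit 1376) (.e (nat_lit 336326) (nat_lit 18) (.e (nat_lit 204862) (nat_lit 27) (.e (nat_lit 344132) (nat_lit 26) (.e (nat_lit 557101) (nat_lit 13) (.e (nat_lit 179968) (nat_lit 15) .nil))))) (.g (nat_lit 0) (.e (nat_lit 374932) (nat_lit 0) .nil) .nil)))))))))) 
(.nd (nat_lit 3) (.nd (nat_lit 4) (.nd (nat_lit 5) (.nd (nat_lit 6) (.nd (nat_lit 7) 
(.nd (nat_lit 8) (.nd (nat_lit 9) 
(.lf (nat_lit 578567) (.g (nat_lit 1454) (.e (nat_lit 336226) (nat_lit 14) (.e (nat_lit 401459) (nat_lit 13) (.e (nat_lit 483411) (nat_lit 27) (.e (nat_lit 401435) (nat_lit 9) .nil)))) (.g (nat_lit 0) (.e (nat_lit 371977) (nat_lit 0) .nil) .nil))) 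
(.lf (nat_lit 579079) (.g (nat_lit 2316) (.e (nat_lit 336310) (nat_lit 16) (.e (nat_lit 164179) (nat_lit 154) (.e (nat_lit 57436) (nat_lit 17) (.e (nat_lit 376860) (nat_lit 21) (.e (nat_lit 57854) (nat_lit 252) .nil))))) (.g (nat_lit 0) (.e (nat_lit 373691) (nat_lit 0) .nil) .nil)))) (.nd (nat_lit 9) 
(.lf (nat_lit 578823) (.g (nat_lit 2918) (.e (nat_lit 336235) (nat_lit 14) (.e (nat_lit 401459) (nat_lit 13) (.e (nat_lit 483372) (nat_lit 21) (.e (nat_lit 319505) (nat_lit 10) (.e (nat_lit 7936) (nat_lit 312) .nil))))) (.g (nat_lit 0) (.e (nat_lit 372816) (nat_lit 0) .nil) .nil))) 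
(.lf (nat_lit 579335) (.g (nat_lit 2278) (.e (nat_lit 336324) (nat_lit 18) (.e (nat_lit 204852) (nat_lit 26) (.e (nat_lit 336324) (nat_lit 18) (.e (nat_lit 204852) (nat_lit 26) (.e (nat_lit 336326) (nat_lit 18) (.e (nat_lit 204853) (nat_lit 26) .nil)))))) (.g (nat_lit 1) (.e (nat_lit 374402) (nat_lit 0) .nil) .nil))))) (.nd (nat_lit 8) (.nd (nat_lit 9) 
(.lf (nat_lit 578695) (.g (nat_lit 3840) (.e (nat_lit 336230) (nat_lit 14) (.e (nat_lit 401448) (nat_lit 10) (.e (nat_lit 434289) (nat_lit 43) (.e (nat_lit 696344) (nat_lit 8) (.e (nat_lit 172095) (nat_lit 9) (.e (nat_lit 426513) (nat_lit 27) .nil)))))) (.g (nat_lit 1) (.e (nat_lit 372347) (nat_lit 0) .nil) .nil))) 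
(.lf (nat_lit 579207) (.g (nat_lit 851) (.e (nat_lit 336323) (nat_lit 18) (.e (nat_lit 204830) (nat_lit 18) (.e (nat_lit 57854) (nat_lit 252) (.e (nat_lit 57409) (nat_lit 12) .nil)))) (.g (nat_lit 0) (.e (nat_lit 374186) (nat_lit 0) .nil) .nil)))) (.nd (nat_lit 9) 
(.lf (nat_lit 578951) (.g (nat_lit 1578) (.e (nat_lit 336303) (nat_lit 15) (.e (nat_lit 3304) (nat_lit 202) (.e (nat_lit 573484) (nat_lit 13) (.e (nat_lit 65617) (nat_lit 10) .nil)))) (.g (nat_lit 0) (.e (nat_lit 373273) (nat_lit 0) .nil) .nil))) 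
(.lf (nat_lit 579463) (.g (nat_lit 2935) (.e (nat_lit 336325) (nat_lit 18) (.e (nat_lit 204838) (nat_lit 20) (.e (nat_lit 114698) (nat_lit 11) (.e (nat_lit 426139) (nat_lit 3) (.e (nat_lit 204850) (nat_lit 26) .nil))))) (.g (nat_lit 0) (.e (nat_lit 374623) (nat_lit 0) .nil) .nil)))))) (.nd (nat_lit 7) (.nd (nat_lit 8) (.nd (nat_lit 9) 
(.lf (nat_lit 578631) (.g (nat_lit 1642) (.e (nat_lit 336228) (nat_lit 14) (.e (nat_lit 401458) (nat_lit 13) (.e (nat_lit 483350) (nat_lit 17) (.e (nat_lit 6097) (nat_lit 332) .nil)))) (.g (nat_lit 0) (.e (nat_lit 372080) (nat_lit 0) .nil) .nil))) 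
(.lf (nat_lit 579143) (.g (nat_lit 1456) (.e (nat_lit 336316) (nat_lit 17) (.e (nat_lit 196670) (nat_lit 14) (.e (nat_lit 73754) (nat_lit 8) (.e (nat_lit 557101) (nat_lit 13) .nil)))) (.g (nat_lit 0) (.e (nat_lit 373932) (nat_lit 0) .nil) .nil)))) (.nd (nat_lit 9) 
(.lf (nat_lit 578887) (.g (nat_lit 1403) (.e (nat_lit 336263) (nat_lit 15) (.e (nat_lit 3305) (nat_lit 202) (.e (nat_lit 573484) (nat_lit 13) (.e (nat_lit 65617) (nat_lit 10) .nil)))) (.g (nat_lit 0) (.e (nat_lit 373149) (nat_lit 0) .nil) .nil))) 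
(.lf (nat_lit 579399) (.g (nat_lit 2170) (.e (nat_lit 336324) (nat_lit 18) (.e (nat_lit 204880) (nat_lit 32) (.e (nat_lit 385066) (nat_lit 26) (.e (nat_lit 532534) (nat_lit 9) (.e (nat_lit 336326) (nat_lit 18) (.e (nat_lit 204850) (nat_lit 26) .nil)))))) (.g (nat_lit 1) (.e (nat_lit 374515) (nat_lit 0) .nil) .nil))))) (.nd (nat_lit 8) (.nd (nat_lit 9) 
(.lf (nat_lit 578759) (.g (nat_lit 1862) (.e (nat_lit 336232) (nat_lit 14) (.e (nat_lit 401432) (nat_lit 7) (.e (nat_lit 409648) (nat_lit 18) (.e (nat_lit 303137) (nat_lit 10) (.e (nat_lit 434275) (nat_lit 39) .nil))))) (.g (nat_lit 0) (.e (nat_lit 372600) (nat_lit 0) .nil) .nil))) 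
(.lf (nat_lit 579271) (.g (nat_lit 3412) (.e (nat_lit 336324) (nat_lit 18) (.e (nat_lit 204831) (nat_lit 18) (.e (nat_lit 57854) (nat_lit 252) (.e (nat_lit 57409) (nat_lit 12) (.e (nat_lit 336452) (nat_lit 34) (.e (nat_lit 483381) (nat_lit 23) .nil)))))) (.g (nat_lit 1) (.e (nat_lit 374294) (nat_lit 0) .nil) .nil)))) (.nd (nat_lit 9) 
(.lf (nat_lit 579015) (.g (nat_lit 1249) (.e (nat_lit 336291) (nat_lit 15) (.e (nat_lit 3632) (nat_lit 227) (.e (nat_lit 778323) (nat_lit 5) (.e (nat_lit 73781) (nat_lit 32) .nil)))) (.g (nat_lit 0) (.e (nat_lit 373540) (nat_lit 0) .nil) .nil))) 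
(.lf (nat_lit 579527) (.g (nat_lit 2825) (.e (nat_lit 336326) (nat_lit 18) (.e (nat_lit 204852) (nat_lit 26) (.e (nat_lit 336326) (nat_lit 18) (.e (nat_lit 204854) (nat_lit 26) (.e (nat_lit 336297) (nat_lit 15) (.e (nat_lit 3234) (nat_lit 197) (.e (nat_lit 532530) (nat_lit 9) .nil))))))) (.g (nat_lit 1) (.e (nat_lit 374834) (nat_lit 0) .nil) .nil))))))) 
(.nd (nat_lit 6) (.nd (nat_lit 7) (.nd (nat_lit 8) (.nd (nat_lit 9) 
(.lf (nat_lit 578599) (.g (nat_lit 2958) (.e (nat_lit 336228) (nat_lit 14) (.e (nat_lit 401437) (nat_lit 9) (.e (nat_lit 426482) (nat_lit 27) (.e (nat_lit 336060) (nat_lit 7) (.e (nat_lit 319537) (nat_lit 19) (.e (nat_lit 311353) (nat_lit 27) .nil)))))) (.g (nat_lit 1) (.e (nat_lit 372025) (nat_lit 0) .nil) .nil))) 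
(.lf (nat_lit 579111) (.g (nat_lit 2478) (.e (nat_lit 336316) (nat_lit 17) (.e (nat_lit 196666) (nat_lit 13) (.e (nat_lit 65617) (nat_lit 10) (.e (nat_lit 344088) (nat_lit 18) (.e (nat_lit 7695) (nat_lit 412) (.e (nat_lit 57366) (nat_lit 1) (.e (nat_lit 57847) (nat_lit 252) (.e (nat_lit 57407) (nat_lit 12) .nil)))))))) (.g (nat_lit 1) (.e (nat_lit 373788) (nat_lit 0) .nil) .nil)))) 
(.nd (nat_lit 9) 
(.lf (nat_lit 578855) (.g (nat_lit 1400) (.e (nat_lit 336240) (nat_lit 15) (.e (nat_lit 3309) (nat_lit 202) (.e (nat_lit 573484) (nat_lit 13) (.e (nat_lit 65617) (nat_lit 10) .nil)))) (.g (nat_lit 0) (.e (nat_lit 372951) (nat_lit 0) .nil) .nil))) 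
(.lf (nat_lit 579367) (.g (nat_lit 2758) (.e (nat_lit 336324) (nat_lit 18) (.e (nat_lit 204854) (nat_lit 26) (.e (nat_lit 336324) (nat_lit 18) (.e (nat_lit 204852) (nat_lit 26) (.e (nat_lit 336316) (nat_lit 17) (.e (nat_lit 196630) (nat_lit 9) (.e (nat_lit 1413) (nat_lit 108) .nil))))))) (.g (nat_lit 1) (.e (nat_lit 374459) (nat_lit 0) .nil) .nil))))) (.nd (nat_lit 8) (.nd (nat_lit 9) 
(.lf (nat_lit 578727) (.g (nat_lit 1780) (.e (nat_lit 336231) (nat_lit 14) (.e (nat_lit 401446) (nat_lit 10) (.e (nat_lit 434289) (nat_lit 43) (.e (nat_lit 696343) (nat_lit 8) (.e (nat_lit 172092) (nat_lit 9) .nil))))) (.g (nat_lit 0) (.e (nat_lit 372463) (nat_lit 0) .nil) .nil))) 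
(.lf (nat_lit 579239) (.g (nat_lit 829) (.e (nat_lit 336324) (nat_lit 18) (.e (nat_lit 204830) (nat_lit 18) (.e (nat_lit 57852) (nat_lit 252) (.e (nat_lit 65280) (nat_lit 12) .nil)))) (.g (nat_lit 0) (.e (nat_lit 374248) (nat_lit 0) .nil) .nil)))) (.nd (nat_lit 9) 
(.lf (nat_lit 578983) (.g (nat_lit 2939) (.e (nat_lit 336306) (nat_lit 15) (.e (nat_lit 3298) (nat_lit 202) (.e (nat_lit 573481) (nat_lit 13) (.e (nat_lit 65619) (nat_lit 10) (.e (nat_lit 344129) (nat_lit 26) (.e (nat_lit 557087) (nat_lit 11) (.e (nat_lit 32512) (nat_lit 9) .nil))))))) (.g (nat_lit 1) (.e (nat_lit 373405) (nat_lit 0) .nil) .nil))) 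
(.lf (nat_lit 579495) (.g (nat_lit 1797) (.e (nat_lit 336326) (nat_lit 18) (.e (nat_lit 204831) (nat_lit 18) (.e (nat_lit 57852) (nat_lit 252) (.e (nat_lit 57376) (nat_lit 3) .nil)))) (.g (nat_lit 0) (.e (nat_lit 374737) (nat_lit 0) .nil) .nil)))))) (.nd (nat_lit 7) (.nd (nat_lit 8) (.nd (nat_lit 9) 
(.lf (nat_lit 578663) (.g (nat_lit 2239) (.e (nat_lit 336229) (nat_lit 14) (.e (nat_lit 401458) (nat_lit 13) (.e (nat_lit 483372) (nat_lit 21) (.e (nat_lit 319505) (nat_lit 10) (.e (nat_lit 7936) (nat_lit 312) .nil))))) (.g (nat_lit 0) (.e (nat_lit 372180) (nat_lit 0) .nil) .nil))) 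
(.lf (nat_lit 579175) (.g (nat_lit 1707) (.e (nat_lit 336322) (nat_lit 18) (.e (nat_lit 204852) (nat_lit 26) (.e (nat_lit 336324) (nat_lit 18) (.e (nat_lit 204880) (nat_lit 32) (.e (nat_lit 385066) (nat_lit 26) .nil))))) (.g (nat_lit 0) (.e (nat_lit 374141) (nat_lit 0) .nil) .nil)))) (.nd (nat_lit 9) 
(.lf (nat_lit 578919) (.g (nat_lit 960) (.e (nat_lit 336275) (nat_lit 15) (.e (nat_lit 3631) (nat_lit 227) (.e (nat_lit 778323) (nat_lit 5) (.e (nat_lit 73782) (nat_lit 32) .nil)))) (.g (nat_lit 0) (.e (nat_lit 373203) (nat_lit 0) .nil) .nil))) 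
(.lf (nat_lit 579431) (.g (nat_lit 2320) (.e (nat_lit 336324) (nat_lit 18) (.e (nat_lit 204882) (nat_lit 32) (.e (nat_lit 385066) (nat_lit 26) (.e (nat_lit 532534) (nat_lit 9) (.e (nat_lit 336326) (nat_lit 18) (.e (nat_lit 204850) (nat_lit 26) .nil)))))) (.g (nat_lit 1) (.e (nat_lit 374554) (nat_lit 0) .nil) .nil))))) (.nd (nat_lit 8) (.nd (nat_lit 9) 
(.lf (nat_lit 578791) (.g (nat_lit 3322) (.e (nat_lit 336235) (nat_lit 14) (.e (nat_lit 401435) (nat_lit 9) (.e (nat_lit 426540) (nat_lit 29) (.e (nat_lit 352262) (nat_lit 0) (.e (nat_lit 3748) (nat_lit 228) (.e (nat_lit 786473) (nat_lit 27) .nil)))))) (.g (nat_lit 1) (.e (nat_lit 372759) (nat_lit 0) .nil) .nil))) 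
(.lf (nat_lit 579303) (.g (nat_lit 2546) (.e (nat_lit 336324) (nat_lit 18) (.e (nat_lit 204838) (nat_lit 20) (.e (nat_lit 114694) (nat_lit 11) (.e (nat_lit 426116) (nat_lit 2) (.e (nat_lit 196681) (nat_lit 17) (.e (nat_lit 131109) (nat_lit 9) .nil)))))) (.g (nat_lit 1) (.e (nat_lit 374349) (nat_lit 0) .nil) .nil)))) (.nd (nat_lit 9) 
(.lf (nat_lit 579047) (.g (nat_lit 2344) (.e (nat_lit 336294) (nat_lit 15) (.e (nat_lit 3305) (nat_lit 202) (.e (nat_lit 573484) (nat_lit 13) (.e (nat_lit 65617) (nat_lit 10) (.e (nat_lit 344130) (nat_lit 26) .nil))))) (.g (nat_lit 0) (.e (nat_lit 373605) (nat_lit 0) .nil) .nil))) 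
(.lf (nat_lit 579559) (.g (nat_lit 2566) (.e (nat_lit 336326) (nat_lit 18) (.e (nat_lit 204854) (nat_lit 26) (.e (nat_lit 336326) (nat_lit 18) (.e (nat_lit 204854) (nat_lit 26) (.e (nat_lit 336260) (nat_lit 15) .nil))))) (.g (nat_lit 0) (.e (nat_lit 374894) (nat_lit 0) .nil) .nil)))))))) (.nd (nat_lit 5) (.nd (nat_lit 6) (.nd (nat_lit 7) (.nd (nat_lit 8) (.nd (nat_lit 9) 
(.lf (nat_lit 578583) (.g (nat_lit 3575) (.e (nat_lit 336228) (nat_lit 14) (.e (nat_lit 401425) (nat_lit 2) (.e (nat_lit 196666) (nat_lit 13) (.e (nat_lit 65628) (nat_lit 14) (.e (nat_lit 401428) (nat_lit 3) (.e (nat_lit 204858) (nat_lit 26) .nil)))))) (.g (nat_lit 1) (.e (nat_lit 372005) (nat_lit 0) .nil) .nil))) 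
(.lf (nat_lit 579095) (.g (nat_lit 2117) (.e (nat_lit 336314) (nat_lit 16) (.e (nat_lit 164177) (nat_lit 154) (.e (nat_lit 57379) (nat_lit 3) (.e (nat_lit 98334) (nat_lit 18) (.e (nat_lit 164305) (nat_lit 226) .nil))))) (.g (nat_lit 0) (.e (nat_lit 373709) (nat_lit 0) .nil) .nil)))) (.nd (nat_lit 9) 
(.lf (nat_lit 578839) (.g (nat_lit 3391) (.e (nat_lit 343808) (nat_lit 14) (.e (nat_lit 401459) (nat_lit 13) (.e (nat_lit 483372) (nat_lit 21) (.e (nat_lit 319504) (nat_lit 10) .nil)))) (.g (nat_lit 0) (.e (nat_lit 372846) (nat_lit 0) .nil) .nil))) 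
(.lf (nat_lit 579351) (.g (nat_lit 1915) (.e (nat_lit 336324) (nat_lit 18) (.e (nat_lit 204854) (nat_lit 26) (.e (nat_lit 336019) (nat_lit 3) (.e (nat_lit 98342) (nat_lit 20) .nil)))) (.g (nat_lit 0) (.e (nat_lit 374440) (nat_lit 0) .nil) .nil))))) (.nd (nat_lit 8) (.nd (nat_lit 9) 
(.lf (nat_lit 578711) (.g (nat_lit 430) (.e (nat_lit 336231) (nat_lit 14) (.e (nat_lit 401444) (nat_lit 9) (.e (nat_lit 426163) (nat_lit 6) .nil))) (.g (nat_lit 0) (.e (nat_lit 372420) (nat_lit 0) .nil) .nil))) 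
(.lf (nat_lit 579223) (.g (nat_lit 1160) (.e (nat_lit 336323) (nat_lit 18) (.e (nat_lit 204854) (nat_lit 26) (.e (nat_lit 336211) (nat_lit 13) (.e (nat_lit 393253) (nat_lit 18) .nil)))) (.g (nat_lit 0) (.e (nat_lit 374211) (nat_lit 0) .nil) .nil)))) (.nd (nat_lit 9) 
(.lf (nat_lit 578967) (.g (nat_lit 1656) (.e (nat_lit 336306) (nat_lit 15) (.e (nat_lit 3238) (nat_lit 197) (.e (nat_lit 532504) (nat_lit 1) (.e (nat_lit 57854) (nat_lit 252) .nil)))) (.g (nat_lit 0) (.e (nat_lit 373327) (nat_lit 0) .nil) .nil))) 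
(.lf (nat_lit 579479) (.g (nat_lit 872) (.e (nat_lit 336326) (nat_lit 18) (.e (nat_lit 204828) (nat_lit 18) (.e (nat_lit 57853) (nat_lit 252) (.e (nat_lit 57406) (nat_lit 12) .nil)))) (.g (nat_lit 0) (.e (nat_lit 374676) (nat_lit 0) .nil) .nil)))))) (.nd (nat_lit 7) (.nd (nat_lit 8) (.nd (nat_lit 9) 
(.lf (nat_lit 578647) (.g (nat_lit 2408) (.e (nat_lit 336228) (nat_lit 14) (.e (nat_lit 401459) (nat_lit 13) (.e (nat_lit 483410) (nat_lit 27) (.e (nat_lit 401438) (nat_lit 9) (.e (nat_lit 426482) (nat_lit 27) .nil))))) (.g (nat_lit 1) (.e (nat_lit 372100) (nat_lit 0) .nil) .nil))) 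
(.lf (nat_lit 579159) (.g (nat_lit 2463) (.e (nat_lit 336321) (nat_lit 18) (.e (nat_lit 204838) (nat_lit 20) (.e (nat_lit 114698) (nat_lit 11) (.e (nat_lit 426133) (nat_lit 3) (.e (nat_lit 204859) (nat_lit 26) .nil))))) (.g (nat_lit 0) (.e (nat_lit 374081) (nat_lit 0) .nil) .nil)))) (.nd (nat_lit 9) 
(.lf (nat_lit 578903) (.g (nat_lit 1325) (.e (nat_lit 336270) (nat_lit 15) (.e (nat_lit 3253) (nat_lit 197) (.e (nat_lit 532504) (nat_lit 1) (.e (nat_lit 57854) (nat_lit 252) .nil)))) (.g (nat_lit 0) (.e (nat_lit 373181) (nat_lit 0) .nil) .nil))) 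
(.lf (nat_lit 579415) (.g (nat_lit 1920) (.e (nat_lit 336324) (nat_lit 18) (.e (nat_lit 204882) (nat_lit 32) (.e (nat_lit 385065) (nat_lit 26) (.e (nat_lit 532534) (nat_lit 9) (.e (nat_lit 336324) (nat_lit 18) (.e (nat_lit 204853) (nat_lit 26) .nil)))))) (.g (nat_lit 1) (.e (nat_lit 374536) (nat_lit 0) .nil) .nil))))) (.nd (nat_lit 8) (.nd (nat_lit 9) 
(.lf (nat_lit 578775) (.g (nat_lit 2528) (.e (nat_lit 336232) (nat_lit 14) (.e (nat_lit 401448) (nat_lit 10) (.e (nat_lit 434288) (nat_lit 43) (.e (nat_lit 696346) (nat_lit 10) (.e (nat_lit 188423) (nat_lit 11) .nil))))) (.g (nat_lit 1) (.e (nat_lit 372676) (nat_lit 0) .nil) .nil))) 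
(.lf (nat_lit 579287) (.g (nat_lit 1157) (.e (nat_lit 336324) (nat_lit 18) (.e (nat_lit 204837) (nat_lit 20) (.e (nat_lit 114698) (nat_lit 11) (.e (nat_lit 426138) (nat_lit 3) .nil)))) (.g (nat_lit 0) (.e (nat_lit 374332) (nat_lit 0) .nil) .nil)))) (.nd (nat_lit 9) 
(.lf (nat_lit 579031) (.g (nat_lit 499) (.e (nat_lit 336295) (nat_lit 15) (.e (nat_lit 3305) (nat_lit 202) (.e (nat_lit 573487) (nat_lit 14) .nil))) (.g (nat_lit 0) (.e (nat_lit 373579) (nat_lit 0) .nil) .nil))) 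
(.lf (nat_lit 579543) (.g (nat_lit 1011) (.e (nat_lit 336326) (nat_lit 18) (.e (nat_lit 204854) (nat_lit 26) (.e (nat_lit 336315) (nat_lit 17) (.e (nat_lit 196665) (nat_lit 13) .nil)))) (.g (nat_lit 0) (.e (nat_lit 374870) (nat_lit 0) .nil) .nil))))))) (.nd (nat_lit 6) (.nd (nat_lit 7) (.nd (nat_lit 8) (.nd (nat_lit 9) 
(.lf (nat_lit 578615) (.g (nat_lit 2953) (.e (nat_lit 336228) (nat_lit 14) (.e (nat_lit 401448) (nat_lit 10) (.e (nat_lit 434289) (nat_lit 43) (.e (nat_lit 696344) (nat_lit 8) (.e (nat_lit 172087) (nat_lit 9) .nil))))) (.g (nat_lit 0) (.e (nat_lit 372049) (nat_lit 0) .nil) .nil))) 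
(.lf (nat_lit 579127) (.g (nat_lit 2276) (.e (nat_lit 336316) (nat_lit 17) (.e (nat_lit 196666) (nat_lit 13) (.e (nat_lit 65617) (nat_lit 10) (.e (nat_lit 344096) (nat_lit 18) (.e (nat_lit 7697) (nat_lit 412) (.e (nat_lit 57364) (nat_lit 1) (.e (nat_lit 57854) (nat_lit 252) (.e (nat_lit 57406) (nat_lit 12) .nil)))))))) (.g (nat_lit 1) (.e (nat_lit 373804) (nat_lit 0) .nil) .nil)))) 
(.nd (nat_lit 9) 
(.lf (nat_lit 578871) (.g (nat_lit 1902) (.e (nat_lit 336261) (nat_lit 15) (.e (nat_lit 3304) (nat_lit 202) (.e (nat_lit 573484) (nat_lit 13) (.e (nat_lit 65617) (nat_lit 10) (.e (nat_lit 344132) (nat_lit 26) .nil))))) (.g (nat_lit 0) (.e (nat_lit 373083) (nat_lit 0) .nil) .nil))) 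
(.lf (nat_lit 579383) (.g (nat_lit 2633) (.e (nat_lit 336324) (nat_lit 18) (.e (nat_lit 204854) (nat_lit 26) (.e (nat_lit 336326) (nat_lit 18) (.e (nat_lit 204854) (nat_lit 26) (.e (nat_lit 336326) (nat_lit 18) (.e (nat_lit 204853) (nat_lit 26) .nil)))))) (.g (nat_lit 1) (.e (nat_lit 374495) (nat_lit 0) .nil) .nil))))) (.nd (nat_lit 8) (.nd (nat_lit 9) 
(.lf (nat_lit 578743) (.g (nat_lit 491) (.e (nat_lit 336231) (nat_lit 14) (.e (nat_lit 401448) (nat_lit 10) (.e (nat_lit 434287) (nat_lit 43) .nil))) (.g (nat_lit 0) (.e (nat_lit 372513) (nat_lit 0) .nil) .nil))) 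
(.lf (nat_lit 579255) (.g (nat_lit 1792) (.e (nat_lit 336324) (nat_lit 18) (.e (nat_lit 204831) (nat_lit 18) (.e (nat_lit 57851) (nat_lit 252) (.e (nat_lit 57406) (nat_lit 12) (.e (nat_lit 336377) (nat_lit 27) .nil))))) (.g (nat_lit 0) (.e (nat_lit 374268) (nat_lit 0) .nil) .nil)))) (.nd (nat_lit 9) 
(.lf (nat_lit 578999) (.g (nat_lit 3282) (.e (nat_lit 336306) (nat_lit 15) (.e (nat_lit 3308) (nat_lit 202) (.e (nat_lit 573482) (nat_lit 13) (.e (nat_lit 65619) (nat_lit 10) (.e (nat_lit 344129) (nat_lit 26) (.e (nat_lit 557087) (nat_lit 11) (.e (nat_lit 32512) (nat_lit 9) .nil))))))) (.g (nat_lit 1) (.e (nat_lit 373480) (nat_lit 0) .nil) .nil))) 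
(.lf (nat_lit 579511) (.g (nat_lit 541) (.e (nat_lit 336326) (nat_lit 18) (.e (nat_lit 204838) (nat_lit 20) (.e (nat_lit 122624) (nat_lit 12) .nil))) (.g (nat_lit 0) (.e (nat_lit 374803) (nat_lit 0) .nil) .nil)))))) (.nd (nat_lit 7) (.nd (nat_lit 8) (.nd (nat_lit 9) 
(.lf (nat_lit 578679) (.g (nat_lit 2216) (.e (nat_lit 336230) (nat_lit 14) (.e (nat_lit 401446) (nat_lit 10) (.e (nat_lit 434289) (nat_lit 43) (.e (nat_lit 696329) (nat_lit 5) (.e (nat_lit 2988) (nat_lit 186) (.e (nat_lit 442390) (nat_lit 11) .nil)))))) (.g (nat_lit 1) (.e (nat_lit 372280) (nat_lit 0) .nil) .nil))) 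
(.lf (nat_lit 579191) (.g (nat_lit 2735) (.e (nat_lit 336322) (nat_lit 18) (.e (nat_lit 204880) (nat_lit 32) (.e (nat_lit 385066) (nat_lit 26) (.e (nat_lit 532534) (nat_lit 9) (.e (nat_lit 336326) (nat_lit 18) (.e (nat_lit 204851) (nat_lit 26) .nil)))))) (.g (nat_lit 1) (.e (nat_lit 374170) (nat_lit 0) .nil) .nil)))) (.nd (nat_lit 9) 
(.lf (nat_lit 578935) (.g (nat_lit 1454) (.e (nat_lit 336277) (nat_lit 15) (.e (nat_lit 3632) (nat_lit 227) (.e (nat_lit 778324) (nat_lit 5) (.e (nat_lit 73781) (nat_lit 32) (.e (nat_lit 3090) (nat_lit 191) .nil))))) (.g (nat_lit 0) (.e (nat_lit 373227) (nat_lit 0) .nil) .nil))) 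
(.lf (nat_lit 579447) (.g (nat_lit 1821) (.e (nat_lit 336325) (nat_lit 18) (.e (nat_lit 204829) (nat_lit 18) (.e (nat_lit 57854) (nat_lit 252) (.e (nat_lit 57406) (nat_lit 12) .nil)))) (.g (nat_lit 0) (.e (nat_lit 374572) (nat_lit 0) .nil) .nil))))) (.nd (nat_lit 8) (.nd (nat_lit 9) 
(.lf (nat_lit 578807) (.g (nat_lit 3470) (.e (nat_lit 336235) (nat_lit 14) (.e (nat_lit 401454) (nat_lit 12) (.e (nat_lit 475210) (nat_lit 41) (.e (nat_lit 712722) (nat_lit 15) (.e (nat_lit 3778) (nat_lit 229) (.e (nat_lit 794682) (nat_lit 25) (.e (nat_lit 221192) (nat_lit 11) .nil))))))) (.g (nat_lit 1) (.e (nat_lit 372795) (nat_lit 0) .nil) .nil))) 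
(.lf (nat_lit 579319) (.g (nat_lit 1182) (.e (nat_lit 336324) (nat_lit 18) (.e (nat_lit 204838) (nat_lit 20) (.e (nat_lit 114698) (nat_lit 11) (.e (nat_lit 426139) (nat_lit 3) .nil)))) (.g (nat_lit 0) (.e (nat_lit 374381) (nat_lit 0) .nil) .nil)))) (.nd (nat_lit 9) 
(.lf (nat_lit 579063) (.g (nat_lit 2025) (.e (nat_lit 336300) (nat_lit 15) (.e (nat_lit 3632) (nat_lit 227) (.e (nat_lit 778323) (nat_lit 5) (.e (nat_lit 73781) (nat_lit 32) (.e (nat_lit 3087) (nat_lit 191) (.e (nat_lit 483391) (nat_lit 23) .nil)))))) (.g (nat_lit 1) (.e (nat_lit 373628) (nat_lit 0) .nil) .nil))) 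
(.lf (nat_lit 579575) (.g (nat_lit 3007) (.e (nat_lit 336326) (nat_lit 18) (.e (nat_lit 204859) (nat_lit 26) (.e (nat_lit 336323) (nat_lit 18) (.e (nat_lit 204882) (nat_lit 32) (.e (nat_lit 385066) (nat_lit 26) (.e (nat_lit 532534) (nat_lit 9) .nil)))))) (.g (nat_lit 1) (.e (nat_lit 374919) (nat_lit 0) .nil) .nil))))))))) 
(.nd (nat_lit 4) (.nd (nat_lit 5) (.nd (nat_lit 6) (.nd (nat_lit 7) (.nd (nat_lit 8) 
(.nd (nat_lit 9) 
(.lf (nat_lit 578575) (.g (nat_lit 1546) (.e (nat_lit 336227) (nat_lit 14) (.e (nat_lit 401459) (nat_lit 13) (.e (nat_lit 483411) (nat_lit 27) (.e (nat_lit 409344) (nat_lit 9) .nil)))) (.g (nat_lit 0) (.e (nat_lit 371997) (nat_lit 0) .nil) .nil))) 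
(.lf (nat_lit 579087) (.g (nat_lit 2118) (.e (nat_lit 336310) (nat_lit 16) (.e (nat_lit 164183) (nat_lit 154) (.e (nat_lit 57378) (nat_lit 3) (.e (nat_lit 98333) (nat_lit 18) (.e (nat_lit 164325) (nat_lit 230) .nil))))) (.g (nat_lit 0) (.e (nat_lit 373700) (nat_lit 0) .nil) .nil)))) (.nd (nat_lit 9) 
(.lf (nat_lit 578831) (.g (nat_lit 2857) (.e (nat_lit 336236) (nat_lit 14) (.e (nat_lit 401425) (nat_lit 2) (.e (nat_lit 196666) (nat_lit 13) (.e (nat_lit 65630) (nat_lit 14) (.e (nat_lit 401428) (nat_lit 3) .nil))))) (.g (nat_lit 0) (.e (nat_lit 372828) (nat_lit 0) .nil) .nil))) 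
(.lf (nat_lit 579343) (.g (nat_lit 2787) (.e (nat_lit 336324) (nat_lit 18) (.e (nat_lit 204852) (nat_lit 26) (.e (nat_lit 336326) (nat_lit 18) (.e (nat_lit 204851) (nat_lit 26) (.e (nat_lit 336324) (nat_lit 18) (.e (nat_lit 204853) (nat_lit 26) .nil)))))) (.g (nat_lit 1) (.e (nat_lit 374414) (nat_lit 0) .nil) .nil))))) (.nd (nat_lit 8) (.nd (nat_lit 9) 
(.lf (nat_lit 578703) (.g (nat_lit 1687) (.e (nat_lit 336231) (nat_lit 14) (.e (nat_lit 401432) (nat_lit 7) (.e (nat_lit 409646) (nat_lit 18) (.e (nat_lit 303135) (nat_lit 10) .nil)))) (.g (nat_lit 0) (.e (nat_lit 372393) (nat_lit 0) .nil) .nil))) 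
(.lf (nat_lit 579215) (.g (nat_lit 2099) (.e (nat_lit 336323) (nat_lit 18) (.e (nat_lit 204837) (nat_lit 20) (.e (nat_lit 114698) (nat_lit 11) (.e (nat_lit 426133) (nat_lit 3) (.e (nat_lit 204859) (nat_lit 26) .nil))))) (.g (nat_lit 0) (.e (nat_lit 374194) (nat_lit 0) .nil) .nil)))) (.nd (nat_lit 9) 
(.lf (nat_lit 578959) (.g (nat_lit 1195) (.e (nat_lit 336306) (nat_lit 15) (.e (nat_lit 3238) (nat_lit 197) (.e (nat_lit 532501) (nat_lit 1) (.e (nat_lit 57852) (nat_lit 252) .nil)))) (.g (nat_lit 0) (.e (nat_lit 373319) (nat_lit 0) .nil) .nil))) 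
(.lf (nat_lit 579471) (.g (nat_lit 860) (.e (nat_lit 336325) (nat_lit 18) (.e (nat_lit 204876) (nat_lit 31) (.e (nat_lit 376842) (nat_lit 11) (.e (nat_lit 426100) (nat_lit 1) .nil)))) (.g (nat_lit 0) (.e (nat_lit 374656) (nat_lit 0) .nil) .nil)))))) (.nd (nat_lit 7) (.nd (nat_lit 8) (.nd (nat_lit 9) 
(.lf (nat_lit 578639) (.g (nat_lit 1394) (.e (nat_lit 336228) (nat_lit 14) (.e (nat_lit 401458) (nat_lit 13) (.e (nat_lit 483372) (nat_lit 21) (.e (nat_lit 327424) (nat_lit 18) .nil)))) (.g (nat_lit 0) (.e (nat_lit 372090) (nat_lit 0) .nil) .nil))) 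
(.lf (nat_lit 579151) (.g (nat_lit 1309) (.e (nat_lit 336320) (nat_lit 17) (.e (nat_lit 196698) (nat_lit 19) (.e (nat_lit 57810) (nat_lit 246) (.e (nat_lit 57883) (nat_lit 270) (.e (nat_lit 496) (nat_lit 39) (.e (nat_lit 483381) (nat_lit 23) .nil)))))) (.g (nat_lit 1) (.e (nat_lit 374067) (nat_lit 0) .nil) .nil)))) (.nd (nat_lit 9) 
(.lf (nat_lit 578895) (.g (nat_lit 1919) (.e (nat_lit 336267) (nat_lit 15) (.e (nat_lit 3305) (nat_lit 202) (.e (nat_lit 573484) (nat_lit 13) (.e (nat_lit 65617) (nat_lit 10) .nil)))) (.g (nat_lit 0) (.e (nat_lit 373172) (nat_lit 0) .nil) .nil))) 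
(.lf (nat_lit 579407) (.g (nat_lit 2434) (.e (nat_lit 336324) (nat_lit 18) (.e (nat_lit 204880) (nat_lit 32) (.e (nat_lit 385068) (nat_lit 26) (.e (nat_lit 532534) (nat_lit 9) (.e (nat_lit 336325) (nat_lit 18) (.e (nat_lit 204852) (nat_lit 26) .nil)))))) (.g (nat_lit 1) (.e (nat_lit 374523) (nat_lit 0) .nil) .nil))))) (.nd (nat_lit 8) (.nd (nat_lit 9) 
(.lf (nat_lit 578767) (.g (nat_lit 2046) (.e (nat_lit 336232) (nat_lit 14) (.e (nat_lit 401446) (nat_lit 10) (.e (nat_lit 434287) (nat_lit 43) (.e (nat_lit 696346) (nat_lit 10) (.e (nat_lit 188421) (nat_lit 11) .nil))))) (.g (nat_lit 1) (.e (nat_lit 372642) (nat_lit 0) .nil) .nil))) 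
(.lf (nat_lit 579279) (.g (nat_lit 3068) (.e (nat_lit 336324) (nat_lit 18) (.e (nat_lit 204837) (nat_lit 20) (.e (nat_lit 114697) (nat_lit 11) (.e (nat_lit 426123) (nat_lit 2) (.e (nat_lit 196681) (nat_lit 17) (.e (nat_lit 131105) (nat_lit 9) .nil)))))) (.g (nat_lit 1) (.e (nat_lit 374309) (nat_lit 0) .nil) .nil)))) (.nd (nat_lit 9) 
(.lf (nat_lit 579023) (.g (nat_lit 1823) (.e (nat_lit 336292) (nat_lit 15) (.e (nat_lit 3631) (nat_lit 227) (.e (nat_lit 778323) (nat_lit 5) (.e (nat_lit 73781) (nat_lit 32) (.e (nat_lit 3090) (nat_lit 191) (.e (nat_lit 483387) (nat_lit 23) .nil)))))) (.g (nat_lit 1) (.e (nat_lit 373550) (nat_lit 0) .nil) .nil))) 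
(.lf (nat_lit 579535) (.g (nat_lit 1109) (.e (nat_lit 336326) (nat_lit 18) (.e (nat_lit 204854) (nat_lit 26) (.e (nat_lit 336263) (nat_lit 15) .nil))) (.g (nat_lit 0) (.e (nat_lit 374855) (nat_lit 0) .nil) .nil))))))) (.nd (nat_lit 6) (.nd (nat_lit 7) (.nd (nat_lit 8) (.nd (nat_lit 9) 
(.lf (nat_lit 578607) (.g (nat_lit 3118) (.e (nat_lit 336228) (nat_lit 14) (.e (nat_lit 401437) (nat_lit 9) (.e (nat_lit 426533) (nat_lit 28) (.e (nat_lit 344068) (nat_lit 0) (.e (nat_lit 2856) (nat_lit 184) (.e (nat_lit 426509) (nat_lit 27) .nil)))))) (.g (nat_lit 1) (.e (nat_lit 372033) (nat_lit 0) .nil) .nil))) 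
(.lf (nat_lit 579119) (.g (nat_lit 1967) (.e (nat_lit 336316) (nat_lit 17) (.e (nat_lit 196666) (nat_lit 13) (.e (nat_lit 65617) (nat_lit 10) (.e (nat_lit 344091) (nat_lit 18) (.e (nat_lit 7936) (nat_lit 412) .nil))))) (.g (nat_lit 0) (.e (nat_lit 373796) (nat_lit 0) .nil) .nil)))) (.nd (nat_lit 9) 
(.lf (nat_lit 578863) (.g (nat_lit 2483) (.e (nat_lit 336243) (nat_lit 15) (.e (nat_lit 3302) (nat_lit 202) (.e (nat_lit 573484) (nat_lit 13) (.e (nat_lit 65617) (nat_lit 10) .nil)))) (.g (nat_lit 0) (.e (nat_lit 373044) (nat_lit 0) .nil) .nil))) 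
(.lf (nat_lit 579375) (.g (nat_lit 2019) (.e (nat_lit 336324) (nat_lit 18) (.e (nat_lit 204854) (nat_lit 26) (.e (nat_lit 336324) (nat_lit 18) (.e (nat_lit 204880) (nat_lit 32) (.e (nat_lit 385057) (nat_lit 22) .nil))))) (.g (nat_lit 0) (.e (nat_lit 374473) (nat_lit 0) .nil) .nil))))) (.nd (nat_lit 8) (.nd (nat_lit 9) 
(.lf (nat_lit 578735) (.g (nat_lit 1092) (.e (nat_lit 336231) (nat_lit 14) (.e (nat_lit 401448) (nat_lit 10) (.e (nat_lit 434208) (nat_lit 18) (.e (nat_lit 6416) (nat_lit 341) .nil)))) (.g (nat_lit 0) (.e (nat_lit 372487) (nat_lit 0) .nil) .nil))) 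
(.lf (nat_lit 579247) (.g (nat_lit 2677) (.e (nat_lit 336324) (nat_lit 18) (.e (nat_lit 204831) (nat_lit 18) (.e (nat_lit 57847) (nat_lit 252) (.e (nat_lit 57411) (nat_lit 12) (.e (nat_lit 336452) (nat_lit 34) (.e (nat_lit 483382) (nat_lit 23) .nil)))))) (.g (nat_lit 1) (.e (nat_lit 374258) (nat_lit 0) .nil) .nil)))) (.nd (nat_lit 9) 
(.lf (nat_lit 578991) (.g (nat_lit 2044) (.e (nat_lit 336306) (nat_lit 15) (.e (nat_lit 3307) (nat_lit 202) (.e (nat_lit 573484) (nat_lit 13) (.e (nat_lit 65617) (nat_lit 10) .nil)))) (.g (nat_lit 0) (.e (nat_lit 373440) (nat_lit 0) .nil) .nil))) 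
(.lf (nat_lit 579503) (.g (nat_lit 514) (.e (nat_lit 336326) (nat_lit 18) (.e (nat_lit 204837) (nat_lit 20) (.e (nat_lit 114696) (nat_lit 11) .nil))) (.g (nat_lit 0) (.e (nat_lit 374777) (nat_lit 0) .nil) .nil)))))) (.nd (nat_lit 7) (.nd (nat_lit 8) (.nd (nat_lit 9) 
(.lf (nat_lit 578671) (.g (nat_lit 1551) (.e (nat_lit 336230) (nat_lit 14) (.e (nat_lit 401432) (nat_lit 7) (.e (nat_lit 409649) (nat_lit 18) (.e (nat_lit 303140) (nat_lit 10) .nil)))) (.g (nat_lit 0) (.e (nat_lit 372206) (nat_lit 0) .nil) .nil))) 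
(.lf (nat_lit 579183) (.g (nat_lit 851) (.e (nat_lit 336322) (nat_lit 18) (.e (nat_lit 204854) (nat_lit 26) (.e (nat_lit 336325) (nat_lit 18) .nil))) (.g (nat_lit 0) (.e (nat_lit 374157) (nat_lit 0) .nil) .nil)))) (.nd (nat_lit 9) 
(.lf (nat_lit 578927) (.g (nat_lit 1245) (.e (nat_lit 336276) (nat_lit 15) (.e (nat_lit 3632) (nat_lit 227) (.e (nat_lit 778323) (nat_lit 5) (.e (nat_lit 73782) (nat_lit 32) .nil)))) (.g (nat_lit 0) (.e (nat_lit 373211) (nat_lit 0) .nil) .nil))) 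
(.lf (nat_lit 579439) (.g (nat_lit 2958) (.e (nat_lit 336324) (nat_lit 18) (.e (nat_lit 204882) (nat_lit 32) (.e (nat_lit 385068) (nat_lit 26) (.e (nat_lit 532529) (nat_lit 9) (.e (nat_lit 336326) (nat_lit 18) (.e (nat_lit 204852) (nat_lit 26) .nil)))))) (.g (nat_lit 1) (.e (nat_lit 374564) (nat_lit 0) .nil) .nil))))) (.nd (nat_lit 8) (.nd (nat_lit 9) 
(.lf (nat_lit 578799) (.g (nat_lit 341) (.e (nat_lit 336235) (nat_lit 14) (.e (nat_lit 401438) (nat_lit 9) (.e (nat_lit 426533) (nat_lit 28) .nil))) (.g (nat_lit 0) (.e (nat_lit 372773) (nat_lit 0) .nil) .nil))) 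
(.lf (nat_lit 579311) (.g (nat_lit 381) (.e (nat_lit 336324) (nat_lit 18) (.e (nat_lit 204838) (nat_lit 20) (.e (nat_lit 114698) (nat_lit 11) .nil))) (.g (nat_lit 0) (.e (nat_lit 374363) (nat_lit 0) .nil) .nil)))) (.nd (nat_lit 9) 
(.lf (nat_lit 579055) (.g (nat_lit 1948) (.e (nat_lit 336300) (nat_lit 15) (.e (nat_lit 3253) (nat_lit 197) (.e (nat_lit 532503) (nat_lit 1) (.e (nat_lit 57848) (nat_lit 252) (.e (nat_lit 57445) (nat_lit 19) .nil))))) (.g (nat_lit 0) (.e (nat_lit 373614) (nat_lit 0) .nil) .nil))) 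
(.lf (nat_lit 579567) (.g (nat_lit 2754) (.e (nat_lit 336326) (nat_lit 18) (.e (nat_lit 204854) (nat_lit 26) (.e (nat_lit 336326) (nat_lit 18) (.e (nat_lit 204854) (nat_lit 26) (.e (nat_lit 336308) (nat_lit 15) (.e (nat_lit 3234) (nat_lit 197) (.e (nat_lit 532530) (nat_lit 9) .nil))))))) (.g (nat_lit 1) (.e (nat_lit 374902) (nat_lit 0) .nil) .nil)))))))) 
(.nd (nat_lit 5) (.nd (nat_lit 6) (.nd (nat_lit 7) (.nd (nat_lit 8) (.nd (nat_lit 9) 
(.lf (nat_lit 578591) (.g (nat_lit 1097) (.e (nat_lit 336228) (nat_lit 14) (.e (nat_lit 401425) (nat_lit 2) (.e (nat_lit 196674) (nat_lit 15) (.e (nat_lit 81946) (nat_lit 20) .nil)))) (.g (nat_lit 0) (.e (nat_lit 372016) (nat_lit 0) .nil) .nil))) 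
(.lf (nat_lit 579103) (.g (nat_lit 2886) (.e (nat_lit 336316) (nat_lit 17) (.e (nat_lit 196666) (nat_lit 13) (.e (nat_lit 65610) (nat_lit 10) (.e (nat_lit 344088) (nat_lit 18) (.e (nat_lit 7697) (nat_lit 412) (.e (nat_lit 57366) (nat_lit 1) (.e (nat_lit 57847) (nat_lit 252) (.e (nat_lit 57407) (nat_lit 12) .nil)))))))) (.g (nat_lit 1) (.e (nat_lit 373775) (nat_lit 0) .nil) .nil)))) 
(.nd (nat_lit 9) 
(.lf (nat_lit 578847) (.g (nat_lit 4014) (.e (nat_lit 336239) (nat_lit 15) (.e (nat_lit 3309) (nat_lit 202) (.e (nat_lit 573485) (nat_lit 13) (.e (nat_lit 65619) (nat_lit 10) (.e (nat_lit 344129) (nat_lit 26) (.e (nat_lit 557087) (nat_lit 11) (.e (nat_lit 24636) (nat_lit 9) .nil))))))) (.g (nat_lit 1) (.e (nat_lit 372893) (nat_lit 0) .nil) .nil))) 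
(.lf (nat_lit 579359) (.g (nat_lit 456) (.e (nat_lit 336324) (nat_lit 18) (.e (nat_lit 204854) (nat_lit 26) (.e (nat_lit 336306) (nat_lit 15) .nil))) (.g (nat_lit 0) (.e (nat_lit 374450) (nat_lit 0) .nil) .nil))))) (.nd (nat_lit 8) (.nd (nat_lit 9) 
(.lf (nat_lit 578719) (.g (nat_lit 1024) (.e (nat_lit 336231) (nat_lit 14) (.e (nat_lit 401446) (nat_lit 10) (.e (nat_lit 434208) (nat_lit 18) (.e (nat_lit 6416) (nat_lit 341) .nil)))) (.g (nat_lit 0) (.e (nat_lit 372445) (nat_lit 0) .nil) .nil))) 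
(.lf (nat_lit 579231) (.g (nat_lit 2242) (.e (nat_lit 336323) (nat_lit 18) (.e (nat_lit 204882) (nat_lit 32) (.e (nat_lit 385068) (nat_lit 26) (.e (nat_lit 532534) (nat_lit 9) (.e (nat_lit 336326) (nat_lit 18) .nil))))) (.g (nat_lit 0) (.e (nat_lit 374226) (nat_lit 0) .nil) .nil)))) (.nd (nat_lit 9) 
(.lf (nat_lit 578975) (.g (nat_lit 4240) (.e (nat_lit 336306) (nat_lit 15) (.e (nat_lit 3297) (nat_lit 202) (.e (nat_lit 573481) (nat_lit 13) (.e (nat_lit 65630) (nat_lit 14) (.e (nat_lit 401425) (nat_lit 2) (.e (nat_lit 196681) (nat_lit 17) (.e (nat_lit 131107) (nat_lit 9) .nil))))))) (.g (nat_lit 1) (.e (nat_lit 373367) (nat_lit 0) .nil) .nil))) 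
(.lf (nat_lit 579487) (.g (nat_lit 537) (.e (nat_lit 336326) (nat_lit 18) (.e (nat_lit 204830) (nat_lit 18) (.e (nat_lit 57852) (nat_lit 252) .nil))) (.g (nat_lit 0) (.e (nat_lit 374697) (nat_lit 0) .nil) .nil)))))) (.nd (nat_lit 7) (.nd (nat_lit 8) (.nd (nat_lit 9) 
(.lf (nat_lit 578655) (.g (nat_lit 2366) (.e (nat_lit 336229) (nat_lit 14) (.e (nat_lit 401456) (nat_lit 13) (.e (nat_lit 483346) (nat_lit 17) (.e (nat_lit 6720) (nat_lit 361) (.e (nat_lit 172150) (nat_lit 27) .nil))))) (.g (nat_lit 0) (.e (nat_lit 372139) (nat_lit 0) .nil) .nil))) 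
(.lf (nat_lit 579167) (.g (nat_lit 2212) (.e (nat_lit 336322) (nat_lit 18) (.e (nat_lit 204829) (nat_lit 18) (.e (nat_lit 57854) (nat_lit 252) (.e (nat_lit 57409) (nat_lit 12) (.e (nat_lit 336456) (nat_lit 34) .nil))))) (.g (nat_lit 0) (.e (nat_lit 374110) (nat_lit 0) .nil) .nil)))) (.nd (nat_lit 9) 
(.lf (nat_lit 578911) (.g (nat_lit 1711) (.e (nat_lit 336271) (nat_lit 15) (.e (nat_lit 3233) (nat_lit 197) (.e (nat_lit 532501) (nat_lit 1) (.e (nat_lit 57851) (nat_lit 252) (.e (nat_lit 57406) (nat_lit 12) .nil))))) (.g (nat_lit 0) (.e (nat_lit 373192) (nat_lit 0) .nil) .nil))) 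
(.lf (nat_lit 579423) (.g (nat_lit 2463) (.e (nat_lit 336324) (nat_lit 18) (.e (nat_lit 204882) (nat_lit 32) (.e (nat_lit 385066) (nat_lit 26) (.e (nat_lit 532529) (nat_lit 9) (.e (nat_lit 336325) (nat_lit 18) .nil))))) (.g (nat_lit 0) (.e (nat_lit 374545) (nat_lit 0) .nil) .nil))))) (.nd (nat_lit 8) (.nd (nat_lit 9) 
(.lf (nat_lit 578783) (.g (nat_lit 3732) (.e (nat_lit 336234) (nat_lit 14) (.e (nat_lit 401428) (nat_lit 3) (.e (nat_lit 204869) (nat_lit 29) (.e (nat_lit 360475) (nat_lit 8) (.e (nat_lit 557065) (nat_lit 9) .nil))))) (.g (nat_lit 0) (.e (nat_lit 372724) (nat_lit 0) .nil) .nil))) 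
(.lf (nat_lit 579295) (.g (nat_lit 2133) (.e (nat_lit 336324) (nat_lit 18) (.e (nat_lit 204837) (nat_lit 20) (.e (nat_lit 122624) (nat_lit 11) (.e (nat_lit 426125) (nat_lit 2) (.e (nat_lit 196680) (nat_lit 17) (.e (nat_lit 131107) (nat_lit 9) .nil)))))) (.g (nat_lit 1) (.e (nat_lit 374341) (nat_lit 0) .nil) .nil)))) (.nd (nat_lit 9) 
(.lf (nat_lit 579039) (.g (nat_lit 616) (.e (nat_lit 336293) (nat_lit 15) (.e (nat_lit 3631) (nat_lit 227) (.e (nat_lit 778323) (nat_lit 5) .nil))) (.g (nat_lit 0) (.e (nat_lit 373595) (nat_lit 0) .nil) .nil))) 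
(.lf (nat_lit 579551) (.g (nat_lit 2115) (.e (nat_lit 336326) (nat_lit 18) (.e (nat_lit 204854) (nat_lit 26) (.e (nat_lit 336324) (nat_lit 18) (.e (nat_lit 204882) (nat_lit 32) (.e (nat_lit 385064) (nat_lit 26) .nil))))) (.g (nat_lit 0) (.e (nat_lit 374883) (nat_lit 0) .nil) .nil))))))) (.nd (nat_lit 6) (.nd (nat_lit 7) (.nd (nat_lit 8) (.nd (nat_lit 9) 
(.lf (nat_lit 578623) (.g (nat_lit 1423) (.e (nat_lit 336228) (nat_lit 14) (.e (nat_lit 401456) (nat_lit 13) (.e (nat_lit 483413) (nat_lit 27) (.e (nat_lit 401434) (nat_lit 9) .nil)))) (.g (nat_lit 0) (.e (nat_lit 372068) (nat_lit 0) .nil) .nil))) 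
(.lf (nat_lit 579135) (.g (nat_lit 1583) (.e (nat_lit 336316) (nat_lit 17) (.e (nat_lit 196668) (nat_lit 14) (.e (nat_lit 73753) (nat_lit 8) (.e (nat_lit 557101) (nat_lit 13) .nil)))) (.g (nat_lit 0) (.e (nat_lit 373821) (nat_lit 0) .nil) .nil)))) (.nd (nat_lit 9) 
(.lf (nat_lit 578879) (.g (nat_lit 2314) (.e (nat_lit 336260) (nat_lit 15) (.e (nat_lit 3307) (nat_lit 202) (.e (nat_lit 573484) (nat_lit 13) (.e (nat_lit 65617) (nat_lit 10) .nil)))) (.g (nat_lit 0) (.e (nat_lit 373112) (nat_lit 0) .nil) .nil))) 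
(.lf (nat_lit 579391) (.g (nat_lit 387) (.e (nat_lit 336324) (nat_lit 18) (.e (nat_lit 204880) (nat_lit 32) (.e (nat_lit 385066) (nat_lit 26) .nil))) (.g (nat_lit 0) (.e (nat_lit 374507) (nat_lit 0) .nil) .nil))))) (.nd (nat_lit 8) (.nd (nat_lit 9) 
(.lf (nat_lit 578751) (.g (nat_lit 1099) (.e (nat_lit 336231) (nat_lit 14) (.e (nat_lit 401458) (nat_lit 13) (.e (nat_lit 483350) (nat_lit 17) (.e (nat_lit 6097) (nat_lit 332) .nil)))) (.g (nat_lit 0) (.e (nat_lit 372567) (nat_lit 0) .nil) .nil))) 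
(.lf (nat_lit 579263) (.g (nat_lit 4504) (.e (nat_lit 336324) (nat_lit 18) (.e (nat_lit 204831) (nat_lit 18) (.e (nat_lit 57852) (nat_lit 252) (.e (nat_lit 57406) (nat_lit 12) (.e (nat_lit 336456) (nat_lit 34) (.e (nat_lit 483379) (nat_lit 23) .nil)))))) (.g (nat_lit 1) (.e (nat_lit 374277) (nat_lit 0) .nil) .nil)))) (.nd (nat_lit 9) 
(.lf (nat_lit 579007) (.g (nat_lit 1245) (.e (nat_lit 336286) (nat_lit 15) (.e (nat_lit 3632) (nat_lit 227) (.e (nat_lit 778323) (nat_lit 5) (.e (nat_lit 73782) (nat_lit 32) .nil)))) (.g (nat_lit 0) (.e (nat_lit 373525) (nat_lit 0) .nil) .nil))) 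
(.lf (nat_lit 579519) (.g (nat_lit 2765) (.e (nat_lit 336326) (nat_lit 18) (.e (nat_lit 204852) (nat_lit 26) (.e (nat_lit 336326) (nat_lit 18) (.e (nat_lit 204854) (nat_lit 26) (.e (nat_lit 336262) (nat_lit 15) (.e (nat_lit 3234) (nat_lit 197) (.e (nat_lit 532530) (nat_lit 9) .nil))))))) (.g (nat_lit 1) (.e (nat_lit 374826) (nat_lit 0) .nil) .nil)))))) 
(.nd (nat_lit 7) (.nd (nat_lit 8) (.nd (nat_lit 9) 
(.lf (nat_lit 578687) (.g (nat_lit 2703) (.e (nat_lit 336230) (nat_lit 14) (.e (nat_lit 401448) (nat_lit 10) (.e (nat_lit 434289) (nat_lit 43) (.e (nat_lit 696327) (nat_lit 5) (.e (nat_lit 3004) (nat_lit 186) (.e (nat_lit 442390) (nat_lit 11) .nil)))))) (.g (nat_lit 1) (.e (nat_lit 372339) (nat_lit 0) .nil) .nil))) 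
(.lf (nat_lit 579199) (.g (nat_lit 1449) (.e (nat_lit 336322) (nat_lit 18) (.e (nat_lit 204882) (nat_lit 32) (.e (nat_lit 385068) (nat_lit 26) (.e (nat_lit 532534) (nat_lit 9) .nil)))) (.g (nat_lit 0) (.e (nat_lit 374178) (nat_lit 0) .nil) .nil)))) (.nd (nat_lit 9) 
(.lf (nat_lit 578943) (.g (nat_lit 1787) (.e (nat_lit 336282) (nat_lit 15) (.e (nat_lit 3253) (nat_lit 197) (.e (nat_lit 532504) (nat_lit 1) (.e (nat_lit 57844) (nat_lit 252) .nil)))) (.g (nat_lit 0) (.e (nat_lit 373251) (nat_lit 0) .nil) .nil))) 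
(.lf (nat_lit 579455) (.g (nat_lit 2114) (.e (nat_lit 336325) (nat_lit 18) (.e (nat_lit 204837) (nat_lit 20) (.e (nat_lit 114698) (nat_lit 11) (.e (nat_lit 426139) (nat_lit 3) (.e (nat_lit 204861) (nat_lit 26) .nil))))) (.g (nat_lit 0) (.e (nat_lit 374600) (nat_lit 0) .nil) .nil))))) (.nd (nat_lit 8) (.nd (nat_lit 9) 
(.lf (nat_lit 578815) (.g (nat_lit 4029) (.e (nat_lit 336235) (nat_lit 14) (.e (nat_lit 401457) (nat_lit 13) (.e (nat_lit 483412) (nat_lit 27) (.e (nat_lit 401437) (nat_lit 9) (.e (nat_lit 426530) (nat_lit 27) .nil))))) (.g (nat_lit 1) (.e (nat_lit 372808) (nat_lit 0) .nil) .nil))) 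
(.lf (nat_lit 579327) (.g (nat_lit 350) (.e (nat_lit 336324) (nat_lit 18) (.e (nat_lit 204838) (nat_lit 20) (.e (nat_lit 122624) (nat_lit 15) .nil))) (.g (nat_lit 0) (.e (nat_lit 374392) (nat_lit 0) .nil) .nil)))) (.nd (nat_lit 9) 
(.lf (nat_lit 579071) (.g (nat_lit 766) (.e (nat_lit 336310) (nat_lit 16) (.e (nat_lit 164179) (nat_lit 154) (.e (nat_lit 57378) (nat_lit 3) .nil))) (.g (nat_lit 0) (.e (nat_lit 373683) (nat_lit 0) .nil) .nil))) 
(.lf (nat_lit 579583) (.g (nat_lit 1563) (.e (nat_lit 336326) (nat_lit 18) (.e (nat_lit 204863) (nat_lit 27) (.e (nat_lit 344117) (nat_lit 21) (.e (nat_lit 516122) (nat_lit 2) .nil)))) (.g (nat_lit 0) (.e (nat_lit 374943) (nat_lit 0) .nil) .nil)))))))))))))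

noncomputable def tv5626 : DT := (.nd (nat_lit 0) (.nd (nat_lit 1) (.nd (nat_lit 2) (.nd (nat_lit 3) (.nd (nat_lit 4) (.nd (nat_lit 5) (.nd (nat_lit 6) (.nd (nat_lit 7) (.nd (nat_lit 8) (.nd (nat_lit 9) 
(.lf (nat_lit 579584) (.g (nat_lit 1707) (.e (nat_lit 336326) (nat_lit 18) (.e (nat_lit 204863) (nat_lit 27) (.e (nat_lit 344117) (nat_lit 21) (.e (nat_lit 516123) (nat_lit 2) .nil)))) (.g (nat_lit 0) (.e (nat_lit 374944) (nat_lit 0) .nil) .nil))) 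
(.lf (nat_lit 580096) (.g (nat_lit 1733) (.e (nat_lit 336387) (nat_lit 27) (.e (nat_lit 426199) (nat_lit 9) (.e (nat_lit 426131) (nat_lit 3) (.e (nat_lit 204830) (nat_lit 18) (.e (nat_lit 57663) (nat_lit 152) (.e (nat_lit 2616) (nat_lit 164) (.e (nat_lit 172150) (nat_lit 27) .nil))))))) (.g (nat_lit 1) (.e (nat_lit 376814) (nat_lit 0) .nil) .nil)))) (.nd (nat_lit 9) 
(.lf (nat_lit 579840) (.g (nat_lit 1557) (.e (nat_lit 336385) (nat_lit 27) (.e (nat_lit 426100) (nat_lit 1) (.e (nat_lit 164398) (nat_lit 256) (.e (nat_lit 57378) (nat_lit 3) .nil)))) (.g (nat_lit 0) (.e (nat_lit 376451) (nat_lit 0) .nil) .nil))) 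
(.lf (nat_lit 580352) (.g (nat_lit 1951) (.e (nat_lit 336405) (nat_lit 27) (.e (nat_lit 426188) (nat_lit 9) (.e (nat_lit 426436) (nat_lit 18) (.e (nat_lit 98334) (nat_lit 18) (.e (nat_lit 164330) (nat_lit 230) (.e (nat_lit 163905) (nat_lit 12) (.e (nat_lit 426487) (nat_lit 27) .nil))))))) (.g (nat_lit 1) (.e (nat_lit 377266) (nat_lit 0) .nil) .nil))))) (.nd (nat_lit 8) (.nd (nat_lit 9) 
(.lf (nat_lit 579712) (.g (nat_lit 1735) (.e (nat_lit 343808) (nat_lit 18) (.e (nat_lit 204882) (nat_lit 32) (.e (nat_lit 385068) (nat_lit 26) (.e (nat_lit 532534) (nat_lit 9) (.e (nat_lit 336326) (nat_lit 18) .nil))))) (.g (nat_lit 0) (.e (nat_lit 375141) (nat_lit 0) .nil) .nil))) 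
(.lf (nat_lit 580224) (.g (nat_lit 2154) (.e (nat_lit 336388) (nat_lit 27) (.e (nat_lit 426316) (nat_lit 12) (.e (nat_lit 475179) (nat_lit 24) (.e (nat_lit 516119) (nat_lit 1) (.e (nat_lit 164325) (nat_lit 230) .nil))))) (.g (nat_lit 0) (.e (nat_lit 377001) (nat_lit 0) .nil) .nil)))) (.nd (nat_lit 9) 
(.lf (nat_lit 579968) (.g (nat_lit 3416) (.e (nat_lit 336389) (nat_lit 27) (.e (nat_lit 426098) (nat_lit 1) (.e (nat_lit 164327) (nat_lit 230) (.e (nat_lit 163873) (nat_lit 3) (.e (nat_lit 204813) (nat_lit 9) (.e (nat_lit 426198) (nat_lit 9) (.e (nat_lit 426509) (nat_lit 27) .nil))))))) (.g (nat_lit 1) (.e (nat_lit 376604) (nat_lit 0) .nil) .nil))) 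
(.lf (nat_lit 580480) (.g (nat_lit 1878) (.e (nat_lit 336407) (nat_lit 27) (.e (nat_lit 426011) (nat_lit 0) (.e (nat_lit 7593) (nat_lit 407) (.e (nat_lit 73775) (nat_lit 26) .nil)))) (.g (nat_lit 0) (.e (nat_lit 377437) (nat_lit 0) .nil) .nil)))))) (.nd (nat_lit 7) (.nd (nat_lit 8) (.nd (nat_lit 9) 
(.lf (nat_lit 579648) (.g (nat_lit 3628) (.e (nat_lit 336326) (nat_lit 18) (.e (nat_lit 204880) (nat_lit 32) (.e (nat_lit 385066) (nat_lit 26) (.e (nat_lit 532530) (nat_lit 9) (.e (nat_lit 336326) (nat_lit 18) (.e (nat_lit 204854) (nat_lit 26) .nil)))))) (.g (nat_lit 1) (.e (nat_lit 375047) (nat_lit 0) .nil) .nil))) 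
(.lf (nat_lit 580160) (.g (nat_lit 2247) (.e (nat_lit 336388) (nat_lit 27) (.e (nat_lit 426107) (nat_lit 1) (.e (nat_lit 164327) (nat_lit 230) (.e (nat_lit 163868) (nat_lit 2) (.e (nat_lit 196654) (nat_lit 11) (.e (nat_lit 16436) (nat_lit 9) (.e (nat_lit 426480) (nat_lit 27) .nil))))))) (.g (nat_lit 1) (.e (nat_lit 376929) (nat_lit 0) .nil) .nil)))) (.nd (nat_lit 9) 
(.lf (nat_lit 579904) (.g (nat_lit 2350) (.e (nat_lit 336385) (nat_lit 27) (.e (nat_lit 426316) (nat_lit 12) (.e (nat_lit 475179) (nat_lit 24) (.e (nat_lit 516115) (nat_lit 1) (.e (nat_lit 164325) (nat_lit 230) (.e (nat_lit 163907) (nat_lit 12) (.e (nat_lit 426481) (nat_lit 27) .nil))))))) (.g (nat_lit 1) (.e (nat_lit 376537) (nat_lit 0) .nil) .nil))) 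
(.lf (nat_lit 580416) (.g (nat_lit 2177) (.e (nat_lit 336408) (nat_lit 27) (.e (nat_lit 426188) (nat_lit 9) (.e (nat_lit 426436) (nat_lit 18) (.e (nat_lit 98335) (nat_lit 18) (.e (nat_lit 164330) (nat_lit 230) (.e (nat_lit 163915) (nat_lit 12) (.e (nat_lit 426500) (nat_lit 27) .nil))))))) (.g (nat_lit 1) (.e (nat_lit 377364) (nat_lit 0) .nil) .nil))))) (.nd (nat_lit 8) (.nd (nat_lit 9) 
(.lf (nat_lit 579776) (.g (nat_lit 2171) (.e (nat_lit 336370) (nat_lit 27) (.e (nat_lit 426317) (nat_lit 12) (.e (nat_lit 475179) (nat_lit 24) (.e (nat_lit 516120) (nat_lit 1) (.e (nat_lit 164332) (nat_lit 230) .nil))))) (.g (nat_lit 0) (.e (nat_lit 376341) (nat_lit 0) .nil) .nil))) 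
(.lf (nat_lit 580288) (.g (nat_lit 1408) (.e (nat_lit 336395) (nat_lit 27) (.e (nat_lit 426338) (nat_lit 14) (.e (nat_lit 491571) (nat_lit 13) (.e (nat_lit 393242) (nat_lit 17) .nil)))) (.g (nat_lit 0) (.e (nat_lit 377127) (nat_lit 0) .nil) .nil)))) (.nd (nat_lit 9) 
(.lf (nat_lit 580032) (.g (nat_lit 1225) (.e (nat_lit 336387) (nat_lit 27) (.e (nat_lit 426107) (nat_lit 1) (.e (nat_lit 164322) (nat_lit 230) (.e (nat_lit 163873) (nat_lit 3) .nil)))) (.g (nat_lit 0) (.e (nat_lit 376689) (nat_lit 0) .nil) .nil))) 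
(.lf (nat_lit 580544) (.g (nat_lit 2523) (.e (nat_lit 336407) (nat_lit 27) (.e (nat_lit 426308) (nat_lit 12) (.e (nat_lit 475177) (nat_lit 24) (.e (nat_lit 516117) (nat_lit 1) (.e (nat_lit 164330) (nat_lit 230) (.e (nat_lit 163905) (nat_lit 12) (.e (nat_lit 426489) (nat_lit 27) .nil))))))) (.g (nat_lit 1) (.e (nat_lit 377505) (nat_lit 0) .nil) .nil))))))) 
(.nd (nat_lit 6) (.nd (nat_lit 7) (.nd (nat_lit 8) (.nd (nat_lit 9) 
(.lf (nat_lit 579616) (.g (nat_lit 1449) (.e (nat_lit 336326) (nat_lit 18) (.e (nat_lit 204863) (nat_lit 27) (.e (nat_lit 344133) (nat_lit 26) (.e (nat_lit 557098) (nat_lit 13) .nil)))) (.g (nat_lit 0) (.e (nat_lit 374990) (nat_lit 0) .nil) .nil))) 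
(.lf (nat_lit 580128) (.g (nat_lit 2677) (.e (nat_lit 336387) (nat_lit 27) (.e (nat_lit 426316) (nat_lit 12) (.e (nat_lit 475185) (nat_lit 29) (.e (nat_lit 557091) (nat_lit 12) (.e (nat_lit 164031) (nat_lit 53) (.e (nat_lit 761902) (nat_lit 16) (.e (nat_lit 172150) (nat_lit 27) .nil))))))) (.g (nat_lit 1) (.e (nat_lit 376891) (nat_lit 0) .nil) .nil)))) (.nd (nat_lit 9) 
(.lf (nat_lit 579872) (.g (nat_lit 1282) (.e (nat_lit 336385) (nat_lit 27) (.e (nat_lit 426108) (nat_lit 1) (.e (nat_lit 164402) (nat_lit 256) (.e (nat_lit 57371) (nat_lit 2) .nil)))) (.g (nat_lit 0) (.e (nat_lit 376494) (nat_lit 0) .nil) .nil))) 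
(.lf (nat_lit 580384) (.g (nat_lit 1791) (.e (nat_lit 336406) (nat_lit 27) (.e (nat_lit 426107) (nat_lit 1) (.e (nat_lit 164327) (nat_lit 230) (.e (nat_lit 163868) (nat_lit 2) .nil)))) (.g (nat_lit 0) (.e (nat_lit 377313) (nat_lit 0) .nil) .nil))))) (.nd (nat_lit 8) (.nd (nat_lit 9) 
(.lf (nat_lit 579744) (.g (nat_lit 2192) (.e (nat_lit 336367) (nat_lit 27) (.e (nat_lit 426320) (nat_lit 12) (.e (nat_lit 475179) (nat_lit 24) (.e (nat_lit 516117) (nat_lit 1) (.e (nat_lit 164330) (nat_lit 230) .nil))))) (.g (nat_lit 0) (.e (nat_lit 376285) (nat_lit 0) .nil) .nil))) 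
(.lf (nat_lit 580256) (.g (nat_lit 1174) (.e (nat_lit 336390) (nat_lit 27) (.e (nat_lit 426344) (nat_lit 14) (.e (nat_lit 491546) (nat_lit 9) (.e (nat_lit 336412) (nat_lit 27) .nil)))) (.g (nat_lit 0) (.e (nat_lit 377075) (nat_lit 0) .nil) .nil)))) (.nd (nat_lit 9) 
(.lf (nat_lit 580000) (.g (nat_lit 3617) (.e (nat_lit 336389) (nat_lit 27) (.e (nat_lit 426308) (nat_lit 12) (.e (nat_lit 475178) (nat_lit 24) (.e (nat_lit 516120) (nat_lit 1) (.e (nat_lit 164329) (nat_lit 230) (.e (nat_lit 163902) (nat_lit 12) (.e (nat_lit 426481) (nat_lit 27) .nil))))))) (.g (nat_lit 1) (.e (nat_lit 376636) (nat_lit 0) .nil) .nil))) 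
(.lf (nat_lit 580512) (.g (nat_lit 2866) (.e (nat_lit 336407) (nat_lit 27) (.e (nat_lit 426107) (nat_lit 1) (.e (nat_lit 164327) (nat_lit 230) (.e (nat_lit 163868) (nat_lit 2) (.e (nat_lit 196656) (nat_lit 11) .nil))))) (.g (nat_lit 0) (.e (nat_lit 377471) (nat_lit 0) .nil) .nil)))))) (.nd (nat_lit 7) (.nd (nat_lit 8) (.nd (nat_lit 9) 
(.lf (nat_lit 579680) (.g (nat_lit 1063) (.e (nat_lit 343808) (nat_lit 18) (.e (nat_lit 204829) (nat_lit 18) (.e (nat_lit 57854) (nat_lit 252) (.e (nat_lit 57446) (nat_lit 19) .nil)))) (.g (nat_lit 0) (.e (nat_lit 375088) (nat_lit 0) .nil) .nil))) 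
(.lf (nat_lit 580192) (.g (nat_lit 3264) (.e (nat_lit 336388) (nat_lit 27) (.e (nat_lit 426187) (nat_lit 9) (.e (nat_lit 426436) (nat_lit 18) (.e (nat_lit 98335) (nat_lit 18) (.e (nat_lit 164327) (nat_lit 230) (.e (nat_lit 163903) (nat_lit 12) (.e (nat_lit 426482) (nat_lit 27) .nil))))))) (.g (nat_lit 1) (.e (nat_lit 376966) (nat_lit 0) .nil) .nil)))) (.nd (nat_lit 9) 
(.lf (nat_lit 579936) (.g (nat_lit 3187) (.e (nat_lit 336386) (nat_lit 27) (.e (nat_lit 426189) (nat_lit 9) (.e (nat_lit 426436) (nat_lit 18) (.e (nat_lit 98335) (nat_lit 18) (.e (nat_lit 164327) (nat_lit 230) (.e (nat_lit 163903) (nat_lit 12) (.e (nat_lit 426481) (nat_lit 27) .nil))))))) (.g (nat_lit 1) (.e (nat_lit 376570) (nat_lit 0) .nil) .nil))) 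
(.lf (nat_lit 580448) (.g (nat_lit 1700) (.e (nat_lit 336409) (nat_lit 27) (.e (nat_lit 426100) (nat_lit 1) (.e (nat_lit 164398) (nat_lit 256) (.e (nat_lit 57378) (nat_lit 3) .nil)))) (.g (nat_lit 0) (.e (nat_lit 377405) (nat_lit 0) .nil) .nil))))) (.nd (nat_lit 8) (.nd (nat_lit 9) 
(.lf (nat_lit 579808) (.g (nat_lit 2057) (.e (nat_lit 336375) (nat_lit 27) (.e (nat_lit 426525) (nat_lit 27) (.e (nat_lit 335986) (nat_lit 1) (.e (nat_lit 57847) (nat_lit 252) (.e (nat_lit 57372) (nat_lit 2) .nil))))) (.g (nat_lit 0) (.e (nat_lit 376401) (nat_lit 0) .nil) .nil))) 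
(.lf (nat_lit 580320) (.g (nat_lit 2288) (.e (nat_lit 336417) (nat_lit 27) (.e (nat_lit 426100) (nat_lit 1) (.e (nat_lit 164332) (nat_lit 230) (.e (nat_lit 163869) (nat_lit 2) (.e (nat_lit 196656) (nat_lit 11) .nil))))) (.g (nat_lit 0) (.e (nat_lit 377177) (nat_lit 0) .nil) .nil)))) (.nd (nat_lit 9) 
(.lf (nat_lit 580064) (.g (nat_lit 2659) (.e (nat_lit 336387) (nat_lit 27) (.e (nat_lit 426107) (nat_lit 1) (.e (nat_lit 164327) (nat_lit 230) (.e (nat_lit 163868) (nat_lit 2) (.e (nat_lit 196656) (nat_lit 11) (.e (nat_lit 16439) (nat_lit 9) (.e (nat_lit 426513) (nat_lit 27) .nil))))))) (.g (nat_lit 1) (.e (nat_lit 376742) (nat_lit 0) .nil) .nil))) 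
(.lf (nat_lit 580576) (.g (nat_lit 2962) (.e (nat_lit 336412) (nat_lit 27) (.e (nat_lit 426187) (nat_lit 9) (.e (nat_lit 426436) (nat_lit 18) (.e (nat_lit 98335) (nat_lit 18) (.e (nat_lit 164332) (nat_lit 230) (.e (nat_lit 163905) (nat_lit 12) (.e (nat_lit 426482) (nat_lit 27) .nil))))))) (.g (nat_lit 1) (.e (nat_lit 377542) (nat_lit 0) .nil) .nil)))))))) 
(.nd (nat_lit 5) (.nd (nat_lit 6) (.nd (nat_lit 7) (.nd (nat_lit 8) (.nd (nat_lit 9) 
(.lf (nat_lit 579600) (.g (nat_lit 2598) (.e (nat_lit 336326) (nat_lit 18) (.e (nat_lit 204863) (nat_lit 27) (.e (nat_lit 344130) (nat_lit 26) (.e (nat_lit 557103) (nat_lit 14) (.e (nat_lit 180241) (nat_lit 4) (.e (nat_lit 532224) (nat_lit 26) .nil)))))) (.g (nat_lit 1) (.e (nat_lit 374968) (nat_lit 0) .nil) .nil))) 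
(.lf (nat_lit 580112) (.g (nat_lit 1353) (.e (nat_lit 336387) (nat_lit 27) (.e (nat_lit 426316) (nat_lit 12) (.e (nat_lit 475177) (nat_lit 24) (.e (nat_lit 516117) (nat_lit 1) .nil)))) (.g (nat_lit 0) (.e (nat_lit 376861) (nat_lit 0) .nil) .nil)))) (.nd (nat_lit 9) 
(.lf (nat_lit 579856) (.g (nat_lit 1755) (.e (nat_lit 336385) (nat_lit 27) (.e (nat_lit 426107) (nat_lit 1) (.e (nat_lit 164327) (nat_lit 230) (.e (nat_lit 163873) (nat_lit 3) .nil)))) (.g (nat_lit 0) (.e (nat_lit 376471) (nat_lit 0) .nil) .nil))) 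
(.lf (nat_lit 580368) (.g (nat_lit 1879) (.e (nat_lit 336406) (nat_lit 27) (.e (nat_lit 426011) (nat_lit 0) (.e (nat_lit 7591) (nat_lit 407) (.e (nat_lit 73775) (nat_lit 26) .nil)))) (.g (nat_lit 0) (.e (nat_lit 377296) (nat_lit 0) .nil) .nil))))) (.nd (nat_lit 8) (.nd (nat_lit 9) 
(.lf (nat_lit 579728) (.g (nat_lit 611) (.e (nat_lit 336360) (nat_lit 25) (.e (nat_lit 409648) (nat_lit 18) (.e (nat_lit 303137) (nat_lit 10) .nil))) (.g (nat_lit 0) (.e (nat_lit 376249) (nat_lit 0) .nil) .nil))) 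
(.lf (nat_lit 580240) (.g (nat_lit 2235) (.e (nat_lit 336390) (nat_lit 27) (.e (nat_lit 426098) (nat_lit 1) (.e (nat_lit 164327) (nat_lit 230) (.e (nat_lit 163875) (nat_lit 3) (.e (nat_lit 204812) (nat_lit 9) .nil))))) (.g (nat_lit 0) (.e (nat_lit 377026) (nat_lit 0) .nil) .nil)))) (.nd (nat_lit 9) 
(.lf (nat_lit 579984) (.g (nat_lit 2090) (.e (nat_lit 336389) (nat_lit 27) (.e (nat_lit 426108) (nat_lit 1) (.e (nat_lit 164330) (nat_lit 230) (.e (nat_lit 163874) (nat_lit 3) .nil)))) (.g (nat_lit 0) (.e (nat_lit 376620) (nat_lit 0) .nil) .nil))) 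
(.lf (nat_lit 580496) (.g (nat_lit 2560) (.e (nat_lit 336407) (nat_lit 27) (.e (nat_lit 426098) (nat_lit 1) (.e (nat_lit 164327) (nat_lit 230) (.e (nat_lit 163868) (nat_lit 2) (.e (nat_lit 196656) (nat_lit 11) (.e (nat_lit 16432) (nat_lit 9) (.e (nat_lit 426489) (nat_lit 27) .nil))))))) (.g (nat_lit 1) (.e (nat_lit 377454) (nat_lit 0) .nil) .nil)))))) 
(.nd (nat_lit 7) (.nd (nat_lit 8) (.nd (nat_lit 9) 
(.lf (nat_lit 579664) (.g (nat_lit 1277) (.e (nat_lit 336326) (nat_lit 18) (.e (nat_lit 204882) (nat_lit 32) (.e (nat_lit 385066) (nat_lit 26) (.e (nat_lit 532533) (nat_lit 9) .nil)))) (.g (nat_lit 0) (.e (nat_lit 375071) (nat_lit 0) .nil) .nil))) 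
(.lf (nat_lit 580176) (.g (nat_lit 4154) (.e (nat_lit 336388) (nat_lit 27) (.e (nat_lit 426108) (nat_lit 1) (.e (nat_lit 164330) (nat_lit 230) (.e (nat_lit 163869) (nat_lit 2) (.e (nat_lit 196656) (nat_lit 11) (.e (nat_lit 16438) (nat_lit 9) (.e (nat_lit 426482) (nat_lit 27) .nil))))))) (.g (nat_lit 1) (.e (nat_lit 376949) (nat_lit 0) .nil) .nil)))) (.nd (nat_lit 9) 
(.lf (nat_lit 579920) (.g (nat_lit 2289) (.e (nat_lit 336386) (nat_lit 27) (.e (nat_lit 426100) (nat_lit 1) (.e (nat_lit 164332) (nat_lit 230) (.e (nat_lit 163869) (nat_lit 2) (.e (nat_lit 196656) (nat_lit 11) .nil))))) (.g (nat_lit 0) (.e (nat_lit 376554) (nat_lit 0) .nil) .nil))) 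
(.lf (nat_lit 580432) (.g (nat_lit 759) (.e (nat_lit 336408) (nat_lit 27) (.e (nat_lit 426306) (nat_lit 12) (.e (nat_lit 475210) (nat_lit 41) .nil))) (.g (nat_lit 0) (.e (nat_lit 377387) (nat_lit 0) .nil) .nil))))) (.nd (nat_lit 8) (.nd (nat_lit 9) 
(.lf (nat_lit 579792) (.g (nat_lit 2806) (.e (nat_lit 336369) (nat_lit 27) (.e (nat_lit 426109) (nat_lit 1) (.e (nat_lit 164327) (nat_lit 230) (.e (nat_lit 163871) (nat_lit 2) (.e (nat_lit 196654) (nat_lit 11) (.e (nat_lit 16436) (nat_lit 9) (.e (nat_lit 426484) (nat_lit 27) .nil))))))) (.g (nat_lit 1) (.e (nat_lit 376366) (nat_lit 0) .nil) .nil))) 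
(.lf (nat_lit 580304) (.g (nat_lit 2333) (.e (nat_lit 336395) (nat_lit 27) (.e (nat_lit 426340) (nat_lit 14) (.e (nat_lit 491571) (nat_lit 13) (.e (nat_lit 393242) (nat_lit 17) (.e (nat_lit 7554) (nat_lit 402) (.e (nat_lit 1428) (nat_lit 108) .nil)))))) (.g (nat_lit 1) (.e (nat_lit 377144) (nat_lit 0) .nil) .nil)))) (.nd (nat_lit 9) 
(.lf (nat_lit 580048) (.g (nat_lit 687) (.e (nat_lit 336387) (nat_lit 27) (.e (nat_lit 426107) (nat_lit 1) (.e (nat_lit 164326) (nat_lit 230) (.e (nat_lit 163868) (nat_lit 2) .nil)))) (.g (nat_lit 0) (.e (nat_lit 376709) (nat_lit 0) .nil) .nil))) 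
(.lf (nat_lit 580560) (.g (nat_lit 1641) (.e (nat_lit 336412) (nat_lit 27) (.e (nat_lit 426098) (nat_lit 1) (.e (nat_lit 164325) (nat_lit 230) (.e (nat_lit 163868) (nat_lit 2) .nil)))) (.g (nat_lit 0) (.e (nat_lit 377523) (nat_lit 0) .nil) .nil))))))) (.nd (nat_lit 6) (.nd (nat_lit 7) (.nd (nat_lit 8) (.nd (nat_lit 9) 
(.lf (nat_lit 579632) (.g (nat_lit 679) (.e (nat_lit 336326) (nat_lit 18) (.e (nat_lit 204868) (nat_lit 29) (.e (nat_lit 360449) (nat_lit 0) .nil))) (.g (nat_lit 0) (.e (nat_lit 375011) (nat_lit 0) .nil) .nil))) 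
(.lf (nat_lit 580144) (.g (nat_lit 2051) (.e (nat_lit 336388) (nat_lit 27) (.e (nat_lit 426100) (nat_lit 1) (.e (nat_lit 164332) (nat_lit 230) (.e (nat_lit 163869) (nat_lit 2) (.e (nat_lit 196656) (nat_lit 11) .nil))))) (.g (nat_lit 0) (.e (nat_lit 376913) (nat_lit 0) .nil) .nil)))) (.nd (nat_lit 9) 
(.lf (nat_lit 579888) (.g (nat_lit 2239) (.e (nat_lit 336385) (nat_lit 27) (.e (nat_lit 426200) (nat_lit 9) (.e (nat_lit 426131) (nat_lit 3) (.e (nat_lit 204830) (nat_lit 18) (.e (nat_lit 57692) (nat_lit 156) .nil))))) (.g (nat_lit 0) (.e (nat_lit 376519) (nat_lit 0) .nil) .nil))) 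
(.lf (nat_lit 580400) (.g (nat_lit 1592) (.e (nat_lit 336406) (nat_lit 27) (.e (nat_lit 426344) (nat_lit 14) (.e (nat_lit 491560) (nat_lit 10) (.e (nat_lit 344179) (nat_lit 44) .nil)))) (.g (nat_lit 0) (.e (nat_lit 377330) (nat_lit 0) .nil) .nil))))) (.nd (nat_lit 8) (.nd (nat_lit 9) 
(.lf (nat_lit 579760) (.g (nat_lit 1260) (.e (nat_lit 336367) (nat_lit 27) (.e (nat_lit 426546) (nat_lit 30) (.e (nat_lit 360466) (nat_lit 3) (.e (nat_lit 516120) (nat_lit 1) (.e (nat_lit 164184) (nat_lit 155) (.e (nat_lit 122904) (nat_lit 12) .nil)))))) (.g (nat_lit 1) (.e (nat_lit 376315) (nat_lit 0) .nil) .nil))) 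
(.lf (nat_lit 580272) (.g (nat_lit 4458) (.e (nat_lit 336398) (nat_lit 27) (.e (nat_lit 426290) (nat_lit 10) (.e (nat_lit 434231) (nat_lit 23) (.e (nat_lit 532579) (nat_lit 26) (.e (nat_lit 426100) (nat_lit 1) (.e (nat_lit 164399) (nat_lit 256) (.e (nat_lit 57407) (nat_lit 12) .nil))))))) (.g (nat_lit 1) (.e (nat_lit 377098) (nat_lit 0) .nil) .nil)))) (.nd (nat_lit 9) 
(.lf (nat_lit 580016) (.g (nat_lit 3130) (.e (nat_lit 336389) (nat_lit 27) (.e (nat_lit 426343) (nat_lit 14) (.e (nat_lit 491570) (nat_lit 13) (.e (nat_lit 393299) (nat_lit 27) (.e (nat_lit 491552) (nat_lit 9) .nil))))) (.g (nat_lit 1) (.e (nat_lit 376652) (nat_lit 0) .nil) .nil))) 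
(.lf (nat_lit 580528) (.g (nat_lit 2688) (.e (nat_lit 336407) (nat_lit 27) (.e (nat_lit 426188) (nat_lit 9) (.e (nat_lit 426436) (nat_lit 18) (.e (nat_lit 98335) (nat_lit 18) (.e (nat_lit 164330) (nat_lit 230) (.e (nat_lit 163905) (nat_lit 12) (.e (nat_lit 426487) (nat_lit 27) .nil))))))) (.g (nat_lit 1) (.e (nat_lit 377487) (nat_lit 0) .nil) .nil)))))) 
(.nd (nat_lit 7) (.nd (nat_lit 8) (.nd (nat_lit 9) 
(.lf (nat_lit 579696) (.g (nat_lit 1680) (.e (nat_lit 343808) (nat_lit 18) (.e (nat_lit 204862) (nat_lit 27) (.e (nat_lit 344130) (nat_lit 26) (.e (nat_lit 557104) (nat_lit 14) (.e (nat_lit 188160) (nat_lit 3) .nil))))) (.g (nat_lit 0) (.e (nat_lit 375118) (nat_lit 0) .nil) .nil))) 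
(.lf (nat_lit 580208) (.g (nat_lit 1410) (.e (nat_lit 336388) (nat_lit 27) (.e (nat_lit 426306) (nat_lit 12) (.e (nat_lit 475177) (nat_lit 24) (.e (nat_lit 516117) (nat_lit 1) .nil)))) (.g (nat_lit 0) (.e (nat_lit 376984) (nat_lit 0) .nil) .nil)))) (.nd (nat_lit 9) 
(.lf (nat_lit 579952) (.g (nat_lit 2490) (.e (nat_lit 336389) (nat_lit 27) (.e (nat_lit 426098) (nat_lit 1) (.e (nat_lit 164325) (nat_lit 230) (.e (nat_lit 163866) (nat_lit 2) (.e (nat_lit 196654) (nat_lit 11) .nil))))) (.g (nat_lit 0) (.e (nat_lit 376587) (nat_lit 0) .nil) .nil))) 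
(.lf (nat_lit 580464) (.g (nat_lit 2182) (.e (nat_lit 336409) (nat_lit 27) (.e (nat_lit 426200) (nat_lit 9) (.e (nat_lit 426131) (nat_lit 3) (.e (nat_lit 204829) (nat_lit 18) (.e (nat_lit 57692) (nat_lit 156) (.e (nat_lit 163905) (nat_lit 12) (.e (nat_lit 426487) (nat_lit 27) .nil))))))) (.g (nat_lit 1) (.e (nat_lit 377421) (nat_lit 0) .nil) .nil))))) (.nd (nat_lit 8) (.nd (nat_lit 9) 
(.lf (nat_lit 579824) (.g (nat_lit 2018) (.e (nat_lit 336384) (nat_lit 27) (.e (nat_lit 426098) (nat_lit 1) (.e (nat_lit 164327) (nat_lit 230) (.e (nat_lit 163868) (nat_lit 2) (.e (nat_lit 196654) (nat_lit 11) .nil))))) (.g (nat_lit 0) (.e (nat_lit 376427) (nat_lit 0) .nil) .nil))) 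
(.lf (nat_lit 580336) (.g (nat_lit 2569) (.e (nat_lit 336400) (nat_lit 27) (.e (nat_lit 426343) (nat_lit 14) (.e (nat_lit 491560) (nat_lit 10) (.e (nat_lit 344179) (nat_lit 44) (.e (nat_lit 778465) (nat_lit 11) .nil))))) (.g (nat_lit 0) (.e (nat_lit 377230) (nat_lit 0) .nil) .nil)))) (.nd (nat_lit 9) 
(.lf (nat_lit 580080) (.g (nat_lit 1078) (.e (nat_lit 336387) (nat_lit 27) (.e (nat_lit 426108) (nat_lit 1) (.e (nat_lit 164332) (nat_lit 230) (.e (nat_lit 163867) (nat_lit 2) .nil)))) (.g (nat_lit 0) (.e (nat_lit 376787) (nat_lit 0) .nil) .nil))) 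
(.lf (nat_lit 580592) (.g (nat_lit 2773) (.e (nat_lit 336412) (nat_lit 27) (.e (nat_lit 426343) (nat_lit 14) (.e (nat_lit 491560) (nat_lit 10) (.e (nat_lit 344177) (nat_lit 43) (.e (nat_lit 770071) (nat_lit 8) .nil))))) (.g (nat_lit 0) (.e (nat_lit 377566) (nat_lit 0) .nil) .nil))))))))) (.nd (nat_lit 4) (.nd (nat_lit 5) (.nd (nat_lit 6) (.nd (nat_lit 7) (.nd (nat_lit 8) (.nd (nat_lit 9) 
(.lf (nat_lit 579592) (.g (nat_lit 2300) (.e (nat_lit 336326) (nat_lit 18) (.e (nat_lit 204863) (nat_lit 27) (.e (nat_lit 344129) (nat_lit 26) (.e (nat_lit 557097) (nat_lit 13) (.e (nat_lit 172136) (nat_lit 15) .nil))))) (.g (nat_lit 0) (.e (nat_lit 374960) (nat_lit 0) .nil) .nil))) 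
(.lf (nat_lit 580104) (.g (nat_lit 2014) (.e (nat_lit 336387) (nat_lit 27) (.e (nat_lit 426200) (nat_lit 9) (.e (nat_lit 426131) (nat_lit 3) (.e (nat_lit 204831) (nat_lit 18) (.e (nat_lit 57665) (nat_lit 152) .nil))))) (.g (nat_lit 0) (.e (nat_lit 376835) (nat_lit 0) .nil) .nil)))) (.nd (nat_lit 9) 
(.lf (nat_lit 579848) (.g (nat_lit 1562) (.e (nat_lit 336385) (nat_lit 27) (.e (nat_lit 426107) (nat_lit 1) (.e (nat_lit 164326) (nat_lit 230) (.e (nat_lit 163868) (nat_lit 2) (.e (nat_lit 196655) (nat_lit 11) .nil))))) (.g (nat_lit 0) (.e (nat_lit 376460) (nat_lit 0) .nil) .nil))) 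
(.lf (nat_lit 580360) (.g (nat_lit 1778) (.e (nat_lit 336405) (nat_lit 27) (.e (nat_lit 426200) (nat_lit 9) (.e (nat_lit 426131) (nat_lit 3) (.e (nat_lit 204831) (nat_lit 18) (.e (nat_lit 57692) (nat_lit 156) .nil))))) (.g (nat_lit 0) (.e (nat_lit 377284) (nat_lit 0) .nil) .nil))))) (.nd (nat_lit 8) (.nd (nat_lit 9) 
(.lf (nat_lit 579720) (.g (nat_lit 1259) (.e (nat_lit 336337) (nat_lit 20) (.e (nat_lit 229120) (nat_lit 2) (.e (nat_lit 90160) (nat_lit 11) (.e (nat_lit 24657) (nat_lit 13) (.e (nat_lit 401152) (nat_lit 9) .nil))))) (.g (nat_lit 1) (.e (nat_lit 376020) (nat_lit 0) .nil) .nil))) 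
(.lf (nat_lit 580232) (.g (nat_lit 3695) (.e (nat_lit 336390) (nat_lit 27) (.e (nat_lit 426011) (nat_lit 0) (.e (nat_lit 7589) (nat_lit 406) (.e (nat_lit 65653) (nat_lit 27) (.e (nat_lit 426344) (nat_lit 14) (.e (nat_lit 491556) (nat_lit 9) .nil)))))) (.g (nat_lit 1) (.e (nat_lit 377013) (nat_lit 0) .nil) .nil)))) (.nd (nat_lit 9) 
(.lf (nat_lit 579976) (.g (nat_lit 2098) (.e (nat_lit 336389) (nat_lit 27) (.e (nat_lit 426107) (nat_lit 1) (.e (nat_lit 164325) (nat_lit 230) (.e (nat_lit 163873) (nat_lit 3) .nil)))) (.g (nat_lit 0) (.e (nat_lit 376612) (nat_lit 0) .nil) .nil))) 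
(.lf (nat_lit 580488) (.g (nat_lit 2565) (.e (nat_lit 336407) (nat_lit 27) (.e (nat_lit 426098) (nat_lit 1) (.e (nat_lit 164325) (nat_lit 230) (.e (nat_lit 163873) (nat_lit 3) (.e (nat_lit 204813) (nat_lit 9) .nil))))) (.g (nat_lit 0) (.e (nat_lit 377446) (nat_lit 0) .nil) .nil)))))) (.nd (nat_lit 7) (.nd (nat_lit 8) (.nd (nat_lit 9) 
(.lf (nat_lit 579656) (.g (nat_lit 2311) (.e (nat_lit 336326) (nat_lit 18) (.e (nat_lit 204880) (nat_lit 32) (.e (nat_lit 385068) (nat_lit 26) (.e (nat_lit 532530) (nat_lit 9) (.e (nat_lit 336326) (nat_lit 18) .nil))))) (.g (nat_lit 0) (.e (nat_lit 375055) (nat_lit 0) .nil) .nil))) 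
(.lf (nat_lit 580168) (.g (nat_lit 1755) (.e (nat_lit 336388) (nat_lit 27) (.e (nat_lit 426107) (nat_lit 1) (.e (nat_lit 164327) (nat_lit 230) (.e (nat_lit 163873) (nat_lit 3) .nil)))) (.g (nat_lit 0) (.e (nat_lit 376937) (nat_lit 0) .nil) .nil)))) (.nd (nat_lit 9) 
(.lf (nat_lit 579912) (.g (nat_lit 3289) (.e (nat_lit 336385) (nat_lit 27) (.e (nat_lit 426343) (nat_lit 14) (.e (nat_lit 491560) (nat_lit 10) (.e (nat_lit 344179) (nat_lit 44) (.e (nat_lit 778466) (nat_lit 11) (.e (nat_lit 24632) (nat_lit 9) .nil)))))) (.g (nat_lit 1) (.e (nat_lit 376545) (nat_lit 0) .nil) .nil))) 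
(.lf (nat_lit 580424) (.g (nat_lit 1530) (.e (nat_lit 336408) (nat_lit 27) (.e (nat_lit 426200) (nat_lit 9) (.e (nat_lit 426436) (nat_lit 18) (.e (nat_lit 98334) (nat_lit 18) .nil)))) (.g (nat_lit 0) (.e (nat_lit 377377) (nat_lit 0) .nil) .nil))))) (.nd (nat_lit 8) (.nd (nat_lit 9) 
(.lf (nat_lit 579784) (.g (nat_lit 2877) (.e (nat_lit 336370) (nat_lit 27) (.e (nat_lit 426499) (nat_lit 27) (.e (nat_lit 335986) (nat_lit 1) (.e (nat_lit 57847) (nat_lit 252) (.e (nat_lit 57375) (nat_lit 2) (.e (nat_lit 90160) (nat_lit 11) (.e (nat_lit 24624) (nat_lit 9) .nil))))))) (.g (nat_lit 1) (.e (nat_lit 376350) (nat_lit 0) .nil) .nil))) 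
(.lf (nat_lit 580296) (.g (nat_lit 1244) (.e (nat_lit 336395) (nat_lit 27) (.e (nat_lit 426340) (nat_lit 14) (.e (nat_lit 491549) (nat_lit 9) (.e (nat_lit 336395) (nat_lit 27) (.e (nat_lit 426340) (nat_lit 14) .nil))))) (.g (nat_lit 0) (.e (nat_lit 377135) (nat_lit 0) .nil) .nil)))) (.nd (nat_lit 9) 
(.lf (nat_lit 580040) (.g (nat_lit 1293) (.e (nat_lit 336387) (nat_lit 27) (.e (nat_lit 426107) (nat_lit 1) (.e (nat_lit 164325) (nat_lit 230) (.e (nat_lit 163868) (nat_lit 2) (.e (nat_lit 196656) (nat_lit 11) .nil))))) (.g (nat_lit 0) (.e (nat_lit 376700) (nat_lit 0) .nil) .nil))) 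
(.lf (nat_lit 580552) (.g (nat_lit 2086) (.e (nat_lit 336407) (nat_lit 27) (.e (nat_lit 426343) (nat_lit 14) (.e (nat_lit 491560) (nat_lit 10) (.e (nat_lit 344094) (nat_lit 18) .nil)))) (.g (nat_lit 0) (.e (nat_lit 377513) (nat_lit 0) .nil) .nil))))))) (.nd (nat_lit 6) (.nd (nat_lit 7) (.nd (nat_lit 8) (.nd (nat_lit 9) 
(.lf (nat_lit 579624) (.g (nat_lit 2375) (.e (nat_lit 336326) (nat_lit 18) (.e (nat_lit 204863) (nat_lit 27) (.e (nat_lit 344133) (nat_lit 26) (.e (nat_lit 557098) (nat_lit 13) (.e (nat_lit 179968) (nat_lit 15) .nil))))) (.g (nat_lit 0) (.e (nat_lit 374998) (nat_lit 0) .nil) .nil))) 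
(.lf (nat_lit 580136) (.g (nat_lit 1678) (.e (nat_lit 336388) (nat_lit 27) (.e (nat_lit 426098) (nat_lit 1) (.e (nat_lit 164325) (nat_lit 230) (.e (nat_lit 163868) (nat_lit 2) (.e (nat_lit 196656) (nat_lit 11) .nil))))) (.g (nat_lit 0) (.e (nat_lit 376904) (nat_lit 0) .nil) .nil)))) (.nd (nat_lit 9) 
(.lf (nat_lit 579880) (.g (nat_lit 1743) (.e (nat_lit 336385) (nat_lit 27) (.e (nat_lit 426188) (nat_lit 9) (.e (nat_lit 426436) (nat_lit 18) (.e (nat_lit 98334) (nat_lit 18) (.e (nat_lit 164332) (nat_lit 230) .nil))))) (.g (nat_lit 0) (.e (nat_lit 376505) (nat_lit 0) .nil) .nil))) 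
(.lf (nat_lit 580392) (.g (nat_lit 1820) (.e (nat_lit 336406) (nat_lit 27) (.e (nat_lit 426190) (nat_lit 9) (.e (nat_lit 426436) (nat_lit 18) (.e (nat_lit 98334) (nat_lit 18) (.e (nat_lit 164330) (nat_lit 230) (.e (nat_lit 163905) (nat_lit 12) (.e (nat_lit 426489) (nat_lit 27) .nil))))))) (.g (nat_lit 1) (.e (nat_lit 377321) (nat_lit 0) .nil) .nil))))) (.nd (nat_lit 8) (.nd (nat_lit 9) 
(.lf (nat_lit 579752) (.g (nat_lit 1636) (.e (nat_lit 336367) (nat_lit 27) (.e (nat_lit 426320) (nat_lit 12) (.e (nat_lit 475199) (nat_lit 40) (.e (nat_lit 704595) (nat_lit 5) (.e (nat_lit 188160) (nat_lit 32) .nil))))) (.g (nat_lit 0) (.e (nat_lit 376302) (nat_lit 0) .nil) .nil))) 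
(.lf (nat_lit 580264) (.g (nat_lit 1174) (.e (nat_lit 336398) (nat_lit 27) (.e (nat_lit 426290) (nat_lit 10) (.e (nat_lit 434209) (nat_lit 18) (.e (nat_lit 5548) (nat_lit 306) .nil)))) (.g (nat_lit 0) (.e (nat_lit 377086) (nat_lit 0) .nil) .nil)))) (.nd (nat_lit 9) 
(.lf (nat_lit 580008) (.g (nat_lit 3098) (.e (nat_lit 336389) (nat_lit 27) (.e (nat_lit 426308) (nat_lit 12) (.e (nat_lit 475179) (nat_lit 24) (.e (nat_lit 516119) (nat_lit 1) (.e (nat_lit 164326) (nat_lit 230) (.e (nat_lit 163903) (nat_lit 12) (.e (nat_lit 426478) (nat_lit 27) .nil))))))) (.g (nat_lit 1) (.e (nat_lit 376644) (nat_lit 0) .nil) .nil))) 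
(.lf (nat_lit 580520) (.g (nat_lit 2407) (.e (nat_lit 336407) (nat_lit 27) (.e (nat_lit 426107) (nat_lit 1) (.e (nat_lit 164327) (nat_lit 230) (.e (nat_lit 163875) (nat_lit 3) (.e (nat_lit 204813) (nat_lit 9) .nil))))) (.g (nat_lit 0) (.e (nat_lit 377479) (nat_lit 0) .nil) .nil)))))) (.nd (nat_lit 7) (.nd (nat_lit 8) (.nd (nat_lit 9) 
(.lf (nat_lit 579688) (.g (nat_lit 658) (.e (nat_lit 343808) (nat_lit 18) (.e (nat_lit 204831) (nat_lit 18) (.e (nat_lit 57848) (nat_lit 252) (.e (nat_lit 57445) (nat_lit 19) .nil)))) (.g (nat_lit 0) (.e (nat_lit 375096) (nat_lit 0) .nil) .nil))) 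
(.lf (nat_lit 580200) (.g (nat_lit 3376) (.e (nat_lit 336388) (nat_lit 27) (.e (nat_lit 426188) (nat_lit 9) (.e (nat_lit 426436) (nat_lit 18) (.e (nat_lit 98335) (nat_lit 18) (.e (nat_lit 164327) (nat_lit 230) (.e (nat_lit 163903) (nat_lit 12) (.e (nat_lit 426481) (nat_lit 27) .nil))))))) (.g (nat_lit 1) (.e (nat_lit 376975) (nat_lit 0) .nil) .nil)))) (.nd (nat_lit 9) 
(.lf (nat_lit 579944) (.g (nat_lit 1955) (.e (nat_lit 336386) (nat_lit 27) (.e (nat_lit 426306) (nat_lit 12) (.e (nat_lit 475179) (nat_lit 24) (.e (nat_lit 516119) (nat_lit 1) (.e (nat_lit 164325) (nat_lit 230) .nil))))) (.g (nat_lit 0) (.e (nat_lit 376579) (nat_lit 0) .nil) .nil))) 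
(.lf (nat_lit 580456) (.g (nat_lit 2451) (.e (nat_lit 336409) (nat_lit 27) (.e (nat_lit 426108) (nat_lit 1) (.e (nat_lit 164332) (nat_lit 230) (.e (nat_lit 163869) (nat_lit 2) .nil)))) (.g (nat_lit 0) (.e (nat_lit 377413) (nat_lit 0) .nil) .nil))))) (.nd (nat_lit 8) (.nd (nat_lit 9) 
(.lf (nat_lit 579816) (.g (nat_lit 2020) (.e (nat_lit 336381) (nat_lit 27) (.e (nat_lit 426098) (nat_lit 1) (.e (nat_lit 164327) (nat_lit 230) (.e (nat_lit 163868) (nat_lit 2) (.e (nat_lit 196654) (nat_lit 11) (.e (nat_lit 16436) (nat_lit 9) (.e (nat_lit 426486) (nat_lit 27) .nil))))))) (.g (nat_lit 1) (.e (nat_lit 376415) (nat_lit 0) .nil) .nil))) 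
(.lf (nat_lit 580328) (.g (nat_lit 2348) (.e (nat_lit 336419) (nat_lit 27) (.e (nat_lit 426098) (nat_lit 1) (.e (nat_lit 164327) (nat_lit 230) (.e (nat_lit 163871) (nat_lit 2) (.e (nat_lit 196654) (nat_lit 11) (.e (nat_lit 16436) (nat_lit 9) (.e (nat_lit 426486) (nat_lit 27) .nil))))))) (.g (nat_lit 1) (.e (nat_lit 377205) (nat_lit 0) .nil) .nil)))) (.nd (nat_lit 9) 
(.lf (nat_lit 580072) (.g (nat_lit 1595) (.e (nat_lit 336387) (nat_lit 27) (.e (nat_lit 426107) (nat_lit 1) (.e (nat_lit 164331) (nat_lit 230) (.e (nat_lit 163873) (nat_lit 3) .nil)))) (.g (nat_lit 0) (.e (nat_lit 376759) (nat_lit 0) .nil) .nil))) 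
(.lf (nat_lit 580584) (.g (nat_lit 2571) (.e (nat_lit 336412) (nat_lit 27) (.e (nat_lit 426338) (nat_lit 14) (.e (nat_lit 491571) (nat_lit 13) (.e (nat_lit 393299) (nat_lit 27) (.e (nat_lit 491552) (nat_lit 9) .nil))))) (.g (nat_lit 1) (.e (nat_lit 377555) (nat_lit 0) .nil) .nil)))))))) (.nd (nat_lit 5) (.nd (nat_lit 6) (.nd (nat_lit 7) (.nd (nat_lit 8) (.nd (nat_lit 9) 
(.lf (nat_lit 579608) (.g (nat_lit 514) (.e (nat_lit 336326) (nat_lit 18) (.e (nat_lit 204863) (nat_lit 27) (.e (nat_lit 344132) (nat_lit 26) .nil))) (.g (nat_lit 0) (.e (nat_lit 374977) (nat_lit 0) .nil) .nil))) 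
(.lf (nat_lit 580120) (.g (nat_lit 2117) (.e (nat_lit 336387) (nat_lit 27) (.e (nat_lit 426316) (nat_lit 12) (.e (nat_lit 475185) (nat_lit 29) (.e (nat_lit 557089) (nat_lit 12) (.e (nat_lit 164031) (nat_lit 53) .nil))))) (.g (nat_lit 0) (.e (nat_lit 376879) (nat_lit 0) .nil) .nil)))) (.nd (nat_lit 9) 
(.lf (nat_lit 579864) (.g (nat_lit 2037) (.e (nat_lit 336385) (nat_lit 27) (.e (nat_lit 426108) (nat_lit 1) (.e (nat_lit 164330) (nat_lit 230) (.e (nat_lit 163869) (nat_lit 2) .nil)))) (.g (nat_lit 0) (.e (nat_lit 376483) (nat_lit 0) .nil) .nil))) 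
(.lf (nat_lit 580376) (.g (nat_lit 2758) (.e (nat_lit 336406) (nat_lit 27) (.e (nat_lit 426098) (nat_lit 1) (.e (nat_lit 164327) (nat_lit 230) (.e (nat_lit 163873) (nat_lit 3) (.e (nat_lit 204813) (nat_lit 9) (.e (nat_lit 426198) (nat_lit 9) (.e (nat_lit 426489) (nat_lit 27) .nil))))))) (.g (nat_lit 1) (.e (nat_lit 377304) (nat_lit 0) .nil) .nil))))) (.nd (nat_lit 8) (.nd (nat_lit 9) 
(.lf (nat_lit 579736) (.g (nat_lit 2052) (.e (nat_lit 336360) (nat_lit 25) (.e (nat_lit 409649) (nat_lit 18) (.e (nat_lit 303140) (nat_lit 10) (.e (nat_lit 434211) (nat_lit 18) .nil)))) (.g (nat_lit 0) (.e (nat_lit 376264) (nat_lit 0) .nil) .nil))) 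
(.lf (nat_lit 580248) (.g (nat_lit 2776) (.e (nat_lit 336390) (nat_lit 27) (.e (nat_lit 426308) (nat_lit 12) (.e (nat_lit 475179) (nat_lit 24) (.e (nat_lit 516115) (nat_lit 1) (.e (nat_lit 164332) (nat_lit 230) (.e (nat_lit 163905) (nat_lit 12) (.e (nat_lit 426530) (nat_lit 27) .nil))))))) (.g (nat_lit 1) (.e (nat_lit 377045) (nat_lit 0) .nil) .nil)))) (.nd (nat_lit 9) 
(.lf (nat_lit 579992) (.g (nat_lit 755) (.e (nat_lit 336389) (nat_lit 27) (.e (nat_lit 426306) (nat_lit 12) (.e (nat_lit 475177) (nat_lit 24) .nil))) (.g (nat_lit 0) (.e (nat_lit 376628) (nat_lit 0) .nil) .nil))) 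
(.lf (nat_lit 580504) (.g (nat_lit 1326) (.e (nat_lit 336407) (nat_lit 27) (.e (nat_lit 426107) (nat_lit 1) (.e (nat_lit 164325) (nat_lit 230) (.e (nat_lit 163868) (nat_lit 2) .nil)))) (.g (nat_lit 0) (.e (nat_lit 377463) (nat_lit 0) .nil) .nil)))))) (.nd (nat_lit 7) (.nd (nat_lit 8) (.nd (nat_lit 9) 
(.lf (nat_lit 579672) (.g (nat_lit 2340) (.e (nat_lit 336326) (nat_lit 18) (.e (nat_lit 204882) (nat_lit 32) (.e (nat_lit 385068) (nat_lit 26) (.e (nat_lit 532533) (nat_lit 9) (.e (nat_lit 336324) (nat_lit 18) .nil))))) (.g (nat_lit 0) (.e (nat_lit 375080) (nat_lit 0) .nil) .nil))) 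
(.lf (nat_lit 580184) (.g (nat_lit 2947) (.e (nat_lit 336388) (nat_lit 27) (.e (nat_lit 426108) (nat_lit 1) (.e (nat_lit 164332) (nat_lit 230) (.e (nat_lit 163869) (nat_lit 2) (.e (nat_lit 196656) (nat_lit 11) (.e (nat_lit 16436) (nat_lit 9) (.e (nat_lit 426481) (nat_lit 27) .nil))))))) (.g (nat_lit 1) (.e (nat_lit 376958) (nat_lit 0) .nil) .nil)))) (.nd (nat_lit 9) 
(.lf (nat_lit 579928) (.g (nat_lit 3026) (.e (nat_lit 336386) (nat_lit 27) (.e (nat_lit 426187) (nat_lit 9) (.e (nat_lit 426436) (nat_lit 18) (.e (nat_lit 98335) (nat_lit 18) (.e (nat_lit 164324) (nat_lit 230) (.e (nat_lit 163903) (nat_lit 12) (.e (nat_lit 426481) (nat_lit 27) .nil))))))) (.g (nat_lit 1) (.e (nat_lit 376562) (nat_lit 0) .nil) .nil))) 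
(.lf (nat_lit 580440) (.g (nat_lit 2491) (.e (nat_lit 336409) (nat_lit 27) (.e (nat_lit 426098) (nat_lit 1) (.e (nat_lit 164327) (nat_lit 230) (.e (nat_lit 163868) (nat_lit 2) (.e (nat_lit 196656) (nat_lit 11) (.e (nat_lit 16432) (nat_lit 9) (.e (nat_lit 426491) (nat_lit 27) .nil))))))) (.g (nat_lit 1) (.e (nat_lit 377395) (nat_lit 0) .nil) .nil))))) (.nd (nat_lit 8) (.nd (nat_lit 9) 
(.lf (nat_lit 579800) (.g (nat_lit 1437) (.e (nat_lit 336371) (nat_lit 27) (.e (nat_lit 426482) (nat_lit 27) (.e (nat_lit 336060) (nat_lit 7) (.e (nat_lit 319505) (nat_lit 10) .nil)))) (.g (nat_lit 0) (.e (nat_lit 376385) (nat_lit 0) .nil) .nil))) 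
(.lf (nat_lit 580312) (.g (nat_lit 828) (.e (nat_lit 336416) (nat_lit 27) (.e (nat_lit 426100) (nat_lit 1) (.e (nat_lit 164332) (nat_lit 230) .nil))) (.g (nat_lit 0) (.e (nat_lit 377155) (nat_lit 0) .nil) .nil)))) (.nd (nat_lit 9) 
(.lf (nat_lit 580056) (.g (nat_lit 2467) (.e (nat_lit 336387) (nat_lit 27) (.e (nat_lit 426107) (nat_lit 1) (.e (nat_lit 164326) (nat_lit 230) (.e (nat_lit 163871) (nat_lit 2) (.e (nat_lit 196656) (nat_lit 11) (.e (nat_lit 16444) (nat_lit 9) (.e (nat_lit 426503) (nat_lit 27) .nil))))))) (.g (nat_lit 1) (.e (nat_lit 376724) (nat_lit 0) .nil) .nil))) 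
(.lf (nat_lit 580568) (.g (nat_lit 3869) (.e (nat_lit 336412) (nat_lit 27) (.e (nat_lit 426098) (nat_lit 1) (.e (nat_lit 164327) (nat_lit 230) (.e (nat_lit 163873) (nat_lit 3) (.e (nat_lit 204813) (nat_lit 9) (.e (nat_lit 426199) (nat_lit 9) (.e (nat_lit 426509) (nat_lit 27) .nil))))))) (.g (nat_lit 1) (.e (nat_lit 377533) (nat_lit 0) .nil) .nil))))))) 
(.nd (nat_lit 6) (.nd (nat_lit 7) (.nd (nat_lit 8) (.nd (nat_lit 9) 
(.lf (nat_lit 579640) (.g (nat_lit 1717) (.e (nat_lit 336326) (nat_lit 18) (.e (nat_lit 204869) (nat_lit 29) (.e (nat_lit 360492) (nat_lit 22) (.e (nat_lit 778455) (nat_lit 10) .nil)))) (.g (nat_lit 0) (.e (nat_lit 375031) (nat_lit 0) .nil) .nil))) 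
(.lf (nat_lit 580152) (.g (nat_lit 1183) (.e (nat_lit 336388) (nat_lit 27) (.e (nat_lit 426107) (nat_lit 1) (.e (nat_lit 164325) (nat_lit 230) (.e (nat_lit 163871) (nat_lit 2) .nil)))) (.g (nat_lit 0) (.e (nat_lit 376921) (nat_lit 0) .nil) .nil)))) (.nd (nat_lit 9) 
(.lf (nat_lit 579896) (.g (nat_lit 1506) (.e (nat_lit 336385) (nat_lit 27) (.e (nat_lit 426306) (nat_lit 12) (.e (nat_lit 475177) (nat_lit 24) (.e (nat_lit 516120) (nat_lit 1) .nil)))) (.g (nat_lit 0) (.e (nat_lit 376528) (nat_lit 0) .nil) .nil))) 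
(.lf (nat_lit 580408) (.g (nat_lit 1255) (.e (nat_lit 336408) (nat_lit 27) (.e (nat_lit 426100) (nat_lit 1) (.e (nat_lit 164399) (nat_lit 256) (.e (nat_lit 57372) (nat_lit 2) .nil)))) (.g (nat_lit 0) (.e (nat_lit 377348) (nat_lit 0) .nil) .nil))))) (.nd (nat_lit 8) (.nd (nat_lit 9) 
(.lf (nat_lit 579768) (.g (nat_lit 2426) (.e (nat_lit 336368) (nat_lit 27) (.e (nat_lit 426499) (nat_lit 27) (.e (nat_lit 335986) (nat_lit 1) (.e (nat_lit 57847) (nat_lit 252) (.e (nat_lit 57375) (nat_lit 2) .nil))))) (.g (nat_lit 0) (.e (nat_lit 376325) (nat_lit 0) .nil) .nil))) 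
(.lf (nat_lit 580280) (.g (nat_lit 1594) (.e (nat_lit 336394) (nat_lit 27) (.e (nat_lit 426340) (nat_lit 14) (.e (nat_lit 491571) (nat_lit 13) (.e (nat_lit 393238) (nat_lit 17) .nil)))) (.g (nat_lit 0) (.e (nat_lit 377114) (nat_lit 0) .nil) .nil)))) (.nd (nat_lit 9) 
(.lf (nat_lit 580024) (.g (nat_lit 1776) (.e (nat_lit 336387) (nat_lit 27) (.e (nat_lit 426098) (nat_lit 1) (.e (nat_lit 164325) (nat_lit 230) (.e (nat_lit 163874) (nat_lit 3) (.e (nat_lit 204811) (nat_lit 9) (.e (nat_lit 426261) (nat_lit 9) (.e (nat_lit 426503) (nat_lit 27) .nil))))))) (.g (nat_lit 1) (.e (nat_lit 376664) (nat_lit 0) .nil) .nil))) 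
(.lf (nat_lit 580536) (.g (nat_lit 632) (.e (nat_lit 336407) (nat_lit 27) (.e (nat_lit 426200) (nat_lit 9) (.e (nat_lit 426128) (nat_lit 2) .nil))) (.g (nat_lit 0) (.e (nat_lit 377495) (nat_lit 0) .nil) .nil)))))) (.nd (nat_lit 7) (.nd (nat_lit 8) (.nd (nat_lit 9) 
(.lf (nat_lit 579704) (.g (nat_lit 713) (.e (nat_lit 343808) (nat_lit 18) (.e (nat_lit 204863) (nat_lit 27) (.e (nat_lit 344131) (nat_lit 26) .nil))) (.g (nat_lit 0) (.e (nat_lit 375126) (nat_lit 0) .nil) .nil))) 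
(.lf (nat_lit 580216) (.g (nat_lit 2103) (.e (nat_lit 336388) (nat_lit 27) (.e (nat_lit 426306) (nat_lit 12) (.e (nat_lit 475179) (nat_lit 24) (.e (nat_lit 516117) (nat_lit 1) (.e (nat_lit 164332) (nat_lit 230) .nil))))) (.g (nat_lit 0) (.e (nat_lit 376992) (nat_lit 0) .nil) .nil)))) (.nd (nat_lit 9) 
(.lf (nat_lit 579960) (.g (nat_lit 2222) (.e (nat_lit 336389) (nat_lit 27) (.e (nat_lit 426098) (nat_lit 1) (.e (nat_lit 164325) (nat_lit 230) (.e (nat_lit 163874) (nat_lit 3) (.e (nat_lit 204813) (nat_lit 9) .nil))))) (.g (nat_lit 0) (.e (nat_lit 376596) (nat_lit 0) .nil) .nil))) 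
(.lf (nat_lit 580472) (.g (nat_lit 1513) (.e (nat_lit 336409) (nat_lit 27) (.e (nat_lit 426306) (nat_lit 12) (.e (nat_lit 475177) (nat_lit 24) (.e (nat_lit 516120) (nat_lit 1) .nil)))) (.g (nat_lit 0) (.e (nat_lit 377429) (nat_lit 0) .nil) .nil))))) (.nd (nat_lit 8) (.nd (nat_lit 9) 
(.lf (nat_lit 579832) (.g (nat_lit 1323) (.e (nat_lit 336385) (nat_lit 27) (.e (nat_lit 426098) (nat_lit 1) (.e (nat_lit 164325) (nat_lit 230) (.e (nat_lit 163871) (nat_lit 2) .nil)))) (.g (nat_lit 0) (.e (nat_lit 376436) (nat_lit 0) .nil) .nil))) 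
(.lf (nat_lit 580344) (.g (nat_lit 1489) (.e (nat_lit 336405) (nat_lit 27) (.e (nat_lit 426100) (nat_lit 1) (.e (nat_lit 164398) (nat_lit 256) (.e (nat_lit 57378) (nat_lit 3) .nil)))) (.g (nat_lit 0) (.e (nat_lit 377247) (nat_lit 0) .nil) .nil)))) (.nd (nat_lit 9) 
(.lf (nat_lit 580088) (.g (nat_lit 478) (.e (nat_lit 336387) (nat_lit 27) (.e (nat_lit 426188) (nat_lit 9) (.e (nat_lit 426436) (nat_lit 18) .nil))) (.g (nat_lit 0) (.e (nat_lit 376802) (nat_lit 0) .nil) .nil))) 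
(.lf (nat_lit 580600) (.g (nat_lit 1961) (.e (nat_lit 336412) (nat_lit 27) (.e (nat_lit 426344) (nat_lit 14) (.e (nat_lit 491560) (nat_lit 10) (.e (nat_lit 344177) (nat_lit 43) .nil)))) (.g (nat_lit 0) (.e (nat_lit 377576) (nat_lit 0) .nil) .nil)))))))))) (.nd (nat_lit 3) (.nd (nat_lit 4) (.nd (nat_lit 5) (.nd (nat_lit 6) (.nd (nat_lit 7) (.nd (nat_lit 8) (.nd (nat_lit 9) 
(.lf (nat_lit 579588) (.g (nat_lit 2297) (.e (nat_lit 336326) (nat_lit 18) (.e (nat_lit 204863) (nat_lit 27) (.e (nat_lit 344129) (nat_lit 26) (.e (nat_lit 557096) (nat_lit 13) (.e (nat_lit 172133) (nat_lit 15) .nil))))) (.g (nat_lit 0) (.e (nat_lit 374956) (nat_lit 0) .nil) .nil))) 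
(.lf (nat_lit 580100) (.g (nat_lit 2639) (.e (nat_lit 336387) (nat_lit 27) (.e (nat_lit 426200) (nat_lit 9) (.e (nat_lit 426131) (nat_lit 3) (.e (nat_lit 204829) (nat_lit 18) (.e (nat_lit 57665) (nat_lit 152) .nil))))) (.g (nat_lit 0) (.e (nat_lit 376824) (nat_lit 0) .nil) .nil)))) (.nd (nat_lit 9) 
(.lf (nat_lit 579844) (.g (nat_lit 1346) (.e (nat_lit 336385) (nat_lit 27) (.e (nat_lit 426107) (nat_lit 1) (.e (nat_lit 164325) (nat_lit 230) (.e (nat_lit 163871) (nat_lit 2) .nil)))) (.g (nat_lit 0) (.e (nat_lit 376455) (nat_lit 0) .nil) .nil))) 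
(.lf (nat_lit 580356) (.g (nat_lit 679) (.e (nat_lit 336405) (nat_lit 27) (.e (nat_lit 426199) (nat_lit 9) (.e (nat_lit 426128) (nat_lit 2) (.e (nat_lit 204544) (nat_lit 2) .nil)))) (.g (nat_lit 0) (.e (nat_lit 377271) (nat_lit 0) .nil) .nil))))) (.nd (nat_lit 8) (.nd (nat_lit 9) 
(.lf (nat_lit 579716) (.g (nat_lit 3386) (.e (nat_lit 336334) (nat_lit 20) (.e (nat_lit 221210) (nat_lit 22) (.e (nat_lit 196656) (nat_lit 11) (.e (nat_lit 16436) (nat_lit 9) (.e (nat_lit 426131) (nat_lit 3) (.e (nat_lit 204852) (nat_lit 26) .nil)))))) (.g (nat_lit 1) (.e (nat_lit 375477) (nat_lit 0) .nil) .nil))) 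
(.lf (nat_lit 580228) (.g (nat_lit 682) (.e (nat_lit 336392) (nat_lit 27) (.e (nat_lit 426011) (nat_lit 0) (.e (nat_lit 7591) (nat_lit 407) .nil))) (.g (nat_lit 0) (.e (nat_lit 377005) (nat_lit 0) .nil) .nil)))) (.nd (nat_lit 9) 
(.lf (nat_lit 579972) (.g (nat_lit 1528) (.e (nat_lit 336389) (nat_lit 27) (.e (nat_lit 426098) (nat_lit 1) (.e (nat_lit 164398) (nat_lit 256) (.e (nat_lit 57377) (nat_lit 3) .nil)))) (.g (nat_lit 0) (.e (nat_lit 376608) (nat_lit 0) .nil) .nil))) 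
(.lf (nat_lit 580484) (.g (nat_lit 2243) (.e (nat_lit 336407) (nat_lit 27) (.e (nat_lit 426098) (nat_lit 1) (.e (nat_lit 164325) (nat_lit 230) (.e (nat_lit 163866) (nat_lit 2) .nil)))) (.g (nat_lit 0) (.e (nat_lit 377441) (nat_lit 0) .nil) .nil)))))) (.nd (nat_lit 7) (.nd (nat_lit 8) (.nd (nat_lit 9) 
(.lf (nat_lit 579652) (.g (nat_lit 1877) (.e (nat_lit 336326) (nat_lit 18) (.e (nat_lit 204880) (nat_lit 32) (.e (nat_lit 385066) (nat_lit 26) (.e (nat_lit 532534) (nat_lit 9) (.e (nat_lit 336326) (nat_lit 18) (.e (nat_lit 204851) (nat_lit 26) .nil)))))) (.g (nat_lit 1) (.e (nat_lit 375051) (nat_lit 0) .nil) .nil))) 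
(.lf (nat_lit 580164) (.g (nat_lit 2722) (.e (nat_lit 336388) (nat_lit 27) (.e (nat_lit 426107) (nat_lit 1) (.e (nat_lit 164327) (nat_lit 230) (.e (nat_lit 163868) (nat_lit 2) (.e (nat_lit 196656) (nat_lit 11) (.e (nat_lit 16436) (nat_lit 9) (.e (nat_lit 426480) (nat_lit 27) .nil))))))) (.g (nat_lit 1) (.e (nat_lit 376933) (nat_lit 0) .nil) .nil)))) (.nd (nat_lit 9) 
(.lf (nat_lit 579908) (.g (nat_lit 2667) (.e (nat_lit 336385) (nat_lit 27) (.e (nat_lit 426341) (nat_lit 14) (.e (nat_lit 491571) (nat_lit 13) (.e (nat_lit 393299) (nat_lit 27) (.e (nat_lit 491552) (nat_lit 9) .nil))))) (.g (nat_lit 0) (.e (nat_lit 376541) (nat_lit 0) .nil) .nil))) 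
(.lf (nat_lit 580420) (.g (nat_lit 1957) (.e (nat_lit 336408) (nat_lit 27) (.e (nat_lit 426200) (nat_lit 9) (.e (nat_lit 426131) (nat_lit 3) (.e (nat_lit 204829) (nat_lit 18) (.e (nat_lit 57692) (nat_lit 156) .nil))))) (.g (nat_lit 0) (.e (nat_lit 377370) (nat_lit 0) .nil) .nil))))) (.nd (nat_lit 8) (.nd (nat_lit 9) 
(.lf (nat_lit 579780) (.g (nat_lit 2601) (.e (nat_lit 336370) (nat_lit 27) (.e (nat_lit 426497) (nat_lit 27) (.e (nat_lit 335986) (nat_lit 1) (.e (nat_lit 57847) (nat_lit 252) (.e (nat_lit 57370) (nat_lit 2) (.e (nat_lit 90158) (nat_lit 11) (.e (nat_lit 24628) (nat_lit 9) .nil))))))) (.g (nat_lit 1) (.e (nat_lit 376346) (nat_lit 0) .nil) .nil))) 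
(.lf (nat_lit 580292) (.g (nat_lit 2588) (.e (nat_lit 336395) (nat_lit 27) (.e (nat_lit 426338) (nat_lit 14) (.e (nat_lit 491571) (nat_lit 13) (.e (nat_lit 393299) (nat_lit 27) (.e (nat_lit 491548) (nat_lit 9) .nil))))) (.g (nat_lit 0) (.e (nat_lit 377131) (nat_lit 0) .nil) .nil)))) (.nd (nat_lit 9) 
(.lf (nat_lit 580036) (.g (nat_lit 1397) (.e (nat_lit 336387) (nat_lit 27) (.e (nat_lit 426107) (nat_lit 1) (.e (nat_lit 164324) (nat_lit 230) (.e (nat_lit 163873) (nat_lit 3) .nil)))) (.g (nat_lit 0) (.e (nat_lit 376696) (nat_lit 0) .nil) .nil))) 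
(.lf (nat_lit 580548) (.g (nat_lit 2947) (.e (nat_lit 336407) (nat_lit 27) (.e (nat_lit 426315) (nat_lit 12) (.e (nat_lit 475178) (nat_lit 24) (.e (nat_lit 516120) (nat_lit 1) (.e (nat_lit 164329) (nat_lit 230) (.e (nat_lit 163902) (nat_lit 12) (.e (nat_lit 426489) (nat_lit 27) .nil))))))) (.g (nat_lit 1) (.e (nat_lit 377509) (nat_lit 0) .nil) .nil))))))) 
(.nd (nat_lit 6) (.nd (nat_lit 7) (.nd (nat_lit 8) (.nd (nat_lit 9) 
(.lf (nat_lit 579620) (.g (nat_lit 3087) (.e (nat_lit 336326) (nat_lit 18) (.e (nat_lit 204863) (nat_lit 27) (.e (nat_lit 344133) (nat_lit 26) (.e (nat_lit 557098) (nat_lit 13) (.e (nat_lit 172129) (nat_lit 15) (.e (nat_lit 7936) (nat_lit 121) (.e (nat_lit 532529) (nat_lit 9) .nil))))))) (.g (nat_lit 1) (.e (nat_lit 374994) (nat_lit 0) .nil) .nil))) 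
(.lf (nat_lit 580132) (.g (nat_lit 1306) (.e (nat_lit 336387) (nat_lit 27) (.e (nat_lit 426316) (nat_lit 12) (.e (nat_lit 475214) (nat_lit 42) (.e (nat_lit 728832) (nat_lit 4) .nil)))) (.g (nat_lit 0) (.e (nat_lit 376900) (nat_lit 0) .nil) .nil)))) (.nd (nat_lit 9) 
(.lf (nat_lit 579876) (.g (nat_lit 2837) (.e (nat_lit 336385) (nat_lit 27) (.e (nat_lit 426187) (nat_lit 9) (.e (nat_lit 426436) (nat_lit 18) (.e (nat_lit 98335) (nat_lit 18) (.e (nat_lit 164332) (nat_lit 230) (.e (nat_lit 163905) (nat_lit 12) (.e (nat_lit 426478) (nat_lit 27) .nil))))))) (.g (nat_lit 1) (.e (nat_lit 376499) (nat_lit 0) .nil) .nil))) 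
(.lf (nat_lit 580388) (.g (nat_lit 2451) (.e (nat_lit 336406) (nat_lit 27) (.e (nat_lit 426108) (nat_lit 1) (.e (nat_lit 164332) (nat_lit 230) (.e (nat_lit 163869) (nat_lit 2) .nil)))) (.g (nat_lit 0) (.e (nat_lit 377317) (nat_lit 0) .nil) .nil))))) (.nd (nat_lit 8) (.nd (nat_lit 9) 
(.lf (nat_lit 579748) (.g (nat_lit 1120) (.e (nat_lit 336367) (nat_lit 27) (.e (nat_lit 426320) (nat_lit 12) (.e (nat_lit 475198) (nat_lit 40) (.e (nat_lit 704595) (nat_lit 5) .nil)))) (.g (nat_lit 0) (.e (nat_lit 376294) (nat_lit 0) .nil) .nil))) 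
(.lf (nat_lit 580260) (.g (nat_lit 1137) (.e (nat_lit 336393) (nat_lit 27) (.e (nat_lit 426265) (nat_lit 9) (.e (nat_lit 426098) (nat_lit 1) (.e (nat_lit 164325) (nat_lit 230) .nil)))) (.g (nat_lit 0) (.e (nat_lit 377080) (nat_lit 0) .nil) .nil)))) (.nd (nat_lit 9) 
(.lf (nat_lit 580004) (.g (nat_lit 2478) (.e (nat_lit 336389) (nat_lit 27) (.e (nat_lit 426308) (nat_lit 12) (.e (nat_lit 475179) (nat_lit 24) (.e (nat_lit 516117) (nat_lit 1) (.e (nat_lit 164330) (nat_lit 230) .nil))))) (.g (nat_lit 0) (.e (nat_lit 376640) (nat_lit 0) .nil) .nil))) 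
(.lf (nat_lit 580516) (.g (nat_lit 1759) (.e (nat_lit 336407) (nat_lit 27) (.e (nat_lit 426107) (nat_lit 1) (.e (nat_lit 164327) (nat_lit 230) (.e (nat_lit 163873) (nat_lit 3) .nil)))) (.g (nat_lit 0) (.e (nat_lit 377475) (nat_lit 0) .nil) .nil)))))) (.nd (nat_lit 7) (.nd (nat_lit 8) (.nd (nat_lit 9) 
(.lf (nat_lit 579684) (.g (nat_lit 1397) (.e (nat_lit 343808) (nat_lit 18) (.e (nat_lit 204831) (nat_lit 18) (.e (nat_lit 57846) (nat_lit 252) (.e (nat_lit 57446) (nat_lit 19) (.e (nat_lit 393227) (nat_lit 9) .nil))))) (.g (nat_lit 0) (.e (nat_lit 375092) (nat_lit 0) .nil) .nil))) 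
(.lf (nat_lit 580196) (.g (nat_lit 1953) (.e (nat_lit 336388) (nat_lit 27) (.e (nat_lit 426188) (nat_lit 9) (.e (nat_lit 426436) (nat_lit 18) (.e (nat_lit 98334) (nat_lit 18) (.e (nat_lit 164332) (nat_lit 230) (.e (nat_lit 163905) (nat_lit 12) (.e (nat_lit 426481) (nat_lit 27) .nil))))))) (.g (nat_lit 1) (.e (nat_lit 376971) (nat_lit 0) .nil) .nil)))) (.nd (nat_lit 9) 
(.lf (nat_lit 579940) (.g (nat_lit 1501) (.e (nat_lit 336386) (nat_lit 27) (.e (nat_lit 426306) (nat_lit 12) (.e (nat_lit 475177) (nat_lit 24) (.e (nat_lit 516118) (nat_lit 1) .nil)))) (.g (nat_lit 0) (.e (nat_lit 376575) (nat_lit 0) .nil) .nil))) 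
(.lf (nat_lit 580452) (.g (nat_lit 746) (.e (nat_lit 336409) (nat_lit 27) (.e (nat_lit 426108) (nat_lit 1) (.e (nat_lit 164330) (nat_lit 230) .nil))) (.g (nat_lit 0) (.e (nat_lit 377409) (nat_lit 0) .nil) .nil))))) (.nd (nat_lit 8) (.nd (nat_lit 9) 
(.lf (nat_lit 579812) (.g (nat_lit 2029) (.e (nat_lit 336379) (nat_lit 27) (.e (nat_lit 426521) (nat_lit 27) (.e (nat_lit 336088) (nat_lit 9) (.e (nat_lit 336324) (nat_lit 18) (.e (nat_lit 204831) (nat_lit 18) .nil))))) (.g (nat_lit 0) (.e (nat_lit 376408) (nat_lit 0) .nil) .nil))) 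
(.lf (nat_lit 580324) (.g (nat_lit 942) (.e (nat_lit 336419) (nat_lit 27) (.e (nat_lit 426098) (nat_lit 1) (.e (nat_lit 164325) (nat_lit 230) .nil))) (.g (nat_lit 0) (.e (nat_lit 377200) (nat_lit 0) .nil) .nil)))) (.nd (nat_lit 9) 
(.lf (nat_lit 580068) (.g (nat_lit 2412) (.e (nat_lit 336387) (nat_lit 27) (.e (nat_lit 426107) (nat_lit 1) (.e (nat_lit 164327) (nat_lit 230) (.e (nat_lit 163873) (nat_lit 3) (.e (nat_lit 204811) (nat_lit 9) (.e (nat_lit 426261) (nat_lit 9) (.e (nat_lit 426503) (nat_lit 27) .nil))))))) (.g (nat_lit 1) (.e (nat_lit 376751) (nat_lit 0) .nil) .nil))) 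
(.lf (nat_lit 580580) (.g (nat_lit 3083) (.e (nat_lit 336412) (nat_lit 27) (.e (nat_lit 426306) (nat_lit 12) (.e (nat_lit 475177) (nat_lit 24) (.e (nat_lit 516117) (nat_lit 1) (.e (nat_lit 164330) (nat_lit 230) (.e (nat_lit 163905) (nat_lit 12) (.e (nat_lit 426509) (nat_lit 27) .nil))))))) (.g (nat_lit 1) (.e (nat_lit 377546) (nat_lit 0) .nil) .nil)))))))) 
(.nd (nat_lit 5) (.nd (nat_lit 6) (.nd (nat_lit 7) (.nd (nat_lit 8) (.nd (nat_lit 9) 
(.lf (nat_lit 579604) (.g (nat_lit 2237) (.e (nat_lit 336326) (nat_lit 18) (.e (nat_lit 204863) (nat_lit 27) (.e (nat_lit 344131) (nat_lit 26) (.e (nat_lit 557098) (nat_lit 13) (.e (nat_lit 179968) (nat_lit 15) .nil))))) (.g (nat_lit 0) (.e (nat_lit 374973) (nat_lit 0) .nil) .nil))) 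
(.lf (nat_lit 580116) (.g (nat_lit 1351) (.e (nat_lit 336387) (nat_lit 27) (.e (nat_lit 426316) (nat_lit 12) (.e (nat_lit 475177) (nat_lit 24) (.e (nat_lit 516120) (nat_lit 1) .nil)))) (.g (nat_lit 0) (.e (nat_lit 376865) (nat_lit 0) .nil) .nil)))) (.nd (nat_lit 9) 
(.lf (nat_lit 579860) (.g (nat_lit 2403) (.e (nat_lit 336385) (nat_lit 27) (.e (nat_lit 426107) (nat_lit 1) (.e (nat_lit 164327) (nat_lit 230) (.e (nat_lit 163875) (nat_lit 3) (.e (nat_lit 204813) (nat_lit 9) .nil))))) (.g (nat_lit 0) (.e (nat_lit 376476) (nat_lit 0) .nil) .nil))) 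
(.lf (nat_lit 580372) (.g (nat_lit 2114) (.e (nat_lit 336406) (nat_lit 27) (.e (nat_lit 426098) (nat_lit 1) (.e (nat_lit 164325) (nat_lit 230) (.e (nat_lit 163873) (nat_lit 3) .nil)))) (.g (nat_lit 0) (.e (nat_lit 377300) (nat_lit 0) .nil) .nil))))) (.nd (nat_lit 8) (.nd (nat_lit 9) 
(.lf (nat_lit 579732) (.g (nat_lit 2617) (.e (nat_lit 336360) (nat_lit 25) (.e (nat_lit 409649) (nat_lit 18) (.e (nat_lit 303140) (nat_lit 10) (.e (nat_lit 434202) (nat_lit 18) (.e (nat_lit 6403) (nat_lit 339) .nil))))) (.g (nat_lit 0) (.e (nat_lit 376260) (nat_lit 0) .nil) .nil))) 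
(.lf (nat_lit 580244) (.g (nat_lit 2403) (.e (nat_lit 336390) (nat_lit 27) (.e (nat_lit 426107) (nat_lit 1) (.e (nat_lit 164327) (nat_lit 230) (.e (nat_lit 163875) (nat_lit 3) (.e (nat_lit 204813) (nat_lit 9) .nil))))) (.g (nat_lit 0) (.e (nat_lit 377030) (nat_lit 0) .nil) .nil)))) (.nd (nat_lit 9) 
(.lf (nat_lit 579988) (.g (nat_lit 2957) (.e (nat_lit 336389) (nat_lit 27) (.e (nat_lit 426187) (nat_lit 9) (.e (nat_lit 426436) (nat_lit 18) (.e (nat_lit 98335) (nat_lit 18) (.e (nat_lit 164332) (nat_lit 230) (.e (nat_lit 163905) (nat_lit 12) (.e (nat_lit 426478) (nat_lit 27) .nil))))))) (.g (nat_lit 1) (.e (nat_lit 376624) (nat_lit 0) .nil) .nil))) 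
(.lf (nat_lit 580500) (.g (nat_lit 3273) (.e (nat_lit 336407) (nat_lit 27) (.e (nat_lit 426098) (nat_lit 1) (.e (nat_lit 164327) (nat_lit 230) (.e (nat_lit 163875) (nat_lit 3) (.e (nat_lit 204813) (nat_lit 9) (.e (nat_lit 426198) (nat_lit 9) (.e (nat_lit 426489) (nat_lit 27) .nil))))))) (.g (nat_lit 1) (.e (nat_lit 377459) (nat_lit 0) .nil) .nil)))))) 
(.nd (nat_lit 7) (.nd (nat_lit 8) (.nd (nat_lit 9) 
(.lf (nat_lit 579668) (.g (nat_lit 1710) (.e (nat_lit 336326) (nat_lit 18) (.e (nat_lit 204882) (nat_lit 32) (.e (nat_lit 385066) (nat_lit 26) (.e (nat_lit 532566) (nat_lit 15) (.e (nat_lit 385065) (nat_lit 26) .nil))))) (.g (nat_lit 0) (.e (nat_lit 375076) (nat_lit 0) .nil) .nil))) 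
(.lf (nat_lit 580180) (.g (nat_lit 2531) (.e (nat_lit 336388) (nat_lit 27) (.e (nat_lit 426108) (nat_lit 1) (.e (nat_lit 164330) (nat_lit 230) (.e (nat_lit 163874) (nat_lit 3) (.e (nat_lit 204813) (nat_lit 9) .nil))))) (.g (nat_lit 0) (.e (nat_lit 376953) (nat_lit 0) .nil) .nil)))) (.nd (nat_lit 9) 
(.lf (nat_lit 579924) (.g (nat_lit 746) (.e (nat_lit 336386) (nat_lit 27) (.e (nat_lit 426108) (nat_lit 1) (.e (nat_lit 164330) (nat_lit 230) .nil))) (.g (nat_lit 0) (.e (nat_lit 376558) (nat_lit 0) .nil) .nil))) 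
(.lf (nat_lit 580436) (.g (nat_lit 2222) (.e (nat_lit 336409) (nat_lit 27) (.e (nat_lit 426098) (nat_lit 1) (.e (nat_lit 164325) (nat_lit 230) (.e (nat_lit 163873) (nat_lit 3) .nil)))) (.g (nat_lit 0) (.e (nat_lit 377391) (nat_lit 0) .nil) .nil))))) (.nd (nat_lit 8) (.nd (nat_lit 9) 
(.lf (nat_lit 579796) (.g (nat_lit 2711) (.e (nat_lit 336369) (nat_lit 27) (.e (nat_lit 426173) (nat_lit 7) (.e (nat_lit 409649) (nat_lit 18) (.e (nat_lit 303111) (nat_lit 0) (.e (nat_lit 3459) (nat_lit 216) (.e (nat_lit 688176) (nat_lit 16) (.e (nat_lit 65591) (nat_lit 9) .nil))))))) (.g (nat_lit 1) (.e (nat_lit 376376) (nat_lit 0) .nil) .nil))) 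
(.lf (nat_lit 580308) (.g (nat_lit 1992) (.e (nat_lit 336395) (nat_lit 27) (.e (nat_lit 426528) (nat_lit 27) (.e (nat_lit 335986) (nat_lit 1) (.e (nat_lit 57847) (nat_lit 252) (.e (nat_lit 57373) (nat_lit 2) .nil))))) (.g (nat_lit 0) (.e (nat_lit 377148) (nat_lit 0) .nil) .nil)))) (.nd (nat_lit 9) 
(.lf (nat_lit 580052) (.g (nat_lit 937) (.e (nat_lit 336387) (nat_lit 27) (.e (nat_lit 426107) (nat_lit 1) (.e (nat_lit 164326) (nat_lit 230) (.e (nat_lit 163870) (nat_lit 2) .nil)))) (.g (nat_lit 0) (.e (nat_lit 376717) (nat_lit 0) .nil) .nil))) 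
(.lf (nat_lit 580564) (.g (nat_lit 2788) (.e (nat_lit 336412) (nat_lit 27) (.e (nat_lit 426098) (nat_lit 1) (.e (nat_lit 164325) (nat_lit 230) (.e (nat_lit 163873) (nat_lit 3) (.e (nat_lit 204809) (nat_lit 9) .nil))))) (.g (nat_lit 0) (.e (nat_lit 377527) (nat_lit 0) .nil) .nil))))))) (.nd (nat_lit 6) (.nd (nat_lit 7) (.nd (nat_lit 8) (.nd (nat_lit 9) 
(.lf (nat_lit 579636) (.g (nat_lit 2302) (.e (nat_lit 336326) (nat_lit 18) (.e (nat_lit 204869) (nat_lit 29) (.e (nat_lit 360450) (nat_lit 0) (.e (nat_lit 7261) (nat_lit 384) .nil)))) (.g (nat_lit 0) (.e (nat_lit 375018) (nat_lit 0) .nil) .nil))) 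
(.lf (nat_lit 580148) (.g (nat_lit 2233) (.e (nat_lit 336388) (nat_lit 27) (.e (nat_lit 426100) (nat_lit 1) (.e (nat_lit 164332) (nat_lit 230) (.e (nat_lit 163874) (nat_lit 3) (.e (nat_lit 204813) (nat_lit 9) (.e (nat_lit 426200) (nat_lit 9) (.e (nat_lit 426478) (nat_lit 27) .nil))))))) (.g (nat_lit 1) (.e (nat_lit 376917) (nat_lit 0) .nil) .nil)))) (.nd (nat_lit 9) 
(.lf (nat_lit 579892) (.g (nat_lit 1527) (.e (nat_lit 336385) (nat_lit 27) (.e (nat_lit 426306) (nat_lit 12) (.e (nat_lit 475177) (nat_lit 24) (.e (nat_lit 516115) (nat_lit 1) .nil)))) (.g (nat_lit 0) (.e (nat_lit 376523) (nat_lit 0) .nil) .nil))) 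
(.lf (nat_lit 580404) (.g (nat_lit 2069) (.e (nat_lit 336408) (nat_lit 27) (.e (nat_lit 426100) (nat_lit 1) (.e (nat_lit 164398) (nat_lit 256) (.e (nat_lit 57371) (nat_lit 2) (.e (nat_lit 90176) (nat_lit 15) .nil))))) (.g (nat_lit 0) (.e (nat_lit 377344) (nat_lit 0) .nil) .nil))))) (.nd (nat_lit 8) (.nd (nat_lit 9) 
(.lf (nat_lit 579764) (.g (nat_lit 2808) (.e (nat_lit 336368) (nat_lit 27) (.e (nat_lit 426497) (nat_lit 27) (.e (nat_lit 335986) (nat_lit 1) (.e (nat_lit 57847) (nat_lit 252) (.e (nat_lit 57370) (nat_lit 2) (.e (nat_lit 90158) (nat_lit 11) (.e (nat_lit 24628) (nat_lit 9) .nil))))))) (.g (nat_lit 1) (.e (nat_lit 376321) (nat_lit 0) .nil) .nil))) 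
(.lf (nat_lit 580276) (.g (nat_lit 1026) (.e (nat_lit 336398) (nat_lit 27) (.e (nat_lit 426317) (nat_lit 12) (.e (nat_lit 475199) (nat_lit 40) (.e (nat_lit 704595) (nat_lit 5) .nil)))) (.g (nat_lit 0) (.e (nat_lit 377104) (nat_lit 0) .nil) .nil)))) (.nd (nat_lit 9) 
(.lf (nat_lit 580020) (.g (nat_lit 1295) (.e (nat_lit 336389) (nat_lit 27) (.e (nat_lit 426344) (nat_lit 14) (.e (nat_lit 491560) (nat_lit 10) (.e (nat_lit 344179) (nat_lit 44) .nil)))) (.g (nat_lit 0) (.e (nat_lit 376656) (nat_lit 0) .nil) .nil))) 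
(.lf (nat_lit 580532) (.g (nat_lit 3273) (.e (nat_lit 336407) (nat_lit 27) (.e (nat_lit 426190) (nat_lit 9) (.e (nat_lit 426436) (nat_lit 18) (.e (nat_lit 98334) (nat_lit 18) (.e (nat_lit 164330) (nat_lit 230) (.e (nat_lit 163905) (nat_lit 12) (.e (nat_lit 426489) (nat_lit 27) .nil))))))) (.g (nat_lit 1) (.e (nat_lit 377491) (nat_lit 0) .nil) .nil)))))) 
(.nd (nat_lit 7) (.nd (nat_lit 8) (.nd (nat_lit 9) 
(.lf (nat_lit 579700) (.g (nat_lit 1711) (.e (nat_lit 343808) (nat_lit 18) (.e (nat_lit 204863) (nat_lit 27) (.e (nat_lit 344117) (nat_lit 21) (.e (nat_lit 516130) (nat_lit 3) .nil)))) (.g (nat_lit 0) (.e (nat_lit 375122) (nat_lit 0) .nil) .nil))) 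
(.lf (nat_lit 580212) (.g (nat_lit 1871) (.e (nat_lit 336388) (nat_lit 27) (.e (nat_lit 426306) (nat_lit 12) (.e (nat_lit 475177) (nat_lit 24) (.e (nat_lit 516119) (nat_lit 1) (.e (nat_lit 164325) (nat_lit 230) .nil))))) (.g (nat_lit 0) (.e (nat_lit 376988) (nat_lit 0) .nil) .nil)))) (.nd (nat_lit 9) 
(.lf (nat_lit 579956) (.g (nat_lit 2344) (.e (nat_lit 336389) (nat_lit 27) (.e (nat_lit 426098) (nat_lit 1) (.e (nat_lit 164325) (nat_lit 230) (.e (nat_lit 163873) (nat_lit 3) (.e (nat_lit 204813) (nat_lit 9) .nil))))) (.g (nat_lit 0) (.e (nat_lit 376592) (nat_lit 0) .nil) .nil))) 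
(.lf (nat_lit 580468) (.g (nat_lit 1520) (.e (nat_lit 336409) (nat_lit 27) (.e (nat_lit 426306) (nat_lit 12) (.e (nat_lit 475177) (nat_lit 24) (.e (nat_lit 516117) (nat_lit 1) .nil)))) (.g (nat_lit 0) (.e (nat_lit 377425) (nat_lit 0) .nil) .nil))))) (.nd (nat_lit 8) (.nd (nat_lit 9) 
(.lf (nat_lit 579828) (.g (nat_lit 2061) (.e (nat_lit 336385) (nat_lit 27) (.e (nat_lit 426011) (nat_lit 0) (.e (nat_lit 7593) (nat_lit 407) (.e (nat_lit 73775) (nat_lit 26) (.e (nat_lit 778465) (nat_lit 11) .nil))))) (.g (nat_lit 0) (.e (nat_lit 376432) (nat_lit 0) .nil) .nil))) 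
(.lf (nat_lit 580340) (.g (nat_lit 2101) (.e (nat_lit 336405) (nat_lit 27) (.e (nat_lit 426011) (nat_lit 0) (.e (nat_lit 7593) (nat_lit 407) (.e (nat_lit 73775) (nat_lit 26) .nil)))) (.g (nat_lit 0) (.e (nat_lit 377240) (nat_lit 0) .nil) .nil)))) (.nd (nat_lit 9) 
(.lf (nat_lit 580084) (.g (nat_lit 1346) (.e (nat_lit 336387) (nat_lit 27) (.e (nat_lit 426108) (nat_lit 1) (.e (nat_lit 164332) (nat_lit 230) (.e (nat_lit 163873) (nat_lit 3) (.e (nat_lit 204811) (nat_lit 9) .nil))))) (.g (nat_lit 0) (.e (nat_lit 376796) (nat_lit 0) .nil) .nil))) 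
(.lf (nat_lit 580596) (.g (nat_lit 3383) (.e (nat_lit 336412) (nat_lit 27) (.e (nat_lit 426343) (nat_lit 14) (.e (nat_lit 491568) (nat_lit 13) (.e (nat_lit 393301) (nat_lit 27) (.e (nat_lit 491552) (nat_lit 9) .nil))))) (.g (nat_lit 1) (.e (nat_lit 377571) (nat_lit 0) .nil) .nil))))))))) (.nd (nat_lit 4) (.nd (nat_lit 5) (.nd (nat_lit 6) (.nd (nat_lit 7) (.nd (nat_lit 8) (.nd (nat_lit 9) 
(.lf (nat_lit 579596) (.g (nat_lit 2742) (.e (nat_lit 336326) (nat_lit 18) (.e (nat_lit 204863) (nat_lit 27) (.e (nat_lit 344129) (nat_lit 26) (.e (nat_lit 557104) (nat_lit 14) (.e (nat_lit 188160) (nat_lit 3) (.e (nat_lit 524032) (nat_lit 26) .nil)))))) (.g (nat_lit 1) (.e (nat_lit 374964) (nat_lit 0) .nil) .nil))) 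
(.lf (nat_lit 580108) (.g (nat_lit 514) (.e (nat_lit 336387) (nat_lit 27) (.e (nat_lit 426306) (nat_lit 12) (.e (nat_lit 475177) (nat_lit 24) .nil))) (.g (nat_lit 0) (.e (nat_lit 376844) (nat_lit 0) .nil) .nil)))) (.nd (nat_lit 9) 
(.lf (nat_lit 579852) (.g (nat_lit 2428) (.e (nat_lit 336385) (nat_lit 27) (.e (nat_lit 426107) (nat_lit 1) (.e (nat_lit 164327) (nat_lit 230) (.e (nat_lit 163868) (nat_lit 2) (.e (nat_lit 196654) (nat_lit 11) .nil))))) (.g (nat_lit 0) (.e (nat_lit 376467) (nat_lit 0) .nil) .nil))) 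
(.lf (nat_lit 580364) (.g (nat_lit 1594) (.e (nat_lit 336405) (nat_lit 27) (.e (nat_lit 426306) (nat_lit 12) (.e (nat_lit 475177) (nat_lit 24) (.e (nat_lit 516120) (nat_lit 1) .nil)))) (.g (nat_lit 0) (.e (nat_lit 377292) (nat_lit 0) .nil) .nil))))) (.nd (nat_lit 8) (.nd (nat_lit 9) 
(.lf (nat_lit 579724) (.g (nat_lit 2391) (.e (nat_lit 336337) (nat_lit 20) (.e (nat_lit 221219) (nat_lit 24) (.e (nat_lit 213030) (nat_lit 11) (.e (nat_lit 24617) (nat_lit 7) (.e (nat_lit 319531) (nat_lit 16) (.e (nat_lit 286743) (nat_lit 9) .nil)))))) (.g (nat_lit 1) (.e (nat_lit 376070) (nat_lit 0) .nil) .nil))) 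
(.lf (nat_lit 580236) (.g (nat_lit 750) (.e (nat_lit 336390) (nat_lit 27) (.e (nat_lit 426098) (nat_lit 1) (.e (nat_lit 164325) (nat_lit 230) .nil))) (.g (nat_lit 0) (.e (nat_lit 377019) (nat_lit 0) .nil) .nil)))) (.nd (nat_lit 9) 
(.lf (nat_lit 579980) (.g (nat_lit 2490) (.e (nat_lit 336389) (nat_lit 27) (.e (nat_lit 426107) (nat_lit 1) (.e (nat_lit 164327) (nat_lit 230) (.e (nat_lit 163873) (nat_lit 3) (.e (nat_lit 204813) (nat_lit 9) .nil))))) (.g (nat_lit 0) (.e (nat_lit 376616) (nat_lit 0) .nil) .nil))) 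
(.lf (nat_lit 580492) (.g (nat_lit 2326) (.e (nat_lit 336407) (nat_lit 27) (.e (nat_lit 426098) (nat_lit 1) (.e (nat_lit 164325) (nat_lit 230) (.e (nat_lit 163874) (nat_lit 3) (.e (nat_lit 204813) (nat_lit 9) .nil))))) (.g (nat_lit 0) (.e (nat_lit 377450) (nat_lit 0) .nil) .nil)))))) (.nd (nat_lit 7) (.nd (nat_lit 8) (.nd (nat_lit 9) 
(.lf (nat_lit 579660) (.g (nat_lit 1642) (.e (nat_lit 336326) (nat_lit 18) (.e (nat_lit 204882) (nat_lit 32) (.e (nat_lit 385066) (nat_lit 26) (.e (nat_lit 532528) (nat_lit 9) .nil)))) (.g (nat_lit 0) (.e (nat_lit 375067) (nat_lit 0) .nil) .nil))) 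
(.lf (nat_lit 580172) (.g (nat_lit 1660) (.e (nat_lit 336388) (nat_lit 27) (.e (nat_lit 426108) (nat_lit 1) (.e (nat_lit 164329) (nat_lit 230) (.e (nat_lit 163873) (nat_lit 3) (.e (nat_lit 204813) (nat_lit 9) .nil))))) (.g (nat_lit 0) (.e (nat_lit 376943) (nat_lit 0) .nil) .nil)))) (.nd (nat_lit 9) 
(.lf (nat_lit 579916) (.g (nat_lit 2066) (.e (nat_lit 336386) (nat_lit 27) (.e (nat_lit 426011) (nat_lit 0) (.e (nat_lit 7593) (nat_lit 407) (.e (nat_lit 73775) (nat_lit 26) .nil)))) (.g (nat_lit 0) (.e (nat_lit 376549) (nat_lit 0) .nil) .nil))) 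
(.lf (nat_lit 580428) (.g (nat_lit 1505) (.e (nat_lit 336408) (nat_lit 27) (.e (nat_lit 426306) (nat_lit 12) (.e (nat_lit 475177) (nat_lit 24) (.e (nat_lit 516120) (nat_lit 1) (.e (nat_lit 164330) (nat_lit 230) .nil))))) (.g (nat_lit 0) (.e (nat_lit 377382) (nat_lit 0) .nil) .nil))))) (.nd (nat_lit 8) (.nd (nat_lit 9) 
(.lf (nat_lit 579788) (.g (nat_lit 1975) (.e (nat_lit 336369) (nat_lit 27) (.e (nat_lit 426109) (nat_lit 1) (.e (nat_lit 164322) (nat_lit 230) (.e (nat_lit 163868) (nat_lit 2) (.e (nat_lit 196656) (nat_lit 11) .nil))))) (.g (nat_lit 0) (.e (nat_lit 376359) (nat_lit 0) .nil) .nil))) 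
(.lf (nat_lit 580300) (.g (nat_lit 1674) (.e (nat_lit 336395) (nat_lit 27) (.e (nat_lit 426340) (nat_lit 14) (.e (nat_lit 491571) (nat_lit 13) (.e (nat_lit 393235) (nat_lit 17) (.e (nat_lit 7519) (nat_lit 402) .nil))))) (.g (nat_lit 0) (.e (nat_lit 377140) (nat_lit 0) .nil) .nil)))) (.nd (nat_lit 9) 
(.lf (nat_lit 580044) (.g (nat_lit 2227) (.e (nat_lit 336387) (nat_lit 27) (.e (nat_lit 426107) (nat_lit 1) (.e (nat_lit 164325) (nat_lit 230) (.e (nat_lit 163874) (nat_lit 3) (.e (nat_lit 204811) (nat_lit 9) (.e (nat_lit 426259) (nat_lit 9) (.e (nat_lit 426503) (nat_lit 27) .nil))))))) (.g (nat_lit 1) (.e (nat_lit 376705) (nat_lit 0) .nil) .nil))) 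
(.lf (nat_lit 580556) (.g (nat_lit 2150) (.e (nat_lit 336407) (nat_lit 27) (.e (nat_lit 426344) (nat_lit 14) (.e (nat_lit 491560) (nat_lit 10) (.e (nat_lit 344090) (nat_lit 18) (.e (nat_lit 7265) (nat_lit 384) .nil))))) (.g (nat_lit 0) (.e (nat_lit 377517) (nat_lit 0) .nil) .nil))))))) (.nd (nat_lit 6) (.nd (nat_lit 7) (.nd (nat_lit 8) (.nd (nat_lit 9) 
(.lf (nat_lit 579628) (.g (nat_lit 2393) (.e (nat_lit 336326) (nat_lit 18) (.e (nat_lit 204864) (nat_lit 27) (.e (nat_lit 344133) (nat_lit 26) (.e (nat_lit 557098) (nat_lit 13) (.e (nat_lit 172127) (nat_lit 15) .nil))))) (.g (nat_lit 0) (.e (nat_lit 375002) (nat_lit 0) .nil) .nil))) 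
(.lf (nat_lit 580140) (.g (nat_lit 2383) (.e (nat_lit 336388) (nat_lit 27) (.e (nat_lit 426098) (nat_lit 1) (.e (nat_lit 164327) (nat_lit 230) (.e (nat_lit 163868) (nat_lit 2) (.e (nat_lit 196656) (nat_lit 11) .nil))))) (.g (nat_lit 0) (.e (nat_lit 376908) (nat_lit 0) .nil) .nil)))) (.nd (nat_lit 9) 
(.lf (nat_lit 579884) (.g (nat_lit 2965) (.e (nat_lit 336385) (nat_lit 27) (.e (nat_lit 426188) (nat_lit 9) (.e (nat_lit 426436) (nat_lit 18) (.e (nat_lit 98335) (nat_lit 18) (.e (nat_lit 164330) (nat_lit 230) (.e (nat_lit 163905) (nat_lit 12) (.e (nat_lit 426481) (nat_lit 27) .nil))))))) (.g (nat_lit 1) (.e (nat_lit 376511) (nat_lit 0) .nil) .nil))) 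
(.lf (nat_lit 580396) (.g (nat_lit 2145) (.e (nat_lit 336406) (nat_lit 27) (.e (nat_lit 426306) (nat_lit 12) (.e (nat_lit 475179) (nat_lit 24) (.e (nat_lit 516117) (nat_lit 1) (.e (nat_lit 164332) (nat_lit 230) (.e (nat_lit 163905) (nat_lit 12) (.e (nat_lit 426491) (nat_lit 27) .nil))))))) (.g (nat_lit 1) (.e (nat_lit 377326) (nat_lit 0) .nil) .nil))))) (.nd (nat_lit 8) (.nd (nat_lit 9) 
(.lf (nat_lit 579756) (.g (nat_lit 1679) (.e (nat_lit 336367) (nat_lit 27) (.e (nat_lit 426482) (nat_lit 27) (.e (nat_lit 336089) (nat_lit 9) (.e (nat_lit 336326) (nat_lit 18) (.e (nat_lit 204829) (nat_lit 18) .nil))))) (.g (nat_lit 0) (.e (nat_lit 376310) (nat_lit 0) .nil) .nil))) 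
(.lf (nat_lit 580268) (.g (nat_lit 3377) (.e (nat_lit 336398) (nat_lit 27) (.e (nat_lit 426290) (nat_lit 10) (.e (nat_lit 434231) (nat_lit 23) (.e (nat_lit 532579) (nat_lit 26) (.e (nat_lit 426098) (nat_lit 1) (.e (nat_lit 164398) (nat_lit 256) (.e (nat_lit 57410) (nat_lit 12) .nil))))))) (.g (nat_lit 1) (.e (nat_lit 377094) (nat_lit 0) .nil) .nil)))) (.nd (nat_lit 9) 
(.lf (nat_lit 580012) (.g (nat_lit 2628) (.e (nat_lit 336389) (nat_lit 27) (.e (nat_lit 426338) (nat_lit 14) (.e (nat_lit 491571) (nat_lit 13) (.e (nat_lit 393299) (nat_lit 27) (.e (nat_lit 491552) (nat_lit 9) .nil))))) (.g (nat_lit 1) (.e (nat_lit 376648) (nat_lit 0) .nil) .nil))) 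
(.lf (nat_lit 580524) (.g (nat_lit 3094) (.e (nat_lit 336407) (nat_lit 27) (.e (nat_lit 426187) (nat_lit 9) (.e (nat_lit 426436) (nat_lit 18) (.e (nat_lit 98335) (nat_lit 18) (.e (nat_lit 164332) (nat_lit 230) (.e (nat_lit 163905) (nat_lit 12) (.e (nat_lit 426487) (nat_lit 27) .nil))))))) (.g (nat_lit 1) (.e (nat_lit 377483) (nat_lit 0) .nil) .nil)))))) 
(.nd (nat_lit 7) (.nd (nat_lit 8) (.nd (nat_lit 9) 
(.lf (nat_lit 579692) (.g (nat_lit 1015) (.e (nat_lit 343808) (nat_lit 18) (.e (nat_lit 204861) (nat_lit 26) (.e (nat_lit 336213) (nat_lit 13) (.e (nat_lit 393251) (nat_lit 18) .nil)))) (.g (nat_lit 0) (.e (nat_lit 375114) (nat_lit 0) .nil) .nil))) 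
(.lf (nat_lit 580204) (.g (nat_lit 1391) (.e (nat_lit 336388) (nat_lit 27) (.e (nat_lit 426200) (nat_lit 9) (.e (nat_lit 426131) (nat_lit 3) (.e (nat_lit 204831) (nat_lit 18) .nil)))) (.g (nat_lit 0) (.e (nat_lit 376979) (nat_lit 0) .nil) .nil)))) (.nd (nat_lit 9) 
(.lf (nat_lit 579948) (.g (nat_lit 3825) (.e (nat_lit 336386) (nat_lit 27) (.e (nat_lit 426343) (nat_lit 14) (.e (nat_lit 491560) (nat_lit 10) (.e (nat_lit 344177) (nat_lit 43) (.e (nat_lit 770072) (nat_lit 8) .nil))))) (.g (nat_lit 0) (.e (nat_lit 376583) (nat_lit 0) .nil) .nil))) 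
(.lf (nat_lit 580460) (.g (nat_lit 1852) (.e (nat_lit 336409) (nat_lit 27) (.e (nat_lit 426188) (nat_lit 9) (.e (nat_lit 426436) (nat_lit 18) (.e (nat_lit 98335) (nat_lit 18) (.e (nat_lit 164330) (nat_lit 230) (.e (nat_lit 163900) (nat_lit 12) (.e (nat_lit 426491) (nat_lit 27) .nil))))))) (.g (nat_lit 1) (.e (nat_lit 377417) (nat_lit 0) .nil) .nil))))) (.nd (nat_lit 8) (.nd (nat_lit 9) 
(.lf (nat_lit 579820) (.g (nat_lit 1984) (.e (nat_lit 336383) (nat_lit 27) (.e (nat_lit 426098) (nat_lit 1) (.e (nat_lit 164327) (nat_lit 230) (.e (nat_lit 163871) (nat_lit 2) (.e (nat_lit 196654) (nat_lit 11) .nil))))) (.g (nat_lit 0) (.e (nat_lit 376422) (nat_lit 0) .nil) .nil))) 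
(.lf (nat_lit 580332) (.g (nat_lit 637) (.e (nat_lit 336400) (nat_lit 27) (.e (nat_lit 426011) (nat_lit 0) (.e (nat_lit 7591) (nat_lit 407) .nil))) (.g (nat_lit 0) (.e (nat_lit 377224) (nat_lit 0) .nil) .nil)))) (.nd (nat_lit 9) 
(.lf (nat_lit 580076) (.g (nat_lit 1761) (.e (nat_lit 336387) (nat_lit 27) (.e (nat_lit 426108) (nat_lit 1) (.e (nat_lit 164330) (nat_lit 230) (.e (nat_lit 163874) (nat_lit 3) .nil)))) (.g (nat_lit 0) (.e (nat_lit 376780) (nat_lit 0) .nil) .nil))) 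
(.lf (nat_lit 580588) (.g (nat_lit 1345) (.e (nat_lit 336412) (nat_lit 27) (.e (nat_lit 426343) (nat_lit 14) (.e (nat_lit 491558) (nat_lit 10) (.e (nat_lit 344174) (nat_lit 42) (.e (nat_lit 761867) (nat_lit 5) .nil))))) (.g (nat_lit 0) (.e (nat_lit 377562) (nat_lit 0) .nil) .nil)))))))) (.nd (nat_lit 5) (.nd (nat_lit 6) (.nd (nat_lit 7) (.nd (nat_lit 8) (.nd (nat_lit 9) 
(.lf (nat_lit 579612) (.g (nat_lit 2250) (.e (nat_lit 336326) (nat_lit 18) (.e (nat_lit 204863) (nat_lit 27) (.e (nat_lit 344132) (nat_lit 26) (.e (nat_lit 557101) (nat_lit 13) (.e (nat_lit 172064) (nat_lit 2) .nil))))) (.g (nat_lit 0) (.e (nat_lit 374983) (nat_lit 0) .nil) .nil))) 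
(.lf (nat_lit 580124) (.g (nat_lit 2300) (.e (nat_lit 336387) (nat_lit 27) (.e (nat_lit 426316) (nat_lit 12) (.e (nat_lit 475185) (nat_lit 29) (.e (nat_lit 557091) (nat_lit 12) (.e (nat_lit 164030) (nat_lit 53) (.e (nat_lit 761905) (nat_lit 16) (.e (nat_lit 179968) (nat_lit 27) .nil))))))) (.g (nat_lit 1) (.e (nat_lit 376886) (nat_lit 0) .nil) .nil)))) (.nd (nat_lit 9) 
(.lf (nat_lit 579868) (.g (nat_lit 1803) (.e (nat_lit 336385) (nat_lit 27) (.e (nat_lit 426108) (nat_lit 1) (.e (nat_lit 164332) (nat_lit 230) (.e (nat_lit 163869) (nat_lit 2) .nil)))) (.g (nat_lit 0) (.e (nat_lit 376489) (nat_lit 0) .nil) .nil))) 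
(.lf (nat_lit 580380) (.g (nat_lit 2288) (.e (nat_lit 336406) (nat_lit 27) (.e (nat_lit 426100) (nat_lit 1) (.e (nat_lit 164332) (nat_lit 230) (.e (nat_lit 163869) (nat_lit 2) (.e (nat_lit 196656) (nat_lit 11) .nil))))) (.g (nat_lit 0) (.e (nat_lit 377309) (nat_lit 0) .nil) .nil))))) (.nd (nat_lit 8) (.nd (nat_lit 9) 
(.lf (nat_lit 579740) (.g (nat_lit 2103) (.e (nat_lit 336366) (nat_lit 27) (.e (nat_lit 426340) (nat_lit 14) (.e (nat_lit 491571) (nat_lit 13) (.e (nat_lit 393299) (nat_lit 27) (.e (nat_lit 491547) (nat_lit 9) .nil))))) (.g (nat_lit 0) (.e (nat_lit 376277) (nat_lit 0) .nil) .nil))) 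
(.lf (nat_lit 580252) (.g (nat_lit 647) (.e (nat_lit 336390) (nat_lit 27) (.e (nat_lit 426341) (nat_lit 14) (.e (nat_lit 491552) (nat_lit 9) .nil))) (.g (nat_lit 0) (.e (nat_lit 377067) (nat_lit 0) .nil) .nil)))) (.nd (nat_lit 9) 
(.lf (nat_lit 579996) (.g (nat_lit 4216) (.e (nat_lit 336389) (nat_lit 27) (.e (nat_lit 426308) (nat_lit 12) (.e (nat_lit 475177) (nat_lit 24) (.e (nat_lit 516117) (nat_lit 1) (.e (nat_lit 164330) (nat_lit 230) (.e (nat_lit 163902) (nat_lit 12) (.e (nat_lit 426481) (nat_lit 27) .nil))))))) (.g (nat_lit 1) (.e (nat_lit 376632) (nat_lit 0) .nil) .nil))) 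
(.lf (nat_lit 580508) (.g (nat_lit 882) (.e (nat_lit 336407) (nat_lit 27) (.e (nat_lit 426107) (nat_lit 1) (.e (nat_lit 164326) (nat_lit 230) .nil))) (.g (nat_lit 0) (.e (nat_lit 377467) (nat_lit 0) .nil) .nil)))))) (.nd (nat_lit 7) (.nd (nat_lit 8) (.nd (nat_lit 9) 
(.lf (nat_lit 579676) (.g (nat_lit 3413) (.e (nat_lit 336326) (nat_lit 18) (.e (nat_lit 204882) (nat_lit 32) (.e (nat_lit 385068) (nat_lit 26) (.e (nat_lit 532563) (nat_lit 15) (.e (nat_lit 385066) (nat_lit 26) (.e (nat_lit 532534) (nat_lit 9) .nil)))))) (.g (nat_lit 1) (.e (nat_lit 375084) (nat_lit 0) .nil) .nil))) 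
(.lf (nat_lit 580188) (.g (nat_lit 3026) (.e (nat_lit 336388) (nat_lit 27) (.e (nat_lit 426187) (nat_lit 9) (.e (nat_lit 426436) (nat_lit 18) (.e (nat_lit 98335) (nat_lit 18) (.e (nat_lit 164325) (nat_lit 230) (.e (nat_lit 163907) (nat_lit 12) (.e (nat_lit 426481) (nat_lit 27) .nil))))))) (.g (nat_lit 1) (.e (nat_lit 376962) (nat_lit 0) .nil) .nil)))) (.nd (nat_lit 9) 
(.lf (nat_lit 579932) (.g (nat_lit 2999) (.e (nat_lit 336386) (nat_lit 27) (.e (nat_lit 426187) (nat_lit 9) (.e (nat_lit 426436) (nat_lit 18) (.e (nat_lit 98335) (nat_lit 18) (.e (nat_lit 164332) (nat_lit 230) (.e (nat_lit 163902) (nat_lit 12) (.e (nat_lit 426478) (nat_lit 27) .nil))))))) (.g (nat_lit 1) (.e (nat_lit 376566) (nat_lit 0) .nil) .nil))) 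
(.lf (nat_lit 580444) (.g (nat_lit 1891) (.e (nat_lit 336409) (nat_lit 27) (.e (nat_lit 426100) (nat_lit 1) (.e (nat_lit 164332) (nat_lit 230) (.e (nat_lit 163867) (nat_lit 2) (.e (nat_lit 196656) (nat_lit 11) .nil))))) (.g (nat_lit 0) (.e (nat_lit 377400) (nat_lit 0) .nil) .nil))))) (.nd (nat_lit 8) (.nd (nat_lit 9) 
(.lf (nat_lit 579804) (.g (nat_lit 649) (.e (nat_lit 336372) (nat_lit 27) (.e (nat_lit 426555) (nat_lit 32) (.e (nat_lit 376869) (nat_lit 23) .nil))) (.g (nat_lit 0) (.e (nat_lit 376395) (nat_lit 0) .nil) .nil))) 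
(.lf (nat_lit 580316) (.g (nat_lit 1971) (.e (nat_lit 336416) (nat_lit 27) (.e (nat_lit 426188) (nat_lit 9) (.e (nat_lit 426436) (nat_lit 18) (.e (nat_lit 98335) (nat_lit 18) (.e (nat_lit 164325) (nat_lit 230) (.e (nat_lit 163903) (nat_lit 12) (.e (nat_lit 426479) (nat_lit 27) .nil))))))) (.g (nat_lit 1) (.e (nat_lit 377164) (nat_lit 0) .nil) .nil)))) (.nd (nat_lit 9) 
(.lf (nat_lit 580060) (.g (nat_lit 465) (.e (nat_lit 336387) (nat_lit 27) (.e (nat_lit 426107) (nat_lit 1) (.e (nat_lit 164327) (nat_lit 230) .nil))) (.g (nat_lit 0) (.e (nat_lit 376731) (nat_lit 0) .nil) .nil))) 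
(.lf (nat_lit 580572) (.g (nat_lit 1631) (.e (nat_lit 336412) (nat_lit 27) (.e (nat_lit 426100) (nat_lit 1) (.e (nat_lit 164332) (nat_lit 230) (.e (nat_lit 163869) (nat_lit 2) .nil)))) (.g (nat_lit 0) (.e (nat_lit 377537) (nat_lit 0) .nil) .nil))))))) (.nd (nat_lit 6) (.nd (nat_lit 7) (.nd (nat_lit 8) (.nd (nat_lit 9) 
(.lf (nat_lit 579644) (.g (nat_lit 386) (.e (nat_lit 336326) (nat_lit 18) (.e (nat_lit 204880) (nat_lit 32) (.e (nat_lit 385066) (nat_lit 26) .nil))) (.g (nat_lit 0) (.e (nat_lit 375043) (nat_lit 0) .nil) .nil))) 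
(.lf (nat_lit 580156) (.g (nat_lit 1505) (.e (nat_lit 336388) (nat_lit 27) (.e (nat_lit 426107) (nat_lit 1) (.e (nat_lit 164326) (nat_lit 230) (.e (nat_lit 163868) (nat_lit 2) (.e (nat_lit 196655) (nat_lit 11) .nil))))) (.g (nat_lit 0) (.e (nat_lit 376925) (nat_lit 0) .nil) .nil)))) (.nd (nat_lit 9) 
(.lf (nat_lit 579900) (.g (nat_lit 1958) (.e (nat_lit 336385) (nat_lit 27) (.e (nat_lit 426306) (nat_lit 12) (.e (nat_lit 475179) (nat_lit 24) (.e (nat_lit 516119) (nat_lit 1) (.e (nat_lit 164325) (nat_lit 230) .nil))))) (.g (nat_lit 0) (.e (nat_lit 376533) (nat_lit 0) .nil) .nil))) 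
(.lf (nat_lit 580412) (.g (nat_lit 853) (.e (nat_lit 336408) (nat_lit 27) (.e (nat_lit 426188) (nat_lit 9) (.e (nat_lit 426432) (nat_lit 17) (.e (nat_lit 90203) (nat_lit 21) .nil)))) (.g (nat_lit 0) (.e (nat_lit 377359) (nat_lit 0) .nil) .nil))))) (.nd (nat_lit 8) (.nd (nat_lit 9) 
(.lf (nat_lit 579772) (.g (nat_lit 2216) (.e (nat_lit 336370) (nat_lit 27) (.e (nat_lit 426317) (nat_lit 12) (.e (nat_lit 475179) (nat_lit 24) (.e (nat_lit 516119) (nat_lit 1) (.e (nat_lit 164325) (nat_lit 230) .nil))))) (.g (nat_lit 0) (.e (nat_lit 376337) (nat_lit 0) .nil) .nil))) 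
(.lf (nat_lit 580284) (.g (nat_lit 1241) (.e (nat_lit 336395) (nat_lit 27) (.e (nat_lit 426201) (nat_lit 9) (.e (nat_lit 426438) (nat_lit 18) (.e (nat_lit 98334) (nat_lit 18) (.e (nat_lit 164332) (nat_lit 230) .nil))))) (.g (nat_lit 0) (.e (nat_lit 377121) (nat_lit 0) .nil) .nil)))) (.nd (nat_lit 9) 
(.lf (nat_lit 580028) (.g (nat_lit 1182) (.e (nat_lit 336387) (nat_lit 27) (.e (nat_lit 426100) (nat_lit 1) (.e (nat_lit 164332) (nat_lit 230) (.e (nat_lit 163874) (nat_lit 3) (.e (nat_lit 204811) (nat_lit 9) .nil))))) (.g (nat_lit 0) (.e (nat_lit 376676) (nat_lit 0) .nil) .nil))) 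
(.lf (nat_lit 580540) (.g (nat_lit 2897) (.e (nat_lit 336407) (nat_lit 27) (.e (nat_lit 426306) (nat_lit 12) (.e (nat_lit 475177) (nat_lit 24) (.e (nat_lit 516117) (nat_lit 1) (.e (nat_lit 164330) (nat_lit 230) (.e (nat_lit 163905) (nat_lit 12) (.e (nat_lit 426489) (nat_lit 27) .nil))))))) (.g (nat_lit 1) (.e (nat_lit 377501) (nat_lit 0) .nil) .nil)))))) 
(.nd (nat_lit 7) (.nd (nat_lit 8) (.nd (nat_lit 9) 
(.lf (nat_lit 579708) (.g (nat_lit 1270) (.e (nat_lit 343808) (nat_lit 18) (.e (nat_lit 204863) (nat_lit 27) (.e (nat_lit 344133) (nat_lit 26) (.e (nat_lit 557098) (nat_lit 13) .nil)))) (.g (nat_lit 0) (.e (nat_lit 375130) (nat_lit 0) .nil) .nil))) 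
(.lf (nat_lit 580220) (.g (nat_lit 1586) (.e (nat_lit 336388) (nat_lit 27) (.e (nat_lit 426316) (nat_lit 12) (.e (nat_lit 475177) (nat_lit 24) (.e (nat_lit 516117) (nat_lit 1) .nil)))) (.g (nat_lit 0) (.e (nat_lit 376996) (nat_lit 0) .nil) .nil)))) (.nd (nat_lit 9) 
(.lf (nat_lit 579964) (.g (nat_lit 5234) (.e (nat_lit 336389) (nat_lit 27) (.e (nat_lit 426098) (nat_lit 1) (.e (nat_lit 164327) (nat_lit 230) (.e (nat_lit 163871) (nat_lit 2) (.e (nat_lit 196654) (nat_lit 11) (.e (nat_lit 16438) (nat_lit 9) (.e (nat_lit 426482) (nat_lit 27) .nil))))))) (.g (nat_lit 1) (.e (nat_lit 376600) (nat_lit 0) .nil) .nil))) 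
(.lf (nat_lit 580476) (.g (nat_lit 980) (.e (nat_lit 336407) (nat_lit 27) (.e (nat_lit 426010) (nat_lit 0) (.e (nat_lit 7593) (nat_lit 407) (.e (nat_lit 73775) (nat_lit 26) (.e (nat_lit 778466) (nat_lit 11) .nil))))) (.g (nat_lit 0) (.e (nat_lit 377433) (nat_lit 0) .nil) .nil))))) (.nd (nat_lit 8) (.nd (nat_lit 9) 
(.lf (nat_lit 579836) (.g (nat_lit 1211) (.e (nat_lit 336385) (nat_lit 27) (.e (nat_lit 426100) (nat_lit 1) (.e (nat_lit 164332) (nat_lit 230) (.e (nat_lit 163867) (nat_lit 2) .nil)))) (.g (nat_lit 0) (.e (nat_lit 376445) (nat_lit 0) .nil) .nil))) 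
(.lf (nat_lit 580348) (.g (nat_lit 1801) (.e (nat_lit 336405) (nat_lit 27) (.e (nat_lit 426107) (nat_lit 1) (.e (nat_lit 164327) (nat_lit 230) (.e (nat_lit 163868) (nat_lit 2) .nil)))) (.g (nat_lit 0) (.e (nat_lit 377255) (nat_lit 0) .nil) .nil)))) (.nd (nat_lit 9) 
(.lf (nat_lit 580092) (.g (nat_lit 2741) (.e (nat_lit 336387) (nat_lit 27) (.e (nat_lit 426188) (nat_lit 9) (.e (nat_lit 426436) (nat_lit 18) (.e (nat_lit 98335) (nat_lit 18) (.e (nat_lit 164330) (nat_lit 230) (.e (nat_lit 163908) (nat_lit 12) (.e (nat_lit 426528) (nat_lit 27) .nil))))))) (.g (nat_lit 1) (.e (nat_lit 376806) (nat_lit 0) .nil) .nil))) 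
(.lf (nat_lit 580604) (.g (nat_lit 2153) (.e (nat_lit 336413) (nat_lit 27) (.e (nat_lit 426343) (nat_lit 14) (.e (nat_lit 491560) (nat_lit 10) (.e (nat_lit 344179) (nat_lit 44) .nil)))) (.g (nat_lit 0) (.e (nat_lit 377583) (nat_lit 0) .nil) .nil))))))))))) (.nd (nat_lit 2) (.nd (nat_lit 3) (.nd (nat_lit 4) (.nd (nat_lit 5) (.nd (nat_lit 6) (.nd (nat_lit 7) (.nd (nat_lit 8) (.nd (nat_lit 9) 
(.lf (nat_lit 579586) (.g (nat_lit 1521) (.e (nat_lit 336326) (nat_lit 18) (.e (nat_lit 204863) (nat_lit 27) (.e (nat_lit 344129) (nat_lit 26) (.e (nat_lit 557096) (nat_lit 13) .nil)))) (.g (nat_lit 0) (.e (nat_lit 374954) (nat_lit 0) .nil) .nil))) 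
(.lf (nat_lit 580098) (.g (nat_lit 510) (.e (nat_lit 336387) (nat_lit 27) (.e (nat_lit 426200) (nat_lit 9) (.e (nat_lit 426131) (nat_lit 3) .nil))) (.g (nat_lit 0) (.e (nat_lit 376820) (nat_lit 0) .nil) .nil)))) (.nd (nat_lit 9) 
(.lf (nat_lit 579842) (.g (nat_lit 2134) (.e (nat_lit 336385) (nat_lit 27) (.e (nat_lit 426107) (nat_lit 1) (.e (nat_lit 164325) (nat_lit 230) (.e (nat_lit 163866) (nat_lit 2) .nil)))) (.g (nat_lit 0) (.e (nat_lit 376453) (nat_lit 0) .nil) .nil))) 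
(.lf (nat_lit 580354) (.g (nat_lit 1991) (.e (nat_lit 336405) (nat_lit 27) (.e (nat_lit 426188) (nat_lit 9) (.e (nat_lit 426436) (nat_lit 18) (.e (nat_lit 98335) (nat_lit 18) (.e (nat_lit 164330) (nat_lit 230) (.e (nat_lit 163905) (nat_lit 12) (.e (nat_lit 426491) (nat_lit 27) .nil))))))) (.g (nat_lit 1) (.e (nat_lit 377268) (nat_lit 0) .nil) .nil))))) (.nd (nat_lit 8) (.nd (nat_lit 9) 
(.lf (nat_lit 579714) (.g (nat_lit 1478) (.e (nat_lit 336334) (nat_lit 20) (.e (nat_lit 229120) (nat_lit 2) (.e (nat_lit 90160) (nat_lit 11) (.e (nat_lit 24657) (nat_lit 13) (.e (nat_lit 401152) (nat_lit 9) .nil))))) (.g (nat_lit 1) (.e (nat_lit 375277) (nat_lit 0) .nil) .nil))) 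
(.lf (nat_lit 580226) (.g (nat_lit 3919) (.e (nat_lit 336388) (nat_lit 27) (.e (nat_lit 426343) (nat_lit 14) (.e (nat_lit 491560) (nat_lit 10) (.e (nat_lit 344177) (nat_lit 43) (.e (nat_lit 770072) (nat_lit 8) .nil))))) (.g (nat_lit 0) (.e (nat_lit 377003) (nat_lit 0) .nil) .nil)))) (.nd (nat_lit 9) 
(.lf (nat_lit 579970) (.g (nat_lit 1468) (.e (nat_lit 336389) (nat_lit 27) (.e (nat_lit 426098) (nat_lit 1) (.e (nat_lit 164332) (nat_lit 230) (.e (nat_lit 163867) (nat_lit 2) .nil)))) (.g (nat_lit 0) (.e (nat_lit 376606) (nat_lit 0) .nil) .nil))) 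
(.lf (nat_lit 580482) (.g (nat_lit 1990) (.e (nat_lit 336407) (nat_lit 27) (.e (nat_lit 426012) (nat_lit 0) (.e (nat_lit 7593) (nat_lit 407) (.e (nat_lit 73775) (nat_lit 26) (.e (nat_lit 778466) (nat_lit 11) (.e (nat_lit 24636) (nat_lit 9) .nil)))))) (.g (nat_lit 1) (.e (nat_lit 377439) (nat_lit 0) .nil) .nil)))))) (.nd (nat_lit 7) (.nd (nat_lit 8) (.nd (nat_lit 9) 
(.lf (nat_lit 579650) (.g (nat_lit 1514) (.e (nat_lit 336326) (nat_lit 18) (.e (nat_lit 204880) (nat_lit 32) (.e (nat_lit 385066) (nat_lit 26) (.e (nat_lit 532533) (nat_lit 9) (.e (nat_lit 336325) (nat_lit 18) .nil))))) (.g (nat_lit 0) (.e (nat_lit 375049) (nat_lit 0) .nil) .nil))) 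
(.lf (nat_lit 580162) (.g (nat_lit 2660) (.e (nat_lit 336388) (nat_lit 27) (.e (nat_lit 426107) (nat_lit 1) (.e (nat_lit 164327) (nat_lit 230) (.e (nat_lit 163868) (nat_lit 2) (.e (nat_lit 196656) (nat_lit 11) .nil))))) (.g (nat_lit 0) (.e (nat_lit 376931) (nat_lit 0) .nil) .nil)))) (.nd (nat_lit 9) 
(.lf (nat_lit 579906) (.g (nat_lit 2201) (.e (nat_lit 336385) (nat_lit 27) (.e (nat_lit 426316) (nat_lit 12) (.e (nat_lit 475179) (nat_lit 24) (.e (nat_lit 516119) (nat_lit 1) (.e (nat_lit 164325) (nat_lit 230) .nil))))) (.g (nat_lit 0) (.e (nat_lit 376539) (nat_lit 0) .nil) .nil))) 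
(.lf (nat_lit 580418) (.g (nat_lit 1618) (.e (nat_lit 336408) (nat_lit 27) (.e (nat_lit 426200) (nat_lit 9) (.e (nat_lit 426131) (nat_lit 3) (.e (nat_lit 204817) (nat_lit 17) (.e (nat_lit 7936) (nat_lit 149) .nil))))) (.g (nat_lit 0) (.e (nat_lit 377368) (nat_lit 0) .nil) .nil))))) (.nd (nat_lit 8) (.nd (nat_lit 9) 
(.lf (nat_lit 579778) (.g (nat_lit 1254) (.e (nat_lit 336370) (nat_lit 27) (.e (nat_lit 426340) (nat_lit 14) (.e (nat_lit 491571) (nat_lit 13) (.e (nat_lit 393235) (nat_lit 17) .nil)))) (.g (nat_lit 0) (.e (nat_lit 376344) (nat_lit 0) .nil) .nil))) 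
(.lf (nat_lit 580290) (.g (nat_lit 2428) (.e (nat_lit 336395) (nat_lit 27) (.e (nat_lit 426338) (nat_lit 14) (.e (nat_lit 491571) (nat_lit 13) (.e (nat_lit 393298) (nat_lit 27) (.e (nat_lit 491547) (nat_lit 9) .nil))))) (.g (nat_lit 0) (.e (nat_lit 377129) (nat_lit 0) .nil) .nil)))) (.nd (nat_lit 9) 
(.lf (nat_lit 580034) (.g (nat_lit 746) (.e (nat_lit 336387) (nat_lit 27) (.e (nat_lit 426107) (nat_lit 1) (.e (nat_lit 164324) (nat_lit 230) .nil))) (.g (nat_lit 0) (.e (nat_lit 376693) (nat_lit 0) .nil) .nil))) 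
(.lf (nat_lit 580546) (.g (nat_lit 2543) (.e (nat_lit 336407) (nat_lit 27) (.e (nat_lit 426308) (nat_lit 12) (.e (nat_lit 475177) (nat_lit 24) (.e (nat_lit 516120) (nat_lit 1) (.e (nat_lit 164330) (nat_lit 230) (.e (nat_lit 163905) (nat_lit 12) (.e (nat_lit 426489) (nat_lit 27) .nil))))))) (.g (nat_lit 1) (.e (nat_lit 377507) (nat_lit 0) .nil) .nil))))))) 
(.nd (nat_lit 6) (.nd (nat_lit 7) (.nd (nat_lit 8) (.nd (nat_lit 9) 
(.lf (nat_lit 579618) (.g (nat_lit 2704) (.e (nat_lit 336326) (nat_lit 18) (.e (nat_lit 204863) (nat_lit 27) (.e (nat_lit 344133) (nat_lit 26) (.e (nat_lit 557098) (nat_lit 13) (.e (nat_lit 172127) (nat_lit 15) .nil))))) (.g (nat_lit 0) (.e (nat_lit 374992) (nat_lit 0) .nil) .nil))) 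
(.lf (nat_lit 580130) (.g (nat_lit 3803) (.e (nat_lit 336387) (nat_lit 27) (.e (nat_lit 426316) (nat_lit 12) (.e (nat_lit 475185) (nat_lit 29) (.e (nat_lit 557094) (nat_lit 12) .nil)))) (.g (nat_lit 0) (.e (nat_lit 376896) (nat_lit 0) .nil) .nil)))) (.nd (nat_lit 9) 
(.lf (nat_lit 579874) (.g (nat_lit 3141) (.e (nat_lit 336385) (nat_lit 27) (.e (nat_lit 426187) (nat_lit 9) (.e (nat_lit 426436) (nat_lit 18) (.e (nat_lit 98335) (nat_lit 18) (.e (nat_lit 164327) (nat_lit 230) .nil))))) (.g (nat_lit 0) (.e (nat_lit 376497) (nat_lit 0) .nil) .nil))) 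
(.lf (nat_lit 580386) (.g (nat_lit 2090) (.e (nat_lit 336406) (nat_lit 27) (.e (nat_lit 426108) (nat_lit 1) (.e (nat_lit 164330) (nat_lit 230) (.e (nat_lit 163869) (nat_lit 2) .nil)))) (.g (nat_lit 0) (.e (nat_lit 377315) (nat_lit 0) .nil) .nil))))) (.nd (nat_lit 8) (.nd (nat_lit 9) 
(.lf (nat_lit 579746) (.g (nat_lit 2232) (.e (nat_lit 336367) (nat_lit 27) (.e (nat_lit 426320) (nat_lit 12) (.e (nat_lit 475179) (nat_lit 24) (.e (nat_lit 516120) (nat_lit 1) (.e (nat_lit 164332) (nat_lit 230) (.e (nat_lit 163902) (nat_lit 12) (.e (nat_lit 426479) (nat_lit 27) .nil))))))) (.g (nat_lit 1) (.e (nat_lit 376291) (nat_lit 0) .nil) .nil))) 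
(.lf (nat_lit 580258) (.g (nat_lit 3241) (.e (nat_lit 336390) (nat_lit 27) (.e (nat_lit 426344) (nat_lit 14) (.e (nat_lit 491560) (nat_lit 10) (.e (nat_lit 344179) (nat_lit 44) (.e (nat_lit 778466) (nat_lit 11) (.e (nat_lit 24636) (nat_lit 9) .nil)))))) (.g (nat_lit 1) (.e (nat_lit 377077) (nat_lit 0) .nil) .nil)))) (.nd (nat_lit 9) 
(.lf (nat_lit 580002) (.g (nat_lit 4154) (.e (nat_lit 336389) (nat_lit 27) (.e (nat_lit 426308) (nat_lit 12) (.e (nat_lit 475179) (nat_lit 24) (.e (nat_lit 516115) (nat_lit 1) (.e (nat_lit 164327) (nat_lit 230) (.e (nat_lit 163903) (nat_lit 12) (.e (nat_lit 426481) (nat_lit 27) .nil))))))) (.g (nat_lit 1) (.e (nat_lit 376638) (nat_lit 0) .nil) .nil))) 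
(.lf (nat_lit 580514) (.g (nat_lit 1808) (.e (nat_lit 336407) (nat_lit 27) (.e (nat_lit 426107) (nat_lit 1) (.e (nat_lit 164327) (nat_lit 230) (.e (nat_lit 163871) (nat_lit 2) .nil)))) (.g (nat_lit 0) (.e (nat_lit 377473) (nat_lit 0) .nil) .nil)))))) (.nd (nat_lit 7) (.nd (nat_lit 8) (.nd (nat_lit 9) 
(.lf (nat_lit 579682) (.g (nat_lit 1426) (.e (nat_lit 343808) (nat_lit 18) (.e (nat_lit 204830) (nat_lit 18) (.e (nat_lit 57854) (nat_lit 252) (.e (nat_lit 57445) (nat_lit 19) (.e (nat_lit 393227) (nat_lit 9) .nil))))) (.g (nat_lit 0) (.e (nat_lit 375090) (nat_lit 0) .nil) .nil))) 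
(.lf (nat_lit 580194) (.g (nat_lit 2992) (.e (nat_lit 336388) (nat_lit 27) (.e (nat_lit 426187) (nat_lit 9) (.e (nat_lit 426436) (nat_lit 18) (.e (nat_lit 98335) (nat_lit 18) (.e (nat_lit 164332) (nat_lit 230) (.e (nat_lit 163905) (nat_lit 12) (.e (nat_lit 426480) (nat_lit 27) .nil))))))) (.g (nat_lit 1) (.e (nat_lit 376968) (nat_lit 0) .nil) .nil)))) (.nd (nat_lit 9) 
(.lf (nat_lit 579938) (.g (nat_lit 2221) (.e (nat_lit 336386) (nat_lit 27) (.e (nat_lit 426306) (nat_lit 12) (.e (nat_lit 475177) (nat_lit 24) (.e (nat_lit 516115) (nat_lit 1) (.e (nat_lit 164325) (nat_lit 230) (.e (nat_lit 163907) (nat_lit 12) (.e (nat_lit 426481) (nat_lit 27) .nil))))))) (.g (nat_lit 1) (.e (nat_lit 376573) (nat_lit 0) .nil) .nil))) 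
(.lf (nat_lit 580450) (.g (nat_lit 1792) (.e (nat_lit 336409) (nat_lit 27) (.e (nat_lit 426107) (nat_lit 1) (.e (nat_lit 164326) (nat_lit 230) (.e (nat_lit 163873) (nat_lit 3) (.e (nat_lit 204813) (nat_lit 9) .nil))))) (.g (nat_lit 0) (.e (nat_lit 377407) (nat_lit 0) .nil) .nil))))) (.nd (nat_lit 8) (.nd (nat_lit 9) 
(.lf (nat_lit 579810) (.g (nat_lit 1521) (.e (nat_lit 336378) (nat_lit 27) (.e (nat_lit 426347) (nat_lit 14) (.e (nat_lit 491549) (nat_lit 9) (.e (nat_lit 336421) (nat_lit 28) (.e (nat_lit 434179) (nat_lit 0) (.e (nat_lit 1512) (nat_lit 108) .nil)))))) (.g (nat_lit 1) (.e (nat_lit 376405) (nat_lit 0) .nil) .nil))) 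
(.lf (nat_lit 580322) (.g (nat_lit 2288) (.e (nat_lit 336418) (nat_lit 27) (.e (nat_lit 426100) (nat_lit 1) (.e (nat_lit 164332) (nat_lit 230) (.e (nat_lit 163869) (nat_lit 2) (.e (nat_lit 196656) (nat_lit 11) .nil))))) (.g (nat_lit 0) (.e (nat_lit 377192) (nat_lit 0) .nil) .nil)))) (.nd (nat_lit 9) 
(.lf (nat_lit 580066) (.g (nat_lit 1168) (.e (nat_lit 336387) (nat_lit 27) (.e (nat_lit 426107) (nat_lit 1) (.e (nat_lit 164327) (nat_lit 230) (.e (nat_lit 163873) (nat_lit 3) .nil)))) (.g (nat_lit 0) (.e (nat_lit 376749) (nat_lit 0) .nil) .nil))) 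
(.lf (nat_lit 580578) (.g (nat_lit 3289) (.e (nat_lit 336412) (nat_lit 27) (.e (nat_lit 426188) (nat_lit 9) (.e (nat_lit 426436) (nat_lit 18) (.e (nat_lit 98335) (nat_lit 18) (.e (nat_lit 164330) (nat_lit 230) (.e (nat_lit 163905) (nat_lit 12) (.e (nat_lit 426509) (nat_lit 27) .nil))))))) (.g (nat_lit 1) (.e (nat_lit 377544) (nat_lit 0) .nil) .nil)))))))) 
(.nd (nat_lit 5) (.nd (nat_lit 6) (.nd (nat_lit 7) (.nd (nat_lit 8) (.nd (nat_lit 9) 
(.lf (nat_lit 579602) (.g (nat_lit 2651) (.e (nat_lit 336326) (nat_lit 18) (.e (nat_lit 204863) (nat_lit 27) (.e (nat_lit 344131) (nat_lit 26) (.e (nat_lit 557098) (nat_lit 13) (.e (nat_lit 172127) (nat_lit 15) .nil))))) (.g (nat_lit 0) (.e (nat_lit 374971) (nat_lit 0) .nil) .nil))) 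
(.lf (nat_lit 580114) (.g (nat_lit 2936) (.e (nat_lit 336387) (nat_lit 27) (.e (nat_lit 426316) (nat_lit 12) (.e (nat_lit 475177) (nat_lit 24) (.e (nat_lit 516117) (nat_lit 1) (.e (nat_lit 164330) (nat_lit 230) (.e (nat_lit 163908) (nat_lit 12) (.e (nat_lit 426528) (nat_lit 27) .nil))))))) (.g (nat_lit 1) (.e (nat_lit 376863) (nat_lit 0) .nil) .nil)))) (.nd (nat_lit 9) 
(.lf (nat_lit 579858) (.g (nat_lit 2553) (.e (nat_lit 336385) (nat_lit 27) (.e (nat_lit 426107) (nat_lit 1) (.e (nat_lit 164327) (nat_lit 230) (.e (nat_lit 163873) (nat_lit 3) (.e (nat_lit 204813) (nat_lit 9) (.e (nat_lit 426200) (nat_lit 9) (.e (nat_lit 426480) (nat_lit 27) .nil))))))) (.g (nat_lit 1) (.e (nat_lit 376473) (nat_lit 0) .nil) .nil))) 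
(.lf (nat_lit 580370) (.g (nat_lit 2664) (.e (nat_lit 336406) (nat_lit 27) (.e (nat_lit 426098) (nat_lit 1) (.e (nat_lit 164325) (nat_lit 230) (.e (nat_lit 163866) (nat_lit 2) (.e (nat_lit 196654) (nat_lit 11) .nil))))) (.g (nat_lit 0) (.e (nat_lit 377298) (nat_lit 0) .nil) .nil))))) (.nd (nat_lit 8) (.nd (nat_lit 9) 
(.lf (nat_lit 579730) (.g (nat_lit 2052) (.e (nat_lit 336360) (nat_lit 25) (.e (nat_lit 409649) (nat_lit 18) (.e (nat_lit 303140) (nat_lit 10) (.e (nat_lit 434199) (nat_lit 18) .nil)))) (.g (nat_lit 0) (.e (nat_lit 376258) (nat_lit 0) .nil) .nil))) 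
(.lf (nat_lit 580242) (.g (nat_lit 2098) (.e (nat_lit 336390) (nat_lit 27) (.e (nat_lit 426107) (nat_lit 1) (.e (nat_lit 164325) (nat_lit 230) (.e (nat_lit 163873) (nat_lit 3) .nil)))) (.g (nat_lit 0) (.e (nat_lit 377028) (nat_lit 0) .nil) .nil)))) (.nd (nat_lit 9) 
(.lf (nat_lit 579986) (.g (nat_lit 3686) (.e (nat_lit 336389) (nat_lit 27) (.e (nat_lit 426187) (nat_lit 9) (.e (nat_lit 426436) (nat_lit 18) (.e (nat_lit 98335) (nat_lit 18) (.e (nat_lit 164327) (nat_lit 230) (.e (nat_lit 163903) (nat_lit 12) (.e (nat_lit 426481) (nat_lit 27) .nil))))))) (.g (nat_lit 1) (.e (nat_lit 376622) (nat_lit 0) .nil) .nil))) 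
(.lf (nat_lit 580498) (.g (nat_lit 2533) (.e (nat_lit 336407) (nat_lit 27) (.e (nat_lit 426098) (nat_lit 1) (.e (nat_lit 164327) (nat_lit 230) (.e (nat_lit 163868) (nat_lit 2) (.e (nat_lit 196656) (nat_lit 11) (.e (nat_lit 16436) (nat_lit 9) (.e (nat_lit 426489) (nat_lit 27) .nil))))))) (.g (nat_lit 1) (.e (nat_lit 377456) (nat_lit 0) .nil) .nil)))))) 
(.nd (nat_lit 7) (.nd (nat_lit 8) (.nd (nat_lit 9) 
(.lf (nat_lit 579666) (.g (nat_lit 2477) (.e (nat_lit 336326) (nat_lit 18) (.e (nat_lit 204882) (nat_lit 32) (.e (nat_lit 385066) (nat_lit 26) (.e (nat_lit 532534) (nat_lit 9) (.e (nat_lit 336257) (nat_lit 15) .nil))))) (.g (nat_lit 0) (.e (nat_lit 375073) (nat_lit 0) .nil) .nil))) 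
(.lf (nat_lit 580178) (.g (nat_lit 3376) (.e (nat_lit 336388) (nat_lit 27) (.e (nat_lit 426108) (nat_lit 1) (.e (nat_lit 164330) (nat_lit 230) (.e (nat_lit 163873) (nat_lit 3) (.e (nat_lit 204813) (nat_lit 9) (.e (nat_lit 426200) (nat_lit 9) (.e (nat_lit 426481) (nat_lit 27) .nil))))))) (.g (nat_lit 1) (.e (nat_lit 376951) (nat_lit 0) .nil) .nil)))) (.nd (nat_lit 9) 
(.lf (nat_lit 579922) (.g (nat_lit 881) (.e (nat_lit 336386) (nat_lit 27) (.e (nat_lit 426107) (nat_lit 1) (.e (nat_lit 164326) (nat_lit 230) .nil))) (.g (nat_lit 0) (.e (nat_lit 376556) (nat_lit 0) .nil) .nil))) 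
(.lf (nat_lit 580434) (.g (nat_lit 2727) (.e (nat_lit 336409) (nat_lit 27) (.e (nat_lit 426098) (nat_lit 1) (.e (nat_lit 164325) (nat_lit 230) (.e (nat_lit 163866) (nat_lit 2) (.e (nat_lit 196654) (nat_lit 11) .nil))))) (.g (nat_lit 0) (.e (nat_lit 377389) (nat_lit 0) .nil) .nil))))) (.nd (nat_lit 8) (.nd (nat_lit 9) 
(.lf (nat_lit 579794) (.g (nat_lit 2567) (.e (nat_lit 336369) (nat_lit 27) (.e (nat_lit 426173) (nat_lit 7) (.e (nat_lit 409617) (nat_lit 10) (.e (nat_lit 632) (nat_lit 50) (.e (nat_lit 573489) (nat_lit 14) (.e (nat_lit 81664) (nat_lit 32) (.e (nat_lit 236) (nat_lit 21) .nil))))))) (.g (nat_lit 1) (.e (nat_lit 376373) (nat_lit 0) .nil) .nil))) 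
(.lf (nat_lit 580306) (.g (nat_lit 2540) (.e (nat_lit 336395) (nat_lit 27) (.e (nat_lit 426340) (nat_lit 14) (.e (nat_lit 491571) (nat_lit 13) (.e (nat_lit 393298) (nat_lit 27) (.e (nat_lit 491547) (nat_lit 9) .nil))))) (.g (nat_lit 0) (.e (nat_lit 377146) (nat_lit 0) .nil) .nil)))) (.nd (nat_lit 9) 
(.lf (nat_lit 580050) (.g (nat_lit 1246) (.e (nat_lit 336387) (nat_lit 27) (.e (nat_lit 426107) (nat_lit 1) (.e (nat_lit 164326) (nat_lit 230) (.e (nat_lit 163868) (nat_lit 2) (.e (nat_lit 196656) (nat_lit 11) .nil))))) (.g (nat_lit 0) (.e (nat_lit 376715) (nat_lit 0) .nil) .nil))) 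
(.lf (nat_lit 580562) (.g (nat_lit 1579) (.e (nat_lit 336412) (nat_lit 27) (.e (nat_lit 426098) (nat_lit 1) (.e (nat_lit 164325) (nat_lit 230) (.e (nat_lit 163871) (nat_lit 2) .nil)))) (.g (nat_lit 0) (.e (nat_lit 377525) (nat_lit 0) .nil) .nil))))))) (.nd (nat_lit 6) (.nd (nat_lit 7) (.nd (nat_lit 8) (.nd (nat_lit 9) 
(.lf (nat_lit 579634) (.g (nat_lit 2673) (.e (nat_lit 336326) (nat_lit 18) (.e (nat_lit 204869) (nat_lit 29) (.e (nat_lit 360448) (nat_lit 0) (.e (nat_lit 7693) (nat_lit 412) (.e (nat_lit 57368) (nat_lit 1) (.e (nat_lit 57854) (nat_lit 252) (.e (nat_lit 57409) (nat_lit 12) .nil))))))) (.g (nat_lit 1) (.e (nat_lit 375016) (nat_lit 0) .nil) .nil))) 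
(.lf (nat_lit 580146) (.g (nat_lit 2285) (.e (nat_lit 336388) (nat_lit 27) (.e (nat_lit 426100) (nat_lit 1) (.e (nat_lit 164332) (nat_lit 230) (.e (nat_lit 163869) (nat_lit 2) (.e (nat_lit 196656) (nat_lit 11) (.e (nat_lit 16433) (nat_lit 9) (.e (nat_lit 426481) (nat_lit 27) .nil))))))) (.g (nat_lit 1) (.e (nat_lit 376915) (nat_lit 0) .nil) .nil)))) (.nd (nat_lit 9) 
(.lf (nat_lit 579890) (.g (nat_lit 1897) (.e (nat_lit 336385) (nat_lit 27) (.e (nat_lit 426200) (nat_lit 9) (.e (nat_lit 426131) (nat_lit 3) (.e (nat_lit 204831) (nat_lit 18) (.e (nat_lit 57692) (nat_lit 156) .nil))))) (.g (nat_lit 0) (.e (nat_lit 376521) (nat_lit 0) .nil) .nil))) 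
(.lf (nat_lit 580402) (.g (nat_lit 1773) (.e (nat_lit 336408) (nat_lit 27) (.e (nat_lit 426098) (nat_lit 1) (.e (nat_lit 164325) (nat_lit 230) (.e (nat_lit 163868) (nat_lit 2) .nil)))) (.g (nat_lit 0) (.e (nat_lit 377332) (nat_lit 0) .nil) .nil))))) (.nd (nat_lit 8) (.nd (nat_lit 9) 
(.lf (nat_lit 579762) (.g (nat_lit 1665) (.e (nat_lit 336368) (nat_lit 27) (.e (nat_lit 426312) (nat_lit 12) (.e (nat_lit 475199) (nat_lit 40) (.e (nat_lit 704595) (nat_lit 5) (.e (nat_lit 180278) (nat_lit 32) .nil))))) (.g (nat_lit 0) (.e (nat_lit 376319) (nat_lit 0) .nil) .nil))) 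
(.lf (nat_lit 580274) (.g (nat_lit 2171) (.e (nat_lit 336398) (nat_lit 27) (.e (nat_lit 426317) (nat_lit 12) (.e (nat_lit 475179) (nat_lit 24) (.e (nat_lit 516120) (nat_lit 1) (.e (nat_lit 164332) (nat_lit 230) .nil))))) (.g (nat_lit 0) (.e (nat_lit 377102) (nat_lit 0) .nil) .nil)))) (.nd (nat_lit 9) 
(.lf (nat_lit 580018) (.g (nat_lit 1268) (.e (nat_lit 336389) (nat_lit 27) (.e (nat_lit 426344) (nat_lit 14) (.e (nat_lit 491560) (nat_lit 10) (.e (nat_lit 344174) (nat_lit 42) .nil)))) (.g (nat_lit 0) (.e (nat_lit 376654) (nat_lit 0) .nil) .nil))) 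
(.lf (nat_lit 580530) (.g (nat_lit 1119) (.e (nat_lit 336407) (nat_lit 27) (.e (nat_lit 426190) (nat_lit 9) (.e (nat_lit 426436) (nat_lit 18) (.e (nat_lit 98333) (nat_lit 18) .nil)))) (.g (nat_lit 0) (.e (nat_lit 377489) (nat_lit 0) .nil) .nil)))))) (.nd (nat_lit 7) (.nd (nat_lit 8) (.nd (nat_lit 9) 
(.lf (nat_lit 579698) (.g (nat_lit 1866) (.e (nat_lit 343808) (nat_lit 18) (.e (nat_lit 204862) (nat_lit 27) (.e (nat_lit 344133) (nat_lit 26) (.e (nat_lit 557103) (nat_lit 14) (.e (nat_lit 188160) (nat_lit 3) .nil))))) (.g (nat_lit 0) (.e (nat_lit 375120) (nat_lit 0) .nil) .nil))) 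
(.lf (nat_lit 580210) (.g (nat_lit 1422) (.e (nat_lit 336388) (nat_lit 27) (.e (nat_lit 426306) (nat_lit 12) (.e (nat_lit 475177) (nat_lit 24) (.e (nat_lit 516118) (nat_lit 1) .nil)))) (.g (nat_lit 0) (.e (nat_lit 376986) (nat_lit 0) .nil) .nil)))) (.nd (nat_lit 9) 
(.lf (nat_lit 579954) (.g (nat_lit 2662) (.e (nat_lit 336389) (nat_lit 27) (.e (nat_lit 426098) (nat_lit 1) (.e (nat_lit 164325) (nat_lit 230) (.e (nat_lit 163869) (nat_lit 2) (.e (nat_lit 196656) (nat_lit 11) .nil))))) (.g (nat_lit 0) (.e (nat_lit 376590) (nat_lit 0) .nil) .nil))) 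
(.lf (nat_lit 580466) (.g (nat_lit 1248) (.e (nat_lit 336409) (nat_lit 27) (.e (nat_lit 426200) (nat_lit 9) (.e (nat_lit 426131) (nat_lit 3) (.e (nat_lit 204831) (nat_lit 18) .nil)))) (.g (nat_lit 0) (.e (nat_lit 377423) (nat_lit 0) .nil) .nil))))) (.nd (nat_lit 8) (.nd (nat_lit 9) 
(.lf (nat_lit 579826) (.g (nat_lit 2017) (.e (nat_lit 336384) (nat_lit 27) (.e (nat_lit 426343) (nat_lit 14) (.e (nat_lit 491560) (nat_lit 10) (.e (nat_lit 344179) (nat_lit 44) .nil)))) (.g (nat_lit 0) (.e (nat_lit 376430) (nat_lit 0) .nil) .nil))) 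
(.lf (nat_lit 580338) (.g (nat_lit 1313) (.e (nat_lit 336402) (nat_lit 27) (.e (nat_lit 426259) (nat_lit 9) (.e (nat_lit 426129) (nat_lit 3) (.e (nat_lit 204830) (nat_lit 18) (.e (nat_lit 57663) (nat_lit 152) .nil))))) (.g (nat_lit 0) (.e (nat_lit 377237) (nat_lit 0) .nil) .nil)))) (.nd (nat_lit 9) 
(.lf (nat_lit 580082) (.g (nat_lit 3261) (.e (nat_lit 336387) (nat_lit 27) (.e (nat_lit 426108) (nat_lit 1) (.e (nat_lit 164332) (nat_lit 230) (.e (nat_lit 163869) (nat_lit 2) (.e (nat_lit 196656) (nat_lit 11) (.e (nat_lit 16444) (nat_lit 9) (.e (nat_lit 426503) (nat_lit 27) .nil))))))) (.g (nat_lit 1) (.e (nat_lit 376793) (nat_lit 0) .nil) .nil))) 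
(.lf (nat_lit 580594) (.g (nat_lit 3107) (.e (nat_lit 336412) (nat_lit 27) (.e (nat_lit 426343) (nat_lit 14) (.e (nat_lit 491560) (nat_lit 10) (.e (nat_lit 344177) (nat_lit 43) (.e (nat_lit 770072) (nat_lit 8) (.e (nat_lit 65599) (nat_lit 9) .nil)))))) (.g (nat_lit 1) (.e (nat_lit 377568) (nat_lit 0) .nil) .nil))))))))) 
(.nd (nat_lit 4) (.nd (nat_lit 5) (.nd (nat_lit 6) (.nd (nat_lit 7) (.nd (nat_lit 8) 
(.nd (nat_lit 9) 
(.lf (nat_lit 579594) (.g (nat_lit 2783) (.e (nat_lit 336326) (nat_lit 18) (.e (nat_lit 204863) (nat_lit 27) (.e (nat_lit 344129) (nat_lit 26) (.e (nat_lit 557103) (nat_lit 14) (.e (nat_lit 188160) (nat_lit 3) (.e (nat_lit 524032) (nat_lit 26) .nil)))))) (.g (nat_lit 1) (.e (nat_lit 374962) (nat_lit 0) .nil) .nil))) 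
(.lf (nat_lit 580106) (.g (nat_lit 1103) (.e (nat_lit 336387) (nat_lit 27) (.e (nat_lit 426200) (nat_lit 9) (.e (nat_lit 426436) (nat_lit 18) (.e (nat_lit 98335) (nat_lit 18) .nil)))) (.g (nat_lit 0) (.e (nat_lit 376837) (nat_lit 0) .nil) .nil)))) (.nd (nat_lit 9) 
(.lf (nat_lit 579850) (.g (nat_lit 1254) (.e (nat_lit 336385) (nat_lit 27) (.e (nat_lit 426107) (nat_lit 1) (.e (nat_lit 164326) (nat_lit 230) (.e (nat_lit 163873) (nat_lit 3) .nil)))) (.g (nat_lit 0) (.e (nat_lit 376462) (nat_lit 0) .nil) .nil))) 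
(.lf (nat_lit 580362) (.g (nat_lit 741) (.e (nat_lit 336405) (nat_lit 27) (.e (nat_lit 426306) (nat_lit 12) (.e (nat_lit 475177) (nat_lit 24) .nil))) (.g (nat_lit 0) (.e (nat_lit 377287) (nat_lit 0) .nil) .nil))))) (.nd (nat_lit 8) (.nd (nat_lit 9) 
(.lf (nat_lit 579722) (.g (nat_lit 2481) (.e (nat_lit 336337) (nat_lit 20) (.e (nat_lit 221219) (nat_lit 24) (.e (nat_lit 213030) (nat_lit 11) (.e (nat_lit 24617) (nat_lit 7) (.e (nat_lit 319529) (nat_lit 16) (.e (nat_lit 286743) (nat_lit 9) .nil)))))) (.g (nat_lit 1) (.e (nat_lit 376068) (nat_lit 0) .nil) .nil))) 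
(.lf (nat_lit 580234) (.g (nat_lit 2336) (.e (nat_lit 336390) (nat_lit 27) (.e (nat_lit 426012) (nat_lit 0) (.e (nat_lit 7591) (nat_lit 407) (.e (nat_lit 73775) (nat_lit 26) (.e (nat_lit 778465) (nat_lit 11) (.e (nat_lit 24636) (nat_lit 9) .nil)))))) (.g (nat_lit 1) (.e (nat_lit 377015) (nat_lit 0) .nil) .nil)))) (.nd (nat_lit 9) 
(.lf (nat_lit 579978) (.g (nat_lit 1791) (.e (nat_lit 336389) (nat_lit 27) (.e (nat_lit 426107) (nat_lit 1) (.e (nat_lit 164327) (nat_lit 230) (.e (nat_lit 163868) (nat_lit 2) .nil)))) (.g (nat_lit 0) (.e (nat_lit 376614) (nat_lit 0) .nil) .nil))) 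
(.lf (nat_lit 580490) (.g (nat_lit 2862) (.e (nat_lit 336407) (nat_lit 27) (.e (nat_lit 426098) (nat_lit 1) (.e (nat_lit 164325) (nat_lit 230) (.e (nat_lit 163873) (nat_lit 3) (.e (nat_lit 204813) (nat_lit 9) (.e (nat_lit 426200) (nat_lit 9) (.e (nat_lit 426484) (nat_lit 27) .nil))))))) (.g (nat_lit 1) (.e (nat_lit 377448) (nat_lit 0) .nil) .nil)))))) 
(.nd (nat_lit 7) (.nd (nat_lit 8) (.nd (nat_lit 9) 
(.lf (nat_lit 579658) (.g (nat_lit 2255) (.e (nat_lit 336326) (nat_lit 18) (.e (nat_lit 204880) (nat_lit 32) (.e (nat_lit 385068) (nat_lit 26) (.e (nat_lit 532534) (nat_lit 9) (.e (nat_lit 336326) (nat_lit 18) .nil))))) (.g (nat_lit 0) (.e (nat_lit 375057) (nat_lit 0) .nil) .nil))) 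
(.lf (nat_lit 580170) (.g (nat_lit 1790) (.e (nat_lit 336388) (nat_lit 27) (.e (nat_lit 426107) (nat_lit 1) (.e (nat_lit 164327) (nat_lit 230) (.e (nat_lit 163875) (nat_lit 3) .nil)))) (.g (nat_lit 0) (.e (nat_lit 376939) (nat_lit 0) .nil) .nil)))) (.nd (nat_lit 9) 
(.lf (nat_lit 579914) (.g (nat_lit 1761) (.e (nat_lit 336385) (nat_lit 27) (.e (nat_lit 426344) (nat_lit 14) (.e (nat_lit 491560) (nat_lit 10) (.e (nat_lit 344179) (nat_lit 44) (.e (nat_lit 778466) (nat_lit 11) .nil))))) (.g (nat_lit 0) (.e (nat_lit 376547) (nat_lit 0) .nil) .nil))) 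
(.lf (nat_lit 580426) (.g (nat_lit 1524) (.e (nat_lit 336408) (nat_lit 27) (.e (nat_lit 426306) (nat_lit 12) (.e (nat_lit 475177) (nat_lit 24) (.e (nat_lit 516117) (nat_lit 1) (.e (nat_lit 164330) (nat_lit 230) .nil))))) (.g (nat_lit 0) (.e (nat_lit 377380) (nat_lit 0) .nil) .nil))))) (.nd (nat_lit 8) (.nd (nat_lit 9) 
(.lf (nat_lit 579786) (.g (nat_lit 3214) (.e (nat_lit 336369) (nat_lit 27) (.e (nat_lit 426025) (nat_lit 0) (.e (nat_lit 6989) (nat_lit 377) (.e (nat_lit 2777) (nat_lit 178) (.e (nat_lit 286770) (nat_lit 28) (.e (nat_lit 434181) (nat_lit 0) (.e (nat_lit 1427) (nat_lit 108) .nil))))))) (.g (nat_lit 1) (.e (nat_lit 376354) (nat_lit 0) .nil) .nil))) 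
(.lf (nat_lit 580298) (.g (nat_lit 2488) (.e (nat_lit 336395) (nat_lit 27) (.e (nat_lit 426340) (nat_lit 14) (.e (nat_lit 491571) (nat_lit 13) (.e (nat_lit 393232) (nat_lit 17) (.e (nat_lit 7513) (nat_lit 402) .nil))))) (.g (nat_lit 0) (.e (nat_lit 377138) (nat_lit 0) .nil) .nil)))) (.nd (nat_lit 9) 
(.lf (nat_lit 580042) (.g (nat_lit 833) (.e (nat_lit 336387) (nat_lit 27) (.e (nat_lit 426107) (nat_lit 1) (.e (nat_lit 164325) (nat_lit 230) (.e (nat_lit 163873) (nat_lit 3) .nil)))) (.g (nat_lit 0) (.e (nat_lit 376703) (nat_lit 0) .nil) .nil))) 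
(.lf (nat_lit 580554) (.g (nat_lit 2659) (.e (nat_lit 336407) (nat_lit 27) (.e (nat_lit 426343) (nat_lit 14) (.e (nat_lit 491560) (nat_lit 10) (.e (nat_lit 344179) (nat_lit 44) (.e (nat_lit 778465) (nat_lit 11) .nil))))) (.g (nat_lit 0) (.e (nat_lit 377515) (nat_lit 0) .nil) .nil))))))) (.nd (nat_lit 6) (.nd (nat_lit 7) (.nd (nat_lit 8) (.nd (nat_lit 9) 
(.lf (nat_lit 579626) (.g (nat_lit 3085) (.e (nat_lit 336326) (nat_lit 18) (.e (nat_lit 204863) (nat_lit 27) (.e (nat_lit 344133) (nat_lit 26) (.e (nat_lit 557103) (nat_lit 14) (.e (nat_lit 188160) (nat_lit 3) (.e (nat_lit 524032) (nat_lit 26) .nil)))))) (.g (nat_lit 1) (.e (nat_lit 375000) (nat_lit 0) .nil) .nil))) 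
(.lf (nat_lit 580138) (.g (nat_lit 1760) (.e (nat_lit 336388) (nat_lit 27) (.e (nat_lit 426098) (nat_lit 1) (.e (nat_lit 164325) (nat_lit 230) (.e (nat_lit 163874) (nat_lit 3) (.e (nat_lit 204813) (nat_lit 9) .nil))))) (.g (nat_lit 0) (.e (nat_lit 376906) (nat_lit 0) .nil) .nil)))) (.nd (nat_lit 9) 
(.lf (nat_lit 579882) (.g (nat_lit 2228) (.e (nat_lit 336385) (nat_lit 27) (.e (nat_lit 426188) (nat_lit 9) (.e (nat_lit 426436) (nat_lit 18) (.e (nat_lit 98335) (nat_lit 18) (.e (nat_lit 164325) (nat_lit 230) (.e (nat_lit 163907) (nat_lit 12) (.e (nat_lit 426481) (nat_lit 27) .nil))))))) (.g (nat_lit 1) (.e (nat_lit 376509) (nat_lit 0) .nil) .nil))) 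
(.lf (nat_lit 580394) (.g (nat_lit 1508) (.e (nat_lit 336406) (nat_lit 27) (.e (nat_lit 426306) (nat_lit 12) (.e (nat_lit 475177) (nat_lit 24) (.e (nat_lit 516120) (nat_lit 1) .nil)))) (.g (nat_lit 0) (.e (nat_lit 377324) (nat_lit 0) .nil) .nil))))) (.nd (nat_lit 8) (.nd (nat_lit 9) 
(.lf (nat_lit 579754) (.g (nat_lit 1633) (.e (nat_lit 336367) (nat_lit 27) (.e (nat_lit 426482) (nat_lit 27) (.e (nat_lit 335997) (nat_lit 1) (.e (nat_lit 57924) (nat_lit 282) .nil)))) (.g (nat_lit 0) (.e (nat_lit 376306) (nat_lit 0) .nil) .nil))) 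
(.lf (nat_lit 580266) (.g (nat_lit 1062) (.e (nat_lit 336398) (nat_lit 27) (.e (nat_lit 426290) (nat_lit 10) (.e (nat_lit 434231) (nat_lit 23) (.e (nat_lit 532579) (nat_lit 26) .nil)))) (.g (nat_lit 0) (.e (nat_lit 377092) (nat_lit 0) .nil) .nil)))) (.nd (nat_lit 9) 
(.lf (nat_lit 580010) (.g (nat_lit 4106) (.e (nat_lit 336389) (nat_lit 27) (.e (nat_lit 426308) (nat_lit 12) (.e (nat_lit 475179) (nat_lit 24) (.e (nat_lit 516120) (nat_lit 1) (.e (nat_lit 164330) (nat_lit 230) (.e (nat_lit 163902) (nat_lit 12) (.e (nat_lit 426481) (nat_lit 27) .nil))))))) (.g (nat_lit 1) (.e (nat_lit 376646) (nat_lit 0) .nil) .nil))) 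
(.lf (nat_lit 580522) (.g (nat_lit 2992) (.e (nat_lit 336407) (nat_lit 27) (.e (nat_lit 426187) (nat_lit 9) (.e (nat_lit 426436) (nat_lit 18) (.e (nat_lit 98335) (nat_lit 18) (.e (nat_lit 164330) (nat_lit 230) (.e (nat_lit 163905) (nat_lit 12) (.e (nat_lit 426487) (nat_lit 27) .nil))))))) (.g (nat_lit 1) (.e (nat_lit 377481) (nat_lit 0) .nil) .nil)))))) 
(.nd (nat_lit 7) (.nd (nat_lit 8) (.nd (nat_lit 9) 
(.lf (nat_lit 579690) (.g (nat_lit 2034) (.e (nat_lit 343808) (nat_lit 18) (.e (nat_lit 204831) (nat_lit 18) (.e (nat_lit 57852) (nat_lit 252) (.e (nat_lit 57406) (nat_lit 12) (.e (nat_lit 336456) (nat_lit 34) .nil))))) (.g (nat_lit 0) (.e (nat_lit 375098) (nat_lit 0) .nil) .nil))) 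
(.lf (nat_lit 580202) (.g (nat_lit 1648) (.e (nat_lit 336388) (nat_lit 27) (.e (nat_lit 426188) (nat_lit 9) (.e (nat_lit 426438) (nat_lit 18) (.e (nat_lit 98335) (nat_lit 18) (.e (nat_lit 164327) (nat_lit 230) .nil))))) (.g (nat_lit 0) (.e (nat_lit 376977) (nat_lit 0) .nil) .nil)))) (.nd (nat_lit 9) 
(.lf (nat_lit 579946) (.g (nat_lit 1306) (.e (nat_lit 336386) (nat_lit 27) (.e (nat_lit 426313) (nat_lit 12) (.e (nat_lit 475179) (nat_lit 24) (.e (nat_lit 516119) (nat_lit 1) (.e (nat_lit 164325) (nat_lit 230) .nil))))) (.g (nat_lit 0) (.e (nat_lit 376581) (nat_lit 0) .nil) .nil))) 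
(.lf (nat_lit 580458) (.g (nat_lit 1695) (.e (nat_lit 336409) (nat_lit 27) (.e (nat_lit 426188) (nat_lit 9) (.e (nat_lit 426436) (nat_lit 18) (.e (nat_lit 98334) (nat_lit 18) (.e (nat_lit 164330) (nat_lit 230) .nil))))) (.g (nat_lit 0) (.e (nat_lit 377415) (nat_lit 0) .nil) .nil))))) (.nd (nat_lit 8) (.nd (nat_lit 9) 
(.lf (nat_lit 579818) (.g (nat_lit 2139) (.e (nat_lit 336381) (nat_lit 27) (.e (nat_lit 426343) (nat_lit 14) (.e (nat_lit 491560) (nat_lit 10) (.e (nat_lit 344179) (nat_lit 44) .nil)))) (.g (nat_lit 0) (.e (nat_lit 376419) (nat_lit 0) .nil) .nil))) 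
(.lf (nat_lit 580330) (.g (nat_lit 2288) (.e (nat_lit 336419) (nat_lit 27) (.e (nat_lit 426100) (nat_lit 1) (.e (nat_lit 164332) (nat_lit 230) (.e (nat_lit 163869) (nat_lit 2) (.e (nat_lit 196656) (nat_lit 11) .nil))))) (.g (nat_lit 0) (.e (nat_lit 377211) (nat_lit 0) .nil) .nil)))) (.nd (nat_lit 9) 
(.lf (nat_lit 580074) (.g (nat_lit 1796) (.e (nat_lit 336387) (nat_lit 27) (.e (nat_lit 426108) (nat_lit 1) (.e (nat_lit 164330) (nat_lit 230) (.e (nat_lit 163869) (nat_lit 2) .nil)))) (.g (nat_lit 0) (.e (nat_lit 376777) (nat_lit 0) .nil) .nil))) 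
(.lf (nat_lit 580586) (.g (nat_lit 1414) (.e (nat_lit 336412) (nat_lit 27) (.e (nat_lit 426342) (nat_lit 14) (.e (nat_lit 491556) (nat_lit 9) (.e (nat_lit 336390) (nat_lit 27) (.e (nat_lit 426344) (nat_lit 14) .nil))))) (.g (nat_lit 0) (.e (nat_lit 377557) (nat_lit 0) .nil) .nil)))))))) (.nd (nat_lit 5) (.nd (nat_lit 6) (.nd (nat_lit 7) (.nd (nat_lit 8) (.nd (nat_lit 9) 
(.lf (nat_lit 579610) (.g (nat_lit 2918) (.e (nat_lit 336326) (nat_lit 18) (.e (nat_lit 204863) (nat_lit 27) (.e (nat_lit 344132) (nat_lit 26) (.e (nat_lit 557100) (nat_lit 13) (.e (nat_lit 179968) (nat_lit 15) .nil))))) (.g (nat_lit 0) (.e (nat_lit 374981) (nat_lit 0) .nil) .nil))) 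
(.lf (nat_lit 580122) (.g (nat_lit 1965) (.e (nat_lit 336387) (nat_lit 27) (.e (nat_lit 426316) (nat_lit 12) (.e (nat_lit 475185) (nat_lit 29) (.e (nat_lit 557091) (nat_lit 12) (.e (nat_lit 164030) (nat_lit 53) .nil))))) (.g (nat_lit 0) (.e (nat_lit 376882) (nat_lit 0) .nil) .nil)))) (.nd (nat_lit 9) 
(.lf (nat_lit 579866) (.g (nat_lit 2037) (.e (nat_lit 336385) (nat_lit 27) (.e (nat_lit 426108) (nat_lit 1) (.e (nat_lit 164330) (nat_lit 230) (.e (nat_lit 163874) (nat_lit 3) .nil)))) (.g (nat_lit 0) (.e (nat_lit 376486) (nat_lit 0) .nil) .nil))) 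
(.lf (nat_lit 580378) (.g (nat_lit 1464) (.e (nat_lit 336406) (nat_lit 27) (.e (nat_lit 426098) (nat_lit 1) (.e (nat_lit 164399) (nat_lit 256) (.e (nat_lit 57378) (nat_lit 3) .nil)))) (.g (nat_lit 0) (.e (nat_lit 377306) (nat_lit 0) .nil) .nil))))) (.nd (nat_lit 8) (.nd (nat_lit 9) 
(.lf (nat_lit 579738) (.g (nat_lit 1869) (.e (nat_lit 336366) (nat_lit 27) (.e (nat_lit 426340) (nat_lit 14) (.e (nat_lit 491571) (nat_lit 13) (.e (nat_lit 393235) (nat_lit 17) (.e (nat_lit 7936) (nat_lit 402) (.e (nat_lit 1423) (nat_lit 108) .nil)))))) (.g (nat_lit 1) (.e (nat_lit 376275) (nat_lit 0) .nil) .nil))) 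
(.lf (nat_lit 580250) (.g (nat_lit 1904) (.e (nat_lit 336390) (nat_lit 27) (.e (nat_lit 426308) (nat_lit 12) (.e (nat_lit 475179) (nat_lit 24) (.e (nat_lit 516119) (nat_lit 1) (.e (nat_lit 164325) (nat_lit 230) .nil))))) (.g (nat_lit 0) (.e (nat_lit 377047) (nat_lit 0) .nil) .nil)))) (.nd (nat_lit 9) 
(.lf (nat_lit 579994) (.g (nat_lit 3467) (.e (nat_lit 336389) (nat_lit 27) (.e (nat_lit 426308) (nat_lit 12) (.e (nat_lit 475177) (nat_lit 24) (.e (nat_lit 516115) (nat_lit 1) (.e (nat_lit 164325) (nat_lit 230) (.e (nat_lit 163903) (nat_lit 12) (.e (nat_lit 426481) (nat_lit 27) .nil))))))) (.g (nat_lit 1) (.e (nat_lit 376630) (nat_lit 0) .nil) .nil))) 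
(.lf (nat_lit 580506) (.g (nat_lit 2525) (.e (nat_lit 336407) (nat_lit 27) (.e (nat_lit 426107) (nat_lit 1) (.e (nat_lit 164325) (nat_lit 230) (.e (nat_lit 163873) (nat_lit 3) (.e (nat_lit 204813) (nat_lit 9) .nil))))) (.g (nat_lit 0) (.e (nat_lit 377465) (nat_lit 0) .nil) .nil)))))) (.nd (nat_lit 7) (.nd (nat_lit 8) (.nd (nat_lit 9) 
(.lf (nat_lit 579674) (.g (nat_lit 2536) (.e (nat_lit 336326) (nat_lit 18) (.e (nat_lit 204882) (nat_lit 32) (.e (nat_lit 385068) (nat_lit 26) (.e (nat_lit 532534) (nat_lit 9) (.e (nat_lit 336325) (nat_lit 18) (.e (nat_lit 204852) (nat_lit 26) .nil)))))) (.g (nat_lit 1) (.e (nat_lit 375082) (nat_lit 0) .nil) .nil))) 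
(.lf (nat_lit 580186) (.g (nat_lit 2298) (.e (nat_lit 336388) (nat_lit 27) (.e (nat_lit 426108) (nat_lit 1) (.e (nat_lit 164332) (nat_lit 230) (.e (nat_lit 163874) (nat_lit 3) (.e (nat_lit 204813) (nat_lit 9) .nil))))) (.g (nat_lit 0) (.e (nat_lit 376960) (nat_lit 0) .nil) .nil)))) (.nd (nat_lit 9) 
(.lf (nat_lit 579930) (.g (nat_lit 3551) (.e (nat_lit 336386) (nat_lit 27) (.e (nat_lit 426187) (nat_lit 9) (.e (nat_lit 426436) (nat_lit 18) (.e (nat_lit 98335) (nat_lit 18) (.e (nat_lit 164326) (nat_lit 230) .nil))))) (.g (nat_lit 0) (.e (nat_lit 376564) (nat_lit 0) .nil) .nil))) 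
(.lf (nat_lit 580442) (.g (nat_lit 2606) (.e (nat_lit 336409) (nat_lit 27) (.e (nat_lit 426098) (nat_lit 1) (.e (nat_lit 164327) (nat_lit 230) (.e (nat_lit 163873) (nat_lit 3) (.e (nat_lit 204813) (nat_lit 9) (.e (nat_lit 426200) (nat_lit 9) (.e (nat_lit 426491) (nat_lit 27) .nil))))))) (.g (nat_lit 1) (.e (nat_lit 377397) (nat_lit 0) .nil) .nil))))) (.nd (nat_lit 8) (.nd (nat_lit 9) 
(.lf (nat_lit 579802) (.g (nat_lit 1624) (.e (nat_lit 336372) (nat_lit 27) (.e (nat_lit 426482) (nat_lit 27) (.e (nat_lit 335997) (nat_lit 1) (.e (nat_lit 57924) (nat_lit 282) .nil)))) (.g (nat_lit 0) (.e (nat_lit 376390) (nat_lit 0) .nil) .nil))) 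
(.lf (nat_lit 580314) (.g (nat_lit 2288) (.e (nat_lit 336416) (nat_lit 27) (.e (nat_lit 426100) (nat_lit 1) (.e (nat_lit 164332) (nat_lit 230) (.e (nat_lit 163869) (nat_lit 2) (.e (nat_lit 196656) (nat_lit 11) .nil))))) (.g (nat_lit 0) (.e (nat_lit 377157) (nat_lit 0) .nil) .nil)))) (.nd (nat_lit 9) 
(.lf (nat_lit 580058) (.g (nat_lit 945) (.e (nat_lit 336387) (nat_lit 27) (.e (nat_lit 426107) (nat_lit 1) (.e (nat_lit 164326) (nat_lit 230) (.e (nat_lit 163873) (nat_lit 3) (.e (nat_lit 204813) (nat_lit 9) .nil))))) (.g (nat_lit 0) (.e (nat_lit 376726) (nat_lit 0) .nil) .nil))) 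
(.lf (nat_lit 580570) (.g (nat_lit 1453) (.e (nat_lit 336412) (nat_lit 27) (.e (nat_lit 426098) (nat_lit 1) (.e (nat_lit 164399) (nat_lit 256) (.e (nat_lit 57378) (nat_lit 3) .nil)))) (.g (nat_lit 0) (.e (nat_lit 377535) (nat_lit 0) .nil) .nil))))))) (.nd (nat_lit 6) (.nd (nat_lit 7) (.nd (nat_lit 8) (.nd (nat_lit 9) 
(.lf (nat_lit 579642) (.g (nat_lit 666) (.e (nat_lit 336326) (nat_lit 18) (.e (nat_lit 204879) (nat_lit 32) (.e (nat_lit 385066) (nat_lit 26) (.e (nat_lit 532565) (nat_lit 15) .nil)))) (.g (nat_lit 0) (.e (nat_lit 375040) (nat_lit 0) .nil) .nil))) 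
(.lf (nat_lit 580154) (.g (nat_lit 1216) (.e (nat_lit 336388) (nat_lit 27) (.e (nat_lit 426107) (nat_lit 1) (.e (nat_lit 164325) (nat_lit 230) (.e (nat_lit 163874) (nat_lit 3) .nil)))) (.g (nat_lit 0) (.e (nat_lit 376923) (nat_lit 0) .nil) .nil)))) (.nd (nat_lit 9) 
(.lf (nat_lit 579898) (.g (nat_lit 2132) (.e (nat_lit 336385) (nat_lit 27) (.e (nat_lit 426306) (nat_lit 12) (.e (nat_lit 475179) (nat_lit 24) (.e (nat_lit 516117) (nat_lit 1) (.e (nat_lit 164332) (nat_lit 230) .nil))))) (.g (nat_lit 0) (.e (nat_lit 376531) (nat_lit 0) .nil) .nil))) 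
(.lf (nat_lit 580410) (.g (nat_lit 746) (.e (nat_lit 336408) (nat_lit 27) (.e (nat_lit 426108) (nat_lit 1) (.e (nat_lit 164330) (nat_lit 230) .nil))) (.g (nat_lit 0) (.e (nat_lit 377353) (nat_lit 0) .nil) .nil))))) (.nd (nat_lit 8) (.nd (nat_lit 9) 
(.lf (nat_lit 579770) (.g (nat_lit 1064) (.e (nat_lit 336370) (nat_lit 27) (.e (nat_lit 426290) (nat_lit 10) (.e (nat_lit 434231) (nat_lit 23) (.e (nat_lit 532579) (nat_lit 26) .nil)))) (.g (nat_lit 0) (.e (nat_lit 376332) (nat_lit 0) .nil) .nil))) 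
(.lf (nat_lit 580282) (.g (nat_lit 1701) (.e (nat_lit 336394) (nat_lit 27) (.e (nat_lit 426340) (nat_lit 14) (.e (nat_lit 491571) (nat_lit 13) (.e (nat_lit 393242) (nat_lit 17) (.e (nat_lit 7550) (nat_lit 402) (.e (nat_lit 1517) (nat_lit 108) .nil)))))) (.g (nat_lit 1) (.e (nat_lit 377117) (nat_lit 0) .nil) .nil)))) (.nd (nat_lit 9) 
(.lf (nat_lit 580026) (.g (nat_lit 734) (.e (nat_lit 336387) (nat_lit 27) (.e (nat_lit 426098) (nat_lit 1) (.e (nat_lit 164401) (nat_lit 256) .nil))) (.g (nat_lit 0) (.e (nat_lit 376670) (nat_lit 0) .nil) .nil))) 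
(.lf (nat_lit 580538) (.g (nat_lit 1946) (.e (nat_lit 336407) (nat_lit 27) (.e (nat_lit 426305) (nat_lit 12) (.e (nat_lit 475198) (nat_lit 40) (.e (nat_lit 704595) (nat_lit 5) (.e (nat_lit 188160) (nat_lit 32) .nil))))) (.g (nat_lit 0) (.e (nat_lit 377498) (nat_lit 0) .nil) .nil)))))) (.nd (nat_lit 7) (.nd (nat_lit 8) (.nd (nat_lit 9) 
(.lf (nat_lit 579706) (.g (nat_lit 1439) (.e (nat_lit 343808) (nat_lit 18) (.e (nat_lit 204863) (nat_lit 27) (.e (nat_lit 344132) (nat_lit 26) (.e (nat_lit 557103) (nat_lit 14) .nil)))) (.g (nat_lit 0) (.e (nat_lit 375128) (nat_lit 0) .nil) .nil))) 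
(.lf (nat_lit 580218) (.g (nat_lit 2194) (.e (nat_lit 336388) (nat_lit 27) (.e (nat_lit 426306) (nat_lit 12) (.e (nat_lit 475179) (nat_lit 24) (.e (nat_lit 516119) (nat_lit 1) (.e (nat_lit 164326) (nat_lit 230) (.e (nat_lit 163903) (nat_lit 12) (.e (nat_lit 426481) (nat_lit 27) .nil))))))) (.g (nat_lit 1) (.e (nat_lit 376994) (nat_lit 0) .nil) .nil)))) (.nd (nat_lit 9) 
(.lf (nat_lit 579962) (.g (nat_lit 2077) (.e (nat_lit 336389) (nat_lit 27) (.e (nat_lit 426098) (nat_lit 1) (.e (nat_lit 164325) (nat_lit 230) (.e (nat_lit 163875) (nat_lit 3) (.e (nat_lit 204813) (nat_lit 9) .nil))))) (.g (nat_lit 0) (.e (nat_lit 376598) (nat_lit 0) .nil) .nil))) 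
(.lf (nat_lit 580474) (.g (nat_lit 2809) (.e (nat_lit 336409) (nat_lit 27) (.e (nat_lit 426306) (nat_lit 12) (.e (nat_lit 475177) (nat_lit 24) (.e (nat_lit 516120) (nat_lit 1) (.e (nat_lit 164330) (nat_lit 230) (.e (nat_lit 163905) (nat_lit 12) (.e (nat_lit 426489) (nat_lit 27) .nil))))))) (.g (nat_lit 1) (.e (nat_lit 377431) (nat_lit 0) .nil) .nil))))) (.nd (nat_lit 8) (.nd (nat_lit 9) 
(.lf (nat_lit 579834) (.g (nat_lit 1423) (.e (nat_lit 336385) (nat_lit 27) (.e (nat_lit 426098) (nat_lit 1) (.e (nat_lit 164325) (nat_lit 230) (.e (nat_lit 163874) (nat_lit 3) .nil)))) (.g (nat_lit 0) (.e (nat_lit 376439) (nat_lit 0) .nil) .nil))) 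
(.lf (nat_lit 580346) (.g (nat_lit 2107) (.e (nat_lit 336405) (nat_lit 27) (.e (nat_lit 426107) (nat_lit 1) (.e (nat_lit 164325) (nat_lit 230) (.e (nat_lit 163873) (nat_lit 3) .nil)))) (.g (nat_lit 0) (.e (nat_lit 377251) (nat_lit 0) .nil) .nil)))) (.nd (nat_lit 9) 
(.lf (nat_lit 580090) (.g (nat_lit 2030) (.e (nat_lit 336387) (nat_lit 27) (.e (nat_lit 426188) (nat_lit 9) (.e (nat_lit 426436) (nat_lit 18) (.e (nat_lit 98335) (nat_lit 18) (.e (nat_lit 164305) (nat_lit 226) .nil))))) (.g (nat_lit 0) (.e (nat_lit 376804) (nat_lit 0) .nil) .nil))) 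
(.lf (nat_lit 580602) (.g (nat_lit 1972) (.e (nat_lit 336413) (nat_lit 27) (.e (nat_lit 426098) (nat_lit 1) (.e (nat_lit 164327) (nat_lit 230) (.e (nat_lit 163871) (nat_lit 2) (.e (nat_lit 196654) (nat_lit 11) .nil))))) (.g (nat_lit 0) (.e (nat_lit 377581) (nat_lit 0) .nil) .nil)))))))))) 
(.nd (nat_lit 3) (.nd (nat_lit 4) (.nd (nat_lit 5) (.nd (nat_lit 6) (.nd (nat_lit 7) 
(.nd (nat_lit 8) (.nd (nat_lit 9) 
(.lf (nat_lit 579590) (.g (nat_lit 2498) (.e (nat_lit 336326) (nat_lit 18) (.e (nat_lit 204863) (nat_lit 27) (.e (nat_lit 344129) (nat_lit 26) (.e (nat_lit 557097) (nat_lit 13) (.e (nat_lit 172128) (nat_lit 15) .nil))))) (.g (nat_lit 0) (.e (nat_lit 374958) (nat_lit 0) .nil) .nil))) 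
(.lf (nat_lit 580102) (.g (nat_lit 2412) (.e (nat_lit 336387) (nat_lit 27) (.e (nat_lit 426200) (nat_lit 9) (.e (nat_lit 426131) (nat_lit 3) (.e (nat_lit 204830) (nat_lit 18) (.e (nat_lit 57665) (nat_lit 152) .nil))))) (.g (nat_lit 0) (.e (nat_lit 376827) (nat_lit 0) .nil) .nil)))) (.nd (nat_lit 9) 
(.lf (nat_lit 579846) (.g (nat_lit 2479) (.e (nat_lit 336385) (nat_lit 27) (.e (nat_lit 426107) (nat_lit 1) (.e (nat_lit 164325) (nat_lit 230) (.e (nat_lit 163873) (nat_lit 3) (.e (nat_lit 204813) (nat_lit 9) .nil))))) (.g (nat_lit 0) (.e (nat_lit 376457) (nat_lit 0) .nil) .nil))) 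
(.lf (nat_lit 580358) (.g (nat_lit 2104) (.e (nat_lit 336405) (nat_lit 27) (.e (nat_lit 426200) (nat_lit 9) (.e (nat_lit 426131) (nat_lit 3) (.e (nat_lit 204829) (nat_lit 18) (.e (nat_lit 57692) (nat_lit 156) (.e (nat_lit 163907) (nat_lit 12) (.e (nat_lit 426491) (nat_lit 27) .nil))))))) (.g (nat_lit 1) (.e (nat_lit 377279) (nat_lit 0) .nil) .nil))))) (.nd (nat_lit 8) (.nd (nat_lit 9) 
(.lf (nat_lit 579718) (.g (nat_lit 2829) (.e (nat_lit 336336) (nat_lit 20) (.e (nat_lit 221210) (nat_lit 22) (.e (nat_lit 196654) (nat_lit 11) (.e (nat_lit 16436) (nat_lit 9) (.e (nat_lit 426131) (nat_lit 3) (.e (nat_lit 204851) (nat_lit 26) .nil)))))) (.g (nat_lit 1) (.e (nat_lit 375953) (nat_lit 0) .nil) .nil))) 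
(.lf (nat_lit 580230) (.g (nat_lit 2482) (.e (nat_lit 336392) (nat_lit 27) (.e (nat_lit 426011) (nat_lit 0) (.e (nat_lit 7593) (nat_lit 407) (.e (nat_lit 73775) (nat_lit 26) (.e (nat_lit 778466) (nat_lit 11) .nil))))) (.g (nat_lit 0) (.e (nat_lit 377007) (nat_lit 0) .nil) .nil)))) (.nd (nat_lit 9) 
(.lf (nat_lit 579974) (.g (nat_lit 1545) (.e (nat_lit 336389) (nat_lit 27) (.e (nat_lit 426100) (nat_lit 1) (.e (nat_lit 164332) (nat_lit 230) (.e (nat_lit 163867) (nat_lit 2) .nil)))) (.g (nat_lit 0) (.e (nat_lit 376610) (nat_lit 0) .nil) .nil))) 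
(.lf (nat_lit 580486) (.g (nat_lit 1788) (.e (nat_lit 336407) (nat_lit 27) (.e (nat_lit 426098) (nat_lit 1) (.e (nat_lit 164325) (nat_lit 230) (.e (nat_lit 163869) (nat_lit 2) .nil)))) (.g (nat_lit 0) (.e (nat_lit 377444) (nat_lit 0) .nil) .nil)))))) (.nd (nat_lit 7) (.nd (nat_lit 8) (.nd (nat_lit 9) 
(.lf (nat_lit 579654) (.g (nat_lit 641) (.e (nat_lit 336326) (nat_lit 18) (.e (nat_lit 204880) (nat_lit 32) (.e (nat_lit 385067) (nat_lit 26) .nil))) (.g (nat_lit 0) (.e (nat_lit 375053) (nat_lit 0) .nil) .nil))) 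
(.lf (nat_lit 580166) (.g (nat_lit 1803) (.e (nat_lit 336388) (nat_lit 27) (.e (nat_lit 426107) (nat_lit 1) (.e (nat_lit 164327) (nat_lit 230) (.e (nat_lit 163871) (nat_lit 2) .nil)))) (.g (nat_lit 0) (.e (nat_lit 376935) (nat_lit 0) .nil) .nil)))) (.nd (nat_lit 9) 
(.lf (nat_lit 579910) (.g (nat_lit 3844) (.e (nat_lit 336385) (nat_lit 27) (.e (nat_lit 426343) (nat_lit 14) (.e (nat_lit 491560) (nat_lit 10) (.e (nat_lit 344177) (nat_lit 43) (.e (nat_lit 770072) (nat_lit 8) .nil))))) (.g (nat_lit 0) (.e (nat_lit 376543) (nat_lit 0) .nil) .nil))) 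
(.lf (nat_lit 580422) (.g (nat_lit 1285) (.e (nat_lit 336408) (nat_lit 27) (.e (nat_lit 426200) (nat_lit 9) (.e (nat_lit 426131) (nat_lit 3) (.e (nat_lit 204831) (nat_lit 18) .nil)))) (.g (nat_lit 0) (.e (nat_lit 377374) (nat_lit 0) .nil) .nil))))) (.nd (nat_lit 8) (.nd (nat_lit 9) 
(.lf (nat_lit 579782) (.g (nat_lit 2362) (.e (nat_lit 336370) (nat_lit 27) (.e (nat_lit 426501) (nat_lit 27) (.e (nat_lit 335995) (nat_lit 1) (.e (nat_lit 57847) (nat_lit 252) (.e (nat_lit 57370) (nat_lit 2) (.e (nat_lit 90158) (nat_lit 11) (.e (nat_lit 24628) (nat_lit 9) .nil))))))) (.g (nat_lit 1) (.e (nat_lit 376348) (nat_lit 0) .nil) .nil))) 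
(.lf (nat_lit 580294) (.g (nat_lit 1117) (.e (nat_lit 336395) (nat_lit 27) (.e (nat_lit 426339) (nat_lit 14) (.e (nat_lit 491571) (nat_lit 13) (.e (nat_lit 393299) (nat_lit 27) .nil)))) (.g (nat_lit 0) (.e (nat_lit 377133) (nat_lit 0) .nil) .nil)))) (.nd (nat_lit 9) 
(.lf (nat_lit 580038) (.g (nat_lit 298) (.e (nat_lit 336387) (nat_lit 27) (.e (nat_lit 426107) (nat_lit 1) (.e (nat_lit 164325) (nat_lit 230) .nil))) (.g (nat_lit 0) (.e (nat_lit 376698) (nat_lit 0) .nil) .nil))) 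
(.lf (nat_lit 580550) (.g (nat_lit 2517) (.e (nat_lit 336407) (nat_lit 27) (.e (nat_lit 426343) (nat_lit 14) (.e (nat_lit 491558) (nat_lit 10) (.e (nat_lit 344096) (nat_lit 18) (.e (nat_lit 7265) (nat_lit 384) (.e (nat_lit 57406) (nat_lit 12) (.e (nat_lit 336117) (nat_lit 9) .nil))))))) (.g (nat_lit 1) (.e (nat_lit 377511) (nat_lit 0) .nil) .nil))))))) 
(.nd (nat_lit 6) (.nd (nat_lit 7) (.nd (nat_lit 8) (.nd (nat_lit 9) 
(.lf (nat_lit 579622) (.g (nat_lit 3232) (.e (nat_lit 336326) (nat_lit 18) (.e (nat_lit 204863) (nat_lit 27) (.e (nat_lit 344133) (nat_lit 26) (.e (nat_lit 557098) (nat_lit 13) (.e (nat_lit 172132) (nat_lit 15) (.e (nat_lit 7936) (nat_lit 121) (.e (nat_lit 532529) (nat_lit 9) .nil))))))) (.g (nat_lit 1) (.e (nat_lit 374996) (nat_lit 0) .nil) .nil))) 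
(.lf (nat_lit 580134) (.g (nat_lit 3489) (.e (nat_lit 336387) (nat_lit 27) (.e (nat_lit 426344) (nat_lit 14) (.e (nat_lit 491560) (nat_lit 10) (.e (nat_lit 344179) (nat_lit 44) (.e (nat_lit 778466) (nat_lit 11) (.e (nat_lit 24638) (nat_lit 9) .nil)))))) (.g (nat_lit 1) (.e (nat_lit 376902) (nat_lit 0) .nil) .nil)))) (.nd (nat_lit 9) 
(.lf (nat_lit 579878) (.g (nat_lit 1640) (.e (nat_lit 336385) (nat_lit 27) (.e (nat_lit 426188) (nat_lit 9) (.e (nat_lit 426436) (nat_lit 18) (.e (nat_lit 98334) (nat_lit 18) (.e (nat_lit 164330) (nat_lit 230) .nil))))) (.g (nat_lit 0) (.e (nat_lit 376502) (nat_lit 0) .nil) .nil))) 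
(.lf (nat_lit 580390) (.g (nat_lit 1675) (.e (nat_lit 336406) (nat_lit 27) (.e (nat_lit 426188) (nat_lit 9) (.e (nat_lit 426436) (nat_lit 18) (.e (nat_lit 98334) (nat_lit 18) (.e (nat_lit 164330) (nat_lit 230) .nil))))) (.g (nat_lit 0) (.e (nat_lit 377319) (nat_lit 0) .nil) .nil))))) (.nd (nat_lit 8) (.nd (nat_lit 9) 
(.lf (nat_lit 579750) (.g (nat_lit 1930) (.e (nat_lit 336367) (nat_lit 27) (.e (nat_lit 426320) (nat_lit 12) (.e (nat_lit 475198) (nat_lit 40) (.e (nat_lit 704595) (nat_lit 5) (.e (nat_lit 180278) (nat_lit 32) (.e (nat_lit 1426) (nat_lit 108) .nil)))))) (.g (nat_lit 1) (.e (nat_lit 376297) (nat_lit 0) .nil) .nil))) 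
(.lf (nat_lit 580262) (.g (nat_lit 1956) (.e (nat_lit 336398) (nat_lit 27) (.e (nat_lit 426290) (nat_lit 10) (.e (nat_lit 434209) (nat_lit 18) (.e (nat_lit 5224) (nat_lit 296) (.e (nat_lit 163886) (nat_lit 5) (.e (nat_lit 221194) (nat_lit 11) (.e (nat_lit 336087) (nat_lit 9) .nil))))))) (.g (nat_lit 1) (.e (nat_lit 377084) (nat_lit 0) .nil) .nil)))) (.nd (nat_lit 9) 
(.lf (nat_lit 580006) (.g (nat_lit 3440) (.e (nat_lit 336389) (nat_lit 27) (.e (nat_lit 426308) (nat_lit 12) (.e (nat_lit 475179) (nat_lit 24) (.e (nat_lit 516117) (nat_lit 1) (.e (nat_lit 164330) (nat_lit 230) (.e (nat_lit 163905) (nat_lit 12) (.e (nat_lit 426478) (nat_lit 27) .nil))))))) (.g (nat_lit 1) (.e (nat_lit 376642) (nat_lit 0) .nil) .nil))) 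
(.lf (nat_lit 580518) (.g (nat_lit 2651) (.e (nat_lit 336407) (nat_lit 27) (.e (nat_lit 426107) (nat_lit 1) (.e (nat_lit 164327) (nat_lit 230) (.e (nat_lit 163873) (nat_lit 3) (.e (nat_lit 204813) (nat_lit 9) (.e (nat_lit 426198) (nat_lit 9) (.e (nat_lit 426489) (nat_lit 27) .nil))))))) (.g (nat_lit 1) (.e (nat_lit 377477) (nat_lit 0) .nil) .nil)))))) 
(.nd (nat_lit 7) (.nd (nat_lit 8) (.nd (nat_lit 9) 
(.lf (nat_lit 579686) (.g (nat_lit 1568) (.e (nat_lit 343808) (nat_lit 18) (.e (nat_lit 204831) (nat_lit 18) (.e (nat_lit 57847) (nat_lit 252) (.e (nat_lit 57445) (nat_lit 19) (.e (nat_lit 393227) (nat_lit 9) .nil))))) (.g (nat_lit 0) (.e (nat_lit 375094) (nat_lit 0) .nil) .nil))) 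
(.lf (nat_lit 580198) (.g (nat_lit 2027) (.e (nat_lit 336388) (nat_lit 27) (.e (nat_lit 426188) (nat_lit 9) (.e (nat_lit 426436) (nat_lit 18) (.e (nat_lit 98335) (nat_lit 18) (.e (nat_lit 164326) (nat_lit 230) .nil))))) (.g (nat_lit 0) (.e (nat_lit 376973) (nat_lit 0) .nil) .nil)))) (.nd (nat_lit 9) 
(.lf (nat_lit 579942) (.g (nat_lit 2247) (.e (nat_lit 336386) (nat_lit 27) (.e (nat_lit 426306) (nat_lit 12) (.e (nat_lit 475177) (nat_lit 24) (.e (nat_lit 516120) (nat_lit 1) (.e (nat_lit 164330) (nat_lit 230) (.e (nat_lit 163902) (nat_lit 12) (.e (nat_lit 426481) (nat_lit 27) .nil))))))) (.g (nat_lit 1) (.e (nat_lit 376577) (nat_lit 0) .nil) .nil))) 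
(.lf (nat_lit 580454) (.g (nat_lit 2034) (.e (nat_lit 336409) (nat_lit 27) (.e (nat_lit 426108) (nat_lit 1) (.e (nat_lit 164330) (nat_lit 230) (.e (nat_lit 163873) (nat_lit 3) (.e (nat_lit 204813) (nat_lit 9) .nil))))) (.g (nat_lit 0) (.e (nat_lit 377411) (nat_lit 0) .nil) .nil))))) (.nd (nat_lit 8) (.nd (nat_lit 9) 
(.lf (nat_lit 579814) (.g (nat_lit 1557) (.e (nat_lit 336377) (nat_lit 27) (.e (nat_lit 426525) (nat_lit 27) (.e (nat_lit 336196) (nat_lit 12) (.e (nat_lit 385066) (nat_lit 26) (.e (nat_lit 532504) (nat_lit 1) .nil))))) (.g (nat_lit 0) (.e (nat_lit 376410) (nat_lit 0) .nil) .nil))) 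
(.lf (nat_lit 580326) (.g (nat_lit 1994) (.e (nat_lit 336419) (nat_lit 27) (.e (nat_lit 426098) (nat_lit 1) (.e (nat_lit 164327) (nat_lit 230) (.e (nat_lit 163868) (nat_lit 2) (.e (nat_lit 196654) (nat_lit 11) .nil))))) (.g (nat_lit 0) (.e (nat_lit 377203) (nat_lit 0) .nil) .nil)))) (.nd (nat_lit 9) 
(.lf (nat_lit 580070) (.g (nat_lit 2743) (.e (nat_lit 336387) (nat_lit 27) (.e (nat_lit 426107) (nat_lit 1) (.e (nat_lit 164327) (nat_lit 230) (.e (nat_lit 163875) (nat_lit 3) (.e (nat_lit 204811) (nat_lit 9) (.e (nat_lit 426261) (nat_lit 9) (.e (nat_lit 426503) (nat_lit 27) .nil))))))) (.g (nat_lit 1) (.e (nat_lit 376755) (nat_lit 0) .nil) .nil))) 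
(.lf (nat_lit 580582) (.g (nat_lit 2425) (.e (nat_lit 336412) (nat_lit 27) (.e (nat_lit 426308) (nat_lit 12) (.e (nat_lit 475177) (nat_lit 24) (.e (nat_lit 516117) (nat_lit 1) (.e (nat_lit 164330) (nat_lit 230) (.e (nat_lit 163905) (nat_lit 12) (.e (nat_lit 426509) (nat_lit 27) .nil))))))) (.g (nat_lit 1) (.e (nat_lit 377551) (nat_lit 0) .nil) .nil)))))))) 
(.nd (nat_lit 5) (.nd (nat_lit 6) (.nd (nat_lit 7) (.nd (nat_lit 8) (.nd (nat_lit 9) 
(.lf (nat_lit 579606) (.g (nat_lit 3453) (.e (nat_lit 336326) (nat_lit 18) (.e (nat_lit 204863) (nat_lit 27) (.e (nat_lit 344131) (nat_lit 26) (.e (nat_lit 557100) (nat_lit 13) (.e (nat_lit 172138) (nat_lit 15) (.e (nat_lit 7936) (nat_lit 121) (.e (nat_lit 532529) (nat_lit 9) .nil))))))) (.g (nat_lit 1) (.e (nat_lit 374975) (nat_lit 0) .nil) .nil))) 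
(.lf (nat_lit 580118) (.g (nat_lit 444) (.e (nat_lit 336387) (nat_lit 27) (.e (nat_lit 426316) (nat_lit 12) (.e (nat_lit 475185) (nat_lit 29) .nil))) (.g (nat_lit 0) (.e (nat_lit 376876) (nat_lit 0) .nil) .nil)))) (.nd (nat_lit 9) 
(.lf (nat_lit 579862) (.g (nat_lit 709) (.e (nat_lit 336385) (nat_lit 27) (.e (nat_lit 426108) (nat_lit 1) (.e (nat_lit 164329) (nat_lit 230) .nil))) (.g (nat_lit 0) (.e (nat_lit 376480) (nat_lit 0) .nil) .nil))) 
(.lf (nat_lit 580374) (.g (nat_lit 1775) (.e (nat_lit 336406) (nat_lit 27) (.e (nat_lit 426098) (nat_lit 1) (.e (nat_lit 164325) (nat_lit 230) (.e (nat_lit 163874) (nat_lit 3) .nil)))) (.g (nat_lit 0) (.e (nat_lit 377302) (nat_lit 0) .nil) .nil))))) (.nd (nat_lit 8) (.nd (nat_lit 9) 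
(.lf (nat_lit 579734) (.g (nat_lit 1900) (.e (nat_lit 336360) (nat_lit 25) (.e (nat_lit 409649) (nat_lit 18) (.e (nat_lit 303140) (nat_lit 10) (.e (nat_lit 434209) (nat_lit 18) .nil)))) (.g (nat_lit 0) (.e (nat_lit 376262) (nat_lit 0) .nil) .nil))) 
(.lf (nat_lit 580246) (.g (nat_lit 4540) (.e (nat_lit 336390) (nat_lit 27) (.e (nat_lit 426190) (nat_lit 9) (.e (nat_lit 426436) (nat_lit 18) (.e (nat_lit 98335) (nat_lit 18) (.e (nat_lit 164330) (nat_lit 230) (.e (nat_lit 163905) (nat_lit 12) (.e (nat_lit 426530) (nat_lit 27) .nil))))))) (.g (nat_lit 1) (.e (nat_lit 377035) (nat_lit 0) .nil) .nil)))) (.nd (nat_lit 9) 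
(.lf (nat_lit 579990) (.g (nat_lit 1787) (.e (nat_lit 336389) (nat_lit 27) (.e (nat_lit 426190) (nat_lit 9) (.e (nat_lit 426436) (nat_lit 18) (.e (nat_lit 98334) (nat_lit 18) (.e (nat_lit 164332) (nat_lit 230) .nil))))) (.g (nat_lit 0) (.e (nat_lit 376626) (nat_lit 0) .nil) .nil))) 
(.lf (nat_lit 580502) (.g (nat_lit 660) (.e (nat_lit 336407) (nat_lit 27) (.e (nat_lit 426107) (nat_lit 1) (.e (nat_lit 164325) (nat_lit 230) .nil))) (.g (nat_lit 0) (.e (nat_lit 377461) (nat_lit 0) .nil) .nil)))))) (.nd (nat_lit 7) (.nd (nat_lit 8) (.nd (nat_lit 9) 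
(.lf (nat_lit 579670) (.g (nat_lit 1920) (.e (nat_lit 336326) (nat_lit 18) (.e (nat_lit 204882) (nat_lit 32) (.e (nat_lit 385068) (nat_lit 26) (.e (nat_lit 532528) (nat_lit 9) .nil)))) (.g (nat_lit 0) (.e (nat_lit 375078) (nat_lit 0) .nil) .nil))) 
(.lf (nat_lit 580182) (.g (nat_lit 2367) (.e (nat_lit 336388) (nat_lit 27) (.e (nat_lit 426108) (nat_lit 1) (.e (nat_lit 164332) (nat_lit 230) (.e (nat_lit 163869) (nat_lit 2) (.e (nat_lit 196654) (nat_lit 11) .nil))))) (.g (nat_lit 0) (.e (nat_lit 376956) (nat_lit 0) .nil) .nil)))) (.nd (nat_lit 9) 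
(.lf (nat_lit 579926) (.g (nat_lit 2568) (.e (nat_lit 336386) (nat_lit 27) (.e (nat_lit 426108) (nat_lit 1) (.e (nat_lit 164330) (nat_lit 230) (.e (nat_lit 163869) (nat_lit 2) (.e (nat_lit 196654) (nat_lit 11) .nil))))) (.g (nat_lit 0) (.e (nat_lit 376560) (nat_lit 0) .nil) .nil))) 
(.lf (nat_lit 580438) (.g (nat_lit 3021) (.e (nat_lit 336409) (nat_lit 27) (.e (nat_lit 426098) (nat_lit 1) (.e (nat_lit 164325) (nat_lit 230) (.e (nat_lit 163873) (nat_lit 3) (.e (nat_lit 204813) (nat_lit 9) (.e (nat_lit 426200) (nat_lit 9) (.e (nat_lit 426487) (nat_lit 27) .nil))))))) (.g (nat_lit 1) (.e (nat_lit 377393) (nat_lit 0) .nil) .nil))))) (.nd (nat_lit 8) (.nd (nat_lit 9) 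
(.lf (nat_lit 579798) (.g (nat_lit 2033) (.e (nat_lit 336369) (nat_lit 27) (.e (nat_lit 426317) (nat_lit 12) (.e (nat_lit 475179) (nat_lit 24) (.e (nat_lit 516120) (nat_lit 1) (.e (nat_lit 164332) (nat_lit 230) .nil))))) (.g (nat_lit 0) (.e (nat_lit 376378) (nat_lit 0) .nil) .nil))) 
(.lf (nat_lit 580310) (.g (nat_lit 2121) (.e (nat_lit 336416) (nat_lit 27) (.e (nat_lit 426098) (nat_lit 1) (.e (nat_lit 164327) (nat_lit 230) (.e (nat_lit 163868) (nat_lit 2) (.e (nat_lit 196654) (nat_lit 11) (.e (nat_lit 16436) (nat_lit 9) (.e (nat_lit 426486) (nat_lit 27) .nil))))))) (.g (nat_lit 1) (.e (nat_lit 377151) (nat_lit 0) .nil) .nil)))) (.nd (nat_lit 9) 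
(.lf (nat_lit 580054) (.g (nat_lit 955) (.e (nat_lit 336387) (nat_lit 27) (.e (nat_lit 426107) (nat_lit 1) (.e (nat_lit 164326) (nat_lit 230) (.e (nat_lit 163871) (nat_lit 2) (.e (nat_lit 196655) (nat_lit 11) .nil))))) (.g (nat_lit 0) (.e (nat_lit 376722) (nat_lit 0) .nil) .nil))) 
(.lf (nat_lit 580566) (.g (nat_lit 2500) (.e (nat_lit 336412) (nat_lit 27) (.e (nat_lit 426098) (nat_lit 1) (.e (nat_lit 164327) (nat_lit 230) (.e (nat_lit 163868) (nat_lit 2) (.e (nat_lit 196654) (nat_lit 11) (.e (nat_lit 16438) (nat_lit 9) (.e (nat_lit 426509) (nat_lit 27) .nil))))))) (.g (nat_lit 1) (.e (nat_lit 377531) (nat_lit 0) .nil) .nil))))))) 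
(.nd (nat_lit 6) (.nd (nat_lit 7) (.nd (nat_lit 8) (.nd (nat_lit 9) 
(.lf (nat_lit 579638) (.g (nat_lit 2471) (.e (nat_lit 336326) (nat_lit 18) (.e (nat_lit 204869) (nat_lit 29) (.e (nat_lit 360451) (nat_lit 0) (.e (nat_lit 7265) (nat_lit 384) .nil)))) (.g (nat_lit 0) (.e (nat_lit 375021) (nat_lit 0) .nil) .nil))) 
(.lf (nat_lit 580150) (.g (nat_lit 1146) (.e (nat_lit 336388) (nat_lit 27) (.e (nat_lit 426107) (nat_lit 1) (.e (nat_lit 164325) (nat_lit 230) (.e (nat_lit 163868) (nat_lit 2) .nil)))) (.g (nat_lit 0) (.e (nat_lit 376919) (nat_lit 0) .nil) .nil)))) (.nd (nat_lit 9) 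
(.lf (nat_lit 579894) (.g (nat_lit 1496) (.e (nat_lit 336385) (nat_lit 27) (.e (nat_lit 426306) (nat_lit 12) (.e (nat_lit 475177) (nat_lit 24) (.e (nat_lit 516118) (nat_lit 1) .nil)))) (.g (nat_lit 0) (.e (nat_lit 376526) (nat_lit 0) .nil) .nil))) 
(.lf (nat_lit 580406) (.g (nat_lit 1543) (.e (nat_lit 336408) (nat_lit 27) (.e (nat_lit 426100) (nat_lit 1) (.e (nat_lit 164398) (nat_lit 256) (.e (nat_lit 57378) (nat_lit 3) .nil)))) (.g (nat_lit 0) (.e (nat_lit 377346) (nat_lit 0) .nil) .nil))))) (.nd (nat_lit 8) (.nd (nat_lit 9) 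
(.lf (nat_lit 579766) (.g (nat_lit 1594) (.e (nat_lit 336368) (nat_lit 27) (.e (nat_lit 426501) (nat_lit 27) (.e (nat_lit 335986) (nat_lit 1) (.e (nat_lit 57847) (nat_lit 252) (.e (nat_lit 57375) (nat_lit 2) (.e (nat_lit 90160) (nat_lit 11) (.e (nat_lit 24624) (nat_lit 9) .nil))))))) (.g (nat_lit 1) (.e (nat_lit 376323) (nat_lit 0) .nil) .nil))) 
(.lf (nat_lit 580278) (.g (nat_lit 4244) (.e (nat_lit 336394) (nat_lit 27) (.e (nat_lit 426201) (nat_lit 9) (.e (nat_lit 426436) (nat_lit 18) (.e (nat_lit 98335) (nat_lit 18) (.e (nat_lit 164330) (nat_lit 230) .nil))))) (.g (nat_lit 0) (.e (nat_lit 377106) (nat_lit 0) .nil) .nil)))) (.nd (nat_lit 9) 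
(.lf (nat_lit 580022) (.g (nat_lit 2595) (.e (nat_lit 336387) (nat_lit 27) (.e (nat_lit 426098) (nat_lit 1) (.e (nat_lit 164325) (nat_lit 230) (.e (nat_lit 163871) (nat_lit 2) (.e (nat_lit 196656) (nat_lit 11) (.e (nat_lit 16444) (nat_lit 9) (.e (nat_lit 426503) (nat_lit 27) .nil))))))) (.g (nat_lit 1) (.e (nat_lit 376660) (nat_lit 0) .nil) .nil))) 
(.lf (nat_lit 580534) (.g (nat_lit 1628) (.e (nat_lit 336407) (nat_lit 27) (.e (nat_lit 426199) (nat_lit 9) (.e (nat_lit 426131) (nat_lit 3) (.e (nat_lit 204830) (nat_lit 18) (.e (nat_lit 57663) (nat_lit 152) .nil))))) (.g (nat_lit 0) (.e (nat_lit 377493) (nat_lit 0) .nil) .nil)))))) (.nd (nat_lit 7) (.nd (nat_lit 8) (.nd (nat_lit 9) 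
(.lf (nat_lit 579702) (.g (nat_lit 2435) (.e (nat_lit 343808) (nat_lit 18) (.e (nat_lit 204863) (nat_lit 27) (.e (nat_lit 344129) (nat_lit 26) (.e (nat_lit 557104) (nat_lit 14) (.e (nat_lit 188160) (nat_lit 3) .nil))))) (.g (nat_lit 0) (.e (nat_lit 375124) (nat_lit 0) .nil) .nil))) 
(.lf (nat_lit 580214) (.g (nat_lit 2947) (.e (nat_lit 336388) (nat_lit 27) (.e (nat_lit 426306) (nat_lit 12) (.e (nat_lit 475179) (nat_lit 24) (.e (nat_lit 516115) (nat_lit 1) (.e (nat_lit 164325) (nat_lit 230) (.e (nat_lit 163903) (nat_lit 12) (.e (nat_lit 426481) (nat_lit 27) .nil))))))) (.g (nat_lit 1) (.e (nat_lit 376990) (nat_lit 0) .nil) .nil)))) (.nd (nat_lit 9) 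
(.lf (nat_lit 579958) (.g (nat_lit 4665) (.e (nat_lit 336389) (nat_lit 27) (.e (nat_lit 426098) (nat_lit 1) (.e (nat_lit 164325) (nat_lit 230) (.e (nat_lit 163873) (nat_lit 3) (.e (nat_lit 204813) (nat_lit 9) (.e (nat_lit 426199) (nat_lit 9) (.e (nat_lit 426480) (nat_lit 27) .nil))))))) (.g (nat_lit 1) (.e (nat_lit 376594) (nat_lit 0) .nil) .nil))) 
(.lf (nat_lit 580470) (.g (nat_lit 2839) (.e (nat_lit 336409) (nat_lit 27) (.e (nat_lit 426306) (nat_lit 12) (.e (nat_lit 475177) (nat_lit 24) (.e (nat_lit 516117) (nat_lit 1) (.e (nat_lit 164330) (nat_lit 230) (.e (nat_lit 163905) (nat_lit 12) (.e (nat_lit 426489) (nat_lit 27) .nil))))))) (.g (nat_lit 1) (.e (nat_lit 377427) (nat_lit 0) .nil) .nil))))) (.nd (nat_lit 8) (.nd (nat_lit 9) 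
(.lf (nat_lit 579830) (.g (nat_lit 1385) (.e (nat_lit 336385) (nat_lit 27) (.e (nat_lit 426098) (nat_lit 1) (.e (nat_lit 164325) (nat_lit 230) (.e (nat_lit 163868) (nat_lit 2) .nil)))) (.g (nat_lit 0) (.e (nat_lit 376434) (nat_lit 0) .nil) .nil))) 
(.lf (nat_lit 580342) (.g (nat_lit 948) (.e (nat_lit 336405) (nat_lit 27) (.e (nat_lit 426098) (nat_lit 1) (.e (nat_lit 164325) (nat_lit 230) .nil))) (.g (nat_lit 0) (.e (nat_lit 377242) (nat_lit 0) .nil) .nil)))) (.nd (nat_lit 9) 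
(.lf (nat_lit 580086) (.g (nat_lit 1696) (.e (nat_lit 336387) (nat_lit 27) (.e (nat_lit 426108) (nat_lit 1) (.e (nat_lit 164332) (nat_lit 230) (.e (nat_lit 163874) (nat_lit 3) (.e (nat_lit 204811) (nat_lit 9) .nil))))) (.g (nat_lit 0) (.e (nat_lit 376799) (nat_lit 0) .nil) .nil))) 
(.lf (nat_lit 580598) (.g (nat_lit 3332) (.e (nat_lit 336412) (nat_lit 27) (.e (nat_lit 426344) (nat_lit 14) (.e (nat_lit 491556) (nat_lit 9) (.e (nat_lit 336390) (nat_lit 27) (.e (nat_lit 426344) (nat_lit 14) (.e (nat_lit 491552) (nat_lit 9) .nil)))))) (.g (nat_lit 1) (.e (nat_lit 377574) (nat_lit 0) .nil) .nil))))))))) 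
(.nd (nat_lit 4) (.nd (nat_lit 5) (.nd (nat_lit 6) (.nd (nat_lit 7) (.nd (nat_lit 8) 
(.nd (nat_lit 9) 
(.lf (nat_lit 579598) (.g (nat_lit 1517) (.e (nat_lit 336326) (nat_lit 18) (.e (nat_lit 204863) (nat_lit 27) (.e (nat_lit 344130) (nat_lit 26) (.e (nat_lit 557097) (nat_lit 13) .nil)))) (.g (nat_lit 0) (.e (nat_lit 374966) (nat_lit 0) .nil) .nil))) 
(.lf (nat_lit 580110) (.g (nat_lit 1308) (.e (nat_lit 336387) (nat_lit 27) (.e (nat_lit 426306) (nat_lit 12) (.e (nat_lit 475177) (nat_lit 24) (.e (nat_lit 516120) (nat_lit 1) .nil)))) (.g (nat_lit 0) (.e (nat_lit 376848) (nat_lit 0) .nil) .nil)))) (.nd (nat_lit 9) 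
(.lf (nat_lit 579854) (.g (nat_lit 1803) (.e (nat_lit 336385) (nat_lit 27) (.e (nat_lit 426107) (nat_lit 1) (.e (nat_lit 164327) (nat_lit 230) (.e (nat_lit 163871) (nat_lit 2) .nil)))) (.g (nat_lit 0) (.e (nat_lit 376469) (nat_lit 0) .nil) .nil))) 
(.lf (nat_lit 580366) (.g (nat_lit 2236) (.e (nat_lit 336405) (nat_lit 27) (.e (nat_lit 426343) (nat_lit 14) (.e (nat_lit 491560) (nat_lit 10) (.e (nat_lit 344179) (nat_lit 44) .nil)))) (.g (nat_lit 0) (.e (nat_lit 377294) (nat_lit 0) .nil) .nil))))) (.nd (nat_lit 8) (.nd (nat_lit 9) 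
(.lf (nat_lit 579726) (.g (nat_lit 2951) (.e (nat_lit 336337) (nat_lit 20) (.e (nat_lit 221219) (nat_lit 24) (.e (nat_lit 213030) (nat_lit 11) (.e (nat_lit 24617) (nat_lit 7) (.e (nat_lit 319533) (nat_lit 16) (.e (nat_lit 286743) (nat_lit 9) .nil)))))) (.g (nat_lit 1) (.e (nat_lit 376072) (nat_lit 0) .nil) .nil))) 
(.lf (nat_lit 580238) (.g (nat_lit 2010) (.e (nat_lit 336390) (nat_lit 27) (.e (nat_lit 426098) (nat_lit 1) (.e (nat_lit 164325) (nat_lit 230) (.e (nat_lit 163873) (nat_lit 3) .nil)))) (.g (nat_lit 0) (.e (nat_lit 377021) (nat_lit 0) .nil) .nil)))) (.nd (nat_lit 9) 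
(.lf (nat_lit 579982) (.g (nat_lit 2090) (.e (nat_lit 336389) (nat_lit 27) (.e (nat_lit 426108) (nat_lit 1) (.e (nat_lit 164330) (nat_lit 230) (.e (nat_lit 163869) (nat_lit 2) .nil)))) (.g (nat_lit 0) (.e (nat_lit 376618) (nat_lit 0) .nil) .nil))) 
(.lf (nat_lit 580494) (.g (nat_lit 2299) (.e (nat_lit 336407) (nat_lit 27) (.e (nat_lit 426098) (nat_lit 1) (.e (nat_lit 164325) (nat_lit 230) (.e (nat_lit 163875) (nat_lit 3) (.e (nat_lit 204813) (nat_lit 9) (.e (nat_lit 426198) (nat_lit 9) (.e (nat_lit 426489) (nat_lit 27) .nil))))))) (.g (nat_lit 1) (.e (nat_lit 377452) (nat_lit 0) .nil) .nil)))))) 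
(.nd (nat_lit 7) (.nd (nat_lit 8) (.nd (nat_lit 9) 
(.lf (nat_lit 579662) (.g (nat_lit 1679) (.e (nat_lit 336326) (nat_lit 18) (.e (nat_lit 204882) (nat_lit 32) (.e (nat_lit 385066) (nat_lit 26) (.e (nat_lit 532529) (nat_lit 9) .nil)))) (.g (nat_lit 0) (.e (nat_lit 375069) (nat_lit 0) .nil) .nil))) 
(.lf (nat_lit 580174) (.g (nat_lit 1949) (.e (nat_lit 336388) (nat_lit 27) (.e (nat_lit 426108) (nat_lit 1) (.e (nat_lit 164330) (nat_lit 230) (.e (nat_lit 163869) (nat_lit 2) .nil)))) (.g (nat_lit 0) (.e (nat_lit 376947) (nat_lit 0) .nil) .nil)))) (.nd (nat_lit 9) 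
(.lf (nat_lit 579918) (.g (nat_lit 1775) (.e (nat_lit 336386) (nat_lit 27) (.e (nat_lit 426098) (nat_lit 1) (.e (nat_lit 164325) (nat_lit 230) (.e (nat_lit 163868) (nat_lit 2) .nil)))) (.g (nat_lit 0) (.e (nat_lit 376551) (nat_lit 0) .nil) .nil))) 
(.lf (nat_lit 580430) (.g (nat_lit 1940) (.e (nat_lit 336408) (nat_lit 27) (.e (nat_lit 426306) (nat_lit 12) (.e (nat_lit 475179) (nat_lit 24) (.e (nat_lit 516119) (nat_lit 1) (.e (nat_lit 164325) (nat_lit 230) .nil))))) (.g (nat_lit 0) (.e (nat_lit 377385) (nat_lit 0) .nil) .nil))))) (.nd (nat_lit 8) (.nd (nat_lit 9) 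
(.lf (nat_lit 579790) (.g (nat_lit 3765) (.e (nat_lit 336369) (nat_lit 27) (.e (nat_lit 426109) (nat_lit 1) (.e (nat_lit 164327) (nat_lit 230) (.e (nat_lit 163868) (nat_lit 2) (.e (nat_lit 196656) (nat_lit 11) (.e (nat_lit 16436) (nat_lit 9) (.e (nat_lit 426479) (nat_lit 27) .nil))))))) (.g (nat_lit 1) (.e (nat_lit 376364) (nat_lit 0) .nil) .nil))) 
(.lf (nat_lit 580302) (.g (nat_lit 2723) (.e (nat_lit 336395) (nat_lit 27) (.e (nat_lit 426340) (nat_lit 14) (.e (nat_lit 491571) (nat_lit 13) (.e (nat_lit 393238) (nat_lit 17) (.e (nat_lit 7555) (nat_lit 402) .nil))))) (.g (nat_lit 0) (.e (nat_lit 377142) (nat_lit 0) .nil) .nil)))) (.nd (nat_lit 9) 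
(.lf (nat_lit 580046) (.g (nat_lit 834) (.e (nat_lit 336387) (nat_lit 27) (.e (nat_lit 426107) (nat_lit 1) (.e (nat_lit 164325) (nat_lit 230) (.e (nat_lit 163875) (nat_lit 3) .nil)))) (.g (nat_lit 0) (.e (nat_lit 376707) (nat_lit 0) .nil) .nil))) 
(.lf (nat_lit 580558) (.g (nat_lit 1185) (.e (nat_lit 336412) (nat_lit 27) (.e (nat_lit 426011) (nat_lit 0) (.e (nat_lit 7593) (nat_lit 407) (.e (nat_lit 73775) (nat_lit 26) .nil)))) (.g (nat_lit 0) (.e (nat_lit 377520) (nat_lit 0) .nil) .nil))))))) (.nd (nat_lit 6) (.nd (nat_lit 7) (.nd (nat_lit 8) (.nd (nat_lit 9) 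
(.lf (nat_lit 579630) (.g (nat_lit 1812) (.e (nat_lit 336326) (nat_lit 18) (.e (nat_lit 204866) (nat_lit 28) (.e (nat_lit 352273) (nat_lit 11) (.e (nat_lit 426098) (nat_lit 1) (.e (nat_lit 164179) (nat_lit 154) .nil))))) (.g (nat_lit 0) (.e (nat_lit 375004) (nat_lit 0) .nil) .nil))) 
(.lf (nat_lit 580142) (.g (nat_lit 630) (.e (nat_lit 336388) (nat_lit 27) (.e (nat_lit 426100) (nat_lit 1) (.e (nat_lit 164332) (nat_lit 230) .nil))) (.g (nat_lit 0) (.e (nat_lit 376910) (nat_lit 0) .nil) .nil)))) (.nd (nat_lit 9) 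
(.lf (nat_lit 579886) (.g (nat_lit 2130) (.e (nat_lit 336385) (nat_lit 27) (.e (nat_lit 426200) (nat_lit 9) (.e (nat_lit 426131) (nat_lit 3) (.e (nat_lit 204829) (nat_lit 18) (.e (nat_lit 57692) (nat_lit 156) .nil))))) (.g (nat_lit 0) (.e (nat_lit 376516) (nat_lit 0) .nil) .nil))) 
(.lf (nat_lit 580398) (.g (nat_lit 2014) (.e (nat_lit 336406) (nat_lit 27) (.e (nat_lit 426306) (nat_lit 12) (.e (nat_lit 475179) (nat_lit 24) (.e (nat_lit 516120) (nat_lit 1) (.e (nat_lit 164332) (nat_lit 230) .nil))))) (.g (nat_lit 0) (.e (nat_lit 377328) (nat_lit 0) .nil) .nil))))) (.nd (nat_lit 8) (.nd (nat_lit 9) 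
(.lf (nat_lit 579758) (.g (nat_lit 2200) (.e (nat_lit 336367) (nat_lit 27) (.e (nat_lit 426542) (nat_lit 29) (.e (nat_lit 352266) (nat_lit 0) (.e (nat_lit 3253) (nat_lit 197) (.e (nat_lit 532503) (nat_lit 1) (.e (nat_lit 57847) (nat_lit 252) (.e (nat_lit 57411) (nat_lit 12) .nil))))))) (.g (nat_lit 1) (.e (nat_lit 376312) (nat_lit 0) .nil) .nil))) 
(.lf (nat_lit 580270) (.g (nat_lit 1742) (.e (nat_lit 336398) (nat_lit 27) (.e (nat_lit 426290) (nat_lit 10) (.e (nat_lit 434231) (nat_lit 23) (.e (nat_lit 532579) (nat_lit 26) (.e (nat_lit 426100) (nat_lit 1) .nil))))) (.g (nat_lit 0) (.e (nat_lit 377096) (nat_lit 0) .nil) .nil)))) (.nd (nat_lit 9) 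
(.lf (nat_lit 580014) (.g (nat_lit 3382) (.e (nat_lit 336389) (nat_lit 27) (.e (nat_lit 426343) (nat_lit 14) (.e (nat_lit 491560) (nat_lit 10) (.e (nat_lit 344177) (nat_lit 43) (.e (nat_lit 770072) (nat_lit 8) .nil))))) (.g (nat_lit 0) (.e (nat_lit 376650) (nat_lit 0) .nil) .nil))) 
(.lf (nat_lit 580526) (.g (nat_lit 2404) (.e (nat_lit 336407) (nat_lit 27) (.e (nat_lit 426188) (nat_lit 9) (.e (nat_lit 426436) (nat_lit 18) (.e (nat_lit 98334) (nat_lit 18) (.e (nat_lit 164330) (nat_lit 230) (.e (nat_lit 163905) (nat_lit 12) (.e (nat_lit 426487) (nat_lit 27) .nil))))))) (.g (nat_lit 1) (.e (nat_lit 377485) (nat_lit 0) .nil) .nil)))))) 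
(.nd (nat_lit 7) (.nd (nat_lit 8) (.nd (nat_lit 9) 
(.lf (nat_lit 579694) (.g (nat_lit 2752) (.e (nat_lit 343808) (nat_lit 18) (.e (nat_lit 204862) (nat_lit 27) (.e (nat_lit 344129) (nat_lit 26) (.e (nat_lit 557104) (nat_lit 14) (.e (nat_lit 188160) (nat_lit 3) .nil))))) (.g (nat_lit 0) (.e (nat_lit 375116) (nat_lit 0) .nil) .nil))) 
(.lf (nat_lit 580206) (.g (nat_lit 1410) (.e (nat_lit 336388) (nat_lit 27) (.e (nat_lit 426306) (nat_lit 12) (.e (nat_lit 475177) (nat_lit 24) (.e (nat_lit 516115) (nat_lit 1) .nil)))) (.g (nat_lit 0) (.e (nat_lit 376982) (nat_lit 0) .nil) .nil)))) (.nd (nat_lit 9) 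
(.lf (nat_lit 579950) (.g (nat_lit 3313) (.e (nat_lit 336386) (nat_lit 27) (.e (nat_lit 426343) (nat_lit 14) (.e (nat_lit 491560) (nat_lit 10) (.e (nat_lit 344179) (nat_lit 44) (.e (nat_lit 778466) (nat_lit 11) (.e (nat_lit 24632) (nat_lit 9) .nil)))))) (.g (nat_lit 1) (.e (nat_lit 376585) (nat_lit 0) .nil) .nil))) 
(.lf (nat_lit 580462) (.g (nat_lit 2606) (.e (nat_lit 336409) (nat_lit 27) (.e (nat_lit 426188) (nat_lit 9) (.e (nat_lit 426436) (nat_lit 18) (.e (nat_lit 98335) (nat_lit 18) (.e (nat_lit 164330) (nat_lit 230) (.e (nat_lit 163905) (nat_lit 12) (.e (nat_lit 426491) (nat_lit 27) .nil))))))) (.g (nat_lit 1) (.e (nat_lit 377419) (nat_lit 0) .nil) .nil))))) (.nd (nat_lit 8) (.nd (nat_lit 9) 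
(.lf (nat_lit 579822) (.g (nat_lit 2158) (.e (nat_lit 336382) (nat_lit 27) (.e (nat_lit 426343) (nat_lit 14) (.e (nat_lit 491560) (nat_lit 10) (.e (nat_lit 344179) (nat_lit 44) .nil)))) (.g (nat_lit 0) (.e (nat_lit 376424) (nat_lit 0) .nil) .nil))) 
(.lf (nat_lit 580334) (.g (nat_lit 1971) (.e (nat_lit 336400) (nat_lit 27) (.e (nat_lit 426098) (nat_lit 1) (.e (nat_lit 164327) (nat_lit 230) (.e (nat_lit 163871) (nat_lit 2) (.e (nat_lit 196654) (nat_lit 11) .nil))))) (.g (nat_lit 0) (.e (nat_lit 377227) (nat_lit 0) .nil) .nil)))) (.nd (nat_lit 9) 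
(.lf (nat_lit 580078) (.g (nat_lit 1572) (.e (nat_lit 336387) (nat_lit 27) (.e (nat_lit 426108) (nat_lit 1) (.e (nat_lit 164331) (nat_lit 230) (.e (nat_lit 163873) (nat_lit 3) (.e (nat_lit 204809) (nat_lit 9) (.e (nat_lit 426213) (nat_lit 9) (.e (nat_lit 426528) (nat_lit 27) .nil))))))) (.g (nat_lit 1) (.e (nat_lit 376785) (nat_lit 0) .nil) .nil))) 
(.lf (nat_lit 580590) (.g (nat_lit 1169) (.e (nat_lit 336412) (nat_lit 27) (.e (nat_lit 426343) (nat_lit 14) (.e (nat_lit 491560) (nat_lit 10) (.e (nat_lit 344175) (nat_lit 43) .nil)))) (.g (nat_lit 0) (.e (nat_lit 377564) (nat_lit 0) .nil) .nil)))))))) (.nd (nat_lit 5) (.nd (nat_lit 6) (.nd (nat_lit 7) (.nd (nat_lit 8) (.nd (nat_lit 9) 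
(.lf (nat_lit 579614) (.g (nat_lit 1819) (.e (nat_lit 336326) (nat_lit 18) (.e (nat_lit 204863) (nat_lit 27) (.e (nat_lit 344133) (nat_lit 26) (.e (nat_lit 557096) (nat_lit 13) .nil)))) (.g (nat_lit 0) (.e (nat_lit 374988) (nat_lit 0) .nil) .nil))) 
(.lf (nat_lit 580126) (.g (nat_lit 1981) (.e (nat_lit 336387) (nat_lit 27) (.e (nat_lit 426316) (nat_lit 12) (.e (nat_lit 475185) (nat_lit 29) (.e (nat_lit 557091) (nat_lit 12) (.e (nat_lit 164031) (nat_lit 53) (.e (nat_lit 761900) (nat_lit 16) (.e (nat_lit 172150) (nat_lit 27) .nil))))))) (.g (nat_lit 1) (.e (nat_lit 376889) (nat_lit 0) .nil) .nil)))) (.nd (nat_lit 9) 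
(.lf (nat_lit 579870) (.g (nat_lit 1695) (.e (nat_lit 336385) (nat_lit 27) (.e (nat_lit 426108) (nat_lit 1) (.e (nat_lit 164332) (nat_lit 230) (.e (nat_lit 163873) (nat_lit 3) .nil)))) (.g (nat_lit 0) (.e (nat_lit 376491) (nat_lit 0) .nil) .nil))) 
(.lf (nat_lit 580382) (.g (nat_lit 1927) (.e (nat_lit 336406) (nat_lit 27) (.e (nat_lit 426100) (nat_lit 1) (.e (nat_lit 164399) (nat_lit 256) (.e (nat_lit 57377) (nat_lit 3) (.e (nat_lit 98365) (nat_lit 26) .nil))))) (.g (nat_lit 0) (.e (nat_lit 377311) (nat_lit 0) .nil) .nil))))) (.nd (nat_lit 8) (.nd (nat_lit 9) 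
(.lf (nat_lit 579742) (.g (nat_lit 2848) (.e (nat_lit 336366) (nat_lit 27) (.e (nat_lit 426499) (nat_lit 27) (.e (nat_lit 335986) (nat_lit 1) (.e (nat_lit 57847) (nat_lit 252) (.e (nat_lit 57375) (nat_lit 2) (.e (nat_lit 90160) (nat_lit 11) (.e (nat_lit 24624) (nat_lit 9) .nil))))))) (.g (nat_lit 1) (.e (nat_lit 376280) (nat_lit 0) .nil) .nil))) 
(.lf (nat_lit 580254) (.g (nat_lit 3030) (.e (nat_lit 336390) (nat_lit 27) (.e (nat_lit 426343) (nat_lit 14) (.e (nat_lit 491560) (nat_lit 10) (.e (nat_lit 344179) (nat_lit 44) (.e (nat_lit 778465) (nat_lit 11) (.e (nat_lit 24636) (nat_lit 9) .nil)))))) (.g (nat_lit 1) (.e (nat_lit 377072) (nat_lit 0) .nil) .nil)))) (.nd (nat_lit 9) 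
(.lf (nat_lit 579998) (.g (nat_lit 4117) (.e (nat_lit 336389) (nat_lit 27) (.e (nat_lit 426308) (nat_lit 12) (.e (nat_lit 475177) (nat_lit 24) (.e (nat_lit 516119) (nat_lit 1) (.e (nat_lit 164327) (nat_lit 230) (.e (nat_lit 163903) (nat_lit 12) (.e (nat_lit 426481) (nat_lit 27) .nil))))))) (.g (nat_lit 1) (.e (nat_lit 376634) (nat_lit 0) .nil) .nil))) 
(.lf (nat_lit 580510) (.g (nat_lit 1778) (.e (nat_lit 336407) (nat_lit 27) (.e (nat_lit 426107) (nat_lit 1) (.e (nat_lit 164327) (nat_lit 230) (.e (nat_lit 163868) (nat_lit 2) .nil)))) (.g (nat_lit 0) (.e (nat_lit 377469) (nat_lit 0) .nil) .nil)))))) (.nd (nat_lit 7) (.nd (nat_lit 8) (.nd (nat_lit 9) 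
(.lf (nat_lit 579678) (.g (nat_lit 1300) (.e (nat_lit 343808) (nat_lit 18) (.e (nat_lit 204829) (nat_lit 18) (.e (nat_lit 57847) (nat_lit 252) (.e (nat_lit 57407) (nat_lit 12) .nil)))) (.g (nat_lit 0) (.e (nat_lit 375086) (nat_lit 0) .nil) .nil))) 
(.lf (nat_lit 580190) (.g (nat_lit 3109) (.e (nat_lit 336388) (nat_lit 27) (.e (nat_lit 426187) (nat_lit 9) (.e (nat_lit 426436) (nat_lit 18) (.e (nat_lit 98335) (nat_lit 18) (.e (nat_lit 164327) (nat_lit 230) .nil))))) (.g (nat_lit 0) (.e (nat_lit 376964) (nat_lit 0) .nil) .nil)))) (.nd (nat_lit 9) 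
(.lf (nat_lit 579934) (.g (nat_lit 2073) (.e (nat_lit 336386) (nat_lit 27) (.e (nat_lit 426188) (nat_lit 9) (.e (nat_lit 426436) (nat_lit 18) (.e (nat_lit 98335) (nat_lit 18) (.e (nat_lit 164324) (nat_lit 230) (.e (nat_lit 163903) (nat_lit 12) (.e (nat_lit 426481) (nat_lit 27) .nil))))))) (.g (nat_lit 1) (.e (nat_lit 376568) (nat_lit 0) .nil) .nil))) 
(.lf (nat_lit 580446) (.g (nat_lit 2483) (.e (nat_lit 336409) (nat_lit 27) (.e (nat_lit 426100) (nat_lit 1) (.e (nat_lit 164332) (nat_lit 230) (.e (nat_lit 163869) (nat_lit 2) (.e (nat_lit 196656) (nat_lit 11) (.e (nat_lit 16432) (nat_lit 9) (.e (nat_lit 426491) (nat_lit 27) .nil))))))) (.g (nat_lit 1) (.e (nat_lit 377403) (nat_lit 0) .nil) .nil))))) (.nd (nat_lit 8) (.nd (nat_lit 9) 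
(.lf (nat_lit 579806) (.g (nat_lit 2781) (.e (nat_lit 336374) (nat_lit 27) (.e (nat_lit 426514) (nat_lit 27) (.e (nat_lit 335986) (nat_lit 1) (.e (nat_lit 57847) (nat_lit 252) (.e (nat_lit 57370) (nat_lit 2) .nil))))) (.g (nat_lit 0) (.e (nat_lit 376399) (nat_lit 0) .nil) .nil))) 
(.lf (nat_lit 580318) (.g (nat_lit 1704) (.e (nat_lit 336416) (nat_lit 27) (.e (nat_lit 426306) (nat_lit 12) (.e (nat_lit 475199) (nat_lit 40) (.e (nat_lit 704592) (nat_lit 4) .nil)))) (.g (nat_lit 0) (.e (nat_lit 377168) (nat_lit 0) .nil) .nil)))) (.nd (nat_lit 9) 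
(.lf (nat_lit 580062) (.g (nat_lit 2618) (.e (nat_lit 336387) (nat_lit 27) (.e (nat_lit 426107) (nat_lit 1) (.e (nat_lit 164327) (nat_lit 230) (.e (nat_lit 163868) (nat_lit 2) (.e (nat_lit 196656) (nat_lit 11) .nil))))) (.g (nat_lit 0) (.e (nat_lit 376740) (nat_lit 0) .nil) .nil))) 
(.lf (nat_lit 580574) (.g (nat_lit 3232) (.e (nat_lit 336412) (nat_lit 27) (.e (nat_lit 426187) (nat_lit 9) (.e (nat_lit 426436) (nat_lit 18) (.e (nat_lit 98335) (nat_lit 18) (.e (nat_lit 164330) (nat_lit 230) (.e (nat_lit 163905) (nat_lit 12) (.e (nat_lit 426482) (nat_lit 27) .nil))))))) (.g (nat_lit 1) (.e (nat_lit 377540) (nat_lit 0) .nil) .nil))))))) 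
(.nd (nat_lit 6) (.nd (nat_lit 7) (.nd (nat_lit 8) (.nd (nat_lit 9) 
(.lf (nat_lit 579646) (.g (nat_lit 2458) (.e (nat_lit 336326) (nat_lit 18) (.e (nat_lit 204880) (nat_lit 32) (.e (nat_lit 385066) (nat_lit 26) (.e (nat_lit 532529) (nat_lit 9) (.e (nat_lit 336326) (nat_lit 18) (.e (nat_lit 204852) (nat_lit 26) .nil)))))) (.g (nat_lit 1) (.e (nat_lit 375045) (nat_lit 0) .nil) .nil))) 
(.lf (nat_lit 580158) (.g (nat_lit 1197) (.e (nat_lit 336388) (nat_lit 27) (.e (nat_lit 426107) (nat_lit 1) (.e (nat_lit 164326) (nat_lit 230) (.e (nat_lit 163873) (nat_lit 3) .nil)))) (.g (nat_lit 0) (.e (nat_lit 376927) (nat_lit 0) .nil) .nil)))) (.nd (nat_lit 9) 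
(.lf (nat_lit 579902) (.g (nat_lit 2091) (.e (nat_lit 336385) (nat_lit 27) (.e (nat_lit 426306) (nat_lit 12) (.e (nat_lit 475179) (nat_lit 24) (.e (nat_lit 516120) (nat_lit 1) (.e (nat_lit 164332) (nat_lit 230) (.e (nat_lit 163905) (nat_lit 12) (.e (nat_lit 426481) (nat_lit 27) .nil))))))) (.g (nat_lit 1) (.e (nat_lit 376535) (nat_lit 0) .nil) .nil))) 
(.lf (nat_lit 580414) (.g (nat_lit 3215) (.e (nat_lit 336408) (nat_lit 27) (.e (nat_lit 426188) (nat_lit 9) (.e (nat_lit 426436) (nat_lit 18) (.e (nat_lit 98335) (nat_lit 18) (.e (nat_lit 164330) (nat_lit 230) (.e (nat_lit 163905) (nat_lit 12) (.e (nat_lit 426507) (nat_lit 27) .nil))))))) (.g (nat_lit 1) (.e (nat_lit 377362) (nat_lit 0) .nil) .nil))))) (.nd (nat_lit 8) (.nd (nat_lit 9) 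
(.lf (nat_lit 579774) (.g (nat_lit 2714) (.e (nat_lit 336370) (nat_lit 27) (.e (nat_lit 426317) (nat_lit 12) (.e (nat_lit 475179) (nat_lit 24) (.e (nat_lit 516119) (nat_lit 1) (.e (nat_lit 164326) (nat_lit 230) (.e (nat_lit 163903) (nat_lit 12) (.e (nat_lit 426479) (nat_lit 27) .nil))))))) (.g (nat_lit 1) (.e (nat_lit 376339) (nat_lit 0) .nil) .nil))) 
(.lf (nat_lit 580286) (.g (nat_lit 1051) (.e (nat_lit 336395) (nat_lit 27) (.e (nat_lit 426317) (nat_lit 12) (.e (nat_lit 475210) (nat_lit 41) (.e (nat_lit 712745) (nat_lit 27) .nil)))) (.g (nat_lit 0) (.e (nat_lit 377125) (nat_lit 0) .nil) .nil)))) (.nd (nat_lit 9) 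
(.lf (nat_lit 580030) (.g (nat_lit 687) (.e (nat_lit 336387) (nat_lit 27) (.e (nat_lit 426100) (nat_lit 1) (.e (nat_lit 164403) (nat_lit 256) .nil))) (.g (nat_lit 0) (.e (nat_lit 376678) (nat_lit 0) .nil) .nil))) 
(.lf (nat_lit 580542) (.g (nat_lit 2847) (.e (nat_lit 336407) (nat_lit 27) (.e (nat_lit 426306) (nat_lit 12) (.e (nat_lit 475177) (nat_lit 24) (.e (nat_lit 516120) (nat_lit 1) (.e (nat_lit 164330) (nat_lit 230) (.e (nat_lit 163905) (nat_lit 12) (.e (nat_lit 426489) (nat_lit 27) .nil))))))) (.g (nat_lit 1) (.e (nat_lit 377503) (nat_lit 0) .nil) .nil)))))) 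
(.nd (nat_lit 7) (.nd (nat_lit 8) (.nd (nat_lit 9) 
(.lf (nat_lit 579710) (.g (nat_lit 2461) (.e (nat_lit 343808) (nat_lit 18) (.e (nat_lit 204863) (nat_lit 27) (.e (nat_lit 344133) (nat_lit 26) (.e (nat_lit 557105) (nat_lit 14) (.e (nat_lit 188160) (nat_lit 3) .nil))))) (.g (nat_lit 0) (.e (nat_lit 375132) (nat_lit 0) .nil) .nil))) 
(.lf (nat_lit 580222) (.g (nat_lit 2285) (.e (nat_lit 336388) (nat_lit 27) (.e (nat_lit 426316) (nat_lit 12) (.e (nat_lit 475179) (nat_lit 24) (.e (nat_lit 516115) (nat_lit 1) (.e (nat_lit 164325) (nat_lit 230) (.e (nat_lit 163907) (nat_lit 12) (.e (nat_lit 426481) (nat_lit 27) .nil))))))) (.g (nat_lit 1) (.e (nat_lit 376998) (nat_lit 0) .nil) .nil)))) (.nd (nat_lit 9) 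
(.lf (nat_lit 579966) (.g (nat_lit 4170) (.e (nat_lit 336389) (nat_lit 27) (.e (nat_lit 426098) (nat_lit 1) (.e (nat_lit 164327) (nat_lit 230) (.e (nat_lit 163873) (nat_lit 3) (.e (nat_lit 204813) (nat_lit 9) (.e (nat_lit 426197) (nat_lit 9) (.e (nat_lit 426480) (nat_lit 27) .nil))))))) (.g (nat_lit 1) (.e (nat_lit 376602) (nat_lit 0) .nil) .nil))) 
(.lf (nat_lit 580478) (.g (nat_lit 2027) (.e (nat_lit 336407) (nat_lit 27) (.e (nat_lit 426011) (nat_lit 0) (.e (nat_lit 7591) (nat_lit 407) (.e (nat_lit 73775) (nat_lit 26) (.e (nat_lit 778466) (nat_lit 11) .nil))))) (.g (nat_lit 0) (.e (nat_lit 377435) (nat_lit 0) .nil) .nil))))) (.nd (nat_lit 8) (.nd (nat_lit 9) 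
(.lf (nat_lit 579838) (.g (nat_lit 1542) (.e (nat_lit 336385) (nat_lit 27) (.e (nat_lit 426100) (nat_lit 1) (.e (nat_lit 164332) (nat_lit 230) (.e (nat_lit 163873) (nat_lit 3) (.e (nat_lit 204813) (nat_lit 9) .nil))))) (.g (nat_lit 0) (.e (nat_lit 376448) (nat_lit 0) .nil) .nil))) 
(.lf (nat_lit 580350) (.g (nat_lit 2826) (.e (nat_lit 336405) (nat_lit 27) (.e (nat_lit 426187) (nat_lit 9) (.e (nat_lit 426436) (nat_lit 18) (.e (nat_lit 98335) (nat_lit 18) (.e (nat_lit 164332) (nat_lit 230) (.e (nat_lit 163905) (nat_lit 12) (.e (nat_lit 426491) (nat_lit 27) .nil))))))) (.g (nat_lit 1) (.e (nat_lit 377264) (nat_lit 0) .nil) .nil)))) (.nd (nat_lit 9) 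
(.lf (nat_lit 580094) (.g (nat_lit 3482) (.e (nat_lit 336387) (nat_lit 27) (.e (nat_lit 426190) (nat_lit 9) (.e (nat_lit 426436) (nat_lit 18) (.e (nat_lit 98335) (nat_lit 18) (.e (nat_lit 164305) (nat_lit 226) .nil))))) (.g (nat_lit 0) (.e (nat_lit 376811) (nat_lit 0) .nil) .nil))) 
(.lf (nat_lit 580606) (.g (nat_lit 2886) (.e (nat_lit 336414) (nat_lit 27) (.e (nat_lit 425987) (nat_lit 0) (.e (nat_lit 7588) (nat_lit 406) (.e (nat_lit 65653) (nat_lit 27) (.e (nat_lit 426344) (nat_lit 14) (.e (nat_lit 491547) (nat_lit 9) .nil)))))) (.g (nat_lit 1) (.e (nat_lit 377585) (nat_lit 0) .nil) .nil)))))))))))) 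
(.nd (nat_lit 1) (.nd (nat_lit 2) (.nd (nat_lit 3) (.nd (nat_lit 4) (.nd (nat_lit 5) 
(.nd (nat_lit 6) (.nd (nat_lit 7) (.nd (nat_lit 8) (.nd (nat_lit 9) 
(.lf (nat_lit 579585) (.g (nat_lit 2127) (.e (nat_lit 336326) (nat_lit 18) (.e (nat_lit 204863) (nat_lit 27) (.e (nat_lit 344117) (nat_lit 21) (.e (nat_lit 516123) (nat_lit 2) (.e (nat_lit 220928) (nat_lit 17) .nil))))) (.g (nat_lit 0) (.e (nat_lit 374946) (nat_lit 0) .nil) .nil))) 
(.lf (nat_lit 580097) (.g (nat_lit 1967) (.e (nat_lit 336387) (nat_lit 27) (.e (nat_lit 426199) (nat_lit 9) (.e (nat_lit 426131) (nat_lit 3) (.e (nat_lit 204830) (nat_lit 18) (.e (nat_lit 57665) (nat_lit 152) .nil))))) (.g (nat_lit 0) (.e (nat_lit 376815) (nat_lit 0) .nil) .nil)))) (.nd (nat_lit 9) 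
(.lf (nat_lit 579841) (.g (nat_lit 1526) (.e (nat_lit 336385) (nat_lit 27) (.e (nat_lit 426100) (nat_lit 1) (.e (nat_lit 164398) (nat_lit 256) (.e (nat_lit 57379) (nat_lit 3) .nil)))) (.g (nat_lit 0) (.e (nat_lit 376452) (nat_lit 0) .nil) .nil))) 
(.lf (nat_lit 580353) (.g (nat_lit 2211) (.e (nat_lit 336405) (nat_lit 27) (.e (nat_lit 426188) (nat_lit 9) (.e (nat_lit 426436) (nat_lit 18) (.e (nat_lit 98335) (nat_lit 18) (.e (nat_lit 164330) (nat_lit 230) (.e (nat_lit 163905) (nat_lit 12) (.e (nat_lit 426487) (nat_lit 27) .nil))))))) (.g (nat_lit 1) (.e (nat_lit 377267) (nat_lit 0) .nil) .nil))))) (.nd (nat_lit 8) (.nd (nat_lit 9) 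
(.lf (nat_lit 579713) (.g (nat_lit 1097) (.e (nat_lit 336334) (nat_lit 20) (.e (nat_lit 229120) (nat_lit 2) (.e (nat_lit 90157) (nat_lit 11) (.e (nat_lit 24657) (nat_lit 13) (.e (nat_lit 401152) (nat_lit 9) .nil))))) (.g (nat_lit 1) (.e (nat_lit 375276) (nat_lit 0) .nil) .nil))) 
(.lf (nat_lit 580225) (.g (nat_lit 756) (.e (nat_lit 336388) (nat_lit 27) (.e (nat_lit 426316) (nat_lit 12) (.e (nat_lit 475214) (nat_lit 42) .nil))) (.g (nat_lit 0) (.e (nat_lit 377002) (nat_lit 0) .nil) .nil)))) (.nd (nat_lit 9) 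
(.lf (nat_lit 579969) (.g (nat_lit 2061) (.e (nat_lit 336389) (nat_lit 27) (.e (nat_lit 426098) (nat_lit 1) (.e (nat_lit 164327) (nat_lit 230) (.e (nat_lit 163875) (nat_lit 3) (.e (nat_lit 204809) (nat_lit 9) .nil))))) (.g (nat_lit 0) (.e (nat_lit 376605) (nat_lit 0) .nil) .nil))) 
(.lf (nat_lit 580481) (.g (nat_lit 2278) (.e (nat_lit 336407) (nat_lit 27) (.e (nat_lit 426011) (nat_lit 0) (.e (nat_lit 7593) (nat_lit 407) (.e (nat_lit 73775) (nat_lit 26) (.e (nat_lit 778465) (nat_lit 11) .nil))))) (.g (nat_lit 0) (.e (nat_lit 377438) (nat_lit 0) .nil) .nil)))))) (.nd (nat_lit 7) (.nd (nat_lit 8) (.nd (nat_lit 9) 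
(.lf (nat_lit 579649) (.g (nat_lit 1109) (.e (nat_lit 336326) (nat_lit 18) (.e (nat_lit 204880) (nat_lit 32) (.e (nat_lit 385066) (nat_lit 26) (.e (nat_lit 532533) (nat_lit 9) .nil)))) (.g (nat_lit 0) (.e (nat_lit 375048) (nat_lit 0) .nil) .nil))) 
(.lf (nat_lit 580161) (.g (nat_lit 2296) (.e (nat_lit 336388) (nat_lit 27) (.e (nat_lit 426107) (nat_lit 1) (.e (nat_lit 164327) (nat_lit 230) (.e (nat_lit 163868) (nat_lit 2) (.e (nat_lit 196654) (nat_lit 11) (.e (nat_lit 16436) (nat_lit 9) (.e (nat_lit 426481) (nat_lit 27) .nil))))))) (.g (nat_lit 1) (.e (nat_lit 376930) (nat_lit 0) .nil) .nil)))) (.nd (nat_lit 9) 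
(.lf (nat_lit 579905) (.g (nat_lit 1602) (.e (nat_lit 336385) (nat_lit 27) (.e (nat_lit 426316) (nat_lit 12) (.e (nat_lit 475179) (nat_lit 24) (.e (nat_lit 516117) (nat_lit 1) .nil)))) (.g (nat_lit 0) (.e (nat_lit 376538) (nat_lit 0) .nil) .nil))) 
(.lf (nat_lit 580417) (.g (nat_lit 1104) (.e (nat_lit 336408) (nat_lit 27) (.e (nat_lit 426188) (nat_lit 9) (.e (nat_lit 426438) (nat_lit 18) (.e (nat_lit 98335) (nat_lit 18) .nil)))) (.g (nat_lit 0) (.e (nat_lit 377365) (nat_lit 0) .nil) .nil))))) (.nd (nat_lit 8) (.nd (nat_lit 9) 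
(.lf (nat_lit 579777) (.g (nat_lit 2172) (.e (nat_lit 336370) (nat_lit 27) (.e (nat_lit 426317) (nat_lit 12) (.e (nat_lit 475179) (nat_lit 24) (.e (nat_lit 516120) (nat_lit 1) (.e (nat_lit 164332) (nat_lit 230) (.e (nat_lit 163902) (nat_lit 12) (.e (nat_lit 426479) (nat_lit 27) .nil))))))) (.g (nat_lit 1) (.e (nat_lit 376342) (nat_lit 0) .nil) .nil))) 
(.lf (nat_lit 580289) (.g (nat_lit 2259) (.e (nat_lit 336395) (nat_lit 27) (.e (nat_lit 426338) (nat_lit 14) (.e (nat_lit 491571) (nat_lit 13) (.e (nat_lit 393297) (nat_lit 27) (.e (nat_lit 491548) (nat_lit 9) .nil))))) (.g (nat_lit 0) (.e (nat_lit 377128) (nat_lit 0) .nil) .nil)))) (.nd (nat_lit 9) 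
(.lf (nat_lit 580033) (.g (nat_lit 1961) (.e (nat_lit 336387) (nat_lit 27) (.e (nat_lit 426107) (nat_lit 1) (.e (nat_lit 164322) (nat_lit 230) (.e (nat_lit 163873) (nat_lit 3) (.e (nat_lit 204811) (nat_lit 9) .nil))))) (.g (nat_lit 0) (.e (nat_lit 376690) (nat_lit 0) .nil) .nil))) 
(.lf (nat_lit 580545) (.g (nat_lit 1907) (.e (nat_lit 336407) (nat_lit 27) (.e (nat_lit 426308) (nat_lit 12) (.e (nat_lit 475177) (nat_lit 24) (.e (nat_lit 516120) (nat_lit 1) (.e (nat_lit 164330) (nat_lit 230) (.e (nat_lit 163905) (nat_lit 12) (.e (nat_lit 426487) (nat_lit 27) .nil))))))) (.g (nat_lit 1) (.e (nat_lit 377506) (nat_lit 0) .nil) .nil))))))) 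
(.nd (nat_lit 6) (.nd (nat_lit 7) (.nd (nat_lit 8) (.nd (nat_lit 9) 
(.lf (nat_lit 579617) (.g (nat_lit 2590) (.e (nat_lit 336326) (nat_lit 18) (.e (nat_lit 204863) (nat_lit 27) (.e (nat_lit 344133) (nat_lit 26) (.e (nat_lit 557098) (nat_lit 13) (.e (nat_lit 172064) (nat_lit 2) .nil))))) (.g (nat_lit 0) (.e (nat_lit 374991) (nat_lit 0) .nil) .nil))) 
(.lf (nat_lit 580129) (.g (nat_lit 3784) (.e (nat_lit 336387) (nat_lit 27) (.e (nat_lit 426316) (nat_lit 12) (.e (nat_lit 475185) (nat_lit 29) (.e (nat_lit 557093) (nat_lit 12) .nil)))) (.g (nat_lit 0) (.e (nat_lit 376895) (nat_lit 0) .nil) .nil)))) (.nd (nat_lit 9) 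
(.lf (nat_lit 579873) (.g (nat_lit 3576) (.e (nat_lit 336385) (nat_lit 27) (.e (nat_lit 426187) (nat_lit 9) (.e (nat_lit 426436) (nat_lit 18) (.e (nat_lit 98335) (nat_lit 18) (.e (nat_lit 164326) (nat_lit 230) .nil))))) (.g (nat_lit 0) (.e (nat_lit 376496) (nat_lit 0) .nil) .nil))) 
(.lf (nat_lit 580385) (.g (nat_lit 746) (.e (nat_lit 336406) (nat_lit 27) (.e (nat_lit 426108) (nat_lit 1) (.e (nat_lit 164330) (nat_lit 230) .nil))) (.g (nat_lit 0) (.e (nat_lit 377314) (nat_lit 0) .nil) .nil))))) (.nd (nat_lit 8) (.nd (nat_lit 9) 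
(.lf (nat_lit 579745) (.g (nat_lit 2177) (.e (nat_lit 336367) (nat_lit 27) (.e (nat_lit 426320) (nat_lit 12) (.e (nat_lit 475179) (nat_lit 24) (.e (nat_lit 516117) (nat_lit 1) (.e (nat_lit 164332) (nat_lit 230) (.e (nat_lit 163902) (nat_lit 12) (.e (nat_lit 426479) (nat_lit 27) .nil))))))) (.g (nat_lit 1) (.e (nat_lit 376286) (nat_lit 0) .nil) .nil))) 
(.lf (nat_lit 580257) (.g (nat_lit 1965) (.e (nat_lit 336390) (nat_lit 27) (.e (nat_lit 426344) (nat_lit 14) (.e (nat_lit 491556) (nat_lit 9) (.e (nat_lit 336051) (nat_lit 6) (.e (nat_lit 147496) (nat_lit 11) (.e (nat_lit 24636) (nat_lit 9) .nil)))))) (.g (nat_lit 1) (.e (nat_lit 377076) (nat_lit 0) .nil) .nil)))) (.nd (nat_lit 9) 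
(.lf (nat_lit 580001) (.g (nat_lit 3335) (.e (nat_lit 336389) (nat_lit 27) (.e (nat_lit 426308) (nat_lit 12) (.e (nat_lit 475179) (nat_lit 24) (.e (nat_lit 516115) (nat_lit 1) (.e (nat_lit 164327) (nat_lit 230) (.e (nat_lit 163903) (nat_lit 12) (.e (nat_lit 426478) (nat_lit 27) .nil))))))) (.g (nat_lit 1) (.e (nat_lit 376637) (nat_lit 0) .nil) .nil))) 
(.lf (nat_lit 580513) (.g (nat_lit 2953) (.e (nat_lit 336407) (nat_lit 27) (.e (nat_lit 426107) (nat_lit 1) (.e (nat_lit 164327) (nat_lit 230) (.e (nat_lit 163868) (nat_lit 2) (.e (nat_lit 196656) (nat_lit 11) (.e (nat_lit 16436) (nat_lit 9) (.e (nat_lit 426487) (nat_lit 27) .nil))))))) (.g (nat_lit 1) (.e (nat_lit 377472) (nat_lit 0) .nil) .nil)))))) 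
(.nd (nat_lit 7) (.nd (nat_lit 8) (.nd (nat_lit 9) 
(.lf (nat_lit 579681) (.g (nat_lit 2573) (.e (nat_lit 343808) (nat_lit 18) (.e (nat_lit 204830) (nat_lit 18) (.e (nat_lit 57852) (nat_lit 252) (.e (nat_lit 57406) (nat_lit 12) (.e (nat_lit 336456) (nat_lit 34) .nil))))) (.g (nat_lit 0) (.e (nat_lit 375089) (nat_lit 0) .nil) .nil))) 
(.lf (nat_lit 580193) (.g (nat_lit 3024) (.e (nat_lit 336388) (nat_lit 27) (.e (nat_lit 426187) (nat_lit 9) (.e (nat_lit 426436) (nat_lit 18) (.e (nat_lit 98335) (nat_lit 18) (.e (nat_lit 164332) (nat_lit 230) (.e (nat_lit 163902) (nat_lit 12) (.e (nat_lit 426481) (nat_lit 27) .nil))))))) (.g (nat_lit 1) (.e (nat_lit 376967) (nat_lit 0) .nil) .nil)))) (.nd (nat_lit 9) 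
(.lf (nat_lit 579937) (.g (nat_lit 678) (.e (nat_lit 336386) (nat_lit 27) (.e (nat_lit 426306) (nat_lit 12) (.e (nat_lit 475177) (nat_lit 24) .nil))) (.g (nat_lit 0) (.e (nat_lit 376572) (nat_lit 0) .nil) .nil))) 
(.lf (nat_lit 580449) (.g (nat_lit 1447) (.e (nat_lit 336409) (nat_lit 27) (.e (nat_lit 426100) (nat_lit 1) (.e (nat_lit 164399) (nat_lit 256) (.e (nat_lit 57377) (nat_lit 3) .nil)))) (.g (nat_lit 0) (.e (nat_lit 377406) (nat_lit 0) .nil) .nil))))) (.nd (nat_lit 8) (.nd (nat_lit 9) 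
(.lf (nat_lit 579809) (.g (nat_lit 1665) (.e (nat_lit 336378) (nat_lit 27) (.e (nat_lit 426347) (nat_lit 14) (.e (nat_lit 491549) (nat_lit 9) (.e (nat_lit 336421) (nat_lit 28) (.e (nat_lit 434178) (nat_lit 0) (.e (nat_lit 1512) (nat_lit 108) .nil)))))) (.g (nat_lit 1) (.e (nat_lit 376404) (nat_lit 0) .nil) .nil))) 
(.lf (nat_lit 580321) (.g (nat_lit 846) (.e (nat_lit 336417) (nat_lit 27) (.e (nat_lit 426100) (nat_lit 1) (.e (nat_lit 164398) (nat_lit 256) .nil))) (.g (nat_lit 0) (.e (nat_lit 377178) (nat_lit 0) .nil) .nil)))) (.nd (nat_lit 9) 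
(.lf (nat_lit 580065) (.g (nat_lit 1626) (.e (nat_lit 336387) (nat_lit 27) (.e (nat_lit 426107) (nat_lit 1) (.e (nat_lit 164327) (nat_lit 230) (.e (nat_lit 163871) (nat_lit 2) .nil)))) (.g (nat_lit 0) (.e (nat_lit 376744) (nat_lit 0) .nil) .nil))) 
(.lf (nat_lit 580577) (.g (nat_lit 1786) (.e (nat_lit 336412) (nat_lit 27) (.e (nat_lit 426188) (nat_lit 9) (.e (nat_lit 426436) (nat_lit 18) (.e (nat_lit 98334) (nat_lit 18) (.e (nat_lit 164332) (nat_lit 230) .nil))))) (.g (nat_lit 0) (.e (nat_lit 377543) (nat_lit 0) .nil) .nil)))))))) (.nd (nat_lit 5) (.nd (nat_lit 6) (.nd (nat_lit 7) (.nd (nat_lit 8) (.nd (nat_lit 9) 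
(.lf (nat_lit 579601) (.g (nat_lit 869) (.e (nat_lit 336326) (nat_lit 18) (.e (nat_lit 204863) (nat_lit 27) (.e (nat_lit 344131) (nat_lit 26) .nil))) (.g (nat_lit 0) (.e (nat_lit 374969) (nat_lit 0) .nil) .nil))) 
(.lf (nat_lit 580113) (.g (nat_lit 1735) (.e (nat_lit 336387) (nat_lit 27) (.e (nat_lit 426316) (nat_lit 12) (.e (nat_lit 475177) (nat_lit 24) (.e (nat_lit 516117) (nat_lit 1) (.e (nat_lit 164330) (nat_lit 230) .nil))))) (.g (nat_lit 0) (.e (nat_lit 376862) (nat_lit 0) .nil) .nil)))) (.nd (nat_lit 9) 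
(.lf (nat_lit 579857) (.g (nat_lit 2521) (.e (nat_lit 336385) (nat_lit 27) (.e (nat_lit 426107) (nat_lit 1) (.e (nat_lit 164327) (nat_lit 230) (.e (nat_lit 163873) (nat_lit 3) (.e (nat_lit 204813) (nat_lit 9) (.e (nat_lit 426200) (nat_lit 9) (.e (nat_lit 426478) (nat_lit 27) .nil))))))) (.g (nat_lit 1) (.e (nat_lit 376472) (nat_lit 0) .nil) .nil))) 
(.lf (nat_lit 580369) (.g (nat_lit 874) (.e (nat_lit 336406) (nat_lit 27) (.e (nat_lit 426098) (nat_lit 1) (.e (nat_lit 164325) (nat_lit 230) .nil))) (.g (nat_lit 0) (.e (nat_lit 377297) (nat_lit 0) .nil) .nil))))) (.nd (nat_lit 8) (.nd (nat_lit 9) 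
(.lf (nat_lit 579729) (.g (nat_lit 1805) (.e (nat_lit 336360) (nat_lit 25) (.e (nat_lit 409649) (nat_lit 18) (.e (nat_lit 303132) (nat_lit 9) (.e (nat_lit 426109) (nat_lit 1) .nil)))) (.g (nat_lit 0) (.e (nat_lit 376255) (nat_lit 0) .nil) .nil))) 
(.lf (nat_lit 580241) (.g (nat_lit 2146) (.e (nat_lit 336390) (nat_lit 27) (.e (nat_lit 426107) (nat_lit 1) (.e (nat_lit 164325) (nat_lit 230) (.e (nat_lit 163866) (nat_lit 2) .nil)))) (.g (nat_lit 0) (.e (nat_lit 377027) (nat_lit 0) .nil) .nil)))) (.nd (nat_lit 9) 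
(.lf (nat_lit 579985) (.g (nat_lit 3260) (.e (nat_lit 336389) (nat_lit 27) (.e (nat_lit 426187) (nat_lit 9) (.e (nat_lit 426436) (nat_lit 18) (.e (nat_lit 98335) (nat_lit 18) (.e (nat_lit 164327) (nat_lit 230) .nil))))) (.g (nat_lit 0) (.e (nat_lit 376621) (nat_lit 0) .nil) .nil))) 
(.lf (nat_lit 580497) (.g (nat_lit 2451) (.e (nat_lit 336407) (nat_lit 27) (.e (nat_lit 426098) (nat_lit 1) (.e (nat_lit 164327) (nat_lit 230) (.e (nat_lit 163868) (nat_lit 2) (.e (nat_lit 196656) (nat_lit 11) (.e (nat_lit 16436) (nat_lit 9) (.e (nat_lit 426491) (nat_lit 27) .nil))))))) (.g (nat_lit 1) (.e (nat_lit 377455) (nat_lit 0) .nil) .nil)))))) 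
(.nd (nat_lit 7) (.nd (nat_lit 8) (.nd (nat_lit 9) 
(.lf (nat_lit 579665) (.g (nat_lit 1763) (.e (nat_lit 336326) (nat_lit 18) (.e (nat_lit 204882) (nat_lit 32) (.e (nat_lit 385066) (nat_lit 26) (.e (nat_lit 532533) (nat_lit 9) (.e (nat_lit 336325) (nat_lit 18) .nil))))) (.g (nat_lit 0) (.e (nat_lit 375072) (nat_lit 0) .nil) .nil))) 
(.lf (nat_lit 580177) (.g (nat_lit 1378) (.e (nat_lit 336388) (nat_lit 27) (.e (nat_lit 426108) (nat_lit 1) (.e (nat_lit 164330) (nat_lit 230) (.e (nat_lit 163873) (nat_lit 3) .nil)))) (.g (nat_lit 0) (.e (nat_lit 376950) (nat_lit 0) .nil) .nil)))) (.nd (nat_lit 9) 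
(.lf (nat_lit 579921) (.g (nat_lit 847) (.e (nat_lit 336386) (nat_lit 27) (.e (nat_lit 426100) (nat_lit 1) (.e (nat_lit 164398) (nat_lit 256) .nil))) (.g (nat_lit 0) (.e (nat_lit 376555) (nat_lit 0) .nil) .nil))) 
(.lf (nat_lit 580433) (.g (nat_lit 884) (.e (nat_lit 336408) (nat_lit 27) (.e (nat_lit 426306) (nat_lit 12) (.e (nat_lit 475211) (nat_lit 41) .nil))) (.g (nat_lit 0) (.e (nat_lit 377388) (nat_lit 0) .nil) .nil))))) (.nd (nat_lit 8) (.nd (nat_lit 9) 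
(.lf (nat_lit 579793) (.g (nat_lit 2404) (.e (nat_lit 336369) (nat_lit 27) (.e (nat_lit 426173) (nat_lit 7) (.e (nat_lit 409617) (nat_lit 10) (.e (nat_lit 632) (nat_lit 50) (.e (nat_lit 573489) (nat_lit 14) (.e (nat_lit 81664) (nat_lit 32) (.e (nat_lit 227) (nat_lit 21) .nil))))))) (.g (nat_lit 1) (.e (nat_lit 376372) (nat_lit 0) .nil) .nil))) 
(.lf (nat_lit 580305) (.g (nat_lit 1993) (.e (nat_lit 336395) (nat_lit 27) (.e (nat_lit 426340) (nat_lit 14) (.e (nat_lit 491571) (nat_lit 13) (.e (nat_lit 393297) (nat_lit 27) (.e (nat_lit 491547) (nat_lit 9) .nil))))) (.g (nat_lit 0) (.e (nat_lit 377145) (nat_lit 0) .nil) .nil)))) (.nd (nat_lit 9) 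
(.lf (nat_lit 580049) (.g (nat_lit 996) (.e (nat_lit 336387) (nat_lit 27) (.e (nat_lit 426107) (nat_lit 1) (.e (nat_lit 164326) (nat_lit 230) (.e (nat_lit 163868) (nat_lit 2) (.e (nat_lit 196655) (nat_lit 11) .nil))))) (.g (nat_lit 0) (.e (nat_lit 376714) (nat_lit 0) .nil) .nil))) 
(.lf (nat_lit 580561) (.g (nat_lit 1675) (.e (nat_lit 336412) (nat_lit 27) (.e (nat_lit 426098) (nat_lit 1) (.e (nat_lit 164325) (nat_lit 230) (.e (nat_lit 163869) (nat_lit 2) .nil)))) (.g (nat_lit 0) (.e (nat_lit 377524) (nat_lit 0) .nil) .nil))))))) (.nd (nat_lit 6) (.nd (nat_lit 7) (.nd (nat_lit 8) (.nd (nat_lit 9) 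
(.lf (nat_lit 579633) (.g (nat_lit 635) (.e (nat_lit 336326) (nat_lit 18) (.e (nat_lit 204868) (nat_lit 29) (.e (nat_lit 368384) (nat_lit 0) .nil))) (.g (nat_lit 0) (.e (nat_lit 375015) (nat_lit 0) .nil) .nil))) 
(.lf (nat_lit 580145) (.g (nat_lit 2163) (.e (nat_lit 336388) (nat_lit 27) (.e (nat_lit 426100) (nat_lit 1) (.e (nat_lit 164332) (nat_lit 230) (.e (nat_lit 163869) (nat_lit 2) (.e (nat_lit 196656) (nat_lit 11) (.e (nat_lit 16432) (nat_lit 9) (.e (nat_lit 426481) (nat_lit 27) .nil))))))) (.g (nat_lit 1) (.e (nat_lit 376914) (nat_lit 0) .nil) .nil)))) (.nd (nat_lit 9) 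
(.lf (nat_lit 579889) (.g (nat_lit 1454) (.e (nat_lit 336385) (nat_lit 27) (.e (nat_lit 426200) (nat_lit 9) (.e (nat_lit 426131) (nat_lit 3) (.e (nat_lit 204831) (nat_lit 18) .nil)))) (.g (nat_lit 0) (.e (nat_lit 376520) (nat_lit 0) .nil) .nil))) 
(.lf (nat_lit 580401) (.g (nat_lit 1761) (.e (nat_lit 336406) (nat_lit 27) (.e (nat_lit 426344) (nat_lit 14) (.e (nat_lit 491560) (nat_lit 10) (.e (nat_lit 344179) (nat_lit 44) (.e (nat_lit 778466) (nat_lit 11) .nil))))) (.g (nat_lit 0) (.e (nat_lit 377331) (nat_lit 0) .nil) .nil))))) (.nd (nat_lit 8) (.nd (nat_lit 9) 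
(.lf (nat_lit 579761) (.g (nat_lit 1156) (.e (nat_lit 336368) (nat_lit 27) (.e (nat_lit 426211) (nat_lit 9) (.e (nat_lit 426025) (nat_lit 0) (.e (nat_lit 3397) (nat_lit 211) .nil)))) (.g (nat_lit 0) (.e (nat_lit 376317) (nat_lit 0) .nil) .nil))) 
(.lf (nat_lit 580273) (.g (nat_lit 3138) (.e (nat_lit 336398) (nat_lit 27) (.e (nat_lit 426317) (nat_lit 12) (.e (nat_lit 475179) (nat_lit 24) (.e (nat_lit 516120) (nat_lit 1) (.e (nat_lit 164329) (nat_lit 230) .nil))))) (.g (nat_lit 0) (.e (nat_lit 377101) (nat_lit 0) .nil) .nil)))) (.nd (nat_lit 9) 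
(.lf (nat_lit 580017) (.g (nat_lit 1233) (.e (nat_lit 336389) (nat_lit 27) (.e (nat_lit 426344) (nat_lit 14) (.e (nat_lit 491556) (nat_lit 9) (.e (nat_lit 336390) (nat_lit 27) .nil)))) (.g (nat_lit 0) (.e (nat_lit 376653) (nat_lit 0) .nil) .nil))) 
(.lf (nat_lit 580529) (.g (nat_lit 2338) (.e (nat_lit 336407) (nat_lit 27) (.e (nat_lit 426188) (nat_lit 9) (.e (nat_lit 426436) (nat_lit 18) (.e (nat_lit 98335) (nat_lit 18) (.e (nat_lit 164330) (nat_lit 230) (.e (nat_lit 163905) (nat_lit 12) (.e (nat_lit 426491) (nat_lit 27) .nil))))))) (.g (nat_lit 1) (.e (nat_lit 377488) (nat_lit 0) .nil) .nil)))))) 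
(.nd (nat_lit 7) (.nd (nat_lit 8) (.nd (nat_lit 9) 
(.lf (nat_lit 579697) (.g (nat_lit 1323) (.e (nat_lit 343808) (nat_lit 18) (.e (nat_lit 204862) (nat_lit 27) (.e (nat_lit 344133) (nat_lit 26) (.e (nat_lit 557098) (nat_lit 13) .nil)))) (.g (nat_lit 0) (.e (nat_lit 375119) (nat_lit 0) .nil) .nil))) 
(.lf (nat_lit 580209) (.g (nat_lit 2664) (.e (nat_lit 336388) (nat_lit 27) (.e (nat_lit 426306) (nat_lit 12) (.e (nat_lit 475177) (nat_lit 24) (.e (nat_lit 516117) (nat_lit 1) (.e (nat_lit 164330) (nat_lit 230) (.e (nat_lit 163905) (nat_lit 12) (.e (nat_lit 426481) (nat_lit 27) .nil))))))) (.g (nat_lit 1) (.e (nat_lit 376985) (nat_lit 0) .nil) .nil)))) (.nd (nat_lit 9) 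
(.lf (nat_lit 579953) (.g (nat_lit 1650) (.e (nat_lit 336389) (nat_lit 27) (.e (nat_lit 426098) (nat_lit 1) (.e (nat_lit 164325) (nat_lit 230) (.e (nat_lit 163868) (nat_lit 2) .nil)))) (.g (nat_lit 0) (.e (nat_lit 376589) (nat_lit 0) .nil) .nil))) 
(.lf (nat_lit 580465) (.g (nat_lit 2272) (.e (nat_lit 336409) (nat_lit 27) (.e (nat_lit 426200) (nat_lit 9) (.e (nat_lit 426131) (nat_lit 3) (.e (nat_lit 204830) (nat_lit 18) (.e (nat_lit 57692) (nat_lit 156) (.e (nat_lit 163907) (nat_lit 12) (.e (nat_lit 426491) (nat_lit 27) .nil))))))) (.g (nat_lit 1) (.e (nat_lit 377422) (nat_lit 0) .nil) .nil))))) (.nd (nat_lit 8) (.nd (nat_lit 9) 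
(.lf (nat_lit 579825) (.g (nat_lit 1986) (.e (nat_lit 336384) (nat_lit 27) (.e (nat_lit 426098) (nat_lit 1) (.e (nat_lit 164327) (nat_lit 230) (.e (nat_lit 163871) (nat_lit 2) (.e (nat_lit 196654) (nat_lit 11) .nil))))) (.g (nat_lit 0) (.e (nat_lit 376428) (nat_lit 0) .nil) .nil))) 
(.lf (nat_lit 580337) (.g (nat_lit 1614) (.e (nat_lit 336400) (nat_lit 27) (.e (nat_lit 426344) (nat_lit 14) (.e (nat_lit 491560) (nat_lit 10) (.e (nat_lit 344179) (nat_lit 44) .nil)))) (.g (nat_lit 0) (.e (nat_lit 377231) (nat_lit 0) .nil) .nil)))) (.nd (nat_lit 9) 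
(.lf (nat_lit 580081) (.g (nat_lit 1700) (.e (nat_lit 336387) (nat_lit 27) (.e (nat_lit 426108) (nat_lit 1) (.e (nat_lit 164332) (nat_lit 230) (.e (nat_lit 163869) (nat_lit 2) (.e (nat_lit 196656) (nat_lit 11) .nil))))) (.g (nat_lit 0) (.e (nat_lit 376792) (nat_lit 0) .nil) .nil))) 
(.lf (nat_lit 580593) (.g (nat_lit 2739) (.e (nat_lit 336412) (nat_lit 27) (.e (nat_lit 426343) (nat_lit 14) (.e (nat_lit 491560) (nat_lit 10) (.e (nat_lit 344177) (nat_lit 43) (.e (nat_lit 770072) (nat_lit 8) .nil))))) (.g (nat_lit 0) (.e (nat_lit 377567) (nat_lit 0) .nil) .nil))))))))) (.nd (nat_lit 4) (.nd (nat_lit 5) (.nd (nat_lit 6) (.nd (nat_lit 7) (.nd (nat_lit 8) (.nd (nat_lit 9) 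
(.lf (nat_lit 579593) (.g (nat_lit 2376) (.e (nat_lit 336326) (nat_lit 18) (.e (nat_lit 204863) (nat_lit 27) (.e (nat_lit 344129) (nat_lit 26) (.e (nat_lit 557097) (nat_lit 13) (.e (nat_lit 179968) (nat_lit 15) .nil))))) (.g (nat_lit 0) (.e (nat_lit 374961) (nat_lit 0) .nil) .nil))) 
(.lf (nat_lit 580105) (.g (nat_lit 3388) (.e (nat_lit 336387) (nat_lit 27) (.e (nat_lit 426200) (nat_lit 9) (.e (nat_lit 426436) (nat_lit 18) (.e (nat_lit 98334) (nat_lit 18) (.e (nat_lit 164330) (nat_lit 230) (.e (nat_lit 163913) (nat_lit 12) (.e (nat_lit 426503) (nat_lit 27) .nil))))))) (.g (nat_lit 1) (.e (nat_lit 376836) (nat_lit 0) .nil) .nil)))) (.nd (nat_lit 9) 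
(.lf (nat_lit 579849) (.g (nat_lit 1524) (.e (nat_lit 336385) (nat_lit 27) (.e (nat_lit 426107) (nat_lit 1) (.e (nat_lit 164326) (nat_lit 230) (.e (nat_lit 163871) (nat_lit 2) (.e (nat_lit 196655) (nat_lit 11) .nil))))) (.g (nat_lit 0) (.e (nat_lit 376461) (nat_lit 0) .nil) .nil))) 
(.lf (nat_lit 580361) (.g (nat_lit 1699) (.e (nat_lit 336405) (nat_lit 27) (.e (nat_lit 426200) (nat_lit 9) (.e (nat_lit 426436) (nat_lit 18) (.e (nat_lit 98335) (nat_lit 18) .nil)))) (.g (nat_lit 0) (.e (nat_lit 377285) (nat_lit 0) .nil) .nil))))) (.nd (nat_lit 8) (.nd (nat_lit 9) 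
(.lf (nat_lit 579721) (.g (nat_lit 2222) (.e (nat_lit 336337) (nat_lit 20) (.e (nat_lit 221219) (nat_lit 24) (.e (nat_lit 213030) (nat_lit 11) (.e (nat_lit 24617) (nat_lit 7) (.e (nat_lit 319528) (nat_lit 16) (.e (nat_lit 286743) (nat_lit 9) .nil)))))) (.g (nat_lit 1) (.e (nat_lit 376067) (nat_lit 0) .nil) .nil))) 
(.lf (nat_lit 580233) (.g (nat_lit 2842) (.e (nat_lit 336390) (nat_lit 27) (.e (nat_lit 426011) (nat_lit 0) (.e (nat_lit 7591) (nat_lit 407) (.e (nat_lit 73775) (nat_lit 26) (.e (nat_lit 778465) (nat_lit 11) (.e (nat_lit 24636) (nat_lit 9) .nil)))))) (.g (nat_lit 1) (.e (nat_lit 377014) (nat_lit 0) .nil) .nil)))) (.nd (nat_lit 9) 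
(.lf (nat_lit 579977) (.g (nat_lit 881) (.e (nat_lit 336389) (nat_lit 27) (.e (nat_lit 426107) (nat_lit 1) (.e (nat_lit 164326) (nat_lit 230) .nil))) (.g (nat_lit 0) (.e (nat_lit 376613) (nat_lit 0) .nil) .nil))) 
(.lf (nat_lit 580489) (.g (nat_lit 3746) (.e (nat_lit 336407) (nat_lit 27) (.e (nat_lit 426098) (nat_lit 1) (.e (nat_lit 164325) (nat_lit 230) (.e (nat_lit 163873) (nat_lit 3) (.e (nat_lit 204813) (nat_lit 9) (.e (nat_lit 426198) (nat_lit 9) (.e (nat_lit 426489) (nat_lit 27) .nil))))))) (.g (nat_lit 1) (.e (nat_lit 377447) (nat_lit 0) .nil) .nil)))))) 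
(.nd (nat_lit 7) (.nd (nat_lit 8) (.nd (nat_lit 9) 
(.lf (nat_lit 579657) (.g (nat_lit 2354) (.e (nat_lit 336326) (nat_lit 18) (.e (nat_lit 204880) (nat_lit 32) (.e (nat_lit 385068) (nat_lit 26) (.e (nat_lit 532534) (nat_lit 9) (.e (nat_lit 336325) (nat_lit 18) (.e (nat_lit 204852) (nat_lit 26) .nil)))))) (.g (nat_lit 1) (.e (nat_lit 375056) (nat_lit 0) .nil) .nil))) 
(.lf (nat_lit 580169) (.g (nat_lit 3206) (.e (nat_lit 336388) (nat_lit 27) (.e (nat_lit 426107) (nat_lit 1) (.e (nat_lit 164327) (nat_lit 230) (.e (nat_lit 163873) (nat_lit 3) (.e (nat_lit 204813) (nat_lit 9) (.e (nat_lit 426200) (nat_lit 9) (.e (nat_lit 426478) (nat_lit 27) .nil))))))) (.g (nat_lit 1) (.e (nat_lit 376938) (nat_lit 0) .nil) .nil)))) (.nd (nat_lit 9) 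
(.lf (nat_lit 579913) (.g (nat_lit 637) (.e (nat_lit 336385) (nat_lit 27) (.e (nat_lit 426344) (nat_lit 14) (.e (nat_lit 491560) (nat_lit 10) .nil))) (.g (nat_lit 0) (.e (nat_lit 376546) (nat_lit 0) .nil) .nil))) 
(.lf (nat_lit 580425) (.g (nat_lit 2275) (.e (nat_lit 336408) (nat_lit 27) (.e (nat_lit 426200) (nat_lit 9) (.e (nat_lit 426436) (nat_lit 18) (.e (nat_lit 98335) (nat_lit 18) (.e (nat_lit 164330) (nat_lit 230) .nil))))) (.g (nat_lit 0) (.e (nat_lit 377379) (nat_lit 0) .nil) .nil))))) (.nd (nat_lit 8) (.nd (nat_lit 9) 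
(.lf (nat_lit 579785) (.g (nat_lit 1788) (.e (nat_lit 336370) (nat_lit 27) (.e (nat_lit 426499) (nat_lit 27) (.e (nat_lit 335988) (nat_lit 1) (.e (nat_lit 57927) (nat_lit 282) .nil)))) (.g (nat_lit 0) (.e (nat_lit 376353) (nat_lit 0) .nil) .nil))) 
(.lf (nat_lit 580297) (.g (nat_lit 1427) (.e (nat_lit 336395) (nat_lit 27) (.e (nat_lit 426340) (nat_lit 14) (.e (nat_lit 491569) (nat_lit 13) (.e (nat_lit 393301) (nat_lit 27) (.e (nat_lit 499456) (nat_lit 9) .nil))))) (.g (nat_lit 1) (.e (nat_lit 377137) (nat_lit 0) .nil) .nil)))) (.nd (nat_lit 9) 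
(.lf (nat_lit 580041) (.g (nat_lit 1225) (.e (nat_lit 336387) (nat_lit 27) (.e (nat_lit 426107) (nat_lit 1) (.e (nat_lit 164325) (nat_lit 230) (.e (nat_lit 163871) (nat_lit 2) (.e (nat_lit 196656) (nat_lit 11) .nil))))) (.g (nat_lit 0) (.e (nat_lit 376702) (nat_lit 0) .nil) .nil))) 
(.lf (nat_lit 580553) (.g (nat_lit 2439) (.e (nat_lit 336407) (nat_lit 27) (.e (nat_lit 426343) (nat_lit 14) (.e (nat_lit 491560) (nat_lit 10) (.e (nat_lit 344094) (nat_lit 18) (.e (nat_lit 7265) (nat_lit 384) (.e (nat_lit 57406) (nat_lit 12) (.e (nat_lit 336120) (nat_lit 9) .nil))))))) (.g (nat_lit 1) (.e (nat_lit 377514) (nat_lit 0) .nil) .nil))))))) 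
(.nd (nat_lit 6) (.nd (nat_lit 7) (.nd (nat_lit 8) (.nd (nat_lit 9) 
(.lf (nat_lit 579625) (.g (nat_lit 2702) (.e (nat_lit 336326) (nat_lit 18) (.e (nat_lit 204863) (nat_lit 27) (.e (nat_lit 344133) (nat_lit 26) (.e (nat_lit 557098) (nat_lit 13) (.e (nat_lit 179968) (nat_lit 15) (.e (nat_lit 7936) (nat_lit 121) (.e (nat_lit 532529) (nat_lit 9) .nil))))))) (.g (nat_lit 1) (.e (nat_lit 374999) (nat_lit 0) .nil) .nil))) 
(.lf (nat_lit 580137) (.g (nat_lit 1768) (.e (nat_lit 336388) (nat_lit 27) (.e (nat_lit 426098) (nat_lit 1) (.e (nat_lit 164325) (nat_lit 230) (.e (nat_lit 163873) (nat_lit 3) .nil)))) (.g (nat_lit 0) (.e (nat_lit 376905) (nat_lit 0) .nil) .nil)))) (.nd (nat_lit 9) 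
(.lf (nat_lit 579881) (.g (nat_lit 2266) (.e (nat_lit 336385) (nat_lit 27) (.e (nat_lit 426188) (nat_lit 9) (.e (nat_lit 426436) (nat_lit 18) (.e (nat_lit 98335) (nat_lit 18) (.e (nat_lit 164324) (nat_lit 230) (.e (nat_lit 163903) (nat_lit 12) (.e (nat_lit 426481) (nat_lit 27) .nil))))))) (.g (nat_lit 1) (.e (nat_lit 376508) (nat_lit 0) .nil) .nil))) 
(.lf (nat_lit 580393) (.g (nat_lit 1484) (.e (nat_lit 336406) (nat_lit 27) (.e (nat_lit 426306) (nat_lit 12) (.e (nat_lit 475177) (nat_lit 24) (.e (nat_lit 516118) (nat_lit 1) .nil)))) (.g (nat_lit 0) (.e (nat_lit 377323) (nat_lit 0) .nil) .nil))))) (.nd (nat_lit 8) (.nd (nat_lit 9) 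
(.lf (nat_lit 579753) (.g (nat_lit 2769) (.e (nat_lit 336367) (nat_lit 27) (.e (nat_lit 426337) (nat_lit 14) (.e (nat_lit 491556) (nat_lit 9) (.e (nat_lit 336051) (nat_lit 6) (.e (nat_lit 147496) (nat_lit 11) (.e (nat_lit 24625) (nat_lit 9) .nil)))))) (.g (nat_lit 1) (.e (nat_lit 376305) (nat_lit 0) .nil) .nil))) 
(.lf (nat_lit 580265) (.g (nat_lit 1349) (.e (nat_lit 336398) (nat_lit 27) (.e (nat_lit 426290) (nat_lit 10) (.e (nat_lit 434231) (nat_lit 23) (.e (nat_lit 532578) (nat_lit 26) .nil)))) (.g (nat_lit 0) (.e (nat_lit 377091) (nat_lit 0) .nil) .nil)))) (.nd (nat_lit 9) 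
(.lf (nat_lit 580009) (.g (nat_lit 3310) (.e (nat_lit 336389) (nat_lit 27) (.e (nat_lit 426308) (nat_lit 12) (.e (nat_lit 475179) (nat_lit 24) (.e (nat_lit 516120) (nat_lit 1) (.e (nat_lit 164329) (nat_lit 230) (.e (nat_lit 163902) (nat_lit 12) (.e (nat_lit 426481) (nat_lit 27) .nil))))))) (.g (nat_lit 1) (.e (nat_lit 376645) (nat_lit 0) .nil) .nil))) 
(.lf (nat_lit 580521) (.g (nat_lit 2438) (.e (nat_lit 336407) (nat_lit 27) (.e (nat_lit 426107) (nat_lit 1) (.e (nat_lit 164327) (nat_lit 230) (.e (nat_lit 163875) (nat_lit 3) (.e (nat_lit 204813) (nat_lit 9) (.e (nat_lit 426198) (nat_lit 9) (.e (nat_lit 426489) (nat_lit 27) .nil))))))) (.g (nat_lit 1) (.e (nat_lit 377480) (nat_lit 0) .nil) .nil)))))) 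
(.nd (nat_lit 7) (.nd (nat_lit 8) (.nd (nat_lit 9) 
(.lf (nat_lit 579689) (.g (nat_lit 825) (.e (nat_lit 343808) (nat_lit 18) (.e (nat_lit 204831) (nat_lit 18) (.e (nat_lit 57852) (nat_lit 252) (.e (nat_lit 57406) (nat_lit 12) .nil)))) (.g (nat_lit 0) (.e (nat_lit 375097) (nat_lit 0) .nil) .nil))) 
(.lf (nat_lit 580201) (.g (nat_lit 1903) (.e (nat_lit 336388) (nat_lit 27) (.e (nat_lit 426188) (nat_lit 9) (.e (nat_lit 426436) (nat_lit 18) (.e (nat_lit 98335) (nat_lit 18) (.e (nat_lit 164330) (nat_lit 230) (.e (nat_lit 163900) (nat_lit 12) (.e (nat_lit 426481) (nat_lit 27) .nil))))))) (.g (nat_lit 1) (.e (nat_lit 376976) (nat_lit 0) .nil) .nil)))) (.nd (nat_lit 9) 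
(.lf (nat_lit 579945) (.g (nat_lit 2023) (.e (nat_lit 336386) (nat_lit 27) (.e (nat_lit 426306) (nat_lit 12) (.e (nat_lit 475179) (nat_lit 24) (.e (nat_lit 516120) (nat_lit 1) (.e (nat_lit 164332) (nat_lit 230) (.e (nat_lit 163905) (nat_lit 12) (.e (nat_lit 426481) (nat_lit 27) .nil))))))) (.g (nat_lit 1) (.e (nat_lit 376580) (nat_lit 0) .nil) .nil))) 
(.lf (nat_lit 580457) (.g (nat_lit 3036) (.e (nat_lit 336409) (nat_lit 27) (.e (nat_lit 426187) (nat_lit 9) (.e (nat_lit 426436) (nat_lit 18) (.e (nat_lit 98335) (nat_lit 18) (.e (nat_lit 164330) (nat_lit 230) (.e (nat_lit 163905) (nat_lit 12) (.e (nat_lit 426491) (nat_lit 27) .nil))))))) (.g (nat_lit 1) (.e (nat_lit 377414) (nat_lit 0) .nil) .nil))))) (.nd (nat_lit 8) (.nd (nat_lit 9) 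
(.lf (nat_lit 579817) (.g (nat_lit 1998) (.e (nat_lit 336381) (nat_lit 27) (.e (nat_lit 426098) (nat_lit 1) (.e (nat_lit 164327) (nat_lit 230) (.e (nat_lit 163871) (nat_lit 2) (.e (nat_lit 196654) (nat_lit 11) (.e (nat_lit 16436) (nat_lit 9) (.e (nat_lit 426486) (nat_lit 27) .nil))))))) (.g (nat_lit 1) (.e (nat_lit 376416) (nat_lit 0) .nil) .nil))) 
(.lf (nat_lit 580329) (.g (nat_lit 1545) (.e (nat_lit 336419) (nat_lit 27) (.e (nat_lit 426100) (nat_lit 1) (.e (nat_lit 164332) (nat_lit 230) (.e (nat_lit 163867) (nat_lit 2) .nil)))) (.g (nat_lit 0) (.e (nat_lit 377210) (nat_lit 0) .nil) .nil)))) (.nd (nat_lit 9) 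
(.lf (nat_lit 580073) (.g (nat_lit 823) (.e (nat_lit 336387) (nat_lit 27) (.e (nat_lit 426108) (nat_lit 1) (.e (nat_lit 164329) (nat_lit 230) (.e (nat_lit 163873) (nat_lit 3) .nil)))) (.g (nat_lit 0) (.e (nat_lit 376775) (nat_lit 0) .nil) .nil))) 
(.lf (nat_lit 580585) (.g (nat_lit 2334) (.e (nat_lit 336412) (nat_lit 27) (.e (nat_lit 426341) (nat_lit 14) (.e (nat_lit 491571) (nat_lit 13) (.e (nat_lit 393298) (nat_lit 27) (.e (nat_lit 491552) (nat_lit 9) .nil))))) (.g (nat_lit 0) (.e (nat_lit 377556) (nat_lit 0) .nil) .nil)))))))) (.nd (nat_lit 5) (.nd (nat_lit 6) (.nd (nat_lit 7) (.nd (nat_lit 8) (.nd (nat_lit 9) 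
(.lf (nat_lit 579609) (.g (nat_lit 3286) (.e (nat_lit 336326) (nat_lit 18) (.e (nat_lit 204863) (nat_lit 27) (.e (nat_lit 344132) (nat_lit 26) (.e (nat_lit 557100) (nat_lit 13) (.e (nat_lit 172137) (nat_lit 15) .nil))))) (.g (nat_lit 0) (.e (nat_lit 374980) (nat_lit 0) .nil) .nil))) 
(.lf (nat_lit 580121) (.g (nat_lit 2197) (.e (nat_lit 336387) (nat_lit 27) (.e (nat_lit 426316) (nat_lit 12) (.e (nat_lit 475185) (nat_lit 29) (.e (nat_lit 557089) (nat_lit 12) (.e (nat_lit 164031) (nat_lit 53) (.e (nat_lit 761905) (nat_lit 16) (.e (nat_lit 179968) (nat_lit 27) .nil))))))) (.g (nat_lit 1) (.e (nat_lit 376881) (nat_lit 0) .nil) .nil)))) (.nd (nat_lit 9) 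
(.lf (nat_lit 579865) (.g (nat_lit 1477) (.e (nat_lit 336385) (nat_lit 27) (.e (nat_lit 426108) (nat_lit 1) (.e (nat_lit 164330) (nat_lit 230) (.e (nat_lit 163873) (nat_lit 3) .nil)))) (.g (nat_lit 0) (.e (nat_lit 376485) (nat_lit 0) .nil) .nil))) 
(.lf (nat_lit 580377) (.g (nat_lit 1801) (.e (nat_lit 336406) (nat_lit 27) (.e (nat_lit 426098) (nat_lit 1) (.e (nat_lit 164399) (nat_lit 256) (.e (nat_lit 57377) (nat_lit 3) (.e (nat_lit 98365) (nat_lit 26) .nil))))) (.g (nat_lit 0) (.e (nat_lit 377305) (nat_lit 0) .nil) .nil))))) (.nd (nat_lit 8) (.nd (nat_lit 9) 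
(.lf (nat_lit 579737) (.g (nat_lit 2617) (.e (nat_lit 336360) (nat_lit 25) (.e (nat_lit 409649) (nat_lit 18) (.e (nat_lit 303140) (nat_lit 10) (.e (nat_lit 434286) (nat_lit 42) (.e (nat_lit 688157) (nat_lit 13) .nil))))) (.g (nat_lit 0) (.e (nat_lit 376265) (nat_lit 0) .nil) .nil))) 
(.lf (nat_lit 580249) (.g (nat_lit 4172) (.e (nat_lit 336390) (nat_lit 27) (.e (nat_lit 426308) (nat_lit 12) (.e (nat_lit 475179) (nat_lit 24) (.e (nat_lit 516117) (nat_lit 1) (.e (nat_lit 164330) (nat_lit 230) (.e (nat_lit 163905) (nat_lit 12) (.e (nat_lit 426530) (nat_lit 27) .nil))))))) (.g (nat_lit 1) (.e (nat_lit 377046) (nat_lit 0) .nil) .nil)))) (.nd (nat_lit 9) 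
(.lf (nat_lit 579993) (.g (nat_lit 2746) (.e (nat_lit 336389) (nat_lit 27) (.e (nat_lit 426308) (nat_lit 12) (.e (nat_lit 475177) (nat_lit 24) (.e (nat_lit 516115) (nat_lit 1) (.e (nat_lit 164325) (nat_lit 230) (.e (nat_lit 163901) (nat_lit 12) (.e (nat_lit 426481) (nat_lit 27) .nil))))))) (.g (nat_lit 1) (.e (nat_lit 376629) (nat_lit 0) .nil) .nil))) 
(.lf (nat_lit 580505) (.g (nat_lit 1362) (.e (nat_lit 336407) (nat_lit 27) (.e (nat_lit 426107) (nat_lit 1) (.e (nat_lit 164325) (nat_lit 230) (.e (nat_lit 163871) (nat_lit 2) .nil)))) (.g (nat_lit 0) (.e (nat_lit 377464) (nat_lit 0) .nil) .nil)))))) (.nd (nat_lit 7) (.nd (nat_lit 8) (.nd (nat_lit 9) 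
(.lf (nat_lit 579673) (.g (nat_lit 3288) (.e (nat_lit 336326) (nat_lit 18) (.e (nat_lit 204882) (nat_lit 32) (.e (nat_lit 385068) (nat_lit 26) (.e (nat_lit 532534) (nat_lit 9) (.e (nat_lit 336324) (nat_lit 18) (.e (nat_lit 204854) (nat_lit 26) .nil)))))) (.g (nat_lit 1) (.e (nat_lit 375081) (nat_lit 0) .nil) .nil))) 
(.lf (nat_lit 580185) (.g (nat_lit 1856) (.e (nat_lit 336388) (nat_lit 27) (.e (nat_lit 426108) (nat_lit 1) (.e (nat_lit 164332) (nat_lit 230) (.e (nat_lit 163873) (nat_lit 3) (.e (nat_lit 204813) (nat_lit 9) .nil))))) (.g (nat_lit 0) (.e (nat_lit 376959) (nat_lit 0) .nil) .nil)))) (.nd (nat_lit 9) 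
(.lf (nat_lit 579929) (.g (nat_lit 3021) (.e (nat_lit 336386) (nat_lit 27) (.e (nat_lit 426187) (nat_lit 9) (.e (nat_lit 426436) (nat_lit 18) (.e (nat_lit 98335) (nat_lit 18) (.e (nat_lit 164325) (nat_lit 230) (.e (nat_lit 163907) (nat_lit 12) (.e (nat_lit 426481) (nat_lit 27) .nil))))))) (.g (nat_lit 1) (.e (nat_lit 376563) (nat_lit 0) .nil) .nil))) 
(.lf (nat_lit 580441) (.g (nat_lit 2602) (.e (nat_lit 336409) (nat_lit 27) (.e (nat_lit 426098) (nat_lit 1) (.e (nat_lit 164327) (nat_lit 230) (.e (nat_lit 163873) (nat_lit 3) (.e (nat_lit 204813) (nat_lit 9) (.e (nat_lit 426200) (nat_lit 9) (.e (nat_lit 426487) (nat_lit 27) .nil))))))) (.g (nat_lit 1) (.e (nat_lit 377396) (nat_lit 0) .nil) .nil))))) (.nd (nat_lit 8) (.nd (nat_lit 9) 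
(.lf (nat_lit 579801) (.g (nat_lit 2721) (.e (nat_lit 336372) (nat_lit 27) (.e (nat_lit 426318) (nat_lit 12) (.e (nat_lit 475210) (nat_lit 41) (.e (nat_lit 712745) (nat_lit 27) (.e (nat_lit 426347) (nat_lit 14) .nil))))) (.g (nat_lit 0) (.e (nat_lit 376388) (nat_lit 0) .nil) .nil))) 
(.lf (nat_lit 580313) (.g (nat_lit 1891) (.e (nat_lit 336416) (nat_lit 27) (.e (nat_lit 426100) (nat_lit 1) (.e (nat_lit 164332) (nat_lit 230) (.e (nat_lit 163867) (nat_lit 2) (.e (nat_lit 196656) (nat_lit 11) .nil))))) (.g (nat_lit 0) (.e (nat_lit 377156) (nat_lit 0) .nil) .nil)))) (.nd (nat_lit 9) 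
(.lf (nat_lit 580057) (.g (nat_lit 687) (.e (nat_lit 336387) (nat_lit 27) (.e (nat_lit 426107) (nat_lit 1) (.e (nat_lit 164326) (nat_lit 230) (.e (nat_lit 163873) (nat_lit 3) .nil)))) (.g (nat_lit 0) (.e (nat_lit 376725) (nat_lit 0) .nil) .nil))) 
(.lf (nat_lit 580569) (.g (nat_lit 3289) (.e (nat_lit 336412) (nat_lit 27) (.e (nat_lit 426098) (nat_lit 1) (.e (nat_lit 164327) (nat_lit 230) (.e (nat_lit 163873) (nat_lit 3) (.e (nat_lit 204813) (nat_lit 9) (.e (nat_lit 426200) (nat_lit 9) (.e (nat_lit 426509) (nat_lit 27) .nil))))))) (.g (nat_lit 1) (.e (nat_lit 377534) (nat_lit 0) .nil) .nil))))))) 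
(.nd (nat_lit 6) (.nd (nat_lit 7) (.nd (nat_lit 8) (.nd (nat_lit 9) 
(.lf (nat_lit 579641) (.g (nat_lit 1895) (.e (nat_lit 336326) (nat_lit 18) (.e (nat_lit 204879) (nat_lit 32) (.e (nat_lit 385066) (nat_lit 26) (.e (nat_lit 532530) (nat_lit 9) (.e (nat_lit 336324) (nat_lit 18) (.e (nat_lit 204854) (nat_lit 26) .nil)))))) (.g (nat_lit 1) (.e (nat_lit 375039) (nat_lit 0) .nil) .nil))) 
(.lf (nat_lit 580153) (.g (nat_lit 1766) (.e (nat_lit 336388) (nat_lit 27) (.e (nat_lit 426107) (nat_lit 1) (.e (nat_lit 164325) (nat_lit 230) (.e (nat_lit 163873) (nat_lit 3) .nil)))) (.g (nat_lit 0) (.e (nat_lit 376922) (nat_lit 0) .nil) .nil)))) (.nd (nat_lit 9) 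
(.lf (nat_lit 579897) (.g (nat_lit 2139) (.e (nat_lit 336385) (nat_lit 27) (.e (nat_lit 426306) (nat_lit 12) (.e (nat_lit 475179) (nat_lit 24) (.e (nat_lit 516115) (nat_lit 1) (.e (nat_lit 164325) (nat_lit 230) .nil))))) (.g (nat_lit 0) (.e (nat_lit 376530) (nat_lit 0) .nil) .nil))) 
(.lf (nat_lit 580409) (.g (nat_lit 1123) (.e (nat_lit 336408) (nat_lit 27) (.e (nat_lit 426107) (nat_lit 1) (.e (nat_lit 164403) (nat_lit 256) .nil))) (.g (nat_lit 0) (.e (nat_lit 377352) (nat_lit 0) .nil) .nil))))) (.nd (nat_lit 8) (.nd (nat_lit 9) 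
(.lf (nat_lit 579769) (.g (nat_lit 2900) (.e (nat_lit 336368) (nat_lit 27) (.e (nat_lit 426499) (nat_lit 27) (.e (nat_lit 335986) (nat_lit 1) (.e (nat_lit 57847) (nat_lit 252) (.e (nat_lit 57375) (nat_lit 2) (.e (nat_lit 90160) (nat_lit 11) (.e (nat_lit 24624) (nat_lit 9) .nil))))))) (.g (nat_lit 1) (.e (nat_lit 376326) (nat_lit 0) .nil) .nil))) 
(.lf (nat_lit 580281) (.g (nat_lit 1813) (.e (nat_lit 336394) (nat_lit 27) (.e (nat_lit 426340) (nat_lit 14) (.e (nat_lit 491571) (nat_lit 13) (.e (nat_lit 393242) (nat_lit 17) (.e (nat_lit 7549) (nat_lit 402) .nil))))) (.g (nat_lit 0) (.e (nat_lit 377115) (nat_lit 0) .nil) .nil)))) (.nd (nat_lit 9) 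
(.lf (nat_lit 580025) (.g (nat_lit 1187) (.e (nat_lit 336387) (nat_lit 27) (.e (nat_lit 426098) (nat_lit 1) (.e (nat_lit 164327) (nat_lit 230) (.e (nat_lit 163875) (nat_lit 3) .nil)))) (.g (nat_lit 0) (.e (nat_lit 376669) (nat_lit 0) .nil) .nil))) 
(.lf (nat_lit 580537) (.g (nat_lit 2214) (.e (nat_lit 336407) (nat_lit 27) (.e (nat_lit 426200) (nat_lit 9) (.e (nat_lit 426131) (nat_lit 3) (.e (nat_lit 204830) (nat_lit 18) (.e (nat_lit 57663) (nat_lit 152) .nil))))) (.g (nat_lit 0) (.e (nat_lit 377496) (nat_lit 0) .nil) .nil)))))) (.nd (nat_lit 7) (.nd (nat_lit 8) (.nd (nat_lit 9) 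
(.lf (nat_lit 579705) (.g (nat_lit 1490) (.e (nat_lit 343808) (nat_lit 18) (.e (nat_lit 204863) (nat_lit 27) (.e (nat_lit 344132) (nat_lit 26) (.e (nat_lit 557101) (nat_lit 13) .nil)))) (.g (nat_lit 0) (.e (nat_lit 375127) (nat_lit 0) .nil) .nil))) 
(.lf (nat_lit 580217) (.g (nat_lit 1927) (.e (nat_lit 336388) (nat_lit 27) (.e (nat_lit 426306) (nat_lit 12) (.e (nat_lit 475179) (nat_lit 24) (.e (nat_lit 516119) (nat_lit 1) (.e (nat_lit 164325) (nat_lit 230) .nil))))) (.g (nat_lit 0) (.e (nat_lit 376993) (nat_lit 0) .nil) .nil)))) (.nd (nat_lit 9) 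
(.lf (nat_lit 579961) (.g (nat_lit 2181) (.e (nat_lit 336389) (nat_lit 27) (.e (nat_lit 426098) (nat_lit 1) (.e (nat_lit 164325) (nat_lit 230) (.e (nat_lit 163875) (nat_lit 3) (.e (nat_lit 204809) (nat_lit 9) .nil))))) (.g (nat_lit 0) (.e (nat_lit 376597) (nat_lit 0) .nil) .nil))) 
(.lf (nat_lit 580473) (.g (nat_lit 2626) (.e (nat_lit 336409) (nat_lit 27) (.e (nat_lit 426306) (nat_lit 12) (.e (nat_lit 475177) (nat_lit 24) (.e (nat_lit 516120) (nat_lit 1) (.e (nat_lit 164330) (nat_lit 230) (.e (nat_lit 163905) (nat_lit 12) (.e (nat_lit 426487) (nat_lit 27) .nil))))))) (.g (nat_lit 1) (.e (nat_lit 377430) (nat_lit 0) .nil) .nil))))) (.nd (nat_lit 8) (.nd (nat_lit 9) 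
(.lf (nat_lit 579833) (.g (nat_lit 2024) (.e (nat_lit 336385) (nat_lit 27) (.e (nat_lit 426098) (nat_lit 1) (.e (nat_lit 164325) (nat_lit 230) (.e (nat_lit 163873) (nat_lit 3) .nil)))) (.g (nat_lit 0) (.e (nat_lit 376437) (nat_lit 0) .nil) .nil))) 
(.lf (nat_lit 580345) (.g (nat_lit 1471) (.e (nat_lit 336405) (nat_lit 27) (.e (nat_lit 426100) (nat_lit 1) (.e (nat_lit 164398) (nat_lit 256) (.e (nat_lit 57379) (nat_lit 3) .nil)))) (.g (nat_lit 0) (.e (nat_lit 377248) (nat_lit 0) .nil) .nil)))) (.nd (nat_lit 9) 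
(.lf (nat_lit 580089) (.g (nat_lit 2631) (.e (nat_lit 336387) (nat_lit 27) (.e (nat_lit 426188) (nat_lit 9) (.e (nat_lit 426436) (nat_lit 18) (.e (nat_lit 98334) (nat_lit 18) (.e (nat_lit 164330) (nat_lit 230) (.e (nat_lit 163908) (nat_lit 12) (.e (nat_lit 426528) (nat_lit 27) .nil))))))) (.g (nat_lit 1) (.e (nat_lit 376803) (nat_lit 0) .nil) .nil))) 
(.lf (nat_lit 580601) (.g (nat_lit 1995) (.e (nat_lit 336413) (nat_lit 27) (.e (nat_lit 426098) (nat_lit 1) (.e (nat_lit 164327) (nat_lit 230) (.e (nat_lit 163868) (nat_lit 2) (.e (nat_lit 196654) (nat_lit 11) .nil))))) (.g (nat_lit 0) (.e (nat_lit 377580) (nat_lit 0) .nil) .nil)))))))))) 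
(.nd (nat_lit 3) (.nd (nat_lit 4) (.nd (nat_lit 5) (.nd (nat_lit 6) (.nd (nat_lit 7) 
(.nd (nat_lit 8) (.nd (nat_lit 9) 
(.lf (nat_lit 579589) (.g (nat_lit 1378) (.e (nat_lit 336326) (nat_lit 18) (.e (nat_lit 204863) (nat_lit 27) (.e (nat_lit 344129) (nat_lit 26) (.e (nat_lit 557097) (nat_lit 13) .nil)))) (.g (nat_lit 0) (.e (nat_lit 374957) (nat_lit 0) .nil) .nil))) 
(.lf (nat_lit 580101) (.g (nat_lit 1327) (.e (nat_lit 336387) (nat_lit 27) (.e (nat_lit 426200) (nat_lit 9) (.e (nat_lit 426131) (nat_lit 3) (.e (nat_lit 204830) (nat_lit 18) .nil)))) (.g (nat_lit 0) (.e (nat_lit 376825) (nat_lit 0) .nil) .nil)))) (.nd (nat_lit 9) 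
(.lf (nat_lit 579845) (.g (nat_lit 2056) (.e (nat_lit 336385) (nat_lit 27) (.e (nat_lit 426107) (nat_lit 1) (.e (nat_lit 164325) (nat_lit 230) (.e (nat_lit 163873) (nat_lit 3) .nil)))) (.g (nat_lit 0) (.e (nat_lit 376456) (nat_lit 0) .nil) .nil))) 
(.lf (nat_lit 580357) (.g (nat_lit 1997) (.e (nat_lit 336405) (nat_lit 27) (.e (nat_lit 426200) (nat_lit 9) (.e (nat_lit 426131) (nat_lit 3) (.e (nat_lit 204829) (nat_lit 18) (.e (nat_lit 57692) (nat_lit 156) .nil))))) (.g (nat_lit 0) (.e (nat_lit 377278) (nat_lit 0) .nil) .nil))))) (.nd (nat_lit 8) (.nd (nat_lit 9) 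
(.lf (nat_lit 579717) (.g (nat_lit 1387) (.e (nat_lit 336336) (nat_lit 20) (.e (nat_lit 229120) (nat_lit 2) (.e (nat_lit 90160) (nat_lit 11) (.e (nat_lit 24657) (nat_lit 13) (.e (nat_lit 401152) (nat_lit 9) .nil))))) (.g (nat_lit 1) (.e (nat_lit 375668) (nat_lit 0) .nil) .nil))) 
(.lf (nat_lit 580229) (.g (nat_lit 2096) (.e (nat_lit 336392) (nat_lit 27) (.e (nat_lit 426011) (nat_lit 0) (.e (nat_lit 7593) (nat_lit 407) (.e (nat_lit 73775) (nat_lit 26) .nil)))) (.g (nat_lit 0) (.e (nat_lit 377006) (nat_lit 0) .nil) .nil)))) (.nd (nat_lit 9) 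
(.lf (nat_lit 579973) (.g (nat_lit 1456) (.e (nat_lit 336389) (nat_lit 27) (.e (nat_lit 426098) (nat_lit 1) (.e (nat_lit 164403) (nat_lit 256) (.e (nat_lit 57377) (nat_lit 3) .nil)))) (.g (nat_lit 0) (.e (nat_lit 376609) (nat_lit 0) .nil) .nil))) 
(.lf (nat_lit 580485) (.g (nat_lit 2243) (.e (nat_lit 336407) (nat_lit 27) (.e (nat_lit 426098) (nat_lit 1) (.e (nat_lit 164325) (nat_lit 230) (.e (nat_lit 163868) (nat_lit 2) (.e (nat_lit 196656) (nat_lit 11) .nil))))) (.g (nat_lit 0) (.e (nat_lit 377443) (nat_lit 0) .nil) .nil)))))) (.nd (nat_lit 7) (.nd (nat_lit 8) (.nd (nat_lit 9) 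
(.lf (nat_lit 579653) (.g (nat_lit 937) (.e (nat_lit 336326) (nat_lit 18) (.e (nat_lit 204880) (nat_lit 32) (.e (nat_lit 385066) (nat_lit 26) (.e (nat_lit 532566) (nat_lit 15) .nil)))) (.g (nat_lit 0) (.e (nat_lit 375052) (nat_lit 0) .nil) .nil))) 
(.lf (nat_lit 580165) (.g (nat_lit 2936) (.e (nat_lit 336388) (nat_lit 27) (.e (nat_lit 426107) (nat_lit 1) (.e (nat_lit 164327) (nat_lit 230) (.e (nat_lit 163868) (nat_lit 2) (.e (nat_lit 196656) (nat_lit 11) (.e (nat_lit 16436) (nat_lit 9) (.e (nat_lit 426481) (nat_lit 27) .nil))))))) (.g (nat_lit 1) (.e (nat_lit 376934) (nat_lit 0) .nil) .nil)))) (.nd (nat_lit 9) 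
(.lf (nat_lit 579909) (.g (nat_lit 2680) (.e (nat_lit 336385) (nat_lit 27) (.e (nat_lit 426343) (nat_lit 14) (.e (nat_lit 491558) (nat_lit 10) (.e (nat_lit 344177) (nat_lit 43) (.e (nat_lit 770072) (nat_lit 8) .nil))))) (.g (nat_lit 0) (.e (nat_lit 376542) (nat_lit 0) .nil) .nil))) 
(.lf (nat_lit 580421) (.g (nat_lit 1973) (.e (nat_lit 336408) (nat_lit 27) (.e (nat_lit 426200) (nat_lit 9) (.e (nat_lit 426131) (nat_lit 3) (.e (nat_lit 204830) (nat_lit 18) (.e (nat_lit 57663) (nat_lit 152) .nil))))) (.g (nat_lit 0) (.e (nat_lit 377371) (nat_lit 0) .nil) .nil))))) (.nd (nat_lit 8) (.nd (nat_lit 9) 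
(.lf (nat_lit 579781) (.g (nat_lit 1790) (.e (nat_lit 336370) (nat_lit 27) (.e (nat_lit 426501) (nat_lit 27) (.e (nat_lit 335988) (nat_lit 1) (.e (nat_lit 57927) (nat_lit 282) (.e (nat_lit 163873) (nat_lit 3) (.e (nat_lit 204861) (nat_lit 26) (.e (nat_lit 336075) (nat_lit 9) .nil))))))) (.g (nat_lit 1) (.e (nat_lit 376347) (nat_lit 0) .nil) .nil))) 
(.lf (nat_lit 580293) (.g (nat_lit 1106) (.e (nat_lit 336395) (nat_lit 27) (.e (nat_lit 426339) (nat_lit 14) (.e (nat_lit 491571) (nat_lit 13) (.e (nat_lit 393298) (nat_lit 27) .nil)))) (.g (nat_lit 0) (.e (nat_lit 377132) (nat_lit 0) .nil) .nil)))) (.nd (nat_lit 9) 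
(.lf (nat_lit 580037) (.g (nat_lit 2234) (.e (nat_lit 336387) (nat_lit 27) (.e (nat_lit 426107) (nat_lit 1) (.e (nat_lit 164324) (nat_lit 230) (.e (nat_lit 163873) (nat_lit 3) (.e (nat_lit 204811) (nat_lit 9) .nil))))) (.g (nat_lit 0) (.e (nat_lit 376697) (nat_lit 0) .nil) .nil))) 
(.lf (nat_lit 580549) (.g (nat_lit 2528) (.e (nat_lit 336407) (nat_lit 27) (.e (nat_lit 426343) (nat_lit 14) (.e (nat_lit 491558) (nat_lit 10) (.e (nat_lit 344090) (nat_lit 18) (.e (nat_lit 7265) (nat_lit 384) (.e (nat_lit 57406) (nat_lit 12) (.e (nat_lit 336120) (nat_lit 9) .nil))))))) (.g (nat_lit 1) (.e (nat_lit 377510) (nat_lit 0) .nil) .nil))))))) 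
(.nd (nat_lit 6) (.nd (nat_lit 7) (.nd (nat_lit 8) (.nd (nat_lit 9) 
(.lf (nat_lit 579621) (.g (nat_lit 3192) (.e (nat_lit 336326) (nat_lit 18) (.e (nat_lit 204863) (nat_lit 27) (.e (nat_lit 344133) (nat_lit 26) (.e (nat_lit 557098) (nat_lit 13) (.e (nat_lit 172131) (nat_lit 15) (.e (nat_lit 7936) (nat_lit 121) (.e (nat_lit 532529) (nat_lit 9) .nil))))))) (.g (nat_lit 1) (.e (nat_lit 374995) (nat_lit 0) .nil) .nil))) 
(.lf (nat_lit 580133) (.g (nat_lit 1430) (.e (nat_lit 336387) (nat_lit 27) (.e (nat_lit 426344) (nat_lit 14) (.e (nat_lit 491560) (nat_lit 10) (.e (nat_lit 344179) (nat_lit 44) .nil)))) (.g (nat_lit 0) (.e (nat_lit 376901) (nat_lit 0) .nil) .nil)))) (.nd (nat_lit 9) 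
(.lf (nat_lit 579877) (.g (nat_lit 2879) (.e (nat_lit 336385) (nat_lit 27) (.e (nat_lit 426187) (nat_lit 9) (.e (nat_lit 426436) (nat_lit 18) (.e (nat_lit 98335) (nat_lit 18) (.e (nat_lit 164332) (nat_lit 230) (.e (nat_lit 163905) (nat_lit 12) (.e (nat_lit 426480) (nat_lit 27) .nil))))))) (.g (nat_lit 1) (.e (nat_lit 376500) (nat_lit 0) .nil) .nil))) 
(.lf (nat_lit 580389) (.g (nat_lit 2796) (.e (nat_lit 336406) (nat_lit 27) (.e (nat_lit 426187) (nat_lit 9) (.e (nat_lit 426436) (nat_lit 18) (.e (nat_lit 98335) (nat_lit 18) (.e (nat_lit 164332) (nat_lit 230) (.e (nat_lit 163902) (nat_lit 12) (.e (nat_lit 426489) (nat_lit 27) .nil))))))) (.g (nat_lit 1) (.e (nat_lit 377318) (nat_lit 0) .nil) .nil))))) (.nd (nat_lit 8) (.nd (nat_lit 9) 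
(.lf (nat_lit 579749) (.g (nat_lit 1830) (.e (nat_lit 336367) (nat_lit 27) (.e (nat_lit 426320) (nat_lit 12) (.e (nat_lit 475198) (nat_lit 40) (.e (nat_lit 704595) (nat_lit 5) (.e (nat_lit 180277) (nat_lit 32) .nil))))) (.g (nat_lit 0) (.e (nat_lit 376295) (nat_lit 0) .nil) .nil))) 
(.lf (nat_lit 580261) (.g (nat_lit 1155) (.e (nat_lit 336398) (nat_lit 27) (.e (nat_lit 426290) (nat_lit 10) (.e (nat_lit 434209) (nat_lit 18) (.e (nat_lit 5223) (nat_lit 296) .nil)))) (.g (nat_lit 0) (.e (nat_lit 377082) (nat_lit 0) .nil) .nil)))) (.nd (nat_lit 9) 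
(.lf (nat_lit 580005) (.g (nat_lit 3402) (.e (nat_lit 336389) (nat_lit 27) (.e (nat_lit 426308) (nat_lit 12) (.e (nat_lit 475179) (nat_lit 24) (.e (nat_lit 516117) (nat_lit 1) (.e (nat_lit 164330) (nat_lit 230) (.e (nat_lit 163902) (nat_lit 12) (.e (nat_lit 426478) (nat_lit 27) .nil))))))) (.g (nat_lit 1) (.e (nat_lit 376641) (nat_lit 0) .nil) .nil))) 
(.lf (nat_lit 580517) (.g (nat_lit 2494) (.e (nat_lit 336407) (nat_lit 27) (.e (nat_lit 426107) (nat_lit 1) (.e (nat_lit 164327) (nat_lit 230) (.e (nat_lit 163873) (nat_lit 3) (.e (nat_lit 204813) (nat_lit 9) .nil))))) (.g (nat_lit 0) (.e (nat_lit 377476) (nat_lit 0) .nil) .nil)))))) (.nd (nat_lit 7) (.nd (nat_lit 8) (.nd (nat_lit 9) 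
(.lf (nat_lit 579685) (.g (nat_lit 920) (.e (nat_lit 343808) (nat_lit 18) (.e (nat_lit 204831) (nat_lit 18) (.e (nat_lit 57846) (nat_lit 252) (.e (nat_lit 57447) (nat_lit 19) .nil)))) (.g (nat_lit 0) (.e (nat_lit 375093) (nat_lit 0) .nil) .nil))) 
(.lf (nat_lit 580197) (.g (nat_lit 2030) (.e (nat_lit 336388) (nat_lit 27) (.e (nat_lit 426188) (nat_lit 9) (.e (nat_lit 426436) (nat_lit 18) (.e (nat_lit 98335) (nat_lit 18) (.e (nat_lit 164325) (nat_lit 230) (.e (nat_lit 163903) (nat_lit 12) (.e (nat_lit 426481) (nat_lit 27) .nil))))))) (.g (nat_lit 1) (.e (nat_lit 376972) (nat_lit 0) .nil) .nil)))) (.nd (nat_lit 9) 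
(.lf (nat_lit 579941) (.g (nat_lit 1540) (.e (nat_lit 336386) (nat_lit 27) (.e (nat_lit 426306) (nat_lit 12) (.e (nat_lit 475177) (nat_lit 24) (.e (nat_lit 516119) (nat_lit 1) .nil)))) (.g (nat_lit 0) (.e (nat_lit 376576) (nat_lit 0) .nil) .nil))) 
(.lf (nat_lit 580453) (.g (nat_lit 2090) (.e (nat_lit 336409) (nat_lit 27) (.e (nat_lit 426108) (nat_lit 1) (.e (nat_lit 164330) (nat_lit 230) (.e (nat_lit 163869) (nat_lit 2) .nil)))) (.g (nat_lit 0) (.e (nat_lit 377410) (nat_lit 0) .nil) .nil))))) (.nd (nat_lit 8) (.nd (nat_lit 9) 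
(.lf (nat_lit 579813) (.g (nat_lit 1514) (.e (nat_lit 336377) (nat_lit 27) (.e (nat_lit 426525) (nat_lit 27) (.e (nat_lit 336196) (nat_lit 12) (.e (nat_lit 385066) (nat_lit 26) (.e (nat_lit 532501) (nat_lit 1) .nil))))) (.g (nat_lit 0) (.e (nat_lit 376409) (nat_lit 0) .nil) .nil))) 
(.lf (nat_lit 580325) (.g (nat_lit 2336) (.e (nat_lit 336419) (nat_lit 27) (.e (nat_lit 426098) (nat_lit 1) (.e (nat_lit 164325) (nat_lit 230) (.e (nat_lit 163866) (nat_lit 2) .nil)))) (.g (nat_lit 0) (.e (nat_lit 377201) (nat_lit 0) .nil) .nil)))) (.nd (nat_lit 9) 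
(.lf (nat_lit 580069) (.g (nat_lit 2962) (.e (nat_lit 336387) (nat_lit 27) (.e (nat_lit 426107) (nat_lit 1) (.e (nat_lit 164327) (nat_lit 230) (.e (nat_lit 163875) (nat_lit 3) (.e (nat_lit 204811) (nat_lit 9) (.e (nat_lit 426259) (nat_lit 9) (.e (nat_lit 426503) (nat_lit 27) .nil))))))) (.g (nat_lit 1) (.e (nat_lit 376754) (nat_lit 0) .nil) .nil))) 
(.lf (nat_lit 580581) (.g (nat_lit 1559) (.e (nat_lit 336412) (nat_lit 27) (.e (nat_lit 426306) (nat_lit 12) (.e (nat_lit 475179) (nat_lit 24) (.e (nat_lit 516119) (nat_lit 1) .nil)))) (.g (nat_lit 0) (.e (nat_lit 377547) (nat_lit 0) .nil) .nil)))))))) (.nd (nat_lit 5) (.nd (nat_lit 6) (.nd (nat_lit 7) (.nd (nat_lit 8) (.nd (nat_lit 9) 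
(.lf (nat_lit 579605) (.g (nat_lit 3035) (.e (nat_lit 336326) (nat_lit 18) (.e (nat_lit 204863) (nat_lit 27) (.e (nat_lit 344131) (nat_lit 26) (.e (nat_lit 557100) (nat_lit 13) (.e (nat_lit 172135) (nat_lit 15) .nil))))) (.g (nat_lit 0) (.e (nat_lit 374974) (nat_lit 0) .nil) .nil))) 
(.lf (nat_lit 580117) (.g (nat_lit 2818) (.e (nat_lit 336387) (nat_lit 27) (.e (nat_lit 426316) (nat_lit 12) (.e (nat_lit 475177) (nat_lit 24) (.e (nat_lit 516120) (nat_lit 1) (.e (nat_lit 164330) (nat_lit 230) (.e (nat_lit 163908) (nat_lit 12) (.e (nat_lit 426528) (nat_lit 27) .nil))))))) (.g (nat_lit 1) (.e (nat_lit 376868) (nat_lit 0) .nil) .nil)))) (.nd (nat_lit 9) 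
(.lf (nat_lit 579861) (.g (nat_lit 2437) (.e (nat_lit 336385) (nat_lit 27) (.e (nat_lit 426107) (nat_lit 1) (.e (nat_lit 164327) (nat_lit 230) (.e (nat_lit 163875) (nat_lit 3) (.e (nat_lit 204813) (nat_lit 9) (.e (nat_lit 426200) (nat_lit 9) (.e (nat_lit 426481) (nat_lit 27) .nil))))))) (.g (nat_lit 1) (.e (nat_lit 376477) (nat_lit 0) .nil) .nil))) 
(.lf (nat_lit 580373) (.g (nat_lit 2550) (.e (nat_lit 336406) (nat_lit 27) (.e (nat_lit 426098) (nat_lit 1) (.e (nat_lit 164325) (nat_lit 230) (.e (nat_lit 163873) (nat_lit 3) (.e (nat_lit 204813) (nat_lit 9) .nil))))) (.g (nat_lit 0) (.e (nat_lit 377301) (nat_lit 0) .nil) .nil))))) (.nd (nat_lit 8) (.nd (nat_lit 9) 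
(.lf (nat_lit 579733) (.g (nat_lit 2052) (.e (nat_lit 336360) (nat_lit 25) (.e (nat_lit 409649) (nat_lit 18) (.e (nat_lit 303140) (nat_lit 10) (.e (nat_lit 434205) (nat_lit 18) .nil)))) (.g (nat_lit 0) (.e (nat_lit 376261) (nat_lit 0) .nil) .nil))) 
(.lf (nat_lit 580245) (.g (nat_lit 2090) (.e (nat_lit 336390) (nat_lit 27) (.e (nat_lit 426108) (nat_lit 1) (.e (nat_lit 164330) (nat_lit 230) (.e (nat_lit 163869) (nat_lit 2) .nil)))) (.g (nat_lit 0) (.e (nat_lit 377032) (nat_lit 0) .nil) .nil)))) (.nd (nat_lit 9) 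
(.lf (nat_lit 579989) (.g (nat_lit 3085) (.e (nat_lit 336389) (nat_lit 27) (.e (nat_lit 426187) (nat_lit 9) (.e (nat_lit 426436) (nat_lit 18) (.e (nat_lit 98335) (nat_lit 18) (.e (nat_lit 164332) (nat_lit 230) (.e (nat_lit 163905) (nat_lit 12) (.e (nat_lit 426481) (nat_lit 27) .nil))))))) (.g (nat_lit 1) (.e (nat_lit 376625) (nat_lit 0) .nil) .nil))) 
(.lf (nat_lit 580501) (.g (nat_lit 669) (.e (nat_lit 336407) (nat_lit 27) (.e (nat_lit 426100) (nat_lit 1) (.e (nat_lit 164398) (nat_lit 256) .nil))) (.g (nat_lit 0) (.e (nat_lit 377460) (nat_lit 0) .nil) .nil)))))) (.nd (nat_lit 7) (.nd (nat_lit 8) (.nd (nat_lit 9) 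
(.lf (nat_lit 579669) (.g (nat_lit 1361) (.e (nat_lit 336326) (nat_lit 18) (.e (nat_lit 204882) (nat_lit 32) (.e (nat_lit 385066) (nat_lit 26) (.e (nat_lit 532566) (nat_lit 15) (.e (nat_lit 385066) (nat_lit 26) .nil))))) (.g (nat_lit 0) (.e (nat_lit 375077) (nat_lit 0) .nil) .nil))) 
(.lf (nat_lit 580181) (.g (nat_lit 580) (.e (nat_lit 336388) (nat_lit 27) (.e (nat_lit 426108) (nat_lit 1) (.e (nat_lit 164331) (nat_lit 230) .nil))) (.g (nat_lit 0) (.e (nat_lit 376954) (nat_lit 0) .nil) .nil)))) (.nd (nat_lit 9) 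
(.lf (nat_lit 579925) (.g (nat_lit 2090) (.e (nat_lit 336386) (nat_lit 27) (.e (nat_lit 426108) (nat_lit 1) (.e (nat_lit 164330) (nat_lit 230) (.e (nat_lit 163869) (nat_lit 2) .nil)))) (.g (nat_lit 0) (.e (nat_lit 376559) (nat_lit 0) .nil) .nil))) 
(.lf (nat_lit 580437) (.g (nat_lit 2657) (.e (nat_lit 336409) (nat_lit 27) (.e (nat_lit 426098) (nat_lit 1) (.e (nat_lit 164325) (nat_lit 230) (.e (nat_lit 163873) (nat_lit 3) (.e (nat_lit 204813) (nat_lit 9) .nil))))) (.g (nat_lit 0) (.e (nat_lit 377392) (nat_lit 0) .nil) .nil))))) (.nd (nat_lit 8) (.nd (nat_lit 9) 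
(.lf (nat_lit 579797) (.g (nat_lit 2535) (.e (nat_lit 336369) (nat_lit 27) (.e (nat_lit 426173) (nat_lit 7) (.e (nat_lit 409649) (nat_lit 18) (.e (nat_lit 303111) (nat_lit 0) (.e (nat_lit 3579) (nat_lit 223) (.e (nat_lit 753408) (nat_lit 11) (.e (nat_lit 24630) (nat_lit 9) .nil))))))) (.g (nat_lit 1) (.e (nat_lit 376377) (nat_lit 0) .nil) .nil))) 
(.lf (nat_lit 580309) (.g (nat_lit 948) (.e (nat_lit 336416) (nat_lit 27) (.e (nat_lit 426098) (nat_lit 1) (.e (nat_lit 164325) (nat_lit 230) .nil))) (.g (nat_lit 0) (.e (nat_lit 377150) (nat_lit 0) .nil) .nil)))) (.nd (nat_lit 9) 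
(.lf (nat_lit 580053) (.g (nat_lit 694) (.e (nat_lit 336387) (nat_lit 27) (.e (nat_lit 426107) (nat_lit 1) (.e (nat_lit 164326) (nat_lit 230) (.e (nat_lit 163871) (nat_lit 2) .nil)))) (.g (nat_lit 0) (.e (nat_lit 376720) (nat_lit 0) .nil) .nil))) 
(.lf (nat_lit 580565) (.g (nat_lit 4096) (.e (nat_lit 336412) (nat_lit 27) (.e (nat_lit 426098) (nat_lit 1) (.e (nat_lit 164325) (nat_lit 230) (.e (nat_lit 163873) (nat_lit 3) (.e (nat_lit 204813) (nat_lit 9) (.e (nat_lit 426198) (nat_lit 9) (.e (nat_lit 426509) (nat_lit 27) .nil))))))) (.g (nat_lit 1) (.e (nat_lit 377528) (nat_lit 0) .nil) .nil))))))) 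
(.nd (nat_lit 6) (.nd (nat_lit 7) (.nd (nat_lit 8) (.nd (nat_lit 9) 
(.lf (nat_lit 579637) (.g (nat_lit 2521) (.e (nat_lit 336326) (nat_lit 18) (.e (nat_lit 204869) (nat_lit 29) (.e (nat_lit 360451) (nat_lit 0) (.e (nat_lit 7261) (nat_lit 384) .nil)))) (.g (nat_lit 0) (.e (nat_lit 375020) (nat_lit 0) .nil) .nil))) 
(.lf (nat_lit 580149) (.g (nat_lit 2361) (.e (nat_lit 336388) (nat_lit 27) (.e (nat_lit 426107) (nat_lit 1) (.e (nat_lit 164325) (nat_lit 230) (.e (nat_lit 163866) (nat_lit 2) (.e (nat_lit 196654) (nat_lit 11) .nil))))) (.g (nat_lit 0) (.e (nat_lit 376918) (nat_lit 0) .nil) .nil)))) (.nd (nat_lit 9) 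
(.lf (nat_lit 579893) (.g (nat_lit 1527) (.e (nat_lit 336385) (nat_lit 27) (.e (nat_lit 426306) (nat_lit 12) (.e (nat_lit 475177) (nat_lit 24) (.e (nat_lit 516117) (nat_lit 1) .nil)))) (.g (nat_lit 0) (.e (nat_lit 376524) (nat_lit 0) .nil) .nil))) 
(.lf (nat_lit 580405) (.g (nat_lit 2046) (.e (nat_lit 336408) (nat_lit 27) (.e (nat_lit 426100) (nat_lit 1) (.e (nat_lit 164398) (nat_lit 256) (.e (nat_lit 57375) (nat_lit 2) (.e (nat_lit 90176) (nat_lit 15) .nil))))) (.g (nat_lit 0) (.e (nat_lit 377345) (nat_lit 0) .nil) .nil))))) (.nd (nat_lit 8) (.nd (nat_lit 9) 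
(.lf (nat_lit 579765) (.g (nat_lit 1706) (.e (nat_lit 336368) (nat_lit 27) (.e (nat_lit 426501) (nat_lit 27) (.e (nat_lit 335986) (nat_lit 1) (.e (nat_lit 57847) (nat_lit 252) (.e (nat_lit 57372) (nat_lit 2) (.e (nat_lit 90160) (nat_lit 11) (.e (nat_lit 24624) (nat_lit 9) .nil))))))) (.g (nat_lit 1) (.e (nat_lit 376322) (nat_lit 0) .nil) .nil))) 
(.lf (nat_lit 580277) (.g (nat_lit 1311) (.e (nat_lit 336399) (nat_lit 27) (.e (nat_lit 426265) (nat_lit 9) (.e (nat_lit 426133) (nat_lit 3) (.e (nat_lit 204813) (nat_lit 9) .nil)))) (.g (nat_lit 0) (.e (nat_lit 377105) (nat_lit 0) .nil) .nil)))) (.nd (nat_lit 9) 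
(.lf (nat_lit 580021) (.g (nat_lit 3177) (.e (nat_lit 336389) (nat_lit 27) (.e (nat_lit 426344) (nat_lit 14) (.e (nat_lit 491560) (nat_lit 10) (.e (nat_lit 344179) (nat_lit 44) (.e (nat_lit 778466) (nat_lit 11) (.e (nat_lit 24634) (nat_lit 9) .nil)))))) (.g (nat_lit 1) (.e (nat_lit 376657) (nat_lit 0) .nil) .nil))) 
(.lf (nat_lit 580533) (.g (nat_lit 2758) (.e (nat_lit 336407) (nat_lit 27) (.e (nat_lit 426190) (nat_lit 9) (.e (nat_lit 426436) (nat_lit 18) (.e (nat_lit 98335) (nat_lit 18) (.e (nat_lit 164330) (nat_lit 230) (.e (nat_lit 163905) (nat_lit 12) (.e (nat_lit 426487) (nat_lit 27) .nil))))))) (.g (nat_lit 1) (.e (nat_lit 377492) (nat_lit 0) .nil) .nil)))))) 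
(.nd (nat_lit 7) (.nd (nat_lit 8) (.nd (nat_lit 9) 
(.lf (nat_lit 579701) (.g (nat_lit 2362) (.e (nat_lit 343808) (nat_lit 18) (.e (nat_lit 204863) (nat_lit 27) (.e (nat_lit 344129) (nat_lit 26) (.e (nat_lit 557103) (nat_lit 14) (.e (nat_lit 188160) (nat_lit 3) .nil))))) (.g (nat_lit 0) (.e (nat_lit 375123) (nat_lit 0) .nil) .nil))) 
(.lf (nat_lit 580213) (.g (nat_lit 1833) (.e (nat_lit 336388) (nat_lit 27) (.e (nat_lit 426306) (nat_lit 12) (.e (nat_lit 475177) (nat_lit 24) (.e (nat_lit 516119) (nat_lit 1) (.e (nat_lit 164327) (nat_lit 230) .nil))))) (.g (nat_lit 0) (.e (nat_lit 376989) (nat_lit 0) .nil) .nil)))) (.nd (nat_lit 9) 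
(.lf (nat_lit 579957) (.g (nat_lit 4777) (.e (nat_lit 336389) (nat_lit 27) (.e (nat_lit 426098) (nat_lit 1) (.e (nat_lit 164325) (nat_lit 230) (.e (nat_lit 163873) (nat_lit 3) (.e (nat_lit 204813) (nat_lit 9) (.e (nat_lit 426199) (nat_lit 9) (.e (nat_lit 426478) (nat_lit 27) .nil))))))) (.g (nat_lit 1) (.e (nat_lit 376593) (nat_lit 0) .nil) .nil))) 
(.lf (nat_lit 580469) (.g (nat_lit 2670) (.e (nat_lit 336409) (nat_lit 27) (.e (nat_lit 426306) (nat_lit 12) (.e (nat_lit 475177) (nat_lit 24) (.e (nat_lit 516117) (nat_lit 1) (.e (nat_lit 164330) (nat_lit 230) (.e (nat_lit 163905) (nat_lit 12) (.e (nat_lit 426487) (nat_lit 27) .nil))))))) (.g (nat_lit 1) (.e (nat_lit 377426) (nat_lit 0) .nil) .nil))))) (.nd (nat_lit 8) (.nd (nat_lit 9) 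
(.lf (nat_lit 579829) (.g (nat_lit 2586) (.e (nat_lit 336385) (nat_lit 27) (.e (nat_lit 426098) (nat_lit 1) (.e (nat_lit 164325) (nat_lit 230) (.e (nat_lit 163866) (nat_lit 2) (.e (nat_lit 196654) (nat_lit 11) .nil))))) (.g (nat_lit 0) (.e (nat_lit 376433) (nat_lit 0) .nil) .nil))) 
(.lf (nat_lit 580341) (.g (nat_lit 1104) (.e (nat_lit 336405) (nat_lit 27) (.e (nat_lit 426012) (nat_lit 0) (.e (nat_lit 7593) (nat_lit 407) (.e (nat_lit 73775) (nat_lit 26) .nil)))) (.g (nat_lit 0) (.e (nat_lit 377241) (nat_lit 0) .nil) .nil)))) (.nd (nat_lit 9) 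
(.lf (nat_lit 580085) (.g (nat_lit 1774) (.e (nat_lit 336387) (nat_lit 27) (.e (nat_lit 426108) (nat_lit 1) (.e (nat_lit 164332) (nat_lit 230) (.e (nat_lit 163874) (nat_lit 3) (.e (nat_lit 204809) (nat_lit 9) (.e (nat_lit 426204) (nat_lit 9) (.e (nat_lit 426528) (nat_lit 27) .nil))))))) (.g (nat_lit 1) (.e (nat_lit 376798) (nat_lit 0) .nil) .nil))) 
(.lf (nat_lit 580597) (.g (nat_lit 3740) (.e (nat_lit 336412) (nat_lit 27) (.e (nat_lit 426343) (nat_lit 14) (.e (nat_lit 491570) (nat_lit 13) (.e (nat_lit 393298) (nat_lit 27) (.e (nat_lit 491552) (nat_lit 9) .nil))))) (.g (nat_lit 1) (.e (nat_lit 377572) (nat_lit 0) .nil) .nil))))))))) (.nd (nat_lit 4) (.nd (nat_lit 5) (.nd (nat_lit 6) (.nd (nat_lit 7) (.nd (nat_lit 8) (.nd (nat_lit 9) 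
(.lf (nat_lit 579597) (.g (nat_lit 853) (.e (nat_lit 336326) (nat_lit 18) (.e (nat_lit 204863) (nat_lit 27) (.e (nat_lit 344130) (nat_lit 26) .nil))) (.g (nat_lit 0) (.e (nat_lit 374965) (nat_lit 0) .nil) .nil))) 
(.lf (nat_lit 580109) (.g (nat_lit 1315) (.e (nat_lit 336387) (nat_lit 27) (.e (nat_lit 426306) (nat_lit 12) (.e (nat_lit 475177) (nat_lit 24) (.e (nat_lit 516117) (nat_lit 1) .nil)))) (.g (nat_lit 0) (.e (nat_lit 376846) (nat_lit 0) .nil) .nil)))) (.nd (nat_lit 9) 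
(.lf (nat_lit 579853) (.g (nat_lit 2879) (.e (nat_lit 336385) (nat_lit 27) (.e (nat_lit 426107) (nat_lit 1) (.e (nat_lit 164327) (nat_lit 230) (.e (nat_lit 163868) (nat_lit 2) (.e (nat_lit 196656) (nat_lit 11) .nil))))) (.g (nat_lit 0) (.e (nat_lit 376468) (nat_lit 0) .nil) .nil))) 
(.lf (nat_lit 580365) (.g (nat_lit 2255) (.e (nat_lit 336405) (nat_lit 27) (.e (nat_lit 426306) (nat_lit 12) (.e (nat_lit 475177) (nat_lit 24) (.e (nat_lit 516120) (nat_lit 1) (.e (nat_lit 164330) (nat_lit 230) (.e (nat_lit 163905) (nat_lit 12) (.e (nat_lit 426491) (nat_lit 27) .nil))))))) (.g (nat_lit 1) (.e (nat_lit 377293) (nat_lit 0) .nil) .nil))))) (.nd (nat_lit 8) (.nd (nat_lit 9) 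
(.lf (nat_lit 579725) (.g (nat_lit 2357) (.e (nat_lit 336337) (nat_lit 20) (.e (nat_lit 221219) (nat_lit 24) (.e (nat_lit 213030) (nat_lit 11) (.e (nat_lit 24617) (nat_lit 7) (.e (nat_lit 319532) (nat_lit 16) (.e (nat_lit 286743) (nat_lit 9) .nil)))))) (.g (nat_lit 1) (.e (nat_lit 376071) (nat_lit 0) .nil) .nil))) 
(.lf (nat_lit 580237) (.g (nat_lit 1913) (.e (nat_lit 336390) (nat_lit 27) (.e (nat_lit 426098) (nat_lit 1) (.e (nat_lit 164325) (nat_lit 230) (.e (nat_lit 163867) (nat_lit 2) .nil)))) (.g (nat_lit 0) (.e (nat_lit 377020) (nat_lit 0) .nil) .nil)))) (.nd (nat_lit 9) 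
(.lf (nat_lit 579981) (.g (nat_lit 746) (.e (nat_lit 336389) (nat_lit 27) (.e (nat_lit 426108) (nat_lit 1) (.e (nat_lit 164330) (nat_lit 230) .nil))) (.g (nat_lit 0) (.e (nat_lit 376617) (nat_lit 0) .nil) .nil))) 
(.lf (nat_lit 580493) (.g (nat_lit 2181) (.e (nat_lit 336407) (nat_lit 27) (.e (nat_lit 426098) (nat_lit 1) (.e (nat_lit 164325) (nat_lit 230) (.e (nat_lit 163875) (nat_lit 3) (.e (nat_lit 204813) (nat_lit 9) .nil))))) (.g (nat_lit 0) (.e (nat_lit 377451) (nat_lit 0) .nil) .nil)))))) (.nd (nat_lit 7) (.nd (nat_lit 8) (.nd (nat_lit 9) 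
(.lf (nat_lit 579661) (.g (nat_lit 1951) (.e (nat_lit 336326) (nat_lit 18) (.e (nat_lit 204882) (nat_lit 32) (.e (nat_lit 385066) (nat_lit 26) (.e (nat_lit 532528) (nat_lit 9) (.e (nat_lit 336322) (nat_lit 18) .nil))))) (.g (nat_lit 0) (.e (nat_lit 375068) (nat_lit 0) .nil) .nil))) 
(.lf (nat_lit 580173) (.g (nat_lit 592) (.e (nat_lit 336388) (nat_lit 27) (.e (nat_lit 426108) (nat_lit 1) (.e (nat_lit 164330) (nat_lit 230) .nil))) (.g (nat_lit 0) (.e (nat_lit 376944) (nat_lit 0) .nil) .nil)))) (.nd (nat_lit 9) 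
(.lf (nat_lit 579917) (.g (nat_lit 912) (.e (nat_lit 336386) (nat_lit 27) (.e (nat_lit 426098) (nat_lit 1) (.e (nat_lit 164325) (nat_lit 230) .nil))) (.g (nat_lit 0) (.e (nat_lit 376550) (nat_lit 0) .nil) .nil))) 
(.lf (nat_lit 580429) (.g (nat_lit 1970) (.e (nat_lit 336408) (nat_lit 27) (.e (nat_lit 426306) (nat_lit 12) (.e (nat_lit 475179) (nat_lit 24) (.e (nat_lit 516117) (nat_lit 1) (.e (nat_lit 164332) (nat_lit 230) .nil))))) (.g (nat_lit 0) (.e (nat_lit 377384) (nat_lit 0) .nil) .nil))))) (.nd (nat_lit 8) (.nd (nat_lit 9) 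
(.lf (nat_lit 579789) (.g (nat_lit 3186) (.e (nat_lit 336369) (nat_lit 27) (.e (nat_lit 426109) (nat_lit 1) (.e (nat_lit 164327) (nat_lit 230) (.e (nat_lit 163868) (nat_lit 2) (.e (nat_lit 196654) (nat_lit 11) (.e (nat_lit 16436) (nat_lit 9) (.e (nat_lit 426486) (nat_lit 27) .nil))))))) (.g (nat_lit 1) (.e (nat_lit 376361) (nat_lit 0) .nil) .nil))) 
(.lf (nat_lit 580301) (.g (nat_lit 1568) (.e (nat_lit 336395) (nat_lit 27) (.e (nat_lit 426340) (nat_lit 14) (.e (nat_lit 491571) (nat_lit 13) (.e (nat_lit 393235) (nat_lit 17) (.e (nat_lit 7936) (nat_lit 402) .nil))))) (.g (nat_lit 0) (.e (nat_lit 377141) (nat_lit 0) .nil) .nil)))) (.nd (nat_lit 9) 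
(.lf (nat_lit 580045) (.g (nat_lit 2008) (.e (nat_lit 336387) (nat_lit 27) (.e (nat_lit 426107) (nat_lit 1) (.e (nat_lit 164325) (nat_lit 230) (.e (nat_lit 163874) (nat_lit 3) (.e (nat_lit 204811) (nat_lit 9) (.e (nat_lit 426261) (nat_lit 9) (.e (nat_lit 426503) (nat_lit 27) .nil))))))) (.g (nat_lit 1) (.e (nat_lit 376706) (nat_lit 0) .nil) .nil))) 
(.lf (nat_lit 580557) (.g (nat_lit 2675) (.e (nat_lit 336407) (nat_lit 27) (.e (nat_lit 426344) (nat_lit 14) (.e (nat_lit 491560) (nat_lit 10) (.e (nat_lit 344179) (nat_lit 44) (.e (nat_lit 778466) (nat_lit 11) (.e (nat_lit 24636) (nat_lit 9) .nil)))))) (.g (nat_lit 1) (.e (nat_lit 377518) (nat_lit 0) .nil) .nil))))))) (.nd (nat_lit 6) (.nd (nat_lit 7) (.nd (nat_lit 8) (.nd (nat_lit 9) 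
(.lf (nat_lit 579629) (.g (nat_lit 705) (.e (nat_lit 336326) (nat_lit 18) (.e (nat_lit 204866) (nat_lit 28) (.e (nat_lit 352273) (nat_lit 11) .nil))) (.g (nat_lit 0) (.e (nat_lit 375003) (nat_lit 0) .nil) .nil))) 
(.lf (nat_lit 580141) (.g (nat_lit 2499) (.e (nat_lit 336388) (nat_lit 27) (.e (nat_lit 426098) (nat_lit 1) (.e (nat_lit 164327) (nat_lit 230) (.e (nat_lit 163868) (nat_lit 2) (.e (nat_lit 196656) (nat_lit 11) (.e (nat_lit 16436) (nat_lit 9) (.e (nat_lit 426481) (nat_lit 27) .nil))))))) (.g (nat_lit 1) (.e (nat_lit 376909) (nat_lit 0) .nil) .nil)))) (.nd (nat_lit 9) 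
(.lf (nat_lit 579885) (.g (nat_lit 923) (.e (nat_lit 336385) (nat_lit 27) (.e (nat_lit 426199) (nat_lit 9) (.e (nat_lit 426131) (nat_lit 3) (.e (nat_lit 204831) (nat_lit 18) .nil)))) (.g (nat_lit 0) (.e (nat_lit 376514) (nat_lit 0) .nil) .nil))) 
(.lf (nat_lit 580397) (.g (nat_lit 2044) (.e (nat_lit 336406) (nat_lit 27) (.e (nat_lit 426306) (nat_lit 12) (.e (nat_lit 475179) (nat_lit 24) (.e (nat_lit 516119) (nat_lit 1) (.e (nat_lit 164325) (nat_lit 230) (.e (nat_lit 163907) (nat_lit 12) (.e (nat_lit 426491) (nat_lit 27) .nil))))))) (.g (nat_lit 1) (.e (nat_lit 377327) (nat_lit 0) .nil) .nil))))) (.nd (nat_lit 8) (.nd (nat_lit 9) 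
(.lf (nat_lit 579757) (.g (nat_lit 2177) (.e (nat_lit 336367) (nat_lit 27) (.e (nat_lit 426542) (nat_lit 29) (.e (nat_lit 352266) (nat_lit 0) (.e (nat_lit 3253) (nat_lit 197) (.e (nat_lit 532501) (nat_lit 1) (.e (nat_lit 57854) (nat_lit 252) (.e (nat_lit 57409) (nat_lit 12) .nil))))))) (.g (nat_lit 1) (.e (nat_lit 376311) (nat_lit 0) .nil) .nil))) 
(.lf (nat_lit 580269) (.g (nat_lit 4355) (.e (nat_lit 336398) (nat_lit 27) (.e (nat_lit 426290) (nat_lit 10) (.e (nat_lit 434231) (nat_lit 23) (.e (nat_lit 532579) (nat_lit 26) (.e (nat_lit 426098) (nat_lit 1) (.e (nat_lit 164399) (nat_lit 256) (.e (nat_lit 57407) (nat_lit 12) .nil))))))) (.g (nat_lit 1) (.e (nat_lit 377095) (nat_lit 0) .nil) .nil)))) (.nd (nat_lit 9) 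
(.lf (nat_lit 580013) (.g (nat_lit 1894) (.e (nat_lit 336389) (nat_lit 27) (.e (nat_lit 426343) (nat_lit 14) (.e (nat_lit 491558) (nat_lit 10) (.e (nat_lit 344179) (nat_lit 44) .nil)))) (.g (nat_lit 0) (.e (nat_lit 376649) (nat_lit 0) .nil) .nil))) 
(.lf (nat_lit 580525) (.g (nat_lit 2833) (.e (nat_lit 336407) (nat_lit 27) (.e (nat_lit 426187) (nat_lit 9) (.e (nat_lit 426436) (nat_lit 18) (.e (nat_lit 98335) (nat_lit 18) (.e (nat_lit 164332) (nat_lit 230) (.e (nat_lit 163905) (nat_lit 12) (.e (nat_lit 426491) (nat_lit 27) .nil))))))) (.g (nat_lit 1) (.e (nat_lit 377484) (nat_lit 0) .nil) .nil)))))) 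
(.nd (nat_lit 7) (.nd (nat_lit 8) (.nd (nat_lit 9) 
(.lf (nat_lit 579693) (.g (nat_lit 2649) (.e (nat_lit 343808) (nat_lit 18) (.e (nat_lit 204862) (nat_lit 27) (.e (nat_lit 344129) (nat_lit 26) (.e (nat_lit 557103) (nat_lit 14) (.e (nat_lit 188160) (nat_lit 3) .nil))))) (.g (nat_lit 0) (.e (nat_lit 375115) (nat_lit 0) .nil) .nil))) 
(.lf (nat_lit 580205) (.g (nat_lit 2032) (.e (nat_lit 336388) (nat_lit 27) (.e (nat_lit 426200) (nat_lit 9) (.e (nat_lit 426131) (nat_lit 3) (.e (nat_lit 204831) (nat_lit 18) (.e (nat_lit 57692) (nat_lit 156) (.e (nat_lit 163907) (nat_lit 12) (.e (nat_lit 426481) (nat_lit 27) .nil))))))) (.g (nat_lit 1) (.e (nat_lit 376980) (nat_lit 0) .nil) .nil)))) (.nd (nat_lit 9) 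
(.lf (nat_lit 579949) (.g (nat_lit 2142) (.e (nat_lit 336386) (nat_lit 27) (.e (nat_lit 426343) (nat_lit 14) (.e (nat_lit 491560) (nat_lit 10) (.e (nat_lit 344179) (nat_lit 44) .nil)))) (.g (nat_lit 0) (.e (nat_lit 376584) (nat_lit 0) .nil) .nil))) 
(.lf (nat_lit 580461) (.g (nat_lit 2877) (.e (nat_lit 336409) (nat_lit 27) (.e (nat_lit 426188) (nat_lit 9) (.e (nat_lit 426436) (nat_lit 18) (.e (nat_lit 98335) (nat_lit 18) (.e (nat_lit 164330) (nat_lit 230) (.e (nat_lit 163905) (nat_lit 12) (.e (nat_lit 426487) (nat_lit 27) .nil))))))) (.g (nat_lit 1) (.e (nat_lit 377418) (nat_lit 0) .nil) .nil))))) (.nd (nat_lit 8) (.nd (nat_lit 9) 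
(.lf (nat_lit 579821) (.g (nat_lit 1384) (.e (nat_lit 336383) (nat_lit 27) (.e (nat_lit 426313) (nat_lit 12) (.e (nat_lit 475179) (nat_lit 24) (.e (nat_lit 516117) (nat_lit 1) (.e (nat_lit 164332) (nat_lit 230) .nil))))) (.g (nat_lit 0) (.e (nat_lit 376423) (nat_lit 0) .nil) .nil))) 
(.lf (nat_lit 580333) (.g (nat_lit 1984) (.e (nat_lit 336400) (nat_lit 27) (.e (nat_lit 426098) (nat_lit 1) (.e (nat_lit 164327) (nat_lit 230) (.e (nat_lit 163868) (nat_lit 2) (.e (nat_lit 196654) (nat_lit 11) .nil))))) (.g (nat_lit 0) (.e (nat_lit 377226) (nat_lit 0) .nil) .nil)))) (.nd (nat_lit 9) 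
(.lf (nat_lit 580077) (.g (nat_lit 2431) (.e (nat_lit 336387) (nat_lit 27) (.e (nat_lit 426108) (nat_lit 1) (.e (nat_lit 164330) (nat_lit 230) (.e (nat_lit 163874) (nat_lit 3) (.e (nat_lit 204811) (nat_lit 9) .nil))))) (.g (nat_lit 0) (.e (nat_lit 376781) (nat_lit 0) .nil) .nil))) 
(.lf (nat_lit 580589) (.g (nat_lit 1179) (.e (nat_lit 336412) (nat_lit 27) (.e (nat_lit 426343) (nat_lit 14) (.e (nat_lit 491558) (nat_lit 10) (.e (nat_lit 344175) (nat_lit 43) .nil)))) (.g (nat_lit 0) (.e (nat_lit 377563) (nat_lit 0) .nil) .nil)))))))) (.nd (nat_lit 5) (.nd (nat_lit 6) (.nd (nat_lit 7) (.nd (nat_lit 8) (.nd (nat_lit 9) 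
(.lf (nat_lit 579613) (.g (nat_lit 2172) (.e (nat_lit 336326) (nat_lit 18) (.e (nat_lit 204863) (nat_lit 27) (.e (nat_lit 344132) (nat_lit 26) (.e (nat_lit 557101) (nat_lit 13) (.e (nat_lit 179968) (nat_lit 15) .nil))))) (.g (nat_lit 0) (.e (nat_lit 374984) (nat_lit 0) .nil) .nil))) 
(.lf (nat_lit 580125) (.g (nat_lit 1881) (.e (nat_lit 336387) (nat_lit 27) (.e (nat_lit 426316) (nat_lit 12) (.e (nat_lit 475185) (nat_lit 29) (.e (nat_lit 557091) (nat_lit 12) (.e (nat_lit 164031) (nat_lit 53) .nil))))) (.g (nat_lit 0) (.e (nat_lit 376888) (nat_lit 0) .nil) .nil)))) (.nd (nat_lit 9) 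
(.lf (nat_lit 579869) (.g (nat_lit 2472) (.e (nat_lit 336385) (nat_lit 27) (.e (nat_lit 426108) (nat_lit 1) (.e (nat_lit 164332) (nat_lit 230) (.e (nat_lit 163869) (nat_lit 2) (.e (nat_lit 196656) (nat_lit 11) .nil))))) (.g (nat_lit 0) (.e (nat_lit 376490) (nat_lit 0) .nil) .nil))) 
(.lf (nat_lit 580381) (.g (nat_lit 1693) (.e (nat_lit 336406) (nat_lit 27) (.e (nat_lit 426100) (nat_lit 1) (.e (nat_lit 164398) (nat_lit 256) (.e (nat_lit 57378) (nat_lit 3) .nil)))) (.g (nat_lit 0) (.e (nat_lit 377310) (nat_lit 0) .nil) .nil))))) (.nd (nat_lit 8) (.nd (nat_lit 9) 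
(.lf (nat_lit 579741) (.g (nat_lit 2960) (.e (nat_lit 336366) (nat_lit 27) (.e (nat_lit 426499) (nat_lit 27) (.e (nat_lit 335986) (nat_lit 1) (.e (nat_lit 57847) (nat_lit 252) (.e (nat_lit 57372) (nat_lit 2) (.e (nat_lit 90160) (nat_lit 11) (.e (nat_lit 24624) (nat_lit 9) .nil))))))) (.g (nat_lit 1) (.e (nat_lit 376279) (nat_lit 0) .nil) .nil))) 
(.lf (nat_lit 580253) (.g (nat_lit 1706) (.e (nat_lit 336390) (nat_lit 27) (.e (nat_lit 426343) (nat_lit 14) (.e (nat_lit 491546) (nat_lit 9) (.e (nat_lit 336389) (nat_lit 27) .nil)))) (.g (nat_lit 0) (.e (nat_lit 377068) (nat_lit 0) .nil) .nil)))) (.nd (nat_lit 9) 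
(.lf (nat_lit 579997) (.g (nat_lit 4062) (.e (nat_lit 336389) (nat_lit 27) (.e (nat_lit 426308) (nat_lit 12) (.e (nat_lit 475177) (nat_lit 24) (.e (nat_lit 516117) (nat_lit 1) (.e (nat_lit 164330) (nat_lit 230) (.e (nat_lit 163905) (nat_lit 12) (.e (nat_lit 426481) (nat_lit 27) .nil))))))) (.g (nat_lit 1) (.e (nat_lit 376633) (nat_lit 0) .nil) .nil))) 
(.lf (nat_lit 580509) (.g (nat_lit 1490) (.e (nat_lit 336407) (nat_lit 27) (.e (nat_lit 426107) (nat_lit 1) (.e (nat_lit 164326) (nat_lit 230) (.e (nat_lit 163873) (nat_lit 3) .nil)))) (.g (nat_lit 0) (.e (nat_lit 377468) (nat_lit 0) .nil) .nil)))))) (.nd (nat_lit 7) (.nd (nat_lit 8) (.nd (nat_lit 9) 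
(.lf (nat_lit 579677) (.g (nat_lit 1097) (.e (nat_lit 336326) (nat_lit 18) (.e (nat_lit 204882) (nat_lit 32) (.e (nat_lit 385068) (nat_lit 26) (.e (nat_lit 532566) (nat_lit 15) .nil)))) (.g (nat_lit 0) (.e (nat_lit 375085) (nat_lit 0) .nil) .nil))) 
(.lf (nat_lit 580189) (.g (nat_lit 3544) (.e (nat_lit 336388) (nat_lit 27) (.e (nat_lit 426187) (nat_lit 9) (.e (nat_lit 426436) (nat_lit 18) (.e (nat_lit 98335) (nat_lit 18) (.e (nat_lit 164326) (nat_lit 230) .nil))))) (.g (nat_lit 0) (.e (nat_lit 376963) (nat_lit 0) .nil) .nil)))) (.nd (nat_lit 9) 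
(.lf (nat_lit 579933) (.g (nat_lit 3019) (.e (nat_lit 336386) (nat_lit 27) (.e (nat_lit 426187) (nat_lit 9) (.e (nat_lit 426436) (nat_lit 18) (.e (nat_lit 98335) (nat_lit 18) (.e (nat_lit 164332) (nat_lit 230) (.e (nat_lit 163902) (nat_lit 12) (.e (nat_lit 426481) (nat_lit 27) .nil))))))) (.g (nat_lit 1) (.e (nat_lit 376567) (nat_lit 0) .nil) .nil))) 
(.lf (nat_lit 580445) (.g (nat_lit 2288) (.e (nat_lit 336409) (nat_lit 27) (.e (nat_lit 426100) (nat_lit 1) (.e (nat_lit 164332) (nat_lit 230) (.e (nat_lit 163869) (nat_lit 2) (.e (nat_lit 196656) (nat_lit 11) .nil))))) (.g (nat_lit 0) (.e (nat_lit 377402) (nat_lit 0) .nil) .nil))))) (.nd (nat_lit 8) (.nd (nat_lit 9) 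
(.lf (nat_lit 579805) (.g (nat_lit 2779) (.e (nat_lit 336373) (nat_lit 27) (.e (nat_lit 426337) (nat_lit 14) (.e (nat_lit 491571) (nat_lit 13) (.e (nat_lit 393299) (nat_lit 27) (.e (nat_lit 491556) (nat_lit 9) .nil))))) (.g (nat_lit 1) (.e (nat_lit 376396) (nat_lit 0) .nil) .nil))) 
(.lf (nat_lit 580317) (.g (nat_lit 1985) (.e (nat_lit 336416) (nat_lit 27) (.e (nat_lit 426188) (nat_lit 9) (.e (nat_lit 426436) (nat_lit 18) (.e (nat_lit 98335) (nat_lit 18) (.e (nat_lit 164332) (nat_lit 230) (.e (nat_lit 163902) (nat_lit 12) (.e (nat_lit 426479) (nat_lit 27) .nil))))))) (.g (nat_lit 1) (.e (nat_lit 377165) (nat_lit 0) .nil) .nil)))) (.nd (nat_lit 9) 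
(.lf (nat_lit 580061) (.g (nat_lit 1524) (.e (nat_lit 336387) (nat_lit 27) (.e (nat_lit 426107) (nat_lit 1) (.e (nat_lit 164327) (nat_lit 230) (.e (nat_lit 163868) (nat_lit 2) .nil)))) (.g (nat_lit 0) (.e (nat_lit 376732) (nat_lit 0) .nil) .nil))) 
(.lf (nat_lit 580573) (.g (nat_lit 1801) (.e (nat_lit 336412) (nat_lit 27) (.e (nat_lit 426187) (nat_lit 9) (.e (nat_lit 426436) (nat_lit 18) (.e (nat_lit 98334) (nat_lit 18) (.e (nat_lit 164330) (nat_lit 230) (.e (nat_lit 163905) (nat_lit 12) (.e (nat_lit 426509) (nat_lit 27) .nil))))))) (.g (nat_lit 1) (.e (nat_lit 377539) (nat_lit 0) .nil) .nil))))))) 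
(.nd (nat_lit 6) (.nd (nat_lit 7) (.nd (nat_lit 8) (.nd (nat_lit 9) 
(.lf (nat_lit 579645) (.g (nat_lit 1758) (.e (nat_lit 336326) (nat_lit 18) (.e (nat_lit 204880) (nat_lit 32) (.e (nat_lit 385066) (nat_lit 26) (.e (nat_lit 532529) (nat_lit 9) (.e (nat_lit 336324) (nat_lit 18) .nil))))) (.g (nat_lit 0) (.e (nat_lit 375044) (nat_lit 0) .nil) .nil))) 
(.lf (nat_lit 580157) (.g (nat_lit 1207) (.e (nat_lit 336388) (nat_lit 27) (.e (nat_lit 426107) (nat_lit 1) (.e (nat_lit 164326) (nat_lit 230) (.e (nat_lit 163871) (nat_lit 2) .nil)))) (.g (nat_lit 0) (.e (nat_lit 376926) (nat_lit 0) .nil) .nil)))) (.nd (nat_lit 9) 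
(.lf (nat_lit 579901) (.g (nat_lit 2158) (.e (nat_lit 336385) (nat_lit 27) (.e (nat_lit 426306) (nat_lit 12) (.e (nat_lit 475179) (nat_lit 24) (.e (nat_lit 516119) (nat_lit 1) (.e (nat_lit 164326) (nat_lit 230) .nil))))) (.g (nat_lit 0) (.e (nat_lit 376534) (nat_lit 0) .nil) .nil))) 
(.lf (nat_lit 580413) (.g (nat_lit 2469) (.e (nat_lit 336408) (nat_lit 27) (.e (nat_lit 426188) (nat_lit 9) (.e (nat_lit 426436) (nat_lit 18) (.e (nat_lit 98334) (nat_lit 18) (.e (nat_lit 164330) (nat_lit 230) (.e (nat_lit 163909) (nat_lit 12) (.e (nat_lit 426501) (nat_lit 27) .nil))))))) (.g (nat_lit 1) (.e (nat_lit 377360) (nat_lit 0) .nil) .nil))))) (.nd (nat_lit 8) (.nd (nat_lit 9) 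
(.lf (nat_lit 579773) (.g (nat_lit 2286) (.e (nat_lit 336370) (nat_lit 27) (.e (nat_lit 426317) (nat_lit 12) (.e (nat_lit 475179) (nat_lit 24) (.e (nat_lit 516119) (nat_lit 1) (.e (nat_lit 164325) (nat_lit 230) (.e (nat_lit 163903) (nat_lit 12) (.e (nat_lit 426479) (nat_lit 27) .nil))))))) (.g (nat_lit 1) (.e (nat_lit 376338) (nat_lit 0) .nil) .nil))) 
(.lf (nat_lit 580285) (.g (nat_lit 2518) (.e (nat_lit 336395) (nat_lit 27) (.e (nat_lit 426289) (nat_lit 10) (.e (nat_lit 434231) (nat_lit 23) (.e (nat_lit 532500) (nat_lit 1) (.e (nat_lit 57692) (nat_lit 156) .nil))))) (.g (nat_lit 0) (.e (nat_lit 377124) (nat_lit 0) .nil) .nil)))) (.nd (nat_lit 9) 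
(.lf (nat_lit 580029) (.g (nat_lit 1128) (.e (nat_lit 336387) (nat_lit 27) (.e (nat_lit 426100) (nat_lit 1) (.e (nat_lit 164401) (nat_lit 256) .nil))) (.g (nat_lit 0) (.e (nat_lit 376677) (nat_lit 0) .nil) .nil))) 
(.lf (nat_lit 580541) (.g (nat_lit 2238) (.e (nat_lit 336407) (nat_lit 27) (.e (nat_lit 426306) (nat_lit 12) (.e (nat_lit 475177) (nat_lit 24) (.e (nat_lit 516120) (nat_lit 1) (.e (nat_lit 164330) (nat_lit 230) (.e (nat_lit 163905) (nat_lit 12) (.e (nat_lit 426487) (nat_lit 27) .nil))))))) (.g (nat_lit 1) (.e (nat_lit 377502) (nat_lit 0) .nil) .nil)))))) 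
(.nd (nat_lit 7) (.nd (nat_lit 8) (.nd (nat_lit 9) 
(.lf (nat_lit 579709) (.g (nat_lit 2484) (.e (nat_lit 343808) (nat_lit 18) (.e (nat_lit 204863) (nat_lit 27) (.e (nat_lit 344133) (nat_lit 26) (.e (nat_lit 557103) (nat_lit 14) (.e (nat_lit 188160) (nat_lit 3) .nil))))) (.g (nat_lit 0) (.e (nat_lit 375131) (nat_lit 0) .nil) .nil))) 
(.lf (nat_lit 580221) (.g (nat_lit 1600) (.e (nat_lit 336388) (nat_lit 27) (.e (nat_lit 426316) (nat_lit 12) (.e (nat_lit 475177) (nat_lit 24) (.e (nat_lit 516120) (nat_lit 1) .nil)))) (.g (nat_lit 0) (.e (nat_lit 376997) (nat_lit 0) .nil) .nil)))) (.nd (nat_lit 9) 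
(.lf (nat_lit 579965) (.g (nat_lit 4146) (.e (nat_lit 336389) (nat_lit 27) (.e (nat_lit 426098) (nat_lit 1) (.e (nat_lit 164327) (nat_lit 230) (.e (nat_lit 163873) (nat_lit 3) (.e (nat_lit 204813) (nat_lit 9) (.e (nat_lit 426197) (nat_lit 9) (.e (nat_lit 426478) (nat_lit 27) .nil))))))) (.g (nat_lit 1) (.e (nat_lit 376601) (nat_lit 0) .nil) .nil))) 
(.lf (nat_lit 580477) (.g (nat_lit 1728) (.e (nat_lit 336407) (nat_lit 27) (.e (nat_lit 426011) (nat_lit 0) (.e (nat_lit 7591) (nat_lit 407) (.e (nat_lit 73775) (nat_lit 26) .nil)))) (.g (nat_lit 0) (.e (nat_lit 377434) (nat_lit 0) .nil) .nil))))) (.nd (nat_lit 8) (.nd (nat_lit 9) 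
(.lf (nat_lit 579837) (.g (nat_lit 2264) (.e (nat_lit 336385) (nat_lit 27) (.e (nat_lit 426100) (nat_lit 1) (.e (nat_lit 164332) (nat_lit 230) (.e (nat_lit 163869) (nat_lit 2) (.e (nat_lit 196656) (nat_lit 11) (.e (nat_lit 16436) (nat_lit 9) (.e (nat_lit 426481) (nat_lit 27) .nil))))))) (.g (nat_lit 1) (.e (nat_lit 376447) (nat_lit 0) .nil) .nil))) 
(.lf (nat_lit 580349) (.g (nat_lit 2792) (.e (nat_lit 336405) (nat_lit 27) (.e (nat_lit 426187) (nat_lit 9) (.e (nat_lit 426436) (nat_lit 18) (.e (nat_lit 98335) (nat_lit 18) (.e (nat_lit 164332) (nat_lit 230) (.e (nat_lit 163905) (nat_lit 12) (.e (nat_lit 426487) (nat_lit 27) .nil))))))) (.g (nat_lit 1) (.e (nat_lit 377263) (nat_lit 0) .nil) .nil)))) (.nd (nat_lit 9) 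
(.lf (nat_lit 580093) (.g (nat_lit 1632) (.e (nat_lit 336387) (nat_lit 27) (.e (nat_lit 426188) (nat_lit 9) (.e (nat_lit 426438) (nat_lit 18) (.e (nat_lit 98335) (nat_lit 18) (.e (nat_lit 164305) (nat_lit 226) .nil))))) (.g (nat_lit 0) (.e (nat_lit 376808) (nat_lit 0) .nil) .nil))) 
(.lf (nat_lit 580605) (.g (nat_lit 2999) (.e (nat_lit 336414) (nat_lit 27) (.e (nat_lit 425984) (nat_lit 0) (.e (nat_lit 7588) (nat_lit 406) (.e (nat_lit 65653) (nat_lit 27) (.e (nat_lit 426344) (nat_lit 14) (.e (nat_lit 491547) (nat_lit 9) .nil)))))) (.g (nat_lit 1) (.e (nat_lit 377584) (nat_lit 0) .nil) .nil))))))))))) 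
(.nd (nat_lit 2) (.nd (nat_lit 3) (.nd (nat_lit 4) (.nd (nat_lit 5) (.nd (nat_lit 6) 
(.nd (nat_lit 7) (.nd (nat_lit 8) (.nd (nat_lit 9) 
(.lf (nat_lit 579587) (.g (nat_lit 2275) (.e (nat_lit 336326) (nat_lit 18) (.e (nat_lit 204863) (nat_lit 27) (.e (nat_lit 344129) (nat_lit 26) (.e (nat_lit 557096) (nat_lit 13) (.e (nat_lit 172128) (nat_lit 15) .nil))))) (.g (nat_lit 0) (.e (nat_lit 374955) (nat_lit 0) .nil) .nil))) 
(.lf (nat_lit 580099) (.g (nat_lit 2542) (.e (nat_lit 336387) (nat_lit 27) (.e (nat_lit 426200) (nat_lit 9) (.e (nat_lit 426131) (nat_lit 3) (.e (nat_lit 204829) (nat_lit 18) (.e (nat_lit 57659) (nat_lit 152) .nil))))) (.g (nat_lit 0) (.e (nat_lit 376822) (nat_lit 0) .nil) .nil)))) (.nd (nat_lit 9) 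
(.lf (nat_lit 579843) (.g (nat_lit 1309) (.e (nat_lit 336385) (nat_lit 27) (.e (nat_lit 426107) (nat_lit 1) (.e (nat_lit 164325) (nat_lit 230) (.e (nat_lit 163868) (nat_lit 2) .nil)))) (.g (nat_lit 0) (.e (nat_lit 376454) (nat_lit 0) .nil) .nil))) 
(.lf (nat_lit 580355) (.g (nat_lit 2909) (.e (nat_lit 336405) (nat_lit 27) (.e (nat_lit 426198) (nat_lit 9) (.e (nat_lit 426436) (nat_lit 18) (.e (nat_lit 98335) (nat_lit 18) (.e (nat_lit 164329) (nat_lit 230) (.e (nat_lit 163902) (nat_lit 12) (.e (nat_lit 426489) (nat_lit 27) .nil))))))) (.g (nat_lit 1) (.e (nat_lit 377270) (nat_lit 0) .nil) .nil))))) (.nd (nat_lit 8) (.nd (nat_lit 9) 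
(.lf (nat_lit 579715) (.g (nat_lit 2708) (.e (nat_lit 336334) (nat_lit 20) (.e (nat_lit 221210) (nat_lit 22) (.e (nat_lit 196654) (nat_lit 11) (.e (nat_lit 16436) (nat_lit 9) (.e (nat_lit 426131) (nat_lit 3) (.e (nat_lit 204853) (nat_lit 26) .nil)))))) (.g (nat_lit 1) (.e (nat_lit 375467) (nat_lit 0) .nil) .nil))) 
(.lf (nat_lit 580227) (.g (nat_lit 2236) (.e (nat_lit 336388) (nat_lit 27) (.e (nat_lit 426343) (nat_lit 14) (.e (nat_lit 491560) (nat_lit 10) (.e (nat_lit 344179) (nat_lit 44) .nil)))) (.g (nat_lit 0) (.e (nat_lit 377004) (nat_lit 0) .nil) .nil)))) (.nd (nat_lit 9) 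
(.lf (nat_lit 579971) (.g (nat_lit 709) (.e (nat_lit 336389) (nat_lit 27) (.e (nat_lit 426098) (nat_lit 1) (.e (nat_lit 164397) (nat_lit 256) .nil))) (.g (nat_lit 0) (.e (nat_lit 376607) (nat_lit 0) .nil) .nil))) 
(.lf (nat_lit 580483) (.g (nat_lit 880) (.e (nat_lit 336407) (nat_lit 27) (.e (nat_lit 426098) (nat_lit 1) (.e (nat_lit 164325) (nat_lit 230) .nil))) (.g (nat_lit 0) (.e (nat_lit 377440) (nat_lit 0) .nil) .nil)))))) (.nd (nat_lit 7) (.nd (nat_lit 8) (.nd (nat_lit 9) 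
(.lf (nat_lit 579651) (.g (nat_lit 2021) (.e (nat_lit 336326) (nat_lit 18) (.e (nat_lit 204880) (nat_lit 32) (.e (nat_lit 385066) (nat_lit 26) (.e (nat_lit 532534) (nat_lit 9) (.e (nat_lit 336257) (nat_lit 15) .nil))))) (.g (nat_lit 0) (.e (nat_lit 375050) (nat_lit 0) .nil) .nil))) 
(.lf (nat_lit 580163) (.g (nat_lit 2790) (.e (nat_lit 336388) (nat_lit 27) (.e (nat_lit 426107) (nat_lit 1) (.e (nat_lit 164327) (nat_lit 230) (.e (nat_lit 163868) (nat_lit 2) (.e (nat_lit 196656) (nat_lit 11) (.e (nat_lit 16436) (nat_lit 9) (.e (nat_lit 426478) (nat_lit 27) .nil))))))) (.g (nat_lit 1) (.e (nat_lit 376932) (nat_lit 0) .nil) .nil)))) (.nd (nat_lit 9) 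
(.lf (nat_lit 579907) (.g (nat_lit 1484) (.e (nat_lit 336385) (nat_lit 27) (.e (nat_lit 426341) (nat_lit 14) (.e (nat_lit 491571) (nat_lit 13) (.e (nat_lit 393298) (nat_lit 27) .nil)))) (.g (nat_lit 0) (.e (nat_lit 376540) (nat_lit 0) .nil) .nil))) 
(.lf (nat_lit 580419) (.g (nat_lit 1290) (.e (nat_lit 336408) (nat_lit 27) (.e (nat_lit 426200) (nat_lit 9) (.e (nat_lit 426131) (nat_lit 3) (.e (nat_lit 204829) (nat_lit 18) .nil)))) (.g (nat_lit 0) (.e (nat_lit 377369) (nat_lit 0) .nil) .nil))))) (.nd (nat_lit 8) (.nd (nat_lit 9) 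
(.lf (nat_lit 579779) (.g (nat_lit 2653) (.e (nat_lit 336370) (nat_lit 27) (.e (nat_lit 426340) (nat_lit 14) (.e (nat_lit 491571) (nat_lit 13) (.e (nat_lit 393299) (nat_lit 27) (.e (nat_lit 491546) (nat_lit 9) .nil))))) (.g (nat_lit 0) (.e (nat_lit 376345) (nat_lit 0) .nil) .nil))) 
(.lf (nat_lit 580291) (.g (nat_lit 2279) (.e (nat_lit 336395) (nat_lit 27) (.e (nat_lit 426338) (nat_lit 14) (.e (nat_lit 491571) (nat_lit 13) (.e (nat_lit 393298) (nat_lit 27) (.e (nat_lit 491548) (nat_lit 9) .nil))))) (.g (nat_lit 0) (.e (nat_lit 377130) (nat_lit 0) .nil) .nil)))) (.nd (nat_lit 9) 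
(.lf (nat_lit 580035) (.g (nat_lit 1374) (.e (nat_lit 336387) (nat_lit 27) (.e (nat_lit 426107) (nat_lit 1) (.e (nat_lit 164324) (nat_lit 230) (.e (nat_lit 163868) (nat_lit 2) .nil)))) (.g (nat_lit 0) (.e (nat_lit 376694) (nat_lit 0) .nil) .nil))) 
(.lf (nat_lit 580547) (.g (nat_lit 2833) (.e (nat_lit 336407) (nat_lit 27) (.e (nat_lit 426315) (nat_lit 12) (.e (nat_lit 475178) (nat_lit 24) (.e (nat_lit 516117) (nat_lit 1) (.e (nat_lit 164329) (nat_lit 230) (.e (nat_lit 163902) (nat_lit 12) (.e (nat_lit 426489) (nat_lit 27) .nil))))))) (.g (nat_lit 1) (.e (nat_lit 377508) (nat_lit 0) .nil) .nil))))))) 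
(.nd (nat_lit 6) (.nd (nat_lit 7) (.nd (nat_lit 8) (.nd (nat_lit 9) 
(.lf (nat_lit 579619) (.g (nat_lit 2676) (.e (nat_lit 336326) (nat_lit 18) (.e (nat_lit 204863) (nat_lit 27) (.e (nat_lit 344133) (nat_lit 26) (.e (nat_lit 557098) (nat_lit 13) (.e (nat_lit 172128) (nat_lit 15) .nil))))) (.g (nat_lit 0) (.e (nat_lit 374993) (nat_lit 0) .nil) .nil))) 
(.lf (nat_lit 580131) (.g (nat_lit 363) (.e (nat_lit 336387) (nat_lit 27) (.e (nat_lit 426316) (nat_lit 12) (.e (nat_lit 475199) (nat_lit 40) .nil))) (.g (nat_lit 0) (.e (nat_lit 376897) (nat_lit 0) .nil) .nil)))) (.nd (nat_lit 9) 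
(.lf (nat_lit 579875) (.g (nat_lit 3055) (.e (nat_lit 336385) (nat_lit 27) (.e (nat_lit 426187) (nat_lit 9) (.e (nat_lit 426436) (nat_lit 18) (.e (nat_lit 98335) (nat_lit 18) (.e (nat_lit 164330) (nat_lit 230) (.e (nat_lit 163905) (nat_lit 12) (.e (nat_lit 426481) (nat_lit 27) .nil))))))) (.g (nat_lit 1) (.e (nat_lit 376498) (nat_lit 0) .nil) .nil))) 
(.lf (nat_lit 580387) (.g (nat_lit 1640) (.e (nat_lit 336406) (nat_lit 27) (.e (nat_lit 426108) (nat_lit 1) (.e (nat_lit 164330) (nat_lit 230) (.e (nat_lit 163873) (nat_lit 3) .nil)))) (.g (nat_lit 0) (.e (nat_lit 377316) (nat_lit 0) .nil) .nil))))) (.nd (nat_lit 8) (.nd (nat_lit 9) 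
(.lf (nat_lit 579747) (.g (nat_lit 494) (.e (nat_lit 336367) (nat_lit 27) (.e (nat_lit 426320) (nat_lit 12) (.e (nat_lit 475197) (nat_lit 40) .nil))) (.g (nat_lit 0) (.e (nat_lit 376293) (nat_lit 0) .nil) .nil))) 
(.lf (nat_lit 580259) (.g (nat_lit 2233) (.e (nat_lit 336391) (nat_lit 27) (.e (nat_lit 426343) (nat_lit 14) (.e (nat_lit 491560) (nat_lit 10) (.e (nat_lit 344179) (nat_lit 44) .nil)))) (.g (nat_lit 0) (.e (nat_lit 377079) (nat_lit 0) .nil) .nil)))) (.nd (nat_lit 9) 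
(.lf (nat_lit 580003) (.g (nat_lit 3573) (.e (nat_lit 336389) (nat_lit 27) (.e (nat_lit 426308) (nat_lit 12) (.e (nat_lit 475179) (nat_lit 24) (.e (nat_lit 516117) (nat_lit 1) (.e (nat_lit 164329) (nat_lit 230) (.e (nat_lit 163902) (nat_lit 12) (.e (nat_lit 426481) (nat_lit 27) .nil))))))) (.g (nat_lit 1) (.e (nat_lit 376639) (nat_lit 0) .nil) .nil))) 
(.lf (nat_lit 580515) (.g (nat_lit 2459) (.e (nat_lit 336407) (nat_lit 27) (.e (nat_lit 426107) (nat_lit 1) (.e (nat_lit 164327) (nat_lit 230) (.e (nat_lit 163871) (nat_lit 2) (.e (nat_lit 196654) (nat_lit 11) .nil))))) (.g (nat_lit 0) (.e (nat_lit 377474) (nat_lit 0) .nil) .nil)))))) (.nd (nat_lit 7) (.nd (nat_lit 8) (.nd (nat_lit 9) 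
(.lf (nat_lit 579683) (.g (nat_lit 850) (.e (nat_lit 343808) (nat_lit 18) (.e (nat_lit 204831) (nat_lit 18) (.e (nat_lit 57846) (nat_lit 252) (.e (nat_lit 57407) (nat_lit 12) .nil)))) (.g (nat_lit 0) (.e (nat_lit 375091) (nat_lit 0) .nil) .nil))) 
(.lf (nat_lit 580195) (.g (nat_lit 1645) (.e (nat_lit 336388) (nat_lit 27) (.e (nat_lit 426188) (nat_lit 9) (.e (nat_lit 426436) (nat_lit 18) (.e (nat_lit 98334) (nat_lit 18) (.e (nat_lit 164330) (nat_lit 230) .nil))))) (.g (nat_lit 0) (.e (nat_lit 376970) (nat_lit 0) .nil) .nil)))) (.nd (nat_lit 9) 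
(.lf (nat_lit 579939) (.g (nat_lit 1492) (.e (nat_lit 336386) (nat_lit 27) (.e (nat_lit 426306) (nat_lit 12) (.e (nat_lit 475177) (nat_lit 24) (.e (nat_lit 516117) (nat_lit 1) .nil)))) (.g (nat_lit 0) (.e (nat_lit 376574) (nat_lit 0) .nil) .nil))) 
(.lf (nat_lit 580451) (.g (nat_lit 1791) (.e (nat_lit 336409) (nat_lit 27) (.e (nat_lit 426107) (nat_lit 1) (.e (nat_lit 164327) (nat_lit 230) (.e (nat_lit 163868) (nat_lit 2) .nil)))) (.g (nat_lit 0) (.e (nat_lit 377408) (nat_lit 0) .nil) .nil))))) (.nd (nat_lit 8) (.nd (nat_lit 9) 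
(.lf (nat_lit 579811) (.g (nat_lit 1527) (.e (nat_lit 336379) (nat_lit 27) (.e (nat_lit 426347) (nat_lit 14) (.e (nat_lit 491569) (nat_lit 13) (.e (nat_lit 393301) (nat_lit 27) .nil)))) (.g (nat_lit 0) (.e (nat_lit 376407) (nat_lit 0) .nil) .nil))) 
(.lf (nat_lit 580323) (.g (nat_lit 2090) (.e (nat_lit 336418) (nat_lit 27) (.e (nat_lit 426108) (nat_lit 1) (.e (nat_lit 164330) (nat_lit 230) (.e (nat_lit 163869) (nat_lit 2) .nil)))) (.g (nat_lit 0) (.e (nat_lit 377197) (nat_lit 0) .nil) .nil)))) (.nd (nat_lit 9) 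
(.lf (nat_lit 580067) (.g (nat_lit 2222) (.e (nat_lit 336387) (nat_lit 27) (.e (nat_lit 426107) (nat_lit 1) (.e (nat_lit 164327) (nat_lit 230) (.e (nat_lit 163873) (nat_lit 3) (.e (nat_lit 204811) (nat_lit 9) .nil))))) (.g (nat_lit 0) (.e (nat_lit 376750) (nat_lit 0) .nil) .nil))) 
(.lf (nat_lit 580579) (.g (nat_lit 1477) (.e (nat_lit 336412) (nat_lit 27) (.e (nat_lit 426190) (nat_lit 9) (.e (nat_lit 426438) (nat_lit 18) (.e (nat_lit 98335) (nat_lit 18) .nil)))) (.g (nat_lit 0) (.e (nat_lit 377545) (nat_lit 0) .nil) .nil)))))))) (.nd (nat_lit 5) (.nd (nat_lit 6) (.nd (nat_lit 7) (.nd (nat_lit 8) (.nd (nat_lit 9) 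
(.lf (nat_lit 579603) (.g (nat_lit 2718) (.e (nat_lit 336326) (nat_lit 18) (.e (nat_lit 204863) (nat_lit 27) (.e (nat_lit 344131) (nat_lit 26) (.e (nat_lit 557098) (nat_lit 13) (.e (nat_lit 172133) (nat_lit 15) (.e (nat_lit 7936) (nat_lit 121) (.e (nat_lit 532529) (nat_lit 9) .nil))))))) (.g (nat_lit 1) (.e (nat_lit 374972) (nat_lit 0) .nil) .nil))) 
(.lf (nat_lit 580115) (.g (nat_lit 1442) (.e (nat_lit 336387) (nat_lit 27) (.e (nat_lit 426316) (nat_lit 12) (.e (nat_lit 475177) (nat_lit 24) (.e (nat_lit 516119) (nat_lit 1) .nil)))) (.g (nat_lit 0) (.e (nat_lit 376864) (nat_lit 0) .nil) .nil)))) (.nd (nat_lit 9) 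
(.lf (nat_lit 579859) (.g (nat_lit 2676) (.e (nat_lit 336385) (nat_lit 27) (.e (nat_lit 426107) (nat_lit 1) (.e (nat_lit 164327) (nat_lit 230) (.e (nat_lit 163873) (nat_lit 3) (.e (nat_lit 204813) (nat_lit 9) (.e (nat_lit 426200) (nat_lit 9) (.e (nat_lit 426481) (nat_lit 27) .nil))))))) (.g (nat_lit 1) (.e (nat_lit 376474) (nat_lit 0) .nil) .nil))) 
(.lf (nat_lit 580371) (.g (nat_lit 2226) (.e (nat_lit 336406) (nat_lit 27) (.e (nat_lit 426098) (nat_lit 1) (.e (nat_lit 164325) (nat_lit 230) (.e (nat_lit 163868) (nat_lit 2) (.e (nat_lit 196656) (nat_lit 11) .nil))))) (.g (nat_lit 0) (.e (nat_lit 377299) (nat_lit 0) .nil) .nil))))) (.nd (nat_lit 8) (.nd (nat_lit 9) 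
(.lf (nat_lit 579731) (.g (nat_lit 2062) (.e (nat_lit 336360) (nat_lit 25) (.e (nat_lit 409649) (nat_lit 18) (.e (nat_lit 303140) (nat_lit 10) (.e (nat_lit 434200) (nat_lit 18) .nil)))) (.g (nat_lit 0) (.e (nat_lit 376259) (nat_lit 0) .nil) .nil))) 
(.lf (nat_lit 580243) (.g (nat_lit 2454) (.e (nat_lit 336390) (nat_lit 27) (.e (nat_lit 426107) (nat_lit 1) (.e (nat_lit 164327) (nat_lit 230) (.e (nat_lit 163871) (nat_lit 2) (.e (nat_lit 196654) (nat_lit 11) .nil))))) (.g (nat_lit 0) (.e (nat_lit 377029) (nat_lit 0) .nil) .nil)))) (.nd (nat_lit 9) 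
(.lf (nat_lit 579987) (.g (nat_lit 3141) (.e (nat_lit 336389) (nat_lit 27) (.e (nat_lit 426187) (nat_lit 9) (.e (nat_lit 426436) (nat_lit 18) (.e (nat_lit 98335) (nat_lit 18) (.e (nat_lit 164330) (nat_lit 230) (.e (nat_lit 163902) (nat_lit 12) (.e (nat_lit 426481) (nat_lit 27) .nil))))))) (.g (nat_lit 1) (.e (nat_lit 376623) (nat_lit 0) .nil) .nil))) 
(.lf (nat_lit 580499) (.g (nat_lit 1707) (.e (nat_lit 336407) (nat_lit 27) (.e (nat_lit 426098) (nat_lit 1) (.e (nat_lit 164327) (nat_lit 230) (.e (nat_lit 163875) (nat_lit 3) (.e (nat_lit 204813) (nat_lit 9) .nil))))) (.g (nat_lit 0) (.e (nat_lit 377458) (nat_lit 0) .nil) .nil)))))) (.nd (nat_lit 7) (.nd (nat_lit 8) (.nd (nat_lit 9) 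
(.lf (nat_lit 579667) (.g (nat_lit 2679) (.e (nat_lit 336326) (nat_lit 18) (.e (nat_lit 204882) (nat_lit 32) (.e (nat_lit 385066) (nat_lit 26) (.e (nat_lit 532534) (nat_lit 9) (.e (nat_lit 336257) (nat_lit 15) (.e (nat_lit 3256) (nat_lit 197) (.e (nat_lit 532530) (nat_lit 9) .nil))))))) (.g (nat_lit 1) (.e (nat_lit 375074) (nat_lit 0) .nil) .nil))) 
(.lf (nat_lit 580179) (.g (nat_lit 1949) (.e (nat_lit 336388) (nat_lit 27) (.e (nat_lit 426108) (nat_lit 1) (.e (nat_lit 164330) (nat_lit 230) (.e (nat_lit 163874) (nat_lit 3) .nil)))) (.g (nat_lit 0) (.e (nat_lit 376952) (nat_lit 0) .nil) .nil)))) (.nd (nat_lit 9) 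
(.lf (nat_lit 579923) (.g (nat_lit 2879) (.e (nat_lit 336386) (nat_lit 27) (.e (nat_lit 426107) (nat_lit 1) (.e (nat_lit 164327) (nat_lit 230) (.e (nat_lit 163868) (nat_lit 2) (.e (nat_lit 196656) (nat_lit 11) .nil))))) (.g (nat_lit 0) (.e (nat_lit 376557) (nat_lit 0) .nil) .nil))) 
(.lf (nat_lit 580435) (.g (nat_lit 2260) (.e (nat_lit 336409) (nat_lit 27) (.e (nat_lit 426098) (nat_lit 1) (.e (nat_lit 164325) (nat_lit 230) (.e (nat_lit 163868) (nat_lit 2) (.e (nat_lit 196656) (nat_lit 11) .nil))))) (.g (nat_lit 0) (.e (nat_lit 377390) (nat_lit 0) .nil) .nil))))) (.nd (nat_lit 8) (.nd (nat_lit 9) 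
(.lf (nat_lit 579795) (.g (nat_lit 1583) (.e (nat_lit 336369) (nat_lit 27) (.e (nat_lit 426173) (nat_lit 7) (.e (nat_lit 409618) (nat_lit 10) (.e (nat_lit 5024) (nat_lit 290) .nil)))) (.g (nat_lit 0) (.e (nat_lit 376374) (nat_lit 0) .nil) .nil))) 
(.lf (nat_lit 580307) (.g (nat_lit 2134) (.e (nat_lit 336395) (nat_lit 27) (.e (nat_lit 426340) (nat_lit 14) (.e (nat_lit 491571) (nat_lit 13) (.e (nat_lit 393299) (nat_lit 27) (.e (nat_lit 491546) (nat_lit 9) .nil))))) (.g (nat_lit 0) (.e (nat_lit 377147) (nat_lit 0) .nil) .nil)))) (.nd (nat_lit 9) 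
(.lf (nat_lit 580051) (.g (nat_lit 2186) (.e (nat_lit 336387) (nat_lit 27) (.e (nat_lit 426107) (nat_lit 1) (.e (nat_lit 164326) (nat_lit 230) (.e (nat_lit 163868) (nat_lit 2) (.e (nat_lit 196656) (nat_lit 11) (.e (nat_lit 16444) (nat_lit 9) (.e (nat_lit 426503) (nat_lit 27) .nil))))))) (.g (nat_lit 1) (.e (nat_lit 376716) (nat_lit 0) .nil) .nil))) 
(.lf (nat_lit 580563) (.g (nat_lit 2061) (.e (nat_lit 336412) (nat_lit 27) (.e (nat_lit 426098) (nat_lit 1) (.e (nat_lit 164325) (nat_lit 230) (.e (nat_lit 163873) (nat_lit 3) .nil)))) (.g (nat_lit 0) (.e (nat_lit 377526) (nat_lit 0) .nil) .nil))))))) (.nd (nat_lit 6) (.nd (nat_lit 7) (.nd (nat_lit 8) (.nd (nat_lit 9) 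
(.lf (nat_lit 579635) (.g (nat_lit 2914) (.e (nat_lit 336326) (nat_lit 18) (.e (nat_lit 204869) (nat_lit 29) (.e (nat_lit 360450) (nat_lit 0) (.e (nat_lit 7292) (nat_lit 386) .nil)))) (.g (nat_lit 0) (.e (nat_lit 375017) (nat_lit 0) .nil) .nil))) 
(.lf (nat_lit 580147) (.g (nat_lit 2062) (.e (nat_lit 336388) (nat_lit 27) (.e (nat_lit 426100) (nat_lit 1) (.e (nat_lit 164332) (nat_lit 230) (.e (nat_lit 163874) (nat_lit 3) (.e (nat_lit 204813) (nat_lit 9) .nil))))) (.g (nat_lit 0) (.e (nat_lit 376916) (nat_lit 0) .nil) .nil)))) (.nd (nat_lit 9) 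
(.lf (nat_lit 579891) (.g (nat_lit 665) (.e (nat_lit 336385) (nat_lit 27) (.e (nat_lit 426306) (nat_lit 12) (.e (nat_lit 475177) (nat_lit 24) .nil))) (.g (nat_lit 0) (.e (nat_lit 376522) (nat_lit 0) .nil) .nil))) 
(.lf (nat_lit 580403) (.g (nat_lit 1711) (.e (nat_lit 336408) (nat_lit 27) (.e (nat_lit 426098) (nat_lit 1) (.e (nat_lit 164325) (nat_lit 230) (.e (nat_lit 163871) (nat_lit 2) .nil)))) (.g (nat_lit 0) (.e (nat_lit 377334) (nat_lit 0) .nil) .nil))))) (.nd (nat_lit 8) (.nd (nat_lit 9) 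
(.lf (nat_lit 579763) (.g (nat_lit 1173) (.e (nat_lit 336368) (nat_lit 27) (.e (nat_lit 426312) (nat_lit 12) (.e (nat_lit 475199) (nat_lit 40) (.e (nat_lit 704596) (nat_lit 5) .nil)))) (.g (nat_lit 0) (.e (nat_lit 376320) (nat_lit 0) .nil) .nil))) 
(.lf (nat_lit 580275) (.g (nat_lit 997) (.e (nat_lit 336398) (nat_lit 27) (.e (nat_lit 426317) (nat_lit 12) (.e (nat_lit 475198) (nat_lit 40) (.e (nat_lit 704595) (nat_lit 5) .nil)))) (.g (nat_lit 0) (.e (nat_lit 377103) (nat_lit 0) .nil) .nil)))) (.nd (nat_lit 9) 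
(.lf (nat_lit 580019) (.g (nat_lit 3181) (.e (nat_lit 336389) (nat_lit 27) (.e (nat_lit 426344) (nat_lit 14) (.e (nat_lit 491560) (nat_lit 10) (.e (nat_lit 344177) (nat_lit 43) (.e (nat_lit 770072) (nat_lit 8) .nil))))) (.g (nat_lit 0) (.e (nat_lit 376655) (nat_lit 0) .nil) .nil))) 
(.lf (nat_lit 580531) (.g (nat_lit 2641) (.e (nat_lit 336407) (nat_lit 27) (.e (nat_lit 426190) (nat_lit 9) (.e (nat_lit 426436) (nat_lit 18) (.e (nat_lit 98334) (nat_lit 18) (.e (nat_lit 164330) (nat_lit 230) (.e (nat_lit 163905) (nat_lit 12) (.e (nat_lit 426487) (nat_lit 27) .nil))))))) (.g (nat_lit 1) (.e (nat_lit 377490) (nat_lit 0) .nil) .nil)))))) 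
(.nd (nat_lit 7) (.nd (nat_lit 8) (.nd (nat_lit 9) 
(.lf (nat_lit 579699) (.g (nat_lit 2719) (.e (nat_lit 343808) (nat_lit 18) (.e (nat_lit 204863) (nat_lit 27) (.e (nat_lit 344117) (nat_lit 21) (.e (nat_lit 516129) (nat_lit 3) (.e (nat_lit 229120) (nat_lit 3) .nil))))) (.g (nat_lit 0) (.e (nat_lit 375121) (nat_lit 0) .nil) .nil))) 
(.lf (nat_lit 580211) (.g (nat_lit 1411) (.e (nat_lit 336388) (nat_lit 27) (.e (nat_lit 426306) (nat_lit 12) (.e (nat_lit 475177) (nat_lit 24) (.e (nat_lit 516119) (nat_lit 1) .nil)))) (.g (nat_lit 0) (.e (nat_lit 376987) (nat_lit 0) .nil) .nil)))) (.nd (nat_lit 9) 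
(.lf (nat_lit 579955) (.g (nat_lit 1908) (.e (nat_lit 336389) (nat_lit 27) (.e (nat_lit 426098) (nat_lit 1) (.e (nat_lit 164325) (nat_lit 230) (.e (nat_lit 163873) (nat_lit 3) .nil)))) (.g (nat_lit 0) (.e (nat_lit 376591) (nat_lit 0) .nil) .nil))) 
(.lf (nat_lit 580467) (.g (nat_lit 1993) (.e (nat_lit 336409) (nat_lit 27) (.e (nat_lit 426200) (nat_lit 9) (.e (nat_lit 426131) (nat_lit 3) (.e (nat_lit 204831) (nat_lit 18) (.e (nat_lit 57692) (nat_lit 156) (.e (nat_lit 163906) (nat_lit 12) (.e (nat_lit 426491) (nat_lit 27) .nil))))))) (.g (nat_lit 1) (.e (nat_lit 377424) (nat_lit 0) .nil) .nil))))) (.nd (nat_lit 8) (.nd (nat_lit 9) 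
(.lf (nat_lit 579827) (.g (nat_lit 1454) (.e (nat_lit 336385) (nat_lit 27) (.e (nat_lit 426011) (nat_lit 0) (.e (nat_lit 7591) (nat_lit 407) (.e (nat_lit 73775) (nat_lit 26) .nil)))) (.g (nat_lit 0) (.e (nat_lit 376431) (nat_lit 0) .nil) .nil))) 
(.lf (nat_lit 580339) (.g (nat_lit 811) (.e (nat_lit 336405) (nat_lit 27) (.e (nat_lit 426011) (nat_lit 0) (.e (nat_lit 7591) (nat_lit 407) .nil))) (.g (nat_lit 0) (.e (nat_lit 377239) (nat_lit 0) .nil) .nil)))) (.nd (nat_lit 9) 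
(.lf (nat_lit 580083) (.g (nat_lit 1001) (.e (nat_lit 336387) (nat_lit 27) (.e (nat_lit 426108) (nat_lit 1) (.e (nat_lit 164332) (nat_lit 230) (.e (nat_lit 163873) (nat_lit 3) .nil)))) (.g (nat_lit 0) (.e (nat_lit 376795) (nat_lit 0) .nil) .nil))) 
(.lf (nat_lit 580595) (.g (nat_lit 2583) (.e (nat_lit 336412) (nat_lit 27) (.e (nat_lit 426343) (nat_lit 14) (.e (nat_lit 491560) (nat_lit 10) (.e (nat_lit 344179) (nat_lit 44) (.e (nat_lit 778466) (nat_lit 11) (.e (nat_lit 24632) (nat_lit 9) .nil)))))) (.g (nat_lit 1) (.e (nat_lit 377570) (nat_lit 0) .nil) .nil))))))))) 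
(.nd (nat_lit 4) (.nd (nat_lit 5) (.nd (nat_lit 6) (.nd (nat_lit 7) (.nd (nat_lit 8) 
(.nd (nat_lit 9) 
(.lf (nat_lit 579595) (.g (nat_lit 2987) (.e (nat_lit 336326) (nat_lit 18) (.e (nat_lit 204863) (nat_lit 27) (.e (nat_lit 344129) (nat_lit 26) (.e (nat_lit 557103) (nat_lit 14) (.e (nat_lit 180241) (nat_lit 4) (.e (nat_lit 532224) (nat_lit 26) .nil)))))) (.g (nat_lit 1) (.e (nat_lit 374963) (nat_lit 0) .nil) .nil))) 
(.lf (nat_lit 580107) (.g (nat_lit 2055) (.e (nat_lit 336387) (nat_lit 27) (.e (nat_lit 426200) (nat_lit 9) (.e (nat_lit 426436) (nat_lit 18) (.e (nat_lit 98335) (nat_lit 18) (.e (nat_lit 164330) (nat_lit 230) (.e (nat_lit 163908) (nat_lit 12) (.e (nat_lit 426528) (nat_lit 27) .nil))))))) (.g (nat_lit 1) (.e (nat_lit 376838) (nat_lit 0) .nil) .nil)))) (.nd (nat_lit 9) 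
(.lf (nat_lit 579851) (.g (nat_lit 1791) (.e (nat_lit 336385) (nat_lit 27) (.e (nat_lit 426107) (nat_lit 1) (.e (nat_lit 164327) (nat_lit 230) (.e (nat_lit 163868) (nat_lit 2) .nil)))) (.g (nat_lit 0) (.e (nat_lit 376464) (nat_lit 0) .nil) .nil))) 
(.lf (nat_lit 580363) (.g (nat_lit 2274) (.e (nat_lit 336405) (nat_lit 27) (.e (nat_lit 426306) (nat_lit 12) (.e (nat_lit 475177) (nat_lit 24) (.e (nat_lit 516117) (nat_lit 1) (.e (nat_lit 164330) (nat_lit 230) (.e (nat_lit 163905) (nat_lit 12) (.e (nat_lit 426491) (nat_lit 27) .nil))))))) (.g (nat_lit 1) (.e (nat_lit 377290) (nat_lit 0) .nil) .nil))))) (.nd (nat_lit 8) (.nd (nat_lit 9) 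
(.lf (nat_lit 579723) (.g (nat_lit 2463) (.e (nat_lit 336337) (nat_lit 20) (.e (nat_lit 221219) (nat_lit 24) (.e (nat_lit 213030) (nat_lit 11) (.e (nat_lit 24617) (nat_lit 7) (.e (nat_lit 319530) (nat_lit 16) (.e (nat_lit 286743) (nat_lit 9) .nil)))))) (.g (nat_lit 1) (.e (nat_lit 376069) (nat_lit 0) .nil) .nil))) 
(.lf (nat_lit 580235) (.g (nat_lit 2547) (.e (nat_lit 336390) (nat_lit 27) (.e (nat_lit 426012) (nat_lit 0) (.e (nat_lit 7593) (nat_lit 407) (.e (nat_lit 73775) (nat_lit 26) (.e (nat_lit 778466) (nat_lit 11) (.e (nat_lit 24636) (nat_lit 9) .nil)))))) (.g (nat_lit 1) (.e (nat_lit 377016) (nat_lit 0) .nil) .nil)))) (.nd (nat_lit 9) 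
(.lf (nat_lit 579979) (.g (nat_lit 2879) (.e (nat_lit 336389) (nat_lit 27) (.e (nat_lit 426107) (nat_lit 1) (.e (nat_lit 164327) (nat_lit 230) (.e (nat_lit 163868) (nat_lit 2) (.e (nat_lit 196656) (nat_lit 11) .nil))))) (.g (nat_lit 0) (.e (nat_lit 376615) (nat_lit 0) .nil) .nil))) 
(.lf (nat_lit 580491) (.g (nat_lit 3558) (.e (nat_lit 336407) (nat_lit 27) (.e (nat_lit 426098) (nat_lit 1) (.e (nat_lit 164325) (nat_lit 230) (.e (nat_lit 163873) (nat_lit 3) (.e (nat_lit 204813) (nat_lit 9) (.e (nat_lit 426200) (nat_lit 9) (.e (nat_lit 426487) (nat_lit 27) .nil))))))) (.g (nat_lit 1) (.e (nat_lit 377449) (nat_lit 0) .nil) .nil)))))) 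
(.nd (nat_lit 7) (.nd (nat_lit 8) (.nd (nat_lit 9) 
(.lf (nat_lit 579659) (.g (nat_lit 1592) (.e (nat_lit 336326) (nat_lit 18) (.e (nat_lit 204882) (nat_lit 32) (.e (nat_lit 385066) (nat_lit 26) (.e (nat_lit 532527) (nat_lit 9) .nil)))) (.g (nat_lit 0) (.e (nat_lit 375066) (nat_lit 0) .nil) .nil))) 
(.lf (nat_lit 580171) (.g (nat_lit 2133) (.e (nat_lit 336388) (nat_lit 27) (.e (nat_lit 426107) (nat_lit 1) (.e (nat_lit 164403) (nat_lit 256) (.e (nat_lit 57378) (nat_lit 3) .nil)))) (.g (nat_lit 0) (.e (nat_lit 376940) (nat_lit 0) .nil) .nil)))) (.nd (nat_lit 9) 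
(.lf (nat_lit 579915) (.g (nat_lit 802) (.e (nat_lit 336386) (nat_lit 27) (.e (nat_lit 426011) (nat_lit 0) (.e (nat_lit 7591) (nat_lit 407) .nil))) (.g (nat_lit 0) (.e (nat_lit 376548) (nat_lit 0) .nil) .nil))) 
(.lf (nat_lit 580427) (.g (nat_lit 1090) (.e (nat_lit 336408) (nat_lit 27) (.e (nat_lit 426306) (nat_lit 12) (.e (nat_lit 475177) (nat_lit 24) (.e (nat_lit 516119) (nat_lit 1) .nil)))) (.g (nat_lit 0) (.e (nat_lit 377381) (nat_lit 0) .nil) .nil))))) (.nd (nat_lit 8) (.nd (nat_lit 9) 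
(.lf (nat_lit 579787) (.g (nat_lit 404) (.e (nat_lit 336369) (nat_lit 27) (.e (nat_lit 426025) (nat_lit 0) (.e (nat_lit 7107) (nat_lit 380) .nil))) (.g (nat_lit 0) (.e (nat_lit 376355) (nat_lit 0) .nil) .nil))) 
(.lf (nat_lit 580299) (.g (nat_lit 2682) (.e (nat_lit 336395) (nat_lit 27) (.e (nat_lit 426340) (nat_lit 14) (.e (nat_lit 491571) (nat_lit 13) (.e (nat_lit 393232) (nat_lit 17) (.e (nat_lit 7545) (nat_lit 402) (.e (nat_lit 1415) (nat_lit 108) .nil)))))) (.g (nat_lit 1) (.e (nat_lit 377139) (nat_lit 0) .nil) .nil)))) (.nd (nat_lit 9) 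
(.lf (nat_lit 580043) (.g (nat_lit 1348) (.e (nat_lit 336387) (nat_lit 27) (.e (nat_lit 426107) (nat_lit 1) (.e (nat_lit 164325) (nat_lit 230) (.e (nat_lit 163873) (nat_lit 3) (.e (nat_lit 204811) (nat_lit 9) .nil))))) (.g (nat_lit 0) (.e (nat_lit 376704) (nat_lit 0) .nil) .nil))) 
(.lf (nat_lit 580555) (.g (nat_lit 2018) (.e (nat_lit 336407) (nat_lit 27) (.e (nat_lit 426344) (nat_lit 14) (.e (nat_lit 491558) (nat_lit 10) (.e (nat_lit 344091) (nat_lit 18) (.e (nat_lit 7265) (nat_lit 384) .nil))))) (.g (nat_lit 0) (.e (nat_lit 377516) (nat_lit 0) .nil) .nil))))))) (.nd (nat_lit 6) (.nd (nat_lit 7) (.nd (nat_lit 8) (.nd (nat_lit 9) 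
(.lf (nat_lit 579627) (.g (nat_lit 3334) (.e (nat_lit 336326) (nat_lit 18) (.e (nat_lit 204863) (nat_lit 27) (.e (nat_lit 344133) (nat_lit 26) (.e (nat_lit 557103) (nat_lit 14) (.e (nat_lit 180241) (nat_lit 4) (.e (nat_lit 532224) (nat_lit 26) .nil)))))) (.g (nat_lit 1) (.e (nat_lit 375001) (nat_lit 0) .nil) .nil))) 
(.lf (nat_lit 580139) (.g (nat_lit 1834) (.e (nat_lit 336388) (nat_lit 27) (.e (nat_lit 426098) (nat_lit 1) (.e (nat_lit 164327) (nat_lit 230) (.e (nat_lit 163868) (nat_lit 2) (.e (nat_lit 196654) (nat_lit 11) .nil))))) (.g (nat_lit 0) (.e (nat_lit 376907) (nat_lit 0) .nil) .nil)))) (.nd (nat_lit 9) 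
(.lf (nat_lit 579883) (.g (nat_lit 1777) (.e (nat_lit 336385) (nat_lit 27) (.e (nat_lit 426188) (nat_lit 9) (.e (nat_lit 426436) (nat_lit 18) (.e (nat_lit 98335) (nat_lit 18) (.e (nat_lit 164330) (nat_lit 230) .nil))))) (.g (nat_lit 0) (.e (nat_lit 376510) (nat_lit 0) .nil) .nil))) 
(.lf (nat_lit 580395) (.g (nat_lit 2107) (.e (nat_lit 336406) (nat_lit 27) (.e (nat_lit 426306) (nat_lit 12) (.e (nat_lit 475179) (nat_lit 24) (.e (nat_lit 516117) (nat_lit 1) (.e (nat_lit 164332) (nat_lit 230) .nil))))) (.g (nat_lit 0) (.e (nat_lit 377325) (nat_lit 0) .nil) .nil))))) (.nd (nat_lit 8) (.nd (nat_lit 9) 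
(.lf (nat_lit 579755) (.g (nat_lit 1533) (.e (nat_lit 336367) (nat_lit 27) (.e (nat_lit 426482) (nat_lit 27) (.e (nat_lit 336060) (nat_lit 7) (.e (nat_lit 319505) (nat_lit 10) (.e (nat_lit 584) (nat_lit 43) .nil))))) (.g (nat_lit 0) (.e (nat_lit 376307) (nat_lit 0) .nil) .nil))) 
(.lf (nat_lit 580267) (.g (nat_lit 1719) (.e (nat_lit 336398) (nat_lit 27) (.e (nat_lit 426290) (nat_lit 10) (.e (nat_lit 434231) (nat_lit 23) (.e (nat_lit 532579) (nat_lit 26) (.e (nat_lit 426098) (nat_lit 1) .nil))))) (.g (nat_lit 0) (.e (nat_lit 377093) (nat_lit 0) .nil) .nil)))) (.nd (nat_lit 9) 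
(.lf (nat_lit 580011) (.g (nat_lit 3670) (.e (nat_lit 336389) (nat_lit 27) (.e (nat_lit 426308) (nat_lit 12) (.e (nat_lit 475179) (nat_lit 24) (.e (nat_lit 516120) (nat_lit 1) (.e (nat_lit 164330) (nat_lit 230) (.e (nat_lit 163905) (nat_lit 12) (.e (nat_lit 426481) (nat_lit 27) .nil))))))) (.g (nat_lit 1) (.e (nat_lit 376647) (nat_lit 0) .nil) .nil))) 
(.lf (nat_lit 580523) (.g (nat_lit 2759) (.e (nat_lit 336407) (nat_lit 27) (.e (nat_lit 426187) (nat_lit 9) (.e (nat_lit 426436) (nat_lit 18) (.e (nat_lit 98335) (nat_lit 18) (.e (nat_lit 164332) (nat_lit 230) .nil))))) (.g (nat_lit 0) (.e (nat_lit 377482) (nat_lit 0) .nil) .nil)))))) (.nd (nat_lit 7) (.nd (nat_lit 8) (.nd (nat_lit 9) 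
(.lf (nat_lit 579691) (.g (nat_lit 916) (.e (nat_lit 343808) (nat_lit 18) (.e (nat_lit 204831) (nat_lit 18) (.e (nat_lit 57852) (nat_lit 252) (.e (nat_lit 57446) (nat_lit 19) .nil)))) (.g (nat_lit 0) (.e (nat_lit 375099) (nat_lit 0) .nil) .nil))) 
(.lf (nat_lit 580203) (.g (nat_lit 2203) (.e (nat_lit 336388) (nat_lit 27) (.e (nat_lit 426200) (nat_lit 9) (.e (nat_lit 426131) (nat_lit 3) (.e (nat_lit 204830) (nat_lit 18) (.e (nat_lit 57692) (nat_lit 156) .nil))))) (.g (nat_lit 0) (.e (nat_lit 376978) (nat_lit 0) .nil) .nil)))) (.nd (nat_lit 9) 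
(.lf (nat_lit 579947) (.g (nat_lit 2043) (.e (nat_lit 336386) (nat_lit 27) (.e (nat_lit 426343) (nat_lit 14) (.e (nat_lit 491558) (nat_lit 10) (.e (nat_lit 344177) (nat_lit 43) .nil)))) (.g (nat_lit 0) (.e (nat_lit 376582) (nat_lit 0) .nil) .nil))) 
(.lf (nat_lit 580459) (.g (nat_lit 2342) (.e (nat_lit 336409) (nat_lit 27) (.e (nat_lit 426188) (nat_lit 9) (.e (nat_lit 426436) (nat_lit 18) (.e (nat_lit 98334) (nat_lit 18) (.e (nat_lit 164330) (nat_lit 230) (.e (nat_lit 163905) (nat_lit 12) (.e (nat_lit 426491) (nat_lit 27) .nil))))))) (.g (nat_lit 1) (.e (nat_lit 377416) (nat_lit 0) .nil) .nil))))) (.nd (nat_lit 8) (.nd (nat_lit 9) 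
(.lf (nat_lit 579819) (.g (nat_lit 2011) (.e (nat_lit 336383) (nat_lit 27) (.e (nat_lit 426098) (nat_lit 1) (.e (nat_lit 164327) (nat_lit 230) (.e (nat_lit 163868) (nat_lit 2) (.e (nat_lit 196654) (nat_lit 11) .nil))))) (.g (nat_lit 0) (.e (nat_lit 376421) (nat_lit 0) .nil) .nil))) 
(.lf (nat_lit 580331) (.g (nat_lit 2879) (.e (nat_lit 336419) (nat_lit 27) (.e (nat_lit 426107) (nat_lit 1) (.e (nat_lit 164327) (nat_lit 230) (.e (nat_lit 163868) (nat_lit 2) (.e (nat_lit 196656) (nat_lit 11) .nil))))) (.g (nat_lit 0) (.e (nat_lit 377217) (nat_lit 0) .nil) .nil)))) (.nd (nat_lit 9) 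
(.lf (nat_lit 580075) (.g (nat_lit 1181) (.e (nat_lit 336387) (nat_lit 27) (.e (nat_lit 426108) (nat_lit 1) (.e (nat_lit 164330) (nat_lit 230) (.e (nat_lit 163873) (nat_lit 3) .nil)))) (.g (nat_lit 0) (.e (nat_lit 376779) (nat_lit 0) .nil) .nil))) 
(.lf (nat_lit 580587) (.g (nat_lit 3647) (.e (nat_lit 336412) (nat_lit 27) (.e (nat_lit 426343) (nat_lit 14) (.e (nat_lit 491556) (nat_lit 9) (.e (nat_lit 336390) (nat_lit 27) (.e (nat_lit 426344) (nat_lit 14) (.e (nat_lit 491552) (nat_lit 9) .nil)))))) (.g (nat_lit 1) (.e (nat_lit 377561) (nat_lit 0) .nil) .nil)))))))) 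
(.nd (nat_lit 5) (.nd (nat_lit 6) (.nd (nat_lit 7) (.nd (nat_lit 8) (.nd (nat_lit 9) 
(.lf (nat_lit 579611) (.g (nat_lit 3257) (.e (nat_lit 336326) (nat_lit 18) (.e (nat_lit 204863) (nat_lit 27) (.e (nat_lit 344132) (nat_lit 26) (.e (nat_lit 557100) (nat_lit 13) (.e (nat_lit 179968) (nat_lit 15) (.e (nat_lit 1815) (nat_lit 121) (.e (nat_lit 532529) (nat_lit 9) .nil))))))) (.g (nat_lit 1) (.e (nat_lit 374982) (nat_lit 0) .nil) .nil))) 
(.lf (nat_lit 580123) (.g (nat_lit 2189) (.e (nat_lit 336387) (nat_lit 27) (.e (nat_lit 426316) (nat_lit 12) (.e (nat_lit 475185) (nat_lit 29) (.e (nat_lit 557091) (nat_lit 12) (.e (nat_lit 164030) (nat_lit 53) (.e (nat_lit 761902) (nat_lit 16) (.e (nat_lit 172148) (nat_lit 27) .nil))))))) (.g (nat_lit 1) (.e (nat_lit 376883) (nat_lit 0) .nil) .nil)))) (.nd (nat_lit 9) 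
(.lf (nat_lit 579867) (.g (nat_lit 1231) (.e (nat_lit 336385) (nat_lit 27) (.e (nat_lit 426108) (nat_lit 1) (.e (nat_lit 164331) (nat_lit 230) (.e (nat_lit 163873) (nat_lit 3) .nil)))) (.g (nat_lit 0) (.e (nat_lit 376487) (nat_lit 0) .nil) .nil))) 
(.lf (nat_lit 580379) (.g (nat_lit 1540) (.e (nat_lit 336406) (nat_lit 27) (.e (nat_lit 426098) (nat_lit 1) (.e (nat_lit 164399) (nat_lit 256) (.e (nat_lit 57379) (nat_lit 3) .nil)))) (.g (nat_lit 0) (.e (nat_lit 377307) (nat_lit 0) .nil) .nil))))) (.nd (nat_lit 8) (.nd (nat_lit 9) 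
(.lf (nat_lit 579739) (.g (nat_lit 2544) (.e (nat_lit 336366) (nat_lit 27) (.e (nat_lit 426340) (nat_lit 14) (.e (nat_lit 491571) (nat_lit 13) (.e (nat_lit 393299) (nat_lit 27) (.e (nat_lit 491546) (nat_lit 9) .nil))))) (.g (nat_lit 0) (.e (nat_lit 376276) (nat_lit 0) .nil) .nil))) 
(.lf (nat_lit 580251) (.g (nat_lit 1349) (.e (nat_lit 336390) (nat_lit 27) (.e (nat_lit 426338) (nat_lit 14) (.e (nat_lit 491550) (nat_lit 9) (.e (nat_lit 336421) (nat_lit 28) .nil)))) (.g (nat_lit 0) (.e (nat_lit 377064) (nat_lit 0) .nil) .nil)))) (.nd (nat_lit 9) 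
(.lf (nat_lit 579995) (.g (nat_lit 2748) (.e (nat_lit 336389) (nat_lit 27) (.e (nat_lit 426308) (nat_lit 12) (.e (nat_lit 475177) (nat_lit 24) (.e (nat_lit 516117) (nat_lit 1) (.e (nat_lit 164329) (nat_lit 230) (.e (nat_lit 163902) (nat_lit 12) (.e (nat_lit 426481) (nat_lit 27) .nil))))))) (.g (nat_lit 1) (.e (nat_lit 376631) (nat_lit 0) .nil) .nil))) 
(.lf (nat_lit 580507) (.g (nat_lit 2576) (.e (nat_lit 336407) (nat_lit 27) (.e (nat_lit 426107) (nat_lit 1) (.e (nat_lit 164325) (nat_lit 230) (.e (nat_lit 163873) (nat_lit 3) (.e (nat_lit 204813) (nat_lit 9) (.e (nat_lit 426198) (nat_lit 9) (.e (nat_lit 426489) (nat_lit 27) .nil))))))) (.g (nat_lit 1) (.e (nat_lit 377466) (nat_lit 0) .nil) .nil)))))) 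
(.nd (nat_lit 7) (.nd (nat_lit 8) (.nd (nat_lit 9) 
(.lf (nat_lit 579675) (.g (nat_lit 2141) (.e (nat_lit 336326) (nat_lit 18) (.e (nat_lit 204882) (nat_lit 32) (.e (nat_lit 385068) (nat_lit 26) (.e (nat_lit 532534) (nat_lit 9) (.e (nat_lit 336326) (nat_lit 18) .nil))))) (.g (nat_lit 0) (.e (nat_lit 375083) (nat_lit 0) .nil) .nil))) 
(.lf (nat_lit 580187) (.g (nat_lit 3031) (.e (nat_lit 336388) (nat_lit 27) (.e (nat_lit 426187) (nat_lit 9) (.e (nat_lit 426436) (nat_lit 18) (.e (nat_lit 98335) (nat_lit 18) (.e (nat_lit 164324) (nat_lit 230) (.e (nat_lit 163903) (nat_lit 12) (.e (nat_lit 426481) (nat_lit 27) .nil))))))) (.g (nat_lit 1) (.e (nat_lit 376961) (nat_lit 0) .nil) .nil)))) (.nd (nat_lit 9) 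
(.lf (nat_lit 579931) (.g (nat_lit 2965) (.e (nat_lit 336386) (nat_lit 27) (.e (nat_lit 426187) (nat_lit 9) (.e (nat_lit 426436) (nat_lit 18) (.e (nat_lit 98335) (nat_lit 18) (.e (nat_lit 164330) (nat_lit 230) (.e (nat_lit 163905) (nat_lit 12) (.e (nat_lit 426478) (nat_lit 27) .nil))))))) (.g (nat_lit 1) (.e (nat_lit 376565) (nat_lit 0) .nil) .nil))) 
(.lf (nat_lit 580443) (.g (nat_lit 2161) (.e (nat_lit 336409) (nat_lit 27) (.e (nat_lit 426098) (nat_lit 1) (.e (nat_lit 164399) (nat_lit 256) (.e (nat_lit 57379) (nat_lit 3) (.e (nat_lit 98365) (nat_lit 26) .nil))))) (.g (nat_lit 0) (.e (nat_lit 377398) (nat_lit 0) .nil) .nil))))) (.nd (nat_lit 8) (.nd (nat_lit 9) 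
(.lf (nat_lit 579803) (.g (nat_lit 643) (.e (nat_lit 336372) (nat_lit 27) (.e (nat_lit 426555) (nat_lit 32) (.e (nat_lit 376867) (nat_lit 23) .nil))) (.g (nat_lit 0) (.e (nat_lit 376394) (nat_lit 0) .nil) .nil))) 
(.lf (nat_lit 580315) (.g (nat_lit 1979) (.e (nat_lit 336416) (nat_lit 27) (.e (nat_lit 426188) (nat_lit 9) (.e (nat_lit 426436) (nat_lit 18) (.e (nat_lit 98335) (nat_lit 18) (.e (nat_lit 164324) (nat_lit 230) .nil))))) (.g (nat_lit 0) (.e (nat_lit 377163) (nat_lit 0) .nil) .nil)))) (.nd (nat_lit 9) 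
(.lf (nat_lit 580059) (.g (nat_lit 1801) (.e (nat_lit 336387) (nat_lit 27) (.e (nat_lit 426107) (nat_lit 1) (.e (nat_lit 164326) (nat_lit 230) (.e (nat_lit 163875) (nat_lit 3) (.e (nat_lit 204811) (nat_lit 9) (.e (nat_lit 426261) (nat_lit 9) (.e (nat_lit 426503) (nat_lit 27) .nil))))))) (.g (nat_lit 1) (.e (nat_lit 376730) (nat_lit 0) .nil) .nil))) 
(.lf (nat_lit 580571) (.g (nat_lit 828) (.e (nat_lit 336412) (nat_lit 27) (.e (nat_lit 426100) (nat_lit 1) (.e (nat_lit 164332) (nat_lit 230) .nil))) (.g (nat_lit 0) (.e (nat_lit 377536) (nat_lit 0) .nil) .nil))))))) (.nd (nat_lit 6) (.nd (nat_lit 7) (.nd (nat_lit 8) (.nd (nat_lit 9) 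
(.lf (nat_lit 579643) (.g (nat_lit 2174) (.e (nat_lit 336326) (nat_lit 18) (.e (nat_lit 204879) (nat_lit 32) (.e (nat_lit 385068) (nat_lit 26) (.e (nat_lit 532530) (nat_lit 9) (.e (nat_lit 336324) (nat_lit 18) (.e (nat_lit 204852) (nat_lit 26) .nil)))))) (.g (nat_lit 1) (.e (nat_lit 375041) (nat_lit 0) .nil) .nil))) 
(.lf (nat_lit 580155) (.g (nat_lit 1196) (.e (nat_lit 336388) (nat_lit 27) (.e (nat_lit 426107) (nat_lit 1) (.e (nat_lit 164326) (nat_lit 230) (.e (nat_lit 163868) (nat_lit 2) .nil)))) (.g (nat_lit 0) (.e (nat_lit 376924) (nat_lit 0) .nil) .nil)))) (.nd (nat_lit 9) 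
(.lf (nat_lit 579899) (.g (nat_lit 2200) (.e (nat_lit 336385) (nat_lit 27) (.e (nat_lit 426306) (nat_lit 12) (.e (nat_lit 475179) (nat_lit 24) (.e (nat_lit 516117) (nat_lit 1) (.e (nat_lit 164332) (nat_lit 230) (.e (nat_lit 163905) (nat_lit 12) (.e (nat_lit 426481) (nat_lit 27) .nil))))))) (.g (nat_lit 1) (.e (nat_lit 376532) (nat_lit 0) .nil) .nil))) 
(.lf (nat_lit 580411) (.g (nat_lit 1549) (.e (nat_lit 336408) (nat_lit 27) (.e (nat_lit 426108) (nat_lit 1) (.e (nat_lit 164403) (nat_lit 256) (.e (nat_lit 57373) (nat_lit 2) .nil)))) (.g (nat_lit 0) (.e (nat_lit 377357) (nat_lit 0) .nil) .nil))))) (.nd (nat_lit 8) (.nd (nat_lit 9) 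
(.lf (nat_lit 579771) (.g (nat_lit 2579) (.e (nat_lit 336370) (nat_lit 27) (.e (nat_lit 426317) (nat_lit 12) (.e (nat_lit 475179) (nat_lit 24) (.e (nat_lit 516117) (nat_lit 1) (.e (nat_lit 164332) (nat_lit 230) .nil))))) (.g (nat_lit 0) (.e (nat_lit 376336) (nat_lit 0) .nil) .nil))) 
(.lf (nat_lit 580283) (.g (nat_lit 1330) (.e (nat_lit 336395) (nat_lit 27) (.e (nat_lit 426109) (nat_lit 1) (.e (nat_lit 164327) (nat_lit 230) (.e (nat_lit 163868) (nat_lit 2) .nil)))) (.g (nat_lit 0) (.e (nat_lit 377118) (nat_lit 0) .nil) .nil)))) (.nd (nat_lit 9) 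
(.lf (nat_lit 580027) (.g (nat_lit 1120) (.e (nat_lit 336387) (nat_lit 27) (.e (nat_lit 426100) (nat_lit 1) (.e (nat_lit 164330) (nat_lit 230) .nil))) (.g (nat_lit 0) (.e (nat_lit 376672) (nat_lit 0) .nil) .nil))) 
(.lf (nat_lit 580539) (.g (nat_lit 2302) (.e (nat_lit 336407) (nat_lit 27) (.e (nat_lit 426306) (nat_lit 12) (.e (nat_lit 475177) (nat_lit 24) (.e (nat_lit 516117) (nat_lit 1) (.e (nat_lit 164330) (nat_lit 230) (.e (nat_lit 163905) (nat_lit 12) (.e (nat_lit 426487) (nat_lit 27) .nil))))))) (.g (nat_lit 1) (.e (nat_lit 377500) (nat_lit 0) .nil) .nil)))))) 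
(.nd (nat_lit 7) (.nd (nat_lit 8) (.nd (nat_lit 9) 
(.lf (nat_lit 579707) (.g (nat_lit 2104) (.e (nat_lit 343808) (nat_lit 18) (.e (nat_lit 204863) (nat_lit 27) (.e (nat_lit 344132) (nat_lit 26) (.e (nat_lit 557105) (nat_lit 14) (.e (nat_lit 188160) (nat_lit 3) .nil))))) (.g (nat_lit 0) (.e (nat_lit 375129) (nat_lit 0) .nil) .nil))) 
(.lf (nat_lit 580219) (.g (nat_lit 1880) (.e (nat_lit 336388) (nat_lit 27) (.e (nat_lit 426306) (nat_lit 12) (.e (nat_lit 475179) (nat_lit 24) (.e (nat_lit 516120) (nat_lit 1) (.e (nat_lit 164332) (nat_lit 230) .nil))))) (.g (nat_lit 0) (.e (nat_lit 376995) (nat_lit 0) .nil) .nil)))) (.nd (nat_lit 9) 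
(.lf (nat_lit 579963) (.g (nat_lit 5253) (.e (nat_lit 336389) (nat_lit 27) (.e (nat_lit 426098) (nat_lit 1) (.e (nat_lit 164327) (nat_lit 230) (.e (nat_lit 163868) (nat_lit 2) (.e (nat_lit 196654) (nat_lit 11) (.e (nat_lit 16438) (nat_lit 9) (.e (nat_lit 426482) (nat_lit 27) .nil))))))) (.g (nat_lit 1) (.e (nat_lit 376599) (nat_lit 0) .nil) .nil))) 
(.lf (nat_lit 580475) (.g (nat_lit 2166) (.e (nat_lit 336409) (nat_lit 27) (.e (nat_lit 426306) (nat_lit 12) (.e (nat_lit 475179) (nat_lit 24) (.e (nat_lit 516117) (nat_lit 1) (.e (nat_lit 164332) (nat_lit 230) (.e (nat_lit 163905) (nat_lit 12) (.e (nat_lit 426487) (nat_lit 27) .nil))))))) (.g (nat_lit 1) (.e (nat_lit 377432) (nat_lit 0) .nil) .nil))))) (.nd (nat_lit 8) (.nd (nat_lit 9) 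
(.lf (nat_lit 579835) (.g (nat_lit 2372) (.e (nat_lit 336385) (nat_lit 27) (.e (nat_lit 426098) (nat_lit 1) (.e (nat_lit 164327) (nat_lit 230) (.e (nat_lit 163868) (nat_lit 2) (.e (nat_lit 196656) (nat_lit 11) .nil))))) (.g (nat_lit 0) (.e (nat_lit 376442) (nat_lit 0) .nil) .nil))) 
(.lf (nat_lit 580347) (.g (nat_lit 1501) (.e (nat_lit 336405) (nat_lit 27) (.e (nat_lit 426107) (nat_lit 1) (.e (nat_lit 164326) (nat_lit 230) (.e (nat_lit 163873) (nat_lit 3) .nil)))) (.g (nat_lit 0) (.e (nat_lit 377254) (nat_lit 0) .nil) .nil)))) (.nd (nat_lit 9) 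
(.lf (nat_lit 580091) (.g (nat_lit 4102) (.e (nat_lit 336387) (nat_lit 27) (.e (nat_lit 426188) (nat_lit 9) (.e (nat_lit 426436) (nat_lit 18) (.e (nat_lit 98335) (nat_lit 18) (.e (nat_lit 164307) (nat_lit 226) (.e (nat_lit 2622) (nat_lit 164) (.e (nat_lit 172150) (nat_lit 27) .nil))))))) (.g (nat_lit 1) (.e (nat_lit 376805) (nat_lit 0) .nil) .nil))) 
(.lf (nat_lit 580603) (.g (nat_lit 756) (.e (nat_lit 336413) (nat_lit 27) (.e (nat_lit 426306) (nat_lit 12) (.e (nat_lit 475214) (nat_lit 42) .nil))) (.g (nat_lit 0) (.e (nat_lit 377582) (nat_lit 0) .nil) .nil)))))))))) (.nd (nat_lit 3) (.nd (nat_lit 4) (.nd (nat_lit 5) (.nd (nat_lit 6) (.nd (nat_lit 7) (.nd (nat_lit 8) (.nd (nat_lit 9) 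
(.lf (nat_lit 579591) (.g (nat_lit 2427) (.e (nat_lit 336326) (nat_lit 18) (.e (nat_lit 204863) (nat_lit 27) (.e (nat_lit 344129) (nat_lit 26) (.e (nat_lit 557097) (nat_lit 13) (.e (nat_lit 172134) (nat_lit 15) .nil))))) (.g (nat_lit 0) (.e (nat_lit 374959) (nat_lit 0) .nil) .nil))) 
(.lf (nat_lit 580103) (.g (nat_lit 1229) (.e (nat_lit 336387) (nat_lit 27) (.e (nat_lit 426200) (nat_lit 9) (.e (nat_lit 426131) (nat_lit 3) (.e (nat_lit 204831) (nat_lit 18) .nil)))) (.g (nat_lit 0) (.e (nat_lit 376829) (nat_lit 0) .nil) .nil)))) (.nd (nat_lit 9) 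
(.lf (nat_lit 579847) (.g (nat_lit 1379) (.e (nat_lit 336385) (nat_lit 27) (.e (nat_lit 426107) (nat_lit 1) (.e (nat_lit 164325) (nat_lit 230) (.e (nat_lit 163874) (nat_lit 3) .nil)))) (.g (nat_lit 0) (.e (nat_lit 376458) (nat_lit 0) .nil) .nil))) 
(.lf (nat_lit 580359) (.g (nat_lit 1334) (.e (nat_lit 336405) (nat_lit 27) (.e (nat_lit 426200) (nat_lit 9) (.e (nat_lit 426131) (nat_lit 3) (.e (nat_lit 204831) (nat_lit 18) .nil)))) (.g (nat_lit 0) (.e (nat_lit 377283) (nat_lit 0) .nil) .nil))))) (.nd (nat_lit 8) (.nd (nat_lit 9) 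
(.lf (nat_lit 579719) (.g (nat_lit 3475) (.e (nat_lit 336336) (nat_lit 20) (.e (nat_lit 221210) (nat_lit 22) (.e (nat_lit 196654) (nat_lit 11) (.e (nat_lit 16436) (nat_lit 9) (.e (nat_lit 426131) (nat_lit 3) (.e (nat_lit 204854) (nat_lit 26) .nil)))))) (.g (nat_lit 1) (.e (nat_lit 375954) (nat_lit 0) .nil) .nil))) 
(.lf (nat_lit 580231) (.g (nat_lit 2136) (.e (nat_lit 336392) (nat_lit 27) (.e (nat_lit 426343) (nat_lit 14) (.e (nat_lit 491560) (nat_lit 10) (.e (nat_lit 344179) (nat_lit 44) .nil)))) (.g (nat_lit 0) (.e (nat_lit 377012) (nat_lit 0) .nil) .nil)))) (.nd (nat_lit 9) 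
(.lf (nat_lit 579975) (.g (nat_lit 846) (.e (nat_lit 336389) (nat_lit 27) (.e (nat_lit 426100) (nat_lit 1) (.e (nat_lit 164398) (nat_lit 256) .nil))) (.g (nat_lit 0) (.e (nat_lit 376611) (nat_lit 0) .nil) .nil))) 
(.lf (nat_lit 580487) (.g (nat_lit 2129) (.e (nat_lit 336407) (nat_lit 27) (.e (nat_lit 426098) (nat_lit 1) (.e (nat_lit 164325) (nat_lit 230) (.e (nat_lit 163873) (nat_lit 3) .nil)))) (.g (nat_lit 0) (.e (nat_lit 377445) (nat_lit 0) .nil) .nil)))))) (.nd (nat_lit 7) (.nd (nat_lit 8) (.nd (nat_lit 9) 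
(.lf (nat_lit 579655) (.g (nat_lit 2600) (.e (nat_lit 336326) (nat_lit 18) (.e (nat_lit 204880) (nat_lit 32) (.e (nat_lit 385068) (nat_lit 26) (.e (nat_lit 532528) (nat_lit 9) (.e (nat_lit 336324) (nat_lit 18) .nil))))) (.g (nat_lit 0) (.e (nat_lit 375054) (nat_lit 0) .nil) .nil))) 
(.lf (nat_lit 580167) (.g (nat_lit 2637) (.e (nat_lit 336388) (nat_lit 27) (.e (nat_lit 426107) (nat_lit 1) (.e (nat_lit 164327) (nat_lit 230) (.e (nat_lit 163871) (nat_lit 2) (.e (nat_lit 196656) (nat_lit 11) .nil))))) (.g (nat_lit 0) (.e (nat_lit 376936) (nat_lit 0) .nil) .nil)))) (.nd (nat_lit 9) 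
(.lf (nat_lit 579911) (.g (nat_lit 2101) (.e (nat_lit 336385) (nat_lit 27) (.e (nat_lit 426343) (nat_lit 14) (.e (nat_lit 491560) (nat_lit 10) (.e (nat_lit 344179) (nat_lit 44) .nil)))) (.g (nat_lit 0) (.e (nat_lit 376544) (nat_lit 0) .nil) .nil))) 
(.lf (nat_lit 580423) (.g (nat_lit 1729) (.e (nat_lit 336408) (nat_lit 27) (.e (nat_lit 426200) (nat_lit 9) (.e (nat_lit 426131) (nat_lit 3) (.e (nat_lit 204831) (nat_lit 18) (.e (nat_lit 57692) (nat_lit 156) .nil))))) (.g (nat_lit 0) (.e (nat_lit 377376) (nat_lit 0) .nil) .nil))))) (.nd (nat_lit 8) (.nd (nat_lit 9) 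
(.lf (nat_lit 579783) (.g (nat_lit 2916) (.e (nat_lit 336370) (nat_lit 27) (.e (nat_lit 426499) (nat_lit 27) (.e (nat_lit 335986) (nat_lit 1) (.e (nat_lit 57847) (nat_lit 252) (.e (nat_lit 57373) (nat_lit 2) (.e (nat_lit 90158) (nat_lit 11) (.e (nat_lit 24628) (nat_lit 9) .nil))))))) (.g (nat_lit 1) (.e (nat_lit 376349) (nat_lit 0) .nil) .nil))) 
(.lf (nat_lit 580295) (.g (nat_lit 2223) (.e (nat_lit 336395) (nat_lit 27) (.e (nat_lit 426339) (nat_lit 14) (.e (nat_lit 491571) (nat_lit 13) (.e (nat_lit 393299) (nat_lit 27) (.e (nat_lit 491548) (nat_lit 9) .nil))))) (.g (nat_lit 0) (.e (nat_lit 377134) (nat_lit 0) .nil) .nil)))) (.nd (nat_lit 9) 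
(.lf (nat_lit 580039) (.g (nat_lit 1645) (.e (nat_lit 336387) (nat_lit 27) (.e (nat_lit 426107) (nat_lit 1) (.e (nat_lit 164325) (nat_lit 230) (.e (nat_lit 163866) (nat_lit 2) .nil)))) (.g (nat_lit 0) (.e (nat_lit 376699) (nat_lit 0) .nil) .nil))) 
(.lf (nat_lit 580551) (.g (nat_lit 2668) (.e (nat_lit 336407) (nat_lit 27) (.e (nat_lit 426343) (nat_lit 14) (.e (nat_lit 491560) (nat_lit 10) (.e (nat_lit 344091) (nat_lit 18) (.e (nat_lit 7265) (nat_lit 384) (.e (nat_lit 57406) (nat_lit 12) (.e (nat_lit 336120) (nat_lit 9) .nil))))))) (.g (nat_lit 1) (.e (nat_lit 377512) (nat_lit 0) .nil) .nil))))))) 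
(.nd (nat_lit 6) (.nd (nat_lit 7) (.nd (nat_lit 8) (.nd (nat_lit 9) 
(.lf (nat_lit 579623) (.g (nat_lit 2782) (.e (nat_lit 336326) (nat_lit 18) (.e (nat_lit 204863) (nat_lit 27) (.e (nat_lit 344133) (nat_lit 26) (.e (nat_lit 557098) (nat_lit 13) (.e (nat_lit 172137) (nat_lit 15) .nil))))) (.g (nat_lit 0) (.e (nat_lit 374997) (nat_lit 0) .nil) .nil))) 
(.lf (nat_lit 580135) (.g (nat_lit 1875) (.e (nat_lit 336388) (nat_lit 27) (.e (nat_lit 426098) (nat_lit 1) (.e (nat_lit 164325) (nat_lit 230) (.e (nat_lit 163866) (nat_lit 2) .nil)))) (.g (nat_lit 0) (.e (nat_lit 376903) (nat_lit 0) .nil) .nil)))) (.nd (nat_lit 9) 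
(.lf (nat_lit 579879) (.g (nat_lit 2673) (.e (nat_lit 336385) (nat_lit 27) (.e (nat_lit 426188) (nat_lit 9) (.e (nat_lit 426436) (nat_lit 18) (.e (nat_lit 98334) (nat_lit 18) (.e (nat_lit 164330) (nat_lit 230) (.e (nat_lit 163905) (nat_lit 12) (.e (nat_lit 426481) (nat_lit 27) .nil))))))) (.g (nat_lit 1) (.e (nat_lit 376503) (nat_lit 0) .nil) .nil))) 
(.lf (nat_lit 580391) (.g (nat_lit 2602) (.e (nat_lit 336406) (nat_lit 27) (.e (nat_lit 426188) (nat_lit 9) (.e (nat_lit 426436) (nat_lit 18) (.e (nat_lit 98335) (nat_lit 18) (.e (nat_lit 164330) (nat_lit 230) (.e (nat_lit 163905) (nat_lit 12) (.e (nat_lit 426491) (nat_lit 27) .nil))))))) (.g (nat_lit 1) (.e (nat_lit 377320) (nat_lit 0) .nil) .nil))))) (.nd (nat_lit 8) (.nd (nat_lit 9) 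
(.lf (nat_lit 579751) (.g (nat_lit 2810) (.e (nat_lit 336367) (nat_lit 27) (.e (nat_lit 426320) (nat_lit 12) (.e (nat_lit 475199) (nat_lit 40) (.e (nat_lit 704595) (nat_lit 5) (.e (nat_lit 180278) (nat_lit 32) (.e (nat_lit 1428) (nat_lit 108) .nil)))))) (.g (nat_lit 1) (.e (nat_lit 376301) (nat_lit 0) .nil) .nil))) 
(.lf (nat_lit 580263) (.g (nat_lit 1228) (.e (nat_lit 336398) (nat_lit 27) (.e (nat_lit 426290) (nat_lit 10) (.e (nat_lit 434209) (nat_lit 18) (.e (nat_lit 5547) (nat_lit 306) .nil)))) (.g (nat_lit 0) (.e (nat_lit 377085) (nat_lit 0) .nil) .nil)))) (.nd (nat_lit 9) 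
(.lf (nat_lit 580007) (.g (nat_lit 2866) (.e (nat_lit 336389) (nat_lit 27) (.e (nat_lit 426308) (nat_lit 12) (.e (nat_lit 475179) (nat_lit 24) (.e (nat_lit 516117) (nat_lit 1) (.e (nat_lit 164332) (nat_lit 230) (.e (nat_lit 163902) (nat_lit 12) (.e (nat_lit 426481) (nat_lit 27) .nil))))))) (.g (nat_lit 1) (.e (nat_lit 376643) (nat_lit 0) .nil) .nil))) 
(.lf (nat_lit 580519) (.g (nat_lit 2547) (.e (nat_lit 336407) (nat_lit 27) (.e (nat_lit 426107) (nat_lit 1) (.e (nat_lit 164327) (nat_lit 230) (.e (nat_lit 163873) (nat_lit 3) (.e (nat_lit 204813) (nat_lit 9) (.e (nat_lit 426200) (nat_lit 9) (.e (nat_lit 426489) (nat_lit 27) .nil))))))) (.g (nat_lit 1) (.e (nat_lit 377478) (nat_lit 0) .nil) .nil)))))) 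
(.nd (nat_lit 7) (.nd (nat_lit 8) (.nd (nat_lit 9) 
(.lf (nat_lit 579687) (.g (nat_lit 1323) (.e (nat_lit 343808) (nat_lit 18) (.e (nat_lit 204831) (nat_lit 18) (.e (nat_lit 57847) (nat_lit 252) (.e (nat_lit 57446) (nat_lit 19) (.e (nat_lit 393227) (nat_lit 9) .nil))))) (.g (nat_lit 0) (.e (nat_lit 375095) (nat_lit 0) .nil) .nil))) 
(.lf (nat_lit 580199) (.g (nat_lit 2195) (.e (nat_lit 336388) (nat_lit 27) (.e (nat_lit 426188) (nat_lit 9) (.e (nat_lit 426436) (nat_lit 18) (.e (nat_lit 98335) (nat_lit 18) (.e (nat_lit 164327) (nat_lit 230) (.e (nat_lit 163903) (nat_lit 12) (.e (nat_lit 426480) (nat_lit 27) .nil))))))) (.g (nat_lit 1) (.e (nat_lit 376974) (nat_lit 0) .nil) .nil)))) (.nd (nat_lit 9) 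
(.lf (nat_lit 579943) (.g (nat_lit 2119) (.e (nat_lit 336386) (nat_lit 27) (.e (nat_lit 426306) (nat_lit 12) (.e (nat_lit 475179) (nat_lit 24) (.e (nat_lit 516117) (nat_lit 1) (.e (nat_lit 164332) (nat_lit 230) .nil))))) (.g (nat_lit 0) (.e (nat_lit 376578) (nat_lit 0) .nil) .nil))) 
(.lf (nat_lit 580455) (.g (nat_lit 2090) (.e (nat_lit 336409) (nat_lit 27) (.e (nat_lit 426108) (nat_lit 1) (.e (nat_lit 164330) (nat_lit 230) (.e (nat_lit 163874) (nat_lit 3) .nil)))) (.g (nat_lit 0) (.e (nat_lit 377412) (nat_lit 0) .nil) .nil))))) (.nd (nat_lit 8) (.nd (nat_lit 9) 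
(.lf (nat_lit 579815) (.g (nat_lit 1607) (.e (nat_lit 336380) (nat_lit 27) (.e (nat_lit 426306) (nat_lit 12) (.e (nat_lit 475177) (nat_lit 24) (.e (nat_lit 516120) (nat_lit 1) .nil)))) (.g (nat_lit 0) (.e (nat_lit 376413) (nat_lit 0) .nil) .nil))) 
(.lf (nat_lit 580327) (.g (nat_lit 2352) (.e (nat_lit 336419) (nat_lit 27) (.e (nat_lit 426098) (nat_lit 1) (.e (nat_lit 164327) (nat_lit 230) (.e (nat_lit 163868) (nat_lit 2) (.e (nat_lit 196654) (nat_lit 11) (.e (nat_lit 16436) (nat_lit 9) (.e (nat_lit 426486) (nat_lit 27) .nil))))))) (.g (nat_lit 1) (.e (nat_lit 377204) (nat_lit 0) .nil) .nil)))) (.nd (nat_lit 9) 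
(.lf (nat_lit 580071) (.g (nat_lit 1960) (.e (nat_lit 336387) (nat_lit 27) (.e (nat_lit 426107) (nat_lit 1) (.e (nat_lit 164327) (nat_lit 230) (.e (nat_lit 163875) (nat_lit 3) (.e (nat_lit 204813) (nat_lit 9) .nil))))) (.g (nat_lit 0) (.e (nat_lit 376756) (nat_lit 0) .nil) .nil))) 
(.lf (nat_lit 580583) (.g (nat_lit 2500) (.e (nat_lit 336412) (nat_lit 27) (.e (nat_lit 426308) (nat_lit 12) (.e (nat_lit 475177) (nat_lit 24) (.e (nat_lit 516120) (nat_lit 1) (.e (nat_lit 164330) (nat_lit 230) (.e (nat_lit 163905) (nat_lit 12) (.e (nat_lit 426509) (nat_lit 27) .nil))))))) (.g (nat_lit 1) (.e (nat_lit 377552) (nat_lit 0) .nil) .nil)))))))) 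
(.nd (nat_lit 5) (.nd (nat_lit 6) (.nd (nat_lit 7) (.nd (nat_lit 8) (.nd (nat_lit 9) 
(.lf (nat_lit 579607) (.g (nat_lit 2898) (.e (nat_lit 336326) (nat_lit 18) (.e (nat_lit 204863) (nat_lit 27) (.e (nat_lit 344131) (nat_lit 26) (.e (nat_lit 557100) (nat_lit 13) (.e (nat_lit 179968) (nat_lit 15) .nil))))) (.g (nat_lit 0) (.e (nat_lit 374976) (nat_lit 0) .nil) .nil))) 
(.lf (nat_lit 580119) (.g (nat_lit 4119) (.e (nat_lit 336387) (nat_lit 27) (.e (nat_lit 426316) (nat_lit 12) (.e (nat_lit 475185) (nat_lit 29) (.e (nat_lit 557070) (nat_lit 9) .nil)))) (.g (nat_lit 0) (.e (nat_lit 376878) (nat_lit 0) .nil) .nil)))) (.nd (nat_lit 9) 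
(.lf (nat_lit 579863) (.g (nat_lit 688) (.e (nat_lit 336385) (nat_lit 27) (.e (nat_lit 426108) (nat_lit 1) (.e (nat_lit 164330) (nat_lit 230) .nil))) (.g (nat_lit 0) (.e (nat_lit 376482) (nat_lit 0) .nil) .nil))) 
(.lf (nat_lit 580375) (.g (nat_lit 2372) (.e (nat_lit 336406) (nat_lit 27) (.e (nat_lit 426098) (nat_lit 1) (.e (nat_lit 164327) (nat_lit 230) (.e (nat_lit 163868) (nat_lit 2) (.e (nat_lit 196656) (nat_lit 11) .nil))))) (.g (nat_lit 0) (.e (nat_lit 377303) (nat_lit 0) .nil) .nil))))) (.nd (nat_lit 8) (.nd (nat_lit 9) 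
(.lf (nat_lit 579735) (.g (nat_lit 2052) (.e (nat_lit 336360) (nat_lit 25) (.e (nat_lit 409649) (nat_lit 18) (.e (nat_lit 303140) (nat_lit 10) (.e (nat_lit 434210) (nat_lit 18) .nil)))) (.g (nat_lit 0) (.e (nat_lit 376263) (nat_lit 0) .nil) .nil))) 
(.lf (nat_lit 580247) (.g (nat_lit 4607) (.e (nat_lit 336390) (nat_lit 27) (.e (nat_lit 426190) (nat_lit 9) (.e (nat_lit 426436) (nat_lit 18) (.e (nat_lit 98335) (nat_lit 18) (.e (nat_lit 164332) (nat_lit 230) (.e (nat_lit 163905) (nat_lit 12) (.e (nat_lit 426530) (nat_lit 27) .nil))))))) (.g (nat_lit 1) (.e (nat_lit 377036) (nat_lit 0) .nil) .nil)))) (.nd (nat_lit 9) 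
(.lf (nat_lit 579991) (.g (nat_lit 2551) (.e (nat_lit 336389) (nat_lit 27) (.e (nat_lit 426190) (nat_lit 9) (.e (nat_lit 426436) (nat_lit 18) (.e (nat_lit 98335) (nat_lit 18) (.e (nat_lit 164332) (nat_lit 230) (.e (nat_lit 163902) (nat_lit 12) (.e (nat_lit 426481) (nat_lit 27) .nil))))))) (.g (nat_lit 1) (.e (nat_lit 376627) (nat_lit 0) .nil) .nil))) 
(.lf (nat_lit 580503) (.g (nat_lit 2150) (.e (nat_lit 336407) (nat_lit 27) (.e (nat_lit 426107) (nat_lit 1) (.e (nat_lit 164325) (nat_lit 230) (.e (nat_lit 163866) (nat_lit 2) .nil)))) (.g (nat_lit 0) (.e (nat_lit 377462) (nat_lit 0) .nil) .nil)))))) (.nd (nat_lit 7) (.nd (nat_lit 8) (.nd (nat_lit 9) 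
(.lf (nat_lit 579671) (.g (nat_lit 2359) (.e (nat_lit 336326) (nat_lit 18) (.e (nat_lit 204882) (nat_lit 32) (.e (nat_lit 385068) (nat_lit 26) (.e (nat_lit 532529) (nat_lit 9) (.e (nat_lit 336324) (nat_lit 18) .nil))))) (.g (nat_lit 0) (.e (nat_lit 375079) (nat_lit 0) .nil) .nil))) 
(.lf (nat_lit 580183) (.g (nat_lit 2304) (.e (nat_lit 336388) (nat_lit 27) (.e (nat_lit 426108) (nat_lit 1) (.e (nat_lit 164332) (nat_lit 230) (.e (nat_lit 163869) (nat_lit 2) (.e (nat_lit 196656) (nat_lit 11) .nil))))) (.g (nat_lit 0) (.e (nat_lit 376957) (nat_lit 0) .nil) .nil)))) (.nd (nat_lit 9) 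
(.lf (nat_lit 579927) (.g (nat_lit 2090) (.e (nat_lit 336386) (nat_lit 27) (.e (nat_lit 426108) (nat_lit 1) (.e (nat_lit 164330) (nat_lit 230) (.e (nat_lit 163874) (nat_lit 3) .nil)))) (.g (nat_lit 0) (.e (nat_lit 376561) (nat_lit 0) .nil) .nil))) 
(.lf (nat_lit 580439) (.g (nat_lit 2398) (.e (nat_lit 336409) (nat_lit 27) (.e (nat_lit 426098) (nat_lit 1) (.e (nat_lit 164327) (nat_lit 230) (.e (nat_lit 163868) (nat_lit 2) (.e (nat_lit 196656) (nat_lit 11) .nil))))) (.g (nat_lit 0) (.e (nat_lit 377394) (nat_lit 0) .nil) .nil))))) (.nd (nat_lit 8) (.nd (nat_lit 9) 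
(.lf (nat_lit 579799) (.g (nat_lit 4060) (.e (nat_lit 336369) (nat_lit 27) (.e (nat_lit 426317) (nat_lit 12) (.e (nat_lit 475199) (nat_lit 40) (.e (nat_lit 704592) (nat_lit 4) (.e (nat_lit 172126) (nat_lit 14) (.e (nat_lit 491550) (nat_lit 9) .nil)))))) (.g (nat_lit 1) (.e (nat_lit 376380) (nat_lit 0) .nil) .nil))) 
(.lf (nat_lit 580311) (.g (nat_lit 2095) (.e (nat_lit 336416) (nat_lit 27) (.e (nat_lit 426098) (nat_lit 1) (.e (nat_lit 164327) (nat_lit 230) (.e (nat_lit 163871) (nat_lit 2) (.e (nat_lit 196654) (nat_lit 11) (.e (nat_lit 16436) (nat_lit 9) (.e (nat_lit 426486) (nat_lit 27) .nil))))))) (.g (nat_lit 1) (.e (nat_lit 377152) (nat_lit 0) .nil) .nil)))) (.nd (nat_lit 9) 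
(.lf (nat_lit 580055) (.g (nat_lit 1317) (.e (nat_lit 336387) (nat_lit 27) (.e (nat_lit 426107) (nat_lit 1) (.e (nat_lit 164326) (nat_lit 230) (.e (nat_lit 163871) (nat_lit 2) (.e (nat_lit 196656) (nat_lit 11) .nil))))) (.g (nat_lit 0) (.e (nat_lit 376723) (nat_lit 0) .nil) .nil))) 
(.lf (nat_lit 580567) (.g (nat_lit 2425) (.e (nat_lit 336412) (nat_lit 27) (.e (nat_lit 426098) (nat_lit 1) (.e (nat_lit 164327) (nat_lit 230) (.e (nat_lit 163871) (nat_lit 2) (.e (nat_lit 196654) (nat_lit 11) (.e (nat_lit 16438) (nat_lit 9) (.e (nat_lit 426509) (nat_lit 27) .nil))))))) (.g (nat_lit 1) (.e (nat_lit 377532) (nat_lit 0) .nil) .nil))))))) 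
(.nd (nat_lit 6) (.nd (nat_lit 7) (.nd (nat_lit 8) (.nd (nat_lit 9) 
(.lf (nat_lit 579639) (.g (nat_lit 873) (.e (nat_lit 336326) (nat_lit 18) (.e (nat_lit 204869) (nat_lit 29) (.e (nat_lit 360491) (nat_lit 22) .nil))) (.g (nat_lit 0) (.e (nat_lit 375030) (nat_lit 0) .nil) .nil))) 
(.lf (nat_lit 580151) (.g (nat_lit 1605) (.e (nat_lit 336388) (nat_lit 27) (.e (nat_lit 426107) (nat_lit 1) (.e (nat_lit 164325) (nat_lit 230) (.e (nat_lit 163868) (nat_lit 2) (.e (nat_lit 196656) (nat_lit 11) .nil))))) (.g (nat_lit 0) (.e (nat_lit 376920) (nat_lit 0) .nil) .nil)))) (.nd (nat_lit 9) 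
(.lf (nat_lit 579895) (.g (nat_lit 1950) (.e (nat_lit 336385) (nat_lit 27) (.e (nat_lit 426306) (nat_lit 12) (.e (nat_lit 475177) (nat_lit 24) (.e (nat_lit 516119) (nat_lit 1) (.e (nat_lit 164327) (nat_lit 230) .nil))))) (.g (nat_lit 0) (.e (nat_lit 376527) (nat_lit 0) .nil) .nil))) 
(.lf (nat_lit 580407) (.g (nat_lit 1565) (.e (nat_lit 336408) (nat_lit 27) (.e (nat_lit 426100) (nat_lit 1) (.e (nat_lit 164398) (nat_lit 256) (.e (nat_lit 57379) (nat_lit 3) .nil)))) (.g (nat_lit 0) (.e (nat_lit 377347) (nat_lit 0) .nil) .nil))))) (.nd (nat_lit 8) (.nd (nat_lit 9) 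
(.lf (nat_lit 579767) (.g (nat_lit 3012) (.e (nat_lit 336368) (nat_lit 27) (.e (nat_lit 426499) (nat_lit 27) (.e (nat_lit 335986) (nat_lit 1) (.e (nat_lit 57847) (nat_lit 252) (.e (nat_lit 57372) (nat_lit 2) (.e (nat_lit 90160) (nat_lit 11) (.e (nat_lit 24624) (nat_lit 9) .nil))))))) (.g (nat_lit 1) (.e (nat_lit 376324) (nat_lit 0) .nil) .nil))) 
(.lf (nat_lit 580279) (.g (nat_lit 3932) (.e (nat_lit 336394) (nat_lit 27) (.e (nat_lit 426201) (nat_lit 9) (.e (nat_lit 426436) (nat_lit 18) (.e (nat_lit 98335) (nat_lit 18) (.e (nat_lit 164332) (nat_lit 230) .nil))))) (.g (nat_lit 0) (.e (nat_lit 377107) (nat_lit 0) .nil) .nil)))) (.nd (nat_lit 9) 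
(.lf (nat_lit 580023) (.g (nat_lit 1101) (.e (nat_lit 336387) (nat_lit 27) (.e (nat_lit 426098) (nat_lit 1) (.e (nat_lit 164325) (nat_lit 230) (.e (nat_lit 163873) (nat_lit 3) (.e (nat_lit 204811) (nat_lit 9) .nil))))) (.g (nat_lit 0) (.e (nat_lit 376662) (nat_lit 0) .nil) .nil))) 
(.lf (nat_lit 580535) (.g (nat_lit 1942) (.e (nat_lit 336407) (nat_lit 27) (.e (nat_lit 426199) (nat_lit 9) (.e (nat_lit 426131) (nat_lit 3) (.e (nat_lit 204830) (nat_lit 18) (.e (nat_lit 57663) (nat_lit 152) (.e (nat_lit 2723) (nat_lit 172) (.e (nat_lit 237634) (nat_lit 27) .nil))))))) (.g (nat_lit 1) (.e (nat_lit 377494) (nat_lit 0) .nil) .nil)))))) 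
(.nd (nat_lit 7) (.nd (nat_lit 8) (.nd (nat_lit 9) 
(.lf (nat_lit 579703) (.g (nat_lit 2031) (.e (nat_lit 343808) (nat_lit 18) (.e (nat_lit 204863) (nat_lit 27) (.e (nat_lit 344130) (nat_lit 26) (.e (nat_lit 557103) (nat_lit 14) (.e (nat_lit 188160) (nat_lit 3) .nil))))) (.g (nat_lit 0) (.e (nat_lit 375125) (nat_lit 0) .nil) .nil))) 
(.lf (nat_lit 580215) (.g (nat_lit 2264) (.e (nat_lit 336388) (nat_lit 27) (.e (nat_lit 426306) (nat_lit 12) (.e (nat_lit 475179) (nat_lit 24) (.e (nat_lit 516115) (nat_lit 1) (.e (nat_lit 164325) (nat_lit 230) (.e (nat_lit 163907) (nat_lit 12) (.e (nat_lit 426478) (nat_lit 27) .nil))))))) (.g (nat_lit 1) (.e (nat_lit 376991) (nat_lit 0) .nil) .nil)))) (.nd (nat_lit 9) 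
(.lf (nat_lit 579959) (.g (nat_lit 4881) (.e (nat_lit 336389) (nat_lit 27) (.e (nat_lit 426098) (nat_lit 1) (.e (nat_lit 164325) (nat_lit 230) (.e (nat_lit 163873) (nat_lit 3) (.e (nat_lit 204813) (nat_lit 9) (.e (nat_lit 426199) (nat_lit 9) (.e (nat_lit 426481) (nat_lit 27) .nil))))))) (.g (nat_lit 1) (.e (nat_lit 376595) (nat_lit 0) .nil) .nil))) 
(.lf (nat_lit 580471) (.g (nat_lit 1523) (.e (nat_lit 336409) (nat_lit 27) (.e (nat_lit 426306) (nat_lit 12) (.e (nat_lit 475177) (nat_lit 24) (.e (nat_lit 516119) (nat_lit 1) .nil)))) (.g (nat_lit 0) (.e (nat_lit 377428) (nat_lit 0) .nil) .nil))))) (.nd (nat_lit 8) (.nd (nat_lit 9) 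
(.lf (nat_lit 579831) (.g (nat_lit 1874) (.e (nat_lit 336385) (nat_lit 27) (.e (nat_lit 426098) (nat_lit 1) (.e (nat_lit 164325) (nat_lit 230) (.e (nat_lit 163868) (nat_lit 2) (.e (nat_lit 196656) (nat_lit 11) .nil))))) (.g (nat_lit 0) (.e (nat_lit 376435) (nat_lit 0) .nil) .nil))) 
(.lf (nat_lit 580343) (.g (nat_lit 1510) (.e (nat_lit 336405) (nat_lit 27) (.e (nat_lit 426100) (nat_lit 1) (.e (nat_lit 164398) (nat_lit 256) (.e (nat_lit 57371) (nat_lit 2) .nil)))) (.g (nat_lit 0) (.e (nat_lit 377246) (nat_lit 0) .nil) .nil)))) (.nd (nat_lit 9) 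
(.lf (nat_lit 580087) (.g (nat_lit 3633) (.e (nat_lit 336387) (nat_lit 27) (.e (nat_lit 426187) (nat_lit 9) (.e (nat_lit 426436) (nat_lit 18) (.e (nat_lit 98335) (nat_lit 18) (.e (nat_lit 164305) (nat_lit 226) (.e (nat_lit 2622) (nat_lit 164) (.e (nat_lit 172150) (nat_lit 27) .nil))))))) (.g (nat_lit 1) (.e (nat_lit 376800) (nat_lit 0) .nil) .nil))) 
(.lf (nat_lit 580599) (.g (nat_lit 1866) (.e (nat_lit 336412) (nat_lit 27) (.e (nat_lit 426344) (nat_lit 14) (.e (nat_lit 491558) (nat_lit 10) (.e (nat_lit 344174) (nat_lit 42) (.e (nat_lit 761866) (nat_lit 5) .nil))))) (.g (nat_lit 0) (.e (nat_lit 377575) (nat_lit 0) .nil) .nil))))))))) (.nd (nat_lit 4) (.nd (nat_lit 5) (.nd (nat_lit 6) (.nd (nat_lit 7) (.nd (nat_lit 8) (.nd (nat_lit 9) 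
(.lf (nat_lit 579599) (.g (nat_lit 2421) (.e (nat_lit 336326) (nat_lit 18) (.e (nat_lit 204863) (nat_lit 27) (.e (nat_lit 344130) (nat_lit 26) (.e (nat_lit 557103) (nat_lit 14) (.e (nat_lit 188160) (nat_lit 3) (.e (nat_lit 524032) (nat_lit 26) .nil)))))) (.g (nat_lit 1) (.e (nat_lit 374967) (nat_lit 0) .nil) .nil))) 
(.lf (nat_lit 580111) (.g (nat_lit 534) (.e (nat_lit 336387) (nat_lit 27) (.e (nat_lit 426316) (nat_lit 12) (.e (nat_lit 475177) (nat_lit 24) .nil))) (.g (nat_lit 0) (.e (nat_lit 376859) (nat_lit 0) .nil) .nil)))) (.nd (nat_lit 9) 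
(.lf (nat_lit 579855) (.g (nat_lit 2454) (.e (nat_lit 336385) (nat_lit 27) (.e (nat_lit 426107) (nat_lit 1) (.e (nat_lit 164327) (nat_lit 230) (.e (nat_lit 163871) (nat_lit 2) (.e (nat_lit 196654) (nat_lit 11) .nil))))) (.g (nat_lit 0) (.e (nat_lit 376470) (nat_lit 0) .nil) .nil))) 
(.lf (nat_lit 580367) (.g (nat_lit 1592) (.e (nat_lit 336405) (nat_lit 27) (.e (nat_lit 426344) (nat_lit 14) (.e (nat_lit 491560) (nat_lit 10) (.e (nat_lit 344179) (nat_lit 44) .nil)))) (.g (nat_lit 0) (.e (nat_lit 377295) (nat_lit 0) .nil) .nil))))) (.nd (nat_lit 8) (.nd (nat_lit 9) 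
(.lf (nat_lit 579727) (.g (nat_lit 789) (.e (nat_lit 336360) (nat_lit 25) (.e (nat_lit 409646) (nat_lit 18) (.e (nat_lit 303140) (nat_lit 10) .nil))) (.g (nat_lit 0) (.e (nat_lit 376221) (nat_lit 0) .nil) .nil))) 
(.lf (nat_lit 580239) (.g (nat_lit 4172) (.e (nat_lit 336390) (nat_lit 27) (.e (nat_lit 426098) (nat_lit 1) (.e (nat_lit 164327) (nat_lit 230) (.e (nat_lit 163871) (nat_lit 2) (.e (nat_lit 196656) (nat_lit 11) (.e (nat_lit 16438) (nat_lit 9) (.e (nat_lit 426530) (nat_lit 27) .nil))))))) (.g (nat_lit 1) (.e (nat_lit 377022) (nat_lit 0) .nil) .nil)))) (.nd (nat_lit 9) 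
(.lf (nat_lit 579983) (.g (nat_lit 2034) (.e (nat_lit 336389) (nat_lit 27) (.e (nat_lit 426108) (nat_lit 1) (.e (nat_lit 164330) (nat_lit 230) (.e (nat_lit 163873) (nat_lit 3) (.e (nat_lit 204813) (nat_lit 9) .nil))))) (.g (nat_lit 0) (.e (nat_lit 376619) (nat_lit 0) .nil) .nil))) 
(.lf (nat_lit 580495) (.g (nat_lit 1770) (.e (nat_lit 336407) (nat_lit 27) (.e (nat_lit 426098) (nat_lit 1) (.e (nat_lit 164327) (nat_lit 230) (.e (nat_lit 163868) (nat_lit 2) (.e (nat_lit 196654) (nat_lit 11) .nil))))) (.g (nat_lit 0) (.e (nat_lit 377453) (nat_lit 0) .nil) .nil)))))) (.nd (nat_lit 7) (.nd (nat_lit 8) (.nd (nat_lit 9) 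
(.lf (nat_lit 579663) (.g (nat_lit 2787) (.e (nat_lit 336326) (nat_lit 18) (.e (nat_lit 204882) (nat_lit 32) (.e (nat_lit 385066) (nat_lit 26) (.e (nat_lit 532532) (nat_lit 9) (.e (nat_lit 336325) (nat_lit 18) (.e (nat_lit 204852) (nat_lit 26) .nil)))))) (.g (nat_lit 1) (.e (nat_lit 375070) (nat_lit 0) .nil) .nil))) 
(.lf (nat_lit 580175) (.g (nat_lit 2602) (.e (nat_lit 336388) (nat_lit 27) (.e (nat_lit 426108) (nat_lit 1) (.e (nat_lit 164330) (nat_lit 230) (.e (nat_lit 163869) (nat_lit 2) (.e (nat_lit 196656) (nat_lit 11) .nil))))) (.g (nat_lit 0) (.e (nat_lit 376948) (nat_lit 0) .nil) .nil)))) (.nd (nat_lit 9) 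
(.lf (nat_lit 579919) (.g (nat_lit 2710) (.e (nat_lit 336386) (nat_lit 27) (.e (nat_lit 426098) (nat_lit 1) (.e (nat_lit 164325) (nat_lit 230) (.e (nat_lit 163873) (nat_lit 3) (.e (nat_lit 204813) (nat_lit 9) .nil))))) (.g (nat_lit 0) (.e (nat_lit 376552) (nat_lit 0) .nil) .nil))) 
(.lf (nat_lit 580431) (.g (nat_lit 1809) (.e (nat_lit 336408) (nat_lit 27) (.e (nat_lit 426306) (nat_lit 12) (.e (nat_lit 475179) (nat_lit 24) (.e (nat_lit 516120) (nat_lit 1) (.e (nat_lit 164332) (nat_lit 230) .nil))))) (.g (nat_lit 0) (.e (nat_lit 377386) (nat_lit 0) .nil) .nil))))) (.nd (nat_lit 8) (.nd (nat_lit 9) 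
(.lf (nat_lit 579791) (.g (nat_lit 2878) (.e (nat_lit 336369) (nat_lit 27) (.e (nat_lit 426109) (nat_lit 1) (.e (nat_lit 164327) (nat_lit 230) (.e (nat_lit 163868) (nat_lit 2) (.e (nat_lit 196656) (nat_lit 11) (.e (nat_lit 16436) (nat_lit 9) (.e (nat_lit 426486) (nat_lit 27) .nil))))))) (.g (nat_lit 1) (.e (nat_lit 376365) (nat_lit 0) .nil) .nil))) 
(.lf (nat_lit 580303) (.g (nat_lit 1303) (.e (nat_lit 336395) (nat_lit 27) (.e (nat_lit 426340) (nat_lit 14) (.e (nat_lit 491571) (nat_lit 13) (.e (nat_lit 393242) (nat_lit 17) (.e (nat_lit 7554) (nat_lit 402) .nil))))) (.g (nat_lit 0) (.e (nat_lit 377143) (nat_lit 0) .nil) .nil)))) (.nd (nat_lit 9) 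
(.lf (nat_lit 580047) (.g (nat_lit 1302) (.e (nat_lit 336387) (nat_lit 27) (.e (nat_lit 426107) (nat_lit 1) (.e (nat_lit 164325) (nat_lit 230) (.e (nat_lit 163875) (nat_lit 3) (.e (nat_lit 204811) (nat_lit 9) .nil))))) (.g (nat_lit 0) (.e (nat_lit 376708) (nat_lit 0) .nil) .nil))) 
(.lf (nat_lit 580559) (.g (nat_lit 2606) (.e (nat_lit 336412) (nat_lit 27) (.e (nat_lit 426098) (nat_lit 1) (.e (nat_lit 164325) (nat_lit 230) (.e (nat_lit 163866) (nat_lit 2) (.e (nat_lit 196654) (nat_lit 11) .nil))))) (.g (nat_lit 0) (.e (nat_lit 377522) (nat_lit 0) .nil) .nil))))))) (.nd (nat_lit 6) (.nd (nat_lit 7) (.nd (nat_lit 8) (.nd (nat_lit 9) 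
(.lf (nat_lit 579631) (.g (nat_lit 736) (.e (nat_lit 336326) (nat_lit 18) (.e (nat_lit 204866) (nat_lit 28) (.e (nat_lit 352274) (nat_lit 11) .nil))) (.g (nat_lit 0) (.e (nat_lit 375005) (nat_lit 0) .nil) .nil))) 
(.lf (nat_lit 580143) (.g (nat_lit 2062) (.e (nat_lit 336388) (nat_lit 27) (.e (nat_lit 426100) (nat_lit 1) (.e (nat_lit 164332) (nat_lit 230) (.e (nat_lit 163869) (nat_lit 2) (.e (nat_lit 196654) (nat_lit 11) .nil))))) (.g (nat_lit 0) (.e (nat_lit 376912) (nat_lit 0) .nil) .nil)))) (.nd (nat_lit 9) 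
(.lf (nat_lit 579887) (.g (nat_lit 2526) (.e (nat_lit 336385) (nat_lit 27) (.e (nat_lit 426200) (nat_lit 9) (.e (nat_lit 426131) (nat_lit 3) (.e (nat_lit 204829) (nat_lit 18) (.e (nat_lit 57692) (nat_lit 156) (.e (nat_lit 163907) (nat_lit 12) (.e (nat_lit 426481) (nat_lit 27) .nil))))))) (.g (nat_lit 1) (.e (nat_lit 376517) (nat_lit 0) .nil) .nil))) 
(.lf (nat_lit 580399) (.g (nat_lit 939) (.e (nat_lit 336406) (nat_lit 27) (.e (nat_lit 426343) (nat_lit 14) (.e (nat_lit 491560) (nat_lit 10) .nil))) (.g (nat_lit 0) (.e (nat_lit 377329) (nat_lit 0) .nil) .nil))))) (.nd (nat_lit 8) (.nd (nat_lit 9) 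
(.lf (nat_lit 579759) (.g (nat_lit 1517) (.e (nat_lit 336367) (nat_lit 27) (.e (nat_lit 426546) (nat_lit 30) (.e (nat_lit 360466) (nat_lit 3) (.e (nat_lit 516120) (nat_lit 1) (.e (nat_lit 164184) (nat_lit 155) (.e (nat_lit 122903) (nat_lit 12) .nil)))))) (.g (nat_lit 1) (.e (nat_lit 376314) (nat_lit 0) .nil) .nil))) 
(.lf (nat_lit 580271) (.g (nat_lit 3469) (.e (nat_lit 336398) (nat_lit 27) (.e (nat_lit 426290) (nat_lit 10) (.e (nat_lit 434231) (nat_lit 23) (.e (nat_lit 532579) (nat_lit 26) (.e (nat_lit 426100) (nat_lit 1) (.e (nat_lit 164398) (nat_lit 256) (.e (nat_lit 57410) (nat_lit 12) .nil))))))) (.g (nat_lit 1) (.e (nat_lit 377097) (nat_lit 0) .nil) .nil)))) (.nd (nat_lit 9) 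
(.lf (nat_lit 580015) (.g (nat_lit 3854) (.e (nat_lit 336389) (nat_lit 27) (.e (nat_lit 426343) (nat_lit 14) (.e (nat_lit 491560) (nat_lit 10) (.e (nat_lit 344179) (nat_lit 44) (.e (nat_lit 778466) (nat_lit 11) (.e (nat_lit 24631) (nat_lit 9) .nil)))))) (.g (nat_lit 1) (.e (nat_lit 376651) (nat_lit 0) .nil) .nil))) 
(.lf (nat_lit 580527) (.g (nat_lit 2009) (.e (nat_lit 336407) (nat_lit 27) (.e (nat_lit 426188) (nat_lit 9) (.e (nat_lit 426436) (nat_lit 18) (.e (nat_lit 98334) (nat_lit 18) (.e (nat_lit 164330) (nat_lit 230) (.e (nat_lit 163905) (nat_lit 12) (.e (nat_lit 426491) (nat_lit 27) .nil))))))) (.g (nat_lit 1) (.e (nat_lit 377486) (nat_lit 0) .nil) .nil)))))) 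
(.nd (nat_lit 7) (.nd (nat_lit 8) (.nd (nat_lit 9) 
(.lf (nat_lit 579695) (.g (nat_lit 1775) (.e (nat_lit 343808) (nat_lit 18) (.e (nat_lit 204862) (nat_lit 27) (.e (nat_lit 344130) (nat_lit 26) (.e (nat_lit 557103) (nat_lit 14) (.e (nat_lit 188160) (nat_lit 3) .nil))))) (.g (nat_lit 0) (.e (nat_lit 375117) (nat_lit 0) .nil) .nil))) 
(.lf (nat_lit 580207) (.g (nat_lit 2270) (.e (nat_lit 336388) (nat_lit 27) (.e (nat_lit 426306) (nat_lit 12) (.e (nat_lit 475177) (nat_lit 24) (.e (nat_lit 516115) (nat_lit 1) (.e (nat_lit 164325) (nat_lit 230) (.e (nat_lit 163907) (nat_lit 12) (.e (nat_lit 426481) (nat_lit 27) .nil))))))) (.g (nat_lit 1) (.e (nat_lit 376983) (nat_lit 0) .nil) .nil)))) (.nd (nat_lit 9) 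
(.lf (nat_lit 579951) (.g (nat_lit 787) (.e (nat_lit 336389) (nat_lit 27) (.e (nat_lit 426098) (nat_lit 1) (.e (nat_lit 164325) (nat_lit 230) .nil))) (.g (nat_lit 0) (.e (nat_lit 376586) (nat_lit 0) .nil) .nil))) 
(.lf (nat_lit 580463) (.g (nat_lit 2874) (.e (nat_lit 336409) (nat_lit 27) (.e (nat_lit 426188) (nat_lit 9) (.e (nat_lit 426436) (nat_lit 18) (.e (nat_lit 98335) (nat_lit 18) (.e (nat_lit 164330) (nat_lit 230) (.e (nat_lit 163905) (nat_lit 12) (.e (nat_lit 426489) (nat_lit 27) .nil))))))) (.g (nat_lit 1) (.e (nat_lit 377420) (nat_lit 0) .nil) .nil))))) (.nd (nat_lit 8) (.nd (nat_lit 9) 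
(.lf (nat_lit 579823) (.g (nat_lit 1592) (.e (nat_lit 336382) (nat_lit 27) (.e (nat_lit 426344) (nat_lit 14) (.e (nat_lit 491560) (nat_lit 10) (.e (nat_lit 344179) (nat_lit 44) .nil)))) (.g (nat_lit 0) (.e (nat_lit 376425) (nat_lit 0) .nil) .nil))) 
(.lf (nat_lit 580335) (.g (nat_lit 848) (.e (nat_lit 336400) (nat_lit 27) (.e (nat_lit 426343) (nat_lit 14) (.e (nat_lit 491560) (nat_lit 10) .nil))) (.g (nat_lit 0) (.e (nat_lit 377229) (nat_lit 0) .nil) .nil)))) (.nd (nat_lit 9) 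
(.lf (nat_lit 580079) (.g (nat_lit 1330) (.e (nat_lit 336387) (nat_lit 27) (.e (nat_lit 426108) (nat_lit 1) (.e (nat_lit 164331) (nat_lit 230) (.e (nat_lit 163873) (nat_lit 3) (.e (nat_lit 204811) (nat_lit 9) .nil))))) (.g (nat_lit 0) (.e (nat_lit 376786) (nat_lit 0) .nil) .nil))) 
(.lf (nat_lit 580591) (.g (nat_lit 1180) (.e (nat_lit 336412) (nat_lit 27) (.e (nat_lit 426343) (nat_lit 14) (.e (nat_lit 491560) (nat_lit 10) (.e (nat_lit 344176) (nat_lit 43) .nil)))) (.g (nat_lit 0) (.e (nat_lit 377565) (nat_lit 0) .nil) .nil)))))))) (.nd (nat_lit 5) (.nd (nat_lit 6) (.nd (nat_lit 7) (.nd (nat_lit 8) (.nd (nat_lit 9) 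
(.lf (nat_lit 579615) (.g (nat_lit 2451) (.e (nat_lit 336326) (nat_lit 18) (.e (nat_lit 204863) (nat_lit 27) (.e (nat_lit 344133) (nat_lit 26) (.e (nat_lit 557096) (nat_lit 13) (.e (nat_lit 172127) (nat_lit 15) .nil))))) (.g (nat_lit 0) (.e (nat_lit 374989) (nat_lit 0) .nil) .nil))) 
(.lf (nat_lit 580127) (.g (nat_lit 2622) (.e (nat_lit 336387) (nat_lit 27) (.e (nat_lit 426316) (nat_lit 12) (.e (nat_lit 475185) (nat_lit 29) (.e (nat_lit 557091) (nat_lit 12) (.e (nat_lit 164031) (nat_lit 53) (.e (nat_lit 761901) (nat_lit 16) (.e (nat_lit 172150) (nat_lit 27) .nil))))))) (.g (nat_lit 1) (.e (nat_lit 376890) (nat_lit 0) .nil) .nil)))) (.nd (nat_lit 9) 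
(.lf (nat_lit 579871) (.g (nat_lit 1707) (.e (nat_lit 336385) (nat_lit 27) (.e (nat_lit 426108) (nat_lit 1) (.e (nat_lit 164332) (nat_lit 230) (.e (nat_lit 163874) (nat_lit 3) .nil)))) (.g (nat_lit 0) (.e (nat_lit 376492) (nat_lit 0) .nil) .nil))) 
(.lf (nat_lit 580383) (.g (nat_lit 1792) (.e (nat_lit 336406) (nat_lit 27) (.e (nat_lit 426107) (nat_lit 1) (.e (nat_lit 164326) (nat_lit 230) (.e (nat_lit 163873) (nat_lit 3) (.e (nat_lit 204813) (nat_lit 9) .nil))))) (.g (nat_lit 0) (.e (nat_lit 377312) (nat_lit 0) .nil) .nil))))) (.nd (nat_lit 8) (.nd (nat_lit 9) 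
(.lf (nat_lit 579743) (.g (nat_lit 1564) (.e (nat_lit 336366) (nat_lit 27) (.e (nat_lit 426499) (nat_lit 27) (.e (nat_lit 335986) (nat_lit 1) (.e (nat_lit 57931) (nat_lit 282) .nil)))) (.g (nat_lit 0) (.e (nat_lit 376282) (nat_lit 0) .nil) .nil))) 
(.lf (nat_lit 580255) (.g (nat_lit 3213) (.e (nat_lit 336390) (nat_lit 27) (.e (nat_lit 426343) (nat_lit 14) (.e (nat_lit 491560) (nat_lit 10) (.e (nat_lit 344179) (nat_lit 44) (.e (nat_lit 778466) (nat_lit 11) (.e (nat_lit 24636) (nat_lit 9) .nil)))))) (.g (nat_lit 1) (.e (nat_lit 377073) (nat_lit 0) .nil) .nil)))) (.nd (nat_lit 9) 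
(.lf (nat_lit 579999) (.g (nat_lit 3481) (.e (nat_lit 336389) (nat_lit 27) (.e (nat_lit 426308) (nat_lit 12) (.e (nat_lit 475178) (nat_lit 24) (.e (nat_lit 516117) (nat_lit 1) (.e (nat_lit 164329) (nat_lit 230) (.e (nat_lit 163902) (nat_lit 12) (.e (nat_lit 426481) (nat_lit 27) .nil))))))) (.g (nat_lit 1) (.e (nat_lit 376635) (nat_lit 0) .nil) .nil))) 
(.lf (nat_lit 580511) (.g (nat_lit 2415) (.e (nat_lit 336407) (nat_lit 27) (.e (nat_lit 426107) (nat_lit 1) (.e (nat_lit 164327) (nat_lit 230) (.e (nat_lit 163868) (nat_lit 2) (.e (nat_lit 196654) (nat_lit 11) .nil))))) (.g (nat_lit 0) (.e (nat_lit 377470) (nat_lit 0) .nil) .nil)))))) (.nd (nat_lit 7) (.nd (nat_lit 8) (.nd (nat_lit 9) 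
(.lf (nat_lit 579679) (.g (nat_lit 1207) (.e (nat_lit 343808) (nat_lit 18) (.e (nat_lit 204829) (nat_lit 18) (.e (nat_lit 57847) (nat_lit 252) (.e (nat_lit 57411) (nat_lit 12) .nil)))) (.g (nat_lit 0) (.e (nat_lit 375087) (nat_lit 0) .nil) .nil))) 
(.lf (nat_lit 580191) (.g (nat_lit 3215) (.e (nat_lit 336388) (nat_lit 27) (.e (nat_lit 426187) (nat_lit 9) (.e (nat_lit 426436) (nat_lit 18) (.e (nat_lit 98335) (nat_lit 18) (.e (nat_lit 164327) (nat_lit 230) (.e (nat_lit 163903) (nat_lit 12) (.e (nat_lit 426478) (nat_lit 27) .nil))))))) (.g (nat_lit 1) (.e (nat_lit 376965) (nat_lit 0) .nil) .nil)))) (.nd (nat_lit 9) 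
(.lf (nat_lit 579935) (.g (nat_lit 2781) (.e (nat_lit 336386) (nat_lit 27) (.e (nat_lit 426188) (nat_lit 9) (.e (nat_lit 426436) (nat_lit 18) (.e (nat_lit 98335) (nat_lit 18) (.e (nat_lit 164330) (nat_lit 230) (.e (nat_lit 163905) (nat_lit 12) (.e (nat_lit 426481) (nat_lit 27) .nil))))))) (.g (nat_lit 1) (.e (nat_lit 376569) (nat_lit 0) .nil) .nil))) 
(.lf (nat_lit 580447) (.g (nat_lit 2424) (.e (nat_lit 336409) (nat_lit 27) (.e (nat_lit 426100) (nat_lit 1) (.e (nat_lit 164332) (nat_lit 230) (.e (nat_lit 163869) (nat_lit 2) (.e (nat_lit 196656) (nat_lit 11) (.e (nat_lit 16436) (nat_lit 9) (.e (nat_lit 426487) (nat_lit 27) .nil))))))) (.g (nat_lit 1) (.e (nat_lit 377404) (nat_lit 0) .nil) .nil))))) (.nd (nat_lit 8) (.nd (nat_lit 9) 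
(.lf (nat_lit 579807) (.g (nat_lit 2725) (.e (nat_lit 336375) (nat_lit 27) (.e (nat_lit 426318) (nat_lit 12) (.e (nat_lit 475210) (nat_lit 41) (.e (nat_lit 712745) (nat_lit 27) (.e (nat_lit 426347) (nat_lit 14) .nil))))) (.g (nat_lit 0) (.e (nat_lit 376400) (nat_lit 0) .nil) .nil))) 
(.lf (nat_lit 580319) (.g (nat_lit 2377) (.e (nat_lit 336417) (nat_lit 27) (.e (nat_lit 426098) (nat_lit 1) (.e (nat_lit 164325) (nat_lit 230) (.e (nat_lit 163866) (nat_lit 2) .nil)))) (.g (nat_lit 0) (.e (nat_lit 377172) (nat_lit 0) .nil) .nil)))) (.nd (nat_lit 9) 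
(.lf (nat_lit 580063) (.g (nat_lit 2824) (.e (nat_lit 336387) (nat_lit 27) (.e (nat_lit 426107) (nat_lit 1) (.e (nat_lit 164327) (nat_lit 230) (.e (nat_lit 163868) (nat_lit 2) (.e (nat_lit 196656) (nat_lit 11) (.e (nat_lit 16439) (nat_lit 9) (.e (nat_lit 426501) (nat_lit 27) .nil))))))) (.g (nat_lit 1) (.e (nat_lit 376741) (nat_lit 0) .nil) .nil))) 
(.lf (nat_lit 580575) (.g (nat_lit 3869) (.e (nat_lit 336412) (nat_lit 27) (.e (nat_lit 426187) (nat_lit 9) (.e (nat_lit 426436) (nat_lit 18) (.e (nat_lit 98335) (nat_lit 18) (.e (nat_lit 164330) (nat_lit 230) (.e (nat_lit 163905) (nat_lit 12) (.e (nat_lit 426509) (nat_lit 27) .nil))))))) (.g (nat_lit 1) (.e (nat_lit 377541) (nat_lit 0) .nil) .nil))))))) 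
(.nd (nat_lit 6) (.nd (nat_lit 7) (.nd (nat_lit 8) (.nd (nat_lit 9) 
(.lf (nat_lit 579647) (.g (nat_lit 2042) (.e (nat_lit 336326) (nat_lit 18) (.e (nat_lit 204880) (nat_lit 32) (.e (nat_lit 385066) (nat_lit 26) (.e (nat_lit 532530) (nat_lit 9) (.e (nat_lit 336326) (nat_lit 18) (.e (nat_lit 204851) (nat_lit 26) .nil)))))) (.g (nat_lit 1) (.e (nat_lit 375046) (nat_lit 0) .nil) .nil))) 
(.lf (nat_lit 580159) (.g (nat_lit 2208) (.e (nat_lit 336388) (nat_lit 27) (.e (nat_lit 426107) (nat_lit 1) (.e (nat_lit 164327) (nat_lit 230) (.e (nat_lit 163868) (nat_lit 2) (.e (nat_lit 196654) (nat_lit 11) .nil))))) (.g (nat_lit 0) (.e (nat_lit 376928) (nat_lit 0) .nil) .nil)))) (.nd (nat_lit 9) 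
(.lf (nat_lit 579903) (.g (nat_lit 1586) (.e (nat_lit 336385) (nat_lit 27) (.e (nat_lit 426316) (nat_lit 12) (.e (nat_lit 475177) (nat_lit 24) (.e (nat_lit 516117) (nat_lit 1) .nil)))) (.g (nat_lit 0) (.e (nat_lit 376536) (nat_lit 0) .nil) .nil))) 
(.lf (nat_lit 580415) (.g (nat_lit 2919) (.e (nat_lit 336408) (nat_lit 27) (.e (nat_lit 426188) (nat_lit 9) (.e (nat_lit 426436) (nat_lit 18) (.e (nat_lit 98335) (nat_lit 18) (.e (nat_lit 164330) (nat_lit 230) (.e (nat_lit 163909) (nat_lit 12) (.e (nat_lit 426498) (nat_lit 27) .nil))))))) (.g (nat_lit 1) (.e (nat_lit 377363) (nat_lit 0) .nil) .nil))))) (.nd (nat_lit 8) (.nd (nat_lit 9) 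
(.lf (nat_lit 579775) (.g (nat_lit 3138) (.e (nat_lit 336370) (nat_lit 27) (.e (nat_lit 426317) (nat_lit 12) (.e (nat_lit 475179) (nat_lit 24) (.e (nat_lit 516120) (nat_lit 1) (.e (nat_lit 164329) (nat_lit 230) .nil))))) (.g (nat_lit 0) (.e (nat_lit 376340) (nat_lit 0) .nil) .nil))) 
(.lf (nat_lit 580287) (.g (nat_lit 1441) (.e (nat_lit 336395) (nat_lit 27) (.e (nat_lit 426338) (nat_lit 14) (.e (nat_lit 491549) (nat_lit 9) (.e (nat_lit 336395) (nat_lit 27) .nil)))) (.g (nat_lit 0) (.e (nat_lit 377126) (nat_lit 0) .nil) .nil)))) (.nd (nat_lit 9) 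
(.lf (nat_lit 580031) (.g (nat_lit 379) (.e (nat_lit 336387) (nat_lit 27) (.e (nat_lit 426107) (nat_lit 1) (.e (nat_lit 164322) (nat_lit 230) .nil))) (.g (nat_lit 0) (.e (nat_lit 376679) (nat_lit 0) .nil) .nil))) 
(.lf (nat_lit 580543) (.g (nat_lit 1901) (.e (nat_lit 336407) (nat_lit 27) (.e (nat_lit 426308) (nat_lit 12) (.e (nat_lit 475177) (nat_lit 24) (.e (nat_lit 516117) (nat_lit 1) (.e (nat_lit 164330) (nat_lit 230) (.e (nat_lit 163905) (nat_lit 12) (.e (nat_lit 426487) (nat_lit 27) .nil))))))) (.g (nat_lit 1) (.e (nat_lit 377504) (nat_lit 0) .nil) .nil)))))) 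
(.nd (nat_lit 7) (.nd (nat_lit 8) (.nd (nat_lit 9) 
(.lf (nat_lit 579711) (.g (nat_lit 1553) (.e (nat_lit 343808) (nat_lit 18) (.e (nat_lit 204882) (nat_lit 32) (.e (nat_lit 385068) (nat_lit 26) (.e (nat_lit 532530) (nat_lit 9) (.e (nat_lit 336326) (nat_lit 18) .nil))))) (.g (nat_lit 0) (.e (nat_lit 375140) (nat_lit 0) .nil) .nil))) 
(.lf (nat_lit 580223) (.g (nat_lit 1538) (.e (nat_lit 336388) (nat_lit 27) (.e (nat_lit 426316) (nat_lit 12) (.e (nat_lit 475179) (nat_lit 24) (.e (nat_lit 516117) (nat_lit 1) .nil)))) (.g (nat_lit 0) (.e (nat_lit 376999) (nat_lit 0) .nil) .nil)))) (.nd (nat_lit 9) 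
(.lf (nat_lit 579967) (.g (nat_lit 4340) (.e (nat_lit 336389) (nat_lit 27) (.e (nat_lit 426098) (nat_lit 1) (.e (nat_lit 164327) (nat_lit 230) (.e (nat_lit 163873) (nat_lit 3) (.e (nat_lit 204813) (nat_lit 9) (.e (nat_lit 426197) (nat_lit 9) (.e (nat_lit 426481) (nat_lit 27) .nil))))))) (.g (nat_lit 1) (.e (nat_lit 376603) (nat_lit 0) .nil) .nil))) 
(.lf (nat_lit 580479) (.g (nat_lit 1661) (.e (nat_lit 336407) (nat_lit 27) (.e (nat_lit 426011) (nat_lit 0) (.e (nat_lit 7591) (nat_lit 407) (.e (nat_lit 73776) (nat_lit 26) .nil)))) (.g (nat_lit 0) (.e (nat_lit 377436) (nat_lit 0) .nil) .nil))))) (.nd (nat_lit 8) (.nd (nat_lit 9) 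
(.lf (nat_lit 579839) (.g (nat_lit 944) (.e (nat_lit 336385) (nat_lit 27) (.e (nat_lit 426100) (nat_lit 1) (.e (nat_lit 164397) (nat_lit 256) .nil))) (.g (nat_lit 0) (.e (nat_lit 376450) (nat_lit 0) .nil) .nil))) 
(.lf (nat_lit 580351) (.g (nat_lit 1699) (.e (nat_lit 336405) (nat_lit 27) (.e (nat_lit 426188) (nat_lit 9) (.e (nat_lit 426436) (nat_lit 18) (.e (nat_lit 98334) (nat_lit 18) (.e (nat_lit 164330) (nat_lit 230) .nil))))) (.g (nat_lit 0) (.e (nat_lit 377265) (nat_lit 0) .nil) .nil)))) (.nd (nat_lit 9) 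
(.lf (nat_lit 580095) (.g (nat_lit 2211) (.e (nat_lit 336387) (nat_lit 27) (.e (nat_lit 426199) (nat_lit 9) (.e (nat_lit 426131) (nat_lit 3) (.e (nat_lit 204829) (nat_lit 18) (.e (nat_lit 57665) (nat_lit 152) .nil))))) (.g (nat_lit 0) (.e (nat_lit 376812) (nat_lit 0) .nil) .nil))) 
(.lf (nat_lit 580607) (.g (nat_lit 4161) (.e (nat_lit 336414) (nat_lit 27) (.e (nat_lit 426110) (nat_lit 1) (.e (nat_lit 164327) (nat_lit 230) (.e (nat_lit 163868) (nat_lit 2) (.e (nat_lit 196654) (nat_lit 11) (.e (nat_lit 16436) (nat_lit 9) (.e (nat_lit 426479) (nat_lit 27) .nil))))))) (.g (nat_lit 1) (.e (nat_lit 377588) (nat_lit 0) .nil) .nil)))))))))))))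

noncomputable def tv5627 : DT := (.nd (nat_lit 0) (.nd (nat_lit 1) (.nd (nat_lit 2) (.nd (nat_lit 3) (.nd (nat_lit 4) (.nd (nat_lit 5) (.nd (nat_lit 6) (.nd (nat_lit 7) (.nd (nat_lit 8) (.nd (nat_lit 9) 
(.lf (nat_lit 580608) (.g (nat_lit 4186) (.e (nat_lit 336414) (nat_lit 27) (.e (nat_lit 426110) (nat_lit 1) (.e (nat_lit 164327) (nat_lit 230) (.e (nat_lit 163871) (nat_lit 2) (.e (nat_lit 196654) (nat_lit 11) (.e (nat_lit 16436) (nat_lit 9) (.e (nat_lit 426479) (nat_lit 27) .nil))))))) (.g (nat_lit 1) (.e (nat_lit 377591) (nat_lit 0) .nil) .nil))) 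
(.lf (nat_lit 581120) (.g (nat_lit 3476) (.e (nat_lit 336443) (nat_lit 32) (.e (nat_lit 466969) (nat_lit 21) (.e (nat_lit 164332) (nat_lit 230) (.e (nat_lit 163878) (nat_lit 4) (.e (nat_lit 213030) (nat_lit 11) (.e (nat_lit 24626) (nat_lit 9) .nil)))))) (.g (nat_lit 1) (.e (nat_lit 378598) (nat_lit 0) .nil) .nil)))) (.nd (nat_lit 9) 
(.lf (nat_lit 580864) (.g (nat_lit 2174) (.e (nat_lit 336432) (nat_lit 30) (.e (nat_lit 450580) (nat_lit 5) (.e (nat_lit 532503) (nat_lit 1) (.e (nat_lit 57686) (nat_lit 156) (.e (nat_lit 163902) (nat_lit 12) (.e (nat_lit 426479) (nat_lit 27) .nil)))))) (.g (nat_lit 1) (.e (nat_lit 378084) (nat_lit 0) .nil) .nil))) 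
(.lf (nat_lit 581376) (.g (nat_lit 1691) (.e (nat_lit 336452) (nat_lit 34) (.e (nat_lit 483382) (nat_lit 23) (.e (nat_lit 336324) (nat_lit 18) (.e (nat_lit 204831) (nat_lit 18) (.e (nat_lit 57848) (nat_lit 252) .nil))))) (.g (nat_lit 0) (.e (nat_lit 378917) (nat_lit 0) .nil) .nil))))) (.nd (nat_lit 8) (.nd (nat_lit 9) 
(.lf (nat_lit 580736) (.g (nat_lit 1302) (.e (nat_lit 336430) (nat_lit 29) (.e (nat_lit 442419) (nat_lit 21) (.e (nat_lit 164348) (nat_lit 240) (.e (nat_lit 2619) (nat_lit 164) .nil)))) (.g (nat_lit 0) (.e (nat_lit 377869) (nat_lit 0) .nil) .nil))) 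
(.lf (nat_lit 581248) (.g (nat_lit 3320) (.e (nat_lit 336443) (nat_lit 32) (.e (nat_lit 466971) (nat_lit 21) (.e (nat_lit 164332) (nat_lit 230) (.e (nat_lit 163885) (nat_lit 5) (.e (nat_lit 221194) (nat_lit 11) (.e (nat_lit 336077) (nat_lit 9) .nil)))))) (.g (nat_lit 1) (.e (nat_lit 378726) (nat_lit 0) .nil) .nil)))) (.nd (nat_lit 9) 
(.lf (nat_lit 580992) (.g (nat_lit 1635) (.e (nat_lit 336440) (nat_lit 32) (.e (nat_lit 466969) (nat_lit 21) (.e (nat_lit 164324) (nat_lit 230) (.e (nat_lit 163884) (nat_lit 5) (.e (nat_lit 221192) (nat_lit 11) .nil))))) (.g (nat_lit 0) (.e (nat_lit 378424) (nat_lit 0) .nil) .nil))) 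
(.lf (nat_lit 581504) (.g (nat_lit 997) (.e (nat_lit 336454) (nat_lit 34) (.e (nat_lit 483379) (nat_lit 23) (.e (nat_lit 336324) (nat_lit 18) (.e (nat_lit 204831) (nat_lit 18) .nil)))) (.g (nat_lit 0) (.e (nat_lit 379137) (nat_lit 0) .nil) .nil)))))) (.nd (nat_lit 7) (.nd (nat_lit 8) (.nd (nat_lit 9) 
(.lf (nat_lit 580672) (.g (nat_lit 641) (.e (nat_lit 336426) (nat_lit 29) (.e (nat_lit 442427) (nat_lit 23) (.e (nat_lit 204808) (nat_lit 9) .nil))) (.g (nat_lit 0) (.e (nat_lit 377709) (nat_lit 0) .nil) .nil))) 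
(.lf (nat_lit 581184) (.g (nat_lit 3135) (.e (nat_lit 336443) (nat_lit 32) (.e (nat_lit 466971) (nat_lit 21) (.e (nat_lit 164325) (nat_lit 230) (.e (nat_lit 163882) (nat_lit 4) (.e (nat_lit 213032) (nat_lit 11) (.e (nat_lit 24626) (nat_lit 9) .nil)))))) (.g (nat_lit 1) (.e (nat_lit 378662) (nat_lit 0) .nil) .nil)))) (.nd (nat_lit 9) 
(.lf (nat_lit 580928) (.g (nat_lit 281) (.e (nat_lit 336434) (nat_lit 30) (.e (nat_lit 450579) (nat_lit 5) (.e (nat_lit 532501) (nat_lit 1) .nil))) (.g (nat_lit 0) (.e (nat_lit 378216) (nat_lit 0) .nil) .nil))) 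
(.lf (nat_lit 581440) (.g (nat_lit 3595) (.e (nat_lit 336454) (nat_lit 34) (.e (nat_lit 483363) (nat_lit 18) (.e (nat_lit 57930) (nat_lit 282) (.e (nat_lit 163873) (nat_lit 3) (.e (nat_lit 204861) (nat_lit 26) (.e (nat_lit 336076) (nat_lit 9) .nil)))))) (.g (nat_lit 1) (.e (nat_lit 379060) (nat_lit 0) .nil) .nil))))) (.nd (nat_lit 8) (.nd (nat_lit 9) 
(.lf (nat_lit 580800) (.g (nat_lit 2178) (.e (nat_lit 336431) (nat_lit 29) (.e (nat_lit 442427) (nat_lit 23) (.e (nat_lit 204813) (nat_lit 9) (.e (nat_lit 426098) (nat_lit 1) (.e (nat_lit 164399) (nat_lit 256) .nil))))) (.g (nat_lit 0) (.e (nat_lit 377954) (nat_lit 0) .nil) .nil))) 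
(.lf (nat_lit 581312) (.g (nat_lit 2301) (.e (nat_lit 336443) (nat_lit 32) (.e (nat_lit 466972) (nat_lit 21) (.e (nat_lit 164345) (nat_lit 240) (.e (nat_lit 2638) (nat_lit 165) (.e (nat_lit 180277) (nat_lit 32) (.e (nat_lit 1425) (nat_lit 108) .nil)))))) (.g (nat_lit 1) (.e (nat_lit 378791) (nat_lit 0) .nil) .nil)))) (.nd (nat_lit 9) 
(.lf (nat_lit 581056) (.g (nat_lit 3212) (.e (nat_lit 336443) (nat_lit 32) (.e (nat_lit 466969) (nat_lit 21) (.e (nat_lit 164325) (nat_lit 230) (.e (nat_lit 163882) (nat_lit 4) (.e (nat_lit 213032) (nat_lit 11) (.e (nat_lit 24624) (nat_lit 9) .nil)))))) (.g (nat_lit 1) (.e (nat_lit 378534) (nat_lit 0) .nil) .nil))) 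
(.lf (nat_lit 581568) (.g (nat_lit 1879) (.e (nat_lit 336455) (nat_lit 34) (.e (nat_lit 483363) (nat_lit 18) (.e (nat_lit 57854) (nat_lit 252) (.e (nat_lit 57370) (nat_lit 2) .nil)))) (.g (nat_lit 0) (.e (nat_lit 379247) (nat_lit 0) .nil) .nil))))))) (.nd (nat_lit 6) (.nd (nat_lit 7) (.nd (nat_lit 8) (.nd (nat_lit 9) 
(.lf (nat_lit 580640) (.g (nat_lit 1356) (.e (nat_lit 336421) (nat_lit 28) (.e (nat_lit 442112) (nat_lit 5) (.e (nat_lit 73775) (nat_lit 26) (.e (nat_lit 778466) (nat_lit 11) (.e (nat_lit 32512) (nat_lit 9) .nil))))) (.g (nat_lit 1) (.e (nat_lit 377651) (nat_lit 0) .nil) .nil))) 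
(.lf (nat_lit 581152) (.g (nat_lit 3809) (.e (nat_lit 336443) (nat_lit 32) (.e (nat_lit 466969) (nat_lit 21) (.e (nat_lit 164348) (nat_lit 240) (.e (nat_lit 2629) (nat_lit 164) (.e (nat_lit 172124) (nat_lit 14) (.e (nat_lit 491549) (nat_lit 9) .nil)))))) (.g (nat_lit 1) (.e (nat_lit 378630) (nat_lit 0) .nil) .nil)))) (.nd (nat_lit 9) 
(.lf (nat_lit 580896) (.g (nat_lit 2403) (.e (nat_lit 336432) (nat_lit 30) (.e (nat_lit 450588) (nat_lit 10) (.e (nat_lit 573475) (nat_lit 12) (.e (nat_lit 57356) (nat_lit 0) .nil)))) (.g (nat_lit 0) (.e (nat_lit 378125) (nat_lit 0) .nil) .nil))) 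
(.lf (nat_lit 581408) (.g (nat_lit 2665) (.e (nat_lit 336453) (nat_lit 34) (.e (nat_lit 483365) (nat_lit 18) (.e (nat_lit 57847) (nat_lit 252) (.e (nat_lit 57375) (nat_lit 2) (.e (nat_lit 90160) (nat_lit 11) (.e (nat_lit 24636) (nat_lit 9) .nil)))))) (.g (nat_lit 1) (.e (nat_lit 378967) (nat_lit 0) .nil) .nil))))) (.nd (nat_lit 8) (.nd (nat_lit 9) 
(.lf (nat_lit 580768) (.g (nat_lit 2989) (.e (nat_lit 336430) (nat_lit 29) (.e (nat_lit 442425) (nat_lit 23) (.e (nat_lit 204831) (nat_lit 18) (.e (nat_lit 57691) (nat_lit 156) (.e (nat_lit 163907) (nat_lit 12) (.e (nat_lit 426479) (nat_lit 27) .nil)))))) (.g (nat_lit 1) (.e (nat_lit 377906) (nat_lit 0) .nil) .nil))) 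
(.lf (nat_lit 581280) (.g (nat_lit 3173) (.e (nat_lit 336443) (nat_lit 32) (.e (nat_lit 466972) (nat_lit 21) (.e (nat_lit 164330) (nat_lit 230) (.e (nat_lit 163880) (nat_lit 4) (.e (nat_lit 213030) (nat_lit 11) (.e (nat_lit 24629) (nat_lit 9) .nil)))))) (.g (nat_lit 1) (.e (nat_lit 378759) (nat_lit 0) .nil) .nil)))) (.nd (nat_lit 9) 
(.lf (nat_lit 581024) (.g (nat_lit 738) (.e (nat_lit 336442) (nat_lit 32) (.e (nat_lit 466969) (nat_lit 21) (.e (nat_lit 164345) (nat_lit 240) (.e (nat_lit 2640) (nat_lit 165) .nil)))) (.g (nat_lit 0) (.e (nat_lit 378467) (nat_lit 0) .nil) .nil))) 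
(.lf (nat_lit 581536) (.g (nat_lit 1266) (.e (nat_lit 336454) (nat_lit 34) (.e (nat_lit 483383) (nat_lit 23) (.e (nat_lit 336325) (nat_lit 18) (.e (nat_lit 204830) (nat_lit 18) .nil)))) (.g (nat_lit 0) (.e (nat_lit 379189) (nat_lit 0) .nil) .nil)))))) (.nd (nat_lit 7) (.nd (nat_lit 8) (.nd (nat_lit 9) 
(.lf (nat_lit 580704) (.g (nat_lit 1889) (.e (nat_lit 336429) (nat_lit 29) (.e (nat_lit 442419) (nat_lit 21) (.e (nat_lit 164346) (nat_lit 240) (.e (nat_lit 2638) (nat_lit 165) (.e (nat_lit 180276) (nat_lit 32) (.e (nat_lit 1517) (nat_lit 108) .nil)))))) (.g (nat_lit 1) (.e (nat_lit 377796) (nat_lit 0) .nil) .nil))) 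
(.lf (nat_lit 581216) (.g (nat_lit 1409) (.e (nat_lit 336443) (nat_lit 32) (.e (nat_lit 466971) (nat_lit 21) (.e (nat_lit 164329) (nat_lit 230) (.e (nat_lit 163878) (nat_lit 4) (.e (nat_lit 213032) (nat_lit 11) .nil))))) (.g (nat_lit 0) (.e (nat_lit 378694) (nat_lit 0) .nil) .nil)))) (.nd (nat_lit 9) 
(.lf (nat_lit 580960) (.g (nat_lit 925) (.e (nat_lit 336434) (nat_lit 30) (.e (nat_lit 450579) (nat_lit 5) (.e (nat_lit 532504) (nat_lit 1) (.e (nat_lit 57692) (nat_lit 156) .nil)))) (.g (nat_lit 0) (.e (nat_lit 378263) (nat_lit 0) .nil) .nil))) 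
(.lf (nat_lit 581472) (.g (nat_lit 3204) (.e (nat_lit 336454) (nat_lit 34) (.e (nat_lit 483365) (nat_lit 18) (.e (nat_lit 57851) (nat_lit 252) (.e (nat_lit 57371) (nat_lit 2) (.e (nat_lit 90158) (nat_lit 11) (.e (nat_lit 24630) (nat_lit 9) .nil)))))) (.g (nat_lit 1) (.e (nat_lit 379099) (nat_lit 0) .nil) .nil))))) (.nd (nat_lit 8) (.nd (nat_lit 9) 
(.lf (nat_lit 580832) (.g (nat_lit 3213) (.e (nat_lit 336432) (nat_lit 30) (.e (nat_lit 450565) (nat_lit 0) (.e (nat_lit 5548) (nat_lit 306) (.e (nat_lit 2640) (nat_lit 165) (.e (nat_lit 180277) (nat_lit 32) (.e (nat_lit 1427) (nat_lit 108) .nil)))))) (.g (nat_lit 1) (.e (nat_lit 378032) (nat_lit 0) .nil) .nil))) 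
(.lf (nat_lit 581344) (.g (nat_lit 1805) (.e (nat_lit 336444) (nat_lit 32) (.e (nat_lit 466971) (nat_lit 21) (.e (nat_lit 164322) (nat_lit 230) (.e (nat_lit 163878) (nat_lit 4) (.e (nat_lit 213032) (nat_lit 11) .nil))))) (.g (nat_lit 0) (.e (nat_lit 378835) (nat_lit 0) .nil) .nil)))) (.nd (nat_lit 9) 
(.lf (nat_lit 581088) (.g (nat_lit 2548) (.e (nat_lit 336443) (nat_lit 32) (.e (nat_lit 466969) (nat_lit 21) (.e (nat_lit 164329) (nat_lit 230) (.e (nat_lit 163843) (nat_lit 0) (.e (nat_lit 3617) (nat_lit 227) (.e (nat_lit 778462) (nat_lit 11) (.e (nat_lit 24628) (nat_lit 9) .nil))))))) (.g (nat_lit 1) (.e (nat_lit 378566) (nat_lit 0) .nil) .nil))) 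
(.lf (nat_lit 581600) (.g (nat_lit 950) (.e (nat_lit 336455) (nat_lit 34) (.e (nat_lit 483407) (nat_lit 26) (.e (nat_lit 385066) (nat_lit 26) (.e (nat_lit 532502) (nat_lit 1) .nil)))) (.g (nat_lit 0) (.e (nat_lit 379294) (nat_lit 0) .nil) .nil)))))))) (.nd (nat_lit 5) (.nd (nat_lit 6) (.nd (nat_lit 7) (.nd (nat_lit 8) (.nd (nat_lit 9) 
(.lf (nat_lit 580624) (.g (nat_lit 1973) (.e (nat_lit 336415) (nat_lit 27) (.e (nat_lit 426098) (nat_lit 1) (.e (nat_lit 164327) (nat_lit 230) (.e (nat_lit 163871) (nat_lit 2) (.e (nat_lit 196654) (nat_lit 11) .nil))))) (.g (nat_lit 0) (.e (nat_lit 377618) (nat_lit 0) .nil) .nil))) 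
(.lf (nat_lit 581136) (.g (nat_lit 2258) (.e (nat_lit 336443) (nat_lit 32) (.e (nat_lit 466969) (nat_lit 21) (.e (nat_lit 164332) (nat_lit 230) (.e (nat_lit 163885) (nat_lit 5) (.e (nat_lit 221193) (nat_lit 11) (.e (nat_lit 336075) (nat_lit 9) .nil)))))) (.g (nat_lit 1) (.e (nat_lit 378614) (nat_lit 0) .nil) .nil)))) (.nd (nat_lit 9) 
(.lf (nat_lit 580880) (.g (nat_lit 4012) (.e (nat_lit 336432) (nat_lit 30) (.e (nat_lit 450586) (nat_lit 10) (.e (nat_lit 573474) (nat_lit 12) (.e (nat_lit 57354) (nat_lit 0) (.e (nat_lit 5219) (nat_lit 296) .nil))))) (.g (nat_lit 0) (.e (nat_lit 378105) (nat_lit 0) .nil) .nil))) 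
(.lf (nat_lit 581392) (.g (nat_lit 2244) (.e (nat_lit 336452) (nat_lit 34) (.e (nat_lit 483408) (nat_lit 26) (.e (nat_lit 385068) (nat_lit 26) (.e (nat_lit 532501) (nat_lit 1) .nil)))) (.g (nat_lit 0) (.e (nat_lit 378949) (nat_lit 0) .nil) .nil))))) (.nd (nat_lit 8) (.nd (nat_lit 9) 
(.lf (nat_lit 580752) (.g (nat_lit 2770) (.e (nat_lit 336430) (nat_lit 29) (.e (nat_lit 442421) (nat_lit 21) (.e (nat_lit 164347) (nat_lit 240) (.e (nat_lit 2638) (nat_lit 165) (.e (nat_lit 180277) (nat_lit 32) (.e (nat_lit 1426) (nat_lit 108) .nil)))))) (.g (nat_lit 1) (.e (nat_lit 377889) (nat_lit 0) .nil) .nil))) 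
(.lf (nat_lit 581264) (.g (nat_lit 2120) (.e (nat_lit 336443) (nat_lit 32) (.e (nat_lit 466971) (nat_lit 21) (.e (nat_lit 164348) (nat_lit 240) (.e (nat_lit 2638) (nat_lit 165) (.e (nat_lit 188160) (nat_lit 32) (.e (nat_lit 1419) (nat_lit 108) .nil)))))) (.g (nat_lit 1) (.e (nat_lit 378743) (nat_lit 0) .nil) .nil)))) (.nd (nat_lit 9) 
(.lf (nat_lit 581008) (.g (nat_lit 1302) (.e (nat_lit 336440) (nat_lit 32) (.e (nat_lit 466971) (nat_lit 21) (.e (nat_lit 164327) (nat_lit 230) (.e (nat_lit 163886) (nat_lit 5) .nil)))) (.g (nat_lit 0) (.e (nat_lit 378441) (nat_lit 0) .nil) .nil))) 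
(.lf (nat_lit 581520) (.g (nat_lit 2464) (.e (nat_lit 336454) (nat_lit 34) (.e (nat_lit 483383) (nat_lit 23) (.e (nat_lit 336019) (nat_lit 3) (.e (nat_lit 98333) (nat_lit 18) (.e (nat_lit 164161) (nat_lit 152) .nil))))) (.g (nat_lit 0) (.e (nat_lit 379170) (nat_lit 0) .nil) .nil)))))) (.nd (nat_lit 7) (.nd (nat_lit 8) (.nd (nat_lit 9) 
(.lf (nat_lit 580688) (.g (nat_lit 2085) (.e (nat_lit 336427) (nat_lit 29) (.e (nat_lit 442421) (nat_lit 21) (.e (nat_lit 164326) (nat_lit 230) (.e (nat_lit 163882) (nat_lit 4) (.e (nat_lit 213030) (nat_lit 11) (.e (nat_lit 24629) (nat_lit 9) .nil)))))) (.g (nat_lit 1) (.e (nat_lit 377729) (nat_lit 0) .nil) .nil))) 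
(.lf (nat_lit 581200) (.g (nat_lit 3021) (.e (nat_lit 336443) (nat_lit 32) (.e (nat_lit 466971) (nat_lit 21) (.e (nat_lit 164326) (nat_lit 230) (.e (nat_lit 163884) (nat_lit 5) (.e (nat_lit 221194) (nat_lit 11) (.e (nat_lit 336084) (nat_lit 9) .nil)))))) (.g (nat_lit 1) (.e (nat_lit 378678) (nat_lit 0) .nil) .nil)))) (.nd (nat_lit 9) 
(.lf (nat_lit 580944) (.g (nat_lit 240) (.e (nat_lit 336434) (nat_lit 30) (.e (nat_lit 450579) (nat_lit 5) (.e (nat_lit 532503) (nat_lit 1) .nil))) (.g (nat_lit 0) (.e (nat_lit 378239) (nat_lit 0) .nil) .nil))) 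
(.lf (nat_lit 581456) (.g (nat_lit 3296) (.e (nat_lit 336454) (nat_lit 34) (.e (nat_lit 483365) (nat_lit 18) (.e (nat_lit 57846) (nat_lit 252) (.e (nat_lit 57372) (nat_lit 2) (.e (nat_lit 90160) (nat_lit 11) (.e (nat_lit 32512) (nat_lit 9) .nil)))))) (.g (nat_lit 1) (.e (nat_lit 379080) (nat_lit 0) .nil) .nil))))) (.nd (nat_lit 8) (.nd (nat_lit 9) 
(.lf (nat_lit 580816) (.g (nat_lit 1605) (.e (nat_lit 336432) (nat_lit 30) (.e (nat_lit 450564) (nat_lit 0) (.e (nat_lit 5548) (nat_lit 306) (.e (nat_lit 2640) (nat_lit 165) .nil)))) (.g (nat_lit 0) (.e (nat_lit 378010) (nat_lit 0) .nil) .nil))) 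
(.lf (nat_lit 581328) (.g (nat_lit 1535) (.e (nat_lit 336443) (nat_lit 32) (.e (nat_lit 466981) (nat_lit 23) (.e (nat_lit 204808) (nat_lit 9) (.e (nat_lit 426098) (nat_lit 1) (.e (nat_lit 164403) (nat_lit 256) .nil))))) (.g (nat_lit 0) (.e (nat_lit 378809) (nat_lit 0) .nil) .nil)))) (.nd (nat_lit 9) 
(.lf (nat_lit 581072) (.g (nat_lit 3394) (.e (nat_lit 336443) (nat_lit 32) (.e (nat_lit 466969) (nat_lit 21) (.e (nat_lit 164326) (nat_lit 230) (.e (nat_lit 163884) (nat_lit 5) (.e (nat_lit 221194) (nat_lit 11) (.e (nat_lit 336074) (nat_lit 9) .nil)))))) (.g (nat_lit 1) (.e (nat_lit 378550) (nat_lit 0) .nil) .nil))) 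
(.lf (nat_lit 581584) (.g (nat_lit 1302) (.e (nat_lit 336455) (nat_lit 34) (.e (nat_lit 483380) (nat_lit 23) (.e (nat_lit 336326) (nat_lit 18) (.e (nat_lit 204831) (nat_lit 18) .nil)))) (.g (nat_lit 0) (.e (nat_lit 379268) (nat_lit 0) .nil) .nil))))))) (.nd (nat_lit 6) (.nd (nat_lit 7) (.nd (nat_lit 8) (.nd (nat_lit 9) 
(.lf (nat_lit 580656) (.g (nat_lit 2387) (.e (nat_lit 336426) (nat_lit 29) (.e (nat_lit 442421) (nat_lit 21) (.e (nat_lit 164322) (nat_lit 230) (.e (nat_lit 163878) (nat_lit 4) (.e (nat_lit 213030) (nat_lit 11) (.e (nat_lit 24629) (nat_lit 9) .nil)))))) (.g (nat_lit 1) (.e (nat_lit 377691) (nat_lit 0) .nil) .nil))) 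
(.lf (nat_lit 581168) (.g (nat_lit 3470) (.e (nat_lit 336443) (nat_lit 32) (.e (nat_lit 466971) (nat_lit 21) (.e (nat_lit 164322) (nat_lit 230) (.e (nat_lit 163885) (nat_lit 5) (.e (nat_lit 221194) (nat_lit 11) (.e (nat_lit 336074) (nat_lit 9) .nil)))))) (.g (nat_lit 1) (.e (nat_lit 378646) (nat_lit 0) .nil) .nil)))) (.nd (nat_lit 9) 
(.lf (nat_lit 580912) (.g (nat_lit 1943) (.e (nat_lit 336434) (nat_lit 30) (.e (nat_lit 450564) (nat_lit 0) (.e (nat_lit 5546) (nat_lit 306) (.e (nat_lit 2640) (nat_lit 165) (.e (nat_lit 180277) (nat_lit 32) (.e (nat_lit 1425) (nat_lit 108) .nil)))))) (.g (nat_lit 1) (.e (nat_lit 378194) (nat_lit 0) .nil) .nil))) 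
(.lf (nat_lit 581424) (.g (nat_lit 937) (.e (nat_lit 336453) (nat_lit 34) (.e (nat_lit 483406) (nat_lit 26) (.e (nat_lit 385065) (nat_lit 26) .nil))) (.g (nat_lit 0) (.e (nat_lit 379022) (nat_lit 0) .nil) .nil))))) (.nd (nat_lit 8) (.nd (nat_lit 9) 
(.lf (nat_lit 580784) (.g (nat_lit 2003) (.e (nat_lit 336430) (nat_lit 29) (.e (nat_lit 442429) (nat_lit 24) (.e (nat_lit 229665) (nat_lit 240) (.e (nat_lit 2641) (nat_lit 165) (.e (nat_lit 180278) (nat_lit 32) (.e (nat_lit 1425) (nat_lit 108) .nil)))))) (.g (nat_lit 1) (.e (nat_lit 377927) (nat_lit 0) .nil) .nil))) 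
(.lf (nat_lit 581296) (.g (nat_lit 3765) (.e (nat_lit 336443) (nat_lit 32) (.e (nat_lit 466972) (nat_lit 21) (.e (nat_lit 164331) (nat_lit 230) (.e (nat_lit 163885) (nat_lit 5) (.e (nat_lit 221194) (nat_lit 11) (.e (nat_lit 336074) (nat_lit 9) .nil)))))) (.g (nat_lit 1) (.e (nat_lit 378775) (nat_lit 0) .nil) .nil)))) (.nd (nat_lit 9) 
(.lf (nat_lit 581040) (.g (nat_lit 2409) (.e (nat_lit 336443) (nat_lit 32) (.e (nat_lit 466969) (nat_lit 21) (.e (nat_lit 164322) (nat_lit 230) (.e (nat_lit 163878) (nat_lit 4) (.e (nat_lit 213030) (nat_lit 11) (.e (nat_lit 24629) (nat_lit 9) .nil)))))) (.g (nat_lit 1) (.e (nat_lit 378518) (nat_lit 0) .nil) .nil))) 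
(.lf (nat_lit 581552) (.g (nat_lit 416) (.e (nat_lit 336454) (nat_lit 34) (.e (nat_lit 483385) (nat_lit 23) (.e (nat_lit 336325) (nat_lit 18) .nil))) (.g (nat_lit 0) (.e (nat_lit 379217) (nat_lit 0) .nil) .nil)))))) (.nd (nat_lit 7) (.nd (nat_lit 8) (.nd (nat_lit 9) 
(.lf (nat_lit 580720) (.g (nat_lit 1652) (.e (nat_lit 336430) (nat_lit 29) (.e (nat_lit 442379) (nat_lit 0) (.e (nat_lit 1784) (nat_lit 119) (.e (nat_lit 516119) (nat_lit 1) (.e (nat_lit 164322) (nat_lit 230) .nil))))) (.g (nat_lit 0) (.e (nat_lit 377842) (nat_lit 0) .nil) .nil))) 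
(.lf (nat_lit 581232) (.g (nat_lit 3370) (.e (nat_lit 336443) (nat_lit 32) (.e (nat_lit 466971) (nat_lit 21) (.e (nat_lit 164332) (nat_lit 230) (.e (nat_lit 163880) (nat_lit 4) (.e (nat_lit 213032) (nat_lit 11) (.e (nat_lit 24624) (nat_lit 9) .nil)))))) (.g (nat_lit 1) (.e (nat_lit 378710) (nat_lit 0) .nil) .nil)))) (.nd (nat_lit 9) 
(.lf (nat_lit 580976) (.g (nat_lit 865) (.e (nat_lit 336434) (nat_lit 30) (.e (nat_lit 450588) (nat_lit 10) (.e (nat_lit 573473) (nat_lit 12) .nil))) (.g (nat_lit 0) (.e (nat_lit 378282) (nat_lit 0) .nil) .nil))) 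
(.lf (nat_lit 581488) (.g (nat_lit 2962) (.e (nat_lit 336454) (nat_lit 34) (.e (nat_lit 483365) (nat_lit 18) (.e (nat_lit 57929) (nat_lit 282) (.e (nat_lit 163866) (nat_lit 2) (.e (nat_lit 196681) (nat_lit 17) (.e (nat_lit 131109) (nat_lit 9) .nil)))))) (.g (nat_lit 1) (.e (nat_lit 379121) (nat_lit 0) .nil) .nil))))) (.nd (nat_lit 8) (.nd (nat_lit 9) 
(.lf (nat_lit 580848) (.g (nat_lit 1858) (.e (nat_lit 336432) (nat_lit 30) (.e (nat_lit 450579) (nat_lit 5) (.e (nat_lit 532503) (nat_lit 1) (.e (nat_lit 57692) (nat_lit 156) (.e (nat_lit 163905) (nat_lit 12) .nil))))) (.g (nat_lit 0) (.e (nat_lit 378055) (nat_lit 0) .nil) .nil))) 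
(.lf (nat_lit 581360) (.g (nat_lit 1170) (.e (nat_lit 343808) (nat_lit 32) (.e (nat_lit 466972) (nat_lit 21) (.e (nat_lit 164402) (nat_lit 256) (.e (nat_lit 57400) (nat_lit 10) (.e (nat_lit 319534) (nat_lit 16) .nil))))) (.g (nat_lit 0) (.e (nat_lit 378855) (nat_lit 0) .nil) .nil)))) (.nd (nat_lit 9) 
(.lf (nat_lit 581104) (.g (nat_lit 2307) (.e (nat_lit 336443) (nat_lit 32) (.e (nat_lit 466969) (nat_lit 21) (.e (nat_lit 164330) (nat_lit 230) (.e (nat_lit 163884) (nat_lit 5) (.e (nat_lit 221193) (nat_lit 11) (.e (nat_lit 336084) (nat_lit 9) .nil)))))) (.g (nat_lit 1) (.e (nat_lit 378582) (nat_lit 0) .nil) .nil))) 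
(.lf (nat_lit 581616) (.g (nat_lit 2317) (.e (nat_lit 336456) (nat_lit 34) (.e (nat_lit 483363) (nat_lit 18) (.e (nat_lit 57853) (nat_lit 252) (.e (nat_lit 57371) (nat_lit 2) (.e (nat_lit 90160) (nat_lit 11) .nil))))) (.g (nat_lit 0) (.e (nat_lit 379312) (nat_lit 0) .nil) .nil))))))))) (.nd (nat_lit 4) (.nd (nat_lit 5) (.nd (nat_lit 6) (.nd (nat_lit 7) (.nd (nat_lit 8) (.nd (nat_lit 9) 
(.lf (nat_lit 580616) (.g (nat_lit 2595) (.e (nat_lit 336414) (nat_lit 27) (.e (nat_lit 426318) (nat_lit 12) (.e (nat_lit 475179) (nat_lit 24) (.e (nat_lit 516117) (nat_lit 1) (.e (nat_lit 164332) (nat_lit 230) (.e (nat_lit 163905) (nat_lit 12) (.e (nat_lit 426479) (nat_lit 27) .nil))))))) (.g (nat_lit 1) (.e (nat_lit 377609) (nat_lit 0) .nil) .nil))) 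
(.lf (nat_lit 581128) (.g (nat_lit 3426) (.e (nat_lit 336443) (nat_lit 32) (.e (nat_lit 466969) (nat_lit 21) (.e (nat_lit 164332) (nat_lit 230) (.e (nat_lit 163880) (nat_lit 4) (.e (nat_lit 213032) (nat_lit 11) (.e (nat_lit 24628) (nat_lit 9) .nil)))))) (.g (nat_lit 1) (.e (nat_lit 378606) (nat_lit 0) .nil) .nil)))) (.nd (nat_lit 9) 
(.lf (nat_lit 580872) (.g (nat_lit 1320) (.e (nat_lit 336432) (nat_lit 30) (.e (nat_lit 450580) (nat_lit 5) (.e (nat_lit 540416) (nat_lit 24) (.e (nat_lit 409645) (nat_lit 18) (.e (nat_lit 311040) (nat_lit 27) .nil))))) (.g (nat_lit 1) (.e (nat_lit 378095) (nat_lit 0) .nil) .nil))) 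
(.lf (nat_lit 581384) (.g (nat_lit 2171) (.e (nat_lit 336452) (nat_lit 34) (.e (nat_lit 483403) (nat_lit 26) (.e (nat_lit 385068) (nat_lit 26) (.e (nat_lit 532501) (nat_lit 1) (.e (nat_lit 57852) (nat_lit 252) .nil))))) (.g (nat_lit 0) (.e (nat_lit 378937) (nat_lit 0) .nil) .nil))))) (.nd (nat_lit 8) (.nd (nat_lit 9) 
(.lf (nat_lit 580744) (.g (nat_lit 1664) (.e (nat_lit 336430) (nat_lit 29) (.e (nat_lit 442421) (nat_lit 21) (.e (nat_lit 164331) (nat_lit 230) (.e (nat_lit 163878) (nat_lit 4) .nil)))) (.g (nat_lit 0) (.e (nat_lit 377880) (nat_lit 0) .nil) .nil))) 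
(.lf (nat_lit 581256) (.g (nat_lit 2627) (.e (nat_lit 336443) (nat_lit 32) (.e (nat_lit 466971) (nat_lit 21) (.e (nat_lit 164347) (nat_lit 240) (.e (nat_lit 2638) (nat_lit 165) (.e (nat_lit 180278) (nat_lit 32) (.e (nat_lit 1413) (nat_lit 108) .nil)))))) (.g (nat_lit 1) (.e (nat_lit 378735) (nat_lit 0) .nil) .nil)))) (.nd (nat_lit 9) 
(.lf (nat_lit 581000) (.g (nat_lit 1412) (.e (nat_lit 336440) (nat_lit 32) (.e (nat_lit 466969) (nat_lit 21) (.e (nat_lit 164332) (nat_lit 230) (.e (nat_lit 163884) (nat_lit 5) (.e (nat_lit 221192) (nat_lit 11) (.e (nat_lit 336121) (nat_lit 9) .nil)))))) (.g (nat_lit 1) (.e (nat_lit 378432) (nat_lit 0) .nil) .nil))) 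
(.lf (nat_lit 581512) (.g (nat_lit 932) (.e (nat_lit 336454) (nat_lit 34) (.e (nat_lit 483380) (nat_lit 23) (.e (nat_lit 336324) (nat_lit 18) (.e (nat_lit 204831) (nat_lit 18) .nil)))) (.g (nat_lit 0) (.e (nat_lit 379147) (nat_lit 0) .nil) .nil)))))) (.nd (nat_lit 7) (.nd (nat_lit 8) (.nd (nat_lit 9) 
(.lf (nat_lit 580680) (.g (nat_lit 1530) (.e (nat_lit 336426) (nat_lit 29) (.e (nat_lit 442430) (nat_lit 24) (.e (nat_lit 229665) (nat_lit 240) (.e (nat_lit 2643) (nat_lit 165) (.e (nat_lit 180277) (nat_lit 32) (.e (nat_lit 1426) (nat_lit 108) .nil)))))) (.g (nat_lit 1) (.e (nat_lit 377717) (nat_lit 0) .nil) .nil))) 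
(.lf (nat_lit 581192) (.g (nat_lit 2197) (.e (nat_lit 336443) (nat_lit 32) (.e (nat_lit 466971) (nat_lit 21) (.e (nat_lit 164325) (nat_lit 230) (.e (nat_lit 163885) (nat_lit 5) (.e (nat_lit 221193) (nat_lit 11) (.e (nat_lit 336084) (nat_lit 9) .nil)))))) (.g (nat_lit 1) (.e (nat_lit 378670) (nat_lit 0) .nil) .nil)))) (.nd (nat_lit 9) 
(.lf (nat_lit 580936) (.g (nat_lit 959) (.e (nat_lit 336434) (nat_lit 30) (.e (nat_lit 450579) (nat_lit 5) (.e (nat_lit 532501) (nat_lit 1) (.e (nat_lit 57690) (nat_lit 156) .nil)))) (.g (nat_lit 0) (.e (nat_lit 378227) (nat_lit 0) .nil) .nil))) 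
(.lf (nat_lit 581448) (.g (nat_lit 2053) (.e (nat_lit 336454) (nat_lit 34) (.e (nat_lit 483364) (nat_lit 18) (.e (nat_lit 57929) (nat_lit 282) (.e (nat_lit 163867) (nat_lit 2) (.e (nat_lit 196681) (nat_lit 17) (.e (nat_lit 131105) (nat_lit 9) .nil)))))) (.g (nat_lit 1) (.e (nat_lit 379070) (nat_lit 0) .nil) .nil))))) (.nd (nat_lit 8) (.nd (nat_lit 9) 
(.lf (nat_lit 580808) (.g (nat_lit 653) (.e (nat_lit 336432) (nat_lit 30) (.e (nat_lit 450564) (nat_lit 0) (.e (nat_lit 5224) (nat_lit 296) .nil))) (.g (nat_lit 0) (.e (nat_lit 377998) (nat_lit 0) .nil) .nil))) 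
(.lf (nat_lit 581320) (.g (nat_lit 3120) (.e (nat_lit 336443) (nat_lit 32) (.e (nat_lit 466979) (nat_lit 23) (.e (nat_lit 204829) (nat_lit 18) (.e (nat_lit 57691) (nat_lit 156) (.e (nat_lit 163907) (nat_lit 12) (.e (nat_lit 426479) (nat_lit 27) .nil)))))) (.g (nat_lit 1) (.e (nat_lit 378801) (nat_lit 0) .nil) .nil)))) (.nd (nat_lit 9) 
(.lf (nat_lit 581064) (.g (nat_lit 2261) (.e (nat_lit 336443) (nat_lit 32) (.e (nat_lit 466969) (nat_lit 21) (.e (nat_lit 164325) (nat_lit 230) (.e (nat_lit 163885) (nat_lit 5) (.e (nat_lit 221193) (nat_lit 11) (.e (nat_lit 336084) (nat_lit 9) .nil)))))) (.g (nat_lit 1) (.e (nat_lit 378542) (nat_lit 0) .nil) .nil))) 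
(.lf (nat_lit 581576) (.g (nat_lit 2108) (.e (nat_lit 336455) (nat_lit 34) (.e (nat_lit 483380) (nat_lit 23) (.e (nat_lit 336324) (nat_lit 18) (.e (nat_lit 204829) (nat_lit 18) .nil)))) (.g (nat_lit 0) (.e (nat_lit 379257) (nat_lit 0) .nil) .nil))))))) (.nd (nat_lit 6) (.nd (nat_lit 7) (.nd (nat_lit 8) (.nd (nat_lit 9) 
(.lf (nat_lit 580648) (.g (nat_lit 1823) (.e (nat_lit 336426) (nat_lit 29) (.e (nat_lit 442374) (nat_lit 0) (.e (nat_lit 1800) (nat_lit 119) (.e (nat_lit 516120) (nat_lit 1) (.e (nat_lit 164332) (nat_lit 230) .nil))))) (.g (nat_lit 0) (.e (nat_lit 377681) (nat_lit 0) .nil) .nil))) 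
(.lf (nat_lit 581160) (.g (nat_lit 2894) (.e (nat_lit 336443) (nat_lit 32) (.e (nat_lit 466971) (nat_lit 21) (.e (nat_lit 164322) (nat_lit 230) (.e (nat_lit 163878) (nat_lit 4) (.e (nat_lit 213032) (nat_lit 11) (.e (nat_lit 24627) (nat_lit 9) .nil)))))) (.g (nat_lit 1) (.e (nat_lit 378638) (nat_lit 0) .nil) .nil)))) (.nd (nat_lit 9) 
(.lf (nat_lit 580904) (.g (nat_lit 2648) (.e (nat_lit 336433) (nat_lit 30) (.e (nat_lit 450588) (nat_lit 10) (.e (nat_lit 573474) (nat_lit 12) (.e (nat_lit 57514) (nat_lit 42) .nil)))) (.g (nat_lit 0) (.e (nat_lit 378160) (nat_lit 0) .nil) .nil))) 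
(.lf (nat_lit 581416) (.g (nat_lit 2849) (.e (nat_lit 336453) (nat_lit 34) (.e (nat_lit 483366) (nat_lit 18) (.e (nat_lit 57854) (nat_lit 252) (.e (nat_lit 57373) (nat_lit 2) (.e (nat_lit 90160) (nat_lit 11) (.e (nat_lit 24636) (nat_lit 9) .nil)))))) (.g (nat_lit 1) (.e (nat_lit 378975) (nat_lit 0) .nil) .nil))))) (.nd (nat_lit 8) (.nd (nat_lit 9) 
(.lf (nat_lit 580776) (.g (nat_lit 3071) (.e (nat_lit 336430) (nat_lit 29) (.e (nat_lit 442427) (nat_lit 23) (.e (nat_lit 204831) (nat_lit 18) (.e (nat_lit 57692) (nat_lit 156) (.e (nat_lit 163905) (nat_lit 12) (.e (nat_lit 426479) (nat_lit 27) .nil)))))) (.g (nat_lit 1) (.e (nat_lit 377914) (nat_lit 0) .nil) .nil))) 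
(.lf (nat_lit 581288) (.g (nat_lit 3530) (.e (nat_lit 336443) (nat_lit 32) (.e (nat_lit 466972) (nat_lit 21) (.e (nat_lit 164330) (nat_lit 230) (.e (nat_lit 163885) (nat_lit 5) (.e (nat_lit 221194) (nat_lit 11) (.e (nat_lit 336084) (nat_lit 9) .nil)))))) (.g (nat_lit 1) (.e (nat_lit 378767) (nat_lit 0) .nil) .nil)))) (.nd (nat_lit 9) 
(.lf (nat_lit 581032) (.g (nat_lit 1237) (.e (nat_lit 336442) (nat_lit 32) (.e (nat_lit 466971) (nat_lit 21) (.e (nat_lit 164332) (nat_lit 230) (.e (nat_lit 163885) (nat_lit 5) .nil)))) (.g (nat_lit 0) (.e (nat_lit 378484) (nat_lit 0) .nil) .nil))) 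
(.lf (nat_lit 581544) (.g (nat_lit 3125) (.e (nat_lit 336454) (nat_lit 34) (.e (nat_lit 483385) (nat_lit 23) (.e (nat_lit 336260) (nat_lit 15) (.e (nat_lit 3252) (nat_lit 197) (.e (nat_lit 532501) (nat_lit 1) (.e (nat_lit 57854) (nat_lit 252) (.e (nat_lit 57406) (nat_lit 12) .nil))))))) (.g (nat_lit 1) (.e (nat_lit 379207) (nat_lit 0) .nil) .nil)))))) 
(.nd (nat_lit 7) (.nd (nat_lit 8) (.nd (nat_lit 9) 
(.lf (nat_lit 580712) (.g (nat_lit 1502) (.e (nat_lit 336429) (nat_lit 29) (.e (nat_lit 442421) (nat_lit 21) (.e (nat_lit 164327) (nat_lit 230) (.e (nat_lit 163886) (nat_lit 5) (.e (nat_lit 221192) (nat_lit 11) .nil))))) (.g (nat_lit 0) (.e (nat_lit 377809) (nat_lit 0) .nil) .nil))) 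
(.lf (nat_lit 581224) (.g (nat_lit 2385) (.e (nat_lit 336443) (nat_lit 32) (.e (nat_lit 466971) (nat_lit 21) (.e (nat_lit 164331) (nat_lit 230) (.e (nat_lit 163885) (nat_lit 5) (.e (nat_lit 221193) (nat_lit 11) (.e (nat_lit 336084) (nat_lit 9) .nil)))))) (.g (nat_lit 1) (.e (nat_lit 378702) (nat_lit 0) .nil) .nil)))) (.nd (nat_lit 9) 
(.lf (nat_lit 580968) (.g (nat_lit 1510) (.e (nat_lit 336434) (nat_lit 30) (.e (nat_lit 450586) (nat_lit 10) (.e (nat_lit 573473) (nat_lit 12) (.e (nat_lit 57350) (nat_lit 0) .nil)))) (.g (nat_lit 0) (.e (nat_lit 378272) (nat_lit 0) .nil) .nil))) 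
(.lf (nat_lit 581480) (.g (nat_lit 3546) (.e (nat_lit 336454) (nat_lit 34) (.e (nat_lit 483365) (nat_lit 18) (.e (nat_lit 57853) (nat_lit 252) (.e (nat_lit 57371) (nat_lit 2) (.e (nat_lit 90158) (nat_lit 11) (.e (nat_lit 24630) (nat_lit 9) .nil)))))) (.g (nat_lit 1) (.e (nat_lit 379107) (nat_lit 0) .nil) .nil))))) (.nd (nat_lit 8) (.nd (nat_lit 9) 
(.lf (nat_lit 580840) (.g (nat_lit 2128) (.e (nat_lit 336432) (nat_lit 30) (.e (nat_lit 450579) (nat_lit 5) (.e (nat_lit 532499) (nat_lit 1) (.e (nat_lit 57692) (nat_lit 156) (.e (nat_lit 163907) (nat_lit 12) (.e (nat_lit 426479) (nat_lit 27) .nil)))))) (.g (nat_lit 1) (.e (nat_lit 378045) (nat_lit 0) .nil) .nil))) 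
(.lf (nat_lit 581352) (.g (nat_lit 558) (.e (nat_lit 336444) (nat_lit 32) (.e (nat_lit 466971) (nat_lit 21) (.e (nat_lit 164329) (nat_lit 230) .nil))) (.g (nat_lit 0) (.e (nat_lit 378843) (nat_lit 0) .nil) .nil)))) (.nd (nat_lit 9) 
(.lf (nat_lit 581096) (.g (nat_lit 2657) (.e (nat_lit 336443) (nat_lit 32) (.e (nat_lit 466969) (nat_lit 21) (.e (nat_lit 164330) (nat_lit 230) (.e (nat_lit 163878) (nat_lit 4) (.e (nat_lit 213030) (nat_lit 11) (.e (nat_lit 24629) (nat_lit 9) .nil)))))) (.g (nat_lit 1) (.e (nat_lit 378574) (nat_lit 0) .nil) .nil))) 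
(.lf (nat_lit 581608) (.g (nat_lit 3420) (.e (nat_lit 336456) (nat_lit 34) (.e (nat_lit 483363) (nat_lit 18) (.e (nat_lit 57847) (nat_lit 252) (.e (nat_lit 57372) (nat_lit 2) (.e (nat_lit 90160) (nat_lit 11) (.e (nat_lit 24628) (nat_lit 9) .nil)))))) (.g (nat_lit 1) (.e (nat_lit 379304) (nat_lit 0) .nil) .nil)))))))) 
(.nd (nat_lit 5) (.nd (nat_lit 6) (.nd (nat_lit 7) (.nd (nat_lit 8) (.nd (nat_lit 9) 
(.lf (nat_lit 580632) (.g (nat_lit 1821) (.e (nat_lit 336420) (nat_lit 28) (.e (nat_lit 434181) (nat_lit 0) (.e (nat_lit 1427) (nat_lit 108) (.e (nat_lit 336421) (nat_lit 28) (.e (nat_lit 434179) (nat_lit 0) (.e (nat_lit 1517) (nat_lit 108) .nil)))))) (.g (nat_lit 1) (.e (nat_lit 377642) (nat_lit 0) .nil) .nil))) 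
(.lf (nat_lit 581144) (.g (nat_lit 3166) (.e (nat_lit 336443) (nat_lit 32) (.e (nat_lit 466969) (nat_lit 21) (.e (nat_lit 164347) (nat_lit 240) (.e (nat_lit 2619) (nat_lit 164) (.e (nat_lit 172124) (nat_lit 14) (.e (nat_lit 491548) (nat_lit 9) .nil)))))) (.g (nat_lit 1) (.e (nat_lit 378622) (nat_lit 0) .nil) .nil)))) (.nd (nat_lit 9) 
(.lf (nat_lit 580888) (.g (nat_lit 2439) (.e (nat_lit 336432) (nat_lit 30) (.e (nat_lit 450588) (nat_lit 10) (.e (nat_lit 573473) (nat_lit 12) (.e (nat_lit 57354) (nat_lit 0) .nil)))) (.g (nat_lit 0) (.e (nat_lit 378115) (nat_lit 0) .nil) .nil))) 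
(.lf (nat_lit 581400) (.g (nat_lit 2786) (.e (nat_lit 336453) (nat_lit 34) (.e (nat_lit 483364) (nat_lit 18) (.e (nat_lit 57854) (nat_lit 252) (.e (nat_lit 57373) (nat_lit 2) (.e (nat_lit 90160) (nat_lit 11) (.e (nat_lit 24636) (nat_lit 9) .nil)))))) (.g (nat_lit 1) (.e (nat_lit 378959) (nat_lit 0) .nil) .nil))))) (.nd (nat_lit 8) (.nd (nat_lit 9) 
(.lf (nat_lit 580760) (.g (nat_lit 2521) (.e (nat_lit 336430) (nat_lit 29) (.e (nat_lit 442425) (nat_lit 23) (.e (nat_lit 204830) (nat_lit 18) (.e (nat_lit 57685) (nat_lit 156) (.e (nat_lit 163902) (nat_lit 12) (.e (nat_lit 426479) (nat_lit 27) .nil)))))) (.g (nat_lit 1) (.e (nat_lit 377898) (nat_lit 0) .nil) .nil))) 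
(.lf (nat_lit 581272) (.g (nat_lit 3361) (.e (nat_lit 336443) (nat_lit 32) (.e (nat_lit 466972) (nat_lit 21) (.e (nat_lit 164329) (nat_lit 230) (.e (nat_lit 163884) (nat_lit 5) (.e (nat_lit 221194) (nat_lit 11) (.e (nat_lit 336074) (nat_lit 9) .nil)))))) (.g (nat_lit 1) (.e (nat_lit 378751) (nat_lit 0) .nil) .nil)))) (.nd (nat_lit 9) 
(.lf (nat_lit 581016) (.g (nat_lit 1121) (.e (nat_lit 336442) (nat_lit 32) (.e (nat_lit 466969) (nat_lit 21) (.e (nat_lit 164326) (nat_lit 230) (.e (nat_lit 163886) (nat_lit 5) (.e (nat_lit 221192) (nat_lit 11) (.e (nat_lit 336152) (nat_lit 9) .nil)))))) (.g (nat_lit 1) (.e (nat_lit 378459) (nat_lit 0) .nil) .nil))) 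
(.lf (nat_lit 581528) (.g (nat_lit 1197) (.e (nat_lit 336454) (nat_lit 34) (.e (nat_lit 483383) (nat_lit 23) (.e (nat_lit 336324) (nat_lit 18) (.e (nat_lit 204829) (nat_lit 18) .nil)))) (.g (nat_lit 0) (.e (nat_lit 379179) (nat_lit 0) .nil) .nil)))))) (.nd (nat_lit 7) (.nd (nat_lit 8) (.nd (nat_lit 9) 
(.lf (nat_lit 580696) (.g (nat_lit 769) (.e (nat_lit 336429) (nat_lit 29) (.e (nat_lit 442378) (nat_lit 0) (.e (nat_lit 2058) (nat_lit 142) (.e (nat_lit 704595) (nat_lit 5) .nil)))) (.g (nat_lit 0) (.e (nat_lit 377758) (nat_lit 0) .nil) .nil))) 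
(.lf (nat_lit 581208) (.g (nat_lit 3039) (.e (nat_lit 336443) (nat_lit 32) (.e (nat_lit 466971) (nat_lit 21) (.e (nat_lit 164327) (nat_lit 230) (.e (nat_lit 163882) (nat_lit 4) (.e (nat_lit 213032) (nat_lit 11) (.e (nat_lit 24629) (nat_lit 9) .nil)))))) (.g (nat_lit 1) (.e (nat_lit 378686) (nat_lit 0) .nil) .nil)))) (.nd (nat_lit 9) 
(.lf (nat_lit 580952) (.g (nat_lit 1554) (.e (nat_lit 336434) (nat_lit 30) (.e (nat_lit 450579) (nat_lit 5) (.e (nat_lit 532503) (nat_lit 1) (.e (nat_lit 57693) (nat_lit 157) (.e (nat_lit 229399) (nat_lit 12) .nil))))) (.g (nat_lit 0) (.e (nat_lit 378248) (nat_lit 0) .nil) .nil))) 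
(.lf (nat_lit 581464) (.g (nat_lit 3097) (.e (nat_lit 336454) (nat_lit 34) (.e (nat_lit 483365) (nat_lit 18) (.e (nat_lit 57848) (nat_lit 252) (.e (nat_lit 57372) (nat_lit 2) (.e (nat_lit 90160) (nat_lit 11) (.e (nat_lit 24630) (nat_lit 9) .nil)))))) (.g (nat_lit 1) (.e (nat_lit 379089) (nat_lit 0) .nil) .nil))))) (.nd (nat_lit 8) (.nd (nat_lit 9) 
(.lf (nat_lit 580824) (.g (nat_lit 3449) (.e (nat_lit 336432) (nat_lit 30) (.e (nat_lit 450565) (nat_lit 0) (.e (nat_lit 5548) (nat_lit 306) (.e (nat_lit 2629) (nat_lit 164) (.e (nat_lit 172126) (nat_lit 14) (.e (nat_lit 491549) (nat_lit 9) .nil)))))) (.g (nat_lit 1) (.e (nat_lit 378024) (nat_lit 0) .nil) .nil))) 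
(.lf (nat_lit 581336) (.g (nat_lit 2773) (.e (nat_lit 336443) (nat_lit 32) (.e (nat_lit 466981) (nat_lit 23) (.e (nat_lit 204830) (nat_lit 18) (.e (nat_lit 57691) (nat_lit 156) (.e (nat_lit 163905) (nat_lit 12) (.e (nat_lit 426478) (nat_lit 27) .nil)))))) (.g (nat_lit 1) (.e (nat_lit 378817) (nat_lit 0) .nil) .nil)))) (.nd (nat_lit 9) 
(.lf (nat_lit 581080) (.g (nat_lit 3384) (.e (nat_lit 336443) (nat_lit 32) (.e (nat_lit 466969) (nat_lit 21) (.e (nat_lit 164327) (nat_lit 230) (.e (nat_lit 163882) (nat_lit 4) (.e (nat_lit 213032) (nat_lit 11) (.e (nat_lit 24630) (nat_lit 9) .nil)))))) (.g (nat_lit 1) (.e (nat_lit 378558) (nat_lit 0) .nil) .nil))) 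
(.lf (nat_lit 581592) (.g (nat_lit 1358) (.e (nat_lit 336455) (nat_lit 34) (.e (nat_lit 483383) (nat_lit 23) (.e (nat_lit 336326) (nat_lit 18) (.e (nat_lit 204831) (nat_lit 18) .nil)))) (.g (nat_lit 0) (.e (nat_lit 379282) (nat_lit 0) .nil) .nil))))))) (.nd (nat_lit 6) (.nd (nat_lit 7) (.nd (nat_lit 8) (.nd (nat_lit 9) 
(.lf (nat_lit 580664) (.g (nat_lit 873) (.e (nat_lit 336426) (nat_lit 29) (.e (nat_lit 442421) (nat_lit 21) (.e (nat_lit 164332) (nat_lit 230) .nil))) (.g (nat_lit 0) (.e (nat_lit 377699) (nat_lit 0) .nil) .nil))) 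
(.lf (nat_lit 581176) (.g (nat_lit 2310) (.e (nat_lit 336443) (nat_lit 32) (.e (nat_lit 466971) (nat_lit 21) (.e (nat_lit 164324) (nat_lit 230) (.e (nat_lit 163885) (nat_lit 5) (.e (nat_lit 221193) (nat_lit 11) (.e (nat_lit 336077) (nat_lit 9) .nil)))))) (.g (nat_lit 1) (.e (nat_lit 378654) (nat_lit 0) .nil) .nil)))) (.nd (nat_lit 9) 
(.lf (nat_lit 580920) (.g (nat_lit 3238) (.e (nat_lit 336434) (nat_lit 30) (.e (nat_lit 450564) (nat_lit 0) (.e (nat_lit 5548) (nat_lit 306) (.e (nat_lit 2640) (nat_lit 165) (.e (nat_lit 180277) (nat_lit 32) (.e (nat_lit 1427) (nat_lit 108) .nil)))))) (.g (nat_lit 1) (.e (nat_lit 378206) (nat_lit 0) .nil) .nil))) 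
(.lf (nat_lit 581432) (.g (nat_lit 2189) (.e (nat_lit 336454) (nat_lit 34) (.e (nat_lit 483363) (nat_lit 18) (.e (nat_lit 57847) (nat_lit 252) (.e (nat_lit 57372) (nat_lit 2) (.e (nat_lit 90160) (nat_lit 11) (.e (nat_lit 32512) (nat_lit 9) .nil)))))) (.g (nat_lit 1) (.e (nat_lit 379045) (nat_lit 0) .nil) .nil))))) (.nd (nat_lit 8) (.nd (nat_lit 9) 
(.lf (nat_lit 580792) (.g (nat_lit 2440) (.e (nat_lit 336431) (nat_lit 29) (.e (nat_lit 442421) (nat_lit 21) (.e (nat_lit 164326) (nat_lit 230) (.e (nat_lit 163881) (nat_lit 4) (.e (nat_lit 213030) (nat_lit 11) (.e (nat_lit 24629) (nat_lit 9) .nil)))))) (.g (nat_lit 1) (.e (nat_lit 377941) (nat_lit 0) .nil) .nil))) 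
(.lf (nat_lit 581304) (.g (nat_lit 3430) (.e (nat_lit 336443) (nat_lit 32) (.e (nat_lit 466972) (nat_lit 21) (.e (nat_lit 164332) (nat_lit 230) (.e (nat_lit 163880) (nat_lit 4) (.e (nat_lit 213032) (nat_lit 11) (.e (nat_lit 24624) (nat_lit 9) .nil)))))) (.g (nat_lit 1) (.e (nat_lit 378783) (nat_lit 0) .nil) .nil)))) (.nd (nat_lit 9) 
(.lf (nat_lit 581048) (.g (nat_lit 2403) (.e (nat_lit 336443) (nat_lit 32) (.e (nat_lit 466969) (nat_lit 21) (.e (nat_lit 164324) (nat_lit 230) (.e (nat_lit 163885) (nat_lit 5) (.e (nat_lit 221193) (nat_lit 11) (.e (nat_lit 336077) (nat_lit 9) .nil)))))) (.g (nat_lit 1) (.e (nat_lit 378526) (nat_lit 0) .nil) .nil))) 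
(.lf (nat_lit 581560) (.g (nat_lit 1023) (.e (nat_lit 336454) (nat_lit 34) (.e (nat_lit 483403) (nat_lit 26) (.e (nat_lit 385066) (nat_lit 26) (.e (nat_lit 532504) (nat_lit 1) .nil)))) (.g (nat_lit 0) (.e (nat_lit 379231) (nat_lit 0) .nil) .nil)))))) (.nd (nat_lit 7) (.nd (nat_lit 8) (.nd (nat_lit 9) 
(.lf (nat_lit 580728) (.g (nat_lit 1652) (.e (nat_lit 336430) (nat_lit 29) (.e (nat_lit 442419) (nat_lit 21) (.e (nat_lit 164331) (nat_lit 230) (.e (nat_lit 163878) (nat_lit 4) .nil)))) (.g (nat_lit 0) (.e (nat_lit 377854) (nat_lit 0) .nil) .nil))) 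
(.lf (nat_lit 581240) (.g (nat_lit 2663) (.e (nat_lit 336443) (nat_lit 32) (.e (nat_lit 466971) (nat_lit 21) (.e (nat_lit 164332) (nat_lit 230) (.e (nat_lit 163884) (nat_lit 5) (.e (nat_lit 221193) (nat_lit 11) (.e (nat_lit 336084) (nat_lit 9) .nil)))))) (.g (nat_lit 1) (.e (nat_lit 378718) (nat_lit 0) .nil) .nil)))) (.nd (nat_lit 9) 
(.lf (nat_lit 580984) (.g (nat_lit 999) (.e (nat_lit 336437) (nat_lit 31) (.e (nat_lit 458769) (nat_lit 16) (.e (nat_lit 164293) (nat_lit 224) (.e (nat_lit 164112) (nat_lit 118) (.e (nat_lit 794635) (nat_lit 11) (.e (nat_lit 336152) (nat_lit 9) .nil)))))) (.g (nat_lit 1) (.e (nat_lit 378409) (nat_lit 0) .nil) .nil))) 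
(.lf (nat_lit 581496) (.g (nat_lit 3446) (.e (nat_lit 336454) (nat_lit 34) (.e (nat_lit 483366) (nat_lit 18) (.e (nat_lit 57848) (nat_lit 252) (.e (nat_lit 57374) (nat_lit 2) (.e (nat_lit 90158) (nat_lit 11) (.e (nat_lit 24625) (nat_lit 9) .nil)))))) (.g (nat_lit 1) (.e (nat_lit 379129) (nat_lit 0) .nil) .nil))))) (.nd (nat_lit 8) (.nd (nat_lit 9) 
(.lf (nat_lit 580856) (.g (nat_lit 3081) (.e (nat_lit 336432) (nat_lit 30) (.e (nat_lit 450580) (nat_lit 5) (.e (nat_lit 532499) (nat_lit 1) (.e (nat_lit 57687) (nat_lit 156) (.e (nat_lit 163902) (nat_lit 12) (.e (nat_lit 426479) (nat_lit 27) .nil)))))) (.g (nat_lit 1) (.e (nat_lit 378066) (nat_lit 0) .nil) .nil))) 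
(.lf (nat_lit 581368) (.g (nat_lit 2507) (.e (nat_lit 336451) (nat_lit 34) (.e (nat_lit 483365) (nat_lit 18) (.e (nat_lit 57854) (nat_lit 252) (.e (nat_lit 57373) (nat_lit 2) (.e (nat_lit 90160) (nat_lit 11) (.e (nat_lit 24636) (nat_lit 9) .nil)))))) (.g (nat_lit 1) (.e (nat_lit 378876) (nat_lit 0) .nil) .nil)))) (.nd (nat_lit 9) 
(.lf (nat_lit 581112) (.g (nat_lit 3784) (.e (nat_lit 336443) (nat_lit 32) (.e (nat_lit 466969) (nat_lit 21) (.e (nat_lit 164331) (nat_lit 230) (.e (nat_lit 163884) (nat_lit 5) (.e (nat_lit 221194) (nat_lit 11) (.e (nat_lit 336074) (nat_lit 9) .nil)))))) (.g (nat_lit 1) (.e (nat_lit 378590) (nat_lit 0) .nil) .nil))) 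
(.lf (nat_lit 581624) (.g (nat_lit 1984) (.e (nat_lit 336456) (nat_lit 34) (.e (nat_lit 483364) (nat_lit 18) (.e (nat_lit 57851) (nat_lit 252) (.e (nat_lit 57371) (nat_lit 2) (.e (nat_lit 90158) (nat_lit 11) .nil))))) (.g (nat_lit 0) (.e (nat_lit 379321) (nat_lit 0) .nil) .nil)))))))))) 
(.nd (nat_lit 3) (.nd (nat_lit 4) (.nd (nat_lit 5) (.nd (nat_lit 6) (.nd (nat_lit 7) 
(.nd (nat_lit 8) (.nd (nat_lit 9) 
(.lf (nat_lit 580612) (.g (nat_lit 2126) (.e (nat_lit 336414) (nat_lit 27) (.e (nat_lit 426232) (nat_lit 9) (.e (nat_lit 426435) (nat_lit 18) (.e (nat_lit 98335) (nat_lit 18) (.e (nat_lit 164325) (nat_lit 230) (.e (nat_lit 163903) (nat_lit 12) (.e (nat_lit 426479) (nat_lit 27) .nil))))))) (.g (nat_lit 1) (.e (nat_lit 377604) (nat_lit 0) .nil) .nil))) 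
(.lf (nat_lit 581124) (.g (nat_lit 3289) (.e (nat_lit 336443) (nat_lit 32) (.e (nat_lit 466969) (nat_lit 21) (.e (nat_lit 164332) (nat_lit 230) (.e (nat_lit 163880) (nat_lit 4) (.e (nat_lit 213030) (nat_lit 11) (.e (nat_lit 24630) (nat_lit 9) .nil)))))) (.g (nat_lit 1) (.e (nat_lit 378602) (nat_lit 0) .nil) .nil)))) (.nd (nat_lit 9) 
(.lf (nat_lit 580868) (.g (nat_lit 1397) (.e (nat_lit 336432) (nat_lit 30) (.e (nat_lit 450580) (nat_lit 5) (.e (nat_lit 532503) (nat_lit 1) (.e (nat_lit 57692) (nat_lit 156) .nil)))) (.g (nat_lit 0) (.e (nat_lit 378088) (nat_lit 0) .nil) .nil))) 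
(.lf (nat_lit 581380) (.g (nat_lit 3127) (.e (nat_lit 336452) (nat_lit 34) (.e (nat_lit 483383) (nat_lit 23) (.e (nat_lit 336324) (nat_lit 18) (.e (nat_lit 204831) (nat_lit 18) (.e (nat_lit 57852) (nat_lit 252) .nil))))) (.g (nat_lit 0) (.e (nat_lit 378930) (nat_lit 0) .nil) .nil))))) (.nd (nat_lit 8) (.nd (nat_lit 9) 
(.lf (nat_lit 580740) (.g (nat_lit 598) (.e (nat_lit 336430) (nat_lit 29) (.e (nat_lit 442421) (nat_lit 21) (.e (nat_lit 164324) (nat_lit 230) .nil))) (.g (nat_lit 0) (.e (nat_lit 377875) (nat_lit 0) .nil) .nil))) 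
(.lf (nat_lit 581252) (.g (nat_lit 2251) (.e (nat_lit 336443) (nat_lit 32) (.e (nat_lit 466971) (nat_lit 21) (.e (nat_lit 164346) (nat_lit 240) (.e (nat_lit 2638) (nat_lit 165) (.e (nat_lit 180278) (nat_lit 32) (.e (nat_lit 1425) (nat_lit 108) .nil)))))) (.g (nat_lit 1) (.e (nat_lit 378731) (nat_lit 0) .nil) .nil)))) (.nd (nat_lit 9) 
(.lf (nat_lit 580996) (.g (nat_lit 457) (.e (nat_lit 336440) (nat_lit 32) (.e (nat_lit 466969) (nat_lit 21) (.e (nat_lit 164325) (nat_lit 230) .nil))) (.g (nat_lit 0) (.e (nat_lit 378428) (nat_lit 0) .nil) .nil))) 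
(.lf (nat_lit 581508) (.g (nat_lit 985) (.e (nat_lit 336454) (nat_lit 34) (.e (nat_lit 483380) (nat_lit 23) (.e (nat_lit 336261) (nat_lit 15) .nil))) (.g (nat_lit 0) (.e (nat_lit 379141) (nat_lit 0) .nil) .nil)))))) (.nd (nat_lit 7) (.nd (nat_lit 8) (.nd (nat_lit 9) 
(.lf (nat_lit 580676) (.g (nat_lit 1816) (.e (nat_lit 336426) (nat_lit 29) (.e (nat_lit 442430) (nat_lit 24) (.e (nat_lit 229664) (nat_lit 240) (.e (nat_lit 2641) (nat_lit 165) (.e (nat_lit 180278) (nat_lit 32) (.e (nat_lit 1413) (nat_lit 108) .nil)))))) (.g (nat_lit 1) (.e (nat_lit 377713) (nat_lit 0) .nil) .nil))) 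
(.lf (nat_lit 581188) (.g (nat_lit 2551) (.e (nat_lit 336443) (nat_lit 32) (.e (nat_lit 466971) (nat_lit 21) (.e (nat_lit 164325) (nat_lit 230) (.e (nat_lit 163884) (nat_lit 5) (.e (nat_lit 221193) (nat_lit 11) (.e (nat_lit 336084) (nat_lit 9) .nil)))))) (.g (nat_lit 1) (.e (nat_lit 378666) (nat_lit 0) .nil) .nil)))) (.nd (nat_lit 9) 
(.lf (nat_lit 580932) (.g (nat_lit 1016) (.e (nat_lit 336434) (nat_lit 30) (.e (nat_lit 450579) (nat_lit 5) (.e (nat_lit 532501) (nat_lit 1) (.e (nat_lit 57668) (nat_lit 152) .nil)))) (.g (nat_lit 0) (.e (nat_lit 378222) (nat_lit 0) .nil) .nil))) 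
(.lf (nat_lit 581444) (.g (nat_lit 2479) (.e (nat_lit 336454) (nat_lit 34) (.e (nat_lit 483364) (nat_lit 18) (.e (nat_lit 57851) (nat_lit 252) (.e (nat_lit 57371) (nat_lit 2) (.e (nat_lit 90159) (nat_lit 11) (.e (nat_lit 24627) (nat_lit 9) .nil)))))) (.g (nat_lit 1) (.e (nat_lit 379064) (nat_lit 0) .nil) .nil))))) (.nd (nat_lit 8) (.nd (nat_lit 9) 
(.lf (nat_lit 580804) (.g (nat_lit 1489) (.e (nat_lit 336431) (nat_lit 29) (.e (nat_lit 442430) (nat_lit 24) (.e (nat_lit 229680) (nat_lit 244) (.e (nat_lit 163896) (nat_lit 10) .nil)))) (.g (nat_lit 0) (.e (nat_lit 377964) (nat_lit 0) .nil) .nil))) 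
(.lf (nat_lit 581316) (.g (nat_lit 2708) (.e (nat_lit 336443) (nat_lit 32) (.e (nat_lit 466979) (nat_lit 23) (.e (nat_lit 204829) (nat_lit 18) (.e (nat_lit 57688) (nat_lit 156) (.e (nat_lit 163903) (nat_lit 12) (.e (nat_lit 426478) (nat_lit 27) .nil)))))) (.g (nat_lit 1) (.e (nat_lit 378797) (nat_lit 0) .nil) .nil)))) (.nd (nat_lit 9) 
(.lf (nat_lit 581060) (.g (nat_lit 3594) (.e (nat_lit 336443) (nat_lit 32) (.e (nat_lit 466969) (nat_lit 21) (.e (nat_lit 164325) (nat_lit 230) (.e (nat_lit 163884) (nat_lit 5) (.e (nat_lit 221194) (nat_lit 11) (.e (nat_lit 336074) (nat_lit 9) .nil)))))) (.g (nat_lit 1) (.e (nat_lit 378538) (nat_lit 0) .nil) .nil))) 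
(.lf (nat_lit 581572) (.g (nat_lit 1369) (.e (nat_lit 336455) (nat_lit 34) (.e (nat_lit 483365) (nat_lit 18) (.e (nat_lit 57846) (nat_lit 252) (.e (nat_lit 57372) (nat_lit 2) .nil)))) (.g (nat_lit 0) (.e (nat_lit 379253) (nat_lit 0) .nil) .nil))))))) (.nd (nat_lit 6) (.nd (nat_lit 7) (.nd (nat_lit 8) (.nd (nat_lit 9) 
(.lf (nat_lit 580644) (.g (nat_lit 477) (.e (nat_lit 336425) (nat_lit 28) (.e (nat_lit 434286) (nat_lit 42) (.e (nat_lit 688177) (nat_lit 16) .nil))) (.g (nat_lit 0) (.e (nat_lit 377673) (nat_lit 0) .nil) .nil))) 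
(.lf (nat_lit 581156) (.g (nat_lit 2179) (.e (nat_lit 336443) (nat_lit 32) (.e (nat_lit 466969) (nat_lit 21) (.e (nat_lit 164348) (nat_lit 240) (.e (nat_lit 2638) (nat_lit 165) (.e (nat_lit 188160) (nat_lit 32) (.e (nat_lit 1419) (nat_lit 108) .nil)))))) (.g (nat_lit 1) (.e (nat_lit 378634) (nat_lit 0) .nil) .nil)))) (.nd (nat_lit 9) 
(.lf (nat_lit 580900) (.g (nat_lit 2603) (.e (nat_lit 336432) (nat_lit 30) (.e (nat_lit 450588) (nat_lit 10) (.e (nat_lit 573475) (nat_lit 12) (.e (nat_lit 57508) (nat_lit 39) .nil)))) (.g (nat_lit 0) (.e (nat_lit 378130) (nat_lit 0) .nil) .nil))) 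
(.lf (nat_lit 581412) (.g (nat_lit 2710) (.e (nat_lit 336453) (nat_lit 34) (.e (nat_lit 483365) (nat_lit 18) (.e (nat_lit 57854) (nat_lit 252) (.e (nat_lit 57371) (nat_lit 2) (.e (nat_lit 90160) (nat_lit 11) (.e (nat_lit 24636) (nat_lit 9) .nil)))))) (.g (nat_lit 1) (.e (nat_lit 378971) (nat_lit 0) .nil) .nil))))) (.nd (nat_lit 8) (.nd (nat_lit 9) 
(.lf (nat_lit 580772) (.g (nat_lit 1169) (.e (nat_lit 336430) (nat_lit 29) (.e (nat_lit 442427) (nat_lit 23) (.e (nat_lit 204830) (nat_lit 18) (.e (nat_lit 57690) (nat_lit 156) .nil)))) (.g (nat_lit 0) (.e (nat_lit 377910) (nat_lit 0) .nil) .nil))) 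
(.lf (nat_lit 581284) (.g (nat_lit 3708) (.e (nat_lit 336443) (nat_lit 32) (.e (nat_lit 466972) (nat_lit 21) (.e (nat_lit 164330) (nat_lit 230) (.e (nat_lit 163884) (nat_lit 5) (.e (nat_lit 221194) (nat_lit 11) (.e (nat_lit 336074) (nat_lit 9) .nil)))))) (.g (nat_lit 1) (.e (nat_lit 378763) (nat_lit 0) .nil) .nil)))) (.nd (nat_lit 9) 
(.lf (nat_lit 581028) (.g (nat_lit 1871) (.e (nat_lit 336442) (nat_lit 32) (.e (nat_lit 466971) (nat_lit 21) (.e (nat_lit 164322) (nat_lit 230) (.e (nat_lit 163885) (nat_lit 5) (.e (nat_lit 221191) (nat_lit 11) (.e (nat_lit 336153) (nat_lit 9) .nil)))))) (.g (nat_lit 1) (.e (nat_lit 378480) (nat_lit 0) .nil) .nil))) 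
(.lf (nat_lit 581540) (.g (nat_lit 1440) (.e (nat_lit 336454) (nat_lit 34) (.e (nat_lit 483385) (nat_lit 23) (.e (nat_lit 335973) (nat_lit 0) (.e (nat_lit 1788) (nat_lit 119) (.e (nat_lit 516118) (nat_lit 1) .nil))))) (.g (nat_lit 0) (.e (nat_lit 379203) (nat_lit 0) .nil) .nil)))))) (.nd (nat_lit 7) (.nd (nat_lit 8) (.nd (nat_lit 9) 
(.lf (nat_lit 580708) (.g (nat_lit 1375) (.e (nat_lit 336429) (nat_lit 29) (.e (nat_lit 442419) (nat_lit 21) (.e (nat_lit 164348) (nat_lit 240) (.e (nat_lit 2638) (nat_lit 165) .nil)))) (.g (nat_lit 0) (.e (nat_lit 377800) (nat_lit 0) .nil) .nil))) 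
(.lf (nat_lit 581220) (.g (nat_lit 2168) (.e (nat_lit 336443) (nat_lit 32) (.e (nat_lit 466971) (nat_lit 21) (.e (nat_lit 164331) (nat_lit 230) (.e (nat_lit 163884) (nat_lit 5) (.e (nat_lit 221193) (nat_lit 11) (.e (nat_lit 336084) (nat_lit 9) .nil)))))) (.g (nat_lit 1) (.e (nat_lit 378698) (nat_lit 0) .nil) .nil)))) (.nd (nat_lit 9) 
(.lf (nat_lit 580964) (.g (nat_lit 432) (.e (nat_lit 336434) (nat_lit 30) (.e (nat_lit 450579) (nat_lit 5) (.e (nat_lit 532578) (nat_lit 26) .nil))) (.g (nat_lit 0) (.e (nat_lit 378268) (nat_lit 0) .nil) .nil))) 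
(.lf (nat_lit 581476) (.g (nat_lit 3959) (.e (nat_lit 336454) (nat_lit 34) (.e (nat_lit 483365) (nat_lit 18) (.e (nat_lit 57852) (nat_lit 252) (.e (nat_lit 57373) (nat_lit 2) (.e (nat_lit 90160) (nat_lit 11) (.e (nat_lit 24623) (nat_lit 9) .nil)))))) (.g (nat_lit 1) (.e (nat_lit 379103) (nat_lit 0) .nil) .nil))))) (.nd (nat_lit 8) (.nd (nat_lit 9) 
(.lf (nat_lit 580836) (.g (nat_lit 1586) (.e (nat_lit 336432) (nat_lit 30) (.e (nat_lit 458496) (nat_lit 0) (.e (nat_lit 5547) (nat_lit 306) (.e (nat_lit 2638) (nat_lit 165) (.e (nat_lit 180278) (nat_lit 32) (.e (nat_lit 1425) (nat_lit 108) .nil)))))) (.g (nat_lit 1) (.e (nat_lit 378039) (nat_lit 0) .nil) .nil))) 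
(.lf (nat_lit 581348) (.g (nat_lit 1901) (.e (nat_lit 336444) (nat_lit 32) (.e (nat_lit 466971) (nat_lit 21) (.e (nat_lit 164326) (nat_lit 230) (.e (nat_lit 163881) (nat_lit 4) (.e (nat_lit 213032) (nat_lit 11) (.e (nat_lit 24629) (nat_lit 9) .nil)))))) (.g (nat_lit 1) (.e (nat_lit 378839) (nat_lit 0) .nil) .nil)))) (.nd (nat_lit 9) 
(.lf (nat_lit 581092) (.g (nat_lit 2293) (.e (nat_lit 336443) (nat_lit 32) (.e (nat_lit 466969) (nat_lit 21) (.e (nat_lit 164329) (nat_lit 230) (.e (nat_lit 163878) (nat_lit 4) (.e (nat_lit 213030) (nat_lit 11) (.e (nat_lit 24629) (nat_lit 9) .nil)))))) (.g (nat_lit 1) (.e (nat_lit 378570) (nat_lit 0) .nil) .nil))) 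
(.lf (nat_lit 581604) (.g (nat_lit 1561) (.e (nat_lit 336456) (nat_lit 34) (.e (nat_lit 483362) (nat_lit 18) (.e (nat_lit 57847) (nat_lit 252) (.e (nat_lit 57372) (nat_lit 2) (.e (nat_lit 90160) (nat_lit 11) .nil))))) (.g (nat_lit 0) (.e (nat_lit 379300) (nat_lit 0) .nil) .nil)))))))) (.nd (nat_lit 5) (.nd (nat_lit 6) (.nd (nat_lit 7) (.nd (nat_lit 8) (.nd (nat_lit 9) 
(.lf (nat_lit 580628) (.g (nat_lit 989) (.e (nat_lit 343808) (nat_lit 27) (.e (nat_lit 426340) (nat_lit 14) (.e (nat_lit 491568) (nat_lit 13) (.e (nat_lit 393301) (nat_lit 27) .nil)))) (.g (nat_lit 0) (.e (nat_lit 377625) (nat_lit 0) .nil) .nil))) 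
(.lf (nat_lit 581140) (.g (nat_lit 2755) (.e (nat_lit 336443) (nat_lit 32) (.e (nat_lit 466969) (nat_lit 21) (.e (nat_lit 164345) (nat_lit 240) (.e (nat_lit 2638) (nat_lit 165) (.e (nat_lit 180277) (nat_lit 32) (.e (nat_lit 1428) (nat_lit 108) .nil)))))) (.g (nat_lit 1) (.e (nat_lit 378618) (nat_lit 0) .nil) .nil)))) (.nd (nat_lit 9) 
(.lf (nat_lit 580884) (.g (nat_lit 1810) (.e (nat_lit 336432) (nat_lit 30) (.e (nat_lit 450586) (nat_lit 10) (.e (nat_lit 573475) (nat_lit 12) (.e (nat_lit 57508) (nat_lit 39) .nil)))) (.g (nat_lit 0) (.e (nat_lit 378110) (nat_lit 0) .nil) .nil))) 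
(.lf (nat_lit 581396) (.g (nat_lit 2617) (.e (nat_lit 336453) (nat_lit 34) (.e (nat_lit 483363) (nat_lit 18) (.e (nat_lit 57847) (nat_lit 252) (.e (nat_lit 57375) (nat_lit 2) (.e (nat_lit 90160) (nat_lit 11) (.e (nat_lit 24636) (nat_lit 9) .nil)))))) (.g (nat_lit 1) (.e (nat_lit 378955) (nat_lit 0) .nil) .nil))))) (.nd (nat_lit 8) (.nd (nat_lit 9) 
(.lf (nat_lit 580756) (.g (nat_lit 3469) (.e (nat_lit 336430) (nat_lit 29) (.e (nat_lit 442421) (nat_lit 21) (.e (nat_lit 164348) (nat_lit 240) (.e (nat_lit 2638) (nat_lit 165) (.e (nat_lit 180277) (nat_lit 32) (.e (nat_lit 1428) (nat_lit 108) .nil)))))) (.g (nat_lit 1) (.e (nat_lit 377894) (nat_lit 0) .nil) .nil))) 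
(.lf (nat_lit 581268) (.g (nat_lit 2821) (.e (nat_lit 336443) (nat_lit 32) (.e (nat_lit 466972) (nat_lit 21) (.e (nat_lit 164322) (nat_lit 230) (.e (nat_lit 163885) (nat_lit 5) (.e (nat_lit 221194) (nat_lit 11) (.e (nat_lit 336077) (nat_lit 9) .nil)))))) (.g (nat_lit 1) (.e (nat_lit 378747) (nat_lit 0) .nil) .nil)))) (.nd (nat_lit 9) 
(.lf (nat_lit 581012) (.g (nat_lit 544) (.e (nat_lit 336441) (nat_lit 32) (.e (nat_lit 466971) (nat_lit 21) (.e (nat_lit 164326) (nat_lit 230) .nil))) (.g (nat_lit 0) (.e (nat_lit 378454) (nat_lit 0) .nil) .nil))) 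
(.lf (nat_lit 581524) (.g (nat_lit 1625) (.e (nat_lit 336454) (nat_lit 34) (.e (nat_lit 483383) (nat_lit 23) (.e (nat_lit 336261) (nat_lit 15) (.e (nat_lit 3252) (nat_lit 197) (.e (nat_lit 532504) (nat_lit 1) .nil))))) (.g (nat_lit 0) (.e (nat_lit 379175) (nat_lit 0) .nil) .nil)))))) (.nd (nat_lit 7) (.nd (nat_lit 8) (.nd (nat_lit 9) 
(.lf (nat_lit 580692) (.g (nat_lit 869) (.e (nat_lit 336428) (nat_lit 29) (.e (nat_lit 442374) (nat_lit 0) (.e (nat_lit 1800) (nat_lit 119) (.e (nat_lit 516120) (nat_lit 1) .nil)))) (.g (nat_lit 0) (.e (nat_lit 377739) (nat_lit 0) .nil) .nil))) 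
(.lf (nat_lit 581204) (.g (nat_lit 2701) (.e (nat_lit 336443) (nat_lit 32) (.e (nat_lit 466971) (nat_lit 21) (.e (nat_lit 164327) (nat_lit 230) (.e (nat_lit 163881) (nat_lit 4) (.e (nat_lit 213032) (nat_lit 11) (.e (nat_lit 24629) (nat_lit 9) .nil)))))) (.g (nat_lit 1) (.e (nat_lit 378682) (nat_lit 0) .nil) .nil)))) (.nd (nat_lit 9) 
(.lf (nat_lit 580948) (.g (nat_lit 3511) (.e (nat_lit 336434) (nat_lit 30) (.e (nat_lit 450579) (nat_lit 5) (.e (nat_lit 532503) (nat_lit 1) (.e (nat_lit 57687) (nat_lit 156) (.e (nat_lit 163903) (nat_lit 12) (.e (nat_lit 426479) (nat_lit 27) .nil)))))) (.g (nat_lit 1) (.e (nat_lit 378243) (nat_lit 0) .nil) .nil))) 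
(.lf (nat_lit 581460) (.g (nat_lit 3179) (.e (nat_lit 336454) (nat_lit 34) (.e (nat_lit 483365) (nat_lit 18) (.e (nat_lit 57847) (nat_lit 252) (.e (nat_lit 57372) (nat_lit 2) (.e (nat_lit 90160) (nat_lit 11) (.e (nat_lit 32512) (nat_lit 9) .nil)))))) (.g (nat_lit 1) (.e (nat_lit 379084) (nat_lit 0) .nil) .nil))))) (.nd (nat_lit 8) (.nd (nat_lit 9) 
(.lf (nat_lit 580820) (.g (nat_lit 1816) (.e (nat_lit 336432) (nat_lit 30) (.e (nat_lit 450565) (nat_lit 0) (.e (nat_lit 5546) (nat_lit 306) (.e (nat_lit 2619) (nat_lit 164) (.e (nat_lit 172126) (nat_lit 14) .nil))))) (.g (nat_lit 0) (.e (nat_lit 378017) (nat_lit 0) .nil) .nil))) 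
(.lf (nat_lit 581332) (.g (nat_lit 2777) (.e (nat_lit 336443) (nat_lit 32) (.e (nat_lit 466981) (nat_lit 23) (.e (nat_lit 204829) (nat_lit 18) (.e (nat_lit 57691) (nat_lit 156) (.e (nat_lit 163905) (nat_lit 12) (.e (nat_lit 426478) (nat_lit 27) .nil)))))) (.g (nat_lit 1) (.e (nat_lit 378813) (nat_lit 0) .nil) .nil)))) (.nd (nat_lit 9) 
(.lf (nat_lit 581076) (.g (nat_lit 2767) (.e (nat_lit 336443) (nat_lit 32) (.e (nat_lit 466969) (nat_lit 21) (.e (nat_lit 164327) (nat_lit 230) (.e (nat_lit 163881) (nat_lit 4) (.e (nat_lit 213032) (nat_lit 11) (.e (nat_lit 24629) (nat_lit 9) .nil)))))) (.g (nat_lit 1) (.e (nat_lit 378554) (nat_lit 0) .nil) .nil))) 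
(.lf (nat_lit 581588) (.g (nat_lit 721) (.e (nat_lit 336455) (nat_lit 34) (.e (nat_lit 483383) (nat_lit 23) (.e (nat_lit 336324) (nat_lit 18) .nil))) (.g (nat_lit 0) (.e (nat_lit 379276) (nat_lit 0) .nil) .nil))))))) (.nd (nat_lit 6) (.nd (nat_lit 7) (.nd (nat_lit 8) (.nd (nat_lit 9) 
(.lf (nat_lit 580660) (.g (nat_lit 2149) (.e (nat_lit 336426) (nat_lit 29) (.e (nat_lit 442421) (nat_lit 21) (.e (nat_lit 164327) (nat_lit 230) (.e (nat_lit 163877) (nat_lit 4) .nil)))) (.g (nat_lit 0) (.e (nat_lit 377695) (nat_lit 0) .nil) .nil))) 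
(.lf (nat_lit 581172) (.g (nat_lit 2435) (.e (nat_lit 336443) (nat_lit 32) (.e (nat_lit 466971) (nat_lit 21) (.e (nat_lit 164324) (nat_lit 230) (.e (nat_lit 163884) (nat_lit 5) (.e (nat_lit 221193) (nat_lit 11) (.e (nat_lit 336077) (nat_lit 9) .nil)))))) (.g (nat_lit 1) (.e (nat_lit 378650) (nat_lit 0) .nil) .nil)))) (.nd (nat_lit 9) 
(.lf (nat_lit 580916) (.g (nat_lit 2925) (.e (nat_lit 336434) (nat_lit 30) (.e (nat_lit 450564) (nat_lit 0) (.e (nat_lit 5548) (nat_lit 306) (.e (nat_lit 2628) (nat_lit 164) (.e (nat_lit 172124) (nat_lit 14) (.e (nat_lit 491550) (nat_lit 9) .nil)))))) (.g (nat_lit 1) (.e (nat_lit 378202) (nat_lit 0) .nil) .nil))) 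
(.lf (nat_lit 581428) (.g (nat_lit 1867) (.e (nat_lit 336454) (nat_lit 34) (.e (nat_lit 483362) (nat_lit 18) (.e (nat_lit 57927) (nat_lit 282) (.e (nat_lit 163869) (nat_lit 2) (.e (nat_lit 196681) (nat_lit 17) (.e (nat_lit 131109) (nat_lit 9) .nil)))))) (.g (nat_lit 1) (.e (nat_lit 379041) (nat_lit 0) .nil) .nil))))) (.nd (nat_lit 8) (.nd (nat_lit 9) 
(.lf (nat_lit 580788) (.g (nat_lit 3245) (.e (nat_lit 336430) (nat_lit 29) (.e (nat_lit 442430) (nat_lit 24) (.e (nat_lit 229664) (nat_lit 240) (.e (nat_lit 2641) (nat_lit 165) (.e (nat_lit 180278) (nat_lit 32) (.e (nat_lit 1428) (nat_lit 108) .nil)))))) (.g (nat_lit 1) (.e (nat_lit 377935) (nat_lit 0) .nil) .nil))) 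
(.lf (nat_lit 581300) (.g (nat_lit 3262) (.e (nat_lit 336443) (nat_lit 32) (.e (nat_lit 466972) (nat_lit 21) (.e (nat_lit 164332) (nat_lit 230) (.e (nat_lit 163878) (nat_lit 4) (.e (nat_lit 213032) (nat_lit 11) (.e (nat_lit 24625) (nat_lit 9) .nil)))))) (.g (nat_lit 1) (.e (nat_lit 378779) (nat_lit 0) .nil) .nil)))) (.nd (nat_lit 9) 
(.lf (nat_lit 581044) (.g (nat_lit 2717) (.e (nat_lit 336443) (nat_lit 32) (.e (nat_lit 466969) (nat_lit 21) (.e (nat_lit 164324) (nat_lit 230) (.e (nat_lit 163884) (nat_lit 5) (.e (nat_lit 221193) (nat_lit 11) (.e (nat_lit 336084) (nat_lit 9) .nil)))))) (.g (nat_lit 1) (.e (nat_lit 378522) (nat_lit 0) .nil) .nil))) 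
(.lf (nat_lit 581556) (.g (nat_lit 2367) (.e (nat_lit 336454) (nat_lit 34) (.e (nat_lit 483399) (nat_lit 25) (.e (nat_lit 368676) (nat_lit 21) (.e (nat_lit 516117) (nat_lit 1) (.e (nat_lit 164184) (nat_lit 155) (.e (nat_lit 122904) (nat_lit 12) .nil)))))) (.g (nat_lit 1) (.e (nat_lit 379226) (nat_lit 0) .nil) .nil)))))) (.nd (nat_lit 7) (.nd (nat_lit 8) (.nd (nat_lit 9) 
(.lf (nat_lit 580724) (.g (nat_lit 1756) (.e (nat_lit 336430) (nat_lit 29) (.e (nat_lit 442419) (nat_lit 21) (.e (nat_lit 164325) (nat_lit 230) (.e (nat_lit 163881) (nat_lit 4) .nil)))) (.g (nat_lit 0) (.e (nat_lit 377849) (nat_lit 0) .nil) .nil))) 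
(.lf (nat_lit 581236) (.g (nat_lit 3533) (.e (nat_lit 336443) (nat_lit 32) (.e (nat_lit 466971) (nat_lit 21) (.e (nat_lit 164332) (nat_lit 230) (.e (nat_lit 163880) (nat_lit 4) (.e (nat_lit 213032) (nat_lit 11) (.e (nat_lit 24628) (nat_lit 9) .nil)))))) (.g (nat_lit 1) (.e (nat_lit 378714) (nat_lit 0) .nil) .nil)))) (.nd (nat_lit 9) 
(.lf (nat_lit 580980) (.g (nat_lit 2828) (.e (nat_lit 336434) (nat_lit 30) (.e (nat_lit 450593) (nat_lit 16) (.e (nat_lit 655378) (nat_lit 4) (.e (nat_lit 172124) (nat_lit 14) (.e (nat_lit 491550) (nat_lit 9) .nil))))) (.g (nat_lit 1) (.e (nat_lit 378287) (nat_lit 0) .nil) .nil))) 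
(.lf (nat_lit 581492) (.g (nat_lit 3101) (.e (nat_lit 336454) (nat_lit 34) (.e (nat_lit 483366) (nat_lit 18) (.e (nat_lit 57844) (nat_lit 252) (.e (nat_lit 57371) (nat_lit 2) (.e (nat_lit 90160) (nat_lit 11) (.e (nat_lit 24628) (nat_lit 9) .nil)))))) (.g (nat_lit 1) (.e (nat_lit 379125) (nat_lit 0) .nil) .nil))))) (.nd (nat_lit 8) (.nd (nat_lit 9) 
(.lf (nat_lit 580852) (.g (nat_lit 2646) (.e (nat_lit 336432) (nat_lit 30) (.e (nat_lit 450579) (nat_lit 5) (.e (nat_lit 532504) (nat_lit 1) (.e (nat_lit 57692) (nat_lit 156) (.e (nat_lit 163907) (nat_lit 12) (.e (nat_lit 426479) (nat_lit 27) .nil)))))) (.g (nat_lit 1) (.e (nat_lit 378061) (nat_lit 0) .nil) .nil))) 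
(.lf (nat_lit 581364) (.g (nat_lit 2759) (.e (nat_lit 336451) (nat_lit 34) (.e (nat_lit 483363) (nat_lit 18) (.e (nat_lit 57847) (nat_lit 252) (.e (nat_lit 57375) (nat_lit 2) (.e (nat_lit 90160) (nat_lit 11) (.e (nat_lit 24636) (nat_lit 9) .nil)))))) (.g (nat_lit 1) (.e (nat_lit 378872) (nat_lit 0) .nil) .nil)))) (.nd (nat_lit 9) 
(.lf (nat_lit 581108) (.g (nat_lit 3453) (.e (nat_lit 336443) (nat_lit 32) (.e (nat_lit 466969) (nat_lit 21) (.e (nat_lit 164330) (nat_lit 230) (.e (nat_lit 163885) (nat_lit 5) (.e (nat_lit 221194) (nat_lit 11) (.e (nat_lit 336074) (nat_lit 9) .nil)))))) (.g (nat_lit 1) (.e (nat_lit 378586) (nat_lit 0) .nil) .nil))) 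
(.lf (nat_lit 581620) (.g (nat_lit 2555) (.e (nat_lit 336456) (nat_lit 34) (.e (nat_lit 483363) (nat_lit 18) (.e (nat_lit 57931) (nat_lit 282) (.e (nat_lit 163869) (nat_lit 2) (.e (nat_lit 196666) (nat_lit 13) .nil))))) (.g (nat_lit 0) (.e (nat_lit 379317) (nat_lit 0) .nil) .nil))))))))) (.nd (nat_lit 4) (.nd (nat_lit 5) (.nd (nat_lit 6) (.nd (nat_lit 7) (.nd (nat_lit 8) (.nd (nat_lit 9) 
(.lf (nat_lit 580620) (.g (nat_lit 2776) (.e (nat_lit 336414) (nat_lit 27) (.e (nat_lit 426503) (nat_lit 27) (.e (nat_lit 335986) (nat_lit 1) (.e (nat_lit 57847) (nat_lit 252) (.e (nat_lit 57373) (nat_lit 2) (.e (nat_lit 90160) (nat_lit 11) (.e (nat_lit 24630) (nat_lit 9) .nil))))))) (.g (nat_lit 1) (.e (nat_lit 377613) (nat_lit 0) .nil) .nil))) 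
(.lf (nat_lit 581132) (.g (nat_lit 3370) (.e (nat_lit 336443) (nat_lit 32) (.e (nat_lit 466969) (nat_lit 21) (.e (nat_lit 164332) (nat_lit 230) (.e (nat_lit 163884) (nat_lit 5) (.e (nat_lit 221194) (nat_lit 11) (.e (nat_lit 336084) (nat_lit 9) .nil)))))) (.g (nat_lit 1) (.e (nat_lit 378610) (nat_lit 0) .nil) .nil)))) (.nd (nat_lit 9) 
(.lf (nat_lit 580876) (.g (nat_lit 419) (.e (nat_lit 336432) (nat_lit 30) (.e (nat_lit 450586) (nat_lit 10) (.e (nat_lit 573473) (nat_lit 12) .nil))) (.g (nat_lit 0) (.e (nat_lit 378099) (nat_lit 0) .nil) .nil))) 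
(.lf (nat_lit 581388) (.g (nat_lit 2182) (.e (nat_lit 336452) (nat_lit 34) (.e (nat_lit 483406) (nat_lit 26) (.e (nat_lit 385066) (nat_lit 26) (.e (nat_lit 532502) (nat_lit 1) .nil)))) (.g (nat_lit 0) (.e (nat_lit 378943) (nat_lit 0) .nil) .nil))))) (.nd (nat_lit 8) (.nd (nat_lit 9) 
(.lf (nat_lit 580748) (.g (nat_lit 2639) (.e (nat_lit 336430) (nat_lit 29) (.e (nat_lit 442421) (nat_lit 21) (.e (nat_lit 164345) (nat_lit 240) (.e (nat_lit 2638) (nat_lit 165) (.e (nat_lit 180278) (nat_lit 32) (.e (nat_lit 1426) (nat_lit 108) .nil)))))) (.g (nat_lit 1) (.e (nat_lit 377884) (nat_lit 0) .nil) .nil))) 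
(.lf (nat_lit 581260) (.g (nat_lit 3497) (.e (nat_lit 336443) (nat_lit 32) (.e (nat_lit 466971) (nat_lit 21) (.e (nat_lit 164348) (nat_lit 240) (.e (nat_lit 2628) (nat_lit 164) (.e (nat_lit 172124) (nat_lit 14) (.e (nat_lit 491550) (nat_lit 9) .nil)))))) (.g (nat_lit 1) (.e (nat_lit 378739) (nat_lit 0) .nil) .nil)))) (.nd (nat_lit 9) 
(.lf (nat_lit 581004) (.g (nat_lit 621) (.e (nat_lit 336440) (nat_lit 32) (.e (nat_lit 466970) (nat_lit 21) (.e (nat_lit 164332) (nat_lit 230) (.e (nat_lit 163884) (nat_lit 5) .nil)))) (.g (nat_lit 0) (.e (nat_lit 378437) (nat_lit 0) .nil) .nil))) 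
(.lf (nat_lit 581516) (.g (nat_lit 735) (.e (nat_lit 336454) (nat_lit 34) (.e (nat_lit 483382) (nat_lit 23) (.e (nat_lit 336324) (nat_lit 18) (.e (nat_lit 204831) (nat_lit 18) .nil)))) (.g (nat_lit 0) (.e (nat_lit 379161) (nat_lit 0) .nil) .nil)))))) (.nd (nat_lit 7) (.nd (nat_lit 8) (.nd (nat_lit 9) 
(.lf (nat_lit 580684) (.g (nat_lit 1450) (.e (nat_lit 336427) (nat_lit 29) (.e (nat_lit 442374) (nat_lit 0) (.e (nat_lit 2058) (nat_lit 142) (.e (nat_lit 704595) (nat_lit 5) .nil)))) (.g (nat_lit 0) (.e (nat_lit 377723) (nat_lit 0) .nil) .nil))) 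
(.lf (nat_lit 581196) (.g (nat_lit 2571) (.e (nat_lit 336443) (nat_lit 32) (.e (nat_lit 466971) (nat_lit 21) (.e (nat_lit 164326) (nat_lit 230) (.e (nat_lit 163882) (nat_lit 4) (.e (nat_lit 213030) (nat_lit 11) (.e (nat_lit 24629) (nat_lit 9) .nil)))))) (.g (nat_lit 1) (.e (nat_lit 378674) (nat_lit 0) .nil) .nil)))) (.nd (nat_lit 9) 
(.lf (nat_lit 580940) (.g (nat_lit 3082) (.e (nat_lit 336434) (nat_lit 30) (.e (nat_lit 450579) (nat_lit 5) (.e (nat_lit 532502) (nat_lit 1) (.e (nat_lit 57688) (nat_lit 156) (.e (nat_lit 163903) (nat_lit 12) (.e (nat_lit 426479) (nat_lit 27) .nil)))))) (.g (nat_lit 1) (.e (nat_lit 378235) (nat_lit 0) .nil) .nil))) 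
(.lf (nat_lit 581452) (.g (nat_lit 2272) (.e (nat_lit 336454) (nat_lit 34) (.e (nat_lit 483364) (nat_lit 18) (.e (nat_lit 57930) (nat_lit 282) (.e (nat_lit 163869) (nat_lit 2) (.e (nat_lit 196681) (nat_lit 17) (.e (nat_lit 131105) (nat_lit 9) .nil)))))) (.g (nat_lit 1) (.e (nat_lit 379074) (nat_lit 0) .nil) .nil))))) (.nd (nat_lit 8) (.nd (nat_lit 9) 
(.lf (nat_lit 580812) (.g (nat_lit 2209) (.e (nat_lit 336432) (nat_lit 30) (.e (nat_lit 450564) (nat_lit 0) (.e (nat_lit 5548) (nat_lit 306) (.e (nat_lit 2619) (nat_lit 164) (.e (nat_lit 172126) (nat_lit 14) .nil))))) (.g (nat_lit 0) (.e (nat_lit 378006) (nat_lit 0) .nil) .nil))) 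
(.lf (nat_lit 581324) (.g (nat_lit 2119) (.e (nat_lit 336443) (nat_lit 32) (.e (nat_lit 466979) (nat_lit 23) (.e (nat_lit 204830) (nat_lit 18) (.e (nat_lit 57691) (nat_lit 156) (.e (nat_lit 163906) (nat_lit 12) (.e (nat_lit 426484) (nat_lit 27) .nil)))))) (.g (nat_lit 1) (.e (nat_lit 378805) (nat_lit 0) .nil) .nil)))) (.nd (nat_lit 9) 
(.lf (nat_lit 581068) (.g (nat_lit 2701) (.e (nat_lit 336443) (nat_lit 32) (.e (nat_lit 466969) (nat_lit 21) (.e (nat_lit 164326) (nat_lit 230) (.e (nat_lit 163882) (nat_lit 4) (.e (nat_lit 213030) (nat_lit 11) (.e (nat_lit 24629) (nat_lit 9) .nil)))))) (.g (nat_lit 1) (.e (nat_lit 378546) (nat_lit 0) .nil) .nil))) 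
(.lf (nat_lit 581580) (.g (nat_lit 2854) (.e (nat_lit 336455) (nat_lit 34) (.e (nat_lit 483380) (nat_lit 23) (.e (nat_lit 336324) (nat_lit 18) (.e (nat_lit 204831) (nat_lit 18) (.e (nat_lit 57847) (nat_lit 252) .nil))))) (.g (nat_lit 0) (.e (nat_lit 379261) (nat_lit 0) .nil) .nil))))))) (.nd (nat_lit 6) (.nd (nat_lit 7) (.nd (nat_lit 8) (.nd (nat_lit 9) 
(.lf (nat_lit 580652) (.g (nat_lit 1454) (.e (nat_lit 336426) (nat_lit 29) (.e (nat_lit 442419) (nat_lit 21) (.e (nat_lit 164326) (nat_lit 230) (.e (nat_lit 163881) (nat_lit 4) .nil)))) (.g (nat_lit 0) (.e (nat_lit 377686) (nat_lit 0) .nil) .nil))) 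
(.lf (nat_lit 581164) (.g (nat_lit 3150) (.e (nat_lit 336443) (nat_lit 32) (.e (nat_lit 466971) (nat_lit 21) (.e (nat_lit 164322) (nat_lit 230) (.e (nat_lit 163884) (nat_lit 5) (.e (nat_lit 221194) (nat_lit 11) (.e (nat_lit 336084) (nat_lit 9) .nil)))))) (.g (nat_lit 1) (.e (nat_lit 378642) (nat_lit 0) .nil) .nil)))) (.nd (nat_lit 9) 
(.lf (nat_lit 580908) (.g (nat_lit 524) (.e (nat_lit 336433) (nat_lit 30) (.e (nat_lit 450588) (nat_lit 10) (.e (nat_lit 573503) (nat_lit 18) .nil))) (.g (nat_lit 0) (.e (nat_lit 378185) (nat_lit 0) .nil) .nil))) 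
(.lf (nat_lit 581420) (.g (nat_lit 755) (.e (nat_lit 336453) (nat_lit 34) (.e (nat_lit 483383) (nat_lit 23) (.e (nat_lit 336019) (nat_lit 3) .nil))) (.g (nat_lit 0) (.e (nat_lit 378989) (nat_lit 0) .nil) .nil))))) (.nd (nat_lit 8) (.nd (nat_lit 9) 
(.lf (nat_lit 580780) (.g (nat_lit 491) (.e (nat_lit 336430) (nat_lit 29) (.e (nat_lit 442428) (nat_lit 24) (.e (nat_lit 229681) (nat_lit 244) .nil))) (.g (nat_lit 0) (.e (nat_lit 377922) (nat_lit 0) .nil) .nil))) 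
(.lf (nat_lit 581292) (.g (nat_lit 3367) (.e (nat_lit 336443) (nat_lit 32) (.e (nat_lit 466972) (nat_lit 21) (.e (nat_lit 164331) (nat_lit 230) (.e (nat_lit 163884) (nat_lit 5) (.e (nat_lit 221194) (nat_lit 11) (.e (nat_lit 336077) (nat_lit 9) .nil)))))) (.g (nat_lit 1) (.e (nat_lit 378771) (nat_lit 0) .nil) .nil)))) (.nd (nat_lit 9) 
(.lf (nat_lit 581036) (.g (nat_lit 1774) (.e (nat_lit 336442) (nat_lit 32) (.e (nat_lit 466972) (nat_lit 21) (.e (nat_lit 164330) (nat_lit 230) (.e (nat_lit 163885) (nat_lit 5) (.e (nat_lit 221192) (nat_lit 11) (.e (nat_lit 336152) (nat_lit 9) .nil)))))) (.g (nat_lit 1) (.e (nat_lit 378498) (nat_lit 0) .nil) .nil))) 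
(.lf (nat_lit 581548) (.g (nat_lit 4479) (.e (nat_lit 336454) (nat_lit 34) (.e (nat_lit 483385) (nat_lit 23) (.e (nat_lit 336306) (nat_lit 15) (.e (nat_lit 3238) (nat_lit 197) (.e (nat_lit 532500) (nat_lit 1) (.e (nat_lit 57854) (nat_lit 252) (.e (nat_lit 57406) (nat_lit 12) .nil))))))) (.g (nat_lit 1) (.e (nat_lit 379211) (nat_lit 0) .nil) .nil)))))) 
(.nd (nat_lit 7) (.nd (nat_lit 8) (.nd (nat_lit 9) 
(.lf (nat_lit 580716) (.g (nat_lit 1254) (.e (nat_lit 336429) (nat_lit 29) (.e (nat_lit 442421) (nat_lit 21) (.e (nat_lit 164348) (nat_lit 240) (.e (nat_lit 2638) (nat_lit 165) .nil)))) (.g (nat_lit 0) (.e (nat_lit 377815) (nat_lit 0) .nil) .nil))) 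
(.lf (nat_lit 581228) (.g (nat_lit 3282) (.e (nat_lit 336443) (nat_lit 32) (.e (nat_lit 466971) (nat_lit 21) (.e (nat_lit 164332) (nat_lit 230) (.e (nat_lit 163880) (nat_lit 4) (.e (nat_lit 213030) (nat_lit 11) (.e (nat_lit 24627) (nat_lit 9) .nil)))))) (.g (nat_lit 1) (.e (nat_lit 378706) (nat_lit 0) .nil) .nil)))) (.nd (nat_lit 9) 
(.lf (nat_lit 580972) (.g (nat_lit 452) (.e (nat_lit 336434) (nat_lit 30) (.e (nat_lit 450586) (nat_lit 10) (.e (nat_lit 573475) (nat_lit 12) .nil))) (.g (nat_lit 0) (.e (nat_lit 378277) (nat_lit 0) .nil) .nil))) 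
(.lf (nat_lit 581484) (.g (nat_lit 2744) (.e (nat_lit 336454) (nat_lit 34) (.e (nat_lit 483365) (nat_lit 18) (.e (nat_lit 57924) (nat_lit 282) (.e (nat_lit 163867) (nat_lit 2) (.e (nat_lit 196681) (nat_lit 17) (.e (nat_lit 131105) (nat_lit 9) .nil)))))) (.g (nat_lit 1) (.e (nat_lit 379115) (nat_lit 0) .nil) .nil))))) (.nd (nat_lit 8) (.nd (nat_lit 9) 
(.lf (nat_lit 580844) (.g (nat_lit 1144) (.e (nat_lit 336432) (nat_lit 30) (.e (nat_lit 450579) (nat_lit 5) (.e (nat_lit 532502) (nat_lit 1) (.e (nat_lit 57692) (nat_lit 156) .nil)))) (.g (nat_lit 0) (.e (nat_lit 378051) (nat_lit 0) .nil) .nil))) 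
(.lf (nat_lit 581356) (.g (nat_lit 1123) (.e (nat_lit 336444) (nat_lit 32) (.e (nat_lit 466971) (nat_lit 21) (.e (nat_lit 164348) (nat_lit 240) (.e (nat_lit 2640) (nat_lit 165) .nil)))) (.g (nat_lit 0) (.e (nat_lit 378850) (nat_lit 0) .nil) .nil)))) (.nd (nat_lit 9) 
(.lf (nat_lit 581100) (.g (nat_lit 3046) (.e (nat_lit 336443) (nat_lit 32) (.e (nat_lit 466969) (nat_lit 21) (.e (nat_lit 164330) (nat_lit 230) (.e (nat_lit 163880) (nat_lit 4) (.e (nat_lit 213032) (nat_lit 11) (.e (nat_lit 24625) (nat_lit 9) .nil)))))) (.g (nat_lit 1) (.e (nat_lit 378578) (nat_lit 0) .nil) .nil))) 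
(.lf (nat_lit 581612) (.g (nat_lit 2716) (.e (nat_lit 336456) (nat_lit 34) (.e (nat_lit 483363) (nat_lit 18) (.e (nat_lit 57849) (nat_lit 252) (.e (nat_lit 57372) (nat_lit 2) (.e (nat_lit 90160) (nat_lit 11) (.e (nat_lit 24628) (nat_lit 9) .nil)))))) (.g (nat_lit 1) (.e (nat_lit 379308) (nat_lit 0) .nil) .nil)))))))) 
(.nd (nat_lit 5) (.nd (nat_lit 6) (.nd (nat_lit 7) (.nd (nat_lit 8) (.nd (nat_lit 9) 
(.lf (nat_lit 580636) (.g (nat_lit 1623) (.e (nat_lit 336421) (nat_lit 28) (.e (nat_lit 434180) (nat_lit 0) (.e (nat_lit 1661) (nat_lit 115) (.e (nat_lit 393238) (nat_lit 17) (.e (nat_lit 7936) (nat_lit 402) .nil))))) (.g (nat_lit 0) (.e (nat_lit 377647) (nat_lit 0) .nil) .nil))) 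
(.lf (nat_lit 581148) (.g (nat_lit 183) (.e (nat_lit 336443) (nat_lit 32) (.e (nat_lit 466969) (nat_lit 21) (.e (nat_lit 164348) (nat_lit 240) .nil))) (.g (nat_lit 0) (.e (nat_lit 378626) (nat_lit 0) .nil) .nil)))) (.nd (nat_lit 9) 
(.lf (nat_lit 580892) (.g (nat_lit 4817) (.e (nat_lit 336432) (nat_lit 30) (.e (nat_lit 450588) (nat_lit 10) (.e (nat_lit 573474) (nat_lit 12) (.e (nat_lit 57354) (nat_lit 0) (.e (nat_lit 5219) (nat_lit 296) .nil))))) (.g (nat_lit 0) (.e (nat_lit 378120) (nat_lit 0) .nil) .nil))) 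
(.lf (nat_lit 581404) (.g (nat_lit 2264) (.e (nat_lit 336453) (nat_lit 34) (.e (nat_lit 483364) (nat_lit 18) (.e (nat_lit 57927) (nat_lit 282) (.e (nat_lit 163875) (nat_lit 3) (.e (nat_lit 204859) (nat_lit 26) (.e (nat_lit 336118) (nat_lit 9) .nil)))))) (.g (nat_lit 1) (.e (nat_lit 378963) (nat_lit 0) .nil) .nil))))) (.nd (nat_lit 8) (.nd (nat_lit 9) 
(.lf (nat_lit 580764) (.g (nat_lit 1218) (.e (nat_lit 336430) (nat_lit 29) (.e (nat_lit 442425) (nat_lit 23) (.e (nat_lit 204831) (nat_lit 18) (.e (nat_lit 57685) (nat_lit 156) .nil)))) (.g (nat_lit 0) (.e (nat_lit 377902) (nat_lit 0) .nil) .nil))) 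
(.lf (nat_lit 581276) (.g (nat_lit 1754) (.e (nat_lit 336443) (nat_lit 32) (.e (nat_lit 466972) (nat_lit 21) (.e (nat_lit 164330) (nat_lit 230) (.e (nat_lit 163850) (nat_lit 0) .nil)))) (.g (nat_lit 0) (.e (nat_lit 378755) (nat_lit 0) .nil) .nil)))) (.nd (nat_lit 9) 
(.lf (nat_lit 581020) (.g (nat_lit 1831) (.e (nat_lit 336442) (nat_lit 32) (.e (nat_lit 466969) (nat_lit 21) (.e (nat_lit 164331) (nat_lit 230) (.e (nat_lit 163885) (nat_lit 5) (.e (nat_lit 221192) (nat_lit 11) (.e (nat_lit 336153) (nat_lit 9) .nil)))))) (.g (nat_lit 1) (.e (nat_lit 378463) (nat_lit 0) .nil) .nil))) 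
(.lf (nat_lit 581532) (.g (nat_lit 2633) (.e (nat_lit 336454) (nat_lit 34) (.e (nat_lit 483383) (nat_lit 23) (.e (nat_lit 336324) (nat_lit 18) (.e (nat_lit 204831) (nat_lit 18) (.e (nat_lit 57849) (nat_lit 252) (.e (nat_lit 57405) (nat_lit 12) .nil)))))) (.g (nat_lit 1) (.e (nat_lit 379185) (nat_lit 0) .nil) .nil)))))) (.nd (nat_lit 7) (.nd (nat_lit 8) (.nd (nat_lit 9) 
(.lf (nat_lit 580700) (.g (nat_lit 2093) (.e (nat_lit 336429) (nat_lit 29) (.e (nat_lit 442419) (nat_lit 21) (.e (nat_lit 164331) (nat_lit 230) (.e (nat_lit 163884) (nat_lit 5) (.e (nat_lit 221192) (nat_lit 11) .nil))))) (.g (nat_lit 0) (.e (nat_lit 377790) (nat_lit 0) .nil) .nil))) 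
(.lf (nat_lit 581212) (.g (nat_lit 3358) (.e (nat_lit 336443) (nat_lit 32) (.e (nat_lit 466971) (nat_lit 21) (.e (nat_lit 164327) (nat_lit 230) (.e (nat_lit 163884) (nat_lit 5) (.e (nat_lit 221194) (nat_lit 11) (.e (nat_lit 336084) (nat_lit 9) .nil)))))) (.g (nat_lit 1) (.e (nat_lit 378690) (nat_lit 0) .nil) .nil)))) (.nd (nat_lit 9) 
(.lf (nat_lit 580956) (.g (nat_lit 1112) (.e (nat_lit 336434) (nat_lit 30) (.e (nat_lit 450579) (nat_lit 5) (.e (nat_lit 532504) (nat_lit 1) (.e (nat_lit 57670) (nat_lit 152) (.e (nat_lit 2477) (nat_lit 157) .nil))))) (.g (nat_lit 0) (.e (nat_lit 378257) (nat_lit 0) .nil) .nil))) 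
(.lf (nat_lit 581468) (.g (nat_lit 1858) (.e (nat_lit 336454) (nat_lit 34) (.e (nat_lit 483365) (nat_lit 18) (.e (nat_lit 57849) (nat_lit 252) (.e (nat_lit 57372) (nat_lit 2) (.e (nat_lit 90155) (nat_lit 10) .nil))))) (.g (nat_lit 0) (.e (nat_lit 379095) (nat_lit 0) .nil) .nil))))) (.nd (nat_lit 8) (.nd (nat_lit 9) 
(.lf (nat_lit 580828) (.g (nat_lit 1776) (.e (nat_lit 336432) (nat_lit 30) (.e (nat_lit 450565) (nat_lit 0) (.e (nat_lit 5548) (nat_lit 306) (.e (nat_lit 2638) (nat_lit 165) (.e (nat_lit 188160) (nat_lit 32) (.e (nat_lit 1421) (nat_lit 108) .nil)))))) (.g (nat_lit 1) (.e (nat_lit 378028) (nat_lit 0) .nil) .nil))) 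
(.lf (nat_lit 581340) (.g (nat_lit 981) (.e (nat_lit 336444) (nat_lit 32) (.e (nat_lit 466947) (nat_lit 0) (.e (nat_lit 1800) (nat_lit 119) (.e (nat_lit 516117) (nat_lit 1) .nil)))) (.g (nat_lit 0) (.e (nat_lit 378823) (nat_lit 0) .nil) .nil)))) (.nd (nat_lit 9) 
(.lf (nat_lit 581084) (.g (nat_lit 3425) (.e (nat_lit 336443) (nat_lit 32) (.e (nat_lit 466969) (nat_lit 21) (.e (nat_lit 164327) (nat_lit 230) (.e (nat_lit 163884) (nat_lit 5) (.e (nat_lit 221194) (nat_lit 11) (.e (nat_lit 336084) (nat_lit 9) .nil)))))) (.g (nat_lit 1) (.e (nat_lit 378562) (nat_lit 0) .nil) .nil))) 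
(.lf (nat_lit 581596) (.g (nat_lit 1655) (.e (nat_lit 336455) (nat_lit 34) (.e (nat_lit 483403) (nat_lit 26) (.e (nat_lit 385068) (nat_lit 26) (.e (nat_lit 532501) (nat_lit 1) .nil)))) (.g (nat_lit 0) (.e (nat_lit 379290) (nat_lit 0) .nil) .nil))))))) (.nd (nat_lit 6) (.nd (nat_lit 7) (.nd (nat_lit 8) (.nd (nat_lit 9) 
(.lf (nat_lit 580668) (.g (nat_lit 1762) (.e (nat_lit 336426) (nat_lit 29) (.e (nat_lit 442421) (nat_lit 21) (.e (nat_lit 164347) (nat_lit 240) (.e (nat_lit 2628) (nat_lit 164) (.e (nat_lit 172126) (nat_lit 14) .nil))))) (.g (nat_lit 0) (.e (nat_lit 377705) (nat_lit 0) .nil) .nil))) 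
(.lf (nat_lit 581180) (.g (nat_lit 2607) (.e (nat_lit 336443) (nat_lit 32) (.e (nat_lit 466971) (nat_lit 21) (.e (nat_lit 164325) (nat_lit 230) (.e (nat_lit 163881) (nat_lit 4) (.e (nat_lit 213030) (nat_lit 11) (.e (nat_lit 24629) (nat_lit 9) .nil)))))) (.g (nat_lit 1) (.e (nat_lit 378658) (nat_lit 0) .nil) .nil)))) (.nd (nat_lit 9) 
(.lf (nat_lit 580924) (.g (nat_lit 3147) (.e (nat_lit 336434) (nat_lit 30) (.e (nat_lit 450579) (nat_lit 5) (.e (nat_lit 532499) (nat_lit 1) (.e (nat_lit 57687) (nat_lit 156) (.e (nat_lit 163903) (nat_lit 12) (.e (nat_lit 426479) (nat_lit 27) .nil)))))) (.g (nat_lit 1) (.e (nat_lit 378212) (nat_lit 0) .nil) .nil))) 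
(.lf (nat_lit 581436) (.g (nat_lit 3199) (.e (nat_lit 336454) (nat_lit 34) (.e (nat_lit 483363) (nat_lit 18) (.e (nat_lit 57926) (nat_lit 282) (.e (nat_lit 163867) (nat_lit 2) (.e (nat_lit 196681) (nat_lit 17) (.e (nat_lit 131105) (nat_lit 9) .nil)))))) (.g (nat_lit 1) (.e (nat_lit 379055) (nat_lit 0) .nil) .nil))))) (.nd (nat_lit 8) (.nd (nat_lit 9) 
(.lf (nat_lit 580796) (.g (nat_lit 1645) (.e (nat_lit 336431) (nat_lit 29) (.e (nat_lit 442421) (nat_lit 21) (.e (nat_lit 164347) (nat_lit 240) (.e (nat_lit 2638) (nat_lit 165) .nil)))) (.g (nat_lit 0) (.e (nat_lit 377949) (nat_lit 0) .nil) .nil))) 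
(.lf (nat_lit 581308) (.g (nat_lit 3491) (.e (nat_lit 336443) (nat_lit 32) (.e (nat_lit 466972) (nat_lit 21) (.e (nat_lit 164332) (nat_lit 230) (.e (nat_lit 163884) (nat_lit 5) (.e (nat_lit 221194) (nat_lit 11) (.e (nat_lit 336084) (nat_lit 9) .nil)))))) (.g (nat_lit 1) (.e (nat_lit 378787) (nat_lit 0) .nil) .nil)))) (.nd (nat_lit 9) 
(.lf (nat_lit 581052) (.g (nat_lit 2794) (.e (nat_lit 336443) (nat_lit 32) (.e (nat_lit 466969) (nat_lit 21) (.e (nat_lit 164325) (nat_lit 230) (.e (nat_lit 163881) (nat_lit 4) (.e (nat_lit 213030) (nat_lit 11) (.e (nat_lit 24629) (nat_lit 9) .nil)))))) (.g (nat_lit 1) (.e (nat_lit 378530) (nat_lit 0) .nil) .nil))) 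
(.lf (nat_lit 581564) (.g (nat_lit 1149) (.e (nat_lit 336454) (nat_lit 34) (.e (nat_lit 483406) (nat_lit 26) (.e (nat_lit 385066) (nat_lit 26) (.e (nat_lit 532501) (nat_lit 1) .nil)))) (.g (nat_lit 0) (.e (nat_lit 379243) (nat_lit 0) .nil) .nil)))))) (.nd (nat_lit 7) (.nd (nat_lit 8) (.nd (nat_lit 9) 
(.lf (nat_lit 580732) (.g (nat_lit 2203) (.e (nat_lit 336430) (nat_lit 29) (.e (nat_lit 442419) (nat_lit 21) (.e (nat_lit 164346) (nat_lit 240) (.e (nat_lit 2638) (nat_lit 165) (.e (nat_lit 180277) (nat_lit 32) (.e (nat_lit 1425) (nat_lit 108) .nil)))))) (.g (nat_lit 1) (.e (nat_lit 377863) (nat_lit 0) .nil) .nil))) 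
(.lf (nat_lit 581244) (.g (nat_lit 3048) (.e (nat_lit 336443) (nat_lit 32) (.e (nat_lit 466971) (nat_lit 21) (.e (nat_lit 164332) (nat_lit 230) (.e (nat_lit 163885) (nat_lit 5) (.e (nat_lit 221193) (nat_lit 11) (.e (nat_lit 336077) (nat_lit 9) .nil)))))) (.g (nat_lit 1) (.e (nat_lit 378722) (nat_lit 0) .nil) .nil)))) (.nd (nat_lit 9) 
(.lf (nat_lit 580988) (.g (nat_lit 1756) (.e (nat_lit 336438) (nat_lit 31) (.e (nat_lit 458769) (nat_lit 16) (.e (nat_lit 164291) (nat_lit 224) (.e (nat_lit 164112) (nat_lit 118) (.e (nat_lit 794637) (nat_lit 11) (.e (nat_lit 336078) (nat_lit 9) .nil)))))) (.g (nat_lit 1) (.e (nat_lit 378418) (nat_lit 0) .nil) .nil))) 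
(.lf (nat_lit 581500) (.g (nat_lit 3671) (.e (nat_lit 336454) (nat_lit 34) (.e (nat_lit 483366) (nat_lit 18) (.e (nat_lit 57931) (nat_lit 282) (.e (nat_lit 163874) (nat_lit 3) (.e (nat_lit 204861) (nat_lit 26) (.e (nat_lit 336076) (nat_lit 9) .nil)))))) (.g (nat_lit 1) (.e (nat_lit 379133) (nat_lit 0) .nil) .nil))))) (.nd (nat_lit 8) (.nd (nat_lit 9) 
(.lf (nat_lit 580860) (.g (nat_lit 387) (.e (nat_lit 336432) (nat_lit 30) (.e (nat_lit 450580) (nat_lit 5) (.e (nat_lit 532501) (nat_lit 1) .nil))) (.g (nat_lit 0) (.e (nat_lit 378075) (nat_lit 0) .nil) .nil))) 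
(.lf (nat_lit 581372) (.g (nat_lit 3109) (.e (nat_lit 336452) (nat_lit 34) (.e (nat_lit 483364) (nat_lit 18) (.e (nat_lit 57854) (nat_lit 252) (.e (nat_lit 57373) (nat_lit 2) (.e (nat_lit 90160) (nat_lit 11) (.e (nat_lit 24624) (nat_lit 9) .nil)))))) (.g (nat_lit 1) (.e (nat_lit 378903) (nat_lit 0) .nil) .nil)))) (.nd (nat_lit 9) 
(.lf (nat_lit 581116) (.g (nat_lit 2984) (.e (nat_lit 336443) (nat_lit 32) (.e (nat_lit 466969) (nat_lit 21) (.e (nat_lit 164331) (nat_lit 230) (.e (nat_lit 163885) (nat_lit 5) (.e (nat_lit 221193) (nat_lit 11) (.e (nat_lit 336084) (nat_lit 9) .nil)))))) (.g (nat_lit 1) (.e (nat_lit 378594) (nat_lit 0) .nil) .nil))) 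
(.lf (nat_lit 581628) (.g (nat_lit 3394) (.e (nat_lit 336456) (nat_lit 34) (.e (nat_lit 483364) (nat_lit 18) (.e (nat_lit 57852) (nat_lit 252) (.e (nat_lit 57373) (nat_lit 2) (.e (nat_lit 90158) (nat_lit 11) (.e (nat_lit 24628) (nat_lit 9) .nil)))))) (.g (nat_lit 1) (.e (nat_lit 379325) (nat_lit 0) .nil) .nil))))))))))) 
(.nd (nat_lit 2) (.nd (nat_lit 3) (.nd (nat_lit 4) (.nd (nat_lit 5) (.nd (nat_lit 6) 
(.nd (nat_lit 7) (.nd (nat_lit 8) (.nd (nat_lit 9) 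
(.lf (nat_lit 580610) (.g (nat_lit 2020) (.e (nat_lit 336414) (nat_lit 27) (.e (nat_lit 426228) (nat_lit 9) (.e (nat_lit 426435) (nat_lit 18) (.e (nat_lit 98334) (nat_lit 18) (.e (nat_lit 164329) (nat_lit 230) (.e (nat_lit 163902) (nat_lit 12) (.e (nat_lit 426479) (nat_lit 27) .nil))))))) (.g (nat_lit 1) (.e (nat_lit 377602) (nat_lit 0) .nil) .nil))) 
(.lf (nat_lit 581122) (.g (nat_lit 2990) (.e (nat_lit 336443) (nat_lit 32) (.e (nat_lit 466969) (nat_lit 21) (.e (nat_lit 164332) (nat_lit 230) (.e (nat_lit 163878) (nat_lit 4) (.e (nat_lit 213032) (nat_lit 11) (.e (nat_lit 24630) (nat_lit 9) .nil)))))) (.g (nat_lit 1) (.e (nat_lit 378600) (nat_lit 0) .nil) .nil)))) (.nd (nat_lit 9) 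
(.lf (nat_lit 580866) (.g (nat_lit 3366) (.e (nat_lit 336432) (nat_lit 30) (.e (nat_lit 450580) (nat_lit 5) (.e (nat_lit 532503) (nat_lit 1) (.e (nat_lit 57688) (nat_lit 156) (.e (nat_lit 163902) (nat_lit 12) (.e (nat_lit 426479) (nat_lit 27) .nil)))))) (.g (nat_lit 1) (.e (nat_lit 378086) (nat_lit 0) .nil) .nil))) 
(.lf (nat_lit 581378) (.g (nat_lit 3199) (.e (nat_lit 336452) (nat_lit 34) (.e (nat_lit 483383) (nat_lit 23) (.e (nat_lit 336324) (nat_lit 18) (.e (nat_lit 204831) (nat_lit 18) (.e (nat_lit 57847) (nat_lit 252) .nil))))) (.g (nat_lit 0) (.e (nat_lit 378928) (nat_lit 0) .nil) .nil))))) (.nd (nat_lit 8) (.nd (nat_lit 9) 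
(.lf (nat_lit 580738) (.g (nat_lit 3005) (.e (nat_lit 336430) (nat_lit 29) (.e (nat_lit 442419) (nat_lit 21) (.e (nat_lit 164348) (nat_lit 240) (.e (nat_lit 2638) (nat_lit 165) (.e (nat_lit 180277) (nat_lit 32) (.e (nat_lit 1425) (nat_lit 108) .nil)))))) (.g (nat_lit 1) (.e (nat_lit 377872) (nat_lit 0) .nil) .nil))) 
(.lf (nat_lit 581250) (.g (nat_lit 3293) (.e (nat_lit 336443) (nat_lit 32) (.e (nat_lit 466971) (nat_lit 21) (.e (nat_lit 164345) (nat_lit 240) (.e (nat_lit 2618) (nat_lit 164) (.e (nat_lit 172124) (nat_lit 14) (.e (nat_lit 491550) (nat_lit 9) .nil)))))) (.g (nat_lit 1) (.e (nat_lit 378728) (nat_lit 0) .nil) .nil)))) (.nd (nat_lit 9) 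
(.lf (nat_lit 580994) (.g (nat_lit 1551) (.e (nat_lit 336440) (nat_lit 32) (.e (nat_lit 466969) (nat_lit 21) (.e (nat_lit 164324) (nat_lit 230) (.e (nat_lit 163886) (nat_lit 5) (.e (nat_lit 221191) (nat_lit 11) .nil))))) (.g (nat_lit 0) (.e (nat_lit 378426) (nat_lit 0) .nil) .nil))) 
(.lf (nat_lit 581506) (.g (nat_lit 1725) (.e (nat_lit 336454) (nat_lit 34) (.e (nat_lit 483380) (nat_lit 23) (.e (nat_lit 336019) (nat_lit 3) (.e (nat_lit 98333) (nat_lit 18) .nil)))) (.g (nat_lit 0) (.e (nat_lit 379139) (nat_lit 0) .nil) .nil)))))) (.nd (nat_lit 7) (.nd (nat_lit 8) (.nd (nat_lit 9) 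
(.lf (nat_lit 580674) (.g (nat_lit 4074) (.e (nat_lit 336426) (nat_lit 29) (.e (nat_lit 442430) (nat_lit 24) (.e (nat_lit 229663) (nat_lit 240) (.e (nat_lit 2630) (nat_lit 164) (.e (nat_lit 172126) (nat_lit 14) (.e (nat_lit 491549) (nat_lit 9) .nil)))))) (.g (nat_lit 1) (.e (nat_lit 377711) (nat_lit 0) .nil) .nil))) 
(.lf (nat_lit 581186) (.g (nat_lit 2873) (.e (nat_lit 336443) (nat_lit 32) (.e (nat_lit 466971) (nat_lit 21) (.e (nat_lit 164325) (nat_lit 230) (.e (nat_lit 163882) (nat_lit 4) (.e (nat_lit 213032) (nat_lit 11) (.e (nat_lit 24629) (nat_lit 9) .nil)))))) (.g (nat_lit 1) (.e (nat_lit 378664) (nat_lit 0) .nil) .nil)))) (.nd (nat_lit 9) 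
(.lf (nat_lit 580930) (.g (nat_lit 967) (.e (nat_lit 336434) (nat_lit 30) (.e (nat_lit 450579) (nat_lit 5) (.e (nat_lit 532501) (nat_lit 1) (.e (nat_lit 57662) (nat_lit 152) .nil)))) (.g (nat_lit 0) (.e (nat_lit 378218) (nat_lit 0) .nil) .nil))) 
(.lf (nat_lit 581442) (.g (nat_lit 3759) (.e (nat_lit 336454) (nat_lit 34) (.e (nat_lit 483363) (nat_lit 18) (.e (nat_lit 57931) (nat_lit 282) (.e (nat_lit 163873) (nat_lit 3) (.e (nat_lit 204861) (nat_lit 26) (.e (nat_lit 336076) (nat_lit 9) .nil)))))) (.g (nat_lit 1) (.e (nat_lit 379062) (nat_lit 0) .nil) .nil))))) (.nd (nat_lit 8) (.nd (nat_lit 9) 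
(.lf (nat_lit 580802) (.g (nat_lit 1605) (.e (nat_lit 336431) (nat_lit 29) (.e (nat_lit 442430) (nat_lit 24) (.e (nat_lit 229664) (nat_lit 240) (.e (nat_lit 2641) (nat_lit 165) (.e (nat_lit 180278) (nat_lit 32) .nil))))) (.g (nat_lit 0) (.e (nat_lit 377958) (nat_lit 0) .nil) .nil))) 
(.lf (nat_lit 581314) (.g (nat_lit 2856) (.e (nat_lit 336443) (nat_lit 32) (.e (nat_lit 466972) (nat_lit 21) (.e (nat_lit 164345) (nat_lit 240) (.e (nat_lit 2638) (nat_lit 165) (.e (nat_lit 180278) (nat_lit 32) (.e (nat_lit 1425) (nat_lit 108) .nil)))))) (.g (nat_lit 1) (.e (nat_lit 378793) (nat_lit 0) .nil) .nil)))) (.nd (nat_lit 9) 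
(.lf (nat_lit 581058) (.g (nat_lit 3059) (.e (nat_lit 336443) (nat_lit 32) (.e (nat_lit 466969) (nat_lit 21) (.e (nat_lit 164325) (nat_lit 230) (.e (nat_lit 163882) (nat_lit 4) (.e (nat_lit 213032) (nat_lit 11) (.e (nat_lit 24629) (nat_lit 9) .nil)))))) (.g (nat_lit 1) (.e (nat_lit 378536) (nat_lit 0) .nil) .nil))) 
(.lf (nat_lit 581570) (.g (nat_lit 3494) (.e (nat_lit 336455) (nat_lit 34) (.e (nat_lit 483363) (nat_lit 18) (.e (nat_lit 57854) (nat_lit 252) (.e (nat_lit 57373) (nat_lit 2) (.e (nat_lit 90160) (nat_lit 11) (.e (nat_lit 24624) (nat_lit 9) .nil)))))) (.g (nat_lit 1) (.e (nat_lit 379249) (nat_lit 0) .nil) .nil))))))) (.nd (nat_lit 6) (.nd (nat_lit 7) (.nd (nat_lit 8) (.nd (nat_lit 9) 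
(.lf (nat_lit 580642) (.g (nat_lit 2278) (.e (nat_lit 336421) (nat_lit 28) (.e (nat_lit 434189) (nat_lit 13) (.e (nat_lit 2789) (nat_lit 179) (.e (nat_lit 294973) (nat_lit 28) (.e (nat_lit 434181) (nat_lit 0) (.e (nat_lit 1427) (nat_lit 108) .nil)))))) (.g (nat_lit 1) (.e (nat_lit 377653) (nat_lit 0) .nil) .nil))) 
(.lf (nat_lit 581154) (.g (nat_lit 3819) (.e (nat_lit 336443) (nat_lit 32) (.e (nat_lit 466969) (nat_lit 21) (.e (nat_lit 164348) (nat_lit 240) (.e (nat_lit 2638) (nat_lit 165) (.e (nat_lit 180277) (nat_lit 32) (.e (nat_lit 1427) (nat_lit 108) .nil)))))) (.g (nat_lit 1) (.e (nat_lit 378632) (nat_lit 0) .nil) .nil)))) (.nd (nat_lit 9) 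
(.lf (nat_lit 580898) (.g (nat_lit 2286) (.e (nat_lit 336432) (nat_lit 30) (.e (nat_lit 450588) (nat_lit 10) (.e (nat_lit 573475) (nat_lit 12) (.e (nat_lit 57503) (nat_lit 38) .nil)))) (.g (nat_lit 0) (.e (nat_lit 378128) (nat_lit 0) .nil) .nil))) 
(.lf (nat_lit 581410) (.g (nat_lit 2338) (.e (nat_lit 336453) (nat_lit 34) (.e (nat_lit 483365) (nat_lit 18) (.e (nat_lit 57848) (nat_lit 252) (.e (nat_lit 57372) (nat_lit 2) (.e (nat_lit 90160) (nat_lit 11) (.e (nat_lit 24636) (nat_lit 9) .nil)))))) (.g (nat_lit 1) (.e (nat_lit 378969) (nat_lit 0) .nil) .nil))))) (.nd (nat_lit 8) (.nd (nat_lit 9) 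
(.lf (nat_lit 580770) (.g (nat_lit 2895) (.e (nat_lit 336430) (nat_lit 29) (.e (nat_lit 442427) (nat_lit 23) (.e (nat_lit 204829) (nat_lit 18) (.e (nat_lit 57688) (nat_lit 156) (.e (nat_lit 163905) (nat_lit 12) (.e (nat_lit 426479) (nat_lit 27) .nil)))))) (.g (nat_lit 1) (.e (nat_lit 377908) (nat_lit 0) .nil) .nil))) 
(.lf (nat_lit 581282) (.g (nat_lit 3312) (.e (nat_lit 336443) (nat_lit 32) (.e (nat_lit 466972) (nat_lit 21) (.e (nat_lit 164330) (nat_lit 230) (.e (nat_lit 163880) (nat_lit 4) (.e (nat_lit 213032) (nat_lit 11) (.e (nat_lit 24625) (nat_lit 9) .nil)))))) (.g (nat_lit 1) (.e (nat_lit 378761) (nat_lit 0) .nil) .nil)))) (.nd (nat_lit 9) 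
(.lf (nat_lit 581026) (.g (nat_lit 1364) (.e (nat_lit 336442) (nat_lit 32) (.e (nat_lit 466969) (nat_lit 21) (.e (nat_lit 164348) (nat_lit 240) (.e (nat_lit 2640) (nat_lit 165) (.e (nat_lit 188160) (nat_lit 32) (.e (nat_lit 1514) (nat_lit 108) .nil)))))) (.g (nat_lit 1) (.e (nat_lit 378478) (nat_lit 0) .nil) .nil))) 
(.lf (nat_lit 581538) (.g (nat_lit 718) (.e (nat_lit 336454) (nat_lit 34) (.e (nat_lit 483385) (nat_lit 23) (.e (nat_lit 335885) (nat_lit 0) .nil))) (.g (nat_lit 0) (.e (nat_lit 379201) (nat_lit 0) .nil) .nil)))))) (.nd (nat_lit 7) (.nd (nat_lit 8) (.nd (nat_lit 9) 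
(.lf (nat_lit 580706) (.g (nat_lit 1996) (.e (nat_lit 336429) (nat_lit 29) (.e (nat_lit 442419) (nat_lit 21) (.e (nat_lit 164347) (nat_lit 240) (.e (nat_lit 2638) (nat_lit 165) (.e (nat_lit 180276) (nat_lit 32) (.e (nat_lit 1517) (nat_lit 108) .nil)))))) (.g (nat_lit 1) (.e (nat_lit 377798) (nat_lit 0) .nil) .nil))) 
(.lf (nat_lit 581218) (.g (nat_lit 2330) (.e (nat_lit 336443) (nat_lit 32) (.e (nat_lit 466971) (nat_lit 21) (.e (nat_lit 164329) (nat_lit 230) (.e (nat_lit 163885) (nat_lit 5) (.e (nat_lit 221193) (nat_lit 11) (.e (nat_lit 336084) (nat_lit 9) .nil)))))) (.g (nat_lit 1) (.e (nat_lit 378696) (nat_lit 0) .nil) .nil)))) (.nd (nat_lit 9) 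
(.lf (nat_lit 580962) (.g (nat_lit 2535) (.e (nat_lit 336434) (nat_lit 30) (.e (nat_lit 450579) (nat_lit 5) (.e (nat_lit 532504) (nat_lit 1) (.e (nat_lit 57692) (nat_lit 156) (.e (nat_lit 163907) (nat_lit 12) (.e (nat_lit 426479) (nat_lit 27) .nil)))))) (.g (nat_lit 1) (.e (nat_lit 378265) (nat_lit 0) .nil) .nil))) 
(.lf (nat_lit 581474) (.g (nat_lit 2391) (.e (nat_lit 336454) (nat_lit 34) (.e (nat_lit 483365) (nat_lit 18) (.e (nat_lit 57851) (nat_lit 252) (.e (nat_lit 57373) (nat_lit 2) (.e (nat_lit 90158) (nat_lit 11) (.e (nat_lit 24628) (nat_lit 9) .nil)))))) (.g (nat_lit 1) (.e (nat_lit 379101) (nat_lit 0) .nil) .nil))))) (.nd (nat_lit 8) (.nd (nat_lit 9) 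
(.lf (nat_lit 580834) (.g (nat_lit 2369) (.e (nat_lit 336432) (nat_lit 30) (.e (nat_lit 450565) (nat_lit 0) (.e (nat_lit 5548) (nat_lit 306) (.e (nat_lit 2640) (nat_lit 165) (.e (nat_lit 180278) (nat_lit 32) (.e (nat_lit 1426) (nat_lit 108) .nil)))))) (.g (nat_lit 1) (.e (nat_lit 378034) (nat_lit 0) .nil) .nil))) 
(.lf (nat_lit 581346) (.g (nat_lit 1326) (.e (nat_lit 336444) (nat_lit 32) (.e (nat_lit 466971) (nat_lit 21) (.e (nat_lit 164325) (nat_lit 230) (.e (nat_lit 163881) (nat_lit 4) (.e (nat_lit 213030) (nat_lit 11) (.e (nat_lit 24629) (nat_lit 9) .nil)))))) (.g (nat_lit 1) (.e (nat_lit 378837) (nat_lit 0) .nil) .nil)))) (.nd (nat_lit 9) 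
(.lf (nat_lit 581090) (.g (nat_lit 2357) (.e (nat_lit 336443) (nat_lit 32) (.e (nat_lit 466969) (nat_lit 21) (.e (nat_lit 164329) (nat_lit 230) (.e (nat_lit 163850) (nat_lit 0) (.e (nat_lit 3617) (nat_lit 227) (.e (nat_lit 778462) (nat_lit 11) (.e (nat_lit 24628) (nat_lit 9) .nil))))))) (.g (nat_lit 1) (.e (nat_lit 378568) (nat_lit 0) .nil) .nil))) 
(.lf (nat_lit 581602) (.g (nat_lit 370) (.e (nat_lit 336456) (nat_lit 34) (.e (nat_lit 483350) (nat_lit 17) (.e (nat_lit 1996) (nat_lit 137) .nil))) (.g (nat_lit 0) (.e (nat_lit 379298) (nat_lit 0) .nil) .nil)))))))) (.nd (nat_lit 5) (.nd (nat_lit 6) (.nd (nat_lit 7) (.nd (nat_lit 8) (.nd (nat_lit 9) 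
(.lf (nat_lit 580626) (.g (nat_lit 2224) (.e (nat_lit 336415) (nat_lit 27) (.e (nat_lit 426343) (nat_lit 14) (.e (nat_lit 491560) (nat_lit 10) (.e (nat_lit 344179) (nat_lit 44) .nil)))) (.g (nat_lit 0) (.e (nat_lit 377620) (nat_lit 0) .nil) .nil))) 
(.lf (nat_lit 581138) (.g (nat_lit 3614) (.e (nat_lit 336443) (nat_lit 32) (.e (nat_lit 466969) (nat_lit 21) (.e (nat_lit 164332) (nat_lit 230) (.e (nat_lit 163885) (nat_lit 5) (.e (nat_lit 221194) (nat_lit 11) (.e (nat_lit 336084) (nat_lit 9) .nil)))))) (.g (nat_lit 1) (.e (nat_lit 378616) (nat_lit 0) .nil) .nil)))) (.nd (nat_lit 9) 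
(.lf (nat_lit 580882) (.g (nat_lit 1600) (.e (nat_lit 336432) (nat_lit 30) (.e (nat_lit 450586) (nat_lit 10) (.e (nat_lit 573475) (nat_lit 12) (.e (nat_lit 57344) (nat_lit 0) .nil)))) (.g (nat_lit 0) (.e (nat_lit 378107) (nat_lit 0) .nil) .nil))) 
(.lf (nat_lit 581394) (.g (nat_lit 2065) (.e (nat_lit 336452) (nat_lit 34) (.e (nat_lit 483408) (nat_lit 26) (.e (nat_lit 385068) (nat_lit 26) (.e (nat_lit 532504) (nat_lit 1) .nil)))) (.g (nat_lit 0) (.e (nat_lit 378951) (nat_lit 0) .nil) .nil))))) (.nd (nat_lit 8) (.nd (nat_lit 9) 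
(.lf (nat_lit 580754) (.g (nat_lit 3138) (.e (nat_lit 336430) (nat_lit 29) (.e (nat_lit 442421) (nat_lit 21) (.e (nat_lit 164347) (nat_lit 240) (.e (nat_lit 2638) (nat_lit 165) (.e (nat_lit 180278) (nat_lit 32) (.e (nat_lit 1426) (nat_lit 108) .nil)))))) (.g (nat_lit 1) (.e (nat_lit 377891) (nat_lit 0) .nil) .nil))) 
(.lf (nat_lit 581266) (.g (nat_lit 3486) (.e (nat_lit 336443) (nat_lit 32) (.e (nat_lit 466971) (nat_lit 21) (.e (nat_lit 164348) (nat_lit 240) (.e (nat_lit 2640) (nat_lit 165) (.e (nat_lit 180278) (nat_lit 32) (.e (nat_lit 1427) (nat_lit 108) .nil)))))) (.g (nat_lit 1) (.e (nat_lit 378745) (nat_lit 0) .nil) .nil)))) (.nd (nat_lit 9) 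
(.lf (nat_lit 581010) (.g (nat_lit 728) (.e (nat_lit 336440) (nat_lit 32) (.e (nat_lit 466977) (nat_lit 22) (.e (nat_lit 196656) (nat_lit 11) .nil))) (.g (nat_lit 0) (.e (nat_lit 378443) (nat_lit 0) .nil) .nil))) 
(.lf (nat_lit 581522) (.g (nat_lit 1750) (.e (nat_lit 336454) (nat_lit 34) (.e (nat_lit 483383) (nat_lit 23) (.e (nat_lit 336019) (nat_lit 3) (.e (nat_lit 98335) (nat_lit 18) (.e (nat_lit 164161) (nat_lit 152) .nil))))) (.g (nat_lit 0) (.e (nat_lit 379173) (nat_lit 0) .nil) .nil)))))) (.nd (nat_lit 7) (.nd (nat_lit 8) (.nd (nat_lit 9) 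
(.lf (nat_lit 580690) (.g (nat_lit 736) (.e (nat_lit 336427) (nat_lit 29) (.e (nat_lit 442427) (nat_lit 23) (.e (nat_lit 204809) (nat_lit 9) .nil))) (.g (nat_lit 0) (.e (nat_lit 377737) (nat_lit 0) .nil) .nil))) 
(.lf (nat_lit 581202) (.g (nat_lit 2821) (.e (nat_lit 336443) (nat_lit 32) (.e (nat_lit 466971) (nat_lit 21) (.e (nat_lit 164327) (nat_lit 230) (.e (nat_lit 163881) (nat_lit 4) (.e (nat_lit 213032) (nat_lit 11) (.e (nat_lit 24624) (nat_lit 9) .nil)))))) (.g (nat_lit 1) (.e (nat_lit 378680) (nat_lit 0) .nil) .nil)))) (.nd (nat_lit 9) 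
(.lf (nat_lit 580946) (.g (nat_lit 2510) (.e (nat_lit 336434) (nat_lit 30) (.e (nat_lit 450579) (nat_lit 5) (.e (nat_lit 532503) (nat_lit 1) (.e (nat_lit 57686) (nat_lit 156) (.e (nat_lit 163902) (nat_lit 12) (.e (nat_lit 426479) (nat_lit 27) .nil)))))) (.g (nat_lit 1) (.e (nat_lit 378241) (nat_lit 0) .nil) .nil))) 
(.lf (nat_lit 581458) (.g (nat_lit 2972) (.e (nat_lit 336454) (nat_lit 34) (.e (nat_lit 483365) (nat_lit 18) (.e (nat_lit 57846) (nat_lit 252) (.e (nat_lit 57373) (nat_lit 2) (.e (nat_lit 90159) (nat_lit 11) (.e (nat_lit 24627) (nat_lit 9) .nil)))))) (.g (nat_lit 1) (.e (nat_lit 379082) (nat_lit 0) .nil) .nil))))) (.nd (nat_lit 8) (.nd (nat_lit 9) 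
(.lf (nat_lit 580818) (.g (nat_lit 267) (.e (nat_lit 336432) (nat_lit 30) (.e (nat_lit 450565) (nat_lit 0) (.e (nat_lit 5224) (nat_lit 296) .nil))) (.g (nat_lit 0) (.e (nat_lit 378012) (nat_lit 0) .nil) .nil))) 
(.lf (nat_lit 581330) (.g (nat_lit 2814) (.e (nat_lit 336443) (nat_lit 32) (.e (nat_lit 466981) (nat_lit 23) (.e (nat_lit 204829) (nat_lit 18) (.e (nat_lit 57688) (nat_lit 156) (.e (nat_lit 163905) (nat_lit 12) (.e (nat_lit 426479) (nat_lit 27) .nil)))))) (.g (nat_lit 1) (.e (nat_lit 378811) (nat_lit 0) .nil) .nil)))) (.nd (nat_lit 9) 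
(.lf (nat_lit 581074) (.g (nat_lit 2747) (.e (nat_lit 336443) (nat_lit 32) (.e (nat_lit 466969) (nat_lit 21) (.e (nat_lit 164327) (nat_lit 230) (.e (nat_lit 163881) (nat_lit 4) (.e (nat_lit 213030) (nat_lit 11) (.e (nat_lit 24629) (nat_lit 9) .nil)))))) (.g (nat_lit 1) (.e (nat_lit 378552) (nat_lit 0) .nil) .nil))) 
(.lf (nat_lit 581586) (.g (nat_lit 2313) (.e (nat_lit 336455) (nat_lit 34) (.e (nat_lit 483383) (nat_lit 23) (.e (nat_lit 336019) (nat_lit 3) (.e (nat_lit 98333) (nat_lit 18) .nil)))) (.g (nat_lit 0) (.e (nat_lit 379270) (nat_lit 0) .nil) .nil))))))) (.nd (nat_lit 6) (.nd (nat_lit 7) (.nd (nat_lit 8) (.nd (nat_lit 9) 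
(.lf (nat_lit 580658) (.g (nat_lit 545) (.e (nat_lit 336426) (nat_lit 29) (.e (nat_lit 442421) (nat_lit 21) (.e (nat_lit 164326) (nat_lit 230) .nil))) (.g (nat_lit 0) (.e (nat_lit 377693) (nat_lit 0) .nil) .nil))) 
(.lf (nat_lit 581170) (.g (nat_lit 3303) (.e (nat_lit 336443) (nat_lit 32) (.e (nat_lit 466971) (nat_lit 21) (.e (nat_lit 164322) (nat_lit 230) (.e (nat_lit 163885) (nat_lit 5) (.e (nat_lit 221194) (nat_lit 11) (.e (nat_lit 336084) (nat_lit 9) .nil)))))) (.g (nat_lit 1) (.e (nat_lit 378648) (nat_lit 0) .nil) .nil)))) (.nd (nat_lit 9) 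
(.lf (nat_lit 580914) (.g (nat_lit 2105) (.e (nat_lit 336434) (nat_lit 30) (.e (nat_lit 450564) (nat_lit 0) (.e (nat_lit 5546) (nat_lit 306) (.e (nat_lit 2640) (nat_lit 165) (.e (nat_lit 180278) (nat_lit 32) (.e (nat_lit 1425) (nat_lit 108) .nil)))))) (.g (nat_lit 1) (.e (nat_lit 378196) (nat_lit 0) .nil) .nil))) 
(.lf (nat_lit 581426) (.g (nat_lit 1248) (.e (nat_lit 336453) (nat_lit 34) (.e (nat_lit 483406) (nat_lit 26) (.e (nat_lit 385066) (nat_lit 26) (.e (nat_lit 532504) (nat_lit 1) .nil)))) (.g (nat_lit 0) (.e (nat_lit 379025) (nat_lit 0) .nil) .nil))))) (.nd (nat_lit 8) (.nd (nat_lit 9) 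
(.lf (nat_lit 580786) (.g (nat_lit 3312) (.e (nat_lit 336430) (nat_lit 29) (.e (nat_lit 442430) (nat_lit 24) (.e (nat_lit 229663) (nat_lit 240) (.e (nat_lit 2641) (nat_lit 165) (.e (nat_lit 180278) (nat_lit 32) (.e (nat_lit 1428) (nat_lit 108) .nil)))))) (.g (nat_lit 1) (.e (nat_lit 377931) (nat_lit 0) .nil) .nil))) 
(.lf (nat_lit 581298) (.g (nat_lit 1369) (.e (nat_lit 336443) (nat_lit 32) (.e (nat_lit 466972) (nat_lit 21) (.e (nat_lit 164332) (nat_lit 230) (.e (nat_lit 163852) (nat_lit 0) .nil)))) (.g (nat_lit 0) (.e (nat_lit 378777) (nat_lit 0) .nil) .nil)))) (.nd (nat_lit 9) 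
(.lf (nat_lit 581042) (.g (nat_lit 2898) (.e (nat_lit 336443) (nat_lit 32) (.e (nat_lit 466969) (nat_lit 21) (.e (nat_lit 164322) (nat_lit 230) (.e (nat_lit 163885) (nat_lit 5) (.e (nat_lit 221194) (nat_lit 11) (.e (nat_lit 336077) (nat_lit 9) .nil)))))) (.g (nat_lit 1) (.e (nat_lit 378520) (nat_lit 0) .nil) .nil))) 
(.lf (nat_lit 581554) (.g (nat_lit 2387) (.e (nat_lit 336454) (nat_lit 34) (.e (nat_lit 483398) (nat_lit 25) (.e (nat_lit 368676) (nat_lit 21) (.e (nat_lit 516117) (nat_lit 1) (.e (nat_lit 164184) (nat_lit 155) (.e (nat_lit 122904) (nat_lit 12) .nil)))))) (.g (nat_lit 1) (.e (nat_lit 379221) (nat_lit 0) .nil) .nil)))))) (.nd (nat_lit 7) (.nd (nat_lit 8) (.nd (nat_lit 9) 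
(.lf (nat_lit 580722) (.g (nat_lit 2294) (.e (nat_lit 336430) (nat_lit 29) (.e (nat_lit 442395) (nat_lit 20) (.e (nat_lit 3397) (nat_lit 211) (.e (nat_lit 647183) (nat_lit 4) (.e (nat_lit 172124) (nat_lit 14) (.e (nat_lit 491548) (nat_lit 9) .nil)))))) (.g (nat_lit 1) (.e (nat_lit 377844) (nat_lit 0) .nil) .nil))) 
(.lf (nat_lit 581234) (.g (nat_lit 3449) (.e (nat_lit 336443) (nat_lit 32) (.e (nat_lit 466971) (nat_lit 21) (.e (nat_lit 164332) (nat_lit 230) (.e (nat_lit 163880) (nat_lit 4) (.e (nat_lit 213032) (nat_lit 11) (.e (nat_lit 24626) (nat_lit 9) .nil)))))) (.g (nat_lit 1) (.e (nat_lit 378712) (nat_lit 0) .nil) .nil)))) (.nd (nat_lit 9) 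
(.lf (nat_lit 580978) (.g (nat_lit 2940) (.e (nat_lit 336434) (nat_lit 30) (.e (nat_lit 450593) (nat_lit 16) (.e (nat_lit 655376) (nat_lit 4) (.e (nat_lit 172126) (nat_lit 14) (.e (nat_lit 491549) (nat_lit 9) .nil))))) (.g (nat_lit 1) (.e (nat_lit 378285) (nat_lit 0) .nil) .nil))) 
(.lf (nat_lit 581490) (.g (nat_lit 2742) (.e (nat_lit 336454) (nat_lit 34) (.e (nat_lit 483365) (nat_lit 18) (.e (nat_lit 57929) (nat_lit 282) (.e (nat_lit 163867) (nat_lit 2) (.e (nat_lit 196681) (nat_lit 17) (.e (nat_lit 131109) (nat_lit 9) .nil)))))) (.g (nat_lit 1) (.e (nat_lit 379123) (nat_lit 0) .nil) .nil))))) (.nd (nat_lit 8) (.nd (nat_lit 9) 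
(.lf (nat_lit 580850) (.g (nat_lit 1862) (.e (nat_lit 336432) (nat_lit 30) (.e (nat_lit 450579) (nat_lit 5) (.e (nat_lit 532504) (nat_lit 1) (.e (nat_lit 57691) (nat_lit 156) .nil)))) (.g (nat_lit 0) (.e (nat_lit 378059) (nat_lit 0) .nil) .nil))) 
(.lf (nat_lit 581362) (.g (nat_lit 1873) (.e (nat_lit 336450) (nat_lit 33) (.e (nat_lit 475152) (nat_lit 17) (.e (nat_lit 57815) (nat_lit 246) (.e (nat_lit 57596) (nat_lit 82) (.e (nat_lit 499900) (nat_lit 7) (.e (nat_lit 24630) (nat_lit 9) .nil)))))) (.g (nat_lit 1) (.e (nat_lit 378865) (nat_lit 0) .nil) .nil)))) (.nd (nat_lit 9) 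
(.lf (nat_lit 581106) (.g (nat_lit 3237) (.e (nat_lit 336443) (nat_lit 32) (.e (nat_lit 466969) (nat_lit 21) (.e (nat_lit 164330) (nat_lit 230) (.e (nat_lit 163884) (nat_lit 5) (.e (nat_lit 221194) (nat_lit 11) (.e (nat_lit 336084) (nat_lit 9) .nil)))))) (.g (nat_lit 1) (.e (nat_lit 378584) (nat_lit 0) .nil) .nil))) 
(.lf (nat_lit 581618) (.g (nat_lit 2283) (.e (nat_lit 336456) (nat_lit 34) (.e (nat_lit 483363) (nat_lit 18) (.e (nat_lit 57927) (nat_lit 282) (.e (nat_lit 163874) (nat_lit 3) (.e (nat_lit 204854) (nat_lit 26) (.e (nat_lit 336115) (nat_lit 9) .nil)))))) (.g (nat_lit 1) (.e (nat_lit 379315) (nat_lit 0) .nil) .nil))))))))) 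
(.nd (nat_lit 4) (.nd (nat_lit 5) (.nd (nat_lit 6) (.nd (nat_lit 7) (.nd (nat_lit 8) 
(.nd (nat_lit 9) 
(.lf (nat_lit 580618) (.g (nat_lit 2474) (.e (nat_lit 336414) (nat_lit 27) (.e (nat_lit 426318) (nat_lit 12) (.e (nat_lit 475179) (nat_lit 24) (.e (nat_lit 516119) (nat_lit 1) (.e (nat_lit 164325) (nat_lit 230) (.e (nat_lit 163907) (nat_lit 12) (.e (nat_lit 426479) (nat_lit 27) .nil))))))) (.g (nat_lit 1) (.e (nat_lit 377611) (nat_lit 0) .nil) .nil))) 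
(.lf (nat_lit 581130) (.g (nat_lit 3626) (.e (nat_lit 336443) (nat_lit 32) (.e (nat_lit 466969) (nat_lit 21) (.e (nat_lit 164332) (nat_lit 230) (.e (nat_lit 163884) (nat_lit 5) (.e (nat_lit 221194) (nat_lit 11) (.e (nat_lit 336074) (nat_lit 9) .nil)))))) (.g (nat_lit 1) (.e (nat_lit 378608) (nat_lit 0) .nil) .nil)))) (.nd (nat_lit 9) 
(.lf (nat_lit 580874) (.g (nat_lit 408) (.e (nat_lit 336432) (nat_lit 30) (.e (nat_lit 450580) (nat_lit 5) (.e (nat_lit 532579) (nat_lit 26) .nil))) (.g (nat_lit 0) (.e (nat_lit 378097) (nat_lit 0) .nil) .nil))) 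
(.lf (nat_lit 581386) (.g (nat_lit 1850) (.e (nat_lit 336452) (nat_lit 34) (.e (nat_lit 483405) (nat_lit 26) (.e (nat_lit 385068) (nat_lit 26) (.e (nat_lit 532501) (nat_lit 1) (.e (nat_lit 57854) (nat_lit 252) .nil))))) (.g (nat_lit 0) (.e (nat_lit 378940) (nat_lit 0) .nil) .nil))))) (.nd (nat_lit 8) (.nd (nat_lit 9) 
(.lf (nat_lit 580746) (.g (nat_lit 2235) (.e (nat_lit 336430) (nat_lit 29) (.e (nat_lit 442421) (nat_lit 21) (.e (nat_lit 164345) (nat_lit 240) (.e (nat_lit 2638) (nat_lit 165) (.e (nat_lit 180277) (nat_lit 32) (.e (nat_lit 1426) (nat_lit 108) .nil)))))) (.g (nat_lit 1) (.e (nat_lit 377882) (nat_lit 0) .nil) .nil))) 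
(.lf (nat_lit 581258) (.g (nat_lit 2196) (.e (nat_lit 336443) (nat_lit 32) (.e (nat_lit 466971) (nat_lit 21) (.e (nat_lit 164347) (nat_lit 240) (.e (nat_lit 2640) (nat_lit 165) (.e (nat_lit 180278) (nat_lit 32) (.e (nat_lit 1426) (nat_lit 108) .nil)))))) (.g (nat_lit 1) (.e (nat_lit 378737) (nat_lit 0) .nil) .nil)))) (.nd (nat_lit 9) 
(.lf (nat_lit 581002) (.g (nat_lit 1621) (.e (nat_lit 336440) (nat_lit 32) (.e (nat_lit 466969) (nat_lit 21) (.e (nat_lit 164332) (nat_lit 230) (.e (nat_lit 163885) (nat_lit 5) (.e (nat_lit 221191) (nat_lit 11) (.e (nat_lit 336121) (nat_lit 9) .nil)))))) (.g (nat_lit 1) (.e (nat_lit 378434) (nat_lit 0) .nil) .nil))) 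
(.lf (nat_lit 581514) (.g (nat_lit 1572) (.e (nat_lit 336454) (nat_lit 34) (.e (nat_lit 483380) (nat_lit 23) (.e (nat_lit 336325) (nat_lit 18) (.e (nat_lit 204829) (nat_lit 18) (.e (nat_lit 57847) (nat_lit 252) .nil))))) (.g (nat_lit 0) (.e (nat_lit 379152) (nat_lit 0) .nil) .nil)))))) (.nd (nat_lit 7) (.nd (nat_lit 8) (.nd (nat_lit 9) 
(.lf (nat_lit 580682) (.g (nat_lit 1810) (.e (nat_lit 336427) (nat_lit 29) (.e (nat_lit 442374) (nat_lit 0) (.e (nat_lit 1800) (nat_lit 119) (.e (nat_lit 516120) (nat_lit 1) (.e (nat_lit 164329) (nat_lit 230) .nil))))) (.g (nat_lit 0) (.e (nat_lit 377721) (nat_lit 0) .nil) .nil))) 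
(.lf (nat_lit 581194) (.g (nat_lit 2396) (.e (nat_lit 336443) (nat_lit 32) (.e (nat_lit 466971) (nat_lit 21) (.e (nat_lit 164326) (nat_lit 230) (.e (nat_lit 163881) (nat_lit 4) (.e (nat_lit 213030) (nat_lit 11) (.e (nat_lit 24629) (nat_lit 9) .nil)))))) (.g (nat_lit 1) (.e (nat_lit 378672) (nat_lit 0) .nil) .nil)))) (.nd (nat_lit 9) 
(.lf (nat_lit 580938) (.g (nat_lit 2955) (.e (nat_lit 336434) (nat_lit 30) (.e (nat_lit 450579) (nat_lit 5) (.e (nat_lit 532501) (nat_lit 1) (.e (nat_lit 57691) (nat_lit 156) (.e (nat_lit 163907) (nat_lit 12) (.e (nat_lit 426479) (nat_lit 27) .nil)))))) (.g (nat_lit 1) (.e (nat_lit 378231) (nat_lit 0) .nil) .nil))) 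
(.lf (nat_lit 581450) (.g (nat_lit 2498) (.e (nat_lit 336454) (nat_lit 34) (.e (nat_lit 483364) (nat_lit 18) (.e (nat_lit 57930) (nat_lit 282) (.e (nat_lit 163867) (nat_lit 2) (.e (nat_lit 196681) (nat_lit 17) (.e (nat_lit 131105) (nat_lit 9) .nil)))))) (.g (nat_lit 1) (.e (nat_lit 379072) (nat_lit 0) .nil) .nil))))) (.nd (nat_lit 8) (.nd (nat_lit 9) 
(.lf (nat_lit 580810) (.g (nat_lit 1601) (.e (nat_lit 336432) (nat_lit 30) (.e (nat_lit 450564) (nat_lit 0) (.e (nat_lit 5546) (nat_lit 306) (.e (nat_lit 2619) (nat_lit 164) .nil)))) (.g (nat_lit 0) (.e (nat_lit 378003) (nat_lit 0) .nil) .nil))) 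
(.lf (nat_lit 581322) (.g (nat_lit 2738) (.e (nat_lit 336443) (nat_lit 32) (.e (nat_lit 466979) (nat_lit 23) (.e (nat_lit 204829) (nat_lit 18) (.e (nat_lit 57692) (nat_lit 156) (.e (nat_lit 163907) (nat_lit 12) (.e (nat_lit 426484) (nat_lit 27) .nil)))))) (.g (nat_lit 1) (.e (nat_lit 378803) (nat_lit 0) .nil) .nil)))) (.nd (nat_lit 9) 
(.lf (nat_lit 581066) (.g (nat_lit 2524) (.e (nat_lit 336443) (nat_lit 32) (.e (nat_lit 466969) (nat_lit 21) (.e (nat_lit 164326) (nat_lit 230) (.e (nat_lit 163881) (nat_lit 4) (.e (nat_lit 213030) (nat_lit 11) (.e (nat_lit 24629) (nat_lit 9) .nil)))))) (.g (nat_lit 1) (.e (nat_lit 378544) (nat_lit 0) .nil) .nil))) 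
(.lf (nat_lit 581578) (.g (nat_lit 2174) (.e (nat_lit 336455) (nat_lit 34) (.e (nat_lit 483380) (nat_lit 23) (.e (nat_lit 336324) (nat_lit 18) (.e (nat_lit 204831) (nat_lit 18) .nil)))) (.g (nat_lit 0) (.e (nat_lit 379259) (nat_lit 0) .nil) .nil))))))) (.nd (nat_lit 6) (.nd (nat_lit 7) (.nd (nat_lit 8) (.nd (nat_lit 9) 
(.lf (nat_lit 580650) (.g (nat_lit 2095) (.e (nat_lit 336426) (nat_lit 29) (.e (nat_lit 442374) (nat_lit 0) (.e (nat_lit 2174) (nat_lit 143) (.e (nat_lit 712745) (nat_lit 27) (.e (nat_lit 426347) (nat_lit 14) .nil))))) (.g (nat_lit 0) (.e (nat_lit 377684) (nat_lit 0) .nil) .nil))) 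
(.lf (nat_lit 581162) (.g (nat_lit 3365) (.e (nat_lit 336443) (nat_lit 32) (.e (nat_lit 466971) (nat_lit 21) (.e (nat_lit 164322) (nat_lit 230) (.e (nat_lit 163884) (nat_lit 5) (.e (nat_lit 221194) (nat_lit 11) (.e (nat_lit 336074) (nat_lit 9) .nil)))))) (.g (nat_lit 1) (.e (nat_lit 378640) (nat_lit 0) .nil) .nil)))) (.nd (nat_lit 9) 
(.lf (nat_lit 580906) (.g (nat_lit 583) (.e (nat_lit 336433) (nat_lit 30) (.e (nat_lit 450588) (nat_lit 10) (.e (nat_lit 573475) (nat_lit 12) .nil))) (.g (nat_lit 0) (.e (nat_lit 378169) (nat_lit 0) .nil) .nil))) 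
(.lf (nat_lit 581418) (.g (nat_lit 1497) (.e (nat_lit 336453) (nat_lit 34) (.e (nat_lit 483380) (nat_lit 23) (.e (nat_lit 336325) (nat_lit 18) (.e (nat_lit 204830) (nat_lit 18) .nil)))) (.g (nat_lit 0) (.e (nat_lit 378984) (nat_lit 0) .nil) .nil))))) (.nd (nat_lit 8) (.nd (nat_lit 9) 
(.lf (nat_lit 580778) (.g (nat_lit 2486) (.e (nat_lit 336430) (nat_lit 29) (.e (nat_lit 442428) (nat_lit 24) (.e (nat_lit 229663) (nat_lit 240) (.e (nat_lit 2643) (nat_lit 165) (.e (nat_lit 180277) (nat_lit 32) (.e (nat_lit 1425) (nat_lit 108) .nil)))))) (.g (nat_lit 1) (.e (nat_lit 377918) (nat_lit 0) .nil) .nil))) 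
(.lf (nat_lit 581290) (.g (nat_lit 2958) (.e (nat_lit 336443) (nat_lit 32) (.e (nat_lit 466972) (nat_lit 21) (.e (nat_lit 164331) (nat_lit 230) (.e (nat_lit 163884) (nat_lit 5) (.e (nat_lit 221193) (nat_lit 11) (.e (nat_lit 336084) (nat_lit 9) .nil)))))) (.g (nat_lit 1) (.e (nat_lit 378769) (nat_lit 0) .nil) .nil)))) (.nd (nat_lit 9) 
(.lf (nat_lit 581034) (.g (nat_lit 1964) (.e (nat_lit 336442) (nat_lit 32) (.e (nat_lit 466971) (nat_lit 21) (.e (nat_lit 164347) (nat_lit 240) (.e (nat_lit 2638) (nat_lit 165) (.e (nat_lit 188160) (nat_lit 32) .nil))))) (.g (nat_lit 0) (.e (nat_lit 378492) (nat_lit 0) .nil) .nil))) 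
(.lf (nat_lit 581546) (.g (nat_lit 903) (.e (nat_lit 336454) (nat_lit 34) (.e (nat_lit 483385) (nat_lit 23) (.e (nat_lit 336306) (nat_lit 15) (.e (nat_lit 3238) (nat_lit 197) .nil)))) (.g (nat_lit 0) (.e (nat_lit 379209) (nat_lit 0) .nil) .nil)))))) (.nd (nat_lit 7) (.nd (nat_lit 8) (.nd (nat_lit 9) 
(.lf (nat_lit 580714) (.g (nat_lit 1529) (.e (nat_lit 336429) (nat_lit 29) (.e (nat_lit 442421) (nat_lit 21) (.e (nat_lit 164332) (nat_lit 230) (.e (nat_lit 163885) (nat_lit 5) .nil)))) (.g (nat_lit 0) (.e (nat_lit 377811) (nat_lit 0) .nil) .nil))) 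
(.lf (nat_lit 581226) (.g (nat_lit 3062) (.e (nat_lit 336443) (nat_lit 32) (.e (nat_lit 466971) (nat_lit 21) (.e (nat_lit 164332) (nat_lit 230) (.e (nat_lit 163880) (nat_lit 4) (.e (nat_lit 213030) (nat_lit 11) (.e (nat_lit 24625) (nat_lit 9) .nil)))))) (.g (nat_lit 1) (.e (nat_lit 378704) (nat_lit 0) .nil) .nil)))) (.nd (nat_lit 9) 
(.lf (nat_lit 580970) (.g (nat_lit 1429) (.e (nat_lit 336434) (nat_lit 30) (.e (nat_lit 450586) (nat_lit 10) (.e (nat_lit 573474) (nat_lit 12) .nil))) (.g (nat_lit 0) (.e (nat_lit 378275) (nat_lit 0) .nil) .nil))) 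
(.lf (nat_lit 581482) (.g (nat_lit 3679) (.e (nat_lit 336454) (nat_lit 34) (.e (nat_lit 483365) (nat_lit 18) (.e (nat_lit 57854) (nat_lit 252) (.e (nat_lit 57373) (nat_lit 2) (.e (nat_lit 90160) (nat_lit 11) (.e (nat_lit 32512) (nat_lit 9) .nil)))))) (.g (nat_lit 1) (.e (nat_lit 379109) (nat_lit 0) .nil) .nil))))) (.nd (nat_lit 8) (.nd (nat_lit 9) 
(.lf (nat_lit 580842) (.g (nat_lit 2024) (.e (nat_lit 336432) (nat_lit 30) (.e (nat_lit 450579) (nat_lit 5) (.e (nat_lit 532501) (nat_lit 1) (.e (nat_lit 57691) (nat_lit 156) (.e (nat_lit 163905) (nat_lit 12) (.e (nat_lit 426479) (nat_lit 27) .nil)))))) (.g (nat_lit 1) (.e (nat_lit 378049) (nat_lit 0) .nil) .nil))) 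
(.lf (nat_lit 581354) (.g (nat_lit 1899) (.e (nat_lit 336444) (nat_lit 32) (.e (nat_lit 466971) (nat_lit 21) (.e (nat_lit 164347) (nat_lit 240) (.e (nat_lit 2638) (nat_lit 165) (.e (nat_lit 188160) (nat_lit 32) .nil))))) (.g (nat_lit 0) (.e (nat_lit 378846) (nat_lit 0) .nil) .nil)))) (.nd (nat_lit 9) 
(.lf (nat_lit 581098) (.g (nat_lit 2970) (.e (nat_lit 336443) (nat_lit 32) (.e (nat_lit 466969) (nat_lit 21) (.e (nat_lit 164330) (nat_lit 230) (.e (nat_lit 163880) (nat_lit 4) (.e (nat_lit 213030) (nat_lit 11) (.e (nat_lit 24629) (nat_lit 9) .nil)))))) (.g (nat_lit 1) (.e (nat_lit 378576) (nat_lit 0) .nil) .nil))) 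
(.lf (nat_lit 581610) (.g (nat_lit 3434) (.e (nat_lit 336456) (nat_lit 34) (.e (nat_lit 483363) (nat_lit 18) (.e (nat_lit 57847) (nat_lit 252) (.e (nat_lit 57375) (nat_lit 2) (.e (nat_lit 90160) (nat_lit 11) (.e (nat_lit 24628) (nat_lit 9) .nil)))))) (.g (nat_lit 1) (.e (nat_lit 379306) (nat_lit 0) .nil) .nil)))))))) 
(.nd (nat_lit 5) (.nd (nat_lit 6) (.nd (nat_lit 7) (.nd (nat_lit 8) (.nd (nat_lit 9) 
(.lf (nat_lit 580634) (.g (nat_lit 1712) (.e (nat_lit 336421) (nat_lit 28) (.e (nat_lit 434180) (nat_lit 0) (.e (nat_lit 1661) (nat_lit 115) (.e (nat_lit 393232) (nat_lit 17) (.e (nat_lit 7513) (nat_lit 402) .nil))))) (.g (nat_lit 0) (.e (nat_lit 377645) (nat_lit 0) .nil) .nil))) 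
(.lf (nat_lit 581146) (.g (nat_lit 2875) (.e (nat_lit 336443) (nat_lit 32) (.e (nat_lit 466969) (nat_lit 21) (.e (nat_lit 164347) (nat_lit 240) (.e (nat_lit 2638) (nat_lit 165) (.e (nat_lit 180277) (nat_lit 32) (.e (nat_lit 1428) (nat_lit 108) .nil)))))) (.g (nat_lit 1) (.e (nat_lit 378624) (nat_lit 0) .nil) .nil)))) (.nd (nat_lit 9) 
(.lf (nat_lit 580890) (.g (nat_lit 2211) (.e (nat_lit 336432) (nat_lit 30) (.e (nat_lit 450588) (nat_lit 10) (.e (nat_lit 573473) (nat_lit 12) (.e (nat_lit 57508) (nat_lit 39) .nil)))) (.g (nat_lit 0) (.e (nat_lit 378117) (nat_lit 0) .nil) .nil))) 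
(.lf (nat_lit 581402) (.g (nat_lit 2586) (.e (nat_lit 336453) (nat_lit 34) (.e (nat_lit 483364) (nat_lit 18) (.e (nat_lit 57926) (nat_lit 282) (.e (nat_lit 163875) (nat_lit 3) (.e (nat_lit 204859) (nat_lit 26) (.e (nat_lit 336118) (nat_lit 9) .nil)))))) (.g (nat_lit 1) (.e (nat_lit 378961) (nat_lit 0) .nil) .nil))))) (.nd (nat_lit 8) (.nd (nat_lit 9) 
(.lf (nat_lit 580762) (.g (nat_lit 3230) (.e (nat_lit 336430) (nat_lit 29) (.e (nat_lit 442425) (nat_lit 23) (.e (nat_lit 204830) (nat_lit 18) (.e (nat_lit 57691) (nat_lit 156) (.e (nat_lit 163907) (nat_lit 12) (.e (nat_lit 426479) (nat_lit 27) .nil)))))) (.g (nat_lit 1) (.e (nat_lit 377900) (nat_lit 0) .nil) .nil))) 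
(.lf (nat_lit 581274) (.g (nat_lit 3163) (.e (nat_lit 336443) (nat_lit 32) (.e (nat_lit 466972) (nat_lit 21) (.e (nat_lit 164329) (nat_lit 230) (.e (nat_lit 163884) (nat_lit 5) (.e (nat_lit 221194) (nat_lit 11) (.e (nat_lit 336084) (nat_lit 9) .nil)))))) (.g (nat_lit 1) (.e (nat_lit 378753) (nat_lit 0) .nil) .nil)))) (.nd (nat_lit 9) 
(.lf (nat_lit 581018) (.g (nat_lit 1622) (.e (nat_lit 336442) (nat_lit 32) (.e (nat_lit 466969) (nat_lit 21) (.e (nat_lit 164329) (nat_lit 230) (.e (nat_lit 163884) (nat_lit 5) (.e (nat_lit 221192) (nat_lit 11) (.e (nat_lit 336152) (nat_lit 9) .nil)))))) (.g (nat_lit 1) (.e (nat_lit 378461) (nat_lit 0) .nil) .nil))) 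
(.lf (nat_lit 581530) (.g (nat_lit 1212) (.e (nat_lit 336454) (nat_lit 34) (.e (nat_lit 483383) (nat_lit 23) (.e (nat_lit 336324) (nat_lit 18) (.e (nat_lit 204831) (nat_lit 18) .nil)))) (.g (nat_lit 0) (.e (nat_lit 379183) (nat_lit 0) .nil) .nil)))))) (.nd (nat_lit 7) (.nd (nat_lit 8) (.nd (nat_lit 9) 
(.lf (nat_lit 580698) (.g (nat_lit 1275) (.e (nat_lit 336429) (nat_lit 29) (.e (nat_lit 442419) (nat_lit 21) (.e (nat_lit 164326) (nat_lit 230) (.e (nat_lit 163884) (nat_lit 5) (.e (nat_lit 221192) (nat_lit 11) .nil))))) (.g (nat_lit 0) (.e (nat_lit 377788) (nat_lit 0) .nil) .nil))) 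
(.lf (nat_lit 581210) (.g (nat_lit 3606) (.e (nat_lit 336443) (nat_lit 32) (.e (nat_lit 466971) (nat_lit 21) (.e (nat_lit 164327) (nat_lit 230) (.e (nat_lit 163884) (nat_lit 5) (.e (nat_lit 221194) (nat_lit 11) (.e (nat_lit 336074) (nat_lit 9) .nil)))))) (.g (nat_lit 1) (.e (nat_lit 378688) (nat_lit 0) .nil) .nil)))) (.nd (nat_lit 9) 
(.lf (nat_lit 580954) (.g (nat_lit 1218) (.e (nat_lit 336434) (nat_lit 30) (.e (nat_lit 450579) (nat_lit 5) (.e (nat_lit 532504) (nat_lit 1) (.e (nat_lit 57663) (nat_lit 152) .nil)))) (.g (nat_lit 0) (.e (nat_lit 378252) (nat_lit 0) .nil) .nil))) 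
(.lf (nat_lit 581466) (.g (nat_lit 3359) (.e (nat_lit 336454) (nat_lit 34) (.e (nat_lit 483365) (nat_lit 18) (.e (nat_lit 57848) (nat_lit 252) (.e (nat_lit 57375) (nat_lit 2) (.e (nat_lit 90160) (nat_lit 11) (.e (nat_lit 24630) (nat_lit 9) .nil)))))) (.g (nat_lit 1) (.e (nat_lit 379093) (nat_lit 0) .nil) .nil))))) (.nd (nat_lit 8) (.nd (nat_lit 9) 
(.lf (nat_lit 580826) (.g (nat_lit 2610) (.e (nat_lit 336432) (nat_lit 30) (.e (nat_lit 450565) (nat_lit 0) (.e (nat_lit 5548) (nat_lit 306) (.e (nat_lit 2638) (nat_lit 165) (.e (nat_lit 180278) (nat_lit 32) (.e (nat_lit 1426) (nat_lit 108) .nil)))))) (.g (nat_lit 1) (.e (nat_lit 378026) (nat_lit 0) .nil) .nil))) 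
(.lf (nat_lit 581338) (.g (nat_lit 2489) (.e (nat_lit 336443) (nat_lit 32) (.e (nat_lit 466981) (nat_lit 23) (.e (nat_lit 204830) (nat_lit 18) (.e (nat_lit 57692) (nat_lit 156) (.e (nat_lit 163907) (nat_lit 12) (.e (nat_lit 426484) (nat_lit 27) .nil)))))) (.g (nat_lit 1) (.e (nat_lit 378819) (nat_lit 0) .nil) .nil)))) (.nd (nat_lit 9) 
(.lf (nat_lit 581082) (.g (nat_lit 3677) (.e (nat_lit 336443) (nat_lit 32) (.e (nat_lit 466969) (nat_lit 21) (.e (nat_lit 164327) (nat_lit 230) (.e (nat_lit 163884) (nat_lit 5) (.e (nat_lit 221194) (nat_lit 11) (.e (nat_lit 336074) (nat_lit 9) .nil)))))) (.g (nat_lit 1) (.e (nat_lit 378560) (nat_lit 0) .nil) .nil))) 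
(.lf (nat_lit 581594) (.g (nat_lit 1824) (.e (nat_lit 336455) (nat_lit 34) (.e (nat_lit 483393) (nat_lit 23) (.e (nat_lit 336021) (nat_lit 3) (.e (nat_lit 98335) (nat_lit 18) .nil)))) (.g (nat_lit 0) (.e (nat_lit 379285) (nat_lit 0) .nil) .nil))))))) (.nd (nat_lit 6) (.nd (nat_lit 7) (.nd (nat_lit 8) (.nd (nat_lit 9) 
(.lf (nat_lit 580666) (.g (nat_lit 543) (.e (nat_lit 336426) (nat_lit 29) (.e (nat_lit 442421) (nat_lit 21) (.e (nat_lit 164346) (nat_lit 240) .nil))) (.g (nat_lit 0) (.e (nat_lit 377701) (nat_lit 0) .nil) .nil))) 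
(.lf (nat_lit 581178) (.g (nat_lit 2850) (.e (nat_lit 336443) (nat_lit 32) (.e (nat_lit 466971) (nat_lit 21) (.e (nat_lit 164324) (nat_lit 230) (.e (nat_lit 163885) (nat_lit 5) (.e (nat_lit 221194) (nat_lit 11) (.e (nat_lit 336084) (nat_lit 9) .nil)))))) (.g (nat_lit 1) (.e (nat_lit 378656) (nat_lit 0) .nil) .nil)))) (.nd (nat_lit 9) 
(.lf (nat_lit 580922) (.g (nat_lit 2473) (.e (nat_lit 336434) (nat_lit 30) (.e (nat_lit 450579) (nat_lit 5) (.e (nat_lit 532499) (nat_lit 1) (.e (nat_lit 57686) (nat_lit 156) (.e (nat_lit 163902) (nat_lit 12) (.e (nat_lit 426479) (nat_lit 27) .nil)))))) (.g (nat_lit 1) (.e (nat_lit 378210) (nat_lit 0) .nil) .nil))) 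
(.lf (nat_lit 581434) (.g (nat_lit 3419) (.e (nat_lit 336454) (nat_lit 34) (.e (nat_lit 483363) (nat_lit 18) (.e (nat_lit 57853) (nat_lit 252) (.e (nat_lit 57371) (nat_lit 2) (.e (nat_lit 90159) (nat_lit 11) (.e (nat_lit 24627) (nat_lit 9) .nil)))))) (.g (nat_lit 1) (.e (nat_lit 379047) (nat_lit 0) .nil) .nil))))) (.nd (nat_lit 8) (.nd (nat_lit 9) 
(.lf (nat_lit 580794) (.g (nat_lit 2028) (.e (nat_lit 336431) (nat_lit 29) (.e (nat_lit 442421) (nat_lit 21) (.e (nat_lit 164327) (nat_lit 230) (.e (nat_lit 163879) (nat_lit 4) .nil)))) (.g (nat_lit 0) (.e (nat_lit 377944) (nat_lit 0) .nil) .nil))) 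
(.lf (nat_lit 581306) (.g (nat_lit 3671) (.e (nat_lit 336443) (nat_lit 32) (.e (nat_lit 466972) (nat_lit 21) (.e (nat_lit 164332) (nat_lit 230) (.e (nat_lit 163884) (nat_lit 5) (.e (nat_lit 221194) (nat_lit 11) (.e (nat_lit 336074) (nat_lit 9) .nil)))))) (.g (nat_lit 1) (.e (nat_lit 378785) (nat_lit 0) .nil) .nil)))) (.nd (nat_lit 9) 
(.lf (nat_lit 581050) (.g (nat_lit 2975) (.e (nat_lit 336443) (nat_lit 32) (.e (nat_lit 466969) (nat_lit 21) (.e (nat_lit 164324) (nat_lit 230) (.e (nat_lit 163885) (nat_lit 5) (.e (nat_lit 221194) (nat_lit 11) (.e (nat_lit 336084) (nat_lit 9) .nil)))))) (.g (nat_lit 1) (.e (nat_lit 378528) (nat_lit 0) .nil) .nil))) 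
(.lf (nat_lit 581562) (.g (nat_lit 1620) (.e (nat_lit 336454) (nat_lit 34) (.e (nat_lit 483405) (nat_lit 26) (.e (nat_lit 385068) (nat_lit 26) (.e (nat_lit 532501) (nat_lit 1) (.e (nat_lit 57854) (nat_lit 252) .nil))))) (.g (nat_lit 0) (.e (nat_lit 379239) (nat_lit 0) .nil) .nil)))))) (.nd (nat_lit 7) (.nd (nat_lit 8) (.nd (nat_lit 9) 
(.lf (nat_lit 580730) (.g (nat_lit 2286) (.e (nat_lit 336430) (nat_lit 29) (.e (nat_lit 442419) (nat_lit 21) (.e (nat_lit 164345) (nat_lit 240) (.e (nat_lit 2638) (nat_lit 165) (.e (nat_lit 180277) (nat_lit 32) (.e (nat_lit 1426) (nat_lit 108) .nil)))))) (.g (nat_lit 1) (.e (nat_lit 377860) (nat_lit 0) .nil) .nil))) 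
(.lf (nat_lit 581242) (.g (nat_lit 3014) (.e (nat_lit 336443) (nat_lit 32) (.e (nat_lit 466971) (nat_lit 21) (.e (nat_lit 164332) (nat_lit 230) (.e (nat_lit 163884) (nat_lit 5) (.e (nat_lit 221194) (nat_lit 11) (.e (nat_lit 336077) (nat_lit 9) .nil)))))) (.g (nat_lit 1) (.e (nat_lit 378720) (nat_lit 0) .nil) .nil)))) (.nd (nat_lit 9) 
(.lf (nat_lit 580986) (.g (nat_lit 1692) (.e (nat_lit 336438) (nat_lit 31) (.e (nat_lit 458769) (nat_lit 16) (.e (nat_lit 164287) (nat_lit 224) (.e (nat_lit 164112) (nat_lit 118) (.e (nat_lit 794637) (nat_lit 11) (.e (nat_lit 336078) (nat_lit 9) .nil)))))) (.g (nat_lit 1) (.e (nat_lit 378415) (nat_lit 0) .nil) .nil))) 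
(.lf (nat_lit 581498) (.g (nat_lit 2493) (.e (nat_lit 336454) (nat_lit 34) (.e (nat_lit 483366) (nat_lit 18) (.e (nat_lit 57930) (nat_lit 282) (.e (nat_lit 163867) (nat_lit 2) (.e (nat_lit 196681) (nat_lit 17) (.e (nat_lit 131105) (nat_lit 9) .nil)))))) (.g (nat_lit 1) (.e (nat_lit 379131) (nat_lit 0) .nil) .nil))))) (.nd (nat_lit 8) (.nd (nat_lit 9) 
(.lf (nat_lit 580858) (.g (nat_lit 1796) (.e (nat_lit 336432) (nat_lit 30) (.e (nat_lit 450580) (nat_lit 5) (.e (nat_lit 532499) (nat_lit 1) (.e (nat_lit 57691) (nat_lit 156) (.e (nat_lit 163906) (nat_lit 12) .nil))))) (.g (nat_lit 0) (.e (nat_lit 378072) (nat_lit 0) .nil) .nil))) 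
(.lf (nat_lit 581370) (.g (nat_lit 1203) (.e (nat_lit 336452) (nat_lit 34) (.e (nat_lit 483363) (nat_lit 18) (.e (nat_lit 57847) (nat_lit 252) (.e (nat_lit 57375) (nat_lit 2) .nil)))) (.g (nat_lit 0) (.e (nat_lit 378898) (nat_lit 0) .nil) .nil)))) (.nd (nat_lit 9) 
(.lf (nat_lit 581114) (.g (nat_lit 3547) (.e (nat_lit 336443) (nat_lit 32) (.e (nat_lit 466969) (nat_lit 21) (.e (nat_lit 164331) (nat_lit 230) (.e (nat_lit 163884) (nat_lit 5) (.e (nat_lit 221194) (nat_lit 11) (.e (nat_lit 336084) (nat_lit 9) .nil)))))) (.g (nat_lit 1) (.e (nat_lit 378592) (nat_lit 0) .nil) .nil))) 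
(.lf (nat_lit 581626) (.g (nat_lit 2757) (.e (nat_lit 336456) (nat_lit 34) (.e (nat_lit 483364) (nat_lit 18) (.e (nat_lit 57851) (nat_lit 252) (.e (nat_lit 57371) (nat_lit 2) (.e (nat_lit 90160) (nat_lit 11) (.e (nat_lit 24630) (nat_lit 9) .nil)))))) (.g (nat_lit 1) (.e (nat_lit 379323) (nat_lit 0) .nil) .nil)))))))))) 
(.nd (nat_lit 3) (.nd (nat_lit 4) (.nd (nat_lit 5) (.nd (nat_lit 6) (.nd (nat_lit 7) 
(.nd (nat_lit 8) (.nd (nat_lit 9) 
(.lf (nat_lit 580614) (.g (nat_lit 3261) (.e (nat_lit 336414) (nat_lit 27) (.e (nat_lit 426318) (nat_lit 12) (.e (nat_lit 475179) (nat_lit 24) (.e (nat_lit 516115) (nat_lit 1) (.e (nat_lit 164325) (nat_lit 230) (.e (nat_lit 163903) (nat_lit 12) (.e (nat_lit 426479) (nat_lit 27) .nil))))))) (.g (nat_lit 1) (.e (nat_lit 377607) (nat_lit 0) .nil) .nil))) 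
(.lf (nat_lit 581126) (.g (nat_lit 3275) (.e (nat_lit 336443) (nat_lit 32) (.e (nat_lit 466969) (nat_lit 21) (.e (nat_lit 164332) (nat_lit 230) (.e (nat_lit 163880) (nat_lit 4) (.e (nat_lit 213032) (nat_lit 11) (.e (nat_lit 24624) (nat_lit 9) .nil)))))) (.g (nat_lit 1) (.e (nat_lit 378604) (nat_lit 0) .nil) .nil)))) (.nd (nat_lit 9) 
(.lf (nat_lit 580870) (.g (nat_lit 3089) (.e (nat_lit 336432) (nat_lit 30) (.e (nat_lit 450580) (nat_lit 5) (.e (nat_lit 532504) (nat_lit 1) (.e (nat_lit 57692) (nat_lit 156) (.e (nat_lit 163905) (nat_lit 12) (.e (nat_lit 426479) (nat_lit 27) .nil)))))) (.g (nat_lit 1) (.e (nat_lit 378092) (nat_lit 0) .nil) .nil))) 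
(.lf (nat_lit 581382) (.g (nat_lit 684) (.e (nat_lit 336452) (nat_lit 34) (.e (nat_lit 483403) (nat_lit 26) (.e (nat_lit 385066) (nat_lit 26) .nil))) (.g (nat_lit 0) (.e (nat_lit 378935) (nat_lit 0) .nil) .nil))))) (.nd (nat_lit 8) (.nd (nat_lit 9) 
(.lf (nat_lit 580742) (.g (nat_lit 1845) (.e (nat_lit 336430) (nat_lit 29) (.e (nat_lit 442421) (nat_lit 21) (.e (nat_lit 164327) (nat_lit 230) (.e (nat_lit 163881) (nat_lit 4) (.e (nat_lit 213030) (nat_lit 11) (.e (nat_lit 24629) (nat_lit 9) .nil)))))) (.g (nat_lit 1) (.e (nat_lit 377878) (nat_lit 0) .nil) .nil))) 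
(.lf (nat_lit 581254) (.g (nat_lit 2520) (.e (nat_lit 336443) (nat_lit 32) (.e (nat_lit 466971) (nat_lit 21) (.e (nat_lit 164347) (nat_lit 240) (.e (nat_lit 2638) (nat_lit 165) (.e (nat_lit 180277) (nat_lit 32) (.e (nat_lit 1425) (nat_lit 108) .nil)))))) (.g (nat_lit 1) (.e (nat_lit 378733) (nat_lit 0) .nil) .nil)))) (.nd (nat_lit 9) 
(.lf (nat_lit 580998) (.g (nat_lit 1434) (.e (nat_lit 336440) (nat_lit 32) (.e (nat_lit 466969) (nat_lit 21) (.e (nat_lit 164329) (nat_lit 230) (.e (nat_lit 163884) (nat_lit 5) (.e (nat_lit 221192) (nat_lit 11) (.e (nat_lit 336121) (nat_lit 9) .nil)))))) (.g (nat_lit 1) (.e (nat_lit 378430) (nat_lit 0) .nil) .nil))) 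
(.lf (nat_lit 581510) (.g (nat_lit 967) (.e (nat_lit 336454) (nat_lit 34) (.e (nat_lit 483380) (nat_lit 23) (.e (nat_lit 336322) (nat_lit 18) .nil))) (.g (nat_lit 0) (.e (nat_lit 379143) (nat_lit 0) .nil) .nil)))))) (.nd (nat_lit 7) (.nd (nat_lit 8) (.nd (nat_lit 9) 
(.lf (nat_lit 580678) (.g (nat_lit 1784) (.e (nat_lit 336426) (nat_lit 29) (.e (nat_lit 442430) (nat_lit 24) (.e (nat_lit 229664) (nat_lit 240) (.e (nat_lit 2641) (nat_lit 165) (.e (nat_lit 180278) (nat_lit 32) (.e (nat_lit 1426) (nat_lit 108) .nil)))))) (.g (nat_lit 1) (.e (nat_lit 377715) (nat_lit 0) .nil) .nil))) 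
(.lf (nat_lit 581190) (.g (nat_lit 3179) (.e (nat_lit 336443) (nat_lit 32) (.e (nat_lit 466971) (nat_lit 21) (.e (nat_lit 164325) (nat_lit 230) (.e (nat_lit 163884) (nat_lit 5) (.e (nat_lit 221194) (nat_lit 11) (.e (nat_lit 336084) (nat_lit 9) .nil)))))) (.g (nat_lit 1) (.e (nat_lit 378668) (nat_lit 0) .nil) .nil)))) (.nd (nat_lit 9) 
(.lf (nat_lit 580934) (.g (nat_lit 915) (.e (nat_lit 336434) (nat_lit 30) (.e (nat_lit 450579) (nat_lit 5) (.e (nat_lit 532501) (nat_lit 1) (.e (nat_lit 57685) (nat_lit 156) .nil)))) (.g (nat_lit 0) (.e (nat_lit 378225) (nat_lit 0) .nil) .nil))) 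
(.lf (nat_lit 581446) (.g (nat_lit 1987) (.e (nat_lit 336454) (nat_lit 34) (.e (nat_lit 483364) (nat_lit 18) (.e (nat_lit 57854) (nat_lit 252) (.e (nat_lit 57373) (nat_lit 2) (.e (nat_lit 90160) (nat_lit 11) (.e (nat_lit 32512) (nat_lit 9) .nil)))))) (.g (nat_lit 1) (.e (nat_lit 379066) (nat_lit 0) .nil) .nil))))) (.nd (nat_lit 8) (.nd (nat_lit 9) 
(.lf (nat_lit 580806) (.g (nat_lit 1821) (.e (nat_lit 343808) (nat_lit 29) (.e (nat_lit 442374) (nat_lit 0) (.e (nat_lit 2059) (nat_lit 142) (.e (nat_lit 704595) (nat_lit 5) (.e (nat_lit 180275) (nat_lit 32) .nil))))) (.g (nat_lit 0) (.e (nat_lit 377967) (nat_lit 0) .nil) .nil))) 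
(.lf (nat_lit 581318) (.g (nat_lit 3225) (.e (nat_lit 336443) (nat_lit 32) (.e (nat_lit 466979) (nat_lit 23) (.e (nat_lit 204829) (nat_lit 18) (.e (nat_lit 57688) (nat_lit 156) (.e (nat_lit 163907) (nat_lit 12) (.e (nat_lit 426478) (nat_lit 27) .nil)))))) (.g (nat_lit 1) (.e (nat_lit 378799) (nat_lit 0) .nil) .nil)))) (.nd (nat_lit 9) 
(.lf (nat_lit 581062) (.g (nat_lit 3357) (.e (nat_lit 336443) (nat_lit 32) (.e (nat_lit 466969) (nat_lit 21) (.e (nat_lit 164325) (nat_lit 230) (.e (nat_lit 163884) (nat_lit 5) (.e (nat_lit 221194) (nat_lit 11) (.e (nat_lit 336084) (nat_lit 9) .nil)))))) (.g (nat_lit 1) (.e (nat_lit 378540) (nat_lit 0) .nil) .nil))) 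
(.lf (nat_lit 581574) (.g (nat_lit 1394) (.e (nat_lit 336455) (nat_lit 34) (.e (nat_lit 483365) (nat_lit 18) (.e (nat_lit 57847) (nat_lit 252) (.e (nat_lit 57375) (nat_lit 2) .nil)))) (.g (nat_lit 0) (.e (nat_lit 379255) (nat_lit 0) .nil) .nil))))))) (.nd (nat_lit 6) (.nd (nat_lit 7) (.nd (nat_lit 8) (.nd (nat_lit 9) 
(.lf (nat_lit 580646) (.g (nat_lit 1200) (.e (nat_lit 336426) (nat_lit 29) (.e (nat_lit 442374) (nat_lit 0) (.e (nat_lit 1800) (nat_lit 119) (.e (nat_lit 516119) (nat_lit 1) .nil)))) (.g (nat_lit 0) (.e (nat_lit 377679) (nat_lit 0) .nil) .nil))) 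
(.lf (nat_lit 581158) (.g (nat_lit 3536) (.e (nat_lit 336443) (nat_lit 32) (.e (nat_lit 466969) (nat_lit 21) (.e (nat_lit 164348) (nat_lit 240) (.e (nat_lit 2640) (nat_lit 165) (.e (nat_lit 180278) (nat_lit 32) (.e (nat_lit 1427) (nat_lit 108) .nil)))))) (.g (nat_lit 1) (.e (nat_lit 378636) (nat_lit 0) .nil) .nil)))) (.nd (nat_lit 9) 
(.lf (nat_lit 580902) (.g (nat_lit 3340) (.e (nat_lit 336432) (nat_lit 30) (.e (nat_lit 450593) (nat_lit 16) (.e (nat_lit 655378) (nat_lit 4) (.e (nat_lit 172124) (nat_lit 14) (.e (nat_lit 491549) (nat_lit 9) .nil))))) (.g (nat_lit 1) (.e (nat_lit 378135) (nat_lit 0) .nil) .nil))) 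
(.lf (nat_lit 581414) (.g (nat_lit 2272) (.e (nat_lit 336453) (nat_lit 34) (.e (nat_lit 483366) (nat_lit 18) (.e (nat_lit 57847) (nat_lit 252) (.e (nat_lit 57375) (nat_lit 2) (.e (nat_lit 90160) (nat_lit 11) (.e (nat_lit 24636) (nat_lit 9) .nil)))))) (.g (nat_lit 1) (.e (nat_lit 378973) (nat_lit 0) .nil) .nil))))) (.nd (nat_lit 8) (.nd (nat_lit 9) 
(.lf (nat_lit 580774) (.g (nat_lit 3497) (.e (nat_lit 336430) (nat_lit 29) (.e (nat_lit 442427) (nat_lit 23) (.e (nat_lit 204831) (nat_lit 18) (.e (nat_lit 57688) (nat_lit 156) (.e (nat_lit 163902) (nat_lit 12) (.e (nat_lit 426479) (nat_lit 27) .nil)))))) (.g (nat_lit 1) (.e (nat_lit 377912) (nat_lit 0) .nil) .nil))) 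
(.lf (nat_lit 581286) (.g (nat_lit 2792) (.e (nat_lit 336443) (nat_lit 32) (.e (nat_lit 466972) (nat_lit 21) (.e (nat_lit 164330) (nat_lit 230) (.e (nat_lit 163885) (nat_lit 5) (.e (nat_lit 221193) (nat_lit 11) (.e (nat_lit 336077) (nat_lit 9) .nil)))))) (.g (nat_lit 1) (.e (nat_lit 378765) (nat_lit 0) .nil) .nil)))) (.nd (nat_lit 9) 
(.lf (nat_lit 581030) (.g (nat_lit 1372) (.e (nat_lit 336442) (nat_lit 32) (.e (nat_lit 466971) (nat_lit 21) (.e (nat_lit 164327) (nat_lit 230) (.e (nat_lit 163886) (nat_lit 5) (.e (nat_lit 221192) (nat_lit 11) .nil))))) (.g (nat_lit 0) (.e (nat_lit 378482) (nat_lit 0) .nil) .nil))) 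
(.lf (nat_lit 581542) (.g (nat_lit 454) (.e (nat_lit 336454) (nat_lit 34) (.e (nat_lit 483385) (nat_lit 23) (.e (nat_lit 336260) (nat_lit 15) .nil))) (.g (nat_lit 0) (.e (nat_lit 379205) (nat_lit 0) .nil) .nil)))))) (.nd (nat_lit 7) (.nd (nat_lit 8) (.nd (nat_lit 9) 
(.lf (nat_lit 580710) (.g (nat_lit 1551) (.e (nat_lit 336429) (nat_lit 29) (.e (nat_lit 442421) (nat_lit 21) (.e (nat_lit 164322) (nat_lit 230) (.e (nat_lit 163884) (nat_lit 5) (.e (nat_lit 221192) (nat_lit 11) .nil))))) (.g (nat_lit 0) (.e (nat_lit 377804) (nat_lit 0) .nil) .nil))) 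
(.lf (nat_lit 581222) (.g (nat_lit 3101) (.e (nat_lit 336443) (nat_lit 32) (.e (nat_lit 466971) (nat_lit 21) (.e (nat_lit 164331) (nat_lit 230) (.e (nat_lit 163884) (nat_lit 5) (.e (nat_lit 221194) (nat_lit 11) (.e (nat_lit 336084) (nat_lit 9) .nil)))))) (.g (nat_lit 1) (.e (nat_lit 378700) (nat_lit 0) .nil) .nil)))) (.nd (nat_lit 9) 
(.lf (nat_lit 580966) (.g (nat_lit 2202) (.e (nat_lit 336434) (nat_lit 30) (.e (nat_lit 450579) (nat_lit 5) (.e (nat_lit 532579) (nat_lit 26) (.e (nat_lit 426108) (nat_lit 1) (.e (nat_lit 164402) (nat_lit 256) .nil))))) (.g (nat_lit 0) (.e (nat_lit 378270) (nat_lit 0) .nil) .nil))) 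
(.lf (nat_lit 581478) (.g (nat_lit 3380) (.e (nat_lit 336454) (nat_lit 34) (.e (nat_lit 483365) (nat_lit 18) (.e (nat_lit 57852) (nat_lit 252) (.e (nat_lit 57373) (nat_lit 2) (.e (nat_lit 90160) (nat_lit 11) (.e (nat_lit 24630) (nat_lit 9) .nil)))))) (.g (nat_lit 1) (.e (nat_lit 379105) (nat_lit 0) .nil) .nil))))) (.nd (nat_lit 8) (.nd (nat_lit 9) 
(.lf (nat_lit 580838) (.g (nat_lit 1706) (.e (nat_lit 336432) (nat_lit 30) (.e (nat_lit 450579) (nat_lit 5) (.e (nat_lit 532499) (nat_lit 1) (.e (nat_lit 57687) (nat_lit 156) (.e (nat_lit 163902) (nat_lit 12) .nil))))) (.g (nat_lit 0) (.e (nat_lit 378043) (nat_lit 0) .nil) .nil))) 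
(.lf (nat_lit 581350) (.g (nat_lit 1185) (.e (nat_lit 336444) (nat_lit 32) (.e (nat_lit 466971) (nat_lit 21) (.e (nat_lit 164327) (nat_lit 230) (.e (nat_lit 163881) (nat_lit 4) .nil)))) (.g (nat_lit 0) (.e (nat_lit 378841) (nat_lit 0) .nil) .nil)))) (.nd (nat_lit 9) 
(.lf (nat_lit 581094) (.g (nat_lit 3105) (.e (nat_lit 336443) (nat_lit 32) (.e (nat_lit 466969) (nat_lit 21) (.e (nat_lit 164329) (nat_lit 230) (.e (nat_lit 163884) (nat_lit 5) (.e (nat_lit 221194) (nat_lit 11) (.e (nat_lit 336084) (nat_lit 9) .nil)))))) (.g (nat_lit 1) (.e (nat_lit 378572) (nat_lit 0) .nil) .nil))) 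
(.lf (nat_lit 581606) (.g (nat_lit 1544) (.e (nat_lit 336456) (nat_lit 34) (.e (nat_lit 483363) (nat_lit 18) (.e (nat_lit 57846) (nat_lit 252) (.e (nat_lit 57372) (nat_lit 2) .nil)))) (.g (nat_lit 0) (.e (nat_lit 379302) (nat_lit 0) .nil) .nil)))))))) (.nd (nat_lit 5) (.nd (nat_lit 6) (.nd (nat_lit 7) (.nd (nat_lit 8) (.nd (nat_lit 9) 
(.lf (nat_lit 580630) (.g (nat_lit 1617) (.e (nat_lit 343808) (nat_lit 27) (.e (nat_lit 426347) (nat_lit 14) (.e (nat_lit 491549) (nat_lit 9) (.e (nat_lit 336421) (nat_lit 28) (.e (nat_lit 434178) (nat_lit 0) .nil))))) (.g (nat_lit 0) (.e (nat_lit 377628) (nat_lit 0) .nil) .nil))) 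
(.lf (nat_lit 581142) (.g (nat_lit 2027) (.e (nat_lit 336443) (nat_lit 32) (.e (nat_lit 466969) (nat_lit 21) (.e (nat_lit 164345) (nat_lit 240) (.e (nat_lit 2640) (nat_lit 165) (.e (nat_lit 180278) (nat_lit 32) (.e (nat_lit 1425) (nat_lit 108) .nil)))))) (.g (nat_lit 1) (.e (nat_lit 378620) (nat_lit 0) .nil) .nil)))) (.nd (nat_lit 9) 
(.lf (nat_lit 580886) (.g (nat_lit 1938) (.e (nat_lit 336432) (nat_lit 30) (.e (nat_lit 450587) (nat_lit 10) (.e (nat_lit 573475) (nat_lit 12) (.e (nat_lit 57503) (nat_lit 38) .nil)))) (.g (nat_lit 0) (.e (nat_lit 378112) (nat_lit 0) .nil) .nil))) 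
(.lf (nat_lit 581398) (.g (nat_lit 2330) (.e (nat_lit 336453) (nat_lit 34) (.e (nat_lit 483363) (nat_lit 18) (.e (nat_lit 57854) (nat_lit 252) (.e (nat_lit 57371) (nat_lit 2) (.e (nat_lit 90160) (nat_lit 11) (.e (nat_lit 24636) (nat_lit 9) .nil)))))) (.g (nat_lit 1) (.e (nat_lit 378957) (nat_lit 0) .nil) .nil))))) (.nd (nat_lit 8) (.nd (nat_lit 9) 
(.lf (nat_lit 580758) (.g (nat_lit 3094) (.e (nat_lit 336430) (nat_lit 29) (.e (nat_lit 442425) (nat_lit 23) (.e (nat_lit 204829) (nat_lit 18) (.e (nat_lit 57691) (nat_lit 156) (.e (nat_lit 163905) (nat_lit 12) (.e (nat_lit 426479) (nat_lit 27) .nil)))))) (.g (nat_lit 1) (.e (nat_lit 377896) (nat_lit 0) .nil) .nil))) 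
(.lf (nat_lit 581270) (.g (nat_lit 2500) (.e (nat_lit 336443) (nat_lit 32) (.e (nat_lit 466972) (nat_lit 21) (.e (nat_lit 164329) (nat_lit 230) (.e (nat_lit 163843) (nat_lit 0) (.e (nat_lit 3617) (nat_lit 227) (.e (nat_lit 778462) (nat_lit 11) (.e (nat_lit 24628) (nat_lit 9) .nil))))))) (.g (nat_lit 1) (.e (nat_lit 378749) (nat_lit 0) .nil) .nil)))) (.nd (nat_lit 9) 
(.lf (nat_lit 581014) (.g (nat_lit 736) (.e (nat_lit 336441) (nat_lit 32) (.e (nat_lit 466977) (nat_lit 22) (.e (nat_lit 196656) (nat_lit 11) .nil))) (.g (nat_lit 0) (.e (nat_lit 378457) (nat_lit 0) .nil) .nil))) 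
(.lf (nat_lit 581526) (.g (nat_lit 3150) (.e (nat_lit 336454) (nat_lit 34) (.e (nat_lit 483383) (nat_lit 23) (.e (nat_lit 336306) (nat_lit 15) (.e (nat_lit 3238) (nat_lit 197) (.e (nat_lit 532500) (nat_lit 1) (.e (nat_lit 57851) (nat_lit 252) (.e (nat_lit 57408) (nat_lit 12) .nil))))))) (.g (nat_lit 1) (.e (nat_lit 379177) (nat_lit 0) .nil) .nil)))))) 
(.nd (nat_lit 7) (.nd (nat_lit 8) (.nd (nat_lit 9) 
(.lf (nat_lit 580694) (.g (nat_lit 1345) (.e (nat_lit 336428) (nat_lit 29) (.e (nat_lit 442379) (nat_lit 0) (.e (nat_lit 2174) (nat_lit 143) (.e (nat_lit 712745) (nat_lit 27) .nil)))) (.g (nat_lit 0) (.e (nat_lit 377742) (nat_lit 0) .nil) .nil))) 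
(.lf (nat_lit 581206) (.g (nat_lit 3215) (.e (nat_lit 336443) (nat_lit 32) (.e (nat_lit 466971) (nat_lit 21) (.e (nat_lit 164327) (nat_lit 230) (.e (nat_lit 163882) (nat_lit 4) (.e (nat_lit 213032) (nat_lit 11) (.e (nat_lit 24624) (nat_lit 9) .nil)))))) (.g (nat_lit 1) (.e (nat_lit 378684) (nat_lit 0) .nil) .nil)))) (.nd (nat_lit 9) 
(.lf (nat_lit 580950) (.g (nat_lit 2954) (.e (nat_lit 336434) (nat_lit 30) (.e (nat_lit 450579) (nat_lit 5) (.e (nat_lit 532503) (nat_lit 1) (.e (nat_lit 57688) (nat_lit 156) (.e (nat_lit 163903) (nat_lit 12) (.e (nat_lit 426479) (nat_lit 27) .nil)))))) (.g (nat_lit 1) (.e (nat_lit 378245) (nat_lit 0) .nil) .nil))) 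
(.lf (nat_lit 581462) (.g (nat_lit 2152) (.e (nat_lit 336454) (nat_lit 34) (.e (nat_lit 483365) (nat_lit 18) (.e (nat_lit 57848) (nat_lit 252) (.e (nat_lit 57371) (nat_lit 2) (.e (nat_lit 90158) (nat_lit 11) (.e (nat_lit 24628) (nat_lit 9) .nil)))))) (.g (nat_lit 1) (.e (nat_lit 379086) (nat_lit 0) .nil) .nil))))) (.nd (nat_lit 8) (.nd (nat_lit 9) 
(.lf (nat_lit 580822) (.g (nat_lit 2994) (.e (nat_lit 336432) (nat_lit 30) (.e (nat_lit 450565) (nat_lit 0) (.e (nat_lit 5548) (nat_lit 306) (.e (nat_lit 2628) (nat_lit 164) (.e (nat_lit 172124) (nat_lit 14) (.e (nat_lit 491550) (nat_lit 9) .nil)))))) (.g (nat_lit 1) (.e (nat_lit 378022) (nat_lit 0) .nil) .nil))) 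
(.lf (nat_lit 581334) (.g (nat_lit 2418) (.e (nat_lit 336443) (nat_lit 32) (.e (nat_lit 466981) (nat_lit 23) (.e (nat_lit 204829) (nat_lit 18) (.e (nat_lit 57692) (nat_lit 156) (.e (nat_lit 163906) (nat_lit 12) (.e (nat_lit 426484) (nat_lit 27) .nil)))))) (.g (nat_lit 1) (.e (nat_lit 378815) (nat_lit 0) .nil) .nil)))) (.nd (nat_lit 9) 
(.lf (nat_lit 581078) (.g (nat_lit 3259) (.e (nat_lit 336443) (nat_lit 32) (.e (nat_lit 466969) (nat_lit 21) (.e (nat_lit 164327) (nat_lit 230) (.e (nat_lit 163882) (nat_lit 4) (.e (nat_lit 213032) (nat_lit 11) (.e (nat_lit 24624) (nat_lit 9) .nil)))))) (.g (nat_lit 1) (.e (nat_lit 378556) (nat_lit 0) .nil) .nil))) 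
(.lf (nat_lit 581590) (.g (nat_lit 2172) (.e (nat_lit 336455) (nat_lit 34) (.e (nat_lit 483383) (nat_lit 23) (.e (nat_lit 336324) (nat_lit 18) (.e (nat_lit 204830) (nat_lit 18) .nil)))) (.g (nat_lit 0) (.e (nat_lit 379279) (nat_lit 0) .nil) .nil))))))) (.nd (nat_lit 6) (.nd (nat_lit 7) (.nd (nat_lit 8) (.nd (nat_lit 9) 
(.lf (nat_lit 580662) (.g (nat_lit 1741) (.e (nat_lit 336426) (nat_lit 29) (.e (nat_lit 442421) (nat_lit 21) (.e (nat_lit 164327) (nat_lit 230) (.e (nat_lit 163881) (nat_lit 4) .nil)))) (.g (nat_lit 0) (.e (nat_lit 377697) (nat_lit 0) .nil) .nil))) 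
(.lf (nat_lit 581174) (.g (nat_lit 3564) (.e (nat_lit 336443) (nat_lit 32) (.e (nat_lit 466971) (nat_lit 21) (.e (nat_lit 164324) (nat_lit 230) (.e (nat_lit 163884) (nat_lit 5) (.e (nat_lit 221194) (nat_lit 11) (.e (nat_lit 336074) (nat_lit 9) .nil)))))) (.g (nat_lit 1) (.e (nat_lit 378652) (nat_lit 0) .nil) .nil)))) (.nd (nat_lit 9) 
(.lf (nat_lit 580918) (.g (nat_lit 3484) (.e (nat_lit 336434) (nat_lit 30) (.e (nat_lit 450564) (nat_lit 0) (.e (nat_lit 5548) (nat_lit 306) (.e (nat_lit 2638) (nat_lit 165) (.e (nat_lit 180277) (nat_lit 32) (.e (nat_lit 1427) (nat_lit 108) .nil)))))) (.g (nat_lit 1) (.e (nat_lit 378204) (nat_lit 0) .nil) .nil))) 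
(.lf (nat_lit 581430) (.g (nat_lit 1717) (.e (nat_lit 336454) (nat_lit 34) (.e (nat_lit 483363) (nat_lit 18) (.e (nat_lit 57846) (nat_lit 252) (.e (nat_lit 57372) (nat_lit 2) .nil)))) (.g (nat_lit 0) (.e (nat_lit 379043) (nat_lit 0) .nil) .nil))))) (.nd (nat_lit 8) (.nd (nat_lit 9) 
(.lf (nat_lit 580790) (.g (nat_lit 1757) (.e (nat_lit 336431) (nat_lit 29) (.e (nat_lit 442421) (nat_lit 21) (.e (nat_lit 164322) (nat_lit 230) (.e (nat_lit 163878) (nat_lit 4) (.e (nat_lit 213030) (nat_lit 11) .nil))))) (.g (nat_lit 0) (.e (nat_lit 377939) (nat_lit 0) .nil) .nil))) 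
(.lf (nat_lit 581302) (.g (nat_lit 2969) (.e (nat_lit 336443) (nat_lit 32) (.e (nat_lit 466972) (nat_lit 21) (.e (nat_lit 164332) (nat_lit 230) (.e (nat_lit 163878) (nat_lit 4) (.e (nat_lit 213032) (nat_lit 11) (.e (nat_lit 24629) (nat_lit 9) .nil)))))) (.g (nat_lit 1) (.e (nat_lit 378781) (nat_lit 0) .nil) .nil)))) (.nd (nat_lit 9) 
(.lf (nat_lit 581046) (.g (nat_lit 3191) (.e (nat_lit 336443) (nat_lit 32) (.e (nat_lit 466969) (nat_lit 21) (.e (nat_lit 164324) (nat_lit 230) (.e (nat_lit 163884) (nat_lit 5) (.e (nat_lit 221194) (nat_lit 11) (.e (nat_lit 336077) (nat_lit 9) .nil)))))) (.g (nat_lit 1) (.e (nat_lit 378524) (nat_lit 0) .nil) .nil))) 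
(.lf (nat_lit 581558) (.g (nat_lit 1422) (.e (nat_lit 336454) (nat_lit 34) (.e (nat_lit 483403) (nat_lit 26) (.e (nat_lit 385066) (nat_lit 26) (.e (nat_lit 532501) (nat_lit 1) (.e (nat_lit 57830) (nat_lit 250) .nil))))) (.g (nat_lit 0) (.e (nat_lit 379229) (nat_lit 0) .nil) .nil)))))) (.nd (nat_lit 7) (.nd (nat_lit 8) (.nd (nat_lit 9) 
(.lf (nat_lit 580726) (.g (nat_lit 1816) (.e (nat_lit 336430) (nat_lit 29) (.e (nat_lit 442419) (nat_lit 21) (.e (nat_lit 164326) (nat_lit 230) (.e (nat_lit 163882) (nat_lit 4) (.e (nat_lit 213032) (nat_lit 11) (.e (nat_lit 24629) (nat_lit 9) .nil)))))) (.g (nat_lit 1) (.e (nat_lit 377851) (nat_lit 0) .nil) .nil))) 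
(.lf (nat_lit 581238) (.g (nat_lit 3537) (.e (nat_lit 336443) (nat_lit 32) (.e (nat_lit 466971) (nat_lit 21) (.e (nat_lit 164332) (nat_lit 230) (.e (nat_lit 163880) (nat_lit 4) (.e (nat_lit 213032) (nat_lit 11) (.e (nat_lit 24630) (nat_lit 9) .nil)))))) (.g (nat_lit 1) (.e (nat_lit 378716) (nat_lit 0) .nil) .nil)))) (.nd (nat_lit 9) 
(.lf (nat_lit 580982) (.g (nat_lit 1011) (.e (nat_lit 336437) (nat_lit 31) (.e (nat_lit 458769) (nat_lit 16) (.e (nat_lit 164291) (nat_lit 224) (.e (nat_lit 164112) (nat_lit 118) (.e (nat_lit 794635) (nat_lit 11) (.e (nat_lit 336152) (nat_lit 9) .nil)))))) (.g (nat_lit 1) (.e (nat_lit 378407) (nat_lit 0) .nil) .nil))) 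
(.lf (nat_lit 581494) (.g (nat_lit 2347) (.e (nat_lit 336454) (nat_lit 34) (.e (nat_lit 483366) (nat_lit 18) (.e (nat_lit 57846) (nat_lit 252) (.e (nat_lit 57375) (nat_lit 2) (.e (nat_lit 90158) (nat_lit 11) (.e (nat_lit 24628) (nat_lit 9) .nil)))))) (.g (nat_lit 1) (.e (nat_lit 379127) (nat_lit 0) .nil) .nil))))) (.nd (nat_lit 8) (.nd (nat_lit 9) 
(.lf (nat_lit 580854) (.g (nat_lit 1309) (.e (nat_lit 336432) (nat_lit 30) (.e (nat_lit 450579) (nat_lit 5) (.e (nat_lit 532579) (nat_lit 26) (.e (nat_lit 426108) (nat_lit 1) .nil)))) (.g (nat_lit 0) (.e (nat_lit 378063) (nat_lit 0) .nil) .nil))) 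
(.lf (nat_lit 581366) (.g (nat_lit 1385) (.e (nat_lit 336451) (nat_lit 34) (.e (nat_lit 483365) (nat_lit 18) (.e (nat_lit 57847) (nat_lit 252) (.e (nat_lit 57379) (nat_lit 3) .nil)))) (.g (nat_lit 0) (.e (nat_lit 378874) (nat_lit 0) .nil) .nil)))) (.nd (nat_lit 9) 
(.lf (nat_lit 581110) (.g (nat_lit 2553) (.e (nat_lit 336443) (nat_lit 32) (.e (nat_lit 466969) (nat_lit 21) (.e (nat_lit 164331) (nat_lit 230) (.e (nat_lit 163878) (nat_lit 4) (.e (nat_lit 213030) (nat_lit 11) (.e (nat_lit 24629) (nat_lit 9) .nil)))))) (.g (nat_lit 1) (.e (nat_lit 378588) (nat_lit 0) .nil) .nil))) 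
(.lf (nat_lit 581622) (.g (nat_lit 1115) (.e (nat_lit 336456) (nat_lit 34) (.e (nat_lit 483364) (nat_lit 18) (.e (nat_lit 57844) (nat_lit 252) (.e (nat_lit 57371) (nat_lit 2) .nil)))) (.g (nat_lit 0) (.e (nat_lit 379319) (nat_lit 0) .nil) .nil))))))))) (.nd (nat_lit 4) (.nd (nat_lit 5) (.nd (nat_lit 6) (.nd (nat_lit 7) (.nd (nat_lit 8) (.nd (nat_lit 9) 
(.lf (nat_lit 580622) (.g (nat_lit 1811) (.e (nat_lit 336414) (nat_lit 27) (.e (nat_lit 426572) (nat_lit 35) (.e (nat_lit 401434) (nat_lit 9) (.e (nat_lit 426125) (nat_lit 2) (.e (nat_lit 204544) (nat_lit 2) (.e (nat_lit 24630) (nat_lit 9) .nil)))))) (.g (nat_lit 1) (.e (nat_lit 377615) (nat_lit 0) .nil) .nil))) 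
(.lf (nat_lit 581134) (.g (nat_lit 2483) (.e (nat_lit 336443) (nat_lit 32) (.e (nat_lit 466969) (nat_lit 21) (.e (nat_lit 164332) (nat_lit 230) (.e (nat_lit 163885) (nat_lit 5) (.e (nat_lit 221190) (nat_lit 11) (.e (nat_lit 336078) (nat_lit 9) .nil)))))) (.g (nat_lit 1) (.e (nat_lit 378612) (nat_lit 0) .nil) .nil)))) (.nd (nat_lit 9) 
(.lf (nat_lit 580878) (.g (nat_lit 1752) (.e (nat_lit 336432) (nat_lit 30) (.e (nat_lit 450586) (nat_lit 10) (.e (nat_lit 573473) (nat_lit 12) (.e (nat_lit 57507) (nat_lit 39) .nil)))) (.g (nat_lit 0) (.e (nat_lit 378102) (nat_lit 0) .nil) .nil))) 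
(.lf (nat_lit 581390) (.g (nat_lit 2327) (.e (nat_lit 336452) (nat_lit 34) (.e (nat_lit 483406) (nat_lit 26) (.e (nat_lit 385068) (nat_lit 26) (.e (nat_lit 532501) (nat_lit 1) (.e (nat_lit 57854) (nat_lit 252) .nil))))) (.g (nat_lit 0) (.e (nat_lit 378947) (nat_lit 0) .nil) .nil))))) (.nd (nat_lit 8) (.nd (nat_lit 9) 
(.lf (nat_lit 580750) (.g (nat_lit 2845) (.e (nat_lit 336430) (nat_lit 29) (.e (nat_lit 442421) (nat_lit 21) (.e (nat_lit 164346) (nat_lit 240) (.e (nat_lit 2638) (nat_lit 165) (.e (nat_lit 180278) (nat_lit 32) (.e (nat_lit 1426) (nat_lit 108) .nil)))))) (.g (nat_lit 1) (.e (nat_lit 377886) (nat_lit 0) .nil) .nil))) 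
(.lf (nat_lit 581262) (.g (nat_lit 3768) (.e (nat_lit 336443) (nat_lit 32) (.e (nat_lit 466971) (nat_lit 21) (.e (nat_lit 164348) (nat_lit 240) (.e (nat_lit 2638) (nat_lit 165) (.e (nat_lit 180277) (nat_lit 32) (.e (nat_lit 1427) (nat_lit 108) .nil)))))) (.g (nat_lit 1) (.e (nat_lit 378741) (nat_lit 0) .nil) .nil)))) (.nd (nat_lit 9) 
(.lf (nat_lit 581006) (.g (nat_lit 583) (.e (nat_lit 336440) (nat_lit 32) (.e (nat_lit 466971) (nat_lit 21) (.e (nat_lit 164324) (nat_lit 230) .nil))) (.g (nat_lit 0) (.e (nat_lit 378439) (nat_lit 0) .nil) .nil))) 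
(.lf (nat_lit 581518) (.g (nat_lit 2892) (.e (nat_lit 336454) (nat_lit 34) (.e (nat_lit 483382) (nat_lit 23) (.e (nat_lit 336324) (nat_lit 18) (.e (nat_lit 204831) (nat_lit 18) (.e (nat_lit 57852) (nat_lit 252) (.e (nat_lit 57404) (nat_lit 12) .nil)))))) (.g (nat_lit 1) (.e (nat_lit 379163) (nat_lit 0) .nil) .nil)))))) (.nd (nat_lit 7) (.nd (nat_lit 8) (.nd (nat_lit 9) 
(.lf (nat_lit 580686) (.g (nat_lit 583) (.e (nat_lit 336427) (nat_lit 29) (.e (nat_lit 442421) (nat_lit 21) (.e (nat_lit 164326) (nat_lit 230) .nil))) (.g (nat_lit 0) (.e (nat_lit 377727) (nat_lit 0) .nil) .nil))) 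
(.lf (nat_lit 581198) (.g (nat_lit 2704) (.e (nat_lit 336443) (nat_lit 32) (.e (nat_lit 466971) (nat_lit 21) (.e (nat_lit 164326) (nat_lit 230) (.e (nat_lit 163882) (nat_lit 4) (.e (nat_lit 213032) (nat_lit 11) (.e (nat_lit 24629) (nat_lit 9) .nil)))))) (.g (nat_lit 1) (.e (nat_lit 378676) (nat_lit 0) .nil) .nil)))) (.nd (nat_lit 9) 
(.lf (nat_lit 580942) (.g (nat_lit 2503) (.e (nat_lit 336434) (nat_lit 30) (.e (nat_lit 450579) (nat_lit 5) (.e (nat_lit 532502) (nat_lit 1) (.e (nat_lit 57692) (nat_lit 156) (.e (nat_lit 163905) (nat_lit 12) (.e (nat_lit 426479) (nat_lit 27) .nil)))))) (.g (nat_lit 1) (.e (nat_lit 378237) (nat_lit 0) .nil) .nil))) 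
(.lf (nat_lit 581454) (.g (nat_lit 3257) (.e (nat_lit 336454) (nat_lit 34) (.e (nat_lit 483365) (nat_lit 18) (.e (nat_lit 57846) (nat_lit 252) (.e (nat_lit 57370) (nat_lit 2) (.e (nat_lit 90158) (nat_lit 11) (.e (nat_lit 24630) (nat_lit 9) .nil)))))) (.g (nat_lit 1) (.e (nat_lit 379078) (nat_lit 0) .nil) .nil))))) (.nd (nat_lit 8) (.nd (nat_lit 9) 
(.lf (nat_lit 580814) (.g (nat_lit 2023) (.e (nat_lit 336432) (nat_lit 30) (.e (nat_lit 450564) (nat_lit 0) (.e (nat_lit 5548) (nat_lit 306) (.e (nat_lit 2628) (nat_lit 164) (.e (nat_lit 172126) (nat_lit 14) .nil))))) (.g (nat_lit 0) (.e (nat_lit 378008) (nat_lit 0) .nil) .nil))) 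
(.lf (nat_lit 581326) (.g (nat_lit 1965) (.e (nat_lit 336443) (nat_lit 32) (.e (nat_lit 466979) (nat_lit 23) (.e (nat_lit 204831) (nat_lit 18) (.e (nat_lit 57688) (nat_lit 156) (.e (nat_lit 163903) (nat_lit 12) .nil))))) (.g (nat_lit 0) (.e (nat_lit 378807) (nat_lit 0) .nil) .nil)))) (.nd (nat_lit 9) 
(.lf (nat_lit 581070) (.g (nat_lit 3042) (.e (nat_lit 336443) (nat_lit 32) (.e (nat_lit 466969) (nat_lit 21) (.e (nat_lit 164326) (nat_lit 230) (.e (nat_lit 163882) (nat_lit 4) (.e (nat_lit 213032) (nat_lit 11) (.e (nat_lit 24628) (nat_lit 9) .nil)))))) (.g (nat_lit 1) (.e (nat_lit 378548) (nat_lit 0) .nil) .nil))) 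
(.lf (nat_lit 581582) (.g (nat_lit 2642) (.e (nat_lit 336455) (nat_lit 34) (.e (nat_lit 483380) (nat_lit 23) (.e (nat_lit 336326) (nat_lit 18) (.e (nat_lit 204829) (nat_lit 18) (.e (nat_lit 57854) (nat_lit 252) .nil))))) (.g (nat_lit 0) (.e (nat_lit 379265) (nat_lit 0) .nil) .nil))))))) (.nd (nat_lit 6) (.nd (nat_lit 7) (.nd (nat_lit 8) (.nd (nat_lit 9) 
(.lf (nat_lit 580654) (.g (nat_lit 720) (.e (nat_lit 336426) (nat_lit 29) (.e (nat_lit 442419) (nat_lit 21) (.e (nat_lit 164327) (nat_lit 230) .nil))) (.g (nat_lit 0) (.e (nat_lit 377688) (nat_lit 0) .nil) .nil))) 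
(.lf (nat_lit 581166) (.g (nat_lit 2647) (.e (nat_lit 336443) (nat_lit 32) (.e (nat_lit 466971) (nat_lit 21) (.e (nat_lit 164322) (nat_lit 230) (.e (nat_lit 163885) (nat_lit 5) (.e (nat_lit 221193) (nat_lit 11) (.e (nat_lit 336077) (nat_lit 9) .nil)))))) (.g (nat_lit 1) (.e (nat_lit 378644) (nat_lit 0) .nil) .nil)))) (.nd (nat_lit 9) 
(.lf (nat_lit 580910) (.g (nat_lit 452) (.e (nat_lit 336434) (nat_lit 30) (.e (nat_lit 450561) (nat_lit 0) (.e (nat_lit 5537) (nat_lit 306) .nil))) (.g (nat_lit 0) (.e (nat_lit 378190) (nat_lit 0) .nil) .nil))) 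
(.lf (nat_lit 581422) (.g (nat_lit 2220) (.e (nat_lit 336453) (nat_lit 34) (.e (nat_lit 483383) (nat_lit 23) (.e (nat_lit 336019) (nat_lit 3) (.e (nat_lit 98334) (nat_lit 18) (.e (nat_lit 164159) (nat_lit 152) .nil))))) (.g (nat_lit 0) (.e (nat_lit 378992) (nat_lit 0) .nil) .nil))))) (.nd (nat_lit 8) (.nd (nat_lit 9) 
(.lf (nat_lit 580782) (.g (nat_lit 2054) (.e (nat_lit 336430) (nat_lit 29) (.e (nat_lit 442429) (nat_lit 24) (.e (nat_lit 229663) (nat_lit 240) (.e (nat_lit 2643) (nat_lit 165) (.e (nat_lit 180277) (nat_lit 32) (.e (nat_lit 1426) (nat_lit 108) .nil)))))) (.g (nat_lit 1) (.e (nat_lit 377925) (nat_lit 0) .nil) .nil))) 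
(.lf (nat_lit 581294) (.g (nat_lit 2898) (.e (nat_lit 336443) (nat_lit 32) (.e (nat_lit 466972) (nat_lit 21) (.e (nat_lit 164331) (nat_lit 230) (.e (nat_lit 163885) (nat_lit 5) (.e (nat_lit 221193) (nat_lit 11) (.e (nat_lit 336077) (nat_lit 9) .nil)))))) (.g (nat_lit 1) (.e (nat_lit 378773) (nat_lit 0) .nil) .nil)))) (.nd (nat_lit 9) 
(.lf (nat_lit 581038) (.g (nat_lit 790) (.e (nat_lit 336442) (nat_lit 32) (.e (nat_lit 466972) (nat_lit 21) (.e (nat_lit 164345) (nat_lit 240) (.e (nat_lit 2639) (nat_lit 165) .nil)))) (.g (nat_lit 0) (.e (nat_lit 378501) (nat_lit 0) .nil) .nil))) 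
(.lf (nat_lit 581550) (.g (nat_lit 2148) (.e (nat_lit 336454) (nat_lit 34) (.e (nat_lit 483385) (nat_lit 23) (.e (nat_lit 336324) (nat_lit 18) (.e (nat_lit 204831) (nat_lit 18) (.e (nat_lit 57844) (nat_lit 252) .nil))))) (.g (nat_lit 0) (.e (nat_lit 379213) (nat_lit 0) .nil) .nil)))))) (.nd (nat_lit 7) (.nd (nat_lit 8) (.nd (nat_lit 9) 
(.lf (nat_lit 580718) (.g (nat_lit 2821) (.e (nat_lit 336430) (nat_lit 29) (.e (nat_lit 442378) (nat_lit 0) (.e (nat_lit 1800) (nat_lit 119) (.e (nat_lit 516115) (nat_lit 1) (.e (nat_lit 164325) (nat_lit 230) (.e (nat_lit 163907) (nat_lit 12) (.e (nat_lit 426479) (nat_lit 27) .nil))))))) (.g (nat_lit 1) (.e (nat_lit 377839) (nat_lit 0) .nil) .nil))) 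
(.lf (nat_lit 581230) (.g (nat_lit 3286) (.e (nat_lit 336443) (nat_lit 32) (.e (nat_lit 466971) (nat_lit 21) (.e (nat_lit 164332) (nat_lit 230) (.e (nat_lit 163880) (nat_lit 4) (.e (nat_lit 213030) (nat_lit 11) (.e (nat_lit 24629) (nat_lit 9) .nil)))))) (.g (nat_lit 1) (.e (nat_lit 378708) (nat_lit 0) .nil) .nil)))) (.nd (nat_lit 9) 
(.lf (nat_lit 580974) (.g (nat_lit 1351) (.e (nat_lit 336434) (nat_lit 30) (.e (nat_lit 450586) (nat_lit 10) (.e (nat_lit 573475) (nat_lit 12) (.e (nat_lit 65280) (nat_lit 0) .nil)))) (.g (nat_lit 0) (.e (nat_lit 378279) (nat_lit 0) .nil) .nil))) 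
(.lf (nat_lit 581486) (.g (nat_lit 3423) (.e (nat_lit 336454) (nat_lit 34) (.e (nat_lit 483365) (nat_lit 18) (.e (nat_lit 57924) (nat_lit 282) (.e (nat_lit 163875) (nat_lit 3) (.e (nat_lit 204861) (nat_lit 26) (.e (nat_lit 336075) (nat_lit 9) .nil)))))) (.g (nat_lit 1) (.e (nat_lit 379119) (nat_lit 0) .nil) .nil))))) (.nd (nat_lit 8) (.nd (nat_lit 9) 
(.lf (nat_lit 580846) (.g (nat_lit 2837) (.e (nat_lit 336432) (nat_lit 30) (.e (nat_lit 450579) (nat_lit 5) (.e (nat_lit 532503) (nat_lit 1) (.e (nat_lit 57688) (nat_lit 156) (.e (nat_lit 163903) (nat_lit 12) (.e (nat_lit 426479) (nat_lit 27) .nil)))))) (.g (nat_lit 1) (.e (nat_lit 378053) (nat_lit 0) .nil) .nil))) 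
(.lf (nat_lit 581358) (.g (nat_lit 1351) (.e (nat_lit 336444) (nat_lit 32) (.e (nat_lit 466977) (nat_lit 22) (.e (nat_lit 196656) (nat_lit 11) (.e (nat_lit 16392) (nat_lit 0) .nil)))) (.g (nat_lit 0) (.e (nat_lit 378852) (nat_lit 0) .nil) .nil)))) (.nd (nat_lit 9) 
(.lf (nat_lit 581102) (.g (nat_lit 2940) (.e (nat_lit 336443) (nat_lit 32) (.e (nat_lit 466969) (nat_lit 21) (.e (nat_lit 164330) (nat_lit 230) (.e (nat_lit 163880) (nat_lit 4) (.e (nat_lit 213032) (nat_lit 11) (.e (nat_lit 24629) (nat_lit 9) .nil)))))) (.g (nat_lit 1) (.e (nat_lit 378580) (nat_lit 0) .nil) .nil))) 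
(.lf (nat_lit 581614) (.g (nat_lit 1761) (.e (nat_lit 336456) (nat_lit 34) (.e (nat_lit 483363) (nat_lit 18) (.e (nat_lit 57852) (nat_lit 252) (.e (nat_lit 57371) (nat_lit 2) .nil)))) (.g (nat_lit 0) (.e (nat_lit 379310) (nat_lit 0) .nil) .nil)))))))) (.nd (nat_lit 5) (.nd (nat_lit 6) (.nd (nat_lit 7) (.nd (nat_lit 8) (.nd (nat_lit 9) 
(.lf (nat_lit 580638) (.g (nat_lit 1750) (.e (nat_lit 336421) (nat_lit 28) (.e (nat_lit 434181) (nat_lit 0) (.e (nat_lit 1661) (nat_lit 115) (.e (nat_lit 393232) (nat_lit 17) (.e (nat_lit 7513) (nat_lit 402) .nil))))) (.g (nat_lit 0) (.e (nat_lit 377649) (nat_lit 0) .nil) .nil))) 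
(.lf (nat_lit 581150) (.g (nat_lit 3688) (.e (nat_lit 336443) (nat_lit 32) (.e (nat_lit 466969) (nat_lit 21) (.e (nat_lit 164348) (nat_lit 240) (.e (nat_lit 2619) (nat_lit 164) (.e (nat_lit 172126) (nat_lit 14) (.e (nat_lit 491548) (nat_lit 9) .nil)))))) (.g (nat_lit 1) (.e (nat_lit 378628) (nat_lit 0) .nil) .nil)))) (.nd (nat_lit 9) 
(.lf (nat_lit 580894) (.g (nat_lit 2781) (.e (nat_lit 336432) (nat_lit 30) (.e (nat_lit 450588) (nat_lit 10) (.e (nat_lit 573475) (nat_lit 12) (.e (nat_lit 57350) (nat_lit 0) .nil)))) (.g (nat_lit 0) (.e (nat_lit 378122) (nat_lit 0) .nil) .nil))) 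
(.lf (nat_lit 581406) (.g (nat_lit 2185) (.e (nat_lit 336453) (nat_lit 34) (.e (nat_lit 483365) (nat_lit 18) (.e (nat_lit 57846) (nat_lit 252) (.e (nat_lit 57379) (nat_lit 3) (.e (nat_lit 98315) (nat_lit 9) .nil))))) (.g (nat_lit 0) (.e (nat_lit 378965) (nat_lit 0) .nil) .nil))))) (.nd (nat_lit 8) (.nd (nat_lit 9) 
(.lf (nat_lit 580766) (.g (nat_lit 3068) (.e (nat_lit 336430) (nat_lit 29) (.e (nat_lit 442425) (nat_lit 23) (.e (nat_lit 204831) (nat_lit 18) (.e (nat_lit 57687) (nat_lit 156) (.e (nat_lit 163902) (nat_lit 12) (.e (nat_lit 426479) (nat_lit 27) .nil)))))) (.g (nat_lit 1) (.e (nat_lit 377904) (nat_lit 0) .nil) .nil))) 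
(.lf (nat_lit 581278) (.g (nat_lit 3219) (.e (nat_lit 336443) (nat_lit 32) (.e (nat_lit 466972) (nat_lit 21) (.e (nat_lit 164330) (nat_lit 230) (.e (nat_lit 163877) (nat_lit 4) (.e (nat_lit 213032) (nat_lit 11) (.e (nat_lit 24625) (nat_lit 9) .nil)))))) (.g (nat_lit 1) (.e (nat_lit 378757) (nat_lit 0) .nil) .nil)))) (.nd (nat_lit 9) 
(.lf (nat_lit 581022) (.g (nat_lit 1793) (.e (nat_lit 336442) (nat_lit 32) (.e (nat_lit 466969) (nat_lit 21) (.e (nat_lit 164332) (nat_lit 230) (.e (nat_lit 163885) (nat_lit 5) (.e (nat_lit 221192) (nat_lit 11) (.e (nat_lit 336153) (nat_lit 9) .nil)))))) (.g (nat_lit 1) (.e (nat_lit 378465) (nat_lit 0) .nil) .nil))) 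
(.lf (nat_lit 581534) (.g (nat_lit 2916) (.e (nat_lit 336454) (nat_lit 34) (.e (nat_lit 483383) (nat_lit 23) (.e (nat_lit 336324) (nat_lit 18) (.e (nat_lit 204831) (nat_lit 18) (.e (nat_lit 57854) (nat_lit 252) (.e (nat_lit 57405) (nat_lit 12) .nil)))))) (.g (nat_lit 1) (.e (nat_lit 379187) (nat_lit 0) .nil) .nil)))))) (.nd (nat_lit 7) (.nd (nat_lit 8) (.nd (nat_lit 9) 
(.lf (nat_lit 580702) (.g (nat_lit 1868) (.e (nat_lit 336429) (nat_lit 29) (.e (nat_lit 442419) (nat_lit 21) (.e (nat_lit 164332) (nat_lit 230) (.e (nat_lit 163884) (nat_lit 5) (.e (nat_lit 221192) (nat_lit 11) .nil))))) (.g (nat_lit 0) (.e (nat_lit 377792) (nat_lit 0) .nil) .nil))) 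
(.lf (nat_lit 581214) (.g (nat_lit 2942) (.e (nat_lit 336443) (nat_lit 32) (.e (nat_lit 466971) (nat_lit 21) (.e (nat_lit 164327) (nat_lit 230) (.e (nat_lit 163886) (nat_lit 5) (.e (nat_lit 221194) (nat_lit 11) (.e (nat_lit 336074) (nat_lit 9) .nil)))))) (.g (nat_lit 1) (.e (nat_lit 378692) (nat_lit 0) .nil) .nil)))) (.nd (nat_lit 9) 
(.lf (nat_lit 580958) (.g (nat_lit 3143) (.e (nat_lit 336434) (nat_lit 30) (.e (nat_lit 450579) (nat_lit 5) (.e (nat_lit 532504) (nat_lit 1) (.e (nat_lit 57691) (nat_lit 156) (.e (nat_lit 163905) (nat_lit 12) (.e (nat_lit 426479) (nat_lit 27) .nil)))))) (.g (nat_lit 1) (.e (nat_lit 378261) (nat_lit 0) .nil) .nil))) 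
(.lf (nat_lit 581470) (.g (nat_lit 2823) (.e (nat_lit 336454) (nat_lit 34) (.e (nat_lit 483365) (nat_lit 18) (.e (nat_lit 57849) (nat_lit 252) (.e (nat_lit 57374) (nat_lit 2) (.e (nat_lit 90159) (nat_lit 11) .nil))))) (.g (nat_lit 0) (.e (nat_lit 379097) (nat_lit 0) .nil) .nil))))) (.nd (nat_lit 8) (.nd (nat_lit 9) 
(.lf (nat_lit 580830) (.g (nat_lit 2249) (.e (nat_lit 336432) (nat_lit 30) (.e (nat_lit 450565) (nat_lit 0) (.e (nat_lit 5548) (nat_lit 306) (.e (nat_lit 2640) (nat_lit 165) (.e (nat_lit 180277) (nat_lit 32) (.e (nat_lit 1425) (nat_lit 108) .nil)))))) (.g (nat_lit 1) (.e (nat_lit 378030) (nat_lit 0) .nil) .nil))) 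
(.lf (nat_lit 581342) (.g (nat_lit 946) (.e (nat_lit 336444) (nat_lit 32) (.e (nat_lit 466969) (nat_lit 21) (.e (nat_lit 164332) (nat_lit 230) (.e (nat_lit 163880) (nat_lit 4) .nil)))) (.g (nat_lit 0) (.e (nat_lit 378833) (nat_lit 0) .nil) .nil)))) (.nd (nat_lit 9) 
(.lf (nat_lit 581086) (.g (nat_lit 3015) (.e (nat_lit 336443) (nat_lit 32) (.e (nat_lit 466969) (nat_lit 21) (.e (nat_lit 164327) (nat_lit 230) (.e (nat_lit 163886) (nat_lit 5) (.e (nat_lit 221194) (nat_lit 11) (.e (nat_lit 336074) (nat_lit 9) .nil)))))) (.g (nat_lit 1) (.e (nat_lit 378564) (nat_lit 0) .nil) .nil))) 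
(.lf (nat_lit 581598) (.g (nat_lit 1014) (.e (nat_lit 336455) (nat_lit 34) (.e (nat_lit 483405) (nat_lit 26) (.e (nat_lit 385068) (nat_lit 26) (.e (nat_lit 532504) (nat_lit 1) .nil)))) (.g (nat_lit 0) (.e (nat_lit 379292) (nat_lit 0) .nil) .nil))))))) (.nd (nat_lit 6) (.nd (nat_lit 7) (.nd (nat_lit 8) (.nd (nat_lit 9) 
(.lf (nat_lit 580670) (.g (nat_lit 2055) (.e (nat_lit 336426) (nat_lit 29) (.e (nat_lit 442421) (nat_lit 21) (.e (nat_lit 164347) (nat_lit 240) (.e (nat_lit 2638) (nat_lit 165) (.e (nat_lit 180278) (nat_lit 32) .nil))))) (.g (nat_lit 0) (.e (nat_lit 377707) (nat_lit 0) .nil) .nil))) 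
(.lf (nat_lit 581182) (.g (nat_lit 2672) (.e (nat_lit 336443) (nat_lit 32) (.e (nat_lit 466971) (nat_lit 21) (.e (nat_lit 164325) (nat_lit 230) (.e (nat_lit 163882) (nat_lit 4) (.e (nat_lit 213030) (nat_lit 11) (.e (nat_lit 24629) (nat_lit 9) .nil)))))) (.g (nat_lit 1) (.e (nat_lit 378660) (nat_lit 0) .nil) .nil)))) (.nd (nat_lit 9) 
(.lf (nat_lit 580926) (.g (nat_lit 994) (.e (nat_lit 336434) (nat_lit 30) (.e (nat_lit 450579) (nat_lit 5) (.e (nat_lit 532499) (nat_lit 1) (.e (nat_lit 57692) (nat_lit 156) .nil)))) (.g (nat_lit 0) (.e (nat_lit 378214) (nat_lit 0) .nil) .nil))) 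
(.lf (nat_lit 581438) (.g (nat_lit 3249) (.e (nat_lit 336454) (nat_lit 34) (.e (nat_lit 483363) (nat_lit 18) (.e (nat_lit 57930) (nat_lit 282) (.e (nat_lit 163867) (nat_lit 2) (.e (nat_lit 196681) (nat_lit 17) (.e (nat_lit 131105) (nat_lit 9) .nil)))))) (.g (nat_lit 1) (.e (nat_lit 379058) (nat_lit 0) .nil) .nil))))) (.nd (nat_lit 8) (.nd (nat_lit 9) 
(.lf (nat_lit 580798) (.g (nat_lit 738) (.e (nat_lit 336431) (nat_lit 29) (.e (nat_lit 442427) (nat_lit 23) (.e (nat_lit 204809) (nat_lit 9) .nil))) (.g (nat_lit 0) (.e (nat_lit 377952) (nat_lit 0) .nil) .nil))) 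
(.lf (nat_lit 581310) (.g (nat_lit 3880) (.e (nat_lit 336443) (nat_lit 32) (.e (nat_lit 466972) (nat_lit 21) (.e (nat_lit 164332) (nat_lit 230) (.e (nat_lit 163885) (nat_lit 5) (.e (nat_lit 221194) (nat_lit 11) (.e (nat_lit 336074) (nat_lit 9) .nil)))))) (.g (nat_lit 1) (.e (nat_lit 378789) (nat_lit 0) .nil) .nil)))) (.nd (nat_lit 9) 
(.lf (nat_lit 581054) (.g (nat_lit 2836) (.e (nat_lit 336443) (nat_lit 32) (.e (nat_lit 466969) (nat_lit 21) (.e (nat_lit 164325) (nat_lit 230) (.e (nat_lit 163881) (nat_lit 4) (.e (nat_lit 213032) (nat_lit 11) (.e (nat_lit 24629) (nat_lit 9) .nil)))))) (.g (nat_lit 1) (.e (nat_lit 378532) (nat_lit 0) .nil) .nil))) 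
(.lf (nat_lit 581566) (.g (nat_lit 568) (.e (nat_lit 336454) (nat_lit 34) (.e (nat_lit 483408) (nat_lit 26) (.e (nat_lit 385064) (nat_lit 26) .nil))) (.g (nat_lit 0) (.e (nat_lit 379245) (nat_lit 0) .nil) .nil)))))) (.nd (nat_lit 7) (.nd (nat_lit 8) (.nd (nat_lit 9) 
(.lf (nat_lit 580734) (.g (nat_lit 2741) (.e (nat_lit 336430) (nat_lit 29) (.e (nat_lit 442419) (nat_lit 21) (.e (nat_lit 164347) (nat_lit 240) (.e (nat_lit 2638) (nat_lit 165) (.e (nat_lit 180277) (nat_lit 32) (.e (nat_lit 1426) (nat_lit 108) .nil)))))) (.g (nat_lit 1) (.e (nat_lit 377867) (nat_lit 0) .nil) .nil))) 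
(.lf (nat_lit 581246) (.g (nat_lit 3644) (.e (nat_lit 336443) (nat_lit 32) (.e (nat_lit 466971) (nat_lit 21) (.e (nat_lit 164332) (nat_lit 230) (.e (nat_lit 163885) (nat_lit 5) (.e (nat_lit 221194) (nat_lit 11) (.e (nat_lit 336074) (nat_lit 9) .nil)))))) (.g (nat_lit 1) (.e (nat_lit 378724) (nat_lit 0) .nil) .nil)))) (.nd (nat_lit 9) 
(.lf (nat_lit 580990) (.g (nat_lit 168) (.e (nat_lit 336438) (nat_lit 31) (.e (nat_lit 458769) (nat_lit 16) (.e (nat_lit 164338) (nat_lit 232) .nil))) (.g (nat_lit 0) (.e (nat_lit 378420) (nat_lit 0) .nil) .nil))) 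
(.lf (nat_lit 581502) (.g (nat_lit 4134) (.e (nat_lit 336454) (nat_lit 34) (.e (nat_lit 483378) (nat_lit 23) (.e (nat_lit 336324) (nat_lit 18) (.e (nat_lit 204831) (nat_lit 18) (.e (nat_lit 57852) (nat_lit 252) (.e (nat_lit 57406) (nat_lit 12) .nil)))))) (.g (nat_lit 1) (.e (nat_lit 379135) (nat_lit 0) .nil) .nil))))) (.nd (nat_lit 8) (.nd (nat_lit 9) 
(.lf (nat_lit 580862) (.g (nat_lit 549) (.e (nat_lit 336432) (nat_lit 30) (.e (nat_lit 450580) (nat_lit 5) (.e (nat_lit 532502) (nat_lit 1) .nil))) (.g (nat_lit 0) (.e (nat_lit 378082) (nat_lit 0) .nil) .nil))) 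
(.lf (nat_lit 581374) (.g (nat_lit 1501) (.e (nat_lit 336452) (nat_lit 34) (.e (nat_lit 483380) (nat_lit 23) (.e (nat_lit 336316) (nat_lit 17) .nil))) (.g (nat_lit 0) (.e (nat_lit 378908) (nat_lit 0) .nil) .nil)))) (.nd (nat_lit 9) 
(.lf (nat_lit 581118) (.g (nat_lit 3405) (.e (nat_lit 336443) (nat_lit 32) (.e (nat_lit 466969) (nat_lit 21) (.e (nat_lit 164331) (nat_lit 230) (.e (nat_lit 163885) (nat_lit 5) (.e (nat_lit 221194) (nat_lit 11) (.e (nat_lit 336084) (nat_lit 9) .nil)))))) (.g (nat_lit 1) (.e (nat_lit 378596) (nat_lit 0) .nil) .nil))) 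
(.lf (nat_lit 581630) (.g (nat_lit 3567) (.e (nat_lit 336456) (nat_lit 34) (.e (nat_lit 483364) (nat_lit 18) (.e (nat_lit 57852) (nat_lit 252) (.e (nat_lit 57373) (nat_lit 2) (.e (nat_lit 90160) (nat_lit 11) (.e (nat_lit 24630) (nat_lit 9) .nil)))))) (.g (nat_lit 1) (.e (nat_lit 379327) (nat_lit 0) .nil) .nil)))))))))))) 
(.nd (nat_lit 1) (.nd (nat_lit 2) (.nd (nat_lit 3) (.nd (nat_lit 4) (.nd (nat_lit 5) 
(.nd (nat_lit 6) (.nd (nat_lit 7) (.nd (nat_lit 8) (.nd (nat_lit 9) 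
(.lf (nat_lit 580609) (.g (nat_lit 1995) (.e (nat_lit 336414) (nat_lit 27) (.e (nat_lit 426228) (nat_lit 9) (.e (nat_lit 426435) (nat_lit 18) (.e (nat_lit 98333) (nat_lit 18) (.e (nat_lit 164332) (nat_lit 230) (.e (nat_lit 163905) (nat_lit 12) (.e (nat_lit 426479) (nat_lit 27) .nil))))))) (.g (nat_lit 1) (.e (nat_lit 377601) (nat_lit 0) .nil) .nil))) 
(.lf (nat_lit 581121) (.g (nat_lit 2929) (.e (nat_lit 336443) (nat_lit 32) (.e (nat_lit 466969) (nat_lit 21) (.e (nat_lit 164332) (nat_lit 230) (.e (nat_lit 163878) (nat_lit 4) (.e (nat_lit 213032) (nat_lit 11) (.e (nat_lit 24629) (nat_lit 9) .nil)))))) (.g (nat_lit 1) (.e (nat_lit 378599) (nat_lit 0) .nil) .nil)))) (.nd (nat_lit 9) 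
(.lf (nat_lit 580865) (.g (nat_lit 2996) (.e (nat_lit 336432) (nat_lit 30) (.e (nat_lit 450580) (nat_lit 5) (.e (nat_lit 532503) (nat_lit 1) (.e (nat_lit 57687) (nat_lit 156) (.e (nat_lit 163902) (nat_lit 12) (.e (nat_lit 426479) (nat_lit 27) .nil)))))) (.g (nat_lit 1) (.e (nat_lit 378085) (nat_lit 0) .nil) .nil))) 
(.lf (nat_lit 581377) (.g (nat_lit 2231) (.e (nat_lit 336452) (nat_lit 34) (.e (nat_lit 483383) (nat_lit 23) (.e (nat_lit 336324) (nat_lit 18) (.e (nat_lit 204831) (nat_lit 18) .nil)))) (.g (nat_lit 0) (.e (nat_lit 378927) (nat_lit 0) .nil) .nil))))) (.nd (nat_lit 8) (.nd (nat_lit 9) 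
(.lf (nat_lit 580737) (.g (nat_lit 776) (.e (nat_lit 336430) (nat_lit 29) (.e (nat_lit 442419) (nat_lit 21) (.e (nat_lit 164348) (nat_lit 240) (.e (nat_lit 2638) (nat_lit 165) .nil)))) (.g (nat_lit 0) (.e (nat_lit 377871) (nat_lit 0) .nil) .nil))) 
(.lf (nat_lit 581249) (.g (nat_lit 3485) (.e (nat_lit 336443) (nat_lit 32) (.e (nat_lit 466971) (nat_lit 21) (.e (nat_lit 164332) (nat_lit 230) (.e (nat_lit 163885) (nat_lit 5) (.e (nat_lit 221194) (nat_lit 11) (.e (nat_lit 336084) (nat_lit 9) .nil)))))) (.g (nat_lit 1) (.e (nat_lit 378727) (nat_lit 0) .nil) .nil)))) (.nd (nat_lit 9) 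
(.lf (nat_lit 580993) (.g (nat_lit 1262) (.e (nat_lit 336440) (nat_lit 32) (.e (nat_lit 466969) (nat_lit 21) (.e (nat_lit 164324) (nat_lit 230) (.e (nat_lit 163885) (nat_lit 5) .nil)))) (.g (nat_lit 0) (.e (nat_lit 378425) (nat_lit 0) .nil) .nil))) 
(.lf (nat_lit 581505) (.g (nat_lit 934) (.e (nat_lit 336454) (nat_lit 34) (.e (nat_lit 483380) (nat_lit 23) (.e (nat_lit 336019) (nat_lit 3) .nil))) (.g (nat_lit 0) (.e (nat_lit 379138) (nat_lit 0) .nil) .nil)))))) (.nd (nat_lit 7) (.nd (nat_lit 8) (.nd (nat_lit 9) 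
(.lf (nat_lit 580673) (.g (nat_lit 665) (.e (nat_lit 336426) (nat_lit 29) (.e (nat_lit 442427) (nat_lit 23) (.e (nat_lit 204812) (nat_lit 9) .nil))) (.g (nat_lit 0) (.e (nat_lit 377710) (nat_lit 0) .nil) .nil))) 
(.lf (nat_lit 581185) (.g (nat_lit 3078) (.e (nat_lit 336443) (nat_lit 32) (.e (nat_lit 466971) (nat_lit 21) (.e (nat_lit 164325) (nat_lit 230) (.e (nat_lit 163882) (nat_lit 4) (.e (nat_lit 213032) (nat_lit 11) (.e (nat_lit 24628) (nat_lit 9) .nil)))))) (.g (nat_lit 1) (.e (nat_lit 378663) (nat_lit 0) .nil) .nil)))) (.nd (nat_lit 9) 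
(.lf (nat_lit 580929) (.g (nat_lit 1094) (.e (nat_lit 336434) (nat_lit 30) (.e (nat_lit 450579) (nat_lit 5) (.e (nat_lit 532501) (nat_lit 1) (.e (nat_lit 57661) (nat_lit 152) .nil)))) (.g (nat_lit 0) (.e (nat_lit 378217) (nat_lit 0) .nil) .nil))) 
(.lf (nat_lit 581441) (.g (nat_lit 3538) (.e (nat_lit 336454) (nat_lit 34) (.e (nat_lit 483363) (nat_lit 18) (.e (nat_lit 57931) (nat_lit 282) (.e (nat_lit 163869) (nat_lit 2) (.e (nat_lit 196681) (nat_lit 17) (.e (nat_lit 131109) (nat_lit 9) .nil)))))) (.g (nat_lit 1) (.e (nat_lit 379061) (nat_lit 0) .nil) .nil))))) (.nd (nat_lit 8) (.nd (nat_lit 9) 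
(.lf (nat_lit 580801) (.g (nat_lit 679) (.e (nat_lit 336431) (nat_lit 29) (.e (nat_lit 442427) (nat_lit 23) (.e (nat_lit 212736) (nat_lit 9) .nil))) (.g (nat_lit 0) (.e (nat_lit 377955) (nat_lit 0) .nil) .nil))) 
(.lf (nat_lit 581313) (.g (nat_lit 2527) (.e (nat_lit 336443) (nat_lit 32) (.e (nat_lit 466972) (nat_lit 21) (.e (nat_lit 164345) (nat_lit 240) (.e (nat_lit 2638) (nat_lit 165) (.e (nat_lit 180277) (nat_lit 32) (.e (nat_lit 1426) (nat_lit 108) .nil)))))) (.g (nat_lit 1) (.e (nat_lit 378792) (nat_lit 0) .nil) .nil)))) (.nd (nat_lit 9) 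
(.lf (nat_lit 581057) (.g (nat_lit 3381) (.e (nat_lit 336443) (nat_lit 32) (.e (nat_lit 466969) (nat_lit 21) (.e (nat_lit 164325) (nat_lit 230) (.e (nat_lit 163882) (nat_lit 4) (.e (nat_lit 213032) (nat_lit 11) (.e (nat_lit 24626) (nat_lit 9) .nil)))))) (.g (nat_lit 1) (.e (nat_lit 378535) (nat_lit 0) .nil) .nil))) 
(.lf (nat_lit 581569) (.g (nat_lit 2758) (.e (nat_lit 336455) (nat_lit 34) (.e (nat_lit 483363) (nat_lit 18) (.e (nat_lit 57854) (nat_lit 252) (.e (nat_lit 57373) (nat_lit 2) (.e (nat_lit 90158) (nat_lit 11) .nil))))) (.g (nat_lit 0) (.e (nat_lit 379248) (nat_lit 0) .nil) .nil))))))) (.nd (nat_lit 6) (.nd (nat_lit 7) (.nd (nat_lit 8) (.nd (nat_lit 9) 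
(.lf (nat_lit 580641) (.g (nat_lit 2000) (.e (nat_lit 336421) (nat_lit 28) (.e (nat_lit 434189) (nat_lit 13) (.e (nat_lit 2788) (nat_lit 179) (.e (nat_lit 294973) (nat_lit 28) (.e (nat_lit 434181) (nat_lit 0) (.e (nat_lit 1427) (nat_lit 108) .nil)))))) (.g (nat_lit 1) (.e (nat_lit 377652) (nat_lit 0) .nil) .nil))) 
(.lf (nat_lit 581153) (.g (nat_lit 2847) (.e (nat_lit 336443) (nat_lit 32) (.e (nat_lit 466969) (nat_lit 21) (.e (nat_lit 164348) (nat_lit 240) (.e (nat_lit 2638) (nat_lit 165) (.e (nat_lit 180277) (nat_lit 32) (.e (nat_lit 1425) (nat_lit 108) .nil)))))) (.g (nat_lit 1) (.e (nat_lit 378631) (nat_lit 0) .nil) .nil)))) (.nd (nat_lit 9) 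
(.lf (nat_lit 580897) (.g (nat_lit 2716) (.e (nat_lit 336432) (nat_lit 30) (.e (nat_lit 450588) (nat_lit 10) (.e (nat_lit 573475) (nat_lit 12) (.e (nat_lit 57360) (nat_lit 0) .nil)))) (.g (nat_lit 0) (.e (nat_lit 378126) (nat_lit 0) .nil) .nil))) 
(.lf (nat_lit 581409) (.g (nat_lit 1467) (.e (nat_lit 336453) (nat_lit 34) (.e (nat_lit 483365) (nat_lit 18) (.e (nat_lit 57847) (nat_lit 252) (.e (nat_lit 57379) (nat_lit 3) (.e (nat_lit 98315) (nat_lit 9) .nil))))) (.g (nat_lit 0) (.e (nat_lit 378968) (nat_lit 0) .nil) .nil))))) (.nd (nat_lit 8) (.nd (nat_lit 9) 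
(.lf (nat_lit 580769) (.g (nat_lit 1379) (.e (nat_lit 336430) (nat_lit 29) (.e (nat_lit 442426) (nat_lit 23) (.e (nat_lit 204829) (nat_lit 18) (.e (nat_lit 57692) (nat_lit 156) .nil)))) (.g (nat_lit 0) (.e (nat_lit 377907) (nat_lit 0) .nil) .nil))) 
(.lf (nat_lit 581281) (.g (nat_lit 3337) (.e (nat_lit 336443) (nat_lit 32) (.e (nat_lit 466972) (nat_lit 21) (.e (nat_lit 164330) (nat_lit 230) (.e (nat_lit 163880) (nat_lit 4) (.e (nat_lit 213032) (nat_lit 11) (.e (nat_lit 24624) (nat_lit 9) .nil)))))) (.g (nat_lit 1) (.e (nat_lit 378760) (nat_lit 0) .nil) .nil)))) (.nd (nat_lit 9) 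
(.lf (nat_lit 581025) (.g (nat_lit 721) (.e (nat_lit 336442) (nat_lit 32) (.e (nat_lit 466969) (nat_lit 21) (.e (nat_lit 164347) (nat_lit 240) (.e (nat_lit 2640) (nat_lit 165) .nil)))) (.g (nat_lit 0) (.e (nat_lit 378472) (nat_lit 0) .nil) .nil))) 
(.lf (nat_lit 581537) (.g (nat_lit 2183) (.e (nat_lit 336454) (nat_lit 34) (.e (nat_lit 483384) (nat_lit 23) (.e (nat_lit 336324) (nat_lit 18) (.e (nat_lit 204831) (nat_lit 18) (.e (nat_lit 57853) (nat_lit 252) .nil))))) (.g (nat_lit 0) (.e (nat_lit 379200) (nat_lit 0) .nil) .nil)))))) (.nd (nat_lit 7) (.nd (nat_lit 8) (.nd (nat_lit 9) 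
(.lf (nat_lit 580705) (.g (nat_lit 983) (.e (nat_lit 336429) (nat_lit 29) (.e (nat_lit 442419) (nat_lit 21) (.e (nat_lit 164346) (nat_lit 240) (.e (nat_lit 2640) (nat_lit 165) .nil)))) (.g (nat_lit 0) (.e (nat_lit 377797) (nat_lit 0) .nil) .nil))) 
(.lf (nat_lit 581217) (.g (nat_lit 1927) (.e (nat_lit 336443) (nat_lit 32) (.e (nat_lit 466971) (nat_lit 21) (.e (nat_lit 164329) (nat_lit 230) (.e (nat_lit 163884) (nat_lit 5) (.e (nat_lit 221193) (nat_lit 11) (.e (nat_lit 336084) (nat_lit 9) .nil)))))) (.g (nat_lit 1) (.e (nat_lit 378695) (nat_lit 0) .nil) .nil)))) (.nd (nat_lit 9) 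
(.lf (nat_lit 580961) (.g (nat_lit 2603) (.e (nat_lit 336434) (nat_lit 30) (.e (nat_lit 450579) (nat_lit 5) (.e (nat_lit 532504) (nat_lit 1) (.e (nat_lit 57692) (nat_lit 156) (.e (nat_lit 163905) (nat_lit 12) (.e (nat_lit 426479) (nat_lit 27) .nil)))))) (.g (nat_lit 1) (.e (nat_lit 378264) (nat_lit 0) .nil) .nil))) 
(.lf (nat_lit 581473) (.g (nat_lit 3447) (.e (nat_lit 336454) (nat_lit 34) (.e (nat_lit 483365) (nat_lit 18) (.e (nat_lit 57851) (nat_lit 252) (.e (nat_lit 57371) (nat_lit 2) (.e (nat_lit 90160) (nat_lit 11) (.e (nat_lit 24624) (nat_lit 9) .nil)))))) (.g (nat_lit 1) (.e (nat_lit 379100) (nat_lit 0) .nil) .nil))))) (.nd (nat_lit 8) (.nd (nat_lit 9) 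
(.lf (nat_lit 580833) (.g (nat_lit 2379) (.e (nat_lit 336432) (nat_lit 30) (.e (nat_lit 450565) (nat_lit 0) (.e (nat_lit 5548) (nat_lit 306) (.e (nat_lit 2640) (nat_lit 165) (.e (nat_lit 180278) (nat_lit 32) (.e (nat_lit 1425) (nat_lit 108) .nil)))))) (.g (nat_lit 1) (.e (nat_lit 378033) (nat_lit 0) .nil) .nil))) 
(.lf (nat_lit 581345) (.g (nat_lit 500) (.e (nat_lit 336444) (nat_lit 32) (.e (nat_lit 466971) (nat_lit 21) (.e (nat_lit 164325) (nat_lit 230) .nil))) (.g (nat_lit 0) (.e (nat_lit 378836) (nat_lit 0) .nil) .nil)))) (.nd (nat_lit 9) 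
(.lf (nat_lit 581089) (.g (nat_lit 2365) (.e (nat_lit 336443) (nat_lit 32) (.e (nat_lit 466969) (nat_lit 21) (.e (nat_lit 164329) (nat_lit 230) (.e (nat_lit 163843) (nat_lit 0) (.e (nat_lit 3653) (nat_lit 227) (.e (nat_lit 778462) (nat_lit 11) (.e (nat_lit 24628) (nat_lit 9) .nil))))))) (.g (nat_lit 1) (.e (nat_lit 378567) (nat_lit 0) .nil) .nil))) 
(.lf (nat_lit 581601) (.g (nat_lit 625) (.e (nat_lit 336456) (nat_lit 34) (.e (nat_lit 483346) (nat_lit 17) (.e (nat_lit 6445) (nat_lit 343) .nil))) (.g (nat_lit 0) (.e (nat_lit 379297) (nat_lit 0) .nil) .nil)))))))) (.nd (nat_lit 5) (.nd (nat_lit 6) (.nd (nat_lit 7) (.nd (nat_lit 8) (.nd (nat_lit 9) 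
(.lf (nat_lit 580625) (.g (nat_lit 751) (.e (nat_lit 336415) (nat_lit 27) (.e (nat_lit 426306) (nat_lit 12) (.e (nat_lit 475199) (nat_lit 40) .nil))) (.g (nat_lit 0) (.e (nat_lit 377619) (nat_lit 0) .nil) .nil))) 
(.lf (nat_lit 581137) (.g (nat_lit 3822) (.e (nat_lit 336443) (nat_lit 32) (.e (nat_lit 466969) (nat_lit 21) (.e (nat_lit 164332) (nat_lit 230) (.e (nat_lit 163885) (nat_lit 5) (.e (nat_lit 221194) (nat_lit 11) (.e (nat_lit 336074) (nat_lit 9) .nil)))))) (.g (nat_lit 1) (.e (nat_lit 378615) (nat_lit 0) .nil) .nil)))) (.nd (nat_lit 9) 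
(.lf (nat_lit 580881) (.g (nat_lit 2717) (.e (nat_lit 336432) (nat_lit 30) (.e (nat_lit 450586) (nat_lit 10) (.e (nat_lit 573474) (nat_lit 12) (.e (nat_lit 65280) (nat_lit 0) .nil)))) (.g (nat_lit 0) (.e (nat_lit 378106) (nat_lit 0) .nil) .nil))) 
(.lf (nat_lit 581393) (.g (nat_lit 1958) (.e (nat_lit 336452) (nat_lit 34) (.e (nat_lit 483408) (nat_lit 26) (.e (nat_lit 385068) (nat_lit 26) (.e (nat_lit 532503) (nat_lit 1) .nil)))) (.g (nat_lit 0) (.e (nat_lit 378950) (nat_lit 0) .nil) .nil))))) (.nd (nat_lit 8) (.nd (nat_lit 9) 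
(.lf (nat_lit 580753) (.g (nat_lit 2976) (.e (nat_lit 336430) (nat_lit 29) (.e (nat_lit 442421) (nat_lit 21) (.e (nat_lit 164347) (nat_lit 240) (.e (nat_lit 2638) (nat_lit 165) (.e (nat_lit 180278) (nat_lit 32) (.e (nat_lit 1425) (nat_lit 108) .nil)))))) (.g (nat_lit 1) (.e (nat_lit 377890) (nat_lit 0) .nil) .nil))) 
(.lf (nat_lit 581265) (.g (nat_lit 2285) (.e (nat_lit 336443) (nat_lit 32) (.e (nat_lit 466971) (nat_lit 21) (.e (nat_lit 164348) (nat_lit 240) (.e (nat_lit 2638) (nat_lit 165) (.e (nat_lit 188160) (nat_lit 32) (.e (nat_lit 1433) (nat_lit 108) .nil)))))) (.g (nat_lit 1) (.e (nat_lit 378744) (nat_lit 0) .nil) .nil)))) (.nd (nat_lit 9) 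
(.lf (nat_lit 581009) (.g (nat_lit 1019) (.e (nat_lit 336440) (nat_lit 32) (.e (nat_lit 466972) (nat_lit 21) (.e (nat_lit 164332) (nat_lit 230) (.e (nat_lit 163885) (nat_lit 5) .nil)))) (.g (nat_lit 0) (.e (nat_lit 378442) (nat_lit 0) .nil) .nil))) 
(.lf (nat_lit 581521) (.g (nat_lit 3154) (.e (nat_lit 336454) (nat_lit 34) (.e (nat_lit 483383) (nat_lit 23) (.e (nat_lit 336019) (nat_lit 3) (.e (nat_lit 98334) (nat_lit 18) (.e (nat_lit 164184) (nat_lit 155) (.e (nat_lit 122904) (nat_lit 12) .nil)))))) (.g (nat_lit 1) (.e (nat_lit 379172) (nat_lit 0) .nil) .nil)))))) (.nd (nat_lit 7) (.nd (nat_lit 8) (.nd (nat_lit 9) 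
(.lf (nat_lit 580689) (.g (nat_lit 900) (.e (nat_lit 336427) (nat_lit 29) (.e (nat_lit 442421) (nat_lit 21) (.e (nat_lit 164327) (nat_lit 230) .nil))) (.g (nat_lit 0) (.e (nat_lit 377730) (nat_lit 0) .nil) .nil))) 
(.lf (nat_lit 581201) (.g (nat_lit 2699) (.e (nat_lit 336443) (nat_lit 32) (.e (nat_lit 466971) (nat_lit 21) (.e (nat_lit 164327) (nat_lit 230) (.e (nat_lit 163881) (nat_lit 4) (.e (nat_lit 213030) (nat_lit 11) (.e (nat_lit 24629) (nat_lit 9) .nil)))))) (.g (nat_lit 1) (.e (nat_lit 378679) (nat_lit 0) .nil) .nil)))) (.nd (nat_lit 9) 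
(.lf (nat_lit 580945) (.g (nat_lit 959) (.e (nat_lit 336434) (nat_lit 30) (.e (nat_lit 450579) (nat_lit 5) (.e (nat_lit 532503) (nat_lit 1) (.e (nat_lit 57685) (nat_lit 156) .nil)))) (.g (nat_lit 0) (.e (nat_lit 378240) (nat_lit 0) .nil) .nil))) 
(.lf (nat_lit 581457) (.g (nat_lit 3639) (.e (nat_lit 336454) (nat_lit 34) (.e (nat_lit 483365) (nat_lit 18) (.e (nat_lit 57846) (nat_lit 252) (.e (nat_lit 57373) (nat_lit 2) (.e (nat_lit 90158) (nat_lit 11) (.e (nat_lit 24630) (nat_lit 9) .nil)))))) (.g (nat_lit 1) (.e (nat_lit 379081) (nat_lit 0) .nil) .nil))))) (.nd (nat_lit 8) (.nd (nat_lit 9) 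
(.lf (nat_lit 580817) (.g (nat_lit 321) (.e (nat_lit 336432) (nat_lit 30) (.e (nat_lit 450565) (nat_lit 0) (.e (nat_lit 5223) (nat_lit 296) .nil))) (.g (nat_lit 0) (.e (nat_lit 378011) (nat_lit 0) .nil) .nil))) 
(.lf (nat_lit 581329) (.g (nat_lit 2828) (.e (nat_lit 336443) (nat_lit 32) (.e (nat_lit 466981) (nat_lit 23) (.e (nat_lit 204829) (nat_lit 18) (.e (nat_lit 57688) (nat_lit 156) (.e (nat_lit 163903) (nat_lit 12) (.e (nat_lit 426478) (nat_lit 27) .nil)))))) (.g (nat_lit 1) (.e (nat_lit 378810) (nat_lit 0) .nil) .nil)))) (.nd (nat_lit 9) 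
(.lf (nat_lit 581073) (.g (nat_lit 3157) (.e (nat_lit 336443) (nat_lit 32) (.e (nat_lit 466969) (nat_lit 21) (.e (nat_lit 164326) (nat_lit 230) (.e (nat_lit 163884) (nat_lit 5) (.e (nat_lit 221194) (nat_lit 11) (.e (nat_lit 336084) (nat_lit 9) .nil)))))) (.g (nat_lit 1) (.e (nat_lit 378551) (nat_lit 0) .nil) .nil))) 
(.lf (nat_lit 581585) (.g (nat_lit 1531) (.e (nat_lit 336455) (nat_lit 34) (.e (nat_lit 483382) (nat_lit 23) (.e (nat_lit 336324) (nat_lit 18) (.e (nat_lit 204830) (nat_lit 18) (.e (nat_lit 57852) (nat_lit 252) .nil))))) (.g (nat_lit 0) (.e (nat_lit 379269) (nat_lit 0) .nil) .nil))))))) (.nd (nat_lit 6) (.nd (nat_lit 7) (.nd (nat_lit 8) (.nd (nat_lit 9) 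
(.lf (nat_lit 580657) (.g (nat_lit 1917) (.e (nat_lit 336426) (nat_lit 29) (.e (nat_lit 442421) (nat_lit 21) (.e (nat_lit 164322) (nat_lit 230) (.e (nat_lit 163878) (nat_lit 4) (.e (nat_lit 213032) (nat_lit 11) (.e (nat_lit 24629) (nat_lit 9) .nil)))))) (.g (nat_lit 1) (.e (nat_lit 377692) (nat_lit 0) .nil) .nil))) 
(.lf (nat_lit 581169) (.g (nat_lit 3510) (.e (nat_lit 336443) (nat_lit 32) (.e (nat_lit 466971) (nat_lit 21) (.e (nat_lit 164322) (nat_lit 230) (.e (nat_lit 163885) (nat_lit 5) (.e (nat_lit 221194) (nat_lit 11) (.e (nat_lit 336075) (nat_lit 9) .nil)))))) (.g (nat_lit 1) (.e (nat_lit 378647) (nat_lit 0) .nil) .nil)))) (.nd (nat_lit 9) 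
(.lf (nat_lit 580913) (.g (nat_lit 2779) (.e (nat_lit 336434) (nat_lit 30) (.e (nat_lit 450564) (nat_lit 0) (.e (nat_lit 5546) (nat_lit 306) (.e (nat_lit 2640) (nat_lit 165) (.e (nat_lit 180277) (nat_lit 32) (.e (nat_lit 1427) (nat_lit 108) .nil)))))) (.g (nat_lit 1) (.e (nat_lit 378195) (nat_lit 0) .nil) .nil))) 
(.lf (nat_lit 581425) (.g (nat_lit 1324) (.e (nat_lit 336453) (nat_lit 34) (.e (nat_lit 483406) (nat_lit 26) (.e (nat_lit 385066) (nat_lit 26) (.e (nat_lit 532501) (nat_lit 1) .nil)))) (.g (nat_lit 0) (.e (nat_lit 379023) (nat_lit 0) .nil) .nil))))) (.nd (nat_lit 8) (.nd (nat_lit 9) 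
(.lf (nat_lit 580785) (.g (nat_lit 2107) (.e (nat_lit 336430) (nat_lit 29) (.e (nat_lit 442429) (nat_lit 24) (.e (nat_lit 229665) (nat_lit 240) (.e (nat_lit 2641) (nat_lit 165) (.e (nat_lit 180278) (nat_lit 32) (.e (nat_lit 1426) (nat_lit 108) .nil)))))) (.g (nat_lit 1) (.e (nat_lit 377928) (nat_lit 0) .nil) .nil))) 
(.lf (nat_lit 581297) (.g (nat_lit 3609) (.e (nat_lit 336443) (nat_lit 32) (.e (nat_lit 466972) (nat_lit 21) (.e (nat_lit 164331) (nat_lit 230) (.e (nat_lit 163885) (nat_lit 5) (.e (nat_lit 221194) (nat_lit 11) (.e (nat_lit 336084) (nat_lit 9) .nil)))))) (.g (nat_lit 1) (.e (nat_lit 378776) (nat_lit 0) .nil) .nil)))) (.nd (nat_lit 9) 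
(.lf (nat_lit 581041) (.g (nat_lit 2471) (.e (nat_lit 336443) (nat_lit 32) (.e (nat_lit 466969) (nat_lit 21) (.e (nat_lit 164322) (nat_lit 230) (.e (nat_lit 163885) (nat_lit 5) (.e (nat_lit 221193) (nat_lit 11) (.e (nat_lit 336084) (nat_lit 9) .nil)))))) (.g (nat_lit 1) (.e (nat_lit 378519) (nat_lit 0) .nil) .nil))) 
(.lf (nat_lit 581553) (.g (nat_lit 2211) (.e (nat_lit 336454) (nat_lit 34) (.e (nat_lit 483392) (nat_lit 23) (.e (nat_lit 336021) (nat_lit 3) (.e (nat_lit 98333) (nat_lit 18) (.e (nat_lit 164179) (nat_lit 154) .nil))))) (.g (nat_lit 0) (.e (nat_lit 379218) (nat_lit 0) .nil) .nil)))))) (.nd (nat_lit 7) (.nd (nat_lit 8) (.nd (nat_lit 9) 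
(.lf (nat_lit 580721) (.g (nat_lit 2028) (.e (nat_lit 336430) (nat_lit 29) (.e (nat_lit 442379) (nat_lit 0) (.e (nat_lit 2174) (nat_lit 143) (.e (nat_lit 712745) (nat_lit 27) (.e (nat_lit 426347) (nat_lit 14) (.e (nat_lit 491548) (nat_lit 9) .nil)))))) (.g (nat_lit 1) (.e (nat_lit 377843) (nat_lit 0) .nil) .nil))) 
(.lf (nat_lit 581233) (.g (nat_lit 3369) (.e (nat_lit 336443) (nat_lit 32) (.e (nat_lit 466971) (nat_lit 21) (.e (nat_lit 164332) (nat_lit 230) (.e (nat_lit 163880) (nat_lit 4) (.e (nat_lit 213032) (nat_lit 11) (.e (nat_lit 24625) (nat_lit 9) .nil)))))) (.g (nat_lit 1) (.e (nat_lit 378711) (nat_lit 0) .nil) .nil)))) (.nd (nat_lit 9) 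
(.lf (nat_lit 580977) (.g (nat_lit 916) (.e (nat_lit 336434) (nat_lit 30) (.e (nat_lit 450588) (nat_lit 10) (.e (nat_lit 573475) (nat_lit 12) .nil))) (.g (nat_lit 0) (.e (nat_lit 378283) (nat_lit 0) .nil) .nil))) 
(.lf (nat_lit 581489) (.g (nat_lit 2604) (.e (nat_lit 336454) (nat_lit 34) (.e (nat_lit 483365) (nat_lit 18) (.e (nat_lit 57929) (nat_lit 282) (.e (nat_lit 163867) (nat_lit 2) (.e (nat_lit 196681) (nat_lit 17) (.e (nat_lit 131105) (nat_lit 9) .nil)))))) (.g (nat_lit 1) (.e (nat_lit 379122) (nat_lit 0) .nil) .nil))))) (.nd (nat_lit 8) (.nd (nat_lit 9) 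
(.lf (nat_lit 580849) (.g (nat_lit 1848) (.e (nat_lit 336432) (nat_lit 30) (.e (nat_lit 450579) (nat_lit 5) (.e (nat_lit 532503) (nat_lit 1) (.e (nat_lit 57692) (nat_lit 156) (.e (nat_lit 163907) (nat_lit 12) .nil))))) (.g (nat_lit 0) (.e (nat_lit 378056) (nat_lit 0) .nil) .nil))) 
(.lf (nat_lit 581361) (.g (nat_lit 1921) (.e (nat_lit 336450) (nat_lit 33) (.e (nat_lit 475152) (nat_lit 17) (.e (nat_lit 57814) (nat_lit 246) (.e (nat_lit 57596) (nat_lit 82) (.e (nat_lit 499900) (nat_lit 7) (.e (nat_lit 24630) (nat_lit 9) .nil)))))) (.g (nat_lit 1) (.e (nat_lit 378864) (nat_lit 0) .nil) .nil)))) (.nd (nat_lit 9) 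
(.lf (nat_lit 581105) (.g (nat_lit 3476) (.e (nat_lit 336443) (nat_lit 32) (.e (nat_lit 466969) (nat_lit 21) (.e (nat_lit 164330) (nat_lit 230) (.e (nat_lit 163884) (nat_lit 5) (.e (nat_lit 221194) (nat_lit 11) (.e (nat_lit 336074) (nat_lit 9) .nil)))))) (.g (nat_lit 1) (.e (nat_lit 378583) (nat_lit 0) .nil) .nil))) 
(.lf (nat_lit 581617) (.g (nat_lit 1718) (.e (nat_lit 336456) (nat_lit 34) (.e (nat_lit 483363) (nat_lit 18) (.e (nat_lit 57926) (nat_lit 282) (.e (nat_lit 163869) (nat_lit 2) .nil)))) (.g (nat_lit 0) (.e (nat_lit 379313) (nat_lit 0) .nil) .nil))))))))) (.nd (nat_lit 4) (.nd (nat_lit 5) (.nd (nat_lit 6) (.nd (nat_lit 7) (.nd (nat_lit 8) (.nd (nat_lit 9) 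
(.lf (nat_lit 580617) (.g (nat_lit 3004) (.e (nat_lit 336414) (nat_lit 27) (.e (nat_lit 426318) (nat_lit 12) (.e (nat_lit 475179) (nat_lit 24) (.e (nat_lit 516119) (nat_lit 1) (.e (nat_lit 164325) (nat_lit 230) (.e (nat_lit 163903) (nat_lit 12) (.e (nat_lit 426479) (nat_lit 27) .nil))))))) (.g (nat_lit 1) (.e (nat_lit 377610) (nat_lit 0) .nil) .nil))) 
(.lf (nat_lit 581129) (.g (nat_lit 3389) (.e (nat_lit 336443) (nat_lit 32) (.e (nat_lit 466969) (nat_lit 21) (.e (nat_lit 164332) (nat_lit 230) (.e (nat_lit 163880) (nat_lit 4) (.e (nat_lit 213032) (nat_lit 11) (.e (nat_lit 24630) (nat_lit 9) .nil)))))) (.g (nat_lit 1) (.e (nat_lit 378607) (nat_lit 0) .nil) .nil)))) (.nd (nat_lit 9) 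
(.lf (nat_lit 580873) (.g (nat_lit 1320) (.e (nat_lit 336432) (nat_lit 30) (.e (nat_lit 450580) (nat_lit 5) (.e (nat_lit 540416) (nat_lit 24) (.e (nat_lit 409648) (nat_lit 18) (.e (nat_lit 311040) (nat_lit 27) .nil))))) (.g (nat_lit 1) (.e (nat_lit 378096) (nat_lit 0) .nil) .nil))) 
(.lf (nat_lit 581385) (.g (nat_lit 1729) (.e (nat_lit 336452) (nat_lit 34) (.e (nat_lit 483403) (nat_lit 26) (.e (nat_lit 385068) (nat_lit 26) (.e (nat_lit 532503) (nat_lit 1) (.e (nat_lit 57847) (nat_lit 252) .nil))))) (.g (nat_lit 0) (.e (nat_lit 378938) (nat_lit 0) .nil) .nil))))) (.nd (nat_lit 8) (.nd (nat_lit 9) 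
(.lf (nat_lit 580745) (.g (nat_lit 1448) (.e (nat_lit 336430) (nat_lit 29) (.e (nat_lit 442421) (nat_lit 21) (.e (nat_lit 164332) (nat_lit 230) (.e (nat_lit 163884) (nat_lit 5) .nil)))) (.g (nat_lit 0) (.e (nat_lit 377881) (nat_lit 0) .nil) .nil))) 
(.lf (nat_lit 581257) (.g (nat_lit 1978) (.e (nat_lit 336443) (nat_lit 32) (.e (nat_lit 466971) (nat_lit 21) (.e (nat_lit 164347) (nat_lit 240) (.e (nat_lit 2640) (nat_lit 165) (.e (nat_lit 180278) (nat_lit 32) (.e (nat_lit 1425) (nat_lit 108) .nil)))))) (.g (nat_lit 1) (.e (nat_lit 378736) (nat_lit 0) .nil) .nil)))) (.nd (nat_lit 9) 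
(.lf (nat_lit 581001) (.g (nat_lit 1607) (.e (nat_lit 336440) (nat_lit 32) (.e (nat_lit 466969) (nat_lit 21) (.e (nat_lit 164332) (nat_lit 230) (.e (nat_lit 163885) (nat_lit 5) (.e (nat_lit 221191) (nat_lit 11) .nil))))) (.g (nat_lit 0) (.e (nat_lit 378433) (nat_lit 0) .nil) .nil))) 
(.lf (nat_lit 581513) (.g (nat_lit 690) (.e (nat_lit 336454) (nat_lit 34) (.e (nat_lit 483380) (nat_lit 23) (.e (nat_lit 336325) (nat_lit 18) .nil))) (.g (nat_lit 0) (.e (nat_lit 379151) (nat_lit 0) .nil) .nil)))))) (.nd (nat_lit 7) (.nd (nat_lit 8) (.nd (nat_lit 9) 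
(.lf (nat_lit 580681) (.g (nat_lit 1736) (.e (nat_lit 336427) (nat_lit 29) (.e (nat_lit 442374) (nat_lit 0) (.e (nat_lit 1800) (nat_lit 119) (.e (nat_lit 516119) (nat_lit 1) (.e (nat_lit 164325) (nat_lit 230) .nil))))) (.g (nat_lit 0) (.e (nat_lit 377720) (nat_lit 0) .nil) .nil))) 
(.lf (nat_lit 581193) (.g (nat_lit 2626) (.e (nat_lit 336443) (nat_lit 32) (.e (nat_lit 466971) (nat_lit 21) (.e (nat_lit 164325) (nat_lit 230) (.e (nat_lit 163886) (nat_lit 5) (.e (nat_lit 221194) (nat_lit 11) (.e (nat_lit 336084) (nat_lit 9) .nil)))))) (.g (nat_lit 1) (.e (nat_lit 378671) (nat_lit 0) .nil) .nil)))) (.nd (nat_lit 9) 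
(.lf (nat_lit 580937) (.g (nat_lit 2391) (.e (nat_lit 336434) (nat_lit 30) (.e (nat_lit 450579) (nat_lit 5) (.e (nat_lit 532501) (nat_lit 1) (.e (nat_lit 57690) (nat_lit 156) (.e (nat_lit 163907) (nat_lit 12) (.e (nat_lit 426479) (nat_lit 27) .nil)))))) (.g (nat_lit 1) (.e (nat_lit 378228) (nat_lit 0) .nil) .nil))) 
(.lf (nat_lit 581449) (.g (nat_lit 2986) (.e (nat_lit 336454) (nat_lit 34) (.e (nat_lit 483364) (nat_lit 18) (.e (nat_lit 57929) (nat_lit 282) (.e (nat_lit 163873) (nat_lit 3) (.e (nat_lit 204861) (nat_lit 26) (.e (nat_lit 336076) (nat_lit 9) .nil)))))) (.g (nat_lit 1) (.e (nat_lit 379071) (nat_lit 0) .nil) .nil))))) (.nd (nat_lit 8) (.nd (nat_lit 9) 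
(.lf (nat_lit 580809) (.g (nat_lit 651) (.e (nat_lit 336432) (nat_lit 30) (.e (nat_lit 450564) (nat_lit 0) (.e (nat_lit 5546) (nat_lit 306) .nil))) (.g (nat_lit 0) (.e (nat_lit 378002) (nat_lit 0) .nil) .nil))) 
(.lf (nat_lit 581321) (.g (nat_lit 2439) (.e (nat_lit 336443) (nat_lit 32) (.e (nat_lit 466979) (nat_lit 23) (.e (nat_lit 204829) (nat_lit 18) (.e (nat_lit 57692) (nat_lit 156) (.e (nat_lit 163906) (nat_lit 12) (.e (nat_lit 426484) (nat_lit 27) .nil)))))) (.g (nat_lit 1) (.e (nat_lit 378802) (nat_lit 0) .nil) .nil)))) (.nd (nat_lit 9) 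
(.lf (nat_lit 581065) (.g (nat_lit 2801) (.e (nat_lit 336443) (nat_lit 32) (.e (nat_lit 466969) (nat_lit 21) (.e (nat_lit 164325) (nat_lit 230) (.e (nat_lit 163886) (nat_lit 5) (.e (nat_lit 221194) (nat_lit 11) (.e (nat_lit 336084) (nat_lit 9) .nil)))))) (.g (nat_lit 1) (.e (nat_lit 378543) (nat_lit 0) .nil) .nil))) 
(.lf (nat_lit 581577) (.g (nat_lit 2117) (.e (nat_lit 336455) (nat_lit 34) (.e (nat_lit 483380) (nat_lit 23) (.e (nat_lit 336324) (nat_lit 18) (.e (nat_lit 204830) (nat_lit 18) .nil)))) (.g (nat_lit 0) (.e (nat_lit 379258) (nat_lit 0) .nil) .nil))))))) (.nd (nat_lit 6) (.nd (nat_lit 7) (.nd (nat_lit 8) (.nd (nat_lit 9) 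
(.lf (nat_lit 580649) (.g (nat_lit 2192) (.e (nat_lit 336426) (nat_lit 29) (.e (nat_lit 442374) (nat_lit 0) (.e (nat_lit 2058) (nat_lit 142) (.e (nat_lit 704592) (nat_lit 4) (.e (nat_lit 172126) (nat_lit 14) .nil))))) (.g (nat_lit 0) (.e (nat_lit 377682) (nat_lit 0) .nil) .nil))) 
(.lf (nat_lit 581161) (.g (nat_lit 2480) (.e (nat_lit 336443) (nat_lit 32) (.e (nat_lit 466971) (nat_lit 21) (.e (nat_lit 164322) (nat_lit 230) (.e (nat_lit 163884) (nat_lit 5) (.e (nat_lit 221193) (nat_lit 11) (.e (nat_lit 336084) (nat_lit 9) .nil)))))) (.g (nat_lit 1) (.e (nat_lit 378639) (nat_lit 0) .nil) .nil)))) (.nd (nat_lit 9) 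
(.lf (nat_lit 580905) (.g (nat_lit 2296) (.e (nat_lit 336433) (nat_lit 30) (.e (nat_lit 450588) (nat_lit 10) (.e (nat_lit 573474) (nat_lit 12) (.e (nat_lit 57516) (nat_lit 42) .nil)))) (.g (nat_lit 0) (.e (nat_lit 378161) (nat_lit 0) .nil) .nil))) 
(.lf (nat_lit 581417) (.g (nat_lit 1583) (.e (nat_lit 336453) (nat_lit 34) (.e (nat_lit 483380) (nat_lit 23) (.e (nat_lit 336324) (nat_lit 18) (.e (nat_lit 204830) (nat_lit 18) (.e (nat_lit 57830) (nat_lit 250) .nil))))) (.g (nat_lit 0) (.e (nat_lit 378979) (nat_lit 0) .nil) .nil))))) (.nd (nat_lit 8) (.nd (nat_lit 9) 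
(.lf (nat_lit 580777) (.g (nat_lit 2883) (.e (nat_lit 336430) (nat_lit 29) (.e (nat_lit 442427) (nat_lit 23) (.e (nat_lit 204831) (nat_lit 18) (.e (nat_lit 57692) (nat_lit 156) (.e (nat_lit 163907) (nat_lit 12) (.e (nat_lit 426479) (nat_lit 27) .nil)))))) (.g (nat_lit 1) (.e (nat_lit 377915) (nat_lit 0) .nil) .nil))) 
(.lf (nat_lit 581289) (.g (nat_lit 2646) (.e (nat_lit 336443) (nat_lit 32) (.e (nat_lit 466972) (nat_lit 21) (.e (nat_lit 164331) (nat_lit 230) (.e (nat_lit 163884) (nat_lit 5) (.e (nat_lit 221193) (nat_lit 11) (.e (nat_lit 336077) (nat_lit 9) .nil)))))) (.g (nat_lit 1) (.e (nat_lit 378768) (nat_lit 0) .nil) .nil)))) (.nd (nat_lit 9) 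
(.lf (nat_lit 581033) (.g (nat_lit 831) (.e (nat_lit 336442) (nat_lit 32) (.e (nat_lit 466971) (nat_lit 21) (.e (nat_lit 164345) (nat_lit 240) (.e (nat_lit 2640) (nat_lit 165) .nil)))) (.g (nat_lit 0) (.e (nat_lit 378489) (nat_lit 0) .nil) .nil))) 
(.lf (nat_lit 581545) (.g (nat_lit 523) (.e (nat_lit 336454) (nat_lit 34) (.e (nat_lit 483385) (nat_lit 23) (.e (nat_lit 336284) (nat_lit 15) .nil))) (.g (nat_lit 0) (.e (nat_lit 379208) (nat_lit 0) .nil) .nil)))))) (.nd (nat_lit 7) (.nd (nat_lit 8) (.nd (nat_lit 9) 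
(.lf (nat_lit 580713) (.g (nat_lit 1953) (.e (nat_lit 336429) (nat_lit 29) (.e (nat_lit 442421) (nat_lit 21) (.e (nat_lit 164332) (nat_lit 230) (.e (nat_lit 163884) (nat_lit 5) (.e (nat_lit 221192) (nat_lit 11) .nil))))) (.g (nat_lit 0) (.e (nat_lit 377810) (nat_lit 0) .nil) .nil))) 
(.lf (nat_lit 581225) (.g (nat_lit 483) (.e (nat_lit 336443) (nat_lit 32) (.e (nat_lit 466971) (nat_lit 21) (.e (nat_lit 164332) (nat_lit 230) .nil))) (.g (nat_lit 0) (.e (nat_lit 378703) (nat_lit 0) .nil) .nil)))) (.nd (nat_lit 9) 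
(.lf (nat_lit 580969) (.g (nat_lit 1122) (.e (nat_lit 336434) (nat_lit 30) (.e (nat_lit 450586) (nat_lit 10) (.e (nat_lit 573473) (nat_lit 12) (.e (nat_lit 65280) (nat_lit 0) .nil)))) (.g (nat_lit 0) (.e (nat_lit 378274) (nat_lit 0) .nil) .nil))) 
(.lf (nat_lit 581481) (.g (nat_lit 3892) (.e (nat_lit 336454) (nat_lit 34) (.e (nat_lit 483365) (nat_lit 18) (.e (nat_lit 57853) (nat_lit 252) (.e (nat_lit 57371) (nat_lit 2) (.e (nat_lit 90160) (nat_lit 11) (.e (nat_lit 24624) (nat_lit 9) .nil)))))) (.g (nat_lit 1) (.e (nat_lit 379108) (nat_lit 0) .nil) .nil))))) (.nd (nat_lit 8) (.nd (nat_lit 9) 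
(.lf (nat_lit 580841) (.g (nat_lit 391) (.e (nat_lit 336432) (nat_lit 30) (.e (nat_lit 450579) (nat_lit 5) (.e (nat_lit 532501) (nat_lit 1) .nil))) (.g (nat_lit 0) (.e (nat_lit 378046) (nat_lit 0) .nil) .nil))) 
(.lf (nat_lit 581353) (.g (nat_lit 511) (.e (nat_lit 336444) (nat_lit 32) (.e (nat_lit 466971) (nat_lit 21) (.e (nat_lit 164345) (nat_lit 240) .nil))) (.g (nat_lit 0) (.e (nat_lit 378844) (nat_lit 0) .nil) .nil)))) (.nd (nat_lit 9) 
(.lf (nat_lit 581097) (.g (nat_lit 2980) (.e (nat_lit 336443) (nat_lit 32) (.e (nat_lit 466969) (nat_lit 21) (.e (nat_lit 164330) (nat_lit 230) (.e (nat_lit 163880) (nat_lit 4) (.e (nat_lit 213030) (nat_lit 11) (.e (nat_lit 24626) (nat_lit 9) .nil)))))) (.g (nat_lit 1) (.e (nat_lit 378575) (nat_lit 0) .nil) .nil))) 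
(.lf (nat_lit 581609) (.g (nat_lit 991) (.e (nat_lit 336456) (nat_lit 34) (.e (nat_lit 483363) (nat_lit 18) (.e (nat_lit 57847) (nat_lit 252) (.e (nat_lit 57375) (nat_lit 2) .nil)))) (.g (nat_lit 0) (.e (nat_lit 379305) (nat_lit 0) .nil) .nil)))))))) (.nd (nat_lit 5) (.nd (nat_lit 6) (.nd (nat_lit 7) (.nd (nat_lit 8) (.nd (nat_lit 9) 
(.lf (nat_lit 580633) (.g (nat_lit 1228) (.e (nat_lit 336421) (nat_lit 28) (.e (nat_lit 434180) (nat_lit 0) (.e (nat_lit 1427) (nat_lit 108) (.e (nat_lit 336395) (nat_lit 27) .nil)))) (.g (nat_lit 0) (.e (nat_lit 377644) (nat_lit 0) .nil) .nil))) 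
(.lf (nat_lit 581145) (.g (nat_lit 2516) (.e (nat_lit 336443) (nat_lit 32) (.e (nat_lit 466969) (nat_lit 21) (.e (nat_lit 164347) (nat_lit 240) (.e (nat_lit 2638) (nat_lit 165) (.e (nat_lit 180277) (nat_lit 32) (.e (nat_lit 1425) (nat_lit 108) .nil)))))) (.g (nat_lit 1) (.e (nat_lit 378623) (nat_lit 0) .nil) .nil)))) (.nd (nat_lit 9) 
(.lf (nat_lit 580889) (.g (nat_lit 2343) (.e (nat_lit 336432) (nat_lit 30) (.e (nat_lit 450588) (nat_lit 10) (.e (nat_lit 573473) (nat_lit 12) (.e (nat_lit 57507) (nat_lit 39) .nil)))) (.g (nat_lit 0) (.e (nat_lit 378116) (nat_lit 0) .nil) .nil))) 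
(.lf (nat_lit 581401) (.g (nat_lit 2518) (.e (nat_lit 336453) (nat_lit 34) (.e (nat_lit 483364) (nat_lit 18) (.e (nat_lit 57926) (nat_lit 282) (.e (nat_lit 163875) (nat_lit 3) (.e (nat_lit 204859) (nat_lit 26) (.e (nat_lit 336116) (nat_lit 9) .nil)))))) (.g (nat_lit 1) (.e (nat_lit 378960) (nat_lit 0) .nil) .nil))))) (.nd (nat_lit 8) (.nd (nat_lit 9) 
(.lf (nat_lit 580761) (.g (nat_lit 3285) (.e (nat_lit 336430) (nat_lit 29) (.e (nat_lit 442425) (nat_lit 23) (.e (nat_lit 204830) (nat_lit 18) (.e (nat_lit 57691) (nat_lit 156) (.e (nat_lit 163905) (nat_lit 12) (.e (nat_lit 426479) (nat_lit 27) .nil)))))) (.g (nat_lit 1) (.e (nat_lit 377899) (nat_lit 0) .nil) .nil))) 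
(.lf (nat_lit 581273) (.g (nat_lit 2901) (.e (nat_lit 336443) (nat_lit 32) (.e (nat_lit 466972) (nat_lit 21) (.e (nat_lit 164329) (nat_lit 230) (.e (nat_lit 163884) (nat_lit 5) (.e (nat_lit 221194) (nat_lit 11) (.e (nat_lit 336077) (nat_lit 9) .nil)))))) (.g (nat_lit 1) (.e (nat_lit 378752) (nat_lit 0) .nil) .nil)))) (.nd (nat_lit 9) 
(.lf (nat_lit 581017) (.g (nat_lit 1260) (.e (nat_lit 336442) (nat_lit 32) (.e (nat_lit 466969) (nat_lit 21) (.e (nat_lit 164327) (nat_lit 230) (.e (nat_lit 163886) (nat_lit 5) (.e (nat_lit 221192) (nat_lit 11) .nil))))) (.g (nat_lit 0) (.e (nat_lit 378460) (nat_lit 0) .nil) .nil))) 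
(.lf (nat_lit 581529) (.g (nat_lit 1177) (.e (nat_lit 336454) (nat_lit 34) (.e (nat_lit 483383) (nat_lit 23) (.e (nat_lit 336324) (nat_lit 18) (.e (nat_lit 204830) (nat_lit 18) .nil)))) (.g (nat_lit 0) (.e (nat_lit 379180) (nat_lit 0) .nil) .nil)))))) (.nd (nat_lit 7) (.nd (nat_lit 8) (.nd (nat_lit 9) 
(.lf (nat_lit 580697) (.g (nat_lit 1543) (.e (nat_lit 336429) (nat_lit 29) (.e (nat_lit 442379) (nat_lit 0) (.e (nat_lit 2175) (nat_lit 143) (.e (nat_lit 712745) (nat_lit 27) (.e (nat_lit 426347) (nat_lit 14) .nil))))) (.g (nat_lit 0) (.e (nat_lit 377762) (nat_lit 0) .nil) .nil))) 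
(.lf (nat_lit 581209) (.g (nat_lit 2177) (.e (nat_lit 336443) (nat_lit 32) (.e (nat_lit 466971) (nat_lit 21) (.e (nat_lit 164327) (nat_lit 230) (.e (nat_lit 163884) (nat_lit 5) (.e (nat_lit 221193) (nat_lit 11) (.e (nat_lit 336074) (nat_lit 9) .nil)))))) (.g (nat_lit 1) (.e (nat_lit 378687) (nat_lit 0) .nil) .nil)))) (.nd (nat_lit 9) 
(.lf (nat_lit 580953) (.g (nat_lit 300) (.e (nat_lit 336434) (nat_lit 30) (.e (nat_lit 450579) (nat_lit 5) (.e (nat_lit 532504) (nat_lit 1) .nil))) (.g (nat_lit 0) (.e (nat_lit 378249) (nat_lit 0) .nil) .nil))) 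
(.lf (nat_lit 581465) (.g (nat_lit 3464) (.e (nat_lit 336454) (nat_lit 34) (.e (nat_lit 483365) (nat_lit 18) (.e (nat_lit 57848) (nat_lit 252) (.e (nat_lit 57374) (nat_lit 2) (.e (nat_lit 90158) (nat_lit 11) (.e (nat_lit 24625) (nat_lit 9) .nil)))))) (.g (nat_lit 1) (.e (nat_lit 379091) (nat_lit 0) .nil) .nil))))) (.nd (nat_lit 8) (.nd (nat_lit 9) 
(.lf (nat_lit 580825) (.g (nat_lit 2624) (.e (nat_lit 336432) (nat_lit 30) (.e (nat_lit 450565) (nat_lit 0) (.e (nat_lit 5548) (nat_lit 306) (.e (nat_lit 2638) (nat_lit 165) (.e (nat_lit 180278) (nat_lit 32) (.e (nat_lit 1425) (nat_lit 108) .nil)))))) (.g (nat_lit 1) (.e (nat_lit 378025) (nat_lit 0) .nil) .nil))) 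
(.lf (nat_lit 581337) (.g (nat_lit 3269) (.e (nat_lit 336443) (nat_lit 32) (.e (nat_lit 466981) (nat_lit 23) (.e (nat_lit 204830) (nat_lit 18) (.e (nat_lit 57691) (nat_lit 156) (.e (nat_lit 163907) (nat_lit 12) (.e (nat_lit 426484) (nat_lit 27) .nil)))))) (.g (nat_lit 1) (.e (nat_lit 378818) (nat_lit 0) .nil) .nil)))) (.nd (nat_lit 9) 
(.lf (nat_lit 581081) (.g (nat_lit 2259) (.e (nat_lit 336443) (nat_lit 32) (.e (nat_lit 466969) (nat_lit 21) (.e (nat_lit 164327) (nat_lit 230) (.e (nat_lit 163884) (nat_lit 5) (.e (nat_lit 221193) (nat_lit 11) (.e (nat_lit 336074) (nat_lit 9) .nil)))))) (.g (nat_lit 1) (.e (nat_lit 378559) (nat_lit 0) .nil) .nil))) 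
(.lf (nat_lit 581593) (.g (nat_lit 1837) (.e (nat_lit 336455) (nat_lit 34) (.e (nat_lit 483384) (nat_lit 23) (.e (nat_lit 336324) (nat_lit 18) (.e (nat_lit 204831) (nat_lit 18) (.e (nat_lit 57849) (nat_lit 252) .nil))))) (.g (nat_lit 0) (.e (nat_lit 379283) (nat_lit 0) .nil) .nil))))))) (.nd (nat_lit 6) (.nd (nat_lit 7) (.nd (nat_lit 8) (.nd (nat_lit 9) 
(.lf (nat_lit 580665) (.g (nat_lit 567) (.e (nat_lit 336426) (nat_lit 29) (.e (nat_lit 442421) (nat_lit 21) (.e (nat_lit 164345) (nat_lit 240) .nil))) (.g (nat_lit 0) (.e (nat_lit 377700) (nat_lit 0) .nil) .nil))) 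
(.lf (nat_lit 581177) (.g (nat_lit 2477) (.e (nat_lit 336443) (nat_lit 32) (.e (nat_lit 466971) (nat_lit 21) (.e (nat_lit 164324) (nat_lit 230) (.e (nat_lit 163885) (nat_lit 5) (.e (nat_lit 221193) (nat_lit 11) (.e (nat_lit 336084) (nat_lit 9) .nil)))))) (.g (nat_lit 1) (.e (nat_lit 378655) (nat_lit 0) .nil) .nil)))) (.nd (nat_lit 9) 
(.lf (nat_lit 580921) (.g (nat_lit 3252) (.e (nat_lit 336434) (nat_lit 30) (.e (nat_lit 450564) (nat_lit 0) (.e (nat_lit 5548) (nat_lit 306) (.e (nat_lit 2640) (nat_lit 165) (.e (nat_lit 180278) (nat_lit 32) (.e (nat_lit 1427) (nat_lit 108) .nil)))))) (.g (nat_lit 1) (.e (nat_lit 378207) (nat_lit 0) .nil) .nil))) 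
(.lf (nat_lit 581433) (.g (nat_lit 2173) (.e (nat_lit 336454) (nat_lit 34) (.e (nat_lit 483363) (nat_lit 18) (.e (nat_lit 57847) (nat_lit 252) (.e (nat_lit 57375) (nat_lit 2) (.e (nat_lit 90160) (nat_lit 11) (.e (nat_lit 32512) (nat_lit 9) .nil)))))) (.g (nat_lit 1) (.e (nat_lit 379046) (nat_lit 0) .nil) .nil))))) (.nd (nat_lit 8) (.nd (nat_lit 9) 
(.lf (nat_lit 580793) (.g (nat_lit 2775) (.e (nat_lit 336431) (nat_lit 29) (.e (nat_lit 442421) (nat_lit 21) (.e (nat_lit 164326) (nat_lit 230) (.e (nat_lit 163882) (nat_lit 4) (.e (nat_lit 213032) (nat_lit 11) (.e (nat_lit 24629) (nat_lit 9) .nil)))))) (.g (nat_lit 1) (.e (nat_lit 377943) (nat_lit 0) .nil) .nil))) 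
(.lf (nat_lit 581305) (.g (nat_lit 3483) (.e (nat_lit 336443) (nat_lit 32) (.e (nat_lit 466972) (nat_lit 21) (.e (nat_lit 164332) (nat_lit 230) (.e (nat_lit 163880) (nat_lit 4) (.e (nat_lit 213032) (nat_lit 11) (.e (nat_lit 24628) (nat_lit 9) .nil)))))) (.g (nat_lit 1) (.e (nat_lit 378784) (nat_lit 0) .nil) .nil)))) (.nd (nat_lit 9) 
(.lf (nat_lit 581049) (.g (nat_lit 2604) (.e (nat_lit 336443) (nat_lit 32) (.e (nat_lit 466969) (nat_lit 21) (.e (nat_lit 164324) (nat_lit 230) (.e (nat_lit 163885) (nat_lit 5) (.e (nat_lit 221193) (nat_lit 11) (.e (nat_lit 336084) (nat_lit 9) .nil)))))) (.g (nat_lit 1) (.e (nat_lit 378527) (nat_lit 0) .nil) .nil))) 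
(.lf (nat_lit 581561) (.g (nat_lit 517) (.e (nat_lit 336454) (nat_lit 34) (.e (nat_lit 483405) (nat_lit 26) (.e (nat_lit 385065) (nat_lit 26) .nil))) (.g (nat_lit 0) (.e (nat_lit 379232) (nat_lit 0) .nil) .nil)))))) (.nd (nat_lit 7) (.nd (nat_lit 8) (.nd (nat_lit 9) 
(.lf (nat_lit 580729) (.g (nat_lit 1799) (.e (nat_lit 336430) (nat_lit 29) (.e (nat_lit 442419) (nat_lit 21) (.e (nat_lit 164331) (nat_lit 230) (.e (nat_lit 163885) (nat_lit 5) (.e (nat_lit 221194) (nat_lit 11) .nil))))) (.g (nat_lit 0) (.e (nat_lit 377855) (nat_lit 0) .nil) .nil))) 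
(.lf (nat_lit 581241) (.g (nat_lit 3408) (.e (nat_lit 336443) (nat_lit 32) (.e (nat_lit 466971) (nat_lit 21) (.e (nat_lit 164332) (nat_lit 230) (.e (nat_lit 163884) (nat_lit 5) (.e (nat_lit 221194) (nat_lit 11) (.e (nat_lit 336074) (nat_lit 9) .nil)))))) (.g (nat_lit 1) (.e (nat_lit 378719) (nat_lit 0) .nil) .nil)))) (.nd (nat_lit 9) 
(.lf (nat_lit 580985) (.g (nat_lit 1469) (.e (nat_lit 336438) (nat_lit 31) (.e (nat_lit 466688) (nat_lit 5) (.e (nat_lit 73776) (nat_lit 26) (.e (nat_lit 778466) (nat_lit 11) (.e (nat_lit 32512) (nat_lit 9) .nil))))) (.g (nat_lit 1) (.e (nat_lit 378414) (nat_lit 0) .nil) .nil))) 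
(.lf (nat_lit 581497) (.g (nat_lit 2866) (.e (nat_lit 336454) (nat_lit 34) (.e (nat_lit 483366) (nat_lit 18) (.e (nat_lit 57929) (nat_lit 282) (.e (nat_lit 163873) (nat_lit 3) (.e (nat_lit 204861) (nat_lit 26) (.e (nat_lit 336076) (nat_lit 9) .nil)))))) (.g (nat_lit 1) (.e (nat_lit 379130) (nat_lit 0) .nil) .nil))))) (.nd (nat_lit 8) (.nd (nat_lit 9) 
(.lf (nat_lit 580857) (.g (nat_lit 2178) (.e (nat_lit 336432) (nat_lit 30) (.e (nat_lit 450580) (nat_lit 5) (.e (nat_lit 532499) (nat_lit 1) (.e (nat_lit 57688) (nat_lit 156) (.e (nat_lit 163901) (nat_lit 12) .nil))))) (.g (nat_lit 0) (.e (nat_lit 378067) (nat_lit 0) .nil) .nil))) 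
(.lf (nat_lit 581369) (.g (nat_lit 760) (.e (nat_lit 336451) (nat_lit 34) (.e (nat_lit 483403) (nat_lit 26) (.e (nat_lit 385066) (nat_lit 26) .nil))) (.g (nat_lit 0) (.e (nat_lit 378889) (nat_lit 0) .nil) .nil)))) (.nd (nat_lit 9) 
(.lf (nat_lit 581113) (.g (nat_lit 3267) (.e (nat_lit 336443) (nat_lit 32) (.e (nat_lit 466969) (nat_lit 21) (.e (nat_lit 164331) (nat_lit 230) (.e (nat_lit 163884) (nat_lit 5) (.e (nat_lit 221194) (nat_lit 11) (.e (nat_lit 336077) (nat_lit 9) .nil)))))) (.g (nat_lit 1) (.e (nat_lit 378591) (nat_lit 0) .nil) .nil))) 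
(.lf (nat_lit 581625) (.g (nat_lit 2009) (.e (nat_lit 336456) (nat_lit 34) (.e (nat_lit 483364) (nat_lit 18) (.e (nat_lit 57851) (nat_lit 252) (.e (nat_lit 57371) (nat_lit 2) (.e (nat_lit 90160) (nat_lit 11) .nil))))) (.g (nat_lit 0) (.e (nat_lit 379322) (nat_lit 0) .nil) .nil)))))))))) 
(.nd (nat_lit 3) (.nd (nat_lit 4) (.nd (nat_lit 5) (.nd (nat_lit 6) (.nd (nat_lit 7) 
(.nd (nat_lit 8) (.nd (nat_lit 9) 
(.lf (nat_lit 580613) (.g (nat_lit 2172) (.e (nat_lit 336414) (nat_lit 27) (.e (nat_lit 426232) (nat_lit 9) (.e (nat_lit 426435) (nat_lit 18) (.e (nat_lit 98335) (nat_lit 18) (.e (nat_lit 164332) (nat_lit 230) (.e (nat_lit 163902) (nat_lit 12) (.e (nat_lit 426479) (nat_lit 27) .nil))))))) (.g (nat_lit 1) (.e (nat_lit 377605) (nat_lit 0) .nil) .nil))) 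
(.lf (nat_lit 581125) (.g (nat_lit 1785) (.e (nat_lit 336443) (nat_lit 32) (.e (nat_lit 466969) (nat_lit 21) (.e (nat_lit 164332) (nat_lit 230) (.e (nat_lit 163880) (nat_lit 4) (.e (nat_lit 213031) (nat_lit 11) .nil))))) (.g (nat_lit 0) (.e (nat_lit 378603) (nat_lit 0) .nil) .nil)))) (.nd (nat_lit 9) 
(.lf (nat_lit 580869) (.g (nat_lit 1256) (.e (nat_lit 336432) (nat_lit 30) (.e (nat_lit 450580) (nat_lit 5) (.e (nat_lit 532504) (nat_lit 1) (.e (nat_lit 57691) (nat_lit 156) .nil)))) (.g (nat_lit 0) (.e (nat_lit 378089) (nat_lit 0) .nil) .nil))) 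
(.lf (nat_lit 581381) (.g (nat_lit 3214) (.e (nat_lit 336452) (nat_lit 34) (.e (nat_lit 483383) (nat_lit 23) (.e (nat_lit 336324) (nat_lit 18) (.e (nat_lit 204831) (nat_lit 18) (.e (nat_lit 57854) (nat_lit 252) .nil))))) (.g (nat_lit 0) (.e (nat_lit 378931) (nat_lit 0) .nil) .nil))))) (.nd (nat_lit 8) (.nd (nat_lit 9) 
(.lf (nat_lit 580741) (.g (nat_lit 363) (.e (nat_lit 336430) (nat_lit 29) (.e (nat_lit 442421) (nat_lit 21) (.e (nat_lit 164327) (nat_lit 230) .nil))) (.g (nat_lit 0) (.e (nat_lit 377877) (nat_lit 0) .nil) .nil))) 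
(.lf (nat_lit 581253) (.g (nat_lit 2432) (.e (nat_lit 336443) (nat_lit 32) (.e (nat_lit 466971) (nat_lit 21) (.e (nat_lit 164346) (nat_lit 240) (.e (nat_lit 2638) (nat_lit 165) (.e (nat_lit 180278) (nat_lit 32) (.e (nat_lit 1426) (nat_lit 108) .nil)))))) (.g (nat_lit 1) (.e (nat_lit 378732) (nat_lit 0) .nil) .nil)))) (.nd (nat_lit 9) 
(.lf (nat_lit 580997) (.g (nat_lit 1245) (.e (nat_lit 336440) (nat_lit 32) (.e (nat_lit 466969) (nat_lit 21) (.e (nat_lit 164327) (nat_lit 230) (.e (nat_lit 163884) (nat_lit 5) .nil)))) (.g (nat_lit 0) (.e (nat_lit 378429) (nat_lit 0) .nil) .nil))) 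
(.lf (nat_lit 581509) (.g (nat_lit 1298) (.e (nat_lit 336454) (nat_lit 34) (.e (nat_lit 483380) (nat_lit 23) (.e (nat_lit 336316) (nat_lit 17) (.e (nat_lit 196661) (nat_lit 12) .nil)))) (.g (nat_lit 0) (.e (nat_lit 379142) (nat_lit 0) .nil) .nil)))))) (.nd (nat_lit 7) (.nd (nat_lit 8) (.nd (nat_lit 9) 
(.lf (nat_lit 580677) (.g (nat_lit 1637) (.e (nat_lit 336426) (nat_lit 29) (.e (nat_lit 442430) (nat_lit 24) (.e (nat_lit 229664) (nat_lit 240) (.e (nat_lit 2641) (nat_lit 165) (.e (nat_lit 180278) (nat_lit 32) (.e (nat_lit 1425) (nat_lit 108) .nil)))))) (.g (nat_lit 1) (.e (nat_lit 377714) (nat_lit 0) .nil) .nil))) 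
(.lf (nat_lit 581189) (.g (nat_lit 3386) (.e (nat_lit 336443) (nat_lit 32) (.e (nat_lit 466971) (nat_lit 21) (.e (nat_lit 164325) (nat_lit 230) (.e (nat_lit 163884) (nat_lit 5) (.e (nat_lit 221194) (nat_lit 11) (.e (nat_lit 336074) (nat_lit 9) .nil)))))) (.g (nat_lit 1) (.e (nat_lit 378667) (nat_lit 0) .nil) .nil)))) (.nd (nat_lit 9) 
(.lf (nat_lit 580933) (.g (nat_lit 1100) (.e (nat_lit 336434) (nat_lit 30) (.e (nat_lit 450579) (nat_lit 5) (.e (nat_lit 532501) (nat_lit 1) (.e (nat_lit 57670) (nat_lit 152) (.e (nat_lit 2477) (nat_lit 157) .nil))))) (.g (nat_lit 0) (.e (nat_lit 378223) (nat_lit 0) .nil) .nil))) 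
(.lf (nat_lit 581445) (.g (nat_lit 431) (.e (nat_lit 336454) (nat_lit 34) (.e (nat_lit 483364) (nat_lit 18) (.e (nat_lit 57854) (nat_lit 252) .nil))) (.g (nat_lit 0) (.e (nat_lit 379065) (nat_lit 0) .nil) .nil))))) (.nd (nat_lit 8) (.nd (nat_lit 9) 
(.lf (nat_lit 580805) (.g (nat_lit 1138) (.e (nat_lit 343808) (nat_lit 29) (.e (nat_lit 442374) (nat_lit 0) (.e (nat_lit 2059) (nat_lit 142) (.e (nat_lit 704595) (nat_lit 5) .nil)))) (.g (nat_lit 0) (.e (nat_lit 377966) (nat_lit 0) .nil) .nil))) 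
(.lf (nat_lit 581317) (.g (nat_lit 2757) (.e (nat_lit 336443) (nat_lit 32) (.e (nat_lit 466979) (nat_lit 23) (.e (nat_lit 204829) (nat_lit 18) (.e (nat_lit 57688) (nat_lit 156) (.e (nat_lit 163905) (nat_lit 12) (.e (nat_lit 426479) (nat_lit 27) .nil)))))) (.g (nat_lit 1) (.e (nat_lit 378798) (nat_lit 0) .nil) .nil)))) (.nd (nat_lit 9) 
(.lf (nat_lit 581061) (.g (nat_lit 3152) (.e (nat_lit 336443) (nat_lit 32) (.e (nat_lit 466969) (nat_lit 21) (.e (nat_lit 164325) (nat_lit 230) (.e (nat_lit 163884) (nat_lit 5) (.e (nat_lit 221194) (nat_lit 11) (.e (nat_lit 336077) (nat_lit 9) .nil)))))) (.g (nat_lit 1) (.e (nat_lit 378539) (nat_lit 0) .nil) .nil))) 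
(.lf (nat_lit 581573) (.g (nat_lit 1384) (.e (nat_lit 336455) (nat_lit 34) (.e (nat_lit 483365) (nat_lit 18) (.e (nat_lit 57847) (nat_lit 252) (.e (nat_lit 57372) (nat_lit 2) .nil)))) (.g (nat_lit 0) (.e (nat_lit 379254) (nat_lit 0) .nil) .nil))))))) (.nd (nat_lit 6) (.nd (nat_lit 7) (.nd (nat_lit 8) (.nd (nat_lit 9) 
(.lf (nat_lit 580645) (.g (nat_lit 451) (.e (nat_lit 336425) (nat_lit 28) (.e (nat_lit 434286) (nat_lit 42) (.e (nat_lit 688178) (nat_lit 16) .nil))) (.g (nat_lit 0) (.e (nat_lit 377677) (nat_lit 0) .nil) .nil))) 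
(.lf (nat_lit 581157) (.g (nat_lit 2344) (.e (nat_lit 336443) (nat_lit 32) (.e (nat_lit 466969) (nat_lit 21) (.e (nat_lit 164348) (nat_lit 240) (.e (nat_lit 2638) (nat_lit 165) (.e (nat_lit 188160) (nat_lit 32) (.e (nat_lit 1433) (nat_lit 108) .nil)))))) (.g (nat_lit 1) (.e (nat_lit 378635) (nat_lit 0) .nil) .nil)))) (.nd (nat_lit 9) 
(.lf (nat_lit 580901) (.g (nat_lit 2509) (.e (nat_lit 336432) (nat_lit 30) (.e (nat_lit 450588) (nat_lit 10) (.e (nat_lit 573503) (nat_lit 18) (.e (nat_lit 1384) (nat_lit 105) .nil)))) (.g (nat_lit 0) (.e (nat_lit 378132) (nat_lit 0) .nil) .nil))) 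
(.lf (nat_lit 581413) (.g (nat_lit 3070) (.e (nat_lit 336453) (nat_lit 34) (.e (nat_lit 483365) (nat_lit 18) (.e (nat_lit 57854) (nat_lit 252) (.e (nat_lit 57373) (nat_lit 2) (.e (nat_lit 90160) (nat_lit 11) (.e (nat_lit 24636) (nat_lit 9) .nil)))))) (.g (nat_lit 1) (.e (nat_lit 378972) (nat_lit 0) .nil) .nil))))) (.nd (nat_lit 8) (.nd (nat_lit 9) 
(.lf (nat_lit 580773) (.g (nat_lit 2162) (.e (nat_lit 336430) (nat_lit 29) (.e (nat_lit 442427) (nat_lit 23) (.e (nat_lit 204831) (nat_lit 18) (.e (nat_lit 57687) (nat_lit 156) (.e (nat_lit 163902) (nat_lit 12) (.e (nat_lit 426479) (nat_lit 27) .nil)))))) (.g (nat_lit 1) (.e (nat_lit 377911) (nat_lit 0) .nil) .nil))) 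
(.lf (nat_lit 581285) (.g (nat_lit 3504) (.e (nat_lit 336443) (nat_lit 32) (.e (nat_lit 466972) (nat_lit 21) (.e (nat_lit 164330) (nat_lit 230) (.e (nat_lit 163884) (nat_lit 5) (.e (nat_lit 221194) (nat_lit 11) (.e (nat_lit 336084) (nat_lit 9) .nil)))))) (.g (nat_lit 1) (.e (nat_lit 378764) (nat_lit 0) .nil) .nil)))) (.nd (nat_lit 9) 
(.lf (nat_lit 581029) (.g (nat_lit 1492) (.e (nat_lit 336442) (nat_lit 32) (.e (nat_lit 466971) (nat_lit 21) (.e (nat_lit 164324) (nat_lit 230) (.e (nat_lit 163886) (nat_lit 5) (.e (nat_lit 221192) (nat_lit 11) (.e (nat_lit 336153) (nat_lit 9) .nil)))))) (.g (nat_lit 1) (.e (nat_lit 378481) (nat_lit 0) .nil) .nil))) 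
(.lf (nat_lit 581541) (.g (nat_lit 1355) (.e (nat_lit 336454) (nat_lit 34) (.e (nat_lit 483385) (nat_lit 23) (.e (nat_lit 336240) (nat_lit 15) (.e (nat_lit 3248) (nat_lit 197) .nil)))) (.g (nat_lit 0) (.e (nat_lit 379204) (nat_lit 0) .nil) .nil)))))) (.nd (nat_lit 7) (.nd (nat_lit 8) (.nd (nat_lit 9) 
(.lf (nat_lit 580709) (.g (nat_lit 1395) (.e (nat_lit 336429) (nat_lit 29) (.e (nat_lit 442419) (nat_lit 21) (.e (nat_lit 164348) (nat_lit 240) (.e (nat_lit 2640) (nat_lit 165) .nil)))) (.g (nat_lit 0) (.e (nat_lit 377801) (nat_lit 0) .nil) .nil))) 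
(.lf (nat_lit 581221) (.g (nat_lit 3000) (.e (nat_lit 336443) (nat_lit 32) (.e (nat_lit 466971) (nat_lit 21) (.e (nat_lit 164331) (nat_lit 230) (.e (nat_lit 163884) (nat_lit 5) (.e (nat_lit 221194) (nat_lit 11) (.e (nat_lit 336077) (nat_lit 9) .nil)))))) (.g (nat_lit 1) (.e (nat_lit 378699) (nat_lit 0) .nil) .nil)))) (.nd (nat_lit 9) 
(.lf (nat_lit 580965) (.g (nat_lit 348) (.e (nat_lit 336434) (nat_lit 30) (.e (nat_lit 450579) (nat_lit 5) (.e (nat_lit 532579) (nat_lit 26) .nil))) (.g (nat_lit 0) (.e (nat_lit 378269) (nat_lit 0) .nil) .nil))) 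
(.lf (nat_lit 581477) (.g (nat_lit 3853) (.e (nat_lit 336454) (nat_lit 34) (.e (nat_lit 483365) (nat_lit 18) (.e (nat_lit 57852) (nat_lit 252) (.e (nat_lit 57373) (nat_lit 2) (.e (nat_lit 90160) (nat_lit 11) (.e (nat_lit 24624) (nat_lit 9) .nil)))))) (.g (nat_lit 1) (.e (nat_lit 379104) (nat_lit 0) .nil) .nil))))) (.nd (nat_lit 8) (.nd (nat_lit 9) 
(.lf (nat_lit 580837) (.g (nat_lit 506) (.e (nat_lit 336432) (nat_lit 30) (.e (nat_lit 450579) (nat_lit 5) (.e (nat_lit 532499) (nat_lit 1) .nil))) (.g (nat_lit 0) (.e (nat_lit 378042) (nat_lit 0) .nil) .nil))) 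
(.lf (nat_lit 581349) (.g (nat_lit 1357) (.e (nat_lit 336444) (nat_lit 32) (.e (nat_lit 466971) (nat_lit 21) (.e (nat_lit 164327) (nat_lit 230) (.e (nat_lit 163879) (nat_lit 4) .nil)))) (.g (nat_lit 0) (.e (nat_lit 378840) (nat_lit 0) .nil) .nil)))) (.nd (nat_lit 9) 
(.lf (nat_lit 581093) (.g (nat_lit 3352) (.e (nat_lit 336443) (nat_lit 32) (.e (nat_lit 466969) (nat_lit 21) (.e (nat_lit 164329) (nat_lit 230) (.e (nat_lit 163884) (nat_lit 5) (.e (nat_lit 221194) (nat_lit 11) (.e (nat_lit 336074) (nat_lit 9) .nil)))))) (.g (nat_lit 1) (.e (nat_lit 378571) (nat_lit 0) .nil) .nil))) 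
(.lf (nat_lit 581605) (.g (nat_lit 1529) (.e (nat_lit 336456) (nat_lit 34) (.e (nat_lit 483363) (nat_lit 18) (.e (nat_lit 57845) (nat_lit 252) (.e (nat_lit 57371) (nat_lit 2) (.e (nat_lit 90158) (nat_lit 11) .nil))))) (.g (nat_lit 0) (.e (nat_lit 379301) (nat_lit 0) .nil) .nil)))))))) (.nd (nat_lit 5) (.nd (nat_lit 6) (.nd (nat_lit 7) (.nd (nat_lit 8) (.nd (nat_lit 9) 
(.lf (nat_lit 580629) (.g (nat_lit 888) (.e (nat_lit 343808) (nat_lit 27) (.e (nat_lit 426347) (nat_lit 14) (.e (nat_lit 491549) (nat_lit 9) (.e (nat_lit 336421) (nat_lit 28) .nil)))) (.g (nat_lit 0) (.e (nat_lit 377627) (nat_lit 0) .nil) .nil))) 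
(.lf (nat_lit 581141) (.g (nat_lit 2403) (.e (nat_lit 336443) (nat_lit 32) (.e (nat_lit 466969) (nat_lit 21) (.e (nat_lit 164345) (nat_lit 240) (.e (nat_lit 2638) (nat_lit 165) (.e (nat_lit 180278) (nat_lit 32) (.e (nat_lit 1413) (nat_lit 108) .nil)))))) (.g (nat_lit 1) (.e (nat_lit 378619) (nat_lit 0) .nil) .nil)))) (.nd (nat_lit 9) 
(.lf (nat_lit 580885) (.g (nat_lit 566) (.e (nat_lit 336432) (nat_lit 30) (.e (nat_lit 450586) (nat_lit 10) (.e (nat_lit 573478) (nat_lit 12) .nil))) (.g (nat_lit 0) (.e (nat_lit 378111) (nat_lit 0) .nil) .nil))) 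
(.lf (nat_lit 581397) (.g (nat_lit 958) (.e (nat_lit 336453) (nat_lit 34) (.e (nat_lit 483363) (nat_lit 18) (.e (nat_lit 57847) (nat_lit 252) (.e (nat_lit 57379) (nat_lit 3) .nil)))) (.g (nat_lit 0) (.e (nat_lit 378956) (nat_lit 0) .nil) .nil))))) (.nd (nat_lit 8) (.nd (nat_lit 9) 
(.lf (nat_lit 580757) (.g (nat_lit 2708) (.e (nat_lit 336430) (nat_lit 29) (.e (nat_lit 442425) (nat_lit 23) (.e (nat_lit 204829) (nat_lit 18) (.e (nat_lit 57688) (nat_lit 156) (.e (nat_lit 163905) (nat_lit 12) (.e (nat_lit 426479) (nat_lit 27) .nil)))))) (.g (nat_lit 1) (.e (nat_lit 377895) (nat_lit 0) .nil) .nil))) 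
(.lf (nat_lit 581269) (.g (nat_lit 2865) (.e (nat_lit 336443) (nat_lit 32) (.e (nat_lit 466972) (nat_lit 21) (.e (nat_lit 164322) (nat_lit 230) (.e (nat_lit 163885) (nat_lit 5) (.e (nat_lit 221194) (nat_lit 11) (.e (nat_lit 336084) (nat_lit 9) .nil)))))) (.g (nat_lit 1) (.e (nat_lit 378748) (nat_lit 0) .nil) .nil)))) (.nd (nat_lit 9) 
(.lf (nat_lit 581013) (.g (nat_lit 587) (.e (nat_lit 336441) (nat_lit 32) (.e (nat_lit 466972) (nat_lit 21) (.e (nat_lit 164330) (nat_lit 230) .nil))) (.g (nat_lit 0) (.e (nat_lit 378456) (nat_lit 0) .nil) .nil))) 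
(.lf (nat_lit 581525) (.g (nat_lit 1759) (.e (nat_lit 336454) (nat_lit 34) (.e (nat_lit 483383) (nat_lit 23) (.e (nat_lit 336303) (nat_lit 15) (.e (nat_lit 3238) (nat_lit 197) (.e (nat_lit 532500) (nat_lit 1) .nil))))) (.g (nat_lit 0) (.e (nat_lit 379176) (nat_lit 0) .nil) .nil)))))) (.nd (nat_lit 7) (.nd (nat_lit 8) (.nd (nat_lit 9) 
(.lf (nat_lit 580693) (.g (nat_lit 1453) (.e (nat_lit 336428) (nat_lit 29) (.e (nat_lit 442374) (nat_lit 0) (.e (nat_lit 2059) (nat_lit 142) (.e (nat_lit 704593) (nat_lit 4) .nil)))) (.g (nat_lit 0) (.e (nat_lit 377741) (nat_lit 0) .nil) .nil))) 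
(.lf (nat_lit 581205) (.g (nat_lit 2867) (.e (nat_lit 336443) (nat_lit 32) (.e (nat_lit 466971) (nat_lit 21) (.e (nat_lit 164327) (nat_lit 230) (.e (nat_lit 163882) (nat_lit 4) (.e (nat_lit 213030) (nat_lit 11) (.e (nat_lit 24629) (nat_lit 9) .nil)))))) (.g (nat_lit 1) (.e (nat_lit 378683) (nat_lit 0) .nil) .nil)))) (.nd (nat_lit 9) 
(.lf (nat_lit 580949) (.g (nat_lit 2996) (.e (nat_lit 336434) (nat_lit 30) (.e (nat_lit 450579) (nat_lit 5) (.e (nat_lit 532503) (nat_lit 1) (.e (nat_lit 57688) (nat_lit 156) (.e (nat_lit 163902) (nat_lit 12) (.e (nat_lit 426479) (nat_lit 27) .nil)))))) (.g (nat_lit 1) (.e (nat_lit 378244) (nat_lit 0) .nil) .nil))) 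
(.lf (nat_lit 581461) (.g (nat_lit 3176) (.e (nat_lit 336454) (nat_lit 34) (.e (nat_lit 483365) (nat_lit 18) (.e (nat_lit 57847) (nat_lit 252) (.e (nat_lit 57375) (nat_lit 2) (.e (nat_lit 90160) (nat_lit 11) (.e (nat_lit 32512) (nat_lit 9) .nil)))))) (.g (nat_lit 1) (.e (nat_lit 379085) (nat_lit 0) .nil) .nil))))) (.nd (nat_lit 8) (.nd (nat_lit 9) 
(.lf (nat_lit 580821) (.g (nat_lit 1566) (.e (nat_lit 336432) (nat_lit 30) (.e (nat_lit 450565) (nat_lit 0) (.e (nat_lit 5546) (nat_lit 306) (.e (nat_lit 2629) (nat_lit 164) (.e (nat_lit 172126) (nat_lit 14) .nil))))) (.g (nat_lit 0) (.e (nat_lit 378018) (nat_lit 0) .nil) .nil))) 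
(.lf (nat_lit 581333) (.g (nat_lit 2143) (.e (nat_lit 336443) (nat_lit 32) (.e (nat_lit 466981) (nat_lit 23) (.e (nat_lit 204829) (nat_lit 18) (.e (nat_lit 57691) (nat_lit 156) (.e (nat_lit 163906) (nat_lit 12) (.e (nat_lit 426484) (nat_lit 27) .nil)))))) (.g (nat_lit 1) (.e (nat_lit 378814) (nat_lit 0) .nil) .nil)))) (.nd (nat_lit 9) 
(.lf (nat_lit 581077) (.g (nat_lit 2906) (.e (nat_lit 336443) (nat_lit 32) (.e (nat_lit 466969) (nat_lit 21) (.e (nat_lit 164327) (nat_lit 230) (.e (nat_lit 163882) (nat_lit 4) (.e (nat_lit 213030) (nat_lit 11) (.e (nat_lit 24629) (nat_lit 9) .nil)))))) (.g (nat_lit 1) (.e (nat_lit 378555) (nat_lit 0) .nil) .nil))) 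
(.lf (nat_lit 581589) (.g (nat_lit 2282) (.e (nat_lit 336455) (nat_lit 34) (.e (nat_lit 483383) (nat_lit 23) (.e (nat_lit 336324) (nat_lit 18) (.e (nat_lit 204829) (nat_lit 18) .nil)))) (.g (nat_lit 0) (.e (nat_lit 379277) (nat_lit 0) .nil) .nil))))))) (.nd (nat_lit 6) (.nd (nat_lit 7) (.nd (nat_lit 8) (.nd (nat_lit 9) 
(.lf (nat_lit 580661) (.g (nat_lit 1971) (.e (nat_lit 336426) (nat_lit 29) (.e (nat_lit 442421) (nat_lit 21) (.e (nat_lit 164327) (nat_lit 230) (.e (nat_lit 163879) (nat_lit 4) .nil)))) (.g (nat_lit 0) (.e (nat_lit 377696) (nat_lit 0) .nil) .nil))) 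
(.lf (nat_lit 581173) (.g (nat_lit 2613) (.e (nat_lit 336443) (nat_lit 32) (.e (nat_lit 466971) (nat_lit 21) (.e (nat_lit 164324) (nat_lit 230) (.e (nat_lit 163884) (nat_lit 5) (.e (nat_lit 221193) (nat_lit 11) (.e (nat_lit 336084) (nat_lit 9) .nil)))))) (.g (nat_lit 1) (.e (nat_lit 378651) (nat_lit 0) .nil) .nil)))) (.nd (nat_lit 9) 
(.lf (nat_lit 580917) (.g (nat_lit 2481) (.e (nat_lit 336434) (nat_lit 30) (.e (nat_lit 450564) (nat_lit 0) (.e (nat_lit 5548) (nat_lit 306) (.e (nat_lit 2638) (nat_lit 165) (.e (nat_lit 180277) (nat_lit 32) (.e (nat_lit 1425) (nat_lit 108) .nil)))))) (.g (nat_lit 1) (.e (nat_lit 378203) (nat_lit 0) .nil) .nil))) 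
(.lf (nat_lit 581429) (.g (nat_lit 2465) (.e (nat_lit 336454) (nat_lit 34) (.e (nat_lit 483362) (nat_lit 18) (.e (nat_lit 57931) (nat_lit 282) (.e (nat_lit 163874) (nat_lit 3) (.e (nat_lit 204861) (nat_lit 26) (.e (nat_lit 336075) (nat_lit 9) .nil)))))) (.g (nat_lit 1) (.e (nat_lit 379042) (nat_lit 0) .nil) .nil))))) (.nd (nat_lit 8) (.nd (nat_lit 9) 
(.lf (nat_lit 580789) (.g (nat_lit 2310) (.e (nat_lit 336430) (nat_lit 29) (.e (nat_lit 442430) (nat_lit 24) (.e (nat_lit 229665) (nat_lit 240) (.e (nat_lit 2643) (nat_lit 165) (.e (nat_lit 180277) (nat_lit 32) (.e (nat_lit 1425) (nat_lit 108) .nil)))))) (.g (nat_lit 1) (.e (nat_lit 377937) (nat_lit 0) .nil) .nil))) 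
(.lf (nat_lit 581301) (.g (nat_lit 3572) (.e (nat_lit 336443) (nat_lit 32) (.e (nat_lit 466972) (nat_lit 21) (.e (nat_lit 164332) (nat_lit 230) (.e (nat_lit 163878) (nat_lit 4) (.e (nat_lit 213032) (nat_lit 11) (.e (nat_lit 24626) (nat_lit 9) .nil)))))) (.g (nat_lit 1) (.e (nat_lit 378780) (nat_lit 0) .nil) .nil)))) (.nd (nat_lit 9) 
(.lf (nat_lit 581045) (.g (nat_lit 3692) (.e (nat_lit 336443) (nat_lit 32) (.e (nat_lit 466969) (nat_lit 21) (.e (nat_lit 164324) (nat_lit 230) (.e (nat_lit 163884) (nat_lit 5) (.e (nat_lit 221194) (nat_lit 11) (.e (nat_lit 336074) (nat_lit 9) .nil)))))) (.g (nat_lit 1) (.e (nat_lit 378523) (nat_lit 0) .nil) .nil))) 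
(.lf (nat_lit 581557) (.g (nat_lit 2283) (.e (nat_lit 336454) (nat_lit 34) (.e (nat_lit 483399) (nat_lit 25) (.e (nat_lit 368676) (nat_lit 21) (.e (nat_lit 516119) (nat_lit 1) (.e (nat_lit 164184) (nat_lit 155) (.e (nat_lit 122904) (nat_lit 12) .nil)))))) (.g (nat_lit 1) (.e (nat_lit 379227) (nat_lit 0) .nil) .nil)))))) (.nd (nat_lit 7) (.nd (nat_lit 8) (.nd (nat_lit 9) 
(.lf (nat_lit 580725) (.g (nat_lit 1749) (.e (nat_lit 336430) (nat_lit 29) (.e (nat_lit 442419) (nat_lit 21) (.e (nat_lit 164325) (nat_lit 230) (.e (nat_lit 163882) (nat_lit 4) .nil)))) (.g (nat_lit 0) (.e (nat_lit 377850) (nat_lit 0) .nil) .nil))) 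
(.lf (nat_lit 581237) (.g (nat_lit 3236) (.e (nat_lit 336443) (nat_lit 32) (.e (nat_lit 466971) (nat_lit 21) (.e (nat_lit 164332) (nat_lit 230) (.e (nat_lit 163880) (nat_lit 4) (.e (nat_lit 213032) (nat_lit 11) (.e (nat_lit 24629) (nat_lit 9) .nil)))))) (.g (nat_lit 1) (.e (nat_lit 378715) (nat_lit 0) .nil) .nil)))) (.nd (nat_lit 9) 
(.lf (nat_lit 580981) (.g (nat_lit 975) (.e (nat_lit 336437) (nat_lit 31) (.e (nat_lit 458769) (nat_lit 16) (.e (nat_lit 164287) (nat_lit 224) (.e (nat_lit 164112) (nat_lit 118) (.e (nat_lit 794635) (nat_lit 11) (.e (nat_lit 336152) (nat_lit 9) .nil)))))) (.g (nat_lit 1) (.e (nat_lit 378406) (nat_lit 0) .nil) .nil))) 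
(.lf (nat_lit 581493) (.g (nat_lit 2283) (.e (nat_lit 336454) (nat_lit 34) (.e (nat_lit 483366) (nat_lit 18) (.e (nat_lit 57844) (nat_lit 252) (.e (nat_lit 57372) (nat_lit 2) (.e (nat_lit 90158) (nat_lit 11) (.e (nat_lit 24628) (nat_lit 9) .nil)))))) (.g (nat_lit 1) (.e (nat_lit 379126) (nat_lit 0) .nil) .nil))))) (.nd (nat_lit 8) (.nd (nat_lit 9) 
(.lf (nat_lit 580853) (.g (nat_lit 578) (.e (nat_lit 336432) (nat_lit 30) (.e (nat_lit 450579) (nat_lit 5) (.e (nat_lit 532578) (nat_lit 26) .nil))) (.g (nat_lit 0) (.e (nat_lit 378062) (nat_lit 0) .nil) .nil))) 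
(.lf (nat_lit 581365) (.g (nat_lit 1914) (.e (nat_lit 336451) (nat_lit 34) (.e (nat_lit 483363) (nat_lit 18) (.e (nat_lit 57849) (nat_lit 252) (.e (nat_lit 57379) (nat_lit 3) (.e (nat_lit 98315) (nat_lit 9) .nil))))) (.g (nat_lit 0) (.e (nat_lit 378873) (nat_lit 0) .nil) .nil)))) (.nd (nat_lit 9) 
(.lf (nat_lit 581109) (.g (nat_lit 3262) (.e (nat_lit 336443) (nat_lit 32) (.e (nat_lit 466969) (nat_lit 21) (.e (nat_lit 164330) (nat_lit 230) (.e (nat_lit 163885) (nat_lit 5) (.e (nat_lit 221194) (nat_lit 11) (.e (nat_lit 336084) (nat_lit 9) .nil)))))) (.g (nat_lit 1) (.e (nat_lit 378587) (nat_lit 0) .nil) .nil))) 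
(.lf (nat_lit 581621) (.g (nat_lit 2251) (.e (nat_lit 336456) (nat_lit 34) (.e (nat_lit 483363) (nat_lit 18) (.e (nat_lit 57931) (nat_lit 282) (.e (nat_lit 163869) (nat_lit 2) (.e (nat_lit 196681) (nat_lit 17) .nil))))) (.g (nat_lit 0) (.e (nat_lit 379318) (nat_lit 0) .nil) .nil))))))))) (.nd (nat_lit 4) (.nd (nat_lit 5) (.nd (nat_lit 6) (.nd (nat_lit 7) (.nd (nat_lit 8) (.nd (nat_lit 9) 
(.lf (nat_lit 580621) (.g (nat_lit 1157) (.e (nat_lit 336414) (nat_lit 27) (.e (nat_lit 426503) (nat_lit 27) (.e (nat_lit 335986) (nat_lit 1) (.e (nat_lit 57927) (nat_lit 282) .nil)))) (.g (nat_lit 0) (.e (nat_lit 377614) (nat_lit 0) .nil) .nil))) 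
(.lf (nat_lit 581133) (.g (nat_lit 2479) (.e (nat_lit 336443) (nat_lit 32) (.e (nat_lit 466969) (nat_lit 21) (.e (nat_lit 164332) (nat_lit 230) (.e (nat_lit 163885) (nat_lit 5) (.e (nat_lit 221190) (nat_lit 11) (.e (nat_lit 336076) (nat_lit 9) .nil)))))) (.g (nat_lit 1) (.e (nat_lit 378611) (nat_lit 0) .nil) .nil)))) (.nd (nat_lit 9) 
(.lf (nat_lit 580877) (.g (nat_lit 1610) (.e (nat_lit 336432) (nat_lit 30) (.e (nat_lit 450586) (nat_lit 10) (.e (nat_lit 573473) (nat_lit 12) (.e (nat_lit 57350) (nat_lit 0) .nil)))) (.g (nat_lit 0) (.e (nat_lit 378100) (nat_lit 0) .nil) .nil))) 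
(.lf (nat_lit 581389) (.g (nat_lit 2194) (.e (nat_lit 336452) (nat_lit 34) (.e (nat_lit 483406) (nat_lit 26) (.e (nat_lit 385066) (nat_lit 26) (.e (nat_lit 532503) (nat_lit 1) .nil)))) (.g (nat_lit 0) (.e (nat_lit 378944) (nat_lit 0) .nil) .nil))))) (.nd (nat_lit 8) (.nd (nat_lit 9) 
(.lf (nat_lit 580749) (.g (nat_lit 2092) (.e (nat_lit 336430) (nat_lit 29) (.e (nat_lit 442421) (nat_lit 21) (.e (nat_lit 164346) (nat_lit 240) (.e (nat_lit 2638) (nat_lit 165) (.e (nat_lit 180277) (nat_lit 32) (.e (nat_lit 1425) (nat_lit 108) .nil)))))) (.g (nat_lit 1) (.e (nat_lit 377885) (nat_lit 0) .nil) .nil))) 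
(.lf (nat_lit 581261) (.g (nat_lit 2789) (.e (nat_lit 336443) (nat_lit 32) (.e (nat_lit 466971) (nat_lit 21) (.e (nat_lit 164348) (nat_lit 240) (.e (nat_lit 2638) (nat_lit 165) (.e (nat_lit 180277) (nat_lit 32) (.e (nat_lit 1425) (nat_lit 108) .nil)))))) (.g (nat_lit 1) (.e (nat_lit 378740) (nat_lit 0) .nil) .nil)))) (.nd (nat_lit 9) 
(.lf (nat_lit 581005) (.g (nat_lit 561) (.e (nat_lit 336440) (nat_lit 32) (.e (nat_lit 466971) (nat_lit 21) (.e (nat_lit 164322) (nat_lit 230) .nil))) (.g (nat_lit 0) (.e (nat_lit 378438) (nat_lit 0) .nil) .nil))) 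
(.lf (nat_lit 581517) (.g (nat_lit 2455) (.e (nat_lit 336454) (nat_lit 34) (.e (nat_lit 483382) (nat_lit 23) (.e (nat_lit 336324) (nat_lit 18) (.e (nat_lit 204831) (nat_lit 18) (.e (nat_lit 57847) (nat_lit 252) (.e (nat_lit 57405) (nat_lit 12) .nil)))))) (.g (nat_lit 1) (.e (nat_lit 379162) (nat_lit 0) .nil) .nil)))))) (.nd (nat_lit 7) (.nd (nat_lit 8) (.nd (nat_lit 9) 
(.lf (nat_lit 580685) (.g (nat_lit 1390) (.e (nat_lit 336427) (nat_lit 29) (.e (nat_lit 442421) (nat_lit 21) (.e (nat_lit 164322) (nat_lit 230) (.e (nat_lit 163878) (nat_lit 4) .nil)))) (.g (nat_lit 0) (.e (nat_lit 377726) (nat_lit 0) .nil) .nil))) 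
(.lf (nat_lit 581197) (.g (nat_lit 2901) (.e (nat_lit 336443) (nat_lit 32) (.e (nat_lit 466971) (nat_lit 21) (.e (nat_lit 164326) (nat_lit 230) (.e (nat_lit 163882) (nat_lit 4) (.e (nat_lit 213032) (nat_lit 11) (.e (nat_lit 24628) (nat_lit 9) .nil)))))) (.g (nat_lit 1) (.e (nat_lit 378675) (nat_lit 0) .nil) .nil)))) (.nd (nat_lit 9) 
(.lf (nat_lit 580941) (.g (nat_lit 1034) (.e (nat_lit 336434) (nat_lit 30) (.e (nat_lit 450579) (nat_lit 5) (.e (nat_lit 532502) (nat_lit 1) (.e (nat_lit 57691) (nat_lit 156) .nil)))) (.g (nat_lit 0) (.e (nat_lit 378236) (nat_lit 0) .nil) .nil))) 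
(.lf (nat_lit 581453) (.g (nat_lit 2359) (.e (nat_lit 336454) (nat_lit 34) (.e (nat_lit 483364) (nat_lit 18) (.e (nat_lit 57930) (nat_lit 282) (.e (nat_lit 163869) (nat_lit 2) (.e (nat_lit 196681) (nat_lit 17) (.e (nat_lit 131109) (nat_lit 9) .nil)))))) (.g (nat_lit 1) (.e (nat_lit 379075) (nat_lit 0) .nil) .nil))))) (.nd (nat_lit 8) (.nd (nat_lit 9) 
(.lf (nat_lit 580813) (.g (nat_lit 1624) (.e (nat_lit 336432) (nat_lit 30) (.e (nat_lit 450564) (nat_lit 0) (.e (nat_lit 5548) (nat_lit 306) (.e (nat_lit 2628) (nat_lit 164) .nil)))) (.g (nat_lit 0) (.e (nat_lit 378007) (nat_lit 0) .nil) .nil))) 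
(.lf (nat_lit 581325) (.g (nat_lit 2446) (.e (nat_lit 336443) (nat_lit 32) (.e (nat_lit 466979) (nat_lit 23) (.e (nat_lit 204830) (nat_lit 18) (.e (nat_lit 57692) (nat_lit 156) (.e (nat_lit 163907) (nat_lit 12) (.e (nat_lit 426484) (nat_lit 27) .nil)))))) (.g (nat_lit 1) (.e (nat_lit 378806) (nat_lit 0) .nil) .nil)))) (.nd (nat_lit 9) 
(.lf (nat_lit 581069) (.g (nat_lit 2968) (.e (nat_lit 336443) (nat_lit 32) (.e (nat_lit 466969) (nat_lit 21) (.e (nat_lit 164326) (nat_lit 230) (.e (nat_lit 163882) (nat_lit 4) (.e (nat_lit 213032) (nat_lit 11) (.e (nat_lit 24625) (nat_lit 9) .nil)))))) (.g (nat_lit 1) (.e (nat_lit 378547) (nat_lit 0) .nil) .nil))) 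
(.lf (nat_lit 581581) (.g (nat_lit 2899) (.e (nat_lit 336455) (nat_lit 34) (.e (nat_lit 483380) (nat_lit 23) (.e (nat_lit 336324) (nat_lit 18) (.e (nat_lit 204831) (nat_lit 18) (.e (nat_lit 57854) (nat_lit 252) .nil))))) (.g (nat_lit 0) (.e (nat_lit 379262) (nat_lit 0) .nil) .nil))))))) (.nd (nat_lit 6) (.nd (nat_lit 7) (.nd (nat_lit 8) (.nd (nat_lit 9) 
(.lf (nat_lit 580653) (.g (nat_lit 1454) (.e (nat_lit 336426) (nat_lit 29) (.e (nat_lit 442419) (nat_lit 21) (.e (nat_lit 164326) (nat_lit 230) (.e (nat_lit 163882) (nat_lit 4) .nil)))) (.g (nat_lit 0) (.e (nat_lit 377687) (nat_lit 0) .nil) .nil))) 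
(.lf (nat_lit 581165) (.g (nat_lit 1997) (.e (nat_lit 336443) (nat_lit 32) (.e (nat_lit 466971) (nat_lit 21) (.e (nat_lit 164322) (nat_lit 230) (.e (nat_lit 163885) (nat_lit 5) (.e (nat_lit 221190) (nat_lit 11) .nil))))) (.g (nat_lit 0) (.e (nat_lit 378643) (nat_lit 0) .nil) .nil)))) (.nd (nat_lit 9) 
(.lf (nat_lit 580909) (.g (nat_lit 1991) (.e (nat_lit 336433) (nat_lit 30) (.e (nat_lit 450588) (nat_lit 10) (.e (nat_lit 573503) (nat_lit 18) (.e (nat_lit 1383) (nat_lit 105) (.e (nat_lit 311309) (nat_lit 1) .nil))))) (.g (nat_lit 0) (.e (nat_lit 378186) (nat_lit 0) .nil) .nil))) 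
(.lf (nat_lit 581421) (.g (nat_lit 1811) (.e (nat_lit 336453) (nat_lit 34) (.e (nat_lit 483383) (nat_lit 23) (.e (nat_lit 336019) (nat_lit 3) (.e (nat_lit 98333) (nat_lit 18) .nil)))) (.g (nat_lit 0) (.e (nat_lit 378990) (nat_lit 0) .nil) .nil))))) (.nd (nat_lit 8) (.nd (nat_lit 9) 
(.lf (nat_lit 580781) (.g (nat_lit 1830) (.e (nat_lit 336430) (nat_lit 29) (.e (nat_lit 442429) (nat_lit 24) (.e (nat_lit 229663) (nat_lit 240) (.e (nat_lit 2643) (nat_lit 165) (.e (nat_lit 180277) (nat_lit 32) (.e (nat_lit 1425) (nat_lit 108) .nil)))))) (.g (nat_lit 1) (.e (nat_lit 377924) (nat_lit 0) .nil) .nil))) 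
(.lf (nat_lit 581293) (.g (nat_lit 2594) (.e (nat_lit 336443) (nat_lit 32) (.e (nat_lit 466972) (nat_lit 21) (.e (nat_lit 164331) (nat_lit 230) (.e (nat_lit 163885) (nat_lit 5) (.e (nat_lit 221193) (nat_lit 11) (.e (nat_lit 336074) (nat_lit 9) .nil)))))) (.g (nat_lit 1) (.e (nat_lit 378772) (nat_lit 0) .nil) .nil)))) (.nd (nat_lit 9) 
(.lf (nat_lit 581037) (.g (nat_lit 397) (.e (nat_lit 336442) (nat_lit 32) (.e (nat_lit 466972) (nat_lit 21) (.e (nat_lit 164345) (nat_lit 240) .nil))) (.g (nat_lit 0) (.e (nat_lit 378499) (nat_lit 0) .nil) .nil))) 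
(.lf (nat_lit 581549) (.g (nat_lit 714) (.e (nat_lit 336454) (nat_lit 34) (.e (nat_lit 483385) (nat_lit 23) (.e (nat_lit 336324) (nat_lit 18) (.e (nat_lit 204831) (nat_lit 18) .nil)))) (.g (nat_lit 0) (.e (nat_lit 379212) (nat_lit 0) .nil) .nil)))))) (.nd (nat_lit 7) (.nd (nat_lit 8) (.nd (nat_lit 9) 
(.lf (nat_lit 580717) (.g (nat_lit 1202) (.e (nat_lit 336429) (nat_lit 29) (.e (nat_lit 442421) (nat_lit 21) (.e (nat_lit 164348) (nat_lit 240) (.e (nat_lit 2640) (nat_lit 165) .nil)))) (.g (nat_lit 0) (.e (nat_lit 377816) (nat_lit 0) .nil) .nil))) 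
(.lf (nat_lit 581229) (.g (nat_lit 3427) (.e (nat_lit 336443) (nat_lit 32) (.e (nat_lit 466971) (nat_lit 21) (.e (nat_lit 164332) (nat_lit 230) (.e (nat_lit 163880) (nat_lit 4) (.e (nat_lit 213030) (nat_lit 11) (.e (nat_lit 24628) (nat_lit 9) .nil)))))) (.g (nat_lit 1) (.e (nat_lit 378707) (nat_lit 0) .nil) .nil)))) (.nd (nat_lit 9) 
(.lf (nat_lit 580973) (.g (nat_lit 1563) (.e (nat_lit 336434) (nat_lit 30) (.e (nat_lit 450586) (nat_lit 10) (.e (nat_lit 573475) (nat_lit 12) (.e (nat_lit 57344) (nat_lit 0) .nil)))) (.g (nat_lit 0) (.e (nat_lit 378278) (nat_lit 0) .nil) .nil))) 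
(.lf (nat_lit 581485) (.g (nat_lit 2880) (.e (nat_lit 336454) (nat_lit 34) (.e (nat_lit 483365) (nat_lit 18) (.e (nat_lit 57924) (nat_lit 282) (.e (nat_lit 163867) (nat_lit 2) (.e (nat_lit 196681) (nat_lit 17) (.e (nat_lit 131109) (nat_lit 9) .nil)))))) (.g (nat_lit 1) (.e (nat_lit 379116) (nat_lit 0) .nil) .nil))))) (.nd (nat_lit 8) (.nd (nat_lit 9) 
(.lf (nat_lit 580845) (.g (nat_lit 2899) (.e (nat_lit 336432) (nat_lit 30) (.e (nat_lit 450579) (nat_lit 5) (.e (nat_lit 532503) (nat_lit 1) (.e (nat_lit 57688) (nat_lit 156) (.e (nat_lit 163902) (nat_lit 12) (.e (nat_lit 426479) (nat_lit 27) .nil)))))) (.g (nat_lit 1) (.e (nat_lit 378052) (nat_lit 0) .nil) .nil))) 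
(.lf (nat_lit 581357) (.g (nat_lit 1407) (.e (nat_lit 336444) (nat_lit 32) (.e (nat_lit 466972) (nat_lit 21) (.e (nat_lit 164330) (nat_lit 230) (.e (nat_lit 163880) (nat_lit 4) .nil)))) (.g (nat_lit 0) (.e (nat_lit 378851) (nat_lit 0) .nil) .nil)))) (.nd (nat_lit 9) 
(.lf (nat_lit 581101) (.g (nat_lit 3177) (.e (nat_lit 336443) (nat_lit 32) (.e (nat_lit 466969) (nat_lit 21) (.e (nat_lit 164330) (nat_lit 230) (.e (nat_lit 163880) (nat_lit 4) (.e (nat_lit 213032) (nat_lit 11) (.e (nat_lit 24628) (nat_lit 9) .nil)))))) (.g (nat_lit 1) (.e (nat_lit 378579) (nat_lit 0) .nil) .nil))) 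
(.lf (nat_lit 581613) (.g (nat_lit 788) (.e (nat_lit 336456) (nat_lit 34) (.e (nat_lit 483363) (nat_lit 18) (.e (nat_lit 57851) (nat_lit 252) .nil))) (.g (nat_lit 0) (.e (nat_lit 379309) (nat_lit 0) .nil) .nil)))))))) (.nd (nat_lit 5) (.nd (nat_lit 6) (.nd (nat_lit 7) (.nd (nat_lit 8) (.nd (nat_lit 9) 
(.lf (nat_lit 580637) (.g (nat_lit 1003) (.e (nat_lit 336421) (nat_lit 28) (.e (nat_lit 434181) (nat_lit 0) (.e (nat_lit 1427) (nat_lit 108) (.e (nat_lit 336395) (nat_lit 27) .nil)))) (.g (nat_lit 0) (.e (nat_lit 377648) (nat_lit 0) .nil) .nil))) 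
(.lf (nat_lit 581149) (.g (nat_lit 3446) (.e (nat_lit 336443) (nat_lit 32) (.e (nat_lit 466969) (nat_lit 21) (.e (nat_lit 164348) (nat_lit 240) (.e (nat_lit 2619) (nat_lit 164) (.e (nat_lit 172124) (nat_lit 14) (.e (nat_lit 491548) (nat_lit 9) .nil)))))) (.g (nat_lit 1) (.e (nat_lit 378627) (nat_lit 0) .nil) .nil)))) (.nd (nat_lit 9) 
(.lf (nat_lit 580893) (.g (nat_lit 931) (.e (nat_lit 336432) (nat_lit 30) (.e (nat_lit 450588) (nat_lit 10) (.e (nat_lit 573475) (nat_lit 12) .nil))) (.g (nat_lit 0) (.e (nat_lit 378121) (nat_lit 0) .nil) .nil))) 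
(.lf (nat_lit 581405) (.g (nat_lit 2685) (.e (nat_lit 336453) (nat_lit 34) (.e (nat_lit 483365) (nat_lit 18) (.e (nat_lit 57846) (nat_lit 252) (.e (nat_lit 57372) (nat_lit 2) (.e (nat_lit 90160) (nat_lit 11) (.e (nat_lit 24636) (nat_lit 9) .nil)))))) (.g (nat_lit 1) (.e (nat_lit 378964) (nat_lit 0) .nil) .nil))))) (.nd (nat_lit 8) (.nd (nat_lit 9) 
(.lf (nat_lit 580765) (.g (nat_lit 2661) (.e (nat_lit 336430) (nat_lit 29) (.e (nat_lit 442425) (nat_lit 23) (.e (nat_lit 204831) (nat_lit 18) (.e (nat_lit 57686) (nat_lit 156) (.e (nat_lit 163902) (nat_lit 12) (.e (nat_lit 426479) (nat_lit 27) .nil)))))) (.g (nat_lit 1) (.e (nat_lit 377903) (nat_lit 0) .nil) .nil))) 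
(.lf (nat_lit 581277) (.g (nat_lit 1407) (.e (nat_lit 336443) (nat_lit 32) (.e (nat_lit 466972) (nat_lit 21) (.e (nat_lit 164330) (nat_lit 230) (.e (nat_lit 163857) (nat_lit 0) .nil)))) (.g (nat_lit 0) (.e (nat_lit 378756) (nat_lit 0) .nil) .nil)))) (.nd (nat_lit 9) 
(.lf (nat_lit 581021) (.g (nat_lit 1933) (.e (nat_lit 336442) (nat_lit 32) (.e (nat_lit 466969) (nat_lit 21) (.e (nat_lit 164332) (nat_lit 230) (.e (nat_lit 163884) (nat_lit 5) (.e (nat_lit 221192) (nat_lit 11) (.e (nat_lit 336152) (nat_lit 9) .nil)))))) (.g (nat_lit 1) (.e (nat_lit 378464) (nat_lit 0) .nil) .nil))) 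
(.lf (nat_lit 581533) (.g (nat_lit 3606) (.e (nat_lit 336454) (nat_lit 34) (.e (nat_lit 483383) (nat_lit 23) (.e (nat_lit 336324) (nat_lit 18) (.e (nat_lit 204831) (nat_lit 18) (.e (nat_lit 57852) (nat_lit 252) (.e (nat_lit 57405) (nat_lit 12) .nil)))))) (.g (nat_lit 1) (.e (nat_lit 379186) (nat_lit 0) .nil) .nil)))))) (.nd (nat_lit 7) (.nd (nat_lit 8) (.nd (nat_lit 9) 
(.lf (nat_lit 580701) (.g (nat_lit 1457) (.e (nat_lit 336429) (nat_lit 29) (.e (nat_lit 442419) (nat_lit 21) (.e (nat_lit 164331) (nat_lit 230) (.e (nat_lit 163885) (nat_lit 5) .nil)))) (.g (nat_lit 0) (.e (nat_lit 377791) (nat_lit 0) .nil) .nil))) 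
(.lf (nat_lit 581213) (.g (nat_lit 2012) (.e (nat_lit 336443) (nat_lit 32) (.e (nat_lit 466971) (nat_lit 21) (.e (nat_lit 164327) (nat_lit 230) (.e (nat_lit 163886) (nat_lit 5) (.e (nat_lit 221193) (nat_lit 11) (.e (nat_lit 336074) (nat_lit 9) .nil)))))) (.g (nat_lit 1) (.e (nat_lit 378691) (nat_lit 0) .nil) .nil)))) (.nd (nat_lit 9) 
(.lf (nat_lit 580957) (.g (nat_lit 2320) (.e (nat_lit 336434) (nat_lit 30) (.e (nat_lit 450579) (nat_lit 5) (.e (nat_lit 532504) (nat_lit 1) (.e (nat_lit 57690) (nat_lit 156) (.e (nat_lit 163905) (nat_lit 12) (.e (nat_lit 426479) (nat_lit 27) .nil)))))) (.g (nat_lit 1) (.e (nat_lit 378259) (nat_lit 0) .nil) .nil))) 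
(.lf (nat_lit 581469) (.g (nat_lit 3494) (.e (nat_lit 336454) (nat_lit 34) (.e (nat_lit 483365) (nat_lit 18) (.e (nat_lit 57849) (nat_lit 252) (.e (nat_lit 57372) (nat_lit 2) (.e (nat_lit 90160) (nat_lit 11) (.e (nat_lit 32512) (nat_lit 9) .nil)))))) (.g (nat_lit 1) (.e (nat_lit 379096) (nat_lit 0) .nil) .nil))))) (.nd (nat_lit 8) (.nd (nat_lit 9) 
(.lf (nat_lit 580829) (.g (nat_lit 1347) (.e (nat_lit 336432) (nat_lit 30) (.e (nat_lit 450565) (nat_lit 0) (.e (nat_lit 5548) (nat_lit 306) (.e (nat_lit 2639) (nat_lit 165) .nil)))) (.g (nat_lit 0) (.e (nat_lit 378029) (nat_lit 0) .nil) .nil))) 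
(.lf (nat_lit 581341) (.g (nat_lit 417) (.e (nat_lit 336444) (nat_lit 32) (.e (nat_lit 466947) (nat_lit 0) (.e (nat_lit 2056) (nat_lit 142) .nil))) (.g (nat_lit 0) (.e (nat_lit 378824) (nat_lit 0) .nil) .nil)))) (.nd (nat_lit 9) 
(.lf (nat_lit 581085) (.g (nat_lit 2098) (.e (nat_lit 336443) (nat_lit 32) (.e (nat_lit 466969) (nat_lit 21) (.e (nat_lit 164327) (nat_lit 230) (.e (nat_lit 163886) (nat_lit 5) (.e (nat_lit 221193) (nat_lit 11) (.e (nat_lit 336074) (nat_lit 9) .nil)))))) (.g (nat_lit 1) (.e (nat_lit 378563) (nat_lit 0) .nil) .nil))) 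
(.lf (nat_lit 581597) (.g (nat_lit 512) (.e (nat_lit 336455) (nat_lit 34) (.e (nat_lit 483405) (nat_lit 26) (.e (nat_lit 385064) (nat_lit 26) .nil))) (.g (nat_lit 0) (.e (nat_lit 379291) (nat_lit 0) .nil) .nil))))))) (.nd (nat_lit 6) (.nd (nat_lit 7) (.nd (nat_lit 8) (.nd (nat_lit 9) 
(.lf (nat_lit 580669) (.g (nat_lit 1375) (.e (nat_lit 336426) (nat_lit 29) (.e (nat_lit 442421) (nat_lit 21) (.e (nat_lit 164347) (nat_lit 240) (.e (nat_lit 2629) (nat_lit 164) .nil)))) (.g (nat_lit 0) (.e (nat_lit 377706) (nat_lit 0) .nil) .nil))) 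
(.lf (nat_lit 581181) (.g (nat_lit 2649) (.e (nat_lit 336443) (nat_lit 32) (.e (nat_lit 466971) (nat_lit 21) (.e (nat_lit 164325) (nat_lit 230) (.e (nat_lit 163881) (nat_lit 4) (.e (nat_lit 213032) (nat_lit 11) (.e (nat_lit 24629) (nat_lit 9) .nil)))))) (.g (nat_lit 1) (.e (nat_lit 378659) (nat_lit 0) .nil) .nil)))) (.nd (nat_lit 9) 
(.lf (nat_lit 580925) (.g (nat_lit 2979) (.e (nat_lit 336434) (nat_lit 30) (.e (nat_lit 450579) (nat_lit 5) (.e (nat_lit 532499) (nat_lit 1) (.e (nat_lit 57688) (nat_lit 156) (.e (nat_lit 163902) (nat_lit 12) (.e (nat_lit 426479) (nat_lit 27) .nil)))))) (.g (nat_lit 1) (.e (nat_lit 378213) (nat_lit 0) .nil) .nil))) 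
(.lf (nat_lit 581437) (.g (nat_lit 3233) (.e (nat_lit 336454) (nat_lit 34) (.e (nat_lit 483363) (nat_lit 18) (.e (nat_lit 57926) (nat_lit 282) (.e (nat_lit 163867) (nat_lit 2) (.e (nat_lit 196681) (nat_lit 17) (.e (nat_lit 131109) (nat_lit 9) .nil)))))) (.g (nat_lit 1) (.e (nat_lit 379056) (nat_lit 0) .nil) .nil))))) (.nd (nat_lit 8) (.nd (nat_lit 9) 
(.lf (nat_lit 580797) (.g (nat_lit 824) (.e (nat_lit 336431) (nat_lit 29) (.e (nat_lit 442427) (nat_lit 23) (.e (nat_lit 204808) (nat_lit 9) .nil))) (.g (nat_lit 0) (.e (nat_lit 377951) (nat_lit 0) .nil) .nil))) 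
(.lf (nat_lit 581309) (.g (nat_lit 2675) (.e (nat_lit 336443) (nat_lit 32) (.e (nat_lit 466972) (nat_lit 21) (.e (nat_lit 164332) (nat_lit 230) (.e (nat_lit 163885) (nat_lit 5) (.e (nat_lit 221193) (nat_lit 11) (.e (nat_lit 336074) (nat_lit 9) .nil)))))) (.g (nat_lit 1) (.e (nat_lit 378788) (nat_lit 0) .nil) .nil)))) (.nd (nat_lit 9) 
(.lf (nat_lit 581053) (.g (nat_lit 2945) (.e (nat_lit 336443) (nat_lit 32) (.e (nat_lit 466969) (nat_lit 21) (.e (nat_lit 164325) (nat_lit 230) (.e (nat_lit 163881) (nat_lit 4) (.e (nat_lit 213032) (nat_lit 11) (.e (nat_lit 24624) (nat_lit 9) .nil)))))) (.g (nat_lit 1) (.e (nat_lit 378531) (nat_lit 0) .nil) .nil))) 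
(.lf (nat_lit 581565) (.g (nat_lit 1075) (.e (nat_lit 336454) (nat_lit 34) (.e (nat_lit 483406) (nat_lit 26) (.e (nat_lit 385066) (nat_lit 26) (.e (nat_lit 532504) (nat_lit 1) .nil)))) (.g (nat_lit 0) (.e (nat_lit 379244) (nat_lit 0) .nil) .nil)))))) (.nd (nat_lit 7) (.nd (nat_lit 8) (.nd (nat_lit 9) 
(.lf (nat_lit 580733) (.g (nat_lit 2281) (.e (nat_lit 336430) (nat_lit 29) (.e (nat_lit 442419) (nat_lit 21) (.e (nat_lit 164346) (nat_lit 240) (.e (nat_lit 2639) (nat_lit 165) (.e (nat_lit 180278) (nat_lit 32) (.e (nat_lit 1425) (nat_lit 108) .nil)))))) (.g (nat_lit 1) (.e (nat_lit 377864) (nat_lit 0) .nil) .nil))) 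
(.lf (nat_lit 581245) (.g (nat_lit 3073) (.e (nat_lit 336443) (nat_lit 32) (.e (nat_lit 466971) (nat_lit 21) (.e (nat_lit 164332) (nat_lit 230) (.e (nat_lit 163885) (nat_lit 5) (.e (nat_lit 221193) (nat_lit 11) (.e (nat_lit 336084) (nat_lit 9) .nil)))))) (.g (nat_lit 1) (.e (nat_lit 378723) (nat_lit 0) .nil) .nil)))) (.nd (nat_lit 9) 
(.lf (nat_lit 580989) (.g (nat_lit 1731) (.e (nat_lit 336438) (nat_lit 31) (.e (nat_lit 458769) (nat_lit 16) (.e (nat_lit 164294) (nat_lit 224) (.e (nat_lit 164112) (nat_lit 118) (.e (nat_lit 794637) (nat_lit 11) (.e (nat_lit 336078) (nat_lit 9) .nil)))))) (.g (nat_lit 1) (.e (nat_lit 378419) (nat_lit 0) .nil) .nil))) 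
(.lf (nat_lit 581501) (.g (nat_lit 1290) (.e (nat_lit 336454) (nat_lit 34) (.e (nat_lit 483378) (nat_lit 23) (.e (nat_lit 336028) (nat_lit 3) (.e (nat_lit 98335) (nat_lit 18) .nil)))) (.g (nat_lit 0) (.e (nat_lit 379134) (nat_lit 0) .nil) .nil))))) (.nd (nat_lit 8) (.nd (nat_lit 9) 
(.lf (nat_lit 580861) (.g (nat_lit 2249) (.e (nat_lit 336432) (nat_lit 30) (.e (nat_lit 450580) (nat_lit 5) (.e (nat_lit 532501) (nat_lit 1) (.e (nat_lit 57685) (nat_lit 156) (.e (nat_lit 163902) (nat_lit 12) (.e (nat_lit 426479) (nat_lit 27) .nil)))))) (.g (nat_lit 1) (.e (nat_lit 378079) (nat_lit 0) .nil) .nil))) 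
(.lf (nat_lit 581373) (.g (nat_lit 632) (.e (nat_lit 336452) (nat_lit 34) (.e (nat_lit 483364) (nat_lit 18) (.e (nat_lit 57926) (nat_lit 282) .nil))) (.g (nat_lit 0) (.e (nat_lit 378904) (nat_lit 0) .nil) .nil)))) (.nd (nat_lit 9) 
(.lf (nat_lit 581117) (.g (nat_lit 3597) (.e (nat_lit 336443) (nat_lit 32) (.e (nat_lit 466969) (nat_lit 21) (.e (nat_lit 164331) (nat_lit 230) (.e (nat_lit 163885) (nat_lit 5) (.e (nat_lit 221194) (nat_lit 11) (.e (nat_lit 336074) (nat_lit 9) .nil)))))) (.g (nat_lit 1) (.e (nat_lit 378595) (nat_lit 0) .nil) .nil))) 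
(.lf (nat_lit 581629) (.g (nat_lit 2462) (.e (nat_lit 336456) (nat_lit 34) (.e (nat_lit 483364) (nat_lit 18) (.e (nat_lit 57852) (nat_lit 252) (.e (nat_lit 57373) (nat_lit 2) (.e (nat_lit 90160) (nat_lit 11) (.e (nat_lit 24624) (nat_lit 9) .nil)))))) (.g (nat_lit 1) (.e (nat_lit 379326) (nat_lit 0) .nil) .nil))))))))))) 
(.nd (nat_lit 2) (.nd (nat_lit 3) (.nd (nat_lit 4) (.nd (nat_lit 5) (.nd (nat_lit 6) 
(.nd (nat_lit 7) (.nd (nat_lit 8) (.nd (nat_lit 9) 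
(.lf (nat_lit 580611) (.g (nat_lit 2137) (.e (nat_lit 336414) (nat_lit 27) (.e (nat_lit 426232) (nat_lit 9) (.e (nat_lit 426435) (nat_lit 18) (.e (nat_lit 98334) (nat_lit 18) (.e (nat_lit 164332) (nat_lit 230) (.e (nat_lit 163902) (nat_lit 12) (.e (nat_lit 426479) (nat_lit 27) .nil))))))) (.g (nat_lit 1) (.e (nat_lit 377603) (nat_lit 0) .nil) .nil))) 
(.lf (nat_lit 581123) (.g (nat_lit 2484) (.e (nat_lit 336443) (nat_lit 32) (.e (nat_lit 466969) (nat_lit 21) (.e (nat_lit 164332) (nat_lit 230) (.e (nat_lit 163880) (nat_lit 4) (.e (nat_lit 213030) (nat_lit 11) (.e (nat_lit 24624) (nat_lit 9) .nil)))))) (.g (nat_lit 1) (.e (nat_lit 378601) (nat_lit 0) .nil) .nil)))) (.nd (nat_lit 9) 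
(.lf (nat_lit 580867) (.g (nat_lit 3306) (.e (nat_lit 336432) (nat_lit 30) (.e (nat_lit 450580) (nat_lit 5) (.e (nat_lit 532503) (nat_lit 1) (.e (nat_lit 57688) (nat_lit 156) (.e (nat_lit 163903) (nat_lit 12) (.e (nat_lit 426479) (nat_lit 27) .nil)))))) (.g (nat_lit 1) (.e (nat_lit 378087) (nat_lit 0) .nil) .nil))) 
(.lf (nat_lit 581379) (.g (nat_lit 3228) (.e (nat_lit 336452) (nat_lit 34) (.e (nat_lit 483383) (nat_lit 23) (.e (nat_lit 336324) (nat_lit 18) (.e (nat_lit 204831) (nat_lit 18) (.e (nat_lit 57849) (nat_lit 252) .nil))))) (.g (nat_lit 0) (.e (nat_lit 378929) (nat_lit 0) .nil) .nil))))) (.nd (nat_lit 8) (.nd (nat_lit 9) 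
(.lf (nat_lit 580739) (.g (nat_lit 2179) (.e (nat_lit 336430) (nat_lit 29) (.e (nat_lit 442421) (nat_lit 21) (.e (nat_lit 164322) (nat_lit 230) (.e (nat_lit 163878) (nat_lit 4) (.e (nat_lit 213030) (nat_lit 11) (.e (nat_lit 24629) (nat_lit 9) .nil)))))) (.g (nat_lit 1) (.e (nat_lit 377874) (nat_lit 0) .nil) .nil))) 
(.lf (nat_lit 581251) (.g (nat_lit 2319) (.e (nat_lit 336443) (nat_lit 32) (.e (nat_lit 466971) (nat_lit 21) (.e (nat_lit 164345) (nat_lit 240) (.e (nat_lit 2638) (nat_lit 165) (.e (nat_lit 180278) (nat_lit 32) (.e (nat_lit 1413) (nat_lit 108) .nil)))))) (.g (nat_lit 1) (.e (nat_lit 378730) (nat_lit 0) .nil) .nil)))) (.nd (nat_lit 9) 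
(.lf (nat_lit 580995) (.g (nat_lit 1740) (.e (nat_lit 336440) (nat_lit 32) (.e (nat_lit 466969) (nat_lit 21) (.e (nat_lit 164324) (nat_lit 230) (.e (nat_lit 163886) (nat_lit 5) (.e (nat_lit 221192) (nat_lit 11) .nil))))) (.g (nat_lit 0) (.e (nat_lit 378427) (nat_lit 0) .nil) .nil))) 
(.lf (nat_lit 581507) (.g (nat_lit 978) (.e (nat_lit 336454) (nat_lit 34) (.e (nat_lit 483380) (nat_lit 23) (.e (nat_lit 336257) (nat_lit 15) .nil))) (.g (nat_lit 0) (.e (nat_lit 379140) (nat_lit 0) .nil) .nil)))))) (.nd (nat_lit 7) (.nd (nat_lit 8) (.nd (nat_lit 9) 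
(.lf (nat_lit 580675) (.g (nat_lit 1466) (.e (nat_lit 336426) (nat_lit 29) (.e (nat_lit 442430) (nat_lit 24) (.e (nat_lit 229663) (nat_lit 240) (.e (nat_lit 2641) (nat_lit 165) (.e (nat_lit 180278) (nat_lit 32) (.e (nat_lit 1425) (nat_lit 108) .nil)))))) (.g (nat_lit 1) (.e (nat_lit 377712) (nat_lit 0) .nil) .nil))) 
(.lf (nat_lit 581187) (.g (nat_lit 2503) (.e (nat_lit 336443) (nat_lit 32) (.e (nat_lit 466971) (nat_lit 21) (.e (nat_lit 164325) (nat_lit 230) (.e (nat_lit 163884) (nat_lit 5) (.e (nat_lit 221193) (nat_lit 11) (.e (nat_lit 336077) (nat_lit 9) .nil)))))) (.g (nat_lit 1) (.e (nat_lit 378665) (nat_lit 0) .nil) .nil)))) (.nd (nat_lit 9) 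
(.lf (nat_lit 580931) (.g (nat_lit 1209) (.e (nat_lit 336434) (nat_lit 30) (.e (nat_lit 450579) (nat_lit 5) (.e (nat_lit 532501) (nat_lit 1) (.e (nat_lit 57665) (nat_lit 152) .nil)))) (.g (nat_lit 0) (.e (nat_lit 378221) (nat_lit 0) .nil) .nil))) 
(.lf (nat_lit 581443) (.g (nat_lit 4151) (.e (nat_lit 336454) (nat_lit 34) (.e (nat_lit 483363) (nat_lit 18) (.e (nat_lit 57931) (nat_lit 282) (.e (nat_lit 163874) (nat_lit 3) (.e (nat_lit 204861) (nat_lit 26) (.e (nat_lit 336076) (nat_lit 9) .nil)))))) (.g (nat_lit 1) (.e (nat_lit 379063) (nat_lit 0) .nil) .nil))))) (.nd (nat_lit 8) (.nd (nat_lit 9) 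
(.lf (nat_lit 580803) (.g (nat_lit 1611) (.e (nat_lit 336431) (nat_lit 29) (.e (nat_lit 442430) (nat_lit 24) (.e (nat_lit 229665) (nat_lit 240) (.e (nat_lit 2641) (nat_lit 165) (.e (nat_lit 180278) (nat_lit 32) .nil))))) (.g (nat_lit 0) (.e (nat_lit 377959) (nat_lit 0) .nil) .nil))) 
(.lf (nat_lit 581315) (.g (nat_lit 2945) (.e (nat_lit 336443) (nat_lit 32) (.e (nat_lit 466972) (nat_lit 21) (.e (nat_lit 164345) (nat_lit 240) (.e (nat_lit 2638) (nat_lit 165) (.e (nat_lit 180278) (nat_lit 32) (.e (nat_lit 1426) (nat_lit 108) .nil)))))) (.g (nat_lit 1) (.e (nat_lit 378794) (nat_lit 0) .nil) .nil)))) (.nd (nat_lit 9) 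
(.lf (nat_lit 581059) (.g (nat_lit 2730) (.e (nat_lit 336443) (nat_lit 32) (.e (nat_lit 466969) (nat_lit 21) (.e (nat_lit 164325) (nat_lit 230) (.e (nat_lit 163884) (nat_lit 5) (.e (nat_lit 221193) (nat_lit 11) (.e (nat_lit 336084) (nat_lit 9) .nil)))))) (.g (nat_lit 1) (.e (nat_lit 378537) (nat_lit 0) .nil) .nil))) 
(.lf (nat_lit 581571) (.g (nat_lit 1280) (.e (nat_lit 336455) (nat_lit 34) (.e (nat_lit 483364) (nat_lit 18) (.e (nat_lit 57852) (nat_lit 252) (.e (nat_lit 57373) (nat_lit 2) .nil)))) (.g (nat_lit 0) (.e (nat_lit 379252) (nat_lit 0) .nil) .nil))))))) (.nd (nat_lit 6) (.nd (nat_lit 7) (.nd (nat_lit 8) (.nd (nat_lit 9) 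
(.lf (nat_lit 580643) (.g (nat_lit 1039) (.e (nat_lit 336421) (nat_lit 28) (.e (nat_lit 434212) (nat_lit 18) (.e (nat_lit 5222) (nat_lit 296) (.e (nat_lit 163871) (nat_lit 2) (.e (nat_lit 196656) (nat_lit 11) .nil))))) (.g (nat_lit 0) (.e (nat_lit 377654) (nat_lit 0) .nil) .nil))) 
(.lf (nat_lit 581155) (.g (nat_lit 2617) (.e (nat_lit 336443) (nat_lit 32) (.e (nat_lit 466969) (nat_lit 21) (.e (nat_lit 164348) (nat_lit 240) (.e (nat_lit 2638) (nat_lit 165) (.e (nat_lit 180278) (nat_lit 32) (.e (nat_lit 1413) (nat_lit 108) .nil)))))) (.g (nat_lit 1) (.e (nat_lit 378633) (nat_lit 0) .nil) .nil)))) (.nd (nat_lit 9) 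
(.lf (nat_lit 580899) (.g (nat_lit 2377) (.e (nat_lit 336432) (nat_lit 30) (.e (nat_lit 450588) (nat_lit 10) (.e (nat_lit 573475) (nat_lit 12) (.e (nat_lit 57507) (nat_lit 39) .nil)))) (.g (nat_lit 0) (.e (nat_lit 378129) (nat_lit 0) .nil) .nil))) 
(.lf (nat_lit 581411) (.g (nat_lit 2610) (.e (nat_lit 336453) (nat_lit 34) (.e (nat_lit 483365) (nat_lit 18) (.e (nat_lit 57851) (nat_lit 252) (.e (nat_lit 57371) (nat_lit 2) (.e (nat_lit 90160) (nat_lit 11) (.e (nat_lit 24636) (nat_lit 9) .nil)))))) (.g (nat_lit 1) (.e (nat_lit 378970) (nat_lit 0) .nil) .nil))))) (.nd (nat_lit 8) (.nd (nat_lit 9) 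
(.lf (nat_lit 580771) (.g (nat_lit 3260) (.e (nat_lit 336430) (nat_lit 29) (.e (nat_lit 442427) (nat_lit 23) (.e (nat_lit 204829) (nat_lit 18) (.e (nat_lit 57691) (nat_lit 156) (.e (nat_lit 163907) (nat_lit 12) (.e (nat_lit 426479) (nat_lit 27) .nil)))))) (.g (nat_lit 1) (.e (nat_lit 377909) (nat_lit 0) .nil) .nil))) 
(.lf (nat_lit 581283) (.g (nat_lit 3342) (.e (nat_lit 336443) (nat_lit 32) (.e (nat_lit 466972) (nat_lit 21) (.e (nat_lit 164330) (nat_lit 230) (.e (nat_lit 163880) (nat_lit 4) (.e (nat_lit 213032) (nat_lit 11) (.e (nat_lit 24628) (nat_lit 9) .nil)))))) (.g (nat_lit 1) (.e (nat_lit 378762) (nat_lit 0) .nil) .nil)))) (.nd (nat_lit 9) 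
(.lf (nat_lit 581027) (.g (nat_lit 1090) (.e (nat_lit 336442) (nat_lit 32) (.e (nat_lit 466971) (nat_lit 21) (.e (nat_lit 164322) (nat_lit 230) (.e (nat_lit 163885) (nat_lit 5) .nil)))) (.g (nat_lit 0) (.e (nat_lit 378479) (nat_lit 0) .nil) .nil))) 
(.lf (nat_lit 581539) (.g (nat_lit 1545) (.e (nat_lit 336454) (nat_lit 34) (.e (nat_lit 483385) (nat_lit 23) (.e (nat_lit 335967) (nat_lit 0) (.e (nat_lit 1800) (nat_lit 119) (.e (nat_lit 516119) (nat_lit 1) .nil))))) (.g (nat_lit 0) (.e (nat_lit 379202) (nat_lit 0) .nil) .nil)))))) (.nd (nat_lit 7) (.nd (nat_lit 8) (.nd (nat_lit 9) 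
(.lf (nat_lit 580707) (.g (nat_lit 1342) (.e (nat_lit 336429) (nat_lit 29) (.e (nat_lit 442419) (nat_lit 21) (.e (nat_lit 164347) (nat_lit 240) (.e (nat_lit 2640) (nat_lit 165) (.e (nat_lit 180276) (nat_lit 32) .nil))))) (.g (nat_lit 0) (.e (nat_lit 377799) (nat_lit 0) .nil) .nil))) 
(.lf (nat_lit 581219) (.g (nat_lit 1629) (.e (nat_lit 336443) (nat_lit 32) (.e (nat_lit 466971) (nat_lit 21) (.e (nat_lit 164331) (nat_lit 230) (.e (nat_lit 163878) (nat_lit 4) (.e (nat_lit 213030) (nat_lit 11) .nil))))) (.g (nat_lit 0) (.e (nat_lit 378697) (nat_lit 0) .nil) .nil)))) (.nd (nat_lit 9) 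
(.lf (nat_lit 580963) (.g (nat_lit 344) (.e (nat_lit 336434) (nat_lit 30) (.e (nat_lit 450579) (nat_lit 5) (.e (nat_lit 532575) (nat_lit 17) .nil))) (.g (nat_lit 0) (.e (nat_lit 378267) (nat_lit 0) .nil) .nil))) 
(.lf (nat_lit 581475) (.g (nat_lit 3300) (.e (nat_lit 336454) (nat_lit 34) (.e (nat_lit 483365) (nat_lit 18) (.e (nat_lit 57852) (nat_lit 252) (.e (nat_lit 57371) (nat_lit 2) (.e (nat_lit 90160) (nat_lit 11) (.e (nat_lit 24624) (nat_lit 9) .nil)))))) (.g (nat_lit 1) (.e (nat_lit 379102) (nat_lit 0) .nil) .nil))))) (.nd (nat_lit 8) (.nd (nat_lit 9) 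
(.lf (nat_lit 580835) (.g (nat_lit 3232) (.e (nat_lit 336432) (nat_lit 30) (.e (nat_lit 450565) (nat_lit 0) (.e (nat_lit 5548) (nat_lit 306) (.e (nat_lit 2640) (nat_lit 165) (.e (nat_lit 180278) (nat_lit 32) (.e (nat_lit 1427) (nat_lit 108) .nil)))))) (.g (nat_lit 1) (.e (nat_lit 378035) (nat_lit 0) .nil) .nil))) 
(.lf (nat_lit 581347) (.g (nat_lit 1373) (.e (nat_lit 336444) (nat_lit 32) (.e (nat_lit 466971) (nat_lit 21) (.e (nat_lit 164325) (nat_lit 230) (.e (nat_lit 163882) (nat_lit 4) (.e (nat_lit 213030) (nat_lit 11) (.e (nat_lit 24629) (nat_lit 9) .nil)))))) (.g (nat_lit 1) (.e (nat_lit 378838) (nat_lit 0) .nil) .nil)))) (.nd (nat_lit 9) 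
(.lf (nat_lit 581091) (.g (nat_lit 2254) (.e (nat_lit 336443) (nat_lit 32) (.e (nat_lit 466969) (nat_lit 21) (.e (nat_lit 164329) (nat_lit 230) (.e (nat_lit 163850) (nat_lit 0) (.e (nat_lit 3655) (nat_lit 227) (.e (nat_lit 778462) (nat_lit 11) (.e (nat_lit 24628) (nat_lit 9) .nil))))))) (.g (nat_lit 1) (.e (nat_lit 378569) (nat_lit 0) .nil) .nil))) 
(.lf (nat_lit 581603) (.g (nat_lit 1874) (.e (nat_lit 336456) (nat_lit 34) (.e (nat_lit 483362) (nat_lit 18) (.e (nat_lit 57847) (nat_lit 252) (.e (nat_lit 57370) (nat_lit 2) (.e (nat_lit 90158) (nat_lit 11) .nil))))) (.g (nat_lit 0) (.e (nat_lit 379299) (nat_lit 0) .nil) .nil)))))))) (.nd (nat_lit 5) (.nd (nat_lit 6) (.nd (nat_lit 7) (.nd (nat_lit 8) (.nd (nat_lit 9) 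
(.lf (nat_lit 580627) (.g (nat_lit 2504) (.e (nat_lit 343808) (nat_lit 27) (.e (nat_lit 426211) (nat_lit 9) (.e (nat_lit 426125) (nat_lit 2) (.e (nat_lit 196697) (nat_lit 19) .nil)))) (.g (nat_lit 0) (.e (nat_lit 377624) (nat_lit 0) .nil) .nil))) 
(.lf (nat_lit 581139) (.g (nat_lit 2388) (.e (nat_lit 336443) (nat_lit 32) (.e (nat_lit 466969) (nat_lit 21) (.e (nat_lit 164345) (nat_lit 240) (.e (nat_lit 2638) (nat_lit 165) (.e (nat_lit 180277) (nat_lit 32) (.e (nat_lit 1425) (nat_lit 108) .nil)))))) (.g (nat_lit 1) (.e (nat_lit 378617) (nat_lit 0) .nil) .nil)))) (.nd (nat_lit 9) 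
(.lf (nat_lit 580883) (.g (nat_lit 1955) (.e (nat_lit 336432) (nat_lit 30) (.e (nat_lit 450586) (nat_lit 10) (.e (nat_lit 573475) (nat_lit 12) (.e (nat_lit 57515) (nat_lit 42) (.e (nat_lit 671782) (nat_lit 12) .nil))))) (.g (nat_lit 0) (.e (nat_lit 378109) (nat_lit 0) .nil) .nil))) 
(.lf (nat_lit 581395) (.g (nat_lit 2653) (.e (nat_lit 336453) (nat_lit 34) (.e (nat_lit 483363) (nat_lit 18) (.e (nat_lit 57847) (nat_lit 252) (.e (nat_lit 57372) (nat_lit 2) (.e (nat_lit 90160) (nat_lit 11) (.e (nat_lit 24636) (nat_lit 9) .nil)))))) (.g (nat_lit 1) (.e (nat_lit 378954) (nat_lit 0) .nil) .nil))))) (.nd (nat_lit 8) (.nd (nat_lit 9) 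
(.lf (nat_lit 580755) (.g (nat_lit 2751) (.e (nat_lit 336430) (nat_lit 29) (.e (nat_lit 442421) (nat_lit 21) (.e (nat_lit 164348) (nat_lit 240) (.e (nat_lit 2638) (nat_lit 165) (.e (nat_lit 180277) (nat_lit 32) (.e (nat_lit 1425) (nat_lit 108) .nil)))))) (.g (nat_lit 1) (.e (nat_lit 377893) (nat_lit 0) .nil) .nil))) 
(.lf (nat_lit 581267) (.g (nat_lit 488) (.e (nat_lit 336443) (nat_lit 32) (.e (nat_lit 466972) (nat_lit 21) (.e (nat_lit 164305) (nat_lit 226) .nil))) (.g (nat_lit 0) (.e (nat_lit 378746) (nat_lit 0) .nil) .nil)))) (.nd (nat_lit 9) 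
(.lf (nat_lit 581011) (.g (nat_lit 561) (.e (nat_lit 336441) (nat_lit 32) (.e (nat_lit 466971) (nat_lit 21) (.e (nat_lit 164322) (nat_lit 230) .nil))) (.g (nat_lit 0) (.e (nat_lit 378453) (nat_lit 0) .nil) .nil))) 
(.lf (nat_lit 581523) (.g (nat_lit 858) (.e (nat_lit 336454) (nat_lit 34) (.e (nat_lit 483383) (nat_lit 23) (.e (nat_lit 336261) (nat_lit 15) .nil))) (.g (nat_lit 0) (.e (nat_lit 379174) (nat_lit 0) .nil) .nil)))))) (.nd (nat_lit 7) (.nd (nat_lit 8) (.nd (nat_lit 9) 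
(.lf (nat_lit 580691) (.g (nat_lit 862) (.e (nat_lit 336428) (nat_lit 29) (.e (nat_lit 442374) (nat_lit 0) (.e (nat_lit 1800) (nat_lit 119) (.e (nat_lit 516115) (nat_lit 1) .nil)))) (.g (nat_lit 0) (.e (nat_lit 377738) (nat_lit 0) .nil) .nil))) 
(.lf (nat_lit 581203) (.g (nat_lit 2948) (.e (nat_lit 336443) (nat_lit 32) (.e (nat_lit 466971) (nat_lit 21) (.e (nat_lit 164327) (nat_lit 230) (.e (nat_lit 163881) (nat_lit 4) (.e (nat_lit 213032) (nat_lit 11) (.e (nat_lit 24628) (nat_lit 9) .nil)))))) (.g (nat_lit 1) (.e (nat_lit 378681) (nat_lit 0) .nil) .nil)))) (.nd (nat_lit 9) 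
(.lf (nat_lit 580947) (.g (nat_lit 2773) (.e (nat_lit 336434) (nat_lit 30) (.e (nat_lit 450579) (nat_lit 5) (.e (nat_lit 532503) (nat_lit 1) (.e (nat_lit 57686) (nat_lit 156) (.e (nat_lit 163903) (nat_lit 12) (.e (nat_lit 426479) (nat_lit 27) .nil)))))) (.g (nat_lit 1) (.e (nat_lit 378242) (nat_lit 0) .nil) .nil))) 
(.lf (nat_lit 581459) (.g (nat_lit 3049) (.e (nat_lit 336454) (nat_lit 34) (.e (nat_lit 483365) (nat_lit 18) (.e (nat_lit 57846) (nat_lit 252) (.e (nat_lit 57375) (nat_lit 2) (.e (nat_lit 90159) (nat_lit 11) (.e (nat_lit 24627) (nat_lit 9) .nil)))))) (.g (nat_lit 1) (.e (nat_lit 379083) (nat_lit 0) .nil) .nil))))) (.nd (nat_lit 8) (.nd (nat_lit 9) 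
(.lf (nat_lit 580819) (.g (nat_lit 326) (.e (nat_lit 336432) (nat_lit 30) (.e (nat_lit 450565) (nat_lit 0) (.e (nat_lit 5546) (nat_lit 306) .nil))) (.g (nat_lit 0) (.e (nat_lit 378014) (nat_lit 0) .nil) .nil))) 
(.lf (nat_lit 581331) (.g (nat_lit 3348) (.e (nat_lit 336443) (nat_lit 32) (.e (nat_lit 466981) (nat_lit 23) (.e (nat_lit 204829) (nat_lit 18) (.e (nat_lit 57688) (nat_lit 156) (.e (nat_lit 163907) (nat_lit 12) (.e (nat_lit 426478) (nat_lit 27) .nil)))))) (.g (nat_lit 1) (.e (nat_lit 378812) (nat_lit 0) .nil) .nil)))) (.nd (nat_lit 9) 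
(.lf (nat_lit 581075) (.g (nat_lit 2873) (.e (nat_lit 336443) (nat_lit 32) (.e (nat_lit 466969) (nat_lit 21) (.e (nat_lit 164327) (nat_lit 230) (.e (nat_lit 163881) (nat_lit 4) (.e (nat_lit 213032) (nat_lit 11) (.e (nat_lit 24624) (nat_lit 9) .nil)))))) (.g (nat_lit 1) (.e (nat_lit 378553) (nat_lit 0) .nil) .nil))) 
(.lf (nat_lit 581587) (.g (nat_lit 2327) (.e (nat_lit 336455) (nat_lit 34) (.e (nat_lit 483383) (nat_lit 23) (.e (nat_lit 336019) (nat_lit 3) (.e (nat_lit 98335) (nat_lit 18) .nil)))) (.g (nat_lit 0) (.e (nat_lit 379274) (nat_lit 0) .nil) .nil))))))) (.nd (nat_lit 6) (.nd (nat_lit 7) (.nd (nat_lit 8) (.nd (nat_lit 9) 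
(.lf (nat_lit 580659) (.g (nat_lit 1709) (.e (nat_lit 336426) (nat_lit 29) (.e (nat_lit 442421) (nat_lit 21) (.e (nat_lit 164326) (nat_lit 230) (.e (nat_lit 163877) (nat_lit 4) .nil)))) (.g (nat_lit 0) (.e (nat_lit 377694) (nat_lit 0) .nil) .nil))) 
(.lf (nat_lit 581171) (.g (nat_lit 392) (.e (nat_lit 336443) (nat_lit 32) (.e (nat_lit 466971) (nat_lit 21) (.e (nat_lit 164324) (nat_lit 230) .nil))) (.g (nat_lit 0) (.e (nat_lit 378649) (nat_lit 0) .nil) .nil)))) (.nd (nat_lit 9) 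
(.lf (nat_lit 580915) (.g (nat_lit 3429) (.e (nat_lit 336434) (nat_lit 30) (.e (nat_lit 450564) (nat_lit 0) (.e (nat_lit 5548) (nat_lit 306) (.e (nat_lit 2619) (nat_lit 164) (.e (nat_lit 172124) (nat_lit 14) (.e (nat_lit 491550) (nat_lit 9) .nil)))))) (.g (nat_lit 1) (.e (nat_lit 378200) (nat_lit 0) .nil) .nil))) 
(.lf (nat_lit 581427) (.g (nat_lit 1577) (.e (nat_lit 336453) (nat_lit 34) (.e (nat_lit 483408) (nat_lit 26) (.e (nat_lit 385067) (nat_lit 26) (.e (nat_lit 532501) (nat_lit 1) (.e (nat_lit 57830) (nat_lit 250) .nil))))) (.g (nat_lit 0) (.e (nat_lit 379034) (nat_lit 0) .nil) .nil))))) (.nd (nat_lit 8) (.nd (nat_lit 9) 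
(.lf (nat_lit 580787) (.g (nat_lit 2632) (.e (nat_lit 336430) (nat_lit 29) (.e (nat_lit 442430) (nat_lit 24) (.e (nat_lit 229663) (nat_lit 240) (.e (nat_lit 2643) (nat_lit 165) (.e (nat_lit 180277) (nat_lit 32) (.e (nat_lit 1425) (nat_lit 108) .nil)))))) (.g (nat_lit 1) (.e (nat_lit 377933) (nat_lit 0) .nil) .nil))) 
(.lf (nat_lit 581299) (.g (nat_lit 3623) (.e (nat_lit 336443) (nat_lit 32) (.e (nat_lit 466972) (nat_lit 21) (.e (nat_lit 164332) (nat_lit 230) (.e (nat_lit 163878) (nat_lit 4) (.e (nat_lit 213030) (nat_lit 11) (.e (nat_lit 24626) (nat_lit 9) .nil)))))) (.g (nat_lit 1) (.e (nat_lit 378778) (nat_lit 0) .nil) .nil)))) (.nd (nat_lit 9) 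
(.lf (nat_lit 581043) (.g (nat_lit 1010) (.e (nat_lit 336443) (nat_lit 32) (.e (nat_lit 466969) (nat_lit 21) (.e (nat_lit 164324) (nat_lit 230) (.e (nat_lit 163882) (nat_lit 4) .nil)))) (.g (nat_lit 0) (.e (nat_lit 378521) (nat_lit 0) .nil) .nil))) 
(.lf (nat_lit 581555) (.g (nat_lit 2302) (.e (nat_lit 336454) (nat_lit 34) (.e (nat_lit 483398) (nat_lit 25) (.e (nat_lit 368676) (nat_lit 21) (.e (nat_lit 516119) (nat_lit 1) (.e (nat_lit 164184) (nat_lit 155) (.e (nat_lit 122904) (nat_lit 12) .nil)))))) (.g (nat_lit 1) (.e (nat_lit 379222) (nat_lit 0) .nil) .nil)))))) (.nd (nat_lit 7) (.nd (nat_lit 8) (.nd (nat_lit 9) 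
(.lf (nat_lit 580723) (.g (nat_lit 1115) (.e (nat_lit 336430) (nat_lit 29) (.e (nat_lit 442406) (nat_lit 20) (.e (nat_lit 3238) (nat_lit 197) (.e (nat_lit 532502) (nat_lit 1) (.e (nat_lit 57692) (nat_lit 156) .nil))))) (.g (nat_lit 0) (.e (nat_lit 377848) (nat_lit 0) .nil) .nil))) 
(.lf (nat_lit 581235) (.g (nat_lit 3272) (.e (nat_lit 336443) (nat_lit 32) (.e (nat_lit 466971) (nat_lit 21) (.e (nat_lit 164332) (nat_lit 230) (.e (nat_lit 163880) (nat_lit 4) (.e (nat_lit 213032) (nat_lit 11) (.e (nat_lit 24627) (nat_lit 9) .nil)))))) (.g (nat_lit 1) (.e (nat_lit 378713) (nat_lit 0) .nil) .nil)))) (.nd (nat_lit 9) 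
(.lf (nat_lit 580979) (.g (nat_lit 3352) (.e (nat_lit 336434) (nat_lit 30) (.e (nat_lit 450593) (nat_lit 16) (.e (nat_lit 655378) (nat_lit 4) (.e (nat_lit 172124) (nat_lit 14) (.e (nat_lit 491549) (nat_lit 9) .nil))))) (.g (nat_lit 1) (.e (nat_lit 378286) (nat_lit 0) .nil) .nil))) 
(.lf (nat_lit 581491) (.g (nat_lit 3094) (.e (nat_lit 336454) (nat_lit 34) (.e (nat_lit 483365) (nat_lit 18) (.e (nat_lit 57929) (nat_lit 282) (.e (nat_lit 163869) (nat_lit 2) (.e (nat_lit 196681) (nat_lit 17) (.e (nat_lit 131109) (nat_lit 9) .nil)))))) (.g (nat_lit 1) (.e (nat_lit 379124) (nat_lit 0) .nil) .nil))))) (.nd (nat_lit 8) (.nd (nat_lit 9) 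
(.lf (nat_lit 580851) (.g (nat_lit 1849) (.e (nat_lit 336432) (nat_lit 30) (.e (nat_lit 450579) (nat_lit 5) (.e (nat_lit 532504) (nat_lit 1) (.e (nat_lit 57692) (nat_lit 156) .nil)))) (.g (nat_lit 0) (.e (nat_lit 378060) (nat_lit 0) .nil) .nil))) 
(.lf (nat_lit 581363) (.g (nat_lit 1909) (.e (nat_lit 336450) (nat_lit 33) (.e (nat_lit 475152) (nat_lit 17) (.e (nat_lit 57816) (nat_lit 246) (.e (nat_lit 57596) (nat_lit 82) (.e (nat_lit 499900) (nat_lit 7) (.e (nat_lit 24630) (nat_lit 9) .nil)))))) (.g (nat_lit 1) (.e (nat_lit 378866) (nat_lit 0) .nil) .nil)))) (.nd (nat_lit 9) 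
(.lf (nat_lit 581107) (.g (nat_lit 2515) (.e (nat_lit 336443) (nat_lit 32) (.e (nat_lit 466969) (nat_lit 21) (.e (nat_lit 164330) (nat_lit 230) (.e (nat_lit 163885) (nat_lit 5) (.e (nat_lit 221193) (nat_lit 11) (.e (nat_lit 336077) (nat_lit 9) .nil)))))) (.g (nat_lit 1) (.e (nat_lit 378585) (nat_lit 0) .nil) .nil))) 
(.lf (nat_lit 581619) (.g (nat_lit 1955) (.e (nat_lit 336456) (nat_lit 34) (.e (nat_lit 483363) (nat_lit 18) (.e (nat_lit 57931) (nat_lit 282) (.e (nat_lit 163867) (nat_lit 2) (.e (nat_lit 196681) (nat_lit 17) .nil))))) (.g (nat_lit 0) (.e (nat_lit 379316) (nat_lit 0) .nil) .nil))))))))) (.nd (nat_lit 4) (.nd (nat_lit 5) (.nd (nat_lit 6) (.nd (nat_lit 7) (.nd (nat_lit 8) (.nd (nat_lit 9) 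
(.lf (nat_lit 580619) (.g (nat_lit 3381) (.e (nat_lit 336414) (nat_lit 27) (.e (nat_lit 426503) (nat_lit 27) (.e (nat_lit 335986) (nat_lit 1) (.e (nat_lit 57847) (nat_lit 252) (.e (nat_lit 57370) (nat_lit 2) (.e (nat_lit 90158) (nat_lit 11) (.e (nat_lit 24628) (nat_lit 9) .nil))))))) (.g (nat_lit 1) (.e (nat_lit 377612) (nat_lit 0) .nil) .nil))) 
(.lf (nat_lit 581131) (.g (nat_lit 3172) (.e (nat_lit 336443) (nat_lit 32) (.e (nat_lit 466969) (nat_lit 21) (.e (nat_lit 164332) (nat_lit 230) (.e (nat_lit 163884) (nat_lit 5) (.e (nat_lit 221194) (nat_lit 11) (.e (nat_lit 336077) (nat_lit 9) .nil)))))) (.g (nat_lit 1) (.e (nat_lit 378609) (nat_lit 0) .nil) .nil)))) (.nd (nat_lit 9) 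
(.lf (nat_lit 580875) (.g (nat_lit 531) (.e (nat_lit 336432) (nat_lit 30) (.e (nat_lit 450580) (nat_lit 5) (.e (nat_lit 532583) (nat_lit 26) .nil))) (.g (nat_lit 0) (.e (nat_lit 378098) (nat_lit 0) .nil) .nil))) 
(.lf (nat_lit 581387) (.g (nat_lit 1802) (.e (nat_lit 336452) (nat_lit 34) (.e (nat_lit 483405) (nat_lit 26) (.e (nat_lit 385068) (nat_lit 26) (.e (nat_lit 532504) (nat_lit 1) (.e (nat_lit 57854) (nat_lit 252) .nil))))) (.g (nat_lit 0) (.e (nat_lit 378941) (nat_lit 0) .nil) .nil))))) (.nd (nat_lit 8) (.nd (nat_lit 9) 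
(.lf (nat_lit 580747) (.g (nat_lit 2476) (.e (nat_lit 336430) (nat_lit 29) (.e (nat_lit 442421) (nat_lit 21) (.e (nat_lit 164345) (nat_lit 240) (.e (nat_lit 2638) (nat_lit 165) (.e (nat_lit 180278) (nat_lit 32) (.e (nat_lit 1425) (nat_lit 108) .nil)))))) (.g (nat_lit 1) (.e (nat_lit 377883) (nat_lit 0) .nil) .nil))) 
(.lf (nat_lit 581259) (.g (nat_lit 328) (.e (nat_lit 336443) (nat_lit 32) (.e (nat_lit 466971) (nat_lit 21) (.e (nat_lit 164348) (nat_lit 240) .nil))) (.g (nat_lit 0) (.e (nat_lit 378738) (nat_lit 0) .nil) .nil)))) (.nd (nat_lit 9) 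
(.lf (nat_lit 581003) (.g (nat_lit 1713) (.e (nat_lit 336440) (nat_lit 32) (.e (nat_lit 466969) (nat_lit 21) (.e (nat_lit 164332) (nat_lit 230) (.e (nat_lit 163885) (nat_lit 5) (.e (nat_lit 221192) (nat_lit 11) .nil))))) (.g (nat_lit 0) (.e (nat_lit 378435) (nat_lit 0) .nil) .nil))) 
(.lf (nat_lit 581515) (.g (nat_lit 1089) (.e (nat_lit 336454) (nat_lit 34) (.e (nat_lit 483380) (nat_lit 23) (.e (nat_lit 336325) (nat_lit 18) (.e (nat_lit 204830) (nat_lit 18) .nil)))) (.g (nat_lit 0) (.e (nat_lit 379153) (nat_lit 0) .nil) .nil)))))) (.nd (nat_lit 7) (.nd (nat_lit 8) (.nd (nat_lit 9) 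
(.lf (nat_lit 580683) (.g (nat_lit 1831) (.e (nat_lit 336427) (nat_lit 29) (.e (nat_lit 442374) (nat_lit 0) (.e (nat_lit 1800) (nat_lit 119) (.e (nat_lit 516120) (nat_lit 1) (.e (nat_lit 164332) (nat_lit 230) .nil))))) (.g (nat_lit 0) (.e (nat_lit 377722) (nat_lit 0) .nil) .nil))) 
(.lf (nat_lit 581195) (.g (nat_lit 2748) (.e (nat_lit 336443) (nat_lit 32) (.e (nat_lit 466971) (nat_lit 21) (.e (nat_lit 164326) (nat_lit 230) (.e (nat_lit 163881) (nat_lit 4) (.e (nat_lit 213032) (nat_lit 11) (.e (nat_lit 24625) (nat_lit 9) .nil)))))) (.g (nat_lit 1) (.e (nat_lit 378673) (nat_lit 0) .nil) .nil)))) (.nd (nat_lit 9) 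
(.lf (nat_lit 580939) (.g (nat_lit 1840) (.e (nat_lit 336434) (nat_lit 30) (.e (nat_lit 450579) (nat_lit 5) (.e (nat_lit 532501) (nat_lit 1) (.e (nat_lit 57692) (nat_lit 156) (.e (nat_lit 163906) (nat_lit 12) .nil))))) (.g (nat_lit 0) (.e (nat_lit 378232) (nat_lit 0) .nil) .nil))) 
(.lf (nat_lit 581451) (.g (nat_lit 2608) (.e (nat_lit 336454) (nat_lit 34) (.e (nat_lit 483364) (nat_lit 18) (.e (nat_lit 57930) (nat_lit 282) (.e (nat_lit 163867) (nat_lit 2) (.e (nat_lit 196681) (nat_lit 17) (.e (nat_lit 131109) (nat_lit 9) .nil)))))) (.g (nat_lit 1) (.e (nat_lit 379073) (nat_lit 0) .nil) .nil))))) (.nd (nat_lit 8) (.nd (nat_lit 9) 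
(.lf (nat_lit 580811) (.g (nat_lit 2270) (.e (nat_lit 336432) (nat_lit 30) (.e (nat_lit 450564) (nat_lit 0) (.e (nat_lit 5548) (nat_lit 306) (.e (nat_lit 2619) (nat_lit 164) (.e (nat_lit 172124) (nat_lit 14) .nil))))) (.g (nat_lit 0) (.e (nat_lit 378005) (nat_lit 0) .nil) .nil))) 
(.lf (nat_lit 581323) (.g (nat_lit 2642) (.e (nat_lit 336443) (nat_lit 32) (.e (nat_lit 466979) (nat_lit 23) (.e (nat_lit 204830) (nat_lit 18) (.e (nat_lit 57691) (nat_lit 156) (.e (nat_lit 163905) (nat_lit 12) (.e (nat_lit 426478) (nat_lit 27) .nil)))))) (.g (nat_lit 1) (.e (nat_lit 378804) (nat_lit 0) .nil) .nil)))) (.nd (nat_lit 9) 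
(.lf (nat_lit 581067) (.g (nat_lit 2838) (.e (nat_lit 336443) (nat_lit 32) (.e (nat_lit 466969) (nat_lit 21) (.e (nat_lit 164326) (nat_lit 230) (.e (nat_lit 163881) (nat_lit 4) (.e (nat_lit 213032) (nat_lit 11) (.e (nat_lit 24625) (nat_lit 9) .nil)))))) (.g (nat_lit 1) (.e (nat_lit 378545) (nat_lit 0) .nil) .nil))) 
(.lf (nat_lit 581579) (.g (nat_lit 2922) (.e (nat_lit 336455) (nat_lit 34) (.e (nat_lit 483380) (nat_lit 23) (.e (nat_lit 336324) (nat_lit 18) (.e (nat_lit 204831) (nat_lit 18) (.e (nat_lit 57846) (nat_lit 252) .nil))))) (.g (nat_lit 0) (.e (nat_lit 379260) (nat_lit 0) .nil) .nil))))))) (.nd (nat_lit 6) (.nd (nat_lit 7) (.nd (nat_lit 8) (.nd (nat_lit 9) 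
(.lf (nat_lit 580651) (.g (nat_lit 1453) (.e (nat_lit 336426) (nat_lit 29) (.e (nat_lit 442419) (nat_lit 21) (.e (nat_lit 164326) (nat_lit 230) (.e (nat_lit 163879) (nat_lit 4) .nil)))) (.g (nat_lit 0) (.e (nat_lit 377685) (nat_lit 0) .nil) .nil))) 
(.lf (nat_lit 581163) (.g (nat_lit 2935) (.e (nat_lit 336443) (nat_lit 32) (.e (nat_lit 466971) (nat_lit 21) (.e (nat_lit 164322) (nat_lit 230) (.e (nat_lit 163884) (nat_lit 5) (.e (nat_lit 221194) (nat_lit 11) (.e (nat_lit 336077) (nat_lit 9) .nil)))))) (.g (nat_lit 1) (.e (nat_lit 378641) (nat_lit 0) .nil) .nil)))) (.nd (nat_lit 9) 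
(.lf (nat_lit 580907) (.g (nat_lit 2324) (.e (nat_lit 336433) (nat_lit 30) (.e (nat_lit 450588) (nat_lit 10) (.e (nat_lit 573475) (nat_lit 12) (.e (nat_lit 57516) (nat_lit 42) .nil)))) (.g (nat_lit 0) (.e (nat_lit 378177) (nat_lit 0) .nil) .nil))) 
(.lf (nat_lit 581419) (.g (nat_lit 1891) (.e (nat_lit 336453) (nat_lit 34) (.e (nat_lit 483380) (nat_lit 23) (.e (nat_lit 336326) (nat_lit 18) (.e (nat_lit 204830) (nat_lit 18) (.e (nat_lit 57830) (nat_lit 250) .nil))))) (.g (nat_lit 0) (.e (nat_lit 378986) (nat_lit 0) .nil) .nil))))) (.nd (nat_lit 8) (.nd (nat_lit 9) 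
(.lf (nat_lit 580779) (.g (nat_lit 2016) (.e (nat_lit 336430) (nat_lit 29) (.e (nat_lit 442428) (nat_lit 24) (.e (nat_lit 229665) (nat_lit 240) (.e (nat_lit 2643) (nat_lit 165) (.e (nat_lit 180277) (nat_lit 32) (.e (nat_lit 1425) (nat_lit 108) .nil)))))) (.g (nat_lit 1) (.e (nat_lit 377919) (nat_lit 0) .nil) .nil))) 
(.lf (nat_lit 581291) (.g (nat_lit 3938) (.e (nat_lit 336443) (nat_lit 32) (.e (nat_lit 466972) (nat_lit 21) (.e (nat_lit 164331) (nat_lit 230) (.e (nat_lit 163884) (nat_lit 5) (.e (nat_lit 221194) (nat_lit 11) (.e (nat_lit 336074) (nat_lit 9) .nil)))))) (.g (nat_lit 1) (.e (nat_lit 378770) (nat_lit 0) .nil) .nil)))) (.nd (nat_lit 9) 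
(.lf (nat_lit 581035) (.g (nat_lit 1464) (.e (nat_lit 336442) (nat_lit 32) (.e (nat_lit 466971) (nat_lit 21) (.e (nat_lit 164348) (nat_lit 240) (.e (nat_lit 2640) (nat_lit 165) (.e (nat_lit 188160) (nat_lit 32) (.e (nat_lit 1514) (nat_lit 108) .nil)))))) (.g (nat_lit 1) (.e (nat_lit 378497) (nat_lit 0) .nil) .nil))) 
(.lf (nat_lit 581547) (.g (nat_lit 3600) (.e (nat_lit 336454) (nat_lit 34) (.e (nat_lit 483385) (nat_lit 23) (.e (nat_lit 336306) (nat_lit 15) (.e (nat_lit 3238) (nat_lit 197) (.e (nat_lit 532499) (nat_lit 1) (.e (nat_lit 57854) (nat_lit 252) (.e (nat_lit 57406) (nat_lit 12) .nil))))))) (.g (nat_lit 1) (.e (nat_lit 379210) (nat_lit 0) .nil) .nil)))))) 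
(.nd (nat_lit 7) (.nd (nat_lit 8) (.nd (nat_lit 9) 
(.lf (nat_lit 580715) (.g (nat_lit 1541) (.e (nat_lit 336429) (nat_lit 29) (.e (nat_lit 442421) (nat_lit 21) (.e (nat_lit 164347) (nat_lit 240) (.e (nat_lit 2640) (nat_lit 165) (.e (nat_lit 180276) (nat_lit 32) .nil))))) (.g (nat_lit 0) (.e (nat_lit 377814) (nat_lit 0) .nil) .nil))) 
(.lf (nat_lit 581227) (.g (nat_lit 3219) (.e (nat_lit 336443) (nat_lit 32) (.e (nat_lit 466971) (nat_lit 21) (.e (nat_lit 164332) (nat_lit 230) (.e (nat_lit 163880) (nat_lit 4) (.e (nat_lit 213030) (nat_lit 11) (.e (nat_lit 24626) (nat_lit 9) .nil)))))) (.g (nat_lit 1) (.e (nat_lit 378705) (nat_lit 0) .nil) .nil)))) (.nd (nat_lit 9) 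
(.lf (nat_lit 580971) (.g (nat_lit 3888) (.e (nat_lit 336434) (nat_lit 30) (.e (nat_lit 450586) (nat_lit 10) (.e (nat_lit 573474) (nat_lit 12) (.e (nat_lit 57354) (nat_lit 0) .nil)))) (.g (nat_lit 0) (.e (nat_lit 378276) (nat_lit 0) .nil) .nil))) 
(.lf (nat_lit 581483) (.g (nat_lit 2520) (.e (nat_lit 336454) (nat_lit 34) (.e (nat_lit 483365) (nat_lit 18) (.e (nat_lit 57873) (nat_lit 264) (.e (nat_lit 1181) (nat_lit 87) (.e (nat_lit 65280) (nat_lit 25) .nil))))) (.g (nat_lit 0) (.e (nat_lit 379110) (nat_lit 0) .nil) .nil))))) (.nd (nat_lit 8) (.nd (nat_lit 9) 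
(.lf (nat_lit 580843) (.g (nat_lit 1953) (.e (nat_lit 336432) (nat_lit 30) (.e (nat_lit 450579) (nat_lit 5) (.e (nat_lit 532501) (nat_lit 1) (.e (nat_lit 57691) (nat_lit 156) (.e (nat_lit 163907) (nat_lit 12) (.e (nat_lit 426479) (nat_lit 27) .nil)))))) (.g (nat_lit 1) (.e (nat_lit 378050) (nat_lit 0) .nil) .nil))) 
(.lf (nat_lit 581355) (.g (nat_lit 469) (.e (nat_lit 336444) (nat_lit 32) (.e (nat_lit 466971) (nat_lit 21) (.e (nat_lit 164348) (nat_lit 240) .nil))) (.g (nat_lit 0) (.e (nat_lit 378847) (nat_lit 0) .nil) .nil)))) (.nd (nat_lit 9) 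
(.lf (nat_lit 581099) (.g (nat_lit 3094) (.e (nat_lit 336443) (nat_lit 32) (.e (nat_lit 466969) (nat_lit 21) (.e (nat_lit 164330) (nat_lit 230) (.e (nat_lit 163880) (nat_lit 4) (.e (nat_lit 213032) (nat_lit 11) (.e (nat_lit 24624) (nat_lit 9) .nil)))))) (.g (nat_lit 1) (.e (nat_lit 378577) (nat_lit 0) .nil) .nil))) 
(.lf (nat_lit 581611) (.g (nat_lit 3410) (.e (nat_lit 336456) (nat_lit 34) (.e (nat_lit 483363) (nat_lit 18) (.e (nat_lit 57849) (nat_lit 252) (.e (nat_lit 57372) (nat_lit 2) (.e (nat_lit 90158) (nat_lit 11) (.e (nat_lit 24628) (nat_lit 9) .nil)))))) (.g (nat_lit 1) (.e (nat_lit 379307) (nat_lit 0) .nil) .nil)))))))) 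
(.nd (nat_lit 5) (.nd (nat_lit 6) (.nd (nat_lit 7) (.nd (nat_lit 8) (.nd (nat_lit 9) 
(.lf (nat_lit 580635) (.g (nat_lit 774) (.e (nat_lit 336421) (nat_lit 28) (.e (nat_lit 434180) (nat_lit 0) (.e (nat_lit 1661) (nat_lit 115) (.e (nat_lit 393235) (nat_lit 17) .nil)))) (.g (nat_lit 0) (.e (nat_lit 377646) (nat_lit 0) .nil) .nil))) 
(.lf (nat_lit 581147) (.g (nat_lit 2502) (.e (nat_lit 336443) (nat_lit 32) (.e (nat_lit 466969) (nat_lit 21) (.e (nat_lit 164347) (nat_lit 240) (.e (nat_lit 2638) (nat_lit 165) (.e (nat_lit 180278) (nat_lit 32) (.e (nat_lit 1413) (nat_lit 108) .nil)))))) (.g (nat_lit 1) (.e (nat_lit 378625) (nat_lit 0) .nil) .nil)))) (.nd (nat_lit 9) 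
(.lf (nat_lit 580891) (.g (nat_lit 1348) (.e (nat_lit 336432) (nat_lit 30) (.e (nat_lit 450588) (nat_lit 10) (.e (nat_lit 573474) (nat_lit 12) .nil))) (.g (nat_lit 0) (.e (nat_lit 378119) (nat_lit 0) .nil) .nil))) 
(.lf (nat_lit 581403) (.g (nat_lit 2196) (.e (nat_lit 336453) (nat_lit 34) (.e (nat_lit 483364) (nat_lit 18) (.e (nat_lit 57927) (nat_lit 282) (.e (nat_lit 163875) (nat_lit 3) (.e (nat_lit 204859) (nat_lit 26) (.e (nat_lit 336116) (nat_lit 9) .nil)))))) (.g (nat_lit 1) (.e (nat_lit 378962) (nat_lit 0) .nil) .nil))))) (.nd (nat_lit 8) (.nd (nat_lit 9) 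
(.lf (nat_lit 580763) (.g (nat_lit 1798) (.e (nat_lit 336430) (nat_lit 29) (.e (nat_lit 442425) (nat_lit 23) (.e (nat_lit 204830) (nat_lit 18) (.e (nat_lit 57692) (nat_lit 156) (.e (nat_lit 163906) (nat_lit 12) (.e (nat_lit 426479) (nat_lit 27) .nil)))))) (.g (nat_lit 1) (.e (nat_lit 377901) (nat_lit 0) .nil) .nil))) 
(.lf (nat_lit 581275) (.g (nat_lit 3061) (.e (nat_lit 336443) (nat_lit 32) (.e (nat_lit 466972) (nat_lit 21) (.e (nat_lit 164330) (nat_lit 230) (.e (nat_lit 163843) (nat_lit 0) (.e (nat_lit 3617) (nat_lit 227) (.e (nat_lit 778462) (nat_lit 11) (.e (nat_lit 24628) (nat_lit 9) .nil))))))) (.g (nat_lit 1) (.e (nat_lit 378754) (nat_lit 0) .nil) .nil)))) (.nd (nat_lit 9) 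
(.lf (nat_lit 581019) (.g (nat_lit 1448) (.e (nat_lit 336442) (nat_lit 32) (.e (nat_lit 466969) (nat_lit 21) (.e (nat_lit 164330) (nat_lit 230) (.e (nat_lit 163885) (nat_lit 5) (.e (nat_lit 221192) (nat_lit 11) (.e (nat_lit 336152) (nat_lit 9) .nil)))))) (.g (nat_lit 1) (.e (nat_lit 378462) (nat_lit 0) .nil) .nil))) 
(.lf (nat_lit 581531) (.g (nat_lit 2859) (.e (nat_lit 336454) (nat_lit 34) (.e (nat_lit 483383) (nat_lit 23) (.e (nat_lit 336324) (nat_lit 18) (.e (nat_lit 204831) (nat_lit 18) (.e (nat_lit 57847) (nat_lit 252) (.e (nat_lit 57405) (nat_lit 12) .nil)))))) (.g (nat_lit 1) (.e (nat_lit 379184) (nat_lit 0) .nil) .nil)))))) (.nd (nat_lit 7) (.nd (nat_lit 8) (.nd (nat_lit 9) 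
(.lf (nat_lit 580699) (.g (nat_lit 1134) (.e (nat_lit 336429) (nat_lit 29) (.e (nat_lit 442419) (nat_lit 21) (.e (nat_lit 164327) (nat_lit 230) (.e (nat_lit 163886) (nat_lit 5) .nil)))) (.g (nat_lit 0) (.e (nat_lit 377789) (nat_lit 0) .nil) .nil))) 
(.lf (nat_lit 581211) (.g (nat_lit 3291) (.e (nat_lit 336443) (nat_lit 32) (.e (nat_lit 466971) (nat_lit 21) (.e (nat_lit 164327) (nat_lit 230) (.e (nat_lit 163884) (nat_lit 5) (.e (nat_lit 221194) (nat_lit 11) (.e (nat_lit 336077) (nat_lit 9) .nil)))))) (.g (nat_lit 1) (.e (nat_lit 378689) (nat_lit 0) .nil) .nil)))) (.nd (nat_lit 9) 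
(.lf (nat_lit 580955) (.g (nat_lit 1952) (.e (nat_lit 336434) (nat_lit 30) (.e (nat_lit 450579) (nat_lit 5) (.e (nat_lit 532504) (nat_lit 1) (.e (nat_lit 57665) (nat_lit 152) (.e (nat_lit 2466) (nat_lit 157) .nil))))) (.g (nat_lit 0) (.e (nat_lit 378256) (nat_lit 0) .nil) .nil))) 
(.lf (nat_lit 581467) (.g (nat_lit 1658) (.e (nat_lit 336454) (nat_lit 34) (.e (nat_lit 483365) (nat_lit 18) (.e (nat_lit 57849) (nat_lit 252) (.e (nat_lit 57369) (nat_lit 2) .nil)))) (.g (nat_lit 0) (.e (nat_lit 379094) (nat_lit 0) .nil) .nil))))) (.nd (nat_lit 8) (.nd (nat_lit 9) 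
(.lf (nat_lit 580827) (.g (nat_lit 3376) (.e (nat_lit 336432) (nat_lit 30) (.e (nat_lit 450565) (nat_lit 0) (.e (nat_lit 5548) (nat_lit 306) (.e (nat_lit 2638) (nat_lit 165) (.e (nat_lit 180278) (nat_lit 32) (.e (nat_lit 1428) (nat_lit 108) .nil)))))) (.g (nat_lit 1) (.e (nat_lit 378027) (nat_lit 0) .nil) .nil))) 
(.lf (nat_lit 581339) (.g (nat_lit 3896) (.e (nat_lit 336443) (nat_lit 32) (.e (nat_lit 466982) (nat_lit 24) (.e (nat_lit 229663) (nat_lit 240) (.e (nat_lit 2630) (nat_lit 164) (.e (nat_lit 172126) (nat_lit 14) (.e (nat_lit 491550) (nat_lit 9) .nil)))))) (.g (nat_lit 1) (.e (nat_lit 378822) (nat_lit 0) .nil) .nil)))) (.nd (nat_lit 9) 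
(.lf (nat_lit 581083) (.g (nat_lit 3315) (.e (nat_lit 336443) (nat_lit 32) (.e (nat_lit 466969) (nat_lit 21) (.e (nat_lit 164327) (nat_lit 230) (.e (nat_lit 163884) (nat_lit 5) (.e (nat_lit 221194) (nat_lit 11) (.e (nat_lit 336077) (nat_lit 9) .nil)))))) (.g (nat_lit 1) (.e (nat_lit 378561) (nat_lit 0) .nil) .nil))) 
(.lf (nat_lit 581595) (.g (nat_lit 1434) (.e (nat_lit 336455) (nat_lit 34) (.e (nat_lit 483403) (nat_lit 26) (.e (nat_lit 385066) (nat_lit 26) (.e (nat_lit 532504) (nat_lit 1) .nil)))) (.g (nat_lit 0) (.e (nat_lit 379289) (nat_lit 0) .nil) .nil))))))) (.nd (nat_lit 6) (.nd (nat_lit 7) (.nd (nat_lit 8) (.nd (nat_lit 9) 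
(.lf (nat_lit 580667) (.g (nat_lit 1359) (.e (nat_lit 336426) (nat_lit 29) (.e (nat_lit 442421) (nat_lit 21) (.e (nat_lit 164347) (nat_lit 240) (.e (nat_lit 2619) (nat_lit 164) .nil)))) (.g (nat_lit 0) (.e (nat_lit 377703) (nat_lit 0) .nil) .nil))) 
(.lf (nat_lit 581179) (.g (nat_lit 1309) (.e (nat_lit 336443) (nat_lit 32) (.e (nat_lit 466971) (nat_lit 21) (.e (nat_lit 164325) (nat_lit 230) (.e (nat_lit 163878) (nat_lit 4) .nil)))) (.g (nat_lit 0) (.e (nat_lit 378657) (nat_lit 0) .nil) .nil)))) (.nd (nat_lit 9) 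
(.lf (nat_lit 580923) (.g (nat_lit 2596) (.e (nat_lit 336434) (nat_lit 30) (.e (nat_lit 450579) (nat_lit 5) (.e (nat_lit 532499) (nat_lit 1) (.e (nat_lit 57687) (nat_lit 156) (.e (nat_lit 163902) (nat_lit 12) (.e (nat_lit 426479) (nat_lit 27) .nil)))))) (.g (nat_lit 1) (.e (nat_lit 378211) (nat_lit 0) .nil) .nil))) 
(.lf (nat_lit 581435) (.g (nat_lit 3413) (.e (nat_lit 336454) (nat_lit 34) (.e (nat_lit 483363) (nat_lit 18) (.e (nat_lit 57926) (nat_lit 282) (.e (nat_lit 163866) (nat_lit 2) (.e (nat_lit 196681) (nat_lit 17) (.e (nat_lit 131109) (nat_lit 9) .nil)))))) (.g (nat_lit 1) (.e (nat_lit 379054) (nat_lit 0) .nil) .nil))))) (.nd (nat_lit 8) (.nd (nat_lit 9) 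
(.lf (nat_lit 580795) (.g (nat_lit 1822) (.e (nat_lit 336431) (nat_lit 29) (.e (nat_lit 442421) (nat_lit 21) (.e (nat_lit 164327) (nat_lit 230) (.e (nat_lit 163882) (nat_lit 4) .nil)))) (.g (nat_lit 0) (.e (nat_lit 377945) (nat_lit 0) .nil) .nil))) 
(.lf (nat_lit 581307) (.g (nat_lit 3242) (.e (nat_lit 336443) (nat_lit 32) (.e (nat_lit 466972) (nat_lit 21) (.e (nat_lit 164332) (nat_lit 230) (.e (nat_lit 163884) (nat_lit 5) (.e (nat_lit 221194) (nat_lit 11) (.e (nat_lit 336077) (nat_lit 9) .nil)))))) (.g (nat_lit 1) (.e (nat_lit 378786) (nat_lit 0) .nil) .nil)))) (.nd (nat_lit 9) 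
(.lf (nat_lit 581051) (.g (nat_lit 1214) (.e (nat_lit 336443) (nat_lit 32) (.e (nat_lit 466969) (nat_lit 21) (.e (nat_lit 164325) (nat_lit 230) (.e (nat_lit 163878) (nat_lit 4) .nil)))) (.g (nat_lit 0) (.e (nat_lit 378529) (nat_lit 0) .nil) .nil))) 
(.lf (nat_lit 581563) (.g (nat_lit 1817) (.e (nat_lit 336454) (nat_lit 34) (.e (nat_lit 483406) (nat_lit 26) (.e (nat_lit 385064) (nat_lit 26) (.e (nat_lit 532503) (nat_lit 1) (.e (nat_lit 57847) (nat_lit 252) .nil))))) (.g (nat_lit 0) (.e (nat_lit 379242) (nat_lit 0) .nil) .nil)))))) (.nd (nat_lit 7) (.nd (nat_lit 8) (.nd (nat_lit 9) 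
(.lf (nat_lit 580731) (.g (nat_lit 1970) (.e (nat_lit 336430) (nat_lit 29) (.e (nat_lit 442419) (nat_lit 21) (.e (nat_lit 164345) (nat_lit 240) (.e (nat_lit 2639) (nat_lit 165) (.e (nat_lit 180278) (nat_lit 32) (.e (nat_lit 1425) (nat_lit 108) .nil)))))) (.g (nat_lit 1) (.e (nat_lit 377861) (nat_lit 0) .nil) .nil))) 
(.lf (nat_lit 581243) (.g (nat_lit 3201) (.e (nat_lit 336443) (nat_lit 32) (.e (nat_lit 466971) (nat_lit 21) (.e (nat_lit 164332) (nat_lit 230) (.e (nat_lit 163884) (nat_lit 5) (.e (nat_lit 221194) (nat_lit 11) (.e (nat_lit 336084) (nat_lit 9) .nil)))))) (.g (nat_lit 1) (.e (nat_lit 378721) (nat_lit 0) .nil) .nil)))) (.nd (nat_lit 9) 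
(.lf (nat_lit 580987) (.g (nat_lit 1760) (.e (nat_lit 336438) (nat_lit 31) (.e (nat_lit 458769) (nat_lit 16) (.e (nat_lit 164289) (nat_lit 224) (.e (nat_lit 164112) (nat_lit 118) (.e (nat_lit 794637) (nat_lit 11) (.e (nat_lit 336078) (nat_lit 9) .nil)))))) (.g (nat_lit 1) (.e (nat_lit 378417) (nat_lit 0) .nil) .nil))) 
(.lf (nat_lit 581499) (.g (nat_lit 2591) (.e (nat_lit 336454) (nat_lit 34) (.e (nat_lit 483366) (nat_lit 18) (.e (nat_lit 57930) (nat_lit 282) (.e (nat_lit 163867) (nat_lit 2) (.e (nat_lit 196681) (nat_lit 17) (.e (nat_lit 131109) (nat_lit 9) .nil)))))) (.g (nat_lit 1) (.e (nat_lit 379132) (nat_lit 0) .nil) .nil))))) (.nd (nat_lit 8) (.nd (nat_lit 9) 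
(.lf (nat_lit 580859) (.g (nat_lit 2166) (.e (nat_lit 336432) (nat_lit 30) (.e (nat_lit 450580) (nat_lit 5) (.e (nat_lit 532499) (nat_lit 1) (.e (nat_lit 57692) (nat_lit 156) (.e (nat_lit 163906) (nat_lit 12) .nil))))) (.g (nat_lit 0) (.e (nat_lit 378074) (nat_lit 0) .nil) .nil))) 
(.lf (nat_lit 581371) (.g (nat_lit 2575) (.e (nat_lit 336452) (nat_lit 34) (.e (nat_lit 483363) (nat_lit 18) (.e (nat_lit 57854) (nat_lit 252) (.e (nat_lit 57373) (nat_lit 2) (.e (nat_lit 90158) (nat_lit 11) .nil))))) (.g (nat_lit 0) (.e (nat_lit 378899) (nat_lit 0) .nil) .nil)))) (.nd (nat_lit 9) 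
(.lf (nat_lit 581115) (.g (nat_lit 2757) (.e (nat_lit 336443) (nat_lit 32) (.e (nat_lit 466969) (nat_lit 21) (.e (nat_lit 164331) (nat_lit 230) (.e (nat_lit 163885) (nat_lit 5) (.e (nat_lit 221193) (nat_lit 11) (.e (nat_lit 336077) (nat_lit 9) .nil)))))) (.g (nat_lit 1) (.e (nat_lit 378593) (nat_lit 0) .nil) .nil))) 
(.lf (nat_lit 581627) (.g (nat_lit 3181) (.e (nat_lit 336456) (nat_lit 34) (.e (nat_lit 483364) (nat_lit 18) (.e (nat_lit 57852) (nat_lit 252) (.e (nat_lit 57371) (nat_lit 2) (.e (nat_lit 90158) (nat_lit 11) (.e (nat_lit 24628) (nat_lit 9) .nil)))))) (.g (nat_lit 1) (.e (nat_lit 379324) (nat_lit 0) .nil) .nil)))))))))) 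
(.nd (nat_lit 3) (.nd (nat_lit 4) (.nd (nat_lit 5) (.nd (nat_lit 6) (.nd (nat_lit 7) 
(.nd (nat_lit 8) (.nd (nat_lit 9) 
(.lf (nat_lit 580615) (.g (nat_lit 2467) (.e (nat_lit 336414) (nat_lit 27) (.e (nat_lit 426318) (nat_lit 12) (.e (nat_lit 475179) (nat_lit 24) (.e (nat_lit 516117) (nat_lit 1) (.e (nat_lit 164329) (nat_lit 230) (.e (nat_lit 163902) (nat_lit 12) (.e (nat_lit 426479) (nat_lit 27) .nil))))))) (.g (nat_lit 1) (.e (nat_lit 377608) (nat_lit 0) .nil) .nil))) 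
(.lf (nat_lit 581127) (.g (nat_lit 3307) (.e (nat_lit 336443) (nat_lit 32) (.e (nat_lit 466969) (nat_lit 21) (.e (nat_lit 164332) (nat_lit 230) (.e (nat_lit 163880) (nat_lit 4) (.e (nat_lit 213032) (nat_lit 11) (.e (nat_lit 24625) (nat_lit 9) .nil)))))) (.g (nat_lit 1) (.e (nat_lit 378605) (nat_lit 0) .nil) .nil)))) (.nd (nat_lit 9) 
(.lf (nat_lit 580871) (.g (nat_lit 491) (.e (nat_lit 336432) (nat_lit 30) (.e (nat_lit 450580) (nat_lit 5) (.e (nat_lit 540416) (nat_lit 24) .nil))) (.g (nat_lit 0) (.e (nat_lit 378094) (nat_lit 0) .nil) .nil))) 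
(.lf (nat_lit 581383) (.g (nat_lit 1599) (.e (nat_lit 336452) (nat_lit 34) (.e (nat_lit 483403) (nat_lit 26) (.e (nat_lit 385066) (nat_lit 26) (.e (nat_lit 532502) (nat_lit 1) .nil)))) (.g (nat_lit 0) (.e (nat_lit 378936) (nat_lit 0) .nil) .nil))))) (.nd (nat_lit 8) (.nd (nat_lit 9) 
(.lf (nat_lit 580743) (.g (nat_lit 2187) (.e (nat_lit 336430) (nat_lit 29) (.e (nat_lit 442421) (nat_lit 21) (.e (nat_lit 164327) (nat_lit 230) (.e (nat_lit 163882) (nat_lit 4) (.e (nat_lit 213032) (nat_lit 11) (.e (nat_lit 24629) (nat_lit 9) .nil)))))) (.g (nat_lit 1) (.e (nat_lit 377879) (nat_lit 0) .nil) .nil))) 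
(.lf (nat_lit 581255) (.g (nat_lit 2867) (.e (nat_lit 336443) (nat_lit 32) (.e (nat_lit 466971) (nat_lit 21) (.e (nat_lit 164347) (nat_lit 240) (.e (nat_lit 2638) (nat_lit 165) (.e (nat_lit 180277) (nat_lit 32) (.e (nat_lit 1428) (nat_lit 108) .nil)))))) (.g (nat_lit 1) (.e (nat_lit 378734) (nat_lit 0) .nil) .nil)))) (.nd (nat_lit 9) 
(.lf (nat_lit 580999) (.g (nat_lit 1365) (.e (nat_lit 336440) (nat_lit 32) (.e (nat_lit 466969) (nat_lit 21) (.e (nat_lit 164331) (nat_lit 230) (.e (nat_lit 163884) (nat_lit 5) .nil)))) (.g (nat_lit 0) (.e (nat_lit 378431) (nat_lit 0) .nil) .nil))) 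
(.lf (nat_lit 581511) (.g (nat_lit 1457) (.e (nat_lit 336454) (nat_lit 34) (.e (nat_lit 483380) (nat_lit 23) (.e (nat_lit 336324) (nat_lit 18) (.e (nat_lit 204830) (nat_lit 18) (.e (nat_lit 57830) (nat_lit 250) .nil))))) (.g (nat_lit 0) (.e (nat_lit 379145) (nat_lit 0) .nil) .nil)))))) (.nd (nat_lit 7) (.nd (nat_lit 8) (.nd (nat_lit 9) 
(.lf (nat_lit 580679) (.g (nat_lit 1866) (.e (nat_lit 336426) (nat_lit 29) (.e (nat_lit 442430) (nat_lit 24) (.e (nat_lit 229665) (nat_lit 240) (.e (nat_lit 2641) (nat_lit 165) (.e (nat_lit 180278) (nat_lit 32) (.e (nat_lit 1426) (nat_lit 108) .nil)))))) (.g (nat_lit 1) (.e (nat_lit 377716) (nat_lit 0) .nil) .nil))) 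
(.lf (nat_lit 581191) (.g (nat_lit 2160) (.e (nat_lit 336443) (nat_lit 32) (.e (nat_lit 466971) (nat_lit 21) (.e (nat_lit 164325) (nat_lit 230) (.e (nat_lit 163885) (nat_lit 5) (.e (nat_lit 221193) (nat_lit 11) (.e (nat_lit 336077) (nat_lit 9) .nil)))))) (.g (nat_lit 1) (.e (nat_lit 378669) (nat_lit 0) .nil) .nil)))) (.nd (nat_lit 9) 
(.lf (nat_lit 580935) (.g (nat_lit 2600) (.e (nat_lit 336434) (nat_lit 30) (.e (nat_lit 450579) (nat_lit 5) (.e (nat_lit 532501) (nat_lit 1) (.e (nat_lit 57685) (nat_lit 156) (.e (nat_lit 163903) (nat_lit 12) (.e (nat_lit 426479) (nat_lit 27) .nil)))))) (.g (nat_lit 1) (.e (nat_lit 378226) (nat_lit 0) .nil) .nil))) 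
(.lf (nat_lit 581447) (.g (nat_lit 2265) (.e (nat_lit 336454) (nat_lit 34) (.e (nat_lit 483364) (nat_lit 18) (.e (nat_lit 57929) (nat_lit 282) (.e (nat_lit 163866) (nat_lit 2) (.e (nat_lit 196681) (nat_lit 17) (.e (nat_lit 131105) (nat_lit 9) .nil)))))) (.g (nat_lit 1) (.e (nat_lit 379069) (nat_lit 0) .nil) .nil))))) (.nd (nat_lit 8) (.nd (nat_lit 9) 
(.lf (nat_lit 580807) (.g (nat_lit 1756) (.e (nat_lit 343808) (nat_lit 29) (.e (nat_lit 442374) (nat_lit 0) (.e (nat_lit 2059) (nat_lit 142) (.e (nat_lit 704595) (nat_lit 5) (.e (nat_lit 180276) (nat_lit 32) .nil))))) (.g (nat_lit 0) (.e (nat_lit 377968) (nat_lit 0) .nil) .nil))) 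
(.lf (nat_lit 581319) (.g (nat_lit 2655) (.e (nat_lit 336443) (nat_lit 32) (.e (nat_lit 466979) (nat_lit 23) (.e (nat_lit 204829) (nat_lit 18) (.e (nat_lit 57691) (nat_lit 156) (.e (nat_lit 163905) (nat_lit 12) (.e (nat_lit 426478) (nat_lit 27) .nil)))))) (.g (nat_lit 1) (.e (nat_lit 378800) (nat_lit 0) .nil) .nil)))) (.nd (nat_lit 9) 
(.lf (nat_lit 581063) (.g (nat_lit 2165) (.e (nat_lit 336443) (nat_lit 32) (.e (nat_lit 466969) (nat_lit 21) (.e (nat_lit 164325) (nat_lit 230) (.e (nat_lit 163885) (nat_lit 5) (.e (nat_lit 221193) (nat_lit 11) (.e (nat_lit 336077) (nat_lit 9) .nil)))))) (.g (nat_lit 1) (.e (nat_lit 378541) (nat_lit 0) .nil) .nil))) 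
(.lf (nat_lit 581575) (.g (nat_lit 907) (.e (nat_lit 336455) (nat_lit 34) (.e (nat_lit 483365) (nat_lit 18) (.e (nat_lit 57931) (nat_lit 282) .nil))) (.g (nat_lit 0) (.e (nat_lit 379256) (nat_lit 0) .nil) .nil))))))) (.nd (nat_lit 6) (.nd (nat_lit 7) (.nd (nat_lit 8) (.nd (nat_lit 9) 
(.lf (nat_lit 580647) (.g (nat_lit 1662) (.e (nat_lit 336426) (nat_lit 29) (.e (nat_lit 442374) (nat_lit 0) (.e (nat_lit 1800) (nat_lit 119) (.e (nat_lit 516119) (nat_lit 1) (.e (nat_lit 164326) (nat_lit 230) .nil))))) (.g (nat_lit 0) (.e (nat_lit 377680) (nat_lit 0) .nil) .nil))) 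
(.lf (nat_lit 581159) (.g (nat_lit 3020) (.e (nat_lit 336443) (nat_lit 32) (.e (nat_lit 466971) (nat_lit 21) (.e (nat_lit 164322) (nat_lit 230) (.e (nat_lit 163878) (nat_lit 4) (.e (nat_lit 213030) (nat_lit 11) (.e (nat_lit 24629) (nat_lit 9) .nil)))))) (.g (nat_lit 1) (.e (nat_lit 378637) (nat_lit 0) .nil) .nil)))) (.nd (nat_lit 9) 
(.lf (nat_lit 580903) (.g (nat_lit 605) (.e (nat_lit 336433) (nat_lit 30) (.e (nat_lit 450588) (nat_lit 10) (.e (nat_lit 573473) (nat_lit 12) .nil))) (.g (nat_lit 0) (.e (nat_lit 378144) (nat_lit 0) .nil) .nil))) 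
(.lf (nat_lit 581415) (.g (nat_lit 2408) (.e (nat_lit 336453) (nat_lit 34) (.e (nat_lit 483366) (nat_lit 18) (.e (nat_lit 57854) (nat_lit 252) (.e (nat_lit 57371) (nat_lit 2) (.e (nat_lit 90160) (nat_lit 11) (.e (nat_lit 24636) (nat_lit 9) .nil)))))) (.g (nat_lit 1) (.e (nat_lit 378974) (nat_lit 0) .nil) .nil))))) (.nd (nat_lit 8) (.nd (nat_lit 9) 
(.lf (nat_lit 580775) (.g (nat_lit 3381) (.e (nat_lit 336430) (nat_lit 29) (.e (nat_lit 442427) (nat_lit 23) (.e (nat_lit 204831) (nat_lit 18) (.e (nat_lit 57688) (nat_lit 156) (.e (nat_lit 163903) (nat_lit 12) (.e (nat_lit 426479) (nat_lit 27) .nil)))))) (.g (nat_lit 1) (.e (nat_lit 377913) (nat_lit 0) .nil) .nil))) 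
(.lf (nat_lit 581287) (.g (nat_lit 3686) (.e (nat_lit 336443) (nat_lit 32) (.e (nat_lit 466972) (nat_lit 21) (.e (nat_lit 164330) (nat_lit 230) (.e (nat_lit 163885) (nat_lit 5) (.e (nat_lit 221194) (nat_lit 11) (.e (nat_lit 336074) (nat_lit 9) .nil)))))) (.g (nat_lit 1) (.e (nat_lit 378766) (nat_lit 0) .nil) .nil)))) (.nd (nat_lit 9) 
(.lf (nat_lit 581031) (.g (nat_lit 1663) (.e (nat_lit 336442) (nat_lit 32) (.e (nat_lit 466971) (nat_lit 21) (.e (nat_lit 164332) (nat_lit 230) (.e (nat_lit 163884) (nat_lit 5) (.e (nat_lit 221192) (nat_lit 11) (.e (nat_lit 336152) (nat_lit 9) .nil)))))) (.g (nat_lit 1) (.e (nat_lit 378483) (nat_lit 0) .nil) .nil))) 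
(.lf (nat_lit 581543) (.g (nat_lit 1099) (.e (nat_lit 336454) (nat_lit 34) (.e (nat_lit 483385) (nat_lit 23) (.e (nat_lit 336260) (nat_lit 15) (.e (nat_lit 3230) (nat_lit 197) .nil)))) (.g (nat_lit 0) (.e (nat_lit 379206) (nat_lit 0) .nil) .nil)))))) (.nd (nat_lit 7) (.nd (nat_lit 8) (.nd (nat_lit 9) 
(.lf (nat_lit 580711) (.g (nat_lit 1748) (.e (nat_lit 336429) (nat_lit 29) (.e (nat_lit 442421) (nat_lit 21) (.e (nat_lit 164324) (nat_lit 230) (.e (nat_lit 163884) (nat_lit 5) (.e (nat_lit 221192) (nat_lit 11) .nil))))) (.g (nat_lit 0) (.e (nat_lit 377805) (nat_lit 0) .nil) .nil))) 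
(.lf (nat_lit 581223) (.g (nat_lit 2321) (.e (nat_lit 336443) (nat_lit 32) (.e (nat_lit 466971) (nat_lit 21) (.e (nat_lit 164331) (nat_lit 230) (.e (nat_lit 163885) (nat_lit 5) (.e (nat_lit 221193) (nat_lit 11) (.e (nat_lit 336077) (nat_lit 9) .nil)))))) (.g (nat_lit 1) (.e (nat_lit 378701) (nat_lit 0) .nil) .nil)))) (.nd (nat_lit 9) 
(.lf (nat_lit 580967) (.g (nat_lit 390) (.e (nat_lit 336434) (nat_lit 30) (.e (nat_lit 450586) (nat_lit 10) (.e (nat_lit 573473) (nat_lit 12) .nil))) (.g (nat_lit 0) (.e (nat_lit 378271) (nat_lit 0) .nil) .nil))) 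
(.lf (nat_lit 581479) (.g (nat_lit 2611) (.e (nat_lit 336454) (nat_lit 34) (.e (nat_lit 483365) (nat_lit 18) (.e (nat_lit 57852) (nat_lit 252) (.e (nat_lit 57373) (nat_lit 2) (.e (nat_lit 90160) (nat_lit 11) (.e (nat_lit 32512) (nat_lit 9) .nil)))))) (.g (nat_lit 1) (.e (nat_lit 379106) (nat_lit 0) .nil) .nil))))) (.nd (nat_lit 8) (.nd (nat_lit 9) 
(.lf (nat_lit 580839) (.g (nat_lit 2181) (.e (nat_lit 336432) (nat_lit 30) (.e (nat_lit 450579) (nat_lit 5) (.e (nat_lit 532499) (nat_lit 1) (.e (nat_lit 57692) (nat_lit 156) (.e (nat_lit 163905) (nat_lit 12) (.e (nat_lit 426479) (nat_lit 27) .nil)))))) (.g (nat_lit 1) (.e (nat_lit 378044) (nat_lit 0) .nil) .nil))) 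
(.lf (nat_lit 581351) (.g (nat_lit 1542) (.e (nat_lit 336444) (nat_lit 32) (.e (nat_lit 466971) (nat_lit 21) (.e (nat_lit 164327) (nat_lit 230) (.e (nat_lit 163882) (nat_lit 4) (.e (nat_lit 213030) (nat_lit 11) .nil))))) (.g (nat_lit 0) (.e (nat_lit 378842) (nat_lit 0) .nil) .nil)))) (.nd (nat_lit 9) 
(.lf (nat_lit 581095) (.g (nat_lit 2997) (.e (nat_lit 336443) (nat_lit 32) (.e (nat_lit 466969) (nat_lit 21) (.e (nat_lit 164330) (nat_lit 230) (.e (nat_lit 163877) (nat_lit 4) (.e (nat_lit 213032) (nat_lit 11) (.e (nat_lit 24625) (nat_lit 9) .nil)))))) (.g (nat_lit 1) (.e (nat_lit 378573) (nat_lit 0) .nil) .nil))) 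
(.lf (nat_lit 581607) (.g (nat_lit 2270) (.e (nat_lit 336456) (nat_lit 34) (.e (nat_lit 483363) (nat_lit 18) (.e (nat_lit 57847) (nat_lit 252) (.e (nat_lit 57371) (nat_lit 2) (.e (nat_lit 90158) (nat_lit 11) .nil))))) (.g (nat_lit 0) (.e (nat_lit 379303) (nat_lit 0) .nil) .nil)))))))) (.nd (nat_lit 5) (.nd (nat_lit 6) (.nd (nat_lit 7) (.nd (nat_lit 8) (.nd (nat_lit 9) 
(.lf (nat_lit 580631) (.g (nat_lit 1857) (.e (nat_lit 336420) (nat_lit 28) (.e (nat_lit 434181) (nat_lit 0) (.e (nat_lit 1427) (nat_lit 108) (.e (nat_lit 336421) (nat_lit 28) (.e (nat_lit 434179) (nat_lit 0) (.e (nat_lit 1516) (nat_lit 108) .nil)))))) (.g (nat_lit 1) (.e (nat_lit 377641) (nat_lit 0) .nil) .nil))) 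
(.lf (nat_lit 581143) (.g (nat_lit 485) (.e (nat_lit 336443) (nat_lit 32) (.e (nat_lit 466969) (nat_lit 21) (.e (nat_lit 164346) (nat_lit 240) .nil))) (.g (nat_lit 0) (.e (nat_lit 378621) (nat_lit 0) .nil) .nil)))) (.nd (nat_lit 9) 
(.lf (nat_lit 580887) (.g (nat_lit 944) (.e (nat_lit 336432) (nat_lit 30) (.e (nat_lit 450588) (nat_lit 10) (.e (nat_lit 573473) (nat_lit 12) .nil))) (.g (nat_lit 0) (.e (nat_lit 378114) (nat_lit 0) .nil) .nil))) 
(.lf (nat_lit 581399) (.g (nat_lit 2464) (.e (nat_lit 336453) (nat_lit 34) (.e (nat_lit 483364) (nat_lit 18) (.e (nat_lit 57854) (nat_lit 252) (.e (nat_lit 57371) (nat_lit 2) (.e (nat_lit 90160) (nat_lit 11) (.e (nat_lit 24636) (nat_lit 9) .nil)))))) (.g (nat_lit 1) (.e (nat_lit 378958) (nat_lit 0) .nil) .nil))))) (.nd (nat_lit 8) (.nd (nat_lit 9) 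
(.lf (nat_lit 580759) (.g (nat_lit 3071) (.e (nat_lit 336430) (nat_lit 29) (.e (nat_lit 442425) (nat_lit 23) (.e (nat_lit 204829) (nat_lit 18) (.e (nat_lit 57691) (nat_lit 156) (.e (nat_lit 163907) (nat_lit 12) (.e (nat_lit 426479) (nat_lit 27) .nil)))))) (.g (nat_lit 1) (.e (nat_lit 377897) (nat_lit 0) .nil) .nil))) 
(.lf (nat_lit 581271) (.g (nat_lit 1767) (.e (nat_lit 336443) (nat_lit 32) (.e (nat_lit 466972) (nat_lit 21) (.e (nat_lit 164329) (nat_lit 230) (.e (nat_lit 163850) (nat_lit 0) (.e (nat_lit 3611) (nat_lit 226) .nil))))) (.g (nat_lit 0) (.e (nat_lit 378750) (nat_lit 0) .nil) .nil)))) (.nd (nat_lit 9) 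
(.lf (nat_lit 581015) (.g (nat_lit 1528) (.e (nat_lit 336442) (nat_lit 32) (.e (nat_lit 466969) (nat_lit 21) (.e (nat_lit 164324) (nat_lit 230) (.e (nat_lit 163886) (nat_lit 5) (.e (nat_lit 221192) (nat_lit 11) (.e (nat_lit 336153) (nat_lit 9) .nil)))))) (.g (nat_lit 1) (.e (nat_lit 378458) (nat_lit 0) .nil) .nil))) 
(.lf (nat_lit 581527) (.g (nat_lit 757) (.e (nat_lit 336454) (nat_lit 34) (.e (nat_lit 483383) (nat_lit 23) (.e (nat_lit 336322) (nat_lit 18) .nil))) (.g (nat_lit 0) (.e (nat_lit 379178) (nat_lit 0) .nil) .nil)))))) (.nd (nat_lit 7) (.nd (nat_lit 8) (.nd (nat_lit 9) 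
(.lf (nat_lit 580695) (.g (nat_lit 562) (.e (nat_lit 336429) (nat_lit 29) (.e (nat_lit 442377) (nat_lit 0) (.e (nat_lit 2058) (nat_lit 142) (.e (nat_lit 704595) (nat_lit 5) .nil)))) (.g (nat_lit 0) (.e (nat_lit 377757) (nat_lit 0) .nil) .nil))) 
(.lf (nat_lit 581207) (.g (nat_lit 3288) (.e (nat_lit 336443) (nat_lit 32) (.e (nat_lit 466971) (nat_lit 21) (.e (nat_lit 164327) (nat_lit 230) (.e (nat_lit 163882) (nat_lit 4) (.e (nat_lit 213032) (nat_lit 11) (.e (nat_lit 24628) (nat_lit 9) .nil)))))) (.g (nat_lit 1) (.e (nat_lit 378685) (nat_lit 0) .nil) .nil)))) (.nd (nat_lit 9) 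
(.lf (nat_lit 580951) (.g (nat_lit 2637) (.e (nat_lit 336434) (nat_lit 30) (.e (nat_lit 450579) (nat_lit 5) (.e (nat_lit 532503) (nat_lit 1) (.e (nat_lit 57692) (nat_lit 156) (.e (nat_lit 163907) (nat_lit 12) (.e (nat_lit 426479) (nat_lit 27) .nil)))))) (.g (nat_lit 1) (.e (nat_lit 378247) (nat_lit 0) .nil) .nil))) 
(.lf (nat_lit 581463) (.g (nat_lit 2968) (.e (nat_lit 336454) (nat_lit 34) (.e (nat_lit 483365) (nat_lit 18) (.e (nat_lit 57848) (nat_lit 252) (.e (nat_lit 57372) (nat_lit 2) (.e (nat_lit 90160) (nat_lit 11) (.e (nat_lit 24624) (nat_lit 9) .nil)))))) (.g (nat_lit 1) (.e (nat_lit 379088) (nat_lit 0) .nil) .nil))))) (.nd (nat_lit 8) (.nd (nat_lit 9) 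
(.lf (nat_lit 580823) (.g (nat_lit 3717) (.e (nat_lit 336432) (nat_lit 30) (.e (nat_lit 450565) (nat_lit 0) (.e (nat_lit 5548) (nat_lit 306) (.e (nat_lit 2629) (nat_lit 164) (.e (nat_lit 172124) (nat_lit 14) (.e (nat_lit 491549) (nat_lit 9) .nil)))))) (.g (nat_lit 1) (.e (nat_lit 378023) (nat_lit 0) .nil) .nil))) 
(.lf (nat_lit 581335) (.g (nat_lit 2768) (.e (nat_lit 336443) (nat_lit 32) (.e (nat_lit 466981) (nat_lit 23) (.e (nat_lit 204829) (nat_lit 18) (.e (nat_lit 57692) (nat_lit 156) (.e (nat_lit 163907) (nat_lit 12) (.e (nat_lit 426484) (nat_lit 27) .nil)))))) (.g (nat_lit 1) (.e (nat_lit 378816) (nat_lit 0) .nil) .nil)))) (.nd (nat_lit 9) 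
(.lf (nat_lit 581079) (.g (nat_lit 3097) (.e (nat_lit 336443) (nat_lit 32) (.e (nat_lit 466969) (nat_lit 21) (.e (nat_lit 164327) (nat_lit 230) (.e (nat_lit 163882) (nat_lit 4) (.e (nat_lit 213032) (nat_lit 11) (.e (nat_lit 24629) (nat_lit 9) .nil)))))) (.g (nat_lit 1) (.e (nat_lit 378557) (nat_lit 0) .nil) .nil))) 
(.lf (nat_lit 581591) (.g (nat_lit 2617) (.e (nat_lit 336455) (nat_lit 34) (.e (nat_lit 483383) (nat_lit 23) (.e (nat_lit 336324) (nat_lit 18) (.e (nat_lit 204831) (nat_lit 18) (.e (nat_lit 57852) (nat_lit 252) .nil))))) (.g (nat_lit 0) (.e (nat_lit 379281) (nat_lit 0) .nil) .nil))))))) (.nd (nat_lit 6) (.nd (nat_lit 7) (.nd (nat_lit 8) (.nd (nat_lit 9) 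
(.lf (nat_lit 580663) (.g (nat_lit 1763) (.e (nat_lit 336426) (nat_lit 29) (.e (nat_lit 442421) (nat_lit 21) (.e (nat_lit 164327) (nat_lit 230) (.e (nat_lit 163882) (nat_lit 4) .nil)))) (.g (nat_lit 0) (.e (nat_lit 377698) (nat_lit 0) .nil) .nil))) 
(.lf (nat_lit 581175) (.g (nat_lit 3352) (.e (nat_lit 336443) (nat_lit 32) (.e (nat_lit 466971) (nat_lit 21) (.e (nat_lit 164324) (nat_lit 230) (.e (nat_lit 163884) (nat_lit 5) (.e (nat_lit 221194) (nat_lit 11) (.e (nat_lit 336084) (nat_lit 9) .nil)))))) (.g (nat_lit 1) (.e (nat_lit 378653) (nat_lit 0) .nil) .nil)))) (.nd (nat_lit 9) 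
(.lf (nat_lit 580919) (.g (nat_lit 1061) (.e (nat_lit 336434) (nat_lit 30) (.e (nat_lit 450564) (nat_lit 0) (.e (nat_lit 5548) (nat_lit 306) (.e (nat_lit 2638) (nat_lit 165) (.e (nat_lit 188160) (nat_lit 32) (.e (nat_lit 1419) (nat_lit 108) .nil)))))) (.g (nat_lit 1) (.e (nat_lit 378205) (nat_lit 0) .nil) .nil))) 
(.lf (nat_lit 581431) (.g (nat_lit 1704) (.e (nat_lit 336454) (nat_lit 34) (.e (nat_lit 483363) (nat_lit 18) (.e (nat_lit 57847) (nat_lit 252) (.e (nat_lit 57370) (nat_lit 2) (.e (nat_lit 90159) (nat_lit 11) .nil))))) (.g (nat_lit 0) (.e (nat_lit 379044) (nat_lit 0) .nil) .nil))))) (.nd (nat_lit 8) (.nd (nat_lit 9) 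
(.lf (nat_lit 580791) (.g (nat_lit 1670) (.e (nat_lit 336431) (nat_lit 29) (.e (nat_lit 442421) (nat_lit 21) (.e (nat_lit 164326) (nat_lit 230) (.e (nat_lit 163879) (nat_lit 4) .nil)))) (.g (nat_lit 0) (.e (nat_lit 377940) (nat_lit 0) .nil) .nil))) 
(.lf (nat_lit 581303) (.g (nat_lit 3127) (.e (nat_lit 336443) (nat_lit 32) (.e (nat_lit 466972) (nat_lit 21) (.e (nat_lit 164332) (nat_lit 230) (.e (nat_lit 163878) (nat_lit 4) (.e (nat_lit 213032) (nat_lit 11) (.e (nat_lit 24630) (nat_lit 9) .nil)))))) (.g (nat_lit 1) (.e (nat_lit 378782) (nat_lit 0) .nil) .nil)))) (.nd (nat_lit 9) 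
(.lf (nat_lit 581047) (.g (nat_lit 3454) (.e (nat_lit 336443) (nat_lit 32) (.e (nat_lit 466969) (nat_lit 21) (.e (nat_lit 164324) (nat_lit 230) (.e (nat_lit 163884) (nat_lit 5) (.e (nat_lit 221194) (nat_lit 11) (.e (nat_lit 336084) (nat_lit 9) .nil)))))) (.g (nat_lit 1) (.e (nat_lit 378525) (nat_lit 0) .nil) .nil))) 
(.lf (nat_lit 581559) (.g (nat_lit 1738) (.e (nat_lit 336454) (nat_lit 34) (.e (nat_lit 483403) (nat_lit 26) (.e (nat_lit 385066) (nat_lit 26) (.e (nat_lit 532503) (nat_lit 1) (.e (nat_lit 57850) (nat_lit 252) .nil))))) (.g (nat_lit 0) (.e (nat_lit 379230) (nat_lit 0) .nil) .nil)))))) (.nd (nat_lit 7) (.nd (nat_lit 8) (.nd (nat_lit 9) 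
(.lf (nat_lit 580727) (.g (nat_lit 1894) (.e (nat_lit 336430) (nat_lit 29) (.e (nat_lit 442419) (nat_lit 21) (.e (nat_lit 164327) (nat_lit 230) (.e (nat_lit 163882) (nat_lit 4) (.e (nat_lit 213030) (nat_lit 11) (.e (nat_lit 24629) (nat_lit 9) .nil)))))) (.g (nat_lit 1) (.e (nat_lit 377853) (nat_lit 0) .nil) .nil))) 
(.lf (nat_lit 581239) (.g (nat_lit 2612) (.e (nat_lit 336443) (nat_lit 32) (.e (nat_lit 466971) (nat_lit 21) (.e (nat_lit 164332) (nat_lit 230) (.e (nat_lit 163884) (nat_lit 5) (.e (nat_lit 221193) (nat_lit 11) (.e (nat_lit 336077) (nat_lit 9) .nil)))))) (.g (nat_lit 1) (.e (nat_lit 378717) (nat_lit 0) .nil) .nil)))) (.nd (nat_lit 9) 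
(.lf (nat_lit 580983) (.g (nat_lit 1010) (.e (nat_lit 336437) (nat_lit 31) (.e (nat_lit 458769) (nat_lit 16) (.e (nat_lit 164292) (nat_lit 224) (.e (nat_lit 164112) (nat_lit 118) (.e (nat_lit 794635) (nat_lit 11) (.e (nat_lit 336152) (nat_lit 9) .nil)))))) (.g (nat_lit 1) (.e (nat_lit 378408) (nat_lit 0) .nil) .nil))) 
(.lf (nat_lit 581495) (.g (nat_lit 3204) (.e (nat_lit 336454) (nat_lit 34) (.e (nat_lit 483366) (nat_lit 18) (.e (nat_lit 57847) (nat_lit 252) (.e (nat_lit 57375) (nat_lit 2) (.e (nat_lit 90160) (nat_lit 11) (.e (nat_lit 24628) (nat_lit 9) .nil)))))) (.g (nat_lit 1) (.e (nat_lit 379128) (nat_lit 0) .nil) .nil))))) (.nd (nat_lit 8) (.nd (nat_lit 9) 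
(.lf (nat_lit 580855) (.g (nat_lit 732) (.e (nat_lit 336432) (nat_lit 30) (.e (nat_lit 450579) (nat_lit 5) (.e (nat_lit 532583) (nat_lit 26) .nil))) (.g (nat_lit 0) (.e (nat_lit 378064) (nat_lit 0) .nil) .nil))) 
(.lf (nat_lit 581367) (.g (nat_lit 2020) (.e (nat_lit 336451) (nat_lit 34) (.e (nat_lit 483365) (nat_lit 18) (.e (nat_lit 57854) (nat_lit 252) (.e (nat_lit 57371) (nat_lit 2) (.e (nat_lit 90160) (nat_lit 11) (.e (nat_lit 24636) (nat_lit 9) .nil)))))) (.g (nat_lit 1) (.e (nat_lit 378875) (nat_lit 0) .nil) .nil)))) (.nd (nat_lit 9) 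
(.lf (nat_lit 581111) (.g (nat_lit 2520) (.e (nat_lit 336443) (nat_lit 32) (.e (nat_lit 466969) (nat_lit 21) (.e (nat_lit 164331) (nat_lit 230) (.e (nat_lit 163884) (nat_lit 5) (.e (nat_lit 221193) (nat_lit 11) (.e (nat_lit 336077) (nat_lit 9) .nil)))))) (.g (nat_lit 1) (.e (nat_lit 378589) (nat_lit 0) .nil) .nil))) 
(.lf (nat_lit 581623) (.g (nat_lit 1637) (.e (nat_lit 336456) (nat_lit 34) (.e (nat_lit 483364) (nat_lit 18) (.e (nat_lit 57851) (nat_lit 252) (.e (nat_lit 57370) (nat_lit 2) (.e (nat_lit 90158) (nat_lit 11) .nil))))) (.g (nat_lit 0) (.e (nat_lit 379320) (nat_lit 0) .nil) .nil))))))))) (.nd (nat_lit 4) (.nd (nat_lit 5) (.nd (nat_lit 6) (.nd (nat_lit 7) (.nd (nat_lit 8) (.nd (nat_lit 9) 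
(.lf (nat_lit 580623) (.g (nat_lit 2003) (.e (nat_lit 336415) (nat_lit 27) (.e (nat_lit 426098) (nat_lit 1) (.e (nat_lit 164327) (nat_lit 230) (.e (nat_lit 163868) (nat_lit 2) (.e (nat_lit 196654) (nat_lit 11) .nil))))) (.g (nat_lit 0) (.e (nat_lit 377617) (nat_lit 0) .nil) .nil))) 
(.lf (nat_lit 581135) (.g (nat_lit 2575) (.e (nat_lit 336443) (nat_lit 32) (.e (nat_lit 466969) (nat_lit 21) (.e (nat_lit 164332) (nat_lit 230) (.e (nat_lit 163885) (nat_lit 5) (.e (nat_lit 221193) (nat_lit 11) (.e (nat_lit 336074) (nat_lit 9) .nil)))))) (.g (nat_lit 1) (.e (nat_lit 378613) (nat_lit 0) .nil) .nil)))) (.nd (nat_lit 9) 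
(.lf (nat_lit 580879) (.g (nat_lit 1330) (.e (nat_lit 336432) (nat_lit 30) (.e (nat_lit 450586) (nat_lit 10) (.e (nat_lit 573473) (nat_lit 12) (.e (nat_lit 57508) (nat_lit 39) .nil)))) (.g (nat_lit 0) (.e (nat_lit 378103) (nat_lit 0) .nil) .nil))) 
(.lf (nat_lit 581391) (.g (nat_lit 2235) (.e (nat_lit 336452) (nat_lit 34) (.e (nat_lit 483406) (nat_lit 26) (.e (nat_lit 385068) (nat_lit 26) (.e (nat_lit 532504) (nat_lit 1) (.e (nat_lit 57854) (nat_lit 252) .nil))))) (.g (nat_lit 0) (.e (nat_lit 378948) (nat_lit 0) .nil) .nil))))) (.nd (nat_lit 8) (.nd (nat_lit 9) 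
(.lf (nat_lit 580751) (.g (nat_lit 2075) (.e (nat_lit 336430) (nat_lit 29) (.e (nat_lit 442421) (nat_lit 21) (.e (nat_lit 164346) (nat_lit 240) (.e (nat_lit 2639) (nat_lit 165) (.e (nat_lit 180278) (nat_lit 32) (.e (nat_lit 1425) (nat_lit 108) .nil)))))) (.g (nat_lit 1) (.e (nat_lit 377887) (nat_lit 0) .nil) .nil))) 
(.lf (nat_lit 581263) (.g (nat_lit 2555) (.e (nat_lit 336443) (nat_lit 32) (.e (nat_lit 466971) (nat_lit 21) (.e (nat_lit 164348) (nat_lit 240) (.e (nat_lit 2638) (nat_lit 165) (.e (nat_lit 180278) (nat_lit 32) (.e (nat_lit 1413) (nat_lit 108) .nil)))))) (.g (nat_lit 1) (.e (nat_lit 378742) (nat_lit 0) .nil) .nil)))) (.nd (nat_lit 9) 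
(.lf (nat_lit 581007) (.g (nat_lit 1308) (.e (nat_lit 336440) (nat_lit 32) (.e (nat_lit 466971) (nat_lit 21) (.e (nat_lit 164327) (nat_lit 230) (.e (nat_lit 163884) (nat_lit 5) .nil)))) (.g (nat_lit 0) (.e (nat_lit 378440) (nat_lit 0) .nil) .nil))) 
(.lf (nat_lit 581519) (.g (nat_lit 3212) (.e (nat_lit 336454) (nat_lit 34) (.e (nat_lit 483382) (nat_lit 23) (.e (nat_lit 336324) (nat_lit 18) (.e (nat_lit 204831) (nat_lit 18) (.e (nat_lit 57852) (nat_lit 252) (.e (nat_lit 57405) (nat_lit 12) .nil)))))) (.g (nat_lit 1) (.e (nat_lit 379164) (nat_lit 0) .nil) .nil)))))) (.nd (nat_lit 7) (.nd (nat_lit 8) (.nd (nat_lit 9) 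
(.lf (nat_lit 580687) (.g (nat_lit 2005) (.e (nat_lit 336427) (nat_lit 29) (.e (nat_lit 442421) (nat_lit 21) (.e (nat_lit 164326) (nat_lit 230) (.e (nat_lit 163879) (nat_lit 4) (.e (nat_lit 213030) (nat_lit 11) (.e (nat_lit 24629) (nat_lit 9) .nil)))))) (.g (nat_lit 1) (.e (nat_lit 377728) (nat_lit 0) .nil) .nil))) 
(.lf (nat_lit 581199) (.g (nat_lit 3228) (.e (nat_lit 336443) (nat_lit 32) (.e (nat_lit 466971) (nat_lit 21) (.e (nat_lit 164326) (nat_lit 230) (.e (nat_lit 163884) (nat_lit 5) (.e (nat_lit 221194) (nat_lit 11) (.e (nat_lit 336074) (nat_lit 9) .nil)))))) (.g (nat_lit 1) (.e (nat_lit 378677) (nat_lit 0) .nil) .nil)))) (.nd (nat_lit 9) 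
(.lf (nat_lit 580943) (.g (nat_lit 2502) (.e (nat_lit 336434) (nat_lit 30) (.e (nat_lit 450579) (nat_lit 5) (.e (nat_lit 532502) (nat_lit 1) (.e (nat_lit 57692) (nat_lit 156) (.e (nat_lit 163907) (nat_lit 12) (.e (nat_lit 426479) (nat_lit 27) .nil)))))) (.g (nat_lit 1) (.e (nat_lit 378238) (nat_lit 0) .nil) .nil))) 
(.lf (nat_lit 581455) (.g (nat_lit 2979) (.e (nat_lit 336454) (nat_lit 34) (.e (nat_lit 483365) (nat_lit 18) (.e (nat_lit 57846) (nat_lit 252) (.e (nat_lit 57371) (nat_lit 2) (.e (nat_lit 90160) (nat_lit 11) (.e (nat_lit 24630) (nat_lit 9) .nil)))))) (.g (nat_lit 1) (.e (nat_lit 379079) (nat_lit 0) .nil) .nil))))) (.nd (nat_lit 8) (.nd (nat_lit 9) 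
(.lf (nat_lit 580815) (.g (nat_lit 1621) (.e (nat_lit 336432) (nat_lit 30) (.e (nat_lit 450564) (nat_lit 0) (.e (nat_lit 5548) (nat_lit 306) (.e (nat_lit 2629) (nat_lit 164) .nil)))) (.g (nat_lit 0) (.e (nat_lit 378009) (nat_lit 0) .nil) .nil))) 
(.lf (nat_lit 581327) (.g (nat_lit 1333) (.e (nat_lit 336443) (nat_lit 32) (.e (nat_lit 466981) (nat_lit 23) (.e (nat_lit 204808) (nat_lit 9) (.e (nat_lit 426098) (nat_lit 1) (.e (nat_lit 164398) (nat_lit 256) .nil))))) (.g (nat_lit 0) (.e (nat_lit 378808) (nat_lit 0) .nil) .nil)))) (.nd (nat_lit 9) 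
(.lf (nat_lit 581071) (.g (nat_lit 2839) (.e (nat_lit 336443) (nat_lit 32) (.e (nat_lit 466969) (nat_lit 21) (.e (nat_lit 164326) (nat_lit 230) (.e (nat_lit 163882) (nat_lit 4) (.e (nat_lit 213032) (nat_lit 11) (.e (nat_lit 24629) (nat_lit 9) .nil)))))) (.g (nat_lit 1) (.e (nat_lit 378549) (nat_lit 0) .nil) .nil))) 
(.lf (nat_lit 581583) (.g (nat_lit 1414) (.e (nat_lit 336455) (nat_lit 34) (.e (nat_lit 483380) (nat_lit 23) (.e (nat_lit 336326) (nat_lit 18) (.e (nat_lit 204830) (nat_lit 18) .nil)))) (.g (nat_lit 0) (.e (nat_lit 379266) (nat_lit 0) .nil) .nil))))))) (.nd (nat_lit 6) (.nd (nat_lit 7) (.nd (nat_lit 8) (.nd (nat_lit 9) 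
(.lf (nat_lit 580655) (.g (nat_lit 1598) (.e (nat_lit 336426) (nat_lit 29) (.e (nat_lit 442419) (nat_lit 21) (.e (nat_lit 164327) (nat_lit 230) (.e (nat_lit 163882) (nat_lit 4) .nil)))) (.g (nat_lit 0) (.e (nat_lit 377689) (nat_lit 0) .nil) .nil))) 
(.lf (nat_lit 581167) (.g (nat_lit 2738) (.e (nat_lit 336443) (nat_lit 32) (.e (nat_lit 466971) (nat_lit 21) (.e (nat_lit 164322) (nat_lit 230) (.e (nat_lit 163885) (nat_lit 5) (.e (nat_lit 221193) (nat_lit 11) (.e (nat_lit 336084) (nat_lit 9) .nil)))))) (.g (nat_lit 1) (.e (nat_lit 378645) (nat_lit 0) .nil) .nil)))) (.nd (nat_lit 9) 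
(.lf (nat_lit 580911) (.g (nat_lit 417) (.e (nat_lit 336434) (nat_lit 30) (.e (nat_lit 450564) (nat_lit 0) (.e (nat_lit 5224) (nat_lit 296) .nil))) (.g (nat_lit 0) (.e (nat_lit 378191) (nat_lit 0) .nil) .nil))) 
(.lf (nat_lit 581423) (.g (nat_lit 1307) (.e (nat_lit 336453) (nat_lit 34) (.e (nat_lit 483385) (nat_lit 23) (.e (nat_lit 336260) (nat_lit 15) (.e (nat_lit 3251) (nat_lit 197) .nil)))) (.g (nat_lit 0) (.e (nat_lit 379001) (nat_lit 0) .nil) .nil))))) (.nd (nat_lit 8) (.nd (nat_lit 9) 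
(.lf (nat_lit 580783) (.g (nat_lit 2035) (.e (nat_lit 336430) (nat_lit 29) (.e (nat_lit 442429) (nat_lit 24) (.e (nat_lit 229664) (nat_lit 240) (.e (nat_lit 2641) (nat_lit 165) (.e (nat_lit 180278) (nat_lit 32) (.e (nat_lit 1425) (nat_lit 108) .nil)))))) (.g (nat_lit 1) (.e (nat_lit 377926) (nat_lit 0) .nil) .nil))) 
(.lf (nat_lit 581295) (.g (nat_lit 3199) (.e (nat_lit 336443) (nat_lit 32) (.e (nat_lit 466972) (nat_lit 21) (.e (nat_lit 164331) (nat_lit 230) (.e (nat_lit 163885) (nat_lit 5) (.e (nat_lit 221193) (nat_lit 11) (.e (nat_lit 336084) (nat_lit 9) .nil)))))) (.g (nat_lit 1) (.e (nat_lit 378774) (nat_lit 0) .nil) .nil)))) (.nd (nat_lit 9) 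
(.lf (nat_lit 581039) (.g (nat_lit 2262) (.e (nat_lit 336443) (nat_lit 32) (.e (nat_lit 466960) (nat_lit 20) (.e (nat_lit 3114) (nat_lit 193) (.e (nat_lit 499903) (nat_lit 7) (.e (nat_lit 24665) (nat_lit 14) (.e (nat_lit 409344) (nat_lit 27) .nil)))))) (.g (nat_lit 1) (.e (nat_lit 378516) (nat_lit 0) .nil) .nil))) 
(.lf (nat_lit 581551) (.g (nat_lit 2422) (.e (nat_lit 336454) (nat_lit 34) (.e (nat_lit 483385) (nat_lit 23) (.e (nat_lit 336324) (nat_lit 18) (.e (nat_lit 204831) (nat_lit 18) (.e (nat_lit 57847) (nat_lit 252) (.e (nat_lit 57409) (nat_lit 12) .nil)))))) (.g (nat_lit 1) (.e (nat_lit 379214) (nat_lit 0) .nil) .nil)))))) (.nd (nat_lit 7) (.nd (nat_lit 8) (.nd (nat_lit 9) 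
(.lf (nat_lit 580719) (.g (nat_lit 1815) (.e (nat_lit 336430) (nat_lit 29) (.e (nat_lit 442378) (nat_lit 0) (.e (nat_lit 2058) (nat_lit 142) (.e (nat_lit 704595) (nat_lit 5) (.e (nat_lit 180278) (nat_lit 32) (.e (nat_lit 1425) (nat_lit 108) .nil)))))) (.g (nat_lit 1) (.e (nat_lit 377840) (nat_lit 0) .nil) .nil))) 
(.lf (nat_lit 581231) (.g (nat_lit 3430) (.e (nat_lit 336443) (nat_lit 32) (.e (nat_lit 466971) (nat_lit 21) (.e (nat_lit 164332) (nat_lit 230) (.e (nat_lit 163880) (nat_lit 4) (.e (nat_lit 213030) (nat_lit 11) (.e (nat_lit 24630) (nat_lit 9) .nil)))))) (.g (nat_lit 1) (.e (nat_lit 378709) (nat_lit 0) .nil) .nil)))) (.nd (nat_lit 9) 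
(.lf (nat_lit 580975) (.g (nat_lit 449) (.e (nat_lit 336434) (nat_lit 30) (.e (nat_lit 450586) (nat_lit 10) (.e (nat_lit 573478) (nat_lit 12) .nil))) (.g (nat_lit 0) (.e (nat_lit 378281) (nat_lit 0) .nil) .nil))) 
(.lf (nat_lit 581487) (.g (nat_lit 2843) (.e (nat_lit 336454) (nat_lit 34) (.e (nat_lit 483365) (nat_lit 18) (.e (nat_lit 57929) (nat_lit 282) (.e (nat_lit 163866) (nat_lit 2) (.e (nat_lit 196681) (nat_lit 17) (.e (nat_lit 131105) (nat_lit 9) .nil)))))) (.g (nat_lit 1) (.e (nat_lit 379120) (nat_lit 0) .nil) .nil))))) (.nd (nat_lit 8) (.nd (nat_lit 9) 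
(.lf (nat_lit 580847) (.g (nat_lit 2443) (.e (nat_lit 336432) (nat_lit 30) (.e (nat_lit 450579) (nat_lit 5) (.e (nat_lit 532503) (nat_lit 1) (.e (nat_lit 57688) (nat_lit 156) (.e (nat_lit 163905) (nat_lit 12) .nil))))) (.g (nat_lit 0) (.e (nat_lit 378054) (nat_lit 0) .nil) .nil))) 
(.lf (nat_lit 581359) (.g (nat_lit 365) (.e (nat_lit 336444) (nat_lit 32) (.e (nat_lit 466981) (nat_lit 23) (.e (nat_lit 204809) (nat_lit 9) .nil))) (.g (nat_lit 0) (.e (nat_lit 378853) (nat_lit 0) .nil) .nil)))) (.nd (nat_lit 9) 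
(.lf (nat_lit 581103) (.g (nat_lit 3140) (.e (nat_lit 336443) (nat_lit 32) (.e (nat_lit 466969) (nat_lit 21) (.e (nat_lit 164330) (nat_lit 230) (.e (nat_lit 163880) (nat_lit 4) (.e (nat_lit 213032) (nat_lit 11) (.e (nat_lit 24630) (nat_lit 9) .nil)))))) (.g (nat_lit 1) (.e (nat_lit 378581) (nat_lit 0) .nil) .nil))) 
(.lf (nat_lit 581615) (.g (nat_lit 2030) (.e (nat_lit 336456) (nat_lit 34) (.e (nat_lit 483363) (nat_lit 18) (.e (nat_lit 57852) (nat_lit 252) (.e (nat_lit 57373) (nat_lit 2) .nil)))) (.g (nat_lit 0) (.e (nat_lit 379311) (nat_lit 0) .nil) .nil)))))))) (.nd (nat_lit 5) (.nd (nat_lit 6) (.nd (nat_lit 7) (.nd (nat_lit 8) (.nd (nat_lit 9) 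
(.lf (nat_lit 580639) (.g (nat_lit 1112) (.e (nat_lit 336421) (nat_lit 28) (.e (nat_lit 442112) (nat_lit 5) (.e (nat_lit 73775) (nat_lit 26) (.e (nat_lit 778465) (nat_lit 11) (.e (nat_lit 32512) (nat_lit 9) .nil))))) (.g (nat_lit 1) (.e (nat_lit 377650) (nat_lit 0) .nil) .nil))) 
(.lf (nat_lit 581151) (.g (nat_lit 3779) (.e (nat_lit 336443) (nat_lit 32) (.e (nat_lit 466969) (nat_lit 21) (.e (nat_lit 164348) (nat_lit 240) (.e (nat_lit 2628) (nat_lit 164) (.e (nat_lit 172126) (nat_lit 14) (.e (nat_lit 491549) (nat_lit 9) .nil)))))) (.g (nat_lit 1) (.e (nat_lit 378629) (nat_lit 0) .nil) .nil)))) (.nd (nat_lit 9) 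
(.lf (nat_lit 580895) (.g (nat_lit 3271) (.e (nat_lit 336432) (nat_lit 30) (.e (nat_lit 450588) (nat_lit 10) (.e (nat_lit 573475) (nat_lit 12) (.e (nat_lit 57354) (nat_lit 0) (.e (nat_lit 5219) (nat_lit 296) (.e (nat_lit 163903) (nat_lit 12) (.e (nat_lit 426479) (nat_lit 27) .nil))))))) (.g (nat_lit 1) (.e (nat_lit 378124) (nat_lit 0) .nil) .nil))) 
(.lf (nat_lit 581407) (.g (nat_lit 2646) (.e (nat_lit 336453) (nat_lit 34) (.e (nat_lit 483365) (nat_lit 18) (.e (nat_lit 57847) (nat_lit 252) (.e (nat_lit 57372) (nat_lit 2) (.e (nat_lit 90160) (nat_lit 11) (.e (nat_lit 24636) (nat_lit 9) .nil)))))) (.g (nat_lit 1) (.e (nat_lit 378966) (nat_lit 0) .nil) .nil))))) (.nd (nat_lit 8) (.nd (nat_lit 9) 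
(.lf (nat_lit 580767) (.g (nat_lit 4095) (.e (nat_lit 336430) (nat_lit 29) (.e (nat_lit 442425) (nat_lit 23) (.e (nat_lit 204831) (nat_lit 18) (.e (nat_lit 57687) (nat_lit 156) (.e (nat_lit 163903) (nat_lit 12) (.e (nat_lit 426479) (nat_lit 27) .nil)))))) (.g (nat_lit 1) (.e (nat_lit 377905) (nat_lit 0) .nil) .nil))) 
(.lf (nat_lit 581279) (.g (nat_lit 2919) (.e (nat_lit 336443) (nat_lit 32) (.e (nat_lit 466972) (nat_lit 21) (.e (nat_lit 164330) (nat_lit 230) (.e (nat_lit 163878) (nat_lit 4) (.e (nat_lit 213030) (nat_lit 11) (.e (nat_lit 24629) (nat_lit 9) .nil)))))) (.g (nat_lit 1) (.e (nat_lit 378758) (nat_lit 0) .nil) .nil)))) (.nd (nat_lit 9) 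
(.lf (nat_lit 581023) (.g (nat_lit 1036) (.e (nat_lit 336442) (nat_lit 32) (.e (nat_lit 466969) (nat_lit 21) (.e (nat_lit 164345) (nat_lit 240) (.e (nat_lit 2639) (nat_lit 165) (.e (nat_lit 188160) (nat_lit 32) (.e (nat_lit 1471) (nat_lit 108) .nil)))))) (.g (nat_lit 1) (.e (nat_lit 378466) (nat_lit 0) .nil) .nil))) 
(.lf (nat_lit 581535) (.g (nat_lit 847) (.e (nat_lit 336454) (nat_lit 34) (.e (nat_lit 483383) (nat_lit 23) (.e (nat_lit 336325) (nat_lit 18) .nil))) (.g (nat_lit 0) (.e (nat_lit 379188) (nat_lit 0) .nil) .nil)))))) (.nd (nat_lit 7) (.nd (nat_lit 8) (.nd (nat_lit 9) 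
(.lf (nat_lit 580703) (.g (nat_lit 357) (.e (nat_lit 336429) (nat_lit 29) (.e (nat_lit 442419) (nat_lit 21) (.e (nat_lit 164346) (nat_lit 240) .nil))) (.g (nat_lit 0) (.e (nat_lit 377795) (nat_lit 0) .nil) .nil))) 
(.lf (nat_lit 581215) (.g (nat_lit 2648) (.e (nat_lit 336443) (nat_lit 32) (.e (nat_lit 466971) (nat_lit 21) (.e (nat_lit 164327) (nat_lit 230) (.e (nat_lit 163886) (nat_lit 5) (.e (nat_lit 221194) (nat_lit 11) (.e (nat_lit 336084) (nat_lit 9) .nil)))))) (.g (nat_lit 1) (.e (nat_lit 378693) (nat_lit 0) .nil) .nil)))) (.nd (nat_lit 9) 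
(.lf (nat_lit 580959) (.g (nat_lit 3019) (.e (nat_lit 336434) (nat_lit 30) (.e (nat_lit 450579) (nat_lit 5) (.e (nat_lit 532504) (nat_lit 1) (.e (nat_lit 57691) (nat_lit 156) (.e (nat_lit 163907) (nat_lit 12) (.e (nat_lit 426479) (nat_lit 27) .nil)))))) (.g (nat_lit 1) (.e (nat_lit 378262) (nat_lit 0) .nil) .nil))) 
(.lf (nat_lit 581471) (.g (nat_lit 3013) (.e (nat_lit 336454) (nat_lit 34) (.e (nat_lit 483365) (nat_lit 18) (.e (nat_lit 57849) (nat_lit 252) (.e (nat_lit 57374) (nat_lit 2) (.e (nat_lit 90160) (nat_lit 11) (.e (nat_lit 24627) (nat_lit 9) .nil)))))) (.g (nat_lit 1) (.e (nat_lit 379098) (nat_lit 0) .nil) .nil))))) (.nd (nat_lit 8) (.nd (nat_lit 9) 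
(.lf (nat_lit 580831) (.g (nat_lit 2269) (.e (nat_lit 336432) (nat_lit 30) (.e (nat_lit 450565) (nat_lit 0) (.e (nat_lit 5548) (nat_lit 306) (.e (nat_lit 2640) (nat_lit 165) (.e (nat_lit 180277) (nat_lit 32) (.e (nat_lit 1426) (nat_lit 108) .nil)))))) (.g (nat_lit 1) (.e (nat_lit 378031) (nat_lit 0) .nil) .nil))) 
(.lf (nat_lit 581343) (.g (nat_lit 516) (.e (nat_lit 336444) (nat_lit 32) (.e (nat_lit 466971) (nat_lit 21) (.e (nat_lit 164322) (nat_lit 230) .nil))) (.g (nat_lit 0) (.e (nat_lit 378834) (nat_lit 0) .nil) .nil)))) (.nd (nat_lit 9) 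
(.lf (nat_lit 581087) (.g (nat_lit 2717) (.e (nat_lit 336443) (nat_lit 32) (.e (nat_lit 466969) (nat_lit 21) (.e (nat_lit 164327) (nat_lit 230) (.e (nat_lit 163886) (nat_lit 5) (.e (nat_lit 221194) (nat_lit 11) (.e (nat_lit 336084) (nat_lit 9) .nil)))))) (.g (nat_lit 1) (.e (nat_lit 378565) (nat_lit 0) .nil) .nil))) 
(.lf (nat_lit 581599) (.g (nat_lit 828) (.e (nat_lit 336455) (nat_lit 34) (.e (nat_lit 483406) (nat_lit 26) (.e (nat_lit 385068) (nat_lit 26) .nil))) (.g (nat_lit 0) (.e (nat_lit 379293) (nat_lit 0) .nil) .nil))))))) (.nd (nat_lit 6) (.nd (nat_lit 7) (.nd (nat_lit 8) (.nd (nat_lit 9) 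
(.lf (nat_lit 580671) (.g (nat_lit 903) (.e (nat_lit 336426) (nat_lit 29) (.e (nat_lit 442421) (nat_lit 21) (.e (nat_lit 164348) (nat_lit 240) .nil))) (.g (nat_lit 0) (.e (nat_lit 377708) (nat_lit 0) .nil) .nil))) 
(.lf (nat_lit 581183) (.g (nat_lit 3034) (.e (nat_lit 336443) (nat_lit 32) (.e (nat_lit 466971) (nat_lit 21) (.e (nat_lit 164325) (nat_lit 230) (.e (nat_lit 163882) (nat_lit 4) (.e (nat_lit 213032) (nat_lit 11) (.e (nat_lit 24624) (nat_lit 9) .nil)))))) (.g (nat_lit 1) (.e (nat_lit 378661) (nat_lit 0) .nil) .nil)))) (.nd (nat_lit 9) 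
(.lf (nat_lit 580927) (.g (nat_lit 1257) (.e (nat_lit 336434) (nat_lit 30) (.e (nat_lit 450579) (nat_lit 5) (.e (nat_lit 532500) (nat_lit 1) (.e (nat_lit 57692) (nat_lit 156) .nil)))) (.g (nat_lit 0) (.e (nat_lit 378215) (nat_lit 0) .nil) .nil))) 
(.lf (nat_lit 581439) (.g (nat_lit 3254) (.e (nat_lit 336454) (nat_lit 34) (.e (nat_lit 483363) (nat_lit 18) (.e (nat_lit 57930) (nat_lit 282) (.e (nat_lit 163867) (nat_lit 2) (.e (nat_lit 196681) (nat_lit 17) (.e (nat_lit 131109) (nat_lit 9) .nil)))))) (.g (nat_lit 1) (.e (nat_lit 379059) (nat_lit 0) .nil) .nil))))) (.nd (nat_lit 8) (.nd (nat_lit 9) 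
(.lf (nat_lit 580799) (.g (nat_lit 1453) (.e (nat_lit 336431) (nat_lit 29) (.e (nat_lit 442427) (nat_lit 23) (.e (nat_lit 204809) (nat_lit 9) (.e (nat_lit 426099) (nat_lit 1) .nil)))) (.g (nat_lit 0) (.e (nat_lit 377953) (nat_lit 0) .nil) .nil))) 
(.lf (nat_lit 581311) (.g (nat_lit 3748) (.e (nat_lit 336443) (nat_lit 32) (.e (nat_lit 466972) (nat_lit 21) (.e (nat_lit 164332) (nat_lit 230) (.e (nat_lit 163885) (nat_lit 5) (.e (nat_lit 221194) (nat_lit 11) (.e (nat_lit 336084) (nat_lit 9) .nil)))))) (.g (nat_lit 1) (.e (nat_lit 378790) (nat_lit 0) .nil) .nil)))) (.nd (nat_lit 9) 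
(.lf (nat_lit 581055) (.g (nat_lit 2869) (.e (nat_lit 336443) (nat_lit 32) (.e (nat_lit 466969) (nat_lit 21) (.e (nat_lit 164325) (nat_lit 230) (.e (nat_lit 163882) (nat_lit 4) (.e (nat_lit 213030) (nat_lit 11) (.e (nat_lit 24629) (nat_lit 9) .nil)))))) (.g (nat_lit 1) (.e (nat_lit 378533) (nat_lit 0) .nil) .nil))) 
(.lf (nat_lit 581567) (.g (nat_lit 1234) (.e (nat_lit 336455) (nat_lit 34) (.e (nat_lit 483363) (nat_lit 18) (.e (nat_lit 57847) (nat_lit 252) (.e (nat_lit 57375) (nat_lit 2) .nil)))) (.g (nat_lit 0) (.e (nat_lit 379246) (nat_lit 0) .nil) .nil)))))) (.nd (nat_lit 7) (.nd (nat_lit 8) (.nd (nat_lit 9) 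
(.lf (nat_lit 580735) (.g (nat_lit 390) (.e (nat_lit 336430) (nat_lit 29) (.e (nat_lit 442419) (nat_lit 21) (.e (nat_lit 164348) (nat_lit 240) .nil))) (.g (nat_lit 0) (.e (nat_lit 377868) (nat_lit 0) .nil) .nil))) 
(.lf (nat_lit 581247) (.g (nat_lit 3684) (.e (nat_lit 336443) (nat_lit 32) (.e (nat_lit 466971) (nat_lit 21) (.e (nat_lit 164332) (nat_lit 230) (.e (nat_lit 163885) (nat_lit 5) (.e (nat_lit 221194) (nat_lit 11) (.e (nat_lit 336075) (nat_lit 9) .nil)))))) (.g (nat_lit 1) (.e (nat_lit 378725) (nat_lit 0) .nil) .nil)))) (.nd (nat_lit 9) 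
(.lf (nat_lit 580991) (.g (nat_lit 1969) (.e (nat_lit 336438) (nat_lit 31) (.e (nat_lit 458769) (nat_lit 16) (.e (nat_lit 164339) (nat_lit 232) (.e (nat_lit 446) (nat_lit 33) (.e (nat_lit 434181) (nat_lit 0) (.e (nat_lit 1427) (nat_lit 108) .nil)))))) (.g (nat_lit 1) (.e (nat_lit 378421) (nat_lit 0) .nil) .nil))) 
(.lf (nat_lit 581503) (.g (nat_lit 4205) (.e (nat_lit 336454) (nat_lit 34) (.e (nat_lit 483378) (nat_lit 23) (.e (nat_lit 336324) (nat_lit 18) (.e (nat_lit 204831) (nat_lit 18) (.e (nat_lit 57853) (nat_lit 252) .nil))))) (.g (nat_lit 0) (.e (nat_lit 379136) (nat_lit 0) .nil) .nil))))) (.nd (nat_lit 8) (.nd (nat_lit 9) 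
(.lf (nat_lit 580863) (.g (nat_lit 417) (.e (nat_lit 336432) (nat_lit 30) (.e (nat_lit 450580) (nat_lit 5) (.e (nat_lit 532503) (nat_lit 1) .nil))) (.g (nat_lit 0) (.e (nat_lit 378083) (nat_lit 0) .nil) .nil))) 
(.lf (nat_lit 581375) (.g (nat_lit 393) (.e (nat_lit 336452) (nat_lit 34) (.e (nat_lit 483382) (nat_lit 23) (.e (nat_lit 336324) (nat_lit 18) .nil))) (.g (nat_lit 0) (.e (nat_lit 378916) (nat_lit 0) .nil) .nil)))) (.nd (nat_lit 9) 
(.lf (nat_lit 581119) (.g (nat_lit 1905) (.e (nat_lit 336443) (nat_lit 32) (.e (nat_lit 466969) (nat_lit 21) (.e (nat_lit 164332) (nat_lit 230) (.e (nat_lit 163843) (nat_lit 0) (.e (nat_lit 3609) (nat_lit 226) .nil))))) (.g (nat_lit 0) (.e (nat_lit 378597) (nat_lit 0) .nil) .nil))) 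
(.lf (nat_lit 581631) (.g (nat_lit 434) (.e (nat_lit 336456) (nat_lit 34) (.e (nat_lit 483364) (nat_lit 18) (.e (nat_lit 57854) (nat_lit 252) .nil))) (.g (nat_lit 0) (.e (nat_lit 379328) (nat_lit 0) .nil) .nil)))))))))))))

noncomputable def tv5628 : DT := (.nd (nat_lit 0) (.nd (nat_lit 1) (.nd (nat_lit 2) (.nd (nat_lit 3) (.nd (nat_lit 4) (.nd (nat_lit 5) (.nd (nat_lit 6) (.nd (nat_lit 7) (.nd (nat_lit 8) (.nd (nat_lit 9) 
(.lf (nat_lit 581632) (.g (nat_lit 3311) (.e (nat_lit 336456) (nat_lit 34) (.e (nat_lit 483364) (nat_lit 18) (.e (nat_lit 57854) (nat_lit 252) (.e (nat_lit 57371) (nat_lit 2) (.e (nat_lit 90160) (nat_lit 11) (.e (nat_lit 24628) (nat_lit 9) .nil)))))) (.g (nat_lit 1) (.e (nat_lit 379329) (nat_lit 0) .nil) .nil))) 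
(.lf (nat_lit 582144) (.g (nat_lit 3544) (.e (nat_lit 344117) (nat_lit 21) (.e (nat_lit 516139) (nat_lit 7) (.e (nat_lit 409646) (nat_lit 18) (.e (nat_lit 303117) (nat_lit 2) (.e (nat_lit 196665) (nat_lit 13) (.e (nat_lit 65609) (nat_lit 10) .nil)))))) (.g (nat_lit 1) (.e (nat_lit 380836) (nat_lit 0) .nil) .nil)))) (.nd (nat_lit 9) 
(.lf (nat_lit 581888) (.g (nat_lit 265) (.e (nat_lit 344069) (nat_lit 0) (.e (nat_lit 3090) (nat_lit 191) (.e (nat_lit 483372) (nat_lit 21) .nil))) (.g (nat_lit 0) (.e (nat_lit 379866) (nat_lit 0) .nil) .nil))) 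
(.lf (nat_lit 582400) (.g (nat_lit 7122) (.e (nat_lit 344120) (nat_lit 21) (.e (nat_lit 516166) (nat_lit 12) (.e (nat_lit 450588) (nat_lit 10) (.e (nat_lit 573474) (nat_lit 12) .nil)))) (.g (nat_lit 0) (.e (nat_lit 381192) (nat_lit 0) .nil) .nil))))) (.nd (nat_lit 8) (.nd (nat_lit 9) 
(.lf (nat_lit 581760) (.g (nat_lit 1237) (.e (nat_lit 344068) (nat_lit 0) (.e (nat_lit 3090) (nat_lit 191) (.e (nat_lit 483350) (nat_lit 17) (.e (nat_lit 6113) (nat_lit 332) .nil)))) (.g (nat_lit 0) (.e (nat_lit 379651) (nat_lit 0) .nil) .nil))) 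
(.lf (nat_lit 582272) (.g (nat_lit 3839) (.e (nat_lit 344118) (nat_lit 21) (.e (nat_lit 516165) (nat_lit 12) (.e (nat_lit 450588) (nat_lit 10) (.e (nat_lit 573474) (nat_lit 12) .nil)))) (.g (nat_lit 0) (.e (nat_lit 381029) (nat_lit 0) .nil) .nil)))) (.nd (nat_lit 9) 
(.lf (nat_lit 582016) (.g (nat_lit 594) (.e (nat_lit 344116) (nat_lit 21) (.e (nat_lit 516119) (nat_lit 1) (.e (nat_lit 164179) (nat_lit 154) .nil))) (.g (nat_lit 0) (.e (nat_lit 380659) (nat_lit 0) .nil) .nil))) 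
(.lf (nat_lit 582528) (.g (nat_lit 4431) (.e (nat_lit 344129) (nat_lit 26) (.e (nat_lit 557074) (nat_lit 9) (.e (nat_lit 2739) (nat_lit 174) (.e (nat_lit 253959) (nat_lit 9) (.e (nat_lit 396) (nat_lit 32) (.e (nat_lit 426123) (nat_lit 2) (.e (nat_lit 196666) (nat_lit 13) (.e (nat_lit 65610) (nat_lit 10) .nil)))))))) (.g (nat_lit 1) (.e (nat_lit 381437) (nat_lit 0) .nil) .nil)))))) 
(.nd (nat_lit 7) (.nd (nat_lit 8) (.nd (nat_lit 9) 
(.lf (nat_lit 581696) (.g (nat_lit 350) (.e (nat_lit 343808) (nat_lit 35) (.e (nat_lit 491566) (nat_lit 12) (.e (nat_lit 392960) (nat_lit 24) .nil))) (.g (nat_lit 0) (.e (nat_lit 379470) (nat_lit 0) .nil) .nil))) 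
(.lf (nat_lit 582208) (.g (nat_lit 5511) (.e (nat_lit 344117) (nat_lit 21) (.e (nat_lit 516160) (nat_lit 10) (.e (nat_lit 434272) (nat_lit 38) (.e (nat_lit 655375) (nat_lit 3) (.e (nat_lit 163978) (nat_lit 30) (.e (nat_lit 573485) (nat_lit 13) (.e (nat_lit 65619) (nat_lit 10) .nil))))))) (.g (nat_lit 1) (.e (nat_lit 380909) (nat_lit 0) .nil) .nil)))) (.nd (nat_lit 9) 
(.lf (nat_lit 581952) (.g (nat_lit 794) (.e (nat_lit 352000) (nat_lit 7) (.e (nat_lit 237636) (nat_lit 27) (.e (nat_lit 336194) (nat_lit 12) (.e (nat_lit 385103) (nat_lit 50) .nil)))) (.g (nat_lit 0) (.e (nat_lit 380197) (nat_lit 0) .nil) .nil))) 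
(.lf (nat_lit 582464) (.g (nat_lit 3073) (.e (nat_lit 344138) (nat_lit 29) (.e (nat_lit 581653) (nat_lit 6) (.e (nat_lit 188439) (nat_lit 20) (.e (nat_lit 3579) (nat_lit 223) (.e (nat_lit 745491) (nat_lit 4) (.e (nat_lit 65610) (nat_lit 10) .nil)))))) (.g (nat_lit 1) (.e (nat_lit 381330) (nat_lit 0) .nil) .nil))))) (.nd (nat_lit 8) (.nd (nat_lit 9) 
(.lf (nat_lit 581824) (.g (nat_lit 2140) (.e (nat_lit 344068) (nat_lit 0) (.e (nat_lit 3090) (nat_lit 191) (.e (nat_lit 483383) (nat_lit 23) (.e (nat_lit 336240) (nat_lit 15) .nil)))) (.g (nat_lit 0) (.e (nat_lit 379732) (nat_lit 0) .nil) .nil))) 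
(.lf (nat_lit 582336) (.g (nat_lit 1367) (.e (nat_lit 344119) (nat_lit 21) (.e (nat_lit 516139) (nat_lit 7) (.e (nat_lit 409648) (nat_lit 18) (.e (nat_lit 303108) (nat_lit 0) .nil)))) (.g (nat_lit 0) (.e (nat_lit 381112) (nat_lit 0) .nil) .nil)))) (.nd (nat_lit 9) 
(.lf (nat_lit 582080) (.g (nat_lit 2491) (.e (nat_lit 344117) (nat_lit 21) (.e (nat_lit 516123) (nat_lit 2) (.e (nat_lit 213033) (nat_lit 12) (.e (nat_lit 163978) (nat_lit 30) (.e (nat_lit 573478) (nat_lit 12) (.e (nat_lit 57530) (nat_lit 46) (.e (nat_lit 704590) (nat_lit 3) (.e (nat_lit 163962) (nat_lit 25) (.e (nat_lit 532543) (nat_lit 10) .nil))))))))) (.g (nat_lit 1) (.e (nat_lit 380762) (nat_lit 0) .nil) .nil))) 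
(.lf (nat_lit 582592) (.g (nat_lit 3438) (.e (nat_lit 344129) (nat_lit 26) (.e (nat_lit 557103) (nat_lit 14) (.e (nat_lit 180250) (nat_lit 10) (.e (nat_lit 573475) (nat_lit 12) (.e (nat_lit 57506) (nat_lit 39) (.e (nat_lit 655104) (nat_lit 0) (.e (nat_lit 2684) (nat_lit 168) (.e (nat_lit 204863) (nat_lit 27) .nil)))))))) (.g (nat_lit 1) (.e (nat_lit 381510) (nat_lit 0) .nil) .nil))))))) 
(.nd (nat_lit 6) (.nd (nat_lit 7) (.nd (nat_lit 8) (.nd (nat_lit 9) 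
(.lf (nat_lit 581664) (.g (nat_lit 3926) (.e (nat_lit 336456) (nat_lit 34) (.e (nat_lit 483365) (nat_lit 18) (.e (nat_lit 57854) (nat_lit 252) (.e (nat_lit 57373) (nat_lit 2) (.e (nat_lit 90160) (nat_lit 11) (.e (nat_lit 24628) (nat_lit 9) .nil)))))) (.g (nat_lit 1) (.e (nat_lit 379363) (nat_lit 0) .nil) .nil))) 
(.lf (nat_lit 582176) (.g (nat_lit 3428) (.e (nat_lit 344117) (nat_lit 21) (.e (nat_lit 516139) (nat_lit 7) (.e (nat_lit 409649) (nat_lit 18) (.e (nat_lit 303119) (nat_lit 3) (.e (nat_lit 204858) (nat_lit 26) .nil))))) (.g (nat_lit 0) (.e (nat_lit 380868) (nat_lit 0) .nil) .nil)))) (.nd (nat_lit 9) 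
(.lf (nat_lit 581920) (.g (nat_lit 416) (.e (nat_lit 344069) (nat_lit 0) (.e (nat_lit 3090) (nat_lit 191) (.e (nat_lit 483410) (nat_lit 27) .nil))) (.g (nat_lit 0) (.e (nat_lit 379918) (nat_lit 0) .nil) .nil))) 
(.lf (nat_lit 582432) (.g (nat_lit 996) (.e (nat_lit 344138) (nat_lit 29) (.e (nat_lit 581653) (nat_lit 6) (.e (nat_lit 188428) (nat_lit 20) (.e (nat_lit 3571) (nat_lit 222) (.e (nat_lit 737282) (nat_lit 0) (.e (nat_lit 5272) (nat_lit 298) (.e (nat_lit 1538) (nat_lit 109) .nil))))))) (.g (nat_lit 1) (.e (nat_lit 381297) (nat_lit 0) .nil) .nil))))) (.nd (nat_lit 8) (.nd (nat_lit 9) 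
(.lf (nat_lit 581792) (.g (nat_lit 2033) (.e (nat_lit 344068) (nat_lit 0) (.e (nat_lit 3090) (nat_lit 191) (.e (nat_lit 483372) (nat_lit 21) (.e (nat_lit 319502) (nat_lit 10) .nil)))) (.g (nat_lit 0) (.e (nat_lit 379685) (nat_lit 0) .nil) .nil))) 
(.lf (nat_lit 582304) (.g (nat_lit 1107) (.e (nat_lit 344119) (nat_lit 21) (.e (nat_lit 516139) (nat_lit 7) (.e (nat_lit 409623) (nat_lit 10) (.e (nat_lit 5664) (nat_lit 312) .nil)))) (.g (nat_lit 0) (.e (nat_lit 381077) (nat_lit 0) .nil) .nil)))) (.nd (nat_lit 9) 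
(.lf (nat_lit 582048) (.g (nat_lit 3303) (.e (nat_lit 344117) (nat_lit 21) (.e (nat_lit 516106) (nat_lit 0) (.e (nat_lit 6986) (nat_lit 377) (.e (nat_lit 2819) (nat_lit 181) (.e (nat_lit 319232) (nat_lit 2) (.e (nat_lit 196666) (nat_lit 13) (.e (nat_lit 65610) (nat_lit 10) .nil))))))) (.g (nat_lit 1) (.e (nat_lit 380700) (nat_lit 0) .nil) .nil))) 
(.lf (nat_lit 582560) (.g (nat_lit 4550) (.e (nat_lit 344129) (nat_lit 26) (.e (nat_lit 557087) (nat_lit 11) (.e (nat_lit 24663) (nat_lit 14) (.e (nat_lit 401424) (nat_lit 2) (.e (nat_lit 196666) (nat_lit 13) (.e (nat_lit 65610) (nat_lit 10) .nil)))))) (.g (nat_lit 1) (.e (nat_lit 381473) (nat_lit 0) .nil) .nil)))))) (.nd (nat_lit 7) (.nd (nat_lit 8) (.nd (nat_lit 9) 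
(.lf (nat_lit 581728) (.g (nat_lit 1091) (.e (nat_lit 344068) (nat_lit 0) (.e (nat_lit 2855) (nat_lit 184) (.e (nat_lit 426533) (nat_lit 28) (.e (nat_lit 344066) (nat_lit 0) (.e (nat_lit 2941) (nat_lit 184) (.e (nat_lit 426532) (nat_lit 28) .nil)))))) (.g (nat_lit 1) (.e (nat_lit 379556) (nat_lit 0) .nil) .nil))) 
(.lf (nat_lit 582240) (.g (nat_lit 552) (.e (nat_lit 344118) (nat_lit 21) (.e (nat_lit 516117) (nat_lit 1) (.e (nat_lit 164226) (nat_lit 181) .nil))) (.g (nat_lit 0) (.e (nat_lit 380971) (nat_lit 0) .nil) .nil)))) (.nd (nat_lit 9) 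
(.lf (nat_lit 581984) (.g (nat_lit 1920) (.e (nat_lit 344099) (nat_lit 18) (.e (nat_lit 5905) (nat_lit 320) (.e (nat_lit 1209) (nat_lit 89) (.e (nat_lit 73782) (nat_lit 32) .nil)))) (.g (nat_lit 0) (.e (nat_lit 380520) (nat_lit 0) .nil) .nil))) 
(.lf (nat_lit 582496) (.g (nat_lit 2430) (.e (nat_lit 344127) (nat_lit 26) (.e (nat_lit 557090) (nat_lit 12) (.e (nat_lit 164020) (nat_lit 45) (.e (nat_lit 696329) (nat_lit 5) (.e (nat_lit 2842) (nat_lit 184) .nil))))) (.g (nat_lit 0) (.e (nat_lit 381374) (nat_lit 0) .nil) .nil))))) (.nd (nat_lit 8) (.nd (nat_lit 9) 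
(.lf (nat_lit 581856) (.g (nat_lit 1987) (.e (nat_lit 344069) (nat_lit 0) (.e (nat_lit 3090) (nat_lit 191) (.e (nat_lit 483344) (nat_lit 17) (.e (nat_lit 6718) (nat_lit 361) (.e (nat_lit 179968) (nat_lit 28) .nil))))) (.g (nat_lit 1) (.e (nat_lit 379832) (nat_lit 0) .nil) .nil))) 
(.lf (nat_lit 582368) (.g (nat_lit 2412) (.e (nat_lit 344119) (nat_lit 21) (.e (nat_lit 516158) (nat_lit 9) (.e (nat_lit 426306) (nat_lit 12) (.e (nat_lit 475177) (nat_lit 24) (.e (nat_lit 516131) (nat_lit 3) (.e (nat_lit 229120) (nat_lit 12) .nil)))))) (.g (nat_lit 1) (.e (nat_lit 381149) (nat_lit 0) .nil) .nil)))) (.nd (nat_lit 9) 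
(.lf (nat_lit 582112) (.g (nat_lit 4297) (.e (nat_lit 344117) (nat_lit 21) (.e (nat_lit 516138) (nat_lit 7) (.e (nat_lit 409649) (nat_lit 18) (.e (nat_lit 303117) (nat_lit 2) (.e (nat_lit 196666) (nat_lit 13) (.e (nat_lit 65610) (nat_lit 10) .nil)))))) (.g (nat_lit 1) (.e (nat_lit 380801) (nat_lit 0) .nil) .nil))) 
(.lf (nat_lit 582624) (.g (nat_lit 2933) (.e (nat_lit 344130) (nat_lit 26) (.e (nat_lit 557103) (nat_lit 14) (.e (nat_lit 180244) (nat_lit 5) (.e (nat_lit 532503) (nat_lit 1) (.e (nat_lit 57704) (nat_lit 164) (.e (nat_lit 2601) (nat_lit 163) (.e (nat_lit 163962) (nat_lit 25) (.e (nat_lit 532544) (nat_lit 10) .nil)))))))) (.g (nat_lit 1) (.e (nat_lit 381573) (nat_lit 0) .nil) .nil)))))))) 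
(.nd (nat_lit 5) (.nd (nat_lit 6) (.nd (nat_lit 7) (.nd (nat_lit 8) (.nd (nat_lit 9) 
(.lf (nat_lit 581648) (.g (nat_lit 3543) (.e (nat_lit 336456) (nat_lit 34) (.e (nat_lit 483365) (nat_lit 18) (.e (nat_lit 57846) (nat_lit 252) (.e (nat_lit 57373) (nat_lit 2) (.e (nat_lit 90158) (nat_lit 11) (.e (nat_lit 24630) (nat_lit 9) .nil)))))) (.g (nat_lit 1) (.e (nat_lit 379347) (nat_lit 0) .nil) .nil))) 
(.lf (nat_lit 582160) (.g (nat_lit 5724) (.e (nat_lit 344117) (nat_lit 21) (.e (nat_lit 516139) (nat_lit 7) (.e (nat_lit 409647) (nat_lit 18) (.e (nat_lit 303118) (nat_lit 3) (.e (nat_lit 204855) (nat_lit 26) (.e (nat_lit 336176) (nat_lit 10) .nil)))))) (.g (nat_lit 1) (.e (nat_lit 380852) (nat_lit 0) .nil) .nil)))) (.nd (nat_lit 9) 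
(.lf (nat_lit 581904) (.g (nat_lit 1868) (.e (nat_lit 344069) (nat_lit 0) (.e (nat_lit 3090) (nat_lit 191) (.e (nat_lit 483372) (nat_lit 21) (.e (nat_lit 319505) (nat_lit 10) (.e (nat_lit 5714) (nat_lit 312) (.e (nat_lit 7936) (nat_lit 22) .nil)))))) (.g (nat_lit 1) (.e (nat_lit 379884) (nat_lit 0) .nil) .nil))) 
(.lf (nat_lit 582416) (.g (nat_lit 1623) (.e (nat_lit 344138) (nat_lit 29) (.e (nat_lit 581651) (nat_lit 4) (.e (nat_lit 172079) (nat_lit 7) (.e (nat_lit 409611) (nat_lit 10) (.e (nat_lit 934) (nat_lit 76) (.e (nat_lit 786470) (nat_lit 27) (.e (nat_lit 336172) (nat_lit 10) .nil))))))) (.g (nat_lit 1) (.e (nat_lit 381274) (nat_lit 0) .nil) .nil))))) (.nd (nat_lit 8) (.nd (nat_lit 9) 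
(.lf (nat_lit 581776) (.g (nat_lit 1541) (.e (nat_lit 344068) (nat_lit 0) (.e (nat_lit 3090) (nat_lit 191) (.e (nat_lit 483350) (nat_lit 17) (.e (nat_lit 6632) (nat_lit 357) .nil)))) (.g (nat_lit 0) (.e (nat_lit 379668) (nat_lit 0) .nil) .nil))) 
(.lf (nat_lit 582288) (.g (nat_lit 1789) (.e (nat_lit 344118) (nat_lit 21) (.e (nat_lit 516182) (nat_lit 15) (.e (nat_lit 475199) (nat_lit 40) (.e (nat_lit 704589) (nat_lit 3) (.e (nat_lit 163976) (nat_lit 30) (.e (nat_lit 573481) (nat_lit 13) (.e (nat_lit 65609) (nat_lit 10) .nil))))))) (.g (nat_lit 1) (.e (nat_lit 381045) (nat_lit 0) .nil) .nil)))) (.nd (nat_lit 9) 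
(.lf (nat_lit 582032) (.g (nat_lit 1211) (.e (nat_lit 344116) (nat_lit 21) (.e (nat_lit 516151) (nat_lit 9) (.e (nat_lit 426412) (nat_lit 15) .nil))) (.g (nat_lit 0) (.e (nat_lit 380677) (nat_lit 0) .nil) .nil))) 
(.lf (nat_lit 582544) (.g (nat_lit 3856) (.e (nat_lit 344129) (nat_lit 26) (.e (nat_lit 557087) (nat_lit 11) (.e (nat_lit 24617) (nat_lit 7) (.e (nat_lit 319505) (nat_lit 10) (.e (nat_lit 7936) (nat_lit 45) (.e (nat_lit 532535) (nat_lit 9) (.e (nat_lit 336175) (nat_lit 10) .nil))))))) (.g (nat_lit 1) (.e (nat_lit 381457) (nat_lit 0) .nil) .nil)))))) 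
(.nd (nat_lit 7) (.nd (nat_lit 8) (.nd (nat_lit 9) 
(.lf (nat_lit 581712) (.g (nat_lit 2498) (.e (nat_lit 344067) (nat_lit 0) (.e (nat_lit 2936) (nat_lit 184) (.e (nat_lit 426163) (nat_lit 6) (.e (nat_lit 253991) (nat_lit 11) (.e (nat_lit 16431) (nat_lit 9) (.e (nat_lit 433920) (nat_lit 28) .nil)))))) (.g (nat_lit 1) (.e (nat_lit 379510) (nat_lit 0) .nil) .nil))) 
(.lf (nat_lit 582224) (.g (nat_lit 3074) (.e (nat_lit 344117) (nat_lit 21) (.e (nat_lit 516195) (nat_lit 26) (.e (nat_lit 335988) (nat_lit 1) (.e (nat_lit 57931) (nat_lit 282) (.e (nat_lit 163941) (nat_lit 19) (.e (nat_lit 483394) (nat_lit 24) .nil)))))) (.g (nat_lit 1) (.e (nat_lit 380935) (nat_lit 0) .nil) .nil)))) (.nd (nat_lit 9) 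
(.lf (nat_lit 581968) (.g (nat_lit 3604) (.e (nat_lit 344094) (nat_lit 18) (.e (nat_lit 4539) (nat_lit 267) (.e (nat_lit 163871) (nat_lit 2) (.e (nat_lit 196656) (nat_lit 11) (.e (nat_lit 16473) (nat_lit 14) (.e (nat_lit 499456) (nat_lit 27) (.e (nat_lit 426533) (nat_lit 28) .nil))))))) (.g (nat_lit 1) (.e (nat_lit 380415) (nat_lit 0) .nil) .nil))) 
(.lf (nat_lit 582480) (.g (nat_lit 2491) (.e (nat_lit 344138) (nat_lit 29) (.e (nat_lit 581653) (nat_lit 6) (.e (nat_lit 188441) (nat_lit 20) (.e (nat_lit 3579) (nat_lit 223) (.e (nat_lit 745491) (nat_lit 4) (.e (nat_lit 65616) (nat_lit 10) .nil)))))) (.g (nat_lit 1) (.e (nat_lit 381346) (nat_lit 0) .nil) .nil))))) (.nd (nat_lit 8) (.nd (nat_lit 9) 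
(.lf (nat_lit 581840) (.g (nat_lit 1590) (.e (nat_lit 344069) (nat_lit 0) (.e (nat_lit 2857) (nat_lit 184) (.e (nat_lit 426530) (nat_lit 27) (.e (nat_lit 335872) (nat_lit 0) (.e (nat_lit 6717) (nat_lit 361) (.e (nat_lit 179968) (nat_lit 28) .nil)))))) (.g (nat_lit 1) (.e (nat_lit 379788) (nat_lit 0) .nil) .nil))) 
(.lf (nat_lit 582352) (.g (nat_lit 2927) (.e (nat_lit 344119) (nat_lit 21) (.e (nat_lit 516139) (nat_lit 7) (.e (nat_lit 409649) (nat_lit 18) (.e (nat_lit 303117) (nat_lit 2) (.e (nat_lit 196665) (nat_lit 13) (.e (nat_lit 65612) (nat_lit 10) .nil)))))) (.g (nat_lit 1) (.e (nat_lit 381129) (nat_lit 0) .nil) .nil)))) (.nd (nat_lit 9) 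
(.lf (nat_lit 582096) (.g (nat_lit 3147) (.e (nat_lit 344117) (nat_lit 21) (.e (nat_lit 516138) (nat_lit 7) (.e (nat_lit 409645) (nat_lit 18) (.e (nat_lit 303112) (nat_lit 0) (.e (nat_lit 3252) (nat_lit 197) (.e (nat_lit 532536) (nat_lit 9) (.e (nat_lit 336177) (nat_lit 10) .nil))))))) (.g (nat_lit 1) (.e (nat_lit 380782) (nat_lit 0) .nil) .nil))) 
(.lf (nat_lit 582608) (.g (nat_lit 2508) (.e (nat_lit 344130) (nat_lit 26) (.e (nat_lit 557066) (nat_lit 9) (.e (nat_lit 232) (nat_lit 21) (.e (nat_lit 335907) (nat_lit 0) (.e (nat_lit 7936) (nat_lit 357) .nil))))) (.g (nat_lit 0) (.e (nat_lit 381531) (nat_lit 0) .nil) .nil))))))) (.nd (nat_lit 6) (.nd (nat_lit 7) (.nd (nat_lit 8) (.nd (nat_lit 9) 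
(.lf (nat_lit 581680) (.g (nat_lit 1842) (.e (nat_lit 336456) (nat_lit 34) (.e (nat_lit 483393) (nat_lit 23) (.e (nat_lit 336026) (nat_lit 3) (.e (nat_lit 98333) (nat_lit 18) (.e (nat_lit 164183) (nat_lit 154) .nil))))) (.g (nat_lit 0) (.e (nat_lit 379392) (nat_lit 0) .nil) .nil))) 
(.lf (nat_lit 582192) (.g (nat_lit 6716) (.e (nat_lit 344117) (nat_lit 21) (.e (nat_lit 516151) (nat_lit 9) (.e (nat_lit 426412) (nat_lit 15) (.e (nat_lit 2059) (nat_lit 142) (.e (nat_lit 704589) (nat_lit 3) (.e (nat_lit 163976) (nat_lit 30) (.e (nat_lit 573484) (nat_lit 13) (.e (nat_lit 65610) (nat_lit 10) .nil)))))))) (.g (nat_lit 1) (.e (nat_lit 380888) (nat_lit 0) .nil) .nil)))) 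
(.nd (nat_lit 9) 
(.lf (nat_lit 581936) (.g (nat_lit 1447) (.e (nat_lit 352000) (nat_lit 3) (.e (nat_lit 163977) (nat_lit 30) (.e (nat_lit 573489) (nat_lit 14) (.e (nat_lit 73767) (nat_lit 19) .nil)))) (.g (nat_lit 0) (.e (nat_lit 380086) (nat_lit 0) .nil) .nil))) 
(.lf (nat_lit 582448) (.g (nat_lit 2751) (.e (nat_lit 344138) (nat_lit 29) (.e (nat_lit 581653) (nat_lit 6) (.e (nat_lit 188434) (nat_lit 20) (.e (nat_lit 3579) (nat_lit 223) (.e (nat_lit 745491) (nat_lit 4) (.e (nat_lit 65616) (nat_lit 10) .nil)))))) (.g (nat_lit 1) (.e (nat_lit 381314) (nat_lit 0) .nil) .nil))))) (.nd (nat_lit 8) (.nd (nat_lit 9) 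
(.lf (nat_lit 581808) (.g (nat_lit 1941) (.e (nat_lit 344068) (nat_lit 0) (.e (nat_lit 3090) (nat_lit 191) (.e (nat_lit 483372) (nat_lit 21) (.e (nat_lit 319509) (nat_lit 10) .nil)))) (.g (nat_lit 0) (.e (nat_lit 379708) (nat_lit 0) .nil) .nil))) 
(.lf (nat_lit 582320) (.g (nat_lit 4055) (.e (nat_lit 344119) (nat_lit 21) (.e (nat_lit 516139) (nat_lit 7) (.e (nat_lit 409645) (nat_lit 18) (.e (nat_lit 303119) (nat_lit 3) (.e (nat_lit 204852) (nat_lit 26) (.e (nat_lit 336160) (nat_lit 10) .nil)))))) (.g (nat_lit 1) (.e (nat_lit 381094) (nat_lit 0) .nil) .nil)))) (.nd (nat_lit 9) 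
(.lf (nat_lit 582064) (.g (nat_lit 2187) (.e (nat_lit 344117) (nat_lit 21) (.e (nat_lit 516115) (nat_lit 1) (.e (nat_lit 164182) (nat_lit 154) (.e (nat_lit 57378) (nat_lit 3) (.e (nat_lit 98321) (nat_lit 17) .nil))))) (.g (nat_lit 0) (.e (nat_lit 380741) (nat_lit 0) .nil) .nil))) 
(.lf (nat_lit 582576) (.g (nat_lit 2662) (.e (nat_lit 344129) (nat_lit 26) (.e (nat_lit 557097) (nat_lit 13) (.e (nat_lit 172066) (nat_lit 3) (.e (nat_lit 204829) (nat_lit 18) (.e (nat_lit 57704) (nat_lit 164) (.e (nat_lit 2601) (nat_lit 163) (.e (nat_lit 163962) (nat_lit 25) (.e (nat_lit 532544) (nat_lit 10) .nil)))))))) (.g (nat_lit 1) (.e (nat_lit 381494) (nat_lit 0) .nil) .nil)))))) 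
(.nd (nat_lit 7) (.nd (nat_lit 8) (.nd (nat_lit 9) 
(.lf (nat_lit 581744) (.g (nat_lit 1672) (.e (nat_lit 344068) (nat_lit 0) (.e (nat_lit 3088) (nat_lit 191) (.e (nat_lit 483409) (nat_lit 27) (.e (nat_lit 401438) (nat_lit 9) (.e (nat_lit 426533) (nat_lit 28) .nil))))) (.g (nat_lit 0) (.e (nat_lit 379618) (nat_lit 0) .nil) .nil))) 
(.lf (nat_lit 582256) (.g (nat_lit 2077) (.e (nat_lit 344118) (nat_lit 21) (.e (nat_lit 516120) (nat_lit 1) (.e (nat_lit 164183) (nat_lit 154) (.e (nat_lit 57378) (nat_lit 3) (.e (nat_lit 98319) (nat_lit 17) .nil))))) (.g (nat_lit 0) (.e (nat_lit 381008) (nat_lit 0) .nil) .nil)))) (.nd (nat_lit 9) 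
(.lf (nat_lit 582000) (.g (nat_lit 2814) (.e (nat_lit 344100) (nat_lit 18) (.e (nat_lit 7270) (nat_lit 385) (.e (nat_lit 122919) (nat_lit 15) (.e (nat_lit 360489) (nat_lit 21) (.e (nat_lit 770071) (nat_lit 8) .nil))))) (.g (nat_lit 0) (.e (nat_lit 380543) (nat_lit 0) .nil) .nil))) 
(.lf (nat_lit 582512) (.g (nat_lit 4175) (.e (nat_lit 344129) (nat_lit 26) (.e (nat_lit 557065) (nat_lit 9) (.e (nat_lit 3098) (nat_lit 192) (.e (nat_lit 491571) (nat_lit 13) (.e (nat_lit 393251) (nat_lit 18) (.e (nat_lit 164182) (nat_lit 154) (.e (nat_lit 57420) (nat_lit 13) .nil))))))) (.g (nat_lit 1) (.e (nat_lit 381398) (nat_lit 0) .nil) .nil))))) (.nd (nat_lit 8) (.nd (nat_lit 9) 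
(.lf (nat_lit 581872) (.g (nat_lit 1602) (.e (nat_lit 344069) (nat_lit 0) (.e (nat_lit 3090) (nat_lit 191) (.e (nat_lit 483350) (nat_lit 17) (.e (nat_lit 6138) (nat_lit 332) .nil)))) (.g (nat_lit 0) (.e (nat_lit 379849) (nat_lit 0) .nil) .nil))) 
(.lf (nat_lit 582384) (.g (nat_lit 2317) (.e (nat_lit 344120) (nat_lit 21) (.e (nat_lit 516119) (nat_lit 1) (.e (nat_lit 164179) (nat_lit 154) (.e (nat_lit 57377) (nat_lit 3) (.e (nat_lit 98321) (nat_lit 17) .nil))))) (.g (nat_lit 0) (.e (nat_lit 381171) (nat_lit 0) .nil) .nil)))) (.nd (nat_lit 9) 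
(.lf (nat_lit 582128) (.g (nat_lit 5061) (.e (nat_lit 344117) (nat_lit 21) (.e (nat_lit 516139) (nat_lit 7) (.e (nat_lit 409645) (nat_lit 18) (.e (nat_lit 303116) (nat_lit 2) (.e (nat_lit 196666) (nat_lit 13) (.e (nat_lit 65610) (nat_lit 10) .nil)))))) (.g (nat_lit 1) (.e (nat_lit 380820) (nat_lit 0) .nil) .nil))) 
(.lf (nat_lit 582640) (.g (nat_lit 3049) (.e (nat_lit 344130) (nat_lit 26) (.e (nat_lit 557103) (nat_lit 14) (.e (nat_lit 180250) (nat_lit 10) (.e (nat_lit 573475) (nat_lit 12) (.e (nat_lit 57506) (nat_lit 39) (.e (nat_lit 655104) (nat_lit 0) (.e (nat_lit 2684) (nat_lit 168) (.e (nat_lit 204863) (nat_lit 27) .nil)))))))) (.g (nat_lit 1) (.e (nat_lit 381589) (nat_lit 0) .nil) .nil))))))))) 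
(.nd (nat_lit 4) (.nd (nat_lit 5) (.nd (nat_lit 6) (.nd (nat_lit 7) (.nd (nat_lit 8) 
(.nd (nat_lit 9) 
(.lf (nat_lit 581640) (.g (nat_lit 2146) (.e (nat_lit 336456) (nat_lit 34) (.e (nat_lit 483364) (nat_lit 18) (.e (nat_lit 57927) (nat_lit 282) (.e (nat_lit 163874) (nat_lit 3) (.e (nat_lit 204854) (nat_lit 26) (.e (nat_lit 336115) (nat_lit 9) .nil)))))) (.g (nat_lit 1) (.e (nat_lit 379339) (nat_lit 0) .nil) .nil))) 
(.lf (nat_lit 582152) (.g (nat_lit 4075) (.e (nat_lit 344117) (nat_lit 21) (.e (nat_lit 516139) (nat_lit 7) (.e (nat_lit 409646) (nat_lit 18) (.e (nat_lit 303119) (nat_lit 3) (.e (nat_lit 204855) (nat_lit 26) (.e (nat_lit 336176) (nat_lit 10) .nil)))))) (.g (nat_lit 1) (.e (nat_lit 380844) (nat_lit 0) .nil) .nil)))) (.nd (nat_lit 9) 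
(.lf (nat_lit 581896) (.g (nat_lit 2715) (.e (nat_lit 344069) (nat_lit 0) (.e (nat_lit 3090) (nat_lit 191) (.e (nat_lit 483372) (nat_lit 21) (.e (nat_lit 319502) (nat_lit 10) (.e (nat_lit 5720) (nat_lit 312) (.e (nat_lit 300) (nat_lit 22) .nil)))))) (.g (nat_lit 1) (.e (nat_lit 379874) (nat_lit 0) .nil) .nil))) 
(.lf (nat_lit 582408) (.g (nat_lit 3267) (.e (nat_lit 344121) (nat_lit 22) (.e (nat_lit 524322) (nat_lit 12) (.e (nat_lit 450588) (nat_lit 10) (.e (nat_lit 573473) (nat_lit 12) (.e (nat_lit 57354) (nat_lit 0) .nil))))) (.g (nat_lit 0) (.e (nat_lit 381202) (nat_lit 0) .nil) .nil))))) (.nd (nat_lit 8) (.nd (nat_lit 9) 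
(.lf (nat_lit 581768) (.g (nat_lit 1614) (.e (nat_lit 344068) (nat_lit 0) (.e (nat_lit 3090) (nat_lit 191) (.e (nat_lit 483350) (nat_lit 17) (.e (nat_lit 6210) (nat_lit 333) .nil)))) (.g (nat_lit 0) (.e (nat_lit 379660) (nat_lit 0) .nil) .nil))) 
(.lf (nat_lit 582280) (.g (nat_lit 5995) (.e (nat_lit 344118) (nat_lit 21) (.e (nat_lit 516166) (nat_lit 12) (.e (nat_lit 450588) (nat_lit 10) (.e (nat_lit 573478) (nat_lit 12) .nil)))) (.g (nat_lit 0) (.e (nat_lit 381037) (nat_lit 0) .nil) .nil)))) (.nd (nat_lit 9) 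
(.lf (nat_lit 582024) (.g (nat_lit 2614) (.e (nat_lit 344116) (nat_lit 21) (.e (nat_lit 516139) (nat_lit 7) (.e (nat_lit 409648) (nat_lit 18) (.e (nat_lit 303118) (nat_lit 3) (.e (nat_lit 204855) (nat_lit 26) .nil))))) (.g (nat_lit 0) (.e (nat_lit 380669) (nat_lit 0) .nil) .nil))) 
(.lf (nat_lit 582536) (.g (nat_lit 4441) (.e (nat_lit 344129) (nat_lit 26) (.e (nat_lit 557087) (nat_lit 11) (.e (nat_lit 24578) (nat_lit 0) (.e (nat_lit 6619) (nat_lit 357) (.e (nat_lit 2668) (nat_lit 167) (.e (nat_lit 196666) (nat_lit 13) (.e (nat_lit 65610) (nat_lit 10) .nil))))))) (.g (nat_lit 1) (.e (nat_lit 381449) (nat_lit 0) .nil) .nil)))))) 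
(.nd (nat_lit 7) (.nd (nat_lit 8) (.nd (nat_lit 9) 
(.lf (nat_lit 581704) (.g (nat_lit 1813) (.e (nat_lit 344066) (nat_lit 0) (.e (nat_lit 2939) (nat_lit 184) (.e (nat_lit 426532) (nat_lit 28) (.e (nat_lit 344068) (nat_lit 0) (.e (nat_lit 2857) (nat_lit 184) (.e (nat_lit 426533) (nat_lit 28) .nil)))))) (.g (nat_lit 1) (.e (nat_lit 379491) (nat_lit 0) .nil) .nil))) 
(.lf (nat_lit 582216) (.g (nat_lit 4993) (.e (nat_lit 344117) (nat_lit 21) (.e (nat_lit 516185) (nat_lit 16) (.e (nat_lit 491552) (nat_lit 9) (.e (nat_lit 336282) (nat_lit 15) (.e (nat_lit 3305) (nat_lit 202) (.e (nat_lit 573484) (nat_lit 13) (.e (nat_lit 65610) (nat_lit 10) .nil))))))) (.g (nat_lit 1) (.e (nat_lit 380918) (nat_lit 0) .nil) .nil)))) (.nd (nat_lit 9) 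
(.lf (nat_lit 581960) (.g (nat_lit 1625) (.e (nat_lit 344090) (nat_lit 18) (.e (nat_lit 7265) (nat_lit 384) (.e (nat_lit 57406) (nat_lit 12) (.e (nat_lit 336136) (nat_lit 9) (.e (nat_lit 336412) (nat_lit 27) .nil))))) (.g (nat_lit 0) (.e (nat_lit 380339) (nat_lit 0) .nil) .nil))) 
(.lf (nat_lit 582472) (.g (nat_lit 2647) (.e (nat_lit 344138) (nat_lit 29) (.e (nat_lit 581653) (nat_lit 6) (.e (nat_lit 188440) (nat_lit 20) (.e (nat_lit 3579) (nat_lit 223) (.e (nat_lit 745491) (nat_lit 4) (.e (nat_lit 65611) (nat_lit 10) .nil)))))) (.g (nat_lit 1) (.e (nat_lit 381338) (nat_lit 0) .nil) .nil))))) (.nd (nat_lit 8) (.nd (nat_lit 9) 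
(.lf (nat_lit 581832) (.g (nat_lit 2471) (.e (nat_lit 344068) (nat_lit 0) (.e (nat_lit 3090) (nat_lit 191) (.e (nat_lit 483411) (nat_lit 27) (.e (nat_lit 401444) (nat_lit 9) (.e (nat_lit 433920) (nat_lit 28) .nil))))) (.g (nat_lit 1) (.e (nat_lit 379754) (nat_lit 0) .nil) .nil))) 
(.lf (nat_lit 582344) (.g (nat_lit 2523) (.e (nat_lit 344119) (nat_lit 21) (.e (nat_lit 516139) (nat_lit 7) (.e (nat_lit 409648) (nat_lit 18) (.e (nat_lit 303118) (nat_lit 3) (.e (nat_lit 204855) (nat_lit 26) .nil))))) (.g (nat_lit 0) (.e (nat_lit 381120) (nat_lit 0) .nil) .nil)))) (.nd (nat_lit 9) 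
(.lf (nat_lit 582088) (.g (nat_lit 3375) (.e (nat_lit 344117) (nat_lit 21) (.e (nat_lit 516129) (nat_lit 3) (.e (nat_lit 221214) (nat_lit 23) (.e (nat_lit 204829) (nat_lit 18) (.e (nat_lit 57928) (nat_lit 282) (.e (nat_lit 163875) (nat_lit 3) (.e (nat_lit 204862) (nat_lit 27) .nil))))))) (.g (nat_lit 1) (.e (nat_lit 380770) (nat_lit 0) .nil) .nil))) 
(.lf (nat_lit 582600) (.g (nat_lit 3586) (.e (nat_lit 344129) (nat_lit 26) (.e (nat_lit 557104) (nat_lit 14) (.e (nat_lit 180252) (nat_lit 10) (.e (nat_lit 573474) (nat_lit 12) (.e (nat_lit 57511) (nat_lit 39) (.e (nat_lit 655104) (nat_lit 0) (.e (nat_lit 2684) (nat_lit 168) (.e (nat_lit 204863) (nat_lit 27) .nil)))))))) (.g (nat_lit 1) (.e (nat_lit 381518) (nat_lit 0) .nil) .nil))))))) 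
(.nd (nat_lit 6) (.nd (nat_lit 7) (.nd (nat_lit 8) (.nd (nat_lit 9) 
(.lf (nat_lit 581672) (.g (nat_lit 2313) (.e (nat_lit 336456) (nat_lit 34) (.e (nat_lit 483383) (nat_lit 23) (.e (nat_lit 336019) (nat_lit 3) (.e (nat_lit 98333) (nat_lit 18) (.e (nat_lit 164161) (nat_lit 152) .nil))))) (.g (nat_lit 0) (.e (nat_lit 379372) (nat_lit 0) .nil) .nil))) 
(.lf (nat_lit 582184) (.g (nat_lit 797) (.e (nat_lit 344117) (nat_lit 21) (.e (nat_lit 516150) (nat_lit 9) (.e (nat_lit 426469) (nat_lit 24) .nil))) (.g (nat_lit 0) (.e (nat_lit 380877) (nat_lit 0) .nil) .nil)))) (.nd (nat_lit 9) 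
(.lf (nat_lit 581928) (.g (nat_lit 2855) (.e (nat_lit 344069) (nat_lit 0) (.e (nat_lit 3090) (nat_lit 191) (.e (nat_lit 483411) (nat_lit 27) (.e (nat_lit 401444) (nat_lit 9) (.e (nat_lit 433920) (nat_lit 28) .nil))))) (.g (nat_lit 1) (.e (nat_lit 379928) (nat_lit 0) .nil) .nil))) 
(.lf (nat_lit 582440) (.g (nat_lit 2507) (.e (nat_lit 344138) (nat_lit 29) (.e (nat_lit 581653) (nat_lit 6) (.e (nat_lit 188431) (nat_lit 20) (.e (nat_lit 3572) (nat_lit 222) (.e (nat_lit 737300) (nat_lit 7) (.e (nat_lit 286754) (nat_lit 10) .nil)))))) (.g (nat_lit 1) (.e (nat_lit 381306) (nat_lit 0) .nil) .nil))))) (.nd (nat_lit 8) (.nd (nat_lit 9) 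
(.lf (nat_lit 581800) (.g (nat_lit 2905) (.e (nat_lit 344068) (nat_lit 0) (.e (nat_lit 3090) (nat_lit 191) (.e (nat_lit 483372) (nat_lit 21) (.e (nat_lit 319505) (nat_lit 10) (.e (nat_lit 5714) (nat_lit 312) (.e (nat_lit 299) (nat_lit 22) .nil)))))) (.g (nat_lit 1) (.e (nat_lit 379697) (nat_lit 0) .nil) .nil))) 
(.lf (nat_lit 582312) (.g (nat_lit 3214) (.e (nat_lit 344119) (nat_lit 21) (.e (nat_lit 516139) (nat_lit 7) (.e (nat_lit 409645) (nat_lit 18) (.e (nat_lit 303112) (nat_lit 0) (.e (nat_lit 3252) (nat_lit 197) (.e (nat_lit 532529) (nat_lit 9) (.e (nat_lit 336160) (nat_lit 10) .nil))))))) (.g (nat_lit 1) (.e (nat_lit 381086) (nat_lit 0) .nil) .nil)))) (.nd (nat_lit 9) 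
(.lf (nat_lit 582056) (.g (nat_lit 2582) (.e (nat_lit 344117) (nat_lit 21) (.e (nat_lit 516115) (nat_lit 1) (.e (nat_lit 164179) (nat_lit 154) (.e (nat_lit 57373) (nat_lit 2) (.e (nat_lit 90162) (nat_lit 12) .nil))))) (.g (nat_lit 0) (.e (nat_lit 380726) (nat_lit 0) .nil) .nil))) 
(.lf (nat_lit 582568) (.g (nat_lit 3047) (.e (nat_lit 344129) (nat_lit 26) (.e (nat_lit 557090) (nat_lit 12) (.e (nat_lit 163850) (nat_lit 0) (.e (nat_lit 6425) (nat_lit 342) (.e (nat_lit 229406) (nat_lit 12) (.e (nat_lit 426121) (nat_lit 2) (.e (nat_lit 196666) (nat_lit 13) (.e (nat_lit 65610) (nat_lit 10) .nil)))))))) (.g (nat_lit 1) (.e (nat_lit 381484) (nat_lit 0) .nil) .nil)))))) 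
(.nd (nat_lit 7) (.nd (nat_lit 8) (.nd (nat_lit 9) 
(.lf (nat_lit 581736) (.g (nat_lit 3327) (.e (nat_lit 344068) (nat_lit 0) (.e (nat_lit 2857) (nat_lit 184) (.e (nat_lit 426482) (nat_lit 27) (.e (nat_lit 336060) (nat_lit 7) (.e (nat_lit 319538) (nat_lit 19) (.e (nat_lit 311357) (nat_lit 28) .nil)))))) (.g (nat_lit 1) (.e (nat_lit 379576) (nat_lit 0) .nil) .nil))) 
(.lf (nat_lit 582248) (.g (nat_lit 2282) (.e (nat_lit 344118) (nat_lit 21) (.e (nat_lit 516120) (nat_lit 1) (.e (nat_lit 164181) (nat_lit 154) (.e (nat_lit 57375) (nat_lit 2) (.e (nat_lit 90181) (nat_lit 16) .nil))))) (.g (nat_lit 0) (.e (nat_lit 380988) (nat_lit 0) .nil) .nil)))) (.nd (nat_lit 9) 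
(.lf (nat_lit 581992) (.g (nat_lit 1843) (.e (nat_lit 344100) (nat_lit 18) (.e (nat_lit 5907) (nat_lit 320) (.e (nat_lit 1209) (nat_lit 89) (.e (nat_lit 73782) (nat_lit 32) (.e (nat_lit 3088) (nat_lit 191) .nil))))) (.g (nat_lit 0) (.e (nat_lit 380528) (nat_lit 0) .nil) .nil))) 
(.lf (nat_lit 582504) (.g (nat_lit 493) (.e (nat_lit 344127) (nat_lit 26) (.e (nat_lit 557104) (nat_lit 14) (.e (nat_lit 188160) (nat_lit 1) .nil))) (.g (nat_lit 0) (.e (nat_lit 381384) (nat_lit 0) .nil) .nil))))) (.nd (nat_lit 8) (.nd (nat_lit 9) 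
(.lf (nat_lit 581864) (.g (nat_lit 1595) (.e (nat_lit 344069) (nat_lit 0) (.e (nat_lit 3090) (nat_lit 191) (.e (nat_lit 483350) (nat_lit 17) (.e (nat_lit 6111) (nat_lit 332) .nil)))) (.g (nat_lit 0) (.e (nat_lit 379841) (nat_lit 0) .nil) .nil))) 
(.lf (nat_lit 582376) (.g (nat_lit 2523) (.e (nat_lit 344119) (nat_lit 21) (.e (nat_lit 516179) (nat_lit 15) (.e (nat_lit 475199) (nat_lit 40) (.e (nat_lit 704589) (nat_lit 3) (.e (nat_lit 163975) (nat_lit 30) (.e (nat_lit 573481) (nat_lit 13) (.e (nat_lit 65609) (nat_lit 10) .nil))))))) (.g (nat_lit 1) (.e (nat_lit 381157) (nat_lit 0) .nil) .nil)))) (.nd (nat_lit 9) 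
(.lf (nat_lit 582120) (.g (nat_lit 4022) (.e (nat_lit 344117) (nat_lit 21) (.e (nat_lit 516139) (nat_lit 7) (.e (nat_lit 409644) (nat_lit 18) (.e (nat_lit 303119) (nat_lit 3) (.e (nat_lit 204855) (nat_lit 26) (.e (nat_lit 336173) (nat_lit 10) .nil)))))) (.g (nat_lit 1) (.e (nat_lit 380812) (nat_lit 0) .nil) .nil))) 
(.lf (nat_lit 582632) (.g (nat_lit 2661) (.e (nat_lit 344130) (nat_lit 26) (.e (nat_lit 557103) (nat_lit 14) (.e (nat_lit 180250) (nat_lit 10) (.e (nat_lit 573474) (nat_lit 12) (.e (nat_lit 57507) (nat_lit 39) (.e (nat_lit 647176) (nat_lit 0) (.e (nat_lit 2681) (nat_lit 168) (.e (nat_lit 204862) (nat_lit 27) .nil)))))))) (.g (nat_lit 1) (.e (nat_lit 381581) (nat_lit 0) .nil) .nil)))))))) 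
(.nd (nat_lit 5) (.nd (nat_lit 6) (.nd (nat_lit 7) (.nd (nat_lit 8) (.nd (nat_lit 9) 
(.lf (nat_lit 581656) (.g (nat_lit 2020) (.e (nat_lit 336456) (nat_lit 34) (.e (nat_lit 483365) (nat_lit 18) (.e (nat_lit 57849) (nat_lit 252) (.e (nat_lit 57371) (nat_lit 2) .nil)))) (.g (nat_lit 0) (.e (nat_lit 379355) (nat_lit 0) .nil) .nil))) 
(.lf (nat_lit 582168) (.g (nat_lit 3548) (.e (nat_lit 344117) (nat_lit 21) (.e (nat_lit 516139) (nat_lit 7) (.e (nat_lit 409649) (nat_lit 18) (.e (nat_lit 303111) (nat_lit 0) (.e (nat_lit 3238) (nat_lit 197) (.e (nat_lit 532535) (nat_lit 9) (.e (nat_lit 336163) (nat_lit 10) .nil))))))) (.g (nat_lit 1) (.e (nat_lit 380860) (nat_lit 0) .nil) .nil)))) (.nd (nat_lit 9) 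
(.lf (nat_lit 581912) (.g (nat_lit 1952) (.e (nat_lit 344069) (nat_lit 0) (.e (nat_lit 3090) (nat_lit 191) (.e (nat_lit 483372) (nat_lit 21) (.e (nat_lit 319511) (nat_lit 10) (.e (nat_lit 5629) (nat_lit 312) (.e (nat_lit 7936) (nat_lit 22) .nil)))))) (.g (nat_lit 1) (.e (nat_lit 379900) (nat_lit 0) .nil) .nil))) 
(.lf (nat_lit 582424) (.g (nat_lit 1770) (.e (nat_lit 344138) (nat_lit 29) (.e (nat_lit 581651) (nat_lit 4) (.e (nat_lit 172113) (nat_lit 10) (.e (nat_lit 434295) (nat_lit 49) (.e (nat_lit 745491) (nat_lit 4) (.e (nat_lit 65620) (nat_lit 10) .nil)))))) (.g (nat_lit 1) (.e (nat_lit 381282) (nat_lit 0) .nil) .nil))))) (.nd (nat_lit 8) (.nd (nat_lit 9) 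
(.lf (nat_lit 581784) (.g (nat_lit 1857) (.e (nat_lit 344068) (nat_lit 0) (.e (nat_lit 3090) (nat_lit 191) (.e (nat_lit 483354) (nat_lit 17) (.e (nat_lit 6680) (nat_lit 357) (.e (nat_lit 2854) (nat_lit 184) (.e (nat_lit 426533) (nat_lit 28) .nil)))))) (.g (nat_lit 1) (.e (nat_lit 379676) (nat_lit 0) .nil) .nil))) 
(.lf (nat_lit 582296) (.g (nat_lit 805) (.e (nat_lit 344119) (nat_lit 21) (.e (nat_lit 516138) (nat_lit 7) (.e (nat_lit 409645) (nat_lit 18) .nil))) (.g (nat_lit 0) (.e (nat_lit 381060) (nat_lit 0) .nil) .nil)))) (.nd (nat_lit 9) 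
(.lf (nat_lit 582040) (.g (nat_lit 4160) (.e (nat_lit 344117) (nat_lit 21) (.e (nat_lit 516097) (nat_lit 0) (.e (nat_lit 7589) (nat_lit 406) (.e (nat_lit 65637) (nat_lit 15) (.e (nat_lit 3305) (nat_lit 202) (.e (nat_lit 573485) (nat_lit 13) (.e (nat_lit 65619) (nat_lit 10) .nil))))))) (.g (nat_lit 1) (.e (nat_lit 380688) (nat_lit 0) .nil) .nil))) 
(.lf (nat_lit 582552) (.g (nat_lit 4978) (.e (nat_lit 344129) (nat_lit 26) (.e (nat_lit 557087) (nat_lit 11) (.e (nat_lit 24661) (nat_lit 14) (.e (nat_lit 401425) (nat_lit 2) (.e (nat_lit 196666) (nat_lit 13) (.e (nat_lit 65610) (nat_lit 10) .nil)))))) (.g (nat_lit 1) (.e (nat_lit 381465) (nat_lit 0) .nil) .nil)))))) (.nd (nat_lit 7) (.nd (nat_lit 8) (.nd (nat_lit 9) 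
(.lf (nat_lit 581720) (.g (nat_lit 1073) (.e (nat_lit 344068) (nat_lit 0) (.e (nat_lit 2682) (nat_lit 168) (.e (nat_lit 204869) (nat_lit 29) (.e (nat_lit 360471) (nat_lit 7) .nil)))) (.g (nat_lit 0) (.e (nat_lit 379545) (nat_lit 0) .nil) .nil))) 
(.lf (nat_lit 582232) (.g (nat_lit 2685) (.e (nat_lit 344117) (nat_lit 21) (.e (nat_lit 516195) (nat_lit 26) (.e (nat_lit 336027) (nat_lit 3) (.e (nat_lit 98335) (nat_lit 18) (.e (nat_lit 171776) (nat_lit 162) .nil))))) (.g (nat_lit 0) (.e (nat_lit 380955) (nat_lit 0) .nil) .nil)))) (.nd (nat_lit 9) 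
(.lf (nat_lit 581976) (.g (nat_lit 2343) (.e (nat_lit 344097) (nat_lit 18) (.e (nat_lit 4716) (nat_lit 275) (.e (nat_lit 2610) (nat_lit 163) (.e (nat_lit 163977) (nat_lit 30) (.e (nat_lit 573482) (nat_lit 13) (.e (nat_lit 65619) (nat_lit 10) (.e (nat_lit 344129) (nat_lit 26) (.e (nat_lit 557066) (nat_lit 9) (.e (nat_lit 307) (nat_lit 22) .nil))))))))) (.g (nat_lit 1) (.e (nat_lit 380464) (nat_lit 0) .nil) .nil))) 
(.lf (nat_lit 582488) (.g (nat_lit 2999) (.e (nat_lit 344127) (nat_lit 26) (.e (nat_lit 557090) (nat_lit 12) (.e (nat_lit 163843) (nat_lit 0) (.e (nat_lit 6255) (nat_lit 337) (.e (nat_lit 2622) (nat_lit 164) (.e (nat_lit 172062) (nat_lit 2) (.e (nat_lit 196666) (nat_lit 13) (.e (nat_lit 65617) (nat_lit 10) .nil)))))))) (.g (nat_lit 1) (.e (nat_lit 381362) (nat_lit 0) .nil) .nil))))) 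
(.nd (nat_lit 8) (.nd (nat_lit 9) 
(.lf (nat_lit 581848) (.g (nat_lit 1518) (.e (nat_lit 344069) (nat_lit 0) (.e (nat_lit 3088) (nat_lit 191) (.e (nat_lit 483409) (nat_lit 27) (.e (nat_lit 401438) (nat_lit 9) (.e (nat_lit 426533) (nat_lit 28) .nil))))) (.g (nat_lit 0) (.e (nat_lit 379809) (nat_lit 0) .nil) .nil))) 
(.lf (nat_lit 582360) (.g (nat_lit 2396) (.e (nat_lit 344119) (nat_lit 21) (.e (nat_lit 516139) (nat_lit 7) (.e (nat_lit 409649) (nat_lit 18) (.e (nat_lit 303119) (nat_lit 3) (.e (nat_lit 204852) (nat_lit 26) .nil))))) (.g (nat_lit 0) (.e (nat_lit 381138) (nat_lit 0) .nil) .nil)))) (.nd (nat_lit 9) 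
(.lf (nat_lit 582104) (.g (nat_lit 2208) (.e (nat_lit 344117) (nat_lit 21) (.e (nat_lit 516138) (nat_lit 7) (.e (nat_lit 409646) (nat_lit 18) (.e (nat_lit 303117) (nat_lit 2) (.e (nat_lit 196665) (nat_lit 13) .nil))))) (.g (nat_lit 0) (.e (nat_lit 380791) (nat_lit 0) .nil) .nil))) 
(.lf (nat_lit 582616) (.g (nat_lit 4262) (.e (nat_lit 344130) (nat_lit 26) (.e (nat_lit 557090) (nat_lit 12) (.e (nat_lit 164022) (nat_lit 46) (.e (nat_lit 704629) (nat_lit 9) (.e (nat_lit 442) (nat_lit 33) (.e (nat_lit 434223) (nat_lit 19) (.e (nat_lit 500065) (nat_lit 18) (.e (nat_lit 65617) (nat_lit 10) .nil)))))))) (.g (nat_lit 1) (.e (nat_lit 381556) (nat_lit 0) .nil) .nil))))))) 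
(.nd (nat_lit 6) (.nd (nat_lit 7) (.nd (nat_lit 8) (.nd (nat_lit 9) 
(.lf (nat_lit 581688) (.g (nat_lit 1641) (.e (nat_lit 336456) (nat_lit 34) (.e (nat_lit 483398) (nat_lit 25) (.e (nat_lit 368676) (nat_lit 21) (.e (nat_lit 516117) (nat_lit 1) (.e (nat_lit 164181) (nat_lit 154) .nil))))) (.g (nat_lit 0) (.e (nat_lit 379405) (nat_lit 0) .nil) .nil))) 
(.lf (nat_lit 582200) (.g (nat_lit 4390) (.e (nat_lit 344117) (nat_lit 21) (.e (nat_lit 516159) (nat_lit 10) (.e (nat_lit 434263) (nat_lit 34) (.e (nat_lit 622625) (nat_lit 13) (.e (nat_lit 2663) (nat_lit 167) (.e (nat_lit 196666) (nat_lit 13) (.e (nat_lit 65610) (nat_lit 10) .nil))))))) (.g (nat_lit 1) (.e (nat_lit 380897) (nat_lit 0) .nil) .nil)))) (.nd (nat_lit 9) 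
(.lf (nat_lit 581944) (.g (nat_lit 1035) (.e (nat_lit 352000) (nat_lit 5) (.e (nat_lit 180271) (nat_lit 26) (.e (nat_lit 704629) (nat_lit 9) (.e (nat_lit 411) (nat_lit 32) .nil)))) (.g (nat_lit 0) (.e (nat_lit 380180) (nat_lit 0) .nil) .nil))) 
(.lf (nat_lit 582456) (.g (nat_lit 2362) (.e (nat_lit 344138) (nat_lit 29) (.e (nat_lit 581653) (nat_lit 6) (.e (nat_lit 188435) (nat_lit 20) (.e (nat_lit 3579) (nat_lit 223) (.e (nat_lit 745491) (nat_lit 4) (.e (nat_lit 65617) (nat_lit 10) .nil)))))) (.g (nat_lit 1) (.e (nat_lit 381322) (nat_lit 0) .nil) .nil))))) (.nd (nat_lit 8) (.nd (nat_lit 9) 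
(.lf (nat_lit 581816) (.g (nat_lit 1442) (.e (nat_lit 344068) (nat_lit 0) (.e (nat_lit 3090) (nat_lit 191) (.e (nat_lit 483372) (nat_lit 21) (.e (nat_lit 327424) (nat_lit 18) .nil)))) (.g (nat_lit 0) (.e (nat_lit 379718) (nat_lit 0) .nil) .nil))) 
(.lf (nat_lit 582328) (.g (nat_lit 2384) (.e (nat_lit 344119) (nat_lit 21) (.e (nat_lit 516139) (nat_lit 7) (.e (nat_lit 409646) (nat_lit 18) (.e (nat_lit 303119) (nat_lit 3) (.e (nat_lit 204852) (nat_lit 26) .nil))))) (.g (nat_lit 0) (.e (nat_lit 381102) (nat_lit 0) .nil) .nil)))) (.nd (nat_lit 9) 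
(.lf (nat_lit 582072) (.g (nat_lit 3169) (.e (nat_lit 344117) (nat_lit 21) (.e (nat_lit 516116) (nat_lit 1) (.e (nat_lit 164183) (nat_lit 154) (.e (nat_lit 57378) (nat_lit 3) (.e (nat_lit 98319) (nat_lit 17) (.e (nat_lit 3771) (nat_lit 229) (.e (nat_lit 794673) (nat_lit 23) (.e (nat_lit 204863) (nat_lit 27) .nil)))))))) (.g (nat_lit 1) (.e (nat_lit 380753) (nat_lit 0) .nil) .nil))) 
(.lf (nat_lit 582584) (.g (nat_lit 3130) (.e (nat_lit 344129) (nat_lit 26) (.e (nat_lit 557103) (nat_lit 14) (.e (nat_lit 180250) (nat_lit 10) (.e (nat_lit 573474) (nat_lit 12) (.e (nat_lit 57507) (nat_lit 39) (.e (nat_lit 647170) (nat_lit 0) (.e (nat_lit 2685) (nat_lit 168) (.e (nat_lit 204863) (nat_lit 27) .nil)))))))) (.g (nat_lit 1) (.e (nat_lit 381502) (nat_lit 0) .nil) .nil)))))) 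
(.nd (nat_lit 7) (.nd (nat_lit 8) (.nd (nat_lit 9) 
(.lf (nat_lit 581752) (.g (nat_lit 298) (.e (nat_lit 344068) (nat_lit 0) (.e (nat_lit 3090) (nat_lit 191) (.e (nat_lit 483350) (nat_lit 17) .nil))) (.g (nat_lit 0) (.e (nat_lit 379643) (nat_lit 0) .nil) .nil))) 
(.lf (nat_lit 582264) (.g (nat_lit 487) (.e (nat_lit 344118) (nat_lit 21) (.e (nat_lit 516139) (nat_lit 7) (.e (nat_lit 409647) (nat_lit 18) .nil))) (.g (nat_lit 0) (.e (nat_lit 381020) (nat_lit 0) .nil) .nil)))) (.nd (nat_lit 9) 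
(.lf (nat_lit 582008) (.g (nat_lit 2150) (.e (nat_lit 344110) (nat_lit 19) (.e (nat_lit 499900) (nat_lit 7) (.e (nat_lit 24604) (nat_lit 2) (.e (nat_lit 90158) (nat_lit 11) (.e (nat_lit 24607) (nat_lit 3) (.e (nat_lit 106240) (nat_lit 10) .nil)))))) (.g (nat_lit 1) (.e (nat_lit 380626) (nat_lit 0) .nil) .nil))) 
(.lf (nat_lit 582520) (.g (nat_lit 3208) (.e (nat_lit 344129) (nat_lit 26) (.e (nat_lit 557067) (nat_lit 9) (.e (nat_lit 2457) (nat_lit 157) (.e (nat_lit 3469) (nat_lit 217) (.e (nat_lit 696344) (nat_lit 8) (.e (nat_lit 172064) (nat_lit 2) (.e (nat_lit 196666) (nat_lit 13) (.e (nat_lit 65610) (nat_lit 10) .nil)))))))) (.g (nat_lit 1) (.e (nat_lit 381425) (nat_lit 0) .nil) .nil))))) 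
(.nd (nat_lit 8) (.nd (nat_lit 9) 
(.lf (nat_lit 581880) (.g (nat_lit 1584) (.e (nat_lit 344069) (nat_lit 0) (.e (nat_lit 3090) (nat_lit 191) (.e (nat_lit 483350) (nat_lit 17) (.e (nat_lit 6632) (nat_lit 357) .nil)))) (.g (nat_lit 0) (.e (nat_lit 379857) (nat_lit 0) .nil) .nil))) 
(.lf (nat_lit 582392) (.g (nat_lit 1301) (.e (nat_lit 344120) (nat_lit 21) (.e (nat_lit 516139) (nat_lit 7) (.e (nat_lit 409647) (nat_lit 18) (.e (nat_lit 303116) (nat_lit 2) .nil)))) (.g (nat_lit 0) (.e (nat_lit 381184) (nat_lit 0) .nil) .nil)))) (.nd (nat_lit 9) 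
(.lf (nat_lit 582136) (.g (nat_lit 4549) (.e (nat_lit 344117) (nat_lit 21) (.e (nat_lit 516139) (nat_lit 7) (.e (nat_lit 409645) (nat_lit 18) (.e (nat_lit 303119) (nat_lit 3) (.e (nat_lit 204855) (nat_lit 26) (.e (nat_lit 336178) (nat_lit 10) .nil)))))) (.g (nat_lit 1) (.e (nat_lit 380828) (nat_lit 0) .nil) .nil))) 
(.lf (nat_lit 582648) (.g (nat_lit 2764) (.e (nat_lit 344130) (nat_lit 26) (.e (nat_lit 557104) (nat_lit 14) (.e (nat_lit 180252) (nat_lit 10) (.e (nat_lit 573474) (nat_lit 12) (.e (nat_lit 57506) (nat_lit 39) (.e (nat_lit 647175) (nat_lit 0) (.e (nat_lit 2684) (nat_lit 168) (.e (nat_lit 204863) (nat_lit 27) .nil)))))))) (.g (nat_lit 1) (.e (nat_lit 381597) (nat_lit 0) .nil) .nil)))))))))) 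
(.nd (nat_lit 3) (.nd (nat_lit 4) (.nd (nat_lit 5) (.nd (nat_lit 6) (.nd (nat_lit 7) 
(.nd (nat_lit 8) (.nd (nat_lit 9) 
(.lf (nat_lit 581636) (.g (nat_lit 2755) (.e (nat_lit 336456) (nat_lit 34) (.e (nat_lit 483364) (nat_lit 18) (.e (nat_lit 57926) (nat_lit 282) (.e (nat_lit 163868) (nat_lit 2) (.e (nat_lit 196681) (nat_lit 17) (.e (nat_lit 131109) (nat_lit 9) .nil)))))) (.g (nat_lit 1) (.e (nat_lit 379333) (nat_lit 0) .nil) .nil))) 
(.lf (nat_lit 582148) (.g (nat_lit 3342) (.e (nat_lit 344117) (nat_lit 21) (.e (nat_lit 516139) (nat_lit 7) (.e (nat_lit 409646) (nat_lit 18) (.e (nat_lit 303119) (nat_lit 3) (.e (nat_lit 204850) (nat_lit 26) (.e (nat_lit 336177) (nat_lit 10) .nil)))))) (.g (nat_lit 1) (.e (nat_lit 380840) (nat_lit 0) .nil) .nil)))) (.nd (nat_lit 9) 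
(.lf (nat_lit 581892) (.g (nat_lit 2738) (.e (nat_lit 344069) (nat_lit 0) (.e (nat_lit 3090) (nat_lit 191) (.e (nat_lit 483372) (nat_lit 21) (.e (nat_lit 319499) (nat_lit 10) .nil)))) (.g (nat_lit 0) (.e (nat_lit 379870) (nat_lit 0) .nil) .nil))) 
(.lf (nat_lit 582404) (.g (nat_lit 2577) (.e (nat_lit 344120) (nat_lit 21) (.e (nat_lit 516179) (nat_lit 15) (.e (nat_lit 475199) (nat_lit 40) (.e (nat_lit 704589) (nat_lit 3) (.e (nat_lit 163979) (nat_lit 30) (.e (nat_lit 573482) (nat_lit 13) (.e (nat_lit 65616) (nat_lit 10) .nil))))))) (.g (nat_lit 1) (.e (nat_lit 381196) (nat_lit 0) .nil) .nil))))) (.nd (nat_lit 8) (.nd (nat_lit 9) 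
(.lf (nat_lit 581764) (.g (nat_lit 1551) (.e (nat_lit 344068) (nat_lit 0) (.e (nat_lit 3090) (nat_lit 191) (.e (nat_lit 483350) (nat_lit 17) (.e (nat_lit 6132) (nat_lit 332) .nil)))) (.g (nat_lit 0) (.e (nat_lit 379656) (nat_lit 0) .nil) .nil))) 
(.lf (nat_lit 582276) (.g (nat_lit 4949) (.e (nat_lit 344118) (nat_lit 21) (.e (nat_lit 516166) (nat_lit 12) (.e (nat_lit 450588) (nat_lit 10) (.e (nat_lit 573473) (nat_lit 12) (.e (nat_lit 57354) (nat_lit 0) (.e (nat_lit 7273) (nat_lit 385) (.e (nat_lit 122913) (nat_lit 13) .nil))))))) (.g (nat_lit 1) (.e (nat_lit 381033) (nat_lit 0) .nil) .nil)))) (.nd (nat_lit 9) 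
(.lf (nat_lit 582020) (.g (nat_lit 2864) (.e (nat_lit 344116) (nat_lit 21) (.e (nat_lit 516138) (nat_lit 7) (.e (nat_lit 409646) (nat_lit 18) (.e (nat_lit 303112) (nat_lit 0) (.e (nat_lit 3252) (nat_lit 197) .nil))))) (.g (nat_lit 0) (.e (nat_lit 380663) (nat_lit 0) .nil) .nil))) 
(.lf (nat_lit 582532) (.g (nat_lit 3724) (.e (nat_lit 344129) (nat_lit 26) (.e (nat_lit 557086) (nat_lit 11) (.e (nat_lit 24628) (nat_lit 9) (.e (nat_lit 336240) (nat_lit 15) (.e (nat_lit 3309) (nat_lit 202) (.e (nat_lit 573485) (nat_lit 13) (.e (nat_lit 65619) (nat_lit 10) .nil))))))) (.g (nat_lit 1) (.e (nat_lit 381445) (nat_lit 0) .nil) .nil)))))) 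
(.nd (nat_lit 7) (.nd (nat_lit 8) (.nd (nat_lit 9) 
(.lf (nat_lit 581700) (.g (nat_lit 1899) (.e (nat_lit 344066) (nat_lit 0) (.e (nat_lit 2936) (nat_lit 184) (.e (nat_lit 426163) (nat_lit 6) (.e (nat_lit 253991) (nat_lit 11) (.e (nat_lit 24320) (nat_lit 9) (.e (nat_lit 426533) (nat_lit 28) .nil)))))) (.g (nat_lit 1) (.e (nat_lit 379486) (nat_lit 0) .nil) .nil))) 
(.lf (nat_lit 582212) (.g (nat_lit 4553) (.e (nat_lit 344117) (nat_lit 21) (.e (nat_lit 516179) (nat_lit 15) (.e (nat_lit 475199) (nat_lit 40) (.e (nat_lit 704589) (nat_lit 3) (.e (nat_lit 163979) (nat_lit 30) (.e (nat_lit 573482) (nat_lit 13) (.e (nat_lit 65609) (nat_lit 10) .nil))))))) (.g (nat_lit 1) (.e (nat_lit 380913) (nat_lit 0) .nil) .nil)))) (.nd (nat_lit 9) 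
(.lf (nat_lit 581956) (.g (nat_lit 1857) (.e (nat_lit 344081) (nat_lit 13) (.e (nat_lit 1140) (nat_lit 84) (.e (nat_lit 32787) (nat_lit 9) (.e (nat_lit 65586) (nat_lit 7) (.e (nat_lit 319504) (nat_lit 10) (.e (nat_lit 7936) (nat_lit 45) (.e (nat_lit 532544) (nat_lit 10) .nil))))))) (.g (nat_lit 1) (.e (nat_lit 380263) (nat_lit 0) .nil) .nil))) 
(.lf (nat_lit 582468) (.g (nat_lit 1062) (.e (nat_lit 344138) (nat_lit 29) (.e (nat_lit 581653) (nat_lit 6) (.e (nat_lit 188440) (nat_lit 20) (.e (nat_lit 3577) (nat_lit 223) .nil)))) (.g (nat_lit 0) (.e (nat_lit 381334) (nat_lit 0) .nil) .nil))))) (.nd (nat_lit 8) (.nd (nat_lit 9) 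
(.lf (nat_lit 581828) (.g (nat_lit 2430) (.e (nat_lit 344068) (nat_lit 0) (.e (nat_lit 3090) (nat_lit 191) (.e (nat_lit 483410) (nat_lit 27) (.e (nat_lit 401436) (nat_lit 9) (.e (nat_lit 426533) (nat_lit 28) .nil))))) (.g (nat_lit 1) (.e (nat_lit 379750) (nat_lit 0) .nil) .nil))) 
(.lf (nat_lit 582340) (.g (nat_lit 2502) (.e (nat_lit 344119) (nat_lit 21) (.e (nat_lit 516139) (nat_lit 7) (.e (nat_lit 409648) (nat_lit 18) (.e (nat_lit 303117) (nat_lit 2) (.e (nat_lit 196665) (nat_lit 13) .nil))))) (.g (nat_lit 0) (.e (nat_lit 381116) (nat_lit 0) .nil) .nil)))) (.nd (nat_lit 9) 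
(.lf (nat_lit 582084) (.g (nat_lit 3277) (.e (nat_lit 344117) (nat_lit 21) (.e (nat_lit 516129) (nat_lit 3) (.e (nat_lit 221213) (nat_lit 23) (.e (nat_lit 204830) (nat_lit 18) (.e (nat_lit 57926) (nat_lit 282) (.e (nat_lit 163875) (nat_lit 3) (.e (nat_lit 204862) (nat_lit 27) .nil))))))) (.g (nat_lit 1) (.e (nat_lit 380766) (nat_lit 0) .nil) .nil))) 
(.lf (nat_lit 582596) (.g (nat_lit 3690) (.e (nat_lit 344129) (nat_lit 26) (.e (nat_lit 557104) (nat_lit 14) (.e (nat_lit 180252) (nat_lit 10) (.e (nat_lit 573474) (nat_lit 12) (.e (nat_lit 57505) (nat_lit 39) (.e (nat_lit 655104) (nat_lit 0) (.e (nat_lit 2684) (nat_lit 168) (.e (nat_lit 204863) (nat_lit 27) .nil)))))))) (.g (nat_lit 1) (.e (nat_lit 381514) (nat_lit 0) .nil) .nil))))))) 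
(.nd (nat_lit 6) (.nd (nat_lit 7) (.nd (nat_lit 8) (.nd (nat_lit 9) 
(.lf (nat_lit 581668) (.g (nat_lit 3717) (.e (nat_lit 336456) (nat_lit 34) (.e (nat_lit 483378) (nat_lit 23) (.e (nat_lit 336324) (nat_lit 18) (.e (nat_lit 204831) (nat_lit 18) (.e (nat_lit 57847) (nat_lit 252) (.e (nat_lit 57407) (nat_lit 12) .nil)))))) (.g (nat_lit 1) (.e (nat_lit 379368) (nat_lit 0) .nil) .nil))) 
(.lf (nat_lit 582180) (.g (nat_lit 2461) (.e (nat_lit 344117) (nat_lit 21) (.e (nat_lit 516142) (nat_lit 8) (.e (nat_lit 417828) (nat_lit 18) (.e (nat_lit 303118) (nat_lit 3) (.e (nat_lit 204855) (nat_lit 26) .nil))))) (.g (nat_lit 0) (.e (nat_lit 380873) (nat_lit 0) .nil) .nil)))) (.nd (nat_lit 9) 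
(.lf (nat_lit 581924) (.g (nat_lit 396) (.e (nat_lit 344069) (nat_lit 0) (.e (nat_lit 3090) (nat_lit 191) (.e (nat_lit 483411) (nat_lit 27) .nil))) (.g (nat_lit 0) (.e (nat_lit 379922) (nat_lit 0) .nil) .nil))) 
(.lf (nat_lit 582436) (.g (nat_lit 1834) (.e (nat_lit 344138) (nat_lit 29) (.e (nat_lit 581653) (nat_lit 6) (.e (nat_lit 188428) (nat_lit 20) (.e (nat_lit 3572) (nat_lit 222) (.e (nat_lit 737300) (nat_lit 7) (.e (nat_lit 286756) (nat_lit 10) .nil)))))) (.g (nat_lit 1) (.e (nat_lit 381301) (nat_lit 0) .nil) .nil))))) (.nd (nat_lit 8) (.nd (nat_lit 9) 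
(.lf (nat_lit 581796) (.g (nat_lit 1870) (.e (nat_lit 344068) (nat_lit 0) (.e (nat_lit 3090) (nat_lit 191) (.e (nat_lit 483372) (nat_lit 21) (.e (nat_lit 319505) (nat_lit 10) (.e (nat_lit 5688) (nat_lit 312) .nil))))) (.g (nat_lit 0) (.e (nat_lit 379693) (nat_lit 0) .nil) .nil))) 
(.lf (nat_lit 582308) (.g (nat_lit 2588) (.e (nat_lit 344119) (nat_lit 21) (.e (nat_lit 516139) (nat_lit 7) (.e (nat_lit 409644) (nat_lit 18) (.e (nat_lit 303119) (nat_lit 3) (.e (nat_lit 204852) (nat_lit 26) .nil))))) (.g (nat_lit 0) (.e (nat_lit 381082) (nat_lit 0) .nil) .nil)))) (.nd (nat_lit 9) 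
(.lf (nat_lit 582052) (.g (nat_lit 3299) (.e (nat_lit 344117) (nat_lit 21) (.e (nat_lit 516115) (nat_lit 1) (.e (nat_lit 164177) (nat_lit 154) (.e (nat_lit 57371) (nat_lit 2) (.e (nat_lit 90128) (nat_lit 9) (.e (nat_lit 2706) (nat_lit 170) (.e (nat_lit 221215) (nat_lit 23) (.e (nat_lit 204862) (nat_lit 27) .nil)))))))) (.g (nat_lit 1) (.e (nat_lit 380705) (nat_lit 0) .nil) .nil))) 
(.lf (nat_lit 582564) (.g (nat_lit 2940) (.e (nat_lit 344129) (nat_lit 26) (.e (nat_lit 557090) (nat_lit 12) (.e (nat_lit 163850) (nat_lit 0) (.e (nat_lit 6425) (nat_lit 342) (.e (nat_lit 229401) (nat_lit 12) .nil))))) (.g (nat_lit 0) (.e (nat_lit 381480) (nat_lit 0) .nil) .nil)))))) (.nd (nat_lit 7) (.nd (nat_lit 8) (.nd (nat_lit 9) 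
(.lf (nat_lit 581732) (.g (nat_lit 333) (.e (nat_lit 344068) (nat_lit 0) (.e (nat_lit 2856) (nat_lit 184) (.e (nat_lit 426542) (nat_lit 29) .nil))) (.g (nat_lit 0) (.e (nat_lit 379566) (nat_lit 0) .nil) .nil))) 
(.lf (nat_lit 582244) (.g (nat_lit 2582) (.e (nat_lit 344118) (nat_lit 21) (.e (nat_lit 516119) (nat_lit 1) (.e (nat_lit 164179) (nat_lit 154) (.e (nat_lit 57378) (nat_lit 3) (.e (nat_lit 98321) (nat_lit 17) .nil))))) (.g (nat_lit 0) (.e (nat_lit 380981) (nat_lit 0) .nil) .nil)))) (.nd (nat_lit 9) 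
(.lf (nat_lit 581988) (.g (nat_lit 453) (.e (nat_lit 344100) (nat_lit 18) (.e (nat_lit 5905) (nat_lit 320) (.e (nat_lit 1211) (nat_lit 89) .nil))) (.g (nat_lit 0) (.e (nat_lit 380524) (nat_lit 0) .nil) .nil))) 
(.lf (nat_lit 582500) (.g (nat_lit 3918) (.e (nat_lit 344127) (nat_lit 26) (.e (nat_lit 557090) (nat_lit 12) (.e (nat_lit 164022) (nat_lit 46) (.e (nat_lit 704629) (nat_lit 9) (.e (nat_lit 411) (nat_lit 32) (.e (nat_lit 426125) (nat_lit 2) (.e (nat_lit 196666) (nat_lit 13) (.e (nat_lit 65617) (nat_lit 10) .nil)))))))) (.g (nat_lit 1) (.e (nat_lit 381378) (nat_lit 0) .nil) .nil))))) 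
(.nd (nat_lit 8) (.nd (nat_lit 9) 
(.lf (nat_lit 581860) (.g (nat_lit 1803) (.e (nat_lit 344069) (nat_lit 0) (.e (nat_lit 3090) (nat_lit 191) (.e (nat_lit 483350) (nat_lit 17) (.e (nat_lit 6092) (nat_lit 332) (.e (nat_lit 1386) (nat_lit 105) .nil))))) (.g (nat_lit 0) (.e (nat_lit 379836) (nat_lit 0) .nil) .nil))) 
(.lf (nat_lit 582372) (.g (nat_lit 2586) (.e (nat_lit 344119) (nat_lit 21) (.e (nat_lit 516179) (nat_lit 15) (.e (nat_lit 475198) (nat_lit 40) (.e (nat_lit 704589) (nat_lit 3) (.e (nat_lit 163976) (nat_lit 30) (.e (nat_lit 573481) (nat_lit 13) (.e (nat_lit 65613) (nat_lit 10) .nil))))))) (.g (nat_lit 1) (.e (nat_lit 381153) (nat_lit 0) .nil) .nil)))) (.nd (nat_lit 9) 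
(.lf (nat_lit 582116) (.g (nat_lit 3551) (.e (nat_lit 344117) (nat_lit 21) (.e (nat_lit 516139) (nat_lit 7) (.e (nat_lit 409643) (nat_lit 18) (.e (nat_lit 303118) (nat_lit 3) (.e (nat_lit 204855) (nat_lit 26) (.e (nat_lit 336178) (nat_lit 10) .nil)))))) (.g (nat_lit 1) (.e (nat_lit 380808) (nat_lit 0) .nil) .nil))) 
(.lf (nat_lit 582628) (.g (nat_lit 2438) (.e (nat_lit 344130) (nat_lit 26) (.e (nat_lit 557103) (nat_lit 14) (.e (nat_lit 180250) (nat_lit 10) (.e (nat_lit 573474) (nat_lit 12) (.e (nat_lit 57355) (nat_lit 0) .nil))))) (.g (nat_lit 0) (.e (nat_lit 381577) (nat_lit 0) .nil) .nil)))))))) (.nd (nat_lit 5) (.nd (nat_lit 6) (.nd (nat_lit 7) (.nd (nat_lit 8) (.nd (nat_lit 9) 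
(.lf (nat_lit 581652) (.g (nat_lit 3261) (.e (nat_lit 336456) (nat_lit 34) (.e (nat_lit 483365) (nat_lit 18) (.e (nat_lit 57847) (nat_lit 252) (.e (nat_lit 57375) (nat_lit 2) (.e (nat_lit 90160) (nat_lit 11) (.e (nat_lit 24624) (nat_lit 9) .nil)))))) (.g (nat_lit 1) (.e (nat_lit 379351) (nat_lit 0) .nil) .nil))) 
(.lf (nat_lit 582164) (.g (nat_lit 5148) (.e (nat_lit 344117) (nat_lit 21) (.e (nat_lit 516139) (nat_lit 7) (.e (nat_lit 409648) (nat_lit 18) (.e (nat_lit 303117) (nat_lit 2) (.e (nat_lit 196666) (nat_lit 13) (.e (nat_lit 65610) (nat_lit 10) .nil)))))) (.g (nat_lit 1) (.e (nat_lit 380856) (nat_lit 0) .nil) .nil)))) (.nd (nat_lit 9) 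
(.lf (nat_lit 581908) (.g (nat_lit 2153) (.e (nat_lit 344069) (nat_lit 0) (.e (nat_lit 3090) (nat_lit 191) (.e (nat_lit 483372) (nat_lit 21) (.e (nat_lit 319508) (nat_lit 10) .nil)))) (.g (nat_lit 0) (.e (nat_lit 379893) (nat_lit 0) .nil) .nil))) 
(.lf (nat_lit 582420) (.g (nat_lit 1831) (.e (nat_lit 344138) (nat_lit 29) (.e (nat_lit 581651) (nat_lit 4) (.e (nat_lit 172106) (nat_lit 10) (.e (nat_lit 434295) (nat_lit 49) (.e (nat_lit 745491) (nat_lit 4) (.e (nat_lit 65620) (nat_lit 10) .nil)))))) (.g (nat_lit 1) (.e (nat_lit 381278) (nat_lit 0) .nil) .nil))))) (.nd (nat_lit 8) (.nd (nat_lit 9) 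
(.lf (nat_lit 581780) (.g (nat_lit 1687) (.e (nat_lit 344068) (nat_lit 0) (.e (nat_lit 3090) (nat_lit 191) (.e (nat_lit 483354) (nat_lit 17) (.e (nat_lit 6136) (nat_lit 332) (.e (nat_lit 1385) (nat_lit 105) (.e (nat_lit 311357) (nat_lit 28) .nil)))))) (.g (nat_lit 1) (.e (nat_lit 379672) (nat_lit 0) .nil) .nil))) 
(.lf (nat_lit 582292) (.g (nat_lit 456) (.e (nat_lit 344119) (nat_lit 21) (.e (nat_lit 516119) (nat_lit 1) (.e (nat_lit 164179) (nat_lit 154) .nil))) (.g (nat_lit 0) (.e (nat_lit 381054) (nat_lit 0) .nil) .nil)))) (.nd (nat_lit 9) 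
(.lf (nat_lit 582036) (.g (nat_lit 1423) (.e (nat_lit 344116) (nat_lit 21) (.e (nat_lit 516182) (nat_lit 15) (.e (nat_lit 475198) (nat_lit 40) (.e (nat_lit 704589) (nat_lit 3) (.e (nat_lit 163976) (nat_lit 30) (.e (nat_lit 573481) (nat_lit 13) (.e (nat_lit 65613) (nat_lit 10) .nil))))))) (.g (nat_lit 1) (.e (nat_lit 380682) (nat_lit 0) .nil) .nil))) 
(.lf (nat_lit 582548) (.g (nat_lit 4223) (.e (nat_lit 344129) (nat_lit 26) (.e (nat_lit 557087) (nat_lit 11) (.e (nat_lit 24633) (nat_lit 9) (.e (nat_lit 336295) (nat_lit 15) (.e (nat_lit 3305) (nat_lit 202) (.e (nat_lit 573485) (nat_lit 13) (.e (nat_lit 65619) (nat_lit 10) .nil))))))) (.g (nat_lit 1) (.e (nat_lit 381461) (nat_lit 0) .nil) .nil)))))) 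
(.nd (nat_lit 7) (.nd (nat_lit 8) (.nd (nat_lit 9) 
(.lf (nat_lit 581716) (.g (nat_lit 1592) (.e (nat_lit 344068) (nat_lit 0) (.e (nat_lit 2663) (nat_lit 167) (.e (nat_lit 196668) (nat_lit 14) (.e (nat_lit 73782) (nat_lit 32) .nil)))) (.g (nat_lit 0) (.e (nat_lit 379523) (nat_lit 0) .nil) .nil))) 
(.lf (nat_lit 582228) (.g (nat_lit 2612) (.e (nat_lit 344117) (nat_lit 21) (.e (nat_lit 516195) (nat_lit 26) (.e (nat_lit 335996) (nat_lit 1) (.e (nat_lit 57930) (nat_lit 282) (.e (nat_lit 163942) (nat_lit 19) .nil))))) (.g (nat_lit 0) (.e (nat_lit 380943) (nat_lit 0) .nil) .nil)))) (.nd (nat_lit 9) 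
(.lf (nat_lit 581972) (.g (nat_lit 3291) (.e (nat_lit 344096) (nat_lit 18) (.e (nat_lit 7265) (nat_lit 384) (.e (nat_lit 57406) (nat_lit 12) (.e (nat_lit 336316) (nat_lit 17) (.e (nat_lit 196681) (nat_lit 17) (.e (nat_lit 131129) (nat_lit 14) (.e (nat_lit 401472) (nat_lit 28) .nil))))))) (.g (nat_lit 1) (.e (nat_lit 380454) (nat_lit 0) .nil) .nil))) 
(.lf (nat_lit 582484) (.g (nat_lit 2115) (.e (nat_lit 344127) (nat_lit 26) (.e (nat_lit 557065) (nat_lit 9) (.e (nat_lit 2612) (nat_lit 163) (.e (nat_lit 164187) (nat_lit 157) (.e (nat_lit 229399) (nat_lit 12) .nil))))) (.g (nat_lit 0) (.e (nat_lit 381350) (nat_lit 0) .nil) .nil))))) (.nd (nat_lit 8) (.nd (nat_lit 9) 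
(.lf (nat_lit 581844) (.g (nat_lit 550) (.e (nat_lit 344069) (nat_lit 0) (.e (nat_lit 3067) (nat_lit 190) (.e (nat_lit 483072) (nat_lit 16) .nil))) (.g (nat_lit 0) (.e (nat_lit 379792) (nat_lit 0) .nil) .nil))) 
(.lf (nat_lit 582356) (.g (nat_lit 4441) (.e (nat_lit 344119) (nat_lit 21) (.e (nat_lit 516139) (nat_lit 7) (.e (nat_lit 409649) (nat_lit 18) (.e (nat_lit 303118) (nat_lit 3) (.e (nat_lit 204855) (nat_lit 26) (.e (nat_lit 336173) (nat_lit 10) .nil)))))) (.g (nat_lit 1) (.e (nat_lit 381134) (nat_lit 0) .nil) .nil)))) (.nd (nat_lit 9) 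
(.lf (nat_lit 582100) (.g (nat_lit 4531) (.e (nat_lit 344117) (nat_lit 21) (.e (nat_lit 516138) (nat_lit 7) (.e (nat_lit 409645) (nat_lit 18) (.e (nat_lit 303117) (nat_lit 2) (.e (nat_lit 196666) (nat_lit 13) (.e (nat_lit 65617) (nat_lit 10) .nil)))))) (.g (nat_lit 1) (.e (nat_lit 380787) (nat_lit 0) .nil) .nil))) 
(.lf (nat_lit 582612) (.g (nat_lit 2690) (.e (nat_lit 344130) (nat_lit 26) (.e (nat_lit 557090) (nat_lit 12) (.e (nat_lit 163850) (nat_lit 0) (.e (nat_lit 6425) (nat_lit 342) (.e (nat_lit 229403) (nat_lit 12) .nil))))) (.g (nat_lit 0) (.e (nat_lit 381546) (nat_lit 0) .nil) .nil))))))) (.nd (nat_lit 6) (.nd (nat_lit 7) (.nd (nat_lit 8) (.nd (nat_lit 9) 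
(.lf (nat_lit 581684) (.g (nat_lit 342) (.e (nat_lit 336456) (nat_lit 34) (.e (nat_lit 483395) (nat_lit 24) (.e (nat_lit 344118) (nat_lit 21) .nil))) (.g (nat_lit 0) (.e (nat_lit 379399) (nat_lit 0) .nil) .nil))) 
(.lf (nat_lit 582196) (.g (nat_lit 3314) (.e (nat_lit 344117) (nat_lit 21) (.e (nat_lit 516155) (nat_lit 9) (.e (nat_lit 426412) (nat_lit 15) (.e (nat_lit 2059) (nat_lit 142) (.e (nat_lit 704589) (nat_lit 3) (.e (nat_lit 163975) (nat_lit 30) (.e (nat_lit 573481) (nat_lit 13) (.e (nat_lit 65619) (nat_lit 10) .nil)))))))) (.g (nat_lit 1) (.e (nat_lit 380893) (nat_lit 0) .nil) .nil)))) 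
(.nd (nat_lit 9) 
(.lf (nat_lit 581940) (.g (nat_lit 1698) (.e (nat_lit 352000) (nat_lit 5) (.e (nat_lit 180228) (nat_lit 0) (.e (nat_lit 6425) (nat_lit 342) (.e (nat_lit 229412) (nat_lit 14) (.e (nat_lit 450304) (nat_lit 12) .nil))))) (.g (nat_lit 0) (.e (nat_lit 380126) (nat_lit 0) .nil) .nil))) 
(.lf (nat_lit 582452) (.g (nat_lit 1382) (.e (nat_lit 344138) (nat_lit 29) (.e (nat_lit 581653) (nat_lit 6) (.e (nat_lit 188435) (nat_lit 20) (.e (nat_lit 3579) (nat_lit 223) (.e (nat_lit 745490) (nat_lit 4) (.e (nat_lit 65620) (nat_lit 10) .nil)))))) (.g (nat_lit 1) (.e (nat_lit 381318) (nat_lit 0) .nil) .nil))))) (.nd (nat_lit 8) (.nd (nat_lit 9) 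
(.lf (nat_lit 581812) (.g (nat_lit 2509) (.e (nat_lit 344068) (nat_lit 0) (.e (nat_lit 3090) (nat_lit 191) (.e (nat_lit 483372) (nat_lit 21) (.e (nat_lit 319511) (nat_lit 10) (.e (nat_lit 5664) (nat_lit 312) (.e (nat_lit 299) (nat_lit 22) .nil)))))) (.g (nat_lit 1) (.e (nat_lit 379713) (nat_lit 0) .nil) .nil))) 
(.lf (nat_lit 582324) (.g (nat_lit 2520) (.e (nat_lit 344119) (nat_lit 21) (.e (nat_lit 516139) (nat_lit 7) (.e (nat_lit 409646) (nat_lit 18) (.e (nat_lit 303117) (nat_lit 2) (.e (nat_lit 196665) (nat_lit 13) .nil))))) (.g (nat_lit 0) (.e (nat_lit 381098) (nat_lit 0) .nil) .nil)))) (.nd (nat_lit 9) 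
(.lf (nat_lit 582068) (.g (nat_lit 3199) (.e (nat_lit 344117) (nat_lit 21) (.e (nat_lit 516116) (nat_lit 1) (.e (nat_lit 164180) (nat_lit 154) (.e (nat_lit 57378) (nat_lit 3) (.e (nat_lit 98321) (nat_lit 17) (.e (nat_lit 3771) (nat_lit 229) (.e (nat_lit 794673) (nat_lit 23) (.e (nat_lit 204862) (nat_lit 27) .nil)))))))) (.g (nat_lit 1) (.e (nat_lit 380748) (nat_lit 0) .nil) .nil))) 
(.lf (nat_lit 582580) (.g (nat_lit 3444) (.e (nat_lit 344129) (nat_lit 26) (.e (nat_lit 557103) (nat_lit 14) (.e (nat_lit 180243) (nat_lit 5) (.e (nat_lit 532503) (nat_lit 1) (.e (nat_lit 57704) (nat_lit 164) (.e (nat_lit 2601) (nat_lit 163) (.e (nat_lit 163962) (nat_lit 25) (.e (nat_lit 532543) (nat_lit 10) .nil)))))))) (.g (nat_lit 1) (.e (nat_lit 381498) (nat_lit 0) .nil) .nil)))))) 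
(.nd (nat_lit 7) (.nd (nat_lit 8) (.nd (nat_lit 9) 
(.lf (nat_lit 581748) (.g (nat_lit 1406) (.e (nat_lit 344068) (nat_lit 0) (.e (nat_lit 3090) (nat_lit 191) (.e (nat_lit 483343) (nat_lit 17) (.e (nat_lit 6720) (nat_lit 361) (.e (nat_lit 179968) (nat_lit 28) .nil))))) (.g (nat_lit 1) (.e (nat_lit 379639) (nat_lit 0) .nil) .nil))) 
(.lf (nat_lit 582260) (.g (nat_lit 1649) (.e (nat_lit 344118) (nat_lit 21) (.e (nat_lit 516129) (nat_lit 3) (.e (nat_lit 221214) (nat_lit 23) (.e (nat_lit 204819) (nat_lit 17) .nil)))) (.g (nat_lit 0) (.e (nat_lit 381013) (nat_lit 0) .nil) .nil)))) (.nd (nat_lit 9) 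
(.lf (nat_lit 582004) (.g (nat_lit 1680) (.e (nat_lit 344105) (nat_lit 19) (.e (nat_lit 499919) (nat_lit 9) (.e (nat_lit 172138) (nat_lit 15) (.e (nat_lit 2058) (nat_lit 142) (.e (nat_lit 704589) (nat_lit 3) .nil))))) (.g (nat_lit 0) (.e (nat_lit 380619) (nat_lit 0) .nil) .nil))) 
(.lf (nat_lit 582516) (.g (nat_lit 3533) (.e (nat_lit 344129) (nat_lit 26) (.e (nat_lit 557065) (nat_lit 9) (.e (nat_lit 3098) (nat_lit 192) (.e (nat_lit 491571) (nat_lit 13) (.e (nat_lit 393252) (nat_lit 18) (.e (nat_lit 164183) (nat_lit 154) (.e (nat_lit 57420) (nat_lit 13) .nil))))))) (.g (nat_lit 1) (.e (nat_lit 381402) (nat_lit 0) .nil) .nil))))) (.nd (nat_lit 8) (.nd (nat_lit 9) 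
(.lf (nat_lit 581876) (.g (nat_lit 1963) (.e (nat_lit 344069) (nat_lit 0) (.e (nat_lit 3090) (nat_lit 191) (.e (nat_lit 483350) (nat_lit 17) (.e (nat_lit 6218) (nat_lit 333) (.e (nat_lit 57865) (nat_lit 256) .nil))))) (.g (nat_lit 0) (.e (nat_lit 379853) (nat_lit 0) .nil) .nil))) 
(.lf (nat_lit 582388) (.g (nat_lit 1595) (.e (nat_lit 344120) (nat_lit 21) (.e (nat_lit 516139) (nat_lit 7) (.e (nat_lit 409616) (nat_lit 10) (.e (nat_lit 5612) (nat_lit 312) .nil)))) (.g (nat_lit 0) (.e (nat_lit 381177) (nat_lit 0) .nil) .nil)))) (.nd (nat_lit 9) 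
(.lf (nat_lit 582132) (.g (nat_lit 2412) (.e (nat_lit 344117) (nat_lit 21) (.e (nat_lit 516139) (nat_lit 7) (.e (nat_lit 409645) (nat_lit 18) (.e (nat_lit 303119) (nat_lit 3) (.e (nat_lit 204850) (nat_lit 26) (.e (nat_lit 336178) (nat_lit 10) .nil)))))) (.g (nat_lit 1) (.e (nat_lit 380824) (nat_lit 0) .nil) .nil))) 
(.lf (nat_lit 582644) (.g (nat_lit 2166) (.e (nat_lit 344130) (nat_lit 26) (.e (nat_lit 557104) (nat_lit 14) (.e (nat_lit 180252) (nat_lit 10) (.e (nat_lit 573473) (nat_lit 12) (.e (nat_lit 57348) (nat_lit 0) .nil))))) (.g (nat_lit 0) (.e (nat_lit 381593) (nat_lit 0) .nil) .nil))))))))) (.nd (nat_lit 4) (.nd (nat_lit 5) (.nd (nat_lit 6) (.nd (nat_lit 7) (.nd (nat_lit 8) (.nd (nat_lit 9) 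
(.lf (nat_lit 581644) (.g (nat_lit 2591) (.e (nat_lit 336456) (nat_lit 34) (.e (nat_lit 483364) (nat_lit 18) (.e (nat_lit 57931) (nat_lit 282) (.e (nat_lit 163867) (nat_lit 2) (.e (nat_lit 196681) (nat_lit 17) (.e (nat_lit 131105) (nat_lit 9) .nil)))))) (.g (nat_lit 1) (.e (nat_lit 379343) (nat_lit 0) .nil) .nil))) 
(.lf (nat_lit 582156) (.g (nat_lit 4858) (.e (nat_lit 344117) (nat_lit 21) (.e (nat_lit 516139) (nat_lit 7) (.e (nat_lit 409647) (nat_lit 18) (.e (nat_lit 303116) (nat_lit 2) (.e (nat_lit 196666) (nat_lit 13) (.e (nat_lit 65610) (nat_lit 10) .nil)))))) (.g (nat_lit 1) (.e (nat_lit 380848) (nat_lit 0) .nil) .nil)))) (.nd (nat_lit 9) 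
(.lf (nat_lit 581900) (.g (nat_lit 2726) (.e (nat_lit 344069) (nat_lit 0) (.e (nat_lit 3090) (nat_lit 191) (.e (nat_lit 483372) (nat_lit 21) (.e (nat_lit 319505) (nat_lit 10) (.e (nat_lit 5712) (nat_lit 312) (.e (nat_lit 299) (nat_lit 22) .nil)))))) (.g (nat_lit 1) (.e (nat_lit 379880) (nat_lit 0) .nil) .nil))) 
(.lf (nat_lit 582412) (.g (nat_lit 2624) (.e (nat_lit 344126) (nat_lit 25) (.e (nat_lit 548890) (nat_lit 10) (.e (nat_lit 73781) (nat_lit 32) (.e (nat_lit 2664) (nat_lit 167) (.e (nat_lit 196666) (nat_lit 13) (.e (nat_lit 65617) (nat_lit 10) .nil)))))) (.g (nat_lit 1) (.e (nat_lit 381215) (nat_lit 0) .nil) .nil))))) (.nd (nat_lit 8) (.nd (nat_lit 9) 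
(.lf (nat_lit 581772) (.g (nat_lit 2066) (.e (nat_lit 344068) (nat_lit 0) (.e (nat_lit 3090) (nat_lit 191) (.e (nat_lit 483350) (nat_lit 17) (.e (nat_lit 6218) (nat_lit 333) (.e (nat_lit 57865) (nat_lit 256) .nil))))) (.g (nat_lit 0) (.e (nat_lit 379664) (nat_lit 0) .nil) .nil))) 
(.lf (nat_lit 582284) (.g (nat_lit 4081) (.e (nat_lit 344118) (nat_lit 21) (.e (nat_lit 516179) (nat_lit 15) (.e (nat_lit 475199) (nat_lit 40) (.e (nat_lit 704589) (nat_lit 3) (.e (nat_lit 163975) (nat_lit 30) (.e (nat_lit 573481) (nat_lit 13) (.e (nat_lit 65613) (nat_lit 10) .nil))))))) (.g (nat_lit 1) (.e (nat_lit 381041) (nat_lit 0) .nil) .nil)))) (.nd (nat_lit 9) 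
(.lf (nat_lit 582028) (.g (nat_lit 2483) (.e (nat_lit 344116) (nat_lit 21) (.e (nat_lit 516139) (nat_lit 7) (.e (nat_lit 409649) (nat_lit 18) (.e (nat_lit 303117) (nat_lit 2) (.e (nat_lit 196666) (nat_lit 13) (.e (nat_lit 65610) (nat_lit 10) .nil)))))) (.g (nat_lit 1) (.e (nat_lit 380673) (nat_lit 0) .nil) .nil))) 
(.lf (nat_lit 582540) (.g (nat_lit 3165) (.e (nat_lit 344129) (nat_lit 26) (.e (nat_lit 557087) (nat_lit 11) (.e (nat_lit 24617) (nat_lit 7) (.e (nat_lit 319504) (nat_lit 10) (.e (nat_lit 7936) (nat_lit 45) (.e (nat_lit 532529) (nat_lit 9) (.e (nat_lit 343808) (nat_lit 10) .nil))))))) (.g (nat_lit 1) (.e (nat_lit 381453) (nat_lit 0) .nil) .nil)))))) 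
(.nd (nat_lit 7) (.nd (nat_lit 8) (.nd (nat_lit 9) 
(.lf (nat_lit 581708) (.g (nat_lit 2519) (.e (nat_lit 344067) (nat_lit 0) (.e (nat_lit 2505) (nat_lit 157) (.e (nat_lit 3249) (nat_lit 197) (.e (nat_lit 532550) (nat_lit 12) (.e (nat_lit 360474) (nat_lit 8) (.e (nat_lit 557073) (nat_lit 9) (.e (nat_lit 7936) (nat_lit 22) .nil))))))) (.g (nat_lit 1) (.e (nat_lit 379496) (nat_lit 0) .nil) .nil))) 
(.lf (nat_lit 582220) (.g (nat_lit 1873) (.e (nat_lit 344117) (nat_lit 21) (.e (nat_lit 516195) (nat_lit 26) (.e (nat_lit 335986) (nat_lit 1) (.e (nat_lit 57929) (nat_lit 282) (.e (nat_lit 163943) (nat_lit 19) .nil))))) (.g (nat_lit 0) (.e (nat_lit 380929) (nat_lit 0) .nil) .nil)))) (.nd (nat_lit 9) 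
(.lf (nat_lit 581964) (.g (nat_lit 2938) (.e (nat_lit 344090) (nat_lit 18) (.e (nat_lit 7710) (nat_lit 414) (.e (nat_lit 163908) (nat_lit 12) (.e (nat_lit 426286) (nat_lit 10) (.e (nat_lit 434241) (nat_lit 27) (.e (nat_lit 565267) (nat_lit 4) (.e (nat_lit 65610) (nat_lit 10) .nil))))))) (.g (nat_lit 1) (.e (nat_lit 380352) (nat_lit 0) .nil) .nil))) 
(.lf (nat_lit 582476) (.g (nat_lit 2660) (.e (nat_lit 344138) (nat_lit 29) (.e (nat_lit 581653) (nat_lit 6) (.e (nat_lit 188440) (nat_lit 20) (.e (nat_lit 3579) (nat_lit 223) (.e (nat_lit 745491) (nat_lit 4) (.e (nat_lit 65620) (nat_lit 10) .nil)))))) (.g (nat_lit 1) (.e (nat_lit 381342) (nat_lit 0) .nil) .nil))))) (.nd (nat_lit 8) (.nd (nat_lit 9) 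
(.lf (nat_lit 581836) (.g (nat_lit 2180) (.e (nat_lit 344069) (nat_lit 0) (.e (nat_lit 2856) (nat_lit 184) (.e (nat_lit 426530) (nat_lit 27) (.e (nat_lit 335872) (nat_lit 0) (.e (nat_lit 6719) (nat_lit 361) (.e (nat_lit 179968) (nat_lit 28) .nil)))))) (.g (nat_lit 1) (.e (nat_lit 379778) (nat_lit 0) .nil) .nil))) 
(.lf (nat_lit 582348) (.g (nat_lit 2189) (.e (nat_lit 344119) (nat_lit 21) (.e (nat_lit 516139) (nat_lit 7) (.e (nat_lit 409648) (nat_lit 18) (.e (nat_lit 303119) (nat_lit 3) (.e (nat_lit 204855) (nat_lit 26) .nil))))) (.g (nat_lit 0) (.e (nat_lit 381125) (nat_lit 0) .nil) .nil)))) (.nd (nat_lit 9) 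
(.lf (nat_lit 582092) (.g (nat_lit 3748) (.e (nat_lit 344117) (nat_lit 21) (.e (nat_lit 516130) (nat_lit 3) (.e (nat_lit 221215) (nat_lit 23) (.e (nat_lit 204828) (nat_lit 18) (.e (nat_lit 57926) (nat_lit 282) (.e (nat_lit 163875) (nat_lit 3) (.e (nat_lit 204862) (nat_lit 27) .nil))))))) (.g (nat_lit 1) (.e (nat_lit 380774) (nat_lit 0) .nil) .nil))) 
(.lf (nat_lit 582604) (.g (nat_lit 3830) (.e (nat_lit 344129) (nat_lit 26) (.e (nat_lit 557104) (nat_lit 14) (.e (nat_lit 180252) (nat_lit 10) (.e (nat_lit 573475) (nat_lit 12) (.e (nat_lit 57508) (nat_lit 39) (.e (nat_lit 655104) (nat_lit 0) (.e (nat_lit 2684) (nat_lit 168) (.e (nat_lit 204862) (nat_lit 27) .nil)))))))) (.g (nat_lit 1) (.e (nat_lit 381522) (nat_lit 0) .nil) .nil))))))) 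
(.nd (nat_lit 6) (.nd (nat_lit 7) (.nd (nat_lit 8) (.nd (nat_lit 9) 
(.lf (nat_lit 581676) (.g (nat_lit 1583) (.e (nat_lit 336456) (nat_lit 34) (.e (nat_lit 483383) (nat_lit 23) (.e (nat_lit 336262) (nat_lit 15) (.e (nat_lit 3253) (nat_lit 197) .nil)))) (.g (nat_lit 0) (.e (nat_lit 379384) (nat_lit 0) .nil) .nil))) 
(.lf (nat_lit 582188) (.g (nat_lit 3499) (.e (nat_lit 344117) (nat_lit 21) (.e (nat_lit 516151) (nat_lit 9) (.e (nat_lit 426146) (nat_lit 4) (.e (nat_lit 229663) (nat_lit 240) (.e (nat_lit 2612) (nat_lit 163) (.e (nat_lit 163978) (nat_lit 30) (.e (nat_lit 573479) (nat_lit 13) (.e (nat_lit 65619) (nat_lit 10) .nil)))))))) (.g (nat_lit 1) (.e (nat_lit 380884) (nat_lit 0) .nil) .nil)))) 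
(.nd (nat_lit 9) 
(.lf (nat_lit 581932) (.g (nat_lit 1625) (.e (nat_lit 352000) (nat_lit 3) (.e (nat_lit 163962) (nat_lit 25) (.e (nat_lit 532523) (nat_lit 7) (.e (nat_lit 319491) (nat_lit 0) .nil)))) (.g (nat_lit 0) (.e (nat_lit 380076) (nat_lit 0) .nil) .nil))) 
(.lf (nat_lit 582444) (.g (nat_lit 1626) (.e (nat_lit 344138) (nat_lit 29) (.e (nat_lit 581653) (nat_lit 6) (.e (nat_lit 188434) (nat_lit 20) (.e (nat_lit 3579) (nat_lit 223) (.e (nat_lit 745490) (nat_lit 4) .nil))))) (.g (nat_lit 0) (.e (nat_lit 381310) (nat_lit 0) .nil) .nil))))) (.nd (nat_lit 8) (.nd (nat_lit 9) 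
(.lf (nat_lit 581804) (.g (nat_lit 1709) (.e (nat_lit 344068) (nat_lit 0) (.e (nat_lit 3090) (nat_lit 191) (.e (nat_lit 483372) (nat_lit 21) (.e (nat_lit 319505) (nat_lit 10) (.e (nat_lit 7936) (nat_lit 312) (.e (nat_lit 299) (nat_lit 22) .nil)))))) (.g (nat_lit 1) (.e (nat_lit 379702) (nat_lit 0) .nil) .nil))) 
(.lf (nat_lit 582316) (.g (nat_lit 3287) (.e (nat_lit 344119) (nat_lit 21) (.e (nat_lit 516139) (nat_lit 7) (.e (nat_lit 409645) (nat_lit 18) (.e (nat_lit 303117) (nat_lit 2) (.e (nat_lit 196665) (nat_lit 13) (.e (nat_lit 65612) (nat_lit 10) .nil)))))) (.g (nat_lit 1) (.e (nat_lit 381090) (nat_lit 0) .nil) .nil)))) (.nd (nat_lit 9) 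
(.lf (nat_lit 582060) (.g (nat_lit 1483) (.e (nat_lit 344117) (nat_lit 21) (.e (nat_lit 516115) (nat_lit 1) (.e (nat_lit 164179) (nat_lit 154) (.e (nat_lit 57378) (nat_lit 3) .nil)))) (.g (nat_lit 0) (.e (nat_lit 380734) (nat_lit 0) .nil) .nil))) 
(.lf (nat_lit 582572) (.g (nat_lit 2332) (.e (nat_lit 344129) (nat_lit 26) (.e (nat_lit 557093) (nat_lit 12) (.e (nat_lit 164022) (nat_lit 46) (.e (nat_lit 704629) (nat_lit 9) (.e (nat_lit 411) (nat_lit 32) .nil))))) (.g (nat_lit 0) (.e (nat_lit 381490) (nat_lit 0) .nil) .nil)))))) (.nd (nat_lit 7) (.nd (nat_lit 8) (.nd (nat_lit 9) 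
(.lf (nat_lit 581740) (.g (nat_lit 3215) (.e (nat_lit 344068) (nat_lit 0) (.e (nat_lit 2857) (nat_lit 184) (.e (nat_lit 426533) (nat_lit 28) (.e (nat_lit 344068) (nat_lit 0) (.e (nat_lit 2856) (nat_lit 184) (.e (nat_lit 426533) (nat_lit 28) .nil)))))) (.g (nat_lit 1) (.e (nat_lit 379583) (nat_lit 0) .nil) .nil))) 
(.lf (nat_lit 582252) (.g (nat_lit 2692) (.e (nat_lit 344118) (nat_lit 21) (.e (nat_lit 516120) (nat_lit 1) (.e (nat_lit 164182) (nat_lit 154) (.e (nat_lit 57379) (nat_lit 3) (.e (nat_lit 98321) (nat_lit 17) .nil))))) (.g (nat_lit 0) (.e (nat_lit 380992) (nat_lit 0) .nil) .nil)))) (.nd (nat_lit 9) 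
(.lf (nat_lit 581996) (.g (nat_lit 1908) (.e (nat_lit 344100) (nat_lit 18) (.e (nat_lit 7270) (nat_lit 385) (.e (nat_lit 122919) (nat_lit 15) (.e (nat_lit 360450) (nat_lit 0) (.e (nat_lit 7261) (nat_lit 384) .nil))))) (.g (nat_lit 0) (.e (nat_lit 380539) (nat_lit 0) .nil) .nil))) 
(.lf (nat_lit 582508) (.g (nat_lit 2072) (.e (nat_lit 344128) (nat_lit 26) (.e (nat_lit 557090) (nat_lit 12) (.e (nat_lit 164020) (nat_lit 45) (.e (nat_lit 696327) (nat_lit 5) .nil)))) (.g (nat_lit 0) (.e (nat_lit 381388) (nat_lit 0) .nil) .nil))))) (.nd (nat_lit 8) (.nd (nat_lit 9) 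
(.lf (nat_lit 581868) (.g (nat_lit 1595) (.e (nat_lit 344069) (nat_lit 0) (.e (nat_lit 3090) (nat_lit 191) (.e (nat_lit 483350) (nat_lit 17) (.e (nat_lit 6132) (nat_lit 332) .nil)))) (.g (nat_lit 0) (.e (nat_lit 379845) (nat_lit 0) .nil) .nil))) 
(.lf (nat_lit 582380) (.g (nat_lit 1489) (.e (nat_lit 344119) (nat_lit 21) (.e (nat_lit 516181) (nat_lit 15) (.e (nat_lit 475199) (nat_lit 40) (.e (nat_lit 704589) (nat_lit 3) (.e (nat_lit 163975) (nat_lit 30) .nil))))) (.g (nat_lit 0) (.e (nat_lit 381161) (nat_lit 0) .nil) .nil)))) (.nd (nat_lit 9) 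
(.lf (nat_lit 582124) (.g (nat_lit 2881) (.e (nat_lit 344117) (nat_lit 21) (.e (nat_lit 516139) (nat_lit 7) (.e (nat_lit 409645) (nat_lit 18) (.e (nat_lit 303112) (nat_lit 0) (.e (nat_lit 3252) (nat_lit 197) (.e (nat_lit 532527) (nat_lit 9) (.e (nat_lit 336177) (nat_lit 10) .nil))))))) (.g (nat_lit 1) (.e (nat_lit 380816) (nat_lit 0) .nil) .nil))) 
(.lf (nat_lit 582636) (.g (nat_lit 2422) (.e (nat_lit 344130) (nat_lit 26) (.e (nat_lit 557103) (nat_lit 14) (.e (nat_lit 180250) (nat_lit 10) (.e (nat_lit 573474) (nat_lit 12) (.e (nat_lit 57508) (nat_lit 39) (.e (nat_lit 647170) (nat_lit 0) (.e (nat_lit 2685) (nat_lit 168) (.e (nat_lit 204864) (nat_lit 27) .nil)))))))) (.g (nat_lit 1) (.e (nat_lit 381585) (nat_lit 0) .nil) .nil)))))))) 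
(.nd (nat_lit 5) (.nd (nat_lit 6) (.nd (nat_lit 7) (.nd (nat_lit 8) (.nd (nat_lit 9) 
(.lf (nat_lit 581660) (.g (nat_lit 3304) (.e (nat_lit 336456) (nat_lit 34) (.e (nat_lit 483365) (nat_lit 18) (.e (nat_lit 57853) (nat_lit 252) (.e (nat_lit 57371) (nat_lit 2) (.e (nat_lit 90158) (nat_lit 11) (.e (nat_lit 24628) (nat_lit 9) .nil)))))) (.g (nat_lit 1) (.e (nat_lit 379359) (nat_lit 0) .nil) .nil))) 
(.lf (nat_lit 582172) (.g (nat_lit 3016) (.e (nat_lit 344117) (nat_lit 21) (.e (nat_lit 516139) (nat_lit 7) (.e (nat_lit 409649) (nat_lit 18) (.e (nat_lit 303117) (nat_lit 2) (.e (nat_lit 196666) (nat_lit 13) (.e (nat_lit 65609) (nat_lit 10) .nil)))))) (.g (nat_lit 1) (.e (nat_lit 380864) (nat_lit 0) .nil) .nil)))) (.nd (nat_lit 9) 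
(.lf (nat_lit 581916) (.g (nat_lit 2070) (.e (nat_lit 344069) (nat_lit 0) (.e (nat_lit 3090) (nat_lit 191) (.e (nat_lit 483372) (nat_lit 21) (.e (nat_lit 319513) (nat_lit 10) (.e (nat_lit 5634) (nat_lit 312) (.e (nat_lit 7936) (nat_lit 22) .nil)))))) (.g (nat_lit 1) (.e (nat_lit 379905) (nat_lit 0) .nil) .nil))) 
(.lf (nat_lit 582428) (.g (nat_lit 710) (.e (nat_lit 344138) (nat_lit 29) (.e (nat_lit 581653) (nat_lit 6) (.e (nat_lit 188427) (nat_lit 20) (.e (nat_lit 3567) (nat_lit 222) .nil)))) (.g (nat_lit 0) (.e (nat_lit 381293) (nat_lit 0) .nil) .nil))))) (.nd (nat_lit 8) (.nd (nat_lit 9) 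
(.lf (nat_lit 581788) (.g (nat_lit 920) (.e (nat_lit 344068) (nat_lit 0) (.e (nat_lit 3090) (nat_lit 191) (.e (nat_lit 483355) (nat_lit 17) (.e (nat_lit 6149) (nat_lit 332) .nil)))) (.g (nat_lit 0) (.e (nat_lit 379680) (nat_lit 0) .nil) .nil))) 
(.lf (nat_lit 582300) (.g (nat_lit 1525) (.e (nat_lit 344119) (nat_lit 21) (.e (nat_lit 516139) (nat_lit 7) (.e (nat_lit 409616) (nat_lit 10) (.e (nat_lit 5762) (nat_lit 315) (.e (nat_lit 163962) (nat_lit 25) .nil))))) (.g (nat_lit 0) (.e (nat_lit 381070) (nat_lit 0) .nil) .nil)))) (.nd (nat_lit 9) 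
(.lf (nat_lit 582044) (.g (nat_lit 3753) (.e (nat_lit 344117) (nat_lit 21) (.e (nat_lit 516106) (nat_lit 0) (.e (nat_lit 3721) (nat_lit 227) (.e (nat_lit 778474) (nat_lit 12) (.e (nat_lit 163975) (nat_lit 30) (.e (nat_lit 573474) (nat_lit 12) (.e (nat_lit 57528) (nat_lit 46) (.e (nat_lit 704514) (nat_lit 0) (.e (nat_lit 2685) (nat_lit 168) (.e (nat_lit 204862) (nat_lit 27) .nil)))))))))) (.g (nat_lit 1) (.e (nat_lit 380694) (nat_lit 0) .nil) .nil))) 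
(.lf (nat_lit 582556) (.g (nat_lit 3631) (.e (nat_lit 344129) (nat_lit 26) (.e (nat_lit 557087) (nat_lit 11) (.e (nat_lit 24662) (nat_lit 14) (.e (nat_lit 401466) (nat_lit 15) .nil)))) (.g (nat_lit 0) (.e (nat_lit 381469) (nat_lit 0) .nil) .nil)))))) (.nd (nat_lit 7) (.nd (nat_lit 8) (.nd (nat_lit 9) 
(.lf (nat_lit 581724) (.g (nat_lit 1000) (.e (nat_lit 344068) (nat_lit 0) (.e (nat_lit 2854) (nat_lit 184) (.e (nat_lit 426533) (nat_lit 28) (.e (nat_lit 344066) (nat_lit 0) (.e (nat_lit 2940) (nat_lit 184) (.e (nat_lit 426532) (nat_lit 28) .nil)))))) (.g (nat_lit 1) (.e (nat_lit 379550) (nat_lit 0) .nil) .nil))) 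
(.lf (nat_lit 582236) (.g (nat_lit 1946) (.e (nat_lit 344118) (nat_lit 21) (.e (nat_lit 516115) (nat_lit 1) (.e (nat_lit 164179) (nat_lit 154) (.e (nat_lit 57377) (nat_lit 3) .nil)))) (.g (nat_lit 0) (.e (nat_lit 380963) (nat_lit 0) .nil) .nil)))) (.nd (nat_lit 9) 
(.lf (nat_lit 581980) (.g (nat_lit 3211) (.e (nat_lit 344097) (nat_lit 18) (.e (nat_lit 4717) (nat_lit 275) (.e (nat_lit 2610) (nat_lit 163) (.e (nat_lit 163979) (nat_lit 30) (.e (nat_lit 573482) (nat_lit 13) (.e (nat_lit 65619) (nat_lit 10) (.e (nat_lit 344129) (nat_lit 26) (.e (nat_lit 557065) (nat_lit 9) (.e (nat_lit 307) (nat_lit 22) .nil))))))))) (.g (nat_lit 1) (.e (nat_lit 380470) (nat_lit 0) .nil) .nil))) 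
(.lf (nat_lit 582492) (.g (nat_lit 2628) (.e (nat_lit 344127) (nat_lit 26) (.e (nat_lit 557090) (nat_lit 12) (.e (nat_lit 163850) (nat_lit 0) (.e (nat_lit 6273) (nat_lit 337) (.e (nat_lit 2633) (nat_lit 164) (.e (nat_lit 172062) (nat_lit 2) (.e (nat_lit 196666) (nat_lit 13) (.e (nat_lit 65617) (nat_lit 10) .nil)))))))) (.g (nat_lit 1) (.e (nat_lit 381367) (nat_lit 0) .nil) .nil))))) 
(.nd (nat_lit 8) (.nd (nat_lit 9) 
(.lf (nat_lit 581852) (.g (nat_lit 2891) (.e (nat_lit 344069) (nat_lit 0) (.e (nat_lit 3090) (nat_lit 191) (.e (nat_lit 483342) (nat_lit 17) (.e (nat_lit 6113) (nat_lit 332) (.e (nat_lit 1374) (nat_lit 104) (.e (nat_lit 303154) (nat_lit 28) .nil)))))) (.g (nat_lit 1) (.e (nat_lit 379828) (nat_lit 0) .nil) .nil))) 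
(.lf (nat_lit 582364) (.g (nat_lit 3537) (.e (nat_lit 344119) (nat_lit 21) (.e (nat_lit 516139) (nat_lit 7) (.e (nat_lit 409649) (nat_lit 18) (.e (nat_lit 303119) (nat_lit 3) (.e (nat_lit 204855) (nat_lit 26) (.e (nat_lit 336173) (nat_lit 10) .nil)))))) (.g (nat_lit 1) (.e (nat_lit 381143) (nat_lit 0) .nil) .nil)))) (.nd (nat_lit 9) 
(.lf (nat_lit 582108) (.g (nat_lit 2089) (.e (nat_lit 344117) (nat_lit 21) (.e (nat_lit 516138) (nat_lit 7) (.e (nat_lit 409646) (nat_lit 18) (.e (nat_lit 303119) (nat_lit 3) (.e (nat_lit 204856) (nat_lit 26) .nil))))) (.g (nat_lit 0) (.e (nat_lit 380797) (nat_lit 0) .nil) .nil))) 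
(.lf (nat_lit 582620) (.g (nat_lit 1949) (.e (nat_lit 344130) (nat_lit 26) (.e (nat_lit 557097) (nat_lit 13) (.e (nat_lit 172067) (nat_lit 3) (.e (nat_lit 204821) (nat_lit 17) (.e (nat_lit 2390) (nat_lit 156) .nil))))) (.g (nat_lit 0) (.e (nat_lit 381569) (nat_lit 0) .nil) .nil))))))) (.nd (nat_lit 6) (.nd (nat_lit 7) (.nd (nat_lit 8) (.nd (nat_lit 9) 
(.lf (nat_lit 581692) (.g (nat_lit 1979) (.e (nat_lit 343808) (nat_lit 34) (.e (nat_lit 483408) (nat_lit 26) (.e (nat_lit 385068) (nat_lit 26) (.e (nat_lit 532501) (nat_lit 1) (.e (nat_lit 57852) (nat_lit 252) .nil))))) (.g (nat_lit 0) (.e (nat_lit 379435) (nat_lit 0) .nil) .nil))) 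
(.lf (nat_lit 582204) (.g (nat_lit 3643) (.e (nat_lit 344117) (nat_lit 21) (.e (nat_lit 516160) (nat_lit 10) (.e (nat_lit 434264) (nat_lit 34) (.e (nat_lit 622621) (nat_lit 13) (.e (nat_lit 2668) (nat_lit 167) (.e (nat_lit 196666) (nat_lit 13) (.e (nat_lit 65610) (nat_lit 10) .nil))))))) (.g (nat_lit 1) (.e (nat_lit 380901) (nat_lit 0) .nil) .nil)))) (.nd (nat_lit 9) 
(.lf (nat_lit 581948) (.g (nat_lit 1289) (.e (nat_lit 352000) (nat_lit 7) (.e (nat_lit 237636) (nat_lit 27) (.e (nat_lit 336076) (nat_lit 9) (.e (nat_lit 336260) (nat_lit 15) (.e (nat_lit 3733) (nat_lit 228) .nil))))) (.g (nat_lit 0) (.e (nat_lit 380193) (nat_lit 0) .nil) .nil))) 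
(.lf (nat_lit 582460) (.g (nat_lit 1372) (.e (nat_lit 344138) (nat_lit 29) (.e (nat_lit 581653) (nat_lit 6) (.e (nat_lit 188438) (nat_lit 20) (.e (nat_lit 3579) (nat_lit 223) (.e (nat_lit 745490) (nat_lit 4) (.e (nat_lit 65620) (nat_lit 10) .nil)))))) (.g (nat_lit 1) (.e (nat_lit 381326) (nat_lit 0) .nil) .nil))))) (.nd (nat_lit 8) (.nd (nat_lit 9) 
(.lf (nat_lit 581820) (.g (nat_lit 1106) (.e (nat_lit 344068) (nat_lit 0) (.e (nat_lit 3090) (nat_lit 191) (.e (nat_lit 483375) (nat_lit 22) (.e (nat_lit 327705) (nat_lit 10) .nil)))) (.g (nat_lit 0) (.e (nat_lit 379723) (nat_lit 0) .nil) .nil))) 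
(.lf (nat_lit 582332) (.g (nat_lit 1468) (.e (nat_lit 344119) (nat_lit 21) (.e (nat_lit 516139) (nat_lit 7) (.e (nat_lit 409647) (nat_lit 18) (.e (nat_lit 303118) (nat_lit 3) .nil)))) (.g (nat_lit 0) (.e (nat_lit 381107) (nat_lit 0) .nil) .nil)))) (.nd (nat_lit 9) 
(.lf (nat_lit 582076) (.g (nat_lit 3279) (.e (nat_lit 344117) (nat_lit 21) (.e (nat_lit 516122) (nat_lit 2) (.e (nat_lit 213033) (nat_lit 12) (.e (nat_lit 163976) (nat_lit 30) (.e (nat_lit 573474) (nat_lit 12) (.e (nat_lit 57528) (nat_lit 46) (.e (nat_lit 704514) (nat_lit 0) (.e (nat_lit 2685) (nat_lit 168) (.e (nat_lit 204862) (nat_lit 27) .nil))))))))) (.g (nat_lit 1) (.e (nat_lit 380758) (nat_lit 0) .nil) .nil))) 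
(.lf (nat_lit 582588) (.g (nat_lit 3287) (.e (nat_lit 344129) (nat_lit 26) (.e (nat_lit 557103) (nat_lit 14) (.e (nat_lit 180250) (nat_lit 10) (.e (nat_lit 573474) (nat_lit 12) (.e (nat_lit 57507) (nat_lit 39) (.e (nat_lit 655104) (nat_lit 0) (.e (nat_lit 2685) (nat_lit 168) (.e (nat_lit 204862) (nat_lit 27) .nil)))))))) (.g (nat_lit 1) (.e (nat_lit 381506) (nat_lit 0) .nil) .nil)))))) 
(.nd (nat_lit 7) (.nd (nat_lit 8) (.nd (nat_lit 9) 
(.lf (nat_lit 581756) (.g (nat_lit 1549) (.e (nat_lit 344068) (nat_lit 0) (.e (nat_lit 3090) (nat_lit 191) (.e (nat_lit 483350) (nat_lit 17) (.e (nat_lit 6095) (nat_lit 332) .nil)))) (.g (nat_lit 0) (.e (nat_lit 379647) (nat_lit 0) .nil) .nil))) 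
(.lf (nat_lit 582268) (.g (nat_lit 3603) (.e (nat_lit 344118) (nat_lit 21) (.e (nat_lit 516139) (nat_lit 7) (.e (nat_lit 409649) (nat_lit 18) (.e (nat_lit 303117) (nat_lit 2) (.e (nat_lit 196666) (nat_lit 13) (.e (nat_lit 65614) (nat_lit 10) .nil)))))) (.g (nat_lit 1) (.e (nat_lit 381025) (nat_lit 0) .nil) .nil)))) (.nd (nat_lit 9) 
(.lf (nat_lit 582012) (.g (nat_lit 2846) (.e (nat_lit 344115) (nat_lit 20) (.e (nat_lit 507908) (nat_lit 0) (.e (nat_lit 5401) (nat_lit 302) (.e (nat_lit 65641) (nat_lit 15) (.e (nat_lit 3305) (nat_lit 202) (.e (nat_lit 573485) (nat_lit 13) (.e (nat_lit 65619) (nat_lit 10) .nil))))))) (.g (nat_lit 1) (.e (nat_lit 380632) (nat_lit 0) .nil) .nil))) 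
(.lf (nat_lit 582524) (.g (nat_lit 3250) (.e (nat_lit 344129) (nat_lit 26) (.e (nat_lit 557067) (nat_lit 9) (.e (nat_lit 2878) (nat_lit 184) (.e (nat_lit 426125) (nat_lit 2) (.e (nat_lit 196652) (nat_lit 11) (.e (nat_lit 16479) (nat_lit 15) (.e (nat_lit 7936) (nat_lit 121) (.e (nat_lit 532544) (nat_lit 10) .nil)))))))) (.g (nat_lit 1) (.e (nat_lit 381433) (nat_lit 0) .nil) .nil))))) 
(.nd (nat_lit 8) (.nd (nat_lit 9) 
(.lf (nat_lit 581884) (.g (nat_lit 406) (.e (nat_lit 344069) (nat_lit 0) (.e (nat_lit 3090) (nat_lit 191) (.e (nat_lit 483354) (nat_lit 17) .nil))) (.g (nat_lit 0) (.e (nat_lit 379861) (nat_lit 0) .nil) .nil))) 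
(.lf (nat_lit 582396) (.g (nat_lit 3348) (.e (nat_lit 344120) (nat_lit 21) (.e (nat_lit 516139) (nat_lit 7) (.e (nat_lit 409649) (nat_lit 18) (.e (nat_lit 303117) (nat_lit 2) (.e (nat_lit 196666) (nat_lit 13) (.e (nat_lit 65614) (nat_lit 10) .nil)))))) (.g (nat_lit 1) (.e (nat_lit 381188) (nat_lit 0) .nil) .nil)))) (.nd (nat_lit 9) 
(.lf (nat_lit 582140) (.g (nat_lit 2019) (.e (nat_lit 344117) (nat_lit 21) (.e (nat_lit 516139) (nat_lit 7) (.e (nat_lit 409645) (nat_lit 18) (.e (nat_lit 303119) (nat_lit 3) (.e (nat_lit 204859) (nat_lit 26) (.e (nat_lit 343808) (nat_lit 10) .nil)))))) (.g (nat_lit 1) (.e (nat_lit 380832) (nat_lit 0) .nil) .nil))) 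
(.lf (nat_lit 582652) (.g (nat_lit 2483) (.e (nat_lit 344130) (nat_lit 26) (.e (nat_lit 557104) (nat_lit 14) (.e (nat_lit 180252) (nat_lit 10) (.e (nat_lit 573474) (nat_lit 12) (.e (nat_lit 57508) (nat_lit 39) (.e (nat_lit 647180) (nat_lit 3) (.e (nat_lit 163962) (nat_lit 25) (.e (nat_lit 532544) (nat_lit 10) .nil)))))))) (.g (nat_lit 1) (.e (nat_lit 381601) (nat_lit 0) .nil) .nil))))))))))) 
(.nd (nat_lit 2) (.nd (nat_lit 3) (.nd (nat_lit 4) (.nd (nat_lit 5) (.nd (nat_lit 6) 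
(.nd (nat_lit 7) (.nd (nat_lit 8) (.nd (nat_lit 9) 
(.lf (nat_lit 581634) (.g (nat_lit 1885) (.e (nat_lit 336456) (nat_lit 34) (.e (nat_lit 483364) (nat_lit 18) (.e (nat_lit 57926) (nat_lit 282) (.e (nat_lit 163866) (nat_lit 2) (.e (nat_lit 196681) (nat_lit 17) (.e (nat_lit 131105) (nat_lit 9) .nil)))))) (.g (nat_lit 1) (.e (nat_lit 379331) (nat_lit 0) .nil) .nil))) 
(.lf (nat_lit 582146) (.g (nat_lit 3016) (.e (nat_lit 344117) (nat_lit 21) (.e (nat_lit 516139) (nat_lit 7) (.e (nat_lit 409646) (nat_lit 18) (.e (nat_lit 303117) (nat_lit 2) (.e (nat_lit 196666) (nat_lit 13) (.e (nat_lit 65609) (nat_lit 10) .nil)))))) (.g (nat_lit 1) (.e (nat_lit 380838) (nat_lit 0) .nil) .nil)))) (.nd (nat_lit 9) 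
(.lf (nat_lit 581890) (.g (nat_lit 2296) (.e (nat_lit 344069) (nat_lit 0) (.e (nat_lit 3090) (nat_lit 191) (.e (nat_lit 483372) (nat_lit 21) (.e (nat_lit 319496) (nat_lit 10) (.e (nat_lit 5722) (nat_lit 312) (.e (nat_lit 300) (nat_lit 22) .nil)))))) (.g (nat_lit 1) (.e (nat_lit 379868) (nat_lit 0) .nil) .nil))) 
(.lf (nat_lit 582402) (.g (nat_lit 2168) (.e (nat_lit 344120) (nat_lit 21) (.e (nat_lit 516179) (nat_lit 15) (.e (nat_lit 475198) (nat_lit 40) (.e (nat_lit 704589) (nat_lit 3) (.e (nat_lit 163976) (nat_lit 30) .nil))))) (.g (nat_lit 0) (.e (nat_lit 381194) (nat_lit 0) .nil) .nil))))) (.nd (nat_lit 8) (.nd (nat_lit 9) 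
(.lf (nat_lit 581762) (.g (nat_lit 2456) (.e (nat_lit 344068) (nat_lit 0) (.e (nat_lit 3090) (nat_lit 191) (.e (nat_lit 483350) (nat_lit 17) (.e (nat_lit 6113) (nat_lit 332) (.e (nat_lit 1376) (nat_lit 104) (.e (nat_lit 303154) (nat_lit 28) .nil)))))) (.g (nat_lit 1) (.e (nat_lit 379654) (nat_lit 0) .nil) .nil))) 
(.lf (nat_lit 582274) (.g (nat_lit 4587) (.e (nat_lit 344118) (nat_lit 21) (.e (nat_lit 516166) (nat_lit 12) (.e (nat_lit 450587) (nat_lit 10) (.e (nat_lit 573477) (nat_lit 12) (.e (nat_lit 57357) (nat_lit 0) .nil))))) (.g (nat_lit 0) (.e (nat_lit 381031) (nat_lit 0) .nil) .nil)))) (.nd (nat_lit 9) 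
(.lf (nat_lit 582018) (.g (nat_lit 1644) (.e (nat_lit 344116) (nat_lit 21) (.e (nat_lit 516138) (nat_lit 7) (.e (nat_lit 409645) (nat_lit 18) (.e (nat_lit 303117) (nat_lit 2) .nil)))) (.g (nat_lit 0) (.e (nat_lit 380661) (nat_lit 0) .nil) .nil))) 
(.lf (nat_lit 582530) (.g (nat_lit 3341) (.e (nat_lit 344129) (nat_lit 26) (.e (nat_lit 557085) (nat_lit 11) (.e (nat_lit 24648) (nat_lit 12) (.e (nat_lit 385074) (nat_lit 31) (.e (nat_lit 573485) (nat_lit 13) (.e (nat_lit 65619) (nat_lit 10) .nil)))))) (.g (nat_lit 1) (.e (nat_lit 381443) (nat_lit 0) .nil) .nil)))))) (.nd (nat_lit 7) (.nd (nat_lit 8) (.nd (nat_lit 9) 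
(.lf (nat_lit 581698) (.g (nat_lit 1335) (.e (nat_lit 344065) (nat_lit 0) (.e (nat_lit 2663) (nat_lit 167) (.e (nat_lit 196666) (nat_lit 13) (.e (nat_lit 65617) (nat_lit 10) .nil)))) (.g (nat_lit 0) (.e (nat_lit 379473) (nat_lit 0) .nil) .nil))) 
(.lf (nat_lit 582210) (.g (nat_lit 3359) (.e (nat_lit 344117) (nat_lit 21) (.e (nat_lit 516179) (nat_lit 15) (.e (nat_lit 475198) (nat_lit 40) (.e (nat_lit 704589) (nat_lit 3) (.e (nat_lit 163975) (nat_lit 30) (.e (nat_lit 573481) (nat_lit 13) (.e (nat_lit 65609) (nat_lit 10) .nil))))))) (.g (nat_lit 1) (.e (nat_lit 380911) (nat_lit 0) .nil) .nil)))) (.nd (nat_lit 9) 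
(.lf (nat_lit 581954) (.g (nat_lit 255) (.e (nat_lit 352000) (nat_lit 7) (.e (nat_lit 237636) (nat_lit 27) (.e (nat_lit 336202) (nat_lit 12) .nil))) (.g (nat_lit 0) (.e (nat_lit 380199) (nat_lit 0) .nil) .nil))) 
(.lf (nat_lit 582466) (.g (nat_lit 2932) (.e (nat_lit 344138) (nat_lit 29) (.e (nat_lit 581653) (nat_lit 6) (.e (nat_lit 188439) (nat_lit 20) (.e (nat_lit 3579) (nat_lit 223) (.e (nat_lit 745491) (nat_lit 4) (.e (nat_lit 65617) (nat_lit 10) .nil)))))) (.g (nat_lit 1) (.e (nat_lit 381332) (nat_lit 0) .nil) .nil))))) (.nd (nat_lit 8) (.nd (nat_lit 9) 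
(.lf (nat_lit 581826) (.g (nat_lit 2556) (.e (nat_lit 344068) (nat_lit 0) (.e (nat_lit 3090) (nat_lit 191) (.e (nat_lit 483409) (nat_lit 27) (.e (nat_lit 401438) (nat_lit 9) (.e (nat_lit 426533) (nat_lit 28) .nil))))) (.g (nat_lit 1) (.e (nat_lit 379748) (nat_lit 0) .nil) .nil))) 
(.lf (nat_lit 582338) (.g (nat_lit 1773) (.e (nat_lit 344119) (nat_lit 21) (.e (nat_lit 516139) (nat_lit 7) (.e (nat_lit 409648) (nat_lit 18) (.e (nat_lit 303112) (nat_lit 0) .nil)))) (.g (nat_lit 0) (.e (nat_lit 381114) (nat_lit 0) .nil) .nil)))) (.nd (nat_lit 9) 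
(.lf (nat_lit 582082) (.g (nat_lit 3964) (.e (nat_lit 344117) (nat_lit 21) (.e (nat_lit 516123) (nat_lit 2) (.e (nat_lit 213033) (nat_lit 12) (.e (nat_lit 163979) (nat_lit 30) (.e (nat_lit 573474) (nat_lit 12) (.e (nat_lit 57528) (nat_lit 46) (.e (nat_lit 704514) (nat_lit 0) (.e (nat_lit 2685) (nat_lit 168) (.e (nat_lit 204863) (nat_lit 27) .nil))))))))) (.g (nat_lit 1) (.e (nat_lit 380764) (nat_lit 0) .nil) .nil))) 
(.lf (nat_lit 582594) (.g (nat_lit 2763) (.e (nat_lit 344129) (nat_lit 26) (.e (nat_lit 557104) (nat_lit 14) (.e (nat_lit 180252) (nat_lit 10) (.e (nat_lit 573474) (nat_lit 12) (.e (nat_lit 57349) (nat_lit 0) .nil))))) (.g (nat_lit 0) (.e (nat_lit 381512) (nat_lit 0) .nil) .nil))))))) (.nd (nat_lit 6) (.nd (nat_lit 7) (.nd (nat_lit 8) (.nd (nat_lit 9) 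
(.lf (nat_lit 581666) (.g (nat_lit 3306) (.e (nat_lit 336456) (nat_lit 34) (.e (nat_lit 483378) (nat_lit 23) (.e (nat_lit 336324) (nat_lit 18) (.e (nat_lit 204831) (nat_lit 18) (.e (nat_lit 57846) (nat_lit 252) .nil))))) (.g (nat_lit 0) (.e (nat_lit 379366) (nat_lit 0) .nil) .nil))) 
(.lf (nat_lit 582178) (.g (nat_lit 2878) (.e (nat_lit 344117) (nat_lit 21) (.e (nat_lit 516141) (nat_lit 8) (.e (nat_lit 417828) (nat_lit 18) (.e (nat_lit 303119) (nat_lit 3) (.e (nat_lit 204855) (nat_lit 26) (.e (nat_lit 336176) (nat_lit 10) .nil)))))) (.g (nat_lit 1) (.e (nat_lit 380870) (nat_lit 0) .nil) .nil)))) (.nd (nat_lit 9) 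
(.lf (nat_lit 581922) (.g (nat_lit 2561) (.e (nat_lit 344069) (nat_lit 0) (.e (nat_lit 3090) (nat_lit 191) (.e (nat_lit 483410) (nat_lit 27) (.e (nat_lit 401436) (nat_lit 9) (.e (nat_lit 426533) (nat_lit 28) .nil))))) (.g (nat_lit 1) (.e (nat_lit 379920) (nat_lit 0) .nil) .nil))) 
(.lf (nat_lit 582434) (.g (nat_lit 1755) (.e (nat_lit 344138) (nat_lit 29) (.e (nat_lit 581653) (nat_lit 6) (.e (nat_lit 188428) (nat_lit 20) (.e (nat_lit 3572) (nat_lit 222) (.e (nat_lit 737300) (nat_lit 7) (.e (nat_lit 286753) (nat_lit 10) .nil)))))) (.g (nat_lit 1) (.e (nat_lit 381299) (nat_lit 0) .nil) .nil))))) (.nd (nat_lit 8) (.nd (nat_lit 9) 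
(.lf (nat_lit 581794) (.g (nat_lit 1565) (.e (nat_lit 344068) (nat_lit 0) (.e (nat_lit 3090) (nat_lit 191) (.e (nat_lit 483372) (nat_lit 21) (.e (nat_lit 319504) (nat_lit 10) (.e (nat_lit 7936) (nat_lit 312) (.e (nat_lit 300) (nat_lit 22) .nil)))))) (.g (nat_lit 1) (.e (nat_lit 379688) (nat_lit 0) .nil) .nil))) 
(.lf (nat_lit 582306) (.g (nat_lit 1970) (.e (nat_lit 344119) (nat_lit 21) (.e (nat_lit 516139) (nat_lit 7) (.e (nat_lit 409643) (nat_lit 18) (.e (nat_lit 303118) (nat_lit 3) (.e (nat_lit 204855) (nat_lit 26) .nil))))) (.g (nat_lit 0) (.e (nat_lit 381080) (nat_lit 0) .nil) .nil)))) (.nd (nat_lit 9) 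
(.lf (nat_lit 582050) (.g (nat_lit 4617) (.e (nat_lit 344117) (nat_lit 21) (.e (nat_lit 516106) (nat_lit 0) (.e (nat_lit 7095) (nat_lit 380) (.e (nat_lit 164365) (nat_lit 246) (.e (nat_lit 2664) (nat_lit 167) (.e (nat_lit 196666) (nat_lit 13) (.e (nat_lit 65610) (nat_lit 10) .nil))))))) (.g (nat_lit 1) (.e (nat_lit 380703) (nat_lit 0) .nil) .nil))) 
(.lf (nat_lit 582562) (.g (nat_lit 4858) (.e (nat_lit 344129) (nat_lit 26) (.e (nat_lit 557087) (nat_lit 11) (.e (nat_lit 24665) (nat_lit 14) (.e (nat_lit 401424) (nat_lit 2) (.e (nat_lit 196666) (nat_lit 13) (.e (nat_lit 65610) (nat_lit 10) .nil)))))) (.g (nat_lit 1) (.e (nat_lit 381475) (nat_lit 0) .nil) .nil)))))) (.nd (nat_lit 7) (.nd (nat_lit 8) (.nd (nat_lit 9) 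
(.lf (nat_lit 581730) (.g (nat_lit 202) (.e (nat_lit 344068) (nat_lit 0) (.e (nat_lit 2856) (nat_lit 184) (.e (nat_lit 426533) (nat_lit 28) .nil))) (.g (nat_lit 0) (.e (nat_lit 379563) (nat_lit 0) .nil) .nil))) 
(.lf (nat_lit 582242) (.g (nat_lit 1952) (.e (nat_lit 344118) (nat_lit 21) (.e (nat_lit 516119) (nat_lit 1) (.e (nat_lit 164176) (nat_lit 154) (.e (nat_lit 57375) (nat_lit 2) (.e (nat_lit 90181) (nat_lit 16) .nil))))) (.g (nat_lit 0) (.e (nat_lit 380974) (nat_lit 0) .nil) .nil)))) (.nd (nat_lit 9) 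
(.lf (nat_lit 581986) (.g (nat_lit 2010) (.e (nat_lit 344100) (nat_lit 18) (.e (nat_lit 5905) (nat_lit 320) (.e (nat_lit 1209) (nat_lit 89) (.e (nat_lit 73781) (nat_lit 32) .nil)))) (.g (nat_lit 0) (.e (nat_lit 380522) (nat_lit 0) .nil) .nil))) 
(.lf (nat_lit 582498) (.g (nat_lit 3229) (.e (nat_lit 344127) (nat_lit 26) (.e (nat_lit 557090) (nat_lit 12) (.e (nat_lit 164022) (nat_lit 46) (.e (nat_lit 704628) (nat_lit 9) (.e (nat_lit 375) (nat_lit 32) (.e (nat_lit 426125) (nat_lit 2) (.e (nat_lit 196666) (nat_lit 13) (.e (nat_lit 65617) (nat_lit 10) .nil)))))))) (.g (nat_lit 1) (.e (nat_lit 381376) (nat_lit 0) .nil) .nil))))) 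
(.nd (nat_lit 8) (.nd (nat_lit 9) 
(.lf (nat_lit 581858) (.g (nat_lit 250) (.e (nat_lit 344069) (nat_lit 0) (.e (nat_lit 3090) (nat_lit 191) (.e (nat_lit 483347) (nat_lit 17) .nil))) (.g (nat_lit 0) (.e (nat_lit 379834) (nat_lit 0) .nil) .nil))) 
(.lf (nat_lit 582370) (.g (nat_lit 1347) (.e (nat_lit 344119) (nat_lit 21) (.e (nat_lit 516179) (nat_lit 15) (.e (nat_lit 475198) (nat_lit 40) (.e (nat_lit 704589) (nat_lit 3) .nil)))) (.g (nat_lit 0) (.e (nat_lit 381151) (nat_lit 0) .nil) .nil)))) (.nd (nat_lit 9) 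
(.lf (nat_lit 582114) (.g (nat_lit 4742) (.e (nat_lit 344117) (nat_lit 21) (.e (nat_lit 516139) (nat_lit 7) (.e (nat_lit 409623) (nat_lit 10) (.e (nat_lit 5664) (nat_lit 312) (.e (nat_lit 2661) (nat_lit 167) (.e (nat_lit 196666) (nat_lit 13) (.e (nat_lit 65610) (nat_lit 10) .nil))))))) (.g (nat_lit 1) (.e (nat_lit 380804) (nat_lit 0) .nil) .nil))) 
(.lf (nat_lit 582626) (.g (nat_lit 2991) (.e (nat_lit 344130) (nat_lit 26) (.e (nat_lit 557103) (nat_lit 14) (.e (nat_lit 180250) (nat_lit 10) (.e (nat_lit 573473) (nat_lit 12) (.e (nat_lit 57511) (nat_lit 39) (.e (nat_lit 655104) (nat_lit 0) (.e (nat_lit 2684) (nat_lit 168) (.e (nat_lit 204863) (nat_lit 27) .nil)))))))) (.g (nat_lit 1) (.e (nat_lit 381575) (nat_lit 0) .nil) .nil)))))))) 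
(.nd (nat_lit 5) (.nd (nat_lit 6) (.nd (nat_lit 7) (.nd (nat_lit 8) (.nd (nat_lit 9) 
(.lf (nat_lit 581650) (.g (nat_lit 3698) (.e (nat_lit 336456) (nat_lit 34) (.e (nat_lit 483365) (nat_lit 18) (.e (nat_lit 57847) (nat_lit 252) (.e (nat_lit 57372) (nat_lit 2) (.e (nat_lit 90160) (nat_lit 11) (.e (nat_lit 24623) (nat_lit 9) .nil)))))) (.g (nat_lit 1) (.e (nat_lit 379349) (nat_lit 0) .nil) .nil))) 
(.lf (nat_lit 582162) (.g (nat_lit 4894) (.e (nat_lit 344117) (nat_lit 21) (.e (nat_lit 516139) (nat_lit 7) (.e (nat_lit 409648) (nat_lit 18) (.e (nat_lit 303116) (nat_lit 2) (.e (nat_lit 196666) (nat_lit 13) (.e (nat_lit 65610) (nat_lit 10) .nil)))))) (.g (nat_lit 1) (.e (nat_lit 380854) (nat_lit 0) .nil) .nil)))) (.nd (nat_lit 9) 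
(.lf (nat_lit 581906) (.g (nat_lit 1996) (.e (nat_lit 344069) (nat_lit 0) (.e (nat_lit 3090) (nat_lit 191) (.e (nat_lit 483372) (nat_lit 21) (.e (nat_lit 319505) (nat_lit 10) (.e (nat_lit 7936) (nat_lit 312) (.e (nat_lit 299) (nat_lit 22) .nil)))))) (.g (nat_lit 1) (.e (nat_lit 379887) (nat_lit 0) .nil) .nil))) 
(.lf (nat_lit 582418) (.g (nat_lit 1828) (.e (nat_lit 344138) (nat_lit 29) (.e (nat_lit 581651) (nat_lit 4) (.e (nat_lit 172106) (nat_lit 10) (.e (nat_lit 434295) (nat_lit 49) (.e (nat_lit 745491) (nat_lit 4) (.e (nat_lit 65611) (nat_lit 10) .nil)))))) (.g (nat_lit 1) (.e (nat_lit 381276) (nat_lit 0) .nil) .nil))))) (.nd (nat_lit 8) (.nd (nat_lit 9) 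
(.lf (nat_lit 581778) (.g (nat_lit 1229) (.e (nat_lit 344068) (nat_lit 0) (.e (nat_lit 3090) (nat_lit 191) (.e (nat_lit 483350) (nat_lit 17) (.e (nat_lit 7936) (nat_lit 364) .nil)))) (.g (nat_lit 0) (.e (nat_lit 379670) (nat_lit 0) .nil) .nil))) 
(.lf (nat_lit 582290) (.g (nat_lit 1406) (.e (nat_lit 344119) (nat_lit 21) (.e (nat_lit 516117) (nat_lit 1) (.e (nat_lit 164182) (nat_lit 154) (.e (nat_lit 57411) (nat_lit 12) .nil)))) (.g (nat_lit 0) (.e (nat_lit 381050) (nat_lit 0) .nil) .nil)))) (.nd (nat_lit 9) 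
(.lf (nat_lit 582034) (.g (nat_lit 2246) (.e (nat_lit 344116) (nat_lit 21) (.e (nat_lit 516179) (nat_lit 15) (.e (nat_lit 475199) (nat_lit 40) (.e (nat_lit 704589) (nat_lit 3) (.e (nat_lit 163976) (nat_lit 30) .nil))))) (.g (nat_lit 0) (.e (nat_lit 380679) (nat_lit 0) .nil) .nil))) 
(.lf (nat_lit 582546) (.g (nat_lit 4140) (.e (nat_lit 344129) (nat_lit 26) (.e (nat_lit 557087) (nat_lit 11) (.e (nat_lit 24631) (nat_lit 9) (.e (nat_lit 336295) (nat_lit 15) (.e (nat_lit 3305) (nat_lit 202) (.e (nat_lit 573485) (nat_lit 13) (.e (nat_lit 65619) (nat_lit 10) .nil))))))) (.g (nat_lit 1) (.e (nat_lit 381459) (nat_lit 0) .nil) .nil)))))) 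
(.nd (nat_lit 7) (.nd (nat_lit 8) (.nd (nat_lit 9) 
(.lf (nat_lit 581714) (.g (nat_lit 1613) (.e (nat_lit 344067) (nat_lit 0) (.e (nat_lit 2939) (nat_lit 184) (.e (nat_lit 426532) (nat_lit 28) (.e (nat_lit 344068) (nat_lit 0) (.e (nat_lit 2857) (nat_lit 184) (.e (nat_lit 426533) (nat_lit 28) .nil)))))) (.g (nat_lit 1) (.e (nat_lit 379516) (nat_lit 0) .nil) .nil))) 
(.lf (nat_lit 582226) (.g (nat_lit 2499) (.e (nat_lit 344117) (nat_lit 21) (.e (nat_lit 516195) (nat_lit 26) (.e (nat_lit 335995) (nat_lit 1) (.e (nat_lit 57931) (nat_lit 282) (.e (nat_lit 163901) (nat_lit 12) (.e (nat_lit 426506) (nat_lit 27) (.e (nat_lit 336178) (nat_lit 10) .nil))))))) (.g (nat_lit 1) (.e (nat_lit 380938) (nat_lit 0) .nil) .nil)))) (.nd (nat_lit 9) 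
(.lf (nat_lit 581970) (.g (nat_lit 1652) (.e (nat_lit 344096) (nat_lit 18) (.e (nat_lit 7125) (nat_lit 382) (.e (nat_lit 1222) (nat_lit 90) (.e (nat_lit 81943) (nat_lit 20) (.e (nat_lit 2281) (nat_lit 150) .nil))))) (.g (nat_lit 0) (.e (nat_lit 380449) (nat_lit 0) .nil) .nil))) 
(.lf (nat_lit 582482) (.g (nat_lit 2804) (.e (nat_lit 344138) (nat_lit 29) (.e (nat_lit 581653) (nat_lit 6) (.e (nat_lit 188441) (nat_lit 20) (.e (nat_lit 3579) (nat_lit 223) (.e (nat_lit 745491) (nat_lit 4) (.e (nat_lit 65619) (nat_lit 10) .nil)))))) (.g (nat_lit 1) (.e (nat_lit 381348) (nat_lit 0) .nil) .nil))))) (.nd (nat_lit 8) (.nd (nat_lit 9) 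
(.lf (nat_lit 581842) (.g (nat_lit 1557) (.e (nat_lit 344069) (nat_lit 0) (.e (nat_lit 2857) (nat_lit 184) (.e (nat_lit 426530) (nat_lit 27) (.e (nat_lit 335874) (nat_lit 0) (.e (nat_lit 6717) (nat_lit 361) (.e (nat_lit 179968) (nat_lit 28) .nil)))))) (.g (nat_lit 1) (.e (nat_lit 379790) (nat_lit 0) .nil) .nil))) 
(.lf (nat_lit 582354) (.g (nat_lit 2124) (.e (nat_lit 344119) (nat_lit 21) (.e (nat_lit 516139) (nat_lit 7) (.e (nat_lit 409649) (nat_lit 18) (.e (nat_lit 303117) (nat_lit 2) (.e (nat_lit 196666) (nat_lit 13) .nil))))) (.g (nat_lit 0) (.e (nat_lit 381131) (nat_lit 0) .nil) .nil)))) (.nd (nat_lit 9) 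
(.lf (nat_lit 582098) (.g (nat_lit 2989) (.e (nat_lit 344117) (nat_lit 21) (.e (nat_lit 516138) (nat_lit 7) (.e (nat_lit 409645) (nat_lit 18) (.e (nat_lit 303117) (nat_lit 2) (.e (nat_lit 196665) (nat_lit 13) (.e (nat_lit 65615) (nat_lit 10) .nil)))))) (.g (nat_lit 1) (.e (nat_lit 380785) (nat_lit 0) .nil) .nil))) 
(.lf (nat_lit 582610) (.g (nat_lit 3220) (.e (nat_lit 344130) (nat_lit 26) (.e (nat_lit 557087) (nat_lit 11) (.e (nat_lit 24625) (nat_lit 9) (.e (nat_lit 336259) (nat_lit 15) .nil)))) (.g (nat_lit 0) (.e (nat_lit 381534) (nat_lit 0) .nil) .nil))))))) (.nd (nat_lit 6) (.nd (nat_lit 7) (.nd (nat_lit 8) (.nd (nat_lit 9) 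
(.lf (nat_lit 581682) (.g (nat_lit 1037) (.e (nat_lit 336456) (nat_lit 34) (.e (nat_lit 483395) (nat_lit 24) (.e (nat_lit 344117) (nat_lit 21) (.e (nat_lit 516114) (nat_lit 1) .nil)))) (.g (nat_lit 0) (.e (nat_lit 379394) (nat_lit 0) .nil) .nil))) 
(.lf (nat_lit 582194) (.g (nat_lit 6126) (.e (nat_lit 344117) (nat_lit 21) (.e (nat_lit 516151) (nat_lit 9) (.e (nat_lit 426412) (nat_lit 15) (.e (nat_lit 2174) (nat_lit 143) (.e (nat_lit 712722) (nat_lit 15) (.e (nat_lit 3302) (nat_lit 202) (.e (nat_lit 573484) (nat_lit 13) (.e (nat_lit 65610) (nat_lit 10) .nil)))))))) (.g (nat_lit 1) (.e (nat_lit 380891) (nat_lit 0) .nil) .nil)))) 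
(.nd (nat_lit 9) 
(.lf (nat_lit 581938) (.g (nat_lit 1661) (.e (nat_lit 352000) (nat_lit 3) (.e (nat_lit 163978) (nat_lit 30) (.e (nat_lit 573489) (nat_lit 14) (.e (nat_lit 73768) (nat_lit 19) .nil)))) (.g (nat_lit 0) (.e (nat_lit 380089) (nat_lit 0) .nil) .nil))) 
(.lf (nat_lit 582450) (.g (nat_lit 2776) (.e (nat_lit 344138) (nat_lit 29) (.e (nat_lit 581653) (nat_lit 6) (.e (nat_lit 188434) (nat_lit 20) (.e (nat_lit 3579) (nat_lit 223) (.e (nat_lit 745491) (nat_lit 4) (.e (nat_lit 65620) (nat_lit 10) .nil)))))) (.g (nat_lit 1) (.e (nat_lit 381316) (nat_lit 0) .nil) .nil))))) (.nd (nat_lit 8) (.nd (nat_lit 9) 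
(.lf (nat_lit 581810) (.g (nat_lit 1574) (.e (nat_lit 344068) (nat_lit 0) (.e (nat_lit 3090) (nat_lit 191) (.e (nat_lit 483372) (nat_lit 21) (.e (nat_lit 319511) (nat_lit 10) .nil)))) (.g (nat_lit 0) (.e (nat_lit 379710) (nat_lit 0) .nil) .nil))) 
(.lf (nat_lit 582322) (.g (nat_lit 2389) (.e (nat_lit 344119) (nat_lit 21) (.e (nat_lit 516139) (nat_lit 7) (.e (nat_lit 409646) (nat_lit 18) (.e (nat_lit 303112) (nat_lit 0) (.e (nat_lit 3252) (nat_lit 197) .nil))))) (.g (nat_lit 0) (.e (nat_lit 381096) (nat_lit 0) .nil) .nil)))) (.nd (nat_lit 9) 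
(.lf (nat_lit 582066) (.g (nat_lit 1554) (.e (nat_lit 344117) (nat_lit 21) (.e (nat_lit 516115) (nat_lit 1) (.e (nat_lit 164182) (nat_lit 154) (.e (nat_lit 57410) (nat_lit 12) (.e (nat_lit 336456) (nat_lit 34) .nil))))) (.g (nat_lit 0) (.e (nat_lit 380743) (nat_lit 0) .nil) .nil))) 
(.lf (nat_lit 582578) (.g (nat_lit 2815) (.e (nat_lit 344129) (nat_lit 26) (.e (nat_lit 557103) (nat_lit 14) (.e (nat_lit 180243) (nat_lit 5) (.e (nat_lit 532499) (nat_lit 1) (.e (nat_lit 57704) (nat_lit 164) .nil))))) (.g (nat_lit 0) (.e (nat_lit 381496) (nat_lit 0) .nil) .nil)))))) (.nd (nat_lit 7) (.nd (nat_lit 8) (.nd (nat_lit 9) 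
(.lf (nat_lit 581746) (.g (nat_lit 1272) (.e (nat_lit 344068) (nat_lit 0) (.e (nat_lit 3090) (nat_lit 191) (.e (nat_lit 483342) (nat_lit 17) (.e (nat_lit 6113) (nat_lit 332) (.e (nat_lit 1376) (nat_lit 104) .nil))))) (.g (nat_lit 0) (.e (nat_lit 379637) (nat_lit 0) .nil) .nil))) 
(.lf (nat_lit 582258) (.g (nat_lit 2439) (.e (nat_lit 344118) (nat_lit 21) (.e (nat_lit 516120) (nat_lit 1) (.e (nat_lit 164183) (nat_lit 154) (.e (nat_lit 57379) (nat_lit 3) (.e (nat_lit 98321) (nat_lit 17) (.e (nat_lit 3771) (nat_lit 229) (.e (nat_lit 794673) (nat_lit 23) (.e (nat_lit 204862) (nat_lit 27) .nil)))))))) (.g (nat_lit 1) (.e (nat_lit 381010) (nat_lit 0) .nil) .nil)))) 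
(.nd (nat_lit 9) 
(.lf (nat_lit 582002) (.g (nat_lit 2269) (.e (nat_lit 344100) (nat_lit 18) (.e (nat_lit 7270) (nat_lit 385) (.e (nat_lit 122919) (nat_lit 15) (.e (nat_lit 368384) (nat_lit 24) .nil)))) (.g (nat_lit 0) (.e (nat_lit 380545) (nat_lit 0) .nil) .nil))) 
(.lf (nat_lit 582514) (.g (nat_lit 3139) (.e (nat_lit 344129) (nat_lit 26) (.e (nat_lit 557065) (nat_lit 9) (.e (nat_lit 3098) (nat_lit 192) (.e (nat_lit 491571) (nat_lit 13) (.e (nat_lit 393252) (nat_lit 18) (.e (nat_lit 164181) (nat_lit 154) (.e (nat_lit 57420) (nat_lit 13) .nil))))))) (.g (nat_lit 1) (.e (nat_lit 381400) (nat_lit 0) .nil) .nil))))) (.nd (nat_lit 8) (.nd (nat_lit 9) 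
(.lf (nat_lit 581874) (.g (nat_lit 2972) (.e (nat_lit 344069) (nat_lit 0) (.e (nat_lit 3090) (nat_lit 191) (.e (nat_lit 483350) (nat_lit 17) (.e (nat_lit 6218) (nat_lit 333) (.e (nat_lit 57862) (nat_lit 256) (.e (nat_lit 300) (nat_lit 22) .nil)))))) (.g (nat_lit 1) (.e (nat_lit 379851) (nat_lit 0) .nil) .nil))) 
(.lf (nat_lit 582386) (.g (nat_lit 1532) (.e (nat_lit 344120) (nat_lit 21) (.e (nat_lit 516131) (nat_lit 3) (.e (nat_lit 221215) (nat_lit 23) (.e (nat_lit 204819) (nat_lit 17) .nil)))) (.g (nat_lit 0) (.e (nat_lit 381175) (nat_lit 0) .nil) .nil)))) (.nd (nat_lit 9) 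
(.lf (nat_lit 582130) (.g (nat_lit 3936) (.e (nat_lit 344117) (nat_lit 21) (.e (nat_lit 516139) (nat_lit 7) (.e (nat_lit 409645) (nat_lit 18) (.e (nat_lit 303118) (nat_lit 3) (.e (nat_lit 204855) (nat_lit 26) (.e (nat_lit 336178) (nat_lit 10) .nil)))))) (.g (nat_lit 1) (.e (nat_lit 380822) (nat_lit 0) .nil) .nil))) 
(.lf (nat_lit 582642) (.g (nat_lit 3196) (.e (nat_lit 344130) (nat_lit 26) (.e (nat_lit 557103) (nat_lit 14) (.e (nat_lit 180250) (nat_lit 10) (.e (nat_lit 573475) (nat_lit 12) (.e (nat_lit 57508) (nat_lit 39) (.e (nat_lit 655104) (nat_lit 0) (.e (nat_lit 2684) (nat_lit 168) (.e (nat_lit 204862) (nat_lit 27) .nil)))))))) (.g (nat_lit 1) (.e (nat_lit 381591) (nat_lit 0) .nil) .nil))))))))) 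
(.nd (nat_lit 4) (.nd (nat_lit 5) (.nd (nat_lit 6) (.nd (nat_lit 7) (.nd (nat_lit 8) 
(.nd (nat_lit 9) 
(.lf (nat_lit 581642) (.g (nat_lit 2379) (.e (nat_lit 336456) (nat_lit 34) (.e (nat_lit 483364) (nat_lit 18) (.e (nat_lit 57931) (nat_lit 282) (.e (nat_lit 163866) (nat_lit 2) (.e (nat_lit 196681) (nat_lit 17) (.e (nat_lit 131105) (nat_lit 9) .nil)))))) (.g (nat_lit 1) (.e (nat_lit 379341) (nat_lit 0) .nil) .nil))) 
(.lf (nat_lit 582154) (.g (nat_lit 3123) (.e (nat_lit 344117) (nat_lit 21) (.e (nat_lit 516139) (nat_lit 7) (.e (nat_lit 409646) (nat_lit 18) (.e (nat_lit 303119) (nat_lit 3) (.e (nat_lit 204856) (nat_lit 26) (.e (nat_lit 336177) (nat_lit 10) .nil)))))) (.g (nat_lit 1) (.e (nat_lit 380846) (nat_lit 0) .nil) .nil)))) (.nd (nat_lit 9) 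
(.lf (nat_lit 581898) (.g (nat_lit 812) (.e (nat_lit 344069) (nat_lit 0) (.e (nat_lit 3090) (nat_lit 191) (.e (nat_lit 483372) (nat_lit 21) (.e (nat_lit 319505) (nat_lit 10) .nil)))) (.g (nat_lit 0) (.e (nat_lit 379878) (nat_lit 0) .nil) .nil))) 
(.lf (nat_lit 582410) (.g (nat_lit 481) (.e (nat_lit 344126) (nat_lit 25) (.e (nat_lit 548874) (nat_lit 5) (.e (nat_lit 1535) (nat_lit 109) .nil))) (.g (nat_lit 0) (.e (nat_lit 381209) (nat_lit 0) .nil) .nil))))) (.nd (nat_lit 8) (.nd (nat_lit 9) 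
(.lf (nat_lit 581770) (.g (nat_lit 2253) (.e (nat_lit 344068) (nat_lit 0) (.e (nat_lit 3090) (nat_lit 191) (.e (nat_lit 483350) (nat_lit 17) (.e (nat_lit 6212) (nat_lit 333) (.e (nat_lit 57865) (nat_lit 256) (.e (nat_lit 300) (nat_lit 22) .nil)))))) (.g (nat_lit 1) (.e (nat_lit 379662) (nat_lit 0) .nil) .nil))) 
(.lf (nat_lit 582282) (.g (nat_lit 1512) (.e (nat_lit 344118) (nat_lit 21) (.e (nat_lit 516179) (nat_lit 15) (.e (nat_lit 475199) (nat_lit 40) (.e (nat_lit 704589) (nat_lit 3) .nil)))) (.g (nat_lit 0) (.e (nat_lit 381039) (nat_lit 0) .nil) .nil)))) (.nd (nat_lit 9) 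
(.lf (nat_lit 582026) (.g (nat_lit 1526) (.e (nat_lit 344116) (nat_lit 21) (.e (nat_lit 516139) (nat_lit 7) (.e (nat_lit 409649) (nat_lit 18) (.e (nat_lit 303111) (nat_lit 0) .nil)))) (.g (nat_lit 0) (.e (nat_lit 380671) (nat_lit 0) .nil) .nil))) 
(.lf (nat_lit 582538) (.g (nat_lit 3924) (.e (nat_lit 344129) (nat_lit 26) (.e (nat_lit 557087) (nat_lit 11) (.e (nat_lit 24588) (nat_lit 0) (.e (nat_lit 6676) (nat_lit 357) (.e (nat_lit 2664) (nat_lit 167) (.e (nat_lit 196666) (nat_lit 13) (.e (nat_lit 65610) (nat_lit 10) .nil))))))) (.g (nat_lit 1) (.e (nat_lit 381451) (nat_lit 0) .nil) .nil)))))) 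
(.nd (nat_lit 7) (.nd (nat_lit 8) (.nd (nat_lit 9) 
(.lf (nat_lit 581706) (.g (nat_lit 2200) (.e (nat_lit 344066) (nat_lit 0) (.e (nat_lit 2940) (nat_lit 184) (.e (nat_lit 426532) (nat_lit 28) (.e (nat_lit 344069) (nat_lit 0) (.e (nat_lit 2857) (nat_lit 184) (.e (nat_lit 426533) (nat_lit 28) .nil)))))) (.g (nat_lit 1) (.e (nat_lit 379493) (nat_lit 0) .nil) .nil))) 
(.lf (nat_lit 582218) (.g (nat_lit 3020) (.e (nat_lit 344117) (nat_lit 21) (.e (nat_lit 516185) (nat_lit 16) (.e (nat_lit 491560) (nat_lit 10) (.e (nat_lit 344097) (nat_lit 18) (.e (nat_lit 4073) (nat_lit 245) .nil))))) (.g (nat_lit 0) (.e (nat_lit 380920) (nat_lit 0) .nil) .nil)))) (.nd (nat_lit 9) 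
(.lf (nat_lit 581962) (.g (nat_lit 3291) (.e (nat_lit 344090) (nat_lit 18) (.e (nat_lit 7607) (nat_lit 410) (.e (nat_lit 2630) (nat_lit 164) (.e (nat_lit 172106) (nat_lit 10) (.e (nat_lit 434241) (nat_lit 27) (.e (nat_lit 565267) (nat_lit 4) (.e (nat_lit 65610) (nat_lit 10) .nil))))))) (.g (nat_lit 1) (.e (nat_lit 380343) (nat_lit 0) .nil) .nil))) 
(.lf (nat_lit 582474) (.g (nat_lit 2869) (.e (nat_lit 344138) (nat_lit 29) (.e (nat_lit 581653) (nat_lit 6) (.e (nat_lit 188440) (nat_lit 20) (.e (nat_lit 3579) (nat_lit 223) (.e (nat_lit 745491) (nat_lit 4) (.e (nat_lit 65617) (nat_lit 10) .nil)))))) (.g (nat_lit 1) (.e (nat_lit 381340) (nat_lit 0) .nil) .nil))))) (.nd (nat_lit 8) (.nd (nat_lit 9) 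
(.lf (nat_lit 581834) (.g (nat_lit 1208) (.e (nat_lit 344069) (nat_lit 0) (.e (nat_lit 2856) (nat_lit 184) (.e (nat_lit 426482) (nat_lit 27) (.e (nat_lit 336226) (nat_lit 14) .nil)))) (.g (nat_lit 0) (.e (nat_lit 379776) (nat_lit 0) .nil) .nil))) 
(.lf (nat_lit 582346) (.g (nat_lit 2331) (.e (nat_lit 344119) (nat_lit 21) (.e (nat_lit 516139) (nat_lit 7) (.e (nat_lit 409648) (nat_lit 18) (.e (nat_lit 303119) (nat_lit 3) (.e (nat_lit 204852) (nat_lit 26) .nil))))) (.g (nat_lit 0) (.e (nat_lit 381123) (nat_lit 0) .nil) .nil)))) (.nd (nat_lit 9) 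
(.lf (nat_lit 582090) (.g (nat_lit 3137) (.e (nat_lit 344117) (nat_lit 21) (.e (nat_lit 516129) (nat_lit 3) (.e (nat_lit 221214) (nat_lit 23) (.e (nat_lit 204830) (nat_lit 18) (.e (nat_lit 57925) (nat_lit 282) (.e (nat_lit 163875) (nat_lit 3) (.e (nat_lit 204863) (nat_lit 27) .nil))))))) (.g (nat_lit 1) (.e (nat_lit 380772) (nat_lit 0) .nil) .nil))) 
(.lf (nat_lit 582602) (.g (nat_lit 4000) (.e (nat_lit 344129) (nat_lit 26) (.e (nat_lit 557104) (nat_lit 14) (.e (nat_lit 180252) (nat_lit 10) (.e (nat_lit 573475) (nat_lit 12) (.e (nat_lit 57508) (nat_lit 39) (.e (nat_lit 647175) (nat_lit 0) (.e (nat_lit 2684) (nat_lit 168) (.e (nat_lit 204862) (nat_lit 27) .nil)))))))) (.g (nat_lit 1) (.e (nat_lit 381520) (nat_lit 0) .nil) .nil))))))) 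
(.nd (nat_lit 6) (.nd (nat_lit 7) (.nd (nat_lit 8) (.nd (nat_lit 9) 
(.lf (nat_lit 581674) (.g (nat_lit 3046) (.e (nat_lit 336456) (nat_lit 34) (.e (nat_lit 483383) (nat_lit 23) (.e (nat_lit 336019) (nat_lit 3) (.e (nat_lit 98334) (nat_lit 18) (.e (nat_lit 164184) (nat_lit 155) (.e (nat_lit 122903) (nat_lit 12) .nil)))))) (.g (nat_lit 1) (.e (nat_lit 379381) (nat_lit 0) .nil) .nil))) 
(.lf (nat_lit 582186) (.g (nat_lit 5054) (.e (nat_lit 344117) (nat_lit 21) (.e (nat_lit 516151) (nat_lit 9) (.e (nat_lit 426142) (nat_lit 4) (.e (nat_lit 229666) (nat_lit 240) (.e (nat_lit 2612) (nat_lit 163) (.e (nat_lit 163978) (nat_lit 30) (.e (nat_lit 573485) (nat_lit 13) (.e (nat_lit 65619) (nat_lit 10) .nil)))))))) (.g (nat_lit 1) (.e (nat_lit 380880) (nat_lit 0) .nil) .nil)))) 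
(.nd (nat_lit 9) 
(.lf (nat_lit 581930) (.g (nat_lit 1532) (.e (nat_lit 352000) (nat_lit 0) (.e (nat_lit 3090) (nat_lit 191) (.e (nat_lit 483350) (nat_lit 17) (.e (nat_lit 6097) (nat_lit 332) .nil)))) (.g (nat_lit 0) (.e (nat_lit 380024) (nat_lit 0) .nil) .nil))) 
(.lf (nat_lit 582442) (.g (nat_lit 356) (.e (nat_lit 344138) (nat_lit 29) (.e (nat_lit 581653) (nat_lit 6) (.e (nat_lit 188434) (nat_lit 20) .nil))) (.g (nat_lit 0) (.e (nat_lit 381308) (nat_lit 0) .nil) .nil))))) (.nd (nat_lit 8) (.nd (nat_lit 9) 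
(.lf (nat_lit 581802) (.g (nat_lit 1247) (.e (nat_lit 344068) (nat_lit 0) (.e (nat_lit 3090) (nat_lit 191) (.e (nat_lit 483372) (nat_lit 21) (.e (nat_lit 319505) (nat_lit 10) (.e (nat_lit 7936) (nat_lit 312) .nil))))) (.g (nat_lit 0) (.e (nat_lit 379699) (nat_lit 0) .nil) .nil))) 
(.lf (nat_lit 582314) (.g (nat_lit 3093) (.e (nat_lit 344119) (nat_lit 21) (.e (nat_lit 516139) (nat_lit 7) (.e (nat_lit 409645) (nat_lit 18) (.e (nat_lit 303112) (nat_lit 0) (.e (nat_lit 3252) (nat_lit 197) (.e (nat_lit 532532) (nat_lit 9) (.e (nat_lit 336160) (nat_lit 10) .nil))))))) (.g (nat_lit 1) (.e (nat_lit 381088) (nat_lit 0) .nil) .nil)))) (.nd (nat_lit 9) 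
(.lf (nat_lit 582058) (.g (nat_lit 1480) (.e (nat_lit 344117) (nat_lit 21) (.e (nat_lit 516115) (nat_lit 1) (.e (nat_lit 164179) (nat_lit 154) (.e (nat_lit 57376) (nat_lit 3) .nil)))) (.g (nat_lit 0) (.e (nat_lit 380732) (nat_lit 0) .nil) .nil))) 
(.lf (nat_lit 582570) (.g (nat_lit 850) (.e (nat_lit 344129) (nat_lit 26) (.e (nat_lit 557090) (nat_lit 12) (.e (nat_lit 163987) (nat_lit 33) .nil))) (.g (nat_lit 0) (.e (nat_lit 381486) (nat_lit 0) .nil) .nil)))))) (.nd (nat_lit 7) (.nd (nat_lit 8) (.nd (nat_lit 9) 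
(.lf (nat_lit 581738) (.g (nat_lit 1730) (.e (nat_lit 344068) (nat_lit 0) (.e (nat_lit 2857) (nat_lit 184) (.e (nat_lit 426530) (nat_lit 27) (.e (nat_lit 335872) (nat_lit 0) (.e (nat_lit 6719) (nat_lit 361) (.e (nat_lit 179968) (nat_lit 28) .nil)))))) (.g (nat_lit 1) (.e (nat_lit 379580) (nat_lit 0) .nil) .nil))) 
(.lf (nat_lit 582250) (.g (nat_lit 1494) (.e (nat_lit 344118) (nat_lit 21) (.e (nat_lit 516120) (nat_lit 1) (.e (nat_lit 164182) (nat_lit 154) (.e (nat_lit 57373) (nat_lit 2) .nil)))) (.g (nat_lit 0) (.e (nat_lit 380990) (nat_lit 0) .nil) .nil)))) (.nd (nat_lit 9) 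
(.lf (nat_lit 581994) (.g (nat_lit 2172) (.e (nat_lit 344100) (nat_lit 18) (.e (nat_lit 7270) (nat_lit 385) (.e (nat_lit 122913) (nat_lit 13) (.e (nat_lit 344133) (nat_lit 26) (.e (nat_lit 557068) (nat_lit 9) (.e (nat_lit 2828) (nat_lit 182) (.e (nat_lit 409646) (nat_lit 18) (.e (nat_lit 303154) (nat_lit 28) .nil)))))))) (.g (nat_lit 1) (.e (nat_lit 380537) (nat_lit 0) .nil) .nil))) 
(.lf (nat_lit 582506) (.g (nat_lit 2514) (.e (nat_lit 344127) (nat_lit 26) (.e (nat_lit 557104) (nat_lit 14) (.e (nat_lit 180252) (nat_lit 10) (.e (nat_lit 573474) (nat_lit 12) (.e (nat_lit 57511) (nat_lit 39) .nil))))) (.g (nat_lit 0) (.e (nat_lit 381386) (nat_lit 0) .nil) .nil))))) (.nd (nat_lit 8) (.nd (nat_lit 9) 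
(.lf (nat_lit 581866) (.g (nat_lit 2453) (.e (nat_lit 344069) (nat_lit 0) (.e (nat_lit 3090) (nat_lit 191) (.e (nat_lit 483350) (nat_lit 17) (.e (nat_lit 6113) (nat_lit 332) (.e (nat_lit 1378) (nat_lit 104) (.e (nat_lit 303154) (nat_lit 28) .nil)))))) (.g (nat_lit 1) (.e (nat_lit 379843) (nat_lit 0) .nil) .nil))) 
(.lf (nat_lit 582378) (.g (nat_lit 3028) (.e (nat_lit 344119) (nat_lit 21) (.e (nat_lit 516179) (nat_lit 15) (.e (nat_lit 475199) (nat_lit 40) (.e (nat_lit 704589) (nat_lit 3) (.e (nat_lit 163976) (nat_lit 30) (.e (nat_lit 573481) (nat_lit 13) (.e (nat_lit 65613) (nat_lit 10) .nil))))))) (.g (nat_lit 1) (.e (nat_lit 381159) (nat_lit 0) .nil) .nil)))) (.nd (nat_lit 9) 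
(.lf (nat_lit 582122) (.g (nat_lit 2324) (.e (nat_lit 344117) (nat_lit 21) (.e (nat_lit 516139) (nat_lit 7) (.e (nat_lit 409644) (nat_lit 18) (.e (nat_lit 303119) (nat_lit 3) (.e (nat_lit 204858) (nat_lit 26) .nil))))) (.g (nat_lit 0) (.e (nat_lit 380814) (nat_lit 0) .nil) .nil))) 
(.lf (nat_lit 582634) (.g (nat_lit 2564) (.e (nat_lit 344130) (nat_lit 26) (.e (nat_lit 557103) (nat_lit 14) (.e (nat_lit 180250) (nat_lit 10) (.e (nat_lit 573474) (nat_lit 12) (.e (nat_lit 57507) (nat_lit 39) (.e (nat_lit 647175) (nat_lit 0) (.e (nat_lit 2684) (nat_lit 168) (.e (nat_lit 204862) (nat_lit 27) .nil)))))))) (.g (nat_lit 1) (.e (nat_lit 381583) (nat_lit 0) .nil) .nil)))))))) 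
(.nd (nat_lit 5) (.nd (nat_lit 6) (.nd (nat_lit 7) (.nd (nat_lit 8) (.nd (nat_lit 9) 
(.lf (nat_lit 581658) (.g (nat_lit 2113) (.e (nat_lit 336456) (nat_lit 34) (.e (nat_lit 483365) (nat_lit 18) (.e (nat_lit 57849) (nat_lit 252) (.e (nat_lit 57374) (nat_lit 2) .nil)))) (.g (nat_lit 0) (.e (nat_lit 379357) (nat_lit 0) .nil) .nil))) 
(.lf (nat_lit 582170) (.g (nat_lit 4794) (.e (nat_lit 344117) (nat_lit 21) (.e (nat_lit 516139) (nat_lit 7) (.e (nat_lit 409649) (nat_lit 18) (.e (nat_lit 303116) (nat_lit 2) (.e (nat_lit 196666) (nat_lit 13) (.e (nat_lit 65610) (nat_lit 10) .nil)))))) (.g (nat_lit 1) (.e (nat_lit 380862) (nat_lit 0) .nil) .nil)))) (.nd (nat_lit 9) 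
(.lf (nat_lit 581914) (.g (nat_lit 1011) (.e (nat_lit 344069) (nat_lit 0) (.e (nat_lit 3090) (nat_lit 191) (.e (nat_lit 483372) (nat_lit 21) (.e (nat_lit 319512) (nat_lit 10) .nil)))) (.g (nat_lit 0) (.e (nat_lit 379902) (nat_lit 0) .nil) .nil))) 
(.lf (nat_lit 582426) (.g (nat_lit 559) (.e (nat_lit 344138) (nat_lit 29) (.e (nat_lit 581653) (nat_lit 6) (.e (nat_lit 188416) (nat_lit 0) .nil))) (.g (nat_lit 0) (.e (nat_lit 381290) (nat_lit 0) .nil) .nil))))) (.nd (nat_lit 8) (.nd (nat_lit 9) 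
(.lf (nat_lit 581786) (.g (nat_lit 2657) (.e (nat_lit 344068) (nat_lit 0) (.e (nat_lit 3090) (nat_lit 191) (.e (nat_lit 483354) (nat_lit 17) (.e (nat_lit 6680) (nat_lit 357) (.e (nat_lit 2856) (nat_lit 184) (.e (nat_lit 426533) (nat_lit 28) .nil)))))) (.g (nat_lit 1) (.e (nat_lit 379678) (nat_lit 0) .nil) .nil))) 
(.lf (nat_lit 582298) (.g (nat_lit 293) (.e (nat_lit 344119) (nat_lit 21) (.e (nat_lit 516139) (nat_lit 7) (.e (nat_lit 409616) (nat_lit 10) .nil))) (.g (nat_lit 0) (.e (nat_lit 381062) (nat_lit 0) .nil) .nil)))) (.nd (nat_lit 9) 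
(.lf (nat_lit 582042) (.g (nat_lit 4736) (.e (nat_lit 344117) (nat_lit 21) (.e (nat_lit 516098) (nat_lit 0) (.e (nat_lit 7589) (nat_lit 406) (.e (nat_lit 65637) (nat_lit 15) (.e (nat_lit 3305) (nat_lit 202) (.e (nat_lit 573484) (nat_lit 13) (.e (nat_lit 65610) (nat_lit 10) .nil))))))) (.g (nat_lit 1) (.e (nat_lit 380692) (nat_lit 0) .nil) .nil))) 
(.lf (nat_lit 582554) (.g (nat_lit 3630) (.e (nat_lit 344129) (nat_lit 26) (.e (nat_lit 557087) (nat_lit 11) (.e (nat_lit 24662) (nat_lit 14) (.e (nat_lit 401462) (nat_lit 15) .nil)))) (.g (nat_lit 0) (.e (nat_lit 381467) (nat_lit 0) .nil) .nil)))))) (.nd (nat_lit 7) (.nd (nat_lit 8) (.nd (nat_lit 9) 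
(.lf (nat_lit 581722) (.g (nat_lit 1962) (.e (nat_lit 344068) (nat_lit 0) (.e (nat_lit 2854) (nat_lit 184) (.e (nat_lit 426509) (nat_lit 27) (.e (nat_lit 336228) (nat_lit 14) (.e (nat_lit 401438) (nat_lit 9) (.e (nat_lit 426533) (nat_lit 28) .nil)))))) (.g (nat_lit 1) (.e (nat_lit 379548) (nat_lit 0) .nil) .nil))) 
(.lf (nat_lit 582234) (.g (nat_lit 2072) (.e (nat_lit 344118) (nat_lit 21) (.e (nat_lit 516115) (nat_lit 1) (.e (nat_lit 164179) (nat_lit 154) (.e (nat_lit 57373) (nat_lit 2) .nil)))) (.g (nat_lit 0) (.e (nat_lit 380960) (nat_lit 0) .nil) .nil)))) (.nd (nat_lit 9) 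
(.lf (nat_lit 581978) (.g (nat_lit 3510) (.e (nat_lit 344097) (nat_lit 18) (.e (nat_lit 4716) (nat_lit 275) (.e (nat_lit 2611) (nat_lit 163) (.e (nat_lit 163978) (nat_lit 30) (.e (nat_lit 573479) (nat_lit 13) (.e (nat_lit 65619) (nat_lit 10) (.e (nat_lit 344129) (nat_lit 26) (.e (nat_lit 557066) (nat_lit 9) (.e (nat_lit 307) (nat_lit 22) .nil))))))))) (.g (nat_lit 1) (.e (nat_lit 380467) (nat_lit 0) .nil) .nil))) 
(.lf (nat_lit 582490) (.g (nat_lit 2472) (.e (nat_lit 344127) (nat_lit 26) (.e (nat_lit 557090) (nat_lit 12) (.e (nat_lit 163850) (nat_lit 0) (.e (nat_lit 6273) (nat_lit 337) (.e (nat_lit 2632) (nat_lit 164) (.e (nat_lit 172062) (nat_lit 2) (.e (nat_lit 196666) (nat_lit 13) (.e (nat_lit 65617) (nat_lit 10) .nil)))))))) (.g (nat_lit 1) (.e (nat_lit 381365) (nat_lit 0) .nil) .nil))))) 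
(.nd (nat_lit 8) (.nd (nat_lit 9) 
(.lf (nat_lit 581850) (.g (nat_lit 2017) (.e (nat_lit 344069) (nat_lit 0) (.e (nat_lit 3088) (nat_lit 191) (.e (nat_lit 483412) (nat_lit 27) (.e (nat_lit 401444) (nat_lit 9) (.e (nat_lit 426532) (nat_lit 28) .nil))))) (.g (nat_lit 1) (.e (nat_lit 379812) (nat_lit 0) .nil) .nil))) 
(.lf (nat_lit 582362) (.g (nat_lit 2287) (.e (nat_lit 344119) (nat_lit 21) (.e (nat_lit 516139) (nat_lit 7) (.e (nat_lit 409649) (nat_lit 18) (.e (nat_lit 303119) (nat_lit 3) (.e (nat_lit 204855) (nat_lit 26) .nil))))) (.g (nat_lit 0) (.e (nat_lit 381140) (nat_lit 0) .nil) .nil)))) (.nd (nat_lit 9) 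
(.lf (nat_lit 582106) (.g (nat_lit 2242) (.e (nat_lit 344117) (nat_lit 21) (.e (nat_lit 516138) (nat_lit 7) (.e (nat_lit 409646) (nat_lit 18) (.e (nat_lit 303119) (nat_lit 3) (.e (nat_lit 204850) (nat_lit 26) .nil))))) (.g (nat_lit 0) (.e (nat_lit 380794) (nat_lit 0) .nil) .nil))) 
(.lf (nat_lit 582618) (.g (nat_lit 1660) (.e (nat_lit 344130) (nat_lit 26) (.e (nat_lit 557097) (nat_lit 13) (.e (nat_lit 172064) (nat_lit 2) (.e (nat_lit 196661) (nat_lit 12) (.e (nat_lit 57576) (nat_lit 60) .nil))))) (.g (nat_lit 0) (.e (nat_lit 381567) (nat_lit 0) .nil) .nil))))))) (.nd (nat_lit 6) (.nd (nat_lit 7) (.nd (nat_lit 8) (.nd (nat_lit 9) 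
(.lf (nat_lit 581690) (.g (nat_lit 1505) (.e (nat_lit 343808) (nat_lit 34) (.e (nat_lit 483365) (nat_lit 18) (.e (nat_lit 57849) (nat_lit 252) (.e (nat_lit 57379) (nat_lit 3) (.e (nat_lit 98315) (nat_lit 9) .nil))))) (.g (nat_lit 0) (.e (nat_lit 379412) (nat_lit 0) .nil) .nil))) 
(.lf (nat_lit 582202) (.g (nat_lit 4878) (.e (nat_lit 344117) (nat_lit 21) (.e (nat_lit 516160) (nat_lit 10) (.e (nat_lit 434208) (nat_lit 18) (.e (nat_lit 4778) (nat_lit 281) (.e (nat_lit 2445) (nat_lit 157) (.e (nat_lit 2668) (nat_lit 167) (.e (nat_lit 196666) (nat_lit 13) (.e (nat_lit 65610) (nat_lit 10) .nil)))))))) (.g (nat_lit 1) (.e (nat_lit 380899) (nat_lit 0) .nil) .nil)))) 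
(.nd (nat_lit 9) 
(.lf (nat_lit 581946) (.g (nat_lit 1048) (.e (nat_lit 352000) (nat_lit 5) (.e (nat_lit 180271) (nat_lit 26) (.e (nat_lit 704738) (nat_lit 11) (.e (nat_lit 16434) (nat_lit 9) .nil)))) (.g (nat_lit 0) (.e (nat_lit 380188) (nat_lit 0) .nil) .nil))) 
(.lf (nat_lit 582458) (.g (nat_lit 2155) (.e (nat_lit 344138) (nat_lit 29) (.e (nat_lit 581653) (nat_lit 6) (.e (nat_lit 188435) (nat_lit 20) (.e (nat_lit 3579) (nat_lit 223) (.e (nat_lit 745491) (nat_lit 4) (.e (nat_lit 65620) (nat_lit 10) .nil)))))) (.g (nat_lit 1) (.e (nat_lit 381324) (nat_lit 0) .nil) .nil))))) (.nd (nat_lit 8) (.nd (nat_lit 9) 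
(.lf (nat_lit 581818) (.g (nat_lit 2967) (.e (nat_lit 344068) (nat_lit 0) (.e (nat_lit 3090) (nat_lit 191) (.e (nat_lit 483372) (nat_lit 21) (.e (nat_lit 319538) (nat_lit 19) (.e (nat_lit 311357) (nat_lit 28) .nil))))) (.g (nat_lit 1) (.e (nat_lit 379721) (nat_lit 0) .nil) .nil))) 
(.lf (nat_lit 582330) (.g (nat_lit 2734) (.e (nat_lit 344119) (nat_lit 21) (.e (nat_lit 516139) (nat_lit 7) (.e (nat_lit 409646) (nat_lit 18) (.e (nat_lit 303119) (nat_lit 3) (.e (nat_lit 204855) (nat_lit 26) (.e (nat_lit 336163) (nat_lit 10) .nil)))))) (.g (nat_lit 1) (.e (nat_lit 381104) (nat_lit 0) .nil) .nil)))) (.nd (nat_lit 9) 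
(.lf (nat_lit 582074) (.g (nat_lit 2967) (.e (nat_lit 344117) (nat_lit 21) (.e (nat_lit 516118) (nat_lit 1) (.e (nat_lit 164183) (nat_lit 154) (.e (nat_lit 57378) (nat_lit 3) (.e (nat_lit 98321) (nat_lit 17) (.e (nat_lit 3771) (nat_lit 229) (.e (nat_lit 794673) (nat_lit 23) (.e (nat_lit 204862) (nat_lit 27) .nil)))))))) (.g (nat_lit 1) (.e (nat_lit 380756) (nat_lit 0) .nil) .nil))) 
(.lf (nat_lit 582586) (.g (nat_lit 3311) (.e (nat_lit 344129) (nat_lit 26) (.e (nat_lit 557103) (nat_lit 14) (.e (nat_lit 180250) (nat_lit 10) (.e (nat_lit 573474) (nat_lit 12) (.e (nat_lit 57507) (nat_lit 39) (.e (nat_lit 647176) (nat_lit 0) (.e (nat_lit 2684) (nat_lit 168) (.e (nat_lit 204862) (nat_lit 27) .nil)))))))) (.g (nat_lit 1) (.e (nat_lit 381504) (nat_lit 0) .nil) .nil)))))) 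
(.nd (nat_lit 7) (.nd (nat_lit 8) (.nd (nat_lit 9) 
(.lf (nat_lit 581754) (.g (nat_lit 2055) (.e (nat_lit 344068) (nat_lit 0) (.e (nat_lit 3090) (nat_lit 191) (.e (nat_lit 483350) (nat_lit 17) (.e (nat_lit 6092) (nat_lit 332) (.e (nat_lit 1386) (nat_lit 105) (.e (nat_lit 311357) (nat_lit 28) .nil)))))) (.g (nat_lit 1) (.e (nat_lit 379645) (nat_lit 0) .nil) .nil))) 
(.lf (nat_lit 582266) (.g (nat_lit 4482) (.e (nat_lit 344118) (nat_lit 21) (.e (nat_lit 516139) (nat_lit 7) (.e (nat_lit 409648) (nat_lit 18) (.e (nat_lit 303117) (nat_lit 2) (.e (nat_lit 196666) (nat_lit 13) (.e (nat_lit 65610) (nat_lit 10) .nil)))))) (.g (nat_lit 1) (.e (nat_lit 381022) (nat_lit 0) .nil) .nil)))) (.nd (nat_lit 9) 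
(.lf (nat_lit 582010) (.g (nat_lit 2826) (.e (nat_lit 344115) (nat_lit 20) (.e (nat_lit 507907) (nat_lit 0) (.e (nat_lit 5405) (nat_lit 302) (.e (nat_lit 65636) (nat_lit 15) (.e (nat_lit 3302) (nat_lit 202) (.e (nat_lit 573485) (nat_lit 13) (.e (nat_lit 65619) (nat_lit 10) .nil))))))) (.g (nat_lit 1) (.e (nat_lit 380629) (nat_lit 0) .nil) .nil))) 
(.lf (nat_lit 582522) (.g (nat_lit 3892) (.e (nat_lit 344129) (nat_lit 26) (.e (nat_lit 557067) (nat_lit 9) (.e (nat_lit 2472) (nat_lit 157) (.e (nat_lit 3469) (nat_lit 217) (.e (nat_lit 696344) (nat_lit 8) (.e (nat_lit 172064) (nat_lit 2) (.e (nat_lit 196666) (nat_lit 13) (.e (nat_lit 65610) (nat_lit 10) .nil)))))))) (.g (nat_lit 1) (.e (nat_lit 381430) (nat_lit 0) .nil) .nil))))) 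
(.nd (nat_lit 8) (.nd (nat_lit 9) 
(.lf (nat_lit 581882) (.g (nat_lit 1682) (.e (nat_lit 344069) (nat_lit 0) (.e (nat_lit 3090) (nat_lit 191) (.e (nat_lit 483350) (nat_lit 17) (.e (nat_lit 6731) (nat_lit 364) (.e (nat_lit 245504) (nat_lit 28) .nil))))) (.g (nat_lit 1) (.e (nat_lit 379859) (nat_lit 0) .nil) .nil))) 
(.lf (nat_lit 582394) (.g (nat_lit 4424) (.e (nat_lit 344120) (nat_lit 21) (.e (nat_lit 516139) (nat_lit 7) (.e (nat_lit 409648) (nat_lit 18) (.e (nat_lit 303117) (nat_lit 2) (.e (nat_lit 196666) (nat_lit 13) (.e (nat_lit 65617) (nat_lit 10) .nil)))))) (.g (nat_lit 1) (.e (nat_lit 381186) (nat_lit 0) .nil) .nil)))) (.nd (nat_lit 9) 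
(.lf (nat_lit 582138) (.g (nat_lit 3123) (.e (nat_lit 344117) (nat_lit 21) (.e (nat_lit 516139) (nat_lit 7) (.e (nat_lit 409645) (nat_lit 18) (.e (nat_lit 303119) (nat_lit 3) (.e (nat_lit 204858) (nat_lit 26) (.e (nat_lit 336163) (nat_lit 10) .nil)))))) (.g (nat_lit 1) (.e (nat_lit 380830) (nat_lit 0) .nil) .nil))) 
(.lf (nat_lit 582650) (.g (nat_lit 2426) (.e (nat_lit 344130) (nat_lit 26) (.e (nat_lit 557104) (nat_lit 14) (.e (nat_lit 180252) (nat_lit 10) (.e (nat_lit 573474) (nat_lit 12) (.e (nat_lit 57507) (nat_lit 39) (.e (nat_lit 647175) (nat_lit 0) (.e (nat_lit 2684) (nat_lit 168) (.e (nat_lit 204862) (nat_lit 27) .nil)))))))) (.g (nat_lit 1) (.e (nat_lit 381599) (nat_lit 0) .nil) .nil)))))))))) 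
(.nd (nat_lit 3) (.nd (nat_lit 4) (.nd (nat_lit 5) (.nd (nat_lit 6) (.nd (nat_lit 7) 
(.nd (nat_lit 8) (.nd (nat_lit 9) 
(.lf (nat_lit 581638) (.g (nat_lit 3009) (.e (nat_lit 336456) (nat_lit 34) (.e (nat_lit 483364) (nat_lit 18) (.e (nat_lit 57926) (nat_lit 282) (.e (nat_lit 163875) (nat_lit 3) (.e (nat_lit 204861) (nat_lit 26) (.e (nat_lit 336075) (nat_lit 9) .nil)))))) (.g (nat_lit 1) (.e (nat_lit 379336) (nat_lit 0) .nil) .nil))) 
(.lf (nat_lit 582150) (.g (nat_lit 3965) (.e (nat_lit 344117) (nat_lit 21) (.e (nat_lit 516139) (nat_lit 7) (.e (nat_lit 409646) (nat_lit 18) (.e (nat_lit 303119) (nat_lit 3) (.e (nat_lit 204855) (nat_lit 26) (.e (nat_lit 336172) (nat_lit 10) .nil)))))) (.g (nat_lit 1) (.e (nat_lit 380842) (nat_lit 0) .nil) .nil)))) (.nd (nat_lit 9) 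
(.lf (nat_lit 581894) (.g (nat_lit 1828) (.e (nat_lit 344069) (nat_lit 0) (.e (nat_lit 3090) (nat_lit 191) (.e (nat_lit 483372) (nat_lit 21) (.e (nat_lit 319502) (nat_lit 10) .nil)))) (.g (nat_lit 0) (.e (nat_lit 379872) (nat_lit 0) .nil) .nil))) 
(.lf (nat_lit 582406) (.g (nat_lit 1500) (.e (nat_lit 344120) (nat_lit 21) (.e (nat_lit 516182) (nat_lit 15) (.e (nat_lit 475199) (nat_lit 40) (.e (nat_lit 704589) (nat_lit 3) (.e (nat_lit 163975) (nat_lit 30) .nil))))) (.g (nat_lit 0) (.e (nat_lit 381198) (nat_lit 0) .nil) .nil))))) (.nd (nat_lit 8) (.nd (nat_lit 9) 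
(.lf (nat_lit 581766) (.g (nat_lit 1551) (.e (nat_lit 344068) (nat_lit 0) (.e (nat_lit 3090) (nat_lit 191) (.e (nat_lit 483350) (nat_lit 17) (.e (nat_lit 6151) (nat_lit 332) .nil)))) (.g (nat_lit 0) (.e (nat_lit 379658) (nat_lit 0) .nil) .nil))) 
(.lf (nat_lit 582278) (.g (nat_lit 4309) (.e (nat_lit 344118) (nat_lit 21) (.e (nat_lit 516166) (nat_lit 12) (.e (nat_lit 450588) (nat_lit 10) (.e (nat_lit 573475) (nat_lit 12) (.e (nat_lit 57356) (nat_lit 0) .nil))))) (.g (nat_lit 0) (.e (nat_lit 381035) (nat_lit 0) .nil) .nil)))) (.nd (nat_lit 9) 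
(.lf (nat_lit 582022) (.g (nat_lit 2777) (.e (nat_lit 344116) (nat_lit 21) (.e (nat_lit 516139) (nat_lit 7) (.e (nat_lit 409646) (nat_lit 18) (.e (nat_lit 303119) (nat_lit 3) (.e (nat_lit 204855) (nat_lit 26) .nil))))) (.g (nat_lit 0) (.e (nat_lit 380667) (nat_lit 0) .nil) .nil))) 
(.lf (nat_lit 582534) (.g (nat_lit 3872) (.e (nat_lit 344129) (nat_lit 26) (.e (nat_lit 557086) (nat_lit 11) (.e (nat_lit 24665) (nat_lit 14) (.e (nat_lit 401423) (nat_lit 2) (.e (nat_lit 196666) (nat_lit 13) (.e (nat_lit 65610) (nat_lit 10) .nil)))))) (.g (nat_lit 1) (.e (nat_lit 381447) (nat_lit 0) .nil) .nil)))))) (.nd (nat_lit 7) (.nd (nat_lit 8) (.nd (nat_lit 9) 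
(.lf (nat_lit 581702) (.g (nat_lit 1892) (.e (nat_lit 344066) (nat_lit 0) (.e (nat_lit 2936) (nat_lit 184) (.e (nat_lit 426532) (nat_lit 28) (.e (nat_lit 344068) (nat_lit 0) (.e (nat_lit 2857) (nat_lit 184) (.e (nat_lit 426533) (nat_lit 28) .nil)))))) (.g (nat_lit 1) (.e (nat_lit 379488) (nat_lit 0) .nil) .nil))) 
(.lf (nat_lit 582214) (.g (nat_lit 3139) (.e (nat_lit 344117) (nat_lit 21) (.e (nat_lit 516185) (nat_lit 16) (.e (nat_lit 491546) (nat_lit 9) (.e (nat_lit 336013) (nat_lit 2) (.e (nat_lit 90141) (nat_lit 9) (.e (nat_lit 3102) (nat_lit 192) (.e (nat_lit 491558) (nat_lit 10) .nil))))))) (.g (nat_lit 1) (.e (nat_lit 380916) (nat_lit 0) .nil) .nil)))) (.nd (nat_lit 9) 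
(.lf (nat_lit 581958) (.g (nat_lit 5228) (.e (nat_lit 344090) (nat_lit 18) (.e (nat_lit 4708) (nat_lit 275) (.e (nat_lit 2610) (nat_lit 163) (.e (nat_lit 163979) (nat_lit 30) (.e (nat_lit 573482) (nat_lit 13) (.e (nat_lit 65619) (nat_lit 10) (.e (nat_lit 344129) (nat_lit 26) (.e (nat_lit 557066) (nat_lit 9) (.e (nat_lit 307) (nat_lit 22) .nil))))))))) (.g (nat_lit 1) (.e (nat_lit 380322) (nat_lit 0) .nil) .nil))) 
(.lf (nat_lit 582470) (.g (nat_lit 1881) (.e (nat_lit 344138) (nat_lit 29) (.e (nat_lit 581653) (nat_lit 6) (.e (nat_lit 188440) (nat_lit 20) (.e (nat_lit 3579) (nat_lit 223) (.e (nat_lit 745490) (nat_lit 4) (.e (nat_lit 65620) (nat_lit 10) .nil)))))) (.g (nat_lit 1) (.e (nat_lit 381336) (nat_lit 0) .nil) .nil))))) (.nd (nat_lit 8) (.nd (nat_lit 9) 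
(.lf (nat_lit 581830) (.g (nat_lit 2088) (.e (nat_lit 344068) (nat_lit 0) (.e (nat_lit 3090) (nat_lit 191) (.e (nat_lit 483411) (nat_lit 27) (.e (nat_lit 401440) (nat_lit 9) (.e (nat_lit 433920) (nat_lit 28) .nil))))) (.g (nat_lit 1) (.e (nat_lit 379752) (nat_lit 0) .nil) .nil))) 
(.lf (nat_lit 582342) (.g (nat_lit 3713) (.e (nat_lit 344119) (nat_lit 21) (.e (nat_lit 516139) (nat_lit 7) (.e (nat_lit 409648) (nat_lit 18) (.e (nat_lit 303117) (nat_lit 2) (.e (nat_lit 196666) (nat_lit 13) (.e (nat_lit 65609) (nat_lit 10) .nil)))))) (.g (nat_lit 1) (.e (nat_lit 381118) (nat_lit 0) .nil) .nil)))) (.nd (nat_lit 9) 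
(.lf (nat_lit 582086) (.g (nat_lit 3992) (.e (nat_lit 344117) (nat_lit 21) (.e (nat_lit 516129) (nat_lit 3) (.e (nat_lit 221214) (nat_lit 23) (.e (nat_lit 204829) (nat_lit 18) (.e (nat_lit 57926) (nat_lit 282) (.e (nat_lit 163875) (nat_lit 3) (.e (nat_lit 204862) (nat_lit 27) .nil))))))) (.g (nat_lit 1) (.e (nat_lit 380768) (nat_lit 0) .nil) .nil))) 
(.lf (nat_lit 582598) (.g (nat_lit 3452) (.e (nat_lit 344129) (nat_lit 26) (.e (nat_lit 557104) (nat_lit 14) (.e (nat_lit 180252) (nat_lit 10) (.e (nat_lit 573474) (nat_lit 12) (.e (nat_lit 57507) (nat_lit 39) (.e (nat_lit 647170) (nat_lit 0) (.e (nat_lit 2685) (nat_lit 168) (.e (nat_lit 204863) (nat_lit 27) .nil)))))))) (.g (nat_lit 1) (.e (nat_lit 381516) (nat_lit 0) .nil) .nil))))))) 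
(.nd (nat_lit 6) (.nd (nat_lit 7) (.nd (nat_lit 8) (.nd (nat_lit 9) 
(.lf (nat_lit 581670) (.g (nat_lit 3542) (.e (nat_lit 336456) (nat_lit 34) (.e (nat_lit 483378) (nat_lit 23) (.e (nat_lit 336324) (nat_lit 18) (.e (nat_lit 204831) (nat_lit 18) (.e (nat_lit 57849) (nat_lit 252) (.e (nat_lit 57407) (nat_lit 12) .nil)))))) (.g (nat_lit 1) (.e (nat_lit 379370) (nat_lit 0) .nil) .nil))) 
(.lf (nat_lit 582182) (.g (nat_lit 3210) (.e (nat_lit 344117) (nat_lit 21) (.e (nat_lit 516142) (nat_lit 8) (.e (nat_lit 417828) (nat_lit 18) (.e (nat_lit 303119) (nat_lit 3) (.e (nat_lit 204855) (nat_lit 26) (.e (nat_lit 336176) (nat_lit 10) .nil)))))) (.g (nat_lit 1) (.e (nat_lit 380875) (nat_lit 0) .nil) .nil)))) (.nd (nat_lit 9) 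
(.lf (nat_lit 581926) (.g (nat_lit 2754) (.e (nat_lit 344069) (nat_lit 0) (.e (nat_lit 3090) (nat_lit 191) (.e (nat_lit 483411) (nat_lit 27) (.e (nat_lit 401436) (nat_lit 9) (.e (nat_lit 426533) (nat_lit 28) .nil))))) (.g (nat_lit 1) (.e (nat_lit 379925) (nat_lit 0) .nil) .nil))) 
(.lf (nat_lit 582438) (.g (nat_lit 1870) (.e (nat_lit 344138) (nat_lit 29) (.e (nat_lit 581653) (nat_lit 6) (.e (nat_lit 188430) (nat_lit 20) (.e (nat_lit 3572) (nat_lit 222) (.e (nat_lit 737300) (nat_lit 7) (.e (nat_lit 286756) (nat_lit 10) .nil)))))) (.g (nat_lit 1) (.e (nat_lit 381303) (nat_lit 0) .nil) .nil))))) (.nd (nat_lit 8) (.nd (nat_lit 9) 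
(.lf (nat_lit 581798) (.g (nat_lit 2140) (.e (nat_lit 344068) (nat_lit 0) (.e (nat_lit 3090) (nat_lit 191) (.e (nat_lit 483372) (nat_lit 21) (.e (nat_lit 319505) (nat_lit 10) (.e (nat_lit 5712) (nat_lit 312) (.e (nat_lit 300) (nat_lit 22) .nil)))))) (.g (nat_lit 1) (.e (nat_lit 379695) (nat_lit 0) .nil) .nil))) 
(.lf (nat_lit 582310) (.g (nat_lit 2838) (.e (nat_lit 344119) (nat_lit 21) (.e (nat_lit 516139) (nat_lit 7) (.e (nat_lit 409644) (nat_lit 18) (.e (nat_lit 303119) (nat_lit 3) (.e (nat_lit 204855) (nat_lit 26) (.e (nat_lit 336173) (nat_lit 10) .nil)))))) (.g (nat_lit 1) (.e (nat_lit 381084) (nat_lit 0) .nil) .nil)))) (.nd (nat_lit 9) 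
(.lf (nat_lit 582054) (.g (nat_lit 242) (.e (nat_lit 344117) (nat_lit 21) (.e (nat_lit 516115) (nat_lit 1) (.e (nat_lit 164179) (nat_lit 154) .nil))) (.g (nat_lit 0) (.e (nat_lit 380707) (nat_lit 0) .nil) .nil))) 
(.lf (nat_lit 582566) (.g (nat_lit 2940) (.e (nat_lit 344129) (nat_lit 26) (.e (nat_lit 557090) (nat_lit 12) (.e (nat_lit 163850) (nat_lit 0) (.e (nat_lit 6425) (nat_lit 342) (.e (nat_lit 229404) (nat_lit 12) .nil))))) (.g (nat_lit 0) (.e (nat_lit 381482) (nat_lit 0) .nil) .nil)))))) (.nd (nat_lit 7) (.nd (nat_lit 8) (.nd (nat_lit 9) 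
(.lf (nat_lit 581734) (.g (nat_lit 1020) (.e (nat_lit 344068) (nat_lit 0) (.e (nat_lit 2856) (nat_lit 184) (.e (nat_lit 426542) (nat_lit 29) (.e (nat_lit 352267) (nat_lit 0) .nil)))) (.g (nat_lit 0) (.e (nat_lit 379568) (nat_lit 0) .nil) .nil))) 
(.lf (nat_lit 582246) (.g (nat_lit 814) (.e (nat_lit 344118) (nat_lit 21) (.e (nat_lit 516119) (nat_lit 1) (.e (nat_lit 164183) (nat_lit 154) .nil))) (.g (nat_lit 0) (.e (nat_lit 380983) (nat_lit 0) .nil) .nil)))) (.nd (nat_lit 9) 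
(.lf (nat_lit 581990) (.g (nat_lit 1977) (.e (nat_lit 344100) (nat_lit 18) (.e (nat_lit 5906) (nat_lit 320) (.e (nat_lit 1209) (nat_lit 89) (.e (nat_lit 73781) (nat_lit 32) (.e (nat_lit 3090) (nat_lit 191) .nil))))) (.g (nat_lit 0) (.e (nat_lit 380526) (nat_lit 0) .nil) .nil))) 
(.lf (nat_lit 582502) (.g (nat_lit 2099) (.e (nat_lit 344127) (nat_lit 26) (.e (nat_lit 557093) (nat_lit 12) (.e (nat_lit 164022) (nat_lit 46) (.e (nat_lit 704628) (nat_lit 9) (.e (nat_lit 440) (nat_lit 32) .nil))))) (.g (nat_lit 0) (.e (nat_lit 381381) (nat_lit 0) .nil) .nil))))) (.nd (nat_lit 8) (.nd (nat_lit 9) 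
(.lf (nat_lit 581862) (.g (nat_lit 1390) (.e (nat_lit 344069) (nat_lit 0) (.e (nat_lit 3090) (nat_lit 191) (.e (nat_lit 483350) (nat_lit 17) (.e (nat_lit 6109) (nat_lit 332) .nil)))) (.g (nat_lit 0) (.e (nat_lit 379839) (nat_lit 0) .nil) .nil))) 
(.lf (nat_lit 582374) (.g (nat_lit 3343) (.e (nat_lit 344119) (nat_lit 21) (.e (nat_lit 516179) (nat_lit 15) (.e (nat_lit 475198) (nat_lit 40) (.e (nat_lit 704590) (nat_lit 3) (.e (nat_lit 163975) (nat_lit 30) (.e (nat_lit 573481) (nat_lit 13) (.e (nat_lit 65613) (nat_lit 10) .nil))))))) (.g (nat_lit 1) (.e (nat_lit 381155) (nat_lit 0) .nil) .nil)))) (.nd (nat_lit 9) 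
(.lf (nat_lit 582118) (.g (nat_lit 5358) (.e (nat_lit 344117) (nat_lit 21) (.e (nat_lit 516139) (nat_lit 7) (.e (nat_lit 409644) (nat_lit 18) (.e (nat_lit 303117) (nat_lit 2) (.e (nat_lit 196666) (nat_lit 13) (.e (nat_lit 65617) (nat_lit 10) .nil)))))) (.g (nat_lit 1) (.e (nat_lit 380810) (nat_lit 0) .nil) .nil))) 
(.lf (nat_lit 582630) (.g (nat_lit 3079) (.e (nat_lit 344130) (nat_lit 26) (.e (nat_lit 557103) (nat_lit 14) (.e (nat_lit 180250) (nat_lit 10) (.e (nat_lit 573474) (nat_lit 12) (.e (nat_lit 57506) (nat_lit 39) (.e (nat_lit 655104) (nat_lit 0) (.e (nat_lit 2684) (nat_lit 168) (.e (nat_lit 204862) (nat_lit 27) .nil)))))))) (.g (nat_lit 1) (.e (nat_lit 381579) (nat_lit 0) .nil) .nil)))))))) 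
(.nd (nat_lit 5) (.nd (nat_lit 6) (.nd (nat_lit 7) (.nd (nat_lit 8) (.nd (nat_lit 9) 
(.lf (nat_lit 581654) (.g (nat_lit 1539) (.e (nat_lit 336456) (nat_lit 34) (.e (nat_lit 483365) (nat_lit 18) (.e (nat_lit 57847) (nat_lit 252) (.e (nat_lit 57379) (nat_lit 3) (.e (nat_lit 98313) (nat_lit 9) .nil))))) (.g (nat_lit 0) (.e (nat_lit 379353) (nat_lit 0) .nil) .nil))) 
(.lf (nat_lit 582166) (.g (nat_lit 2860) (.e (nat_lit 344117) (nat_lit 21) (.e (nat_lit 516139) (nat_lit 7) (.e (nat_lit 409648) (nat_lit 18) (.e (nat_lit 303119) (nat_lit 3) (.e (nat_lit 204855) (nat_lit 26) .nil))))) (.g (nat_lit 0) (.e (nat_lit 380858) (nat_lit 0) .nil) .nil)))) (.nd (nat_lit 9) 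
(.lf (nat_lit 581910) (.g (nat_lit 1453) (.e (nat_lit 344069) (nat_lit 0) (.e (nat_lit 3090) (nat_lit 191) (.e (nat_lit 483372) (nat_lit 21) (.e (nat_lit 319511) (nat_lit 10) .nil)))) (.g (nat_lit 0) (.e (nat_lit 379895) (nat_lit 0) .nil) .nil))) 
(.lf (nat_lit 582422) (.g (nat_lit 1467) (.e (nat_lit 344138) (nat_lit 29) (.e (nat_lit 581651) (nat_lit 4) (.e (nat_lit 172112) (nat_lit 10) (.e (nat_lit 434295) (nat_lit 49) (.e (nat_lit 745491) (nat_lit 4) (.e (nat_lit 65620) (nat_lit 10) .nil)))))) (.g (nat_lit 1) (.e (nat_lit 381280) (nat_lit 0) .nil) .nil))))) (.nd (nat_lit 8) (.nd (nat_lit 9) 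
(.lf (nat_lit 581782) (.g (nat_lit 708) (.e (nat_lit 344068) (nat_lit 0) (.e (nat_lit 3090) (nat_lit 191) (.e (nat_lit 483354) (nat_lit 17) (.e (nat_lit 6206) (nat_lit 333) .nil)))) (.g (nat_lit 0) (.e (nat_lit 379674) (nat_lit 0) .nil) .nil))) 
(.lf (nat_lit 582294) (.g (nat_lit 1331) (.e (nat_lit 344119) (nat_lit 21) (.e (nat_lit 516120) (nat_lit 1) (.e (nat_lit 164183) (nat_lit 154) (.e (nat_lit 57410) (nat_lit 12) .nil)))) (.g (nat_lit 0) (.e (nat_lit 381057) (nat_lit 0) .nil) .nil)))) (.nd (nat_lit 9) 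
(.lf (nat_lit 582038) (.g (nat_lit 2375) (.e (nat_lit 344116) (nat_lit 21) (.e (nat_lit 516182) (nat_lit 15) (.e (nat_lit 475199) (nat_lit 40) (.e (nat_lit 704589) (nat_lit 3) (.e (nat_lit 163975) (nat_lit 30) (.e (nat_lit 573481) (nat_lit 13) (.e (nat_lit 65613) (nat_lit 10) .nil))))))) (.g (nat_lit 1) (.e (nat_lit 380684) (nat_lit 0) .nil) .nil))) 
(.lf (nat_lit 582550) (.g (nat_lit 4034) (.e (nat_lit 344129) (nat_lit 26) (.e (nat_lit 557087) (nat_lit 11) (.e (nat_lit 24661) (nat_lit 14) (.e (nat_lit 401423) (nat_lit 2) (.e (nat_lit 196666) (nat_lit 13) (.e (nat_lit 65610) (nat_lit 10) .nil)))))) (.g (nat_lit 1) (.e (nat_lit 381463) (nat_lit 0) .nil) .nil)))))) (.nd (nat_lit 7) (.nd (nat_lit 8) (.nd (nat_lit 9) 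
(.lf (nat_lit 581718) (.g (nat_lit 1301) (.e (nat_lit 344068) (nat_lit 0) (.e (nat_lit 2682) (nat_lit 168) (.e (nat_lit 204869) (nat_lit 29) (.e (nat_lit 360451) (nat_lit 0) .nil)))) (.g (nat_lit 0) (.e (nat_lit 379543) (nat_lit 0) .nil) .nil))) 
(.lf (nat_lit 582230) (.g (nat_lit 2911) (.e (nat_lit 344117) (nat_lit 21) (.e (nat_lit 516195) (nat_lit 26) (.e (nat_lit 335996) (nat_lit 1) (.e (nat_lit 57931) (nat_lit 282) (.e (nat_lit 163901) (nat_lit 12) (.e (nat_lit 426506) (nat_lit 27) (.e (nat_lit 336178) (nat_lit 10) .nil))))))) (.g (nat_lit 1) (.e (nat_lit 380945) (nat_lit 0) .nil) .nil)))) (.nd (nat_lit 9) 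
(.lf (nat_lit 581974) (.g (nat_lit 2564) (.e (nat_lit 344097) (nat_lit 18) (.e (nat_lit 4715) (nat_lit 275) (.e (nat_lit 2610) (nat_lit 163) (.e (nat_lit 163979) (nat_lit 30) (.e (nat_lit 573482) (nat_lit 13) (.e (nat_lit 65619) (nat_lit 10) (.e (nat_lit 344129) (nat_lit 26) (.e (nat_lit 557066) (nat_lit 9) (.e (nat_lit 305) (nat_lit 22) .nil))))))))) (.g (nat_lit 1) (.e (nat_lit 380462) (nat_lit 0) .nil) .nil))) 
(.lf (nat_lit 582486) (.g (nat_lit 2765) (.e (nat_lit 344127) (nat_lit 26) (.e (nat_lit 557070) (nat_lit 9) (.e (nat_lit 2744) (nat_lit 174) (.e (nat_lit 253991) (nat_lit 11) (.e (nat_lit 16413) (nat_lit 2) (.e (nat_lit 196666) (nat_lit 13) (.e (nat_lit 65617) (nat_lit 10) .nil))))))) (.g (nat_lit 1) (.e (nat_lit 381353) (nat_lit 0) .nil) .nil))))) (.nd (nat_lit 8) (.nd (nat_lit 9) 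
(.lf (nat_lit 581846) (.g (nat_lit 2039) (.e (nat_lit 344069) (nat_lit 0) (.e (nat_lit 3088) (nat_lit 191) (.e (nat_lit 483346) (nat_lit 17) (.e (nat_lit 6720) (nat_lit 361) (.e (nat_lit 179968) (nat_lit 28) .nil))))) (.g (nat_lit 1) (.e (nat_lit 379805) (nat_lit 0) .nil) .nil))) 
(.lf (nat_lit 582358) (.g (nat_lit 2820) (.e (nat_lit 344119) (nat_lit 21) (.e (nat_lit 516139) (nat_lit 7) (.e (nat_lit 409649) (nat_lit 18) (.e (nat_lit 303118) (nat_lit 3) (.e (nat_lit 204855) (nat_lit 26) (.e (nat_lit 336178) (nat_lit 10) .nil)))))) (.g (nat_lit 1) (.e (nat_lit 381136) (nat_lit 0) .nil) .nil)))) (.nd (nat_lit 9) 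
(.lf (nat_lit 582102) (.g (nat_lit 2120) (.e (nat_lit 344117) (nat_lit 21) (.e (nat_lit 516138) (nat_lit 7) (.e (nat_lit 409645) (nat_lit 18) (.e (nat_lit 303119) (nat_lit 3) (.e (nat_lit 204856) (nat_lit 26) .nil))))) (.g (nat_lit 0) (.e (nat_lit 380789) (nat_lit 0) .nil) .nil))) 
(.lf (nat_lit 582614) (.g (nat_lit 345) (.e (nat_lit 344130) (nat_lit 26) (.e (nat_lit 557090) (nat_lit 12) (.e (nat_lit 164022) (nat_lit 46) .nil))) (.g (nat_lit 0) (.e (nat_lit 381554) (nat_lit 0) .nil) .nil))))))) (.nd (nat_lit 6) (.nd (nat_lit 7) (.nd (nat_lit 8) (.nd (nat_lit 9) 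
(.lf (nat_lit 581686) (.g (nat_lit 1608) (.e (nat_lit 336456) (nat_lit 34) (.e (nat_lit 483396) (nat_lit 24) (.e (nat_lit 344117) (nat_lit 21) (.e (nat_lit 516116) (nat_lit 1) .nil)))) (.g (nat_lit 0) (.e (nat_lit 379402) (nat_lit 0) .nil) .nil))) 
(.lf (nat_lit 582198) (.g (nat_lit 3519) (.e (nat_lit 344117) (nat_lit 21) (.e (nat_lit 516155) (nat_lit 9) (.e (nat_lit 426412) (nat_lit 15) (.e (nat_lit 2059) (nat_lit 142) (.e (nat_lit 704589) (nat_lit 3) (.e (nat_lit 163979) (nat_lit 30) (.e (nat_lit 573482) (nat_lit 13) (.e (nat_lit 65619) (nat_lit 10) .nil)))))))) (.g (nat_lit 1) (.e (nat_lit 380895) (nat_lit 0) .nil) .nil)))) 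
(.nd (nat_lit 9) 
(.lf (nat_lit 581942) (.g (nat_lit 301) (.e (nat_lit 352000) (nat_lit 5) (.e (nat_lit 180271) (nat_lit 26) (.e (nat_lit 704627) (nat_lit 9) .nil))) (.g (nat_lit 0) (.e (nat_lit 380171) (nat_lit 0) .nil) .nil))) 
(.lf (nat_lit 582454) (.g (nat_lit 2140) (.e (nat_lit 344138) (nat_lit 29) (.e (nat_lit 581653) (nat_lit 6) (.e (nat_lit 188435) (nat_lit 20) (.e (nat_lit 3579) (nat_lit 223) (.e (nat_lit 745491) (nat_lit 4) (.e (nat_lit 65611) (nat_lit 10) .nil)))))) (.g (nat_lit 1) (.e (nat_lit 381320) (nat_lit 0) .nil) .nil))))) (.nd (nat_lit 8) (.nd (nat_lit 9) 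
(.lf (nat_lit 581814) (.g (nat_lit 1546) (.e (nat_lit 344068) (nat_lit 0) (.e (nat_lit 3090) (nat_lit 191) (.e (nat_lit 483372) (nat_lit 21) (.e (nat_lit 319512) (nat_lit 10) (.e (nat_lit 5634) (nat_lit 312) (.e (nat_lit 7936) (nat_lit 22) .nil)))))) (.g (nat_lit 1) (.e (nat_lit 379716) (nat_lit 0) .nil) .nil))) 
(.lf (nat_lit 582326) (.g (nat_lit 2548) (.e (nat_lit 344119) (nat_lit 21) (.e (nat_lit 516139) (nat_lit 7) (.e (nat_lit 409646) (nat_lit 18) (.e (nat_lit 303117) (nat_lit 2) (.e (nat_lit 196665) (nat_lit 13) (.e (nat_lit 65613) (nat_lit 10) .nil)))))) (.g (nat_lit 1) (.e (nat_lit 381100) (nat_lit 0) .nil) .nil)))) (.nd (nat_lit 9) 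
(.lf (nat_lit 582070) (.g (nat_lit 3077) (.e (nat_lit 344117) (nat_lit 21) (.e (nat_lit 516116) (nat_lit 1) (.e (nat_lit 164182) (nat_lit 154) (.e (nat_lit 57379) (nat_lit 3) (.e (nat_lit 98319) (nat_lit 17) .nil))))) (.g (nat_lit 0) (.e (nat_lit 380750) (nat_lit 0) .nil) .nil))) 
(.lf (nat_lit 582582) (.g (nat_lit 3093) (.e (nat_lit 344129) (nat_lit 26) (.e (nat_lit 557103) (nat_lit 14) (.e (nat_lit 180244) (nat_lit 5) (.e (nat_lit 532499) (nat_lit 1) (.e (nat_lit 57704) (nat_lit 164) (.e (nat_lit 2601) (nat_lit 163) (.e (nat_lit 163962) (nat_lit 25) (.e (nat_lit 532544) (nat_lit 10) .nil)))))))) (.g (nat_lit 1) (.e (nat_lit 381500) (nat_lit 0) .nil) .nil)))))) 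
(.nd (nat_lit 7) (.nd (nat_lit 8) (.nd (nat_lit 9) 
(.lf (nat_lit 581750) (.g (nat_lit 1799) (.e (nat_lit 344068) (nat_lit 0) (.e (nat_lit 3090) (nat_lit 191) (.e (nat_lit 483344) (nat_lit 17) (.e (nat_lit 6720) (nat_lit 361) (.e (nat_lit 179968) (nat_lit 28) .nil))))) (.g (nat_lit 1) (.e (nat_lit 379641) (nat_lit 0) .nil) .nil))) 
(.lf (nat_lit 582262) (.g (nat_lit 786) (.e (nat_lit 344118) (nat_lit 21) (.e (nat_lit 516138) (nat_lit 7) (.e (nat_lit 409645) (nat_lit 18) .nil))) (.g (nat_lit 0) (.e (nat_lit 381015) (nat_lit 0) .nil) .nil)))) (.nd (nat_lit 9) 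
(.lf (nat_lit 582006) (.g (nat_lit 2600) (.e (nat_lit 344107) (nat_lit 19) (.e (nat_lit 499916) (nat_lit 9) (.e (nat_lit 172119) (nat_lit 12) (.e (nat_lit 475179) (nat_lit 24) (.e (nat_lit 516129) (nat_lit 3) (.e (nat_lit 229120) (nat_lit 12) .nil)))))) (.g (nat_lit 1) (.e (nat_lit 380624) (nat_lit 0) .nil) .nil))) 
(.lf (nat_lit 582518) (.g (nat_lit 3433) (.e (nat_lit 344129) (nat_lit 26) (.e (nat_lit 557067) (nat_lit 9) (.e (nat_lit 2416) (nat_lit 157) (.e (nat_lit 3469) (nat_lit 217) (.e (nat_lit 696344) (nat_lit 8) (.e (nat_lit 172064) (nat_lit 2) (.e (nat_lit 196666) (nat_lit 13) (.e (nat_lit 65610) (nat_lit 10) .nil)))))))) (.g (nat_lit 1) (.e (nat_lit 381420) (nat_lit 0) .nil) .nil))))) 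
(.nd (nat_lit 8) (.nd (nat_lit 9) 
(.lf (nat_lit 581878) (.g (nat_lit 1606) (.e (nat_lit 344069) (nat_lit 0) (.e (nat_lit 3090) (nat_lit 191) (.e (nat_lit 483350) (nat_lit 17) (.e (nat_lit 6224) (nat_lit 334) .nil)))) (.g (nat_lit 0) (.e (nat_lit 379855) (nat_lit 0) .nil) .nil))) 
(.lf (nat_lit 582390) (.g (nat_lit 624) (.e (nat_lit 344120) (nat_lit 21) (.e (nat_lit 516139) (nat_lit 7) (.e (nat_lit 409643) (nat_lit 18) .nil))) (.g (nat_lit 0) (.e (nat_lit 381181) (nat_lit 0) .nil) .nil)))) (.nd (nat_lit 9) 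
(.lf (nat_lit 582134) (.g (nat_lit 4569) (.e (nat_lit 344117) (nat_lit 21) (.e (nat_lit 516139) (nat_lit 7) (.e (nat_lit 409645) (nat_lit 18) (.e (nat_lit 303119) (nat_lit 3) (.e (nat_lit 204855) (nat_lit 26) (.e (nat_lit 336163) (nat_lit 10) .nil)))))) (.g (nat_lit 1) (.e (nat_lit 380826) (nat_lit 0) .nil) .nil))) 
(.lf (nat_lit 582646) (.g (nat_lit 2914) (.e (nat_lit 344130) (nat_lit 26) (.e (nat_lit 557104) (nat_lit 14) (.e (nat_lit 180252) (nat_lit 10) (.e (nat_lit 573474) (nat_lit 12) (.e (nat_lit 57505) (nat_lit 39) (.e (nat_lit 655104) (nat_lit 0) (.e (nat_lit 2684) (nat_lit 168) (.e (nat_lit 204863) (nat_lit 27) .nil)))))))) (.g (nat_lit 1) (.e (nat_lit 381595) (nat_lit 0) .nil) .nil))))))))) 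
(.nd (nat_lit 4) (.nd (nat_lit 5) (.nd (nat_lit 6) (.nd (nat_lit 7) (.nd (nat_lit 8) 
(.nd (nat_lit 9) 
(.lf (nat_lit 581646) (.g (nat_lit 2070) (.e (nat_lit 336456) (nat_lit 34) (.e (nat_lit 483365) (nat_lit 18) (.e (nat_lit 57844) (nat_lit 252) (.e (nat_lit 57371) (nat_lit 2) (.e (nat_lit 90158) (nat_lit 11) .nil))))) (.g (nat_lit 0) (.e (nat_lit 379345) (nat_lit 0) .nil) .nil))) 
(.lf (nat_lit 582158) (.g (nat_lit 5026) (.e (nat_lit 344117) (nat_lit 21) (.e (nat_lit 516139) (nat_lit 7) (.e (nat_lit 409647) (nat_lit 18) (.e (nat_lit 303117) (nat_lit 2) (.e (nat_lit 196666) (nat_lit 13) (.e (nat_lit 65610) (nat_lit 10) .nil)))))) (.g (nat_lit 1) (.e (nat_lit 380850) (nat_lit 0) .nil) .nil)))) (.nd (nat_lit 9) 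
(.lf (nat_lit 581902) (.g (nat_lit 2521) (.e (nat_lit 344069) (nat_lit 0) (.e (nat_lit 3090) (nat_lit 191) (.e (nat_lit 483372) (nat_lit 21) (.e (nat_lit 319505) (nat_lit 10) (.e (nat_lit 5712) (nat_lit 312) (.e (nat_lit 7936) (nat_lit 22) .nil)))))) (.g (nat_lit 1) (.e (nat_lit 379882) (nat_lit 0) .nil) .nil))) 
(.lf (nat_lit 582414) (.g (nat_lit 1135) (.e (nat_lit 344138) (nat_lit 29) (.e (nat_lit 581636) (nat_lit 0) (.e (nat_lit 3027) (nat_lit 187) (.e (nat_lit 450605) (nat_lit 27) (.e (nat_lit 745491) (nat_lit 4) (.e (nat_lit 65611) (nat_lit 10) .nil)))))) (.g (nat_lit 1) (.e (nat_lit 381272) (nat_lit 0) .nil) .nil))))) (.nd (nat_lit 8) (.nd (nat_lit 9) 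
(.lf (nat_lit 581774) (.g (nat_lit 1584) (.e (nat_lit 344068) (nat_lit 0) (.e (nat_lit 3090) (nat_lit 191) (.e (nat_lit 483350) (nat_lit 17) (.e (nat_lit 6224) (nat_lit 334) .nil)))) (.g (nat_lit 0) (.e (nat_lit 379666) (nat_lit 0) .nil) .nil))) 
(.lf (nat_lit 582286) (.g (nat_lit 2005) (.e (nat_lit 344118) (nat_lit 21) (.e (nat_lit 516182) (nat_lit 15) (.e (nat_lit 475198) (nat_lit 40) (.e (nat_lit 704589) (nat_lit 3) (.e (nat_lit 163975) (nat_lit 30) (.e (nat_lit 573481) (nat_lit 13) (.e (nat_lit 65613) (nat_lit 10) .nil))))))) (.g (nat_lit 1) (.e (nat_lit 381043) (nat_lit 0) .nil) .nil)))) (.nd (nat_lit 9) 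
(.lf (nat_lit 582030) (.g (nat_lit 2586) (.e (nat_lit 344116) (nat_lit 21) (.e (nat_lit 516139) (nat_lit 7) (.e (nat_lit 409649) (nat_lit 18) (.e (nat_lit 303119) (nat_lit 3) (.e (nat_lit 204855) (nat_lit 26) .nil))))) (.g (nat_lit 0) (.e (nat_lit 380675) (nat_lit 0) .nil) .nil))) 
(.lf (nat_lit 582542) (.g (nat_lit 4073) (.e (nat_lit 344129) (nat_lit 26) (.e (nat_lit 557087) (nat_lit 11) (.e (nat_lit 24617) (nat_lit 7) (.e (nat_lit 319504) (nat_lit 10) (.e (nat_lit 7936) (nat_lit 45) (.e (nat_lit 532535) (nat_lit 9) (.e (nat_lit 336175) (nat_lit 10) .nil))))))) (.g (nat_lit 1) (.e (nat_lit 381455) (nat_lit 0) .nil) .nil)))))) 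
(.nd (nat_lit 7) (.nd (nat_lit 8) (.nd (nat_lit 9) 
(.lf (nat_lit 581710) (.g (nat_lit 3297) (.e (nat_lit 344067) (nat_lit 0) (.e (nat_lit 2505) (nat_lit 157) (.e (nat_lit 3249) (nat_lit 197) (.e (nat_lit 532550) (nat_lit 12) (.e (nat_lit 360475) (nat_lit 8) (.e (nat_lit 557068) (nat_lit 9) (.e (nat_lit 7936) (nat_lit 22) .nil))))))) (.g (nat_lit 1) (.e (nat_lit 379498) (nat_lit 0) .nil) .nil))) 
(.lf (nat_lit 582222) (.g (nat_lit 2518) (.e (nat_lit 344117) (nat_lit 21) (.e (nat_lit 516195) (nat_lit 26) (.e (nat_lit 335986) (nat_lit 1) (.e (nat_lit 57931) (nat_lit 282) (.e (nat_lit 163941) (nat_lit 19) (.e (nat_lit 483394) (nat_lit 24) .nil)))))) (.g (nat_lit 1) (.e (nat_lit 380931) (nat_lit 0) .nil) .nil)))) (.nd (nat_lit 9) 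
(.lf (nat_lit 581966) (.g (nat_lit 2996) (.e (nat_lit 344090) (nat_lit 18) (.e (nat_lit 7710) (nat_lit 414) (.e (nat_lit 163923) (nat_lit 15) (.e (nat_lit 450584) (nat_lit 9) (.e (nat_lit 565267) (nat_lit 4) (.e (nat_lit 65610) (nat_lit 10) .nil)))))) (.g (nat_lit 1) (.e (nat_lit 380370) (nat_lit 0) .nil) .nil))) 
(.lf (nat_lit 582478) (.g (nat_lit 2904) (.e (nat_lit 344138) (nat_lit 29) (.e (nat_lit 581653) (nat_lit 6) (.e (nat_lit 188441) (nat_lit 20) (.e (nat_lit 3579) (nat_lit 223) (.e (nat_lit 745491) (nat_lit 4) (.e (nat_lit 65610) (nat_lit 10) .nil)))))) (.g (nat_lit 1) (.e (nat_lit 381344) (nat_lit 0) .nil) .nil))))) (.nd (nat_lit 8) (.nd (nat_lit 9) 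
(.lf (nat_lit 581838) (.g (nat_lit 230) (.e (nat_lit 344069) (nat_lit 0) (.e (nat_lit 2857) (nat_lit 184) (.e (nat_lit 426482) (nat_lit 27) .nil))) (.g (nat_lit 0) (.e (nat_lit 379780) (nat_lit 0) .nil) .nil))) 
(.lf (nat_lit 582350) (.g (nat_lit 2211) (.e (nat_lit 344119) (nat_lit 21) (.e (nat_lit 516139) (nat_lit 7) (.e (nat_lit 409649) (nat_lit 18) (.e (nat_lit 303116) (nat_lit 2) (.e (nat_lit 196666) (nat_lit 13) (.e (nat_lit 65609) (nat_lit 10) .nil)))))) (.g (nat_lit 1) (.e (nat_lit 381127) (nat_lit 0) .nil) .nil)))) (.nd (nat_lit 9) 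
(.lf (nat_lit 582094) (.g (nat_lit 4858) (.e (nat_lit 344117) (nat_lit 21) (.e (nat_lit 516138) (nat_lit 7) (.e (nat_lit 409644) (nat_lit 18) (.e (nat_lit 303117) (nat_lit 2) (.e (nat_lit 196666) (nat_lit 13) (.e (nat_lit 65610) (nat_lit 10) .nil)))))) (.g (nat_lit 1) (.e (nat_lit 380780) (nat_lit 0) .nil) .nil))) 
(.lf (nat_lit 582606) (.g (nat_lit 2954) (.e (nat_lit 344129) (nat_lit 26) (.e (nat_lit 557105) (nat_lit 14) (.e (nat_lit 180252) (nat_lit 10) (.e (nat_lit 573495) (nat_lit 16) .nil)))) (.g (nat_lit 0) (.e (nat_lit 381524) (nat_lit 0) .nil) .nil))))))) (.nd (nat_lit 6) (.nd (nat_lit 7) (.nd (nat_lit 8) (.nd (nat_lit 9) 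
(.lf (nat_lit 581678) (.g (nat_lit 2543) (.e (nat_lit 336456) (nat_lit 34) (.e (nat_lit 483384) (nat_lit 23) (.e (nat_lit 336324) (nat_lit 18) (.e (nat_lit 204831) (nat_lit 18) (.e (nat_lit 57848) (nat_lit 252) (.e (nat_lit 57407) (nat_lit 12) .nil)))))) (.g (nat_lit 1) (.e (nat_lit 379386) (nat_lit 0) .nil) .nil))) 
(.lf (nat_lit 582190) (.g (nat_lit 5723) (.e (nat_lit 344117) (nat_lit 21) (.e (nat_lit 516151) (nat_lit 9) (.e (nat_lit 426412) (nat_lit 15) (.e (nat_lit 2059) (nat_lit 142) (.e (nat_lit 704589) (nat_lit 3) (.e (nat_lit 163975) (nat_lit 30) (.e (nat_lit 573484) (nat_lit 13) (.e (nat_lit 65610) (nat_lit 10) .nil)))))))) (.g (nat_lit 1) (.e (nat_lit 380886) (nat_lit 0) .nil) .nil)))) 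
(.nd (nat_lit 9) 
(.lf (nat_lit 581934) (.g (nat_lit 811) (.e (nat_lit 352000) (nat_lit 3) (.e (nat_lit 163962) (nat_lit 25) (.e (nat_lit 532526) (nat_lit 8) (.e (nat_lit 327682) (nat_lit 0) .nil)))) (.g (nat_lit 0) (.e (nat_lit 380079) (nat_lit 0) .nil) .nil))) 
(.lf (nat_lit 582446) (.g (nat_lit 3165) (.e (nat_lit 344138) (nat_lit 29) (.e (nat_lit 581653) (nat_lit 6) (.e (nat_lit 188434) (nat_lit 20) (.e (nat_lit 3579) (nat_lit 223) (.e (nat_lit 745491) (nat_lit 4) (.e (nat_lit 65610) (nat_lit 10) .nil)))))) (.g (nat_lit 1) (.e (nat_lit 381312) (nat_lit 0) .nil) .nil))))) (.nd (nat_lit 8) (.nd (nat_lit 9) 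
(.lf (nat_lit 581806) (.g (nat_lit 2421) (.e (nat_lit 344068) (nat_lit 0) (.e (nat_lit 3090) (nat_lit 191) (.e (nat_lit 483372) (nat_lit 21) (.e (nat_lit 319506) (nat_lit 10) (.e (nat_lit 5723) (nat_lit 312) .nil))))) (.g (nat_lit 0) (.e (nat_lit 379706) (nat_lit 0) .nil) .nil))) 
(.lf (nat_lit 582318) (.g (nat_lit 1635) (.e (nat_lit 344119) (nat_lit 21) (.e (nat_lit 516139) (nat_lit 7) (.e (nat_lit 409645) (nat_lit 18) (.e (nat_lit 303118) (nat_lit 3) .nil)))) (.g (nat_lit 0) (.e (nat_lit 381092) (nat_lit 0) .nil) .nil)))) (.nd (nat_lit 9) 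
(.lf (nat_lit 582062) (.g (nat_lit 2780) (.e (nat_lit 344117) (nat_lit 21) (.e (nat_lit 516115) (nat_lit 1) (.e (nat_lit 164182) (nat_lit 154) (.e (nat_lit 57373) (nat_lit 2) (.e (nat_lit 90128) (nat_lit 9) (.e (nat_lit 2706) (nat_lit 170) (.e (nat_lit 221214) (nat_lit 23) (.e (nat_lit 204862) (nat_lit 27) .nil)))))))) (.g (nat_lit 1) (.e (nat_lit 380737) (nat_lit 0) .nil) .nil))) 
(.lf (nat_lit 582574) (.g (nat_lit 2772) (.e (nat_lit 344129) (nat_lit 26) (.e (nat_lit 557097) (nat_lit 13) (.e (nat_lit 172066) (nat_lit 3) (.e (nat_lit 204829) (nat_lit 18) (.e (nat_lit 57704) (nat_lit 164) (.e (nat_lit 2515) (nat_lit 157) (.e (nat_lit 2681) (nat_lit 168) (.e (nat_lit 204863) (nat_lit 27) .nil)))))))) (.g (nat_lit 1) (.e (nat_lit 381492) (nat_lit 0) .nil) .nil)))))) 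
(.nd (nat_lit 7) (.nd (nat_lit 8) (.nd (nat_lit 9) 
(.lf (nat_lit 581742) (.g (nat_lit 1987) (.e (nat_lit 344068) (nat_lit 0) (.e (nat_lit 3088) (nat_lit 191) (.e (nat_lit 483346) (nat_lit 17) (.e (nat_lit 6720) (nat_lit 361) (.e (nat_lit 179968) (nat_lit 28) .nil))))) (.g (nat_lit 1) (.e (nat_lit 379604) (nat_lit 0) .nil) .nil))) 
(.lf (nat_lit 582254) (.g (nat_lit 2255) (.e (nat_lit 344118) (nat_lit 21) (.e (nat_lit 516120) (nat_lit 1) (.e (nat_lit 164183) (nat_lit 154) (.e (nat_lit 57373) (nat_lit 2) (.e (nat_lit 90162) (nat_lit 12) (.e (nat_lit 164061) (nat_lit 57) (.e (nat_lit 794673) (nat_lit 23) (.e (nat_lit 204862) (nat_lit 27) .nil)))))))) (.g (nat_lit 1) (.e (nat_lit 381000) (nat_lit 0) .nil) .nil)))) 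
(.nd (nat_lit 9) 
(.lf (nat_lit 581998) (.g (nat_lit 2387) (.e (nat_lit 344100) (nat_lit 18) (.e (nat_lit 7270) (nat_lit 385) (.e (nat_lit 122919) (nat_lit 15) (.e (nat_lit 360452) (nat_lit 0) .nil)))) (.g (nat_lit 0) (.e (nat_lit 380541) (nat_lit 0) .nil) .nil))) 
(.lf (nat_lit 582510) (.g (nat_lit 3558) (.e (nat_lit 344129) (nat_lit 26) (.e (nat_lit 557065) (nat_lit 9) (.e (nat_lit 3098) (nat_lit 192) (.e (nat_lit 491571) (nat_lit 13) (.e (nat_lit 393251) (nat_lit 18) (.e (nat_lit 164177) (nat_lit 154) (.e (nat_lit 57420) (nat_lit 13) .nil))))))) (.g (nat_lit 1) (.e (nat_lit 381396) (nat_lit 0) .nil) .nil))))) (.nd (nat_lit 8) (.nd (nat_lit 9) 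
(.lf (nat_lit 581870) (.g (nat_lit 1576) (.e (nat_lit 344069) (nat_lit 0) (.e (nat_lit 3090) (nat_lit 191) (.e (nat_lit 483350) (nat_lit 17) (.e (nat_lit 6146) (nat_lit 332) .nil)))) (.g (nat_lit 0) (.e (nat_lit 379847) (nat_lit 0) .nil) .nil))) 
(.lf (nat_lit 582382) (.g (nat_lit 2754) (.e (nat_lit 344119) (nat_lit 21) (.e (nat_lit 516182) (nat_lit 15) (.e (nat_lit 475199) (nat_lit 40) (.e (nat_lit 704589) (nat_lit 3) (.e (nat_lit 163975) (nat_lit 30) (.e (nat_lit 573481) (nat_lit 13) (.e (nat_lit 65613) (nat_lit 10) .nil))))))) (.g (nat_lit 1) (.e (nat_lit 381163) (nat_lit 0) .nil) .nil)))) (.nd (nat_lit 9) 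
(.lf (nat_lit 582126) (.g (nat_lit 3833) (.e (nat_lit 344117) (nat_lit 21) (.e (nat_lit 516139) (nat_lit 7) (.e (nat_lit 409645) (nat_lit 18) (.e (nat_lit 303112) (nat_lit 0) (.e (nat_lit 3252) (nat_lit 197) (.e (nat_lit 532536) (nat_lit 9) (.e (nat_lit 336164) (nat_lit 10) .nil))))))) (.g (nat_lit 1) (.e (nat_lit 380818) (nat_lit 0) .nil) .nil))) 
(.lf (nat_lit 582638) (.g (nat_lit 2966) (.e (nat_lit 344130) (nat_lit 26) (.e (nat_lit 557103) (nat_lit 14) (.e (nat_lit 180250) (nat_lit 10) (.e (nat_lit 573474) (nat_lit 12) (.e (nat_lit 57508) (nat_lit 39) (.e (nat_lit 655104) (nat_lit 0) (.e (nat_lit 2684) (nat_lit 168) (.e (nat_lit 204862) (nat_lit 27) .nil)))))))) (.g (nat_lit 1) (.e (nat_lit 381587) (nat_lit 0) .nil) .nil)))))))) 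
(.nd (nat_lit 5) (.nd (nat_lit 6) (.nd (nat_lit 7) (.nd (nat_lit 8) (.nd (nat_lit 9) 
(.lf (nat_lit 581662) (.g (nat_lit 2356) (.e (nat_lit 336456) (nat_lit 34) (.e (nat_lit 483365) (nat_lit 18) (.e (nat_lit 57853) (nat_lit 252) (.e (nat_lit 57373) (nat_lit 2) (.e (nat_lit 90158) (nat_lit 11) .nil))))) (.g (nat_lit 0) (.e (nat_lit 379361) (nat_lit 0) .nil) .nil))) 
(.lf (nat_lit 582174) (.g (nat_lit 3431) (.e (nat_lit 344117) (nat_lit 21) (.e (nat_lit 516139) (nat_lit 7) (.e (nat_lit 409649) (nat_lit 18) (.e (nat_lit 303119) (nat_lit 3) (.e (nat_lit 204850) (nat_lit 26) .nil))))) (.g (nat_lit 0) (.e (nat_lit 380866) (nat_lit 0) .nil) .nil)))) (.nd (nat_lit 9) 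
(.lf (nat_lit 581918) (.g (nat_lit 1461) (.e (nat_lit 344069) (nat_lit 0) (.e (nat_lit 3090) (nat_lit 191) (.e (nat_lit 483375) (nat_lit 22) (.e (nat_lit 327705) (nat_lit 10) (.e (nat_lit 5721) (nat_lit 312) .nil))))) (.g (nat_lit 0) (.e (nat_lit 379908) (nat_lit 0) .nil) .nil))) 
(.lf (nat_lit 582430) (.g (nat_lit 2106) (.e (nat_lit 344138) (nat_lit 29) (.e (nat_lit 581653) (nat_lit 6) (.e (nat_lit 188427) (nat_lit 20) (.e (nat_lit 3572) (nat_lit 222) (.e (nat_lit 737300) (nat_lit 7) (.e (nat_lit 286756) (nat_lit 10) .nil)))))) (.g (nat_lit 1) (.e (nat_lit 381295) (nat_lit 0) .nil) .nil))))) (.nd (nat_lit 8) (.nd (nat_lit 9) 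
(.lf (nat_lit 581790) (.g (nat_lit 1328) (.e (nat_lit 344068) (nat_lit 0) (.e (nat_lit 3090) (nat_lit 191) (.e (nat_lit 483372) (nat_lit 21) (.e (nat_lit 319496) (nat_lit 10) .nil)))) (.g (nat_lit 0) (.e (nat_lit 379682) (nat_lit 0) .nil) .nil))) 
(.lf (nat_lit 582302) (.g (nat_lit 442) (.e (nat_lit 344119) (nat_lit 21) (.e (nat_lit 516139) (nat_lit 7) (.e (nat_lit 409617) (nat_lit 10) .nil))) (.g (nat_lit 0) (.e (nat_lit 381073) (nat_lit 0) .nil) .nil)))) (.nd (nat_lit 9) 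
(.lf (nat_lit 582046) (.g (nat_lit 4565) (.e (nat_lit 344117) (nat_lit 21) (.e (nat_lit 516106) (nat_lit 0) (.e (nat_lit 6966) (nat_lit 377) (.e (nat_lit 2816) (nat_lit 181) (.e (nat_lit 311312) (nat_lit 2) (.e (nat_lit 196666) (nat_lit 13) (.e (nat_lit 65610) (nat_lit 10) .nil))))))) (.g (nat_lit 1) (.e (nat_lit 380698) (nat_lit 0) .nil) .nil))) 
(.lf (nat_lit 582558) (.g (nat_lit 3654) (.e (nat_lit 344129) (nat_lit 26) (.e (nat_lit 557087) (nat_lit 11) (.e (nat_lit 24662) (nat_lit 14) (.e (nat_lit 401464) (nat_lit 15) .nil)))) (.g (nat_lit 0) (.e (nat_lit 381471) (nat_lit 0) .nil) .nil)))))) (.nd (nat_lit 7) (.nd (nat_lit 8) (.nd (nat_lit 9) 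
(.lf (nat_lit 581726) (.g (nat_lit 826) (.e (nat_lit 344068) (nat_lit 0) (.e (nat_lit 2854) (nat_lit 184) (.e (nat_lit 426533) (nat_lit 28) (.e (nat_lit 344067) (nat_lit 0) (.e (nat_lit 2936) (nat_lit 184) (.e (nat_lit 426532) (nat_lit 28) .nil)))))) (.g (nat_lit 1) (.e (nat_lit 379552) (nat_lit 0) .nil) .nil))) 
(.lf (nat_lit 582238) (.g (nat_lit 783) (.e (nat_lit 344118) (nat_lit 21) (.e (nat_lit 516117) (nat_lit 1) (.e (nat_lit 164183) (nat_lit 154) .nil))) (.g (nat_lit 0) (.e (nat_lit 380968) (nat_lit 0) .nil) .nil)))) (.nd (nat_lit 9) 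
(.lf (nat_lit 581982) (.g (nat_lit 580) (.e (nat_lit 344097) (nat_lit 18) (.e (nat_lit 5907) (nat_lit 320) (.e (nat_lit 1211) (nat_lit 89) (.e (nat_lit 81664) (nat_lit 32) .nil)))) (.g (nat_lit 0) (.e (nat_lit 380478) (nat_lit 0) .nil) .nil))) 
(.lf (nat_lit 582494) (.g (nat_lit 2912) (.e (nat_lit 344127) (nat_lit 26) (.e (nat_lit 557090) (nat_lit 12) (.e (nat_lit 163850) (nat_lit 0) (.e (nat_lit 6425) (nat_lit 342) (.e (nat_lit 237312) (nat_lit 12) .nil))))) (.g (nat_lit 0) (.e (nat_lit 381371) (nat_lit 0) .nil) .nil))))) (.nd (nat_lit 8) (.nd (nat_lit 9) 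
(.lf (nat_lit 581854) (.g (nat_lit 1624) (.e (nat_lit 344069) (nat_lit 0) (.e (nat_lit 3090) (nat_lit 191) (.e (nat_lit 483343) (nat_lit 17) (.e (nat_lit 6718) (nat_lit 361) (.e (nat_lit 179968) (nat_lit 28) .nil))))) (.g (nat_lit 1) (.e (nat_lit 379830) (nat_lit 0) .nil) .nil))) 
(.lf (nat_lit 582366) (.g (nat_lit 1739) (.e (nat_lit 344119) (nat_lit 21) (.e (nat_lit 516142) (nat_lit 8) (.e (nat_lit 417828) (nat_lit 18) (.e (nat_lit 303119) (nat_lit 3) .nil)))) (.g (nat_lit 0) (.e (nat_lit 381147) (nat_lit 0) .nil) .nil)))) (.nd (nat_lit 9) 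
(.lf (nat_lit 582110) (.g (nat_lit 5061) (.e (nat_lit 344117) (nat_lit 21) (.e (nat_lit 516138) (nat_lit 7) (.e (nat_lit 409648) (nat_lit 18) (.e (nat_lit 303117) (nat_lit 2) (.e (nat_lit 196666) (nat_lit 13) (.e (nat_lit 65610) (nat_lit 10) .nil)))))) (.g (nat_lit 1) (.e (nat_lit 380799) (nat_lit 0) .nil) .nil))) 
(.lf (nat_lit 582622) (.g (nat_lit 3101) (.e (nat_lit 344130) (nat_lit 26) (.e (nat_lit 557097) (nat_lit 13) (.e (nat_lit 172133) (nat_lit 15) (.e (nat_lit 1800) (nat_lit 119) (.e (nat_lit 516119) (nat_lit 1) (.e (nat_lit 164345) (nat_lit 240) (.e (nat_lit 2600) (nat_lit 163) (.e (nat_lit 163962) (nat_lit 25) (.e (nat_lit 532544) (nat_lit 10) .nil))))))))) (.g (nat_lit 1) (.e (nat_lit 381571) (nat_lit 0) .nil) .nil))))))) 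
(.nd (nat_lit 6) (.nd (nat_lit 7) (.nd (nat_lit 8) (.nd (nat_lit 9) 
(.lf (nat_lit 581694) (.g (nat_lit 350) (.e (nat_lit 343808) (nat_lit 35) (.e (nat_lit 491566) (nat_lit 12) (.e (nat_lit 392960) (nat_lit 22) .nil))) (.g (nat_lit 0) (.e (nat_lit 379468) (nat_lit 0) .nil) .nil))) 
(.lf (nat_lit 582206) (.g (nat_lit 2360) (.e (nat_lit 344117) (nat_lit 21) (.e (nat_lit 516160) (nat_lit 10) (.e (nat_lit 434272) (nat_lit 38) (.e (nat_lit 655364) (nat_lit 0) (.e (nat_lit 2472) (nat_lit 157) .nil))))) (.g (nat_lit 0) (.e (nat_lit 380906) (nat_lit 0) .nil) .nil)))) (.nd (nat_lit 9) 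
(.lf (nat_lit 581950) (.g (nat_lit 1037) (.e (nat_lit 352000) (nat_lit 7) (.e (nat_lit 237636) (nat_lit 27) (.e (nat_lit 336076) (nat_lit 9) (.e (nat_lit 336265) (nat_lit 15) .nil)))) (.g (nat_lit 0) (.e (nat_lit 380195) (nat_lit 0) .nil) .nil))) 
(.lf (nat_lit 582462) (.g (nat_lit 2181) (.e (nat_lit 344138) (nat_lit 29) (.e (nat_lit 581653) (nat_lit 6) (.e (nat_lit 188438) (nat_lit 20) (.e (nat_lit 3579) (nat_lit 223) (.e (nat_lit 745491) (nat_lit 4) (.e (nat_lit 65620) (nat_lit 10) .nil)))))) (.g (nat_lit 1) (.e (nat_lit 381328) (nat_lit 0) .nil) .nil))))) (.nd (nat_lit 8) (.nd (nat_lit 9) 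
(.lf (nat_lit 581822) (.g (nat_lit 1692) (.e (nat_lit 344068) (nat_lit 0) (.e (nat_lit 3090) (nat_lit 191) (.e (nat_lit 483380) (nat_lit 23) (.e (nat_lit 336306) (nat_lit 15) .nil)))) (.g (nat_lit 0) (.e (nat_lit 379730) (nat_lit 0) .nil) .nil))) 
(.lf (nat_lit 582334) (.g (nat_lit 1492) (.e (nat_lit 344119) (nat_lit 21) (.e (nat_lit 516139) (nat_lit 7) (.e (nat_lit 409647) (nat_lit 18) (.e (nat_lit 303119) (nat_lit 3) .nil)))) (.g (nat_lit 0) (.e (nat_lit 381109) (nat_lit 0) .nil) .nil)))) (.nd (nat_lit 9) 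
(.lf (nat_lit 582078) (.g (nat_lit 3479) (.e (nat_lit 344117) (nat_lit 21) (.e (nat_lit 516123) (nat_lit 2) (.e (nat_lit 213033) (nat_lit 12) (.e (nat_lit 163975) (nat_lit 30) (.e (nat_lit 573474) (nat_lit 12) (.e (nat_lit 57528) (nat_lit 46) (.e (nat_lit 704590) (nat_lit 3) (.e (nat_lit 163962) (nat_lit 25) (.e (nat_lit 532543) (nat_lit 10) .nil))))))))) (.g (nat_lit 1) (.e (nat_lit 380760) (nat_lit 0) .nil) .nil))) 
(.lf (nat_lit 582590) (.g (nat_lit 3290) (.e (nat_lit 344129) (nat_lit 26) (.e (nat_lit 557103) (nat_lit 14) (.e (nat_lit 180250) (nat_lit 10) (.e (nat_lit 573474) (nat_lit 12) (.e (nat_lit 57509) (nat_lit 39) (.e (nat_lit 655104) (nat_lit 0) (.e (nat_lit 2684) (nat_lit 168) (.e (nat_lit 204862) (nat_lit 27) .nil)))))))) (.g (nat_lit 1) (.e (nat_lit 381508) (nat_lit 0) .nil) .nil)))))) 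
(.nd (nat_lit 7) (.nd (nat_lit 8) (.nd (nat_lit 9) 
(.lf (nat_lit 581758) (.g (nat_lit 1346) (.e (nat_lit 344068) (nat_lit 0) (.e (nat_lit 3090) (nat_lit 191) (.e (nat_lit 483350) (nat_lit 17) (.e (nat_lit 6109) (nat_lit 332) .nil)))) (.g (nat_lit 0) (.e (nat_lit 379649) (nat_lit 0) .nil) .nil))) 
(.lf (nat_lit 582270) (.g (nat_lit 734) (.e (nat_lit 344118) (nat_lit 21) (.e (nat_lit 516146) (nat_lit 9) (.e (nat_lit 426444) (nat_lit 19) .nil))) (.g (nat_lit 0) (.e (nat_lit 381027) (nat_lit 0) .nil) .nil)))) (.nd (nat_lit 9) 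
(.lf (nat_lit 582014) (.g (nat_lit 2779) (.e (nat_lit 344115) (nat_lit 20) (.e (nat_lit 507908) (nat_lit 0) (.e (nat_lit 5406) (nat_lit 302) (.e (nat_lit 65636) (nat_lit 15) (.e (nat_lit 3302) (nat_lit 202) (.e (nat_lit 573485) (nat_lit 13) (.e (nat_lit 65619) (nat_lit 10) .nil))))))) (.g (nat_lit 1) (.e (nat_lit 380634) (nat_lit 0) .nil) .nil))) 
(.lf (nat_lit 582526) (.g (nat_lit 2892) (.e (nat_lit 344129) (nat_lit 26) (.e (nat_lit 557070) (nat_lit 9) (.e (nat_lit 2744) (nat_lit 174) (.e (nat_lit 253991) (nat_lit 11) (.e (nat_lit 16410) (nat_lit 2) .nil))))) (.g (nat_lit 0) (.e (nat_lit 381435) (nat_lit 0) .nil) .nil))))) (.nd (nat_lit 8) (.nd (nat_lit 9) 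
(.lf (nat_lit 581886) (.g (nat_lit 564) (.e (nat_lit 344069) (nat_lit 0) (.e (nat_lit 3090) (nat_lit 191) (.e (nat_lit 483357) (nat_lit 17) .nil))) (.g (nat_lit 0) (.e (nat_lit 379863) (nat_lit 0) .nil) .nil))) 
(.lf (nat_lit 582398) (.g (nat_lit 4103) (.e (nat_lit 344120) (nat_lit 21) (.e (nat_lit 516139) (nat_lit 7) (.e (nat_lit 409649) (nat_lit 18) (.e (nat_lit 303118) (nat_lit 3) (.e (nat_lit 204855) (nat_lit 26) (.e (nat_lit 336176) (nat_lit 10) .nil)))))) (.g (nat_lit 1) (.e (nat_lit 381190) (nat_lit 0) .nil) .nil)))) (.nd (nat_lit 9) 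
(.lf (nat_lit 582142) (.g (nat_lit 4297) (.e (nat_lit 344117) (nat_lit 21) (.e (nat_lit 516139) (nat_lit 7) (.e (nat_lit 409646) (nat_lit 18) (.e (nat_lit 303116) (nat_lit 2) (.e (nat_lit 196666) (nat_lit 13) (.e (nat_lit 65610) (nat_lit 10) .nil)))))) (.g (nat_lit 1) (.e (nat_lit 380834) (nat_lit 0) .nil) .nil))) 
(.lf (nat_lit 582654) (.g (nat_lit 2810) (.e (nat_lit 344130) (nat_lit 26) (.e (nat_lit 557104) (nat_lit 14) (.e (nat_lit 180252) (nat_lit 10) (.e (nat_lit 573474) (nat_lit 12) (.e (nat_lit 57511) (nat_lit 39) (.e (nat_lit 655104) (nat_lit 0) (.e (nat_lit 2684) (nat_lit 168) (.e (nat_lit 204863) (nat_lit 27) .nil)))))))) (.g (nat_lit 1) (.e (nat_lit 381603) (nat_lit 0) .nil) .nil)))))))))))) 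
(.nd (nat_lit 1) (.nd (nat_lit 2) (.nd (nat_lit 3) (.nd (nat_lit 4) (.nd (nat_lit 5) 
(.nd (nat_lit 6) (.nd (nat_lit 7) (.nd (nat_lit 8) (.nd (nat_lit 9) 
(.lf (nat_lit 581633) (.g (nat_lit 3675) (.e (nat_lit 336456) (nat_lit 34) (.e (nat_lit 483364) (nat_lit 18) (.e (nat_lit 57854) (nat_lit 252) (.e (nat_lit 57373) (nat_lit 2) (.e (nat_lit 90160) (nat_lit 11) (.e (nat_lit 24628) (nat_lit 9) .nil)))))) (.g (nat_lit 1) (.e (nat_lit 379330) (nat_lit 0) .nil) .nil))) 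
(.lf (nat_lit 582145) (.g (nat_lit 2798) (.e (nat_lit 344117) (nat_lit 21) (.e (nat_lit 516139) (nat_lit 7) (.e (nat_lit 409646) (nat_lit 18) (.e (nat_lit 303117) (nat_lit 2) (.e (nat_lit 196665) (nat_lit 13) (.e (nat_lit 65618) (nat_lit 10) .nil)))))) (.g (nat_lit 1) (.e (nat_lit 380837) (nat_lit 0) .nil) .nil)))) (.nd (nat_lit 9) 
(.lf (nat_lit 581889) (.g (nat_lit 1230) (.e (nat_lit 344069) (nat_lit 0) (.e (nat_lit 3090) (nat_lit 191) (.e (nat_lit 483372) (nat_lit 21) (.e (nat_lit 319496) (nat_lit 10) .nil)))) (.g (nat_lit 0) (.e (nat_lit 379867) (nat_lit 0) .nil) .nil))) 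
(.lf (nat_lit 582401) (.g (nat_lit 2280) (.e (nat_lit 344120) (nat_lit 21) (.e (nat_lit 516179) (nat_lit 15) (.e (nat_lit 475198) (nat_lit 40) (.e (nat_lit 704589) (nat_lit 3) (.e (nat_lit 163975) (nat_lit 30) .nil))))) (.g (nat_lit 0) (.e (nat_lit 381193) (nat_lit 0) .nil) .nil))))) (.nd (nat_lit 8) (.nd (nat_lit 9) 
(.lf (nat_lit 581761) (.g (nat_lit 3139) (.e (nat_lit 344068) (nat_lit 0) (.e (nat_lit 3090) (nat_lit 191) (.e (nat_lit 483350) (nat_lit 17) (.e (nat_lit 6113) (nat_lit 332) (.e (nat_lit 1374) (nat_lit 104) (.e (nat_lit 303154) (nat_lit 28) .nil)))))) (.g (nat_lit 1) (.e (nat_lit 379652) (nat_lit 0) .nil) .nil))) 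
(.lf (nat_lit 582273) (.g (nat_lit 4661) (.e (nat_lit 344118) (nat_lit 21) (.e (nat_lit 516166) (nat_lit 12) (.e (nat_lit 450587) (nat_lit 10) (.e (nat_lit 573472) (nat_lit 12) .nil)))) (.g (nat_lit 0) (.e (nat_lit 381030) (nat_lit 0) .nil) .nil)))) (.nd (nat_lit 9) 
(.lf (nat_lit 582017) (.g (nat_lit 3464) (.e (nat_lit 344116) (nat_lit 21) (.e (nat_lit 516138) (nat_lit 7) (.e (nat_lit 409645) (nat_lit 18) (.e (nat_lit 303112) (nat_lit 0) (.e (nat_lit 3252) (nat_lit 197) .nil))))) (.g (nat_lit 0) (.e (nat_lit 380660) (nat_lit 0) .nil) .nil))) 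
(.lf (nat_lit 582529) (.g (nat_lit 4111) (.e (nat_lit 344129) (nat_lit 26) (.e (nat_lit 557074) (nat_lit 9) (.e (nat_lit 2739) (nat_lit 174) (.e (nat_lit 253990) (nat_lit 11) (.e (nat_lit 16412) (nat_lit 2) (.e (nat_lit 196666) (nat_lit 13) (.e (nat_lit 65610) (nat_lit 10) .nil))))))) (.g (nat_lit 1) (.e (nat_lit 381438) (nat_lit 0) .nil) .nil)))))) 
(.nd (nat_lit 7) (.nd (nat_lit 8) (.nd (nat_lit 9) 
(.lf (nat_lit 581697) (.g (nat_lit 750) (.e (nat_lit 343808) (nat_lit 35) (.e (nat_lit 491566) (nat_lit 12) (.e (nat_lit 385063) (nat_lit 25) .nil))) (.g (nat_lit 0) (.e (nat_lit 379471) (nat_lit 0) .nil) .nil))) 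
(.lf (nat_lit 582209) (.g (nat_lit 2565) (.e (nat_lit 344117) (nat_lit 21) (.e (nat_lit 516166) (nat_lit 12) (.e (nat_lit 450588) (nat_lit 10) (.e (nat_lit 573475) (nat_lit 12) (.e (nat_lit 57571) (nat_lit 54) .nil))))) (.g (nat_lit 0) (.e (nat_lit 380910) (nat_lit 0) .nil) .nil)))) (.nd (nat_lit 9) 
(.lf (nat_lit 581953) (.g (nat_lit 1212) (.e (nat_lit 352000) (nat_lit 7) (.e (nat_lit 237636) (nat_lit 27) (.e (nat_lit 336194) (nat_lit 12) (.e (nat_lit 385104) (nat_lit 50) (.e (nat_lit 786477) (nat_lit 28) .nil))))) (.g (nat_lit 0) (.e (nat_lit 380198) (nat_lit 0) .nil) .nil))) 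
(.lf (nat_lit 582465) (.g (nat_lit 2695) (.e (nat_lit 344138) (nat_lit 29) (.e (nat_lit 581653) (nat_lit 6) (.e (nat_lit 188439) (nat_lit 20) (.e (nat_lit 3579) (nat_lit 223) (.e (nat_lit 745491) (nat_lit 4) (.e (nat_lit 65611) (nat_lit 10) .nil)))))) (.g (nat_lit 1) (.e (nat_lit 381331) (nat_lit 0) .nil) .nil))))) (.nd (nat_lit 8) (.nd (nat_lit 9) 
(.lf (nat_lit 581825) (.g (nat_lit 2116) (.e (nat_lit 344068) (nat_lit 0) (.e (nat_lit 3090) (nat_lit 191) (.e (nat_lit 483409) (nat_lit 27) (.e (nat_lit 401436) (nat_lit 9) (.e (nat_lit 426533) (nat_lit 28) .nil))))) (.g (nat_lit 1) (.e (nat_lit 379747) (nat_lit 0) .nil) .nil))) 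
(.lf (nat_lit 582337) (.g (nat_lit 2085) (.e (nat_lit 344119) (nat_lit 21) (.e (nat_lit 516139) (nat_lit 7) (.e (nat_lit 409648) (nat_lit 18) (.e (nat_lit 303110) (nat_lit 0) .nil)))) (.g (nat_lit 0) (.e (nat_lit 381113) (nat_lit 0) .nil) .nil)))) (.nd (nat_lit 9) 
(.lf (nat_lit 582081) (.g (nat_lit 4260) (.e (nat_lit 344117) (nat_lit 21) (.e (nat_lit 516123) (nat_lit 2) (.e (nat_lit 213033) (nat_lit 12) (.e (nat_lit 163979) (nat_lit 30) (.e (nat_lit 573474) (nat_lit 12) (.e (nat_lit 57528) (nat_lit 46) (.e (nat_lit 704514) (nat_lit 0) (.e (nat_lit 2685) (nat_lit 168) (.e (nat_lit 204862) (nat_lit 27) .nil))))))))) (.g (nat_lit 1) (.e (nat_lit 380763) (nat_lit 0) .nil) .nil))) 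
(.lf (nat_lit 582593) (.g (nat_lit 3408) (.e (nat_lit 344129) (nat_lit 26) (.e (nat_lit 557103) (nat_lit 14) (.e (nat_lit 180250) (nat_lit 10) (.e (nat_lit 573475) (nat_lit 12) (.e (nat_lit 57507) (nat_lit 39) (.e (nat_lit 647176) (nat_lit 0) (.e (nat_lit 2681) (nat_lit 168) (.e (nat_lit 204863) (nat_lit 27) .nil)))))))) (.g (nat_lit 1) (.e (nat_lit 381511) (nat_lit 0) .nil) .nil))))))) 
(.nd (nat_lit 6) (.nd (nat_lit 7) (.nd (nat_lit 8) (.nd (nat_lit 9) 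
(.lf (nat_lit 581665) (.g (nat_lit 1014) (.e (nat_lit 336456) (nat_lit 34) (.e (nat_lit 483372) (nat_lit 21) (.e (nat_lit 319500) (nat_lit 10) .nil))) (.g (nat_lit 0) (.e (nat_lit 379365) (nat_lit 0) .nil) .nil))) 
(.lf (nat_lit 582177) (.g (nat_lit 2851) (.e (nat_lit 344117) (nat_lit 21) (.e (nat_lit 516141) (nat_lit 8) (.e (nat_lit 417828) (nat_lit 18) (.e (nat_lit 303119) (nat_lit 3) (.e (nat_lit 204855) (nat_lit 26) (.e (nat_lit 336173) (nat_lit 10) .nil)))))) (.g (nat_lit 1) (.e (nat_lit 380869) (nat_lit 0) .nil) .nil)))) (.nd (nat_lit 9) 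
(.lf (nat_lit 581921) (.g (nat_lit 2357) (.e (nat_lit 344069) (nat_lit 0) (.e (nat_lit 3090) (nat_lit 191) (.e (nat_lit 483410) (nat_lit 27) (.e (nat_lit 401435) (nat_lit 9) (.e (nat_lit 426533) (nat_lit 28) .nil))))) (.g (nat_lit 0) (.e (nat_lit 379919) (nat_lit 0) .nil) .nil))) 
(.lf (nat_lit 582433) (.g (nat_lit 1546) (.e (nat_lit 344138) (nat_lit 29) (.e (nat_lit 581653) (nat_lit 6) (.e (nat_lit 188428) (nat_lit 20) (.e (nat_lit 3571) (nat_lit 222) (.e (nat_lit 737300) (nat_lit 7) (.e (nat_lit 286754) (nat_lit 10) .nil)))))) (.g (nat_lit 1) (.e (nat_lit 381298) (nat_lit 0) .nil) .nil))))) (.nd (nat_lit 8) (.nd (nat_lit 9) 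
(.lf (nat_lit 581793) (.g (nat_lit 2143) (.e (nat_lit 344068) (nat_lit 0) (.e (nat_lit 3090) (nat_lit 191) (.e (nat_lit 483372) (nat_lit 21) (.e (nat_lit 319504) (nat_lit 10) (.e (nat_lit 5734) (nat_lit 312) (.e (nat_lit 7936) (nat_lit 22) .nil)))))) (.g (nat_lit 1) (.e (nat_lit 379686) (nat_lit 0) .nil) .nil))) 
(.lf (nat_lit 582305) (.g (nat_lit 2113) (.e (nat_lit 344119) (nat_lit 21) (.e (nat_lit 516139) (nat_lit 7) (.e (nat_lit 409643) (nat_lit 18) (.e (nat_lit 303117) (nat_lit 2) (.e (nat_lit 196665) (nat_lit 13) .nil))))) (.g (nat_lit 0) (.e (nat_lit 381079) (nat_lit 0) .nil) .nil)))) (.nd (nat_lit 9) 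
(.lf (nat_lit 582049) (.g (nat_lit 2788) (.e (nat_lit 344117) (nat_lit 21) (.e (nat_lit 516106) (nat_lit 0) (.e (nat_lit 6998) (nat_lit 377) (.e (nat_lit 2797) (nat_lit 180) (.e (nat_lit 303117) (nat_lit 2) (.e (nat_lit 196664) (nat_lit 13) (.e (nat_lit 65619) (nat_lit 10) .nil))))))) (.g (nat_lit 1) (.e (nat_lit 380702) (nat_lit 0) .nil) .nil))) 
(.lf (nat_lit 582561) (.g (nat_lit 5011) (.e (nat_lit 344129) (nat_lit 26) (.e (nat_lit 557087) (nat_lit 11) (.e (nat_lit 24665) (nat_lit 14) (.e (nat_lit 401423) (nat_lit 2) (.e (nat_lit 196666) (nat_lit 13) (.e (nat_lit 65610) (nat_lit 10) .nil)))))) (.g (nat_lit 1) (.e (nat_lit 381474) (nat_lit 0) .nil) .nil)))))) (.nd (nat_lit 7) (.nd (nat_lit 8) (.nd (nat_lit 9) 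
(.lf (nat_lit 581729) (.g (nat_lit 2296) (.e (nat_lit 344068) (nat_lit 0) (.e (nat_lit 2856) (nat_lit 184) (.e (nat_lit 426530) (nat_lit 27) (.e (nat_lit 335872) (nat_lit 0) (.e (nat_lit 6719) (nat_lit 361) (.e (nat_lit 179968) (nat_lit 28) .nil)))))) (.g (nat_lit 1) (.e (nat_lit 379562) (nat_lit 0) .nil) .nil))) 
(.lf (nat_lit 582241) (.g (nat_lit 679) (.e (nat_lit 344118) (nat_lit 21) (.e (nat_lit 516119) (nat_lit 1) (.e (nat_lit 164176) (nat_lit 154) .nil))) (.g (nat_lit 0) (.e (nat_lit 380973) (nat_lit 0) .nil) .nil)))) (.nd (nat_lit 9) 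
(.lf (nat_lit 581985) (.g (nat_lit 733) (.e (nat_lit 344100) (nat_lit 18) (.e (nat_lit 5195) (nat_lit 294) (.e (nat_lit 57375) (nat_lit 2) (.e (nat_lit 90157) (nat_lit 11) .nil)))) (.g (nat_lit 0) (.e (nat_lit 380521) (nat_lit 0) .nil) .nil))) 
(.lf (nat_lit 582497) (.g (nat_lit 3412) (.e (nat_lit 344127) (nat_lit 26) (.e (nat_lit 557090) (nat_lit 12) (.e (nat_lit 164020) (nat_lit 45) (.e (nat_lit 696330) (nat_lit 5) (.e (nat_lit 2842) (nat_lit 184) (.e (nat_lit 426125) (nat_lit 2) (.e (nat_lit 196666) (nat_lit 13) (.e (nat_lit 65617) (nat_lit 10) .nil)))))))) (.g (nat_lit 1) (.e (nat_lit 381375) (nat_lit 0) .nil) .nil))))) 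
(.nd (nat_lit 8) (.nd (nat_lit 9) 
(.lf (nat_lit 581857) (.g (nat_lit 2039) (.e (nat_lit 344069) (nat_lit 0) (.e (nat_lit 3090) (nat_lit 191) (.e (nat_lit 483344) (nat_lit 17) (.e (nat_lit 6720) (nat_lit 361) (.e (nat_lit 179968) (nat_lit 28) .nil))))) (.g (nat_lit 1) (.e (nat_lit 379833) (nat_lit 0) .nil) .nil))) 
(.lf (nat_lit 582369) (.g (nat_lit 2538) (.e (nat_lit 344119) (nat_lit 21) (.e (nat_lit 516165) (nat_lit 12) (.e (nat_lit 450586) (nat_lit 10) (.e (nat_lit 573475) (nat_lit 12) (.e (nat_lit 57574) (nat_lit 55) .nil))))) (.g (nat_lit 0) (.e (nat_lit 381150) (nat_lit 0) .nil) .nil)))) (.nd (nat_lit 9) 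
(.lf (nat_lit 582113) (.g (nat_lit 4967) (.e (nat_lit 344117) (nat_lit 21) (.e (nat_lit 516139) (nat_lit 7) (.e (nat_lit 409618) (nat_lit 10) (.e (nat_lit 5667) (nat_lit 312) (.e (nat_lit 2661) (nat_lit 167) (.e (nat_lit 196666) (nat_lit 13) (.e (nat_lit 65610) (nat_lit 10) .nil))))))) (.g (nat_lit 1) (.e (nat_lit 380803) (nat_lit 0) .nil) .nil))) 
(.lf (nat_lit 582625) (.g (nat_lit 2728) (.e (nat_lit 344130) (nat_lit 26) (.e (nat_lit 557103) (nat_lit 14) (.e (nat_lit 180250) (nat_lit 10) (.e (nat_lit 573473) (nat_lit 12) (.e (nat_lit 57508) (nat_lit 39) (.e (nat_lit 647168) (nat_lit 0) (.e (nat_lit 2685) (nat_lit 168) (.e (nat_lit 204864) (nat_lit 27) .nil)))))))) (.g (nat_lit 1) (.e (nat_lit 381574) (nat_lit 0) .nil) .nil)))))))) 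
(.nd (nat_lit 5) (.nd (nat_lit 6) (.nd (nat_lit 7) (.nd (nat_lit 8) (.nd (nat_lit 9) 
(.lf (nat_lit 581649) (.g (nat_lit 2217) (.e (nat_lit 336456) (nat_lit 34) (.e (nat_lit 483365) (nat_lit 18) (.e (nat_lit 57847) (nat_lit 252) (.e (nat_lit 57371) (nat_lit 2) (.e (nat_lit 90158) (nat_lit 11) .nil))))) (.g (nat_lit 0) (.e (nat_lit 379348) (nat_lit 0) .nil) .nil))) 
(.lf (nat_lit 582161) (.g (nat_lit 4814) (.e (nat_lit 344117) (nat_lit 21) (.e (nat_lit 516139) (nat_lit 7) (.e (nat_lit 409647) (nat_lit 18) (.e (nat_lit 303118) (nat_lit 3) (.e (nat_lit 204855) (nat_lit 26) (.e (nat_lit 336178) (nat_lit 10) .nil)))))) (.g (nat_lit 1) (.e (nat_lit 380853) (nat_lit 0) .nil) .nil)))) (.nd (nat_lit 9) 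
(.lf (nat_lit 581905) (.g (nat_lit 1995) (.e (nat_lit 344069) (nat_lit 0) (.e (nat_lit 3090) (nat_lit 191) (.e (nat_lit 483372) (nat_lit 21) (.e (nat_lit 319505) (nat_lit 10) (.e (nat_lit 7936) (nat_lit 312) (.e (nat_lit 296) (nat_lit 22) .nil)))))) (.g (nat_lit 1) (.e (nat_lit 379885) (nat_lit 0) .nil) .nil))) 
(.lf (nat_lit 582417) (.g (nat_lit 1236) (.e (nat_lit 344138) (nat_lit 29) (.e (nat_lit 581651) (nat_lit 4) (.e (nat_lit 172106) (nat_lit 10) (.e (nat_lit 434295) (nat_lit 49) (.e (nat_lit 745489) (nat_lit 4) .nil))))) (.g (nat_lit 0) (.e (nat_lit 381275) (nat_lit 0) .nil) .nil))))) (.nd (nat_lit 8) (.nd (nat_lit 9) 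
(.lf (nat_lit 581777) (.g (nat_lit 3419) (.e (nat_lit 344068) (nat_lit 0) (.e (nat_lit 3090) (nat_lit 191) (.e (nat_lit 483350) (nat_lit 17) (.e (nat_lit 6677) (nat_lit 357) (.e (nat_lit 2856) (nat_lit 184) (.e (nat_lit 426533) (nat_lit 28) .nil)))))) (.g (nat_lit 1) (.e (nat_lit 379669) (nat_lit 0) .nil) .nil))) 
(.lf (nat_lit 582289) (.g (nat_lit 1756) (.e (nat_lit 344118) (nat_lit 21) (.e (nat_lit 516182) (nat_lit 15) (.e (nat_lit 475199) (nat_lit 40) (.e (nat_lit 704589) (nat_lit 3) (.e (nat_lit 163976) (nat_lit 30) (.e (nat_lit 573481) (nat_lit 13) (.e (nat_lit 65613) (nat_lit 10) .nil))))))) (.g (nat_lit 1) (.e (nat_lit 381046) (nat_lit 0) .nil) .nil)))) (.nd (nat_lit 9) 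
(.lf (nat_lit 582033) (.g (nat_lit 2471) (.e (nat_lit 344116) (nat_lit 21) (.e (nat_lit 516179) (nat_lit 15) (.e (nat_lit 475199) (nat_lit 40) (.e (nat_lit 704589) (nat_lit 3) (.e (nat_lit 163975) (nat_lit 30) .nil))))) (.g (nat_lit 0) (.e (nat_lit 380678) (nat_lit 0) .nil) .nil))) 
(.lf (nat_lit 582545) (.g (nat_lit 3089) (.e (nat_lit 344129) (nat_lit 26) (.e (nat_lit 557087) (nat_lit 11) (.e (nat_lit 24625) (nat_lit 9) (.e (nat_lit 336303) (nat_lit 15) .nil)))) (.g (nat_lit 0) (.e (nat_lit 381458) (nat_lit 0) .nil) .nil)))))) (.nd (nat_lit 7) (.nd (nat_lit 8) (.nd (nat_lit 9) 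
(.lf (nat_lit 581713) (.g (nat_lit 945) (.e (nat_lit 344067) (nat_lit 0) (.e (nat_lit 2936) (nat_lit 184) (.e (nat_lit 426532) (nat_lit 28) (.e (nat_lit 344069) (nat_lit 0) (.e (nat_lit 2854) (nat_lit 184) (.e (nat_lit 426533) (nat_lit 28) .nil)))))) (.g (nat_lit 1) (.e (nat_lit 379512) (nat_lit 0) .nil) .nil))) 
(.lf (nat_lit 582225) (.g (nat_lit 1444) (.e (nat_lit 344117) (nat_lit 21) (.e (nat_lit 516195) (nat_lit 26) (.e (nat_lit 335995) (nat_lit 1) (.e (nat_lit 57930) (nat_lit 282) .nil)))) (.g (nat_lit 0) (.e (nat_lit 380937) (nat_lit 0) .nil) .nil)))) (.nd (nat_lit 9) 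
(.lf (nat_lit 581969) (.g (nat_lit 2429) (.e (nat_lit 344096) (nat_lit 18) (.e (nat_lit 4539) (nat_lit 267) (.e (nat_lit 163871) (nat_lit 2) (.e (nat_lit 196656) (nat_lit 11) (.e (nat_lit 16425) (nat_lit 7) (.e (nat_lit 409617) (nat_lit 10) (.e (nat_lit 934) (nat_lit 76) (.e (nat_lit 786475) (nat_lit 28) .nil)))))))) (.g (nat_lit 1) (.e (nat_lit 380421) (nat_lit 0) .nil) .nil))) 
(.lf (nat_lit 582481) (.g (nat_lit 2737) (.e (nat_lit 344138) (nat_lit 29) (.e (nat_lit 581653) (nat_lit 6) (.e (nat_lit 188441) (nat_lit 20) (.e (nat_lit 3579) (nat_lit 223) (.e (nat_lit 745491) (nat_lit 4) (.e (nat_lit 65617) (nat_lit 10) .nil)))))) (.g (nat_lit 1) (.e (nat_lit 381347) (nat_lit 0) .nil) .nil))))) (.nd (nat_lit 8) (.nd (nat_lit 9) 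
(.lf (nat_lit 581841) (.g (nat_lit 1923) (.e (nat_lit 344069) (nat_lit 0) (.e (nat_lit 2857) (nat_lit 184) (.e (nat_lit 426530) (nat_lit 27) (.e (nat_lit 335872) (nat_lit 0) (.e (nat_lit 6719) (nat_lit 361) (.e (nat_lit 179968) (nat_lit 28) .nil)))))) (.g (nat_lit 1) (.e (nat_lit 379789) (nat_lit 0) .nil) .nil))) 
(.lf (nat_lit 582353) (.g (nat_lit 2614) (.e (nat_lit 344119) (nat_lit 21) (.e (nat_lit 516139) (nat_lit 7) (.e (nat_lit 409649) (nat_lit 18) (.e (nat_lit 303117) (nat_lit 2) (.e (nat_lit 196665) (nat_lit 13) (.e (nat_lit 65613) (nat_lit 10) .nil)))))) (.g (nat_lit 1) (.e (nat_lit 381130) (nat_lit 0) .nil) .nil)))) (.nd (nat_lit 9) 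
(.lf (nat_lit 582097) (.g (nat_lit 4621) (.e (nat_lit 344117) (nat_lit 21) (.e (nat_lit 516138) (nat_lit 7) (.e (nat_lit 409645) (nat_lit 18) (.e (nat_lit 303116) (nat_lit 2) (.e (nat_lit 196666) (nat_lit 13) (.e (nat_lit 65610) (nat_lit 10) .nil)))))) (.g (nat_lit 1) (.e (nat_lit 380783) (nat_lit 0) .nil) .nil))) 
(.lf (nat_lit 582609) (.g (nat_lit 3002) (.e (nat_lit 344130) (nat_lit 26) (.e (nat_lit 557087) (nat_lit 11) (.e (nat_lit 24625) (nat_lit 9) (.e (nat_lit 336238) (nat_lit 15) .nil)))) (.g (nat_lit 0) (.e (nat_lit 381533) (nat_lit 0) .nil) .nil))))))) (.nd (nat_lit 6) (.nd (nat_lit 7) (.nd (nat_lit 8) (.nd (nat_lit 9) 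
(.lf (nat_lit 581681) (.g (nat_lit 2489) (.e (nat_lit 336456) (nat_lit 34) (.e (nat_lit 483394) (nat_lit 24) (.e (nat_lit 344117) (nat_lit 21) (.e (nat_lit 516116) (nat_lit 1) (.e (nat_lit 164180) (nat_lit 154) .nil))))) (.g (nat_lit 0) (.e (nat_lit 379393) (nat_lit 0) .nil) .nil))) 
(.lf (nat_lit 582193) (.g (nat_lit 7440) (.e (nat_lit 344117) (nat_lit 21) (.e (nat_lit 516151) (nat_lit 9) (.e (nat_lit 426412) (nat_lit 15) (.e (nat_lit 2059) (nat_lit 142) (.e (nat_lit 704589) (nat_lit 3) (.e (nat_lit 163979) (nat_lit 30) (.e (nat_lit 573484) (nat_lit 13) (.e (nat_lit 65610) (nat_lit 10) .nil)))))))) (.g (nat_lit 1) (.e (nat_lit 380889) (nat_lit 0) .nil) .nil)))) 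
(.nd (nat_lit 9) 
(.lf (nat_lit 581937) (.g (nat_lit 1627) (.e (nat_lit 352000) (nat_lit 3) (.e (nat_lit 163977) (nat_lit 30) (.e (nat_lit 573489) (nat_lit 14) (.e (nat_lit 73768) (nat_lit 19) (.e (nat_lit 647177) (nat_lit 0) .nil))))) (.g (nat_lit 0) (.e (nat_lit 380088) (nat_lit 0) .nil) .nil))) 
(.lf (nat_lit 582449) (.g (nat_lit 3069) (.e (nat_lit 344138) (nat_lit 29) (.e (nat_lit 581653) (nat_lit 6) (.e (nat_lit 188434) (nat_lit 20) (.e (nat_lit 3579) (nat_lit 223) (.e (nat_lit 745491) (nat_lit 4) (.e (nat_lit 65619) (nat_lit 10) .nil)))))) (.g (nat_lit 1) (.e (nat_lit 381315) (nat_lit 0) .nil) .nil))))) (.nd (nat_lit 8) (.nd (nat_lit 9) 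
(.lf (nat_lit 581809) (.g (nat_lit 1247) (.e (nat_lit 344068) (nat_lit 0) (.e (nat_lit 3090) (nat_lit 191) (.e (nat_lit 483372) (nat_lit 21) (.e (nat_lit 319510) (nat_lit 10) .nil)))) (.g (nat_lit 0) (.e (nat_lit 379709) (nat_lit 0) .nil) .nil))) 
(.lf (nat_lit 582321) (.g (nat_lit 2722) (.e (nat_lit 344119) (nat_lit 21) (.e (nat_lit 516139) (nat_lit 7) (.e (nat_lit 409645) (nat_lit 18) (.e (nat_lit 303119) (nat_lit 3) (.e (nat_lit 204855) (nat_lit 26) .nil))))) (.g (nat_lit 0) (.e (nat_lit 381095) (nat_lit 0) .nil) .nil)))) (.nd (nat_lit 9) 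
(.lf (nat_lit 582065) (.g (nat_lit 2535) (.e (nat_lit 344117) (nat_lit 21) (.e (nat_lit 516115) (nat_lit 1) (.e (nat_lit 164182) (nat_lit 154) (.e (nat_lit 57379) (nat_lit 3) (.e (nat_lit 98319) (nat_lit 17) .nil))))) (.g (nat_lit 0) (.e (nat_lit 380742) (nat_lit 0) .nil) .nil))) 
(.lf (nat_lit 582577) (.g (nat_lit 3285) (.e (nat_lit 344129) (nat_lit 26) (.e (nat_lit 557097) (nat_lit 13) (.e (nat_lit 172133) (nat_lit 15) (.e (nat_lit 1800) (nat_lit 119) (.e (nat_lit 516119) (nat_lit 1) (.e (nat_lit 164345) (nat_lit 240) (.e (nat_lit 2600) (nat_lit 163) (.e (nat_lit 163962) (nat_lit 25) (.e (nat_lit 532544) (nat_lit 10) .nil))))))))) (.g (nat_lit 1) (.e (nat_lit 381495) (nat_lit 0) .nil) .nil)))))) 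
(.nd (nat_lit 7) (.nd (nat_lit 8) (.nd (nat_lit 9) 
(.lf (nat_lit 581745) (.g (nat_lit 1214) (.e (nat_lit 344068) (nat_lit 0) (.e (nat_lit 3089) (nat_lit 191) (.e (nat_lit 483372) (nat_lit 21) (.e (nat_lit 327424) (nat_lit 18) .nil)))) (.g (nat_lit 0) (.e (nat_lit 379632) (nat_lit 0) .nil) .nil))) 
(.lf (nat_lit 582257) (.g (nat_lit 2310) (.e (nat_lit 344118) (nat_lit 21) (.e (nat_lit 516120) (nat_lit 1) (.e (nat_lit 164183) (nat_lit 154) (.e (nat_lit 57378) (nat_lit 3) (.e (nat_lit 98321) (nat_lit 17) (.e (nat_lit 3771) (nat_lit 229) (.e (nat_lit 794673) (nat_lit 23) (.e (nat_lit 204862) (nat_lit 27) .nil)))))))) (.g (nat_lit 1) (.e (nat_lit 381009) (nat_lit 0) .nil) .nil)))) 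
(.nd (nat_lit 9) 
(.lf (nat_lit 582001) (.g (nat_lit 2802) (.e (nat_lit 344100) (nat_lit 18) (.e (nat_lit 7270) (nat_lit 385) (.e (nat_lit 122919) (nat_lit 15) (.e (nat_lit 360489) (nat_lit 21) (.e (nat_lit 770072) (nat_lit 8) .nil))))) (.g (nat_lit 0) (.e (nat_lit 380544) (nat_lit 0) .nil) .nil))) 
(.lf (nat_lit 582513) (.g (nat_lit 4099) (.e (nat_lit 344129) (nat_lit 26) (.e (nat_lit 557065) (nat_lit 9) (.e (nat_lit 3098) (nat_lit 192) (.e (nat_lit 491571) (nat_lit 13) (.e (nat_lit 393251) (nat_lit 18) (.e (nat_lit 164183) (nat_lit 154) (.e (nat_lit 57420) (nat_lit 13) .nil))))))) (.g (nat_lit 1) (.e (nat_lit 381399) (nat_lit 0) .nil) .nil))))) (.nd (nat_lit 8) (.nd (nat_lit 9) 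
(.lf (nat_lit 581873) (.g (nat_lit 1658) (.e (nat_lit 344069) (nat_lit 0) (.e (nat_lit 3090) (nat_lit 191) (.e (nat_lit 483350) (nat_lit 17) (.e (nat_lit 6210) (nat_lit 333) .nil)))) (.g (nat_lit 0) (.e (nat_lit 379850) (nat_lit 0) .nil) .nil))) 
(.lf (nat_lit 582385) (.g (nat_lit 800) (.e (nat_lit 344120) (nat_lit 21) (.e (nat_lit 516120) (nat_lit 1) (.e (nat_lit 164183) (nat_lit 154) .nil))) (.g (nat_lit 0) (.e (nat_lit 381172) (nat_lit 0) .nil) .nil)))) (.nd (nat_lit 9) 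
(.lf (nat_lit 582129) (.g (nat_lit 5430) (.e (nat_lit 344117) (nat_lit 21) (.e (nat_lit 516139) (nat_lit 7) (.e (nat_lit 409645) (nat_lit 18) (.e (nat_lit 303117) (nat_lit 2) (.e (nat_lit 196666) (nat_lit 13) (.e (nat_lit 65617) (nat_lit 10) .nil)))))) (.g (nat_lit 1) (.e (nat_lit 380821) (nat_lit 0) .nil) .nil))) 
(.lf (nat_lit 582641) (.g (nat_lit 2742) (.e (nat_lit 344130) (nat_lit 26) (.e (nat_lit 557103) (nat_lit 14) (.e (nat_lit 180250) (nat_lit 10) (.e (nat_lit 573475) (nat_lit 12) (.e (nat_lit 57507) (nat_lit 39) (.e (nat_lit 647170) (nat_lit 0) (.e (nat_lit 2685) (nat_lit 168) (.e (nat_lit 204864) (nat_lit 27) .nil)))))))) (.g (nat_lit 1) (.e (nat_lit 381590) (nat_lit 0) .nil) .nil))))))))) 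
(.nd (nat_lit 4) (.nd (nat_lit 5) (.nd (nat_lit 6) (.nd (nat_lit 7) (.nd (nat_lit 8) 
(.nd (nat_lit 9) 
(.lf (nat_lit 581641) (.g (nat_lit 1978) (.e (nat_lit 336456) (nat_lit 34) (.e (nat_lit 483364) (nat_lit 18) (.e (nat_lit 57929) (nat_lit 282) (.e (nat_lit 163869) (nat_lit 2) (.e (nat_lit 196681) (nat_lit 17) (.e (nat_lit 131105) (nat_lit 9) .nil)))))) (.g (nat_lit 1) (.e (nat_lit 379340) (nat_lit 0) .nil) .nil))) 
(.lf (nat_lit 582153) (.g (nat_lit 2860) (.e (nat_lit 344117) (nat_lit 21) (.e (nat_lit 516139) (nat_lit 7) (.e (nat_lit 409646) (nat_lit 18) (.e (nat_lit 303119) (nat_lit 3) (.e (nat_lit 204855) (nat_lit 26) (.e (nat_lit 336177) (nat_lit 10) .nil)))))) (.g (nat_lit 1) (.e (nat_lit 380845) (nat_lit 0) .nil) .nil)))) (.nd (nat_lit 9) 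
(.lf (nat_lit 581897) (.g (nat_lit 1774) (.e (nat_lit 344069) (nat_lit 0) (.e (nat_lit 3090) (nat_lit 191) (.e (nat_lit 483372) (nat_lit 21) (.e (nat_lit 319504) (nat_lit 10) (.e (nat_lit 7936) (nat_lit 312) (.e (nat_lit 7936) (nat_lit 22) .nil)))))) (.g (nat_lit 1) (.e (nat_lit 379877) (nat_lit 0) .nil) .nil))) 
(.lf (nat_lit 582409) (.g (nat_lit 3557) (.e (nat_lit 344121) (nat_lit 22) (.e (nat_lit 524322) (nat_lit 12) (.e (nat_lit 450588) (nat_lit 10) (.e (nat_lit 573475) (nat_lit 12) (.e (nat_lit 57354) (nat_lit 0) .nil))))) (.g (nat_lit 0) (.e (nat_lit 381203) (nat_lit 0) .nil) .nil))))) (.nd (nat_lit 8) (.nd (nat_lit 9) 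
(.lf (nat_lit 581769) (.g (nat_lit 1159) (.e (nat_lit 344068) (nat_lit 0) (.e (nat_lit 3090) (nat_lit 191) (.e (nat_lit 483350) (nat_lit 17) (.e (nat_lit 6212) (nat_lit 333) .nil)))) (.g (nat_lit 0) (.e (nat_lit 379661) (nat_lit 0) .nil) .nil))) 
(.lf (nat_lit 582281) (.g (nat_lit 2200) (.e (nat_lit 344118) (nat_lit 21) (.e (nat_lit 516179) (nat_lit 15) (.e (nat_lit 475198) (nat_lit 40) (.e (nat_lit 704589) (nat_lit 3) (.e (nat_lit 163975) (nat_lit 30) .nil))))) (.g (nat_lit 0) (.e (nat_lit 381038) (nat_lit 0) .nil) .nil)))) (.nd (nat_lit 9) 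
(.lf (nat_lit 582025) (.g (nat_lit 2818) (.e (nat_lit 344116) (nat_lit 21) (.e (nat_lit 516139) (nat_lit 7) (.e (nat_lit 409648) (nat_lit 18) (.e (nat_lit 303118) (nat_lit 3) (.e (nat_lit 204855) (nat_lit 26) (.e (nat_lit 336173) (nat_lit 10) .nil)))))) (.g (nat_lit 1) (.e (nat_lit 380670) (nat_lit 0) .nil) .nil))) 
(.lf (nat_lit 582537) (.g (nat_lit 4194) (.e (nat_lit 344129) (nat_lit 26) (.e (nat_lit 557087) (nat_lit 11) (.e (nat_lit 24584) (nat_lit 0) (.e (nat_lit 6651) (nat_lit 357) (.e (nat_lit 2663) (nat_lit 167) (.e (nat_lit 196666) (nat_lit 13) (.e (nat_lit 65610) (nat_lit 10) .nil))))))) (.g (nat_lit 1) (.e (nat_lit 381450) (nat_lit 0) .nil) .nil)))))) 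
(.nd (nat_lit 7) (.nd (nat_lit 8) (.nd (nat_lit 9) 
(.lf (nat_lit 581705) (.g (nat_lit 2142) (.e (nat_lit 344066) (nat_lit 0) (.e (nat_lit 2939) (nat_lit 184) (.e (nat_lit 426532) (nat_lit 28) (.e (nat_lit 344069) (nat_lit 0) (.e (nat_lit 2857) (nat_lit 184) (.e (nat_lit 426533) (nat_lit 28) .nil)))))) (.g (nat_lit 1) (.e (nat_lit 379492) (nat_lit 0) .nil) .nil))) 
(.lf (nat_lit 582217) (.g (nat_lit 3893) (.e (nat_lit 344117) (nat_lit 21) (.e (nat_lit 516185) (nat_lit 16) (.e (nat_lit 491553) (nat_lit 9) (.e (nat_lit 336295) (nat_lit 15) (.e (nat_lit 3305) (nat_lit 202) (.e (nat_lit 573484) (nat_lit 13) (.e (nat_lit 65610) (nat_lit 10) .nil))))))) (.g (nat_lit 1) (.e (nat_lit 380919) (nat_lit 0) .nil) .nil)))) (.nd (nat_lit 9) 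
(.lf (nat_lit 581961) (.g (nat_lit 1227) (.e (nat_lit 344090) (nat_lit 18) (.e (nat_lit 7265) (nat_lit 384) (.e (nat_lit 57424) (nat_lit 14) (.e (nat_lit 352302) (nat_lit 20) .nil)))) (.g (nat_lit 0) (.e (nat_lit 380341) (nat_lit 0) .nil) .nil))) 
(.lf (nat_lit 582473) (.g (nat_lit 2613) (.e (nat_lit 344138) (nat_lit 29) (.e (nat_lit 581653) (nat_lit 6) (.e (nat_lit 188440) (nat_lit 20) (.e (nat_lit 3579) (nat_lit 223) (.e (nat_lit 745491) (nat_lit 4) (.e (nat_lit 65616) (nat_lit 10) .nil)))))) (.g (nat_lit 1) (.e (nat_lit 381339) (nat_lit 0) .nil) .nil))))) (.nd (nat_lit 8) (.nd (nat_lit 9) 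
(.lf (nat_lit 581833) (.g (nat_lit 920) (.e (nat_lit 344069) (nat_lit 0) (.e (nat_lit 2682) (nat_lit 168) (.e (nat_lit 204869) (nat_lit 29) (.e (nat_lit 360472) (nat_lit 8) .nil)))) (.g (nat_lit 0) (.e (nat_lit 379770) (nat_lit 0) .nil) .nil))) 
(.lf (nat_lit 582345) (.g (nat_lit 2979) (.e (nat_lit 344119) (nat_lit 21) (.e (nat_lit 516139) (nat_lit 7) (.e (nat_lit 409648) (nat_lit 18) (.e (nat_lit 303118) (nat_lit 3) (.e (nat_lit 204855) (nat_lit 26) (.e (nat_lit 336178) (nat_lit 10) .nil)))))) (.g (nat_lit 1) (.e (nat_lit 381122) (nat_lit 0) .nil) .nil)))) (.nd (nat_lit 9) 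
(.lf (nat_lit 582089) (.g (nat_lit 3419) (.e (nat_lit 344117) (nat_lit 21) (.e (nat_lit 516129) (nat_lit 3) (.e (nat_lit 221214) (nat_lit 23) (.e (nat_lit 204830) (nat_lit 18) (.e (nat_lit 57924) (nat_lit 282) (.e (nat_lit 163875) (nat_lit 3) (.e (nat_lit 204862) (nat_lit 27) .nil))))))) (.g (nat_lit 1) (.e (nat_lit 380771) (nat_lit 0) .nil) .nil))) 
(.lf (nat_lit 582601) (.g (nat_lit 3478) (.e (nat_lit 344129) (nat_lit 26) (.e (nat_lit 557104) (nat_lit 14) (.e (nat_lit 180252) (nat_lit 10) (.e (nat_lit 573475) (nat_lit 12) (.e (nat_lit 57506) (nat_lit 39) (.e (nat_lit 655104) (nat_lit 0) (.e (nat_lit 2684) (nat_lit 168) (.e (nat_lit 204863) (nat_lit 27) .nil)))))))) (.g (nat_lit 1) (.e (nat_lit 381519) (nat_lit 0) .nil) .nil))))))) 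
(.nd (nat_lit 6) (.nd (nat_lit 7) (.nd (nat_lit 8) (.nd (nat_lit 9) 
(.lf (nat_lit 581673) (.g (nat_lit 1654) (.e (nat_lit 336456) (nat_lit 34) (.e (nat_lit 483383) (nat_lit 23) (.e (nat_lit 336019) (nat_lit 3) (.e (nat_lit 98333) (nat_lit 18) (.e (nat_lit 164177) (nat_lit 154) .nil))))) (.g (nat_lit 0) (.e (nat_lit 379373) (nat_lit 0) .nil) .nil))) 
(.lf (nat_lit 582185) (.g (nat_lit 468) (.e (nat_lit 344117) (nat_lit 21) (.e (nat_lit 516151) (nat_lit 9) (.e (nat_lit 426104) (nat_lit 1) .nil))) (.g (nat_lit 0) (.e (nat_lit 380879) (nat_lit 0) .nil) .nil)))) (.nd (nat_lit 9) 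
(.lf (nat_lit 581929) (.g (nat_lit 2036) (.e (nat_lit 352000) (nat_lit 0) (.e (nat_lit 2668) (nat_lit 167) (.e (nat_lit 196668) (nat_lit 14) (.e (nat_lit 73782) (nat_lit 32) (.e (nat_lit 2682) (nat_lit 168) .nil))))) (.g (nat_lit 0) (.e (nat_lit 379938) (nat_lit 0) .nil) .nil))) 
(.lf (nat_lit 582441) (.g (nat_lit 2731) (.e (nat_lit 344138) (nat_lit 29) (.e (nat_lit 581653) (nat_lit 6) (.e (nat_lit 188431) (nat_lit 20) (.e (nat_lit 3572) (nat_lit 222) (.e (nat_lit 737300) (nat_lit 7) (.e (nat_lit 286756) (nat_lit 10) .nil)))))) (.g (nat_lit 1) (.e (nat_lit 381307) (nat_lit 0) .nil) .nil))))) (.nd (nat_lit 8) (.nd (nat_lit 9) 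
(.lf (nat_lit 581801) (.g (nat_lit 2625) (.e (nat_lit 344068) (nat_lit 0) (.e (nat_lit 3090) (nat_lit 191) (.e (nat_lit 483372) (nat_lit 21) (.e (nat_lit 319505) (nat_lit 10) (.e (nat_lit 5714) (nat_lit 312) (.e (nat_lit 7936) (nat_lit 22) .nil)))))) (.g (nat_lit 1) (.e (nat_lit 379698) (nat_lit 0) .nil) .nil))) 
(.lf (nat_lit 582313) (.g (nat_lit 2787) (.e (nat_lit 344119) (nat_lit 21) (.e (nat_lit 516139) (nat_lit 7) (.e (nat_lit 409645) (nat_lit 18) (.e (nat_lit 303112) (nat_lit 0) (.e (nat_lit 3252) (nat_lit 197) (.e (nat_lit 532530) (nat_lit 9) (.e (nat_lit 336160) (nat_lit 10) .nil))))))) (.g (nat_lit 1) (.e (nat_lit 381087) (nat_lit 0) .nil) .nil)))) (.nd (nat_lit 9) 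
(.lf (nat_lit 582057) (.g (nat_lit 3070) (.e (nat_lit 344117) (nat_lit 21) (.e (nat_lit 516115) (nat_lit 1) (.e (nat_lit 164179) (nat_lit 154) (.e (nat_lit 57373) (nat_lit 2) (.e (nat_lit 90181) (nat_lit 16) (.e (nat_lit 229472) (nat_lit 57) (.e (nat_lit 794673) (nat_lit 23) (.e (nat_lit 204862) (nat_lit 27) .nil)))))))) (.g (nat_lit 1) (.e (nat_lit 380729) (nat_lit 0) .nil) .nil))) 
(.lf (nat_lit 582569) (.g (nat_lit 2940) (.e (nat_lit 344129) (nat_lit 26) (.e (nat_lit 557090) (nat_lit 12) (.e (nat_lit 163850) (nat_lit 0) (.e (nat_lit 6425) (nat_lit 342) (.e (nat_lit 237312) (nat_lit 12) .nil))))) (.g (nat_lit 0) (.e (nat_lit 381485) (nat_lit 0) .nil) .nil)))))) (.nd (nat_lit 7) (.nd (nat_lit 8) (.nd (nat_lit 9) 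
(.lf (nat_lit 581737) (.g (nat_lit 2341) (.e (nat_lit 344068) (nat_lit 0) (.e (nat_lit 2857) (nat_lit 184) (.e (nat_lit 426509) (nat_lit 27) (.e (nat_lit 336228) (nat_lit 14) (.e (nat_lit 401438) (nat_lit 9) (.e (nat_lit 426533) (nat_lit 28) .nil)))))) (.g (nat_lit 1) (.e (nat_lit 379579) (nat_lit 0) .nil) .nil))) 
(.lf (nat_lit 582249) (.g (nat_lit 598) (.e (nat_lit 344118) (nat_lit 21) (.e (nat_lit 516120) (nat_lit 1) (.e (nat_lit 164182) (nat_lit 154) .nil))) (.g (nat_lit 0) (.e (nat_lit 380989) (nat_lit 0) .nil) .nil)))) (.nd (nat_lit 9) 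
(.lf (nat_lit 581993) (.g (nat_lit 619) (.e (nat_lit 344100) (nat_lit 18) (.e (nat_lit 5907) (nat_lit 320) (.e (nat_lit 1210) (nat_lit 89) .nil))) (.g (nat_lit 0) (.e (nat_lit 380529) (nat_lit 0) .nil) .nil))) 
(.lf (nat_lit 582505) (.g (nat_lit 2557) (.e (nat_lit 344127) (nat_lit 26) (.e (nat_lit 557104) (nat_lit 14) (.e (nat_lit 180252) (nat_lit 10) (.e (nat_lit 573473) (nat_lit 12) (.e (nat_lit 57511) (nat_lit 39) .nil))))) (.g (nat_lit 0) (.e (nat_lit 381385) (nat_lit 0) .nil) .nil))))) (.nd (nat_lit 8) (.nd (nat_lit 9) 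
(.lf (nat_lit 581865) (.g (nat_lit 3102) (.e (nat_lit 344069) (nat_lit 0) (.e (nat_lit 3090) (nat_lit 191) (.e (nat_lit 483350) (nat_lit 17) (.e (nat_lit 6113) (nat_lit 332) (.e (nat_lit 1376) (nat_lit 104) (.e (nat_lit 303154) (nat_lit 28) .nil)))))) (.g (nat_lit 1) (.e (nat_lit 379842) (nat_lit 0) .nil) .nil))) 
(.lf (nat_lit 582377) (.g (nat_lit 3461) (.e (nat_lit 344119) (nat_lit 21) (.e (nat_lit 516179) (nat_lit 15) (.e (nat_lit 475199) (nat_lit 40) (.e (nat_lit 704589) (nat_lit 3) (.e (nat_lit 163975) (nat_lit 30) (.e (nat_lit 573481) (nat_lit 13) (.e (nat_lit 65613) (nat_lit 10) .nil))))))) (.g (nat_lit 1) (.e (nat_lit 381158) (nat_lit 0) .nil) .nil)))) (.nd (nat_lit 9) 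
(.lf (nat_lit 582121) (.g (nat_lit 2239) (.e (nat_lit 344117) (nat_lit 21) (.e (nat_lit 516139) (nat_lit 7) (.e (nat_lit 409644) (nat_lit 18) (.e (nat_lit 303119) (nat_lit 3) (.e (nat_lit 204856) (nat_lit 26) .nil))))) (.g (nat_lit 0) (.e (nat_lit 380813) (nat_lit 0) .nil) .nil))) 
(.lf (nat_lit 582633) (.g (nat_lit 2536) (.e (nat_lit 344130) (nat_lit 26) (.e (nat_lit 557103) (nat_lit 14) (.e (nat_lit 180250) (nat_lit 10) (.e (nat_lit 573474) (nat_lit 12) (.e (nat_lit 57507) (nat_lit 39) (.e (nat_lit 647176) (nat_lit 0) (.e (nat_lit 2684) (nat_lit 168) (.e (nat_lit 204862) (nat_lit 27) .nil)))))))) (.g (nat_lit 1) (.e (nat_lit 381582) (nat_lit 0) .nil) .nil)))))))) 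
(.nd (nat_lit 5) (.nd (nat_lit 6) (.nd (nat_lit 7) (.nd (nat_lit 8) (.nd (nat_lit 9) 
(.lf (nat_lit 581657) (.g (nat_lit 2667) (.e (nat_lit 336456) (nat_lit 34) (.e (nat_lit 483365) (nat_lit 18) (.e (nat_lit 57849) (nat_lit 252) (.e (nat_lit 57373) (nat_lit 2) (.e (nat_lit 90158) (nat_lit 11) .nil))))) (.g (nat_lit 0) (.e (nat_lit 379356) (nat_lit 0) .nil) .nil))) 
(.lf (nat_lit 582169) (.g (nat_lit 1783) (.e (nat_lit 344117) (nat_lit 21) (.e (nat_lit 516139) (nat_lit 7) (.e (nat_lit 409649) (nat_lit 18) (.e (nat_lit 303116) (nat_lit 2) (.e (nat_lit 196666) (nat_lit 13) .nil))))) (.g (nat_lit 0) (.e (nat_lit 380861) (nat_lit 0) .nil) .nil)))) (.nd (nat_lit 9) 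
(.lf (nat_lit 581913) (.g (nat_lit 2591) (.e (nat_lit 344069) (nat_lit 0) (.e (nat_lit 3090) (nat_lit 191) (.e (nat_lit 483372) (nat_lit 21) (.e (nat_lit 319511) (nat_lit 10) (.e (nat_lit 5664) (nat_lit 312) (.e (nat_lit 7936) (nat_lit 22) .nil)))))) (.g (nat_lit 1) (.e (nat_lit 379901) (nat_lit 0) .nil) .nil))) 
(.lf (nat_lit 582425) (.g (nat_lit 1673) (.e (nat_lit 344138) (nat_lit 29) (.e (nat_lit 581651) (nat_lit 4) (.e (nat_lit 172115) (nat_lit 10) (.e (nat_lit 434295) (nat_lit 49) (.e (nat_lit 745491) (nat_lit 4) (.e (nat_lit 65620) (nat_lit 10) .nil)))))) (.g (nat_lit 1) (.e (nat_lit 381283) (nat_lit 0) .nil) .nil))))) (.nd (nat_lit 8) (.nd (nat_lit 9) 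
(.lf (nat_lit 581785) (.g (nat_lit 1934) (.e (nat_lit 344068) (nat_lit 0) (.e (nat_lit 3090) (nat_lit 191) (.e (nat_lit 483354) (nat_lit 17) (.e (nat_lit 6680) (nat_lit 357) (.e (nat_lit 2855) (nat_lit 184) (.e (nat_lit 426533) (nat_lit 28) .nil)))))) (.g (nat_lit 1) (.e (nat_lit 379677) (nat_lit 0) .nil) .nil))) 
(.lf (nat_lit 582297) (.g (nat_lit 832) (.e (nat_lit 344119) (nat_lit 21) (.e (nat_lit 516138) (nat_lit 7) (.e (nat_lit 409646) (nat_lit 18) .nil))) (.g (nat_lit 0) (.e (nat_lit 381061) (nat_lit 0) .nil) .nil)))) (.nd (nat_lit 9) 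
(.lf (nat_lit 582041) (.g (nat_lit 4551) (.e (nat_lit 344117) (nat_lit 21) (.e (nat_lit 516098) (nat_lit 0) (.e (nat_lit 7587) (nat_lit 406) (.e (nat_lit 65637) (nat_lit 15) (.e (nat_lit 3305) (nat_lit 202) (.e (nat_lit 573484) (nat_lit 13) (.e (nat_lit 65610) (nat_lit 10) .nil))))))) (.g (nat_lit 1) (.e (nat_lit 380691) (nat_lit 0) .nil) .nil))) 
(.lf (nat_lit 582553) (.g (nat_lit 3625) (.e (nat_lit 344129) (nat_lit 26) (.e (nat_lit 557087) (nat_lit 11) (.e (nat_lit 24662) (nat_lit 14) (.e (nat_lit 401461) (nat_lit 15) .nil)))) (.g (nat_lit 0) (.e (nat_lit 381466) (nat_lit 0) .nil) .nil)))))) (.nd (nat_lit 7) (.nd (nat_lit 8) (.nd (nat_lit 9) 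
(.lf (nat_lit 581721) (.g (nat_lit 962) (.e (nat_lit 344068) (nat_lit 0) (.e (nat_lit 2682) (nat_lit 168) (.e (nat_lit 204869) (nat_lit 29) (.e (nat_lit 360472) (nat_lit 8) .nil)))) (.g (nat_lit 0) (.e (nat_lit 379546) (nat_lit 0) .nil) .nil))) 
(.lf (nat_lit 582233) (.g (nat_lit 634) (.e (nat_lit 344118) (nat_lit 21) (.e (nat_lit 516115) (nat_lit 1) (.e (nat_lit 164179) (nat_lit 154) .nil))) (.g (nat_lit 0) (.e (nat_lit 380956) (nat_lit 0) .nil) .nil)))) (.nd (nat_lit 9) 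
(.lf (nat_lit 581977) (.g (nat_lit 2838) (.e (nat_lit 344097) (nat_lit 18) (.e (nat_lit 4716) (nat_lit 275) (.e (nat_lit 2610) (nat_lit 163) (.e (nat_lit 163978) (nat_lit 30) (.e (nat_lit 573479) (nat_lit 13) (.e (nat_lit 65619) (nat_lit 10) (.e (nat_lit 344129) (nat_lit 26) (.e (nat_lit 557066) (nat_lit 9) (.e (nat_lit 307) (nat_lit 22) .nil))))))))) (.g (nat_lit 1) (.e (nat_lit 380466) (nat_lit 0) .nil) .nil))) 
(.lf (nat_lit 582489) (.g (nat_lit 3952) (.e (nat_lit 344127) (nat_lit 26) (.e (nat_lit 557090) (nat_lit 12) (.e (nat_lit 163844) (nat_lit 0) (.e (nat_lit 6252) (nat_lit 337) (.e (nat_lit 2630) (nat_lit 164) (.e (nat_lit 172062) (nat_lit 2) (.e (nat_lit 196666) (nat_lit 13) (.e (nat_lit 65617) (nat_lit 10) .nil)))))))) (.g (nat_lit 1) (.e (nat_lit 381364) (nat_lit 0) .nil) .nil))))) 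
(.nd (nat_lit 8) (.nd (nat_lit 9) 
(.lf (nat_lit 581849) (.g (nat_lit 3426) (.e (nat_lit 344069) (nat_lit 0) (.e (nat_lit 3088) (nat_lit 191) (.e (nat_lit 483412) (nat_lit 27) (.e (nat_lit 401437) (nat_lit 9) (.e (nat_lit 426533) (nat_lit 28) .nil))))) (.g (nat_lit 1) (.e (nat_lit 379810) (nat_lit 0) .nil) .nil))) 
(.lf (nat_lit 582361) (.g (nat_lit 2786) (.e (nat_lit 344119) (nat_lit 21) (.e (nat_lit 516139) (nat_lit 7) (.e (nat_lit 409649) (nat_lit 18) (.e (nat_lit 303119) (nat_lit 3) (.e (nat_lit 204854) (nat_lit 26) (.e (nat_lit 336160) (nat_lit 10) .nil)))))) (.g (nat_lit 1) (.e (nat_lit 381139) (nat_lit 0) .nil) .nil)))) (.nd (nat_lit 9) 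
(.lf (nat_lit 582105) (.g (nat_lit 4288) (.e (nat_lit 344117) (nat_lit 21) (.e (nat_lit 516138) (nat_lit 7) (.e (nat_lit 409646) (nat_lit 18) (.e (nat_lit 303117) (nat_lit 2) (.e (nat_lit 196666) (nat_lit 13) (.e (nat_lit 65617) (nat_lit 10) .nil)))))) (.g (nat_lit 1) (.e (nat_lit 380793) (nat_lit 0) .nil) .nil))) 
(.lf (nat_lit 582617) (.g (nat_lit 2417) (.e (nat_lit 344130) (nat_lit 26) (.e (nat_lit 557091) (nat_lit 12) (.e (nat_lit 163843) (nat_lit 0) (.e (nat_lit 6255) (nat_lit 337) (.e (nat_lit 2630) (nat_lit 164) .nil))))) (.g (nat_lit 0) (.e (nat_lit 381565) (nat_lit 0) .nil) .nil))))))) (.nd (nat_lit 6) (.nd (nat_lit 7) (.nd (nat_lit 8) (.nd (nat_lit 9) 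
(.lf (nat_lit 581689) (.g (nat_lit 1216) (.e (nat_lit 343808) (nat_lit 34) (.e (nat_lit 483365) (nat_lit 18) (.e (nat_lit 57846) (nat_lit 252) (.e (nat_lit 57379) (nat_lit 3) .nil)))) (.g (nat_lit 0) (.e (nat_lit 379411) (nat_lit 0) .nil) .nil))) 
(.lf (nat_lit 582201) (.g (nat_lit 4203) (.e (nat_lit 344117) (nat_lit 21) (.e (nat_lit 516160) (nat_lit 10) (.e (nat_lit 434208) (nat_lit 18) (.e (nat_lit 4754) (nat_lit 281) (.e (nat_lit 2510) (nat_lit 157) (.e (nat_lit 2661) (nat_lit 167) (.e (nat_lit 196666) (nat_lit 13) (.e (nat_lit 65610) (nat_lit 10) .nil)))))))) (.g (nat_lit 1) (.e (nat_lit 380898) (nat_lit 0) .nil) .nil)))) 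
(.nd (nat_lit 9) 
(.lf (nat_lit 581945) (.g (nat_lit 1068) (.e (nat_lit 352000) (nat_lit 5) (.e (nat_lit 180271) (nat_lit 26) (.e (nat_lit 704738) (nat_lit 11) (.e (nat_lit 16431) (nat_lit 9) .nil)))) (.g (nat_lit 0) (.e (nat_lit 380187) (nat_lit 0) .nil) .nil))) 
(.lf (nat_lit 582457) (.g (nat_lit 2419) (.e (nat_lit 344138) (nat_lit 29) (.e (nat_lit 581653) (nat_lit 6) (.e (nat_lit 188435) (nat_lit 20) (.e (nat_lit 3579) (nat_lit 223) (.e (nat_lit 745491) (nat_lit 4) (.e (nat_lit 65619) (nat_lit 10) .nil)))))) (.g (nat_lit 1) (.e (nat_lit 381323) (nat_lit 0) .nil) .nil))))) (.nd (nat_lit 8) (.nd (nat_lit 9) 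
(.lf (nat_lit 581817) (.g (nat_lit 2459) (.e (nat_lit 344068) (nat_lit 0) (.e (nat_lit 3090) (nat_lit 191) (.e (nat_lit 483372) (nat_lit 21) (.e (nat_lit 319537) (nat_lit 19) (.e (nat_lit 311357) (nat_lit 28) .nil))))) (.g (nat_lit 1) (.e (nat_lit 379719) (nat_lit 0) .nil) .nil))) 
(.lf (nat_lit 582329) (.g (nat_lit 2284) (.e (nat_lit 344119) (nat_lit 21) (.e (nat_lit 516139) (nat_lit 7) (.e (nat_lit 409646) (nat_lit 18) (.e (nat_lit 303119) (nat_lit 3) (.e (nat_lit 204855) (nat_lit 26) .nil))))) (.g (nat_lit 0) (.e (nat_lit 381103) (nat_lit 0) .nil) .nil)))) (.nd (nat_lit 9) 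
(.lf (nat_lit 582073) (.g (nat_lit 968) (.e (nat_lit 344117) (nat_lit 21) (.e (nat_lit 516116) (nat_lit 1) (.e (nat_lit 164183) (nat_lit 154) (.e (nat_lit 65280) (nat_lit 12) .nil)))) (.g (nat_lit 0) (.e (nat_lit 380754) (nat_lit 0) .nil) .nil))) 
(.lf (nat_lit 582585) (.g (nat_lit 3475) (.e (nat_lit 344129) (nat_lit 26) (.e (nat_lit 557103) (nat_lit 14) (.e (nat_lit 180250) (nat_lit 10) (.e (nat_lit 573474) (nat_lit 12) (.e (nat_lit 57507) (nat_lit 39) (.e (nat_lit 647176) (nat_lit 0) (.e (nat_lit 2681) (nat_lit 168) (.e (nat_lit 204862) (nat_lit 27) .nil)))))))) (.g (nat_lit 1) (.e (nat_lit 381503) (nat_lit 0) .nil) .nil)))))) 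
(.nd (nat_lit 7) (.nd (nat_lit 8) (.nd (nat_lit 9) 
(.lf (nat_lit 581753) (.g (nat_lit 1549) (.e (nat_lit 344068) (nat_lit 0) (.e (nat_lit 3090) (nat_lit 191) (.e (nat_lit 483350) (nat_lit 17) (.e (nat_lit 6092) (nat_lit 332) .nil)))) (.g (nat_lit 0) (.e (nat_lit 379644) (nat_lit 0) .nil) .nil))) 
(.lf (nat_lit 582265) (.g (nat_lit 3011) (.e (nat_lit 344118) (nat_lit 21) (.e (nat_lit 516139) (nat_lit 7) (.e (nat_lit 409648) (nat_lit 18) (.e (nat_lit 303116) (nat_lit 2) (.e (nat_lit 196666) (nat_lit 13) (.e (nat_lit 65614) (nat_lit 10) .nil)))))) (.g (nat_lit 1) (.e (nat_lit 381021) (nat_lit 0) .nil) .nil)))) (.nd (nat_lit 9) 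
(.lf (nat_lit 582009) (.g (nat_lit 2840) (.e (nat_lit 344115) (nat_lit 20) (.e (nat_lit 507907) (nat_lit 0) (.e (nat_lit 5401) (nat_lit 302) (.e (nat_lit 65641) (nat_lit 15) (.e (nat_lit 3305) (nat_lit 202) (.e (nat_lit 573485) (nat_lit 13) (.e (nat_lit 65619) (nat_lit 10) .nil))))))) (.g (nat_lit 1) (.e (nat_lit 380628) (nat_lit 0) .nil) .nil))) 
(.lf (nat_lit 582521) (.g (nat_lit 4011) (.e (nat_lit 344129) (nat_lit 26) (.e (nat_lit 557067) (nat_lit 9) (.e (nat_lit 2464) (nat_lit 157) (.e (nat_lit 3469) (nat_lit 217) (.e (nat_lit 696344) (nat_lit 8) (.e (nat_lit 172064) (nat_lit 2) (.e (nat_lit 196666) (nat_lit 13) (.e (nat_lit 65610) (nat_lit 10) .nil)))))))) (.g (nat_lit 1) (.e (nat_lit 381427) (nat_lit 0) .nil) .nil))))) 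
(.nd (nat_lit 8) (.nd (nat_lit 9) 
(.lf (nat_lit 581881) (.g (nat_lit 3280) (.e (nat_lit 344069) (nat_lit 0) (.e (nat_lit 3090) (nat_lit 191) (.e (nat_lit 483350) (nat_lit 17) (.e (nat_lit 6677) (nat_lit 357) (.e (nat_lit 2856) (nat_lit 184) (.e (nat_lit 426533) (nat_lit 28) .nil)))))) (.g (nat_lit 1) (.e (nat_lit 379858) (nat_lit 0) .nil) .nil))) 
(.lf (nat_lit 582393) (.g (nat_lit 2346) (.e (nat_lit 344120) (nat_lit 21) (.e (nat_lit 516139) (nat_lit 7) (.e (nat_lit 409648) (nat_lit 18) (.e (nat_lit 303116) (nat_lit 2) (.e (nat_lit 196666) (nat_lit 13) (.e (nat_lit 65614) (nat_lit 10) .nil)))))) (.g (nat_lit 1) (.e (nat_lit 381185) (nat_lit 0) .nil) .nil)))) (.nd (nat_lit 9) 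
(.lf (nat_lit 582137) (.g (nat_lit 2396) (.e (nat_lit 344117) (nat_lit 21) (.e (nat_lit 516139) (nat_lit 7) (.e (nat_lit 409645) (nat_lit 18) (.e (nat_lit 303119) (nat_lit 3) (.e (nat_lit 204856) (nat_lit 26) (.e (nat_lit 336163) (nat_lit 10) .nil)))))) (.g (nat_lit 1) (.e (nat_lit 380829) (nat_lit 0) .nil) .nil))) 
(.lf (nat_lit 582649) (.g (nat_lit 2544) (.e (nat_lit 344130) (nat_lit 26) (.e (nat_lit 557104) (nat_lit 14) (.e (nat_lit 180252) (nat_lit 10) (.e (nat_lit 573474) (nat_lit 12) (.e (nat_lit 57507) (nat_lit 39) (.e (nat_lit 647170) (nat_lit 0) (.e (nat_lit 2680) (nat_lit 168) (.e (nat_lit 204864) (nat_lit 27) .nil)))))))) (.g (nat_lit 1) (.e (nat_lit 381598) (nat_lit 0) .nil) .nil)))))))))) 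
(.nd (nat_lit 3) (.nd (nat_lit 4) (.nd (nat_lit 5) (.nd (nat_lit 6) (.nd (nat_lit 7) 
(.nd (nat_lit 8) (.nd (nat_lit 9) 
(.lf (nat_lit 581637) (.g (nat_lit 2653) (.e (nat_lit 336456) (nat_lit 34) (.e (nat_lit 483364) (nat_lit 18) (.e (nat_lit 57926) (nat_lit 282) (.e (nat_lit 163875) (nat_lit 3) (.e (nat_lit 204850) (nat_lit 26) (.e (nat_lit 336089) (nat_lit 9) .nil)))))) (.g (nat_lit 1) (.e (nat_lit 379335) (nat_lit 0) .nil) .nil))) 
(.lf (nat_lit 582149) (.g (nat_lit 3862) (.e (nat_lit 344117) (nat_lit 21) (.e (nat_lit 516139) (nat_lit 7) (.e (nat_lit 409646) (nat_lit 18) (.e (nat_lit 303119) (nat_lit 3) (.e (nat_lit 204852) (nat_lit 26) (.e (nat_lit 343808) (nat_lit 10) .nil)))))) (.g (nat_lit 1) (.e (nat_lit 380841) (nat_lit 0) .nil) .nil)))) (.nd (nat_lit 9) 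
(.lf (nat_lit 581893) (.g (nat_lit 2336) (.e (nat_lit 344069) (nat_lit 0) (.e (nat_lit 3090) (nat_lit 191) (.e (nat_lit 483372) (nat_lit 21) (.e (nat_lit 319500) (nat_lit 10) .nil)))) (.g (nat_lit 0) (.e (nat_lit 379871) (nat_lit 0) .nil) .nil))) 
(.lf (nat_lit 582405) (.g (nat_lit 1412) (.e (nat_lit 344120) (nat_lit 21) (.e (nat_lit 516182) (nat_lit 15) (.e (nat_lit 475198) (nat_lit 40) (.e (nat_lit 704589) (nat_lit 3) (.e (nat_lit 163975) (nat_lit 30) .nil))))) (.g (nat_lit 0) (.e (nat_lit 381197) (nat_lit 0) .nil) .nil))))) (.nd (nat_lit 8) (.nd (nat_lit 9) 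
(.lf (nat_lit 581765) (.g (nat_lit 1524) (.e (nat_lit 344068) (nat_lit 0) (.e (nat_lit 3090) (nat_lit 191) (.e (nat_lit 483350) (nat_lit 17) (.e (nat_lit 6146) (nat_lit 332) .nil)))) (.g (nat_lit 0) (.e (nat_lit 379657) (nat_lit 0) .nil) .nil))) 
(.lf (nat_lit 582277) (.g (nat_lit 4452) (.e (nat_lit 344118) (nat_lit 21) (.e (nat_lit 516166) (nat_lit 12) (.e (nat_lit 450588) (nat_lit 10) (.e (nat_lit 573475) (nat_lit 12) (.e (nat_lit 57354) (nat_lit 0) (.e (nat_lit 7272) (nat_lit 385) (.e (nat_lit 122913) (nat_lit 13) .nil))))))) (.g (nat_lit 1) (.e (nat_lit 381034) (nat_lit 0) .nil) .nil)))) (.nd (nat_lit 9) 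
(.lf (nat_lit 582021) (.g (nat_lit 2522) (.e (nat_lit 344116) (nat_lit 21) (.e (nat_lit 516138) (nat_lit 7) (.e (nat_lit 409649) (nat_lit 18) (.e (nat_lit 303116) (nat_lit 2) .nil)))) (.g (nat_lit 0) (.e (nat_lit 380665) (nat_lit 0) .nil) .nil))) 
(.lf (nat_lit 582533) (.g (nat_lit 3753) (.e (nat_lit 344129) (nat_lit 26) (.e (nat_lit 557086) (nat_lit 11) (.e (nat_lit 24664) (nat_lit 14) (.e (nat_lit 401423) (nat_lit 2) (.e (nat_lit 196666) (nat_lit 13) (.e (nat_lit 65610) (nat_lit 10) .nil)))))) (.g (nat_lit 1) (.e (nat_lit 381446) (nat_lit 0) .nil) .nil)))))) (.nd (nat_lit 7) (.nd (nat_lit 8) (.nd (nat_lit 9) 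
(.lf (nat_lit 581701) (.g (nat_lit 1755) (.e (nat_lit 344066) (nat_lit 0) (.e (nat_lit 2936) (nat_lit 184) (.e (nat_lit 426163) (nat_lit 6) (.e (nat_lit 253992) (nat_lit 11) (.e (nat_lit 24320) (nat_lit 9) (.e (nat_lit 426533) (nat_lit 28) .nil)))))) (.g (nat_lit 1) (.e (nat_lit 379487) (nat_lit 0) .nil) .nil))) 
(.lf (nat_lit 582213) (.g (nat_lit 3299) (.e (nat_lit 344117) (nat_lit 21) (.e (nat_lit 516179) (nat_lit 15) (.e (nat_lit 475199) (nat_lit 40) (.e (nat_lit 704590) (nat_lit 3) (.e (nat_lit 163975) (nat_lit 30) (.e (nat_lit 573481) (nat_lit 13) (.e (nat_lit 65609) (nat_lit 10) .nil))))))) (.g (nat_lit 1) (.e (nat_lit 380914) (nat_lit 0) .nil) .nil)))) (.nd (nat_lit 9) 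
(.lf (nat_lit 581957) (.g (nat_lit 1861) (.e (nat_lit 344081) (nat_lit 13) (.e (nat_lit 1141) (nat_lit 84) (.e (nat_lit 32787) (nat_lit 9) (.e (nat_lit 65586) (nat_lit 7) (.e (nat_lit 319504) (nat_lit 10) (.e (nat_lit 7936) (nat_lit 45) (.e (nat_lit 532544) (nat_lit 10) .nil))))))) (.g (nat_lit 1) (.e (nat_lit 380264) (nat_lit 0) .nil) .nil))) 
(.lf (nat_lit 582469) (.g (nat_lit 1692) (.e (nat_lit 344138) (nat_lit 29) (.e (nat_lit 581653) (nat_lit 6) (.e (nat_lit 188440) (nat_lit 20) (.e (nat_lit 3579) (nat_lit 223) (.e (nat_lit 745490) (nat_lit 4) .nil))))) (.g (nat_lit 0) (.e (nat_lit 381335) (nat_lit 0) .nil) .nil))))) (.nd (nat_lit 8) (.nd (nat_lit 9) 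
(.lf (nat_lit 581829) (.g (nat_lit 1235) (.e (nat_lit 344068) (nat_lit 0) (.e (nat_lit 3090) (nat_lit 191) (.e (nat_lit 483411) (nat_lit 27) (.e (nat_lit 401434) (nat_lit 9) .nil)))) (.g (nat_lit 0) (.e (nat_lit 379751) (nat_lit 0) .nil) .nil))) 
(.lf (nat_lit 582341) (.g (nat_lit 3287) (.e (nat_lit 344119) (nat_lit 21) (.e (nat_lit 516139) (nat_lit 7) (.e (nat_lit 409648) (nat_lit 18) (.e (nat_lit 303117) (nat_lit 2) (.e (nat_lit 196665) (nat_lit 13) (.e (nat_lit 65612) (nat_lit 10) .nil)))))) (.g (nat_lit 1) (.e (nat_lit 381117) (nat_lit 0) .nil) .nil)))) (.nd (nat_lit 9) 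
(.lf (nat_lit 582085) (.g (nat_lit 3398) (.e (nat_lit 344117) (nat_lit 21) (.e (nat_lit 516129) (nat_lit 3) (.e (nat_lit 221214) (nat_lit 23) (.e (nat_lit 204829) (nat_lit 18) (.e (nat_lit 57925) (nat_lit 282) (.e (nat_lit 163875) (nat_lit 3) (.e (nat_lit 204862) (nat_lit 27) .nil))))))) (.g (nat_lit 1) (.e (nat_lit 380767) (nat_lit 0) .nil) .nil))) 
(.lf (nat_lit 582597) (.g (nat_lit 3540) (.e (nat_lit 344129) (nat_lit 26) (.e (nat_lit 557104) (nat_lit 14) (.e (nat_lit 180252) (nat_lit 10) (.e (nat_lit 573474) (nat_lit 12) (.e (nat_lit 57506) (nat_lit 39) (.e (nat_lit 647175) (nat_lit 0) (.e (nat_lit 2684) (nat_lit 168) (.e (nat_lit 204863) (nat_lit 27) .nil)))))))) (.g (nat_lit 1) (.e (nat_lit 381515) (nat_lit 0) .nil) .nil))))))) 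
(.nd (nat_lit 6) (.nd (nat_lit 7) (.nd (nat_lit 8) (.nd (nat_lit 9) 
(.lf (nat_lit 581669) (.g (nat_lit 3434) (.e (nat_lit 336456) (nat_lit 34) (.e (nat_lit 483378) (nat_lit 23) (.e (nat_lit 336324) (nat_lit 18) (.e (nat_lit 204831) (nat_lit 18) (.e (nat_lit 57847) (nat_lit 252) (.e (nat_lit 57411) (nat_lit 12) .nil)))))) (.g (nat_lit 1) (.e (nat_lit 379369) (nat_lit 0) .nil) .nil))) 
(.lf (nat_lit 582181) (.g (nat_lit 3182) (.e (nat_lit 344117) (nat_lit 21) (.e (nat_lit 516142) (nat_lit 8) (.e (nat_lit 417828) (nat_lit 18) (.e (nat_lit 303119) (nat_lit 3) (.e (nat_lit 204855) (nat_lit 26) (.e (nat_lit 336173) (nat_lit 10) .nil)))))) (.g (nat_lit 1) (.e (nat_lit 380874) (nat_lit 0) .nil) .nil)))) (.nd (nat_lit 9) 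
(.lf (nat_lit 581925) (.g (nat_lit 1946) (.e (nat_lit 344069) (nat_lit 0) (.e (nat_lit 3090) (nat_lit 191) (.e (nat_lit 483411) (nat_lit 27) (.e (nat_lit 401434) (nat_lit 9) (.e (nat_lit 426533) (nat_lit 28) .nil))))) (.g (nat_lit 0) (.e (nat_lit 379923) (nat_lit 0) .nil) .nil))) 
(.lf (nat_lit 582437) (.g (nat_lit 1643) (.e (nat_lit 344138) (nat_lit 29) (.e (nat_lit 581653) (nat_lit 6) (.e (nat_lit 188430) (nat_lit 20) (.e (nat_lit 3572) (nat_lit 222) (.e (nat_lit 737300) (nat_lit 7) (.e (nat_lit 286754) (nat_lit 10) .nil)))))) (.g (nat_lit 1) (.e (nat_lit 381302) (nat_lit 0) .nil) .nil))))) (.nd (nat_lit 8) (.nd (nat_lit 9) 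
(.lf (nat_lit 581797) (.g (nat_lit 2332) (.e (nat_lit 344068) (nat_lit 0) (.e (nat_lit 3090) (nat_lit 191) (.e (nat_lit 483372) (nat_lit 21) (.e (nat_lit 319505) (nat_lit 10) (.e (nat_lit 5688) (nat_lit 312) (.e (nat_lit 299) (nat_lit 22) .nil)))))) (.g (nat_lit 1) (.e (nat_lit 379694) (nat_lit 0) .nil) .nil))) 
(.lf (nat_lit 582309) (.g (nat_lit 3896) (.e (nat_lit 344119) (nat_lit 21) (.e (nat_lit 516139) (nat_lit 7) (.e (nat_lit 409644) (nat_lit 18) (.e (nat_lit 303119) (nat_lit 3) (.e (nat_lit 204852) (nat_lit 26) (.e (nat_lit 336160) (nat_lit 10) .nil)))))) (.g (nat_lit 1) (.e (nat_lit 381083) (nat_lit 0) .nil) .nil)))) (.nd (nat_lit 9) 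
(.lf (nat_lit 582053) (.g (nat_lit 3502) (.e (nat_lit 344117) (nat_lit 21) (.e (nat_lit 516115) (nat_lit 1) (.e (nat_lit 164177) (nat_lit 154) (.e (nat_lit 57372) (nat_lit 2) (.e (nat_lit 90128) (nat_lit 9) (.e (nat_lit 2706) (nat_lit 170) (.e (nat_lit 221214) (nat_lit 23) (.e (nat_lit 204862) (nat_lit 27) .nil)))))))) (.g (nat_lit 1) (.e (nat_lit 380706) (nat_lit 0) .nil) .nil))) 
(.lf (nat_lit 582565) (.g (nat_lit 2940) (.e (nat_lit 344129) (nat_lit 26) (.e (nat_lit 557090) (nat_lit 12) (.e (nat_lit 163850) (nat_lit 0) (.e (nat_lit 6425) (nat_lit 342) (.e (nat_lit 229403) (nat_lit 12) .nil))))) (.g (nat_lit 0) (.e (nat_lit 381481) (nat_lit 0) .nil) .nil)))))) (.nd (nat_lit 7) (.nd (nat_lit 8) (.nd (nat_lit 9) 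
(.lf (nat_lit 581733) (.g (nat_lit 1468) (.e (nat_lit 344068) (nat_lit 0) (.e (nat_lit 2856) (nat_lit 184) (.e (nat_lit 426542) (nat_lit 29) (.e (nat_lit 352265) (nat_lit 0) .nil)))) (.g (nat_lit 0) (.e (nat_lit 379567) (nat_lit 0) .nil) .nil))) 
(.lf (nat_lit 582245) (.g (nat_lit 721) (.e (nat_lit 344118) (nat_lit 21) (.e (nat_lit 516119) (nat_lit 1) (.e (nat_lit 164180) (nat_lit 154) .nil))) (.g (nat_lit 0) (.e (nat_lit 380982) (nat_lit 0) .nil) .nil)))) (.nd (nat_lit 9) 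
(.lf (nat_lit 581989) (.g (nat_lit 924) (.e (nat_lit 344100) (nat_lit 18) (.e (nat_lit 5905) (nat_lit 320) (.e (nat_lit 1211) (nat_lit 89) (.e (nat_lit 73781) (nat_lit 32) .nil)))) (.g (nat_lit 0) (.e (nat_lit 380525) (nat_lit 0) .nil) .nil))) 
(.lf (nat_lit 582501) (.g (nat_lit 1972) (.e (nat_lit 344127) (nat_lit 26) (.e (nat_lit 557091) (nat_lit 12) (.e (nat_lit 164020) (nat_lit 45) (.e (nat_lit 696328) (nat_lit 5) .nil)))) (.g (nat_lit 0) (.e (nat_lit 381380) (nat_lit 0) .nil) .nil))))) (.nd (nat_lit 8) (.nd (nat_lit 9) 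
(.lf (nat_lit 581861) (.g (nat_lit 1589) (.e (nat_lit 344069) (nat_lit 0) (.e (nat_lit 3090) (nat_lit 191) (.e (nat_lit 483350) (nat_lit 17) (.e (nat_lit 6095) (nat_lit 332) .nil)))) (.g (nat_lit 0) (.e (nat_lit 379837) (nat_lit 0) .nil) .nil))) 
(.lf (nat_lit 582373) (.g (nat_lit 2287) (.e (nat_lit 344119) (nat_lit 21) (.e (nat_lit 516179) (nat_lit 15) (.e (nat_lit 475198) (nat_lit 40) (.e (nat_lit 704589) (nat_lit 3) (.e (nat_lit 163979) (nat_lit 30) (.e (nat_lit 573482) (nat_lit 13) (.e (nat_lit 65613) (nat_lit 10) .nil))))))) (.g (nat_lit 1) (.e (nat_lit 381154) (nat_lit 0) .nil) .nil)))) (.nd (nat_lit 9) 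
(.lf (nat_lit 582117) (.g (nat_lit 5026) (.e (nat_lit 344117) (nat_lit 21) (.e (nat_lit 516139) (nat_lit 7) (.e (nat_lit 409644) (nat_lit 18) (.e (nat_lit 303117) (nat_lit 2) (.e (nat_lit 196666) (nat_lit 13) (.e (nat_lit 65610) (nat_lit 10) .nil)))))) (.g (nat_lit 1) (.e (nat_lit 380809) (nat_lit 0) .nil) .nil))) 
(.lf (nat_lit 582629) (.g (nat_lit 2521) (.e (nat_lit 344130) (nat_lit 26) (.e (nat_lit 557103) (nat_lit 14) (.e (nat_lit 180250) (nat_lit 10) (.e (nat_lit 573474) (nat_lit 12) (.e (nat_lit 57506) (nat_lit 39) (.e (nat_lit 647175) (nat_lit 0) (.e (nat_lit 2684) (nat_lit 168) (.e (nat_lit 204862) (nat_lit 27) .nil)))))))) (.g (nat_lit 1) (.e (nat_lit 381578) (nat_lit 0) .nil) .nil)))))))) 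
(.nd (nat_lit 5) (.nd (nat_lit 6) (.nd (nat_lit 7) (.nd (nat_lit 8) (.nd (nat_lit 9) 
(.lf (nat_lit 581653) (.g (nat_lit 3448) (.e (nat_lit 336456) (nat_lit 34) (.e (nat_lit 483365) (nat_lit 18) (.e (nat_lit 57847) (nat_lit 252) (.e (nat_lit 57375) (nat_lit 2) (.e (nat_lit 90160) (nat_lit 11) (.e (nat_lit 24628) (nat_lit 9) .nil)))))) (.g (nat_lit 1) (.e (nat_lit 379352) (nat_lit 0) .nil) .nil))) 
(.lf (nat_lit 582165) (.g (nat_lit 4946) (.e (nat_lit 344117) (nat_lit 21) (.e (nat_lit 516139) (nat_lit 7) (.e (nat_lit 409648) (nat_lit 18) (.e (nat_lit 303117) (nat_lit 2) (.e (nat_lit 196666) (nat_lit 13) (.e (nat_lit 65617) (nat_lit 10) .nil)))))) (.g (nat_lit 1) (.e (nat_lit 380857) (nat_lit 0) .nil) .nil)))) (.nd (nat_lit 9) 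
(.lf (nat_lit 581909) (.g (nat_lit 1746) (.e (nat_lit 344069) (nat_lit 0) (.e (nat_lit 3090) (nat_lit 191) (.e (nat_lit 483372) (nat_lit 21) (.e (nat_lit 319509) (nat_lit 10) .nil)))) (.g (nat_lit 0) (.e (nat_lit 379894) (nat_lit 0) .nil) .nil))) 
(.lf (nat_lit 582421) (.g (nat_lit 1733) (.e (nat_lit 344138) (nat_lit 29) (.e (nat_lit 581651) (nat_lit 4) (.e (nat_lit 172112) (nat_lit 10) (.e (nat_lit 434295) (nat_lit 49) (.e (nat_lit 745491) (nat_lit 4) (.e (nat_lit 65619) (nat_lit 10) .nil)))))) (.g (nat_lit 1) (.e (nat_lit 381279) (nat_lit 0) .nil) .nil))))) (.nd (nat_lit 8) (.nd (nat_lit 9) 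
(.lf (nat_lit 581781) (.g (nat_lit 1979) (.e (nat_lit 344068) (nat_lit 0) (.e (nat_lit 3090) (nat_lit 191) (.e (nat_lit 483354) (nat_lit 17) (.e (nat_lit 6136) (nat_lit 332) (.e (nat_lit 1386) (nat_lit 105) (.e (nat_lit 311357) (nat_lit 28) .nil)))))) (.g (nat_lit 1) (.e (nat_lit 379673) (nat_lit 0) .nil) .nil))) 
(.lf (nat_lit 582293) (.g (nat_lit 1205) (.e (nat_lit 344119) (nat_lit 21) (.e (nat_lit 516120) (nat_lit 1) (.e (nat_lit 164147) (nat_lit 152) .nil))) (.g (nat_lit 0) (.e (nat_lit 381055) (nat_lit 0) .nil) .nil)))) (.nd (nat_lit 9) 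
(.lf (nat_lit 582037) (.g (nat_lit 2506) (.e (nat_lit 344116) (nat_lit 21) (.e (nat_lit 516182) (nat_lit 15) (.e (nat_lit 475199) (nat_lit 40) (.e (nat_lit 704589) (nat_lit 3) (.e (nat_lit 163975) (nat_lit 30) (.e (nat_lit 573481) (nat_lit 13) (.e (nat_lit 65609) (nat_lit 10) .nil))))))) (.g (nat_lit 1) (.e (nat_lit 380683) (nat_lit 0) .nil) .nil))) 
(.lf (nat_lit 582549) (.g (nat_lit 3144) (.e (nat_lit 344129) (nat_lit 26) (.e (nat_lit 557087) (nat_lit 11) (.e (nat_lit 24648) (nat_lit 12) (.e (nat_lit 385074) (nat_lit 31) (.e (nat_lit 573482) (nat_lit 13) (.e (nat_lit 65619) (nat_lit 10) .nil)))))) (.g (nat_lit 1) (.e (nat_lit 381462) (nat_lit 0) .nil) .nil)))))) (.nd (nat_lit 7) (.nd (nat_lit 8) (.nd (nat_lit 9) 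
(.lf (nat_lit 581717) (.g (nat_lit 1271) (.e (nat_lit 344068) (nat_lit 0) (.e (nat_lit 2682) (nat_lit 168) (.e (nat_lit 204869) (nat_lit 29) (.e (nat_lit 360450) (nat_lit 0) .nil)))) (.g (nat_lit 0) (.e (nat_lit 379540) (nat_lit 0) .nil) .nil))) 
(.lf (nat_lit 582229) (.g (nat_lit 2614) (.e (nat_lit 344117) (nat_lit 21) (.e (nat_lit 516195) (nat_lit 26) (.e (nat_lit 335996) (nat_lit 1) (.e (nat_lit 57930) (nat_lit 282) (.e (nat_lit 163943) (nat_lit 19) .nil))))) (.g (nat_lit 0) (.e (nat_lit 380944) (nat_lit 0) .nil) .nil)))) (.nd (nat_lit 9) 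
(.lf (nat_lit 581973) (.g (nat_lit 2330) (.e (nat_lit 344097) (nat_lit 18) (.e (nat_lit 4712) (nat_lit 275) (.e (nat_lit 2610) (nat_lit 163) (.e (nat_lit 163979) (nat_lit 30) (.e (nat_lit 573482) (nat_lit 13) (.e (nat_lit 65619) (nat_lit 10) (.e (nat_lit 344129) (nat_lit 26) (.e (nat_lit 557066) (nat_lit 9) (.e (nat_lit 307) (nat_lit 22) .nil))))))))) (.g (nat_lit 1) (.e (nat_lit 380459) (nat_lit 0) .nil) .nil))) 
(.lf (nat_lit 582485) (.g (nat_lit 3096) (.e (nat_lit 344127) (nat_lit 26) (.e (nat_lit 557066) (nat_lit 9) (.e (nat_lit 232) (nat_lit 21) (.e (nat_lit 335907) (nat_lit 0) (.e (nat_lit 6679) (nat_lit 357) .nil))))) (.g (nat_lit 0) (.e (nat_lit 381351) (nat_lit 0) .nil) .nil))))) (.nd (nat_lit 8) (.nd (nat_lit 9) 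
(.lf (nat_lit 581845) (.g (nat_lit 1799) (.e (nat_lit 344069) (nat_lit 0) (.e (nat_lit 3088) (nat_lit 191) (.e (nat_lit 483346) (nat_lit 17) (.e (nat_lit 6718) (nat_lit 361) (.e (nat_lit 179968) (nat_lit 28) .nil))))) (.g (nat_lit 1) (.e (nat_lit 379804) (nat_lit 0) .nil) .nil))) 
(.lf (nat_lit 582357) (.g (nat_lit 2447) (.e (nat_lit 344119) (nat_lit 21) (.e (nat_lit 516139) (nat_lit 7) (.e (nat_lit 409649) (nat_lit 18) (.e (nat_lit 303118) (nat_lit 3) (.e (nat_lit 204855) (nat_lit 26) (.e (nat_lit 336175) (nat_lit 10) .nil)))))) (.g (nat_lit 1) (.e (nat_lit 381135) (nat_lit 0) .nil) .nil)))) (.nd (nat_lit 9) 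
(.lf (nat_lit 582101) (.g (nat_lit 2228) (.e (nat_lit 344117) (nat_lit 21) (.e (nat_lit 516138) (nat_lit 7) (.e (nat_lit 409645) (nat_lit 18) (.e (nat_lit 303119) (nat_lit 3) (.e (nat_lit 204850) (nat_lit 26) .nil))))) (.g (nat_lit 0) (.e (nat_lit 380788) (nat_lit 0) .nil) .nil))) 
(.lf (nat_lit 582613) (.g (nat_lit 809) (.e (nat_lit 344130) (nat_lit 26) (.e (nat_lit 557090) (nat_lit 12) (.e (nat_lit 163987) (nat_lit 33) .nil))) (.g (nat_lit 0) (.e (nat_lit 381549) (nat_lit 0) .nil) .nil))))))) (.nd (nat_lit 6) (.nd (nat_lit 7) (.nd (nat_lit 8) (.nd (nat_lit 9) 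
(.lf (nat_lit 581685) (.g (nat_lit 1704) (.e (nat_lit 336456) (nat_lit 34) (.e (nat_lit 483395) (nat_lit 24) (.e (nat_lit 344132) (nat_lit 26) (.e (nat_lit 557091) (nat_lit 12) (.e (nat_lit 163999) (nat_lit 38) .nil))))) (.g (nat_lit 0) (.e (nat_lit 379401) (nat_lit 0) .nil) .nil))) 
(.lf (nat_lit 582197) (.g (nat_lit 3411) (.e (nat_lit 344117) (nat_lit 21) (.e (nat_lit 516155) (nat_lit 9) (.e (nat_lit 426412) (nat_lit 15) (.e (nat_lit 2059) (nat_lit 142) (.e (nat_lit 704589) (nat_lit 3) (.e (nat_lit 163978) (nat_lit 30) (.e (nat_lit 573485) (nat_lit 13) (.e (nat_lit 65619) (nat_lit 10) .nil)))))))) (.g (nat_lit 1) (.e (nat_lit 380894) (nat_lit 0) .nil) .nil)))) 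
(.nd (nat_lit 9) 
(.lf (nat_lit 581941) (.g (nat_lit 1914) (.e (nat_lit 352000) (nat_lit 5) (.e (nat_lit 180229) (nat_lit 0) (.e (nat_lit 6425) (nat_lit 342) (.e (nat_lit 229412) (nat_lit 14) (.e (nat_lit 450304) (nat_lit 12) .nil))))) (.g (nat_lit 0) (.e (nat_lit 380137) (nat_lit 0) .nil) .nil))) 
(.lf (nat_lit 582453) (.g (nat_lit 2512) (.e (nat_lit 344138) (nat_lit 29) (.e (nat_lit 581653) (nat_lit 6) (.e (nat_lit 188435) (nat_lit 20) (.e (nat_lit 3579) (nat_lit 223) (.e (nat_lit 745491) (nat_lit 4) (.e (nat_lit 65610) (nat_lit 10) .nil)))))) (.g (nat_lit 1) (.e (nat_lit 381319) (nat_lit 0) .nil) .nil))))) (.nd (nat_lit 8) (.nd (nat_lit 9) 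
(.lf (nat_lit 581813) (.g (nat_lit 3112) (.e (nat_lit 344068) (nat_lit 0) (.e (nat_lit 3090) (nat_lit 191) (.e (nat_lit 483372) (nat_lit 21) (.e (nat_lit 319511) (nat_lit 10) (.e (nat_lit 5664) (nat_lit 312) (.e (nat_lit 7936) (nat_lit 22) .nil)))))) (.g (nat_lit 1) (.e (nat_lit 379714) (nat_lit 0) .nil) .nil))) 
(.lf (nat_lit 582325) (.g (nat_lit 2927) (.e (nat_lit 344119) (nat_lit 21) (.e (nat_lit 516139) (nat_lit 7) (.e (nat_lit 409646) (nat_lit 18) (.e (nat_lit 303117) (nat_lit 2) (.e (nat_lit 196665) (nat_lit 13) (.e (nat_lit 65612) (nat_lit 10) .nil)))))) (.g (nat_lit 1) (.e (nat_lit 381099) (nat_lit 0) .nil) .nil)))) (.nd (nat_lit 9) 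
(.lf (nat_lit 582069) (.g (nat_lit 3071) (.e (nat_lit 344117) (nat_lit 21) (.e (nat_lit 516116) (nat_lit 1) (.e (nat_lit 164180) (nat_lit 154) (.e (nat_lit 57378) (nat_lit 3) (.e (nat_lit 98321) (nat_lit 17) (.e (nat_lit 3771) (nat_lit 229) (.e (nat_lit 794673) (nat_lit 23) (.e (nat_lit 204863) (nat_lit 27) .nil)))))))) (.g (nat_lit 1) (.e (nat_lit 380749) (nat_lit 0) .nil) .nil))) 
(.lf (nat_lit 582581) (.g (nat_lit 3425) (.e (nat_lit 344129) (nat_lit 26) (.e (nat_lit 557103) (nat_lit 14) (.e (nat_lit 180244) (nat_lit 5) (.e (nat_lit 532499) (nat_lit 1) (.e (nat_lit 57704) (nat_lit 164) (.e (nat_lit 2601) (nat_lit 163) (.e (nat_lit 163962) (nat_lit 25) (.e (nat_lit 532543) (nat_lit 10) .nil)))))))) (.g (nat_lit 1) (.e (nat_lit 381499) (nat_lit 0) .nil) .nil)))))) 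
(.nd (nat_lit 7) (.nd (nat_lit 8) (.nd (nat_lit 9) 
(.lf (nat_lit 581749) (.g (nat_lit 1745) (.e (nat_lit 344068) (nat_lit 0) (.e (nat_lit 3090) (nat_lit 191) (.e (nat_lit 483344) (nat_lit 17) (.e (nat_lit 6718) (nat_lit 361) (.e (nat_lit 179968) (nat_lit 28) .nil))))) (.g (nat_lit 1) (.e (nat_lit 379640) (nat_lit 0) .nil) .nil))) 
(.lf (nat_lit 582261) (.g (nat_lit 1752) (.e (nat_lit 344118) (nat_lit 21) (.e (nat_lit 516129) (nat_lit 3) (.e (nat_lit 221215) (nat_lit 23) (.e (nat_lit 204819) (nat_lit 17) .nil)))) (.g (nat_lit 0) (.e (nat_lit 381014) (nat_lit 0) .nil) .nil)))) (.nd (nat_lit 9) 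
(.lf (nat_lit 582005) (.g (nat_lit 2916) (.e (nat_lit 344107) (nat_lit 19) (.e (nat_lit 499825) (nat_lit 5) (.e (nat_lit 2945) (nat_lit 184) (.e (nat_lit 426306) (nat_lit 12) (.e (nat_lit 475177) (nat_lit 24) (.e (nat_lit 516131) (nat_lit 3) (.e (nat_lit 229120) (nat_lit 12) .nil))))))) (.g (nat_lit 1) (.e (nat_lit 380621) (nat_lit 0) .nil) .nil))) 
(.lf (nat_lit 582517) (.g (nat_lit 2730) (.e (nat_lit 344129) (nat_lit 26) (.e (nat_lit 557066) (nat_lit 9) (.e (nat_lit 232) (nat_lit 21) (.e (nat_lit 335997) (nat_lit 1) (.e (nat_lit 57772) (nat_lit 227) (.e (nat_lit 2610) (nat_lit 163) (.e (nat_lit 163977) (nat_lit 30) (.e (nat_lit 573482) (nat_lit 13) (.e (nat_lit 65619) (nat_lit 10) .nil))))))))) (.g (nat_lit 1) (.e (nat_lit 381406) (nat_lit 0) .nil) .nil))))) 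
(.nd (nat_lit 8) (.nd (nat_lit 9) 
(.lf (nat_lit 581877) (.g (nat_lit 1595) (.e (nat_lit 344069) (nat_lit 0) (.e (nat_lit 3090) (nat_lit 191) (.e (nat_lit 483350) (nat_lit 17) (.e (nat_lit 6223) (nat_lit 334) .nil)))) (.g (nat_lit 0) (.e (nat_lit 379854) (nat_lit 0) .nil) .nil))) 
(.lf (nat_lit 582389) (.g (nat_lit 1569) (.e (nat_lit 344120) (nat_lit 21) (.e (nat_lit 516139) (nat_lit 7) (.e (nat_lit 409617) (nat_lit 10) (.e (nat_lit 5612) (nat_lit 312) .nil)))) (.g (nat_lit 0) (.e (nat_lit 381180) (nat_lit 0) .nil) .nil)))) (.nd (nat_lit 9) 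
(.lf (nat_lit 582133) (.g (nat_lit 3687) (.e (nat_lit 344117) (nat_lit 21) (.e (nat_lit 516139) (nat_lit 7) (.e (nat_lit 409645) (nat_lit 18) (.e (nat_lit 303119) (nat_lit 3) (.e (nat_lit 204852) (nat_lit 26) (.e (nat_lit 343808) (nat_lit 10) .nil)))))) (.g (nat_lit 1) (.e (nat_lit 380825) (nat_lit 0) .nil) .nil))) 
(.lf (nat_lit 582645) (.g (nat_lit 2529) (.e (nat_lit 344130) (nat_lit 26) (.e (nat_lit 557104) (nat_lit 14) (.e (nat_lit 180252) (nat_lit 10) (.e (nat_lit 573474) (nat_lit 12) (.e (nat_lit 57349) (nat_lit 0) .nil))))) (.g (nat_lit 0) (.e (nat_lit 381594) (nat_lit 0) .nil) .nil))))))))) (.nd (nat_lit 4) (.nd (nat_lit 5) (.nd (nat_lit 6) (.nd (nat_lit 7) (.nd (nat_lit 8) (.nd (nat_lit 9) 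
(.lf (nat_lit 581645) (.g (nat_lit 2732) (.e (nat_lit 336456) (nat_lit 34) (.e (nat_lit 483364) (nat_lit 18) (.e (nat_lit 57931) (nat_lit 282) (.e (nat_lit 163867) (nat_lit 2) (.e (nat_lit 196681) (nat_lit 17) (.e (nat_lit 131109) (nat_lit 9) .nil)))))) (.g (nat_lit 1) (.e (nat_lit 379344) (nat_lit 0) .nil) .nil))) 
(.lf (nat_lit 582157) (.g (nat_lit 4053) (.e (nat_lit 344117) (nat_lit 21) (.e (nat_lit 516139) (nat_lit 7) (.e (nat_lit 409647) (nat_lit 18) (.e (nat_lit 303116) (nat_lit 2) (.e (nat_lit 196666) (nat_lit 13) (.e (nat_lit 65617) (nat_lit 10) .nil)))))) (.g (nat_lit 1) (.e (nat_lit 380849) (nat_lit 0) .nil) .nil)))) (.nd (nat_lit 9) 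
(.lf (nat_lit 581901) (.g (nat_lit 2855) (.e (nat_lit 344069) (nat_lit 0) (.e (nat_lit 3090) (nat_lit 191) (.e (nat_lit 483372) (nat_lit 21) (.e (nat_lit 319505) (nat_lit 10) (.e (nat_lit 5712) (nat_lit 312) (.e (nat_lit 300) (nat_lit 22) .nil)))))) (.g (nat_lit 1) (.e (nat_lit 379881) (nat_lit 0) .nil) .nil))) 
(.lf (nat_lit 582413) (.g (nat_lit 495) (.e (nat_lit 344126) (nat_lit 25) (.e (nat_lit 548891) (nat_lit 11) (.e (nat_lit 81949) (nat_lit 21) .nil))) (.g (nat_lit 0) (.e (nat_lit 381216) (nat_lit 0) .nil) .nil))))) (.nd (nat_lit 8) (.nd (nat_lit 9) 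
(.lf (nat_lit 581773) (.g (nat_lit 1551) (.e (nat_lit 344068) (nat_lit 0) (.e (nat_lit 3090) (nat_lit 191) (.e (nat_lit 483350) (nat_lit 17) (.e (nat_lit 6223) (nat_lit 334) .nil)))) (.g (nat_lit 0) (.e (nat_lit 379665) (nat_lit 0) .nil) .nil))) 
(.lf (nat_lit 582285) (.g (nat_lit 2003) (.e (nat_lit 344118) (nat_lit 21) (.e (nat_lit 516182) (nat_lit 15) (.e (nat_lit 475198) (nat_lit 40) (.e (nat_lit 704589) (nat_lit 3) (.e (nat_lit 163975) (nat_lit 30) (.e (nat_lit 573481) (nat_lit 13) (.e (nat_lit 65609) (nat_lit 10) .nil))))))) (.g (nat_lit 1) (.e (nat_lit 381042) (nat_lit 0) .nil) .nil)))) (.nd (nat_lit 9) 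
(.lf (nat_lit 582029) (.g (nat_lit 2388) (.e (nat_lit 344116) (nat_lit 21) (.e (nat_lit 516139) (nat_lit 7) (.e (nat_lit 409649) (nat_lit 18) (.e (nat_lit 303118) (nat_lit 3) (.e (nat_lit 204855) (nat_lit 26) .nil))))) (.g (nat_lit 0) (.e (nat_lit 380674) (nat_lit 0) .nil) .nil))) 
(.lf (nat_lit 582541) (.g (nat_lit 3660) (.e (nat_lit 344129) (nat_lit 26) (.e (nat_lit 557087) (nat_lit 11) (.e (nat_lit 24617) (nat_lit 7) (.e (nat_lit 319504) (nat_lit 10) (.e (nat_lit 7936) (nat_lit 45) (.e (nat_lit 532535) (nat_lit 9) (.e (nat_lit 336172) (nat_lit 10) .nil))))))) (.g (nat_lit 1) (.e (nat_lit 381454) (nat_lit 0) .nil) .nil)))))) 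
(.nd (nat_lit 7) (.nd (nat_lit 8) (.nd (nat_lit 9) 
(.lf (nat_lit 581709) (.g (nat_lit 3133) (.e (nat_lit 344067) (nat_lit 0) (.e (nat_lit 2505) (nat_lit 157) (.e (nat_lit 3249) (nat_lit 197) (.e (nat_lit 532550) (nat_lit 12) (.e (nat_lit 360475) (nat_lit 8) (.e (nat_lit 557066) (nat_lit 9) (.e (nat_lit 297) (nat_lit 22) .nil))))))) (.g (nat_lit 1) (.e (nat_lit 379497) (nat_lit 0) .nil) .nil))) 
(.lf (nat_lit 582221) (.g (nat_lit 2012) (.e (nat_lit 344117) (nat_lit 21) (.e (nat_lit 516195) (nat_lit 26) (.e (nat_lit 335986) (nat_lit 1) (.e (nat_lit 57930) (nat_lit 282) (.e (nat_lit 163941) (nat_lit 19) .nil))))) (.g (nat_lit 0) (.e (nat_lit 380930) (nat_lit 0) .nil) .nil)))) (.nd (nat_lit 9) 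
(.lf (nat_lit 581965) (.g (nat_lit 3024) (.e (nat_lit 344090) (nat_lit 18) (.e (nat_lit 7710) (nat_lit 414) (.e (nat_lit 163922) (nat_lit 15) (.e (nat_lit 450584) (nat_lit 9) (.e (nat_lit 565267) (nat_lit 4) (.e (nat_lit 65610) (nat_lit 10) .nil)))))) (.g (nat_lit 1) (.e (nat_lit 380359) (nat_lit 0) .nil) .nil))) 
(.lf (nat_lit 582477) (.g (nat_lit 1861) (.e (nat_lit 344138) (nat_lit 29) (.e (nat_lit 581653) (nat_lit 6) (.e (nat_lit 188441) (nat_lit 20) (.e (nat_lit 3579) (nat_lit 223) (.e (nat_lit 745490) (nat_lit 4) (.e (nat_lit 65620) (nat_lit 10) .nil)))))) (.g (nat_lit 1) (.e (nat_lit 381343) (nat_lit 0) .nil) .nil))))) (.nd (nat_lit 8) (.nd (nat_lit 9) 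
(.lf (nat_lit 581837) (.g (nat_lit 2005) (.e (nat_lit 344069) (nat_lit 0) (.e (nat_lit 2856) (nat_lit 184) (.e (nat_lit 426530) (nat_lit 27) (.e (nat_lit 335874) (nat_lit 0) (.e (nat_lit 6719) (nat_lit 361) (.e (nat_lit 179968) (nat_lit 28) .nil)))))) (.g (nat_lit 1) (.e (nat_lit 379779) (nat_lit 0) .nil) .nil))) 
(.lf (nat_lit 582349) (.g (nat_lit 2208) (.e (nat_lit 344119) (nat_lit 21) (.e (nat_lit 516139) (nat_lit 7) (.e (nat_lit 409649) (nat_lit 18) (.e (nat_lit 303116) (nat_lit 2) (.e (nat_lit 196666) (nat_lit 13) .nil))))) (.g (nat_lit 0) (.e (nat_lit 381126) (nat_lit 0) .nil) .nil)))) (.nd (nat_lit 9) 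
(.lf (nat_lit 582093) (.g (nat_lit 4709) (.e (nat_lit 344117) (nat_lit 21) (.e (nat_lit 516130) (nat_lit 3) (.e (nat_lit 221215) (nat_lit 23) (.e (nat_lit 204829) (nat_lit 18) (.e (nat_lit 57926) (nat_lit 282) (.e (nat_lit 163875) (nat_lit 3) (.e (nat_lit 204862) (nat_lit 27) .nil))))))) (.g (nat_lit 1) (.e (nat_lit 380775) (nat_lit 0) .nil) .nil))) 
(.lf (nat_lit 582605) (.g (nat_lit 3827) (.e (nat_lit 344129) (nat_lit 26) (.e (nat_lit 557105) (nat_lit 14) (.e (nat_lit 180252) (nat_lit 10) (.e (nat_lit 573474) (nat_lit 12) (.e (nat_lit 57355) (nat_lit 0) .nil))))) (.g (nat_lit 0) (.e (nat_lit 381523) (nat_lit 0) .nil) .nil))))))) (.nd (nat_lit 6) (.nd (nat_lit 7) (.nd (nat_lit 8) (.nd (nat_lit 9) 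
(.lf (nat_lit 581677) (.g (nat_lit 1228) (.e (nat_lit 336456) (nat_lit 34) (.e (nat_lit 483383) (nat_lit 23) (.e (nat_lit 336324) (nat_lit 18) (.e (nat_lit 204831) (nat_lit 18) .nil)))) (.g (nat_lit 0) (.e (nat_lit 379385) (nat_lit 0) .nil) .nil))) 
(.lf (nat_lit 582189) (.g (nat_lit 1001) (.e (nat_lit 344117) (nat_lit 21) (.e (nat_lit 516151) (nat_lit 9) (.e (nat_lit 426396) (nat_lit 15) (.e (nat_lit 2059) (nat_lit 142) .nil)))) (.g (nat_lit 0) (.e (nat_lit 380885) (nat_lit 0) .nil) .nil)))) (.nd (nat_lit 9) 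
(.lf (nat_lit 581933) (.g (nat_lit 763) (.e (nat_lit 352000) (nat_lit 3) (.e (nat_lit 163962) (nat_lit 25) (.e (nat_lit 532525) (nat_lit 8) (.e (nat_lit 327681) (nat_lit 0) .nil)))) (.g (nat_lit 0) (.e (nat_lit 380078) (nat_lit 0) .nil) .nil))) 
(.lf (nat_lit 582445) (.g (nat_lit 1800) (.e (nat_lit 344138) (nat_lit 29) (.e (nat_lit 581653) (nat_lit 6) (.e (nat_lit 188434) (nat_lit 20) (.e (nat_lit 3579) (nat_lit 223) (.e (nat_lit 745490) (nat_lit 4) (.e (nat_lit 65620) (nat_lit 10) .nil)))))) (.g (nat_lit 1) (.e (nat_lit 381311) (nat_lit 0) .nil) .nil))))) (.nd (nat_lit 8) (.nd (nat_lit 9) 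
(.lf (nat_lit 581805) (.g (nat_lit 1821) (.e (nat_lit 344068) (nat_lit 0) (.e (nat_lit 3090) (nat_lit 191) (.e (nat_lit 483372) (nat_lit 21) (.e (nat_lit 319506) (nat_lit 10) .nil)))) (.g (nat_lit 0) (.e (nat_lit 379705) (nat_lit 0) .nil) .nil))) 
(.lf (nat_lit 582317) (.g (nat_lit 2992) (.e (nat_lit 344119) (nat_lit 21) (.e (nat_lit 516139) (nat_lit 7) (.e (nat_lit 409645) (nat_lit 18) (.e (nat_lit 303117) (nat_lit 2) (.e (nat_lit 196665) (nat_lit 13) (.e (nat_lit 65613) (nat_lit 10) .nil)))))) (.g (nat_lit 1) (.e (nat_lit 381091) (nat_lit 0) .nil) .nil)))) (.nd (nat_lit 9) 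
(.lf (nat_lit 582061) (.g (nat_lit 3040) (.e (nat_lit 344117) (nat_lit 21) (.e (nat_lit 516115) (nat_lit 1) (.e (nat_lit 164179) (nat_lit 154) (.e (nat_lit 57378) (nat_lit 3) (.e (nat_lit 98319) (nat_lit 17) (.e (nat_lit 3771) (nat_lit 229) (.e (nat_lit 794673) (nat_lit 23) (.e (nat_lit 204862) (nat_lit 27) .nil)))))))) (.g (nat_lit 1) (.e (nat_lit 380735) (nat_lit 0) .nil) .nil))) 
(.lf (nat_lit 582573) (.g (nat_lit 3236) (.e (nat_lit 344129) (nat_lit 26) (.e (nat_lit 557096) (nat_lit 13) (.e (nat_lit 172133) (nat_lit 15) (.e (nat_lit 1800) (nat_lit 119) (.e (nat_lit 516119) (nat_lit 1) (.e (nat_lit 164345) (nat_lit 240) (.e (nat_lit 2601) (nat_lit 163) (.e (nat_lit 163962) (nat_lit 25) (.e (nat_lit 532544) (nat_lit 10) .nil))))))))) (.g (nat_lit 1) (.e (nat_lit 381491) (nat_lit 0) .nil) .nil)))))) 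
(.nd (nat_lit 7) (.nd (nat_lit 8) (.nd (nat_lit 9) 
(.lf (nat_lit 581741) (.g (nat_lit 1745) (.e (nat_lit 344068) (nat_lit 0) (.e (nat_lit 3088) (nat_lit 191) (.e (nat_lit 483346) (nat_lit 17) (.e (nat_lit 6718) (nat_lit 361) (.e (nat_lit 179968) (nat_lit 28) .nil))))) (.g (nat_lit 1) (.e (nat_lit 379603) (nat_lit 0) .nil) .nil))) 
(.lf (nat_lit 582253) (.g (nat_lit 2103) (.e (nat_lit 344118) (nat_lit 21) (.e (nat_lit 516120) (nat_lit 1) (.e (nat_lit 164183) (nat_lit 154) (.e (nat_lit 57373) (nat_lit 2) (.e (nat_lit 90162) (nat_lit 12) .nil))))) (.g (nat_lit 0) (.e (nat_lit 380999) (nat_lit 0) .nil) .nil)))) (.nd (nat_lit 9) 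
(.lf (nat_lit 581997) (.g (nat_lit 1929) (.e (nat_lit 344100) (nat_lit 18) (.e (nat_lit 7270) (nat_lit 385) (.e (nat_lit 122919) (nat_lit 15) (.e (nat_lit 360450) (nat_lit 0) (.e (nat_lit 7263) (nat_lit 384) .nil))))) (.g (nat_lit 0) (.e (nat_lit 380540) (nat_lit 0) .nil) .nil))) 
(.lf (nat_lit 582509) (.g (nat_lit 1689) (.e (nat_lit 344128) (nat_lit 26) (.e (nat_lit 557090) (nat_lit 12) (.e (nat_lit 164020) (nat_lit 45) (.e (nat_lit 696344) (nat_lit 8) .nil)))) (.g (nat_lit 0) (.e (nat_lit 381391) (nat_lit 0) .nil) .nil))))) (.nd (nat_lit 8) (.nd (nat_lit 9) 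
(.lf (nat_lit 581869) (.g (nat_lit 1595) (.e (nat_lit 344069) (nat_lit 0) (.e (nat_lit 3090) (nat_lit 191) (.e (nat_lit 483350) (nat_lit 17) (.e (nat_lit 6145) (nat_lit 332) .nil)))) (.g (nat_lit 0) (.e (nat_lit 379846) (nat_lit 0) .nil) .nil))) 
(.lf (nat_lit 582381) (.g (nat_lit 2022) (.e (nat_lit 344119) (nat_lit 21) (.e (nat_lit 516182) (nat_lit 15) (.e (nat_lit 475198) (nat_lit 40) (.e (nat_lit 704589) (nat_lit 3) (.e (nat_lit 163976) (nat_lit 30) (.e (nat_lit 573481) (nat_lit 13) (.e (nat_lit 65613) (nat_lit 10) .nil))))))) (.g (nat_lit 1) (.e (nat_lit 381162) (nat_lit 0) .nil) .nil)))) (.nd (nat_lit 9) 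
(.lf (nat_lit 582125) (.g (nat_lit 3272) (.e (nat_lit 344117) (nat_lit 21) (.e (nat_lit 516139) (nat_lit 7) (.e (nat_lit 409645) (nat_lit 18) (.e (nat_lit 303112) (nat_lit 0) (.e (nat_lit 3252) (nat_lit 197) (.e (nat_lit 532536) (nat_lit 9) (.e (nat_lit 336163) (nat_lit 10) .nil))))))) (.g (nat_lit 1) (.e (nat_lit 380817) (nat_lit 0) .nil) .nil))) 
(.lf (nat_lit 582637) (.g (nat_lit 2645) (.e (nat_lit 344130) (nat_lit 26) (.e (nat_lit 557103) (nat_lit 14) (.e (nat_lit 180250) (nat_lit 10) (.e (nat_lit 573474) (nat_lit 12) (.e (nat_lit 57508) (nat_lit 39) (.e (nat_lit 647175) (nat_lit 0) (.e (nat_lit 2684) (nat_lit 168) (.e (nat_lit 204863) (nat_lit 27) .nil)))))))) (.g (nat_lit 1) (.e (nat_lit 381586) (nat_lit 0) .nil) .nil)))))))) 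
(.nd (nat_lit 5) (.nd (nat_lit 6) (.nd (nat_lit 7) (.nd (nat_lit 8) (.nd (nat_lit 9) 
(.lf (nat_lit 581661) (.g (nat_lit 1840) (.e (nat_lit 336456) (nat_lit 34) (.e (nat_lit 483365) (nat_lit 18) (.e (nat_lit 57853) (nat_lit 252) (.e (nat_lit 57371) (nat_lit 2) (.e (nat_lit 90160) (nat_lit 11) .nil))))) (.g (nat_lit 0) (.e (nat_lit 379360) (nat_lit 0) .nil) .nil))) 
(.lf (nat_lit 582173) (.g (nat_lit 5883) (.e (nat_lit 344117) (nat_lit 21) (.e (nat_lit 516139) (nat_lit 7) (.e (nat_lit 409649) (nat_lit 18) (.e (nat_lit 303117) (nat_lit 2) (.e (nat_lit 196666) (nat_lit 13) (.e (nat_lit 65617) (nat_lit 10) .nil)))))) (.g (nat_lit 1) (.e (nat_lit 380865) (nat_lit 0) .nil) .nil)))) (.nd (nat_lit 9) 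
(.lf (nat_lit 581917) (.g (nat_lit 808) (.e (nat_lit 344069) (nat_lit 0) (.e (nat_lit 3090) (nat_lit 191) (.e (nat_lit 483374) (nat_lit 22) (.e (nat_lit 327705) (nat_lit 10) .nil)))) (.g (nat_lit 0) (.e (nat_lit 379907) (nat_lit 0) .nil) .nil))) 
(.lf (nat_lit 582429) (.g (nat_lit 1880) (.e (nat_lit 344138) (nat_lit 29) (.e (nat_lit 581653) (nat_lit 6) (.e (nat_lit 188427) (nat_lit 20) (.e (nat_lit 3572) (nat_lit 222) (.e (nat_lit 737300) (nat_lit 7) (.e (nat_lit 286754) (nat_lit 10) .nil)))))) (.g (nat_lit 1) (.e (nat_lit 381294) (nat_lit 0) .nil) .nil))))) (.nd (nat_lit 8) (.nd (nat_lit 9) 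
(.lf (nat_lit 581789) (.g (nat_lit 2261) (.e (nat_lit 344068) (nat_lit 0) (.e (nat_lit 3090) (nat_lit 191) (.e (nat_lit 483371) (nat_lit 21) (.e (nat_lit 319538) (nat_lit 19) (.e (nat_lit 311357) (nat_lit 28) .nil))))) (.g (nat_lit 1) (.e (nat_lit 379681) (nat_lit 0) .nil) .nil))) 
(.lf (nat_lit 582301) (.g (nat_lit 1439) (.e (nat_lit 344119) (nat_lit 21) (.e (nat_lit 516139) (nat_lit 7) (.e (nat_lit 409616) (nat_lit 10) (.e (nat_lit 5763) (nat_lit 315) .nil)))) (.g (nat_lit 0) (.e (nat_lit 381071) (nat_lit 0) .nil) .nil)))) (.nd (nat_lit 9) 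
(.lf (nat_lit 582045) (.g (nat_lit 4053) (.e (nat_lit 344117) (nat_lit 21) (.e (nat_lit 516106) (nat_lit 0) (.e (nat_lit 3721) (nat_lit 227) (.e (nat_lit 778474) (nat_lit 12) (.e (nat_lit 163976) (nat_lit 30) (.e (nat_lit 573474) (nat_lit 12) (.e (nat_lit 57528) (nat_lit 46) (.e (nat_lit 704514) (nat_lit 0) (.e (nat_lit 2685) (nat_lit 168) (.e (nat_lit 204862) (nat_lit 27) .nil)))))))))) (.g (nat_lit 1) (.e (nat_lit 380695) (nat_lit 0) .nil) .nil))) 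
(.lf (nat_lit 582557) (.g (nat_lit 3795) (.e (nat_lit 344129) (nat_lit 26) (.e (nat_lit 557087) (nat_lit 11) (.e (nat_lit 24662) (nat_lit 14) (.e (nat_lit 401463) (nat_lit 15) .nil)))) (.g (nat_lit 0) (.e (nat_lit 381470) (nat_lit 0) .nil) .nil)))))) (.nd (nat_lit 7) (.nd (nat_lit 8) (.nd (nat_lit 9) 
(.lf (nat_lit 581725) (.g (nat_lit 934) (.e (nat_lit 344068) (nat_lit 0) (.e (nat_lit 2854) (nat_lit 184) (.e (nat_lit 426533) (nat_lit 28) (.e (nat_lit 344066) (nat_lit 0) (.e (nat_lit 2941) (nat_lit 184) (.e (nat_lit 426532) (nat_lit 28) .nil)))))) (.g (nat_lit 1) (.e (nat_lit 379551) (nat_lit 0) .nil) .nil))) 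
(.lf (nat_lit 582237) (.g (nat_lit 629) (.e (nat_lit 344118) (nat_lit 21) (.e (nat_lit 516115) (nat_lit 1) (.e (nat_lit 164182) (nat_lit 154) .nil))) (.g (nat_lit 0) (.e (nat_lit 380965) (nat_lit 0) .nil) .nil)))) (.nd (nat_lit 9) 
(.lf (nat_lit 581981) (.g (nat_lit 5198) (.e (nat_lit 344097) (nat_lit 18) (.e (nat_lit 4717) (nat_lit 275) (.e (nat_lit 2610) (nat_lit 163) (.e (nat_lit 163979) (nat_lit 30) (.e (nat_lit 573482) (nat_lit 13) (.e (nat_lit 65619) (nat_lit 10) (.e (nat_lit 344129) (nat_lit 26) (.e (nat_lit 557066) (nat_lit 9) (.e (nat_lit 307) (nat_lit 22) .nil))))))))) (.g (nat_lit 1) (.e (nat_lit 380471) (nat_lit 0) .nil) .nil))) 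
(.lf (nat_lit 582493) (.g (nat_lit 2934) (.e (nat_lit 344127) (nat_lit 26) (.e (nat_lit 557090) (nat_lit 12) (.e (nat_lit 163850) (nat_lit 0) (.e (nat_lit 6425) (nat_lit 342) (.e (nat_lit 229406) (nat_lit 12) .nil))))) (.g (nat_lit 0) (.e (nat_lit 381370) (nat_lit 0) .nil) .nil))))) (.nd (nat_lit 8) (.nd (nat_lit 9) 
(.lf (nat_lit 581853) (.g (nat_lit 2231) (.e (nat_lit 344069) (nat_lit 0) (.e (nat_lit 3090) (nat_lit 191) (.e (nat_lit 483342) (nat_lit 17) (.e (nat_lit 6113) (nat_lit 332) (.e (nat_lit 1376) (nat_lit 104) (.e (nat_lit 303154) (nat_lit 28) .nil)))))) (.g (nat_lit 1) (.e (nat_lit 379829) (nat_lit 0) .nil) .nil))) 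
(.lf (nat_lit 582365) (.g (nat_lit 656) (.e (nat_lit 344119) (nat_lit 21) (.e (nat_lit 516139) (nat_lit 7) (.e (nat_lit 409651) (nat_lit 19) .nil))) (.g (nat_lit 0) (.e (nat_lit 381146) (nat_lit 0) .nil) .nil)))) (.nd (nat_lit 9) 
(.lf (nat_lit 582109) (.g (nat_lit 4621) (.e (nat_lit 344117) (nat_lit 21) (.e (nat_lit 516138) (nat_lit 7) (.e (nat_lit 409648) (nat_lit 18) (.e (nat_lit 303116) (nat_lit 2) (.e (nat_lit 196666) (nat_lit 13) (.e (nat_lit 65610) (nat_lit 10) .nil)))))) (.g (nat_lit 1) (.e (nat_lit 380798) (nat_lit 0) .nil) .nil))) 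
(.lf (nat_lit 582621) (.g (nat_lit 3217) (.e (nat_lit 344130) (nat_lit 26) (.e (nat_lit 557097) (nat_lit 13) (.e (nat_lit 172133) (nat_lit 15) (.e (nat_lit 1800) (nat_lit 119) (.e (nat_lit 516119) (nat_lit 1) (.e (nat_lit 164345) (nat_lit 240) (.e (nat_lit 2426) (nat_lit 157) (.e (nat_lit 2680) (nat_lit 168) (.e (nat_lit 204864) (nat_lit 27) .nil))))))))) (.g (nat_lit 1) (.e (nat_lit 381570) (nat_lit 0) .nil) .nil))))))) 
(.nd (nat_lit 6) (.nd (nat_lit 7) (.nd (nat_lit 8) (.nd (nat_lit 9) 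
(.lf (nat_lit 581693) (.g (nat_lit 1645) (.e (nat_lit 343808) (nat_lit 35) (.e (nat_lit 491558) (nat_lit 10) (.e (nat_lit 344130) (nat_lit 26) (.e (nat_lit 557119) (nat_lit 18) (.e (nat_lit 2798) (nat_lit 180) .nil))))) (.g (nat_lit 0) (.e (nat_lit 379461) (nat_lit 0) .nil) .nil))) 
(.lf (nat_lit 582205) (.g (nat_lit 4724) (.e (nat_lit 344117) (nat_lit 21) (.e (nat_lit 516160) (nat_lit 10) (.e (nat_lit 434264) (nat_lit 34) (.e (nat_lit 622625) (nat_lit 13) (.e (nat_lit 2663) (nat_lit 167) (.e (nat_lit 196666) (nat_lit 13) (.e (nat_lit 65610) (nat_lit 10) .nil))))))) (.g (nat_lit 1) (.e (nat_lit 380902) (nat_lit 0) .nil) .nil)))) (.nd (nat_lit 9) 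
(.lf (nat_lit 581949) (.g (nat_lit 1192) (.e (nat_lit 352000) (nat_lit 7) (.e (nat_lit 237636) (nat_lit 27) (.e (nat_lit 336076) (nat_lit 9) (.e (nat_lit 336263) (nat_lit 15) (.e (nat_lit 3748) (nat_lit 228) .nil))))) (.g (nat_lit 0) (.e (nat_lit 380194) (nat_lit 0) .nil) .nil))) 
(.lf (nat_lit 582461) (.g (nat_lit 2166) (.e (nat_lit 344138) (nat_lit 29) (.e (nat_lit 581653) (nat_lit 6) (.e (nat_lit 188438) (nat_lit 20) (.e (nat_lit 3579) (nat_lit 223) (.e (nat_lit 745491) (nat_lit 4) (.e (nat_lit 65611) (nat_lit 10) .nil)))))) (.g (nat_lit 1) (.e (nat_lit 381327) (nat_lit 0) .nil) .nil))))) (.nd (nat_lit 8) (.nd (nat_lit 9) 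
(.lf (nat_lit 581821) (.g (nat_lit 405) (.e (nat_lit 344068) (nat_lit 0) (.e (nat_lit 3090) (nat_lit 191) (.e (nat_lit 483380) (nat_lit 23) .nil))) (.g (nat_lit 0) (.e (nat_lit 379725) (nat_lit 0) .nil) .nil))) 
(.lf (nat_lit 582333) (.g (nat_lit 3334) (.e (nat_lit 344119) (nat_lit 21) (.e (nat_lit 516139) (nat_lit 7) (.e (nat_lit 409647) (nat_lit 18) (.e (nat_lit 303118) (nat_lit 3) (.e (nat_lit 204855) (nat_lit 26) (.e (nat_lit 336173) (nat_lit 10) .nil)))))) (.g (nat_lit 1) (.e (nat_lit 381108) (nat_lit 0) .nil) .nil)))) (.nd (nat_lit 9) 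
(.lf (nat_lit 582077) (.g (nat_lit 4168) (.e (nat_lit 344117) (nat_lit 21) (.e (nat_lit 516122) (nat_lit 2) (.e (nat_lit 213035) (nat_lit 12) (.e (nat_lit 163979) (nat_lit 30) (.e (nat_lit 573474) (nat_lit 12) (.e (nat_lit 57528) (nat_lit 46) (.e (nat_lit 704514) (nat_lit 0) (.e (nat_lit 2685) (nat_lit 168) (.e (nat_lit 204862) (nat_lit 27) .nil))))))))) (.g (nat_lit 1) (.e (nat_lit 380759) (nat_lit 0) .nil) .nil))) 
(.lf (nat_lit 582589) (.g (nat_lit 3249) (.e (nat_lit 344129) (nat_lit 26) (.e (nat_lit 557103) (nat_lit 14) (.e (nat_lit 180250) (nat_lit 10) (.e (nat_lit 573474) (nat_lit 12) (.e (nat_lit 57508) (nat_lit 39) (.e (nat_lit 647170) (nat_lit 0) (.e (nat_lit 2685) (nat_lit 168) (.e (nat_lit 204862) (nat_lit 27) .nil)))))))) (.g (nat_lit 1) (.e (nat_lit 381507) (nat_lit 0) .nil) .nil)))))) 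
(.nd (nat_lit 7) (.nd (nat_lit 8) (.nd (nat_lit 9) 
(.lf (nat_lit 581757) (.g (nat_lit 1424) (.e (nat_lit 344068) (nat_lit 0) (.e (nat_lit 3090) (nat_lit 191) (.e (nat_lit 483350) (nat_lit 17) (.e (nat_lit 6097) (nat_lit 332) .nil)))) (.g (nat_lit 0) (.e (nat_lit 379648) (nat_lit 0) .nil) .nil))) 
(.lf (nat_lit 582269) (.g (nat_lit 2638) (.e (nat_lit 344118) (nat_lit 21) (.e (nat_lit 516142) (nat_lit 8) (.e (nat_lit 417828) (nat_lit 18) (.e (nat_lit 303119) (nat_lit 3) (.e (nat_lit 204855) (nat_lit 26) .nil))))) (.g (nat_lit 0) (.e (nat_lit 381026) (nat_lit 0) .nil) .nil)))) (.nd (nat_lit 9) 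
(.lf (nat_lit 582013) (.g (nat_lit 2857) (.e (nat_lit 344115) (nat_lit 20) (.e (nat_lit 507908) (nat_lit 0) (.e (nat_lit 5405) (nat_lit 302) (.e (nat_lit 65636) (nat_lit 15) (.e (nat_lit 3302) (nat_lit 202) (.e (nat_lit 573485) (nat_lit 13) (.e (nat_lit 65619) (nat_lit 10) .nil))))))) (.g (nat_lit 1) (.e (nat_lit 380633) (nat_lit 0) .nil) .nil))) 
(.lf (nat_lit 582525) (.g (nat_lit 4124) (.e (nat_lit 344129) (nat_lit 26) (.e (nat_lit 557067) (nat_lit 9) (.e (nat_lit 2878) (nat_lit 184) (.e (nat_lit 426125) (nat_lit 2) (.e (nat_lit 196697) (nat_lit 19) (.e (nat_lit 57606) (nat_lit 107) (.e (nat_lit 712448) (nat_lit 0) (.e (nat_lit 2685) (nat_lit 168) (.e (nat_lit 204862) (nat_lit 27) .nil))))))))) (.g (nat_lit 1) (.e (nat_lit 381434) (nat_lit 0) .nil) .nil))))) 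
(.nd (nat_lit 8) (.nd (nat_lit 9) 
(.lf (nat_lit 581885) (.g (nat_lit 1203) (.e (nat_lit 344069) (nat_lit 0) (.e (nat_lit 3090) (nat_lit 191) (.e (nat_lit 483354) (nat_lit 17) (.e (nat_lit 6092) (nat_lit 332) (.e (nat_lit 1376) (nat_lit 104) (.e (nat_lit 303154) (nat_lit 28) .nil)))))) (.g (nat_lit 1) (.e (nat_lit 379862) (nat_lit 0) .nil) .nil))) 
(.lf (nat_lit 582397) (.g (nat_lit 4558) (.e (nat_lit 344120) (nat_lit 21) (.e (nat_lit 516139) (nat_lit 7) (.e (nat_lit 409649) (nat_lit 18) (.e (nat_lit 303117) (nat_lit 2) (.e (nat_lit 196666) (nat_lit 13) (.e (nat_lit 65617) (nat_lit 10) .nil)))))) (.g (nat_lit 1) (.e (nat_lit 381189) (nat_lit 0) .nil) .nil)))) (.nd (nat_lit 9) 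
(.lf (nat_lit 582141) (.g (nat_lit 2029) (.e (nat_lit 344117) (nat_lit 21) (.e (nat_lit 516139) (nat_lit 7) (.e (nat_lit 409646) (nat_lit 18) (.e (nat_lit 303112) (nat_lit 0) (.e (nat_lit 3252) (nat_lit 197) .nil))))) (.g (nat_lit 0) (.e (nat_lit 380833) (nat_lit 0) .nil) .nil))) 
(.lf (nat_lit 582653) (.g (nat_lit 2887) (.e (nat_lit 344130) (nat_lit 26) (.e (nat_lit 557104) (nat_lit 14) (.e (nat_lit 180252) (nat_lit 10) (.e (nat_lit 573474) (nat_lit 12) (.e (nat_lit 57509) (nat_lit 39) (.e (nat_lit 655104) (nat_lit 0) (.e (nat_lit 2684) (nat_lit 168) (.e (nat_lit 204863) (nat_lit 27) .nil)))))))) (.g (nat_lit 1) (.e (nat_lit 381602) (nat_lit 0) .nil) .nil))))))))))) 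
(.nd (nat_lit 2) (.nd (nat_lit 3) (.nd (nat_lit 4) (.nd (nat_lit 5) (.nd (nat_lit 6) 
(.nd (nat_lit 7) (.nd (nat_lit 8) (.nd (nat_lit 9) 
(.lf (nat_lit 581635) (.g (nat_lit 2667) (.e (nat_lit 336456) (nat_lit 34) (.e (nat_lit 483364) (nat_lit 18) (.e (nat_lit 57926) (nat_lit 282) (.e (nat_lit 163868) (nat_lit 2) (.e (nat_lit 196681) (nat_lit 17) (.e (nat_lit 131105) (nat_lit 9) .nil)))))) (.g (nat_lit 1) (.e (nat_lit 379332) (nat_lit 0) .nil) .nil))) 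
(.lf (nat_lit 582147) (.g (nat_lit 3060) (.e (nat_lit 344117) (nat_lit 21) (.e (nat_lit 516139) (nat_lit 7) (.e (nat_lit 409646) (nat_lit 18) (.e (nat_lit 303118) (nat_lit 3) (.e (nat_lit 204855) (nat_lit 26) (.e (nat_lit 336178) (nat_lit 10) .nil)))))) (.g (nat_lit 1) (.e (nat_lit 380839) (nat_lit 0) .nil) .nil)))) (.nd (nat_lit 9) 
(.lf (nat_lit 581891) (.g (nat_lit 2521) (.e (nat_lit 344069) (nat_lit 0) (.e (nat_lit 3090) (nat_lit 191) (.e (nat_lit 483372) (nat_lit 21) (.e (nat_lit 319497) (nat_lit 10) .nil)))) (.g (nat_lit 0) (.e (nat_lit 379869) (nat_lit 0) .nil) .nil))) 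
(.lf (nat_lit 582403) (.g (nat_lit 2428) (.e (nat_lit 344120) (nat_lit 21) (.e (nat_lit 516179) (nat_lit 15) (.e (nat_lit 475199) (nat_lit 40) (.e (nat_lit 704589) (nat_lit 3) (.e (nat_lit 163979) (nat_lit 30) (.e (nat_lit 573482) (nat_lit 13) (.e (nat_lit 65613) (nat_lit 10) .nil))))))) (.g (nat_lit 1) (.e (nat_lit 381195) (nat_lit 0) .nil) .nil))))) (.nd (nat_lit 8) (.nd (nat_lit 9) 
(.lf (nat_lit 581763) (.g (nat_lit 2170) (.e (nat_lit 344068) (nat_lit 0) (.e (nat_lit 3090) (nat_lit 191) (.e (nat_lit 483350) (nat_lit 17) (.e (nat_lit 6113) (nat_lit 332) (.e (nat_lit 1378) (nat_lit 104) .nil))))) (.g (nat_lit 0) (.e (nat_lit 379655) (nat_lit 0) .nil) .nil))) 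
(.lf (nat_lit 582275) (.g (nat_lit 4537) (.e (nat_lit 344118) (nat_lit 21) (.e (nat_lit 516166) (nat_lit 12) (.e (nat_lit 450587) (nat_lit 10) (.e (nat_lit 573477) (nat_lit 12) (.e (nat_lit 57574) (nat_lit 55) .nil))))) (.g (nat_lit 0) (.e (nat_lit 381032) (nat_lit 0) .nil) .nil)))) (.nd (nat_lit 9) 
(.lf (nat_lit 582019) (.g (nat_lit 810) (.e (nat_lit 344116) (nat_lit 21) (.e (nat_lit 516138) (nat_lit 7) (.e (nat_lit 409646) (nat_lit 18) .nil))) (.g (nat_lit 0) (.e (nat_lit 380662) (nat_lit 0) .nil) .nil))) 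
(.lf (nat_lit 582531) (.g (nat_lit 4168) (.e (nat_lit 344129) (nat_lit 26) (.e (nat_lit 557085) (nat_lit 11) (.e (nat_lit 24665) (nat_lit 14) (.e (nat_lit 401423) (nat_lit 2) (.e (nat_lit 196666) (nat_lit 13) (.e (nat_lit 65610) (nat_lit 10) .nil)))))) (.g (nat_lit 1) (.e (nat_lit 381444) (nat_lit 0) .nil) .nil)))))) (.nd (nat_lit 7) (.nd (nat_lit 8) (.nd (nat_lit 9) 
(.lf (nat_lit 581699) (.g (nat_lit 1432) (.e (nat_lit 344066) (nat_lit 0) (.e (nat_lit 2936) (nat_lit 184) (.e (nat_lit 426163) (nat_lit 6) (.e (nat_lit 253991) (nat_lit 11) (.e (nat_lit 16431) (nat_lit 9) .nil))))) (.g (nat_lit 0) (.e (nat_lit 379485) (nat_lit 0) .nil) .nil))) 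
(.lf (nat_lit 582211) (.g (nat_lit 3575) (.e (nat_lit 344117) (nat_lit 21) (.e (nat_lit 516179) (nat_lit 15) (.e (nat_lit 475198) (nat_lit 40) (.e (nat_lit 704590) (nat_lit 3) (.e (nat_lit 163975) (nat_lit 30) (.e (nat_lit 573481) (nat_lit 13) (.e (nat_lit 65609) (nat_lit 10) .nil))))))) (.g (nat_lit 1) (.e (nat_lit 380912) (nat_lit 0) .nil) .nil)))) (.nd (nat_lit 9) 
(.lf (nat_lit 581955) (.g (nat_lit 182) (.e (nat_lit 344075) (nat_lit 13) (.e (nat_lit 970) (nat_lit 81) (.e (nat_lit 7936) (nat_lit 314) .nil))) (.g (nat_lit 0) (.e (nat_lit 380214) (nat_lit 0) .nil) .nil))) 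
(.lf (nat_lit 582467) (.g (nat_lit 2707) (.e (nat_lit 344138) (nat_lit 29) (.e (nat_lit 581653) (nat_lit 6) (.e (nat_lit 188439) (nat_lit 20) (.e (nat_lit 3579) (nat_lit 223) (.e (nat_lit 745491) (nat_lit 4) (.e (nat_lit 65620) (nat_lit 10) .nil)))))) (.g (nat_lit 1) (.e (nat_lit 381333) (nat_lit 0) .nil) .nil))))) (.nd (nat_lit 8) (.nd (nat_lit 9) 
(.lf (nat_lit 581827) (.g (nat_lit 2418) (.e (nat_lit 344068) (nat_lit 0) (.e (nat_lit 3090) (nat_lit 191) (.e (nat_lit 483410) (nat_lit 27) (.e (nat_lit 401435) (nat_lit 9) (.e (nat_lit 426533) (nat_lit 28) .nil))))) (.g (nat_lit 0) (.e (nat_lit 379749) (nat_lit 0) .nil) .nil))) 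
(.lf (nat_lit 582339) (.g (nat_lit 2605) (.e (nat_lit 344119) (nat_lit 21) (.e (nat_lit 516139) (nat_lit 7) (.e (nat_lit 409648) (nat_lit 18) (.e (nat_lit 303116) (nat_lit 2) (.e (nat_lit 196666) (nat_lit 13) (.e (nat_lit 65614) (nat_lit 10) .nil)))))) (.g (nat_lit 1) (.e (nat_lit 381115) (nat_lit 0) .nil) .nil)))) (.nd (nat_lit 9) 
(.lf (nat_lit 582083) (.g (nat_lit 1957) (.e (nat_lit 344117) (nat_lit 21) (.e (nat_lit 516129) (nat_lit 3) (.e (nat_lit 221210) (nat_lit 22) (.e (nat_lit 196661) (nat_lit 12) (.e (nat_lit 57511) (nat_lit 39) .nil))))) (.g (nat_lit 0) (.e (nat_lit 380765) (nat_lit 0) .nil) .nil))) 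
(.lf (nat_lit 582595) (.g (nat_lit 2870) (.e (nat_lit 344129) (nat_lit 26) (.e (nat_lit 557104) (nat_lit 14) (.e (nat_lit 180252) (nat_lit 10) (.e (nat_lit 573474) (nat_lit 12) (.e (nat_lit 57355) (nat_lit 0) .nil))))) (.g (nat_lit 0) (.e (nat_lit 381513) (nat_lit 0) .nil) .nil))))))) (.nd (nat_lit 6) (.nd (nat_lit 7) (.nd (nat_lit 8) (.nd (nat_lit 9) 
(.lf (nat_lit 581667) (.g (nat_lit 3823) (.e (nat_lit 336456) (nat_lit 34) (.e (nat_lit 483378) (nat_lit 23) (.e (nat_lit 336324) (nat_lit 18) (.e (nat_lit 204831) (nat_lit 18) (.e (nat_lit 57846) (nat_lit 252) (.e (nat_lit 57407) (nat_lit 12) .nil)))))) (.g (nat_lit 1) (.e (nat_lit 379367) (nat_lit 0) .nil) .nil))) 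
(.lf (nat_lit 582179) (.g (nat_lit 3330) (.e (nat_lit 344117) (nat_lit 21) (.e (nat_lit 516142) (nat_lit 8) (.e (nat_lit 417820) (nat_lit 10) (.e (nat_lit 5626) (nat_lit 312) (.e (nat_lit 2668) (nat_lit 167) (.e (nat_lit 196666) (nat_lit 13) (.e (nat_lit 65617) (nat_lit 10) .nil))))))) (.g (nat_lit 1) (.e (nat_lit 380871) (nat_lit 0) .nil) .nil)))) (.nd (nat_lit 9) 
(.lf (nat_lit 581923) (.g (nat_lit 3279) (.e (nat_lit 344069) (nat_lit 0) (.e (nat_lit 3090) (nat_lit 191) (.e (nat_lit 483410) (nat_lit 27) (.e (nat_lit 401437) (nat_lit 9) (.e (nat_lit 426533) (nat_lit 28) .nil))))) (.g (nat_lit 1) (.e (nat_lit 379921) (nat_lit 0) .nil) .nil))) 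
(.lf (nat_lit 582435) (.g (nat_lit 1610) (.e (nat_lit 344138) (nat_lit 29) (.e (nat_lit 581653) (nat_lit 6) (.e (nat_lit 188428) (nat_lit 20) (.e (nat_lit 3572) (nat_lit 222) (.e (nat_lit 737300) (nat_lit 7) (.e (nat_lit 286754) (nat_lit 10) .nil)))))) (.g (nat_lit 1) (.e (nat_lit 381300) (nat_lit 0) .nil) .nil))))) (.nd (nat_lit 8) (.nd (nat_lit 9) 
(.lf (nat_lit 581795) (.g (nat_lit 1485) (.e (nat_lit 344068) (nat_lit 0) (.e (nat_lit 3090) (nat_lit 191) (.e (nat_lit 483372) (nat_lit 21) (.e (nat_lit 319504) (nat_lit 10) (.e (nat_lit 7936) (nat_lit 312) (.e (nat_lit 7936) (nat_lit 22) .nil)))))) (.g (nat_lit 1) (.e (nat_lit 379692) (nat_lit 0) .nil) .nil))) 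
(.lf (nat_lit 582307) (.g (nat_lit 2484) (.e (nat_lit 344119) (nat_lit 21) (.e (nat_lit 516139) (nat_lit 7) (.e (nat_lit 409644) (nat_lit 18) (.e (nat_lit 303117) (nat_lit 2) (.e (nat_lit 196665) (nat_lit 13) .nil))))) (.g (nat_lit 0) (.e (nat_lit 381081) (nat_lit 0) .nil) .nil)))) (.nd (nat_lit 9) 
(.lf (nat_lit 582051) (.g (nat_lit 5131) (.e (nat_lit 344117) (nat_lit 21) (.e (nat_lit 516106) (nat_lit 0) (.e (nat_lit 7095) (nat_lit 380) (.e (nat_lit 164366) (nat_lit 246) (.e (nat_lit 2664) (nat_lit 167) (.e (nat_lit 196666) (nat_lit 13) (.e (nat_lit 65610) (nat_lit 10) .nil))))))) (.g (nat_lit 1) (.e (nat_lit 380704) (nat_lit 0) .nil) .nil))) 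
(.lf (nat_lit 582563) (.g (nat_lit 425) (.e (nat_lit 344129) (nat_lit 26) (.e (nat_lit 557090) (nat_lit 12) (.e (nat_lit 163850) (nat_lit 0) .nil))) (.g (nat_lit 0) (.e (nat_lit 381479) (nat_lit 0) .nil) .nil)))))) (.nd (nat_lit 7) (.nd (nat_lit 8) (.nd (nat_lit 9) 
(.lf (nat_lit 581731) (.g (nat_lit 2457) (.e (nat_lit 344068) (nat_lit 0) (.e (nat_lit 2856) (nat_lit 184) (.e (nat_lit 426533) (nat_lit 28) (.e (nat_lit 344069) (nat_lit 0) (.e (nat_lit 2854) (nat_lit 184) (.e (nat_lit 426533) (nat_lit 28) .nil)))))) (.g (nat_lit 1) (.e (nat_lit 379564) (nat_lit 0) .nil) .nil))) 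
(.lf (nat_lit 582243) (.g (nat_lit 1222) (.e (nat_lit 344118) (nat_lit 21) (.e (nat_lit 516119) (nat_lit 1) (.e (nat_lit 164179) (nat_lit 154) (.e (nat_lit 57371) (nat_lit 2) .nil)))) (.g (nat_lit 0) (.e (nat_lit 380975) (nat_lit 0) .nil) .nil)))) (.nd (nat_lit 9) 
(.lf (nat_lit 581987) (.g (nat_lit 1920) (.e (nat_lit 344100) (nat_lit 18) (.e (nat_lit 5905) (nat_lit 320) (.e (nat_lit 1209) (nat_lit 89) (.e (nat_lit 73782) (nat_lit 32) .nil)))) (.g (nat_lit 0) (.e (nat_lit 380523) (nat_lit 0) .nil) .nil))) 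
(.lf (nat_lit 582499) (.g (nat_lit 3743) (.e (nat_lit 344127) (nat_lit 26) (.e (nat_lit 557090) (nat_lit 12) (.e (nat_lit 164022) (nat_lit 46) (.e (nat_lit 704629) (nat_lit 9) (.e (nat_lit 375) (nat_lit 32) (.e (nat_lit 426125) (nat_lit 2) (.e (nat_lit 196666) (nat_lit 13) (.e (nat_lit 65617) (nat_lit 10) .nil)))))))) (.g (nat_lit 1) (.e (nat_lit 381377) (nat_lit 0) .nil) .nil))))) 
(.nd (nat_lit 8) (.nd (nat_lit 9) 
(.lf (nat_lit 581859) (.g (nat_lit 336) (.e (nat_lit 344069) (nat_lit 0) (.e (nat_lit 3090) (nat_lit 191) (.e (nat_lit 483350) (nat_lit 17) .nil))) (.g (nat_lit 0) (.e (nat_lit 379835) (nat_lit 0) .nil) .nil))) 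
(.lf (nat_lit 582371) (.g (nat_lit 3185) (.e (nat_lit 344119) (nat_lit 21) (.e (nat_lit 516179) (nat_lit 15) (.e (nat_lit 475198) (nat_lit 40) (.e (nat_lit 704589) (nat_lit 3) (.e (nat_lit 163975) (nat_lit 30) (.e (nat_lit 573481) (nat_lit 13) (.e (nat_lit 65613) (nat_lit 10) .nil))))))) (.g (nat_lit 1) (.e (nat_lit 381152) (nat_lit 0) .nil) .nil)))) (.nd (nat_lit 9) 
(.lf (nat_lit 582115) (.g (nat_lit 5134) (.e (nat_lit 344117) (nat_lit 21) (.e (nat_lit 516139) (nat_lit 7) (.e (nat_lit 409643) (nat_lit 18) (.e (nat_lit 303117) (nat_lit 2) (.e (nat_lit 196666) (nat_lit 13) (.e (nat_lit 65617) (nat_lit 10) .nil)))))) (.g (nat_lit 1) (.e (nat_lit 380807) (nat_lit 0) .nil) .nil))) 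
(.lf (nat_lit 582627) (.g (nat_lit 2328) (.e (nat_lit 344130) (nat_lit 26) (.e (nat_lit 557103) (nat_lit 14) (.e (nat_lit 180250) (nat_lit 10) (.e (nat_lit 573474) (nat_lit 12) (.e (nat_lit 57345) (nat_lit 0) .nil))))) (.g (nat_lit 0) (.e (nat_lit 381576) (nat_lit 0) .nil) .nil)))))))) (.nd (nat_lit 5) (.nd (nat_lit 6) (.nd (nat_lit 7) (.nd (nat_lit 8) (.nd (nat_lit 9) 
(.lf (nat_lit 581651) (.g (nat_lit 3264) (.e (nat_lit 336456) (nat_lit 34) (.e (nat_lit 483365) (nat_lit 18) (.e (nat_lit 57847) (nat_lit 252) (.e (nat_lit 57372) (nat_lit 2) (.e (nat_lit 90160) (nat_lit 11) (.e (nat_lit 24624) (nat_lit 9) .nil)))))) (.g (nat_lit 1) (.e (nat_lit 379350) (nat_lit 0) .nil) .nil))) 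
(.lf (nat_lit 582163) (.g (nat_lit 5116) (.e (nat_lit 344117) (nat_lit 21) (.e (nat_lit 516139) (nat_lit 7) (.e (nat_lit 409648) (nat_lit 18) (.e (nat_lit 303116) (nat_lit 2) (.e (nat_lit 196666) (nat_lit 13) (.e (nat_lit 65617) (nat_lit 10) .nil)))))) (.g (nat_lit 1) (.e (nat_lit 380855) (nat_lit 0) .nil) .nil)))) (.nd (nat_lit 9) 
(.lf (nat_lit 581907) (.g (nat_lit 1452) (.e (nat_lit 344069) (nat_lit 0) (.e (nat_lit 3090) (nat_lit 191) (.e (nat_lit 483372) (nat_lit 21) (.e (nat_lit 319505) (nat_lit 10) (.e (nat_lit 7936) (nat_lit 312) (.e (nat_lit 7936) (nat_lit 22) .nil)))))) (.g (nat_lit 1) (.e (nat_lit 379892) (nat_lit 0) .nil) .nil))) 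
(.lf (nat_lit 582419) (.g (nat_lit 2090) (.e (nat_lit 344138) (nat_lit 29) (.e (nat_lit 581651) (nat_lit 4) (.e (nat_lit 172106) (nat_lit 10) (.e (nat_lit 434295) (nat_lit 49) (.e (nat_lit 745491) (nat_lit 4) (.e (nat_lit 65619) (nat_lit 10) .nil)))))) (.g (nat_lit 1) (.e (nat_lit 381277) (nat_lit 0) .nil) .nil))))) (.nd (nat_lit 8) (.nd (nat_lit 9) 
(.lf (nat_lit 581779) (.g (nat_lit 463) (.e (nat_lit 344068) (nat_lit 0) (.e (nat_lit 3090) (nat_lit 191) (.e (nat_lit 483354) (nat_lit 17) .nil))) (.g (nat_lit 0) (.e (nat_lit 379671) (nat_lit 0) .nil) .nil))) 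
(.lf (nat_lit 582291) (.g (nat_lit 928) (.e (nat_lit 344119) (nat_lit 21) (.e (nat_lit 516117) (nat_lit 1) (.e (nat_lit 164226) (nat_lit 181) .nil))) (.g (nat_lit 0) (.e (nat_lit 381053) (nat_lit 0) .nil) .nil)))) (.nd (nat_lit 9) 
(.lf (nat_lit 582035) (.g (nat_lit 2281) (.e (nat_lit 344116) (nat_lit 21) (.e (nat_lit 516182) (nat_lit 15) (.e (nat_lit 475198) (nat_lit 40) (.e (nat_lit 704589) (nat_lit 3) (.e (nat_lit 163975) (nat_lit 30) (.e (nat_lit 573481) (nat_lit 13) (.e (nat_lit 65609) (nat_lit 10) .nil))))))) (.g (nat_lit 1) (.e (nat_lit 380680) (nat_lit 0) .nil) .nil))) 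
(.lf (nat_lit 582547) (.g (nat_lit 4090) (.e (nat_lit 344129) (nat_lit 26) (.e (nat_lit 557087) (nat_lit 11) (.e (nat_lit 24632) (nat_lit 9) (.e (nat_lit 336267) (nat_lit 15) (.e (nat_lit 3304) (nat_lit 202) (.e (nat_lit 573482) (nat_lit 13) (.e (nat_lit 65619) (nat_lit 10) .nil))))))) (.g (nat_lit 1) (.e (nat_lit 381460) (nat_lit 0) .nil) .nil)))))) 
(.nd (nat_lit 7) (.nd (nat_lit 8) (.nd (nat_lit 9) 
(.lf (nat_lit 581715) (.g (nat_lit 915) (.e (nat_lit 344067) (nat_lit 0) (.e (nat_lit 2939) (nat_lit 184) (.e (nat_lit 426532) (nat_lit 28) (.e (nat_lit 344069) (nat_lit 0) (.e (nat_lit 2854) (nat_lit 184) (.e (nat_lit 426533) (nat_lit 28) .nil)))))) (.g (nat_lit 1) (.e (nat_lit 379517) (nat_lit 0) .nil) .nil))) 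
(.lf (nat_lit 582227) (.g (nat_lit 3763) (.e (nat_lit 344117) (nat_lit 21) (.e (nat_lit 516195) (nat_lit 26) (.e (nat_lit 335996) (nat_lit 1) (.e (nat_lit 57930) (nat_lit 282) (.e (nat_lit 163941) (nat_lit 19) (.e (nat_lit 483394) (nat_lit 24) .nil)))))) (.g (nat_lit 1) (.e (nat_lit 380942) (nat_lit 0) .nil) .nil)))) (.nd (nat_lit 9) 
(.lf (nat_lit 581971) (.g (nat_lit 1504) (.e (nat_lit 344096) (nat_lit 18) (.e (nat_lit 7265) (nat_lit 384) (.e (nat_lit 57406) (nat_lit 12) (.e (nat_lit 336136) (nat_lit 9) .nil)))) (.g (nat_lit 0) (.e (nat_lit 380452) (nat_lit 0) .nil) .nil))) 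
(.lf (nat_lit 582483) (.g (nat_lit 2525) (.e (nat_lit 344138) (nat_lit 29) (.e (nat_lit 581653) (nat_lit 6) (.e (nat_lit 188441) (nat_lit 20) (.e (nat_lit 3579) (nat_lit 223) (.e (nat_lit 745491) (nat_lit 4) (.e (nat_lit 65620) (nat_lit 10) .nil)))))) (.g (nat_lit 1) (.e (nat_lit 381349) (nat_lit 0) .nil) .nil))))) (.nd (nat_lit 8) (.nd (nat_lit 9) 
(.lf (nat_lit 581843) (.g (nat_lit 1808) (.e (nat_lit 344069) (nat_lit 0) (.e (nat_lit 2857) (nat_lit 184) (.e (nat_lit 426530) (nat_lit 27) (.e (nat_lit 335874) (nat_lit 0) (.e (nat_lit 6719) (nat_lit 361) (.e (nat_lit 179968) (nat_lit 28) .nil)))))) (.g (nat_lit 1) (.e (nat_lit 379791) (nat_lit 0) .nil) .nil))) 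
(.lf (nat_lit 582355) (.g (nat_lit 3024) (.e (nat_lit 344119) (nat_lit 21) (.e (nat_lit 516139) (nat_lit 7) (.e (nat_lit 409649) (nat_lit 18) (.e (nat_lit 303118) (nat_lit 3) (.e (nat_lit 204854) (nat_lit 26) (.e (nat_lit 336160) (nat_lit 10) .nil)))))) (.g (nat_lit 1) (.e (nat_lit 381132) (nat_lit 0) .nil) .nil)))) (.nd (nat_lit 9) 
(.lf (nat_lit 582099) (.g (nat_lit 2605) (.e (nat_lit 344117) (nat_lit 21) (.e (nat_lit 516138) (nat_lit 7) (.e (nat_lit 409645) (nat_lit 18) (.e (nat_lit 303117) (nat_lit 2) (.e (nat_lit 196665) (nat_lit 13) (.e (nat_lit 65618) (nat_lit 10) .nil)))))) (.g (nat_lit 1) (.e (nat_lit 380786) (nat_lit 0) .nil) .nil))) 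
(.lf (nat_lit 582611) (.g (nat_lit 2690) (.e (nat_lit 344130) (nat_lit 26) (.e (nat_lit 557090) (nat_lit 12) (.e (nat_lit 163850) (nat_lit 0) (.e (nat_lit 6425) (nat_lit 342) (.e (nat_lit 229401) (nat_lit 12) .nil))))) (.g (nat_lit 0) (.e (nat_lit 381544) (nat_lit 0) .nil) .nil))))))) (.nd (nat_lit 6) (.nd (nat_lit 7) (.nd (nat_lit 8) (.nd (nat_lit 9) 
(.lf (nat_lit 581683) (.g (nat_lit 2286) (.e (nat_lit 336456) (nat_lit 34) (.e (nat_lit 483395) (nat_lit 24) (.e (nat_lit 344117) (nat_lit 21) (.e (nat_lit 516116) (nat_lit 1) (.e (nat_lit 164184) (nat_lit 155) (.e (nat_lit 122903) (nat_lit 12) .nil)))))) (.g (nat_lit 1) (.e (nat_lit 379398) (nat_lit 0) .nil) .nil))) 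
(.lf (nat_lit 582195) (.g (nat_lit 5706) (.e (nat_lit 344117) (nat_lit 21) (.e (nat_lit 516151) (nat_lit 9) (.e (nat_lit 426412) (nat_lit 15) (.e (nat_lit 2175) (nat_lit 143) (.e (nat_lit 712722) (nat_lit 15) (.e (nat_lit 3302) (nat_lit 202) (.e (nat_lit 573484) (nat_lit 13) (.e (nat_lit 65610) (nat_lit 10) .nil)))))))) (.g (nat_lit 1) (.e (nat_lit 380892) (nat_lit 0) .nil) .nil)))) 
(.nd (nat_lit 9) 
(.lf (nat_lit 581939) (.g (nat_lit 503) (.e (nat_lit 352000) (nat_lit 5) (.e (nat_lit 180225) (nat_lit 0) (.e (nat_lit 6420) (nat_lit 341) .nil))) (.g (nat_lit 0) (.e (nat_lit 380111) (nat_lit 0) .nil) .nil))) 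
(.lf (nat_lit 582451) (.g (nat_lit 413) (.e (nat_lit 344138) (nat_lit 29) (.e (nat_lit 581653) (nat_lit 6) (.e (nat_lit 188435) (nat_lit 20) .nil))) (.g (nat_lit 0) (.e (nat_lit 381317) (nat_lit 0) .nil) .nil))))) (.nd (nat_lit 8) (.nd (nat_lit 9) 
(.lf (nat_lit 581811) (.g (nat_lit 2808) (.e (nat_lit 344068) (nat_lit 0) (.e (nat_lit 3090) (nat_lit 191) (.e (nat_lit 483372) (nat_lit 21) (.e (nat_lit 319511) (nat_lit 10) (.e (nat_lit 5629) (nat_lit 312) (.e (nat_lit 7936) (nat_lit 22) .nil)))))) (.g (nat_lit 1) (.e (nat_lit 379712) (nat_lit 0) .nil) .nil))) 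
(.lf (nat_lit 582323) (.g (nat_lit 2479) (.e (nat_lit 344119) (nat_lit 21) (.e (nat_lit 516139) (nat_lit 7) (.e (nat_lit 409646) (nat_lit 18) (.e (nat_lit 303112) (nat_lit 0) (.e (nat_lit 3252) (nat_lit 197) (.e (nat_lit 532529) (nat_lit 9) (.e (nat_lit 336160) (nat_lit 10) .nil))))))) (.g (nat_lit 1) (.e (nat_lit 381097) (nat_lit 0) .nil) .nil)))) (.nd (nat_lit 9) 
(.lf (nat_lit 582067) (.g (nat_lit 2020) (.e (nat_lit 344117) (nat_lit 21) (.e (nat_lit 516115) (nat_lit 1) (.e (nat_lit 164183) (nat_lit 154) (.e (nat_lit 57378) (nat_lit 3) (.e (nat_lit 98322) (nat_lit 17) .nil))))) (.g (nat_lit 0) (.e (nat_lit 380746) (nat_lit 0) .nil) .nil))) 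
(.lf (nat_lit 582579) (.g (nat_lit 3462) (.e (nat_lit 344129) (nat_lit 26) (.e (nat_lit 557103) (nat_lit 14) (.e (nat_lit 180243) (nat_lit 5) (.e (nat_lit 532501) (nat_lit 1) (.e (nat_lit 57703) (nat_lit 164) (.e (nat_lit 2601) (nat_lit 163) (.e (nat_lit 163962) (nat_lit 25) (.e (nat_lit 532543) (nat_lit 10) .nil)))))))) (.g (nat_lit 1) (.e (nat_lit 381497) (nat_lit 0) .nil) .nil)))))) 
(.nd (nat_lit 7) (.nd (nat_lit 8) (.nd (nat_lit 9) 
(.lf (nat_lit 581747) (.g (nat_lit 1338) (.e (nat_lit 344068) (nat_lit 0) (.e (nat_lit 3090) (nat_lit 191) (.e (nat_lit 483343) (nat_lit 17) (.e (nat_lit 6718) (nat_lit 361) (.e (nat_lit 179968) (nat_lit 28) .nil))))) (.g (nat_lit 1) (.e (nat_lit 379638) (nat_lit 0) .nil) .nil))) 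
(.lf (nat_lit 582259) (.g (nat_lit 550) (.e (nat_lit 344118) (nat_lit 21) (.e (nat_lit 516129) (nat_lit 3) (.e (nat_lit 229120) (nat_lit 3) .nil))) (.g (nat_lit 0) (.e (nat_lit 381012) (nat_lit 0) .nil) .nil)))) (.nd (nat_lit 9) 
(.lf (nat_lit 582003) (.g (nat_lit 1920) (.e (nat_lit 344101) (nat_lit 18) (.e (nat_lit 5905) (nat_lit 320) (.e (nat_lit 1209) (nat_lit 89) (.e (nat_lit 73782) (nat_lit 32) .nil)))) (.g (nat_lit 0) (.e (nat_lit 380546) (nat_lit 0) .nil) .nil))) 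
(.lf (nat_lit 582515) (.g (nat_lit 4022) (.e (nat_lit 344129) (nat_lit 26) (.e (nat_lit 557065) (nat_lit 9) (.e (nat_lit 3098) (nat_lit 192) (.e (nat_lit 491571) (nat_lit 13) (.e (nat_lit 393252) (nat_lit 18) (.e (nat_lit 164182) (nat_lit 154) (.e (nat_lit 57420) (nat_lit 13) .nil))))))) (.g (nat_lit 1) (.e (nat_lit 381401) (nat_lit 0) .nil) .nil))))) (.nd (nat_lit 8) (.nd (nat_lit 9) 
(.lf (nat_lit 581875) (.g (nat_lit 2927) (.e (nat_lit 344069) (nat_lit 0) (.e (nat_lit 3090) (nat_lit 191) (.e (nat_lit 483350) (nat_lit 17) (.e (nat_lit 6218) (nat_lit 333) (.e (nat_lit 57864) (nat_lit 256) (.e (nat_lit 300) (nat_lit 22) .nil)))))) (.g (nat_lit 1) (.e (nat_lit 379852) (nat_lit 0) .nil) .nil))) 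
(.lf (nat_lit 582387) (.g (nat_lit 415) (.e (nat_lit 344120) (nat_lit 21) (.e (nat_lit 516139) (nat_lit 7) (.e (nat_lit 409616) (nat_lit 10) .nil))) (.g (nat_lit 0) (.e (nat_lit 381176) (nat_lit 0) .nil) .nil)))) (.nd (nat_lit 9) 
(.lf (nat_lit 582131) (.g (nat_lit 3498) (.e (nat_lit 344117) (nat_lit 21) (.e (nat_lit 516139) (nat_lit 7) (.e (nat_lit 409645) (nat_lit 18) (.e (nat_lit 303119) (nat_lit 3) (.e (nat_lit 204850) (nat_lit 26) (.e (nat_lit 336164) (nat_lit 10) .nil)))))) (.g (nat_lit 1) (.e (nat_lit 380823) (nat_lit 0) .nil) .nil))) 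
(.lf (nat_lit 582643) (.g (nat_lit 2688) (.e (nat_lit 344130) (nat_lit 26) (.e (nat_lit 557104) (nat_lit 14) (.e (nat_lit 180244) (nat_lit 5) (.e (nat_lit 532503) (nat_lit 1) (.e (nat_lit 57704) (nat_lit 164) (.e (nat_lit 2601) (nat_lit 163) (.e (nat_lit 163962) (nat_lit 25) (.e (nat_lit 532544) (nat_lit 10) .nil)))))))) (.g (nat_lit 1) (.e (nat_lit 381592) (nat_lit 0) .nil) .nil))))))))) 
(.nd (nat_lit 4) (.nd (nat_lit 5) (.nd (nat_lit 6) (.nd (nat_lit 7) (.nd (nat_lit 8) 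
(.nd (nat_lit 9) 
(.lf (nat_lit 581643) (.g (nat_lit 2511) (.e (nat_lit 336456) (nat_lit 34) (.e (nat_lit 483364) (nat_lit 18) (.e (nat_lit 57931) (nat_lit 282) (.e (nat_lit 163866) (nat_lit 2) (.e (nat_lit 196681) (nat_lit 17) (.e (nat_lit 131109) (nat_lit 9) .nil)))))) (.g (nat_lit 1) (.e (nat_lit 379342) (nat_lit 0) .nil) .nil))) 
(.lf (nat_lit 582155) (.g (nat_lit 2702) (.e (nat_lit 344117) (nat_lit 21) (.e (nat_lit 516139) (nat_lit 7) (.e (nat_lit 409646) (nat_lit 18) (.e (nat_lit 303119) (nat_lit 3) (.e (nat_lit 204858) (nat_lit 26) (.e (nat_lit 336163) (nat_lit 10) .nil)))))) (.g (nat_lit 1) (.e (nat_lit 380847) (nat_lit 0) .nil) .nil)))) (.nd (nat_lit 9) 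
(.lf (nat_lit 581899) (.g (nat_lit 1932) (.e (nat_lit 344069) (nat_lit 0) (.e (nat_lit 3090) (nat_lit 191) (.e (nat_lit 483372) (nat_lit 21) (.e (nat_lit 319505) (nat_lit 10) (.e (nat_lit 5698) (nat_lit 312) .nil))))) (.g (nat_lit 0) (.e (nat_lit 379879) (nat_lit 0) .nil) .nil))) 
(.lf (nat_lit 582411) (.g (nat_lit 3119) (.e (nat_lit 344126) (nat_lit 25) (.e (nat_lit 548890) (nat_lit 10) (.e (nat_lit 73781) (nat_lit 32) (.e (nat_lit 2664) (nat_lit 167) (.e (nat_lit 196666) (nat_lit 13) (.e (nat_lit 65610) (nat_lit 10) .nil)))))) (.g (nat_lit 1) (.e (nat_lit 381214) (nat_lit 0) .nil) .nil))))) (.nd (nat_lit 8) (.nd (nat_lit 9) 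
(.lf (nat_lit 581771) (.g (nat_lit 2864) (.e (nat_lit 344068) (nat_lit 0) (.e (nat_lit 3090) (nat_lit 191) (.e (nat_lit 483350) (nat_lit 17) (.e (nat_lit 6218) (nat_lit 333) (.e (nat_lit 57862) (nat_lit 256) (.e (nat_lit 300) (nat_lit 22) .nil)))))) (.g (nat_lit 1) (.e (nat_lit 379663) (nat_lit 0) .nil) .nil))) 
(.lf (nat_lit 582283) (.g (nat_lit 2481) (.e (nat_lit 344118) (nat_lit 21) (.e (nat_lit 516179) (nat_lit 15) (.e (nat_lit 475199) (nat_lit 40) (.e (nat_lit 704589) (nat_lit 3) (.e (nat_lit 163975) (nat_lit 30) .nil))))) (.g (nat_lit 0) (.e (nat_lit 381040) (nat_lit 0) .nil) .nil)))) (.nd (nat_lit 9) 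
(.lf (nat_lit 582027) (.g (nat_lit 2424) (.e (nat_lit 344116) (nat_lit 21) (.e (nat_lit 516139) (nat_lit 7) (.e (nat_lit 409649) (nat_lit 18) (.e (nat_lit 303116) (nat_lit 2) (.e (nat_lit 196666) (nat_lit 13) (.e (nat_lit 65617) (nat_lit 10) .nil)))))) (.g (nat_lit 1) (.e (nat_lit 380672) (nat_lit 0) .nil) .nil))) 
(.lf (nat_lit 582539) (.g (nat_lit 3989) (.e (nat_lit 344129) (nat_lit 26) (.e (nat_lit 557087) (nat_lit 11) (.e (nat_lit 24588) (nat_lit 0) (.e (nat_lit 6680) (nat_lit 357) (.e (nat_lit 2664) (nat_lit 167) (.e (nat_lit 196666) (nat_lit 13) (.e (nat_lit 65610) (nat_lit 10) .nil))))))) (.g (nat_lit 1) (.e (nat_lit 381452) (nat_lit 0) .nil) .nil)))))) 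
(.nd (nat_lit 7) (.nd (nat_lit 8) (.nd (nat_lit 9) 
(.lf (nat_lit 581707) (.g (nat_lit 2742) (.e (nat_lit 344067) (nat_lit 0) (.e (nat_lit 2505) (nat_lit 157) (.e (nat_lit 3249) (nat_lit 197) (.e (nat_lit 532550) (nat_lit 12) (.e (nat_lit 360474) (nat_lit 8) (.e (nat_lit 557072) (nat_lit 9) (.e (nat_lit 7936) (nat_lit 22) .nil))))))) (.g (nat_lit 1) (.e (nat_lit 379495) (nat_lit 0) .nil) .nil))) 
(.lf (nat_lit 582219) (.g (nat_lit 3350) (.e (nat_lit 344117) (nat_lit 21) (.e (nat_lit 516195) (nat_lit 26) (.e (nat_lit 335986) (nat_lit 1) (.e (nat_lit 57927) (nat_lit 282) (.e (nat_lit 163941) (nat_lit 19) (.e (nat_lit 483395) (nat_lit 24) .nil)))))) (.g (nat_lit 1) (.e (nat_lit 380928) (nat_lit 0) .nil) .nil)))) (.nd (nat_lit 9) 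
(.lf (nat_lit 581963) (.g (nat_lit 2933) (.e (nat_lit 344090) (nat_lit 18) (.e (nat_lit 7607) (nat_lit 410) (.e (nat_lit 2630) (nat_lit 164) (.e (nat_lit 172113) (nat_lit 10) (.e (nat_lit 434241) (nat_lit 27) (.e (nat_lit 565267) (nat_lit 4) (.e (nat_lit 65610) (nat_lit 10) .nil))))))) (.g (nat_lit 1) (.e (nat_lit 380344) (nat_lit 0) .nil) .nil))) 
(.lf (nat_lit 582475) (.g (nat_lit 2928) (.e (nat_lit 344138) (nat_lit 29) (.e (nat_lit 581653) (nat_lit 6) (.e (nat_lit 188440) (nat_lit 20) (.e (nat_lit 3579) (nat_lit 223) (.e (nat_lit 745491) (nat_lit 4) (.e (nat_lit 65619) (nat_lit 10) .nil)))))) (.g (nat_lit 1) (.e (nat_lit 381341) (nat_lit 0) .nil) .nil))))) (.nd (nat_lit 8) (.nd (nat_lit 9) 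
(.lf (nat_lit 581835) (.g (nat_lit 2822) (.e (nat_lit 344069) (nat_lit 0) (.e (nat_lit 2856) (nat_lit 184) (.e (nat_lit 426509) (nat_lit 27) (.e (nat_lit 336228) (nat_lit 14) (.e (nat_lit 401437) (nat_lit 9) (.e (nat_lit 426533) (nat_lit 28) .nil)))))) (.g (nat_lit 1) (.e (nat_lit 379777) (nat_lit 0) .nil) .nil))) 
(.lf (nat_lit 582347) (.g (nat_lit 3957) (.e (nat_lit 344119) (nat_lit 21) (.e (nat_lit 516139) (nat_lit 7) (.e (nat_lit 409648) (nat_lit 18) (.e (nat_lit 303119) (nat_lit 3) (.e (nat_lit 204852) (nat_lit 26) (.e (nat_lit 336160) (nat_lit 10) .nil)))))) (.g (nat_lit 1) (.e (nat_lit 381124) (nat_lit 0) .nil) .nil)))) (.nd (nat_lit 9) 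
(.lf (nat_lit 582091) (.g (nat_lit 3034) (.e (nat_lit 344117) (nat_lit 21) (.e (nat_lit 516129) (nat_lit 3) (.e (nat_lit 221215) (nat_lit 23) (.e (nat_lit 204829) (nat_lit 18) (.e (nat_lit 57928) (nat_lit 282) (.e (nat_lit 163875) (nat_lit 3) (.e (nat_lit 204862) (nat_lit 27) .nil))))))) (.g (nat_lit 1) (.e (nat_lit 380773) (nat_lit 0) .nil) .nil))) 
(.lf (nat_lit 582603) (.g (nat_lit 3536) (.e (nat_lit 344129) (nat_lit 26) (.e (nat_lit 557104) (nat_lit 14) (.e (nat_lit 180252) (nat_lit 10) (.e (nat_lit 573475) (nat_lit 12) (.e (nat_lit 57508) (nat_lit 39) (.e (nat_lit 647175) (nat_lit 0) (.e (nat_lit 2684) (nat_lit 168) (.e (nat_lit 204863) (nat_lit 27) .nil)))))))) (.g (nat_lit 1) (.e (nat_lit 381521) (nat_lit 0) .nil) .nil))))))) 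
(.nd (nat_lit 6) (.nd (nat_lit 7) (.nd (nat_lit 8) (.nd (nat_lit 9) 
(.lf (nat_lit 581675) (.g (nat_lit 2435) (.e (nat_lit 336456) (nat_lit 34) (.e (nat_lit 483383) (nat_lit 23) (.e (nat_lit 336019) (nat_lit 3) (.e (nat_lit 98335) (nat_lit 18) (.e (nat_lit 164184) (nat_lit 155) (.e (nat_lit 122903) (nat_lit 12) .nil)))))) (.g (nat_lit 1) (.e (nat_lit 379383) (nat_lit 0) .nil) .nil))) 
(.lf (nat_lit 582187) (.g (nat_lit 4749) (.e (nat_lit 344117) (nat_lit 21) (.e (nat_lit 516151) (nat_lit 9) (.e (nat_lit 426142) (nat_lit 4) (.e (nat_lit 229678) (nat_lit 244) (.e (nat_lit 163850) (nat_lit 0) (.e (nat_lit 3304) (nat_lit 202) (.e (nat_lit 573484) (nat_lit 13) (.e (nat_lit 65610) (nat_lit 10) .nil)))))))) (.g (nat_lit 1) (.e (nat_lit 380881) (nat_lit 0) .nil) .nil)))) 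
(.nd (nat_lit 9) 
(.lf (nat_lit 581931) (.g (nat_lit 426) (.e (nat_lit 352000) (nat_lit 0) (.e (nat_lit 3090) (nat_lit 191) (.e (nat_lit 483354) (nat_lit 17) .nil))) (.g (nat_lit 0) (.e (nat_lit 380031) (nat_lit 0) .nil) .nil))) 
(.lf (nat_lit 582443) (.g (nat_lit 1788) (.e (nat_lit 344138) (nat_lit 29) (.e (nat_lit 581653) (nat_lit 6) (.e (nat_lit 188434) (nat_lit 20) (.e (nat_lit 3578) (nat_lit 223) (.e (nat_lit 745491) (nat_lit 4) (.e (nat_lit 65616) (nat_lit 10) .nil)))))) (.g (nat_lit 1) (.e (nat_lit 381309) (nat_lit 0) .nil) .nil))))) (.nd (nat_lit 8) (.nd (nat_lit 9) 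
(.lf (nat_lit 581803) (.g (nat_lit 1954) (.e (nat_lit 344068) (nat_lit 0) (.e (nat_lit 3090) (nat_lit 191) (.e (nat_lit 483372) (nat_lit 21) (.e (nat_lit 319505) (nat_lit 10) (.e (nat_lit 7936) (nat_lit 312) (.e (nat_lit 296) (nat_lit 22) .nil)))))) (.g (nat_lit 1) (.e (nat_lit 379700) (nat_lit 0) .nil) .nil))) 
(.lf (nat_lit 582315) (.g (nat_lit 2502) (.e (nat_lit 344119) (nat_lit 21) (.e (nat_lit 516139) (nat_lit 7) (.e (nat_lit 409645) (nat_lit 18) (.e (nat_lit 303117) (nat_lit 2) (.e (nat_lit 196665) (nat_lit 13) .nil))))) (.g (nat_lit 0) (.e (nat_lit 381089) (nat_lit 0) .nil) .nil)))) (.nd (nat_lit 9) 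
(.lf (nat_lit 582059) (.g (nat_lit 3140) (.e (nat_lit 344117) (nat_lit 21) (.e (nat_lit 516115) (nat_lit 1) (.e (nat_lit 164179) (nat_lit 154) (.e (nat_lit 57377) (nat_lit 3) (.e (nat_lit 98319) (nat_lit 17) (.e (nat_lit 3771) (nat_lit 229) (.e (nat_lit 794673) (nat_lit 23) (.e (nat_lit 204863) (nat_lit 27) .nil)))))))) (.g (nat_lit 1) (.e (nat_lit 380733) (nat_lit 0) .nil) .nil))) 
(.lf (nat_lit 582571) (.g (nat_lit 1910) (.e (nat_lit 344129) (nat_lit 26) (.e (nat_lit 557090) (nat_lit 12) (.e (nat_lit 164020) (nat_lit 45) (.e (nat_lit 696326) (nat_lit 5) (.e (nat_lit 2878) (nat_lit 184) .nil))))) (.g (nat_lit 0) (.e (nat_lit 381488) (nat_lit 0) .nil) .nil)))))) (.nd (nat_lit 7) (.nd (nat_lit 8) (.nd (nat_lit 9) 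
(.lf (nat_lit 581739) (.g (nat_lit 1614) (.e (nat_lit 344068) (nat_lit 0) (.e (nat_lit 2857) (nat_lit 184) (.e (nat_lit 426530) (nat_lit 27) (.e (nat_lit 335874) (nat_lit 0) (.e (nat_lit 6719) (nat_lit 361) (.e (nat_lit 179968) (nat_lit 28) .nil)))))) (.g (nat_lit 1) (.e (nat_lit 379581) (nat_lit 0) .nil) .nil))) 
(.lf (nat_lit 582251) (.g (nat_lit 2597) (.e (nat_lit 344118) (nat_lit 21) (.e (nat_lit 516120) (nat_lit 1) (.e (nat_lit 164182) (nat_lit 154) (.e (nat_lit 57375) (nat_lit 2) (.e (nat_lit 90181) (nat_lit 16) .nil))))) (.g (nat_lit 0) (.e (nat_lit 380991) (nat_lit 0) .nil) .nil)))) (.nd (nat_lit 9) 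
(.lf (nat_lit 581995) (.g (nat_lit 380) (.e (nat_lit 344100) (nat_lit 18) (.e (nat_lit 7270) (nat_lit 385) (.e (nat_lit 122919) (nat_lit 15) .nil))) (.g (nat_lit 0) (.e (nat_lit 380538) (nat_lit 0) .nil) .nil))) 
(.lf (nat_lit 582507) (.g (nat_lit 2381) (.e (nat_lit 344127) (nat_lit 26) (.e (nat_lit 557104) (nat_lit 14) (.e (nat_lit 180252) (nat_lit 10) (.e (nat_lit 573475) (nat_lit 12) (.e (nat_lit 57509) (nat_lit 39) .nil))))) (.g (nat_lit 0) (.e (nat_lit 381387) (nat_lit 0) .nil) .nil))))) (.nd (nat_lit 8) (.nd (nat_lit 9) 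
(.lf (nat_lit 581867) (.g (nat_lit 1879) (.e (nat_lit 344069) (nat_lit 0) (.e (nat_lit 3090) (nat_lit 191) (.e (nat_lit 483350) (nat_lit 17) (.e (nat_lit 6113) (nat_lit 332) (.e (nat_lit 7936) (nat_lit 105) (.e (nat_lit 311357) (nat_lit 28) .nil)))))) (.g (nat_lit 1) (.e (nat_lit 379844) (nat_lit 0) .nil) .nil))) 
(.lf (nat_lit 582379) (.g (nat_lit 2740) (.e (nat_lit 344119) (nat_lit 21) (.e (nat_lit 516179) (nat_lit 15) (.e (nat_lit 475199) (nat_lit 40) (.e (nat_lit 704589) (nat_lit 3) (.e (nat_lit 163979) (nat_lit 30) (.e (nat_lit 573482) (nat_lit 13) (.e (nat_lit 65613) (nat_lit 10) .nil))))))) (.g (nat_lit 1) (.e (nat_lit 381160) (nat_lit 0) .nil) .nil)))) (.nd (nat_lit 9) 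
(.lf (nat_lit 582123) (.g (nat_lit 2668) (.e (nat_lit 344117) (nat_lit 21) (.e (nat_lit 516139) (nat_lit 7) (.e (nat_lit 409645) (nat_lit 18) (.e (nat_lit 303112) (nat_lit 0) (.e (nat_lit 3252) (nat_lit 197) .nil))))) (.g (nat_lit 0) (.e (nat_lit 380815) (nat_lit 0) .nil) .nil))) 
(.lf (nat_lit 582635) (.g (nat_lit 2460) (.e (nat_lit 344130) (nat_lit 26) (.e (nat_lit 557103) (nat_lit 14) (.e (nat_lit 180250) (nat_lit 10) (.e (nat_lit 573474) (nat_lit 12) (.e (nat_lit 57507) (nat_lit 39) (.e (nat_lit 655104) (nat_lit 0) (.e (nat_lit 2685) (nat_lit 168) (.e (nat_lit 204864) (nat_lit 27) .nil)))))))) (.g (nat_lit 1) (.e (nat_lit 381584) (nat_lit 0) .nil) .nil)))))))) 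
(.nd (nat_lit 5) (.nd (nat_lit 6) (.nd (nat_lit 7) (.nd (nat_lit 8) (.nd (nat_lit 9) 
(.lf (nat_lit 581659) (.g (nat_lit 1906) (.e (nat_lit 336456) (nat_lit 34) (.e (nat_lit 483365) (nat_lit 18) (.e (nat_lit 57852) (nat_lit 252) (.e (nat_lit 57371) (nat_lit 2) (.e (nat_lit 90160) (nat_lit 11) .nil))))) (.g (nat_lit 0) (.e (nat_lit 379358) (nat_lit 0) .nil) .nil))) 
(.lf (nat_lit 582171) (.g (nat_lit 5022) (.e (nat_lit 344117) (nat_lit 21) (.e (nat_lit 516139) (nat_lit 7) (.e (nat_lit 409649) (nat_lit 18) (.e (nat_lit 303116) (nat_lit 2) (.e (nat_lit 196666) (nat_lit 13) (.e (nat_lit 65617) (nat_lit 10) .nil)))))) (.g (nat_lit 1) (.e (nat_lit 380863) (nat_lit 0) .nil) .nil)))) (.nd (nat_lit 9) 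
(.lf (nat_lit 581915) (.g (nat_lit 1728) (.e (nat_lit 344069) (nat_lit 0) (.e (nat_lit 3090) (nat_lit 191) (.e (nat_lit 483372) (nat_lit 21) (.e (nat_lit 319512) (nat_lit 10) (.e (nat_lit 5634) (nat_lit 312) (.e (nat_lit 7936) (nat_lit 22) .nil)))))) (.g (nat_lit 1) (.e (nat_lit 379903) (nat_lit 0) .nil) .nil))) 
(.lf (nat_lit 582427) (.g (nat_lit 459) (.e (nat_lit 344138) (nat_lit 29) (.e (nat_lit 581653) (nat_lit 6) (.e (nat_lit 188427) (nat_lit 20) .nil))) (.g (nat_lit 0) (.e (nat_lit 381292) (nat_lit 0) .nil) .nil))))) (.nd (nat_lit 8) (.nd (nat_lit 9) 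
(.lf (nat_lit 581787) (.g (nat_lit 631) (.e (nat_lit 344068) (nat_lit 0) (.e (nat_lit 3090) (nat_lit 191) (.e (nat_lit 483355) (nat_lit 17) .nil))) (.g (nat_lit 0) (.e (nat_lit 379679) (nat_lit 0) .nil) .nil))) 
(.lf (nat_lit 582299) (.g (nat_lit 1645) (.e (nat_lit 344119) (nat_lit 21) (.e (nat_lit 516139) (nat_lit 7) (.e (nat_lit 409616) (nat_lit 10) (.e (nat_lit 5756) (nat_lit 315) (.e (nat_lit 163962) (nat_lit 25) .nil))))) (.g (nat_lit 0) (.e (nat_lit 381068) (nat_lit 0) .nil) .nil)))) (.nd (nat_lit 9) 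
(.lf (nat_lit 582043) (.g (nat_lit 2326) (.e (nat_lit 344117) (nat_lit 21) (.e (nat_lit 516099) (nat_lit 0) (.e (nat_lit 7319) (nat_lit 388) (.e (nat_lit 3067) (nat_lit 190) (.e (nat_lit 475178) (nat_lit 24) (.e (nat_lit 516129) (nat_lit 3) (.e (nat_lit 229120) (nat_lit 12) .nil))))))) (.g (nat_lit 1) (.e (nat_lit 380693) (nat_lit 0) .nil) .nil))) 
(.lf (nat_lit 582555) (.g (nat_lit 3795) (.e (nat_lit 344129) (nat_lit 26) (.e (nat_lit 557087) (nat_lit 11) (.e (nat_lit 24662) (nat_lit 14) (.e (nat_lit 401465) (nat_lit 15) .nil)))) (.g (nat_lit 0) (.e (nat_lit 381468) (nat_lit 0) .nil) .nil)))))) (.nd (nat_lit 7) (.nd (nat_lit 8) (.nd (nat_lit 9) 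
(.lf (nat_lit 581723) (.g (nat_lit 950) (.e (nat_lit 344068) (nat_lit 0) (.e (nat_lit 2854) (nat_lit 184) (.e (nat_lit 426533) (nat_lit 28) (.e (nat_lit 344066) (nat_lit 0) (.e (nat_lit 2939) (nat_lit 184) (.e (nat_lit 426532) (nat_lit 28) .nil)))))) (.g (nat_lit 1) (.e (nat_lit 379549) (nat_lit 0) .nil) .nil))) 
(.lf (nat_lit 582235) (.g (nat_lit 2126) (.e (nat_lit 344118) (nat_lit 21) (.e (nat_lit 516115) (nat_lit 1) (.e (nat_lit 164179) (nat_lit 154) (.e (nat_lit 57375) (nat_lit 2) .nil)))) (.g (nat_lit 0) (.e (nat_lit 380961) (nat_lit 0) .nil) .nil)))) (.nd (nat_lit 9) 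
(.lf (nat_lit 581979) (.g (nat_lit 3833) (.e (nat_lit 344097) (nat_lit 18) (.e (nat_lit 4717) (nat_lit 275) (.e (nat_lit 2610) (nat_lit 163) (.e (nat_lit 163978) (nat_lit 30) (.e (nat_lit 573479) (nat_lit 13) (.e (nat_lit 65619) (nat_lit 10) (.e (nat_lit 344129) (nat_lit 26) (.e (nat_lit 557066) (nat_lit 9) (.e (nat_lit 307) (nat_lit 22) .nil))))))))) (.g (nat_lit 1) (.e (nat_lit 380468) (nat_lit 0) .nil) .nil))) 
(.lf (nat_lit 582491) (.g (nat_lit 2632) (.e (nat_lit 344127) (nat_lit 26) (.e (nat_lit 557090) (nat_lit 12) (.e (nat_lit 163850) (nat_lit 0) (.e (nat_lit 6273) (nat_lit 337) (.e (nat_lit 2632) (nat_lit 164) (.e (nat_lit 172064) (nat_lit 2) (.e (nat_lit 196666) (nat_lit 13) (.e (nat_lit 65617) (nat_lit 10) .nil)))))))) (.g (nat_lit 1) (.e (nat_lit 381366) (nat_lit 0) .nil) .nil))))) 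
(.nd (nat_lit 8) (.nd (nat_lit 9) 
(.lf (nat_lit 581851) (.g (nat_lit 1570) (.e (nat_lit 344069) (nat_lit 0) (.e (nat_lit 3089) (nat_lit 191) (.e (nat_lit 483372) (nat_lit 21) (.e (nat_lit 319513) (nat_lit 10) .nil)))) (.g (nat_lit 0) (.e (nat_lit 379826) (nat_lit 0) .nil) .nil))) 
(.lf (nat_lit 582363) (.g (nat_lit 3573) (.e (nat_lit 344119) (nat_lit 21) (.e (nat_lit 516139) (nat_lit 7) (.e (nat_lit 409649) (nat_lit 18) (.e (nat_lit 303119) (nat_lit 3) (.e (nat_lit 204855) (nat_lit 26) (.e (nat_lit 336163) (nat_lit 10) .nil)))))) (.g (nat_lit 1) (.e (nat_lit 381141) (nat_lit 0) .nil) .nil)))) (.nd (nat_lit 9) 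
(.lf (nat_lit 582107) (.g (nat_lit 1770) (.e (nat_lit 344117) (nat_lit 21) (.e (nat_lit 516138) (nat_lit 7) (.e (nat_lit 409646) (nat_lit 18) (.e (nat_lit 303119) (nat_lit 3) (.e (nat_lit 204855) (nat_lit 26) .nil))))) (.g (nat_lit 0) (.e (nat_lit 380795) (nat_lit 0) .nil) .nil))) 
(.lf (nat_lit 582619) (.g (nat_lit 2467) (.e (nat_lit 344130) (nat_lit 26) (.e (nat_lit 557097) (nat_lit 13) (.e (nat_lit 172066) (nat_lit 3) (.e (nat_lit 204829) (nat_lit 18) (.e (nat_lit 57704) (nat_lit 164) (.e (nat_lit 2601) (nat_lit 163) (.e (nat_lit 163962) (nat_lit 25) (.e (nat_lit 532544) (nat_lit 10) .nil)))))))) (.g (nat_lit 1) (.e (nat_lit 381568) (nat_lit 0) .nil) .nil))))))) 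
(.nd (nat_lit 6) (.nd (nat_lit 7) (.nd (nat_lit 8) (.nd (nat_lit 9) 
(.lf (nat_lit 581691) (.g (nat_lit 258) (.e (nat_lit 343808) (nat_lit 34) (.e (nat_lit 483408) (nat_lit 26) (.e (nat_lit 385067) (nat_lit 26) .nil))) (.g (nat_lit 0) (.e (nat_lit 379433) (nat_lit 0) .nil) .nil))) 
(.lf (nat_lit 582203) (.g (nat_lit 3319) (.e (nat_lit 344117) (nat_lit 21) (.e (nat_lit 516160) (nat_lit 10) (.e (nat_lit 434262) (nat_lit 34) (.e (nat_lit 622624) (nat_lit 13) (.e (nat_lit 2668) (nat_lit 167) (.e (nat_lit 196666) (nat_lit 13) (.e (nat_lit 65610) (nat_lit 10) .nil))))))) (.g (nat_lit 1) (.e (nat_lit 380900) (nat_lit 0) .nil) .nil)))) (.nd (nat_lit 9) 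
(.lf (nat_lit 581947) (.g (nat_lit 237) (.e (nat_lit 352000) (nat_lit 7) (.e (nat_lit 237636) (nat_lit 27) (.e (nat_lit 336076) (nat_lit 9) .nil))) (.g (nat_lit 0) (.e (nat_lit 380192) (nat_lit 0) .nil) .nil))) 
(.lf (nat_lit 582459) (.g (nat_lit 402) (.e (nat_lit 344138) (nat_lit 29) (.e (nat_lit 581653) (nat_lit 6) (.e (nat_lit 188438) (nat_lit 20) .nil))) (.g (nat_lit 0) (.e (nat_lit 381325) (nat_lit 0) .nil) .nil))))) (.nd (nat_lit 8) (.nd (nat_lit 9) 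
(.lf (nat_lit 581819) (.g (nat_lit 2566) (.e (nat_lit 344068) (nat_lit 0) (.e (nat_lit 3090) (nat_lit 191) (.e (nat_lit 483372) (nat_lit 21) (.e (nat_lit 319539) (nat_lit 19) (.e (nat_lit 311357) (nat_lit 28) .nil))))) (.g (nat_lit 1) (.e (nat_lit 379722) (nat_lit 0) .nil) .nil))) 
(.lf (nat_lit 582331) (.g (nat_lit 2484) (.e (nat_lit 344119) (nat_lit 21) (.e (nat_lit 516139) (nat_lit 7) (.e (nat_lit 409647) (nat_lit 18) (.e (nat_lit 303117) (nat_lit 2) (.e (nat_lit 196665) (nat_lit 13) .nil))))) (.g (nat_lit 0) (.e (nat_lit 381106) (nat_lit 0) .nil) .nil)))) (.nd (nat_lit 9) 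
(.lf (nat_lit 582075) (.g (nat_lit 961) (.e (nat_lit 344117) (nat_lit 21) (.e (nat_lit 516120) (nat_lit 1) (.e (nat_lit 164183) (nat_lit 154) .nil))) (.g (nat_lit 0) (.e (nat_lit 380757) (nat_lit 0) .nil) .nil))) 
(.lf (nat_lit 582587) (.g (nat_lit 3322) (.e (nat_lit 344129) (nat_lit 26) (.e (nat_lit 557103) (nat_lit 14) (.e (nat_lit 180250) (nat_lit 10) (.e (nat_lit 573474) (nat_lit 12) (.e (nat_lit 57507) (nat_lit 39) (.e (nat_lit 647175) (nat_lit 0) (.e (nat_lit 2684) (nat_lit 168) (.e (nat_lit 204862) (nat_lit 27) .nil)))))))) (.g (nat_lit 1) (.e (nat_lit 381505) (nat_lit 0) .nil) .nil)))))) 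
(.nd (nat_lit 7) (.nd (nat_lit 8) (.nd (nat_lit 9) 
(.lf (nat_lit 581755) (.g (nat_lit 1588) (.e (nat_lit 344068) (nat_lit 0) (.e (nat_lit 3090) (nat_lit 191) (.e (nat_lit 483350) (nat_lit 17) (.e (nat_lit 6093) (nat_lit 332) .nil)))) (.g (nat_lit 0) (.e (nat_lit 379646) (nat_lit 0) .nil) .nil))) 
(.lf (nat_lit 582267) (.g (nat_lit 2115) (.e (nat_lit 344118) (nat_lit 21) (.e (nat_lit 516139) (nat_lit 7) (.e (nat_lit 409649) (nat_lit 18) (.e (nat_lit 303116) (nat_lit 2) (.e (nat_lit 196666) (nat_lit 13) (.e (nat_lit 65614) (nat_lit 10) .nil)))))) (.g (nat_lit 1) (.e (nat_lit 381024) (nat_lit 0) .nil) .nil)))) (.nd (nat_lit 9) 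
(.lf (nat_lit 582011) (.g (nat_lit 2710) (.e (nat_lit 344115) (nat_lit 20) (.e (nat_lit 507907) (nat_lit 0) (.e (nat_lit 5406) (nat_lit 302) (.e (nat_lit 65636) (nat_lit 15) (.e (nat_lit 3302) (nat_lit 202) (.e (nat_lit 573485) (nat_lit 13) (.e (nat_lit 65619) (nat_lit 10) .nil))))))) (.g (nat_lit 1) (.e (nat_lit 380631) (nat_lit 0) .nil) .nil))) 
(.lf (nat_lit 582523) (.g (nat_lit 4288) (.e (nat_lit 344129) (nat_lit 26) (.e (nat_lit 557067) (nat_lit 9) (.e (nat_lit 2828) (nat_lit 182) (.e (nat_lit 409646) (nat_lit 18) (.e (nat_lit 303151) (nat_lit 27) (.e (nat_lit 335995) (nat_lit 1) (.e (nat_lit 57683) (nat_lit 155) (.e (nat_lit 122913) (nat_lit 13) .nil)))))))) (.g (nat_lit 1) (.e (nat_lit 381432) (nat_lit 0) .nil) .nil))))) 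
(.nd (nat_lit 8) (.nd (nat_lit 9) 
(.lf (nat_lit 581883) (.g (nat_lit 1287) (.e (nat_lit 344069) (nat_lit 0) (.e (nat_lit 3090) (nat_lit 191) (.e (nat_lit 483350) (nat_lit 17) (.e (nat_lit 7936) (nat_lit 364) .nil)))) (.g (nat_lit 0) (.e (nat_lit 379860) (nat_lit 0) .nil) .nil))) 
(.lf (nat_lit 582395) (.g (nat_lit 2102) (.e (nat_lit 344120) (nat_lit 21) (.e (nat_lit 516139) (nat_lit 7) (.e (nat_lit 409649) (nat_lit 18) (.e (nat_lit 303116) (nat_lit 2) (.e (nat_lit 196666) (nat_lit 13) (.e (nat_lit 65614) (nat_lit 10) .nil)))))) (.g (nat_lit 1) (.e (nat_lit 381187) (nat_lit 0) .nil) .nil)))) (.nd (nat_lit 9) 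
(.lf (nat_lit 582139) (.g (nat_lit 3810) (.e (nat_lit 344117) (nat_lit 21) (.e (nat_lit 516139) (nat_lit 7) (.e (nat_lit 409645) (nat_lit 18) (.e (nat_lit 303119) (nat_lit 3) (.e (nat_lit 204858) (nat_lit 26) (.e (nat_lit 336164) (nat_lit 10) .nil)))))) (.g (nat_lit 1) (.e (nat_lit 380831) (nat_lit 0) .nil) .nil))) 
(.lf (nat_lit 582651) (.g (nat_lit 2304) (.e (nat_lit 344130) (nat_lit 26) (.e (nat_lit 557104) (nat_lit 14) (.e (nat_lit 180252) (nat_lit 10) (.e (nat_lit 573474) (nat_lit 12) (.e (nat_lit 57508) (nat_lit 39) (.e (nat_lit 647170) (nat_lit 0) (.e (nat_lit 2680) (nat_lit 168) (.e (nat_lit 204864) (nat_lit 27) .nil)))))))) (.g (nat_lit 1) (.e (nat_lit 381600) (nat_lit 0) .nil) .nil)))))))))) 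
(.nd (nat_lit 3) (.nd (nat_lit 4) (.nd (nat_lit 5) (.nd (nat_lit 6) (.nd (nat_lit 7) 
(.nd (nat_lit 8) (.nd (nat_lit 9) 
(.lf (nat_lit 581639) (.g (nat_lit 307) (.e (nat_lit 336456) (nat_lit 34) (.e (nat_lit 483364) (nat_lit 18) (.e (nat_lit 57927) (nat_lit 282) .nil))) (.g (nat_lit 0) (.e (nat_lit 379337) (nat_lit 0) .nil) .nil))) 
(.lf (nat_lit 582151) (.g (nat_lit 4346) (.e (nat_lit 344117) (nat_lit 21) (.e (nat_lit 516139) (nat_lit 7) (.e (nat_lit 409646) (nat_lit 18) (.e (nat_lit 303119) (nat_lit 3) (.e (nat_lit 204855) (nat_lit 26) (.e (nat_lit 336173) (nat_lit 10) .nil)))))) (.g (nat_lit 1) (.e (nat_lit 380843) (nat_lit 0) .nil) .nil)))) (.nd (nat_lit 9) 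
(.lf (nat_lit 581895) (.g (nat_lit 2202) (.e (nat_lit 344069) (nat_lit 0) (.e (nat_lit 3090) (nat_lit 191) (.e (nat_lit 483372) (nat_lit 21) (.e (nat_lit 319502) (nat_lit 10) (.e (nat_lit 5718) (nat_lit 312) .nil))))) (.g (nat_lit 0) (.e (nat_lit 379873) (nat_lit 0) .nil) .nil))) 
(.lf (nat_lit 582407) (.g (nat_lit 1823) (.e (nat_lit 344121) (nat_lit 22) (.e (nat_lit 524322) (nat_lit 12) (.e (nat_lit 450587) (nat_lit 10) (.e (nat_lit 573477) (nat_lit 12) (.e (nat_lit 57574) (nat_lit 55) .nil))))) (.g (nat_lit 0) (.e (nat_lit 381201) (nat_lit 0) .nil) .nil))))) (.nd (nat_lit 8) (.nd (nat_lit 9) 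
(.lf (nat_lit 581767) (.g (nat_lit 1558) (.e (nat_lit 344068) (nat_lit 0) (.e (nat_lit 3090) (nat_lit 191) (.e (nat_lit 483350) (nat_lit 17) (.e (nat_lit 6138) (nat_lit 332) .nil)))) (.g (nat_lit 0) (.e (nat_lit 379659) (nat_lit 0) .nil) .nil))) 
(.lf (nat_lit 582279) (.g (nat_lit 4444) (.e (nat_lit 344118) (nat_lit 21) (.e (nat_lit 516166) (nat_lit 12) (.e (nat_lit 450588) (nat_lit 10) (.e (nat_lit 573475) (nat_lit 12) (.e (nat_lit 57574) (nat_lit 55) .nil))))) (.g (nat_lit 0) (.e (nat_lit 381036) (nat_lit 0) .nil) .nil)))) (.nd (nat_lit 9) 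
(.lf (nat_lit 582023) (.g (nat_lit 3996) (.e (nat_lit 344116) (nat_lit 21) (.e (nat_lit 516139) (nat_lit 7) (.e (nat_lit 409648) (nat_lit 18) (.e (nat_lit 303117) (nat_lit 2) (.e (nat_lit 196666) (nat_lit 13) (.e (nat_lit 65610) (nat_lit 10) .nil)))))) (.g (nat_lit 1) (.e (nat_lit 380668) (nat_lit 0) .nil) .nil))) 
(.lf (nat_lit 582535) (.g (nat_lit 3768) (.e (nat_lit 344129) (nat_lit 26) (.e (nat_lit 557086) (nat_lit 11) (.e (nat_lit 24665) (nat_lit 14) (.e (nat_lit 401424) (nat_lit 2) (.e (nat_lit 196666) (nat_lit 13) (.e (nat_lit 65610) (nat_lit 10) .nil)))))) (.g (nat_lit 1) (.e (nat_lit 381448) (nat_lit 0) .nil) .nil)))))) (.nd (nat_lit 7) (.nd (nat_lit 8) (.nd (nat_lit 9) 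
(.lf (nat_lit 581703) (.g (nat_lit 2216) (.e (nat_lit 344066) (nat_lit 0) (.e (nat_lit 2936) (nat_lit 184) (.e (nat_lit 426532) (nat_lit 28) (.e (nat_lit 344069) (nat_lit 0) (.e (nat_lit 2857) (nat_lit 184) (.e (nat_lit 426533) (nat_lit 28) .nil)))))) (.g (nat_lit 1) (.e (nat_lit 379489) (nat_lit 0) .nil) .nil))) 
(.lf (nat_lit 582215) (.g (nat_lit 3968) (.e (nat_lit 344117) (nat_lit 21) (.e (nat_lit 516185) (nat_lit 16) (.e (nat_lit 491546) (nat_lit 9) (.e (nat_lit 336013) (nat_lit 2) (.e (nat_lit 90141) (nat_lit 9) (.e (nat_lit 3102) (nat_lit 192) (.e (nat_lit 491560) (nat_lit 10) .nil))))))) (.g (nat_lit 1) (.e (nat_lit 380917) (nat_lit 0) .nil) .nil)))) (.nd (nat_lit 9) 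
(.lf (nat_lit 581959) (.g (nat_lit 1245) (.e (nat_lit 344090) (nat_lit 18) (.e (nat_lit 7261) (nat_lit 384) (.e (nat_lit 57406) (nat_lit 12) (.e (nat_lit 336182) (nat_lit 11) .nil)))) (.g (nat_lit 0) (.e (nat_lit 380337) (nat_lit 0) .nil) .nil))) 
(.lf (nat_lit 582471) (.g (nat_lit 3023) (.e (nat_lit 344138) (nat_lit 29) (.e (nat_lit 581653) (nat_lit 6) (.e (nat_lit 188440) (nat_lit 20) (.e (nat_lit 3579) (nat_lit 223) (.e (nat_lit 745491) (nat_lit 4) (.e (nat_lit 65610) (nat_lit 10) .nil)))))) (.g (nat_lit 1) (.e (nat_lit 381337) (nat_lit 0) .nil) .nil))))) (.nd (nat_lit 8) (.nd (nat_lit 9) 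
(.lf (nat_lit 581831) (.g (nat_lit 2805) (.e (nat_lit 344068) (nat_lit 0) (.e (nat_lit 3090) (nat_lit 191) (.e (nat_lit 483411) (nat_lit 27) (.e (nat_lit 401444) (nat_lit 9) (.e (nat_lit 426532) (nat_lit 28) .nil))))) (.g (nat_lit 1) (.e (nat_lit 379753) (nat_lit 0) .nil) .nil))) 
(.lf (nat_lit 582343) (.g (nat_lit 4335) (.e (nat_lit 344119) (nat_lit 21) (.e (nat_lit 516139) (nat_lit 7) (.e (nat_lit 409648) (nat_lit 18) (.e (nat_lit 303117) (nat_lit 2) (.e (nat_lit 196666) (nat_lit 13) (.e (nat_lit 65613) (nat_lit 10) .nil)))))) (.g (nat_lit 1) (.e (nat_lit 381119) (nat_lit 0) .nil) .nil)))) (.nd (nat_lit 9) 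
(.lf (nat_lit 582087) (.g (nat_lit 3789) (.e (nat_lit 344117) (nat_lit 21) (.e (nat_lit 516129) (nat_lit 3) (.e (nat_lit 221214) (nat_lit 23) (.e (nat_lit 204829) (nat_lit 18) (.e (nat_lit 57927) (nat_lit 282) (.e (nat_lit 163875) (nat_lit 3) (.e (nat_lit 204862) (nat_lit 27) .nil))))))) (.g (nat_lit 1) (.e (nat_lit 380769) (nat_lit 0) .nil) .nil))) 
(.lf (nat_lit 582599) (.g (nat_lit 3663) (.e (nat_lit 344129) (nat_lit 26) (.e (nat_lit 557104) (nat_lit 14) (.e (nat_lit 180252) (nat_lit 10) (.e (nat_lit 573474) (nat_lit 12) (.e (nat_lit 57509) (nat_lit 39) (.e (nat_lit 655104) (nat_lit 0) (.e (nat_lit 2684) (nat_lit 168) (.e (nat_lit 204863) (nat_lit 27) .nil)))))))) (.g (nat_lit 1) (.e (nat_lit 381517) (nat_lit 0) .nil) .nil))))))) 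
(.nd (nat_lit 6) (.nd (nat_lit 7) (.nd (nat_lit 8) (.nd (nat_lit 9) 
(.lf (nat_lit 581671) (.g (nat_lit 4294) (.e (nat_lit 336456) (nat_lit 34) (.e (nat_lit 483378) (nat_lit 23) (.e (nat_lit 336324) (nat_lit 18) (.e (nat_lit 204831) (nat_lit 18) (.e (nat_lit 57853) (nat_lit 252) (.e (nat_lit 57406) (nat_lit 12) .nil)))))) (.g (nat_lit 1) (.e (nat_lit 379371) (nat_lit 0) .nil) .nil))) 
(.lf (nat_lit 582183) (.g (nat_lit 3447) (.e (nat_lit 344117) (nat_lit 21) (.e (nat_lit 516143) (nat_lit 9) (.e (nat_lit 426412) (nat_lit 15) (.e (nat_lit 2059) (nat_lit 142) (.e (nat_lit 704589) (nat_lit 3) (.e (nat_lit 163976) (nat_lit 30) (.e (nat_lit 573481) (nat_lit 13) (.e (nat_lit 65619) (nat_lit 10) .nil)))))))) (.g (nat_lit 1) (.e (nat_lit 380876) (nat_lit 0) .nil) .nil)))) 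
(.nd (nat_lit 9) 
(.lf (nat_lit 581927) (.g (nat_lit 2328) (.e (nat_lit 344069) (nat_lit 0) (.e (nat_lit 3090) (nat_lit 191) (.e (nat_lit 483411) (nat_lit 27) (.e (nat_lit 401440) (nat_lit 9) (.e (nat_lit 433920) (nat_lit 28) .nil))))) (.g (nat_lit 1) (.e (nat_lit 379927) (nat_lit 0) .nil) .nil))) 
(.lf (nat_lit 582439) (.g (nat_lit 2646) (.e (nat_lit 344138) (nat_lit 29) (.e (nat_lit 581653) (nat_lit 6) (.e (nat_lit 188431) (nat_lit 20) (.e (nat_lit 3572) (nat_lit 222) (.e (nat_lit 737300) (nat_lit 7) (.e (nat_lit 286753) (nat_lit 10) .nil)))))) (.g (nat_lit 1) (.e (nat_lit 381305) (nat_lit 0) .nil) .nil))))) (.nd (nat_lit 8) (.nd (nat_lit 9) 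
(.lf (nat_lit 581799) (.g (nat_lit 2504) (.e (nat_lit 344068) (nat_lit 0) (.e (nat_lit 3090) (nat_lit 191) (.e (nat_lit 483372) (nat_lit 21) (.e (nat_lit 319505) (nat_lit 10) (.e (nat_lit 5712) (nat_lit 312) (.e (nat_lit 7936) (nat_lit 22) .nil)))))) (.g (nat_lit 1) (.e (nat_lit 379696) (nat_lit 0) .nil) .nil))) 
(.lf (nat_lit 582311) (.g (nat_lit 2686) (.e (nat_lit 344119) (nat_lit 21) (.e (nat_lit 516139) (nat_lit 7) (.e (nat_lit 409645) (nat_lit 18) (.e (nat_lit 303112) (nat_lit 0) (.e (nat_lit 3252) (nat_lit 197) .nil))))) (.g (nat_lit 0) (.e (nat_lit 381085) (nat_lit 0) .nil) .nil)))) (.nd (nat_lit 9) 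
(.lf (nat_lit 582055) (.g (nat_lit 3715) (.e (nat_lit 344117) (nat_lit 21) (.e (nat_lit 516115) (nat_lit 1) (.e (nat_lit 164179) (nat_lit 154) (.e (nat_lit 57373) (nat_lit 2) (.e (nat_lit 90128) (nat_lit 9) (.e (nat_lit 2706) (nat_lit 170) (.e (nat_lit 221214) (nat_lit 23) (.e (nat_lit 204862) (nat_lit 27) .nil)))))))) (.g (nat_lit 1) (.e (nat_lit 380725) (nat_lit 0) .nil) .nil))) 
(.lf (nat_lit 582567) (.g (nat_lit 2962) (.e (nat_lit 344129) (nat_lit 26) (.e (nat_lit 557090) (nat_lit 12) (.e (nat_lit 163850) (nat_lit 0) (.e (nat_lit 6425) (nat_lit 342) (.e (nat_lit 229406) (nat_lit 12) .nil))))) (.g (nat_lit 0) (.e (nat_lit 381483) (nat_lit 0) .nil) .nil)))))) (.nd (nat_lit 7) (.nd (nat_lit 8) (.nd (nat_lit 9) 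
(.lf (nat_lit 581735) (.g (nat_lit 2738) (.e (nat_lit 344068) (nat_lit 0) (.e (nat_lit 2857) (nat_lit 184) (.e (nat_lit 426482) (nat_lit 27) (.e (nat_lit 336060) (nat_lit 7) (.e (nat_lit 319537) (nat_lit 19) (.e (nat_lit 311357) (nat_lit 28) .nil)))))) (.g (nat_lit 1) (.e (nat_lit 379575) (nat_lit 0) .nil) .nil))) 
(.lf (nat_lit 582247) (.g (nat_lit 986) (.e (nat_lit 344118) (nat_lit 21) (.e (nat_lit 516120) (nat_lit 1) (.e (nat_lit 164181) (nat_lit 154) .nil))) (.g (nat_lit 0) (.e (nat_lit 380987) (nat_lit 0) .nil) .nil)))) (.nd (nat_lit 9) 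
(.lf (nat_lit 581991) (.g (nat_lit 823) (.e (nat_lit 344100) (nat_lit 18) (.e (nat_lit 5906) (nat_lit 320) (.e (nat_lit 1211) (nat_lit 89) (.e (nat_lit 73782) (nat_lit 32) .nil)))) (.g (nat_lit 0) (.e (nat_lit 380527) (nat_lit 0) .nil) .nil))) 
(.lf (nat_lit 582503) (.g (nat_lit 2353) (.e (nat_lit 344127) (nat_lit 26) (.e (nat_lit 557093) (nat_lit 12) (.e (nat_lit 164022) (nat_lit 46) (.e (nat_lit 704629) (nat_lit 9) (.e (nat_lit 370) (nat_lit 32) .nil))))) (.g (nat_lit 0) (.e (nat_lit 381382) (nat_lit 0) .nil) .nil))))) (.nd (nat_lit 8) (.nd (nat_lit 9) 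
(.lf (nat_lit 581863) (.g (nat_lit 1922) (.e (nat_lit 344069) (nat_lit 0) (.e (nat_lit 3090) (nat_lit 191) (.e (nat_lit 483350) (nat_lit 17) (.e (nat_lit 6109) (nat_lit 332) (.e (nat_lit 1388) (nat_lit 105) (.e (nat_lit 311357) (nat_lit 28) .nil)))))) (.g (nat_lit 1) (.e (nat_lit 379840) (nat_lit 0) .nil) .nil))) 
(.lf (nat_lit 582375) (.g (nat_lit 3255) (.e (nat_lit 344119) (nat_lit 21) (.e (nat_lit 516179) (nat_lit 15) (.e (nat_lit 475198) (nat_lit 40) (.e (nat_lit 704590) (nat_lit 3) (.e (nat_lit 163975) (nat_lit 30) (.e (nat_lit 573481) (nat_lit 13) (.e (nat_lit 65619) (nat_lit 10) .nil))))))) (.g (nat_lit 1) (.e (nat_lit 381156) (nat_lit 0) .nil) .nil)))) (.nd (nat_lit 9) 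
(.lf (nat_lit 582119) (.g (nat_lit 2917) (.e (nat_lit 344117) (nat_lit 21) (.e (nat_lit 516139) (nat_lit 7) (.e (nat_lit 409644) (nat_lit 18) (.e (nat_lit 303119) (nat_lit 3) (.e (nat_lit 204850) (nat_lit 26) (.e (nat_lit 336177) (nat_lit 10) .nil)))))) (.g (nat_lit 1) (.e (nat_lit 380811) (nat_lit 0) .nil) .nil))) 
(.lf (nat_lit 582631) (.g (nat_lit 2407) (.e (nat_lit 344130) (nat_lit 26) (.e (nat_lit 557103) (nat_lit 14) (.e (nat_lit 180250) (nat_lit 10) (.e (nat_lit 573474) (nat_lit 12) (.e (nat_lit 57507) (nat_lit 39) (.e (nat_lit 647170) (nat_lit 0) (.e (nat_lit 2680) (nat_lit 168) (.e (nat_lit 204864) (nat_lit 27) .nil)))))))) (.g (nat_lit 1) (.e (nat_lit 381580) (nat_lit 0) .nil) .nil)))))))) 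
(.nd (nat_lit 5) (.nd (nat_lit 6) (.nd (nat_lit 7) (.nd (nat_lit 8) (.nd (nat_lit 9) 
(.lf (nat_lit 581655) (.g (nat_lit 2545) (.e (nat_lit 336456) (nat_lit 34) (.e (nat_lit 483365) (nat_lit 18) (.e (nat_lit 57848) (nat_lit 252) (.e (nat_lit 57372) (nat_lit 2) (.e (nat_lit 90160) (nat_lit 11) (.e (nat_lit 24624) (nat_lit 9) .nil)))))) (.g (nat_lit 1) (.e (nat_lit 379354) (nat_lit 0) .nil) .nil))) 
(.lf (nat_lit 582167) (.g (nat_lit 2242) (.e (nat_lit 344117) (nat_lit 21) (.e (nat_lit 516139) (nat_lit 7) (.e (nat_lit 409649) (nat_lit 18) (.e (nat_lit 303107) (nat_lit 0) .nil)))) (.g (nat_lit 0) (.e (nat_lit 380859) (nat_lit 0) .nil) .nil)))) (.nd (nat_lit 9) 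
(.lf (nat_lit 581911) (.g (nat_lit 1999) (.e (nat_lit 344069) (nat_lit 0) (.e (nat_lit 3090) (nat_lit 191) (.e (nat_lit 483372) (nat_lit 21) (.e (nat_lit 319511) (nat_lit 10) (.e (nat_lit 5612) (nat_lit 312) .nil))))) (.g (nat_lit 0) (.e (nat_lit 379896) (nat_lit 0) .nil) .nil))) 
(.lf (nat_lit 582423) (.g (nat_lit 2037) (.e (nat_lit 344138) (nat_lit 29) (.e (nat_lit 581651) (nat_lit 4) (.e (nat_lit 172113) (nat_lit 10) (.e (nat_lit 434295) (nat_lit 49) (.e (nat_lit 745491) (nat_lit 4) (.e (nat_lit 65619) (nat_lit 10) .nil)))))) (.g (nat_lit 1) (.e (nat_lit 381281) (nat_lit 0) .nil) .nil))))) (.nd (nat_lit 8) (.nd (nat_lit 9) 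
(.lf (nat_lit 581783) (.g (nat_lit 2580) (.e (nat_lit 344068) (nat_lit 0) (.e (nat_lit 3090) (nat_lit 191) (.e (nat_lit 483354) (nat_lit 17) (.e (nat_lit 6676) (nat_lit 357) (.e (nat_lit 2857) (nat_lit 184) (.e (nat_lit 426533) (nat_lit 28) .nil)))))) (.g (nat_lit 1) (.e (nat_lit 379675) (nat_lit 0) .nil) .nil))) 
(.lf (nat_lit 582295) (.g (nat_lit 858) (.e (nat_lit 344119) (nat_lit 21) (.e (nat_lit 516120) (nat_lit 1) (.e (nat_lit 164226) (nat_lit 181) .nil))) (.g (nat_lit 0) (.e (nat_lit 381059) (nat_lit 0) .nil) .nil)))) (.nd (nat_lit 9) 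
(.lf (nat_lit 582039) (.g (nat_lit 1386) (.e (nat_lit 344117) (nat_lit 21) (.e (nat_lit 516097) (nat_lit 0) (.e (nat_lit 3605) (nat_lit 225) (.e (nat_lit 761899) (nat_lit 15) (.e (nat_lit 163963) (nat_lit 25) .nil))))) (.g (nat_lit 0) (.e (nat_lit 380686) (nat_lit 0) .nil) .nil))) 
(.lf (nat_lit 582551) (.g (nat_lit 4816) (.e (nat_lit 344129) (nat_lit 26) (.e (nat_lit 557087) (nat_lit 11) (.e (nat_lit 24661) (nat_lit 14) (.e (nat_lit 401424) (nat_lit 2) (.e (nat_lit 196666) (nat_lit 13) (.e (nat_lit 65610) (nat_lit 10) .nil)))))) (.g (nat_lit 1) (.e (nat_lit 381464) (nat_lit 0) .nil) .nil)))))) (.nd (nat_lit 7) (.nd (nat_lit 8) (.nd (nat_lit 9) 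
(.lf (nat_lit 581719) (.g (nat_lit 1871) (.e (nat_lit 344068) (nat_lit 0) (.e (nat_lit 2682) (nat_lit 168) (.e (nat_lit 204869) (nat_lit 29) (.e (nat_lit 360457) (nat_lit 0) .nil)))) (.g (nat_lit 0) (.e (nat_lit 379544) (nat_lit 0) .nil) .nil))) 
(.lf (nat_lit 582231) (.g (nat_lit 2300) (.e (nat_lit 344117) (nat_lit 21) (.e (nat_lit 516195) (nat_lit 26) (.e (nat_lit 336027) (nat_lit 3) (.e (nat_lit 98323) (nat_lit 17) (.e (nat_lit 2397) (nat_lit 157) .nil))))) (.g (nat_lit 0) (.e (nat_lit 380953) (nat_lit 0) .nil) .nil)))) (.nd (nat_lit 9) 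
(.lf (nat_lit 581975) (.g (nat_lit 5614) (.e (nat_lit 344097) (nat_lit 18) (.e (nat_lit 4715) (nat_lit 275) (.e (nat_lit 2610) (nat_lit 163) (.e (nat_lit 163979) (nat_lit 30) (.e (nat_lit 573482) (nat_lit 13) (.e (nat_lit 65619) (nat_lit 10) (.e (nat_lit 344129) (nat_lit 26) (.e (nat_lit 557066) (nat_lit 9) (.e (nat_lit 307) (nat_lit 22) .nil))))))))) (.g (nat_lit 1) (.e (nat_lit 380463) (nat_lit 0) .nil) .nil))) 
(.lf (nat_lit 582487) (.g (nat_lit 3308) (.e (nat_lit 344127) (nat_lit 26) (.e (nat_lit 557090) (nat_lit 12) (.e (nat_lit 163843) (nat_lit 0) (.e (nat_lit 6252) (nat_lit 337) (.e (nat_lit 2725) (nat_lit 172) (.e (nat_lit 237589) (nat_lit 2) (.e (nat_lit 196666) (nat_lit 13) (.e (nat_lit 65617) (nat_lit 10) .nil)))))))) (.g (nat_lit 1) (.e (nat_lit 381360) (nat_lit 0) .nil) .nil))))) 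
(.nd (nat_lit 8) (.nd (nat_lit 9) 
(.lf (nat_lit 581847) (.g (nat_lit 1433) (.e (nat_lit 344069) (nat_lit 0) (.e (nat_lit 3088) (nat_lit 191) (.e (nat_lit 483409) (nat_lit 27) (.e (nat_lit 401437) (nat_lit 9) (.e (nat_lit 426533) (nat_lit 28) .nil))))) (.g (nat_lit 0) (.e (nat_lit 379808) (nat_lit 0) .nil) .nil))) 
(.lf (nat_lit 582359) (.g (nat_lit 2988) (.e (nat_lit 344119) (nat_lit 21) (.e (nat_lit 516139) (nat_lit 7) (.e (nat_lit 409649) (nat_lit 18) (.e (nat_lit 303119) (nat_lit 3) (.e (nat_lit 204851) (nat_lit 26) (.e (nat_lit 336160) (nat_lit 10) .nil)))))) (.g (nat_lit 1) (.e (nat_lit 381137) (nat_lit 0) .nil) .nil)))) (.nd (nat_lit 9) 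
(.lf (nat_lit 582103) (.g (nat_lit 2358) (.e (nat_lit 344117) (nat_lit 21) (.e (nat_lit 516138) (nat_lit 7) (.e (nat_lit 409645) (nat_lit 18) (.e (nat_lit 303119) (nat_lit 3) (.e (nat_lit 204858) (nat_lit 26) .nil))))) (.g (nat_lit 0) (.e (nat_lit 380790) (nat_lit 0) .nil) .nil))) 
(.lf (nat_lit 582615) (.g (nat_lit 2334) (.e (nat_lit 344130) (nat_lit 26) (.e (nat_lit 557090) (nat_lit 12) (.e (nat_lit 164022) (nat_lit 46) (.e (nat_lit 704629) (nat_lit 9) (.e (nat_lit 442) (nat_lit 33) .nil))))) (.g (nat_lit 0) (.e (nat_lit 381555) (nat_lit 0) .nil) .nil))))))) (.nd (nat_lit 6) (.nd (nat_lit 7) (.nd (nat_lit 8) (.nd (nat_lit 9) 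
(.lf (nat_lit 581687) (.g (nat_lit 2276) (.e (nat_lit 336456) (nat_lit 34) (.e (nat_lit 483396) (nat_lit 24) (.e (nat_lit 344133) (nat_lit 26) (.e (nat_lit 557091) (nat_lit 12) (.e (nat_lit 163999) (nat_lit 38) .nil))))) (.g (nat_lit 0) (.e (nat_lit 379403) (nat_lit 0) .nil) .nil))) 
(.lf (nat_lit 582199) (.g (nat_lit 3056) (.e (nat_lit 344117) (nat_lit 21) (.e (nat_lit 516159) (nat_lit 10) (.e (nat_lit 434263) (nat_lit 34) (.e (nat_lit 622623) (nat_lit 13) (.e (nat_lit 2668) (nat_lit 167) (.e (nat_lit 196666) (nat_lit 13) (.e (nat_lit 65610) (nat_lit 10) .nil))))))) (.g (nat_lit 1) (.e (nat_lit 380896) (nat_lit 0) .nil) .nil)))) (.nd (nat_lit 9) 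
(.lf (nat_lit 581943) (.g (nat_lit 2566) (.e (nat_lit 352000) (nat_lit 5) (.e (nat_lit 180271) (nat_lit 26) (.e (nat_lit 704629) (nat_lit 9) (.e (nat_lit 375) (nat_lit 32) (.e (nat_lit 426201) (nat_lit 9) .nil))))) (.g (nat_lit 0) (.e (nat_lit 380177) (nat_lit 0) .nil) .nil))) 
(.lf (nat_lit 582455) (.g (nat_lit 2106) (.e (nat_lit 344138) (nat_lit 29) (.e (nat_lit 581653) (nat_lit 6) (.e (nat_lit 188435) (nat_lit 20) (.e (nat_lit 3579) (nat_lit 223) (.e (nat_lit 745491) (nat_lit 4) (.e (nat_lit 65616) (nat_lit 10) .nil)))))) (.g (nat_lit 1) (.e (nat_lit 381321) (nat_lit 0) .nil) .nil))))) (.nd (nat_lit 8) (.nd (nat_lit 9) 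
(.lf (nat_lit 581815) (.g (nat_lit 1442) (.e (nat_lit 344068) (nat_lit 0) (.e (nat_lit 3090) (nat_lit 191) (.e (nat_lit 483372) (nat_lit 21) (.e (nat_lit 327424) (nat_lit 10) .nil)))) (.g (nat_lit 0) (.e (nat_lit 379717) (nat_lit 0) .nil) .nil))) 
(.lf (nat_lit 582327) (.g (nat_lit 2132) (.e (nat_lit 344119) (nat_lit 21) (.e (nat_lit 516139) (nat_lit 7) (.e (nat_lit 409646) (nat_lit 18) (.e (nat_lit 303118) (nat_lit 3) (.e (nat_lit 204855) (nat_lit 26) .nil))))) (.g (nat_lit 0) (.e (nat_lit 381101) (nat_lit 0) .nil) .nil)))) (.nd (nat_lit 9) 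
(.lf (nat_lit 582071) (.g (nat_lit 3296) (.e (nat_lit 344117) (nat_lit 21) (.e (nat_lit 516116) (nat_lit 1) (.e (nat_lit 164183) (nat_lit 154) (.e (nat_lit 57378) (nat_lit 3) (.e (nat_lit 98319) (nat_lit 17) (.e (nat_lit 3771) (nat_lit 229) (.e (nat_lit 794673) (nat_lit 23) (.e (nat_lit 204862) (nat_lit 27) .nil)))))))) (.g (nat_lit 1) (.e (nat_lit 380752) (nat_lit 0) .nil) .nil))) 
(.lf (nat_lit 582583) (.g (nat_lit 3279) (.e (nat_lit 344129) (nat_lit 26) (.e (nat_lit 557103) (nat_lit 14) (.e (nat_lit 180250) (nat_lit 10) (.e (nat_lit 573474) (nat_lit 12) (.e (nat_lit 57506) (nat_lit 39) (.e (nat_lit 647175) (nat_lit 0) (.e (nat_lit 2684) (nat_lit 168) (.e (nat_lit 204862) (nat_lit 27) .nil)))))))) (.g (nat_lit 1) (.e (nat_lit 381501) (nat_lit 0) .nil) .nil)))))) 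
(.nd (nat_lit 7) (.nd (nat_lit 8) (.nd (nat_lit 9) 
(.lf (nat_lit 581751) (.g (nat_lit 1058) (.e (nat_lit 344068) (nat_lit 0) (.e (nat_lit 3090) (nat_lit 191) (.e (nat_lit 483344) (nat_lit 17) (.e (nat_lit 7936) (nat_lit 361) .nil)))) (.g (nat_lit 0) (.e (nat_lit 379642) (nat_lit 0) .nil) .nil))) 
(.lf (nat_lit 582263) (.g (nat_lit 811) (.e (nat_lit 344118) (nat_lit 21) (.e (nat_lit 516138) (nat_lit 7) (.e (nat_lit 409646) (nat_lit 18) .nil))) (.g (nat_lit 0) (.e (nat_lit 381017) (nat_lit 0) .nil) .nil)))) (.nd (nat_lit 9) 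
(.lf (nat_lit 582007) (.g (nat_lit 2459) (.e (nat_lit 344107) (nat_lit 19) (.e (nat_lit 499916) (nat_lit 9) (.e (nat_lit 172119) (nat_lit 12) (.e (nat_lit 475179) (nat_lit 24) (.e (nat_lit 516131) (nat_lit 3) (.e (nat_lit 229120) (nat_lit 12) .nil)))))) (.g (nat_lit 1) (.e (nat_lit 380625) (nat_lit 0) .nil) .nil))) 
(.lf (nat_lit 582519) (.g (nat_lit 2887) (.e (nat_lit 344129) (nat_lit 26) (.e (nat_lit 557067) (nat_lit 9) (.e (nat_lit 2416) (nat_lit 157) (.e (nat_lit 3471) (nat_lit 217) (.e (nat_lit 696344) (nat_lit 8) (.e (nat_lit 172064) (nat_lit 2) (.e (nat_lit 196666) (nat_lit 13) (.e (nat_lit 65610) (nat_lit 10) .nil)))))))) (.g (nat_lit 1) (.e (nat_lit 381421) (nat_lit 0) .nil) .nil))))) 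
(.nd (nat_lit 8) (.nd (nat_lit 9) 
(.lf (nat_lit 581879) (.g (nat_lit 1115) (.e (nat_lit 344069) (nat_lit 0) (.e (nat_lit 3090) (nat_lit 191) (.e (nat_lit 483350) (nat_lit 17) (.e (nat_lit 6225) (nat_lit 334) .nil)))) (.g (nat_lit 0) (.e (nat_lit 379856) (nat_lit 0) .nil) .nil))) 
(.lf (nat_lit 582391) (.g (nat_lit 1864) (.e (nat_lit 344120) (nat_lit 21) (.e (nat_lit 516139) (nat_lit 7) (.e (nat_lit 409645) (nat_lit 18) (.e (nat_lit 303117) (nat_lit 2) .nil)))) (.g (nat_lit 0) (.e (nat_lit 381182) (nat_lit 0) .nil) .nil)))) (.nd (nat_lit 9) 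
(.lf (nat_lit 582135) (.g (nat_lit 3741) (.e (nat_lit 344117) (nat_lit 21) (.e (nat_lit 516139) (nat_lit 7) (.e (nat_lit 409645) (nat_lit 18) (.e (nat_lit 303119) (nat_lit 3) (.e (nat_lit 204855) (nat_lit 26) (.e (nat_lit 336177) (nat_lit 10) .nil)))))) (.g (nat_lit 1) (.e (nat_lit 380827) (nat_lit 0) .nil) .nil))) 
(.lf (nat_lit 582647) (.g (nat_lit 2465) (.e (nat_lit 344130) (nat_lit 26) (.e (nat_lit 557104) (nat_lit 14) (.e (nat_lit 180252) (nat_lit 10) (.e (nat_lit 573474) (nat_lit 12) (.e (nat_lit 57506) (nat_lit 39) (.e (nat_lit 647170) (nat_lit 0) (.e (nat_lit 2685) (nat_lit 168) (.e (nat_lit 204864) (nat_lit 27) .nil)))))))) (.g (nat_lit 1) (.e (nat_lit 381596) (nat_lit 0) .nil) .nil))))))))) 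
(.nd (nat_lit 4) (.nd (nat_lit 5) (.nd (nat_lit 6) (.nd (nat_lit 7) (.nd (nat_lit 8) 
(.nd (nat_lit 9) 
(.lf (nat_lit 581647) (.g (nat_lit 1951) (.e (nat_lit 336456) (nat_lit 34) (.e (nat_lit 483365) (nat_lit 18) (.e (nat_lit 57844) (nat_lit 252) (.e (nat_lit 57375) (nat_lit 2) (.e (nat_lit 90160) (nat_lit 11) .nil))))) (.g (nat_lit 0) (.e (nat_lit 379346) (nat_lit 0) .nil) .nil))) 
(.lf (nat_lit 582159) (.g (nat_lit 5301) (.e (nat_lit 344117) (nat_lit 21) (.e (nat_lit 516139) (nat_lit 7) (.e (nat_lit 409647) (nat_lit 18) (.e (nat_lit 303117) (nat_lit 2) (.e (nat_lit 196666) (nat_lit 13) (.e (nat_lit 65617) (nat_lit 10) .nil)))))) (.g (nat_lit 1) (.e (nat_lit 380851) (nat_lit 0) .nil) .nil)))) (.nd (nat_lit 9) 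
(.lf (nat_lit 581903) (.g (nat_lit 3138) (.e (nat_lit 344069) (nat_lit 0) (.e (nat_lit 3090) (nat_lit 191) (.e (nat_lit 483372) (nat_lit 21) (.e (nat_lit 319505) (nat_lit 10) (.e (nat_lit 5714) (nat_lit 312) (.e (nat_lit 299) (nat_lit 22) .nil)))))) (.g (nat_lit 1) (.e (nat_lit 379883) (nat_lit 0) .nil) .nil))) 
(.lf (nat_lit 582415) (.g (nat_lit 1146) (.e (nat_lit 344138) (nat_lit 29) (.e (nat_lit 581636) (nat_lit 0) (.e (nat_lit 3027) (nat_lit 187) (.e (nat_lit 450605) (nat_lit 27) (.e (nat_lit 745491) (nat_lit 4) (.e (nat_lit 65620) (nat_lit 10) .nil)))))) (.g (nat_lit 1) (.e (nat_lit 381273) (nat_lit 0) .nil) .nil))))) (.nd (nat_lit 8) (.nd (nat_lit 9) 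
(.lf (nat_lit 581775) (.g (nat_lit 1143) (.e (nat_lit 344068) (nat_lit 0) (.e (nat_lit 3090) (nat_lit 191) (.e (nat_lit 483350) (nat_lit 17) (.e (nat_lit 6225) (nat_lit 334) .nil)))) (.g (nat_lit 0) (.e (nat_lit 379667) (nat_lit 0) .nil) .nil))) 
(.lf (nat_lit 582287) (.g (nat_lit 1311) (.e (nat_lit 344118) (nat_lit 21) (.e (nat_lit 516182) (nat_lit 15) (.e (nat_lit 475198) (nat_lit 40) (.e (nat_lit 704589) (nat_lit 3) (.e (nat_lit 163976) (nat_lit 30) (.e (nat_lit 573481) (nat_lit 13) (.e (nat_lit 65609) (nat_lit 10) .nil))))))) (.g (nat_lit 1) (.e (nat_lit 381044) (nat_lit 0) .nil) .nil)))) (.nd (nat_lit 9) 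
(.lf (nat_lit 582031) (.g (nat_lit 590) (.e (nat_lit 344116) (nat_lit 21) (.e (nat_lit 516148) (nat_lit 9) (.e (nat_lit 426444) (nat_lit 19) (.e (nat_lit 114432) (nat_lit 3) .nil)))) (.g (nat_lit 0) (.e (nat_lit 380676) (nat_lit 0) .nil) .nil))) 
(.lf (nat_lit 582543) (.g (nat_lit 3982) (.e (nat_lit 344129) (nat_lit 26) (.e (nat_lit 557087) (nat_lit 11) (.e (nat_lit 24617) (nat_lit 7) (.e (nat_lit 319505) (nat_lit 10) (.e (nat_lit 7936) (nat_lit 45) (.e (nat_lit 532535) (nat_lit 9) (.e (nat_lit 336167) (nat_lit 10) .nil))))))) (.g (nat_lit 1) (.e (nat_lit 381456) (nat_lit 0) .nil) .nil)))))) 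
(.nd (nat_lit 7) (.nd (nat_lit 8) (.nd (nat_lit 9) 
(.lf (nat_lit 581711) (.g (nat_lit 3151) (.e (nat_lit 344067) (nat_lit 0) (.e (nat_lit 2505) (nat_lit 157) (.e (nat_lit 3249) (nat_lit 197) (.e (nat_lit 532550) (nat_lit 12) (.e (nat_lit 360475) (nat_lit 8) (.e (nat_lit 557073) (nat_lit 9) (.e (nat_lit 7936) (nat_lit 22) .nil))))))) (.g (nat_lit 1) (.e (nat_lit 379499) (nat_lit 0) .nil) .nil))) 
(.lf (nat_lit 582223) (.g (nat_lit 3501) (.e (nat_lit 344117) (nat_lit 21) (.e (nat_lit 516195) (nat_lit 26) (.e (nat_lit 335988) (nat_lit 1) (.e (nat_lit 57927) (nat_lit 282) (.e (nat_lit 163941) (nat_lit 19) (.e (nat_lit 483395) (nat_lit 24) .nil)))))) (.g (nat_lit 1) (.e (nat_lit 380934) (nat_lit 0) .nil) .nil)))) (.nd (nat_lit 9) 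
(.lf (nat_lit 581967) (.g (nat_lit 1484) (.e (nat_lit 344091) (nat_lit 18) (.e (nat_lit 7265) (nat_lit 384) (.e (nat_lit 57406) (nat_lit 12) (.e (nat_lit 336136) (nat_lit 9) .nil)))) (.g (nat_lit 0) (.e (nat_lit 380404) (nat_lit 0) .nil) .nil))) 
(.lf (nat_lit 582479) (.g (nat_lit 2525) (.e (nat_lit 344138) (nat_lit 29) (.e (nat_lit 581653) (nat_lit 6) (.e (nat_lit 188441) (nat_lit 20) (.e (nat_lit 3579) (nat_lit 223) (.e (nat_lit 745491) (nat_lit 4) (.e (nat_lit 65611) (nat_lit 10) .nil)))))) (.g (nat_lit 1) (.e (nat_lit 381345) (nat_lit 0) .nil) .nil))))) (.nd (nat_lit 8) (.nd (nat_lit 9) 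
(.lf (nat_lit 581839) (.g (nat_lit 2534) (.e (nat_lit 344069) (nat_lit 0) (.e (nat_lit 2857) (nat_lit 184) (.e (nat_lit 426509) (nat_lit 27) (.e (nat_lit 336228) (nat_lit 14) (.e (nat_lit 401437) (nat_lit 9) (.e (nat_lit 426533) (nat_lit 28) .nil)))))) (.g (nat_lit 1) (.e (nat_lit 379787) (nat_lit 0) .nil) .nil))) 
(.lf (nat_lit 582351) (.g (nat_lit 2520) (.e (nat_lit 344119) (nat_lit 21) (.e (nat_lit 516139) (nat_lit 7) (.e (nat_lit 409649) (nat_lit 18) (.e (nat_lit 303117) (nat_lit 2) (.e (nat_lit 196665) (nat_lit 13) .nil))))) (.g (nat_lit 0) (.e (nat_lit 381128) (nat_lit 0) .nil) .nil)))) (.nd (nat_lit 9) 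
(.lf (nat_lit 582095) (.g (nat_lit 2926) (.e (nat_lit 344117) (nat_lit 21) (.e (nat_lit 516138) (nat_lit 7) (.e (nat_lit 409645) (nat_lit 18) (.e (nat_lit 303112) (nat_lit 0) (.e (nat_lit 3252) (nat_lit 197) .nil))))) (.g (nat_lit 0) (.e (nat_lit 380781) (nat_lit 0) .nil) .nil))) 
(.lf (nat_lit 582607) (.g (nat_lit 2027) (.e (nat_lit 344130) (nat_lit 26) (.e (nat_lit 557065) (nat_lit 9) (.e (nat_lit 214) (nat_lit 19) (.e (nat_lit 319490) (nat_lit 0) (.e (nat_lit 5612) (nat_lit 312) .nil))))) (.g (nat_lit 0) (.e (nat_lit 381527) (nat_lit 0) .nil) .nil))))))) (.nd (nat_lit 6) (.nd (nat_lit 7) (.nd (nat_lit 8) (.nd (nat_lit 9) 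
(.lf (nat_lit 581679) (.g (nat_lit 1435) (.e (nat_lit 336456) (nat_lit 34) (.e (nat_lit 483393) (nat_lit 23) (.e (nat_lit 336021) (nat_lit 3) (.e (nat_lit 98333) (nat_lit 18) (.e (nat_lit 164179) (nat_lit 154) .nil))))) (.g (nat_lit 0) (.e (nat_lit 379390) (nat_lit 0) .nil) .nil))) 
(.lf (nat_lit 582191) (.g (nat_lit 5227) (.e (nat_lit 344117) (nat_lit 21) (.e (nat_lit 516151) (nat_lit 9) (.e (nat_lit 426412) (nat_lit 15) (.e (nat_lit 2059) (nat_lit 142) (.e (nat_lit 704589) (nat_lit 3) (.e (nat_lit 163976) (nat_lit 30) (.e (nat_lit 573481) (nat_lit 13) (.e (nat_lit 65618) (nat_lit 10) .nil)))))))) (.g (nat_lit 1) (.e (nat_lit 380887) (nat_lit 0) .nil) .nil)))) 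
(.nd (nat_lit 9) 
(.lf (nat_lit 581935) (.g (nat_lit 930) (.e (nat_lit 352000) (nat_lit 3) (.e (nat_lit 163977) (nat_lit 30) (.e (nat_lit 573487) (nat_lit 14) (.e (nat_lit 73766) (nat_lit 19) .nil)))) (.g (nat_lit 0) (.e (nat_lit 380085) (nat_lit 0) .nil) .nil))) 
(.lf (nat_lit 582447) (.g (nat_lit 2786) (.e (nat_lit 344138) (nat_lit 29) (.e (nat_lit 581653) (nat_lit 6) (.e (nat_lit 188434) (nat_lit 20) (.e (nat_lit 3579) (nat_lit 223) (.e (nat_lit 745491) (nat_lit 4) (.e (nat_lit 65611) (nat_lit 10) .nil)))))) (.g (nat_lit 1) (.e (nat_lit 381313) (nat_lit 0) .nil) .nil))))) (.nd (nat_lit 8) (.nd (nat_lit 9) 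
(.lf (nat_lit 581807) (.g (nat_lit 2464) (.e (nat_lit 344068) (nat_lit 0) (.e (nat_lit 3090) (nat_lit 191) (.e (nat_lit 483372) (nat_lit 21) (.e (nat_lit 319508) (nat_lit 10) .nil)))) (.g (nat_lit 0) (.e (nat_lit 379707) (nat_lit 0) .nil) .nil))) 
(.lf (nat_lit 582319) (.g (nat_lit 1811) (.e (nat_lit 344119) (nat_lit 21) (.e (nat_lit 516139) (nat_lit 7) (.e (nat_lit 409645) (nat_lit 18) (.e (nat_lit 303119) (nat_lit 3) .nil)))) (.g (nat_lit 0) (.e (nat_lit 381093) (nat_lit 0) .nil) .nil)))) (.nd (nat_lit 9) 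
(.lf (nat_lit 582063) (.g (nat_lit 2965) (.e (nat_lit 344117) (nat_lit 21) (.e (nat_lit 516115) (nat_lit 1) (.e (nat_lit 164182) (nat_lit 154) (.e (nat_lit 57375) (nat_lit 2) (.e (nat_lit 90181) (nat_lit 16) (.e (nat_lit 229472) (nat_lit 57) (.e (nat_lit 794673) (nat_lit 23) (.e (nat_lit 204862) (nat_lit 27) .nil)))))))) (.g (nat_lit 1) (.e (nat_lit 380740) (nat_lit 0) .nil) .nil))) 
(.lf (nat_lit 582575) (.g (nat_lit 2902) (.e (nat_lit 344129) (nat_lit 26) (.e (nat_lit 557097) (nat_lit 13) (.e (nat_lit 172066) (nat_lit 3) (.e (nat_lit 204829) (nat_lit 18) (.e (nat_lit 57704) (nat_lit 164) (.e (nat_lit 2601) (nat_lit 163) (.e (nat_lit 163962) (nat_lit 25) (.e (nat_lit 532543) (nat_lit 10) .nil)))))))) (.g (nat_lit 1) (.e (nat_lit 381493) (nat_lit 0) .nil) .nil)))))) 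
(.nd (nat_lit 7) (.nd (nat_lit 8) (.nd (nat_lit 9) 
(.lf (nat_lit 581743) (.g (nat_lit 1587) (.e (nat_lit 344068) (nat_lit 0) (.e (nat_lit 3088) (nat_lit 191) (.e (nat_lit 483409) (nat_lit 27) (.e (nat_lit 401437) (nat_lit 9) (.e (nat_lit 426533) (nat_lit 28) .nil))))) (.g (nat_lit 0) (.e (nat_lit 379617) (nat_lit 0) .nil) .nil))) 
(.lf (nat_lit 582255) (.g (nat_lit 1301) (.e (nat_lit 344118) (nat_lit 21) (.e (nat_lit 516120) (nat_lit 1) (.e (nat_lit 164183) (nat_lit 154) (.e (nat_lit 57375) (nat_lit 2) .nil)))) (.g (nat_lit 0) (.e (nat_lit 381006) (nat_lit 0) .nil) .nil)))) (.nd (nat_lit 9) 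
(.lf (nat_lit 581999) (.g (nat_lit 2296) (.e (nat_lit 344100) (nat_lit 18) (.e (nat_lit 7270) (nat_lit 385) (.e (nat_lit 122919) (nat_lit 15) (.e (nat_lit 360453) (nat_lit 0) .nil)))) (.g (nat_lit 0) (.e (nat_lit 380542) (nat_lit 0) .nil) .nil))) 
(.lf (nat_lit 582511) (.g (nat_lit 4311) (.e (nat_lit 344129) (nat_lit 26) (.e (nat_lit 557065) (nat_lit 9) (.e (nat_lit 3098) (nat_lit 192) (.e (nat_lit 491571) (nat_lit 13) (.e (nat_lit 393251) (nat_lit 18) (.e (nat_lit 164179) (nat_lit 154) (.e (nat_lit 57421) (nat_lit 13) .nil))))))) (.g (nat_lit 1) (.e (nat_lit 381397) (nat_lit 0) .nil) .nil))))) (.nd (nat_lit 8) (.nd (nat_lit 9) 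
(.lf (nat_lit 581871) (.g (nat_lit 1595) (.e (nat_lit 344069) (nat_lit 0) (.e (nat_lit 3090) (nat_lit 191) (.e (nat_lit 483350) (nat_lit 17) (.e (nat_lit 6151) (nat_lit 332) .nil)))) (.g (nat_lit 0) (.e (nat_lit 379848) (nat_lit 0) .nil) .nil))) 
(.lf (nat_lit 582383) (.g (nat_lit 1348) (.e (nat_lit 344120) (nat_lit 21) (.e (nat_lit 516115) (nat_lit 1) (.e (nat_lit 164183) (nat_lit 154) (.e (nat_lit 57373) (nat_lit 2) .nil)))) (.g (nat_lit 0) (.e (nat_lit 381168) (nat_lit 0) .nil) .nil)))) (.nd (nat_lit 9) 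
(.lf (nat_lit 582127) (.g (nat_lit 3255) (.e (nat_lit 344117) (nat_lit 21) (.e (nat_lit 516139) (nat_lit 7) (.e (nat_lit 409645) (nat_lit 18) (.e (nat_lit 303112) (nat_lit 0) (.e (nat_lit 3252) (nat_lit 197) (.e (nat_lit 532536) (nat_lit 9) (.e (nat_lit 336178) (nat_lit 10) .nil))))))) (.g (nat_lit 1) (.e (nat_lit 380819) (nat_lit 0) .nil) .nil))) 
(.lf (nat_lit 582639) (.g (nat_lit 2528) (.e (nat_lit 344130) (nat_lit 26) (.e (nat_lit 557103) (nat_lit 14) (.e (nat_lit 180250) (nat_lit 10) (.e (nat_lit 573474) (nat_lit 12) (.e (nat_lit 57509) (nat_lit 39) (.e (nat_lit 655104) (nat_lit 0) (.e (nat_lit 2684) (nat_lit 168) (.e (nat_lit 204862) (nat_lit 27) .nil)))))))) (.g (nat_lit 1) (.e (nat_lit 381588) (nat_lit 0) .nil) .nil)))))))) 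
(.nd (nat_lit 5) (.nd (nat_lit 6) (.nd (nat_lit 7) (.nd (nat_lit 8) (.nd (nat_lit 9) 
(.lf (nat_lit 581663) (.g (nat_lit 2488) (.e (nat_lit 336456) (nat_lit 34) (.e (nat_lit 483365) (nat_lit 18) (.e (nat_lit 57854) (nat_lit 252) (.e (nat_lit 57373) (nat_lit 2) (.e (nat_lit 90158) (nat_lit 11) (.e (nat_lit 24629) (nat_lit 9) .nil)))))) (.g (nat_lit 1) (.e (nat_lit 379362) (nat_lit 0) .nil) .nil))) 
(.lf (nat_lit 582175) (.g (nat_lit 3547) (.e (nat_lit 344117) (nat_lit 21) (.e (nat_lit 516139) (nat_lit 7) (.e (nat_lit 409649) (nat_lit 18) (.e (nat_lit 303119) (nat_lit 3) (.e (nat_lit 204855) (nat_lit 26) (.e (nat_lit 336178) (nat_lit 10) .nil)))))) (.g (nat_lit 1) (.e (nat_lit 380867) (nat_lit 0) .nil) .nil)))) (.nd (nat_lit 9) 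
(.lf (nat_lit 581919) (.g (nat_lit 2095) (.e (nat_lit 344069) (nat_lit 0) (.e (nat_lit 3090) (nat_lit 191) (.e (nat_lit 483375) (nat_lit 22) (.e (nat_lit 327705) (nat_lit 10) (.e (nat_lit 5722) (nat_lit 312) (.e (nat_lit 300) (nat_lit 22) .nil)))))) (.g (nat_lit 1) (.e (nat_lit 379909) (nat_lit 0) .nil) .nil))) 
(.lf (nat_lit 582431) (.g (nat_lit 394) (.e (nat_lit 344138) (nat_lit 29) (.e (nat_lit 581653) (nat_lit 6) (.e (nat_lit 188428) (nat_lit 20) .nil))) (.g (nat_lit 0) (.e (nat_lit 381296) (nat_lit 0) .nil) .nil))))) (.nd (nat_lit 8) (.nd (nat_lit 9) 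
(.lf (nat_lit 581791) (.g (nat_lit 1469) (.e (nat_lit 344068) (nat_lit 0) (.e (nat_lit 3090) (nat_lit 191) (.e (nat_lit 483372) (nat_lit 21) (.e (nat_lit 319496) (nat_lit 10) (.e (nat_lit 5692) (nat_lit 312) .nil))))) (.g (nat_lit 0) (.e (nat_lit 379683) (nat_lit 0) .nil) .nil))) 
(.lf (nat_lit 582303) (.g (nat_lit 1413) (.e (nat_lit 344119) (nat_lit 21) (.e (nat_lit 516139) (nat_lit 7) (.e (nat_lit 409617) (nat_lit 10) (.e (nat_lit 5762) (nat_lit 315) .nil)))) (.g (nat_lit 0) (.e (nat_lit 381075) (nat_lit 0) .nil) .nil)))) (.nd (nat_lit 9) 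
(.lf (nat_lit 582047) (.g (nat_lit 5901) (.e (nat_lit 344117) (nat_lit 21) (.e (nat_lit 516106) (nat_lit 0) (.e (nat_lit 6986) (nat_lit 377) (.e (nat_lit 2819) (nat_lit 181) (.e (nat_lit 311312) (nat_lit 2) (.e (nat_lit 196666) (nat_lit 13) (.e (nat_lit 65610) (nat_lit 10) .nil))))))) (.g (nat_lit 1) (.e (nat_lit 380699) (nat_lit 0) .nil) .nil))) 
(.lf (nat_lit 582559) (.g (nat_lit 4494) (.e (nat_lit 344129) (nat_lit 26) (.e (nat_lit 557087) (nat_lit 11) (.e (nat_lit 24663) (nat_lit 14) (.e (nat_lit 401423) (nat_lit 2) (.e (nat_lit 196666) (nat_lit 13) (.e (nat_lit 65610) (nat_lit 10) .nil)))))) (.g (nat_lit 1) (.e (nat_lit 381472) (nat_lit 0) .nil) .nil)))))) (.nd (nat_lit 7) (.nd (nat_lit 8) (.nd (nat_lit 9) 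
(.lf (nat_lit 581727) (.g (nat_lit 1109) (.e (nat_lit 344068) (nat_lit 0) (.e (nat_lit 2855) (nat_lit 184) (.e (nat_lit 426533) (nat_lit 28) (.e (nat_lit 344066) (nat_lit 0) (.e (nat_lit 2939) (nat_lit 184) (.e (nat_lit 426532) (nat_lit 28) .nil)))))) (.g (nat_lit 1) (.e (nat_lit 379555) (nat_lit 0) .nil) .nil))) 
(.lf (nat_lit 582239) (.g (nat_lit 1698) (.e (nat_lit 344118) (nat_lit 21) (.e (nat_lit 516117) (nat_lit 1) (.e (nat_lit 164183) (nat_lit 154) (.e (nat_lit 57373) (nat_lit 2) .nil)))) (.g (nat_lit 0) (.e (nat_lit 380969) (nat_lit 0) .nil) .nil)))) (.nd (nat_lit 9) 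
(.lf (nat_lit 581983) (.g (nat_lit 2010) (.e (nat_lit 344099) (nat_lit 18) (.e (nat_lit 5905) (nat_lit 320) (.e (nat_lit 1209) (nat_lit 89) (.e (nat_lit 73781) (nat_lit 32) .nil)))) (.g (nat_lit 0) (.e (nat_lit 380519) (nat_lit 0) .nil) .nil))) 
(.lf (nat_lit 582495) (.g (nat_lit 2434) (.e (nat_lit 344127) (nat_lit 26) (.e (nat_lit 557090) (nat_lit 12) (.e (nat_lit 163850) (nat_lit 0) (.e (nat_lit 6426) (nat_lit 342) (.e (nat_lit 229399) (nat_lit 12) (.e (nat_lit 426125) (nat_lit 2) (.e (nat_lit 196666) (nat_lit 13) (.e (nat_lit 65617) (nat_lit 10) .nil)))))))) (.g (nat_lit 1) (.e (nat_lit 381372) (nat_lit 0) .nil) .nil))))) 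
(.nd (nat_lit 8) (.nd (nat_lit 9) 
(.lf (nat_lit 581855) (.g (nat_lit 1692) (.e (nat_lit 344069) (nat_lit 0) (.e (nat_lit 3090) (nat_lit 191) (.e (nat_lit 483343) (nat_lit 17) (.e (nat_lit 6720) (nat_lit 361) (.e (nat_lit 179968) (nat_lit 28) .nil))))) (.g (nat_lit 1) (.e (nat_lit 379831) (nat_lit 0) .nil) .nil))) 
(.lf (nat_lit 582367) (.g (nat_lit 2464) (.e (nat_lit 344119) (nat_lit 21) (.e (nat_lit 516158) (nat_lit 9) (.e (nat_lit 426306) (nat_lit 12) (.e (nat_lit 475177) (nat_lit 24) (.e (nat_lit 516129) (nat_lit 3) (.e (nat_lit 229120) (nat_lit 12) .nil)))))) (.g (nat_lit 1) (.e (nat_lit 381148) (nat_lit 0) .nil) .nil)))) (.nd (nat_lit 9) 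
(.lf (nat_lit 582111) (.g (nat_lit 4456) (.e (nat_lit 344117) (nat_lit 21) (.e (nat_lit 516138) (nat_lit 7) (.e (nat_lit 409649) (nat_lit 18) (.e (nat_lit 303116) (nat_lit 2) (.e (nat_lit 196666) (nat_lit 13) (.e (nat_lit 65610) (nat_lit 10) .nil)))))) (.g (nat_lit 1) (.e (nat_lit 380800) (nat_lit 0) .nil) .nil))) 
(.lf (nat_lit 582623) (.g (nat_lit 3023) (.e (nat_lit 344130) (nat_lit 26) (.e (nat_lit 557103) (nat_lit 14) (.e (nat_lit 180243) (nat_lit 5) (.e (nat_lit 532503) (nat_lit 1) (.e (nat_lit 57704) (nat_lit 164) (.e (nat_lit 2601) (nat_lit 163) (.e (nat_lit 163962) (nat_lit 25) (.e (nat_lit 532544) (nat_lit 10) .nil)))))))) (.g (nat_lit 1) (.e (nat_lit 381572) (nat_lit 0) .nil) .nil))))))) 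
(.nd (nat_lit 6) (.nd (nat_lit 7) (.nd (nat_lit 8) (.nd (nat_lit 9) 
(.lf (nat_lit 581695) (.g (nat_lit 798) (.e (nat_lit 343808) (nat_lit 35) (.e (nat_lit 491566) (nat_lit 12) (.e (nat_lit 385068) (nat_lit 26) .nil))) (.g (nat_lit 0) (.e (nat_lit 379469) (nat_lit 0) .nil) .nil))) 
(.lf (nat_lit 582207) (.g (nat_lit 3112) (.e (nat_lit 344117) (nat_lit 21) (.e (nat_lit 516160) (nat_lit 10) (.e (nat_lit 434272) (nat_lit 38) (.e (nat_lit 655375) (nat_lit 3) (.e (nat_lit 163978) (nat_lit 30) (.e (nat_lit 573480) (nat_lit 13) (.e (nat_lit 65618) (nat_lit 10) .nil))))))) (.g (nat_lit 1) (.e (nat_lit 380908) (nat_lit 0) .nil) .nil)))) (.nd (nat_lit 9) 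
(.lf (nat_lit 581951) (.g (nat_lit 327) (.e (nat_lit 352000) (nat_lit 7) (.e (nat_lit 237636) (nat_lit 27) (.e (nat_lit 336100) (nat_lit 9) .nil))) (.g (nat_lit 0) (.e (nat_lit 380196) (nat_lit 0) .nil) .nil))) 
(.lf (nat_lit 582463) (.g (nat_lit 1782) (.e (nat_lit 344138) (nat_lit 29) (.e (nat_lit 581653) (nat_lit 6) (.e (nat_lit 188439) (nat_lit 20) (.e (nat_lit 3579) (nat_lit 223) (.e (nat_lit 745490) (nat_lit 4) (.e (nat_lit 65610) (nat_lit 10) .nil)))))) (.g (nat_lit 1) (.e (nat_lit 381329) (nat_lit 0) .nil) .nil))))) (.nd (nat_lit 8) (.nd (nat_lit 9) 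
(.lf (nat_lit 581823) (.g (nat_lit 603) (.e (nat_lit 344068) (nat_lit 0) (.e (nat_lit 3090) (nat_lit 191) (.e (nat_lit 483381) (nat_lit 23) .nil))) (.g (nat_lit 0) (.e (nat_lit 379731) (nat_lit 0) .nil) .nil))) 
(.lf (nat_lit 582335) (.g (nat_lit 2309) (.e (nat_lit 344119) (nat_lit 21) (.e (nat_lit 516139) (nat_lit 7) (.e (nat_lit 409647) (nat_lit 18) (.e (nat_lit 303119) (nat_lit 3) (.e (nat_lit 204855) (nat_lit 26) .nil))))) (.g (nat_lit 0) (.e (nat_lit 381110) (nat_lit 0) .nil) .nil)))) (.nd (nat_lit 9) 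
(.lf (nat_lit 582079) (.g (nat_lit 4273) (.e (nat_lit 344117) (nat_lit 21) (.e (nat_lit 516123) (nat_lit 2) (.e (nat_lit 213033) (nat_lit 12) (.e (nat_lit 163976) (nat_lit 30) (.e (nat_lit 573474) (nat_lit 12) (.e (nat_lit 57528) (nat_lit 46) (.e (nat_lit 704590) (nat_lit 3) (.e (nat_lit 163962) (nat_lit 25) (.e (nat_lit 532543) (nat_lit 10) .nil))))))))) (.g (nat_lit 1) (.e (nat_lit 380761) (nat_lit 0) .nil) .nil))) 
(.lf (nat_lit 582591) (.g (nat_lit 3023) (.e (nat_lit 344129) (nat_lit 26) (.e (nat_lit 557103) (nat_lit 14) (.e (nat_lit 180250) (nat_lit 10) (.e (nat_lit 573474) (nat_lit 12) (.e (nat_lit 57511) (nat_lit 39) (.e (nat_lit 655104) (nat_lit 0) (.e (nat_lit 2684) (nat_lit 168) (.e (nat_lit 204862) (nat_lit 27) .nil)))))))) (.g (nat_lit 1) (.e (nat_lit 381509) (nat_lit 0) .nil) .nil)))))) 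
(.nd (nat_lit 7) (.nd (nat_lit 8) (.nd (nat_lit 9) 
(.lf (nat_lit 581759) (.g (nat_lit 2075) (.e (nat_lit 344068) (nat_lit 0) (.e (nat_lit 3090) (nat_lit 191) (.e (nat_lit 483350) (nat_lit 17) (.e (nat_lit 6109) (nat_lit 332) (.e (nat_lit 1388) (nat_lit 105) (.e (nat_lit 311357) (nat_lit 28) .nil)))))) (.g (nat_lit 1) (.e (nat_lit 379650) (nat_lit 0) .nil) .nil))) 
(.lf (nat_lit 582271) (.g (nat_lit 2749) (.e (nat_lit 344118) (nat_lit 21) (.e (nat_lit 516165) (nat_lit 12) (.e (nat_lit 450586) (nat_lit 10) (.e (nat_lit 573473) (nat_lit 12) (.e (nat_lit 57354) (nat_lit 0) (.e (nat_lit 7270) (nat_lit 385) (.e (nat_lit 122913) (nat_lit 13) .nil))))))) (.g (nat_lit 1) (.e (nat_lit 381028) (nat_lit 0) .nil) .nil)))) (.nd (nat_lit 9) 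
(.lf (nat_lit 582015) (.g (nat_lit 1419) (.e (nat_lit 344115) (nat_lit 20) (.e (nat_lit 507923) (nat_lit 6) (.e (nat_lit 286742) (nat_lit 9) (.e (nat_lit 336295) (nat_lit 15) (.e (nat_lit 3305) (nat_lit 202) .nil))))) (.g (nat_lit 0) (.e (nat_lit 380636) (nat_lit 0) .nil) .nil))) 
(.lf (nat_lit 582527) (.g (nat_lit 2044) (.e (nat_lit 344129) (nat_lit 26) (.e (nat_lit 557074) (nat_lit 9) (.e (nat_lit 2739) (nat_lit 174) (.e (nat_lit 253959) (nat_lit 9) (.e (nat_lit 396) (nat_lit 32) (.e (nat_lit 426122) (nat_lit 2) (.e (nat_lit 196666) (nat_lit 13) (.e (nat_lit 65610) (nat_lit 10) .nil)))))))) (.g (nat_lit 1) (.e (nat_lit 381436) (nat_lit 0) .nil) .nil))))) 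
(.nd (nat_lit 8) (.nd (nat_lit 9) 
(.lf (nat_lit 581887) (.g (nat_lit 2361) (.e (nat_lit 344069) (nat_lit 0) (.e (nat_lit 3090) (nat_lit 191) (.e (nat_lit 483371) (nat_lit 21) (.e (nat_lit 319538) (nat_lit 19) (.e (nat_lit 311357) (nat_lit 28) .nil))))) (.g (nat_lit 1) (.e (nat_lit 379865) (nat_lit 0) .nil) .nil))) 
(.lf (nat_lit 582399) (.g (nat_lit 1128) (.e (nat_lit 344120) (nat_lit 21) (.e (nat_lit 516166) (nat_lit 12) (.e (nat_lit 450587) (nat_lit 10) .nil))) (.g (nat_lit 0) (.e (nat_lit 381191) (nat_lit 0) .nil) .nil)))) (.nd (nat_lit 9) 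
(.lf (nat_lit 582143) (.g (nat_lit 2124) (.e (nat_lit 344117) (nat_lit 21) (.e (nat_lit 516139) (nat_lit 7) (.e (nat_lit 409646) (nat_lit 18) (.e (nat_lit 303117) (nat_lit 2) (.e (nat_lit 196665) (nat_lit 13) .nil))))) (.g (nat_lit 0) (.e (nat_lit 380835) (nat_lit 0) .nil) .nil))) 
(.lf (nat_lit 582655) (.g (nat_lit 2781) (.e (nat_lit 344130) (nat_lit 26) (.e (nat_lit 557104) (nat_lit 14) (.e (nat_lit 180252) (nat_lit 10) (.e (nat_lit 573475) (nat_lit 12) (.e (nat_lit 57506) (nat_lit 39) (.e (nat_lit 647175) (nat_lit 0) (.e (nat_lit 2684) (nat_lit 168) (.e (nat_lit 204862) (nat_lit 27) .nil)))))))) (.g (nat_lit 1) (.e (nat_lit 381604) (nat_lit 0) .nil) .nil)))))))))))))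

noncomputable def tv5629 : DT := (.nd (nat_lit 0) (.nd (nat_lit 1) (.nd (nat_lit 2) (.nd (nat_lit 3) (.nd (nat_lit 4) (.nd (nat_lit 5) (.nd (nat_lit 6) (.nd (nat_lit 7) (.nd (nat_lit 8) (.nd (nat_lit 9) 
(.lf (nat_lit 582656) (.g (nat_lit 2709) (.e (nat_lit 344130) (nat_lit 26) (.e (nat_lit 557104) (nat_lit 14) (.e (nat_lit 180252) (nat_lit 10) (.e (nat_lit 573475) (nat_lit 12) (.e (nat_lit 57506) (nat_lit 39) (.e (nat_lit 655104) (nat_lit 0) (.e (nat_lit 2684) (nat_lit 168) (.e (nat_lit 204863) (nat_lit 27) .nil)))))))) (.g (nat_lit 1) (.e (nat_lit 381605) (nat_lit 0) .nil) .nil))) 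
(.lf (nat_lit 583168) (.g (nat_lit 1394) (.e (nat_lit 352274) (nat_lit 11) (.e (nat_lit 426107) (nat_lit 1) (.e (nat_lit 164179) (nat_lit 154) (.e (nat_lit 57407) (nat_lit 12) .nil)))) (.g (nat_lit 0) (.e (nat_lit 383195) (nat_lit 0) .nil) .nil)))) (.nd (nat_lit 9) 
(.lf (nat_lit 582912) (.g (nat_lit 3813) (.e (nat_lit 344161) (nat_lit 37) (.e (nat_lit 647170) (nat_lit 0) (.e (nat_lit 3098) (nat_lit 192) (.e (nat_lit 491566) (nat_lit 12) (.e (nat_lit 385100) (nat_lit 49) (.e (nat_lit 778249) (nat_lit 0) (.e (nat_lit 1454) (nat_lit 108) (.e (nat_lit 336176) (nat_lit 10) .nil)))))))) (.g (nat_lit 1) (.e (nat_lit 382258) (nat_lit 0) .nil) .nil))) 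
(.lf (nat_lit 583424) (.g (nat_lit 2568) (.e (nat_lit 352314) (nat_lit 23) (.e (nat_lit 98349) (nat_lit 24) (.e (nat_lit 409649) (nat_lit 18) (.e (nat_lit 303119) (nat_lit 3) (.e (nat_lit 204866) (nat_lit 28) .nil))))) (.g (nat_lit 0) (.e (nat_lit 383728) (nat_lit 0) .nil) .nil))))) (.nd (nat_lit 8) (.nd (nat_lit 9) 
(.lf (nat_lit 582784) (.g (nat_lit 2770) (.e (nat_lit 344133) (nat_lit 26) (.e (nat_lit 557087) (nat_lit 11) (.e (nat_lit 24625) (nat_lit 9) (.e (nat_lit 336260) (nat_lit 15) .nil)))) (.g (nat_lit 0) (.e (nat_lit 381833) (nat_lit 0) .nil) .nil))) 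
(.lf (nat_lit 583296) (.g (nat_lit 954) (.e (nat_lit 352297) (nat_lit 20) (.e (nat_lit 2390) (nat_lit 156) (.e (nat_lit 819203) (nat_lit 0) (.e (nat_lit 3022) (nat_lit 187) (.e (nat_lit 458496) (nat_lit 3) (.e (nat_lit 524032) (nat_lit 28) .nil)))))) (.g (nat_lit 1) (.e (nat_lit 383463) (nat_lit 0) .nil) .nil)))) (.nd (nat_lit 9) 
(.lf (nat_lit 583040) (.g (nat_lit 2629) (.e (nat_lit 352266) (nat_lit 0) (.e (nat_lit 3253) (nat_lit 197) (.e (nat_lit 532504) (nat_lit 1) (.e (nat_lit 57854) (nat_lit 252) (.e (nat_lit 57447) (nat_lit 19) (.e (nat_lit 401152) (nat_lit 11) .nil)))))) (.g (nat_lit 1) (.e (nat_lit 382777) (nat_lit 0) .nil) .nil))) 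
(.lf (nat_lit 583552) (.g (nat_lit 3492) (.e (nat_lit 360466) (nat_lit 3) (.e (nat_lit 516139) (nat_lit 7) (.e (nat_lit 409646) (nat_lit 18) (.e (nat_lit 303119) (nat_lit 3) (.e (nat_lit 204870) (nat_lit 29) .nil))))) (.g (nat_lit 1) (.e (nat_lit 384165) (nat_lit 0) .nil) .nil)))))) (.nd (nat_lit 7) (.nd (nat_lit 8) (.nd (nat_lit 9) 
(.lf (nat_lit 582720) (.g (nat_lit 3309) (.e (nat_lit 344132) (nat_lit 26) (.e (nat_lit 557094) (nat_lit 12) (.e (nat_lit 163852) (nat_lit 0) (.e (nat_lit 6428) (nat_lit 342) (.e (nat_lit 229399) (nat_lit 12) (.e (nat_lit 426125) (nat_lit 2) (.e (nat_lit 196666) (nat_lit 13) (.e (nat_lit 65617) (nat_lit 10) .nil)))))))) (.g (nat_lit 1) (.e (nat_lit 381735) (nat_lit 0) .nil) .nil))) 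
(.lf (nat_lit 583232) (.g (nat_lit 1104) (.e (nat_lit 352290) (nat_lit 20) (.e (nat_lit 2390) (nat_lit 156) (.e (nat_lit 819204) (nat_lit 0) (.e (nat_lit 3016) (nat_lit 187) (.e (nat_lit 458496) (nat_lit 3) .nil))))) (.g (nat_lit 0) (.e (nat_lit 383374) (nat_lit 0) .nil) .nil)))) (.nd (nat_lit 9) 
(.lf (nat_lit 582976) (.g (nat_lit 2404) (.e (nat_lit 352260) (nat_lit 0) (.e (nat_lit 3305) (nat_lit 202) (.e (nat_lit 573484) (nat_lit 13) (.e (nat_lit 65617) (nat_lit 10) (.e (nat_lit 344130) (nat_lit 26) .nil))))) (.g (nat_lit 0) (.e (nat_lit 382550) (nat_lit 0) .nil) .nil))) 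
(.lf (nat_lit 583488) (.g (nat_lit 1633) (.e (nat_lit 360451) (nat_lit 0) (.e (nat_lit 5236) (nat_lit 297) (.e (nat_lit 229415) (nat_lit 15) (.e (nat_lit 450597) (nat_lit 17) (.e (nat_lit 663579) (nat_lit 9) (.e (nat_lit 7936) (nat_lit 24) .nil)))))) (.g (nat_lit 1) (.e (nat_lit 383887) (nat_lit 0) .nil) .nil))))) (.nd (nat_lit 8) (.nd (nat_lit 9) 
(.lf (nat_lit 582848) (.g (nat_lit 1234) (.e (nat_lit 344156) (nat_lit 36) (.e (nat_lit 638998) (nat_lit 8) (.e (nat_lit 172033) (nat_lit 0) (.e (nat_lit 7107) (nat_lit 380) (.e (nat_lit 164281) (nat_lit 222) .nil))))) (.g (nat_lit 0) (.e (nat_lit 382075) (nat_lit 0) .nil) .nil))) 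
(.lf (nat_lit 583360) (.g (nat_lit 373) (.e (nat_lit 352307) (nat_lit 21) (.e (nat_lit 57849) (nat_lit 252) (.e (nat_lit 57388) (nat_lit 5) .nil))) (.g (nat_lit 0) (.e (nat_lit 383581) (nat_lit 0) .nil) .nil)))) (.nd (nat_lit 9) 
(.lf (nat_lit 583104) (.g (nat_lit 2569) (.e (nat_lit 360192) (nat_lit 3) (.e (nat_lit 204829) (nat_lit 18) (.e (nat_lit 57849) (nat_lit 252) (.e (nat_lit 57407) (nat_lit 12) (.e (nat_lit 336372) (nat_lit 27) .nil))))) (.g (nat_lit 0) (.e (nat_lit 383057) (nat_lit 0) .nil) .nil))) 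
(.lf (nat_lit 583616) (.g (nat_lit 3262) (.e (nat_lit 360467) (nat_lit 3) (.e (nat_lit 516139) (nat_lit 7) (.e (nat_lit 409647) (nat_lit 18) (.e (nat_lit 303118) (nat_lit 3) (.e (nat_lit 204868) (nat_lit 29) .nil))))) (.g (nat_lit 1) (.e (nat_lit 384253) (nat_lit 0) .nil) .nil))))))) (.nd (nat_lit 6) (.nd (nat_lit 7) (.nd (nat_lit 8) (.nd (nat_lit 9) 
(.lf (nat_lit 582688) (.g (nat_lit 2543) (.e (nat_lit 344131) (nat_lit 26) (.e (nat_lit 557105) (nat_lit 14) (.e (nat_lit 180252) (nat_lit 10) (.e (nat_lit 573473) (nat_lit 12) (.e (nat_lit 57507) (nat_lit 39) (.e (nat_lit 655104) (nat_lit 0) (.e (nat_lit 2684) (nat_lit 168) (.e (nat_lit 204862) (nat_lit 27) .nil)))))))) (.g (nat_lit 1) (.e (nat_lit 381640) (nat_lit 0) .nil) .nil))) 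
(.lf (nat_lit 583200) (.g (nat_lit 2612) (.e (nat_lit 352277) (nat_lit 11) (.e (nat_lit 426500) (nat_lit 27) (.e (nat_lit 335996) (nat_lit 1) (.e (nat_lit 57924) (nat_lit 282) (.e (nat_lit 163875) (nat_lit 3) (.e (nat_lit 204865) (nat_lit 28) .nil)))))) (.g (nat_lit 1) (.e (nat_lit 383260) (nat_lit 0) .nil) .nil)))) (.nd (nat_lit 9) 
(.lf (nat_lit 582944) (.g (nat_lit 1475) (.e (nat_lit 344179) (nat_lit 44) (.e (nat_lit 778465) (nat_lit 11) (.e (nat_lit 24665) (nat_lit 14) (.e (nat_lit 409344) (nat_lit 25) .nil)))) (.g (nat_lit 0) (.e (nat_lit 382372) (nat_lit 0) .nil) .nil))) 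
(.lf (nat_lit 583456) (.g (nat_lit 2436) (.e (nat_lit 352315) (nat_lit 23) (.e (nat_lit 98366) (nat_lit 27) (.e (nat_lit 434275) (nat_lit 39) (.e (nat_lit 663580) (nat_lit 9) (.e (nat_lit 39) (nat_lit 0) .nil))))) (.g (nat_lit 0) (.e (nat_lit 383792) (nat_lit 0) .nil) .nil))))) (.nd (nat_lit 8) (.nd (nat_lit 9) 
(.lf (nat_lit 582816) (.g (nat_lit 2504) (.e (nat_lit 344133) (nat_lit 26) (.e (nat_lit 557103) (nat_lit 14) (.e (nat_lit 180250) (nat_lit 10) (.e (nat_lit 573474) (nat_lit 12) (.e (nat_lit 57508) (nat_lit 39) (.e (nat_lit 647168) (nat_lit 0) (.e (nat_lit 2685) (nat_lit 168) (.e (nat_lit 204862) (nat_lit 27) .nil)))))))) (.g (nat_lit 1) (.e (nat_lit 381911) (nat_lit 0) .nil) .nil))) 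
(.lf (nat_lit 583328) (.g (nat_lit 1593) (.e (nat_lit 352302) (nat_lit 20) (.e (nat_lit 2391) (nat_lit 156) (.e (nat_lit 819204) (nat_lit 0) (.e (nat_lit 3022) (nat_lit 187) (.e (nat_lit 458496) (nat_lit 3) (.e (nat_lit 524032) (nat_lit 28) .nil)))))) (.g (nat_lit 1) (.e (nat_lit 383513) (nat_lit 0) .nil) .nil)))) (.nd (nat_lit 9) 
(.lf (nat_lit 583072) (.g (nat_lit 1045) (.e (nat_lit 352267) (nat_lit 0) (.e (nat_lit 3630) (nat_lit 227) (.e (nat_lit 778323) (nat_lit 5) (.e (nat_lit 73779) (nat_lit 32) (.e (nat_lit 2941) (nat_lit 184) (.e (nat_lit 426541) (nat_lit 29) .nil)))))) (.g (nat_lit 1) (.e (nat_lit 382886) (nat_lit 0) .nil) .nil))) 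
(.lf (nat_lit 583584) (.g (nat_lit 3285) (.e (nat_lit 360466) (nat_lit 3) (.e (nat_lit 516195) (nat_lit 26) (.e (nat_lit 335988) (nat_lit 1) (.e (nat_lit 57926) (nat_lit 282) (.e (nat_lit 163903) (nat_lit 12) (.e (nat_lit 426546) (nat_lit 30) .nil)))))) (.g (nat_lit 1) (.e (nat_lit 384211) (nat_lit 0) .nil) .nil)))))) (.nd (nat_lit 7) (.nd (nat_lit 8) (.nd (nat_lit 9) 
(.lf (nat_lit 582752) (.g (nat_lit 3868) (.e (nat_lit 344132) (nat_lit 26) (.e (nat_lit 557105) (nat_lit 14) (.e (nat_lit 180252) (nat_lit 10) (.e (nat_lit 573474) (nat_lit 12) (.e (nat_lit 57506) (nat_lit 39) (.e (nat_lit 655104) (nat_lit 0) (.e (nat_lit 2684) (nat_lit 168) (.e (nat_lit 204862) (nat_lit 27) .nil)))))))) (.g (nat_lit 1) (.e (nat_lit 381792) (nat_lit 0) .nil) .nil))) 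
(.lf (nat_lit 583264) (.g (nat_lit 1107) (.e (nat_lit 352294) (nat_lit 20) (.e (nat_lit 1788) (nat_lit 119) (.e (nat_lit 516195) (nat_lit 26) (.e (nat_lit 335986) (nat_lit 1) .nil)))) (.g (nat_lit 0) (.e (nat_lit 383423) (nat_lit 0) .nil) .nil)))) (.nd (nat_lit 9) 
(.lf (nat_lit 583008) (.g (nat_lit 837) (.e (nat_lit 352262) (nat_lit 0) (.e (nat_lit 3632) (nat_lit 227) (.e (nat_lit 778324) (nat_lit 5) (.e (nat_lit 81664) (nat_lit 32) .nil)))) (.g (nat_lit 0) (.e (nat_lit 382704) (nat_lit 0) .nil) .nil))) 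
(.lf (nat_lit 583520) (.g (nat_lit 1365) (.e (nat_lit 368384) (nat_lit 0) (.e (nat_lit 5939) (nat_lit 322) (.e (nat_lit 57437) (nat_lit 17) (.e (nat_lit 376835) (nat_lit 0) .nil)))) (.g (nat_lit 0) (.e (nat_lit 384058) (nat_lit 0) .nil) .nil))))) (.nd (nat_lit 8) (.nd (nat_lit 9) 
(.lf (nat_lit 582880) (.g (nat_lit 2077) (.e (nat_lit 344168) (nat_lit 40) (.e (nat_lit 671763) (nat_lit 5) (.e (nat_lit 73782) (nat_lit 32) (.e (nat_lit 3089) (nat_lit 191) (.e (nat_lit 483394) (nat_lit 24) .nil))))) (.g (nat_lit 1) (.e (nat_lit 382182) (nat_lit 0) .nil) .nil))) 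
(.lf (nat_lit 583392) (.g (nat_lit 892) (.e (nat_lit 352311) (nat_lit 22) (.e (nat_lit 90160) (nat_lit 11) (.e (nat_lit 24597) (nat_lit 1) .nil))) (.g (nat_lit 0) (.e (nat_lit 383657) (nat_lit 0) .nil) .nil)))) (.nd (nat_lit 9) 
(.lf (nat_lit 583136) (.g (nat_lit 1029) (.e (nat_lit 360192) (nat_lit 5) (.e (nat_lit 221206) (nat_lit 21) (.e (nat_lit 164330) (nat_lit 230) (.e (nat_lit 163934) (nat_lit 17) .nil)))) (.g (nat_lit 0) (.e (nat_lit 383122) (nat_lit 0) .nil) .nil))) 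
(.lf (nat_lit 583648) (.g (nat_lit 799) (.e (nat_lit 368384) (nat_lit 3) (.e (nat_lit 516102) (nat_lit 0) (.e (nat_lit 6989) (nat_lit 377) (.e (nat_lit 2810) (nat_lit 180) .nil)))) (.g (nat_lit 0) (.e (nat_lit 384346) (nat_lit 0) .nil) .nil)))))))) (.nd (nat_lit 5) (.nd (nat_lit 6) (.nd (nat_lit 7) (.nd (nat_lit 8) (.nd (nat_lit 9) 
(.lf (nat_lit 582672) (.g (nat_lit 1780) (.e (nat_lit 344131) (nat_lit 26) (.e (nat_lit 557098) (nat_lit 13) (.e (nat_lit 172064) (nat_lit 2) (.e (nat_lit 196652) (nat_lit 11) .nil)))) (.g (nat_lit 0) (.e (nat_lit 381624) (nat_lit 0) .nil) .nil))) 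
(.lf (nat_lit 583184) (.g (nat_lit 4057) (.e (nat_lit 352277) (nat_lit 11) (.e (nat_lit 426343) (nat_lit 14) (.e (nat_lit 491558) (nat_lit 10) (.e (nat_lit 344097) (nat_lit 18) (.e (nat_lit 7270) (nat_lit 385) (.e (nat_lit 122914) (nat_lit 14) .nil)))))) (.g (nat_lit 1) (.e (nat_lit 383226) (nat_lit 0) .nil) .nil)))) (.nd (nat_lit 9) 
(.lf (nat_lit 582928) (.g (nat_lit 3568) (.e (nat_lit 344171) (nat_lit 41) (.e (nat_lit 753671) (nat_lit 5) (.e (nat_lit 3098) (nat_lit 192) (.e (nat_lit 491569) (nat_lit 13) (.e (nat_lit 393301) (nat_lit 27) (.e (nat_lit 491558) (nat_lit 10) .nil)))))) (.g (nat_lit 1) (.e (nat_lit 382308) (nat_lit 0) .nil) .nil))) 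
(.lf (nat_lit 583440) (.g (nat_lit 1933) (.e (nat_lit 352315) (nat_lit 23) (.e (nat_lit 98313) (nat_lit 9) (.e (nat_lit 335988) (nat_lit 1) (.e (nat_lit 57927) (nat_lit 282) (.e (nat_lit 163906) (nat_lit 12) (.e (nat_lit 426543) (nat_lit 29) .nil)))))) (.g (nat_lit 1) (.e (nat_lit 383751) (nat_lit 0) .nil) .nil))))) (.nd (nat_lit 8) (.nd (nat_lit 9) 
(.lf (nat_lit 582800) (.g (nat_lit 2730) (.e (nat_lit 344133) (nat_lit 26) (.e (nat_lit 557098) (nat_lit 13) (.e (nat_lit 179968) (nat_lit 15) (.e (nat_lit 1800) (nat_lit 119) (.e (nat_lit 516119) (nat_lit 1) (.e (nat_lit 164345) (nat_lit 240) (.e (nat_lit 2601) (nat_lit 163) (.e (nat_lit 163962) (nat_lit 25) (.e (nat_lit 532543) (nat_lit 10) .nil))))))))) (.g (nat_lit 1) (.e (nat_lit 381895) (nat_lit 0) .nil) .nil))) 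
(.lf (nat_lit 583312) (.g (nat_lit 1555) (.e (nat_lit 352302) (nat_lit 20) (.e (nat_lit 1788) (nat_lit 119) (.e (nat_lit 516139) (nat_lit 7) (.e (nat_lit 417536) (nat_lit 18) .nil)))) (.g (nat_lit 0) (.e (nat_lit 383492) (nat_lit 0) .nil) .nil)))) (.nd (nat_lit 9) 
(.lf (nat_lit 583056) (.g (nat_lit 2148) (.e (nat_lit 352267) (nat_lit 0) (.e (nat_lit 3253) (nat_lit 197) (.e (nat_lit 532503) (nat_lit 1) (.e (nat_lit 57847) (nat_lit 252) (.e (nat_lit 57446) (nat_lit 19) (.e (nat_lit 401152) (nat_lit 11) .nil)))))) (.g (nat_lit 1) (.e (nat_lit 382823) (nat_lit 0) .nil) .nil))) 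
(.lf (nat_lit 583568) (.g (nat_lit 248) (.e (nat_lit 360466) (nat_lit 3) (.e (nat_lit 516169) (nat_lit 13) (.e (nat_lit 458774) (nat_lit 18) .nil))) (.g (nat_lit 0) (.e (nat_lit 384192) (nat_lit 0) .nil) .nil)))))) (.nd (nat_lit 7) (.nd (nat_lit 8) (.nd (nat_lit 9) 
(.lf (nat_lit 582736) (.g (nat_lit 2662) (.e (nat_lit 344132) (nat_lit 26) (.e (nat_lit 557100) (nat_lit 13) (.e (nat_lit 172067) (nat_lit 3) (.e (nat_lit 204829) (nat_lit 18) (.e (nat_lit 57704) (nat_lit 164) .nil))))) (.g (nat_lit 0) (.e (nat_lit 381776) (nat_lit 0) .nil) .nil))) 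
(.lf (nat_lit 583248) (.g (nat_lit 1305) (.e (nat_lit 352291) (nat_lit 20) (.e (nat_lit 2390) (nat_lit 156) (.e (nat_lit 819204) (nat_lit 0) (.e (nat_lit 3015) (nat_lit 187) (.e (nat_lit 458496) (nat_lit 3) .nil))))) (.g (nat_lit 0) (.e (nat_lit 383395) (nat_lit 0) .nil) .nil)))) (.nd (nat_lit 9) 
(.lf (nat_lit 582992) (.g (nat_lit 3484) (.e (nat_lit 352262) (nat_lit 0) (.e (nat_lit 3305) (nat_lit 202) (.e (nat_lit 573482) (nat_lit 13) (.e (nat_lit 65630) (nat_lit 14) (.e (nat_lit 401428) (nat_lit 3) (.e (nat_lit 204865) (nat_lit 28) .nil)))))) (.g (nat_lit 1) (.e (nat_lit 382657) (nat_lit 0) .nil) .nil))) 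
(.lf (nat_lit 583504) (.g (nat_lit 2732) (.e (nat_lit 360456) (nat_lit 0) (.e (nat_lit 5949) (nat_lit 322) (.e (nat_lit 57400) (nat_lit 10) (.e (nat_lit 319490) (nat_lit 0) (.e (nat_lit 5664) (nat_lit 312) (.e (nat_lit 2852) (nat_lit 184) (.e (nat_lit 426546) (nat_lit 30) .nil))))))) (.g (nat_lit 1) (.e (nat_lit 383978) (nat_lit 0) .nil) .nil))))) (.nd (nat_lit 8) (.nd (nat_lit 9) 
(.lf (nat_lit 582864) (.g (nat_lit 1449) (.e (nat_lit 344157) (nat_lit 36) (.e (nat_lit 638999) (nat_lit 8) (.e (nat_lit 172112) (nat_lit 10) (.e (nat_lit 434269) (nat_lit 36) (.e (nat_lit 639021) (nat_lit 16) (.e (nat_lit 65617) (nat_lit 10) .nil)))))) (.g (nat_lit 1) (.e (nat_lit 382143) (nat_lit 0) .nil) .nil))) 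
(.lf (nat_lit 583376) (.g (nat_lit 3214) (.e (nat_lit 352309) (nat_lit 21) (.e (nat_lit 57844) (nat_lit 252) (.e (nat_lit 57388) (nat_lit 5) (.e (nat_lit 114698) (nat_lit 11) (.e (nat_lit 426198) (nat_lit 9) (.e (nat_lit 426542) (nat_lit 29) .nil)))))) (.g (nat_lit 1) (.e (nat_lit 383635) (nat_lit 0) .nil) .nil)))) (.nd (nat_lit 9) 
(.lf (nat_lit 583120) (.g (nat_lit 1983) (.e (nat_lit 360192) (nat_lit 5) (.e (nat_lit 221206) (nat_lit 21) (.e (nat_lit 164325) (nat_lit 230) (.e (nat_lit 163907) (nat_lit 12) (.e (nat_lit 426227) (nat_lit 9) .nil))))) (.g (nat_lit 0) (.e (nat_lit 383100) (nat_lit 0) .nil) .nil))) 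
(.lf (nat_lit 583632) (.g (nat_lit 5315) (.e (nat_lit 360467) (nat_lit 3) (.e (nat_lit 516142) (nat_lit 8) (.e (nat_lit 417828) (nat_lit 18) (.e (nat_lit 303119) (nat_lit 3) (.e (nat_lit 204869) (nat_lit 29) .nil))))) (.g (nat_lit 1) (.e (nat_lit 384273) (nat_lit 0) .nil) .nil))))))) (.nd (nat_lit 6) (.nd (nat_lit 7) (.nd (nat_lit 8) (.nd (nat_lit 9) 
(.lf (nat_lit 582704) (.g (nat_lit 1172) (.e (nat_lit 344132) (nat_lit 26) (.e (nat_lit 557085) (nat_lit 11) (.e (nat_lit 24627) (nat_lit 9) (.e (nat_lit 336306) (nat_lit 15) .nil)))) (.g (nat_lit 0) (.e (nat_lit 381688) (nat_lit 0) .nil) .nil))) 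
(.lf (nat_lit 583216) (.g (nat_lit 2528) (.e (nat_lit 352290) (nat_lit 20) (.e (nat_lit 2005) (nat_lit 138) (.e (nat_lit 671763) (nat_lit 5) (.e (nat_lit 73781) (nat_lit 32) (.e (nat_lit 2856) (nat_lit 184) (.e (nat_lit 426542) (nat_lit 29) .nil)))))) (.g (nat_lit 1) (.e (nat_lit 383357) (nat_lit 0) .nil) .nil)))) (.nd (nat_lit 9) 
(.lf (nat_lit 582960) (.g (nat_lit 3398) (.e (nat_lit 344180) (nat_lit 44) (.e (nat_lit 778466) (nat_lit 11) (.e (nat_lit 24617) (nat_lit 7) (.e (nat_lit 319505) (nat_lit 10) (.e (nat_lit 720) (nat_lit 64) (.e (nat_lit 688177) (nat_lit 16) (.e (nat_lit 65616) (nat_lit 10) .nil))))))) (.g (nat_lit 1) (.e (nat_lit 382389) (nat_lit 0) .nil) .nil))) 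
(.lf (nat_lit 583472) (.g (nat_lit 3187) (.e (nat_lit 352318) (nat_lit 24) (.e (nat_lit 123195) (nat_lit 266) (.e (nat_lit 57400) (nat_lit 10) (.e (nat_lit 319490) (nat_lit 0) (.e (nat_lit 5664) (nat_lit 312) (.e (nat_lit 2852) (nat_lit 184) (.e (nat_lit 426539) (nat_lit 29) .nil))))))) (.g (nat_lit 1) (.e (nat_lit 383837) (nat_lit 0) .nil) .nil))))) (.nd (nat_lit 8) (.nd (nat_lit 9) 
(.lf (nat_lit 582832) (.g (nat_lit 3176) (.e (nat_lit 344133) (nat_lit 26) (.e (nat_lit 557105) (nat_lit 14) (.e (nat_lit 180252) (nat_lit 10) (.e (nat_lit 573474) (nat_lit 12) (.e (nat_lit 57347) (nat_lit 0) (.e (nat_lit 5438) (nat_lit 306) (.e (nat_lit 2604) (nat_lit 163) (.e (nat_lit 163962) (nat_lit 25) (.e (nat_lit 532543) (nat_lit 10) .nil))))))))) (.g (nat_lit 1) (.e (nat_lit 381927) (nat_lit 0) .nil) .nil))) 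
(.lf (nat_lit 583344) (.g (nat_lit 1240) (.e (nat_lit 352303) (nat_lit 20) (.e (nat_lit 2391) (nat_lit 156) (.e (nat_lit 819203) (nat_lit 0) (.e (nat_lit 3016) (nat_lit 187) (.e (nat_lit 458496) (nat_lit 3) (.e (nat_lit 524032) (nat_lit 28) .nil)))))) (.g (nat_lit 1) (.e (nat_lit 383537) (nat_lit 0) .nil) .nil)))) (.nd (nat_lit 9) 
(.lf (nat_lit 583088) (.g (nat_lit 2381) (.e (nat_lit 360192) (nat_lit 0) (.e (nat_lit 3302) (nat_lit 202) (.e (nat_lit 573484) (nat_lit 13) (.e (nat_lit 65617) (nat_lit 10) (.e (nat_lit 344133) (nat_lit 26) .nil))))) (.g (nat_lit 0) (.e (nat_lit 382933) (nat_lit 0) .nil) .nil))) 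
(.lf (nat_lit 583600) (.g (nat_lit 3854) (.e (nat_lit 360467) (nat_lit 3) (.e (nat_lit 516138) (nat_lit 7) (.e (nat_lit 409649) (nat_lit 18) (.e (nat_lit 303112) (nat_lit 0) (.e (nat_lit 3252) (nat_lit 197) .nil))))) (.g (nat_lit 0) (.e (nat_lit 384232) (nat_lit 0) .nil) .nil)))))) (.nd (nat_lit 7) (.nd (nat_lit 8) (.nd (nat_lit 9) 
(.lf (nat_lit 582768) (.g (nat_lit 2802) (.e (nat_lit 344132) (nat_lit 26) (.e (nat_lit 557105) (nat_lit 14) (.e (nat_lit 180252) (nat_lit 10) (.e (nat_lit 573475) (nat_lit 12) (.e (nat_lit 57508) (nat_lit 39) (.e (nat_lit 647170) (nat_lit 0) (.e (nat_lit 2680) (nat_lit 168) (.e (nat_lit 204864) (nat_lit 27) .nil)))))))) (.g (nat_lit 1) (.e (nat_lit 381808) (nat_lit 0) .nil) .nil))) 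
(.lf (nat_lit 583280) (.g (nat_lit 1200) (.e (nat_lit 352296) (nat_lit 20) (.e (nat_lit 2391) (nat_lit 156) (.e (nat_lit 819203) (nat_lit 0) (.e (nat_lit 3022) (nat_lit 187) (.e (nat_lit 458496) (nat_lit 3) (.e (nat_lit 524032) (nat_lit 28) .nil)))))) (.g (nat_lit 1) (.e (nat_lit 383444) (nat_lit 0) .nil) .nil)))) (.nd (nat_lit 9) 
(.lf (nat_lit 583024) (.g (nat_lit 971) (.e (nat_lit 352265) (nat_lit 0) (.e (nat_lit 3631) (nat_lit 227) (.e (nat_lit 778324) (nat_lit 5) (.e (nat_lit 73781) (nat_lit 32) .nil)))) (.g (nat_lit 0) (.e (nat_lit 382756) (nat_lit 0) .nil) .nil))) 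
(.lf (nat_lit 583536) (.g (nat_lit 1812) (.e (nat_lit 360466) (nat_lit 3) (.e (nat_lit 516117) (nat_lit 1) (.e (nat_lit 164159) (nat_lit 152) (.e (nat_lit 1201) (nat_lit 88) (.e (nat_lit 65543) (nat_lit 0) .nil))))) (.g (nat_lit 0) (.e (nat_lit 384131) (nat_lit 0) .nil) .nil))))) (.nd (nat_lit 8) (.nd (nat_lit 9) 
(.lf (nat_lit 582896) (.g (nat_lit 1565) (.e (nat_lit 344160) (nat_lit 37) (.e (nat_lit 647195) (nat_lit 9) (.e (nat_lit 1234) (nat_lit 91) (.e (nat_lit 90153) (nat_lit 10) (.e (nat_lit 16128) (nat_lit 241) .nil))))) (.g (nat_lit 0) (.e (nat_lit 382230) (nat_lit 0) .nil) .nil))) 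
(.lf (nat_lit 583408) (.g (nat_lit 2846) (.e (nat_lit 352313) (nat_lit 23) (.e (nat_lit 98349) (nat_lit 24) (.e (nat_lit 409648) (nat_lit 18) (.e (nat_lit 303118) (nat_lit 3) (.e (nat_lit 204866) (nat_lit 28) .nil))))) (.g (nat_lit 0) (.e (nat_lit 383700) (nat_lit 0) .nil) .nil)))) (.nd (nat_lit 9) 
(.lf (nat_lit 583152) (.g (nat_lit 1545) (.e (nat_lit 360192) (nat_lit 5) (.e (nat_lit 221207) (nat_lit 21) (.e (nat_lit 164325) (nat_lit 230) (.e (nat_lit 163931) (nat_lit 17) (.e (nat_lit 474880) (nat_lit 13) .nil))))) (.g (nat_lit 0) (.e (nat_lit 383142) (nat_lit 0) .nil) .nil))) 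
(.lf (nat_lit 583664) (.g (nat_lit 800) (.e (nat_lit 360477) (nat_lit 11) (.e (nat_lit 581636) (nat_lit 0) (.e (nat_lit 2988) (nat_lit 186) (.e (nat_lit 442391) (nat_lit 19) (.e (nat_lit 409344) (nat_lit 30) .nil))))) (.g (nat_lit 1) (.e (nat_lit 384383) (nat_lit 0) .nil) .nil))))))))) (.nd (nat_lit 4) (.nd (nat_lit 5) (.nd (nat_lit 6) (.nd (nat_lit 7) (.nd (nat_lit 8) (.nd (nat_lit 9) 
(.lf (nat_lit 582664) (.g (nat_lit 2049) (.e (nat_lit 344131) (nat_lit 26) (.e (nat_lit 557090) (nat_lit 12) (.e (nat_lit 164020) (nat_lit 45) (.e (nat_lit 696330) (nat_lit 5) .nil)))) (.g (nat_lit 0) (.e (nat_lit 381615) (nat_lit 0) .nil) .nil))) 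
(.lf (nat_lit 583176) (.g (nat_lit 1203) (.e (nat_lit 352276) (nat_lit 11) (.e (nat_lit 426503) (nat_lit 27) (.e (nat_lit 335986) (nat_lit 1) (.e (nat_lit 57926) (nat_lit 282) .nil)))) (.g (nat_lit 0) (.e (nat_lit 383210) (nat_lit 0) .nil) .nil)))) (.nd (nat_lit 9) 
(.lf (nat_lit 582920) (.g (nat_lit 1940) (.e (nat_lit 344161) (nat_lit 37) (.e (nat_lit 647201) (nat_lit 12) (.e (nat_lit 57574) (nat_lit 55) (.e (nat_lit 778466) (nat_lit 11) (.e (nat_lit 24617) (nat_lit 7) .nil))))) (.g (nat_lit 0) (.e (nat_lit 382277) (nat_lit 0) .nil) .nil))) 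
(.lf (nat_lit 583432) (.g (nat_lit 3201) (.e (nat_lit 352314) (nat_lit 23) (.e (nat_lit 98350) (nat_lit 24) (.e (nat_lit 409649) (nat_lit 18) (.e (nat_lit 303111) (nat_lit 0) (.e (nat_lit 3238) (nat_lit 197) (.e (nat_lit 532546) (nat_lit 11) .nil)))))) (.g (nat_lit 1) (.e (nat_lit 383742) (nat_lit 0) .nil) .nil))))) (.nd (nat_lit 8) (.nd (nat_lit 9) 
(.lf (nat_lit 582792) (.g (nat_lit 5904) (.e (nat_lit 344133) (nat_lit 26) (.e (nat_lit 557091) (nat_lit 12) (.e (nat_lit 163843) (nat_lit 0) (.e (nat_lit 6255) (nat_lit 337) (.e (nat_lit 2630) (nat_lit 164) (.e (nat_lit 172064) (nat_lit 2) (.e (nat_lit 196666) (nat_lit 13) (.e (nat_lit 65617) (nat_lit 10) .nil)))))))) (.g (nat_lit 1) (.e (nat_lit 381861) (nat_lit 0) .nil) .nil))) 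
(.lf (nat_lit 583304) (.g (nat_lit 1340) (.e (nat_lit 352297) (nat_lit 20) (.e (nat_lit 2391) (nat_lit 156) (.e (nat_lit 819203) (nat_lit 0) (.e (nat_lit 3022) (nat_lit 187) (.e (nat_lit 458496) (nat_lit 3) (.e (nat_lit 524032) (nat_lit 28) .nil)))))) (.g (nat_lit 1) (.e (nat_lit 383474) (nat_lit 0) .nil) .nil)))) (.nd (nat_lit 9) 
(.lf (nat_lit 583048) (.g (nat_lit 1969) (.e (nat_lit 352267) (nat_lit 0) (.e (nat_lit 3251) (nat_lit 197) (.e (nat_lit 532501) (nat_lit 1) (.e (nat_lit 57851) (nat_lit 252) (.e (nat_lit 57446) (nat_lit 19) (.e (nat_lit 401152) (nat_lit 11) .nil)))))) (.g (nat_lit 1) (.e (nat_lit 382815) (nat_lit 0) .nil) .nil))) 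
(.lf (nat_lit 583560) (.g (nat_lit 3544) (.e (nat_lit 360466) (nat_lit 3) (.e (nat_lit 516142) (nat_lit 8) (.e (nat_lit 417820) (nat_lit 10) (.e (nat_lit 5626) (nat_lit 312) (.e (nat_lit 2685) (nat_lit 168) (.e (nat_lit 204868) (nat_lit 29) .nil)))))) (.g (nat_lit 1) (.e (nat_lit 384176) (nat_lit 0) .nil) .nil)))))) (.nd (nat_lit 7) (.nd (nat_lit 8) (.nd (nat_lit 9) 
(.lf (nat_lit 582728) (.g (nat_lit 4200) (.e (nat_lit 344132) (nat_lit 26) (.e (nat_lit 557094) (nat_lit 12) (.e (nat_lit 164022) (nat_lit 46) (.e (nat_lit 704628) (nat_lit 9) (.e (nat_lit 375) (nat_lit 32) (.e (nat_lit 426140) (nat_lit 3) (.e (nat_lit 204855) (nat_lit 26) (.e (nat_lit 336176) (nat_lit 10) .nil)))))))) (.g (nat_lit 1) (.e (nat_lit 381764) (nat_lit 0) .nil) .nil))) 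
(.lf (nat_lit 583240) (.g (nat_lit 1482) (.e (nat_lit 352290) (nat_lit 20) (.e (nat_lit 2391) (nat_lit 156) (.e (nat_lit 819204) (nat_lit 0) (.e (nat_lit 3016) (nat_lit 187) (.e (nat_lit 458496) (nat_lit 3) (.e (nat_lit 524032) (nat_lit 28) .nil)))))) (.g (nat_lit 1) (.e (nat_lit 383384) (nat_lit 0) .nil) .nil)))) (.nd (nat_lit 9) 
(.lf (nat_lit 582984) (.g (nat_lit 1297) (.e (nat_lit 352261) (nat_lit 0) (.e (nat_lit 3302) (nat_lit 202) (.e (nat_lit 573491) (nat_lit 15) (.e (nat_lit 81943) (nat_lit 20) .nil)))) (.g (nat_lit 0) (.e (nat_lit 382601) (nat_lit 0) .nil) .nil))) 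
(.lf (nat_lit 583496) (.g (nat_lit 424) (.e (nat_lit 360452) (nat_lit 0) (.e (nat_lit 5907) (nat_lit 320) (.e (nat_lit 1209) (nat_lit 89) (.e (nat_lit 81664) (nat_lit 32) .nil)))) (.g (nat_lit 0) (.e (nat_lit 383923) (nat_lit 0) .nil) .nil))))) (.nd (nat_lit 8) (.nd (nat_lit 9) 
(.lf (nat_lit 582856) (.g (nat_lit 1200) (.e (nat_lit 344157) (nat_lit 36) (.e (nat_lit 638999) (nat_lit 8) (.e (nat_lit 172079) (nat_lit 7) (.e (nat_lit 409639) (nat_lit 15) (.e (nat_lit 278567) (nat_lit 16) (.e (nat_lit 286754) (nat_lit 10) .nil)))))) (.g (nat_lit 1) (.e (nat_lit 382126) (nat_lit 0) .nil) .nil))) 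
(.lf (nat_lit 583368) (.g (nat_lit 2637) (.e (nat_lit 352307) (nat_lit 21) (.e (nat_lit 57854) (nat_lit 252) (.e (nat_lit 57388) (nat_lit 5) (.e (nat_lit 114698) (nat_lit 11) (.e (nat_lit 426197) (nat_lit 9) (.e (nat_lit 426542) (nat_lit 29) .nil)))))) (.g (nat_lit 1) (.e (nat_lit 383589) (nat_lit 0) .nil) .nil)))) (.nd (nat_lit 9) 
(.lf (nat_lit 583112) (.g (nat_lit 2854) (.e (nat_lit 360192) (nat_lit 3) (.e (nat_lit 204837) (nat_lit 20) (.e (nat_lit 114698) (nat_lit 11) (.e (nat_lit 426139) (nat_lit 3) (.e (nat_lit 204867) (nat_lit 28) .nil))))) (.g (nat_lit 0) (.e (nat_lit 383070) (nat_lit 0) .nil) .nil))) 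
(.lf (nat_lit 583624) (.g (nat_lit 4602) (.e (nat_lit 360467) (nat_lit 3) (.e (nat_lit 516139) (nat_lit 7) (.e (nat_lit 409649) (nat_lit 18) (.e (nat_lit 303118) (nat_lit 3) (.e (nat_lit 204869) (nat_lit 29) .nil))))) (.g (nat_lit 1) (.e (nat_lit 384262) (nat_lit 0) .nil) .nil))))))) (.nd (nat_lit 6) (.nd (nat_lit 7) (.nd (nat_lit 8) (.nd (nat_lit 9) 
(.lf (nat_lit 582696) (.g (nat_lit 3910) (.e (nat_lit 344132) (nat_lit 26) (.e (nat_lit 557072) (nat_lit 9) (.e (nat_lit 3098) (nat_lit 192) (.e (nat_lit 491571) (nat_lit 13) (.e (nat_lit 393251) (nat_lit 18) (.e (nat_lit 164177) (nat_lit 154) (.e (nat_lit 57421) (nat_lit 13) .nil))))))) (.g (nat_lit 1) (.e (nat_lit 381649) (nat_lit 0) .nil) .nil))) 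
(.lf (nat_lit 583208) (.g (nat_lit 2636) (.e (nat_lit 360192) (nat_lit 18) (.e (nat_lit 483366) (nat_lit 18) (.e (nat_lit 57849) (nat_lit 252) (.e (nat_lit 57375) (nat_lit 2) (.e (nat_lit 90128) (nat_lit 9) .nil))))) (.g (nat_lit 0) (.e (nat_lit 383296) (nat_lit 0) .nil) .nil)))) (.nd (nat_lit 9) 
(.lf (nat_lit 582952) (.g (nat_lit 2461) (.e (nat_lit 344179) (nat_lit 44) (.e (nat_lit 778466) (nat_lit 11) (.e (nat_lit 24617) (nat_lit 7) (.e (nat_lit 319505) (nat_lit 10) (.e (nat_lit 720) (nat_lit 64) (.e (nat_lit 688178) (nat_lit 16) (.e (nat_lit 65620) (nat_lit 10) .nil))))))) (.g (nat_lit 1) (.e (nat_lit 382380) (nat_lit 0) .nil) .nil))) 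
(.lf (nat_lit 583464) (.g (nat_lit 2433) (.e (nat_lit 360192) (nat_lit 23) (.e (nat_lit 98350) (nat_lit 24) (.e (nat_lit 409645) (nat_lit 18) (.e (nat_lit 303119) (nat_lit 3) (.e (nat_lit 204866) (nat_lit 28) .nil))))) (.g (nat_lit 0) (.e (nat_lit 383812) (nat_lit 0) .nil) .nil))))) (.nd (nat_lit 8) (.nd (nat_lit 9) 
(.lf (nat_lit 582824) (.g (nat_lit 2804) (.e (nat_lit 344133) (nat_lit 26) (.e (nat_lit 557103) (nat_lit 14) (.e (nat_lit 180250) (nat_lit 10) (.e (nat_lit 573475) (nat_lit 12) (.e (nat_lit 57507) (nat_lit 39) (.e (nat_lit 647170) (nat_lit 0) (.e (nat_lit 2685) (nat_lit 168) (.e (nat_lit 204864) (nat_lit 27) .nil)))))))) (.g (nat_lit 1) (.e (nat_lit 381919) (nat_lit 0) .nil) .nil))) 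
(.lf (nat_lit 583336) (.g (nat_lit 973) (.e (nat_lit 352303) (nat_lit 20) (.e (nat_lit 2390) (nat_lit 156) (.e (nat_lit 819203) (nat_lit 0) (.e (nat_lit 3016) (nat_lit 187) (.e (nat_lit 458496) (nat_lit 3) (.e (nat_lit 524032) (nat_lit 28) .nil)))))) (.g (nat_lit 1) (.e (nat_lit 383526) (nat_lit 0) .nil) .nil)))) (.nd (nat_lit 9) 
(.lf (nat_lit 583080) (.g (nat_lit 313) (.e (nat_lit 352267) (nat_lit 0) (.e (nat_lit 3748) (nat_lit 228) (.e (nat_lit 786475) (nat_lit 28) .nil))) (.g (nat_lit 0) (.e (nat_lit 382895) (nat_lit 0) .nil) .nil))) 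
(.lf (nat_lit 583592) (.g (nat_lit 661) (.e (nat_lit 360467) (nat_lit 3) (.e (nat_lit 516120) (nat_lit 1) (.e (nat_lit 164159) (nat_lit 152) .nil))) (.g (nat_lit 0) (.e (nat_lit 384223) (nat_lit 0) .nil) .nil)))))) (.nd (nat_lit 7) (.nd (nat_lit 8) (.nd (nat_lit 9) 
(.lf (nat_lit 582760) (.g (nat_lit 2803) (.e (nat_lit 344132) (nat_lit 26) (.e (nat_lit 557105) (nat_lit 14) (.e (nat_lit 180252) (nat_lit 10) (.e (nat_lit 573475) (nat_lit 12) (.e (nat_lit 57505) (nat_lit 39) (.e (nat_lit 655104) (nat_lit 0) (.e (nat_lit 2684) (nat_lit 168) (.e (nat_lit 204862) (nat_lit 27) .nil)))))))) (.g (nat_lit 1) (.e (nat_lit 381800) (nat_lit 0) .nil) .nil))) 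
(.lf (nat_lit 583272) (.g (nat_lit 902) (.e (nat_lit 352296) (nat_lit 20) (.e (nat_lit 2390) (nat_lit 156) (.e (nat_lit 819203) (nat_lit 0) (.e (nat_lit 3022) (nat_lit 187) (.e (nat_lit 458496) (nat_lit 3) (.e (nat_lit 524032) (nat_lit 28) .nil)))))) (.g (nat_lit 1) (.e (nat_lit 383433) (nat_lit 0) .nil) .nil)))) (.nd (nat_lit 9) 
(.lf (nat_lit 583016) (.g (nat_lit 959) (.e (nat_lit 352262) (nat_lit 0) (.e (nat_lit 3748) (nat_lit 228) (.e (nat_lit 786481) (nat_lit 30) (.e (nat_lit 360449) (nat_lit 0) .nil)))) (.g (nat_lit 0) (.e (nat_lit 382726) (nat_lit 0) .nil) .nil))) 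
(.lf (nat_lit 583528) (.g (nat_lit 1411) (.e (nat_lit 360465) (nat_lit 3) (.e (nat_lit 516139) (nat_lit 7) (.e (nat_lit 409646) (nat_lit 18) (.e (nat_lit 303119) (nat_lit 3) .nil)))) (.g (nat_lit 0) (.e (nat_lit 384113) (nat_lit 0) .nil) .nil))))) (.nd (nat_lit 8) (.nd (nat_lit 9) 
(.lf (nat_lit 582888) (.g (nat_lit 2497) (.e (nat_lit 344169) (nat_lit 40) (.e (nat_lit 671763) (nat_lit 5) (.e (nat_lit 73782) (nat_lit 32) (.e (nat_lit 3090) (nat_lit 191) (.e (nat_lit 483394) (nat_lit 24) .nil))))) (.g (nat_lit 1) (.e (nat_lit 382204) (nat_lit 0) .nil) .nil))) 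
(.lf (nat_lit 583400) (.g (nat_lit 1770) (.e (nat_lit 352313) (nat_lit 23) (.e (nat_lit 98312) (nat_lit 9) (.e (nat_lit 335986) (nat_lit 1) (.e (nat_lit 57927) (nat_lit 282) (.e (nat_lit 163905) (nat_lit 12) (.e (nat_lit 426542) (nat_lit 29) .nil)))))) (.g (nat_lit 1) (.e (nat_lit 383689) (nat_lit 0) .nil) .nil)))) (.nd (nat_lit 9) 
(.lf (nat_lit 583144) (.g (nat_lit 1759) (.e (nat_lit 360192) (nat_lit 5) (.e (nat_lit 221207) (nat_lit 21) (.e (nat_lit 164324) (nat_lit 230) (.e (nat_lit 163933) (nat_lit 17) (.e (nat_lit 474880) (nat_lit 13) .nil))))) (.g (nat_lit 0) (.e (nat_lit 383132) (nat_lit 0) .nil) .nil))) 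
(.lf (nat_lit 583656) (.g (nat_lit 204) (.e (nat_lit 368384) (nat_lit 3) (.e (nat_lit 516141) (nat_lit 8) (.e (nat_lit 417828) (nat_lit 18) .nil))) (.g (nat_lit 0) (.e (nat_lit 384355) (nat_lit 0) .nil) .nil)))))))) (.nd (nat_lit 5) (.nd (nat_lit 6) (.nd (nat_lit 7) (.nd (nat_lit 8) (.nd (nat_lit 9) 
(.lf (nat_lit 582680) (.g (nat_lit 2828) (.e (nat_lit 344131) (nat_lit 26) (.e (nat_lit 557103) (nat_lit 14) (.e (nat_lit 180250) (nat_lit 10) (.e (nat_lit 573473) (nat_lit 12) (.e (nat_lit 57511) (nat_lit 39) (.e (nat_lit 655104) (nat_lit 0) (.e (nat_lit 2684) (nat_lit 168) (.e (nat_lit 204863) (nat_lit 27) .nil)))))))) (.g (nat_lit 1) (.e (nat_lit 381632) (nat_lit 0) .nil) .nil))) 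
(.lf (nat_lit 583192) (.g (nat_lit 1080) (.e (nat_lit 352277) (nat_lit 11) (.e (nat_lit 426344) (nat_lit 14) (.e (nat_lit 491560) (nat_lit 10) (.e (nat_lit 344177) (nat_lit 43) .nil)))) (.g (nat_lit 0) (.e (nat_lit 383234) (nat_lit 0) .nil) .nil)))) (.nd (nat_lit 9) 
(.lf (nat_lit 582936) (.g (nat_lit 1150) (.e (nat_lit 344177) (nat_lit 43) (.e (nat_lit 770072) (nat_lit 8) (.e (nat_lit 65599) (nat_lit 9) (.e (nat_lit 336412) (nat_lit 27) .nil)))) (.g (nat_lit 0) (.e (nat_lit 382348) (nat_lit 0) .nil) .nil))) 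
(.lf (nat_lit 583448) (.g (nat_lit 2409) (.e (nat_lit 352315) (nat_lit 23) (.e (nat_lit 98349) (nat_lit 24) (.e (nat_lit 409646) (nat_lit 18) (.e (nat_lit 303118) (nat_lit 3) (.e (nat_lit 204865) (nat_lit 28) .nil))))) (.g (nat_lit 0) (.e (nat_lit 383774) (nat_lit 0) .nil) .nil))))) (.nd (nat_lit 8) (.nd (nat_lit 9) 
(.lf (nat_lit 582808) (.g (nat_lit 2862) (.e (nat_lit 344133) (nat_lit 26) (.e (nat_lit 557103) (nat_lit 14) (.e (nat_lit 180250) (nat_lit 10) (.e (nat_lit 573473) (nat_lit 12) (.e (nat_lit 57506) (nat_lit 39) (.e (nat_lit 655104) (nat_lit 0) (.e (nat_lit 2684) (nat_lit 168) (.e (nat_lit 204862) (nat_lit 27) .nil)))))))) (.g (nat_lit 1) (.e (nat_lit 381903) (nat_lit 0) .nil) .nil))) 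
(.lf (nat_lit 583320) (.g (nat_lit 1117) (.e (nat_lit 352302) (nat_lit 20) (.e (nat_lit 2390) (nat_lit 156) (.e (nat_lit 819204) (nat_lit 0) (.e (nat_lit 3016) (nat_lit 187) (.e (nat_lit 458496) (nat_lit 3) .nil))))) (.g (nat_lit 0) (.e (nat_lit 383501) (nat_lit 0) .nil) .nil)))) (.nd (nat_lit 9) 
(.lf (nat_lit 583064) (.g (nat_lit 2443) (.e (nat_lit 352267) (nat_lit 0) (.e (nat_lit 3253) (nat_lit 197) (.e (nat_lit 532504) (nat_lit 1) (.e (nat_lit 57854) (nat_lit 252) (.e (nat_lit 57445) (nat_lit 19) (.e (nat_lit 401152) (nat_lit 11) .nil)))))) (.g (nat_lit 1) (.e (nat_lit 382831) (nat_lit 0) .nil) .nil))) 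
(.lf (nat_lit 583576) (.g (nat_lit 3065) (.e (nat_lit 360466) (nat_lit 3) (.e (nat_lit 516194) (nat_lit 26) (.e (nat_lit 335988) (nat_lit 1) (.e (nat_lit 57927) (nat_lit 282) (.e (nat_lit 163903) (nat_lit 12) (.e (nat_lit 426546) (nat_lit 30) .nil)))))) (.g (nat_lit 1) (.e (nat_lit 384203) (nat_lit 0) .nil) .nil)))))) (.nd (nat_lit 7) (.nd (nat_lit 8) (.nd (nat_lit 9) 
(.lf (nat_lit 582744) (.g (nat_lit 2590) (.e (nat_lit 344132) (nat_lit 26) (.e (nat_lit 557103) (nat_lit 14) (.e (nat_lit 180243) (nat_lit 5) (.e (nat_lit 532501) (nat_lit 1) (.e (nat_lit 57703) (nat_lit 164) .nil))))) (.g (nat_lit 0) (.e (nat_lit 381784) (nat_lit 0) .nil) .nil))) 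
(.lf (nat_lit 583256) (.g (nat_lit 1648) (.e (nat_lit 352291) (nat_lit 20) (.e (nat_lit 2391) (nat_lit 156) (.e (nat_lit 819204) (nat_lit 0) (.e (nat_lit 3015) (nat_lit 187) (.e (nat_lit 458496) (nat_lit 3) .nil))))) (.g (nat_lit 0) (.e (nat_lit 383406) (nat_lit 0) .nil) .nil)))) (.nd (nat_lit 9) 
(.lf (nat_lit 583000) (.g (nat_lit 452) (.e (nat_lit 352262) (nat_lit 0) (.e (nat_lit 3631) (nat_lit 227) (.e (nat_lit 778326) (nat_lit 6) .nil))) (.g (nat_lit 0) (.e (nat_lit 382694) (nat_lit 0) .nil) .nil))) 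
(.lf (nat_lit 583512) (.g (nat_lit 1248) (.e (nat_lit 360457) (nat_lit 0) (.e (nat_lit 5949) (nat_lit 322) (.e (nat_lit 57423) (nat_lit 14) (.e (nat_lit 352265) (nat_lit 0) .nil)))) (.g (nat_lit 0) (.e (nat_lit 384016) (nat_lit 0) .nil) .nil))))) (.nd (nat_lit 8) (.nd (nat_lit 9) 
(.lf (nat_lit 582872) (.g (nat_lit 2108) (.e (nat_lit 344168) (nat_lit 40) (.e (nat_lit 671759) (nat_lit 3) (.e (nat_lit 57479) (nat_lit 28) (.e (nat_lit 557099) (nat_lit 13) .nil)))) (.g (nat_lit 0) (.e (nat_lit 382172) (nat_lit 0) .nil) .nil))) 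
(.lf (nat_lit 583384) (.g (nat_lit 2990) (.e (nat_lit 352309) (nat_lit 21) (.e (nat_lit 57848) (nat_lit 252) (.e (nat_lit 57388) (nat_lit 5) (.e (nat_lit 114697) (nat_lit 11) (.e (nat_lit 426198) (nat_lit 9) (.e (nat_lit 426538) (nat_lit 29) .nil)))))) (.g (nat_lit 1) (.e (nat_lit 383643) (nat_lit 0) .nil) .nil)))) (.nd (nat_lit 9) 
(.lf (nat_lit 583128) (.g (nat_lit 1079) (.e (nat_lit 360192) (nat_lit 5) (.e (nat_lit 221206) (nat_lit 21) (.e (nat_lit 164327) (nat_lit 230) (.e (nat_lit 163931) (nat_lit 17) (.e (nat_lit 474880) (nat_lit 13) .nil))))) (.g (nat_lit 0) (.e (nat_lit 383109) (nat_lit 0) .nil) .nil))) 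
(.lf (nat_lit 583640) (.g (nat_lit 1772) (.e (nat_lit 360468) (nat_lit 3) (.e (nat_lit 516139) (nat_lit 7) (.e (nat_lit 409617) (nat_lit 10) (.e (nat_lit 5627) (nat_lit 312) (.e (nat_lit 2685) (nat_lit 168) .nil))))) (.g (nat_lit 0) (.e (nat_lit 384322) (nat_lit 0) .nil) .nil))))))) (.nd (nat_lit 6) (.nd (nat_lit 7) (.nd (nat_lit 8) (.nd (nat_lit 9) 
(.lf (nat_lit 582712) (.g (nat_lit 4163) (.e (nat_lit 344132) (nat_lit 26) (.e (nat_lit 557094) (nat_lit 12) (.e (nat_lit 163847) (nat_lit 0) (.e (nat_lit 6254) (nat_lit 337) (.e (nat_lit 2630) (nat_lit 164) (.e (nat_lit 172064) (nat_lit 2) (.e (nat_lit 196666) (nat_lit 13) (.e (nat_lit 65617) (nat_lit 10) .nil)))))))) (.g (nat_lit 1) (.e (nat_lit 381713) (nat_lit 0) .nil) .nil))) 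
(.lf (nat_lit 583224) (.g (nat_lit 2277) (.e (nat_lit 352290) (nat_lit 20) (.e (nat_lit 2006) (nat_lit 138) (.e (nat_lit 671763) (nat_lit 5) (.e (nat_lit 73781) (nat_lit 32) (.e (nat_lit 2857) (nat_lit 184) (.e (nat_lit 426542) (nat_lit 29) .nil)))))) (.g (nat_lit 1) (.e (nat_lit 383365) (nat_lit 0) .nil) .nil)))) (.nd (nat_lit 9) 
(.lf (nat_lit 582968) (.g (nat_lit 1669) (.e (nat_lit 344183) (nat_lit 49) (.e (nat_lit 819219) (nat_lit 4) (.e (nat_lit 172113) (nat_lit 10) (.e (nat_lit 434245) (nat_lit 28) (.e (nat_lit 573503) (nat_lit 18) .nil))))) (.g (nat_lit 0) (.e (nat_lit 382494) (nat_lit 0) .nil) .nil))) 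
(.lf (nat_lit 583480) (.g (nat_lit 1771) (.e (nat_lit 360449) (nat_lit 0) (.e (nat_lit 7710) (nat_lit 414) (.e (nat_lit 163905) (nat_lit 12) (.e (nat_lit 426294) (nat_lit 11) (.e (nat_lit 466688) (nat_lit 22) (.e (nat_lit 532224) (nat_lit 29) .nil)))))) (.g (nat_lit 1) (.e (nat_lit 383869) (nat_lit 0) .nil) .nil))))) (.nd (nat_lit 8) (.nd (nat_lit 9) 
(.lf (nat_lit 582840) (.g (nat_lit 3932) (.e (nat_lit 344133) (nat_lit 26) (.e (nat_lit 557105) (nat_lit 14) (.e (nat_lit 180252) (nat_lit 10) (.e (nat_lit 573475) (nat_lit 12) (.e (nat_lit 57506) (nat_lit 39) (.e (nat_lit 647175) (nat_lit 0) (.e (nat_lit 2684) (nat_lit 168) (.e (nat_lit 204863) (nat_lit 27) .nil)))))))) (.g (nat_lit 1) (.e (nat_lit 381935) (nat_lit 0) .nil) .nil))) 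
(.lf (nat_lit 583352) (.g (nat_lit 4123) (.e (nat_lit 360192) (nat_lit 20) (.e (nat_lit 1853) (nat_lit 124) (.e (nat_lit 557087) (nat_lit 11) (.e (nat_lit 24617) (nat_lit 7) (.e (nat_lit 319504) (nat_lit 10) .nil))))) (.g (nat_lit 0) (.e (nat_lit 383558) (nat_lit 0) .nil) .nil)))) (.nd (nat_lit 9) 
(.lf (nat_lit 583096) (.g (nat_lit 783) (.e (nat_lit 360192) (nat_lit 0) (.e (nat_lit 3308) (nat_lit 202) (.e (nat_lit 573491) (nat_lit 15) (.e (nat_lit 81924) (nat_lit 0) .nil)))) (.g (nat_lit 0) (.e (nat_lit 383011) (nat_lit 0) .nil) .nil))) 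
(.lf (nat_lit 583608) (.g (nat_lit 3515) (.e (nat_lit 360467) (nat_lit 3) (.e (nat_lit 516139) (nat_lit 7) (.e (nat_lit 409644) (nat_lit 18) (.e (nat_lit 303119) (nat_lit 3) (.e (nat_lit 204870) (nat_lit 29) .nil))))) (.g (nat_lit 1) (.e (nat_lit 384245) (nat_lit 0) .nil) .nil)))))) (.nd (nat_lit 7) (.nd (nat_lit 8) (.nd (nat_lit 9) 
(.lf (nat_lit 582776) (.g (nat_lit 2928) (.e (nat_lit 344133) (nat_lit 26) (.e (nat_lit 557068) (nat_lit 9) (.e (nat_lit 2828) (nat_lit 182) (.e (nat_lit 409646) (nat_lit 18) (.e (nat_lit 303151) (nat_lit 27) (.e (nat_lit 335995) (nat_lit 1) (.e (nat_lit 57683) (nat_lit 155) (.e (nat_lit 122913) (nat_lit 13) .nil)))))))) (.g (nat_lit 1) (.e (nat_lit 381820) (nat_lit 0) .nil) .nil))) 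
(.lf (nat_lit 583288) (.g (nat_lit 1764) (.e (nat_lit 352297) (nat_lit 20) (.e (nat_lit 2005) (nat_lit 138) (.e (nat_lit 671763) (nat_lit 5) (.e (nat_lit 73782) (nat_lit 32) (.e (nat_lit 2855) (nat_lit 184) (.e (nat_lit 426542) (nat_lit 29) .nil)))))) (.g (nat_lit 1) (.e (nat_lit 383455) (nat_lit 0) .nil) .nil)))) (.nd (nat_lit 9) 
(.lf (nat_lit 583032) (.g (nat_lit 1674) (.e (nat_lit 352266) (nat_lit 0) (.e (nat_lit 3251) (nat_lit 197) (.e (nat_lit 532504) (nat_lit 1) (.e (nat_lit 57851) (nat_lit 252) (.e (nat_lit 57446) (nat_lit 19) (.e (nat_lit 401152) (nat_lit 11) .nil)))))) (.g (nat_lit 1) (.e (nat_lit 382769) (nat_lit 0) .nil) .nil))) 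
(.lf (nat_lit 583544) (.g (nat_lit 4229) (.e (nat_lit 360466) (nat_lit 3) (.e (nat_lit 516138) (nat_lit 7) (.e (nat_lit 409646) (nat_lit 18) (.e (nat_lit 303119) (nat_lit 3) (.e (nat_lit 204869) (nat_lit 29) .nil))))) (.g (nat_lit 1) (.e (nat_lit 384154) (nat_lit 0) .nil) .nil))))) (.nd (nat_lit 8) (.nd (nat_lit 9) 
(.lf (nat_lit 582904) (.g (nat_lit 4748) (.e (nat_lit 344160) (nat_lit 37) (.e (nat_lit 647201) (nat_lit 12) (.e (nat_lit 57574) (nat_lit 55) (.e (nat_lit 778464) (nat_lit 11) (.e (nat_lit 24617) (nat_lit 7) (.e (nat_lit 319533) (nat_lit 16) (.e (nat_lit 286753) (nat_lit 10) .nil))))))) (.g (nat_lit 1) (.e (nat_lit 382245) (nat_lit 0) .nil) .nil))) 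
(.lf (nat_lit 583416) (.g (nat_lit 1866) (.e (nat_lit 352313) (nat_lit 23) (.e (nat_lit 98350) (nat_lit 24) (.e (nat_lit 409648) (nat_lit 18) (.e (nat_lit 303109) (nat_lit 0) .nil)))) (.g (nat_lit 0) (.e (nat_lit 383714) (nat_lit 0) .nil) .nil)))) (.nd (nat_lit 9) 
(.lf (nat_lit 583160) (.g (nat_lit 2762) (.e (nat_lit 360192) (nat_lit 5) (.e (nat_lit 221207) (nat_lit 21) (.e (nat_lit 164332) (nat_lit 230) (.e (nat_lit 163905) (nat_lit 12) (.e (nat_lit 426227) (nat_lit 9) .nil))))) (.g (nat_lit 0) (.e (nat_lit 383152) (nat_lit 0) .nil) .nil))) 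
(.lf (nat_lit 583672) (.g (nat_lit 1697) (.e (nat_lit 360472) (nat_lit 8) (.e (nat_lit 557090) (nat_lit 12) (.e (nat_lit 163850) (nat_lit 0) (.e (nat_lit 6273) (nat_lit 337) .nil)))) (.g (nat_lit 0) (.e (nat_lit 384393) (nat_lit 0) .nil) .nil)))))))))) (.nd (nat_lit 3) (.nd (nat_lit 4) (.nd (nat_lit 5) (.nd (nat_lit 6) (.nd (nat_lit 7) (.nd (nat_lit 8) (.nd (nat_lit 9) 
(.lf (nat_lit 582660) (.g (nat_lit 3141) (.e (nat_lit 344130) (nat_lit 26) (.e (nat_lit 557104) (nat_lit 14) (.e (nat_lit 180252) (nat_lit 10) (.e (nat_lit 573475) (nat_lit 12) (.e (nat_lit 57508) (nat_lit 39) (.e (nat_lit 655104) (nat_lit 0) (.e (nat_lit 2684) (nat_lit 168) (.e (nat_lit 204862) (nat_lit 27) .nil)))))))) (.g (nat_lit 1) (.e (nat_lit 381609) (nat_lit 0) .nil) .nil))) 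
(.lf (nat_lit 583172) (.g (nat_lit 1827) (.e (nat_lit 352275) (nat_lit 11) (.e (nat_lit 426342) (nat_lit 14) (.e (nat_lit 491560) (nat_lit 10) (.e (nat_lit 344177) (nat_lit 43) .nil)))) (.g (nat_lit 0) (.e (nat_lit 383199) (nat_lit 0) .nil) .nil)))) (.nd (nat_lit 9) 
(.lf (nat_lit 582916) (.g (nat_lit 438) (.e (nat_lit 344161) (nat_lit 37) (.e (nat_lit 647195) (nat_lit 9) (.e (nat_lit 1234) (nat_lit 91) .nil))) (.g (nat_lit 0) (.e (nat_lit 382268) (nat_lit 0) .nil) .nil))) 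
(.lf (nat_lit 583428) (.g (nat_lit 2954) (.e (nat_lit 352314) (nat_lit 23) (.e (nat_lit 98350) (nat_lit 24) (.e (nat_lit 409645) (nat_lit 18) (.e (nat_lit 303112) (nat_lit 0) (.e (nat_lit 3252) (nat_lit 197) (.e (nat_lit 532546) (nat_lit 11) .nil)))))) (.g (nat_lit 1) (.e (nat_lit 383738) (nat_lit 0) .nil) .nil))))) (.nd (nat_lit 8) (.nd (nat_lit 9) 
(.lf (nat_lit 582788) (.g (nat_lit 1828) (.e (nat_lit 344133) (nat_lit 26) (.e (nat_lit 557090) (nat_lit 12) (.e (nat_lit 164020) (nat_lit 45) (.e (nat_lit 696342) (nat_lit 8) .nil)))) (.g (nat_lit 0) (.e (nat_lit 381852) (nat_lit 0) .nil) .nil))) 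
(.lf (nat_lit 583300) (.g (nat_lit 1283) (.e (nat_lit 352297) (nat_lit 20) (.e (nat_lit 2390) (nat_lit 156) (.e (nat_lit 819204) (nat_lit 0) (.e (nat_lit 3022) (nat_lit 187) (.e (nat_lit 458496) (nat_lit 3) (.e (nat_lit 524032) (nat_lit 28) .nil)))))) (.g (nat_lit 1) (.e (nat_lit 383468) (nat_lit 0) .nil) .nil)))) (.nd (nat_lit 9) 
(.lf (nat_lit 583044) (.g (nat_lit 411) (.e (nat_lit 352266) (nat_lit 0) (.e (nat_lit 3632) (nat_lit 227) (.e (nat_lit 778323) (nat_lit 5) .nil))) (.g (nat_lit 0) (.e (nat_lit 382809) (nat_lit 0) .nil) .nil))) 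
(.lf (nat_lit 583556) (.g (nat_lit 4042) (.e (nat_lit 360466) (nat_lit 3) (.e (nat_lit 516139) (nat_lit 7) (.e (nat_lit 409648) (nat_lit 18) (.e (nat_lit 303118) (nat_lit 3) (.e (nat_lit 204869) (nat_lit 29) .nil))))) (.g (nat_lit 1) (.e (nat_lit 384169) (nat_lit 0) .nil) .nil)))))) (.nd (nat_lit 7) (.nd (nat_lit 8) (.nd (nat_lit 9) 
(.lf (nat_lit 582724) (.g (nat_lit 3741) (.e (nat_lit 344132) (nat_lit 26) (.e (nat_lit 557094) (nat_lit 12) (.e (nat_lit 164018) (nat_lit 45) (.e (nat_lit 696329) (nat_lit 5) (.e (nat_lit 2884) (nat_lit 184) (.e (nat_lit 426125) (nat_lit 2) (.e (nat_lit 196666) (nat_lit 13) (.e (nat_lit 65617) (nat_lit 10) .nil)))))))) (.g (nat_lit 1) (.e (nat_lit 381746) (nat_lit 0) .nil) .nil))) 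
(.lf (nat_lit 583236) (.g (nat_lit 1121) (.e (nat_lit 352290) (nat_lit 20) (.e (nat_lit 2391) (nat_lit 156) (.e (nat_lit 819203) (nat_lit 0) (.e (nat_lit 3016) (nat_lit 187) (.e (nat_lit 458496) (nat_lit 3) (.e (nat_lit 524032) (nat_lit 28) .nil)))))) (.g (nat_lit 1) (.e (nat_lit 383379) (nat_lit 0) .nil) .nil)))) (.nd (nat_lit 9) 
(.lf (nat_lit 582980) (.g (nat_lit 2035) (.e (nat_lit 352261) (nat_lit 0) (.e (nat_lit 3302) (nat_lit 202) (.e (nat_lit 573484) (nat_lit 13) (.e (nat_lit 65617) (nat_lit 10) .nil)))) (.g (nat_lit 0) (.e (nat_lit 382579) (nat_lit 0) .nil) .nil))) 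
(.lf (nat_lit 583492) (.g (nat_lit 1690) (.e (nat_lit 360451) (nat_lit 0) (.e (nat_lit 7710) (nat_lit 414) (.e (nat_lit 163922) (nat_lit 15) (.e (nat_lit 450577) (nat_lit 4) (.e (nat_lit 532224) (nat_lit 29) .nil))))) (.g (nat_lit 1) (.e (nat_lit 383909) (nat_lit 0) .nil) .nil))))) (.nd (nat_lit 8) (.nd (nat_lit 9) 
(.lf (nat_lit 582852) (.g (nat_lit 1195) (.e (nat_lit 344157) (nat_lit 36) (.e (nat_lit 638998) (nat_lit 8) (.e (nat_lit 172116) (nat_lit 10) (.e (nat_lit 434268) (nat_lit 36) (.e (nat_lit 639020) (nat_lit 16) .nil))))) (.g (nat_lit 0) (.e (nat_lit 382121) (nat_lit 0) .nil) .nil))) 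
(.lf (nat_lit 583364) (.g (nat_lit 980) (.e (nat_lit 352307) (nat_lit 21) (.e (nat_lit 57852) (nat_lit 252) (.e (nat_lit 57388) (nat_lit 5) .nil))) (.g (nat_lit 0) (.e (nat_lit 383585) (nat_lit 0) .nil) .nil)))) (.nd (nat_lit 9) 
(.lf (nat_lit 583108) (.g (nat_lit 2179) (.e (nat_lit 360192) (nat_lit 3) (.e (nat_lit 204830) (nat_lit 18) (.e (nat_lit 57854) (nat_lit 252) (.e (nat_lit 57409) (nat_lit 12) (.e (nat_lit 336374) (nat_lit 27) .nil))))) (.g (nat_lit 0) (.e (nat_lit 383062) (nat_lit 0) .nil) .nil))) 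
(.lf (nat_lit 583620) (.g (nat_lit 3535) (.e (nat_lit 360467) (nat_lit 3) (.e (nat_lit 516139) (nat_lit 7) (.e (nat_lit 409648) (nat_lit 18) (.e (nat_lit 303118) (nat_lit 3) (.e (nat_lit 204870) (nat_lit 29) .nil))))) (.g (nat_lit 1) (.e (nat_lit 384257) (nat_lit 0) .nil) .nil))))))) (.nd (nat_lit 6) (.nd (nat_lit 7) (.nd (nat_lit 8) (.nd (nat_lit 9) 
(.lf (nat_lit 582692) (.g (nat_lit 3006) (.e (nat_lit 344131) (nat_lit 26) (.e (nat_lit 557105) (nat_lit 14) (.e (nat_lit 180252) (nat_lit 10) (.e (nat_lit 573475) (nat_lit 12) (.e (nat_lit 57348) (nat_lit 0) .nil))))) (.g (nat_lit 0) (.e (nat_lit 381644) (nat_lit 0) .nil) .nil))) 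
(.lf (nat_lit 583204) (.g (nat_lit 558) (.e (nat_lit 360192) (nat_lit 18) (.e (nat_lit 483350) (nat_lit 17) (.e (nat_lit 970) (nat_lit 81) .nil))) (.g (nat_lit 0) (.e (nat_lit 383275) (nat_lit 0) .nil) .nil)))) (.nd (nat_lit 9) 
(.lf (nat_lit 582948) (.g (nat_lit 3221) (.e (nat_lit 344179) (nat_lit 44) (.e (nat_lit 778466) (nat_lit 11) (.e (nat_lit 24617) (nat_lit 7) (.e (nat_lit 319505) (nat_lit 10) (.e (nat_lit 720) (nat_lit 64) (.e (nat_lit 688175) (nat_lit 16) (.e (nat_lit 65619) (nat_lit 10) .nil))))))) (.g (nat_lit 1) (.e (nat_lit 382376) (nat_lit 0) .nil) .nil))) 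
(.lf (nat_lit 583460) (.g (nat_lit 1029) (.e (nat_lit 360192) (nat_lit 23) (.e (nat_lit 98349) (nat_lit 24) (.e (nat_lit 409648) (nat_lit 18) (.e (nat_lit 303118) (nat_lit 3) .nil)))) (.g (nat_lit 0) (.e (nat_lit 383808) (nat_lit 0) .nil) .nil))))) (.nd (nat_lit 8) (.nd (nat_lit 9) 
(.lf (nat_lit 582820) (.g (nat_lit 2762) (.e (nat_lit 344133) (nat_lit 26) (.e (nat_lit 557103) (nat_lit 14) (.e (nat_lit 180250) (nat_lit 10) (.e (nat_lit 573474) (nat_lit 12) (.e (nat_lit 57508) (nat_lit 39) (.e (nat_lit 655104) (nat_lit 0) (.e (nat_lit 2684) (nat_lit 168) (.e (nat_lit 204863) (nat_lit 27) .nil)))))))) (.g (nat_lit 1) (.e (nat_lit 381915) (nat_lit 0) .nil) .nil))) 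
(.lf (nat_lit 583332) (.g (nat_lit 3220) (.e (nat_lit 352303) (nat_lit 20) (.e (nat_lit 1848) (nat_lit 124) (.e (nat_lit 557087) (nat_lit 11) (.e (nat_lit 24617) (nat_lit 7) (.e (nat_lit 319505) (nat_lit 10) (.e (nat_lit 7936) (nat_lit 45) (.e (nat_lit 532547) (nat_lit 11) .nil))))))) (.g (nat_lit 1) (.e (nat_lit 383520) (nat_lit 0) .nil) .nil)))) (.nd (nat_lit 9) 
(.lf (nat_lit 583076) (.g (nat_lit 3721) (.e (nat_lit 352267) (nat_lit 0) (.e (nat_lit 3632) (nat_lit 227) (.e (nat_lit 778323) (nat_lit 5) (.e (nat_lit 73781) (nat_lit 32) (.e (nat_lit 2856) (nat_lit 184) (.e (nat_lit 426542) (nat_lit 29) .nil)))))) (.g (nat_lit 1) (.e (nat_lit 382890) (nat_lit 0) .nil) .nil))) 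
(.lf (nat_lit 583588) (.g (nat_lit 2733) (.e (nat_lit 360466) (nat_lit 3) (.e (nat_lit 516199) (nat_lit 26) (.e (nat_lit 335988) (nat_lit 1) (.e (nat_lit 57926) (nat_lit 282) (.e (nat_lit 163905) (nat_lit 12) (.e (nat_lit 426546) (nat_lit 30) .nil)))))) (.g (nat_lit 1) (.e (nat_lit 384216) (nat_lit 0) .nil) .nil)))))) (.nd (nat_lit 7) (.nd (nat_lit 8) (.nd (nat_lit 9) 
(.lf (nat_lit 582756) (.g (nat_lit 3763) (.e (nat_lit 344132) (nat_lit 26) (.e (nat_lit 557105) (nat_lit 14) (.e (nat_lit 180252) (nat_lit 10) (.e (nat_lit 573474) (nat_lit 12) (.e (nat_lit 57509) (nat_lit 39) (.e (nat_lit 655104) (nat_lit 0) (.e (nat_lit 2684) (nat_lit 168) (.e (nat_lit 204862) (nat_lit 27) .nil)))))))) (.g (nat_lit 1) (.e (nat_lit 381796) (nat_lit 0) .nil) .nil))) 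
(.lf (nat_lit 583268) (.g (nat_lit 2447) (.e (nat_lit 352296) (nat_lit 20) (.e (nat_lit 1848) (nat_lit 124) (.e (nat_lit 557066) (nat_lit 9) (.e (nat_lit 232) (nat_lit 21) (.e (nat_lit 336060) (nat_lit 7) .nil))))) (.g (nat_lit 0) (.e (nat_lit 383429) (nat_lit 0) .nil) .nil)))) (.nd (nat_lit 9) 
(.lf (nat_lit 583012) (.g (nat_lit 3402) (.e (nat_lit 352262) (nat_lit 0) (.e (nat_lit 3748) (nat_lit 228) (.e (nat_lit 786478) (nat_lit 29) (.e (nat_lit 352262) (nat_lit 0) (.e (nat_lit 3748) (nat_lit 228) (.e (nat_lit 786480) (nat_lit 29) .nil)))))) (.g (nat_lit 1) (.e (nat_lit 382720) (nat_lit 0) .nil) .nil))) 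
(.lf (nat_lit 583524) (.g (nat_lit 740) (.e (nat_lit 368384) (nat_lit 5) (.e (nat_lit 532499) (nat_lit 1) (.e (nat_lit 57906) (nat_lit 278) .nil))) (.g (nat_lit 0) (.e (nat_lit 384090) (nat_lit 0) .nil) .nil))))) (.nd (nat_lit 8) (.nd (nat_lit 9) 
(.lf (nat_lit 582884) (.g (nat_lit 1689) (.e (nat_lit 344169) (nat_lit 40) (.e (nat_lit 671759) (nat_lit 3) (.e (nat_lit 57479) (nat_lit 28) (.e (nat_lit 557099) (nat_lit 13) .nil)))) (.g (nat_lit 0) (.e (nat_lit 382196) (nat_lit 0) .nil) .nil))) 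
(.lf (nat_lit 583396) (.g (nat_lit 891) (.e (nat_lit 352312) (nat_lit 22) (.e (nat_lit 90160) (nat_lit 11) (.e (nat_lit 24597) (nat_lit 1) .nil))) (.g (nat_lit 0) (.e (nat_lit 383671) (nat_lit 0) .nil) .nil)))) (.nd (nat_lit 9) 
(.lf (nat_lit 583140) (.g (nat_lit 1189) (.e (nat_lit 360192) (nat_lit 5) (.e (nat_lit 221206) (nat_lit 21) (.e (nat_lit 164332) (nat_lit 230) (.e (nat_lit 163931) (nat_lit 17) (.e (nat_lit 474880) (nat_lit 13) .nil))))) (.g (nat_lit 0) (.e (nat_lit 383127) (nat_lit 0) .nil) .nil))) 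
(.lf (nat_lit 583652) (.g (nat_lit 1407) (.e (nat_lit 368384) (nat_lit 3) (.e (nat_lit 516139) (nat_lit 7) (.e (nat_lit 409616) (nat_lit 10) (.e (nat_lit 5756) (nat_lit 315) .nil)))) (.g (nat_lit 0) (.e (nat_lit 384351) (nat_lit 0) .nil) .nil)))))))) (.nd (nat_lit 5) (.nd (nat_lit 6) (.nd (nat_lit 7) (.nd (nat_lit 8) (.nd (nat_lit 9) 
(.lf (nat_lit 582676) (.g (nat_lit 3007) (.e (nat_lit 344131) (nat_lit 26) (.e (nat_lit 557103) (nat_lit 14) (.e (nat_lit 180243) (nat_lit 5) (.e (nat_lit 532499) (nat_lit 1) (.e (nat_lit 57704) (nat_lit 164) .nil))))) (.g (nat_lit 0) (.e (nat_lit 381628) (nat_lit 0) .nil) .nil))) 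
(.lf (nat_lit 583188) (.g (nat_lit 2049) (.e (nat_lit 352277) (nat_lit 11) (.e (nat_lit 426343) (nat_lit 14) (.e (nat_lit 491560) (nat_lit 10) (.e (nat_lit 344177) (nat_lit 43) (.e (nat_lit 770058) (nat_lit 5) .nil))))) (.g (nat_lit 0) (.e (nat_lit 383230) (nat_lit 0) .nil) .nil)))) (.nd (nat_lit 9) 
(.lf (nat_lit 582932) (.g (nat_lit 2285) (.e (nat_lit 344177) (nat_lit 43) (.e (nat_lit 770072) (nat_lit 8) (.e (nat_lit 65571) (nat_lit 3) (.e (nat_lit 98337) (nat_lit 19) (.e (nat_lit 213035) (nat_lit 12) .nil))))) (.g (nat_lit 0) (.e (nat_lit 382344) (nat_lit 0) .nil) .nil))) 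
(.lf (nat_lit 583444) (.g (nat_lit 2227) (.e (nat_lit 352315) (nat_lit 23) (.e (nat_lit 98325) (nat_lit 17) (.e (nat_lit 6986) (nat_lit 377) (.e (nat_lit 2819) (nat_lit 181) (.e (nat_lit 311300) (nat_lit 0) .nil))))) (.g (nat_lit 0) (.e (nat_lit 383760) (nat_lit 0) .nil) .nil))))) (.nd (nat_lit 8) (.nd (nat_lit 9) 
(.lf (nat_lit 582804) (.g (nat_lit 3600) (.e (nat_lit 344133) (nat_lit 26) (.e (nat_lit 557103) (nat_lit 14) (.e (nat_lit 180244) (nat_lit 5) (.e (nat_lit 532499) (nat_lit 1) (.e (nat_lit 57704) (nat_lit 164) (.e (nat_lit 2601) (nat_lit 163) (.e (nat_lit 163962) (nat_lit 25) (.e (nat_lit 532544) (nat_lit 10) .nil)))))))) (.g (nat_lit 1) (.e (nat_lit 381899) (nat_lit 0) .nil) .nil))) 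
(.lf (nat_lit 583316) (.g (nat_lit 1918) (.e (nat_lit 352302) (nat_lit 20) (.e (nat_lit 2006) (nat_lit 138) (.e (nat_lit 671762) (nat_lit 4) (.e (nat_lit 65624) (nat_lit 12) (.e (nat_lit 385104) (nat_lit 50) .nil))))) (.g (nat_lit 0) (.e (nat_lit 383497) (nat_lit 0) .nil) .nil)))) (.nd (nat_lit 9) 
(.lf (nat_lit 583060) (.g (nat_lit 2138) (.e (nat_lit 352267) (nat_lit 0) (.e (nat_lit 3253) (nat_lit 197) (.e (nat_lit 532503) (nat_lit 1) (.e (nat_lit 57848) (nat_lit 252) (.e (nat_lit 57446) (nat_lit 19) (.e (nat_lit 401152) (nat_lit 11) .nil)))))) (.g (nat_lit 1) (.e (nat_lit 382827) (nat_lit 0) .nil) .nil))) 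
(.lf (nat_lit 583572) (.g (nat_lit 2183) (.e (nat_lit 360466) (nat_lit 3) (.e (nat_lit 516191) (nat_lit 17) (.e (nat_lit 6209) (nat_lit 333) (.e (nat_lit 57883) (nat_lit 270) (.e (nat_lit 371) (nat_lit 32) (.e (nat_lit 426546) (nat_lit 30) .nil)))))) (.g (nat_lit 1) (.e (nat_lit 384199) (nat_lit 0) .nil) .nil)))))) (.nd (nat_lit 7) (.nd (nat_lit 8) (.nd (nat_lit 9) 
(.lf (nat_lit 582740) (.g (nat_lit 2167) (.e (nat_lit 344132) (nat_lit 26) (.e (nat_lit 557101) (nat_lit 13) (.e (nat_lit 172062) (nat_lit 2) (.e (nat_lit 196624) (nat_lit 9) (.e (nat_lit 489) (nat_lit 38) (.e (nat_lit 483072) (nat_lit 26) (.e (nat_lit 532544) (nat_lit 10) .nil))))))) (.g (nat_lit 1) (.e (nat_lit 381780) (nat_lit 0) .nil) .nil))) 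
(.lf (nat_lit 583252) (.g (nat_lit 1248) (.e (nat_lit 352291) (nat_lit 20) (.e (nat_lit 2391) (nat_lit 156) (.e (nat_lit 819203) (nat_lit 0) (.e (nat_lit 3015) (nat_lit 187) (.e (nat_lit 458496) (nat_lit 3) .nil))))) (.g (nat_lit 0) (.e (nat_lit 383400) (nat_lit 0) .nil) .nil)))) (.nd (nat_lit 9) 
(.lf (nat_lit 582996) (.g (nat_lit 3177) (.e (nat_lit 352262) (nat_lit 0) (.e (nat_lit 3631) (nat_lit 227) (.e (nat_lit 778323) (nat_lit 5) (.e (nat_lit 73781) (nat_lit 32) (.e (nat_lit 2856) (nat_lit 184) (.e (nat_lit 426540) (nat_lit 29) .nil)))))) (.g (nat_lit 1) (.e (nat_lit 382690) (nat_lit 0) .nil) .nil))) 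
(.lf (nat_lit 583508) (.g (nat_lit 2648) (.e (nat_lit 360457) (nat_lit 0) (.e (nat_lit 5948) (nat_lit 322) (.e (nat_lit 57424) (nat_lit 14) (.e (nat_lit 352262) (nat_lit 0) (.e (nat_lit 3748) (nat_lit 228) (.e (nat_lit 786481) (nat_lit 30) .nil)))))) (.g (nat_lit 1) (.e (nat_lit 384011) (nat_lit 0) .nil) .nil))))) (.nd (nat_lit 8) (.nd (nat_lit 9) 
(.lf (nat_lit 582868) (.g (nat_lit 1549) (.e (nat_lit 344157) (nat_lit 36) (.e (nat_lit 638999) (nat_lit 8) (.e (nat_lit 172113) (nat_lit 10) (.e (nat_lit 434269) (nat_lit 36) (.e (nat_lit 639021) (nat_lit 16) (.e (nat_lit 65620) (nat_lit 10) .nil)))))) (.g (nat_lit 1) (.e (nat_lit 382148) (nat_lit 0) .nil) .nil))) 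
(.lf (nat_lit 583380) (.g (nat_lit 2482) (.e (nat_lit 352309) (nat_lit 21) (.e (nat_lit 57846) (nat_lit 252) (.e (nat_lit 57388) (nat_lit 5) (.e (nat_lit 114698) (nat_lit 11) (.e (nat_lit 426197) (nat_lit 9) (.e (nat_lit 426538) (nat_lit 29) .nil)))))) (.g (nat_lit 1) (.e (nat_lit 383639) (nat_lit 0) .nil) .nil)))) (.nd (nat_lit 9) 
(.lf (nat_lit 583124) (.g (nat_lit 1071) (.e (nat_lit 360192) (nat_lit 5) (.e (nat_lit 221206) (nat_lit 21) (.e (nat_lit 164325) (nat_lit 230) (.e (nat_lit 163934) (nat_lit 17) .nil)))) (.g (nat_lit 0) (.e (nat_lit 383105) (nat_lit 0) .nil) .nil))) 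
(.lf (nat_lit 583636) (.g (nat_lit 2787) (.e (nat_lit 360467) (nat_lit 3) (.e (nat_lit 516195) (nat_lit 26) (.e (nat_lit 335987) (nat_lit 1) (.e (nat_lit 57927) (nat_lit 282) (.e (nat_lit 163903) (nat_lit 12) (.e (nat_lit 426544) (nat_lit 30) .nil)))))) (.g (nat_lit 1) (.e (nat_lit 384278) (nat_lit 0) .nil) .nil))))))) (.nd (nat_lit 6) (.nd (nat_lit 7) (.nd (nat_lit 8) (.nd (nat_lit 9) 
(.lf (nat_lit 582708) (.g (nat_lit 792) (.e (nat_lit 344132) (nat_lit 26) (.e (nat_lit 557093) (nat_lit 12) (.e (nat_lit 164022) (nat_lit 46) (.e (nat_lit 704736) (nat_lit 11) .nil)))) (.g (nat_lit 0) (.e (nat_lit 381701) (nat_lit 0) .nil) .nil))) 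
(.lf (nat_lit 583220) (.g (nat_lit 2562) (.e (nat_lit 352290) (nat_lit 20) (.e (nat_lit 2005) (nat_lit 138) (.e (nat_lit 671763) (nat_lit 5) (.e (nat_lit 73782) (nat_lit 32) (.e (nat_lit 2856) (nat_lit 184) (.e (nat_lit 426542) (nat_lit 29) .nil)))))) (.g (nat_lit 1) (.e (nat_lit 383361) (nat_lit 0) .nil) .nil)))) (.nd (nat_lit 9) 
(.lf (nat_lit 582964) (.g (nat_lit 2265) (.e (nat_lit 344183) (nat_lit 49) (.e (nat_lit 819204) (nat_lit 0) (.e (nat_lit 3015) (nat_lit 187) (.e (nat_lit 450562) (nat_lit 0) (.e (nat_lit 4275) (nat_lit 252) (.e (nat_lit 8305) (nat_lit 58) (.e (nat_lit 286753) (nat_lit 10) .nil))))))) (.g (nat_lit 1) (.e (nat_lit 382455) (nat_lit 0) .nil) .nil))) 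
(.lf (nat_lit 583476) (.g (nat_lit 2184) (.e (nat_lit 360449) (nat_lit 0) (.e (nat_lit 5236) (nat_lit 297) (.e (nat_lit 229415) (nat_lit 15) (.e (nat_lit 450597) (nat_lit 17) (.e (nat_lit 663574) (nat_lit 9) (.e (nat_lit 7936) (nat_lit 24) .nil)))))) (.g (nat_lit 1) (.e (nat_lit 383860) (nat_lit 0) .nil) .nil))))) (.nd (nat_lit 8) (.nd (nat_lit 9) 
(.lf (nat_lit 582836) (.g (nat_lit 3685) (.e (nat_lit 344133) (nat_lit 26) (.e (nat_lit 557105) (nat_lit 14) (.e (nat_lit 180252) (nat_lit 10) (.e (nat_lit 573474) (nat_lit 12) (.e (nat_lit 57507) (nat_lit 39) (.e (nat_lit 647175) (nat_lit 0) (.e (nat_lit 2684) (nat_lit 168) (.e (nat_lit 204862) (nat_lit 27) .nil)))))))) (.g (nat_lit 1) (.e (nat_lit 381931) (nat_lit 0) .nil) .nil))) 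
(.lf (nat_lit 583348) (.g (nat_lit 1613) (.e (nat_lit 352303) (nat_lit 20) (.e (nat_lit 2391) (nat_lit 156) (.e (nat_lit 819204) (nat_lit 0) (.e (nat_lit 3016) (nat_lit 187) (.e (nat_lit 458496) (nat_lit 3) (.e (nat_lit 524032) (nat_lit 28) .nil)))))) (.g (nat_lit 1) (.e (nat_lit 383543) (nat_lit 0) .nil) .nil)))) (.nd (nat_lit 9) 
(.lf (nat_lit 583092) (.g (nat_lit 1714) (.e (nat_lit 360192) (nat_lit 0) (.e (nat_lit 3302) (nat_lit 202) (.e (nat_lit 573491) (nat_lit 15) (.e (nat_lit 81947) (nat_lit 20) (.e (nat_lit 1842) (nat_lit 123) .nil))))) (.g (nat_lit 0) (.e (nat_lit 382958) (nat_lit 0) .nil) .nil))) 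
(.lf (nat_lit 583604) (.g (nat_lit 863) (.e (nat_lit 360467) (nat_lit 3) (.e (nat_lit 516139) (nat_lit 7) (.e (nat_lit 409618) (nat_lit 10) .nil))) (.g (nat_lit 0) (.e (nat_lit 384239) (nat_lit 0) .nil) .nil)))))) (.nd (nat_lit 7) (.nd (nat_lit 8) (.nd (nat_lit 9) 
(.lf (nat_lit 582772) (.g (nat_lit 2562) (.e (nat_lit 344132) (nat_lit 26) (.e (nat_lit 557105) (nat_lit 14) (.e (nat_lit 180252) (nat_lit 10) (.e (nat_lit 573475) (nat_lit 12) (.e (nat_lit 57513) (nat_lit 40) (.e (nat_lit 655363) (nat_lit 0) (.e (nat_lit 2685) (nat_lit 168) (.e (nat_lit 204863) (nat_lit 27) .nil)))))))) (.g (nat_lit 1) (.e (nat_lit 381812) (nat_lit 0) .nil) .nil))) 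
(.lf (nat_lit 583284) (.g (nat_lit 1590) (.e (nat_lit 352296) (nat_lit 20) (.e (nat_lit 2391) (nat_lit 156) (.e (nat_lit 819204) (nat_lit 0) (.e (nat_lit 3022) (nat_lit 187) (.e (nat_lit 458496) (nat_lit 3) (.e (nat_lit 524032) (nat_lit 28) .nil)))))) (.g (nat_lit 1) (.e (nat_lit 383450) (nat_lit 0) .nil) .nil)))) (.nd (nat_lit 9) 
(.lf (nat_lit 583028) (.g (nat_lit 1254) (.e (nat_lit 352265) (nat_lit 0) (.e (nat_lit 3632) (nat_lit 227) (.e (nat_lit 778323) (nat_lit 5) (.e (nat_lit 73782) (nat_lit 32) .nil)))) (.g (nat_lit 0) (.e (nat_lit 382760) (nat_lit 0) .nil) .nil))) 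
(.lf (nat_lit 583540) (.g (nat_lit 3975) (.e (nat_lit 360466) (nat_lit 3) (.e (nat_lit 516138) (nat_lit 7) (.e (nat_lit 409645) (nat_lit 18) (.e (nat_lit 303112) (nat_lit 0) (.e (nat_lit 3252) (nat_lit 197) (.e (nat_lit 532551) (nat_lit 12) .nil)))))) (.g (nat_lit 1) (.e (nat_lit 384150) (nat_lit 0) .nil) .nil))))) (.nd (nat_lit 8) (.nd (nat_lit 9) 
(.lf (nat_lit 582900) (.g (nat_lit 2732) (.e (nat_lit 344160) (nat_lit 37) (.e (nat_lit 647200) (nat_lit 12) (.e (nat_lit 57575) (nat_lit 55) (.e (nat_lit 778465) (nat_lit 11) (.e (nat_lit 24617) (nat_lit 7) (.e (nat_lit 319533) (nat_lit 16) (.e (nat_lit 286753) (nat_lit 10) .nil))))))) (.g (nat_lit 1) (.e (nat_lit 382241) (nat_lit 0) .nil) .nil))) 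
(.lf (nat_lit 583412) (.g (nat_lit 2911) (.e (nat_lit 352313) (nat_lit 23) (.e (nat_lit 98350) (nat_lit 24) (.e (nat_lit 409645) (nat_lit 18) (.e (nat_lit 303112) (nat_lit 0) (.e (nat_lit 3252) (nat_lit 197) (.e (nat_lit 532547) (nat_lit 11) .nil)))))) (.g (nat_lit 1) (.e (nat_lit 383710) (nat_lit 0) .nil) .nil)))) (.nd (nat_lit 9) 
(.lf (nat_lit 583156) (.g (nat_lit 946) (.e (nat_lit 360192) (nat_lit 5) (.e (nat_lit 221207) (nat_lit 21) (.e (nat_lit 164326) (nat_lit 230) (.e (nat_lit 163931) (nat_lit 17) (.e (nat_lit 474880) (nat_lit 13) .nil))))) (.g (nat_lit 0) (.e (nat_lit 383147) (nat_lit 0) .nil) .nil))) 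
(.lf (nat_lit 583668) (.g (nat_lit 1029) (.e (nat_lit 360477) (nat_lit 11) (.e (nat_lit 581636) (nat_lit 0) (.e (nat_lit 3021) (nat_lit 187) (.e (nat_lit 450605) (nat_lit 27) (.e (nat_lit 745475) (nat_lit 0) (.e (nat_lit 1599) (nat_lit 111) .nil)))))) (.g (nat_lit 1) (.e (nat_lit 384387) (nat_lit 0) .nil) .nil))))))))) 
(.nd (nat_lit 4) (.nd (nat_lit 5) (.nd (nat_lit 6) (.nd (nat_lit 7) (.nd (nat_lit 8) 
(.nd (nat_lit 9) 
(.lf (nat_lit 582668) (.g (nat_lit 2471) (.e (nat_lit 344131) (nat_lit 26) (.e (nat_lit 557098) (nat_lit 13) (.e (nat_lit 172045) (nat_lit 0) (.e (nat_lit 3307) (nat_lit 202) (.e (nat_lit 573440) (nat_lit 0) (.e (nat_lit 3067) (nat_lit 190) (.e (nat_lit 483072) (nat_lit 26) (.e (nat_lit 532544) (nat_lit 10) .nil)))))))) (.g (nat_lit 1) (.e (nat_lit 381620) (nat_lit 0) .nil) .nil))) 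
(.lf (nat_lit 583180) (.g (nat_lit 894) (.e (nat_lit 352277) (nat_lit 11) (.e (nat_lit 426098) (nat_lit 1) (.e (nat_lit 164183) (nat_lit 154) (.e (nat_lit 65280) (nat_lit 12) .nil)))) (.g (nat_lit 0) (.e (nat_lit 383222) (nat_lit 0) .nil) .nil)))) (.nd (nat_lit 9) 
(.lf (nat_lit 582924) (.g (nat_lit 2110) (.e (nat_lit 344161) (nat_lit 37) (.e (nat_lit 647201) (nat_lit 12) (.e (nat_lit 57575) (nat_lit 55) (.e (nat_lit 778466) (nat_lit 11) (.e (nat_lit 24617) (nat_lit 7) .nil))))) (.g (nat_lit 0) (.e (nat_lit 382281) (nat_lit 0) .nil) .nil))) 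
(.lf (nat_lit 583436) (.g (nat_lit 1863) (.e (nat_lit 352315) (nat_lit 23) (.e (nat_lit 98313) (nat_lit 9) (.e (nat_lit 335986) (nat_lit 1) (.e (nat_lit 57926) (nat_lit 282) (.e (nat_lit 163906) (nat_lit 12) (.e (nat_lit 426543) (nat_lit 29) .nil)))))) (.g (nat_lit 1) (.e (nat_lit 383747) (nat_lit 0) .nil) .nil))))) (.nd (nat_lit 8) (.nd (nat_lit 9) 
(.lf (nat_lit 582796) (.g (nat_lit 5477) (.e (nat_lit 344133) (nat_lit 26) (.e (nat_lit 557091) (nat_lit 12) (.e (nat_lit 164022) (nat_lit 46) (.e (nat_lit 704629) (nat_lit 9) (.e (nat_lit 375) (nat_lit 32) (.e (nat_lit 426140) (nat_lit 3) (.e (nat_lit 204855) (nat_lit 26) (.e (nat_lit 336176) (nat_lit 10) .nil)))))))) (.g (nat_lit 1) (.e (nat_lit 381886) (nat_lit 0) .nil) .nil))) 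
(.lf (nat_lit 583308) (.g (nat_lit 1736) (.e (nat_lit 352297) (nat_lit 20) (.e (nat_lit 2391) (nat_lit 156) (.e (nat_lit 819204) (nat_lit 0) (.e (nat_lit 3022) (nat_lit 187) (.e (nat_lit 458496) (nat_lit 3) (.e (nat_lit 524032) (nat_lit 28) .nil)))))) (.g (nat_lit 1) (.e (nat_lit 383480) (nat_lit 0) .nil) .nil)))) (.nd (nat_lit 9) 
(.lf (nat_lit 583052) (.g (nat_lit 1909) (.e (nat_lit 352267) (nat_lit 0) (.e (nat_lit 3253) (nat_lit 197) (.e (nat_lit 532501) (nat_lit 1) (.e (nat_lit 57854) (nat_lit 252) (.e (nat_lit 57446) (nat_lit 19) (.e (nat_lit 401152) (nat_lit 11) .nil)))))) (.g (nat_lit 1) (.e (nat_lit 382819) (nat_lit 0) .nil) .nil))) 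
(.lf (nat_lit 583564) (.g (nat_lit 705) (.e (nat_lit 360466) (nat_lit 3) (.e (nat_lit 516146) (nat_lit 9) (.e (nat_lit 426364) (nat_lit 15) .nil))) (.g (nat_lit 0) (.e (nat_lit 384185) (nat_lit 0) .nil) .nil)))))) (.nd (nat_lit 7) (.nd (nat_lit 8) (.nd (nat_lit 9) 
(.lf (nat_lit 582732) (.g (nat_lit 1964) (.e (nat_lit 344132) (nat_lit 26) (.e (nat_lit 557094) (nat_lit 12) (.e (nat_lit 164022) (nat_lit 46) (.e (nat_lit 704629) (nat_lit 9) (.e (nat_lit 452) (nat_lit 33) (.e (nat_lit 434219) (nat_lit 19) (.e (nat_lit 500059) (nat_lit 18) (.e (nat_lit 65615) (nat_lit 10) .nil)))))))) (.g (nat_lit 1) (.e (nat_lit 381770) (nat_lit 0) .nil) .nil))) 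
(.lf (nat_lit 583244) (.g (nat_lit 900) (.e (nat_lit 352291) (nat_lit 20) (.e (nat_lit 2390) (nat_lit 156) (.e (nat_lit 819203) (nat_lit 0) (.e (nat_lit 3015) (nat_lit 187) (.e (nat_lit 458496) (nat_lit 3) (.e (nat_lit 524032) (nat_lit 28) .nil)))))) (.g (nat_lit 1) (.e (nat_lit 383390) (nat_lit 0) .nil) .nil)))) (.nd (nat_lit 9) 
(.lf (nat_lit 582988) (.g (nat_lit 1861) (.e (nat_lit 352262) (nat_lit 0) (.e (nat_lit 3253) (nat_lit 197) (.e (nat_lit 532504) (nat_lit 1) (.e (nat_lit 57852) (nat_lit 252) (.e (nat_lit 57409) (nat_lit 12) .nil))))) (.g (nat_lit 0) (.e (nat_lit 382627) (nat_lit 0) .nil) .nil))) 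
(.lf (nat_lit 583500) (.g (nat_lit 2472) (.e (nat_lit 360456) (nat_lit 0) (.e (nat_lit 5948) (nat_lit 322) (.e (nat_lit 57423) (nat_lit 14) (.e (nat_lit 352262) (nat_lit 0) (.e (nat_lit 3748) (nat_lit 228) (.e (nat_lit 786483) (nat_lit 30) .nil)))))) (.g (nat_lit 1) (.e (nat_lit 383973) (nat_lit 0) .nil) .nil))))) (.nd (nat_lit 8) (.nd (nat_lit 9) 
(.lf (nat_lit 582860) (.g (nat_lit 1504) (.e (nat_lit 344157) (nat_lit 36) (.e (nat_lit 638999) (nat_lit 8) (.e (nat_lit 172082) (nat_lit 7) (.e (nat_lit 409639) (nat_lit 15) (.e (nat_lit 278567) (nat_lit 16) (.e (nat_lit 286756) (nat_lit 10) .nil)))))) (.g (nat_lit 1) (.e (nat_lit 382135) (nat_lit 0) .nil) .nil))) 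
(.lf (nat_lit 583372) (.g (nat_lit 590) (.e (nat_lit 352308) (nat_lit 21) (.e (nat_lit 57873) (nat_lit 264) (.e (nat_lit 1209) (nat_lit 89) .nil))) (.g (nat_lit 0) (.e (nat_lit 383598) (nat_lit 0) .nil) .nil)))) (.nd (nat_lit 9) 
(.lf (nat_lit 583116) (.g (nat_lit 1428) (.e (nat_lit 360192) (nat_lit 5) (.e (nat_lit 221206) (nat_lit 21) (.e (nat_lit 164324) (nat_lit 230) (.e (nat_lit 163931) (nat_lit 17) (.e (nat_lit 474880) (nat_lit 13) .nil))))) (.g (nat_lit 0) (.e (nat_lit 383096) (nat_lit 0) .nil) .nil))) 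
(.lf (nat_lit 583628) (.g (nat_lit 2934) (.e (nat_lit 360467) (nat_lit 3) (.e (nat_lit 516139) (nat_lit 7) (.e (nat_lit 409649) (nat_lit 18) (.e (nat_lit 303119) (nat_lit 3) (.e (nat_lit 212736) (nat_lit 29) .nil))))) (.g (nat_lit 1) (.e (nat_lit 384266) (nat_lit 0) .nil) .nil))))))) (.nd (nat_lit 6) (.nd (nat_lit 7) (.nd (nat_lit 8) (.nd (nat_lit 9) 
(.lf (nat_lit 582700) (.g (nat_lit 3198) (.e (nat_lit 344132) (nat_lit 26) (.e (nat_lit 557072) (nat_lit 9) (.e (nat_lit 3098) (nat_lit 192) (.e (nat_lit 491571) (nat_lit 13) (.e (nat_lit 393252) (nat_lit 18) (.e (nat_lit 164181) (nat_lit 154) (.e (nat_lit 57420) (nat_lit 13) .nil))))))) (.g (nat_lit 1) (.e (nat_lit 381653) (nat_lit 0) .nil) .nil))) 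
(.lf (nat_lit 583212) (.g (nat_lit 2347) (.e (nat_lit 352280) (nat_lit 20) (.e (nat_lit 1859) (nat_lit 124) (.e (nat_lit 557066) (nat_lit 9) (.e (nat_lit 232) (nat_lit 21) (.e (nat_lit 336060) (nat_lit 7) .nil))))) (.g (nat_lit 0) (.e (nat_lit 383314) (nat_lit 0) .nil) .nil)))) (.nd (nat_lit 9) 
(.lf (nat_lit 582956) (.g (nat_lit 3880) (.e (nat_lit 344179) (nat_lit 44) (.e (nat_lit 778466) (nat_lit 11) (.e (nat_lit 24658) (nat_lit 13) (.e (nat_lit 393301) (nat_lit 27) (.e (nat_lit 491560) (nat_lit 10) .nil))))) (.g (nat_lit 1) (.e (nat_lit 382384) (nat_lit 0) .nil) .nil))) 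
(.lf (nat_lit 583468) (.g (nat_lit 2572) (.e (nat_lit 352316) (nat_lit 24) (.e (nat_lit 123198) (nat_lit 266) (.e (nat_lit 57400) (nat_lit 10) (.e (nat_lit 319490) (nat_lit 0) (.e (nat_lit 5664) (nat_lit 312) (.e (nat_lit 2852) (nat_lit 184) (.e (nat_lit 426542) (nat_lit 29) .nil))))))) (.g (nat_lit 1) (.e (nat_lit 383822) (nat_lit 0) .nil) .nil))))) (.nd (nat_lit 8) (.nd (nat_lit 9) 
(.lf (nat_lit 582828) (.g (nat_lit 3291) (.e (nat_lit 344133) (nat_lit 26) (.e (nat_lit 557103) (nat_lit 14) (.e (nat_lit 180250) (nat_lit 10) (.e (nat_lit 573475) (nat_lit 12) (.e (nat_lit 57508) (nat_lit 39) (.e (nat_lit 647175) (nat_lit 0) (.e (nat_lit 2684) (nat_lit 168) (.e (nat_lit 204863) (nat_lit 27) .nil)))))))) (.g (nat_lit 1) (.e (nat_lit 381923) (nat_lit 0) .nil) .nil))) 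
(.lf (nat_lit 583340) (.g (nat_lit 1290) (.e (nat_lit 352303) (nat_lit 20) (.e (nat_lit 2390) (nat_lit 156) (.e (nat_lit 819204) (nat_lit 0) (.e (nat_lit 3016) (nat_lit 187) (.e (nat_lit 458496) (nat_lit 3) (.e (nat_lit 524032) (nat_lit 28) .nil)))))) (.g (nat_lit 1) (.e (nat_lit 383531) (nat_lit 0) .nil) .nil)))) (.nd (nat_lit 9) 
(.lf (nat_lit 583084) (.g (nat_lit 937) (.e (nat_lit 360192) (nat_lit 0) (.e (nat_lit 3252) (nat_lit 197) (.e (nat_lit 532501) (nat_lit 1) (.e (nat_lit 57851) (nat_lit 252) .nil)))) (.g (nat_lit 0) (.e (nat_lit 382909) (nat_lit 0) .nil) .nil))) 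
(.lf (nat_lit 583596) (.g (nat_lit 1342) (.e (nat_lit 360467) (nat_lit 3) (.e (nat_lit 516138) (nat_lit 7) (.e (nat_lit 409646) (nat_lit 18) (.e (nat_lit 303106) (nat_lit 0) .nil)))) (.g (nat_lit 0) (.e (nat_lit 384227) (nat_lit 0) .nil) .nil)))))) (.nd (nat_lit 7) (.nd (nat_lit 8) (.nd (nat_lit 9) 
(.lf (nat_lit 582764) (.g (nat_lit 2611) (.e (nat_lit 344132) (nat_lit 26) (.e (nat_lit 557105) (nat_lit 14) (.e (nat_lit 180252) (nat_lit 10) (.e (nat_lit 573475) (nat_lit 12) (.e (nat_lit 57507) (nat_lit 39) (.e (nat_lit 647170) (nat_lit 0) (.e (nat_lit 2680) (nat_lit 168) (.e (nat_lit 204864) (nat_lit 27) .nil)))))))) (.g (nat_lit 1) (.e (nat_lit 381804) (nat_lit 0) .nil) .nil))) 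
(.lf (nat_lit 583276) (.g (nat_lit 1241) (.e (nat_lit 352296) (nat_lit 20) (.e (nat_lit 2390) (nat_lit 156) (.e (nat_lit 819204) (nat_lit 0) (.e (nat_lit 3022) (nat_lit 187) (.e (nat_lit 458496) (nat_lit 3) (.e (nat_lit 524032) (nat_lit 28) .nil)))))) (.g (nat_lit 1) (.e (nat_lit 383438) (nat_lit 0) .nil) .nil)))) (.nd (nat_lit 9) 
(.lf (nat_lit 583020) (.g (nat_lit 1898) (.e (nat_lit 352265) (nat_lit 0) (.e (nat_lit 3253) (nat_lit 197) (.e (nat_lit 532503) (nat_lit 1) (.e (nat_lit 57847) (nat_lit 252) (.e (nat_lit 57448) (nat_lit 19) (.e (nat_lit 401152) (nat_lit 11) .nil)))))) (.g (nat_lit 1) (.e (nat_lit 382737) (nat_lit 0) .nil) .nil))) 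
(.lf (nat_lit 583532) (.g (nat_lit 2300) (.e (nat_lit 360466) (nat_lit 3) (.e (nat_lit 516106) (nat_lit 0) (.e (nat_lit 6986) (nat_lit 377) (.e (nat_lit 2810) (nat_lit 180) (.e (nat_lit 303119) (nat_lit 3) .nil))))) (.g (nat_lit 0) (.e (nat_lit 384122) (nat_lit 0) .nil) .nil))))) (.nd (nat_lit 8) (.nd (nat_lit 9) 
(.lf (nat_lit 582892) (.g (nat_lit 2610) (.e (nat_lit 344160) (nat_lit 37) (.e (nat_lit 647170) (nat_lit 0) (.e (nat_lit 3098) (nat_lit 192) (.e (nat_lit 491566) (nat_lit 12) (.e (nat_lit 385093) (nat_lit 49) (.e (nat_lit 786176) (nat_lit 4) (.e (nat_lit 65619) (nat_lit 10) .nil))))))) (.g (nat_lit 1) (.e (nat_lit 382217) (nat_lit 0) .nil) .nil))) 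
(.lf (nat_lit 583404) (.g (nat_lit 2080) (.e (nat_lit 352313) (nat_lit 23) (.e (nat_lit 98349) (nat_lit 24) (.e (nat_lit 409645) (nat_lit 18) (.e (nat_lit 303118) (nat_lit 3) (.e (nat_lit 204866) (nat_lit 28) .nil))))) (.g (nat_lit 0) (.e (nat_lit 383696) (nat_lit 0) .nil) .nil)))) (.nd (nat_lit 9) 
(.lf (nat_lit 583148) (.g (nat_lit 1886) (.e (nat_lit 360192) (nat_lit 5) (.e (nat_lit 221207) (nat_lit 21) (.e (nat_lit 164325) (nat_lit 230) (.e (nat_lit 163903) (nat_lit 12) (.e (nat_lit 426227) (nat_lit 9) .nil))))) (.g (nat_lit 0) (.e (nat_lit 383136) (nat_lit 0) .nil) .nil))) 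
(.lf (nat_lit 583660) (.g (nat_lit 195) (.e (nat_lit 368384) (nat_lit 10) (.e (nat_lit 573444) (nat_lit 0) (.e (nat_lit 2985) (nat_lit 186) (.e (nat_lit 442391) (nat_lit 19) (.e (nat_lit 409344) (nat_lit 30) .nil))))) (.g (nat_lit 0) (.e (nat_lit 384371) (nat_lit 0) .nil) .nil)))))))) (.nd (nat_lit 5) (.nd (nat_lit 6) (.nd (nat_lit 7) (.nd (nat_lit 8) (.nd (nat_lit 9) 
(.lf (nat_lit 582684) (.g (nat_lit 1444) (.e (nat_lit 344131) (nat_lit 26) (.e (nat_lit 557103) (nat_lit 14) (.e (nat_lit 180250) (nat_lit 10) (.e (nat_lit 573477) (nat_lit 12) .nil)))) (.g (nat_lit 0) (.e (nat_lit 381636) (nat_lit 0) .nil) .nil))) 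
(.lf (nat_lit 583196) (.g (nat_lit 3427) (.e (nat_lit 352277) (nat_lit 11) (.e (nat_lit 426500) (nat_lit 27) (.e (nat_lit 335988) (nat_lit 1) (.e (nat_lit 57931) (nat_lit 282) (.e (nat_lit 163874) (nat_lit 3) (.e (nat_lit 204865) (nat_lit 28) .nil)))))) (.g (nat_lit 1) (.e (nat_lit 383246) (nat_lit 0) .nil) .nil)))) (.nd (nat_lit 9) 
(.lf (nat_lit 582940) (.g (nat_lit 905) (.e (nat_lit 344179) (nat_lit 44) (.e (nat_lit 778465) (nat_lit 11) (.e (nat_lit 24624) (nat_lit 9) .nil))) (.g (nat_lit 0) (.e (nat_lit 382364) (nat_lit 0) .nil) .nil))) 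
(.lf (nat_lit 583452) (.g (nat_lit 3721) (.e (nat_lit 352315) (nat_lit 23) (.e (nat_lit 98349) (nat_lit 24) (.e (nat_lit 409649) (nat_lit 18) (.e (nat_lit 303118) (nat_lit 3) (.e (nat_lit 204866) (nat_lit 28) .nil))))) (.g (nat_lit 1) (.e (nat_lit 383778) (nat_lit 0) .nil) .nil))))) (.nd (nat_lit 8) (.nd (nat_lit 9) 
(.lf (nat_lit 582812) (.g (nat_lit 2469) (.e (nat_lit 344133) (nat_lit 26) (.e (nat_lit 557103) (nat_lit 14) (.e (nat_lit 180250) (nat_lit 10) (.e (nat_lit 573474) (nat_lit 12) (.e (nat_lit 57507) (nat_lit 39) (.e (nat_lit 647170) (nat_lit 0) (.e (nat_lit 2680) (nat_lit 168) (.e (nat_lit 204864) (nat_lit 27) .nil)))))))) (.g (nat_lit 1) (.e (nat_lit 381907) (nat_lit 0) .nil) .nil))) 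
(.lf (nat_lit 583324) (.g (nat_lit 1183) (.e (nat_lit 352302) (nat_lit 20) (.e (nat_lit 2391) (nat_lit 156) (.e (nat_lit 819203) (nat_lit 0) (.e (nat_lit 3016) (nat_lit 187) (.e (nat_lit 458496) (nat_lit 3) (.e (nat_lit 524032) (nat_lit 28) .nil)))))) (.g (nat_lit 1) (.e (nat_lit 383507) (nat_lit 0) .nil) .nil)))) (.nd (nat_lit 9) 
(.lf (nat_lit 583068) (.g (nat_lit 1647) (.e (nat_lit 352267) (nat_lit 0) (.e (nat_lit 3305) (nat_lit 202) (.e (nat_lit 573484) (nat_lit 13) (.e (nat_lit 65617) (nat_lit 10) (.e (nat_lit 344130) (nat_lit 26) .nil))))) (.g (nat_lit 0) (.e (nat_lit 382858) (nat_lit 0) .nil) .nil))) 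
(.lf (nat_lit 583580) (.g (nat_lit 2898) (.e (nat_lit 360466) (nat_lit 3) (.e (nat_lit 516195) (nat_lit 26) (.e (nat_lit 335986) (nat_lit 1) (.e (nat_lit 57926) (nat_lit 282) (.e (nat_lit 163902) (nat_lit 12) (.e (nat_lit 426546) (nat_lit 30) .nil)))))) (.g (nat_lit 1) (.e (nat_lit 384207) (nat_lit 0) .nil) .nil)))))) (.nd (nat_lit 7) (.nd (nat_lit 8) (.nd (nat_lit 9) 
(.lf (nat_lit 582748) (.g (nat_lit 2807) (.e (nat_lit 344132) (nat_lit 26) (.e (nat_lit 557105) (nat_lit 14) (.e (nat_lit 180252) (nat_lit 10) (.e (nat_lit 573473) (nat_lit 12) (.e (nat_lit 57511) (nat_lit 39) (.e (nat_lit 647168) (nat_lit 0) (.e (nat_lit 2685) (nat_lit 168) (.e (nat_lit 204862) (nat_lit 27) .nil)))))))) (.g (nat_lit 1) (.e (nat_lit 381788) (nat_lit 0) .nil) .nil))) 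
(.lf (nat_lit 583260) (.g (nat_lit 475) (.e (nat_lit 352292) (nat_lit 20) (.e (nat_lit 1788) (nat_lit 119) (.e (nat_lit 516139) (nat_lit 7) .nil))) (.g (nat_lit 0) (.e (nat_lit 383413) (nat_lit 0) .nil) .nil)))) (.nd (nat_lit 9) 
(.lf (nat_lit 583004) (.g (nat_lit 2135) (.e (nat_lit 352262) (nat_lit 0) (.e (nat_lit 3632) (nat_lit 227) (.e (nat_lit 778323) (nat_lit 5) (.e (nat_lit 73782) (nat_lit 32) (.e (nat_lit 2855) (nat_lit 184) (.e (nat_lit 426539) (nat_lit 29) .nil)))))) (.g (nat_lit 1) (.e (nat_lit 382700) (nat_lit 0) .nil) .nil))) 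
(.lf (nat_lit 583516) (.g (nat_lit 1327) (.e (nat_lit 368384) (nat_lit 0) (.e (nat_lit 5199) (nat_lit 294) (.e (nat_lit 57388) (nat_lit 5) (.e (nat_lit 114697) (nat_lit 11) (.e (nat_lit 426198) (nat_lit 9) .nil))))) (.g (nat_lit 0) (.e (nat_lit 384047) (nat_lit 0) .nil) .nil))))) (.nd (nat_lit 8) (.nd (nat_lit 9) 
(.lf (nat_lit 582876) (.g (nat_lit 2107) (.e (nat_lit 344168) (nat_lit 40) (.e (nat_lit 671763) (nat_lit 5) (.e (nat_lit 73781) (nat_lit 32) (.e (nat_lit 3089) (nat_lit 191) (.e (nat_lit 483394) (nat_lit 24) .nil))))) (.g (nat_lit 1) (.e (nat_lit 382178) (nat_lit 0) .nil) .nil))) 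
(.lf (nat_lit 583388) (.g (nat_lit 397) (.e (nat_lit 352309) (nat_lit 21) (.e (nat_lit 57849) (nat_lit 252) (.e (nat_lit 57390) (nat_lit 5) .nil))) (.g (nat_lit 0) (.e (nat_lit 383647) (nat_lit 0) .nil) .nil)))) (.nd (nat_lit 9) 
(.lf (nat_lit 583132) (.g (nat_lit 1166) (.e (nat_lit 360192) (nat_lit 5) (.e (nat_lit 221206) (nat_lit 21) (.e (nat_lit 164329) (nat_lit 230) (.e (nat_lit 163932) (nat_lit 17) (.e (nat_lit 474880) (nat_lit 13) .nil))))) (.g (nat_lit 0) (.e (nat_lit 383116) (nat_lit 0) .nil) .nil))) 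
(.lf (nat_lit 583644) (.g (nat_lit 3935) (.e (nat_lit 360468) (nat_lit 3) (.e (nat_lit 516139) (nat_lit 7) (.e (nat_lit 409644) (nat_lit 18) (.e (nat_lit 303119) (nat_lit 3) (.e (nat_lit 204869) (nat_lit 29) .nil))))) (.g (nat_lit 1) (.e (nat_lit 384330) (nat_lit 0) .nil) .nil))))))) (.nd (nat_lit 6) (.nd (nat_lit 7) (.nd (nat_lit 8) (.nd (nat_lit 9) 
(.lf (nat_lit 582716) (.g (nat_lit 3765) (.e (nat_lit 344132) (nat_lit 26) (.e (nat_lit 557094) (nat_lit 12) (.e (nat_lit 163847) (nat_lit 0) (.e (nat_lit 6420) (nat_lit 341) (.e (nat_lit 163900) (nat_lit 12) (.e (nat_lit 426125) (nat_lit 2) (.e (nat_lit 196666) (nat_lit 13) (.e (nat_lit 65617) (nat_lit 10) .nil)))))))) (.g (nat_lit 1) (.e (nat_lit 381723) (nat_lit 0) .nil) .nil))) 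
(.lf (nat_lit 583228) (.g (nat_lit 2338) (.e (nat_lit 352290) (nat_lit 20) (.e (nat_lit 2006) (nat_lit 138) (.e (nat_lit 671763) (nat_lit 5) (.e (nat_lit 73782) (nat_lit 32) (.e (nat_lit 2857) (nat_lit 184) (.e (nat_lit 426542) (nat_lit 29) .nil)))))) (.g (nat_lit 1) (.e (nat_lit 383369) (nat_lit 0) .nil) .nil)))) (.nd (nat_lit 9) 
(.lf (nat_lit 582972) (.g (nat_lit 1513) (.e (nat_lit 344183) (nat_lit 49) (.e (nat_lit 819221) (nat_lit 6) (.e (nat_lit 188439) (nat_lit 20) (.e (nat_lit 3289) (nat_lit 201) (.e (nat_lit 565267) (nat_lit 4) (.e (nat_lit 65610) (nat_lit 10) .nil)))))) (.g (nat_lit 1) (.e (nat_lit 382500) (nat_lit 0) .nil) .nil))) 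
(.lf (nat_lit 583484) (.g (nat_lit 2205) (.e (nat_lit 360450) (nat_lit 0) (.e (nat_lit 7710) (nat_lit 414) (.e (nat_lit 163908) (nat_lit 12) (.e (nat_lit 426285) (nat_lit 10) (.e (nat_lit 434229) (nat_lit 22) (.e (nat_lit 532224) (nat_lit 29) .nil)))))) (.g (nat_lit 1) (.e (nat_lit 383882) (nat_lit 0) .nil) .nil))))) (.nd (nat_lit 8) (.nd (nat_lit 9) 
(.lf (nat_lit 582844) (.g (nat_lit 3987) (.e (nat_lit 344133) (nat_lit 26) (.e (nat_lit 557105) (nat_lit 14) (.e (nat_lit 180252) (nat_lit 10) (.e (nat_lit 573475) (nat_lit 12) (.e (nat_lit 57508) (nat_lit 39) (.e (nat_lit 647180) (nat_lit 3) (.e (nat_lit 163962) (nat_lit 25) (.e (nat_lit 532544) (nat_lit 10) .nil)))))))) (.g (nat_lit 1) (.e (nat_lit 381939) (nat_lit 0) .nil) .nil))) 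
(.lf (nat_lit 583356) (.g (nat_lit 719) (.e (nat_lit 352307) (nat_lit 21) (.e (nat_lit 57847) (nat_lit 252) (.e (nat_lit 57388) (nat_lit 5) .nil))) (.g (nat_lit 0) (.e (nat_lit 383577) (nat_lit 0) .nil) .nil)))) (.nd (nat_lit 9) 
(.lf (nat_lit 583100) (.g (nat_lit 1425) (.e (nat_lit 360192) (nat_lit 0) (.e (nat_lit 3605) (nat_lit 225) (.e (nat_lit 761905) (nat_lit 16) (.e (nat_lit 172106) (nat_lit 10) .nil)))) (.g (nat_lit 0) (.e (nat_lit 383043) (nat_lit 0) .nil) .nil))) 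
(.lf (nat_lit 583612) (.g (nat_lit 1361) (.e (nat_lit 360467) (nat_lit 3) (.e (nat_lit 516139) (nat_lit 7) (.e (nat_lit 409646) (nat_lit 18) (.e (nat_lit 303112) (nat_lit 0) .nil)))) (.g (nat_lit 0) (.e (nat_lit 384249) (nat_lit 0) .nil) .nil)))))) (.nd (nat_lit 7) (.nd (nat_lit 8) (.nd (nat_lit 9) 
(.lf (nat_lit 582780) (.g (nat_lit 4422) (.e (nat_lit 344133) (nat_lit 26) (.e (nat_lit 557087) (nat_lit 11) (.e (nat_lit 24617) (nat_lit 7) (.e (nat_lit 319504) (nat_lit 10) (.e (nat_lit 7936) (nat_lit 45) (.e (nat_lit 532535) (nat_lit 9) (.e (nat_lit 336169) (nat_lit 10) .nil))))))) (.g (nat_lit 1) (.e (nat_lit 381829) (nat_lit 0) .nil) .nil))) 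
(.lf (nat_lit 583292) (.g (nat_lit 1956) (.e (nat_lit 352297) (nat_lit 20) (.e (nat_lit 2006) (nat_lit 138) (.e (nat_lit 671763) (nat_lit 5) (.e (nat_lit 73782) (nat_lit 32) (.e (nat_lit 2855) (nat_lit 184) (.e (nat_lit 426542) (nat_lit 29) .nil)))))) (.g (nat_lit 1) (.e (nat_lit 383459) (nat_lit 0) .nil) .nil)))) (.nd (nat_lit 9) 
(.lf (nat_lit 583036) (.g (nat_lit 2510) (.e (nat_lit 352266) (nat_lit 0) (.e (nat_lit 3253) (nat_lit 197) (.e (nat_lit 532503) (nat_lit 1) (.e (nat_lit 57848) (nat_lit 252) (.e (nat_lit 57445) (nat_lit 19) (.e (nat_lit 401152) (nat_lit 11) .nil)))))) (.g (nat_lit 1) (.e (nat_lit 382773) (nat_lit 0) .nil) .nil))) 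
(.lf (nat_lit 583548) (.g (nat_lit 2853) (.e (nat_lit 360466) (nat_lit 3) (.e (nat_lit 516139) (nat_lit 7) (.e (nat_lit 409646) (nat_lit 18) (.e (nat_lit 303112) (nat_lit 0) (.e (nat_lit 3252) (nat_lit 197) (.e (nat_lit 532551) (nat_lit 12) .nil)))))) (.g (nat_lit 1) (.e (nat_lit 384161) (nat_lit 0) .nil) .nil))))) (.nd (nat_lit 8) (.nd (nat_lit 9) 
(.lf (nat_lit 582908) (.g (nat_lit 4116) (.e (nat_lit 344160) (nat_lit 37) (.e (nat_lit 647201) (nat_lit 12) (.e (nat_lit 57575) (nat_lit 55) (.e (nat_lit 778465) (nat_lit 11) (.e (nat_lit 24617) (nat_lit 7) (.e (nat_lit 319534) (nat_lit 16) (.e (nat_lit 286756) (nat_lit 10) .nil))))))) (.g (nat_lit 1) (.e (nat_lit 382249) (nat_lit 0) .nil) .nil))) 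
(.lf (nat_lit 583420) (.g (nat_lit 1608) (.e (nat_lit 352314) (nat_lit 23) (.e (nat_lit 98317) (nat_lit 9) (.e (nat_lit 335996) (nat_lit 1) (.e (nat_lit 57931) (nat_lit 282) .nil)))) (.g (nat_lit 0) (.e (nat_lit 383723) (nat_lit 0) .nil) .nil)))) (.nd (nat_lit 9) 
(.lf (nat_lit 583164) (.g (nat_lit 1596) (.e (nat_lit 352271) (nat_lit 9) (.e (nat_lit 409602) (nat_lit 0) (.e (nat_lit 5664) (nat_lit 312) (.e (nat_lit 2605) (nat_lit 163) (.e (nat_lit 164327) (nat_lit 230) (.e (nat_lit 163886) (nat_lit 5) (.e (nat_lit 229120) (nat_lit 13) .nil))))))) (.g (nat_lit 1) (.e (nat_lit 383178) (nat_lit 0) .nil) .nil))) 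
(.lf (nat_lit 583676) (.g (nat_lit 2214) (.e (nat_lit 360472) (nat_lit 8) (.e (nat_lit 557090) (nat_lit 12) (.e (nat_lit 164020) (nat_lit 45) (.e (nat_lit 696327) (nat_lit 5) .nil)))) (.g (nat_lit 0) (.e (nat_lit 384398) (nat_lit 0) .nil) .nil))))))))))) (.nd (nat_lit 2) (.nd (nat_lit 3) (.nd (nat_lit 4) (.nd (nat_lit 5) (.nd (nat_lit 6) (.nd (nat_lit 7) (.nd (nat_lit 8) (.nd (nat_lit 9) 
(.lf (nat_lit 582658) (.g (nat_lit 2746) (.e (nat_lit 344130) (nat_lit 26) (.e (nat_lit 557104) (nat_lit 14) (.e (nat_lit 180252) (nat_lit 10) (.e (nat_lit 573475) (nat_lit 12) (.e (nat_lit 57508) (nat_lit 39) (.e (nat_lit 647170) (nat_lit 0) (.e (nat_lit 2685) (nat_lit 168) (.e (nat_lit 204864) (nat_lit 27) .nil)))))))) (.g (nat_lit 1) (.e (nat_lit 381607) (nat_lit 0) .nil) .nil))) 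
(.lf (nat_lit 583170) (.g (nat_lit 2002) (.e (nat_lit 352274) (nat_lit 11) (.e (nat_lit 426265) (nat_lit 9) (.e (nat_lit 426098) (nat_lit 1) (.e (nat_lit 164325) (nat_lit 230) (.e (nat_lit 163886) (nat_lit 5) (.e (nat_lit 229120) (nat_lit 13) .nil)))))) (.g (nat_lit 1) (.e (nat_lit 383197) (nat_lit 0) .nil) .nil)))) (.nd (nat_lit 9) 
(.lf (nat_lit 582914) (.g (nat_lit 1918) (.e (nat_lit 344161) (nat_lit 37) (.e (nat_lit 647183) (nat_lit 4) (.e (nat_lit 172147) (nat_lit 27) (.e (nat_lit 336184) (nat_lit 11) (.e (nat_lit 368676) (nat_lit 21) (.e (nat_lit 524032) (nat_lit 27) .nil)))))) (.g (nat_lit 1) (.e (nat_lit 382263) (nat_lit 0) .nil) .nil))) 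
(.lf (nat_lit 583426) (.g (nat_lit 826) (.e (nat_lit 352314) (nat_lit 23) (.e (nat_lit 98350) (nat_lit 24) (.e (nat_lit 409615) (nat_lit 10) .nil))) (.g (nat_lit 0) (.e (nat_lit 383730) (nat_lit 0) .nil) .nil))))) (.nd (nat_lit 8) (.nd (nat_lit 9) 
(.lf (nat_lit 582786) (.g (nat_lit 1782) (.e (nat_lit 344133) (nat_lit 26) (.e (nat_lit 557087) (nat_lit 11) (.e (nat_lit 24648) (nat_lit 12) (.e (nat_lit 385074) (nat_lit 31) .nil)))) (.g (nat_lit 0) (.e (nat_lit 381835) (nat_lit 0) .nil) .nil))) 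
(.lf (nat_lit 583298) (.g (nat_lit 1413) (.e (nat_lit 352297) (nat_lit 20) (.e (nat_lit 2390) (nat_lit 156) (.e (nat_lit 819204) (nat_lit 0) (.e (nat_lit 3015) (nat_lit 187) (.e (nat_lit 458496) (nat_lit 3) (.e (nat_lit 524032) (nat_lit 28) .nil)))))) (.g (nat_lit 1) (.e (nat_lit 383466) (nat_lit 0) .nil) .nil)))) (.nd (nat_lit 9) 
(.lf (nat_lit 583042) (.g (nat_lit 1354) (.e (nat_lit 352266) (nat_lit 0) (.e (nat_lit 3305) (nat_lit 202) (.e (nat_lit 573484) (nat_lit 13) (.e (nat_lit 65617) (nat_lit 10) .nil)))) (.g (nat_lit 0) (.e (nat_lit 382789) (nat_lit 0) .nil) .nil))) 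
(.lf (nat_lit 583554) (.g (nat_lit 3982) (.e (nat_lit 360466) (nat_lit 3) (.e (nat_lit 516139) (nat_lit 7) (.e (nat_lit 409647) (nat_lit 18) (.e (nat_lit 303119) (nat_lit 3) (.e (nat_lit 204868) (nat_lit 29) .nil))))) (.g (nat_lit 1) (.e (nat_lit 384167) (nat_lit 0) .nil) .nil)))))) (.nd (nat_lit 7) (.nd (nat_lit 8) (.nd (nat_lit 9) 
(.lf (nat_lit 582722) (.g (nat_lit 3890) (.e (nat_lit 344132) (nat_lit 26) (.e (nat_lit 557094) (nat_lit 12) (.e (nat_lit 164018) (nat_lit 45) (.e (nat_lit 696327) (nat_lit 5) (.e (nat_lit 2884) (nat_lit 184) (.e (nat_lit 426125) (nat_lit 2) (.e (nat_lit 196666) (nat_lit 13) (.e (nat_lit 65617) (nat_lit 10) .nil)))))))) (.g (nat_lit 1) (.e (nat_lit 381741) (nat_lit 0) .nil) .nil))) 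
(.lf (nat_lit 583234) (.g (nat_lit 1046) (.e (nat_lit 352290) (nat_lit 20) (.e (nat_lit 2390) (nat_lit 156) (.e (nat_lit 819204) (nat_lit 0) (.e (nat_lit 3027) (nat_lit 187) (.e (nat_lit 458496) (nat_lit 3) .nil))))) (.g (nat_lit 0) (.e (nat_lit 383376) (nat_lit 0) .nil) .nil)))) (.nd (nat_lit 9) 
(.lf (nat_lit 582978) (.g (nat_lit 2898) (.e (nat_lit 352261) (nat_lit 0) (.e (nat_lit 3302) (nat_lit 202) (.e (nat_lit 573482) (nat_lit 13) (.e (nat_lit 65628) (nat_lit 14) (.e (nat_lit 401428) (nat_lit 3) .nil))))) (.g (nat_lit 0) (.e (nat_lit 382574) (nat_lit 0) .nil) .nil))) 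
(.lf (nat_lit 583490) (.g (nat_lit 2576) (.e (nat_lit 360451) (nat_lit 0) (.e (nat_lit 7607) (nat_lit 410) (.e (nat_lit 2630) (nat_lit 164) (.e (nat_lit 172106) (nat_lit 10) (.e (nat_lit 434229) (nat_lit 22) (.e (nat_lit 532224) (nat_lit 29) .nil)))))) (.g (nat_lit 1) (.e (nat_lit 383895) (nat_lit 0) .nil) .nil))))) (.nd (nat_lit 8) (.nd (nat_lit 9) 
(.lf (nat_lit 582850) (.g (nat_lit 1905) (.e (nat_lit 344156) (nat_lit 36) (.e (nat_lit 638998) (nat_lit 8) (.e (nat_lit 172113) (nat_lit 10) (.e (nat_lit 434208) (nat_lit 18) (.e (nat_lit 5800) (nat_lit 320) .nil))))) (.g (nat_lit 0) (.e (nat_lit 382080) (nat_lit 0) .nil) .nil))) 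
(.lf (nat_lit 583362) (.g (nat_lit 380) (.e (nat_lit 352307) (nat_lit 21) (.e (nat_lit 57849) (nat_lit 252) (.e (nat_lit 57390) (nat_lit 5) .nil))) (.g (nat_lit 0) (.e (nat_lit 383583) (nat_lit 0) .nil) .nil)))) (.nd (nat_lit 9) 
(.lf (nat_lit 583106) (.g (nat_lit 2425) (.e (nat_lit 360192) (nat_lit 3) (.e (nat_lit 204830) (nat_lit 18) (.e (nat_lit 57852) (nat_lit 252) (.e (nat_lit 57409) (nat_lit 12) (.e (nat_lit 336372) (nat_lit 27) .nil))))) (.g (nat_lit 0) (.e (nat_lit 383059) (nat_lit 0) .nil) .nil))) 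
(.lf (nat_lit 583618) (.g (nat_lit 3234) (.e (nat_lit 360467) (nat_lit 3) (.e (nat_lit 516139) (nat_lit 7) (.e (nat_lit 409647) (nat_lit 18) (.e (nat_lit 303119) (nat_lit 3) (.e (nat_lit 204870) (nat_lit 29) .nil))))) (.g (nat_lit 1) (.e (nat_lit 384255) (nat_lit 0) .nil) .nil))))))) (.nd (nat_lit 6) (.nd (nat_lit 7) (.nd (nat_lit 8) (.nd (nat_lit 9) 
(.lf (nat_lit 582690) (.g (nat_lit 2785) (.e (nat_lit 344131) (nat_lit 26) (.e (nat_lit 557105) (nat_lit 14) (.e (nat_lit 180252) (nat_lit 10) (.e (nat_lit 573474) (nat_lit 12) (.e (nat_lit 57507) (nat_lit 39) (.e (nat_lit 647175) (nat_lit 0) (.e (nat_lit 2684) (nat_lit 168) (.e (nat_lit 204863) (nat_lit 27) .nil)))))))) (.g (nat_lit 1) (.e (nat_lit 381642) (nat_lit 0) .nil) .nil))) 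
(.lf (nat_lit 583202) (.g (nat_lit 2610) (.e (nat_lit 352277) (nat_lit 11) (.e (nat_lit 426500) (nat_lit 27) (.e (nat_lit 335996) (nat_lit 1) (.e (nat_lit 57930) (nat_lit 282) (.e (nat_lit 163874) (nat_lit 3) (.e (nat_lit 204865) (nat_lit 28) .nil)))))) (.g (nat_lit 1) (.e (nat_lit 383262) (nat_lit 0) .nil) .nil)))) (.nd (nat_lit 9) 
(.lf (nat_lit 582946) (.g (nat_lit 2331) (.e (nat_lit 344179) (nat_lit 44) (.e (nat_lit 778466) (nat_lit 11) (.e (nat_lit 24617) (nat_lit 7) (.e (nat_lit 319505) (nat_lit 10) (.e (nat_lit 720) (nat_lit 64) (.e (nat_lit 688175) (nat_lit 16) (.e (nat_lit 65612) (nat_lit 10) .nil))))))) (.g (nat_lit 1) (.e (nat_lit 382374) (nat_lit 0) .nil) .nil))) 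
(.lf (nat_lit 583458) (.g (nat_lit 595) (.e (nat_lit 352315) (nat_lit 23) (.e (nat_lit 98367) (nat_lit 27) (.e (nat_lit 434208) (nat_lit 18) .nil))) (.g (nat_lit 0) (.e (nat_lit 383795) (nat_lit 0) .nil) .nil))))) (.nd (nat_lit 8) (.nd (nat_lit 9) 
(.lf (nat_lit 582818) (.g (nat_lit 2484) (.e (nat_lit 344133) (nat_lit 26) (.e (nat_lit 557103) (nat_lit 14) (.e (nat_lit 180250) (nat_lit 10) (.e (nat_lit 573474) (nat_lit 12) (.e (nat_lit 57508) (nat_lit 39) (.e (nat_lit 647170) (nat_lit 0) (.e (nat_lit 2685) (nat_lit 168) (.e (nat_lit 204864) (nat_lit 27) .nil)))))))) (.g (nat_lit 1) (.e (nat_lit 381913) (nat_lit 0) .nil) .nil))) 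
(.lf (nat_lit 583330) (.g (nat_lit 2373) (.e (nat_lit 352303) (nat_lit 20) (.e (nat_lit 1788) (nat_lit 119) (.e (nat_lit 516139) (nat_lit 7) (.e (nat_lit 409647) (nat_lit 18) (.e (nat_lit 303118) (nat_lit 3) .nil))))) (.g (nat_lit 0) (.e (nat_lit 383515) (nat_lit 0) .nil) .nil)))) (.nd (nat_lit 9) 
(.lf (nat_lit 583074) (.g (nat_lit 2228) (.e (nat_lit 352267) (nat_lit 0) (.e (nat_lit 3632) (nat_lit 227) (.e (nat_lit 778323) (nat_lit 5) (.e (nat_lit 73779) (nat_lit 32) (.e (nat_lit 2936) (nat_lit 184) (.e (nat_lit 426541) (nat_lit 29) .nil)))))) (.g (nat_lit 1) (.e (nat_lit 382888) (nat_lit 0) .nil) .nil))) 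
(.lf (nat_lit 583586) (.g (nat_lit 3323) (.e (nat_lit 360466) (nat_lit 3) (.e (nat_lit 516195) (nat_lit 26) (.e (nat_lit 335996) (nat_lit 1) (.e (nat_lit 57852) (nat_lit 252) (.e (nat_lit 65280) (nat_lit 62) .nil))))) (.g (nat_lit 0) (.e (nat_lit 384214) (nat_lit 0) .nil) .nil)))))) (.nd (nat_lit 7) (.nd (nat_lit 8) (.nd (nat_lit 9) 
(.lf (nat_lit 582754) (.g (nat_lit 3191) (.e (nat_lit 344132) (nat_lit 26) (.e (nat_lit 557105) (nat_lit 14) (.e (nat_lit 180252) (nat_lit 10) (.e (nat_lit 573474) (nat_lit 12) (.e (nat_lit 57507) (nat_lit 39) (.e (nat_lit 647180) (nat_lit 3) (.e (nat_lit 163962) (nat_lit 25) (.e (nat_lit 532544) (nat_lit 10) .nil)))))))) (.g (nat_lit 1) (.e (nat_lit 381794) (nat_lit 0) .nil) .nil))) 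
(.lf (nat_lit 583266) (.g (nat_lit 1742) (.e (nat_lit 352294) (nat_lit 20) (.e (nat_lit 1788) (nat_lit 119) (.e (nat_lit 516195) (nat_lit 26) (.e (nat_lit 335995) (nat_lit 1) (.e (nat_lit 57931) (nat_lit 282) .nil))))) (.g (nat_lit 0) (.e (nat_lit 383425) (nat_lit 0) .nil) .nil)))) (.nd (nat_lit 9) 
(.lf (nat_lit 583010) (.g (nat_lit 417) (.e (nat_lit 352262) (nat_lit 0) (.e (nat_lit 3632) (nat_lit 227) (.e (nat_lit 778327) (nat_lit 6) .nil))) (.g (nat_lit 0) (.e (nat_lit 382707) (nat_lit 0) .nil) .nil))) 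
(.lf (nat_lit 583522) (.g (nat_lit 2876) (.e (nat_lit 360464) (nat_lit 2) (.e (nat_lit 507920) (nat_lit 5) (.e (nat_lit 278546) (nat_lit 8) (.e (nat_lit 303119) (nat_lit 3) (.e (nat_lit 204868) (nat_lit 29) .nil))))) (.g (nat_lit 1) (.e (nat_lit 384077) (nat_lit 0) .nil) .nil))))) (.nd (nat_lit 8) (.nd (nat_lit 9) 
(.lf (nat_lit 582882) (.g (nat_lit 3257) (.e (nat_lit 344168) (nat_lit 40) (.e (nat_lit 671782) (nat_lit 12) (.e (nat_lit 164050) (nat_lit 55) (.e (nat_lit 778464) (nat_lit 11) (.e (nat_lit 24617) (nat_lit 7) (.e (nat_lit 319533) (nat_lit 16) (.e (nat_lit 286753) (nat_lit 10) .nil))))))) (.g (nat_lit 1) (.e (nat_lit 382184) (nat_lit 0) .nil) .nil))) 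
(.lf (nat_lit 583394) (.g (nat_lit 866) (.e (nat_lit 352311) (nat_lit 22) (.e (nat_lit 90160) (nat_lit 11) (.e (nat_lit 24599) (nat_lit 1) .nil))) (.g (nat_lit 0) (.e (nat_lit 383662) (nat_lit 0) .nil) .nil)))) (.nd (nat_lit 9) 
(.lf (nat_lit 583138) (.g (nat_lit 1323) (.e (nat_lit 360192) (nat_lit 5) (.e (nat_lit 221206) (nat_lit 21) (.e (nat_lit 164331) (nat_lit 230) (.e (nat_lit 163932) (nat_lit 17) (.e (nat_lit 474880) (nat_lit 13) .nil))))) (.g (nat_lit 0) (.e (nat_lit 383125) (nat_lit 0) .nil) .nil))) 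
(.lf (nat_lit 583650) (.g (nat_lit 2149) (.e (nat_lit 368384) (nat_lit 3) (.e (nat_lit 516138) (nat_lit 7) (.e (nat_lit 409649) (nat_lit 18) (.e (nat_lit 303119) (nat_lit 3) .nil)))) (.g (nat_lit 0) (.e (nat_lit 384349) (nat_lit 0) .nil) .nil)))))))) (.nd (nat_lit 5) (.nd (nat_lit 6) (.nd (nat_lit 7) (.nd (nat_lit 8) (.nd (nat_lit 9) 
(.lf (nat_lit 582674) (.g (nat_lit 3578) (.e (nat_lit 344131) (nat_lit 26) (.e (nat_lit 557098) (nat_lit 13) (.e (nat_lit 172133) (nat_lit 15) (.e (nat_lit 1800) (nat_lit 119) (.e (nat_lit 516119) (nat_lit 1) (.e (nat_lit 164347) (nat_lit 240) (.e (nat_lit 2601) (nat_lit 163) (.e (nat_lit 163962) (nat_lit 25) (.e (nat_lit 532544) (nat_lit 10) .nil))))))))) (.g (nat_lit 1) (.e (nat_lit 381626) (nat_lit 0) .nil) .nil))) 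
(.lf (nat_lit 583186) (.g (nat_lit 1733) (.e (nat_lit 352277) (nat_lit 11) (.e (nat_lit 426343) (nat_lit 14) (.e (nat_lit 491558) (nat_lit 10) (.e (nat_lit 344177) (nat_lit 43) (.e (nat_lit 770058) (nat_lit 5) .nil))))) (.g (nat_lit 0) (.e (nat_lit 383228) (nat_lit 0) .nil) .nil)))) (.nd (nat_lit 9) 
(.lf (nat_lit 582930) (.g (nat_lit 1266) (.e (nat_lit 344177) (nat_lit 43) (.e (nat_lit 770071) (nat_lit 8) (.e (nat_lit 65571) (nat_lit 3) (.e (nat_lit 98341) (nat_lit 20) .nil)))) (.g (nat_lit 0) (.e (nat_lit 382341) (nat_lit 0) .nil) .nil))) 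
(.lf (nat_lit 583442) (.g (nat_lit 2213) (.e (nat_lit 352315) (nat_lit 23) (.e (nat_lit 98316) (nat_lit 9) (.e (nat_lit 335996) (nat_lit 1) (.e (nat_lit 57931) (nat_lit 282) (.e (nat_lit 163905) (nat_lit 12) (.e (nat_lit 426542) (nat_lit 29) .nil)))))) (.g (nat_lit 1) (.e (nat_lit 383755) (nat_lit 0) .nil) .nil))))) (.nd (nat_lit 8) (.nd (nat_lit 9) 
(.lf (nat_lit 582802) (.g (nat_lit 2754) (.e (nat_lit 344133) (nat_lit 26) (.e (nat_lit 557103) (nat_lit 14) (.e (nat_lit 180243) (nat_lit 5) (.e (nat_lit 532501) (nat_lit 1) (.e (nat_lit 57703) (nat_lit 164) (.e (nat_lit 2601) (nat_lit 163) (.e (nat_lit 163962) (nat_lit 25) (.e (nat_lit 532543) (nat_lit 10) .nil)))))))) (.g (nat_lit 1) (.e (nat_lit 381897) (nat_lit 0) .nil) .nil))) 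
(.lf (nat_lit 583314) (.g (nat_lit 1623) (.e (nat_lit 352302) (nat_lit 20) (.e (nat_lit 1858) (nat_lit 124) (.e (nat_lit 557093) (nat_lit 12) (.e (nat_lit 164018) (nat_lit 45) .nil)))) (.g (nat_lit 0) (.e (nat_lit 383494) (nat_lit 0) .nil) .nil)))) (.nd (nat_lit 9) 
(.lf (nat_lit 583058) (.g (nat_lit 1900) (.e (nat_lit 352267) (nat_lit 0) (.e (nat_lit 3253) (nat_lit 197) (.e (nat_lit 532503) (nat_lit 1) (.e (nat_lit 57847) (nat_lit 252) (.e (nat_lit 57448) (nat_lit 19) (.e (nat_lit 401152) (nat_lit 11) .nil)))))) (.g (nat_lit 1) (.e (nat_lit 382825) (nat_lit 0) .nil) .nil))) 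
(.lf (nat_lit 583570) (.g (nat_lit 1563) (.e (nat_lit 360466) (nat_lit 3) (.e (nat_lit 516185) (nat_lit 16) (.e (nat_lit 491526) (nat_lit 0) (.e (nat_lit 6648) (nat_lit 357) .nil)))) (.g (nat_lit 0) (.e (nat_lit 384197) (nat_lit 0) .nil) .nil)))))) (.nd (nat_lit 7) (.nd (nat_lit 8) (.nd (nat_lit 9) 
(.lf (nat_lit 582738) (.g (nat_lit 789) (.e (nat_lit 344132) (nat_lit 26) (.e (nat_lit 557100) (nat_lit 13) (.e (nat_lit 172137) (nat_lit 15) .nil))) (.g (nat_lit 0) (.e (nat_lit 381778) (nat_lit 0) .nil) .nil))) 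
(.lf (nat_lit 583250) (.g (nat_lit 1153) (.e (nat_lit 352291) (nat_lit 20) (.e (nat_lit 2390) (nat_lit 156) (.e (nat_lit 819204) (nat_lit 0) (.e (nat_lit 3022) (nat_lit 187) (.e (nat_lit 458496) (nat_lit 3) (.e (nat_lit 524032) (nat_lit 28) .nil)))))) (.g (nat_lit 1) (.e (nat_lit 383397) (nat_lit 0) .nil) .nil)))) (.nd (nat_lit 9) 
(.lf (nat_lit 582994) (.g (nat_lit 1937) (.e (nat_lit 352262) (nat_lit 0) (.e (nat_lit 3305) (nat_lit 202) (.e (nat_lit 573484) (nat_lit 13) (.e (nat_lit 65617) (nat_lit 10) (.e (nat_lit 344130) (nat_lit 26) .nil))))) (.g (nat_lit 0) (.e (nat_lit 382669) (nat_lit 0) .nil) .nil))) 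
(.lf (nat_lit 583506) (.g (nat_lit 2722) (.e (nat_lit 360457) (nat_lit 0) (.e (nat_lit 5948) (nat_lit 322) (.e (nat_lit 57423) (nat_lit 14) (.e (nat_lit 352262) (nat_lit 0) (.e (nat_lit 3748) (nat_lit 228) (.e (nat_lit 786481) (nat_lit 30) .nil)))))) (.g (nat_lit 1) (.e (nat_lit 384008) (nat_lit 0) .nil) .nil))))) (.nd (nat_lit 8) (.nd (nat_lit 9) 
(.lf (nat_lit 582866) (.g (nat_lit 1152) (.e (nat_lit 344157) (nat_lit 36) (.e (nat_lit 638999) (nat_lit 8) (.e (nat_lit 172112) (nat_lit 10) (.e (nat_lit 434269) (nat_lit 36) (.e (nat_lit 639021) (nat_lit 16) (.e (nat_lit 65620) (nat_lit 10) .nil)))))) (.g (nat_lit 1) (.e (nat_lit 382145) (nat_lit 0) .nil) .nil))) 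
(.lf (nat_lit 583378) (.g (nat_lit 3182) (.e (nat_lit 352309) (nat_lit 21) (.e (nat_lit 57844) (nat_lit 252) (.e (nat_lit 57389) (nat_lit 5) (.e (nat_lit 114698) (nat_lit 11) (.e (nat_lit 426198) (nat_lit 9) (.e (nat_lit 426538) (nat_lit 29) .nil)))))) (.g (nat_lit 1) (.e (nat_lit 383637) (nat_lit 0) .nil) .nil)))) (.nd (nat_lit 9) 
(.lf (nat_lit 583122) (.g (nat_lit 1291) (.e (nat_lit 360192) (nat_lit 5) (.e (nat_lit 221206) (nat_lit 21) (.e (nat_lit 164325) (nat_lit 230) (.e (nat_lit 163931) (nat_lit 17) (.e (nat_lit 474880) (nat_lit 13) .nil))))) (.g (nat_lit 0) (.e (nat_lit 383103) (nat_lit 0) .nil) .nil))) 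
(.lf (nat_lit 583634) (.g (nat_lit 2281) (.e (nat_lit 360467) (nat_lit 3) (.e (nat_lit 516195) (nat_lit 26) (.e (nat_lit 335986) (nat_lit 1) (.e (nat_lit 57926) (nat_lit 282) (.e (nat_lit 163901) (nat_lit 12) (.e (nat_lit 426544) (nat_lit 30) .nil)))))) (.g (nat_lit 1) (.e (nat_lit 384276) (nat_lit 0) .nil) .nil))))))) (.nd (nat_lit 6) (.nd (nat_lit 7) (.nd (nat_lit 8) (.nd (nat_lit 9) 
(.lf (nat_lit 582706) (.g (nat_lit 1766) (.e (nat_lit 344132) (nat_lit 26) (.e (nat_lit 557093) (nat_lit 12) (.e (nat_lit 164022) (nat_lit 46) (.e (nat_lit 704629) (nat_lit 9) (.e (nat_lit 411) (nat_lit 32) .nil))))) (.g (nat_lit 0) (.e (nat_lit 381699) (nat_lit 0) .nil) .nil))) 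
(.lf (nat_lit 583218) (.g (nat_lit 1592) (.e (nat_lit 352290) (nat_lit 20) (.e (nat_lit 2005) (nat_lit 138) (.e (nat_lit 671763) (nat_lit 5) (.e (nat_lit 73782) (nat_lit 32) (.e (nat_lit 2854) (nat_lit 184) (.e (nat_lit 426542) (nat_lit 29) .nil)))))) (.g (nat_lit 1) (.e (nat_lit 383359) (nat_lit 0) .nil) .nil)))) (.nd (nat_lit 9) 
(.lf (nat_lit 582962) (.g (nat_lit 2531) (.e (nat_lit 352000) (nat_lit 44) (.e (nat_lit 778465) (nat_lit 11) (.e (nat_lit 24665) (nat_lit 14) (.e (nat_lit 401414) (nat_lit 0) (.e (nat_lit 3459) (nat_lit 216) .nil))))) (.g (nat_lit 0) (.e (nat_lit 382394) (nat_lit 0) .nil) .nil))) 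
(.lf (nat_lit 583474) (.g (nat_lit 2122) (.e (nat_lit 352321) (nat_lit 25) (.e (nat_lit 139277) (nat_lit 3) (.e (nat_lit 57347) (nat_lit 0) (.e (nat_lit 7261) (nat_lit 384) (.e (nat_lit 57445) (nat_lit 19) (.e (nat_lit 401152) (nat_lit 11) .nil)))))) (.g (nat_lit 1) (.e (nat_lit 383841) (nat_lit 0) .nil) .nil))))) (.nd (nat_lit 8) (.nd (nat_lit 9) 
(.lf (nat_lit 582834) (.g (nat_lit 3399) (.e (nat_lit 344133) (nat_lit 26) (.e (nat_lit 557105) (nat_lit 14) (.e (nat_lit 180252) (nat_lit 10) (.e (nat_lit 573474) (nat_lit 12) (.e (nat_lit 57507) (nat_lit 39) (.e (nat_lit 647170) (nat_lit 0) (.e (nat_lit 2680) (nat_lit 168) (.e (nat_lit 204864) (nat_lit 27) .nil)))))))) (.g (nat_lit 1) (.e (nat_lit 381929) (nat_lit 0) .nil) .nil))) 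
(.lf (nat_lit 583346) (.g (nat_lit 1031) (.e (nat_lit 352303) (nat_lit 20) (.e (nat_lit 2391) (nat_lit 156) (.e (nat_lit 819203) (nat_lit 0) (.e (nat_lit 3027) (nat_lit 187) (.e (nat_lit 458496) (nat_lit 3) (.e (nat_lit 524032) (nat_lit 28) .nil)))))) (.g (nat_lit 1) (.e (nat_lit 383539) (nat_lit 0) .nil) .nil)))) (.nd (nat_lit 9) 
(.lf (nat_lit 583090) (.g (nat_lit 1849) (.e (nat_lit 360192) (nat_lit 0) (.e (nat_lit 3302) (nat_lit 202) (.e (nat_lit 573491) (nat_lit 15) (.e (nat_lit 81946) (nat_lit 20) (.e (nat_lit 1841) (nat_lit 123) .nil))))) (.g (nat_lit 0) (.e (nat_lit 382956) (nat_lit 0) .nil) .nil))) 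
(.lf (nat_lit 583602) (.g (nat_lit 2226) (.e (nat_lit 360467) (nat_lit 3) (.e (nat_lit 516138) (nat_lit 7) (.e (nat_lit 409649) (nat_lit 18) (.e (nat_lit 303119) (nat_lit 3) .nil)))) (.g (nat_lit 0) (.e (nat_lit 384234) (nat_lit 0) .nil) .nil)))))) (.nd (nat_lit 7) (.nd (nat_lit 8) (.nd (nat_lit 9) 
(.lf (nat_lit 582770) (.g (nat_lit 2258) (.e (nat_lit 344132) (nat_lit 26) (.e (nat_lit 557105) (nat_lit 14) (.e (nat_lit 180252) (nat_lit 10) (.e (nat_lit 573475) (nat_lit 12) (.e (nat_lit 57508) (nat_lit 39) (.e (nat_lit 655104) (nat_lit 0) (.e (nat_lit 2679) (nat_lit 168) (.e (nat_lit 204864) (nat_lit 27) .nil)))))))) (.g (nat_lit 1) (.e (nat_lit 381810) (nat_lit 0) .nil) .nil))) 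
(.lf (nat_lit 583282) (.g (nat_lit 1711) (.e (nat_lit 352296) (nat_lit 20) (.e (nat_lit 2391) (nat_lit 156) (.e (nat_lit 819204) (nat_lit 0) (.e (nat_lit 3015) (nat_lit 187) (.e (nat_lit 458496) (nat_lit 3) (.e (nat_lit 524032) (nat_lit 28) .nil)))))) (.g (nat_lit 1) (.e (nat_lit 383447) (nat_lit 0) .nil) .nil)))) (.nd (nat_lit 9) 
(.lf (nat_lit 583026) (.g (nat_lit 1218) (.e (nat_lit 352265) (nat_lit 0) (.e (nat_lit 3632) (nat_lit 227) (.e (nat_lit 778323) (nat_lit 5) (.e (nat_lit 73779) (nat_lit 32) .nil)))) (.g (nat_lit 0) (.e (nat_lit 382758) (nat_lit 0) .nil) .nil))) 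
(.lf (nat_lit 583538) (.g (nat_lit 941) (.e (nat_lit 360466) (nat_lit 3) (.e (nat_lit 516120) (nat_lit 1) (.e (nat_lit 164168) (nat_lit 152) .nil))) (.g (nat_lit 0) (.e (nat_lit 384144) (nat_lit 0) .nil) .nil))))) (.nd (nat_lit 8) (.nd (nat_lit 9) 
(.lf (nat_lit 582898) (.g (nat_lit 2105) (.e (nat_lit 344160) (nat_lit 37) (.e (nat_lit 647200) (nat_lit 12) (.e (nat_lit 57477) (nat_lit 28) (.e (nat_lit 557085) (nat_lit 11) (.e (nat_lit 24657) (nat_lit 13) (.e (nat_lit 401152) (nat_lit 10) .nil)))))) (.g (nat_lit 1) (.e (nat_lit 382235) (nat_lit 0) .nil) .nil))) 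
(.lf (nat_lit 583410) (.g (nat_lit 1035) (.e (nat_lit 352313) (nat_lit 23) (.e (nat_lit 98350) (nat_lit 24) (.e (nat_lit 409612) (nat_lit 10) .nil))) (.g (nat_lit 0) (.e (nat_lit 383703) (nat_lit 0) .nil) .nil)))) (.nd (nat_lit 9) 
(.lf (nat_lit 583154) (.g (nat_lit 1433) (.e (nat_lit 360192) (nat_lit 5) (.e (nat_lit 221207) (nat_lit 21) (.e (nat_lit 164325) (nat_lit 230) (.e (nat_lit 163934) (nat_lit 17) (.e (nat_lit 474880) (nat_lit 13) .nil))))) (.g (nat_lit 0) (.e (nat_lit 383144) (nat_lit 0) .nil) .nil))) 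
(.lf (nat_lit 583666) (.g (nat_lit 687) (.e (nat_lit 360477) (nat_lit 11) (.e (nat_lit 581636) (nat_lit 0) (.e (nat_lit 2998) (nat_lit 186) (.e (nat_lit 442391) (nat_lit 19) (.e (nat_lit 409344) (nat_lit 30) .nil))))) (.g (nat_lit 1) (.e (nat_lit 384385) (nat_lit 0) .nil) .nil))))))))) (.nd (nat_lit 4) (.nd (nat_lit 5) (.nd (nat_lit 6) (.nd (nat_lit 7) (.nd (nat_lit 8) (.nd (nat_lit 9) 
(.lf (nat_lit 582666) (.g (nat_lit 1980) (.e (nat_lit 344131) (nat_lit 26) (.e (nat_lit 557091) (nat_lit 12) (.e (nat_lit 164020) (nat_lit 45) (.e (nat_lit 696344) (nat_lit 8) .nil)))) (.g (nat_lit 0) (.e (nat_lit 381618) (nat_lit 0) .nil) .nil))) 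
(.lf (nat_lit 583178) (.g (nat_lit 1524) (.e (nat_lit 352277) (nat_lit 11) (.e (nat_lit 426098) (nat_lit 1) (.e (nat_lit 164179) (nat_lit 154) (.e (nat_lit 57408) (nat_lit 12) (.e (nat_lit 336326) (nat_lit 18) .nil))))) (.g (nat_lit 0) (.e (nat_lit 383216) (nat_lit 0) .nil) .nil)))) (.nd (nat_lit 9) 
(.lf (nat_lit 582922) (.g (nat_lit 3253) (.e (nat_lit 344161) (nat_lit 37) (.e (nat_lit 647201) (nat_lit 12) (.e (nat_lit 57574) (nat_lit 55) (.e (nat_lit 778466) (nat_lit 11) (.e (nat_lit 24617) (nat_lit 7) (.e (nat_lit 319533) (nat_lit 16) (.e (nat_lit 286754) (nat_lit 10) .nil))))))) (.g (nat_lit 1) (.e (nat_lit 382279) (nat_lit 0) .nil) .nil))) 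
(.lf (nat_lit 583434) (.g (nat_lit 2192) (.e (nat_lit 352315) (nat_lit 23) (.e (nat_lit 98312) (nat_lit 9) (.e (nat_lit 335986) (nat_lit 1) (.e (nat_lit 57926) (nat_lit 282) (.e (nat_lit 163905) (nat_lit 12) (.e (nat_lit 426542) (nat_lit 29) .nil)))))) (.g (nat_lit 1) (.e (nat_lit 383745) (nat_lit 0) .nil) .nil))))) (.nd (nat_lit 8) (.nd (nat_lit 9) 
(.lf (nat_lit 582794) (.g (nat_lit 5411) (.e (nat_lit 344133) (nat_lit 26) (.e (nat_lit 557091) (nat_lit 12) (.e (nat_lit 163843) (nat_lit 0) (.e (nat_lit 6421) (nat_lit 341) (.e (nat_lit 163900) (nat_lit 12) (.e (nat_lit 426125) (nat_lit 2) (.e (nat_lit 196666) (nat_lit 13) (.e (nat_lit 65617) (nat_lit 10) .nil)))))))) (.g (nat_lit 1) (.e (nat_lit 381868) (nat_lit 0) .nil) .nil))) 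
(.lf (nat_lit 583306) (.g (nat_lit 1855) (.e (nat_lit 352297) (nat_lit 20) (.e (nat_lit 2391) (nat_lit 156) (.e (nat_lit 819204) (nat_lit 0) (.e (nat_lit 3015) (nat_lit 187) (.e (nat_lit 458496) (nat_lit 3) (.e (nat_lit 524032) (nat_lit 28) .nil)))))) (.g (nat_lit 1) (.e (nat_lit 383477) (nat_lit 0) .nil) .nil)))) (.nd (nat_lit 9) 
(.lf (nat_lit 583050) (.g (nat_lit 1947) (.e (nat_lit 352267) (nat_lit 0) (.e (nat_lit 3253) (nat_lit 197) (.e (nat_lit 532501) (nat_lit 1) (.e (nat_lit 57851) (nat_lit 252) (.e (nat_lit 57446) (nat_lit 19) (.e (nat_lit 401152) (nat_lit 11) .nil)))))) (.g (nat_lit 1) (.e (nat_lit 382817) (nat_lit 0) .nil) .nil))) 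
(.lf (nat_lit 583562) (.g (nat_lit 4213) (.e (nat_lit 360466) (nat_lit 3) (.e (nat_lit 516142) (nat_lit 8) (.e (nat_lit 417828) (nat_lit 18) (.e (nat_lit 303119) (nat_lit 3) (.e (nat_lit 204869) (nat_lit 29) .nil))))) (.g (nat_lit 1) (.e (nat_lit 384179) (nat_lit 0) .nil) .nil)))))) (.nd (nat_lit 7) (.nd (nat_lit 8) (.nd (nat_lit 9) 
(.lf (nat_lit 582730) (.g (nat_lit 4649) (.e (nat_lit 344132) (nat_lit 26) (.e (nat_lit 557094) (nat_lit 12) (.e (nat_lit 164022) (nat_lit 46) (.e (nat_lit 704629) (nat_lit 9) (.e (nat_lit 375) (nat_lit 32) (.e (nat_lit 426140) (nat_lit 3) (.e (nat_lit 204855) (nat_lit 26) (.e (nat_lit 336176) (nat_lit 10) .nil)))))))) (.g (nat_lit 1) (.e (nat_lit 381767) (nat_lit 0) .nil) .nil))) 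
(.lf (nat_lit 583242) (.g (nat_lit 1429) (.e (nat_lit 352290) (nat_lit 20) (.e (nat_lit 2391) (nat_lit 156) (.e (nat_lit 819204) (nat_lit 0) (.e (nat_lit 3027) (nat_lit 187) (.e (nat_lit 458496) (nat_lit 3) (.e (nat_lit 524032) (nat_lit 28) .nil)))))) (.g (nat_lit 1) (.e (nat_lit 383386) (nat_lit 0) .nil) .nil)))) (.nd (nat_lit 9) 
(.lf (nat_lit 582986) (.g (nat_lit 2001) (.e (nat_lit 352261) (nat_lit 0) (.e (nat_lit 3302) (nat_lit 202) (.e (nat_lit 573491) (nat_lit 15) (.e (nat_lit 81946) (nat_lit 20) (.e (nat_lit 1842) (nat_lit 123) .nil))))) (.g (nat_lit 0) (.e (nat_lit 382603) (nat_lit 0) .nil) .nil))) 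
(.lf (nat_lit 583498) (.g (nat_lit 988) (.e (nat_lit 360453) (nat_lit 0) (.e (nat_lit 5907) (nat_lit 320) (.e (nat_lit 1221) (nat_lit 90) (.e (nat_lit 89856) (nat_lit 0) .nil)))) (.g (nat_lit 0) (.e (nat_lit 383942) (nat_lit 0) .nil) .nil))))) (.nd (nat_lit 8) (.nd (nat_lit 9) 
(.lf (nat_lit 582858) (.g (nat_lit 1299) (.e (nat_lit 344157) (nat_lit 36) (.e (nat_lit 638999) (nat_lit 8) (.e (nat_lit 172080) (nat_lit 7) (.e (nat_lit 409639) (nat_lit 15) (.e (nat_lit 278567) (nat_lit 16) (.e (nat_lit 286756) (nat_lit 10) .nil)))))) (.g (nat_lit 1) (.e (nat_lit 382131) (nat_lit 0) .nil) .nil))) 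
(.lf (nat_lit 583370) (.g (nat_lit 1788) (.e (nat_lit 352307) (nat_lit 21) (.e (nat_lit 57854) (nat_lit 252) (.e (nat_lit 57389) (nat_lit 5) (.e (nat_lit 114697) (nat_lit 11) (.e (nat_lit 426197) (nat_lit 9) .nil))))) (.g (nat_lit 0) (.e (nat_lit 383591) (nat_lit 0) .nil) .nil)))) (.nd (nat_lit 9) 
(.lf (nat_lit 583114) (.g (nat_lit 410) (.e (nat_lit 360192) (nat_lit 3) (.e (nat_lit 204838) (nat_lit 20) (.e (nat_lit 122624) (nat_lit 11) .nil))) (.g (nat_lit 0) (.e (nat_lit 383074) (nat_lit 0) .nil) .nil))) 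
(.lf (nat_lit 583626) (.g (nat_lit 3093) (.e (nat_lit 360467) (nat_lit 3) (.e (nat_lit 516139) (nat_lit 7) (.e (nat_lit 409649) (nat_lit 18) (.e (nat_lit 303118) (nat_lit 3) (.e (nat_lit 212736) (nat_lit 29) .nil))))) (.g (nat_lit 1) (.e (nat_lit 384264) (nat_lit 0) .nil) .nil))))))) (.nd (nat_lit 6) (.nd (nat_lit 7) (.nd (nat_lit 8) (.nd (nat_lit 9) 
(.lf (nat_lit 582698) (.g (nat_lit 4150) (.e (nat_lit 344132) (nat_lit 26) (.e (nat_lit 557072) (nat_lit 9) (.e (nat_lit 3098) (nat_lit 192) (.e (nat_lit 491571) (nat_lit 13) (.e (nat_lit 393251) (nat_lit 18) (.e (nat_lit 164183) (nat_lit 154) (.e (nat_lit 57420) (nat_lit 13) .nil))))))) (.g (nat_lit 1) (.e (nat_lit 381651) (nat_lit 0) .nil) .nil))) 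
(.lf (nat_lit 583210) (.g (nat_lit 3247) (.e (nat_lit 352280) (nat_lit 20) (.e (nat_lit 1848) (nat_lit 124) (.e (nat_lit 557087) (nat_lit 11) (.e (nat_lit 24617) (nat_lit 7) (.e (nat_lit 319505) (nat_lit 10) (.e (nat_lit 7936) (nat_lit 45) (.e (nat_lit 532547) (nat_lit 11) .nil))))))) (.g (nat_lit 1) (.e (nat_lit 383311) (nat_lit 0) .nil) .nil)))) (.nd (nat_lit 9) 
(.lf (nat_lit 582954) (.g (nat_lit 1704) (.e (nat_lit 344179) (nat_lit 44) (.e (nat_lit 778466) (nat_lit 11) (.e (nat_lit 24628) (nat_lit 9) (.e (nat_lit 336383) (nat_lit 27) .nil)))) (.g (nat_lit 0) (.e (nat_lit 382382) (nat_lit 0) .nil) .nil))) 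
(.lf (nat_lit 583466) (.g (nat_lit 2162) (.e (nat_lit 352316) (nat_lit 24) (.e (nat_lit 123195) (nat_lit 266) (.e (nat_lit 57400) (nat_lit 10) (.e (nat_lit 319490) (nat_lit 0) (.e (nat_lit 5664) (nat_lit 312) (.e (nat_lit 2852) (nat_lit 184) (.e (nat_lit 426538) (nat_lit 29) .nil))))))) (.g (nat_lit 1) (.e (nat_lit 383820) (nat_lit 0) .nil) .nil))))) (.nd (nat_lit 8) (.nd (nat_lit 9) 
(.lf (nat_lit 582826) (.g (nat_lit 2884) (.e (nat_lit 344133) (nat_lit 26) (.e (nat_lit 557103) (nat_lit 14) (.e (nat_lit 180250) (nat_lit 10) (.e (nat_lit 573475) (nat_lit 12) (.e (nat_lit 57507) (nat_lit 39) (.e (nat_lit 655104) (nat_lit 0) (.e (nat_lit 2685) (nat_lit 168) (.e (nat_lit 204862) (nat_lit 27) .nil)))))))) (.g (nat_lit 1) (.e (nat_lit 381921) (nat_lit 0) .nil) .nil))) 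
(.lf (nat_lit 583338) (.g (nat_lit 770) (.e (nat_lit 352303) (nat_lit 20) (.e (nat_lit 2390) (nat_lit 156) (.e (nat_lit 819203) (nat_lit 0) (.e (nat_lit 3027) (nat_lit 187) (.e (nat_lit 458496) (nat_lit 3) (.e (nat_lit 524032) (nat_lit 28) .nil)))))) (.g (nat_lit 1) (.e (nat_lit 383528) (nat_lit 0) .nil) .nil)))) (.nd (nat_lit 9) 
(.lf (nat_lit 583082) (.g (nat_lit 1571) (.e (nat_lit 360192) (nat_lit 0) (.e (nat_lit 3234) (nat_lit 197) (.e (nat_lit 532501) (nat_lit 1) (.e (nat_lit 57851) (nat_lit 252) (.e (nat_lit 57406) (nat_lit 12) .nil))))) (.g (nat_lit 0) (.e (nat_lit 382897) (nat_lit 0) .nil) .nil))) 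
(.lf (nat_lit 583594) (.g (nat_lit 3520) (.e (nat_lit 360467) (nat_lit 3) (.e (nat_lit 516138) (nat_lit 7) (.e (nat_lit 409645) (nat_lit 18) (.e (nat_lit 303112) (nat_lit 0) (.e (nat_lit 3252) (nat_lit 197) (.e (nat_lit 532551) (nat_lit 12) .nil)))))) (.g (nat_lit 1) (.e (nat_lit 384225) (nat_lit 0) .nil) .nil)))))) (.nd (nat_lit 7) (.nd (nat_lit 8) (.nd (nat_lit 9) 
(.lf (nat_lit 582762) (.g (nat_lit 2403) (.e (nat_lit 344132) (nat_lit 26) (.e (nat_lit 557105) (nat_lit 14) (.e (nat_lit 180252) (nat_lit 10) (.e (nat_lit 573475) (nat_lit 12) (.e (nat_lit 57506) (nat_lit 39) (.e (nat_lit 647170) (nat_lit 0) (.e (nat_lit 2685) (nat_lit 168) (.e (nat_lit 204862) (nat_lit 27) .nil)))))))) (.g (nat_lit 1) (.e (nat_lit 381802) (nat_lit 0) .nil) .nil))) 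
(.lf (nat_lit 583274) (.g (nat_lit 1368) (.e (nat_lit 352296) (nat_lit 20) (.e (nat_lit 2390) (nat_lit 156) (.e (nat_lit 819204) (nat_lit 0) (.e (nat_lit 3015) (nat_lit 187) (.e (nat_lit 458496) (nat_lit 3) (.e (nat_lit 524032) (nat_lit 28) .nil)))))) (.g (nat_lit 1) (.e (nat_lit 383436) (nat_lit 0) .nil) .nil)))) (.nd (nat_lit 9) 
(.lf (nat_lit 583018) (.g (nat_lit 1649) (.e (nat_lit 352265) (nat_lit 0) (.e (nat_lit 3251) (nat_lit 197) (.e (nat_lit 532501) (nat_lit 1) (.e (nat_lit 57851) (nat_lit 252) (.e (nat_lit 57446) (nat_lit 19) (.e (nat_lit 401152) (nat_lit 11) .nil)))))) (.g (nat_lit 1) (.e (nat_lit 382735) (nat_lit 0) .nil) .nil))) 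
(.lf (nat_lit 583530) (.g (nat_lit 2817) (.e (nat_lit 360465) (nat_lit 3) (.e (nat_lit 516139) (nat_lit 7) (.e (nat_lit 409648) (nat_lit 18) (.e (nat_lit 303112) (nat_lit 0) (.e (nat_lit 3252) (nat_lit 197) .nil))))) (.g (nat_lit 0) (.e (nat_lit 384115) (nat_lit 0) .nil) .nil))))) (.nd (nat_lit 8) (.nd (nat_lit 9) 
(.lf (nat_lit 582890) (.g (nat_lit 2483) (.e (nat_lit 344169) (nat_lit 40) (.e (nat_lit 671764) (nat_lit 6) (.e (nat_lit 81935) (nat_lit 20) (.e (nat_lit 1999) (nat_lit 137) (.e (nat_lit 663567) (nat_lit 4) (.e (nat_lit 65610) (nat_lit 10) .nil)))))) (.g (nat_lit 1) (.e (nat_lit 382206) (nat_lit 0) .nil) .nil))) 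
(.lf (nat_lit 583402) (.g (nat_lit 1047) (.e (nat_lit 352313) (nat_lit 23) (.e (nat_lit 98349) (nat_lit 24) (.e (nat_lit 409644) (nat_lit 18) (.e (nat_lit 303112) (nat_lit 0) .nil)))) (.g (nat_lit 0) (.e (nat_lit 383694) (nat_lit 0) .nil) .nil)))) (.nd (nat_lit 9) 
(.lf (nat_lit 583146) (.g (nat_lit 1427) (.e (nat_lit 360192) (nat_lit 5) (.e (nat_lit 221207) (nat_lit 21) (.e (nat_lit 164325) (nat_lit 230) (.e (nat_lit 163898) (nat_lit 11) .nil)))) (.g (nat_lit 0) (.e (nat_lit 383134) (nat_lit 0) .nil) .nil))) 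
(.lf (nat_lit 583658) (.g (nat_lit 3385) (.e (nat_lit 360471) (nat_lit 7) (.e (nat_lit 548889) (nat_lit 9) (.e (nat_lit 65630) (nat_lit 14) (.e (nat_lit 401412) (nat_lit 0) (.e (nat_lit 3262) (nat_lit 198) (.e (nat_lit 540705) (nat_lit 12) .nil)))))) (.g (nat_lit 1) (.e (nat_lit 384369) (nat_lit 0) .nil) .nil)))))))) 
(.nd (nat_lit 5) (.nd (nat_lit 6) (.nd (nat_lit 7) (.nd (nat_lit 8) (.nd (nat_lit 9) 
(.lf (nat_lit 582682) (.g (nat_lit 2463) (.e (nat_lit 344131) (nat_lit 26) (.e (nat_lit 557103) (nat_lit 14) (.e (nat_lit 180250) (nat_lit 10) (.e (nat_lit 573474) (nat_lit 12) (.e (nat_lit 57508) (nat_lit 39) (.e (nat_lit 647175) (nat_lit 0) (.e (nat_lit 2684) (nat_lit 168) (.e (nat_lit 204863) (nat_lit 27) .nil)))))))) (.g (nat_lit 1) (.e (nat_lit 381634) (nat_lit 0) .nil) .nil))) 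
(.lf (nat_lit 583194) (.g (nat_lit 2895) (.e (nat_lit 352277) (nat_lit 11) (.e (nat_lit 426500) (nat_lit 27) (.e (nat_lit 335986) (nat_lit 1) (.e (nat_lit 57931) (nat_lit 282) (.e (nat_lit 163874) (nat_lit 3) (.e (nat_lit 204866) (nat_lit 28) .nil)))))) (.g (nat_lit 1) (.e (nat_lit 383241) (nat_lit 0) .nil) .nil)))) (.nd (nat_lit 9) 
(.lf (nat_lit 582938) (.g (nat_lit 3688) (.e (nat_lit 344178) (nat_lit 44) (.e (nat_lit 778240) (nat_lit 0) (.e (nat_lit 503) (nat_lit 40) (.e (nat_lit 491568) (nat_lit 13) (.e (nat_lit 393301) (nat_lit 27) (.e (nat_lit 491560) (nat_lit 10) .nil)))))) (.g (nat_lit 1) (.e (nat_lit 382362) (nat_lit 0) .nil) .nil))) 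
(.lf (nat_lit 583450) (.g (nat_lit 2080) (.e (nat_lit 352315) (nat_lit 23) (.e (nat_lit 98349) (nat_lit 24) (.e (nat_lit 409648) (nat_lit 18) (.e (nat_lit 303118) (nat_lit 3) (.e (nat_lit 204865) (nat_lit 28) .nil))))) (.g (nat_lit 0) (.e (nat_lit 383776) (nat_lit 0) .nil) .nil))))) (.nd (nat_lit 8) (.nd (nat_lit 9) 
(.lf (nat_lit 582810) (.g (nat_lit 2819) (.e (nat_lit 344133) (nat_lit 26) (.e (nat_lit 557103) (nat_lit 14) (.e (nat_lit 180250) (nat_lit 10) (.e (nat_lit 573474) (nat_lit 12) (.e (nat_lit 57506) (nat_lit 39) (.e (nat_lit 647175) (nat_lit 0) (.e (nat_lit 2684) (nat_lit 168) (.e (nat_lit 204862) (nat_lit 27) .nil)))))))) (.g (nat_lit 1) (.e (nat_lit 381905) (nat_lit 0) .nil) .nil))) 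
(.lf (nat_lit 583322) (.g (nat_lit 1060) (.e (nat_lit 352302) (nat_lit 20) (.e (nat_lit 2390) (nat_lit 156) (.e (nat_lit 819204) (nat_lit 0) (.e (nat_lit 3027) (nat_lit 187) (.e (nat_lit 458496) (nat_lit 3) .nil))))) (.g (nat_lit 0) (.e (nat_lit 383503) (nat_lit 0) .nil) .nil)))) (.nd (nat_lit 9) 
(.lf (nat_lit 583066) (.g (nat_lit 2568) (.e (nat_lit 352267) (nat_lit 0) (.e (nat_lit 3253) (nat_lit 197) (.e (nat_lit 532504) (nat_lit 1) (.e (nat_lit 57854) (nat_lit 252) (.e (nat_lit 57447) (nat_lit 19) (.e (nat_lit 401152) (nat_lit 11) .nil)))))) (.g (nat_lit 1) (.e (nat_lit 382833) (nat_lit 0) .nil) .nil))) 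
(.lf (nat_lit 583578) (.g (nat_lit 2651) (.e (nat_lit 360466) (nat_lit 3) (.e (nat_lit 516194) (nat_lit 26) (.e (nat_lit 335996) (nat_lit 1) (.e (nat_lit 57931) (nat_lit 282) (.e (nat_lit 163902) (nat_lit 12) (.e (nat_lit 426546) (nat_lit 30) .nil)))))) (.g (nat_lit 1) (.e (nat_lit 384205) (nat_lit 0) .nil) .nil)))))) (.nd (nat_lit 7) (.nd (nat_lit 8) (.nd (nat_lit 9) 
(.lf (nat_lit 582746) (.g (nat_lit 2616) (.e (nat_lit 344132) (nat_lit 26) (.e (nat_lit 557105) (nat_lit 14) (.e (nat_lit 180252) (nat_lit 10) (.e (nat_lit 573473) (nat_lit 12) (.e (nat_lit 57507) (nat_lit 39) (.e (nat_lit 647170) (nat_lit 0) (.e (nat_lit 2680) (nat_lit 168) (.e (nat_lit 204864) (nat_lit 27) .nil)))))))) (.g (nat_lit 1) (.e (nat_lit 381786) (nat_lit 0) .nil) .nil))) 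
(.lf (nat_lit 583258) (.g (nat_lit 1524) (.e (nat_lit 352291) (nat_lit 20) (.e (nat_lit 2391) (nat_lit 156) (.e (nat_lit 819204) (nat_lit 0) (.e (nat_lit 3022) (nat_lit 187) (.e (nat_lit 458496) (nat_lit 3) (.e (nat_lit 524032) (nat_lit 28) .nil)))))) (.g (nat_lit 1) (.e (nat_lit 383408) (nat_lit 0) .nil) .nil)))) (.nd (nat_lit 9) 
(.lf (nat_lit 583002) (.g (nat_lit 2969) (.e (nat_lit 352262) (nat_lit 0) (.e (nat_lit 3632) (nat_lit 227) (.e (nat_lit 778323) (nat_lit 5) (.e (nat_lit 73781) (nat_lit 32) (.e (nat_lit 2857) (nat_lit 184) (.e (nat_lit 426538) (nat_lit 29) .nil)))))) (.g (nat_lit 1) (.e (nat_lit 382698) (nat_lit 0) .nil) .nil))) 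
(.lf (nat_lit 583514) (.g (nat_lit 690) (.e (nat_lit 368384) (nat_lit 0) (.e (nat_lit 4269) (nat_lit 251) (.e (nat_lit 2650) (nat_lit 166) (.e (nat_lit 196352) (nat_lit 19) .nil)))) (.g (nat_lit 0) (.e (nat_lit 384035) (nat_lit 0) .nil) .nil))))) (.nd (nat_lit 8) (.nd (nat_lit 9) 
(.lf (nat_lit 582874) (.g (nat_lit 2773) (.e (nat_lit 344168) (nat_lit 40) (.e (nat_lit 671762) (nat_lit 4) (.e (nat_lit 65630) (nat_lit 14) (.e (nat_lit 401437) (nat_lit 9) (.e (nat_lit 426509) (nat_lit 27) .nil))))) (.g (nat_lit 0) (.e (nat_lit 382176) (nat_lit 0) .nil) .nil))) 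
(.lf (nat_lit 583386) (.g (nat_lit 322) (.e (nat_lit 352309) (nat_lit 21) (.e (nat_lit 57848) (nat_lit 252) (.e (nat_lit 57390) (nat_lit 5) .nil))) (.g (nat_lit 0) (.e (nat_lit 383645) (nat_lit 0) .nil) .nil)))) (.nd (nat_lit 9) 
(.lf (nat_lit 583130) (.g (nat_lit 1679) (.e (nat_lit 360192) (nat_lit 5) (.e (nat_lit 221206) (nat_lit 21) (.e (nat_lit 164329) (nat_lit 230) (.e (nat_lit 163908) (nat_lit 12) (.e (nat_lit 426195) (nat_lit 9) .nil))))) (.g (nat_lit 0) (.e (nat_lit 383112) (nat_lit 0) .nil) .nil))) 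
(.lf (nat_lit 583642) (.g (nat_lit 1972) (.e (nat_lit 360468) (nat_lit 3) (.e (nat_lit 516139) (nat_lit 7) (.e (nat_lit 409618) (nat_lit 10) (.e (nat_lit 5756) (nat_lit 315) .nil)))) (.g (nat_lit 0) (.e (nat_lit 384325) (nat_lit 0) .nil) .nil))))))) (.nd (nat_lit 6) (.nd (nat_lit 7) (.nd (nat_lit 8) (.nd (nat_lit 9) 
(.lf (nat_lit 582714) (.g (nat_lit 4406) (.e (nat_lit 344132) (nat_lit 26) (.e (nat_lit 557094) (nat_lit 12) (.e (nat_lit 163847) (nat_lit 0) (.e (nat_lit 6255) (nat_lit 337) (.e (nat_lit 2630) (nat_lit 164) (.e (nat_lit 172064) (nat_lit 2) (.e (nat_lit 196666) (nat_lit 13) (.e (nat_lit 65617) (nat_lit 10) .nil)))))))) (.g (nat_lit 1) (.e (nat_lit 381716) (nat_lit 0) .nil) .nil))) 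
(.lf (nat_lit 583226) (.g (nat_lit 1910) (.e (nat_lit 352290) (nat_lit 20) (.e (nat_lit 2006) (nat_lit 138) (.e (nat_lit 671763) (nat_lit 5) (.e (nat_lit 73782) (nat_lit 32) (.e (nat_lit 2855) (nat_lit 184) (.e (nat_lit 426542) (nat_lit 29) .nil)))))) (.g (nat_lit 1) (.e (nat_lit 383367) (nat_lit 0) .nil) .nil)))) (.nd (nat_lit 9) 
(.lf (nat_lit 582970) (.g (nat_lit 1413) (.e (nat_lit 344183) (nat_lit 49) (.e (nat_lit 819221) (nat_lit 6) (.e (nat_lit 188435) (nat_lit 20) (.e (nat_lit 3289) (nat_lit 201) (.e (nat_lit 565267) (nat_lit 4) (.e (nat_lit 65610) (nat_lit 10) .nil)))))) (.g (nat_lit 1) (.e (nat_lit 382498) (nat_lit 0) .nil) .nil))) 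
(.lf (nat_lit 583482) (.g (nat_lit 1490) (.e (nat_lit 360449) (nat_lit 0) (.e (nat_lit 7710) (nat_lit 414) (.e (nat_lit 163922) (nat_lit 15) (.e (nat_lit 450577) (nat_lit 4) (.e (nat_lit 532224) (nat_lit 29) .nil))))) (.g (nat_lit 1) (.e (nat_lit 383874) (nat_lit 0) .nil) .nil))))) (.nd (nat_lit 8) (.nd (nat_lit 9) 
(.lf (nat_lit 582842) (.g (nat_lit 3887) (.e (nat_lit 344133) (nat_lit 26) (.e (nat_lit 557105) (nat_lit 14) (.e (nat_lit 180252) (nat_lit 10) (.e (nat_lit 573475) (nat_lit 12) (.e (nat_lit 57508) (nat_lit 39) (.e (nat_lit 647170) (nat_lit 0) (.e (nat_lit 2685) (nat_lit 168) (.e (nat_lit 204862) (nat_lit 27) .nil)))))))) (.g (nat_lit 1) (.e (nat_lit 381937) (nat_lit 0) .nil) .nil))) 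
(.lf (nat_lit 583354) (.g (nat_lit 2059) (.e (nat_lit 352307) (nat_lit 21) (.e (nat_lit 57846) (nat_lit 252) (.e (nat_lit 57388) (nat_lit 5) (.e (nat_lit 114698) (nat_lit 11) (.e (nat_lit 426197) (nat_lit 9) .nil))))) (.g (nat_lit 0) (.e (nat_lit 383575) (nat_lit 0) .nil) .nil)))) (.nd (nat_lit 9) 
(.lf (nat_lit 583098) (.g (nat_lit 963) (.e (nat_lit 360192) (nat_lit 0) (.e (nat_lit 3604) (nat_lit 225) (.e (nat_lit 761905) (nat_lit 16) (.e (nat_lit 172113) (nat_lit 10) .nil)))) (.g (nat_lit 0) (.e (nat_lit 383033) (nat_lit 0) .nil) .nil))) 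
(.lf (nat_lit 583610) (.g (nat_lit 2659) (.e (nat_lit 360467) (nat_lit 3) (.e (nat_lit 516139) (nat_lit 7) (.e (nat_lit 409645) (nat_lit 18) (.e (nat_lit 303119) (nat_lit 3) (.e (nat_lit 204868) (nat_lit 29) .nil))))) (.g (nat_lit 0) (.e (nat_lit 384247) (nat_lit 0) .nil) .nil)))))) (.nd (nat_lit 7) (.nd (nat_lit 8) (.nd (nat_lit 9) 
(.lf (nat_lit 582778) (.g (nat_lit 1741) (.e (nat_lit 344133) (nat_lit 26) (.e (nat_lit 557087) (nat_lit 11) (.e (nat_lit 24578) (nat_lit 0) (.e (nat_lit 7936) (nat_lit 360) .nil)))) (.g (nat_lit 0) (.e (nat_lit 381823) (nat_lit 0) .nil) .nil))) 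
(.lf (nat_lit 583290) (.g (nat_lit 1695) (.e (nat_lit 352297) (nat_lit 20) (.e (nat_lit 2006) (nat_lit 138) (.e (nat_lit 671763) (nat_lit 5) (.e (nat_lit 73781) (nat_lit 32) (.e (nat_lit 2854) (nat_lit 184) (.e (nat_lit 426542) (nat_lit 29) .nil)))))) (.g (nat_lit 1) (.e (nat_lit 383457) (nat_lit 0) .nil) .nil)))) (.nd (nat_lit 9) 
(.lf (nat_lit 583034) (.g (nat_lit 2325) (.e (nat_lit 352266) (nat_lit 0) (.e (nat_lit 3253) (nat_lit 197) (.e (nat_lit 532501) (nat_lit 1) (.e (nat_lit 57854) (nat_lit 252) (.e (nat_lit 57447) (nat_lit 19) (.e (nat_lit 401152) (nat_lit 11) .nil)))))) (.g (nat_lit 1) (.e (nat_lit 382771) (nat_lit 0) .nil) .nil))) 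
(.lf (nat_lit 583546) (.g (nat_lit 4068) (.e (nat_lit 360466) (nat_lit 3) (.e (nat_lit 516139) (nat_lit 7) (.e (nat_lit 409644) (nat_lit 18) (.e (nat_lit 303119) (nat_lit 3) (.e (nat_lit 204868) (nat_lit 29) .nil))))) (.g (nat_lit 1) (.e (nat_lit 384159) (nat_lit 0) .nil) .nil))))) (.nd (nat_lit 8) (.nd (nat_lit 9) 
(.lf (nat_lit 582906) (.g (nat_lit 3206) (.e (nat_lit 344160) (nat_lit 37) (.e (nat_lit 647201) (nat_lit 12) (.e (nat_lit 57574) (nat_lit 55) (.e (nat_lit 778466) (nat_lit 11) (.e (nat_lit 24616) (nat_lit 7) (.e (nat_lit 319533) (nat_lit 16) (.e (nat_lit 286753) (nat_lit 10) .nil))))))) (.g (nat_lit 1) (.e (nat_lit 382247) (nat_lit 0) .nil) .nil))) 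
(.lf (nat_lit 583418) (.g (nat_lit 3389) (.e (nat_lit 352313) (nat_lit 23) (.e (nat_lit 98350) (nat_lit 24) (.e (nat_lit 409649) (nat_lit 18) (.e (nat_lit 303111) (nat_lit 0) (.e (nat_lit 3238) (nat_lit 197) (.e (nat_lit 532546) (nat_lit 11) .nil)))))) (.g (nat_lit 1) (.e (nat_lit 383716) (nat_lit 0) .nil) .nil)))) (.nd (nat_lit 9) 
(.lf (nat_lit 583162) (.g (nat_lit 2797) (.e (nat_lit 352269) (nat_lit 7) (.e (nat_lit 245776) (nat_lit 4) (.e (nat_lit 172079) (nat_lit 7) (.e (nat_lit 409611) (nat_lit 10) (.e (nat_lit 932) (nat_lit 76) (.e (nat_lit 786480) (nat_lit 29) .nil)))))) (.g (nat_lit 1) (.e (nat_lit 383174) (nat_lit 0) .nil) .nil))) 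
(.lf (nat_lit 583674) (.g (nat_lit 1828) (.e (nat_lit 360472) (nat_lit 8) (.e (nat_lit 557090) (nat_lit 12) (.e (nat_lit 163850) (nat_lit 0) (.e (nat_lit 6428) (nat_lit 342) .nil)))) (.g (nat_lit 0) (.e (nat_lit 384395) (nat_lit 0) .nil) .nil)))))))))) (.nd (nat_lit 3) (.nd (nat_lit 4) (.nd (nat_lit 5) (.nd (nat_lit 6) (.nd (nat_lit 7) (.nd (nat_lit 8) (.nd (nat_lit 9) 
(.lf (nat_lit 582662) (.g (nat_lit 556) (.e (nat_lit 344131) (nat_lit 26) (.e (nat_lit 557090) (nat_lit 12) (.e (nat_lit 164020) (nat_lit 45) .nil))) (.g (nat_lit 0) (.e (nat_lit 381613) (nat_lit 0) .nil) .nil))) 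
(.lf (nat_lit 583174) (.g (nat_lit 984) (.e (nat_lit 352278) (nat_lit 11) (.e (nat_lit 426108) (nat_lit 1) (.e (nat_lit 164183) (nat_lit 154) .nil))) (.g (nat_lit 0) (.e (nat_lit 383201) (nat_lit 0) .nil) .nil)))) (.nd (nat_lit 9) 
(.lf (nat_lit 582918) (.g (nat_lit 479) (.e (nat_lit 344161) (nat_lit 37) (.e (nat_lit 647195) (nat_lit 9) (.e (nat_lit 1238) (nat_lit 91) .nil))) (.g (nat_lit 0) (.e (nat_lit 382272) (nat_lit 0) .nil) .nil))) 
(.lf (nat_lit 583430) (.g (nat_lit 2007) (.e (nat_lit 352314) (nat_lit 23) (.e (nat_lit 98350) (nat_lit 24) (.e (nat_lit 409648) (nat_lit 18) (.e (nat_lit 303104) (nat_lit 0) (.e (nat_lit 3238) (nat_lit 197) (.e (nat_lit 532546) (nat_lit 11) .nil)))))) (.g (nat_lit 1) (.e (nat_lit 383740) (nat_lit 0) .nil) .nil))))) (.nd (nat_lit 8) (.nd (nat_lit 9) 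
(.lf (nat_lit 582790) (.g (nat_lit 5418) (.e (nat_lit 344133) (nat_lit 26) (.e (nat_lit 557091) (nat_lit 12) (.e (nat_lit 163843) (nat_lit 0) (.e (nat_lit 6254) (nat_lit 337) (.e (nat_lit 2630) (nat_lit 164) (.e (nat_lit 172064) (nat_lit 2) (.e (nat_lit 196666) (nat_lit 13) (.e (nat_lit 65617) (nat_lit 10) .nil)))))))) (.g (nat_lit 1) (.e (nat_lit 381858) (nat_lit 0) .nil) .nil))) 
(.lf (nat_lit 583302) (.g (nat_lit 1415) (.e (nat_lit 352297) (nat_lit 20) (.e (nat_lit 2391) (nat_lit 156) (.e (nat_lit 819203) (nat_lit 0) (.e (nat_lit 3015) (nat_lit 187) (.e (nat_lit 458496) (nat_lit 3) (.e (nat_lit 524032) (nat_lit 28) .nil)))))) (.g (nat_lit 1) (.e (nat_lit 383472) (nat_lit 0) .nil) .nil)))) (.nd (nat_lit 9) 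
(.lf (nat_lit 583046) (.g (nat_lit 2198) (.e (nat_lit 352267) (nat_lit 0) (.e (nat_lit 3230) (nat_lit 197) (.e (nat_lit 532503) (nat_lit 1) (.e (nat_lit 57848) (nat_lit 252) (.e (nat_lit 57407) (nat_lit 12) (.e (nat_lit 336367) (nat_lit 27) (.e (nat_lit 426542) (nat_lit 29) .nil))))))) (.g (nat_lit 1) (.e (nat_lit 382813) (nat_lit 0) .nil) .nil))) 
(.lf (nat_lit 583558) (.g (nat_lit 2224) (.e (nat_lit 360466) (nat_lit 3) (.e (nat_lit 516139) (nat_lit 7) (.e (nat_lit 409649) (nat_lit 18) (.e (nat_lit 303112) (nat_lit 0) .nil)))) (.g (nat_lit 0) (.e (nat_lit 384171) (nat_lit 0) .nil) .nil)))))) (.nd (nat_lit 7) (.nd (nat_lit 8) (.nd (nat_lit 9) 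
(.lf (nat_lit 582726) (.g (nat_lit 3974) (.e (nat_lit 344132) (nat_lit 26) (.e (nat_lit 557094) (nat_lit 12) (.e (nat_lit 164018) (nat_lit 45) (.e (nat_lit 696343) (nat_lit 8) (.e (nat_lit 172064) (nat_lit 2) (.e (nat_lit 196666) (nat_lit 13) (.e (nat_lit 65617) (nat_lit 10) .nil))))))) (.g (nat_lit 1) (.e (nat_lit 381752) (nat_lit 0) .nil) .nil))) 
(.lf (nat_lit 583238) (.g (nat_lit 911) (.e (nat_lit 352290) (nat_lit 20) (.e (nat_lit 2391) (nat_lit 156) (.e (nat_lit 819203) (nat_lit 0) (.e (nat_lit 3027) (nat_lit 187) (.e (nat_lit 458496) (nat_lit 3) (.e (nat_lit 524032) (nat_lit 28) .nil)))))) (.g (nat_lit 1) (.e (nat_lit 383381) (nat_lit 0) .nil) .nil)))) (.nd (nat_lit 9) 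
(.lf (nat_lit 582982) (.g (nat_lit 2813) (.e (nat_lit 352261) (nat_lit 0) (.e (nat_lit 3302) (nat_lit 202) (.e (nat_lit 573484) (nat_lit 13) (.e (nat_lit 65617) (nat_lit 10) (.e (nat_lit 344133) (nat_lit 26) .nil))))) (.g (nat_lit 0) (.e (nat_lit 382582) (nat_lit 0) .nil) .nil))) 
(.lf (nat_lit 583494) (.g (nat_lit 2252) (.e (nat_lit 360452) (nat_lit 0) (.e (nat_lit 5906) (nat_lit 320) (.e (nat_lit 1209) (nat_lit 89) (.e (nat_lit 73782) (nat_lit 32) (.e (nat_lit 2856) (nat_lit 184) (.e (nat_lit 426546) (nat_lit 30) .nil)))))) (.g (nat_lit 1) (.e (nat_lit 383921) (nat_lit 0) .nil) .nil))))) (.nd (nat_lit 8) (.nd (nat_lit 9) 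
(.lf (nat_lit 582854) (.g (nat_lit 974) (.e (nat_lit 344157) (nat_lit 36) (.e (nat_lit 638999) (nat_lit 8) (.e (nat_lit 172079) (nat_lit 7) (.e (nat_lit 409639) (nat_lit 15) (.e (nat_lit 278566) (nat_lit 16) (.e (nat_lit 286755) (nat_lit 10) .nil)))))) (.g (nat_lit 1) (.e (nat_lit 382124) (nat_lit 0) .nil) .nil))) 
(.lf (nat_lit 583366) (.g (nat_lit 549) (.e (nat_lit 352307) (nat_lit 21) (.e (nat_lit 57853) (nat_lit 252) (.e (nat_lit 57389) (nat_lit 5) .nil))) (.g (nat_lit 0) (.e (nat_lit 383587) (nat_lit 0) .nil) .nil)))) (.nd (nat_lit 9) 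
(.lf (nat_lit 583110) (.g (nat_lit 2406) (.e (nat_lit 360192) (nat_lit 3) (.e (nat_lit 204831) (nat_lit 18) (.e (nat_lit 57852) (nat_lit 252) (.e (nat_lit 57409) (nat_lit 12) (.e (nat_lit 336372) (nat_lit 27) .nil))))) (.g (nat_lit 0) (.e (nat_lit 383064) (nat_lit 0) .nil) .nil))) 
(.lf (nat_lit 583622) (.g (nat_lit 2703) (.e (nat_lit 360467) (nat_lit 3) (.e (nat_lit 516139) (nat_lit 7) (.e (nat_lit 409648) (nat_lit 18) (.e (nat_lit 303119) (nat_lit 3) (.e (nat_lit 212736) (nat_lit 29) .nil))))) (.g (nat_lit 1) (.e (nat_lit 384259) (nat_lit 0) .nil) .nil))))))) (.nd (nat_lit 6) (.nd (nat_lit 7) (.nd (nat_lit 8) (.nd (nat_lit 9) 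
(.lf (nat_lit 582694) (.g (nat_lit 3120) (.e (nat_lit 344131) (nat_lit 26) (.e (nat_lit 557105) (nat_lit 14) (.e (nat_lit 180252) (nat_lit 10) (.e (nat_lit 573475) (nat_lit 12) (.e (nat_lit 57508) (nat_lit 39) (.e (nat_lit 647170) (nat_lit 0) (.e (nat_lit 2685) (nat_lit 168) (.e (nat_lit 204863) (nat_lit 27) .nil)))))))) (.g (nat_lit 1) (.e (nat_lit 381646) (nat_lit 0) .nil) .nil))) 
(.lf (nat_lit 583206) (.g (nat_lit 1140) (.e (nat_lit 360192) (nat_lit 18) (.e (nat_lit 483365) (nat_lit 18) (.e (nat_lit 57854) (nat_lit 252) (.e (nat_lit 57373) (nat_lit 2) .nil)))) (.g (nat_lit 0) (.e (nat_lit 383291) (nat_lit 0) .nil) .nil)))) (.nd (nat_lit 9) 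
(.lf (nat_lit 582950) (.g (nat_lit 2497) (.e (nat_lit 344179) (nat_lit 44) (.e (nat_lit 778466) (nat_lit 11) (.e (nat_lit 24617) (nat_lit 7) (.e (nat_lit 319505) (nat_lit 10) (.e (nat_lit 720) (nat_lit 64) (.e (nat_lit 688178) (nat_lit 16) (.e (nat_lit 65613) (nat_lit 10) .nil))))))) (.g (nat_lit 1) (.e (nat_lit 382378) (nat_lit 0) .nil) .nil))) 
(.lf (nat_lit 583462) (.g (nat_lit 1090) (.e (nat_lit 360192) (nat_lit 23) (.e (nat_lit 98350) (nat_lit 24) (.e (nat_lit 409643) (nat_lit 18) (.e (nat_lit 303118) (nat_lit 3) .nil)))) (.g (nat_lit 0) (.e (nat_lit 383810) (nat_lit 0) .nil) .nil))))) (.nd (nat_lit 8) (.nd (nat_lit 9) 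
(.lf (nat_lit 582822) (.g (nat_lit 2536) (.e (nat_lit 344133) (nat_lit 26) (.e (nat_lit 557103) (nat_lit 14) (.e (nat_lit 180250) (nat_lit 10) (.e (nat_lit 573474) (nat_lit 12) (.e (nat_lit 57511) (nat_lit 39) (.e (nat_lit 655104) (nat_lit 0) (.e (nat_lit 2684) (nat_lit 168) (.e (nat_lit 204862) (nat_lit 27) .nil)))))))) (.g (nat_lit 1) (.e (nat_lit 381917) (nat_lit 0) .nil) .nil))) 
(.lf (nat_lit 583334) (.g (nat_lit 3635) (.e (nat_lit 352303) (nat_lit 20) (.e (nat_lit 1859) (nat_lit 124) (.e (nat_lit 557087) (nat_lit 11) (.e (nat_lit 24617) (nat_lit 7) (.e (nat_lit 319504) (nat_lit 10) (.e (nat_lit 7936) (nat_lit 45) (.e (nat_lit 532547) (nat_lit 11) .nil))))))) (.g (nat_lit 1) (.e (nat_lit 383523) (nat_lit 0) .nil) .nil)))) (.nd (nat_lit 9) 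
(.lf (nat_lit 583078) (.g (nat_lit 3666) (.e (nat_lit 352267) (nat_lit 0) (.e (nat_lit 3632) (nat_lit 227) (.e (nat_lit 778323) (nat_lit 5) (.e (nat_lit 73782) (nat_lit 32) (.e (nat_lit 2857) (nat_lit 184) (.e (nat_lit 426542) (nat_lit 29) .nil)))))) (.g (nat_lit 1) (.e (nat_lit 382892) (nat_lit 0) .nil) .nil))) 
(.lf (nat_lit 583590) (.g (nat_lit 752) (.e (nat_lit 360467) (nat_lit 3) (.e (nat_lit 516106) (nat_lit 0) (.e (nat_lit 6986) (nat_lit 377) .nil))) (.g (nat_lit 0) (.e (nat_lit 384219) (nat_lit 0) .nil) .nil)))))) (.nd (nat_lit 7) (.nd (nat_lit 8) (.nd (nat_lit 9) 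
(.lf (nat_lit 582758) (.g (nat_lit 3851) (.e (nat_lit 344132) (nat_lit 26) (.e (nat_lit 557105) (nat_lit 14) (.e (nat_lit 180252) (nat_lit 10) (.e (nat_lit 573474) (nat_lit 12) (.e (nat_lit 57511) (nat_lit 39) (.e (nat_lit 655104) (nat_lit 0) (.e (nat_lit 2684) (nat_lit 168) (.e (nat_lit 204863) (nat_lit 27) .nil)))))))) (.g (nat_lit 1) (.e (nat_lit 381798) (nat_lit 0) .nil) .nil))) 
(.lf (nat_lit 583270) (.g (nat_lit 961) (.e (nat_lit 352296) (nat_lit 20) (.e (nat_lit 2390) (nat_lit 156) (.e (nat_lit 819203) (nat_lit 0) (.e (nat_lit 3015) (nat_lit 187) (.e (nat_lit 458496) (nat_lit 3) (.e (nat_lit 524032) (nat_lit 28) .nil)))))) (.g (nat_lit 1) (.e (nat_lit 383431) (nat_lit 0) .nil) .nil)))) (.nd (nat_lit 9) 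
(.lf (nat_lit 583014) (.g (nat_lit 1558) (.e (nat_lit 352262) (nat_lit 0) (.e (nat_lit 3748) (nat_lit 228) (.e (nat_lit 786480) (nat_lit 29) (.e (nat_lit 352262) (nat_lit 0) (.e (nat_lit 3733) (nat_lit 228) .nil))))) (.g (nat_lit 0) (.e (nat_lit 382723) (nat_lit 0) .nil) .nil))) 
(.lf (nat_lit 583526) (.g (nat_lit 3406) (.e (nat_lit 360465) (nat_lit 3) (.e (nat_lit 516138) (nat_lit 7) (.e (nat_lit 409646) (nat_lit 18) (.e (nat_lit 303119) (nat_lit 3) (.e (nat_lit 204869) (nat_lit 29) .nil))))) (.g (nat_lit 1) (.e (nat_lit 384108) (nat_lit 0) .nil) .nil))))) (.nd (nat_lit 8) (.nd (nat_lit 9) 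
(.lf (nat_lit 582886) (.g (nat_lit 2739) (.e (nat_lit 344169) (nat_lit 40) (.e (nat_lit 671762) (nat_lit 4) (.e (nat_lit 65630) (nat_lit 14) (.e (nat_lit 401437) (nat_lit 9) (.e (nat_lit 426509) (nat_lit 27) .nil))))) (.g (nat_lit 0) (.e (nat_lit 382202) (nat_lit 0) .nil) .nil))) 
(.lf (nat_lit 583398) (.g (nat_lit 640) (.e (nat_lit 352312) (nat_lit 22) (.e (nat_lit 90170) (nat_lit 13) (.e (nat_lit 172061) (nat_lit 1) .nil))) (.g (nat_lit 0) (.e (nat_lit 383677) (nat_lit 0) .nil) .nil)))) (.nd (nat_lit 9) 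
(.lf (nat_lit 583142) (.g (nat_lit 1593) (.e (nat_lit 360192) (nat_lit 5) (.e (nat_lit 221207) (nat_lit 21) (.e (nat_lit 164322) (nat_lit 230) (.e (nat_lit 163932) (nat_lit 17) (.e (nat_lit 474880) (nat_lit 13) .nil))))) (.g (nat_lit 0) (.e (nat_lit 383130) (nat_lit 0) .nil) .nil))) 
(.lf (nat_lit 583654) (.g (nat_lit 1115) (.e (nat_lit 368384) (nat_lit 3) (.e (nat_lit 516139) (nat_lit 7) (.e (nat_lit 409623) (nat_lit 10) (.e (nat_lit 5761) (nat_lit 315) .nil)))) (.g (nat_lit 0) (.e (nat_lit 384353) (nat_lit 0) .nil) .nil)))))))) (.nd (nat_lit 5) (.nd (nat_lit 6) (.nd (nat_lit 7) (.nd (nat_lit 8) (.nd (nat_lit 9) 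
(.lf (nat_lit 582678) (.g (nat_lit 2836) (.e (nat_lit 344131) (nat_lit 26) (.e (nat_lit 557103) (nat_lit 14) (.e (nat_lit 180243) (nat_lit 5) (.e (nat_lit 532503) (nat_lit 1) (.e (nat_lit 57704) (nat_lit 164) (.e (nat_lit 2601) (nat_lit 163) (.e (nat_lit 163962) (nat_lit 25) (.e (nat_lit 532544) (nat_lit 10) .nil)))))))) (.g (nat_lit 1) (.e (nat_lit 381630) (nat_lit 0) .nil) .nil))) 
(.lf (nat_lit 583190) (.g (nat_lit 951) (.e (nat_lit 352277) (nat_lit 11) (.e (nat_lit 426344) (nat_lit 14) (.e (nat_lit 491558) (nat_lit 10) (.e (nat_lit 344177) (nat_lit 43) .nil)))) (.g (nat_lit 0) (.e (nat_lit 383232) (nat_lit 0) .nil) .nil)))) (.nd (nat_lit 9) 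
(.lf (nat_lit 582934) (.g (nat_lit 3132) (.e (nat_lit 344177) (nat_lit 43) (.e (nat_lit 770072) (nat_lit 8) (.e (nat_lit 65571) (nat_lit 3) (.e (nat_lit 98341) (nat_lit 20) (.e (nat_lit 221204) (nat_lit 20) (.e (nat_lit 3748) (nat_lit 228) (.e (nat_lit 786475) (nat_lit 28) .nil))))))) (.g (nat_lit 1) (.e (nat_lit 382346) (nat_lit 0) .nil) .nil))) 
(.lf (nat_lit 583446) (.g (nat_lit 2846) (.e (nat_lit 352315) (nat_lit 23) (.e (nat_lit 98349) (nat_lit 24) (.e (nat_lit 409645) (nat_lit 18) (.e (nat_lit 303118) (nat_lit 3) (.e (nat_lit 204865) (nat_lit 28) .nil))))) (.g (nat_lit 0) (.e (nat_lit 383771) (nat_lit 0) .nil) .nil))))) (.nd (nat_lit 8) (.nd (nat_lit 9) 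
(.lf (nat_lit 582806) (.g (nat_lit 2601) (.e (nat_lit 344133) (nat_lit 26) (.e (nat_lit 557103) (nat_lit 14) (.e (nat_lit 180244) (nat_lit 5) (.e (nat_lit 532501) (nat_lit 1) (.e (nat_lit 57703) (nat_lit 164) .nil))))) (.g (nat_lit 0) (.e (nat_lit 381901) (nat_lit 0) .nil) .nil))) 
(.lf (nat_lit 583318) (.g (nat_lit 793) (.e (nat_lit 352302) (nat_lit 20) (.e (nat_lit 2390) (nat_lit 156) (.e (nat_lit 819203) (nat_lit 0) (.e (nat_lit 3016) (nat_lit 187) (.e (nat_lit 458496) (nat_lit 3) .nil))))) (.g (nat_lit 0) (.e (nat_lit 383499) (nat_lit 0) .nil) .nil)))) (.nd (nat_lit 9) 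
(.lf (nat_lit 583062) (.g (nat_lit 2400) (.e (nat_lit 352267) (nat_lit 0) (.e (nat_lit 3253) (nat_lit 197) (.e (nat_lit 532504) (nat_lit 1) (.e (nat_lit 57852) (nat_lit 252) (.e (nat_lit 57446) (nat_lit 19) (.e (nat_lit 401152) (nat_lit 11) .nil)))))) (.g (nat_lit 1) (.e (nat_lit 382829) (nat_lit 0) .nil) .nil))) 
(.lf (nat_lit 583574) (.g (nat_lit 1928) (.e (nat_lit 360466) (nat_lit 3) (.e (nat_lit 516194) (nat_lit 26) (.e (nat_lit 335986) (nat_lit 1) (.e (nat_lit 57927) (nat_lit 282) (.e (nat_lit 163905) (nat_lit 12) (.e (nat_lit 426546) (nat_lit 30) .nil)))))) (.g (nat_lit 1) (.e (nat_lit 384201) (nat_lit 0) .nil) .nil)))))) (.nd (nat_lit 7) (.nd (nat_lit 8) (.nd (nat_lit 9) 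
(.lf (nat_lit 582742) (.g (nat_lit 2475) (.e (nat_lit 344132) (nat_lit 26) (.e (nat_lit 557101) (nat_lit 13) (.e (nat_lit 172065) (nat_lit 3) (.e (nat_lit 204830) (nat_lit 18) (.e (nat_lit 65280) (nat_lit 168) (.e (nat_lit 163875) (nat_lit 3) (.e (nat_lit 204862) (nat_lit 27) .nil))))))) (.g (nat_lit 1) (.e (nat_lit 381782) (nat_lit 0) .nil) .nil))) 
(.lf (nat_lit 583254) (.g (nat_lit 1125) (.e (nat_lit 352291) (nat_lit 20) (.e (nat_lit 2391) (nat_lit 156) (.e (nat_lit 819203) (nat_lit 0) (.e (nat_lit 3022) (nat_lit 187) (.e (nat_lit 458496) (nat_lit 3) (.e (nat_lit 524032) (nat_lit 28) .nil)))))) (.g (nat_lit 1) (.e (nat_lit 383402) (nat_lit 0) .nil) .nil)))) (.nd (nat_lit 9) 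
(.lf (nat_lit 582998) (.g (nat_lit 2326) (.e (nat_lit 352262) (nat_lit 0) (.e (nat_lit 3631) (nat_lit 227) (.e (nat_lit 778323) (nat_lit 5) (.e (nat_lit 73782) (nat_lit 32) (.e (nat_lit 2856) (nat_lit 184) (.e (nat_lit 426538) (nat_lit 29) .nil)))))) (.g (nat_lit 1) (.e (nat_lit 382692) (nat_lit 0) .nil) .nil))) 
(.lf (nat_lit 583510) (.g (nat_lit 2724) (.e (nat_lit 360457) (nat_lit 0) (.e (nat_lit 5949) (nat_lit 322) (.e (nat_lit 57400) (nat_lit 10) (.e (nat_lit 319490) (nat_lit 0) (.e (nat_lit 5664) (nat_lit 312) (.e (nat_lit 2852) (nat_lit 184) (.e (nat_lit 426545) (nat_lit 30) .nil))))))) (.g (nat_lit 1) (.e (nat_lit 384013) (nat_lit 0) .nil) .nil))))) (.nd (nat_lit 8) (.nd (nat_lit 9) 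
(.lf (nat_lit 582870) (.g (nat_lit 1742) (.e (nat_lit 344167) (nat_lit 40) (.e (nat_lit 671762) (nat_lit 4) (.e (nat_lit 65630) (nat_lit 14) (.e (nat_lit 401456) (nat_lit 13) .nil)))) (.g (nat_lit 0) (.e (nat_lit 382166) (nat_lit 0) .nil) .nil))) 
(.lf (nat_lit 583382) (.g (nat_lit 3027) (.e (nat_lit 352309) (nat_lit 21) (.e (nat_lit 57846) (nat_lit 252) (.e (nat_lit 57388) (nat_lit 5) (.e (nat_lit 114698) (nat_lit 11) (.e (nat_lit 426198) (nat_lit 9) (.e (nat_lit 426538) (nat_lit 29) .nil)))))) (.g (nat_lit 1) (.e (nat_lit 383641) (nat_lit 0) .nil) .nil)))) (.nd (nat_lit 9) 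
(.lf (nat_lit 583126) (.g (nat_lit 943) (.e (nat_lit 360192) (nat_lit 5) (.e (nat_lit 221206) (nat_lit 21) (.e (nat_lit 164326) (nat_lit 230) (.e (nat_lit 163931) (nat_lit 17) (.e (nat_lit 474880) (nat_lit 13) .nil))))) (.g (nat_lit 0) (.e (nat_lit 383107) (nat_lit 0) .nil) .nil))) 
(.lf (nat_lit 583638) (.g (nat_lit 2362) (.e (nat_lit 360467) (nat_lit 3) (.e (nat_lit 516195) (nat_lit 26) (.e (nat_lit 335988) (nat_lit 1) (.e (nat_lit 57927) (nat_lit 282) (.e (nat_lit 163901) (nat_lit 12) (.e (nat_lit 426544) (nat_lit 30) .nil)))))) (.g (nat_lit 1) (.e (nat_lit 384280) (nat_lit 0) .nil) .nil))))))) (.nd (nat_lit 6) (.nd (nat_lit 7) (.nd (nat_lit 8) (.nd (nat_lit 9) 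
(.lf (nat_lit 582710) (.g (nat_lit 1145) (.e (nat_lit 344132) (nat_lit 26) (.e (nat_lit 557093) (nat_lit 12) (.e (nat_lit 164023) (nat_lit 46) (.e (nat_lit 704737) (nat_lit 11) .nil)))) (.g (nat_lit 0) (.e (nat_lit 381707) (nat_lit 0) .nil) .nil))) 
(.lf (nat_lit 583222) (.g (nat_lit 1697) (.e (nat_lit 352290) (nat_lit 20) (.e (nat_lit 2006) (nat_lit 138) (.e (nat_lit 671763) (nat_lit 5) (.e (nat_lit 73781) (nat_lit 32) (.e (nat_lit 2854) (nat_lit 184) (.e (nat_lit 426542) (nat_lit 29) .nil)))))) (.g (nat_lit 1) (.e (nat_lit 383363) (nat_lit 0) .nil) .nil)))) (.nd (nat_lit 9) 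
(.lf (nat_lit 582966) (.g (nat_lit 1831) (.e (nat_lit 344183) (nat_lit 49) (.e (nat_lit 819219) (nat_lit 4) (.e (nat_lit 172106) (nat_lit 10) (.e (nat_lit 434241) (nat_lit 27) (.e (nat_lit 565267) (nat_lit 4) (.e (nat_lit 65611) (nat_lit 10) .nil)))))) (.g (nat_lit 1) (.e (nat_lit 382492) (nat_lit 0) .nil) .nil))) 
(.lf (nat_lit 583478) (.g (nat_lit 1477) (.e (nat_lit 360449) (nat_lit 0) (.e (nat_lit 5236) (nat_lit 297) (.e (nat_lit 229415) (nat_lit 15) (.e (nat_lit 450597) (nat_lit 17) (.e (nat_lit 663579) (nat_lit 9) .nil))))) (.g (nat_lit 0) (.e (nat_lit 383862) (nat_lit 0) .nil) .nil))))) (.nd (nat_lit 8) (.nd (nat_lit 9) 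
(.lf (nat_lit 582838) (.g (nat_lit 3946) (.e (nat_lit 344133) (nat_lit 26) (.e (nat_lit 557105) (nat_lit 14) (.e (nat_lit 180252) (nat_lit 10) (.e (nat_lit 573474) (nat_lit 12) (.e (nat_lit 57513) (nat_lit 40) (.e (nat_lit 655363) (nat_lit 0) (.e (nat_lit 2685) (nat_lit 168) (.e (nat_lit 204863) (nat_lit 27) .nil)))))))) (.g (nat_lit 1) (.e (nat_lit 381933) (nat_lit 0) .nil) .nil))) 
(.lf (nat_lit 583350) (.g (nat_lit 1564) (.e (nat_lit 352303) (nat_lit 20) (.e (nat_lit 2391) (nat_lit 156) (.e (nat_lit 819204) (nat_lit 0) (.e (nat_lit 3027) (nat_lit 187) (.e (nat_lit 458496) (nat_lit 3) (.e (nat_lit 524032) (nat_lit 28) .nil)))))) (.g (nat_lit 1) (.e (nat_lit 383546) (nat_lit 0) .nil) .nil)))) (.nd (nat_lit 9) 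
(.lf (nat_lit 583094) (.g (nat_lit 1567) (.e (nat_lit 360192) (nat_lit 0) (.e (nat_lit 3307) (nat_lit 202) (.e (nat_lit 573485) (nat_lit 13) (.e (nat_lit 65630) (nat_lit 14) (.e (nat_lit 401428) (nat_lit 3) .nil))))) (.g (nat_lit 0) (.e (nat_lit 382994) (nat_lit 0) .nil) .nil))) 
(.lf (nat_lit 583606) (.g (nat_lit 2874) (.e (nat_lit 360467) (nat_lit 3) (.e (nat_lit 516139) (nat_lit 7) (.e (nat_lit 409643) (nat_lit 18) (.e (nat_lit 303119) (nat_lit 3) (.e (nat_lit 204870) (nat_lit 29) .nil))))) (.g (nat_lit 1) (.e (nat_lit 384243) (nat_lit 0) .nil) .nil)))))) (.nd (nat_lit 7) (.nd (nat_lit 8) (.nd (nat_lit 9) 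
(.lf (nat_lit 582774) (.g (nat_lit 2929) (.e (nat_lit 344133) (nat_lit 26) (.e (nat_lit 557066) (nat_lit 9) (.e (nat_lit 232) (nat_lit 21) (.e (nat_lit 335907) (nat_lit 0) (.e (nat_lit 6679) (nat_lit 357) .nil))))) (.g (nat_lit 0) (.e (nat_lit 381814) (nat_lit 0) .nil) .nil))) 
(.lf (nat_lit 583286) (.g (nat_lit 1512) (.e (nat_lit 352297) (nat_lit 20) (.e (nat_lit 2004) (nat_lit 138) (.e (nat_lit 671763) (nat_lit 5) (.e (nat_lit 73782) (nat_lit 32) (.e (nat_lit 2854) (nat_lit 184) (.e (nat_lit 426542) (nat_lit 29) .nil)))))) (.g (nat_lit 1) (.e (nat_lit 383453) (nat_lit 0) .nil) .nil)))) (.nd (nat_lit 9) 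
(.lf (nat_lit 583030) (.g (nat_lit 691) (.e (nat_lit 352265) (nat_lit 0) (.e (nat_lit 3632) (nat_lit 227) (.e (nat_lit 778327) (nat_lit 6) (.e (nat_lit 89856) (nat_lit 8) .nil)))) (.g (nat_lit 0) (.e (nat_lit 382763) (nat_lit 0) .nil) .nil))) 
(.lf (nat_lit 583542) (.g (nat_lit 3473) (.e (nat_lit 360466) (nat_lit 3) (.e (nat_lit 516138) (nat_lit 7) (.e (nat_lit 409645) (nat_lit 18) (.e (nat_lit 303119) (nat_lit 3) (.e (nat_lit 204870) (nat_lit 29) .nil))))) (.g (nat_lit 1) (.e (nat_lit 384152) (nat_lit 0) .nil) .nil))))) (.nd (nat_lit 8) (.nd (nat_lit 9) 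
(.lf (nat_lit 582902) (.g (nat_lit 4834) (.e (nat_lit 344160) (nat_lit 37) (.e (nat_lit 647200) (nat_lit 12) (.e (nat_lit 57575) (nat_lit 55) (.e (nat_lit 778466) (nat_lit 11) (.e (nat_lit 24617) (nat_lit 7) (.e (nat_lit 319533) (nat_lit 16) (.e (nat_lit 286753) (nat_lit 10) .nil))))))) (.g (nat_lit 1) (.e (nat_lit 382243) (nat_lit 0) .nil) .nil))) 
(.lf (nat_lit 583414) (.g (nat_lit 2757) (.e (nat_lit 352313) (nat_lit 23) (.e (nat_lit 98350) (nat_lit 24) (.e (nat_lit 409645) (nat_lit 18) (.e (nat_lit 303118) (nat_lit 3) (.e (nat_lit 204865) (nat_lit 28) .nil))))) (.g (nat_lit 0) (.e (nat_lit 383712) (nat_lit 0) .nil) .nil)))) (.nd (nat_lit 9) 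
(.lf (nat_lit 583158) (.g (nat_lit 1137) (.e (nat_lit 360192) (nat_lit 5) (.e (nat_lit 221207) (nat_lit 21) (.e (nat_lit 164327) (nat_lit 230) (.e (nat_lit 163931) (nat_lit 17) (.e (nat_lit 474880) (nat_lit 13) .nil))))) (.g (nat_lit 0) (.e (nat_lit 383150) (nat_lit 0) .nil) .nil))) 
(.lf (nat_lit 583670) (.g (nat_lit 692) (.e (nat_lit 360472) (nat_lit 8) (.e (nat_lit 557090) (nat_lit 12) (.e (nat_lit 163843) (nat_lit 0) .nil))) (.g (nat_lit 0) (.e (nat_lit 384391) (nat_lit 0) .nil) .nil))))))))) (.nd (nat_lit 4) (.nd (nat_lit 5) (.nd (nat_lit 6) (.nd (nat_lit 7) (.nd (nat_lit 8) (.nd (nat_lit 9) 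
(.lf (nat_lit 582670) (.g (nat_lit 1974) (.e (nat_lit 344131) (nat_lit 26) (.e (nat_lit 557098) (nat_lit 13) (.e (nat_lit 172051) (nat_lit 0) (.e (nat_lit 3307) (nat_lit 202) (.e (nat_lit 573440) (nat_lit 0) (.e (nat_lit 3067) (nat_lit 190) (.e (nat_lit 483072) (nat_lit 26) (.e (nat_lit 532544) (nat_lit 10) .nil)))))))) (.g (nat_lit 1) (.e (nat_lit 381622) (nat_lit 0) .nil) .nil))) 
(.lf (nat_lit 583182) (.g (nat_lit 1446) (.e (nat_lit 352277) (nat_lit 11) (.e (nat_lit 426341) (nat_lit 14) (.e (nat_lit 491560) (nat_lit 10) (.e (nat_lit 344177) (nat_lit 43) .nil)))) (.g (nat_lit 0) (.e (nat_lit 383224) (nat_lit 0) .nil) .nil)))) (.nd (nat_lit 9) 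
(.lf (nat_lit 582926) (.g (nat_lit 1753) (.e (nat_lit 344164) (nat_lit 37) (.e (nat_lit 647200) (nat_lit 12) (.e (nat_lit 57477) (nat_lit 28) (.e (nat_lit 557085) (nat_lit 11) (.e (nat_lit 24657) (nat_lit 13) (.e (nat_lit 401152) (nat_lit 10) .nil)))))) (.g (nat_lit 1) (.e (nat_lit 382304) (nat_lit 0) .nil) .nil))) 
(.lf (nat_lit 583438) (.g (nat_lit 2434) (.e (nat_lit 352315) (nat_lit 23) (.e (nat_lit 98313) (nat_lit 9) (.e (nat_lit 335986) (nat_lit 1) (.e (nat_lit 57931) (nat_lit 282) (.e (nat_lit 163902) (nat_lit 12) (.e (nat_lit 426538) (nat_lit 29) .nil)))))) (.g (nat_lit 1) (.e (nat_lit 383749) (nat_lit 0) .nil) .nil))))) (.nd (nat_lit 8) (.nd (nat_lit 9) 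
(.lf (nat_lit 582798) (.g (nat_lit 3769) (.e (nat_lit 344133) (nat_lit 26) (.e (nat_lit 557098) (nat_lit 13) (.e (nat_lit 172133) (nat_lit 15) (.e (nat_lit 1800) (nat_lit 119) (.e (nat_lit 516119) (nat_lit 1) (.e (nat_lit 164345) (nat_lit 240) (.e (nat_lit 2426) (nat_lit 157) (.e (nat_lit 2680) (nat_lit 168) (.e (nat_lit 204864) (nat_lit 27) .nil))))))))) (.g (nat_lit 1) (.e (nat_lit 381893) (nat_lit 0) .nil) .nil))) 
(.lf (nat_lit 583310) (.g (nat_lit 1540) (.e (nat_lit 352301) (nat_lit 20) (.e (nat_lit 1788) (nat_lit 119) (.e (nat_lit 516139) (nat_lit 7) (.e (nat_lit 417536) (nat_lit 18) .nil)))) (.g (nat_lit 0) (.e (nat_lit 383490) (nat_lit 0) .nil) .nil)))) (.nd (nat_lit 9) 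
(.lf (nat_lit 583054) (.g (nat_lit 2391) (.e (nat_lit 352267) (nat_lit 0) (.e (nat_lit 3253) (nat_lit 197) (.e (nat_lit 532503) (nat_lit 1) (.e (nat_lit 57844) (nat_lit 252) (.e (nat_lit 57446) (nat_lit 19) (.e (nat_lit 401152) (nat_lit 11) .nil)))))) (.g (nat_lit 1) (.e (nat_lit 382821) (nat_lit 0) .nil) .nil))) 
(.lf (nat_lit 583566) (.g (nat_lit 525) (.e (nat_lit 360466) (nat_lit 3) (.e (nat_lit 516150) (nat_lit 9) (.e (nat_lit 426354) (nat_lit 15) .nil))) (.g (nat_lit 0) (.e (nat_lit 384187) (nat_lit 0) .nil) .nil)))))) (.nd (nat_lit 7) (.nd (nat_lit 8) (.nd (nat_lit 9) 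
(.lf (nat_lit 582734) (.g (nat_lit 3369) (.e (nat_lit 344132) (nat_lit 26) (.e (nat_lit 557100) (nat_lit 13) (.e (nat_lit 172062) (nat_lit 2) (.e (nat_lit 196624) (nat_lit 9) (.e (nat_lit 489) (nat_lit 38) (.e (nat_lit 483072) (nat_lit 26) (.e (nat_lit 532544) (nat_lit 10) .nil))))))) (.g (nat_lit 1) (.e (nat_lit 381774) (nat_lit 0) .nil) .nil))) 
(.lf (nat_lit 583246) (.g (nat_lit 841) (.e (nat_lit 352291) (nat_lit 20) (.e (nat_lit 2390) (nat_lit 156) (.e (nat_lit 819203) (nat_lit 0) (.e (nat_lit 3022) (nat_lit 187) (.e (nat_lit 458496) (nat_lit 3) (.e (nat_lit 524032) (nat_lit 28) .nil)))))) (.g (nat_lit 1) (.e (nat_lit 383392) (nat_lit 0) .nil) .nil)))) (.nd (nat_lit 9) 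
(.lf (nat_lit 582990) (.g (nat_lit 1828) (.e (nat_lit 352262) (nat_lit 0) (.e (nat_lit 3253) (nat_lit 197) (.e (nat_lit 532513) (nat_lit 3) (.e (nat_lit 114698) (nat_lit 11) (.e (nat_lit 426137) (nat_lit 3) .nil))))) (.g (nat_lit 0) (.e (nat_lit 382632) (nat_lit 0) .nil) .nil))) 
(.lf (nat_lit 583502) (.g (nat_lit 2886) (.e (nat_lit 360456) (nat_lit 0) (.e (nat_lit 5949) (nat_lit 322) (.e (nat_lit 57400) (nat_lit 10) (.e (nat_lit 319490) (nat_lit 0) (.e (nat_lit 5664) (nat_lit 312) (.e (nat_lit 2852) (nat_lit 184) (.e (nat_lit 426544) (nat_lit 30) .nil))))))) (.g (nat_lit 1) (.e (nat_lit 383976) (nat_lit 0) .nil) .nil))))) (.nd (nat_lit 8) (.nd (nat_lit 9) 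
(.lf (nat_lit 582862) (.g (nat_lit 1512) (.e (nat_lit 344157) (nat_lit 36) (.e (nat_lit 638999) (nat_lit 8) (.e (nat_lit 172106) (nat_lit 10) (.e (nat_lit 434269) (nat_lit 36) (.e (nat_lit 639021) (nat_lit 16) (.e (nat_lit 65611) (nat_lit 10) .nil)))))) (.g (nat_lit 1) (.e (nat_lit 382140) (nat_lit 0) .nil) .nil))) 
(.lf (nat_lit 583374) (.g (nat_lit 2278) (.e (nat_lit 352309) (nat_lit 21) (.e (nat_lit 57844) (nat_lit 252) (.e (nat_lit 57388) (nat_lit 5) (.e (nat_lit 114698) (nat_lit 11) (.e (nat_lit 426197) (nat_lit 9) (.e (nat_lit 426538) (nat_lit 29) .nil)))))) (.g (nat_lit 1) (.e (nat_lit 383633) (nat_lit 0) .nil) .nil)))) (.nd (nat_lit 9) 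
(.lf (nat_lit 583118) (.g (nat_lit 1156) (.e (nat_lit 360192) (nat_lit 5) (.e (nat_lit 221206) (nat_lit 21) (.e (nat_lit 164325) (nat_lit 230) (.e (nat_lit 163898) (nat_lit 11) .nil)))) (.g (nat_lit 0) (.e (nat_lit 383098) (nat_lit 0) .nil) .nil))) 
(.lf (nat_lit 583630) (.g (nat_lit 1474) (.e (nat_lit 360467) (nat_lit 3) (.e (nat_lit 516142) (nat_lit 8) (.e (nat_lit 417817) (nat_lit 10) (.e (nat_lit 5756) (nat_lit 315) (.e (nat_lit 163962) (nat_lit 25) .nil))))) (.g (nat_lit 0) (.e (nat_lit 384271) (nat_lit 0) .nil) .nil))))))) (.nd (nat_lit 6) (.nd (nat_lit 7) (.nd (nat_lit 8) (.nd (nat_lit 9) 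
(.lf (nat_lit 582702) (.g (nat_lit 3327) (.e (nat_lit 344132) (nat_lit 26) (.e (nat_lit 557073) (nat_lit 9) (.e (nat_lit 214) (nat_lit 19) (.e (nat_lit 319491) (nat_lit 0) (.e (nat_lit 5761) (nat_lit 315) (.e (nat_lit 163962) (nat_lit 25) (.e (nat_lit 532535) (nat_lit 9) (.e (nat_lit 336176) (nat_lit 10) .nil)))))))) (.g (nat_lit 1) (.e (nat_lit 381668) (nat_lit 0) .nil) .nil))) 
(.lf (nat_lit 583214) (.g (nat_lit 1333) (.e (nat_lit 352286) (nat_lit 20) (.e (nat_lit 1994) (nat_lit 137) (.e (nat_lit 663567) (nat_lit 4) (.e (nat_lit 65628) (nat_lit 14) (.e (nat_lit 401436) (nat_lit 9) .nil))))) (.g (nat_lit 0) (.e (nat_lit 383349) (nat_lit 0) .nil) .nil)))) (.nd (nat_lit 9) 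
(.lf (nat_lit 582958) (.g (nat_lit 2401) (.e (nat_lit 344180) (nat_lit 44) (.e (nat_lit 778465) (nat_lit 11) (.e (nat_lit 24640) (nat_lit 10) (.e (nat_lit 344177) (nat_lit 43) .nil)))) (.g (nat_lit 0) (.e (nat_lit 382387) (nat_lit 0) .nil) .nil))) 
(.lf (nat_lit 583470) (.g (nat_lit 1680) (.e (nat_lit 352318) (nat_lit 24) (.e (nat_lit 123182) (nat_lit 264) (.e (nat_lit 1212) (nat_lit 89) (.e (nat_lit 73782) (nat_lit 32) (.e (nat_lit 2842) (nat_lit 184) .nil))))) (.g (nat_lit 0) (.e (nat_lit 383832) (nat_lit 0) .nil) .nil))))) (.nd (nat_lit 8) (.nd (nat_lit 9) 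
(.lf (nat_lit 582830) (.g (nat_lit 1155) (.e (nat_lit 344133) (nat_lit 26) (.e (nat_lit 557105) (nat_lit 14) (.e (nat_lit 180240) (nat_lit 2) (.e (nat_lit 507918) (nat_lit 3) (.e (nat_lit 57088) (nat_lit 0) .nil))))) (.g (nat_lit 0) (.e (nat_lit 381925) (nat_lit 0) .nil) .nil))) 
(.lf (nat_lit 583342) (.g (nat_lit 1238) (.e (nat_lit 352303) (nat_lit 20) (.e (nat_lit 2390) (nat_lit 156) (.e (nat_lit 819204) (nat_lit 0) (.e (nat_lit 3027) (nat_lit 187) (.e (nat_lit 458496) (nat_lit 3) (.e (nat_lit 524032) (nat_lit 28) .nil)))))) (.g (nat_lit 1) (.e (nat_lit 383533) (nat_lit 0) .nil) .nil)))) (.nd (nat_lit 9) 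
(.lf (nat_lit 583086) (.g (nat_lit 1830) (.e (nat_lit 360192) (nat_lit 0) (.e (nat_lit 3302) (nat_lit 202) (.e (nat_lit 573481) (nat_lit 13) (.e (nat_lit 65619) (nat_lit 10) (.e (nat_lit 344126) (nat_lit 25) .nil))))) (.g (nat_lit 0) (.e (nat_lit 382929) (nat_lit 0) .nil) .nil))) 
(.lf (nat_lit 583598) (.g (nat_lit 815) (.e (nat_lit 360467) (nat_lit 3) (.e (nat_lit 516138) (nat_lit 7) (.e (nat_lit 409648) (nat_lit 18) .nil))) (.g (nat_lit 0) (.e (nat_lit 384229) (nat_lit 0) .nil) .nil)))))) (.nd (nat_lit 7) (.nd (nat_lit 8) (.nd (nat_lit 9) 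
(.lf (nat_lit 582766) (.g (nat_lit 2597) (.e (nat_lit 344132) (nat_lit 26) (.e (nat_lit 557105) (nat_lit 14) (.e (nat_lit 180252) (nat_lit 10) (.e (nat_lit 573475) (nat_lit 12) (.e (nat_lit 57507) (nat_lit 39) (.e (nat_lit 655104) (nat_lit 0) (.e (nat_lit 2685) (nat_lit 168) (.e (nat_lit 204862) (nat_lit 27) .nil)))))))) (.g (nat_lit 1) (.e (nat_lit 381806) (nat_lit 0) .nil) .nil))) 
(.lf (nat_lit 583278) (.g (nat_lit 1278) (.e (nat_lit 352296) (nat_lit 20) (.e (nat_lit 2391) (nat_lit 156) (.e (nat_lit 819203) (nat_lit 0) (.e (nat_lit 3015) (nat_lit 187) (.e (nat_lit 458496) (nat_lit 3) (.e (nat_lit 524032) (nat_lit 28) .nil)))))) (.g (nat_lit 1) (.e (nat_lit 383442) (nat_lit 0) .nil) .nil)))) (.nd (nat_lit 9) 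
(.lf (nat_lit 583022) (.g (nat_lit 2536) (.e (nat_lit 352265) (nat_lit 0) (.e (nat_lit 3253) (nat_lit 197) (.e (nat_lit 532504) (nat_lit 1) (.e (nat_lit 57854) (nat_lit 252) (.e (nat_lit 57447) (nat_lit 19) (.e (nat_lit 401152) (nat_lit 11) .nil)))))) (.g (nat_lit 1) (.e (nat_lit 382739) (nat_lit 0) .nil) .nil))) 
(.lf (nat_lit 583534) (.g (nat_lit 933) (.e (nat_lit 360466) (nat_lit 3) (.e (nat_lit 516115) (nat_lit 1) (.e (nat_lit 164149) (nat_lit 152) .nil))) (.g (nat_lit 0) (.e (nat_lit 384125) (nat_lit 0) .nil) .nil))))) (.nd (nat_lit 8) (.nd (nat_lit 9) 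
(.lf (nat_lit 582894) (.g (nat_lit 2296) (.e (nat_lit 344160) (nat_lit 37) (.e (nat_lit 647183) (nat_lit 4) (.e (nat_lit 172147) (nat_lit 27) (.e (nat_lit 336184) (nat_lit 11) (.e (nat_lit 368676) (nat_lit 21) (.e (nat_lit 524032) (nat_lit 27) .nil)))))) (.g (nat_lit 1) (.e (nat_lit 382225) (nat_lit 0) .nil) .nil))) 
(.lf (nat_lit 583406) (.g (nat_lit 1574) (.e (nat_lit 352313) (nat_lit 23) (.e (nat_lit 98349) (nat_lit 24) (.e (nat_lit 409646) (nat_lit 18) (.e (nat_lit 303118) (nat_lit 3) .nil)))) (.g (nat_lit 0) (.e (nat_lit 383698) (nat_lit 0) .nil) .nil)))) (.nd (nat_lit 9) 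
(.lf (nat_lit 583150) (.g (nat_lit 1442) (.e (nat_lit 360192) (nat_lit 5) (.e (nat_lit 221207) (nat_lit 21) (.e (nat_lit 164325) (nat_lit 230) (.e (nat_lit 163908) (nat_lit 12) .nil)))) (.g (nat_lit 0) (.e (nat_lit 383139) (nat_lit 0) .nil) .nil))) 
(.lf (nat_lit 583662) (.g (nat_lit 184) (.e (nat_lit 368384) (nat_lit 10) (.e (nat_lit 573445) (nat_lit 0) (.e (nat_lit 2985) (nat_lit 186) (.e (nat_lit 442391) (nat_lit 19) (.e (nat_lit 409344) (nat_lit 30) .nil))))) (.g (nat_lit 0) (.e (nat_lit 384373) (nat_lit 0) .nil) .nil)))))))) (.nd (nat_lit 5) (.nd (nat_lit 6) (.nd (nat_lit 7) (.nd (nat_lit 8) (.nd (nat_lit 9) 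
(.lf (nat_lit 582686) (.g (nat_lit 1310) (.e (nat_lit 344131) (nat_lit 26) (.e (nat_lit 557105) (nat_lit 14) (.e (nat_lit 180251) (nat_lit 10) (.e (nat_lit 573477) (nat_lit 12) .nil)))) (.g (nat_lit 0) (.e (nat_lit 381638) (nat_lit 0) .nil) .nil))) 
(.lf (nat_lit 583198) (.g (nat_lit 3068) (.e (nat_lit 352277) (nat_lit 11) (.e (nat_lit 426500) (nat_lit 27) (.e (nat_lit 335995) (nat_lit 1) (.e (nat_lit 57930) (nat_lit 282) (.e (nat_lit 163873) (nat_lit 3) (.e (nat_lit 204865) (nat_lit 28) .nil)))))) (.g (nat_lit 1) (.e (nat_lit 383253) (nat_lit 0) .nil) .nil)))) (.nd (nat_lit 9) 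
(.lf (nat_lit 582942) (.g (nat_lit 762) (.e (nat_lit 344179) (nat_lit 44) (.e (nat_lit 778465) (nat_lit 11) (.e (nat_lit 24632) (nat_lit 9) .nil))) (.g (nat_lit 0) (.e (nat_lit 382367) (nat_lit 0) .nil) .nil))) 
(.lf (nat_lit 583454) (.g (nat_lit 3156) (.e (nat_lit 352315) (nat_lit 23) (.e (nat_lit 98350) (nat_lit 24) (.e (nat_lit 409645) (nat_lit 18) (.e (nat_lit 303112) (nat_lit 0) (.e (nat_lit 3258) (nat_lit 198) (.e (nat_lit 540701) (nat_lit 11) .nil)))))) (.g (nat_lit 1) (.e (nat_lit 383783) (nat_lit 0) .nil) .nil))))) (.nd (nat_lit 8) (.nd (nat_lit 9) 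
(.lf (nat_lit 582814) (.g (nat_lit 3003) (.e (nat_lit 344133) (nat_lit 26) (.e (nat_lit 557103) (nat_lit 14) (.e (nat_lit 180250) (nat_lit 10) (.e (nat_lit 573474) (nat_lit 12) (.e (nat_lit 57507) (nat_lit 39) (.e (nat_lit 655104) (nat_lit 0) (.e (nat_lit 2685) (nat_lit 168) (.e (nat_lit 204863) (nat_lit 27) .nil)))))))) (.g (nat_lit 1) (.e (nat_lit 381909) (nat_lit 0) .nil) .nil))) 
(.lf (nat_lit 583326) (.g (nat_lit 1711) (.e (nat_lit 352302) (nat_lit 20) (.e (nat_lit 2391) (nat_lit 156) (.e (nat_lit 819204) (nat_lit 0) (.e (nat_lit 3015) (nat_lit 187) (.e (nat_lit 458496) (nat_lit 3) (.e (nat_lit 524032) (nat_lit 28) .nil)))))) (.g (nat_lit 1) (.e (nat_lit 383510) (nat_lit 0) .nil) .nil)))) (.nd (nat_lit 9) 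
(.lf (nat_lit 583070) (.g (nat_lit 911) (.e (nat_lit 352267) (nat_lit 0) (.e (nat_lit 3305) (nat_lit 202) (.e (nat_lit 573485) (nat_lit 13) (.e (nat_lit 65628) (nat_lit 14) .nil)))) (.g (nat_lit 0) (.e (nat_lit 382881) (nat_lit 0) .nil) .nil))) 
(.lf (nat_lit 583582) (.g (nat_lit 2887) (.e (nat_lit 360466) (nat_lit 3) (.e (nat_lit 516195) (nat_lit 26) (.e (nat_lit 335987) (nat_lit 1) (.e (nat_lit 57927) (nat_lit 282) (.e (nat_lit 163903) (nat_lit 12) (.e (nat_lit 426546) (nat_lit 30) .nil)))))) (.g (nat_lit 1) (.e (nat_lit 384209) (nat_lit 0) .nil) .nil)))))) (.nd (nat_lit 7) (.nd (nat_lit 8) (.nd (nat_lit 9) 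
(.lf (nat_lit 582750) (.g (nat_lit 3791) (.e (nat_lit 344132) (nat_lit 26) (.e (nat_lit 557105) (nat_lit 14) (.e (nat_lit 180252) (nat_lit 10) (.e (nat_lit 573474) (nat_lit 12) (.e (nat_lit 57505) (nat_lit 39) (.e (nat_lit 655104) (nat_lit 0) (.e (nat_lit 2684) (nat_lit 168) (.e (nat_lit 204862) (nat_lit 27) .nil)))))))) (.g (nat_lit 1) (.e (nat_lit 381790) (nat_lit 0) .nil) .nil))) 
(.lf (nat_lit 583262) (.g (nat_lit 1092) (.e (nat_lit 352294) (nat_lit 20) (.e (nat_lit 1788) (nat_lit 119) (.e (nat_lit 516139) (nat_lit 7) (.e (nat_lit 409616) (nat_lit 10) .nil)))) (.g (nat_lit 0) (.e (nat_lit 383419) (nat_lit 0) .nil) .nil)))) (.nd (nat_lit 9) 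
(.lf (nat_lit 583006) (.g (nat_lit 3062) (.e (nat_lit 352262) (nat_lit 0) (.e (nat_lit 3632) (nat_lit 227) (.e (nat_lit 778323) (nat_lit 5) (.e (nat_lit 73782) (nat_lit 32) (.e (nat_lit 2857) (nat_lit 184) (.e (nat_lit 426538) (nat_lit 29) .nil)))))) (.g (nat_lit 1) (.e (nat_lit 382702) (nat_lit 0) .nil) .nil))) 
(.lf (nat_lit 583518) (.g (nat_lit 403) (.e (nat_lit 368384) (nat_lit 0) (.e (nat_lit 5907) (nat_lit 320) (.e (nat_lit 1209) (nat_lit 89) .nil))) (.g (nat_lit 0) (.e (nat_lit 384051) (nat_lit 0) .nil) .nil))))) (.nd (nat_lit 8) (.nd (nat_lit 9) 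
(.lf (nat_lit 582878) (.g (nat_lit 1829) (.e (nat_lit 344168) (nat_lit 40) (.e (nat_lit 671763) (nat_lit 5) (.e (nat_lit 73782) (nat_lit 32) (.e (nat_lit 3087) (nat_lit 191) (.e (nat_lit 483394) (nat_lit 24) .nil))))) (.g (nat_lit 1) (.e (nat_lit 382180) (nat_lit 0) .nil) .nil))) 
(.lf (nat_lit 583390) (.g (nat_lit 2299) (.e (nat_lit 352309) (nat_lit 21) (.e (nat_lit 57854) (nat_lit 252) (.e (nat_lit 57389) (nat_lit 5) (.e (nat_lit 114698) (nat_lit 11) (.e (nat_lit 426197) (nat_lit 9) .nil))))) (.g (nat_lit 0) (.e (nat_lit 383649) (nat_lit 0) .nil) .nil)))) (.nd (nat_lit 9) 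
(.lf (nat_lit 583134) (.g (nat_lit 1359) (.e (nat_lit 360192) (nat_lit 5) (.e (nat_lit 221206) (nat_lit 21) (.e (nat_lit 164330) (nat_lit 230) (.e (nat_lit 163931) (nat_lit 17) (.e (nat_lit 474880) (nat_lit 13) .nil))))) (.g (nat_lit 0) (.e (nat_lit 383120) (nat_lit 0) .nil) .nil))) 
(.lf (nat_lit 583646) (.g (nat_lit 4592) (.e (nat_lit 360468) (nat_lit 3) (.e (nat_lit 516139) (nat_lit 7) (.e (nat_lit 409648) (nat_lit 18) (.e (nat_lit 303118) (nat_lit 3) (.e (nat_lit 204869) (nat_lit 29) .nil))))) (.g (nat_lit 1) (.e (nat_lit 384338) (nat_lit 0) .nil) .nil))))))) (.nd (nat_lit 6) (.nd (nat_lit 7) (.nd (nat_lit 8) (.nd (nat_lit 9) 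
(.lf (nat_lit 582718) (.g (nat_lit 3788) (.e (nat_lit 344132) (nat_lit 26) (.e (nat_lit 557094) (nat_lit 12) (.e (nat_lit 163852) (nat_lit 0) (.e (nat_lit 6425) (nat_lit 342) (.e (nat_lit 229399) (nat_lit 12) (.e (nat_lit 426125) (nat_lit 2) (.e (nat_lit 196666) (nat_lit 13) (.e (nat_lit 65617) (nat_lit 10) .nil)))))))) (.g (nat_lit 1) (.e (nat_lit 381732) (nat_lit 0) .nil) .nil))) 
(.lf (nat_lit 583230) (.g (nat_lit 774) (.e (nat_lit 352290) (nat_lit 20) (.e (nat_lit 2390) (nat_lit 156) (.e (nat_lit 819203) (nat_lit 0) (.e (nat_lit 3016) (nat_lit 187) (.e (nat_lit 458496) (nat_lit 3) .nil))))) (.g (nat_lit 0) (.e (nat_lit 383371) (nat_lit 0) .nil) .nil)))) (.nd (nat_lit 9) 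
(.lf (nat_lit 582974) (.g (nat_lit 1731) (.e (nat_lit 344183) (nat_lit 49) (.e (nat_lit 819221) (nat_lit 6) (.e (nat_lit 188441) (nat_lit 20) (.e (nat_lit 3289) (nat_lit 201) (.e (nat_lit 565267) (nat_lit 4) (.e (nat_lit 65610) (nat_lit 10) .nil)))))) (.g (nat_lit 1) (.e (nat_lit 382502) (nat_lit 0) .nil) .nil))) 
(.lf (nat_lit 583486) (.g (nat_lit 2401) (.e (nat_lit 360451) (nat_lit 0) (.e (nat_lit 5236) (nat_lit 297) (.e (nat_lit 229415) (nat_lit 15) (.e (nat_lit 450597) (nat_lit 17) (.e (nat_lit 663574) (nat_lit 9) (.e (nat_lit 7936) (nat_lit 24) .nil)))))) (.g (nat_lit 1) (.e (nat_lit 383885) (nat_lit 0) .nil) .nil))))) (.nd (nat_lit 8) (.nd (nat_lit 9) 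
(.lf (nat_lit 582846) (.g (nat_lit 683) (.e (nat_lit 344153) (nat_lit 35) (.e (nat_lit 630801) (nat_lit 8) (.e (nat_lit 172080) (nat_lit 7) (.e (nat_lit 409639) (nat_lit 15) (.e (nat_lit 278567) (nat_lit 16) (.e (nat_lit 286755) (nat_lit 10) .nil)))))) (.g (nat_lit 1) (.e (nat_lit 381950) (nat_lit 0) .nil) .nil))) 
(.lf (nat_lit 583358) (.g (nat_lit 656) (.e (nat_lit 352307) (nat_lit 21) (.e (nat_lit 57847) (nat_lit 252) (.e (nat_lit 57390) (nat_lit 5) .nil))) (.g (nat_lit 0) (.e (nat_lit 383579) (nat_lit 0) .nil) .nil)))) (.nd (nat_lit 9) 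
(.lf (nat_lit 583102) (.g (nat_lit 1131) (.e (nat_lit 360192) (nat_lit 0) (.e (nat_lit 3605) (nat_lit 225) (.e (nat_lit 761906) (nat_lit 16) (.e (nat_lit 172115) (nat_lit 10) .nil)))) (.g (nat_lit 0) (.e (nat_lit 383050) (nat_lit 0) .nil) .nil))) 
(.lf (nat_lit 583614) (.g (nat_lit 2282) (.e (nat_lit 360467) (nat_lit 3) (.e (nat_lit 516139) (nat_lit 7) (.e (nat_lit 409646) (nat_lit 18) (.e (nat_lit 303112) (nat_lit 0) (.e (nat_lit 3258) (nat_lit 198) .nil))))) (.g (nat_lit 0) (.e (nat_lit 384251) (nat_lit 0) .nil) .nil)))))) (.nd (nat_lit 7) (.nd (nat_lit 8) (.nd (nat_lit 9) 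
(.lf (nat_lit 582782) (.g (nat_lit 3290) (.e (nat_lit 344133) (nat_lit 26) (.e (nat_lit 557087) (nat_lit 11) (.e (nat_lit 24625) (nat_lit 9) (.e (nat_lit 336240) (nat_lit 15) (.e (nat_lit 3309) (nat_lit 202) (.e (nat_lit 573484) (nat_lit 13) (.e (nat_lit 65609) (nat_lit 10) .nil))))))) (.g (nat_lit 1) (.e (nat_lit 381831) (nat_lit 0) .nil) .nil))) 
(.lf (nat_lit 583294) (.g (nat_lit 1014) (.e (nat_lit 352297) (nat_lit 20) (.e (nat_lit 2390) (nat_lit 156) (.e (nat_lit 819203) (nat_lit 0) (.e (nat_lit 3015) (nat_lit 187) (.e (nat_lit 458496) (nat_lit 3) (.e (nat_lit 524032) (nat_lit 28) .nil)))))) (.g (nat_lit 1) (.e (nat_lit 383461) (nat_lit 0) .nil) .nil)))) (.nd (nat_lit 9) 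
(.lf (nat_lit 583038) (.g (nat_lit 2496) (.e (nat_lit 352266) (nat_lit 0) (.e (nat_lit 3253) (nat_lit 197) (.e (nat_lit 532504) (nat_lit 1) (.e (nat_lit 57851) (nat_lit 252) (.e (nat_lit 57446) (nat_lit 19) (.e (nat_lit 401152) (nat_lit 11) .nil)))))) (.g (nat_lit 1) (.e (nat_lit 382775) (nat_lit 0) .nil) .nil))) 
(.lf (nat_lit 583550) (.g (nat_lit 2848) (.e (nat_lit 360466) (nat_lit 3) (.e (nat_lit 516139) (nat_lit 7) (.e (nat_lit 409646) (nat_lit 18) (.e (nat_lit 303118) (nat_lit 3) (.e (nat_lit 204869) (nat_lit 29) .nil))))) (.g (nat_lit 1) (.e (nat_lit 384163) (nat_lit 0) .nil) .nil))))) (.nd (nat_lit 8) (.nd (nat_lit 9) 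
(.lf (nat_lit 582910) (.g (nat_lit 2886) (.e (nat_lit 344161) (nat_lit 37) (.e (nat_lit 647170) (nat_lit 0) (.e (nat_lit 3098) (nat_lit 192) (.e (nat_lit 491566) (nat_lit 12) (.e (nat_lit 385092) (nat_lit 49) (.e (nat_lit 778290) (nat_lit 0) (.e (nat_lit 1454) (nat_lit 108) (.e (nat_lit 336176) (nat_lit 10) .nil)))))))) (.g (nat_lit 1) (.e (nat_lit 382256) (nat_lit 0) .nil) .nil))) 
(.lf (nat_lit 583422) (.g (nat_lit 1544) (.e (nat_lit 352314) (nat_lit 23) (.e (nat_lit 98349) (nat_lit 24) (.e (nat_lit 409645) (nat_lit 18) (.e (nat_lit 303112) (nat_lit 0) .nil)))) (.g (nat_lit 0) (.e (nat_lit 383726) (nat_lit 0) .nil) .nil)))) (.nd (nat_lit 9) 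
(.lf (nat_lit 583166) (.g (nat_lit 1269) (.e (nat_lit 352273) (nat_lit 11) (.e (nat_lit 426108) (nat_lit 1) (.e (nat_lit 164183) (nat_lit 154) (.e (nat_lit 57410) (nat_lit 12) .nil)))) (.g (nat_lit 0) (.e (nat_lit 383188) (nat_lit 0) .nil) .nil))) 
(.lf (nat_lit 583678) (.g (nat_lit 1671) (.e (nat_lit 360472) (nat_lit 8) (.e (nat_lit 557090) (nat_lit 12) (.e (nat_lit 164020) (nat_lit 45) (.e (nat_lit 696329) (nat_lit 5) .nil)))) (.g (nat_lit 0) (.e (nat_lit 384400) (nat_lit 0) .nil) .nil)))))))))))) 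
(.nd (nat_lit 1) (.nd (nat_lit 2) (.nd (nat_lit 3) (.nd (nat_lit 4) (.nd (nat_lit 5) 
(.nd (nat_lit 6) (.nd (nat_lit 7) (.nd (nat_lit 8) (.nd (nat_lit 9) 
(.lf (nat_lit 582657) (.g (nat_lit 2591) (.e (nat_lit 344130) (nat_lit 26) (.e (nat_lit 557104) (nat_lit 14) (.e (nat_lit 180252) (nat_lit 10) (.e (nat_lit 573475) (nat_lit 12) (.e (nat_lit 57507) (nat_lit 39) (.e (nat_lit 647170) (nat_lit 0) (.e (nat_lit 2685) (nat_lit 168) (.e (nat_lit 204864) (nat_lit 27) .nil)))))))) (.g (nat_lit 1) (.e (nat_lit 381606) (nat_lit 0) .nil) .nil))) 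
(.lf (nat_lit 583169) (.g (nat_lit 1606) (.e (nat_lit 352274) (nat_lit 11) (.e (nat_lit 426265) (nat_lit 9) (.e (nat_lit 426098) (nat_lit 1) (.e (nat_lit 164325) (nat_lit 230) (.e (nat_lit 163884) (nat_lit 5) (.e (nat_lit 229120) (nat_lit 13) .nil)))))) (.g (nat_lit 1) (.e (nat_lit 383196) (nat_lit 0) .nil) .nil)))) (.nd (nat_lit 9) 
(.lf (nat_lit 582913) (.g (nat_lit 2043) (.e (nat_lit 344161) (nat_lit 37) (.e (nat_lit 647183) (nat_lit 4) (.e (nat_lit 172147) (nat_lit 27) (.e (nat_lit 336100) (nat_lit 9) (.e (nat_lit 336028) (nat_lit 3) (.e (nat_lit 106240) (nat_lit 10) .nil)))))) (.g (nat_lit 1) (.e (nat_lit 382262) (nat_lit 0) .nil) .nil))) 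
(.lf (nat_lit 583425) (.g (nat_lit 853) (.e (nat_lit 352314) (nat_lit 23) (.e (nat_lit 98350) (nat_lit 24) (.e (nat_lit 409614) (nat_lit 10) .nil))) (.g (nat_lit 0) (.e (nat_lit 383729) (nat_lit 0) .nil) .nil))))) (.nd (nat_lit 8) (.nd (nat_lit 9) 
(.lf (nat_lit 582785) (.g (nat_lit 2843) (.e (nat_lit 344133) (nat_lit 26) (.e (nat_lit 557087) (nat_lit 11) (.e (nat_lit 24625) (nat_lit 9) (.e (nat_lit 336284) (nat_lit 15) .nil)))) (.g (nat_lit 0) (.e (nat_lit 381834) (nat_lit 0) .nil) .nil))) 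
(.lf (nat_lit 583297) (.g (nat_lit 744) (.e (nat_lit 352297) (nat_lit 20) (.e (nat_lit 2390) (nat_lit 156) (.e (nat_lit 819203) (nat_lit 0) (.e (nat_lit 3027) (nat_lit 187) (.e (nat_lit 458496) (nat_lit 3) (.e (nat_lit 524032) (nat_lit 28) .nil)))))) (.g (nat_lit 1) (.e (nat_lit 383464) (nat_lit 0) .nil) .nil)))) (.nd (nat_lit 9) 
(.lf (nat_lit 583041) (.g (nat_lit 2428) (.e (nat_lit 352266) (nat_lit 0) (.e (nat_lit 3305) (nat_lit 202) (.e (nat_lit 573482) (nat_lit 13) (.e (nat_lit 65628) (nat_lit 14) (.e (nat_lit 401428) (nat_lit 3) .nil))))) (.g (nat_lit 0) (.e (nat_lit 382785) (nat_lit 0) .nil) .nil))) 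
(.lf (nat_lit 583553) (.g (nat_lit 2467) (.e (nat_lit 360466) (nat_lit 3) (.e (nat_lit 516139) (nat_lit 7) (.e (nat_lit 409646) (nat_lit 18) (.e (nat_lit 303119) (nat_lit 3) (.e (nat_lit 212736) (nat_lit 29) .nil))))) (.g (nat_lit 1) (.e (nat_lit 384166) (nat_lit 0) .nil) .nil)))))) (.nd (nat_lit 7) (.nd (nat_lit 8) (.nd (nat_lit 9) 
(.lf (nat_lit 582721) (.g (nat_lit 3485) (.e (nat_lit 344132) (nat_lit 26) (.e (nat_lit 557094) (nat_lit 12) (.e (nat_lit 164016) (nat_lit 44) (.e (nat_lit 688141) (nat_lit 5) (.e (nat_lit 2883) (nat_lit 184) (.e (nat_lit 426125) (nat_lit 2) (.e (nat_lit 196666) (nat_lit 13) (.e (nat_lit 65617) (nat_lit 10) .nil)))))))) (.g (nat_lit 1) (.e (nat_lit 381739) (nat_lit 0) .nil) .nil))) 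
(.lf (nat_lit 583233) (.g (nat_lit 1131) (.e (nat_lit 352290) (nat_lit 20) (.e (nat_lit 2390) (nat_lit 156) (.e (nat_lit 819204) (nat_lit 0) (.e (nat_lit 3022) (nat_lit 187) (.e (nat_lit 458496) (nat_lit 3) .nil))))) (.g (nat_lit 0) (.e (nat_lit 383375) (nat_lit 0) .nil) .nil)))) (.nd (nat_lit 9) 
(.lf (nat_lit 582977) (.g (nat_lit 2809) (.e (nat_lit 352261) (nat_lit 0) (.e (nat_lit 3249) (nat_lit 197) (.e (nat_lit 532504) (nat_lit 1) (.e (nat_lit 57851) (nat_lit 252) (.e (nat_lit 57406) (nat_lit 12) (.e (nat_lit 336367) (nat_lit 27) (.e (nat_lit 426540) (nat_lit 29) .nil))))))) (.g (nat_lit 1) (.e (nat_lit 382554) (nat_lit 0) .nil) .nil))) 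
(.lf (nat_lit 583489) (.g (nat_lit 1428) (.e (nat_lit 360451) (nat_lit 0) (.e (nat_lit 7265) (nat_lit 384) (.e (nat_lit 57347) (nat_lit 0) (.e (nat_lit 2031) (nat_lit 140) .nil)))) (.g (nat_lit 0) (.e (nat_lit 383893) (nat_lit 0) .nil) .nil))))) (.nd (nat_lit 8) (.nd (nat_lit 9) 
(.lf (nat_lit 582849) (.g (nat_lit 2158) (.e (nat_lit 344156) (nat_lit 36) (.e (nat_lit 638998) (nat_lit 8) (.e (nat_lit 172038) (nat_lit 0) (.e (nat_lit 7107) (nat_lit 380) (.e (nat_lit 164281) (nat_lit 222) (.e (nat_lit 57884) (nat_lit 270) (.e (nat_lit 1550) (nat_lit 109) .nil))))))) (.g (nat_lit 1) (.e (nat_lit 382077) (nat_lit 0) .nil) .nil))) 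
(.lf (nat_lit 583361) (.g (nat_lit 2377) (.e (nat_lit 352307) (nat_lit 21) (.e (nat_lit 57849) (nat_lit 252) (.e (nat_lit 57388) (nat_lit 5) (.e (nat_lit 114698) (nat_lit 11) (.e (nat_lit 426197) (nat_lit 9) (.e (nat_lit 426542) (nat_lit 29) .nil)))))) (.g (nat_lit 1) (.e (nat_lit 383582) (nat_lit 0) .nil) .nil)))) (.nd (nat_lit 9) 
(.lf (nat_lit 583105) (.g (nat_lit 2433) (.e (nat_lit 360192) (nat_lit 3) (.e (nat_lit 204829) (nat_lit 18) (.e (nat_lit 57854) (nat_lit 252) (.e (nat_lit 57409) (nat_lit 12) (.e (nat_lit 336374) (nat_lit 27) .nil))))) (.g (nat_lit 0) (.e (nat_lit 383058) (nat_lit 0) .nil) .nil))) 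
(.lf (nat_lit 583617) (.g (nat_lit 3610) (.e (nat_lit 360467) (nat_lit 3) (.e (nat_lit 516139) (nat_lit 7) (.e (nat_lit 409647) (nat_lit 18) (.e (nat_lit 303119) (nat_lit 3) (.e (nat_lit 204868) (nat_lit 29) .nil))))) (.g (nat_lit 1) (.e (nat_lit 384254) (nat_lit 0) .nil) .nil))))))) (.nd (nat_lit 6) (.nd (nat_lit 7) (.nd (nat_lit 8) (.nd (nat_lit 9) 
(.lf (nat_lit 582689) (.g (nat_lit 2603) (.e (nat_lit 344131) (nat_lit 26) (.e (nat_lit 557105) (nat_lit 14) (.e (nat_lit 180252) (nat_lit 10) (.e (nat_lit 573473) (nat_lit 12) (.e (nat_lit 57509) (nat_lit 39) .nil))))) (.g (nat_lit 0) (.e (nat_lit 381641) (nat_lit 0) .nil) .nil))) 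
(.lf (nat_lit 583201) (.g (nat_lit 4095) (.e (nat_lit 352277) (nat_lit 11) (.e (nat_lit 426500) (nat_lit 27) (.e (nat_lit 335996) (nat_lit 1) (.e (nat_lit 57930) (nat_lit 282) (.e (nat_lit 163873) (nat_lit 3) (.e (nat_lit 204865) (nat_lit 28) .nil)))))) (.g (nat_lit 1) (.e (nat_lit 383261) (nat_lit 0) .nil) .nil)))) (.nd (nat_lit 9) 
(.lf (nat_lit 582945) (.g (nat_lit 1811) (.e (nat_lit 344179) (nat_lit 44) (.e (nat_lit 778466) (nat_lit 11) (.e (nat_lit 24617) (nat_lit 7) (.e (nat_lit 319505) (nat_lit 10) (.e (nat_lit 720) (nat_lit 64) .nil))))) (.g (nat_lit 0) (.e (nat_lit 382373) (nat_lit 0) .nil) .nil))) 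
(.lf (nat_lit 583457) (.g (nat_lit 2425) (.e (nat_lit 352315) (nat_lit 23) (.e (nat_lit 98366) (nat_lit 27) (.e (nat_lit 434275) (nat_lit 39) (.e (nat_lit 663580) (nat_lit 9) (.e (nat_lit 40) (nat_lit 0) .nil))))) (.g (nat_lit 0) (.e (nat_lit 383793) (nat_lit 0) .nil) .nil))))) (.nd (nat_lit 8) (.nd (nat_lit 9) 
(.lf (nat_lit 582817) (.g (nat_lit 3149) (.e (nat_lit 344133) (nat_lit 26) (.e (nat_lit 557103) (nat_lit 14) (.e (nat_lit 180250) (nat_lit 10) (.e (nat_lit 573474) (nat_lit 12) (.e (nat_lit 57508) (nat_lit 39) (.e (nat_lit 647170) (nat_lit 0) (.e (nat_lit 2685) (nat_lit 168) (.e (nat_lit 204863) (nat_lit 27) .nil)))))))) (.g (nat_lit 1) (.e (nat_lit 381912) (nat_lit 0) .nil) .nil))) 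
(.lf (nat_lit 583329) (.g (nat_lit 1510) (.e (nat_lit 352302) (nat_lit 20) (.e (nat_lit 2391) (nat_lit 156) (.e (nat_lit 819204) (nat_lit 0) (.e (nat_lit 3027) (nat_lit 187) (.e (nat_lit 458496) (nat_lit 3) (.e (nat_lit 524032) (nat_lit 28) .nil)))))) (.g (nat_lit 1) (.e (nat_lit 383514) (nat_lit 0) .nil) .nil)))) (.nd (nat_lit 9) 
(.lf (nat_lit 583073) (.g (nat_lit 402) (.e (nat_lit 352267) (nat_lit 0) (.e (nat_lit 3632) (nat_lit 227) (.e (nat_lit 778323) (nat_lit 5) .nil))) (.g (nat_lit 0) (.e (nat_lit 382887) (nat_lit 0) .nil) .nil))) 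
(.lf (nat_lit 583585) (.g (nat_lit 3808) (.e (nat_lit 360466) (nat_lit 3) (.e (nat_lit 516195) (nat_lit 26) (.e (nat_lit 335988) (nat_lit 1) (.e (nat_lit 57931) (nat_lit 282) (.e (nat_lit 163902) (nat_lit 12) (.e (nat_lit 426546) (nat_lit 30) .nil)))))) (.g (nat_lit 1) (.e (nat_lit 384212) (nat_lit 0) .nil) .nil)))))) (.nd (nat_lit 7) (.nd (nat_lit 8) (.nd (nat_lit 9) 
(.lf (nat_lit 582753) (.g (nat_lit 3735) (.e (nat_lit 344132) (nat_lit 26) (.e (nat_lit 557105) (nat_lit 14) (.e (nat_lit 180252) (nat_lit 10) (.e (nat_lit 573474) (nat_lit 12) (.e (nat_lit 57507) (nat_lit 39) (.e (nat_lit 647170) (nat_lit 0) (.e (nat_lit 2685) (nat_lit 168) (.e (nat_lit 204862) (nat_lit 27) .nil)))))))) (.g (nat_lit 1) (.e (nat_lit 381793) (nat_lit 0) .nil) .nil))) 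
(.lf (nat_lit 583265) (.g (nat_lit 1110) (.e (nat_lit 352294) (nat_lit 20) (.e (nat_lit 1788) (nat_lit 119) (.e (nat_lit 516195) (nat_lit 26) (.e (nat_lit 335988) (nat_lit 1) .nil)))) (.g (nat_lit 0) (.e (nat_lit 383424) (nat_lit 0) .nil) .nil)))) (.nd (nat_lit 9) 
(.lf (nat_lit 583009) (.g (nat_lit 411) (.e (nat_lit 352262) (nat_lit 0) (.e (nat_lit 3632) (nat_lit 227) (.e (nat_lit 778326) (nat_lit 6) .nil))) (.g (nat_lit 0) (.e (nat_lit 382705) (nat_lit 0) .nil) .nil))) 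
(.lf (nat_lit 583521) (.g (nat_lit 1790) (.e (nat_lit 368384) (nat_lit 0) (.e (nat_lit 7685) (nat_lit 410) (.e (nat_lit 2650) (nat_lit 166) (.e (nat_lit 188449) (nat_lit 22) (.e (nat_lit 204544) (nat_lit 0) .nil))))) (.g (nat_lit 0) (.e (nat_lit 384069) (nat_lit 0) .nil) .nil))))) (.nd (nat_lit 8) (.nd (nat_lit 9) 
(.lf (nat_lit 582881) (.g (nat_lit 2251) (.e (nat_lit 344168) (nat_lit 40) (.e (nat_lit 671763) (nat_lit 5) (.e (nat_lit 73782) (nat_lit 32) (.e (nat_lit 3089) (nat_lit 191) (.e (nat_lit 483395) (nat_lit 24) .nil))))) (.g (nat_lit 1) (.e (nat_lit 382183) (nat_lit 0) .nil) .nil))) 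
(.lf (nat_lit 583393) (.g (nat_lit 892) (.e (nat_lit 352311) (nat_lit 22) (.e (nat_lit 90160) (nat_lit 11) (.e (nat_lit 24598) (nat_lit 1) .nil))) (.g (nat_lit 0) (.e (nat_lit 383659) (nat_lit 0) .nil) .nil)))) (.nd (nat_lit 9) 
(.lf (nat_lit 583137) (.g (nat_lit 1302) (.e (nat_lit 360192) (nat_lit 5) (.e (nat_lit 221206) (nat_lit 21) (.e (nat_lit 164331) (nat_lit 230) (.e (nat_lit 163931) (nat_lit 17) (.e (nat_lit 474880) (nat_lit 13) .nil))))) (.g (nat_lit 0) (.e (nat_lit 383124) (nat_lit 0) .nil) .nil))) 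
(.lf (nat_lit 583649) (.g (nat_lit 418) (.e (nat_lit 368384) (nat_lit 3) (.e (nat_lit 516138) (nat_lit 7) (.e (nat_lit 409649) (nat_lit 18) .nil))) (.g (nat_lit 0) (.e (nat_lit 384348) (nat_lit 0) .nil) .nil)))))))) (.nd (nat_lit 5) (.nd (nat_lit 6) (.nd (nat_lit 7) (.nd (nat_lit 8) (.nd (nat_lit 9) 
(.lf (nat_lit 582673) (.g (nat_lit 1751) (.e (nat_lit 344131) (nat_lit 26) (.e (nat_lit 557098) (nat_lit 13) (.e (nat_lit 172064) (nat_lit 2) (.e (nat_lit 196653) (nat_lit 11) .nil)))) (.g (nat_lit 0) (.e (nat_lit 381625) (nat_lit 0) .nil) .nil))) 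
(.lf (nat_lit 583185) (.g (nat_lit 1791) (.e (nat_lit 352277) (nat_lit 11) (.e (nat_lit 426343) (nat_lit 14) (.e (nat_lit 491558) (nat_lit 10) (.e (nat_lit 344175) (nat_lit 43) .nil)))) (.g (nat_lit 0) (.e (nat_lit 383227) (nat_lit 0) .nil) .nil)))) (.nd (nat_lit 9) 
(.lf (nat_lit 582929) (.g (nat_lit 1427) (.e (nat_lit 344176) (nat_lit 43) (.e (nat_lit 770072) (nat_lit 8) (.e (nat_lit 65617) (nat_lit 10) (.e (nat_lit 344176) (nat_lit 43) .nil)))) (.g (nat_lit 0) (.e (nat_lit 382339) (nat_lit 0) .nil) .nil))) 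
(.lf (nat_lit 583441) (.g (nat_lit 3085) (.e (nat_lit 352315) (nat_lit 23) (.e (nat_lit 98313) (nat_lit 9) (.e (nat_lit 335988) (nat_lit 1) (.e (nat_lit 57931) (nat_lit 282) (.e (nat_lit 163902) (nat_lit 12) (.e (nat_lit 426538) (nat_lit 29) .nil)))))) (.g (nat_lit 1) (.e (nat_lit 383752) (nat_lit 0) .nil) .nil))))) (.nd (nat_lit 8) (.nd (nat_lit 9) 
(.lf (nat_lit 582801) (.g (nat_lit 3006) (.e (nat_lit 344133) (nat_lit 26) (.e (nat_lit 557103) (nat_lit 14) (.e (nat_lit 180243) (nat_lit 5) (.e (nat_lit 532501) (nat_lit 1) (.e (nat_lit 57703) (nat_lit 164) (.e (nat_lit 2515) (nat_lit 157) (.e (nat_lit 2681) (nat_lit 168) (.e (nat_lit 204862) (nat_lit 27) .nil)))))))) (.g (nat_lit 1) (.e (nat_lit 381896) (nat_lit 0) .nil) .nil))) 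
(.lf (nat_lit 583313) (.g (nat_lit 429) (.e (nat_lit 352302) (nat_lit 20) (.e (nat_lit 1842) (nat_lit 123) (.e (nat_lit 548890) (nat_lit 10) .nil))) (.g (nat_lit 0) (.e (nat_lit 383493) (nat_lit 0) .nil) .nil)))) (.nd (nat_lit 9) 
(.lf (nat_lit 583057) (.g (nat_lit 1992) (.e (nat_lit 352267) (nat_lit 0) (.e (nat_lit 3253) (nat_lit 197) (.e (nat_lit 532503) (nat_lit 1) (.e (nat_lit 57847) (nat_lit 252) (.e (nat_lit 57447) (nat_lit 19) (.e (nat_lit 401152) (nat_lit 11) .nil)))))) (.g (nat_lit 1) (.e (nat_lit 382824) (nat_lit 0) .nil) .nil))) 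
(.lf (nat_lit 583569) (.g (nat_lit 1068) (.e (nat_lit 360466) (nat_lit 3) (.e (nat_lit 516183) (nat_lit 16) (.e (nat_lit 491526) (nat_lit 0) (.e (nat_lit 6680) (nat_lit 357) .nil)))) (.g (nat_lit 0) (.e (nat_lit 384195) (nat_lit 0) .nil) .nil)))))) (.nd (nat_lit 7) (.nd (nat_lit 8) (.nd (nat_lit 9) 
(.lf (nat_lit 582737) (.g (nat_lit 2843) (.e (nat_lit 344132) (nat_lit 26) (.e (nat_lit 557100) (nat_lit 13) (.e (nat_lit 172067) (nat_lit 3) (.e (nat_lit 204830) (nat_lit 18) (.e (nat_lit 65280) (nat_lit 168) (.e (nat_lit 163875) (nat_lit 3) (.e (nat_lit 204862) (nat_lit 27) .nil))))))) (.g (nat_lit 1) (.e (nat_lit 381777) (nat_lit 0) .nil) .nil))) 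
(.lf (nat_lit 583249) (.g (nat_lit 1125) (.e (nat_lit 352291) (nat_lit 20) (.e (nat_lit 2390) (nat_lit 156) (.e (nat_lit 819204) (nat_lit 0) (.e (nat_lit 3016) (nat_lit 187) (.e (nat_lit 458496) (nat_lit 3) (.e (nat_lit 524032) (nat_lit 28) .nil)))))) (.g (nat_lit 1) (.e (nat_lit 383396) (nat_lit 0) .nil) .nil)))) (.nd (nat_lit 9) 
(.lf (nat_lit 582993) (.g (nat_lit 1452) (.e (nat_lit 352262) (nat_lit 0) (.e (nat_lit 3305) (nat_lit 202) (.e (nat_lit 573484) (nat_lit 13) (.e (nat_lit 65617) (nat_lit 10) .nil)))) (.g (nat_lit 0) (.e (nat_lit 382663) (nat_lit 0) .nil) .nil))) 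
(.lf (nat_lit 583505) (.g (nat_lit 3711) (.e (nat_lit 360456) (nat_lit 0) (.e (nat_lit 5949) (nat_lit 322) (.e (nat_lit 57412) (nat_lit 12) (.e (nat_lit 336226) (nat_lit 14) (.e (nat_lit 401437) (nat_lit 9) (.e (nat_lit 426546) (nat_lit 30) .nil)))))) (.g (nat_lit 1) (.e (nat_lit 383979) (nat_lit 0) .nil) .nil))))) (.nd (nat_lit 8) (.nd (nat_lit 9) 
(.lf (nat_lit 582865) (.g (nat_lit 1449) (.e (nat_lit 344157) (nat_lit 36) (.e (nat_lit 638999) (nat_lit 8) (.e (nat_lit 172112) (nat_lit 10) (.e (nat_lit 434269) (nat_lit 36) (.e (nat_lit 639021) (nat_lit 16) (.e (nat_lit 65619) (nat_lit 10) .nil)))))) (.g (nat_lit 1) (.e (nat_lit 382144) (nat_lit 0) .nil) .nil))) 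
(.lf (nat_lit 583377) (.g (nat_lit 2438) (.e (nat_lit 352309) (nat_lit 21) (.e (nat_lit 57844) (nat_lit 252) (.e (nat_lit 57389) (nat_lit 5) (.e (nat_lit 114698) (nat_lit 11) (.e (nat_lit 426197) (nat_lit 9) (.e (nat_lit 426538) (nat_lit 29) .nil)))))) (.g (nat_lit 1) (.e (nat_lit 383636) (nat_lit 0) .nil) .nil)))) (.nd (nat_lit 9) 
(.lf (nat_lit 583121) (.g (nat_lit 1067) (.e (nat_lit 360192) (nat_lit 5) (.e (nat_lit 221206) (nat_lit 21) (.e (nat_lit 164325) (nat_lit 230) (.e (nat_lit 163930) (nat_lit 17) .nil)))) (.g (nat_lit 0) (.e (nat_lit 383102) (nat_lit 0) .nil) .nil))) 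
(.lf (nat_lit 583633) (.g (nat_lit 1625) (.e (nat_lit 360467) (nat_lit 3) (.e (nat_lit 516142) (nat_lit 8) (.e (nat_lit 417830) (nat_lit 19) (.e (nat_lit 311315) (nat_lit 3) .nil)))) (.g (nat_lit 0) (.e (nat_lit 384274) (nat_lit 0) .nil) .nil))))))) (.nd (nat_lit 6) (.nd (nat_lit 7) (.nd (nat_lit 8) (.nd (nat_lit 9) 
(.lf (nat_lit 582705) (.g (nat_lit 2734) (.e (nat_lit 344132) (nat_lit 26) (.e (nat_lit 557091) (nat_lit 12) (.e (nat_lit 163850) (nat_lit 0) (.e (nat_lit 6425) (nat_lit 342) (.e (nat_lit 229399) (nat_lit 12) .nil))))) (.g (nat_lit 0) (.e (nat_lit 381691) (nat_lit 0) .nil) .nil))) 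
(.lf (nat_lit 583217) (.g (nat_lit 2081) (.e (nat_lit 352290) (nat_lit 20) (.e (nat_lit 2005) (nat_lit 138) (.e (nat_lit 671763) (nat_lit 5) (.e (nat_lit 73781) (nat_lit 32) (.e (nat_lit 2857) (nat_lit 184) (.e (nat_lit 426542) (nat_lit 29) .nil)))))) (.g (nat_lit 1) (.e (nat_lit 383358) (nat_lit 0) .nil) .nil)))) (.nd (nat_lit 9) 
(.lf (nat_lit 582961) (.g (nat_lit 60) (.e (nat_lit 352000) (nat_lit 44) (.e (nat_lit 778463) (nat_lit 11) (.e (nat_lit 24657) (nat_lit 13) .nil))) (.g (nat_lit 0) (.e (nat_lit 382393) (nat_lit 0) .nil) .nil))) 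
(.lf (nat_lit 583473) (.g (nat_lit 3088) (.e (nat_lit 352318) (nat_lit 24) (.e (nat_lit 123197) (nat_lit 266) (.e (nat_lit 57400) (nat_lit 10) (.e (nat_lit 319490) (nat_lit 0) (.e (nat_lit 5664) (nat_lit 312) (.e (nat_lit 2852) (nat_lit 184) (.e (nat_lit 426538) (nat_lit 29) .nil))))))) (.g (nat_lit 1) (.e (nat_lit 383839) (nat_lit 0) .nil) .nil))))) (.nd (nat_lit 8) (.nd (nat_lit 9) 
(.lf (nat_lit 582833) (.g (nat_lit 3215) (.e (nat_lit 344133) (nat_lit 26) (.e (nat_lit 557105) (nat_lit 14) (.e (nat_lit 180252) (nat_lit 10) (.e (nat_lit 573474) (nat_lit 12) (.e (nat_lit 57506) (nat_lit 39) (.e (nat_lit 647170) (nat_lit 0) (.e (nat_lit 2685) (nat_lit 168) (.e (nat_lit 204864) (nat_lit 27) .nil)))))))) (.g (nat_lit 1) (.e (nat_lit 381928) (nat_lit 0) .nil) .nil))) 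
(.lf (nat_lit 583345) (.g (nat_lit 1248) (.e (nat_lit 352303) (nat_lit 20) (.e (nat_lit 2391) (nat_lit 156) (.e (nat_lit 819203) (nat_lit 0) (.e (nat_lit 3022) (nat_lit 187) (.e (nat_lit 458496) (nat_lit 3) (.e (nat_lit 524032) (nat_lit 28) .nil)))))) (.g (nat_lit 1) (.e (nat_lit 383538) (nat_lit 0) .nil) .nil)))) (.nd (nat_lit 9) 
(.lf (nat_lit 583089) (.g (nat_lit 1152) (.e (nat_lit 360192) (nat_lit 0) (.e (nat_lit 3302) (nat_lit 202) (.e (nat_lit 573491) (nat_lit 15) (.e (nat_lit 81943) (nat_lit 20) .nil)))) (.g (nat_lit 0) (.e (nat_lit 382954) (nat_lit 0) .nil) .nil))) 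
(.lf (nat_lit 583601) (.g (nat_lit 1993) (.e (nat_lit 360467) (nat_lit 3) (.e (nat_lit 516138) (nat_lit 7) (.e (nat_lit 409649) (nat_lit 18) (.e (nat_lit 303118) (nat_lit 3) .nil)))) (.g (nat_lit 0) (.e (nat_lit 384233) (nat_lit 0) .nil) .nil)))))) (.nd (nat_lit 7) (.nd (nat_lit 8) (.nd (nat_lit 9) 
(.lf (nat_lit 582769) (.g (nat_lit 3655) (.e (nat_lit 344132) (nat_lit 26) (.e (nat_lit 557105) (nat_lit 14) (.e (nat_lit 180252) (nat_lit 10) (.e (nat_lit 573475) (nat_lit 12) (.e (nat_lit 57508) (nat_lit 39) (.e (nat_lit 647170) (nat_lit 0) (.e (nat_lit 2685) (nat_lit 168) (.e (nat_lit 204864) (nat_lit 27) .nil)))))))) (.g (nat_lit 1) (.e (nat_lit 381809) (nat_lit 0) .nil) .nil))) 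
(.lf (nat_lit 583281) (.g (nat_lit 985) (.e (nat_lit 352296) (nat_lit 20) (.e (nat_lit 2391) (nat_lit 156) (.e (nat_lit 819203) (nat_lit 0) (.e (nat_lit 3027) (nat_lit 187) (.e (nat_lit 458496) (nat_lit 3) (.e (nat_lit 524032) (nat_lit 28) .nil)))))) (.g (nat_lit 1) (.e (nat_lit 383445) (nat_lit 0) .nil) .nil)))) (.nd (nat_lit 9) 
(.lf (nat_lit 583025) (.g (nat_lit 422) (.e (nat_lit 352265) (nat_lit 0) (.e (nat_lit 3632) (nat_lit 227) (.e (nat_lit 778323) (nat_lit 5) .nil))) (.g (nat_lit 0) (.e (nat_lit 382757) (nat_lit 0) .nil) .nil))) 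
(.lf (nat_lit 583537) (.g (nat_lit 1273) (.e (nat_lit 360466) (nat_lit 3) (.e (nat_lit 516120) (nat_lit 1) (.e (nat_lit 164161) (nat_lit 152) (.e (nat_lit 1208) (nat_lit 89) .nil)))) (.g (nat_lit 0) (.e (nat_lit 384143) (nat_lit 0) .nil) .nil))))) (.nd (nat_lit 8) (.nd (nat_lit 9) 
(.lf (nat_lit 582897) (.g (nat_lit 418) (.e (nat_lit 344160) (nat_lit 37) (.e (nat_lit 647195) (nat_lit 9) (.e (nat_lit 1237) (nat_lit 91) .nil))) (.g (nat_lit 0) (.e (nat_lit 382231) (nat_lit 0) .nil) .nil))) 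
(.lf (nat_lit 583409) (.g (nat_lit 2409) (.e (nat_lit 352313) (nat_lit 23) (.e (nat_lit 98349) (nat_lit 24) (.e (nat_lit 409649) (nat_lit 18) (.e (nat_lit 303118) (nat_lit 3) (.e (nat_lit 204866) (nat_lit 28) .nil))))) (.g (nat_lit 0) (.e (nat_lit 383701) (nat_lit 0) .nil) .nil)))) (.nd (nat_lit 9) 
(.lf (nat_lit 583153) (.g (nat_lit 1808) (.e (nat_lit 360192) (nat_lit 5) (.e (nat_lit 221207) (nat_lit 21) (.e (nat_lit 164325) (nat_lit 230) (.e (nat_lit 163933) (nat_lit 17) (.e (nat_lit 474880) (nat_lit 13) .nil))))) (.g (nat_lit 0) (.e (nat_lit 383143) (nat_lit 0) .nil) .nil))) 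
(.lf (nat_lit 583665) (.g (nat_lit 785) (.e (nat_lit 360477) (nat_lit 11) (.e (nat_lit 581636) (nat_lit 0) (.e (nat_lit 2989) (nat_lit 186) (.e (nat_lit 442391) (nat_lit 19) (.e (nat_lit 409344) (nat_lit 30) .nil))))) (.g (nat_lit 1) (.e (nat_lit 384384) (nat_lit 0) .nil) .nil))))))))) (.nd (nat_lit 4) (.nd (nat_lit 5) (.nd (nat_lit 6) (.nd (nat_lit 7) (.nd (nat_lit 8) (.nd (nat_lit 9) 
(.lf (nat_lit 582665) (.g (nat_lit 2612) (.e (nat_lit 344131) (nat_lit 26) (.e (nat_lit 557090) (nat_lit 12) (.e (nat_lit 164020) (nat_lit 45) (.e (nat_lit 696344) (nat_lit 8) (.e (nat_lit 172065) (nat_lit 3) (.e (nat_lit 204855) (nat_lit 26) (.e (nat_lit 336171) (nat_lit 10) .nil))))))) (.g (nat_lit 1) (.e (nat_lit 381616) (nat_lit 0) .nil) .nil))) 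
(.lf (nat_lit 583177) (.g (nat_lit 2132) (.e (nat_lit 352276) (nat_lit 11) (.e (nat_lit 426503) (nat_lit 27) (.e (nat_lit 335986) (nat_lit 1) (.e (nat_lit 57926) (nat_lit 282) (.e (nat_lit 163874) (nat_lit 3) (.e (nat_lit 204865) (nat_lit 28) .nil)))))) (.g (nat_lit 1) (.e (nat_lit 383211) (nat_lit 0) .nil) .nil)))) (.nd (nat_lit 9) 
(.lf (nat_lit 582921) (.g (nat_lit 2332) (.e (nat_lit 344161) (nat_lit 37) (.e (nat_lit 647201) (nat_lit 12) (.e (nat_lit 57574) (nat_lit 55) (.e (nat_lit 778466) (nat_lit 11) (.e (nat_lit 24617) (nat_lit 7) (.e (nat_lit 319533) (nat_lit 16) (.e (nat_lit 286752) (nat_lit 10) .nil))))))) (.g (nat_lit 1) (.e (nat_lit 382278) (nat_lit 0) .nil) .nil))) 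
(.lf (nat_lit 583433) (.g (nat_lit 3650) (.e (nat_lit 352314) (nat_lit 23) (.e (nat_lit 98350) (nat_lit 24) (.e (nat_lit 409649) (nat_lit 18) (.e (nat_lit 303111) (nat_lit 0) (.e (nat_lit 3238) (nat_lit 197) (.e (nat_lit 532547) (nat_lit 11) .nil)))))) (.g (nat_lit 1) (.e (nat_lit 383743) (nat_lit 0) .nil) .nil))))) (.nd (nat_lit 8) (.nd (nat_lit 9) 
(.lf (nat_lit 582793) (.g (nat_lit 5031) (.e (nat_lit 344133) (nat_lit 26) (.e (nat_lit 557091) (nat_lit 12) (.e (nat_lit 163843) (nat_lit 0) (.e (nat_lit 6420) (nat_lit 341) (.e (nat_lit 163900) (nat_lit 12) (.e (nat_lit 426125) (nat_lit 2) (.e (nat_lit 196666) (nat_lit 13) (.e (nat_lit 65617) (nat_lit 10) .nil)))))))) (.g (nat_lit 1) (.e (nat_lit 381864) (nat_lit 0) .nil) .nil))) 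
(.lf (nat_lit 583305) (.g (nat_lit 1125) (.e (nat_lit 352297) (nat_lit 20) (.e (nat_lit 2391) (nat_lit 156) (.e (nat_lit 819203) (nat_lit 0) (.e (nat_lit 3027) (nat_lit 187) (.e (nat_lit 458496) (nat_lit 3) (.e (nat_lit 524032) (nat_lit 28) .nil)))))) (.g (nat_lit 1) (.e (nat_lit 383475) (nat_lit 0) .nil) .nil)))) (.nd (nat_lit 9) 
(.lf (nat_lit 583049) (.g (nat_lit 1792) (.e (nat_lit 352267) (nat_lit 0) (.e (nat_lit 3251) (nat_lit 197) (.e (nat_lit 532504) (nat_lit 1) (.e (nat_lit 57851) (nat_lit 252) (.e (nat_lit 57446) (nat_lit 19) (.e (nat_lit 401152) (nat_lit 11) .nil)))))) (.g (nat_lit 1) (.e (nat_lit 382816) (nat_lit 0) .nil) .nil))) 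
(.lf (nat_lit 583561) (.g (nat_lit 1236) (.e (nat_lit 360466) (nat_lit 3) (.e (nat_lit 516142) (nat_lit 8) (.e (nat_lit 417828) (nat_lit 18) (.e (nat_lit 303106) (nat_lit 0) .nil)))) (.g (nat_lit 0) (.e (nat_lit 384177) (nat_lit 0) .nil) .nil)))))) (.nd (nat_lit 7) (.nd (nat_lit 8) (.nd (nat_lit 9) 
(.lf (nat_lit 582729) (.g (nat_lit 5533) (.e (nat_lit 344132) (nat_lit 26) (.e (nat_lit 557094) (nat_lit 12) (.e (nat_lit 164022) (nat_lit 46) (.e (nat_lit 704629) (nat_lit 9) (.e (nat_lit 375) (nat_lit 32) (.e (nat_lit 426125) (nat_lit 2) (.e (nat_lit 196666) (nat_lit 13) (.e (nat_lit 65617) (nat_lit 10) .nil)))))))) (.g (nat_lit 1) (.e (nat_lit 381766) (nat_lit 0) .nil) .nil))) 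
(.lf (nat_lit 583241) (.g (nat_lit 1510) (.e (nat_lit 352290) (nat_lit 20) (.e (nat_lit 2391) (nat_lit 156) (.e (nat_lit 819204) (nat_lit 0) (.e (nat_lit 3022) (nat_lit 187) (.e (nat_lit 458496) (nat_lit 3) (.e (nat_lit 524032) (nat_lit 28) .nil)))))) (.g (nat_lit 1) (.e (nat_lit 383385) (nat_lit 0) .nil) .nil)))) (.nd (nat_lit 9) 
(.lf (nat_lit 582985) (.g (nat_lit 2009) (.e (nat_lit 352261) (nat_lit 0) (.e (nat_lit 3302) (nat_lit 202) (.e (nat_lit 573491) (nat_lit 15) (.e (nat_lit 81946) (nat_lit 20) (.e (nat_lit 1841) (nat_lit 123) .nil))))) (.g (nat_lit 0) (.e (nat_lit 382602) (nat_lit 0) .nil) .nil))) 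
(.lf (nat_lit 583497) (.g (nat_lit 766) (.e (nat_lit 360453) (nat_lit 0) (.e (nat_lit 5205) (nat_lit 294) (.e (nat_lit 57389) (nat_lit 5) (.e (nat_lit 114697) (nat_lit 11) .nil)))) (.g (nat_lit 0) (.e (nat_lit 383938) (nat_lit 0) .nil) .nil))))) (.nd (nat_lit 8) (.nd (nat_lit 9) 
(.lf (nat_lit 582857) (.g (nat_lit 1401) (.e (nat_lit 344157) (nat_lit 36) (.e (nat_lit 638999) (nat_lit 8) (.e (nat_lit 172079) (nat_lit 7) (.e (nat_lit 409639) (nat_lit 15) (.e (nat_lit 278567) (nat_lit 16) (.e (nat_lit 286756) (nat_lit 10) .nil)))))) (.g (nat_lit 1) (.e (nat_lit 382127) (nat_lit 0) .nil) .nil))) 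
(.lf (nat_lit 583369) (.g (nat_lit 1377) (.e (nat_lit 352307) (nat_lit 21) (.e (nat_lit 57854) (nat_lit 252) (.e (nat_lit 57389) (nat_lit 5) (.e (nat_lit 114697) (nat_lit 11) .nil)))) (.g (nat_lit 0) (.e (nat_lit 383590) (nat_lit 0) .nil) .nil)))) (.nd (nat_lit 9) 
(.lf (nat_lit 583113) (.g (nat_lit 2754) (.e (nat_lit 360192) (nat_lit 3) (.e (nat_lit 204838) (nat_lit 20) (.e (nat_lit 114698) (nat_lit 11) (.e (nat_lit 426139) (nat_lit 3) (.e (nat_lit 204867) (nat_lit 28) .nil))))) (.g (nat_lit 0) (.e (nat_lit 383073) (nat_lit 0) .nil) .nil))) 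
(.lf (nat_lit 583625) (.g (nat_lit 3527) (.e (nat_lit 360467) (nat_lit 3) (.e (nat_lit 516139) (nat_lit 7) (.e (nat_lit 409649) (nat_lit 18) (.e (nat_lit 303118) (nat_lit 3) (.e (nat_lit 204870) (nat_lit 29) .nil))))) (.g (nat_lit 1) (.e (nat_lit 384263) (nat_lit 0) .nil) .nil))))))) (.nd (nat_lit 6) (.nd (nat_lit 7) (.nd (nat_lit 8) (.nd (nat_lit 9) 
(.lf (nat_lit 582697) (.g (nat_lit 4539) (.e (nat_lit 344132) (nat_lit 26) (.e (nat_lit 557072) (nat_lit 9) (.e (nat_lit 3098) (nat_lit 192) (.e (nat_lit 491571) (nat_lit 13) (.e (nat_lit 393251) (nat_lit 18) (.e (nat_lit 164179) (nat_lit 154) (.e (nat_lit 57420) (nat_lit 13) .nil))))))) (.g (nat_lit 1) (.e (nat_lit 381650) (nat_lit 0) .nil) .nil))) 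
(.lf (nat_lit 583209) (.g (nat_lit 1032) (.e (nat_lit 352279) (nat_lit 19) (.e (nat_lit 491526) (nat_lit 0) (.e (nat_lit 2270) (nat_lit 149) (.e (nat_lit 761867) (nat_lit 5) .nil)))) (.g (nat_lit 0) (.e (nat_lit 383300) (nat_lit 0) .nil) .nil)))) (.nd (nat_lit 9) 
(.lf (nat_lit 582953) (.g (nat_lit 2452) (.e (nat_lit 344179) (nat_lit 44) (.e (nat_lit 778466) (nat_lit 11) (.e (nat_lit 24625) (nat_lit 9) (.e (nat_lit 336392) (nat_lit 27) (.e (nat_lit 426343) (nat_lit 14) .nil))))) (.g (nat_lit 0) (.e (nat_lit 382381) (nat_lit 0) .nil) .nil))) 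
(.lf (nat_lit 583465) (.g (nat_lit 1583) (.e (nat_lit 360192) (nat_lit 23) (.e (nat_lit 98350) (nat_lit 24) (.e (nat_lit 409646) (nat_lit 18) (.e (nat_lit 303118) (nat_lit 3) .nil)))) (.g (nat_lit 0) (.e (nat_lit 383813) (nat_lit 0) .nil) .nil))))) (.nd (nat_lit 8) (.nd (nat_lit 9) 
(.lf (nat_lit 582825) (.g (nat_lit 2918) (.e (nat_lit 344133) (nat_lit 26) (.e (nat_lit 557103) (nat_lit 14) (.e (nat_lit 180250) (nat_lit 10) (.e (nat_lit 573475) (nat_lit 12) (.e (nat_lit 57507) (nat_lit 39) (.e (nat_lit 647176) (nat_lit 0) (.e (nat_lit 2681) (nat_lit 168) (.e (nat_lit 204862) (nat_lit 27) .nil)))))))) (.g (nat_lit 1) (.e (nat_lit 381920) (nat_lit 0) .nil) .nil))) 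
(.lf (nat_lit 583337) (.g (nat_lit 979) (.e (nat_lit 352303) (nat_lit 20) (.e (nat_lit 2390) (nat_lit 156) (.e (nat_lit 819203) (nat_lit 0) (.e (nat_lit 3022) (nat_lit 187) (.e (nat_lit 458496) (nat_lit 3) (.e (nat_lit 524032) (nat_lit 28) .nil)))))) (.g (nat_lit 1) (.e (nat_lit 383527) (nat_lit 0) .nil) .nil)))) (.nd (nat_lit 9) 
(.lf (nat_lit 583081) (.g (nat_lit 312) (.e (nat_lit 352267) (nat_lit 0) (.e (nat_lit 3748) (nat_lit 228) (.e (nat_lit 786477) (nat_lit 28) .nil))) (.g (nat_lit 0) (.e (nat_lit 382896) (nat_lit 0) .nil) .nil))) 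
(.lf (nat_lit 583593) (.g (nat_lit 2978) (.e (nat_lit 360467) (nat_lit 3) (.e (nat_lit 516138) (nat_lit 7) (.e (nat_lit 409644) (nat_lit 18) (.e (nat_lit 303119) (nat_lit 3) (.e (nat_lit 204870) (nat_lit 29) .nil))))) (.g (nat_lit 1) (.e (nat_lit 384224) (nat_lit 0) .nil) .nil)))))) (.nd (nat_lit 7) (.nd (nat_lit 8) (.nd (nat_lit 9) 
(.lf (nat_lit 582761) (.g (nat_lit 2368) (.e (nat_lit 344132) (nat_lit 26) (.e (nat_lit 557105) (nat_lit 14) (.e (nat_lit 180252) (nat_lit 10) (.e (nat_lit 573475) (nat_lit 12) (.e (nat_lit 57506) (nat_lit 39) (.e (nat_lit 647168) (nat_lit 0) (.e (nat_lit 2685) (nat_lit 168) (.e (nat_lit 204863) (nat_lit 27) .nil)))))))) (.g (nat_lit 1) (.e (nat_lit 381801) (nat_lit 0) .nil) .nil))) 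
(.lf (nat_lit 583273) (.g (nat_lit 693) (.e (nat_lit 352296) (nat_lit 20) (.e (nat_lit 2390) (nat_lit 156) (.e (nat_lit 819203) (nat_lit 0) (.e (nat_lit 3027) (nat_lit 187) (.e (nat_lit 458496) (nat_lit 3) (.e (nat_lit 524032) (nat_lit 28) .nil)))))) (.g (nat_lit 1) (.e (nat_lit 383434) (nat_lit 0) .nil) .nil)))) (.nd (nat_lit 9) 
(.lf (nat_lit 583017) (.g (nat_lit 1938) (.e (nat_lit 352262) (nat_lit 0) (.e (nat_lit 3748) (nat_lit 228) (.e (nat_lit 786483) (nat_lit 30) (.e (nat_lit 360486) (nat_lit 18) (.e (nat_lit 671745) (nat_lit 0) .nil))))) (.g (nat_lit 0) (.e (nat_lit 382728) (nat_lit 0) .nil) .nil))) 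
(.lf (nat_lit 583529) (.g (nat_lit 3760) (.e (nat_lit 360465) (nat_lit 3) (.e (nat_lit 516139) (nat_lit 7) (.e (nat_lit 409646) (nat_lit 18) (.e (nat_lit 303119) (nat_lit 3) (.e (nat_lit 204869) (nat_lit 29) .nil))))) (.g (nat_lit 1) (.e (nat_lit 384114) (nat_lit 0) .nil) .nil))))) (.nd (nat_lit 8) (.nd (nat_lit 9) 
(.lf (nat_lit 582889) (.g (nat_lit 2294) (.e (nat_lit 344169) (nat_lit 40) (.e (nat_lit 671764) (nat_lit 6) (.e (nat_lit 81931) (nat_lit 20) (.e (nat_lit 1999) (nat_lit 137) (.e (nat_lit 663567) (nat_lit 4) (.e (nat_lit 65610) (nat_lit 10) .nil)))))) (.g (nat_lit 1) (.e (nat_lit 382205) (nat_lit 0) .nil) .nil))) 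
(.lf (nat_lit 583401) (.g (nat_lit 957) (.e (nat_lit 352313) (nat_lit 23) (.e (nat_lit 98317) (nat_lit 9) (.e (nat_lit 335996) (nat_lit 1) (.e (nat_lit 57931) (nat_lit 282) .nil)))) (.g (nat_lit 0) (.e (nat_lit 383690) (nat_lit 0) .nil) .nil)))) (.nd (nat_lit 9) 
(.lf (nat_lit 583145) (.g (nat_lit 326) (.e (nat_lit 360192) (nat_lit 5) (.e (nat_lit 221207) (nat_lit 21) (.e (nat_lit 164325) (nat_lit 230) .nil))) (.g (nat_lit 0) (.e (nat_lit 383133) (nat_lit 0) .nil) .nil))) 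
(.lf (nat_lit 583657) (.g (nat_lit 2089) (.e (nat_lit 360471) (nat_lit 7) (.e (nat_lit 548889) (nat_lit 9) (.e (nat_lit 65628) (nat_lit 14) (.e (nat_lit 401412) (nat_lit 0) (.e (nat_lit 3262) (nat_lit 198) .nil))))) (.g (nat_lit 0) (.e (nat_lit 384367) (nat_lit 0) .nil) .nil)))))))) (.nd (nat_lit 5) (.nd (nat_lit 6) (.nd (nat_lit 7) (.nd (nat_lit 8) (.nd (nat_lit 9) 
(.lf (nat_lit 582681) (.g (nat_lit 3564) (.e (nat_lit 344131) (nat_lit 26) (.e (nat_lit 557103) (nat_lit 14) (.e (nat_lit 180250) (nat_lit 10) (.e (nat_lit 573474) (nat_lit 12) (.e (nat_lit 57507) (nat_lit 39) (.e (nat_lit 655104) (nat_lit 0) (.e (nat_lit 2684) (nat_lit 168) (.e (nat_lit 204863) (nat_lit 27) .nil)))))))) (.g (nat_lit 1) (.e (nat_lit 381633) (nat_lit 0) .nil) .nil))) 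
(.lf (nat_lit 583193) (.g (nat_lit 2708) (.e (nat_lit 352277) (nat_lit 11) (.e (nat_lit 426500) (nat_lit 27) (.e (nat_lit 335986) (nat_lit 1) (.e (nat_lit 57931) (nat_lit 282) (.e (nat_lit 163874) (nat_lit 3) (.e (nat_lit 204865) (nat_lit 28) .nil)))))) (.g (nat_lit 1) (.e (nat_lit 383240) (nat_lit 0) .nil) .nil)))) (.nd (nat_lit 9) 
(.lf (nat_lit 582937) (.g (nat_lit 510) (.e (nat_lit 344177) (nat_lit 43) (.e (nat_lit 770074) (nat_lit 10) (.e (nat_lit 81928) (nat_lit 20) .nil))) (.g (nat_lit 0) (.e (nat_lit 382349) (nat_lit 0) .nil) .nil))) 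
(.lf (nat_lit 583449) (.g (nat_lit 3721) (.e (nat_lit 352315) (nat_lit 23) (.e (nat_lit 98349) (nat_lit 24) (.e (nat_lit 409646) (nat_lit 18) (.e (nat_lit 303118) (nat_lit 3) (.e (nat_lit 204866) (nat_lit 28) .nil))))) (.g (nat_lit 1) (.e (nat_lit 383775) (nat_lit 0) .nil) .nil))))) (.nd (nat_lit 8) (.nd (nat_lit 9) 
(.lf (nat_lit 582809) (.g (nat_lit 2383) (.e (nat_lit 344133) (nat_lit 26) (.e (nat_lit 557103) (nat_lit 14) (.e (nat_lit 180250) (nat_lit 10) (.e (nat_lit 573474) (nat_lit 12) (.e (nat_lit 57505) (nat_lit 39) (.e (nat_lit 655104) (nat_lit 0) (.e (nat_lit 2684) (nat_lit 168) (.e (nat_lit 204862) (nat_lit 27) .nil)))))))) (.g (nat_lit 1) (.e (nat_lit 381904) (nat_lit 0) .nil) .nil))) 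
(.lf (nat_lit 583321) (.g (nat_lit 1146) (.e (nat_lit 352302) (nat_lit 20) (.e (nat_lit 2390) (nat_lit 156) (.e (nat_lit 819204) (nat_lit 0) (.e (nat_lit 3022) (nat_lit 187) (.e (nat_lit 458496) (nat_lit 3) .nil))))) (.g (nat_lit 0) (.e (nat_lit 383502) (nat_lit 0) .nil) .nil)))) (.nd (nat_lit 9) 
(.lf (nat_lit 583065) (.g (nat_lit 2117) (.e (nat_lit 352267) (nat_lit 0) (.e (nat_lit 3253) (nat_lit 197) (.e (nat_lit 532504) (nat_lit 1) (.e (nat_lit 57854) (nat_lit 252) (.e (nat_lit 57446) (nat_lit 19) (.e (nat_lit 401152) (nat_lit 11) .nil)))))) (.g (nat_lit 1) (.e (nat_lit 382832) (nat_lit 0) .nil) .nil))) 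
(.lf (nat_lit 583577) (.g (nat_lit 2249) (.e (nat_lit 360466) (nat_lit 3) (.e (nat_lit 516194) (nat_lit 26) (.e (nat_lit 335988) (nat_lit 1) (.e (nat_lit 57927) (nat_lit 282) (.e (nat_lit 163905) (nat_lit 12) (.e (nat_lit 426546) (nat_lit 30) .nil)))))) (.g (nat_lit 1) (.e (nat_lit 384204) (nat_lit 0) .nil) .nil)))))) (.nd (nat_lit 7) (.nd (nat_lit 8) (.nd (nat_lit 9) 
(.lf (nat_lit 582745) (.g (nat_lit 2424) (.e (nat_lit 344132) (nat_lit 26) (.e (nat_lit 557103) (nat_lit 14) (.e (nat_lit 180250) (nat_lit 10) (.e (nat_lit 573474) (nat_lit 12) (.e (nat_lit 57507) (nat_lit 39) (.e (nat_lit 655104) (nat_lit 0) (.e (nat_lit 2684) (nat_lit 168) (.e (nat_lit 204862) (nat_lit 27) .nil)))))))) (.g (nat_lit 1) (.e (nat_lit 381785) (nat_lit 0) .nil) .nil))) 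
(.lf (nat_lit 583257) (.g (nat_lit 1494) (.e (nat_lit 352291) (nat_lit 20) (.e (nat_lit 2391) (nat_lit 156) (.e (nat_lit 819204) (nat_lit 0) (.e (nat_lit 3016) (nat_lit 187) (.e (nat_lit 458496) (nat_lit 3) (.e (nat_lit 524032) (nat_lit 28) .nil)))))) (.g (nat_lit 1) (.e (nat_lit 383407) (nat_lit 0) .nil) .nil)))) (.nd (nat_lit 9) 
(.lf (nat_lit 583001) (.g (nat_lit 2488) (.e (nat_lit 352262) (nat_lit 0) (.e (nat_lit 3632) (nat_lit 227) (.e (nat_lit 778323) (nat_lit 5) (.e (nat_lit 73781) (nat_lit 32) (.e (nat_lit 2855) (nat_lit 184) (.e (nat_lit 426538) (nat_lit 29) .nil)))))) (.g (nat_lit 1) (.e (nat_lit 382697) (nat_lit 0) .nil) .nil))) 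
(.lf (nat_lit 583513) (.g (nat_lit 1564) (.e (nat_lit 360457) (nat_lit 0) (.e (nat_lit 5949) (nat_lit 322) (.e (nat_lit 57424) (nat_lit 14) (.e (nat_lit 352265) (nat_lit 0) .nil)))) (.g (nat_lit 0) (.e (nat_lit 384018) (nat_lit 0) .nil) .nil))))) (.nd (nat_lit 8) (.nd (nat_lit 9) 
(.lf (nat_lit 582873) (.g (nat_lit 3416) (.e (nat_lit 344168) (nat_lit 40) (.e (nat_lit 671762) (nat_lit 4) (.e (nat_lit 65630) (nat_lit 14) (.e (nat_lit 401437) (nat_lit 9) (.e (nat_lit 426482) (nat_lit 27) .nil))))) (.g (nat_lit 0) (.e (nat_lit 382175) (nat_lit 0) .nil) .nil))) 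
(.lf (nat_lit 583385) (.g (nat_lit 2761) (.e (nat_lit 352309) (nat_lit 21) (.e (nat_lit 57848) (nat_lit 252) (.e (nat_lit 57388) (nat_lit 5) (.e (nat_lit 114698) (nat_lit 11) (.e (nat_lit 426197) (nat_lit 9) (.e (nat_lit 426539) (nat_lit 29) .nil)))))) (.g (nat_lit 1) (.e (nat_lit 383644) (nat_lit 0) .nil) .nil)))) (.nd (nat_lit 9) 
(.lf (nat_lit 583129) (.g (nat_lit 1484) (.e (nat_lit 360192) (nat_lit 5) (.e (nat_lit 221206) (nat_lit 21) (.e (nat_lit 164327) (nat_lit 230) (.e (nat_lit 163933) (nat_lit 17) (.e (nat_lit 474880) (nat_lit 13) .nil))))) (.g (nat_lit 0) (.e (nat_lit 383110) (nat_lit 0) .nil) .nil))) 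
(.lf (nat_lit 583641) (.g (nat_lit 830) (.e (nat_lit 360468) (nat_lit 3) (.e (nat_lit 516139) (nat_lit 7) (.e (nat_lit 409618) (nat_lit 10) .nil))) (.g (nat_lit 0) (.e (nat_lit 384323) (nat_lit 0) .nil) .nil))))))) (.nd (nat_lit 6) (.nd (nat_lit 7) (.nd (nat_lit 8) (.nd (nat_lit 9) 
(.lf (nat_lit 582713) (.g (nat_lit 4131) (.e (nat_lit 344132) (nat_lit 26) (.e (nat_lit 557094) (nat_lit 12) (.e (nat_lit 163847) (nat_lit 0) (.e (nat_lit 6255) (nat_lit 337) (.e (nat_lit 2630) (nat_lit 164) (.e (nat_lit 172062) (nat_lit 2) (.e (nat_lit 196666) (nat_lit 13) (.e (nat_lit 65617) (nat_lit 10) .nil)))))))) (.g (nat_lit 1) (.e (nat_lit 381715) (nat_lit 0) .nil) .nil))) 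
(.lf (nat_lit 583225) (.g (nat_lit 1768) (.e (nat_lit 352290) (nat_lit 20) (.e (nat_lit 2006) (nat_lit 138) (.e (nat_lit 671763) (nat_lit 5) (.e (nat_lit 73782) (nat_lit 32) (.e (nat_lit 2854) (nat_lit 184) (.e (nat_lit 426542) (nat_lit 29) .nil)))))) (.g (nat_lit 1) (.e (nat_lit 383366) (nat_lit 0) .nil) .nil)))) (.nd (nat_lit 9) 
(.lf (nat_lit 582969) (.g (nat_lit 1781) (.e (nat_lit 344183) (nat_lit 49) (.e (nat_lit 819219) (nat_lit 4) (.e (nat_lit 172113) (nat_lit 10) (.e (nat_lit 434248) (nat_lit 28) (.e (nat_lit 573503) (nat_lit 18) .nil))))) (.g (nat_lit 0) (.e (nat_lit 382495) (nat_lit 0) .nil) .nil))) 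
(.lf (nat_lit 583481) (.g (nat_lit 2171) (.e (nat_lit 360449) (nat_lit 0) (.e (nat_lit 7710) (nat_lit 414) (.e (nat_lit 163908) (nat_lit 12) (.e (nat_lit 426285) (nat_lit 10) (.e (nat_lit 434229) (nat_lit 22) (.e (nat_lit 532224) (nat_lit 29) .nil)))))) (.g (nat_lit 1) (.e (nat_lit 383870) (nat_lit 0) .nil) .nil))))) (.nd (nat_lit 8) (.nd (nat_lit 9) 
(.lf (nat_lit 582841) (.g (nat_lit 3963) (.e (nat_lit 344133) (nat_lit 26) (.e (nat_lit 557105) (nat_lit 14) (.e (nat_lit 180252) (nat_lit 10) (.e (nat_lit 573475) (nat_lit 12) (.e (nat_lit 57508) (nat_lit 39) (.e (nat_lit 647168) (nat_lit 0) (.e (nat_lit 2685) (nat_lit 168) (.e (nat_lit 204863) (nat_lit 27) .nil)))))))) (.g (nat_lit 1) (.e (nat_lit 381936) (nat_lit 0) .nil) .nil))) 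
(.lf (nat_lit 583353) (.g (nat_lit 638) (.e (nat_lit 352307) (nat_lit 21) (.e (nat_lit 57846) (nat_lit 252) (.e (nat_lit 57388) (nat_lit 5) .nil))) (.g (nat_lit 0) (.e (nat_lit 383574) (nat_lit 0) .nil) .nil)))) (.nd (nat_lit 9) 
(.lf (nat_lit 583097) (.g (nat_lit 1509) (.e (nat_lit 360192) (nat_lit 0) (.e (nat_lit 3308) (nat_lit 202) (.e (nat_lit 573491) (nat_lit 15) (.e (nat_lit 81946) (nat_lit 20) (.e (nat_lit 1842) (nat_lit 123) .nil))))) (.g (nat_lit 0) (.e (nat_lit 383012) (nat_lit 0) .nil) .nil))) 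
(.lf (nat_lit 583609) (.g (nat_lit 2429) (.e (nat_lit 360467) (nat_lit 3) (.e (nat_lit 516139) (nat_lit 7) (.e (nat_lit 409645) (nat_lit 18) (.e (nat_lit 303112) (nat_lit 0) (.e (nat_lit 3252) (nat_lit 197) .nil))))) (.g (nat_lit 0) (.e (nat_lit 384246) (nat_lit 0) .nil) .nil)))))) (.nd (nat_lit 7) (.nd (nat_lit 8) (.nd (nat_lit 9) 
(.lf (nat_lit 582777) (.g (nat_lit 3140) (.e (nat_lit 344133) (nat_lit 26) (.e (nat_lit 557068) (nat_lit 9) (.e (nat_lit 2828) (nat_lit 182) (.e (nat_lit 409649) (nat_lit 18) (.e (nat_lit 303151) (nat_lit 27) (.e (nat_lit 335995) (nat_lit 1) (.e (nat_lit 57683) (nat_lit 155) (.e (nat_lit 122913) (nat_lit 13) .nil)))))))) (.g (nat_lit 1) (.e (nat_lit 381821) (nat_lit 0) .nil) .nil))) 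
(.lf (nat_lit 583289) (.g (nat_lit 2256) (.e (nat_lit 352297) (nat_lit 20) (.e (nat_lit 2005) (nat_lit 138) (.e (nat_lit 671763) (nat_lit 5) (.e (nat_lit 73782) (nat_lit 32) (.e (nat_lit 2857) (nat_lit 184) (.e (nat_lit 426542) (nat_lit 29) .nil)))))) (.g (nat_lit 1) (.e (nat_lit 383456) (nat_lit 0) .nil) .nil)))) (.nd (nat_lit 9) 
(.lf (nat_lit 583033) (.g (nat_lit 2428) (.e (nat_lit 352266) (nat_lit 0) (.e (nat_lit 3253) (nat_lit 197) (.e (nat_lit 532501) (nat_lit 1) (.e (nat_lit 57851) (nat_lit 252) (.e (nat_lit 57446) (nat_lit 19) (.e (nat_lit 401152) (nat_lit 11) .nil)))))) (.g (nat_lit 1) (.e (nat_lit 382770) (nat_lit 0) .nil) .nil))) 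
(.lf (nat_lit 583545) (.g (nat_lit 2995) (.e (nat_lit 360466) (nat_lit 3) (.e (nat_lit 516138) (nat_lit 7) (.e (nat_lit 409646) (nat_lit 18) (.e (nat_lit 303119) (nat_lit 3) (.e (nat_lit 204870) (nat_lit 29) .nil))))) (.g (nat_lit 1) (.e (nat_lit 384155) (nat_lit 0) .nil) .nil))))) (.nd (nat_lit 8) (.nd (nat_lit 9) 
(.lf (nat_lit 582905) (.g (nat_lit 2898) (.e (nat_lit 344160) (nat_lit 37) (.e (nat_lit 647201) (nat_lit 12) (.e (nat_lit 57574) (nat_lit 55) (.e (nat_lit 778465) (nat_lit 11) (.e (nat_lit 24616) (nat_lit 7) (.e (nat_lit 319533) (nat_lit 16) (.e (nat_lit 286753) (nat_lit 10) .nil))))))) (.g (nat_lit 1) (.e (nat_lit 382246) (nat_lit 0) .nil) .nil))) 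
(.lf (nat_lit 583417) (.g (nat_lit 2862) (.e (nat_lit 352313) (nat_lit 23) (.e (nat_lit 98350) (nat_lit 24) (.e (nat_lit 409648) (nat_lit 18) (.e (nat_lit 303118) (nat_lit 3) (.e (nat_lit 204865) (nat_lit 28) .nil))))) (.g (nat_lit 1) (.e (nat_lit 383715) (nat_lit 0) .nil) .nil)))) (.nd (nat_lit 9) 
(.lf (nat_lit 583161) (.g (nat_lit 1162) (.e (nat_lit 360192) (nat_lit 5) (.e (nat_lit 221208) (nat_lit 21) (.e (nat_lit 164330) (nat_lit 230) (.e (nat_lit 163846) (nat_lit 0) .nil)))) (.g (nat_lit 0) (.e (nat_lit 383161) (nat_lit 0) .nil) .nil))) 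
(.lf (nat_lit 583673) (.g (nat_lit 1768) (.e (nat_lit 360472) (nat_lit 8) (.e (nat_lit 557090) (nat_lit 12) (.e (nat_lit 163850) (nat_lit 0) (.e (nat_lit 6425) (nat_lit 342) .nil)))) (.g (nat_lit 0) (.e (nat_lit 384394) (nat_lit 0) .nil) .nil)))))))))) (.nd (nat_lit 3) (.nd (nat_lit 4) (.nd (nat_lit 5) (.nd (nat_lit 6) (.nd (nat_lit 7) (.nd (nat_lit 8) (.nd (nat_lit 9) 
(.lf (nat_lit 582661) (.g (nat_lit 2468) (.e (nat_lit 344130) (nat_lit 26) (.e (nat_lit 557119) (nat_lit 18) (.e (nat_lit 2797) (nat_lit 180) (.e (nat_lit 303143) (nat_lit 12) (.e (nat_lit 483072) (nat_lit 2) (.e (nat_lit 24641) (nat_lit 10) .nil)))))) (.g (nat_lit 1) (.e (nat_lit 381610) (nat_lit 0) .nil) .nil))) 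
(.lf (nat_lit 583173) (.g (nat_lit 2093) (.e (nat_lit 352275) (nat_lit 11) (.e (nat_lit 426344) (nat_lit 14) (.e (nat_lit 491560) (nat_lit 10) (.e (nat_lit 344177) (nat_lit 43) .nil)))) (.g (nat_lit 0) (.e (nat_lit 383200) (nat_lit 0) .nil) .nil)))) (.nd (nat_lit 9) 
(.lf (nat_lit 582917) (.g (nat_lit 1087) (.e (nat_lit 344161) (nat_lit 37) (.e (nat_lit 647195) (nat_lit 9) (.e (nat_lit 1234) (nat_lit 91) (.e (nat_lit 90153) (nat_lit 10) .nil)))) (.g (nat_lit 0) (.e (nat_lit 382270) (nat_lit 0) .nil) .nil))) 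
(.lf (nat_lit 583429) (.g (nat_lit 2978) (.e (nat_lit 352314) (nat_lit 23) (.e (nat_lit 98350) (nat_lit 24) (.e (nat_lit 409645) (nat_lit 18) (.e (nat_lit 303112) (nat_lit 0) (.e (nat_lit 3252) (nat_lit 197) (.e (nat_lit 532547) (nat_lit 11) .nil)))))) (.g (nat_lit 1) (.e (nat_lit 383739) (nat_lit 0) .nil) .nil))))) (.nd (nat_lit 8) (.nd (nat_lit 9) 
(.lf (nat_lit 582789) (.g (nat_lit 5113) (.e (nat_lit 344133) (nat_lit 26) (.e (nat_lit 557091) (nat_lit 12) (.e (nat_lit 163843) (nat_lit 0) (.e (nat_lit 6254) (nat_lit 337) (.e (nat_lit 2630) (nat_lit 164) (.e (nat_lit 172062) (nat_lit 2) (.e (nat_lit 196666) (nat_lit 13) (.e (nat_lit 65617) (nat_lit 10) .nil)))))))) (.g (nat_lit 1) (.e (nat_lit 381857) (nat_lit 0) .nil) .nil))) 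
(.lf (nat_lit 583301) (.g (nat_lit 1206) (.e (nat_lit 352297) (nat_lit 20) (.e (nat_lit 2390) (nat_lit 156) (.e (nat_lit 819204) (nat_lit 0) (.e (nat_lit 3027) (nat_lit 187) (.e (nat_lit 458496) (nat_lit 3) (.e (nat_lit 524032) (nat_lit 28) .nil)))))) (.g (nat_lit 1) (.e (nat_lit 383469) (nat_lit 0) .nil) .nil)))) (.nd (nat_lit 9) 
(.lf (nat_lit 583045) (.g (nat_lit 1201) (.e (nat_lit 352266) (nat_lit 0) (.e (nat_lit 3632) (nat_lit 227) (.e (nat_lit 778323) (nat_lit 5) (.e (nat_lit 81664) (nat_lit 32) .nil)))) (.g (nat_lit 0) (.e (nat_lit 382810) (nat_lit 0) .nil) .nil))) 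
(.lf (nat_lit 583557) (.g (nat_lit 2322) (.e (nat_lit 360466) (nat_lit 3) (.e (nat_lit 516139) (nat_lit 7) (.e (nat_lit 409649) (nat_lit 18) (.e (nat_lit 303107) (nat_lit 0) .nil)))) (.g (nat_lit 0) (.e (nat_lit 384170) (nat_lit 0) .nil) .nil)))))) (.nd (nat_lit 7) (.nd (nat_lit 8) (.nd (nat_lit 9) 
(.lf (nat_lit 582725) (.g (nat_lit 3857) (.e (nat_lit 344132) (nat_lit 26) (.e (nat_lit 557094) (nat_lit 12) (.e (nat_lit 164018) (nat_lit 45) (.e (nat_lit 696330) (nat_lit 5) (.e (nat_lit 2884) (nat_lit 184) (.e (nat_lit 426125) (nat_lit 2) (.e (nat_lit 196666) (nat_lit 13) (.e (nat_lit 65617) (nat_lit 10) .nil)))))))) (.g (nat_lit 1) (.e (nat_lit 381749) (nat_lit 0) .nil) .nil))) 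
(.lf (nat_lit 583237) (.g (nat_lit 1126) (.e (nat_lit 352290) (nat_lit 20) (.e (nat_lit 2391) (nat_lit 156) (.e (nat_lit 819203) (nat_lit 0) (.e (nat_lit 3022) (nat_lit 187) (.e (nat_lit 458496) (nat_lit 3) (.e (nat_lit 524032) (nat_lit 28) .nil)))))) (.g (nat_lit 1) (.e (nat_lit 383380) (nat_lit 0) .nil) .nil)))) (.nd (nat_lit 9) 
(.lf (nat_lit 582981) (.g (nat_lit 2810) (.e (nat_lit 352261) (nat_lit 0) (.e (nat_lit 3302) (nat_lit 202) (.e (nat_lit 573484) (nat_lit 13) (.e (nat_lit 65617) (nat_lit 10) (.e (nat_lit 344130) (nat_lit 26) .nil))))) (.g (nat_lit 0) (.e (nat_lit 382581) (nat_lit 0) .nil) .nil))) 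
(.lf (nat_lit 583493) (.g (nat_lit 1779) (.e (nat_lit 360452) (nat_lit 0) (.e (nat_lit 5193) (nat_lit 294) (.e (nat_lit 57388) (nat_lit 5) (.e (nat_lit 114698) (nat_lit 11) (.e (nat_lit 426197) (nat_lit 9) .nil))))) (.g (nat_lit 0) (.e (nat_lit 383914) (nat_lit 0) .nil) .nil))))) (.nd (nat_lit 8) (.nd (nat_lit 9) 
(.lf (nat_lit 582853) (.g (nat_lit 943) (.e (nat_lit 344157) (nat_lit 36) (.e (nat_lit 638999) (nat_lit 8) (.e (nat_lit 172079) (nat_lit 7) (.e (nat_lit 409638) (nat_lit 15) (.e (nat_lit 278567) (nat_lit 16) (.e (nat_lit 286755) (nat_lit 10) .nil)))))) (.g (nat_lit 1) (.e (nat_lit 382123) (nat_lit 0) .nil) .nil))) 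
(.lf (nat_lit 583365) (.g (nat_lit 1858) (.e (nat_lit 352307) (nat_lit 21) (.e (nat_lit 57853) (nat_lit 252) (.e (nat_lit 57388) (nat_lit 5) (.e (nat_lit 114697) (nat_lit 11) (.e (nat_lit 426197) (nat_lit 9) .nil))))) (.g (nat_lit 0) (.e (nat_lit 383586) (nat_lit 0) .nil) .nil)))) (.nd (nat_lit 9) 
(.lf (nat_lit 583109) (.g (nat_lit 1919) (.e (nat_lit 360192) (nat_lit 3) (.e (nat_lit 204831) (nat_lit 18) (.e (nat_lit 57849) (nat_lit 252) (.e (nat_lit 57407) (nat_lit 12) (.e (nat_lit 336372) (nat_lit 27) .nil))))) (.g (nat_lit 0) (.e (nat_lit 383063) (nat_lit 0) .nil) .nil))) 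
(.lf (nat_lit 583621) (.g (nat_lit 3068) (.e (nat_lit 360467) (nat_lit 3) (.e (nat_lit 516139) (nat_lit 7) (.e (nat_lit 409648) (nat_lit 18) (.e (nat_lit 303118) (nat_lit 3) (.e (nat_lit 212736) (nat_lit 29) .nil))))) (.g (nat_lit 1) (.e (nat_lit 384258) (nat_lit 0) .nil) .nil))))))) (.nd (nat_lit 6) (.nd (nat_lit 7) (.nd (nat_lit 8) (.nd (nat_lit 9) 
(.lf (nat_lit 582693) (.g (nat_lit 3109) (.e (nat_lit 344131) (nat_lit 26) (.e (nat_lit 557105) (nat_lit 14) (.e (nat_lit 180252) (nat_lit 10) (.e (nat_lit 573475) (nat_lit 12) (.e (nat_lit 57506) (nat_lit 39) (.e (nat_lit 647175) (nat_lit 0) (.e (nat_lit 2684) (nat_lit 168) (.e (nat_lit 204863) (nat_lit 27) .nil)))))))) (.g (nat_lit 1) (.e (nat_lit 381645) (nat_lit 0) .nil) .nil))) 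
(.lf (nat_lit 583205) (.g (nat_lit 447) (.e (nat_lit 360192) (nat_lit 18) (.e (nat_lit 483350) (nat_lit 17) (.e (nat_lit 1996) (nat_lit 137) .nil))) (.g (nat_lit 0) (.e (nat_lit 383280) (nat_lit 0) .nil) .nil)))) (.nd (nat_lit 9) 
(.lf (nat_lit 582949) (.g (nat_lit 3663) (.e (nat_lit 344179) (nat_lit 44) (.e (nat_lit 778466) (nat_lit 11) (.e (nat_lit 24617) (nat_lit 7) (.e (nat_lit 319505) (nat_lit 10) (.e (nat_lit 720) (nat_lit 64) (.e (nat_lit 688177) (nat_lit 16) (.e (nat_lit 65613) (nat_lit 10) .nil))))))) (.g (nat_lit 1) (.e (nat_lit 382377) (nat_lit 0) .nil) .nil))) 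
(.lf (nat_lit 583461) (.g (nat_lit 1343) (.e (nat_lit 360192) (nat_lit 23) (.e (nat_lit 98349) (nat_lit 24) (.e (nat_lit 409649) (nat_lit 18) (.e (nat_lit 303118) (nat_lit 3) .nil)))) (.g (nat_lit 0) (.e (nat_lit 383809) (nat_lit 0) .nil) .nil))))) (.nd (nat_lit 8) (.nd (nat_lit 9) 
(.lf (nat_lit 582821) (.g (nat_lit 2803) (.e (nat_lit 344133) (nat_lit 26) (.e (nat_lit 557103) (nat_lit 14) (.e (nat_lit 180250) (nat_lit 10) (.e (nat_lit 573474) (nat_lit 12) (.e (nat_lit 57509) (nat_lit 39) (.e (nat_lit 655104) (nat_lit 0) (.e (nat_lit 2684) (nat_lit 168) (.e (nat_lit 204862) (nat_lit 27) .nil)))))))) (.g (nat_lit 1) (.e (nat_lit 381916) (nat_lit 0) .nil) .nil))) 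
(.lf (nat_lit 583333) (.g (nat_lit 2137) (.e (nat_lit 352303) (nat_lit 20) (.e (nat_lit 1849) (nat_lit 124) (.e (nat_lit 557066) (nat_lit 9) (.e (nat_lit 232) (nat_lit 21) (.e (nat_lit 336060) (nat_lit 7) .nil))))) (.g (nat_lit 0) (.e (nat_lit 383521) (nat_lit 0) .nil) .nil)))) (.nd (nat_lit 9) 
(.lf (nat_lit 583077) (.g (nat_lit 1687) (.e (nat_lit 352267) (nat_lit 0) (.e (nat_lit 3632) (nat_lit 227) (.e (nat_lit 778323) (nat_lit 5) (.e (nat_lit 73782) (nat_lit 32) (.e (nat_lit 2856) (nat_lit 184) .nil))))) (.g (nat_lit 0) (.e (nat_lit 382891) (nat_lit 0) .nil) .nil))) 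
(.lf (nat_lit 583589) (.g (nat_lit 2399) (.e (nat_lit 360466) (nat_lit 3) (.e (nat_lit 516199) (nat_lit 26) (.e (nat_lit 335988) (nat_lit 1) (.e (nat_lit 57927) (nat_lit 282) (.e (nat_lit 163905) (nat_lit 12) (.e (nat_lit 426546) (nat_lit 30) .nil)))))) (.g (nat_lit 1) (.e (nat_lit 384217) (nat_lit 0) .nil) .nil)))))) (.nd (nat_lit 7) (.nd (nat_lit 8) (.nd (nat_lit 9) 
(.lf (nat_lit 582757) (.g (nat_lit 3910) (.e (nat_lit 344132) (nat_lit 26) (.e (nat_lit 557105) (nat_lit 14) (.e (nat_lit 180252) (nat_lit 10) (.e (nat_lit 573474) (nat_lit 12) (.e (nat_lit 57509) (nat_lit 39) (.e (nat_lit 655104) (nat_lit 0) (.e (nat_lit 2684) (nat_lit 168) (.e (nat_lit 204863) (nat_lit 27) .nil)))))))) (.g (nat_lit 1) (.e (nat_lit 381797) (nat_lit 0) .nil) .nil))) 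
(.lf (nat_lit 583269) (.g (nat_lit 3387) (.e (nat_lit 352296) (nat_lit 20) (.e (nat_lit 1848) (nat_lit 124) (.e (nat_lit 557087) (nat_lit 11) (.e (nat_lit 24617) (nat_lit 7) (.e (nat_lit 319504) (nat_lit 10) (.e (nat_lit 7936) (nat_lit 45) (.e (nat_lit 532547) (nat_lit 11) .nil))))))) (.g (nat_lit 1) (.e (nat_lit 383430) (nat_lit 0) .nil) .nil)))) (.nd (nat_lit 9) 
(.lf (nat_lit 583013) (.g (nat_lit 1511) (.e (nat_lit 352262) (nat_lit 0) (.e (nat_lit 3748) (nat_lit 228) (.e (nat_lit 786480) (nat_lit 29) (.e (nat_lit 352260) (nat_lit 0) .nil)))) (.g (nat_lit 0) (.e (nat_lit 382721) (nat_lit 0) .nil) .nil))) 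
(.lf (nat_lit 583525) (.g (nat_lit 1018) (.e (nat_lit 368384) (nat_lit 5) (.e (nat_lit 532579) (nat_lit 26) (.e (nat_lit 426172) (nat_lit 7) (.e (nat_lit 417536) (nat_lit 10) .nil)))) (.g (nat_lit 0) (.e (nat_lit 384103) (nat_lit 0) .nil) .nil))))) (.nd (nat_lit 8) (.nd (nat_lit 9) 
(.lf (nat_lit 582885) (.g (nat_lit 1980) (.e (nat_lit 344169) (nat_lit 40) (.e (nat_lit 671759) (nat_lit 3) (.e (nat_lit 57480) (nat_lit 28) (.e (nat_lit 557099) (nat_lit 13) .nil)))) (.g (nat_lit 0) (.e (nat_lit 382200) (nat_lit 0) .nil) .nil))) 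
(.lf (nat_lit 583397) (.g (nat_lit 891) (.e (nat_lit 352312) (nat_lit 22) (.e (nat_lit 90160) (nat_lit 11) (.e (nat_lit 24598) (nat_lit 1) .nil))) (.g (nat_lit 0) (.e (nat_lit 383672) (nat_lit 0) .nil) .nil)))) (.nd (nat_lit 9) 
(.lf (nat_lit 583141) (.g (nat_lit 1212) (.e (nat_lit 360192) (nat_lit 5) (.e (nat_lit 221206) (nat_lit 21) (.e (nat_lit 164332) (nat_lit 230) (.e (nat_lit 163932) (nat_lit 17) (.e (nat_lit 474880) (nat_lit 13) .nil))))) (.g (nat_lit 0) (.e (nat_lit 383128) (nat_lit 0) .nil) .nil))) 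
(.lf (nat_lit 583653) (.g (nat_lit 361) (.e (nat_lit 368384) (nat_lit 3) (.e (nat_lit 516139) (nat_lit 7) (.e (nat_lit 409617) (nat_lit 10) .nil))) (.g (nat_lit 0) (.e (nat_lit 384352) (nat_lit 0) .nil) .nil)))))))) (.nd (nat_lit 5) (.nd (nat_lit 6) (.nd (nat_lit 7) (.nd (nat_lit 8) (.nd (nat_lit 9) 
(.lf (nat_lit 582677) (.g (nat_lit 2881) (.e (nat_lit 344131) (nat_lit 26) (.e (nat_lit 557103) (nat_lit 14) (.e (nat_lit 180243) (nat_lit 5) (.e (nat_lit 532501) (nat_lit 1) (.e (nat_lit 57703) (nat_lit 164) (.e (nat_lit 2601) (nat_lit 163) (.e (nat_lit 163962) (nat_lit 25) (.e (nat_lit 532544) (nat_lit 10) .nil)))))))) (.g (nat_lit 1) (.e (nat_lit 381629) (nat_lit 0) .nil) .nil))) 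
(.lf (nat_lit 583189) (.g (nat_lit 3856) (.e (nat_lit 352277) (nat_lit 11) (.e (nat_lit 426344) (nat_lit 14) (.e (nat_lit 491558) (nat_lit 10) (.e (nat_lit 344097) (nat_lit 18) (.e (nat_lit 7270) (nat_lit 385) (.e (nat_lit 122914) (nat_lit 14) .nil)))))) (.g (nat_lit 1) (.e (nat_lit 383231) (nat_lit 0) .nil) .nil)))) (.nd (nat_lit 9) 
(.lf (nat_lit 582933) (.g (nat_lit 3354) (.e (nat_lit 344177) (nat_lit 43) (.e (nat_lit 770072) (nat_lit 8) (.e (nat_lit 65571) (nat_lit 3) (.e (nat_lit 98341) (nat_lit 20) (.e (nat_lit 221203) (nat_lit 20) (.e (nat_lit 3748) (nat_lit 228) (.e (nat_lit 786477) (nat_lit 28) .nil))))))) (.g (nat_lit 1) (.e (nat_lit 382345) (nat_lit 0) .nil) .nil))) 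
(.lf (nat_lit 583445) (.g (nat_lit 3458) (.e (nat_lit 352315) (nat_lit 23) (.e (nat_lit 98349) (nat_lit 24) (.e (nat_lit 409645) (nat_lit 18) (.e (nat_lit 303112) (nat_lit 0) (.e (nat_lit 3252) (nat_lit 197) (.e (nat_lit 532548) (nat_lit 11) .nil)))))) (.g (nat_lit 1) (.e (nat_lit 383770) (nat_lit 0) .nil) .nil))))) (.nd (nat_lit 8) (.nd (nat_lit 9) 
(.lf (nat_lit 582805) (.g (nat_lit 3174) (.e (nat_lit 344133) (nat_lit 26) (.e (nat_lit 557103) (nat_lit 14) (.e (nat_lit 180244) (nat_lit 5) (.e (nat_lit 532499) (nat_lit 1) (.e (nat_lit 65280) (nat_lit 168) (.e (nat_lit 163874) (nat_lit 3) (.e (nat_lit 204864) (nat_lit 27) .nil))))))) (.g (nat_lit 1) (.e (nat_lit 381900) (nat_lit 0) .nil) .nil))) 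
(.lf (nat_lit 583317) (.g (nat_lit 861) (.e (nat_lit 352302) (nat_lit 20) (.e (nat_lit 2390) (nat_lit 156) (.e (nat_lit 819203) (nat_lit 0) (.e (nat_lit 3015) (nat_lit 187) (.e (nat_lit 458496) (nat_lit 3) .nil))))) (.g (nat_lit 0) (.e (nat_lit 383498) (nat_lit 0) .nil) .nil)))) (.nd (nat_lit 9) 
(.lf (nat_lit 583061) (.g (nat_lit 2011) (.e (nat_lit 352267) (nat_lit 0) (.e (nat_lit 3253) (nat_lit 197) (.e (nat_lit 532504) (nat_lit 1) (.e (nat_lit 57851) (nat_lit 252) (.e (nat_lit 57446) (nat_lit 19) (.e (nat_lit 401152) (nat_lit 11) .nil)))))) (.g (nat_lit 1) (.e (nat_lit 382828) (nat_lit 0) .nil) .nil))) 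
(.lf (nat_lit 583573) (.g (nat_lit 2652) (.e (nat_lit 360466) (nat_lit 3) (.e (nat_lit 516194) (nat_lit 26) (.e (nat_lit 335986) (nat_lit 1) (.e (nat_lit 57927) (nat_lit 282) (.e (nat_lit 163903) (nat_lit 12) (.e (nat_lit 426546) (nat_lit 30) .nil)))))) (.g (nat_lit 1) (.e (nat_lit 384200) (nat_lit 0) .nil) .nil)))))) (.nd (nat_lit 7) (.nd (nat_lit 8) (.nd (nat_lit 9) 
(.lf (nat_lit 582741) (.g (nat_lit 2195) (.e (nat_lit 344132) (nat_lit 26) (.e (nat_lit 557101) (nat_lit 13) (.e (nat_lit 172063) (nat_lit 2) (.e (nat_lit 196624) (nat_lit 9) (.e (nat_lit 489) (nat_lit 38) (.e (nat_lit 483072) (nat_lit 26) (.e (nat_lit 532544) (nat_lit 10) .nil))))))) (.g (nat_lit 1) (.e (nat_lit 381781) (nat_lit 0) .nil) .nil))) 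
(.lf (nat_lit 583253) (.g (nat_lit 1119) (.e (nat_lit 352291) (nat_lit 20) (.e (nat_lit 2391) (nat_lit 156) (.e (nat_lit 819203) (nat_lit 0) (.e (nat_lit 3016) (nat_lit 187) (.e (nat_lit 458496) (nat_lit 3) (.e (nat_lit 524032) (nat_lit 28) .nil)))))) (.g (nat_lit 1) (.e (nat_lit 383401) (nat_lit 0) .nil) .nil)))) (.nd (nat_lit 9) 
(.lf (nat_lit 582997) (.g (nat_lit 2875) (.e (nat_lit 352262) (nat_lit 0) (.e (nat_lit 3631) (nat_lit 227) (.e (nat_lit 778323) (nat_lit 5) (.e (nat_lit 73781) (nat_lit 32) (.e (nat_lit 2857) (nat_lit 184) (.e (nat_lit 426540) (nat_lit 29) .nil)))))) (.g (nat_lit 1) (.e (nat_lit 382691) (nat_lit 0) .nil) .nil))) 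
(.lf (nat_lit 583509) (.g (nat_lit 847) (.e (nat_lit 360457) (nat_lit 0) (.e (nat_lit 5948) (nat_lit 322) (.e (nat_lit 57435) (nat_lit 17) (.e (nat_lit 376835) (nat_lit 0) .nil)))) (.g (nat_lit 0) (.e (nat_lit 384012) (nat_lit 0) .nil) .nil))))) (.nd (nat_lit 8) (.nd (nat_lit 9) 
(.lf (nat_lit 582869) (.g (nat_lit 429) (.e (nat_lit 352000) (nat_lit 39) (.e (nat_lit 663580) (nat_lit 9) (.e (nat_lit 2699) (nat_lit 169) .nil))) (.g (nat_lit 0) (.e (nat_lit 382165) (nat_lit 0) .nil) .nil))) 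
(.lf (nat_lit 583381) (.g (nat_lit 2533) (.e (nat_lit 352309) (nat_lit 21) (.e (nat_lit 57846) (nat_lit 252) (.e (nat_lit 57388) (nat_lit 5) (.e (nat_lit 114698) (nat_lit 11) (.e (nat_lit 426197) (nat_lit 9) (.e (nat_lit 426542) (nat_lit 29) .nil)))))) (.g (nat_lit 1) (.e (nat_lit 383640) (nat_lit 0) .nil) .nil)))) (.nd (nat_lit 9) 
(.lf (nat_lit 583125) (.g (nat_lit 1421) (.e (nat_lit 360192) (nat_lit 5) (.e (nat_lit 221206) (nat_lit 21) (.e (nat_lit 164326) (nat_lit 230) (.e (nat_lit 163907) (nat_lit 12) (.e (nat_lit 426227) (nat_lit 9) .nil))))) (.g (nat_lit 0) (.e (nat_lit 383106) (nat_lit 0) .nil) .nil))) 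
(.lf (nat_lit 583637) (.g (nat_lit 2378) (.e (nat_lit 360467) (nat_lit 3) (.e (nat_lit 516195) (nat_lit 26) (.e (nat_lit 335988) (nat_lit 1) (.e (nat_lit 57926) (nat_lit 282) (.e (nat_lit 163901) (nat_lit 12) (.e (nat_lit 426544) (nat_lit 30) .nil)))))) (.g (nat_lit 1) (.e (nat_lit 384279) (nat_lit 0) .nil) .nil))))))) (.nd (nat_lit 6) (.nd (nat_lit 7) (.nd (nat_lit 8) (.nd (nat_lit 9) 
(.lf (nat_lit 582709) (.g (nat_lit 1164) (.e (nat_lit 344132) (nat_lit 26) (.e (nat_lit 557093) (nat_lit 12) (.e (nat_lit 164023) (nat_lit 46) (.e (nat_lit 704735) (nat_lit 11) .nil)))) (.g (nat_lit 0) (.e (nat_lit 381706) (nat_lit 0) .nil) .nil))) 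
(.lf (nat_lit 583221) (.g (nat_lit 2173) (.e (nat_lit 352290) (nat_lit 20) (.e (nat_lit 2005) (nat_lit 138) (.e (nat_lit 671763) (nat_lit 5) (.e (nat_lit 73782) (nat_lit 32) (.e (nat_lit 2857) (nat_lit 184) (.e (nat_lit 426542) (nat_lit 29) .nil)))))) (.g (nat_lit 1) (.e (nat_lit 383362) (nat_lit 0) .nil) .nil)))) (.nd (nat_lit 9) 
(.lf (nat_lit 582965) (.g (nat_lit 1995) (.e (nat_lit 344183) (nat_lit 49) (.e (nat_lit 819219) (nat_lit 4) (.e (nat_lit 172106) (nat_lit 10) (.e (nat_lit 434244) (nat_lit 28) (.e (nat_lit 573503) (nat_lit 18) .nil))))) (.g (nat_lit 0) (.e (nat_lit 382489) (nat_lit 0) .nil) .nil))) 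
(.lf (nat_lit 583477) (.g (nat_lit 2379) (.e (nat_lit 360449) (nat_lit 0) (.e (nat_lit 5236) (nat_lit 297) (.e (nat_lit 229415) (nat_lit 15) (.e (nat_lit 450597) (nat_lit 17) (.e (nat_lit 663580) (nat_lit 9) (.e (nat_lit 7936) (nat_lit 24) .nil)))))) (.g (nat_lit 1) (.e (nat_lit 383861) (nat_lit 0) .nil) .nil))))) (.nd (nat_lit 8) (.nd (nat_lit 9) 
(.lf (nat_lit 582837) (.g (nat_lit 3633) (.e (nat_lit 344133) (nat_lit 26) (.e (nat_lit 557105) (nat_lit 14) (.e (nat_lit 180252) (nat_lit 10) (.e (nat_lit 573474) (nat_lit 12) (.e (nat_lit 57507) (nat_lit 39) (.e (nat_lit 647175) (nat_lit 0) (.e (nat_lit 2684) (nat_lit 168) (.e (nat_lit 204863) (nat_lit 27) .nil)))))))) (.g (nat_lit 1) (.e (nat_lit 381932) (nat_lit 0) .nil) .nil))) 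
(.lf (nat_lit 583349) (.g (nat_lit 1643) (.e (nat_lit 352303) (nat_lit 20) (.e (nat_lit 2391) (nat_lit 156) (.e (nat_lit 819204) (nat_lit 0) (.e (nat_lit 3022) (nat_lit 187) (.e (nat_lit 458496) (nat_lit 3) (.e (nat_lit 524032) (nat_lit 28) .nil)))))) (.g (nat_lit 1) (.e (nat_lit 383545) (nat_lit 0) .nil) .nil)))) (.nd (nat_lit 9) 
(.lf (nat_lit 583093) (.g (nat_lit 1717) (.e (nat_lit 360192) (nat_lit 0) (.e (nat_lit 3307) (nat_lit 202) (.e (nat_lit 573485) (nat_lit 13) (.e (nat_lit 65619) (nat_lit 10) (.e (nat_lit 344126) (nat_lit 25) .nil))))) (.g (nat_lit 0) (.e (nat_lit 382993) (nat_lit 0) .nil) .nil))) 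
(.lf (nat_lit 583605) (.g (nat_lit 984) (.e (nat_lit 360467) (nat_lit 3) (.e (nat_lit 516139) (nat_lit 7) (.e (nat_lit 409623) (nat_lit 10) (.e (nat_lit 5612) (nat_lit 312) .nil)))) (.g (nat_lit 0) (.e (nat_lit 384241) (nat_lit 0) .nil) .nil)))))) (.nd (nat_lit 7) (.nd (nat_lit 8) (.nd (nat_lit 9) 
(.lf (nat_lit 582773) (.g (nat_lit 2735) (.e (nat_lit 344132) (nat_lit 26) (.e (nat_lit 557105) (nat_lit 14) (.e (nat_lit 180252) (nat_lit 10) (.e (nat_lit 573503) (nat_lit 18) (.e (nat_lit 1074) (nat_lit 81) (.e (nat_lit 5259) (nat_lit 298) (.e (nat_lit 174) (nat_lit 12) (.e (nat_lit 204864) (nat_lit 27) .nil)))))))) (.g (nat_lit 1) (.e (nat_lit 381813) (nat_lit 0) .nil) .nil))) 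
(.lf (nat_lit 583285) (.g (nat_lit 1509) (.e (nat_lit 352296) (nat_lit 20) (.e (nat_lit 2391) (nat_lit 156) (.e (nat_lit 819204) (nat_lit 0) (.e (nat_lit 3027) (nat_lit 187) (.e (nat_lit 458496) (nat_lit 3) (.e (nat_lit 524032) (nat_lit 28) .nil)))))) (.g (nat_lit 1) (.e (nat_lit 383451) (nat_lit 0) .nil) .nil)))) (.nd (nat_lit 9) 
(.lf (nat_lit 583029) (.g (nat_lit 692) (.e (nat_lit 352265) (nat_lit 0) (.e (nat_lit 3632) (nat_lit 227) (.e (nat_lit 778326) (nat_lit 6) (.e (nat_lit 89856) (nat_lit 8) .nil)))) (.g (nat_lit 0) (.e (nat_lit 382761) (nat_lit 0) .nil) .nil))) 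
(.lf (nat_lit 583541) (.g (nat_lit 4722) (.e (nat_lit 360466) (nat_lit 3) (.e (nat_lit 516138) (nat_lit 7) (.e (nat_lit 409645) (nat_lit 18) (.e (nat_lit 303119) (nat_lit 3) (.e (nat_lit 204869) (nat_lit 29) .nil))))) (.g (nat_lit 1) (.e (nat_lit 384151) (nat_lit 0) .nil) .nil))))) (.nd (nat_lit 8) (.nd (nat_lit 9) 
(.lf (nat_lit 582901) (.g (nat_lit 2806) (.e (nat_lit 344160) (nat_lit 37) (.e (nat_lit 647200) (nat_lit 12) (.e (nat_lit 57575) (nat_lit 55) (.e (nat_lit 778466) (nat_lit 11) (.e (nat_lit 24616) (nat_lit 7) (.e (nat_lit 319533) (nat_lit 16) (.e (nat_lit 286753) (nat_lit 10) .nil))))))) (.g (nat_lit 1) (.e (nat_lit 382242) (nat_lit 0) .nil) .nil))) 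
(.lf (nat_lit 583413) (.g (nat_lit 2601) (.e (nat_lit 352313) (nat_lit 23) (.e (nat_lit 98350) (nat_lit 24) (.e (nat_lit 409645) (nat_lit 18) (.e (nat_lit 303112) (nat_lit 0) (.e (nat_lit 3252) (nat_lit 197) (.e (nat_lit 532548) (nat_lit 11) .nil)))))) (.g (nat_lit 1) (.e (nat_lit 383711) (nat_lit 0) .nil) .nil)))) (.nd (nat_lit 9) 
(.lf (nat_lit 583157) (.g (nat_lit 1251) (.e (nat_lit 360192) (nat_lit 5) (.e (nat_lit 221207) (nat_lit 21) (.e (nat_lit 164326) (nat_lit 230) (.e (nat_lit 163933) (nat_lit 17) (.e (nat_lit 474880) (nat_lit 13) .nil))))) (.g (nat_lit 0) (.e (nat_lit 383148) (nat_lit 0) .nil) .nil))) 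
(.lf (nat_lit 583669) (.g (nat_lit 708) (.e (nat_lit 360477) (nat_lit 11) (.e (nat_lit 581651) (nat_lit 4) (.e (nat_lit 172081) (nat_lit 7) (.e (nat_lit 409612) (nat_lit 10) (.e (nat_lit 934) (nat_lit 76) .nil))))) (.g (nat_lit 0) (.e (nat_lit 384388) (nat_lit 0) .nil) .nil))))))))) (.nd (nat_lit 4) (.nd (nat_lit 5) (.nd (nat_lit 6) (.nd (nat_lit 7) (.nd (nat_lit 8) (.nd (nat_lit 9) 
(.lf (nat_lit 582669) (.g (nat_lit 2465) (.e (nat_lit 344131) (nat_lit 26) (.e (nat_lit 557098) (nat_lit 13) (.e (nat_lit 172045) (nat_lit 0) (.e (nat_lit 3307) (nat_lit 202) (.e (nat_lit 573446) (nat_lit 0) (.e (nat_lit 3067) (nat_lit 190) (.e (nat_lit 483072) (nat_lit 26) (.e (nat_lit 532544) (nat_lit 10) .nil)))))))) (.g (nat_lit 1) (.e (nat_lit 381621) (nat_lit 0) .nil) .nil))) 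
(.lf (nat_lit 583181) (.g (nat_lit 987) (.e (nat_lit 352277) (nat_lit 11) (.e (nat_lit 426108) (nat_lit 1) (.e (nat_lit 164183) (nat_lit 154) .nil))) (.g (nat_lit 0) (.e (nat_lit 383223) (nat_lit 0) .nil) .nil)))) (.nd (nat_lit 9) 
(.lf (nat_lit 582925) (.g (nat_lit 2513) (.e (nat_lit 344161) (nat_lit 37) (.e (nat_lit 647201) (nat_lit 12) (.e (nat_lit 57575) (nat_lit 55) (.e (nat_lit 778466) (nat_lit 11) (.e (nat_lit 24617) (nat_lit 7) (.e (nat_lit 319533) (nat_lit 16) (.e (nat_lit 286752) (nat_lit 10) .nil))))))) (.g (nat_lit 1) (.e (nat_lit 382282) (nat_lit 0) .nil) .nil))) 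
(.lf (nat_lit 583437) (.g (nat_lit 1831) (.e (nat_lit 352315) (nat_lit 23) (.e (nat_lit 98313) (nat_lit 9) (.e (nat_lit 335986) (nat_lit 1) (.e (nat_lit 57927) (nat_lit 282) (.e (nat_lit 163906) (nat_lit 12) (.e (nat_lit 426543) (nat_lit 29) .nil)))))) (.g (nat_lit 1) (.e (nat_lit 383748) (nat_lit 0) .nil) .nil))))) (.nd (nat_lit 8) (.nd (nat_lit 9) 
(.lf (nat_lit 582797) (.g (nat_lit 2674) (.e (nat_lit 344133) (nat_lit 26) (.e (nat_lit 557098) (nat_lit 13) (.e (nat_lit 172063) (nat_lit 2) (.e (nat_lit 196624) (nat_lit 9) (.e (nat_lit 489) (nat_lit 38) (.e (nat_lit 483072) (nat_lit 26) (.e (nat_lit 532544) (nat_lit 10) .nil))))))) (.g (nat_lit 1) (.e (nat_lit 381892) (nat_lit 0) .nil) .nil))) 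
(.lf (nat_lit 583309) (.g (nat_lit 1656) (.e (nat_lit 352297) (nat_lit 20) (.e (nat_lit 2391) (nat_lit 156) (.e (nat_lit 819204) (nat_lit 0) (.e (nat_lit 3027) (nat_lit 187) (.e (nat_lit 458496) (nat_lit 3) (.e (nat_lit 524032) (nat_lit 28) .nil)))))) (.g (nat_lit 1) (.e (nat_lit 383481) (nat_lit 0) .nil) .nil)))) (.nd (nat_lit 9) 
(.lf (nat_lit 583053) (.g (nat_lit 2333) (.e (nat_lit 352267) (nat_lit 0) (.e (nat_lit 3253) (nat_lit 197) (.e (nat_lit 532501) (nat_lit 1) (.e (nat_lit 57854) (nat_lit 252) (.e (nat_lit 57447) (nat_lit 19) (.e (nat_lit 401152) (nat_lit 11) .nil)))))) (.g (nat_lit 1) (.e (nat_lit 382820) (nat_lit 0) .nil) .nil))) 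
(.lf (nat_lit 583565) (.g (nat_lit 442) (.e (nat_lit 360466) (nat_lit 3) (.e (nat_lit 516150) (nat_lit 9) (.e (nat_lit 425986) (nat_lit 0) .nil))) (.g (nat_lit 0) (.e (nat_lit 384186) (nat_lit 0) .nil) .nil)))))) (.nd (nat_lit 7) (.nd (nat_lit 8) (.nd (nat_lit 9) 
(.lf (nat_lit 582733) (.g (nat_lit 1548) (.e (nat_lit 344132) (nat_lit 26) (.e (nat_lit 557094) (nat_lit 12) (.e (nat_lit 164022) (nat_lit 46) (.e (nat_lit 704738) (nat_lit 11) (.e (nat_lit 16397) (nat_lit 0) .nil))))) (.g (nat_lit 0) (.e (nat_lit 381771) (nat_lit 0) .nil) .nil))) 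
(.lf (nat_lit 583245) (.g (nat_lit 835) (.e (nat_lit 352291) (nat_lit 20) (.e (nat_lit 2390) (nat_lit 156) (.e (nat_lit 819203) (nat_lit 0) (.e (nat_lit 3016) (nat_lit 187) (.e (nat_lit 458496) (nat_lit 3) (.e (nat_lit 524032) (nat_lit 28) .nil)))))) (.g (nat_lit 1) (.e (nat_lit 383391) (nat_lit 0) .nil) .nil)))) (.nd (nat_lit 9) 
(.lf (nat_lit 582989) (.g (nat_lit 1532) (.e (nat_lit 352262) (nat_lit 0) (.e (nat_lit 3253) (nat_lit 197) (.e (nat_lit 532504) (nat_lit 1) (.e (nat_lit 57854) (nat_lit 252) (.e (nat_lit 57409) (nat_lit 12) .nil))))) (.g (nat_lit 0) (.e (nat_lit 382628) (nat_lit 0) .nil) .nil))) 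
(.lf (nat_lit 583501) (.g (nat_lit 2142) (.e (nat_lit 360456) (nat_lit 0) (.e (nat_lit 5949) (nat_lit 322) (.e (nat_lit 57350) (nat_lit 0) (.e (nat_lit 6113) (nat_lit 332) (.e (nat_lit 2810) (nat_lit 180) (.e (nat_lit 303127) (nat_lit 9) (.e (nat_lit 426546) (nat_lit 30) .nil))))))) (.g (nat_lit 1) (.e (nat_lit 383975) (nat_lit 0) .nil) .nil))))) (.nd (nat_lit 8) (.nd (nat_lit 9) 
(.lf (nat_lit 582861) (.g (nat_lit 2621) (.e (nat_lit 344157) (nat_lit 36) (.e (nat_lit 638999) (nat_lit 8) (.e (nat_lit 172094) (nat_lit 9) (.e (nat_lit 426109) (nat_lit 1) (.e (nat_lit 164319) (nat_lit 228) (.e (nat_lit 57412) (nat_lit 12) (.e (nat_lit 336176) (nat_lit 10) .nil))))))) (.g (nat_lit 1) (.e (nat_lit 382139) (nat_lit 0) .nil) .nil))) 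
(.lf (nat_lit 583373) (.g (nat_lit 811) (.e (nat_lit 352309) (nat_lit 21) (.e (nat_lit 57822) (nat_lit 250) (.e (nat_lit 2630) (nat_lit 164) (.e (nat_lit 172106) (nat_lit 10) .nil)))) (.g (nat_lit 0) (.e (nat_lit 383629) (nat_lit 0) .nil) .nil)))) (.nd (nat_lit 9) 
(.lf (nat_lit 583117) (.g (nat_lit 1638) (.e (nat_lit 360192) (nat_lit 5) (.e (nat_lit 221206) (nat_lit 21) (.e (nat_lit 164324) (nat_lit 230) (.e (nat_lit 163933) (nat_lit 17) (.e (nat_lit 474880) (nat_lit 13) .nil))))) (.g (nat_lit 0) (.e (nat_lit 383097) (nat_lit 0) .nil) .nil))) 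
(.lf (nat_lit 583629) (.g (nat_lit 1112) (.e (nat_lit 360467) (nat_lit 3) (.e (nat_lit 516141) (nat_lit 8) (.e (nat_lit 417820) (nat_lit 10) (.e (nat_lit 5761) (nat_lit 315) (.e (nat_lit 163962) (nat_lit 25) .nil))))) (.g (nat_lit 0) (.e (nat_lit 384270) (nat_lit 0) .nil) .nil))))))) (.nd (nat_lit 6) (.nd (nat_lit 7) (.nd (nat_lit 8) (.nd (nat_lit 9) 
(.lf (nat_lit 582701) (.g (nat_lit 3644) (.e (nat_lit 344132) (nat_lit 26) (.e (nat_lit 557073) (nat_lit 9) (.e (nat_lit 214) (nat_lit 19) (.e (nat_lit 319490) (nat_lit 0) (.e (nat_lit 5761) (nat_lit 315) (.e (nat_lit 163962) (nat_lit 25) (.e (nat_lit 532535) (nat_lit 9) (.e (nat_lit 336176) (nat_lit 10) .nil)))))))) (.g (nat_lit 1) (.e (nat_lit 381667) (nat_lit 0) .nil) .nil))) 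
(.lf (nat_lit 583213) (.g (nat_lit 2947) (.e (nat_lit 352283) (nat_lit 20) (.e (nat_lit 1994) (nat_lit 137) (.e (nat_lit 663567) (nat_lit 4) (.e (nat_lit 65628) (nat_lit 14) (.e (nat_lit 401437) (nat_lit 9) (.e (nat_lit 426542) (nat_lit 29) .nil)))))) (.g (nat_lit 1) (.e (nat_lit 383321) (nat_lit 0) .nil) .nil)))) (.nd (nat_lit 9) 
(.lf (nat_lit 582957) (.g (nat_lit 3371) (.e (nat_lit 344180) (nat_lit 44) (.e (nat_lit 778460) (nat_lit 11) (.e (nat_lit 24658) (nat_lit 13) (.e (nat_lit 393301) (nat_lit 27) (.e (nat_lit 491558) (nat_lit 10) .nil))))) (.g (nat_lit 1) (.e (nat_lit 382386) (nat_lit 0) .nil) .nil))) 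
(.lf (nat_lit 583469) (.g (nat_lit 1756) (.e (nat_lit 352318) (nat_lit 24) (.e (nat_lit 123182) (nat_lit 264) (.e (nat_lit 1201) (nat_lit 88) (.e (nat_lit 65622) (nat_lit 12) .nil)))) (.g (nat_lit 0) (.e (nat_lit 383831) (nat_lit 0) .nil) .nil))))) (.nd (nat_lit 8) (.nd (nat_lit 9) 
(.lf (nat_lit 582829) (.g (nat_lit 2992) (.e (nat_lit 344133) (nat_lit 26) (.e (nat_lit 557103) (nat_lit 14) (.e (nat_lit 180250) (nat_lit 10) (.e (nat_lit 573475) (nat_lit 12) (.e (nat_lit 57508) (nat_lit 39) (.e (nat_lit 655104) (nat_lit 0) (.e (nat_lit 2684) (nat_lit 168) (.e (nat_lit 204863) (nat_lit 27) .nil)))))))) (.g (nat_lit 1) (.e (nat_lit 381924) (nat_lit 0) .nil) .nil))) 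
(.lf (nat_lit 583341) (.g (nat_lit 1317) (.e (nat_lit 352303) (nat_lit 20) (.e (nat_lit 2390) (nat_lit 156) (.e (nat_lit 819204) (nat_lit 0) (.e (nat_lit 3022) (nat_lit 187) (.e (nat_lit 458496) (nat_lit 3) (.e (nat_lit 524032) (nat_lit 28) .nil)))))) (.g (nat_lit 1) (.e (nat_lit 383532) (nat_lit 0) .nil) .nil)))) (.nd (nat_lit 9) 
(.lf (nat_lit 583085) (.g (nat_lit 2024) (.e (nat_lit 360192) (nat_lit 0) (.e (nat_lit 3253) (nat_lit 197) (.e (nat_lit 532504) (nat_lit 1) (.e (nat_lit 57852) (nat_lit 252) (.e (nat_lit 57447) (nat_lit 19) .nil))))) (.g (nat_lit 0) (.e (nat_lit 382911) (nat_lit 0) .nil) .nil))) 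
(.lf (nat_lit 583597) (.g (nat_lit 2966) (.e (nat_lit 360467) (nat_lit 3) (.e (nat_lit 516138) (nat_lit 7) (.e (nat_lit 409646) (nat_lit 18) (.e (nat_lit 303112) (nat_lit 0) (.e (nat_lit 3252) (nat_lit 197) (.e (nat_lit 532551) (nat_lit 12) .nil)))))) (.g (nat_lit 1) (.e (nat_lit 384228) (nat_lit 0) .nil) .nil)))))) (.nd (nat_lit 7) (.nd (nat_lit 8) (.nd (nat_lit 9) 
(.lf (nat_lit 582765) (.g (nat_lit 2635) (.e (nat_lit 344132) (nat_lit 26) (.e (nat_lit 557105) (nat_lit 14) (.e (nat_lit 180252) (nat_lit 10) (.e (nat_lit 573475) (nat_lit 12) (.e (nat_lit 57507) (nat_lit 39) (.e (nat_lit 647176) (nat_lit 0) (.e (nat_lit 2681) (nat_lit 168) (.e (nat_lit 204862) (nat_lit 27) .nil)))))))) (.g (nat_lit 1) (.e (nat_lit 381805) (nat_lit 0) .nil) .nil))) 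
(.lf (nat_lit 583277) (.g (nat_lit 1167) (.e (nat_lit 352296) (nat_lit 20) (.e (nat_lit 2390) (nat_lit 156) (.e (nat_lit 819204) (nat_lit 0) (.e (nat_lit 3027) (nat_lit 187) (.e (nat_lit 458496) (nat_lit 3) (.e (nat_lit 524032) (nat_lit 28) .nil)))))) (.g (nat_lit 1) (.e (nat_lit 383439) (nat_lit 0) .nil) .nil)))) (.nd (nat_lit 9) 
(.lf (nat_lit 583021) (.g (nat_lit 2387) (.e (nat_lit 352265) (nat_lit 0) (.e (nat_lit 3253) (nat_lit 197) (.e (nat_lit 532504) (nat_lit 1) (.e (nat_lit 57851) (nat_lit 252) (.e (nat_lit 57446) (nat_lit 19) (.e (nat_lit 401152) (nat_lit 11) .nil)))))) (.g (nat_lit 1) (.e (nat_lit 382738) (nat_lit 0) .nil) .nil))) 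
(.lf (nat_lit 583533) (.g (nat_lit 1092) (.e (nat_lit 360466) (nat_lit 3) (.e (nat_lit 516115) (nat_lit 1) (.e (nat_lit 164148) (nat_lit 152) (.e (nat_lit 1206) (nat_lit 89) .nil)))) (.g (nat_lit 0) (.e (nat_lit 384124) (nat_lit 0) .nil) .nil))))) (.nd (nat_lit 8) (.nd (nat_lit 9) 
(.lf (nat_lit 582893) (.g (nat_lit 1109) (.e (nat_lit 344160) (nat_lit 37) (.e (nat_lit 647183) (nat_lit 4) (.e (nat_lit 172147) (nat_lit 27) (.e (nat_lit 336163) (nat_lit 10) (.e (nat_lit 344107) (nat_lit 19) .nil))))) (.g (nat_lit 0) (.e (nat_lit 382224) (nat_lit 0) .nil) .nil))) 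
(.lf (nat_lit 583405) (.g (nat_lit 2377) (.e (nat_lit 352313) (nat_lit 23) (.e (nat_lit 98349) (nat_lit 24) (.e (nat_lit 409646) (nat_lit 18) (.e (nat_lit 303112) (nat_lit 0) (.e (nat_lit 3252) (nat_lit 197) .nil))))) (.g (nat_lit 0) (.e (nat_lit 383697) (nat_lit 0) .nil) .nil)))) (.nd (nat_lit 9) 
(.lf (nat_lit 583149) (.g (nat_lit 2145) (.e (nat_lit 360192) (nat_lit 5) (.e (nat_lit 221207) (nat_lit 21) (.e (nat_lit 164325) (nat_lit 230) (.e (nat_lit 163907) (nat_lit 12) (.e (nat_lit 426227) (nat_lit 9) .nil))))) (.g (nat_lit 0) (.e (nat_lit 383138) (nat_lit 0) .nil) .nil))) 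
(.lf (nat_lit 583661) (.g (nat_lit 291) (.e (nat_lit 368384) (nat_lit 10) (.e (nat_lit 573445) (nat_lit 0) (.e (nat_lit 2984) (nat_lit 186) (.e (nat_lit 442391) (nat_lit 19) (.e (nat_lit 409344) (nat_lit 30) .nil))))) (.g (nat_lit 0) (.e (nat_lit 384372) (nat_lit 0) .nil) .nil)))))))) (.nd (nat_lit 5) (.nd (nat_lit 6) (.nd (nat_lit 7) (.nd (nat_lit 8) (.nd (nat_lit 9) 
(.lf (nat_lit 582685) (.g (nat_lit 1982) (.e (nat_lit 344131) (nat_lit 26) (.e (nat_lit 557103) (nat_lit 14) (.e (nat_lit 180250) (nat_lit 10) (.e (nat_lit 573478) (nat_lit 12) (.e (nat_lit 57511) (nat_lit 39) .nil))))) (.g (nat_lit 0) (.e (nat_lit 381637) (nat_lit 0) .nil) .nil))) 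
(.lf (nat_lit 583197) (.g (nat_lit 3614) (.e (nat_lit 352277) (nat_lit 11) (.e (nat_lit 426500) (nat_lit 27) (.e (nat_lit 335988) (nat_lit 1) (.e (nat_lit 57931) (nat_lit 282) (.e (nat_lit 163874) (nat_lit 3) (.e (nat_lit 204866) (nat_lit 28) .nil)))))) (.g (nat_lit 1) (.e (nat_lit 383247) (nat_lit 0) .nil) .nil)))) (.nd (nat_lit 9) 
(.lf (nat_lit 582941) (.g (nat_lit 901) (.e (nat_lit 344179) (nat_lit 44) (.e (nat_lit 778465) (nat_lit 11) (.e (nat_lit 24626) (nat_lit 9) .nil))) (.g (nat_lit 0) (.e (nat_lit 382365) (nat_lit 0) .nil) .nil))) 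
(.lf (nat_lit 583453) (.g (nat_lit 3093) (.e (nat_lit 352315) (nat_lit 23) (.e (nat_lit 98350) (nat_lit 24) (.e (nat_lit 409645) (nat_lit 18) (.e (nat_lit 303112) (nat_lit 0) (.e (nat_lit 3252) (nat_lit 197) (.e (nat_lit 532546) (nat_lit 11) .nil)))))) (.g (nat_lit 1) (.e (nat_lit 383782) (nat_lit 0) .nil) .nil))))) (.nd (nat_lit 8) (.nd (nat_lit 9) 
(.lf (nat_lit 582813) (.g (nat_lit 4001) (.e (nat_lit 344133) (nat_lit 26) (.e (nat_lit 557103) (nat_lit 14) (.e (nat_lit 180250) (nat_lit 10) (.e (nat_lit 573474) (nat_lit 12) (.e (nat_lit 57507) (nat_lit 39) (.e (nat_lit 647170) (nat_lit 0) (.e (nat_lit 2685) (nat_lit 168) (.e (nat_lit 204863) (nat_lit 27) .nil)))))))) (.g (nat_lit 1) (.e (nat_lit 381908) (nat_lit 0) .nil) .nil))) 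
(.lf (nat_lit 583325) (.g (nat_lit 1190) (.e (nat_lit 352302) (nat_lit 20) (.e (nat_lit 2391) (nat_lit 156) (.e (nat_lit 819203) (nat_lit 0) (.e (nat_lit 3022) (nat_lit 187) (.e (nat_lit 458496) (nat_lit 3) (.e (nat_lit 524032) (nat_lit 28) .nil)))))) (.g (nat_lit 1) (.e (nat_lit 383508) (nat_lit 0) .nil) .nil)))) (.nd (nat_lit 9) 
(.lf (nat_lit 583069) (.g (nat_lit 1825) (.e (nat_lit 352267) (nat_lit 0) (.e (nat_lit 3305) (nat_lit 202) (.e (nat_lit 573485) (nat_lit 13) (.e (nat_lit 65619) (nat_lit 10) (.e (nat_lit 344126) (nat_lit 25) .nil))))) (.g (nat_lit 0) (.e (nat_lit 382880) (nat_lit 0) .nil) .nil))) 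
(.lf (nat_lit 583581) (.g (nat_lit 3323) (.e (nat_lit 360466) (nat_lit 3) (.e (nat_lit 516195) (nat_lit 26) (.e (nat_lit 335986) (nat_lit 1) (.e (nat_lit 57931) (nat_lit 282) (.e (nat_lit 163902) (nat_lit 12) (.e (nat_lit 426546) (nat_lit 30) .nil)))))) (.g (nat_lit 1) (.e (nat_lit 384208) (nat_lit 0) .nil) .nil)))))) (.nd (nat_lit 7) (.nd (nat_lit 8) (.nd (nat_lit 9) 
(.lf (nat_lit 582749) (.g (nat_lit 3399) (.e (nat_lit 344132) (nat_lit 26) (.e (nat_lit 557105) (nat_lit 14) (.e (nat_lit 180252) (nat_lit 10) (.e (nat_lit 573474) (nat_lit 12) (.e (nat_lit 57359) (nat_lit 0) .nil))))) (.g (nat_lit 0) (.e (nat_lit 381789) (nat_lit 0) .nil) .nil))) 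
(.lf (nat_lit 583261) (.g (nat_lit 2348) (.e (nat_lit 352293) (nat_lit 20) (.e (nat_lit 1859) (nat_lit 124) (.e (nat_lit 557066) (nat_lit 9) (.e (nat_lit 232) (nat_lit 21) (.e (nat_lit 336060) (nat_lit 7) .nil))))) (.g (nat_lit 0) (.e (nat_lit 383416) (nat_lit 0) .nil) .nil)))) (.nd (nat_lit 9) 
(.lf (nat_lit 583005) (.g (nat_lit 3072) (.e (nat_lit 352262) (nat_lit 0) (.e (nat_lit 3632) (nat_lit 227) (.e (nat_lit 778323) (nat_lit 5) (.e (nat_lit 73782) (nat_lit 32) (.e (nat_lit 2856) (nat_lit 184) (.e (nat_lit 426539) (nat_lit 29) .nil)))))) (.g (nat_lit 1) (.e (nat_lit 382701) (nat_lit 0) .nil) .nil))) 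
(.lf (nat_lit 583517) (.g (nat_lit 1425) (.e (nat_lit 368384) (nat_lit 0) (.e (nat_lit 5905) (nat_lit 320) (.e (nat_lit 1221) (nat_lit 90) (.e (nat_lit 81923) (nat_lit 0) .nil)))) (.g (nat_lit 0) (.e (nat_lit 384049) (nat_lit 0) .nil) .nil))))) (.nd (nat_lit 8) (.nd (nat_lit 9) 
(.lf (nat_lit 582877) (.g (nat_lit 2262) (.e (nat_lit 344168) (nat_lit 40) (.e (nat_lit 671763) (nat_lit 5) (.e (nat_lit 73781) (nat_lit 32) (.e (nat_lit 3089) (nat_lit 191) (.e (nat_lit 483395) (nat_lit 24) .nil))))) (.g (nat_lit 1) (.e (nat_lit 382179) (nat_lit 0) .nil) .nil))) 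
(.lf (nat_lit 583389) (.g (nat_lit 1401) (.e (nat_lit 352309) (nat_lit 21) (.e (nat_lit 57854) (nat_lit 252) (.e (nat_lit 57389) (nat_lit 5) (.e (nat_lit 114697) (nat_lit 11) .nil)))) (.g (nat_lit 0) (.e (nat_lit 383648) (nat_lit 0) .nil) .nil)))) (.nd (nat_lit 9) 
(.lf (nat_lit 583133) (.g (nat_lit 1073) (.e (nat_lit 360192) (nat_lit 5) (.e (nat_lit 221206) (nat_lit 21) (.e (nat_lit 164330) (nat_lit 230) (.e (nat_lit 163846) (nat_lit 0) .nil)))) (.g (nat_lit 0) (.e (nat_lit 383117) (nat_lit 0) .nil) .nil))) 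
(.lf (nat_lit 583645) (.g (nat_lit 3519) (.e (nat_lit 360468) (nat_lit 3) (.e (nat_lit 516139) (nat_lit 7) (.e (nat_lit 409647) (nat_lit 18) (.e (nat_lit 303119) (nat_lit 3) (.e (nat_lit 204868) (nat_lit 29) .nil))))) (.g (nat_lit 1) (.e (nat_lit 384335) (nat_lit 0) .nil) .nil))))))) (.nd (nat_lit 6) (.nd (nat_lit 7) (.nd (nat_lit 8) (.nd (nat_lit 9) 
(.lf (nat_lit 582717) (.g (nat_lit 3938) (.e (nat_lit 344132) (nat_lit 26) (.e (nat_lit 557094) (nat_lit 12) (.e (nat_lit 163847) (nat_lit 0) (.e (nat_lit 6421) (nat_lit 341) (.e (nat_lit 163900) (nat_lit 12) (.e (nat_lit 426125) (nat_lit 2) (.e (nat_lit 196666) (nat_lit 13) (.e (nat_lit 65617) (nat_lit 10) .nil)))))))) (.g (nat_lit 1) (.e (nat_lit 381727) (nat_lit 0) .nil) .nil))) 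
(.lf (nat_lit 583229) (.g (nat_lit 839) (.e (nat_lit 352290) (nat_lit 20) (.e (nat_lit 2390) (nat_lit 156) (.e (nat_lit 819203) (nat_lit 0) (.e (nat_lit 3015) (nat_lit 187) (.e (nat_lit 458496) (nat_lit 3) .nil))))) (.g (nat_lit 0) (.e (nat_lit 383370) (nat_lit 0) .nil) .nil)))) (.nd (nat_lit 9) 
(.lf (nat_lit 582973) (.g (nat_lit 711) (.e (nat_lit 344183) (nat_lit 49) (.e (nat_lit 819221) (nat_lit 6) (.e (nat_lit 188441) (nat_lit 20) (.e (nat_lit 3288) (nat_lit 201) (.e (nat_lit 565267) (nat_lit 4) .nil))))) (.g (nat_lit 0) (.e (nat_lit 382501) (nat_lit 0) .nil) .nil))) 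
(.lf (nat_lit 583485) (.g (nat_lit 1653) (.e (nat_lit 360450) (nat_lit 0) (.e (nat_lit 7710) (nat_lit 414) (.e (nat_lit 163922) (nat_lit 15) (.e (nat_lit 450577) (nat_lit 4) (.e (nat_lit 532224) (nat_lit 29) .nil))))) (.g (nat_lit 1) (.e (nat_lit 383884) (nat_lit 0) .nil) .nil))))) (.nd (nat_lit 8) (.nd (nat_lit 9) 
(.lf (nat_lit 582845) (.g (nat_lit 1951) (.e (nat_lit 344133) (nat_lit 26) (.e (nat_lit 557119) (nat_lit 18) (.e (nat_lit 2798) (nat_lit 180) (.e (nat_lit 303145) (nat_lit 13) (.e (nat_lit 491264) (nat_lit 16) .nil))))) (.g (nat_lit 0) (.e (nat_lit 381940) (nat_lit 0) .nil) .nil))) 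
(.lf (nat_lit 583357) (.g (nat_lit 2225) (.e (nat_lit 352307) (nat_lit 21) (.e (nat_lit 57847) (nat_lit 252) (.e (nat_lit 57388) (nat_lit 5) (.e (nat_lit 114698) (nat_lit 11) (.e (nat_lit 426197) (nat_lit 9) .nil))))) (.g (nat_lit 0) (.e (nat_lit 383578) (nat_lit 0) .nil) .nil)))) (.nd (nat_lit 9) 
(.lf (nat_lit 583101) (.g (nat_lit 914) (.e (nat_lit 360192) (nat_lit 0) (.e (nat_lit 3605) (nat_lit 225) (.e (nat_lit 761905) (nat_lit 16) (.e (nat_lit 172113) (nat_lit 10) .nil)))) (.g (nat_lit 0) (.e (nat_lit 383047) (nat_lit 0) .nil) .nil))) 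
(.lf (nat_lit 583613) (.g (nat_lit 2766) (.e (nat_lit 360467) (nat_lit 3) (.e (nat_lit 516139) (nat_lit 7) (.e (nat_lit 409646) (nat_lit 18) (.e (nat_lit 303112) (nat_lit 0) (.e (nat_lit 3252) (nat_lit 197) (.e (nat_lit 532551) (nat_lit 12) .nil)))))) (.g (nat_lit 1) (.e (nat_lit 384250) (nat_lit 0) .nil) .nil)))))) (.nd (nat_lit 7) (.nd (nat_lit 8) (.nd (nat_lit 9) 
(.lf (nat_lit 582781) (.g (nat_lit 4330) (.e (nat_lit 344133) (nat_lit 26) (.e (nat_lit 557087) (nat_lit 11) (.e (nat_lit 24617) (nat_lit 7) (.e (nat_lit 319505) (nat_lit 10) (.e (nat_lit 7936) (nat_lit 45) (.e (nat_lit 532535) (nat_lit 9) (.e (nat_lit 336171) (nat_lit 10) .nil))))))) (.g (nat_lit 1) (.e (nat_lit 381830) (nat_lit 0) .nil) .nil))) 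
(.lf (nat_lit 583293) (.g (nat_lit 2446) (.e (nat_lit 352297) (nat_lit 20) (.e (nat_lit 2006) (nat_lit 138) (.e (nat_lit 671763) (nat_lit 5) (.e (nat_lit 73782) (nat_lit 32) (.e (nat_lit 2857) (nat_lit 184) (.e (nat_lit 426542) (nat_lit 29) .nil)))))) (.g (nat_lit 1) (.e (nat_lit 383460) (nat_lit 0) .nil) .nil)))) (.nd (nat_lit 9) 
(.lf (nat_lit 583037) (.g (nat_lit 2359) (.e (nat_lit 352266) (nat_lit 0) (.e (nat_lit 3253) (nat_lit 197) (.e (nat_lit 532503) (nat_lit 1) (.e (nat_lit 57848) (nat_lit 252) (.e (nat_lit 57446) (nat_lit 19) (.e (nat_lit 401152) (nat_lit 11) .nil)))))) (.g (nat_lit 1) (.e (nat_lit 382774) (nat_lit 0) .nil) .nil))) 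
(.lf (nat_lit 583549) (.g (nat_lit 3604) (.e (nat_lit 360466) (nat_lit 3) (.e (nat_lit 516139) (nat_lit 7) (.e (nat_lit 409646) (nat_lit 18) (.e (nat_lit 303118) (nat_lit 3) (.e (nat_lit 204868) (nat_lit 29) .nil))))) (.g (nat_lit 1) (.e (nat_lit 384162) (nat_lit 0) .nil) .nil))))) (.nd (nat_lit 8) (.nd (nat_lit 9) 
(.lf (nat_lit 582909) (.g (nat_lit 2276) (.e (nat_lit 344160) (nat_lit 37) (.e (nat_lit 647201) (nat_lit 12) (.e (nat_lit 57575) (nat_lit 55) (.e (nat_lit 778466) (nat_lit 11) (.e (nat_lit 24616) (nat_lit 7) .nil))))) (.g (nat_lit 0) (.e (nat_lit 382250) (nat_lit 0) .nil) .nil))) 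
(.lf (nat_lit 583421) (.g (nat_lit 596) (.e (nat_lit 352314) (nat_lit 23) (.e (nat_lit 98349) (nat_lit 24) (.e (nat_lit 409643) (nat_lit 18) .nil))) (.g (nat_lit 0) (.e (nat_lit 383725) (nat_lit 0) .nil) .nil)))) (.nd (nat_lit 9) 
(.lf (nat_lit 583165) (.g (nat_lit 820) (.e (nat_lit 352273) (nat_lit 11) (.e (nat_lit 426107) (nat_lit 1) (.e (nat_lit 164182) (nat_lit 154) .nil))) (.g (nat_lit 0) (.e (nat_lit 383184) (nat_lit 0) .nil) .nil))) 
(.lf (nat_lit 583677) (.g (nat_lit 1636) (.e (nat_lit 360472) (nat_lit 8) (.e (nat_lit 557090) (nat_lit 12) (.e (nat_lit 164020) (nat_lit 45) (.e (nat_lit 696328) (nat_lit 5) .nil)))) (.g (nat_lit 0) (.e (nat_lit 384399) (nat_lit 0) .nil) .nil))))))))))) (.nd (nat_lit 2) (.nd (nat_lit 3) (.nd (nat_lit 4) (.nd (nat_lit 5) (.nd (nat_lit 6) (.nd (nat_lit 7) (.nd (nat_lit 8) (.nd (nat_lit 9) 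
(.lf (nat_lit 582659) (.g (nat_lit 2767) (.e (nat_lit 344130) (nat_lit 26) (.e (nat_lit 557104) (nat_lit 14) (.e (nat_lit 180252) (nat_lit 10) (.e (nat_lit 573475) (nat_lit 12) (.e (nat_lit 57508) (nat_lit 39) (.e (nat_lit 647175) (nat_lit 0) (.e (nat_lit 2684) (nat_lit 168) (.e (nat_lit 204863) (nat_lit 27) .nil)))))))) (.g (nat_lit 1) (.e (nat_lit 381608) (nat_lit 0) .nil) .nil))) 
(.lf (nat_lit 583171) (.g (nat_lit 1640) (.e (nat_lit 352275) (nat_lit 11) (.e (nat_lit 426341) (nat_lit 14) (.e (nat_lit 491560) (nat_lit 10) (.e (nat_lit 344177) (nat_lit 43) .nil)))) (.g (nat_lit 0) (.e (nat_lit 383198) (nat_lit 0) .nil) .nil)))) (.nd (nat_lit 9) 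
(.lf (nat_lit 582915) (.g (nat_lit 1966) (.e (nat_lit 344161) (nat_lit 37) (.e (nat_lit 647183) (nat_lit 4) (.e (nat_lit 172147) (nat_lit 27) (.e (nat_lit 336185) (nat_lit 11) (.e (nat_lit 368676) (nat_lit 21) (.e (nat_lit 524032) (nat_lit 27) .nil)))))) (.g (nat_lit 1) (.e (nat_lit 382264) (nat_lit 0) .nil) .nil))) 
(.lf (nat_lit 583427) (.g (nat_lit 2236) (.e (nat_lit 352314) (nat_lit 23) (.e (nat_lit 98350) (nat_lit 24) (.e (nat_lit 409623) (nat_lit 10) (.e (nat_lit 5664) (nat_lit 312) (.e (nat_lit 2679) (nat_lit 168) (.e (nat_lit 204865) (nat_lit 28) .nil)))))) (.g (nat_lit 1) (.e (nat_lit 383736) (nat_lit 0) .nil) .nil))))) (.nd (nat_lit 8) (.nd (nat_lit 9) 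
(.lf (nat_lit 582787) (.g (nat_lit 1838) (.e (nat_lit 344133) (nat_lit 26) (.e (nat_lit 557090) (nat_lit 12) (.e (nat_lit 164020) (nat_lit 45) (.e (nat_lit 696327) (nat_lit 5) .nil)))) (.g (nat_lit 0) (.e (nat_lit 381850) (nat_lit 0) .nil) .nil))) 
(.lf (nat_lit 583299) (.g (nat_lit 1256) (.e (nat_lit 352297) (nat_lit 20) (.e (nat_lit 2390) (nat_lit 156) (.e (nat_lit 819204) (nat_lit 0) (.e (nat_lit 3016) (nat_lit 187) (.e (nat_lit 458496) (nat_lit 3) (.e (nat_lit 524032) (nat_lit 28) .nil)))))) (.g (nat_lit 1) (.e (nat_lit 383467) (nat_lit 0) .nil) .nil)))) (.nd (nat_lit 9) 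
(.lf (nat_lit 583043) (.g (nat_lit 1017) (.e (nat_lit 352266) (nat_lit 0) (.e (nat_lit 3631) (nat_lit 227) (.e (nat_lit 778323) (nat_lit 5) (.e (nat_lit 81664) (nat_lit 32) .nil)))) (.g (nat_lit 0) (.e (nat_lit 382808) (nat_lit 0) .nil) .nil))) 
(.lf (nat_lit 583555) (.g (nat_lit 2073) (.e (nat_lit 360466) (nat_lit 3) (.e (nat_lit 516139) (nat_lit 7) (.e (nat_lit 409648) (nat_lit 18) (.e (nat_lit 303112) (nat_lit 0) .nil)))) (.g (nat_lit 0) (.e (nat_lit 384168) (nat_lit 0) .nil) .nil)))))) (.nd (nat_lit 7) (.nd (nat_lit 8) (.nd (nat_lit 9) 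
(.lf (nat_lit 582723) (.g (nat_lit 3730) (.e (nat_lit 344132) (nat_lit 26) (.e (nat_lit 557094) (nat_lit 12) (.e (nat_lit 164018) (nat_lit 45) (.e (nat_lit 696328) (nat_lit 5) (.e (nat_lit 2884) (nat_lit 184) (.e (nat_lit 426125) (nat_lit 2) (.e (nat_lit 196666) (nat_lit 13) (.e (nat_lit 65617) (nat_lit 10) .nil)))))))) (.g (nat_lit 1) (.e (nat_lit 381744) (nat_lit 0) .nil) .nil))) 
(.lf (nat_lit 583235) (.g (nat_lit 1213) (.e (nat_lit 352290) (nat_lit 20) (.e (nat_lit 2391) (nat_lit 156) (.e (nat_lit 819203) (nat_lit 0) (.e (nat_lit 3015) (nat_lit 187) (.e (nat_lit 458496) (nat_lit 3) .nil))))) (.g (nat_lit 0) (.e (nat_lit 383378) (nat_lit 0) .nil) .nil)))) (.nd (nat_lit 9) 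
(.lf (nat_lit 582979) (.g (nat_lit 2936) (.e (nat_lit 352261) (nat_lit 0) (.e (nat_lit 3302) (nat_lit 202) (.e (nat_lit 573482) (nat_lit 13) (.e (nat_lit 65630) (nat_lit 14) (.e (nat_lit 401428) (nat_lit 3) .nil))))) (.g (nat_lit 0) (.e (nat_lit 382575) (nat_lit 0) .nil) .nil))) 
(.lf (nat_lit 583491) (.g (nat_lit 2085) (.e (nat_lit 360451) (nat_lit 0) (.e (nat_lit 7710) (nat_lit 414) (.e (nat_lit 163908) (nat_lit 12) (.e (nat_lit 426285) (nat_lit 10) (.e (nat_lit 434229) (nat_lit 22) (.e (nat_lit 532224) (nat_lit 29) .nil)))))) (.g (nat_lit 1) (.e (nat_lit 383903) (nat_lit 0) .nil) .nil))))) (.nd (nat_lit 8) (.nd (nat_lit 9) 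
(.lf (nat_lit 582851) (.g (nat_lit 1158) (.e (nat_lit 344157) (nat_lit 36) (.e (nat_lit 638985) (nat_lit 5) (.e (nat_lit 3027) (nat_lit 187) (.e (nat_lit 450564) (nat_lit 0) (.e (nat_lit 5190) (nat_lit 294) .nil))))) (.g (nat_lit 0) (.e (nat_lit 382089) (nat_lit 0) .nil) .nil))) 
(.lf (nat_lit 583363) (.g (nat_lit 867) (.e (nat_lit 352307) (nat_lit 21) (.e (nat_lit 57851) (nat_lit 252) (.e (nat_lit 57388) (nat_lit 5) (.e (nat_lit 114696) (nat_lit 11) .nil)))) (.g (nat_lit 0) (.e (nat_lit 383584) (nat_lit 0) .nil) .nil)))) (.nd (nat_lit 9) 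
(.lf (nat_lit 583107) (.g (nat_lit 1288) (.e (nat_lit 360192) (nat_lit 3) (.e (nat_lit 204830) (nat_lit 18) (.e (nat_lit 57852) (nat_lit 252) (.e (nat_lit 57419) (nat_lit 12) .nil)))) (.g (nat_lit 0) (.e (nat_lit 383060) (nat_lit 0) .nil) .nil))) 
(.lf (nat_lit 583619) (.g (nat_lit 2778) (.e (nat_lit 360467) (nat_lit 3) (.e (nat_lit 516139) (nat_lit 7) (.e (nat_lit 409648) (nat_lit 18) (.e (nat_lit 303112) (nat_lit 0) (.e (nat_lit 3258) (nat_lit 198) .nil))))) (.g (nat_lit 0) (.e (nat_lit 384256) (nat_lit 0) .nil) .nil))))))) (.nd (nat_lit 6) (.nd (nat_lit 7) (.nd (nat_lit 8) (.nd (nat_lit 9) 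
(.lf (nat_lit 582691) (.g (nat_lit 2492) (.e (nat_lit 344131) (nat_lit 26) (.e (nat_lit 557105) (nat_lit 14) (.e (nat_lit 180252) (nat_lit 10) (.e (nat_lit 573475) (nat_lit 12) (.e (nat_lit 57345) (nat_lit 0) .nil))))) (.g (nat_lit 0) (.e (nat_lit 381643) (nat_lit 0) .nil) .nil))) 
(.lf (nat_lit 583203) (.g (nat_lit 2101) (.e (nat_lit 352277) (nat_lit 11) (.e (nat_lit 426500) (nat_lit 27) (.e (nat_lit 335996) (nat_lit 1) (.e (nat_lit 57931) (nat_lit 282) (.e (nat_lit 163872) (nat_lit 3) .nil))))) (.g (nat_lit 0) (.e (nat_lit 383263) (nat_lit 0) .nil) .nil)))) (.nd (nat_lit 9) 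
(.lf (nat_lit 582947) (.g (nat_lit 2630) (.e (nat_lit 344179) (nat_lit 44) (.e (nat_lit 778466) (nat_lit 11) (.e (nat_lit 24617) (nat_lit 7) (.e (nat_lit 319505) (nat_lit 10) (.e (nat_lit 720) (nat_lit 64) (.e (nat_lit 688175) (nat_lit 16) (.e (nat_lit 65615) (nat_lit 10) .nil))))))) (.g (nat_lit 1) (.e (nat_lit 382375) (nat_lit 0) .nil) .nil))) 
(.lf (nat_lit 583459) (.g (nat_lit 2386) (.e (nat_lit 352315) (nat_lit 23) (.e (nat_lit 98367) (nat_lit 27) (.e (nat_lit 434275) (nat_lit 39) (.e (nat_lit 663580) (nat_lit 9) (.e (nat_lit 39) (nat_lit 0) .nil))))) (.g (nat_lit 0) (.e (nat_lit 383801) (nat_lit 0) .nil) .nil))))) (.nd (nat_lit 8) (.nd (nat_lit 9) 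
(.lf (nat_lit 582819) (.g (nat_lit 3162) (.e (nat_lit 344133) (nat_lit 26) (.e (nat_lit 557103) (nat_lit 14) (.e (nat_lit 180250) (nat_lit 10) (.e (nat_lit 573474) (nat_lit 12) (.e (nat_lit 57508) (nat_lit 39) (.e (nat_lit 647175) (nat_lit 0) (.e (nat_lit 2684) (nat_lit 168) (.e (nat_lit 204863) (nat_lit 27) .nil)))))))) (.g (nat_lit 1) (.e (nat_lit 381914) (nat_lit 0) .nil) .nil))) 
(.lf (nat_lit 583331) (.g (nat_lit 2667) (.e (nat_lit 352303) (nat_lit 20) (.e (nat_lit 1842) (nat_lit 123) (.e (nat_lit 548889) (nat_lit 9) (.e (nat_lit 65630) (nat_lit 14) (.e (nat_lit 401412) (nat_lit 0) .nil))))) (.g (nat_lit 0) (.e (nat_lit 383519) (nat_lit 0) .nil) .nil)))) (.nd (nat_lit 9) 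
(.lf (nat_lit 583075) (.g (nat_lit 2151) (.e (nat_lit 352267) (nat_lit 0) (.e (nat_lit 3632) (nat_lit 227) (.e (nat_lit 778323) (nat_lit 5) (.e (nat_lit 73779) (nat_lit 32) (.e (nat_lit 2940) (nat_lit 184) (.e (nat_lit 426541) (nat_lit 29) .nil)))))) (.g (nat_lit 1) (.e (nat_lit 382889) (nat_lit 0) .nil) .nil))) 
(.lf (nat_lit 583587) (.g (nat_lit 3673) (.e (nat_lit 360466) (nat_lit 3) (.e (nat_lit 516195) (nat_lit 26) (.e (nat_lit 335996) (nat_lit 1) (.e (nat_lit 57930) (nat_lit 282) (.e (nat_lit 163902) (nat_lit 12) (.e (nat_lit 426546) (nat_lit 30) .nil)))))) (.g (nat_lit 1) (.e (nat_lit 384215) (nat_lit 0) .nil) .nil)))))) (.nd (nat_lit 7) (.nd (nat_lit 8) (.nd (nat_lit 9) 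
(.lf (nat_lit 582755) (.g (nat_lit 3489) (.e (nat_lit 344132) (nat_lit 26) (.e (nat_lit 557105) (nat_lit 14) (.e (nat_lit 180252) (nat_lit 10) (.e (nat_lit 573474) (nat_lit 12) (.e (nat_lit 57508) (nat_lit 39) (.e (nat_lit 647168) (nat_lit 0) (.e (nat_lit 2685) (nat_lit 168) (.e (nat_lit 204864) (nat_lit 27) .nil)))))))) (.g (nat_lit 1) (.e (nat_lit 381795) (nat_lit 0) .nil) .nil))) 
(.lf (nat_lit 583267) (.g (nat_lit 2358) (.e (nat_lit 352295) (nat_lit 20) (.e (nat_lit 1788) (nat_lit 119) (.e (nat_lit 516139) (nat_lit 7) (.e (nat_lit 409647) (nat_lit 18) (.e (nat_lit 303118) (nat_lit 3) .nil))))) (.g (nat_lit 0) (.e (nat_lit 383427) (nat_lit 0) .nil) .nil)))) (.nd (nat_lit 9) 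
(.lf (nat_lit 583011) (.g (nat_lit 741) (.e (nat_lit 352262) (nat_lit 0) (.e (nat_lit 3748) (nat_lit 228) (.e (nat_lit 786475) (nat_lit 28) (.e (nat_lit 344069) (nat_lit 0) .nil)))) (.g (nat_lit 0) (.e (nat_lit 382715) (nat_lit 0) .nil) .nil))) 
(.lf (nat_lit 583523) (.g (nat_lit 449) (.e (nat_lit 368384) (nat_lit 5) (.e (nat_lit 532490) (nat_lit 0) (.e (nat_lit 1975) (nat_lit 135) .nil))) (.g (nat_lit 0) (.e (nat_lit 384085) (nat_lit 0) .nil) .nil))))) (.nd (nat_lit 8) (.nd (nat_lit 9) 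
(.lf (nat_lit 582883) (.g (nat_lit 1676) (.e (nat_lit 344169) (nat_lit 40) (.e (nat_lit 671759) (nat_lit 3) (.e (nat_lit 57479) (nat_lit 28) (.e (nat_lit 557096) (nat_lit 13) .nil)))) (.g (nat_lit 0) (.e (nat_lit 382195) (nat_lit 0) .nil) .nil))) 
(.lf (nat_lit 583395) (.g (nat_lit 1597) (.e (nat_lit 352312) (nat_lit 22) (.e (nat_lit 90134) (nat_lit 9) (.e (nat_lit 2822) (nat_lit 182) (.e (nat_lit 409645) (nat_lit 18) (.e (nat_lit 303112) (nat_lit 0) .nil))))) (.g (nat_lit 0) (.e (nat_lit 383668) (nat_lit 0) .nil) .nil)))) (.nd (nat_lit 9) 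
(.lf (nat_lit 583139) (.g (nat_lit 954) (.e (nat_lit 360192) (nat_lit 5) (.e (nat_lit 221206) (nat_lit 21) (.e (nat_lit 164331) (nat_lit 230) (.e (nat_lit 163934) (nat_lit 17) .nil)))) (.g (nat_lit 0) (.e (nat_lit 383126) (nat_lit 0) .nil) .nil))) 
(.lf (nat_lit 583651) (.g (nat_lit 359) (.e (nat_lit 368384) (nat_lit 3) (.e (nat_lit 516139) (nat_lit 7) (.e (nat_lit 409616) (nat_lit 10) .nil))) (.g (nat_lit 0) (.e (nat_lit 384350) (nat_lit 0) .nil) .nil)))))))) (.nd (nat_lit 5) (.nd (nat_lit 6) (.nd (nat_lit 7) (.nd (nat_lit 8) (.nd (nat_lit 9) 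
(.lf (nat_lit 582675) (.g (nat_lit 2638) (.e (nat_lit 344131) (nat_lit 26) (.e (nat_lit 557100) (nat_lit 13) (.e (nat_lit 172065) (nat_lit 3) (.e (nat_lit 204830) (nat_lit 18) (.e (nat_lit 57703) (nat_lit 164) .nil))))) (.g (nat_lit 0) (.e (nat_lit 381627) (nat_lit 0) .nil) .nil))) 
(.lf (nat_lit 583187) (.g (nat_lit 2177) (.e (nat_lit 352277) (nat_lit 11) (.e (nat_lit 426343) (nat_lit 14) (.e (nat_lit 491560) (nat_lit 10) (.e (nat_lit 344176) (nat_lit 43) (.e (nat_lit 770054) (nat_lit 5) .nil))))) (.g (nat_lit 0) (.e (nat_lit 383229) (nat_lit 0) .nil) .nil)))) (.nd (nat_lit 9) 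
(.lf (nat_lit 582931) (.g (nat_lit 2084) (.e (nat_lit 344177) (nat_lit 43) (.e (nat_lit 770072) (nat_lit 8) (.e (nat_lit 65571) (nat_lit 3) (.e (nat_lit 98337) (nat_lit 19) .nil)))) (.g (nat_lit 0) (.e (nat_lit 382343) (nat_lit 0) .nil) .nil))) 
(.lf (nat_lit 583443) (.g (nat_lit 1313) (.e (nat_lit 352315) (nat_lit 23) (.e (nat_lit 98325) (nat_lit 17) (.e (nat_lit 3537) (nat_lit 218) (.e (nat_lit 704754) (nat_lit 12) (.e (nat_lit 57532) (nat_lit 46) (.e (nat_lit 704593) (nat_lit 4) (.e (nat_lit 179968) (nat_lit 29) .nil))))))) (.g (nat_lit 1) (.e (nat_lit 383759) (nat_lit 0) .nil) .nil))))) (.nd (nat_lit 8) (.nd (nat_lit 9) 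
(.lf (nat_lit 582803) (.g (nat_lit 3814) (.e (nat_lit 344133) (nat_lit 26) (.e (nat_lit 557103) (nat_lit 14) (.e (nat_lit 180244) (nat_lit 5) (.e (nat_lit 532499) (nat_lit 1) (.e (nat_lit 57704) (nat_lit 164) (.e (nat_lit 2515) (nat_lit 157) (.e (nat_lit 2681) (nat_lit 168) (.e (nat_lit 204863) (nat_lit 27) .nil)))))))) (.g (nat_lit 1) (.e (nat_lit 381898) (nat_lit 0) .nil) .nil))) 
(.lf (nat_lit 583315) (.g (nat_lit 2347) (.e (nat_lit 352302) (nat_lit 20) (.e (nat_lit 1859) (nat_lit 124) (.e (nat_lit 557066) (nat_lit 9) (.e (nat_lit 232) (nat_lit 21) (.e (nat_lit 336060) (nat_lit 7) .nil))))) (.g (nat_lit 0) (.e (nat_lit 383495) (nat_lit 0) .nil) .nil)))) (.nd (nat_lit 9) 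
(.lf (nat_lit 583059) (.g (nat_lit 2290) (.e (nat_lit 352267) (nat_lit 0) (.e (nat_lit 3253) (nat_lit 197) (.e (nat_lit 532503) (nat_lit 1) (.e (nat_lit 57848) (nat_lit 252) (.e (nat_lit 57445) (nat_lit 19) (.e (nat_lit 401152) (nat_lit 11) .nil)))))) (.g (nat_lit 1) (.e (nat_lit 382826) (nat_lit 0) .nil) .nil))) 
(.lf (nat_lit 583571) (.g (nat_lit 2025) (.e (nat_lit 360466) (nat_lit 3) (.e (nat_lit 516191) (nat_lit 17) (.e (nat_lit 6209) (nat_lit 333) (.e (nat_lit 57881) (nat_lit 270) (.e (nat_lit 371) (nat_lit 32) (.e (nat_lit 426544) (nat_lit 30) .nil)))))) (.g (nat_lit 1) (.e (nat_lit 384198) (nat_lit 0) .nil) .nil)))))) (.nd (nat_lit 7) (.nd (nat_lit 8) (.nd (nat_lit 9) 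
(.lf (nat_lit 582739) (.g (nat_lit 2971) (.e (nat_lit 344132) (nat_lit 26) (.e (nat_lit 557100) (nat_lit 13) (.e (nat_lit 172138) (nat_lit 15) (.e (nat_lit 1800) (nat_lit 119) (.e (nat_lit 516119) (nat_lit 1) (.e (nat_lit 164345) (nat_lit 240) (.e (nat_lit 2426) (nat_lit 157) (.e (nat_lit 2678) (nat_lit 168) (.e (nat_lit 204864) (nat_lit 27) .nil))))))))) (.g (nat_lit 1) (.e (nat_lit 381779) (nat_lit 0) .nil) .nil))) 
(.lf (nat_lit 583251) (.g (nat_lit 1074) (.e (nat_lit 352291) (nat_lit 20) (.e (nat_lit 2390) (nat_lit 156) (.e (nat_lit 819204) (nat_lit 0) (.e (nat_lit 3027) (nat_lit 187) (.e (nat_lit 458496) (nat_lit 3) (.e (nat_lit 524032) (nat_lit 28) .nil)))))) (.g (nat_lit 1) (.e (nat_lit 383398) (nat_lit 0) .nil) .nil)))) (.nd (nat_lit 9) 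
(.lf (nat_lit 582995) (.g (nat_lit 2923) (.e (nat_lit 352262) (nat_lit 0) (.e (nat_lit 3631) (nat_lit 227) (.e (nat_lit 778320) (nat_lit 4) (.e (nat_lit 65630) (nat_lit 14) (.e (nat_lit 401435) (nat_lit 9) (.e (nat_lit 426540) (nat_lit 29) .nil)))))) (.g (nat_lit 1) (.e (nat_lit 382689) (nat_lit 0) .nil) .nil))) 
(.lf (nat_lit 583507) (.g (nat_lit 3518) (.e (nat_lit 360457) (nat_lit 0) (.e (nat_lit 5948) (nat_lit 322) (.e (nat_lit 57423) (nat_lit 14) (.e (nat_lit 352262) (nat_lit 0) (.e (nat_lit 3748) (nat_lit 228) (.e (nat_lit 786483) (nat_lit 30) .nil)))))) (.g (nat_lit 1) (.e (nat_lit 384009) (nat_lit 0) .nil) .nil))))) (.nd (nat_lit 8) (.nd (nat_lit 9) 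
(.lf (nat_lit 582867) (.g (nat_lit 1016) (.e (nat_lit 344157) (nat_lit 36) (.e (nat_lit 638999) (nat_lit 8) (.e (nat_lit 172113) (nat_lit 10) (.e (nat_lit 434266) (nat_lit 35) (.e (nat_lit 630821) (nat_lit 16) .nil))))) (.g (nat_lit 0) (.e (nat_lit 382146) (nat_lit 0) .nil) .nil))) 
(.lf (nat_lit 583379) (.g (nat_lit 3518) (.e (nat_lit 352309) (nat_lit 21) (.e (nat_lit 57844) (nat_lit 252) (.e (nat_lit 57389) (nat_lit 5) (.e (nat_lit 114698) (nat_lit 11) (.e (nat_lit 426198) (nat_lit 9) (.e (nat_lit 426542) (nat_lit 29) .nil)))))) (.g (nat_lit 1) (.e (nat_lit 383638) (nat_lit 0) .nil) .nil)))) (.nd (nat_lit 9) 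
(.lf (nat_lit 583123) (.g (nat_lit 1552) (.e (nat_lit 360192) (nat_lit 5) (.e (nat_lit 221206) (nat_lit 21) (.e (nat_lit 164325) (nat_lit 230) (.e (nat_lit 163933) (nat_lit 17) (.e (nat_lit 474880) (nat_lit 13) .nil))))) (.g (nat_lit 0) (.e (nat_lit 383104) (nat_lit 0) .nil) .nil))) 
(.lf (nat_lit 583635) (.g (nat_lit 2130) (.e (nat_lit 360467) (nat_lit 3) (.e (nat_lit 516195) (nat_lit 26) (.e (nat_lit 335986) (nat_lit 1) (.e (nat_lit 57927) (nat_lit 282) (.e (nat_lit 163901) (nat_lit 12) (.e (nat_lit 426544) (nat_lit 30) .nil)))))) (.g (nat_lit 1) (.e (nat_lit 384277) (nat_lit 0) .nil) .nil))))))) (.nd (nat_lit 6) (.nd (nat_lit 7) (.nd (nat_lit 8) (.nd (nat_lit 9) 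
(.lf (nat_lit 582707) (.g (nat_lit 4651) (.e (nat_lit 344132) (nat_lit 26) (.e (nat_lit 557093) (nat_lit 12) (.e (nat_lit 164022) (nat_lit 46) (.e (nat_lit 704629) (nat_lit 9) (.e (nat_lit 442) (nat_lit 33) (.e (nat_lit 434223) (nat_lit 19) (.e (nat_lit 500065) (nat_lit 18) (.e (nat_lit 65617) (nat_lit 10) .nil)))))))) (.g (nat_lit 1) (.e (nat_lit 381700) (nat_lit 0) .nil) .nil))) 
(.lf (nat_lit 583219) (.g (nat_lit 1730) (.e (nat_lit 352290) (nat_lit 20) (.e (nat_lit 2005) (nat_lit 138) (.e (nat_lit 671763) (nat_lit 5) (.e (nat_lit 73782) (nat_lit 32) (.e (nat_lit 2855) (nat_lit 184) (.e (nat_lit 426542) (nat_lit 29) .nil)))))) (.g (nat_lit 1) (.e (nat_lit 383360) (nat_lit 0) .nil) .nil)))) (.nd (nat_lit 9) 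
(.lf (nat_lit 582963) (.g (nat_lit 2346) (.e (nat_lit 352000) (nat_lit 45) (.e (nat_lit 786481) (nat_lit 30) (.e (nat_lit 360466) (nat_lit 3) (.e (nat_lit 516115) (nat_lit 1) (.e (nat_lit 164185) (nat_lit 155) .nil))))) (.g (nat_lit 0) (.e (nat_lit 382398) (nat_lit 0) .nil) .nil))) 
(.lf (nat_lit 583475) (.g (nat_lit 713) (.e (nat_lit 352323) (nat_lit 26) (.e (nat_lit 147511) (nat_lit 14) (.e (nat_lit 2807) (nat_lit 180) (.e (nat_lit 303137) (nat_lit 10) .nil)))) (.g (nat_lit 0) (.e (nat_lit 383844) (nat_lit 0) .nil) .nil))))) (.nd (nat_lit 8) (.nd (nat_lit 9) 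
(.lf (nat_lit 582835) (.g (nat_lit 3662) (.e (nat_lit 344133) (nat_lit 26) (.e (nat_lit 557105) (nat_lit 14) (.e (nat_lit 180252) (nat_lit 10) (.e (nat_lit 573474) (nat_lit 12) (.e (nat_lit 57507) (nat_lit 39) (.e (nat_lit 647176) (nat_lit 0) (.e (nat_lit 2681) (nat_lit 168) (.e (nat_lit 204862) (nat_lit 27) .nil)))))))) (.g (nat_lit 1) (.e (nat_lit 381930) (nat_lit 0) .nil) .nil))) 
(.lf (nat_lit 583347) (.g (nat_lit 1760) (.e (nat_lit 352303) (nat_lit 20) (.e (nat_lit 2391) (nat_lit 156) (.e (nat_lit 819204) (nat_lit 0) (.e (nat_lit 3015) (nat_lit 187) (.e (nat_lit 458496) (nat_lit 3) (.e (nat_lit 524032) (nat_lit 28) .nil)))))) (.g (nat_lit 1) (.e (nat_lit 383542) (nat_lit 0) .nil) .nil)))) (.nd (nat_lit 9) 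
(.lf (nat_lit 583091) (.g (nat_lit 1841) (.e (nat_lit 360192) (nat_lit 0) (.e (nat_lit 3302) (nat_lit 202) (.e (nat_lit 573491) (nat_lit 15) (.e (nat_lit 81946) (nat_lit 20) (.e (nat_lit 1842) (nat_lit 123) .nil))))) (.g (nat_lit 0) (.e (nat_lit 382957) (nat_lit 0) .nil) .nil))) 
(.lf (nat_lit 583603) (.g (nat_lit 1769) (.e (nat_lit 360467) (nat_lit 3) (.e (nat_lit 516139) (nat_lit 7) (.e (nat_lit 409616) (nat_lit 10) (.e (nat_lit 5665) (nat_lit 312) .nil)))) (.g (nat_lit 0) (.e (nat_lit 384237) (nat_lit 0) .nil) .nil)))))) (.nd (nat_lit 7) (.nd (nat_lit 8) (.nd (nat_lit 9) 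
(.lf (nat_lit 582771) (.g (nat_lit 2512) (.e (nat_lit 344132) (nat_lit 26) (.e (nat_lit 557105) (nat_lit 14) (.e (nat_lit 180252) (nat_lit 10) (.e (nat_lit 573475) (nat_lit 12) (.e (nat_lit 57508) (nat_lit 39) (.e (nat_lit 655104) (nat_lit 0) (.e (nat_lit 2685) (nat_lit 168) (.e (nat_lit 204864) (nat_lit 27) .nil)))))))) (.g (nat_lit 1) (.e (nat_lit 381811) (nat_lit 0) .nil) .nil))) 
(.lf (nat_lit 583283) (.g (nat_lit 1562) (.e (nat_lit 352296) (nat_lit 20) (.e (nat_lit 2391) (nat_lit 156) (.e (nat_lit 819204) (nat_lit 0) (.e (nat_lit 3016) (nat_lit 187) (.e (nat_lit 458496) (nat_lit 3) (.e (nat_lit 524032) (nat_lit 28) .nil)))))) (.g (nat_lit 1) (.e (nat_lit 383448) (nat_lit 0) .nil) .nil)))) (.nd (nat_lit 9) 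
(.lf (nat_lit 583027) (.g (nat_lit 1195) (.e (nat_lit 352265) (nat_lit 0) (.e (nat_lit 3632) (nat_lit 227) (.e (nat_lit 778323) (nat_lit 5) (.e (nat_lit 73780) (nat_lit 32) .nil)))) (.g (nat_lit 0) (.e (nat_lit 382759) (nat_lit 0) .nil) .nil))) 
(.lf (nat_lit 583539) (.g (nat_lit 1349) (.e (nat_lit 360466) (nat_lit 3) (.e (nat_lit 516138) (nat_lit 7) (.e (nat_lit 409617) (nat_lit 10) (.e (nat_lit 5710) (nat_lit 312) .nil)))) (.g (nat_lit 0) (.e (nat_lit 384149) (nat_lit 0) .nil) .nil))))) (.nd (nat_lit 8) (.nd (nat_lit 9) 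
(.lf (nat_lit 582899) (.g (nat_lit 1356) (.e (nat_lit 344160) (nat_lit 37) (.e (nat_lit 647200) (nat_lit 12) (.e (nat_lit 57479) (nat_lit 28) (.e (nat_lit 557085) (nat_lit 11) .nil)))) (.g (nat_lit 0) (.e (nat_lit 382236) (nat_lit 0) .nil) .nil))) 
(.lf (nat_lit 583411) (.g (nat_lit 3436) (.e (nat_lit 352313) (nat_lit 23) (.e (nat_lit 98350) (nat_lit 24) (.e (nat_lit 409645) (nat_lit 18) (.e (nat_lit 303112) (nat_lit 0) (.e (nat_lit 3252) (nat_lit 197) (.e (nat_lit 532546) (nat_lit 11) .nil)))))) (.g (nat_lit 1) (.e (nat_lit 383709) (nat_lit 0) .nil) .nil)))) (.nd (nat_lit 9) 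
(.lf (nat_lit 583155) (.g (nat_lit 1445) (.e (nat_lit 360192) (nat_lit 5) (.e (nat_lit 221207) (nat_lit 21) (.e (nat_lit 164326) (nat_lit 230) (.e (nat_lit 163907) (nat_lit 12) (.e (nat_lit 426227) (nat_lit 9) .nil))))) (.g (nat_lit 0) (.e (nat_lit 383146) (nat_lit 0) .nil) .nil))) 
(.lf (nat_lit 583667) (.g (nat_lit 758) (.e (nat_lit 360477) (nat_lit 11) (.e (nat_lit 581636) (nat_lit 0) (.e (nat_lit 3004) (nat_lit 186) (.e (nat_lit 442391) (nat_lit 19) (.e (nat_lit 409344) (nat_lit 30) .nil))))) (.g (nat_lit 1) (.e (nat_lit 384386) (nat_lit 0) .nil) .nil))))))))) (.nd (nat_lit 4) (.nd (nat_lit 5) (.nd (nat_lit 6) (.nd (nat_lit 7) (.nd (nat_lit 8) (.nd (nat_lit 9) 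
(.lf (nat_lit 582667) (.g (nat_lit 1961) (.e (nat_lit 344131) (nat_lit 26) (.e (nat_lit 557091) (nat_lit 12) (.e (nat_lit 164022) (nat_lit 46) (.e (nat_lit 704629) (nat_lit 9) (.e (nat_lit 411) (nat_lit 32) .nil))))) (.g (nat_lit 0) (.e (nat_lit 381619) (nat_lit 0) .nil) .nil))) 
(.lf (nat_lit 583179) (.g (nat_lit 864) (.e (nat_lit 352277) (nat_lit 11) (.e (nat_lit 426098) (nat_lit 1) (.e (nat_lit 164183) (nat_lit 154) (.e (nat_lit 57410) (nat_lit 12) .nil)))) (.g (nat_lit 0) (.e (nat_lit 383221) (nat_lit 0) .nil) .nil)))) (.nd (nat_lit 9) 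
(.lf (nat_lit 582923) (.g (nat_lit 1940) (.e (nat_lit 344161) (nat_lit 37) (.e (nat_lit 647201) (nat_lit 12) (.e (nat_lit 57575) (nat_lit 55) (.e (nat_lit 778465) (nat_lit 11) (.e (nat_lit 24617) (nat_lit 7) .nil))))) (.g (nat_lit 0) (.e (nat_lit 382280) (nat_lit 0) .nil) .nil))) 
(.lf (nat_lit 583435) (.g (nat_lit 2430) (.e (nat_lit 352315) (nat_lit 23) (.e (nat_lit 98312) (nat_lit 9) (.e (nat_lit 335995) (nat_lit 1) (.e (nat_lit 57931) (nat_lit 282) (.e (nat_lit 163905) (nat_lit 12) (.e (nat_lit 426542) (nat_lit 29) .nil)))))) (.g (nat_lit 1) (.e (nat_lit 383746) (nat_lit 0) .nil) .nil))))) (.nd (nat_lit 8) (.nd (nat_lit 9) 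
(.lf (nat_lit 582795) (.g (nat_lit 5080) (.e (nat_lit 344133) (nat_lit 26) (.e (nat_lit 557091) (nat_lit 12) (.e (nat_lit 164020) (nat_lit 45) (.e (nat_lit 696330) (nat_lit 5) (.e (nat_lit 2884) (nat_lit 184) (.e (nat_lit 426125) (nat_lit 2) (.e (nat_lit 196666) (nat_lit 13) (.e (nat_lit 65617) (nat_lit 10) .nil)))))))) (.g (nat_lit 1) (.e (nat_lit 381885) (nat_lit 0) .nil) .nil))) 
(.lf (nat_lit 583307) (.g (nat_lit 1707) (.e (nat_lit 352297) (nat_lit 20) (.e (nat_lit 2391) (nat_lit 156) (.e (nat_lit 819204) (nat_lit 0) (.e (nat_lit 3016) (nat_lit 187) (.e (nat_lit 458496) (nat_lit 3) (.e (nat_lit 524032) (nat_lit 28) .nil)))))) (.g (nat_lit 1) (.e (nat_lit 383478) (nat_lit 0) .nil) .nil)))) (.nd (nat_lit 9) 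
(.lf (nat_lit 583051) (.g (nat_lit 2267) (.e (nat_lit 352267) (nat_lit 0) (.e (nat_lit 3253) (nat_lit 197) (.e (nat_lit 532501) (nat_lit 1) (.e (nat_lit 57854) (nat_lit 252) (.e (nat_lit 57445) (nat_lit 19) (.e (nat_lit 401152) (nat_lit 11) .nil)))))) (.g (nat_lit 1) (.e (nat_lit 382818) (nat_lit 0) .nil) .nil))) 
(.lf (nat_lit 583563) (.g (nat_lit 1565) (.e (nat_lit 360466) (nat_lit 3) (.e (nat_lit 516142) (nat_lit 8) (.e (nat_lit 417829) (nat_lit 18) (.e (nat_lit 303109) (nat_lit 0) .nil)))) (.g (nat_lit 0) (.e (nat_lit 384180) (nat_lit 0) .nil) .nil)))))) (.nd (nat_lit 7) (.nd (nat_lit 8) (.nd (nat_lit 9) 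
(.lf (nat_lit 582731) (.g (nat_lit 4256) (.e (nat_lit 344132) (nat_lit 26) (.e (nat_lit 557094) (nat_lit 12) (.e (nat_lit 164022) (nat_lit 46) (.e (nat_lit 704629) (nat_lit 9) (.e (nat_lit 442) (nat_lit 33) (.e (nat_lit 434223) (nat_lit 19) (.e (nat_lit 500065) (nat_lit 18) (.e (nat_lit 65617) (nat_lit 10) .nil)))))))) (.g (nat_lit 1) (.e (nat_lit 381769) (nat_lit 0) .nil) .nil))) 
(.lf (nat_lit 583243) (.g (nat_lit 2358) (.e (nat_lit 352291) (nat_lit 20) (.e (nat_lit 1788) (nat_lit 119) (.e (nat_lit 516139) (nat_lit 7) (.e (nat_lit 409647) (nat_lit 18) (.e (nat_lit 303118) (nat_lit 3) .nil))))) (.g (nat_lit 0) (.e (nat_lit 383389) (nat_lit 0) .nil) .nil)))) (.nd (nat_lit 9) 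
(.lf (nat_lit 582987) (.g (nat_lit 1993) (.e (nat_lit 352262) (nat_lit 0) (.e (nat_lit 3253) (nat_lit 197) (.e (nat_lit 532503) (nat_lit 1) (.e (nat_lit 57847) (nat_lit 252) (.e (nat_lit 57448) (nat_lit 19) (.e (nat_lit 401152) (nat_lit 11) .nil)))))) (.g (nat_lit 1) (.e (nat_lit 382625) (nat_lit 0) .nil) .nil))) 
(.lf (nat_lit 583499) (.g (nat_lit 192) (.e (nat_lit 360456) (nat_lit 0) (.e (nat_lit 5818) (nat_lit 320) (.e (nat_lit 1296) (nat_lit 96) .nil))) (.g (nat_lit 0) (.e (nat_lit 383968) (nat_lit 0) .nil) .nil))))) (.nd (nat_lit 8) (.nd (nat_lit 9) 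
(.lf (nat_lit 582859) (.g (nat_lit 1087) (.e (nat_lit 344157) (nat_lit 36) (.e (nat_lit 638999) (nat_lit 8) (.e (nat_lit 172081) (nat_lit 7) (.e (nat_lit 409639) (nat_lit 15) (.e (nat_lit 278567) (nat_lit 16) (.e (nat_lit 286756) (nat_lit 10) .nil)))))) (.g (nat_lit 1) (.e (nat_lit 382133) (nat_lit 0) .nil) .nil))) 
(.lf (nat_lit 583371) (.g (nat_lit 1512) (.e (nat_lit 352307) (nat_lit 21) (.e (nat_lit 57854) (nat_lit 252) (.e (nat_lit 57389) (nat_lit 5) (.e (nat_lit 114698) (nat_lit 11) .nil)))) (.g (nat_lit 0) (.e (nat_lit 383592) (nat_lit 0) .nil) .nil)))) (.nd (nat_lit 9) 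
(.lf (nat_lit 583115) (.g (nat_lit 1436) (.e (nat_lit 360192) (nat_lit 5) (.e (nat_lit 221206) (nat_lit 21) (.e (nat_lit 164322) (nat_lit 230) (.e (nat_lit 163932) (nat_lit 17) (.e (nat_lit 474880) (nat_lit 13) .nil))))) (.g (nat_lit 0) (.e (nat_lit 383095) (nat_lit 0) .nil) .nil))) 
(.lf (nat_lit 583627) (.g (nat_lit 3529) (.e (nat_lit 360467) (nat_lit 3) (.e (nat_lit 516139) (nat_lit 7) (.e (nat_lit 409649) (nat_lit 18) (.e (nat_lit 303119) (nat_lit 3) (.e (nat_lit 204870) (nat_lit 29) .nil))))) (.g (nat_lit 1) (.e (nat_lit 384265) (nat_lit 0) .nil) .nil))))))) (.nd (nat_lit 6) (.nd (nat_lit 7) (.nd (nat_lit 8) (.nd (nat_lit 9) 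
(.lf (nat_lit 582699) (.g (nat_lit 3735) (.e (nat_lit 344132) (nat_lit 26) (.e (nat_lit 557072) (nat_lit 9) (.e (nat_lit 3098) (nat_lit 192) (.e (nat_lit 491571) (nat_lit 13) (.e (nat_lit 393251) (nat_lit 18) (.e (nat_lit 164185) (nat_lit 155) (.e (nat_lit 122913) (nat_lit 13) .nil))))))) (.g (nat_lit 1) (.e (nat_lit 381652) (nat_lit 0) .nil) .nil))) 
(.lf (nat_lit 583211) (.g (nat_lit 2137) (.e (nat_lit 352280) (nat_lit 20) (.e (nat_lit 1849) (nat_lit 124) (.e (nat_lit 557066) (nat_lit 9) (.e (nat_lit 232) (nat_lit 21) (.e (nat_lit 336060) (nat_lit 7) .nil))))) (.g (nat_lit 0) (.e (nat_lit 383312) (nat_lit 0) .nil) .nil)))) (.nd (nat_lit 9) 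
(.lf (nat_lit 582955) (.g (nat_lit 1141) (.e (nat_lit 344179) (nat_lit 44) (.e (nat_lit 778466) (nat_lit 11) (.e (nat_lit 24641) (nat_lit 10) (.e (nat_lit 344180) (nat_lit 44) .nil)))) (.g (nat_lit 0) (.e (nat_lit 382383) (nat_lit 0) .nil) .nil))) 
(.lf (nat_lit 583467) (.g (nat_lit 2660) (.e (nat_lit 352316) (nat_lit 24) (.e (nat_lit 123195) (nat_lit 266) (.e (nat_lit 57400) (nat_lit 10) (.e (nat_lit 319490) (nat_lit 0) (.e (nat_lit 5664) (nat_lit 312) (.e (nat_lit 2852) (nat_lit 184) (.e (nat_lit 426539) (nat_lit 29) .nil))))))) (.g (nat_lit 1) (.e (nat_lit 383821) (nat_lit 0) .nil) .nil))))) (.nd (nat_lit 8) (.nd (nat_lit 9) 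
(.lf (nat_lit 582827) (.g (nat_lit 3278) (.e (nat_lit 344133) (nat_lit 26) (.e (nat_lit 557103) (nat_lit 14) (.e (nat_lit 180250) (nat_lit 10) (.e (nat_lit 573475) (nat_lit 12) (.e (nat_lit 57508) (nat_lit 39) (.e (nat_lit 647170) (nat_lit 0) (.e (nat_lit 2685) (nat_lit 168) (.e (nat_lit 204863) (nat_lit 27) .nil)))))))) (.g (nat_lit 1) (.e (nat_lit 381922) (nat_lit 0) .nil) .nil))) 
(.lf (nat_lit 583339) (.g (nat_lit 1447) (.e (nat_lit 352303) (nat_lit 20) (.e (nat_lit 2390) (nat_lit 156) (.e (nat_lit 819204) (nat_lit 0) (.e (nat_lit 3015) (nat_lit 187) (.e (nat_lit 458496) (nat_lit 3) (.e (nat_lit 524032) (nat_lit 28) .nil)))))) (.g (nat_lit 1) (.e (nat_lit 383530) (nat_lit 0) .nil) .nil)))) (.nd (nat_lit 9) 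
(.lf (nat_lit 583083) (.g (nat_lit 417) (.e (nat_lit 360192) (nat_lit 0) (.e (nat_lit 3238) (nat_lit 197) (.e (nat_lit 532507) (nat_lit 2) .nil))) (.g (nat_lit 0) (.e (nat_lit 382898) (nat_lit 0) .nil) .nil))) 
(.lf (nat_lit 583595) (.g (nat_lit 3461) (.e (nat_lit 360467) (nat_lit 3) (.e (nat_lit 516138) (nat_lit 7) (.e (nat_lit 409645) (nat_lit 18) (.e (nat_lit 303119) (nat_lit 3) (.e (nat_lit 204870) (nat_lit 29) .nil))))) (.g (nat_lit 1) (.e (nat_lit 384226) (nat_lit 0) .nil) .nil)))))) (.nd (nat_lit 7) (.nd (nat_lit 8) (.nd (nat_lit 9) 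
(.lf (nat_lit 582763) (.g (nat_lit 2420) (.e (nat_lit 344132) (nat_lit 26) (.e (nat_lit 557105) (nat_lit 14) (.e (nat_lit 180252) (nat_lit 10) (.e (nat_lit 573475) (nat_lit 12) (.e (nat_lit 57507) (nat_lit 39) (.e (nat_lit 647168) (nat_lit 0) (.e (nat_lit 2685) (nat_lit 168) (.e (nat_lit 204863) (nat_lit 27) .nil)))))))) (.g (nat_lit 1) (.e (nat_lit 381803) (nat_lit 0) .nil) .nil))) 
(.lf (nat_lit 583275) (.g (nat_lit 1217) (.e (nat_lit 352296) (nat_lit 20) (.e (nat_lit 2390) (nat_lit 156) (.e (nat_lit 819204) (nat_lit 0) (.e (nat_lit 3016) (nat_lit 187) (.e (nat_lit 458496) (nat_lit 3) (.e (nat_lit 524032) (nat_lit 28) .nil)))))) (.g (nat_lit 1) (.e (nat_lit 383437) (nat_lit 0) .nil) .nil)))) (.nd (nat_lit 9) 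
(.lf (nat_lit 583019) (.g (nat_lit 1567) (.e (nat_lit 352265) (nat_lit 0) (.e (nat_lit 3251) (nat_lit 197) (.e (nat_lit 532504) (nat_lit 1) (.e (nat_lit 57851) (nat_lit 252) (.e (nat_lit 57446) (nat_lit 19) (.e (nat_lit 401152) (nat_lit 11) .nil)))))) (.g (nat_lit 1) (.e (nat_lit 382736) (nat_lit 0) .nil) .nil))) 
(.lf (nat_lit 583531) (.g (nat_lit 506) (.e (nat_lit 360466) (nat_lit 3) (.e (nat_lit 516097) (nat_lit 0) (.e (nat_lit 7073) (nat_lit 377) .nil))) (.g (nat_lit 0) (.e (nat_lit 384118) (nat_lit 0) .nil) .nil))))) (.nd (nat_lit 8) (.nd (nat_lit 9) 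
(.lf (nat_lit 582891) (.g (nat_lit 2308) (.e (nat_lit 344159) (nat_lit 37) (.e (nat_lit 647201) (nat_lit 12) (.e (nat_lit 57575) (nat_lit 55) (.e (nat_lit 778466) (nat_lit 11) (.e (nat_lit 24617) (nat_lit 7) .nil))))) (.g (nat_lit 0) (.e (nat_lit 382211) (nat_lit 0) .nil) .nil))) 
(.lf (nat_lit 583403) (.g (nat_lit 2764) (.e (nat_lit 352313) (nat_lit 23) (.e (nat_lit 98349) (nat_lit 24) (.e (nat_lit 409645) (nat_lit 18) (.e (nat_lit 303112) (nat_lit 0) (.e (nat_lit 3252) (nat_lit 197) .nil))))) (.g (nat_lit 0) (.e (nat_lit 383695) (nat_lit 0) .nil) .nil)))) (.nd (nat_lit 9) 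
(.lf (nat_lit 583147) (.g (nat_lit 1905) (.e (nat_lit 360192) (nat_lit 5) (.e (nat_lit 221207) (nat_lit 21) (.e (nat_lit 164325) (nat_lit 230) (.e (nat_lit 163903) (nat_lit 12) (.e (nat_lit 426226) (nat_lit 9) .nil))))) (.g (nat_lit 0) (.e (nat_lit 383135) (nat_lit 0) .nil) .nil))) 
(.lf (nat_lit 583659) (.g (nat_lit 335) (.e (nat_lit 368384) (nat_lit 10) (.e (nat_lit 573444) (nat_lit 0) (.e (nat_lit 2984) (nat_lit 186) (.e (nat_lit 442391) (nat_lit 19) (.e (nat_lit 409344) (nat_lit 30) .nil))))) (.g (nat_lit 0) (.e (nat_lit 384370) (nat_lit 0) .nil) .nil)))))))) (.nd (nat_lit 5) (.nd (nat_lit 6) (.nd (nat_lit 7) (.nd (nat_lit 8) (.nd (nat_lit 9) 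
(.lf (nat_lit 582683) (.g (nat_lit 2867) (.e (nat_lit 344131) (nat_lit 26) (.e (nat_lit 557103) (nat_lit 14) (.e (nat_lit 180250) (nat_lit 10) (.e (nat_lit 573475) (nat_lit 12) (.e (nat_lit 57506) (nat_lit 39) (.e (nat_lit 655104) (nat_lit 0) (.e (nat_lit 2684) (nat_lit 168) (.e (nat_lit 204863) (nat_lit 27) .nil)))))))) (.g (nat_lit 1) (.e (nat_lit 381635) (nat_lit 0) .nil) .nil))) 
(.lf (nat_lit 583195) (.g (nat_lit 2989) (.e (nat_lit 352277) (nat_lit 11) (.e (nat_lit 426500) (nat_lit 27) (.e (nat_lit 335988) (nat_lit 1) (.e (nat_lit 57926) (nat_lit 282) (.e (nat_lit 163873) (nat_lit 3) (.e (nat_lit 204865) (nat_lit 28) .nil)))))) (.g (nat_lit 1) (.e (nat_lit 383245) (nat_lit 0) .nil) .nil)))) (.nd (nat_lit 9) 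
(.lf (nat_lit 582939) (.g (nat_lit 2845) (.e (nat_lit 344178) (nat_lit 44) (.e (nat_lit 778469) (nat_lit 11) (.e (nat_lit 24658) (nat_lit 13) (.e (nat_lit 393301) (nat_lit 27) (.e (nat_lit 491560) (nat_lit 10) .nil))))) (.g (nat_lit 1) (.e (nat_lit 382363) (nat_lit 0) .nil) .nil))) 
(.lf (nat_lit 583451) (.g (nat_lit 4000) (.e (nat_lit 352315) (nat_lit 23) (.e (nat_lit 98349) (nat_lit 24) (.e (nat_lit 409648) (nat_lit 18) (.e (nat_lit 303118) (nat_lit 3) (.e (nat_lit 204866) (nat_lit 28) .nil))))) (.g (nat_lit 1) (.e (nat_lit 383777) (nat_lit 0) .nil) .nil))))) (.nd (nat_lit 8) (.nd (nat_lit 9) 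
(.lf (nat_lit 582811) (.g (nat_lit 2875) (.e (nat_lit 344133) (nat_lit 26) (.e (nat_lit 557103) (nat_lit 14) (.e (nat_lit 180250) (nat_lit 10) (.e (nat_lit 573474) (nat_lit 12) (.e (nat_lit 57506) (nat_lit 39) (.e (nat_lit 655104) (nat_lit 0) (.e (nat_lit 2684) (nat_lit 168) (.e (nat_lit 204863) (nat_lit 27) .nil)))))))) (.g (nat_lit 1) (.e (nat_lit 381906) (nat_lit 0) .nil) .nil))) 
(.lf (nat_lit 583323) (.g (nat_lit 1265) (.e (nat_lit 352302) (nat_lit 20) (.e (nat_lit 2391) (nat_lit 156) (.e (nat_lit 819203) (nat_lit 0) (.e (nat_lit 3015) (nat_lit 187) (.e (nat_lit 458496) (nat_lit 3) .nil))))) (.g (nat_lit 0) (.e (nat_lit 383506) (nat_lit 0) .nil) .nil)))) (.nd (nat_lit 9) 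
(.lf (nat_lit 583067) (.g (nat_lit 1141) (.e (nat_lit 352267) (nat_lit 0) (.e (nat_lit 3305) (nat_lit 202) (.e (nat_lit 573484) (nat_lit 13) (.e (nat_lit 65617) (nat_lit 10) .nil)))) (.g (nat_lit 0) (.e (nat_lit 382855) (nat_lit 0) .nil) .nil))) 
(.lf (nat_lit 583579) (.g (nat_lit 2345) (.e (nat_lit 360466) (nat_lit 3) (.e (nat_lit 516194) (nat_lit 26) (.e (nat_lit 335996) (nat_lit 1) (.e (nat_lit 57931) (nat_lit 282) (.e (nat_lit 163905) (nat_lit 12) (.e (nat_lit 426546) (nat_lit 30) .nil)))))) (.g (nat_lit 1) (.e (nat_lit 384206) (nat_lit 0) .nil) .nil)))))) (.nd (nat_lit 7) (.nd (nat_lit 8) (.nd (nat_lit 9) 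
(.lf (nat_lit 582747) (.g (nat_lit 2570) (.e (nat_lit 344132) (nat_lit 26) (.e (nat_lit 557105) (nat_lit 14) (.e (nat_lit 180252) (nat_lit 10) (.e (nat_lit 573473) (nat_lit 12) (.e (nat_lit 57508) (nat_lit 39) (.e (nat_lit 655104) (nat_lit 0) (.e (nat_lit 2679) (nat_lit 168) (.e (nat_lit 204864) (nat_lit 27) .nil)))))))) (.g (nat_lit 1) (.e (nat_lit 381787) (nat_lit 0) .nil) .nil))) 
(.lf (nat_lit 583259) (.g (nat_lit 1442) (.e (nat_lit 352291) (nat_lit 20) (.e (nat_lit 2391) (nat_lit 156) (.e (nat_lit 819204) (nat_lit 0) (.e (nat_lit 3027) (nat_lit 187) (.e (nat_lit 458496) (nat_lit 3) (.e (nat_lit 524032) (nat_lit 28) .nil)))))) (.g (nat_lit 1) (.e (nat_lit 383409) (nat_lit 0) .nil) .nil)))) (.nd (nat_lit 9) 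
(.lf (nat_lit 583003) (.g (nat_lit 2242) (.e (nat_lit 352262) (nat_lit 0) (.e (nat_lit 3632) (nat_lit 227) (.e (nat_lit 778323) (nat_lit 5) (.e (nat_lit 73782) (nat_lit 32) (.e (nat_lit 2854) (nat_lit 184) (.e (nat_lit 426539) (nat_lit 29) .nil)))))) (.g (nat_lit 1) (.e (nat_lit 382699) (nat_lit 0) .nil) .nil))) 
(.lf (nat_lit 583515) (.g (nat_lit 1590) (.e (nat_lit 368384) (nat_lit 0) (.e (nat_lit 5122) (nat_lit 292) (.e (nat_lit 2649) (nat_lit 166) (.e (nat_lit 188434) (nat_lit 20) (.e (nat_lit 3390) (nat_lit 210) .nil))))) (.g (nat_lit 0) (.e (nat_lit 384041) (nat_lit 0) .nil) .nil))))) (.nd (nat_lit 8) (.nd (nat_lit 9) 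
(.lf (nat_lit 582875) (.g (nat_lit 1704) (.e (nat_lit 344168) (nat_lit 40) (.e (nat_lit 671763) (nat_lit 5) (.e (nat_lit 73781) (nat_lit 32) (.e (nat_lit 3087) (nat_lit 191) (.e (nat_lit 483394) (nat_lit 24) .nil))))) (.g (nat_lit 1) (.e (nat_lit 382177) (nat_lit 0) .nil) .nil))) 
(.lf (nat_lit 583387) (.g (nat_lit 2250) (.e (nat_lit 352309) (nat_lit 21) (.e (nat_lit 57849) (nat_lit 252) (.e (nat_lit 57388) (nat_lit 5) (.e (nat_lit 114698) (nat_lit 11) (.e (nat_lit 426197) (nat_lit 9) (.e (nat_lit 426542) (nat_lit 29) .nil)))))) (.g (nat_lit 1) (.e (nat_lit 383646) (nat_lit 0) .nil) .nil)))) (.nd (nat_lit 9) 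
(.lf (nat_lit 583131) (.g (nat_lit 963) (.e (nat_lit 360192) (nat_lit 5) (.e (nat_lit 221206) (nat_lit 21) (.e (nat_lit 164329) (nat_lit 230) (.e (nat_lit 163931) (nat_lit 17) (.e (nat_lit 474880) (nat_lit 13) .nil))))) (.g (nat_lit 0) (.e (nat_lit 383115) (nat_lit 0) .nil) .nil))) 
(.lf (nat_lit 583643) (.g (nat_lit 323) (.e (nat_lit 360468) (nat_lit 3) (.e (nat_lit 516139) (nat_lit 7) (.e (nat_lit 417536) (nat_lit 10) .nil))) (.g (nat_lit 0) (.e (nat_lit 384327) (nat_lit 0) .nil) .nil))))))) (.nd (nat_lit 6) (.nd (nat_lit 7) (.nd (nat_lit 8) (.nd (nat_lit 9) 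
(.lf (nat_lit 582715) (.g (nat_lit 3683) (.e (nat_lit 344132) (nat_lit 26) (.e (nat_lit 557094) (nat_lit 12) (.e (nat_lit 163847) (nat_lit 0) (.e (nat_lit 6416) (nat_lit 341) (.e (nat_lit 163900) (nat_lit 12) (.e (nat_lit 426125) (nat_lit 2) (.e (nat_lit 196666) (nat_lit 13) (.e (nat_lit 65617) (nat_lit 10) .nil)))))))) (.g (nat_lit 1) (.e (nat_lit 381719) (nat_lit 0) .nil) .nil))) 
(.lf (nat_lit 583227) (.g (nat_lit 2736) (.e (nat_lit 352290) (nat_lit 20) (.e (nat_lit 2006) (nat_lit 138) (.e (nat_lit 671763) (nat_lit 5) (.e (nat_lit 73782) (nat_lit 32) (.e (nat_lit 2856) (nat_lit 184) (.e (nat_lit 426542) (nat_lit 29) .nil)))))) (.g (nat_lit 1) (.e (nat_lit 383368) (nat_lit 0) .nil) .nil)))) (.nd (nat_lit 9) 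
(.lf (nat_lit 582971) (.g (nat_lit 1048) (.e (nat_lit 344183) (nat_lit 49) (.e (nat_lit 819221) (nat_lit 6) (.e (nat_lit 188438) (nat_lit 20) (.e (nat_lit 3289) (nat_lit 201) (.e (nat_lit 565267) (nat_lit 4) (.e (nat_lit 65611) (nat_lit 10) .nil)))))) (.g (nat_lit 1) (.e (nat_lit 382499) (nat_lit 0) .nil) .nil))) 
(.lf (nat_lit 583483) (.g (nat_lit 2513) (.e (nat_lit 360450) (nat_lit 0) (.e (nat_lit 7607) (nat_lit 410) (.e (nat_lit 2630) (nat_lit 164) (.e (nat_lit 172106) (nat_lit 10) (.e (nat_lit 434229) (nat_lit 22) (.e (nat_lit 532224) (nat_lit 29) .nil)))))) (.g (nat_lit 1) (.e (nat_lit 383881) (nat_lit 0) .nil) .nil))))) (.nd (nat_lit 8) (.nd (nat_lit 9) 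
(.lf (nat_lit 582843) (.g (nat_lit 3513) (.e (nat_lit 344133) (nat_lit 26) (.e (nat_lit 557105) (nat_lit 14) (.e (nat_lit 180252) (nat_lit 10) (.e (nat_lit 573475) (nat_lit 12) (.e (nat_lit 57508) (nat_lit 39) (.e (nat_lit 647170) (nat_lit 0) (.e (nat_lit 2685) (nat_lit 168) (.e (nat_lit 204864) (nat_lit 27) .nil)))))))) (.g (nat_lit 1) (.e (nat_lit 381938) (nat_lit 0) .nil) .nil))) 
(.lf (nat_lit 583355) (.g (nat_lit 1221) (.e (nat_lit 352307) (nat_lit 21) (.e (nat_lit 57846) (nat_lit 252) (.e (nat_lit 57390) (nat_lit 5) (.e (nat_lit 114698) (nat_lit 11) .nil)))) (.g (nat_lit 0) (.e (nat_lit 383576) (nat_lit 0) .nil) .nil)))) (.nd (nat_lit 9) 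
(.lf (nat_lit 583099) (.g (nat_lit 495) (.e (nat_lit 360192) (nat_lit 0) (.e (nat_lit 3604) (nat_lit 225) (.e (nat_lit 761906) (nat_lit 16) .nil))) (.g (nat_lit 0) (.e (nat_lit 383036) (nat_lit 0) .nil) .nil))) 
(.lf (nat_lit 583611) (.g (nat_lit 4517) (.e (nat_lit 360467) (nat_lit 3) (.e (nat_lit 516139) (nat_lit 7) (.e (nat_lit 409645) (nat_lit 18) (.e (nat_lit 303119) (nat_lit 3) (.e (nat_lit 204869) (nat_lit 29) .nil))))) (.g (nat_lit 1) (.e (nat_lit 384248) (nat_lit 0) .nil) .nil)))))) (.nd (nat_lit 7) (.nd (nat_lit 8) (.nd (nat_lit 9) 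
(.lf (nat_lit 582779) (.g (nat_lit 3378) (.e (nat_lit 344133) (nat_lit 26) (.e (nat_lit 557087) (nat_lit 11) (.e (nat_lit 24617) (nat_lit 7) (.e (nat_lit 319503) (nat_lit 10) .nil)))) (.g (nat_lit 0) (.e (nat_lit 381828) (nat_lit 0) .nil) .nil))) 
(.lf (nat_lit 583291) (.g (nat_lit 1819) (.e (nat_lit 352297) (nat_lit 20) (.e (nat_lit 2006) (nat_lit 138) (.e (nat_lit 671763) (nat_lit 5) (.e (nat_lit 73782) (nat_lit 32) (.e (nat_lit 2854) (nat_lit 184) (.e (nat_lit 426542) (nat_lit 29) .nil)))))) (.g (nat_lit 1) (.e (nat_lit 383458) (nat_lit 0) .nil) .nil)))) (.nd (nat_lit 9) 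
(.lf (nat_lit 583035) (.g (nat_lit 1974) (.e (nat_lit 352266) (nat_lit 0) (.e (nat_lit 3253) (nat_lit 197) (.e (nat_lit 532503) (nat_lit 1) (.e (nat_lit 57847) (nat_lit 252) (.e (nat_lit 57448) (nat_lit 19) (.e (nat_lit 401152) (nat_lit 11) .nil)))))) (.g (nat_lit 1) (.e (nat_lit 382772) (nat_lit 0) .nil) .nil))) 
(.lf (nat_lit 583547) (.g (nat_lit 4149) (.e (nat_lit 360466) (nat_lit 3) (.e (nat_lit 516139) (nat_lit 7) (.e (nat_lit 409645) (nat_lit 18) (.e (nat_lit 303112) (nat_lit 0) (.e (nat_lit 3258) (nat_lit 198) (.e (nat_lit 540704) (nat_lit 12) .nil)))))) (.g (nat_lit 1) (.e (nat_lit 384160) (nat_lit 0) .nil) .nil))))) (.nd (nat_lit 8) (.nd (nat_lit 9) 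
(.lf (nat_lit 582907) (.g (nat_lit 2494) (.e (nat_lit 344160) (nat_lit 37) (.e (nat_lit 647201) (nat_lit 12) (.e (nat_lit 57575) (nat_lit 55) (.e (nat_lit 778465) (nat_lit 11) (.e (nat_lit 24616) (nat_lit 7) (.e (nat_lit 319533) (nat_lit 16) (.e (nat_lit 286753) (nat_lit 10) .nil))))))) (.g (nat_lit 1) (.e (nat_lit 382248) (nat_lit 0) .nil) .nil))) 
(.lf (nat_lit 583419) (.g (nat_lit 1495) (.e (nat_lit 352314) (nat_lit 23) (.e (nat_lit 98317) (nat_lit 9) (.e (nat_lit 335995) (nat_lit 1) (.e (nat_lit 57931) (nat_lit 282) .nil)))) (.g (nat_lit 0) (.e (nat_lit 383722) (nat_lit 0) .nil) .nil)))) (.nd (nat_lit 9) 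
(.lf (nat_lit 583163) (.g (nat_lit 686) (.e (nat_lit 352270) (nat_lit 8) (.e (nat_lit 262148) (nat_lit 0) (.e (nat_lit 1574) (nat_lit 110) (.e (nat_lit 352267) (nat_lit 0) (.e (nat_lit 3748) (nat_lit 228) .nil))))) (.g (nat_lit 0) (.e (nat_lit 383177) (nat_lit 0) .nil) .nil))) 
(.lf (nat_lit 583675) (.g (nat_lit 627) (.e (nat_lit 360472) (nat_lit 8) (.e (nat_lit 557090) (nat_lit 12) (.e (nat_lit 164020) (nat_lit 45) .nil))) (.g (nat_lit 0) (.e (nat_lit 384397) (nat_lit 0) .nil) .nil)))))))))) (.nd (nat_lit 3) (.nd (nat_lit 4) (.nd (nat_lit 5) (.nd (nat_lit 6) (.nd (nat_lit 7) (.nd (nat_lit 8) (.nd (nat_lit 9) 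
(.lf (nat_lit 582663) (.g (nat_lit 2068) (.e (nat_lit 344131) (nat_lit 26) (.e (nat_lit 557090) (nat_lit 12) (.e (nat_lit 164020) (nat_lit 45) (.e (nat_lit 696327) (nat_lit 5) .nil)))) (.g (nat_lit 0) (.e (nat_lit 381614) (nat_lit 0) .nil) .nil))) 
(.lf (nat_lit 583175) (.g (nat_lit 1857) (.e (nat_lit 352278) (nat_lit 11) (.e (nat_lit 426108) (nat_lit 1) (.e (nat_lit 164183) (nat_lit 154) (.e (nat_lit 57411) (nat_lit 12) .nil)))) (.g (nat_lit 0) (.e (nat_lit 383202) (nat_lit 0) .nil) .nil)))) (.nd (nat_lit 9) 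
(.lf (nat_lit 582919) (.g (nat_lit 3291) (.e (nat_lit 344161) (nat_lit 37) (.e (nat_lit 647201) (nat_lit 12) (.e (nat_lit 57574) (nat_lit 55) (.e (nat_lit 778465) (nat_lit 11) (.e (nat_lit 24617) (nat_lit 7) (.e (nat_lit 319533) (nat_lit 16) (.e (nat_lit 286753) (nat_lit 10) .nil))))))) (.g (nat_lit 1) (.e (nat_lit 382276) (nat_lit 0) .nil) .nil))) 
(.lf (nat_lit 583431) (.g (nat_lit 1999) (.e (nat_lit 352314) (nat_lit 23) (.e (nat_lit 98350) (nat_lit 24) (.e (nat_lit 409649) (nat_lit 18) (.e (nat_lit 303107) (nat_lit 0) .nil)))) (.g (nat_lit 0) (.e (nat_lit 383741) (nat_lit 0) .nil) .nil))))) (.nd (nat_lit 8) (.nd (nat_lit 9) 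
(.lf (nat_lit 582791) (.g (nat_lit 5615) (.e (nat_lit 344133) (nat_lit 26) (.e (nat_lit 557091) (nat_lit 12) (.e (nat_lit 163843) (nat_lit 0) (.e (nat_lit 6255) (nat_lit 337) (.e (nat_lit 2630) (nat_lit 164) (.e (nat_lit 172062) (nat_lit 2) (.e (nat_lit 196666) (nat_lit 13) (.e (nat_lit 65617) (nat_lit 10) .nil)))))))) (.g (nat_lit 1) (.e (nat_lit 381860) (nat_lit 0) .nil) .nil))) 
(.lf (nat_lit 583303) (.g (nat_lit 1333) (.e (nat_lit 352297) (nat_lit 20) (.e (nat_lit 2391) (nat_lit 156) (.e (nat_lit 819203) (nat_lit 0) (.e (nat_lit 3016) (nat_lit 187) (.e (nat_lit 458496) (nat_lit 3) (.e (nat_lit 524032) (nat_lit 28) .nil)))))) (.g (nat_lit 1) (.e (nat_lit 383473) (nat_lit 0) .nil) .nil)))) (.nd (nat_lit 9) 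
(.lf (nat_lit 583047) (.g (nat_lit 2036) (.e (nat_lit 352267) (nat_lit 0) (.e (nat_lit 3230) (nat_lit 197) (.e (nat_lit 532504) (nat_lit 1) (.e (nat_lit 57851) (nat_lit 252) (.e (nat_lit 57446) (nat_lit 19) (.e (nat_lit 401152) (nat_lit 11) .nil)))))) (.g (nat_lit 1) (.e (nat_lit 382814) (nat_lit 0) .nil) .nil))) 
(.lf (nat_lit 583559) (.g (nat_lit 3834) (.e (nat_lit 360466) (nat_lit 3) (.e (nat_lit 516139) (nat_lit 7) (.e (nat_lit 409649) (nat_lit 18) (.e (nat_lit 303119) (nat_lit 3) (.e (nat_lit 204869) (nat_lit 29) .nil))))) (.g (nat_lit 1) (.e (nat_lit 384172) (nat_lit 0) .nil) .nil)))))) (.nd (nat_lit 7) (.nd (nat_lit 8) (.nd (nat_lit 9) 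
(.lf (nat_lit 582727) (.g (nat_lit 3595) (.e (nat_lit 344132) (nat_lit 26) (.e (nat_lit 557094) (nat_lit 12) (.e (nat_lit 164018) (nat_lit 45) (.e (nat_lit 696343) (nat_lit 8) (.e (nat_lit 172067) (nat_lit 3) (.e (nat_lit 204855) (nat_lit 26) (.e (nat_lit 336176) (nat_lit 10) .nil))))))) (.g (nat_lit 1) (.e (nat_lit 381753) (nat_lit 0) .nil) .nil))) 
(.lf (nat_lit 583239) (.g (nat_lit 1639) (.e (nat_lit 352290) (nat_lit 20) (.e (nat_lit 2391) (nat_lit 156) (.e (nat_lit 819204) (nat_lit 0) (.e (nat_lit 3015) (nat_lit 187) (.e (nat_lit 458496) (nat_lit 3) (.e (nat_lit 524032) (nat_lit 28) .nil)))))) (.g (nat_lit 1) (.e (nat_lit 383383) (nat_lit 0) .nil) .nil)))) (.nd (nat_lit 9) 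
(.lf (nat_lit 582983) (.g (nat_lit 1641) (.e (nat_lit 352261) (nat_lit 0) (.e (nat_lit 3302) (nat_lit 202) (.e (nat_lit 573485) (nat_lit 13) (.e (nat_lit 65630) (nat_lit 14) (.e (nat_lit 401428) (nat_lit 3) .nil))))) (.g (nat_lit 0) (.e (nat_lit 382585) (nat_lit 0) .nil) .nil))) 
(.lf (nat_lit 583495) (.g (nat_lit 1192) (.e (nat_lit 360452) (nat_lit 0) (.e (nat_lit 5906) (nat_lit 320) (.e (nat_lit 1221) (nat_lit 90) (.e (nat_lit 81923) (nat_lit 0) (.e (nat_lit 3747) (nat_lit 228) .nil))))) (.g (nat_lit 0) (.e (nat_lit 383922) (nat_lit 0) .nil) .nil))))) (.nd (nat_lit 8) (.nd (nat_lit 9) 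
(.lf (nat_lit 582855) (.g (nat_lit 1302) (.e (nat_lit 344157) (nat_lit 36) (.e (nat_lit 638999) (nat_lit 8) (.e (nat_lit 172079) (nat_lit 7) (.e (nat_lit 409639) (nat_lit 15) (.e (nat_lit 278567) (nat_lit 16) (.e (nat_lit 286753) (nat_lit 10) .nil)))))) (.g (nat_lit 1) (.e (nat_lit 382125) (nat_lit 0) .nil) .nil))) 
(.lf (nat_lit 583367) (.g (nat_lit 2660) (.e (nat_lit 352307) (nat_lit 21) (.e (nat_lit 57853) (nat_lit 252) (.e (nat_lit 57389) (nat_lit 5) (.e (nat_lit 114698) (nat_lit 11) (.e (nat_lit 426197) (nat_lit 9) (.e (nat_lit 426542) (nat_lit 29) .nil)))))) (.g (nat_lit 1) (.e (nat_lit 383588) (nat_lit 0) .nil) .nil)))) (.nd (nat_lit 9) 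
(.lf (nat_lit 583111) (.g (nat_lit 1348) (.e (nat_lit 360192) (nat_lit 3) (.e (nat_lit 204837) (nat_lit 20) (.e (nat_lit 114694) (nat_lit 11) (.e (nat_lit 426139) (nat_lit 3) (.e (nat_lit 204865) (nat_lit 28) .nil))))) (.g (nat_lit 0) (.e (nat_lit 383069) (nat_lit 0) .nil) .nil))) 
(.lf (nat_lit 583623) (.g (nat_lit 2778) (.e (nat_lit 360467) (nat_lit 3) (.e (nat_lit 516139) (nat_lit 7) (.e (nat_lit 409649) (nat_lit 18) (.e (nat_lit 303111) (nat_lit 0) (.e (nat_lit 3252) (nat_lit 197) (.e (nat_lit 532551) (nat_lit 12) .nil)))))) (.g (nat_lit 1) (.e (nat_lit 384260) (nat_lit 0) .nil) .nil))))))) (.nd (nat_lit 6) (.nd (nat_lit 7) (.nd (nat_lit 8) (.nd (nat_lit 9) 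
(.lf (nat_lit 582695) (.g (nat_lit 3609) (.e (nat_lit 344132) (nat_lit 26) (.e (nat_lit 557072) (nat_lit 9) (.e (nat_lit 3098) (nat_lit 192) (.e (nat_lit 491571) (nat_lit 13) (.e (nat_lit 393251) (nat_lit 18) (.e (nat_lit 164177) (nat_lit 154) (.e (nat_lit 57420) (nat_lit 13) .nil))))))) (.g (nat_lit 1) (.e (nat_lit 381648) (nat_lit 0) .nil) .nil))) 
(.lf (nat_lit 583207) (.g (nat_lit 1485) (.e (nat_lit 360192) (nat_lit 18) (.e (nat_lit 483365) (nat_lit 18) (.e (nat_lit 57931) (nat_lit 282) (.e (nat_lit 163872) (nat_lit 3) .nil)))) (.g (nat_lit 0) (.e (nat_lit 383295) (nat_lit 0) .nil) .nil)))) (.nd (nat_lit 9) 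
(.lf (nat_lit 582951) (.g (nat_lit 4355) (.e (nat_lit 344179) (nat_lit 44) (.e (nat_lit 778466) (nat_lit 11) (.e (nat_lit 24617) (nat_lit 7) (.e (nat_lit 319505) (nat_lit 10) (.e (nat_lit 720) (nat_lit 64) (.e (nat_lit 688178) (nat_lit 16) (.e (nat_lit 65619) (nat_lit 10) .nil))))))) (.g (nat_lit 1) (.e (nat_lit 382379) (nat_lit 0) .nil) .nil))) 
(.lf (nat_lit 583463) (.g (nat_lit 2078) (.e (nat_lit 360192) (nat_lit 23) (.e (nat_lit 98350) (nat_lit 24) (.e (nat_lit 409645) (nat_lit 18) (.e (nat_lit 303118) (nat_lit 3) .nil)))) (.g (nat_lit 0) (.e (nat_lit 383811) (nat_lit 0) .nil) .nil))))) (.nd (nat_lit 8) (.nd (nat_lit 9) 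
(.lf (nat_lit 582823) (.g (nat_lit 3133) (.e (nat_lit 344133) (nat_lit 26) (.e (nat_lit 557103) (nat_lit 14) (.e (nat_lit 180250) (nat_lit 10) (.e (nat_lit 573475) (nat_lit 12) (.e (nat_lit 57506) (nat_lit 39) (.e (nat_lit 647175) (nat_lit 0) (.e (nat_lit 2684) (nat_lit 168) (.e (nat_lit 204863) (nat_lit 27) .nil)))))))) (.g (nat_lit 1) (.e (nat_lit 381918) (nat_lit 0) .nil) .nil))) 
(.lf (nat_lit 583335) (.g (nat_lit 1038) (.e (nat_lit 352303) (nat_lit 20) (.e (nat_lit 2390) (nat_lit 156) (.e (nat_lit 819203) (nat_lit 0) (.e (nat_lit 3015) (nat_lit 187) (.e (nat_lit 458496) (nat_lit 3) (.e (nat_lit 524032) (nat_lit 28) .nil)))))) (.g (nat_lit 1) (.e (nat_lit 383525) (nat_lit 0) .nil) .nil)))) (.nd (nat_lit 9) 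
(.lf (nat_lit 583079) (.g (nat_lit 971) (.e (nat_lit 352267) (nat_lit 0) (.e (nat_lit 3632) (nat_lit 227) (.e (nat_lit 778323) (nat_lit 5) (.e (nat_lit 81664) (nat_lit 32) .nil)))) (.g (nat_lit 0) (.e (nat_lit 382893) (nat_lit 0) .nil) .nil))) 
(.lf (nat_lit 583591) (.g (nat_lit 974) (.e (nat_lit 360467) (nat_lit 3) (.e (nat_lit 516117) (nat_lit 1) (.e (nat_lit 164166) (nat_lit 152) (.e (nat_lit 1200) (nat_lit 88) .nil)))) (.g (nat_lit 0) (.e (nat_lit 384221) (nat_lit 0) .nil) .nil)))))) (.nd (nat_lit 7) (.nd (nat_lit 8) (.nd (nat_lit 9) 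
(.lf (nat_lit 582759) (.g (nat_lit 2206) (.e (nat_lit 344132) (nat_lit 26) (.e (nat_lit 557105) (nat_lit 14) (.e (nat_lit 180252) (nat_lit 10) (.e (nat_lit 573475) (nat_lit 12) (.e (nat_lit 57349) (nat_lit 0) .nil))))) (.g (nat_lit 0) (.e (nat_lit 381799) (nat_lit 0) .nil) .nil))) 
(.lf (nat_lit 583271) (.g (nat_lit 896) (.e (nat_lit 352296) (nat_lit 20) (.e (nat_lit 2390) (nat_lit 156) (.e (nat_lit 819203) (nat_lit 0) (.e (nat_lit 3016) (nat_lit 187) (.e (nat_lit 458496) (nat_lit 3) (.e (nat_lit 524032) (nat_lit 28) .nil)))))) (.g (nat_lit 1) (.e (nat_lit 383432) (nat_lit 0) .nil) .nil)))) (.nd (nat_lit 9) 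
(.lf (nat_lit 583015) (.g (nat_lit 832) (.e (nat_lit 352262) (nat_lit 0) (.e (nat_lit 3748) (nat_lit 228) (.e (nat_lit 786480) (nat_lit 29) (.e (nat_lit 352270) (nat_lit 8) .nil)))) (.g (nat_lit 0) (.e (nat_lit 382725) (nat_lit 0) .nil) .nil))) 
(.lf (nat_lit 583527) (.g (nat_lit 603) (.e (nat_lit 360465) (nat_lit 3) (.e (nat_lit 516138) (nat_lit 7) (.e (nat_lit 409649) (nat_lit 18) .nil))) (.g (nat_lit 0) (.e (nat_lit 384109) (nat_lit 0) .nil) .nil))))) (.nd (nat_lit 8) (.nd (nat_lit 9) 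
(.lf (nat_lit 582887) (.g (nat_lit 2586) (.e (nat_lit 344169) (nat_lit 40) (.e (nat_lit 671763) (nat_lit 5) (.e (nat_lit 73781) (nat_lit 32) (.e (nat_lit 3090) (nat_lit 191) (.e (nat_lit 483394) (nat_lit 24) .nil))))) (.g (nat_lit 1) (.e (nat_lit 382203) (nat_lit 0) .nil) .nil))) 
(.lf (nat_lit 583399) (.g (nat_lit 2644) (.e (nat_lit 352313) (nat_lit 23) (.e (nat_lit 98309) (nat_lit 0) (.e (nat_lit 6207) (nat_lit 333) (.e (nat_lit 57883) (nat_lit 270) (.e (nat_lit 371) (nat_lit 32) (.e (nat_lit 426542) (nat_lit 29) .nil)))))) (.g (nat_lit 1) (.e (nat_lit 383688) (nat_lit 0) .nil) .nil)))) (.nd (nat_lit 9) 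
(.lf (nat_lit 583143) (.g (nat_lit 1528) (.e (nat_lit 360192) (nat_lit 5) (.e (nat_lit 221207) (nat_lit 21) (.e (nat_lit 164324) (nat_lit 230) (.e (nat_lit 163931) (nat_lit 17) (.e (nat_lit 474880) (nat_lit 13) .nil))))) (.g (nat_lit 0) (.e (nat_lit 383131) (nat_lit 0) .nil) .nil))) 
(.lf (nat_lit 583655) (.g (nat_lit 1922) (.e (nat_lit 368384) (nat_lit 3) (.e (nat_lit 516139) (nat_lit 7) (.e (nat_lit 409649) (nat_lit 18) (.e (nat_lit 303112) (nat_lit 0) .nil)))) (.g (nat_lit 0) (.e (nat_lit 384354) (nat_lit 0) .nil) .nil)))))))) (.nd (nat_lit 5) (.nd (nat_lit 6) (.nd (nat_lit 7) (.nd (nat_lit 8) (.nd (nat_lit 9) 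
(.lf (nat_lit 582679) (.g (nat_lit 2672) (.e (nat_lit 344131) (nat_lit 26) (.e (nat_lit 557103) (nat_lit 14) (.e (nat_lit 180244) (nat_lit 5) (.e (nat_lit 532503) (nat_lit 1) (.e (nat_lit 57704) (nat_lit 164) (.e (nat_lit 2601) (nat_lit 163) (.e (nat_lit 163962) (nat_lit 25) (.e (nat_lit 532544) (nat_lit 10) .nil)))))))) (.g (nat_lit 1) (.e (nat_lit 381631) (nat_lit 0) .nil) .nil))) 
(.lf (nat_lit 583191) (.g (nat_lit 2974) (.e (nat_lit 352277) (nat_lit 11) (.e (nat_lit 426344) (nat_lit 14) (.e (nat_lit 491560) (nat_lit 10) (.e (nat_lit 344099) (nat_lit 18) (.e (nat_lit 7270) (nat_lit 385) (.e (nat_lit 122914) (nat_lit 14) .nil)))))) (.g (nat_lit 1) (.e (nat_lit 383233) (nat_lit 0) .nil) .nil)))) (.nd (nat_lit 9) 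
(.lf (nat_lit 582935) (.g (nat_lit 496) (.e (nat_lit 344177) (nat_lit 43) (.e (nat_lit 770072) (nat_lit 8) (.e (nat_lit 65598) (nat_lit 9) .nil))) (.g (nat_lit 0) (.e (nat_lit 382347) (nat_lit 0) .nil) .nil))) 
(.lf (nat_lit 583447) (.g (nat_lit 3105) (.e (nat_lit 352315) (nat_lit 23) (.e (nat_lit 98349) (nat_lit 24) (.e (nat_lit 409646) (nat_lit 18) (.e (nat_lit 303112) (nat_lit 0) (.e (nat_lit 3252) (nat_lit 197) (.e (nat_lit 532548) (nat_lit 11) .nil)))))) (.g (nat_lit 1) (.e (nat_lit 383772) (nat_lit 0) .nil) .nil))))) (.nd (nat_lit 8) (.nd (nat_lit 9) 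
(.lf (nat_lit 582807) (.g (nat_lit 2801) (.e (nat_lit 344133) (nat_lit 26) (.e (nat_lit 557103) (nat_lit 14) (.e (nat_lit 180244) (nat_lit 5) (.e (nat_lit 532503) (nat_lit 1) (.e (nat_lit 57704) (nat_lit 164) (.e (nat_lit 2601) (nat_lit 163) (.e (nat_lit 163962) (nat_lit 25) (.e (nat_lit 532543) (nat_lit 10) .nil)))))))) (.g (nat_lit 1) (.e (nat_lit 381902) (nat_lit 0) .nil) .nil))) 
(.lf (nat_lit 583319) (.g (nat_lit 1306) (.e (nat_lit 352302) (nat_lit 20) (.e (nat_lit 2390) (nat_lit 156) (.e (nat_lit 819204) (nat_lit 0) (.e (nat_lit 3015) (nat_lit 187) (.e (nat_lit 458496) (nat_lit 3) .nil))))) (.g (nat_lit 0) (.e (nat_lit 383500) (nat_lit 0) .nil) .nil)))) (.nd (nat_lit 9) 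
(.lf (nat_lit 583063) (.g (nat_lit 2187) (.e (nat_lit 352267) (nat_lit 0) (.e (nat_lit 3253) (nat_lit 197) (.e (nat_lit 532504) (nat_lit 1) (.e (nat_lit 57853) (nat_lit 252) (.e (nat_lit 57446) (nat_lit 19) (.e (nat_lit 401152) (nat_lit 11) .nil)))))) (.g (nat_lit 1) (.e (nat_lit 382830) (nat_lit 0) .nil) .nil))) 
(.lf (nat_lit 583575) (.g (nat_lit 2518) (.e (nat_lit 360466) (nat_lit 3) (.e (nat_lit 516194) (nat_lit 26) (.e (nat_lit 335988) (nat_lit 1) (.e (nat_lit 57926) (nat_lit 282) (.e (nat_lit 163905) (nat_lit 12) (.e (nat_lit 426546) (nat_lit 30) .nil)))))) (.g (nat_lit 1) (.e (nat_lit 384202) (nat_lit 0) .nil) .nil)))))) (.nd (nat_lit 7) (.nd (nat_lit 8) (.nd (nat_lit 9) 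
(.lf (nat_lit 582743) (.g (nat_lit 2774) (.e (nat_lit 344132) (nat_lit 26) (.e (nat_lit 557101) (nat_lit 13) (.e (nat_lit 172066) (nat_lit 3) (.e (nat_lit 204829) (nat_lit 18) (.e (nat_lit 57704) (nat_lit 164) (.e (nat_lit 2601) (nat_lit 163) (.e (nat_lit 163962) (nat_lit 25) (.e (nat_lit 532544) (nat_lit 10) .nil)))))))) (.g (nat_lit 1) (.e (nat_lit 381783) (nat_lit 0) .nil) .nil))) 
(.lf (nat_lit 583255) (.g (nat_lit 910) (.e (nat_lit 352291) (nat_lit 20) (.e (nat_lit 2391) (nat_lit 156) (.e (nat_lit 819203) (nat_lit 0) (.e (nat_lit 3027) (nat_lit 187) (.e (nat_lit 458496) (nat_lit 3) (.e (nat_lit 524032) (nat_lit 28) .nil)))))) (.g (nat_lit 1) (.e (nat_lit 383403) (nat_lit 0) .nil) .nil)))) (.nd (nat_lit 9) 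
(.lf (nat_lit 582999) (.g (nat_lit 3600) (.e (nat_lit 352262) (nat_lit 0) (.e (nat_lit 3631) (nat_lit 227) (.e (nat_lit 778323) (nat_lit 5) (.e (nat_lit 73782) (nat_lit 32) (.e (nat_lit 2856) (nat_lit 184) (.e (nat_lit 426540) (nat_lit 29) .nil)))))) (.g (nat_lit 1) (.e (nat_lit 382693) (nat_lit 0) .nil) .nil))) 
(.lf (nat_lit 583511) (.g (nat_lit 3680) (.e (nat_lit 360457) (nat_lit 0) (.e (nat_lit 5949) (nat_lit 322) (.e (nat_lit 57412) (nat_lit 12) (.e (nat_lit 336226) (nat_lit 14) (.e (nat_lit 401437) (nat_lit 9) (.e (nat_lit 426544) (nat_lit 30) .nil)))))) (.g (nat_lit 1) (.e (nat_lit 384015) (nat_lit 0) .nil) .nil))))) (.nd (nat_lit 8) (.nd (nat_lit 9) 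
(.lf (nat_lit 582871) (.g (nat_lit 2105) (.e (nat_lit 344168) (nat_lit 40) (.e (nat_lit 671759) (nat_lit 3) (.e (nat_lit 57479) (nat_lit 28) (.e (nat_lit 557096) (nat_lit 13) .nil)))) (.g (nat_lit 0) (.e (nat_lit 382171) (nat_lit 0) .nil) .nil))) 
(.lf (nat_lit 583383) (.g (nat_lit 838) (.e (nat_lit 352309) (nat_lit 21) (.e (nat_lit 57847) (nat_lit 252) (.e (nat_lit 57388) (nat_lit 5) .nil))) (.g (nat_lit 0) (.e (nat_lit 383642) (nat_lit 0) .nil) .nil)))) (.nd (nat_lit 9) 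
(.lf (nat_lit 583127) (.g (nat_lit 1249) (.e (nat_lit 360192) (nat_lit 5) (.e (nat_lit 221206) (nat_lit 21) (.e (nat_lit 164326) (nat_lit 230) (.e (nat_lit 163933) (nat_lit 17) (.e (nat_lit 474880) (nat_lit 13) .nil))))) (.g (nat_lit 0) (.e (nat_lit 383108) (nat_lit 0) .nil) .nil))) 
(.lf (nat_lit 583639) (.g (nat_lit 2325) (.e (nat_lit 360467) (nat_lit 3) (.e (nat_lit 516195) (nat_lit 26) (.e (nat_lit 335996) (nat_lit 1) (.e (nat_lit 57931) (nat_lit 282) (.e (nat_lit 163901) (nat_lit 12) (.e (nat_lit 426544) (nat_lit 30) .nil)))))) (.g (nat_lit 1) (.e (nat_lit 384282) (nat_lit 0) .nil) .nil))))))) (.nd (nat_lit 6) (.nd (nat_lit 7) (.nd (nat_lit 8) (.nd (nat_lit 9) 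
(.lf (nat_lit 582711) (.g (nat_lit 3859) (.e (nat_lit 344132) (nat_lit 26) (.e (nat_lit 557094) (nat_lit 12) (.e (nat_lit 163847) (nat_lit 0) (.e (nat_lit 6254) (nat_lit 337) (.e (nat_lit 2630) (nat_lit 164) (.e (nat_lit 172062) (nat_lit 2) (.e (nat_lit 196666) (nat_lit 13) (.e (nat_lit 65617) (nat_lit 10) .nil)))))))) (.g (nat_lit 1) (.e (nat_lit 381712) (nat_lit 0) .nil) .nil))) 
(.lf (nat_lit 583223) (.g (nat_lit 2729) (.e (nat_lit 352290) (nat_lit 20) (.e (nat_lit 2006) (nat_lit 138) (.e (nat_lit 671763) (nat_lit 5) (.e (nat_lit 73781) (nat_lit 32) (.e (nat_lit 2856) (nat_lit 184) (.e (nat_lit 426542) (nat_lit 29) .nil)))))) (.g (nat_lit 1) (.e (nat_lit 383364) (nat_lit 0) .nil) .nil)))) (.nd (nat_lit 9) 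
(.lf (nat_lit 582967) (.g (nat_lit 2000) (.e (nat_lit 344183) (nat_lit 49) (.e (nat_lit 819219) (nat_lit 4) (.e (nat_lit 172106) (nat_lit 10) (.e (nat_lit 434241) (nat_lit 27) (.e (nat_lit 565267) (nat_lit 4) (.e (nat_lit 65619) (nat_lit 10) .nil)))))) (.g (nat_lit 1) (.e (nat_lit 382493) (nat_lit 0) .nil) .nil))) 
(.lf (nat_lit 583479) (.g (nat_lit 2258) (.e (nat_lit 360449) (nat_lit 0) (.e (nat_lit 7607) (nat_lit 410) (.e (nat_lit 2630) (nat_lit 164) (.e (nat_lit 172106) (nat_lit 10) (.e (nat_lit 434229) (nat_lit 22) (.e (nat_lit 532224) (nat_lit 29) .nil)))))) (.g (nat_lit 1) (.e (nat_lit 383867) (nat_lit 0) .nil) .nil))))) (.nd (nat_lit 8) (.nd (nat_lit 9) 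
(.lf (nat_lit 582839) (.g (nat_lit 3971) (.e (nat_lit 344133) (nat_lit 26) (.e (nat_lit 557105) (nat_lit 14) (.e (nat_lit 180252) (nat_lit 10) (.e (nat_lit 573475) (nat_lit 12) (.e (nat_lit 57506) (nat_lit 39) (.e (nat_lit 647175) (nat_lit 0) (.e (nat_lit 2684) (nat_lit 168) (.e (nat_lit 204862) (nat_lit 27) .nil)))))))) (.g (nat_lit 1) (.e (nat_lit 381934) (nat_lit 0) .nil) .nil))) 
(.lf (nat_lit 583351) (.g (nat_lit 1046) (.e (nat_lit 352305) (nat_lit 20) (.e (nat_lit 1800) (nat_lit 119) (.e (nat_lit 516139) (nat_lit 7) (.e (nat_lit 409647) (nat_lit 18) .nil)))) (.g (nat_lit 0) (.e (nat_lit 383555) (nat_lit 0) .nil) .nil)))) (.nd (nat_lit 9) 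
(.lf (nat_lit 583095) (.g (nat_lit 1643) (.e (nat_lit 360192) (nat_lit 0) (.e (nat_lit 3307) (nat_lit 202) (.e (nat_lit 573493) (nat_lit 15) (.e (nat_lit 81959) (nat_lit 24) .nil)))) (.g (nat_lit 0) (.e (nat_lit 383008) (nat_lit 0) .nil) .nil))) 
(.lf (nat_lit 583607) (.g (nat_lit 2939) (.e (nat_lit 360467) (nat_lit 3) (.e (nat_lit 516139) (nat_lit 7) (.e (nat_lit 409644) (nat_lit 18) (.e (nat_lit 303119) (nat_lit 3) (.e (nat_lit 204868) (nat_lit 29) .nil))))) (.g (nat_lit 1) (.e (nat_lit 384244) (nat_lit 0) .nil) .nil)))))) (.nd (nat_lit 7) (.nd (nat_lit 8) (.nd (nat_lit 9) 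
(.lf (nat_lit 582775) (.g (nat_lit 3468) (.e (nat_lit 344133) (nat_lit 26) (.e (nat_lit 557068) (nat_lit 9) (.e (nat_lit 2830) (nat_lit 182) (.e (nat_lit 409649) (nat_lit 18) (.e (nat_lit 303151) (nat_lit 27) (.e (nat_lit 335995) (nat_lit 1) (.e (nat_lit 57683) (nat_lit 155) (.e (nat_lit 122913) (nat_lit 13) .nil)))))))) (.g (nat_lit 1) (.e (nat_lit 381819) (nat_lit 0) .nil) .nil))) 
(.lf (nat_lit 583287) (.g (nat_lit 1659) (.e (nat_lit 352297) (nat_lit 20) (.e (nat_lit 2004) (nat_lit 138) (.e (nat_lit 671763) (nat_lit 5) (.e (nat_lit 73782) (nat_lit 32) (.e (nat_lit 2855) (nat_lit 184) (.e (nat_lit 426542) (nat_lit 29) .nil)))))) (.g (nat_lit 1) (.e (nat_lit 383454) (nat_lit 0) .nil) .nil)))) (.nd (nat_lit 9) 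
(.lf (nat_lit 583031) (.g (nat_lit 1756) (.e (nat_lit 352266) (nat_lit 0) (.e (nat_lit 3251) (nat_lit 197) (.e (nat_lit 532501) (nat_lit 1) (.e (nat_lit 57851) (nat_lit 252) (.e (nat_lit 57446) (nat_lit 19) (.e (nat_lit 401152) (nat_lit 11) .nil)))))) (.g (nat_lit 1) (.e (nat_lit 382768) (nat_lit 0) .nil) .nil))) 
(.lf (nat_lit 583543) (.g (nat_lit 3352) (.e (nat_lit 360466) (nat_lit 3) (.e (nat_lit 516138) (nat_lit 7) (.e (nat_lit 409646) (nat_lit 18) (.e (nat_lit 303112) (nat_lit 0) (.e (nat_lit 3252) (nat_lit 197) (.e (nat_lit 532551) (nat_lit 12) .nil)))))) (.g (nat_lit 1) (.e (nat_lit 384153) (nat_lit 0) .nil) .nil))))) (.nd (nat_lit 8) (.nd (nat_lit 9) 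
(.lf (nat_lit 582903) (.g (nat_lit 3844) (.e (nat_lit 344160) (nat_lit 37) (.e (nat_lit 647201) (nat_lit 12) (.e (nat_lit 57351) (nat_lit 0) (.e (nat_lit 7464) (nat_lit 396) (.e (nat_lit 2555) (nat_lit 159) (.e (nat_lit 24617) (nat_lit 7) (.e (nat_lit 319534) (nat_lit 16) (.e (nat_lit 286756) (nat_lit 10) .nil)))))))) (.g (nat_lit 1) (.e (nat_lit 382244) (nat_lit 0) .nil) .nil))) 
(.lf (nat_lit 583415) (.g (nat_lit 2355) (.e (nat_lit 352313) (nat_lit 23) (.e (nat_lit 98350) (nat_lit 24) (.e (nat_lit 409646) (nat_lit 18) (.e (nat_lit 303112) (nat_lit 0) (.e (nat_lit 3252) (nat_lit 197) (.e (nat_lit 532546) (nat_lit 11) .nil)))))) (.g (nat_lit 1) (.e (nat_lit 383713) (nat_lit 0) .nil) .nil)))) (.nd (nat_lit 9) 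
(.lf (nat_lit 583159) (.g (nat_lit 1620) (.e (nat_lit 360192) (nat_lit 5) (.e (nat_lit 221207) (nat_lit 21) (.e (nat_lit 164327) (nat_lit 230) (.e (nat_lit 163933) (nat_lit 17) (.e (nat_lit 474880) (nat_lit 13) .nil))))) (.g (nat_lit 0) (.e (nat_lit 383151) (nat_lit 0) .nil) .nil))) 
(.lf (nat_lit 583671) (.g (nat_lit 770) (.e (nat_lit 360472) (nat_lit 8) (.e (nat_lit 557090) (nat_lit 12) (.e (nat_lit 163844) (nat_lit 0) .nil))) (.g (nat_lit 0) (.e (nat_lit 384392) (nat_lit 0) .nil) .nil))))))))) (.nd (nat_lit 4) (.nd (nat_lit 5) (.nd (nat_lit 6) (.nd (nat_lit 7) (.nd (nat_lit 8) (.nd (nat_lit 9) 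
(.lf (nat_lit 582671) (.g (nat_lit 2007) (.e (nat_lit 344131) (nat_lit 26) (.e (nat_lit 557098) (nat_lit 13) (.e (nat_lit 172051) (nat_lit 0) (.e (nat_lit 3307) (nat_lit 202) (.e (nat_lit 573446) (nat_lit 0) (.e (nat_lit 3067) (nat_lit 190) (.e (nat_lit 483072) (nat_lit 26) (.e (nat_lit 532544) (nat_lit 10) .nil)))))))) (.g (nat_lit 1) (.e (nat_lit 381623) (nat_lit 0) .nil) .nil))) 
(.lf (nat_lit 583183) (.g (nat_lit 993) (.e (nat_lit 352277) (nat_lit 11) (.e (nat_lit 426342) (nat_lit 14) (.e (nat_lit 491560) (nat_lit 10) (.e (nat_lit 344177) (nat_lit 43) .nil)))) (.g (nat_lit 0) (.e (nat_lit 383225) (nat_lit 0) .nil) .nil)))) (.nd (nat_lit 9) 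
(.lf (nat_lit 582927) (.g (nat_lit 1628) (.e (nat_lit 344165) (nat_lit 38) (.e (nat_lit 655395) (nat_lit 11) (.e (nat_lit 16448) (nat_lit 10) (.e (nat_lit 434268) (nat_lit 36) (.e (nat_lit 639020) (nat_lit 16) .nil))))) (.g (nat_lit 0) (.e (nat_lit 382306) (nat_lit 0) .nil) .nil))) 
(.lf (nat_lit 583439) (.g (nat_lit 1961) (.e (nat_lit 352315) (nat_lit 23) (.e (nat_lit 98313) (nat_lit 9) (.e (nat_lit 335988) (nat_lit 1) (.e (nat_lit 57926) (nat_lit 282) (.e (nat_lit 163906) (nat_lit 12) (.e (nat_lit 426543) (nat_lit 29) .nil)))))) (.g (nat_lit 1) (.e (nat_lit 383750) (nat_lit 0) .nil) .nil))))) (.nd (nat_lit 8) (.nd (nat_lit 9) 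
(.lf (nat_lit 582799) (.g (nat_lit 3818) (.e (nat_lit 344133) (nat_lit 26) (.e (nat_lit 557098) (nat_lit 13) (.e (nat_lit 172133) (nat_lit 15) (.e (nat_lit 1800) (nat_lit 119) (.e (nat_lit 516119) (nat_lit 1) (.e (nat_lit 164347) (nat_lit 240) (.e (nat_lit 2601) (nat_lit 163) (.e (nat_lit 163962) (nat_lit 25) (.e (nat_lit 532543) (nat_lit 10) .nil))))))))) (.g (nat_lit 1) (.e (nat_lit 381894) (nat_lit 0) .nil) .nil))) 
(.lf (nat_lit 583311) (.g (nat_lit 2408) (.e (nat_lit 352302) (nat_lit 20) (.e (nat_lit 1788) (nat_lit 119) (.e (nat_lit 516139) (nat_lit 7) (.e (nat_lit 409647) (nat_lit 18) (.e (nat_lit 303119) (nat_lit 3) .nil))))) (.g (nat_lit 0) (.e (nat_lit 383491) (nat_lit 0) .nil) .nil)))) (.nd (nat_lit 9) 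
(.lf (nat_lit 583055) (.g (nat_lit 2398) (.e (nat_lit 352267) (nat_lit 0) (.e (nat_lit 3253) (nat_lit 197) (.e (nat_lit 532503) (nat_lit 1) (.e (nat_lit 57847) (nat_lit 252) (.e (nat_lit 57445) (nat_lit 19) (.e (nat_lit 401152) (nat_lit 11) .nil)))))) (.g (nat_lit 1) (.e (nat_lit 382822) (nat_lit 0) .nil) .nil))) 
(.lf (nat_lit 583567) (.g (nat_lit 435) (.e (nat_lit 360466) (nat_lit 3) (.e (nat_lit 516150) (nat_lit 9) (.e (nat_lit 426360) (nat_lit 15) .nil))) (.g (nat_lit 0) (.e (nat_lit 384188) (nat_lit 0) .nil) .nil)))))) (.nd (nat_lit 7) (.nd (nat_lit 8) (.nd (nat_lit 9) 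
(.lf (nat_lit 582735) (.g (nat_lit 3299) (.e (nat_lit 344132) (nat_lit 26) (.e (nat_lit 557100) (nat_lit 13) (.e (nat_lit 172065) (nat_lit 3) (.e (nat_lit 204830) (nat_lit 18) (.e (nat_lit 65280) (nat_lit 168) (.e (nat_lit 163875) (nat_lit 3) (.e (nat_lit 204864) (nat_lit 27) .nil))))))) (.g (nat_lit 1) (.e (nat_lit 381775) (nat_lit 0) .nil) .nil))) 
(.lf (nat_lit 583247) (.g (nat_lit 632) (.e (nat_lit 352291) (nat_lit 20) (.e (nat_lit 2390) (nat_lit 156) (.e (nat_lit 819203) (nat_lit 0) (.e (nat_lit 3027) (nat_lit 187) (.e (nat_lit 458496) (nat_lit 3) (.e (nat_lit 524032) (nat_lit 28) .nil)))))) (.g (nat_lit 1) (.e (nat_lit 383393) (nat_lit 0) .nil) .nil)))) (.nd (nat_lit 9) 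
(.lf (nat_lit 582991) (.g (nat_lit 1515) (.e (nat_lit 352262) (nat_lit 0) (.e (nat_lit 3253) (nat_lit 197) (.e (nat_lit 532515) (nat_lit 3) (.e (nat_lit 114698) (nat_lit 11) (.e (nat_lit 426137) (nat_lit 3) .nil))))) (.g (nat_lit 0) (.e (nat_lit 382634) (nat_lit 0) .nil) .nil))) 
(.lf (nat_lit 583503) (.g (nat_lit 2961) (.e (nat_lit 360456) (nat_lit 0) (.e (nat_lit 5949) (nat_lit 322) (.e (nat_lit 57400) (nat_lit 10) (.e (nat_lit 319490) (nat_lit 0) (.e (nat_lit 5664) (nat_lit 312) (.e (nat_lit 2852) (nat_lit 184) (.e (nat_lit 426545) (nat_lit 30) .nil))))))) (.g (nat_lit 1) (.e (nat_lit 383977) (nat_lit 0) .nil) .nil))))) (.nd (nat_lit 8) (.nd (nat_lit 9) 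
(.lf (nat_lit 582863) (.g (nat_lit 1144) (.e (nat_lit 344157) (nat_lit 36) (.e (nat_lit 638999) (nat_lit 8) (.e (nat_lit 172112) (nat_lit 10) (.e (nat_lit 434266) (nat_lit 35) (.e (nat_lit 630821) (nat_lit 16) (.e (nat_lit 65610) (nat_lit 10) .nil)))))) (.g (nat_lit 1) (.e (nat_lit 382141) (nat_lit 0) .nil) .nil))) 
(.lf (nat_lit 583375) (.g (nat_lit 2910) (.e (nat_lit 352309) (nat_lit 21) (.e (nat_lit 57844) (nat_lit 252) (.e (nat_lit 57388) (nat_lit 5) (.e (nat_lit 114698) (nat_lit 11) (.e (nat_lit 426198) (nat_lit 9) (.e (nat_lit 426538) (nat_lit 29) .nil)))))) (.g (nat_lit 1) (.e (nat_lit 383634) (nat_lit 0) .nil) .nil)))) (.nd (nat_lit 9) 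
(.lf (nat_lit 583119) (.g (nat_lit 1791) (.e (nat_lit 360192) (nat_lit 5) (.e (nat_lit 221206) (nat_lit 21) (.e (nat_lit 164325) (nat_lit 230) (.e (nat_lit 163903) (nat_lit 12) (.e (nat_lit 426227) (nat_lit 9) .nil))))) (.g (nat_lit 0) (.e (nat_lit 383099) (nat_lit 0) .nil) .nil))) 
(.lf (nat_lit 583631) (.g (nat_lit 1995) (.e (nat_lit 360467) (nat_lit 3) (.e (nat_lit 516142) (nat_lit 8) (.e (nat_lit 417820) (nat_lit 10) (.e (nat_lit 5756) (nat_lit 315) (.e (nat_lit 163962) (nat_lit 25) .nil))))) (.g (nat_lit 0) (.e (nat_lit 384272) (nat_lit 0) .nil) .nil))))))) (.nd (nat_lit 6) (.nd (nat_lit 7) (.nd (nat_lit 8) (.nd (nat_lit 9) 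
(.lf (nat_lit 582703) (.g (nat_lit 3265) (.e (nat_lit 344132) (nat_lit 26) (.e (nat_lit 557073) (nat_lit 9) (.e (nat_lit 214) (nat_lit 19) (.e (nat_lit 319492) (nat_lit 0) (.e (nat_lit 5761) (nat_lit 315) (.e (nat_lit 163962) (nat_lit 25) (.e (nat_lit 532535) (nat_lit 9) (.e (nat_lit 336176) (nat_lit 10) .nil)))))))) (.g (nat_lit 1) (.e (nat_lit 381670) (nat_lit 0) .nil) .nil))) 
(.lf (nat_lit 583215) (.g (nat_lit 2812) (.e (nat_lit 352287) (nat_lit 20) (.e (nat_lit 1999) (nat_lit 137) (.e (nat_lit 663567) (nat_lit 4) (.e (nat_lit 65628) (nat_lit 14) (.e (nat_lit 401438) (nat_lit 9) (.e (nat_lit 426542) (nat_lit 29) .nil)))))) (.g (nat_lit 1) (.e (nat_lit 383352) (nat_lit 0) .nil) .nil)))) (.nd (nat_lit 9) 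
(.lf (nat_lit 582959) (.g (nat_lit 2132) (.e (nat_lit 344180) (nat_lit 44) (.e (nat_lit 778466) (nat_lit 11) (.e (nat_lit 24617) (nat_lit 7) (.e (nat_lit 319505) (nat_lit 10) (.e (nat_lit 720) (nat_lit 64) .nil))))) (.g (nat_lit 0) (.e (nat_lit 382388) (nat_lit 0) .nil) .nil))) 
(.lf (nat_lit 583471) (.g (nat_lit 1167) (.e (nat_lit 352318) (nat_lit 24) (.e (nat_lit 123182) (nat_lit 264) (.e (nat_lit 1224) (nat_lit 90) (.e (nat_lit 81922) (nat_lit 0) .nil)))) (.g (nat_lit 0) (.e (nat_lit 383835) (nat_lit 0) .nil) .nil))))) (.nd (nat_lit 8) (.nd (nat_lit 9) 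
(.lf (nat_lit 582831) (.g (nat_lit 3171) (.e (nat_lit 344133) (nat_lit 26) (.e (nat_lit 557105) (nat_lit 14) (.e (nat_lit 180252) (nat_lit 10) (.e (nat_lit 573474) (nat_lit 12) (.e (nat_lit 57347) (nat_lit 0) (.e (nat_lit 5436) (nat_lit 306) (.e (nat_lit 2604) (nat_lit 163) (.e (nat_lit 163962) (nat_lit 25) (.e (nat_lit 532543) (nat_lit 10) .nil))))))))) (.g (nat_lit 1) (.e (nat_lit 381926) (nat_lit 0) .nil) .nil))) 
(.lf (nat_lit 583343) (.g (nat_lit 1322) (.e (nat_lit 352303) (nat_lit 20) (.e (nat_lit 2391) (nat_lit 156) (.e (nat_lit 819203) (nat_lit 0) (.e (nat_lit 3015) (nat_lit 187) (.e (nat_lit 458496) (nat_lit 3) (.e (nat_lit 524032) (nat_lit 28) .nil)))))) (.g (nat_lit 1) (.e (nat_lit 383536) (nat_lit 0) .nil) .nil)))) (.nd (nat_lit 9) 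
(.lf (nat_lit 583087) (.g (nat_lit 2352) (.e (nat_lit 360192) (nat_lit 0) (.e (nat_lit 3302) (nat_lit 202) (.e (nat_lit 573484) (nat_lit 13) (.e (nat_lit 65617) (nat_lit 10) (.e (nat_lit 344130) (nat_lit 26) .nil))))) (.g (nat_lit 0) (.e (nat_lit 382931) (nat_lit 0) .nil) .nil))) 
(.lf (nat_lit 583599) (.g (nat_lit 3053) (.e (nat_lit 360467) (nat_lit 3) (.e (nat_lit 516138) (nat_lit 7) (.e (nat_lit 409649) (nat_lit 18) (.e (nat_lit 303104) (nat_lit 0) .nil)))) (.g (nat_lit 0) (.e (nat_lit 384230) (nat_lit 0) .nil) .nil)))))) (.nd (nat_lit 7) (.nd (nat_lit 8) (.nd (nat_lit 9) 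
(.lf (nat_lit 582767) (.g (nat_lit 2766) (.e (nat_lit 344132) (nat_lit 26) (.e (nat_lit 557105) (nat_lit 14) (.e (nat_lit 180252) (nat_lit 10) (.e (nat_lit 573475) (nat_lit 12) (.e (nat_lit 57508) (nat_lit 39) (.e (nat_lit 647168) (nat_lit 0) (.e (nat_lit 2685) (nat_lit 168) (.e (nat_lit 204862) (nat_lit 27) .nil)))))))) (.g (nat_lit 1) (.e (nat_lit 381807) (nat_lit 0) .nil) .nil))) 
(.lf (nat_lit 583279) (.g (nat_lit 1194) (.e (nat_lit 352296) (nat_lit 20) (.e (nat_lit 2391) (nat_lit 156) (.e (nat_lit 819203) (nat_lit 0) (.e (nat_lit 3016) (nat_lit 187) (.e (nat_lit 458496) (nat_lit 3) (.e (nat_lit 524032) (nat_lit 28) .nil)))))) (.g (nat_lit 1) (.e (nat_lit 383443) (nat_lit 0) .nil) .nil)))) (.nd (nat_lit 9) 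
(.lf (nat_lit 583023) (.g (nat_lit 2427) (.e (nat_lit 352265) (nat_lit 0) (.e (nat_lit 3305) (nat_lit 202) (.e (nat_lit 573482) (nat_lit 13) (.e (nat_lit 65628) (nat_lit 14) (.e (nat_lit 401428) (nat_lit 3) .nil))))) (.g (nat_lit 0) (.e (nat_lit 382747) (nat_lit 0) .nil) .nil))) 
(.lf (nat_lit 583535) (.g (nat_lit 934) (.e (nat_lit 360466) (nat_lit 3) (.e (nat_lit 516115) (nat_lit 1) (.e (nat_lit 164163) (nat_lit 152) .nil))) (.g (nat_lit 0) (.e (nat_lit 384126) (nat_lit 0) .nil) .nil))))) (.nd (nat_lit 8) (.nd (nat_lit 9) 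
(.lf (nat_lit 582895) (.g (nat_lit 2344) (.e (nat_lit 344160) (nat_lit 37) (.e (nat_lit 647183) (nat_lit 4) (.e (nat_lit 172147) (nat_lit 27) (.e (nat_lit 336185) (nat_lit 11) (.e (nat_lit 368676) (nat_lit 21) (.e (nat_lit 524032) (nat_lit 27) .nil)))))) (.g (nat_lit 1) (.e (nat_lit 382226) (nat_lit 0) .nil) .nil))) 
(.lf (nat_lit 583407) (.g (nat_lit 1848) (.e (nat_lit 352313) (nat_lit 23) (.e (nat_lit 98349) (nat_lit 24) (.e (nat_lit 409647) (nat_lit 18) (.e (nat_lit 303118) (nat_lit 3) (.e (nat_lit 204866) (nat_lit 28) .nil))))) (.g (nat_lit 0) (.e (nat_lit 383699) (nat_lit 0) .nil) .nil)))) (.nd (nat_lit 9) 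
(.lf (nat_lit 583151) (.g (nat_lit 1321) (.e (nat_lit 360192) (nat_lit 5) (.e (nat_lit 221207) (nat_lit 21) (.e (nat_lit 164325) (nat_lit 230) (.e (nat_lit 163930) (nat_lit 17) .nil)))) (.g (nat_lit 0) (.e (nat_lit 383141) (nat_lit 0) .nil) .nil))) 
(.lf (nat_lit 583663) (.g (nat_lit 1635) (.e (nat_lit 368384) (nat_lit 10) (.e (nat_lit 573474) (nat_lit 12) (.e (nat_lit 57528) (nat_lit 46) (.e (nat_lit 712448) (nat_lit 11) .nil)))) (.g (nat_lit 0) (.e (nat_lit 384378) (nat_lit 0) .nil) .nil)))))))) (.nd (nat_lit 5) (.nd (nat_lit 6) (.nd (nat_lit 7) (.nd (nat_lit 8) (.nd (nat_lit 9) 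
(.lf (nat_lit 582687) (.g (nat_lit 2847) (.e (nat_lit 344131) (nat_lit 26) (.e (nat_lit 557105) (nat_lit 14) (.e (nat_lit 180252) (nat_lit 10) (.e (nat_lit 573473) (nat_lit 12) (.e (nat_lit 57506) (nat_lit 39) (.e (nat_lit 655104) (nat_lit 0) (.e (nat_lit 2684) (nat_lit 168) (.e (nat_lit 204863) (nat_lit 27) .nil)))))))) (.g (nat_lit 1) (.e (nat_lit 381639) (nat_lit 0) .nil) .nil))) 
(.lf (nat_lit 583199) (.g (nat_lit 1800) (.e (nat_lit 352277) (nat_lit 11) (.e (nat_lit 426500) (nat_lit 27) (.e (nat_lit 335995) (nat_lit 1) (.e (nat_lit 57931) (nat_lit 282) (.e (nat_lit 163872) (nat_lit 3) .nil))))) (.g (nat_lit 0) (.e (nat_lit 383254) (nat_lit 0) .nil) .nil)))) (.nd (nat_lit 9) 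
(.lf (nat_lit 582943) (.g (nat_lit 1171) (.e (nat_lit 344179) (nat_lit 44) (.e (nat_lit 778465) (nat_lit 11) (.e (nat_lit 24640) (nat_lit 10) (.e (nat_lit 344176) (nat_lit 43) .nil)))) (.g (nat_lit 0) (.e (nat_lit 382368) (nat_lit 0) .nil) .nil))) 
(.lf (nat_lit 583455) (.g (nat_lit 3800) (.e (nat_lit 352315) (nat_lit 23) (.e (nat_lit 98350) (nat_lit 24) (.e (nat_lit 409645) (nat_lit 18) (.e (nat_lit 303118) (nat_lit 3) (.e (nat_lit 204865) (nat_lit 28) .nil))))) (.g (nat_lit 1) (.e (nat_lit 383784) (nat_lit 0) .nil) .nil))))) (.nd (nat_lit 8) (.nd (nat_lit 9) 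
(.lf (nat_lit 582815) (.g (nat_lit 2522) (.e (nat_lit 344133) (nat_lit 26) (.e (nat_lit 557103) (nat_lit 14) (.e (nat_lit 180250) (nat_lit 10) (.e (nat_lit 573474) (nat_lit 12) (.e (nat_lit 57507) (nat_lit 39) (.e (nat_lit 655104) (nat_lit 0) (.e (nat_lit 2685) (nat_lit 168) (.e (nat_lit 204864) (nat_lit 27) .nil)))))))) (.g (nat_lit 1) (.e (nat_lit 381910) (nat_lit 0) .nil) .nil))) 
(.lf (nat_lit 583327) (.g (nat_lit 1567) (.e (nat_lit 352302) (nat_lit 20) (.e (nat_lit 2391) (nat_lit 156) (.e (nat_lit 819204) (nat_lit 0) (.e (nat_lit 3016) (nat_lit 187) (.e (nat_lit 458496) (nat_lit 3) (.e (nat_lit 524032) (nat_lit 28) .nil)))))) (.g (nat_lit 1) (.e (nat_lit 383511) (nat_lit 0) .nil) .nil)))) (.nd (nat_lit 9) 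
(.lf (nat_lit 583071) (.g (nat_lit 2651) (.e (nat_lit 352267) (nat_lit 0) (.e (nat_lit 3629) (nat_lit 227) (.e (nat_lit 778323) (nat_lit 5) (.e (nat_lit 73781) (nat_lit 32) (.e (nat_lit 2856) (nat_lit 184) (.e (nat_lit 426542) (nat_lit 29) .nil)))))) (.g (nat_lit 1) (.e (nat_lit 382885) (nat_lit 0) .nil) .nil))) 
(.lf (nat_lit 583583) (.g (nat_lit 2906) (.e (nat_lit 360466) (nat_lit 3) (.e (nat_lit 516195) (nat_lit 26) (.e (nat_lit 335988) (nat_lit 1) (.e (nat_lit 57926) (nat_lit 282) (.e (nat_lit 163902) (nat_lit 12) (.e (nat_lit 426546) (nat_lit 30) .nil)))))) (.g (nat_lit 1) (.e (nat_lit 384210) (nat_lit 0) .nil) .nil)))))) (.nd (nat_lit 7) (.nd (nat_lit 8) (.nd (nat_lit 9) 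
(.lf (nat_lit 582751) (.g (nat_lit 3938) (.e (nat_lit 344132) (nat_lit 26) (.e (nat_lit 557105) (nat_lit 14) (.e (nat_lit 180252) (nat_lit 10) (.e (nat_lit 573474) (nat_lit 12) (.e (nat_lit 57505) (nat_lit 39) (.e (nat_lit 655104) (nat_lit 0) (.e (nat_lit 2684) (nat_lit 168) (.e (nat_lit 204863) (nat_lit 27) .nil)))))))) (.g (nat_lit 1) (.e (nat_lit 381791) (nat_lit 0) .nil) .nil))) 
(.lf (nat_lit 583263) (.g (nat_lit 1463) (.e (nat_lit 352294) (nat_lit 20) (.e (nat_lit 1788) (nat_lit 119) (.e (nat_lit 516139) (nat_lit 7) (.e (nat_lit 417536) (nat_lit 10) .nil)))) (.g (nat_lit 0) (.e (nat_lit 383422) (nat_lit 0) .nil) .nil)))) (.nd (nat_lit 9) 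
(.lf (nat_lit 583007) (.g (nat_lit 2891) (.e (nat_lit 352262) (nat_lit 0) (.e (nat_lit 3632) (nat_lit 227) (.e (nat_lit 778324) (nat_lit 5) (.e (nat_lit 73781) (nat_lit 32) (.e (nat_lit 2857) (nat_lit 184) (.e (nat_lit 426538) (nat_lit 29) .nil)))))) (.g (nat_lit 1) (.e (nat_lit 382703) (nat_lit 0) .nil) .nil))) 
(.lf (nat_lit 583519) (.g (nat_lit 1419) (.e (nat_lit 368384) (nat_lit 0) (.e (nat_lit 5907) (nat_lit 320) (.e (nat_lit 1221) (nat_lit 90) (.e (nat_lit 81923) (nat_lit 0) .nil)))) (.g (nat_lit 0) (.e (nat_lit 384052) (nat_lit 0) .nil) .nil))))) (.nd (nat_lit 8) (.nd (nat_lit 9) 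
(.lf (nat_lit 582879) (.g (nat_lit 2042) (.e (nat_lit 344168) (nat_lit 40) (.e (nat_lit 671763) (nat_lit 5) (.e (nat_lit 73782) (nat_lit 32) (.e (nat_lit 3087) (nat_lit 191) (.e (nat_lit 483395) (nat_lit 24) .nil))))) (.g (nat_lit 1) (.e (nat_lit 382181) (nat_lit 0) .nil) .nil))) 
(.lf (nat_lit 583391) (.g (nat_lit 3500) (.e (nat_lit 352309) (nat_lit 21) (.e (nat_lit 57870) (nat_lit 264) (.e (nat_lit 1209) (nat_lit 89) (.e (nat_lit 73782) (nat_lit 32) (.e (nat_lit 2856) (nat_lit 184) (.e (nat_lit 426542) (nat_lit 29) .nil)))))) (.g (nat_lit 1) (.e (nat_lit 383650) (nat_lit 0) .nil) .nil)))) (.nd (nat_lit 9) 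
(.lf (nat_lit 583135) (.g (nat_lit 1447) (.e (nat_lit 360192) (nat_lit 5) (.e (nat_lit 221206) (nat_lit 21) (.e (nat_lit 164330) (nat_lit 230) (.e (nat_lit 163932) (nat_lit 17) (.e (nat_lit 474880) (nat_lit 13) .nil))))) (.g (nat_lit 0) (.e (nat_lit 383121) (nat_lit 0) .nil) .nil))) 
(.lf (nat_lit 583647) (.g (nat_lit 3426) (.e (nat_lit 360468) (nat_lit 3) (.e (nat_lit 516139) (nat_lit 7) (.e (nat_lit 409649) (nat_lit 18) (.e (nat_lit 303118) (nat_lit 3) (.e (nat_lit 204868) (nat_lit 29) .nil))))) (.g (nat_lit 1) (.e (nat_lit 384341) (nat_lit 0) .nil) .nil))))))) (.nd (nat_lit 6) (.nd (nat_lit 7) (.nd (nat_lit 8) (.nd (nat_lit 9) 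
(.lf (nat_lit 582719) (.g (nat_lit 3642) (.e (nat_lit 344132) (nat_lit 26) (.e (nat_lit 557094) (nat_lit 12) (.e (nat_lit 163852) (nat_lit 0) (.e (nat_lit 6427) (nat_lit 342) (.e (nat_lit 229399) (nat_lit 12) (.e (nat_lit 426125) (nat_lit 2) (.e (nat_lit 196666) (nat_lit 13) (.e (nat_lit 65617) (nat_lit 10) .nil)))))))) (.g (nat_lit 1) (.e (nat_lit 381733) (nat_lit 0) .nil) .nil))) 
(.lf (nat_lit 583231) (.g (nat_lit 1291) (.e (nat_lit 352290) (nat_lit 20) (.e (nat_lit 2390) (nat_lit 156) (.e (nat_lit 819204) (nat_lit 0) (.e (nat_lit 3015) (nat_lit 187) (.e (nat_lit 458496) (nat_lit 3) .nil))))) (.g (nat_lit 0) (.e (nat_lit 383373) (nat_lit 0) .nil) .nil)))) (.nd (nat_lit 9) 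
(.lf (nat_lit 582975) (.g (nat_lit 1919) (.e (nat_lit 352260) (nat_lit 0) (.e (nat_lit 3305) (nat_lit 202) (.e (nat_lit 573484) (nat_lit 13) (.e (nat_lit 65617) (nat_lit 10) .nil)))) (.g (nat_lit 0) (.e (nat_lit 382549) (nat_lit 0) .nil) .nil))) 
(.lf (nat_lit 583487) (.g (nat_lit 2645) (.e (nat_lit 360451) (nat_lit 0) (.e (nat_lit 5236) (nat_lit 297) (.e (nat_lit 229415) (nat_lit 15) (.e (nat_lit 450597) (nat_lit 17) (.e (nat_lit 663580) (nat_lit 9) (.e (nat_lit 7936) (nat_lit 24) .nil)))))) (.g (nat_lit 1) (.e (nat_lit 383886) (nat_lit 0) .nil) .nil))))) (.nd (nat_lit 8) (.nd (nat_lit 9) 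
(.lf (nat_lit 582847) (.g (nat_lit 433) (.e (nat_lit 344153) (nat_lit 35) (.e (nat_lit 630801) (nat_lit 8) (.e (nat_lit 172081) (nat_lit 7) (.e (nat_lit 409639) (nat_lit 15) (.e (nat_lit 278567) (nat_lit 16) (.e (nat_lit 286755) (nat_lit 10) .nil)))))) (.g (nat_lit 1) (.e (nat_lit 381951) (nat_lit 0) .nil) .nil))) 
(.lf (nat_lit 583359) (.g (nat_lit 2052) (.e (nat_lit 352307) (nat_lit 21) (.e (nat_lit 57848) (nat_lit 252) (.e (nat_lit 57388) (nat_lit 5) (.e (nat_lit 114698) (nat_lit 11) (.e (nat_lit 426197) (nat_lit 9) (.e (nat_lit 426542) (nat_lit 29) .nil)))))) (.g (nat_lit 1) (.e (nat_lit 383580) (nat_lit 0) .nil) .nil)))) (.nd (nat_lit 9) 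
(.lf (nat_lit 583103) (.g (nat_lit 2414) (.e (nat_lit 360192) (nat_lit 3) (.e (nat_lit 204829) (nat_lit 18) (.e (nat_lit 57847) (nat_lit 252) (.e (nat_lit 57411) (nat_lit 12) (.e (nat_lit 336374) (nat_lit 27) .nil))))) (.g (nat_lit 0) (.e (nat_lit 383056) (nat_lit 0) .nil) .nil))) 
(.lf (nat_lit 583615) (.g (nat_lit 1241) (.e (nat_lit 360467) (nat_lit 3) (.e (nat_lit 516139) (nat_lit 7) (.e (nat_lit 409646) (nat_lit 18) (.e (nat_lit 303118) (nat_lit 3) .nil)))) (.g (nat_lit 0) (.e (nat_lit 384252) (nat_lit 0) .nil) .nil)))))) (.nd (nat_lit 7) (.nd (nat_lit 8) (.nd (nat_lit 9) 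
(.lf (nat_lit 582783) (.g (nat_lit 2069) (.e (nat_lit 344133) (nat_lit 26) (.e (nat_lit 557087) (nat_lit 11) (.e (nat_lit 24625) (nat_lit 9) (.e (nat_lit 336257) (nat_lit 15) .nil)))) (.g (nat_lit 0) (.e (nat_lit 381832) (nat_lit 0) .nil) .nil))) 
(.lf (nat_lit 583295) (.g (nat_lit 947) (.e (nat_lit 352297) (nat_lit 20) (.e (nat_lit 2390) (nat_lit 156) (.e (nat_lit 819203) (nat_lit 0) (.e (nat_lit 3016) (nat_lit 187) (.e (nat_lit 458496) (nat_lit 3) (.e (nat_lit 524032) (nat_lit 28) .nil)))))) (.g (nat_lit 1) (.e (nat_lit 383462) (nat_lit 0) .nil) .nil)))) (.nd (nat_lit 9) 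
(.lf (nat_lit 583039) (.g (nat_lit 2266) (.e (nat_lit 352266) (nat_lit 0) (.e (nat_lit 3253) (nat_lit 197) (.e (nat_lit 532504) (nat_lit 1) (.e (nat_lit 57853) (nat_lit 252) (.e (nat_lit 57446) (nat_lit 19) (.e (nat_lit 401152) (nat_lit 11) .nil)))))) (.g (nat_lit 1) (.e (nat_lit 382776) (nat_lit 0) .nil) .nil))) 
(.lf (nat_lit 583551) (.g (nat_lit 4541) (.e (nat_lit 360466) (nat_lit 3) (.e (nat_lit 516139) (nat_lit 7) (.e (nat_lit 409646) (nat_lit 18) (.e (nat_lit 303119) (nat_lit 3) (.e (nat_lit 204869) (nat_lit 29) .nil))))) (.g (nat_lit 1) (.e (nat_lit 384164) (nat_lit 0) .nil) .nil))))) (.nd (nat_lit 8) (.nd (nat_lit 9) 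
(.lf (nat_lit 582911) (.g (nat_lit 2986) (.e (nat_lit 344161) (nat_lit 37) (.e (nat_lit 647170) (nat_lit 0) (.e (nat_lit 3098) (nat_lit 192) (.e (nat_lit 491566) (nat_lit 12) (.e (nat_lit 385093) (nat_lit 49) (.e (nat_lit 778290) (nat_lit 0) (.e (nat_lit 1454) (nat_lit 108) (.e (nat_lit 336176) (nat_lit 10) .nil)))))))) (.g (nat_lit 1) (.e (nat_lit 382257) (nat_lit 0) .nil) .nil))) 
(.lf (nat_lit 583423) (.g (nat_lit 2801) (.e (nat_lit 352314) (nat_lit 23) (.e (nat_lit 98349) (nat_lit 24) (.e (nat_lit 409648) (nat_lit 18) (.e (nat_lit 303119) (nat_lit 3) (.e (nat_lit 204866) (nat_lit 28) .nil))))) (.g (nat_lit 0) (.e (nat_lit 383727) (nat_lit 0) .nil) .nil)))) (.nd (nat_lit 9) 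
(.lf (nat_lit 583167) (.g (nat_lit 1400) (.e (nat_lit 352274) (nat_lit 11) (.e (nat_lit 426107) (nat_lit 1) (.e (nat_lit 164179) (nat_lit 154) (.e (nat_lit 57406) (nat_lit 12) .nil)))) (.g (nat_lit 0) (.e (nat_lit 383194) (nat_lit 0) .nil) .nil))) 
(.lf (nat_lit 583679) (.g (nat_lit 2195) (.e (nat_lit 360472) (nat_lit 8) (.e (nat_lit 557090) (nat_lit 12) (.e (nat_lit 164020) (nat_lit 45) (.e (nat_lit 696330) (nat_lit 5) .nil)))) (.g (nat_lit 0) (.e (nat_lit 384401) (nat_lit 0) .nil) .nil)))))))))))))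


end

end Pool.Agent.Lib.MP_5854e1_co.Cz
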