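import Pool.Agent.Lib.MP_5854e1_co.DtD

/-!
# Windows and cells of the rings
-/

set_option autoImplicit false
set_option maxRecDepth 100000
set_option deprecated.oldSectionVars true

namespace Pool.Agent.Lib.MP_5854e1_co.Cz

open Pool.Agent.Lib.MP_5854e1_co

noncomputable section

noncomputable def tv5630 : DT := (.nd (nat_lit 0) (.nd (nat_lit 1) (.nd (nat_lit 2) (.nd (nat_lit 3) (.nd (nat_lit 4) (.nd (nat_lit 5) (.nd (nat_lit 6) (.nd (nat_lit 7) (.nd (nat_lit 8) (.nd (nat_lit 9) 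
(.lf (nat_lit 583680) (.g (nat_lit 2205) (.e (nat_lit 360472) (nat_lit 8) (.e (nat_lit 557090) (nat_lit 12) (.e (nat_lit 164020) (nat_lit 45) (.e (nat_lit 696342) (nat_lit 8) .nil)))) (.g (nat_lit 0) (.e (nat_lit 384402) (nat_lit 0) .nil) .nil))) 
(.lf (nat_lit 584192) (.g (nat_lit 3655) (.e (nat_lit 368676) (nat_lit 21) (.e (nat_lit 516165) (nat_lit 12) (.e (nat_lit 450586) (nat_lit 10) (.e (nat_lit 573473) (nat_lit 12) (.e (nat_lit 57348) (nat_lit 0) (.e (nat_lit 7265) (nat_lit 384) (.e (nat_lit 57430) (nat_lit 16) .nil))))))) (.g (nat_lit 1) (.e (nat_lit 385502) (nat_lit 0) .nil) .nil)))) (.nd (nat_lit 9) 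
(.lf (nat_lit 583936) (.g (nat_lit 740) (.e (nat_lit 360475) (nat_lit 8) (.e (nat_lit 557090) (nat_lit 12) (.e (nat_lit 164003) (nat_lit 40) .nil))) (.g (nat_lit 0) (.e (nat_lit 384827) (nat_lit 0) .nil) .nil))) 
(.lf (nat_lit 584448) (.g (nat_lit 1511) (.e (nat_lit 376856) (nat_lit 21) (.e (nat_lit 57854) (nat_lit 252) (.e (nat_lit 57388) (nat_lit 5) (.e (nat_lit 114697) (nat_lit 11) (.e (nat_lit 426197) (nat_lit 9) .nil))))) (.g (nat_lit 0) (.e (nat_lit 386160) (nat_lit 0) .nil) .nil))))) (.nd (nat_lit 8) (.nd (nat_lit 9) 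
(.lf (nat_lit 583808) (.g (nat_lit 3483) (.e (nat_lit 360473) (nat_lit 8) (.e (nat_lit 557094) (nat_lit 12) (.e (nat_lit 164022) (nat_lit 46) (.e (nat_lit 704626) (nat_lit 9) (.e (nat_lit 452) (nat_lit 33) (.e (nat_lit 434231) (nat_lit 23) (.e (nat_lit 532549) (nat_lit 12) .nil))))))) (.g (nat_lit 1) (.e (nat_lit 384645) (nat_lit 0) .nil) .nil))) 
(.lf (nat_lit 584320) (.g (nat_lit 1742) (.e (nat_lit 376835) (nat_lit 0) (.e (nat_lit 3632) (nat_lit 227) (.e (nat_lit 778323) (nat_lit 5) (.e (nat_lit 73781) (nat_lit 32) (.e (nat_lit 2857) (nat_lit 184) (.e (nat_lit 426556) (nat_lit 32) .nil)))))) (.g (nat_lit 1) (.e (nat_lit 385800) (nat_lit 0) .nil) .nil)))) (.nd (nat_lit 9) 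
(.lf (nat_lit 584064) (.g (nat_lit 2858) (.e (nat_lit 368676) (nat_lit 21) (.e (nat_lit 516120) (nat_lit 1) (.e (nat_lit 164182) (nat_lit 154) (.e (nat_lit 57409) (nat_lit 12) (.e (nat_lit 336454) (nat_lit 34) .nil))))) (.g (nat_lit 0) (.e (nat_lit 385355) (nat_lit 0) .nil) .nil))) 
(.lf (nat_lit 584576) (.g (nat_lit 150) (.e (nat_lit 376862) (nat_lit 22) (.e (nat_lit 90181) (nat_lit 16) (.e (nat_lit 229569) (nat_lit 176) .nil))) (.g (nat_lit 0) (.e (nat_lit 386380) (nat_lit 0) .nil) .nil)))))) (.nd (nat_lit 7) (.nd (nat_lit 8) (.nd (nat_lit 9) 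
(.lf (nat_lit 583744) (.g (nat_lit 4016) (.e (nat_lit 360473) (nat_lit 8) (.e (nat_lit 557089) (nat_lit 12) (.e (nat_lit 164020) (nat_lit 45) (.e (nat_lit 696343) (nat_lit 8) (.e (nat_lit 172067) (nat_lit 3) (.e (nat_lit 204868) (nat_lit 29) .nil)))))) (.g (nat_lit 1) (.e (nat_lit 384517) (nat_lit 0) .nil) .nil))) 
(.lf (nat_lit 584256) (.g (nat_lit 6817) (.e (nat_lit 368676) (nat_lit 21) (.e (nat_lit 516166) (nat_lit 12) (.e (nat_lit 450588) (nat_lit 10) (.e (nat_lit 573475) (nat_lit 12) (.e (nat_lit 57347) (nat_lit 0) (.e (nat_lit 7266) (nat_lit 384) (.e (nat_lit 57431) (nat_lit 16) .nil))))))) (.g (nat_lit 1) (.e (nat_lit 385566) (nat_lit 0) .nil) .nil)))) (.nd (nat_lit 9) 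
(.lf (nat_lit 584000) (.g (nat_lit 2172) (.e (nat_lit 360493) (nat_lit 27) (.e (nat_lit 819204) (nat_lit 0) (.e (nat_lit 3022) (nat_lit 187) (.e (nat_lit 450584) (nat_lit 9) (.e (nat_lit 565252) (nat_lit 0) (.e (nat_lit 1589) (nat_lit 111) .nil)))))) (.g (nat_lit 1) (.e (nat_lit 384941) (nat_lit 0) .nil) .nil))) 
(.lf (nat_lit 584512) (.g (nat_lit 1696) (.e (nat_lit 376859) (nat_lit 21) (.e (nat_lit 57848) (nat_lit 252) (.e (nat_lit 57388) (nat_lit 5) (.e (nat_lit 114696) (nat_lit 11) (.e (nat_lit 426230) (nat_lit 9) (.e (nat_lit 426554) (nat_lit 32) .nil)))))) (.g (nat_lit 1) (.e (nat_lit 386267) (nat_lit 0) .nil) .nil))))) (.nd (nat_lit 8) (.nd (nat_lit 9) 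
(.lf (nat_lit 583872) (.g (nat_lit 3233) (.e (nat_lit 360474) (nat_lit 8) (.e (nat_lit 557093) (nat_lit 12) (.e (nat_lit 164023) (nat_lit 46) (.e (nat_lit 704738) (nat_lit 11) (.e (nat_lit 16396) (nat_lit 0) (.e (nat_lit 7936) (nat_lit 197) (.e (nat_lit 532550) (nat_lit 12) .nil))))))) (.g (nat_lit 1) (.e (nat_lit 384737) (nat_lit 0) .nil) .nil))) 
(.lf (nat_lit 584384) (.g (nat_lit 379) (.e (nat_lit 376842) (nat_lit 11) (.e (nat_lit 426408) (nat_lit 15) (.e (nat_lit 6209) (nat_lit 333) .nil))) (.g (nat_lit 0) (.e (nat_lit 386065) (nat_lit 0) .nil) .nil)))) (.nd (nat_lit 9) 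
(.lf (nat_lit 584128) (.g (nat_lit 3693) (.e (nat_lit 368676) (nat_lit 21) (.e (nat_lit 516131) (nat_lit 3) (.e (nat_lit 221214) (nat_lit 23) (.e (nat_lit 204830) (nat_lit 18) (.e (nat_lit 57927) (nat_lit 282) (.e (nat_lit 163874) (nat_lit 3) (.e (nat_lit 204873) (nat_lit 30) .nil))))))) (.g (nat_lit 1) (.e (nat_lit 385430) (nat_lit 0) .nil) .nil))) 
(.lf (nat_lit 584640) (.g (nat_lit 2059) (.e (nat_lit 376868) (nat_lit 23) (.e (nat_lit 98350) (nat_lit 24) (.e (nat_lit 409649) (nat_lit 18) (.e (nat_lit 303111) (nat_lit 0) (.e (nat_lit 3254) (nat_lit 197) .nil))))) (.g (nat_lit 0) (.e (nat_lit 386496) (nat_lit 0) .nil) .nil))))))) (.nd (nat_lit 6) (.nd (nat_lit 7) (.nd (nat_lit 8) (.nd (nat_lit 9) 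
(.lf (nat_lit 583712) (.g (nat_lit 3042) (.e (nat_lit 360473) (nat_lit 8) (.e (nat_lit 557087) (nat_lit 11) (.e (nat_lit 24665) (nat_lit 14) (.e (nat_lit 401426) (nat_lit 3) (.e (nat_lit 204868) (nat_lit 29) .nil))))) (.g (nat_lit 1) (.e (nat_lit 384469) (nat_lit 0) .nil) .nil))) 
(.lf (nat_lit 584224) (.g (nat_lit 4044) (.e (nat_lit 368676) (nat_lit 21) (.e (nat_lit 516165) (nat_lit 12) (.e (nat_lit 450588) (nat_lit 10) (.e (nat_lit 573473) (nat_lit 12) (.e (nat_lit 57353) (nat_lit 0) (.e (nat_lit 7266) (nat_lit 384) (.e (nat_lit 57431) (nat_lit 16) .nil))))))) (.g (nat_lit 1) (.e (nat_lit 385534) (nat_lit 0) .nil) .nil)))) (.nd (nat_lit 9) 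
(.lf (nat_lit 583968) (.g (nat_lit 402) (.e (nat_lit 368384) (nat_lit 23) (.e (nat_lit 786477) (nat_lit 28) (.e (nat_lit 344168) (nat_lit 40) .nil))) (.g (nat_lit 0) (.e (nat_lit 384896) (nat_lit 0) .nil) .nil))) 
(.lf (nat_lit 584480) (.g (nat_lit 4013) (.e (nat_lit 376857) (nat_lit 21) (.e (nat_lit 57853) (nat_lit 252) (.e (nat_lit 57388) (nat_lit 5) (.e (nat_lit 114698) (nat_lit 11) (.e (nat_lit 426200) (nat_lit 9) (.e (nat_lit 426555) (nat_lit 32) .nil)))))) (.g (nat_lit 1) (.e (nat_lit 386212) (nat_lit 0) .nil) .nil))))) (.nd (nat_lit 8) (.nd (nat_lit 9) 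
(.lf (nat_lit 583840) (.g (nat_lit 2820) (.e (nat_lit 360474) (nat_lit 8) (.e (nat_lit 557093) (nat_lit 12) (.e (nat_lit 164022) (nat_lit 46) (.e (nat_lit 704629) (nat_lit 9) (.e (nat_lit 452) (nat_lit 33) (.e (nat_lit 434219) (nat_lit 19) (.e (nat_lit 499979) (nat_lit 14) (.e (nat_lit 1587) (nat_lit 111) .nil)))))))) (.g (nat_lit 1) (.e (nat_lit 384704) (nat_lit 0) .nil) .nil))) 
(.lf (nat_lit 584352) (.g (nat_lit 946) (.e (nat_lit 384768) (nat_lit 5) (.e (nat_lit 221207) (nat_lit 21) (.e (nat_lit 164326) (nat_lit 230) (.e (nat_lit 163931) (nat_lit 17) (.e (nat_lit 474880) (nat_lit 16) .nil))))) (.g (nat_lit 0) (.e (nat_lit 386008) (nat_lit 0) .nil) .nil)))) (.nd (nat_lit 9) 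
(.lf (nat_lit 584096) (.g (nat_lit 2527) (.e (nat_lit 368676) (nat_lit 21) (.e (nat_lit 516129) (nat_lit 3) (.e (nat_lit 221215) (nat_lit 23) (.e (nat_lit 204830) (nat_lit 18) (.e (nat_lit 57926) (nat_lit 282) (.e (nat_lit 163874) (nat_lit 3) (.e (nat_lit 204873) (nat_lit 30) .nil))))))) (.g (nat_lit 1) (.e (nat_lit 385389) (nat_lit 0) .nil) .nil))) 
(.lf (nat_lit 584608) (.g (nat_lit 2560) (.e (nat_lit 376867) (nat_lit 23) (.e (nat_lit 98313) (nat_lit 9) (.e (nat_lit 335996) (nat_lit 1) (.e (nat_lit 57929) (nat_lit 282) (.e (nat_lit 163904) (nat_lit 12) (.e (nat_lit 426555) (nat_lit 32) .nil)))))) (.g (nat_lit 1) (.e (nat_lit 386451) (nat_lit 0) .nil) .nil)))))) (.nd (nat_lit 7) (.nd (nat_lit 8) (.nd (nat_lit 9) 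
(.lf (nat_lit 583776) (.g (nat_lit 2764) (.e (nat_lit 360473) (nat_lit 8) (.e (nat_lit 557093) (nat_lit 12) (.e (nat_lit 164018) (nat_lit 45) (.e (nat_lit 696327) (nat_lit 5) (.e (nat_lit 2884) (nat_lit 184) (.e (nat_lit 426140) (nat_lit 3) (.e (nat_lit 204868) (nat_lit 29) .nil))))))) (.g (nat_lit 1) (.e (nat_lit 384578) (nat_lit 0) .nil) .nil))) 
(.lf (nat_lit 584288) (.g (nat_lit 3480) (.e (nat_lit 368678) (nat_lit 22) (.e (nat_lit 524322) (nat_lit 12) (.e (nat_lit 450588) (nat_lit 10) (.e (nat_lit 573475) (nat_lit 12) (.e (nat_lit 57351) (nat_lit 0) .nil))))) (.g (nat_lit 0) (.e (nat_lit 385628) (nat_lit 0) .nil) .nil)))) (.nd (nat_lit 9) 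
(.lf (nat_lit 584032) (.g (nat_lit 2349) (.e (nat_lit 368648) (nat_lit 13) (.e (nat_lit 1374) (nat_lit 104) (.e (nat_lit 303115) (nat_lit 1) (.e (nat_lit 164187) (nat_lit 157) (.e (nat_lit 229410) (nat_lit 14) (.e (nat_lit 450304) (nat_lit 15) .nil)))))) (.g (nat_lit 1) (.e (nat_lit 385169) (nat_lit 0) .nil) .nil))) 
(.lf (nat_lit 584544) (.g (nat_lit 3752) (.e (nat_lit 376860) (nat_lit 21) (.e (nat_lit 57853) (nat_lit 252) (.e (nat_lit 57388) (nat_lit 5) (.e (nat_lit 114698) (nat_lit 11) (.e (nat_lit 426198) (nat_lit 9) (.e (nat_lit 426555) (nat_lit 32) .nil)))))) (.g (nat_lit 1) (.e (nat_lit 386322) (nat_lit 0) .nil) .nil))))) (.nd (nat_lit 8) (.nd (nat_lit 9) 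
(.lf (nat_lit 583904) (.g (nat_lit 3124) (.e (nat_lit 360474) (nat_lit 8) (.e (nat_lit 557094) (nat_lit 12) (.e (nat_lit 164022) (nat_lit 46) (.e (nat_lit 704738) (nat_lit 11) (.e (nat_lit 16402) (nat_lit 0) (.e (nat_lit 7936) (nat_lit 197) (.e (nat_lit 532550) (nat_lit 12) .nil))))))) (.g (nat_lit 1) (.e (nat_lit 384772) (nat_lit 0) .nil) .nil))) 
(.lf (nat_lit 584416) (.g (nat_lit 858) (.e (nat_lit 376855) (nat_lit 20) (.e (nat_lit 1800) (nat_lit 119) (.e (nat_lit 516139) (nat_lit 7) (.e (nat_lit 409616) (nat_lit 10) .nil)))) (.g (nat_lit 0) (.e (nat_lit 386113) (nat_lit 0) .nil) .nil)))) (.nd (nat_lit 9) 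
(.lf (nat_lit 584160) (.g (nat_lit 3817) (.e (nat_lit 368676) (nat_lit 21) (.e (nat_lit 516131) (nat_lit 3) (.e (nat_lit 221215) (nat_lit 23) (.e (nat_lit 204830) (nat_lit 18) (.e (nat_lit 57929) (nat_lit 282) (.e (nat_lit 163874) (nat_lit 3) (.e (nat_lit 204873) (nat_lit 30) .nil))))))) (.g (nat_lit 1) (.e (nat_lit 385467) (nat_lit 0) .nil) .nil))) 
(.lf (nat_lit 584672) (.g (nat_lit 1665) (.e (nat_lit 384768) (nat_lit 23) (.e (nat_lit 98350) (nat_lit 24) (.e (nat_lit 409646) (nat_lit 18) (.e (nat_lit 303112) (nat_lit 0) .nil)))) (.g (nat_lit 0) (.e (nat_lit 386573) (nat_lit 0) .nil) .nil)))))))) (.nd (nat_lit 5) (.nd (nat_lit 6) (.nd (nat_lit 7) (.nd (nat_lit 8) (.nd (nat_lit 9) 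
(.lf (nat_lit 583696) (.g (nat_lit 2701) (.e (nat_lit 360473) (nat_lit 8) (.e (nat_lit 557087) (nat_lit 11) (.e (nat_lit 24588) (nat_lit 0) (.e (nat_lit 6680) (nat_lit 357) (.e (nat_lit 2682) (nat_lit 168) (.e (nat_lit 204868) (nat_lit 29) .nil)))))) (.g (nat_lit 1) (.e (nat_lit 384453) (nat_lit 0) .nil) .nil))) 
(.lf (nat_lit 584208) (.g (nat_lit 2959) (.e (nat_lit 368676) (nat_lit 21) (.e (nat_lit 516165) (nat_lit 12) (.e (nat_lit 450586) (nat_lit 10) (.e (nat_lit 573475) (nat_lit 12) (.e (nat_lit 57353) (nat_lit 0) (.e (nat_lit 7266) (nat_lit 384) (.e (nat_lit 57430) (nat_lit 16) .nil))))))) (.g (nat_lit 1) (.e (nat_lit 385518) (nat_lit 0) .nil) .nil)))) (.nd (nat_lit 9) 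
(.lf (nat_lit 583952) (.g (nat_lit 3363) (.e (nat_lit 360475) (nat_lit 8) (.e (nat_lit 557091) (nat_lit 12) (.e (nat_lit 164022) (nat_lit 46) (.e (nat_lit 704628) (nat_lit 9) (.e (nat_lit 375) (nat_lit 32) (.e (nat_lit 426125) (nat_lit 2) (.e (nat_lit 196630) (nat_lit 9) (.e (nat_lit 1580) (nat_lit 111) .nil)))))))) (.g (nat_lit 1) (.e (nat_lit 384847) (nat_lit 0) .nil) .nil))) 
(.lf (nat_lit 584464) (.g (nat_lit 3919) (.e (nat_lit 376857) (nat_lit 21) (.e (nat_lit 57849) (nat_lit 252) (.e (nat_lit 57388) (nat_lit 5) (.e (nat_lit 114698) (nat_lit 11) (.e (nat_lit 426200) (nat_lit 9) (.e (nat_lit 426555) (nat_lit 32) .nil)))))) (.g (nat_lit 1) (.e (nat_lit 386193) (nat_lit 0) .nil) .nil))))) (.nd (nat_lit 8) (.nd (nat_lit 9) 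
(.lf (nat_lit 583824) (.g (nat_lit 2515) (.e (nat_lit 360474) (nat_lit 8) (.e (nat_lit 557091) (nat_lit 12) (.e (nat_lit 163843) (nat_lit 0) (.e (nat_lit 6421) (nat_lit 341) (.e (nat_lit 163915) (nat_lit 12) .nil))))) (.g (nat_lit 0) (.e (nat_lit 384678) (nat_lit 0) .nil) .nil))) 
(.lf (nat_lit 584336) (.g (nat_lit 360) (.e (nat_lit 384768) (nat_lit 5) (.e (nat_lit 221206) (nat_lit 21) (.e (nat_lit 164326) (nat_lit 230) .nil))) (.g (nat_lit 0) (.e (nat_lit 385965) (nat_lit 0) .nil) .nil)))) (.nd (nat_lit 9) 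
(.lf (nat_lit 584080) (.g (nat_lit 2708) (.e (nat_lit 368676) (nat_lit 21) (.e (nat_lit 516129) (nat_lit 3) (.e (nat_lit 221214) (nat_lit 23) (.e (nat_lit 204830) (nat_lit 18) (.e (nat_lit 57927) (nat_lit 282) (.e (nat_lit 163874) (nat_lit 3) (.e (nat_lit 204873) (nat_lit 30) .nil))))))) (.g (nat_lit 1) (.e (nat_lit 385373) (nat_lit 0) .nil) .nil))) 
(.lf (nat_lit 584592) (.g (nat_lit 1798) (.e (nat_lit 376866) (nat_lit 23) (.e (nat_lit 98349) (nat_lit 24) (.e (nat_lit 409649) (nat_lit 18) (.e (nat_lit 303119) (nat_lit 3) .nil)))) (.g (nat_lit 0) (.e (nat_lit 386428) (nat_lit 0) .nil) .nil)))))) (.nd (nat_lit 7) (.nd (nat_lit 8) (.nd (nat_lit 9) 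
(.lf (nat_lit 583760) (.g (nat_lit 3058) (.e (nat_lit 360473) (nat_lit 8) (.e (nat_lit 557091) (nat_lit 12) (.e (nat_lit 164018) (nat_lit 45) (.e (nat_lit 696329) (nat_lit 5) (.e (nat_lit 2884) (nat_lit 184) (.e (nat_lit 426140) (nat_lit 3) (.e (nat_lit 204868) (nat_lit 29) .nil))))))) (.g (nat_lit 1) (.e (nat_lit 384552) (nat_lit 0) .nil) .nil))) 
(.lf (nat_lit 584272) (.g (nat_lit 2900) (.e (nat_lit 368676) (nat_lit 21) (.e (nat_lit 516195) (nat_lit 26) (.e (nat_lit 335988) (nat_lit 1) (.e (nat_lit 57927) (nat_lit 282) (.e (nat_lit 163941) (nat_lit 19) (.e (nat_lit 483398) (nat_lit 25) .nil)))))) (.g (nat_lit 1) (.e (nat_lit 385596) (nat_lit 0) .nil) .nil)))) (.nd (nat_lit 9) 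
(.lf (nat_lit 584016) (.g (nat_lit 612) (.e (nat_lit 376576) (nat_lit 3) (.e (nat_lit 163950) (nat_lit 21) (.e (nat_lit 500071) (nat_lit 19) (.e (nat_lit 73780) (nat_lit 32) .nil)))) (.g (nat_lit 0) (.e (nat_lit 385041) (nat_lit 0) .nil) .nil))) 
(.lf (nat_lit 584528) (.g (nat_lit 1337) (.e (nat_lit 376859) (nat_lit 21) (.e (nat_lit 57853) (nat_lit 252) (.e (nat_lit 57389) (nat_lit 5) (.e (nat_lit 122624) (nat_lit 11) .nil)))) (.g (nat_lit 0) (.e (nat_lit 386285) (nat_lit 0) .nil) .nil))))) (.nd (nat_lit 8) (.nd (nat_lit 9) 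
(.lf (nat_lit 583888) (.g (nat_lit 2169) (.e (nat_lit 360474) (nat_lit 8) (.e (nat_lit 557094) (nat_lit 12) (.e (nat_lit 164022) (nat_lit 46) (.e (nat_lit 704737) (nat_lit 11) (.e (nat_lit 16384) (nat_lit 0) (.e (nat_lit 3259) (nat_lit 198) (.e (nat_lit 540706) (nat_lit 12) .nil))))))) (.g (nat_lit 1) (.e (nat_lit 384756) (nat_lit 0) .nil) .nil))) 
(.lf (nat_lit 584400) (.g (nat_lit 2133) (.e (nat_lit 376842) (nat_lit 11) (.e (nat_lit 426521) (nat_lit 27) (.e (nat_lit 335987) (nat_lit 1) (.e (nat_lit 57926) (nat_lit 282) (.e (nat_lit 163875) (nat_lit 3) (.e (nat_lit 204877) (nat_lit 31) .nil)))))) (.g (nat_lit 1) (.e (nat_lit 386081) (nat_lit 0) .nil) .nil)))) (.nd (nat_lit 9) 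
(.lf (nat_lit 584144) (.g (nat_lit 3294) (.e (nat_lit 368676) (nat_lit 21) (.e (nat_lit 516131) (nat_lit 3) (.e (nat_lit 221215) (nat_lit 23) (.e (nat_lit 204828) (nat_lit 18) (.e (nat_lit 57931) (nat_lit 282) (.e (nat_lit 163874) (nat_lit 3) (.e (nat_lit 204873) (nat_lit 30) .nil))))))) (.g (nat_lit 1) (.e (nat_lit 385451) (nat_lit 0) .nil) .nil))) 
(.lf (nat_lit 584656) (.g (nat_lit 3068) (.e (nat_lit 376869) (nat_lit 23) (.e (nat_lit 98317) (nat_lit 9) (.e (nat_lit 335996) (nat_lit 1) (.e (nat_lit 57931) (nat_lit 282) (.e (nat_lit 163902) (nat_lit 12) (.e (nat_lit 426555) (nat_lit 32) .nil)))))) (.g (nat_lit 1) (.e (nat_lit 386520) (nat_lit 0) .nil) .nil))))))) (.nd (nat_lit 6) (.nd (nat_lit 7) (.nd (nat_lit 8) (.nd (nat_lit 9) 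
(.lf (nat_lit 583728) (.g (nat_lit 1337) (.e (nat_lit 360473) (nat_lit 8) (.e (nat_lit 557089) (nat_lit 12) (.e (nat_lit 164007) (nat_lit 41) (.e (nat_lit 663574) (nat_lit 9) (.e (nat_lit 249) (nat_lit 21) .nil))))) (.g (nat_lit 0) (.e (nat_lit 384498) (nat_lit 0) .nil) .nil))) 
(.lf (nat_lit 584240) (.g (nat_lit 4190) (.e (nat_lit 368676) (nat_lit 21) (.e (nat_lit 516166) (nat_lit 12) (.e (nat_lit 450587) (nat_lit 10) (.e (nat_lit 573477) (nat_lit 12) (.e (nat_lit 57351) (nat_lit 0) .nil))))) (.g (nat_lit 0) (.e (nat_lit 385550) (nat_lit 0) .nil) .nil)))) (.nd (nat_lit 9) 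
(.lf (nat_lit 583984) (.g (nat_lit 385) (.e (nat_lit 360493) (nat_lit 27) (.e (nat_lit 819203) (nat_lit 0) (.e (nat_lit 3028) (nat_lit 187) (.e (nat_lit 450577) (nat_lit 4) (.e (nat_lit 532224) (nat_lit 29) .nil))))) (.g (nat_lit 1) (.e (nat_lit 384917) (nat_lit 0) .nil) .nil))) 
(.lf (nat_lit 584496) (.g (nat_lit 1357) (.e (nat_lit 376858) (nat_lit 21) (.e (nat_lit 57854) (nat_lit 252) (.e (nat_lit 57389) (nat_lit 5) (.e (nat_lit 114697) (nat_lit 11) .nil)))) (.g (nat_lit 0) (.e (nat_lit 386240) (nat_lit 0) .nil) .nil))))) (.nd (nat_lit 8) (.nd (nat_lit 9) 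
(.lf (nat_lit 583856) (.g (nat_lit 2779) (.e (nat_lit 360474) (nat_lit 8) (.e (nat_lit 557093) (nat_lit 12) (.e (nat_lit 164022) (nat_lit 46) (.e (nat_lit 704738) (nat_lit 11) (.e (nat_lit 16389) (nat_lit 0) (.e (nat_lit 3258) (nat_lit 198) (.e (nat_lit 540706) (nat_lit 12) .nil))))))) (.g (nat_lit 1) (.e (nat_lit 384721) (nat_lit 0) .nil) .nil))) 
(.lf (nat_lit 584368) (.g (nat_lit 2779) (.e (nat_lit 376840) (nat_lit 11) (.e (nat_lit 426525) (nat_lit 27) (.e (nat_lit 335986) (nat_lit 1) (.e (nat_lit 57926) (nat_lit 282) (.e (nat_lit 163874) (nat_lit 3) (.e (nat_lit 204877) (nat_lit 31) .nil)))))) (.g (nat_lit 1) (.e (nat_lit 386044) (nat_lit 0) .nil) .nil)))) (.nd (nat_lit 9) 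
(.lf (nat_lit 584112) (.g (nat_lit 2829) (.e (nat_lit 368676) (nat_lit 21) (.e (nat_lit 516131) (nat_lit 3) (.e (nat_lit 221213) (nat_lit 23) (.e (nat_lit 204830) (nat_lit 18) (.e (nat_lit 57927) (nat_lit 282) (.e (nat_lit 163875) (nat_lit 3) (.e (nat_lit 204872) (nat_lit 30) .nil))))))) (.g (nat_lit 1) (.e (nat_lit 385414) (nat_lit 0) .nil) .nil))) 
(.lf (nat_lit 584624) (.g (nat_lit 2638) (.e (nat_lit 376868) (nat_lit 23) (.e (nat_lit 98349) (nat_lit 24) (.e (nat_lit 409645) (nat_lit 18) (.e (nat_lit 303112) (nat_lit 0) (.e (nat_lit 3252) (nat_lit 197) .nil))))) (.g (nat_lit 0) (.e (nat_lit 386474) (nat_lit 0) .nil) .nil)))))) (.nd (nat_lit 7) (.nd (nat_lit 8) (.nd (nat_lit 9) 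
(.lf (nat_lit 583792) (.g (nat_lit 2556) (.e (nat_lit 360473) (nat_lit 8) (.e (nat_lit 557094) (nat_lit 12) (.e (nat_lit 163847) (nat_lit 0) (.e (nat_lit 6420) (nat_lit 341) (.e (nat_lit 163900) (nat_lit 12) (.e (nat_lit 426140) (nat_lit 3) (.e (nat_lit 204868) (nat_lit 29) .nil))))))) (.g (nat_lit 1) (.e (nat_lit 384605) (nat_lit 0) .nil) .nil))) 
(.lf (nat_lit 584304) (.g (nat_lit 1752) (.e (nat_lit 376833) (nat_lit 0) (.e (nat_lit 3302) (nat_lit 202) (.e (nat_lit 573485) (nat_lit 13) (.e (nat_lit 65628) (nat_lit 14) (.e (nat_lit 401428) (nat_lit 3) .nil))))) (.g (nat_lit 0) (.e (nat_lit 385708) (nat_lit 0) .nil) .nil)))) (.nd (nat_lit 9) 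
(.lf (nat_lit 584048) (.g (nat_lit 5069) (.e (nat_lit 368675) (nat_lit 21) (.e (nat_lit 516166) (nat_lit 12) (.e (nat_lit 450588) (nat_lit 10) (.e (nat_lit 573473) (nat_lit 12) (.e (nat_lit 57354) (nat_lit 0) .nil))))) (.g (nat_lit 0) (.e (nat_lit 385302) (nat_lit 0) .nil) .nil))) 
(.lf (nat_lit 584560) (.g (nat_lit 1570) (.e (nat_lit 376860) (nat_lit 21) (.e (nat_lit 57930) (nat_lit 282) (.e (nat_lit 163896) (nat_lit 10) (.e (nat_lit 409616) (nat_lit 10) (.e (nat_lit 7936) (nat_lit 316) (.e (nat_lit 179968) (nat_lit 32) .nil)))))) (.g (nat_lit 1) (.e (nat_lit 386347) (nat_lit 0) .nil) .nil))))) (.nd (nat_lit 8) (.nd (nat_lit 9) 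
(.lf (nat_lit 583920) (.g (nat_lit 2127) (.e (nat_lit 360475) (nat_lit 8) (.e (nat_lit 557087) (nat_lit 11) (.e (nat_lit 24664) (nat_lit 14) (.e (nat_lit 401410) (nat_lit 0) (.e (nat_lit 3262) (nat_lit 198) .nil))))) (.g (nat_lit 0) (.e (nat_lit 384803) (nat_lit 0) .nil) .nil))) 
(.lf (nat_lit 584432) (.g (nat_lit 2085) (.e (nat_lit 376855) (nat_lit 20) (.e (nat_lit 1800) (nat_lit 119) (.e (nat_lit 516139) (nat_lit 7) (.e (nat_lit 409649) (nat_lit 18) (.e (nat_lit 303111) (nat_lit 0) .nil))))) (.g (nat_lit 0) (.e (nat_lit 386130) (nat_lit 0) .nil) .nil)))) (.nd (nat_lit 9) 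
(.lf (nat_lit 584176) (.g (nat_lit 3644) (.e (nat_lit 368676) (nat_lit 21) (.e (nat_lit 516139) (nat_lit 7) (.e (nat_lit 409646) (nat_lit 18) (.e (nat_lit 303119) (nat_lit 3) (.e (nat_lit 204861) (nat_lit 26) (.e (nat_lit 336184) (nat_lit 11) .nil)))))) (.g (nat_lit 1) (.e (nat_lit 385485) (nat_lit 0) .nil) .nil))) 
(.lf (nat_lit 584688) (.g (nat_lit 4666) (.e (nat_lit 392960) (nat_lit 10) (.e (nat_lit 24630) (nat_lit 9) (.e (nat_lit 336324) (nat_lit 18) (.e (nat_lit 204831) (nat_lit 18) (.e (nat_lit 57849) (nat_lit 252) .nil))))) (.g (nat_lit 0) (.e (nat_lit 386646) (nat_lit 0) .nil) .nil))))))))) (.nd (nat_lit 4) (.nd (nat_lit 5) (.nd (nat_lit 6) (.nd (nat_lit 7) (.nd (nat_lit 8) (.nd (nat_lit 9) 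
(.lf (nat_lit 583688) (.g (nat_lit 2408) (.e (nat_lit 360473) (nat_lit 8) (.e (nat_lit 557087) (nat_lit 11) (.e (nat_lit 24577) (nat_lit 0) (.e (nat_lit 6619) (nat_lit 357) (.e (nat_lit 2685) (nat_lit 168) (.e (nat_lit 204868) (nat_lit 29) .nil)))))) (.g (nat_lit 1) (.e (nat_lit 384440) (nat_lit 0) .nil) .nil))) 
(.lf (nat_lit 584200) (.g (nat_lit 4094) (.e (nat_lit 368676) (nat_lit 21) (.e (nat_lit 516165) (nat_lit 12) (.e (nat_lit 450586) (nat_lit 10) (.e (nat_lit 573475) (nat_lit 12) (.e (nat_lit 57347) (nat_lit 0) (.e (nat_lit 7265) (nat_lit 384) (.e (nat_lit 57431) (nat_lit 16) .nil))))))) (.g (nat_lit 1) (.e (nat_lit 385510) (nat_lit 0) .nil) .nil)))) (.nd (nat_lit 9) 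
(.lf (nat_lit 583944) (.g (nat_lit 3432) (.e (nat_lit 360475) (nat_lit 8) (.e (nat_lit 557090) (nat_lit 12) (.e (nat_lit 164020) (nat_lit 45) (.e (nat_lit 696342) (nat_lit 8) (.e (nat_lit 172041) (nat_lit 0) (.e (nat_lit 3262) (nat_lit 198) (.e (nat_lit 540706) (nat_lit 12) .nil))))))) (.g (nat_lit 1) (.e (nat_lit 384837) (nat_lit 0) .nil) .nil))) 
(.lf (nat_lit 584456) (.g (nat_lit 1497) (.e (nat_lit 376857) (nat_lit 21) (.e (nat_lit 57847) (nat_lit 252) (.e (nat_lit 57389) (nat_lit 5) (.e (nat_lit 114695) (nat_lit 11) .nil)))) (.g (nat_lit 0) (.e (nat_lit 386183) (nat_lit 0) .nil) .nil))))) (.nd (nat_lit 8) (.nd (nat_lit 9) 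
(.lf (nat_lit 583816) (.g (nat_lit 2296) (.e (nat_lit 360473) (nat_lit 8) (.e (nat_lit 557094) (nat_lit 12) (.e (nat_lit 164022) (nat_lit 46) (.e (nat_lit 704737) (nat_lit 11) (.e (nat_lit 16397) (nat_lit 0) (.e (nat_lit 3238) (nat_lit 197) (.e (nat_lit 532549) (nat_lit 12) .nil))))))) (.g (nat_lit 1) (.e (nat_lit 384658) (nat_lit 0) .nil) .nil))) 
(.lf (nat_lit 584328) (.g (nat_lit 415) (.e (nat_lit 376837) (nat_lit 0) (.e (nat_lit 3632) (nat_lit 227) (.e (nat_lit 778323) (nat_lit 5) .nil))) (.g (nat_lit 0) (.e (nat_lit 385825) (nat_lit 0) .nil) .nil)))) (.nd (nat_lit 9) 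
(.lf (nat_lit 584072) (.g (nat_lit 2810) (.e (nat_lit 368676) (nat_lit 21) (.e (nat_lit 516129) (nat_lit 3) (.e (nat_lit 221214) (nat_lit 23) (.e (nat_lit 204829) (nat_lit 18) (.e (nat_lit 57931) (nat_lit 282) (.e (nat_lit 163874) (nat_lit 3) (.e (nat_lit 204872) (nat_lit 30) .nil))))))) (.g (nat_lit 1) (.e (nat_lit 385365) (nat_lit 0) .nil) .nil))) 
(.lf (nat_lit 584584) (.g (nat_lit 2965) (.e (nat_lit 376865) (nat_lit 22) (.e (nat_lit 90158) (nat_lit 11) (.e (nat_lit 24597) (nat_lit 1) (.e (nat_lit 57927) (nat_lit 282) (.e (nat_lit 163903) (nat_lit 12) (.e (nat_lit 426555) (nat_lit 32) .nil)))))) (.g (nat_lit 1) (.e (nat_lit 386410) (nat_lit 0) .nil) .nil)))))) (.nd (nat_lit 7) (.nd (nat_lit 8) (.nd (nat_lit 9) 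
(.lf (nat_lit 583752) (.g (nat_lit 2443) (.e (nat_lit 360473) (nat_lit 8) (.e (nat_lit 557091) (nat_lit 12) (.e (nat_lit 163843) (nat_lit 0) (.e (nat_lit 6421) (nat_lit 341) (.e (nat_lit 163915) (nat_lit 12) .nil))))) (.g (nat_lit 0) (.e (nat_lit 384527) (nat_lit 0) .nil) .nil))) 
(.lf (nat_lit 584264) (.g (nat_lit 5494) (.e (nat_lit 368676) (nat_lit 21) (.e (nat_lit 516166) (nat_lit 12) (.e (nat_lit 450588) (nat_lit 10) (.e (nat_lit 573475) (nat_lit 12) (.e (nat_lit 57353) (nat_lit 0) (.e (nat_lit 7266) (nat_lit 384) (.e (nat_lit 57430) (nat_lit 16) .nil))))))) (.g (nat_lit 1) (.e (nat_lit 385574) (nat_lit 0) .nil) .nil)))) (.nd (nat_lit 9) 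
(.lf (nat_lit 584008) (.g (nat_lit 2219) (.e (nat_lit 360493) (nat_lit 27) (.e (nat_lit 819204) (nat_lit 0) (.e (nat_lit 3027) (nat_lit 187) (.e (nat_lit 450584) (nat_lit 9) (.e (nat_lit 565252) (nat_lit 0) (.e (nat_lit 1589) (nat_lit 111) .nil)))))) (.g (nat_lit 1) (.e (nat_lit 384949) (nat_lit 0) .nil) .nil))) 
(.lf (nat_lit 584520) (.g (nat_lit 401) (.e (nat_lit 376859) (nat_lit 21) (.e (nat_lit 57849) (nat_lit 252) (.e (nat_lit 57390) (nat_lit 5) .nil))) (.g (nat_lit 0) (.e (nat_lit 386277) (nat_lit 0) .nil) .nil))))) (.nd (nat_lit 8) (.nd (nat_lit 9) 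
(.lf (nat_lit 583880) (.g (nat_lit 2287) (.e (nat_lit 360474) (nat_lit 8) (.e (nat_lit 557094) (nat_lit 12) (.e (nat_lit 164022) (nat_lit 46) (.e (nat_lit 704629) (nat_lit 9) (.e (nat_lit 452) (nat_lit 33) (.e (nat_lit 434219) (nat_lit 19) (.e (nat_lit 499975) (nat_lit 14) (.e (nat_lit 1587) (nat_lit 111) .nil)))))))) (.g (nat_lit 1) (.e (nat_lit 384746) (nat_lit 0) .nil) .nil))) 
(.lf (nat_lit 584392) (.g (nat_lit 786) (.e (nat_lit 376842) (nat_lit 11) (.e (nat_lit 426500) (nat_lit 27) (.e (nat_lit 335988) (nat_lit 1) (.e (nat_lit 57926) (nat_lit 282) .nil)))) (.g (nat_lit 0) (.e (nat_lit 386073) (nat_lit 0) .nil) .nil)))) (.nd (nat_lit 9) 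
(.lf (nat_lit 584136) (.g (nat_lit 2652) (.e (nat_lit 368676) (nat_lit 21) (.e (nat_lit 516131) (nat_lit 3) (.e (nat_lit 221215) (nat_lit 23) (.e (nat_lit 204828) (nat_lit 18) (.e (nat_lit 57926) (nat_lit 282) (.e (nat_lit 163874) (nat_lit 3) (.e (nat_lit 204872) (nat_lit 30) .nil))))))) (.g (nat_lit 1) (.e (nat_lit 385443) (nat_lit 0) .nil) .nil))) 
(.lf (nat_lit 584648) (.g (nat_lit 3126) (.e (nat_lit 376869) (nat_lit 23) (.e (nat_lit 98313) (nat_lit 9) (.e (nat_lit 335995) (nat_lit 1) (.e (nat_lit 57931) (nat_lit 282) (.e (nat_lit 163902) (nat_lit 12) (.e (nat_lit 426555) (nat_lit 32) .nil)))))) (.g (nat_lit 1) (.e (nat_lit 386510) (nat_lit 0) .nil) .nil))))))) (.nd (nat_lit 6) (.nd (nat_lit 7) (.nd (nat_lit 8) (.nd (nat_lit 9) 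
(.lf (nat_lit 583720) (.g (nat_lit 3030) (.e (nat_lit 360473) (nat_lit 8) (.e (nat_lit 557089) (nat_lit 12) (.e (nat_lit 163849) (nat_lit 0) (.e (nat_lit 6416) (nat_lit 341) (.e (nat_lit 163900) (nat_lit 12) (.e (nat_lit 426140) (nat_lit 3) (.e (nat_lit 204868) (nat_lit 29) .nil))))))) (.g (nat_lit 1) (.e (nat_lit 384484) (nat_lit 0) .nil) .nil))) 
(.lf (nat_lit 584232) (.g (nat_lit 4186) (.e (nat_lit 368676) (nat_lit 21) (.e (nat_lit 516165) (nat_lit 12) (.e (nat_lit 450588) (nat_lit 10) (.e (nat_lit 573475) (nat_lit 12) (.e (nat_lit 57348) (nat_lit 0) (.e (nat_lit 7266) (nat_lit 384) (.e (nat_lit 57431) (nat_lit 16) .nil))))))) (.g (nat_lit 1) (.e (nat_lit 385542) (nat_lit 0) .nil) .nil)))) (.nd (nat_lit 9) 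
(.lf (nat_lit 583976) (.g (nat_lit 1072) (.e (nat_lit 360493) (nat_lit 27) (.e (nat_lit 819203) (nat_lit 0) (.e (nat_lit 3021) (nat_lit 187) (.e (nat_lit 450584) (nat_lit 9) (.e (nat_lit 565252) (nat_lit 0) (.e (nat_lit 1592) (nat_lit 111) .nil)))))) (.g (nat_lit 1) (.e (nat_lit 384908) (nat_lit 0) .nil) .nil))) 
(.lf (nat_lit 584488) (.g (nat_lit 552) (.e (nat_lit 376858) (nat_lit 21) (.e (nat_lit 57846) (nat_lit 252) (.e (nat_lit 57388) (nat_lit 5) .nil))) (.g (nat_lit 0) (.e (nat_lit 386232) (nat_lit 0) .nil) .nil))))) (.nd (nat_lit 8) (.nd (nat_lit 9) 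
(.lf (nat_lit 583848) (.g (nat_lit 2512) (.e (nat_lit 360474) (nat_lit 8) (.e (nat_lit 557093) (nat_lit 12) (.e (nat_lit 164022) (nat_lit 46) (.e (nat_lit 704737) (nat_lit 11) (.e (nat_lit 16390) (nat_lit 0) (.e (nat_lit 3262) (nat_lit 198) (.e (nat_lit 540706) (nat_lit 12) .nil))))))) (.g (nat_lit 1) (.e (nat_lit 384713) (nat_lit 0) .nil) .nil))) 
(.lf (nat_lit 584360) (.g (nat_lit 1519) (.e (nat_lit 376838) (nat_lit 11) (.e (nat_lit 426107) (nat_lit 1) (.e (nat_lit 164182) (nat_lit 154) (.e (nat_lit 57409) (nat_lit 12) .nil)))) (.g (nat_lit 0) (.e (nat_lit 386035) (nat_lit 0) .nil) .nil)))) (.nd (nat_lit 9) 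
(.lf (nat_lit 584104) (.g (nat_lit 1458) (.e (nat_lit 368676) (nat_lit 21) (.e (nat_lit 516131) (nat_lit 3) (.e (nat_lit 221212) (nat_lit 22) (.e (nat_lit 196628) (nat_lit 9) (.e (nat_lit 1184) (nat_lit 87) .nil))))) (.g (nat_lit 0) (.e (nat_lit 385402) (nat_lit 0) .nil) .nil))) 
(.lf (nat_lit 584616) (.g (nat_lit 1806) (.e (nat_lit 376867) (nat_lit 23) (.e (nat_lit 98349) (nat_lit 24) (.e (nat_lit 409644) (nat_lit 18) (.e (nat_lit 303112) (nat_lit 0) (.e (nat_lit 3252) (nat_lit 197) (.e (nat_lit 532561) (nat_lit 14) .nil)))))) (.g (nat_lit 1) (.e (nat_lit 386464) (nat_lit 0) .nil) .nil)))))) (.nd (nat_lit 7) (.nd (nat_lit 8) (.nd (nat_lit 9) 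
(.lf (nat_lit 583784) (.g (nat_lit 2348) (.e (nat_lit 360473) (nat_lit 8) (.e (nat_lit 557093) (nat_lit 12) (.e (nat_lit 164022) (nat_lit 46) (.e (nat_lit 704737) (nat_lit 11) (.e (nat_lit 16397) (nat_lit 0) (.e (nat_lit 3238) (nat_lit 197) (.e (nat_lit 532549) (nat_lit 12) .nil))))))) (.g (nat_lit 1) (.e (nat_lit 384594) (nat_lit 0) .nil) .nil))) 
(.lf (nat_lit 584296) (.g (nat_lit 1540) (.e (nat_lit 368698) (nat_lit 43) (.e (nat_lit 770072) (nat_lit 8) (.e (nat_lit 65610) (nat_lit 10) (.e (nat_lit 344090) (nat_lit 18) (.e (nat_lit 7261) (nat_lit 384) (.e (nat_lit 57409) (nat_lit 12) (.e (nat_lit 336182) (nat_lit 11) .nil))))))) (.g (nat_lit 1) (.e (nat_lit 385663) (nat_lit 0) .nil) .nil)))) (.nd (nat_lit 9) 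
(.lf (nat_lit 584040) (.g (nat_lit 1499) (.e (nat_lit 368662) (nat_lit 18) (.e (nat_lit 5907) (nat_lit 320) (.e (nat_lit 1209) (nat_lit 89) (.e (nat_lit 73782) (nat_lit 32) (.e (nat_lit 3087) (nat_lit 191) .nil))))) (.g (nat_lit 0) (.e (nat_lit 385212) (nat_lit 0) .nil) .nil))) 
(.lf (nat_lit 584552) (.g (nat_lit 3591) (.e (nat_lit 376860) (nat_lit 21) (.e (nat_lit 57854) (nat_lit 252) (.e (nat_lit 57388) (nat_lit 5) (.e (nat_lit 114698) (nat_lit 11) (.e (nat_lit 426188) (nat_lit 9) (.e (nat_lit 426555) (nat_lit 32) .nil)))))) (.g (nat_lit 1) (.e (nat_lit 386339) (nat_lit 0) .nil) .nil))))) (.nd (nat_lit 8) (.nd (nat_lit 9) 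
(.lf (nat_lit 583912) (.g (nat_lit 3946) (.e (nat_lit 360475) (nat_lit 8) (.e (nat_lit 557085) (nat_lit 11) (.e (nat_lit 24662) (nat_lit 14) (.e (nat_lit 401412) (nat_lit 0) (.e (nat_lit 3262) (nat_lit 198) .nil))))) (.g (nat_lit 0) (.e (nat_lit 384791) (nat_lit 0) .nil) .nil))) 
(.lf (nat_lit 584424) (.g (nat_lit 1965) (.e (nat_lit 376855) (nat_lit 20) (.e (nat_lit 1800) (nat_lit 119) (.e (nat_lit 516139) (nat_lit 7) (.e (nat_lit 409648) (nat_lit 18) (.e (nat_lit 303108) (nat_lit 0) (.e (nat_lit 3238) (nat_lit 197) (.e (nat_lit 532559) (nat_lit 14) .nil))))))) (.g (nat_lit 1) (.e (nat_lit 386121) (nat_lit 0) .nil) .nil)))) (.nd (nat_lit 9) 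
(.lf (nat_lit 584168) (.g (nat_lit 3256) (.e (nat_lit 368676) (nat_lit 21) (.e (nat_lit 516138) (nat_lit 7) (.e (nat_lit 409645) (nat_lit 18) (.e (nat_lit 303119) (nat_lit 3) (.e (nat_lit 204861) (nat_lit 26) (.e (nat_lit 336185) (nat_lit 11) .nil)))))) (.g (nat_lit 1) (.e (nat_lit 385476) (nat_lit 0) .nil) .nil))) 
(.lf (nat_lit 584680) (.g (nat_lit 2276) (.e (nat_lit 385030) (nat_lit 8) (.e (nat_lit 3067) (nat_lit 190) (.e (nat_lit 475179) (nat_lit 24) (.e (nat_lit 516120) (nat_lit 1) (.e (nat_lit 164332) (nat_lit 230) .nil))))) (.g (nat_lit 0) (.e (nat_lit 386613) (nat_lit 0) .nil) .nil)))))))) (.nd (nat_lit 5) (.nd (nat_lit 6) (.nd (nat_lit 7) (.nd (nat_lit 8) (.nd (nat_lit 9) 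
(.lf (nat_lit 583704) (.g (nat_lit 3565) (.e (nat_lit 360473) (nat_lit 8) (.e (nat_lit 557087) (nat_lit 11) (.e (nat_lit 24662) (nat_lit 14) (.e (nat_lit 401414) (nat_lit 0) (.e (nat_lit 3238) (nat_lit 197) (.e (nat_lit 532549) (nat_lit 12) .nil)))))) (.g (nat_lit 1) (.e (nat_lit 384461) (nat_lit 0) .nil) .nil))) 
(.lf (nat_lit 584216) (.g (nat_lit 4607) (.e (nat_lit 368676) (nat_lit 21) (.e (nat_lit 516165) (nat_lit 12) (.e (nat_lit 450588) (nat_lit 10) (.e (nat_lit 573473) (nat_lit 12) (.e (nat_lit 57348) (nat_lit 0) (.e (nat_lit 7266) (nat_lit 384) (.e (nat_lit 57430) (nat_lit 16) .nil))))))) (.g (nat_lit 1) (.e (nat_lit 385526) (nat_lit 0) .nil) .nil)))) (.nd (nat_lit 9) 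
(.lf (nat_lit 583960) (.g (nat_lit 3463) (.e (nat_lit 360475) (nat_lit 8) (.e (nat_lit 557091) (nat_lit 12) (.e (nat_lit 164022) (nat_lit 46) (.e (nat_lit 704738) (nat_lit 11) (.e (nat_lit 16398) (nat_lit 0) (.e (nat_lit 3258) (nat_lit 198) (.e (nat_lit 540706) (nat_lit 12) .nil))))))) (.g (nat_lit 1) (.e (nat_lit 384856) (nat_lit 0) .nil) .nil))) 
(.lf (nat_lit 584472) (.g (nat_lit 791) (.e (nat_lit 376857) (nat_lit 21) (.e (nat_lit 57851) (nat_lit 252) (.e (nat_lit 57388) (nat_lit 5) (.e (nat_lit 122624) (nat_lit 11) .nil)))) (.g (nat_lit 0) (.e (nat_lit 386202) (nat_lit 0) .nil) .nil))))) (.nd (nat_lit 8) (.nd (nat_lit 9) 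
(.lf (nat_lit 583832) (.g (nat_lit 2499) (.e (nat_lit 360474) (nat_lit 8) (.e (nat_lit 557093) (nat_lit 12) (.e (nat_lit 164022) (nat_lit 46) (.e (nat_lit 704628) (nat_lit 9) (.e (nat_lit 452) (nat_lit 33) (.e (nat_lit 434219) (nat_lit 19) (.e (nat_lit 499981) (nat_lit 14) (.e (nat_lit 1587) (nat_lit 111) .nil)))))))) (.g (nat_lit 1) (.e (nat_lit 384695) (nat_lit 0) .nil) .nil))) 
(.lf (nat_lit 584344) (.g (nat_lit 1265) (.e (nat_lit 384768) (nat_lit 5) (.e (nat_lit 221207) (nat_lit 21) (.e (nat_lit 164325) (nat_lit 230) (.e (nat_lit 163901) (nat_lit 12) .nil)))) (.g (nat_lit 0) (.e (nat_lit 385995) (nat_lit 0) .nil) .nil)))) (.nd (nat_lit 9) 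
(.lf (nat_lit 584088) (.g (nat_lit 2105) (.e (nat_lit 368676) (nat_lit 21) (.e (nat_lit 516129) (nat_lit 3) (.e (nat_lit 221215) (nat_lit 23) (.e (nat_lit 204829) (nat_lit 18) (.e (nat_lit 57926) (nat_lit 282) (.e (nat_lit 163875) (nat_lit 3) (.e (nat_lit 204872) (nat_lit 30) .nil))))))) (.g (nat_lit 1) (.e (nat_lit 385381) (nat_lit 0) .nil) .nil))) 
(.lf (nat_lit 584600) (.g (nat_lit 2735) (.e (nat_lit 376867) (nat_lit 23) (.e (nat_lit 98313) (nat_lit 9) (.e (nat_lit 335986) (nat_lit 1) (.e (nat_lit 57927) (nat_lit 282) (.e (nat_lit 163903) (nat_lit 12) (.e (nat_lit 426555) (nat_lit 32) .nil)))))) (.g (nat_lit 1) (.e (nat_lit 386439) (nat_lit 0) .nil) .nil)))))) (.nd (nat_lit 7) (.nd (nat_lit 8) (.nd (nat_lit 9) 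
(.lf (nat_lit 583768) (.g (nat_lit 4651) (.e (nat_lit 360473) (nat_lit 8) (.e (nat_lit 557091) (nat_lit 12) (.e (nat_lit 164022) (nat_lit 46) (.e (nat_lit 704629) (nat_lit 9) (.e (nat_lit 375) (nat_lit 32) (.e (nat_lit 426140) (nat_lit 3) (.e (nat_lit 204868) (nat_lit 29) .nil))))))) (.g (nat_lit 1) (.e (nat_lit 384564) (nat_lit 0) .nil) .nil))) 
(.lf (nat_lit 584280) (.g (nat_lit 2781) (.e (nat_lit 368677) (nat_lit 21) (.e (nat_lit 516139) (nat_lit 7) (.e (nat_lit 409645) (nat_lit 18) (.e (nat_lit 303112) (nat_lit 0) (.e (nat_lit 3252) (nat_lit 197) .nil))))) (.g (nat_lit 0) (.e (nat_lit 385619) (nat_lit 0) .nil) .nil)))) (.nd (nat_lit 9) 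
(.lf (nat_lit 584024) (.g (nat_lit 503) (.e (nat_lit 376576) (nat_lit 5) (.e (nat_lit 180225) (nat_lit 0) (.e (nat_lit 6420) (nat_lit 341) .nil))) (.g (nat_lit 0) (.e (nat_lit 385095) (nat_lit 0) .nil) .nil))) 
(.lf (nat_lit 584536) (.g (nat_lit 1667) (.e (nat_lit 376860) (nat_lit 21) (.e (nat_lit 57830) (nat_lit 250) (.e (nat_lit 7936) (nat_lit 166) (.e (nat_lit 188434) (nat_lit 20) (.e (nat_lit 3391) (nat_lit 210) (.e (nat_lit 639004) (nat_lit 13) (.e (nat_lit 1615) (nat_lit 113) .nil))))))) (.g (nat_lit 1) (.e (nat_lit 386300) (nat_lit 0) .nil) .nil))))) (.nd (nat_lit 8) (.nd (nat_lit 9) 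
(.lf (nat_lit 583896) (.g (nat_lit 2351) (.e (nat_lit 360474) (nat_lit 8) (.e (nat_lit 557094) (nat_lit 12) (.e (nat_lit 164022) (nat_lit 46) (.e (nat_lit 704738) (nat_lit 11) (.e (nat_lit 16384) (nat_lit 0) (.e (nat_lit 3260) (nat_lit 198) (.e (nat_lit 540706) (nat_lit 12) .nil))))))) (.g (nat_lit 1) (.e (nat_lit 384764) (nat_lit 0) .nil) .nil))) 
(.lf (nat_lit 584408) (.g (nat_lit 551) (.e (nat_lit 384768) (nat_lit 19) (.e (nat_lit 491585) (nat_lit 29) (.e (nat_lit 442424) (nat_lit 22) (.e (nat_lit 204544) (nat_lit 0) .nil)))) (.g (nat_lit 0) (.e (nat_lit 386097) (nat_lit 0) .nil) .nil)))) (.nd (nat_lit 9) 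
(.lf (nat_lit 584152) (.g (nat_lit 2323) (.e (nat_lit 368676) (nat_lit 21) (.e (nat_lit 516131) (nat_lit 3) (.e (nat_lit 221215) (nat_lit 23) (.e (nat_lit 204830) (nat_lit 18) (.e (nat_lit 57925) (nat_lit 282) (.e (nat_lit 163875) (nat_lit 3) (.e (nat_lit 204872) (nat_lit 30) .nil))))))) (.g (nat_lit 1) (.e (nat_lit 385459) (nat_lit 0) .nil) .nil))) 
(.lf (nat_lit 584664) (.g (nat_lit 1888) (.e (nat_lit 376869) (nat_lit 23) (.e (nat_lit 98350) (nat_lit 24) (.e (nat_lit 409646) (nat_lit 18) (.e (nat_lit 303104) (nat_lit 0) .nil)))) (.g (nat_lit 0) (.e (nat_lit 386543) (nat_lit 0) .nil) .nil))))))) (.nd (nat_lit 6) (.nd (nat_lit 7) (.nd (nat_lit 8) (.nd (nat_lit 9) 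
(.lf (nat_lit 583736) (.g (nat_lit 3177) (.e (nat_lit 360473) (nat_lit 8) (.e (nat_lit 557089) (nat_lit 12) (.e (nat_lit 164020) (nat_lit 45) (.e (nat_lit 696328) (nat_lit 5) (.e (nat_lit 2884) (nat_lit 184) (.e (nat_lit 426140) (nat_lit 3) (.e (nat_lit 204868) (nat_lit 29) .nil))))))) (.g (nat_lit 1) (.e (nat_lit 384509) (nat_lit 0) .nil) .nil))) 
(.lf (nat_lit 584248) (.g (nat_lit 6136) (.e (nat_lit 368676) (nat_lit 21) (.e (nat_lit 516166) (nat_lit 12) (.e (nat_lit 450588) (nat_lit 10) (.e (nat_lit 573472) (nat_lit 12) .nil)))) (.g (nat_lit 0) (.e (nat_lit 385558) (nat_lit 0) .nil) .nil)))) (.nd (nat_lit 9) 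
(.lf (nat_lit 583992) (.g (nat_lit 1493) (.e (nat_lit 360493) (nat_lit 27) (.e (nat_lit 819204) (nat_lit 0) (.e (nat_lit 3016) (nat_lit 187) (.e (nat_lit 450584) (nat_lit 9) (.e (nat_lit 565251) (nat_lit 0) .nil))))) (.g (nat_lit 0) (.e (nat_lit 384930) (nat_lit 0) .nil) .nil))) 
(.lf (nat_lit 584504) (.g (nat_lit 1205) (.e (nat_lit 376859) (nat_lit 21) (.e (nat_lit 57846) (nat_lit 252) (.e (nat_lit 57389) (nat_lit 5) (.e (nat_lit 114696) (nat_lit 11) .nil)))) (.g (nat_lit 0) (.e (nat_lit 386257) (nat_lit 0) .nil) .nil))))) (.nd (nat_lit 8) (.nd (nat_lit 9) 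
(.lf (nat_lit 583864) (.g (nat_lit 2690) (.e (nat_lit 360474) (nat_lit 8) (.e (nat_lit 557093) (nat_lit 12) (.e (nat_lit 164023) (nat_lit 46) (.e (nat_lit 704737) (nat_lit 11) (.e (nat_lit 16386) (nat_lit 0) (.e (nat_lit 7936) (nat_lit 197) (.e (nat_lit 532550) (nat_lit 12) .nil))))))) (.g (nat_lit 1) (.e (nat_lit 384729) (nat_lit 0) .nil) .nil))) 
(.lf (nat_lit 584376) (.g (nat_lit 1411) (.e (nat_lit 376842) (nat_lit 11) (.e (nat_lit 426107) (nat_lit 1) (.e (nat_lit 164182) (nat_lit 154) (.e (nat_lit 57410) (nat_lit 12) .nil)))) (.g (nat_lit 0) (.e (nat_lit 386056) (nat_lit 0) .nil) .nil)))) (.nd (nat_lit 9) 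
(.lf (nat_lit 584120) (.g (nat_lit 3448) (.e (nat_lit 368676) (nat_lit 21) (.e (nat_lit 516131) (nat_lit 3) (.e (nat_lit 221214) (nat_lit 23) (.e (nat_lit 204829) (nat_lit 18) (.e (nat_lit 57927) (nat_lit 282) (.e (nat_lit 163875) (nat_lit 3) (.e (nat_lit 204872) (nat_lit 30) .nil))))))) (.g (nat_lit 1) (.e (nat_lit 385422) (nat_lit 0) .nil) .nil))) 
(.lf (nat_lit 584632) (.g (nat_lit 2952) (.e (nat_lit 376868) (nat_lit 23) (.e (nat_lit 98350) (nat_lit 24) (.e (nat_lit 409645) (nat_lit 18) (.e (nat_lit 303112) (nat_lit 0) (.e (nat_lit 3252) (nat_lit 197) (.e (nat_lit 532559) (nat_lit 14) .nil)))))) (.g (nat_lit 1) (.e (nat_lit 386487) (nat_lit 0) .nil) .nil)))))) (.nd (nat_lit 7) (.nd (nat_lit 8) (.nd (nat_lit 9) 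
(.lf (nat_lit 583800) (.g (nat_lit 2464) (.e (nat_lit 360473) (nat_lit 8) (.e (nat_lit 557094) (nat_lit 12) (.e (nat_lit 164018) (nat_lit 45) (.e (nat_lit 696329) (nat_lit 5) (.e (nat_lit 2884) (nat_lit 184) (.e (nat_lit 426140) (nat_lit 3) (.e (nat_lit 204868) (nat_lit 29) .nil))))))) (.g (nat_lit 1) (.e (nat_lit 384629) (nat_lit 0) .nil) .nil))) 
(.lf (nat_lit 584312) (.g (nat_lit 1866) (.e (nat_lit 376835) (nat_lit 0) (.e (nat_lit 3304) (nat_lit 202) (.e (nat_lit 573481) (nat_lit 13) (.e (nat_lit 65630) (nat_lit 14) (.e (nat_lit 401428) (nat_lit 3) .nil))))) (.g (nat_lit 0) (.e (nat_lit 385757) (nat_lit 0) .nil) .nil)))) (.nd (nat_lit 9) 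
(.lf (nat_lit 584056) (.g (nat_lit 1283) (.e (nat_lit 368676) (nat_lit 21) (.e (nat_lit 516116) (nat_lit 1) (.e (nat_lit 164182) (nat_lit 154) (.e (nat_lit 57409) (nat_lit 12) .nil)))) (.g (nat_lit 0) (.e (nat_lit 385333) (nat_lit 0) .nil) .nil))) 
(.lf (nat_lit 584568) (.g (nat_lit 2741) (.e (nat_lit 376860) (nat_lit 21) (.e (nat_lit 57930) (nat_lit 282) (.e (nat_lit 163896) (nat_lit 10) (.e (nat_lit 409649) (nat_lit 18) (.e (nat_lit 303132) (nat_lit 9) (.e (nat_lit 433920) (nat_lit 32) .nil)))))) (.g (nat_lit 1) (.e (nat_lit 386358) (nat_lit 0) .nil) .nil))))) (.nd (nat_lit 8) (.nd (nat_lit 9) 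
(.lf (nat_lit 583928) (.g (nat_lit 3578) (.e (nat_lit 360475) (nat_lit 8) (.e (nat_lit 557090) (nat_lit 12) (.e (nat_lit 163844) (nat_lit 0) (.e (nat_lit 6420) (nat_lit 341) (.e (nat_lit 163902) (nat_lit 12) (.e (nat_lit 425985) (nat_lit 0) (.e (nat_lit 3262) (nat_lit 198) (.e (nat_lit 540706) (nat_lit 12) .nil)))))))) (.g (nat_lit 1) (.e (nat_lit 384813) (nat_lit 0) .nil) .nil))) 
(.lf (nat_lit 584440) (.g (nat_lit 875) (.e (nat_lit 376856) (nat_lit 21) (.e (nat_lit 57849) (nat_lit 252) (.e (nat_lit 57388) (nat_lit 5) .nil))) (.g (nat_lit 0) (.e (nat_lit 386152) (nat_lit 0) .nil) .nil)))) (.nd (nat_lit 9) 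
(.lf (nat_lit 584184) (.g (nat_lit 5100) (.e (nat_lit 368676) (nat_lit 21) (.e (nat_lit 516146) (nat_lit 9) (.e (nat_lit 426422) (nat_lit 16) (.e (nat_lit 57688) (nat_lit 156) (.e (nat_lit 163873) (nat_lit 3) (.e (nat_lit 204829) (nat_lit 18) (.e (nat_lit 57847) (nat_lit 252) (.e (nat_lit 57432) (nat_lit 16) .nil)))))))) (.g (nat_lit 1) (.e (nat_lit 385494) (nat_lit 0) .nil) .nil))) 
(.lf (nat_lit 584696) (.g (nat_lit 2279) (.e (nat_lit 385064) (nat_lit 26) (.e (nat_lit 532503) (nat_lit 1) (.e (nat_lit 57847) (nat_lit 252) (.e (nat_lit 57408) (nat_lit 12) .nil)))) (.g (nat_lit 0) (.e (nat_lit 386690) (nat_lit 0) .nil) .nil)))))))))) (.nd (nat_lit 3) (.nd (nat_lit 4) (.nd (nat_lit 5) (.nd (nat_lit 6) (.nd (nat_lit 7) (.nd (nat_lit 8) (.nd (nat_lit 9) 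
(.lf (nat_lit 583684) (.g (nat_lit 1881) (.e (nat_lit 360473) (nat_lit 8) (.e (nat_lit 557067) (nat_lit 9) (.e (nat_lit 214) (nat_lit 19) (.e (nat_lit 319490) (nat_lit 0) .nil)))) (.g (nat_lit 0) (.e (nat_lit 384418) (nat_lit 0) .nil) .nil))) 
(.lf (nat_lit 584196) (.g (nat_lit 3579) (.e (nat_lit 368676) (nat_lit 21) (.e (nat_lit 516165) (nat_lit 12) (.e (nat_lit 450586) (nat_lit 10) (.e (nat_lit 573473) (nat_lit 12) (.e (nat_lit 57353) (nat_lit 0) (.e (nat_lit 7266) (nat_lit 384) (.e (nat_lit 57430) (nat_lit 16) .nil))))))) (.g (nat_lit 1) (.e (nat_lit 385506) (nat_lit 0) .nil) .nil)))) (.nd (nat_lit 9) 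
(.lf (nat_lit 583940) (.g (nat_lit 2168) (.e (nat_lit 360475) (nat_lit 8) (.e (nat_lit 557090) (nat_lit 12) (.e (nat_lit 164020) (nat_lit 45) (.e (nat_lit 696329) (nat_lit 5) (.e (nat_lit 2884) (nat_lit 184) (.e (nat_lit 426140) (nat_lit 3) (.e (nat_lit 212736) (nat_lit 29) .nil))))))) (.g (nat_lit 1) (.e (nat_lit 384832) (nat_lit 0) .nil) .nil))) 
(.lf (nat_lit 584452) (.g (nat_lit 425) (.e (nat_lit 376857) (nat_lit 21) (.e (nat_lit 57846) (nat_lit 252) (.e (nat_lit 57390) (nat_lit 5) .nil))) (.g (nat_lit 0) (.e (nat_lit 386176) (nat_lit 0) .nil) .nil))))) (.nd (nat_lit 8) (.nd (nat_lit 9) 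
(.lf (nat_lit 583812) (.g (nat_lit 3967) (.e (nat_lit 360473) (nat_lit 8) (.e (nat_lit 557094) (nat_lit 12) (.e (nat_lit 164022) (nat_lit 46) (.e (nat_lit 704628) (nat_lit 9) (.e (nat_lit 452) (nat_lit 33) (.e (nat_lit 434231) (nat_lit 23) (.e (nat_lit 532549) (nat_lit 12) .nil))))))) (.g (nat_lit 1) (.e (nat_lit 384650) (nat_lit 0) .nil) .nil))) 
(.lf (nat_lit 584324) (.g (nat_lit 2000) (.e (nat_lit 376835) (nat_lit 0) (.e (nat_lit 3632) (nat_lit 227) (.e (nat_lit 778323) (nat_lit 5) (.e (nat_lit 73782) (nat_lit 32) (.e (nat_lit 2855) (nat_lit 184) (.e (nat_lit 426556) (nat_lit 32) .nil)))))) (.g (nat_lit 1) (.e (nat_lit 385804) (nat_lit 0) .nil) .nil)))) (.nd (nat_lit 9) 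
(.lf (nat_lit 584068) (.g (nat_lit 2449) (.e (nat_lit 368676) (nat_lit 21) (.e (nat_lit 516129) (nat_lit 3) (.e (nat_lit 221214) (nat_lit 23) (.e (nat_lit 204829) (nat_lit 18) (.e (nat_lit 57927) (nat_lit 282) (.e (nat_lit 163874) (nat_lit 3) (.e (nat_lit 204872) (nat_lit 30) .nil))))))) (.g (nat_lit 1) (.e (nat_lit 385361) (nat_lit 0) .nil) .nil))) 
(.lf (nat_lit 584580) (.g (nat_lit 4500) (.e (nat_lit 376863) (nat_lit 22) (.e (nat_lit 90130) (nat_lit 9) (.e (nat_lit 2830) (nat_lit 182) (.e (nat_lit 409648) (nat_lit 18) (.e (nat_lit 303117) (nat_lit 2) (.e (nat_lit 196630) (nat_lit 9) (.e (nat_lit 1616) (nat_lit 113) .nil))))))) (.g (nat_lit 1) (.e (nat_lit 386390) (nat_lit 0) .nil) .nil)))))) 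
(.nd (nat_lit 7) (.nd (nat_lit 8) (.nd (nat_lit 9) 
(.lf (nat_lit 583748) (.g (nat_lit 909) (.e (nat_lit 360473) (nat_lit 8) (.e (nat_lit 557090) (nat_lit 12) (.e (nat_lit 164002) (nat_lit 40) .nil))) (.g (nat_lit 0) (.e (nat_lit 384521) (nat_lit 0) .nil) .nil))) 
(.lf (nat_lit 584260) (.g (nat_lit 4912) (.e (nat_lit 368676) (nat_lit 21) (.e (nat_lit 516166) (nat_lit 12) (.e (nat_lit 450588) (nat_lit 10) (.e (nat_lit 573475) (nat_lit 12) (.e (nat_lit 57353) (nat_lit 0) (.e (nat_lit 7261) (nat_lit 384) (.e (nat_lit 57431) (nat_lit 16) .nil))))))) (.g (nat_lit 1) (.e (nat_lit 385570) (nat_lit 0) .nil) .nil)))) (.nd (nat_lit 9) 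
(.lf (nat_lit 584004) (.g (nat_lit 1026) (.e (nat_lit 360493) (nat_lit 27) (.e (nat_lit 819204) (nat_lit 0) (.e (nat_lit 3027) (nat_lit 187) (.e (nat_lit 450577) (nat_lit 4) (.e (nat_lit 532224) (nat_lit 29) .nil))))) (.g (nat_lit 1) (.e (nat_lit 384945) (nat_lit 0) .nil) .nil))) 
(.lf (nat_lit 584516) (.g (nat_lit 3396) (.e (nat_lit 376859) (nat_lit 21) (.e (nat_lit 57849) (nat_lit 252) (.e (nat_lit 57388) (nat_lit 5) (.e (nat_lit 114697) (nat_lit 11) (.e (nat_lit 426200) (nat_lit 9) (.e (nat_lit 426555) (nat_lit 32) .nil)))))) (.g (nat_lit 1) (.e (nat_lit 386273) (nat_lit 0) .nil) .nil))))) (.nd (nat_lit 8) (.nd (nat_lit 9) 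
(.lf (nat_lit 583876) (.g (nat_lit 2106) (.e (nat_lit 360474) (nat_lit 8) (.e (nat_lit 557094) (nat_lit 12) (.e (nat_lit 164022) (nat_lit 46) (.e (nat_lit 704628) (nat_lit 9) (.e (nat_lit 452) (nat_lit 33) (.e (nat_lit 434219) (nat_lit 19) (.e (nat_lit 499981) (nat_lit 14) (.e (nat_lit 1587) (nat_lit 111) .nil)))))))) (.g (nat_lit 1) (.e (nat_lit 384741) (nat_lit 0) .nil) .nil))) 
(.lf (nat_lit 584388) (.g (nat_lit 1627) (.e (nat_lit 376842) (nat_lit 11) (.e (nat_lit 426410) (nat_lit 15) (.e (nat_lit 6206) (nat_lit 333) (.e (nat_lit 57883) (nat_lit 270) (.e (nat_lit 174) (nat_lit 12) (.e (nat_lit 204877) (nat_lit 31) .nil)))))) (.g (nat_lit 1) (.e (nat_lit 386069) (nat_lit 0) .nil) .nil)))) (.nd (nat_lit 9) 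
(.lf (nat_lit 584132) (.g (nat_lit 3406) (.e (nat_lit 368676) (nat_lit 21) (.e (nat_lit 516131) (nat_lit 3) (.e (nat_lit 221214) (nat_lit 23) (.e (nat_lit 204830) (nat_lit 18) (.e (nat_lit 57931) (nat_lit 282) (.e (nat_lit 163874) (nat_lit 3) (.e (nat_lit 204872) (nat_lit 30) .nil))))))) (.g (nat_lit 1) (.e (nat_lit 385434) (nat_lit 0) .nil) .nil))) 
(.lf (nat_lit 584644) (.g (nat_lit 2770) (.e (nat_lit 376869) (nat_lit 23) (.e (nat_lit 98313) (nat_lit 9) (.e (nat_lit 335986) (nat_lit 1) (.e (nat_lit 57927) (nat_lit 282) (.e (nat_lit 163903) (nat_lit 12) (.e (nat_lit 426555) (nat_lit 32) .nil)))))) (.g (nat_lit 1) (.e (nat_lit 386503) (nat_lit 0) .nil) .nil))))))) (.nd (nat_lit 6) (.nd (nat_lit 7) (.nd (nat_lit 8) (.nd (nat_lit 9) 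
(.lf (nat_lit 583716) (.g (nat_lit 3206) (.e (nat_lit 360473) (nat_lit 8) (.e (nat_lit 557089) (nat_lit 12) (.e (nat_lit 163844) (nat_lit 0) (.e (nat_lit 6420) (nat_lit 341) (.e (nat_lit 163900) (nat_lit 12) (.e (nat_lit 426140) (nat_lit 3) (.e (nat_lit 204868) (nat_lit 29) .nil))))))) (.g (nat_lit 1) (.e (nat_lit 384474) (nat_lit 0) .nil) .nil))) 
(.lf (nat_lit 584228) (.g (nat_lit 5202) (.e (nat_lit 368676) (nat_lit 21) (.e (nat_lit 516165) (nat_lit 12) (.e (nat_lit 450588) (nat_lit 10) (.e (nat_lit 573475) (nat_lit 12) (.e (nat_lit 57347) (nat_lit 0) (.e (nat_lit 7266) (nat_lit 384) (.e (nat_lit 57430) (nat_lit 16) .nil))))))) (.g (nat_lit 1) (.e (nat_lit 385538) (nat_lit 0) .nil) .nil)))) (.nd (nat_lit 9) 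
(.lf (nat_lit 583972) (.g (nat_lit 1700) (.e (nat_lit 360493) (nat_lit 27) (.e (nat_lit 819203) (nat_lit 0) (.e (nat_lit 3016) (nat_lit 187) (.e (nat_lit 450584) (nat_lit 9) (.e (nat_lit 565252) (nat_lit 0) (.e (nat_lit 1589) (nat_lit 111) .nil)))))) (.g (nat_lit 1) (.e (nat_lit 384903) (nat_lit 0) .nil) .nil))) 
(.lf (nat_lit 584484) (.g (nat_lit 3395) (.e (nat_lit 376857) (nat_lit 21) (.e (nat_lit 57854) (nat_lit 252) (.e (nat_lit 57388) (nat_lit 5) (.e (nat_lit 114698) (nat_lit 11) (.e (nat_lit 426190) (nat_lit 9) (.e (nat_lit 426555) (nat_lit 32) .nil)))))) (.g (nat_lit 1) (.e (nat_lit 386224) (nat_lit 0) .nil) .nil))))) (.nd (nat_lit 8) (.nd (nat_lit 9) 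
(.lf (nat_lit 583844) (.g (nat_lit 2039) (.e (nat_lit 360474) (nat_lit 8) (.e (nat_lit 557093) (nat_lit 12) (.e (nat_lit 164022) (nat_lit 46) (.e (nat_lit 704736) (nat_lit 11) (.e (nat_lit 16387) (nat_lit 0) (.e (nat_lit 7936) (nat_lit 197) (.e (nat_lit 532550) (nat_lit 12) .nil))))))) (.g (nat_lit 1) (.e (nat_lit 384709) (nat_lit 0) .nil) .nil))) 
(.lf (nat_lit 584356) (.g (nat_lit 1456) (.e (nat_lit 384768) (nat_lit 5) (.e (nat_lit 221207) (nat_lit 21) (.e (nat_lit 164332) (nat_lit 230) (.e (nat_lit 163905) (nat_lit 12) .nil)))) (.g (nat_lit 0) (.e (nat_lit 386013) (nat_lit 0) .nil) .nil)))) (.nd (nat_lit 9) 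
(.lf (nat_lit 584100) (.g (nat_lit 2276) (.e (nat_lit 368676) (nat_lit 21) (.e (nat_lit 516129) (nat_lit 3) (.e (nat_lit 221215) (nat_lit 23) (.e (nat_lit 204830) (nat_lit 18) (.e (nat_lit 57927) (nat_lit 282) (.e (nat_lit 163875) (nat_lit 3) (.e (nat_lit 204872) (nat_lit 30) .nil))))))) (.g (nat_lit 1) (.e (nat_lit 385393) (nat_lit 0) .nil) .nil))) 
(.lf (nat_lit 584612) (.g (nat_lit 2117) (.e (nat_lit 376867) (nat_lit 23) (.e (nat_lit 98317) (nat_lit 9) (.e (nat_lit 335988) (nat_lit 1) (.e (nat_lit 57926) (nat_lit 282) (.e (nat_lit 163906) (nat_lit 12) (.e (nat_lit 426555) (nat_lit 32) .nil)))))) (.g (nat_lit 1) (.e (nat_lit 386456) (nat_lit 0) .nil) .nil)))))) (.nd (nat_lit 7) (.nd (nat_lit 8) (.nd (nat_lit 9) 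
(.lf (nat_lit 583780) (.g (nat_lit 3287) (.e (nat_lit 360473) (nat_lit 8) (.e (nat_lit 557093) (nat_lit 12) (.e (nat_lit 164018) (nat_lit 45) (.e (nat_lit 696344) (nat_lit 8) (.e (nat_lit 172067) (nat_lit 3) (.e (nat_lit 204868) (nat_lit 29) .nil)))))) (.g (nat_lit 1) (.e (nat_lit 384582) (nat_lit 0) .nil) .nil))) 
(.lf (nat_lit 584292) (.g (nat_lit 2044) (.e (nat_lit 368682) (nat_lit 26) (.e (nat_lit 557093) (nat_lit 12) (.e (nat_lit 164022) (nat_lit 46) (.e (nat_lit 704738) (nat_lit 11) (.e (nat_lit 16416) (nat_lit 3) .nil))))) (.g (nat_lit 0) (.e (nat_lit 385637) (nat_lit 0) .nil) .nil)))) (.nd (nat_lit 9) 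
(.lf (nat_lit 584036) (.g (nat_lit 2418) (.e (nat_lit 368662) (nat_lit 18) (.e (nat_lit 5905) (nat_lit 320) (.e (nat_lit 1209) (nat_lit 89) (.e (nat_lit 73781) (nat_lit 32) (.e (nat_lit 3089) (nat_lit 191) .nil))))) (.g (nat_lit 0) (.e (nat_lit 385206) (nat_lit 0) .nil) .nil))) 
(.lf (nat_lit 584548) (.g (nat_lit 2424) (.e (nat_lit 376860) (nat_lit 21) (.e (nat_lit 57853) (nat_lit 252) (.e (nat_lit 57389) (nat_lit 5) (.e (nat_lit 114695) (nat_lit 11) (.e (nat_lit 426262) (nat_lit 9) (.e (nat_lit 426554) (nat_lit 32) .nil)))))) (.g (nat_lit 1) (.e (nat_lit 386326) (nat_lit 0) .nil) .nil))))) (.nd (nat_lit 8) (.nd (nat_lit 9) 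
(.lf (nat_lit 583908) (.g (nat_lit 430) (.e (nat_lit 360475) (nat_lit 8) (.e (nat_lit 557084) (nat_lit 10) (.e (nat_lit 8533) (nat_lit 225) .nil))) (.g (nat_lit 0) (.e (nat_lit 384786) (nat_lit 0) .nil) .nil))) 
(.lf (nat_lit 584420) (.g (nat_lit 1745) (.e (nat_lit 376855) (nat_lit 20) (.e (nat_lit 1800) (nat_lit 119) (.e (nat_lit 516139) (nat_lit 7) (.e (nat_lit 409644) (nat_lit 18) (.e (nat_lit 303119) (nat_lit 3) .nil))))) (.g (nat_lit 0) (.e (nat_lit 386117) (nat_lit 0) .nil) .nil)))) (.nd (nat_lit 9) 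
(.lf (nat_lit 584164) (.g (nat_lit 519) (.e (nat_lit 368676) (nat_lit 21) (.e (nat_lit 516138) (nat_lit 7) (.e (nat_lit 409644) (nat_lit 18) .nil))) (.g (nat_lit 0) (.e (nat_lit 385472) (nat_lit 0) .nil) .nil))) 
(.lf (nat_lit 584676) (.g (nat_lit 741) (.e (nat_lit 385030) (nat_lit 8) (.e (nat_lit 2856) (nat_lit 184) (.e (nat_lit 426436) (nat_lit 18) .nil))) (.g (nat_lit 0) (.e (nat_lit 386607) (nat_lit 0) .nil) .nil)))))))) (.nd (nat_lit 5) (.nd (nat_lit 6) (.nd (nat_lit 7) (.nd (nat_lit 8) (.nd (nat_lit 9) 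
(.lf (nat_lit 583700) (.g (nat_lit 3797) (.e (nat_lit 360473) (nat_lit 8) (.e (nat_lit 557087) (nat_lit 11) (.e (nat_lit 24661) (nat_lit 14) (.e (nat_lit 401414) (nat_lit 0) (.e (nat_lit 3238) (nat_lit 197) (.e (nat_lit 532549) (nat_lit 12) .nil)))))) (.g (nat_lit 1) (.e (nat_lit 384457) (nat_lit 0) .nil) .nil))) 
(.lf (nat_lit 584212) (.g (nat_lit 3989) (.e (nat_lit 368676) (nat_lit 21) (.e (nat_lit 516165) (nat_lit 12) (.e (nat_lit 450588) (nat_lit 10) (.e (nat_lit 573473) (nat_lit 12) (.e (nat_lit 57348) (nat_lit 0) (.e (nat_lit 7261) (nat_lit 384) (.e (nat_lit 57430) (nat_lit 16) .nil))))))) (.g (nat_lit 1) (.e (nat_lit 385522) (nat_lit 0) .nil) .nil)))) (.nd (nat_lit 9) 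
(.lf (nat_lit 583956) (.g (nat_lit 2073) (.e (nat_lit 360475) (nat_lit 8) (.e (nat_lit 557091) (nat_lit 12) (.e (nat_lit 164022) (nat_lit 46) (.e (nat_lit 704737) (nat_lit 11) (.e (nat_lit 16403) (nat_lit 0) (.e (nat_lit 7936) (nat_lit 197) (.e (nat_lit 532550) (nat_lit 12) .nil))))))) (.g (nat_lit 1) (.e (nat_lit 384852) (nat_lit 0) .nil) .nil))) 
(.lf (nat_lit 584468) (.g (nat_lit 2960) (.e (nat_lit 376857) (nat_lit 21) (.e (nat_lit 57849) (nat_lit 252) (.e (nat_lit 57390) (nat_lit 5) (.e (nat_lit 114698) (nat_lit 11) (.e (nat_lit 426190) (nat_lit 9) (.e (nat_lit 426555) (nat_lit 32) .nil)))))) (.g (nat_lit 1) (.e (nat_lit 386197) (nat_lit 0) .nil) .nil))))) (.nd (nat_lit 8) (.nd (nat_lit 9) 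
(.lf (nat_lit 583828) (.g (nat_lit 933) (.e (nat_lit 360474) (nat_lit 8) (.e (nat_lit 557091) (nat_lit 12) (.e (nat_lit 164006) (nat_lit 41) .nil))) (.g (nat_lit 0) (.e (nat_lit 384688) (nat_lit 0) .nil) .nil))) 
(.lf (nat_lit 584340) (.g (nat_lit 1593) (.e (nat_lit 384768) (nat_lit 5) (.e (nat_lit 221207) (nat_lit 21) (.e (nat_lit 164322) (nat_lit 230) (.e (nat_lit 163932) (nat_lit 17) (.e (nat_lit 474880) (nat_lit 16) .nil))))) (.g (nat_lit 0) (.e (nat_lit 385991) (nat_lit 0) .nil) .nil)))) (.nd (nat_lit 9) 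
(.lf (nat_lit 584084) (.g (nat_lit 2520) (.e (nat_lit 368676) (nat_lit 21) (.e (nat_lit 516129) (nat_lit 3) (.e (nat_lit 221214) (nat_lit 23) (.e (nat_lit 204830) (nat_lit 18) (.e (nat_lit 57929) (nat_lit 282) (.e (nat_lit 163874) (nat_lit 3) (.e (nat_lit 204873) (nat_lit 30) .nil))))))) (.g (nat_lit 1) (.e (nat_lit 385377) (nat_lit 0) .nil) .nil))) 
(.lf (nat_lit 584596) (.g (nat_lit 1783) (.e (nat_lit 376866) (nat_lit 23) (.e (nat_lit 98350) (nat_lit 24) (.e (nat_lit 409646) (nat_lit 18) (.e (nat_lit 303112) (nat_lit 0) (.e (nat_lit 3252) (nat_lit 197) .nil))))) (.g (nat_lit 0) (.e (nat_lit 386432) (nat_lit 0) .nil) .nil)))))) (.nd (nat_lit 7) (.nd (nat_lit 8) (.nd (nat_lit 9) 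
(.lf (nat_lit 583764) (.g (nat_lit 1274) (.e (nat_lit 360473) (nat_lit 8) (.e (nat_lit 557091) (nat_lit 12) (.e (nat_lit 164020) (nat_lit 45) (.e (nat_lit 696330) (nat_lit 5) .nil)))) (.g (nat_lit 0) (.e (nat_lit 384556) (nat_lit 0) .nil) .nil))) 
(.lf (nat_lit 584276) (.g (nat_lit 414) (.e (nat_lit 368676) (nat_lit 21) (.e (nat_lit 516195) (nat_lit 26) (.e (nat_lit 336012) (nat_lit 2) .nil))) (.g (nat_lit 0) (.e (nat_lit 385609) (nat_lit 0) .nil) .nil)))) (.nd (nat_lit 9) 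
(.lf (nat_lit 584020) (.g (nat_lit 2115) (.e (nat_lit 376576) (nat_lit 4) (.e (nat_lit 172076) (nat_lit 6) (.e (nat_lit 253992) (nat_lit 11) (.e (nat_lit 16433) (nat_lit 9) (.e (nat_lit 426551) (nat_lit 31) .nil))))) (.g (nat_lit 0) (.e (nat_lit 385073) (nat_lit 0) .nil) .nil))) 
(.lf (nat_lit 584532) (.g (nat_lit 1036) (.e (nat_lit 376859) (nat_lit 21) (.e (nat_lit 57870) (nat_lit 264) (.e (nat_lit 1209) (nat_lit 89) (.e (nat_lit 81664) (nat_lit 32) .nil)))) (.g (nat_lit 0) (.e (nat_lit 386289) (nat_lit 0) .nil) .nil))))) (.nd (nat_lit 8) (.nd (nat_lit 9) 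
(.lf (nat_lit 583892) (.g (nat_lit 2588) (.e (nat_lit 360474) (nat_lit 8) (.e (nat_lit 557094) (nat_lit 12) (.e (nat_lit 164022) (nat_lit 46) (.e (nat_lit 704737) (nat_lit 11) (.e (nat_lit 16395) (nat_lit 0) (.e (nat_lit 3262) (nat_lit 198) (.e (nat_lit 540706) (nat_lit 12) .nil))))))) (.g (nat_lit 1) (.e (nat_lit 384760) (nat_lit 0) .nil) .nil))) 
(.lf (nat_lit 584404) (.g (nat_lit 417) (.e (nat_lit 384768) (nat_lit 18) (.e (nat_lit 483363) (nat_lit 18) (.e (nat_lit 57854) (nat_lit 252) .nil))) (.g (nat_lit 0) (.e (nat_lit 386091) (nat_lit 0) .nil) .nil)))) (.nd (nat_lit 9) 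
(.lf (nat_lit 584148) (.g (nat_lit 3900) (.e (nat_lit 368676) (nat_lit 21) (.e (nat_lit 516131) (nat_lit 3) (.e (nat_lit 221215) (nat_lit 23) (.e (nat_lit 204829) (nat_lit 18) (.e (nat_lit 57927) (nat_lit 282) (.e (nat_lit 163874) (nat_lit 3) (.e (nat_lit 204872) (nat_lit 30) .nil))))))) (.g (nat_lit 1) (.e (nat_lit 385455) (nat_lit 0) .nil) .nil))) 
(.lf (nat_lit 584660) (.g (nat_lit 2367) (.e (nat_lit 376869) (nat_lit 23) (.e (nat_lit 98349) (nat_lit 24) (.e (nat_lit 409644) (nat_lit 18) (.e (nat_lit 303112) (nat_lit 0) (.e (nat_lit 3252) (nat_lit 197) (.e (nat_lit 532561) (nat_lit 14) .nil)))))) (.g (nat_lit 1) (.e (nat_lit 386534) (nat_lit 0) .nil) .nil))))))) (.nd (nat_lit 6) (.nd (nat_lit 7) (.nd (nat_lit 8) (.nd (nat_lit 9) 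
(.lf (nat_lit 583732) (.g (nat_lit 3807) (.e (nat_lit 360473) (nat_lit 8) (.e (nat_lit 557089) (nat_lit 12) (.e (nat_lit 164017) (nat_lit 44) (.e (nat_lit 688139) (nat_lit 5) (.e (nat_lit 2887) (nat_lit 184) (.e (nat_lit 426140) (nat_lit 3) (.e (nat_lit 204868) (nat_lit 29) .nil))))))) (.g (nat_lit 1) (.e (nat_lit 384505) (nat_lit 0) .nil) .nil))) 
(.lf (nat_lit 584244) (.g (nat_lit 4741) (.e (nat_lit 368676) (nat_lit 21) (.e (nat_lit 516166) (nat_lit 12) (.e (nat_lit 450587) (nat_lit 10) (.e (nat_lit 573478) (nat_lit 12) (.e (nat_lit 57351) (nat_lit 0) (.e (nat_lit 7261) (nat_lit 384) (.e (nat_lit 57430) (nat_lit 16) .nil))))))) (.g (nat_lit 1) (.e (nat_lit 385554) (nat_lit 0) .nil) .nil)))) (.nd (nat_lit 9) 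
(.lf (nat_lit 583988) (.g (nat_lit 2034) (.e (nat_lit 360493) (nat_lit 27) (.e (nat_lit 819204) (nat_lit 0) (.e (nat_lit 3015) (nat_lit 187) (.e (nat_lit 450584) (nat_lit 9) (.e (nat_lit 565252) (nat_lit 0) (.e (nat_lit 1592) (nat_lit 111) .nil)))))) (.g (nat_lit 1) (.e (nat_lit 384926) (nat_lit 0) .nil) .nil))) 
(.lf (nat_lit 584500) (.g (nat_lit 1608) (.e (nat_lit 376859) (nat_lit 21) (.e (nat_lit 57844) (nat_lit 252) (.e (nat_lit 57388) (nat_lit 5) (.e (nat_lit 114696) (nat_lit 11) (.e (nat_lit 426232) (nat_lit 9) (.e (nat_lit 426554) (nat_lit 32) .nil)))))) (.g (nat_lit 1) (.e (nat_lit 386253) (nat_lit 0) .nil) .nil))))) (.nd (nat_lit 8) (.nd (nat_lit 9) 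
(.lf (nat_lit 583860) (.g (nat_lit 3583) (.e (nat_lit 360474) (nat_lit 8) (.e (nat_lit 557093) (nat_lit 12) (.e (nat_lit 164022) (nat_lit 46) (.e (nat_lit 704738) (nat_lit 11) (.e (nat_lit 16398) (nat_lit 0) (.e (nat_lit 7936) (nat_lit 197) (.e (nat_lit 532550) (nat_lit 12) .nil))))))) (.g (nat_lit 1) (.e (nat_lit 384725) (nat_lit 0) .nil) .nil))) 
(.lf (nat_lit 584372) (.g (nat_lit 1881) (.e (nat_lit 376842) (nat_lit 11) (.e (nat_lit 426106) (nat_lit 1) (.e (nat_lit 164179) (nat_lit 154) (.e (nat_lit 57409) (nat_lit 12) (.e (nat_lit 336324) (nat_lit 18) .nil))))) (.g (nat_lit 0) (.e (nat_lit 386052) (nat_lit 0) .nil) .nil)))) (.nd (nat_lit 9) 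
(.lf (nat_lit 584116) (.g (nat_lit 3253) (.e (nat_lit 368676) (nat_lit 21) (.e (nat_lit 516131) (nat_lit 3) (.e (nat_lit 221214) (nat_lit 23) (.e (nat_lit 204829) (nat_lit 18) (.e (nat_lit 57926) (nat_lit 282) (.e (nat_lit 163875) (nat_lit 3) (.e (nat_lit 204872) (nat_lit 30) .nil))))))) (.g (nat_lit 1) (.e (nat_lit 385418) (nat_lit 0) .nil) .nil))) 
(.lf (nat_lit 584628) (.g (nat_lit 1853) (.e (nat_lit 376868) (nat_lit 23) (.e (nat_lit 98350) (nat_lit 24) (.e (nat_lit 409616) (nat_lit 10) (.e (nat_lit 5758) (nat_lit 315) .nil)))) (.g (nat_lit 0) (.e (nat_lit 386482) (nat_lit 0) .nil) .nil)))))) (.nd (nat_lit 7) (.nd (nat_lit 8) (.nd (nat_lit 9) 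
(.lf (nat_lit 583796) (.g (nat_lit 2990) (.e (nat_lit 360473) (nat_lit 8) (.e (nat_lit 557094) (nat_lit 12) (.e (nat_lit 164018) (nat_lit 45) (.e (nat_lit 696327) (nat_lit 5) (.e (nat_lit 2964) (nat_lit 185) (.e (nat_lit 434231) (nat_lit 23) (.e (nat_lit 532549) (nat_lit 12) .nil))))))) (.g (nat_lit 1) (.e (nat_lit 384625) (nat_lit 0) .nil) .nil))) 
(.lf (nat_lit 584308) (.g (nat_lit 1845) (.e (nat_lit 376835) (nat_lit 0) (.e (nat_lit 3253) (nat_lit 197) (.e (nat_lit 532513) (nat_lit 3) (.e (nat_lit 114698) (nat_lit 11) (.e (nat_lit 426137) (nat_lit 3) .nil))))) (.g (nat_lit 0) (.e (nat_lit 385747) (nat_lit 0) .nil) .nil)))) (.nd (nat_lit 9) 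
(.lf (nat_lit 584052) (.g (nat_lit 3019) (.e (nat_lit 368676) (nat_lit 21) (.e (nat_lit 516098) (nat_lit 0) (.e (nat_lit 7593) (nat_lit 407) (.e (nat_lit 73755) (nat_lit 8) (.e (nat_lit 557086) (nat_lit 11) (.e (nat_lit 24646) (nat_lit 11) .nil)))))) (.g (nat_lit 1) (.e (nat_lit 385319) (nat_lit 0) .nil) .nil))) 
(.lf (nat_lit 584564) (.g (nat_lit 2153) (.e (nat_lit 376860) (nat_lit 21) (.e (nat_lit 57930) (nat_lit 282) (.e (nat_lit 163896) (nat_lit 10) (.e (nat_lit 409648) (nat_lit 18) (.e (nat_lit 303128) (nat_lit 9) (.e (nat_lit 433920) (nat_lit 32) .nil)))))) (.g (nat_lit 1) (.e (nat_lit 386353) (nat_lit 0) .nil) .nil))))) (.nd (nat_lit 8) (.nd (nat_lit 9) 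
(.lf (nat_lit 583924) (.g (nat_lit 627) (.e (nat_lit 360475) (nat_lit 8) (.e (nat_lit 557090) (nat_lit 12) (.e (nat_lit 163843) (nat_lit 0) .nil))) (.g (nat_lit 0) (.e (nat_lit 384809) (nat_lit 0) .nil) .nil))) 
(.lf (nat_lit 584436) (.g (nat_lit 1278) (.e (nat_lit 376855) (nat_lit 20) (.e (nat_lit 1856) (nat_lit 124) (.e (nat_lit 557072) (nat_lit 9) (.e (nat_lit 2741) (nat_lit 174) .nil)))) (.g (nat_lit 0) (.e (nat_lit 386141) (nat_lit 0) .nil) .nil)))) (.nd (nat_lit 9) 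
(.lf (nat_lit 584180) (.g (nat_lit 3135) (.e (nat_lit 368676) (nat_lit 21) (.e (nat_lit 516139) (nat_lit 7) (.e (nat_lit 409649) (nat_lit 18) (.e (nat_lit 303119) (nat_lit 3) (.e (nat_lit 204861) (nat_lit 26) (.e (nat_lit 336185) (nat_lit 11) .nil)))))) (.g (nat_lit 1) (.e (nat_lit 385489) (nat_lit 0) .nil) .nil))) 
(.lf (nat_lit 584692) (.g (nat_lit 2213) (.e (nat_lit 385032) (nat_lit 16) (.e (nat_lit 2797) (nat_lit 180) (.e (nat_lit 303119) (nat_lit 3) (.e (nat_lit 204837) (nat_lit 20) .nil)))) (.g (nat_lit 0) (.e (nat_lit 386654) (nat_lit 0) .nil) .nil))))))))) (.nd (nat_lit 4) (.nd (nat_lit 5) (.nd (nat_lit 6) (.nd (nat_lit 7) (.nd (nat_lit 8) (.nd (nat_lit 9) 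
(.lf (nat_lit 583692) (.g (nat_lit 1839) (.e (nat_lit 360473) (nat_lit 8) (.e (nat_lit 557087) (nat_lit 11) (.e (nat_lit 24580) (nat_lit 0) (.e (nat_lit 6624) (nat_lit 357) .nil)))) (.g (nat_lit 0) (.e (nat_lit 384444) (nat_lit 0) .nil) .nil))) 
(.lf (nat_lit 584204) (.g (nat_lit 3487) (.e (nat_lit 368676) (nat_lit 21) (.e (nat_lit 516165) (nat_lit 12) (.e (nat_lit 450586) (nat_lit 10) (.e (nat_lit 573475) (nat_lit 12) (.e (nat_lit 57348) (nat_lit 0) (.e (nat_lit 7265) (nat_lit 384) (.e (nat_lit 57431) (nat_lit 16) .nil))))))) (.g (nat_lit 1) (.e (nat_lit 385514) (nat_lit 0) .nil) .nil)))) (.nd (nat_lit 9) 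
(.lf (nat_lit 583948) (.g (nat_lit 3798) (.e (nat_lit 360475) (nat_lit 8) (.e (nat_lit 557090) (nat_lit 12) (.e (nat_lit 164020) (nat_lit 45) (.e (nat_lit 696344) (nat_lit 8) (.e (nat_lit 172041) (nat_lit 0) (.e (nat_lit 3262) (nat_lit 198) (.e (nat_lit 540706) (nat_lit 12) .nil))))))) (.g (nat_lit 1) (.e (nat_lit 384841) (nat_lit 0) .nil) .nil))) 
(.lf (nat_lit 584460) (.g (nat_lit 388) (.e (nat_lit 376857) (nat_lit 21) (.e (nat_lit 57849) (nat_lit 252) (.e (nat_lit 57388) (nat_lit 5) .nil))) (.g (nat_lit 0) (.e (nat_lit 386189) (nat_lit 0) .nil) .nil))))) (.nd (nat_lit 8) (.nd (nat_lit 9) 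
(.lf (nat_lit 583820) (.g (nat_lit 3628) (.e (nat_lit 360474) (nat_lit 8) (.e (nat_lit 557086) (nat_lit 11) (.e (nat_lit 24665) (nat_lit 14) (.e (nat_lit 401427) (nat_lit 3) (.e (nat_lit 204869) (nat_lit 29) .nil))))) (.g (nat_lit 1) (.e (nat_lit 384672) (nat_lit 0) .nil) .nil))) 
(.lf (nat_lit 584332) (.g (nat_lit 410) (.e (nat_lit 384768) (nat_lit 3) (.e (nat_lit 204837) (nat_lit 20) (.e (nat_lit 122624) (nat_lit 11) .nil))) (.g (nat_lit 0) (.e (nat_lit 385932) (nat_lit 0) .nil) .nil)))) (.nd (nat_lit 9) 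
(.lf (nat_lit 584076) (.g (nat_lit 2622) (.e (nat_lit 368676) (nat_lit 21) (.e (nat_lit 516129) (nat_lit 3) (.e (nat_lit 221214) (nat_lit 23) (.e (nat_lit 204830) (nat_lit 18) (.e (nat_lit 57926) (nat_lit 282) (.e (nat_lit 163874) (nat_lit 3) (.e (nat_lit 204873) (nat_lit 30) .nil))))))) (.g (nat_lit 1) (.e (nat_lit 385369) (nat_lit 0) .nil) .nil))) 
(.lf (nat_lit 584588) (.g (nat_lit 2825) (.e (nat_lit 376865) (nat_lit 22) (.e (nat_lit 90160) (nat_lit 11) (.e (nat_lit 24599) (nat_lit 1) (.e (nat_lit 57931) (nat_lit 282) (.e (nat_lit 163902) (nat_lit 12) (.e (nat_lit 426556) (nat_lit 32) .nil)))))) (.g (nat_lit 1) (.e (nat_lit 386415) (nat_lit 0) .nil) .nil)))))) (.nd (nat_lit 7) (.nd (nat_lit 8) (.nd (nat_lit 9) 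
(.lf (nat_lit 583756) (.g (nat_lit 555) (.e (nat_lit 360473) (nat_lit 8) (.e (nat_lit 557091) (nat_lit 12) (.e (nat_lit 163850) (nat_lit 0) .nil))) (.g (nat_lit 0) (.e (nat_lit 384533) (nat_lit 0) .nil) .nil))) 
(.lf (nat_lit 584268) (.g (nat_lit 4508) (.e (nat_lit 368676) (nat_lit 21) (.e (nat_lit 516179) (nat_lit 15) (.e (nat_lit 475199) (nat_lit 40) (.e (nat_lit 704589) (nat_lit 3) (.e (nat_lit 163979) (nat_lit 30) (.e (nat_lit 573482) (nat_lit 13) (.e (nat_lit 65621) (nat_lit 11) .nil))))))) (.g (nat_lit 1) (.e (nat_lit 385580) (nat_lit 0) .nil) .nil)))) (.nd (nat_lit 9) 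
(.lf (nat_lit 584012) (.g (nat_lit 1092) (.e (nat_lit 360493) (nat_lit 27) (.e (nat_lit 819219) (nat_lit 4) (.e (nat_lit 172106) (nat_lit 10) (.e (nat_lit 434229) (nat_lit 22) (.e (nat_lit 532224) (nat_lit 29) .nil))))) (.g (nat_lit 1) (.e (nat_lit 384956) (nat_lit 0) .nil) .nil))) 
(.lf (nat_lit 584524) (.g (nat_lit 2965) (.e (nat_lit 376859) (nat_lit 21) (.e (nat_lit 57849) (nat_lit 252) (.e (nat_lit 57390) (nat_lit 5) (.e (nat_lit 114698) (nat_lit 11) (.e (nat_lit 426188) (nat_lit 9) (.e (nat_lit 426555) (nat_lit 32) .nil)))))) (.g (nat_lit 1) (.e (nat_lit 386281) (nat_lit 0) .nil) .nil))))) (.nd (nat_lit 8) (.nd (nat_lit 9) 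
(.lf (nat_lit 583884) (.g (nat_lit 2296) (.e (nat_lit 360474) (nat_lit 8) (.e (nat_lit 557094) (nat_lit 12) (.e (nat_lit 164022) (nat_lit 46) (.e (nat_lit 704629) (nat_lit 9) (.e (nat_lit 452) (nat_lit 33) (.e (nat_lit 434219) (nat_lit 19) (.e (nat_lit 499979) (nat_lit 14) (.e (nat_lit 1587) (nat_lit 111) .nil)))))))) (.g (nat_lit 1) (.e (nat_lit 384750) (nat_lit 0) .nil) .nil))) 
(.lf (nat_lit 584396) (.g (nat_lit 2257) (.e (nat_lit 376842) (nat_lit 11) (.e (nat_lit 426521) (nat_lit 27) (.e (nat_lit 335986) (nat_lit 1) (.e (nat_lit 57927) (nat_lit 282) (.e (nat_lit 163874) (nat_lit 3) (.e (nat_lit 204876) (nat_lit 31) .nil)))))) (.g (nat_lit 1) (.e (nat_lit 386077) (nat_lit 0) .nil) .nil)))) (.nd (nat_lit 9) 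
(.lf (nat_lit 584140) (.g (nat_lit 3359) (.e (nat_lit 368676) (nat_lit 21) (.e (nat_lit 516131) (nat_lit 3) (.e (nat_lit 221215) (nat_lit 23) (.e (nat_lit 204828) (nat_lit 18) (.e (nat_lit 57927) (nat_lit 282) (.e (nat_lit 163874) (nat_lit 3) (.e (nat_lit 204873) (nat_lit 30) .nil))))))) (.g (nat_lit 1) (.e (nat_lit 385447) (nat_lit 0) .nil) .nil))) 
(.lf (nat_lit 584652) (.g (nat_lit 3002) (.e (nat_lit 376869) (nat_lit 23) (.e (nat_lit 98317) (nat_lit 9) (.e (nat_lit 335988) (nat_lit 1) (.e (nat_lit 57926) (nat_lit 282) (.e (nat_lit 163902) (nat_lit 12) (.e (nat_lit 426555) (nat_lit 32) .nil)))))) (.g (nat_lit 1) (.e (nat_lit 386516) (nat_lit 0) .nil) .nil))))))) (.nd (nat_lit 6) (.nd (nat_lit 7) (.nd (nat_lit 8) (.nd (nat_lit 9) 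
(.lf (nat_lit 583724) (.g (nat_lit 1516) (.e (nat_lit 360473) (nat_lit 8) (.e (nat_lit 557089) (nat_lit 12) (.e (nat_lit 163850) (nat_lit 0) (.e (nat_lit 6428) (nat_lit 342) (.e (nat_lit 229405) (nat_lit 12) .nil))))) (.g (nat_lit 0) (.e (nat_lit 384494) (nat_lit 0) .nil) .nil))) 
(.lf (nat_lit 584236) (.g (nat_lit 4148) (.e (nat_lit 368676) (nat_lit 21) (.e (nat_lit 516165) (nat_lit 12) (.e (nat_lit 450588) (nat_lit 10) (.e (nat_lit 573475) (nat_lit 12) (.e (nat_lit 57351) (nat_lit 0) (.e (nat_lit 7266) (nat_lit 384) (.e (nat_lit 57430) (nat_lit 16) .nil))))))) (.g (nat_lit 1) (.e (nat_lit 385546) (nat_lit 0) .nil) .nil)))) (.nd (nat_lit 9) 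
(.lf (nat_lit 583980) (.g (nat_lit 1585) (.e (nat_lit 360493) (nat_lit 27) (.e (nat_lit 819203) (nat_lit 0) (.e (nat_lit 3022) (nat_lit 187) (.e (nat_lit 450584) (nat_lit 9) (.e (nat_lit 565252) (nat_lit 0) (.e (nat_lit 1598) (nat_lit 111) .nil)))))) (.g (nat_lit 1) (.e (nat_lit 384913) (nat_lit 0) .nil) .nil))) 
(.lf (nat_lit 584492) (.g (nat_lit 912) (.e (nat_lit 376858) (nat_lit 21) (.e (nat_lit 57854) (nat_lit 252) (.e (nat_lit 57388) (nat_lit 5) (.e (nat_lit 114697) (nat_lit 11) .nil)))) (.g (nat_lit 0) (.e (nat_lit 386236) (nat_lit 0) .nil) .nil))))) (.nd (nat_lit 8) (.nd (nat_lit 9) 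
(.lf (nat_lit 583852) (.g (nat_lit 2376) (.e (nat_lit 360474) (nat_lit 8) (.e (nat_lit 557093) (nat_lit 12) (.e (nat_lit 164022) (nat_lit 46) (.e (nat_lit 704737) (nat_lit 11) (.e (nat_lit 16403) (nat_lit 0) (.e (nat_lit 7936) (nat_lit 197) (.e (nat_lit 532550) (nat_lit 12) .nil))))))) (.g (nat_lit 1) (.e (nat_lit 384717) (nat_lit 0) .nil) .nil))) 
(.lf (nat_lit 584364) (.g (nat_lit 2060) (.e (nat_lit 376839) (nat_lit 11) (.e (nat_lit 426503) (nat_lit 27) (.e (nat_lit 335986) (nat_lit 1) (.e (nat_lit 57926) (nat_lit 282) (.e (nat_lit 163875) (nat_lit 3) (.e (nat_lit 204876) (nat_lit 31) .nil)))))) (.g (nat_lit 1) (.e (nat_lit 386039) (nat_lit 0) .nil) .nil)))) (.nd (nat_lit 9) 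
(.lf (nat_lit 584108) (.g (nat_lit 3298) (.e (nat_lit 368676) (nat_lit 21) (.e (nat_lit 516131) (nat_lit 3) (.e (nat_lit 221213) (nat_lit 23) (.e (nat_lit 204829) (nat_lit 18) (.e (nat_lit 57927) (nat_lit 282) (.e (nat_lit 163874) (nat_lit 3) (.e (nat_lit 204873) (nat_lit 30) .nil))))))) (.g (nat_lit 1) (.e (nat_lit 385410) (nat_lit 0) .nil) .nil))) 
(.lf (nat_lit 584620) (.g (nat_lit 1529) (.e (nat_lit 376867) (nat_lit 23) (.e (nat_lit 98350) (nat_lit 24) (.e (nat_lit 409648) (nat_lit 18) (.e (nat_lit 303108) (nat_lit 0) .nil)))) (.g (nat_lit 0) (.e (nat_lit 386468) (nat_lit 0) .nil) .nil)))))) (.nd (nat_lit 7) (.nd (nat_lit 8) (.nd (nat_lit 9) 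
(.lf (nat_lit 583788) (.g (nat_lit 2609) (.e (nat_lit 360473) (nat_lit 8) (.e (nat_lit 557093) (nat_lit 12) (.e (nat_lit 164023) (nat_lit 46) (.e (nat_lit 704738) (nat_lit 11) (.e (nat_lit 16384) (nat_lit 0) (.e (nat_lit 3238) (nat_lit 197) (.e (nat_lit 532549) (nat_lit 12) .nil))))))) (.g (nat_lit 1) (.e (nat_lit 384599) (nat_lit 0) .nil) .nil))) 
(.lf (nat_lit 584300) (.g (nat_lit 3348) (.e (nat_lit 368701) (nat_lit 44) (.e (nat_lit 778466) (nat_lit 11) (.e (nat_lit 24617) (nat_lit 7) (.e (nat_lit 319505) (nat_lit 10) (.e (nat_lit 720) (nat_lit 64) .nil))))) (.g (nat_lit 0) (.e (nat_lit 385667) (nat_lit 0) .nil) .nil)))) (.nd (nat_lit 9) 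
(.lf (nat_lit 584044) (.g (nat_lit 3181) (.e (nat_lit 368675) (nat_lit 21) (.e (nat_lit 516138) (nat_lit 7) (.e (nat_lit 409645) (nat_lit 18) (.e (nat_lit 303112) (nat_lit 0) (.e (nat_lit 3252) (nat_lit 197) .nil))))) (.g (nat_lit 0) (.e (nat_lit 385296) (nat_lit 0) .nil) .nil))) 
(.lf (nat_lit 584556) (.g (nat_lit 2429) (.e (nat_lit 376860) (nat_lit 21) (.e (nat_lit 57930) (nat_lit 282) (.e (nat_lit 163896) (nat_lit 10) (.e (nat_lit 409616) (nat_lit 10) (.e (nat_lit 5768) (nat_lit 316) (.e (nat_lit 179968) (nat_lit 32) .nil)))))) (.g (nat_lit 1) (.e (nat_lit 386343) (nat_lit 0) .nil) .nil))))) (.nd (nat_lit 8) (.nd (nat_lit 9) 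
(.lf (nat_lit 583916) (.g (nat_lit 1688) (.e (nat_lit 360475) (nat_lit 8) (.e (nat_lit 557087) (nat_lit 11) (.e (nat_lit 24589) (nat_lit 0) (.e (nat_lit 6648) (nat_lit 357) .nil)))) (.g (nat_lit 0) (.e (nat_lit 384798) (nat_lit 0) .nil) .nil))) 
(.lf (nat_lit 584428) (.g (nat_lit 2858) (.e (nat_lit 376855) (nat_lit 20) (.e (nat_lit 1800) (nat_lit 119) (.e (nat_lit 516139) (nat_lit 7) (.e (nat_lit 409648) (nat_lit 18) (.e (nat_lit 303109) (nat_lit 0) (.e (nat_lit 3252) (nat_lit 197) (.e (nat_lit 532561) (nat_lit 14) .nil))))))) (.g (nat_lit 1) (.e (nat_lit 386125) (nat_lit 0) .nil) .nil)))) (.nd (nat_lit 9) 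
(.lf (nat_lit 584172) (.g (nat_lit 2900) (.e (nat_lit 368676) (nat_lit 21) (.e (nat_lit 516138) (nat_lit 7) (.e (nat_lit 409649) (nat_lit 18) (.e (nat_lit 303118) (nat_lit 3) (.e (nat_lit 204861) (nat_lit 26) (.e (nat_lit 336186) (nat_lit 11) .nil)))))) (.g (nat_lit 1) (.e (nat_lit 385480) (nat_lit 0) .nil) .nil))) 
(.lf (nat_lit 584684) (.g (nat_lit 1954) (.e (nat_lit 392960) (nat_lit 8) (.e (nat_lit 3062) (nat_lit 190) (.e (nat_lit 475198) (nat_lit 40) (.e (nat_lit 704595) (nat_lit 5) (.e (nat_lit 180278) (nat_lit 32) .nil))))) (.g (nat_lit 0) (.e (nat_lit 386635) (nat_lit 0) .nil) .nil)))))))) (.nd (nat_lit 5) (.nd (nat_lit 6) (.nd (nat_lit 7) (.nd (nat_lit 8) (.nd (nat_lit 9) 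
(.lf (nat_lit 583708) (.g (nat_lit 2602) (.e (nat_lit 360473) (nat_lit 8) (.e (nat_lit 557087) (nat_lit 11) (.e (nat_lit 24663) (nat_lit 14) (.e (nat_lit 401427) (nat_lit 3) (.e (nat_lit 204868) (nat_lit 29) .nil))))) (.g (nat_lit 1) (.e (nat_lit 384465) (nat_lit 0) .nil) .nil))) 
(.lf (nat_lit 584220) (.g (nat_lit 4042) (.e (nat_lit 368676) (nat_lit 21) (.e (nat_lit 516165) (nat_lit 12) (.e (nat_lit 450588) (nat_lit 10) (.e (nat_lit 573473) (nat_lit 12) (.e (nat_lit 57353) (nat_lit 0) (.e (nat_lit 7261) (nat_lit 384) (.e (nat_lit 57431) (nat_lit 16) .nil))))))) (.g (nat_lit 1) (.e (nat_lit 385530) (nat_lit 0) .nil) .nil)))) (.nd (nat_lit 9) 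
(.lf (nat_lit 583964) (.g (nat_lit 1728) (.e (nat_lit 360482) (nat_lit 15) (.e (nat_lit 647171) (nat_lit 0) (.e (nat_lit 2829) (nat_lit 182) (.e (nat_lit 409648) (nat_lit 18) (.e (nat_lit 303129) (nat_lit 9) (.e (nat_lit 433920) (nat_lit 30) .nil)))))) (.g (nat_lit 1) (.e (nat_lit 384875) (nat_lit 0) .nil) .nil))) 
(.lf (nat_lit 584476) (.g (nat_lit 552) (.e (nat_lit 376857) (nat_lit 21) (.e (nat_lit 57852) (nat_lit 252) (.e (nat_lit 57361) (nat_lit 0) .nil))) (.g (nat_lit 0) (.e (nat_lit 386206) (nat_lit 0) .nil) .nil))))) (.nd (nat_lit 8) (.nd (nat_lit 9) 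
(.lf (nat_lit 583836) (.g (nat_lit 2753) (.e (nat_lit 360474) (nat_lit 8) (.e (nat_lit 557093) (nat_lit 12) (.e (nat_lit 164022) (nat_lit 46) (.e (nat_lit 704629) (nat_lit 9) (.e (nat_lit 452) (nat_lit 33) (.e (nat_lit 434219) (nat_lit 19) (.e (nat_lit 499976) (nat_lit 14) (.e (nat_lit 1587) (nat_lit 111) .nil)))))))) (.g (nat_lit 1) (.e (nat_lit 384700) (nat_lit 0) .nil) .nil))) 
(.lf (nat_lit 584348) (.g (nat_lit 1808) (.e (nat_lit 384768) (nat_lit 5) (.e (nat_lit 221207) (nat_lit 21) (.e (nat_lit 164325) (nat_lit 230) (.e (nat_lit 163933) (nat_lit 17) (.e (nat_lit 474880) (nat_lit 16) .nil))))) (.g (nat_lit 0) (.e (nat_lit 386004) (nat_lit 0) .nil) .nil)))) (.nd (nat_lit 9) 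
(.lf (nat_lit 584092) (.g (nat_lit 2513) (.e (nat_lit 368676) (nat_lit 21) (.e (nat_lit 516129) (nat_lit 3) (.e (nat_lit 221215) (nat_lit 23) (.e (nat_lit 204829) (nat_lit 18) (.e (nat_lit 57927) (nat_lit 282) (.e (nat_lit 163875) (nat_lit 3) (.e (nat_lit 204873) (nat_lit 30) .nil))))))) (.g (nat_lit 1) (.e (nat_lit 385385) (nat_lit 0) .nil) .nil))) 
(.lf (nat_lit 584604) (.g (nat_lit 2884) (.e (nat_lit 376867) (nat_lit 23) (.e (nat_lit 98313) (nat_lit 9) (.e (nat_lit 335988) (nat_lit 1) (.e (nat_lit 57927) (nat_lit 282) (.e (nat_lit 163903) (nat_lit 12) (.e (nat_lit 426555) (nat_lit 32) .nil)))))) (.g (nat_lit 1) (.e (nat_lit 386445) (nat_lit 0) .nil) .nil)))))) (.nd (nat_lit 7) (.nd (nat_lit 8) (.nd (nat_lit 9) 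
(.lf (nat_lit 583772) (.g (nat_lit 4722) (.e (nat_lit 360473) (nat_lit 8) (.e (nat_lit 557091) (nat_lit 12) (.e (nat_lit 164022) (nat_lit 46) (.e (nat_lit 704629) (nat_lit 9) (.e (nat_lit 452) (nat_lit 33) (.e (nat_lit 434231) (nat_lit 23) (.e (nat_lit 532549) (nat_lit 12) .nil))))))) (.g (nat_lit 1) (.e (nat_lit 384571) (nat_lit 0) .nil) .nil))) 
(.lf (nat_lit 584284) (.g (nat_lit 3053) (.e (nat_lit 368678) (nat_lit 22) (.e (nat_lit 524322) (nat_lit 12) (.e (nat_lit 450588) (nat_lit 10) (.e (nat_lit 573473) (nat_lit 12) (.e (nat_lit 57348) (nat_lit 0) .nil))))) (.g (nat_lit 0) (.e (nat_lit 385624) (nat_lit 0) .nil) .nil)))) (.nd (nat_lit 9) 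
(.lf (nat_lit 584028) (.g (nat_lit 1914) (.e (nat_lit 376576) (nat_lit 5) (.e (nat_lit 180229) (nat_lit 0) (.e (nat_lit 6425) (nat_lit 342) (.e (nat_lit 229412) (nat_lit 14) (.e (nat_lit 450304) (nat_lit 15) .nil))))) (.g (nat_lit 0) (.e (nat_lit 385129) (nat_lit 0) .nil) .nil))) 
(.lf (nat_lit 584540) (.g (nat_lit 874) (.e (nat_lit 376860) (nat_lit 21) (.e (nat_lit 57852) (nat_lit 252) (.e (nat_lit 57387) (nat_lit 5) .nil))) (.g (nat_lit 0) (.e (nat_lit 386315) (nat_lit 0) .nil) .nil))))) (.nd (nat_lit 8) (.nd (nat_lit 9) 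
(.lf (nat_lit 583900) (.g (nat_lit 2493) (.e (nat_lit 360474) (nat_lit 8) (.e (nat_lit 557094) (nat_lit 12) (.e (nat_lit 164022) (nat_lit 46) (.e (nat_lit 704738) (nat_lit 11) (.e (nat_lit 16390) (nat_lit 0) (.e (nat_lit 3260) (nat_lit 198) (.e (nat_lit 540706) (nat_lit 12) .nil))))))) (.g (nat_lit 1) (.e (nat_lit 384768) (nat_lit 0) .nil) .nil))) 
(.lf (nat_lit 584412) (.g (nat_lit 1936) (.e (nat_lit 376853) (nat_lit 20) (.e (nat_lit 1796) (nat_lit 119) (.e (nat_lit 516139) (nat_lit 7) (.e (nat_lit 409649) (nat_lit 18) (.e (nat_lit 303119) (nat_lit 3) .nil))))) (.g (nat_lit 0) (.e (nat_lit 386107) (nat_lit 0) .nil) .nil)))) (.nd (nat_lit 9) 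
(.lf (nat_lit 584156) (.g (nat_lit 3761) (.e (nat_lit 368676) (nat_lit 21) (.e (nat_lit 516131) (nat_lit 3) (.e (nat_lit 221215) (nat_lit 23) (.e (nat_lit 204830) (nat_lit 18) (.e (nat_lit 57927) (nat_lit 282) (.e (nat_lit 163874) (nat_lit 3) (.e (nat_lit 204872) (nat_lit 30) .nil))))))) (.g (nat_lit 1) (.e (nat_lit 385463) (nat_lit 0) .nil) .nil))) 
(.lf (nat_lit 584668) (.g (nat_lit 507) (.e (nat_lit 376869) (nat_lit 23) (.e (nat_lit 98365) (nat_lit 26) (.e (nat_lit 426099) (nat_lit 1) .nil))) (.g (nat_lit 0) (.e (nat_lit 386553) (nat_lit 0) .nil) .nil))))))) (.nd (nat_lit 6) (.nd (nat_lit 7) (.nd (nat_lit 8) (.nd (nat_lit 9) 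
(.lf (nat_lit 583740) (.g (nat_lit 3655) (.e (nat_lit 360473) (nat_lit 8) (.e (nat_lit 557089) (nat_lit 12) (.e (nat_lit 164020) (nat_lit 45) (.e (nat_lit 696329) (nat_lit 5) (.e (nat_lit 2980) (nat_lit 185) (.e (nat_lit 434231) (nat_lit 23) (.e (nat_lit 532549) (nat_lit 12) .nil))))))) (.g (nat_lit 1) (.e (nat_lit 384513) (nat_lit 0) .nil) .nil))) 
(.lf (nat_lit 584252) (.g (nat_lit 6705) (.e (nat_lit 368676) (nat_lit 21) (.e (nat_lit 516166) (nat_lit 12) (.e (nat_lit 450588) (nat_lit 10) (.e (nat_lit 573473) (nat_lit 12) (.e (nat_lit 57347) (nat_lit 0) (.e (nat_lit 7266) (nat_lit 384) (.e (nat_lit 57430) (nat_lit 16) .nil))))))) (.g (nat_lit 1) (.e (nat_lit 385562) (nat_lit 0) .nil) .nil)))) (.nd (nat_lit 9) 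
(.lf (nat_lit 583996) (.g (nat_lit 1102) (.e (nat_lit 360493) (nat_lit 27) (.e (nat_lit 819204) (nat_lit 0) (.e (nat_lit 3022) (nat_lit 187) (.e (nat_lit 450577) (nat_lit 4) (.e (nat_lit 532224) (nat_lit 29) .nil))))) (.g (nat_lit 1) (.e (nat_lit 384937) (nat_lit 0) .nil) .nil))) 
(.lf (nat_lit 584508) (.g (nat_lit 701) (.e (nat_lit 376859) (nat_lit 21) (.e (nat_lit 57847) (nat_lit 252) (.e (nat_lit 57389) (nat_lit 5) .nil))) (.g (nat_lit 0) (.e (nat_lit 386263) (nat_lit 0) .nil) .nil))))) (.nd (nat_lit 8) (.nd (nat_lit 9) 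
(.lf (nat_lit 583868) (.g (nat_lit 3260) (.e (nat_lit 360474) (nat_lit 8) (.e (nat_lit 557093) (nat_lit 12) (.e (nat_lit 164023) (nat_lit 46) (.e (nat_lit 704737) (nat_lit 11) (.e (nat_lit 16393) (nat_lit 0) (.e (nat_lit 3262) (nat_lit 198) (.e (nat_lit 540706) (nat_lit 12) .nil))))))) (.g (nat_lit 1) (.e (nat_lit 384733) (nat_lit 0) .nil) .nil))) 
(.lf (nat_lit 584380) (.g (nat_lit 1414) (.e (nat_lit 376842) (nat_lit 11) (.e (nat_lit 426406) (nat_lit 15) (.e (nat_lit 6206) (nat_lit 333) (.e (nat_lit 57883) (nat_lit 270) (.e (nat_lit 174) (nat_lit 12) (.e (nat_lit 204877) (nat_lit 31) .nil)))))) (.g (nat_lit 1) (.e (nat_lit 386061) (nat_lit 0) .nil) .nil)))) (.nd (nat_lit 9) 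
(.lf (nat_lit 584124) (.g (nat_lit 3629) (.e (nat_lit 368676) (nat_lit 21) (.e (nat_lit 516131) (nat_lit 3) (.e (nat_lit 221214) (nat_lit 23) (.e (nat_lit 204830) (nat_lit 18) (.e (nat_lit 57926) (nat_lit 282) (.e (nat_lit 163874) (nat_lit 3) (.e (nat_lit 204872) (nat_lit 30) .nil))))))) (.g (nat_lit 1) (.e (nat_lit 385426) (nat_lit 0) .nil) .nil))) 
(.lf (nat_lit 584636) (.g (nat_lit 2161) (.e (nat_lit 376868) (nat_lit 23) (.e (nat_lit 98350) (nat_lit 24) (.e (nat_lit 409648) (nat_lit 18) (.e (nat_lit 303110) (nat_lit 0) .nil)))) (.g (nat_lit 0) (.e (nat_lit 386491) (nat_lit 0) .nil) .nil)))))) (.nd (nat_lit 7) (.nd (nat_lit 8) (.nd (nat_lit 9) 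
(.lf (nat_lit 583804) (.g (nat_lit 2965) (.e (nat_lit 360473) (nat_lit 8) (.e (nat_lit 557094) (nat_lit 12) (.e (nat_lit 164018) (nat_lit 45) (.e (nat_lit 696330) (nat_lit 5) (.e (nat_lit 2964) (nat_lit 185) (.e (nat_lit 434231) (nat_lit 23) (.e (nat_lit 532549) (nat_lit 12) .nil))))))) (.g (nat_lit 1) (.e (nat_lit 384633) (nat_lit 0) .nil) .nil))) 
(.lf (nat_lit 584316) (.g (nat_lit 1688) (.e (nat_lit 376835) (nat_lit 0) (.e (nat_lit 3632) (nat_lit 227) (.e (nat_lit 778323) (nat_lit 5) (.e (nat_lit 73781) (nat_lit 32) (.e (nat_lit 2854) (nat_lit 184) (.e (nat_lit 426553) (nat_lit 32) .nil)))))) (.g (nat_lit 1) (.e (nat_lit 385796) (nat_lit 0) .nil) .nil)))) (.nd (nat_lit 9) 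
(.lf (nat_lit 584060) (.g (nat_lit 1418) (.e (nat_lit 368676) (nat_lit 21) (.e (nat_lit 516118) (nat_lit 1) (.e (nat_lit 164183) (nat_lit 154) (.e (nat_lit 57379) (nat_lit 3) (.e (nat_lit 98342) (nat_lit 20) .nil))))) (.g (nat_lit 0) (.e (nat_lit 385348) (nat_lit 0) .nil) .nil))) 
(.lf (nat_lit 584572) (.g (nat_lit 2886) (.e (nat_lit 376862) (nat_lit 22) (.e (nat_lit 90158) (nat_lit 11) (.e (nat_lit 24597) (nat_lit 1) (.e (nat_lit 57927) (nat_lit 282) (.e (nat_lit 163903) (nat_lit 12) (.e (nat_lit 426555) (nat_lit 32) .nil)))))) (.g (nat_lit 1) (.e (nat_lit 386373) (nat_lit 0) .nil) .nil))))) (.nd (nat_lit 8) (.nd (nat_lit 9) 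
(.lf (nat_lit 583932) (.g (nat_lit 889) (.e (nat_lit 360475) (nat_lit 8) (.e (nat_lit 557090) (nat_lit 12) (.e (nat_lit 163849) (nat_lit 0) .nil))) (.g (nat_lit 0) (.e (nat_lit 384817) (nat_lit 0) .nil) .nil))) 
(.lf (nat_lit 584444) (.g (nat_lit 875) (.e (nat_lit 376856) (nat_lit 21) (.e (nat_lit 57849) (nat_lit 252) (.e (nat_lit 57390) (nat_lit 5) .nil))) (.g (nat_lit 0) (.e (nat_lit 386156) (nat_lit 0) .nil) .nil)))) (.nd (nat_lit 9) 
(.lf (nat_lit 584188) (.g (nat_lit 2787) (.e (nat_lit 368676) (nat_lit 21) (.e (nat_lit 516165) (nat_lit 12) (.e (nat_lit 450586) (nat_lit 10) (.e (nat_lit 573473) (nat_lit 12) (.e (nat_lit 57347) (nat_lit 0) (.e (nat_lit 7261) (nat_lit 384) (.e (nat_lit 57431) (nat_lit 16) .nil))))))) (.g (nat_lit 1) (.e (nat_lit 385498) (nat_lit 0) .nil) .nil))) 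
(.lf (nat_lit 584700) (.g (nat_lit 1776) (.e (nat_lit 385064) (nat_lit 26) (.e (nat_lit 532515) (nat_lit 3) (.e (nat_lit 114694) (nat_lit 11) (.e (nat_lit 426133) (nat_lit 3) (.e (nat_lit 204861) (nat_lit 26) .nil))))) (.g (nat_lit 0) (.e (nat_lit 386698) (nat_lit 0) .nil) .nil))))))))))) 
(.nd (nat_lit 2) (.nd (nat_lit 3) (.nd (nat_lit 4) (.nd (nat_lit 5) (.nd (nat_lit 6) 
(.nd (nat_lit 7) (.nd (nat_lit 8) (.nd (nat_lit 9) 
(.lf (nat_lit 583682) (.g (nat_lit 5300) (.e (nat_lit 360472) (nat_lit 8) (.e (nat_lit 557090) (nat_lit 12) (.e (nat_lit 164020) (nat_lit 45) (.e (nat_lit 696344) (nat_lit 8) (.e (nat_lit 172067) (nat_lit 3) (.e (nat_lit 204869) (nat_lit 29) .nil)))))) (.g (nat_lit 1) (.e (nat_lit 384404) (nat_lit 0) .nil) .nil))) 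
(.lf (nat_lit 584194) (.g (nat_lit 3072) (.e (nat_lit 368676) (nat_lit 21) (.e (nat_lit 516165) (nat_lit 12) (.e (nat_lit 450586) (nat_lit 10) (.e (nat_lit 573473) (nat_lit 12) (.e (nat_lit 57352) (nat_lit 0) (.e (nat_lit 7261) (nat_lit 384) (.e (nat_lit 57431) (nat_lit 16) .nil))))))) (.g (nat_lit 1) (.e (nat_lit 385504) (nat_lit 0) .nil) .nil)))) (.nd (nat_lit 9) 
(.lf (nat_lit 583938) (.g (nat_lit 3574) (.e (nat_lit 360475) (nat_lit 8) (.e (nat_lit 557090) (nat_lit 12) (.e (nat_lit 164017) (nat_lit 44) (.e (nat_lit 688138) (nat_lit 5) (.e (nat_lit 2887) (nat_lit 184) (.e (nat_lit 426032) (nat_lit 0) (.e (nat_lit 3262) (nat_lit 198) (.e (nat_lit 540706) (nat_lit 12) .nil)))))))) (.g (nat_lit 1) (.e (nat_lit 384830) (nat_lit 0) .nil) .nil))) 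
(.lf (nat_lit 584450) (.g (nat_lit 428) (.e (nat_lit 376857) (nat_lit 21) (.e (nat_lit 57846) (nat_lit 252) (.e (nat_lit 57388) (nat_lit 5) .nil))) (.g (nat_lit 0) (.e (nat_lit 386174) (nat_lit 0) .nil) .nil))))) (.nd (nat_lit 8) (.nd (nat_lit 9) 
(.lf (nat_lit 583810) (.g (nat_lit 3392) (.e (nat_lit 360473) (nat_lit 8) (.e (nat_lit 557094) (nat_lit 12) (.e (nat_lit 164022) (nat_lit 46) (.e (nat_lit 704627) (nat_lit 9) (.e (nat_lit 452) (nat_lit 33) (.e (nat_lit 434231) (nat_lit 23) (.e (nat_lit 532549) (nat_lit 12) .nil))))))) (.g (nat_lit 1) (.e (nat_lit 384647) (nat_lit 0) .nil) .nil))) 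
(.lf (nat_lit 584322) (.g (nat_lit 1924) (.e (nat_lit 376835) (nat_lit 0) (.e (nat_lit 3632) (nat_lit 227) (.e (nat_lit 778323) (nat_lit 5) (.e (nat_lit 73782) (nat_lit 32) (.e (nat_lit 2854) (nat_lit 184) (.e (nat_lit 426553) (nat_lit 32) .nil)))))) (.g (nat_lit 1) (.e (nat_lit 385802) (nat_lit 0) .nil) .nil)))) (.nd (nat_lit 9) 
(.lf (nat_lit 584066) (.g (nat_lit 1227) (.e (nat_lit 368676) (nat_lit 21) (.e (nat_lit 516129) (nat_lit 3) (.e (nat_lit 221210) (nat_lit 22) (.e (nat_lit 196658) (nat_lit 12) .nil)))) (.g (nat_lit 0) (.e (nat_lit 385359) (nat_lit 0) .nil) .nil))) 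
(.lf (nat_lit 584578) (.g (nat_lit 1148) (.e (nat_lit 376862) (nat_lit 22) (.e (nat_lit 90185) (nat_lit 17) (.e (nat_lit 237572) (nat_lit 0) .nil))) (.g (nat_lit 0) (.e (nat_lit 386383) (nat_lit 0) .nil) .nil)))))) (.nd (nat_lit 7) (.nd (nat_lit 8) (.nd (nat_lit 9) 
(.lf (nat_lit 583746) (.g (nat_lit 910) (.e (nat_lit 360473) (nat_lit 8) (.e (nat_lit 557090) (nat_lit 12) (.e (nat_lit 163850) (nat_lit 0) .nil))) (.g (nat_lit 0) (.e (nat_lit 384519) (nat_lit 0) .nil) .nil))) 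
(.lf (nat_lit 584258) (.g (nat_lit 5942) (.e (nat_lit 368676) (nat_lit 21) (.e (nat_lit 516166) (nat_lit 12) (.e (nat_lit 450588) (nat_lit 10) (.e (nat_lit 573475) (nat_lit 12) (.e (nat_lit 57348) (nat_lit 0) (.e (nat_lit 7266) (nat_lit 384) (.e (nat_lit 57431) (nat_lit 16) .nil))))))) (.g (nat_lit 1) (.e (nat_lit 385568) (nat_lit 0) .nil) .nil)))) (.nd (nat_lit 9) 
(.lf (nat_lit 584002) (.g (nat_lit 1955) (.e (nat_lit 360493) (nat_lit 27) (.e (nat_lit 819204) (nat_lit 0) (.e (nat_lit 3022) (nat_lit 187) (.e (nat_lit 450584) (nat_lit 9) (.e (nat_lit 565252) (nat_lit 0) (.e (nat_lit 1598) (nat_lit 111) .nil)))))) (.g (nat_lit 1) (.e (nat_lit 384943) (nat_lit 0) .nil) .nil))) 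
(.lf (nat_lit 584514) (.g (nat_lit 828) (.e (nat_lit 376859) (nat_lit 21) (.e (nat_lit 57849) (nat_lit 252) (.e (nat_lit 57388) (nat_lit 5) (.e (nat_lit 114696) (nat_lit 11) .nil)))) (.g (nat_lit 0) (.e (nat_lit 386271) (nat_lit 0) .nil) .nil))))) (.nd (nat_lit 8) (.nd (nat_lit 9) 
(.lf (nat_lit 583874) (.g (nat_lit 2945) (.e (nat_lit 360474) (nat_lit 8) (.e (nat_lit 557094) (nat_lit 12) (.e (nat_lit 164022) (nat_lit 46) (.e (nat_lit 704628) (nat_lit 9) (.e (nat_lit 375) (nat_lit 32) (.e (nat_lit 426032) (nat_lit 0) (.e (nat_lit 3262) (nat_lit 198) (.e (nat_lit 540706) (nat_lit 12) .nil)))))))) (.g (nat_lit 1) (.e (nat_lit 384739) (nat_lit 0) .nil) .nil))) 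
(.lf (nat_lit 584386) (.g (nat_lit 2318) (.e (nat_lit 376842) (nat_lit 11) (.e (nat_lit 426408) (nat_lit 15) (.e (nat_lit 6209) (nat_lit 333) (.e (nat_lit 57883) (nat_lit 270) (.e (nat_lit 174) (nat_lit 12) (.e (nat_lit 204876) (nat_lit 31) .nil)))))) (.g (nat_lit 1) (.e (nat_lit 386067) (nat_lit 0) .nil) .nil)))) (.nd (nat_lit 9) 
(.lf (nat_lit 584130) (.g (nat_lit 3632) (.e (nat_lit 368676) (nat_lit 21) (.e (nat_lit 516131) (nat_lit 3) (.e (nat_lit 221214) (nat_lit 23) (.e (nat_lit 204830) (nat_lit 18) (.e (nat_lit 57927) (nat_lit 282) (.e (nat_lit 163875) (nat_lit 3) (.e (nat_lit 204873) (nat_lit 30) .nil))))))) (.g (nat_lit 1) (.e (nat_lit 385432) (nat_lit 0) .nil) .nil))) 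
(.lf (nat_lit 584642) (.g (nat_lit 2245) (.e (nat_lit 376869) (nat_lit 23) (.e (nat_lit 98312) (nat_lit 9) (.e (nat_lit 335988) (nat_lit 1) (.e (nat_lit 57926) (nat_lit 282) (.e (nat_lit 163907) (nat_lit 12) (.e (nat_lit 426555) (nat_lit 32) .nil)))))) (.g (nat_lit 1) (.e (nat_lit 386500) (nat_lit 0) .nil) .nil))))))) (.nd (nat_lit 6) (.nd (nat_lit 7) (.nd (nat_lit 8) (.nd (nat_lit 9) 
(.lf (nat_lit 583714) (.g (nat_lit 1745) (.e (nat_lit 360473) (nat_lit 8) (.e (nat_lit 557089) (nat_lit 12) (.e (nat_lit 163843) (nat_lit 0) (.e (nat_lit 6420) (nat_lit 341) (.e (nat_lit 163909) (nat_lit 12) .nil))))) (.g (nat_lit 0) (.e (nat_lit 384472) (nat_lit 0) .nil) .nil))) 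
(.lf (nat_lit 584226) (.g (nat_lit 4522) (.e (nat_lit 368676) (nat_lit 21) (.e (nat_lit 516165) (nat_lit 12) (.e (nat_lit 450588) (nat_lit 10) (.e (nat_lit 573475) (nat_lit 12) (.e (nat_lit 57347) (nat_lit 0) (.e (nat_lit 7261) (nat_lit 384) (.e (nat_lit 57431) (nat_lit 16) .nil))))))) (.g (nat_lit 1) (.e (nat_lit 385536) (nat_lit 0) .nil) .nil)))) (.nd (nat_lit 9) 
(.lf (nat_lit 583970) (.g (nat_lit 1768) (.e (nat_lit 360493) (nat_lit 27) (.e (nat_lit 819203) (nat_lit 0) (.e (nat_lit 3015) (nat_lit 187) (.e (nat_lit 450584) (nat_lit 9) (.e (nat_lit 565252) (nat_lit 0) (.e (nat_lit 1599) (nat_lit 111) .nil)))))) (.g (nat_lit 1) (.e (nat_lit 384901) (nat_lit 0) .nil) .nil))) 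
(.lf (nat_lit 584482) (.g (nat_lit 522) (.e (nat_lit 376857) (nat_lit 21) (.e (nat_lit 57854) (nat_lit 252) (.e (nat_lit 57354) (nat_lit 0) .nil))) (.g (nat_lit 0) (.e (nat_lit 386217) (nat_lit 0) .nil) .nil))))) (.nd (nat_lit 8) (.nd (nat_lit 9) 
(.lf (nat_lit 583842) (.g (nat_lit 2701) (.e (nat_lit 360474) (nat_lit 8) (.e (nat_lit 557093) (nat_lit 12) (.e (nat_lit 164022) (nat_lit 46) (.e (nat_lit 704629) (nat_lit 9) (.e (nat_lit 452) (nat_lit 33) (.e (nat_lit 434219) (nat_lit 19) (.e (nat_lit 499985) (nat_lit 14) (.e (nat_lit 1587) (nat_lit 111) .nil)))))))) (.g (nat_lit 1) (.e (nat_lit 384706) (nat_lit 0) .nil) .nil))) 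
(.lf (nat_lit 584354) (.g (nat_lit 1137) (.e (nat_lit 384768) (nat_lit 5) (.e (nat_lit 221207) (nat_lit 21) (.e (nat_lit 164327) (nat_lit 230) (.e (nat_lit 163931) (nat_lit 17) (.e (nat_lit 474880) (nat_lit 16) .nil))))) (.g (nat_lit 0) (.e (nat_lit 386010) (nat_lit 0) .nil) .nil)))) (.nd (nat_lit 9) 
(.lf (nat_lit 584098) (.g (nat_lit 2299) (.e (nat_lit 368676) (nat_lit 21) (.e (nat_lit 516129) (nat_lit 3) (.e (nat_lit 221215) (nat_lit 23) (.e (nat_lit 204830) (nat_lit 18) (.e (nat_lit 57927) (nat_lit 282) (.e (nat_lit 163874) (nat_lit 3) (.e (nat_lit 204872) (nat_lit 30) .nil))))))) (.g (nat_lit 1) (.e (nat_lit 385391) (nat_lit 0) .nil) .nil))) 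
(.lf (nat_lit 584610) (.g (nat_lit 2748) (.e (nat_lit 376867) (nat_lit 23) (.e (nat_lit 98317) (nat_lit 9) (.e (nat_lit 335986) (nat_lit 1) (.e (nat_lit 57927) (nat_lit 282) (.e (nat_lit 163907) (nat_lit 12) (.e (nat_lit 426555) (nat_lit 32) .nil)))))) (.g (nat_lit 1) (.e (nat_lit 386454) (nat_lit 0) .nil) .nil)))))) (.nd (nat_lit 7) (.nd (nat_lit 8) (.nd (nat_lit 9) 
(.lf (nat_lit 583778) (.g (nat_lit 2650) (.e (nat_lit 360473) (nat_lit 8) (.e (nat_lit 557093) (nat_lit 12) (.e (nat_lit 164018) (nat_lit 45) (.e (nat_lit 696329) (nat_lit 5) (.e (nat_lit 2884) (nat_lit 184) (.e (nat_lit 426140) (nat_lit 3) (.e (nat_lit 204868) (nat_lit 29) .nil))))))) (.g (nat_lit 1) (.e (nat_lit 384580) (nat_lit 0) .nil) .nil))) 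
(.lf (nat_lit 584290) (.g (nat_lit 1194) (.e (nat_lit 368682) (nat_lit 26) (.e (nat_lit 557087) (nat_lit 11) (.e (nat_lit 24617) (nat_lit 7) .nil))) (.g (nat_lit 0) (.e (nat_lit 385633) (nat_lit 0) .nil) .nil)))) (.nd (nat_lit 9) 
(.lf (nat_lit 584034) (.g (nat_lit 1724) (.e (nat_lit 368656) (nat_lit 14) (.e (nat_lit 57810) (nat_lit 246) (.e (nat_lit 57610) (nat_lit 109) (.e (nat_lit 720909) (nat_lit 11) (.e (nat_lit 426198) (nat_lit 9) (.e (nat_lit 426550) (nat_lit 31) .nil)))))) (.g (nat_lit 1) (.e (nat_lit 385173) (nat_lit 0) .nil) .nil))) 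
(.lf (nat_lit 584546) (.g (nat_lit 2311) (.e (nat_lit 376860) (nat_lit 21) (.e (nat_lit 57853) (nat_lit 252) (.e (nat_lit 57389) (nat_lit 5) (.e (nat_lit 114695) (nat_lit 11) (.e (nat_lit 426230) (nat_lit 9) (.e (nat_lit 426554) (nat_lit 32) .nil)))))) (.g (nat_lit 1) (.e (nat_lit 386324) (nat_lit 0) .nil) .nil))))) (.nd (nat_lit 8) (.nd (nat_lit 9) 
(.lf (nat_lit 583906) (.g (nat_lit 2170) (.e (nat_lit 360475) (nat_lit 8) (.e (nat_lit 557066) (nat_lit 9) (.e (nat_lit 232) (nat_lit 21) (.e (nat_lit 336060) (nat_lit 7) (.e (nat_lit 327424) (nat_lit 10) .nil))))) (.g (nat_lit 0) (.e (nat_lit 384777) (nat_lit 0) .nil) .nil))) 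
(.lf (nat_lit 584418) (.g (nat_lit 2870) (.e (nat_lit 376855) (nat_lit 20) (.e (nat_lit 1800) (nat_lit 119) (.e (nat_lit 516139) (nat_lit 7) (.e (nat_lit 409623) (nat_lit 10) (.e (nat_lit 5664) (nat_lit 312) (.e (nat_lit 2679) (nat_lit 168) (.e (nat_lit 204876) (nat_lit 31) .nil))))))) (.g (nat_lit 1) (.e (nat_lit 386115) (nat_lit 0) .nil) .nil)))) (.nd (nat_lit 9) 
(.lf (nat_lit 584162) (.g (nat_lit 3101) (.e (nat_lit 368676) (nat_lit 21) (.e (nat_lit 516131) (nat_lit 3) (.e (nat_lit 221215) (nat_lit 23) (.e (nat_lit 204831) (nat_lit 18) (.e (nat_lit 57931) (nat_lit 282) (.e (nat_lit 163873) (nat_lit 3) (.e (nat_lit 204872) (nat_lit 30) .nil))))))) (.g (nat_lit 1) (.e (nat_lit 385469) (nat_lit 0) .nil) .nil))) 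
(.lf (nat_lit 584674) (.g (nat_lit 427) (.e (nat_lit 392960) (nat_lit 5) (.e (nat_lit 73753) (nat_lit 8) (.e (nat_lit 557119) (nat_lit 18) .nil))) (.g (nat_lit 0) (.e (nat_lit 386600) (nat_lit 0) .nil) .nil)))))))) (.nd (nat_lit 5) (.nd (nat_lit 6) (.nd (nat_lit 7) (.nd (nat_lit 8) (.nd (nat_lit 9) 
(.lf (nat_lit 583698) (.g (nat_lit 1720) (.e (nat_lit 360473) (nat_lit 8) (.e (nat_lit 557087) (nat_lit 11) (.e (nat_lit 24592) (nat_lit 0) (.e (nat_lit 7936) (nat_lit 360) .nil)))) (.g (nat_lit 0) (.e (nat_lit 384455) (nat_lit 0) .nil) .nil))) 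
(.lf (nat_lit 584210) (.g (nat_lit 2745) (.e (nat_lit 368676) (nat_lit 21) (.e (nat_lit 516165) (nat_lit 12) (.e (nat_lit 450586) (nat_lit 10) (.e (nat_lit 573477) (nat_lit 12) (.e (nat_lit 57352) (nat_lit 0) (.e (nat_lit 7261) (nat_lit 384) (.e (nat_lit 57431) (nat_lit 16) .nil))))))) (.g (nat_lit 1) (.e (nat_lit 385520) (nat_lit 0) .nil) .nil)))) (.nd (nat_lit 9) 
(.lf (nat_lit 583954) (.g (nat_lit 2103) (.e (nat_lit 360475) (nat_lit 8) (.e (nat_lit 557091) (nat_lit 12) (.e (nat_lit 164022) (nat_lit 46) (.e (nat_lit 704737) (nat_lit 11) (.e (nat_lit 16387) (nat_lit 0) (.e (nat_lit 7936) (nat_lit 197) (.e (nat_lit 532550) (nat_lit 12) .nil))))))) (.g (nat_lit 1) (.e (nat_lit 384850) (nat_lit 0) .nil) .nil))) 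
(.lf (nat_lit 584466) (.g (nat_lit 3130) (.e (nat_lit 376857) (nat_lit 21) (.e (nat_lit 57849) (nat_lit 252) (.e (nat_lit 57390) (nat_lit 5) (.e (nat_lit 114697) (nat_lit 11) (.e (nat_lit 426200) (nat_lit 9) (.e (nat_lit 426555) (nat_lit 32) .nil)))))) (.g (nat_lit 1) (.e (nat_lit 386195) (nat_lit 0) .nil) .nil))))) (.nd (nat_lit 8) (.nd (nat_lit 9) 
(.lf (nat_lit 583826) (.g (nat_lit 3503) (.e (nat_lit 360474) (nat_lit 8) (.e (nat_lit 557091) (nat_lit 12) (.e (nat_lit 163850) (nat_lit 0) (.e (nat_lit 6425) (nat_lit 342) (.e (nat_lit 229404) (nat_lit 12) (.e (nat_lit 426138) (nat_lit 3) (.e (nat_lit 204869) (nat_lit 29) .nil))))))) (.g (nat_lit 1) (.e (nat_lit 384686) (nat_lit 0) .nil) .nil))) 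
(.lf (nat_lit 584338) (.g (nat_lit 1665) (.e (nat_lit 384768) (nat_lit 5) (.e (nat_lit 221206) (nat_lit 21) (.e (nat_lit 164332) (nat_lit 230) (.e (nat_lit 163905) (nat_lit 12) (.e (nat_lit 426226) (nat_lit 9) .nil))))) (.g (nat_lit 0) (.e (nat_lit 385987) (nat_lit 0) .nil) .nil)))) (.nd (nat_lit 9) 
(.lf (nat_lit 584082) (.g (nat_lit 2647) (.e (nat_lit 368676) (nat_lit 21) (.e (nat_lit 516129) (nat_lit 3) (.e (nat_lit 221214) (nat_lit 23) (.e (nat_lit 204830) (nat_lit 18) (.e (nat_lit 57927) (nat_lit 282) (.e (nat_lit 163875) (nat_lit 3) (.e (nat_lit 204873) (nat_lit 30) .nil))))))) (.g (nat_lit 1) (.e (nat_lit 385375) (nat_lit 0) .nil) .nil))) 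
(.lf (nat_lit 584594) (.g (nat_lit 1786) (.e (nat_lit 376866) (nat_lit 23) (.e (nat_lit 98350) (nat_lit 24) (.e (nat_lit 409616) (nat_lit 10) (.e (nat_lit 5763) (nat_lit 315) .nil)))) (.g (nat_lit 0) (.e (nat_lit 386430) (nat_lit 0) .nil) .nil)))))) (.nd (nat_lit 7) (.nd (nat_lit 8) (.nd (nat_lit 9) 
(.lf (nat_lit 583762) (.g (nat_lit 3503) (.e (nat_lit 360473) (nat_lit 8) (.e (nat_lit 557091) (nat_lit 12) (.e (nat_lit 164018) (nat_lit 45) (.e (nat_lit 696330) (nat_lit 5) (.e (nat_lit 2980) (nat_lit 185) (.e (nat_lit 434231) (nat_lit 23) (.e (nat_lit 532549) (nat_lit 12) .nil))))))) (.g (nat_lit 1) (.e (nat_lit 384554) (nat_lit 0) .nil) .nil))) 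
(.lf (nat_lit 584274) (.g (nat_lit 2798) (.e (nat_lit 368676) (nat_lit 21) (.e (nat_lit 516195) (nat_lit 26) (.e (nat_lit 335995) (nat_lit 1) (.e (nat_lit 57931) (nat_lit 282) (.e (nat_lit 163941) (nat_lit 19) (.e (nat_lit 483398) (nat_lit 25) .nil)))))) (.g (nat_lit 1) (.e (nat_lit 385603) (nat_lit 0) .nil) .nil)))) (.nd (nat_lit 9) 
(.lf (nat_lit 584018) (.g (nat_lit 1625) (.e (nat_lit 376576) (nat_lit 3) (.e (nat_lit 163962) (nat_lit 25) (.e (nat_lit 532523) (nat_lit 7) (.e (nat_lit 319491) (nat_lit 0) .nil)))) (.g (nat_lit 0) (.e (nat_lit 385044) (nat_lit 0) .nil) .nil))) 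
(.lf (nat_lit 584530) (.g (nat_lit 1892) (.e (nat_lit 376859) (nat_lit 21) (.e (nat_lit 57854) (nat_lit 252) (.e (nat_lit 57388) (nat_lit 5) (.e (nat_lit 114698) (nat_lit 11) (.e (nat_lit 426197) (nat_lit 9) (.e (nat_lit 426556) (nat_lit 32) .nil)))))) (.g (nat_lit 1) (.e (nat_lit 386287) (nat_lit 0) .nil) .nil))))) (.nd (nat_lit 8) (.nd (nat_lit 9) 
(.lf (nat_lit 583890) (.g (nat_lit 2262) (.e (nat_lit 360474) (nat_lit 8) (.e (nat_lit 557094) (nat_lit 12) (.e (nat_lit 164022) (nat_lit 46) (.e (nat_lit 704737) (nat_lit 11) (.e (nat_lit 16387) (nat_lit 0) (.e (nat_lit 7936) (nat_lit 197) (.e (nat_lit 532550) (nat_lit 12) .nil))))))) (.g (nat_lit 1) (.e (nat_lit 384758) (nat_lit 0) .nil) .nil))) 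
(.lf (nat_lit 584402) (.g (nat_lit 2768) (.e (nat_lit 376842) (nat_lit 11) (.e (nat_lit 426521) (nat_lit 27) (.e (nat_lit 335988) (nat_lit 1) (.e (nat_lit 57927) (nat_lit 282) (.e (nat_lit 163874) (nat_lit 3) (.e (nat_lit 204877) (nat_lit 31) .nil)))))) (.g (nat_lit 1) (.e (nat_lit 386083) (nat_lit 0) .nil) .nil)))) (.nd (nat_lit 9) 
(.lf (nat_lit 584146) (.g (nat_lit 3900) (.e (nat_lit 368676) (nat_lit 21) (.e (nat_lit 516131) (nat_lit 3) (.e (nat_lit 221215) (nat_lit 23) (.e (nat_lit 204829) (nat_lit 18) (.e (nat_lit 57926) (nat_lit 282) (.e (nat_lit 163875) (nat_lit 3) (.e (nat_lit 204873) (nat_lit 30) .nil))))))) (.g (nat_lit 1) (.e (nat_lit 385453) (nat_lit 0) .nil) .nil))) 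
(.lf (nat_lit 584658) (.g (nat_lit 1379) (.e (nat_lit 376869) (nat_lit 23) (.e (nat_lit 98333) (nat_lit 18) (.e (nat_lit 164179) (nat_lit 154) (.e (nat_lit 57405) (nat_lit 12) .nil)))) (.g (nat_lit 0) (.e (nat_lit 386527) (nat_lit 0) .nil) .nil))))))) (.nd (nat_lit 6) (.nd (nat_lit 7) (.nd (nat_lit 8) (.nd (nat_lit 9) 
(.lf (nat_lit 583730) (.g (nat_lit 937) (.e (nat_lit 360473) (nat_lit 8) (.e (nat_lit 557089) (nat_lit 12) (.e (nat_lit 164003) (nat_lit 40) (.e (nat_lit 655398) (nat_lit 12) .nil)))) (.g (nat_lit 0) (.e (nat_lit 384503) (nat_lit 0) .nil) .nil))) 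
(.lf (nat_lit 584242) (.g (nat_lit 4796) (.e (nat_lit 368676) (nat_lit 21) (.e (nat_lit 516166) (nat_lit 12) (.e (nat_lit 450587) (nat_lit 10) (.e (nat_lit 573477) (nat_lit 12) (.e (nat_lit 57353) (nat_lit 0) (.e (nat_lit 7265) (nat_lit 384) (.e (nat_lit 57430) (nat_lit 16) .nil))))))) (.g (nat_lit 1) (.e (nat_lit 385552) (nat_lit 0) .nil) .nil)))) (.nd (nat_lit 9) 
(.lf (nat_lit 583986) (.g (nat_lit 447) (.e (nat_lit 360493) (nat_lit 27) (.e (nat_lit 819204) (nat_lit 0) (.e (nat_lit 3015) (nat_lit 187) .nil))) (.g (nat_lit 0) (.e (nat_lit 384924) (nat_lit 0) .nil) .nil))) 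
(.lf (nat_lit 584498) (.g (nat_lit 2258) (.e (nat_lit 376858) (nat_lit 21) (.e (nat_lit 57854) (nat_lit 252) (.e (nat_lit 57389) (nat_lit 5) (.e (nat_lit 114698) (nat_lit 11) (.e (nat_lit 426197) (nat_lit 9) .nil))))) (.g (nat_lit 0) (.e (nat_lit 386242) (nat_lit 0) .nil) .nil))))) (.nd (nat_lit 8) (.nd (nat_lit 9) 
(.lf (nat_lit 583858) (.g (nat_lit 3244) (.e (nat_lit 360474) (nat_lit 8) (.e (nat_lit 557093) (nat_lit 12) (.e (nat_lit 164022) (nat_lit 46) (.e (nat_lit 704738) (nat_lit 11) (.e (nat_lit 16390) (nat_lit 0) (.e (nat_lit 3260) (nat_lit 198) (.e (nat_lit 540706) (nat_lit 12) .nil))))))) (.g (nat_lit 1) (.e (nat_lit 384723) (nat_lit 0) .nil) .nil))) 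
(.lf (nat_lit 584370) (.g (nat_lit 2149) (.e (nat_lit 376842) (nat_lit 11) (.e (nat_lit 426100) (nat_lit 1) (.e (nat_lit 164182) (nat_lit 154) (.e (nat_lit 57409) (nat_lit 12) (.e (nat_lit 336324) (nat_lit 18) .nil))))) (.g (nat_lit 0) (.e (nat_lit 386050) (nat_lit 0) .nil) .nil)))) (.nd (nat_lit 9) 
(.lf (nat_lit 584114) (.g (nat_lit 3034) (.e (nat_lit 368676) (nat_lit 21) (.e (nat_lit 516131) (nat_lit 3) (.e (nat_lit 221214) (nat_lit 23) (.e (nat_lit 204829) (nat_lit 18) (.e (nat_lit 57926) (nat_lit 282) (.e (nat_lit 163874) (nat_lit 3) (.e (nat_lit 204872) (nat_lit 30) .nil))))))) (.g (nat_lit 1) (.e (nat_lit 385416) (nat_lit 0) .nil) .nil))) 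
(.lf (nat_lit 584626) (.g (nat_lit 921) (.e (nat_lit 376868) (nat_lit 23) (.e (nat_lit 98350) (nat_lit 24) (.e (nat_lit 409609) (nat_lit 10) .nil))) (.g (nat_lit 0) (.e (nat_lit 386476) (nat_lit 0) .nil) .nil)))))) (.nd (nat_lit 7) (.nd (nat_lit 8) (.nd (nat_lit 9) 
(.lf (nat_lit 583794) (.g (nat_lit 2747) (.e (nat_lit 360473) (nat_lit 8) (.e (nat_lit 557094) (nat_lit 12) (.e (nat_lit 163847) (nat_lit 0) (.e (nat_lit 6421) (nat_lit 341) (.e (nat_lit 163900) (nat_lit 12) (.e (nat_lit 426140) (nat_lit 3) (.e (nat_lit 204868) (nat_lit 29) .nil))))))) (.g (nat_lit 1) (.e (nat_lit 384609) (nat_lit 0) .nil) .nil))) 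
(.lf (nat_lit 584306) (.g (nat_lit 352) (.e (nat_lit 376835) (nat_lit 0) (.e (nat_lit 3253) (nat_lit 197) (.e (nat_lit 532513) (nat_lit 3) .nil))) (.g (nat_lit 0) (.e (nat_lit 385744) (nat_lit 0) .nil) .nil)))) (.nd (nat_lit 9) 
(.lf (nat_lit 584050) (.g (nat_lit 3018) (.e (nat_lit 368676) (nat_lit 21) (.e (nat_lit 516098) (nat_lit 0) (.e (nat_lit 7591) (nat_lit 407) (.e (nat_lit 73755) (nat_lit 8) (.e (nat_lit 557086) (nat_lit 11) (.e (nat_lit 24646) (nat_lit 11) .nil)))))) (.g (nat_lit 1) (.e (nat_lit 385317) (nat_lit 0) .nil) .nil))) 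
(.lf (nat_lit 584562) (.g (nat_lit 2146) (.e (nat_lit 376860) (nat_lit 21) (.e (nat_lit 57930) (nat_lit 282) (.e (nat_lit 163896) (nat_lit 10) (.e (nat_lit 409617) (nat_lit 10) (.e (nat_lit 5768) (nat_lit 316) (.e (nat_lit 179968) (nat_lit 32) .nil)))))) (.g (nat_lit 1) (.e (nat_lit 386349) (nat_lit 0) .nil) .nil))))) (.nd (nat_lit 8) (.nd (nat_lit 9) 
(.lf (nat_lit 583922) (.g (nat_lit 275) (.e (nat_lit 360475) (nat_lit 8) (.e (nat_lit 557089) (nat_lit 12) (.e (nat_lit 163844) (nat_lit 0) .nil))) (.g (nat_lit 0) (.e (nat_lit 384805) (nat_lit 0) .nil) .nil))) 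
(.lf (nat_lit 584434) (.g (nat_lit 1085) (.e (nat_lit 376855) (nat_lit 20) (.e (nat_lit 1856) (nat_lit 124) (.e (nat_lit 557070) (nat_lit 9) (.e (nat_lit 2744) (nat_lit 174) .nil)))) (.g (nat_lit 0) (.e (nat_lit 386139) (nat_lit 0) .nil) .nil)))) (.nd (nat_lit 9) 
(.lf (nat_lit 584178) (.g (nat_lit 2289) (.e (nat_lit 368676) (nat_lit 21) (.e (nat_lit 516139) (nat_lit 7) (.e (nat_lit 409647) (nat_lit 18) (.e (nat_lit 303119) (nat_lit 3) (.e (nat_lit 204861) (nat_lit 26) .nil))))) (.g (nat_lit 0) (.e (nat_lit 385487) (nat_lit 0) .nil) .nil))) 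
(.lf (nat_lit 584690) (.g (nat_lit 187) (.e (nat_lit 392960) (nat_lit 10) (.e (nat_lit 24650) (nat_lit 12) (.e (nat_lit 385066) (nat_lit 26) .nil))) (.g (nat_lit 0) (.e (nat_lit 386648) (nat_lit 0) .nil) .nil))))))))) (.nd (nat_lit 4) (.nd (nat_lit 5) (.nd (nat_lit 6) (.nd (nat_lit 7) (.nd (nat_lit 8) (.nd (nat_lit 9) 
(.lf (nat_lit 583690) (.g (nat_lit 2355) (.e (nat_lit 360473) (nat_lit 8) (.e (nat_lit 557087) (nat_lit 11) (.e (nat_lit 24579) (nat_lit 0) (.e (nat_lit 6619) (nat_lit 357) (.e (nat_lit 2685) (nat_lit 168) (.e (nat_lit 204868) (nat_lit 29) .nil)))))) (.g (nat_lit 1) (.e (nat_lit 384442) (nat_lit 0) .nil) .nil))) 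
(.lf (nat_lit 584202) (.g (nat_lit 3139) (.e (nat_lit 368676) (nat_lit 21) (.e (nat_lit 516165) (nat_lit 12) (.e (nat_lit 450586) (nat_lit 10) (.e (nat_lit 573475) (nat_lit 12) (.e (nat_lit 57348) (nat_lit 0) (.e (nat_lit 7261) (nat_lit 384) (.e (nat_lit 57431) (nat_lit 16) .nil))))))) (.g (nat_lit 1) (.e (nat_lit 385512) (nat_lit 0) .nil) .nil)))) (.nd (nat_lit 9) 
(.lf (nat_lit 583946) (.g (nat_lit 2226) (.e (nat_lit 360475) (nat_lit 8) (.e (nat_lit 557090) (nat_lit 12) (.e (nat_lit 164020) (nat_lit 45) (.e (nat_lit 696344) (nat_lit 8) (.e (nat_lit 172033) (nat_lit 0) (.e (nat_lit 7936) (nat_lit 198) (.e (nat_lit 540706) (nat_lit 12) .nil))))))) (.g (nat_lit 1) (.e (nat_lit 384839) (nat_lit 0) .nil) .nil))) 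
(.lf (nat_lit 584458) (.g (nat_lit 3338) (.e (nat_lit 376857) (nat_lit 21) (.e (nat_lit 57847) (nat_lit 252) (.e (nat_lit 57390) (nat_lit 5) (.e (nat_lit 114698) (nat_lit 11) (.e (nat_lit 426200) (nat_lit 9) (.e (nat_lit 426555) (nat_lit 32) .nil)))))) (.g (nat_lit 1) (.e (nat_lit 386185) (nat_lit 0) .nil) .nil))))) (.nd (nat_lit 8) (.nd (nat_lit 9) 
(.lf (nat_lit 583818) (.g (nat_lit 318) (.e (nat_lit 360474) (nat_lit 8) (.e (nat_lit 557072) (nat_lit 9) (.e (nat_lit 290) (nat_lit 21) .nil))) (.g (nat_lit 0) (.e (nat_lit 384665) (nat_lit 0) .nil) .nil))) 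
(.lf (nat_lit 584330) (.g (nat_lit 1324) (.e (nat_lit 384768) (nat_lit 0) (.e (nat_lit 3302) (nat_lit 202) (.e (nat_lit 573485) (nat_lit 13) (.e (nat_lit 65628) (nat_lit 14) (.e (nat_lit 401428) (nat_lit 3) .nil))))) (.g (nat_lit 0) (.e (nat_lit 385849) (nat_lit 0) .nil) .nil)))) (.nd (nat_lit 9) 
(.lf (nat_lit 584074) (.g (nat_lit 1303) (.e (nat_lit 368676) (nat_lit 21) (.e (nat_lit 516129) (nat_lit 3) (.e (nat_lit 221214) (nat_lit 23) (.e (nat_lit 204830) (nat_lit 18) .nil)))) (.g (nat_lit 0) (.e (nat_lit 385367) (nat_lit 0) .nil) .nil))) 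
(.lf (nat_lit 584586) (.g (nat_lit 597) (.e (nat_lit 376865) (nat_lit 22) (.e (nat_lit 90160) (nat_lit 11) (.e (nat_lit 24580) (nat_lit 0) .nil))) (.g (nat_lit 0) (.e (nat_lit 386412) (nat_lit 0) .nil) .nil)))))) (.nd (nat_lit 7) (.nd (nat_lit 8) (.nd (nat_lit 9) 
(.lf (nat_lit 583754) (.g (nat_lit 3109) (.e (nat_lit 360473) (nat_lit 8) (.e (nat_lit 557091) (nat_lit 12) (.e (nat_lit 163847) (nat_lit 0) (.e (nat_lit 6420) (nat_lit 341) (.e (nat_lit 163900) (nat_lit 12) (.e (nat_lit 426140) (nat_lit 3) (.e (nat_lit 204868) (nat_lit 29) .nil))))))) (.g (nat_lit 1) (.e (nat_lit 384530) (nat_lit 0) .nil) .nil))) 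
(.lf (nat_lit 584266) (.g (nat_lit 6123) (.e (nat_lit 368676) (nat_lit 21) (.e (nat_lit 516166) (nat_lit 12) (.e (nat_lit 450588) (nat_lit 10) (.e (nat_lit 573477) (nat_lit 12) .nil)))) (.g (nat_lit 0) (.e (nat_lit 385576) (nat_lit 0) .nil) .nil)))) (.nd (nat_lit 9) 
(.lf (nat_lit 584010) (.g (nat_lit 2000) (.e (nat_lit 360493) (nat_lit 27) (.e (nat_lit 819204) (nat_lit 0) (.e (nat_lit 3027) (nat_lit 187) (.e (nat_lit 450584) (nat_lit 9) (.e (nat_lit 565252) (nat_lit 0) (.e (nat_lit 1598) (nat_lit 111) .nil)))))) (.g (nat_lit 1) (.e (nat_lit 384951) (nat_lit 0) .nil) .nil))) 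
(.lf (nat_lit 584522) (.g (nat_lit 3123) (.e (nat_lit 376859) (nat_lit 21) (.e (nat_lit 57849) (nat_lit 252) (.e (nat_lit 57390) (nat_lit 5) (.e (nat_lit 114697) (nat_lit 11) (.e (nat_lit 426190) (nat_lit 9) (.e (nat_lit 426555) (nat_lit 32) .nil)))))) (.g (nat_lit 1) (.e (nat_lit 386279) (nat_lit 0) .nil) .nil))))) (.nd (nat_lit 8) (.nd (nat_lit 9) 
(.lf (nat_lit 583882) (.g (nat_lit 2316) (.e (nat_lit 360474) (nat_lit 8) (.e (nat_lit 557094) (nat_lit 12) (.e (nat_lit 164022) (nat_lit 46) (.e (nat_lit 704629) (nat_lit 9) (.e (nat_lit 452) (nat_lit 33) (.e (nat_lit 434219) (nat_lit 19) (.e (nat_lit 499978) (nat_lit 14) (.e (nat_lit 1587) (nat_lit 111) .nil)))))))) (.g (nat_lit 1) (.e (nat_lit 384748) (nat_lit 0) .nil) .nil))) 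
(.lf (nat_lit 584394) (.g (nat_lit 3492) (.e (nat_lit 376842) (nat_lit 11) (.e (nat_lit 426500) (nat_lit 27) (.e (nat_lit 335988) (nat_lit 1) (.e (nat_lit 57931) (nat_lit 282) (.e (nat_lit 163874) (nat_lit 3) (.e (nat_lit 204877) (nat_lit 31) .nil)))))) (.g (nat_lit 1) (.e (nat_lit 386075) (nat_lit 0) .nil) .nil)))) (.nd (nat_lit 9) 
(.lf (nat_lit 584138) (.g (nat_lit 3133) (.e (nat_lit 368676) (nat_lit 21) (.e (nat_lit 516131) (nat_lit 3) (.e (nat_lit 221215) (nat_lit 23) (.e (nat_lit 204828) (nat_lit 18) (.e (nat_lit 57926) (nat_lit 282) (.e (nat_lit 163875) (nat_lit 3) (.e (nat_lit 204873) (nat_lit 30) .nil))))))) (.g (nat_lit 1) (.e (nat_lit 385445) (nat_lit 0) .nil) .nil))) 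
(.lf (nat_lit 584650) (.g (nat_lit 3090) (.e (nat_lit 376869) (nat_lit 23) (.e (nat_lit 98313) (nat_lit 9) (.e (nat_lit 335996) (nat_lit 1) (.e (nat_lit 57931) (nat_lit 282) (.e (nat_lit 163902) (nat_lit 12) (.e (nat_lit 426555) (nat_lit 32) .nil)))))) (.g (nat_lit 1) (.e (nat_lit 386512) (nat_lit 0) .nil) .nil))))))) (.nd (nat_lit 6) (.nd (nat_lit 7) (.nd (nat_lit 8) (.nd (nat_lit 9) 
(.lf (nat_lit 583722) (.g (nat_lit 1977) (.e (nat_lit 360473) (nat_lit 8) (.e (nat_lit 557089) (nat_lit 12) (.e (nat_lit 163850) (nat_lit 0) (.e (nat_lit 6425) (nat_lit 342) (.e (nat_lit 229399) (nat_lit 12) .nil))))) (.g (nat_lit 0) (.e (nat_lit 384490) (nat_lit 0) .nil) .nil))) 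
(.lf (nat_lit 584234) (.g (nat_lit 3818) (.e (nat_lit 368676) (nat_lit 21) (.e (nat_lit 516165) (nat_lit 12) (.e (nat_lit 450588) (nat_lit 10) (.e (nat_lit 573475) (nat_lit 12) (.e (nat_lit 57351) (nat_lit 0) (.e (nat_lit 7265) (nat_lit 384) (.e (nat_lit 57430) (nat_lit 16) .nil))))))) (.g (nat_lit 1) (.e (nat_lit 385544) (nat_lit 0) .nil) .nil)))) (.nd (nat_lit 9) 
(.lf (nat_lit 583978) (.g (nat_lit 721) (.e (nat_lit 360493) (nat_lit 27) (.e (nat_lit 819203) (nat_lit 0) (.e (nat_lit 3022) (nat_lit 187) (.e (nat_lit 450577) (nat_lit 4) (.e (nat_lit 532224) (nat_lit 29) .nil))))) (.g (nat_lit 1) (.e (nat_lit 384911) (nat_lit 0) .nil) .nil))) 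
(.lf (nat_lit 584490) (.g (nat_lit 1280) (.e (nat_lit 376858) (nat_lit 21) (.e (nat_lit 57847) (nat_lit 252) (.e (nat_lit 57388) (nat_lit 5) (.e (nat_lit 114698) (nat_lit 11) .nil)))) (.g (nat_lit 0) (.e (nat_lit 386234) (nat_lit 0) .nil) .nil))))) (.nd (nat_lit 8) (.nd (nat_lit 9) 
(.lf (nat_lit 583850) (.g (nat_lit 3022) (.e (nat_lit 360474) (nat_lit 8) (.e (nat_lit 557093) (nat_lit 12) (.e (nat_lit 164022) (nat_lit 46) (.e (nat_lit 704737) (nat_lit 11) (.e (nat_lit 16394) (nat_lit 0) (.e (nat_lit 3262) (nat_lit 198) (.e (nat_lit 540706) (nat_lit 12) .nil))))))) (.g (nat_lit 1) (.e (nat_lit 384715) (nat_lit 0) .nil) .nil))) 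
(.lf (nat_lit 584362) (.g (nat_lit 1767) (.e (nat_lit 376838) (nat_lit 11) (.e (nat_lit 426108) (nat_lit 1) (.e (nat_lit 164182) (nat_lit 154) (.e (nat_lit 57411) (nat_lit 12) .nil)))) (.g (nat_lit 0) (.e (nat_lit 386037) (nat_lit 0) .nil) .nil)))) (.nd (nat_lit 9) 
(.lf (nat_lit 584106) (.g (nat_lit 2722) (.e (nat_lit 368676) (nat_lit 21) (.e (nat_lit 516131) (nat_lit 3) (.e (nat_lit 221213) (nat_lit 23) (.e (nat_lit 204829) (nat_lit 18) (.e (nat_lit 57926) (nat_lit 282) (.e (nat_lit 163875) (nat_lit 3) (.e (nat_lit 204873) (nat_lit 30) .nil))))))) (.g (nat_lit 1) (.e (nat_lit 385408) (nat_lit 0) .nil) .nil))) 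
(.lf (nat_lit 584618) (.g (nat_lit 3365) (.e (nat_lit 376867) (nat_lit 23) (.e (nat_lit 98350) (nat_lit 24) (.e (nat_lit 409645) (nat_lit 18) (.e (nat_lit 303112) (nat_lit 0) (.e (nat_lit 3252) (nat_lit 197) (.e (nat_lit 532558) (nat_lit 14) .nil)))))) (.g (nat_lit 1) (.e (nat_lit 386466) (nat_lit 0) .nil) .nil)))))) (.nd (nat_lit 7) (.nd (nat_lit 8) (.nd (nat_lit 9) 
(.lf (nat_lit 583786) (.g (nat_lit 1887) (.e (nat_lit 360473) (nat_lit 8) (.e (nat_lit 557093) (nat_lit 12) (.e (nat_lit 164023) (nat_lit 46) (.e (nat_lit 704629) (nat_lit 9) (.e (nat_lit 433) (nat_lit 32) .nil))))) (.g (nat_lit 0) (.e (nat_lit 384596) (nat_lit 0) .nil) .nil))) 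
(.lf (nat_lit 584298) (.g (nat_lit 1757) (.e (nat_lit 368698) (nat_lit 43) (.e (nat_lit 770072) (nat_lit 8) (.e (nat_lit 65619) (nat_lit 10) (.e (nat_lit 344090) (nat_lit 18) (.e (nat_lit 7265) (nat_lit 384) (.e (nat_lit 57409) (nat_lit 12) (.e (nat_lit 336182) (nat_lit 11) .nil))))))) (.g (nat_lit 1) (.e (nat_lit 385665) (nat_lit 0) .nil) .nil)))) (.nd (nat_lit 9) 
(.lf (nat_lit 584042) (.g (nat_lit 1601) (.e (nat_lit 368675) (nat_lit 21) (.e (nat_lit 516138) (nat_lit 7) (.e (nat_lit 409644) (nat_lit 18) (.e (nat_lit 303119) (nat_lit 3) .nil)))) (.g (nat_lit 0) (.e (nat_lit 385294) (nat_lit 0) .nil) .nil))) 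
(.lf (nat_lit 584554) (.g (nat_lit 1026) (.e (nat_lit 376860) (nat_lit 21) (.e (nat_lit 57870) (nat_lit 264) (.e (nat_lit 1209) (nat_lit 89) (.e (nat_lit 81664) (nat_lit 32) .nil)))) (.g (nat_lit 0) (.e (nat_lit 386341) (nat_lit 0) .nil) .nil))))) (.nd (nat_lit 8) (.nd (nat_lit 9) 
(.lf (nat_lit 583914) (.g (nat_lit 2094) (.e (nat_lit 360475) (nat_lit 8) (.e (nat_lit 557087) (nat_lit 11) (.e (nat_lit 24580) (nat_lit 0) (.e (nat_lit 6687) (nat_lit 357) .nil)))) (.g (nat_lit 0) (.e (nat_lit 384796) (nat_lit 0) .nil) .nil))) 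
(.lf (nat_lit 584426) (.g (nat_lit 1941) (.e (nat_lit 376855) (nat_lit 20) (.e (nat_lit 1800) (nat_lit 119) (.e (nat_lit 516139) (nat_lit 7) (.e (nat_lit 409648) (nat_lit 18) (.e (nat_lit 303108) (nat_lit 0) (.e (nat_lit 3252) (nat_lit 197) (.e (nat_lit 532560) (nat_lit 14) .nil))))))) (.g (nat_lit 1) (.e (nat_lit 386123) (nat_lit 0) .nil) .nil)))) (.nd (nat_lit 9) 
(.lf (nat_lit 584170) (.g (nat_lit 3657) (.e (nat_lit 368676) (nat_lit 21) (.e (nat_lit 516138) (nat_lit 7) (.e (nat_lit 409646) (nat_lit 18) (.e (nat_lit 303119) (nat_lit 3) (.e (nat_lit 204861) (nat_lit 26) (.e (nat_lit 336184) (nat_lit 11) .nil)))))) (.g (nat_lit 1) (.e (nat_lit 385478) (nat_lit 0) .nil) .nil))) 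
(.lf (nat_lit 584682) (.g (nat_lit 1395) (.e (nat_lit 392960) (nat_lit 8) (.e (nat_lit 3062) (nat_lit 190) (.e (nat_lit 475179) (nat_lit 24) (.e (nat_lit 516120) (nat_lit 1) (.e (nat_lit 164332) (nat_lit 230) .nil))))) (.g (nat_lit 0) (.e (nat_lit 386632) (nat_lit 0) .nil) .nil)))))))) (.nd (nat_lit 5) (.nd (nat_lit 6) (.nd (nat_lit 7) (.nd (nat_lit 8) (.nd (nat_lit 9) 
(.lf (nat_lit 583706) (.g (nat_lit 3849) (.e (nat_lit 360473) (nat_lit 8) (.e (nat_lit 557087) (nat_lit 11) (.e (nat_lit 24663) (nat_lit 14) (.e (nat_lit 401414) (nat_lit 0) (.e (nat_lit 3238) (nat_lit 197) (.e (nat_lit 532549) (nat_lit 12) .nil)))))) (.g (nat_lit 1) (.e (nat_lit 384463) (nat_lit 0) .nil) .nil))) 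
(.lf (nat_lit 584218) (.g (nat_lit 3844) (.e (nat_lit 368676) (nat_lit 21) (.e (nat_lit 516165) (nat_lit 12) (.e (nat_lit 450588) (nat_lit 10) (.e (nat_lit 573473) (nat_lit 12) (.e (nat_lit 57352) (nat_lit 0) (.e (nat_lit 7261) (nat_lit 384) (.e (nat_lit 57431) (nat_lit 16) .nil))))))) (.g (nat_lit 1) (.e (nat_lit 385528) (nat_lit 0) .nil) .nil)))) (.nd (nat_lit 9) 
(.lf (nat_lit 583962) (.g (nat_lit 3223) (.e (nat_lit 360475) (nat_lit 8) (.e (nat_lit 557091) (nat_lit 12) (.e (nat_lit 164022) (nat_lit 46) (.e (nat_lit 704738) (nat_lit 11) (.e (nat_lit 16402) (nat_lit 0) (.e (nat_lit 7936) (nat_lit 197) (.e (nat_lit 532550) (nat_lit 12) .nil))))))) (.g (nat_lit 1) (.e (nat_lit 384858) (nat_lit 0) .nil) .nil))) 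
(.lf (nat_lit 584474) (.g (nat_lit 682) (.e (nat_lit 376857) (nat_lit 21) (.e (nat_lit 57852) (nat_lit 252) (.e (nat_lit 57350) (nat_lit 0) .nil))) (.g (nat_lit 0) (.e (nat_lit 386204) (nat_lit 0) .nil) .nil))))) (.nd (nat_lit 8) (.nd (nat_lit 9) 
(.lf (nat_lit 583834) (.g (nat_lit 3410) (.e (nat_lit 360474) (nat_lit 8) (.e (nat_lit 557093) (nat_lit 12) (.e (nat_lit 164022) (nat_lit 46) (.e (nat_lit 704629) (nat_lit 9) (.e (nat_lit 411) (nat_lit 32) (.e (nat_lit 426032) (nat_lit 0) (.e (nat_lit 3262) (nat_lit 198) (.e (nat_lit 540706) (nat_lit 12) .nil)))))))) (.g (nat_lit 1) (.e (nat_lit 384698) (nat_lit 0) .nil) .nil))) 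
(.lf (nat_lit 584346) (.g (nat_lit 2145) (.e (nat_lit 384768) (nat_lit 5) (.e (nat_lit 221207) (nat_lit 21) (.e (nat_lit 164325) (nat_lit 230) (.e (nat_lit 163907) (nat_lit 12) (.e (nat_lit 426227) (nat_lit 9) .nil))))) (.g (nat_lit 0) (.e (nat_lit 385997) (nat_lit 0) .nil) .nil)))) (.nd (nat_lit 9) 
(.lf (nat_lit 584090) (.g (nat_lit 2274) (.e (nat_lit 368676) (nat_lit 21) (.e (nat_lit 516129) (nat_lit 3) (.e (nat_lit 221215) (nat_lit 23) (.e (nat_lit 204829) (nat_lit 18) (.e (nat_lit 57927) (nat_lit 282) (.e (nat_lit 163874) (nat_lit 3) (.e (nat_lit 204872) (nat_lit 30) .nil))))))) (.g (nat_lit 1) (.e (nat_lit 385383) (nat_lit 0) .nil) .nil))) 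
(.lf (nat_lit 584602) (.g (nat_lit 2480) (.e (nat_lit 376867) (nat_lit 23) (.e (nat_lit 98313) (nat_lit 9) (.e (nat_lit 335987) (nat_lit 1) (.e (nat_lit 57927) (nat_lit 282) (.e (nat_lit 163907) (nat_lit 12) (.e (nat_lit 426555) (nat_lit 32) .nil)))))) (.g (nat_lit 1) (.e (nat_lit 386441) (nat_lit 0) .nil) .nil)))))) (.nd (nat_lit 7) (.nd (nat_lit 8) (.nd (nat_lit 9) 
(.lf (nat_lit 583770) (.g (nat_lit 3208) (.e (nat_lit 360473) (nat_lit 8) (.e (nat_lit 557091) (nat_lit 12) (.e (nat_lit 164022) (nat_lit 46) (.e (nat_lit 704629) (nat_lit 9) (.e (nat_lit 442) (nat_lit 33) (.e (nat_lit 434235) (nat_lit 24) (.e (nat_lit 540704) (nat_lit 12) .nil))))))) (.g (nat_lit 1) (.e (nat_lit 384569) (nat_lit 0) .nil) .nil))) 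
(.lf (nat_lit 584282) (.g (nat_lit 1548) (.e (nat_lit 368677) (nat_lit 21) (.e (nat_lit 516139) (nat_lit 7) (.e (nat_lit 409649) (nat_lit 18) (.e (nat_lit 303111) (nat_lit 0) .nil)))) (.g (nat_lit 0) (.e (nat_lit 385622) (nat_lit 0) .nil) .nil)))) (.nd (nat_lit 9) 
(.lf (nat_lit 584026) (.g (nat_lit 1677) (.e (nat_lit 376576) (nat_lit 5) (.e (nat_lit 180228) (nat_lit 0) (.e (nat_lit 6426) (nat_lit 342) (.e (nat_lit 229412) (nat_lit 14) (.e (nat_lit 450304) (nat_lit 15) .nil))))) (.g (nat_lit 0) (.e (nat_lit 385119) (nat_lit 0) .nil) .nil))) 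
(.lf (nat_lit 584538) (.g (nat_lit 785) (.e (nat_lit 376860) (nat_lit 21) (.e (nat_lit 57844) (nat_lit 252) (.e (nat_lit 57388) (nat_lit 5) (.e (nat_lit 114696) (nat_lit 11) .nil)))) (.g (nat_lit 0) (.e (nat_lit 386306) (nat_lit 0) .nil) .nil))))) (.nd (nat_lit 8) (.nd (nat_lit 9) 
(.lf (nat_lit 583898) (.g (nat_lit 2683) (.e (nat_lit 360474) (nat_lit 8) (.e (nat_lit 557094) (nat_lit 12) (.e (nat_lit 164022) (nat_lit 46) (.e (nat_lit 704738) (nat_lit 11) (.e (nat_lit 16385) (nat_lit 0) (.e (nat_lit 3260) (nat_lit 198) (.e (nat_lit 540706) (nat_lit 12) .nil))))))) (.g (nat_lit 1) (.e (nat_lit 384766) (nat_lit 0) .nil) .nil))) 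
(.lf (nat_lit 584410) (.g (nat_lit 1637) (.e (nat_lit 376843) (nat_lit 20) (.e (nat_lit 1842) (nat_lit 123) (.e (nat_lit 548889) (nat_lit 9) (.e (nat_lit 65630) (nat_lit 14) .nil)))) (.g (nat_lit 0) (.e (nat_lit 386100) (nat_lit 0) .nil) .nil)))) (.nd (nat_lit 9) 
(.lf (nat_lit 584154) (.g (nat_lit 4055) (.e (nat_lit 368676) (nat_lit 21) (.e (nat_lit 516131) (nat_lit 3) (.e (nat_lit 221215) (nat_lit 23) (.e (nat_lit 204830) (nat_lit 18) (.e (nat_lit 57926) (nat_lit 282) (.e (nat_lit 163874) (nat_lit 3) (.e (nat_lit 204873) (nat_lit 30) .nil))))))) (.g (nat_lit 1) (.e (nat_lit 385461) (nat_lit 0) .nil) .nil))) 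
(.lf (nat_lit 584666) (.g (nat_lit 687) (.e (nat_lit 376869) (nat_lit 23) (.e (nat_lit 98350) (nat_lit 24) (.e (nat_lit 409650) (nat_lit 19) .nil))) (.g (nat_lit 0) (.e (nat_lit 386546) (nat_lit 0) .nil) .nil))))))) (.nd (nat_lit 6) (.nd (nat_lit 7) (.nd (nat_lit 8) (.nd (nat_lit 9) 
(.lf (nat_lit 583738) (.g (nat_lit 3272) (.e (nat_lit 360473) (nat_lit 8) (.e (nat_lit 557089) (nat_lit 12) (.e (nat_lit 164020) (nat_lit 45) (.e (nat_lit 696329) (nat_lit 5) (.e (nat_lit 2884) (nat_lit 184) (.e (nat_lit 426140) (nat_lit 3) (.e (nat_lit 204868) (nat_lit 29) .nil))))))) (.g (nat_lit 1) (.e (nat_lit 384511) (nat_lit 0) .nil) .nil))) 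
(.lf (nat_lit 584250) (.g (nat_lit 5081) (.e (nat_lit 368676) (nat_lit 21) (.e (nat_lit 516166) (nat_lit 12) (.e (nat_lit 450588) (nat_lit 10) (.e (nat_lit 573473) (nat_lit 12) (.e (nat_lit 57347) (nat_lit 0) (.e (nat_lit 7261) (nat_lit 384) (.e (nat_lit 57431) (nat_lit 16) .nil))))))) (.g (nat_lit 1) (.e (nat_lit 385560) (nat_lit 0) .nil) .nil)))) (.nd (nat_lit 9) 
(.lf (nat_lit 583994) (.g (nat_lit 1386) (.e (nat_lit 360493) (nat_lit 27) (.e (nat_lit 819204) (nat_lit 0) (.e (nat_lit 3021) (nat_lit 187) (.e (nat_lit 450584) (nat_lit 9) (.e (nat_lit 565252) (nat_lit 0) (.e (nat_lit 1592) (nat_lit 111) .nil)))))) (.g (nat_lit 1) (.e (nat_lit 384934) (nat_lit 0) .nil) .nil))) 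
(.lf (nat_lit 584506) (.g (nat_lit 430) (.e (nat_lit 376859) (nat_lit 21) (.e (nat_lit 57846) (nat_lit 252) (.e (nat_lit 57390) (nat_lit 5) .nil))) (.g (nat_lit 0) (.e (nat_lit 386259) (nat_lit 0) .nil) .nil))))) (.nd (nat_lit 8) (.nd (nat_lit 9) 
(.lf (nat_lit 583866) (.g (nat_lit 3169) (.e (nat_lit 360474) (nat_lit 8) (.e (nat_lit 557093) (nat_lit 12) (.e (nat_lit 164023) (nat_lit 46) (.e (nat_lit 704737) (nat_lit 11) (.e (nat_lit 16388) (nat_lit 0) (.e (nat_lit 3257) (nat_lit 198) (.e (nat_lit 540706) (nat_lit 12) .nil))))))) (.g (nat_lit 1) (.e (nat_lit 384731) (nat_lit 0) .nil) .nil))) 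
(.lf (nat_lit 584378) (.g (nat_lit 1309) (.e (nat_lit 376842) (nat_lit 11) (.e (nat_lit 426108) (nat_lit 1) (.e (nat_lit 164182) (nat_lit 154) (.e (nat_lit 57410) (nat_lit 12) .nil)))) (.g (nat_lit 0) (.e (nat_lit 386059) (nat_lit 0) .nil) .nil)))) (.nd (nat_lit 9) 
(.lf (nat_lit 584122) (.g (nat_lit 3689) (.e (nat_lit 368676) (nat_lit 21) (.e (nat_lit 516131) (nat_lit 3) (.e (nat_lit 221214) (nat_lit 23) (.e (nat_lit 204829) (nat_lit 18) (.e (nat_lit 57931) (nat_lit 282) (.e (nat_lit 163874) (nat_lit 3) (.e (nat_lit 204873) (nat_lit 30) .nil))))))) (.g (nat_lit 1) (.e (nat_lit 385424) (nat_lit 0) .nil) .nil))) 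
(.lf (nat_lit 584634) (.g (nat_lit 1367) (.e (nat_lit 376868) (nat_lit 23) (.e (nat_lit 98350) (nat_lit 24) (.e (nat_lit 409648) (nat_lit 18) (.e (nat_lit 303107) (nat_lit 0) .nil)))) (.g (nat_lit 0) (.e (nat_lit 386489) (nat_lit 0) .nil) .nil)))))) (.nd (nat_lit 7) (.nd (nat_lit 8) (.nd (nat_lit 9) 
(.lf (nat_lit 583802) (.g (nat_lit 2814) (.e (nat_lit 360473) (nat_lit 8) (.e (nat_lit 557094) (nat_lit 12) (.e (nat_lit 164018) (nat_lit 45) (.e (nat_lit 696329) (nat_lit 5) (.e (nat_lit 2980) (nat_lit 185) (.e (nat_lit 434231) (nat_lit 23) (.e (nat_lit 532549) (nat_lit 12) .nil))))))) (.g (nat_lit 1) (.e (nat_lit 384631) (nat_lit 0) .nil) .nil))) 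
(.lf (nat_lit 584314) (.g (nat_lit 3409) (.e (nat_lit 376835) (nat_lit 0) (.e (nat_lit 3305) (nat_lit 202) (.e (nat_lit 573482) (nat_lit 13) (.e (nat_lit 65630) (nat_lit 14) (.e (nat_lit 401428) (nat_lit 3) (.e (nat_lit 204877) (nat_lit 31) .nil)))))) (.g (nat_lit 1) (.e (nat_lit 385775) (nat_lit 0) .nil) .nil)))) (.nd (nat_lit 9) 
(.lf (nat_lit 584058) (.g (nat_lit 2659) (.e (nat_lit 368676) (nat_lit 21) (.e (nat_lit 516117) (nat_lit 1) (.e (nat_lit 164182) (nat_lit 154) (.e (nat_lit 57409) (nat_lit 12) (.e (nat_lit 336454) (nat_lit 34) .nil))))) (.g (nat_lit 0) (.e (nat_lit 385339) (nat_lit 0) .nil) .nil))) 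
(.lf (nat_lit 584570) (.g (nat_lit 2276) (.e (nat_lit 376860) (nat_lit 21) (.e (nat_lit 57931) (nat_lit 282) (.e (nat_lit 163896) (nat_lit 10) (.e (nat_lit 409648) (nat_lit 18) (.e (nat_lit 303129) (nat_lit 9) (.e (nat_lit 433920) (nat_lit 32) .nil)))))) (.g (nat_lit 1) (.e (nat_lit 386368) (nat_lit 0) .nil) .nil))))) (.nd (nat_lit 8) (.nd (nat_lit 9) 
(.lf (nat_lit 583930) (.g (nat_lit 3614) (.e (nat_lit 360475) (nat_lit 8) (.e (nat_lit 557090) (nat_lit 12) (.e (nat_lit 163844) (nat_lit 0) (.e (nat_lit 6420) (nat_lit 341) (.e (nat_lit 163908) (nat_lit 12) (.e (nat_lit 426003) (nat_lit 0) (.e (nat_lit 3262) (nat_lit 198) (.e (nat_lit 540706) (nat_lit 12) .nil)))))))) (.g (nat_lit 1) (.e (nat_lit 384815) (nat_lit 0) .nil) .nil))) 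
(.lf (nat_lit 584442) (.g (nat_lit 1641) (.e (nat_lit 376856) (nat_lit 21) (.e (nat_lit 57849) (nat_lit 252) (.e (nat_lit 57388) (nat_lit 5) (.e (nat_lit 114698) (nat_lit 11) .nil)))) (.g (nat_lit 0) (.e (nat_lit 386154) (nat_lit 0) .nil) .nil)))) (.nd (nat_lit 9) 
(.lf (nat_lit 584186) (.g (nat_lit 4866) (.e (nat_lit 368676) (nat_lit 21) (.e (nat_lit 516146) (nat_lit 9) (.e (nat_lit 426422) (nat_lit 16) (.e (nat_lit 57692) (nat_lit 156) (.e (nat_lit 163875) (nat_lit 3) (.e (nat_lit 204829) (nat_lit 18) (.e (nat_lit 57847) (nat_lit 252) (.e (nat_lit 57432) (nat_lit 16) .nil)))))))) (.g (nat_lit 1) (.e (nat_lit 385496) (nat_lit 0) .nil) .nil))) 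
(.lf (nat_lit 584698) (.g (nat_lit 1797) (.e (nat_lit 385064) (nat_lit 26) (.e (nat_lit 532504) (nat_lit 1) (.e (nat_lit 57852) (nat_lit 252) (.e (nat_lit 57406) (nat_lit 12) (.e (nat_lit 336454) (nat_lit 34) .nil))))) (.g (nat_lit 0) (.e (nat_lit 386693) (nat_lit 0) .nil) .nil)))))))))) 
(.nd (nat_lit 3) (.nd (nat_lit 4) (.nd (nat_lit 5) (.nd (nat_lit 6) (.nd (nat_lit 7) 
(.nd (nat_lit 8) (.nd (nat_lit 9) 
(.lf (nat_lit 583686) (.g (nat_lit 2847) (.e (nat_lit 360473) (nat_lit 8) (.e (nat_lit 557073) (nat_lit 9) (.e (nat_lit 214) (nat_lit 19) (.e (nat_lit 319492) (nat_lit 0) (.e (nat_lit 5626) (nat_lit 312) (.e (nat_lit 2685) (nat_lit 168) (.e (nat_lit 204868) (nat_lit 29) .nil))))))) (.g (nat_lit 1) (.e (nat_lit 384424) (nat_lit 0) .nil) .nil))) 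
(.lf (nat_lit 584198) (.g (nat_lit 3793) (.e (nat_lit 368676) (nat_lit 21) (.e (nat_lit 516165) (nat_lit 12) (.e (nat_lit 450586) (nat_lit 10) (.e (nat_lit 573475) (nat_lit 12) (.e (nat_lit 57347) (nat_lit 0) (.e (nat_lit 7261) (nat_lit 384) (.e (nat_lit 57431) (nat_lit 16) .nil))))))) (.g (nat_lit 1) (.e (nat_lit 385508) (nat_lit 0) .nil) .nil)))) (.nd (nat_lit 9) 
(.lf (nat_lit 583942) (.g (nat_lit 2497) (.e (nat_lit 360475) (nat_lit 8) (.e (nat_lit 557090) (nat_lit 12) (.e (nat_lit 164020) (nat_lit 45) (.e (nat_lit 696330) (nat_lit 5) (.e (nat_lit 2888) (nat_lit 184) (.e (nat_lit 426032) (nat_lit 0) (.e (nat_lit 3262) (nat_lit 198) (.e (nat_lit 540706) (nat_lit 12) .nil)))))))) (.g (nat_lit 1) (.e (nat_lit 384834) (nat_lit 0) .nil) .nil))) 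
(.lf (nat_lit 584454) (.g (nat_lit 3359) (.e (nat_lit 376857) (nat_lit 21) (.e (nat_lit 57847) (nat_lit 252) (.e (nat_lit 57388) (nat_lit 5) (.e (nat_lit 114698) (nat_lit 11) (.e (nat_lit 426190) (nat_lit 9) (.e (nat_lit 426555) (nat_lit 32) .nil)))))) (.g (nat_lit 1) (.e (nat_lit 386181) (nat_lit 0) .nil) .nil))))) (.nd (nat_lit 8) (.nd (nat_lit 9) 
(.lf (nat_lit 583814) (.g (nat_lit 2209) (.e (nat_lit 360473) (nat_lit 8) (.e (nat_lit 557094) (nat_lit 12) (.e (nat_lit 164022) (nat_lit 46) (.e (nat_lit 704629) (nat_lit 9) (.e (nat_lit 386) (nat_lit 32) (.e (nat_lit 426129) (nat_lit 3) (.e (nat_lit 204868) (nat_lit 29) .nil))))))) (.g (nat_lit 1) (.e (nat_lit 384652) (nat_lit 0) .nil) .nil))) 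
(.lf (nat_lit 584326) (.g (nat_lit 1851) (.e (nat_lit 376835) (nat_lit 0) (.e (nat_lit 3632) (nat_lit 227) (.e (nat_lit 778323) (nat_lit 5) (.e (nat_lit 73782) (nat_lit 32) (.e (nat_lit 2857) (nat_lit 184) (.e (nat_lit 426556) (nat_lit 32) .nil)))))) (.g (nat_lit 1) (.e (nat_lit 385806) (nat_lit 0) .nil) .nil)))) (.nd (nat_lit 9) 
(.lf (nat_lit 584070) (.g (nat_lit 2385) (.e (nat_lit 368676) (nat_lit 21) (.e (nat_lit 516129) (nat_lit 3) (.e (nat_lit 221214) (nat_lit 23) (.e (nat_lit 204829) (nat_lit 18) (.e (nat_lit 57927) (nat_lit 282) (.e (nat_lit 163875) (nat_lit 3) (.e (nat_lit 204872) (nat_lit 30) .nil))))))) (.g (nat_lit 1) (.e (nat_lit 385363) (nat_lit 0) .nil) .nil))) 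
(.lf (nat_lit 584582) (.g (nat_lit 246) (.e (nat_lit 376863) (nat_lit 22) (.e (nat_lit 90133) (nat_lit 9) (.e (nat_lit 2397) (nat_lit 157) .nil))) (.g (nat_lit 0) (.e (nat_lit 386393) (nat_lit 0) .nil) .nil)))))) (.nd (nat_lit 7) (.nd (nat_lit 8) (.nd (nat_lit 9) 
(.lf (nat_lit 583750) (.g (nat_lit 2524) (.e (nat_lit 360473) (nat_lit 8) (.e (nat_lit 557091) (nat_lit 12) (.e (nat_lit 163843) (nat_lit 0) (.e (nat_lit 6421) (nat_lit 341) (.e (nat_lit 163913) (nat_lit 12) .nil))))) (.g (nat_lit 0) (.e (nat_lit 384525) (nat_lit 0) .nil) .nil))) 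
(.lf (nat_lit 584262) (.g (nat_lit 5198) (.e (nat_lit 368676) (nat_lit 21) (.e (nat_lit 516166) (nat_lit 12) (.e (nat_lit 450588) (nat_lit 10) (.e (nat_lit 573475) (nat_lit 12) (.e (nat_lit 57353) (nat_lit 0) (.e (nat_lit 7265) (nat_lit 384) (.e (nat_lit 57430) (nat_lit 16) .nil))))))) (.g (nat_lit 1) (.e (nat_lit 385572) (nat_lit 0) .nil) .nil)))) (.nd (nat_lit 9) 
(.lf (nat_lit 584006) (.g (nat_lit 1588) (.e (nat_lit 360493) (nat_lit 27) (.e (nat_lit 819204) (nat_lit 0) (.e (nat_lit 3027) (nat_lit 187) (.e (nat_lit 450584) (nat_lit 9) (.e (nat_lit 565251) (nat_lit 0) .nil))))) (.g (nat_lit 0) (.e (nat_lit 384947) (nat_lit 0) .nil) .nil))) 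
(.lf (nat_lit 584518) (.g (nat_lit 1970) (.e (nat_lit 376859) (nat_lit 21) (.e (nat_lit 57849) (nat_lit 252) (.e (nat_lit 57388) (nat_lit 5) (.e (nat_lit 114698) (nat_lit 11) (.e (nat_lit 426197) (nat_lit 9) (.e (nat_lit 426556) (nat_lit 32) .nil)))))) (.g (nat_lit 1) (.e (nat_lit 386275) (nat_lit 0) .nil) .nil))))) (.nd (nat_lit 8) (.nd (nat_lit 9) 
(.lf (nat_lit 583878) (.g (nat_lit 6326) (.e (nat_lit 360474) (nat_lit 8) (.e (nat_lit 557094) (nat_lit 12) (.e (nat_lit 164022) (nat_lit 46) (.e (nat_lit 704629) (nat_lit 9) (.e (nat_lit 442) (nat_lit 33) (.e (nat_lit 434233) (nat_lit 23) (.e (nat_lit 532550) (nat_lit 12) .nil))))))) (.g (nat_lit 1) (.e (nat_lit 384744) (nat_lit 0) .nil) .nil))) 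
(.lf (nat_lit 584390) (.g (nat_lit 2757) (.e (nat_lit 376842) (nat_lit 11) (.e (nat_lit 426500) (nat_lit 27) (.e (nat_lit 335986) (nat_lit 1) (.e (nat_lit 57931) (nat_lit 282) (.e (nat_lit 163874) (nat_lit 3) (.e (nat_lit 204876) (nat_lit 31) .nil)))))) (.g (nat_lit 1) (.e (nat_lit 386071) (nat_lit 0) .nil) .nil)))) (.nd (nat_lit 9) 
(.lf (nat_lit 584134) (.g (nat_lit 1281) (.e (nat_lit 368676) (nat_lit 21) (.e (nat_lit 516131) (nat_lit 3) (.e (nat_lit 221215) (nat_lit 23) (.e (nat_lit 204821) (nat_lit 17) .nil)))) (.g (nat_lit 0) (.e (nat_lit 385440) (nat_lit 0) .nil) .nil))) 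
(.lf (nat_lit 584646) (.g (nat_lit 2918) (.e (nat_lit 376869) (nat_lit 23) (.e (nat_lit 98313) (nat_lit 9) (.e (nat_lit 335988) (nat_lit 1) (.e (nat_lit 57927) (nat_lit 282) (.e (nat_lit 163903) (nat_lit 12) (.e (nat_lit 426555) (nat_lit 32) .nil)))))) (.g (nat_lit 1) (.e (nat_lit 386507) (nat_lit 0) .nil) .nil))))))) (.nd (nat_lit 6) (.nd (nat_lit 7) (.nd (nat_lit 8) (.nd (nat_lit 9) 
(.lf (nat_lit 583718) (.g (nat_lit 2915) (.e (nat_lit 360473) (nat_lit 8) (.e (nat_lit 557089) (nat_lit 12) (.e (nat_lit 163848) (nat_lit 0) (.e (nat_lit 6416) (nat_lit 341) (.e (nat_lit 163900) (nat_lit 12) (.e (nat_lit 426140) (nat_lit 3) (.e (nat_lit 204868) (nat_lit 29) .nil))))))) (.g (nat_lit 1) (.e (nat_lit 384480) (nat_lit 0) .nil) .nil))) 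
(.lf (nat_lit 584230) (.g (nat_lit 4279) (.e (nat_lit 368676) (nat_lit 21) (.e (nat_lit 516165) (nat_lit 12) (.e (nat_lit 450588) (nat_lit 10) (.e (nat_lit 573475) (nat_lit 12) (.e (nat_lit 57348) (nat_lit 0) (.e (nat_lit 7265) (nat_lit 384) (.e (nat_lit 57431) (nat_lit 16) .nil))))))) (.g (nat_lit 1) (.e (nat_lit 385540) (nat_lit 0) .nil) .nil)))) (.nd (nat_lit 9) 
(.lf (nat_lit 583974) (.g (nat_lit 1487) (.e (nat_lit 360493) (nat_lit 27) (.e (nat_lit 819203) (nat_lit 0) (.e (nat_lit 3016) (nat_lit 187) (.e (nat_lit 450584) (nat_lit 9) (.e (nat_lit 565252) (nat_lit 0) (.e (nat_lit 1598) (nat_lit 111) .nil)))))) (.g (nat_lit 1) (.e (nat_lit 384905) (nat_lit 0) .nil) .nil))) 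
(.lf (nat_lit 584486) (.g (nat_lit 1079) (.e (nat_lit 376857) (nat_lit 21) (.e (nat_lit 57870) (nat_lit 264) (.e (nat_lit 1209) (nat_lit 89) (.e (nat_lit 81664) (nat_lit 32) .nil)))) (.g (nat_lit 0) (.e (nat_lit 386226) (nat_lit 0) .nil) .nil))))) (.nd (nat_lit 8) (.nd (nat_lit 9) 
(.lf (nat_lit 583846) (.g (nat_lit 2687) (.e (nat_lit 360474) (nat_lit 8) (.e (nat_lit 557093) (nat_lit 12) (.e (nat_lit 164022) (nat_lit 46) (.e (nat_lit 704737) (nat_lit 11) (.e (nat_lit 16385) (nat_lit 0) (.e (nat_lit 3262) (nat_lit 198) (.e (nat_lit 540706) (nat_lit 12) .nil))))))) (.g (nat_lit 1) (.e (nat_lit 384711) (nat_lit 0) .nil) .nil))) 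
(.lf (nat_lit 584358) (.g (nat_lit 2089) (.e (nat_lit 384768) (nat_lit 5) (.e (nat_lit 221208) (nat_lit 21) (.e (nat_lit 164332) (nat_lit 230) (.e (nat_lit 163905) (nat_lit 12) (.e (nat_lit 426229) (nat_lit 9) .nil))))) (.g (nat_lit 0) (.e (nat_lit 386031) (nat_lit 0) .nil) .nil)))) (.nd (nat_lit 9) 
(.lf (nat_lit 584102) (.g (nat_lit 2529) (.e (nat_lit 368676) (nat_lit 21) (.e (nat_lit 516129) (nat_lit 3) (.e (nat_lit 221215) (nat_lit 23) (.e (nat_lit 204831) (nat_lit 18) (.e (nat_lit 57931) (nat_lit 282) (.e (nat_lit 163874) (nat_lit 3) (.e (nat_lit 204872) (nat_lit 30) .nil))))))) (.g (nat_lit 1) (.e (nat_lit 385395) (nat_lit 0) .nil) .nil))) 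
(.lf (nat_lit 584614) (.g (nat_lit 2645) (.e (nat_lit 376867) (nat_lit 23) (.e (nat_lit 98317) (nat_lit 9) (.e (nat_lit 335988) (nat_lit 1) (.e (nat_lit 57931) (nat_lit 282) (.e (nat_lit 163904) (nat_lit 12) (.e (nat_lit 426555) (nat_lit 32) .nil)))))) (.g (nat_lit 1) (.e (nat_lit 386458) (nat_lit 0) .nil) .nil)))))) (.nd (nat_lit 7) (.nd (nat_lit 8) (.nd (nat_lit 9) 
(.lf (nat_lit 583782) (.g (nat_lit 4330) (.e (nat_lit 360473) (nat_lit 8) (.e (nat_lit 557093) (nat_lit 12) (.e (nat_lit 164022) (nat_lit 46) (.e (nat_lit 704629) (nat_lit 9) (.e (nat_lit 375) (nat_lit 32) (.e (nat_lit 426140) (nat_lit 3) (.e (nat_lit 204868) (nat_lit 29) .nil))))))) (.g (nat_lit 1) (.e (nat_lit 384587) (nat_lit 0) .nil) .nil))) 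
(.lf (nat_lit 584294) (.g (nat_lit 2772) (.e (nat_lit 368682) (nat_lit 26) (.e (nat_lit 557105) (nat_lit 14) (.e (nat_lit 180252) (nat_lit 10) (.e (nat_lit 573474) (nat_lit 12) .nil)))) (.g (nat_lit 0) (.e (nat_lit 385641) (nat_lit 0) .nil) .nil)))) (.nd (nat_lit 9) 
(.lf (nat_lit 584038) (.g (nat_lit 1891) (.e (nat_lit 368662) (nat_lit 18) (.e (nat_lit 5906) (nat_lit 320) (.e (nat_lit 1209) (nat_lit 89) (.e (nat_lit 73782) (nat_lit 32) (.e (nat_lit 3087) (nat_lit 191) .nil))))) (.g (nat_lit 0) (.e (nat_lit 385209) (nat_lit 0) .nil) .nil))) 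
(.lf (nat_lit 584550) (.g (nat_lit 4145) (.e (nat_lit 376860) (nat_lit 21) (.e (nat_lit 57853) (nat_lit 252) (.e (nat_lit 57389) (nat_lit 5) (.e (nat_lit 114698) (nat_lit 11) (.e (nat_lit 426200) (nat_lit 9) (.e (nat_lit 426555) (nat_lit 32) .nil)))))) (.g (nat_lit 1) (.e (nat_lit 386328) (nat_lit 0) .nil) .nil))))) (.nd (nat_lit 8) (.nd (nat_lit 9) 
(.lf (nat_lit 583910) (.g (nat_lit 2834) (.e (nat_lit 360475) (nat_lit 8) (.e (nat_lit 557085) (nat_lit 11) (.e (nat_lit 24617) (nat_lit 7) (.e (nat_lit 319504) (nat_lit 10) (.e (nat_lit 7936) (nat_lit 45) (.e (nat_lit 532550) (nat_lit 12) .nil)))))) (.g (nat_lit 1) (.e (nat_lit 384788) (nat_lit 0) .nil) .nil))) 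
(.lf (nat_lit 584422) (.g (nat_lit 2137) (.e (nat_lit 376855) (nat_lit 20) (.e (nat_lit 1800) (nat_lit 119) (.e (nat_lit 516139) (nat_lit 7) (.e (nat_lit 409648) (nat_lit 18) (.e (nat_lit 303104) (nat_lit 0) (.e (nat_lit 3238) (nat_lit 197) (.e (nat_lit 532560) (nat_lit 14) .nil))))))) (.g (nat_lit 1) (.e (nat_lit 386119) (nat_lit 0) .nil) .nil)))) (.nd (nat_lit 9) 
(.lf (nat_lit 584166) (.g (nat_lit 2887) (.e (nat_lit 368676) (nat_lit 21) (.e (nat_lit 516138) (nat_lit 7) (.e (nat_lit 409644) (nat_lit 18) (.e (nat_lit 303119) (nat_lit 3) (.e (nat_lit 204861) (nat_lit 26) (.e (nat_lit 336184) (nat_lit 11) .nil)))))) (.g (nat_lit 1) (.e (nat_lit 385474) (nat_lit 0) .nil) .nil))) 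
(.lf (nat_lit 584678) (.g (nat_lit 2358) (.e (nat_lit 385030) (nat_lit 8) (.e (nat_lit 3067) (nat_lit 190) (.e (nat_lit 475179) (nat_lit 24) (.e (nat_lit 516117) (nat_lit 1) (.e (nat_lit 164332) (nat_lit 230) .nil))))) (.g (nat_lit 0) (.e (nat_lit 386610) (nat_lit 0) .nil) .nil)))))))) (.nd (nat_lit 5) (.nd (nat_lit 6) (.nd (nat_lit 7) (.nd (nat_lit 8) (.nd (nat_lit 9) 
(.lf (nat_lit 583702) (.g (nat_lit 4231) (.e (nat_lit 360473) (nat_lit 8) (.e (nat_lit 557087) (nat_lit 11) (.e (nat_lit 24662) (nat_lit 14) (.e (nat_lit 401410) (nat_lit 0) .nil)))) (.g (nat_lit 0) (.e (nat_lit 384459) (nat_lit 0) .nil) .nil))) 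
(.lf (nat_lit 584214) (.g (nat_lit 4258) (.e (nat_lit 368676) (nat_lit 21) (.e (nat_lit 516165) (nat_lit 12) (.e (nat_lit 450588) (nat_lit 10) (.e (nat_lit 573473) (nat_lit 12) (.e (nat_lit 57348) (nat_lit 0) (.e (nat_lit 7265) (nat_lit 384) (.e (nat_lit 57430) (nat_lit 16) .nil))))))) (.g (nat_lit 1) (.e (nat_lit 385524) (nat_lit 0) .nil) .nil)))) (.nd (nat_lit 9) 
(.lf (nat_lit 583958) (.g (nat_lit 3245) (.e (nat_lit 360475) (nat_lit 8) (.e (nat_lit 557091) (nat_lit 12) (.e (nat_lit 164022) (nat_lit 46) (.e (nat_lit 704738) (nat_lit 11) (.e (nat_lit 16385) (nat_lit 0) (.e (nat_lit 3261) (nat_lit 198) (.e (nat_lit 540705) (nat_lit 12) .nil))))))) (.g (nat_lit 1) (.e (nat_lit 384854) (nat_lit 0) .nil) .nil))) 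
(.lf (nat_lit 584470) (.g (nat_lit 1187) (.e (nat_lit 376857) (nat_lit 21) (.e (nat_lit 57851) (nat_lit 252) (.e (nat_lit 57354) (nat_lit 0) (.e (nat_lit 2041) (nat_lit 141) .nil)))) (.g (nat_lit 0) (.e (nat_lit 386200) (nat_lit 0) .nil) .nil))))) (.nd (nat_lit 8) (.nd (nat_lit 9) 
(.lf (nat_lit 583830) (.g (nat_lit 3657) (.e (nat_lit 360474) (nat_lit 8) (.e (nat_lit 557091) (nat_lit 12) (.e (nat_lit 164020) (nat_lit 45) (.e (nat_lit 696344) (nat_lit 8) (.e (nat_lit 172065) (nat_lit 3) (.e (nat_lit 204868) (nat_lit 29) .nil)))))) (.g (nat_lit 1) (.e (nat_lit 384692) (nat_lit 0) .nil) .nil))) 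
(.lf (nat_lit 584342) (.g (nat_lit 1759) (.e (nat_lit 384768) (nat_lit 5) (.e (nat_lit 221207) (nat_lit 21) (.e (nat_lit 164324) (nat_lit 230) (.e (nat_lit 163933) (nat_lit 17) (.e (nat_lit 474880) (nat_lit 16) .nil))))) (.g (nat_lit 0) (.e (nat_lit 385993) (nat_lit 0) .nil) .nil)))) (.nd (nat_lit 9) 
(.lf (nat_lit 584086) (.g (nat_lit 2851) (.e (nat_lit 368676) (nat_lit 21) (.e (nat_lit 516129) (nat_lit 3) (.e (nat_lit 221214) (nat_lit 23) (.e (nat_lit 204831) (nat_lit 18) (.e (nat_lit 57931) (nat_lit 282) (.e (nat_lit 163874) (nat_lit 3) (.e (nat_lit 204872) (nat_lit 30) .nil))))))) (.g (nat_lit 1) (.e (nat_lit 385379) (nat_lit 0) .nil) .nil))) 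
(.lf (nat_lit 584598) (.g (nat_lit 1650) (.e (nat_lit 376866) (nat_lit 23) (.e (nat_lit 98350) (nat_lit 24) (.e (nat_lit 409649) (nat_lit 18) (.e (nat_lit 303119) (nat_lit 3) .nil)))) (.g (nat_lit 0) (.e (nat_lit 386435) (nat_lit 0) .nil) .nil)))))) (.nd (nat_lit 7) (.nd (nat_lit 8) (.nd (nat_lit 9) 
(.lf (nat_lit 583766) (.g (nat_lit 4176) (.e (nat_lit 360473) (nat_lit 8) (.e (nat_lit 557091) (nat_lit 12) (.e (nat_lit 164022) (nat_lit 46) (.e (nat_lit 704628) (nat_lit 9) (.e (nat_lit 375) (nat_lit 32) (.e (nat_lit 426140) (nat_lit 3) (.e (nat_lit 204868) (nat_lit 29) .nil))))))) (.g (nat_lit 1) (.e (nat_lit 384561) (nat_lit 0) .nil) .nil))) 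
(.lf (nat_lit 584278) (.g (nat_lit 1583) (.e (nat_lit 368676) (nat_lit 21) (.e (nat_lit 524032) (nat_lit 27) (.e (nat_lit 344161) (nat_lit 37) (.e (nat_lit 647183) (nat_lit 4) (.e (nat_lit 172147) (nat_lit 27) (.e (nat_lit 336188) (nat_lit 11) .nil)))))) (.g (nat_lit 1) (.e (nat_lit 385615) (nat_lit 0) .nil) .nil)))) (.nd (nat_lit 9) 
(.lf (nat_lit 584022) (.g (nat_lit 1193) (.e (nat_lit 376576) (nat_lit 4) (.e (nat_lit 172150) (nat_lit 27) (.e (nat_lit 336230) (nat_lit 14) (.e (nat_lit 401437) (nat_lit 9) (.e (nat_lit 426550) (nat_lit 31) .nil))))) (.g (nat_lit 0) (.e (nat_lit 385075) (nat_lit 0) .nil) .nil))) 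
(.lf (nat_lit 584534) (.g (nat_lit 638) (.e (nat_lit 376859) (nat_lit 21) (.e (nat_lit 57873) (nat_lit 264) (.e (nat_lit 1210) (nat_lit 89) .nil))) (.g (nat_lit 0) (.e (nat_lit 386291) (nat_lit 0) .nil) .nil))))) (.nd (nat_lit 8) (.nd (nat_lit 9) 
(.lf (nat_lit 583894) (.g (nat_lit 1981) (.e (nat_lit 360474) (nat_lit 8) (.e (nat_lit 557094) (nat_lit 12) (.e (nat_lit 164022) (nat_lit 46) (.e (nat_lit 704737) (nat_lit 11) (.e (nat_lit 16400) (nat_lit 0) (.e (nat_lit 7936) (nat_lit 197) (.e (nat_lit 532550) (nat_lit 12) .nil))))))) (.g (nat_lit 1) (.e (nat_lit 384762) (nat_lit 0) .nil) .nil))) 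
(.lf (nat_lit 584406) (.g (nat_lit 1140) (.e (nat_lit 384768) (nat_lit 18) (.e (nat_lit 483365) (nat_lit 18) (.e (nat_lit 57854) (nat_lit 252) (.e (nat_lit 57373) (nat_lit 2) .nil)))) (.g (nat_lit 0) (.e (nat_lit 386093) (nat_lit 0) .nil) .nil)))) (.nd (nat_lit 9) 
(.lf (nat_lit 584150) (.g (nat_lit 4209) (.e (nat_lit 368676) (nat_lit 21) (.e (nat_lit 516131) (nat_lit 3) (.e (nat_lit 221215) (nat_lit 23) (.e (nat_lit 204829) (nat_lit 18) (.e (nat_lit 57931) (nat_lit 282) (.e (nat_lit 163874) (nat_lit 3) (.e (nat_lit 204872) (nat_lit 30) .nil))))))) (.g (nat_lit 1) (.e (nat_lit 385457) (nat_lit 0) .nil) .nil))) 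
(.lf (nat_lit 584662) (.g (nat_lit 1499) (.e (nat_lit 376869) (nat_lit 23) (.e (nat_lit 98349) (nat_lit 24) (.e (nat_lit 409648) (nat_lit 18) (.e (nat_lit 303109) (nat_lit 0) .nil)))) (.g (nat_lit 0) (.e (nat_lit 386536) (nat_lit 0) .nil) .nil))))))) (.nd (nat_lit 6) (.nd (nat_lit 7) (.nd (nat_lit 8) (.nd (nat_lit 9) 
(.lf (nat_lit 583734) (.g (nat_lit 3760) (.e (nat_lit 360473) (nat_lit 8) (.e (nat_lit 557089) (nat_lit 12) (.e (nat_lit 164020) (nat_lit 45) (.e (nat_lit 696327) (nat_lit 5) (.e (nat_lit 2964) (nat_lit 185) (.e (nat_lit 434231) (nat_lit 23) (.e (nat_lit 532549) (nat_lit 12) .nil))))))) (.g (nat_lit 1) (.e (nat_lit 384507) (nat_lit 0) .nil) .nil))) 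
(.lf (nat_lit 584246) (.g (nat_lit 4691) (.e (nat_lit 368676) (nat_lit 21) (.e (nat_lit 516166) (nat_lit 12) (.e (nat_lit 450587) (nat_lit 10) (.e (nat_lit 573478) (nat_lit 12) (.e (nat_lit 57352) (nat_lit 0) (.e (nat_lit 7261) (nat_lit 384) (.e (nat_lit 57432) (nat_lit 16) .nil))))))) (.g (nat_lit 1) (.e (nat_lit 385556) (nat_lit 0) .nil) .nil)))) (.nd (nat_lit 9) 
(.lf (nat_lit 583990) (.g (nat_lit 914) (.e (nat_lit 360493) (nat_lit 27) (.e (nat_lit 819204) (nat_lit 0) (.e (nat_lit 3016) (nat_lit 187) (.e (nat_lit 458496) (nat_lit 4) .nil)))) (.g (nat_lit 0) (.e (nat_lit 384928) (nat_lit 0) .nil) .nil))) 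
(.lf (nat_lit 584502) (.g (nat_lit 2490) (.e (nat_lit 376859) (nat_lit 21) (.e (nat_lit 57844) (nat_lit 252) (.e (nat_lit 57389) (nat_lit 5) (.e (nat_lit 114698) (nat_lit 11) (.e (nat_lit 426197) (nat_lit 9) (.e (nat_lit 426556) (nat_lit 32) .nil)))))) (.g (nat_lit 1) (.e (nat_lit 386255) (nat_lit 0) .nil) .nil))))) (.nd (nat_lit 8) (.nd (nat_lit 9) 
(.lf (nat_lit 583862) (.g (nat_lit 2699) (.e (nat_lit 360474) (nat_lit 8) (.e (nat_lit 557093) (nat_lit 12) (.e (nat_lit 164023) (nat_lit 46) (.e (nat_lit 704629) (nat_lit 9) (.e (nat_lit 442) (nat_lit 33) (.e (nat_lit 442112) (nat_lit 23) (.e (nat_lit 532550) (nat_lit 12) .nil))))))) (.g (nat_lit 1) (.e (nat_lit 384727) (nat_lit 0) .nil) .nil))) 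
(.lf (nat_lit 584374) (.g (nat_lit 691) (.e (nat_lit 376842) (nat_lit 11) (.e (nat_lit 426107) (nat_lit 1) (.e (nat_lit 164147) (nat_lit 152) .nil))) (.g (nat_lit 0) (.e (nat_lit 386054) (nat_lit 0) .nil) .nil)))) (.nd (nat_lit 9) 
(.lf (nat_lit 584118) (.g (nat_lit 3512) (.e (nat_lit 368676) (nat_lit 21) (.e (nat_lit 516131) (nat_lit 3) (.e (nat_lit 221214) (nat_lit 23) (.e (nat_lit 204829) (nat_lit 18) (.e (nat_lit 57927) (nat_lit 282) (.e (nat_lit 163874) (nat_lit 3) (.e (nat_lit 204872) (nat_lit 30) .nil))))))) (.g (nat_lit 1) (.e (nat_lit 385420) (nat_lit 0) .nil) .nil))) 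
(.lf (nat_lit 584630) (.g (nat_lit 1089) (.e (nat_lit 376868) (nat_lit 23) (.e (nat_lit 98350) (nat_lit 24) (.e (nat_lit 409623) (nat_lit 10) (.e (nat_lit 5756) (nat_lit 315) .nil)))) (.g (nat_lit 0) (.e (nat_lit 386485) (nat_lit 0) .nil) .nil)))))) (.nd (nat_lit 7) (.nd (nat_lit 8) (.nd (nat_lit 9) 
(.lf (nat_lit 583798) (.g (nat_lit 2439) (.e (nat_lit 360473) (nat_lit 8) (.e (nat_lit 557094) (nat_lit 12) (.e (nat_lit 164018) (nat_lit 45) (.e (nat_lit 696328) (nat_lit 5) (.e (nat_lit 2884) (nat_lit 184) (.e (nat_lit 426140) (nat_lit 3) (.e (nat_lit 204868) (nat_lit 29) .nil))))))) (.g (nat_lit 1) (.e (nat_lit 384627) (nat_lit 0) .nil) .nil))) 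
(.lf (nat_lit 584310) (.g (nat_lit 1489) (.e (nat_lit 376835) (nat_lit 0) (.e (nat_lit 3253) (nat_lit 197) (.e (nat_lit 532515) (nat_lit 3) (.e (nat_lit 114698) (nat_lit 11) (.e (nat_lit 426137) (nat_lit 3) .nil))))) (.g (nat_lit 0) (.e (nat_lit 385749) (nat_lit 0) .nil) .nil)))) (.nd (nat_lit 9) 
(.lf (nat_lit 584054) (.g (nat_lit 4291) (.e (nat_lit 368676) (nat_lit 21) (.e (nat_lit 516106) (nat_lit 0) (.e (nat_lit 6986) (nat_lit 377) (.e (nat_lit 2819) (nat_lit 181) (.e (nat_lit 311315) (nat_lit 3) (.e (nat_lit 204861) (nat_lit 26) (.e (nat_lit 336186) (nat_lit 11) .nil))))))) (.g (nat_lit 1) (.e (nat_lit 385324) (nat_lit 0) .nil) .nil))) 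
(.lf (nat_lit 584566) (.g (nat_lit 2445) (.e (nat_lit 376860) (nat_lit 21) (.e (nat_lit 57930) (nat_lit 282) (.e (nat_lit 163896) (nat_lit 10) (.e (nat_lit 409648) (nat_lit 18) (.e (nat_lit 303130) (nat_lit 9) (.e (nat_lit 433920) (nat_lit 32) .nil)))))) (.g (nat_lit 1) (.e (nat_lit 386355) (nat_lit 0) .nil) .nil))))) (.nd (nat_lit 8) (.nd (nat_lit 9) 
(.lf (nat_lit 583926) (.g (nat_lit 816) (.e (nat_lit 360475) (nat_lit 8) (.e (nat_lit 557090) (nat_lit 12) (.e (nat_lit 163844) (nat_lit 0) .nil))) (.g (nat_lit 0) (.e (nat_lit 384811) (nat_lit 0) .nil) .nil))) 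
(.lf (nat_lit 584438) (.g (nat_lit 1518) (.e (nat_lit 376856) (nat_lit 21) (.e (nat_lit 57847) (nat_lit 252) (.e (nat_lit 57388) (nat_lit 5) (.e (nat_lit 114698) (nat_lit 11) .nil)))) (.g (nat_lit 0) (.e (nat_lit 386150) (nat_lit 0) .nil) .nil)))) (.nd (nat_lit 9) 
(.lf (nat_lit 584182) (.g (nat_lit 1914) (.e (nat_lit 368676) (nat_lit 21) (.e (nat_lit 524032) (nat_lit 7) (.e (nat_lit 409646) (nat_lit 18) (.e (nat_lit 303119) (nat_lit 3) (.e (nat_lit 204861) (nat_lit 26) (.e (nat_lit 336185) (nat_lit 11) .nil)))))) (.g (nat_lit 1) (.e (nat_lit 385491) (nat_lit 0) .nil) .nil))) 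
(.lf (nat_lit 584694) (.g (nat_lit 1305) (.e (nat_lit 385051) (nat_lit 21) (.e (nat_lit 6393) (nat_lit 339) (.e (nat_lit 57378) (nat_lit 3) (.e (nat_lit 98333) (nat_lit 18) .nil)))) (.g (nat_lit 0) (.e (nat_lit 386673) (nat_lit 0) .nil) .nil))))))))) (.nd (nat_lit 4) (.nd (nat_lit 5) (.nd (nat_lit 6) (.nd (nat_lit 7) (.nd (nat_lit 8) (.nd (nat_lit 9) 
(.lf (nat_lit 583694) (.g (nat_lit 1605) (.e (nat_lit 360473) (nat_lit 8) (.e (nat_lit 557087) (nat_lit 11) (.e (nat_lit 24585) (nat_lit 0) (.e (nat_lit 7936) (nat_lit 360) .nil)))) (.g (nat_lit 0) (.e (nat_lit 384449) (nat_lit 0) .nil) .nil))) 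
(.lf (nat_lit 584206) (.g (nat_lit 3202) (.e (nat_lit 368676) (nat_lit 21) (.e (nat_lit 516165) (nat_lit 12) (.e (nat_lit 450586) (nat_lit 10) (.e (nat_lit 573475) (nat_lit 12) (.e (nat_lit 57351) (nat_lit 0) (.e (nat_lit 7261) (nat_lit 384) (.e (nat_lit 57430) (nat_lit 16) .nil))))))) (.g (nat_lit 1) (.e (nat_lit 385516) (nat_lit 0) .nil) .nil)))) (.nd (nat_lit 9) 
(.lf (nat_lit 583950) (.g (nat_lit 2357) (.e (nat_lit 360475) (nat_lit 8) (.e (nat_lit 557091) (nat_lit 12) (.e (nat_lit 163843) (nat_lit 0) (.e (nat_lit 6421) (nat_lit 341) (.e (nat_lit 163908) (nat_lit 12) .nil))))) (.g (nat_lit 0) (.e (nat_lit 384844) (nat_lit 0) .nil) .nil))) 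
(.lf (nat_lit 584462) (.g (nat_lit 3498) (.e (nat_lit 376857) (nat_lit 21) (.e (nat_lit 57849) (nat_lit 252) (.e (nat_lit 57388) (nat_lit 5) (.e (nat_lit 114698) (nat_lit 11) (.e (nat_lit 426188) (nat_lit 9) (.e (nat_lit 426555) (nat_lit 32) .nil)))))) (.g (nat_lit 1) (.e (nat_lit 386191) (nat_lit 0) .nil) .nil))))) (.nd (nat_lit 8) (.nd (nat_lit 9) 
(.lf (nat_lit 583822) (.g (nat_lit 502) (.e (nat_lit 360474) (nat_lit 8) (.e (nat_lit 557089) (nat_lit 12) (.e (nat_lit 163848) (nat_lit 0) .nil))) (.g (nat_lit 0) (.e (nat_lit 384675) (nat_lit 0) .nil) .nil))) 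
(.lf (nat_lit 584334) (.g (nat_lit 410) (.e (nat_lit 384768) (nat_lit 3) (.e (nat_lit 204838) (nat_lit 20) (.e (nat_lit 122624) (nat_lit 11) .nil))) (.g (nat_lit 0) (.e (nat_lit 385937) (nat_lit 0) .nil) .nil)))) (.nd (nat_lit 9) 
(.lf (nat_lit 584078) (.g (nat_lit 2928) (.e (nat_lit 368676) (nat_lit 21) (.e (nat_lit 516129) (nat_lit 3) (.e (nat_lit 221214) (nat_lit 23) (.e (nat_lit 204830) (nat_lit 18) (.e (nat_lit 57926) (nat_lit 282) (.e (nat_lit 163875) (nat_lit 3) (.e (nat_lit 204873) (nat_lit 30) .nil))))))) (.g (nat_lit 1) (.e (nat_lit 385371) (nat_lit 0) .nil) .nil))) 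
(.lf (nat_lit 584590) (.g (nat_lit 1155) (.e (nat_lit 376865) (nat_lit 22) (.e (nat_lit 90185) (nat_lit 17) (.e (nat_lit 237572) (nat_lit 0) .nil))) (.g (nat_lit 0) (.e (nat_lit 386425) (nat_lit 0) .nil) .nil)))))) (.nd (nat_lit 7) (.nd (nat_lit 8) (.nd (nat_lit 9) 
(.lf (nat_lit 583758) (.g (nat_lit 644) (.e (nat_lit 360473) (nat_lit 8) (.e (nat_lit 557091) (nat_lit 12) (.e (nat_lit 164002) (nat_lit 40) .nil))) (.g (nat_lit 0) (.e (nat_lit 384547) (nat_lit 0) .nil) .nil))) 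
(.lf (nat_lit 584270) (.g (nat_lit 2748) (.e (nat_lit 368676) (nat_lit 21) (.e (nat_lit 516195) (nat_lit 26) (.e (nat_lit 335986) (nat_lit 1) (.e (nat_lit 57927) (nat_lit 282) (.e (nat_lit 163941) (nat_lit 19) (.e (nat_lit 483398) (nat_lit 25) .nil)))))) (.g (nat_lit 1) (.e (nat_lit 385590) (nat_lit 0) .nil) .nil)))) (.nd (nat_lit 9) 
(.lf (nat_lit 584014) (.g (nat_lit 735) (.e (nat_lit 360493) (nat_lit 27) (.e (nat_lit 819219) (nat_lit 4) (.e (nat_lit 172112) (nat_lit 10) (.e (nat_lit 434229) (nat_lit 22) (.e (nat_lit 532224) (nat_lit 29) .nil))))) (.g (nat_lit 1) (.e (nat_lit 384958) (nat_lit 0) .nil) .nil))) 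
(.lf (nat_lit 584526) (.g (nat_lit 1873) (.e (nat_lit 376859) (nat_lit 21) (.e (nat_lit 57853) (nat_lit 252) (.e (nat_lit 57388) (nat_lit 5) (.e (nat_lit 114698) (nat_lit 11) (.e (nat_lit 426197) (nat_lit 9) .nil))))) (.g (nat_lit 0) (.e (nat_lit 386283) (nat_lit 0) .nil) .nil))))) (.nd (nat_lit 8) (.nd (nat_lit 9) 
(.lf (nat_lit 583886) (.g (nat_lit 1830) (.e (nat_lit 360474) (nat_lit 8) (.e (nat_lit 557094) (nat_lit 12) (.e (nat_lit 164022) (nat_lit 46) (.e (nat_lit 704736) (nat_lit 11) (.e (nat_lit 16387) (nat_lit 0) (.e (nat_lit 7936) (nat_lit 197) (.e (nat_lit 532550) (nat_lit 12) .nil))))))) (.g (nat_lit 1) (.e (nat_lit 384754) (nat_lit 0) .nil) .nil))) 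
(.lf (nat_lit 584398) (.g (nat_lit 2160) (.e (nat_lit 376842) (nat_lit 11) (.e (nat_lit 426521) (nat_lit 27) (.e (nat_lit 335987) (nat_lit 1) (.e (nat_lit 57926) (nat_lit 282) (.e (nat_lit 163874) (nat_lit 3) (.e (nat_lit 204876) (nat_lit 31) .nil)))))) (.g (nat_lit 1) (.e (nat_lit 386079) (nat_lit 0) .nil) .nil)))) (.nd (nat_lit 9) 
(.lf (nat_lit 584142) (.g (nat_lit 3071) (.e (nat_lit 368676) (nat_lit 21) (.e (nat_lit 516131) (nat_lit 3) (.e (nat_lit 221215) (nat_lit 23) (.e (nat_lit 204828) (nat_lit 18) (.e (nat_lit 57927) (nat_lit 282) (.e (nat_lit 163875) (nat_lit 3) (.e (nat_lit 204873) (nat_lit 30) .nil))))))) (.g (nat_lit 1) (.e (nat_lit 385449) (nat_lit 0) .nil) .nil))) 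
(.lf (nat_lit 584654) (.g (nat_lit 2992) (.e (nat_lit 376869) (nat_lit 23) (.e (nat_lit 98317) (nat_lit 9) (.e (nat_lit 335995) (nat_lit 1) (.e (nat_lit 57931) (nat_lit 282) (.e (nat_lit 163902) (nat_lit 12) (.e (nat_lit 426555) (nat_lit 32) .nil)))))) (.g (nat_lit 1) (.e (nat_lit 386518) (nat_lit 0) .nil) .nil))))))) (.nd (nat_lit 6) (.nd (nat_lit 7) (.nd (nat_lit 8) (.nd (nat_lit 9) 
(.lf (nat_lit 583726) (.g (nat_lit 440) (.e (nat_lit 360473) (nat_lit 8) (.e (nat_lit 557089) (nat_lit 12) (.e (nat_lit 163999) (nat_lit 38) .nil))) (.g (nat_lit 0) (.e (nat_lit 384496) (nat_lit 0) .nil) .nil))) 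
(.lf (nat_lit 584238) (.g (nat_lit 4222) (.e (nat_lit 368676) (nat_lit 21) (.e (nat_lit 516165) (nat_lit 12) (.e (nat_lit 450588) (nat_lit 10) (.e (nat_lit 573475) (nat_lit 12) (.e (nat_lit 57354) (nat_lit 0) (.e (nat_lit 7270) (nat_lit 385) (.e (nat_lit 122920) (nat_lit 16) .nil))))))) (.g (nat_lit 1) (.e (nat_lit 385548) (nat_lit 0) .nil) .nil)))) (.nd (nat_lit 9) 
(.lf (nat_lit 583982) (.g (nat_lit 516) (.e (nat_lit 360493) (nat_lit 27) (.e (nat_lit 819203) (nat_lit 0) (.e (nat_lit 3027) (nat_lit 187) (.e (nat_lit 450577) (nat_lit 4) (.e (nat_lit 532224) (nat_lit 29) .nil))))) (.g (nat_lit 1) (.e (nat_lit 384915) (nat_lit 0) .nil) .nil))) 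
(.lf (nat_lit 584494) (.g (nat_lit 1780) (.e (nat_lit 376858) (nat_lit 21) (.e (nat_lit 57854) (nat_lit 252) (.e (nat_lit 57388) (nat_lit 5) (.e (nat_lit 114698) (nat_lit 11) (.e (nat_lit 426197) (nat_lit 9) .nil))))) (.g (nat_lit 0) (.e (nat_lit 386238) (nat_lit 0) .nil) .nil))))) (.nd (nat_lit 8) (.nd (nat_lit 9) 
(.lf (nat_lit 583854) (.g (nat_lit 2286) (.e (nat_lit 360474) (nat_lit 8) (.e (nat_lit 557093) (nat_lit 12) (.e (nat_lit 164022) (nat_lit 46) (.e (nat_lit 704738) (nat_lit 11) (.e (nat_lit 16385) (nat_lit 0) (.e (nat_lit 3258) (nat_lit 198) (.e (nat_lit 540706) (nat_lit 12) .nil))))))) (.g (nat_lit 1) (.e (nat_lit 384719) (nat_lit 0) .nil) .nil))) 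
(.lf (nat_lit 584366) (.g (nat_lit 1772) (.e (nat_lit 376839) (nat_lit 11) (.e (nat_lit 426503) (nat_lit 27) (.e (nat_lit 335986) (nat_lit 1) (.e (nat_lit 57927) (nat_lit 282) (.e (nat_lit 163874) (nat_lit 3) (.e (nat_lit 204876) (nat_lit 31) .nil)))))) (.g (nat_lit 1) (.e (nat_lit 386041) (nat_lit 0) .nil) .nil)))) (.nd (nat_lit 9) 
(.lf (nat_lit 584110) (.g (nat_lit 3212) (.e (nat_lit 368676) (nat_lit 21) (.e (nat_lit 516131) (nat_lit 3) (.e (nat_lit 221213) (nat_lit 23) (.e (nat_lit 204830) (nat_lit 18) (.e (nat_lit 57926) (nat_lit 282) (.e (nat_lit 163874) (nat_lit 3) (.e (nat_lit 204872) (nat_lit 30) .nil))))))) (.g (nat_lit 1) (.e (nat_lit 385412) (nat_lit 0) .nil) .nil))) 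
(.lf (nat_lit 584622) (.g (nat_lit 1662) (.e (nat_lit 376867) (nat_lit 23) (.e (nat_lit 98350) (nat_lit 24) (.e (nat_lit 409650) (nat_lit 19) (.e (nat_lit 311314) (nat_lit 3) .nil)))) (.g (nat_lit 0) (.e (nat_lit 386470) (nat_lit 0) .nil) .nil)))))) (.nd (nat_lit 7) (.nd (nat_lit 8) (.nd (nat_lit 9) 
(.lf (nat_lit 583790) (.g (nat_lit 2375) (.e (nat_lit 360473) (nat_lit 8) (.e (nat_lit 557094) (nat_lit 12) (.e (nat_lit 163847) (nat_lit 0) (.e (nat_lit 6255) (nat_lit 337) (.e (nat_lit 2725) (nat_lit 172) (.e (nat_lit 237592) (nat_lit 3) (.e (nat_lit 204868) (nat_lit 29) .nil))))))) (.g (nat_lit 1) (.e (nat_lit 384601) (nat_lit 0) .nil) .nil))) 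
(.lf (nat_lit 584302) (.g (nat_lit 2098) (.e (nat_lit 376833) (nat_lit 0) (.e (nat_lit 3249) (nat_lit 197) (.e (nat_lit 532506) (nat_lit 2) (.e (nat_lit 106536) (nat_lit 11) (.e (nat_lit 16416) (nat_lit 3) (.e (nat_lit 204877) (nat_lit 31) .nil)))))) (.g (nat_lit 1) (.e (nat_lit 385691) (nat_lit 0) .nil) .nil)))) (.nd (nat_lit 9) 
(.lf (nat_lit 584046) (.g (nat_lit 2590) (.e (nat_lit 368675) (nat_lit 21) (.e (nat_lit 516138) (nat_lit 7) (.e (nat_lit 409646) (nat_lit 18) (.e (nat_lit 303112) (nat_lit 0) (.e (nat_lit 3252) (nat_lit 197) .nil))))) (.g (nat_lit 0) (.e (nat_lit 385299) (nat_lit 0) .nil) .nil))) 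
(.lf (nat_lit 584558) (.g (nat_lit 2207) (.e (nat_lit 376860) (nat_lit 21) (.e (nat_lit 57930) (nat_lit 282) (.e (nat_lit 163896) (nat_lit 10) (.e (nat_lit 409616) (nat_lit 10) (.e (nat_lit 5772) (nat_lit 316) (.e (nat_lit 179968) (nat_lit 32) .nil)))))) (.g (nat_lit 1) (.e (nat_lit 386345) (nat_lit 0) .nil) .nil))))) (.nd (nat_lit 8) (.nd (nat_lit 9) 
(.lf (nat_lit 583918) (.g (nat_lit 2204) (.e (nat_lit 360475) (nat_lit 8) (.e (nat_lit 557087) (nat_lit 11) (.e (nat_lit 24662) (nat_lit 14) (.e (nat_lit 401410) (nat_lit 0) .nil)))) (.g (nat_lit 0) (.e (nat_lit 384801) (nat_lit 0) .nil) .nil))) 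
(.lf (nat_lit 584430) (.g (nat_lit 2382) (.e (nat_lit 376855) (nat_lit 20) (.e (nat_lit 1800) (nat_lit 119) (.e (nat_lit 516139) (nat_lit 7) (.e (nat_lit 409649) (nat_lit 18) (.e (nat_lit 303104) (nat_lit 0) (.e (nat_lit 3238) (nat_lit 197) (.e (nat_lit 532560) (nat_lit 14) .nil))))))) (.g (nat_lit 1) (.e (nat_lit 386128) (nat_lit 0) .nil) .nil)))) (.nd (nat_lit 9) 
(.lf (nat_lit 584174) (.g (nat_lit 2603) (.e (nat_lit 368676) (nat_lit 21) (.e (nat_lit 516139) (nat_lit 7) (.e (nat_lit 409644) (nat_lit 18) (.e (nat_lit 303119) (nat_lit 3) (.e (nat_lit 204861) (nat_lit 26) (.e (nat_lit 336184) (nat_lit 11) .nil)))))) (.g (nat_lit 1) (.e (nat_lit 385483) (nat_lit 0) .nil) .nil))) 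
(.lf (nat_lit 584686) (.g (nat_lit 1303) (.e (nat_lit 392960) (nat_lit 10) (.e (nat_lit 24627) (nat_lit 9) (.e (nat_lit 336324) (nat_lit 18) (.e (nat_lit 204829) (nat_lit 18) .nil)))) (.g (nat_lit 0) (.e (nat_lit 386644) (nat_lit 0) .nil) .nil)))))))) (.nd (nat_lit 5) (.nd (nat_lit 6) (.nd (nat_lit 7) (.nd (nat_lit 8) (.nd (nat_lit 9) 
(.lf (nat_lit 583710) (.g (nat_lit 4182) (.e (nat_lit 360473) (nat_lit 8) (.e (nat_lit 557087) (nat_lit 11) (.e (nat_lit 24665) (nat_lit 14) (.e (nat_lit 401414) (nat_lit 0) (.e (nat_lit 3238) (nat_lit 197) (.e (nat_lit 532549) (nat_lit 12) .nil)))))) (.g (nat_lit 1) (.e (nat_lit 384467) (nat_lit 0) .nil) .nil))) 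
(.lf (nat_lit 584222) (.g (nat_lit 4487) (.e (nat_lit 368676) (nat_lit 21) (.e (nat_lit 516165) (nat_lit 12) (.e (nat_lit 450588) (nat_lit 10) (.e (nat_lit 573473) (nat_lit 12) (.e (nat_lit 57353) (nat_lit 0) (.e (nat_lit 7265) (nat_lit 384) (.e (nat_lit 57431) (nat_lit 16) .nil))))))) (.g (nat_lit 1) (.e (nat_lit 385532) (nat_lit 0) .nil) .nil)))) (.nd (nat_lit 9) 
(.lf (nat_lit 583966) (.g (nat_lit 2455) (.e (nat_lit 368384) (nat_lit 16) (.e (nat_lit 655364) (nat_lit 0) (.e (nat_lit 3098) (nat_lit 192) (.e (nat_lit 491566) (nat_lit 12) (.e (nat_lit 385105) (nat_lit 50) .nil))))) (.g (nat_lit 0) (.e (nat_lit 384883) (nat_lit 0) .nil) .nil))) 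
(.lf (nat_lit 584478) (.g (nat_lit 415) (.e (nat_lit 376857) (nat_lit 21) (.e (nat_lit 57853) (nat_lit 252) (.e (nat_lit 57388) (nat_lit 5) .nil))) (.g (nat_lit 0) (.e (nat_lit 386210) (nat_lit 0) .nil) .nil))))) (.nd (nat_lit 8) (.nd (nat_lit 9) 
(.lf (nat_lit 583838) (.g (nat_lit 2840) (.e (nat_lit 360474) (nat_lit 8) (.e (nat_lit 557093) (nat_lit 12) (.e (nat_lit 164022) (nat_lit 46) (.e (nat_lit 704629) (nat_lit 9) (.e (nat_lit 452) (nat_lit 33) (.e (nat_lit 434219) (nat_lit 19) (.e (nat_lit 499978) (nat_lit 14) (.e (nat_lit 1587) (nat_lit 111) .nil)))))))) (.g (nat_lit 1) (.e (nat_lit 384702) (nat_lit 0) .nil) .nil))) 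
(.lf (nat_lit 584350) (.g (nat_lit 389) (.e (nat_lit 384768) (nat_lit 5) (.e (nat_lit 221207) (nat_lit 21) (.e (nat_lit 164326) (nat_lit 230) .nil))) (.g (nat_lit 0) (.e (nat_lit 386006) (nat_lit 0) .nil) .nil)))) (.nd (nat_lit 9) 
(.lf (nat_lit 584094) (.g (nat_lit 2554) (.e (nat_lit 368676) (nat_lit 21) (.e (nat_lit 516129) (nat_lit 3) (.e (nat_lit 221215) (nat_lit 23) (.e (nat_lit 204829) (nat_lit 18) (.e (nat_lit 57931) (nat_lit 282) (.e (nat_lit 163874) (nat_lit 3) (.e (nat_lit 204873) (nat_lit 30) .nil))))))) (.g (nat_lit 1) (.e (nat_lit 385387) (nat_lit 0) .nil) .nil))) 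
(.lf (nat_lit 584606) (.g (nat_lit 3380) (.e (nat_lit 376867) (nat_lit 23) (.e (nat_lit 98313) (nat_lit 9) (.e (nat_lit 335988) (nat_lit 1) (.e (nat_lit 57931) (nat_lit 282) (.e (nat_lit 163905) (nat_lit 12) (.e (nat_lit 426555) (nat_lit 32) .nil)))))) (.g (nat_lit 1) (.e (nat_lit 386447) (nat_lit 0) .nil) .nil)))))) (.nd (nat_lit 7) (.nd (nat_lit 8) (.nd (nat_lit 9) 
(.lf (nat_lit 583774) (.g (nat_lit 2624) (.e (nat_lit 360473) (nat_lit 8) (.e (nat_lit 557093) (nat_lit 12) (.e (nat_lit 163848) (nat_lit 0) (.e (nat_lit 6416) (nat_lit 341) (.e (nat_lit 163900) (nat_lit 12) (.e (nat_lit 426140) (nat_lit 3) (.e (nat_lit 204868) (nat_lit 29) .nil))))))) (.g (nat_lit 1) (.e (nat_lit 384574) (nat_lit 0) .nil) .nil))) 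
(.lf (nat_lit 584286) (.g (nat_lit 3073) (.e (nat_lit 368678) (nat_lit 22) (.e (nat_lit 524322) (nat_lit 12) (.e (nat_lit 450588) (nat_lit 10) (.e (nat_lit 573473) (nat_lit 12) (.e (nat_lit 57353) (nat_lit 0) .nil))))) (.g (nat_lit 0) (.e (nat_lit 385626) (nat_lit 0) .nil) .nil)))) (.nd (nat_lit 9) 
(.lf (nat_lit 584030) (.g (nat_lit 1218) (.e (nat_lit 376576) (nat_lit 5) (.e (nat_lit 180271) (nat_lit 26) (.e (nat_lit 704629) (nat_lit 9) (.e (nat_lit 386) (nat_lit 32) .nil)))) (.g (nat_lit 0) (.e (nat_lit 385162) (nat_lit 0) .nil) .nil))) 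
(.lf (nat_lit 584542) (.g (nat_lit 2000) (.e (nat_lit 376860) (nat_lit 21) (.e (nat_lit 57853) (nat_lit 252) (.e (nat_lit 57388) (nat_lit 5) (.e (nat_lit 114696) (nat_lit 11) (.e (nat_lit 426230) (nat_lit 9) (.e (nat_lit 426554) (nat_lit 32) .nil)))))) (.g (nat_lit 1) (.e (nat_lit 386320) (nat_lit 0) .nil) .nil))))) (.nd (nat_lit 8) (.nd (nat_lit 9) 
(.lf (nat_lit 583902) (.g (nat_lit 2597) (.e (nat_lit 360474) (nat_lit 8) (.e (nat_lit 557094) (nat_lit 12) (.e (nat_lit 164022) (nat_lit 46) (.e (nat_lit 704738) (nat_lit 11) (.e (nat_lit 16396) (nat_lit 0) (.e (nat_lit 3258) (nat_lit 198) (.e (nat_lit 540706) (nat_lit 12) .nil))))))) (.g (nat_lit 1) (.e (nat_lit 384770) (nat_lit 0) .nil) .nil))) 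
(.lf (nat_lit 584414) (.g (nat_lit 1925) (.e (nat_lit 376855) (nat_lit 20) (.e (nat_lit 1800) (nat_lit 119) (.e (nat_lit 516138) (nat_lit 7) (.e (nat_lit 409644) (nat_lit 18) (.e (nat_lit 303119) (nat_lit 3) .nil))))) (.g (nat_lit 0) (.e (nat_lit 386111) (nat_lit 0) .nil) .nil)))) (.nd (nat_lit 9) 
(.lf (nat_lit 584158) (.g (nat_lit 3738) (.e (nat_lit 368676) (nat_lit 21) (.e (nat_lit 516131) (nat_lit 3) (.e (nat_lit 221215) (nat_lit 23) (.e (nat_lit 204830) (nat_lit 18) (.e (nat_lit 57927) (nat_lit 282) (.e (nat_lit 163875) (nat_lit 3) (.e (nat_lit 204872) (nat_lit 30) .nil))))))) (.g (nat_lit 1) (.e (nat_lit 385465) (nat_lit 0) .nil) .nil))) 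
(.lf (nat_lit 584670) (.g (nat_lit 1595) (.e (nat_lit 384768) (nat_lit 23) (.e (nat_lit 98349) (nat_lit 24) (.e (nat_lit 409645) (nat_lit 18) (.e (nat_lit 303112) (nat_lit 0) .nil)))) (.g (nat_lit 0) (.e (nat_lit 386571) (nat_lit 0) .nil) .nil))))))) (.nd (nat_lit 6) (.nd (nat_lit 7) (.nd (nat_lit 8) (.nd (nat_lit 9) 
(.lf (nat_lit 583742) (.g (nat_lit 3882) (.e (nat_lit 360473) (nat_lit 8) (.e (nat_lit 557089) (nat_lit 12) (.e (nat_lit 164020) (nat_lit 45) (.e (nat_lit 696330) (nat_lit 5) (.e (nat_lit 2964) (nat_lit 185) (.e (nat_lit 434231) (nat_lit 23) (.e (nat_lit 532549) (nat_lit 12) .nil))))))) (.g (nat_lit 1) (.e (nat_lit 384515) (nat_lit 0) .nil) .nil))) 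
(.lf (nat_lit 584254) (.g (nat_lit 5934) (.e (nat_lit 368676) (nat_lit 21) (.e (nat_lit 516166) (nat_lit 12) (.e (nat_lit 450588) (nat_lit 10) (.e (nat_lit 573473) (nat_lit 12) (.e (nat_lit 57354) (nat_lit 0) (.e (nat_lit 7270) (nat_lit 385) (.e (nat_lit 122920) (nat_lit 16) .nil))))))) (.g (nat_lit 1) (.e (nat_lit 385564) (nat_lit 0) .nil) .nil)))) (.nd (nat_lit 9) 
(.lf (nat_lit 583998) (.g (nat_lit 941) (.e (nat_lit 360493) (nat_lit 27) (.e (nat_lit 819204) (nat_lit 0) (.e (nat_lit 3022) (nat_lit 187) (.e (nat_lit 458496) (nat_lit 8) .nil)))) (.g (nat_lit 0) (.e (nat_lit 384939) (nat_lit 0) .nil) .nil))) 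
(.lf (nat_lit 584510) (.g (nat_lit 1489) (.e (nat_lit 376859) (nat_lit 21) (.e (nat_lit 57847) (nat_lit 252) (.e (nat_lit 57390) (nat_lit 5) (.e (nat_lit 114696) (nat_lit 11) (.e (nat_lit 426230) (nat_lit 9) (.e (nat_lit 426554) (nat_lit 32) .nil)))))) (.g (nat_lit 1) (.e (nat_lit 386265) (nat_lit 0) .nil) .nil))))) (.nd (nat_lit 8) (.nd (nat_lit 9) 
(.lf (nat_lit 583870) (.g (nat_lit 2851) (.e (nat_lit 360474) (nat_lit 8) (.e (nat_lit 557093) (nat_lit 12) (.e (nat_lit 164023) (nat_lit 46) (.e (nat_lit 704738) (nat_lit 11) (.e (nat_lit 16384) (nat_lit 0) (.e (nat_lit 3262) (nat_lit 198) (.e (nat_lit 540706) (nat_lit 12) .nil))))))) (.g (nat_lit 1) (.e (nat_lit 384735) (nat_lit 0) .nil) .nil))) 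
(.lf (nat_lit 584382) (.g (nat_lit 1686) (.e (nat_lit 376842) (nat_lit 11) (.e (nat_lit 426406) (nat_lit 15) (.e (nat_lit 6209) (nat_lit 333) (.e (nat_lit 57881) (nat_lit 270) (.e (nat_lit 174) (nat_lit 12) (.e (nat_lit 204877) (nat_lit 31) .nil)))))) (.g (nat_lit 1) (.e (nat_lit 386063) (nat_lit 0) .nil) .nil)))) (.nd (nat_lit 9) 
(.lf (nat_lit 584126) (.g (nat_lit 3866) (.e (nat_lit 368676) (nat_lit 21) (.e (nat_lit 516131) (nat_lit 3) (.e (nat_lit 221214) (nat_lit 23) (.e (nat_lit 204830) (nat_lit 18) (.e (nat_lit 57926) (nat_lit 282) (.e (nat_lit 163875) (nat_lit 3) (.e (nat_lit 204872) (nat_lit 30) .nil))))))) (.g (nat_lit 1) (.e (nat_lit 385428) (nat_lit 0) .nil) .nil))) 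
(.lf (nat_lit 584638) (.g (nat_lit 2135) (.e (nat_lit 376868) (nat_lit 23) (.e (nat_lit 98350) (nat_lit 24) (.e (nat_lit 409649) (nat_lit 18) (.e (nat_lit 303110) (nat_lit 0) .nil)))) (.g (nat_lit 0) (.e (nat_lit 386494) (nat_lit 0) .nil) .nil)))))) (.nd (nat_lit 7) (.nd (nat_lit 8) (.nd (nat_lit 9) 
(.lf (nat_lit 583806) (.g (nat_lit 3122) (.e (nat_lit 360473) (nat_lit 8) (.e (nat_lit 557094) (nat_lit 12) (.e (nat_lit 164018) (nat_lit 45) (.e (nat_lit 696344) (nat_lit 8) (.e (nat_lit 172067) (nat_lit 3) (.e (nat_lit 204868) (nat_lit 29) .nil)))))) (.g (nat_lit 1) (.e (nat_lit 384635) (nat_lit 0) .nil) .nil))) 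
(.lf (nat_lit 584318) (.g (nat_lit 1690) (.e (nat_lit 376835) (nat_lit 0) (.e (nat_lit 3632) (nat_lit 227) (.e (nat_lit 778323) (nat_lit 5) (.e (nat_lit 73781) (nat_lit 32) (.e (nat_lit 2855) (nat_lit 184) (.e (nat_lit 426553) (nat_lit 32) .nil)))))) (.g (nat_lit 1) (.e (nat_lit 385798) (nat_lit 0) .nil) .nil)))) (.nd (nat_lit 9) 
(.lf (nat_lit 584062) (.g (nat_lit 1142) (.e (nat_lit 368676) (nat_lit 21) (.e (nat_lit 516120) (nat_lit 1) (.e (nat_lit 164176) (nat_lit 154) (.e (nat_lit 57406) (nat_lit 12) .nil)))) (.g (nat_lit 0) (.e (nat_lit 385353) (nat_lit 0) .nil) .nil))) 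
(.lf (nat_lit 584574) (.g (nat_lit 831) (.e (nat_lit 376862) (nat_lit 22) (.e (nat_lit 90160) (nat_lit 11) (.e (nat_lit 24596) (nat_lit 1) .nil))) (.g (nat_lit 0) (.e (nat_lit 386375) (nat_lit 0) .nil) .nil))))) (.nd (nat_lit 8) (.nd (nat_lit 9) 
(.lf (nat_lit 583934) (.g (nat_lit 940) (.e (nat_lit 360475) (nat_lit 8) (.e (nat_lit 557090) (nat_lit 12) (.e (nat_lit 164012) (nat_lit 42) .nil))) (.g (nat_lit 0) (.e (nat_lit 384825) (nat_lit 0) .nil) .nil))) 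
(.lf (nat_lit 584446) (.g (nat_lit 1361) (.e (nat_lit 376856) (nat_lit 21) (.e (nat_lit 57849) (nat_lit 252) (.e (nat_lit 57390) (nat_lit 5) (.e (nat_lit 114698) (nat_lit 11) .nil)))) (.g (nat_lit 0) (.e (nat_lit 386158) (nat_lit 0) .nil) .nil)))) (.nd (nat_lit 9) 
(.lf (nat_lit 584190) (.g (nat_lit 3011) (.e (nat_lit 368676) (nat_lit 21) (.e (nat_lit 516165) (nat_lit 12) (.e (nat_lit 450586) (nat_lit 10) (.e (nat_lit 573473) (nat_lit 12) (.e (nat_lit 57347) (nat_lit 0) (.e (nat_lit 7265) (nat_lit 384) (.e (nat_lit 57431) (nat_lit 16) .nil))))))) (.g (nat_lit 1) (.e (nat_lit 385500) (nat_lit 0) .nil) .nil))) 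
(.lf (nat_lit 584702) (.g (nat_lit 640) (.e (nat_lit 385064) (nat_lit 26) (.e (nat_lit 532529) (nat_lit 9) (.e (nat_lit 336326) (nat_lit 18) .nil))) (.g (nat_lit 0) (.e (nat_lit 386701) (nat_lit 0) .nil) .nil)))))))))))) (.nd (nat_lit 1) (.nd (nat_lit 2) (.nd (nat_lit 3) (.nd (nat_lit 4) (.nd (nat_lit 5) (.nd (nat_lit 6) (.nd (nat_lit 7) (.nd (nat_lit 8) (.nd (nat_lit 9) 
(.lf (nat_lit 583681) (.g (nat_lit 2260) (.e (nat_lit 360472) (nat_lit 8) (.e (nat_lit 557090) (nat_lit 12) (.e (nat_lit 164020) (nat_lit 45) (.e (nat_lit 696342) (nat_lit 8) (.e (nat_lit 172067) (nat_lit 3) .nil))))) (.g (nat_lit 0) (.e (nat_lit 384403) (nat_lit 0) .nil) .nil))) 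
(.lf (nat_lit 584193) (.g (nat_lit 3023) (.e (nat_lit 368676) (nat_lit 21) (.e (nat_lit 516165) (nat_lit 12) (.e (nat_lit 450586) (nat_lit 10) (.e (nat_lit 573473) (nat_lit 12) (.e (nat_lit 57352) (nat_lit 0) (.e (nat_lit 7261) (nat_lit 384) (.e (nat_lit 57430) (nat_lit 16) .nil))))))) (.g (nat_lit 1) (.e (nat_lit 385503) (nat_lit 0) .nil) .nil)))) (.nd (nat_lit 9) 
(.lf (nat_lit 583937) (.g (nat_lit 931) (.e (nat_lit 360475) (nat_lit 8) (.e (nat_lit 557090) (nat_lit 12) (.e (nat_lit 164017) (nat_lit 44) .nil))) (.g (nat_lit 0) (.e (nat_lit 384829) (nat_lit 0) .nil) .nil))) 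
(.lf (nat_lit 584449) (.g (nat_lit 900) (.e (nat_lit 376857) (nat_lit 21) (.e (nat_lit 57844) (nat_lit 252) (.e (nat_lit 57388) (nat_lit 5) (.e (nat_lit 114694) (nat_lit 11) .nil)))) (.g (nat_lit 0) (.e (nat_lit 386173) (nat_lit 0) .nil) .nil))))) (.nd (nat_lit 8) (.nd (nat_lit 9) 
(.lf (nat_lit 583809) (.g (nat_lit 3022) (.e (nat_lit 360473) (nat_lit 8) (.e (nat_lit 557094) (nat_lit 12) (.e (nat_lit 164022) (nat_lit 46) (.e (nat_lit 704627) (nat_lit 9) (.e (nat_lit 375) (nat_lit 32) (.e (nat_lit 426140) (nat_lit 3) (.e (nat_lit 204868) (nat_lit 29) .nil))))))) (.g (nat_lit 1) (.e (nat_lit 384646) (nat_lit 0) .nil) .nil))) 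
(.lf (nat_lit 584321) (.g (nat_lit 886) (.e (nat_lit 376835) (nat_lit 0) (.e (nat_lit 3632) (nat_lit 227) (.e (nat_lit 778323) (nat_lit 5) (.e (nat_lit 73782) (nat_lit 32) .nil)))) (.g (nat_lit 0) (.e (nat_lit 385801) (nat_lit 0) .nil) .nil)))) (.nd (nat_lit 9) 
(.lf (nat_lit 584065) (.g (nat_lit 1049) (.e (nat_lit 368676) (nat_lit 21) (.e (nat_lit 516120) (nat_lit 1) (.e (nat_lit 164183) (nat_lit 154) (.e (nat_lit 65280) (nat_lit 12) .nil)))) (.g (nat_lit 0) (.e (nat_lit 385357) (nat_lit 0) .nil) .nil))) 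
(.lf (nat_lit 584577) (.g (nat_lit 976) (.e (nat_lit 376862) (nat_lit 22) (.e (nat_lit 90185) (nat_lit 17) (.e (nat_lit 237569) (nat_lit 0) .nil))) (.g (nat_lit 0) (.e (nat_lit 386382) (nat_lit 0) .nil) .nil)))))) (.nd (nat_lit 7) (.nd (nat_lit 8) (.nd (nat_lit 9) 
(.lf (nat_lit 583745) (.g (nat_lit 3971) (.e (nat_lit 360473) (nat_lit 8) (.e (nat_lit 557089) (nat_lit 12) (.e (nat_lit 164020) (nat_lit 45) (.e (nat_lit 696344) (nat_lit 8) (.e (nat_lit 172067) (nat_lit 3) (.e (nat_lit 204868) (nat_lit 29) .nil)))))) (.g (nat_lit 1) (.e (nat_lit 384518) (nat_lit 0) .nil) .nil))) 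
(.lf (nat_lit 584257) (.g (nat_lit 6027) (.e (nat_lit 368676) (nat_lit 21) (.e (nat_lit 516166) (nat_lit 12) (.e (nat_lit 450588) (nat_lit 10) (.e (nat_lit 573475) (nat_lit 12) (.e (nat_lit 57348) (nat_lit 0) (.e (nat_lit 7265) (nat_lit 384) (.e (nat_lit 57430) (nat_lit 16) .nil))))))) (.g (nat_lit 1) (.e (nat_lit 385567) (nat_lit 0) .nil) .nil)))) (.nd (nat_lit 9) 
(.lf (nat_lit 584001) (.g (nat_lit 1851) (.e (nat_lit 360493) (nat_lit 27) (.e (nat_lit 819204) (nat_lit 0) (.e (nat_lit 3022) (nat_lit 187) (.e (nat_lit 450584) (nat_lit 9) (.e (nat_lit 565252) (nat_lit 0) (.e (nat_lit 1592) (nat_lit 111) .nil)))))) (.g (nat_lit 1) (.e (nat_lit 384942) (nat_lit 0) .nil) .nil))) 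
(.lf (nat_lit 584513) (.g (nat_lit 891) (.e (nat_lit 376859) (nat_lit 21) (.e (nat_lit 57848) (nat_lit 252) (.e (nat_lit 57388) (nat_lit 5) (.e (nat_lit 122624) (nat_lit 11) .nil)))) (.g (nat_lit 0) (.e (nat_lit 386268) (nat_lit 0) .nil) .nil))))) (.nd (nat_lit 8) (.nd (nat_lit 9) 
(.lf (nat_lit 583873) (.g (nat_lit 1896) (.e (nat_lit 360474) (nat_lit 8) (.e (nat_lit 557094) (nat_lit 12) (.e (nat_lit 163847) (nat_lit 0) (.e (nat_lit 6420) (nat_lit 341) (.e (nat_lit 163902) (nat_lit 12) (.e (nat_lit 425986) (nat_lit 0) (.e (nat_lit 3262) (nat_lit 198) (.e (nat_lit 540706) (nat_lit 12) .nil)))))))) (.g (nat_lit 1) (.e (nat_lit 384738) (nat_lit 0) .nil) .nil))) 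
(.lf (nat_lit 584385) (.g (nat_lit 971) (.e (nat_lit 376842) (nat_lit 11) (.e (nat_lit 426408) (nat_lit 15) (.e (nat_lit 6209) (nat_lit 333) (.e (nat_lit 57877) (nat_lit 270) .nil)))) (.g (nat_lit 0) (.e (nat_lit 386066) (nat_lit 0) .nil) .nil)))) (.nd (nat_lit 9) 
(.lf (nat_lit 584129) (.g (nat_lit 3402) (.e (nat_lit 368676) (nat_lit 21) (.e (nat_lit 516131) (nat_lit 3) (.e (nat_lit 221214) (nat_lit 23) (.e (nat_lit 204830) (nat_lit 18) (.e (nat_lit 57927) (nat_lit 282) (.e (nat_lit 163875) (nat_lit 3) (.e (nat_lit 204872) (nat_lit 30) .nil))))))) (.g (nat_lit 1) (.e (nat_lit 385431) (nat_lit 0) .nil) .nil))) 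
(.lf (nat_lit 584641) (.g (nat_lit 1289) (.e (nat_lit 376868) (nat_lit 23) (.e (nat_lit 98350) (nat_lit 24) (.e (nat_lit 409650) (nat_lit 19) (.e (nat_lit 311315) (nat_lit 3) .nil)))) (.g (nat_lit 0) (.e (nat_lit 386499) (nat_lit 0) .nil) .nil))))))) (.nd (nat_lit 6) (.nd (nat_lit 7) (.nd (nat_lit 8) (.nd (nat_lit 9) 
(.lf (nat_lit 583713) (.g (nat_lit 2846) (.e (nat_lit 360473) (nat_lit 8) (.e (nat_lit 557087) (nat_lit 11) (.e (nat_lit 24665) (nat_lit 14) (.e (nat_lit 401427) (nat_lit 3) (.e (nat_lit 204868) (nat_lit 29) .nil))))) (.g (nat_lit 1) (.e (nat_lit 384470) (nat_lit 0) .nil) .nil))) 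
(.lf (nat_lit 584225) (.g (nat_lit 4279) (.e (nat_lit 368676) (nat_lit 21) (.e (nat_lit 516165) (nat_lit 12) (.e (nat_lit 450588) (nat_lit 10) (.e (nat_lit 573475) (nat_lit 12) (.e (nat_lit 57347) (nat_lit 0) (.e (nat_lit 7261) (nat_lit 384) (.e (nat_lit 57430) (nat_lit 16) .nil))))))) (.g (nat_lit 1) (.e (nat_lit 385535) (nat_lit 0) .nil) .nil)))) (.nd (nat_lit 9) 
(.lf (nat_lit 583969) (.g (nat_lit 1872) (.e (nat_lit 360493) (nat_lit 27) (.e (nat_lit 819203) (nat_lit 0) (.e (nat_lit 3015) (nat_lit 187) (.e (nat_lit 450584) (nat_lit 9) (.e (nat_lit 565252) (nat_lit 0) (.e (nat_lit 1598) (nat_lit 111) .nil)))))) (.g (nat_lit 1) (.e (nat_lit 384900) (nat_lit 0) .nil) .nil))) 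
(.lf (nat_lit 584481) (.g (nat_lit 1061) (.e (nat_lit 376857) (nat_lit 21) (.e (nat_lit 57853) (nat_lit 252) (.e (nat_lit 57388) (nat_lit 5) (.e (nat_lit 122624) (nat_lit 11) .nil)))) (.g (nat_lit 0) (.e (nat_lit 386213) (nat_lit 0) .nil) .nil))))) (.nd (nat_lit 8) (.nd (nat_lit 9) 
(.lf (nat_lit 583841) (.g (nat_lit 2730) (.e (nat_lit 360474) (nat_lit 8) (.e (nat_lit 557093) (nat_lit 12) (.e (nat_lit 164022) (nat_lit 46) (.e (nat_lit 704629) (nat_lit 9) (.e (nat_lit 452) (nat_lit 33) (.e (nat_lit 434219) (nat_lit 19) (.e (nat_lit 499983) (nat_lit 14) (.e (nat_lit 1587) (nat_lit 111) .nil)))))))) (.g (nat_lit 1) (.e (nat_lit 384705) (nat_lit 0) .nil) .nil))) 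
(.lf (nat_lit 584353) (.g (nat_lit 1251) (.e (nat_lit 384768) (nat_lit 5) (.e (nat_lit 221207) (nat_lit 21) (.e (nat_lit 164326) (nat_lit 230) (.e (nat_lit 163933) (nat_lit 17) (.e (nat_lit 474880) (nat_lit 16) .nil))))) (.g (nat_lit 0) (.e (nat_lit 386009) (nat_lit 0) .nil) .nil)))) (.nd (nat_lit 9) 
(.lf (nat_lit 584097) (.g (nat_lit 2548) (.e (nat_lit 368676) (nat_lit 21) (.e (nat_lit 516129) (nat_lit 3) (.e (nat_lit 221215) (nat_lit 23) (.e (nat_lit 204830) (nat_lit 18) (.e (nat_lit 57926) (nat_lit 282) (.e (nat_lit 163875) (nat_lit 3) (.e (nat_lit 204872) (nat_lit 30) .nil))))))) (.g (nat_lit 1) (.e (nat_lit 385390) (nat_lit 0) .nil) .nil))) 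
(.lf (nat_lit 584609) (.g (nat_lit 2194) (.e (nat_lit 376867) (nat_lit 23) (.e (nat_lit 98313) (nat_lit 9) (.e (nat_lit 335996) (nat_lit 1) (.e (nat_lit 57931) (nat_lit 282) (.e (nat_lit 163901) (nat_lit 12) (.e (nat_lit 426555) (nat_lit 32) .nil)))))) (.g (nat_lit 1) (.e (nat_lit 386452) (nat_lit 0) .nil) .nil)))))) (.nd (nat_lit 7) (.nd (nat_lit 8) (.nd (nat_lit 9) 
(.lf (nat_lit 583777) (.g (nat_lit 2618) (.e (nat_lit 360473) (nat_lit 8) (.e (nat_lit 557093) (nat_lit 12) (.e (nat_lit 164018) (nat_lit 45) (.e (nat_lit 696328) (nat_lit 5) (.e (nat_lit 2884) (nat_lit 184) (.e (nat_lit 426140) (nat_lit 3) (.e (nat_lit 204868) (nat_lit 29) .nil))))))) (.g (nat_lit 1) (.e (nat_lit 384579) (nat_lit 0) .nil) .nil))) 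
(.lf (nat_lit 584289) (.g (nat_lit 3709) (.e (nat_lit 368678) (nat_lit 22) (.e (nat_lit 524322) (nat_lit 12) (.e (nat_lit 450588) (nat_lit 10) (.e (nat_lit 573475) (nat_lit 12) (.e (nat_lit 57353) (nat_lit 0) .nil))))) (.g (nat_lit 0) (.e (nat_lit 385629) (nat_lit 0) .nil) .nil)))) (.nd (nat_lit 9) 
(.lf (nat_lit 584033) (.g (nat_lit 2462) (.e (nat_lit 368648) (nat_lit 13) (.e (nat_lit 1374) (nat_lit 104) (.e (nat_lit 303115) (nat_lit 1) (.e (nat_lit 164187) (nat_lit 157) (.e (nat_lit 229412) (nat_lit 14) (.e (nat_lit 450304) (nat_lit 15) .nil)))))) (.g (nat_lit 1) (.e (nat_lit 385170) (nat_lit 0) .nil) .nil))) 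
(.lf (nat_lit 584545) (.g (nat_lit 4187) (.e (nat_lit 376860) (nat_lit 21) (.e (nat_lit 57853) (nat_lit 252) (.e (nat_lit 57388) (nat_lit 5) (.e (nat_lit 114698) (nat_lit 11) (.e (nat_lit 426200) (nat_lit 9) (.e (nat_lit 426555) (nat_lit 32) .nil)))))) (.g (nat_lit 1) (.e (nat_lit 386323) (nat_lit 0) .nil) .nil))))) (.nd (nat_lit 8) (.nd (nat_lit 9) 
(.lf (nat_lit 583905) (.g (nat_lit 673) (.e (nat_lit 360475) (nat_lit 8) (.e (nat_lit 557066) (nat_lit 9) (.e (nat_lit 223) (nat_lit 20) (.e (nat_lit 327699) (nat_lit 8) .nil)))) (.g (nat_lit 0) (.e (nat_lit 384775) (nat_lit 0) .nil) .nil))) 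
(.lf (nat_lit 584417) (.g (nat_lit 1928) (.e (nat_lit 376855) (nat_lit 20) (.e (nat_lit 1800) (nat_lit 119) (.e (nat_lit 516139) (nat_lit 7) (.e (nat_lit 409616) (nat_lit 10) (.e (nat_lit 5763) (nat_lit 315) .nil))))) (.g (nat_lit 0) (.e (nat_lit 386114) (nat_lit 0) .nil) .nil)))) (.nd (nat_lit 9) 
(.lf (nat_lit 584161) (.g (nat_lit 3777) (.e (nat_lit 368676) (nat_lit 21) (.e (nat_lit 516131) (nat_lit 3) (.e (nat_lit 221215) (nat_lit 23) (.e (nat_lit 204830) (nat_lit 18) (.e (nat_lit 57931) (nat_lit 282) (.e (nat_lit 163874) (nat_lit 3) (.e (nat_lit 204872) (nat_lit 30) .nil))))))) (.g (nat_lit 1) (.e (nat_lit 385468) (nat_lit 0) .nil) .nil))) 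
(.lf (nat_lit 584673) (.g (nat_lit 424) (.e (nat_lit 392960) (nat_lit 2) (.e (nat_lit 16459) (nat_lit 12) (.e (nat_lit 475169) (nat_lit 22) .nil))) (.g (nat_lit 0) (.e (nat_lit 386585) (nat_lit 0) .nil) .nil)))))))) (.nd (nat_lit 5) (.nd (nat_lit 6) (.nd (nat_lit 7) (.nd (nat_lit 8) (.nd (nat_lit 9) 
(.lf (nat_lit 583697) (.g (nat_lit 744) (.e (nat_lit 360473) (nat_lit 8) (.e (nat_lit 557087) (nat_lit 11) (.e (nat_lit 24589) (nat_lit 0) .nil))) (.g (nat_lit 0) (.e (nat_lit 384454) (nat_lit 0) .nil) .nil))) 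
(.lf (nat_lit 584209) (.g (nat_lit 3582) (.e (nat_lit 368676) (nat_lit 21) (.e (nat_lit 516165) (nat_lit 12) (.e (nat_lit 450586) (nat_lit 10) (.e (nat_lit 573475) (nat_lit 12) (.e (nat_lit 57354) (nat_lit 0) (.e (nat_lit 7270) (nat_lit 385) (.e (nat_lit 122920) (nat_lit 16) .nil))))))) (.g (nat_lit 1) (.e (nat_lit 385519) (nat_lit 0) .nil) .nil)))) (.nd (nat_lit 9) 
(.lf (nat_lit 583953) (.g (nat_lit 1871) (.e (nat_lit 360475) (nat_lit 8) (.e (nat_lit 557091) (nat_lit 12) (.e (nat_lit 164022) (nat_lit 46) (.e (nat_lit 704736) (nat_lit 11) (.e (nat_lit 16387) (nat_lit 0) (.e (nat_lit 7936) (nat_lit 197) (.e (nat_lit 532550) (nat_lit 12) .nil))))))) (.g (nat_lit 1) (.e (nat_lit 384849) (nat_lit 0) .nil) .nil))) 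
(.lf (nat_lit 584465) (.g (nat_lit 1832) (.e (nat_lit 376857) (nat_lit 21) (.e (nat_lit 57849) (nat_lit 252) (.e (nat_lit 57390) (nat_lit 5) (.e (nat_lit 114695) (nat_lit 11) (.e (nat_lit 426262) (nat_lit 9) (.e (nat_lit 426554) (nat_lit 32) .nil)))))) (.g (nat_lit 1) (.e (nat_lit 386194) (nat_lit 0) .nil) .nil))))) (.nd (nat_lit 8) (.nd (nat_lit 9) 
(.lf (nat_lit 583825) (.g (nat_lit 2683) (.e (nat_lit 360474) (nat_lit 8) (.e (nat_lit 557091) (nat_lit 12) (.e (nat_lit 163850) (nat_lit 0) (.e (nat_lit 6425) (nat_lit 342) (.e (nat_lit 229401) (nat_lit 12) .nil))))) (.g (nat_lit 0) (.e (nat_lit 384685) (nat_lit 0) .nil) .nil))) 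
(.lf (nat_lit 584337) (.g (nat_lit 1421) (.e (nat_lit 384768) (nat_lit 5) (.e (nat_lit 221206) (nat_lit 21) (.e (nat_lit 164326) (nat_lit 230) (.e (nat_lit 163907) (nat_lit 12) (.e (nat_lit 426227) (nat_lit 9) .nil))))) (.g (nat_lit 0) (.e (nat_lit 385966) (nat_lit 0) .nil) .nil)))) (.nd (nat_lit 9) 
(.lf (nat_lit 584081) (.g (nat_lit 2358) (.e (nat_lit 368676) (nat_lit 21) (.e (nat_lit 516129) (nat_lit 3) (.e (nat_lit 221214) (nat_lit 23) (.e (nat_lit 204830) (nat_lit 18) (.e (nat_lit 57927) (nat_lit 282) (.e (nat_lit 163875) (nat_lit 3) (.e (nat_lit 204872) (nat_lit 30) .nil))))))) (.g (nat_lit 1) (.e (nat_lit 385374) (nat_lit 0) .nil) .nil))) 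
(.lf (nat_lit 584593) (.g (nat_lit 1843) (.e (nat_lit 376866) (nat_lit 23) (.e (nat_lit 98350) (nat_lit 24) (.e (nat_lit 409616) (nat_lit 10) (.e (nat_lit 5762) (nat_lit 315) .nil)))) (.g (nat_lit 0) (.e (nat_lit 386429) (nat_lit 0) .nil) .nil)))))) (.nd (nat_lit 7) (.nd (nat_lit 8) (.nd (nat_lit 9) 
(.lf (nat_lit 583761) (.g (nat_lit 3145) (.e (nat_lit 360473) (nat_lit 8) (.e (nat_lit 557091) (nat_lit 12) (.e (nat_lit 164018) (nat_lit 45) (.e (nat_lit 696330) (nat_lit 5) (.e (nat_lit 2884) (nat_lit 184) (.e (nat_lit 426140) (nat_lit 3) (.e (nat_lit 204868) (nat_lit 29) .nil))))))) (.g (nat_lit 1) (.e (nat_lit 384553) (nat_lit 0) .nil) .nil))) 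
(.lf (nat_lit 584273) (.g (nat_lit 3060) (.e (nat_lit 368676) (nat_lit 21) (.e (nat_lit 516195) (nat_lit 26) (.e (nat_lit 335988) (nat_lit 1) (.e (nat_lit 57931) (nat_lit 282) (.e (nat_lit 163941) (nat_lit 19) (.e (nat_lit 483398) (nat_lit 25) .nil)))))) (.g (nat_lit 1) (.e (nat_lit 385598) (nat_lit 0) .nil) .nil)))) (.nd (nat_lit 9) 
(.lf (nat_lit 584017) (.g (nat_lit 1552) (.e (nat_lit 376576) (nat_lit 3) (.e (nat_lit 163962) (nat_lit 25) (.e (nat_lit 532481) (nat_lit 0) (.e (nat_lit 6203) (nat_lit 332) (.e (nat_lit 2798) (nat_lit 180) .nil))))) (.g (nat_lit 0) (.e (nat_lit 385042) (nat_lit 0) .nil) .nil))) 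
(.lf (nat_lit 584529) (.g (nat_lit 534) (.e (nat_lit 376859) (nat_lit 21) (.e (nat_lit 57854) (nat_lit 252) (.e (nat_lit 57388) (nat_lit 5) .nil))) (.g (nat_lit 0) (.e (nat_lit 386286) (nat_lit 0) .nil) .nil))))) (.nd (nat_lit 8) (.nd (nat_lit 9) 
(.lf (nat_lit 583889) (.g (nat_lit 2259) (.e (nat_lit 360474) (nat_lit 8) (.e (nat_lit 557094) (nat_lit 12) (.e (nat_lit 164022) (nat_lit 46) (.e (nat_lit 704737) (nat_lit 11) (.e (nat_lit 16385) (nat_lit 0) (.e (nat_lit 3262) (nat_lit 198) (.e (nat_lit 540706) (nat_lit 12) .nil))))))) (.g (nat_lit 1) (.e (nat_lit 384757) (nat_lit 0) .nil) .nil))) 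
(.lf (nat_lit 584401) (.g (nat_lit 2738) (.e (nat_lit 376842) (nat_lit 11) (.e (nat_lit 426521) (nat_lit 27) (.e (nat_lit 335988) (nat_lit 1) (.e (nat_lit 57927) (nat_lit 282) (.e (nat_lit 163874) (nat_lit 3) (.e (nat_lit 204876) (nat_lit 31) .nil)))))) (.g (nat_lit 1) (.e (nat_lit 386082) (nat_lit 0) .nil) .nil)))) (.nd (nat_lit 9) 
(.lf (nat_lit 584145) (.g (nat_lit 3701) (.e (nat_lit 368676) (nat_lit 21) (.e (nat_lit 516131) (nat_lit 3) (.e (nat_lit 221215) (nat_lit 23) (.e (nat_lit 204829) (nat_lit 18) (.e (nat_lit 57926) (nat_lit 282) (.e (nat_lit 163875) (nat_lit 3) (.e (nat_lit 204872) (nat_lit 30) .nil))))))) (.g (nat_lit 1) (.e (nat_lit 385452) (nat_lit 0) .nil) .nil))) 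
(.lf (nat_lit 584657) (.g (nat_lit 2514) (.e (nat_lit 376869) (nat_lit 23) (.e (nat_lit 98317) (nat_lit 9) (.e (nat_lit 335996) (nat_lit 1) (.e (nat_lit 57931) (nat_lit 282) (.e (nat_lit 163902) (nat_lit 12) (.e (nat_lit 426556) (nat_lit 32) .nil)))))) (.g (nat_lit 1) (.e (nat_lit 386521) (nat_lit 0) .nil) .nil))))))) (.nd (nat_lit 6) (.nd (nat_lit 7) (.nd (nat_lit 8) (.nd (nat_lit 9) 
(.lf (nat_lit 583729) (.g (nat_lit 1327) (.e (nat_lit 360473) (nat_lit 8) (.e (nat_lit 557089) (nat_lit 12) (.e (nat_lit 164007) (nat_lit 41) (.e (nat_lit 663574) (nat_lit 9) (.e (nat_lit 290) (nat_lit 21) .nil))))) (.g (nat_lit 0) (.e (nat_lit 384500) (nat_lit 0) .nil) .nil))) 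
(.lf (nat_lit 584241) (.g (nat_lit 4593) (.e (nat_lit 368676) (nat_lit 21) (.e (nat_lit 516166) (nat_lit 12) (.e (nat_lit 450587) (nat_lit 10) (.e (nat_lit 573477) (nat_lit 12) (.e (nat_lit 57353) (nat_lit 0) (.e (nat_lit 7261) (nat_lit 384) (.e (nat_lit 57431) (nat_lit 16) .nil))))))) (.g (nat_lit 1) (.e (nat_lit 385551) (nat_lit 0) .nil) .nil)))) (.nd (nat_lit 9) 
(.lf (nat_lit 583985) (.g (nat_lit 1020) (.e (nat_lit 360493) (nat_lit 27) (.e (nat_lit 819203) (nat_lit 0) (.e (nat_lit 3028) (nat_lit 187) (.e (nat_lit 450584) (nat_lit 9) (.e (nat_lit 565252) (nat_lit 0) (.e (nat_lit 1599) (nat_lit 111) .nil)))))) (.g (nat_lit 1) (.e (nat_lit 384921) (nat_lit 0) .nil) .nil))) 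
(.lf (nat_lit 584497) (.g (nat_lit 1500) (.e (nat_lit 376858) (nat_lit 21) (.e (nat_lit 57854) (nat_lit 252) (.e (nat_lit 57389) (nat_lit 5) (.e (nat_lit 114698) (nat_lit 11) .nil)))) (.g (nat_lit 0) (.e (nat_lit 386241) (nat_lit 0) .nil) .nil))))) (.nd (nat_lit 8) (.nd (nat_lit 9) 
(.lf (nat_lit 583857) (.g (nat_lit 3289) (.e (nat_lit 360474) (nat_lit 8) (.e (nat_lit 557093) (nat_lit 12) (.e (nat_lit 164022) (nat_lit 46) (.e (nat_lit 704738) (nat_lit 11) (.e (nat_lit 16390) (nat_lit 0) (.e (nat_lit 3259) (nat_lit 198) (.e (nat_lit 540706) (nat_lit 12) .nil))))))) (.g (nat_lit 1) (.e (nat_lit 384722) (nat_lit 0) .nil) .nil))) 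
(.lf (nat_lit 584369) (.g (nat_lit 998) (.e (nat_lit 376842) (nat_lit 11) (.e (nat_lit 426098) (nat_lit 1) (.e (nat_lit 164183) (nat_lit 154) (.e (nat_lit 65280) (nat_lit 12) .nil)))) (.g (nat_lit 0) (.e (nat_lit 386048) (nat_lit 0) .nil) .nil)))) (.nd (nat_lit 9) 
(.lf (nat_lit 584113) (.g (nat_lit 2781) (.e (nat_lit 368676) (nat_lit 21) (.e (nat_lit 516131) (nat_lit 3) (.e (nat_lit 221213) (nat_lit 23) (.e (nat_lit 204830) (nat_lit 18) (.e (nat_lit 57929) (nat_lit 282) (.e (nat_lit 163874) (nat_lit 3) (.e (nat_lit 204872) (nat_lit 30) .nil))))))) (.g (nat_lit 1) (.e (nat_lit 385415) (nat_lit 0) .nil) .nil))) 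
(.lf (nat_lit 584625) (.g (nat_lit 2393) (.e (nat_lit 376868) (nat_lit 23) (.e (nat_lit 98349) (nat_lit 24) (.e (nat_lit 409646) (nat_lit 18) (.e (nat_lit 303112) (nat_lit 0) (.e (nat_lit 3252) (nat_lit 197) .nil))))) (.g (nat_lit 0) (.e (nat_lit 386475) (nat_lit 0) .nil) .nil)))))) (.nd (nat_lit 7) (.nd (nat_lit 8) (.nd (nat_lit 9) 
(.lf (nat_lit 583793) (.g (nat_lit 2554) (.e (nat_lit 360473) (nat_lit 8) (.e (nat_lit 557094) (nat_lit 12) (.e (nat_lit 163847) (nat_lit 0) (.e (nat_lit 6420) (nat_lit 341) (.e (nat_lit 163908) (nat_lit 12) (.e (nat_lit 426132) (nat_lit 3) (.e (nat_lit 204868) (nat_lit 29) .nil))))))) (.g (nat_lit 1) (.e (nat_lit 384606) (nat_lit 0) .nil) .nil))) 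
(.lf (nat_lit 584305) (.g (nat_lit 1210) (.e (nat_lit 376834) (nat_lit 0) (.e (nat_lit 3632) (nat_lit 227) (.e (nat_lit 778323) (nat_lit 5) (.e (nat_lit 81664) (nat_lit 32) .nil)))) (.g (nat_lit 0) (.e (nat_lit 385732) (nat_lit 0) .nil) .nil)))) (.nd (nat_lit 9) 
(.lf (nat_lit 584049) (.g (nat_lit 4802) (.e (nat_lit 368675) (nat_lit 21) (.e (nat_lit 516166) (nat_lit 12) (.e (nat_lit 450588) (nat_lit 10) (.e (nat_lit 573475) (nat_lit 12) (.e (nat_lit 57354) (nat_lit 0) .nil))))) (.g (nat_lit 0) (.e (nat_lit 385303) (nat_lit 0) .nil) .nil))) 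
(.lf (nat_lit 584561) (.g (nat_lit 1369) (.e (nat_lit 376860) (nat_lit 21) (.e (nat_lit 57930) (nat_lit 282) (.e (nat_lit 163896) (nat_lit 10) (.e (nat_lit 409616) (nat_lit 10) (.e (nat_lit 7936) (nat_lit 319) (.e (nat_lit 245504) (nat_lit 32) .nil)))))) (.g (nat_lit 1) (.e (nat_lit 386348) (nat_lit 0) .nil) .nil))))) (.nd (nat_lit 8) (.nd (nat_lit 9) 
(.lf (nat_lit 583921) (.g (nat_lit 344) (.e (nat_lit 360475) (nat_lit 8) (.e (nat_lit 557089) (nat_lit 12) (.e (nat_lit 163843) (nat_lit 0) .nil))) (.g (nat_lit 0) (.e (nat_lit 384804) (nat_lit 0) .nil) .nil))) 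
(.lf (nat_lit 584433) (.g (nat_lit 2610) (.e (nat_lit 376855) (nat_lit 20) (.e (nat_lit 1800) (nat_lit 119) (.e (nat_lit 516139) (nat_lit 7) (.e (nat_lit 409650) (nat_lit 19) (.e (nat_lit 311314) (nat_lit 3) .nil))))) (.g (nat_lit 0) (.e (nat_lit 386131) (nat_lit 0) .nil) .nil)))) (.nd (nat_lit 9) 
(.lf (nat_lit 584177) (.g (nat_lit 3224) (.e (nat_lit 368676) (nat_lit 21) (.e (nat_lit 516139) (nat_lit 7) (.e (nat_lit 409646) (nat_lit 18) (.e (nat_lit 303119) (nat_lit 3) (.e (nat_lit 204861) (nat_lit 26) (.e (nat_lit 336185) (nat_lit 11) .nil)))))) (.g (nat_lit 1) (.e (nat_lit 385486) (nat_lit 0) .nil) .nil))) 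
(.lf (nat_lit 584689) (.g (nat_lit 4098) (.e (nat_lit 392960) (nat_lit 10) (.e (nat_lit 24630) (nat_lit 9) (.e (nat_lit 336324) (nat_lit 18) (.e (nat_lit 204831) (nat_lit 18) (.e (nat_lit 57854) (nat_lit 252) .nil))))) (.g (nat_lit 0) (.e (nat_lit 386647) (nat_lit 0) .nil) .nil))))))))) (.nd (nat_lit 4) (.nd (nat_lit 5) (.nd (nat_lit 6) (.nd (nat_lit 7) (.nd (nat_lit 8) (.nd (nat_lit 9) 
(.lf (nat_lit 583689) (.g (nat_lit 2569) (.e (nat_lit 360473) (nat_lit 8) (.e (nat_lit 557087) (nat_lit 11) (.e (nat_lit 24578) (nat_lit 0) (.e (nat_lit 6619) (nat_lit 357) (.e (nat_lit 2685) (nat_lit 168) (.e (nat_lit 204868) (nat_lit 29) .nil)))))) (.g (nat_lit 1) (.e (nat_lit 384441) (nat_lit 0) .nil) .nil))) 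
(.lf (nat_lit 584201) (.g (nat_lit 3049) (.e (nat_lit 368676) (nat_lit 21) (.e (nat_lit 516165) (nat_lit 12) (.e (nat_lit 450586) (nat_lit 10) (.e (nat_lit 573475) (nat_lit 12) (.e (nat_lit 57348) (nat_lit 0) (.e (nat_lit 7261) (nat_lit 384) (.e (nat_lit 57430) (nat_lit 16) .nil))))))) (.g (nat_lit 1) (.e (nat_lit 385511) (nat_lit 0) .nil) .nil)))) (.nd (nat_lit 9) 
(.lf (nat_lit 583945) (.g (nat_lit 3772) (.e (nat_lit 360475) (nat_lit 8) (.e (nat_lit 557090) (nat_lit 12) (.e (nat_lit 164020) (nat_lit 45) (.e (nat_lit 696343) (nat_lit 8) (.e (nat_lit 172041) (nat_lit 0) (.e (nat_lit 3262) (nat_lit 198) (.e (nat_lit 540706) (nat_lit 12) .nil))))))) (.g (nat_lit 1) (.e (nat_lit 384838) (nat_lit 0) .nil) .nil))) 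
(.lf (nat_lit 584457) (.g (nat_lit 2927) (.e (nat_lit 376857) (nat_lit 21) (.e (nat_lit 57847) (nat_lit 252) (.e (nat_lit 57390) (nat_lit 5) (.e (nat_lit 114698) (nat_lit 11) (.e (nat_lit 426190) (nat_lit 9) (.e (nat_lit 426555) (nat_lit 32) .nil)))))) (.g (nat_lit 1) (.e (nat_lit 386184) (nat_lit 0) .nil) .nil))))) (.nd (nat_lit 8) (.nd (nat_lit 9) 
(.lf (nat_lit 583817) (.g (nat_lit 712) (.e (nat_lit 360474) (nat_lit 8) (.e (nat_lit 557068) (nat_lit 9) (.e (nat_lit 214) (nat_lit 19) (.e (nat_lit 319490) (nat_lit 0) .nil)))) (.g (nat_lit 0) (.e (nat_lit 384661) (nat_lit 0) .nil) .nil))) 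
(.lf (nat_lit 584329) (.g (nat_lit 1715) (.e (nat_lit 384768) (nat_lit 0) (.e (nat_lit 3302) (nat_lit 202) (.e (nat_lit 573481) (nat_lit 13) (.e (nat_lit 65628) (nat_lit 14) (.e (nat_lit 401428) (nat_lit 3) .nil))))) (.g (nat_lit 0) (.e (nat_lit 385846) (nat_lit 0) .nil) .nil)))) (.nd (nat_lit 9) 
(.lf (nat_lit 584073) (.g (nat_lit 2731) (.e (nat_lit 368676) (nat_lit 21) (.e (nat_lit 516129) (nat_lit 3) (.e (nat_lit 221214) (nat_lit 23) (.e (nat_lit 204829) (nat_lit 18) (.e (nat_lit 57931) (nat_lit 282) (.e (nat_lit 163874) (nat_lit 3) (.e (nat_lit 204873) (nat_lit 30) .nil))))))) (.g (nat_lit 1) (.e (nat_lit 385366) (nat_lit 0) .nil) .nil))) 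
(.lf (nat_lit 584585) (.g (nat_lit 3188) (.e (nat_lit 376865) (nat_lit 22) (.e (nat_lit 90158) (nat_lit 11) (.e (nat_lit 24599) (nat_lit 1) (.e (nat_lit 57931) (nat_lit 282) (.e (nat_lit 163902) (nat_lit 12) (.e (nat_lit 426555) (nat_lit 32) .nil)))))) (.g (nat_lit 1) (.e (nat_lit 386411) (nat_lit 0) .nil) .nil)))))) (.nd (nat_lit 7) (.nd (nat_lit 8) (.nd (nat_lit 9) 
(.lf (nat_lit 583753) (.g (nat_lit 3043) (.e (nat_lit 360473) (nat_lit 8) (.e (nat_lit 557091) (nat_lit 12) (.e (nat_lit 163847) (nat_lit 0) (.e (nat_lit 6416) (nat_lit 341) (.e (nat_lit 163900) (nat_lit 12) (.e (nat_lit 426140) (nat_lit 3) (.e (nat_lit 204868) (nat_lit 29) .nil))))))) (.g (nat_lit 1) (.e (nat_lit 384528) (nat_lit 0) .nil) .nil))) 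
(.lf (nat_lit 584265) (.g (nat_lit 5021) (.e (nat_lit 368676) (nat_lit 21) (.e (nat_lit 516166) (nat_lit 12) (.e (nat_lit 450588) (nat_lit 10) (.e (nat_lit 573475) (nat_lit 12) (.e (nat_lit 57353) (nat_lit 0) (.e (nat_lit 7266) (nat_lit 384) (.e (nat_lit 57431) (nat_lit 16) .nil))))))) (.g (nat_lit 1) (.e (nat_lit 385575) (nat_lit 0) .nil) .nil)))) (.nd (nat_lit 9) 
(.lf (nat_lit 584009) (.g (nat_lit 1898) (.e (nat_lit 360493) (nat_lit 27) (.e (nat_lit 819204) (nat_lit 0) (.e (nat_lit 3027) (nat_lit 187) (.e (nat_lit 450584) (nat_lit 9) (.e (nat_lit 565252) (nat_lit 0) (.e (nat_lit 1592) (nat_lit 111) .nil)))))) (.g (nat_lit 1) (.e (nat_lit 384950) (nat_lit 0) .nil) .nil))) 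
(.lf (nat_lit 584521) (.g (nat_lit 1879) (.e (nat_lit 376859) (nat_lit 21) (.e (nat_lit 57849) (nat_lit 252) (.e (nat_lit 57390) (nat_lit 5) (.e (nat_lit 114696) (nat_lit 11) (.e (nat_lit 426230) (nat_lit 9) (.e (nat_lit 426554) (nat_lit 32) .nil)))))) (.g (nat_lit 1) (.e (nat_lit 386278) (nat_lit 0) .nil) .nil))))) (.nd (nat_lit 8) (.nd (nat_lit 9) 
(.lf (nat_lit 583881) (.g (nat_lit 2494) (.e (nat_lit 360474) (nat_lit 8) (.e (nat_lit 557094) (nat_lit 12) (.e (nat_lit 164022) (nat_lit 46) (.e (nat_lit 704629) (nat_lit 9) (.e (nat_lit 452) (nat_lit 33) (.e (nat_lit 434219) (nat_lit 19) (.e (nat_lit 499977) (nat_lit 14) (.e (nat_lit 1587) (nat_lit 111) .nil)))))))) (.g (nat_lit 1) (.e (nat_lit 384747) (nat_lit 0) .nil) .nil))) 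
(.lf (nat_lit 584393) (.g (nat_lit 3435) (.e (nat_lit 376842) (nat_lit 11) (.e (nat_lit 426500) (nat_lit 27) (.e (nat_lit 335988) (nat_lit 1) (.e (nat_lit 57931) (nat_lit 282) (.e (nat_lit 163874) (nat_lit 3) (.e (nat_lit 204876) (nat_lit 31) .nil)))))) (.g (nat_lit 1) (.e (nat_lit 386074) (nat_lit 0) .nil) .nil)))) (.nd (nat_lit 9) 
(.lf (nat_lit 584137) (.g (nat_lit 2934) (.e (nat_lit 368676) (nat_lit 21) (.e (nat_lit 516131) (nat_lit 3) (.e (nat_lit 221215) (nat_lit 23) (.e (nat_lit 204828) (nat_lit 18) (.e (nat_lit 57926) (nat_lit 282) (.e (nat_lit 163875) (nat_lit 3) (.e (nat_lit 204872) (nat_lit 30) .nil))))))) (.g (nat_lit 1) (.e (nat_lit 385444) (nat_lit 0) .nil) .nil))) 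
(.lf (nat_lit 584649) (.g (nat_lit 2575) (.e (nat_lit 376869) (nat_lit 23) (.e (nat_lit 98313) (nat_lit 9) (.e (nat_lit 335996) (nat_lit 1) (.e (nat_lit 57929) (nat_lit 282) (.e (nat_lit 163904) (nat_lit 12) (.e (nat_lit 426555) (nat_lit 32) .nil)))))) (.g (nat_lit 1) (.e (nat_lit 386511) (nat_lit 0) .nil) .nil))))))) (.nd (nat_lit 6) (.nd (nat_lit 7) (.nd (nat_lit 8) (.nd (nat_lit 9) 
(.lf (nat_lit 583721) (.g (nat_lit 3109) (.e (nat_lit 360473) (nat_lit 8) (.e (nat_lit 557089) (nat_lit 12) (.e (nat_lit 163849) (nat_lit 0) (.e (nat_lit 6420) (nat_lit 341) (.e (nat_lit 163900) (nat_lit 12) (.e (nat_lit 426140) (nat_lit 3) (.e (nat_lit 204868) (nat_lit 29) .nil))))))) (.g (nat_lit 1) (.e (nat_lit 384487) (nat_lit 0) .nil) .nil))) 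
(.lf (nat_lit 584233) (.g (nat_lit 3758) (.e (nat_lit 368676) (nat_lit 21) (.e (nat_lit 516165) (nat_lit 12) (.e (nat_lit 450588) (nat_lit 10) (.e (nat_lit 573475) (nat_lit 12) (.e (nat_lit 57351) (nat_lit 0) (.e (nat_lit 7261) (nat_lit 384) (.e (nat_lit 57431) (nat_lit 16) .nil))))))) (.g (nat_lit 1) (.e (nat_lit 385543) (nat_lit 0) .nil) .nil)))) (.nd (nat_lit 9) 
(.lf (nat_lit 583977) (.g (nat_lit 1057) (.e (nat_lit 360493) (nat_lit 27) (.e (nat_lit 819203) (nat_lit 0) (.e (nat_lit 3021) (nat_lit 187) (.e (nat_lit 450584) (nat_lit 9) (.e (nat_lit 565252) (nat_lit 0) (.e (nat_lit 1599) (nat_lit 111) .nil)))))) (.g (nat_lit 1) (.e (nat_lit 384910) (nat_lit 0) .nil) .nil))) 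
(.lf (nat_lit 584489) (.g (nat_lit 659) (.e (nat_lit 376858) (nat_lit 21) (.e (nat_lit 57847) (nat_lit 252) (.e (nat_lit 57388) (nat_lit 5) .nil))) (.g (nat_lit 0) (.e (nat_lit 386233) (nat_lit 0) .nil) .nil))))) (.nd (nat_lit 8) (.nd (nat_lit 9) 
(.lf (nat_lit 583849) (.g (nat_lit 2718) (.e (nat_lit 360474) (nat_lit 8) (.e (nat_lit 557093) (nat_lit 12) (.e (nat_lit 164022) (nat_lit 46) (.e (nat_lit 704737) (nat_lit 11) (.e (nat_lit 16392) (nat_lit 0) (.e (nat_lit 7936) (nat_lit 197) (.e (nat_lit 532550) (nat_lit 12) .nil))))))) (.g (nat_lit 1) (.e (nat_lit 384714) (nat_lit 0) .nil) .nil))) 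
(.lf (nat_lit 584361) (.g (nat_lit 1505) (.e (nat_lit 376838) (nat_lit 11) (.e (nat_lit 426107) (nat_lit 1) (.e (nat_lit 164182) (nat_lit 154) (.e (nat_lit 57411) (nat_lit 12) .nil)))) (.g (nat_lit 0) (.e (nat_lit 386036) (nat_lit 0) .nil) .nil)))) (.nd (nat_lit 9) 
(.lf (nat_lit 584105) (.g (nat_lit 2503) (.e (nat_lit 368676) (nat_lit 21) (.e (nat_lit 516131) (nat_lit 3) (.e (nat_lit 221213) (nat_lit 23) (.e (nat_lit 204829) (nat_lit 18) (.e (nat_lit 57926) (nat_lit 282) (.e (nat_lit 163875) (nat_lit 3) (.e (nat_lit 204872) (nat_lit 30) .nil))))))) (.g (nat_lit 1) (.e (nat_lit 385407) (nat_lit 0) .nil) .nil))) 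
(.lf (nat_lit 584617) (.g (nat_lit 2051) (.e (nat_lit 376867) (nat_lit 23) (.e (nat_lit 98350) (nat_lit 24) (.e (nat_lit 409644) (nat_lit 18) (.e (nat_lit 303112) (nat_lit 0) (.e (nat_lit 3252) (nat_lit 197) .nil))))) (.g (nat_lit 0) (.e (nat_lit 386465) (nat_lit 0) .nil) .nil)))))) (.nd (nat_lit 7) (.nd (nat_lit 8) (.nd (nat_lit 9) 
(.lf (nat_lit 583785) (.g (nat_lit 3241) (.e (nat_lit 360473) (nat_lit 8) (.e (nat_lit 557093) (nat_lit 12) (.e (nat_lit 164023) (nat_lit 46) (.e (nat_lit 704629) (nat_lit 9) (.e (nat_lit 375) (nat_lit 32) (.e (nat_lit 426140) (nat_lit 3) (.e (nat_lit 204868) (nat_lit 29) .nil))))))) (.g (nat_lit 1) (.e (nat_lit 384595) (nat_lit 0) .nil) .nil))) 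
(.lf (nat_lit 584297) (.g (nat_lit 576) (.e (nat_lit 368698) (nat_lit 43) (.e (nat_lit 770072) (nat_lit 8) (.e (nat_lit 65616) (nat_lit 10) .nil))) (.g (nat_lit 0) (.e (nat_lit 385664) (nat_lit 0) .nil) .nil)))) (.nd (nat_lit 9) 
(.lf (nat_lit 584041) (.g (nat_lit 453) (.e (nat_lit 368663) (nat_lit 18) (.e (nat_lit 5905) (nat_lit 320) (.e (nat_lit 1211) (nat_lit 89) .nil))) (.g (nat_lit 0) (.e (nat_lit 385266) (nat_lit 0) .nil) .nil))) 
(.lf (nat_lit 584553) (.g (nat_lit 3918) (.e (nat_lit 376860) (nat_lit 21) (.e (nat_lit 57854) (nat_lit 252) (.e (nat_lit 57389) (nat_lit 5) (.e (nat_lit 114698) (nat_lit 11) (.e (nat_lit 426188) (nat_lit 9) (.e (nat_lit 426555) (nat_lit 32) .nil)))))) (.g (nat_lit 1) (.e (nat_lit 386340) (nat_lit 0) .nil) .nil))))) (.nd (nat_lit 8) (.nd (nat_lit 9) 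
(.lf (nat_lit 583913) (.g (nat_lit 395) (.e (nat_lit 360475) (nat_lit 8) (.e (nat_lit 557087) (nat_lit 11) (.e (nat_lit 24578) (nat_lit 0) .nil))) (.g (nat_lit 0) (.e (nat_lit 384794) (nat_lit 0) .nil) .nil))) 
(.lf (nat_lit 584425) (.g (nat_lit 2046) (.e (nat_lit 376855) (nat_lit 20) (.e (nat_lit 1800) (nat_lit 119) (.e (nat_lit 516139) (nat_lit 7) (.e (nat_lit 409648) (nat_lit 18) (.e (nat_lit 303108) (nat_lit 0) (.e (nat_lit 3251) (nat_lit 197) (.e (nat_lit 532560) (nat_lit 14) .nil))))))) (.g (nat_lit 1) (.e (nat_lit 386122) (nat_lit 0) .nil) .nil)))) (.nd (nat_lit 9) 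
(.lf (nat_lit 584169) (.g (nat_lit 2558) (.e (nat_lit 368676) (nat_lit 21) (.e (nat_lit 516138) (nat_lit 7) (.e (nat_lit 409646) (nat_lit 18) (.e (nat_lit 303112) (nat_lit 0) (.e (nat_lit 3252) (nat_lit 197) .nil))))) (.g (nat_lit 0) (.e (nat_lit 385477) (nat_lit 0) .nil) .nil))) 
(.lf (nat_lit 584681) (.g (nat_lit 2582) (.e (nat_lit 392960) (nat_lit 8) (.e (nat_lit 3062) (nat_lit 190) (.e (nat_lit 475179) (nat_lit 24) (.e (nat_lit 516117) (nat_lit 1) (.e (nat_lit 164330) (nat_lit 230) .nil))))) (.g (nat_lit 0) (.e (nat_lit 386631) (nat_lit 0) .nil) .nil)))))))) (.nd (nat_lit 5) (.nd (nat_lit 6) (.nd (nat_lit 7) (.nd (nat_lit 8) (.nd (nat_lit 9) 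
(.lf (nat_lit 583705) (.g (nat_lit 3221) (.e (nat_lit 360473) (nat_lit 8) (.e (nat_lit 557087) (nat_lit 11) (.e (nat_lit 24662) (nat_lit 14) (.e (nat_lit 401428) (nat_lit 3) (.e (nat_lit 204868) (nat_lit 29) .nil))))) (.g (nat_lit 1) (.e (nat_lit 384462) (nat_lit 0) .nil) .nil))) 
(.lf (nat_lit 584217) (.g (nat_lit 4429) (.e (nat_lit 368676) (nat_lit 21) (.e (nat_lit 516165) (nat_lit 12) (.e (nat_lit 450588) (nat_lit 10) (.e (nat_lit 573473) (nat_lit 12) (.e (nat_lit 57348) (nat_lit 0) (.e (nat_lit 7266) (nat_lit 384) (.e (nat_lit 57431) (nat_lit 16) .nil))))))) (.g (nat_lit 1) (.e (nat_lit 385527) (nat_lit 0) .nil) .nil)))) (.nd (nat_lit 9) 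
(.lf (nat_lit 583961) (.g (nat_lit 3200) (.e (nat_lit 360475) (nat_lit 8) (.e (nat_lit 557091) (nat_lit 12) (.e (nat_lit 164022) (nat_lit 46) (.e (nat_lit 704738) (nat_lit 11) (.e (nat_lit 16399) (nat_lit 0) (.e (nat_lit 3258) (nat_lit 198) (.e (nat_lit 540706) (nat_lit 12) .nil))))))) (.g (nat_lit 1) (.e (nat_lit 384857) (nat_lit 0) .nil) .nil))) 
(.lf (nat_lit 584473) (.g (nat_lit 842) (.e (nat_lit 376857) (nat_lit 21) (.e (nat_lit 57852) (nat_lit 252) (.e (nat_lit 57345) (nat_lit 0) .nil))) (.g (nat_lit 0) (.e (nat_lit 386203) (nat_lit 0) .nil) .nil))))) (.nd (nat_lit 8) (.nd (nat_lit 9) 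
(.lf (nat_lit 583833) (.g (nat_lit 1260) (.e (nat_lit 360474) (nat_lit 8) (.e (nat_lit 557093) (nat_lit 12) (.e (nat_lit 164022) (nat_lit 46) (.e (nat_lit 704629) (nat_lit 9) .nil)))) (.g (nat_lit 0) (.e (nat_lit 384697) (nat_lit 0) .nil) .nil))) 
(.lf (nat_lit 584345) (.g (nat_lit 1886) (.e (nat_lit 384768) (nat_lit 5) (.e (nat_lit 221207) (nat_lit 21) (.e (nat_lit 164325) (nat_lit 230) (.e (nat_lit 163903) (nat_lit 12) (.e (nat_lit 426227) (nat_lit 9) .nil))))) (.g (nat_lit 0) (.e (nat_lit 385996) (nat_lit 0) .nil) .nil)))) (.nd (nat_lit 9) 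
(.lf (nat_lit 584089) (.g (nat_lit 2365) (.e (nat_lit 368676) (nat_lit 21) (.e (nat_lit 516129) (nat_lit 3) (.e (nat_lit 221215) (nat_lit 23) (.e (nat_lit 204829) (nat_lit 18) (.e (nat_lit 57926) (nat_lit 282) (.e (nat_lit 163875) (nat_lit 3) (.e (nat_lit 204873) (nat_lit 30) .nil))))))) (.g (nat_lit 1) (.e (nat_lit 385382) (nat_lit 0) .nil) .nil))) 
(.lf (nat_lit 584601) (.g (nat_lit 2734) (.e (nat_lit 376867) (nat_lit 23) (.e (nat_lit 98313) (nat_lit 9) (.e (nat_lit 335986) (nat_lit 1) (.e (nat_lit 57927) (nat_lit 282) (.e (nat_lit 163907) (nat_lit 12) (.e (nat_lit 426555) (nat_lit 32) .nil)))))) (.g (nat_lit 1) (.e (nat_lit 386440) (nat_lit 0) .nil) .nil)))))) (.nd (nat_lit 7) (.nd (nat_lit 8) (.nd (nat_lit 9) 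
(.lf (nat_lit 583769) (.g (nat_lit 2818) (.e (nat_lit 360473) (nat_lit 8) (.e (nat_lit 557091) (nat_lit 12) (.e (nat_lit 164022) (nat_lit 46) (.e (nat_lit 704629) (nat_lit 9) (.e (nat_lit 386) (nat_lit 32) (.e (nat_lit 426129) (nat_lit 3) (.e (nat_lit 204868) (nat_lit 29) .nil))))))) (.g (nat_lit 1) (.e (nat_lit 384565) (nat_lit 0) .nil) .nil))) 
(.lf (nat_lit 584281) (.g (nat_lit 1640) (.e (nat_lit 368677) (nat_lit 21) (.e (nat_lit 516139) (nat_lit 7) (.e (nat_lit 409646) (nat_lit 18) (.e (nat_lit 303112) (nat_lit 0) .nil)))) (.g (nat_lit 0) (.e (nat_lit 385620) (nat_lit 0) .nil) .nil)))) (.nd (nat_lit 9) 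
(.lf (nat_lit 584025) (.g (nat_lit 1698) (.e (nat_lit 376576) (nat_lit 5) (.e (nat_lit 180228) (nat_lit 0) (.e (nat_lit 6425) (nat_lit 342) (.e (nat_lit 229412) (nat_lit 14) (.e (nat_lit 450304) (nat_lit 15) .nil))))) (.g (nat_lit 0) (.e (nat_lit 385115) (nat_lit 0) .nil) .nil))) 
(.lf (nat_lit 584537) (.g (nat_lit 1677) (.e (nat_lit 376860) (nat_lit 21) (.e (nat_lit 57830) (nat_lit 250) (.e (nat_lit 7936) (nat_lit 166) (.e (nat_lit 188440) (nat_lit 20) (.e (nat_lit 3391) (nat_lit 210) (.e (nat_lit 639004) (nat_lit 13) (.e (nat_lit 1615) (nat_lit 113) .nil))))))) (.g (nat_lit 1) (.e (nat_lit 386301) (nat_lit 0) .nil) .nil))))) (.nd (nat_lit 8) (.nd (nat_lit 9) 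
(.lf (nat_lit 583897) (.g (nat_lit 2743) (.e (nat_lit 360474) (nat_lit 8) (.e (nat_lit 557094) (nat_lit 12) (.e (nat_lit 164022) (nat_lit 46) (.e (nat_lit 704738) (nat_lit 11) (.e (nat_lit 16385) (nat_lit 0) (.e (nat_lit 3259) (nat_lit 198) (.e (nat_lit 540706) (nat_lit 12) .nil))))))) (.g (nat_lit 1) (.e (nat_lit 384765) (nat_lit 0) .nil) .nil))) 
(.lf (nat_lit 584409) (.g (nat_lit 535) (.e (nat_lit 376843) (nat_lit 20) (.e (nat_lit 1788) (nat_lit 119) (.e (nat_lit 516139) (nat_lit 7) .nil))) (.g (nat_lit 0) (.e (nat_lit 386099) (nat_lit 0) .nil) .nil)))) (.nd (nat_lit 9) 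
(.lf (nat_lit 584153) (.g (nat_lit 3924) (.e (nat_lit 368676) (nat_lit 21) (.e (nat_lit 516131) (nat_lit 3) (.e (nat_lit 221215) (nat_lit 23) (.e (nat_lit 204830) (nat_lit 18) (.e (nat_lit 57926) (nat_lit 282) (.e (nat_lit 163874) (nat_lit 3) (.e (nat_lit 204872) (nat_lit 30) .nil))))))) (.g (nat_lit 1) (.e (nat_lit 385460) (nat_lit 0) .nil) .nil))) 
(.lf (nat_lit 584665) (.g (nat_lit 2001) (.e (nat_lit 376869) (nat_lit 23) (.e (nat_lit 98350) (nat_lit 24) (.e (nat_lit 409649) (nat_lit 18) (.e (nat_lit 303107) (nat_lit 0) .nil)))) (.g (nat_lit 0) (.e (nat_lit 386544) (nat_lit 0) .nil) .nil))))))) (.nd (nat_lit 6) (.nd (nat_lit 7) (.nd (nat_lit 8) (.nd (nat_lit 9) 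
(.lf (nat_lit 583737) (.g (nat_lit 3545) (.e (nat_lit 360473) (nat_lit 8) (.e (nat_lit 557089) (nat_lit 12) (.e (nat_lit 164020) (nat_lit 45) (.e (nat_lit 696328) (nat_lit 5) (.e (nat_lit 2980) (nat_lit 185) (.e (nat_lit 434231) (nat_lit 23) (.e (nat_lit 532549) (nat_lit 12) .nil))))))) (.g (nat_lit 1) (.e (nat_lit 384510) (nat_lit 0) .nil) .nil))) 
(.lf (nat_lit 584249) (.g (nat_lit 5156) (.e (nat_lit 368676) (nat_lit 21) (.e (nat_lit 516166) (nat_lit 12) (.e (nat_lit 450588) (nat_lit 10) (.e (nat_lit 573473) (nat_lit 12) (.e (nat_lit 57347) (nat_lit 0) (.e (nat_lit 7261) (nat_lit 384) (.e (nat_lit 57430) (nat_lit 16) .nil))))))) (.g (nat_lit 1) (.e (nat_lit 385559) (nat_lit 0) .nil) .nil)))) (.nd (nat_lit 9) 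
(.lf (nat_lit 583993) (.g (nat_lit 2115) (.e (nat_lit 360493) (nat_lit 27) (.e (nat_lit 819204) (nat_lit 0) (.e (nat_lit 3016) (nat_lit 187) (.e (nat_lit 450584) (nat_lit 9) (.e (nat_lit 565252) (nat_lit 0) (.e (nat_lit 1586) (nat_lit 111) .nil)))))) (.g (nat_lit 1) (.e (nat_lit 384931) (nat_lit 0) .nil) .nil))) 
(.lf (nat_lit 584505) (.g (nat_lit 1971) (.e (nat_lit 376859) (nat_lit 21) (.e (nat_lit 57846) (nat_lit 252) (.e (nat_lit 57389) (nat_lit 5) (.e (nat_lit 114698) (nat_lit 11) (.e (nat_lit 426197) (nat_lit 9) (.e (nat_lit 426556) (nat_lit 32) .nil)))))) (.g (nat_lit 1) (.e (nat_lit 386258) (nat_lit 0) .nil) .nil))))) (.nd (nat_lit 8) (.nd (nat_lit 9) 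
(.lf (nat_lit 583865) (.g (nat_lit 3773) (.e (nat_lit 360474) (nat_lit 8) (.e (nat_lit 557093) (nat_lit 12) (.e (nat_lit 164023) (nat_lit 46) (.e (nat_lit 704737) (nat_lit 11) (.e (nat_lit 16388) (nat_lit 0) (.e (nat_lit 7936) (nat_lit 197) (.e (nat_lit 532550) (nat_lit 12) .nil))))))) (.g (nat_lit 1) (.e (nat_lit 384730) (nat_lit 0) .nil) .nil))) 
(.lf (nat_lit 584377) (.g (nat_lit 1405) (.e (nat_lit 376842) (nat_lit 11) (.e (nat_lit 426107) (nat_lit 1) (.e (nat_lit 164183) (nat_lit 154) (.e (nat_lit 57409) (nat_lit 12) .nil)))) (.g (nat_lit 0) (.e (nat_lit 386057) (nat_lit 0) .nil) .nil)))) (.nd (nat_lit 9) 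
(.lf (nat_lit 584121) (.g (nat_lit 3827) (.e (nat_lit 368676) (nat_lit 21) (.e (nat_lit 516131) (nat_lit 3) (.e (nat_lit 221214) (nat_lit 23) (.e (nat_lit 204829) (nat_lit 18) (.e (nat_lit 57931) (nat_lit 282) (.e (nat_lit 163874) (nat_lit 3) (.e (nat_lit 204872) (nat_lit 30) .nil))))))) (.g (nat_lit 1) (.e (nat_lit 385423) (nat_lit 0) .nil) .nil))) 
(.lf (nat_lit 584633) (.g (nat_lit 1914) (.e (nat_lit 376868) (nat_lit 23) (.e (nat_lit 98350) (nat_lit 24) (.e (nat_lit 409647) (nat_lit 18) (.e (nat_lit 303112) (nat_lit 0) (.e (nat_lit 3252) (nat_lit 197) .nil))))) (.g (nat_lit 0) (.e (nat_lit 386488) (nat_lit 0) .nil) .nil)))))) (.nd (nat_lit 7) (.nd (nat_lit 8) (.nd (nat_lit 9) 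
(.lf (nat_lit 583801) (.g (nat_lit 2884) (.e (nat_lit 360473) (nat_lit 8) (.e (nat_lit 557094) (nat_lit 12) (.e (nat_lit 164018) (nat_lit 45) (.e (nat_lit 696329) (nat_lit 5) (.e (nat_lit 2964) (nat_lit 185) (.e (nat_lit 434231) (nat_lit 23) (.e (nat_lit 532549) (nat_lit 12) .nil))))))) (.g (nat_lit 1) (.e (nat_lit 384630) (nat_lit 0) .nil) .nil))) 
(.lf (nat_lit 584313) (.g (nat_lit 3261) (.e (nat_lit 376835) (nat_lit 0) (.e (nat_lit 3305) (nat_lit 202) (.e (nat_lit 573482) (nat_lit 13) (.e (nat_lit 65630) (nat_lit 14) (.e (nat_lit 401428) (nat_lit 3) (.e (nat_lit 204876) (nat_lit 31) .nil)))))) (.g (nat_lit 1) (.e (nat_lit 385774) (nat_lit 0) .nil) .nil)))) (.nd (nat_lit 9) 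
(.lf (nat_lit 584057) (.g (nat_lit 1365) (.e (nat_lit 368676) (nat_lit 21) (.e (nat_lit 516116) (nat_lit 1) (.e (nat_lit 164182) (nat_lit 154) (.e (nat_lit 57411) (nat_lit 12) .nil)))) (.g (nat_lit 0) (.e (nat_lit 385334) (nat_lit 0) .nil) .nil))) 
(.lf (nat_lit 584569) (.g (nat_lit 1019) (.e (nat_lit 376860) (nat_lit 21) (.e (nat_lit 57931) (nat_lit 282) (.e (nat_lit 163896) (nat_lit 10) (.e (nat_lit 409616) (nat_lit 10) .nil)))) (.g (nat_lit 0) (.e (nat_lit 386361) (nat_lit 0) .nil) .nil))))) (.nd (nat_lit 8) (.nd (nat_lit 9) 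
(.lf (nat_lit 583929) (.g (nat_lit 3866) (.e (nat_lit 360475) (nat_lit 8) (.e (nat_lit 557090) (nat_lit 12) (.e (nat_lit 163844) (nat_lit 0) (.e (nat_lit 6420) (nat_lit 341) (.e (nat_lit 163902) (nat_lit 12) (.e (nat_lit 425986) (nat_lit 0) (.e (nat_lit 3262) (nat_lit 198) (.e (nat_lit 540706) (nat_lit 12) .nil)))))))) (.g (nat_lit 1) (.e (nat_lit 384814) (nat_lit 0) .nil) .nil))) 
(.lf (nat_lit 584441) (.g (nat_lit 1642) (.e (nat_lit 376856) (nat_lit 21) (.e (nat_lit 57849) (nat_lit 252) (.e (nat_lit 57388) (nat_lit 5) (.e (nat_lit 114697) (nat_lit 11) .nil)))) (.g (nat_lit 0) (.e (nat_lit 386153) (nat_lit 0) .nil) .nil)))) (.nd (nat_lit 9) 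
(.lf (nat_lit 584185) (.g (nat_lit 3697) (.e (nat_lit 368676) (nat_lit 21) (.e (nat_lit 516146) (nat_lit 9) (.e (nat_lit 426422) (nat_lit 16) (.e (nat_lit 57691) (nat_lit 156) (.e (nat_lit 163875) (nat_lit 3) (.e (nat_lit 204829) (nat_lit 18) (.e (nat_lit 57847) (nat_lit 252) (.e (nat_lit 57430) (nat_lit 16) .nil)))))))) (.g (nat_lit 1) (.e (nat_lit 385495) (nat_lit 0) .nil) .nil))) 
(.lf (nat_lit 584697) (.g (nat_lit 1503) (.e (nat_lit 385064) (nat_lit 26) (.e (nat_lit 532503) (nat_lit 1) (.e (nat_lit 57847) (nat_lit 252) (.e (nat_lit 57411) (nat_lit 12) (.e (nat_lit 336456) (nat_lit 34) .nil))))) (.g (nat_lit 0) (.e (nat_lit 386692) (nat_lit 0) .nil) .nil)))))))))) 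
(.nd (nat_lit 3) (.nd (nat_lit 4) (.nd (nat_lit 5) (.nd (nat_lit 6) (.nd (nat_lit 7) 
(.nd (nat_lit 8) (.nd (nat_lit 9) 
(.lf (nat_lit 583685) (.g (nat_lit 779) (.e (nat_lit 360473) (nat_lit 8) (.e (nat_lit 557067) (nat_lit 9) (.e (nat_lit 2467) (nat_lit 157) (.e (nat_lit 3469) (nat_lit 217) .nil)))) (.g (nat_lit 0) (.e (nat_lit 384419) (nat_lit 0) .nil) .nil))) 
(.lf (nat_lit 584197) (.g (nat_lit 3501) (.e (nat_lit 368676) (nat_lit 21) (.e (nat_lit 516165) (nat_lit 12) (.e (nat_lit 450586) (nat_lit 10) (.e (nat_lit 573473) (nat_lit 12) (.e (nat_lit 57354) (nat_lit 0) (.e (nat_lit 7270) (nat_lit 385) (.e (nat_lit 122920) (nat_lit 16) .nil))))))) (.g (nat_lit 1) (.e (nat_lit 385507) (nat_lit 0) .nil) .nil)))) (.nd (nat_lit 9) 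
(.lf (nat_lit 583941) (.g (nat_lit 2569) (.e (nat_lit 360475) (nat_lit 8) (.e (nat_lit 557090) (nat_lit 12) (.e (nat_lit 164020) (nat_lit 45) (.e (nat_lit 696329) (nat_lit 5) (.e (nat_lit 2980) (nat_lit 185) (.e (nat_lit 434231) (nat_lit 23) (.e (nat_lit 540416) (nat_lit 12) .nil))))))) (.g (nat_lit 1) (.e (nat_lit 384833) (nat_lit 0) .nil) .nil))) 
(.lf (nat_lit 584453) (.g (nat_lit 1827) (.e (nat_lit 376857) (nat_lit 21) (.e (nat_lit 57846) (nat_lit 252) (.e (nat_lit 57390) (nat_lit 5) (.e (nat_lit 114695) (nat_lit 11) (.e (nat_lit 426262) (nat_lit 9) (.e (nat_lit 426554) (nat_lit 32) .nil)))))) (.g (nat_lit 1) (.e (nat_lit 386177) (nat_lit 0) .nil) .nil))))) (.nd (nat_lit 8) (.nd (nat_lit 9) 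
(.lf (nat_lit 583813) (.g (nat_lit 4051) (.e (nat_lit 360473) (nat_lit 8) (.e (nat_lit 557094) (nat_lit 12) (.e (nat_lit 164022) (nat_lit 46) (.e (nat_lit 704629) (nat_lit 9) (.e (nat_lit 375) (nat_lit 32) (.e (nat_lit 426140) (nat_lit 3) (.e (nat_lit 204868) (nat_lit 29) .nil))))))) (.g (nat_lit 1) (.e (nat_lit 384651) (nat_lit 0) .nil) .nil))) 
(.lf (nat_lit 584325) (.g (nat_lit 1720) (.e (nat_lit 376835) (nat_lit 0) (.e (nat_lit 3632) (nat_lit 227) (.e (nat_lit 778323) (nat_lit 5) (.e (nat_lit 73782) (nat_lit 32) (.e (nat_lit 2857) (nat_lit 184) (.e (nat_lit 426553) (nat_lit 32) .nil)))))) (.g (nat_lit 1) (.e (nat_lit 385805) (nat_lit 0) .nil) .nil)))) (.nd (nat_lit 9) 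
(.lf (nat_lit 584069) (.g (nat_lit 2770) (.e (nat_lit 368676) (nat_lit 21) (.e (nat_lit 516129) (nat_lit 3) (.e (nat_lit 221214) (nat_lit 23) (.e (nat_lit 204829) (nat_lit 18) (.e (nat_lit 57927) (nat_lit 282) (.e (nat_lit 163874) (nat_lit 3) (.e (nat_lit 204873) (nat_lit 30) .nil))))))) (.g (nat_lit 1) (.e (nat_lit 385362) (nat_lit 0) .nil) .nil))) 
(.lf (nat_lit 584581) (.g (nat_lit 3822) (.e (nat_lit 376863) (nat_lit 22) (.e (nat_lit 90130) (nat_lit 9) (.e (nat_lit 2830) (nat_lit 182) (.e (nat_lit 409649) (nat_lit 18) (.e (nat_lit 303117) (nat_lit 2) (.e (nat_lit 196630) (nat_lit 9) (.e (nat_lit 1616) (nat_lit 113) .nil))))))) (.g (nat_lit 1) (.e (nat_lit 386392) (nat_lit 0) .nil) .nil)))))) 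
(.nd (nat_lit 7) (.nd (nat_lit 8) (.nd (nat_lit 9) 
(.lf (nat_lit 583749) (.g (nat_lit 3141) (.e (nat_lit 360473) (nat_lit 8) (.e (nat_lit 557091) (nat_lit 12) (.e (nat_lit 163843) (nat_lit 0) (.e (nat_lit 6421) (nat_lit 341) (.e (nat_lit 163909) (nat_lit 12) (.e (nat_lit 426140) (nat_lit 3) (.e (nat_lit 204868) (nat_lit 29) .nil))))))) (.g (nat_lit 1) (.e (nat_lit 384524) (nat_lit 0) .nil) .nil))) 
(.lf (nat_lit 584261) (.g (nat_lit 5359) (.e (nat_lit 368676) (nat_lit 21) (.e (nat_lit 516166) (nat_lit 12) (.e (nat_lit 450588) (nat_lit 10) (.e (nat_lit 573475) (nat_lit 12) (.e (nat_lit 57353) (nat_lit 0) (.e (nat_lit 7261) (nat_lit 384) (.e (nat_lit 57432) (nat_lit 16) .nil))))))) (.g (nat_lit 1) (.e (nat_lit 385571) (nat_lit 0) .nil) .nil)))) (.nd (nat_lit 9) 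
(.lf (nat_lit 584005) (.g (nat_lit 868) (.e (nat_lit 360493) (nat_lit 27) (.e (nat_lit 819204) (nat_lit 0) (.e (nat_lit 3027) (nat_lit 187) (.e (nat_lit 458496) (nat_lit 4) .nil)))) (.g (nat_lit 0) (.e (nat_lit 384946) (nat_lit 0) .nil) .nil))) 
(.lf (nat_lit 584517) (.g (nat_lit 3508) (.e (nat_lit 376859) (nat_lit 21) (.e (nat_lit 57849) (nat_lit 252) (.e (nat_lit 57388) (nat_lit 5) (.e (nat_lit 114698) (nat_lit 11) (.e (nat_lit 426188) (nat_lit 9) (.e (nat_lit 426555) (nat_lit 32) .nil)))))) (.g (nat_lit 1) (.e (nat_lit 386274) (nat_lit 0) .nil) .nil))))) (.nd (nat_lit 8) (.nd (nat_lit 9) 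
(.lf (nat_lit 583877) (.g (nat_lit 3000) (.e (nat_lit 360474) (nat_lit 8) (.e (nat_lit 557094) (nat_lit 12) (.e (nat_lit 164022) (nat_lit 46) (.e (nat_lit 704629) (nat_lit 9) (.e (nat_lit 411) (nat_lit 32) (.e (nat_lit 426032) (nat_lit 0) (.e (nat_lit 3262) (nat_lit 198) (.e (nat_lit 540706) (nat_lit 12) .nil)))))))) (.g (nat_lit 1) (.e (nat_lit 384743) (nat_lit 0) .nil) .nil))) 
(.lf (nat_lit 584389) (.g (nat_lit 2791) (.e (nat_lit 376842) (nat_lit 11) (.e (nat_lit 426497) (nat_lit 27) (.e (nat_lit 335988) (nat_lit 1) (.e (nat_lit 57927) (nat_lit 282) (.e (nat_lit 163875) (nat_lit 3) (.e (nat_lit 204876) (nat_lit 31) .nil)))))) (.g (nat_lit 1) (.e (nat_lit 386070) (nat_lit 0) .nil) .nil)))) (.nd (nat_lit 9) 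
(.lf (nat_lit 584133) (.g (nat_lit 3462) (.e (nat_lit 368676) (nat_lit 21) (.e (nat_lit 516131) (nat_lit 3) (.e (nat_lit 221214) (nat_lit 23) (.e (nat_lit 204831) (nat_lit 18) (.e (nat_lit 57931) (nat_lit 282) (.e (nat_lit 163874) (nat_lit 3) (.e (nat_lit 204872) (nat_lit 30) .nil))))))) (.g (nat_lit 1) (.e (nat_lit 385435) (nat_lit 0) .nil) .nil))) 
(.lf (nat_lit 584645) (.g (nat_lit 2997) (.e (nat_lit 376869) (nat_lit 23) (.e (nat_lit 98313) (nat_lit 9) (.e (nat_lit 335986) (nat_lit 1) (.e (nat_lit 57931) (nat_lit 282) (.e (nat_lit 163905) (nat_lit 12) (.e (nat_lit 426555) (nat_lit 32) .nil)))))) (.g (nat_lit 1) (.e (nat_lit 386504) (nat_lit 0) .nil) .nil))))))) (.nd (nat_lit 6) (.nd (nat_lit 7) (.nd (nat_lit 8) (.nd (nat_lit 9) 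
(.lf (nat_lit 583717) (.g (nat_lit 3452) (.e (nat_lit 360473) (nat_lit 8) (.e (nat_lit 557089) (nat_lit 12) (.e (nat_lit 163844) (nat_lit 0) (.e (nat_lit 6421) (nat_lit 341) (.e (nat_lit 163900) (nat_lit 12) (.e (nat_lit 426140) (nat_lit 3) (.e (nat_lit 204868) (nat_lit 29) .nil))))))) (.g (nat_lit 1) (.e (nat_lit 384477) (nat_lit 0) .nil) .nil))) 
(.lf (nat_lit 584229) (.g (nat_lit 4989) (.e (nat_lit 368676) (nat_lit 21) (.e (nat_lit 516165) (nat_lit 12) (.e (nat_lit 450588) (nat_lit 10) (.e (nat_lit 573475) (nat_lit 12) (.e (nat_lit 57347) (nat_lit 0) (.e (nat_lit 7266) (nat_lit 384) (.e (nat_lit 57431) (nat_lit 16) .nil))))))) (.g (nat_lit 1) (.e (nat_lit 385539) (nat_lit 0) .nil) .nil)))) (.nd (nat_lit 9) 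
(.lf (nat_lit 583973) (.g (nat_lit 1683) (.e (nat_lit 360493) (nat_lit 27) (.e (nat_lit 819203) (nat_lit 0) (.e (nat_lit 3016) (nat_lit 187) (.e (nat_lit 450584) (nat_lit 9) (.e (nat_lit 565252) (nat_lit 0) (.e (nat_lit 1595) (nat_lit 111) .nil)))))) (.g (nat_lit 1) (.e (nat_lit 384904) (nat_lit 0) .nil) .nil))) 
(.lf (nat_lit 584485) (.g (nat_lit 3738) (.e (nat_lit 376857) (nat_lit 21) (.e (nat_lit 57854) (nat_lit 252) (.e (nat_lit 57389) (nat_lit 5) (.e (nat_lit 114698) (nat_lit 11) (.e (nat_lit 426190) (nat_lit 9) (.e (nat_lit 426555) (nat_lit 32) .nil)))))) (.g (nat_lit 1) (.e (nat_lit 386225) (nat_lit 0) .nil) .nil))))) (.nd (nat_lit 8) (.nd (nat_lit 9) 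
(.lf (nat_lit 583845) (.g (nat_lit 2419) (.e (nat_lit 360474) (nat_lit 8) (.e (nat_lit 557093) (nat_lit 12) (.e (nat_lit 164022) (nat_lit 46) (.e (nat_lit 704736) (nat_lit 11) (.e (nat_lit 16395) (nat_lit 0) (.e (nat_lit 3262) (nat_lit 198) (.e (nat_lit 540706) (nat_lit 12) .nil))))))) (.g (nat_lit 1) (.e (nat_lit 384710) (nat_lit 0) .nil) .nil))) 
(.lf (nat_lit 584357) (.g (nat_lit 1788) (.e (nat_lit 384768) (nat_lit 5) (.e (nat_lit 221208) (nat_lit 21) (.e (nat_lit 164332) (nat_lit 230) (.e (nat_lit 163905) (nat_lit 12) (.e (nat_lit 426226) (nat_lit 9) .nil))))) (.g (nat_lit 0) (.e (nat_lit 386030) (nat_lit 0) .nil) .nil)))) (.nd (nat_lit 9) 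
(.lf (nat_lit 584101) (.g (nat_lit 2565) (.e (nat_lit 368676) (nat_lit 21) (.e (nat_lit 516129) (nat_lit 3) (.e (nat_lit 221215) (nat_lit 23) (.e (nat_lit 204830) (nat_lit 18) (.e (nat_lit 57927) (nat_lit 282) (.e (nat_lit 163875) (nat_lit 3) (.e (nat_lit 204873) (nat_lit 30) .nil))))))) (.g (nat_lit 1) (.e (nat_lit 385394) (nat_lit 0) .nil) .nil))) 
(.lf (nat_lit 584613) (.g (nat_lit 2889) (.e (nat_lit 376867) (nat_lit 23) (.e (nat_lit 98317) (nat_lit 9) (.e (nat_lit 335988) (nat_lit 1) (.e (nat_lit 57927) (nat_lit 282) (.e (nat_lit 163907) (nat_lit 12) (.e (nat_lit 426555) (nat_lit 32) .nil)))))) (.g (nat_lit 1) (.e (nat_lit 386457) (nat_lit 0) .nil) .nil)))))) (.nd (nat_lit 7) (.nd (nat_lit 8) (.nd (nat_lit 9) 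
(.lf (nat_lit 583781) (.g (nat_lit 1071) (.e (nat_lit 360473) (nat_lit 8) (.e (nat_lit 557093) (nat_lit 12) (.e (nat_lit 164022) (nat_lit 46) (.e (nat_lit 704629) (nat_lit 9) .nil)))) (.g (nat_lit 0) (.e (nat_lit 384584) (nat_lit 0) .nil) .nil))) 
(.lf (nat_lit 584293) (.g (nat_lit 635) (.e (nat_lit 368682) (nat_lit 26) (.e (nat_lit 557105) (nat_lit 14) (.e (nat_lit 180252) (nat_lit 10) .nil))) (.g (nat_lit 0) (.e (nat_lit 385640) (nat_lit 0) .nil) .nil)))) (.nd (nat_lit 9) 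
(.lf (nat_lit 584037) (.g (nat_lit 2480) (.e (nat_lit 368662) (nat_lit 18) (.e (nat_lit 5905) (nat_lit 320) (.e (nat_lit 1209) (nat_lit 89) (.e (nat_lit 73782) (nat_lit 32) (.e (nat_lit 3089) (nat_lit 191) .nil))))) (.g (nat_lit 0) (.e (nat_lit 385207) (nat_lit 0) .nil) .nil))) 
(.lf (nat_lit 584549) (.g (nat_lit 3726) (.e (nat_lit 376860) (nat_lit 21) (.e (nat_lit 57853) (nat_lit 252) (.e (nat_lit 57389) (nat_lit 5) (.e (nat_lit 114698) (nat_lit 11) (.e (nat_lit 426198) (nat_lit 9) (.e (nat_lit 426555) (nat_lit 32) .nil)))))) (.g (nat_lit 1) (.e (nat_lit 386327) (nat_lit 0) .nil) .nil))))) (.nd (nat_lit 8) (.nd (nat_lit 9) 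
(.lf (nat_lit 583909) (.g (nat_lit 471) (.e (nat_lit 360475) (nat_lit 8) (.e (nat_lit 557084) (nat_lit 10) (.e (nat_lit 8534) (nat_lit 225) .nil))) (.g (nat_lit 0) (.e (nat_lit 384787) (nat_lit 0) .nil) .nil))) 
(.lf (nat_lit 584421) (.g (nat_lit 837) (.e (nat_lit 376855) (nat_lit 20) (.e (nat_lit 1800) (nat_lit 119) (.e (nat_lit 516139) (nat_lit 7) (.e (nat_lit 409648) (nat_lit 18) .nil)))) (.g (nat_lit 0) (.e (nat_lit 386118) (nat_lit 0) .nil) .nil)))) (.nd (nat_lit 9) 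
(.lf (nat_lit 584165) (.g (nat_lit 2816) (.e (nat_lit 368676) (nat_lit 21) (.e (nat_lit 516138) (nat_lit 7) (.e (nat_lit 409644) (nat_lit 18) (.e (nat_lit 303119) (nat_lit 3) (.e (nat_lit 204861) (nat_lit 26) .nil))))) (.g (nat_lit 0) (.e (nat_lit 385473) (nat_lit 0) .nil) .nil))) 
(.lf (nat_lit 584677) (.g (nat_lit 2908) (.e (nat_lit 385030) (nat_lit 8) (.e (nat_lit 3067) (nat_lit 190) (.e (nat_lit 475179) (nat_lit 24) (.e (nat_lit 516117) (nat_lit 1) (.e (nat_lit 164330) (nat_lit 230) .nil))))) (.g (nat_lit 0) (.e (nat_lit 386609) (nat_lit 0) .nil) .nil)))))))) (.nd (nat_lit 5) (.nd (nat_lit 6) (.nd (nat_lit 7) (.nd (nat_lit 8) (.nd (nat_lit 9) 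
(.lf (nat_lit 583701) (.g (nat_lit 3287) (.e (nat_lit 360473) (nat_lit 8) (.e (nat_lit 557087) (nat_lit 11) (.e (nat_lit 24661) (nat_lit 14) (.e (nat_lit 401428) (nat_lit 3) (.e (nat_lit 204868) (nat_lit 29) .nil))))) (.g (nat_lit 1) (.e (nat_lit 384458) (nat_lit 0) .nil) .nil))) 
(.lf (nat_lit 584213) (.g (nat_lit 4229) (.e (nat_lit 368676) (nat_lit 21) (.e (nat_lit 516165) (nat_lit 12) (.e (nat_lit 450588) (nat_lit 10) (.e (nat_lit 573473) (nat_lit 12) (.e (nat_lit 57348) (nat_lit 0) (.e (nat_lit 7261) (nat_lit 384) (.e (nat_lit 57431) (nat_lit 16) .nil))))))) (.g (nat_lit 1) (.e (nat_lit 385523) (nat_lit 0) .nil) .nil)))) (.nd (nat_lit 9) 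
(.lf (nat_lit 583957) (.g (nat_lit 1626) (.e (nat_lit 360475) (nat_lit 8) (.e (nat_lit 557091) (nat_lit 12) (.e (nat_lit 164022) (nat_lit 46) (.e (nat_lit 704738) (nat_lit 11) (.e (nat_lit 16384) (nat_lit 0) .nil))))) (.g (nat_lit 0) (.e (nat_lit 384853) (nat_lit 0) .nil) .nil))) 
(.lf (nat_lit 584469) (.g (nat_lit 3372) (.e (nat_lit 376857) (nat_lit 21) (.e (nat_lit 57849) (nat_lit 252) (.e (nat_lit 57390) (nat_lit 5) (.e (nat_lit 114698) (nat_lit 11) (.e (nat_lit 426200) (nat_lit 9) (.e (nat_lit 426555) (nat_lit 32) .nil)))))) (.g (nat_lit 1) (.e (nat_lit 386198) (nat_lit 0) .nil) .nil))))) (.nd (nat_lit 8) (.nd (nat_lit 9) 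
(.lf (nat_lit 583829) (.g (nat_lit 435) (.e (nat_lit 360474) (nat_lit 8) (.e (nat_lit 557091) (nat_lit 12) (.e (nat_lit 164003) (nat_lit 40) .nil))) (.g (nat_lit 0) (.e (nat_lit 384690) (nat_lit 0) .nil) .nil))) 
(.lf (nat_lit 584341) (.g (nat_lit 1528) (.e (nat_lit 384768) (nat_lit 5) (.e (nat_lit 221207) (nat_lit 21) (.e (nat_lit 164324) (nat_lit 230) (.e (nat_lit 163931) (nat_lit 17) (.e (nat_lit 474880) (nat_lit 16) .nil))))) (.g (nat_lit 0) (.e (nat_lit 385992) (nat_lit 0) .nil) .nil)))) (.nd (nat_lit 9) 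
(.lf (nat_lit 584085) (.g (nat_lit 2350) (.e (nat_lit 368676) (nat_lit 21) (.e (nat_lit 516129) (nat_lit 3) (.e (nat_lit 221214) (nat_lit 23) (.e (nat_lit 204830) (nat_lit 18) (.e (nat_lit 57931) (nat_lit 282) (.e (nat_lit 163874) (nat_lit 3) (.e (nat_lit 204872) (nat_lit 30) .nil))))))) (.g (nat_lit 1) (.e (nat_lit 385378) (nat_lit 0) .nil) .nil))) 
(.lf (nat_lit 584597) (.g (nat_lit 1423) (.e (nat_lit 376866) (nat_lit 23) (.e (nat_lit 98350) (nat_lit 24) (.e (nat_lit 409646) (nat_lit 18) (.e (nat_lit 303118) (nat_lit 3) .nil)))) (.g (nat_lit 0) (.e (nat_lit 386433) (nat_lit 0) .nil) .nil)))))) (.nd (nat_lit 7) (.nd (nat_lit 8) (.nd (nat_lit 9) 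
(.lf (nat_lit 583765) (.g (nat_lit 3692) (.e (nat_lit 360473) (nat_lit 8) (.e (nat_lit 557091) (nat_lit 12) (.e (nat_lit 164022) (nat_lit 46) (.e (nat_lit 704626) (nat_lit 9) (.e (nat_lit 375) (nat_lit 32) (.e (nat_lit 426140) (nat_lit 3) (.e (nat_lit 204868) (nat_lit 29) .nil))))))) (.g (nat_lit 1) (.e (nat_lit 384560) (nat_lit 0) .nil) .nil))) 
(.lf (nat_lit 584277) (.g (nat_lit 1975) (.e (nat_lit 368676) (nat_lit 21) (.e (nat_lit 524032) (nat_lit 27) (.e (nat_lit 344160) (nat_lit 37) (.e (nat_lit 647183) (nat_lit 4) (.e (nat_lit 172147) (nat_lit 27) (.e (nat_lit 336188) (nat_lit 11) .nil)))))) (.g (nat_lit 1) (.e (nat_lit 385614) (nat_lit 0) .nil) .nil)))) (.nd (nat_lit 9) 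
(.lf (nat_lit 584021) (.g (nat_lit 1444) (.e (nat_lit 376576) (nat_lit 4) (.e (nat_lit 172150) (nat_lit 27) (.e (nat_lit 336229) (nat_lit 14) (.e (nat_lit 401437) (nat_lit 9) (.e (nat_lit 426550) (nat_lit 31) .nil))))) (.g (nat_lit 0) (.e (nat_lit 385074) (nat_lit 0) .nil) .nil))) 
(.lf (nat_lit 584533) (.g (nat_lit 1249) (.e (nat_lit 376859) (nat_lit 21) (.e (nat_lit 57872) (nat_lit 264) (.e (nat_lit 1209) (nat_lit 89) (.e (nat_lit 81664) (nat_lit 32) .nil)))) (.g (nat_lit 0) (.e (nat_lit 386290) (nat_lit 0) .nil) .nil))))) (.nd (nat_lit 8) (.nd (nat_lit 9) 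
(.lf (nat_lit 583893) (.g (nat_lit 2183) (.e (nat_lit 360474) (nat_lit 8) (.e (nat_lit 557094) (nat_lit 12) (.e (nat_lit 164022) (nat_lit 46) (.e (nat_lit 704737) (nat_lit 11) (.e (nat_lit 16396) (nat_lit 0) (.e (nat_lit 3258) (nat_lit 198) (.e (nat_lit 540706) (nat_lit 12) .nil))))))) (.g (nat_lit 1) (.e (nat_lit 384761) (nat_lit 0) .nil) .nil))) 
(.lf (nat_lit 584405) (.g (nat_lit 198) (.e (nat_lit 384768) (nat_lit 18) (.e (nat_lit 483365) (nat_lit 18) (.e (nat_lit 57848) (nat_lit 252) .nil))) (.g (nat_lit 0) (.e (nat_lit 386092) (nat_lit 0) .nil) .nil)))) (.nd (nat_lit 9) 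
(.lf (nat_lit 584149) (.g (nat_lit 4078) (.e (nat_lit 368676) (nat_lit 21) (.e (nat_lit 516131) (nat_lit 3) (.e (nat_lit 221215) (nat_lit 23) (.e (nat_lit 204829) (nat_lit 18) (.e (nat_lit 57927) (nat_lit 282) (.e (nat_lit 163875) (nat_lit 3) (.e (nat_lit 204873) (nat_lit 30) .nil))))))) (.g (nat_lit 1) (.e (nat_lit 385456) (nat_lit 0) .nil) .nil))) 
(.lf (nat_lit 584661) (.g (nat_lit 2140) (.e (nat_lit 376869) (nat_lit 23) (.e (nat_lit 98349) (nat_lit 24) (.e (nat_lit 409645) (nat_lit 18) (.e (nat_lit 303104) (nat_lit 0) .nil)))) (.g (nat_lit 0) (.e (nat_lit 386535) (nat_lit 0) .nil) .nil))))))) (.nd (nat_lit 6) (.nd (nat_lit 7) (.nd (nat_lit 8) (.nd (nat_lit 9) 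
(.lf (nat_lit 583733) (.g (nat_lit 3335) (.e (nat_lit 360473) (nat_lit 8) (.e (nat_lit 557089) (nat_lit 12) (.e (nat_lit 164020) (nat_lit 45) (.e (nat_lit 696327) (nat_lit 5) (.e (nat_lit 2884) (nat_lit 184) (.e (nat_lit 426140) (nat_lit 3) (.e (nat_lit 204868) (nat_lit 29) .nil))))))) (.g (nat_lit 1) (.e (nat_lit 384506) (nat_lit 0) .nil) .nil))) 
(.lf (nat_lit 584245) (.g (nat_lit 4679) (.e (nat_lit 368676) (nat_lit 21) (.e (nat_lit 516166) (nat_lit 12) (.e (nat_lit 450587) (nat_lit 10) (.e (nat_lit 573478) (nat_lit 12) (.e (nat_lit 57351) (nat_lit 0) (.e (nat_lit 7261) (nat_lit 384) (.e (nat_lit 57431) (nat_lit 16) .nil))))))) (.g (nat_lit 1) (.e (nat_lit 385555) (nat_lit 0) .nil) .nil)))) (.nd (nat_lit 9) 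
(.lf (nat_lit 583989) (.g (nat_lit 1122) (.e (nat_lit 360493) (nat_lit 27) (.e (nat_lit 819204) (nat_lit 0) (.e (nat_lit 3016) (nat_lit 187) (.e (nat_lit 450577) (nat_lit 4) (.e (nat_lit 532224) (nat_lit 29) .nil))))) (.g (nat_lit 1) (.e (nat_lit 384927) (nat_lit 0) .nil) .nil))) 
(.lf (nat_lit 584501) (.g (nat_lit 2343) (.e (nat_lit 376859) (nat_lit 21) (.e (nat_lit 57844) (nat_lit 252) (.e (nat_lit 57388) (nat_lit 5) (.e (nat_lit 114698) (nat_lit 11) (.e (nat_lit 426197) (nat_lit 9) (.e (nat_lit 426556) (nat_lit 32) .nil)))))) (.g (nat_lit 1) (.e (nat_lit 386254) (nat_lit 0) .nil) .nil))))) (.nd (nat_lit 8) (.nd (nat_lit 9) 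
(.lf (nat_lit 583861) (.g (nat_lit 3362) (.e (nat_lit 360474) (nat_lit 8) (.e (nat_lit 557093) (nat_lit 12) (.e (nat_lit 164022) (nat_lit 46) (.e (nat_lit 704738) (nat_lit 11) (.e (nat_lit 16402) (nat_lit 0) (.e (nat_lit 7936) (nat_lit 197) (.e (nat_lit 532550) (nat_lit 12) .nil))))))) (.g (nat_lit 1) (.e (nat_lit 384726) (nat_lit 0) .nil) .nil))) 
(.lf (nat_lit 584373) (.g (nat_lit 676) (.e (nat_lit 376842) (nat_lit 11) (.e (nat_lit 426106) (nat_lit 1) (.e (nat_lit 164183) (nat_lit 154) (.e (nat_lit 65280) (nat_lit 12) .nil)))) (.g (nat_lit 0) (.e (nat_lit 386053) (nat_lit 0) .nil) .nil)))) (.nd (nat_lit 9) 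
(.lf (nat_lit 584117) (.g (nat_lit 3454) (.e (nat_lit 368676) (nat_lit 21) (.e (nat_lit 516131) (nat_lit 3) (.e (nat_lit 221214) (nat_lit 23) (.e (nat_lit 204829) (nat_lit 18) (.e (nat_lit 57926) (nat_lit 282) (.e (nat_lit 163875) (nat_lit 3) (.e (nat_lit 204873) (nat_lit 30) .nil))))))) (.g (nat_lit 1) (.e (nat_lit 385419) (nat_lit 0) .nil) .nil))) 
(.lf (nat_lit 584629) (.g (nat_lit 1186) (.e (nat_lit 376868) (nat_lit 23) (.e (nat_lit 98350) (nat_lit 24) (.e (nat_lit 409616) (nat_lit 10) (.e (nat_lit 7936) (nat_lit 318) .nil)))) (.g (nat_lit 0) (.e (nat_lit 386484) (nat_lit 0) .nil) .nil)))))) (.nd (nat_lit 7) (.nd (nat_lit 8) (.nd (nat_lit 9) 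
(.lf (nat_lit 583797) (.g (nat_lit 2928) (.e (nat_lit 360473) (nat_lit 8) (.e (nat_lit 557094) (nat_lit 12) (.e (nat_lit 164018) (nat_lit 45) (.e (nat_lit 696327) (nat_lit 5) (.e (nat_lit 2980) (nat_lit 185) (.e (nat_lit 434231) (nat_lit 23) (.e (nat_lit 532549) (nat_lit 12) .nil))))))) (.g (nat_lit 1) (.e (nat_lit 384626) (nat_lit 0) .nil) .nil))) 
(.lf (nat_lit 584309) (.g (nat_lit 1581) (.e (nat_lit 376835) (nat_lit 0) (.e (nat_lit 3253) (nat_lit 197) (.e (nat_lit 532515) (nat_lit 3) (.e (nat_lit 114698) (nat_lit 11) (.e (nat_lit 426132) (nat_lit 3) .nil))))) (.g (nat_lit 0) (.e (nat_lit 385748) (nat_lit 0) .nil) .nil)))) (.nd (nat_lit 9) 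
(.lf (nat_lit 584053) (.g (nat_lit 3431) (.e (nat_lit 368676) (nat_lit 21) (.e (nat_lit 516106) (nat_lit 0) (.e (nat_lit 6986) (nat_lit 377) (.e (nat_lit 2819) (nat_lit 181) (.e (nat_lit 311313) (nat_lit 3) (.e (nat_lit 204861) (nat_lit 26) (.e (nat_lit 336186) (nat_lit 11) .nil))))))) (.g (nat_lit 1) (.e (nat_lit 385323) (nat_lit 0) .nil) .nil))) 
(.lf (nat_lit 584565) (.g (nat_lit 2380) (.e (nat_lit 376860) (nat_lit 21) (.e (nat_lit 57930) (nat_lit 282) (.e (nat_lit 163896) (nat_lit 10) (.e (nat_lit 409648) (nat_lit 18) (.e (nat_lit 303129) (nat_lit 9) (.e (nat_lit 433920) (nat_lit 32) .nil)))))) (.g (nat_lit 1) (.e (nat_lit 386354) (nat_lit 0) .nil) .nil))))) (.nd (nat_lit 8) (.nd (nat_lit 9) 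
(.lf (nat_lit 583925) (.g (nat_lit 3904) (.e (nat_lit 360475) (nat_lit 8) (.e (nat_lit 557090) (nat_lit 12) (.e (nat_lit 163843) (nat_lit 0) (.e (nat_lit 6420) (nat_lit 341) (.e (nat_lit 163902) (nat_lit 12) (.e (nat_lit 425986) (nat_lit 0) (.e (nat_lit 3262) (nat_lit 198) (.e (nat_lit 540706) (nat_lit 12) .nil)))))))) (.g (nat_lit 1) (.e (nat_lit 384810) (nat_lit 0) .nil) .nil))) 
(.lf (nat_lit 584437) (.g (nat_lit 838) (.e (nat_lit 376856) (nat_lit 21) (.e (nat_lit 57847) (nat_lit 252) (.e (nat_lit 57388) (nat_lit 5) .nil))) (.g (nat_lit 0) (.e (nat_lit 386149) (nat_lit 0) .nil) .nil)))) (.nd (nat_lit 9) 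
(.lf (nat_lit 584181) (.g (nat_lit 1265) (.e (nat_lit 368676) (nat_lit 21) (.e (nat_lit 524032) (nat_lit 7) (.e (nat_lit 409646) (nat_lit 18) (.e (nat_lit 303119) (nat_lit 3) (.e (nat_lit 204860) (nat_lit 26) (.e (nat_lit 336186) (nat_lit 11) .nil)))))) (.g (nat_lit 1) (.e (nat_lit 385490) (nat_lit 0) .nil) .nil))) 
(.lf (nat_lit 584693) (.g (nat_lit 2132) (.e (nat_lit 385049) (nat_lit 21) (.e (nat_lit 6391) (nat_lit 339) (.e (nat_lit 57379) (nat_lit 3) (.e (nat_lit 98334) (nat_lit 18) (.e (nat_lit 164305) (nat_lit 226) .nil))))) (.g (nat_lit 0) (.e (nat_lit 386672) (nat_lit 0) .nil) .nil))))))))) (.nd (nat_lit 4) (.nd (nat_lit 5) (.nd (nat_lit 6) (.nd (nat_lit 7) (.nd (nat_lit 8) (.nd (nat_lit 9) 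
(.lf (nat_lit 583693) (.g (nat_lit 2326) (.e (nat_lit 360473) (nat_lit 8) (.e (nat_lit 557087) (nat_lit 11) (.e (nat_lit 24580) (nat_lit 0) (.e (nat_lit 6665) (nat_lit 357) .nil)))) (.g (nat_lit 0) (.e (nat_lit 384445) (nat_lit 0) .nil) .nil))) 
(.lf (nat_lit 584205) (.g (nat_lit 3394) (.e (nat_lit 368676) (nat_lit 21) (.e (nat_lit 516165) (nat_lit 12) (.e (nat_lit 450586) (nat_lit 10) (.e (nat_lit 573475) (nat_lit 12) (.e (nat_lit 57348) (nat_lit 0) (.e (nat_lit 7266) (nat_lit 384) (.e (nat_lit 57431) (nat_lit 16) .nil))))))) (.g (nat_lit 1) (.e (nat_lit 385515) (nat_lit 0) .nil) .nil)))) (.nd (nat_lit 9) 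
(.lf (nat_lit 583949) (.g (nat_lit 330) (.e (nat_lit 360475) (nat_lit 8) (.e (nat_lit 557091) (nat_lit 12) (.e (nat_lit 163843) (nat_lit 0) .nil))) (.g (nat_lit 0) (.e (nat_lit 384843) (nat_lit 0) .nil) .nil))) 
(.lf (nat_lit 584461) (.g (nat_lit 3387) (.e (nat_lit 376857) (nat_lit 21) (.e (nat_lit 57849) (nat_lit 252) (.e (nat_lit 57388) (nat_lit 5) (.e (nat_lit 114697) (nat_lit 11) (.e (nat_lit 426200) (nat_lit 9) (.e (nat_lit 426555) (nat_lit 32) .nil)))))) (.g (nat_lit 1) (.e (nat_lit 386190) (nat_lit 0) .nil) .nil))))) (.nd (nat_lit 8) (.nd (nat_lit 9) 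
(.lf (nat_lit 583821) (.g (nat_lit 4224) (.e (nat_lit 360474) (nat_lit 8) (.e (nat_lit 557087) (nat_lit 11) (.e (nat_lit 24661) (nat_lit 14) (.e (nat_lit 401428) (nat_lit 3) (.e (nat_lit 204869) (nat_lit 29) .nil))))) (.g (nat_lit 1) (.e (nat_lit 384674) (nat_lit 0) .nil) .nil))) 
(.lf (nat_lit 584333) (.g (nat_lit 762) (.e (nat_lit 384768) (nat_lit 3) (.e (nat_lit 204837) (nat_lit 20) (.e (nat_lit 122624) (nat_lit 11) (.e (nat_lit 426129) (nat_lit 3) (.e (nat_lit 204877) (nat_lit 31) .nil))))) (.g (nat_lit 0) (.e (nat_lit 385934) (nat_lit 0) .nil) .nil)))) (.nd (nat_lit 9) 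
(.lf (nat_lit 584077) (.g (nat_lit 2667) (.e (nat_lit 368676) (nat_lit 21) (.e (nat_lit 516129) (nat_lit 3) (.e (nat_lit 221214) (nat_lit 23) (.e (nat_lit 204830) (nat_lit 18) (.e (nat_lit 57926) (nat_lit 282) (.e (nat_lit 163875) (nat_lit 3) (.e (nat_lit 204872) (nat_lit 30) .nil))))))) (.g (nat_lit 1) (.e (nat_lit 385370) (nat_lit 0) .nil) .nil))) 
(.lf (nat_lit 584589) (.g (nat_lit 960) (.e (nat_lit 376865) (nat_lit 22) (.e (nat_lit 90185) (nat_lit 17) (.e (nat_lit 237569) (nat_lit 0) .nil))) (.g (nat_lit 0) (.e (nat_lit 386424) (nat_lit 0) .nil) .nil)))))) (.nd (nat_lit 7) (.nd (nat_lit 8) (.nd (nat_lit 9) 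
(.lf (nat_lit 583757) (.g (nat_lit 1448) (.e (nat_lit 360473) (nat_lit 8) (.e (nat_lit 557091) (nat_lit 12) (.e (nat_lit 163850) (nat_lit 0) (.e (nat_lit 6425) (nat_lit 342) .nil)))) (.g (nat_lit 0) (.e (nat_lit 384534) (nat_lit 0) .nil) .nil))) 
(.lf (nat_lit 584269) (.g (nat_lit 600) (.e (nat_lit 368676) (nat_lit 21) (.e (nat_lit 516185) (nat_lit 16) (.e (nat_lit 491526) (nat_lit 0) .nil))) (.g (nat_lit 0) (.e (nat_lit 385581) (nat_lit 0) .nil) .nil)))) (.nd (nat_lit 9) 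
(.lf (nat_lit 584013) (.g (nat_lit 776) (.e (nat_lit 360493) (nat_lit 27) (.e (nat_lit 819219) (nat_lit 4) (.e (nat_lit 172107) (nat_lit 10) (.e (nat_lit 434229) (nat_lit 22) (.e (nat_lit 532224) (nat_lit 29) .nil))))) (.g (nat_lit 1) (.e (nat_lit 384957) (nat_lit 0) .nil) .nil))) 
(.lf (nat_lit 584525) (.g (nat_lit 1302) (.e (nat_lit 376859) (nat_lit 21) (.e (nat_lit 57853) (nat_lit 252) (.e (nat_lit 57388) (nat_lit 5) (.e (nat_lit 114697) (nat_lit 11) .nil)))) (.g (nat_lit 0) (.e (nat_lit 386282) (nat_lit 0) .nil) .nil))))) (.nd (nat_lit 8) (.nd (nat_lit 9) 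
(.lf (nat_lit 583885) (.g (nat_lit 2245) (.e (nat_lit 360474) (nat_lit 8) (.e (nat_lit 557094) (nat_lit 12) (.e (nat_lit 164022) (nat_lit 46) (.e (nat_lit 704736) (nat_lit 11) (.e (nat_lit 16385) (nat_lit 0) (.e (nat_lit 3262) (nat_lit 198) (.e (nat_lit 540706) (nat_lit 12) .nil))))))) (.g (nat_lit 1) (.e (nat_lit 384753) (nat_lit 0) .nil) .nil))) 
(.lf (nat_lit 584397) (.g (nat_lit 2244) (.e (nat_lit 376842) (nat_lit 11) (.e (nat_lit 426521) (nat_lit 27) (.e (nat_lit 335986) (nat_lit 1) (.e (nat_lit 57927) (nat_lit 282) (.e (nat_lit 163874) (nat_lit 3) (.e (nat_lit 204877) (nat_lit 31) .nil)))))) (.g (nat_lit 1) (.e (nat_lit 386078) (nat_lit 0) .nil) .nil)))) (.nd (nat_lit 9) 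
(.lf (nat_lit 584141) (.g (nat_lit 2844) (.e (nat_lit 368676) (nat_lit 21) (.e (nat_lit 516131) (nat_lit 3) (.e (nat_lit 221215) (nat_lit 23) (.e (nat_lit 204828) (nat_lit 18) (.e (nat_lit 57927) (nat_lit 282) (.e (nat_lit 163875) (nat_lit 3) (.e (nat_lit 204872) (nat_lit 30) .nil))))))) (.g (nat_lit 1) (.e (nat_lit 385448) (nat_lit 0) .nil) .nil))) 
(.lf (nat_lit 584653) (.g (nat_lit 2720) (.e (nat_lit 376869) (nat_lit 23) (.e (nat_lit 98317) (nat_lit 9) (.e (nat_lit 335988) (nat_lit 1) (.e (nat_lit 57931) (nat_lit 282) (.e (nat_lit 163904) (nat_lit 12) (.e (nat_lit 426555) (nat_lit 32) .nil)))))) (.g (nat_lit 1) (.e (nat_lit 386517) (nat_lit 0) .nil) .nil))))))) (.nd (nat_lit 6) (.nd (nat_lit 7) (.nd (nat_lit 8) (.nd (nat_lit 9) 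
(.lf (nat_lit 583725) (.g (nat_lit 557) (.e (nat_lit 360473) (nat_lit 8) (.e (nat_lit 557089) (nat_lit 12) (.e (nat_lit 163996) (nat_lit 37) .nil))) (.g (nat_lit 0) (.e (nat_lit 384495) (nat_lit 0) .nil) .nil))) 
(.lf (nat_lit 584237) (.g (nat_lit 3939) (.e (nat_lit 368676) (nat_lit 21) (.e (nat_lit 516165) (nat_lit 12) (.e (nat_lit 450588) (nat_lit 10) (.e (nat_lit 573475) (nat_lit 12) (.e (nat_lit 57351) (nat_lit 0) (.e (nat_lit 7266) (nat_lit 384) (.e (nat_lit 57431) (nat_lit 16) .nil))))))) (.g (nat_lit 1) (.e (nat_lit 385547) (nat_lit 0) .nil) .nil)))) (.nd (nat_lit 9) 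
(.lf (nat_lit 583981) (.g (nat_lit 1474) (.e (nat_lit 360493) (nat_lit 27) (.e (nat_lit 819203) (nat_lit 0) (.e (nat_lit 3022) (nat_lit 187) (.e (nat_lit 450584) (nat_lit 9) (.e (nat_lit 565252) (nat_lit 0) (.e (nat_lit 1599) (nat_lit 111) .nil)))))) (.g (nat_lit 1) (.e (nat_lit 384914) (nat_lit 0) .nil) .nil))) 
(.lf (nat_lit 584493) (.g (nat_lit 922) (.e (nat_lit 376858) (nat_lit 21) (.e (nat_lit 57854) (nat_lit 252) (.e (nat_lit 57388) (nat_lit 5) (.e (nat_lit 114698) (nat_lit 11) .nil)))) (.g (nat_lit 0) (.e (nat_lit 386237) (nat_lit 0) .nil) .nil))))) (.nd (nat_lit 8) (.nd (nat_lit 9) 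
(.lf (nat_lit 583853) (.g (nat_lit 2243) (.e (nat_lit 360474) (nat_lit 8) (.e (nat_lit 557093) (nat_lit 12) (.e (nat_lit 164022) (nat_lit 46) (.e (nat_lit 704738) (nat_lit 11) (.e (nat_lit 16385) (nat_lit 0) .nil))))) (.g (nat_lit 0) (.e (nat_lit 384718) (nat_lit 0) .nil) .nil))) 
(.lf (nat_lit 584365) (.g (nat_lit 2042) (.e (nat_lit 376839) (nat_lit 11) (.e (nat_lit 426503) (nat_lit 27) (.e (nat_lit 335986) (nat_lit 1) (.e (nat_lit 57926) (nat_lit 282) (.e (nat_lit 163875) (nat_lit 3) (.e (nat_lit 204877) (nat_lit 31) .nil)))))) (.g (nat_lit 1) (.e (nat_lit 386040) (nat_lit 0) .nil) .nil)))) (.nd (nat_lit 9) 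
(.lf (nat_lit 584109) (.g (nat_lit 2947) (.e (nat_lit 368676) (nat_lit 21) (.e (nat_lit 516131) (nat_lit 3) (.e (nat_lit 221213) (nat_lit 23) (.e (nat_lit 204829) (nat_lit 18) (.e (nat_lit 57927) (nat_lit 282) (.e (nat_lit 163875) (nat_lit 3) (.e (nat_lit 204872) (nat_lit 30) .nil))))))) (.g (nat_lit 1) (.e (nat_lit 385411) (nat_lit 0) .nil) .nil))) 
(.lf (nat_lit 584621) (.g (nat_lit 1819) (.e (nat_lit 376867) (nat_lit 23) (.e (nat_lit 98350) (nat_lit 24) (.e (nat_lit 409649) (nat_lit 18) (.e (nat_lit 303112) (nat_lit 0) .nil)))) (.g (nat_lit 0) (.e (nat_lit 386469) (nat_lit 0) .nil) .nil)))))) (.nd (nat_lit 7) (.nd (nat_lit 8) (.nd (nat_lit 9) 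
(.lf (nat_lit 583789) (.g (nat_lit 2700) (.e (nat_lit 360473) (nat_lit 8) (.e (nat_lit 557093) (nat_lit 12) (.e (nat_lit 164023) (nat_lit 46) (.e (nat_lit 704738) (nat_lit 11) (.e (nat_lit 16401) (nat_lit 0) (.e (nat_lit 3249) (nat_lit 197) (.e (nat_lit 532549) (nat_lit 12) .nil))))))) (.g (nat_lit 1) (.e (nat_lit 384600) (nat_lit 0) .nil) .nil))) 
(.lf (nat_lit 584301) (.g (nat_lit 1233) (.e (nat_lit 376833) (nat_lit 0) (.e (nat_lit 3249) (nat_lit 197) (.e (nat_lit 532503) (nat_lit 1) (.e (nat_lit 57847) (nat_lit 252) .nil)))) (.g (nat_lit 0) (.e (nat_lit 385690) (nat_lit 0) .nil) .nil)))) (.nd (nat_lit 9) 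
(.lf (nat_lit 584045) (.g (nat_lit 1177) (.e (nat_lit 368675) (nat_lit 21) (.e (nat_lit 516138) (nat_lit 7) (.e (nat_lit 409645) (nat_lit 18) (.e (nat_lit 303119) (nat_lit 3) .nil)))) (.g (nat_lit 0) (.e (nat_lit 385297) (nat_lit 0) .nil) .nil))) 
(.lf (nat_lit 584557) (.g (nat_lit 2597) (.e (nat_lit 376860) (nat_lit 21) (.e (nat_lit 57930) (nat_lit 282) (.e (nat_lit 163896) (nat_lit 10) (.e (nat_lit 409616) (nat_lit 10) (.e (nat_lit 5770) (nat_lit 316) (.e (nat_lit 179968) (nat_lit 32) .nil)))))) (.g (nat_lit 1) (.e (nat_lit 386344) (nat_lit 0) .nil) .nil))))) (.nd (nat_lit 8) (.nd (nat_lit 9) 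
(.lf (nat_lit 583917) (.g (nat_lit 797) (.e (nat_lit 360475) (nat_lit 8) (.e (nat_lit 557087) (nat_lit 11) (.e (nat_lit 24622) (nat_lit 8) .nil))) (.g (nat_lit 0) (.e (nat_lit 384800) (nat_lit 0) .nil) .nil))) 
(.lf (nat_lit 584429) (.g (nat_lit 3341) (.e (nat_lit 376855) (nat_lit 20) (.e (nat_lit 1800) (nat_lit 119) (.e (nat_lit 516139) (nat_lit 7) (.e (nat_lit 409648) (nat_lit 18) (.e (nat_lit 303112) (nat_lit 0) (.e (nat_lit 3252) (nat_lit 197) (.e (nat_lit 532561) (nat_lit 14) .nil))))))) (.g (nat_lit 1) (.e (nat_lit 386126) (nat_lit 0) .nil) .nil)))) (.nd (nat_lit 9) 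
(.lf (nat_lit 584173) (.g (nat_lit 2316) (.e (nat_lit 368676) (nat_lit 21) (.e (nat_lit 516139) (nat_lit 7) (.e (nat_lit 409643) (nat_lit 18) (.e (nat_lit 303119) (nat_lit 3) (.e (nat_lit 204861) (nat_lit 26) (.e (nat_lit 336184) (nat_lit 11) .nil)))))) (.g (nat_lit 1) (.e (nat_lit 385482) (nat_lit 0) .nil) .nil))) 
(.lf (nat_lit 584685) (.g (nat_lit 1063) (.e (nat_lit 392960) (nat_lit 8) (.e (nat_lit 3062) (nat_lit 190) (.e (nat_lit 475211) (nat_lit 41) (.e (nat_lit 712749) (nat_lit 28) .nil)))) (.g (nat_lit 0) (.e (nat_lit 386639) (nat_lit 0) .nil) .nil)))))))) (.nd (nat_lit 5) (.nd (nat_lit 6) (.nd (nat_lit 7) (.nd (nat_lit 8) (.nd (nat_lit 9) 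
(.lf (nat_lit 583709) (.g (nat_lit 2827) (.e (nat_lit 360473) (nat_lit 8) (.e (nat_lit 557087) (nat_lit 11) (.e (nat_lit 24663) (nat_lit 14) (.e (nat_lit 401428) (nat_lit 3) (.e (nat_lit 204868) (nat_lit 29) .nil))))) (.g (nat_lit 1) (.e (nat_lit 384466) (nat_lit 0) .nil) .nil))) 
(.lf (nat_lit 584221) (.g (nat_lit 4054) (.e (nat_lit 368676) (nat_lit 21) (.e (nat_lit 516165) (nat_lit 12) (.e (nat_lit 450588) (nat_lit 10) (.e (nat_lit 573473) (nat_lit 12) (.e (nat_lit 57353) (nat_lit 0) (.e (nat_lit 7265) (nat_lit 384) (.e (nat_lit 57430) (nat_lit 16) .nil))))))) (.g (nat_lit 1) (.e (nat_lit 385531) (nat_lit 0) .nil) .nil)))) (.nd (nat_lit 9) 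
(.lf (nat_lit 583965) (.g (nat_lit 2339) (.e (nat_lit 360482) (nat_lit 15) (.e (nat_lit 647171) (nat_lit 0) (.e (nat_lit 2829) (nat_lit 182) (.e (nat_lit 409649) (nat_lit 18) (.e (nat_lit 303132) (nat_lit 9) (.e (nat_lit 433920) (nat_lit 30) .nil)))))) (.g (nat_lit 1) (.e (nat_lit 384876) (nat_lit 0) .nil) .nil))) 
(.lf (nat_lit 584477) (.g (nat_lit 760) (.e (nat_lit 376857) (nat_lit 21) (.e (nat_lit 57852) (nat_lit 252) (.e (nat_lit 57380) (nat_lit 4) .nil))) (.g (nat_lit 0) (.e (nat_lit 386207) (nat_lit 0) .nil) .nil))))) (.nd (nat_lit 8) (.nd (nat_lit 9) 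
(.lf (nat_lit 583837) (.g (nat_lit 2811) (.e (nat_lit 360474) (nat_lit 8) (.e (nat_lit 557093) (nat_lit 12) (.e (nat_lit 164022) (nat_lit 46) (.e (nat_lit 704629) (nat_lit 9) (.e (nat_lit 452) (nat_lit 33) (.e (nat_lit 434219) (nat_lit 19) (.e (nat_lit 499975) (nat_lit 14) (.e (nat_lit 1587) (nat_lit 111) .nil)))))))) (.g (nat_lit 1) (.e (nat_lit 384701) (nat_lit 0) .nil) .nil))) 
(.lf (nat_lit 584349) (.g (nat_lit 1332) (.e (nat_lit 384768) (nat_lit 5) (.e (nat_lit 221207) (nat_lit 21) (.e (nat_lit 164325) (nat_lit 230) (.e (nat_lit 163934) (nat_lit 17) .nil)))) (.g (nat_lit 0) (.e (nat_lit 386005) (nat_lit 0) .nil) .nil)))) (.nd (nat_lit 9) 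
(.lf (nat_lit 584093) (.g (nat_lit 2633) (.e (nat_lit 368676) (nat_lit 21) (.e (nat_lit 516129) (nat_lit 3) (.e (nat_lit 221215) (nat_lit 23) (.e (nat_lit 204829) (nat_lit 18) (.e (nat_lit 57931) (nat_lit 282) (.e (nat_lit 163874) (nat_lit 3) (.e (nat_lit 204872) (nat_lit 30) .nil))))))) (.g (nat_lit 1) (.e (nat_lit 385386) (nat_lit 0) .nil) .nil))) 
(.lf (nat_lit 584605) (.g (nat_lit 2878) (.e (nat_lit 376867) (nat_lit 23) (.e (nat_lit 98313) (nat_lit 9) (.e (nat_lit 335988) (nat_lit 1) (.e (nat_lit 57927) (nat_lit 282) (.e (nat_lit 163907) (nat_lit 12) (.e (nat_lit 426555) (nat_lit 32) .nil)))))) (.g (nat_lit 1) (.e (nat_lit 386446) (nat_lit 0) .nil) .nil)))))) (.nd (nat_lit 7) (.nd (nat_lit 8) (.nd (nat_lit 9) 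
(.lf (nat_lit 583773) (.g (nat_lit 2893) (.e (nat_lit 360473) (nat_lit 8) (.e (nat_lit 557091) (nat_lit 12) (.e (nat_lit 164022) (nat_lit 46) (.e (nat_lit 704737) (nat_lit 11) (.e (nat_lit 16397) (nat_lit 0) (.e (nat_lit 3238) (nat_lit 197) (.e (nat_lit 532549) (nat_lit 12) .nil))))))) (.g (nat_lit 1) (.e (nat_lit 384573) (nat_lit 0) .nil) .nil))) 
(.lf (nat_lit 584285) (.g (nat_lit 2902) (.e (nat_lit 368678) (nat_lit 22) (.e (nat_lit 524322) (nat_lit 12) (.e (nat_lit 450588) (nat_lit 10) (.e (nat_lit 573473) (nat_lit 12) (.e (nat_lit 57352) (nat_lit 0) .nil))))) (.g (nat_lit 0) (.e (nat_lit 385625) (nat_lit 0) .nil) .nil)))) (.nd (nat_lit 9) 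
(.lf (nat_lit 584029) (.g (nat_lit 1682) (.e (nat_lit 376576) (nat_lit 5) (.e (nat_lit 180229) (nat_lit 0) (.e (nat_lit 6427) (nat_lit 342) (.e (nat_lit 229412) (nat_lit 14) (.e (nat_lit 450304) (nat_lit 15) .nil))))) (.g (nat_lit 0) (.e (nat_lit 385134) (nat_lit 0) .nil) .nil))) 
(.lf (nat_lit 584541) (.g (nat_lit 1470) (.e (nat_lit 376860) (nat_lit 21) (.e (nat_lit 57852) (nat_lit 252) (.e (nat_lit 57388) (nat_lit 5) (.e (nat_lit 114698) (nat_lit 11) (.e (nat_lit 426197) (nat_lit 9) .nil))))) (.g (nat_lit 0) (.e (nat_lit 386316) (nat_lit 0) .nil) .nil))))) (.nd (nat_lit 8) (.nd (nat_lit 9) 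
(.lf (nat_lit 583901) (.g (nat_lit 2932) (.e (nat_lit 360474) (nat_lit 8) (.e (nat_lit 557094) (nat_lit 12) (.e (nat_lit 164022) (nat_lit 46) (.e (nat_lit 704738) (nat_lit 11) (.e (nat_lit 16390) (nat_lit 0) (.e (nat_lit 3262) (nat_lit 198) (.e (nat_lit 540706) (nat_lit 12) .nil))))))) (.g (nat_lit 1) (.e (nat_lit 384769) (nat_lit 0) .nil) .nil))) 
(.lf (nat_lit 584413) (.g (nat_lit 1643) (.e (nat_lit 376855) (nat_lit 20) (.e (nat_lit 1800) (nat_lit 119) (.e (nat_lit 516102) (nat_lit 0) (.e (nat_lit 6989) (nat_lit 377) (.e (nat_lit 2810) (nat_lit 180) (.e (nat_lit 303112) (nat_lit 0) (.e (nat_lit 3252) (nat_lit 197) (.e (nat_lit 532561) (nat_lit 14) .nil)))))))) (.g (nat_lit 1) (.e (nat_lit 386108) (nat_lit 0) .nil) .nil)))) 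
(.nd (nat_lit 9) 
(.lf (nat_lit 584157) (.g (nat_lit 4021) (.e (nat_lit 368676) (nat_lit 21) (.e (nat_lit 516131) (nat_lit 3) (.e (nat_lit 221215) (nat_lit 23) (.e (nat_lit 204830) (nat_lit 18) (.e (nat_lit 57927) (nat_lit 282) (.e (nat_lit 163874) (nat_lit 3) (.e (nat_lit 204873) (nat_lit 30) .nil))))))) (.g (nat_lit 1) (.e (nat_lit 385464) (nat_lit 0) .nil) .nil))) 
(.lf (nat_lit 584669) (.g (nat_lit 1270) (.e (nat_lit 376869) (nat_lit 23) (.e (nat_lit 98365) (nat_lit 26) (.e (nat_lit 426099) (nat_lit 1) (.e (nat_lit 164398) (nat_lit 256) (.e (nat_lit 65280) (nat_lit 64) .nil))))) (.g (nat_lit 0) (.e (nat_lit 386554) (nat_lit 0) .nil) .nil))))))) (.nd (nat_lit 6) (.nd (nat_lit 7) (.nd (nat_lit 8) (.nd (nat_lit 9) 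
(.lf (nat_lit 583741) (.g (nat_lit 3445) (.e (nat_lit 360473) (nat_lit 8) (.e (nat_lit 557089) (nat_lit 12) (.e (nat_lit 164020) (nat_lit 45) (.e (nat_lit 696330) (nat_lit 5) (.e (nat_lit 2884) (nat_lit 184) (.e (nat_lit 426140) (nat_lit 3) (.e (nat_lit 204868) (nat_lit 29) .nil))))))) (.g (nat_lit 1) (.e (nat_lit 384514) (nat_lit 0) .nil) .nil))) 
(.lf (nat_lit 584253) (.g (nat_lit 6176) (.e (nat_lit 368676) (nat_lit 21) (.e (nat_lit 516166) (nat_lit 12) (.e (nat_lit 450588) (nat_lit 10) (.e (nat_lit 573473) (nat_lit 12) (.e (nat_lit 57347) (nat_lit 0) (.e (nat_lit 7266) (nat_lit 384) (.e (nat_lit 57431) (nat_lit 16) .nil))))))) (.g (nat_lit 1) (.e (nat_lit 385563) (nat_lit 0) .nil) .nil)))) (.nd (nat_lit 9) 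
(.lf (nat_lit 583997) (.g (nat_lit 941) (.e (nat_lit 360493) (nat_lit 27) (.e (nat_lit 819204) (nat_lit 0) (.e (nat_lit 3022) (nat_lit 187) (.e (nat_lit 458496) (nat_lit 4) .nil)))) (.g (nat_lit 0) (.e (nat_lit 384938) (nat_lit 0) .nil) .nil))) 
(.lf (nat_lit 584509) (.g (nat_lit 1523) (.e (nat_lit 376859) (nat_lit 21) (.e (nat_lit 57847) (nat_lit 252) (.e (nat_lit 57389) (nat_lit 5) (.e (nat_lit 114695) (nat_lit 11) .nil)))) (.g (nat_lit 0) (.e (nat_lit 386264) (nat_lit 0) .nil) .nil))))) (.nd (nat_lit 8) (.nd (nat_lit 9) 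
(.lf (nat_lit 583869) (.g (nat_lit 3584) (.e (nat_lit 360474) (nat_lit 8) (.e (nat_lit 557093) (nat_lit 12) (.e (nat_lit 164023) (nat_lit 46) (.e (nat_lit 704738) (nat_lit 11) (.e (nat_lit 16384) (nat_lit 0) (.e (nat_lit 3238) (nat_lit 197) (.e (nat_lit 532550) (nat_lit 12) .nil))))))) (.g (nat_lit 1) (.e (nat_lit 384734) (nat_lit 0) .nil) .nil))) 
(.lf (nat_lit 584381) (.g (nat_lit 1622) (.e (nat_lit 376842) (nat_lit 11) (.e (nat_lit 426406) (nat_lit 15) (.e (nat_lit 6209) (nat_lit 333) (.e (nat_lit 57881) (nat_lit 270) (.e (nat_lit 174) (nat_lit 12) (.e (nat_lit 204876) (nat_lit 31) .nil)))))) (.g (nat_lit 1) (.e (nat_lit 386062) (nat_lit 0) .nil) .nil)))) (.nd (nat_lit 9) 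
(.lf (nat_lit 584125) (.g (nat_lit 3762) (.e (nat_lit 368676) (nat_lit 21) (.e (nat_lit 516131) (nat_lit 3) (.e (nat_lit 221214) (nat_lit 23) (.e (nat_lit 204830) (nat_lit 18) (.e (nat_lit 57926) (nat_lit 282) (.e (nat_lit 163874) (nat_lit 3) (.e (nat_lit 204873) (nat_lit 30) .nil))))))) (.g (nat_lit 1) (.e (nat_lit 385427) (nat_lit 0) .nil) .nil))) 
(.lf (nat_lit 584637) (.g (nat_lit 1954) (.e (nat_lit 376868) (nat_lit 23) (.e (nat_lit 98350) (nat_lit 24) (.e (nat_lit 409649) (nat_lit 18) (.e (nat_lit 303107) (nat_lit 0) .nil)))) (.g (nat_lit 0) (.e (nat_lit 386493) (nat_lit 0) .nil) .nil)))))) (.nd (nat_lit 7) (.nd (nat_lit 8) (.nd (nat_lit 9) 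
(.lf (nat_lit 583805) (.g (nat_lit 2921) (.e (nat_lit 360473) (nat_lit 8) (.e (nat_lit 557094) (nat_lit 12) (.e (nat_lit 164018) (nat_lit 45) (.e (nat_lit 696330) (nat_lit 5) (.e (nat_lit 2980) (nat_lit 185) (.e (nat_lit 434231) (nat_lit 23) (.e (nat_lit 532549) (nat_lit 12) .nil))))))) (.g (nat_lit 1) (.e (nat_lit 384634) (nat_lit 0) .nil) .nil))) 
(.lf (nat_lit 584317) (.g (nat_lit 1817) (.e (nat_lit 376835) (nat_lit 0) (.e (nat_lit 3632) (nat_lit 227) (.e (nat_lit 778323) (nat_lit 5) (.e (nat_lit 73781) (nat_lit 32) (.e (nat_lit 2854) (nat_lit 184) (.e (nat_lit 426556) (nat_lit 32) .nil)))))) (.g (nat_lit 1) (.e (nat_lit 385797) (nat_lit 0) .nil) .nil)))) (.nd (nat_lit 9) 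
(.lf (nat_lit 584061) (.g (nat_lit 2293) (.e (nat_lit 368676) (nat_lit 21) (.e (nat_lit 516119) (nat_lit 1) (.e (nat_lit 164179) (nat_lit 154) (.e (nat_lit 57411) (nat_lit 12) (.e (nat_lit 336454) (nat_lit 34) .nil))))) (.g (nat_lit 0) (.e (nat_lit 385352) (nat_lit 0) .nil) .nil))) 
(.lf (nat_lit 584573) (.g (nat_lit 3100) (.e (nat_lit 376862) (nat_lit 22) (.e (nat_lit 90158) (nat_lit 11) (.e (nat_lit 24599) (nat_lit 1) (.e (nat_lit 57931) (nat_lit 282) (.e (nat_lit 163902) (nat_lit 12) (.e (nat_lit 426555) (nat_lit 32) .nil)))))) (.g (nat_lit 1) (.e (nat_lit 386374) (nat_lit 0) .nil) .nil))))) (.nd (nat_lit 8) (.nd (nat_lit 9) 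
(.lf (nat_lit 583933) (.g (nat_lit 750) (.e (nat_lit 360475) (nat_lit 8) (.e (nat_lit 557090) (nat_lit 12) (.e (nat_lit 163850) (nat_lit 0) .nil))) (.g (nat_lit 0) (.e (nat_lit 384818) (nat_lit 0) .nil) .nil))) 
(.lf (nat_lit 584445) (.g (nat_lit 1475) (.e (nat_lit 376856) (nat_lit 21) (.e (nat_lit 57849) (nat_lit 252) (.e (nat_lit 57390) (nat_lit 5) (.e (nat_lit 114697) (nat_lit 11) .nil)))) (.g (nat_lit 0) (.e (nat_lit 386157) (nat_lit 0) .nil) .nil)))) (.nd (nat_lit 9) 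
(.lf (nat_lit 584189) (.g (nat_lit 2866) (.e (nat_lit 368676) (nat_lit 21) (.e (nat_lit 516165) (nat_lit 12) (.e (nat_lit 450586) (nat_lit 10) (.e (nat_lit 573473) (nat_lit 12) (.e (nat_lit 57347) (nat_lit 0) (.e (nat_lit 7265) (nat_lit 384) (.e (nat_lit 57430) (nat_lit 16) .nil))))))) (.g (nat_lit 1) (.e (nat_lit 385499) (nat_lit 0) .nil) .nil))) 
(.lf (nat_lit 584701) (.g (nat_lit 2049) (.e (nat_lit 385064) (nat_lit 26) (.e (nat_lit 532515) (nat_lit 3) (.e (nat_lit 114698) (nat_lit 11) (.e (nat_lit 426139) (nat_lit 3) (.e (nat_lit 204861) (nat_lit 26) (.e (nat_lit 336194) (nat_lit 12) .nil)))))) (.g (nat_lit 1) (.e (nat_lit 386699) (nat_lit 0) .nil) .nil))))))))))) 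
(.nd (nat_lit 2) (.nd (nat_lit 3) (.nd (nat_lit 4) (.nd (nat_lit 5) (.nd (nat_lit 6) 
(.nd (nat_lit 7) (.nd (nat_lit 8) (.nd (nat_lit 9) 
(.lf (nat_lit 583683) (.g (nat_lit 3154) (.e (nat_lit 360472) (nat_lit 8) (.e (nat_lit 557090) (nat_lit 12) (.e (nat_lit 164022) (nat_lit 46) (.e (nat_lit 704629) (nat_lit 9) (.e (nat_lit 442) (nat_lit 33) .nil))))) (.g (nat_lit 0) (.e (nat_lit 384405) (nat_lit 0) .nil) .nil))) 
(.lf (nat_lit 584195) (.g (nat_lit 3186) (.e (nat_lit 368676) (nat_lit 21) (.e (nat_lit 516165) (nat_lit 12) (.e (nat_lit 450586) (nat_lit 10) (.e (nat_lit 573473) (nat_lit 12) (.e (nat_lit 57353) (nat_lit 0) (.e (nat_lit 7261) (nat_lit 384) (.e (nat_lit 57430) (nat_lit 16) .nil))))))) (.g (nat_lit 1) (.e (nat_lit 385505) (nat_lit 0) .nil) .nil)))) (.nd (nat_lit 9) 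
(.lf (nat_lit 583939) (.g (nat_lit 1184) (.e (nat_lit 360475) (nat_lit 8) (.e (nat_lit 557090) (nat_lit 12) (.e (nat_lit 164020) (nat_lit 45) (.e (nat_lit 696327) (nat_lit 5) .nil)))) (.g (nat_lit 0) (.e (nat_lit 384831) (nat_lit 0) .nil) .nil))) 
(.lf (nat_lit 584451) (.g (nat_lit 1224) (.e (nat_lit 376857) (nat_lit 21) (.e (nat_lit 57846) (nat_lit 252) (.e (nat_lit 57389) (nat_lit 5) (.e (nat_lit 114696) (nat_lit 11) .nil)))) (.g (nat_lit 0) (.e (nat_lit 386175) (nat_lit 0) .nil) .nil))))) (.nd (nat_lit 8) (.nd (nat_lit 9) 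
(.lf (nat_lit 583811) (.g (nat_lit 3605) (.e (nat_lit 360473) (nat_lit 8) (.e (nat_lit 557094) (nat_lit 12) (.e (nat_lit 164022) (nat_lit 46) (.e (nat_lit 704628) (nat_lit 9) (.e (nat_lit 375) (nat_lit 32) (.e (nat_lit 426140) (nat_lit 3) (.e (nat_lit 204868) (nat_lit 29) .nil))))))) (.g (nat_lit 1) (.e (nat_lit 384648) (nat_lit 0) .nil) .nil))) 
(.lf (nat_lit 584323) (.g (nat_lit 1903) (.e (nat_lit 376835) (nat_lit 0) (.e (nat_lit 3632) (nat_lit 227) (.e (nat_lit 778323) (nat_lit 5) (.e (nat_lit 73782) (nat_lit 32) (.e (nat_lit 2855) (nat_lit 184) (.e (nat_lit 426553) (nat_lit 32) .nil)))))) (.g (nat_lit 1) (.e (nat_lit 385803) (nat_lit 0) .nil) .nil)))) (.nd (nat_lit 9) 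
(.lf (nat_lit 584067) (.g (nat_lit 2501) (.e (nat_lit 368676) (nat_lit 21) (.e (nat_lit 516129) (nat_lit 3) (.e (nat_lit 221214) (nat_lit 23) (.e (nat_lit 204829) (nat_lit 18) (.e (nat_lit 57926) (nat_lit 282) (.e (nat_lit 163875) (nat_lit 3) (.e (nat_lit 204873) (nat_lit 30) .nil))))))) (.g (nat_lit 1) (.e (nat_lit 385360) (nat_lit 0) .nil) .nil))) 
(.lf (nat_lit 584579) (.g (nat_lit 1468) (.e (nat_lit 376863) (nat_lit 22) (.e (nat_lit 90130) (nat_lit 9) (.e (nat_lit 2830) (nat_lit 182) (.e (nat_lit 409648) (nat_lit 18) (.e (nat_lit 303108) (nat_lit 0) .nil))))) (.g (nat_lit 0) (.e (nat_lit 386388) (nat_lit 0) .nil) .nil)))))) (.nd (nat_lit 7) (.nd (nat_lit 8) (.nd (nat_lit 9) 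
(.lf (nat_lit 583747) (.g (nat_lit 2004) (.e (nat_lit 360473) (nat_lit 8) (.e (nat_lit 557090) (nat_lit 12) (.e (nat_lit 163850) (nat_lit 0) (.e (nat_lit 6273) (nat_lit 337) .nil)))) (.g (nat_lit 0) (.e (nat_lit 384520) (nat_lit 0) .nil) .nil))) 
(.lf (nat_lit 584259) (.g (nat_lit 4996) (.e (nat_lit 368676) (nat_lit 21) (.e (nat_lit 516166) (nat_lit 12) (.e (nat_lit 450588) (nat_lit 10) (.e (nat_lit 573475) (nat_lit 12) (.e (nat_lit 57353) (nat_lit 0) (.e (nat_lit 7261) (nat_lit 384) (.e (nat_lit 57430) (nat_lit 16) .nil))))))) (.g (nat_lit 1) (.e (nat_lit 385569) (nat_lit 0) .nil) .nil)))) (.nd (nat_lit 9) 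
(.lf (nat_lit 584003) (.g (nat_lit 397) (.e (nat_lit 360493) (nat_lit 27) (.e (nat_lit 819204) (nat_lit 0) (.e (nat_lit 3027) (nat_lit 187) .nil))) (.g (nat_lit 0) (.e (nat_lit 384944) (nat_lit 0) .nil) .nil))) 
(.lf (nat_lit 584515) (.g (nat_lit 3349) (.e (nat_lit 376859) (nat_lit 21) (.e (nat_lit 57849) (nat_lit 252) (.e (nat_lit 57388) (nat_lit 5) (.e (nat_lit 114697) (nat_lit 11) (.e (nat_lit 426190) (nat_lit 9) (.e (nat_lit 426555) (nat_lit 32) .nil)))))) (.g (nat_lit 1) (.e (nat_lit 386272) (nat_lit 0) .nil) .nil))))) (.nd (nat_lit 8) (.nd (nat_lit 9) 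
(.lf (nat_lit 583875) (.g (nat_lit 2258) (.e (nat_lit 360474) (nat_lit 8) (.e (nat_lit 557094) (nat_lit 12) (.e (nat_lit 164022) (nat_lit 46) (.e (nat_lit 704628) (nat_lit 9) (.e (nat_lit 450) (nat_lit 33) (.e (nat_lit 434235) (nat_lit 24) (.e (nat_lit 540706) (nat_lit 12) .nil))))))) (.g (nat_lit 1) (.e (nat_lit 384740) (nat_lit 0) .nil) .nil))) 
(.lf (nat_lit 584387) (.g (nat_lit 1601) (.e (nat_lit 376842) (nat_lit 11) (.e (nat_lit 426410) (nat_lit 15) (.e (nat_lit 6206) (nat_lit 333) (.e (nat_lit 57883) (nat_lit 270) (.e (nat_lit 174) (nat_lit 12) (.e (nat_lit 204876) (nat_lit 31) .nil)))))) (.g (nat_lit 1) (.e (nat_lit 386068) (nat_lit 0) .nil) .nil)))) (.nd (nat_lit 9) 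
(.lf (nat_lit 584131) (.g (nat_lit 3418) (.e (nat_lit 368676) (nat_lit 21) (.e (nat_lit 516131) (nat_lit 3) (.e (nat_lit 221214) (nat_lit 23) (.e (nat_lit 204830) (nat_lit 18) (.e (nat_lit 57929) (nat_lit 282) (.e (nat_lit 163874) (nat_lit 3) (.e (nat_lit 204872) (nat_lit 30) .nil))))))) (.g (nat_lit 1) (.e (nat_lit 385433) (nat_lit 0) .nil) .nil))) 
(.lf (nat_lit 584643) (.g (nat_lit 2649) (.e (nat_lit 376869) (nat_lit 23) (.e (nat_lit 98312) (nat_lit 9) (.e (nat_lit 335988) (nat_lit 1) (.e (nat_lit 57931) (nat_lit 282) (.e (nat_lit 163905) (nat_lit 12) (.e (nat_lit 426555) (nat_lit 32) .nil)))))) (.g (nat_lit 1) (.e (nat_lit 386501) (nat_lit 0) .nil) .nil))))))) (.nd (nat_lit 6) (.nd (nat_lit 7) (.nd (nat_lit 8) (.nd (nat_lit 9) 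
(.lf (nat_lit 583715) (.g (nat_lit 350) (.e (nat_lit 360473) (nat_lit 8) (.e (nat_lit 557089) (nat_lit 12) (.e (nat_lit 163844) (nat_lit 0) .nil))) (.g (nat_lit 0) (.e (nat_lit 384473) (nat_lit 0) .nil) .nil))) 
(.lf (nat_lit 584227) (.g (nat_lit 4524) (.e (nat_lit 368676) (nat_lit 21) (.e (nat_lit 516165) (nat_lit 12) (.e (nat_lit 450588) (nat_lit 10) (.e (nat_lit 573475) (nat_lit 12) (.e (nat_lit 57347) (nat_lit 0) (.e (nat_lit 7265) (nat_lit 384) (.e (nat_lit 57430) (nat_lit 16) .nil))))))) (.g (nat_lit 1) (.e (nat_lit 385537) (nat_lit 0) .nil) .nil)))) (.nd (nat_lit 9) 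
(.lf (nat_lit 583971) (.g (nat_lit 757) (.e (nat_lit 360493) (nat_lit 27) (.e (nat_lit 819203) (nat_lit 0) (.e (nat_lit 3016) (nat_lit 187) (.e (nat_lit 450577) (nat_lit 4) (.e (nat_lit 532224) (nat_lit 29) .nil))))) (.g (nat_lit 1) (.e (nat_lit 384902) (nat_lit 0) .nil) .nil))) 
(.lf (nat_lit 584483) (.g (nat_lit 1154) (.e (nat_lit 376857) (nat_lit 21) (.e (nat_lit 57854) (nat_lit 252) (.e (nat_lit 57354) (nat_lit 0) (.e (nat_lit 2061) (nat_lit 142) .nil)))) (.g (nat_lit 0) (.e (nat_lit 386218) (nat_lit 0) .nil) .nil))))) (.nd (nat_lit 8) (.nd (nat_lit 9) 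
(.lf (nat_lit 583843) (.g (nat_lit 2417) (.e (nat_lit 360474) (nat_lit 8) (.e (nat_lit 557093) (nat_lit 12) (.e (nat_lit 164022) (nat_lit 46) (.e (nat_lit 704736) (nat_lit 11) (.e (nat_lit 16385) (nat_lit 0) (.e (nat_lit 3262) (nat_lit 198) (.e (nat_lit 540706) (nat_lit 12) .nil))))))) (.g (nat_lit 1) (.e (nat_lit 384708) (nat_lit 0) .nil) .nil))) 
(.lf (nat_lit 584355) (.g (nat_lit 1620) (.e (nat_lit 384768) (nat_lit 5) (.e (nat_lit 221207) (nat_lit 21) (.e (nat_lit 164327) (nat_lit 230) (.e (nat_lit 163933) (nat_lit 17) (.e (nat_lit 474880) (nat_lit 16) .nil))))) (.g (nat_lit 0) (.e (nat_lit 386011) (nat_lit 0) .nil) .nil)))) (.nd (nat_lit 9) 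
(.lf (nat_lit 584099) (.g (nat_lit 2620) (.e (nat_lit 368676) (nat_lit 21) (.e (nat_lit 516129) (nat_lit 3) (.e (nat_lit 221215) (nat_lit 23) (.e (nat_lit 204830) (nat_lit 18) (.e (nat_lit 57927) (nat_lit 282) (.e (nat_lit 163874) (nat_lit 3) (.e (nat_lit 204873) (nat_lit 30) .nil))))))) (.g (nat_lit 1) (.e (nat_lit 385392) (nat_lit 0) .nil) .nil))) 
(.lf (nat_lit 584611) (.g (nat_lit 2923) (.e (nat_lit 376867) (nat_lit 23) (.e (nat_lit 98317) (nat_lit 9) (.e (nat_lit 335988) (nat_lit 1) (.e (nat_lit 57926) (nat_lit 282) (.e (nat_lit 163902) (nat_lit 12) (.e (nat_lit 426555) (nat_lit 32) .nil)))))) (.g (nat_lit 1) (.e (nat_lit 386455) (nat_lit 0) .nil) .nil)))))) (.nd (nat_lit 7) (.nd (nat_lit 8) (.nd (nat_lit 9) 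
(.lf (nat_lit 583779) (.g (nat_lit 2724) (.e (nat_lit 360473) (nat_lit 8) (.e (nat_lit 557093) (nat_lit 12) (.e (nat_lit 164018) (nat_lit 45) (.e (nat_lit 696330) (nat_lit 5) (.e (nat_lit 2884) (nat_lit 184) (.e (nat_lit 426140) (nat_lit 3) (.e (nat_lit 204868) (nat_lit 29) .nil))))))) (.g (nat_lit 1) (.e (nat_lit 384581) (nat_lit 0) .nil) .nil))) 
(.lf (nat_lit 584291) (.g (nat_lit 2060) (.e (nat_lit 368682) (nat_lit 26) (.e (nat_lit 557091) (nat_lit 12) (.e (nat_lit 164022) (nat_lit 46) (.e (nat_lit 704738) (nat_lit 11) (.e (nat_lit 16416) (nat_lit 3) .nil))))) (.g (nat_lit 0) (.e (nat_lit 385636) (nat_lit 0) .nil) .nil)))) (.nd (nat_lit 9) 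
(.lf (nat_lit 584035) (.g (nat_lit 1963) (.e (nat_lit 368656) (nat_lit 14) (.e (nat_lit 57813) (nat_lit 246) (.e (nat_lit 57610) (nat_lit 109) (.e (nat_lit 720909) (nat_lit 11) (.e (nat_lit 426200) (nat_lit 9) (.e (nat_lit 426550) (nat_lit 31) .nil)))))) (.g (nat_lit 1) (.e (nat_lit 385175) (nat_lit 0) .nil) .nil))) 
(.lf (nat_lit 584547) (.g (nat_lit 2385) (.e (nat_lit 376860) (nat_lit 21) (.e (nat_lit 57853) (nat_lit 252) (.e (nat_lit 57389) (nat_lit 5) (.e (nat_lit 114695) (nat_lit 11) (.e (nat_lit 426234) (nat_lit 9) (.e (nat_lit 426554) (nat_lit 32) .nil)))))) (.g (nat_lit 1) (.e (nat_lit 386325) (nat_lit 0) .nil) .nil))))) (.nd (nat_lit 8) (.nd (nat_lit 9) 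
(.lf (nat_lit 583907) (.g (nat_lit 3948) (.e (nat_lit 360475) (nat_lit 8) (.e (nat_lit 557067) (nat_lit 9) (.e (nat_lit 214) (nat_lit 19) (.e (nat_lit 319490) (nat_lit 0) (.e (nat_lit 5664) (nat_lit 312) (.e (nat_lit 2440) (nat_lit 157) (.e (nat_lit 3262) (nat_lit 198) (.e (nat_lit 540706) (nat_lit 12) .nil)))))))) (.g (nat_lit 1) (.e (nat_lit 384778) (nat_lit 0) .nil) .nil))) 
(.lf (nat_lit 584419) (.g (nat_lit 939) (.e (nat_lit 376855) (nat_lit 20) (.e (nat_lit 1800) (nat_lit 119) (.e (nat_lit 516139) (nat_lit 7) (.e (nat_lit 409643) (nat_lit 18) .nil)))) (.g (nat_lit 0) (.e (nat_lit 386116) (nat_lit 0) .nil) .nil)))) (.nd (nat_lit 9) 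
(.lf (nat_lit 584163) (.g (nat_lit 4288) (.e (nat_lit 368676) (nat_lit 21) (.e (nat_lit 516131) (nat_lit 3) (.e (nat_lit 221215) (nat_lit 23) (.e (nat_lit 204831) (nat_lit 18) (.e (nat_lit 57931) (nat_lit 282) (.e (nat_lit 163874) (nat_lit 3) (.e (nat_lit 204872) (nat_lit 30) .nil))))))) (.g (nat_lit 1) (.e (nat_lit 385470) (nat_lit 0) .nil) .nil))) 
(.lf (nat_lit 584675) (.g (nat_lit 1548) (.e (nat_lit 392960) (nat_lit 5) (.e (nat_lit 73753) (nat_lit 8) (.e (nat_lit 557119) (nat_lit 18) (.e (nat_lit 2817) (nat_lit 181) .nil)))) (.g (nat_lit 0) (.e (nat_lit 386601) (nat_lit 0) .nil) .nil)))))))) (.nd (nat_lit 5) (.nd (nat_lit 6) (.nd (nat_lit 7) (.nd (nat_lit 8) (.nd (nat_lit 9) 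
(.lf (nat_lit 583699) (.g (nat_lit 3184) (.e (nat_lit 360473) (nat_lit 8) (.e (nat_lit 557087) (nat_lit 11) (.e (nat_lit 24617) (nat_lit 7) (.e (nat_lit 319505) (nat_lit 10) (.e (nat_lit 7936) (nat_lit 46) (.e (nat_lit 540704) (nat_lit 12) .nil)))))) (.g (nat_lit 1) (.e (nat_lit 384456) (nat_lit 0) .nil) .nil))) 
(.lf (nat_lit 584211) (.g (nat_lit 4675) (.e (nat_lit 368676) (nat_lit 21) (.e (nat_lit 516165) (nat_lit 12) (.e (nat_lit 450588) (nat_lit 10) (.e (nat_lit 573473) (nat_lit 12) (.e (nat_lit 57347) (nat_lit 0) (.e (nat_lit 7266) (nat_lit 384) (.e (nat_lit 57431) (nat_lit 16) .nil))))))) (.g (nat_lit 1) (.e (nat_lit 385521) (nat_lit 0) .nil) .nil)))) (.nd (nat_lit 9) 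
(.lf (nat_lit 583955) (.g (nat_lit 3194) (.e (nat_lit 360475) (nat_lit 8) (.e (nat_lit 557091) (nat_lit 12) (.e (nat_lit 164022) (nat_lit 46) (.e (nat_lit 704737) (nat_lit 11) (.e (nat_lit 16397) (nat_lit 0) (.e (nat_lit 3258) (nat_lit 198) (.e (nat_lit 540706) (nat_lit 12) .nil))))))) (.g (nat_lit 1) (.e (nat_lit 384851) (nat_lit 0) .nil) .nil))) 
(.lf (nat_lit 584467) (.g (nat_lit 2957) (.e (nat_lit 376857) (nat_lit 21) (.e (nat_lit 57849) (nat_lit 252) (.e (nat_lit 57390) (nat_lit 5) (.e (nat_lit 114698) (nat_lit 11) (.e (nat_lit 426188) (nat_lit 9) (.e (nat_lit 426555) (nat_lit 32) .nil)))))) (.g (nat_lit 1) (.e (nat_lit 386196) (nat_lit 0) .nil) .nil))))) (.nd (nat_lit 8) (.nd (nat_lit 9) 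
(.lf (nat_lit 583827) (.g (nat_lit 3438) (.e (nat_lit 360474) (nat_lit 8) (.e (nat_lit 557091) (nat_lit 12) (.e (nat_lit 163850) (nat_lit 0) (.e (nat_lit 6425) (nat_lit 342) (.e (nat_lit 229406) (nat_lit 12) (.e (nat_lit 426138) (nat_lit 3) (.e (nat_lit 204869) (nat_lit 29) .nil))))))) (.g (nat_lit 1) (.e (nat_lit 384687) (nat_lit 0) .nil) .nil))) 
(.lf (nat_lit 584339) (.g (nat_lit 1598) (.e (nat_lit 384768) (nat_lit 5) (.e (nat_lit 221206) (nat_lit 21) (.e (nat_lit 164332) (nat_lit 230) (.e (nat_lit 163905) (nat_lit 12) (.e (nat_lit 426233) (nat_lit 9) .nil))))) (.g (nat_lit 0) (.e (nat_lit 385988) (nat_lit 0) .nil) .nil)))) (.nd (nat_lit 9) 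
(.lf (nat_lit 584083) (.g (nat_lit 2383) (.e (nat_lit 368676) (nat_lit 21) (.e (nat_lit 516129) (nat_lit 3) (.e (nat_lit 221214) (nat_lit 23) (.e (nat_lit 204830) (nat_lit 18) (.e (nat_lit 57929) (nat_lit 282) (.e (nat_lit 163874) (nat_lit 3) (.e (nat_lit 204872) (nat_lit 30) .nil))))))) (.g (nat_lit 1) (.e (nat_lit 385376) (nat_lit 0) .nil) .nil))) 
(.lf (nat_lit 584595) (.g (nat_lit 2699) (.e (nat_lit 376866) (nat_lit 23) (.e (nat_lit 98350) (nat_lit 24) (.e (nat_lit 409645) (nat_lit 18) (.e (nat_lit 303112) (nat_lit 0) (.e (nat_lit 3252) (nat_lit 197) .nil))))) (.g (nat_lit 0) (.e (nat_lit 386431) (nat_lit 0) .nil) .nil)))))) (.nd (nat_lit 7) (.nd (nat_lit 8) (.nd (nat_lit 9) 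
(.lf (nat_lit 583763) (.g (nat_lit 3624) (.e (nat_lit 360473) (nat_lit 8) (.e (nat_lit 557091) (nat_lit 12) (.e (nat_lit 164020) (nat_lit 45) (.e (nat_lit 696327) (nat_lit 5) (.e (nat_lit 2884) (nat_lit 184) (.e (nat_lit 426140) (nat_lit 3) (.e (nat_lit 204868) (nat_lit 29) .nil))))))) (.g (nat_lit 1) (.e (nat_lit 384555) (nat_lit 0) .nil) .nil))) 
(.lf (nat_lit 584275) (.g (nat_lit 1584) (.e (nat_lit 368676) (nat_lit 21) (.e (nat_lit 516195) (nat_lit 26) (.e (nat_lit 335996) (nat_lit 1) (.e (nat_lit 57931) (nat_lit 282) (.e (nat_lit 163941) (nat_lit 19) .nil))))) (.g (nat_lit 0) (.e (nat_lit 385607) (nat_lit 0) .nil) .nil)))) (.nd (nat_lit 9) 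
(.lf (nat_lit 584019) (.g (nat_lit 1965) (.e (nat_lit 376576) (nat_lit 4) (.e (nat_lit 172074) (nat_lit 6) (.e (nat_lit 253992) (nat_lit 11) (.e (nat_lit 16433) (nat_lit 9) (.e (nat_lit 426551) (nat_lit 31) .nil))))) (.g (nat_lit 0) (.e (nat_lit 385068) (nat_lit 0) .nil) .nil))) 
(.lf (nat_lit 584531) (.g (nat_lit 2190) (.e (nat_lit 376859) (nat_lit 21) (.e (nat_lit 57854) (nat_lit 252) (.e (nat_lit 57389) (nat_lit 5) (.e (nat_lit 114698) (nat_lit 11) (.e (nat_lit 426197) (nat_lit 9) .nil))))) (.g (nat_lit 0) (.e (nat_lit 386288) (nat_lit 0) .nil) .nil))))) (.nd (nat_lit 8) (.nd (nat_lit 9) 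
(.lf (nat_lit 583891) (.g (nat_lit 2356) (.e (nat_lit 360474) (nat_lit 8) (.e (nat_lit 557094) (nat_lit 12) (.e (nat_lit 164022) (nat_lit 46) (.e (nat_lit 704737) (nat_lit 11) (.e (nat_lit 16390) (nat_lit 0) (.e (nat_lit 3262) (nat_lit 198) (.e (nat_lit 540706) (nat_lit 12) .nil))))))) (.g (nat_lit 1) (.e (nat_lit 384759) (nat_lit 0) .nil) .nil))) 
(.lf (nat_lit 584403) (.g (nat_lit 406) (.e (nat_lit 384768) (nat_lit 18) (.e (nat_lit 483363) (nat_lit 18) (.e (nat_lit 57847) (nat_lit 252) .nil))) (.g (nat_lit 0) (.e (nat_lit 386090) (nat_lit 0) .nil) .nil)))) (.nd (nat_lit 9) 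
(.lf (nat_lit 584147) (.g (nat_lit 3209) (.e (nat_lit 368676) (nat_lit 21) (.e (nat_lit 516131) (nat_lit 3) (.e (nat_lit 221215) (nat_lit 23) (.e (nat_lit 204829) (nat_lit 18) (.e (nat_lit 57927) (nat_lit 282) (.e (nat_lit 163873) (nat_lit 3) (.e (nat_lit 204873) (nat_lit 30) .nil))))))) (.g (nat_lit 1) (.e (nat_lit 385454) (nat_lit 0) .nil) .nil))) 
(.lf (nat_lit 584659) (.g (nat_lit 413) (.e (nat_lit 376869) (nat_lit 23) (.e (nat_lit 98349) (nat_lit 24) (.e (nat_lit 417536) (nat_lit 10) .nil))) (.g (nat_lit 0) (.e (nat_lit 386533) (nat_lit 0) .nil) .nil))))))) (.nd (nat_lit 6) (.nd (nat_lit 7) (.nd (nat_lit 8) (.nd (nat_lit 9) 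
(.lf (nat_lit 583731) (.g (nat_lit 4167) (.e (nat_lit 360473) (nat_lit 8) (.e (nat_lit 557089) (nat_lit 12) (.e (nat_lit 164017) (nat_lit 44) (.e (nat_lit 688138) (nat_lit 5) (.e (nat_lit 2887) (nat_lit 184) (.e (nat_lit 426140) (nat_lit 3) (.e (nat_lit 204868) (nat_lit 29) .nil))))))) (.g (nat_lit 1) (.e (nat_lit 384504) (nat_lit 0) .nil) .nil))) 
(.lf (nat_lit 584243) (.g (nat_lit 4612) (.e (nat_lit 368676) (nat_lit 21) (.e (nat_lit 516166) (nat_lit 12) (.e (nat_lit 450587) (nat_lit 10) (.e (nat_lit 573477) (nat_lit 12) (.e (nat_lit 57353) (nat_lit 0) (.e (nat_lit 7266) (nat_lit 384) (.e (nat_lit 57431) (nat_lit 16) .nil))))))) (.g (nat_lit 1) (.e (nat_lit 385553) (nat_lit 0) .nil) .nil)))) (.nd (nat_lit 9) 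
(.lf (nat_lit 583987) (.g (nat_lit 1054) (.e (nat_lit 360493) (nat_lit 27) (.e (nat_lit 819204) (nat_lit 0) (.e (nat_lit 3015) (nat_lit 187) (.e (nat_lit 450584) (nat_lit 9) .nil)))) (.g (nat_lit 0) (.e (nat_lit 384925) (nat_lit 0) .nil) .nil))) 
(.lf (nat_lit 584499) (.g (nat_lit 1332) (.e (nat_lit 376858) (nat_lit 21) (.e (nat_lit 57854) (nat_lit 252) (.e (nat_lit 57389) (nat_lit 5) (.e (nat_lit 122624) (nat_lit 11) .nil)))) (.g (nat_lit 0) (.e (nat_lit 386243) (nat_lit 0) .nil) .nil))))) (.nd (nat_lit 8) (.nd (nat_lit 9) 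
(.lf (nat_lit 583859) (.g (nat_lit 2887) (.e (nat_lit 360474) (nat_lit 8) (.e (nat_lit 557093) (nat_lit 12) (.e (nat_lit 164022) (nat_lit 46) (.e (nat_lit 704738) (nat_lit 11) (.e (nat_lit 16396) (nat_lit 0) (.e (nat_lit 3258) (nat_lit 198) (.e (nat_lit 540706) (nat_lit 12) .nil))))))) (.g (nat_lit 1) (.e (nat_lit 384724) (nat_lit 0) .nil) .nil))) 
(.lf (nat_lit 584371) (.g (nat_lit 1293) (.e (nat_lit 376842) (nat_lit 11) (.e (nat_lit 426100) (nat_lit 1) (.e (nat_lit 164182) (nat_lit 154) (.e (nat_lit 57410) (nat_lit 12) .nil)))) (.g (nat_lit 0) (.e (nat_lit 386051) (nat_lit 0) .nil) .nil)))) (.nd (nat_lit 9) 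
(.lf (nat_lit 584115) (.g (nat_lit 3166) (.e (nat_lit 368676) (nat_lit 21) (.e (nat_lit 516131) (nat_lit 3) (.e (nat_lit 221214) (nat_lit 23) (.e (nat_lit 204829) (nat_lit 18) (.e (nat_lit 57926) (nat_lit 282) (.e (nat_lit 163874) (nat_lit 3) (.e (nat_lit 204873) (nat_lit 30) .nil))))))) (.g (nat_lit 1) (.e (nat_lit 385417) (nat_lit 0) .nil) .nil))) 
(.lf (nat_lit 584627) (.g (nat_lit 842) (.e (nat_lit 376868) (nat_lit 23) (.e (nat_lit 98350) (nat_lit 24) (.e (nat_lit 409614) (nat_lit 10) .nil))) (.g (nat_lit 0) (.e (nat_lit 386478) (nat_lit 0) .nil) .nil)))))) (.nd (nat_lit 7) (.nd (nat_lit 8) (.nd (nat_lit 9) 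
(.lf (nat_lit 583795) (.g (nat_lit 2583) (.e (nat_lit 360473) (nat_lit 8) (.e (nat_lit 557094) (nat_lit 12) (.e (nat_lit 164018) (nat_lit 45) (.e (nat_lit 696327) (nat_lit 5) (.e (nat_lit 2884) (nat_lit 184) (.e (nat_lit 426140) (nat_lit 3) (.e (nat_lit 204868) (nat_lit 29) .nil))))))) (.g (nat_lit 1) (.e (nat_lit 384624) (nat_lit 0) .nil) .nil))) 
(.lf (nat_lit 584307) (.g (nat_lit 2431) (.e (nat_lit 376835) (nat_lit 0) (.e (nat_lit 3253) (nat_lit 197) (.e (nat_lit 532513) (nat_lit 3) (.e (nat_lit 114697) (nat_lit 11) (.e (nat_lit 426137) (nat_lit 3) (.e (nat_lit 204876) (nat_lit 31) .nil)))))) (.g (nat_lit 1) (.e (nat_lit 385745) (nat_lit 0) .nil) .nil)))) (.nd (nat_lit 9) 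
(.lf (nat_lit 584051) (.g (nat_lit 3297) (.e (nat_lit 368676) (nat_lit 21) (.e (nat_lit 516098) (nat_lit 0) (.e (nat_lit 7593) (nat_lit 407) (.e (nat_lit 73753) (nat_lit 8) (.e (nat_lit 557086) (nat_lit 11) (.e (nat_lit 24646) (nat_lit 11) .nil)))))) (.g (nat_lit 1) (.e (nat_lit 385318) (nat_lit 0) .nil) .nil))) 
(.lf (nat_lit 584563) (.g (nat_lit 2046) (.e (nat_lit 376860) (nat_lit 21) (.e (nat_lit 57930) (nat_lit 282) (.e (nat_lit 163896) (nat_lit 10) (.e (nat_lit 409617) (nat_lit 10) (.e (nat_lit 5772) (nat_lit 316) (.e (nat_lit 179968) (nat_lit 32) .nil)))))) (.g (nat_lit 1) (.e (nat_lit 386350) (nat_lit 0) .nil) .nil))))) (.nd (nat_lit 8) (.nd (nat_lit 9) 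
(.lf (nat_lit 583923) (.g (nat_lit 1680) (.e (nat_lit 360475) (nat_lit 8) (.e (nat_lit 557089) (nat_lit 12) (.e (nat_lit 164019) (nat_lit 45) (.e (nat_lit 696345) (nat_lit 9) (.e (nat_lit 188160) (nat_lit 5) (.e (nat_lit 532550) (nat_lit 12) .nil)))))) (.g (nat_lit 1) (.e (nat_lit 384807) (nat_lit 0) .nil) .nil))) 
(.lf (nat_lit 584435) (.g (nat_lit 618) (.e (nat_lit 376855) (nat_lit 20) (.e (nat_lit 1856) (nat_lit 124) (.e (nat_lit 557072) (nat_lit 9) .nil))) (.g (nat_lit 0) (.e (nat_lit 386140) (nat_lit 0) .nil) .nil)))) (.nd (nat_lit 9) 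
(.lf (nat_lit 584179) (.g (nat_lit 2653) (.e (nat_lit 368676) (nat_lit 21) (.e (nat_lit 516139) (nat_lit 7) (.e (nat_lit 409647) (nat_lit 18) (.e (nat_lit 303119) (nat_lit 3) (.e (nat_lit 204861) (nat_lit 26) (.e (nat_lit 336186) (nat_lit 11) .nil)))))) (.g (nat_lit 1) (.e (nat_lit 385488) (nat_lit 0) .nil) .nil))) 
(.lf (nat_lit 584691) (.g (nat_lit 456) (.e (nat_lit 392960) (nat_lit 10) (.e (nat_lit 24651) (nat_lit 12) (.e (nat_lit 385068) (nat_lit 26) .nil))) (.g (nat_lit 0) (.e (nat_lit 386649) (nat_lit 0) .nil) .nil))))))))) (.nd (nat_lit 4) (.nd (nat_lit 5) (.nd (nat_lit 6) (.nd (nat_lit 7) (.nd (nat_lit 8) (.nd (nat_lit 9) 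
(.lf (nat_lit 583691) (.g (nat_lit 3072) (.e (nat_lit 360473) (nat_lit 8) (.e (nat_lit 557087) (nat_lit 11) (.e (nat_lit 24580) (nat_lit 0) (.e (nat_lit 6619) (nat_lit 357) (.e (nat_lit 2685) (nat_lit 168) (.e (nat_lit 204868) (nat_lit 29) .nil)))))) (.g (nat_lit 1) (.e (nat_lit 384443) (nat_lit 0) .nil) .nil))) 
(.lf (nat_lit 584203) (.g (nat_lit 3309) (.e (nat_lit 368676) (nat_lit 21) (.e (nat_lit 516165) (nat_lit 12) (.e (nat_lit 450586) (nat_lit 10) (.e (nat_lit 573475) (nat_lit 12) (.e (nat_lit 57348) (nat_lit 0) (.e (nat_lit 7265) (nat_lit 384) (.e (nat_lit 57430) (nat_lit 16) .nil))))))) (.g (nat_lit 1) (.e (nat_lit 385513) (nat_lit 0) .nil) .nil)))) (.nd (nat_lit 9) 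
(.lf (nat_lit 583947) (.g (nat_lit 2160) (.e (nat_lit 360475) (nat_lit 8) (.e (nat_lit 557090) (nat_lit 12) (.e (nat_lit 164020) (nat_lit 45) (.e (nat_lit 696344) (nat_lit 8) (.e (nat_lit 172035) (nat_lit 0) (.e (nat_lit 7936) (nat_lit 198) (.e (nat_lit 540706) (nat_lit 12) .nil))))))) (.g (nat_lit 1) (.e (nat_lit 384840) (nat_lit 0) .nil) .nil))) 
(.lf (nat_lit 584459) (.g (nat_lit 830) (.e (nat_lit 376857) (nat_lit 21) (.e (nat_lit 57848) (nat_lit 252) (.e (nat_lit 57388) (nat_lit 5) (.e (nat_lit 122624) (nat_lit 11) .nil)))) (.g (nat_lit 0) (.e (nat_lit 386186) (nat_lit 0) .nil) .nil))))) (.nd (nat_lit 8) (.nd (nat_lit 9) 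
(.lf (nat_lit 583819) (.g (nat_lit 1700) (.e (nat_lit 360474) (nat_lit 8) (.e (nat_lit 557072) (nat_lit 9) (.e (nat_lit 290) (nat_lit 21) (.e (nat_lit 336231) (nat_lit 14) (.e (nat_lit 401408) (nat_lit 0) .nil))))) (.g (nat_lit 0) (.e (nat_lit 384669) (nat_lit 0) .nil) .nil))) 
(.lf (nat_lit 584331) (.g (nat_lit 943) (.e (nat_lit 384768) (nat_lit 3) (.e (nat_lit 204837) (nat_lit 20) (.e (nat_lit 114695) (nat_lit 11) (.e (nat_lit 426129) (nat_lit 3) (.e (nat_lit 204878) (nat_lit 31) .nil))))) (.g (nat_lit 0) (.e (nat_lit 385930) (nat_lit 0) .nil) .nil)))) (.nd (nat_lit 9) 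
(.lf (nat_lit 584075) (.g (nat_lit 2430) (.e (nat_lit 368676) (nat_lit 21) (.e (nat_lit 516129) (nat_lit 3) (.e (nat_lit 221214) (nat_lit 23) (.e (nat_lit 204830) (nat_lit 18) (.e (nat_lit 57926) (nat_lit 282) (.e (nat_lit 163874) (nat_lit 3) (.e (nat_lit 204872) (nat_lit 30) .nil))))))) (.g (nat_lit 1) (.e (nat_lit 385368) (nat_lit 0) .nil) .nil))) 
(.lf (nat_lit 584587) (.g (nat_lit 1349) (.e (nat_lit 376865) (nat_lit 22) (.e (nat_lit 90160) (nat_lit 11) (.e (nat_lit 24584) (nat_lit 0) (.e (nat_lit 1055) (nat_lit 81) .nil)))) (.g (nat_lit 0) (.e (nat_lit 386413) (nat_lit 0) .nil) .nil)))))) (.nd (nat_lit 7) (.nd (nat_lit 8) (.nd (nat_lit 9) 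
(.lf (nat_lit 583755) (.g (nat_lit 635) (.e (nat_lit 360473) (nat_lit 8) (.e (nat_lit 557091) (nat_lit 12) (.e (nat_lit 163849) (nat_lit 0) .nil))) (.g (nat_lit 0) (.e (nat_lit 384532) (nat_lit 0) .nil) .nil))) 
(.lf (nat_lit 584267) (.g (nat_lit 5555) (.e (nat_lit 368676) (nat_lit 21) (.e (nat_lit 516166) (nat_lit 12) (.e (nat_lit 450588) (nat_lit 10) (.e (nat_lit 573478) (nat_lit 12) .nil)))) (.g (nat_lit 0) (.e (nat_lit 385577) (nat_lit 0) .nil) .nil)))) (.nd (nat_lit 9) 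
(.lf (nat_lit 584011) (.g (nat_lit 696) (.e (nat_lit 360493) (nat_lit 27) (.e (nat_lit 819204) (nat_lit 0) (.e (nat_lit 3028) (nat_lit 187) (.e (nat_lit 450577) (nat_lit 4) (.e (nat_lit 532224) (nat_lit 29) .nil))))) (.g (nat_lit 1) (.e (nat_lit 384952) (nat_lit 0) .nil) .nil))) 
(.lf (nat_lit 584523) (.g (nat_lit 3135) (.e (nat_lit 376859) (nat_lit 21) (.e (nat_lit 57849) (nat_lit 252) (.e (nat_lit 57390) (nat_lit 5) (.e (nat_lit 114697) (nat_lit 11) (.e (nat_lit 426200) (nat_lit 9) (.e (nat_lit 426555) (nat_lit 32) .nil)))))) (.g (nat_lit 1) (.e (nat_lit 386280) (nat_lit 0) .nil) .nil))))) (.nd (nat_lit 8) (.nd (nat_lit 9) 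
(.lf (nat_lit 583883) (.g (nat_lit 2310) (.e (nat_lit 360474) (nat_lit 8) (.e (nat_lit 557094) (nat_lit 12) (.e (nat_lit 164022) (nat_lit 46) (.e (nat_lit 704629) (nat_lit 9) (.e (nat_lit 452) (nat_lit 33) (.e (nat_lit 434219) (nat_lit 19) (.e (nat_lit 499980) (nat_lit 14) (.e (nat_lit 1587) (nat_lit 111) .nil)))))))) (.g (nat_lit 1) (.e (nat_lit 384749) (nat_lit 0) .nil) .nil))) 
(.lf (nat_lit 584395) (.g (nat_lit 2295) (.e (nat_lit 376842) (nat_lit 11) (.e (nat_lit 426500) (nat_lit 27) (.e (nat_lit 335996) (nat_lit 1) (.e (nat_lit 57930) (nat_lit 282) (.e (nat_lit 163874) (nat_lit 3) (.e (nat_lit 204876) (nat_lit 31) .nil)))))) (.g (nat_lit 1) (.e (nat_lit 386076) (nat_lit 0) .nil) .nil)))) (.nd (nat_lit 9) 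
(.lf (nat_lit 584139) (.g (nat_lit 3154) (.e (nat_lit 368676) (nat_lit 21) (.e (nat_lit 516131) (nat_lit 3) (.e (nat_lit 221215) (nat_lit 23) (.e (nat_lit 204828) (nat_lit 18) (.e (nat_lit 57927) (nat_lit 282) (.e (nat_lit 163874) (nat_lit 3) (.e (nat_lit 204872) (nat_lit 30) .nil))))))) (.g (nat_lit 1) (.e (nat_lit 385446) (nat_lit 0) .nil) .nil))) 
(.lf (nat_lit 584651) (.g (nat_lit 2057) (.e (nat_lit 376869) (nat_lit 23) (.e (nat_lit 98316) (nat_lit 9) (.e (nat_lit 335988) (nat_lit 1) (.e (nat_lit 57926) (nat_lit 282) (.e (nat_lit 163904) (nat_lit 12) (.e (nat_lit 426555) (nat_lit 32) .nil)))))) (.g (nat_lit 1) (.e (nat_lit 386513) (nat_lit 0) .nil) .nil))))))) (.nd (nat_lit 6) (.nd (nat_lit 7) (.nd (nat_lit 8) (.nd (nat_lit 9) 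
(.lf (nat_lit 583723) (.g (nat_lit 2594) (.e (nat_lit 360473) (nat_lit 8) (.e (nat_lit 557089) (nat_lit 12) (.e (nat_lit 163850) (nat_lit 0) (.e (nat_lit 6425) (nat_lit 342) (.e (nat_lit 229402) (nat_lit 12) (.e (nat_lit 426136) (nat_lit 3) (.e (nat_lit 204868) (nat_lit 29) .nil))))))) (.g (nat_lit 1) (.e (nat_lit 384491) (nat_lit 0) .nil) .nil))) 
(.lf (nat_lit 584235) (.g (nat_lit 4138) (.e (nat_lit 368676) (nat_lit 21) (.e (nat_lit 516165) (nat_lit 12) (.e (nat_lit 450588) (nat_lit 10) (.e (nat_lit 573475) (nat_lit 12) (.e (nat_lit 57351) (nat_lit 0) (.e (nat_lit 7265) (nat_lit 384) (.e (nat_lit 57431) (nat_lit 16) .nil))))))) (.g (nat_lit 1) (.e (nat_lit 385545) (nat_lit 0) .nil) .nil)))) (.nd (nat_lit 9) 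
(.lf (nat_lit 583979) (.g (nat_lit 1780) (.e (nat_lit 360493) (nat_lit 27) (.e (nat_lit 819203) (nat_lit 0) (.e (nat_lit 3022) (nat_lit 187) (.e (nat_lit 450584) (nat_lit 9) (.e (nat_lit 565252) (nat_lit 0) (.e (nat_lit 1595) (nat_lit 111) .nil)))))) (.g (nat_lit 1) (.e (nat_lit 384912) (nat_lit 0) .nil) .nil))) 
(.lf (nat_lit 584491) (.g (nat_lit 485) (.e (nat_lit 376858) (nat_lit 21) (.e (nat_lit 57854) (nat_lit 252) (.e (nat_lit 57388) (nat_lit 5) .nil))) (.g (nat_lit 0) (.e (nat_lit 386235) (nat_lit 0) .nil) .nil))))) (.nd (nat_lit 8) (.nd (nat_lit 9) 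
(.lf (nat_lit 583851) (.g (nat_lit 3014) (.e (nat_lit 360474) (nat_lit 8) (.e (nat_lit 557093) (nat_lit 12) (.e (nat_lit 164022) (nat_lit 46) (.e (nat_lit 704737) (nat_lit 11) (.e (nat_lit 16395) (nat_lit 0) (.e (nat_lit 3262) (nat_lit 198) (.e (nat_lit 540706) (nat_lit 12) .nil))))))) (.g (nat_lit 1) (.e (nat_lit 384716) (nat_lit 0) .nil) .nil))) 
(.lf (nat_lit 584363) (.g (nat_lit 1705) (.e (nat_lit 376838) (nat_lit 11) (.e (nat_lit 426108) (nat_lit 1) (.e (nat_lit 164183) (nat_lit 154) (.e (nat_lit 57409) (nat_lit 12) (.e (nat_lit 336324) (nat_lit 18) .nil))))) (.g (nat_lit 0) (.e (nat_lit 386038) (nat_lit 0) .nil) .nil)))) (.nd (nat_lit 9) 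
(.lf (nat_lit 584107) (.g (nat_lit 3018) (.e (nat_lit 368676) (nat_lit 21) (.e (nat_lit 516131) (nat_lit 3) (.e (nat_lit 221213) (nat_lit 23) (.e (nat_lit 204829) (nat_lit 18) (.e (nat_lit 57927) (nat_lit 282) (.e (nat_lit 163874) (nat_lit 3) (.e (nat_lit 204872) (nat_lit 30) .nil))))))) (.g (nat_lit 1) (.e (nat_lit 385409) (nat_lit 0) .nil) .nil))) 
(.lf (nat_lit 584619) (.g (nat_lit 3283) (.e (nat_lit 376867) (nat_lit 23) (.e (nat_lit 98350) (nat_lit 24) (.e (nat_lit 409645) (nat_lit 18) (.e (nat_lit 303112) (nat_lit 0) (.e (nat_lit 3252) (nat_lit 197) (.e (nat_lit 532561) (nat_lit 14) .nil)))))) (.g (nat_lit 1) (.e (nat_lit 386467) (nat_lit 0) .nil) .nil)))))) (.nd (nat_lit 7) (.nd (nat_lit 8) (.nd (nat_lit 9) 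
(.lf (nat_lit 583787) (.g (nat_lit 3006) (.e (nat_lit 360473) (nat_lit 8) (.e (nat_lit 557093) (nat_lit 12) (.e (nat_lit 164023) (nat_lit 46) (.e (nat_lit 704737) (nat_lit 11) (.e (nat_lit 16401) (nat_lit 0) (.e (nat_lit 3249) (nat_lit 197) (.e (nat_lit 532549) (nat_lit 12) .nil))))))) (.g (nat_lit 1) (.e (nat_lit 384598) (nat_lit 0) .nil) .nil))) 
(.lf (nat_lit 584299) (.g (nat_lit 2280) (.e (nat_lit 368699) (nat_lit 44) (.e (nat_lit 778466) (nat_lit 11) (.e (nat_lit 24617) (nat_lit 7) (.e (nat_lit 319505) (nat_lit 10) .nil)))) (.g (nat_lit 0) (.e (nat_lit 385666) (nat_lit 0) .nil) .nil)))) (.nd (nat_lit 9) 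
(.lf (nat_lit 584043) (.g (nat_lit 2876) (.e (nat_lit 368675) (nat_lit 21) (.e (nat_lit 516138) (nat_lit 7) (.e (nat_lit 409644) (nat_lit 18) (.e (nat_lit 303119) (nat_lit 3) (.e (nat_lit 204861) (nat_lit 26) .nil))))) (.g (nat_lit 0) (.e (nat_lit 385295) (nat_lit 0) .nil) .nil))) 
(.lf (nat_lit 584555) (.g (nat_lit 2524) (.e (nat_lit 376860) (nat_lit 21) (.e (nat_lit 57930) (nat_lit 282) (.e (nat_lit 163896) (nat_lit 10) (.e (nat_lit 409616) (nat_lit 10) (.e (nat_lit 5766) (nat_lit 316) (.e (nat_lit 179968) (nat_lit 32) .nil)))))) (.g (nat_lit 1) (.e (nat_lit 386342) (nat_lit 0) .nil) .nil))))) (.nd (nat_lit 8) (.nd (nat_lit 9) 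
(.lf (nat_lit 583915) (.g (nat_lit 416) (.e (nat_lit 360475) (nat_lit 8) (.e (nat_lit 557087) (nat_lit 11) (.e (nat_lit 24584) (nat_lit 0) .nil))) (.g (nat_lit 0) (.e (nat_lit 384797) (nat_lit 0) .nil) .nil))) 
(.lf (nat_lit 584427) (.g (nat_lit 2209) (.e (nat_lit 376855) (nat_lit 20) (.e (nat_lit 1800) (nat_lit 119) (.e (nat_lit 516139) (nat_lit 7) (.e (nat_lit 409648) (nat_lit 18) (.e (nat_lit 303109) (nat_lit 0) (.e (nat_lit 3252) (nat_lit 197) (.e (nat_lit 532560) (nat_lit 14) .nil))))))) (.g (nat_lit 1) (.e (nat_lit 386124) (nat_lit 0) .nil) .nil)))) (.nd (nat_lit 9) 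
(.lf (nat_lit 584171) (.g (nat_lit 3204) (.e (nat_lit 368676) (nat_lit 21) (.e (nat_lit 516138) (nat_lit 7) (.e (nat_lit 409646) (nat_lit 18) (.e (nat_lit 303119) (nat_lit 3) (.e (nat_lit 204861) (nat_lit 26) (.e (nat_lit 336185) (nat_lit 11) .nil)))))) (.g (nat_lit 1) (.e (nat_lit 385479) (nat_lit 0) .nil) .nil))) 
(.lf (nat_lit 584683) (.g (nat_lit 2056) (.e (nat_lit 392960) (nat_lit 8) (.e (nat_lit 3062) (nat_lit 190) (.e (nat_lit 475198) (nat_lit 40) (.e (nat_lit 704595) (nat_lit 5) (.e (nat_lit 180277) (nat_lit 32) .nil))))) (.g (nat_lit 0) (.e (nat_lit 386634) (nat_lit 0) .nil) .nil)))))))) (.nd (nat_lit 5) (.nd (nat_lit 6) (.nd (nat_lit 7) (.nd (nat_lit 8) (.nd (nat_lit 9) 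
(.lf (nat_lit 583707) (.g (nat_lit 2446) (.e (nat_lit 360473) (nat_lit 8) (.e (nat_lit 557087) (nat_lit 11) (.e (nat_lit 24663) (nat_lit 14) (.e (nat_lit 401426) (nat_lit 3) (.e (nat_lit 204868) (nat_lit 29) .nil))))) (.g (nat_lit 1) (.e (nat_lit 384464) (nat_lit 0) .nil) .nil))) 
(.lf (nat_lit 584219) (.g (nat_lit 3806) (.e (nat_lit 368676) (nat_lit 21) (.e (nat_lit 516165) (nat_lit 12) (.e (nat_lit 450588) (nat_lit 10) (.e (nat_lit 573473) (nat_lit 12) (.e (nat_lit 57353) (nat_lit 0) (.e (nat_lit 7261) (nat_lit 384) (.e (nat_lit 57430) (nat_lit 16) .nil))))))) (.g (nat_lit 1) (.e (nat_lit 385529) (nat_lit 0) .nil) .nil)))) (.nd (nat_lit 9) 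
(.lf (nat_lit 583963) (.g (nat_lit 2940) (.e (nat_lit 360481) (nat_lit 15) (.e (nat_lit 647170) (nat_lit 0) (.e (nat_lit 3098) (nat_lit 192) (.e (nat_lit 491565) (nat_lit 12) (.e (nat_lit 385102) (nat_lit 50) (.e (nat_lit 786483) (nat_lit 30) .nil)))))) (.g (nat_lit 1) (.e (nat_lit 384873) (nat_lit 0) .nil) .nil))) 
(.lf (nat_lit 584475) (.g (nat_lit 880) (.e (nat_lit 376857) (nat_lit 21) (.e (nat_lit 57852) (nat_lit 252) (.e (nat_lit 57354) (nat_lit 0) .nil))) (.g (nat_lit 0) (.e (nat_lit 386205) (nat_lit 0) .nil) .nil))))) (.nd (nat_lit 8) (.nd (nat_lit 9) 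
(.lf (nat_lit 583835) (.g (nat_lit 6826) (.e (nat_lit 360474) (nat_lit 8) (.e (nat_lit 557093) (nat_lit 12) (.e (nat_lit 164022) (nat_lit 46) (.e (nat_lit 704629) (nat_lit 9) (.e (nat_lit 442) (nat_lit 33) (.e (nat_lit 434233) (nat_lit 23) (.e (nat_lit 532550) (nat_lit 12) .nil))))))) (.g (nat_lit 1) (.e (nat_lit 384699) (nat_lit 0) .nil) .nil))) 
(.lf (nat_lit 584347) (.g (nat_lit 1545) (.e (nat_lit 384768) (nat_lit 5) (.e (nat_lit 221207) (nat_lit 21) (.e (nat_lit 164325) (nat_lit 230) (.e (nat_lit 163931) (nat_lit 17) (.e (nat_lit 474880) (nat_lit 16) .nil))))) (.g (nat_lit 0) (.e (nat_lit 386003) (nat_lit 0) .nil) .nil)))) (.nd (nat_lit 9) 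
(.lf (nat_lit 584091) (.g (nat_lit 2215) (.e (nat_lit 368676) (nat_lit 21) (.e (nat_lit 516129) (nat_lit 3) (.e (nat_lit 221215) (nat_lit 23) (.e (nat_lit 204829) (nat_lit 18) (.e (nat_lit 57927) (nat_lit 282) (.e (nat_lit 163875) (nat_lit 3) (.e (nat_lit 204872) (nat_lit 30) .nil))))))) (.g (nat_lit 1) (.e (nat_lit 385384) (nat_lit 0) .nil) .nil))) 
(.lf (nat_lit 584603) (.g (nat_lit 3085) (.e (nat_lit 376867) (nat_lit 23) (.e (nat_lit 98313) (nat_lit 9) (.e (nat_lit 335988) (nat_lit 1) (.e (nat_lit 57926) (nat_lit 282) (.e (nat_lit 163907) (nat_lit 12) (.e (nat_lit 426555) (nat_lit 32) .nil)))))) (.g (nat_lit 1) (.e (nat_lit 386444) (nat_lit 0) .nil) .nil)))))) (.nd (nat_lit 7) (.nd (nat_lit 8) (.nd (nat_lit 9) 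
(.lf (nat_lit 583771) (.g (nat_lit 2349) (.e (nat_lit 360473) (nat_lit 8) (.e (nat_lit 557091) (nat_lit 12) (.e (nat_lit 164022) (nat_lit 46) (.e (nat_lit 704629) (nat_lit 9) (.e (nat_lit 452) (nat_lit 33) (.e (nat_lit 434219) (nat_lit 19) (.e (nat_lit 499952) (nat_lit 14) (.e (nat_lit 1598) (nat_lit 111) .nil)))))))) (.g (nat_lit 1) (.e (nat_lit 384570) (nat_lit 0) .nil) .nil))) 
(.lf (nat_lit 584283) (.g (nat_lit 3132) (.e (nat_lit 368678) (nat_lit 22) (.e (nat_lit 524322) (nat_lit 12) (.e (nat_lit 450588) (nat_lit 10) (.e (nat_lit 573473) (nat_lit 12) (.e (nat_lit 57347) (nat_lit 0) .nil))))) (.g (nat_lit 0) (.e (nat_lit 385623) (nat_lit 0) .nil) .nil)))) (.nd (nat_lit 9) 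
(.lf (nat_lit 584027) (.g (nat_lit 1707) (.e (nat_lit 376576) (nat_lit 5) (.e (nat_lit 180228) (nat_lit 0) (.e (nat_lit 6427) (nat_lit 342) (.e (nat_lit 229412) (nat_lit 14) (.e (nat_lit 450304) (nat_lit 15) .nil))))) (.g (nat_lit 0) (.e (nat_lit 385123) (nat_lit 0) .nil) .nil))) 
(.lf (nat_lit 584539) (.g (nat_lit 905) (.e (nat_lit 376860) (nat_lit 21) (.e (nat_lit 57851) (nat_lit 252) (.e (nat_lit 57388) (nat_lit 5) (.e (nat_lit 114695) (nat_lit 11) .nil)))) (.g (nat_lit 0) (.e (nat_lit 386307) (nat_lit 0) .nil) .nil))))) (.nd (nat_lit 8) (.nd (nat_lit 9) 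
(.lf (nat_lit 583899) (.g (nat_lit 2538) (.e (nat_lit 360474) (nat_lit 8) (.e (nat_lit 557094) (nat_lit 12) (.e (nat_lit 164022) (nat_lit 46) (.e (nat_lit 704738) (nat_lit 11) (.e (nat_lit 16390) (nat_lit 0) (.e (nat_lit 3259) (nat_lit 198) (.e (nat_lit 540706) (nat_lit 12) .nil))))))) (.g (nat_lit 1) (.e (nat_lit 384767) (nat_lit 0) .nil) .nil))) 
(.lf (nat_lit 584411) (.g (nat_lit 2022) (.e (nat_lit 376853) (nat_lit 20) (.e (nat_lit 1796) (nat_lit 119) (.e (nat_lit 516139) (nat_lit 7) (.e (nat_lit 409646) (nat_lit 18) (.e (nat_lit 303112) (nat_lit 0) .nil))))) (.g (nat_lit 0) (.e (nat_lit 386106) (nat_lit 0) .nil) .nil)))) (.nd (nat_lit 9) 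
(.lf (nat_lit 584155) (.g (nat_lit 3269) (.e (nat_lit 368676) (nat_lit 21) (.e (nat_lit 516131) (nat_lit 3) (.e (nat_lit 221215) (nat_lit 23) (.e (nat_lit 204830) (nat_lit 18) (.e (nat_lit 57927) (nat_lit 282) (.e (nat_lit 163873) (nat_lit 3) (.e (nat_lit 204872) (nat_lit 30) .nil))))))) (.g (nat_lit 1) (.e (nat_lit 385462) (nat_lit 0) .nil) .nil))) 
(.lf (nat_lit 584667) (.g (nat_lit 1792) (.e (nat_lit 376869) (nat_lit 23) (.e (nat_lit 98365) (nat_lit 26) (.e (nat_lit 426098) (nat_lit 1) (.e (nat_lit 164399) (nat_lit 256) .nil)))) (.g (nat_lit 0) (.e (nat_lit 386552) (nat_lit 0) .nil) .nil))))))) (.nd (nat_lit 6) (.nd (nat_lit 7) (.nd (nat_lit 8) (.nd (nat_lit 9) 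
(.lf (nat_lit 583739) (.g (nat_lit 3729) (.e (nat_lit 360473) (nat_lit 8) (.e (nat_lit 557089) (nat_lit 12) (.e (nat_lit 164020) (nat_lit 45) (.e (nat_lit 696329) (nat_lit 5) (.e (nat_lit 2964) (nat_lit 185) (.e (nat_lit 434231) (nat_lit 23) (.e (nat_lit 532549) (nat_lit 12) .nil))))))) (.g (nat_lit 1) (.e (nat_lit 384512) (nat_lit 0) .nil) .nil))) 
(.lf (nat_lit 584251) (.g (nat_lit 5326) (.e (nat_lit 368676) (nat_lit 21) (.e (nat_lit 516166) (nat_lit 12) (.e (nat_lit 450588) (nat_lit 10) (.e (nat_lit 573473) (nat_lit 12) (.e (nat_lit 57347) (nat_lit 0) (.e (nat_lit 7265) (nat_lit 384) (.e (nat_lit 57430) (nat_lit 16) .nil))))))) (.g (nat_lit 1) (.e (nat_lit 385561) (nat_lit 0) .nil) .nil)))) (.nd (nat_lit 9) 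
(.lf (nat_lit 583995) (.g (nat_lit 1384) (.e (nat_lit 360493) (nat_lit 27) (.e (nat_lit 819204) (nat_lit 0) (.e (nat_lit 3021) (nat_lit 187) (.e (nat_lit 450584) (nat_lit 9) (.e (nat_lit 565252) (nat_lit 0) (.e (nat_lit 1599) (nat_lit 111) .nil)))))) (.g (nat_lit 1) (.e (nat_lit 384936) (nat_lit 0) .nil) .nil))) 
(.lf (nat_lit 584507) (.g (nat_lit 1980) (.e (nat_lit 376859) (nat_lit 21) (.e (nat_lit 57847) (nat_lit 252) (.e (nat_lit 57388) (nat_lit 5) (.e (nat_lit 114698) (nat_lit 11) (.e (nat_lit 426197) (nat_lit 9) (.e (nat_lit 426556) (nat_lit 32) .nil)))))) (.g (nat_lit 1) (.e (nat_lit 386262) (nat_lit 0) .nil) .nil))))) (.nd (nat_lit 8) (.nd (nat_lit 9) 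
(.lf (nat_lit 583867) (.g (nat_lit 2972) (.e (nat_lit 360474) (nat_lit 8) (.e (nat_lit 557093) (nat_lit 12) (.e (nat_lit 164023) (nat_lit 46) (.e (nat_lit 704737) (nat_lit 11) (.e (nat_lit 16391) (nat_lit 0) (.e (nat_lit 3262) (nat_lit 198) (.e (nat_lit 540706) (nat_lit 12) .nil))))))) (.g (nat_lit 1) (.e (nat_lit 384732) (nat_lit 0) .nil) .nil))) 
(.lf (nat_lit 584379) (.g (nat_lit 1354) (.e (nat_lit 376842) (nat_lit 11) (.e (nat_lit 426406) (nat_lit 15) (.e (nat_lit 6206) (nat_lit 333) (.e (nat_lit 57883) (nat_lit 270) (.e (nat_lit 174) (nat_lit 12) (.e (nat_lit 204876) (nat_lit 31) .nil)))))) (.g (nat_lit 1) (.e (nat_lit 386060) (nat_lit 0) .nil) .nil)))) (.nd (nat_lit 9) 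
(.lf (nat_lit 584123) (.g (nat_lit 2317) (.e (nat_lit 368676) (nat_lit 21) (.e (nat_lit 516131) (nat_lit 3) (.e (nat_lit 221214) (nat_lit 23) (.e (nat_lit 204830) (nat_lit 18) (.e (nat_lit 57925) (nat_lit 282) (.e (nat_lit 163875) (nat_lit 3) (.e (nat_lit 204872) (nat_lit 30) .nil))))))) (.g (nat_lit 1) (.e (nat_lit 385425) (nat_lit 0) .nil) .nil))) 
(.lf (nat_lit 584635) (.g (nat_lit 1537) (.e (nat_lit 376868) (nat_lit 23) (.e (nat_lit 98350) (nat_lit 24) (.e (nat_lit 409648) (nat_lit 18) (.e (nat_lit 303109) (nat_lit 0) .nil)))) (.g (nat_lit 0) (.e (nat_lit 386490) (nat_lit 0) .nil) .nil)))))) (.nd (nat_lit 7) (.nd (nat_lit 8) (.nd (nat_lit 9) 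
(.lf (nat_lit 583803) (.g (nat_lit 2558) (.e (nat_lit 360473) (nat_lit 8) (.e (nat_lit 557094) (nat_lit 12) (.e (nat_lit 164018) (nat_lit 45) (.e (nat_lit 696330) (nat_lit 5) (.e (nat_lit 2884) (nat_lit 184) (.e (nat_lit 426140) (nat_lit 3) (.e (nat_lit 204868) (nat_lit 29) .nil))))))) (.g (nat_lit 1) (.e (nat_lit 384632) (nat_lit 0) .nil) .nil))) 
(.lf (nat_lit 584315) (.g (nat_lit 398) (.e (nat_lit 376835) (nat_lit 0) (.e (nat_lit 3632) (nat_lit 227) (.e (nat_lit 778323) (nat_lit 5) .nil))) (.g (nat_lit 0) (.e (nat_lit 385795) (nat_lit 0) .nil) .nil)))) (.nd (nat_lit 9) 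
(.lf (nat_lit 584059) (.g (nat_lit 2029) (.e (nat_lit 368676) (nat_lit 21) (.e (nat_lit 516117) (nat_lit 1) (.e (nat_lit 164182) (nat_lit 154) (.e (nat_lit 57411) (nat_lit 12) (.e (nat_lit 336454) (nat_lit 34) .nil))))) (.g (nat_lit 0) (.e (nat_lit 385342) (nat_lit 0) .nil) .nil))) 
(.lf (nat_lit 584571) (.g (nat_lit 2657) (.e (nat_lit 376860) (nat_lit 21) (.e (nat_lit 57931) (nat_lit 282) (.e (nat_lit 163896) (nat_lit 10) (.e (nat_lit 409649) (nat_lit 18) (.e (nat_lit 303132) (nat_lit 9) (.e (nat_lit 433920) (nat_lit 32) .nil)))))) (.g (nat_lit 1) (.e (nat_lit 386370) (nat_lit 0) .nil) .nil))))) (.nd (nat_lit 8) (.nd (nat_lit 9) 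
(.lf (nat_lit 583931) (.g (nat_lit 930) (.e (nat_lit 360475) (nat_lit 8) (.e (nat_lit 557090) (nat_lit 12) (.e (nat_lit 163847) (nat_lit 0) .nil))) (.g (nat_lit 0) (.e (nat_lit 384816) (nat_lit 0) .nil) .nil))) 
(.lf (nat_lit 584443) (.g (nat_lit 2263) (.e (nat_lit 376856) (nat_lit 21) (.e (nat_lit 57849) (nat_lit 252) (.e (nat_lit 57388) (nat_lit 5) (.e (nat_lit 114698) (nat_lit 11) (.e (nat_lit 426198) (nat_lit 9) .nil))))) (.g (nat_lit 0) (.e (nat_lit 386155) (nat_lit 0) .nil) .nil)))) (.nd (nat_lit 9) 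
(.lf (nat_lit 584187) (.g (nat_lit 2944) (.e (nat_lit 368676) (nat_lit 21) (.e (nat_lit 516146) (nat_lit 9) (.e (nat_lit 426448) (nat_lit 20) (.e (nat_lit 114702) (nat_lit 20) .nil)))) (.g (nat_lit 0) (.e (nat_lit 385497) (nat_lit 0) .nil) .nil))) 
(.lf (nat_lit 584699) (.g (nat_lit 1154) (.e (nat_lit 385064) (nat_lit 26) (.e (nat_lit 532513) (nat_lit 3) (.e (nat_lit 114698) (nat_lit 11) (.e (nat_lit 426139) (nat_lit 3) .nil)))) (.g (nat_lit 0) (.e (nat_lit 386696) (nat_lit 0) .nil) .nil)))))))))) (.nd (nat_lit 3) (.nd (nat_lit 4) (.nd (nat_lit 5) (.nd (nat_lit 6) (.nd (nat_lit 7) (.nd (nat_lit 8) (.nd (nat_lit 9) 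
(.lf (nat_lit 583687) (.g (nat_lit 3796) (.e (nat_lit 360473) (nat_lit 8) (.e (nat_lit 557086) (nat_lit 11) (.e (nat_lit 24665) (nat_lit 14) (.e (nat_lit 401414) (nat_lit 0) (.e (nat_lit 3238) (nat_lit 197) (.e (nat_lit 532549) (nat_lit 12) .nil)))))) (.g (nat_lit 1) (.e (nat_lit 384439) (nat_lit 0) .nil) .nil))) 
(.lf (nat_lit 584199) (.g (nat_lit 3949) (.e (nat_lit 368676) (nat_lit 21) (.e (nat_lit 516165) (nat_lit 12) (.e (nat_lit 450586) (nat_lit 10) (.e (nat_lit 573475) (nat_lit 12) (.e (nat_lit 57347) (nat_lit 0) (.e (nat_lit 7265) (nat_lit 384) (.e (nat_lit 57430) (nat_lit 16) .nil))))))) (.g (nat_lit 1) (.e (nat_lit 385509) (nat_lit 0) .nil) .nil)))) (.nd (nat_lit 9) 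
(.lf (nat_lit 583943) (.g (nat_lit 2477) (.e (nat_lit 360475) (nat_lit 8) (.e (nat_lit 557090) (nat_lit 12) (.e (nat_lit 164020) (nat_lit 45) (.e (nat_lit 696330) (nat_lit 5) (.e (nat_lit 2885) (nat_lit 184) (.e (nat_lit 426032) (nat_lit 0) (.e (nat_lit 3262) (nat_lit 198) (.e (nat_lit 540706) (nat_lit 12) .nil)))))))) (.g (nat_lit 1) (.e (nat_lit 384835) (nat_lit 0) .nil) .nil))) 
(.lf (nat_lit 584455) (.g (nat_lit 667) (.e (nat_lit 376857) (nat_lit 21) (.e (nat_lit 57847) (nat_lit 252) (.e (nat_lit 57389) (nat_lit 5) .nil))) (.g (nat_lit 0) (.e (nat_lit 386182) (nat_lit 0) .nil) .nil))))) (.nd (nat_lit 8) (.nd (nat_lit 9) 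
(.lf (nat_lit 583815) (.g (nat_lit 4136) (.e (nat_lit 360473) (nat_lit 8) (.e (nat_lit 557094) (nat_lit 12) (.e (nat_lit 164022) (nat_lit 46) (.e (nat_lit 704629) (nat_lit 9) (.e (nat_lit 452) (nat_lit 33) (.e (nat_lit 434231) (nat_lit 23) (.e (nat_lit 532549) (nat_lit 12) .nil))))))) (.g (nat_lit 1) (.e (nat_lit 384657) (nat_lit 0) .nil) .nil))) 
(.lf (nat_lit 584327) (.g (nat_lit 2010) (.e (nat_lit 376835) (nat_lit 0) (.e (nat_lit 3746) (nat_lit 228) (.e (nat_lit 786483) (nat_lit 30) (.e (nat_lit 360451) (nat_lit 0) (.e (nat_lit 7936) (nat_lit 322) (.e (nat_lit 57435) (nat_lit 17) .nil)))))) (.g (nat_lit 1) (.e (nat_lit 385812) (nat_lit 0) .nil) .nil)))) (.nd (nat_lit 9) 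
(.lf (nat_lit 584071) (.g (nat_lit 2683) (.e (nat_lit 368676) (nat_lit 21) (.e (nat_lit 516129) (nat_lit 3) (.e (nat_lit 221214) (nat_lit 23) (.e (nat_lit 204829) (nat_lit 18) (.e (nat_lit 57927) (nat_lit 282) (.e (nat_lit 163875) (nat_lit 3) (.e (nat_lit 204873) (nat_lit 30) .nil))))))) (.g (nat_lit 1) (.e (nat_lit 385364) (nat_lit 0) .nil) .nil))) 
(.lf (nat_lit 584583) (.g (nat_lit 2199) (.e (nat_lit 376863) (nat_lit 22) (.e (nat_lit 90158) (nat_lit 11) (.e (nat_lit 24599) (nat_lit 1) (.e (nat_lit 57852) (nat_lit 252) (.e (nat_lit 65280) (nat_lit 62) (.e (nat_lit 164399) (nat_lit 256) (.e (nat_lit 57435) (nat_lit 17) .nil))))))) (.g (nat_lit 1) (.e (nat_lit 386394) (nat_lit 0) .nil) .nil)))))) 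
(.nd (nat_lit 7) (.nd (nat_lit 8) (.nd (nat_lit 9) 
(.lf (nat_lit 583751) (.g (nat_lit 3361) (.e (nat_lit 360473) (nat_lit 8) (.e (nat_lit 557091) (nat_lit 12) (.e (nat_lit 163843) (nat_lit 0) (.e (nat_lit 6421) (nat_lit 341) (.e (nat_lit 163913) (nat_lit 12) (.e (nat_lit 426129) (nat_lit 3) (.e (nat_lit 204868) (nat_lit 29) .nil))))))) (.g (nat_lit 1) (.e (nat_lit 384526) (nat_lit 0) .nil) .nil))) 
(.lf (nat_lit 584263) (.g (nat_lit 5297) (.e (nat_lit 368676) (nat_lit 21) (.e (nat_lit 516166) (nat_lit 12) (.e (nat_lit 450588) (nat_lit 10) (.e (nat_lit 573475) (nat_lit 12) (.e (nat_lit 57353) (nat_lit 0) (.e (nat_lit 7265) (nat_lit 384) (.e (nat_lit 57431) (nat_lit 16) .nil))))))) (.g (nat_lit 1) (.e (nat_lit 385573) (nat_lit 0) .nil) .nil)))) (.nd (nat_lit 9) 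
(.lf (nat_lit 584007) (.g (nat_lit 2271) (.e (nat_lit 360493) (nat_lit 27) (.e (nat_lit 819204) (nat_lit 0) (.e (nat_lit 3027) (nat_lit 187) (.e (nat_lit 450584) (nat_lit 9) (.e (nat_lit 565252) (nat_lit 0) (.e (nat_lit 1586) (nat_lit 111) .nil)))))) (.g (nat_lit 1) (.e (nat_lit 384948) (nat_lit 0) .nil) .nil))) 
(.lf (nat_lit 584519) (.g (nat_lit 3939) (.e (nat_lit 376859) (nat_lit 21) (.e (nat_lit 57849) (nat_lit 252) (.e (nat_lit 57388) (nat_lit 5) (.e (nat_lit 114698) (nat_lit 11) (.e (nat_lit 426200) (nat_lit 9) (.e (nat_lit 426555) (nat_lit 32) .nil)))))) (.g (nat_lit 1) (.e (nat_lit 386276) (nat_lit 0) .nil) .nil))))) (.nd (nat_lit 8) (.nd (nat_lit 9) 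
(.lf (nat_lit 583879) (.g (nat_lit 2554) (.e (nat_lit 360474) (nat_lit 8) (.e (nat_lit 557094) (nat_lit 12) (.e (nat_lit 164022) (nat_lit 46) (.e (nat_lit 704629) (nat_lit 9) (.e (nat_lit 452) (nat_lit 33) (.e (nat_lit 434219) (nat_lit 19) (.e (nat_lit 499952) (nat_lit 14) (.e (nat_lit 1587) (nat_lit 111) .nil)))))))) (.g (nat_lit 1) (.e (nat_lit 384745) (nat_lit 0) .nil) .nil))) 
(.lf (nat_lit 584391) (.g (nat_lit 2814) (.e (nat_lit 376842) (nat_lit 11) (.e (nat_lit 426500) (nat_lit 27) (.e (nat_lit 335986) (nat_lit 1) (.e (nat_lit 57931) (nat_lit 282) (.e (nat_lit 163874) (nat_lit 3) (.e (nat_lit 204877) (nat_lit 31) .nil)))))) (.g (nat_lit 1) (.e (nat_lit 386072) (nat_lit 0) .nil) .nil)))) (.nd (nat_lit 9) 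
(.lf (nat_lit 584135) (.g (nat_lit 1763) (.e (nat_lit 368676) (nat_lit 21) (.e (nat_lit 516131) (nat_lit 3) (.e (nat_lit 221215) (nat_lit 23) (.e (nat_lit 204827) (nat_lit 17) (.e (nat_lit 1041) (nat_lit 81) .nil))))) (.g (nat_lit 0) (.e (nat_lit 385442) (nat_lit 0) .nil) .nil))) 
(.lf (nat_lit 584647) (.g (nat_lit 2115) (.e (nat_lit 376869) (nat_lit 23) (.e (nat_lit 98313) (nat_lit 9) (.e (nat_lit 335993) (nat_lit 1) (.e (nat_lit 57931) (nat_lit 282) (.e (nat_lit 163905) (nat_lit 12) (.e (nat_lit 426555) (nat_lit 32) .nil)))))) (.g (nat_lit 1) (.e (nat_lit 386508) (nat_lit 0) .nil) .nil))))))) (.nd (nat_lit 6) (.nd (nat_lit 7) (.nd (nat_lit 8) (.nd (nat_lit 9) 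
(.lf (nat_lit 583719) (.g (nat_lit 349) (.e (nat_lit 360473) (nat_lit 8) (.e (nat_lit 557089) (nat_lit 12) (.e (nat_lit 163849) (nat_lit 0) .nil))) (.g (nat_lit 0) (.e (nat_lit 384483) (nat_lit 0) .nil) .nil))) 
(.lf (nat_lit 584231) (.g (nat_lit 4390) (.e (nat_lit 368676) (nat_lit 21) (.e (nat_lit 516165) (nat_lit 12) (.e (nat_lit 450588) (nat_lit 10) (.e (nat_lit 573475) (nat_lit 12) (.e (nat_lit 57348) (nat_lit 0) (.e (nat_lit 7266) (nat_lit 384) (.e (nat_lit 57430) (nat_lit 16) .nil))))))) (.g (nat_lit 1) (.e (nat_lit 385541) (nat_lit 0) .nil) .nil)))) (.nd (nat_lit 9) 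
(.lf (nat_lit 583975) (.g (nat_lit 1377) (.e (nat_lit 360493) (nat_lit 27) (.e (nat_lit 819203) (nat_lit 0) (.e (nat_lit 3016) (nat_lit 187) (.e (nat_lit 450584) (nat_lit 9) (.e (nat_lit 565252) (nat_lit 0) (.e (nat_lit 1599) (nat_lit 111) .nil)))))) (.g (nat_lit 1) (.e (nat_lit 384906) (nat_lit 0) .nil) .nil))) 
(.lf (nat_lit 584487) (.g (nat_lit 1287) (.e (nat_lit 376857) (nat_lit 21) (.e (nat_lit 57872) (nat_lit 264) (.e (nat_lit 1209) (nat_lit 89) (.e (nat_lit 81664) (nat_lit 32) .nil)))) (.g (nat_lit 0) (.e (nat_lit 386227) (nat_lit 0) .nil) .nil))))) (.nd (nat_lit 8) (.nd (nat_lit 9) 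
(.lf (nat_lit 583847) (.g (nat_lit 2449) (.e (nat_lit 360474) (nat_lit 8) (.e (nat_lit 557093) (nat_lit 12) (.e (nat_lit 164022) (nat_lit 46) (.e (nat_lit 704737) (nat_lit 11) (.e (nat_lit 16387) (nat_lit 0) (.e (nat_lit 7936) (nat_lit 197) (.e (nat_lit 532550) (nat_lit 12) .nil))))))) (.g (nat_lit 1) (.e (nat_lit 384712) (nat_lit 0) .nil) .nil))) 
(.lf (nat_lit 584359) (.g (nat_lit 569) (.e (nat_lit 376838) (nat_lit 11) (.e (nat_lit 426098) (nat_lit 1) (.e (nat_lit 164182) (nat_lit 154) .nil))) (.g (nat_lit 0) (.e (nat_lit 386034) (nat_lit 0) .nil) .nil)))) (.nd (nat_lit 9) 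
(.lf (nat_lit 584103) (.g (nat_lit 1005) (.e (nat_lit 368676) (nat_lit 21) (.e (nat_lit 516131) (nat_lit 3) (.e (nat_lit 221210) (nat_lit 22) (.e (nat_lit 196658) (nat_lit 12) .nil)))) (.g (nat_lit 0) (.e (nat_lit 385397) (nat_lit 0) .nil) .nil))) 
(.lf (nat_lit 584615) (.g (nat_lit 1390) (.e (nat_lit 376867) (nat_lit 23) (.e (nat_lit 98333) (nat_lit 18) (.e (nat_lit 164179) (nat_lit 154) (.e (nat_lit 57405) (nat_lit 12) .nil)))) (.g (nat_lit 0) (.e (nat_lit 386460) (nat_lit 0) .nil) .nil)))))) (.nd (nat_lit 7) (.nd (nat_lit 8) (.nd (nat_lit 9) 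
(.lf (nat_lit 583783) (.g (nat_lit 2196) (.e (nat_lit 360473) (nat_lit 8) (.e (nat_lit 557093) (nat_lit 12) (.e (nat_lit 164022) (nat_lit 46) (.e (nat_lit 704629) (nat_lit 9) (.e (nat_lit 452) (nat_lit 33) (.e (nat_lit 434219) (nat_lit 19) (.e (nat_lit 499952) (nat_lit 14) (.e (nat_lit 1598) (nat_lit 111) .nil)))))))) (.g (nat_lit 1) (.e (nat_lit 384593) (nat_lit 0) .nil) .nil))) 
(.lf (nat_lit 584295) (.g (nat_lit 2615) (.e (nat_lit 368682) (nat_lit 26) (.e (nat_lit 557105) (nat_lit 14) (.e (nat_lit 180252) (nat_lit 10) (.e (nat_lit 573475) (nat_lit 12) .nil)))) (.g (nat_lit 0) (.e (nat_lit 385642) (nat_lit 0) .nil) .nil)))) (.nd (nat_lit 9) 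
(.lf (nat_lit 584039) (.g (nat_lit 1327) (.e (nat_lit 368662) (nat_lit 18) (.e (nat_lit 5906) (nat_lit 320) (.e (nat_lit 1211) (nat_lit 89) (.e (nat_lit 73782) (nat_lit 32) (.e (nat_lit 3087) (nat_lit 191) .nil))))) (.g (nat_lit 0) (.e (nat_lit 385210) (nat_lit 0) .nil) .nil))) 
(.lf (nat_lit 584551) (.g (nat_lit 432) (.e (nat_lit 376860) (nat_lit 21) (.e (nat_lit 57854) (nat_lit 252) (.e (nat_lit 57366) (nat_lit 1) .nil))) (.g (nat_lit 0) (.e (nat_lit 386335) (nat_lit 0) .nil) .nil))))) (.nd (nat_lit 8) (.nd (nat_lit 9) 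
(.lf (nat_lit 583911) (.g (nat_lit 2647) (.e (nat_lit 360475) (nat_lit 8) (.e (nat_lit 557085) (nat_lit 11) (.e (nat_lit 24661) (nat_lit 14) (.e (nat_lit 401410) (nat_lit 0) (.e (nat_lit 3262) (nat_lit 198) .nil))))) (.g (nat_lit 0) (.e (nat_lit 384790) (nat_lit 0) .nil) .nil))) 
(.lf (nat_lit 584423) (.g (nat_lit 1914) (.e (nat_lit 376855) (nat_lit 20) (.e (nat_lit 1800) (nat_lit 119) (.e (nat_lit 516139) (nat_lit 7) (.e (nat_lit 409648) (nat_lit 18) (.e (nat_lit 303108) (nat_lit 0) .nil))))) (.g (nat_lit 0) (.e (nat_lit 386120) (nat_lit 0) .nil) .nil)))) (.nd (nat_lit 9) 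
(.lf (nat_lit 584167) (.g (nat_lit 3119) (.e (nat_lit 368676) (nat_lit 21) (.e (nat_lit 516138) (nat_lit 7) (.e (nat_lit 409645) (nat_lit 18) (.e (nat_lit 303112) (nat_lit 0) (.e (nat_lit 3252) (nat_lit 197) .nil))))) (.g (nat_lit 0) (.e (nat_lit 385475) (nat_lit 0) .nil) .nil))) 
(.lf (nat_lit 584679) (.g (nat_lit 3026) (.e (nat_lit 385030) (nat_lit 8) (.e (nat_lit 3067) (nat_lit 190) (.e (nat_lit 475179) (nat_lit 24) (.e (nat_lit 516120) (nat_lit 1) (.e (nat_lit 164329) (nat_lit 230) .nil))))) (.g (nat_lit 0) (.e (nat_lit 386612) (nat_lit 0) .nil) .nil)))))))) (.nd (nat_lit 5) (.nd (nat_lit 6) (.nd (nat_lit 7) (.nd (nat_lit 8) (.nd (nat_lit 9) 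
(.lf (nat_lit 583703) (.g (nat_lit 3894) (.e (nat_lit 360473) (nat_lit 8) (.e (nat_lit 557087) (nat_lit 11) (.e (nat_lit 24662) (nat_lit 14) (.e (nat_lit 401412) (nat_lit 0) .nil)))) (.g (nat_lit 0) (.e (nat_lit 384460) (nat_lit 0) .nil) .nil))) 
(.lf (nat_lit 584215) (.g (nat_lit 4587) (.e (nat_lit 368676) (nat_lit 21) (.e (nat_lit 516165) (nat_lit 12) (.e (nat_lit 450588) (nat_lit 10) (.e (nat_lit 573473) (nat_lit 12) (.e (nat_lit 57348) (nat_lit 0) (.e (nat_lit 7265) (nat_lit 384) (.e (nat_lit 57431) (nat_lit 16) .nil))))))) (.g (nat_lit 1) (.e (nat_lit 385525) (nat_lit 0) .nil) .nil)))) (.nd (nat_lit 9) 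
(.lf (nat_lit 583959) (.g (nat_lit 3146) (.e (nat_lit 360475) (nat_lit 8) (.e (nat_lit 557091) (nat_lit 12) (.e (nat_lit 164022) (nat_lit 46) (.e (nat_lit 704738) (nat_lit 11) (.e (nat_lit 16398) (nat_lit 0) (.e (nat_lit 7936) (nat_lit 197) (.e (nat_lit 532550) (nat_lit 12) .nil))))))) (.g (nat_lit 1) (.e (nat_lit 384855) (nat_lit 0) .nil) .nil))) 
(.lf (nat_lit 584471) (.g (nat_lit 911) (.e (nat_lit 376857) (nat_lit 21) (.e (nat_lit 57851) (nat_lit 252) (.e (nat_lit 57388) (nat_lit 5) (.e (nat_lit 114695) (nat_lit 11) .nil)))) (.g (nat_lit 0) (.e (nat_lit 386201) (nat_lit 0) .nil) .nil))))) (.nd (nat_lit 8) (.nd (nat_lit 9) 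
(.lf (nat_lit 583831) (.g (nat_lit 3224) (.e (nat_lit 360474) (nat_lit 8) (.e (nat_lit 557093) (nat_lit 12) (.e (nat_lit 164022) (nat_lit 46) (.e (nat_lit 704628) (nat_lit 9) (.e (nat_lit 375) (nat_lit 32) (.e (nat_lit 426032) (nat_lit 0) (.e (nat_lit 3262) (nat_lit 198) (.e (nat_lit 540706) (nat_lit 12) .nil)))))))) (.g (nat_lit 1) (.e (nat_lit 384694) (nat_lit 0) .nil) .nil))) 
(.lf (nat_lit 584343) (.g (nat_lit 326) (.e (nat_lit 384768) (nat_lit 5) (.e (nat_lit 221207) (nat_lit 21) (.e (nat_lit 164325) (nat_lit 230) .nil))) (.g (nat_lit 0) (.e (nat_lit 385994) (nat_lit 0) .nil) .nil)))) (.nd (nat_lit 9) 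
(.lf (nat_lit 584087) (.g (nat_lit 2771) (.e (nat_lit 368676) (nat_lit 21) (.e (nat_lit 516129) (nat_lit 3) (.e (nat_lit 221214) (nat_lit 23) (.e (nat_lit 204831) (nat_lit 18) (.e (nat_lit 57931) (nat_lit 282) (.e (nat_lit 163874) (nat_lit 3) (.e (nat_lit 204873) (nat_lit 30) .nil))))))) (.g (nat_lit 1) (.e (nat_lit 385380) (nat_lit 0) .nil) .nil))) 
(.lf (nat_lit 584599) (.g (nat_lit 2974) (.e (nat_lit 376867) (nat_lit 23) (.e (nat_lit 98313) (nat_lit 9) (.e (nat_lit 335986) (nat_lit 1) (.e (nat_lit 57926) (nat_lit 282) (.e (nat_lit 163907) (nat_lit 12) (.e (nat_lit 426555) (nat_lit 32) .nil)))))) (.g (nat_lit 1) (.e (nat_lit 386438) (nat_lit 0) .nil) .nil)))))) (.nd (nat_lit 7) (.nd (nat_lit 8) (.nd (nat_lit 9) 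
(.lf (nat_lit 583767) (.g (nat_lit 4535) (.e (nat_lit 360473) (nat_lit 8) (.e (nat_lit 557091) (nat_lit 12) (.e (nat_lit 164022) (nat_lit 46) (.e (nat_lit 704628) (nat_lit 9) (.e (nat_lit 452) (nat_lit 33) (.e (nat_lit 434231) (nat_lit 23) (.e (nat_lit 532549) (nat_lit 12) .nil))))))) (.g (nat_lit 1) (.e (nat_lit 384563) (nat_lit 0) .nil) .nil))) 
(.lf (nat_lit 584279) (.g (nat_lit 557) (.e (nat_lit 368677) (nat_lit 21) (.e (nat_lit 516119) (nat_lit 1) (.e (nat_lit 164179) (nat_lit 154) .nil))) (.g (nat_lit 0) (.e (nat_lit 385616) (nat_lit 0) .nil) .nil)))) (.nd (nat_lit 9) 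
(.lf (nat_lit 584023) (.g (nat_lit 548) (.e (nat_lit 376576) (nat_lit 5) (.e (nat_lit 180225) (nat_lit 0) (.e (nat_lit 6418) (nat_lit 341) .nil))) (.g (nat_lit 0) (.e (nat_lit 385094) (nat_lit 0) .nil) .nil))) 
(.lf (nat_lit 584535) (.g (nat_lit 518) (.e (nat_lit 376860) (nat_lit 21) (.e (nat_lit 57691) (nat_lit 156) (.e (nat_lit 163882) (nat_lit 4) .nil))) (.g (nat_lit 0) (.e (nat_lit 386294) (nat_lit 0) .nil) .nil))))) (.nd (nat_lit 8) (.nd (nat_lit 9) 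
(.lf (nat_lit 583895) (.g (nat_lit 2243) (.e (nat_lit 360474) (nat_lit 8) (.e (nat_lit 557094) (nat_lit 12) (.e (nat_lit 164022) (nat_lit 46) (.e (nat_lit 704737) (nat_lit 11) (.e (nat_lit 16403) (nat_lit 0) (.e (nat_lit 7936) (nat_lit 197) (.e (nat_lit 532550) (nat_lit 12) .nil))))))) (.g (nat_lit 1) (.e (nat_lit 384763) (nat_lit 0) .nil) .nil))) 
(.lf (nat_lit 584407) (.g (nat_lit 1719) (.e (nat_lit 384768) (nat_lit 18) (.e (nat_lit 483366) (nat_lit 18) (.e (nat_lit 57849) (nat_lit 252) (.e (nat_lit 57374) (nat_lit 2) .nil)))) (.g (nat_lit 0) (.e (nat_lit 386095) (nat_lit 0) .nil) .nil)))) (.nd (nat_lit 9) 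
(.lf (nat_lit 584151) (.g (nat_lit 4069) (.e (nat_lit 368676) (nat_lit 21) (.e (nat_lit 516131) (nat_lit 3) (.e (nat_lit 221215) (nat_lit 23) (.e (nat_lit 204829) (nat_lit 18) (.e (nat_lit 57931) (nat_lit 282) (.e (nat_lit 163874) (nat_lit 3) (.e (nat_lit 204873) (nat_lit 30) .nil))))))) (.g (nat_lit 1) (.e (nat_lit 385458) (nat_lit 0) .nil) .nil))) 
(.lf (nat_lit 584663) (.g (nat_lit 501) (.e (nat_lit 376869) (nat_lit 23) (.e (nat_lit 98350) (nat_lit 24) (.e (nat_lit 409617) (nat_lit 10) .nil))) (.g (nat_lit 0) (.e (nat_lit 386541) (nat_lit 0) .nil) .nil))))))) (.nd (nat_lit 6) (.nd (nat_lit 7) (.nd (nat_lit 8) (.nd (nat_lit 9) 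
(.lf (nat_lit 583735) (.g (nat_lit 3705) (.e (nat_lit 360473) (nat_lit 8) (.e (nat_lit 557089) (nat_lit 12) (.e (nat_lit 164020) (nat_lit 45) (.e (nat_lit 696327) (nat_lit 5) (.e (nat_lit 2980) (nat_lit 185) (.e (nat_lit 434231) (nat_lit 23) (.e (nat_lit 532549) (nat_lit 12) .nil))))))) (.g (nat_lit 1) (.e (nat_lit 384508) (nat_lit 0) .nil) .nil))) 
(.lf (nat_lit 584247) (.g (nat_lit 4744) (.e (nat_lit 368676) (nat_lit 21) (.e (nat_lit 516166) (nat_lit 12) (.e (nat_lit 450587) (nat_lit 10) (.e (nat_lit 573478) (nat_lit 12) (.e (nat_lit 57353) (nat_lit 0) (.e (nat_lit 7265) (nat_lit 384) (.e (nat_lit 57430) (nat_lit 16) .nil))))))) (.g (nat_lit 1) (.e (nat_lit 385557) (nat_lit 0) .nil) .nil)))) (.nd (nat_lit 9) 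
(.lf (nat_lit 583991) (.g (nat_lit 914) (.e (nat_lit 360493) (nat_lit 27) (.e (nat_lit 819204) (nat_lit 0) (.e (nat_lit 3016) (nat_lit 187) (.e (nat_lit 458496) (nat_lit 8) .nil)))) (.g (nat_lit 0) (.e (nat_lit 384929) (nat_lit 0) .nil) .nil))) 
(.lf (nat_lit 584503) (.g (nat_lit 2463) (.e (nat_lit 376859) (nat_lit 21) (.e (nat_lit 57846) (nat_lit 252) (.e (nat_lit 57388) (nat_lit 5) (.e (nat_lit 114698) (nat_lit 11) (.e (nat_lit 426197) (nat_lit 9) (.e (nat_lit 426556) (nat_lit 32) .nil)))))) (.g (nat_lit 1) (.e (nat_lit 386256) (nat_lit 0) .nil) .nil))))) (.nd (nat_lit 8) (.nd (nat_lit 9) 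
(.lf (nat_lit 583863) (.g (nat_lit 2870) (.e (nat_lit 360474) (nat_lit 8) (.e (nat_lit 557093) (nat_lit 12) (.e (nat_lit 164023) (nat_lit 46) (.e (nat_lit 704629) (nat_lit 9) (.e (nat_lit 452) (nat_lit 33) (.e (nat_lit 434231) (nat_lit 23) (.e (nat_lit 532550) (nat_lit 12) .nil))))))) (.g (nat_lit 1) (.e (nat_lit 384728) (nat_lit 0) .nil) .nil))) 
(.lf (nat_lit 584375) (.g (nat_lit 1348) (.e (nat_lit 376842) (nat_lit 11) (.e (nat_lit 426107) (nat_lit 1) (.e (nat_lit 164179) (nat_lit 154) (.e (nat_lit 65280) (nat_lit 12) .nil)))) (.g (nat_lit 0) (.e (nat_lit 386055) (nat_lit 0) .nil) .nil)))) (.nd (nat_lit 9) 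
(.lf (nat_lit 584119) (.g (nat_lit 3774) (.e (nat_lit 368676) (nat_lit 21) (.e (nat_lit 516131) (nat_lit 3) (.e (nat_lit 221214) (nat_lit 23) (.e (nat_lit 204829) (nat_lit 18) (.e (nat_lit 57927) (nat_lit 282) (.e (nat_lit 163874) (nat_lit 3) (.e (nat_lit 204873) (nat_lit 30) .nil))))))) (.g (nat_lit 1) (.e (nat_lit 385421) (nat_lit 0) .nil) .nil))) 
(.lf (nat_lit 584631) (.g (nat_lit 2101) (.e (nat_lit 376868) (nat_lit 23) (.e (nat_lit 98350) (nat_lit 24) (.e (nat_lit 409644) (nat_lit 18) (.e (nat_lit 303112) (nat_lit 0) (.e (nat_lit 3252) (nat_lit 197) (.e (nat_lit 532560) (nat_lit 14) .nil)))))) (.g (nat_lit 1) (.e (nat_lit 386486) (nat_lit 0) .nil) .nil)))))) (.nd (nat_lit 7) (.nd (nat_lit 8) (.nd (nat_lit 9) 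
(.lf (nat_lit 583799) (.g (nat_lit 2778) (.e (nat_lit 360473) (nat_lit 8) (.e (nat_lit 557094) (nat_lit 12) (.e (nat_lit 164018) (nat_lit 45) (.e (nat_lit 696328) (nat_lit 5) (.e (nat_lit 2980) (nat_lit 185) (.e (nat_lit 434231) (nat_lit 23) (.e (nat_lit 532549) (nat_lit 12) .nil))))))) (.g (nat_lit 1) (.e (nat_lit 384628) (nat_lit 0) .nil) .nil))) 
(.lf (nat_lit 584311) (.g (nat_lit 1762) (.e (nat_lit 376835) (nat_lit 0) (.e (nat_lit 3304) (nat_lit 202) (.e (nat_lit 573481) (nat_lit 13) (.e (nat_lit 65628) (nat_lit 14) (.e (nat_lit 401428) (nat_lit 3) .nil))))) (.g (nat_lit 0) (.e (nat_lit 385756) (nat_lit 0) .nil) .nil)))) (.nd (nat_lit 9) 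
(.lf (nat_lit 584055) (.g (nat_lit 1074) (.e (nat_lit 368676) (nat_lit 21) (.e (nat_lit 516115) (nat_lit 1) (.e (nat_lit 164183) (nat_lit 154) (.e (nat_lit 65280) (nat_lit 12) .nil)))) (.g (nat_lit 0) (.e (nat_lit 385332) (nat_lit 0) .nil) .nil))) 
(.lf (nat_lit 584567) (.g (nat_lit 2397) (.e (nat_lit 376860) (nat_lit 21) (.e (nat_lit 57930) (nat_lit 282) (.e (nat_lit 163896) (nat_lit 10) (.e (nat_lit 409648) (nat_lit 18) (.e (nat_lit 303131) (nat_lit 9) (.e (nat_lit 433920) (nat_lit 32) .nil)))))) (.g (nat_lit 1) (.e (nat_lit 386356) (nat_lit 0) .nil) .nil))))) (.nd (nat_lit 8) (.nd (nat_lit 9) 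
(.lf (nat_lit 583927) (.g (nat_lit 3594) (.e (nat_lit 360475) (nat_lit 8) (.e (nat_lit 557090) (nat_lit 12) (.e (nat_lit 163844) (nat_lit 0) (.e (nat_lit 6416) (nat_lit 341) (.e (nat_lit 163908) (nat_lit 12) (.e (nat_lit 426003) (nat_lit 0) (.e (nat_lit 3262) (nat_lit 198) (.e (nat_lit 540706) (nat_lit 12) .nil)))))))) (.g (nat_lit 1) (.e (nat_lit 384812) (nat_lit 0) .nil) .nil))) 
(.lf (nat_lit 584439) (.g (nat_lit 774) (.e (nat_lit 376856) (nat_lit 21) (.e (nat_lit 57847) (nat_lit 252) (.e (nat_lit 57390) (nat_lit 5) .nil))) (.g (nat_lit 0) (.e (nat_lit 386151) (nat_lit 0) .nil) .nil)))) (.nd (nat_lit 9) 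
(.lf (nat_lit 584183) (.g (nat_lit 2839) (.e (nat_lit 368676) (nat_lit 21) (.e (nat_lit 516142) (nat_lit 8) (.e (nat_lit 417830) (nat_lit 19) (.e (nat_lit 311315) (nat_lit 3) (.e (nat_lit 204861) (nat_lit 26) (.e (nat_lit 336186) (nat_lit 11) .nil)))))) (.g (nat_lit 1) (.e (nat_lit 385493) (nat_lit 0) .nil) .nil))) 
(.lf (nat_lit 584695) (.g (nat_lit 2545) (.e (nat_lit 385057) (nat_lit 22) (.e (nat_lit 499780) (nat_lit 1) (.e (nat_lit 57811) (nat_lit 246) (.e (nat_lit 57883) (nat_lit 270) (.e (nat_lit 496) (nat_lit 39) (.e (nat_lit 483403) (nat_lit 26) .nil)))))) (.g (nat_lit 1) (.e (nat_lit 386674) (nat_lit 0) .nil) .nil))))))))) 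
(.nd (nat_lit 4) (.nd (nat_lit 5) (.nd (nat_lit 6) (.nd (nat_lit 7) (.nd (nat_lit 8) 
(.nd (nat_lit 9) 
(.lf (nat_lit 583695) (.g (nat_lit 839) (.e (nat_lit 360473) (nat_lit 8) (.e (nat_lit 557087) (nat_lit 11) (.e (nat_lit 24586) (nat_lit 0) .nil))) (.g (nat_lit 0) (.e (nat_lit 384450) (nat_lit 0) .nil) .nil))) 
(.lf (nat_lit 584207) (.g (nat_lit 2945) (.e (nat_lit 368676) (nat_lit 21) (.e (nat_lit 516165) (nat_lit 12) (.e (nat_lit 450586) (nat_lit 10) (.e (nat_lit 573475) (nat_lit 12) (.e (nat_lit 57353) (nat_lit 0) (.e (nat_lit 7265) (nat_lit 384) (.e (nat_lit 57431) (nat_lit 16) .nil))))))) (.g (nat_lit 1) (.e (nat_lit 385517) (nat_lit 0) .nil) .nil)))) (.nd (nat_lit 9) 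
(.lf (nat_lit 583951) (.g (nat_lit 406) (.e (nat_lit 360475) (nat_lit 8) (.e (nat_lit 557091) (nat_lit 12) (.e (nat_lit 163844) (nat_lit 0) .nil))) (.g (nat_lit 0) (.e (nat_lit 384845) (nat_lit 0) .nil) .nil))) 
(.lf (nat_lit 584463) (.g (nat_lit 3443) (.e (nat_lit 376857) (nat_lit 21) (.e (nat_lit 57849) (nat_lit 252) (.e (nat_lit 57388) (nat_lit 5) (.e (nat_lit 114698) (nat_lit 11) (.e (nat_lit 426190) (nat_lit 9) (.e (nat_lit 426555) (nat_lit 32) .nil)))))) (.g (nat_lit 1) (.e (nat_lit 386192) (nat_lit 0) .nil) .nil))))) (.nd (nat_lit 8) (.nd (nat_lit 9) 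
(.lf (nat_lit 583823) (.g (nat_lit 847) (.e (nat_lit 360474) (nat_lit 8) (.e (nat_lit 557091) (nat_lit 12) (.e (nat_lit 163840) (nat_lit 0) .nil))) (.g (nat_lit 0) (.e (nat_lit 384676) (nat_lit 0) .nil) .nil))) 
(.lf (nat_lit 584335) (.g (nat_lit 1791) (.e (nat_lit 384768) (nat_lit 5) (.e (nat_lit 221206) (nat_lit 21) (.e (nat_lit 164325) (nat_lit 230) (.e (nat_lit 163903) (nat_lit 12) (.e (nat_lit 426227) (nat_lit 9) .nil))))) (.g (nat_lit 0) (.e (nat_lit 385958) (nat_lit 0) .nil) .nil)))) (.nd (nat_lit 9) 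
(.lf (nat_lit 584079) (.g (nat_lit 2387) (.e (nat_lit 368676) (nat_lit 21) (.e (nat_lit 516129) (nat_lit 3) (.e (nat_lit 221214) (nat_lit 23) (.e (nat_lit 204830) (nat_lit 18) (.e (nat_lit 57927) (nat_lit 282) (.e (nat_lit 163874) (nat_lit 3) (.e (nat_lit 204872) (nat_lit 30) .nil))))))) (.g (nat_lit 1) (.e (nat_lit 385372) (nat_lit 0) .nil) .nil))) 
(.lf (nat_lit 584591) (.g (nat_lit 1606) (.e (nat_lit 376866) (nat_lit 23) (.e (nat_lit 98349) (nat_lit 24) (.e (nat_lit 409645) (nat_lit 18) (.e (nat_lit 303112) (nat_lit 0) .nil)))) (.g (nat_lit 0) (.e (nat_lit 386427) (nat_lit 0) .nil) .nil)))))) (.nd (nat_lit 7) (.nd (nat_lit 8) (.nd (nat_lit 9) 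
(.lf (nat_lit 583759) (.g (nat_lit 3182) (.e (nat_lit 360473) (nat_lit 8) (.e (nat_lit 557091) (nat_lit 12) (.e (nat_lit 164018) (nat_lit 45) (.e (nat_lit 696327) (nat_lit 5) (.e (nat_lit 2884) (nat_lit 184) (.e (nat_lit 426140) (nat_lit 3) (.e (nat_lit 204868) (nat_lit 29) .nil))))))) (.g (nat_lit 1) (.e (nat_lit 384551) (nat_lit 0) .nil) .nil))) 
(.lf (nat_lit 584271) (.g (nat_lit 2504) (.e (nat_lit 368676) (nat_lit 21) (.e (nat_lit 516195) (nat_lit 26) (.e (nat_lit 335986) (nat_lit 1) (.e (nat_lit 57931) (nat_lit 282) (.e (nat_lit 163941) (nat_lit 19) (.e (nat_lit 483398) (nat_lit 25) .nil)))))) (.g (nat_lit 1) (.e (nat_lit 385593) (nat_lit 0) .nil) .nil)))) (.nd (nat_lit 9) 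
(.lf (nat_lit 584015) (.g (nat_lit 1024) (.e (nat_lit 360493) (nat_lit 27) (.e (nat_lit 819219) (nat_lit 4) (.e (nat_lit 172115) (nat_lit 10) (.e (nat_lit 434229) (nat_lit 22) (.e (nat_lit 532224) (nat_lit 29) .nil))))) (.g (nat_lit 1) (.e (nat_lit 384959) (nat_lit 0) .nil) .nil))) 
(.lf (nat_lit 584527) (.g (nat_lit 1788) (.e (nat_lit 376859) (nat_lit 21) (.e (nat_lit 57853) (nat_lit 252) (.e (nat_lit 57389) (nat_lit 5) (.e (nat_lit 114698) (nat_lit 11) (.e (nat_lit 426197) (nat_lit 9) .nil))))) (.g (nat_lit 0) (.e (nat_lit 386284) (nat_lit 0) .nil) .nil))))) (.nd (nat_lit 8) (.nd (nat_lit 9) 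
(.lf (nat_lit 583887) (.g (nat_lit 2247) (.e (nat_lit 360474) (nat_lit 8) (.e (nat_lit 557094) (nat_lit 12) (.e (nat_lit 164022) (nat_lit 46) (.e (nat_lit 704736) (nat_lit 11) (.e (nat_lit 16395) (nat_lit 0) (.e (nat_lit 3262) (nat_lit 198) (.e (nat_lit 540706) (nat_lit 12) .nil))))))) (.g (nat_lit 1) (.e (nat_lit 384755) (nat_lit 0) .nil) .nil))) 
(.lf (nat_lit 584399) (.g (nat_lit 2119) (.e (nat_lit 376842) (nat_lit 11) (.e (nat_lit 426521) (nat_lit 27) (.e (nat_lit 335987) (nat_lit 1) (.e (nat_lit 57926) (nat_lit 282) (.e (nat_lit 163875) (nat_lit 3) (.e (nat_lit 204876) (nat_lit 31) .nil)))))) (.g (nat_lit 1) (.e (nat_lit 386080) (nat_lit 0) .nil) .nil)))) (.nd (nat_lit 9) 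
(.lf (nat_lit 584143) (.g (nat_lit 3434) (.e (nat_lit 368676) (nat_lit 21) (.e (nat_lit 516131) (nat_lit 3) (.e (nat_lit 221215) (nat_lit 23) (.e (nat_lit 204828) (nat_lit 18) (.e (nat_lit 57931) (nat_lit 282) (.e (nat_lit 163874) (nat_lit 3) (.e (nat_lit 204872) (nat_lit 30) .nil))))))) (.g (nat_lit 1) (.e (nat_lit 385450) (nat_lit 0) .nil) .nil))) 
(.lf (nat_lit 584655) (.g (nat_lit 2461) (.e (nat_lit 376869) (nat_lit 23) (.e (nat_lit 98317) (nat_lit 9) (.e (nat_lit 335995) (nat_lit 1) (.e (nat_lit 57931) (nat_lit 282) (.e (nat_lit 163902) (nat_lit 12) (.e (nat_lit 426556) (nat_lit 32) .nil)))))) (.g (nat_lit 1) (.e (nat_lit 386519) (nat_lit 0) .nil) .nil))))))) (.nd (nat_lit 6) (.nd (nat_lit 7) (.nd (nat_lit 8) (.nd (nat_lit 9) 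
(.lf (nat_lit 583727) (.g (nat_lit 1714) (.e (nat_lit 360473) (nat_lit 8) (.e (nat_lit 557089) (nat_lit 12) (.e (nat_lit 164006) (nat_lit 41) (.e (nat_lit 663580) (nat_lit 9) (.e (nat_lit 284) (nat_lit 21) .nil))))) (.g (nat_lit 0) (.e (nat_lit 384497) (nat_lit 0) .nil) .nil))) 
(.lf (nat_lit 584239) (.g (nat_lit 3102) (.e (nat_lit 368676) (nat_lit 21) (.e (nat_lit 516166) (nat_lit 12) (.e (nat_lit 450585) (nat_lit 10) (.e (nat_lit 573474) (nat_lit 12) .nil)))) (.g (nat_lit 0) (.e (nat_lit 385549) (nat_lit 0) .nil) .nil)))) (.nd (nat_lit 9) 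
(.lf (nat_lit 583983) (.g (nat_lit 1403) (.e (nat_lit 360493) (nat_lit 27) (.e (nat_lit 819203) (nat_lit 0) (.e (nat_lit 3027) (nat_lit 187) (.e (nat_lit 450584) (nat_lit 9) (.e (nat_lit 565252) (nat_lit 0) (.e (nat_lit 1599) (nat_lit 111) .nil)))))) (.g (nat_lit 1) (.e (nat_lit 384916) (nat_lit 0) .nil) .nil))) 
(.lf (nat_lit 584495) (.g (nat_lit 1472) (.e (nat_lit 376858) (nat_lit 21) (.e (nat_lit 57854) (nat_lit 252) (.e (nat_lit 57389) (nat_lit 5) (.e (nat_lit 114695) (nat_lit 11) .nil)))) (.g (nat_lit 0) (.e (nat_lit 386239) (nat_lit 0) .nil) .nil))))) (.nd (nat_lit 8) (.nd (nat_lit 9) 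
(.lf (nat_lit 583855) (.g (nat_lit 2865) (.e (nat_lit 360474) (nat_lit 8) (.e (nat_lit 557093) (nat_lit 12) (.e (nat_lit 164022) (nat_lit 46) (.e (nat_lit 704738) (nat_lit 11) (.e (nat_lit 16389) (nat_lit 0) (.e (nat_lit 7936) (nat_lit 197) (.e (nat_lit 532550) (nat_lit 12) .nil))))))) (.g (nat_lit 1) (.e (nat_lit 384720) (nat_lit 0) .nil) .nil))) 
(.lf (nat_lit 584367) (.g (nat_lit 2595) (.e (nat_lit 376840) (nat_lit 11) (.e (nat_lit 426525) (nat_lit 27) (.e (nat_lit 335986) (nat_lit 1) (.e (nat_lit 57926) (nat_lit 282) (.e (nat_lit 163874) (nat_lit 3) (.e (nat_lit 204876) (nat_lit 31) .nil)))))) (.g (nat_lit 1) (.e (nat_lit 386043) (nat_lit 0) .nil) .nil)))) (.nd (nat_lit 9) 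
(.lf (nat_lit 584111) (.g (nat_lit 3363) (.e (nat_lit 368676) (nat_lit 21) (.e (nat_lit 516131) (nat_lit 3) (.e (nat_lit 221213) (nat_lit 23) (.e (nat_lit 204830) (nat_lit 18) (.e (nat_lit 57926) (nat_lit 282) (.e (nat_lit 163874) (nat_lit 3) (.e (nat_lit 204873) (nat_lit 30) .nil))))))) (.g (nat_lit 1) (.e (nat_lit 385413) (nat_lit 0) .nil) .nil))) 
(.lf (nat_lit 584623) (.g (nat_lit 1450) (.e (nat_lit 376867) (nat_lit 23) (.e (nat_lit 98350) (nat_lit 24) (.e (nat_lit 409650) (nat_lit 19) (.e (nat_lit 311315) (nat_lit 3) .nil)))) (.g (nat_lit 0) (.e (nat_lit 386471) (nat_lit 0) .nil) .nil)))))) (.nd (nat_lit 7) (.nd (nat_lit 8) (.nd (nat_lit 9) 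
(.lf (nat_lit 583791) (.g (nat_lit 2472) (.e (nat_lit 360473) (nat_lit 8) (.e (nat_lit 557094) (nat_lit 12) (.e (nat_lit 163847) (nat_lit 0) (.e (nat_lit 6416) (nat_lit 341) (.e (nat_lit 163900) (nat_lit 12) (.e (nat_lit 426140) (nat_lit 3) (.e (nat_lit 204868) (nat_lit 29) .nil))))))) (.g (nat_lit 1) (.e (nat_lit 384602) (nat_lit 0) .nil) .nil))) 
(.lf (nat_lit 584303) (.g (nat_lit 2930) (.e (nat_lit 376833) (nat_lit 0) (.e (nat_lit 3302) (nat_lit 202) (.e (nat_lit 573482) (nat_lit 13) (.e (nat_lit 65628) (nat_lit 14) (.e (nat_lit 401428) (nat_lit 3) .nil))))) (.g (nat_lit 0) (.e (nat_lit 385703) (nat_lit 0) .nil) .nil)))) (.nd (nat_lit 9) 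
(.lf (nat_lit 584047) (.g (nat_lit 1225) (.e (nat_lit 368675) (nat_lit 21) (.e (nat_lit 516138) (nat_lit 7) (.e (nat_lit 409646) (nat_lit 18) (.e (nat_lit 303119) (nat_lit 3) .nil)))) (.g (nat_lit 0) (.e (nat_lit 385300) (nat_lit 0) .nil) .nil))) 
(.lf (nat_lit 584559) (.g (nat_lit 2141) (.e (nat_lit 376860) (nat_lit 21) (.e (nat_lit 57930) (nat_lit 282) (.e (nat_lit 163896) (nat_lit 10) (.e (nat_lit 409616) (nat_lit 10) (.e (nat_lit 5773) (nat_lit 316) (.e (nat_lit 179968) (nat_lit 32) .nil)))))) (.g (nat_lit 1) (.e (nat_lit 386346) (nat_lit 0) .nil) .nil))))) (.nd (nat_lit 8) (.nd (nat_lit 9) 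
(.lf (nat_lit 583919) (.g (nat_lit 3792) (.e (nat_lit 360475) (nat_lit 8) (.e (nat_lit 557087) (nat_lit 11) (.e (nat_lit 24662) (nat_lit 14) (.e (nat_lit 401412) (nat_lit 0) (.e (nat_lit 3262) (nat_lit 198) (.e (nat_lit 540706) (nat_lit 12) .nil)))))) (.g (nat_lit 1) (.e (nat_lit 384802) (nat_lit 0) .nil) .nil))) 
(.lf (nat_lit 584431) (.g (nat_lit 3295) (.e (nat_lit 376855) (nat_lit 20) (.e (nat_lit 1800) (nat_lit 119) (.e (nat_lit 516139) (nat_lit 7) (.e (nat_lit 409649) (nat_lit 18) (.e (nat_lit 303112) (nat_lit 0) (.e (nat_lit 3252) (nat_lit 197) (.e (nat_lit 532561) (nat_lit 14) .nil))))))) (.g (nat_lit 1) (.e (nat_lit 386129) (nat_lit 0) .nil) .nil)))) (.nd (nat_lit 9) 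
(.lf (nat_lit 584175) (.g (nat_lit 3222) (.e (nat_lit 368676) (nat_lit 21) (.e (nat_lit 516139) (nat_lit 7) (.e (nat_lit 409645) (nat_lit 18) (.e (nat_lit 303119) (nat_lit 3) (.e (nat_lit 204861) (nat_lit 26) (.e (nat_lit 336184) (nat_lit 11) .nil)))))) (.g (nat_lit 1) (.e (nat_lit 385484) (nat_lit 0) .nil) .nil))) 
(.lf (nat_lit 584687) (.g (nat_lit 443) (.e (nat_lit 392960) (nat_lit 10) (.e (nat_lit 24630) (nat_lit 9) (.e (nat_lit 336324) (nat_lit 18) .nil))) (.g (nat_lit 0) (.e (nat_lit 386645) (nat_lit 0) .nil) .nil)))))))) (.nd (nat_lit 5) (.nd (nat_lit 6) (.nd (nat_lit 7) (.nd (nat_lit 8) (.nd (nat_lit 9) 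
(.lf (nat_lit 583711) (.g (nat_lit 3165) (.e (nat_lit 360473) (nat_lit 8) (.e (nat_lit 557087) (nat_lit 11) (.e (nat_lit 24665) (nat_lit 14) (.e (nat_lit 401419) (nat_lit 0) .nil)))) (.g (nat_lit 0) (.e (nat_lit 384468) (nat_lit 0) .nil) .nil))) 
(.lf (nat_lit 584223) (.g (nat_lit 4194) (.e (nat_lit 368676) (nat_lit 21) (.e (nat_lit 516165) (nat_lit 12) (.e (nat_lit 450588) (nat_lit 10) (.e (nat_lit 573473) (nat_lit 12) (.e (nat_lit 57353) (nat_lit 0) (.e (nat_lit 7266) (nat_lit 384) (.e (nat_lit 57430) (nat_lit 16) .nil))))))) (.g (nat_lit 1) (.e (nat_lit 385533) (nat_lit 0) .nil) .nil)))) (.nd (nat_lit 9) 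
(.lf (nat_lit 583967) (.g (nat_lit 1510) (.e (nat_lit 360490) (nat_lit 22) (.e (nat_lit 778497) (nat_lit 14) (.e (nat_lit 2809) (nat_lit 180) (.e (nat_lit 303137) (nat_lit 10) (.e (nat_lit 434229) (nat_lit 22) (.e (nat_lit 532224) (nat_lit 29) .nil)))))) (.g (nat_lit 1) (.e (nat_lit 384886) (nat_lit 0) .nil) .nil))) 
(.lf (nat_lit 584479) (.g (nat_lit 3608) (.e (nat_lit 376857) (nat_lit 21) (.e (nat_lit 57853) (nat_lit 252) (.e (nat_lit 57388) (nat_lit 5) (.e (nat_lit 114698) (nat_lit 11) (.e (nat_lit 426188) (nat_lit 9) (.e (nat_lit 426555) (nat_lit 32) .nil)))))) (.g (nat_lit 1) (.e (nat_lit 386211) (nat_lit 0) .nil) .nil))))) (.nd (nat_lit 8) (.nd (nat_lit 9) 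
(.lf (nat_lit 583839) (.g (nat_lit 2834) (.e (nat_lit 360474) (nat_lit 8) (.e (nat_lit 557093) (nat_lit 12) (.e (nat_lit 164022) (nat_lit 46) (.e (nat_lit 704629) (nat_lit 9) (.e (nat_lit 452) (nat_lit 33) (.e (nat_lit 434219) (nat_lit 19) (.e (nat_lit 499980) (nat_lit 14) (.e (nat_lit 1587) (nat_lit 111) .nil)))))))) (.g (nat_lit 1) (.e (nat_lit 384703) (nat_lit 0) .nil) .nil))) 
(.lf (nat_lit 584351) (.g (nat_lit 1445) (.e (nat_lit 384768) (nat_lit 5) (.e (nat_lit 221207) (nat_lit 21) (.e (nat_lit 164326) (nat_lit 230) (.e (nat_lit 163907) (nat_lit 12) (.e (nat_lit 426227) (nat_lit 9) .nil))))) (.g (nat_lit 0) (.e (nat_lit 386007) (nat_lit 0) .nil) .nil)))) (.nd (nat_lit 9) 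
(.lf (nat_lit 584095) (.g (nat_lit 2335) (.e (nat_lit 368676) (nat_lit 21) (.e (nat_lit 516129) (nat_lit 3) (.e (nat_lit 221215) (nat_lit 23) (.e (nat_lit 204830) (nat_lit 18) (.e (nat_lit 57926) (nat_lit 282) (.e (nat_lit 163874) (nat_lit 3) (.e (nat_lit 204872) (nat_lit 30) .nil))))))) (.g (nat_lit 1) (.e (nat_lit 385388) (nat_lit 0) .nil) .nil))) 
(.lf (nat_lit 584607) (.g (nat_lit 2036) (.e (nat_lit 376867) (nat_lit 23) (.e (nat_lit 98313) (nat_lit 9) (.e (nat_lit 335993) (nat_lit 1) (.e (nat_lit 57931) (nat_lit 282) (.e (nat_lit 163905) (nat_lit 12) (.e (nat_lit 426555) (nat_lit 32) .nil)))))) (.g (nat_lit 1) (.e (nat_lit 386448) (nat_lit 0) .nil) .nil)))))) (.nd (nat_lit 7) (.nd (nat_lit 8) (.nd (nat_lit 9) 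
(.lf (nat_lit 583775) (.g (nat_lit 3011) (.e (nat_lit 360473) (nat_lit 8) (.e (nat_lit 557093) (nat_lit 12) (.e (nat_lit 163849) (nat_lit 0) (.e (nat_lit 6421) (nat_lit 341) (.e (nat_lit 163900) (nat_lit 12) (.e (nat_lit 426140) (nat_lit 3) (.e (nat_lit 204868) (nat_lit 29) .nil))))))) (.g (nat_lit 1) (.e (nat_lit 384575) (nat_lit 0) .nil) .nil))) 
(.lf (nat_lit 584287) (.g (nat_lit 3679) (.e (nat_lit 368678) (nat_lit 22) (.e (nat_lit 524322) (nat_lit 12) (.e (nat_lit 450588) (nat_lit 10) (.e (nat_lit 573475) (nat_lit 12) (.e (nat_lit 57348) (nat_lit 0) .nil))))) (.g (nat_lit 0) (.e (nat_lit 385627) (nat_lit 0) .nil) .nil)))) (.nd (nat_lit 9) 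
(.lf (nat_lit 584031) (.g (nat_lit 1118) (.e (nat_lit 376576) (nat_lit 5) (.e (nat_lit 180272) (nat_lit 26) (.e (nat_lit 704629) (nat_lit 9) (.e (nat_lit 386) (nat_lit 32) .nil)))) (.g (nat_lit 0) (.e (nat_lit 385167) (nat_lit 0) .nil) .nil))) 
(.lf (nat_lit 584543) (.g (nat_lit 2064) (.e (nat_lit 376860) (nat_lit 21) (.e (nat_lit 57853) (nat_lit 252) (.e (nat_lit 57388) (nat_lit 5) (.e (nat_lit 114696) (nat_lit 11) (.e (nat_lit 426234) (nat_lit 9) (.e (nat_lit 426554) (nat_lit 32) .nil)))))) (.g (nat_lit 1) (.e (nat_lit 386321) (nat_lit 0) .nil) .nil))))) (.nd (nat_lit 8) (.nd (nat_lit 9) 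
(.lf (nat_lit 583903) (.g (nat_lit 3345) (.e (nat_lit 360474) (nat_lit 8) (.e (nat_lit 557094) (nat_lit 12) (.e (nat_lit 164022) (nat_lit 46) (.e (nat_lit 704738) (nat_lit 11) (.e (nat_lit 16398) (nat_lit 0) (.e (nat_lit 7936) (nat_lit 197) (.e (nat_lit 532550) (nat_lit 12) .nil))))))) (.g (nat_lit 1) (.e (nat_lit 384771) (nat_lit 0) .nil) .nil))) 
(.lf (nat_lit 584415) (.g (nat_lit 268) (.e (nat_lit 376855) (nat_lit 20) (.e (nat_lit 1800) (nat_lit 119) (.e (nat_lit 516139) (nat_lit 7) .nil))) (.g (nat_lit 0) (.e (nat_lit 386112) (nat_lit 0) .nil) .nil)))) (.nd (nat_lit 9) 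
(.lf (nat_lit 584159) (.g (nat_lit 3741) (.e (nat_lit 368676) (nat_lit 21) (.e (nat_lit 516131) (nat_lit 3) (.e (nat_lit 221215) (nat_lit 23) (.e (nat_lit 204830) (nat_lit 18) (.e (nat_lit 57929) (nat_lit 282) (.e (nat_lit 163874) (nat_lit 3) (.e (nat_lit 204872) (nat_lit 30) .nil))))))) (.g (nat_lit 1) (.e (nat_lit 385466) (nat_lit 0) .nil) .nil))) 
(.lf (nat_lit 584671) (.g (nat_lit 2907) (.e (nat_lit 384768) (nat_lit 23) (.e (nat_lit 98350) (nat_lit 24) (.e (nat_lit 409645) (nat_lit 18) (.e (nat_lit 303112) (nat_lit 0) (.e (nat_lit 3252) (nat_lit 197) .nil))))) (.g (nat_lit 0) (.e (nat_lit 386572) (nat_lit 0) .nil) .nil))))))) (.nd (nat_lit 6) (.nd (nat_lit 7) (.nd (nat_lit 8) (.nd (nat_lit 9) 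
(.lf (nat_lit 583743) (.g (nat_lit 3837) (.e (nat_lit 360473) (nat_lit 8) (.e (nat_lit 557089) (nat_lit 12) (.e (nat_lit 164020) (nat_lit 45) (.e (nat_lit 696330) (nat_lit 5) (.e (nat_lit 2980) (nat_lit 185) (.e (nat_lit 434231) (nat_lit 23) (.e (nat_lit 532549) (nat_lit 12) .nil))))))) (.g (nat_lit 1) (.e (nat_lit 384516) (nat_lit 0) .nil) .nil))) 
(.lf (nat_lit 584255) (.g (nat_lit 4708) (.e (nat_lit 368676) (nat_lit 21) (.e (nat_lit 516166) (nat_lit 12) (.e (nat_lit 450588) (nat_lit 10) (.e (nat_lit 573475) (nat_lit 12) (.e (nat_lit 57344) (nat_lit 0) .nil))))) (.g (nat_lit 0) (.e (nat_lit 385565) (nat_lit 0) .nil) .nil)))) (.nd (nat_lit 9) 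
(.lf (nat_lit 583999) (.g (nat_lit 2224) (.e (nat_lit 360493) (nat_lit 27) (.e (nat_lit 819204) (nat_lit 0) (.e (nat_lit 3022) (nat_lit 187) (.e (nat_lit 450584) (nat_lit 9) (.e (nat_lit 565252) (nat_lit 0) (.e (nat_lit 1586) (nat_lit 111) .nil)))))) (.g (nat_lit 1) (.e (nat_lit 384940) (nat_lit 0) .nil) .nil))) 
(.lf (nat_lit 584511) (.g (nat_lit 3227) (.e (nat_lit 376859) (nat_lit 21) (.e (nat_lit 57847) (nat_lit 252) (.e (nat_lit 57390) (nat_lit 5) (.e (nat_lit 114698) (nat_lit 11) (.e (nat_lit 426200) (nat_lit 9) (.e (nat_lit 426555) (nat_lit 32) .nil)))))) (.g (nat_lit 1) (.e (nat_lit 386266) (nat_lit 0) .nil) .nil))))) (.nd (nat_lit 8) (.nd (nat_lit 9) 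
(.lf (nat_lit 583871) (.g (nat_lit 2846) (.e (nat_lit 360474) (nat_lit 8) (.e (nat_lit 557093) (nat_lit 12) (.e (nat_lit 164023) (nat_lit 46) (.e (nat_lit 704738) (nat_lit 11) (.e (nat_lit 16393) (nat_lit 0) (.e (nat_lit 3262) (nat_lit 198) (.e (nat_lit 540706) (nat_lit 12) .nil))))))) (.g (nat_lit 1) (.e (nat_lit 384736) (nat_lit 0) .nil) .nil))) 
(.lf (nat_lit 584383) (.g (nat_lit 394) (.e (nat_lit 376842) (nat_lit 11) (.e (nat_lit 426408) (nat_lit 15) (.e (nat_lit 6207) (nat_lit 333) .nil))) (.g (nat_lit 0) (.e (nat_lit 386064) (nat_lit 0) .nil) .nil)))) (.nd (nat_lit 9) 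
(.lf (nat_lit 584127) (.g (nat_lit 3431) (.e (nat_lit 368676) (nat_lit 21) (.e (nat_lit 516131) (nat_lit 3) (.e (nat_lit 221214) (nat_lit 23) (.e (nat_lit 204830) (nat_lit 18) (.e (nat_lit 57927) (nat_lit 282) (.e (nat_lit 163874) (nat_lit 3) (.e (nat_lit 204872) (nat_lit 30) .nil))))))) (.g (nat_lit 1) (.e (nat_lit 385429) (nat_lit 0) .nil) .nil))) 
(.lf (nat_lit 584639) (.g (nat_lit 2312) (.e (nat_lit 376868) (nat_lit 23) (.e (nat_lit 98350) (nat_lit 24) (.e (nat_lit 409649) (nat_lit 18) (.e (nat_lit 303111) (nat_lit 0) (.e (nat_lit 3230) (nat_lit 197) (.e (nat_lit 532559) (nat_lit 14) .nil)))))) (.g (nat_lit 1) (.e (nat_lit 386495) (nat_lit 0) .nil) .nil)))))) (.nd (nat_lit 7) (.nd (nat_lit 8) (.nd (nat_lit 9) 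
(.lf (nat_lit 583807) (.g (nat_lit 3122) (.e (nat_lit 360473) (nat_lit 8) (.e (nat_lit 557094) (nat_lit 12) (.e (nat_lit 164022) (nat_lit 46) (.e (nat_lit 704626) (nat_lit 9) (.e (nat_lit 375) (nat_lit 32) (.e (nat_lit 426140) (nat_lit 3) (.e (nat_lit 204868) (nat_lit 29) .nil))))))) (.g (nat_lit 1) (.e (nat_lit 384644) (nat_lit 0) .nil) .nil))) 
(.lf (nat_lit 584319) (.g (nat_lit 1787) (.e (nat_lit 376835) (nat_lit 0) (.e (nat_lit 3632) (nat_lit 227) (.e (nat_lit 778323) (nat_lit 5) (.e (nat_lit 73781) (nat_lit 32) (.e (nat_lit 2855) (nat_lit 184) (.e (nat_lit 426556) (nat_lit 32) .nil)))))) (.g (nat_lit 1) (.e (nat_lit 385799) (nat_lit 0) .nil) .nil)))) (.nd (nat_lit 9) 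
(.lf (nat_lit 584063) (.g (nat_lit 1304) (.e (nat_lit 368676) (nat_lit 21) (.e (nat_lit 516120) (nat_lit 1) (.e (nat_lit 164181) (nat_lit 154) (.e (nat_lit 57411) (nat_lit 12) .nil)))) (.g (nat_lit 0) (.e (nat_lit 385354) (nat_lit 0) .nil) .nil))) 
(.lf (nat_lit 584575) (.g (nat_lit 492) (.e (nat_lit 376862) (nat_lit 22) (.e (nat_lit 90172) (nat_lit 14) (.e (nat_lit 180233) (nat_lit 0) .nil))) (.g (nat_lit 0) (.e (nat_lit 386379) (nat_lit 0) .nil) .nil))))) (.nd (nat_lit 8) (.nd (nat_lit 9) 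
(.lf (nat_lit 583935) (.g (nat_lit 948) (.e (nat_lit 360475) (nat_lit 8) (.e (nat_lit 557090) (nat_lit 12) (.e (nat_lit 164002) (nat_lit 40) .nil))) (.g (nat_lit 0) (.e (nat_lit 384826) (nat_lit 0) .nil) .nil))) 
(.lf (nat_lit 584447) (.g (nat_lit 1991) (.e (nat_lit 376856) (nat_lit 21) (.e (nat_lit 57851) (nat_lit 252) (.e (nat_lit 57389) (nat_lit 5) (.e (nat_lit 114698) (nat_lit 11) (.e (nat_lit 426199) (nat_lit 9) .nil))))) (.g (nat_lit 0) (.e (nat_lit 386159) (nat_lit 0) .nil) .nil)))) (.nd (nat_lit 9) 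
(.lf (nat_lit 584191) (.g (nat_lit 3470) (.e (nat_lit 368676) (nat_lit 21) (.e (nat_lit 516165) (nat_lit 12) (.e (nat_lit 450586) (nat_lit 10) (.e (nat_lit 573473) (nat_lit 12) (.e (nat_lit 57348) (nat_lit 0) (.e (nat_lit 7261) (nat_lit 384) (.e (nat_lit 57431) (nat_lit 16) .nil))))))) (.g (nat_lit 1) (.e (nat_lit 385501) (nat_lit 0) .nil) .nil))) 
(.lf (nat_lit 584703) (.g (nat_lit 886) (.e (nat_lit 385064) (nat_lit 26) (.e (nat_lit 532530) (nat_lit 9) (.e (nat_lit 336326) (nat_lit 18) .nil))) (.g (nat_lit 0) (.e (nat_lit 386703) (nat_lit 0) .nil) .nil)))))))))))))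

noncomputable def tv5631 : DT := (.nd (nat_lit 0) (.nd (nat_lit 1) (.nd (nat_lit 2) (.nd (nat_lit 3) (.nd (nat_lit 4) (.nd (nat_lit 5) (.nd (nat_lit 6) (.nd (nat_lit 7) (.nd (nat_lit 8) (.nd (nat_lit 9) 
(.lf (nat_lit 584704) (.g (nat_lit 1550) (.e (nat_lit 385064) (nat_lit 26) (.e (nat_lit 532530) (nat_lit 9) (.e (nat_lit 336326) (nat_lit 18) (.e (nat_lit 204851) (nat_lit 26) .nil)))) (.g (nat_lit 0) (.e (nat_lit 386704) (nat_lit 0) .nil) .nil))) 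
(.lf (nat_lit 585216) (.g (nat_lit 1720) (.e (nat_lit 385074) (nat_lit 31) (.e (nat_lit 573482) (nat_lit 13) (.e (nat_lit 65619) (nat_lit 10) (.e (nat_lit 344115) (nat_lit 20) .nil)))) (.g (nat_lit 0) (.e (nat_lit 387525) (nat_lit 0) .nil) .nil)))) (.nd (nat_lit 9) 
(.lf (nat_lit 584960) (.g (nat_lit 996) (.e (nat_lit 385068) (nat_lit 26) (.e (nat_lit 532514) (nat_lit 3) (.e (nat_lit 114698) (nat_lit 11) (.e (nat_lit 426138) (nat_lit 3) .nil)))) (.g (nat_lit 0) (.e (nat_lit 387116) (nat_lit 0) .nil) .nil))) 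
(.lf (nat_lit 585472) (.g (nat_lit 1490) (.e (nat_lit 385109) (nat_lit 51) (.e (nat_lit 802560) (nat_lit 2) (.e (nat_lit 90160) (nat_lit 11) (.e (nat_lit 24657) (nat_lit 13) (.e (nat_lit 401152) (nat_lit 15) .nil))))) (.g (nat_lit 1) (.e (nat_lit 388232) (nat_lit 0) .nil) .nil))))) (.nd (nat_lit 8) (.nd (nat_lit 9) 
(.lf (nat_lit 584832) (.g (nat_lit 2189) (.e (nat_lit 385066) (nat_lit 26) (.e (nat_lit 532534) (nat_lit 9) (.e (nat_lit 336019) (nat_lit 3) (.e (nat_lit 98334) (nat_lit 18) (.e (nat_lit 164242) (nat_lit 195) .nil))))) (.g (nat_lit 0) (.e (nat_lit 386916) (nat_lit 0) .nil) .nil))) 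
(.lf (nat_lit 585344) (.g (nat_lit 1989) (.e (nat_lit 385074) (nat_lit 31) (.e (nat_lit 573493) (nat_lit 15) (.e (nat_lit 81954) (nat_lit 23) (.e (nat_lit 98325) (nat_lit 17) (.e (nat_lit 7936) (nat_lit 402) .nil))))) (.g (nat_lit 0) (.e (nat_lit 387733) (nat_lit 0) .nil) .nil)))) (.nd (nat_lit 9) 
(.lf (nat_lit 585088) (.g (nat_lit 4403) (.e (nat_lit 385072) (nat_lit 31) (.e (nat_lit 573492) (nat_lit 15) (.e (nat_lit 81953) (nat_lit 22) (.e (nat_lit 90143) (nat_lit 9) .nil)))) (.g (nat_lit 0) (.e (nat_lit 387315) (nat_lit 0) .nil) .nil))) 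
(.lf (nat_lit 585600) (.g (nat_lit 1518) (.e (nat_lit 393250) (nat_lit 18) (.e (nat_lit 164398) (nat_lit 256) (.e (nat_lit 57379) (nat_lit 3) (.e (nat_lit 98365) (nat_lit 26) .nil)))) (.g (nat_lit 0) (.e (nat_lit 388669) (nat_lit 0) .nil) .nil)))))) (.nd (nat_lit 7) (.nd (nat_lit 8) (.nd (nat_lit 9) 
(.lf (nat_lit 584768) (.g (nat_lit 750) (.e (nat_lit 385066) (nat_lit 26) (.e (nat_lit 532503) (nat_lit 1) (.e (nat_lit 57931) (nat_lit 282) .nil))) (.g (nat_lit 0) (.e (nat_lit 386833) (nat_lit 0) .nil) .nil))) 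
(.lf (nat_lit 585280) (.g (nat_lit 3255) (.e (nat_lit 385074) (nat_lit 31) (.e (nat_lit 573485) (nat_lit 13) (.e (nat_lit 65628) (nat_lit 14) (.e (nat_lit 401425) (nat_lit 2) (.e (nat_lit 196681) (nat_lit 17) (.e (nat_lit 131121) (nat_lit 12) .nil)))))) (.g (nat_lit 1) (.e (nat_lit 387646) (nat_lit 0) .nil) .nil)))) (.nd (nat_lit 9) 
(.lf (nat_lit 585024) (.g (nat_lit 2615) (.e (nat_lit 385068) (nat_lit 26) (.e (nat_lit 532566) (nat_lit 15) (.e (nat_lit 385066) (nat_lit 26) (.e (nat_lit 532563) (nat_lit 15) (.e (nat_lit 385068) (nat_lit 26) (.e (nat_lit 532566) (nat_lit 15) .nil)))))) (.g (nat_lit 1) (.e (nat_lit 387188) (nat_lit 0) .nil) .nil))) 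
(.lf (nat_lit 585536) (.g (nat_lit 3332) (.e (nat_lit 393229) (nat_lit 9) (.e (nat_lit 335988) (nat_lit 1) (.e (nat_lit 57926) (nat_lit 282) (.e (nat_lit 163875) (nat_lit 3) (.e (nat_lit 204861) (nat_lit 26) (.e (nat_lit 336215) (nat_lit 13) .nil)))))) (.g (nat_lit 1) (.e (nat_lit 388548) (nat_lit 0) .nil) .nil))))) (.nd (nat_lit 8) (.nd (nat_lit 9) 
(.lf (nat_lit 584896) (.g (nat_lit 2943) (.e (nat_lit 385067) (nat_lit 26) (.e (nat_lit 532530) (nat_lit 9) (.e (nat_lit 336326) (nat_lit 18) (.e (nat_lit 204854) (nat_lit 26) (.e (nat_lit 336326) (nat_lit 18) (.e (nat_lit 204882) (nat_lit 32) .nil)))))) (.g (nat_lit 1) (.e (nat_lit 387011) (nat_lit 0) .nil) .nil))) 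
(.lf (nat_lit 585408) (.g (nat_lit 980) (.e (nat_lit 385094) (nat_lit 49) (.e (nat_lit 778323) (nat_lit 5) (.e (nat_lit 73782) (nat_lit 32) (.e (nat_lit 2855) (nat_lit 184) (.e (nat_lit 426489) (nat_lit 27) .nil))))) (.g (nat_lit 0) (.e (nat_lit 387986) (nat_lit 0) .nil) .nil)))) (.nd (nat_lit 9) 
(.lf (nat_lit 585152) (.g (nat_lit 1328) (.e (nat_lit 385073) (nat_lit 31) (.e (nat_lit 573493) (nat_lit 15) (.e (nat_lit 81923) (nat_lit 0) (.e (nat_lit 3305) (nat_lit 202) .nil)))) (.g (nat_lit 0) (.e (nat_lit 387424) (nat_lit 0) .nil) .nil))) 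
(.lf (nat_lit 585664) (.g (nat_lit 1453) (.e (nat_lit 393251) (nat_lit 18) (.e (nat_lit 164327) (nat_lit 230) (.e (nat_lit 163868) (nat_lit 2) (.e (nat_lit 196624) (nat_lit 9) .nil)))) (.g (nat_lit 0) (.e (nat_lit 388756) (nat_lit 0) .nil) .nil))))))) (.nd (nat_lit 6) (.nd (nat_lit 7) (.nd (nat_lit 8) (.nd (nat_lit 9) 
(.lf (nat_lit 584736) (.g (nat_lit 2826) (.e (nat_lit 385065) (nat_lit 26) (.e (nat_lit 532547) (nat_lit 11) (.e (nat_lit 352309) (nat_lit 21) (.e (nat_lit 57686) (nat_lit 156) (.e (nat_lit 163884) (nat_lit 5) (.e (nat_lit 229120) (nat_lit 17) .nil)))))) (.g (nat_lit 1) (.e (nat_lit 386778) (nat_lit 0) .nil) .nil))) 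
(.lf (nat_lit 585248) (.g (nat_lit 2742) (.e (nat_lit 385074) (nat_lit 31) (.e (nat_lit 573484) (nat_lit 13) (.e (nat_lit 65610) (nat_lit 10) (.e (nat_lit 344129) (nat_lit 26) (.e (nat_lit 557087) (nat_lit 11) (.e (nat_lit 32512) (nat_lit 12) .nil)))))) (.g (nat_lit 1) (.e (nat_lit 387572) (nat_lit 0) .nil) .nil)))) (.nd (nat_lit 9) 
(.lf (nat_lit 584992) (.g (nat_lit 2585) (.e (nat_lit 385068) (nat_lit 26) (.e (nat_lit 532534) (nat_lit 9) (.e (nat_lit 336324) (nat_lit 18) (.e (nat_lit 204854) (nat_lit 26) (.e (nat_lit 336322) (nat_lit 18) (.e (nat_lit 204880) (nat_lit 32) .nil)))))) (.g (nat_lit 1) (.e (nat_lit 387154) (nat_lit 0) .nil) .nil))) 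
(.lf (nat_lit 585504) (.g (nat_lit 2088) (.e (nat_lit 393225) (nat_lit 9) (.e (nat_lit 335993) (nat_lit 1) (.e (nat_lit 57931) (nat_lit 282) (.e (nat_lit 163869) (nat_lit 2) (.e (nat_lit 196681) (nat_lit 17) (.e (nat_lit 131128) (nat_lit 13) .nil)))))) (.g (nat_lit 1) (.e (nat_lit 388475) (nat_lit 0) .nil) .nil))))) (.nd (nat_lit 8) (.nd (nat_lit 9) 
(.lf (nat_lit 584864) (.g (nat_lit 2531) (.e (nat_lit 385066) (nat_lit 26) (.e (nat_lit 532560) (nat_lit 14) (.e (nat_lit 376859) (nat_lit 21) (.e (nat_lit 57687) (nat_lit 156) (.e (nat_lit 163886) (nat_lit 5) (.e (nat_lit 229120) (nat_lit 17) .nil)))))) (.g (nat_lit 1) (.e (nat_lit 386953) (nat_lit 0) .nil) .nil))) 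
(.lf (nat_lit 585376) (.g (nat_lit 2990) (.e (nat_lit 385093) (nat_lit 49) (.e (nat_lit 778317) (nat_lit 3) (.e (nat_lit 57480) (nat_lit 28) (.e (nat_lit 557067) (nat_lit 9) (.e (nat_lit 3021) (nat_lit 187) .nil))))) (.g (nat_lit 0) (.e (nat_lit 387925) (nat_lit 0) .nil) .nil)))) (.nd (nat_lit 9) 
(.lf (nat_lit 585120) (.g (nat_lit 2987) (.e (nat_lit 385072) (nat_lit 31) (.e (nat_lit 573493) (nat_lit 15) (.e (nat_lit 81954) (nat_lit 23) (.e (nat_lit 106240) (nat_lit 33) .nil)))) (.g (nat_lit 0) (.e (nat_lit 387358) (nat_lit 0) .nil) .nil))) 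
(.lf (nat_lit 585632) (.g (nat_lit 2447) (.e (nat_lit 393251) (nat_lit 18) (.e (nat_lit 164325) (nat_lit 230) (.e (nat_lit 163869) (nat_lit 2) (.e (nat_lit 196656) (nat_lit 11) (.e (nat_lit 16433) (nat_lit 9) .nil))))) (.g (nat_lit 0) (.e (nat_lit 388724) (nat_lit 0) .nil) .nil)))))) (.nd (nat_lit 7) (.nd (nat_lit 8) (.nd (nat_lit 9) 
(.lf (nat_lit 584800) (.g (nat_lit 2276) (.e (nat_lit 385066) (nat_lit 26) (.e (nat_lit 532529) (nat_lit 9) (.e (nat_lit 336326) (nat_lit 18) (.e (nat_lit 204854) (nat_lit 26) (.e (nat_lit 336322) (nat_lit 18) .nil))))) (.g (nat_lit 0) (.e (nat_lit 386879) (nat_lit 0) .nil) .nil))) 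
(.lf (nat_lit 585312) (.g (nat_lit 1628) (.e (nat_lit 385074) (nat_lit 31) (.e (nat_lit 573491) (nat_lit 15) (.e (nat_lit 81956) (nat_lit 23) (.e (nat_lit 106240) (nat_lit 33) .nil)))) (.g (nat_lit 0) (.e (nat_lit 387697) (nat_lit 0) .nil) .nil)))) (.nd (nat_lit 9) 
(.lf (nat_lit 585056) (.g (nat_lit 2097) (.e (nat_lit 385072) (nat_lit 31) (.e (nat_lit 573482) (nat_lit 13) (.e (nat_lit 65619) (nat_lit 10) (.e (nat_lit 344129) (nat_lit 26) (.e (nat_lit 557087) (nat_lit 11) (.e (nat_lit 24647) (nat_lit 12) .nil)))))) (.g (nat_lit 1) (.e (nat_lit 387262) (nat_lit 0) .nil) .nil))) 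
(.lf (nat_lit 585568) (.g (nat_lit 2973) (.e (nat_lit 393234) (nat_lit 17) (.e (nat_lit 7589) (nat_lit 406) (.e (nat_lit 65652) (nat_lit 27) (.e (nat_lit 426347) (nat_lit 14) (.e (nat_lit 491569) (nat_lit 13) .nil))))) (.g (nat_lit 1) (.e (nat_lit 388624) (nat_lit 0) .nil) .nil))))) (.nd (nat_lit 8) (.nd (nat_lit 9) 
(.lf (nat_lit 584928) (.g (nat_lit 2879) (.e (nat_lit 385068) (nat_lit 26) (.e (nat_lit 532504) (nat_lit 1) (.e (nat_lit 57852) (nat_lit 252) (.e (nat_lit 57406) (nat_lit 12) (.e (nat_lit 336366) (nat_lit 27) .nil))))) (.g (nat_lit 0) (.e (nat_lit 387073) (nat_lit 0) .nil) .nil))) 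
(.lf (nat_lit 585440) (.g (nat_lit 630) (.e (nat_lit 385103) (nat_lit 50) (.e (nat_lit 786480) (nat_lit 29) (.e (nat_lit 352262) (nat_lit 0) .nil))) (.g (nat_lit 0) (.e (nat_lit 388058) (nat_lit 0) .nil) .nil)))) (.nd (nat_lit 9) 
(.lf (nat_lit 585184) (.g (nat_lit 4965) (.e (nat_lit 385073) (nat_lit 31) (.e (nat_lit 573493) (nat_lit 15) (.e (nat_lit 81953) (nat_lit 22) (.e (nat_lit 90145) (nat_lit 9) .nil)))) (.g (nat_lit 0) (.e (nat_lit 387478) (nat_lit 0) .nil) .nil))) 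
(.lf (nat_lit 585696) (.g (nat_lit 2172) (.e (nat_lit 393251) (nat_lit 18) (.e (nat_lit 164327) (nat_lit 230) (.e (nat_lit 163873) (nat_lit 3) (.e (nat_lit 204811) (nat_lit 9) (.e (nat_lit 426262) (nat_lit 9) (.e (nat_lit 426565) (nat_lit 34) .nil)))))) (.g (nat_lit 1) (.e (nat_lit 388788) (nat_lit 0) .nil) .nil)))))))) 
(.nd (nat_lit 5) (.nd (nat_lit 6) (.nd (nat_lit 7) (.nd (nat_lit 8) (.nd (nat_lit 9) 
(.lf (nat_lit 584720) (.g (nat_lit 444) (.e (nat_lit 385065) (nat_lit 26) (.e (nat_lit 532529) (nat_lit 9) (.e (nat_lit 336326) (nat_lit 18) .nil))) (.g (nat_lit 0) (.e (nat_lit 386757) (nat_lit 0) .nil) .nil))) 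
(.lf (nat_lit 585232) (.g (nat_lit 2180) (.e (nat_lit 385074) (nat_lit 31) (.e (nat_lit 573484) (nat_lit 13) (.e (nat_lit 65610) (nat_lit 10) (.e (nat_lit 344117) (nat_lit 21) (.e (nat_lit 516097) (nat_lit 0) .nil))))) (.g (nat_lit 0) (.e (nat_lit 387548) (nat_lit 0) .nil) .nil)))) (.nd (nat_lit 9) 
(.lf (nat_lit 584976) (.g (nat_lit 2676) (.e (nat_lit 385068) (nat_lit 26) (.e (nat_lit 532530) (nat_lit 9) (.e (nat_lit 336324) (nat_lit 18) (.e (nat_lit 204854) (nat_lit 26) (.e (nat_lit 336322) (nat_lit 18) (.e (nat_lit 204880) (nat_lit 32) .nil)))))) (.g (nat_lit 1) (.e (nat_lit 387136) (nat_lit 0) .nil) .nil))) 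
(.lf (nat_lit 585488) (.g (nat_lit 2794) (.e (nat_lit 393224) (nat_lit 9) (.e (nat_lit 335988) (nat_lit 1) (.e (nat_lit 57931) (nat_lit 282) (.e (nat_lit 163869) (nat_lit 2) (.e (nat_lit 196681) (nat_lit 17) .nil))))) (.g (nat_lit 0) (.e (nat_lit 388440) (nat_lit 0) .nil) .nil))))) (.nd (nat_lit 8) (.nd (nat_lit 9) 
(.lf (nat_lit 584848) (.g (nat_lit 2361) (.e (nat_lit 385066) (nat_lit 26) (.e (nat_lit 532534) (nat_lit 9) (.e (nat_lit 336326) (nat_lit 18) (.e (nat_lit 204854) (nat_lit 26) (.e (nat_lit 336257) (nat_lit 15) .nil))))) (.g (nat_lit 0) (.e (nat_lit 386934) (nat_lit 0) .nil) .nil))) 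
(.lf (nat_lit 585360) (.g (nat_lit 2741) (.e (nat_lit 385091) (nat_lit 49) (.e (nat_lit 778317) (nat_lit 3) (.e (nat_lit 57480) (nat_lit 28) (.e (nat_lit 557067) (nat_lit 9) (.e (nat_lit 3022) (nat_lit 187) (.e (nat_lit 450580) (nat_lit 5) (.e (nat_lit 532563) (nat_lit 15) .nil))))))) (.g (nat_lit 1) (.e (nat_lit 387891) (nat_lit 0) .nil) .nil)))) (.nd (nat_lit 9) 
(.lf (nat_lit 585104) (.g (nat_lit 4539) (.e (nat_lit 385072) (nat_lit 31) (.e (nat_lit 573493) (nat_lit 15) (.e (nat_lit 81953) (nat_lit 22) (.e (nat_lit 90125) (nat_lit 9) .nil)))) (.g (nat_lit 0) (.e (nat_lit 387340) (nat_lit 0) .nil) .nil))) 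
(.lf (nat_lit 585616) (.g (nat_lit 3388) (.e (nat_lit 393251) (nat_lit 18) (.e (nat_lit 164325) (nat_lit 230) (.e (nat_lit 163866) (nat_lit 2) (.e (nat_lit 196654) (nat_lit 11) (.e (nat_lit 16433) (nat_lit 9) (.e (nat_lit 426568) (nat_lit 34) .nil)))))) (.g (nat_lit 1) (.e (nat_lit 388708) (nat_lit 0) .nil) .nil)))))) (.nd (nat_lit 7) (.nd (nat_lit 8) (.nd (nat_lit 9) 
(.lf (nat_lit 584784) (.g (nat_lit 1734) (.e (nat_lit 385066) (nat_lit 26) (.e (nat_lit 532515) (nat_lit 3) (.e (nat_lit 114694) (nat_lit 11) (.e (nat_lit 426116) (nat_lit 2) (.e (nat_lit 196681) (nat_lit 17) (.e (nat_lit 131120) (nat_lit 12) .nil)))))) (.g (nat_lit 1) (.e (nat_lit 386862) (nat_lit 0) .nil) .nil))) 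
(.lf (nat_lit 585296) (.g (nat_lit 338) (.e (nat_lit 385074) (nat_lit 31) (.e (nat_lit 573489) (nat_lit 14) (.e (nat_lit 81664) (nat_lit 32) .nil))) (.g (nat_lit 0) (.e (nat_lit 387678) (nat_lit 0) .nil) .nil)))) (.nd (nat_lit 9) 
(.lf (nat_lit 585040) (.g (nat_lit 944) (.e (nat_lit 385072) (nat_lit 31) (.e (nat_lit 573481) (nat_lit 13) (.e (nat_lit 65619) (nat_lit 10) (.e (nat_lit 344129) (nat_lit 26) .nil)))) (.g (nat_lit 0) (.e (nat_lit 387245) (nat_lit 0) .nil) .nil))) 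
(.lf (nat_lit 585552) (.g (nat_lit 2887) (.e (nat_lit 393229) (nat_lit 9) (.e (nat_lit 335996) (nat_lit 1) (.e (nat_lit 57931) (nat_lit 282) (.e (nat_lit 163874) (nat_lit 3) (.e (nat_lit 204855) (nat_lit 26) (.e (nat_lit 336212) (nat_lit 13) .nil)))))) (.g (nat_lit 1) (.e (nat_lit 388572) (nat_lit 0) .nil) .nil))))) (.nd (nat_lit 8) (.nd (nat_lit 9) 
(.lf (nat_lit 584912) (.g (nat_lit 1618) (.e (nat_lit 385068) (nat_lit 26) (.e (nat_lit 532501) (nat_lit 1) (.e (nat_lit 57829) (nat_lit 250) (.e (nat_lit 1201) (nat_lit 88) (.e (nat_lit 65639) (nat_lit 15) .nil))))) (.g (nat_lit 0) (.e (nat_lit 387041) (nat_lit 0) .nil) .nil))) 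
(.lf (nat_lit 585424) (.g (nat_lit 705) (.e (nat_lit 385102) (nat_lit 50) (.e (nat_lit 786480) (nat_lit 29) (.e (nat_lit 352316) (nat_lit 24) .nil))) (.g (nat_lit 0) (.e (nat_lit 388024) (nat_lit 0) .nil) .nil)))) (.nd (nat_lit 9) 
(.lf (nat_lit 585168) (.g (nat_lit 1719) (.e (nat_lit 385073) (nat_lit 31) (.e (nat_lit 573493) (nat_lit 15) (.e (nat_lit 81951) (nat_lit 22) (.e (nat_lit 90165) (nat_lit 12) .nil)))) (.g (nat_lit 0) (.e (nat_lit 387462) (nat_lit 0) .nil) .nil))) 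
(.lf (nat_lit 585680) (.g (nat_lit 754) (.e (nat_lit 393251) (nat_lit 18) (.e (nat_lit 164327) (nat_lit 230) (.e (nat_lit 163870) (nat_lit 2) .nil))) (.g (nat_lit 0) (.e (nat_lit 388772) (nat_lit 0) .nil) .nil))))))) (.nd (nat_lit 6) (.nd (nat_lit 7) (.nd (nat_lit 8) (.nd (nat_lit 9) 
(.lf (nat_lit 584752) (.g (nat_lit 1288) (.e (nat_lit 385066) (nat_lit 26) (.e (nat_lit 532499) (nat_lit 1) (.e (nat_lit 57827) (nat_lit 250) .nil))) (.g (nat_lit 0) (.e (nat_lit 386802) (nat_lit 0) .nil) .nil))) 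
(.lf (nat_lit 585264) (.g (nat_lit 1178) (.e (nat_lit 385074) (nat_lit 31) (.e (nat_lit 573484) (nat_lit 13) (.e (nat_lit 65628) (nat_lit 14) (.e (nat_lit 401412) (nat_lit 0) .nil)))) (.g (nat_lit 0) (.e (nat_lit 387612) (nat_lit 0) .nil) .nil)))) (.nd (nat_lit 9) 
(.lf (nat_lit 585008) (.g (nat_lit 2254) (.e (nat_lit 385068) (nat_lit 26) (.e (nat_lit 532560) (nat_lit 14) (.e (nat_lit 376859) (nat_lit 21) (.e (nat_lit 57685) (nat_lit 156) (.e (nat_lit 163886) (nat_lit 5) (.e (nat_lit 229120) (nat_lit 17) .nil)))))) (.g (nat_lit 1) (.e (nat_lit 387171) (nat_lit 0) .nil) .nil))) 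
(.lf (nat_lit 585520) (.g (nat_lit 1495) (.e (nat_lit 393228) (nat_lit 9) (.e (nat_lit 335988) (nat_lit 1) (.e (nat_lit 57927) (nat_lit 282) (.e (nat_lit 163866) (nat_lit 2) .nil)))) (.g (nat_lit 0) (.e (nat_lit 388516) (nat_lit 0) .nil) .nil))))) (.nd (nat_lit 8) (.nd (nat_lit 9) 
(.lf (nat_lit 584880) (.g (nat_lit 1966) (.e (nat_lit 385066) (nat_lit 26) (.e (nat_lit 532565) (nat_lit 15) (.e (nat_lit 385067) (nat_lit 26) (.e (nat_lit 532530) (nat_lit 9) (.e (nat_lit 336325) (nat_lit 18) (.e (nat_lit 204880) (nat_lit 32) .nil)))))) (.g (nat_lit 1) (.e (nat_lit 386973) (nat_lit 0) .nil) .nil))) 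
(.lf (nat_lit 585392) (.g (nat_lit 2407) (.e (nat_lit 385094) (nat_lit 49) (.e (nat_lit 778317) (nat_lit 3) (.e (nat_lit 57477) (nat_lit 28) (.e (nat_lit 557067) (nat_lit 9) (.e (nat_lit 3022) (nat_lit 187) (.e (nat_lit 450578) (nat_lit 5) (.e (nat_lit 532566) (nat_lit 15) .nil))))))) (.g (nat_lit 1) (.e (nat_lit 387955) (nat_lit 0) .nil) .nil)))) (.nd (nat_lit 9) 
(.lf (nat_lit 585136) (.g (nat_lit 2832) (.e (nat_lit 385073) (nat_lit 31) (.e (nat_lit 573482) (nat_lit 13) (.e (nat_lit 65630) (nat_lit 14) (.e (nat_lit 401425) (nat_lit 2) (.e (nat_lit 196681) (nat_lit 17) .nil))))) (.g (nat_lit 0) (.e (nat_lit 387382) (nat_lit 0) .nil) .nil))) 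
(.lf (nat_lit 585648) (.g (nat_lit 3525) (.e (nat_lit 393251) (nat_lit 18) (.e (nat_lit 164325) (nat_lit 230) (.e (nat_lit 163873) (nat_lit 3) (.e (nat_lit 204813) (nat_lit 9) (.e (nat_lit 426196) (nat_lit 9) .nil))))) (.g (nat_lit 0) (.e (nat_lit 388740) (nat_lit 0) .nil) .nil)))))) (.nd (nat_lit 7) (.nd (nat_lit 8) (.nd (nat_lit 9) 
(.lf (nat_lit 584816) (.g (nat_lit 1891) (.e (nat_lit 385066) (nat_lit 26) (.e (nat_lit 532530) (nat_lit 9) (.e (nat_lit 336326) (nat_lit 18) (.e (nat_lit 204880) (nat_lit 32) (.e (nat_lit 385065) (nat_lit 26) .nil))))) (.g (nat_lit 0) (.e (nat_lit 386895) (nat_lit 0) .nil) .nil))) 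
(.lf (nat_lit 585328) (.g (nat_lit 3755) (.e (nat_lit 385074) (nat_lit 31) (.e (nat_lit 573493) (nat_lit 15) (.e (nat_lit 81953) (nat_lit 22) (.e (nat_lit 90130) (nat_lit 9) .nil)))) (.g (nat_lit 0) (.e (nat_lit 387716) (nat_lit 0) .nil) .nil)))) (.nd (nat_lit 9) 
(.lf (nat_lit 585072) (.g (nat_lit 2251) (.e (nat_lit 385072) (nat_lit 31) (.e (nat_lit 573485) (nat_lit 13) (.e (nat_lit 65619) (nat_lit 10) (.e (nat_lit 344129) (nat_lit 26) (.e (nat_lit 557087) (nat_lit 11) (.e (nat_lit 24647) (nat_lit 12) .nil)))))) (.g (nat_lit 1) (.e (nat_lit 387282) (nat_lit 0) .nil) .nil))) 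
(.lf (nat_lit 585584) (.g (nat_lit 1666) (.e (nat_lit 393250) (nat_lit 18) (.e (nat_lit 164327) (nat_lit 230) (.e (nat_lit 163873) (nat_lit 3) (.e (nat_lit 204809) (nat_lit 9) .nil)))) (.g (nat_lit 0) (.e (nat_lit 388653) (nat_lit 0) .nil) .nil))))) (.nd (nat_lit 8) (.nd (nat_lit 9) 
(.lf (nat_lit 584944) (.g (nat_lit 2399) (.e (nat_lit 385068) (nat_lit 26) (.e (nat_lit 532513) (nat_lit 3) (.e (nat_lit 114697) (nat_lit 11) (.e (nat_lit 426114) (nat_lit 2) (.e (nat_lit 196681) (nat_lit 17) (.e (nat_lit 131120) (nat_lit 12) .nil)))))) (.g (nat_lit 1) (.e (nat_lit 387093) (nat_lit 0) .nil) .nil))) 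
(.lf (nat_lit 585456) (.g (nat_lit 154) (.e (nat_lit 385106) (nat_lit 50) (.e (nat_lit 786477) (nat_lit 28) (.e (nat_lit 352000) (nat_lit 7) .nil))) (.g (nat_lit 0) (.e (nat_lit 388106) (nat_lit 0) .nil) .nil)))) (.nd (nat_lit 9) 
(.lf (nat_lit 585200) (.g (nat_lit 1803) (.e (nat_lit 385073) (nat_lit 31) (.e (nat_lit 573493) (nat_lit 15) (.e (nat_lit 81959) (nat_lit 24) (.e (nat_lit 123040) (nat_lit 140) .nil)))) (.g (nat_lit 0) (.e (nat_lit 387498) (nat_lit 0) .nil) .nil))) 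
(.lf (nat_lit 585712) (.g (nat_lit 1722) (.e (nat_lit 393251) (nat_lit 18) (.e (nat_lit 164327) (nat_lit 230) (.e (nat_lit 163875) (nat_lit 3) (.e (nat_lit 204813) (nat_lit 9) (.e (nat_lit 426197) (nat_lit 9) .nil))))) (.g (nat_lit 0) (.e (nat_lit 388804) (nat_lit 0) .nil) .nil))))))))) (.nd (nat_lit 4) (.nd (nat_lit 5) (.nd (nat_lit 6) (.nd (nat_lit 7) (.nd (nat_lit 8) (.nd (nat_lit 9) 
(.lf (nat_lit 584712) (.g (nat_lit 2648) (.e (nat_lit 385065) (nat_lit 26) (.e (nat_lit 532499) (nat_lit 1) (.e (nat_lit 57847) (nat_lit 252) (.e (nat_lit 57406) (nat_lit 12) .nil)))) (.g (nat_lit 0) (.e (nat_lit 386716) (nat_lit 0) .nil) .nil))) 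
(.lf (nat_lit 585224) (.g (nat_lit 1685) (.e (nat_lit 385074) (nat_lit 31) (.e (nat_lit 573482) (nat_lit 13) (.e (nat_lit 65628) (nat_lit 14) (.e (nat_lit 401428) (nat_lit 3) (.e (nat_lit 204858) (nat_lit 26) .nil))))) (.g (nat_lit 0) (.e (nat_lit 387534) (nat_lit 0) .nil) .nil)))) (.nd (nat_lit 9) 
(.lf (nat_lit 584968) (.g (nat_lit 2485) (.e (nat_lit 385068) (nat_lit 26) (.e (nat_lit 532515) (nat_lit 3) (.e (nat_lit 114697) (nat_lit 11) (.e (nat_lit 426123) (nat_lit 2) (.e (nat_lit 196681) (nat_lit 17) (.e (nat_lit 131123) (nat_lit 12) .nil)))))) (.g (nat_lit 1) (.e (nat_lit 387126) (nat_lit 0) .nil) .nil))) 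
(.lf (nat_lit 585480) (.g (nat_lit 415) (.e (nat_lit 401152) (nat_lit 3) (.e (nat_lit 114714) (nat_lit 22) (.e (nat_lit 98048) (nat_lit 21) .nil))) (.g (nat_lit 0) (.e (nat_lit 388403) (nat_lit 0) .nil) .nil))))) (.nd (nat_lit 8) (.nd (nat_lit 9) 
(.lf (nat_lit 584840) (.g (nat_lit 953) (.e (nat_lit 385066) (nat_lit 26) (.e (nat_lit 532534) (nat_lit 9) (.e (nat_lit 336324) (nat_lit 18) (.e (nat_lit 204854) (nat_lit 26) .nil)))) (.g (nat_lit 0) (.e (nat_lit 386925) (nat_lit 0) .nil) .nil))) 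
(.lf (nat_lit 585352) (.g (nat_lit 2185) (.e (nat_lit 385074) (nat_lit 31) (.e (nat_lit 573493) (nat_lit 15) (.e (nat_lit 81956) (nat_lit 23) (.e (nat_lit 98334) (nat_lit 18) .nil)))) (.g (nat_lit 0) (.e (nat_lit 387743) (nat_lit 0) .nil) .nil)))) (.nd (nat_lit 9) 
(.lf (nat_lit 585096) (.g (nat_lit 2321) (.e (nat_lit 385072) (nat_lit 31) (.e (nat_lit 573492) (nat_lit 15) (.e (nat_lit 81956) (nat_lit 23) (.e (nat_lit 98321) (nat_lit 17) .nil)))) (.g (nat_lit 0) (.e (nat_lit 387326) (nat_lit 0) .nil) .nil))) 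
(.lf (nat_lit 585608) (.g (nat_lit 2178) (.e (nat_lit 393251) (nat_lit 18) (.e (nat_lit 164177) (nat_lit 154) (.e (nat_lit 57411) (nat_lit 12) (.e (nat_lit 336316) (nat_lit 17) (.e (nat_lit 196681) (nat_lit 17) .nil))))) (.g (nat_lit 0) (.e (nat_lit 388683) (nat_lit 0) .nil) .nil)))))) (.nd (nat_lit 7) (.nd (nat_lit 8) (.nd (nat_lit 9) 
(.lf (nat_lit 584776) (.g (nat_lit 2707) (.e (nat_lit 385066) (nat_lit 26) (.e (nat_lit 532513) (nat_lit 3) (.e (nat_lit 114697) (nat_lit 11) (.e (nat_lit 426123) (nat_lit 2) (.e (nat_lit 196681) (nat_lit 17) (.e (nat_lit 131120) (nat_lit 12) .nil)))))) (.g (nat_lit 1) (.e (nat_lit 386853) (nat_lit 0) .nil) .nil))) 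
(.lf (nat_lit 585288) (.g (nat_lit 3593) (.e (nat_lit 385074) (nat_lit 31) (.e (nat_lit 573485) (nat_lit 13) (.e (nat_lit 65630) (nat_lit 14) (.e (nat_lit 401425) (nat_lit 2) (.e (nat_lit 196681) (nat_lit 17) (.e (nat_lit 131123) (nat_lit 12) .nil)))))) (.g (nat_lit 1) (.e (nat_lit 387654) (nat_lit 0) .nil) .nil)))) (.nd (nat_lit 9) 
(.lf (nat_lit 585032) (.g (nat_lit 2024) (.e (nat_lit 392960) (nat_lit 24) (.e (nat_lit 516160) (nat_lit 10) (.e (nat_lit 434244) (nat_lit 28) (.e (nat_lit 573481) (nat_lit 13) (.e (nat_lit 65567) (nat_lit 2) .nil))))) (.g (nat_lit 0) (.e (nat_lit 387225) (nat_lit 0) .nil) .nil))) 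
(.lf (nat_lit 585544) (.g (nat_lit 2891) (.e (nat_lit 393229) (nat_lit 9) (.e (nat_lit 335994) (nat_lit 1) (.e (nat_lit 57931) (nat_lit 282) (.e (nat_lit 163869) (nat_lit 2) (.e (nat_lit 196681) (nat_lit 17) (.e (nat_lit 131125) (nat_lit 13) .nil)))))) (.g (nat_lit 1) (.e (nat_lit 388561) (nat_lit 0) .nil) .nil))))) (.nd (nat_lit 8) (.nd (nat_lit 9) 
(.lf (nat_lit 584904) (.g (nat_lit 843) (.e (nat_lit 385067) (nat_lit 26) (.e (nat_lit 532560) (nat_lit 14) (.e (nat_lit 376859) (nat_lit 21) .nil))) (.g (nat_lit 0) (.e (nat_lit 387025) (nat_lit 0) .nil) .nil))) 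
(.lf (nat_lit 585416) (.g (nat_lit 3126) (.e (nat_lit 385094) (nat_lit 49) (.e (nat_lit 778324) (nat_lit 5) (.e (nat_lit 73781) (nat_lit 32) (.e (nat_lit 2856) (nat_lit 184) (.e (nat_lit 426482) (nat_lit 27) (.e (nat_lit 336205) (nat_lit 12) .nil)))))) (.g (nat_lit 1) (.e (nat_lit 387994) (nat_lit 0) .nil) .nil)))) (.nd (nat_lit 9) 
(.lf (nat_lit 585160) (.g (nat_lit 1208) (.e (nat_lit 385073) (nat_lit 31) (.e (nat_lit 573493) (nat_lit 15) (.e (nat_lit 81941) (nat_lit 20) .nil))) (.g (nat_lit 0) (.e (nat_lit 387446) (nat_lit 0) .nil) .nil))) 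
(.lf (nat_lit 585672) (.g (nat_lit 2107) (.e (nat_lit 393251) (nat_lit 18) (.e (nat_lit 164327) (nat_lit 230) (.e (nat_lit 163868) (nat_lit 2) (.e (nat_lit 196652) (nat_lit 11) (.e (nat_lit 16435) (nat_lit 9) .nil))))) (.g (nat_lit 0) (.e (nat_lit 388764) (nat_lit 0) .nil) .nil))))))) (.nd (nat_lit 6) (.nd (nat_lit 7) (.nd (nat_lit 8) (.nd (nat_lit 9) 
(.lf (nat_lit 584744) (.g (nat_lit 1411) (.e (nat_lit 385065) (nat_lit 26) (.e (nat_lit 532560) (nat_lit 14) (.e (nat_lit 376842) (nat_lit 11) (.e (nat_lit 426100) (nat_lit 1) .nil)))) (.g (nat_lit 0) (.e (nat_lit 386786) (nat_lit 0) .nil) .nil))) 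
(.lf (nat_lit 585256) (.g (nat_lit 888) (.e (nat_lit 385074) (nat_lit 31) (.e (nat_lit 573484) (nat_lit 13) (.e (nat_lit 65617) (nat_lit 10) (.e (nat_lit 344132) (nat_lit 26) .nil)))) (.g (nat_lit 0) (.e (nat_lit 387593) (nat_lit 0) .nil) .nil)))) (.nd (nat_lit 9) 
(.lf (nat_lit 585000) (.g (nat_lit 1036) (.e (nat_lit 385068) (nat_lit 26) (.e (nat_lit 532535) (nat_lit 9) (.e (nat_lit 343808) (nat_lit 18) .nil))) (.g (nat_lit 0) (.e (nat_lit 387163) (nat_lit 0) .nil) .nil))) 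
(.lf (nat_lit 585512) (.g (nat_lit 2912) (.e (nat_lit 393225) (nat_lit 9) (.e (nat_lit 335995) (nat_lit 1) (.e (nat_lit 57930) (nat_lit 282) (.e (nat_lit 163869) (nat_lit 2) (.e (nat_lit 196681) (nat_lit 17) (.e (nat_lit 131128) (nat_lit 13) .nil)))))) (.g (nat_lit 1) (.e (nat_lit 388498) (nat_lit 0) .nil) .nil))))) (.nd (nat_lit 8) (.nd (nat_lit 9) 
(.lf (nat_lit 584872) (.g (nat_lit 2357) (.e (nat_lit 385066) (nat_lit 26) (.e (nat_lit 532563) (nat_lit 15) (.e (nat_lit 385066) (nat_lit 26) (.e (nat_lit 532534) (nat_lit 9) (.e (nat_lit 343808) (nat_lit 18) (.e (nat_lit 204882) (nat_lit 32) .nil)))))) (.g (nat_lit 1) (.e (nat_lit 386963) (nat_lit 0) .nil) .nil))) 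
(.lf (nat_lit 585384) (.g (nat_lit 2869) (.e (nat_lit 385093) (nat_lit 49) (.e (nat_lit 778323) (nat_lit 5) (.e (nat_lit 73781) (nat_lit 32) (.e (nat_lit 3090) (nat_lit 191) (.e (nat_lit 483402) (nat_lit 26) .nil))))) (.g (nat_lit 1) (.e (nat_lit 387943) (nat_lit 0) .nil) .nil)))) (.nd (nat_lit 9) 
(.lf (nat_lit 585128) (.g (nat_lit 3125) (.e (nat_lit 385073) (nat_lit 31) (.e (nat_lit 573482) (nat_lit 13) (.e (nat_lit 65619) (nat_lit 10) (.e (nat_lit 344129) (nat_lit 26) (.e (nat_lit 557085) (nat_lit 11) (.e (nat_lit 24650) (nat_lit 12) .nil)))))) (.g (nat_lit 1) (.e (nat_lit 387373) (nat_lit 0) .nil) .nil))) 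
(.lf (nat_lit 585640) (.g (nat_lit 2408) (.e (nat_lit 393251) (nat_lit 18) (.e (nat_lit 164325) (nat_lit 230) (.e (nat_lit 163871) (nat_lit 2) (.e (nat_lit 196624) (nat_lit 9) (.e (nat_lit 479) (nat_lit 37) (.e (nat_lit 474880) (nat_lit 18) .nil)))))) (.g (nat_lit 1) (.e (nat_lit 388732) (nat_lit 0) .nil) .nil)))))) (.nd (nat_lit 7) (.nd (nat_lit 8) (.nd (nat_lit 9) 
(.lf (nat_lit 584808) (.g (nat_lit 2695) (.e (nat_lit 385066) (nat_lit 26) (.e (nat_lit 532530) (nat_lit 9) (.e (nat_lit 336326) (nat_lit 18) (.e (nat_lit 204854) (nat_lit 26) (.e (nat_lit 336265) (nat_lit 15) (.e (nat_lit 3234) (nat_lit 197) (.e (nat_lit 532563) (nat_lit 15) .nil))))))) (.g (nat_lit 1) (.e (nat_lit 386887) (nat_lit 0) .nil) .nil))) 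
(.lf (nat_lit 585320) (.g (nat_lit 1214) (.e (nat_lit 385074) (nat_lit 31) (.e (nat_lit 573493) (nat_lit 15) (.e (nat_lit 81947) (nat_lit 20) (.e (nat_lit 1840) (nat_lit 123) .nil)))) (.g (nat_lit 0) (.e (nat_lit 387706) (nat_lit 0) .nil) .nil)))) (.nd (nat_lit 9) 
(.lf (nat_lit 585064) (.g (nat_lit 3548) (.e (nat_lit 385072) (nat_lit 31) (.e (nat_lit 573484) (nat_lit 13) (.e (nat_lit 65610) (nat_lit 10) (.e (nat_lit 344129) (nat_lit 26) (.e (nat_lit 557085) (nat_lit 11) (.e (nat_lit 24653) (nat_lit 12) .nil)))))) (.g (nat_lit 1) (.e (nat_lit 387272) (nat_lit 0) .nil) .nil))) 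
(.lf (nat_lit 585576) (.g (nat_lit 912) (.e (nat_lit 401152) (nat_lit 17) (.e (nat_lit 7537) (nat_lit 402) (.e (nat_lit 1428) (nat_lit 108) (.e (nat_lit 336395) (nat_lit 27) .nil)))) (.g (nat_lit 0) (.e (nat_lit 388644) (nat_lit 0) .nil) .nil))))) (.nd (nat_lit 8) (.nd (nat_lit 9) 
(.lf (nat_lit 584936) (.g (nat_lit 2404) (.e (nat_lit 385068) (nat_lit 26) (.e (nat_lit 532504) (nat_lit 1) (.e (nat_lit 57852) (nat_lit 252) (.e (nat_lit 57409) (nat_lit 12) (.e (nat_lit 343808) (nat_lit 34) .nil))))) (.g (nat_lit 0) (.e (nat_lit 387081) (nat_lit 0) .nil) .nil))) 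
(.lf (nat_lit 585448) (.g (nat_lit 406) (.e (nat_lit 385104) (nat_lit 50) (.e (nat_lit 786483) (nat_lit 30) (.e (nat_lit 360457) (nat_lit 0) .nil))) (.g (nat_lit 0) (.e (nat_lit 388086) (nat_lit 0) .nil) .nil)))) (.nd (nat_lit 9) 
(.lf (nat_lit 585192) (.g (nat_lit 1920) (.e (nat_lit 385073) (nat_lit 31) (.e (nat_lit 573493) (nat_lit 15) (.e (nat_lit 81954) (nat_lit 23) (.e (nat_lit 98325) (nat_lit 17) .nil)))) (.g (nat_lit 0) (.e (nat_lit 387487) (nat_lit 0) .nil) .nil))) 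
(.lf (nat_lit 585704) (.g (nat_lit 3706) (.e (nat_lit 393251) (nat_lit 18) (.e (nat_lit 164327) (nat_lit 230) (.e (nat_lit 163873) (nat_lit 3) (.e (nat_lit 204813) (nat_lit 9) (.e (nat_lit 426199) (nat_lit 9) (.e (nat_lit 426564) (nat_lit 34) .nil)))))) (.g (nat_lit 1) (.e (nat_lit 388796) (nat_lit 0) .nil) .nil)))))))) 
(.nd (nat_lit 5) (.nd (nat_lit 6) (.nd (nat_lit 7) (.nd (nat_lit 8) (.nd (nat_lit 9) 
(.lf (nat_lit 584728) (.g (nat_lit 1606) (.e (nat_lit 385065) (nat_lit 26) (.e (nat_lit 532532) (nat_lit 9) (.e (nat_lit 336324) (nat_lit 18) (.e (nat_lit 204852) (nat_lit 26) (.e (nat_lit 336324) (nat_lit 18) .nil))))) (.g (nat_lit 0) (.e (nat_lit 386767) (nat_lit 0) .nil) .nil))) 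
(.lf (nat_lit 585240) (.g (nat_lit 2260) (.e (nat_lit 385074) (nat_lit 31) (.e (nat_lit 573484) (nat_lit 13) (.e (nat_lit 65610) (nat_lit 10) (.e (nat_lit 344129) (nat_lit 26) (.e (nat_lit 557065) (nat_lit 9) .nil))))) (.g (nat_lit 0) (.e (nat_lit 387563) (nat_lit 0) .nil) .nil)))) (.nd (nat_lit 9) 
(.lf (nat_lit 584984) (.g (nat_lit 2889) (.e (nat_lit 385068) (nat_lit 26) (.e (nat_lit 532530) (nat_lit 9) (.e (nat_lit 336326) (nat_lit 18) (.e (nat_lit 204880) (nat_lit 32) (.e (nat_lit 385066) (nat_lit 26) (.e (nat_lit 532566) (nat_lit 15) .nil)))))) (.g (nat_lit 1) (.e (nat_lit 387145) (nat_lit 0) .nil) .nil))) 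
(.lf (nat_lit 585496) (.g (nat_lit 2744) (.e (nat_lit 393225) (nat_lit 9) (.e (nat_lit 335986) (nat_lit 1) (.e (nat_lit 57926) (nat_lit 282) (.e (nat_lit 163875) (nat_lit 3) (.e (nat_lit 204850) (nat_lit 26) (.e (nat_lit 336224) (nat_lit 13) .nil)))))) (.g (nat_lit 1) (.e (nat_lit 388456) (nat_lit 0) .nil) .nil))))) (.nd (nat_lit 8) (.nd (nat_lit 9) 
(.lf (nat_lit 584856) (.g (nat_lit 1386) (.e (nat_lit 385066) (nat_lit 26) (.e (nat_lit 532535) (nat_lit 9) (.e (nat_lit 336295) (nat_lit 15) .nil))) (.g (nat_lit 0) (.e (nat_lit 386942) (nat_lit 0) .nil) .nil))) 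
(.lf (nat_lit 585368) (.g (nat_lit 1758) (.e (nat_lit 385092) (nat_lit 49) (.e (nat_lit 778323) (nat_lit 5) (.e (nat_lit 73781) (nat_lit 32) (.e (nat_lit 3088) (nat_lit 191) (.e (nat_lit 483402) (nat_lit 26) .nil))))) (.g (nat_lit 1) (.e (nat_lit 387914) (nat_lit 0) .nil) .nil)))) (.nd (nat_lit 9) 
(.lf (nat_lit 585112) (.g (nat_lit 4771) (.e (nat_lit 385072) (nat_lit 31) (.e (nat_lit 573493) (nat_lit 15) (.e (nat_lit 81953) (nat_lit 22) (.e (nat_lit 90146) (nat_lit 9) .nil)))) (.g (nat_lit 0) (.e (nat_lit 387348) (nat_lit 0) .nil) .nil))) 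
(.lf (nat_lit 585624) (.g (nat_lit 2628) (.e (nat_lit 393251) (nat_lit 18) (.e (nat_lit 164325) (nat_lit 230) (.e (nat_lit 163868) (nat_lit 2) (.e (nat_lit 196624) (nat_lit 9) (.e (nat_lit 479) (nat_lit 37) (.e (nat_lit 474880) (nat_lit 18) .nil)))))) (.g (nat_lit 1) (.e (nat_lit 388716) (nat_lit 0) .nil) .nil)))))) (.nd (nat_lit 7) (.nd (nat_lit 8) (.nd (nat_lit 9) 
(.lf (nat_lit 584792) (.g (nat_lit 3221) (.e (nat_lit 385066) (nat_lit 26) (.e (nat_lit 532515) (nat_lit 3) (.e (nat_lit 114698) (nat_lit 11) (.e (nat_lit 426122) (nat_lit 2) (.e (nat_lit 196666) (nat_lit 13) (.e (nat_lit 65624) (nat_lit 12) .nil)))))) (.g (nat_lit 1) (.e (nat_lit 386870) (nat_lit 0) .nil) .nil))) 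
(.lf (nat_lit 585304) (.g (nat_lit 433) (.e (nat_lit 385074) (nat_lit 31) (.e (nat_lit 573491) (nat_lit 15) (.e (nat_lit 81951) (nat_lit 22) .nil))) (.g (nat_lit 0) (.e (nat_lit 387689) (nat_lit 0) .nil) .nil)))) (.nd (nat_lit 9) 
(.lf (nat_lit 585048) (.g (nat_lit 470) (.e (nat_lit 385072) (nat_lit 31) (.e (nat_lit 573481) (nat_lit 13) (.e (nat_lit 65628) (nat_lit 14) .nil))) (.g (nat_lit 0) (.e (nat_lit 387254) (nat_lit 0) .nil) .nil))) 
(.lf (nat_lit 585560) (.g (nat_lit 2393) (.e (nat_lit 393232) (nat_lit 17) (.e (nat_lit 7591) (nat_lit 407) (.e (nat_lit 73773) (nat_lit 25) (.e (nat_lit 770072) (nat_lit 8) (.e (nat_lit 65625) (nat_lit 13) .nil))))) (.g (nat_lit 1) (.e (nat_lit 388613) (nat_lit 0) .nil) .nil))))) (.nd (nat_lit 8) (.nd (nat_lit 9) 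
(.lf (nat_lit 584920) (.g (nat_lit 2725) (.e (nat_lit 385068) (nat_lit 26) (.e (nat_lit 532503) (nat_lit 1) (.e (nat_lit 57847) (nat_lit 252) (.e (nat_lit 57440) (nat_lit 18) (.e (nat_lit 392960) (nat_lit 10) (.e (nat_lit 24650) (nat_lit 12) .nil)))))) (.g (nat_lit 1) (.e (nat_lit 387056) (nat_lit 0) .nil) .nil))) 
(.lf (nat_lit 585432) (.g (nat_lit 1140) (.e (nat_lit 385102) (nat_lit 50) (.e (nat_lit 786483) (nat_lit 30) (.e (nat_lit 360451) (nat_lit 0) (.e (nat_lit 4764) (nat_lit 281) .nil)))) (.g (nat_lit 0) (.e (nat_lit 388042) (nat_lit 0) .nil) .nil)))) (.nd (nat_lit 9) 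
(.lf (nat_lit 585176) (.g (nat_lit 5064) (.e (nat_lit 385073) (nat_lit 31) (.e (nat_lit 573493) (nat_lit 15) (.e (nat_lit 81953) (nat_lit 22) (.e (nat_lit 90130) (nat_lit 9) (.e (nat_lit 3097) (nat_lit 192) .nil))))) (.g (nat_lit 0) (.e (nat_lit 387470) (nat_lit 0) .nil) .nil))) 
(.lf (nat_lit 585688) (.g (nat_lit 1460) (.e (nat_lit 393251) (nat_lit 18) (.e (nat_lit 164327) (nat_lit 230) (.e (nat_lit 163873) (nat_lit 3) (.e (nat_lit 204808) (nat_lit 9) .nil)))) (.g (nat_lit 0) (.e (nat_lit 388780) (nat_lit 0) .nil) .nil))))))) (.nd (nat_lit 6) (.nd (nat_lit 7) (.nd (nat_lit 8) (.nd (nat_lit 9) 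
(.lf (nat_lit 584760) (.g (nat_lit 1924) (.e (nat_lit 385066) (nat_lit 26) (.e (nat_lit 532501) (nat_lit 1) (.e (nat_lit 57852) (nat_lit 252) (.e (nat_lit 57409) (nat_lit 12) (.e (nat_lit 343808) (nat_lit 34) .nil))))) (.g (nat_lit 0) (.e (nat_lit 386817) (nat_lit 0) .nil) .nil))) 
(.lf (nat_lit 585272) (.g (nat_lit 5093) (.e (nat_lit 385074) (nat_lit 31) (.e (nat_lit 573485) (nat_lit 13) (.e (nat_lit 65604) (nat_lit 9) (.e (nat_lit 336013) (nat_lit 2) (.e (nat_lit 90134) (nat_lit 9) (.e (nat_lit 3098) (nat_lit 192) (.e (nat_lit 491564) (nat_lit 12) .nil))))))) (.g (nat_lit 1) (.e (nat_lit 387636) (nat_lit 0) .nil) .nil)))) (.nd (nat_lit 9) 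
(.lf (nat_lit 585016) (.g (nat_lit 2500) (.e (nat_lit 385068) (nat_lit 26) (.e (nat_lit 532560) (nat_lit 14) (.e (nat_lit 376860) (nat_lit 21) (.e (nat_lit 57685) (nat_lit 156) (.e (nat_lit 163884) (nat_lit 5) (.e (nat_lit 229120) (nat_lit 17) .nil)))))) (.g (nat_lit 1) (.e (nat_lit 387179) (nat_lit 0) .nil) .nil))) 
(.lf (nat_lit 585528) (.g (nat_lit 2426) (.e (nat_lit 393229) (nat_lit 9) (.e (nat_lit 335986) (nat_lit 1) (.e (nat_lit 57927) (nat_lit 282) (.e (nat_lit 163869) (nat_lit 2) (.e (nat_lit 196681) (nat_lit 17) (.e (nat_lit 131124) (nat_lit 13) .nil)))))) (.g (nat_lit 1) (.e (nat_lit 388532) (nat_lit 0) .nil) .nil))))) (.nd (nat_lit 8) (.nd (nat_lit 9) 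
(.lf (nat_lit 584888) (.g (nat_lit 1841) (.e (nat_lit 385067) (nat_lit 26) (.e (nat_lit 532504) (nat_lit 1) (.e (nat_lit 57851) (nat_lit 252) (.e (nat_lit 57406) (nat_lit 12) (.e (nat_lit 336377) (nat_lit 27) .nil))))) (.g (nat_lit 0) (.e (nat_lit 386989) (nat_lit 0) .nil) .nil))) 
(.lf (nat_lit 585400) (.g (nat_lit 2500) (.e (nat_lit 385094) (nat_lit 49) (.e (nat_lit 778318) (nat_lit 3) (.e (nat_lit 57476) (nat_lit 28) (.e (nat_lit 557107) (nat_lit 15) (.e (nat_lit 188440) (nat_lit 20) (.e (nat_lit 3255) (nat_lit 197) (.e (nat_lit 532566) (nat_lit 15) .nil))))))) (.g (nat_lit 1) (.e (nat_lit 387977) (nat_lit 0) .nil) .nil)))) (.nd (nat_lit 9) 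
(.lf (nat_lit 585144) (.g (nat_lit 3482) (.e (nat_lit 385073) (nat_lit 31) (.e (nat_lit 573485) (nat_lit 13) (.e (nat_lit 65619) (nat_lit 10) (.e (nat_lit 344129) (nat_lit 26) (.e (nat_lit 557085) (nat_lit 11) (.e (nat_lit 24653) (nat_lit 12) .nil)))))) (.g (nat_lit 1) (.e (nat_lit 387398) (nat_lit 0) .nil) .nil))) 
(.lf (nat_lit 585656) (.g (nat_lit 1868) (.e (nat_lit 393251) (nat_lit 18) (.e (nat_lit 164325) (nat_lit 230) (.e (nat_lit 163874) (nat_lit 3) (.e (nat_lit 204809) (nat_lit 9) .nil)))) (.g (nat_lit 0) (.e (nat_lit 388748) (nat_lit 0) .nil) .nil)))))) (.nd (nat_lit 7) (.nd (nat_lit 8) (.nd (nat_lit 9) 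
(.lf (nat_lit 584824) (.g (nat_lit 1832) (.e (nat_lit 385066) (nat_lit 26) (.e (nat_lit 532532) (nat_lit 9) (.e (nat_lit 336326) (nat_lit 18) (.e (nat_lit 204854) (nat_lit 26) (.e (nat_lit 336322) (nat_lit 18) .nil))))) (.g (nat_lit 0) (.e (nat_lit 386904) (nat_lit 0) .nil) .nil))) 
(.lf (nat_lit 585336) (.g (nat_lit 5153) (.e (nat_lit 385074) (nat_lit 31) (.e (nat_lit 573493) (nat_lit 15) (.e (nat_lit 81953) (nat_lit 22) (.e (nat_lit 90145) (nat_lit 9) .nil)))) (.g (nat_lit 0) (.e (nat_lit 387725) (nat_lit 0) .nil) .nil)))) (.nd (nat_lit 9) 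
(.lf (nat_lit 585080) (.g (nat_lit 3872) (.e (nat_lit 385072) (nat_lit 31) (.e (nat_lit 573492) (nat_lit 15) (.e (nat_lit 81953) (nat_lit 22) (.e (nat_lit 90124) (nat_lit 9) .nil)))) (.g (nat_lit 0) (.e (nat_lit 387307) (nat_lit 0) .nil) .nil))) 
(.lf (nat_lit 585592) (.g (nat_lit 545) (.e (nat_lit 393250) (nat_lit 18) (.e (nat_lit 164331) (nat_lit 230) (.e (nat_lit 163873) (nat_lit 3) .nil))) (.g (nat_lit 0) (.e (nat_lit 388661) (nat_lit 0) .nil) .nil))))) (.nd (nat_lit 8) (.nd (nat_lit 9) 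
(.lf (nat_lit 584952) (.g (nat_lit 3405) (.e (nat_lit 385068) (nat_lit 26) (.e (nat_lit 532513) (nat_lit 3) (.e (nat_lit 114697) (nat_lit 11) (.e (nat_lit 426133) (nat_lit 3) (.e (nat_lit 204861) (nat_lit 26) (.e (nat_lit 336194) (nat_lit 12) .nil)))))) (.g (nat_lit 1) (.e (nat_lit 387102) (nat_lit 0) .nil) .nil))) 
(.lf (nat_lit 585464) (.g (nat_lit 3134) (.e (nat_lit 385107) (nat_lit 51) (.e (nat_lit 794665) (nat_lit 22) (.e (nat_lit 196654) (nat_lit 11) (.e (nat_lit 16436) (nat_lit 9) (.e (nat_lit 426131) (nat_lit 3) (.e (nat_lit 204880) (nat_lit 32) .nil)))))) (.g (nat_lit 1) (.e (nat_lit 388162) (nat_lit 0) .nil) .nil)))) (.nd (nat_lit 9) 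
(.lf (nat_lit 585208) (.g (nat_lit 546) (.e (nat_lit 385074) (nat_lit 31) (.e (nat_lit 573454) (nat_lit 9) (.e (nat_lit 968) (nat_lit 81) .nil))) (.g (nat_lit 0) (.e (nat_lit 387509) (nat_lit 0) .nil) .nil))) 
(.lf (nat_lit 585720) (.g (nat_lit 1763) (.e (nat_lit 393251) (nat_lit 18) (.e (nat_lit 164332) (nat_lit 230) (.e (nat_lit 163867) (nat_lit 2) (.e (nat_lit 196624) (nat_lit 9) (.e (nat_lit 433) (nat_lit 32) .nil))))) (.g (nat_lit 0) (.e (nat_lit 388812) (nat_lit 0) .nil) .nil)))))))))) 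
(.nd (nat_lit 3) (.nd (nat_lit 4) (.nd (nat_lit 5) (.nd (nat_lit 6) (.nd (nat_lit 7) 
(.nd (nat_lit 8) (.nd (nat_lit 9) 
(.lf (nat_lit 584708) (.g (nat_lit 1360) (.e (nat_lit 385064) (nat_lit 26) (.e (nat_lit 532535) (nat_lit 9) (.e (nat_lit 336099) (nat_lit 9) .nil))) (.g (nat_lit 0) (.e (nat_lit 386708) (nat_lit 0) .nil) .nil))) 
(.lf (nat_lit 585220) (.g (nat_lit 2718) (.e (nat_lit 385074) (nat_lit 31) (.e (nat_lit 573482) (nat_lit 13) (.e (nat_lit 65624) (nat_lit 12) (.e (nat_lit 385074) (nat_lit 31) (.e (nat_lit 573454) (nat_lit 9) .nil))))) (.g (nat_lit 0) (.e (nat_lit 387529) (nat_lit 0) .nil) .nil)))) (.nd (nat_lit 9) 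
(.lf (nat_lit 584964) (.g (nat_lit 2348) (.e (nat_lit 385068) (nat_lit 26) (.e (nat_lit 532515) (nat_lit 3) (.e (nat_lit 114697) (nat_lit 11) (.e (nat_lit 426116) (nat_lit 2) (.e (nat_lit 196681) (nat_lit 17) (.e (nat_lit 131120) (nat_lit 12) .nil)))))) (.g (nat_lit 1) (.e (nat_lit 387122) (nat_lit 0) .nil) .nil))) 
(.lf (nat_lit 585476) (.g (nat_lit 155) (.e (nat_lit 385109) (nat_lit 51) (.e (nat_lit 794684) (nat_lit 25) (.e (nat_lit 221208) (nat_lit 21) .nil))) (.g (nat_lit 0) (.e (nat_lit 388322) (nat_lit 0) .nil) .nil))))) (.nd (nat_lit 8) (.nd (nat_lit 9) 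
(.lf (nat_lit 584836) (.g (nat_lit 2124) (.e (nat_lit 385066) (nat_lit 26) (.e (nat_lit 532534) (nat_lit 9) (.e (nat_lit 336322) (nat_lit 18) (.e (nat_lit 204852) (nat_lit 26) (.e (nat_lit 336325) (nat_lit 18) (.e (nat_lit 204880) (nat_lit 32) .nil)))))) (.g (nat_lit 1) (.e (nat_lit 386921) (nat_lit 0) .nil) .nil))) 
(.lf (nat_lit 585348) (.g (nat_lit 3163) (.e (nat_lit 385074) (nat_lit 31) (.e (nat_lit 573493) (nat_lit 15) (.e (nat_lit 81956) (nat_lit 23) (.e (nat_lit 98322) (nat_lit 17) .nil)))) (.g (nat_lit 0) (.e (nat_lit 387737) (nat_lit 0) .nil) .nil)))) (.nd (nat_lit 9) 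
(.lf (nat_lit 585092) (.g (nat_lit 2418) (.e (nat_lit 385072) (nat_lit 31) (.e (nat_lit 573492) (nat_lit 15) (.e (nat_lit 81953) (nat_lit 22) (.e (nat_lit 90187) (nat_lit 18) .nil)))) (.g (nat_lit 0) (.e (nat_lit 387319) (nat_lit 0) .nil) .nil))) 
(.lf (nat_lit 585604) (.g (nat_lit 1632) (.e (nat_lit 393250) (nat_lit 18) (.e (nat_lit 164403) (nat_lit 256) (.e (nat_lit 57371) (nat_lit 2) (.e (nat_lit 90185) (nat_lit 17) (.e (nat_lit 237601) (nat_lit 9) .nil))))) (.g (nat_lit 0) (.e (nat_lit 388673) (nat_lit 0) .nil) .nil)))))) (.nd (nat_lit 7) (.nd (nat_lit 8) (.nd (nat_lit 9) 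
(.lf (nat_lit 584772) (.g (nat_lit 1796) (.e (nat_lit 385066) (nat_lit 26) (.e (nat_lit 532504) (nat_lit 1) (.e (nat_lit 57852) (nat_lit 252) (.e (nat_lit 57412) (nat_lit 12) (.e (nat_lit 343808) (nat_lit 34) .nil))))) (.g (nat_lit 0) (.e (nat_lit 386842) (nat_lit 0) .nil) .nil))) 
(.lf (nat_lit 585284) (.g (nat_lit 2266) (.e (nat_lit 385074) (nat_lit 31) (.e (nat_lit 573485) (nat_lit 13) (.e (nat_lit 65630) (nat_lit 14) (.e (nat_lit 401425) (nat_lit 2) (.e (nat_lit 196628) (nat_lit 9) .nil))))) (.g (nat_lit 0) (.e (nat_lit 387650) (nat_lit 0) .nil) .nil)))) (.nd (nat_lit 9) 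
(.lf (nat_lit 585028) (.g (nat_lit 679) (.e (nat_lit 392960) (nat_lit 24) (.e (nat_lit 516158) (nat_lit 9) (.e (nat_lit 426187) (nat_lit 9) (.e (nat_lit 426484) (nat_lit 27) .nil)))) (.g (nat_lit 0) (.e (nat_lit 387209) (nat_lit 0) .nil) .nil))) 
(.lf (nat_lit 585540) (.g (nat_lit 2767) (.e (nat_lit 393229) (nat_lit 9) (.e (nat_lit 335988) (nat_lit 1) (.e (nat_lit 57931) (nat_lit 282) (.e (nat_lit 163869) (nat_lit 2) (.e (nat_lit 196681) (nat_lit 17) (.e (nat_lit 131124) (nat_lit 13) .nil)))))) (.g (nat_lit 1) (.e (nat_lit 388556) (nat_lit 0) .nil) .nil))))) (.nd (nat_lit 8) (.nd (nat_lit 9) 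
(.lf (nat_lit 584900) (.g (nat_lit 2843) (.e (nat_lit 385067) (nat_lit 26) (.e (nat_lit 532535) (nat_lit 9) (.e (nat_lit 336295) (nat_lit 15) (.e (nat_lit 3253) (nat_lit 197) .nil)))) (.g (nat_lit 0) (.e (nat_lit 387021) (nat_lit 0) .nil) .nil))) 
(.lf (nat_lit 585412) (.g (nat_lit 1998) (.e (nat_lit 385094) (nat_lit 49) (.e (nat_lit 778323) (nat_lit 5) (.e (nat_lit 73782) (nat_lit 32) (.e (nat_lit 3088) (nat_lit 191) (.e (nat_lit 491264) (nat_lit 26) .nil))))) (.g (nat_lit 1) (.e (nat_lit 387990) (nat_lit 0) .nil) .nil)))) (.nd (nat_lit 9) 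
(.lf (nat_lit 585156) (.g (nat_lit 2035) (.e (nat_lit 385073) (nat_lit 31) (.e (nat_lit 573493) (nat_lit 15) (.e (nat_lit 81938) (nat_lit 20) (.e (nat_lit 1788) (nat_lit 119) .nil)))) (.g (nat_lit 0) (.e (nat_lit 387438) (nat_lit 0) .nil) .nil))) 
(.lf (nat_lit 585668) (.g (nat_lit 2548) (.e (nat_lit 393251) (nat_lit 18) (.e (nat_lit 164327) (nat_lit 230) (.e (nat_lit 163868) (nat_lit 2) (.e (nat_lit 196624) (nat_lit 9) (.e (nat_lit 455) (nat_lit 34) (.e (nat_lit 450304) (nat_lit 18) .nil)))))) (.g (nat_lit 1) (.e (nat_lit 388760) (nat_lit 0) .nil) .nil))))))) (.nd (nat_lit 6) (.nd (nat_lit 7) (.nd (nat_lit 8) (.nd (nat_lit 9) 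
(.lf (nat_lit 584740) (.g (nat_lit 2899) (.e (nat_lit 385065) (nat_lit 26) (.e (nat_lit 532550) (nat_lit 12) (.e (nat_lit 360451) (nat_lit 0) (.e (nat_lit 7697) (nat_lit 412) .nil)))) (.g (nat_lit 0) (.e (nat_lit 386782) (nat_lit 0) .nil) .nil))) 
(.lf (nat_lit 585252) (.g (nat_lit 873) (.e (nat_lit 385074) (nat_lit 31) (.e (nat_lit 573484) (nat_lit 13) (.e (nat_lit 65617) (nat_lit 10) (.e (nat_lit 344130) (nat_lit 26) .nil)))) (.g (nat_lit 0) (.e (nat_lit 387578) (nat_lit 0) .nil) .nil)))) (.nd (nat_lit 9) 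
(.lf (nat_lit 584996) (.g (nat_lit 576) (.e (nat_lit 385068) (nat_lit 26) (.e (nat_lit 532534) (nat_lit 9) (.e (nat_lit 336325) (nat_lit 18) .nil))) (.g (nat_lit 0) (.e (nat_lit 387159) (nat_lit 0) .nil) .nil))) 
(.lf (nat_lit 585508) (.g (nat_lit 2989) (.e (nat_lit 393225) (nat_lit 9) (.e (nat_lit 335995) (nat_lit 1) (.e (nat_lit 57929) (nat_lit 282) (.e (nat_lit 163869) (nat_lit 2) (.e (nat_lit 196681) (nat_lit 17) (.e (nat_lit 131125) (nat_lit 13) .nil)))))) (.g (nat_lit 1) (.e (nat_lit 388491) (nat_lit 0) .nil) .nil))))) (.nd (nat_lit 8) (.nd (nat_lit 9) 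
(.lf (nat_lit 584868) (.g (nat_lit 2293) (.e (nat_lit 385066) (nat_lit 26) (.e (nat_lit 532560) (nat_lit 14) (.e (nat_lit 376860) (nat_lit 21) (.e (nat_lit 57685) (nat_lit 156) (.e (nat_lit 163886) (nat_lit 5) (.e (nat_lit 229120) (nat_lit 17) .nil)))))) (.g (nat_lit 1) (.e (nat_lit 386957) (nat_lit 0) .nil) .nil))) 
(.lf (nat_lit 585380) (.g (nat_lit 2827) (.e (nat_lit 385093) (nat_lit 49) (.e (nat_lit 778318) (nat_lit 3) (.e (nat_lit 57476) (nat_lit 28) (.e (nat_lit 557107) (nat_lit 15) (.e (nat_lit 188440) (nat_lit 20) (.e (nat_lit 3255) (nat_lit 197) (.e (nat_lit 532565) (nat_lit 15) .nil))))))) (.g (nat_lit 1) (.e (nat_lit 387936) (nat_lit 0) .nil) .nil)))) (.nd (nat_lit 9) 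
(.lf (nat_lit 585124) (.g (nat_lit 2055) (.e (nat_lit 385072) (nat_lit 31) (.e (nat_lit 573493) (nat_lit 15) (.e (nat_lit 81956) (nat_lit 23) (.e (nat_lit 98325) (nat_lit 17) .nil)))) (.g (nat_lit 0) (.e (nat_lit 387362) (nat_lit 0) .nil) .nil))) 
(.lf (nat_lit 585636) (.g (nat_lit 2325) (.e (nat_lit 393251) (nat_lit 18) (.e (nat_lit 164325) (nat_lit 230) (.e (nat_lit 163871) (nat_lit 2) (.e (nat_lit 196624) (nat_lit 9) (.e (nat_lit 455) (nat_lit 34) (.e (nat_lit 450304) (nat_lit 18) .nil)))))) (.g (nat_lit 1) (.e (nat_lit 388728) (nat_lit 0) .nil) .nil)))))) (.nd (nat_lit 7) (.nd (nat_lit 8) (.nd (nat_lit 9) 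
(.lf (nat_lit 584804) (.g (nat_lit 3161) (.e (nat_lit 385066) (nat_lit 26) (.e (nat_lit 532530) (nat_lit 9) (.e (nat_lit 336326) (nat_lit 18) (.e (nat_lit 204851) (nat_lit 26) (.e (nat_lit 336324) (nat_lit 18) (.e (nat_lit 204881) (nat_lit 32) .nil)))))) (.g (nat_lit 1) (.e (nat_lit 386883) (nat_lit 0) .nil) .nil))) 
(.lf (nat_lit 585316) (.g (nat_lit 936) (.e (nat_lit 385074) (nat_lit 31) (.e (nat_lit 573493) (nat_lit 15) (.e (nat_lit 81938) (nat_lit 20) (.e (nat_lit 1841) (nat_lit 123) .nil)))) (.g (nat_lit 0) (.e (nat_lit 387702) (nat_lit 0) .nil) .nil)))) (.nd (nat_lit 9) 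
(.lf (nat_lit 585060) (.g (nat_lit 2815) (.e (nat_lit 385072) (nat_lit 31) (.e (nat_lit 573482) (nat_lit 13) (.e (nat_lit 65628) (nat_lit 14) (.e (nat_lit 401425) (nat_lit 2) (.e (nat_lit 196681) (nat_lit 17) .nil))))) (.g (nat_lit 0) (.e (nat_lit 387267) (nat_lit 0) .nil) .nil))) 
(.lf (nat_lit 585572) (.g (nat_lit 4024) (.e (nat_lit 393238) (nat_lit 17) (.e (nat_lit 6989) (nat_lit 377) (.e (nat_lit 2777) (nat_lit 178) (.e (nat_lit 286768) (nat_lit 27) (.e (nat_lit 426340) (nat_lit 14) (.e (nat_lit 491571) (nat_lit 13) .nil)))))) (.g (nat_lit 1) (.e (nat_lit 388634) (nat_lit 0) .nil) .nil))))) (.nd (nat_lit 8) (.nd (nat_lit 9) 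
(.lf (nat_lit 584932) (.g (nat_lit 2964) (.e (nat_lit 385068) (nat_lit 26) (.e (nat_lit 532504) (nat_lit 1) (.e (nat_lit 57852) (nat_lit 252) (.e (nat_lit 57406) (nat_lit 12) (.e (nat_lit 336452) (nat_lit 34) (.e (nat_lit 483406) (nat_lit 26) .nil)))))) (.g (nat_lit 1) (.e (nat_lit 387077) (nat_lit 0) .nil) .nil))) 
(.lf (nat_lit 585444) (.g (nat_lit 1214) (.e (nat_lit 385103) (nat_lit 50) (.e (nat_lit 786483) (nat_lit 30) (.e (nat_lit 360451) (nat_lit 0) (.e (nat_lit 7936) (nat_lit 322) .nil)))) (.g (nat_lit 0) (.e (nat_lit 388074) (nat_lit 0) .nil) .nil)))) (.nd (nat_lit 9) 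
(.lf (nat_lit 585188) (.g (nat_lit 4686) (.e (nat_lit 385073) (nat_lit 31) (.e (nat_lit 573493) (nat_lit 15) (.e (nat_lit 81953) (nat_lit 22) (.e (nat_lit 90191) (nat_lit 18) .nil)))) (.g (nat_lit 0) (.e (nat_lit 387482) (nat_lit 0) .nil) .nil))) 
(.lf (nat_lit 585700) (.g (nat_lit 4061) (.e (nat_lit 393251) (nat_lit 18) (.e (nat_lit 164327) (nat_lit 230) (.e (nat_lit 163873) (nat_lit 3) (.e (nat_lit 204813) (nat_lit 9) (.e (nat_lit 426196) (nat_lit 9) (.e (nat_lit 426568) (nat_lit 34) .nil)))))) (.g (nat_lit 1) (.e (nat_lit 388792) (nat_lit 0) .nil) .nil)))))))) 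
(.nd (nat_lit 5) (.nd (nat_lit 6) (.nd (nat_lit 7) (.nd (nat_lit 8) (.nd (nat_lit 9) 
(.lf (nat_lit 584724) (.g (nat_lit 457) (.e (nat_lit 385065) (nat_lit 26) (.e (nat_lit 532530) (nat_lit 9) (.e (nat_lit 336326) (nat_lit 18) .nil))) (.g (nat_lit 0) (.e (nat_lit 386763) (nat_lit 0) .nil) .nil))) 
(.lf (nat_lit 585236) (.g (nat_lit 1267) (.e (nat_lit 385074) (nat_lit 31) (.e (nat_lit 573484) (nat_lit 13) (.e (nat_lit 65610) (nat_lit 10) (.e (nat_lit 344126) (nat_lit 25) .nil)))) (.g (nat_lit 0) (.e (nat_lit 387557) (nat_lit 0) .nil) .nil)))) (.nd (nat_lit 9) 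
(.lf (nat_lit 584980) (.g (nat_lit 1801) (.e (nat_lit 385068) (nat_lit 26) (.e (nat_lit 532530) (nat_lit 9) (.e (nat_lit 336326) (nat_lit 18) (.e (nat_lit 204852) (nat_lit 26) (.e (nat_lit 336322) (nat_lit 18) .nil))))) (.g (nat_lit 0) (.e (nat_lit 387141) (nat_lit 0) .nil) .nil))) 
(.lf (nat_lit 585492) (.g (nat_lit 3174) (.e (nat_lit 393225) (nat_lit 9) (.e (nat_lit 335986) (nat_lit 1) (.e (nat_lit 57926) (nat_lit 282) (.e (nat_lit 163869) (nat_lit 2) (.e (nat_lit 196681) (nat_lit 17) (.e (nat_lit 131125) (nat_lit 13) .nil)))))) (.g (nat_lit 1) (.e (nat_lit 388451) (nat_lit 0) .nil) .nil))))) (.nd (nat_lit 8) (.nd (nat_lit 9) 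
(.lf (nat_lit 584852) (.g (nat_lit 1829) (.e (nat_lit 385066) (nat_lit 26) (.e (nat_lit 532534) (nat_lit 9) (.e (nat_lit 336326) (nat_lit 18) (.e (nat_lit 204881) (nat_lit 32) (.e (nat_lit 385066) (nat_lit 26) (.e (nat_lit 532566) (nat_lit 15) .nil)))))) (.g (nat_lit 1) (.e (nat_lit 386938) (nat_lit 0) .nil) .nil))) 
(.lf (nat_lit 585364) (.g (nat_lit 2556) (.e (nat_lit 385092) (nat_lit 49) (.e (nat_lit 778317) (nat_lit 3) (.e (nat_lit 57480) (nat_lit 28) (.e (nat_lit 557067) (nat_lit 9) (.e (nat_lit 3022) (nat_lit 187) .nil))))) (.g (nat_lit 0) (.e (nat_lit 387906) (nat_lit 0) .nil) .nil)))) (.nd (nat_lit 9) 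
(.lf (nat_lit 585108) (.g (nat_lit 2240) (.e (nat_lit 385072) (nat_lit 31) (.e (nat_lit 573493) (nat_lit 15) (.e (nat_lit 81953) (nat_lit 22) (.e (nat_lit 90134) (nat_lit 9) .nil)))) (.g (nat_lit 0) (.e (nat_lit 387344) (nat_lit 0) .nil) .nil))) 
(.lf (nat_lit 585620) (.g (nat_lit 2629) (.e (nat_lit 393251) (nat_lit 18) (.e (nat_lit 164325) (nat_lit 230) (.e (nat_lit 163868) (nat_lit 2) (.e (nat_lit 196624) (nat_lit 9) (.e (nat_lit 455) (nat_lit 34) (.e (nat_lit 450304) (nat_lit 18) .nil)))))) (.g (nat_lit 1) (.e (nat_lit 388712) (nat_lit 0) .nil) .nil)))))) (.nd (nat_lit 7) (.nd (nat_lit 8) (.nd (nat_lit 9) 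
(.lf (nat_lit 584788) (.g (nat_lit 2171) (.e (nat_lit 385066) (nat_lit 26) (.e (nat_lit 532515) (nat_lit 3) (.e (nat_lit 114697) (nat_lit 11) (.e (nat_lit 426116) (nat_lit 2) (.e (nat_lit 196681) (nat_lit 17) (.e (nat_lit 131120) (nat_lit 12) .nil)))))) (.g (nat_lit 1) (.e (nat_lit 386866) (nat_lit 0) .nil) .nil))) 
(.lf (nat_lit 585300) (.g (nat_lit 379) (.e (nat_lit 385074) (nat_lit 31) (.e (nat_lit 573491) (nat_lit 15) (.e (nat_lit 81946) (nat_lit 20) .nil))) (.g (nat_lit 0) (.e (nat_lit 387684) (nat_lit 0) .nil) .nil)))) (.nd (nat_lit 9) 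
(.lf (nat_lit 585044) (.g (nat_lit 2516) (.e (nat_lit 385072) (nat_lit 31) (.e (nat_lit 573481) (nat_lit 13) (.e (nat_lit 65619) (nat_lit 10) (.e (nat_lit 344129) (nat_lit 26) (.e (nat_lit 557087) (nat_lit 11) (.e (nat_lit 24647) (nat_lit 12) .nil)))))) (.g (nat_lit 1) (.e (nat_lit 387250) (nat_lit 0) .nil) .nil))) 
(.lf (nat_lit 585556) (.g (nat_lit 2036) (.e (nat_lit 393231) (nat_lit 17) (.e (nat_lit 7593) (nat_lit 407) (.e (nat_lit 73773) (nat_lit 25) (.e (nat_lit 770072) (nat_lit 8) (.e (nat_lit 65625) (nat_lit 13) .nil))))) (.g (nat_lit 1) (.e (nat_lit 388603) (nat_lit 0) .nil) .nil))))) (.nd (nat_lit 8) (.nd (nat_lit 9) 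
(.lf (nat_lit 584916) (.g (nat_lit 2258) (.e (nat_lit 385068) (nat_lit 26) (.e (nat_lit 532501) (nat_lit 1) (.e (nat_lit 57854) (nat_lit 252) (.e (nat_lit 57406) (nat_lit 12) (.e (nat_lit 336452) (nat_lit 34) (.e (nat_lit 483403) (nat_lit 26) .nil)))))) (.g (nat_lit 1) (.e (nat_lit 387049) (nat_lit 0) .nil) .nil))) 
(.lf (nat_lit 585428) (.g (nat_lit 1164) (.e (nat_lit 385102) (nat_lit 50) (.e (nat_lit 786483) (nat_lit 30) (.e (nat_lit 360450) (nat_lit 0) (.e (nat_lit 4780) (nat_lit 281) .nil)))) (.g (nat_lit 0) (.e (nat_lit 388036) (nat_lit 0) .nil) .nil)))) (.nd (nat_lit 9) 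
(.lf (nat_lit 585172) (.g (nat_lit 4819) (.e (nat_lit 385073) (nat_lit 31) (.e (nat_lit 573493) (nat_lit 15) (.e (nat_lit 81953) (nat_lit 22) (.e (nat_lit 90125) (nat_lit 9) .nil)))) (.g (nat_lit 0) (.e (nat_lit 387466) (nat_lit 0) .nil) .nil))) 
(.lf (nat_lit 585684) (.g (nat_lit 2839) (.e (nat_lit 393251) (nat_lit 18) (.e (nat_lit 164327) (nat_lit 230) (.e (nat_lit 163871) (nat_lit 2) (.e (nat_lit 196656) (nat_lit 11) (.e (nat_lit 16432) (nat_lit 9) .nil))))) (.g (nat_lit 0) (.e (nat_lit 388776) (nat_lit 0) .nil) .nil))))))) (.nd (nat_lit 6) (.nd (nat_lit 7) (.nd (nat_lit 8) (.nd (nat_lit 9) 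
(.lf (nat_lit 584756) (.g (nat_lit 630) (.e (nat_lit 385066) (nat_lit 26) (.e (nat_lit 532500) (nat_lit 1) (.e (nat_lit 57844) (nat_lit 252) .nil))) (.g (nat_lit 0) (.e (nat_lit 386808) (nat_lit 0) .nil) .nil))) 
(.lf (nat_lit 585268) (.g (nat_lit 384) (.e (nat_lit 385074) (nat_lit 31) (.e (nat_lit 573484) (nat_lit 13) (.e (nat_lit 65630) (nat_lit 14) .nil))) (.g (nat_lit 0) (.e (nat_lit 387619) (nat_lit 0) .nil) .nil)))) (.nd (nat_lit 9) 
(.lf (nat_lit 585012) (.g (nat_lit 2927) (.e (nat_lit 385068) (nat_lit 26) (.e (nat_lit 532560) (nat_lit 14) (.e (nat_lit 376859) (nat_lit 21) (.e (nat_lit 57687) (nat_lit 156) (.e (nat_lit 163886) (nat_lit 5) (.e (nat_lit 229120) (nat_lit 17) .nil)))))) (.g (nat_lit 1) (.e (nat_lit 387175) (nat_lit 0) .nil) .nil))) 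
(.lf (nat_lit 585524) (.g (nat_lit 2166) (.e (nat_lit 393229) (nat_lit 9) (.e (nat_lit 335986) (nat_lit 1) (.e (nat_lit 57849) (nat_lit 252) (.e (nat_lit 57375) (nat_lit 2) (.e (nat_lit 90157) (nat_lit 11) (.e (nat_lit 24656) (nat_lit 13) .nil)))))) (.g (nat_lit 1) (.e (nat_lit 388522) (nat_lit 0) .nil) .nil))))) (.nd (nat_lit 8) (.nd (nat_lit 9) 
(.lf (nat_lit 584884) (.g (nat_lit 3219) (.e (nat_lit 385067) (nat_lit 26) (.e (nat_lit 532499) (nat_lit 1) (.e (nat_lit 57847) (nat_lit 252) (.e (nat_lit 57417) (nat_lit 12) .nil)))) (.g (nat_lit 0) (.e (nat_lit 386983) (nat_lit 0) .nil) .nil))) 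
(.lf (nat_lit 585396) (.g (nat_lit 2472) (.e (nat_lit 385094) (nat_lit 49) (.e (nat_lit 778317) (nat_lit 3) (.e (nat_lit 57480) (nat_lit 28) (.e (nat_lit 557067) (nat_lit 9) (.e (nat_lit 3022) (nat_lit 187) .nil))))) (.g (nat_lit 0) (.e (nat_lit 387962) (nat_lit 0) .nil) .nil)))) (.nd (nat_lit 9) 
(.lf (nat_lit 585140) (.g (nat_lit 3087) (.e (nat_lit 385073) (nat_lit 31) (.e (nat_lit 573484) (nat_lit 13) (.e (nat_lit 65610) (nat_lit 10) (.e (nat_lit 344129) (nat_lit 26) (.e (nat_lit 557086) (nat_lit 11) (.e (nat_lit 24653) (nat_lit 12) .nil)))))) (.g (nat_lit 1) (.e (nat_lit 387388) (nat_lit 0) .nil) .nil))) 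
(.lf (nat_lit 585652) (.g (nat_lit 3355) (.e (nat_lit 393251) (nat_lit 18) (.e (nat_lit 164325) (nat_lit 230) (.e (nat_lit 163873) (nat_lit 3) (.e (nat_lit 204813) (nat_lit 9) (.e (nat_lit 426199) (nat_lit 9) (.e (nat_lit 426564) (nat_lit 34) .nil)))))) (.g (nat_lit 1) (.e (nat_lit 388744) (nat_lit 0) .nil) .nil)))))) (.nd (nat_lit 7) (.nd (nat_lit 8) (.nd (nat_lit 9) 
(.lf (nat_lit 584820) (.g (nat_lit 2067) (.e (nat_lit 385066) (nat_lit 26) (.e (nat_lit 532531) (nat_lit 9) (.e (nat_lit 336324) (nat_lit 18) (.e (nat_lit 204882) (nat_lit 32) (.e (nat_lit 385065) (nat_lit 26) (.e (nat_lit 532566) (nat_lit 15) .nil)))))) (.g (nat_lit 1) (.e (nat_lit 386900) (nat_lit 0) .nil) .nil))) 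
(.lf (nat_lit 585332) (.g (nat_lit 4542) (.e (nat_lit 385074) (nat_lit 31) (.e (nat_lit 573493) (nat_lit 15) (.e (nat_lit 81953) (nat_lit 22) (.e (nat_lit 90137) (nat_lit 9) .nil)))) (.g (nat_lit 0) (.e (nat_lit 387721) (nat_lit 0) .nil) .nil)))) (.nd (nat_lit 9) 
(.lf (nat_lit 585076) (.g (nat_lit 1639) (.e (nat_lit 385072) (nat_lit 31) (.e (nat_lit 573491) (nat_lit 15) (.e (nat_lit 81956) (nat_lit 23) (.e (nat_lit 98387) (nat_lit 33) .nil)))) (.g (nat_lit 0) (.e (nat_lit 387302) (nat_lit 0) .nil) .nil))) 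
(.lf (nat_lit 585588) (.g (nat_lit 2105) (.e (nat_lit 393250) (nat_lit 18) (.e (nat_lit 164327) (nat_lit 230) (.e (nat_lit 163873) (nat_lit 3) (.e (nat_lit 204813) (nat_lit 9) (.e (nat_lit 426200) (nat_lit 9) .nil))))) (.g (nat_lit 0) (.e (nat_lit 388657) (nat_lit 0) .nil) .nil))))) (.nd (nat_lit 8) (.nd (nat_lit 9) 
(.lf (nat_lit 584948) (.g (nat_lit 1690) (.e (nat_lit 385068) (nat_lit 26) (.e (nat_lit 532513) (nat_lit 3) (.e (nat_lit 114697) (nat_lit 11) (.e (nat_lit 426123) (nat_lit 2) (.e (nat_lit 196665) (nat_lit 13) .nil))))) (.g (nat_lit 0) (.e (nat_lit 387098) (nat_lit 0) .nil) .nil))) 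
(.lf (nat_lit 585460) (.g (nat_lit 2774) (.e (nat_lit 385106) (nat_lit 50) (.e (nat_lit 786483) (nat_lit 30) (.e (nat_lit 360456) (nat_lit 0) (.e (nat_lit 5949) (nat_lit 322) (.e (nat_lit 57419) (nat_lit 12) (.e (nat_lit 336194) (nat_lit 12) .nil)))))) (.g (nat_lit 1) (.e (nat_lit 388110) (nat_lit 0) .nil) .nil)))) (.nd (nat_lit 9) 
(.lf (nat_lit 585204) (.g (nat_lit 2246) (.e (nat_lit 385073) (nat_lit 31) (.e (nat_lit 573493) (nat_lit 15) (.e (nat_lit 81962) (nat_lit 25) (.e (nat_lit 139289) (nat_lit 9) (.e (nat_lit 2458) (nat_lit 157) (.e (nat_lit 7518) (nat_lit 402) (.e (nat_lit 1635) (nat_lit 114) .nil))))))) (.g (nat_lit 1) (.e (nat_lit 387504) (nat_lit 0) .nil) .nil))) 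
(.lf (nat_lit 585716) (.g (nat_lit 3901) (.e (nat_lit 393251) (nat_lit 18) (.e (nat_lit 164331) (nat_lit 230) (.e (nat_lit 163873) (nat_lit 3) (.e (nat_lit 204813) (nat_lit 9) (.e (nat_lit 426196) (nat_lit 9) (.e (nat_lit 426568) (nat_lit 34) .nil)))))) (.g (nat_lit 1) (.e (nat_lit 388808) (nat_lit 0) .nil) .nil))))))))) 
(.nd (nat_lit 4) (.nd (nat_lit 5) (.nd (nat_lit 6) (.nd (nat_lit 7) (.nd (nat_lit 8) 
(.nd (nat_lit 9) 
(.lf (nat_lit 584716) (.g (nat_lit 553) (.e (nat_lit 385065) (nat_lit 26) (.e (nat_lit 532513) (nat_lit 3) (.e (nat_lit 122624) (nat_lit 12) .nil))) (.g (nat_lit 0) (.e (nat_lit 386739) (nat_lit 0) .nil) .nil))) 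
(.lf (nat_lit 585228) (.g (nat_lit 2939) (.e (nat_lit 385074) (nat_lit 31) (.e (nat_lit 573482) (nat_lit 13) (.e (nat_lit 65630) (nat_lit 14) (.e (nat_lit 401428) (nat_lit 3) (.e (nat_lit 204858) (nat_lit 26) (.e (nat_lit 336198) (nat_lit 12) .nil)))))) (.g (nat_lit 1) (.e (nat_lit 387540) (nat_lit 0) .nil) .nil)))) (.nd (nat_lit 9) 
(.lf (nat_lit 584972) (.g (nat_lit 198) (.e (nat_lit 385068) (nat_lit 26) (.e (nat_lit 532515) (nat_lit 3) (.e (nat_lit 122624) (nat_lit 11) .nil))) (.g (nat_lit 0) (.e (nat_lit 387130) (nat_lit 0) .nil) .nil))) 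
(.lf (nat_lit 585484) (.g (nat_lit 587) (.e (nat_lit 393224) (nat_lit 9) (.e (nat_lit 335986) (nat_lit 1) (.e (nat_lit 57927) (nat_lit 282) .nil))) (.g (nat_lit 0) (.e (nat_lit 388431) (nat_lit 0) .nil) .nil))))) (.nd (nat_lit 8) (.nd (nat_lit 9) 
(.lf (nat_lit 584844) (.g (nat_lit 3064) (.e (nat_lit 385066) (nat_lit 26) (.e (nat_lit 532534) (nat_lit 9) (.e (nat_lit 336325) (nat_lit 18) (.e (nat_lit 204880) (nat_lit 32) (.e (nat_lit 385066) (nat_lit 26) (.e (nat_lit 532565) (nat_lit 15) .nil)))))) (.g (nat_lit 1) (.e (nat_lit 386930) (nat_lit 0) .nil) .nil))) 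
(.lf (nat_lit 585356) (.g (nat_lit 158) (.e (nat_lit 385074) (nat_lit 31) (.e (nat_lit 573493) (nat_lit 15) (.e (nat_lit 81962) (nat_lit 25) .nil))) (.g (nat_lit 0) (.e (nat_lit 387748) (nat_lit 0) .nil) .nil)))) (.nd (nat_lit 9) 
(.lf (nat_lit 585100) (.g (nat_lit 1022) (.e (nat_lit 385072) (nat_lit 31) (.e (nat_lit 573493) (nat_lit 15) (.e (nat_lit 81947) (nat_lit 20) .nil))) (.g (nat_lit 0) (.e (nat_lit 387334) (nat_lit 0) .nil) .nil))) 
(.lf (nat_lit 585612) (.g (nat_lit 2050) (.e (nat_lit 393251) (nat_lit 18) (.e (nat_lit 164324) (nat_lit 230) (.e (nat_lit 163873) (nat_lit 3) (.e (nat_lit 204813) (nat_lit 9) (.e (nat_lit 426188) (nat_lit 9) .nil))))) (.g (nat_lit 0) (.e (nat_lit 388702) (nat_lit 0) .nil) .nil)))))) (.nd (nat_lit 7) (.nd (nat_lit 8) (.nd (nat_lit 9) 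
(.lf (nat_lit 584780) (.g (nat_lit 3242) (.e (nat_lit 385066) (nat_lit 26) (.e (nat_lit 532513) (nat_lit 3) (.e (nat_lit 114698) (nat_lit 11) (.e (nat_lit 426123) (nat_lit 2) (.e (nat_lit 196681) (nat_lit 17) (.e (nat_lit 131120) (nat_lit 12) .nil)))))) (.g (nat_lit 1) (.e (nat_lit 386857) (nat_lit 0) .nil) .nil))) 
(.lf (nat_lit 585292) (.g (nat_lit 2694) (.e (nat_lit 385074) (nat_lit 31) (.e (nat_lit 573487) (nat_lit 14) (.e (nat_lit 73782) (nat_lit 32) (.e (nat_lit 2682) (nat_lit 168) (.e (nat_lit 204850) (nat_lit 26) (.e (nat_lit 336205) (nat_lit 12) .nil)))))) (.g (nat_lit 1) (.e (nat_lit 387663) (nat_lit 0) .nil) .nil)))) (.nd (nat_lit 9) 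
(.lf (nat_lit 585036) (.g (nat_lit 1850) (.e (nat_lit 392960) (nat_lit 24) (.e (nat_lit 516160) (nat_lit 10) (.e (nat_lit 434244) (nat_lit 28) (.e (nat_lit 573488) (nat_lit 14) (.e (nat_lit 73754) (nat_lit 8) .nil))))) (.g (nat_lit 0) (.e (nat_lit 387229) (nat_lit 0) .nil) .nil))) 
(.lf (nat_lit 585548) (.g (nat_lit 3000) (.e (nat_lit 393229) (nat_lit 9) (.e (nat_lit 335995) (nat_lit 1) (.e (nat_lit 57931) (nat_lit 282) (.e (nat_lit 163874) (nat_lit 3) (.e (nat_lit 204855) (nat_lit 26) (.e (nat_lit 336212) (nat_lit 13) .nil)))))) (.g (nat_lit 1) (.e (nat_lit 388566) (nat_lit 0) .nil) .nil))))) (.nd (nat_lit 8) (.nd (nat_lit 9) 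
(.lf (nat_lit 584908) (.g (nat_lit 3272) (.e (nat_lit 385068) (nat_lit 26) (.e (nat_lit 532499) (nat_lit 1) (.e (nat_lit 57847) (nat_lit 252) (.e (nat_lit 57377) (nat_lit 3) .nil)))) (.g (nat_lit 0) (.e (nat_lit 387033) (nat_lit 0) .nil) .nil))) 
(.lf (nat_lit 585420) (.g (nat_lit 2109) (.e (nat_lit 385094) (nat_lit 49) (.e (nat_lit 778324) (nat_lit 5) (.e (nat_lit 73781) (nat_lit 32) (.e (nat_lit 3090) (nat_lit 191) (.e (nat_lit 491264) (nat_lit 26) .nil))))) (.g (nat_lit 1) (.e (nat_lit 387998) (nat_lit 0) .nil) .nil)))) (.nd (nat_lit 9) 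
(.lf (nat_lit 585164) (.g (nat_lit 2482) (.e (nat_lit 385073) (nat_lit 31) (.e (nat_lit 573493) (nat_lit 15) (.e (nat_lit 81951) (nat_lit 22) (.e (nat_lit 90123) (nat_lit 9) .nil)))) (.g (nat_lit 0) (.e (nat_lit 387458) (nat_lit 0) .nil) .nil))) 
(.lf (nat_lit 585676) (.g (nat_lit 2842) (.e (nat_lit 393251) (nat_lit 18) (.e (nat_lit 164327) (nat_lit 230) (.e (nat_lit 163868) (nat_lit 2) (.e (nat_lit 196656) (nat_lit 11) (.e (nat_lit 16433) (nat_lit 9) (.e (nat_lit 426568) (nat_lit 34) .nil)))))) (.g (nat_lit 1) (.e (nat_lit 388768) (nat_lit 0) .nil) .nil))))))) (.nd (nat_lit 6) (.nd (nat_lit 7) (.nd (nat_lit 8) (.nd (nat_lit 9) 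
(.lf (nat_lit 584748) (.g (nat_lit 2161) (.e (nat_lit 385065) (nat_lit 26) (.e (nat_lit 532563) (nat_lit 15) (.e (nat_lit 385068) (nat_lit 26) (.e (nat_lit 532534) (nat_lit 9) (.e (nat_lit 336326) (nat_lit 18) .nil))))) (.g (nat_lit 0) (.e (nat_lit 386792) (nat_lit 0) .nil) .nil))) 
(.lf (nat_lit 585260) (.g (nat_lit 2269) (.e (nat_lit 385074) (nat_lit 31) (.e (nat_lit 573484) (nat_lit 13) (.e (nat_lit 65617) (nat_lit 10) (.e (nat_lit 344133) (nat_lit 26) (.e (nat_lit 557086) (nat_lit 11) (.e (nat_lit 32512) (nat_lit 12) .nil)))))) (.g (nat_lit 1) (.e (nat_lit 387607) (nat_lit 0) .nil) .nil)))) (.nd (nat_lit 9) 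
(.lf (nat_lit 585004) (.g (nat_lit 2908) (.e (nat_lit 385068) (nat_lit 26) (.e (nat_lit 532560) (nat_lit 14) (.e (nat_lit 376842) (nat_lit 11) (.e (nat_lit 426098) (nat_lit 1) (.e (nat_lit 164149) (nat_lit 152) .nil))))) (.g (nat_lit 0) (.e (nat_lit 387167) (nat_lit 0) .nil) .nil))) 
(.lf (nat_lit 585516) (.g (nat_lit 3082) (.e (nat_lit 393225) (nat_lit 9) (.e (nat_lit 335996) (nat_lit 1) (.e (nat_lit 57929) (nat_lit 282) (.e (nat_lit 163869) (nat_lit 2) (.e (nat_lit 196681) (nat_lit 17) (.e (nat_lit 131128) (nat_lit 13) .nil)))))) (.g (nat_lit 1) (.e (nat_lit 388510) (nat_lit 0) .nil) .nil))))) (.nd (nat_lit 8) (.nd (nat_lit 9) 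
(.lf (nat_lit 584876) (.g (nat_lit 2981) (.e (nat_lit 385066) (nat_lit 26) (.e (nat_lit 532565) (nat_lit 15) (.e (nat_lit 385065) (nat_lit 26) (.e (nat_lit 532529) (nat_lit 9) (.e (nat_lit 336324) (nat_lit 18) (.e (nat_lit 204880) (nat_lit 32) .nil)))))) (.g (nat_lit 1) (.e (nat_lit 386969) (nat_lit 0) .nil) .nil))) 
(.lf (nat_lit 585388) (.g (nat_lit 2642) (.e (nat_lit 385093) (nat_lit 49) (.e (nat_lit 778324) (nat_lit 5) (.e (nat_lit 73781) (nat_lit 32) (.e (nat_lit 3090) (nat_lit 191) (.e (nat_lit 483404) (nat_lit 26) .nil))))) (.g (nat_lit 1) (.e (nat_lit 387947) (nat_lit 0) .nil) .nil)))) (.nd (nat_lit 9) 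
(.lf (nat_lit 585132) (.g (nat_lit 3988) (.e (nat_lit 385073) (nat_lit 31) (.e (nat_lit 573482) (nat_lit 13) (.e (nat_lit 65619) (nat_lit 10) (.e (nat_lit 344129) (nat_lit 26) (.e (nat_lit 557087) (nat_lit 11) (.e (nat_lit 24651) (nat_lit 12) .nil)))))) (.g (nat_lit 1) (.e (nat_lit 387377) (nat_lit 0) .nil) .nil))) 
(.lf (nat_lit 585644) (.g (nat_lit 1916) (.e (nat_lit 393251) (nat_lit 18) (.e (nat_lit 164325) (nat_lit 230) (.e (nat_lit 163873) (nat_lit 3) (.e (nat_lit 204811) (nat_lit 9) (.e (nat_lit 426261) (nat_lit 9) (.e (nat_lit 426565) (nat_lit 34) .nil)))))) (.g (nat_lit 1) (.e (nat_lit 388736) (nat_lit 0) .nil) .nil)))))) (.nd (nat_lit 7) (.nd (nat_lit 8) (.nd (nat_lit 9) 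
(.lf (nat_lit 584812) (.g (nat_lit 3245) (.e (nat_lit 385066) (nat_lit 26) (.e (nat_lit 532530) (nat_lit 9) (.e (nat_lit 336326) (nat_lit 18) (.e (nat_lit 204854) (nat_lit 26) (.e (nat_lit 336322) (nat_lit 18) (.e (nat_lit 204880) (nat_lit 32) .nil)))))) (.g (nat_lit 1) (.e (nat_lit 386891) (nat_lit 0) .nil) .nil))) 
(.lf (nat_lit 585324) (.g (nat_lit 2010) (.e (nat_lit 385074) (nat_lit 31) (.e (nat_lit 573493) (nat_lit 15) (.e (nat_lit 81951) (nat_lit 22) (.e (nat_lit 90165) (nat_lit 12) (.e (nat_lit 171776) (nat_lit 187) .nil))))) (.g (nat_lit 0) (.e (nat_lit 387712) (nat_lit 0) .nil) .nil)))) (.nd (nat_lit 9) 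
(.lf (nat_lit 585068) (.g (nat_lit 3409) (.e (nat_lit 385072) (nat_lit 31) (.e (nat_lit 573485) (nat_lit 13) (.e (nat_lit 65619) (nat_lit 10) (.e (nat_lit 344129) (nat_lit 26) (.e (nat_lit 557085) (nat_lit 11) (.e (nat_lit 24650) (nat_lit 12) .nil)))))) (.g (nat_lit 1) (.e (nat_lit 387278) (nat_lit 0) .nil) .nil))) 
(.lf (nat_lit 585580) (.g (nat_lit 875) (.e (nat_lit 393250) (nat_lit 18) (.e (nat_lit 164325) (nat_lit 230) (.e (nat_lit 163875) (nat_lit 3) .nil))) (.g (nat_lit 0) (.e (nat_lit 388649) (nat_lit 0) .nil) .nil))))) (.nd (nat_lit 8) (.nd (nat_lit 9) 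
(.lf (nat_lit 584940) (.g (nat_lit 2267) (.e (nat_lit 385068) (nat_lit 26) (.e (nat_lit 532504) (nat_lit 1) (.e (nat_lit 57854) (nat_lit 252) (.e (nat_lit 57406) (nat_lit 12) (.e (nat_lit 336452) (nat_lit 34) (.e (nat_lit 483403) (nat_lit 26) .nil)))))) (.g (nat_lit 1) (.e (nat_lit 387088) (nat_lit 0) .nil) .nil))) 
(.lf (nat_lit 585452) (.g (nat_lit 573) (.e (nat_lit 385105) (nat_lit 50) (.e (nat_lit 786478) (nat_lit 29) (.e (nat_lit 352280) (nat_lit 20) .nil))) (.g (nat_lit 0) (.e (nat_lit 388093) (nat_lit 0) .nil) .nil)))) (.nd (nat_lit 9) 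
(.lf (nat_lit 585196) (.g (nat_lit 2551) (.e (nat_lit 385073) (nat_lit 31) (.e (nat_lit 573493) (nat_lit 15) (.e (nat_lit 81956) (nat_lit 23) (.e (nat_lit 98323) (nat_lit 17) .nil)))) (.g (nat_lit 0) (.e (nat_lit 387491) (nat_lit 0) .nil) .nil))) 
(.lf (nat_lit 585708) (.g (nat_lit 1501) (.e (nat_lit 393251) (nat_lit 18) (.e (nat_lit 164327) (nat_lit 230) (.e (nat_lit 163873) (nat_lit 3) (.e (nat_lit 212736) (nat_lit 9) .nil)))) (.g (nat_lit 0) (.e (nat_lit 388800) (nat_lit 0) .nil) .nil)))))))) (.nd (nat_lit 5) (.nd (nat_lit 6) (.nd (nat_lit 7) (.nd (nat_lit 8) (.nd (nat_lit 9) 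
(.lf (nat_lit 584732) (.g (nat_lit 484) (.e (nat_lit 385065) (nat_lit 26) (.e (nat_lit 532532) (nat_lit 9) (.e (nat_lit 336325) (nat_lit 18) (.e (nat_lit 204880) (nat_lit 32) .nil)))) (.g (nat_lit 0) (.e (nat_lit 386771) (nat_lit 0) .nil) .nil))) 
(.lf (nat_lit 585244) (.g (nat_lit 2948) (.e (nat_lit 385074) (nat_lit 31) (.e (nat_lit 573484) (nat_lit 13) (.e (nat_lit 65610) (nat_lit 10) (.e (nat_lit 344129) (nat_lit 26) (.e (nat_lit 557085) (nat_lit 11) (.e (nat_lit 24653) (nat_lit 12) .nil)))))) (.g (nat_lit 1) (.e (nat_lit 387568) (nat_lit 0) .nil) .nil)))) (.nd (nat_lit 9) 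
(.lf (nat_lit 584988) (.g (nat_lit 547) (.e (nat_lit 385068) (nat_lit 26) (.e (nat_lit 532534) (nat_lit 9) (.e (nat_lit 336316) (nat_lit 17) .nil))) (.g (nat_lit 0) (.e (nat_lit 387150) (nat_lit 0) .nil) .nil))) 
(.lf (nat_lit 585500) (.g (nat_lit 3843) (.e (nat_lit 393225) (nat_lit 9) (.e (nat_lit 335988) (nat_lit 1) (.e (nat_lit 57926) (nat_lit 282) (.e (nat_lit 163870) (nat_lit 2) (.e (nat_lit 196666) (nat_lit 13) (.e (nat_lit 65625) (nat_lit 13) .nil)))))) (.g (nat_lit 1) (.e (nat_lit 388469) (nat_lit 0) .nil) .nil))))) (.nd (nat_lit 8) (.nd (nat_lit 9) 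
(.lf (nat_lit 584860) (.g (nat_lit 2145) (.e (nat_lit 385066) (nat_lit 26) (.e (nat_lit 532558) (nat_lit 14) (.e (nat_lit 376858) (nat_lit 21) (.e (nat_lit 57688) (nat_lit 156) (.e (nat_lit 163884) (nat_lit 5) (.e (nat_lit 229120) (nat_lit 17) .nil)))))) (.g (nat_lit 1) (.e (nat_lit 386949) (nat_lit 0) .nil) .nil))) 
(.lf (nat_lit 585372) (.g (nat_lit 1957) (.e (nat_lit 385093) (nat_lit 49) (.e (nat_lit 778317) (nat_lit 3) (.e (nat_lit 57476) (nat_lit 28) (.e (nat_lit 557067) (nat_lit 9) (.e (nat_lit 3021) (nat_lit 187) .nil))))) (.g (nat_lit 0) (.e (nat_lit 387920) (nat_lit 0) .nil) .nil)))) (.nd (nat_lit 9) 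
(.lf (nat_lit 585116) (.g (nat_lit 844) (.e (nat_lit 385072) (nat_lit 31) (.e (nat_lit 573493) (nat_lit 15) (.e (nat_lit 81953) (nat_lit 22) (.e (nat_lit 98048) (nat_lit 9) .nil)))) (.g (nat_lit 0) (.e (nat_lit 387352) (nat_lit 0) .nil) .nil))) 
(.lf (nat_lit 585628) (.g (nat_lit 3452) (.e (nat_lit 393251) (nat_lit 18) (.e (nat_lit 164325) (nat_lit 230) (.e (nat_lit 163868) (nat_lit 2) (.e (nat_lit 196654) (nat_lit 11) (.e (nat_lit 16433) (nat_lit 9) (.e (nat_lit 426568) (nat_lit 34) .nil)))))) (.g (nat_lit 1) (.e (nat_lit 388720) (nat_lit 0) .nil) .nil)))))) (.nd (nat_lit 7) (.nd (nat_lit 8) (.nd (nat_lit 9) 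
(.lf (nat_lit 584796) (.g (nat_lit 1076) (.e (nat_lit 385066) (nat_lit 26) (.e (nat_lit 532529) (nat_lit 9) (.e (nat_lit 336324) (nat_lit 18) (.e (nat_lit 204854) (nat_lit 26) .nil)))) (.g (nat_lit 0) (.e (nat_lit 386874) (nat_lit 0) .nil) .nil))) 
(.lf (nat_lit 585308) (.g (nat_lit 819) (.e (nat_lit 385074) (nat_lit 31) (.e (nat_lit 573491) (nat_lit 15) (.e (nat_lit 81954) (nat_lit 23) (.e (nat_lit 98321) (nat_lit 17) .nil)))) (.g (nat_lit 0) (.e (nat_lit 387693) (nat_lit 0) .nil) .nil)))) (.nd (nat_lit 9) 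
(.lf (nat_lit 585052) (.g (nat_lit 903) (.e (nat_lit 385072) (nat_lit 31) (.e (nat_lit 573482) (nat_lit 13) (.e (nat_lit 65609) (nat_lit 10) .nil))) (.g (nat_lit 0) (.e (nat_lit 387258) (nat_lit 0) .nil) .nil))) 
(.lf (nat_lit 585564) (.g (nat_lit 2464) (.e (nat_lit 393233) (nat_lit 17) (.e (nat_lit 7591) (nat_lit 407) (.e (nat_lit 73773) (nat_lit 25) (.e (nat_lit 770072) (nat_lit 8) (.e (nat_lit 65627) (nat_lit 13) .nil))))) (.g (nat_lit 1) (.e (nat_lit 388618) (nat_lit 0) .nil) .nil))))) (.nd (nat_lit 8) (.nd (nat_lit 9) 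
(.lf (nat_lit 584924) (.g (nat_lit 1652) (.e (nat_lit 385068) (nat_lit 26) (.e (nat_lit 532503) (nat_lit 1) (.e (nat_lit 57931) (nat_lit 282) (.e (nat_lit 163878) (nat_lit 4) .nil)))) (.g (nat_lit 0) (.e (nat_lit 387065) (nat_lit 0) .nil) .nil))) 
(.lf (nat_lit 585436) (.g (nat_lit 1290) (.e (nat_lit 385102) (nat_lit 50) (.e (nat_lit 786483) (nat_lit 30) (.e (nat_lit 360451) (nat_lit 0) (.e (nat_lit 5444) (nat_lit 306) .nil)))) (.g (nat_lit 0) (.e (nat_lit 388050) (nat_lit 0) .nil) .nil)))) (.nd (nat_lit 9) 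
(.lf (nat_lit 585180) (.g (nat_lit 4839) (.e (nat_lit 385073) (nat_lit 31) (.e (nat_lit 573493) (nat_lit 15) (.e (nat_lit 81953) (nat_lit 22) (.e (nat_lit 90137) (nat_lit 9) .nil)))) (.g (nat_lit 0) (.e (nat_lit 387474) (nat_lit 0) .nil) .nil))) 
(.lf (nat_lit 585692) (.g (nat_lit 2123) (.e (nat_lit 393251) (nat_lit 18) (.e (nat_lit 164327) (nat_lit 230) (.e (nat_lit 163873) (nat_lit 3) (.e (nat_lit 204811) (nat_lit 9) (.e (nat_lit 426259) (nat_lit 9) (.e (nat_lit 426563) (nat_lit 34) .nil)))))) (.g (nat_lit 1) (.e (nat_lit 388784) (nat_lit 0) .nil) .nil))))))) (.nd (nat_lit 6) (.nd (nat_lit 7) (.nd (nat_lit 8) (.nd (nat_lit 9) 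
(.lf (nat_lit 584764) (.g (nat_lit 2523) (.e (nat_lit 385066) (nat_lit 26) (.e (nat_lit 532502) (nat_lit 1) (.e (nat_lit 57854) (nat_lit 252) (.e (nat_lit 57409) (nat_lit 12) (.e (nat_lit 336452) (nat_lit 34) .nil))))) (.g (nat_lit 0) (.e (nat_lit 386828) (nat_lit 0) .nil) .nil))) 
(.lf (nat_lit 585276) (.g (nat_lit 2641) (.e (nat_lit 385074) (nat_lit 31) (.e (nat_lit 573485) (nat_lit 13) (.e (nat_lit 65619) (nat_lit 10) (.e (nat_lit 344129) (nat_lit 26) (.e (nat_lit 557085) (nat_lit 11) (.e (nat_lit 24653) (nat_lit 12) .nil)))))) (.g (nat_lit 1) (.e (nat_lit 387642) (nat_lit 0) .nil) .nil)))) (.nd (nat_lit 9) 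
(.lf (nat_lit 585020) (.g (nat_lit 2322) (.e (nat_lit 385068) (nat_lit 26) (.e (nat_lit 532563) (nat_lit 15) (.e (nat_lit 385068) (nat_lit 26) (.e (nat_lit 532566) (nat_lit 15) (.e (nat_lit 385066) (nat_lit 26) (.e (nat_lit 532566) (nat_lit 15) .nil)))))) (.g (nat_lit 1) (.e (nat_lit 387184) (nat_lit 0) .nil) .nil))) 
(.lf (nat_lit 585532) (.g (nat_lit 1368) (.e (nat_lit 393229) (nat_lit 9) (.e (nat_lit 335988) (nat_lit 1) (.e (nat_lit 57926) (nat_lit 282) (.e (nat_lit 163867) (nat_lit 2) .nil)))) (.g (nat_lit 0) (.e (nat_lit 388540) (nat_lit 0) .nil) .nil))))) (.nd (nat_lit 8) (.nd (nat_lit 9) 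
(.lf (nat_lit 584892) (.g (nat_lit 1206) (.e (nat_lit 385067) (nat_lit 26) (.e (nat_lit 532530) (nat_lit 9) (.e (nat_lit 336316) (nat_lit 17) (.e (nat_lit 196630) (nat_lit 9) .nil)))) (.g (nat_lit 0) (.e (nat_lit 387005) (nat_lit 0) .nil) .nil))) 
(.lf (nat_lit 585404) (.g (nat_lit 1952) (.e (nat_lit 385094) (nat_lit 49) (.e (nat_lit 778323) (nat_lit 5) (.e (nat_lit 73781) (nat_lit 32) (.e (nat_lit 3088) (nat_lit 191) (.e (nat_lit 491264) (nat_lit 26) .nil))))) (.g (nat_lit 1) (.e (nat_lit 387982) (nat_lit 0) .nil) .nil)))) (.nd (nat_lit 9) 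
(.lf (nat_lit 585148) (.g (nat_lit 1139) (.e (nat_lit 385073) (nat_lit 31) (.e (nat_lit 573491) (nat_lit 15) (.e (nat_lit 81953) (nat_lit 22) (.e (nat_lit 90134) (nat_lit 9) .nil)))) (.g (nat_lit 0) (.e (nat_lit 387419) (nat_lit 0) .nil) .nil))) 
(.lf (nat_lit 585660) (.g (nat_lit 1810) (.e (nat_lit 393251) (nat_lit 18) (.e (nat_lit 164325) (nat_lit 230) (.e (nat_lit 163875) (nat_lit 3) (.e (nat_lit 204811) (nat_lit 9) (.e (nat_lit 426261) (nat_lit 9) (.e (nat_lit 433920) (nat_lit 34) .nil)))))) (.g (nat_lit 1) (.e (nat_lit 388752) (nat_lit 0) .nil) .nil)))))) (.nd (nat_lit 7) (.nd (nat_lit 8) (.nd (nat_lit 9) 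
(.lf (nat_lit 584828) (.g (nat_lit 2602) (.e (nat_lit 385066) (nat_lit 26) (.e (nat_lit 532533) (nat_lit 9) (.e (nat_lit 336324) (nat_lit 18) (.e (nat_lit 204854) (nat_lit 26) (.e (nat_lit 336306) (nat_lit 15) (.e (nat_lit 3238) (nat_lit 197) (.e (nat_lit 532563) (nat_lit 15) .nil))))))) (.g (nat_lit 1) (.e (nat_lit 386908) (nat_lit 0) .nil) .nil))) 
(.lf (nat_lit 585340) (.g (nat_lit 1819) (.e (nat_lit 385074) (nat_lit 31) (.e (nat_lit 573493) (nat_lit 15) (.e (nat_lit 81954) (nat_lit 23) (.e (nat_lit 98320) (nat_lit 17) .nil)))) (.g (nat_lit 0) (.e (nat_lit 387729) (nat_lit 0) .nil) .nil)))) (.nd (nat_lit 9) 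
(.lf (nat_lit 585084) (.g (nat_lit 1963) (.e (nat_lit 385072) (nat_lit 31) (.e (nat_lit 573492) (nat_lit 15) (.e (nat_lit 81953) (nat_lit 22) (.e (nat_lit 90133) (nat_lit 9) .nil)))) (.g (nat_lit 0) (.e (nat_lit 387311) (nat_lit 0) .nil) .nil))) 
(.lf (nat_lit 585596) (.g (nat_lit 1998) (.e (nat_lit 393250) (nat_lit 18) (.e (nat_lit 164398) (nat_lit 256) (.e (nat_lit 57372) (nat_lit 2) (.e (nat_lit 90185) (nat_lit 17) (.e (nat_lit 237605) (nat_lit 9) .nil))))) (.g (nat_lit 0) (.e (nat_lit 388665) (nat_lit 0) .nil) .nil))))) (.nd (nat_lit 8) (.nd (nat_lit 9) 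
(.lf (nat_lit 584956) (.g (nat_lit 3060) (.e (nat_lit 385068) (nat_lit 26) (.e (nat_lit 532513) (nat_lit 3) (.e (nat_lit 114698) (nat_lit 11) (.e (nat_lit 426139) (nat_lit 3) (.e (nat_lit 204850) (nat_lit 26) (.e (nat_lit 336205) (nat_lit 12) .nil)))))) (.g (nat_lit 1) (.e (nat_lit 387106) (nat_lit 0) .nil) .nil))) 
(.lf (nat_lit 585468) (.g (nat_lit 3230) (.e (nat_lit 385107) (nat_lit 51) (.e (nat_lit 794669) (nat_lit 22) (.e (nat_lit 196654) (nat_lit 11) (.e (nat_lit 16436) (nat_lit 9) (.e (nat_lit 426131) (nat_lit 3) (.e (nat_lit 204880) (nat_lit 32) .nil)))))) (.g (nat_lit 1) (.e (nat_lit 388185) (nat_lit 0) .nil) .nil)))) (.nd (nat_lit 9) 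
(.lf (nat_lit 585212) (.g (nat_lit 3159) (.e (nat_lit 385074) (nat_lit 31) (.e (nat_lit 573481) (nat_lit 13) (.e (nat_lit 65630) (nat_lit 14) (.e (nat_lit 401425) (nat_lit 2) (.e (nat_lit 196681) (nat_lit 17) (.e (nat_lit 131120) (nat_lit 12) .nil)))))) (.g (nat_lit 1) (.e (nat_lit 387520) (nat_lit 0) .nil) .nil))) 
(.lf (nat_lit 585724) (.g (nat_lit 2085) (.e (nat_lit 393251) (nat_lit 18) (.e (nat_lit 164332) (nat_lit 230) (.e (nat_lit 163867) (nat_lit 2) (.e (nat_lit 196624) (nat_lit 9) (.e (nat_lit 459) (nat_lit 34) (.e (nat_lit 450304) (nat_lit 18) .nil)))))) (.g (nat_lit 1) (.e (nat_lit 388816) (nat_lit 0) .nil) .nil))))))))))) 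
(.nd (nat_lit 2) (.nd (nat_lit 3) (.nd (nat_lit 4) (.nd (nat_lit 5) (.nd (nat_lit 6) 
(.nd (nat_lit 7) (.nd (nat_lit 8) (.nd (nat_lit 9) 
(.lf (nat_lit 584706) (.g (nat_lit 1539) (.e (nat_lit 385064) (nat_lit 26) (.e (nat_lit 532530) (nat_lit 9) (.e (nat_lit 336326) (nat_lit 18) (.e (nat_lit 204854) (nat_lit 26) .nil)))) (.g (nat_lit 0) (.e (nat_lit 386706) (nat_lit 0) .nil) .nil))) 
(.lf (nat_lit 585218) (.g (nat_lit 1131) (.e (nat_lit 385074) (nat_lit 31) (.e (nat_lit 573482) (nat_lit 13) (.e (nat_lit 65621) (nat_lit 11) .nil))) (.g (nat_lit 0) (.e (nat_lit 387527) (nat_lit 0) .nil) .nil)))) (.nd (nat_lit 9) 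
(.lf (nat_lit 584962) (.g (nat_lit 1827) (.e (nat_lit 385068) (nat_lit 26) (.e (nat_lit 532515) (nat_lit 3) (.e (nat_lit 114694) (nat_lit 11) (.e (nat_lit 426116) (nat_lit 2) (.e (nat_lit 196681) (nat_lit 17) (.e (nat_lit 131123) (nat_lit 12) .nil)))))) (.g (nat_lit 1) (.e (nat_lit 387118) (nat_lit 0) .nil) .nil))) 
(.lf (nat_lit 585474) (.g (nat_lit 1740) (.e (nat_lit 385109) (nat_lit 51) (.e (nat_lit 794664) (nat_lit 22) (.e (nat_lit 196656) (nat_lit 11) (.e (nat_lit 16436) (nat_lit 9) (.e (nat_lit 426131) (nat_lit 3) .nil))))) (.g (nat_lit 0) (.e (nat_lit 388285) (nat_lit 0) .nil) .nil))))) (.nd (nat_lit 8) (.nd (nat_lit 9) 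
(.lf (nat_lit 584834) (.g (nat_lit 632) (.e (nat_lit 385066) (nat_lit 26) (.e (nat_lit 532534) (nat_lit 9) (.e (nat_lit 336258) (nat_lit 15) .nil))) (.g (nat_lit 0) (.e (nat_lit 386918) (nat_lit 0) .nil) .nil))) 
(.lf (nat_lit 585346) (.g (nat_lit 1912) (.e (nat_lit 385074) (nat_lit 31) (.e (nat_lit 573493) (nat_lit 15) (.e (nat_lit 81956) (nat_lit 23) (.e (nat_lit 98320) (nat_lit 17) .nil)))) (.g (nat_lit 0) (.e (nat_lit 387735) (nat_lit 0) .nil) .nil)))) (.nd (nat_lit 9) 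
(.lf (nat_lit 585090) (.g (nat_lit 4243) (.e (nat_lit 385072) (nat_lit 31) (.e (nat_lit 573492) (nat_lit 15) (.e (nat_lit 81953) (nat_lit 22) (.e (nat_lit 90147) (nat_lit 9) .nil)))) (.g (nat_lit 0) (.e (nat_lit 387317) (nat_lit 0) .nil) .nil))) 
(.lf (nat_lit 585602) (.g (nat_lit 1334) (.e (nat_lit 393250) (nat_lit 18) (.e (nat_lit 164399) (nat_lit 256) (.e (nat_lit 57378) (nat_lit 3) (.e (nat_lit 98363) (nat_lit 26) (.e (nat_lit 426228) (nat_lit 9) .nil))))) (.g (nat_lit 0) (.e (nat_lit 388671) (nat_lit 0) .nil) .nil)))))) (.nd (nat_lit 7) (.nd (nat_lit 8) (.nd (nat_lit 9) 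
(.lf (nat_lit 584770) (.g (nat_lit 1561) (.e (nat_lit 385066) (nat_lit 26) (.e (nat_lit 532504) (nat_lit 1) (.e (nat_lit 57830) (nat_lit 250) (.e (nat_lit 1201) (nat_lit 88) (.e (nat_lit 65639) (nat_lit 15) .nil))))) (.g (nat_lit 0) (.e (nat_lit 386836) (nat_lit 0) .nil) .nil))) 
(.lf (nat_lit 585282) (.g (nat_lit 3655) (.e (nat_lit 385074) (nat_lit 31) (.e (nat_lit 573485) (nat_lit 13) (.e (nat_lit 65628) (nat_lit 14) (.e (nat_lit 401425) (nat_lit 2) (.e (nat_lit 196681) (nat_lit 17) (.e (nat_lit 131123) (nat_lit 12) .nil)))))) (.g (nat_lit 1) (.e (nat_lit 387648) (nat_lit 0) .nil) .nil)))) (.nd (nat_lit 9) 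
(.lf (nat_lit 585026) (.g (nat_lit 1688) (.e (nat_lit 392960) (nat_lit 26) (.e (nat_lit 532500) (nat_lit 1) (.e (nat_lit 57851) (nat_lit 252) (.e (nat_lit 57406) (nat_lit 12) .nil)))) (.g (nat_lit 0) (.e (nat_lit 387196) (nat_lit 0) .nil) .nil))) 
(.lf (nat_lit 585538) (.g (nat_lit 2474) (.e (nat_lit 393229) (nat_lit 9) (.e (nat_lit 335988) (nat_lit 1) (.e (nat_lit 57927) (nat_lit 282) (.e (nat_lit 163869) (nat_lit 2) (.e (nat_lit 196681) (nat_lit 17) (.e (nat_lit 131124) (nat_lit 13) .nil)))))) (.g (nat_lit 1) (.e (nat_lit 388550) (nat_lit 0) .nil) .nil))))) (.nd (nat_lit 8) (.nd (nat_lit 9) 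
(.lf (nat_lit 584898) (.g (nat_lit 2835) (.e (nat_lit 385067) (nat_lit 26) (.e (nat_lit 532530) (nat_lit 9) (.e (nat_lit 336326) (nat_lit 18) (.e (nat_lit 204882) (nat_lit 32) (.e (nat_lit 385066) (nat_lit 26) (.e (nat_lit 532565) (nat_lit 15) .nil)))))) (.g (nat_lit 1) (.e (nat_lit 387014) (nat_lit 0) .nil) .nil))) 
(.lf (nat_lit 585410) (.g (nat_lit 3526) (.e (nat_lit 385094) (nat_lit 49) (.e (nat_lit 778323) (nat_lit 5) (.e (nat_lit 73782) (nat_lit 32) (.e (nat_lit 2857) (nat_lit 184) (.e (nat_lit 426482) (nat_lit 27) (.e (nat_lit 336198) (nat_lit 12) .nil)))))) (.g (nat_lit 1) (.e (nat_lit 387988) (nat_lit 0) .nil) .nil)))) (.nd (nat_lit 9) 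
(.lf (nat_lit 585154) (.g (nat_lit 970) (.e (nat_lit 385073) (nat_lit 31) (.e (nat_lit 573493) (nat_lit 15) (.e (nat_lit 81928) (nat_lit 20) .nil))) (.g (nat_lit 0) (.e (nat_lit 387426) (nat_lit 0) .nil) .nil))) 
(.lf (nat_lit 585666) (.g (nat_lit 2305) (.e (nat_lit 393251) (nat_lit 18) (.e (nat_lit 164327) (nat_lit 230) (.e (nat_lit 163868) (nat_lit 2) (.e (nat_lit 196624) (nat_lit 9) (.e (nat_lit 433) (nat_lit 32) .nil))))) (.g (nat_lit 0) (.e (nat_lit 388758) (nat_lit 0) .nil) .nil))))))) (.nd (nat_lit 6) (.nd (nat_lit 7) (.nd (nat_lit 8) (.nd (nat_lit 9) 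
(.lf (nat_lit 584738) (.g (nat_lit 3364) (.e (nat_lit 385065) (nat_lit 26) (.e (nat_lit 532547) (nat_lit 11) (.e (nat_lit 352309) (nat_lit 21) (.e (nat_lit 57687) (nat_lit 156) (.e (nat_lit 163886) (nat_lit 5) (.e (nat_lit 229120) (nat_lit 17) .nil)))))) (.g (nat_lit 1) (.e (nat_lit 386780) (nat_lit 0) .nil) .nil))) 
(.lf (nat_lit 585250) (.g (nat_lit 1060) (.e (nat_lit 385074) (nat_lit 31) (.e (nat_lit 573484) (nat_lit 13) (.e (nat_lit 65617) (nat_lit 10) (.e (nat_lit 344126) (nat_lit 25) .nil)))) (.g (nat_lit 0) (.e (nat_lit 387574) (nat_lit 0) .nil) .nil)))) (.nd (nat_lit 9) 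
(.lf (nat_lit 584994) (.g (nat_lit 2749) (.e (nat_lit 385068) (nat_lit 26) (.e (nat_lit 532534) (nat_lit 9) (.e (nat_lit 336324) (nat_lit 18) (.e (nat_lit 204880) (nat_lit 32) (.e (nat_lit 385066) (nat_lit 26) (.e (nat_lit 532566) (nat_lit 15) .nil)))))) (.g (nat_lit 1) (.e (nat_lit 387156) (nat_lit 0) .nil) .nil))) 
(.lf (nat_lit 585506) (.g (nat_lit 665) (.e (nat_lit 393225) (nat_lit 9) (.e (nat_lit 335995) (nat_lit 1) (.e (nat_lit 57910) (nat_lit 278) .nil))) (.g (nat_lit 0) (.e (nat_lit 388483) (nat_lit 0) .nil) .nil))))) (.nd (nat_lit 8) (.nd (nat_lit 9) 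
(.lf (nat_lit 584866) (.g (nat_lit 2700) (.e (nat_lit 385066) (nat_lit 26) (.e (nat_lit 532560) (nat_lit 14) (.e (nat_lit 376859) (nat_lit 21) (.e (nat_lit 57688) (nat_lit 156) (.e (nat_lit 163886) (nat_lit 5) (.e (nat_lit 229120) (nat_lit 17) .nil)))))) (.g (nat_lit 1) (.e (nat_lit 386955) (nat_lit 0) .nil) .nil))) 
(.lf (nat_lit 585378) (.g (nat_lit 5727) (.e (nat_lit 385093) (nat_lit 49) (.e (nat_lit 778317) (nat_lit 3) (.e (nat_lit 57480) (nat_lit 28) (.e (nat_lit 557067) (nat_lit 9) (.e (nat_lit 3022) (nat_lit 187) (.e (nat_lit 450580) (nat_lit 5) (.e (nat_lit 532563) (nat_lit 15) .nil))))))) (.g (nat_lit 1) (.e (nat_lit 387927) (nat_lit 0) .nil) .nil)))) (.nd (nat_lit 9) 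
(.lf (nat_lit 585122) (.g (nat_lit 4472) (.e (nat_lit 385072) (nat_lit 31) (.e (nat_lit 573493) (nat_lit 15) (.e (nat_lit 81956) (nat_lit 23) (.e (nat_lit 98320) (nat_lit 17) .nil)))) (.g (nat_lit 0) (.e (nat_lit 387360) (nat_lit 0) .nil) .nil))) 
(.lf (nat_lit 585634) (.g (nat_lit 1654) (.e (nat_lit 393251) (nat_lit 18) (.e (nat_lit 164325) (nat_lit 230) (.e (nat_lit 163871) (nat_lit 2) (.e (nat_lit 196624) (nat_lit 9) (.e (nat_lit 433) (nat_lit 32) .nil))))) (.g (nat_lit 0) (.e (nat_lit 388726) (nat_lit 0) .nil) .nil)))))) (.nd (nat_lit 7) (.nd (nat_lit 8) (.nd (nat_lit 9) 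
(.lf (nat_lit 584802) (.g (nat_lit 2725) (.e (nat_lit 385066) (nat_lit 26) (.e (nat_lit 532530) (nat_lit 9) (.e (nat_lit 336325) (nat_lit 18) (.e (nat_lit 204880) (nat_lit 32) (.e (nat_lit 385066) (nat_lit 26) (.e (nat_lit 532566) (nat_lit 15) .nil)))))) (.g (nat_lit 1) (.e (nat_lit 386881) (nat_lit 0) .nil) .nil))) 
(.lf (nat_lit 585314) (.g (nat_lit 1073) (.e (nat_lit 385074) (nat_lit 31) (.e (nat_lit 573493) (nat_lit 15) (.e (nat_lit 81922) (nat_lit 0) (.e (nat_lit 3305) (nat_lit 202) .nil)))) (.g (nat_lit 0) (.e (nat_lit 387699) (nat_lit 0) .nil) .nil)))) (.nd (nat_lit 9) 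
(.lf (nat_lit 585058) (.g (nat_lit 4298) (.e (nat_lit 385072) (nat_lit 31) (.e (nat_lit 573482) (nat_lit 13) (.e (nat_lit 65619) (nat_lit 10) (.e (nat_lit 344129) (nat_lit 26) (.e (nat_lit 557087) (nat_lit 11) (.e (nat_lit 24649) (nat_lit 12) .nil)))))) (.g (nat_lit 1) (.e (nat_lit 387264) (nat_lit 0) .nil) .nil))) 
(.lf (nat_lit 585570) (.g (nat_lit 2677) (.e (nat_lit 393238) (nat_lit 17) (.e (nat_lit 2400) (nat_lit 157) (.e (nat_lit 5604) (nat_lit 310) (.e (nat_lit 163843) (nat_lit 0) (.e (nat_lit 3222) (nat_lit 196) (.e (nat_lit 524319) (nat_lit 11) (.e (nat_lit 450304) (nat_lit 18) .nil))))))) (.g (nat_lit 1) (.e (nat_lit 388627) (nat_lit 0) .nil) .nil))))) (.nd (nat_lit 8) (.nd (nat_lit 9) 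
(.lf (nat_lit 584930) (.g (nat_lit 2866) (.e (nat_lit 385068) (nat_lit 26) (.e (nat_lit 532504) (nat_lit 1) (.e (nat_lit 57852) (nat_lit 252) (.e (nat_lit 57406) (nat_lit 12) (.e (nat_lit 336379) (nat_lit 27) .nil))))) (.g (nat_lit 0) (.e (nat_lit 387075) (nat_lit 0) .nil) .nil))) 
(.lf (nat_lit 585442) (.g (nat_lit 1393) (.e (nat_lit 385103) (nat_lit 50) (.e (nat_lit 786480) (nat_lit 29) (.e (nat_lit 352316) (nat_lit 24) (.e (nat_lit 123198) (nat_lit 266) .nil)))) (.g (nat_lit 0) (.e (nat_lit 388062) (nat_lit 0) .nil) .nil)))) (.nd (nat_lit 9) 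
(.lf (nat_lit 585186) (.g (nat_lit 2391) (.e (nat_lit 385073) (nat_lit 31) (.e (nat_lit 573493) (nat_lit 15) (.e (nat_lit 81953) (nat_lit 22) (.e (nat_lit 90187) (nat_lit 18) .nil)))) (.g (nat_lit 0) (.e (nat_lit 387480) (nat_lit 0) .nil) .nil))) 
(.lf (nat_lit 585698) (.g (nat_lit 3389) (.e (nat_lit 393251) (nat_lit 18) (.e (nat_lit 164327) (nat_lit 230) (.e (nat_lit 163873) (nat_lit 3) (.e (nat_lit 204813) (nat_lit 9) (.e (nat_lit 426187) (nat_lit 9) .nil))))) (.g (nat_lit 0) (.e (nat_lit 388790) (nat_lit 0) .nil) .nil)))))))) (.nd (nat_lit 5) (.nd (nat_lit 6) (.nd (nat_lit 7) (.nd (nat_lit 8) (.nd (nat_lit 9) 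
(.lf (nat_lit 584722) (.g (nat_lit 2353) (.e (nat_lit 385065) (nat_lit 26) (.e (nat_lit 532530) (nat_lit 9) (.e (nat_lit 336324) (nat_lit 18) (.e (nat_lit 204881) (nat_lit 32) (.e (nat_lit 385066) (nat_lit 26) (.e (nat_lit 532565) (nat_lit 15) .nil)))))) (.g (nat_lit 1) (.e (nat_lit 386761) (nat_lit 0) .nil) .nil))) 
(.lf (nat_lit 585234) (.g (nat_lit 1828) (.e (nat_lit 385074) (nat_lit 31) (.e (nat_lit 573484) (nat_lit 13) (.e (nat_lit 65610) (nat_lit 10) (.e (nat_lit 344117) (nat_lit 21) (.e (nat_lit 516106) (nat_lit 0) .nil))))) (.g (nat_lit 0) (.e (nat_lit 387552) (nat_lit 0) .nil) .nil)))) (.nd (nat_lit 9) 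
(.lf (nat_lit 584978) (.g (nat_lit 401) (.e (nat_lit 385068) (nat_lit 26) (.e (nat_lit 532530) (nat_lit 9) (.e (nat_lit 336326) (nat_lit 18) .nil))) (.g (nat_lit 0) (.e (nat_lit 387139) (nat_lit 0) .nil) .nil))) 
(.lf (nat_lit 585490) (.g (nat_lit 1322) (.e (nat_lit 393224) (nat_lit 9) (.e (nat_lit 335996) (nat_lit 1) (.e (nat_lit 57931) (nat_lit 282) (.e (nat_lit 163867) (nat_lit 2) .nil)))) (.g (nat_lit 0) (.e (nat_lit 388442) (nat_lit 0) .nil) .nil))))) (.nd (nat_lit 8) (.nd (nat_lit 9) 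
(.lf (nat_lit 584850) (.g (nat_lit 1844) (.e (nat_lit 385066) (nat_lit 26) (.e (nat_lit 532534) (nat_lit 9) (.e (nat_lit 336326) (nat_lit 18) (.e (nat_lit 204880) (nat_lit 32) (.e (nat_lit 385065) (nat_lit 26) .nil))))) (.g (nat_lit 0) (.e (nat_lit 386936) (nat_lit 0) .nil) .nil))) 
(.lf (nat_lit 585362) (.g (nat_lit 1912) (.e (nat_lit 385091) (nat_lit 49) (.e (nat_lit 778323) (nat_lit 5) (.e (nat_lit 73782) (nat_lit 32) (.e (nat_lit 3088) (nat_lit 191) (.e (nat_lit 483408) (nat_lit 26) .nil))))) (.g (nat_lit 1) (.e (nat_lit 387898) (nat_lit 0) .nil) .nil)))) (.nd (nat_lit 9) 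
(.lf (nat_lit 585106) (.g (nat_lit 4711) (.e (nat_lit 385072) (nat_lit 31) (.e (nat_lit 573493) (nat_lit 15) (.e (nat_lit 81953) (nat_lit 22) (.e (nat_lit 90131) (nat_lit 9) .nil)))) (.g (nat_lit 0) (.e (nat_lit 387342) (nat_lit 0) .nil) .nil))) 
(.lf (nat_lit 585618) (.g (nat_lit 1795) (.e (nat_lit 393251) (nat_lit 18) (.e (nat_lit 164325) (nat_lit 230) (.e (nat_lit 163868) (nat_lit 2) (.e (nat_lit 196624) (nat_lit 9) (.e (nat_lit 433) (nat_lit 32) .nil))))) (.g (nat_lit 0) (.e (nat_lit 388710) (nat_lit 0) .nil) .nil)))))) (.nd (nat_lit 7) (.nd (nat_lit 8) (.nd (nat_lit 9) 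
(.lf (nat_lit 584786) (.g (nat_lit 2515) (.e (nat_lit 385066) (nat_lit 26) (.e (nat_lit 532515) (nat_lit 3) (.e (nat_lit 114694) (nat_lit 11) (.e (nat_lit 426139) (nat_lit 3) (.e (nat_lit 204859) (nat_lit 26) (.e (nat_lit 336206) (nat_lit 12) .nil)))))) (.g (nat_lit 1) (.e (nat_lit 386864) (nat_lit 0) .nil) .nil))) 
(.lf (nat_lit 585298) (.g (nat_lit 557) (.e (nat_lit 385074) (nat_lit 31) (.e (nat_lit 573491) (nat_lit 15) (.e (nat_lit 81928) (nat_lit 20) .nil))) (.g (nat_lit 0) (.e (nat_lit 387682) (nat_lit 0) .nil) .nil)))) (.nd (nat_lit 9) 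
(.lf (nat_lit 585042) (.g (nat_lit 3664) (.e (nat_lit 385072) (nat_lit 31) (.e (nat_lit 573481) (nat_lit 13) (.e (nat_lit 65619) (nat_lit 10) (.e (nat_lit 344129) (nat_lit 26) (.e (nat_lit 557086) (nat_lit 11) (.e (nat_lit 24650) (nat_lit 12) .nil)))))) (.g (nat_lit 1) (.e (nat_lit 387248) (nat_lit 0) .nil) .nil))) 
(.lf (nat_lit 585554) (.g (nat_lit 2184) (.e (nat_lit 393229) (nat_lit 9) (.e (nat_lit 336033) (nat_lit 4) (.e (nat_lit 123195) (nat_lit 266) (.e (nat_lit 57371) (nat_lit 2) (.e (nat_lit 90196) (nat_lit 18) (.e (nat_lit 2787) (nat_lit 179) (.e (nat_lit 294959) (nat_lit 13) .nil))))))) (.g (nat_lit 1) (.e (nat_lit 388574) (nat_lit 0) .nil) .nil))))) (.nd (nat_lit 8) (.nd (nat_lit 9) 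
(.lf (nat_lit 584914) (.g (nat_lit 2134) (.e (nat_lit 385068) (nat_lit 26) (.e (nat_lit 532501) (nat_lit 1) (.e (nat_lit 57852) (nat_lit 252) (.e (nat_lit 57417) (nat_lit 12) (.e (nat_lit 336396) (nat_lit 27) .nil))))) (.g (nat_lit 0) (.e (nat_lit 387045) (nat_lit 0) .nil) .nil))) 
(.lf (nat_lit 585426) (.g (nat_lit 719) (.e (nat_lit 385102) (nat_lit 50) (.e (nat_lit 786481) (nat_lit 30) (.e (nat_lit 360449) (nat_lit 0) (.e (nat_lit 5896) (nat_lit 320) .nil)))) (.g (nat_lit 0) (.e (nat_lit 388031) (nat_lit 0) .nil) .nil)))) (.nd (nat_lit 9) 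
(.lf (nat_lit 585170) (.g (nat_lit 4997) (.e (nat_lit 385073) (nat_lit 31) (.e (nat_lit 573493) (nat_lit 15) (.e (nat_lit 81953) (nat_lit 22) (.e (nat_lit 90123) (nat_lit 9) .nil)))) (.g (nat_lit 0) (.e (nat_lit 387464) (nat_lit 0) .nil) .nil))) 
(.lf (nat_lit 585682) (.g (nat_lit 1585) (.e (nat_lit 393251) (nat_lit 18) (.e (nat_lit 164327) (nat_lit 230) (.e (nat_lit 163871) (nat_lit 2) (.e (nat_lit 196654) (nat_lit 11) (.e (nat_lit 16437) (nat_lit 9) .nil))))) (.g (nat_lit 0) (.e (nat_lit 388774) (nat_lit 0) .nil) .nil))))))) (.nd (nat_lit 6) (.nd (nat_lit 7) (.nd (nat_lit 8) (.nd (nat_lit 9) 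
(.lf (nat_lit 584754) (.g (nat_lit 1319) (.e (nat_lit 385066) (nat_lit 26) (.e (nat_lit 532499) (nat_lit 1) (.e (nat_lit 57927) (nat_lit 282) .nil))) (.g (nat_lit 0) (.e (nat_lit 386805) (nat_lit 0) .nil) .nil))) 
(.lf (nat_lit 585266) (.g (nat_lit 1296) (.e (nat_lit 385074) (nat_lit 31) (.e (nat_lit 573484) (nat_lit 13) (.e (nat_lit 65628) (nat_lit 14) (.e (nat_lit 401427) (nat_lit 3) .nil)))) (.g (nat_lit 0) (.e (nat_lit 387616) (nat_lit 0) .nil) .nil)))) (.nd (nat_lit 9) 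
(.lf (nat_lit 585010) (.g (nat_lit 2821) (.e (nat_lit 385068) (nat_lit 26) (.e (nat_lit 532560) (nat_lit 14) (.e (nat_lit 376859) (nat_lit 21) (.e (nat_lit 57686) (nat_lit 156) (.e (nat_lit 163885) (nat_lit 5) (.e (nat_lit 229120) (nat_lit 17) .nil)))))) (.g (nat_lit 1) (.e (nat_lit 387173) (nat_lit 0) .nil) .nil))) 
(.lf (nat_lit 585522) (.g (nat_lit 2063) (.e (nat_lit 393229) (nat_lit 9) (.e (nat_lit 335986) (nat_lit 1) (.e (nat_lit 57847) (nat_lit 252) (.e (nat_lit 57374) (nat_lit 2) (.e (nat_lit 90159) (nat_lit 11) (.e (nat_lit 24657) (nat_lit 13) .nil)))))) (.g (nat_lit 1) (.e (nat_lit 388520) (nat_lit 0) .nil) .nil))))) (.nd (nat_lit 8) (.nd (nat_lit 9) 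
(.lf (nat_lit 584882) (.g (nat_lit 3196) (.e (nat_lit 385066) (nat_lit 26) (.e (nat_lit 532565) (nat_lit 15) (.e (nat_lit 385068) (nat_lit 26) (.e (nat_lit 532530) (nat_lit 9) (.e (nat_lit 336324) (nat_lit 18) (.e (nat_lit 204880) (nat_lit 32) .nil)))))) (.g (nat_lit 1) (.e (nat_lit 386976) (nat_lit 0) .nil) .nil))) 
(.lf (nat_lit 585394) (.g (nat_lit 3539) (.e (nat_lit 385094) (nat_lit 49) (.e (nat_lit 778317) (nat_lit 3) (.e (nat_lit 57477) (nat_lit 28) (.e (nat_lit 557067) (nat_lit 9) (.e (nat_lit 3022) (nat_lit 187) (.e (nat_lit 450580) (nat_lit 5) (.e (nat_lit 532566) (nat_lit 15) .nil))))))) (.g (nat_lit 1) (.e (nat_lit 387957) (nat_lit 0) .nil) .nil)))) (.nd (nat_lit 9) 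
(.lf (nat_lit 585138) (.g (nat_lit 3553) (.e (nat_lit 385073) (nat_lit 31) (.e (nat_lit 573484) (nat_lit 13) (.e (nat_lit 65610) (nat_lit 10) (.e (nat_lit 344129) (nat_lit 26) (.e (nat_lit 557085) (nat_lit 11) (.e (nat_lit 24653) (nat_lit 12) .nil)))))) (.g (nat_lit 1) (.e (nat_lit 387386) (nat_lit 0) .nil) .nil))) 
(.lf (nat_lit 585650) (.g (nat_lit 3114) (.e (nat_lit 393251) (nat_lit 18) (.e (nat_lit 164325) (nat_lit 230) (.e (nat_lit 163873) (nat_lit 3) (.e (nat_lit 204813) (nat_lit 9) (.e (nat_lit 426197) (nat_lit 9) (.e (nat_lit 426564) (nat_lit 34) .nil)))))) (.g (nat_lit 1) (.e (nat_lit 388742) (nat_lit 0) .nil) .nil)))))) (.nd (nat_lit 7) (.nd (nat_lit 8) (.nd (nat_lit 9) 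
(.lf (nat_lit 584818) (.g (nat_lit 1950) (.e (nat_lit 385066) (nat_lit 26) (.e (nat_lit 532530) (nat_lit 9) (.e (nat_lit 336326) (nat_lit 18) (.e (nat_lit 204881) (nat_lit 32) (.e (nat_lit 385066) (nat_lit 26) (.e (nat_lit 532566) (nat_lit 15) .nil)))))) (.g (nat_lit 1) (.e (nat_lit 386897) (nat_lit 0) .nil) .nil))) 
(.lf (nat_lit 585330) (.g (nat_lit 5279) (.e (nat_lit 385074) (nat_lit 31) (.e (nat_lit 573493) (nat_lit 15) (.e (nat_lit 81953) (nat_lit 22) (.e (nat_lit 90131) (nat_lit 9) .nil)))) (.g (nat_lit 0) (.e (nat_lit 387718) (nat_lit 0) .nil) .nil)))) (.nd (nat_lit 9) 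
(.lf (nat_lit 585074) (.g (nat_lit 3314) (.e (nat_lit 385072) (nat_lit 31) (.e (nat_lit 573485) (nat_lit 13) (.e (nat_lit 65619) (nat_lit 10) (.e (nat_lit 344129) (nat_lit 26) (.e (nat_lit 557087) (nat_lit 11) (.e (nat_lit 24653) (nat_lit 12) .nil)))))) (.g (nat_lit 1) (.e (nat_lit 387284) (nat_lit 0) .nil) .nil))) 
(.lf (nat_lit 585586) (.g (nat_lit 2338) (.e (nat_lit 393250) (nat_lit 18) (.e (nat_lit 164327) (nat_lit 230) (.e (nat_lit 163873) (nat_lit 3) (.e (nat_lit 204813) (nat_lit 9) (.e (nat_lit 426198) (nat_lit 9) .nil))))) (.g (nat_lit 0) (.e (nat_lit 388655) (nat_lit 0) .nil) .nil))))) (.nd (nat_lit 8) (.nd (nat_lit 9) 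
(.lf (nat_lit 584946) (.g (nat_lit 2486) (.e (nat_lit 385068) (nat_lit 26) (.e (nat_lit 532513) (nat_lit 3) (.e (nat_lit 114697) (nat_lit 11) (.e (nat_lit 426116) (nat_lit 2) (.e (nat_lit 196681) (nat_lit 17) (.e (nat_lit 131120) (nat_lit 12) .nil)))))) (.g (nat_lit 1) (.e (nat_lit 387096) (nat_lit 0) .nil) .nil))) 
(.lf (nat_lit 585458) (.g (nat_lit 1874) (.e (nat_lit 385106) (nat_lit 50) (.e (nat_lit 786480) (nat_lit 29) (.e (nat_lit 352262) (nat_lit 0) (.e (nat_lit 3748) (nat_lit 228) (.e (nat_lit 786473) (nat_lit 27) (.e (nat_lit 343808) (nat_lit 12) .nil)))))) (.g (nat_lit 1) (.e (nat_lit 388108) (nat_lit 0) .nil) .nil)))) (.nd (nat_lit 9) 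
(.lf (nat_lit 585202) (.g (nat_lit 183) (.e (nat_lit 385073) (nat_lit 31) (.e (nat_lit 573493) (nat_lit 15) (.e (nat_lit 81962) (nat_lit 25) .nil))) (.g (nat_lit 0) (.e (nat_lit 387502) (nat_lit 0) .nil) .nil))) 
(.lf (nat_lit 585714) (.g (nat_lit 3770) (.e (nat_lit 393251) (nat_lit 18) (.e (nat_lit 164330) (nat_lit 230) (.e (nat_lit 163873) (nat_lit 3) (.e (nat_lit 204813) (nat_lit 9) (.e (nat_lit 426199) (nat_lit 9) .nil))))) (.g (nat_lit 0) (.e (nat_lit 388806) (nat_lit 0) .nil) .nil))))))))) (.nd (nat_lit 4) (.nd (nat_lit 5) (.nd (nat_lit 6) (.nd (nat_lit 7) (.nd (nat_lit 8) (.nd (nat_lit 9) 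
(.lf (nat_lit 584714) (.g (nat_lit 323) (.e (nat_lit 385065) (nat_lit 26) (.e (nat_lit 532501) (nat_lit 1) (.e (nat_lit 57830) (nat_lit 250) .nil))) (.g (nat_lit 0) (.e (nat_lit 386718) (nat_lit 0) .nil) .nil))) 
(.lf (nat_lit 585226) (.g (nat_lit 3236) (.e (nat_lit 385074) (nat_lit 31) (.e (nat_lit 573482) (nat_lit 13) (.e (nat_lit 65630) (nat_lit 14) (.e (nat_lit 401425) (nat_lit 2) (.e (nat_lit 196681) (nat_lit 17) (.e (nat_lit 131121) (nat_lit 12) .nil)))))) (.g (nat_lit 1) (.e (nat_lit 387536) (nat_lit 0) .nil) .nil)))) (.nd (nat_lit 9) 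
(.lf (nat_lit 584970) (.g (nat_lit 1899) (.e (nat_lit 385068) (nat_lit 26) (.e (nat_lit 532515) (nat_lit 3) (.e (nat_lit 114698) (nat_lit 11) (.e (nat_lit 426133) (nat_lit 3) (.e (nat_lit 204859) (nat_lit 26) (.e (nat_lit 336206) (nat_lit 12) .nil)))))) (.g (nat_lit 1) (.e (nat_lit 387128) (nat_lit 0) .nil) .nil))) 
(.lf (nat_lit 585482) (.g (nat_lit 383) (.e (nat_lit 401152) (nat_lit 7) (.e (nat_lit 319531) (nat_lit 16) (.e (nat_lit 294656) (nat_lit 18) .nil))) (.g (nat_lit 0) (.e (nat_lit 388421) (nat_lit 0) .nil) .nil))))) (.nd (nat_lit 8) (.nd (nat_lit 9) 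
(.lf (nat_lit 584842) (.g (nat_lit 3260) (.e (nat_lit 385066) (nat_lit 26) (.e (nat_lit 532534) (nat_lit 9) (.e (nat_lit 336324) (nat_lit 18) (.e (nat_lit 204882) (nat_lit 32) (.e (nat_lit 385066) (nat_lit 26) (.e (nat_lit 532565) (nat_lit 15) .nil)))))) (.g (nat_lit 1) (.e (nat_lit 386928) (nat_lit 0) .nil) .nil))) 
(.lf (nat_lit 585354) (.g (nat_lit 1551) (.e (nat_lit 385074) (nat_lit 31) (.e (nat_lit 573493) (nat_lit 15) (.e (nat_lit 81959) (nat_lit 24) (.e (nat_lit 130816) (nat_lit 142) .nil)))) (.g (nat_lit 0) (.e (nat_lit 387746) (nat_lit 0) .nil) .nil)))) (.nd (nat_lit 9) 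
(.lf (nat_lit 585098) (.g (nat_lit 1668) (.e (nat_lit 385072) (nat_lit 31) (.e (nat_lit 573492) (nat_lit 15) (.e (nat_lit 81956) (nat_lit 23) (.e (nat_lit 98325) (nat_lit 17) .nil)))) (.g (nat_lit 0) (.e (nat_lit 387328) (nat_lit 0) .nil) .nil))) 
(.lf (nat_lit 585610) (.g (nat_lit 2958) (.e (nat_lit 393251) (nat_lit 18) (.e (nat_lit 164179) (nat_lit 154) (.e (nat_lit 57412) (nat_lit 12) (.e (nat_lit 336295) (nat_lit 15) (.e (nat_lit 3253) (nat_lit 197) (.e (nat_lit 532533) (nat_lit 9) (.e (nat_lit 336211) (nat_lit 13) .nil))))))) (.g (nat_lit 1) (.e (nat_lit 388691) (nat_lit 0) .nil) .nil)))))) 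
(.nd (nat_lit 7) (.nd (nat_lit 8) (.nd (nat_lit 9) 
(.lf (nat_lit 584778) (.g (nat_lit 3405) (.e (nat_lit 385066) (nat_lit 26) (.e (nat_lit 532513) (nat_lit 3) (.e (nat_lit 114698) (nat_lit 11) (.e (nat_lit 426122) (nat_lit 2) (.e (nat_lit 196666) (nat_lit 13) (.e (nat_lit 65624) (nat_lit 12) .nil)))))) (.g (nat_lit 1) (.e (nat_lit 386855) (nat_lit 0) .nil) .nil))) 
(.lf (nat_lit 585290) (.g (nat_lit 2211) (.e (nat_lit 385074) (nat_lit 31) (.e (nat_lit 573485) (nat_lit 13) (.e (nat_lit 65630) (nat_lit 14) (.e (nat_lit 401428) (nat_lit 3) (.e (nat_lit 204858) (nat_lit 26) (.e (nat_lit 336198) (nat_lit 12) .nil)))))) (.g (nat_lit 1) (.e (nat_lit 387656) (nat_lit 0) .nil) .nil)))) (.nd (nat_lit 9) 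
(.lf (nat_lit 585034) (.g (nat_lit 2319) (.e (nat_lit 392960) (nat_lit 24) (.e (nat_lit 516160) (nat_lit 10) (.e (nat_lit 434244) (nat_lit 28) (.e (nat_lit 573487) (nat_lit 14) (.e (nat_lit 73752) (nat_lit 8) .nil))))) (.g (nat_lit 0) (.e (nat_lit 387227) (nat_lit 0) .nil) .nil))) 
(.lf (nat_lit 585546) (.g (nat_lit 2312) (.e (nat_lit 393229) (nat_lit 9) (.e (nat_lit 335995) (nat_lit 1) (.e (nat_lit 57931) (nat_lit 282) (.e (nat_lit 163866) (nat_lit 2) (.e (nat_lit 196680) (nat_lit 17) (.e (nat_lit 131127) (nat_lit 13) .nil)))))) (.g (nat_lit 1) (.e (nat_lit 388563) (nat_lit 0) .nil) .nil))))) (.nd (nat_lit 8) (.nd (nat_lit 9) 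
(.lf (nat_lit 584906) (.g (nat_lit 3375) (.e (nat_lit 385067) (nat_lit 26) (.e (nat_lit 532563) (nat_lit 15) (.e (nat_lit 385066) (nat_lit 26) (.e (nat_lit 532534) (nat_lit 9) (.e (nat_lit 336324) (nat_lit 18) (.e (nat_lit 204882) (nat_lit 32) .nil)))))) (.g (nat_lit 1) (.e (nat_lit 387029) (nat_lit 0) .nil) .nil))) 
(.lf (nat_lit 585418) (.g (nat_lit 1796) (.e (nat_lit 385094) (nat_lit 49) (.e (nat_lit 778324) (nat_lit 5) (.e (nat_lit 73781) (nat_lit 32) (.e (nat_lit 3088) (nat_lit 191) (.e (nat_lit 491264) (nat_lit 26) .nil))))) (.g (nat_lit 1) (.e (nat_lit 387996) (nat_lit 0) .nil) .nil)))) (.nd (nat_lit 9) 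
(.lf (nat_lit 585162) (.g (nat_lit 501) (.e (nat_lit 385073) (nat_lit 31) (.e (nat_lit 573493) (nat_lit 15) (.e (nat_lit 81947) (nat_lit 20) .nil))) (.g (nat_lit 0) (.e (nat_lit 387448) (nat_lit 0) .nil) .nil))) 
(.lf (nat_lit 585674) (.g (nat_lit 3062) (.e (nat_lit 393251) (nat_lit 18) (.e (nat_lit 164327) (nat_lit 230) (.e (nat_lit 163868) (nat_lit 2) (.e (nat_lit 196656) (nat_lit 11) (.e (nat_lit 16432) (nat_lit 9) (.e (nat_lit 426567) (nat_lit 34) .nil)))))) (.g (nat_lit 1) (.e (nat_lit 388766) (nat_lit 0) .nil) .nil))))))) (.nd (nat_lit 6) (.nd (nat_lit 7) (.nd (nat_lit 8) (.nd (nat_lit 9) 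
(.lf (nat_lit 584746) (.g (nat_lit 1415) (.e (nat_lit 385065) (nat_lit 26) (.e (nat_lit 532560) (nat_lit 14) (.e (nat_lit 376842) (nat_lit 11) (.e (nat_lit 426107) (nat_lit 1) .nil)))) (.g (nat_lit 0) (.e (nat_lit 386788) (nat_lit 0) .nil) .nil))) 
(.lf (nat_lit 585258) (.g (nat_lit 2289) (.e (nat_lit 385074) (nat_lit 31) (.e (nat_lit 573484) (nat_lit 13) (.e (nat_lit 65617) (nat_lit 10) (.e (nat_lit 344132) (nat_lit 26) (.e (nat_lit 557085) (nat_lit 11) (.e (nat_lit 32512) (nat_lit 12) .nil)))))) (.g (nat_lit 1) (.e (nat_lit 387601) (nat_lit 0) .nil) .nil)))) (.nd (nat_lit 9) 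
(.lf (nat_lit 585002) (.g (nat_lit 1787) (.e (nat_lit 385068) (nat_lit 26) (.e (nat_lit 532560) (nat_lit 14) (.e (nat_lit 376839) (nat_lit 11) (.e (nat_lit 426110) (nat_lit 1) (.e (nat_lit 164150) (nat_lit 152) .nil))))) (.g (nat_lit 0) (.e (nat_lit 387165) (nat_lit 0) .nil) .nil))) 
(.lf (nat_lit 585514) (.g (nat_lit 2569) (.e (nat_lit 393225) (nat_lit 9) (.e (nat_lit 335996) (nat_lit 1) (.e (nat_lit 57929) (nat_lit 282) (.e (nat_lit 163867) (nat_lit 2) (.e (nat_lit 196665) (nat_lit 13) (.e (nat_lit 65626) (nat_lit 13) .nil)))))) (.g (nat_lit 1) (.e (nat_lit 388506) (nat_lit 0) .nil) .nil))))) (.nd (nat_lit 8) (.nd (nat_lit 9) 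
(.lf (nat_lit 584874) (.g (nat_lit 2625) (.e (nat_lit 385066) (nat_lit 26) (.e (nat_lit 532563) (nat_lit 15) (.e (nat_lit 385068) (nat_lit 26) (.e (nat_lit 532534) (nat_lit 9) (.e (nat_lit 336325) (nat_lit 18) (.e (nat_lit 204880) (nat_lit 32) .nil)))))) (.g (nat_lit 1) (.e (nat_lit 386967) (nat_lit 0) .nil) .nil))) 
(.lf (nat_lit 585386) (.g (nat_lit 3308) (.e (nat_lit 385093) (nat_lit 49) (.e (nat_lit 778323) (nat_lit 5) (.e (nat_lit 73782) (nat_lit 32) (.e (nat_lit 2856) (nat_lit 184) (.e (nat_lit 426530) (nat_lit 27) (.e (nat_lit 336206) (nat_lit 12) .nil)))))) (.g (nat_lit 1) (.e (nat_lit 387945) (nat_lit 0) .nil) .nil)))) (.nd (nat_lit 9) 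
(.lf (nat_lit 585130) (.g (nat_lit 3653) (.e (nat_lit 385073) (nat_lit 31) (.e (nat_lit 573482) (nat_lit 13) (.e (nat_lit 65619) (nat_lit 10) (.e (nat_lit 344129) (nat_lit 26) (.e (nat_lit 557085) (nat_lit 11) (.e (nat_lit 24653) (nat_lit 12) .nil)))))) (.g (nat_lit 1) (.e (nat_lit 387375) (nat_lit 0) .nil) .nil))) 
(.lf (nat_lit 585642) (.g (nat_lit 1785) (.e (nat_lit 393251) (nat_lit 18) (.e (nat_lit 164325) (nat_lit 230) (.e (nat_lit 163873) (nat_lit 3) (.e (nat_lit 204811) (nat_lit 9) (.e (nat_lit 426260) (nat_lit 9) (.e (nat_lit 433920) (nat_lit 34) .nil)))))) (.g (nat_lit 1) (.e (nat_lit 388734) (nat_lit 0) .nil) .nil)))))) (.nd (nat_lit 7) (.nd (nat_lit 8) (.nd (nat_lit 9) 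
(.lf (nat_lit 584810) (.g (nat_lit 2705) (.e (nat_lit 385066) (nat_lit 26) (.e (nat_lit 532530) (nat_lit 9) (.e (nat_lit 336326) (nat_lit 18) (.e (nat_lit 204854) (nat_lit 26) (.e (nat_lit 336304) (nat_lit 15) (.e (nat_lit 3234) (nat_lit 197) (.e (nat_lit 532563) (nat_lit 15) .nil))))))) (.g (nat_lit 1) (.e (nat_lit 386889) (nat_lit 0) .nil) .nil))) 
(.lf (nat_lit 585322) (.g (nat_lit 2627) (.e (nat_lit 385074) (nat_lit 31) (.e (nat_lit 573493) (nat_lit 15) (.e (nat_lit 81951) (nat_lit 22) (.e (nat_lit 90134) (nat_lit 9) (.e (nat_lit 3096) (nat_lit 192) .nil))))) (.g (nat_lit 0) (.e (nat_lit 387709) (nat_lit 0) .nil) .nil)))) (.nd (nat_lit 9) 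
(.lf (nat_lit 585066) (.g (nat_lit 2934) (.e (nat_lit 385072) (nat_lit 31) (.e (nat_lit 573484) (nat_lit 13) (.e (nat_lit 65610) (nat_lit 10) (.e (nat_lit 344129) (nat_lit 26) (.e (nat_lit 557087) (nat_lit 11) (.e (nat_lit 24649) (nat_lit 12) .nil)))))) (.g (nat_lit 1) (.e (nat_lit 387274) (nat_lit 0) .nil) .nil))) 
(.lf (nat_lit 585578) (.g (nat_lit 1422) (.e (nat_lit 393250) (nat_lit 18) (.e (nat_lit 164325) (nat_lit 230) (.e (nat_lit 163873) (nat_lit 3) (.e (nat_lit 204809) (nat_lit 9) .nil)))) (.g (nat_lit 0) (.e (nat_lit 388647) (nat_lit 0) .nil) .nil))))) (.nd (nat_lit 8) (.nd (nat_lit 9) 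
(.lf (nat_lit 584938) (.g (nat_lit 1622) (.e (nat_lit 385068) (nat_lit 26) (.e (nat_lit 532504) (nat_lit 1) (.e (nat_lit 57852) (nat_lit 252) (.e (nat_lit 65280) (nat_lit 12) .nil)))) (.g (nat_lit 0) (.e (nat_lit 387085) (nat_lit 0) .nil) .nil))) 
(.lf (nat_lit 585450) (.g (nat_lit 324) (.e (nat_lit 385105) (nat_lit 50) (.e (nat_lit 786473) (nat_lit 27) (.e (nat_lit 335874) (nat_lit 0) .nil))) (.g (nat_lit 0) (.e (nat_lit 388089) (nat_lit 0) .nil) .nil)))) (.nd (nat_lit 9) 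
(.lf (nat_lit 585194) (.g (nat_lit 3456) (.e (nat_lit 385073) (nat_lit 31) (.e (nat_lit 573493) (nat_lit 15) (.e (nat_lit 81956) (nat_lit 23) (.e (nat_lit 98320) (nat_lit 17) .nil)))) (.g (nat_lit 0) (.e (nat_lit 387489) (nat_lit 0) .nil) .nil))) 
(.lf (nat_lit 585706) (.g (nat_lit 2887) (.e (nat_lit 393251) (nat_lit 18) (.e (nat_lit 164327) (nat_lit 230) (.e (nat_lit 163873) (nat_lit 3) (.e (nat_lit 204813) (nat_lit 9) (.e (nat_lit 426200) (nat_lit 9) (.e (nat_lit 426564) (nat_lit 34) .nil)))))) (.g (nat_lit 1) (.e (nat_lit 388798) (nat_lit 0) .nil) .nil)))))))) 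
(.nd (nat_lit 5) (.nd (nat_lit 6) (.nd (nat_lit 7) (.nd (nat_lit 8) (.nd (nat_lit 9) 
(.lf (nat_lit 584730) (.g (nat_lit 1806) (.e (nat_lit 385065) (nat_lit 26) (.e (nat_lit 532532) (nat_lit 9) (.e (nat_lit 336324) (nat_lit 18) (.e (nat_lit 204854) (nat_lit 26) (.e (nat_lit 336324) (nat_lit 18) .nil))))) (.g (nat_lit 0) (.e (nat_lit 386769) (nat_lit 0) .nil) .nil))) 
(.lf (nat_lit 585242) (.g (nat_lit 2054) (.e (nat_lit 385074) (nat_lit 31) (.e (nat_lit 573484) (nat_lit 13) (.e (nat_lit 65610) (nat_lit 10) (.e (nat_lit 344129) (nat_lit 26) (.e (nat_lit 557067) (nat_lit 9) .nil))))) (.g (nat_lit 0) (.e (nat_lit 387566) (nat_lit 0) .nil) .nil)))) (.nd (nat_lit 9) 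
(.lf (nat_lit 584986) (.g (nat_lit 3042) (.e (nat_lit 385068) (nat_lit 26) (.e (nat_lit 532530) (nat_lit 9) (.e (nat_lit 336326) (nat_lit 18) (.e (nat_lit 204882) (nat_lit 32) (.e (nat_lit 385066) (nat_lit 26) (.e (nat_lit 532566) (nat_lit 15) .nil)))))) (.g (nat_lit 1) (.e (nat_lit 387148) (nat_lit 0) .nil) .nil))) 
(.lf (nat_lit 585498) (.g (nat_lit 3169) (.e (nat_lit 393225) (nat_lit 9) (.e (nat_lit 335988) (nat_lit 1) (.e (nat_lit 57926) (nat_lit 282) (.e (nat_lit 163869) (nat_lit 2) (.e (nat_lit 196681) (nat_lit 17) (.e (nat_lit 131128) (nat_lit 13) .nil)))))) (.g (nat_lit 1) (.e (nat_lit 388467) (nat_lit 0) .nil) .nil))))) (.nd (nat_lit 8) (.nd (nat_lit 9) 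
(.lf (nat_lit 584858) (.g (nat_lit 1361) (.e (nat_lit 385066) (nat_lit 26) (.e (nat_lit 532535) (nat_lit 9) (.e (nat_lit 343808) (nat_lit 18) .nil))) (.g (nat_lit 0) (.e (nat_lit 386944) (nat_lit 0) .nil) .nil))) 
(.lf (nat_lit 585370) (.g (nat_lit 2082) (.e (nat_lit 385092) (nat_lit 49) (.e (nat_lit 778323) (nat_lit 5) (.e (nat_lit 73782) (nat_lit 32) (.e (nat_lit 3090) (nat_lit 191) (.e (nat_lit 483402) (nat_lit 26) .nil))))) (.g (nat_lit 1) (.e (nat_lit 387916) (nat_lit 0) .nil) .nil)))) (.nd (nat_lit 9) 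
(.lf (nat_lit 585114) (.g (nat_lit 3997) (.e (nat_lit 385072) (nat_lit 31) (.e (nat_lit 573493) (nat_lit 15) (.e (nat_lit 81953) (nat_lit 22) (.e (nat_lit 90144) (nat_lit 9) .nil)))) (.g (nat_lit 0) (.e (nat_lit 387350) (nat_lit 0) .nil) .nil))) 
(.lf (nat_lit 585626) (.g (nat_lit 1802) (.e (nat_lit 393251) (nat_lit 18) (.e (nat_lit 164325) (nat_lit 230) (.e (nat_lit 163868) (nat_lit 2) (.e (nat_lit 196635) (nat_lit 9) .nil)))) (.g (nat_lit 0) (.e (nat_lit 388718) (nat_lit 0) .nil) .nil)))))) (.nd (nat_lit 7) (.nd (nat_lit 8) (.nd (nat_lit 9) 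
(.lf (nat_lit 584794) (.g (nat_lit 1875) (.e (nat_lit 385066) (nat_lit 26) (.e (nat_lit 532515) (nat_lit 3) (.e (nat_lit 114698) (nat_lit 11) (.e (nat_lit 426133) (nat_lit 3) (.e (nat_lit 204859) (nat_lit 26) (.e (nat_lit 336206) (nat_lit 12) .nil)))))) (.g (nat_lit 1) (.e (nat_lit 386872) (nat_lit 0) .nil) .nil))) 
(.lf (nat_lit 585306) (.g (nat_lit 3360) (.e (nat_lit 385074) (nat_lit 31) (.e (nat_lit 573491) (nat_lit 15) (.e (nat_lit 81953) (nat_lit 22) (.e (nat_lit 90192) (nat_lit 18) .nil)))) (.g (nat_lit 0) (.e (nat_lit 387691) (nat_lit 0) .nil) .nil)))) (.nd (nat_lit 9) 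
(.lf (nat_lit 585050) (.g (nat_lit 3013) (.e (nat_lit 385072) (nat_lit 31) (.e (nat_lit 573481) (nat_lit 13) (.e (nat_lit 65630) (nat_lit 14) (.e (nat_lit 401425) (nat_lit 2) (.e (nat_lit 196681) (nat_lit 17) (.e (nat_lit 131123) (nat_lit 12) .nil)))))) (.g (nat_lit 1) (.e (nat_lit 387256) (nat_lit 0) .nil) .nil))) 
(.lf (nat_lit 585562) (.g (nat_lit 375) (.e (nat_lit 393232) (nat_lit 17) (.e (nat_lit 7593) (nat_lit 407) (.e (nat_lit 73774) (nat_lit 26) .nil))) (.g (nat_lit 0) (.e (nat_lit 388615) (nat_lit 0) .nil) .nil))))) (.nd (nat_lit 8) (.nd (nat_lit 9) 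
(.lf (nat_lit 584922) (.g (nat_lit 2266) (.e (nat_lit 385068) (nat_lit 26) (.e (nat_lit 532503) (nat_lit 1) (.e (nat_lit 57849) (nat_lit 252) (.e (nat_lit 57407) (nat_lit 12) (.e (nat_lit 336452) (nat_lit 34) .nil))))) (.g (nat_lit 0) (.e (nat_lit 387063) (nat_lit 0) .nil) .nil))) 
(.lf (nat_lit 585434) (.g (nat_lit 1105) (.e (nat_lit 385102) (nat_lit 50) (.e (nat_lit 786483) (nat_lit 30) (.e (nat_lit 360451) (nat_lit 0) (.e (nat_lit 4823) (nat_lit 281) .nil)))) (.g (nat_lit 0) (.e (nat_lit 388044) (nat_lit 0) .nil) .nil)))) (.nd (nat_lit 9) 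
(.lf (nat_lit 585178) (.g (nat_lit 1980) (.e (nat_lit 385073) (nat_lit 31) (.e (nat_lit 573493) (nat_lit 15) (.e (nat_lit 81953) (nat_lit 22) (.e (nat_lit 90133) (nat_lit 9) .nil)))) (.g (nat_lit 0) (.e (nat_lit 387472) (nat_lit 0) .nil) .nil))) 
(.lf (nat_lit 585690) (.g (nat_lit 1846) (.e (nat_lit 393251) (nat_lit 18) (.e (nat_lit 164327) (nat_lit 230) (.e (nat_lit 163873) (nat_lit 3) (.e (nat_lit 204809) (nat_lit 9) (.e (nat_lit 426188) (nat_lit 9) .nil))))) (.g (nat_lit 0) (.e (nat_lit 388782) (nat_lit 0) .nil) .nil))))))) (.nd (nat_lit 6) (.nd (nat_lit 7) (.nd (nat_lit 8) (.nd (nat_lit 9) 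
(.lf (nat_lit 584762) (.g (nat_lit 723) (.e (nat_lit 385066) (nat_lit 26) (.e (nat_lit 532501) (nat_lit 1) (.e (nat_lit 57852) (nat_lit 252) (.e (nat_lit 65280) (nat_lit 12) .nil)))) (.g (nat_lit 0) (.e (nat_lit 386824) (nat_lit 0) .nil) .nil))) 
(.lf (nat_lit 585274) (.g (nat_lit 1828) (.e (nat_lit 385074) (nat_lit 31) (.e (nat_lit 573485) (nat_lit 13) (.e (nat_lit 65619) (nat_lit 10) (.e (nat_lit 344129) (nat_lit 26) (.e (nat_lit 557084) (nat_lit 10) .nil))))) (.g (nat_lit 0) (.e (nat_lit 387640) (nat_lit 0) .nil) .nil)))) (.nd (nat_lit 9) 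
(.lf (nat_lit 585018) (.g (nat_lit 1888) (.e (nat_lit 385068) (nat_lit 26) (.e (nat_lit 532563) (nat_lit 15) (.e (nat_lit 385066) (nat_lit 26) (.e (nat_lit 532533) (nat_lit 9) (.e (nat_lit 343808) (nat_lit 18) (.e (nat_lit 204882) (nat_lit 32) .nil)))))) (.g (nat_lit 1) (.e (nat_lit 387182) (nat_lit 0) .nil) .nil))) 
(.lf (nat_lit 585530) (.g (nat_lit 3460) (.e (nat_lit 393229) (nat_lit 9) (.e (nat_lit 335986) (nat_lit 1) (.e (nat_lit 57931) (nat_lit 282) (.e (nat_lit 163869) (nat_lit 2) (.e (nat_lit 196681) (nat_lit 17) (.e (nat_lit 131128) (nat_lit 13) .nil)))))) (.g (nat_lit 1) (.e (nat_lit 388536) (nat_lit 0) .nil) .nil))))) (.nd (nat_lit 8) (.nd (nat_lit 9) 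
(.lf (nat_lit 584890) (.g (nat_lit 538) (.e (nat_lit 385067) (nat_lit 26) (.e (nat_lit 532513) (nat_lit 3) (.e (nat_lit 122624) (nat_lit 12) .nil))) (.g (nat_lit 0) (.e (nat_lit 386998) (nat_lit 0) .nil) .nil))) 
(.lf (nat_lit 585402) (.g (nat_lit 3442) (.e (nat_lit 385094) (nat_lit 49) (.e (nat_lit 778323) (nat_lit 5) (.e (nat_lit 73781) (nat_lit 32) (.e (nat_lit 2857) (nat_lit 184) (.e (nat_lit 426482) (nat_lit 27) (.e (nat_lit 336198) (nat_lit 12) .nil)))))) (.g (nat_lit 1) (.e (nat_lit 387980) (nat_lit 0) .nil) .nil)))) (.nd (nat_lit 9) 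
(.lf (nat_lit 585146) (.g (nat_lit 3807) (.e (nat_lit 385073) (nat_lit 31) (.e (nat_lit 573485) (nat_lit 13) (.e (nat_lit 65619) (nat_lit 10) (.e (nat_lit 344129) (nat_lit 26) (.e (nat_lit 557087) (nat_lit 11) (.e (nat_lit 24651) (nat_lit 12) .nil)))))) (.g (nat_lit 1) (.e (nat_lit 387400) (nat_lit 0) .nil) .nil))) 
(.lf (nat_lit 585658) (.g (nat_lit 2017) (.e (nat_lit 393251) (nat_lit 18) (.e (nat_lit 164325) (nat_lit 230) (.e (nat_lit 163875) (nat_lit 3) (.e (nat_lit 204811) (nat_lit 9) (.e (nat_lit 426230) (nat_lit 9) (.e (nat_lit 426565) (nat_lit 34) .nil)))))) (.g (nat_lit 1) (.e (nat_lit 388750) (nat_lit 0) .nil) .nil)))))) (.nd (nat_lit 7) (.nd (nat_lit 8) (.nd (nat_lit 9) 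
(.lf (nat_lit 584826) (.g (nat_lit 2370) (.e (nat_lit 385066) (nat_lit 26) (.e (nat_lit 532532) (nat_lit 9) (.e (nat_lit 336326) (nat_lit 18) (.e (nat_lit 204854) (nat_lit 26) (.e (nat_lit 336326) (nat_lit 18) (.e (nat_lit 204882) (nat_lit 32) .nil)))))) (.g (nat_lit 1) (.e (nat_lit 386906) (nat_lit 0) .nil) .nil))) 
(.lf (nat_lit 585338) (.g (nat_lit 4998) (.e (nat_lit 385074) (nat_lit 31) (.e (nat_lit 573493) (nat_lit 15) (.e (nat_lit 81953) (nat_lit 22) (.e (nat_lit 90181) (nat_lit 16) .nil)))) (.g (nat_lit 0) (.e (nat_lit 387727) (nat_lit 0) .nil) .nil)))) (.nd (nat_lit 9) 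
(.lf (nat_lit 585082) (.g (nat_lit 4411) (.e (nat_lit 385072) (nat_lit 31) (.e (nat_lit 573492) (nat_lit 15) (.e (nat_lit 81953) (nat_lit 22) (.e (nat_lit 90131) (nat_lit 9) .nil)))) (.g (nat_lit 0) (.e (nat_lit 387309) (nat_lit 0) .nil) .nil))) 
(.lf (nat_lit 585594) (.g (nat_lit 643) (.e (nat_lit 393250) (nat_lit 18) (.e (nat_lit 164332) (nat_lit 230) (.e (nat_lit 163874) (nat_lit 3) .nil))) (.g (nat_lit 0) (.e (nat_lit 388663) (nat_lit 0) .nil) .nil))))) (.nd (nat_lit 8) (.nd (nat_lit 9) 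
(.lf (nat_lit 584954) (.g (nat_lit 3278) (.e (nat_lit 385068) (nat_lit 26) (.e (nat_lit 532513) (nat_lit 3) (.e (nat_lit 114698) (nat_lit 11) (.e (nat_lit 426123) (nat_lit 2) (.e (nat_lit 196681) (nat_lit 17) (.e (nat_lit 131120) (nat_lit 12) .nil)))))) (.g (nat_lit 1) (.e (nat_lit 387104) (nat_lit 0) .nil) .nil))) 
(.lf (nat_lit 585466) (.g (nat_lit 3102) (.e (nat_lit 385107) (nat_lit 51) (.e (nat_lit 794666) (nat_lit 22) (.e (nat_lit 196654) (nat_lit 11) (.e (nat_lit 16436) (nat_lit 9) (.e (nat_lit 426131) (nat_lit 3) (.e (nat_lit 204880) (nat_lit 32) .nil)))))) (.g (nat_lit 1) (.e (nat_lit 388174) (nat_lit 0) .nil) .nil)))) (.nd (nat_lit 9) 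
(.lf (nat_lit 585210) (.g (nat_lit 824) (.e (nat_lit 385074) (nat_lit 31) (.e (nat_lit 573471) (nat_lit 11) (.e (nat_lit 16411) (nat_lit 2) .nil))) (.g (nat_lit 0) (.e (nat_lit 387513) (nat_lit 0) .nil) .nil))) 
(.lf (nat_lit 585722) (.g (nat_lit 2083) (.e (nat_lit 393251) (nat_lit 18) (.e (nat_lit 164332) (nat_lit 230) (.e (nat_lit 163867) (nat_lit 2) (.e (nat_lit 196624) (nat_lit 9) (.e (nat_lit 455) (nat_lit 34) (.e (nat_lit 450304) (nat_lit 18) .nil)))))) (.g (nat_lit 1) (.e (nat_lit 388814) (nat_lit 0) .nil) .nil)))))))))) 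
(.nd (nat_lit 3) (.nd (nat_lit 4) (.nd (nat_lit 5) (.nd (nat_lit 6) (.nd (nat_lit 7) 
(.nd (nat_lit 8) (.nd (nat_lit 9) 
(.lf (nat_lit 584710) (.g (nat_lit 1386) (.e (nat_lit 385064) (nat_lit 26) (.e (nat_lit 532535) (nat_lit 9) (.e (nat_lit 336295) (nat_lit 15) .nil))) (.g (nat_lit 0) (.e (nat_lit 386712) (nat_lit 0) .nil) .nil))) 
(.lf (nat_lit 585222) (.g (nat_lit 1614) (.e (nat_lit 385074) (nat_lit 31) (.e (nat_lit 573482) (nat_lit 13) (.e (nat_lit 65628) (nat_lit 14) (.e (nat_lit 401427) (nat_lit 3) .nil)))) (.g (nat_lit 0) (.e (nat_lit 387531) (nat_lit 0) .nil) .nil)))) (.nd (nat_lit 9) 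
(.lf (nat_lit 584966) (.g (nat_lit 3452) (.e (nat_lit 385068) (nat_lit 26) (.e (nat_lit 532515) (nat_lit 3) (.e (nat_lit 114697) (nat_lit 11) (.e (nat_lit 426123) (nat_lit 2) (.e (nat_lit 196666) (nat_lit 13) (.e (nat_lit 65622) (nat_lit 12) .nil)))))) (.g (nat_lit 1) (.e (nat_lit 387124) (nat_lit 0) .nil) .nil))) 
(.lf (nat_lit 585478) (.g (nat_lit 1469) (.e (nat_lit 393221) (nat_lit 0) (.e (nat_lit 6207) (nat_lit 333) (.e (nat_lit 57881) (nat_lit 270) (.e (nat_lit 174) (nat_lit 12) .nil)))) (.g (nat_lit 0) (.e (nat_lit 388359) (nat_lit 0) .nil) .nil))))) (.nd (nat_lit 8) (.nd (nat_lit 9) 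
(.lf (nat_lit 584838) (.g (nat_lit 1696) (.e (nat_lit 385066) (nat_lit 26) (.e (nat_lit 532534) (nat_lit 9) (.e (nat_lit 336324) (nat_lit 18) (.e (nat_lit 204850) (nat_lit 26) .nil)))) (.g (nat_lit 0) (.e (nat_lit 386923) (nat_lit 0) .nil) .nil))) 
(.lf (nat_lit 585350) (.g (nat_lit 3115) (.e (nat_lit 385074) (nat_lit 31) (.e (nat_lit 573493) (nat_lit 15) (.e (nat_lit 81956) (nat_lit 23) (.e (nat_lit 98324) (nat_lit 17) .nil)))) (.g (nat_lit 0) (.e (nat_lit 387739) (nat_lit 0) .nil) .nil)))) (.nd (nat_lit 9) 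
(.lf (nat_lit 585094) (.g (nat_lit 3413) (.e (nat_lit 385072) (nat_lit 31) (.e (nat_lit 573492) (nat_lit 15) (.e (nat_lit 81956) (nat_lit 23) (.e (nat_lit 98319) (nat_lit 17) .nil)))) (.g (nat_lit 0) (.e (nat_lit 387324) (nat_lit 0) .nil) .nil))) 
(.lf (nat_lit 585606) (.g (nat_lit 1312) (.e (nat_lit 393250) (nat_lit 18) (.e (nat_lit 164403) (nat_lit 256) (.e (nat_lit 57378) (nat_lit 3) (.e (nat_lit 98363) (nat_lit 26) .nil)))) (.g (nat_lit 0) (.e (nat_lit 388675) (nat_lit 0) .nil) .nil)))))) (.nd (nat_lit 7) (.nd (nat_lit 8) (.nd (nat_lit 9) 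
(.lf (nat_lit 584774) (.g (nat_lit 2496) (.e (nat_lit 385066) (nat_lit 26) (.e (nat_lit 532513) (nat_lit 3) (.e (nat_lit 114694) (nat_lit 11) (.e (nat_lit 426124) (nat_lit 2) (.e (nat_lit 196681) (nat_lit 17) (.e (nat_lit 131123) (nat_lit 12) .nil)))))) (.g (nat_lit 1) (.e (nat_lit 386851) (nat_lit 0) .nil) .nil))) 
(.lf (nat_lit 585286) (.g (nat_lit 3049) (.e (nat_lit 385074) (nat_lit 31) (.e (nat_lit 573485) (nat_lit 13) (.e (nat_lit 65630) (nat_lit 14) (.e (nat_lit 401425) (nat_lit 2) (.e (nat_lit 196681) (nat_lit 17) (.e (nat_lit 131121) (nat_lit 12) .nil)))))) (.g (nat_lit 1) (.e (nat_lit 387652) (nat_lit 0) .nil) .nil)))) (.nd (nat_lit 9) 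
(.lf (nat_lit 585030) (.g (nat_lit 2018) (.e (nat_lit 392960) (nat_lit 24) (.e (nat_lit 516160) (nat_lit 10) (.e (nat_lit 434244) (nat_lit 28) (.e (nat_lit 573481) (nat_lit 13) (.e (nat_lit 65558) (nat_lit 0) .nil))))) (.g (nat_lit 0) (.e (nat_lit 387223) (nat_lit 0) .nil) .nil))) 
(.lf (nat_lit 585542) (.g (nat_lit 2747) (.e (nat_lit 393229) (nat_lit 9) (.e (nat_lit 335988) (nat_lit 1) (.e (nat_lit 57931) (nat_lit 282) (.e (nat_lit 163874) (nat_lit 3) (.e (nat_lit 204861) (nat_lit 26) (.e (nat_lit 336222) (nat_lit 13) .nil)))))) (.g (nat_lit 1) (.e (nat_lit 388559) (nat_lit 0) .nil) .nil))))) (.nd (nat_lit 8) (.nd (nat_lit 9) 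
(.lf (nat_lit 584902) (.g (nat_lit 1476) (.e (nat_lit 385067) (nat_lit 26) (.e (nat_lit 532560) (nat_lit 14) (.e (nat_lit 376842) (nat_lit 11) (.e (nat_lit 426100) (nat_lit 1) .nil)))) (.g (nat_lit 0) (.e (nat_lit 387023) (nat_lit 0) .nil) .nil))) 
(.lf (nat_lit 585414) (.g (nat_lit 2110) (.e (nat_lit 385094) (nat_lit 49) (.e (nat_lit 778323) (nat_lit 5) (.e (nat_lit 73782) (nat_lit 32) (.e (nat_lit 3090) (nat_lit 191) (.e (nat_lit 491264) (nat_lit 26) .nil))))) (.g (nat_lit 1) (.e (nat_lit 387992) (nat_lit 0) .nil) .nil)))) (.nd (nat_lit 9) 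
(.lf (nat_lit 585158) (.g (nat_lit 951) (.e (nat_lit 385073) (nat_lit 31) (.e (nat_lit 573493) (nat_lit 15) (.e (nat_lit 81939) (nat_lit 20) .nil))) (.g (nat_lit 0) (.e (nat_lit 387444) (nat_lit 0) .nil) .nil))) 
(.lf (nat_lit 585670) (.g (nat_lit 2450) (.e (nat_lit 393251) (nat_lit 18) (.e (nat_lit 164327) (nat_lit 230) (.e (nat_lit 163868) (nat_lit 2) (.e (nat_lit 196624) (nat_lit 9) (.e (nat_lit 459) (nat_lit 34) (.e (nat_lit 450304) (nat_lit 18) .nil)))))) (.g (nat_lit 1) (.e (nat_lit 388762) (nat_lit 0) .nil) .nil))))))) (.nd (nat_lit 6) (.nd (nat_lit 7) (.nd (nat_lit 8) (.nd (nat_lit 9) 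
(.lf (nat_lit 584742) (.g (nat_lit 1391) (.e (nat_lit 385065) (nat_lit 26) (.e (nat_lit 532558) (nat_lit 14) (.e (nat_lit 376842) (nat_lit 11) (.e (nat_lit 426107) (nat_lit 1) .nil)))) (.g (nat_lit 0) (.e (nat_lit 386784) (nat_lit 0) .nil) .nil))) 
(.lf (nat_lit 585254) (.g (nat_lit 2110) (.e (nat_lit 385074) (nat_lit 31) (.e (nat_lit 573484) (nat_lit 13) (.e (nat_lit 65617) (nat_lit 10) (.e (nat_lit 344130) (nat_lit 26) (.e (nat_lit 557086) (nat_lit 11) (.e (nat_lit 32512) (nat_lit 12) .nil)))))) (.g (nat_lit 1) (.e (nat_lit 387591) (nat_lit 0) .nil) .nil)))) (.nd (nat_lit 9) 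
(.lf (nat_lit 584998) (.g (nat_lit 2343) (.e (nat_lit 385068) (nat_lit 26) (.e (nat_lit 532534) (nat_lit 9) (.e (nat_lit 336326) (nat_lit 18) (.e (nat_lit 204854) (nat_lit 26) (.e (nat_lit 343808) (nat_lit 18) (.e (nat_lit 204882) (nat_lit 32) .nil)))))) (.g (nat_lit 1) (.e (nat_lit 387161) (nat_lit 0) .nil) .nil))) 
(.lf (nat_lit 585510) (.g (nat_lit 3009) (.e (nat_lit 393225) (nat_lit 9) (.e (nat_lit 335995) (nat_lit 1) (.e (nat_lit 57930) (nat_lit 282) (.e (nat_lit 163867) (nat_lit 2) (.e (nat_lit 196665) (nat_lit 13) (.e (nat_lit 65626) (nat_lit 13) .nil)))))) (.g (nat_lit 1) (.e (nat_lit 388494) (nat_lit 0) .nil) .nil))))) (.nd (nat_lit 8) (.nd (nat_lit 9) 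
(.lf (nat_lit 584870) (.g (nat_lit 1554) (.e (nat_lit 385066) (nat_lit 26) (.e (nat_lit 532563) (nat_lit 15) (.e (nat_lit 385066) (nat_lit 26) (.e (nat_lit 532532) (nat_lit 9) (.e (nat_lit 343808) (nat_lit 18) (.e (nat_lit 204882) (nat_lit 32) .nil)))))) (.g (nat_lit 1) (.e (nat_lit 386961) (nat_lit 0) .nil) .nil))) 
(.lf (nat_lit 585382) (.g (nat_lit 2842) (.e (nat_lit 385093) (nat_lit 49) (.e (nat_lit 778323) (nat_lit 5) (.e (nat_lit 73781) (nat_lit 32) (.e (nat_lit 2856) (nat_lit 184) (.e (nat_lit 426530) (nat_lit 27) (.e (nat_lit 336206) (nat_lit 12) .nil)))))) (.g (nat_lit 1) (.e (nat_lit 387941) (nat_lit 0) .nil) .nil)))) (.nd (nat_lit 9) 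
(.lf (nat_lit 585126) (.g (nat_lit 824) (.e (nat_lit 385073) (nat_lit 31) (.e (nat_lit 573482) (nat_lit 13) (.e (nat_lit 65613) (nat_lit 10) .nil))) (.g (nat_lit 0) (.e (nat_lit 387371) (nat_lit 0) .nil) .nil))) 
(.lf (nat_lit 585638) (.g (nat_lit 2432) (.e (nat_lit 393251) (nat_lit 18) (.e (nat_lit 164325) (nat_lit 230) (.e (nat_lit 163871) (nat_lit 2) (.e (nat_lit 196624) (nat_lit 9) (.e (nat_lit 459) (nat_lit 34) (.e (nat_lit 450304) (nat_lit 18) .nil)))))) (.g (nat_lit 1) (.e (nat_lit 388730) (nat_lit 0) .nil) .nil)))))) (.nd (nat_lit 7) (.nd (nat_lit 8) (.nd (nat_lit 9) 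
(.lf (nat_lit 584806) (.g (nat_lit 2958) (.e (nat_lit 385066) (nat_lit 26) (.e (nat_lit 532530) (nat_lit 9) (.e (nat_lit 336326) (nat_lit 18) (.e (nat_lit 204854) (nat_lit 26) (.e (nat_lit 336258) (nat_lit 15) (.e (nat_lit 3241) (nat_lit 197) (.e (nat_lit 532563) (nat_lit 15) .nil))))))) (.g (nat_lit 1) (.e (nat_lit 386885) (nat_lit 0) .nil) .nil))) 
(.lf (nat_lit 585318) (.g (nat_lit 821) (.e (nat_lit 385074) (nat_lit 31) (.e (nat_lit 573493) (nat_lit 15) (.e (nat_lit 81941) (nat_lit 20) .nil))) (.g (nat_lit 0) (.e (nat_lit 387704) (nat_lit 0) .nil) .nil)))) (.nd (nat_lit 9) 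
(.lf (nat_lit 585062) (.g (nat_lit 2980) (.e (nat_lit 385072) (nat_lit 31) (.e (nat_lit 573482) (nat_lit 13) (.e (nat_lit 65630) (nat_lit 14) (.e (nat_lit 401425) (nat_lit 2) (.e (nat_lit 196681) (nat_lit 17) .nil))))) (.g (nat_lit 0) (.e (nat_lit 387269) (nat_lit 0) .nil) .nil))) 
(.lf (nat_lit 585574) (.g (nat_lit 3264) (.e (nat_lit 393238) (nat_lit 17) (.e (nat_lit 6989) (nat_lit 377) (.e (nat_lit 2779) (nat_lit 178) (.e (nat_lit 286768) (nat_lit 27) (.e (nat_lit 426340) (nat_lit 14) (.e (nat_lit 491571) (nat_lit 13) .nil)))))) (.g (nat_lit 1) (.e (nat_lit 388636) (nat_lit 0) .nil) .nil))))) (.nd (nat_lit 8) (.nd (nat_lit 9) 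
(.lf (nat_lit 584934) (.g (nat_lit 2111) (.e (nat_lit 385068) (nat_lit 26) (.e (nat_lit 532504) (nat_lit 1) (.e (nat_lit 57852) (nat_lit 252) (.e (nat_lit 57409) (nat_lit 12) (.e (nat_lit 336452) (nat_lit 34) .nil))))) (.g (nat_lit 0) (.e (nat_lit 387079) (nat_lit 0) .nil) .nil))) 
(.lf (nat_lit 585446) (.g (nat_lit 1609) (.e (nat_lit 385104) (nat_lit 50) (.e (nat_lit 786480) (nat_lit 29) (.e (nat_lit 352309) (nat_lit 21) (.e (nat_lit 57924) (nat_lit 282) .nil)))) (.g (nat_lit 0) (.e (nat_lit 388082) (nat_lit 0) .nil) .nil)))) (.nd (nat_lit 9) 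
(.lf (nat_lit 585190) (.g (nat_lit 4172) (.e (nat_lit 385073) (nat_lit 31) (.e (nat_lit 573493) (nat_lit 15) (.e (nat_lit 81953) (nat_lit 22) (.e (nat_lit 90201) (nat_lit 20) .nil)))) (.g (nat_lit 0) (.e (nat_lit 387485) (nat_lit 0) .nil) .nil))) 
(.lf (nat_lit 585702) (.g (nat_lit 3600) (.e (nat_lit 393251) (nat_lit 18) (.e (nat_lit 164327) (nat_lit 230) (.e (nat_lit 163873) (nat_lit 3) (.e (nat_lit 204813) (nat_lit 9) (.e (nat_lit 426197) (nat_lit 9) (.e (nat_lit 426567) (nat_lit 34) .nil)))))) (.g (nat_lit 1) (.e (nat_lit 388794) (nat_lit 0) .nil) .nil)))))))) 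
(.nd (nat_lit 5) (.nd (nat_lit 6) (.nd (nat_lit 7) (.nd (nat_lit 8) (.nd (nat_lit 9) 
(.lf (nat_lit 584726) (.g (nat_lit 3178) (.e (nat_lit 385065) (nat_lit 26) (.e (nat_lit 532530) (nat_lit 9) (.e (nat_lit 336326) (nat_lit 18) (.e (nat_lit 204852) (nat_lit 26) (.e (nat_lit 336324) (nat_lit 18) (.e (nat_lit 204882) (nat_lit 32) .nil)))))) (.g (nat_lit 1) (.e (nat_lit 386765) (nat_lit 0) .nil) .nil))) 
(.lf (nat_lit 585238) (.g (nat_lit 2088) (.e (nat_lit 385074) (nat_lit 31) (.e (nat_lit 573484) (nat_lit 13) (.e (nat_lit 65610) (nat_lit 10) (.e (nat_lit 344126) (nat_lit 25) (.e (nat_lit 548878) (nat_lit 5) .nil))))) (.g (nat_lit 0) (.e (nat_lit 387559) (nat_lit 0) .nil) .nil)))) (.nd (nat_lit 9) 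
(.lf (nat_lit 584982) (.g (nat_lit 3547) (.e (nat_lit 385068) (nat_lit 26) (.e (nat_lit 532530) (nat_lit 9) (.e (nat_lit 336326) (nat_lit 18) (.e (nat_lit 204854) (nat_lit 26) (.e (nat_lit 336324) (nat_lit 18) (.e (nat_lit 204882) (nat_lit 32) .nil)))))) (.g (nat_lit 1) (.e (nat_lit 387143) (nat_lit 0) .nil) .nil))) 
(.lf (nat_lit 585494) (.g (nat_lit 3885) (.e (nat_lit 393225) (nat_lit 9) (.e (nat_lit 335986) (nat_lit 1) (.e (nat_lit 57926) (nat_lit 282) (.e (nat_lit 163870) (nat_lit 2) (.e (nat_lit 196666) (nat_lit 13) (.e (nat_lit 65625) (nat_lit 13) .nil)))))) (.g (nat_lit 1) (.e (nat_lit 388453) (nat_lit 0) .nil) .nil))))) (.nd (nat_lit 8) (.nd (nat_lit 9) 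
(.lf (nat_lit 584854) (.g (nat_lit 2902) (.e (nat_lit 385066) (nat_lit 26) (.e (nat_lit 532534) (nat_lit 9) (.e (nat_lit 336326) (nat_lit 18) (.e (nat_lit 204882) (nat_lit 32) (.e (nat_lit 385068) (nat_lit 26) (.e (nat_lit 532566) (nat_lit 15) .nil)))))) (.g (nat_lit 1) (.e (nat_lit 386940) (nat_lit 0) .nil) .nil))) 
(.lf (nat_lit 585366) (.g (nat_lit 1993) (.e (nat_lit 385092) (nat_lit 49) (.e (nat_lit 778318) (nat_lit 3) (.e (nat_lit 57476) (nat_lit 28) (.e (nat_lit 557107) (nat_lit 15) (.e (nat_lit 188450) (nat_lit 23) .nil))))) (.g (nat_lit 0) (.e (nat_lit 387912) (nat_lit 0) .nil) .nil)))) (.nd (nat_lit 9) 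
(.lf (nat_lit 585110) (.g (nat_lit 3498) (.e (nat_lit 385072) (nat_lit 31) (.e (nat_lit 573493) (nat_lit 15) (.e (nat_lit 81953) (nat_lit 22) (.e (nat_lit 90141) (nat_lit 9) .nil)))) (.g (nat_lit 0) (.e (nat_lit 387346) (nat_lit 0) .nil) .nil))) 
(.lf (nat_lit 585622) (.g (nat_lit 2658) (.e (nat_lit 393251) (nat_lit 18) (.e (nat_lit 164325) (nat_lit 230) (.e (nat_lit 163868) (nat_lit 2) (.e (nat_lit 196624) (nat_lit 9) (.e (nat_lit 459) (nat_lit 34) (.e (nat_lit 450304) (nat_lit 18) .nil)))))) (.g (nat_lit 1) (.e (nat_lit 388714) (nat_lit 0) .nil) .nil)))))) (.nd (nat_lit 7) (.nd (nat_lit 8) (.nd (nat_lit 9) 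
(.lf (nat_lit 584790) (.g (nat_lit 2845) (.e (nat_lit 385066) (nat_lit 26) (.e (nat_lit 532515) (nat_lit 3) (.e (nat_lit 114697) (nat_lit 11) (.e (nat_lit 426137) (nat_lit 3) (.e (nat_lit 204861) (nat_lit 26) (.e (nat_lit 336194) (nat_lit 12) .nil)))))) (.g (nat_lit 1) (.e (nat_lit 386868) (nat_lit 0) .nil) .nil))) 
(.lf (nat_lit 585302) (.g (nat_lit 1876) (.e (nat_lit 385074) (nat_lit 31) (.e (nat_lit 573491) (nat_lit 15) (.e (nat_lit 81946) (nat_lit 20) (.e (nat_lit 1858) (nat_lit 124) (.e (nat_lit 557065) (nat_lit 9) .nil))))) (.g (nat_lit 0) (.e (nat_lit 387686) (nat_lit 0) .nil) .nil)))) (.nd (nat_lit 9) 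
(.lf (nat_lit 585046) (.g (nat_lit 3261) (.e (nat_lit 385072) (nat_lit 31) (.e (nat_lit 573481) (nat_lit 13) (.e (nat_lit 65619) (nat_lit 10) (.e (nat_lit 344129) (nat_lit 26) (.e (nat_lit 557087) (nat_lit 11) (.e (nat_lit 24653) (nat_lit 12) .nil)))))) (.g (nat_lit 1) (.e (nat_lit 387252) (nat_lit 0) .nil) .nil))) 
(.lf (nat_lit 585558) (.g (nat_lit 2423) (.e (nat_lit 393231) (nat_lit 17) (.e (nat_lit 7593) (nat_lit 407) (.e (nat_lit 73775) (nat_lit 26) (.e (nat_lit 778465) (nat_lit 11) (.e (nat_lit 24657) (nat_lit 13) .nil))))) (.g (nat_lit 1) (.e (nat_lit 388605) (nat_lit 0) .nil) .nil))))) (.nd (nat_lit 8) (.nd (nat_lit 9) 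
(.lf (nat_lit 584918) (.g (nat_lit 2535) (.e (nat_lit 385068) (nat_lit 26) (.e (nat_lit 532503) (nat_lit 1) (.e (nat_lit 57844) (nat_lit 252) (.e (nat_lit 57406) (nat_lit 12) (.e (nat_lit 336452) (nat_lit 34) .nil))))) (.g (nat_lit 0) (.e (nat_lit 387051) (nat_lit 0) .nil) .nil))) 
(.lf (nat_lit 585430) (.g (nat_lit 1339) (.e (nat_lit 385102) (nat_lit 50) (.e (nat_lit 786483) (nat_lit 30) (.e (nat_lit 360450) (nat_lit 0) (.e (nat_lit 5896) (nat_lit 320) .nil)))) (.g (nat_lit 0) (.e (nat_lit 388038) (nat_lit 0) .nil) .nil)))) (.nd (nat_lit 9) 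
(.lf (nat_lit 585174) (.g (nat_lit 4665) (.e (nat_lit 385073) (nat_lit 31) (.e (nat_lit 573493) (nat_lit 15) (.e (nat_lit 81953) (nat_lit 22) (.e (nat_lit 90128) (nat_lit 9) .nil)))) (.g (nat_lit 0) (.e (nat_lit 387468) (nat_lit 0) .nil) .nil))) 
(.lf (nat_lit 585686) (.g (nat_lit 3139) (.e (nat_lit 393251) (nat_lit 18) (.e (nat_lit 164327) (nat_lit 230) (.e (nat_lit 163871) (nat_lit 2) (.e (nat_lit 196656) (nat_lit 11) (.e (nat_lit 16434) (nat_lit 9) .nil))))) (.g (nat_lit 0) (.e (nat_lit 388778) (nat_lit 0) .nil) .nil))))))) (.nd (nat_lit 6) (.nd (nat_lit 7) (.nd (nat_lit 8) (.nd (nat_lit 9) 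
(.lf (nat_lit 584758) (.g (nat_lit 908) (.e (nat_lit 385066) (nat_lit 26) (.e (nat_lit 532501) (nat_lit 1) (.e (nat_lit 57852) (nat_lit 252) (.e (nat_lit 57404) (nat_lit 12) .nil)))) (.g (nat_lit 0) (.e (nat_lit 386815) (nat_lit 0) .nil) .nil))) 
(.lf (nat_lit 585270) (.g (nat_lit 2320) (.e (nat_lit 385074) (nat_lit 31) (.e (nat_lit 573484) (nat_lit 13) (.e (nat_lit 65630) (nat_lit 14) (.e (nat_lit 401425) (nat_lit 2) (.e (nat_lit 196628) (nat_lit 9) .nil))))) (.g (nat_lit 0) (.e (nat_lit 387623) (nat_lit 0) .nil) .nil)))) (.nd (nat_lit 9) 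
(.lf (nat_lit 585014) (.g (nat_lit 3493) (.e (nat_lit 385068) (nat_lit 26) (.e (nat_lit 532560) (nat_lit 14) (.e (nat_lit 376859) (nat_lit 21) (.e (nat_lit 57688) (nat_lit 156) (.e (nat_lit 163885) (nat_lit 5) (.e (nat_lit 229120) (nat_lit 17) .nil)))))) (.g (nat_lit 1) (.e (nat_lit 387177) (nat_lit 0) .nil) .nil))) 
(.lf (nat_lit 585526) (.g (nat_lit 3031) (.e (nat_lit 393229) (nat_lit 9) (.e (nat_lit 335986) (nat_lit 1) (.e (nat_lit 57926) (nat_lit 282) (.e (nat_lit 163875) (nat_lit 3) (.e (nat_lit 204855) (nat_lit 26) .nil))))) (.g (nat_lit 0) (.e (nat_lit 388529) (nat_lit 0) .nil) .nil))))) (.nd (nat_lit 8) (.nd (nat_lit 9) 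
(.lf (nat_lit 584886) (.g (nat_lit 1803) (.e (nat_lit 385067) (nat_lit 26) (.e (nat_lit 532501) (nat_lit 1) (.e (nat_lit 57851) (nat_lit 252) (.e (nat_lit 57406) (nat_lit 12) (.e (nat_lit 336377) (nat_lit 27) .nil))))) (.g (nat_lit 0) (.e (nat_lit 386986) (nat_lit 0) .nil) .nil))) 
(.lf (nat_lit 585398) (.g (nat_lit 4743) (.e (nat_lit 385094) (nat_lit 49) (.e (nat_lit 778317) (nat_lit 3) (.e (nat_lit 57480) (nat_lit 28) (.e (nat_lit 557067) (nat_lit 9) (.e (nat_lit 3022) (nat_lit 187) (.e (nat_lit 450579) (nat_lit 5) (.e (nat_lit 532566) (nat_lit 15) .nil))))))) (.g (nat_lit 1) (.e (nat_lit 387964) (nat_lit 0) .nil) .nil)))) (.nd (nat_lit 9) 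
(.lf (nat_lit 585142) (.g (nat_lit 1275) (.e (nat_lit 385073) (nat_lit 31) (.e (nat_lit 573484) (nat_lit 13) (.e (nat_lit 65617) (nat_lit 10) (.e (nat_lit 344130) (nat_lit 26) .nil)))) (.g (nat_lit 0) (.e (nat_lit 387390) (nat_lit 0) .nil) .nil))) 
(.lf (nat_lit 585654) (.g (nat_lit 3660) (.e (nat_lit 393251) (nat_lit 18) (.e (nat_lit 164325) (nat_lit 230) (.e (nat_lit 163873) (nat_lit 3) (.e (nat_lit 204813) (nat_lit 9) (.e (nat_lit 426200) (nat_lit 9) (.e (nat_lit 426568) (nat_lit 34) .nil)))))) (.g (nat_lit 1) (.e (nat_lit 388746) (nat_lit 0) .nil) .nil)))))) (.nd (nat_lit 7) (.nd (nat_lit 8) (.nd (nat_lit 9) 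
(.lf (nat_lit 584822) (.g (nat_lit 2257) (.e (nat_lit 385066) (nat_lit 26) (.e (nat_lit 532532) (nat_lit 9) (.e (nat_lit 336324) (nat_lit 18) (.e (nat_lit 204882) (nat_lit 32) (.e (nat_lit 385065) (nat_lit 26) (.e (nat_lit 532566) (nat_lit 15) .nil)))))) (.g (nat_lit 1) (.e (nat_lit 386902) (nat_lit 0) .nil) .nil))) 
(.lf (nat_lit 585334) (.g (nat_lit 4844) (.e (nat_lit 385074) (nat_lit 31) (.e (nat_lit 573493) (nat_lit 15) (.e (nat_lit 81953) (nat_lit 22) (.e (nat_lit 90146) (nat_lit 9) .nil)))) (.g (nat_lit 0) (.e (nat_lit 387723) (nat_lit 0) .nil) .nil)))) (.nd (nat_lit 9) 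
(.lf (nat_lit 585078) (.g (nat_lit 3363) (.e (nat_lit 385072) (nat_lit 31) (.e (nat_lit 573492) (nat_lit 15) (.e (nat_lit 81953) (nat_lit 22) (.e (nat_lit 90121) (nat_lit 9) .nil)))) (.g (nat_lit 0) (.e (nat_lit 387305) (nat_lit 0) .nil) .nil))) 
(.lf (nat_lit 585590) (.g (nat_lit 1251) (.e (nat_lit 393250) (nat_lit 18) (.e (nat_lit 164327) (nat_lit 230) (.e (nat_lit 163875) (nat_lit 3) (.e (nat_lit 204813) (nat_lit 9) .nil)))) (.g (nat_lit 0) (.e (nat_lit 388659) (nat_lit 0) .nil) .nil))))) (.nd (nat_lit 8) (.nd (nat_lit 9) 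
(.lf (nat_lit 584950) (.g (nat_lit 2864) (.e (nat_lit 385068) (nat_lit 26) (.e (nat_lit 532513) (nat_lit 3) (.e (nat_lit 114697) (nat_lit 11) (.e (nat_lit 426123) (nat_lit 2) (.e (nat_lit 196681) (nat_lit 17) (.e (nat_lit 131120) (nat_lit 12) .nil)))))) (.g (nat_lit 1) (.e (nat_lit 387100) (nat_lit 0) .nil) .nil))) 
(.lf (nat_lit 585462) (.g (nat_lit 2135) (.e (nat_lit 385107) (nat_lit 51) (.e (nat_lit 794664) (nat_lit 22) (.e (nat_lit 196654) (nat_lit 11) (.e (nat_lit 16436) (nat_lit 9) (.e (nat_lit 426131) (nat_lit 3) (.e (nat_lit 204881) (nat_lit 32) .nil)))))) (.g (nat_lit 1) (.e (nat_lit 388160) (nat_lit 0) .nil) .nil)))) (.nd (nat_lit 9) 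
(.lf (nat_lit 585206) (.g (nat_lit 2017) (.e (nat_lit 385073) (nat_lit 31) (.e (nat_lit 573493) (nat_lit 15) (.e (nat_lit 81962) (nat_lit 25) (.e (nat_lit 139297) (nat_lit 16) .nil)))) (.g (nat_lit 0) (.e (nat_lit 387506) (nat_lit 0) .nil) .nil))) 
(.lf (nat_lit 585718) (.g (nat_lit 3444) (.e (nat_lit 393251) (nat_lit 18) (.e (nat_lit 164331) (nat_lit 230) (.e (nat_lit 163873) (nat_lit 3) (.e (nat_lit 204813) (nat_lit 9) (.e (nat_lit 426199) (nat_lit 9) (.e (nat_lit 426567) (nat_lit 34) .nil)))))) (.g (nat_lit 1) (.e (nat_lit 388810) (nat_lit 0) .nil) .nil))))))))) 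
(.nd (nat_lit 4) (.nd (nat_lit 5) (.nd (nat_lit 6) (.nd (nat_lit 7) (.nd (nat_lit 8) 
(.nd (nat_lit 9) 
(.lf (nat_lit 584718) (.g (nat_lit 1661) (.e (nat_lit 385065) (nat_lit 26) (.e (nat_lit 532529) (nat_lit 9) (.e (nat_lit 336316) (nat_lit 17) (.e (nat_lit 196622) (nat_lit 9) .nil)))) (.g (nat_lit 0) (.e (nat_lit 386755) (nat_lit 0) .nil) .nil))) 
(.lf (nat_lit 585230) (.g (nat_lit 1312) (.e (nat_lit 385074) (nat_lit 31) (.e (nat_lit 573484) (nat_lit 13) (.e (nat_lit 65610) (nat_lit 10) (.e (nat_lit 344111) (nat_lit 19) .nil)))) (.g (nat_lit 0) (.e (nat_lit 387545) (nat_lit 0) .nil) .nil)))) (.nd (nat_lit 9) 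
(.lf (nat_lit 584974) (.g (nat_lit 198) (.e (nat_lit 385068) (nat_lit 26) (.e (nat_lit 532515) (nat_lit 3) (.e (nat_lit 122624) (nat_lit 12) .nil))) (.g (nat_lit 0) (.e (nat_lit 387132) (nat_lit 0) .nil) .nil))) 
(.lf (nat_lit 585486) (.g (nat_lit 1332) (.e (nat_lit 393224) (nat_lit 9) (.e (nat_lit 335988) (nat_lit 1) (.e (nat_lit 57927) (nat_lit 282) (.e (nat_lit 163866) (nat_lit 2) .nil)))) (.g (nat_lit 0) (.e (nat_lit 388435) (nat_lit 0) .nil) .nil))))) (.nd (nat_lit 8) (.nd (nat_lit 9) 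
(.lf (nat_lit 584846) (.g (nat_lit 425) (.e (nat_lit 385066) (nat_lit 26) (.e (nat_lit 532534) (nat_lit 9) (.e (nat_lit 336326) (nat_lit 18) .nil))) (.g (nat_lit 0) (.e (nat_lit 386932) (nat_lit 0) .nil) .nil))) 
(.lf (nat_lit 585358) (.g (nat_lit 1722) (.e (nat_lit 385074) (nat_lit 31) (.e (nat_lit 573493) (nat_lit 15) (.e (nat_lit 81962) (nat_lit 25) (.e (nat_lit 139287) (nat_lit 9) .nil)))) (.g (nat_lit 0) (.e (nat_lit 387750) (nat_lit 0) .nil) .nil)))) (.nd (nat_lit 9) 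
(.lf (nat_lit 585102) (.g (nat_lit 3719) (.e (nat_lit 385072) (nat_lit 31) (.e (nat_lit 573493) (nat_lit 15) (.e (nat_lit 81953) (nat_lit 22) (.e (nat_lit 90121) (nat_lit 9) .nil)))) (.g (nat_lit 0) (.e (nat_lit 387338) (nat_lit 0) .nil) .nil))) 
(.lf (nat_lit 585614) (.g (nat_lit 630) (.e (nat_lit 393251) (nat_lit 18) (.e (nat_lit 164325) (nat_lit 230) (.e (nat_lit 163844) (nat_lit 0) .nil))) (.g (nat_lit 0) (.e (nat_lit 388705) (nat_lit 0) .nil) .nil)))))) (.nd (nat_lit 7) (.nd (nat_lit 8) (.nd (nat_lit 9) 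
(.lf (nat_lit 584782) (.g (nat_lit 2194) (.e (nat_lit 385066) (nat_lit 26) (.e (nat_lit 532513) (nat_lit 3) (.e (nat_lit 114698) (nat_lit 11) (.e (nat_lit 426139) (nat_lit 3) (.e (nat_lit 204861) (nat_lit 26) (.e (nat_lit 336195) (nat_lit 12) .nil)))))) (.g (nat_lit 1) (.e (nat_lit 386859) (nat_lit 0) .nil) .nil))) 
(.lf (nat_lit 585294) (.g (nat_lit 2562) (.e (nat_lit 385074) (nat_lit 31) (.e (nat_lit 573489) (nat_lit 14) (.e (nat_lit 73781) (nat_lit 32) (.e (nat_lit 2682) (nat_lit 168) (.e (nat_lit 204850) (nat_lit 26) (.e (nat_lit 336205) (nat_lit 12) .nil)))))) (.g (nat_lit 1) (.e (nat_lit 387672) (nat_lit 0) .nil) .nil)))) (.nd (nat_lit 9) 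
(.lf (nat_lit 585038) (.g (nat_lit 2731) (.e (nat_lit 385072) (nat_lit 31) (.e (nat_lit 573481) (nat_lit 13) (.e (nat_lit 65598) (nat_lit 9) (.e (nat_lit 336013) (nat_lit 2) (.e (nat_lit 90134) (nat_lit 9) .nil))))) (.g (nat_lit 0) (.e (nat_lit 387243) (nat_lit 0) .nil) .nil))) 
(.lf (nat_lit 585550) (.g (nat_lit 853) (.e (nat_lit 393229) (nat_lit 9) (.e (nat_lit 335996) (nat_lit 1) (.e (nat_lit 57929) (nat_lit 282) .nil))) (.g (nat_lit 0) (.e (nat_lit 388568) (nat_lit 0) .nil) .nil))))) (.nd (nat_lit 8) (.nd (nat_lit 9) 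
(.lf (nat_lit 584910) (.g (nat_lit 664) (.e (nat_lit 385068) (nat_lit 26) (.e (nat_lit 532499) (nat_lit 1) (.e (nat_lit 57927) (nat_lit 282) .nil))) (.g (nat_lit 0) (.e (nat_lit 387037) (nat_lit 0) .nil) .nil))) 
(.lf (nat_lit 585422) (.g (nat_lit 2069) (.e (nat_lit 385094) (nat_lit 49) (.e (nat_lit 778326) (nat_lit 6) (.e (nat_lit 81924) (nat_lit 0) (.e (nat_lit 3747) (nat_lit 228) (.e (nat_lit 786473) (nat_lit 27) (.e (nat_lit 343808) (nat_lit 12) .nil)))))) (.g (nat_lit 1) (.e (nat_lit 388000) (nat_lit 0) .nil) .nil)))) (.nd (nat_lit 9) 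
(.lf (nat_lit 585166) (.g (nat_lit 1813) (.e (nat_lit 385073) (nat_lit 31) (.e (nat_lit 573493) (nat_lit 15) (.e (nat_lit 81951) (nat_lit 22) (.e (nat_lit 90134) (nat_lit 9) .nil)))) (.g (nat_lit 0) (.e (nat_lit 387460) (nat_lit 0) .nil) .nil))) 
(.lf (nat_lit 585678) (.g (nat_lit 2790) (.e (nat_lit 393251) (nat_lit 18) (.e (nat_lit 164327) (nat_lit 230) (.e (nat_lit 163868) (nat_lit 2) (.e (nat_lit 196656) (nat_lit 11) (.e (nat_lit 16436) (nat_lit 9) (.e (nat_lit 426567) (nat_lit 34) .nil)))))) (.g (nat_lit 1) (.e (nat_lit 388770) (nat_lit 0) .nil) .nil))))))) (.nd (nat_lit 6) (.nd (nat_lit 7) (.nd (nat_lit 8) (.nd (nat_lit 9) 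
(.lf (nat_lit 584750) (.g (nat_lit 1196) (.e (nat_lit 385066) (nat_lit 26) (.e (nat_lit 532499) (nat_lit 1) (.e (nat_lit 57823) (nat_lit 250) .nil))) (.g (nat_lit 0) (.e (nat_lit 386800) (nat_lit 0) .nil) .nil))) 
(.lf (nat_lit 585262) (.g (nat_lit 1801) (.e (nat_lit 385074) (nat_lit 31) (.e (nat_lit 573484) (nat_lit 13) (.e (nat_lit 65624) (nat_lit 12) (.e (nat_lit 385072) (nat_lit 31) .nil)))) (.g (nat_lit 0) (.e (nat_lit 387610) (nat_lit 0) .nil) .nil)))) (.nd (nat_lit 9) 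
(.lf (nat_lit 585006) (.g (nat_lit 2323) (.e (nat_lit 385068) (nat_lit 26) (.e (nat_lit 532560) (nat_lit 14) (.e (nat_lit 376842) (nat_lit 11) (.e (nat_lit 426098) (nat_lit 1) (.e (nat_lit 164185) (nat_lit 155) .nil))))) (.g (nat_lit 0) (.e (nat_lit 387169) (nat_lit 0) .nil) .nil))) 
(.lf (nat_lit 585518) (.g (nat_lit 2125) (.e (nat_lit 393227) (nat_lit 9) (.e (nat_lit 336151) (nat_lit 9) (.e (nat_lit 336300) (nat_lit 15) (.e (nat_lit 3253) (nat_lit 197) (.e (nat_lit 532504) (nat_lit 1) (.e (nat_lit 57851) (nat_lit 252) (.e (nat_lit 57446) (nat_lit 19) .nil))))))) (.g (nat_lit 1) (.e (nat_lit 388513) (nat_lit 0) .nil) .nil))))) (.nd (nat_lit 8) (.nd (nat_lit 9) 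
(.lf (nat_lit 584878) (.g (nat_lit 1254) (.e (nat_lit 385066) (nat_lit 26) (.e (nat_lit 532565) (nat_lit 15) (.e (nat_lit 385065) (nat_lit 26) (.e (nat_lit 532534) (nat_lit 9) (.e (nat_lit 336326) (nat_lit 18) .nil))))) (.g (nat_lit 0) (.e (nat_lit 386971) (nat_lit 0) .nil) .nil))) 
(.lf (nat_lit 585390) (.g (nat_lit 1957) (.e (nat_lit 385094) (nat_lit 49) (.e (nat_lit 778317) (nat_lit 3) (.e (nat_lit 57476) (nat_lit 28) (.e (nat_lit 557067) (nat_lit 9) (.e (nat_lit 3021) (nat_lit 187) (.e (nat_lit 450578) (nat_lit 5) (.e (nat_lit 532566) (nat_lit 15) .nil))))))) (.g (nat_lit 1) (.e (nat_lit 387952) (nat_lit 0) .nil) .nil)))) (.nd (nat_lit 9) 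
(.lf (nat_lit 585134) (.g (nat_lit 2725) (.e (nat_lit 385073) (nat_lit 31) (.e (nat_lit 573482) (nat_lit 13) (.e (nat_lit 65628) (nat_lit 14) (.e (nat_lit 401425) (nat_lit 2) (.e (nat_lit 196681) (nat_lit 17) .nil))))) (.g (nat_lit 0) (.e (nat_lit 387380) (nat_lit 0) .nil) .nil))) 
(.lf (nat_lit 585646) (.g (nat_lit 1991) (.e (nat_lit 393251) (nat_lit 18) (.e (nat_lit 164325) (nat_lit 230) (.e (nat_lit 163873) (nat_lit 3) (.e (nat_lit 204811) (nat_lit 9) (.e (nat_lit 426262) (nat_lit 9) (.e (nat_lit 433920) (nat_lit 34) .nil)))))) (.g (nat_lit 1) (.e (nat_lit 388738) (nat_lit 0) .nil) .nil)))))) (.nd (nat_lit 7) (.nd (nat_lit 8) (.nd (nat_lit 9) 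
(.lf (nat_lit 584814) (.g (nat_lit 2104) (.e (nat_lit 385066) (nat_lit 26) (.e (nat_lit 532530) (nat_lit 9) (.e (nat_lit 336326) (nat_lit 18) (.e (nat_lit 204854) (nat_lit 26) (.e (nat_lit 343808) (nat_lit 18) (.e (nat_lit 204882) (nat_lit 32) .nil)))))) (.g (nat_lit 1) (.e (nat_lit 386893) (nat_lit 0) .nil) .nil))) 
(.lf (nat_lit 585326) (.g (nat_lit 2180) (.e (nat_lit 385074) (nat_lit 31) (.e (nat_lit 573493) (nat_lit 15) (.e (nat_lit 81951) (nat_lit 22) (.e (nat_lit 90198) (nat_lit 18) .nil)))) (.g (nat_lit 0) (.e (nat_lit 387714) (nat_lit 0) .nil) .nil)))) (.nd (nat_lit 9) 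
(.lf (nat_lit 585070) (.g (nat_lit 3239) (.e (nat_lit 385072) (nat_lit 31) (.e (nat_lit 573485) (nat_lit 13) (.e (nat_lit 65619) (nat_lit 10) (.e (nat_lit 344129) (nat_lit 26) (.e (nat_lit 557086) (nat_lit 11) (.e (nat_lit 24650) (nat_lit 12) .nil)))))) (.g (nat_lit 1) (.e (nat_lit 387280) (nat_lit 0) .nil) .nil))) 
(.lf (nat_lit 585582) (.g (nat_lit 1899) (.e (nat_lit 393250) (nat_lit 18) (.e (nat_lit 164327) (nat_lit 230) (.e (nat_lit 163868) (nat_lit 2) (.e (nat_lit 196656) (nat_lit 11) .nil)))) (.g (nat_lit 0) (.e (nat_lit 388651) (nat_lit 0) .nil) .nil))))) (.nd (nat_lit 8) (.nd (nat_lit 9) 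
(.lf (nat_lit 584942) (.g (nat_lit 2036) (.e (nat_lit 385068) (nat_lit 26) (.e (nat_lit 532513) (nat_lit 3) (.e (nat_lit 114694) (nat_lit 11) (.e (nat_lit 426116) (nat_lit 2) (.e (nat_lit 196681) (nat_lit 17) (.e (nat_lit 131123) (nat_lit 12) .nil)))))) (.g (nat_lit 1) (.e (nat_lit 387091) (nat_lit 0) .nil) .nil))) 
(.lf (nat_lit 585454) (.g (nat_lit 1961) (.e (nat_lit 385105) (nat_lit 50) (.e (nat_lit 786480) (nat_lit 29) (.e (nat_lit 352265) (nat_lit 0) (.e (nat_lit 3747) (nat_lit 228) (.e (nat_lit 786473) (nat_lit 27) (.e (nat_lit 343808) (nat_lit 12) .nil)))))) (.g (nat_lit 1) (.e (nat_lit 388095) (nat_lit 0) .nil) .nil)))) (.nd (nat_lit 9) 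
(.lf (nat_lit 585198) (.g (nat_lit 4409) (.e (nat_lit 385073) (nat_lit 31) (.e (nat_lit 573493) (nat_lit 15) (.e (nat_lit 81956) (nat_lit 23) (.e (nat_lit 98329) (nat_lit 17) .nil)))) (.g (nat_lit 0) (.e (nat_lit 387493) (nat_lit 0) .nil) .nil))) 
(.lf (nat_lit 585710) (.g (nat_lit 2703) (.e (nat_lit 393251) (nat_lit 18) (.e (nat_lit 164327) (nat_lit 230) (.e (nat_lit 163875) (nat_lit 3) (.e (nat_lit 204809) (nat_lit 9) (.e (nat_lit 426190) (nat_lit 9) (.e (nat_lit 426566) (nat_lit 34) .nil)))))) (.g (nat_lit 1) (.e (nat_lit 388802) (nat_lit 0) .nil) .nil)))))))) 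
(.nd (nat_lit 5) (.nd (nat_lit 6) (.nd (nat_lit 7) (.nd (nat_lit 8) (.nd (nat_lit 9) 
(.lf (nat_lit 584734) (.g (nat_lit 2703) (.e (nat_lit 385065) (nat_lit 26) (.e (nat_lit 532535) (nat_lit 9) (.e (nat_lit 336295) (nat_lit 15) (.e (nat_lit 3253) (nat_lit 197) .nil)))) (.g (nat_lit 0) (.e (nat_lit 386776) (nat_lit 0) .nil) .nil))) 
(.lf (nat_lit 585246) (.g (nat_lit 2988) (.e (nat_lit 385074) (nat_lit 31) (.e (nat_lit 573484) (nat_lit 13) (.e (nat_lit 65610) (nat_lit 10) (.e (nat_lit 344129) (nat_lit 26) (.e (nat_lit 557087) (nat_lit 11) (.e (nat_lit 24649) (nat_lit 12) .nil)))))) (.g (nat_lit 1) (.e (nat_lit 387570) (nat_lit 0) .nil) .nil)))) (.nd (nat_lit 9) 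
(.lf (nat_lit 584990) (.g (nat_lit 1478) (.e (nat_lit 385068) (nat_lit 26) (.e (nat_lit 532534) (nat_lit 9) (.e (nat_lit 336324) (nat_lit 18) (.e (nat_lit 204851) (nat_lit 26) (.e (nat_lit 336324) (nat_lit 18) .nil))))) (.g (nat_lit 0) (.e (nat_lit 387152) (nat_lit 0) .nil) .nil))) 
(.lf (nat_lit 585502) (.g (nat_lit 2743) (.e (nat_lit 393225) (nat_lit 9) (.e (nat_lit 335988) (nat_lit 1) (.e (nat_lit 57926) (nat_lit 282) (.e (nat_lit 163875) (nat_lit 3) (.e (nat_lit 204850) (nat_lit 26) (.e (nat_lit 336224) (nat_lit 13) .nil)))))) (.g (nat_lit 1) (.e (nat_lit 388471) (nat_lit 0) .nil) .nil))))) (.nd (nat_lit 8) (.nd (nat_lit 9) 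
(.lf (nat_lit 584862) (.g (nat_lit 1873) (.e (nat_lit 385066) (nat_lit 26) (.e (nat_lit 532558) (nat_lit 14) (.e (nat_lit 376858) (nat_lit 21) (.e (nat_lit 57688) (nat_lit 156) (.e (nat_lit 163886) (nat_lit 5) (.e (nat_lit 229120) (nat_lit 17) .nil)))))) (.g (nat_lit 1) (.e (nat_lit 386951) (nat_lit 0) .nil) .nil))) 
(.lf (nat_lit 585374) (.g (nat_lit 1965) (.e (nat_lit 385093) (nat_lit 49) (.e (nat_lit 778317) (nat_lit 3) (.e (nat_lit 57477) (nat_lit 28) (.e (nat_lit 557067) (nat_lit 9) (.e (nat_lit 3022) (nat_lit 187) (.e (nat_lit 450578) (nat_lit 5) (.e (nat_lit 532566) (nat_lit 15) .nil))))))) (.g (nat_lit 1) (.e (nat_lit 387923) (nat_lit 0) .nil) .nil)))) (.nd (nat_lit 9) 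
(.lf (nat_lit 585118) (.g (nat_lit 2723) (.e (nat_lit 385072) (nat_lit 31) (.e (nat_lit 573493) (nat_lit 15) (.e (nat_lit 81953) (nat_lit 22) (.e (nat_lit 90187) (nat_lit 18) .nil)))) (.g (nat_lit 0) (.e (nat_lit 387354) (nat_lit 0) .nil) .nil))) 
(.lf (nat_lit 585630) (.g (nat_lit 2201) (.e (nat_lit 393251) (nat_lit 18) (.e (nat_lit 164325) (nat_lit 230) (.e (nat_lit 163869) (nat_lit 2) (.e (nat_lit 196628) (nat_lit 9) (.e (nat_lit 397) (nat_lit 32) .nil))))) (.g (nat_lit 0) (.e (nat_lit 388722) (nat_lit 0) .nil) .nil)))))) (.nd (nat_lit 7) (.nd (nat_lit 8) (.nd (nat_lit 9) 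
(.lf (nat_lit 584798) (.g (nat_lit 964) (.e (nat_lit 385066) (nat_lit 26) (.e (nat_lit 532529) (nat_lit 9) (.e (nat_lit 336324) (nat_lit 18) (.e (nat_lit 204880) (nat_lit 32) .nil)))) (.g (nat_lit 0) (.e (nat_lit 386876) (nat_lit 0) .nil) .nil))) 
(.lf (nat_lit 585310) (.g (nat_lit 2255) (.e (nat_lit 385074) (nat_lit 31) (.e (nat_lit 573491) (nat_lit 15) (.e (nat_lit 81956) (nat_lit 23) (.e (nat_lit 98320) (nat_lit 17) .nil)))) (.g (nat_lit 0) (.e (nat_lit 387695) (nat_lit 0) .nil) .nil)))) (.nd (nat_lit 9) 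
(.lf (nat_lit 585054) (.g (nat_lit 3143) (.e (nat_lit 385072) (nat_lit 31) (.e (nat_lit 573482) (nat_lit 13) (.e (nat_lit 65619) (nat_lit 10) (.e (nat_lit 344129) (nat_lit 26) (.e (nat_lit 557085) (nat_lit 11) (.e (nat_lit 24653) (nat_lit 12) .nil)))))) (.g (nat_lit 1) (.e (nat_lit 387260) (nat_lit 0) .nil) .nil))) 
(.lf (nat_lit 585566) (.g (nat_lit 2437) (.e (nat_lit 393233) (nat_lit 17) (.e (nat_lit 7593) (nat_lit 407) (.e (nat_lit 73773) (nat_lit 25) (.e (nat_lit 770072) (nat_lit 8) (.e (nat_lit 65627) (nat_lit 13) .nil))))) (.g (nat_lit 1) (.e (nat_lit 388620) (nat_lit 0) .nil) .nil))))) (.nd (nat_lit 8) (.nd (nat_lit 9) 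
(.lf (nat_lit 584926) (.g (nat_lit 1911) (.e (nat_lit 385068) (nat_lit 26) (.e (nat_lit 532504) (nat_lit 1) (.e (nat_lit 57852) (nat_lit 252) (.e (nat_lit 57377) (nat_lit 3) .nil)))) (.g (nat_lit 0) (.e (nat_lit 387070) (nat_lit 0) .nil) .nil))) 
(.lf (nat_lit 585438) (.g (nat_lit 408) (.e (nat_lit 385102) (nat_lit 50) (.e (nat_lit 786483) (nat_lit 30) (.e (nat_lit 360457) (nat_lit 0) .nil))) (.g (nat_lit 0) (.e (nat_lit 388054) (nat_lit 0) .nil) .nil)))) (.nd (nat_lit 9) 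
(.lf (nat_lit 585182) (.g (nat_lit 5050) (.e (nat_lit 385073) (nat_lit 31) (.e (nat_lit 573493) (nat_lit 15) (.e (nat_lit 81953) (nat_lit 22) (.e (nat_lit 90146) (nat_lit 9) .nil)))) (.g (nat_lit 0) (.e (nat_lit 387476) (nat_lit 0) .nil) .nil))) 
(.lf (nat_lit 585694) (.g (nat_lit 1908) (.e (nat_lit 393251) (nat_lit 18) (.e (nat_lit 164327) (nat_lit 230) (.e (nat_lit 163873) (nat_lit 3) (.e (nat_lit 204811) (nat_lit 9) (.e (nat_lit 426261) (nat_lit 9) (.e (nat_lit 426563) (nat_lit 34) .nil)))))) (.g (nat_lit 1) (.e (nat_lit 388786) (nat_lit 0) .nil) .nil))))))) (.nd (nat_lit 6) (.nd (nat_lit 7) (.nd (nat_lit 8) (.nd (nat_lit 9) 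
(.lf (nat_lit 584766) (.g (nat_lit 2018) (.e (nat_lit 385066) (nat_lit 26) (.e (nat_lit 532503) (nat_lit 1) (.e (nat_lit 57847) (nat_lit 252) (.e (nat_lit 57377) (nat_lit 3) .nil)))) (.g (nat_lit 0) (.e (nat_lit 386830) (nat_lit 0) .nil) .nil))) 
(.lf (nat_lit 585278) (.g (nat_lit 3218) (.e (nat_lit 385074) (nat_lit 31) (.e (nat_lit 573485) (nat_lit 13) (.e (nat_lit 65619) (nat_lit 10) (.e (nat_lit 344129) (nat_lit 26) (.e (nat_lit 557087) (nat_lit 11) (.e (nat_lit 32512) (nat_lit 12) .nil)))))) (.g (nat_lit 1) (.e (nat_lit 387644) (nat_lit 0) .nil) .nil)))) (.nd (nat_lit 9) 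
(.lf (nat_lit 585022) (.g (nat_lit 2042) (.e (nat_lit 385068) (nat_lit 26) (.e (nat_lit 532566) (nat_lit 15) (.e (nat_lit 385066) (nat_lit 26) (.e (nat_lit 532534) (nat_lit 9) (.e (nat_lit 336322) (nat_lit 18) (.e (nat_lit 204880) (nat_lit 32) .nil)))))) (.g (nat_lit 1) (.e (nat_lit 387186) (nat_lit 0) .nil) .nil))) 
(.lf (nat_lit 585534) (.g (nat_lit 2797) (.e (nat_lit 393229) (nat_lit 9) (.e (nat_lit 335988) (nat_lit 1) (.e (nat_lit 57926) (nat_lit 282) (.e (nat_lit 163874) (nat_lit 3) (.e (nat_lit 204855) (nat_lit 26) (.e (nat_lit 336212) (nat_lit 13) .nil)))))) (.g (nat_lit 1) (.e (nat_lit 388546) (nat_lit 0) .nil) .nil))))) (.nd (nat_lit 8) (.nd (nat_lit 9) 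
(.lf (nat_lit 584894) (.g (nat_lit 2904) (.e (nat_lit 385067) (nat_lit 26) (.e (nat_lit 532530) (nat_lit 9) (.e (nat_lit 336326) (nat_lit 18) (.e (nat_lit 204852) (nat_lit 26) (.e (nat_lit 336326) (nat_lit 18) (.e (nat_lit 204882) (nat_lit 32) .nil)))))) (.g (nat_lit 1) (.e (nat_lit 387009) (nat_lit 0) .nil) .nil))) 
(.lf (nat_lit 585406) (.g (nat_lit 2125) (.e (nat_lit 385094) (nat_lit 49) (.e (nat_lit 778323) (nat_lit 5) (.e (nat_lit 73781) (nat_lit 32) (.e (nat_lit 3089) (nat_lit 191) (.e (nat_lit 491264) (nat_lit 26) .nil))))) (.g (nat_lit 1) (.e (nat_lit 387984) (nat_lit 0) .nil) .nil)))) (.nd (nat_lit 9) 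
(.lf (nat_lit 585150) (.g (nat_lit 1643) (.e (nat_lit 385073) (nat_lit 31) (.e (nat_lit 573491) (nat_lit 15) (.e (nat_lit 81956) (nat_lit 23) (.e (nat_lit 106240) (nat_lit 33) .nil)))) (.g (nat_lit 0) (.e (nat_lit 387421) (nat_lit 0) .nil) .nil))) 
(.lf (nat_lit 585662) (.g (nat_lit 1922) (.e (nat_lit 393251) (nat_lit 18) (.e (nat_lit 164325) (nat_lit 230) (.e (nat_lit 163875) (nat_lit 3) (.e (nat_lit 204811) (nat_lit 9) (.e (nat_lit 426262) (nat_lit 9) (.e (nat_lit 433920) (nat_lit 34) .nil)))))) (.g (nat_lit 1) (.e (nat_lit 388754) (nat_lit 0) .nil) .nil)))))) (.nd (nat_lit 7) (.nd (nat_lit 8) (.nd (nat_lit 9) 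
(.lf (nat_lit 584830) (.g (nat_lit 3057) (.e (nat_lit 385066) (nat_lit 26) (.e (nat_lit 532534) (nat_lit 9) (.e (nat_lit 336019) (nat_lit 3) (.e (nat_lit 98333) (nat_lit 18) (.e (nat_lit 164242) (nat_lit 195) (.e (nat_lit 2611) (nat_lit 163) (.e (nat_lit 163963) (nat_lit 25) (.e (nat_lit 532563) (nat_lit 15) .nil)))))))) (.g (nat_lit 1) (.e (nat_lit 386912) (nat_lit 0) .nil) .nil))) 
(.lf (nat_lit 585342) (.g (nat_lit 2304) (.e (nat_lit 385074) (nat_lit 31) (.e (nat_lit 573493) (nat_lit 15) (.e (nat_lit 81954) (nat_lit 23) (.e (nat_lit 98321) (nat_lit 17) (.e (nat_lit 7936) (nat_lit 402) .nil))))) (.g (nat_lit 0) (.e (nat_lit 387731) (nat_lit 0) .nil) .nil)))) (.nd (nat_lit 9) 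
(.lf (nat_lit 585086) (.g (nat_lit 4172) (.e (nat_lit 385072) (nat_lit 31) (.e (nat_lit 573492) (nat_lit 15) (.e (nat_lit 81953) (nat_lit 22) (.e (nat_lit 90137) (nat_lit 9) .nil)))) (.g (nat_lit 0) (.e (nat_lit 387313) (nat_lit 0) .nil) .nil))) 
(.lf (nat_lit 585598) (.g (nat_lit 430) (.e (nat_lit 393250) (nat_lit 18) (.e (nat_lit 164398) (nat_lit 256) (.e (nat_lit 57378) (nat_lit 3) .nil))) (.g (nat_lit 0) (.e (nat_lit 388667) (nat_lit 0) .nil) .nil))))) (.nd (nat_lit 8) (.nd (nat_lit 9) 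
(.lf (nat_lit 584958) (.g (nat_lit 1369) (.e (nat_lit 385068) (nat_lit 26) (.e (nat_lit 532513) (nat_lit 3) (.e (nat_lit 122624) (nat_lit 11) (.e (nat_lit 426140) (nat_lit 3) (.e (nat_lit 204858) (nat_lit 26) (.e (nat_lit 336198) (nat_lit 12) .nil)))))) (.g (nat_lit 1) (.e (nat_lit 387112) (nat_lit 0) .nil) .nil))) 
(.lf (nat_lit 585470) (.g (nat_lit 2480) (.e (nat_lit 385107) (nat_lit 51) (.e (nat_lit 794676) (nat_lit 24) (.e (nat_lit 213030) (nat_lit 11) (.e (nat_lit 24617) (nat_lit 7) (.e (nat_lit 319533) (nat_lit 16) (.e (nat_lit 286758) (nat_lit 12) .nil)))))) (.g (nat_lit 1) (.e (nat_lit 388208) (nat_lit 0) .nil) .nil)))) (.nd (nat_lit 9) 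
(.lf (nat_lit 585214) (.g (nat_lit 1165) (.e (nat_lit 385074) (nat_lit 31) (.e (nat_lit 573482) (nat_lit 13) (.e (nat_lit 65540) (nat_lit 0) .nil))) (.g (nat_lit 0) (.e (nat_lit 387523) (nat_lit 0) .nil) .nil))) 
(.lf (nat_lit 585726) (.g (nat_lit 2058) (.e (nat_lit 393251) (nat_lit 18) (.e (nat_lit 164332) (nat_lit 230) (.e (nat_lit 163867) (nat_lit 2) (.e (nat_lit 196624) (nat_lit 9) (.e (nat_lit 479) (nat_lit 37) (.e (nat_lit 474880) (nat_lit 18) .nil)))))) (.g (nat_lit 1) (.e (nat_lit 388818) (nat_lit 0) .nil) .nil)))))))))))) 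
(.nd (nat_lit 1) (.nd (nat_lit 2) (.nd (nat_lit 3) (.nd (nat_lit 4) (.nd (nat_lit 5) 
(.nd (nat_lit 6) (.nd (nat_lit 7) (.nd (nat_lit 8) (.nd (nat_lit 9) 
(.lf (nat_lit 584705) (.g (nat_lit 1597) (.e (nat_lit 385064) (nat_lit 26) (.e (nat_lit 532530) (nat_lit 9) (.e (nat_lit 336326) (nat_lit 18) (.e (nat_lit 204852) (nat_lit 26) .nil)))) (.g (nat_lit 0) (.e (nat_lit 386705) (nat_lit 0) .nil) .nil))) 
(.lf (nat_lit 585217) (.g (nat_lit 1912) (.e (nat_lit 385074) (nat_lit 31) (.e (nat_lit 573482) (nat_lit 13) (.e (nat_lit 65619) (nat_lit 10) (.e (nat_lit 344121) (nat_lit 22) .nil)))) (.g (nat_lit 0) (.e (nat_lit 387526) (nat_lit 0) .nil) .nil)))) (.nd (nat_lit 9) 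
(.lf (nat_lit 584961) (.g (nat_lit 1723) (.e (nat_lit 385068) (nat_lit 26) (.e (nat_lit 532515) (nat_lit 3) (.e (nat_lit 114694) (nat_lit 11) (.e (nat_lit 426116) (nat_lit 2) (.e (nat_lit 196681) (nat_lit 17) (.e (nat_lit 131120) (nat_lit 12) .nil)))))) (.g (nat_lit 1) (.e (nat_lit 387117) (nat_lit 0) .nil) .nil))) 
(.lf (nat_lit 585473) (.g (nat_lit 2469) (.e (nat_lit 385109) (nat_lit 51) (.e (nat_lit 794664) (nat_lit 22) (.e (nat_lit 196654) (nat_lit 11) (.e (nat_lit 16436) (nat_lit 9) (.e (nat_lit 426131) (nat_lit 3) (.e (nat_lit 204881) (nat_lit 32) .nil)))))) (.g (nat_lit 1) (.e (nat_lit 388284) (nat_lit 0) .nil) .nil))))) (.nd (nat_lit 8) (.nd (nat_lit 9) 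
(.lf (nat_lit 584833) (.g (nat_lit 635) (.e (nat_lit 385066) (nat_lit 26) (.e (nat_lit 532534) (nat_lit 9) (.e (nat_lit 336257) (nat_lit 15) .nil))) (.g (nat_lit 0) (.e (nat_lit 386917) (nat_lit 0) .nil) .nil))) 
(.lf (nat_lit 585345) (.g (nat_lit 1680) (.e (nat_lit 385074) (nat_lit 31) (.e (nat_lit 573493) (nat_lit 15) (.e (nat_lit 81956) (nat_lit 23) (.e (nat_lit 98319) (nat_lit 17) .nil)))) (.g (nat_lit 0) (.e (nat_lit 387734) (nat_lit 0) .nil) .nil)))) (.nd (nat_lit 9) 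
(.lf (nat_lit 585089) (.g (nat_lit 3690) (.e (nat_lit 385072) (nat_lit 31) (.e (nat_lit 573492) (nat_lit 15) (.e (nat_lit 81953) (nat_lit 22) (.e (nat_lit 90146) (nat_lit 9) .nil)))) (.g (nat_lit 0) (.e (nat_lit 387316) (nat_lit 0) .nil) .nil))) 
(.lf (nat_lit 585601) (.g (nat_lit 426) (.e (nat_lit 393250) (nat_lit 18) (.e (nat_lit 164399) (nat_lit 256) (.e (nat_lit 57377) (nat_lit 3) .nil))) (.g (nat_lit 0) (.e (nat_lit 388670) (nat_lit 0) .nil) .nil)))))) (.nd (nat_lit 7) (.nd (nat_lit 8) (.nd (nat_lit 9) 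
(.lf (nat_lit 584769) (.g (nat_lit 419) (.e (nat_lit 385066) (nat_lit 26) (.e (nat_lit 532504) (nat_lit 1) (.e (nat_lit 57829) (nat_lit 250) .nil))) (.g (nat_lit 0) (.e (nat_lit 386835) (nat_lit 0) .nil) .nil))) 
(.lf (nat_lit 585281) (.g (nat_lit 3180) (.e (nat_lit 385074) (nat_lit 31) (.e (nat_lit 573485) (nat_lit 13) (.e (nat_lit 65628) (nat_lit 14) (.e (nat_lit 401425) (nat_lit 2) (.e (nat_lit 196681) (nat_lit 17) (.e (nat_lit 131122) (nat_lit 12) .nil)))))) (.g (nat_lit 1) (.e (nat_lit 387647) (nat_lit 0) .nil) .nil)))) (.nd (nat_lit 9) 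
(.lf (nat_lit 585025) (.g (nat_lit 2261) (.e (nat_lit 385068) (nat_lit 26) (.e (nat_lit 532566) (nat_lit 15) (.e (nat_lit 385066) (nat_lit 26) (.e (nat_lit 532565) (nat_lit 15) (.e (nat_lit 385068) (nat_lit 26) (.e (nat_lit 532566) (nat_lit 15) .nil)))))) (.g (nat_lit 1) (.e (nat_lit 387189) (nat_lit 0) .nil) .nil))) 
(.lf (nat_lit 585537) (.g (nat_lit 1967) (.e (nat_lit 393229) (nat_lit 9) (.e (nat_lit 335988) (nat_lit 1) (.e (nat_lit 57927) (nat_lit 282) (.e (nat_lit 163866) (nat_lit 2) (.e (nat_lit 196680) (nat_lit 17) (.e (nat_lit 131126) (nat_lit 13) .nil)))))) (.g (nat_lit 1) (.e (nat_lit 388549) (nat_lit 0) .nil) .nil))))) (.nd (nat_lit 8) (.nd (nat_lit 9) 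
(.lf (nat_lit 584897) (.g (nat_lit 2704) (.e (nat_lit 385067) (nat_lit 26) (.e (nat_lit 532530) (nat_lit 9) (.e (nat_lit 336326) (nat_lit 18) (.e (nat_lit 204880) (nat_lit 32) (.e (nat_lit 385066) (nat_lit 26) (.e (nat_lit 532565) (nat_lit 15) .nil)))))) (.g (nat_lit 1) (.e (nat_lit 387013) (nat_lit 0) .nil) .nil))) 
(.lf (nat_lit 585409) (.g (nat_lit 2508) (.e (nat_lit 385094) (nat_lit 49) (.e (nat_lit 778323) (nat_lit 5) (.e (nat_lit 73782) (nat_lit 32) (.e (nat_lit 2856) (nat_lit 184) (.e (nat_lit 426489) (nat_lit 27) (.e (nat_lit 336206) (nat_lit 12) .nil)))))) (.g (nat_lit 1) (.e (nat_lit 387987) (nat_lit 0) .nil) .nil)))) (.nd (nat_lit 9) 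
(.lf (nat_lit 585153) (.g (nat_lit 1217) (.e (nat_lit 385073) (nat_lit 31) (.e (nat_lit 573493) (nat_lit 15) (.e (nat_lit 81924) (nat_lit 0) .nil))) (.g (nat_lit 0) (.e (nat_lit 387425) (nat_lit 0) .nil) .nil))) 
(.lf (nat_lit 585665) (.g (nat_lit 2327) (.e (nat_lit 393251) (nat_lit 18) (.e (nat_lit 164327) (nat_lit 230) (.e (nat_lit 163868) (nat_lit 2) (.e (nat_lit 196624) (nat_lit 9) (.e (nat_lit 389) (nat_lit 32) .nil))))) (.g (nat_lit 0) (.e (nat_lit 388757) (nat_lit 0) .nil) .nil))))))) (.nd (nat_lit 6) (.nd (nat_lit 7) (.nd (nat_lit 8) (.nd (nat_lit 9) 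
(.lf (nat_lit 584737) (.g (nat_lit 2829) (.e (nat_lit 385065) (nat_lit 26) (.e (nat_lit 532547) (nat_lit 11) (.e (nat_lit 352309) (nat_lit 21) (.e (nat_lit 57686) (nat_lit 156) (.e (nat_lit 163885) (nat_lit 5) (.e (nat_lit 229120) (nat_lit 17) .nil)))))) (.g (nat_lit 1) (.e (nat_lit 386779) (nat_lit 0) .nil) .nil))) 
(.lf (nat_lit 585249) (.g (nat_lit 314) (.e (nat_lit 385074) (nat_lit 31) (.e (nat_lit 573484) (nat_lit 13) (.e (nat_lit 65617) (nat_lit 10) .nil))) (.g (nat_lit 0) (.e (nat_lit 387573) (nat_lit 0) .nil) .nil)))) (.nd (nat_lit 9) 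
(.lf (nat_lit 584993) (.g (nat_lit 2250) (.e (nat_lit 385068) (nat_lit 26) (.e (nat_lit 532534) (nat_lit 9) (.e (nat_lit 336324) (nat_lit 18) (.e (nat_lit 204854) (nat_lit 26) (.e (nat_lit 343808) (nat_lit 18) (.e (nat_lit 204882) (nat_lit 32) .nil)))))) (.g (nat_lit 1) (.e (nat_lit 387155) (nat_lit 0) .nil) .nil))) 
(.lf (nat_lit 585505) (.g (nat_lit 2338) (.e (nat_lit 393225) (nat_lit 9) (.e (nat_lit 335995) (nat_lit 1) (.e (nat_lit 57848) (nat_lit 252) (.e (nat_lit 57372) (nat_lit 2) (.e (nat_lit 98048) (nat_lit 11) (.e (nat_lit 24655) (nat_lit 13) .nil)))))) (.g (nat_lit 1) (.e (nat_lit 388481) (nat_lit 0) .nil) .nil))))) (.nd (nat_lit 8) (.nd (nat_lit 9) 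
(.lf (nat_lit 584865) (.g (nat_lit 2616) (.e (nat_lit 385066) (nat_lit 26) (.e (nat_lit 532560) (nat_lit 14) (.e (nat_lit 376859) (nat_lit 21) (.e (nat_lit 57688) (nat_lit 156) (.e (nat_lit 163884) (nat_lit 5) (.e (nat_lit 229120) (nat_lit 17) .nil)))))) (.g (nat_lit 1) (.e (nat_lit 386954) (nat_lit 0) .nil) .nil))) 
(.lf (nat_lit 585377) (.g (nat_lit 4347) (.e (nat_lit 385093) (nat_lit 49) (.e (nat_lit 778317) (nat_lit 3) (.e (nat_lit 57480) (nat_lit 28) (.e (nat_lit 557067) (nat_lit 9) (.e (nat_lit 3022) (nat_lit 187) (.e (nat_lit 450579) (nat_lit 5) (.e (nat_lit 532566) (nat_lit 15) .nil))))))) (.g (nat_lit 1) (.e (nat_lit 387926) (nat_lit 0) .nil) .nil)))) (.nd (nat_lit 9) 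
(.lf (nat_lit 585121) (.g (nat_lit 3947) (.e (nat_lit 385072) (nat_lit 31) (.e (nat_lit 573493) (nat_lit 15) (.e (nat_lit 81956) (nat_lit 23) (.e (nat_lit 98319) (nat_lit 17) .nil)))) (.g (nat_lit 0) (.e (nat_lit 387359) (nat_lit 0) .nil) .nil))) 
(.lf (nat_lit 585633) (.g (nat_lit 2672) (.e (nat_lit 393251) (nat_lit 18) (.e (nat_lit 164325) (nat_lit 230) (.e (nat_lit 163869) (nat_lit 2) (.e (nat_lit 196656) (nat_lit 11) (.e (nat_lit 16434) (nat_lit 9) .nil))))) (.g (nat_lit 0) (.e (nat_lit 388725) (nat_lit 0) .nil) .nil)))))) (.nd (nat_lit 7) (.nd (nat_lit 8) (.nd (nat_lit 9) 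
(.lf (nat_lit 584801) (.g (nat_lit 2948) (.e (nat_lit 385066) (nat_lit 26) (.e (nat_lit 532530) (nat_lit 9) (.e (nat_lit 336325) (nat_lit 18) (.e (nat_lit 204852) (nat_lit 26) (.e (nat_lit 336325) (nat_lit 18) (.e (nat_lit 204880) (nat_lit 32) .nil)))))) (.g (nat_lit 1) (.e (nat_lit 386880) (nat_lit 0) .nil) .nil))) 
(.lf (nat_lit 585313) (.g (nat_lit 2779) (.e (nat_lit 385074) (nat_lit 31) (.e (nat_lit 573492) (nat_lit 15) (.e (nat_lit 81956) (nat_lit 23) (.e (nat_lit 98320) (nat_lit 17) .nil)))) (.g (nat_lit 0) (.e (nat_lit 387698) (nat_lit 0) .nil) .nil)))) (.nd (nat_lit 9) 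
(.lf (nat_lit 585057) (.g (nat_lit 4697) (.e (nat_lit 385072) (nat_lit 31) (.e (nat_lit 573482) (nat_lit 13) (.e (nat_lit 65619) (nat_lit 10) (.e (nat_lit 344129) (nat_lit 26) (.e (nat_lit 557087) (nat_lit 11) (.e (nat_lit 24648) (nat_lit 12) .nil)))))) (.g (nat_lit 1) (.e (nat_lit 387263) (nat_lit 0) .nil) .nil))) 
(.lf (nat_lit 585569) (.g (nat_lit 2497) (.e (nat_lit 393234) (nat_lit 17) (.e (nat_lit 7593) (nat_lit 407) (.e (nat_lit 73773) (nat_lit 25) (.e (nat_lit 770072) (nat_lit 8) (.e (nat_lit 65625) (nat_lit 13) .nil))))) (.g (nat_lit 1) (.e (nat_lit 388625) (nat_lit 0) .nil) .nil))))) (.nd (nat_lit 8) (.nd (nat_lit 9) 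
(.lf (nat_lit 584929) (.g (nat_lit 2879) (.e (nat_lit 385068) (nat_lit 26) (.e (nat_lit 532504) (nat_lit 1) (.e (nat_lit 57852) (nat_lit 252) (.e (nat_lit 57406) (nat_lit 12) (.e (nat_lit 336369) (nat_lit 27) .nil))))) (.g (nat_lit 0) (.e (nat_lit 387074) (nat_lit 0) .nil) .nil))) 
(.lf (nat_lit 585441) (.g (nat_lit 597) (.e (nat_lit 385103) (nat_lit 50) (.e (nat_lit 786480) (nat_lit 29) (.e (nat_lit 352270) (nat_lit 8) .nil))) (.g (nat_lit 0) (.e (nat_lit 388059) (nat_lit 0) .nil) .nil)))) (.nd (nat_lit 9) 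
(.lf (nat_lit 585185) (.g (nat_lit 1511) (.e (nat_lit 385073) (nat_lit 31) (.e (nat_lit 573493) (nat_lit 15) (.e (nat_lit 81953) (nat_lit 22) (.e (nat_lit 90165) (nat_lit 12) .nil)))) (.g (nat_lit 0) (.e (nat_lit 387479) (nat_lit 0) .nil) .nil))) 
(.lf (nat_lit 585697) (.g (nat_lit 1832) (.e (nat_lit 393251) (nat_lit 18) (.e (nat_lit 164327) (nat_lit 230) (.e (nat_lit 163873) (nat_lit 3) (.e (nat_lit 204811) (nat_lit 9) (.e (nat_lit 426262) (nat_lit 9) (.e (nat_lit 433920) (nat_lit 34) .nil)))))) (.g (nat_lit 1) (.e (nat_lit 388789) (nat_lit 0) .nil) .nil)))))))) 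
(.nd (nat_lit 5) (.nd (nat_lit 6) (.nd (nat_lit 7) (.nd (nat_lit 8) (.nd (nat_lit 9) 
(.lf (nat_lit 584721) (.g (nat_lit 2636) (.e (nat_lit 385065) (nat_lit 26) (.e (nat_lit 532529) (nat_lit 9) (.e (nat_lit 336326) (nat_lit 18) (.e (nat_lit 204882) (nat_lit 32) (.e (nat_lit 385066) (nat_lit 26) (.e (nat_lit 532565) (nat_lit 15) .nil)))))) (.g (nat_lit 1) (.e (nat_lit 386758) (nat_lit 0) .nil) .nil))) 
(.lf (nat_lit 585233) (.g (nat_lit 2018) (.e (nat_lit 385074) (nat_lit 31) (.e (nat_lit 573484) (nat_lit 13) (.e (nat_lit 65610) (nat_lit 10) (.e (nat_lit 344117) (nat_lit 21) (.e (nat_lit 516098) (nat_lit 0) .nil))))) (.g (nat_lit 0) (.e (nat_lit 387549) (nat_lit 0) .nil) .nil)))) (.nd (nat_lit 9) 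
(.lf (nat_lit 584977) (.g (nat_lit 1900) (.e (nat_lit 385068) (nat_lit 26) (.e (nat_lit 532530) (nat_lit 9) (.e (nat_lit 336324) (nat_lit 18) (.e (nat_lit 204854) (nat_lit 26) (.e (nat_lit 343808) (nat_lit 18) .nil))))) (.g (nat_lit 0) (.e (nat_lit 387137) (nat_lit 0) .nil) .nil))) 
(.lf (nat_lit 585489) (.g (nat_lit 1285) (.e (nat_lit 393224) (nat_lit 9) (.e (nat_lit 335996) (nat_lit 1) (.e (nat_lit 57931) (nat_lit 282) (.e (nat_lit 163866) (nat_lit 2) .nil)))) (.g (nat_lit 0) (.e (nat_lit 388441) (nat_lit 0) .nil) .nil))))) (.nd (nat_lit 8) (.nd (nat_lit 9) 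
(.lf (nat_lit 584849) (.g (nat_lit 2984) (.e (nat_lit 385066) (nat_lit 26) (.e (nat_lit 532534) (nat_lit 9) (.e (nat_lit 336326) (nat_lit 18) (.e (nat_lit 204854) (nat_lit 26) (.e (nat_lit 336258) (nat_lit 15) (.e (nat_lit 3241) (nat_lit 197) (.e (nat_lit 532563) (nat_lit 15) .nil))))))) (.g (nat_lit 1) (.e (nat_lit 386935) (nat_lit 0) .nil) .nil))) 
(.lf (nat_lit 585361) (.g (nat_lit 1975) (.e (nat_lit 385091) (nat_lit 49) (.e (nat_lit 778323) (nat_lit 5) (.e (nat_lit 73782) (nat_lit 32) (.e (nat_lit 3088) (nat_lit 191) (.e (nat_lit 483405) (nat_lit 26) .nil))))) (.g (nat_lit 1) (.e (nat_lit 387897) (nat_lit 0) .nil) .nil)))) (.nd (nat_lit 9) 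
(.lf (nat_lit 585105) (.g (nat_lit 4661) (.e (nat_lit 385072) (nat_lit 31) (.e (nat_lit 573493) (nat_lit 15) (.e (nat_lit 81953) (nat_lit 22) (.e (nat_lit 90127) (nat_lit 9) .nil)))) (.g (nat_lit 0) (.e (nat_lit 387341) (nat_lit 0) .nil) .nil))) 
(.lf (nat_lit 585617) (.g (nat_lit 1881) (.e (nat_lit 393251) (nat_lit 18) (.e (nat_lit 164325) (nat_lit 230) (.e (nat_lit 163868) (nat_lit 2) (.e (nat_lit 196624) (nat_lit 9) (.e (nat_lit 389) (nat_lit 32) .nil))))) (.g (nat_lit 0) (.e (nat_lit 388709) (nat_lit 0) .nil) .nil)))))) (.nd (nat_lit 7) (.nd (nat_lit 8) (.nd (nat_lit 9) 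
(.lf (nat_lit 584785) (.g (nat_lit 1834) (.e (nat_lit 385066) (nat_lit 26) (.e (nat_lit 532515) (nat_lit 3) (.e (nat_lit 114694) (nat_lit 11) (.e (nat_lit 426116) (nat_lit 2) (.e (nat_lit 196681) (nat_lit 17) (.e (nat_lit 131123) (nat_lit 12) .nil)))))) (.g (nat_lit 1) (.e (nat_lit 386863) (nat_lit 0) .nil) .nil))) 
(.lf (nat_lit 585297) (.g (nat_lit 606) (.e (nat_lit 385074) (nat_lit 31) (.e (nat_lit 573491) (nat_lit 15) (.e (nat_lit 81923) (nat_lit 0) .nil))) (.g (nat_lit 0) (.e (nat_lit 387681) (nat_lit 0) .nil) .nil)))) (.nd (nat_lit 9) 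
(.lf (nat_lit 585041) (.g (nat_lit 3327) (.e (nat_lit 385072) (nat_lit 31) (.e (nat_lit 573481) (nat_lit 13) (.e (nat_lit 65619) (nat_lit 10) (.e (nat_lit 344129) (nat_lit 26) (.e (nat_lit 557085) (nat_lit 11) (.e (nat_lit 24653) (nat_lit 12) .nil)))))) (.g (nat_lit 1) (.e (nat_lit 387247) (nat_lit 0) .nil) .nil))) 
(.lf (nat_lit 585553) (.g (nat_lit 2605) (.e (nat_lit 393229) (nat_lit 9) (.e (nat_lit 336033) (nat_lit 4) (.e (nat_lit 123194) (nat_lit 266) (.e (nat_lit 57371) (nat_lit 2) (.e (nat_lit 90196) (nat_lit 18) (.e (nat_lit 2787) (nat_lit 179) (.e (nat_lit 294959) (nat_lit 13) .nil))))))) (.g (nat_lit 1) (.e (nat_lit 388573) (nat_lit 0) .nil) .nil))))) (.nd (nat_lit 8) (.nd (nat_lit 9) 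
(.lf (nat_lit 584913) (.g (nat_lit 2612) (.e (nat_lit 385068) (nat_lit 26) (.e (nat_lit 532501) (nat_lit 1) (.e (nat_lit 57852) (nat_lit 252) (.e (nat_lit 57406) (nat_lit 12) (.e (nat_lit 336452) (nat_lit 34) .nil))))) (.g (nat_lit 0) (.e (nat_lit 387044) (nat_lit 0) .nil) .nil))) 
(.lf (nat_lit 585425) (.g (nat_lit 1409) (.e (nat_lit 385102) (nat_lit 50) (.e (nat_lit 786480) (nat_lit 29) (.e (nat_lit 352318) (nat_lit 24) (.e (nat_lit 123198) (nat_lit 266) .nil)))) (.g (nat_lit 0) (.e (nat_lit 388030) (nat_lit 0) .nil) .nil)))) (.nd (nat_lit 9) 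
(.lf (nat_lit 585169) (.g (nat_lit 3999) (.e (nat_lit 385073) (nat_lit 31) (.e (nat_lit 573493) (nat_lit 15) (.e (nat_lit 81953) (nat_lit 22) (.e (nat_lit 90121) (nat_lit 9) .nil)))) (.g (nat_lit 0) (.e (nat_lit 387463) (nat_lit 0) .nil) .nil))) 
(.lf (nat_lit 585681) (.g (nat_lit 1433) (.e (nat_lit 393251) (nat_lit 18) (.e (nat_lit 164327) (nat_lit 230) (.e (nat_lit 163871) (nat_lit 2) (.e (nat_lit 196624) (nat_lit 9) .nil)))) (.g (nat_lit 0) (.e (nat_lit 388773) (nat_lit 0) .nil) .nil))))))) (.nd (nat_lit 6) (.nd (nat_lit 7) (.nd (nat_lit 8) (.nd (nat_lit 9) 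
(.lf (nat_lit 584753) (.g (nat_lit 1525) (.e (nat_lit 385066) (nat_lit 26) (.e (nat_lit 532499) (nat_lit 1) (.e (nat_lit 57854) (nat_lit 252) (.e (nat_lit 57406) (nat_lit 12) (.e (nat_lit 336455) (nat_lit 34) .nil))))) (.g (nat_lit 0) (.e (nat_lit 386804) (nat_lit 0) .nil) .nil))) 
(.lf (nat_lit 585265) (.g (nat_lit 2326) (.e (nat_lit 385074) (nat_lit 31) (.e (nat_lit 573484) (nat_lit 13) (.e (nat_lit 65628) (nat_lit 14) (.e (nat_lit 401425) (nat_lit 2) (.e (nat_lit 196628) (nat_lit 9) .nil))))) (.g (nat_lit 0) (.e (nat_lit 387613) (nat_lit 0) .nil) .nil)))) (.nd (nat_lit 9) 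
(.lf (nat_lit 585009) (.g (nat_lit 2548) (.e (nat_lit 385068) (nat_lit 26) (.e (nat_lit 532560) (nat_lit 14) (.e (nat_lit 376859) (nat_lit 21) (.e (nat_lit 57686) (nat_lit 156) (.e (nat_lit 163884) (nat_lit 5) (.e (nat_lit 229120) (nat_lit 17) .nil)))))) (.g (nat_lit 1) (.e (nat_lit 387172) (nat_lit 0) .nil) .nil))) 
(.lf (nat_lit 585521) (.g (nat_lit 1890) (.e (nat_lit 393228) (nat_lit 9) (.e (nat_lit 335988) (nat_lit 1) (.e (nat_lit 57927) (nat_lit 282) (.e (nat_lit 163869) (nat_lit 2) (.e (nat_lit 196681) (nat_lit 17) .nil))))) (.g (nat_lit 0) (.e (nat_lit 388517) (nat_lit 0) .nil) .nil))))) (.nd (nat_lit 8) (.nd (nat_lit 9) 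
(.lf (nat_lit 584881) (.g (nat_lit 1510) (.e (nat_lit 385066) (nat_lit 26) (.e (nat_lit 532565) (nat_lit 15) (.e (nat_lit 385067) (nat_lit 26) (.e (nat_lit 532530) (nat_lit 9) (.e (nat_lit 336326) (nat_lit 18) (.e (nat_lit 204881) (nat_lit 32) .nil)))))) (.g (nat_lit 1) (.e (nat_lit 386974) (nat_lit 0) .nil) .nil))) 
(.lf (nat_lit 585393) (.g (nat_lit 3415) (.e (nat_lit 385094) (nat_lit 49) (.e (nat_lit 778317) (nat_lit 3) (.e (nat_lit 57477) (nat_lit 28) (.e (nat_lit 557067) (nat_lit 9) (.e (nat_lit 3022) (nat_lit 187) (.e (nat_lit 450579) (nat_lit 5) (.e (nat_lit 532566) (nat_lit 15) .nil))))))) (.g (nat_lit 1) (.e (nat_lit 387956) (nat_lit 0) .nil) .nil)))) (.nd (nat_lit 9) 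
(.lf (nat_lit 585137) (.g (nat_lit 1713) (.e (nat_lit 385073) (nat_lit 31) (.e (nat_lit 573482) (nat_lit 13) (.e (nat_lit 65630) (nat_lit 14) (.e (nat_lit 401428) (nat_lit 3) .nil)))) (.g (nat_lit 0) (.e (nat_lit 387384) (nat_lit 0) .nil) .nil))) 
(.lf (nat_lit 585649) (.g (nat_lit 3975) (.e (nat_lit 393251) (nat_lit 18) (.e (nat_lit 164325) (nat_lit 230) (.e (nat_lit 163873) (nat_lit 3) (.e (nat_lit 204813) (nat_lit 9) (.e (nat_lit 426196) (nat_lit 9) (.e (nat_lit 426568) (nat_lit 34) .nil)))))) (.g (nat_lit 1) (.e (nat_lit 388741) (nat_lit 0) .nil) .nil)))))) (.nd (nat_lit 7) (.nd (nat_lit 8) (.nd (nat_lit 9) 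
(.lf (nat_lit 584817) (.g (nat_lit 2928) (.e (nat_lit 385066) (nat_lit 26) (.e (nat_lit 532530) (nat_lit 9) (.e (nat_lit 336326) (nat_lit 18) (.e (nat_lit 204880) (nat_lit 32) (.e (nat_lit 385068) (nat_lit 26) (.e (nat_lit 532566) (nat_lit 15) .nil)))))) (.g (nat_lit 1) (.e (nat_lit 386896) (nat_lit 0) .nil) .nil))) 
(.lf (nat_lit 585329) (.g (nat_lit 4031) (.e (nat_lit 385074) (nat_lit 31) (.e (nat_lit 573493) (nat_lit 15) (.e (nat_lit 81953) (nat_lit 22) (.e (nat_lit 90130) (nat_lit 9) (.e (nat_lit 3097) (nat_lit 192) .nil))))) (.g (nat_lit 0) (.e (nat_lit 387717) (nat_lit 0) .nil) .nil)))) (.nd (nat_lit 9) 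
(.lf (nat_lit 585073) (.g (nat_lit 4020) (.e (nat_lit 385072) (nat_lit 31) (.e (nat_lit 573485) (nat_lit 13) (.e (nat_lit 65619) (nat_lit 10) (.e (nat_lit 344129) (nat_lit 26) (.e (nat_lit 557087) (nat_lit 11) (.e (nat_lit 24650) (nat_lit 12) .nil)))))) (.g (nat_lit 1) (.e (nat_lit 387283) (nat_lit 0) .nil) .nil))) 
(.lf (nat_lit 585585) (.g (nat_lit 1545) (.e (nat_lit 393250) (nat_lit 18) (.e (nat_lit 164327) (nat_lit 230) (.e (nat_lit 163873) (nat_lit 3) (.e (nat_lit 204811) (nat_lit 9) .nil)))) (.g (nat_lit 0) (.e (nat_lit 388654) (nat_lit 0) .nil) .nil))))) (.nd (nat_lit 8) (.nd (nat_lit 9) 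
(.lf (nat_lit 584945) (.g (nat_lit 2547) (.e (nat_lit 385068) (nat_lit 26) (.e (nat_lit 532513) (nat_lit 3) (.e (nat_lit 114697) (nat_lit 11) (.e (nat_lit 426114) (nat_lit 2) (.e (nat_lit 196681) (nat_lit 17) (.e (nat_lit 131123) (nat_lit 12) .nil)))))) (.g (nat_lit 1) (.e (nat_lit 387094) (nat_lit 0) .nil) .nil))) 
(.lf (nat_lit 585457) (.g (nat_lit 528) (.e (nat_lit 385106) (nat_lit 50) (.e (nat_lit 786478) (nat_lit 29) (.e (nat_lit 352258) (nat_lit 0) .nil))) (.g (nat_lit 0) (.e (nat_lit 388107) (nat_lit 0) .nil) .nil)))) (.nd (nat_lit 9) 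
(.lf (nat_lit 585201) (.g (nat_lit 685) (.e (nat_lit 385073) (nat_lit 31) (.e (nat_lit 573493) (nat_lit 15) (.e (nat_lit 81961) (nat_lit 25) .nil))) (.g (nat_lit 0) (.e (nat_lit 387501) (nat_lit 0) .nil) .nil))) 
(.lf (nat_lit 585713) (.g (nat_lit 1433) (.e (nat_lit 393251) (nat_lit 18) (.e (nat_lit 164327) (nat_lit 230) (.e (nat_lit 163875) (nat_lit 3) (.e (nat_lit 212736) (nat_lit 9) .nil)))) (.g (nat_lit 0) (.e (nat_lit 388805) (nat_lit 0) .nil) .nil))))))))) (.nd (nat_lit 4) (.nd (nat_lit 5) (.nd (nat_lit 6) (.nd (nat_lit 7) (.nd (nat_lit 8) (.nd (nat_lit 9) 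
(.lf (nat_lit 584713) (.g (nat_lit 2027) (.e (nat_lit 385065) (nat_lit 26) (.e (nat_lit 532499) (nat_lit 1) (.e (nat_lit 57847) (nat_lit 252) (.e (nat_lit 57410) (nat_lit 12) .nil)))) (.g (nat_lit 0) (.e (nat_lit 386717) (nat_lit 0) .nil) .nil))) 
(.lf (nat_lit 585225) (.g (nat_lit 1165) (.e (nat_lit 385074) (nat_lit 31) (.e (nat_lit 573482) (nat_lit 13) (.e (nat_lit 65629) (nat_lit 14) .nil))) (.g (nat_lit 0) (.e (nat_lit 387535) (nat_lit 0) .nil) .nil)))) (.nd (nat_lit 9) 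
(.lf (nat_lit 584969) (.g (nat_lit 1857) (.e (nat_lit 385068) (nat_lit 26) (.e (nat_lit 532515) (nat_lit 3) (.e (nat_lit 114698) (nat_lit 11) (.e (nat_lit 426124) (nat_lit 2) (.e (nat_lit 196665) (nat_lit 13) .nil))))) (.g (nat_lit 0) (.e (nat_lit 387127) (nat_lit 0) .nil) .nil))) 
(.lf (nat_lit 585481) (.g (nat_lit 187) (.e (nat_lit 401152) (nat_lit 3) (.e (nat_lit 114715) (nat_lit 22) (.e (nat_lit 98048) (nat_lit 21) .nil))) (.g (nat_lit 0) (.e (nat_lit 388405) (nat_lit 0) .nil) .nil))))) (.nd (nat_lit 8) (.nd (nat_lit 9) 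
(.lf (nat_lit 584841) (.g (nat_lit 939) (.e (nat_lit 385066) (nat_lit 26) (.e (nat_lit 532534) (nat_lit 9) (.e (nat_lit 336324) (nat_lit 18) (.e (nat_lit 204882) (nat_lit 32) .nil)))) (.g (nat_lit 0) (.e (nat_lit 386926) (nat_lit 0) .nil) .nil))) 
(.lf (nat_lit 585353) (.g (nat_lit 1506) (.e (nat_lit 385074) (nat_lit 31) (.e (nat_lit 573493) (nat_lit 15) (.e (nat_lit 81957) (nat_lit 24) (.e (nat_lit 130816) (nat_lit 142) .nil)))) (.g (nat_lit 0) (.e (nat_lit 387744) (nat_lit 0) .nil) .nil)))) (.nd (nat_lit 9) 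
(.lf (nat_lit 585097) (.g (nat_lit 2195) (.e (nat_lit 385072) (nat_lit 31) (.e (nat_lit 573492) (nat_lit 15) (.e (nat_lit 81956) (nat_lit 23) (.e (nat_lit 98323) (nat_lit 17) .nil)))) (.g (nat_lit 0) (.e (nat_lit 387327) (nat_lit 0) .nil) .nil))) 
(.lf (nat_lit 585609) (.g (nat_lit 2821) (.e (nat_lit 393251) (nat_lit 18) (.e (nat_lit 164179) (nat_lit 154) (.e (nat_lit 57411) (nat_lit 12) (.e (nat_lit 336324) (nat_lit 18) (.e (nat_lit 204855) (nat_lit 26) .nil))))) (.g (nat_lit 0) (.e (nat_lit 388689) (nat_lit 0) .nil) .nil)))))) (.nd (nat_lit 7) (.nd (nat_lit 8) (.nd (nat_lit 9) 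
(.lf (nat_lit 584777) (.g (nat_lit 2699) (.e (nat_lit 385066) (nat_lit 26) (.e (nat_lit 532513) (nat_lit 3) (.e (nat_lit 114697) (nat_lit 11) (.e (nat_lit 426124) (nat_lit 2) (.e (nat_lit 196681) (nat_lit 17) (.e (nat_lit 131120) (nat_lit 12) .nil)))))) (.g (nat_lit 1) (.e (nat_lit 386854) (nat_lit 0) .nil) .nil))) 
(.lf (nat_lit 585289) (.g (nat_lit 2467) (.e (nat_lit 385074) (nat_lit 31) (.e (nat_lit 573485) (nat_lit 13) (.e (nat_lit 65630) (nat_lit 14) (.e (nat_lit 401428) (nat_lit 3) (.e (nat_lit 204855) (nat_lit 26) (.e (nat_lit 336200) (nat_lit 12) .nil)))))) (.g (nat_lit 1) (.e (nat_lit 387655) (nat_lit 0) .nil) .nil)))) (.nd (nat_lit 9) 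
(.lf (nat_lit 585033) (.g (nat_lit 2358) (.e (nat_lit 392960) (nat_lit 24) (.e (nat_lit 516160) (nat_lit 10) (.e (nat_lit 434244) (nat_lit 28) (.e (nat_lit 573487) (nat_lit 14) (.e (nat_lit 73729) (nat_lit 0) .nil))))) (.g (nat_lit 0) (.e (nat_lit 387226) (nat_lit 0) .nil) .nil))) 
(.lf (nat_lit 585545) (.g (nat_lit 2955) (.e (nat_lit 393229) (nat_lit 9) (.e (nat_lit 335995) (nat_lit 1) (.e (nat_lit 57846) (nat_lit 252) (.e (nat_lit 57372) (nat_lit 2) (.e (nat_lit 90159) (nat_lit 11) (.e (nat_lit 24657) (nat_lit 13) .nil)))))) (.g (nat_lit 1) (.e (nat_lit 388562) (nat_lit 0) .nil) .nil))))) (.nd (nat_lit 8) (.nd (nat_lit 9) 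
(.lf (nat_lit 584905) (.g (nat_lit 1076) (.e (nat_lit 385067) (nat_lit 26) (.e (nat_lit 532563) (nat_lit 15) (.e (nat_lit 385066) (nat_lit 26) (.e (nat_lit 532532) (nat_lit 9) .nil)))) (.g (nat_lit 0) (.e (nat_lit 387027) (nat_lit 0) .nil) .nil))) 
(.lf (nat_lit 585417) (.g (nat_lit 3007) (.e (nat_lit 385094) (nat_lit 49) (.e (nat_lit 778324) (nat_lit 5) (.e (nat_lit 73781) (nat_lit 32) (.e (nat_lit 2857) (nat_lit 184) (.e (nat_lit 426482) (nat_lit 27) (.e (nat_lit 336205) (nat_lit 12) .nil)))))) (.g (nat_lit 1) (.e (nat_lit 387995) (nat_lit 0) .nil) .nil)))) (.nd (nat_lit 9) 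
(.lf (nat_lit 585161) (.g (nat_lit 1229) (.e (nat_lit 385073) (nat_lit 31) (.e (nat_lit 573493) (nat_lit 15) (.e (nat_lit 81943) (nat_lit 20) .nil))) (.g (nat_lit 0) (.e (nat_lit 387447) (nat_lit 0) .nil) .nil))) 
(.lf (nat_lit 585673) (.g (nat_lit 1752) (.e (nat_lit 393251) (nat_lit 18) (.e (nat_lit 164327) (nat_lit 230) (.e (nat_lit 163868) (nat_lit 2) (.e (nat_lit 196654) (nat_lit 11) (.e (nat_lit 16437) (nat_lit 9) .nil))))) (.g (nat_lit 0) (.e (nat_lit 388765) (nat_lit 0) .nil) .nil))))))) (.nd (nat_lit 6) (.nd (nat_lit 7) (.nd (nat_lit 8) (.nd (nat_lit 9) 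
(.lf (nat_lit 584745) (.g (nat_lit 1432) (.e (nat_lit 385065) (nat_lit 26) (.e (nat_lit 532560) (nat_lit 14) (.e (nat_lit 376842) (nat_lit 11) (.e (nat_lit 426106) (nat_lit 1) .nil)))) (.g (nat_lit 0) (.e (nat_lit 386787) (nat_lit 0) .nil) .nil))) 
(.lf (nat_lit 585257) (.g (nat_lit 2025) (.e (nat_lit 385074) (nat_lit 31) (.e (nat_lit 573484) (nat_lit 13) (.e (nat_lit 65617) (nat_lit 10) (.e (nat_lit 344132) (nat_lit 26) (.e (nat_lit 557070) (nat_lit 9) .nil))))) (.g (nat_lit 0) (.e (nat_lit 387595) (nat_lit 0) .nil) .nil)))) (.nd (nat_lit 9) 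
(.lf (nat_lit 585001) (.g (nat_lit 2568) (.e (nat_lit 385068) (nat_lit 26) (.e (nat_lit 532558) (nat_lit 14) (.e (nat_lit 376842) (nat_lit 11) (.e (nat_lit 426098) (nat_lit 1) (.e (nat_lit 164148) (nat_lit 152) .nil))))) (.g (nat_lit 0) (.e (nat_lit 387164) (nat_lit 0) .nil) .nil))) 
(.lf (nat_lit 585513) (.g (nat_lit 3369) (.e (nat_lit 393225) (nat_lit 9) (.e (nat_lit 335995) (nat_lit 1) (.e (nat_lit 57931) (nat_lit 282) (.e (nat_lit 163869) (nat_lit 2) (.e (nat_lit 196681) (nat_lit 17) (.e (nat_lit 131128) (nat_lit 13) .nil)))))) (.g (nat_lit 1) (.e (nat_lit 388499) (nat_lit 0) .nil) .nil))))) (.nd (nat_lit 8) (.nd (nat_lit 9) 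
(.lf (nat_lit 584873) (.g (nat_lit 633) (.e (nat_lit 385066) (nat_lit 26) (.e (nat_lit 532563) (nat_lit 15) (.e (nat_lit 385067) (nat_lit 26) .nil))) (.g (nat_lit 0) (.e (nat_lit 386965) (nat_lit 0) .nil) .nil))) 
(.lf (nat_lit 585385) (.g (nat_lit 1551) (.e (nat_lit 385093) (nat_lit 49) (.e (nat_lit 778323) (nat_lit 5) (.e (nat_lit 73781) (nat_lit 32) (.e (nat_lit 3090) (nat_lit 191) (.e (nat_lit 491264) (nat_lit 26) .nil))))) (.g (nat_lit 0) (.e (nat_lit 387944) (nat_lit 0) .nil) .nil)))) (.nd (nat_lit 9) 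
(.lf (nat_lit 585129) (.g (nat_lit 1890) (.e (nat_lit 385073) (nat_lit 31) (.e (nat_lit 573482) (nat_lit 13) (.e (nat_lit 65619) (nat_lit 10) (.e (nat_lit 344129) (nat_lit 26) (.e (nat_lit 557085) (nat_lit 11) (.e (nat_lit 24651) (nat_lit 12) .nil)))))) (.g (nat_lit 1) (.e (nat_lit 387374) (nat_lit 0) .nil) .nil))) 
(.lf (nat_lit 585641) (.g (nat_lit 3331) (.e (nat_lit 393251) (nat_lit 18) (.e (nat_lit 164325) (nat_lit 230) (.e (nat_lit 163871) (nat_lit 2) (.e (nat_lit 196654) (nat_lit 11) (.e (nat_lit 16433) (nat_lit 9) (.e (nat_lit 426568) (nat_lit 34) .nil)))))) (.g (nat_lit 1) (.e (nat_lit 388733) (nat_lit 0) .nil) .nil)))))) (.nd (nat_lit 7) (.nd (nat_lit 8) (.nd (nat_lit 9) 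
(.lf (nat_lit 584809) (.g (nat_lit 1616) (.e (nat_lit 385066) (nat_lit 26) (.e (nat_lit 532530) (nat_lit 9) (.e (nat_lit 336326) (nat_lit 18) (.e (nat_lit 204854) (nat_lit 26) (.e (nat_lit 336284) (nat_lit 15) .nil))))) (.g (nat_lit 0) (.e (nat_lit 386888) (nat_lit 0) .nil) .nil))) 
(.lf (nat_lit 585321) (.g (nat_lit 926) (.e (nat_lit 385074) (nat_lit 31) (.e (nat_lit 573493) (nat_lit 15) (.e (nat_lit 81947) (nat_lit 20) (.e (nat_lit 1842) (nat_lit 123) .nil)))) (.g (nat_lit 0) (.e (nat_lit 387707) (nat_lit 0) .nil) .nil)))) (.nd (nat_lit 9) 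
(.lf (nat_lit 585065) (.g (nat_lit 3013) (.e (nat_lit 385072) (nat_lit 31) (.e (nat_lit 573484) (nat_lit 13) (.e (nat_lit 65610) (nat_lit 10) (.e (nat_lit 344129) (nat_lit 26) (.e (nat_lit 557086) (nat_lit 11) (.e (nat_lit 24653) (nat_lit 12) .nil)))))) (.g (nat_lit 1) (.e (nat_lit 387273) (nat_lit 0) .nil) .nil))) 
(.lf (nat_lit 585577) (.g (nat_lit 2149) (.e (nat_lit 393250) (nat_lit 18) (.e (nat_lit 164325) (nat_lit 230) (.e (nat_lit 163868) (nat_lit 2) (.e (nat_lit 196654) (nat_lit 11) (.e (nat_lit 16433) (nat_lit 9) .nil))))) (.g (nat_lit 0) (.e (nat_lit 388646) (nat_lit 0) .nil) .nil))))) (.nd (nat_lit 8) (.nd (nat_lit 9) 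
(.lf (nat_lit 584937) (.g (nat_lit 2542) (.e (nat_lit 385068) (nat_lit 26) (.e (nat_lit 532504) (nat_lit 1) (.e (nat_lit 57852) (nat_lit 252) (.e (nat_lit 57417) (nat_lit 12) (.e (nat_lit 336396) (nat_lit 27) .nil))))) (.g (nat_lit 0) (.e (nat_lit 387082) (nat_lit 0) .nil) .nil))) 
(.lf (nat_lit 585449) (.g (nat_lit 295) (.e (nat_lit 385105) (nat_lit 50) (.e (nat_lit 786473) (nat_lit 27) (.e (nat_lit 335872) (nat_lit 0) .nil))) (.g (nat_lit 0) (.e (nat_lit 388088) (nat_lit 0) .nil) .nil)))) (.nd (nat_lit 9) 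
(.lf (nat_lit 585193) (.g (nat_lit 3652) (.e (nat_lit 385073) (nat_lit 31) (.e (nat_lit 573493) (nat_lit 15) (.e (nat_lit 81956) (nat_lit 23) (.e (nat_lit 98319) (nat_lit 17) .nil)))) (.g (nat_lit 0) (.e (nat_lit 387488) (nat_lit 0) .nil) .nil))) 
(.lf (nat_lit 585705) (.g (nat_lit 3995) (.e (nat_lit 393251) (nat_lit 18) (.e (nat_lit 164327) (nat_lit 230) (.e (nat_lit 163873) (nat_lit 3) (.e (nat_lit 204813) (nat_lit 9) (.e (nat_lit 426199) (nat_lit 9) (.e (nat_lit 426567) (nat_lit 34) .nil)))))) (.g (nat_lit 1) (.e (nat_lit 388797) (nat_lit 0) .nil) .nil)))))))) 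
(.nd (nat_lit 5) (.nd (nat_lit 6) (.nd (nat_lit 7) (.nd (nat_lit 8) (.nd (nat_lit 9) 
(.lf (nat_lit 584729) (.g (nat_lit 1697) (.e (nat_lit 385065) (nat_lit 26) (.e (nat_lit 532532) (nat_lit 9) (.e (nat_lit 336324) (nat_lit 18) (.e (nat_lit 204852) (nat_lit 26) (.e (nat_lit 336326) (nat_lit 18) .nil))))) (.g (nat_lit 0) (.e (nat_lit 386768) (nat_lit 0) .nil) .nil))) 
(.lf (nat_lit 585241) (.g (nat_lit 1878) (.e (nat_lit 385074) (nat_lit 31) (.e (nat_lit 573484) (nat_lit 13) (.e (nat_lit 65610) (nat_lit 10) (.e (nat_lit 344129) (nat_lit 26) (.e (nat_lit 557066) (nat_lit 9) .nil))))) (.g (nat_lit 0) (.e (nat_lit 387564) (nat_lit 0) .nil) .nil)))) (.nd (nat_lit 9) 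
(.lf (nat_lit 584985) (.g (nat_lit 2817) (.e (nat_lit 385068) (nat_lit 26) (.e (nat_lit 532530) (nat_lit 9) (.e (nat_lit 336326) (nat_lit 18) (.e (nat_lit 204880) (nat_lit 32) (.e (nat_lit 385068) (nat_lit 26) (.e (nat_lit 532566) (nat_lit 15) .nil)))))) (.g (nat_lit 1) (.e (nat_lit 387146) (nat_lit 0) .nil) .nil))) 
(.lf (nat_lit 585497) (.g (nat_lit 3201) (.e (nat_lit 393225) (nat_lit 9) (.e (nat_lit 335988) (nat_lit 1) (.e (nat_lit 57926) (nat_lit 282) (.e (nat_lit 163869) (nat_lit 2) (.e (nat_lit 196681) (nat_lit 17) (.e (nat_lit 131125) (nat_lit 13) .nil)))))) (.g (nat_lit 1) (.e (nat_lit 388466) (nat_lit 0) .nil) .nil))))) (.nd (nat_lit 8) (.nd (nat_lit 9) 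
(.lf (nat_lit 584857) (.g (nat_lit 2843) (.e (nat_lit 385066) (nat_lit 26) (.e (nat_lit 532535) (nat_lit 9) (.e (nat_lit 336295) (nat_lit 15) (.e (nat_lit 3253) (nat_lit 197) .nil)))) (.g (nat_lit 0) (.e (nat_lit 386943) (nat_lit 0) .nil) .nil))) 
(.lf (nat_lit 585369) (.g (nat_lit 1772) (.e (nat_lit 385092) (nat_lit 49) (.e (nat_lit 778323) (nat_lit 5) (.e (nat_lit 73781) (nat_lit 32) (.e (nat_lit 3090) (nat_lit 191) (.e (nat_lit 483404) (nat_lit 26) .nil))))) (.g (nat_lit 1) (.e (nat_lit 387915) (nat_lit 0) .nil) .nil)))) (.nd (nat_lit 9) 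
(.lf (nat_lit 585113) (.g (nat_lit 4629) (.e (nat_lit 385072) (nat_lit 31) (.e (nat_lit 573493) (nat_lit 15) (.e (nat_lit 81953) (nat_lit 22) (.e (nat_lit 90147) (nat_lit 9) .nil)))) (.g (nat_lit 0) (.e (nat_lit 387349) (nat_lit 0) .nil) .nil))) 
(.lf (nat_lit 585625) (.g (nat_lit 1916) (.e (nat_lit 393251) (nat_lit 18) (.e (nat_lit 164325) (nat_lit 230) (.e (nat_lit 163868) (nat_lit 2) (.e (nat_lit 196628) (nat_lit 9) .nil)))) (.g (nat_lit 0) (.e (nat_lit 388717) (nat_lit 0) .nil) .nil)))))) (.nd (nat_lit 7) (.nd (nat_lit 8) (.nd (nat_lit 9) 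
(.lf (nat_lit 584793) (.g (nat_lit 3780) (.e (nat_lit 385066) (nat_lit 26) (.e (nat_lit 532515) (nat_lit 3) (.e (nat_lit 114698) (nat_lit 11) (.e (nat_lit 426123) (nat_lit 2) (.e (nat_lit 196666) (nat_lit 13) (.e (nat_lit 65624) (nat_lit 12) .nil)))))) (.g (nat_lit 1) (.e (nat_lit 386871) (nat_lit 0) .nil) .nil))) 
(.lf (nat_lit 585305) (.g (nat_lit 3849) (.e (nat_lit 385074) (nat_lit 31) (.e (nat_lit 573491) (nat_lit 15) (.e (nat_lit 81951) (nat_lit 22) (.e (nat_lit 90134) (nat_lit 9) (.e (nat_lit 3098) (nat_lit 192) (.e (nat_lit 491564) (nat_lit 12) .nil)))))) (.g (nat_lit 1) (.e (nat_lit 387690) (nat_lit 0) .nil) .nil)))) (.nd (nat_lit 9) 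
(.lf (nat_lit 585049) (.g (nat_lit 3636) (.e (nat_lit 385072) (nat_lit 31) (.e (nat_lit 573481) (nat_lit 13) (.e (nat_lit 65630) (nat_lit 14) (.e (nat_lit 401425) (nat_lit 2) (.e (nat_lit 196681) (nat_lit 17) (.e (nat_lit 131120) (nat_lit 12) .nil)))))) (.g (nat_lit 1) (.e (nat_lit 387255) (nat_lit 0) .nil) .nil))) 
(.lf (nat_lit 585561) (.g (nat_lit 2283) (.e (nat_lit 393232) (nat_lit 17) (.e (nat_lit 7593) (nat_lit 407) (.e (nat_lit 73773) (nat_lit 25) (.e (nat_lit 770071) (nat_lit 8) (.e (nat_lit 65625) (nat_lit 13) .nil))))) (.g (nat_lit 1) (.e (nat_lit 388614) (nat_lit 0) .nil) .nil))))) (.nd (nat_lit 8) (.nd (nat_lit 9) 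
(.lf (nat_lit 584921) (.g (nat_lit 2197) (.e (nat_lit 385068) (nat_lit 26) (.e (nat_lit 532503) (nat_lit 1) (.e (nat_lit 57848) (nat_lit 252) (.e (nat_lit 57407) (nat_lit 12) (.e (nat_lit 336452) (nat_lit 34) .nil))))) (.g (nat_lit 0) (.e (nat_lit 387060) (nat_lit 0) .nil) .nil))) 
(.lf (nat_lit 585433) (.g (nat_lit 1286) (.e (nat_lit 385102) (nat_lit 50) (.e (nat_lit 786483) (nat_lit 30) (.e (nat_lit 360451) (nat_lit 0) (.e (nat_lit 4780) (nat_lit 281) .nil)))) (.g (nat_lit 0) (.e (nat_lit 388043) (nat_lit 0) .nil) .nil)))) (.nd (nat_lit 9) 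
(.lf (nat_lit 585177) (.g (nat_lit 4990) (.e (nat_lit 385073) (nat_lit 31) (.e (nat_lit 573493) (nat_lit 15) (.e (nat_lit 81953) (nat_lit 22) (.e (nat_lit 90131) (nat_lit 9) .nil)))) (.g (nat_lit 0) (.e (nat_lit 387471) (nat_lit 0) .nil) .nil))) 
(.lf (nat_lit 585689) (.g (nat_lit 1398) (.e (nat_lit 393251) (nat_lit 18) (.e (nat_lit 164327) (nat_lit 230) (.e (nat_lit 163873) (nat_lit 3) (.e (nat_lit 204809) (nat_lit 9) .nil)))) (.g (nat_lit 0) (.e (nat_lit 388781) (nat_lit 0) .nil) .nil))))))) (.nd (nat_lit 6) (.nd (nat_lit 7) (.nd (nat_lit 8) (.nd (nat_lit 9) 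
(.lf (nat_lit 584761) (.g (nat_lit 1802) (.e (nat_lit 385066) (nat_lit 26) (.e (nat_lit 532501) (nat_lit 1) (.e (nat_lit 57852) (nat_lit 252) (.e (nat_lit 57412) (nat_lit 12) (.e (nat_lit 343808) (nat_lit 34) .nil))))) (.g (nat_lit 0) (.e (nat_lit 386818) (nat_lit 0) .nil) .nil))) 
(.lf (nat_lit 585273) (.g (nat_lit 977) (.e (nat_lit 385074) (nat_lit 31) (.e (nat_lit 573485) (nat_lit 13) (.e (nat_lit 65619) (nat_lit 10) (.e (nat_lit 344126) (nat_lit 25) .nil)))) (.g (nat_lit 0) (.e (nat_lit 387639) (nat_lit 0) .nil) .nil)))) (.nd (nat_lit 9) 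
(.lf (nat_lit 585017) (.g (nat_lit 2770) (.e (nat_lit 385068) (nat_lit 26) (.e (nat_lit 532560) (nat_lit 14) (.e (nat_lit 376860) (nat_lit 21) (.e (nat_lit 57685) (nat_lit 156) (.e (nat_lit 163886) (nat_lit 5) (.e (nat_lit 229120) (nat_lit 17) .nil)))))) (.g (nat_lit 1) (.e (nat_lit 387180) (nat_lit 0) .nil) .nil))) 
(.lf (nat_lit 585529) (.g (nat_lit 3436) (.e (nat_lit 393229) (nat_lit 9) (.e (nat_lit 335986) (nat_lit 1) (.e (nat_lit 57931) (nat_lit 282) (.e (nat_lit 163869) (nat_lit 2) (.e (nat_lit 196681) (nat_lit 17) (.e (nat_lit 131125) (nat_lit 13) .nil)))))) (.g (nat_lit 1) (.e (nat_lit 388535) (nat_lit 0) .nil) .nil))))) (.nd (nat_lit 8) (.nd (nat_lit 9) 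
(.lf (nat_lit 584889) (.g (nat_lit 517) (.e (nat_lit 385067) (nat_lit 26) (.e (nat_lit 532513) (nat_lit 3) (.e (nat_lit 114697) (nat_lit 11) .nil))) (.g (nat_lit 0) (.e (nat_lit 386991) (nat_lit 0) .nil) .nil))) 
(.lf (nat_lit 585401) (.g (nat_lit 3283) (.e (nat_lit 385094) (nat_lit 49) (.e (nat_lit 778323) (nat_lit 5) (.e (nat_lit 73781) (nat_lit 32) (.e (nat_lit 2856) (nat_lit 184) (.e (nat_lit 426482) (nat_lit 27) (.e (nat_lit 336205) (nat_lit 12) .nil)))))) (.g (nat_lit 1) (.e (nat_lit 387979) (nat_lit 0) .nil) .nil)))) (.nd (nat_lit 9) 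
(.lf (nat_lit 585145) (.g (nat_lit 3507) (.e (nat_lit 385073) (nat_lit 31) (.e (nat_lit 573485) (nat_lit 13) (.e (nat_lit 65619) (nat_lit 10) (.e (nat_lit 344129) (nat_lit 26) (.e (nat_lit 557087) (nat_lit 11) (.e (nat_lit 24648) (nat_lit 12) .nil)))))) (.g (nat_lit 1) (.e (nat_lit 387399) (nat_lit 0) .nil) .nil))) 
(.lf (nat_lit 585657) (.g (nat_lit 2461) (.e (nat_lit 393251) (nat_lit 18) (.e (nat_lit 164325) (nat_lit 230) (.e (nat_lit 163874) (nat_lit 3) (.e (nat_lit 204809) (nat_lit 9) (.e (nat_lit 426188) (nat_lit 9) .nil))))) (.g (nat_lit 0) (.e (nat_lit 388749) (nat_lit 0) .nil) .nil)))))) (.nd (nat_lit 7) (.nd (nat_lit 8) (.nd (nat_lit 9) 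
(.lf (nat_lit 584825) (.g (nat_lit 2226) (.e (nat_lit 385066) (nat_lit 26) (.e (nat_lit 532532) (nat_lit 9) (.e (nat_lit 336326) (nat_lit 18) (.e (nat_lit 204854) (nat_lit 26) (.e (nat_lit 336326) (nat_lit 18) (.e (nat_lit 204880) (nat_lit 32) .nil)))))) (.g (nat_lit 1) (.e (nat_lit 386905) (nat_lit 0) .nil) .nil))) 
(.lf (nat_lit 585337) (.g (nat_lit 907) (.e (nat_lit 385074) (nat_lit 31) (.e (nat_lit 573493) (nat_lit 15) (.e (nat_lit 81953) (nat_lit 22) (.e (nat_lit 90165) (nat_lit 12) .nil)))) (.g (nat_lit 0) (.e (nat_lit 387726) (nat_lit 0) .nil) .nil)))) (.nd (nat_lit 9) 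
(.lf (nat_lit 585081) (.g (nat_lit 3891) (.e (nat_lit 385072) (nat_lit 31) (.e (nat_lit 573492) (nat_lit 15) (.e (nat_lit 81953) (nat_lit 22) (.e (nat_lit 90125) (nat_lit 9) .nil)))) (.g (nat_lit 0) (.e (nat_lit 387308) (nat_lit 0) .nil) .nil))) 
(.lf (nat_lit 585593) (.g (nat_lit 3140) (.e (nat_lit 393250) (nat_lit 18) (.e (nat_lit 164332) (nat_lit 230) (.e (nat_lit 163869) (nat_lit 2) (.e (nat_lit 196654) (nat_lit 11) (.e (nat_lit 16433) (nat_lit 9) .nil))))) (.g (nat_lit 0) (.e (nat_lit 388662) (nat_lit 0) .nil) .nil))))) (.nd (nat_lit 8) (.nd (nat_lit 9) 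
(.lf (nat_lit 584953) (.g (nat_lit 2606) (.e (nat_lit 385068) (nat_lit 26) (.e (nat_lit 532513) (nat_lit 3) (.e (nat_lit 114698) (nat_lit 11) (.e (nat_lit 426121) (nat_lit 2) (.e (nat_lit 196681) (nat_lit 17) (.e (nat_lit 131120) (nat_lit 12) .nil)))))) (.g (nat_lit 1) (.e (nat_lit 387103) (nat_lit 0) .nil) .nil))) 
(.lf (nat_lit 585465) (.g (nat_lit 3055) (.e (nat_lit 385107) (nat_lit 51) (.e (nat_lit 794665) (nat_lit 22) (.e (nat_lit 196656) (nat_lit 11) (.e (nat_lit 16436) (nat_lit 9) (.e (nat_lit 426131) (nat_lit 3) (.e (nat_lit 204880) (nat_lit 32) .nil)))))) (.g (nat_lit 1) (.e (nat_lit 388171) (nat_lit 0) .nil) .nil)))) (.nd (nat_lit 9) 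
(.lf (nat_lit 585209) (.g (nat_lit 566) (.e (nat_lit 385074) (nat_lit 31) (.e (nat_lit 573454) (nat_lit 9) (.e (nat_lit 970) (nat_lit 81) .nil))) (.g (nat_lit 0) (.e (nat_lit 387510) (nat_lit 0) .nil) .nil))) 
(.lf (nat_lit 585721) (.g (nat_lit 1990) (.e (nat_lit 393251) (nat_lit 18) (.e (nat_lit 164332) (nat_lit 230) (.e (nat_lit 163867) (nat_lit 2) (.e (nat_lit 196624) (nat_lit 9) (.e (nat_lit 454) (nat_lit 34) (.e (nat_lit 450304) (nat_lit 18) .nil)))))) (.g (nat_lit 1) (.e (nat_lit 388813) (nat_lit 0) .nil) .nil)))))))))) 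
(.nd (nat_lit 3) (.nd (nat_lit 4) (.nd (nat_lit 5) (.nd (nat_lit 6) (.nd (nat_lit 7) 
(.nd (nat_lit 8) (.nd (nat_lit 9) 
(.lf (nat_lit 584709) (.g (nat_lit 1338) (.e (nat_lit 385064) (nat_lit 26) (.e (nat_lit 532535) (nat_lit 9) (.e (nat_lit 336226) (nat_lit 14) .nil))) (.g (nat_lit 0) (.e (nat_lit 386711) (nat_lit 0) .nil) .nil))) 
(.lf (nat_lit 585221) (.g (nat_lit 3613) (.e (nat_lit 385074) (nat_lit 31) (.e (nat_lit 573482) (nat_lit 13) (.e (nat_lit 65628) (nat_lit 14) (.e (nat_lit 401425) (nat_lit 2) (.e (nat_lit 196681) (nat_lit 17) (.e (nat_lit 131121) (nat_lit 12) .nil)))))) (.g (nat_lit 1) (.e (nat_lit 387530) (nat_lit 0) .nil) .nil)))) (.nd (nat_lit 9) 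
(.lf (nat_lit 584965) (.g (nat_lit 2076) (.e (nat_lit 385068) (nat_lit 26) (.e (nat_lit 532515) (nat_lit 3) (.e (nat_lit 114697) (nat_lit 11) (.e (nat_lit 426122) (nat_lit 2) (.e (nat_lit 196681) (nat_lit 17) (.e (nat_lit 131120) (nat_lit 12) .nil)))))) (.g (nat_lit 1) (.e (nat_lit 387123) (nat_lit 0) .nil) .nil))) 
(.lf (nat_lit 585477) (.g (nat_lit 2489) (.e (nat_lit 393221) (nat_lit 0) (.e (nat_lit 6207) (nat_lit 333) (.e (nat_lit 57878) (nat_lit 270) (.e (nat_lit 174) (nat_lit 12) (.e (nat_lit 204861) (nat_lit 26) (.e (nat_lit 336213) (nat_lit 13) .nil)))))) (.g (nat_lit 1) (.e (nat_lit 388354) (nat_lit 0) .nil) .nil))))) (.nd (nat_lit 8) (.nd (nat_lit 9) 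
(.lf (nat_lit 584837) (.g (nat_lit 400) (.e (nat_lit 385066) (nat_lit 26) (.e (nat_lit 532534) (nat_lit 9) (.e (nat_lit 336324) (nat_lit 18) .nil))) (.g (nat_lit 0) (.e (nat_lit 386922) (nat_lit 0) .nil) .nil))) 
(.lf (nat_lit 585349) (.g (nat_lit 1415) (.e (nat_lit 385074) (nat_lit 31) (.e (nat_lit 573493) (nat_lit 15) (.e (nat_lit 81956) (nat_lit 23) (.e (nat_lit 98323) (nat_lit 17) .nil)))) (.g (nat_lit 0) (.e (nat_lit 387738) (nat_lit 0) .nil) .nil)))) (.nd (nat_lit 9) 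
(.lf (nat_lit 585093) (.g (nat_lit 1240) (.e (nat_lit 385072) (nat_lit 31) (.e (nat_lit 573492) (nat_lit 15) (.e (nat_lit 81954) (nat_lit 23) (.e (nat_lit 98387) (nat_lit 33) .nil)))) (.g (nat_lit 0) (.e (nat_lit 387323) (nat_lit 0) .nil) .nil))) 
(.lf (nat_lit 585605) (.g (nat_lit 1624) (.e (nat_lit 393250) (nat_lit 18) (.e (nat_lit 164403) (nat_lit 256) (.e (nat_lit 57371) (nat_lit 2) (.e (nat_lit 90185) (nat_lit 17) (.e (nat_lit 237605) (nat_lit 9) .nil))))) (.g (nat_lit 0) (.e (nat_lit 388674) (nat_lit 0) .nil) .nil)))))) (.nd (nat_lit 7) (.nd (nat_lit 8) (.nd (nat_lit 9) 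
(.lf (nat_lit 584773) (.g (nat_lit 2404) (.e (nat_lit 385066) (nat_lit 26) (.e (nat_lit 532513) (nat_lit 3) (.e (nat_lit 114694) (nat_lit 11) (.e (nat_lit 426124) (nat_lit 2) (.e (nat_lit 196681) (nat_lit 17) (.e (nat_lit 131120) (nat_lit 12) .nil)))))) (.g (nat_lit 1) (.e (nat_lit 386850) (nat_lit 0) .nil) .nil))) 
(.lf (nat_lit 585285) (.g (nat_lit 2886) (.e (nat_lit 385074) (nat_lit 31) (.e (nat_lit 573485) (nat_lit 13) (.e (nat_lit 65630) (nat_lit 14) (.e (nat_lit 401425) (nat_lit 2) (.e (nat_lit 196665) (nat_lit 13) (.e (nat_lit 65623) (nat_lit 12) .nil)))))) (.g (nat_lit 1) (.e (nat_lit 387651) (nat_lit 0) .nil) .nil)))) (.nd (nat_lit 9) 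
(.lf (nat_lit 585029) (.g (nat_lit 1656) (.e (nat_lit 392960) (nat_lit 24) (.e (nat_lit 516160) (nat_lit 10) (.e (nat_lit 434231) (nat_lit 23) (.e (nat_lit 532507) (nat_lit 2) .nil)))) (.g (nat_lit 0) (.e (nat_lit 387222) (nat_lit 0) .nil) .nil))) 
(.lf (nat_lit 585541) (.g (nat_lit 2803) (.e (nat_lit 393229) (nat_lit 9) (.e (nat_lit 335988) (nat_lit 1) (.e (nat_lit 57931) (nat_lit 282) (.e (nat_lit 163874) (nat_lit 3) (.e (nat_lit 204855) (nat_lit 26) .nil))))) (.g (nat_lit 0) (.e (nat_lit 388558) (nat_lit 0) .nil) .nil))))) (.nd (nat_lit 8) (.nd (nat_lit 9) 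
(.lf (nat_lit 584901) (.g (nat_lit 1359) (.e (nat_lit 385067) (nat_lit 26) (.e (nat_lit 532535) (nat_lit 9) (.e (nat_lit 343808) (nat_lit 18) .nil))) (.g (nat_lit 0) (.e (nat_lit 387022) (nat_lit 0) .nil) .nil))) 
(.lf (nat_lit 585413) (.g (nat_lit 2121) (.e (nat_lit 385094) (nat_lit 49) (.e (nat_lit 778323) (nat_lit 5) (.e (nat_lit 73782) (nat_lit 32) (.e (nat_lit 3089) (nat_lit 191) (.e (nat_lit 491264) (nat_lit 26) .nil))))) (.g (nat_lit 1) (.e (nat_lit 387991) (nat_lit 0) .nil) .nil)))) (.nd (nat_lit 9) 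
(.lf (nat_lit 585157) (.g (nat_lit 1947) (.e (nat_lit 385073) (nat_lit 31) (.e (nat_lit 573493) (nat_lit 15) (.e (nat_lit 81938) (nat_lit 20) (.e (nat_lit 1840) (nat_lit 123) .nil)))) (.g (nat_lit 0) (.e (nat_lit 387439) (nat_lit 0) .nil) .nil))) 
(.lf (nat_lit 585669) (.g (nat_lit 2362) (.e (nat_lit 393251) (nat_lit 18) (.e (nat_lit 164327) (nat_lit 230) (.e (nat_lit 163868) (nat_lit 2) (.e (nat_lit 196624) (nat_lit 9) (.e (nat_lit 457) (nat_lit 34) (.e (nat_lit 450304) (nat_lit 18) .nil)))))) (.g (nat_lit 1) (.e (nat_lit 388761) (nat_lit 0) .nil) .nil))))))) (.nd (nat_lit 6) (.nd (nat_lit 7) (.nd (nat_lit 8) (.nd (nat_lit 9) 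
(.lf (nat_lit 584741) (.g (nat_lit 1391) (.e (nat_lit 385065) (nat_lit 26) (.e (nat_lit 532558) (nat_lit 14) (.e (nat_lit 376842) (nat_lit 11) (.e (nat_lit 426106) (nat_lit 1) .nil)))) (.g (nat_lit 0) (.e (nat_lit 386783) (nat_lit 0) .nil) .nil))) 
(.lf (nat_lit 585253) (.g (nat_lit 3980) (.e (nat_lit 385074) (nat_lit 31) (.e (nat_lit 573484) (nat_lit 13) (.e (nat_lit 65617) (nat_lit 10) (.e (nat_lit 344130) (nat_lit 26) (.e (nat_lit 557067) (nat_lit 9) (.e (nat_lit 20) (nat_lit 0) (.e (nat_lit 6437) (nat_lit 343) (.e (nat_lit 1633) (nat_lit 114) .nil)))))))) (.g (nat_lit 1) (.e (nat_lit 387583) (nat_lit 0) .nil) .nil)))) (.nd (nat_lit 9) 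
(.lf (nat_lit 584997) (.g (nat_lit 527) (.e (nat_lit 385068) (nat_lit 26) (.e (nat_lit 532534) (nat_lit 9) (.e (nat_lit 336326) (nat_lit 18) .nil))) (.g (nat_lit 0) (.e (nat_lit 387160) (nat_lit 0) .nil) .nil))) 
(.lf (nat_lit 585509) (.g (nat_lit 2960) (.e (nat_lit 393225) (nat_lit 9) (.e (nat_lit 335995) (nat_lit 1) (.e (nat_lit 57929) (nat_lit 282) (.e (nat_lit 163869) (nat_lit 2) (.e (nat_lit 196681) (nat_lit 17) (.e (nat_lit 131128) (nat_lit 13) .nil)))))) (.g (nat_lit 1) (.e (nat_lit 388492) (nat_lit 0) .nil) .nil))))) (.nd (nat_lit 8) (.nd (nat_lit 9) 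
(.lf (nat_lit 584869) (.g (nat_lit 635) (.e (nat_lit 385066) (nat_lit 26) (.e (nat_lit 532563) (nat_lit 15) (.e (nat_lit 385057) (nat_lit 22) .nil))) (.g (nat_lit 0) (.e (nat_lit 386958) (nat_lit 0) .nil) .nil))) 
(.lf (nat_lit 585381) (.g (nat_lit 2272) (.e (nat_lit 385093) (nat_lit 49) (.e (nat_lit 778318) (nat_lit 3) (.e (nat_lit 57478) (nat_lit 28) (.e (nat_lit 557108) (nat_lit 15) (.e (nat_lit 188452) (nat_lit 23) .nil))))) (.g (nat_lit 0) (.e (nat_lit 387938) (nat_lit 0) .nil) .nil)))) (.nd (nat_lit 9) 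
(.lf (nat_lit 585125) (.g (nat_lit 1765) (.e (nat_lit 385072) (nat_lit 31) (.e (nat_lit 573493) (nat_lit 15) (.e (nat_lit 81962) (nat_lit 25) (.e (nat_lit 139289) (nat_lit 9) .nil)))) (.g (nat_lit 0) (.e (nat_lit 387364) (nat_lit 0) .nil) .nil))) 
(.lf (nat_lit 585637) (.g (nat_lit 2333) (.e (nat_lit 393251) (nat_lit 18) (.e (nat_lit 164325) (nat_lit 230) (.e (nat_lit 163871) (nat_lit 2) (.e (nat_lit 196624) (nat_lit 9) (.e (nat_lit 457) (nat_lit 34) (.e (nat_lit 450304) (nat_lit 18) .nil)))))) (.g (nat_lit 1) (.e (nat_lit 388729) (nat_lit 0) .nil) .nil)))))) (.nd (nat_lit 7) (.nd (nat_lit 8) (.nd (nat_lit 9) 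
(.lf (nat_lit 584805) (.g (nat_lit 2425) (.e (nat_lit 385066) (nat_lit 26) (.e (nat_lit 532530) (nat_lit 9) (.e (nat_lit 336326) (nat_lit 18) (.e (nat_lit 204854) (nat_lit 26) (.e (nat_lit 336257) (nat_lit 15) .nil))))) (.g (nat_lit 0) (.e (nat_lit 386884) (nat_lit 0) .nil) .nil))) 
(.lf (nat_lit 585317) (.g (nat_lit 948) (.e (nat_lit 385074) (nat_lit 31) (.e (nat_lit 573493) (nat_lit 15) (.e (nat_lit 81938) (nat_lit 20) (.e (nat_lit 1842) (nat_lit 123) .nil)))) (.g (nat_lit 0) (.e (nat_lit 387703) (nat_lit 0) .nil) .nil)))) (.nd (nat_lit 9) 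
(.lf (nat_lit 585061) (.g (nat_lit 1556) (.e (nat_lit 385072) (nat_lit 31) (.e (nat_lit 573482) (nat_lit 13) (.e (nat_lit 65628) (nat_lit 14) (.e (nat_lit 401428) (nat_lit 3) .nil)))) (.g (nat_lit 0) (.e (nat_lit 387268) (nat_lit 0) .nil) .nil))) 
(.lf (nat_lit 585573) (.g (nat_lit 3137) (.e (nat_lit 393238) (nat_lit 17) (.e (nat_lit 6989) (nat_lit 377) (.e (nat_lit 2779) (nat_lit 178) (.e (nat_lit 286767) (nat_lit 27) .nil)))) (.g (nat_lit 0) (.e (nat_lit 388635) (nat_lit 0) .nil) .nil))))) (.nd (nat_lit 8) (.nd (nat_lit 9) 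
(.lf (nat_lit 584933) (.g (nat_lit 2555) (.e (nat_lit 385068) (nat_lit 26) (.e (nat_lit 532504) (nat_lit 1) (.e (nat_lit 57852) (nat_lit 252) (.e (nat_lit 57406) (nat_lit 12) (.e (nat_lit 336455) (nat_lit 34) .nil))))) (.g (nat_lit 0) (.e (nat_lit 387078) (nat_lit 0) .nil) .nil))) 
(.lf (nat_lit 585445) (.g (nat_lit 596) (.e (nat_lit 385104) (nat_lit 50) (.e (nat_lit 786480) (nat_lit 29) (.e (nat_lit 352303) (nat_lit 20) .nil))) (.g (nat_lit 0) (.e (nat_lit 388081) (nat_lit 0) .nil) .nil)))) (.nd (nat_lit 9) 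
(.lf (nat_lit 585189) (.g (nat_lit 5043) (.e (nat_lit 385073) (nat_lit 31) (.e (nat_lit 573493) (nat_lit 15) (.e (nat_lit 81953) (nat_lit 22) (.e (nat_lit 90192) (nat_lit 18) .nil)))) (.g (nat_lit 0) (.e (nat_lit 387483) (nat_lit 0) .nil) .nil))) 
(.lf (nat_lit 585701) (.g (nat_lit 3440) (.e (nat_lit 393251) (nat_lit 18) (.e (nat_lit 164327) (nat_lit 230) (.e (nat_lit 163873) (nat_lit 3) (.e (nat_lit 204813) (nat_lit 9) (.e (nat_lit 426197) (nat_lit 9) (.e (nat_lit 426564) (nat_lit 34) .nil)))))) (.g (nat_lit 1) (.e (nat_lit 388793) (nat_lit 0) .nil) .nil)))))))) 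
(.nd (nat_lit 5) (.nd (nat_lit 6) (.nd (nat_lit 7) (.nd (nat_lit 8) (.nd (nat_lit 9) 
(.lf (nat_lit 584725) (.g (nat_lit 3358) (.e (nat_lit 385065) (nat_lit 26) (.e (nat_lit 532530) (nat_lit 9) (.e (nat_lit 336326) (nat_lit 18) (.e (nat_lit 204851) (nat_lit 26) (.e (nat_lit 336324) (nat_lit 18) (.e (nat_lit 204882) (nat_lit 32) .nil)))))) (.g (nat_lit 1) (.e (nat_lit 386764) (nat_lit 0) .nil) .nil))) 
(.lf (nat_lit 585237) (.g (nat_lit 1751) (.e (nat_lit 385074) (nat_lit 31) (.e (nat_lit 573484) (nat_lit 13) (.e (nat_lit 65610) (nat_lit 10) (.e (nat_lit 344126) (nat_lit 25) (.e (nat_lit 548874) (nat_lit 5) .nil))))) (.g (nat_lit 0) (.e (nat_lit 387558) (nat_lit 0) .nil) .nil)))) (.nd (nat_lit 9) 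
(.lf (nat_lit 584981) (.g (nat_lit 3266) (.e (nat_lit 385068) (nat_lit 26) (.e (nat_lit 532530) (nat_lit 9) (.e (nat_lit 336326) (nat_lit 18) (.e (nat_lit 204852) (nat_lit 26) (.e (nat_lit 336324) (nat_lit 18) (.e (nat_lit 204882) (nat_lit 32) .nil)))))) (.g (nat_lit 1) (.e (nat_lit 387142) (nat_lit 0) .nil) .nil))) 
(.lf (nat_lit 585493) (.g (nat_lit 3143) (.e (nat_lit 393225) (nat_lit 9) (.e (nat_lit 335986) (nat_lit 1) (.e (nat_lit 57926) (nat_lit 282) (.e (nat_lit 163869) (nat_lit 2) (.e (nat_lit 196681) (nat_lit 17) (.e (nat_lit 131128) (nat_lit 13) .nil)))))) (.g (nat_lit 1) (.e (nat_lit 388452) (nat_lit 0) .nil) .nil))))) (.nd (nat_lit 8) (.nd (nat_lit 9) 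
(.lf (nat_lit 584853) (.g (nat_lit 3218) (.e (nat_lit 385066) (nat_lit 26) (.e (nat_lit 532534) (nat_lit 9) (.e (nat_lit 336326) (nat_lit 18) (.e (nat_lit 204882) (nat_lit 32) (.e (nat_lit 385066) (nat_lit 26) (.e (nat_lit 532565) (nat_lit 15) .nil)))))) (.g (nat_lit 1) (.e (nat_lit 386939) (nat_lit 0) .nil) .nil))) 
(.lf (nat_lit 585365) (.g (nat_lit 422) (.e (nat_lit 385092) (nat_lit 49) (.e (nat_lit 778318) (nat_lit 3) (.e (nat_lit 57476) (nat_lit 28) .nil))) (.g (nat_lit 0) (.e (nat_lit 387908) (nat_lit 0) .nil) .nil)))) (.nd (nat_lit 9) 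
(.lf (nat_lit 585109) (.g (nat_lit 4560) (.e (nat_lit 385072) (nat_lit 31) (.e (nat_lit 573493) (nat_lit 15) (.e (nat_lit 81953) (nat_lit 22) (.e (nat_lit 90137) (nat_lit 9) .nil)))) (.g (nat_lit 0) (.e (nat_lit 387345) (nat_lit 0) .nil) .nil))) 
(.lf (nat_lit 585621) (.g (nat_lit 2568) (.e (nat_lit 393251) (nat_lit 18) (.e (nat_lit 164325) (nat_lit 230) (.e (nat_lit 163868) (nat_lit 2) (.e (nat_lit 196624) (nat_lit 9) (.e (nat_lit 457) (nat_lit 34) (.e (nat_lit 450304) (nat_lit 18) .nil)))))) (.g (nat_lit 1) (.e (nat_lit 388713) (nat_lit 0) .nil) .nil)))))) (.nd (nat_lit 7) (.nd (nat_lit 8) (.nd (nat_lit 9) 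
(.lf (nat_lit 584789) (.g (nat_lit 2339) (.e (nat_lit 385066) (nat_lit 26) (.e (nat_lit 532515) (nat_lit 3) (.e (nat_lit 114697) (nat_lit 11) (.e (nat_lit 426123) (nat_lit 2) (.e (nat_lit 196681) (nat_lit 17) (.e (nat_lit 131123) (nat_lit 12) .nil)))))) (.g (nat_lit 1) (.e (nat_lit 386867) (nat_lit 0) .nil) .nil))) 
(.lf (nat_lit 585301) (.g (nat_lit 870) (.e (nat_lit 385074) (nat_lit 31) (.e (nat_lit 573491) (nat_lit 15) (.e (nat_lit 81946) (nat_lit 20) (.e (nat_lit 1858) (nat_lit 124) .nil)))) (.g (nat_lit 0) (.e (nat_lit 387685) (nat_lit 0) .nil) .nil)))) (.nd (nat_lit 9) 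
(.lf (nat_lit 585045) (.g (nat_lit 4684) (.e (nat_lit 385072) (nat_lit 31) (.e (nat_lit 573481) (nat_lit 13) (.e (nat_lit 65619) (nat_lit 10) (.e (nat_lit 344129) (nat_lit 26) (.e (nat_lit 557087) (nat_lit 11) (.e (nat_lit 24648) (nat_lit 12) .nil)))))) (.g (nat_lit 1) (.e (nat_lit 387251) (nat_lit 0) .nil) .nil))) 
(.lf (nat_lit 585557) (.g (nat_lit 463) (.e (nat_lit 393231) (nat_lit 17) (.e (nat_lit 7593) (nat_lit 407) (.e (nat_lit 73774) (nat_lit 26) .nil))) (.g (nat_lit 0) (.e (nat_lit 388604) (nat_lit 0) .nil) .nil))))) (.nd (nat_lit 8) (.nd (nat_lit 9) 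
(.lf (nat_lit 584917) (.g (nat_lit 1427) (.e (nat_lit 385068) (nat_lit 26) (.e (nat_lit 532501) (nat_lit 1) (.e (nat_lit 57854) (nat_lit 252) (.e (nat_lit 57409) (nat_lit 12) (.e (nat_lit 336455) (nat_lit 34) .nil))))) (.g (nat_lit 0) (.e (nat_lit 387050) (nat_lit 0) .nil) .nil))) 
(.lf (nat_lit 585429) (.g (nat_lit 1363) (.e (nat_lit 385102) (nat_lit 50) (.e (nat_lit 786483) (nat_lit 30) (.e (nat_lit 360450) (nat_lit 0) (.e (nat_lit 4823) (nat_lit 281) .nil)))) (.g (nat_lit 0) (.e (nat_lit 388037) (nat_lit 0) .nil) .nil)))) (.nd (nat_lit 9) 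
(.lf (nat_lit 585173) (.g (nat_lit 4940) (.e (nat_lit 385073) (nat_lit 31) (.e (nat_lit 573493) (nat_lit 15) (.e (nat_lit 81953) (nat_lit 22) (.e (nat_lit 90127) (nat_lit 9) .nil)))) (.g (nat_lit 0) (.e (nat_lit 387467) (nat_lit 0) .nil) .nil))) 
(.lf (nat_lit 585685) (.g (nat_lit 2817) (.e (nat_lit 393251) (nat_lit 18) (.e (nat_lit 164327) (nat_lit 230) (.e (nat_lit 163871) (nat_lit 2) (.e (nat_lit 196656) (nat_lit 11) (.e (nat_lit 16433) (nat_lit 9) .nil))))) (.g (nat_lit 0) (.e (nat_lit 388777) (nat_lit 0) .nil) .nil))))))) (.nd (nat_lit 6) (.nd (nat_lit 7) (.nd (nat_lit 8) (.nd (nat_lit 9) 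
(.lf (nat_lit 584757) (.g (nat_lit 1188) (.e (nat_lit 385066) (nat_lit 26) (.e (nat_lit 532500) (nat_lit 1) (.e (nat_lit 57854) (nat_lit 252) (.e (nat_lit 57408) (nat_lit 12) .nil)))) (.g (nat_lit 0) (.e (nat_lit 386809) (nat_lit 0) .nil) .nil))) 
(.lf (nat_lit 585269) (.g (nat_lit 1962) (.e (nat_lit 385074) (nat_lit 31) (.e (nat_lit 573484) (nat_lit 13) (.e (nat_lit 65630) (nat_lit 14) (.e (nat_lit 401412) (nat_lit 0) .nil)))) (.g (nat_lit 0) (.e (nat_lit 387620) (nat_lit 0) .nil) .nil)))) (.nd (nat_lit 9) 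
(.lf (nat_lit 585013) (.g (nat_lit 3217) (.e (nat_lit 385068) (nat_lit 26) (.e (nat_lit 532560) (nat_lit 14) (.e (nat_lit 376859) (nat_lit 21) (.e (nat_lit 57688) (nat_lit 156) (.e (nat_lit 163884) (nat_lit 5) (.e (nat_lit 229120) (nat_lit 17) .nil)))))) (.g (nat_lit 1) (.e (nat_lit 387176) (nat_lit 0) .nil) .nil))) 
(.lf (nat_lit 585525) (.g (nat_lit 2398) (.e (nat_lit 393229) (nat_lit 9) (.e (nat_lit 335986) (nat_lit 1) (.e (nat_lit 57926) (nat_lit 282) (.e (nat_lit 163869) (nat_lit 2) (.e (nat_lit 196681) (nat_lit 17) .nil))))) (.g (nat_lit 0) (.e (nat_lit 388527) (nat_lit 0) .nil) .nil))))) (.nd (nat_lit 8) (.nd (nat_lit 9) 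
(.lf (nat_lit 584885) (.g (nat_lit 3116) (.e (nat_lit 385067) (nat_lit 26) (.e (nat_lit 532499) (nat_lit 1) (.e (nat_lit 57847) (nat_lit 252) (.e (nat_lit 65280) (nat_lit 12) .nil)))) (.g (nat_lit 0) (.e (nat_lit 386984) (nat_lit 0) .nil) .nil))) 
(.lf (nat_lit 585397) (.g (nat_lit 3685) (.e (nat_lit 385094) (nat_lit 49) (.e (nat_lit 778317) (nat_lit 3) (.e (nat_lit 57480) (nat_lit 28) (.e (nat_lit 557067) (nat_lit 9) (.e (nat_lit 3022) (nat_lit 187) (.e (nat_lit 450578) (nat_lit 5) (.e (nat_lit 532566) (nat_lit 15) .nil))))))) (.g (nat_lit 1) (.e (nat_lit 387963) (nat_lit 0) .nil) .nil)))) (.nd (nat_lit 9) 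
(.lf (nat_lit 585141) (.g (nat_lit 2494) (.e (nat_lit 385073) (nat_lit 31) (.e (nat_lit 573484) (nat_lit 13) (.e (nat_lit 65610) (nat_lit 10) (.e (nat_lit 344129) (nat_lit 26) (.e (nat_lit 557087) (nat_lit 11) (.e (nat_lit 24651) (nat_lit 12) .nil)))))) (.g (nat_lit 1) (.e (nat_lit 387389) (nat_lit 0) .nil) .nil))) 
(.lf (nat_lit 585653) (.g (nat_lit 2597) (.e (nat_lit 393251) (nat_lit 18) (.e (nat_lit 164325) (nat_lit 230) (.e (nat_lit 163873) (nat_lit 3) (.e (nat_lit 204813) (nat_lit 9) (.e (nat_lit 426200) (nat_lit 9) (.e (nat_lit 426564) (nat_lit 34) .nil)))))) (.g (nat_lit 1) (.e (nat_lit 388745) (nat_lit 0) .nil) .nil)))))) (.nd (nat_lit 7) (.nd (nat_lit 8) (.nd (nat_lit 9) 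
(.lf (nat_lit 584821) (.g (nat_lit 2788) (.e (nat_lit 385066) (nat_lit 26) (.e (nat_lit 532532) (nat_lit 9) (.e (nat_lit 336306) (nat_lit 15) (.e (nat_lit 3238) (nat_lit 197) (.e (nat_lit 532563) (nat_lit 15) (.e (nat_lit 385066) (nat_lit 26) (.e (nat_lit 532566) (nat_lit 15) .nil))))))) (.g (nat_lit 1) (.e (nat_lit 386901) (nat_lit 0) .nil) .nil))) 
(.lf (nat_lit 585333) (.g (nat_lit 5085) (.e (nat_lit 385074) (nat_lit 31) (.e (nat_lit 573493) (nat_lit 15) (.e (nat_lit 81953) (nat_lit 22) (.e (nat_lit 90141) (nat_lit 9) .nil)))) (.g (nat_lit 0) (.e (nat_lit 387722) (nat_lit 0) .nil) .nil)))) (.nd (nat_lit 9) 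
(.lf (nat_lit 585077) (.g (nat_lit 405) (.e (nat_lit 385072) (nat_lit 31) (.e (nat_lit 573492) (nat_lit 15) (.e (nat_lit 81953) (nat_lit 22) .nil))) (.g (nat_lit 0) (.e (nat_lit 387304) (nat_lit 0) .nil) .nil))) 
(.lf (nat_lit 585589) (.g (nat_lit 1710) (.e (nat_lit 393250) (nat_lit 18) (.e (nat_lit 164327) (nat_lit 230) (.e (nat_lit 163875) (nat_lit 3) (.e (nat_lit 204809) (nat_lit 9) .nil)))) (.g (nat_lit 0) (.e (nat_lit 388658) (nat_lit 0) .nil) .nil))))) (.nd (nat_lit 8) (.nd (nat_lit 9) 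
(.lf (nat_lit 584949) (.g (nat_lit 3657) (.e (nat_lit 385068) (nat_lit 26) (.e (nat_lit 532513) (nat_lit 3) (.e (nat_lit 114697) (nat_lit 11) (.e (nat_lit 426123) (nat_lit 2) (.e (nat_lit 196666) (nat_lit 13) (.e (nat_lit 65622) (nat_lit 12) .nil)))))) (.g (nat_lit 1) (.e (nat_lit 387099) (nat_lit 0) .nil) .nil))) 
(.lf (nat_lit 585461) (.g (nat_lit 2945) (.e (nat_lit 385106) (nat_lit 50) (.e (nat_lit 786483) (nat_lit 30) (.e (nat_lit 360457) (nat_lit 0) (.e (nat_lit 5949) (nat_lit 322) (.e (nat_lit 57419) (nat_lit 12) (.e (nat_lit 336194) (nat_lit 12) .nil)))))) (.g (nat_lit 1) (.e (nat_lit 388111) (nat_lit 0) .nil) .nil)))) (.nd (nat_lit 9) 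
(.lf (nat_lit 585205) (.g (nat_lit 1233) (.e (nat_lit 385073) (nat_lit 31) (.e (nat_lit 573493) (nat_lit 15) (.e (nat_lit 81962) (nat_lit 25) (.e (nat_lit 139293) (nat_lit 12) .nil)))) (.g (nat_lit 0) (.e (nat_lit 387505) (nat_lit 0) .nil) .nil))) 
(.lf (nat_lit 585717) (.g (nat_lit 3190) (.e (nat_lit 393251) (nat_lit 18) (.e (nat_lit 164331) (nat_lit 230) (.e (nat_lit 163873) (nat_lit 3) (.e (nat_lit 204813) (nat_lit 9) (.e (nat_lit 426197) (nat_lit 9) .nil))))) (.g (nat_lit 0) (.e (nat_lit 388809) (nat_lit 0) .nil) .nil))))))))) (.nd (nat_lit 4) (.nd (nat_lit 5) (.nd (nat_lit 6) (.nd (nat_lit 7) (.nd (nat_lit 8) (.nd (nat_lit 9) 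
(.lf (nat_lit 584717) (.g (nat_lit 372) (.e (nat_lit 385065) (nat_lit 26) (.e (nat_lit 532515) (nat_lit 3) (.e (nat_lit 122624) (nat_lit 12) .nil))) (.g (nat_lit 0) (.e (nat_lit 386751) (nat_lit 0) .nil) .nil))) 
(.lf (nat_lit 585229) (.g (nat_lit 660) (.e (nat_lit 385074) (nat_lit 31) (.e (nat_lit 573484) (nat_lit 13) (.e (nat_lit 65540) (nat_lit 0) .nil))) (.g (nat_lit 0) (.e (nat_lit 387541) (nat_lit 0) .nil) .nil)))) (.nd (nat_lit 9) 
(.lf (nat_lit 584973) (.g (nat_lit 1244) (.e (nat_lit 385068) (nat_lit 26) (.e (nat_lit 532515) (nat_lit 3) (.e (nat_lit 122624) (nat_lit 11) (.e (nat_lit 426140) (nat_lit 3) (.e (nat_lit 204858) (nat_lit 26) (.e (nat_lit 336198) (nat_lit 12) .nil)))))) (.g (nat_lit 1) (.e (nat_lit 387131) (nat_lit 0) .nil) .nil))) 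
(.lf (nat_lit 585485) (.g (nat_lit 734) (.e (nat_lit 393224) (nat_lit 9) (.e (nat_lit 335988) (nat_lit 1) (.e (nat_lit 57926) (nat_lit 282) .nil))) (.g (nat_lit 0) (.e (nat_lit 388432) (nat_lit 0) .nil) .nil))))) (.nd (nat_lit 8) (.nd (nat_lit 9) 
(.lf (nat_lit 584845) (.g (nat_lit 2811) (.e (nat_lit 385066) (nat_lit 26) (.e (nat_lit 532534) (nat_lit 9) (.e (nat_lit 336325) (nat_lit 18) (.e (nat_lit 204880) (nat_lit 32) (.e (nat_lit 385066) (nat_lit 26) (.e (nat_lit 532566) (nat_lit 15) .nil)))))) (.g (nat_lit 1) (.e (nat_lit 386931) (nat_lit 0) .nil) .nil))) 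
(.lf (nat_lit 585357) (.g (nat_lit 1660) (.e (nat_lit 385074) (nat_lit 31) (.e (nat_lit 573493) (nat_lit 15) (.e (nat_lit 81962) (nat_lit 25) (.e (nat_lit 139286) (nat_lit 9) .nil)))) (.g (nat_lit 0) (.e (nat_lit 387749) (nat_lit 0) .nil) .nil)))) (.nd (nat_lit 9) 
(.lf (nat_lit 585101) (.g (nat_lit 2785) (.e (nat_lit 385072) (nat_lit 31) (.e (nat_lit 573493) (nat_lit 15) (.e (nat_lit 81951) (nat_lit 22) (.e (nat_lit 90134) (nat_lit 9) .nil)))) (.g (nat_lit 0) (.e (nat_lit 387337) (nat_lit 0) .nil) .nil))) 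
(.lf (nat_lit 585613) (.g (nat_lit 3268) (.e (nat_lit 393251) (nat_lit 18) (.e (nat_lit 164324) (nat_lit 230) (.e (nat_lit 163873) (nat_lit 3) (.e (nat_lit 204813) (nat_lit 9) (.e (nat_lit 426197) (nat_lit 9) .nil))))) (.g (nat_lit 0) (.e (nat_lit 388703) (nat_lit 0) .nil) .nil)))))) (.nd (nat_lit 7) (.nd (nat_lit 8) (.nd (nat_lit 9) 
(.lf (nat_lit 584781) (.g (nat_lit 2274) (.e (nat_lit 385066) (nat_lit 26) (.e (nat_lit 532513) (nat_lit 3) (.e (nat_lit 114698) (nat_lit 11) (.e (nat_lit 426133) (nat_lit 3) (.e (nat_lit 204859) (nat_lit 26) (.e (nat_lit 336206) (nat_lit 12) .nil)))))) (.g (nat_lit 1) (.e (nat_lit 386858) (nat_lit 0) .nil) .nil))) 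
(.lf (nat_lit 585293) (.g (nat_lit 231) (.e (nat_lit 385074) (nat_lit 31) (.e (nat_lit 573487) (nat_lit 14) (.e (nat_lit 81664) (nat_lit 32) .nil))) (.g (nat_lit 0) (.e (nat_lit 387665) (nat_lit 0) .nil) .nil)))) (.nd (nat_lit 9) 
(.lf (nat_lit 585037) (.g (nat_lit 1550) (.e (nat_lit 392960) (nat_lit 24) (.e (nat_lit 516170) (nat_lit 13) (.e (nat_lit 458789) (nat_lit 23) (.e (nat_lit 532515) (nat_lit 3) (.e (nat_lit 114715) (nat_lit 22) .nil))))) (.g (nat_lit 0) (.e (nat_lit 387230) (nat_lit 0) .nil) .nil))) 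
(.lf (nat_lit 585549) (.g (nat_lit 1583) (.e (nat_lit 393229) (nat_lit 9) (.e (nat_lit 335996) (nat_lit 1) (.e (nat_lit 57854) (nat_lit 252) (.e (nat_lit 57347) (nat_lit 0) .nil)))) (.g (nat_lit 0) (.e (nat_lit 388567) (nat_lit 0) .nil) .nil))))) (.nd (nat_lit 8) (.nd (nat_lit 9) 
(.lf (nat_lit 584909) (.g (nat_lit 2019) (.e (nat_lit 385068) (nat_lit 26) (.e (nat_lit 532499) (nat_lit 1) (.e (nat_lit 57847) (nat_lit 252) (.e (nat_lit 57410) (nat_lit 12) (.e (nat_lit 343808) (nat_lit 34) .nil))))) (.g (nat_lit 0) (.e (nat_lit 387034) (nat_lit 0) .nil) .nil))) 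
(.lf (nat_lit 585421) (.g (nat_lit 184) (.e (nat_lit 385094) (nat_lit 49) (.e (nat_lit 778324) (nat_lit 5) (.e (nat_lit 81664) (nat_lit 32) .nil))) (.g (nat_lit 0) (.e (nat_lit 387999) (nat_lit 0) .nil) .nil)))) (.nd (nat_lit 9) 
(.lf (nat_lit 585165) (.g (nat_lit 2149) (.e (nat_lit 385073) (nat_lit 31) (.e (nat_lit 573493) (nat_lit 15) (.e (nat_lit 81951) (nat_lit 22) (.e (nat_lit 90133) (nat_lit 9) .nil)))) (.g (nat_lit 0) (.e (nat_lit 387459) (nat_lit 0) .nil) .nil))) 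
(.lf (nat_lit 585677) (.g (nat_lit 2691) (.e (nat_lit 393251) (nat_lit 18) (.e (nat_lit 164327) (nat_lit 230) (.e (nat_lit 163868) (nat_lit 2) (.e (nat_lit 196656) (nat_lit 11) (.e (nat_lit 16436) (nat_lit 9) (.e (nat_lit 426564) (nat_lit 34) .nil)))))) (.g (nat_lit 1) (.e (nat_lit 388769) (nat_lit 0) .nil) .nil))))))) (.nd (nat_lit 6) (.nd (nat_lit 7) (.nd (nat_lit 8) (.nd (nat_lit 9) 
(.lf (nat_lit 584749) (.g (nat_lit 1215) (.e (nat_lit 385066) (nat_lit 26) (.e (nat_lit 532499) (nat_lit 1) (.e (nat_lit 57783) (nat_lit 239) .nil))) (.g (nat_lit 0) (.e (nat_lit 386799) (nat_lit 0) .nil) .nil))) 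
(.lf (nat_lit 585261) (.g (nat_lit 2198) (.e (nat_lit 385074) (nat_lit 31) (.e (nat_lit 573484) (nat_lit 13) (.e (nat_lit 65619) (nat_lit 10) (.e (nat_lit 344117) (nat_lit 21) (.e (nat_lit 516185) (nat_lit 16) .nil))))) (.g (nat_lit 0) (.e (nat_lit 387608) (nat_lit 0) .nil) .nil)))) (.nd (nat_lit 9) 
(.lf (nat_lit 585005) (.g (nat_lit 2099) (.e (nat_lit 385068) (nat_lit 26) (.e (nat_lit 532560) (nat_lit 14) (.e (nat_lit 376842) (nat_lit 11) (.e (nat_lit 426098) (nat_lit 1) (.e (nat_lit 164151) (nat_lit 152) .nil))))) (.g (nat_lit 0) (.e (nat_lit 387168) (nat_lit 0) .nil) .nil))) 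
(.lf (nat_lit 585517) (.g (nat_lit 3433) (.e (nat_lit 393225) (nat_lit 9) (.e (nat_lit 335996) (nat_lit 1) (.e (nat_lit 57929) (nat_lit 282) (.e (nat_lit 163874) (nat_lit 3) (.e (nat_lit 204852) (nat_lit 26) (.e (nat_lit 336211) (nat_lit 13) .nil)))))) (.g (nat_lit 1) (.e (nat_lit 388511) (nat_lit 0) .nil) .nil))))) (.nd (nat_lit 8) (.nd (nat_lit 9) 
(.lf (nat_lit 584877) (.g (nat_lit 2967) (.e (nat_lit 385066) (nat_lit 26) (.e (nat_lit 532565) (nat_lit 15) (.e (nat_lit 385065) (nat_lit 26) (.e (nat_lit 532530) (nat_lit 9) (.e (nat_lit 336324) (nat_lit 18) (.e (nat_lit 204880) (nat_lit 32) .nil)))))) (.g (nat_lit 1) (.e (nat_lit 386970) (nat_lit 0) .nil) .nil))) 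
(.lf (nat_lit 585389) (.g (nat_lit 1462) (.e (nat_lit 385093) (nat_lit 49) (.e (nat_lit 778324) (nat_lit 5) (.e (nat_lit 73781) (nat_lit 32) (.e (nat_lit 3090) (nat_lit 191) (.e (nat_lit 491264) (nat_lit 26) .nil))))) (.g (nat_lit 0) (.e (nat_lit 387948) (nat_lit 0) .nil) .nil)))) (.nd (nat_lit 9) 
(.lf (nat_lit 585133) (.g (nat_lit 620) (.e (nat_lit 385073) (nat_lit 31) (.e (nat_lit 573482) (nat_lit 13) (.e (nat_lit 65628) (nat_lit 14) .nil))) (.g (nat_lit 0) (.e (nat_lit 387379) (nat_lit 0) .nil) .nil))) 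
(.lf (nat_lit 585645) (.g (nat_lit 1879) (.e (nat_lit 393251) (nat_lit 18) (.e (nat_lit 164325) (nat_lit 230) (.e (nat_lit 163873) (nat_lit 3) (.e (nat_lit 204811) (nat_lit 9) (.e (nat_lit 426261) (nat_lit 9) (.e (nat_lit 433920) (nat_lit 34) .nil)))))) (.g (nat_lit 1) (.e (nat_lit 388737) (nat_lit 0) .nil) .nil)))))) (.nd (nat_lit 7) (.nd (nat_lit 8) (.nd (nat_lit 9) 
(.lf (nat_lit 584813) (.g (nat_lit 1645) (.e (nat_lit 385066) (nat_lit 26) (.e (nat_lit 532530) (nat_lit 9) (.e (nat_lit 336326) (nat_lit 18) (.e (nat_lit 204854) (nat_lit 26) (.e (nat_lit 343808) (nat_lit 18) .nil))))) (.g (nat_lit 0) (.e (nat_lit 386892) (nat_lit 0) .nil) .nil))) 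
(.lf (nat_lit 585325) (.g (nat_lit 2201) (.e (nat_lit 385074) (nat_lit 31) (.e (nat_lit 573493) (nat_lit 15) (.e (nat_lit 81951) (nat_lit 22) (.e (nat_lit 90191) (nat_lit 18) .nil)))) (.g (nat_lit 0) (.e (nat_lit 387713) (nat_lit 0) .nil) .nil)))) (.nd (nat_lit 9) 
(.lf (nat_lit 585069) (.g (nat_lit 3332) (.e (nat_lit 385072) (nat_lit 31) (.e (nat_lit 573485) (nat_lit 13) (.e (nat_lit 65619) (nat_lit 10) (.e (nat_lit 344129) (nat_lit 26) (.e (nat_lit 557085) (nat_lit 11) (.e (nat_lit 24653) (nat_lit 12) .nil)))))) (.g (nat_lit 1) (.e (nat_lit 387279) (nat_lit 0) .nil) .nil))) 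
(.lf (nat_lit 585581) (.g (nat_lit 1831) (.e (nat_lit 393250) (nat_lit 18) (.e (nat_lit 164327) (nat_lit 230) (.e (nat_lit 163868) (nat_lit 2) (.e (nat_lit 196654) (nat_lit 11) (.e (nat_lit 16436) (nat_lit 9) .nil))))) (.g (nat_lit 0) (.e (nat_lit 388650) (nat_lit 0) .nil) .nil))))) (.nd (nat_lit 8) (.nd (nat_lit 9) 
(.lf (nat_lit 584941) (.g (nat_lit 1928) (.e (nat_lit 385068) (nat_lit 26) (.e (nat_lit 532513) (nat_lit 3) (.e (nat_lit 114694) (nat_lit 11) (.e (nat_lit 426116) (nat_lit 2) (.e (nat_lit 196681) (nat_lit 17) (.e (nat_lit 131120) (nat_lit 12) .nil)))))) (.g (nat_lit 1) (.e (nat_lit 387090) (nat_lit 0) .nil) .nil))) 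
(.lf (nat_lit 585453) (.g (nat_lit 3072) (.e (nat_lit 385105) (nat_lit 50) (.e (nat_lit 786480) (nat_lit 29) (.e (nat_lit 352262) (nat_lit 0) (.e (nat_lit 3748) (nat_lit 228) (.e (nat_lit 786473) (nat_lit 27) (.e (nat_lit 343808) (nat_lit 12) .nil)))))) (.g (nat_lit 1) (.e (nat_lit 388094) (nat_lit 0) .nil) .nil)))) (.nd (nat_lit 9) 
(.lf (nat_lit 585197) (.g (nat_lit 2148) (.e (nat_lit 385073) (nat_lit 31) (.e (nat_lit 573493) (nat_lit 15) (.e (nat_lit 81956) (nat_lit 23) (.e (nat_lit 98325) (nat_lit 17) (.e (nat_lit 7936) (nat_lit 402) .nil))))) (.g (nat_lit 0) (.e (nat_lit 387492) (nat_lit 0) .nil) .nil))) 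
(.lf (nat_lit 585709) (.g (nat_lit 1456) (.e (nat_lit 393251) (nat_lit 18) (.e (nat_lit 164327) (nat_lit 230) (.e (nat_lit 163875) (nat_lit 3) (.e (nat_lit 204809) (nat_lit 9) .nil)))) (.g (nat_lit 0) (.e (nat_lit 388801) (nat_lit 0) .nil) .nil)))))))) (.nd (nat_lit 5) (.nd (nat_lit 6) (.nd (nat_lit 7) (.nd (nat_lit 8) (.nd (nat_lit 9) 
(.lf (nat_lit 584733) (.g (nat_lit 2093) (.e (nat_lit 385065) (nat_lit 26) (.e (nat_lit 532534) (nat_lit 9) (.e (nat_lit 336324) (nat_lit 18) (.e (nat_lit 204880) (nat_lit 32) (.e (nat_lit 385066) (nat_lit 26) (.e (nat_lit 532565) (nat_lit 15) .nil)))))) (.g (nat_lit 1) (.e (nat_lit 386773) (nat_lit 0) .nil) .nil))) 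
(.lf (nat_lit 585245) (.g (nat_lit 2494) (.e (nat_lit 385074) (nat_lit 31) (.e (nat_lit 573484) (nat_lit 13) (.e (nat_lit 65610) (nat_lit 10) (.e (nat_lit 344129) (nat_lit 26) (.e (nat_lit 557086) (nat_lit 11) (.e (nat_lit 24648) (nat_lit 12) .nil)))))) (.g (nat_lit 1) (.e (nat_lit 387569) (nat_lit 0) .nil) .nil)))) (.nd (nat_lit 9) 
(.lf (nat_lit 584989) (.g (nat_lit 1158) (.e (nat_lit 385068) (nat_lit 26) (.e (nat_lit 532534) (nat_lit 9) (.e (nat_lit 336316) (nat_lit 17) (.e (nat_lit 196665) (nat_lit 13) .nil)))) (.g (nat_lit 0) (.e (nat_lit 387151) (nat_lit 0) .nil) .nil))) 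
(.lf (nat_lit 585501) (.g (nat_lit 3697) (.e (nat_lit 393225) (nat_lit 9) (.e (nat_lit 335988) (nat_lit 1) (.e (nat_lit 57926) (nat_lit 282) (.e (nat_lit 163874) (nat_lit 3) (.e (nat_lit 204852) (nat_lit 26) (.e (nat_lit 336211) (nat_lit 13) .nil)))))) (.g (nat_lit 1) (.e (nat_lit 388470) (nat_lit 0) .nil) .nil))))) (.nd (nat_lit 8) (.nd (nat_lit 9) 
(.lf (nat_lit 584861) (.g (nat_lit 1932) (.e (nat_lit 385066) (nat_lit 26) (.e (nat_lit 532558) (nat_lit 14) (.e (nat_lit 376858) (nat_lit 21) (.e (nat_lit 57688) (nat_lit 156) (.e (nat_lit 163885) (nat_lit 5) (.e (nat_lit 229120) (nat_lit 17) .nil)))))) (.g (nat_lit 1) (.e (nat_lit 386950) (nat_lit 0) .nil) .nil))) 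
(.lf (nat_lit 585373) (.g (nat_lit 3982) (.e (nat_lit 385093) (nat_lit 49) (.e (nat_lit 778317) (nat_lit 3) (.e (nat_lit 57476) (nat_lit 28) (.e (nat_lit 557067) (nat_lit 9) (.e (nat_lit 3022) (nat_lit 187) (.e (nat_lit 450578) (nat_lit 5) (.e (nat_lit 532566) (nat_lit 15) .nil))))))) (.g (nat_lit 1) (.e (nat_lit 387921) (nat_lit 0) .nil) .nil)))) (.nd (nat_lit 9) 
(.lf (nat_lit 585117) (.g (nat_lit 2475) (.e (nat_lit 385072) (nat_lit 31) (.e (nat_lit 573493) (nat_lit 15) (.e (nat_lit 81953) (nat_lit 22) (.e (nat_lit 90165) (nat_lit 12) .nil)))) (.g (nat_lit 0) (.e (nat_lit 387353) (nat_lit 0) .nil) .nil))) 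
(.lf (nat_lit 585629) (.g (nat_lit 3532) (.e (nat_lit 393251) (nat_lit 18) (.e (nat_lit 164325) (nat_lit 230) (.e (nat_lit 163868) (nat_lit 2) (.e (nat_lit 196656) (nat_lit 11) (.e (nat_lit 16433) (nat_lit 9) (.e (nat_lit 426568) (nat_lit 34) .nil)))))) (.g (nat_lit 1) (.e (nat_lit 388721) (nat_lit 0) .nil) .nil)))))) (.nd (nat_lit 7) (.nd (nat_lit 8) (.nd (nat_lit 9) 
(.lf (nat_lit 584797) (.g (nat_lit 1882) (.e (nat_lit 385066) (nat_lit 26) (.e (nat_lit 532529) (nat_lit 9) (.e (nat_lit 336324) (nat_lit 18) (.e (nat_lit 204854) (nat_lit 26) (.e (nat_lit 336326) (nat_lit 18) .nil))))) (.g (nat_lit 0) (.e (nat_lit 386875) (nat_lit 0) .nil) .nil))) 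
(.lf (nat_lit 585309) (.g (nat_lit 453) (.e (nat_lit 385074) (nat_lit 31) (.e (nat_lit 573491) (nat_lit 15) (.e (nat_lit 81956) (nat_lit 23) .nil))) (.g (nat_lit 0) (.e (nat_lit 387694) (nat_lit 0) .nil) .nil)))) (.nd (nat_lit 9) 
(.lf (nat_lit 585053) (.g (nat_lit 3599) (.e (nat_lit 385072) (nat_lit 31) (.e (nat_lit 573482) (nat_lit 13) (.e (nat_lit 65619) (nat_lit 10) (.e (nat_lit 344129) (nat_lit 26) (.e (nat_lit 557085) (nat_lit 11) (.e (nat_lit 24650) (nat_lit 12) .nil)))))) (.g (nat_lit 1) (.e (nat_lit 387259) (nat_lit 0) .nil) .nil))) 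
(.lf (nat_lit 585565) (.g (nat_lit 2263) (.e (nat_lit 393233) (nat_lit 17) (.e (nat_lit 7593) (nat_lit 407) (.e (nat_lit 73773) (nat_lit 25) (.e (nat_lit 770072) (nat_lit 8) (.e (nat_lit 65625) (nat_lit 13) .nil))))) (.g (nat_lit 1) (.e (nat_lit 388619) (nat_lit 0) .nil) .nil))))) (.nd (nat_lit 8) (.nd (nat_lit 9) 
(.lf (nat_lit 584925) (.g (nat_lit 2024) (.e (nat_lit 385068) (nat_lit 26) (.e (nat_lit 532504) (nat_lit 1) (.e (nat_lit 57830) (nat_lit 250) (.e (nat_lit 1201) (nat_lit 88) (.e (nat_lit 65639) (nat_lit 15) .nil))))) (.g (nat_lit 0) (.e (nat_lit 387066) (nat_lit 0) .nil) .nil))) 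
(.lf (nat_lit 585437) (.g (nat_lit 394) (.e (nat_lit 385102) (nat_lit 50) (.e (nat_lit 786483) (nat_lit 30) (.e (nat_lit 360456) (nat_lit 0) .nil))) (.g (nat_lit 0) (.e (nat_lit 388052) (nat_lit 0) .nil) .nil)))) (.nd (nat_lit 9) 
(.lf (nat_lit 585181) (.g (nat_lit 4890) (.e (nat_lit 385073) (nat_lit 31) (.e (nat_lit 573493) (nat_lit 15) (.e (nat_lit 81953) (nat_lit 22) (.e (nat_lit 90143) (nat_lit 9) .nil)))) (.g (nat_lit 0) (.e (nat_lit 387475) (nat_lit 0) .nil) .nil))) 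
(.lf (nat_lit 585693) (.g (nat_lit 1720) (.e (nat_lit 393251) (nat_lit 18) (.e (nat_lit 164327) (nat_lit 230) (.e (nat_lit 163873) (nat_lit 3) (.e (nat_lit 204811) (nat_lit 9) (.e (nat_lit 426260) (nat_lit 9) (.e (nat_lit 433920) (nat_lit 34) .nil)))))) (.g (nat_lit 1) (.e (nat_lit 388785) (nat_lit 0) .nil) .nil))))))) (.nd (nat_lit 6) (.nd (nat_lit 7) (.nd (nat_lit 8) (.nd (nat_lit 9) 
(.lf (nat_lit 584765) (.g (nat_lit 2248) (.e (nat_lit 385066) (nat_lit 26) (.e (nat_lit 532503) (nat_lit 1) (.e (nat_lit 57846) (nat_lit 252) (.e (nat_lit 57411) (nat_lit 12) (.e (nat_lit 336454) (nat_lit 34) .nil))))) (.g (nat_lit 0) (.e (nat_lit 386829) (nat_lit 0) .nil) .nil))) 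
(.lf (nat_lit 585277) (.g (nat_lit 3097) (.e (nat_lit 385074) (nat_lit 31) (.e (nat_lit 573485) (nat_lit 13) (.e (nat_lit 65619) (nat_lit 10) (.e (nat_lit 344129) (nat_lit 26) (.e (nat_lit 557087) (nat_lit 11) (.e (nat_lit 24650) (nat_lit 12) .nil)))))) (.g (nat_lit 1) (.e (nat_lit 387643) (nat_lit 0) .nil) .nil)))) (.nd (nat_lit 9) 
(.lf (nat_lit 585021) (.g (nat_lit 2510) (.e (nat_lit 385068) (nat_lit 26) (.e (nat_lit 532563) (nat_lit 15) (.e (nat_lit 385068) (nat_lit 26) (.e (nat_lit 532566) (nat_lit 15) (.e (nat_lit 385068) (nat_lit 26) (.e (nat_lit 532566) (nat_lit 15) .nil)))))) (.g (nat_lit 1) (.e (nat_lit 387185) (nat_lit 0) .nil) .nil))) 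
(.lf (nat_lit 585533) (.g (nat_lit 2541) (.e (nat_lit 393229) (nat_lit 9) (.e (nat_lit 335988) (nat_lit 1) (.e (nat_lit 57926) (nat_lit 282) (.e (nat_lit 163869) (nat_lit 2) (.e (nat_lit 196681) (nat_lit 17) (.e (nat_lit 131124) (nat_lit 13) .nil)))))) (.g (nat_lit 1) (.e (nat_lit 388542) (nat_lit 0) .nil) .nil))))) (.nd (nat_lit 8) (.nd (nat_lit 9) 
(.lf (nat_lit 584893) (.g (nat_lit 364) (.e (nat_lit 385067) (nat_lit 26) (.e (nat_lit 532530) (nat_lit 9) (.e (nat_lit 336326) (nat_lit 18) .nil))) (.g (nat_lit 0) (.e (nat_lit 387008) (nat_lit 0) .nil) .nil))) 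
(.lf (nat_lit 585405) (.g (nat_lit 2758) (.e (nat_lit 385094) (nat_lit 49) (.e (nat_lit 778323) (nat_lit 5) (.e (nat_lit 73781) (nat_lit 32) (.e (nat_lit 3089) (nat_lit 191) (.e (nat_lit 483406) (nat_lit 26) .nil))))) (.g (nat_lit 1) (.e (nat_lit 387983) (nat_lit 0) .nil) .nil)))) (.nd (nat_lit 9) 
(.lf (nat_lit 585149) (.g (nat_lit 1011) (.e (nat_lit 385073) (nat_lit 31) (.e (nat_lit 573491) (nat_lit 15) (.e (nat_lit 81954) (nat_lit 23) (.e (nat_lit 98321) (nat_lit 17) .nil)))) (.g (nat_lit 0) (.e (nat_lit 387420) (nat_lit 0) .nil) .nil))) 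
(.lf (nat_lit 585661) (.g (nat_lit 1995) (.e (nat_lit 393251) (nat_lit 18) (.e (nat_lit 164325) (nat_lit 230) (.e (nat_lit 163875) (nat_lit 3) (.e (nat_lit 204811) (nat_lit 9) (.e (nat_lit 426262) (nat_lit 9) (.e (nat_lit 426565) (nat_lit 34) .nil)))))) (.g (nat_lit 1) (.e (nat_lit 388753) (nat_lit 0) .nil) .nil)))))) (.nd (nat_lit 7) (.nd (nat_lit 8) (.nd (nat_lit 9) 
(.lf (nat_lit 584829) (.g (nat_lit 2589) (.e (nat_lit 385066) (nat_lit 26) (.e (nat_lit 532534) (nat_lit 9) (.e (nat_lit 336019) (nat_lit 3) (.e (nat_lit 98333) (nat_lit 18) (.e (nat_lit 164242) (nat_lit 195) .nil))))) (.g (nat_lit 0) (.e (nat_lit 386911) (nat_lit 0) .nil) .nil))) 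
(.lf (nat_lit 585341) (.g (nat_lit 1791) (.e (nat_lit 385074) (nat_lit 31) (.e (nat_lit 573493) (nat_lit 15) (.e (nat_lit 81954) (nat_lit 23) (.e (nat_lit 98321) (nat_lit 17) .nil)))) (.g (nat_lit 0) (.e (nat_lit 387730) (nat_lit 0) .nil) .nil)))) (.nd (nat_lit 9) 
(.lf (nat_lit 585085) (.g (nat_lit 4429) (.e (nat_lit 385072) (nat_lit 31) (.e (nat_lit 573492) (nat_lit 15) (.e (nat_lit 81953) (nat_lit 22) (.e (nat_lit 90135) (nat_lit 9) .nil)))) (.g (nat_lit 0) (.e (nat_lit 387312) (nat_lit 0) .nil) .nil))) 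
(.lf (nat_lit 585597) (.g (nat_lit 1709) (.e (nat_lit 393250) (nat_lit 18) (.e (nat_lit 164398) (nat_lit 256) (.e (nat_lit 57373) (nat_lit 2) (.e (nat_lit 90185) (nat_lit 17) (.e (nat_lit 237601) (nat_lit 9) .nil))))) (.g (nat_lit 0) (.e (nat_lit 388666) (nat_lit 0) .nil) .nil))))) (.nd (nat_lit 8) (.nd (nat_lit 9) 
(.lf (nat_lit 584957) (.g (nat_lit 336) (.e (nat_lit 385068) (nat_lit 26) (.e (nat_lit 532513) (nat_lit 3) (.e (nat_lit 122624) (nat_lit 11) .nil))) (.g (nat_lit 0) (.e (nat_lit 387107) (nat_lit 0) .nil) .nil))) 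
(.lf (nat_lit 585469) (.g (nat_lit 3164) (.e (nat_lit 385107) (nat_lit 51) (.e (nat_lit 794669) (nat_lit 22) (.e (nat_lit 196656) (nat_lit 11) (.e (nat_lit 16436) (nat_lit 9) (.e (nat_lit 426131) (nat_lit 3) (.e (nat_lit 204880) (nat_lit 32) .nil)))))) (.g (nat_lit 1) (.e (nat_lit 388191) (nat_lit 0) .nil) .nil)))) (.nd (nat_lit 9) 
(.lf (nat_lit 585213) (.g (nat_lit 1442) (.e (nat_lit 385074) (nat_lit 31) (.e (nat_lit 573481) (nat_lit 13) (.e (nat_lit 65630) (nat_lit 14) (.e (nat_lit 401428) (nat_lit 3) .nil)))) (.g (nat_lit 0) (.e (nat_lit 387521) (nat_lit 0) .nil) .nil))) 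
(.lf (nat_lit 585725) (.g (nat_lit 1497) (.e (nat_lit 393251) (nat_lit 18) (.e (nat_lit 164332) (nat_lit 230) (.e (nat_lit 163867) (nat_lit 2) (.e (nat_lit 196624) (nat_lit 9) (.e (nat_lit 7936) (nat_lit 34) (.e (nat_lit 450304) (nat_lit 18) .nil)))))) (.g (nat_lit 1) (.e (nat_lit 388817) (nat_lit 0) .nil) .nil))))))))))) 
(.nd (nat_lit 2) (.nd (nat_lit 3) (.nd (nat_lit 4) (.nd (nat_lit 5) (.nd (nat_lit 6) 
(.nd (nat_lit 7) (.nd (nat_lit 8) (.nd (nat_lit 9) 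
(.lf (nat_lit 584707) (.g (nat_lit 2647) (.e (nat_lit 385064) (nat_lit 26) (.e (nat_lit 532535) (nat_lit 9) (.e (nat_lit 335925) (nat_lit 0) (.e (nat_lit 1858) (nat_lit 124) (.e (nat_lit 557100) (nat_lit 13) .nil))))) (.g (nat_lit 0) (.e (nat_lit 386707) (nat_lit 0) .nil) .nil))) 
(.lf (nat_lit 585219) (.g (nat_lit 845) (.e (nat_lit 385074) (nat_lit 31) (.e (nat_lit 573482) (nat_lit 13) (.e (nat_lit 65622) (nat_lit 12) (.e (nat_lit 385074) (nat_lit 31) .nil)))) (.g (nat_lit 0) (.e (nat_lit 387528) (nat_lit 0) .nil) .nil)))) (.nd (nat_lit 9) 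
(.lf (nat_lit 584963) (.g (nat_lit 2221) (.e (nat_lit 385068) (nat_lit 26) (.e (nat_lit 532515) (nat_lit 3) (.e (nat_lit 114697) (nat_lit 11) (.e (nat_lit 426114) (nat_lit 2) (.e (nat_lit 196681) (nat_lit 17) (.e (nat_lit 131120) (nat_lit 12) .nil)))))) (.g (nat_lit 1) (.e (nat_lit 387120) (nat_lit 0) .nil) .nil))) 
(.lf (nat_lit 585475) (.g (nat_lit 2642) (.e (nat_lit 385109) (nat_lit 51) (.e (nat_lit 794676) (nat_lit 24) (.e (nat_lit 213030) (nat_lit 11) (.e (nat_lit 24617) (nat_lit 7) (.e (nat_lit 319533) (nat_lit 16) (.e (nat_lit 286758) (nat_lit 12) .nil)))))) (.g (nat_lit 1) (.e (nat_lit 388316) (nat_lit 0) .nil) .nil))))) (.nd (nat_lit 8) (.nd (nat_lit 9) 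
(.lf (nat_lit 584835) (.g (nat_lit 628) (.e (nat_lit 385066) (nat_lit 26) (.e (nat_lit 532534) (nat_lit 9) (.e (nat_lit 336261) (nat_lit 15) .nil))) (.g (nat_lit 0) (.e (nat_lit 386919) (nat_lit 0) .nil) .nil))) 
(.lf (nat_lit 585347) (.g (nat_lit 1414) (.e (nat_lit 385074) (nat_lit 31) (.e (nat_lit 573493) (nat_lit 15) (.e (nat_lit 81956) (nat_lit 23) (.e (nat_lit 98321) (nat_lit 17) .nil)))) (.g (nat_lit 0) (.e (nat_lit 387736) (nat_lit 0) .nil) .nil)))) (.nd (nat_lit 9) 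
(.lf (nat_lit 585091) (.g (nat_lit 4177) (.e (nat_lit 385072) (nat_lit 31) (.e (nat_lit 573492) (nat_lit 15) (.e (nat_lit 81953) (nat_lit 22) (.e (nat_lit 90145) (nat_lit 9) .nil)))) (.g (nat_lit 0) (.e (nat_lit 387318) (nat_lit 0) .nil) .nil))) 
(.lf (nat_lit 585603) (.g (nat_lit 1304) (.e (nat_lit 393250) (nat_lit 18) (.e (nat_lit 164399) (nat_lit 256) (.e (nat_lit 57378) (nat_lit 3) (.e (nat_lit 98363) (nat_lit 26) (.e (nat_lit 426230) (nat_lit 9) .nil))))) (.g (nat_lit 0) (.e (nat_lit 388672) (nat_lit 0) .nil) .nil)))))) (.nd (nat_lit 7) (.nd (nat_lit 8) (.nd (nat_lit 9) 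
(.lf (nat_lit 584771) (.g (nat_lit 797) (.e (nat_lit 385066) (nat_lit 26) (.e (nat_lit 532504) (nat_lit 1) (.e (nat_lit 57852) (nat_lit 252) (.e (nat_lit 57404) (nat_lit 12) .nil)))) (.g (nat_lit 0) (.e (nat_lit 386841) (nat_lit 0) .nil) .nil))) 
(.lf (nat_lit 585283) (.g (nat_lit 2537) (.e (nat_lit 385074) (nat_lit 31) (.e (nat_lit 573485) (nat_lit 13) (.e (nat_lit 65628) (nat_lit 14) (.e (nat_lit 401428) (nat_lit 3) (.e (nat_lit 204858) (nat_lit 26) (.e (nat_lit 336198) (nat_lit 12) .nil)))))) (.g (nat_lit 1) (.e (nat_lit 387649) (nat_lit 0) .nil) .nil)))) (.nd (nat_lit 9) 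
(.lf (nat_lit 585027) (.g (nat_lit 2563) (.e (nat_lit 385069) (nat_lit 27) (.e (nat_lit 540703) (nat_lit 11) (.e (nat_lit 352309) (nat_lit 21) (.e (nat_lit 57687) (nat_lit 156) (.e (nat_lit 163886) (nat_lit 5) (.e (nat_lit 229120) (nat_lit 17) .nil)))))) (.g (nat_lit 1) (.e (nat_lit 387197) (nat_lit 0) .nil) .nil))) 
(.lf (nat_lit 585539) (.g (nat_lit 2342) (.e (nat_lit 393229) (nat_lit 9) (.e (nat_lit 335988) (nat_lit 1) (.e (nat_lit 57927) (nat_lit 282) (.e (nat_lit 163874) (nat_lit 3) (.e (nat_lit 204855) (nat_lit 26) (.e (nat_lit 336212) (nat_lit 13) .nil)))))) (.g (nat_lit 1) (.e (nat_lit 388552) (nat_lit 0) .nil) .nil))))) (.nd (nat_lit 8) (.nd (nat_lit 9) 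
(.lf (nat_lit 584899) (.g (nat_lit 1315) (.e (nat_lit 385067) (nat_lit 26) (.e (nat_lit 532534) (nat_lit 9) (.e (nat_lit 336324) (nat_lit 18) (.e (nat_lit 204853) (nat_lit 26) .nil)))) (.g (nat_lit 0) (.e (nat_lit 387016) (nat_lit 0) .nil) .nil))) 
(.lf (nat_lit 585411) (.g (nat_lit 3327) (.e (nat_lit 385094) (nat_lit 49) (.e (nat_lit 778323) (nat_lit 5) (.e (nat_lit 73782) (nat_lit 32) (.e (nat_lit 2857) (nat_lit 184) (.e (nat_lit 426482) (nat_lit 27) (.e (nat_lit 336205) (nat_lit 12) .nil)))))) (.g (nat_lit 1) (.e (nat_lit 387989) (nat_lit 0) .nil) .nil)))) (.nd (nat_lit 9) 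
(.lf (nat_lit 585155) (.g (nat_lit 424) (.e (nat_lit 385073) (nat_lit 31) (.e (nat_lit 573493) (nat_lit 15) (.e (nat_lit 81929) (nat_lit 20) .nil))) (.g (nat_lit 0) (.e (nat_lit 387427) (nat_lit 0) .nil) .nil))) 
(.lf (nat_lit 585667) (.g (nat_lit 2455) (.e (nat_lit 393251) (nat_lit 18) (.e (nat_lit 164327) (nat_lit 230) (.e (nat_lit 163868) (nat_lit 2) (.e (nat_lit 196624) (nat_lit 9) (.e (nat_lit 454) (nat_lit 34) (.e (nat_lit 450304) (nat_lit 18) .nil)))))) (.g (nat_lit 1) (.e (nat_lit 388759) (nat_lit 0) .nil) .nil))))))) (.nd (nat_lit 6) (.nd (nat_lit 7) (.nd (nat_lit 8) (.nd (nat_lit 9) 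
(.lf (nat_lit 584739) (.g (nat_lit 2844) (.e (nat_lit 385065) (nat_lit 26) (.e (nat_lit 532550) (nat_lit 12) (.e (nat_lit 360451) (nat_lit 0) (.e (nat_lit 7695) (nat_lit 412) .nil)))) (.g (nat_lit 0) (.e (nat_lit 386781) (nat_lit 0) .nil) .nil))) 
(.lf (nat_lit 585251) (.g (nat_lit 1087) (.e (nat_lit 385074) (nat_lit 31) (.e (nat_lit 573484) (nat_lit 13) (.e (nat_lit 65617) (nat_lit 10) (.e (nat_lit 344127) (nat_lit 26) .nil)))) (.g (nat_lit 0) (.e (nat_lit 387577) (nat_lit 0) .nil) .nil)))) (.nd (nat_lit 9) 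
(.lf (nat_lit 584995) (.g (nat_lit 2926) (.e (nat_lit 385068) (nat_lit 26) (.e (nat_lit 532534) (nat_lit 9) (.e (nat_lit 336324) (nat_lit 18) (.e (nat_lit 204882) (nat_lit 32) (.e (nat_lit 385066) (nat_lit 26) (.e (nat_lit 532566) (nat_lit 15) .nil)))))) (.g (nat_lit 1) (.e (nat_lit 387158) (nat_lit 0) .nil) .nil))) 
(.lf (nat_lit 585507) (.g (nat_lit 2635) (.e (nat_lit 393225) (nat_lit 9) (.e (nat_lit 335995) (nat_lit 1) (.e (nat_lit 57929) (nat_lit 282) (.e (nat_lit 163867) (nat_lit 2) (.e (nat_lit 196665) (nat_lit 13) (.e (nat_lit 65626) (nat_lit 13) .nil)))))) (.g (nat_lit 1) (.e (nat_lit 388490) (nat_lit 0) .nil) .nil))))) (.nd (nat_lit 8) (.nd (nat_lit 9) 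
(.lf (nat_lit 584867) (.g (nat_lit 1871) (.e (nat_lit 385066) (nat_lit 26) (.e (nat_lit 532560) (nat_lit 14) (.e (nat_lit 376860) (nat_lit 21) (.e (nat_lit 57685) (nat_lit 156) (.e (nat_lit 163884) (nat_lit 5) (.e (nat_lit 229120) (nat_lit 17) .nil)))))) (.g (nat_lit 1) (.e (nat_lit 386956) (nat_lit 0) .nil) .nil))) 
(.lf (nat_lit 585379) (.g (nat_lit 2808) (.e (nat_lit 385093) (nat_lit 49) (.e (nat_lit 778318) (nat_lit 3) (.e (nat_lit 57476) (nat_lit 28) (.e (nat_lit 557107) (nat_lit 15) (.e (nat_lit 188440) (nat_lit 20) (.e (nat_lit 3255) (nat_lit 197) (.e (nat_lit 532562) (nat_lit 15) .nil))))))) (.g (nat_lit 1) (.e (nat_lit 387935) (nat_lit 0) .nil) .nil)))) (.nd (nat_lit 9) 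
(.lf (nat_lit 585123) (.g (nat_lit 3866) (.e (nat_lit 385072) (nat_lit 31) (.e (nat_lit 573493) (nat_lit 15) (.e (nat_lit 81956) (nat_lit 23) (.e (nat_lit 98321) (nat_lit 17) .nil)))) (.g (nat_lit 0) (.e (nat_lit 387361) (nat_lit 0) .nil) .nil))) 
(.lf (nat_lit 585635) (.g (nat_lit 2232) (.e (nat_lit 393251) (nat_lit 18) (.e (nat_lit 164325) (nat_lit 230) (.e (nat_lit 163871) (nat_lit 2) (.e (nat_lit 196624) (nat_lit 9) (.e (nat_lit 454) (nat_lit 34) (.e (nat_lit 450304) (nat_lit 18) .nil)))))) (.g (nat_lit 1) (.e (nat_lit 388727) (nat_lit 0) .nil) .nil)))))) (.nd (nat_lit 7) (.nd (nat_lit 8) (.nd (nat_lit 9) 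
(.lf (nat_lit 584803) (.g (nat_lit 397) (.e (nat_lit 385066) (nat_lit 26) (.e (nat_lit 532530) (nat_lit 9) (.e (nat_lit 336326) (nat_lit 18) .nil))) (.g (nat_lit 0) (.e (nat_lit 386882) (nat_lit 0) .nil) .nil))) 
(.lf (nat_lit 585315) (.g (nat_lit 1198) (.e (nat_lit 385074) (nat_lit 31) (.e (nat_lit 573493) (nat_lit 15) (.e (nat_lit 81938) (nat_lit 20) (.e (nat_lit 1840) (nat_lit 123) .nil)))) (.g (nat_lit 0) (.e (nat_lit 387701) (nat_lit 0) .nil) .nil)))) (.nd (nat_lit 9) 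
(.lf (nat_lit 585059) (.g (nat_lit 3149) (.e (nat_lit 385072) (nat_lit 31) (.e (nat_lit 573482) (nat_lit 13) (.e (nat_lit 65619) (nat_lit 10) (.e (nat_lit 344129) (nat_lit 26) (.e (nat_lit 557087) (nat_lit 11) (.e (nat_lit 24653) (nat_lit 12) .nil)))))) (.g (nat_lit 1) (.e (nat_lit 387265) (nat_lit 0) .nil) .nil))) 
(.lf (nat_lit 585571) (.g (nat_lit 2934) (.e (nat_lit 393238) (nat_lit 17) (.e (nat_lit 6989) (nat_lit 377) (.e (nat_lit 2777) (nat_lit 178) (.e (nat_lit 286721) (nat_lit 0) .nil)))) (.g (nat_lit 0) (.e (nat_lit 388633) (nat_lit 0) .nil) .nil))))) (.nd (nat_lit 8) (.nd (nat_lit 9) 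
(.lf (nat_lit 584931) (.g (nat_lit 2621) (.e (nat_lit 385068) (nat_lit 26) (.e (nat_lit 532504) (nat_lit 1) (.e (nat_lit 57852) (nat_lit 252) (.e (nat_lit 57406) (nat_lit 12) (.e (nat_lit 336452) (nat_lit 34) .nil))))) (.g (nat_lit 0) (.e (nat_lit 387076) (nat_lit 0) .nil) .nil))) 
(.lf (nat_lit 585443) (.g (nat_lit 1716) (.e (nat_lit 385103) (nat_lit 50) (.e (nat_lit 786483) (nat_lit 30) (.e (nat_lit 360451) (nat_lit 0) (.e (nat_lit 5896) (nat_lit 320) (.e (nat_lit 1040) (nat_lit 81) .nil))))) (.g (nat_lit 0) (.e (nat_lit 388073) (nat_lit 0) .nil) .nil)))) (.nd (nat_lit 9) 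
(.lf (nat_lit 585187) (.g (nat_lit 3332) (.e (nat_lit 385073) (nat_lit 31) (.e (nat_lit 573493) (nat_lit 15) (.e (nat_lit 81953) (nat_lit 22) (.e (nat_lit 90189) (nat_lit 18) .nil)))) (.g (nat_lit 0) (.e (nat_lit 387481) (nat_lit 0) .nil) .nil))) 
(.lf (nat_lit 585699) (.g (nat_lit 3638) (.e (nat_lit 393251) (nat_lit 18) (.e (nat_lit 164327) (nat_lit 230) (.e (nat_lit 163873) (nat_lit 3) (.e (nat_lit 204813) (nat_lit 9) (.e (nat_lit 426196) (nat_lit 9) .nil))))) (.g (nat_lit 0) (.e (nat_lit 388791) (nat_lit 0) .nil) .nil)))))))) (.nd (nat_lit 5) (.nd (nat_lit 6) (.nd (nat_lit 7) (.nd (nat_lit 8) (.nd (nat_lit 9) 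
(.lf (nat_lit 584723) (.g (nat_lit 3069) (.e (nat_lit 385065) (nat_lit 26) (.e (nat_lit 532530) (nat_lit 9) (.e (nat_lit 336324) (nat_lit 18) (.e (nat_lit 204882) (nat_lit 32) (.e (nat_lit 385066) (nat_lit 26) (.e (nat_lit 532565) (nat_lit 15) .nil)))))) (.g (nat_lit 1) (.e (nat_lit 386762) (nat_lit 0) .nil) .nil))) 
(.lf (nat_lit 585235) (.g (nat_lit 1526) (.e (nat_lit 385074) (nat_lit 31) (.e (nat_lit 573484) (nat_lit 13) (.e (nat_lit 65610) (nat_lit 10) (.e (nat_lit 344121) (nat_lit 22) .nil)))) (.g (nat_lit 0) (.e (nat_lit 387556) (nat_lit 0) .nil) .nil)))) (.nd (nat_lit 9) 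
(.lf (nat_lit 584979) (.g (nat_lit 3452) (.e (nat_lit 385068) (nat_lit 26) (.e (nat_lit 532530) (nat_lit 9) (.e (nat_lit 336326) (nat_lit 18) (.e (nat_lit 204851) (nat_lit 26) (.e (nat_lit 336324) (nat_lit 18) (.e (nat_lit 204882) (nat_lit 32) .nil)))))) (.g (nat_lit 1) (.e (nat_lit 387140) (nat_lit 0) .nil) .nil))) 
(.lf (nat_lit 585491) (.g (nat_lit 305) (.e (nat_lit 393225) (nat_lit 9) (.e (nat_lit 335986) (nat_lit 1) (.e (nat_lit 57926) (nat_lit 282) .nil))) (.g (nat_lit 0) (.e (nat_lit 388448) (nat_lit 0) .nil) .nil))))) (.nd (nat_lit 8) (.nd (nat_lit 9) 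
(.lf (nat_lit 584851) (.g (nat_lit 2809) (.e (nat_lit 385066) (nat_lit 26) (.e (nat_lit 532534) (nat_lit 9) (.e (nat_lit 336326) (nat_lit 18) (.e (nat_lit 204880) (nat_lit 32) (.e (nat_lit 385068) (nat_lit 26) (.e (nat_lit 532566) (nat_lit 15) .nil)))))) (.g (nat_lit 1) (.e (nat_lit 386937) (nat_lit 0) .nil) .nil))) 
(.lf (nat_lit 585363) (.g (nat_lit 3716) (.e (nat_lit 385092) (nat_lit 49) (.e (nat_lit 778317) (nat_lit 3) (.e (nat_lit 57476) (nat_lit 28) (.e (nat_lit 557067) (nat_lit 9) (.e (nat_lit 3022) (nat_lit 187) (.e (nat_lit 450579) (nat_lit 5) (.e (nat_lit 532566) (nat_lit 15) .nil))))))) (.g (nat_lit 1) (.e (nat_lit 387903) (nat_lit 0) .nil) .nil)))) (.nd (nat_lit 9) 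
(.lf (nat_lit 585107) (.g (nat_lit 3159) (.e (nat_lit 385072) (nat_lit 31) (.e (nat_lit 573493) (nat_lit 15) (.e (nat_lit 81953) (nat_lit 22) (.e (nat_lit 90133) (nat_lit 9) .nil)))) (.g (nat_lit 0) (.e (nat_lit 387343) (nat_lit 0) .nil) .nil))) 
(.lf (nat_lit 585619) (.g (nat_lit 2536) (.e (nat_lit 393251) (nat_lit 18) (.e (nat_lit 164325) (nat_lit 230) (.e (nat_lit 163868) (nat_lit 2) (.e (nat_lit 196624) (nat_lit 9) (.e (nat_lit 454) (nat_lit 34) (.e (nat_lit 450304) (nat_lit 18) .nil)))))) (.g (nat_lit 1) (.e (nat_lit 388711) (nat_lit 0) .nil) .nil)))))) (.nd (nat_lit 7) (.nd (nat_lit 8) (.nd (nat_lit 9) 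
(.lf (nat_lit 584787) (.g (nat_lit 2068) (.e (nat_lit 385066) (nat_lit 26) (.e (nat_lit 532515) (nat_lit 3) (.e (nat_lit 114697) (nat_lit 11) (.e (nat_lit 426114) (nat_lit 2) (.e (nat_lit 196681) (nat_lit 17) (.e (nat_lit 131120) (nat_lit 12) .nil)))))) (.g (nat_lit 1) (.e (nat_lit 386865) (nat_lit 0) .nil) .nil))) 
(.lf (nat_lit 585299) (.g (nat_lit 481) (.e (nat_lit 385074) (nat_lit 31) (.e (nat_lit 573491) (nat_lit 15) (.e (nat_lit 81943) (nat_lit 20) .nil))) (.g (nat_lit 0) (.e (nat_lit 387683) (nat_lit 0) .nil) .nil)))) (.nd (nat_lit 9) 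
(.lf (nat_lit 585043) (.g (nat_lit 2497) (.e (nat_lit 385072) (nat_lit 31) (.e (nat_lit 573481) (nat_lit 13) (.e (nat_lit 65619) (nat_lit 10) (.e (nat_lit 344129) (nat_lit 26) (.e (nat_lit 557086) (nat_lit 11) (.e (nat_lit 24653) (nat_lit 12) .nil)))))) (.g (nat_lit 1) (.e (nat_lit 387249) (nat_lit 0) .nil) .nil))) 
(.lf (nat_lit 585555) (.g (nat_lit 1369) (.e (nat_lit 393230) (nat_lit 17) (.e (nat_lit 6989) (nat_lit 377) (.e (nat_lit 2777) (nat_lit 178) (.e (nat_lit 294656) (nat_lit 27) .nil)))) (.g (nat_lit 0) (.e (nat_lit 388599) (nat_lit 0) .nil) .nil))))) (.nd (nat_lit 8) (.nd (nat_lit 9) 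
(.lf (nat_lit 584915) (.g (nat_lit 1188) (.e (nat_lit 385068) (nat_lit 26) (.e (nat_lit 532501) (nat_lit 1) (.e (nat_lit 57854) (nat_lit 252) (.e (nat_lit 57405) (nat_lit 12) .nil)))) (.g (nat_lit 0) (.e (nat_lit 387048) (nat_lit 0) .nil) .nil))) 
(.lf (nat_lit 585427) (.g (nat_lit 1449) (.e (nat_lit 385102) (nat_lit 50) (.e (nat_lit 786483) (nat_lit 30) (.e (nat_lit 360450) (nat_lit 0) (.e (nat_lit 4766) (nat_lit 281) (.e (nat_lit 2555) (nat_lit 159) .nil))))) (.g (nat_lit 0) (.e (nat_lit 388035) (nat_lit 0) .nil) .nil)))) (.nd (nat_lit 9) 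
(.lf (nat_lit 585171) (.g (nat_lit 4863) (.e (nat_lit 385073) (nat_lit 31) (.e (nat_lit 573493) (nat_lit 15) (.e (nat_lit 81953) (nat_lit 22) (.e (nat_lit 90124) (nat_lit 9) .nil)))) (.g (nat_lit 0) (.e (nat_lit 387465) (nat_lit 0) .nil) .nil))) 
(.lf (nat_lit 585683) (.g (nat_lit 2823) (.e (nat_lit 393251) (nat_lit 18) (.e (nat_lit 164327) (nat_lit 230) (.e (nat_lit 163871) (nat_lit 2) (.e (nat_lit 196656) (nat_lit 11) (.e (nat_lit 16431) (nat_lit 9) .nil))))) (.g (nat_lit 0) (.e (nat_lit 388775) (nat_lit 0) .nil) .nil))))))) (.nd (nat_lit 6) (.nd (nat_lit 7) (.nd (nat_lit 8) (.nd (nat_lit 9) 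
(.lf (nat_lit 584755) (.g (nat_lit 1288) (.e (nat_lit 385066) (nat_lit 26) (.e (nat_lit 532499) (nat_lit 1) (.e (nat_lit 57931) (nat_lit 282) .nil))) (.g (nat_lit 0) (.e (nat_lit 386806) (nat_lit 0) .nil) .nil))) 
(.lf (nat_lit 585267) (.g (nat_lit 1477) (.e (nat_lit 385074) (nat_lit 31) (.e (nat_lit 573484) (nat_lit 13) (.e (nat_lit 65629) (nat_lit 14) (.e (nat_lit 401425) (nat_lit 2) .nil)))) (.g (nat_lit 0) (.e (nat_lit 387618) (nat_lit 0) .nil) .nil)))) (.nd (nat_lit 9) 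
(.lf (nat_lit 585011) (.g (nat_lit 2324) (.e (nat_lit 385068) (nat_lit 26) (.e (nat_lit 532560) (nat_lit 14) (.e (nat_lit 376859) (nat_lit 21) (.e (nat_lit 57686) (nat_lit 156) (.e (nat_lit 163886) (nat_lit 5) (.e (nat_lit 229120) (nat_lit 17) .nil)))))) (.g (nat_lit 1) (.e (nat_lit 387174) (nat_lit 0) .nil) .nil))) 
(.lf (nat_lit 585523) (.g (nat_lit 1862) (.e (nat_lit 393229) (nat_lit 9) (.e (nat_lit 335986) (nat_lit 1) (.e (nat_lit 57847) (nat_lit 252) (.e (nat_lit 57375) (nat_lit 2) (.e (nat_lit 90157) (nat_lit 11) (.e (nat_lit 24656) (nat_lit 13) .nil)))))) (.g (nat_lit 1) (.e (nat_lit 388521) (nat_lit 0) .nil) .nil))))) (.nd (nat_lit 8) (.nd (nat_lit 9) 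
(.lf (nat_lit 584883) (.g (nat_lit 2051) (.e (nat_lit 385066) (nat_lit 26) (.e (nat_lit 532565) (nat_lit 15) (.e (nat_lit 385068) (nat_lit 26) (.e (nat_lit 532534) (nat_lit 9) (.e (nat_lit 336325) (nat_lit 18) (.e (nat_lit 204880) (nat_lit 32) .nil)))))) (.g (nat_lit 1) (.e (nat_lit 386977) (nat_lit 0) .nil) .nil))) 
(.lf (nat_lit 585395) (.g (nat_lit 3491) (.e (nat_lit 385094) (nat_lit 49) (.e (nat_lit 778317) (nat_lit 3) (.e (nat_lit 57480) (nat_lit 28) (.e (nat_lit 557067) (nat_lit 9) (.e (nat_lit 3021) (nat_lit 187) (.e (nat_lit 450579) (nat_lit 5) (.e (nat_lit 532563) (nat_lit 15) .nil))))))) (.g (nat_lit 1) (.e (nat_lit 387961) (nat_lit 0) .nil) .nil)))) (.nd (nat_lit 9) 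
(.lf (nat_lit 585139) (.g (nat_lit 3087) (.e (nat_lit 385073) (nat_lit 31) (.e (nat_lit 573484) (nat_lit 13) (.e (nat_lit 65610) (nat_lit 10) (.e (nat_lit 344129) (nat_lit 26) (.e (nat_lit 557086) (nat_lit 11) (.e (nat_lit 24650) (nat_lit 12) .nil)))))) (.g (nat_lit 1) (.e (nat_lit 387387) (nat_lit 0) .nil) .nil))) 
(.lf (nat_lit 585651) (.g (nat_lit 3673) (.e (nat_lit 393251) (nat_lit 18) (.e (nat_lit 164325) (nat_lit 230) (.e (nat_lit 163873) (nat_lit 3) (.e (nat_lit 204813) (nat_lit 9) (.e (nat_lit 426197) (nat_lit 9) (.e (nat_lit 426567) (nat_lit 34) .nil)))))) (.g (nat_lit 1) (.e (nat_lit 388743) (nat_lit 0) .nil) .nil)))))) (.nd (nat_lit 7) (.nd (nat_lit 8) (.nd (nat_lit 9) 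
(.lf (nat_lit 584819) (.g (nat_lit 3060) (.e (nat_lit 385066) (nat_lit 26) (.e (nat_lit 532530) (nat_lit 9) (.e (nat_lit 336326) (nat_lit 18) (.e (nat_lit 204882) (nat_lit 32) (.e (nat_lit 385068) (nat_lit 26) (.e (nat_lit 532566) (nat_lit 15) .nil)))))) (.g (nat_lit 1) (.e (nat_lit 386899) (nat_lit 0) .nil) .nil))) 
(.lf (nat_lit 585331) (.g (nat_lit 4255) (.e (nat_lit 385074) (nat_lit 31) (.e (nat_lit 573493) (nat_lit 15) (.e (nat_lit 81953) (nat_lit 22) (.e (nat_lit 90134) (nat_lit 9) (.e (nat_lit 3098) (nat_lit 192) (.e (nat_lit 491564) (nat_lit 12) .nil)))))) (.g (nat_lit 1) (.e (nat_lit 387720) (nat_lit 0) .nil) .nil)))) (.nd (nat_lit 9) 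
(.lf (nat_lit 585075) (.g (nat_lit 1691) (.e (nat_lit 385072) (nat_lit 31) (.e (nat_lit 573491) (nat_lit 15) (.e (nat_lit 81951) (nat_lit 22) (.e (nat_lit 90127) (nat_lit 9) .nil)))) (.g (nat_lit 0) (.e (nat_lit 387301) (nat_lit 0) .nil) .nil))) 
(.lf (nat_lit 585587) (.g (nat_lit 3371) (.e (nat_lit 393250) (nat_lit 18) (.e (nat_lit 164327) (nat_lit 230) (.e (nat_lit 163873) (nat_lit 3) (.e (nat_lit 204813) (nat_lit 9) (.e (nat_lit 426199) (nat_lit 9) .nil))))) (.g (nat_lit 0) (.e (nat_lit 388656) (nat_lit 0) .nil) .nil))))) (.nd (nat_lit 8) (.nd (nat_lit 9) 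
(.lf (nat_lit 584947) (.g (nat_lit 2594) (.e (nat_lit 385068) (nat_lit 26) (.e (nat_lit 532513) (nat_lit 3) (.e (nat_lit 114697) (nat_lit 11) (.e (nat_lit 426116) (nat_lit 2) (.e (nat_lit 196681) (nat_lit 17) (.e (nat_lit 131123) (nat_lit 12) .nil)))))) (.g (nat_lit 1) (.e (nat_lit 387097) (nat_lit 0) .nil) .nil))) 
(.lf (nat_lit 585459) (.g (nat_lit 2616) (.e (nat_lit 385106) (nat_lit 50) (.e (nat_lit 786481) (nat_lit 30) (.e (nat_lit 360456) (nat_lit 0) (.e (nat_lit 5949) (nat_lit 322) (.e (nat_lit 57419) (nat_lit 12) (.e (nat_lit 336194) (nat_lit 12) .nil)))))) (.g (nat_lit 1) (.e (nat_lit 388109) (nat_lit 0) .nil) .nil)))) (.nd (nat_lit 9) 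
(.lf (nat_lit 585203) (.g (nat_lit 1143) (.e (nat_lit 385073) (nat_lit 31) (.e (nat_lit 573493) (nat_lit 15) (.e (nat_lit 81962) (nat_lit 25) (.e (nat_lit 139289) (nat_lit 9) .nil)))) (.g (nat_lit 0) (.e (nat_lit 387503) (nat_lit 0) .nil) .nil))) 
(.lf (nat_lit 585715) (.g (nat_lit 1809) (.e (nat_lit 393251) (nat_lit 18) (.e (nat_lit 164330) (nat_lit 230) (.e (nat_lit 163874) (nat_lit 3) (.e (nat_lit 204813) (nat_lit 9) .nil)))) (.g (nat_lit 0) (.e (nat_lit 388807) (nat_lit 0) .nil) .nil))))))))) (.nd (nat_lit 4) (.nd (nat_lit 5) (.nd (nat_lit 6) (.nd (nat_lit 7) (.nd (nat_lit 8) (.nd (nat_lit 9) 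
(.lf (nat_lit 584715) (.g (nat_lit 1418) (.e (nat_lit 385065) (nat_lit 26) (.e (nat_lit 532503) (nat_lit 1) (.e (nat_lit 57844) (nat_lit 252) (.e (nat_lit 57408) (nat_lit 12) .nil)))) (.g (nat_lit 0) (.e (nat_lit 386724) (nat_lit 0) .nil) .nil))) 
(.lf (nat_lit 585227) (.g (nat_lit 1136) (.e (nat_lit 385074) (nat_lit 31) (.e (nat_lit 573482) (nat_lit 13) (.e (nat_lit 65630) (nat_lit 14) (.e (nat_lit 401428) (nat_lit 3) .nil)))) (.g (nat_lit 0) (.e (nat_lit 387539) (nat_lit 0) .nil) .nil)))) (.nd (nat_lit 9) 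
(.lf (nat_lit 584971) (.g (nat_lit 2912) (.e (nat_lit 385068) (nat_lit 26) (.e (nat_lit 532515) (nat_lit 3) (.e (nat_lit 114698) (nat_lit 11) (.e (nat_lit 426139) (nat_lit 3) (.e (nat_lit 204850) (nat_lit 26) (.e (nat_lit 336205) (nat_lit 12) .nil)))))) (.g (nat_lit 1) (.e (nat_lit 387129) (nat_lit 0) .nil) .nil))) 
(.lf (nat_lit 585483) (.g (nat_lit 383) (.e (nat_lit 401152) (nat_lit 7) (.e (nat_lit 319534) (nat_lit 16) (.e (nat_lit 294656) (nat_lit 18) .nil))) (.g (nat_lit 0) (.e (nat_lit 388428) (nat_lit 0) .nil) .nil))))) (.nd (nat_lit 8) (.nd (nat_lit 9) 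
(.lf (nat_lit 584843) (.g (nat_lit 458) (.e (nat_lit 385066) (nat_lit 26) (.e (nat_lit 532534) (nat_lit 9) (.e (nat_lit 336325) (nat_lit 18) .nil))) (.g (nat_lit 0) (.e (nat_lit 386929) (nat_lit 0) .nil) .nil))) 
(.lf (nat_lit 585355) (.g (nat_lit 878) (.e (nat_lit 385074) (nat_lit 31) (.e (nat_lit 573493) (nat_lit 15) (.e (nat_lit 81961) (nat_lit 25) .nil))) (.g (nat_lit 0) (.e (nat_lit 387747) (nat_lit 0) .nil) .nil)))) (.nd (nat_lit 9) 
(.lf (nat_lit 585099) (.g (nat_lit 3741) (.e (nat_lit 385072) (nat_lit 31) (.e (nat_lit 573492) (nat_lit 15) (.e (nat_lit 81956) (nat_lit 23) (.e (nat_lit 98387) (nat_lit 33) (.e (nat_lit 491566) (nat_lit 12) .nil))))) (.g (nat_lit 1) (.e (nat_lit 387330) (nat_lit 0) .nil) .nil))) 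
(.lf (nat_lit 585611) (.g (nat_lit 1698) (.e (nat_lit 393251) (nat_lit 18) (.e (nat_lit 164182) (nat_lit 154) (.e (nat_lit 57409) (nat_lit 12) (.e (nat_lit 336326) (nat_lit 18) (.e (nat_lit 204855) (nat_lit 26) .nil))))) (.g (nat_lit 0) (.e (nat_lit 388693) (nat_lit 0) .nil) .nil)))))) (.nd (nat_lit 7) (.nd (nat_lit 8) (.nd (nat_lit 9) 
(.lf (nat_lit 584779) (.g (nat_lit 4023) (.e (nat_lit 385066) (nat_lit 26) (.e (nat_lit 532513) (nat_lit 3) (.e (nat_lit 114698) (nat_lit 11) (.e (nat_lit 426123) (nat_lit 2) (.e (nat_lit 196666) (nat_lit 13) (.e (nat_lit 65624) (nat_lit 12) .nil)))))) (.g (nat_lit 1) (.e (nat_lit 386856) (nat_lit 0) .nil) .nil))) 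
(.lf (nat_lit 585291) (.g (nat_lit 2760) (.e (nat_lit 385074) (nat_lit 31) (.e (nat_lit 573487) (nat_lit 14) (.e (nat_lit 73781) (nat_lit 32) (.e (nat_lit 2682) (nat_lit 168) (.e (nat_lit 204859) (nat_lit 26) (.e (nat_lit 336206) (nat_lit 12) .nil)))))) (.g (nat_lit 1) (.e (nat_lit 387659) (nat_lit 0) .nil) .nil)))) (.nd (nat_lit 9) 
(.lf (nat_lit 585035) (.g (nat_lit 2249) (.e (nat_lit 392960) (nat_lit 24) (.e (nat_lit 516160) (nat_lit 10) (.e (nat_lit 434244) (nat_lit 28) (.e (nat_lit 573488) (nat_lit 14) (.e (nat_lit 73752) (nat_lit 8) .nil))))) (.g (nat_lit 0) (.e (nat_lit 387228) (nat_lit 0) .nil) .nil))) 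
(.lf (nat_lit 585547) (.g (nat_lit 2894) (.e (nat_lit 393229) (nat_lit 9) (.e (nat_lit 335995) (nat_lit 1) (.e (nat_lit 57931) (nat_lit 282) (.e (nat_lit 163869) (nat_lit 2) (.e (nat_lit 196681) (nat_lit 17) (.e (nat_lit 131124) (nat_lit 13) .nil)))))) (.g (nat_lit 1) (.e (nat_lit 388565) (nat_lit 0) .nil) .nil))))) (.nd (nat_lit 8) (.nd (nat_lit 9) 
(.lf (nat_lit 584907) (.g (nat_lit 2695) (.e (nat_lit 385067) (nat_lit 26) (.e (nat_lit 532563) (nat_lit 15) (.e (nat_lit 385068) (nat_lit 26) (.e (nat_lit 532530) (nat_lit 9) (.e (nat_lit 336326) (nat_lit 18) .nil))))) (.g (nat_lit 0) (.e (nat_lit 387031) (nat_lit 0) .nil) .nil))) 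
(.lf (nat_lit 585419) (.g (nat_lit 1967) (.e (nat_lit 385094) (nat_lit 49) (.e (nat_lit 778324) (nat_lit 5) (.e (nat_lit 73781) (nat_lit 32) (.e (nat_lit 3089) (nat_lit 191) (.e (nat_lit 491264) (nat_lit 26) .nil))))) (.g (nat_lit 1) (.e (nat_lit 387997) (nat_lit 0) .nil) .nil)))) (.nd (nat_lit 9) 
(.lf (nat_lit 585163) (.g (nat_lit 1212) (.e (nat_lit 385073) (nat_lit 31) (.e (nat_lit 573493) (nat_lit 15) (.e (nat_lit 81945) (nat_lit 20) .nil))) (.g (nat_lit 0) (.e (nat_lit 387453) (nat_lit 0) .nil) .nil))) 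
(.lf (nat_lit 585675) (.g (nat_lit 2327) (.e (nat_lit 393251) (nat_lit 18) (.e (nat_lit 164327) (nat_lit 230) (.e (nat_lit 163868) (nat_lit 2) (.e (nat_lit 196656) (nat_lit 11) (.e (nat_lit 16433) (nat_lit 9) .nil))))) (.g (nat_lit 0) (.e (nat_lit 388767) (nat_lit 0) .nil) .nil))))))) (.nd (nat_lit 6) (.nd (nat_lit 7) (.nd (nat_lit 8) (.nd (nat_lit 9) 
(.lf (nat_lit 584747) (.g (nat_lit 1418) (.e (nat_lit 385065) (nat_lit 26) (.e (nat_lit 532560) (nat_lit 14) (.e (nat_lit 376842) (nat_lit 11) (.e (nat_lit 426108) (nat_lit 1) .nil)))) (.g (nat_lit 0) (.e (nat_lit 386789) (nat_lit 0) .nil) .nil))) 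
(.lf (nat_lit 585259) (.g (nat_lit 1910) (.e (nat_lit 385074) (nat_lit 31) (.e (nat_lit 573484) (nat_lit 13) (.e (nat_lit 65617) (nat_lit 10) (.e (nat_lit 344133) (nat_lit 26) (.e (nat_lit 557073) (nat_lit 9) .nil))))) (.g (nat_lit 0) (.e (nat_lit 387605) (nat_lit 0) .nil) .nil)))) (.nd (nat_lit 9) 
(.lf (nat_lit 585003) (.g (nat_lit 1135) (.e (nat_lit 385068) (nat_lit 26) (.e (nat_lit 532560) (nat_lit 14) (.e (nat_lit 376842) (nat_lit 11) (.e (nat_lit 426098) (nat_lit 1) .nil)))) (.g (nat_lit 0) (.e (nat_lit 387166) (nat_lit 0) .nil) .nil))) 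
(.lf (nat_lit 585515) (.g (nat_lit 3111) (.e (nat_lit 393225) (nat_lit 9) (.e (nat_lit 335996) (nat_lit 1) (.e (nat_lit 57929) (nat_lit 282) (.e (nat_lit 163869) (nat_lit 2) (.e (nat_lit 196681) (nat_lit 17) (.e (nat_lit 131125) (nat_lit 13) .nil)))))) (.g (nat_lit 1) (.e (nat_lit 388509) (nat_lit 0) .nil) .nil))))) (.nd (nat_lit 8) (.nd (nat_lit 9) 
(.lf (nat_lit 584875) (.g (nat_lit 2176) (.e (nat_lit 385066) (nat_lit 26) (.e (nat_lit 532563) (nat_lit 15) (.e (nat_lit 385068) (nat_lit 26) (.e (nat_lit 532534) (nat_lit 9) (.e (nat_lit 336326) (nat_lit 18) (.e (nat_lit 204880) (nat_lit 32) .nil)))))) (.g (nat_lit 1) (.e (nat_lit 386968) (nat_lit 0) .nil) .nil))) 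
(.lf (nat_lit 585387) (.g (nat_lit 2660) (.e (nat_lit 385093) (nat_lit 49) (.e (nat_lit 778323) (nat_lit 5) (.e (nat_lit 73782) (nat_lit 32) (.e (nat_lit 3090) (nat_lit 191) (.e (nat_lit 483402) (nat_lit 26) .nil))))) (.g (nat_lit 1) (.e (nat_lit 387946) (nat_lit 0) .nil) .nil)))) (.nd (nat_lit 9) 
(.lf (nat_lit 585131) (.g (nat_lit 3767) (.e (nat_lit 385073) (nat_lit 31) (.e (nat_lit 573482) (nat_lit 13) (.e (nat_lit 65619) (nat_lit 10) (.e (nat_lit 344129) (nat_lit 26) (.e (nat_lit 557087) (nat_lit 11) (.e (nat_lit 24648) (nat_lit 12) .nil)))))) (.g (nat_lit 1) (.e (nat_lit 387376) (nat_lit 0) .nil) .nil))) 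
(.lf (nat_lit 585643) (.g (nat_lit 2191) (.e (nat_lit 393251) (nat_lit 18) (.e (nat_lit 164325) (nat_lit 230) (.e (nat_lit 163873) (nat_lit 3) (.e (nat_lit 204811) (nat_lit 9) (.e (nat_lit 426261) (nat_lit 9) (.e (nat_lit 426563) (nat_lit 34) .nil)))))) (.g (nat_lit 1) (.e (nat_lit 388735) (nat_lit 0) .nil) .nil)))))) (.nd (nat_lit 7) (.nd (nat_lit 8) (.nd (nat_lit 9) 
(.lf (nat_lit 584811) (.g (nat_lit 2683) (.e (nat_lit 385066) (nat_lit 26) (.e (nat_lit 532530) (nat_lit 9) (.e (nat_lit 336326) (nat_lit 18) (.e (nat_lit 204854) (nat_lit 26) (.e (nat_lit 336297) (nat_lit 15) (.e (nat_lit 3234) (nat_lit 197) (.e (nat_lit 532563) (nat_lit 15) .nil))))))) (.g (nat_lit 1) (.e (nat_lit 386890) (nat_lit 0) .nil) .nil))) 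
(.lf (nat_lit 585323) (.g (nat_lit 2152) (.e (nat_lit 385074) (nat_lit 31) (.e (nat_lit 573493) (nat_lit 15) (.e (nat_lit 81951) (nat_lit 22) (.e (nat_lit 90141) (nat_lit 9) .nil)))) (.g (nat_lit 0) (.e (nat_lit 387710) (nat_lit 0) .nil) .nil)))) (.nd (nat_lit 9) 
(.lf (nat_lit 585067) (.g (nat_lit 1289) (.e (nat_lit 385072) (nat_lit 31) (.e (nat_lit 573484) (nat_lit 13) (.e (nat_lit 65617) (nat_lit 10) (.e (nat_lit 344130) (nat_lit 26) .nil)))) (.g (nat_lit 0) (.e (nat_lit 387275) (nat_lit 0) .nil) .nil))) 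
(.lf (nat_lit 585579) (.g (nat_lit 1249) (.e (nat_lit 393250) (nat_lit 18) (.e (nat_lit 164325) (nat_lit 230) (.e (nat_lit 163873) (nat_lit 3) (.e (nat_lit 204811) (nat_lit 9) .nil)))) (.g (nat_lit 0) (.e (nat_lit 388648) (nat_lit 0) .nil) .nil))))) (.nd (nat_lit 8) (.nd (nat_lit 9) 
(.lf (nat_lit 584939) (.g (nat_lit 3638) (.e (nat_lit 385068) (nat_lit 26) (.e (nat_lit 532504) (nat_lit 1) (.e (nat_lit 57852) (nat_lit 252) (.e (nat_lit 57440) (nat_lit 18) (.e (nat_lit 392960) (nat_lit 10) (.e (nat_lit 24650) (nat_lit 12) .nil)))))) (.g (nat_lit 1) (.e (nat_lit 387086) (nat_lit 0) .nil) .nil))) 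
(.lf (nat_lit 585451) (.g (nat_lit 213) (.e (nat_lit 385105) (nat_lit 50) (.e (nat_lit 786473) (nat_lit 27) (.e (nat_lit 343808) (nat_lit 14) .nil))) (.g (nat_lit 0) (.e (nat_lit 388090) (nat_lit 0) .nil) .nil)))) (.nd (nat_lit 9) 
(.lf (nat_lit 585195) (.g (nat_lit 2405) (.e (nat_lit 385073) (nat_lit 31) (.e (nat_lit 573493) (nat_lit 15) (.e (nat_lit 81956) (nat_lit 23) (.e (nat_lit 98321) (nat_lit 17) .nil)))) (.g (nat_lit 0) (.e (nat_lit 387490) (nat_lit 0) .nil) .nil))) 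
(.lf (nat_lit 585707) (.g (nat_lit 3357) (.e (nat_lit 393251) (nat_lit 18) (.e (nat_lit 164327) (nat_lit 230) (.e (nat_lit 163873) (nat_lit 3) (.e (nat_lit 204813) (nat_lit 9) (.e (nat_lit 433920) (nat_lit 9) .nil))))) (.g (nat_lit 0) (.e (nat_lit 388799) (nat_lit 0) .nil) .nil)))))))) (.nd (nat_lit 5) (.nd (nat_lit 6) (.nd (nat_lit 7) (.nd (nat_lit 8) (.nd (nat_lit 9) 
(.lf (nat_lit 584731) (.g (nat_lit 1881) (.e (nat_lit 385065) (nat_lit 26) (.e (nat_lit 532532) (nat_lit 9) (.e (nat_lit 336324) (nat_lit 18) (.e (nat_lit 204854) (nat_lit 26) (.e (nat_lit 336326) (nat_lit 18) .nil))))) (.g (nat_lit 0) (.e (nat_lit 386770) (nat_lit 0) .nil) .nil))) 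
(.lf (nat_lit 585243) (.g (nat_lit 2311) (.e (nat_lit 385074) (nat_lit 31) (.e (nat_lit 573484) (nat_lit 13) (.e (nat_lit 65610) (nat_lit 10) (.e (nat_lit 344129) (nat_lit 26) (.e (nat_lit 557070) (nat_lit 9) .nil))))) (.g (nat_lit 0) (.e (nat_lit 387567) (nat_lit 0) .nil) .nil)))) (.nd (nat_lit 9) 
(.lf (nat_lit 584987) (.g (nat_lit 731) (.e (nat_lit 385068) (nat_lit 26) (.e (nat_lit 532530) (nat_lit 9) (.e (nat_lit 343808) (nat_lit 18) .nil))) (.g (nat_lit 0) (.e (nat_lit 387149) (nat_lit 0) .nil) .nil))) 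
(.lf (nat_lit 585499) (.g (nat_lit 1101) (.e (nat_lit 393225) (nat_lit 9) (.e (nat_lit 335988) (nat_lit 1) (.e (nat_lit 57926) (nat_lit 282) (.e (nat_lit 163870) (nat_lit 2) .nil)))) (.g (nat_lit 0) (.e (nat_lit 388468) (nat_lit 0) .nil) .nil))))) (.nd (nat_lit 8) (.nd (nat_lit 9) 
(.lf (nat_lit 584859) (.g (nat_lit 1432) (.e (nat_lit 385066) (nat_lit 26) (.e (nat_lit 532558) (nat_lit 14) (.e (nat_lit 376858) (nat_lit 21) (.e (nat_lit 57687) (nat_lit 156) (.e (nat_lit 163886) (nat_lit 5) (.e (nat_lit 229120) (nat_lit 17) .nil)))))) (.g (nat_lit 1) (.e (nat_lit 386948) (nat_lit 0) .nil) .nil))) 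
(.lf (nat_lit 585371) (.g (nat_lit 315) (.e (nat_lit 385092) (nat_lit 49) (.e (nat_lit 778323) (nat_lit 5) (.e (nat_lit 81664) (nat_lit 32) .nil))) (.g (nat_lit 0) (.e (nat_lit 387917) (nat_lit 0) .nil) .nil)))) (.nd (nat_lit 9) 
(.lf (nat_lit 585115) (.g (nat_lit 4686) (.e (nat_lit 385072) (nat_lit 31) (.e (nat_lit 573493) (nat_lit 15) (.e (nat_lit 81953) (nat_lit 22) (.e (nat_lit 90145) (nat_lit 9) .nil)))) (.g (nat_lit 0) (.e (nat_lit 387351) (nat_lit 0) .nil) .nil))) 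
(.lf (nat_lit 585627) (.g (nat_lit 1623) (.e (nat_lit 393251) (nat_lit 18) (.e (nat_lit 164325) (nat_lit 230) (.e (nat_lit 163868) (nat_lit 2) (.e (nat_lit 196652) (nat_lit 11) .nil)))) (.g (nat_lit 0) (.e (nat_lit 388719) (nat_lit 0) .nil) .nil)))))) (.nd (nat_lit 7) (.nd (nat_lit 8) (.nd (nat_lit 9) 
(.lf (nat_lit 584795) (.g (nat_lit 1769) (.e (nat_lit 385066) (nat_lit 26) (.e (nat_lit 532515) (nat_lit 3) (.e (nat_lit 114698) (nat_lit 11) (.e (nat_lit 426133) (nat_lit 3) (.e (nat_lit 204861) (nat_lit 26) (.e (nat_lit 336195) (nat_lit 12) .nil)))))) (.g (nat_lit 1) (.e (nat_lit 386873) (nat_lit 0) .nil) .nil))) 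
(.lf (nat_lit 585307) (.g (nat_lit 267) (.e (nat_lit 385074) (nat_lit 31) (.e (nat_lit 573491) (nat_lit 15) (.e (nat_lit 81954) (nat_lit 23) .nil))) (.g (nat_lit 0) (.e (nat_lit 387692) (nat_lit 0) .nil) .nil)))) (.nd (nat_lit 9) 
(.lf (nat_lit 585051) (.g (nat_lit 1414) (.e (nat_lit 385072) (nat_lit 31) (.e (nat_lit 573481) (nat_lit 13) (.e (nat_lit 65630) (nat_lit 14) (.e (nat_lit 401428) (nat_lit 3) .nil)))) (.g (nat_lit 0) (.e (nat_lit 387257) (nat_lit 0) .nil) .nil))) 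
(.lf (nat_lit 585563) (.g (nat_lit 2319) (.e (nat_lit 393233) (nat_lit 17) (.e (nat_lit 7591) (nat_lit 407) (.e (nat_lit 73773) (nat_lit 25) (.e (nat_lit 770072) (nat_lit 8) (.e (nat_lit 65625) (nat_lit 13) .nil))))) (.g (nat_lit 1) (.e (nat_lit 388617) (nat_lit 0) .nil) .nil))))) (.nd (nat_lit 8) (.nd (nat_lit 9) 
(.lf (nat_lit 584923) (.g (nat_lit 2003) (.e (nat_lit 385068) (nat_lit 26) (.e (nat_lit 532503) (nat_lit 1) (.e (nat_lit 57851) (nat_lit 252) (.e (nat_lit 57406) (nat_lit 12) (.e (nat_lit 336456) (nat_lit 34) .nil))))) (.g (nat_lit 0) (.e (nat_lit 387064) (nat_lit 0) .nil) .nil))) 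
(.lf (nat_lit 585435) (.g (nat_lit 1057) (.e (nat_lit 385102) (nat_lit 50) (.e (nat_lit 786483) (nat_lit 30) (.e (nat_lit 360451) (nat_lit 0) (.e (nat_lit 7936) (nat_lit 322) .nil)))) (.g (nat_lit 0) (.e (nat_lit 388049) (nat_lit 0) .nil) .nil)))) (.nd (nat_lit 9) 
(.lf (nat_lit 585179) (.g (nat_lit 1535) (.e (nat_lit 385073) (nat_lit 31) (.e (nat_lit 573493) (nat_lit 15) (.e (nat_lit 81953) (nat_lit 22) (.e (nat_lit 90134) (nat_lit 9) .nil)))) (.g (nat_lit 0) (.e (nat_lit 387473) (nat_lit 0) .nil) .nil))) 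
(.lf (nat_lit 585691) (.g (nat_lit 1222) (.e (nat_lit 393251) (nat_lit 18) (.e (nat_lit 164327) (nat_lit 230) (.e (nat_lit 163873) (nat_lit 3) (.e (nat_lit 204811) (nat_lit 9) .nil)))) (.g (nat_lit 0) (.e (nat_lit 388783) (nat_lit 0) .nil) .nil))))))) (.nd (nat_lit 6) (.nd (nat_lit 7) (.nd (nat_lit 8) (.nd (nat_lit 9) 
(.lf (nat_lit 584763) (.g (nat_lit 3777) (.e (nat_lit 385066) (nat_lit 26) (.e (nat_lit 532502) (nat_lit 1) (.e (nat_lit 57854) (nat_lit 252) (.e (nat_lit 57378) (nat_lit 3) (.e (nat_lit 98340) (nat_lit 20) .nil))))) (.g (nat_lit 0) (.e (nat_lit 386827) (nat_lit 0) .nil) .nil))) 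
(.lf (nat_lit 585275) (.g (nat_lit 3022) (.e (nat_lit 385074) (nat_lit 31) (.e (nat_lit 573485) (nat_lit 13) (.e (nat_lit 65619) (nat_lit 10) (.e (nat_lit 344129) (nat_lit 26) (.e (nat_lit 557085) (nat_lit 11) (.e (nat_lit 24651) (nat_lit 12) .nil)))))) (.g (nat_lit 1) (.e (nat_lit 387641) (nat_lit 0) .nil) .nil)))) (.nd (nat_lit 9) 
(.lf (nat_lit 585019) (.g (nat_lit 2364) (.e (nat_lit 385068) (nat_lit 26) (.e (nat_lit 532563) (nat_lit 15) (.e (nat_lit 385066) (nat_lit 26) (.e (nat_lit 532534) (nat_lit 9) (.e (nat_lit 343808) (nat_lit 18) (.e (nat_lit 204882) (nat_lit 32) .nil)))))) (.g (nat_lit 1) (.e (nat_lit 387183) (nat_lit 0) .nil) .nil))) 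
(.lf (nat_lit 585531) (.g (nat_lit 2679) (.e (nat_lit 393229) (nat_lit 9) (.e (nat_lit 335987) (nat_lit 1) (.e (nat_lit 57927) (nat_lit 282) (.e (nat_lit 163869) (nat_lit 2) (.e (nat_lit 196681) (nat_lit 17) (.e (nat_lit 131125) (nat_lit 13) .nil)))))) (.g (nat_lit 1) (.e (nat_lit 388538) (nat_lit 0) .nil) .nil))))) (.nd (nat_lit 8) (.nd (nat_lit 9) 
(.lf (nat_lit 584891) (.g (nat_lit 641) (.e (nat_lit 385067) (nat_lit 26) (.e (nat_lit 532529) (nat_lit 9) (.e (nat_lit 336326) (nat_lit 18) .nil))) (.g (nat_lit 0) (.e (nat_lit 387003) (nat_lit 0) .nil) .nil))) 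
(.lf (nat_lit 585403) (.g (nat_lit 1820) (.e (nat_lit 385094) (nat_lit 49) (.e (nat_lit 778323) (nat_lit 5) (.e (nat_lit 73781) (nat_lit 32) (.e (nat_lit 2857) (nat_lit 184) (.e (nat_lit 426489) (nat_lit 27) (.e (nat_lit 336206) (nat_lit 12) .nil)))))) (.g (nat_lit 1) (.e (nat_lit 387981) (nat_lit 0) .nil) .nil)))) (.nd (nat_lit 9) 
(.lf (nat_lit 585147) (.g (nat_lit 1146) (.e (nat_lit 385073) (nat_lit 31) (.e (nat_lit 573491) (nat_lit 15) (.e (nat_lit 81946) (nat_lit 20) (.e (nat_lit 1858) (nat_lit 124) .nil)))) (.g (nat_lit 0) (.e (nat_lit 387418) (nat_lit 0) .nil) .nil))) 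
(.lf (nat_lit 585659) (.g (nat_lit 1686) (.e (nat_lit 393251) (nat_lit 18) (.e (nat_lit 164325) (nat_lit 230) (.e (nat_lit 163875) (nat_lit 3) (.e (nat_lit 204811) (nat_lit 9) (.e (nat_lit 426260) (nat_lit 9) (.e (nat_lit 433920) (nat_lit 34) .nil)))))) (.g (nat_lit 1) (.e (nat_lit 388751) (nat_lit 0) .nil) .nil)))))) (.nd (nat_lit 7) (.nd (nat_lit 8) (.nd (nat_lit 9) 
(.lf (nat_lit 584827) (.g (nat_lit 1875) (.e (nat_lit 385066) (nat_lit 26) (.e (nat_lit 532532) (nat_lit 9) (.e (nat_lit 336326) (nat_lit 18) (.e (nat_lit 204880) (nat_lit 32) (.e (nat_lit 385066) (nat_lit 26) (.e (nat_lit 532566) (nat_lit 15) .nil)))))) (.g (nat_lit 1) (.e (nat_lit 386907) (nat_lit 0) .nil) .nil))) 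
(.lf (nat_lit 585339) (.g (nat_lit 4621) (.e (nat_lit 385074) (nat_lit 31) (.e (nat_lit 573493) (nat_lit 15) (.e (nat_lit 81953) (nat_lit 22) (.e (nat_lit 90201) (nat_lit 20) .nil)))) (.g (nat_lit 0) (.e (nat_lit 387728) (nat_lit 0) .nil) .nil)))) (.nd (nat_lit 9) 
(.lf (nat_lit 585083) (.g (nat_lit 4477) (.e (nat_lit 385072) (nat_lit 31) (.e (nat_lit 573492) (nat_lit 15) (.e (nat_lit 81953) (nat_lit 22) (.e (nat_lit 90131) (nat_lit 9) (.e (nat_lit 3097) (nat_lit 192) .nil))))) (.g (nat_lit 0) (.e (nat_lit 387310) (nat_lit 0) .nil) .nil))) 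
(.lf (nat_lit 585595) (.g (nat_lit 2028) (.e (nat_lit 393250) (nat_lit 18) (.e (nat_lit 164398) (nat_lit 256) (.e (nat_lit 57372) (nat_lit 2) (.e (nat_lit 90185) (nat_lit 17) (.e (nat_lit 237601) (nat_lit 9) .nil))))) (.g (nat_lit 0) (.e (nat_lit 388664) (nat_lit 0) .nil) .nil))))) (.nd (nat_lit 8) (.nd (nat_lit 9) 
(.lf (nat_lit 584955) (.g (nat_lit 2183) (.e (nat_lit 385068) (nat_lit 26) (.e (nat_lit 532513) (nat_lit 3) (.e (nat_lit 114698) (nat_lit 11) (.e (nat_lit 426133) (nat_lit 3) (.e (nat_lit 204859) (nat_lit 26) (.e (nat_lit 336206) (nat_lit 12) .nil)))))) (.g (nat_lit 1) (.e (nat_lit 387105) (nat_lit 0) .nil) .nil))) 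
(.lf (nat_lit 585467) (.g (nat_lit 3004) (.e (nat_lit 385107) (nat_lit 51) (.e (nat_lit 794666) (nat_lit 22) (.e (nat_lit 196656) (nat_lit 11) (.e (nat_lit 16436) (nat_lit 9) (.e (nat_lit 426131) (nat_lit 3) (.e (nat_lit 204880) (nat_lit 32) .nil)))))) (.g (nat_lit 1) (.e (nat_lit 388181) (nat_lit 0) .nil) .nil)))) (.nd (nat_lit 9) 
(.lf (nat_lit 585211) (.g (nat_lit 3196) (.e (nat_lit 385074) (nat_lit 31) (.e (nat_lit 573480) (nat_lit 13) (.e (nat_lit 65630) (nat_lit 14) (.e (nat_lit 401425) (nat_lit 2) (.e (nat_lit 196681) (nat_lit 17) (.e (nat_lit 131122) (nat_lit 12) .nil)))))) (.g (nat_lit 1) (.e (nat_lit 387519) (nat_lit 0) .nil) .nil))) 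
(.lf (nat_lit 585723) (.g (nat_lit 1992) (.e (nat_lit 393251) (nat_lit 18) (.e (nat_lit 164332) (nat_lit 230) (.e (nat_lit 163867) (nat_lit 2) (.e (nat_lit 196624) (nat_lit 9) (.e (nat_lit 457) (nat_lit 34) (.e (nat_lit 450304) (nat_lit 18) .nil)))))) (.g (nat_lit 1) (.e (nat_lit 388815) (nat_lit 0) .nil) .nil)))))))))) 
(.nd (nat_lit 3) (.nd (nat_lit 4) (.nd (nat_lit 5) (.nd (nat_lit 6) (.nd (nat_lit 7) 
(.nd (nat_lit 8) (.nd (nat_lit 9) 
(.lf (nat_lit 584711) (.g (nat_lit 2843) (.e (nat_lit 385064) (nat_lit 26) (.e (nat_lit 532535) (nat_lit 9) (.e (nat_lit 336295) (nat_lit 15) (.e (nat_lit 3253) (nat_lit 197) .nil)))) (.g (nat_lit 0) (.e (nat_lit 386714) (nat_lit 0) .nil) .nil))) 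
(.lf (nat_lit 585223) (.g (nat_lit 1022) (.e (nat_lit 385074) (nat_lit 31) (.e (nat_lit 573482) (nat_lit 13) (.e (nat_lit 65628) (nat_lit 14) (.e (nat_lit 401428) (nat_lit 3) .nil)))) (.g (nat_lit 0) (.e (nat_lit 387533) (nat_lit 0) .nil) .nil)))) (.nd (nat_lit 9) 
(.lf (nat_lit 584967) (.g (nat_lit 2654) (.e (nat_lit 385068) (nat_lit 26) (.e (nat_lit 532515) (nat_lit 3) (.e (nat_lit 114697) (nat_lit 11) (.e (nat_lit 426123) (nat_lit 2) (.e (nat_lit 196681) (nat_lit 17) (.e (nat_lit 131120) (nat_lit 12) .nil)))))) (.g (nat_lit 1) (.e (nat_lit 387125) (nat_lit 0) .nil) .nil))) 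
(.lf (nat_lit 585479) (.g (nat_lit 2313) (.e (nat_lit 393221) (nat_lit 0) (.e (nat_lit 6209) (nat_lit 333) (.e (nat_lit 57878) (nat_lit 270) (.e (nat_lit 174) (nat_lit 12) (.e (nat_lit 204861) (nat_lit 26) (.e (nat_lit 336213) (nat_lit 13) .nil)))))) (.g (nat_lit 1) (.e (nat_lit 388368) (nat_lit 0) .nil) .nil))))) (.nd (nat_lit 8) (.nd (nat_lit 9) 
(.lf (nat_lit 584839) (.g (nat_lit 1867) (.e (nat_lit 385066) (nat_lit 26) (.e (nat_lit 532534) (nat_lit 9) (.e (nat_lit 336324) (nat_lit 18) (.e (nat_lit 204851) (nat_lit 26) (.e (nat_lit 336324) (nat_lit 18) .nil))))) (.g (nat_lit 0) (.e (nat_lit 386924) (nat_lit 0) .nil) .nil))) 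
(.lf (nat_lit 585351) (.g (nat_lit 3277) (.e (nat_lit 385074) (nat_lit 31) (.e (nat_lit 573493) (nat_lit 15) (.e (nat_lit 81956) (nat_lit 23) (.e (nat_lit 98333) (nat_lit 18) .nil)))) (.g (nat_lit 0) (.e (nat_lit 387742) (nat_lit 0) .nil) .nil)))) (.nd (nat_lit 9) 
(.lf (nat_lit 585095) (.g (nat_lit 4466) (.e (nat_lit 385072) (nat_lit 31) (.e (nat_lit 573492) (nat_lit 15) (.e (nat_lit 81956) (nat_lit 23) (.e (nat_lit 98320) (nat_lit 17) .nil)))) (.g (nat_lit 0) (.e (nat_lit 387325) (nat_lit 0) .nil) .nil))) 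
(.lf (nat_lit 585607) (.g (nat_lit 1895) (.e (nat_lit 393251) (nat_lit 18) (.e (nat_lit 164177) (nat_lit 154) (.e (nat_lit 57409) (nat_lit 12) (.e (nat_lit 336316) (nat_lit 17) (.e (nat_lit 196681) (nat_lit 17) .nil))))) (.g (nat_lit 0) (.e (nat_lit 388682) (nat_lit 0) .nil) .nil)))))) (.nd (nat_lit 7) (.nd (nat_lit 8) (.nd (nat_lit 9) 
(.lf (nat_lit 584775) (.g (nat_lit 462) (.e (nat_lit 385066) (nat_lit 26) (.e (nat_lit 532513) (nat_lit 3) (.e (nat_lit 114697) (nat_lit 11) .nil))) (.g (nat_lit 0) (.e (nat_lit 386852) (nat_lit 0) .nil) .nil))) 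
(.lf (nat_lit 585287) (.g (nat_lit 3339) (.e (nat_lit 385074) (nat_lit 31) (.e (nat_lit 573485) (nat_lit 13) (.e (nat_lit 65630) (nat_lit 14) (.e (nat_lit 401425) (nat_lit 2) (.e (nat_lit 196681) (nat_lit 17) (.e (nat_lit 131122) (nat_lit 12) .nil)))))) (.g (nat_lit 1) (.e (nat_lit 387653) (nat_lit 0) .nil) .nil)))) (.nd (nat_lit 9) 
(.lf (nat_lit 585031) (.g (nat_lit 2001) (.e (nat_lit 392960) (nat_lit 24) (.e (nat_lit 516160) (nat_lit 10) (.e (nat_lit 434244) (nat_lit 28) (.e (nat_lit 573481) (nat_lit 13) (.e (nat_lit 65566) (nat_lit 2) .nil))))) (.g (nat_lit 0) (.e (nat_lit 387224) (nat_lit 0) .nil) .nil))) 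
(.lf (nat_lit 585543) (.g (nat_lit 1551) (.e (nat_lit 393229) (nat_lit 9) (.e (nat_lit 335994) (nat_lit 1) (.e (nat_lit 57848) (nat_lit 252) (.e (nat_lit 57374) (nat_lit 2) (.e (nat_lit 90156) (nat_lit 11) (.e (nat_lit 24658) (nat_lit 13) .nil)))))) (.g (nat_lit 1) (.e (nat_lit 388560) (nat_lit 0) .nil) .nil))))) (.nd (nat_lit 8) (.nd (nat_lit 9) 
(.lf (nat_lit 584903) (.g (nat_lit 1393) (.e (nat_lit 385067) (nat_lit 26) (.e (nat_lit 532560) (nat_lit 14) (.e (nat_lit 376842) (nat_lit 11) (.e (nat_lit 426107) (nat_lit 1) .nil)))) (.g (nat_lit 0) (.e (nat_lit 387024) (nat_lit 0) .nil) .nil))) 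
(.lf (nat_lit 585415) (.g (nat_lit 294) (.e (nat_lit 385094) (nat_lit 49) (.e (nat_lit 778323) (nat_lit 5) (.e (nat_lit 81664) (nat_lit 32) .nil))) (.g (nat_lit 0) (.e (nat_lit 387993) (nat_lit 0) .nil) .nil)))) (.nd (nat_lit 9) 
(.lf (nat_lit 585159) (.g (nat_lit 1247) (.e (nat_lit 385073) (nat_lit 31) (.e (nat_lit 573493) (nat_lit 15) (.e (nat_lit 81939) (nat_lit 20) (.e (nat_lit 1842) (nat_lit 123) .nil)))) (.g (nat_lit 0) (.e (nat_lit 387445) (nat_lit 0) .nil) .nil))) 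
(.lf (nat_lit 585671) (.g (nat_lit 2419) (.e (nat_lit 393251) (nat_lit 18) (.e (nat_lit 164327) (nat_lit 230) (.e (nat_lit 163868) (nat_lit 2) (.e (nat_lit 196624) (nat_lit 9) (.e (nat_lit 479) (nat_lit 37) (.e (nat_lit 474880) (nat_lit 18) .nil)))))) (.g (nat_lit 1) (.e (nat_lit 388763) (nat_lit 0) .nil) .nil))))))) (.nd (nat_lit 6) (.nd (nat_lit 7) (.nd (nat_lit 8) (.nd (nat_lit 9) 
(.lf (nat_lit 584743) (.g (nat_lit 1329) (.e (nat_lit 385065) (nat_lit 26) (.e (nat_lit 532560) (nat_lit 14) (.e (nat_lit 376842) (nat_lit 11) (.e (nat_lit 426098) (nat_lit 1) .nil)))) (.g (nat_lit 0) (.e (nat_lit 386785) (nat_lit 0) .nil) .nil))) 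
(.lf (nat_lit 585255) (.g (nat_lit 3218) (.e (nat_lit 385074) (nat_lit 31) (.e (nat_lit 573484) (nat_lit 13) (.e (nat_lit 65617) (nat_lit 10) (.e (nat_lit 344130) (nat_lit 26) (.e (nat_lit 557087) (nat_lit 11) (.e (nat_lit 32512) (nat_lit 12) .nil)))))) (.g (nat_lit 1) (.e (nat_lit 387592) (nat_lit 0) .nil) .nil)))) (.nd (nat_lit 9) 
(.lf (nat_lit 584999) (.g (nat_lit 2546) (.e (nat_lit 385068) (nat_lit 26) (.e (nat_lit 532535) (nat_lit 9) (.e (nat_lit 336295) (nat_lit 15) (.e (nat_lit 3253) (nat_lit 197) .nil)))) (.g (nat_lit 0) (.e (nat_lit 387162) (nat_lit 0) .nil) .nil))) 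
(.lf (nat_lit 585511) (.g (nat_lit 2942) (.e (nat_lit 393225) (nat_lit 9) (.e (nat_lit 335995) (nat_lit 1) (.e (nat_lit 57930) (nat_lit 282) (.e (nat_lit 163869) (nat_lit 2) (.e (nat_lit 196681) (nat_lit 17) (.e (nat_lit 131125) (nat_lit 13) .nil)))))) (.g (nat_lit 1) (.e (nat_lit 388497) (nat_lit 0) .nil) .nil))))) (.nd (nat_lit 8) (.nd (nat_lit 9) 
(.lf (nat_lit 584871) (.g (nat_lit 1861) (.e (nat_lit 385066) (nat_lit 26) (.e (nat_lit 532563) (nat_lit 15) (.e (nat_lit 385066) (nat_lit 26) (.e (nat_lit 532533) (nat_lit 9) (.e (nat_lit 343808) (nat_lit 18) (.e (nat_lit 204882) (nat_lit 32) .nil)))))) (.g (nat_lit 1) (.e (nat_lit 386962) (nat_lit 0) .nil) .nil))) 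
(.lf (nat_lit 585383) (.g (nat_lit 2336) (.e (nat_lit 385093) (nat_lit 49) (.e (nat_lit 778323) (nat_lit 5) (.e (nat_lit 73781) (nat_lit 32) (.e (nat_lit 2857) (nat_lit 184) (.e (nat_lit 426530) (nat_lit 27) (.e (nat_lit 336206) (nat_lit 12) .nil)))))) (.g (nat_lit 1) (.e (nat_lit 387942) (nat_lit 0) .nil) .nil)))) (.nd (nat_lit 9) 
(.lf (nat_lit 585127) (.g (nat_lit 1907) (.e (nat_lit 385073) (nat_lit 31) (.e (nat_lit 573482) (nat_lit 13) (.e (nat_lit 65619) (nat_lit 10) (.e (nat_lit 344129) (nat_lit 26) (.e (nat_lit 564992) (nat_lit 0) .nil))))) (.g (nat_lit 0) (.e (nat_lit 387372) (nat_lit 0) .nil) .nil))) 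
(.lf (nat_lit 585639) (.g (nat_lit 1738) (.e (nat_lit 393251) (nat_lit 18) (.e (nat_lit 164325) (nat_lit 230) (.e (nat_lit 163871) (nat_lit 2) (.e (nat_lit 196624) (nat_lit 9) (.e (nat_lit 7936) (nat_lit 34) (.e (nat_lit 450304) (nat_lit 18) .nil)))))) (.g (nat_lit 1) (.e (nat_lit 388731) (nat_lit 0) .nil) .nil)))))) (.nd (nat_lit 7) (.nd (nat_lit 8) (.nd (nat_lit 9) 
(.lf (nat_lit 584807) (.g (nat_lit 2637) (.e (nat_lit 385066) (nat_lit 26) (.e (nat_lit 532530) (nat_lit 9) (.e (nat_lit 336326) (nat_lit 18) (.e (nat_lit 204854) (nat_lit 26) (.e (nat_lit 336263) (nat_lit 15) (.e (nat_lit 3234) (nat_lit 197) (.e (nat_lit 532563) (nat_lit 15) .nil))))))) (.g (nat_lit 1) (.e (nat_lit 386886) (nat_lit 0) .nil) .nil))) 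
(.lf (nat_lit 585319) (.g (nat_lit 269) (.e (nat_lit 385074) (nat_lit 31) (.e (nat_lit 573493) (nat_lit 15) (.e (nat_lit 81947) (nat_lit 20) .nil))) (.g (nat_lit 0) (.e (nat_lit 387705) (nat_lit 0) .nil) .nil)))) (.nd (nat_lit 9) 
(.lf (nat_lit 585063) (.g (nat_lit 1869) (.e (nat_lit 385072) (nat_lit 31) (.e (nat_lit 573482) (nat_lit 13) (.e (nat_lit 65630) (nat_lit 14) (.e (nat_lit 401428) (nat_lit 3) .nil)))) (.g (nat_lit 0) (.e (nat_lit 387271) (nat_lit 0) .nil) .nil))) 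
(.lf (nat_lit 585575) (.g (nat_lit 1121) (.e (nat_lit 393245) (nat_lit 17) (.e (nat_lit 7556) (nat_lit 402) (.e (nat_lit 1427) (nat_lit 108) (.e (nat_lit 336395) (nat_lit 27) .nil)))) (.g (nat_lit 0) (.e (nat_lit 388640) (nat_lit 0) .nil) .nil))))) (.nd (nat_lit 8) (.nd (nat_lit 9) 
(.lf (nat_lit 584935) (.g (nat_lit 2038) (.e (nat_lit 385068) (nat_lit 26) (.e (nat_lit 532504) (nat_lit 1) (.e (nat_lit 57852) (nat_lit 252) (.e (nat_lit 57409) (nat_lit 12) (.e (nat_lit 336455) (nat_lit 34) .nil))))) (.g (nat_lit 0) (.e (nat_lit 387080) (nat_lit 0) .nil) .nil))) 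
(.lf (nat_lit 585447) (.g (nat_lit 2013) (.e (nat_lit 385104) (nat_lit 50) (.e (nat_lit 786480) (nat_lit 29) (.e (nat_lit 352309) (nat_lit 21) (.e (nat_lit 57929) (nat_lit 282) (.e (nat_lit 163946) (nat_lit 20) .nil))))) (.g (nat_lit 0) (.e (nat_lit 388083) (nat_lit 0) .nil) .nil)))) (.nd (nat_lit 9) 
(.lf (nat_lit 585191) (.g (nat_lit 2227) (.e (nat_lit 385073) (nat_lit 31) (.e (nat_lit 573493) (nat_lit 15) (.e (nat_lit 81954) (nat_lit 23) (.e (nat_lit 98321) (nat_lit 17) .nil)))) (.g (nat_lit 0) (.e (nat_lit 387486) (nat_lit 0) .nil) .nil))) 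
(.lf (nat_lit 585703) (.g (nat_lit 1921) (.e (nat_lit 393251) (nat_lit 18) (.e (nat_lit 164327) (nat_lit 230) (.e (nat_lit 163873) (nat_lit 3) (.e (nat_lit 204813) (nat_lit 9) (.e (nat_lit 426198) (nat_lit 9) .nil))))) (.g (nat_lit 0) (.e (nat_lit 388795) (nat_lit 0) .nil) .nil)))))))) (.nd (nat_lit 5) (.nd (nat_lit 6) (.nd (nat_lit 7) (.nd (nat_lit 8) (.nd (nat_lit 9) 
(.lf (nat_lit 584727) (.g (nat_lit 3117) (.e (nat_lit 385065) (nat_lit 26) (.e (nat_lit 532530) (nat_lit 9) (.e (nat_lit 336326) (nat_lit 18) (.e (nat_lit 204882) (nat_lit 32) (.e (nat_lit 385066) (nat_lit 26) (.e (nat_lit 532565) (nat_lit 15) .nil)))))) (.g (nat_lit 1) (.e (nat_lit 386766) (nat_lit 0) .nil) .nil))) 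
(.lf (nat_lit 585239) (.g (nat_lit 1073) (.e (nat_lit 385074) (nat_lit 31) (.e (nat_lit 573484) (nat_lit 13) (.e (nat_lit 65610) (nat_lit 10) (.e (nat_lit 344129) (nat_lit 26) .nil)))) (.g (nat_lit 0) (.e (nat_lit 387562) (nat_lit 0) .nil) .nil)))) (.nd (nat_lit 9) 
(.lf (nat_lit 584983) (.g (nat_lit 2841) (.e (nat_lit 385068) (nat_lit 26) (.e (nat_lit 532530) (nat_lit 9) (.e (nat_lit 336326) (nat_lit 18) (.e (nat_lit 204859) (nat_lit 26) (.e (nat_lit 336323) (nat_lit 18) (.e (nat_lit 204882) (nat_lit 32) .nil)))))) (.g (nat_lit 1) (.e (nat_lit 387144) (nat_lit 0) .nil) .nil))) 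
(.lf (nat_lit 585495) (.g (nat_lit 3665) (.e (nat_lit 393225) (nat_lit 9) (.e (nat_lit 335986) (nat_lit 1) (.e (nat_lit 57926) (nat_lit 282) (.e (nat_lit 163874) (nat_lit 3) (.e (nat_lit 204852) (nat_lit 26) (.e (nat_lit 336211) (nat_lit 13) .nil)))))) (.g (nat_lit 1) (.e (nat_lit 388455) (nat_lit 0) .nil) .nil))))) (.nd (nat_lit 8) (.nd (nat_lit 9) 
(.lf (nat_lit 584855) (.g (nat_lit 451) (.e (nat_lit 385066) (nat_lit 26) (.e (nat_lit 532534) (nat_lit 9) (.e (nat_lit 343808) (nat_lit 18) .nil))) (.g (nat_lit 0) (.e (nat_lit 386941) (nat_lit 0) .nil) .nil))) 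
(.lf (nat_lit 585367) (.g (nat_lit 1817) (.e (nat_lit 385092) (nat_lit 49) (.e (nat_lit 778320) (nat_lit 4) (.e (nat_lit 65630) (nat_lit 14) (.e (nat_lit 401437) (nat_lit 9) (.e (nat_lit 426509) (nat_lit 27) .nil))))) (.g (nat_lit 0) (.e (nat_lit 387913) (nat_lit 0) .nil) .nil)))) (.nd (nat_lit 9) 
(.lf (nat_lit 585111) (.g (nat_lit 4610) (.e (nat_lit 385072) (nat_lit 31) (.e (nat_lit 573493) (nat_lit 15) (.e (nat_lit 81953) (nat_lit 22) (.e (nat_lit 90143) (nat_lit 9) .nil)))) (.g (nat_lit 0) (.e (nat_lit 387347) (nat_lit 0) .nil) .nil))) 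
(.lf (nat_lit 585623) (.g (nat_lit 1989) (.e (nat_lit 393251) (nat_lit 18) (.e (nat_lit 164325) (nat_lit 230) (.e (nat_lit 163868) (nat_lit 2) (.e (nat_lit 196624) (nat_lit 9) (.e (nat_lit 7936) (nat_lit 34) (.e (nat_lit 450304) (nat_lit 18) .nil)))))) (.g (nat_lit 1) (.e (nat_lit 388715) (nat_lit 0) .nil) .nil)))))) (.nd (nat_lit 7) (.nd (nat_lit 8) (.nd (nat_lit 9) 
(.lf (nat_lit 584791) (.g (nat_lit 2302) (.e (nat_lit 385066) (nat_lit 26) (.e (nat_lit 532515) (nat_lit 3) (.e (nat_lit 114698) (nat_lit 11) (.e (nat_lit 426121) (nat_lit 2) (.e (nat_lit 196681) (nat_lit 17) (.e (nat_lit 131120) (nat_lit 12) .nil)))))) (.g (nat_lit 1) (.e (nat_lit 386869) (nat_lit 0) .nil) .nil))) 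
(.lf (nat_lit 585303) (.g (nat_lit 1909) (.e (nat_lit 385074) (nat_lit 31) (.e (nat_lit 573491) (nat_lit 15) (.e (nat_lit 81946) (nat_lit 20) (.e (nat_lit 1858) (nat_lit 124) (.e (nat_lit 557066) (nat_lit 9) .nil))))) (.g (nat_lit 0) (.e (nat_lit 387687) (nat_lit 0) .nil) .nil)))) (.nd (nat_lit 9) 
(.lf (nat_lit 585047) (.g (nat_lit 2289) (.e (nat_lit 385072) (nat_lit 31) (.e (nat_lit 573481) (nat_lit 13) (.e (nat_lit 65619) (nat_lit 10) (.e (nat_lit 344129) (nat_lit 26) (.e (nat_lit 557087) (nat_lit 11) (.e (nat_lit 32512) (nat_lit 12) .nil)))))) (.g (nat_lit 1) (.e (nat_lit 387253) (nat_lit 0) .nil) .nil))) 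
(.lf (nat_lit 585559) (.g (nat_lit 2742) (.e (nat_lit 393232) (nat_lit 17) (.e (nat_lit 7589) (nat_lit 406) (.e (nat_lit 65653) (nat_lit 27) (.e (nat_lit 426338) (nat_lit 14) (.e (nat_lit 491571) (nat_lit 13) .nil))))) (.g (nat_lit 1) (.e (nat_lit 388612) (nat_lit 0) .nil) .nil))))) (.nd (nat_lit 8) (.nd (nat_lit 9) 
(.lf (nat_lit 584919) (.g (nat_lit 1069) (.e (nat_lit 385068) (nat_lit 26) (.e (nat_lit 532503) (nat_lit 1) (.e (nat_lit 57847) (nat_lit 252) (.e (nat_lit 57410) (nat_lit 12) (.e (nat_lit 336452) (nat_lit 34) .nil))))) (.g (nat_lit 0) (.e (nat_lit 387052) (nat_lit 0) .nil) .nil))) 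
(.lf (nat_lit 585431) (.g (nat_lit 1363) (.e (nat_lit 385102) (nat_lit 50) (.e (nat_lit 786483) (nat_lit 30) (.e (nat_lit 360450) (nat_lit 0) (.e (nat_lit 5444) (nat_lit 306) .nil)))) (.g (nat_lit 0) (.e (nat_lit 388040) (nat_lit 0) .nil) .nil)))) (.nd (nat_lit 9) 
(.lf (nat_lit 585175) (.g (nat_lit 4741) (.e (nat_lit 385073) (nat_lit 31) (.e (nat_lit 573493) (nat_lit 15) (.e (nat_lit 81953) (nat_lit 22) (.e (nat_lit 90130) (nat_lit 9) .nil)))) (.g (nat_lit 0) (.e (nat_lit 387469) (nat_lit 0) .nil) .nil))) 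
(.lf (nat_lit 585687) (.g (nat_lit 2658) (.e (nat_lit 393251) (nat_lit 18) (.e (nat_lit 164327) (nat_lit 230) (.e (nat_lit 163871) (nat_lit 2) (.e (nat_lit 196656) (nat_lit 11) (.e (nat_lit 16436) (nat_lit 9) .nil))))) (.g (nat_lit 0) (.e (nat_lit 388779) (nat_lit 0) .nil) .nil))))))) (.nd (nat_lit 6) (.nd (nat_lit 7) (.nd (nat_lit 8) (.nd (nat_lit 9) 
(.lf (nat_lit 584759) (.g (nat_lit 2429) (.e (nat_lit 385066) (nat_lit 26) (.e (nat_lit 532501) (nat_lit 1) (.e (nat_lit 57852) (nat_lit 252) (.e (nat_lit 57406) (nat_lit 12) (.e (nat_lit 336452) (nat_lit 34) .nil))))) (.g (nat_lit 0) (.e (nat_lit 386816) (nat_lit 0) .nil) .nil))) 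
(.lf (nat_lit 585271) (.g (nat_lit 2119) (.e (nat_lit 385074) (nat_lit 31) (.e (nat_lit 573484) (nat_lit 13) (.e (nat_lit 65630) (nat_lit 14) (.e (nat_lit 401426) (nat_lit 3) .nil)))) (.g (nat_lit 0) (.e (nat_lit 387629) (nat_lit 0) .nil) .nil)))) (.nd (nat_lit 9) 
(.lf (nat_lit 585015) (.g (nat_lit 3149) (.e (nat_lit 385068) (nat_lit 26) (.e (nat_lit 532560) (nat_lit 14) (.e (nat_lit 376859) (nat_lit 21) (.e (nat_lit 57688) (nat_lit 156) (.e (nat_lit 163886) (nat_lit 5) (.e (nat_lit 229120) (nat_lit 17) .nil)))))) (.g (nat_lit 1) (.e (nat_lit 387178) (nat_lit 0) .nil) .nil))) 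
(.lf (nat_lit 585527) (.g (nat_lit 1913) (.e (nat_lit 393229) (nat_lit 9) (.e (nat_lit 335986) (nat_lit 1) (.e (nat_lit 57927) (nat_lit 282) (.e (nat_lit 163866) (nat_lit 2) (.e (nat_lit 196680) (nat_lit 17) (.e (nat_lit 131126) (nat_lit 13) .nil)))))) (.g (nat_lit 1) (.e (nat_lit 388530) (nat_lit 0) .nil) .nil))))) (.nd (nat_lit 8) (.nd (nat_lit 9) 
(.lf (nat_lit 584887) (.g (nat_lit 1505) (.e (nat_lit 385067) (nat_lit 26) (.e (nat_lit 532504) (nat_lit 1) (.e (nat_lit 57851) (nat_lit 252) (.e (nat_lit 57406) (nat_lit 12) (.e (nat_lit 336370) (nat_lit 27) .nil))))) (.g (nat_lit 0) (.e (nat_lit 386987) (nat_lit 0) .nil) .nil))) 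
(.lf (nat_lit 585399) (.g (nat_lit 3213) (.e (nat_lit 385094) (nat_lit 49) (.e (nat_lit 778318) (nat_lit 3) (.e (nat_lit 57476) (nat_lit 28) (.e (nat_lit 557107) (nat_lit 15) (.e (nat_lit 188440) (nat_lit 20) (.e (nat_lit 3255) (nat_lit 197) (.e (nat_lit 532565) (nat_lit 15) .nil))))))) (.g (nat_lit 1) (.e (nat_lit 387976) (nat_lit 0) .nil) .nil)))) (.nd (nat_lit 9) 
(.lf (nat_lit 585143) (.g (nat_lit 2925) (.e (nat_lit 385073) (nat_lit 31) (.e (nat_lit 573485) (nat_lit 13) (.e (nat_lit 65619) (nat_lit 10) (.e (nat_lit 344129) (nat_lit 26) (.e (nat_lit 557085) (nat_lit 11) (.e (nat_lit 24650) (nat_lit 12) .nil)))))) (.g (nat_lit 1) (.e (nat_lit 387397) (nat_lit 0) .nil) .nil))) 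
(.lf (nat_lit 585655) (.g (nat_lit 3068) (.e (nat_lit 393251) (nat_lit 18) (.e (nat_lit 164325) (nat_lit 230) (.e (nat_lit 163873) (nat_lit 3) (.e (nat_lit 204813) (nat_lit 9) (.e (nat_lit 433920) (nat_lit 9) .nil))))) (.g (nat_lit 0) (.e (nat_lit 388747) (nat_lit 0) .nil) .nil)))))) (.nd (nat_lit 7) (.nd (nat_lit 8) (.nd (nat_lit 9) 
(.lf (nat_lit 584823) (.g (nat_lit 2673) (.e (nat_lit 385066) (nat_lit 26) (.e (nat_lit 532532) (nat_lit 9) (.e (nat_lit 336325) (nat_lit 18) (.e (nat_lit 204852) (nat_lit 26) (.e (nat_lit 336326) (nat_lit 18) (.e (nat_lit 204880) (nat_lit 32) .nil)))))) (.g (nat_lit 1) (.e (nat_lit 386903) (nat_lit 0) .nil) .nil))) 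
(.lf (nat_lit 585335) (.g (nat_lit 5188) (.e (nat_lit 385074) (nat_lit 31) (.e (nat_lit 573493) (nat_lit 15) (.e (nat_lit 81953) (nat_lit 22) (.e (nat_lit 90144) (nat_lit 9) .nil)))) (.g (nat_lit 0) (.e (nat_lit 387724) (nat_lit 0) .nil) .nil)))) (.nd (nat_lit 9) 
(.lf (nat_lit 585079) (.g (nat_lit 4054) (.e (nat_lit 385072) (nat_lit 31) (.e (nat_lit 573492) (nat_lit 15) (.e (nat_lit 81953) (nat_lit 22) (.e (nat_lit 90122) (nat_lit 9) .nil)))) (.g (nat_lit 0) (.e (nat_lit 387306) (nat_lit 0) .nil) .nil))) 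
(.lf (nat_lit 585591) (.g (nat_lit 1971) (.e (nat_lit 393250) (nat_lit 18) (.e (nat_lit 164327) (nat_lit 230) (.e (nat_lit 163875) (nat_lit 3) (.e (nat_lit 204813) (nat_lit 9) (.e (nat_lit 426198) (nat_lit 9) .nil))))) (.g (nat_lit 0) (.e (nat_lit 388660) (nat_lit 0) .nil) .nil))))) (.nd (nat_lit 8) (.nd (nat_lit 9) 
(.lf (nat_lit 584951) (.g (nat_lit 2705) (.e (nat_lit 385068) (nat_lit 26) (.e (nat_lit 532513) (nat_lit 3) (.e (nat_lit 114697) (nat_lit 11) (.e (nat_lit 426123) (nat_lit 2) (.e (nat_lit 196681) (nat_lit 17) (.e (nat_lit 131123) (nat_lit 12) .nil)))))) (.g (nat_lit 1) (.e (nat_lit 387101) (nat_lit 0) .nil) .nil))) 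
(.lf (nat_lit 585463) (.g (nat_lit 2567) (.e (nat_lit 385107) (nat_lit 51) (.e (nat_lit 794664) (nat_lit 22) (.e (nat_lit 196654) (nat_lit 11) (.e (nat_lit 16436) (nat_lit 9) (.e (nat_lit 426131) (nat_lit 3) (.e (nat_lit 204882) (nat_lit 32) .nil)))))) (.g (nat_lit 1) (.e (nat_lit 388161) (nat_lit 0) .nil) .nil)))) (.nd (nat_lit 9) 
(.lf (nat_lit 585207) (.g (nat_lit 1691) (.e (nat_lit 385073) (nat_lit 31) (.e (nat_lit 573493) (nat_lit 15) (.e (nat_lit 81962) (nat_lit 25) (.e (nat_lit 139300) (nat_lit 18) .nil)))) (.g (nat_lit 0) (.e (nat_lit 387507) (nat_lit 0) .nil) .nil))) 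
(.lf (nat_lit 585719) (.g (nat_lit 920) (.e (nat_lit 393251) (nat_lit 18) (.e (nat_lit 164331) (nat_lit 230) (.e (nat_lit 163873) (nat_lit 3) (.e (nat_lit 212736) (nat_lit 9) .nil)))) (.g (nat_lit 0) (.e (nat_lit 388811) (nat_lit 0) .nil) .nil))))))))) (.nd (nat_lit 4) (.nd (nat_lit 5) (.nd (nat_lit 6) (.nd (nat_lit 7) (.nd (nat_lit 8) (.nd (nat_lit 9) 
(.lf (nat_lit 584719) (.g (nat_lit 1562) (.e (nat_lit 385065) (nat_lit 26) (.e (nat_lit 532529) (nat_lit 9) (.e (nat_lit 336316) (nat_lit 17) (.e (nat_lit 196630) (nat_lit 9) .nil)))) (.g (nat_lit 0) (.e (nat_lit 386756) (nat_lit 0) .nil) .nil))) 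
(.lf (nat_lit 585231) (.g (nat_lit 999) (.e (nat_lit 385074) (nat_lit 31) (.e (nat_lit 573484) (nat_lit 13) (.e (nat_lit 65610) (nat_lit 10) (.e (nat_lit 344115) (nat_lit 20) .nil)))) (.g (nat_lit 0) (.e (nat_lit 387546) (nat_lit 0) .nil) .nil)))) (.nd (nat_lit 9) 
(.lf (nat_lit 584975) (.g (nat_lit 900) (.e (nat_lit 385068) (nat_lit 26) (.e (nat_lit 532530) (nat_lit 9) (.e (nat_lit 336210) (nat_lit 13) .nil))) (.g (nat_lit 0) (.e (nat_lit 387134) (nat_lit 0) .nil) .nil))) 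
(.lf (nat_lit 585487) (.g (nat_lit 1726) (.e (nat_lit 393224) (nat_lit 9) (.e (nat_lit 335988) (nat_lit 1) (.e (nat_lit 57927) (nat_lit 282) (.e (nat_lit 163869) (nat_lit 2) (.e (nat_lit 196681) (nat_lit 17) .nil))))) (.g (nat_lit 0) (.e (nat_lit 388437) (nat_lit 0) .nil) .nil))))) (.nd (nat_lit 8) (.nd (nat_lit 9) 
(.lf (nat_lit 584847) (.g (nat_lit 3386) (.e (nat_lit 385066) (nat_lit 26) (.e (nat_lit 532534) (nat_lit 9) (.e (nat_lit 336326) (nat_lit 18) (.e (nat_lit 204852) (nat_lit 26) (.e (nat_lit 336324) (nat_lit 18) (.e (nat_lit 204882) (nat_lit 32) .nil)))))) (.g (nat_lit 1) (.e (nat_lit 386933) (nat_lit 0) .nil) .nil))) 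
(.lf (nat_lit 585359) (.g (nat_lit 2790) (.e (nat_lit 385088) (nat_lit 47) (.e (nat_lit 761894) (nat_lit 15) (.e (nat_lit 163979) (nat_lit 30) (.e (nat_lit 573482) (nat_lit 13) (.e (nat_lit 65627) (nat_lit 13) (.e (nat_lit 401152) (nat_lit 15) .nil)))))) (.g (nat_lit 1) (.e (nat_lit 387766) (nat_lit 0) .nil) .nil)))) (.nd (nat_lit 9) 
(.lf (nat_lit 585103) (.g (nat_lit 4736) (.e (nat_lit 385072) (nat_lit 31) (.e (nat_lit 573493) (nat_lit 15) (.e (nat_lit 81953) (nat_lit 22) (.e (nat_lit 90124) (nat_lit 9) .nil)))) (.g (nat_lit 0) (.e (nat_lit 387339) (nat_lit 0) .nil) .nil))) 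
(.lf (nat_lit 585615) (.g (nat_lit 620) (.e (nat_lit 393251) (nat_lit 18) (.e (nat_lit 164325) (nat_lit 230) (.e (nat_lit 163850) (nat_lit 0) .nil))) (.g (nat_lit 0) (.e (nat_lit 388706) (nat_lit 0) .nil) .nil)))))) (.nd (nat_lit 7) (.nd (nat_lit 8) (.nd (nat_lit 9) 
(.lf (nat_lit 584783) (.g (nat_lit 404) (.e (nat_lit 385066) (nat_lit 26) (.e (nat_lit 532513) (nat_lit 3) (.e (nat_lit 122624) (nat_lit 12) .nil))) (.g (nat_lit 0) (.e (nat_lit 386860) (nat_lit 0) .nil) .nil))) 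
(.lf (nat_lit 585295) (.g (nat_lit 2702) (.e (nat_lit 385074) (nat_lit 31) (.e (nat_lit 573489) (nat_lit 14) (.e (nat_lit 73781) (nat_lit 32) (.e (nat_lit 2682) (nat_lit 168) (.e (nat_lit 204859) (nat_lit 26) (.e (nat_lit 336206) (nat_lit 12) .nil)))))) (.g (nat_lit 1) (.e (nat_lit 387674) (nat_lit 0) .nil) .nil)))) (.nd (nat_lit 9) 
(.lf (nat_lit 585039) (.g (nat_lit 1277) (.e (nat_lit 385072) (nat_lit 31) (.e (nat_lit 573481) (nat_lit 13) (.e (nat_lit 65619) (nat_lit 10) (.e (nat_lit 344107) (nat_lit 19) .nil)))) (.g (nat_lit 0) (.e (nat_lit 387244) (nat_lit 0) .nil) .nil))) 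
(.lf (nat_lit 585551) (.g (nat_lit 2179) (.e (nat_lit 393229) (nat_lit 9) (.e (nat_lit 335996) (nat_lit 1) (.e (nat_lit 57931) (nat_lit 282) (.e (nat_lit 163866) (nat_lit 2) (.e (nat_lit 196680) (nat_lit 17) (.e (nat_lit 131127) (nat_lit 13) .nil)))))) (.g (nat_lit 1) (.e (nat_lit 388570) (nat_lit 0) .nil) .nil))))) (.nd (nat_lit 8) (.nd (nat_lit 9) 
(.lf (nat_lit 584911) (.g (nat_lit 2374) (.e (nat_lit 385068) (nat_lit 26) (.e (nat_lit 532500) (nat_lit 1) (.e (nat_lit 57851) (nat_lit 252) (.e (nat_lit 57406) (nat_lit 12) (.e (nat_lit 336456) (nat_lit 34) .nil))))) (.g (nat_lit 0) (.e (nat_lit 387039) (nat_lit 0) .nil) .nil))) 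
(.lf (nat_lit 585423) (.g (nat_lit 920) (.e (nat_lit 385102) (nat_lit 50) (.e (nat_lit 786478) (nat_lit 29) (.e (nat_lit 352318) (nat_lit 24) (.e (nat_lit 123185) (nat_lit 264) .nil)))) (.g (nat_lit 0) (.e (nat_lit 388021) (nat_lit 0) .nil) .nil)))) (.nd (nat_lit 9) 
(.lf (nat_lit 585167) (.g (nat_lit 2726) (.e (nat_lit 385073) (nat_lit 31) (.e (nat_lit 573493) (nat_lit 15) (.e (nat_lit 81951) (nat_lit 22) (.e (nat_lit 90134) (nat_lit 9) (.e (nat_lit 3097) (nat_lit 192) .nil))))) (.g (nat_lit 0) (.e (nat_lit 387461) (nat_lit 0) .nil) .nil))) 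
(.lf (nat_lit 585679) (.g (nat_lit 2154) (.e (nat_lit 393251) (nat_lit 18) (.e (nat_lit 164327) (nat_lit 230) (.e (nat_lit 163868) (nat_lit 2) (.e (nat_lit 196656) (nat_lit 11) (.e (nat_lit 16444) (nat_lit 9) .nil))))) (.g (nat_lit 0) (.e (nat_lit 388771) (nat_lit 0) .nil) .nil))))))) (.nd (nat_lit 6) (.nd (nat_lit 7) (.nd (nat_lit 8) (.nd (nat_lit 9) 
(.lf (nat_lit 584751) (.g (nat_lit 1284) (.e (nat_lit 385066) (nat_lit 26) (.e (nat_lit 532499) (nat_lit 1) (.e (nat_lit 57825) (nat_lit 250) .nil))) (.g (nat_lit 0) (.e (nat_lit 386801) (nat_lit 0) .nil) .nil))) 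
(.lf (nat_lit 585263) (.g (nat_lit 3893) (.e (nat_lit 385074) (nat_lit 31) (.e (nat_lit 573484) (nat_lit 13) (.e (nat_lit 65624) (nat_lit 12) (.e (nat_lit 385074) (nat_lit 31) (.e (nat_lit 573482) (nat_lit 13) (.e (nat_lit 65623) (nat_lit 12) .nil)))))) (.g (nat_lit 1) (.e (nat_lit 387611) (nat_lit 0) .nil) .nil)))) (.nd (nat_lit 9) 
(.lf (nat_lit 585007) (.g (nat_lit 1448) (.e (nat_lit 385068) (nat_lit 26) (.e (nat_lit 532560) (nat_lit 14) (.e (nat_lit 376842) (nat_lit 11) (.e (nat_lit 426106) (nat_lit 1) (.e (nat_lit 164149) (nat_lit 152) .nil))))) (.g (nat_lit 0) (.e (nat_lit 387170) (nat_lit 0) .nil) .nil))) 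
(.lf (nat_lit 585519) (.g (nat_lit 826) (.e (nat_lit 393228) (nat_lit 9) (.e (nat_lit 335988) (nat_lit 1) (.e (nat_lit 57926) (nat_lit 282) .nil))) (.g (nat_lit 0) (.e (nat_lit 388514) (nat_lit 0) .nil) .nil))))) (.nd (nat_lit 8) (.nd (nat_lit 9) 
(.lf (nat_lit 584879) (.g (nat_lit 2824) (.e (nat_lit 385066) (nat_lit 26) (.e (nat_lit 532565) (nat_lit 15) (.e (nat_lit 385067) (nat_lit 26) (.e (nat_lit 532530) (nat_lit 9) (.e (nat_lit 336324) (nat_lit 18) (.e (nat_lit 204880) (nat_lit 32) .nil)))))) (.g (nat_lit 1) (.e (nat_lit 386972) (nat_lit 0) .nil) .nil))) 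
(.lf (nat_lit 585391) (.g (nat_lit 2552) (.e (nat_lit 385094) (nat_lit 49) (.e (nat_lit 778317) (nat_lit 3) (.e (nat_lit 57476) (nat_lit 28) (.e (nat_lit 557067) (nat_lit 9) (.e (nat_lit 3022) (nat_lit 187) (.e (nat_lit 450580) (nat_lit 5) (.e (nat_lit 532562) (nat_lit 15) .nil))))))) (.g (nat_lit 1) (.e (nat_lit 387953) (nat_lit 0) .nil) .nil)))) (.nd (nat_lit 9) 
(.lf (nat_lit 585135) (.g (nat_lit 2479) (.e (nat_lit 385073) (nat_lit 31) (.e (nat_lit 573482) (nat_lit 13) (.e (nat_lit 65628) (nat_lit 14) (.e (nat_lit 401428) (nat_lit 3) (.e (nat_lit 204854) (nat_lit 26) (.e (nat_lit 336208) (nat_lit 12) .nil)))))) (.g (nat_lit 1) (.e (nat_lit 387381) (nat_lit 0) .nil) .nil))) 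
(.lf (nat_lit 585647) (.g (nat_lit 1452) (.e (nat_lit 393251) (nat_lit 18) (.e (nat_lit 164325) (nat_lit 230) (.e (nat_lit 163873) (nat_lit 3) (.e (nat_lit 204812) (nat_lit 9) .nil)))) (.g (nat_lit 0) (.e (nat_lit 388739) (nat_lit 0) .nil) .nil)))))) (.nd (nat_lit 7) (.nd (nat_lit 8) (.nd (nat_lit 9) 
(.lf (nat_lit 584815) (.g (nat_lit 2004) (.e (nat_lit 385066) (nat_lit 26) (.e (nat_lit 532530) (nat_lit 9) (.e (nat_lit 336326) (nat_lit 18) (.e (nat_lit 204859) (nat_lit 26) (.e (nat_lit 343808) (nat_lit 18) (.e (nat_lit 204882) (nat_lit 32) .nil)))))) (.g (nat_lit 1) (.e (nat_lit 386894) (nat_lit 0) .nil) .nil))) 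
(.lf (nat_lit 585327) (.g (nat_lit 5229) (.e (nat_lit 385074) (nat_lit 31) (.e (nat_lit 573493) (nat_lit 15) (.e (nat_lit 81953) (nat_lit 22) (.e (nat_lit 90127) (nat_lit 9) .nil)))) (.g (nat_lit 0) (.e (nat_lit 387715) (nat_lit 0) .nil) .nil)))) (.nd (nat_lit 9) 
(.lf (nat_lit 585071) (.g (nat_lit 2509) (.e (nat_lit 385072) (nat_lit 31) (.e (nat_lit 573485) (nat_lit 13) (.e (nat_lit 65619) (nat_lit 10) (.e (nat_lit 344129) (nat_lit 26) (.e (nat_lit 557086) (nat_lit 11) (.e (nat_lit 24653) (nat_lit 12) .nil)))))) (.g (nat_lit 1) (.e (nat_lit 387281) (nat_lit 0) .nil) .nil))) 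
(.lf (nat_lit 585583) (.g (nat_lit 585) (.e (nat_lit 393250) (nat_lit 18) (.e (nat_lit 164327) (nat_lit 230) (.e (nat_lit 163871) (nat_lit 2) .nil))) (.g (nat_lit 0) (.e (nat_lit 388652) (nat_lit 0) .nil) .nil))))) (.nd (nat_lit 8) (.nd (nat_lit 9) 
(.lf (nat_lit 584943) (.g (nat_lit 2614) (.e (nat_lit 385068) (nat_lit 26) (.e (nat_lit 532513) (nat_lit 3) (.e (nat_lit 114694) (nat_lit 11) (.e (nat_lit 426124) (nat_lit 2) (.e (nat_lit 196681) (nat_lit 17) (.e (nat_lit 131120) (nat_lit 12) .nil)))))) (.g (nat_lit 1) (.e (nat_lit 387092) (nat_lit 0) .nil) .nil))) 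
(.lf (nat_lit 585455) (.g (nat_lit 1704) (.e (nat_lit 385105) (nat_lit 50) (.e (nat_lit 786480) (nat_lit 29) (.e (nat_lit 352265) (nat_lit 0) (.e (nat_lit 3748) (nat_lit 228) (.e (nat_lit 786473) (nat_lit 27) (.e (nat_lit 343808) (nat_lit 12) .nil)))))) (.g (nat_lit 1) (.e (nat_lit 388096) (nat_lit 0) .nil) .nil)))) (.nd (nat_lit 9) 
(.lf (nat_lit 585199) (.g (nat_lit 3080) (.e (nat_lit 385073) (nat_lit 31) (.e (nat_lit 573493) (nat_lit 15) (.e (nat_lit 81956) (nat_lit 23) (.e (nat_lit 98334) (nat_lit 18) .nil)))) (.g (nat_lit 0) (.e (nat_lit 387494) (nat_lit 0) .nil) .nil))) 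
(.lf (nat_lit 585711) (.g (nat_lit 2049) (.e (nat_lit 393251) (nat_lit 18) (.e (nat_lit 164327) (nat_lit 230) (.e (nat_lit 163875) (nat_lit 3) (.e (nat_lit 204811) (nat_lit 9) (.e (nat_lit 426234) (nat_lit 9) (.e (nat_lit 426565) (nat_lit 34) .nil)))))) (.g (nat_lit 1) (.e (nat_lit 388803) (nat_lit 0) .nil) .nil)))))))) 
(.nd (nat_lit 5) (.nd (nat_lit 6) (.nd (nat_lit 7) (.nd (nat_lit 8) (.nd (nat_lit 9) 
(.lf (nat_lit 584735) (.g (nat_lit 1334) (.e (nat_lit 385065) (nat_lit 26) (.e (nat_lit 532535) (nat_lit 9) (.e (nat_lit 343808) (nat_lit 18) .nil))) (.g (nat_lit 0) (.e (nat_lit 386777) (nat_lit 0) .nil) .nil))) 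
(.lf (nat_lit 585247) (.g (nat_lit 2988) (.e (nat_lit 385074) (nat_lit 31) (.e (nat_lit 573484) (nat_lit 13) (.e (nat_lit 65610) (nat_lit 10) (.e (nat_lit 344129) (nat_lit 26) (.e (nat_lit 557087) (nat_lit 11) (.e (nat_lit 24652) (nat_lit 12) .nil)))))) (.g (nat_lit 1) (.e (nat_lit 387571) (nat_lit 0) .nil) .nil)))) (.nd (nat_lit 9) 
(.lf (nat_lit 584991) (.g (nat_lit 2899) (.e (nat_lit 385068) (nat_lit 26) (.e (nat_lit 532534) (nat_lit 9) (.e (nat_lit 336324) (nat_lit 18) (.e (nat_lit 204854) (nat_lit 26) (.e (nat_lit 336284) (nat_lit 15) (.e (nat_lit 3249) (nat_lit 197) (.e (nat_lit 532563) (nat_lit 15) .nil))))))) (.g (nat_lit 1) (.e (nat_lit 387153) (nat_lit 0) .nil) .nil))) 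
(.lf (nat_lit 585503) (.g (nat_lit 2121) (.e (nat_lit 393225) (nat_lit 9) (.e (nat_lit 335993) (nat_lit 1) (.e (nat_lit 57931) (nat_lit 282) (.e (nat_lit 163869) (nat_lit 2) (.e (nat_lit 196681) (nat_lit 17) (.e (nat_lit 131125) (nat_lit 13) .nil)))))) (.g (nat_lit 1) (.e (nat_lit 388474) (nat_lit 0) .nil) .nil))))) (.nd (nat_lit 8) (.nd (nat_lit 9) 
(.lf (nat_lit 584863) (.g (nat_lit 2150) (.e (nat_lit 385066) (nat_lit 26) (.e (nat_lit 532560) (nat_lit 14) (.e (nat_lit 376859) (nat_lit 21) (.e (nat_lit 57686) (nat_lit 156) (.e (nat_lit 163885) (nat_lit 5) (.e (nat_lit 229120) (nat_lit 17) .nil)))))) (.g (nat_lit 1) (.e (nat_lit 386952) (nat_lit 0) .nil) .nil))) 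
(.lf (nat_lit 585375) (.g (nat_lit 3430) (.e (nat_lit 385093) (nat_lit 49) (.e (nat_lit 778317) (nat_lit 3) (.e (nat_lit 57477) (nat_lit 28) (.e (nat_lit 557067) (nat_lit 9) (.e (nat_lit 3022) (nat_lit 187) (.e (nat_lit 450580) (nat_lit 5) (.e (nat_lit 532566) (nat_lit 15) .nil))))))) (.g (nat_lit 1) (.e (nat_lit 387924) (nat_lit 0) .nil) .nil)))) (.nd (nat_lit 9) 
(.lf (nat_lit 585119) (.g (nat_lit 1166) (.e (nat_lit 385072) (nat_lit 31) (.e (nat_lit 573493) (nat_lit 15) (.e (nat_lit 81954) (nat_lit 23) .nil))) (.g (nat_lit 0) (.e (nat_lit 387357) (nat_lit 0) .nil) .nil))) 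
(.lf (nat_lit 585631) (.g (nat_lit 3530) (.e (nat_lit 393251) (nat_lit 18) (.e (nat_lit 164325) (nat_lit 230) (.e (nat_lit 163869) (nat_lit 2) (.e (nat_lit 196654) (nat_lit 11) (.e (nat_lit 16433) (nat_lit 9) (.e (nat_lit 426568) (nat_lit 34) .nil)))))) (.g (nat_lit 1) (.e (nat_lit 388723) (nat_lit 0) .nil) .nil)))))) (.nd (nat_lit 7) (.nd (nat_lit 8) (.nd (nat_lit 9) 
(.lf (nat_lit 584799) (.g (nat_lit 631) (.e (nat_lit 385066) (nat_lit 26) (.e (nat_lit 532529) (nat_lit 9) (.e (nat_lit 336326) (nat_lit 18) .nil))) (.g (nat_lit 0) (.e (nat_lit 386878) (nat_lit 0) .nil) .nil))) 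
(.lf (nat_lit 585311) (.g (nat_lit 1375) (.e (nat_lit 385074) (nat_lit 31) (.e (nat_lit 573491) (nat_lit 15) (.e (nat_lit 81956) (nat_lit 23) (.e (nat_lit 98325) (nat_lit 17) .nil)))) (.g (nat_lit 0) (.e (nat_lit 387696) (nat_lit 0) .nil) .nil)))) (.nd (nat_lit 9) 
(.lf (nat_lit 585055) (.g (nat_lit 2347) (.e (nat_lit 385072) (nat_lit 31) (.e (nat_lit 573482) (nat_lit 13) (.e (nat_lit 65619) (nat_lit 10) (.e (nat_lit 344129) (nat_lit 26) (.e (nat_lit 557086) (nat_lit 11) (.e (nat_lit 24653) (nat_lit 12) .nil)))))) (.g (nat_lit 1) (.e (nat_lit 387261) (nat_lit 0) .nil) .nil))) 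
(.lf (nat_lit 585567) (.g (nat_lit 290) (.e (nat_lit 393234) (nat_lit 17) (.e (nat_lit 7589) (nat_lit 406) (.e (nat_lit 65543) (nat_lit 0) .nil))) (.g (nat_lit 0) (.e (nat_lit 388623) (nat_lit 0) .nil) .nil))))) (.nd (nat_lit 8) (.nd (nat_lit 9) 
(.lf (nat_lit 584927) (.g (nat_lit 1701) (.e (nat_lit 385068) (nat_lit 26) (.e (nat_lit 532504) (nat_lit 1) (.e (nat_lit 57852) (nat_lit 252) (.e (nat_lit 57378) (nat_lit 3) .nil)))) (.g (nat_lit 0) (.e (nat_lit 387072) (nat_lit 0) .nil) .nil))) 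
(.lf (nat_lit 585439) (.g (nat_lit 367) (.e (nat_lit 385102) (nat_lit 50) (.e (nat_lit 786483) (nat_lit 30) (.e (nat_lit 360486) (nat_lit 18) .nil))) (.g (nat_lit 0) (.e (nat_lit 388055) (nat_lit 0) .nil) .nil)))) (.nd (nat_lit 9) 
(.lf (nat_lit 585183) (.g (nat_lit 4908) (.e (nat_lit 385073) (nat_lit 31) (.e (nat_lit 573493) (nat_lit 15) (.e (nat_lit 81953) (nat_lit 22) (.e (nat_lit 90147) (nat_lit 9) .nil)))) (.g (nat_lit 0) (.e (nat_lit 387477) (nat_lit 0) .nil) .nil))) 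
(.lf (nat_lit 585695) (.g (nat_lit 1790) (.e (nat_lit 393251) (nat_lit 18) (.e (nat_lit 164327) (nat_lit 230) (.e (nat_lit 163873) (nat_lit 3) (.e (nat_lit 204811) (nat_lit 9) (.e (nat_lit 426261) (nat_lit 9) (.e (nat_lit 433920) (nat_lit 34) .nil)))))) (.g (nat_lit 1) (.e (nat_lit 388787) (nat_lit 0) .nil) .nil))))))) (.nd (nat_lit 6) (.nd (nat_lit 7) (.nd (nat_lit 8) (.nd (nat_lit 9) 
(.lf (nat_lit 584767) (.g (nat_lit 1186) (.e (nat_lit 385066) (nat_lit 26) (.e (nat_lit 532503) (nat_lit 1) (.e (nat_lit 57847) (nat_lit 252) (.e (nat_lit 57443) (nat_lit 18) .nil)))) (.g (nat_lit 0) (.e (nat_lit 386831) (nat_lit 0) .nil) .nil))) 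
(.lf (nat_lit 585279) (.g (nat_lit 1445) (.e (nat_lit 385074) (nat_lit 31) (.e (nat_lit 573485) (nat_lit 13) (.e (nat_lit 65622) (nat_lit 12) (.e (nat_lit 385074) (nat_lit 31) (.e (nat_lit 573484) (nat_lit 13) .nil))))) (.g (nat_lit 0) (.e (nat_lit 387645) (nat_lit 0) .nil) .nil)))) (.nd (nat_lit 9) 
(.lf (nat_lit 585023) (.g (nat_lit 1629) (.e (nat_lit 385068) (nat_lit 26) (.e (nat_lit 532566) (nat_lit 15) (.e (nat_lit 385066) (nat_lit 26) (.e (nat_lit 532534) (nat_lit 9) (.e (nat_lit 343808) (nat_lit 18) (.e (nat_lit 204882) (nat_lit 32) .nil)))))) (.g (nat_lit 1) (.e (nat_lit 387187) (nat_lit 0) .nil) .nil))) 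
(.lf (nat_lit 585535) (.g (nat_lit 1971) (.e (nat_lit 393229) (nat_lit 9) (.e (nat_lit 335988) (nat_lit 1) (.e (nat_lit 57926) (nat_lit 282) (.e (nat_lit 163875) (nat_lit 3) (.e (nat_lit 204852) (nat_lit 26) .nil))))) (.g (nat_lit 0) (.e (nat_lit 388547) (nat_lit 0) .nil) .nil))))) (.nd (nat_lit 8) (.nd (nat_lit 9) 
(.lf (nat_lit 584895) (.g (nat_lit 3198) (.e (nat_lit 385067) (nat_lit 26) (.e (nat_lit 532530) (nat_lit 9) (.e (nat_lit 336326) (nat_lit 18) (.e (nat_lit 204854) (nat_lit 26) (.e (nat_lit 336324) (nat_lit 18) (.e (nat_lit 204882) (nat_lit 32) .nil)))))) (.g (nat_lit 1) (.e (nat_lit 387010) (nat_lit 0) .nil) .nil))) 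
(.lf (nat_lit 585407) (.g (nat_lit 2192) (.e (nat_lit 385094) (nat_lit 49) (.e (nat_lit 778323) (nat_lit 5) (.e (nat_lit 73781) (nat_lit 32) (.e (nat_lit 3090) (nat_lit 191) (.e (nat_lit 491264) (nat_lit 26) .nil))))) (.g (nat_lit 1) (.e (nat_lit 387985) (nat_lit 0) .nil) .nil)))) (.nd (nat_lit 9) 
(.lf (nat_lit 585151) (.g (nat_lit 1237) (.e (nat_lit 385073) (nat_lit 31) (.e (nat_lit 573493) (nat_lit 15) (.e (nat_lit 81922) (nat_lit 0) .nil))) (.g (nat_lit 0) (.e (nat_lit 387422) (nat_lit 0) .nil) .nil))) 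
(.lf (nat_lit 585663) (.g (nat_lit 3534) (.e (nat_lit 393251) (nat_lit 18) (.e (nat_lit 164325) (nat_lit 230) (.e (nat_lit 163875) (nat_lit 3) (.e (nat_lit 204813) (nat_lit 9) (.e (nat_lit 426200) (nat_lit 9) (.e (nat_lit 426568) (nat_lit 34) .nil)))))) (.g (nat_lit 1) (.e (nat_lit 388755) (nat_lit 0) .nil) .nil)))))) (.nd (nat_lit 7) (.nd (nat_lit 8) (.nd (nat_lit 9) 
(.lf (nat_lit 584831) (.g (nat_lit 2577) (.e (nat_lit 385066) (nat_lit 26) (.e (nat_lit 532534) (nat_lit 9) (.e (nat_lit 336019) (nat_lit 3) (.e (nat_lit 98333) (nat_lit 18) (.e (nat_lit 164243) (nat_lit 195) .nil))))) (.g (nat_lit 0) (.e (nat_lit 386914) (nat_lit 0) .nil) .nil))) 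
(.lf (nat_lit 585343) (.g (nat_lit 1492) (.e (nat_lit 385074) (nat_lit 31) (.e (nat_lit 573493) (nat_lit 15) (.e (nat_lit 81954) (nat_lit 23) (.e (nat_lit 98325) (nat_lit 17) .nil)))) (.g (nat_lit 0) (.e (nat_lit 387732) (nat_lit 0) .nil) .nil)))) (.nd (nat_lit 9) 
(.lf (nat_lit 585087) (.g (nat_lit 4429) (.e (nat_lit 385072) (nat_lit 31) (.e (nat_lit 573492) (nat_lit 15) (.e (nat_lit 81953) (nat_lit 22) (.e (nat_lit 90138) (nat_lit 9) .nil)))) (.g (nat_lit 0) (.e (nat_lit 387314) (nat_lit 0) .nil) .nil))) 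
(.lf (nat_lit 585599) (.g (nat_lit 1160) (.e (nat_lit 393250) (nat_lit 18) (.e (nat_lit 164398) (nat_lit 256) (.e (nat_lit 57378) (nat_lit 3) (.e (nat_lit 98363) (nat_lit 26) .nil)))) (.g (nat_lit 0) (.e (nat_lit 388668) (nat_lit 0) .nil) .nil))))) (.nd (nat_lit 8) (.nd (nat_lit 9) 
(.lf (nat_lit 584959) (.g (nat_lit 336) (.e (nat_lit 385068) (nat_lit 26) (.e (nat_lit 532513) (nat_lit 3) (.e (nat_lit 122624) (nat_lit 12) .nil))) (.g (nat_lit 0) (.e (nat_lit 387113) (nat_lit 0) .nil) .nil))) 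
(.lf (nat_lit 585471) (.g (nat_lit 3237) (.e (nat_lit 385108) (nat_lit 51) (.e (nat_lit 794666) (nat_lit 22) (.e (nat_lit 196654) (nat_lit 11) (.e (nat_lit 16436) (nat_lit 9) (.e (nat_lit 426131) (nat_lit 3) (.e (nat_lit 204880) (nat_lit 32) .nil)))))) (.g (nat_lit 1) (.e (nat_lit 388222) (nat_lit 0) .nil) .nil)))) (.nd (nat_lit 9) 
(.lf (nat_lit 585215) (.g (nat_lit 1756) (.e (nat_lit 385074) (nat_lit 31) (.e (nat_lit 573482) (nat_lit 13) (.e (nat_lit 65610) (nat_lit 10) (.e (nat_lit 344117) (nat_lit 21) .nil)))) (.g (nat_lit 0) (.e (nat_lit 387524) (nat_lit 0) .nil) .nil))) 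
(.lf (nat_lit 585727) (.g (nat_lit 1196) (.e (nat_lit 393251) (nat_lit 18) (.e (nat_lit 164332) (nat_lit 230) (.e (nat_lit 163867) (nat_lit 2) (.e (nat_lit 196652) (nat_lit 11) .nil)))) (.g (nat_lit 0) (.e (nat_lit 388819) (nat_lit 0) .nil) .nil)))))))))))))

noncomputable def tv5632 : DT := (.nd (nat_lit 0) (.nd (nat_lit 1) (.nd (nat_lit 2) (.nd (nat_lit 3) (.nd (nat_lit 4) (.nd (nat_lit 5) (.nd (nat_lit 6) (.nd (nat_lit 7) (.nd (nat_lit 8) (.nd (nat_lit 9) 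
(.lf (nat_lit 585728) (.g (nat_lit 2259) (.e (nat_lit 393251) (nat_lit 18) (.e (nat_lit 164332) (nat_lit 230) (.e (nat_lit 163869) (nat_lit 2) (.e (nat_lit 196619) (nat_lit 9) .nil)))) (.g (nat_lit 0) (.e (nat_lit 388821) (nat_lit 0) .nil) .nil))) 
(.lf (nat_lit 586240) (.g (nat_lit 1000) (.e (nat_lit 393254) (nat_lit 18) (.e (nat_lit 164326) (nat_lit 230) (.e (nat_lit 163868) (nat_lit 2) (.e (nat_lit 196617) (nat_lit 9) .nil)))) (.g (nat_lit 0) (.e (nat_lit 389405) (nat_lit 0) .nil) .nil)))) (.nd (nat_lit 9) 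
(.lf (nat_lit 585984) (.g (nat_lit 1411) (.e (nat_lit 393253) (nat_lit 18) (.e (nat_lit 164326) (nat_lit 230) (.e (nat_lit 163870) (nat_lit 2) (.e (nat_lit 196628) (nat_lit 9) .nil)))) (.g (nat_lit 0) (.e (nat_lit 389125) (nat_lit 0) .nil) .nil))) 
(.lf (nat_lit 586496) (.g (nat_lit 3319) (.e (nat_lit 393268) (nat_lit 23) (.e (nat_lit 426436) (nat_lit 18) (.e (nat_lit 98334) (nat_lit 18) (.e (nat_lit 164330) (nat_lit 230) (.e (nat_lit 163904) (nat_lit 12) (.e (nat_lit 426566) (nat_lit 34) .nil)))))) (.g (nat_lit 1) (.e (nat_lit 389767) (nat_lit 0) .nil) .nil))))) (.nd (nat_lit 8) (.nd (nat_lit 9) 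
(.lf (nat_lit 585856) (.g (nat_lit 2304) (.e (nat_lit 393252) (nat_lit 18) (.e (nat_lit 164398) (nat_lit 256) (.e (nat_lit 57379) (nat_lit 3) (.e (nat_lit 98365) (nat_lit 26) (.e (nat_lit 426188) (nat_lit 9) .nil))))) (.g (nat_lit 0) (.e (nat_lit 388968) (nat_lit 0) .nil) .nil))) 
(.lf (nat_lit 586368) (.g (nat_lit 797) (.e (nat_lit 393254) (nat_lit 18) (.e (nat_lit 164330) (nat_lit 230) (.e (nat_lit 163873) (nat_lit 3) .nil))) (.g (nat_lit 0) (.e (nat_lit 389536) (nat_lit 0) .nil) .nil)))) (.nd (nat_lit 9) 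
(.lf (nat_lit 586112) (.g (nat_lit 2508) (.e (nat_lit 393253) (nat_lit 18) (.e (nat_lit 164330) (nat_lit 230) (.e (nat_lit 163869) (nat_lit 2) (.e (nat_lit 196656) (nat_lit 11) (.e (nat_lit 16433) (nat_lit 9) (.e (nat_lit 426568) (nat_lit 34) .nil)))))) (.g (nat_lit 1) (.e (nat_lit 389258) (nat_lit 0) .nil) .nil))) 
(.lf (nat_lit 586624) (.g (nat_lit 3437) (.e (nat_lit 393271) (nat_lit 23) (.e (nat_lit 426436) (nat_lit 18) (.e (nat_lit 98335) (nat_lit 18) (.e (nat_lit 164328) (nat_lit 230) .nil)))) (.g (nat_lit 0) (.e (nat_lit 389900) (nat_lit 0) .nil) .nil)))))) (.nd (nat_lit 7) (.nd (nat_lit 8) (.nd (nat_lit 9) 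
(.lf (nat_lit 585792) (.g (nat_lit 1070) (.e (nat_lit 393252) (nat_lit 18) (.e (nat_lit 164330) (nat_lit 230) (.e (nat_lit 163874) (nat_lit 3) (.e (nat_lit 204812) (nat_lit 9) .nil)))) (.g (nat_lit 0) (.e (nat_lit 388903) (nat_lit 0) .nil) .nil))) 
(.lf (nat_lit 586304) (.g (nat_lit 2234) (.e (nat_lit 393254) (nat_lit 18) (.e (nat_lit 164326) (nat_lit 230) (.e (nat_lit 163871) (nat_lit 2) (.e (nat_lit 196632) (nat_lit 9) .nil)))) (.g (nat_lit 0) (.e (nat_lit 389470) (nat_lit 0) .nil) .nil)))) (.nd (nat_lit 9) 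
(.lf (nat_lit 586048) (.g (nat_lit 2312) (.e (nat_lit 393253) (nat_lit 18) (.e (nat_lit 164327) (nat_lit 230) (.e (nat_lit 163868) (nat_lit 2) (.e (nat_lit 196656) (nat_lit 11) (.e (nat_lit 16444) (nat_lit 9) (.e (nat_lit 433920) (nat_lit 34) .nil)))))) (.g (nat_lit 1) (.e (nat_lit 389192) (nat_lit 0) .nil) .nil))) 
(.lf (nat_lit 586560) (.g (nat_lit 3355) (.e (nat_lit 393270) (nat_lit 23) (.e (nat_lit 426436) (nat_lit 18) (.e (nat_lit 98335) (nat_lit 18) (.e (nat_lit 164325) (nat_lit 230) (.e (nat_lit 163907) (nat_lit 12) (.e (nat_lit 426566) (nat_lit 34) .nil)))))) (.g (nat_lit 1) (.e (nat_lit 389833) (nat_lit 0) .nil) .nil))))) (.nd (nat_lit 8) (.nd (nat_lit 9) 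
(.lf (nat_lit 585920) (.g (nat_lit 2342) (.e (nat_lit 393253) (nat_lit 18) (.e (nat_lit 164325) (nat_lit 230) (.e (nat_lit 163871) (nat_lit 2) (.e (nat_lit 196624) (nat_lit 9) (.e (nat_lit 479) (nat_lit 37) (.e (nat_lit 474880) (nat_lit 18) .nil)))))) (.g (nat_lit 1) (.e (nat_lit 389059) (nat_lit 0) .nil) .nil))) 
(.lf (nat_lit 586432) (.g (nat_lit 3617) (.e (nat_lit 393254) (nat_lit 18) (.e (nat_lit 164332) (nat_lit 230) (.e (nat_lit 163873) (nat_lit 3) (.e (nat_lit 204813) (nat_lit 9) (.e (nat_lit 426188) (nat_lit 9) (.e (nat_lit 426566) (nat_lit 34) .nil)))))) (.g (nat_lit 1) (.e (nat_lit 389613) (nat_lit 0) .nil) .nil)))) (.nd (nat_lit 9) 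
(.lf (nat_lit 586176) (.g (nat_lit 1675) (.e (nat_lit 393253) (nat_lit 18) (.e (nat_lit 164403) (nat_lit 256) (.e (nat_lit 57373) (nat_lit 2) (.e (nat_lit 90169) (nat_lit 13) .nil)))) (.g (nat_lit 0) (.e (nat_lit 389336) (nat_lit 0) .nil) .nil))) 
(.lf (nat_lit 586688) (.g (nat_lit 3405) (.e (nat_lit 393273) (nat_lit 23) (.e (nat_lit 426436) (nat_lit 18) (.e (nat_lit 98334) (nat_lit 18) (.e (nat_lit 164332) (nat_lit 230) (.e (nat_lit 163905) (nat_lit 12) (.e (nat_lit 426566) (nat_lit 34) .nil)))))) (.g (nat_lit 1) (.e (nat_lit 389965) (nat_lit 0) .nil) .nil))))))) (.nd (nat_lit 6) (.nd (nat_lit 7) (.nd (nat_lit 8) (.nd (nat_lit 9) 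
(.lf (nat_lit 585760) (.g (nat_lit 3285) (.e (nat_lit 393251) (nat_lit 18) (.e (nat_lit 164399) (nat_lit 256) (.e (nat_lit 57377) (nat_lit 3) (.e (nat_lit 98365) (nat_lit 26) (.e (nat_lit 426188) (nat_lit 9) (.e (nat_lit 426568) (nat_lit 34) .nil)))))) (.g (nat_lit 1) (.e (nat_lit 388863) (nat_lit 0) .nil) .nil))) 
(.lf (nat_lit 586272) (.g (nat_lit 2212) (.e (nat_lit 393254) (nat_lit 18) (.e (nat_lit 164326) (nat_lit 230) (.e (nat_lit 163868) (nat_lit 2) (.e (nat_lit 196641) (nat_lit 9) .nil)))) (.g (nat_lit 0) (.e (nat_lit 389438) (nat_lit 0) .nil) .nil)))) (.nd (nat_lit 9) 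
(.lf (nat_lit 586016) (.g (nat_lit 2467) (.e (nat_lit 393253) (nat_lit 18) (.e (nat_lit 164326) (nat_lit 230) (.e (nat_lit 163871) (nat_lit 2) (.e (nat_lit 196630) (nat_lit 9) .nil)))) (.g (nat_lit 0) (.e (nat_lit 389157) (nat_lit 0) .nil) .nil))) 
(.lf (nat_lit 586528) (.g (nat_lit 3394) (.e (nat_lit 393268) (nat_lit 23) (.e (nat_lit 426438) (nat_lit 18) (.e (nat_lit 98335) (nat_lit 18) (.e (nat_lit 164332) (nat_lit 230) (.e (nat_lit 163902) (nat_lit 12) (.e (nat_lit 426566) (nat_lit 34) .nil)))))) (.g (nat_lit 1) (.e (nat_lit 389799) (nat_lit 0) .nil) .nil))))) (.nd (nat_lit 8) (.nd (nat_lit 9) 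
(.lf (nat_lit 585888) (.g (nat_lit 1792) (.e (nat_lit 393253) (nat_lit 18) (.e (nat_lit 164324) (nat_lit 230) (.e (nat_lit 163873) (nat_lit 3) (.e (nat_lit 204811) (nat_lit 9) (.e (nat_lit 426262) (nat_lit 9) (.e (nat_lit 433920) (nat_lit 34) .nil)))))) (.g (nat_lit 1) (.e (nat_lit 389025) (nat_lit 0) .nil) .nil))) 
(.lf (nat_lit 586400) (.g (nat_lit 2502) (.e (nat_lit 393254) (nat_lit 18) (.e (nat_lit 164332) (nat_lit 230) (.e (nat_lit 163869) (nat_lit 2) (.e (nat_lit 196624) (nat_lit 9) (.e (nat_lit 454) (nat_lit 34) (.e (nat_lit 450304) (nat_lit 18) .nil)))))) (.g (nat_lit 1) (.e (nat_lit 389581) (nat_lit 0) .nil) .nil)))) (.nd (nat_lit 9) 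
(.lf (nat_lit 586144) (.g (nat_lit 2570) (.e (nat_lit 393253) (nat_lit 18) (.e (nat_lit 164332) (nat_lit 230) (.e (nat_lit 163869) (nat_lit 2) (.e (nat_lit 196624) (nat_lit 9) (.e (nat_lit 433) (nat_lit 32) (.e (nat_lit 426228) (nat_lit 9) (.e (nat_lit 426565) (nat_lit 34) .nil))))))) (.g (nat_lit 1) (.e (nat_lit 389290) (nat_lit 0) .nil) .nil))) 
(.lf (nat_lit 586656) (.g (nat_lit 3548) (.e (nat_lit 393272) (nat_lit 23) (.e (nat_lit 426436) (nat_lit 18) (.e (nat_lit 98333) (nat_lit 18) (.e (nat_lit 164327) (nat_lit 230) (.e (nat_lit 163903) (nat_lit 12) (.e (nat_lit 426566) (nat_lit 34) .nil)))))) (.g (nat_lit 1) (.e (nat_lit 389932) (nat_lit 0) .nil) .nil)))))) (.nd (nat_lit 7) (.nd (nat_lit 8) (.nd (nat_lit 9) 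
(.lf (nat_lit 585824) (.g (nat_lit 2126) (.e (nat_lit 393252) (nat_lit 18) (.e (nat_lit 164332) (nat_lit 230) (.e (nat_lit 163869) (nat_lit 2) (.e (nat_lit 196624) (nat_lit 9) (.e (nat_lit 457) (nat_lit 34) (.e (nat_lit 450304) (nat_lit 18) .nil)))))) (.g (nat_lit 1) (.e (nat_lit 388936) (nat_lit 0) .nil) .nil))) 
(.lf (nat_lit 586336) (.g (nat_lit 1659) (.e (nat_lit 393254) (nat_lit 18) (.e (nat_lit 164327) (nat_lit 230) (.e (nat_lit 163871) (nat_lit 2) (.e (nat_lit 196624) (nat_lit 9) .nil)))) (.g (nat_lit 0) (.e (nat_lit 389502) (nat_lit 0) .nil) .nil)))) (.nd (nat_lit 9) 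
(.lf (nat_lit 586080) (.g (nat_lit 1953) (.e (nat_lit 393253) (nat_lit 18) (.e (nat_lit 164327) (nat_lit 230) (.e (nat_lit 163874) (nat_lit 3) (.e (nat_lit 204811) (nat_lit 9) .nil)))) (.g (nat_lit 0) (.e (nat_lit 389224) (nat_lit 0) .nil) .nil))) 
(.lf (nat_lit 586592) (.g (nat_lit 2716) (.e (nat_lit 393271) (nat_lit 23) (.e (nat_lit 426131) (nat_lit 3) (.e (nat_lit 204829) (nat_lit 18) (.e (nat_lit 57653) (nat_lit 152) (.e (nat_lit 2633) (nat_lit 164) (.e (nat_lit 179968) (nat_lit 34) .nil)))))) (.g (nat_lit 1) (.e (nat_lit 389866) (nat_lit 0) .nil) .nil))))) (.nd (nat_lit 8) (.nd (nat_lit 9) 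
(.lf (nat_lit 585952) (.g (nat_lit 2510) (.e (nat_lit 393253) (nat_lit 18) (.e (nat_lit 164326) (nat_lit 230) (.e (nat_lit 163868) (nat_lit 2) (.e (nat_lit 196624) (nat_lit 9) (.e (nat_lit 454) (nat_lit 34) (.e (nat_lit 450304) (nat_lit 18) .nil)))))) (.g (nat_lit 1) (.e (nat_lit 389092) (nat_lit 0) .nil) .nil))) 
(.lf (nat_lit 586464) (.g (nat_lit 1428) (.e (nat_lit 393263) (nat_lit 22) (.e (nat_lit 417805) (nat_lit 2) (.e (nat_lit 32803) (nat_lit 16) (.e (nat_lit 24665) (nat_lit 14) (.e (nat_lit 409344) (nat_lit 34) .nil))))) (.g (nat_lit 1) (.e (nat_lit 389722) (nat_lit 0) .nil) .nil)))) (.nd (nat_lit 9) 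
(.lf (nat_lit 586208) (.g (nat_lit 967) (.e (nat_lit 393254) (nat_lit 18) (.e (nat_lit 164324) (nat_lit 230) (.e (nat_lit 163873) (nat_lit 3) (.e (nat_lit 204811) (nat_lit 9) .nil)))) (.g (nat_lit 0) (.e (nat_lit 389370) (nat_lit 0) .nil) .nil))) 
(.lf (nat_lit 586720) (.g (nat_lit 464) (.e (nat_lit 393279) (nat_lit 23) (.e (nat_lit 426110) (nat_lit 1) (.e (nat_lit 164345) (nat_lit 240) .nil))) (.g (nat_lit 0) (.e (nat_lit 390020) (nat_lit 0) .nil) .nil)))))))) (.nd (nat_lit 5) (.nd (nat_lit 6) (.nd (nat_lit 7) (.nd (nat_lit 8) (.nd (nat_lit 9) 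
(.lf (nat_lit 585744) (.g (nat_lit 3429) (.e (nat_lit 393251) (nat_lit 18) (.e (nat_lit 164332) (nat_lit 230) (.e (nat_lit 163873) (nat_lit 3) (.e (nat_lit 204813) (nat_lit 9) (.e (nat_lit 426199) (nat_lit 9) (.e (nat_lit 426564) (nat_lit 34) .nil)))))) (.g (nat_lit 1) (.e (nat_lit 388837) (nat_lit 0) .nil) .nil))) 
(.lf (nat_lit 586256) (.g (nat_lit 1857) (.e (nat_lit 393254) (nat_lit 18) (.e (nat_lit 164326) (nat_lit 230) (.e (nat_lit 163868) (nat_lit 2) (.e (nat_lit 196624) (nat_lit 9) (.e (nat_lit 7936) (nat_lit 34) (.e (nat_lit 450304) (nat_lit 18) .nil)))))) (.g (nat_lit 1) (.e (nat_lit 389421) (nat_lit 0) .nil) .nil)))) (.nd (nat_lit 9) 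
(.lf (nat_lit 586000) (.g (nat_lit 2457) (.e (nat_lit 393253) (nat_lit 18) (.e (nat_lit 164326) (nat_lit 230) (.e (nat_lit 163871) (nat_lit 2) (.e (nat_lit 196619) (nat_lit 9) (.e (nat_lit 457) (nat_lit 34) (.e (nat_lit 450304) (nat_lit 18) .nil)))))) (.g (nat_lit 1) (.e (nat_lit 389141) (nat_lit 0) .nil) .nil))) 
(.lf (nat_lit 586512) (.g (nat_lit 2969) (.e (nat_lit 393268) (nat_lit 23) (.e (nat_lit 426438) (nat_lit 18) (.e (nat_lit 98333) (nat_lit 18) (.e (nat_lit 164332) (nat_lit 230) (.e (nat_lit 163902) (nat_lit 12) (.e (nat_lit 426568) (nat_lit 34) .nil)))))) (.g (nat_lit 1) (.e (nat_lit 389783) (nat_lit 0) .nil) .nil))))) (.nd (nat_lit 8) (.nd (nat_lit 9) 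
(.lf (nat_lit 585872) (.g (nat_lit 1697) (.e (nat_lit 393253) (nat_lit 18) (.e (nat_lit 164324) (nat_lit 230) (.e (nat_lit 163867) (nat_lit 2) (.e (nat_lit 196652) (nat_lit 11) .nil)))) (.g (nat_lit 0) (.e (nat_lit 389009) (nat_lit 0) .nil) .nil))) 
(.lf (nat_lit 586384) (.g (nat_lit 1653) (.e (nat_lit 393254) (nat_lit 18) (.e (nat_lit 164332) (nat_lit 230) (.e (nat_lit 163867) (nat_lit 2) (.e (nat_lit 196624) (nat_lit 9) (.e (nat_lit 7936) (nat_lit 34) (.e (nat_lit 450304) (nat_lit 18) .nil)))))) (.g (nat_lit 1) (.e (nat_lit 389565) (nat_lit 0) .nil) .nil)))) (.nd (nat_lit 9) 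
(.lf (nat_lit 586128) (.g (nat_lit 2138) (.e (nat_lit 393253) (nat_lit 18) (.e (nat_lit 164332) (nat_lit 230) (.e (nat_lit 163867) (nat_lit 2) (.e (nat_lit 196624) (nat_lit 9) (.e (nat_lit 454) (nat_lit 34) (.e (nat_lit 450304) (nat_lit 18) .nil)))))) (.g (nat_lit 1) (.e (nat_lit 389274) (nat_lit 0) .nil) .nil))) 
(.lf (nat_lit 586640) (.g (nat_lit 2957) (.e (nat_lit 393271) (nat_lit 23) (.e (nat_lit 426438) (nat_lit 18) (.e (nat_lit 98335) (nat_lit 18) (.e (nat_lit 164331) (nat_lit 230) (.e (nat_lit 163904) (nat_lit 12) (.e (nat_lit 426566) (nat_lit 34) .nil)))))) (.g (nat_lit 1) (.e (nat_lit 389916) (nat_lit 0) .nil) .nil)))))) (.nd (nat_lit 7) (.nd (nat_lit 8) (.nd (nat_lit 9) 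
(.lf (nat_lit 585808) (.g (nat_lit 1774) (.e (nat_lit 393252) (nat_lit 18) (.e (nat_lit 164332) (nat_lit 230) (.e (nat_lit 163867) (nat_lit 2) (.e (nat_lit 196635) (nat_lit 9) (.e (nat_lit 392) (nat_lit 32) .nil))))) (.g (nat_lit 0) (.e (nat_lit 388919) (nat_lit 0) .nil) .nil))) 
(.lf (nat_lit 586320) (.g (nat_lit 1415) (.e (nat_lit 393254) (nat_lit 18) (.e (nat_lit 164326) (nat_lit 230) (.e (nat_lit 163875) (nat_lit 3) (.e (nat_lit 204811) (nat_lit 9) (.e (nat_lit 426259) (nat_lit 9) (.e (nat_lit 426565) (nat_lit 34) .nil)))))) (.g (nat_lit 1) (.e (nat_lit 389486) (nat_lit 0) .nil) .nil)))) (.nd (nat_lit 9) 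
(.lf (nat_lit 586064) (.g (nat_lit 2541) (.e (nat_lit 393253) (nat_lit 18) (.e (nat_lit 164327) (nat_lit 230) (.e (nat_lit 163871) (nat_lit 2) (.e (nat_lit 196656) (nat_lit 11) (.e (nat_lit 16433) (nat_lit 9) (.e (nat_lit 426568) (nat_lit 34) .nil)))))) (.g (nat_lit 1) (.e (nat_lit 389208) (nat_lit 0) .nil) .nil))) 
(.lf (nat_lit 586576) (.g (nat_lit 2647) (.e (nat_lit 393270) (nat_lit 23) (.e (nat_lit 426438) (nat_lit 18) (.e (nat_lit 98335) (nat_lit 18) (.e (nat_lit 164324) (nat_lit 230) (.e (nat_lit 163903) (nat_lit 12) (.e (nat_lit 426567) (nat_lit 34) .nil)))))) (.g (nat_lit 1) (.e (nat_lit 389849) (nat_lit 0) .nil) .nil))))) (.nd (nat_lit 8) (.nd (nat_lit 9) 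
(.lf (nat_lit 585936) (.g (nat_lit 1448) (.e (nat_lit 393253) (nat_lit 18) (.e (nat_lit 164325) (nat_lit 230) (.e (nat_lit 163875) (nat_lit 3) (.e (nat_lit 204811) (nat_lit 9) (.e (nat_lit 426261) (nat_lit 9) (.e (nat_lit 433920) (nat_lit 34) .nil)))))) (.g (nat_lit 1) (.e (nat_lit 389075) (nat_lit 0) .nil) .nil))) 
(.lf (nat_lit 586448) (.g (nat_lit 1413) (.e (nat_lit 393254) (nat_lit 18) (.e (nat_lit 164348) (nat_lit 240) (.e (nat_lit 2610) (nat_lit 163) (.e (nat_lit 163959) (nat_lit 24) .nil)))) (.g (nat_lit 0) (.e (nat_lit 389631) (nat_lit 0) .nil) .nil)))) (.nd (nat_lit 9) 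
(.lf (nat_lit 586192) (.g (nat_lit 1746) (.e (nat_lit 393254) (nat_lit 18) (.e (nat_lit 164322) (nat_lit 230) (.e (nat_lit 163873) (nat_lit 3) (.e (nat_lit 204811) (nat_lit 9) (.e (nat_lit 426234) (nat_lit 9) (.e (nat_lit 426565) (nat_lit 34) .nil)))))) (.g (nat_lit 1) (.e (nat_lit 389354) (nat_lit 0) .nil) .nil))) 
(.lf (nat_lit 586704) (.g (nat_lit 821) (.e (nat_lit 393275) (nat_lit 23) (.e (nat_lit 426109) (nat_lit 1) (.e (nat_lit 164345) (nat_lit 240) (.e (nat_lit 2640) (nat_lit 165) (.e (nat_lit 180277) (nat_lit 32) .nil))))) (.g (nat_lit 0) (.e (nat_lit 389984) (nat_lit 0) .nil) .nil))))))) (.nd (nat_lit 6) (.nd (nat_lit 7) (.nd (nat_lit 8) (.nd (nat_lit 9) 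
(.lf (nat_lit 585776) (.g (nat_lit 3328) (.e (nat_lit 393252) (nat_lit 18) (.e (nat_lit 164330) (nat_lit 230) (.e (nat_lit 163866) (nat_lit 2) (.e (nat_lit 196654) (nat_lit 11) (.e (nat_lit 16433) (nat_lit 9) (.e (nat_lit 426568) (nat_lit 34) .nil)))))) (.g (nat_lit 1) (.e (nat_lit 388887) (nat_lit 0) .nil) .nil))) 
(.lf (nat_lit 586288) (.g (nat_lit 1910) (.e (nat_lit 393254) (nat_lit 18) (.e (nat_lit 164326) (nat_lit 230) (.e (nat_lit 163871) (nat_lit 2) (.e (nat_lit 196620) (nat_lit 9) .nil)))) (.g (nat_lit 0) (.e (nat_lit 389454) (nat_lit 0) .nil) .nil)))) (.nd (nat_lit 9) 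
(.lf (nat_lit 586032) (.g (nat_lit 2892) (.e (nat_lit 393253) (nat_lit 18) (.e (nat_lit 164326) (nat_lit 230) (.e (nat_lit 163875) (nat_lit 3) (.e (nat_lit 204809) (nat_lit 9) (.e (nat_lit 426188) (nat_lit 9) (.e (nat_lit 426566) (nat_lit 34) .nil)))))) (.g (nat_lit 1) (.e (nat_lit 389174) (nat_lit 0) .nil) .nil))) 
(.lf (nat_lit 586544) (.g (nat_lit 2951) (.e (nat_lit 393270) (nat_lit 23) (.e (nat_lit 426436) (nat_lit 18) (.e (nat_lit 98333) (nat_lit 18) (.e (nat_lit 164332) (nat_lit 230) (.e (nat_lit 163905) (nat_lit 12) (.e (nat_lit 426566) (nat_lit 34) .nil)))))) (.g (nat_lit 1) (.e (nat_lit 389817) (nat_lit 0) .nil) .nil))))) (.nd (nat_lit 8) (.nd (nat_lit 9) 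
(.lf (nat_lit 585904) (.g (nat_lit 2261) (.e (nat_lit 393253) (nat_lit 18) (.e (nat_lit 164325) (nat_lit 230) (.e (nat_lit 163868) (nat_lit 2) (.e (nat_lit 196624) (nat_lit 9) (.e (nat_lit 455) (nat_lit 34) (.e (nat_lit 450304) (nat_lit 18) .nil)))))) (.g (nat_lit 1) (.e (nat_lit 389043) (nat_lit 0) .nil) .nil))) 
(.lf (nat_lit 586416) (.g (nat_lit 3544) (.e (nat_lit 393254) (nat_lit 18) (.e (nat_lit 164332) (nat_lit 230) (.e (nat_lit 163869) (nat_lit 2) (.e (nat_lit 196631) (nat_lit 9) .nil)))) (.g (nat_lit 0) (.e (nat_lit 389597) (nat_lit 0) .nil) .nil)))) (.nd (nat_lit 9) 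
(.lf (nat_lit 586160) (.g (nat_lit 649) (.e (nat_lit 393253) (nat_lit 18) (.e (nat_lit 164332) (nat_lit 230) (.e (nat_lit 163872) (nat_lit 3) .nil))) (.g (nat_lit 0) (.e (nat_lit 389306) (nat_lit 0) .nil) .nil))) 
(.lf (nat_lit 586672) (.g (nat_lit 3224) (.e (nat_lit 393273) (nat_lit 23) (.e (nat_lit 426131) (nat_lit 3) (.e (nat_lit 204829) (nat_lit 18) (.e (nat_lit 57667) (nat_lit 152) (.e (nat_lit 2619) (nat_lit 164) (.e (nat_lit 179968) (nat_lit 34) .nil)))))) (.g (nat_lit 1) (.e (nat_lit 389948) (nat_lit 0) .nil) .nil)))))) (.nd (nat_lit 7) (.nd (nat_lit 8) (.nd (nat_lit 9) 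
(.lf (nat_lit 585840) (.g (nat_lit 3451) (.e (nat_lit 393252) (nat_lit 18) (.e (nat_lit 164332) (nat_lit 230) (.e (nat_lit 163873) (nat_lit 3) (.e (nat_lit 204813) (nat_lit 9) (.e (nat_lit 426196) (nat_lit 9) .nil))))) (.g (nat_lit 0) (.e (nat_lit 388952) (nat_lit 0) .nil) .nil))) 
(.lf (nat_lit 586352) (.g (nat_lit 2250) (.e (nat_lit 393254) (nat_lit 18) (.e (nat_lit 164329) (nat_lit 230) (.e (nat_lit 163867) (nat_lit 2) (.e (nat_lit 196624) (nat_lit 9) (.e (nat_lit 454) (nat_lit 34) (.e (nat_lit 450304) (nat_lit 18) .nil)))))) (.g (nat_lit 1) (.e (nat_lit 389520) (nat_lit 0) .nil) .nil)))) (.nd (nat_lit 9) 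
(.lf (nat_lit 586096) (.g (nat_lit 2350) (.e (nat_lit 393253) (nat_lit 18) (.e (nat_lit 164329) (nat_lit 230) (.e (nat_lit 163867) (nat_lit 2) (.e (nat_lit 196624) (nat_lit 9) (.e (nat_lit 479) (nat_lit 37) (.e (nat_lit 474880) (nat_lit 18) .nil)))))) (.g (nat_lit 1) (.e (nat_lit 389242) (nat_lit 0) .nil) .nil))) 
(.lf (nat_lit 586608) (.g (nat_lit 2072) (.e (nat_lit 393271) (nat_lit 23) (.e (nat_lit 426131) (nat_lit 3) (.e (nat_lit 204831) (nat_lit 18) (.e (nat_lit 57651) (nat_lit 152) (.e (nat_lit 2619) (nat_lit 164) (.e (nat_lit 179968) (nat_lit 34) .nil)))))) (.g (nat_lit 1) (.e (nat_lit 389882) (nat_lit 0) .nil) .nil))))) (.nd (nat_lit 8) (.nd (nat_lit 9) 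
(.lf (nat_lit 585968) (.g (nat_lit 2251) (.e (nat_lit 393253) (nat_lit 18) (.e (nat_lit 164326) (nat_lit 230) (.e (nat_lit 163868) (nat_lit 2) (.e (nat_lit 196630) (nat_lit 9) .nil)))) (.g (nat_lit 0) (.e (nat_lit 389108) (nat_lit 0) .nil) .nil))) 
(.lf (nat_lit 586480) (.g (nat_lit 1245) (.e (nat_lit 393266) (nat_lit 23) (.e (nat_lit 426428) (nat_lit 17) (.e (nat_lit 90134) (nat_lit 9) (.e (nat_lit 2612) (nat_lit 163) .nil)))) (.g (nat_lit 0) (.e (nat_lit 389751) (nat_lit 0) .nil) .nil)))) (.nd (nat_lit 9) 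
(.lf (nat_lit 586224) (.g (nat_lit 2008) (.e (nat_lit 393254) (nat_lit 18) (.e (nat_lit 164325) (nat_lit 230) (.e (nat_lit 163871) (nat_lit 2) (.e (nat_lit 196624) (nat_lit 9) (.e (nat_lit 459) (nat_lit 34) (.e (nat_lit 450304) (nat_lit 18) .nil)))))) (.g (nat_lit 1) (.e (nat_lit 389389) (nat_lit 0) .nil) .nil))) 
(.lf (nat_lit 586736) (.g (nat_lit 1835) (.e (nat_lit 393281) (nat_lit 23) (.e (nat_lit 426098) (nat_lit 1) (.e (nat_lit 164325) (nat_lit 230) (.e (nat_lit 163880) (nat_lit 4) (.e (nat_lit 213032) (nat_lit 11) .nil))))) (.g (nat_lit 0) (.e (nat_lit 390043) (nat_lit 0) .nil) .nil))))))))) (.nd (nat_lit 4) (.nd (nat_lit 5) (.nd (nat_lit 6) (.nd (nat_lit 7) (.nd (nat_lit 8) (.nd (nat_lit 9) 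
(.lf (nat_lit 585736) (.g (nat_lit 2436) (.e (nat_lit 393251) (nat_lit 18) (.e (nat_lit 164332) (nat_lit 230) (.e (nat_lit 163869) (nat_lit 2) (.e (nat_lit 196624) (nat_lit 9) (.e (nat_lit 459) (nat_lit 34) (.e (nat_lit 450304) (nat_lit 18) .nil)))))) (.g (nat_lit 1) (.e (nat_lit 388829) (nat_lit 0) .nil) .nil))) 
(.lf (nat_lit 586248) (.g (nat_lit 1567) (.e (nat_lit 393254) (nat_lit 18) (.e (nat_lit 164326) (nat_lit 230) (.e (nat_lit 163868) (nat_lit 2) (.e (nat_lit 196623) (nat_lit 9) (.e (nat_lit 454) (nat_lit 34) (.e (nat_lit 450304) (nat_lit 18) .nil)))))) (.g (nat_lit 1) (.e (nat_lit 389413) (nat_lit 0) .nil) .nil)))) (.nd (nat_lit 9) 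
(.lf (nat_lit 585992) (.g (nat_lit 2159) (.e (nat_lit 393253) (nat_lit 18) (.e (nat_lit 164326) (nat_lit 230) (.e (nat_lit 163870) (nat_lit 2) (.e (nat_lit 196630) (nat_lit 9) (.e (nat_lit 7936) (nat_lit 34) (.e (nat_lit 450304) (nat_lit 18) .nil)))))) (.g (nat_lit 1) (.e (nat_lit 389133) (nat_lit 0) .nil) .nil))) 
(.lf (nat_lit 586504) (.g (nat_lit 3379) (.e (nat_lit 393268) (nat_lit 23) (.e (nat_lit 426436) (nat_lit 18) (.e (nat_lit 98335) (nat_lit 18) (.e (nat_lit 164331) (nat_lit 230) (.e (nat_lit 163904) (nat_lit 12) (.e (nat_lit 426566) (nat_lit 34) .nil)))))) (.g (nat_lit 1) (.e (nat_lit 389775) (nat_lit 0) .nil) .nil))))) (.nd (nat_lit 8) (.nd (nat_lit 9) 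
(.lf (nat_lit 585864) (.g (nat_lit 2117) (.e (nat_lit 393252) (nat_lit 18) (.e (nat_lit 164403) (nat_lit 256) (.e (nat_lit 57378) (nat_lit 3) (.e (nat_lit 98354) (nat_lit 26) .nil)))) (.g (nat_lit 0) (.e (nat_lit 388990) (nat_lit 0) .nil) .nil))) 
(.lf (nat_lit 586376) (.g (nat_lit 3161) (.e (nat_lit 393254) (nat_lit 18) (.e (nat_lit 164331) (nat_lit 230) (.e (nat_lit 163873) (nat_lit 3) (.e (nat_lit 204813) (nat_lit 9) (.e (nat_lit 426197) (nat_lit 9) .nil))))) (.g (nat_lit 0) (.e (nat_lit 389544) (nat_lit 0) .nil) .nil)))) (.nd (nat_lit 9) 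
(.lf (nat_lit 586120) (.g (nat_lit 3397) (.e (nat_lit 393253) (nat_lit 18) (.e (nat_lit 164330) (nat_lit 230) (.e (nat_lit 163874) (nat_lit 3) (.e (nat_lit 204813) (nat_lit 9) (.e (nat_lit 426198) (nat_lit 9) (.e (nat_lit 426566) (nat_lit 34) .nil)))))) (.g (nat_lit 1) (.e (nat_lit 389266) (nat_lit 0) .nil) .nil))) 
(.lf (nat_lit 586632) (.g (nat_lit 2717) (.e (nat_lit 393271) (nat_lit 23) (.e (nat_lit 426438) (nat_lit 18) (.e (nat_lit 98333) (nat_lit 18) (.e (nat_lit 164332) (nat_lit 230) (.e (nat_lit 163902) (nat_lit 12) (.e (nat_lit 426566) (nat_lit 34) .nil)))))) (.g (nat_lit 1) (.e (nat_lit 389908) (nat_lit 0) .nil) .nil)))))) (.nd (nat_lit 7) (.nd (nat_lit 8) (.nd (nat_lit 9) 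
(.lf (nat_lit 585800) (.g (nat_lit 1727) (.e (nat_lit 393252) (nat_lit 18) (.e (nat_lit 164332) (nat_lit 230) (.e (nat_lit 163867) (nat_lit 2) (.e (nat_lit 196624) (nat_lit 9) (.e (nat_lit 388) (nat_lit 32) .nil))))) (.g (nat_lit 0) (.e (nat_lit 388911) (nat_lit 0) .nil) .nil))) 
(.lf (nat_lit 586312) (.g (nat_lit 1690) (.e (nat_lit 393254) (nat_lit 18) (.e (nat_lit 164326) (nat_lit 230) (.e (nat_lit 163873) (nat_lit 3) (.e (nat_lit 204811) (nat_lit 9) (.e (nat_lit 426234) (nat_lit 9) (.e (nat_lit 426565) (nat_lit 34) .nil)))))) (.g (nat_lit 1) (.e (nat_lit 389478) (nat_lit 0) .nil) .nil)))) (.nd (nat_lit 9) 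
(.lf (nat_lit 586056) (.g (nat_lit 2810) (.e (nat_lit 393253) (nat_lit 18) (.e (nat_lit 164327) (nat_lit 230) (.e (nat_lit 163871) (nat_lit 2) (.e (nat_lit 196624) (nat_lit 9) (.e (nat_lit 389) (nat_lit 32) .nil))))) (.g (nat_lit 0) (.e (nat_lit 389200) (nat_lit 0) .nil) .nil))) 
(.lf (nat_lit 586568) (.g (nat_lit 3611) (.e (nat_lit 393270) (nat_lit 23) (.e (nat_lit 426436) (nat_lit 18) (.e (nat_lit 98335) (nat_lit 18) (.e (nat_lit 164332) (nat_lit 230) (.e (nat_lit 163902) (nat_lit 12) (.e (nat_lit 426566) (nat_lit 34) .nil)))))) (.g (nat_lit 1) (.e (nat_lit 389841) (nat_lit 0) .nil) .nil))))) (.nd (nat_lit 8) (.nd (nat_lit 9) 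
(.lf (nat_lit 585928) (.g (nat_lit 2445) (.e (nat_lit 393253) (nat_lit 18) (.e (nat_lit 164325) (nat_lit 230) (.e (nat_lit 163874) (nat_lit 3) (.e (nat_lit 204809) (nat_lit 9) (.e (nat_lit 426188) (nat_lit 9) .nil))))) (.g (nat_lit 0) (.e (nat_lit 389067) (nat_lit 0) .nil) .nil))) 
(.lf (nat_lit 586440) (.g (nat_lit 3709) (.e (nat_lit 393254) (nat_lit 18) (.e (nat_lit 164332) (nat_lit 230) (.e (nat_lit 163874) (nat_lit 3) (.e (nat_lit 204813) (nat_lit 9) (.e (nat_lit 426188) (nat_lit 9) (.e (nat_lit 426566) (nat_lit 34) .nil)))))) (.g (nat_lit 1) (.e (nat_lit 389621) (nat_lit 0) .nil) .nil)))) (.nd (nat_lit 9) 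
(.lf (nat_lit 586184) (.g (nat_lit 2423) (.e (nat_lit 393254) (nat_lit 18) (.e (nat_lit 164322) (nat_lit 230) (.e (nat_lit 163867) (nat_lit 2) (.e (nat_lit 196624) (nat_lit 9) (.e (nat_lit 459) (nat_lit 34) (.e (nat_lit 450304) (nat_lit 18) .nil)))))) (.g (nat_lit 1) (.e (nat_lit 389346) (nat_lit 0) .nil) .nil))) 
(.lf (nat_lit 586696) (.g (nat_lit 5297) (.e (nat_lit 393273) (nat_lit 23) (.e (nat_lit 426436) (nat_lit 18) (.e (nat_lit 98335) (nat_lit 18) (.e (nat_lit 164403) (nat_lit 256) .nil)))) (.g (nat_lit 0) (.e (nat_lit 389973) (nat_lit 0) .nil) .nil))))))) (.nd (nat_lit 6) (.nd (nat_lit 7) (.nd (nat_lit 8) (.nd (nat_lit 9) 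
(.lf (nat_lit 585768) (.g (nat_lit 2618) (.e (nat_lit 393251) (nat_lit 18) (.e (nat_lit 164403) (nat_lit 256) (.e (nat_lit 57378) (nat_lit 3) (.e (nat_lit 98363) (nat_lit 26) (.e (nat_lit 426228) (nat_lit 9) (.e (nat_lit 426565) (nat_lit 34) .nil)))))) (.g (nat_lit 1) (.e (nat_lit 388876) (nat_lit 0) .nil) .nil))) 
(.lf (nat_lit 586280) (.g (nat_lit 1903) (.e (nat_lit 393254) (nat_lit 18) (.e (nat_lit 164326) (nat_lit 230) (.e (nat_lit 163870) (nat_lit 2) (.e (nat_lit 196630) (nat_lit 9) (.e (nat_lit 428) (nat_lit 32) (.e (nat_lit 426234) (nat_lit 9) (.e (nat_lit 426565) (nat_lit 34) .nil))))))) (.g (nat_lit 1) (.e (nat_lit 389446) (nat_lit 0) .nil) .nil)))) (.nd (nat_lit 9) 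
(.lf (nat_lit 586024) (.g (nat_lit 1649) (.e (nat_lit 393253) (nat_lit 18) (.e (nat_lit 164326) (nat_lit 230) (.e (nat_lit 163873) (nat_lit 3) (.e (nat_lit 204811) (nat_lit 9) (.e (nat_lit 426259) (nat_lit 9) (.e (nat_lit 426565) (nat_lit 34) .nil)))))) (.g (nat_lit 1) (.e (nat_lit 389166) (nat_lit 0) .nil) .nil))) 
(.lf (nat_lit 586536) (.g (nat_lit 2325) (.e (nat_lit 393270) (nat_lit 23) (.e (nat_lit 426436) (nat_lit 18) (.e (nat_lit 98333) (nat_lit 18) (.e (nat_lit 164325) (nat_lit 230) (.e (nat_lit 163901) (nat_lit 12) (.e (nat_lit 426566) (nat_lit 34) .nil)))))) (.g (nat_lit 1) (.e (nat_lit 389809) (nat_lit 0) .nil) .nil))))) (.nd (nat_lit 8) (.nd (nat_lit 9) 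
(.lf (nat_lit 585896) (.g (nat_lit 1497) (.e (nat_lit 393253) (nat_lit 18) (.e (nat_lit 164324) (nat_lit 230) (.e (nat_lit 163875) (nat_lit 3) (.e (nat_lit 212736) (nat_lit 9) .nil)))) (.g (nat_lit 0) (.e (nat_lit 389033) (nat_lit 0) .nil) .nil))) 
(.lf (nat_lit 586408) (.g (nat_lit 1685) (.e (nat_lit 393254) (nat_lit 18) (.e (nat_lit 164332) (nat_lit 230) (.e (nat_lit 163869) (nat_lit 2) (.e (nat_lit 196626) (nat_lit 9) (.e (nat_lit 7936) (nat_lit 34) (.e (nat_lit 450304) (nat_lit 18) .nil)))))) (.g (nat_lit 1) (.e (nat_lit 389589) (nat_lit 0) .nil) .nil)))) (.nd (nat_lit 9) 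
(.lf (nat_lit 586152) (.g (nat_lit 2355) (.e (nat_lit 393253) (nat_lit 18) (.e (nat_lit 164332) (nat_lit 230) (.e (nat_lit 163869) (nat_lit 2) (.e (nat_lit 196625) (nat_lit 9) .nil)))) (.g (nat_lit 0) (.e (nat_lit 389298) (nat_lit 0) .nil) .nil))) 
(.lf (nat_lit 586664) (.g (nat_lit 3554) (.e (nat_lit 393272) (nat_lit 23) (.e (nat_lit 426438) (nat_lit 18) (.e (nat_lit 98333) (nat_lit 18) (.e (nat_lit 164325) (nat_lit 230) (.e (nat_lit 163903) (nat_lit 12) (.e (nat_lit 426566) (nat_lit 34) .nil)))))) (.g (nat_lit 1) (.e (nat_lit 389940) (nat_lit 0) .nil) .nil)))))) (.nd (nat_lit 7) (.nd (nat_lit 8) (.nd (nat_lit 9) 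
(.lf (nat_lit 585832) (.g (nat_lit 2455) (.e (nat_lit 393252) (nat_lit 18) (.e (nat_lit 164332) (nat_lit 230) (.e (nat_lit 163869) (nat_lit 2) (.e (nat_lit 196630) (nat_lit 9) (.e (nat_lit 430) (nat_lit 32) .nil))))) (.g (nat_lit 0) (.e (nat_lit 388944) (nat_lit 0) .nil) .nil))) 
(.lf (nat_lit 586344) (.g (nat_lit 3915) (.e (nat_lit 393254) (nat_lit 18) (.e (nat_lit 164327) (nat_lit 230) (.e (nat_lit 163873) (nat_lit 3) (.e (nat_lit 204813) (nat_lit 9) (.e (nat_lit 426188) (nat_lit 9) (.e (nat_lit 426566) (nat_lit 34) .nil)))))) (.g (nat_lit 1) (.e (nat_lit 389510) (nat_lit 0) .nil) .nil)))) (.nd (nat_lit 9) 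
(.lf (nat_lit 586088) (.g (nat_lit 895) (.e (nat_lit 393253) (nat_lit 18) (.e (nat_lit 164329) (nat_lit 230) (.e (nat_lit 163867) (nat_lit 2) (.e (nat_lit 196624) (nat_lit 9) .nil)))) (.g (nat_lit 0) (.e (nat_lit 389234) (nat_lit 0) .nil) .nil))) 
(.lf (nat_lit 586600) (.g (nat_lit 3792) (.e (nat_lit 393271) (nat_lit 23) (.e (nat_lit 426131) (nat_lit 3) (.e (nat_lit 204829) (nat_lit 18) (.e (nat_lit 57692) (nat_lit 156) (.e (nat_lit 163905) (nat_lit 12) (.e (nat_lit 426568) (nat_lit 34) .nil)))))) (.g (nat_lit 1) (.e (nat_lit 389874) (nat_lit 0) .nil) .nil))))) (.nd (nat_lit 8) (.nd (nat_lit 9) 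
(.lf (nat_lit 585960) (.g (nat_lit 2088) (.e (nat_lit 393253) (nat_lit 18) (.e (nat_lit 164326) (nat_lit 230) (.e (nat_lit 163868) (nat_lit 2) (.e (nat_lit 196626) (nat_lit 9) (.e (nat_lit 393) (nat_lit 32) (.e (nat_lit 426188) (nat_lit 9) (.e (nat_lit 426566) (nat_lit 34) .nil))))))) (.g (nat_lit 1) (.e (nat_lit 389100) (nat_lit 0) .nil) .nil))) 
(.lf (nat_lit 586472) (.g (nat_lit 2153) (.e (nat_lit 393266) (nat_lit 23) (.e (nat_lit 426109) (nat_lit 1) (.e (nat_lit 164347) (nat_lit 240) (.e (nat_lit 2638) (nat_lit 165) (.e (nat_lit 180277) (nat_lit 32) (.e (nat_lit 1658) (nat_lit 115) .nil)))))) (.g (nat_lit 1) (.e (nat_lit 389736) (nat_lit 0) .nil) .nil)))) (.nd (nat_lit 9) 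
(.lf (nat_lit 586216) (.g (nat_lit 1828) (.e (nat_lit 393254) (nat_lit 18) (.e (nat_lit 164325) (nat_lit 230) (.e (nat_lit 163868) (nat_lit 2) (.e (nat_lit 196624) (nat_lit 9) (.e (nat_lit 433) (nat_lit 32) .nil))))) (.g (nat_lit 0) (.e (nat_lit 389381) (nat_lit 0) .nil) .nil))) 
(.lf (nat_lit 586728) (.g (nat_lit 1919) (.e (nat_lit 393280) (nat_lit 23) (.e (nat_lit 426100) (nat_lit 1) (.e (nat_lit 164332) (nat_lit 230) (.e (nat_lit 163880) (nat_lit 4) .nil)))) (.g (nat_lit 0) (.e (nat_lit 390031) (nat_lit 0) .nil) .nil)))))))) (.nd (nat_lit 5) (.nd (nat_lit 6) (.nd (nat_lit 7) (.nd (nat_lit 8) (.nd (nat_lit 9) 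
(.lf (nat_lit 585752) (.g (nat_lit 1840) (.e (nat_lit 393251) (nat_lit 18) (.e (nat_lit 164332) (nat_lit 230) (.e (nat_lit 163874) (nat_lit 3) (.e (nat_lit 204813) (nat_lit 9) (.e (nat_lit 426197) (nat_lit 9) .nil))))) (.g (nat_lit 0) (.e (nat_lit 388845) (nat_lit 0) .nil) .nil))) 
(.lf (nat_lit 586264) (.g (nat_lit 2231) (.e (nat_lit 393254) (nat_lit 18) (.e (nat_lit 164326) (nat_lit 230) (.e (nat_lit 163868) (nat_lit 2) (.e (nat_lit 196631) (nat_lit 9) .nil)))) (.g (nat_lit 0) (.e (nat_lit 389429) (nat_lit 0) .nil) .nil)))) (.nd (nat_lit 9) 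
(.lf (nat_lit 586008) (.g (nat_lit 2479) (.e (nat_lit 393253) (nat_lit 18) (.e (nat_lit 164326) (nat_lit 230) (.e (nat_lit 163871) (nat_lit 2) (.e (nat_lit 196624) (nat_lit 9) (.e (nat_lit 454) (nat_lit 34) (.e (nat_lit 450304) (nat_lit 18) .nil)))))) (.g (nat_lit 1) (.e (nat_lit 389149) (nat_lit 0) .nil) .nil))) 
(.lf (nat_lit 586520) (.g (nat_lit 3598) (.e (nat_lit 393268) (nat_lit 23) (.e (nat_lit 426438) (nat_lit 18) (.e (nat_lit 98335) (nat_lit 18) (.e (nat_lit 164325) (nat_lit 230) (.e (nat_lit 163903) (nat_lit 12) (.e (nat_lit 426566) (nat_lit 34) .nil)))))) (.g (nat_lit 1) (.e (nat_lit 389791) (nat_lit 0) .nil) .nil))))) (.nd (nat_lit 8) (.nd (nat_lit 9) 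
(.lf (nat_lit 585880) (.g (nat_lit 2521) (.e (nat_lit 393253) (nat_lit 18) (.e (nat_lit 164324) (nat_lit 230) (.e (nat_lit 163868) (nat_lit 2) (.e (nat_lit 196624) (nat_lit 9) (.e (nat_lit 479) (nat_lit 37) (.e (nat_lit 474880) (nat_lit 18) .nil)))))) (.g (nat_lit 1) (.e (nat_lit 389017) (nat_lit 0) .nil) .nil))) 
(.lf (nat_lit 586392) (.g (nat_lit 2241) (.e (nat_lit 393254) (nat_lit 18) (.e (nat_lit 164332) (nat_lit 230) (.e (nat_lit 163869) (nat_lit 2) (.e (nat_lit 196619) (nat_lit 9) (.e (nat_lit 455) (nat_lit 34) (.e (nat_lit 450304) (nat_lit 18) .nil)))))) (.g (nat_lit 1) (.e (nat_lit 389573) (nat_lit 0) .nil) .nil)))) (.nd (nat_lit 9) 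
(.lf (nat_lit 586136) (.g (nat_lit 2192) (.e (nat_lit 393253) (nat_lit 18) (.e (nat_lit 164332) (nat_lit 230) (.e (nat_lit 163869) (nat_lit 2) (.e (nat_lit 196620) (nat_lit 9) .nil)))) (.g (nat_lit 0) (.e (nat_lit 389282) (nat_lit 0) .nil) .nil))) 
(.lf (nat_lit 586648) (.g (nat_lit 1931) (.e (nat_lit 393272) (nat_lit 23) (.e (nat_lit 426131) (nat_lit 3) (.e (nat_lit 204831) (nat_lit 18) (.e (nat_lit 57667) (nat_lit 152) (.e (nat_lit 2619) (nat_lit 164) (.e (nat_lit 179968) (nat_lit 34) .nil)))))) (.g (nat_lit 1) (.e (nat_lit 389924) (nat_lit 0) .nil) .nil)))))) (.nd (nat_lit 7) (.nd (nat_lit 8) (.nd (nat_lit 9) 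
(.lf (nat_lit 585816) (.g (nat_lit 2552) (.e (nat_lit 393252) (nat_lit 18) (.e (nat_lit 164332) (nat_lit 230) (.e (nat_lit 163869) (nat_lit 2) (.e (nat_lit 196624) (nat_lit 9) (.e (nat_lit 389) (nat_lit 32) (.e (nat_lit 426190) (nat_lit 9) (.e (nat_lit 426566) (nat_lit 34) .nil))))))) (.g (nat_lit 1) (.e (nat_lit 388928) (nat_lit 0) .nil) .nil))) 
(.lf (nat_lit 586328) (.g (nat_lit 2457) (.e (nat_lit 393254) (nat_lit 18) (.e (nat_lit 164327) (nat_lit 230) (.e (nat_lit 163868) (nat_lit 2) (.e (nat_lit 196624) (nat_lit 9) (.e (nat_lit 479) (nat_lit 37) (.e (nat_lit 474880) (nat_lit 18) .nil)))))) (.g (nat_lit 1) (.e (nat_lit 389494) (nat_lit 0) .nil) .nil)))) (.nd (nat_lit 9) 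
(.lf (nat_lit 586072) (.g (nat_lit 1682) (.e (nat_lit 393253) (nat_lit 18) (.e (nat_lit 164327) (nat_lit 230) (.e (nat_lit 163873) (nat_lit 3) (.e (nat_lit 204811) (nat_lit 9) (.e (nat_lit 426261) (nat_lit 9) (.e (nat_lit 433920) (nat_lit 34) .nil)))))) (.g (nat_lit 1) (.e (nat_lit 389216) (nat_lit 0) .nil) .nil))) 
(.lf (nat_lit 586584) (.g (nat_lit 2757) (.e (nat_lit 393271) (nat_lit 23) (.e (nat_lit 426112) (nat_lit 1) (.e (nat_lit 164327) (nat_lit 230) (.e (nat_lit 163879) (nat_lit 4) (.e (nat_lit 213030) (nat_lit 11) (.e (nat_lit 24659) (nat_lit 13) .nil)))))) (.g (nat_lit 1) (.e (nat_lit 389857) (nat_lit 0) .nil) .nil))))) (.nd (nat_lit 8) (.nd (nat_lit 9) 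
(.lf (nat_lit 585944) (.g (nat_lit 1428) (.e (nat_lit 393253) (nat_lit 18) (.e (nat_lit 164326) (nat_lit 230) (.e (nat_lit 163868) (nat_lit 2) (.e (nat_lit 196617) (nat_lit 9) (.e (nat_lit 455) (nat_lit 34) (.e (nat_lit 450304) (nat_lit 18) .nil)))))) (.g (nat_lit 1) (.e (nat_lit 389084) (nat_lit 0) .nil) .nil))) 
(.lf (nat_lit 586456) (.g (nat_lit 490) (.e (nat_lit 393259) (nat_lit 21) (.e (nat_lit 409618) (nat_lit 10) (.e (nat_lit 5364) (nat_lit 298) .nil))) (.g (nat_lit 0) (.e (nat_lit 389701) (nat_lit 0) .nil) .nil)))) (.nd (nat_lit 9) 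
(.lf (nat_lit 586200) (.g (nat_lit 1926) (.e (nat_lit 393254) (nat_lit 18) (.e (nat_lit 164324) (nat_lit 230) (.e (nat_lit 163868) (nat_lit 2) (.e (nat_lit 196624) (nat_lit 9) (.e (nat_lit 433) (nat_lit 32) .nil))))) (.g (nat_lit 0) (.e (nat_lit 389362) (nat_lit 0) .nil) .nil))) 
(.lf (nat_lit 586712) (.g (nat_lit 976) (.e (nat_lit 393277) (nat_lit 23) (.e (nat_lit 426140) (nat_lit 3) (.e (nat_lit 204828) (nat_lit 18) .nil))) (.g (nat_lit 0) (.e (nat_lit 390009) (nat_lit 0) .nil) .nil))))))) (.nd (nat_lit 6) (.nd (nat_lit 7) (.nd (nat_lit 8) (.nd (nat_lit 9) 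
(.lf (nat_lit 585784) (.g (nat_lit 2081) (.e (nat_lit 393252) (nat_lit 18) (.e (nat_lit 164330) (nat_lit 230) (.e (nat_lit 163869) (nat_lit 2) (.e (nat_lit 196656) (nat_lit 11) (.e (nat_lit 16444) (nat_lit 9) .nil))))) (.g (nat_lit 0) (.e (nat_lit 388895) (nat_lit 0) .nil) .nil))) 
(.lf (nat_lit 586296) (.g (nat_lit 1947) (.e (nat_lit 393254) (nat_lit 18) (.e (nat_lit 164326) (nat_lit 230) (.e (nat_lit 163871) (nat_lit 2) (.e (nat_lit 196624) (nat_lit 9) (.e (nat_lit 457) (nat_lit 34) (.e (nat_lit 450304) (nat_lit 18) .nil)))))) (.g (nat_lit 1) (.e (nat_lit 389462) (nat_lit 0) .nil) .nil)))) (.nd (nat_lit 9) 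
(.lf (nat_lit 586040) (.g (nat_lit 2942) (.e (nat_lit 393253) (nat_lit 18) (.e (nat_lit 164327) (nat_lit 230) (.e (nat_lit 163868) (nat_lit 2) (.e (nat_lit 196624) (nat_lit 9) (.e (nat_lit 455) (nat_lit 34) (.e (nat_lit 450304) (nat_lit 18) .nil)))))) (.g (nat_lit 1) (.e (nat_lit 389184) (nat_lit 0) .nil) .nil))) 
(.lf (nat_lit 586552) (.g (nat_lit 3430) (.e (nat_lit 393270) (nat_lit 23) (.e (nat_lit 426436) (nat_lit 18) (.e (nat_lit 98334) (nat_lit 18) (.e (nat_lit 164332) (nat_lit 230) (.e (nat_lit 163902) (nat_lit 12) (.e (nat_lit 426566) (nat_lit 34) .nil)))))) (.g (nat_lit 1) (.e (nat_lit 389825) (nat_lit 0) .nil) .nil))))) (.nd (nat_lit 8) (.nd (nat_lit 9) 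
(.lf (nat_lit 585912) (.g (nat_lit 2391) (.e (nat_lit 393253) (nat_lit 18) (.e (nat_lit 164325) (nat_lit 230) (.e (nat_lit 163869) (nat_lit 2) (.e (nat_lit 196656) (nat_lit 11) (.e (nat_lit 16433) (nat_lit 9) .nil))))) (.g (nat_lit 0) (.e (nat_lit 389051) (nat_lit 0) .nil) .nil))) 
(.lf (nat_lit 586424) (.g (nat_lit 3626) (.e (nat_lit 393254) (nat_lit 18) (.e (nat_lit 164332) (nat_lit 230) (.e (nat_lit 163869) (nat_lit 2) (.e (nat_lit 196640) (nat_lit 9) .nil)))) (.g (nat_lit 0) (.e (nat_lit 389605) (nat_lit 0) .nil) .nil)))) (.nd (nat_lit 9) 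
(.lf (nat_lit 586168) (.g (nat_lit 2020) (.e (nat_lit 393253) (nat_lit 18) (.e (nat_lit 164332) (nat_lit 230) (.e (nat_lit 163874) (nat_lit 3) (.e (nat_lit 204811) (nat_lit 9) (.e (nat_lit 426262) (nat_lit 9) (.e (nat_lit 433920) (nat_lit 34) .nil)))))) (.g (nat_lit 1) (.e (nat_lit 389314) (nat_lit 0) .nil) .nil))) 
(.lf (nat_lit 586680) (.g (nat_lit 4115) (.e (nat_lit 393273) (nat_lit 23) (.e (nat_lit 426436) (nat_lit 18) (.e (nat_lit 98333) (nat_lit 18) (.e (nat_lit 164325) (nat_lit 230) (.e (nat_lit 163903) (nat_lit 12) (.e (nat_lit 426566) (nat_lit 34) .nil)))))) (.g (nat_lit 1) (.e (nat_lit 389957) (nat_lit 0) .nil) .nil)))))) (.nd (nat_lit 7) (.nd (nat_lit 8) (.nd (nat_lit 9) 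
(.lf (nat_lit 585848) (.g (nat_lit 1130) (.e (nat_lit 393252) (nat_lit 18) (.e (nat_lit 164332) (nat_lit 230) (.e (nat_lit 163874) (nat_lit 3) (.e (nat_lit 204813) (nat_lit 9) .nil)))) (.g (nat_lit 0) (.e (nat_lit 388960) (nat_lit 0) .nil) .nil))) 
(.lf (nat_lit 586360) (.g (nat_lit 1469) (.e (nat_lit 393254) (nat_lit 18) (.e (nat_lit 164329) (nat_lit 230) (.e (nat_lit 163873) (nat_lit 3) (.e (nat_lit 204811) (nat_lit 9) (.e (nat_lit 426228) (nat_lit 9) (.e (nat_lit 426565) (nat_lit 34) .nil)))))) (.g (nat_lit 1) (.e (nat_lit 389528) (nat_lit 0) .nil) .nil)))) (.nd (nat_lit 9) 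
(.lf (nat_lit 586104) (.g (nat_lit 3956) (.e (nat_lit 393253) (nat_lit 18) (.e (nat_lit 164329) (nat_lit 230) (.e (nat_lit 163873) (nat_lit 3) (.e (nat_lit 204813) (nat_lit 9) (.e (nat_lit 426196) (nat_lit 9) .nil))))) (.g (nat_lit 0) (.e (nat_lit 389250) (nat_lit 0) .nil) .nil))) 
(.lf (nat_lit 586616) (.g (nat_lit 2570) (.e (nat_lit 393271) (nat_lit 23) (.e (nat_lit 426436) (nat_lit 18) (.e (nat_lit 98333) (nat_lit 18) (.e (nat_lit 164329) (nat_lit 230) (.e (nat_lit 163904) (nat_lit 12) (.e (nat_lit 426566) (nat_lit 34) .nil)))))) (.g (nat_lit 1) (.e (nat_lit 389892) (nat_lit 0) .nil) .nil))))) (.nd (nat_lit 8) (.nd (nat_lit 9) 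
(.lf (nat_lit 585976) (.g (nat_lit 2174) (.e (nat_lit 393253) (nat_lit 18) (.e (nat_lit 164326) (nat_lit 230) (.e (nat_lit 163868) (nat_lit 2) (.e (nat_lit 196643) (nat_lit 9) .nil)))) (.g (nat_lit 0) (.e (nat_lit 389117) (nat_lit 0) .nil) .nil))) 
(.lf (nat_lit 586488) (.g (nat_lit 2841) (.e (nat_lit 393268) (nat_lit 23) (.e (nat_lit 426436) (nat_lit 18) (.e (nat_lit 98333) (nat_lit 18) (.e (nat_lit 164329) (nat_lit 230) (.e (nat_lit 163902) (nat_lit 12) (.e (nat_lit 426566) (nat_lit 34) .nil)))))) (.g (nat_lit 1) (.e (nat_lit 389759) (nat_lit 0) .nil) .nil)))) (.nd (nat_lit 9) 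
(.lf (nat_lit 586232) (.g (nat_lit 956) (.e (nat_lit 393254) (nat_lit 18) (.e (nat_lit 164325) (nat_lit 230) (.e (nat_lit 163873) (nat_lit 3) (.e (nat_lit 212736) (nat_lit 9) .nil)))) (.g (nat_lit 0) (.e (nat_lit 389397) (nat_lit 0) .nil) .nil))) 
(.lf (nat_lit 586744) (.g (nat_lit 2406) (.e (nat_lit 393281) (nat_lit 23) (.e (nat_lit 426098) (nat_lit 1) (.e (nat_lit 164327) (nat_lit 230) (.e (nat_lit 163879) (nat_lit 4) (.e (nat_lit 213030) (nat_lit 11) (.e (nat_lit 24660) (nat_lit 13) .nil)))))) (.g (nat_lit 1) (.e (nat_lit 390051) (nat_lit 0) .nil) .nil)))))))))) 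
(.nd (nat_lit 3) (.nd (nat_lit 4) (.nd (nat_lit 5) (.nd (nat_lit 6) (.nd (nat_lit 7) 
(.nd (nat_lit 8) (.nd (nat_lit 9) 
(.lf (nat_lit 585732) (.g (nat_lit 2430) (.e (nat_lit 393251) (nat_lit 18) (.e (nat_lit 164332) (nat_lit 230) (.e (nat_lit 163869) (nat_lit 2) (.e (nat_lit 196624) (nat_lit 9) (.e (nat_lit 433) (nat_lit 32) (.e (nat_lit 426228) (nat_lit 9) (.e (nat_lit 426565) (nat_lit 34) .nil))))))) (.g (nat_lit 1) (.e (nat_lit 388825) (nat_lit 0) .nil) .nil))) 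
(.lf (nat_lit 586244) (.g (nat_lit 2122) (.e (nat_lit 393254) (nat_lit 18) (.e (nat_lit 164326) (nat_lit 230) (.e (nat_lit 163868) (nat_lit 2) (.e (nat_lit 196619) (nat_lit 9) (.e (nat_lit 457) (nat_lit 34) (.e (nat_lit 450304) (nat_lit 18) .nil)))))) (.g (nat_lit 1) (.e (nat_lit 389409) (nat_lit 0) .nil) .nil)))) (.nd (nat_lit 9) 
(.lf (nat_lit 585988) (.g (nat_lit 2038) (.e (nat_lit 393253) (nat_lit 18) (.e (nat_lit 164326) (nat_lit 230) (.e (nat_lit 163870) (nat_lit 2) (.e (nat_lit 196628) (nat_lit 9) (.e (nat_lit 478) (nat_lit 37) (.e (nat_lit 474880) (nat_lit 18) .nil)))))) (.g (nat_lit 1) (.e (nat_lit 389129) (nat_lit 0) .nil) .nil))) 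
(.lf (nat_lit 586500) (.g (nat_lit 3859) (.e (nat_lit 393268) (nat_lit 23) (.e (nat_lit 426436) (nat_lit 18) (.e (nat_lit 98335) (nat_lit 18) (.e (nat_lit 164314) (nat_lit 226) .nil)))) (.g (nat_lit 0) (.e (nat_lit 389771) (nat_lit 0) .nil) .nil))))) (.nd (nat_lit 8) (.nd (nat_lit 9) 
(.lf (nat_lit 585860) (.g (nat_lit 1799) (.e (nat_lit 393252) (nat_lit 18) (.e (nat_lit 164399) (nat_lit 256) (.e (nat_lit 57378) (nat_lit 3) (.e (nat_lit 98354) (nat_lit 26) .nil)))) (.g (nat_lit 0) (.e (nat_lit 388985) (nat_lit 0) .nil) .nil))) 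
(.lf (nat_lit 586372) (.g (nat_lit 967) (.e (nat_lit 393254) (nat_lit 18) (.e (nat_lit 164331) (nat_lit 230) (.e (nat_lit 163873) (nat_lit 3) (.e (nat_lit 204811) (nat_lit 9) .nil)))) (.g (nat_lit 0) (.e (nat_lit 389540) (nat_lit 0) .nil) .nil)))) (.nd (nat_lit 9) 
(.lf (nat_lit 586116) (.g (nat_lit 3441) (.e (nat_lit 393253) (nat_lit 18) (.e (nat_lit 164330) (nat_lit 230) (.e (nat_lit 163873) (nat_lit 3) (.e (nat_lit 204813) (nat_lit 9) (.e (nat_lit 426190) (nat_lit 9) (.e (nat_lit 426566) (nat_lit 34) .nil)))))) (.g (nat_lit 1) (.e (nat_lit 389262) (nat_lit 0) .nil) .nil))) 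
(.lf (nat_lit 586628) (.g (nat_lit 2851) (.e (nat_lit 393271) (nat_lit 23) (.e (nat_lit 426436) (nat_lit 18) (.e (nat_lit 98335) (nat_lit 18) (.e (nat_lit 164332) (nat_lit 230) (.e (nat_lit 163902) (nat_lit 12) (.e (nat_lit 426567) (nat_lit 34) .nil)))))) (.g (nat_lit 1) (.e (nat_lit 389904) (nat_lit 0) .nil) .nil)))))) (.nd (nat_lit 7) (.nd (nat_lit 8) (.nd (nat_lit 9) 
(.lf (nat_lit 585796) (.g (nat_lit 2236) (.e (nat_lit 393252) (nat_lit 18) (.e (nat_lit 164331) (nat_lit 230) (.e (nat_lit 163873) (nat_lit 3) (.e (nat_lit 204813) (nat_lit 9) (.e (nat_lit 426190) (nat_lit 9) .nil))))) (.g (nat_lit 0) (.e (nat_lit 388907) (nat_lit 0) .nil) .nil))) 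
(.lf (nat_lit 586308) (.g (nat_lit 2364) (.e (nat_lit 393254) (nat_lit 18) (.e (nat_lit 164326) (nat_lit 230) (.e (nat_lit 163871) (nat_lit 2) (.e (nat_lit 196656) (nat_lit 11) (.e (nat_lit 16444) (nat_lit 9) (.e (nat_lit 426565) (nat_lit 34) .nil)))))) (.g (nat_lit 1) (.e (nat_lit 389474) (nat_lit 0) .nil) .nil)))) (.nd (nat_lit 9) 
(.lf (nat_lit 586052) (.g (nat_lit 2565) (.e (nat_lit 393253) (nat_lit 18) (.e (nat_lit 164327) (nat_lit 230) (.e (nat_lit 163870) (nat_lit 2) (.e (nat_lit 196628) (nat_lit 9) (.e (nat_lit 425) (nat_lit 32) .nil))))) (.g (nat_lit 0) (.e (nat_lit 389196) (nat_lit 0) .nil) .nil))) 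
(.lf (nat_lit 586564) (.g (nat_lit 3366) (.e (nat_lit 393270) (nat_lit 23) (.e (nat_lit 426436) (nat_lit 18) (.e (nat_lit 98335) (nat_lit 18) (.e (nat_lit 164327) (nat_lit 230) (.e (nat_lit 163903) (nat_lit 12) (.e (nat_lit 426567) (nat_lit 34) .nil)))))) (.g (nat_lit 1) (.e (nat_lit 389837) (nat_lit 0) .nil) .nil))))) (.nd (nat_lit 8) (.nd (nat_lit 9) 
(.lf (nat_lit 585924) (.g (nat_lit 1674) (.e (nat_lit 393253) (nat_lit 18) (.e (nat_lit 164325) (nat_lit 230) (.e (nat_lit 163873) (nat_lit 3) (.e (nat_lit 204811) (nat_lit 9) (.e (nat_lit 426262) (nat_lit 9) (.e (nat_lit 433920) (nat_lit 34) .nil)))))) (.g (nat_lit 1) (.e (nat_lit 389063) (nat_lit 0) .nil) .nil))) 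
(.lf (nat_lit 586436) (.g (nat_lit 1748) (.e (nat_lit 393254) (nat_lit 18) (.e (nat_lit 164332) (nat_lit 230) (.e (nat_lit 163874) (nat_lit 3) (.e (nat_lit 204811) (nat_lit 9) (.e (nat_lit 426228) (nat_lit 9) (.e (nat_lit 426565) (nat_lit 34) .nil)))))) (.g (nat_lit 1) (.e (nat_lit 389617) (nat_lit 0) .nil) .nil)))) (.nd (nat_lit 9) 
(.lf (nat_lit 586180) (.g (nat_lit 2554) (.e (nat_lit 393254) (nat_lit 18) (.e (nat_lit 164179) (nat_lit 154) (.e (nat_lit 57412) (nat_lit 12) (.e (nat_lit 336295) (nat_lit 15) (.e (nat_lit 3253) (nat_lit 197) (.e (nat_lit 532534) (nat_lit 9) (.e (nat_lit 336211) (nat_lit 13) .nil))))))) (.g (nat_lit 1) (.e (nat_lit 389340) (nat_lit 0) .nil) .nil))) 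
(.lf (nat_lit 586692) (.g (nat_lit 4274) (.e (nat_lit 393273) (nat_lit 23) (.e (nat_lit 426436) (nat_lit 18) (.e (nat_lit 98335) (nat_lit 18) (.e (nat_lit 171776) (nat_lit 226) .nil)))) (.g (nat_lit 0) (.e (nat_lit 389969) (nat_lit 0) .nil) .nil))))))) (.nd (nat_lit 6) (.nd (nat_lit 7) (.nd (nat_lit 8) (.nd (nat_lit 9) 
(.lf (nat_lit 585764) (.g (nat_lit 3619) (.e (nat_lit 393251) (nat_lit 18) (.e (nat_lit 164399) (nat_lit 256) (.e (nat_lit 57378) (nat_lit 3) (.e (nat_lit 98365) (nat_lit 26) (.e (nat_lit 426188) (nat_lit 9) (.e (nat_lit 426568) (nat_lit 34) .nil)))))) (.g (nat_lit 1) (.e (nat_lit 388867) (nat_lit 0) .nil) .nil))) 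
(.lf (nat_lit 586276) (.g (nat_lit 1445) (.e (nat_lit 393254) (nat_lit 18) (.e (nat_lit 164326) (nat_lit 230) (.e (nat_lit 163870) (nat_lit 2) (.e (nat_lit 196628) (nat_lit 9) .nil)))) (.g (nat_lit 0) (.e (nat_lit 389442) (nat_lit 0) .nil) .nil)))) (.nd (nat_lit 9) 
(.lf (nat_lit 586020) (.g (nat_lit 3472) (.e (nat_lit 393253) (nat_lit 18) (.e (nat_lit 164326) (nat_lit 230) (.e (nat_lit 163871) (nat_lit 2) (.e (nat_lit 196656) (nat_lit 11) (.e (nat_lit 16436) (nat_lit 9) (.e (nat_lit 426566) (nat_lit 34) .nil)))))) (.g (nat_lit 1) (.e (nat_lit 389162) (nat_lit 0) .nil) .nil))) 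
(.lf (nat_lit 586532) (.g (nat_lit 3044) (.e (nat_lit 393269) (nat_lit 23) (.e (nat_lit 426436) (nat_lit 18) (.e (nat_lit 98335) (nat_lit 18) (.e (nat_lit 164327) (nat_lit 230) (.e (nat_lit 163907) (nat_lit 12) .nil))))) (.g (nat_lit 0) (.e (nat_lit 389804) (nat_lit 0) .nil) .nil))))) (.nd (nat_lit 8) (.nd (nat_lit 9) 
(.lf (nat_lit 585892) (.g (nat_lit 1835) (.e (nat_lit 393253) (nat_lit 18) (.e (nat_lit 164324) (nat_lit 230) (.e (nat_lit 163874) (nat_lit 3) (.e (nat_lit 204808) (nat_lit 9) .nil)))) (.g (nat_lit 0) (.e (nat_lit 389029) (nat_lit 0) .nil) .nil))) 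
(.lf (nat_lit 586404) (.g (nat_lit 2341) (.e (nat_lit 393254) (nat_lit 18) (.e (nat_lit 164332) (nat_lit 230) (.e (nat_lit 163869) (nat_lit 2) (.e (nat_lit 196624) (nat_lit 9) (.e (nat_lit 7936) (nat_lit 34) (.e (nat_lit 450304) (nat_lit 18) .nil)))))) (.g (nat_lit 1) (.e (nat_lit 389585) (nat_lit 0) .nil) .nil)))) (.nd (nat_lit 9) 
(.lf (nat_lit 586148) (.g (nat_lit 2589) (.e (nat_lit 393253) (nat_lit 18) (.e (nat_lit 164332) (nat_lit 230) (.e (nat_lit 163869) (nat_lit 2) (.e (nat_lit 196624) (nat_lit 9) (.e (nat_lit 457) (nat_lit 34) (.e (nat_lit 450304) (nat_lit 18) .nil)))))) (.g (nat_lit 1) (.e (nat_lit 389294) (nat_lit 0) .nil) .nil))) 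
(.lf (nat_lit 586660) (.g (nat_lit 3327) (.e (nat_lit 393272) (nat_lit 23) (.e (nat_lit 426436) (nat_lit 18) (.e (nat_lit 98334) (nat_lit 18) (.e (nat_lit 164330) (nat_lit 230) (.e (nat_lit 163905) (nat_lit 12) (.e (nat_lit 426566) (nat_lit 34) .nil)))))) (.g (nat_lit 1) (.e (nat_lit 389936) (nat_lit 0) .nil) .nil)))))) (.nd (nat_lit 7) (.nd (nat_lit 8) (.nd (nat_lit 9) 
(.lf (nat_lit 585828) (.g (nat_lit 2331) (.e (nat_lit 393252) (nat_lit 18) (.e (nat_lit 164332) (nat_lit 230) (.e (nat_lit 163869) (nat_lit 2) (.e (nat_lit 196625) (nat_lit 9) .nil)))) (.g (nat_lit 0) (.e (nat_lit 388940) (nat_lit 0) .nil) .nil))) 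
(.lf (nat_lit 586340) (.g (nat_lit 1186) (.e (nat_lit 393254) (nat_lit 18) (.e (nat_lit 164327) (nat_lit 230) (.e (nat_lit 163873) (nat_lit 3) (.e (nat_lit 204811) (nat_lit 9) .nil)))) (.g (nat_lit 0) (.e (nat_lit 389506) (nat_lit 0) .nil) .nil)))) (.nd (nat_lit 9) 
(.lf (nat_lit 586084) (.g (nat_lit 2545) (.e (nat_lit 393253) (nat_lit 18) (.e (nat_lit 164327) (nat_lit 230) (.e (nat_lit 163875) (nat_lit 3) (.e (nat_lit 204809) (nat_lit 9) (.e (nat_lit 426197) (nat_lit 9) .nil))))) (.g (nat_lit 0) (.e (nat_lit 389228) (nat_lit 0) .nil) .nil))) 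
(.lf (nat_lit 586596) (.g (nat_lit 2496) (.e (nat_lit 393271) (nat_lit 23) (.e (nat_lit 426131) (nat_lit 3) (.e (nat_lit 204829) (nat_lit 18) (.e (nat_lit 57655) (nat_lit 152) (.e (nat_lit 2633) (nat_lit 164) (.e (nat_lit 179968) (nat_lit 34) .nil)))))) (.g (nat_lit 1) (.e (nat_lit 389870) (nat_lit 0) .nil) .nil))))) (.nd (nat_lit 8) (.nd (nat_lit 9) 
(.lf (nat_lit 585956) (.g (nat_lit 1980) (.e (nat_lit 393253) (nat_lit 18) (.e (nat_lit 164326) (nat_lit 230) (.e (nat_lit 163868) (nat_lit 2) (.e (nat_lit 196624) (nat_lit 9) (.e (nat_lit 7936) (nat_lit 34) (.e (nat_lit 450304) (nat_lit 18) .nil)))))) (.g (nat_lit 1) (.e (nat_lit 389096) (nat_lit 0) .nil) .nil))) 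
(.lf (nat_lit 586468) (.g (nat_lit 2272) (.e (nat_lit 393266) (nat_lit 23) (.e (nat_lit 426109) (nat_lit 1) (.e (nat_lit 164326) (nat_lit 230) (.e (nat_lit 163882) (nat_lit 4) (.e (nat_lit 213032) (nat_lit 11) (.e (nat_lit 24660) (nat_lit 13) .nil)))))) (.g (nat_lit 1) (.e (nat_lit 389729) (nat_lit 0) .nil) .nil)))) (.nd (nat_lit 9) 
(.lf (nat_lit 586212) (.g (nat_lit 2953) (.e (nat_lit 393254) (nat_lit 18) (.e (nat_lit 164324) (nat_lit 230) (.e (nat_lit 163873) (nat_lit 3) (.e (nat_lit 204813) (nat_lit 9) (.e (nat_lit 426199) (nat_lit 9) .nil))))) (.g (nat_lit 0) (.e (nat_lit 389374) (nat_lit 0) .nil) .nil))) 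
(.lf (nat_lit 586724) (.g (nat_lit 1591) (.e (nat_lit 393279) (nat_lit 23) (.e (nat_lit 426110) (nat_lit 1) (.e (nat_lit 164348) (nat_lit 240) (.e (nat_lit 2640) (nat_lit 165) (.e (nat_lit 180277) (nat_lit 32) (.e (nat_lit 1658) (nat_lit 115) .nil)))))) (.g (nat_lit 1) (.e (nat_lit 390026) (nat_lit 0) .nil) .nil)))))))) 
(.nd (nat_lit 5) (.nd (nat_lit 6) (.nd (nat_lit 7) (.nd (nat_lit 8) (.nd (nat_lit 9) 
(.lf (nat_lit 585748) (.g (nat_lit 1696) (.e (nat_lit 393251) (nat_lit 18) (.e (nat_lit 164332) (nat_lit 230) (.e (nat_lit 163874) (nat_lit 3) (.e (nat_lit 204811) (nat_lit 9) (.e (nat_lit 426260) (nat_lit 9) (.e (nat_lit 433920) (nat_lit 34) .nil)))))) (.g (nat_lit 1) (.e (nat_lit 388841) (nat_lit 0) .nil) .nil))) 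
(.lf (nat_lit 586260) (.g (nat_lit 2026) (.e (nat_lit 393254) (nat_lit 18) (.e (nat_lit 164326) (nat_lit 230) (.e (nat_lit 163868) (nat_lit 2) (.e (nat_lit 196629) (nat_lit 9) .nil)))) (.g (nat_lit 0) (.e (nat_lit 389425) (nat_lit 0) .nil) .nil)))) (.nd (nat_lit 9) 
(.lf (nat_lit 586004) (.g (nat_lit 1808) (.e (nat_lit 393253) (nat_lit 18) (.e (nat_lit 164326) (nat_lit 230) (.e (nat_lit 163871) (nat_lit 2) (.e (nat_lit 196623) (nat_lit 9) (.e (nat_lit 454) (nat_lit 34) (.e (nat_lit 450304) (nat_lit 18) .nil)))))) (.g (nat_lit 1) (.e (nat_lit 389145) (nat_lit 0) .nil) .nil))) 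
(.lf (nat_lit 586516) (.g (nat_lit 2377) (.e (nat_lit 393268) (nat_lit 23) (.e (nat_lit 426438) (nat_lit 18) (.e (nat_lit 98334) (nat_lit 18) (.e (nat_lit 164331) (nat_lit 230) (.e (nat_lit 163904) (nat_lit 12) (.e (nat_lit 426566) (nat_lit 34) .nil)))))) (.g (nat_lit 1) (.e (nat_lit 389787) (nat_lit 0) .nil) .nil))))) (.nd (nat_lit 8) (.nd (nat_lit 9) 
(.lf (nat_lit 585876) (.g (nat_lit 2540) (.e (nat_lit 393253) (nat_lit 18) (.e (nat_lit 164324) (nat_lit 230) (.e (nat_lit 163868) (nat_lit 2) (.e (nat_lit 196624) (nat_lit 9) (.e (nat_lit 455) (nat_lit 34) (.e (nat_lit 450304) (nat_lit 18) .nil)))))) (.g (nat_lit 1) (.e (nat_lit 389013) (nat_lit 0) .nil) .nil))) 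
(.lf (nat_lit 586388) (.g (nat_lit 2905) (.e (nat_lit 393254) (nat_lit 18) (.e (nat_lit 164332) (nat_lit 230) (.e (nat_lit 163867) (nat_lit 2) (.e (nat_lit 196652) (nat_lit 11) (.e (nat_lit 16436) (nat_lit 9) .nil))))) (.g (nat_lit 0) (.e (nat_lit 389569) (nat_lit 0) .nil) .nil)))) (.nd (nat_lit 9) 
(.lf (nat_lit 586132) (.g (nat_lit 1903) (.e (nat_lit 393253) (nat_lit 18) (.e (nat_lit 164332) (nat_lit 230) (.e (nat_lit 163867) (nat_lit 2) (.e (nat_lit 196624) (nat_lit 9) (.e (nat_lit 7936) (nat_lit 34) (.e (nat_lit 450304) (nat_lit 18) .nil)))))) (.g (nat_lit 1) (.e (nat_lit 389278) (nat_lit 0) .nil) .nil))) 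
(.lf (nat_lit 586644) (.g (nat_lit 2670) (.e (nat_lit 393272) (nat_lit 23) (.e (nat_lit 426131) (nat_lit 3) (.e (nat_lit 204829) (nat_lit 18) (.e (nat_lit 57667) (nat_lit 152) (.e (nat_lit 2619) (nat_lit 164) (.e (nat_lit 179968) (nat_lit 34) .nil)))))) (.g (nat_lit 1) (.e (nat_lit 389920) (nat_lit 0) .nil) .nil)))))) (.nd (nat_lit 7) (.nd (nat_lit 8) (.nd (nat_lit 9) 
(.lf (nat_lit 585812) (.g (nat_lit 2119) (.e (nat_lit 393252) (nat_lit 18) (.e (nat_lit 164332) (nat_lit 230) (.e (nat_lit 163869) (nat_lit 2) (.e (nat_lit 196620) (nat_lit 9) .nil)))) (.g (nat_lit 0) (.e (nat_lit 388924) (nat_lit 0) .nil) .nil))) 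
(.lf (nat_lit 586324) (.g (nat_lit 2344) (.e (nat_lit 393254) (nat_lit 18) (.e (nat_lit 164327) (nat_lit 230) (.e (nat_lit 163868) (nat_lit 2) (.e (nat_lit 196624) (nat_lit 9) (.e (nat_lit 455) (nat_lit 34) (.e (nat_lit 450304) (nat_lit 18) .nil)))))) (.g (nat_lit 1) (.e (nat_lit 389490) (nat_lit 0) .nil) .nil)))) (.nd (nat_lit 9) 
(.lf (nat_lit 586068) (.g (nat_lit 2308) (.e (nat_lit 393253) (nat_lit 18) (.e (nat_lit 164327) (nat_lit 230) (.e (nat_lit 163871) (nat_lit 2) (.e (nat_lit 196656) (nat_lit 11) (.e (nat_lit 16446) (nat_lit 9) .nil))))) (.g (nat_lit 0) (.e (nat_lit 389212) (nat_lit 0) .nil) .nil))) 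
(.lf (nat_lit 586580) (.g (nat_lit 2694) (.e (nat_lit 393270) (nat_lit 23) (.e (nat_lit 426438) (nat_lit 18) (.e (nat_lit 98335) (nat_lit 18) (.e (nat_lit 164332) (nat_lit 230) (.e (nat_lit 163905) (nat_lit 12) (.e (nat_lit 426567) (nat_lit 34) .nil)))))) (.g (nat_lit 1) (.e (nat_lit 389853) (nat_lit 0) .nil) .nil))))) (.nd (nat_lit 8) (.nd (nat_lit 9) 
(.lf (nat_lit 585940) (.g (nat_lit 2176) (.e (nat_lit 393253) (nat_lit 18) (.e (nat_lit 164326) (nat_lit 230) (.e (nat_lit 163867) (nat_lit 2) (.e (nat_lit 196654) (nat_lit 11) (.e (nat_lit 16433) (nat_lit 9) (.e (nat_lit 426566) (nat_lit 34) .nil)))))) (.g (nat_lit 1) (.e (nat_lit 389079) (nat_lit 0) .nil) .nil))) 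
(.lf (nat_lit 586452) (.g (nat_lit 970) (.e (nat_lit 401152) (nat_lit 18) (.e (nat_lit 164399) (nat_lit 256) (.e (nat_lit 57378) (nat_lit 3) (.e (nat_lit 98363) (nat_lit 26) .nil)))) (.g (nat_lit 0) (.e (nat_lit 389645) (nat_lit 0) .nil) .nil)))) (.nd (nat_lit 9) 
(.lf (nat_lit 586196) (.g (nat_lit 998) (.e (nat_lit 393254) (nat_lit 18) (.e (nat_lit 164322) (nat_lit 230) (.e (nat_lit 163873) (nat_lit 3) (.e (nat_lit 212736) (nat_lit 9) .nil)))) (.g (nat_lit 0) (.e (nat_lit 389358) (nat_lit 0) .nil) .nil))) 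
(.lf (nat_lit 586708) (.g (nat_lit 1746) (.e (nat_lit 393277) (nat_lit 23) (.e (nat_lit 426103) (nat_lit 1) (.e (nat_lit 164327) (nat_lit 230) (.e (nat_lit 163879) (nat_lit 4) (.e (nat_lit 213030) (nat_lit 11) (.e (nat_lit 24660) (nat_lit 13) .nil)))))) (.g (nat_lit 1) (.e (nat_lit 390003) (nat_lit 0) .nil) .nil))))))) (.nd (nat_lit 6) (.nd (nat_lit 7) (.nd (nat_lit 8) (.nd (nat_lit 9) 
(.lf (nat_lit 585780) (.g (nat_lit 1306) (.e (nat_lit 393252) (nat_lit 18) (.e (nat_lit 164330) (nat_lit 230) (.e (nat_lit 163869) (nat_lit 2) (.e (nat_lit 196626) (nat_lit 9) .nil)))) (.g (nat_lit 0) (.e (nat_lit 388891) (nat_lit 0) .nil) .nil))) 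
(.lf (nat_lit 586292) (.g (nat_lit 919) (.e (nat_lit 393254) (nat_lit 18) (.e (nat_lit 164326) (nat_lit 230) (.e (nat_lit 163871) (nat_lit 2) (.e (nat_lit 196624) (nat_lit 9) .nil)))) (.g (nat_lit 0) (.e (nat_lit 389458) (nat_lit 0) .nil) .nil)))) (.nd (nat_lit 9) 
(.lf (nat_lit 586036) (.g (nat_lit 2114) (.e (nat_lit 393253) (nat_lit 18) (.e (nat_lit 164326) (nat_lit 230) (.e (nat_lit 163875) (nat_lit 3) (.e (nat_lit 204811) (nat_lit 9) (.e (nat_lit 426262) (nat_lit 9) (.e (nat_lit 426565) (nat_lit 34) .nil)))))) (.g (nat_lit 1) (.e (nat_lit 389178) (nat_lit 0) .nil) .nil))) 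
(.lf (nat_lit 586548) (.g (nat_lit 3689) (.e (nat_lit 393270) (nat_lit 23) (.e (nat_lit 426436) (nat_lit 18) (.e (nat_lit 98334) (nat_lit 18) (.e (nat_lit 164330) (nat_lit 230) (.e (nat_lit 163902) (nat_lit 12) (.e (nat_lit 426566) (nat_lit 34) .nil)))))) (.g (nat_lit 1) (.e (nat_lit 389821) (nat_lit 0) .nil) .nil))))) (.nd (nat_lit 8) (.nd (nat_lit 9) 
(.lf (nat_lit 585908) (.g (nat_lit 2503) (.e (nat_lit 393253) (nat_lit 18) (.e (nat_lit 164325) (nat_lit 230) (.e (nat_lit 163868) (nat_lit 2) (.e (nat_lit 196624) (nat_lit 9) (.e (nat_lit 479) (nat_lit 37) (.e (nat_lit 474880) (nat_lit 18) .nil)))))) (.g (nat_lit 1) (.e (nat_lit 389047) (nat_lit 0) .nil) .nil))) 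
(.lf (nat_lit 586420) (.g (nat_lit 3581) (.e (nat_lit 393254) (nat_lit 18) (.e (nat_lit 164332) (nat_lit 230) (.e (nat_lit 163869) (nat_lit 2) (.e (nat_lit 196637) (nat_lit 9) .nil)))) (.g (nat_lit 0) (.e (nat_lit 389601) (nat_lit 0) .nil) .nil)))) (.nd (nat_lit 9) 
(.lf (nat_lit 586164) (.g (nat_lit 3667) (.e (nat_lit 393253) (nat_lit 18) (.e (nat_lit 164332) (nat_lit 230) (.e (nat_lit 163873) (nat_lit 3) (.e (nat_lit 204813) (nat_lit 9) (.e (nat_lit 426190) (nat_lit 9) (.e (nat_lit 426566) (nat_lit 34) .nil)))))) (.g (nat_lit 1) (.e (nat_lit 389310) (nat_lit 0) .nil) .nil))) 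
(.lf (nat_lit 586676) (.g (nat_lit 2191) (.e (nat_lit 393273) (nat_lit 23) (.e (nat_lit 426131) (nat_lit 3) (.e (nat_lit 204831) (nat_lit 18) (.e (nat_lit 57654) (nat_lit 152) (.e (nat_lit 2633) (nat_lit 164) (.e (nat_lit 179968) (nat_lit 34) .nil)))))) (.g (nat_lit 1) (.e (nat_lit 389952) (nat_lit 0) .nil) .nil)))))) (.nd (nat_lit 7) (.nd (nat_lit 8) (.nd (nat_lit 9) 
(.lf (nat_lit 585844) (.g (nat_lit 1427) (.e (nat_lit 393252) (nat_lit 18) (.e (nat_lit 164332) (nat_lit 230) (.e (nat_lit 163874) (nat_lit 3) (.e (nat_lit 204811) (nat_lit 9) (.e (nat_lit 426260) (nat_lit 9) (.e (nat_lit 433920) (nat_lit 34) .nil)))))) (.g (nat_lit 1) (.e (nat_lit 388956) (nat_lit 0) .nil) .nil))) 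
(.lf (nat_lit 586356) (.g (nat_lit 1894) (.e (nat_lit 393254) (nat_lit 18) (.e (nat_lit 164329) (nat_lit 230) (.e (nat_lit 163867) (nat_lit 2) (.e (nat_lit 196624) (nat_lit 9) (.e (nat_lit 7936) (nat_lit 34) (.e (nat_lit 450304) (nat_lit 18) .nil)))))) (.g (nat_lit 1) (.e (nat_lit 389524) (nat_lit 0) .nil) .nil)))) (.nd (nat_lit 9) 
(.lf (nat_lit 586100) (.g (nat_lit 1846) (.e (nat_lit 393253) (nat_lit 18) (.e (nat_lit 164329) (nat_lit 230) (.e (nat_lit 163873) (nat_lit 3) (.e (nat_lit 204811) (nat_lit 9) (.e (nat_lit 426230) (nat_lit 9) (.e (nat_lit 426565) (nat_lit 34) .nil)))))) (.g (nat_lit 1) (.e (nat_lit 389246) (nat_lit 0) .nil) .nil))) 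
(.lf (nat_lit 586612) (.g (nat_lit 3614) (.e (nat_lit 393271) (nat_lit 23) (.e (nat_lit 426131) (nat_lit 3) (.e (nat_lit 204831) (nat_lit 18) (.e (nat_lit 57688) (nat_lit 156) (.e (nat_lit 163903) (nat_lit 12) (.e (nat_lit 426568) (nat_lit 34) .nil)))))) (.g (nat_lit 1) (.e (nat_lit 389886) (nat_lit 0) .nil) .nil))))) (.nd (nat_lit 8) (.nd (nat_lit 9) 
(.lf (nat_lit 585972) (.g (nat_lit 2740) (.e (nat_lit 393253) (nat_lit 18) (.e (nat_lit 164326) (nat_lit 230) (.e (nat_lit 163868) (nat_lit 2) (.e (nat_lit 196632) (nat_lit 9) (.e (nat_lit 426) (nat_lit 32) .nil))))) (.g (nat_lit 0) (.e (nat_lit 389112) (nat_lit 0) .nil) .nil))) 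
(.lf (nat_lit 586484) (.g (nat_lit 4001) (.e (nat_lit 393268) (nat_lit 23) (.e (nat_lit 426436) (nat_lit 18) (.e (nat_lit 98333) (nat_lit 18) (.e (nat_lit 164325) (nat_lit 230) (.e (nat_lit 163903) (nat_lit 12) (.e (nat_lit 426566) (nat_lit 34) .nil)))))) (.g (nat_lit 1) (.e (nat_lit 389755) (nat_lit 0) .nil) .nil)))) (.nd (nat_lit 9) 
(.lf (nat_lit 586228) (.g (nat_lit 965) (.e (nat_lit 393254) (nat_lit 18) (.e (nat_lit 164325) (nat_lit 230) (.e (nat_lit 163873) (nat_lit 3) (.e (nat_lit 204811) (nat_lit 9) .nil)))) (.g (nat_lit 0) (.e (nat_lit 389393) (nat_lit 0) .nil) .nil))) 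
(.lf (nat_lit 586740) (.g (nat_lit 2163) (.e (nat_lit 393281) (nat_lit 23) (.e (nat_lit 426098) (nat_lit 1) (.e (nat_lit 164325) (nat_lit 230) (.e (nat_lit 163882) (nat_lit 4) (.e (nat_lit 213031) (nat_lit 11) (.e (nat_lit 24656) (nat_lit 13) .nil)))))) (.g (nat_lit 1) (.e (nat_lit 390047) (nat_lit 0) .nil) .nil))))))))) 
(.nd (nat_lit 4) (.nd (nat_lit 5) (.nd (nat_lit 6) (.nd (nat_lit 7) (.nd (nat_lit 8) 
(.nd (nat_lit 9) 
(.lf (nat_lit 585740) (.g (nat_lit 1455) (.e (nat_lit 393251) (nat_lit 18) (.e (nat_lit 164332) (nat_lit 230) (.e (nat_lit 163873) (nat_lit 3) (.e (nat_lit 204811) (nat_lit 9) (.e (nat_lit 426261) (nat_lit 9) (.e (nat_lit 433920) (nat_lit 34) .nil)))))) (.g (nat_lit 1) (.e (nat_lit 388833) (nat_lit 0) .nil) .nil))) 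
(.lf (nat_lit 586252) (.g (nat_lit 2387) (.e (nat_lit 393254) (nat_lit 18) (.e (nat_lit 164326) (nat_lit 230) (.e (nat_lit 163868) (nat_lit 2) (.e (nat_lit 196624) (nat_lit 9) (.e (nat_lit 454) (nat_lit 34) (.e (nat_lit 450304) (nat_lit 18) .nil)))))) (.g (nat_lit 1) (.e (nat_lit 389417) (nat_lit 0) .nil) .nil)))) (.nd (nat_lit 9) 
(.lf (nat_lit 585996) (.g (nat_lit 1579) (.e (nat_lit 393253) (nat_lit 18) (.e (nat_lit 164326) (nat_lit 230) (.e (nat_lit 163871) (nat_lit 2) (.e (nat_lit 196618) (nat_lit 9) .nil)))) (.g (nat_lit 0) (.e (nat_lit 389137) (nat_lit 0) .nil) .nil))) 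
(.lf (nat_lit 586508) (.g (nat_lit 3724) (.e (nat_lit 393268) (nat_lit 23) (.e (nat_lit 426436) (nat_lit 18) (.e (nat_lit 98335) (nat_lit 18) (.e (nat_lit 164334) (nat_lit 231) .nil)))) (.g (nat_lit 0) (.e (nat_lit 389779) (nat_lit 0) .nil) .nil))))) (.nd (nat_lit 8) (.nd (nat_lit 9) 
(.lf (nat_lit 585868) (.g (nat_lit 2990) (.e (nat_lit 393253) (nat_lit 18) (.e (nat_lit 164179) (nat_lit 154) (.e (nat_lit 57412) (nat_lit 12) (.e (nat_lit 336295) (nat_lit 15) (.e (nat_lit 3253) (nat_lit 197) (.e (nat_lit 532534) (nat_lit 9) (.e (nat_lit 336211) (nat_lit 13) .nil))))))) (.g (nat_lit 1) (.e (nat_lit 389001) (nat_lit 0) .nil) .nil))) 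
(.lf (nat_lit 586380) (.g (nat_lit 1888) (.e (nat_lit 393254) (nat_lit 18) (.e (nat_lit 164332) (nat_lit 230) (.e (nat_lit 163867) (nat_lit 2) (.e (nat_lit 196624) (nat_lit 9) (.e (nat_lit 454) (nat_lit 34) (.e (nat_lit 450304) (nat_lit 18) .nil)))))) (.g (nat_lit 1) (.e (nat_lit 389561) (nat_lit 0) .nil) .nil)))) (.nd (nat_lit 9) 
(.lf (nat_lit 586124) (.g (nat_lit 1645) (.e (nat_lit 393253) (nat_lit 18) (.e (nat_lit 164331) (nat_lit 230) (.e (nat_lit 163873) (nat_lit 3) (.e (nat_lit 204811) (nat_lit 9) (.e (nat_lit 426262) (nat_lit 9) (.e (nat_lit 433920) (nat_lit 34) .nil)))))) (.g (nat_lit 1) (.e (nat_lit 389270) (nat_lit 0) .nil) .nil))) 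
(.lf (nat_lit 586636) (.g (nat_lit 2273) (.e (nat_lit 393271) (nat_lit 23) (.e (nat_lit 426438) (nat_lit 18) (.e (nat_lit 98335) (nat_lit 18) (.e (nat_lit 164327) (nat_lit 230) (.e (nat_lit 163904) (nat_lit 12) (.e (nat_lit 426566) (nat_lit 34) .nil)))))) (.g (nat_lit 1) (.e (nat_lit 389912) (nat_lit 0) .nil) .nil)))))) (.nd (nat_lit 7) (.nd (nat_lit 8) (.nd (nat_lit 9) 
(.lf (nat_lit 585804) (.g (nat_lit 1900) (.e (nat_lit 393252) (nat_lit 18) (.e (nat_lit 164332) (nat_lit 230) (.e (nat_lit 163867) (nat_lit 2) (.e (nat_lit 196624) (nat_lit 9) (.e (nat_lit 457) (nat_lit 34) (.e (nat_lit 450304) (nat_lit 18) .nil)))))) (.g (nat_lit 1) (.e (nat_lit 388915) (nat_lit 0) .nil) .nil))) 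
(.lf (nat_lit 586316) (.g (nat_lit 483) (.e (nat_lit 393254) (nat_lit 18) (.e (nat_lit 164326) (nat_lit 230) (.e (nat_lit 163874) (nat_lit 3) .nil))) (.g (nat_lit 0) (.e (nat_lit 389482) (nat_lit 0) .nil) .nil)))) (.nd (nat_lit 9) 
(.lf (nat_lit 586060) (.g (nat_lit 2935) (.e (nat_lit 393253) (nat_lit 18) (.e (nat_lit 164327) (nat_lit 230) (.e (nat_lit 163871) (nat_lit 2) (.e (nat_lit 196624) (nat_lit 9) (.e (nat_lit 479) (nat_lit 37) (.e (nat_lit 474880) (nat_lit 18) .nil)))))) (.g (nat_lit 1) (.e (nat_lit 389204) (nat_lit 0) .nil) .nil))) 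
(.lf (nat_lit 586572) (.g (nat_lit 2749) (.e (nat_lit 393270) (nat_lit 23) (.e (nat_lit 426438) (nat_lit 18) (.e (nat_lit 98333) (nat_lit 18) (.e (nat_lit 164332) (nat_lit 230) (.e (nat_lit 163902) (nat_lit 12) (.e (nat_lit 426566) (nat_lit 34) .nil)))))) (.g (nat_lit 1) (.e (nat_lit 389845) (nat_lit 0) .nil) .nil))))) (.nd (nat_lit 8) (.nd (nat_lit 9) 
(.lf (nat_lit 585932) (.g (nat_lit 1756) (.e (nat_lit 393253) (nat_lit 18) (.e (nat_lit 164325) (nat_lit 230) (.e (nat_lit 163874) (nat_lit 3) (.e (nat_lit 204812) (nat_lit 9) .nil)))) (.g (nat_lit 0) (.e (nat_lit 389071) (nat_lit 0) .nil) .nil))) 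
(.lf (nat_lit 586444) (.g (nat_lit 1843) (.e (nat_lit 393254) (nat_lit 18) (.e (nat_lit 164345) (nat_lit 240) (.e (nat_lit 2610) (nat_lit 163) (.e (nat_lit 163959) (nat_lit 24) (.e (nat_lit 524319) (nat_lit 11) (.e (nat_lit 450304) (nat_lit 18) .nil)))))) (.g (nat_lit 1) (.e (nat_lit 389627) (nat_lit 0) .nil) .nil)))) (.nd (nat_lit 9) 
(.lf (nat_lit 586188) (.g (nat_lit 1821) (.e (nat_lit 393254) (nat_lit 18) (.e (nat_lit 164322) (nat_lit 230) (.e (nat_lit 163869) (nat_lit 2) (.e (nat_lit 196654) (nat_lit 11) .nil)))) (.g (nat_lit 0) (.e (nat_lit 389350) (nat_lit 0) .nil) .nil))) 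
(.lf (nat_lit 586700) (.g (nat_lit 1806) (.e (nat_lit 393274) (nat_lit 23) (.e (nat_lit 426396) (nat_lit 15) (.e (nat_lit 2059) (nat_lit 142) (.e (nat_lit 704596) (nat_lit 5) (.e (nat_lit 180277) (nat_lit 32) .nil))))) (.g (nat_lit 0) (.e (nat_lit 389979) (nat_lit 0) .nil) .nil))))))) (.nd (nat_lit 6) (.nd (nat_lit 7) (.nd (nat_lit 8) (.nd (nat_lit 9) 
(.lf (nat_lit 585772) (.g (nat_lit 2697) (.e (nat_lit 393252) (nat_lit 18) (.e (nat_lit 164329) (nat_lit 230) (.e (nat_lit 163867) (nat_lit 2) (.e (nat_lit 196630) (nat_lit 9) (.e (nat_lit 430) (nat_lit 32) (.e (nat_lit 426190) (nat_lit 9) (.e (nat_lit 426566) (nat_lit 34) .nil))))))) (.g (nat_lit 1) (.e (nat_lit 388883) (nat_lit 0) .nil) .nil))) 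
(.lf (nat_lit 586284) (.g (nat_lit 1684) (.e (nat_lit 393254) (nat_lit 18) (.e (nat_lit 164326) (nat_lit 230) (.e (nat_lit 163870) (nat_lit 2) (.e (nat_lit 196640) (nat_lit 9) .nil)))) (.g (nat_lit 0) (.e (nat_lit 389450) (nat_lit 0) .nil) .nil)))) (.nd (nat_lit 9) 
(.lf (nat_lit 586028) (.g (nat_lit 1217) (.e (nat_lit 393253) (nat_lit 18) (.e (nat_lit 164326) (nat_lit 230) (.e (nat_lit 163874) (nat_lit 3) (.e (nat_lit 204813) (nat_lit 9) .nil)))) (.g (nat_lit 0) (.e (nat_lit 389170) (nat_lit 0) .nil) .nil))) 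
(.lf (nat_lit 586540) (.g (nat_lit 3554) (.e (nat_lit 393270) (nat_lit 23) (.e (nat_lit 426436) (nat_lit 18) (.e (nat_lit 98333) (nat_lit 18) (.e (nat_lit 164327) (nat_lit 230) (.e (nat_lit 163903) (nat_lit 12) (.e (nat_lit 426566) (nat_lit 34) .nil)))))) (.g (nat_lit 1) (.e (nat_lit 389813) (nat_lit 0) .nil) .nil))))) (.nd (nat_lit 8) (.nd (nat_lit 9) 
(.lf (nat_lit 585900) (.g (nat_lit 1883) (.e (nat_lit 393253) (nat_lit 18) (.e (nat_lit 164325) (nat_lit 230) (.e (nat_lit 163868) (nat_lit 2) (.e (nat_lit 196624) (nat_lit 9) (.e (nat_lit 399) (nat_lit 32) .nil))))) (.g (nat_lit 0) (.e (nat_lit 389039) (nat_lit 0) .nil) .nil))) 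
(.lf (nat_lit 586412) (.g (nat_lit 1817) (.e (nat_lit 393254) (nat_lit 18) (.e (nat_lit 164332) (nat_lit 230) (.e (nat_lit 163869) (nat_lit 2) (.e (nat_lit 196628) (nat_lit 9) (.e (nat_lit 7936) (nat_lit 34) (.e (nat_lit 450304) (nat_lit 18) .nil)))))) (.g (nat_lit 1) (.e (nat_lit 389593) (nat_lit 0) .nil) .nil)))) (.nd (nat_lit 9) 
(.lf (nat_lit 586156) (.g (nat_lit 2482) (.e (nat_lit 393253) (nat_lit 18) (.e (nat_lit 164332) (nat_lit 230) (.e (nat_lit 163869) (nat_lit 2) (.e (nat_lit 196638) (nat_lit 9) .nil)))) (.g (nat_lit 0) (.e (nat_lit 389302) (nat_lit 0) .nil) .nil))) 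
(.lf (nat_lit 586668) (.g (nat_lit 2797) (.e (nat_lit 393273) (nat_lit 23) (.e (nat_lit 426131) (nat_lit 3) (.e (nat_lit 204829) (nat_lit 18) (.e (nat_lit 57652) (nat_lit 152) (.e (nat_lit 2633) (nat_lit 164) (.e (nat_lit 179968) (nat_lit 34) .nil)))))) (.g (nat_lit 1) (.e (nat_lit 389944) (nat_lit 0) .nil) .nil)))))) (.nd (nat_lit 7) (.nd (nat_lit 8) (.nd (nat_lit 9) 
(.lf (nat_lit 585836) (.g (nat_lit 1922) (.e (nat_lit 393252) (nat_lit 18) (.e (nat_lit 164332) (nat_lit 230) (.e (nat_lit 163873) (nat_lit 3) (.e (nat_lit 204811) (nat_lit 9) (.e (nat_lit 426234) (nat_lit 9) (.e (nat_lit 426565) (nat_lit 34) .nil)))))) (.g (nat_lit 1) (.e (nat_lit 388948) (nat_lit 0) .nil) .nil))) 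
(.lf (nat_lit 586348) (.g (nat_lit 916) (.e (nat_lit 393254) (nat_lit 18) (.e (nat_lit 164327) (nat_lit 230) (.e (nat_lit 163873) (nat_lit 3) (.e (nat_lit 212736) (nat_lit 9) .nil)))) (.g (nat_lit 0) (.e (nat_lit 389514) (nat_lit 0) .nil) .nil)))) (.nd (nat_lit 9) 
(.lf (nat_lit 586092) (.g (nat_lit 2510) (.e (nat_lit 393253) (nat_lit 18) (.e (nat_lit 164329) (nat_lit 230) (.e (nat_lit 163867) (nat_lit 2) (.e (nat_lit 196624) (nat_lit 9) (.e (nat_lit 455) (nat_lit 34) (.e (nat_lit 450304) (nat_lit 18) .nil)))))) (.g (nat_lit 1) (.e (nat_lit 389238) (nat_lit 0) .nil) .nil))) 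
(.lf (nat_lit 586604) (.g (nat_lit 1432) (.e (nat_lit 393271) (nat_lit 23) (.e (nat_lit 426131) (nat_lit 3) (.e (nat_lit 204830) (nat_lit 18) (.e (nat_lit 57665) (nat_lit 152) .nil)))) (.g (nat_lit 0) (.e (nat_lit 389878) (nat_lit 0) .nil) .nil))))) (.nd (nat_lit 8) (.nd (nat_lit 9) 
(.lf (nat_lit 585964) (.g (nat_lit 1431) (.e (nat_lit 393253) (nat_lit 18) (.e (nat_lit 164326) (nat_lit 230) (.e (nat_lit 163868) (nat_lit 2) (.e (nat_lit 196628) (nat_lit 9) (.e (nat_lit 419) (nat_lit 32) .nil))))) (.g (nat_lit 0) (.e (nat_lit 389104) (nat_lit 0) .nil) .nil))) 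
(.lf (nat_lit 586476) (.g (nat_lit 2342) (.e (nat_lit 393266) (nat_lit 23) (.e (nat_lit 426140) (nat_lit 3) (.e (nat_lit 204829) (nat_lit 18) (.e (nat_lit 57692) (nat_lit 156) (.e (nat_lit 163907) (nat_lit 12) (.e (nat_lit 426566) (nat_lit 34) .nil)))))) (.g (nat_lit 1) (.e (nat_lit 389744) (nat_lit 0) .nil) .nil)))) (.nd (nat_lit 9) 
(.lf (nat_lit 586220) (.g (nat_lit 1538) (.e (nat_lit 393254) (nat_lit 18) (.e (nat_lit 164325) (nat_lit 230) (.e (nat_lit 163868) (nat_lit 2) (.e (nat_lit 196624) (nat_lit 9) (.e (nat_lit 7936) (nat_lit 34) (.e (nat_lit 450304) (nat_lit 18) .nil)))))) (.g (nat_lit 1) (.e (nat_lit 389385) (nat_lit 0) .nil) .nil))) 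
(.lf (nat_lit 586732) (.g (nat_lit 1847) (.e (nat_lit 393280) (nat_lit 23) (.e (nat_lit 426108) (nat_lit 1) (.e (nat_lit 164345) (nat_lit 240) (.e (nat_lit 2638) (nat_lit 165) .nil)))) (.g (nat_lit 0) (.e (nat_lit 390036) (nat_lit 0) .nil) .nil)))))))) (.nd (nat_lit 5) (.nd (nat_lit 6) (.nd (nat_lit 7) (.nd (nat_lit 8) (.nd (nat_lit 9) 
(.lf (nat_lit 585756) (.g (nat_lit 2688) (.e (nat_lit 393251) (nat_lit 18) (.e (nat_lit 164398) (nat_lit 256) (.e (nat_lit 57378) (nat_lit 3) (.e (nat_lit 98363) (nat_lit 26) (.e (nat_lit 426230) (nat_lit 9) (.e (nat_lit 426565) (nat_lit 34) .nil)))))) (.g (nat_lit 1) (.e (nat_lit 388850) (nat_lit 0) .nil) .nil))) 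
(.lf (nat_lit 586268) (.g (nat_lit 1406) (.e (nat_lit 393254) (nat_lit 18) (.e (nat_lit 164326) (nat_lit 230) (.e (nat_lit 163868) (nat_lit 2) (.e (nat_lit 196635) (nat_lit 9) .nil)))) (.g (nat_lit 0) (.e (nat_lit 389433) (nat_lit 0) .nil) .nil)))) (.nd (nat_lit 9) 
(.lf (nat_lit 586012) (.g (nat_lit 2140) (.e (nat_lit 393253) (nat_lit 18) (.e (nat_lit 164326) (nat_lit 230) (.e (nat_lit 163871) (nat_lit 2) (.e (nat_lit 196624) (nat_lit 9) (.e (nat_lit 7936) (nat_lit 34) (.e (nat_lit 450304) (nat_lit 18) .nil)))))) (.g (nat_lit 1) (.e (nat_lit 389153) (nat_lit 0) .nil) .nil))) 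
(.lf (nat_lit 586524) (.g (nat_lit 3505) (.e (nat_lit 393268) (nat_lit 23) (.e (nat_lit 426438) (nat_lit 18) (.e (nat_lit 98335) (nat_lit 18) (.e (nat_lit 164330) (nat_lit 230) (.e (nat_lit 163902) (nat_lit 12) (.e (nat_lit 426566) (nat_lit 34) .nil)))))) (.g (nat_lit 1) (.e (nat_lit 389795) (nat_lit 0) .nil) .nil))))) (.nd (nat_lit 8) (.nd (nat_lit 9) 
(.lf (nat_lit 585884) (.g (nat_lit 2535) (.e (nat_lit 393253) (nat_lit 18) (.e (nat_lit 164324) (nat_lit 230) (.e (nat_lit 163871) (nat_lit 2) (.e (nat_lit 196656) (nat_lit 11) (.e (nat_lit 16433) (nat_lit 9) .nil))))) (.g (nat_lit 0) (.e (nat_lit 389021) (nat_lit 0) .nil) .nil))) 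
(.lf (nat_lit 586396) (.g (nat_lit 1758) (.e (nat_lit 393254) (nat_lit 18) (.e (nat_lit 164332) (nat_lit 230) (.e (nat_lit 163869) (nat_lit 2) (.e (nat_lit 196623) (nat_lit 9) (.e (nat_lit 454) (nat_lit 34) (.e (nat_lit 450304) (nat_lit 18) .nil)))))) (.g (nat_lit 1) (.e (nat_lit 389577) (nat_lit 0) .nil) .nil)))) (.nd (nat_lit 9) 
(.lf (nat_lit 586140) (.g (nat_lit 2408) (.e (nat_lit 393253) (nat_lit 18) (.e (nat_lit 164332) (nat_lit 230) (.e (nat_lit 163869) (nat_lit 2) (.e (nat_lit 196623) (nat_lit 9) .nil)))) (.g (nat_lit 0) (.e (nat_lit 389286) (nat_lit 0) .nil) .nil))) 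
(.lf (nat_lit 586652) (.g (nat_lit 2565) (.e (nat_lit 393272) (nat_lit 23) (.e (nat_lit 426434) (nat_lit 18) (.e (nat_lit 98333) (nat_lit 18) (.e (nat_lit 164327) (nat_lit 230) (.e (nat_lit 163907) (nat_lit 12) (.e (nat_lit 426566) (nat_lit 34) .nil)))))) (.g (nat_lit 1) (.e (nat_lit 389928) (nat_lit 0) .nil) .nil)))))) (.nd (nat_lit 7) (.nd (nat_lit 8) (.nd (nat_lit 9) 
(.lf (nat_lit 585820) (.g (nat_lit 2343) (.e (nat_lit 393252) (nat_lit 18) (.e (nat_lit 164332) (nat_lit 230) (.e (nat_lit 163869) (nat_lit 2) (.e (nat_lit 196624) (nat_lit 9) (.e (nat_lit 433) (nat_lit 32) (.e (nat_lit 426228) (nat_lit 9) (.e (nat_lit 426565) (nat_lit 34) .nil))))))) (.g (nat_lit 1) (.e (nat_lit 388932) (nat_lit 0) .nil) .nil))) 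
(.lf (nat_lit 586332) (.g (nat_lit 2543) (.e (nat_lit 393254) (nat_lit 18) (.e (nat_lit 164327) (nat_lit 230) (.e (nat_lit 163868) (nat_lit 2) (.e (nat_lit 196656) (nat_lit 11) (.e (nat_lit 16444) (nat_lit 9) (.e (nat_lit 426565) (nat_lit 34) .nil)))))) (.g (nat_lit 1) (.e (nat_lit 389498) (nat_lit 0) .nil) .nil)))) (.nd (nat_lit 9) 
(.lf (nat_lit 586076) (.g (nat_lit 3900) (.e (nat_lit 393253) (nat_lit 18) (.e (nat_lit 164327) (nat_lit 230) (.e (nat_lit 163873) (nat_lit 3) (.e (nat_lit 204813) (nat_lit 9) (.e (nat_lit 426196) (nat_lit 9) (.e (nat_lit 426568) (nat_lit 34) .nil)))))) (.g (nat_lit 1) (.e (nat_lit 389220) (nat_lit 0) .nil) .nil))) 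
(.lf (nat_lit 586588) (.g (nat_lit 2546) (.e (nat_lit 393271) (nat_lit 23) (.e (nat_lit 426112) (nat_lit 1) (.e (nat_lit 164327) (nat_lit 230) (.e (nat_lit 163881) (nat_lit 4) (.e (nat_lit 213032) (nat_lit 11) (.e (nat_lit 24659) (nat_lit 13) .nil)))))) (.g (nat_lit 1) (.e (nat_lit 389861) (nat_lit 0) .nil) .nil))))) (.nd (nat_lit 8) (.nd (nat_lit 9) 
(.lf (nat_lit 585948) (.g (nat_lit 2204) (.e (nat_lit 393253) (nat_lit 18) (.e (nat_lit 164326) (nat_lit 230) (.e (nat_lit 163868) (nat_lit 2) (.e (nat_lit 196621) (nat_lit 9) .nil)))) (.g (nat_lit 0) (.e (nat_lit 389088) (nat_lit 0) .nil) .nil))) 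
(.lf (nat_lit 586460) (.g (nat_lit 693) (.e (nat_lit 393260) (nat_lit 21) (.e (nat_lit 409616) (nat_lit 10) (.e (nat_lit 4981) (nat_lit 287) .nil))) (.g (nat_lit 0) (.e (nat_lit 389713) (nat_lit 0) .nil) .nil)))) (.nd (nat_lit 9) 
(.lf (nat_lit 586204) (.g (nat_lit 2276) (.e (nat_lit 393254) (nat_lit 18) (.e (nat_lit 164324) (nat_lit 230) (.e (nat_lit 163868) (nat_lit 2) (.e (nat_lit 196624) (nat_lit 9) (.e (nat_lit 459) (nat_lit 34) (.e (nat_lit 450304) (nat_lit 18) .nil)))))) (.g (nat_lit 1) (.e (nat_lit 389366) (nat_lit 0) .nil) .nil))) 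
(.lf (nat_lit 586716) (.g (nat_lit 455) (.e (nat_lit 393278) (nat_lit 23) (.e (nat_lit 426109) (nat_lit 1) (.e (nat_lit 164345) (nat_lit 240) .nil))) (.g (nat_lit 0) (.e (nat_lit 390015) (nat_lit 0) .nil) .nil))))))) (.nd (nat_lit 6) (.nd (nat_lit 7) (.nd (nat_lit 8) (.nd (nat_lit 9) 
(.lf (nat_lit 585788) (.g (nat_lit 1397) (.e (nat_lit 393252) (nat_lit 18) (.e (nat_lit 164330) (nat_lit 230) (.e (nat_lit 163873) (nat_lit 3) (.e (nat_lit 204812) (nat_lit 9) .nil)))) (.g (nat_lit 0) (.e (nat_lit 388899) (nat_lit 0) .nil) .nil))) 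
(.lf (nat_lit 586300) (.g (nat_lit 2152) (.e (nat_lit 393254) (nat_lit 18) (.e (nat_lit 164326) (nat_lit 230) (.e (nat_lit 163871) (nat_lit 2) (.e (nat_lit 196625) (nat_lit 9) .nil)))) (.g (nat_lit 0) (.e (nat_lit 389466) (nat_lit 0) .nil) .nil)))) (.nd (nat_lit 9) 
(.lf (nat_lit 586044) (.g (nat_lit 3056) (.e (nat_lit 393253) (nat_lit 18) (.e (nat_lit 164327) (nat_lit 230) (.e (nat_lit 163868) (nat_lit 2) (.e (nat_lit 196624) (nat_lit 9) (.e (nat_lit 479) (nat_lit 37) (.e (nat_lit 474880) (nat_lit 18) .nil)))))) (.g (nat_lit 1) (.e (nat_lit 389188) (nat_lit 0) .nil) .nil))) 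
(.lf (nat_lit 586556) (.g (nat_lit 2438) (.e (nat_lit 393270) (nat_lit 23) (.e (nat_lit 426436) (nat_lit 18) (.e (nat_lit 98335) (nat_lit 18) (.e (nat_lit 164322) (nat_lit 230) (.e (nat_lit 163904) (nat_lit 12) .nil))))) (.g (nat_lit 0) (.e (nat_lit 389829) (nat_lit 0) .nil) .nil))))) (.nd (nat_lit 8) (.nd (nat_lit 9) 
(.lf (nat_lit 585916) (.g (nat_lit 2016) (.e (nat_lit 393253) (nat_lit 18) (.e (nat_lit 164325) (nat_lit 230) (.e (nat_lit 163871) (nat_lit 2) (.e (nat_lit 196624) (nat_lit 9) (.e (nat_lit 455) (nat_lit 34) (.e (nat_lit 450304) (nat_lit 18) .nil)))))) (.g (nat_lit 1) (.e (nat_lit 389055) (nat_lit 0) .nil) .nil))) 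
(.lf (nat_lit 586428) (.g (nat_lit 867) (.e (nat_lit 393254) (nat_lit 18) (.e (nat_lit 164332) (nat_lit 230) (.e (nat_lit 163873) (nat_lit 3) (.e (nat_lit 204811) (nat_lit 9) .nil)))) (.g (nat_lit 0) (.e (nat_lit 389609) (nat_lit 0) .nil) .nil)))) (.nd (nat_lit 9) 
(.lf (nat_lit 586172) (.g (nat_lit 1435) (.e (nat_lit 393253) (nat_lit 18) (.e (nat_lit 164347) (nat_lit 240) (.e (nat_lit 2611) (nat_lit 163) (.e (nat_lit 163959) (nat_lit 24) (.e (nat_lit 524319) (nat_lit 11) (.e (nat_lit 450304) (nat_lit 18) .nil)))))) (.g (nat_lit 1) (.e (nat_lit 389318) (nat_lit 0) .nil) .nil))) 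
(.lf (nat_lit 586684) (.g (nat_lit 2129) (.e (nat_lit 393273) (nat_lit 23) (.e (nat_lit 426436) (nat_lit 18) (.e (nat_lit 98334) (nat_lit 18) (.e (nat_lit 164305) (nat_lit 226) (.e (nat_lit 2439) (nat_lit 157) (.e (nat_lit 2900) (nat_lit 184) (.e (nat_lit 426565) (nat_lit 34) .nil))))))) (.g (nat_lit 1) (.e (nat_lit 389961) (nat_lit 0) .nil) .nil)))))) 
(.nd (nat_lit 7) (.nd (nat_lit 8) (.nd (nat_lit 9) 
(.lf (nat_lit 585852) (.g (nat_lit 1709) (.e (nat_lit 393252) (nat_lit 18) (.e (nat_lit 164398) (nat_lit 256) (.e (nat_lit 57378) (nat_lit 3) (.e (nat_lit 98354) (nat_lit 26) .nil)))) (.g (nat_lit 0) (.e (nat_lit 388964) (nat_lit 0) .nil) .nil))) 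
(.lf (nat_lit 586364) (.g (nat_lit 3276) (.e (nat_lit 393254) (nat_lit 18) (.e (nat_lit 164329) (nat_lit 230) (.e (nat_lit 163873) (nat_lit 3) (.e (nat_lit 204813) (nat_lit 9) (.e (nat_lit 426200) (nat_lit 9) (.e (nat_lit 426566) (nat_lit 34) .nil)))))) (.g (nat_lit 1) (.e (nat_lit 389532) (nat_lit 0) .nil) .nil)))) (.nd (nat_lit 9) 
(.lf (nat_lit 586108) (.g (nat_lit 1395) (.e (nat_lit 393253) (nat_lit 18) (.e (nat_lit 164330) (nat_lit 230) (.e (nat_lit 163869) (nat_lit 2) (.e (nat_lit 196624) (nat_lit 9) .nil)))) (.g (nat_lit 0) (.e (nat_lit 389254) (nat_lit 0) .nil) .nil))) 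
(.lf (nat_lit 586620) (.g (nat_lit 4161) (.e (nat_lit 393271) (nat_lit 23) (.e (nat_lit 426436) (nat_lit 18) (.e (nat_lit 98335) (nat_lit 18) (.e (nat_lit 164308) (nat_lit 226) .nil)))) (.g (nat_lit 0) (.e (nat_lit 389896) (nat_lit 0) .nil) .nil))))) (.nd (nat_lit 8) (.nd (nat_lit 9) 
(.lf (nat_lit 585980) (.g (nat_lit 2761) (.e (nat_lit 393253) (nat_lit 18) (.e (nat_lit 164326) (nat_lit 230) (.e (nat_lit 163868) (nat_lit 2) (.e (nat_lit 196656) (nat_lit 11) (.e (nat_lit 16437) (nat_lit 9) .nil))))) (.g (nat_lit 0) (.e (nat_lit 389121) (nat_lit 0) .nil) .nil))) 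
(.lf (nat_lit 586492) (.g (nat_lit 3108) (.e (nat_lit 393268) (nat_lit 23) (.e (nat_lit 426436) (nat_lit 18) (.e (nat_lit 98333) (nat_lit 18) (.e (nat_lit 164332) (nat_lit 230) (.e (nat_lit 163905) (nat_lit 12) (.e (nat_lit 426566) (nat_lit 34) .nil)))))) (.g (nat_lit 1) (.e (nat_lit 389763) (nat_lit 0) .nil) .nil)))) (.nd (nat_lit 9) 
(.lf (nat_lit 586236) (.g (nat_lit 1063) (.e (nat_lit 393254) (nat_lit 18) (.e (nat_lit 164325) (nat_lit 230) (.e (nat_lit 163874) (nat_lit 3) (.e (nat_lit 212736) (nat_lit 9) .nil)))) (.g (nat_lit 0) (.e (nat_lit 389401) (nat_lit 0) .nil) .nil))) 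
(.lf (nat_lit 586748) (.g (nat_lit 1609) (.e (nat_lit 393281) (nat_lit 23) (.e (nat_lit 426098) (nat_lit 1) (.e (nat_lit 164332) (nat_lit 230) (.e (nat_lit 163877) (nat_lit 4) (.e (nat_lit 213032) (nat_lit 11) .nil))))) (.g (nat_lit 0) (.e (nat_lit 390055) (nat_lit 0) .nil) .nil))))))))))) 
(.nd (nat_lit 2) (.nd (nat_lit 3) (.nd (nat_lit 4) (.nd (nat_lit 5) (.nd (nat_lit 6) 
(.nd (nat_lit 7) (.nd (nat_lit 8) (.nd (nat_lit 9) 
(.lf (nat_lit 585730) (.g (nat_lit 1257) (.e (nat_lit 393251) (nat_lit 18) (.e (nat_lit 164332) (nat_lit 230) (.e (nat_lit 163869) (nat_lit 2) (.e (nat_lit 196624) (nat_lit 9) .nil)))) (.g (nat_lit 0) (.e (nat_lit 388823) (nat_lit 0) .nil) .nil))) 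
(.lf (nat_lit 586242) (.g (nat_lit 1352) (.e (nat_lit 393254) (nat_lit 18) (.e (nat_lit 164326) (nat_lit 230) (.e (nat_lit 163868) (nat_lit 2) (.e (nat_lit 196617) (nat_lit 9) (.e (nat_lit 419) (nat_lit 32) .nil))))) (.g (nat_lit 0) (.e (nat_lit 389407) (nat_lit 0) .nil) .nil)))) (.nd (nat_lit 9) 
(.lf (nat_lit 585986) (.g (nat_lit 2316) (.e (nat_lit 393253) (nat_lit 18) (.e (nat_lit 164326) (nat_lit 230) (.e (nat_lit 163870) (nat_lit 2) (.e (nat_lit 196628) (nat_lit 9) (.e (nat_lit 458) (nat_lit 34) (.e (nat_lit 450304) (nat_lit 18) .nil)))))) (.g (nat_lit 1) (.e (nat_lit 389127) (nat_lit 0) .nil) .nil))) 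
(.lf (nat_lit 586498) (.g (nat_lit 3612) (.e (nat_lit 393268) (nat_lit 23) (.e (nat_lit 426436) (nat_lit 18) (.e (nat_lit 98334) (nat_lit 18) (.e (nat_lit 164332) (nat_lit 230) (.e (nat_lit 163902) (nat_lit 12) (.e (nat_lit 426566) (nat_lit 34) .nil)))))) (.g (nat_lit 1) (.e (nat_lit 389769) (nat_lit 0) .nil) .nil))))) (.nd (nat_lit 8) (.nd (nat_lit 9) 
(.lf (nat_lit 585858) (.g (nat_lit 2506) (.e (nat_lit 393252) (nat_lit 18) (.e (nat_lit 164398) (nat_lit 256) (.e (nat_lit 57379) (nat_lit 3) (.e (nat_lit 98365) (nat_lit 26) (.e (nat_lit 426190) (nat_lit 9) .nil))))) (.g (nat_lit 0) (.e (nat_lit 388970) (nat_lit 0) .nil) .nil))) 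
(.lf (nat_lit 586370) (.g (nat_lit 1029) (.e (nat_lit 393254) (nat_lit 18) (.e (nat_lit 164330) (nat_lit 230) (.e (nat_lit 163874) (nat_lit 3) .nil))) (.g (nat_lit 0) (.e (nat_lit 389538) (nat_lit 0) .nil) .nil)))) (.nd (nat_lit 9) 
(.lf (nat_lit 586114) (.g (nat_lit 1096) (.e (nat_lit 393253) (nat_lit 18) (.e (nat_lit 164330) (nat_lit 230) (.e (nat_lit 163873) (nat_lit 3) (.e (nat_lit 204811) (nat_lit 9) (.e (nat_lit 426258) (nat_lit 9) .nil))))) (.g (nat_lit 0) (.e (nat_lit 389260) (nat_lit 0) .nil) .nil))) 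
(.lf (nat_lit 586626) (.g (nat_lit 3809) (.e (nat_lit 393271) (nat_lit 23) (.e (nat_lit 426436) (nat_lit 18) (.e (nat_lit 98335) (nat_lit 18) (.e (nat_lit 164330) (nat_lit 230) (.e (nat_lit 163904) (nat_lit 12) (.e (nat_lit 426566) (nat_lit 34) .nil)))))) (.g (nat_lit 1) (.e (nat_lit 389902) (nat_lit 0) .nil) .nil)))))) (.nd (nat_lit 7) (.nd (nat_lit 8) (.nd (nat_lit 9) 
(.lf (nat_lit 585794) (.g (nat_lit 545) (.e (nat_lit 393252) (nat_lit 18) (.e (nat_lit 164331) (nat_lit 230) (.e (nat_lit 163873) (nat_lit 3) .nil))) (.g (nat_lit 0) (.e (nat_lit 388905) (nat_lit 0) .nil) .nil))) 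
(.lf (nat_lit 586306) (.g (nat_lit 1523) (.e (nat_lit 393254) (nat_lit 18) (.e (nat_lit 164326) (nat_lit 230) (.e (nat_lit 163871) (nat_lit 2) (.e (nat_lit 196635) (nat_lit 9) (.e (nat_lit 392) (nat_lit 32) .nil))))) (.g (nat_lit 0) (.e (nat_lit 389472) (nat_lit 0) .nil) .nil)))) (.nd (nat_lit 9) 
(.lf (nat_lit 586050) (.g (nat_lit 1336) (.e (nat_lit 393253) (nat_lit 18) (.e (nat_lit 164327) (nat_lit 230) (.e (nat_lit 163869) (nat_lit 2) (.e (nat_lit 196653) (nat_lit 11) .nil)))) (.g (nat_lit 0) (.e (nat_lit 389194) (nat_lit 0) .nil) .nil))) 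
(.lf (nat_lit 586562) (.g (nat_lit 2713) (.e (nat_lit 393270) (nat_lit 23) (.e (nat_lit 426436) (nat_lit 18) (.e (nat_lit 98335) (nat_lit 18) (.e (nat_lit 164326) (nat_lit 230) (.e (nat_lit 163903) (nat_lit 12) (.e (nat_lit 426567) (nat_lit 34) .nil)))))) (.g (nat_lit 1) (.e (nat_lit 389835) (nat_lit 0) .nil) .nil))))) (.nd (nat_lit 8) (.nd (nat_lit 9) 
(.lf (nat_lit 585922) (.g (nat_lit 1789) (.e (nat_lit 393253) (nat_lit 18) (.e (nat_lit 164325) (nat_lit 230) (.e (nat_lit 163873) (nat_lit 3) (.e (nat_lit 204808) (nat_lit 9) (.e (nat_lit 426190) (nat_lit 9) .nil))))) (.g (nat_lit 0) (.e (nat_lit 389061) (nat_lit 0) .nil) .nil))) 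
(.lf (nat_lit 586434) (.g (nat_lit 2916) (.e (nat_lit 393254) (nat_lit 18) (.e (nat_lit 164332) (nat_lit 230) (.e (nat_lit 163873) (nat_lit 3) (.e (nat_lit 204813) (nat_lit 9) (.e (nat_lit 426199) (nat_lit 9) .nil))))) (.g (nat_lit 0) (.e (nat_lit 389615) (nat_lit 0) .nil) .nil)))) (.nd (nat_lit 9) 
(.lf (nat_lit 586178) (.g (nat_lit 1701) (.e (nat_lit 393253) (nat_lit 18) (.e (nat_lit 164403) (nat_lit 256) (.e (nat_lit 57378) (nat_lit 3) (.e (nat_lit 98354) (nat_lit 26) .nil)))) (.g (nat_lit 0) (.e (nat_lit 389338) (nat_lit 0) .nil) .nil))) 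
(.lf (nat_lit 586690) (.g (nat_lit 2258) (.e (nat_lit 393273) (nat_lit 23) (.e (nat_lit 426436) (nat_lit 18) (.e (nat_lit 98335) (nat_lit 18) (.e (nat_lit 164305) (nat_lit 226) (.e (nat_lit 2439) (nat_lit 157) (.e (nat_lit 2900) (nat_lit 184) (.e (nat_lit 426565) (nat_lit 34) .nil))))))) (.g (nat_lit 1) (.e (nat_lit 389967) (nat_lit 0) .nil) .nil))))))) 
(.nd (nat_lit 6) (.nd (nat_lit 7) (.nd (nat_lit 8) (.nd (nat_lit 9) 
(.lf (nat_lit 585762) (.g (nat_lit 3253) (.e (nat_lit 393251) (nat_lit 18) (.e (nat_lit 164399) (nat_lit 256) (.e (nat_lit 57378) (nat_lit 3) (.e (nat_lit 98365) (nat_lit 26) (.e (nat_lit 426187) (nat_lit 9) (.e (nat_lit 426568) (nat_lit 34) .nil)))))) (.g (nat_lit 1) (.e (nat_lit 388865) (nat_lit 0) .nil) .nil))) 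
(.lf (nat_lit 586274) (.g (nat_lit 1635) (.e (nat_lit 393254) (nat_lit 18) (.e (nat_lit 164326) (nat_lit 230) (.e (nat_lit 163870) (nat_lit 2) (.e (nat_lit 196617) (nat_lit 9) .nil)))) (.g (nat_lit 0) (.e (nat_lit 389440) (nat_lit 0) .nil) .nil)))) (.nd (nat_lit 9) 
(.lf (nat_lit 586018) (.g (nat_lit 2376) (.e (nat_lit 393253) (nat_lit 18) (.e (nat_lit 164326) (nat_lit 230) (.e (nat_lit 163871) (nat_lit 2) (.e (nat_lit 196641) (nat_lit 9) .nil)))) (.g (nat_lit 0) (.e (nat_lit 389160) (nat_lit 0) .nil) .nil))) 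
(.lf (nat_lit 586530) (.g (nat_lit 3077) (.e (nat_lit 393268) (nat_lit 23) (.e (nat_lit 426438) (nat_lit 18) (.e (nat_lit 98335) (nat_lit 18) (.e (nat_lit 164332) (nat_lit 230) (.e (nat_lit 163905) (nat_lit 12) (.e (nat_lit 426566) (nat_lit 34) .nil)))))) (.g (nat_lit 1) (.e (nat_lit 389801) (nat_lit 0) .nil) .nil))))) (.nd (nat_lit 8) (.nd (nat_lit 9) 
(.lf (nat_lit 585890) (.g (nat_lit 3956) (.e (nat_lit 393253) (nat_lit 18) (.e (nat_lit 164324) (nat_lit 230) (.e (nat_lit 163873) (nat_lit 3) (.e (nat_lit 204813) (nat_lit 9) (.e (nat_lit 426196) (nat_lit 9) (.e (nat_lit 426568) (nat_lit 34) .nil)))))) (.g (nat_lit 1) (.e (nat_lit 389027) (nat_lit 0) .nil) .nil))) 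
(.lf (nat_lit 586402) (.g (nat_lit 2407) (.e (nat_lit 393254) (nat_lit 18) (.e (nat_lit 164332) (nat_lit 230) (.e (nat_lit 163869) (nat_lit 2) (.e (nat_lit 196624) (nat_lit 9) (.e (nat_lit 457) (nat_lit 34) (.e (nat_lit 450304) (nat_lit 18) .nil)))))) (.g (nat_lit 1) (.e (nat_lit 389583) (nat_lit 0) .nil) .nil)))) (.nd (nat_lit 9) 
(.lf (nat_lit 586146) (.g (nat_lit 2684) (.e (nat_lit 393253) (nat_lit 18) (.e (nat_lit 164332) (nat_lit 230) (.e (nat_lit 163869) (nat_lit 2) (.e (nat_lit 196624) (nat_lit 9) (.e (nat_lit 454) (nat_lit 34) (.e (nat_lit 450304) (nat_lit 18) .nil)))))) (.g (nat_lit 1) (.e (nat_lit 389292) (nat_lit 0) .nil) .nil))) 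
(.lf (nat_lit 586658) (.g (nat_lit 1600) (.e (nat_lit 393272) (nat_lit 23) (.e (nat_lit 426436) (nat_lit 18) (.e (nat_lit 98334) (nat_lit 18) (.e (nat_lit 164305) (nat_lit 226) (.e (nat_lit 2439) (nat_lit 157) .nil))))) (.g (nat_lit 0) (.e (nat_lit 389934) (nat_lit 0) .nil) .nil)))))) (.nd (nat_lit 7) (.nd (nat_lit 8) (.nd (nat_lit 9) 
(.lf (nat_lit 585826) (.g (nat_lit 2060) (.e (nat_lit 393252) (nat_lit 18) (.e (nat_lit 164332) (nat_lit 230) (.e (nat_lit 163869) (nat_lit 2) (.e (nat_lit 196624) (nat_lit 9) (.e (nat_lit 7936) (nat_lit 34) (.e (nat_lit 450304) (nat_lit 18) .nil)))))) (.g (nat_lit 1) (.e (nat_lit 388938) (nat_lit 0) .nil) .nil))) 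
(.lf (nat_lit 586338) (.g (nat_lit 2520) (.e (nat_lit 393254) (nat_lit 18) (.e (nat_lit 164327) (nat_lit 230) (.e (nat_lit 163871) (nat_lit 2) (.e (nat_lit 196656) (nat_lit 11) (.e (nat_lit 16436) (nat_lit 9) (.e (nat_lit 426566) (nat_lit 34) .nil)))))) (.g (nat_lit 1) (.e (nat_lit 389504) (nat_lit 0) .nil) .nil)))) (.nd (nat_lit 9) 
(.lf (nat_lit 586082) (.g (nat_lit 1436) (.e (nat_lit 393253) (nat_lit 18) (.e (nat_lit 164327) (nat_lit 230) (.e (nat_lit 163874) (nat_lit 3) (.e (nat_lit 212736) (nat_lit 9) .nil)))) (.g (nat_lit 0) (.e (nat_lit 389226) (nat_lit 0) .nil) .nil))) 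
(.lf (nat_lit 586594) (.g (nat_lit 1194) (.e (nat_lit 393271) (nat_lit 23) (.e (nat_lit 426131) (nat_lit 3) (.e (nat_lit 204829) (nat_lit 18) (.e (nat_lit 57655) (nat_lit 152) .nil)))) (.g (nat_lit 0) (.e (nat_lit 389868) (nat_lit 0) .nil) .nil))))) (.nd (nat_lit 8) (.nd (nat_lit 9) 
(.lf (nat_lit 585954) (.g (nat_lit 2134) (.e (nat_lit 393253) (nat_lit 18) (.e (nat_lit 164326) (nat_lit 230) (.e (nat_lit 163868) (nat_lit 2) (.e (nat_lit 196624) (nat_lit 9) (.e (nat_lit 457) (nat_lit 34) (.e (nat_lit 450304) (nat_lit 18) .nil)))))) (.g (nat_lit 1) (.e (nat_lit 389094) (nat_lit 0) .nil) .nil))) 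
(.lf (nat_lit 586466) (.g (nat_lit 303) (.e (nat_lit 393264) (nat_lit 22) (.e (nat_lit 417795) (nat_lit 0) (.e (nat_lit 580) (nat_lit 43) .nil))) (.g (nat_lit 0) (.e (nat_lit 389725) (nat_lit 0) .nil) .nil)))) (.nd (nat_lit 9) 
(.lf (nat_lit 586210) (.g (nat_lit 1412) (.e (nat_lit 393254) (nat_lit 18) (.e (nat_lit 164324) (nat_lit 230) (.e (nat_lit 163873) (nat_lit 3) (.e (nat_lit 204811) (nat_lit 9) (.e (nat_lit 426261) (nat_lit 9) (.e (nat_lit 433920) (nat_lit 34) .nil)))))) (.g (nat_lit 1) (.e (nat_lit 389372) (nat_lit 0) .nil) .nil))) 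
(.lf (nat_lit 586722) (.g (nat_lit 1500) (.e (nat_lit 393279) (nat_lit 23) (.e (nat_lit 426110) (nat_lit 1) (.e (nat_lit 164348) (nat_lit 240) (.e (nat_lit 2638) (nat_lit 165) (.e (nat_lit 188160) (nat_lit 32) (.e (nat_lit 1663) (nat_lit 115) .nil)))))) (.g (nat_lit 1) (.e (nat_lit 390024) (nat_lit 0) .nil) .nil)))))))) 
(.nd (nat_lit 5) (.nd (nat_lit 6) (.nd (nat_lit 7) (.nd (nat_lit 8) (.nd (nat_lit 9) 
(.lf (nat_lit 585746) (.g (nat_lit 3638) (.e (nat_lit 393251) (nat_lit 18) (.e (nat_lit 164332) (nat_lit 230) (.e (nat_lit 163873) (nat_lit 3) (.e (nat_lit 204813) (nat_lit 9) (.e (nat_lit 426200) (nat_lit 9) (.e (nat_lit 426566) (nat_lit 34) .nil)))))) (.g (nat_lit 1) (.e (nat_lit 388839) (nat_lit 0) .nil) .nil))) 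
(.lf (nat_lit 586258) (.g (nat_lit 2101) (.e (nat_lit 393254) (nat_lit 18) (.e (nat_lit 164326) (nat_lit 230) (.e (nat_lit 163868) (nat_lit 2) (.e (nat_lit 196625) (nat_lit 9) .nil)))) (.g (nat_lit 0) (.e (nat_lit 389423) (nat_lit 0) .nil) .nil)))) (.nd (nat_lit 9) 
(.lf (nat_lit 586002) (.g (nat_lit 1712) (.e (nat_lit 393253) (nat_lit 18) (.e (nat_lit 164326) (nat_lit 230) (.e (nat_lit 163871) (nat_lit 2) (.e (nat_lit 196622) (nat_lit 9) (.e (nat_lit 476) (nat_lit 37) (.e (nat_lit 474880) (nat_lit 18) .nil)))))) (.g (nat_lit 1) (.e (nat_lit 389143) (nat_lit 0) .nil) .nil))) 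
(.lf (nat_lit 586514) (.g (nat_lit 2527) (.e (nat_lit 393268) (nat_lit 23) (.e (nat_lit 426438) (nat_lit 18) (.e (nat_lit 98334) (nat_lit 18) (.e (nat_lit 164322) (nat_lit 230) (.e (nat_lit 163902) (nat_lit 12) (.e (nat_lit 426568) (nat_lit 34) .nil)))))) (.g (nat_lit 1) (.e (nat_lit 389785) (nat_lit 0) .nil) .nil))))) (.nd (nat_lit 8) (.nd (nat_lit 9) 
(.lf (nat_lit 585874) (.g (nat_lit 2230) (.e (nat_lit 393253) (nat_lit 18) (.e (nat_lit 164324) (nat_lit 230) (.e (nat_lit 163868) (nat_lit 2) (.e (nat_lit 196624) (nat_lit 9) (.e (nat_lit 433) (nat_lit 32) (.e (nat_lit 426228) (nat_lit 9) (.e (nat_lit 426565) (nat_lit 34) .nil))))))) (.g (nat_lit 1) (.e (nat_lit 389011) (nat_lit 0) .nil) .nil))) 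
(.lf (nat_lit 586386) (.g (nat_lit 2339) (.e (nat_lit 393254) (nat_lit 18) (.e (nat_lit 164332) (nat_lit 230) (.e (nat_lit 163867) (nat_lit 2) (.e (nat_lit 196652) (nat_lit 11) .nil)))) (.g (nat_lit 0) (.e (nat_lit 389567) (nat_lit 0) .nil) .nil)))) (.nd (nat_lit 9) 
(.lf (nat_lit 586130) (.g (nat_lit 2398) (.e (nat_lit 393253) (nat_lit 18) (.e (nat_lit 164332) (nat_lit 230) (.e (nat_lit 163867) (nat_lit 2) (.e (nat_lit 196624) (nat_lit 9) (.e (nat_lit 457) (nat_lit 34) (.e (nat_lit 450304) (nat_lit 18) .nil)))))) (.g (nat_lit 1) (.e (nat_lit 389276) (nat_lit 0) .nil) .nil))) 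
(.lf (nat_lit 586642) (.g (nat_lit 2207) (.e (nat_lit 393272) (nat_lit 23) (.e (nat_lit 426131) (nat_lit 3) (.e (nat_lit 204829) (nat_lit 18) (.e (nat_lit 57654) (nat_lit 152) (.e (nat_lit 2633) (nat_lit 164) (.e (nat_lit 179968) (nat_lit 34) .nil)))))) (.g (nat_lit 1) (.e (nat_lit 389918) (nat_lit 0) .nil) .nil)))))) (.nd (nat_lit 7) (.nd (nat_lit 8) (.nd (nat_lit 9) 
(.lf (nat_lit 585810) (.g (nat_lit 2113) (.e (nat_lit 393252) (nat_lit 18) (.e (nat_lit 164332) (nat_lit 230) (.e (nat_lit 163869) (nat_lit 2) (.e (nat_lit 196618) (nat_lit 9) .nil)))) (.g (nat_lit 0) (.e (nat_lit 388922) (nat_lit 0) .nil) .nil))) 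
(.lf (nat_lit 586322) (.g (nat_lit 1573) (.e (nat_lit 393254) (nat_lit 18) (.e (nat_lit 164327) (nat_lit 230) (.e (nat_lit 163867) (nat_lit 2) (.e (nat_lit 196654) (nat_lit 11) .nil)))) (.g (nat_lit 0) (.e (nat_lit 389488) (nat_lit 0) .nil) .nil)))) (.nd (nat_lit 9) 
(.lf (nat_lit 586066) (.g (nat_lit 2098) (.e (nat_lit 393253) (nat_lit 18) (.e (nat_lit 164327) (nat_lit 230) (.e (nat_lit 163871) (nat_lit 2) (.e (nat_lit 196656) (nat_lit 11) (.e (nat_lit 16444) (nat_lit 9) .nil))))) (.g (nat_lit 0) (.e (nat_lit 389210) (nat_lit 0) .nil) .nil))) 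
(.lf (nat_lit 586578) (.g (nat_lit 2646) (.e (nat_lit 393270) (nat_lit 23) (.e (nat_lit 426438) (nat_lit 18) (.e (nat_lit 98335) (nat_lit 18) (.e (nat_lit 164330) (nat_lit 230) (.e (nat_lit 163905) (nat_lit 12) (.e (nat_lit 426567) (nat_lit 34) .nil)))))) (.g (nat_lit 1) (.e (nat_lit 389851) (nat_lit 0) .nil) .nil))))) (.nd (nat_lit 8) (.nd (nat_lit 9) 
(.lf (nat_lit 585938) (.g (nat_lit 1709) (.e (nat_lit 393253) (nat_lit 18) (.e (nat_lit 164325) (nat_lit 230) (.e (nat_lit 163875) (nat_lit 3) (.e (nat_lit 204813) (nat_lit 9) (.e (nat_lit 426197) (nat_lit 9) .nil))))) (.g (nat_lit 0) (.e (nat_lit 389077) (nat_lit 0) .nil) .nil))) 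
(.lf (nat_lit 586450) (.g (nat_lit 1584) (.e (nat_lit 401152) (nat_lit 18) (.e (nat_lit 164399) (nat_lit 256) (.e (nat_lit 57377) (nat_lit 3) (.e (nat_lit 98365) (nat_lit 26) (.e (nat_lit 426187) (nat_lit 9) .nil))))) (.g (nat_lit 0) (.e (nat_lit 389643) (nat_lit 0) .nil) .nil)))) (.nd (nat_lit 9) 
(.lf (nat_lit 586194) (.g (nat_lit 1605) (.e (nat_lit 393254) (nat_lit 18) (.e (nat_lit 164322) (nat_lit 230) (.e (nat_lit 163873) (nat_lit 3) (.e (nat_lit 204811) (nat_lit 9) (.e (nat_lit 426262) (nat_lit 9) (.e (nat_lit 426565) (nat_lit 34) .nil)))))) (.g (nat_lit 1) (.e (nat_lit 389356) (nat_lit 0) .nil) .nil))) 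
(.lf (nat_lit 586706) (.g (nat_lit 1987) (.e (nat_lit 393275) (nat_lit 23) (.e (nat_lit 426125) (nat_lit 2) (.e (nat_lit 196661) (nat_lit 12) (.e (nat_lit 57357) (nat_lit 0) .nil)))) (.g (nat_lit 0) (.e (nat_lit 389989) (nat_lit 0) .nil) .nil))))))) (.nd (nat_lit 6) (.nd (nat_lit 7) (.nd (nat_lit 8) (.nd (nat_lit 9) 
(.lf (nat_lit 585778) (.g (nat_lit 2118) (.e (nat_lit 393252) (nat_lit 18) (.e (nat_lit 164330) (nat_lit 230) (.e (nat_lit 163867) (nat_lit 2) (.e (nat_lit 196656) (nat_lit 11) (.e (nat_lit 16432) (nat_lit 9) .nil))))) (.g (nat_lit 0) (.e (nat_lit 388889) (nat_lit 0) .nil) .nil))) 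
(.lf (nat_lit 586290) (.g (nat_lit 1756) (.e (nat_lit 393254) (nat_lit 18) (.e (nat_lit 164326) (nat_lit 230) (.e (nat_lit 163871) (nat_lit 2) (.e (nat_lit 196623) (nat_lit 9) (.e (nat_lit 455) (nat_lit 34) (.e (nat_lit 450304) (nat_lit 18) .nil)))))) (.g (nat_lit 1) (.e (nat_lit 389456) (nat_lit 0) .nil) .nil)))) (.nd (nat_lit 9) 
(.lf (nat_lit 586034) (.g (nat_lit 2127) (.e (nat_lit 393253) (nat_lit 18) (.e (nat_lit 164326) (nat_lit 230) (.e (nat_lit 163875) (nat_lit 3) (.e (nat_lit 204811) (nat_lit 9) (.e (nat_lit 426234) (nat_lit 9) (.e (nat_lit 426565) (nat_lit 34) .nil)))))) (.g (nat_lit 1) (.e (nat_lit 389176) (nat_lit 0) .nil) .nil))) 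
(.lf (nat_lit 586546) (.g (nat_lit 1862) (.e (nat_lit 393270) (nat_lit 23) (.e (nat_lit 426436) (nat_lit 18) (.e (nat_lit 98334) (nat_lit 18) (.e (nat_lit 164329) (nat_lit 230) (.e (nat_lit 163902) (nat_lit 12) .nil))))) (.g (nat_lit 0) (.e (nat_lit 389819) (nat_lit 0) .nil) .nil))))) (.nd (nat_lit 8) (.nd (nat_lit 9) 
(.lf (nat_lit 585906) (.g (nat_lit 2533) (.e (nat_lit 393253) (nat_lit 18) (.e (nat_lit 164325) (nat_lit 230) (.e (nat_lit 163868) (nat_lit 2) (.e (nat_lit 196624) (nat_lit 9) (.e (nat_lit 459) (nat_lit 34) (.e (nat_lit 450304) (nat_lit 18) .nil)))))) (.g (nat_lit 1) (.e (nat_lit 389045) (nat_lit 0) .nil) .nil))) 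
(.lf (nat_lit 586418) (.g (nat_lit 3495) (.e (nat_lit 393254) (nat_lit 18) (.e (nat_lit 164332) (nat_lit 230) (.e (nat_lit 163869) (nat_lit 2) (.e (nat_lit 196634) (nat_lit 9) .nil)))) (.g (nat_lit 0) (.e (nat_lit 389599) (nat_lit 0) .nil) .nil)))) (.nd (nat_lit 9) 
(.lf (nat_lit 586162) (.g (nat_lit 1499) (.e (nat_lit 393253) (nat_lit 18) (.e (nat_lit 164332) (nat_lit 230) (.e (nat_lit 163873) (nat_lit 3) (.e (nat_lit 204811) (nat_lit 9) (.e (nat_lit 426261) (nat_lit 9) (.e (nat_lit 433920) (nat_lit 34) .nil)))))) (.g (nat_lit 1) (.e (nat_lit 389308) (nat_lit 0) .nil) .nil))) 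
(.lf (nat_lit 586674) (.g (nat_lit 2770) (.e (nat_lit 393273) (nat_lit 23) (.e (nat_lit 426131) (nat_lit 3) (.e (nat_lit 204830) (nat_lit 18) (.e (nat_lit 57651) (nat_lit 152) (.e (nat_lit 2619) (nat_lit 164) (.e (nat_lit 179968) (nat_lit 34) .nil)))))) (.g (nat_lit 1) (.e (nat_lit 389950) (nat_lit 0) .nil) .nil)))))) (.nd (nat_lit 7) (.nd (nat_lit 8) (.nd (nat_lit 9) 
(.lf (nat_lit 585842) (.g (nat_lit 2133) (.e (nat_lit 393252) (nat_lit 18) (.e (nat_lit 164332) (nat_lit 230) (.e (nat_lit 163874) (nat_lit 3) (.e (nat_lit 204811) (nat_lit 9) (.e (nat_lit 426230) (nat_lit 9) (.e (nat_lit 426565) (nat_lit 34) .nil)))))) (.g (nat_lit 1) (.e (nat_lit 388954) (nat_lit 0) .nil) .nil))) 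
(.lf (nat_lit 586354) (.g (nat_lit 2138) (.e (nat_lit 393254) (nat_lit 18) (.e (nat_lit 164329) (nat_lit 230) (.e (nat_lit 163867) (nat_lit 2) (.e (nat_lit 196624) (nat_lit 9) (.e (nat_lit 457) (nat_lit 34) (.e (nat_lit 450304) (nat_lit 18) .nil)))))) (.g (nat_lit 1) (.e (nat_lit 389522) (nat_lit 0) .nil) .nil)))) (.nd (nat_lit 9) 
(.lf (nat_lit 586098) (.g (nat_lit 3009) (.e (nat_lit 393253) (nat_lit 18) (.e (nat_lit 164329) (nat_lit 230) (.e (nat_lit 163867) (nat_lit 2) (.e (nat_lit 196652) (nat_lit 11) (.e (nat_lit 16433) (nat_lit 9) (.e (nat_lit 426568) (nat_lit 34) .nil)))))) (.g (nat_lit 1) (.e (nat_lit 389244) (nat_lit 0) .nil) .nil))) 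
(.lf (nat_lit 586610) (.g (nat_lit 2584) (.e (nat_lit 393271) (nat_lit 23) (.e (nat_lit 426131) (nat_lit 3) (.e (nat_lit 204831) (nat_lit 18) (.e (nat_lit 57667) (nat_lit 152) (.e (nat_lit 2619) (nat_lit 164) (.e (nat_lit 179968) (nat_lit 34) .nil)))))) (.g (nat_lit 1) (.e (nat_lit 389884) (nat_lit 0) .nil) .nil))))) (.nd (nat_lit 8) (.nd (nat_lit 9) 
(.lf (nat_lit 585970) (.g (nat_lit 2046) (.e (nat_lit 393253) (nat_lit 18) (.e (nat_lit 164326) (nat_lit 230) (.e (nat_lit 163868) (nat_lit 2) (.e (nat_lit 196633) (nat_lit 9) .nil)))) (.g (nat_lit 0) (.e (nat_lit 389110) (nat_lit 0) .nil) .nil))) 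
(.lf (nat_lit 586482) (.g (nat_lit 2772) (.e (nat_lit 393266) (nat_lit 23) (.e (nat_lit 426438) (nat_lit 18) (.e (nat_lit 98333) (nat_lit 18) (.e (nat_lit 164332) (nat_lit 230) (.e (nat_lit 163902) (nat_lit 12) (.e (nat_lit 426568) (nat_lit 34) .nil)))))) (.g (nat_lit 1) (.e (nat_lit 389753) (nat_lit 0) .nil) .nil)))) (.nd (nat_lit 9) 
(.lf (nat_lit 586226) (.g (nat_lit 1984) (.e (nat_lit 393254) (nat_lit 18) (.e (nat_lit 164325) (nat_lit 230) (.e (nat_lit 163871) (nat_lit 2) (.e (nat_lit 196624) (nat_lit 9) (.e (nat_lit 479) (nat_lit 37) (.e (nat_lit 474880) (nat_lit 18) .nil)))))) (.g (nat_lit 1) (.e (nat_lit 389391) (nat_lit 0) .nil) .nil))) 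
(.lf (nat_lit 586738) (.g (nat_lit 2743) (.e (nat_lit 393281) (nat_lit 23) (.e (nat_lit 426098) (nat_lit 1) (.e (nat_lit 164325) (nat_lit 230) (.e (nat_lit 163882) (nat_lit 4) (.e (nat_lit 213030) (nat_lit 11) (.e (nat_lit 24658) (nat_lit 13) .nil)))))) (.g (nat_lit 1) (.e (nat_lit 390045) (nat_lit 0) .nil) .nil))))))))) 
(.nd (nat_lit 4) (.nd (nat_lit 5) (.nd (nat_lit 6) (.nd (nat_lit 7) (.nd (nat_lit 8) 
(.nd (nat_lit 9) 
(.lf (nat_lit 585738) (.g (nat_lit 2415) (.e (nat_lit 393251) (nat_lit 18) (.e (nat_lit 164332) (nat_lit 230) (.e (nat_lit 163869) (nat_lit 2) (.e (nat_lit 196624) (nat_lit 9) (.e (nat_lit 479) (nat_lit 37) (.e (nat_lit 474880) (nat_lit 18) .nil)))))) (.g (nat_lit 1) (.e (nat_lit 388831) (nat_lit 0) .nil) .nil))) 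
(.lf (nat_lit 586250) (.g (nat_lit 1792) (.e (nat_lit 393254) (nat_lit 18) (.e (nat_lit 164326) (nat_lit 230) (.e (nat_lit 163868) (nat_lit 2) (.e (nat_lit 196623) (nat_lit 9) (.e (nat_lit 457) (nat_lit 34) (.e (nat_lit 450304) (nat_lit 18) .nil)))))) (.g (nat_lit 1) (.e (nat_lit 389415) (nat_lit 0) .nil) .nil)))) (.nd (nat_lit 9) 
(.lf (nat_lit 585994) (.g (nat_lit 1180) (.e (nat_lit 393253) (nat_lit 18) (.e (nat_lit 164326) (nat_lit 230) (.e (nat_lit 163870) (nat_lit 2) (.e (nat_lit 196661) (nat_lit 12) .nil)))) (.g (nat_lit 0) (.e (nat_lit 389135) (nat_lit 0) .nil) .nil))) 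
(.lf (nat_lit 586506) (.g (nat_lit 3408) (.e (nat_lit 393268) (nat_lit 23) (.e (nat_lit 426436) (nat_lit 18) (.e (nat_lit 98335) (nat_lit 18) (.e (nat_lit 164332) (nat_lit 230) (.e (nat_lit 163905) (nat_lit 12) (.e (nat_lit 426566) (nat_lit 34) .nil)))))) (.g (nat_lit 1) (.e (nat_lit 389777) (nat_lit 0) .nil) .nil))))) (.nd (nat_lit 8) (.nd (nat_lit 9) 
(.lf (nat_lit 585866) (.g (nat_lit 2034) (.e (nat_lit 393253) (nat_lit 18) (.e (nat_lit 164178) (nat_lit 154) (.e (nat_lit 57409) (nat_lit 12) (.e (nat_lit 336316) (nat_lit 17) (.e (nat_lit 196681) (nat_lit 17) .nil))))) (.g (nat_lit 0) (.e (nat_lit 388994) (nat_lit 0) .nil) .nil))) 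
(.lf (nat_lit 586378) (.g (nat_lit 1776) (.e (nat_lit 393254) (nat_lit 18) (.e (nat_lit 164332) (nat_lit 230) (.e (nat_lit 163865) (nat_lit 2) (.e (nat_lit 196654) (nat_lit 11) .nil)))) (.g (nat_lit 0) (.e (nat_lit 389559) (nat_lit 0) .nil) .nil)))) (.nd (nat_lit 9) 
(.lf (nat_lit 586122) (.g (nat_lit 2810) (.e (nat_lit 393253) (nat_lit 18) (.e (nat_lit 164331) (nat_lit 230) (.e (nat_lit 163869) (nat_lit 2) (.e (nat_lit 196654) (nat_lit 11) (.e (nat_lit 16434) (nat_lit 9) .nil))))) (.g (nat_lit 0) (.e (nat_lit 389268) (nat_lit 0) .nil) .nil))) 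
(.lf (nat_lit 586634) (.g (nat_lit 3008) (.e (nat_lit 393271) (nat_lit 23) (.e (nat_lit 426438) (nat_lit 18) (.e (nat_lit 98335) (nat_lit 18) (.e (nat_lit 164322) (nat_lit 230) (.e (nat_lit 163904) (nat_lit 12) (.e (nat_lit 426566) (nat_lit 34) .nil)))))) (.g (nat_lit 1) (.e (nat_lit 389910) (nat_lit 0) .nil) .nil)))))) (.nd (nat_lit 7) (.nd (nat_lit 8) (.nd (nat_lit 9) 
(.lf (nat_lit 585802) (.g (nat_lit 1753) (.e (nat_lit 393252) (nat_lit 18) (.e (nat_lit 164332) (nat_lit 230) (.e (nat_lit 163867) (nat_lit 2) (.e (nat_lit 196624) (nat_lit 9) (.e (nat_lit 433) (nat_lit 32) (.e (nat_lit 426228) (nat_lit 9) (.e (nat_lit 426565) (nat_lit 34) .nil))))))) (.g (nat_lit 1) (.e (nat_lit 388913) (nat_lit 0) .nil) .nil))) 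
(.lf (nat_lit 586314) (.g (nat_lit 3519) (.e (nat_lit 393254) (nat_lit 18) (.e (nat_lit 164326) (nat_lit 230) (.e (nat_lit 163873) (nat_lit 3) (.e (nat_lit 204813) (nat_lit 9) (.e (nat_lit 426188) (nat_lit 9) (.e (nat_lit 426566) (nat_lit 34) .nil)))))) (.g (nat_lit 1) (.e (nat_lit 389480) (nat_lit 0) .nil) .nil)))) (.nd (nat_lit 9) 
(.lf (nat_lit 586058) (.g (nat_lit 2843) (.e (nat_lit 393253) (nat_lit 18) (.e (nat_lit 164327) (nat_lit 230) (.e (nat_lit 163871) (nat_lit 2) (.e (nat_lit 196624) (nat_lit 9) (.e (nat_lit 457) (nat_lit 34) (.e (nat_lit 450304) (nat_lit 18) .nil)))))) (.g (nat_lit 1) (.e (nat_lit 389202) (nat_lit 0) .nil) .nil))) 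
(.lf (nat_lit 586570) (.g (nat_lit 4048) (.e (nat_lit 393270) (nat_lit 23) (.e (nat_lit 426436) (nat_lit 18) (.e (nat_lit 98335) (nat_lit 18) (.e (nat_lit 164403) (nat_lit 256) .nil)))) (.g (nat_lit 0) (.e (nat_lit 389843) (nat_lit 0) .nil) .nil))))) (.nd (nat_lit 8) (.nd (nat_lit 9) 
(.lf (nat_lit 585930) (.g (nat_lit 1416) (.e (nat_lit 393253) (nat_lit 18) (.e (nat_lit 164325) (nat_lit 230) (.e (nat_lit 163874) (nat_lit 3) (.e (nat_lit 204811) (nat_lit 9) .nil)))) (.g (nat_lit 0) (.e (nat_lit 389069) (nat_lit 0) .nil) .nil))) 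
(.lf (nat_lit 586442) (.g (nat_lit 1032) (.e (nat_lit 393254) (nat_lit 18) (.e (nat_lit 164345) (nat_lit 240) (.e (nat_lit 2600) (nat_lit 163) (.e (nat_lit 163959) (nat_lit 24) (.e (nat_lit 524319) (nat_lit 11) (.e (nat_lit 450304) (nat_lit 18) .nil)))))) (.g (nat_lit 1) (.e (nat_lit 389624) (nat_lit 0) .nil) .nil)))) (.nd (nat_lit 9) 
(.lf (nat_lit 586186) (.g (nat_lit 2453) (.e (nat_lit 393254) (nat_lit 18) (.e (nat_lit 164322) (nat_lit 230) (.e (nat_lit 163867) (nat_lit 2) (.e (nat_lit 196624) (nat_lit 9) (.e (nat_lit 479) (nat_lit 37) (.e (nat_lit 474880) (nat_lit 18) .nil)))))) (.g (nat_lit 1) (.e (nat_lit 389348) (nat_lit 0) .nil) .nil))) 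
(.lf (nat_lit 586698) (.g (nat_lit 3035) (.e (nat_lit 393274) (nat_lit 23) (.e (nat_lit 426043) (nat_lit 0) (.e (nat_lit 3409) (nat_lit 212) (.e (nat_lit 655378) (nat_lit 4) (.e (nat_lit 172124) (nat_lit 14) (.e (nat_lit 491571) (nat_lit 13) .nil)))))) (.g (nat_lit 1) (.e (nat_lit 389976) (nat_lit 0) .nil) .nil))))))) (.nd (nat_lit 6) (.nd (nat_lit 7) (.nd (nat_lit 8) (.nd (nat_lit 9) 
(.lf (nat_lit 585770) (.g (nat_lit 1169) (.e (nat_lit 393252) (nat_lit 18) (.e (nat_lit 164305) (nat_lit 226) (.e (nat_lit 2612) (nat_lit 163) (.e (nat_lit 163964) (nat_lit 25) .nil)))) (.g (nat_lit 0) (.e (nat_lit 388881) (nat_lit 0) .nil) .nil))) 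
(.lf (nat_lit 586282) (.g (nat_lit 2010) (.e (nat_lit 393254) (nat_lit 18) (.e (nat_lit 164326) (nat_lit 230) (.e (nat_lit 163870) (nat_lit 2) (.e (nat_lit 196630) (nat_lit 9) (.e (nat_lit 7936) (nat_lit 34) (.e (nat_lit 450304) (nat_lit 18) .nil)))))) (.g (nat_lit 1) (.e (nat_lit 389448) (nat_lit 0) .nil) .nil)))) (.nd (nat_lit 9) 
(.lf (nat_lit 586026) (.g (nat_lit 2647) (.e (nat_lit 393253) (nat_lit 18) (.e (nat_lit 164326) (nat_lit 230) (.e (nat_lit 163873) (nat_lit 3) (.e (nat_lit 204813) (nat_lit 9) (.e (nat_lit 433920) (nat_lit 9) .nil))))) (.g (nat_lit 0) (.e (nat_lit 389168) (nat_lit 0) .nil) .nil))) 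
(.lf (nat_lit 586538) (.g (nat_lit 3352) (.e (nat_lit 393270) (nat_lit 23) (.e (nat_lit 426436) (nat_lit 18) (.e (nat_lit 98333) (nat_lit 18) (.e (nat_lit 164325) (nat_lit 230) (.e (nat_lit 163907) (nat_lit 12) (.e (nat_lit 426566) (nat_lit 34) .nil)))))) (.g (nat_lit 1) (.e (nat_lit 389811) (nat_lit 0) .nil) .nil))))) (.nd (nat_lit 8) (.nd (nat_lit 9) 
(.lf (nat_lit 585898) (.g (nat_lit 2312) (.e (nat_lit 393253) (nat_lit 18) (.e (nat_lit 164325) (nat_lit 230) (.e (nat_lit 163867) (nat_lit 2) (.e (nat_lit 196654) (nat_lit 11) (.e (nat_lit 16434) (nat_lit 9) .nil))))) (.g (nat_lit 0) (.e (nat_lit 389037) (nat_lit 0) .nil) .nil))) 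
(.lf (nat_lit 586410) (.g (nat_lit 1747) (.e (nat_lit 393254) (nat_lit 18) (.e (nat_lit 164332) (nat_lit 230) (.e (nat_lit 163869) (nat_lit 2) (.e (nat_lit 196628) (nat_lit 9) (.e (nat_lit 419) (nat_lit 32) .nil))))) (.g (nat_lit 0) (.e (nat_lit 389591) (nat_lit 0) .nil) .nil)))) (.nd (nat_lit 9) 
(.lf (nat_lit 586154) (.g (nat_lit 2184) (.e (nat_lit 393253) (nat_lit 18) (.e (nat_lit 164332) (nat_lit 230) (.e (nat_lit 163869) (nat_lit 2) (.e (nat_lit 196627) (nat_lit 9) .nil)))) (.g (nat_lit 0) (.e (nat_lit 389300) (nat_lit 0) .nil) .nil))) 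
(.lf (nat_lit 586666) (.g (nat_lit 3153) (.e (nat_lit 393272) (nat_lit 23) (.e (nat_lit 426438) (nat_lit 18) (.e (nat_lit 98335) (nat_lit 18) (.e (nat_lit 164325) (nat_lit 230) (.e (nat_lit 163903) (nat_lit 12) (.e (nat_lit 426566) (nat_lit 34) .nil)))))) (.g (nat_lit 1) (.e (nat_lit 389942) (nat_lit 0) .nil) .nil)))))) (.nd (nat_lit 7) (.nd (nat_lit 8) (.nd (nat_lit 9) 
(.lf (nat_lit 585834) (.g (nat_lit 1422) (.e (nat_lit 393252) (nat_lit 18) (.e (nat_lit 164332) (nat_lit 230) (.e (nat_lit 163873) (nat_lit 3) (.e (nat_lit 204808) (nat_lit 9) .nil)))) (.g (nat_lit 0) (.e (nat_lit 388946) (nat_lit 0) .nil) .nil))) 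
(.lf (nat_lit 586346) (.g (nat_lit 3220) (.e (nat_lit 393254) (nat_lit 18) (.e (nat_lit 164327) (nat_lit 230) (.e (nat_lit 163873) (nat_lit 3) (.e (nat_lit 204813) (nat_lit 9) (.e (nat_lit 426199) (nat_lit 9) .nil))))) (.g (nat_lit 0) (.e (nat_lit 389512) (nat_lit 0) .nil) .nil)))) (.nd (nat_lit 9) 
(.lf (nat_lit 586090) (.g (nat_lit 2806) (.e (nat_lit 393253) (nat_lit 18) (.e (nat_lit 164329) (nat_lit 230) (.e (nat_lit 163867) (nat_lit 2) (.e (nat_lit 196624) (nat_lit 9) (.e (nat_lit 433) (nat_lit 32) (.e (nat_lit 426228) (nat_lit 9) (.e (nat_lit 426565) (nat_lit 34) .nil))))))) (.g (nat_lit 1) (.e (nat_lit 389236) (nat_lit 0) .nil) .nil))) 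
(.lf (nat_lit 586602) (.g (nat_lit 351) (.e (nat_lit 393271) (nat_lit 23) (.e (nat_lit 426131) (nat_lit 3) (.e (nat_lit 204830) (nat_lit 18) .nil))) (.g (nat_lit 0) (.e (nat_lit 389876) (nat_lit 0) .nil) .nil))))) (.nd (nat_lit 8) (.nd (nat_lit 9) 
(.lf (nat_lit 585962) (.g (nat_lit 1627) (.e (nat_lit 393253) (nat_lit 18) (.e (nat_lit 164326) (nat_lit 230) (.e (nat_lit 163868) (nat_lit 2) (.e (nat_lit 196626) (nat_lit 9) (.e (nat_lit 437) (nat_lit 32) .nil))))) (.g (nat_lit 0) (.e (nat_lit 389102) (nat_lit 0) .nil) .nil))) 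
(.lf (nat_lit 586474) (.g (nat_lit 2835) (.e (nat_lit 393266) (nat_lit 23) (.e (nat_lit 426109) (nat_lit 1) (.e (nat_lit 164347) (nat_lit 240) (.e (nat_lit 2638) (nat_lit 165) (.e (nat_lit 180278) (nat_lit 32) (.e (nat_lit 1660) (nat_lit 115) .nil)))))) (.g (nat_lit 1) (.e (nat_lit 389738) (nat_lit 0) .nil) .nil)))) (.nd (nat_lit 9) 
(.lf (nat_lit 586218) (.g (nat_lit 2117) (.e (nat_lit 393254) (nat_lit 18) (.e (nat_lit 164325) (nat_lit 230) (.e (nat_lit 163868) (nat_lit 2) (.e (nat_lit 196624) (nat_lit 9) (.e (nat_lit 457) (nat_lit 34) (.e (nat_lit 450304) (nat_lit 18) .nil)))))) (.g (nat_lit 1) (.e (nat_lit 389383) (nat_lit 0) .nil) .nil))) 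
(.lf (nat_lit 586730) (.g (nat_lit 2249) (.e (nat_lit 393280) (nat_lit 23) (.e (nat_lit 426107) (nat_lit 1) (.e (nat_lit 164347) (nat_lit 240) (.e (nat_lit 2638) (nat_lit 165) (.e (nat_lit 180277) (nat_lit 32) (.e (nat_lit 1660) (nat_lit 115) .nil)))))) (.g (nat_lit 1) (.e (nat_lit 390034) (nat_lit 0) .nil) .nil)))))))) 
(.nd (nat_lit 5) (.nd (nat_lit 6) (.nd (nat_lit 7) (.nd (nat_lit 8) (.nd (nat_lit 9) 
(.lf (nat_lit 585754) (.g (nat_lit 99) (.e (nat_lit 393251) (nat_lit 18) (.e (nat_lit 164397) (nat_lit 256) (.e (nat_lit 57379) (nat_lit 3) .nil))) (.g (nat_lit 0) (.e (nat_lit 388848) (nat_lit 0) .nil) .nil))) 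
(.lf (nat_lit 586266) (.g (nat_lit 2272) (.e (nat_lit 393254) (nat_lit 18) (.e (nat_lit 164326) (nat_lit 230) (.e (nat_lit 163868) (nat_lit 2) (.e (nat_lit 196632) (nat_lit 9) .nil)))) (.g (nat_lit 0) (.e (nat_lit 389431) (nat_lit 0) .nil) .nil)))) (.nd (nat_lit 9) 
(.lf (nat_lit 586010) (.g (nat_lit 2107) (.e (nat_lit 393253) (nat_lit 18) (.e (nat_lit 164326) (nat_lit 230) (.e (nat_lit 163871) (nat_lit 2) (.e (nat_lit 196624) (nat_lit 9) (.e (nat_lit 457) (nat_lit 34) (.e (nat_lit 450304) (nat_lit 18) .nil)))))) (.g (nat_lit 1) (.e (nat_lit 389151) (nat_lit 0) .nil) .nil))) 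
(.lf (nat_lit 586522) (.g (nat_lit 3119) (.e (nat_lit 393268) (nat_lit 23) (.e (nat_lit 426438) (nat_lit 18) (.e (nat_lit 98335) (nat_lit 18) (.e (nat_lit 164325) (nat_lit 230) (.e (nat_lit 163907) (nat_lit 12) (.e (nat_lit 426566) (nat_lit 34) .nil)))))) (.g (nat_lit 1) (.e (nat_lit 389793) (nat_lit 0) .nil) .nil))))) (.nd (nat_lit 8) (.nd (nat_lit 9) 
(.lf (nat_lit 585882) (.g (nat_lit 3331) (.e (nat_lit 393253) (nat_lit 18) (.e (nat_lit 164324) (nat_lit 230) (.e (nat_lit 163870) (nat_lit 2) (.e (nat_lit 196630) (nat_lit 9) (.e (nat_lit 430) (nat_lit 32) (.e (nat_lit 426190) (nat_lit 9) (.e (nat_lit 426566) (nat_lit 34) .nil))))))) (.g (nat_lit 1) (.e (nat_lit 389019) (nat_lit 0) .nil) .nil))) 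
(.lf (nat_lit 586394) (.g (nat_lit 1883) (.e (nat_lit 393254) (nat_lit 18) (.e (nat_lit 164332) (nat_lit 230) (.e (nat_lit 163869) (nat_lit 2) (.e (nat_lit 196622) (nat_lit 9) (.e (nat_lit 478) (nat_lit 37) (.e (nat_lit 474880) (nat_lit 18) .nil)))))) (.g (nat_lit 1) (.e (nat_lit 389575) (nat_lit 0) .nil) .nil)))) (.nd (nat_lit 9) 
(.lf (nat_lit 586138) (.g (nat_lit 2135) (.e (nat_lit 393253) (nat_lit 18) (.e (nat_lit 164332) (nat_lit 230) (.e (nat_lit 163869) (nat_lit 2) (.e (nat_lit 196622) (nat_lit 9) .nil)))) (.g (nat_lit 0) (.e (nat_lit 389284) (nat_lit 0) .nil) .nil))) 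
(.lf (nat_lit 586650) (.g (nat_lit 2790) (.e (nat_lit 393272) (nat_lit 23) (.e (nat_lit 426434) (nat_lit 18) (.e (nat_lit 98333) (nat_lit 18) (.e (nat_lit 164325) (nat_lit 230) (.e (nat_lit 163907) (nat_lit 12) (.e (nat_lit 426566) (nat_lit 34) .nil)))))) (.g (nat_lit 1) (.e (nat_lit 389926) (nat_lit 0) .nil) .nil)))))) (.nd (nat_lit 7) (.nd (nat_lit 8) (.nd (nat_lit 9) 
(.lf (nat_lit 585818) (.g (nat_lit 2188) (.e (nat_lit 393252) (nat_lit 18) (.e (nat_lit 164332) (nat_lit 230) (.e (nat_lit 163869) (nat_lit 2) (.e (nat_lit 196624) (nat_lit 9) (.e (nat_lit 398) (nat_lit 32) .nil))))) (.g (nat_lit 0) (.e (nat_lit 388930) (nat_lit 0) .nil) .nil))) 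
(.lf (nat_lit 586330) (.g (nat_lit 3435) (.e (nat_lit 393254) (nat_lit 18) (.e (nat_lit 164327) (nat_lit 230) (.e (nat_lit 163868) (nat_lit 2) (.e (nat_lit 196656) (nat_lit 11) (.e (nat_lit 16436) (nat_lit 9) (.e (nat_lit 426566) (nat_lit 34) .nil)))))) (.g (nat_lit 1) (.e (nat_lit 389496) (nat_lit 0) .nil) .nil)))) (.nd (nat_lit 9) 
(.lf (nat_lit 586074) (.g (nat_lit 1963) (.e (nat_lit 393253) (nat_lit 18) (.e (nat_lit 164327) (nat_lit 230) (.e (nat_lit 163873) (nat_lit 3) (.e (nat_lit 204812) (nat_lit 9) .nil)))) (.g (nat_lit 0) (.e (nat_lit 389218) (nat_lit 0) .nil) .nil))) 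
(.lf (nat_lit 586586) (.g (nat_lit 2581) (.e (nat_lit 393271) (nat_lit 23) (.e (nat_lit 426112) (nat_lit 1) (.e (nat_lit 164327) (nat_lit 230) (.e (nat_lit 163881) (nat_lit 4) (.e (nat_lit 213030) (nat_lit 11) (.e (nat_lit 24659) (nat_lit 13) .nil)))))) (.g (nat_lit 1) (.e (nat_lit 389859) (nat_lit 0) .nil) .nil))))) (.nd (nat_lit 8) (.nd (nat_lit 9) 
(.lf (nat_lit 585946) (.g (nat_lit 2246) (.e (nat_lit 393253) (nat_lit 18) (.e (nat_lit 164326) (nat_lit 230) (.e (nat_lit 163868) (nat_lit 2) (.e (nat_lit 196619) (nat_lit 9) (.e (nat_lit 457) (nat_lit 34) (.e (nat_lit 450304) (nat_lit 18) .nil)))))) (.g (nat_lit 1) (.e (nat_lit 389086) (nat_lit 0) .nil) .nil))) 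
(.lf (nat_lit 586458) (.g (nat_lit 978) (.e (nat_lit 393260) (nat_lit 21) (.e (nat_lit 409602) (nat_lit 0) (.e (nat_lit 63) (nat_lit 0) .nil))) (.g (nat_lit 0) (.e (nat_lit 389706) (nat_lit 0) .nil) .nil)))) (.nd (nat_lit 9) 
(.lf (nat_lit 586202) (.g (nat_lit 2266) (.e (nat_lit 393254) (nat_lit 18) (.e (nat_lit 164324) (nat_lit 230) (.e (nat_lit 163868) (nat_lit 2) (.e (nat_lit 196624) (nat_lit 9) (.e (nat_lit 455) (nat_lit 34) (.e (nat_lit 450304) (nat_lit 18) .nil)))))) (.g (nat_lit 1) (.e (nat_lit 389364) (nat_lit 0) .nil) .nil))) 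
(.lf (nat_lit 586714) (.g (nat_lit 544) (.e (nat_lit 393278) (nat_lit 23) (.e (nat_lit 426109) (nat_lit 1) (.e (nat_lit 164326) (nat_lit 230) .nil))) (.g (nat_lit 0) (.e (nat_lit 390013) (nat_lit 0) .nil) .nil))))))) (.nd (nat_lit 6) (.nd (nat_lit 7) (.nd (nat_lit 8) (.nd (nat_lit 9) 
(.lf (nat_lit 585786) (.g (nat_lit 2016) (.e (nat_lit 393252) (nat_lit 18) (.e (nat_lit 164330) (nat_lit 230) (.e (nat_lit 163873) (nat_lit 3) (.e (nat_lit 204811) (nat_lit 9) (.e (nat_lit 426234) (nat_lit 9) (.e (nat_lit 426565) (nat_lit 34) .nil)))))) (.g (nat_lit 1) (.e (nat_lit 388897) (nat_lit 0) .nil) .nil))) 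
(.lf (nat_lit 586298) (.g (nat_lit 1980) (.e (nat_lit 393254) (nat_lit 18) (.e (nat_lit 164326) (nat_lit 230) (.e (nat_lit 163871) (nat_lit 2) (.e (nat_lit 196624) (nat_lit 9) (.e (nat_lit 7936) (nat_lit 34) (.e (nat_lit 450304) (nat_lit 18) .nil)))))) (.g (nat_lit 1) (.e (nat_lit 389464) (nat_lit 0) .nil) .nil)))) (.nd (nat_lit 9) 
(.lf (nat_lit 586042) (.g (nat_lit 3087) (.e (nat_lit 393253) (nat_lit 18) (.e (nat_lit 164327) (nat_lit 230) (.e (nat_lit 163868) (nat_lit 2) (.e (nat_lit 196624) (nat_lit 9) (.e (nat_lit 459) (nat_lit 34) (.e (nat_lit 450304) (nat_lit 18) .nil)))))) (.g (nat_lit 1) (.e (nat_lit 389186) (nat_lit 0) .nil) .nil))) 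
(.lf (nat_lit 586554) (.g (nat_lit 1853) (.e (nat_lit 393270) (nat_lit 23) (.e (nat_lit 426436) (nat_lit 18) (.e (nat_lit 98334) (nat_lit 18) (.e (nat_lit 164332) (nat_lit 230) (.e (nat_lit 163905) (nat_lit 12) (.e (nat_lit 426567) (nat_lit 34) .nil)))))) (.g (nat_lit 1) (.e (nat_lit 389827) (nat_lit 0) .nil) .nil))))) (.nd (nat_lit 8) (.nd (nat_lit 9) 
(.lf (nat_lit 585914) (.g (nat_lit 1791) (.e (nat_lit 393253) (nat_lit 18) (.e (nat_lit 164325) (nat_lit 230) (.e (nat_lit 163871) (nat_lit 2) (.e (nat_lit 196624) (nat_lit 9) (.e (nat_lit 433) (nat_lit 32) (.e (nat_lit 426228) (nat_lit 9) (.e (nat_lit 426565) (nat_lit 34) .nil))))))) (.g (nat_lit 1) (.e (nat_lit 389053) (nat_lit 0) .nil) .nil))) 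
(.lf (nat_lit 586426) (.g (nat_lit 3030) (.e (nat_lit 393254) (nat_lit 18) (.e (nat_lit 164332) (nat_lit 230) (.e (nat_lit 163869) (nat_lit 2) (.e (nat_lit 204544) (nat_lit 9) .nil)))) (.g (nat_lit 0) (.e (nat_lit 389607) (nat_lit 0) .nil) .nil)))) (.nd (nat_lit 9) 
(.lf (nat_lit 586170) (.g (nat_lit 2122) (.e (nat_lit 393253) (nat_lit 18) (.e (nat_lit 164345) (nat_lit 240) (.e (nat_lit 2610) (nat_lit 163) (.e (nat_lit 163959) (nat_lit 24) (.e (nat_lit 524319) (nat_lit 11) (.e (nat_lit 450304) (nat_lit 18) .nil)))))) (.g (nat_lit 1) (.e (nat_lit 389316) (nat_lit 0) .nil) .nil))) 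
(.lf (nat_lit 586682) (.g (nat_lit 3848) (.e (nat_lit 393273) (nat_lit 23) (.e (nat_lit 426436) (nat_lit 18) (.e (nat_lit 98333) (nat_lit 18) (.e (nat_lit 164327) (nat_lit 230) (.e (nat_lit 163903) (nat_lit 12) (.e (nat_lit 426566) (nat_lit 34) .nil)))))) (.g (nat_lit 1) (.e (nat_lit 389959) (nat_lit 0) .nil) .nil)))))) (.nd (nat_lit 7) (.nd (nat_lit 8) (.nd (nat_lit 9) 
(.lf (nat_lit 585850) (.g (nat_lit 1485) (.e (nat_lit 393252) (nat_lit 18) (.e (nat_lit 164398) (nat_lit 256) (.e (nat_lit 57377) (nat_lit 3) (.e (nat_lit 98363) (nat_lit 26) .nil)))) (.g (nat_lit 0) (.e (nat_lit 388962) (nat_lit 0) .nil) .nil))) 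
(.lf (nat_lit 586362) (.g (nat_lit 1655) (.e (nat_lit 393254) (nat_lit 18) (.e (nat_lit 164329) (nat_lit 230) (.e (nat_lit 163873) (nat_lit 3) (.e (nat_lit 204811) (nat_lit 9) (.e (nat_lit 426234) (nat_lit 9) (.e (nat_lit 426565) (nat_lit 34) .nil)))))) (.g (nat_lit 1) (.e (nat_lit 389530) (nat_lit 0) .nil) .nil)))) (.nd (nat_lit 9) 
(.lf (nat_lit 586106) (.g (nat_lit 658) (.e (nat_lit 393253) (nat_lit 18) (.e (nat_lit 164329) (nat_lit 230) (.e (nat_lit 163873) (nat_lit 3) (.e (nat_lit 212736) (nat_lit 9) .nil)))) (.g (nat_lit 0) (.e (nat_lit 389252) (nat_lit 0) .nil) .nil))) 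
(.lf (nat_lit 586618) (.g (nat_lit 4505) (.e (nat_lit 393271) (nat_lit 23) (.e (nat_lit 426436) (nat_lit 18) (.e (nat_lit 98334) (nat_lit 18) (.e (nat_lit 164330) (nat_lit 230) (.e (nat_lit 163902) (nat_lit 12) (.e (nat_lit 426568) (nat_lit 34) .nil)))))) (.g (nat_lit 1) (.e (nat_lit 389894) (nat_lit 0) .nil) .nil))))) (.nd (nat_lit 8) (.nd (nat_lit 9) 
(.lf (nat_lit 585978) (.g (nat_lit 2896) (.e (nat_lit 393253) (nat_lit 18) (.e (nat_lit 164326) (nat_lit 230) (.e (nat_lit 163868) (nat_lit 2) (.e (nat_lit 196652) (nat_lit 11) (.e (nat_lit 16436) (nat_lit 9) (.e (nat_lit 426566) (nat_lit 34) .nil)))))) (.g (nat_lit 1) (.e (nat_lit 389119) (nat_lit 0) .nil) .nil))) 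
(.lf (nat_lit 586490) (.g (nat_lit 2456) (.e (nat_lit 393268) (nat_lit 23) (.e (nat_lit 426436) (nat_lit 18) (.e (nat_lit 98333) (nat_lit 18) (.e (nat_lit 164330) (nat_lit 230) (.e (nat_lit 163902) (nat_lit 12) (.e (nat_lit 426566) (nat_lit 34) .nil)))))) (.g (nat_lit 1) (.e (nat_lit 389761) (nat_lit 0) .nil) .nil)))) (.nd (nat_lit 9) 
(.lf (nat_lit 586234) (.g (nat_lit 2502) (.e (nat_lit 393254) (nat_lit 18) (.e (nat_lit 164325) (nat_lit 230) (.e (nat_lit 163874) (nat_lit 3) (.e (nat_lit 204809) (nat_lit 9) (.e (nat_lit 426200) (nat_lit 9) .nil))))) (.g (nat_lit 0) (.e (nat_lit 389399) (nat_lit 0) .nil) .nil))) 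
(.lf (nat_lit 586746) (.g (nat_lit 3165) (.e (nat_lit 393281) (nat_lit 23) (.e (nat_lit 426098) (nat_lit 1) (.e (nat_lit 164327) (nat_lit 230) (.e (nat_lit 163882) (nat_lit 4) (.e (nat_lit 213031) (nat_lit 11) (.e (nat_lit 24655) (nat_lit 13) .nil)))))) (.g (nat_lit 1) (.e (nat_lit 390053) (nat_lit 0) .nil) .nil)))))))))) 
(.nd (nat_lit 3) (.nd (nat_lit 4) (.nd (nat_lit 5) (.nd (nat_lit 6) (.nd (nat_lit 7) 
(.nd (nat_lit 8) (.nd (nat_lit 9) 
(.lf (nat_lit 585734) (.g (nat_lit 2747) (.e (nat_lit 393251) (nat_lit 18) (.e (nat_lit 164332) (nat_lit 230) (.e (nat_lit 163869) (nat_lit 2) (.e (nat_lit 196624) (nat_lit 9) (.e (nat_lit 455) (nat_lit 34) (.e (nat_lit 450304) (nat_lit 18) .nil)))))) (.g (nat_lit 1) (.e (nat_lit 388827) (nat_lit 0) .nil) .nil))) 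
(.lf (nat_lit 586246) (.g (nat_lit 1747) (.e (nat_lit 393254) (nat_lit 18) (.e (nat_lit 164326) (nat_lit 230) (.e (nat_lit 163868) (nat_lit 2) (.e (nat_lit 196622) (nat_lit 9) (.e (nat_lit 478) (nat_lit 37) (.e (nat_lit 474880) (nat_lit 18) .nil)))))) (.g (nat_lit 1) (.e (nat_lit 389411) (nat_lit 0) .nil) .nil)))) (.nd (nat_lit 9) 
(.lf (nat_lit 585990) (.g (nat_lit 2147) (.e (nat_lit 393253) (nat_lit 18) (.e (nat_lit 164326) (nat_lit 230) (.e (nat_lit 163870) (nat_lit 2) (.e (nat_lit 196630) (nat_lit 9) (.e (nat_lit 437) (nat_lit 32) (.e (nat_lit 426188) (nat_lit 9) (.e (nat_lit 426566) (nat_lit 34) .nil))))))) (.g (nat_lit 1) (.e (nat_lit 389131) (nat_lit 0) .nil) .nil))) 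
(.lf (nat_lit 586502) (.g (nat_lit 3531) (.e (nat_lit 393268) (nat_lit 23) (.e (nat_lit 426436) (nat_lit 18) (.e (nat_lit 98335) (nat_lit 18) (.e (nat_lit 164330) (nat_lit 230) (.e (nat_lit 163904) (nat_lit 12) (.e (nat_lit 426566) (nat_lit 34) .nil)))))) (.g (nat_lit 1) (.e (nat_lit 389773) (nat_lit 0) .nil) .nil))))) (.nd (nat_lit 8) (.nd (nat_lit 9) 
(.lf (nat_lit 585862) (.g (nat_lit 3574) (.e (nat_lit 393252) (nat_lit 18) (.e (nat_lit 164399) (nat_lit 256) (.e (nat_lit 57379) (nat_lit 3) (.e (nat_lit 98365) (nat_lit 26) (.e (nat_lit 426188) (nat_lit 9) (.e (nat_lit 426568) (nat_lit 34) .nil)))))) (.g (nat_lit 1) (.e (nat_lit 388987) (nat_lit 0) .nil) .nil))) 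
(.lf (nat_lit 586374) (.g (nat_lit 1977) (.e (nat_lit 393254) (nat_lit 18) (.e (nat_lit 164331) (nat_lit 230) (.e (nat_lit 163873) (nat_lit 3) (.e (nat_lit 204811) (nat_lit 9) (.e (nat_lit 426260) (nat_lit 9) (.e (nat_lit 426565) (nat_lit 34) .nil)))))) (.g (nat_lit 1) (.e (nat_lit 389542) (nat_lit 0) .nil) .nil)))) (.nd (nat_lit 9) 
(.lf (nat_lit 586118) (.g (nat_lit 3637) (.e (nat_lit 393253) (nat_lit 18) (.e (nat_lit 164330) (nat_lit 230) (.e (nat_lit 163873) (nat_lit 3) (.e (nat_lit 204813) (nat_lit 9) (.e (nat_lit 426198) (nat_lit 9) (.e (nat_lit 426566) (nat_lit 34) .nil)))))) (.g (nat_lit 1) (.e (nat_lit 389264) (nat_lit 0) .nil) .nil))) 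
(.lf (nat_lit 586630) (.g (nat_lit 3978) (.e (nat_lit 393271) (nat_lit 23) (.e (nat_lit 426436) (nat_lit 18) (.e (nat_lit 98335) (nat_lit 18) (.e (nat_lit 164403) (nat_lit 256) .nil)))) (.g (nat_lit 0) (.e (nat_lit 389906) (nat_lit 0) .nil) .nil)))))) (.nd (nat_lit 7) (.nd (nat_lit 8) (.nd (nat_lit 9) 
(.lf (nat_lit 585798) (.g (nat_lit 3201) (.e (nat_lit 393252) (nat_lit 18) (.e (nat_lit 164331) (nat_lit 230) (.e (nat_lit 163873) (nat_lit 3) (.e (nat_lit 204813) (nat_lit 9) (.e (nat_lit 426199) (nat_lit 9) .nil))))) (.g (nat_lit 0) (.e (nat_lit 388909) (nat_lit 0) .nil) .nil))) 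
(.lf (nat_lit 586310) (.g (nat_lit 1499) (.e (nat_lit 393254) (nat_lit 18) (.e (nat_lit 164326) (nat_lit 230) (.e (nat_lit 163873) (nat_lit 3) (.e (nat_lit 204811) (nat_lit 9) (.e (nat_lit 426228) (nat_lit 9) (.e (nat_lit 426565) (nat_lit 34) .nil)))))) (.g (nat_lit 1) (.e (nat_lit 389476) (nat_lit 0) .nil) .nil)))) (.nd (nat_lit 9) 
(.lf (nat_lit 586054) (.g (nat_lit 2196) (.e (nat_lit 393253) (nat_lit 18) (.e (nat_lit 164327) (nat_lit 230) (.e (nat_lit 163870) (nat_lit 2) (.e (nat_lit 196637) (nat_lit 9) (.e (nat_lit 394) (nat_lit 32) .nil))))) (.g (nat_lit 0) (.e (nat_lit 389198) (nat_lit 0) .nil) .nil))) 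
(.lf (nat_lit 586566) (.g (nat_lit 3551) (.e (nat_lit 393270) (nat_lit 23) (.e (nat_lit 426436) (nat_lit 18) (.e (nat_lit 98335) (nat_lit 18) (.e (nat_lit 164330) (nat_lit 230) (.e (nat_lit 163902) (nat_lit 12) (.e (nat_lit 426567) (nat_lit 34) .nil)))))) (.g (nat_lit 1) (.e (nat_lit 389839) (nat_lit 0) .nil) .nil))))) (.nd (nat_lit 8) (.nd (nat_lit 9) 
(.lf (nat_lit 585926) (.g (nat_lit 3742) (.e (nat_lit 393253) (nat_lit 18) (.e (nat_lit 164325) (nat_lit 230) (.e (nat_lit 163873) (nat_lit 3) (.e (nat_lit 204813) (nat_lit 9) (.e (nat_lit 426196) (nat_lit 9) (.e (nat_lit 426568) (nat_lit 34) .nil)))))) (.g (nat_lit 1) (.e (nat_lit 389065) (nat_lit 0) .nil) .nil))) 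
(.lf (nat_lit 586438) (.g (nat_lit 1725) (.e (nat_lit 393254) (nat_lit 18) (.e (nat_lit 164332) (nat_lit 230) (.e (nat_lit 163874) (nat_lit 3) (.e (nat_lit 204811) (nat_lit 9) (.e (nat_lit 426262) (nat_lit 9) (.e (nat_lit 433920) (nat_lit 34) .nil)))))) (.g (nat_lit 1) (.e (nat_lit 389619) (nat_lit 0) .nil) .nil)))) (.nd (nat_lit 9) 
(.lf (nat_lit 586182) (.g (nat_lit 2186) (.e (nat_lit 393254) (nat_lit 18) (.e (nat_lit 164322) (nat_lit 230) (.e (nat_lit 163867) (nat_lit 2) (.e (nat_lit 196624) (nat_lit 9) (.e (nat_lit 455) (nat_lit 34) (.e (nat_lit 450304) (nat_lit 18) .nil)))))) (.g (nat_lit 1) (.e (nat_lit 389344) (nat_lit 0) .nil) .nil))) 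
(.lf (nat_lit 586694) (.g (nat_lit 3774) (.e (nat_lit 393273) (nat_lit 23) (.e (nat_lit 426436) (nat_lit 18) (.e (nat_lit 98335) (nat_lit 18) (.e (nat_lit 164332) (nat_lit 230) (.e (nat_lit 163905) (nat_lit 12) (.e (nat_lit 426566) (nat_lit 34) .nil)))))) (.g (nat_lit 1) (.e (nat_lit 389971) (nat_lit 0) .nil) .nil))))))) (.nd (nat_lit 6) (.nd (nat_lit 7) (.nd (nat_lit 8) (.nd (nat_lit 9) 
(.lf (nat_lit 585766) (.g (nat_lit 3524) (.e (nat_lit 393251) (nat_lit 18) (.e (nat_lit 164399) (nat_lit 256) (.e (nat_lit 57379) (nat_lit 3) (.e (nat_lit 98365) (nat_lit 26) (.e (nat_lit 426188) (nat_lit 9) (.e (nat_lit 426568) (nat_lit 34) .nil)))))) (.g (nat_lit 1) (.e (nat_lit 388869) (nat_lit 0) .nil) .nil))) 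
(.lf (nat_lit 586278) (.g (nat_lit 1936) (.e (nat_lit 393254) (nat_lit 18) (.e (nat_lit 164326) (nat_lit 230) (.e (nat_lit 163870) (nat_lit 2) (.e (nat_lit 196628) (nat_lit 9) (.e (nat_lit 419) (nat_lit 32) .nil))))) (.g (nat_lit 0) (.e (nat_lit 389444) (nat_lit 0) .nil) .nil)))) (.nd (nat_lit 9) 
(.lf (nat_lit 586022) (.g (nat_lit 2896) (.e (nat_lit 393253) (nat_lit 18) (.e (nat_lit 164326) (nat_lit 230) (.e (nat_lit 163873) (nat_lit 3) (.e (nat_lit 204809) (nat_lit 9) (.e (nat_lit 426200) (nat_lit 9) (.e (nat_lit 426566) (nat_lit 34) .nil)))))) (.g (nat_lit 1) (.e (nat_lit 389164) (nat_lit 0) .nil) .nil))) 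
(.lf (nat_lit 586534) (.g (nat_lit 3187) (.e (nat_lit 393269) (nat_lit 23) (.e (nat_lit 426436) (nat_lit 18) (.e (nat_lit 98335) (nat_lit 18) (.e (nat_lit 164332) (nat_lit 230) (.e (nat_lit 163905) (nat_lit 12) (.e (nat_lit 426567) (nat_lit 34) .nil)))))) (.g (nat_lit 1) (.e (nat_lit 389806) (nat_lit 0) .nil) .nil))))) (.nd (nat_lit 8) (.nd (nat_lit 9) 
(.lf (nat_lit 585894) (.g (nat_lit 1826) (.e (nat_lit 393253) (nat_lit 18) (.e (nat_lit 164324) (nat_lit 230) (.e (nat_lit 163874) (nat_lit 3) (.e (nat_lit 204812) (nat_lit 9) .nil)))) (.g (nat_lit 0) (.e (nat_lit 389031) (nat_lit 0) .nil) .nil))) 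
(.lf (nat_lit 586406) (.g (nat_lit 2861) (.e (nat_lit 393254) (nat_lit 18) (.e (nat_lit 164332) (nat_lit 230) (.e (nat_lit 163869) (nat_lit 2) (.e (nat_lit 196625) (nat_lit 9) .nil)))) (.g (nat_lit 0) (.e (nat_lit 389587) (nat_lit 0) .nil) .nil)))) (.nd (nat_lit 9) 
(.lf (nat_lit 586150) (.g (nat_lit 2523) (.e (nat_lit 393253) (nat_lit 18) (.e (nat_lit 164332) (nat_lit 230) (.e (nat_lit 163869) (nat_lit 2) (.e (nat_lit 196624) (nat_lit 9) (.e (nat_lit 7936) (nat_lit 34) (.e (nat_lit 450304) (nat_lit 18) .nil)))))) (.g (nat_lit 1) (.e (nat_lit 389296) (nat_lit 0) .nil) .nil))) 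
(.lf (nat_lit 586662) (.g (nat_lit 3667) (.e (nat_lit 393272) (nat_lit 23) (.e (nat_lit 426436) (nat_lit 18) (.e (nat_lit 98335) (nat_lit 18) (.e (nat_lit 164330) (nat_lit 230) (.e (nat_lit 163905) (nat_lit 12) (.e (nat_lit 426566) (nat_lit 34) .nil)))))) (.g (nat_lit 1) (.e (nat_lit 389938) (nat_lit 0) .nil) .nil)))))) (.nd (nat_lit 7) (.nd (nat_lit 8) (.nd (nat_lit 9) 
(.lf (nat_lit 585830) (.g (nat_lit 1675) (.e (nat_lit 393252) (nat_lit 18) (.e (nat_lit 164332) (nat_lit 230) (.e (nat_lit 163869) (nat_lit 2) (.e (nat_lit 196628) (nat_lit 9) .nil)))) (.g (nat_lit 0) (.e (nat_lit 388942) (nat_lit 0) .nil) .nil))) 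
(.lf (nat_lit 586342) (.g (nat_lit 2129) (.e (nat_lit 393254) (nat_lit 18) (.e (nat_lit 164327) (nat_lit 230) (.e (nat_lit 163873) (nat_lit 3) (.e (nat_lit 204811) (nat_lit 9) (.e (nat_lit 426260) (nat_lit 9) (.e (nat_lit 426565) (nat_lit 34) .nil)))))) (.g (nat_lit 1) (.e (nat_lit 389508) (nat_lit 0) .nil) .nil)))) (.nd (nat_lit 9) 
(.lf (nat_lit 586086) (.g (nat_lit 1864) (.e (nat_lit 393253) (nat_lit 18) (.e (nat_lit 164327) (nat_lit 230) (.e (nat_lit 163875) (nat_lit 3) (.e (nat_lit 204811) (nat_lit 9) (.e (nat_lit 426261) (nat_lit 9) (.e (nat_lit 433920) (nat_lit 34) .nil)))))) (.g (nat_lit 1) (.e (nat_lit 389230) (nat_lit 0) .nil) .nil))) 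
(.lf (nat_lit 586598) (.g (nat_lit 4267) (.e (nat_lit 393271) (nat_lit 23) (.e (nat_lit 426131) (nat_lit 3) (.e (nat_lit 204829) (nat_lit 18) (.e (nat_lit 57688) (nat_lit 156) (.e (nat_lit 163902) (nat_lit 12) (.e (nat_lit 426568) (nat_lit 34) .nil)))))) (.g (nat_lit 1) (.e (nat_lit 389872) (nat_lit 0) .nil) .nil))))) (.nd (nat_lit 8) (.nd (nat_lit 9) 
(.lf (nat_lit 585958) (.g (nat_lit 2136) (.e (nat_lit 393253) (nat_lit 18) (.e (nat_lit 164326) (nat_lit 230) (.e (nat_lit 163868) (nat_lit 2) (.e (nat_lit 196625) (nat_lit 9) .nil)))) (.g (nat_lit 0) (.e (nat_lit 389098) (nat_lit 0) .nil) .nil))) 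
(.lf (nat_lit 586470) (.g (nat_lit 2632) (.e (nat_lit 393266) (nat_lit 23) (.e (nat_lit 426109) (nat_lit 1) (.e (nat_lit 164345) (nat_lit 240) (.e (nat_lit 2638) (nat_lit 165) (.e (nat_lit 180278) (nat_lit 32) (.e (nat_lit 1660) (nat_lit 115) .nil)))))) (.g (nat_lit 1) (.e (nat_lit 389733) (nat_lit 0) .nil) .nil)))) (.nd (nat_lit 9) 
(.lf (nat_lit 586214) (.g (nat_lit 1354) (.e (nat_lit 393254) (nat_lit 18) (.e (nat_lit 164324) (nat_lit 230) (.e (nat_lit 163874) (nat_lit 3) (.e (nat_lit 212736) (nat_lit 9) .nil)))) (.g (nat_lit 0) (.e (nat_lit 389376) (nat_lit 0) .nil) .nil))) 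
(.lf (nat_lit 586726) (.g (nat_lit 1835) (.e (nat_lit 393279) (nat_lit 23) (.e (nat_lit 426129) (nat_lit 3) (.e (nat_lit 204831) (nat_lit 18) (.e (nat_lit 57692) (nat_lit 156) (.e (nat_lit 163905) (nat_lit 12) (.e (nat_lit 426566) (nat_lit 34) .nil)))))) (.g (nat_lit 1) (.e (nat_lit 390028) (nat_lit 0) .nil) .nil)))))))) 
(.nd (nat_lit 5) (.nd (nat_lit 6) (.nd (nat_lit 7) (.nd (nat_lit 8) (.nd (nat_lit 9) 
(.lf (nat_lit 585750) (.g (nat_lit 1967) (.e (nat_lit 393251) (nat_lit 18) (.e (nat_lit 164332) (nat_lit 230) (.e (nat_lit 163874) (nat_lit 3) (.e (nat_lit 204811) (nat_lit 9) (.e (nat_lit 426262) (nat_lit 9) (.e (nat_lit 433920) (nat_lit 34) .nil)))))) (.g (nat_lit 1) (.e (nat_lit 388843) (nat_lit 0) .nil) .nil))) 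
(.lf (nat_lit 586262) (.g (nat_lit 1374) (.e (nat_lit 393254) (nat_lit 18) (.e (nat_lit 164326) (nat_lit 230) (.e (nat_lit 163868) (nat_lit 2) (.e (nat_lit 196628) (nat_lit 9) (.e (nat_lit 419) (nat_lit 32) .nil))))) (.g (nat_lit 0) (.e (nat_lit 389427) (nat_lit 0) .nil) .nil)))) (.nd (nat_lit 9) 
(.lf (nat_lit 586006) (.g (nat_lit 2128) (.e (nat_lit 393253) (nat_lit 18) (.e (nat_lit 164326) (nat_lit 230) (.e (nat_lit 163871) (nat_lit 2) (.e (nat_lit 196623) (nat_lit 9) (.e (nat_lit 457) (nat_lit 34) (.e (nat_lit 450304) (nat_lit 18) .nil)))))) (.g (nat_lit 1) (.e (nat_lit 389147) (nat_lit 0) .nil) .nil))) 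
(.lf (nat_lit 586518) (.g (nat_lit 3075) (.e (nat_lit 393268) (nat_lit 23) (.e (nat_lit 426438) (nat_lit 18) (.e (nat_lit 98335) (nat_lit 18) (.e (nat_lit 164322) (nat_lit 230) (.e (nat_lit 163904) (nat_lit 12) (.e (nat_lit 426566) (nat_lit 34) .nil)))))) (.g (nat_lit 1) (.e (nat_lit 389789) (nat_lit 0) .nil) .nil))))) (.nd (nat_lit 8) (.nd (nat_lit 9) 
(.lf (nat_lit 585878) (.g (nat_lit 2551) (.e (nat_lit 393253) (nat_lit 18) (.e (nat_lit 164324) (nat_lit 230) (.e (nat_lit 163868) (nat_lit 2) (.e (nat_lit 196624) (nat_lit 9) (.e (nat_lit 459) (nat_lit 34) (.e (nat_lit 450304) (nat_lit 18) .nil)))))) (.g (nat_lit 1) (.e (nat_lit 389015) (nat_lit 0) .nil) .nil))) 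
(.lf (nat_lit 586390) (.g (nat_lit 242) (.e (nat_lit 393254) (nat_lit 18) (.e (nat_lit 164332) (nat_lit 230) (.e (nat_lit 163869) (nat_lit 2) .nil))) (.g (nat_lit 0) (.e (nat_lit 389571) (nat_lit 0) .nil) .nil)))) (.nd (nat_lit 9) 
(.lf (nat_lit 586134) (.g (nat_lit 2148) (.e (nat_lit 393253) (nat_lit 18) (.e (nat_lit 164332) (nat_lit 230) (.e (nat_lit 163867) (nat_lit 2) (.e (nat_lit 196653) (nat_lit 11) (.e (nat_lit 16434) (nat_lit 9) .nil))))) (.g (nat_lit 0) (.e (nat_lit 389280) (nat_lit 0) .nil) .nil))) 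
(.lf (nat_lit 586646) (.g (nat_lit 3287) (.e (nat_lit 393272) (nat_lit 23) (.e (nat_lit 426131) (nat_lit 3) (.e (nat_lit 204830) (nat_lit 18) (.e (nat_lit 57692) (nat_lit 156) (.e (nat_lit 163907) (nat_lit 12) (.e (nat_lit 426566) (nat_lit 34) .nil)))))) (.g (nat_lit 1) (.e (nat_lit 389922) (nat_lit 0) .nil) .nil)))))) (.nd (nat_lit 7) (.nd (nat_lit 8) (.nd (nat_lit 9) 
(.lf (nat_lit 585814) (.g (nat_lit 2400) (.e (nat_lit 393252) (nat_lit 18) (.e (nat_lit 164332) (nat_lit 230) (.e (nat_lit 163869) (nat_lit 2) (.e (nat_lit 196623) (nat_lit 9) .nil)))) (.g (nat_lit 0) (.e (nat_lit 388926) (nat_lit 0) .nil) .nil))) 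
(.lf (nat_lit 586326) (.g (nat_lit 2488) (.e (nat_lit 393254) (nat_lit 18) (.e (nat_lit 164327) (nat_lit 230) (.e (nat_lit 163868) (nat_lit 2) (.e (nat_lit 196624) (nat_lit 9) (.e (nat_lit 459) (nat_lit 34) (.e (nat_lit 450304) (nat_lit 18) .nil)))))) (.g (nat_lit 1) (.e (nat_lit 389492) (nat_lit 0) .nil) .nil)))) (.nd (nat_lit 9) 
(.lf (nat_lit 586070) (.g (nat_lit 2343) (.e (nat_lit 393253) (nat_lit 18) (.e (nat_lit 164327) (nat_lit 230) (.e (nat_lit 163873) (nat_lit 3) (.e (nat_lit 204808) (nat_lit 9) (.e (nat_lit 426190) (nat_lit 9) .nil))))) (.g (nat_lit 0) (.e (nat_lit 389214) (nat_lit 0) .nil) .nil))) 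
(.lf (nat_lit 586582) (.g (nat_lit 1941) (.e (nat_lit 393271) (nat_lit 23) (.e (nat_lit 426112) (nat_lit 1) (.e (nat_lit 164326) (nat_lit 230) (.e (nat_lit 163881) (nat_lit 4) (.e (nat_lit 213032) (nat_lit 11) (.e (nat_lit 24659) (nat_lit 13) .nil)))))) (.g (nat_lit 1) (.e (nat_lit 389855) (nat_lit 0) .nil) .nil))))) (.nd (nat_lit 8) (.nd (nat_lit 9) 
(.lf (nat_lit 585942) (.g (nat_lit 1376) (.e (nat_lit 393253) (nat_lit 18) (.e (nat_lit 164326) (nat_lit 230) (.e (nat_lit 163868) (nat_lit 2) (.e (nat_lit 196617) (nat_lit 9) (.e (nat_lit 421) (nat_lit 32) .nil))))) (.g (nat_lit 0) (.e (nat_lit 389082) (nat_lit 0) .nil) .nil))) 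
(.lf (nat_lit 586454) (.g (nat_lit 2114) (.e (nat_lit 393256) (nat_lit 19) (.e (nat_lit 229678) (nat_lit 244) (.e (nat_lit 163843) (nat_lit 0) (.e (nat_lit 3222) (nat_lit 196) (.e (nat_lit 524319) (nat_lit 11) (.e (nat_lit 450304) (nat_lit 18) .nil)))))) (.g (nat_lit 1) (.e (nat_lit 389653) (nat_lit 0) .nil) .nil)))) (.nd (nat_lit 9) 
(.lf (nat_lit 586198) (.g (nat_lit 1527) (.e (nat_lit 393254) (nat_lit 18) (.e (nat_lit 164324) (nat_lit 230) (.e (nat_lit 163867) (nat_lit 2) (.e (nat_lit 196624) (nat_lit 9) .nil)))) (.g (nat_lit 0) (.e (nat_lit 389360) (nat_lit 0) .nil) .nil))) 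
(.lf (nat_lit 586710) (.g (nat_lit 1720) (.e (nat_lit 393277) (nat_lit 23) (.e (nat_lit 426109) (nat_lit 1) (.e (nat_lit 164347) (nat_lit 240) (.e (nat_lit 2638) (nat_lit 165) (.e (nat_lit 180277) (nat_lit 32) (.e (nat_lit 1659) (nat_lit 115) .nil)))))) (.g (nat_lit 1) (.e (nat_lit 390007) (nat_lit 0) .nil) .nil))))))) (.nd (nat_lit 6) (.nd (nat_lit 7) (.nd (nat_lit 8) (.nd (nat_lit 9) 
(.lf (nat_lit 585782) (.g (nat_lit 2564) (.e (nat_lit 393252) (nat_lit 18) (.e (nat_lit 164330) (nat_lit 230) (.e (nat_lit 163869) (nat_lit 2) (.e (nat_lit 196656) (nat_lit 11) (.e (nat_lit 16433) (nat_lit 9) (.e (nat_lit 426566) (nat_lit 34) .nil)))))) (.g (nat_lit 1) (.e (nat_lit 388893) (nat_lit 0) .nil) .nil))) 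
(.lf (nat_lit 586294) (.g (nat_lit 2319) (.e (nat_lit 393254) (nat_lit 18) (.e (nat_lit 164326) (nat_lit 230) (.e (nat_lit 163871) (nat_lit 2) (.e (nat_lit 196624) (nat_lit 9) (.e (nat_lit 454) (nat_lit 34) (.e (nat_lit 450304) (nat_lit 18) .nil)))))) (.g (nat_lit 1) (.e (nat_lit 389460) (nat_lit 0) .nil) .nil)))) (.nd (nat_lit 9) 
(.lf (nat_lit 586038) (.g (nat_lit 2796) (.e (nat_lit 393253) (nat_lit 18) (.e (nat_lit 164327) (nat_lit 230) (.e (nat_lit 163868) (nat_lit 2) (.e (nat_lit 196624) (nat_lit 9) (.e (nat_lit 433) (nat_lit 32) (.e (nat_lit 426228) (nat_lit 9) (.e (nat_lit 426565) (nat_lit 34) .nil))))))) (.g (nat_lit 1) (.e (nat_lit 389182) (nat_lit 0) .nil) .nil))) 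
(.lf (nat_lit 586550) (.g (nat_lit 2717) (.e (nat_lit 393270) (nat_lit 23) (.e (nat_lit 426436) (nat_lit 18) (.e (nat_lit 98334) (nat_lit 18) (.e (nat_lit 164330) (nat_lit 230) (.e (nat_lit 163905) (nat_lit 12) (.e (nat_lit 426564) (nat_lit 34) .nil)))))) (.g (nat_lit 1) (.e (nat_lit 389823) (nat_lit 0) .nil) .nil))))) (.nd (nat_lit 8) (.nd (nat_lit 9) 
(.lf (nat_lit 585910) (.g (nat_lit 2164) (.e (nat_lit 393253) (nat_lit 18) (.e (nat_lit 164325) (nat_lit 230) (.e (nat_lit 163869) (nat_lit 2) (.e (nat_lit 196628) (nat_lit 9) (.e (nat_lit 397) (nat_lit 32) .nil))))) (.g (nat_lit 0) (.e (nat_lit 389049) (nat_lit 0) .nil) .nil))) 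
(.lf (nat_lit 586422) (.g (nat_lit 3558) (.e (nat_lit 393254) (nat_lit 18) (.e (nat_lit 164332) (nat_lit 230) (.e (nat_lit 163869) (nat_lit 2) (.e (nat_lit 196642) (nat_lit 9) .nil)))) (.g (nat_lit 0) (.e (nat_lit 389603) (nat_lit 0) .nil) .nil)))) (.nd (nat_lit 9) 
(.lf (nat_lit 586166) (.g (nat_lit 2504) (.e (nat_lit 393253) (nat_lit 18) (.e (nat_lit 164332) (nat_lit 230) (.e (nat_lit 163874) (nat_lit 3) (.e (nat_lit 204811) (nat_lit 9) (.e (nat_lit 426234) (nat_lit 9) (.e (nat_lit 426565) (nat_lit 34) .nil)))))) (.g (nat_lit 1) (.e (nat_lit 389312) (nat_lit 0) .nil) .nil))) 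
(.lf (nat_lit 586678) (.g (nat_lit 2806) (.e (nat_lit 393273) (nat_lit 23) (.e (nat_lit 426131) (nat_lit 3) (.e (nat_lit 204831) (nat_lit 18) (.e (nat_lit 57691) (nat_lit 156) (.e (nat_lit 163907) (nat_lit 12) (.e (nat_lit 426566) (nat_lit 34) .nil)))))) (.g (nat_lit 1) (.e (nat_lit 389954) (nat_lit 0) .nil) .nil)))))) (.nd (nat_lit 7) (.nd (nat_lit 8) (.nd (nat_lit 9) 
(.lf (nat_lit 585846) (.g (nat_lit 1551) (.e (nat_lit 393252) (nat_lit 18) (.e (nat_lit 164332) (nat_lit 230) (.e (nat_lit 163874) (nat_lit 3) (.e (nat_lit 204811) (nat_lit 9) (.e (nat_lit 426261) (nat_lit 9) (.e (nat_lit 433920) (nat_lit 34) .nil)))))) (.g (nat_lit 1) (.e (nat_lit 388958) (nat_lit 0) .nil) .nil))) 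
(.lf (nat_lit 586358) (.g (nat_lit 1032) (.e (nat_lit 393254) (nat_lit 18) (.e (nat_lit 164329) (nat_lit 230) (.e (nat_lit 163867) (nat_lit 2) (.e (nat_lit 196656) (nat_lit 11) .nil)))) (.g (nat_lit 0) (.e (nat_lit 389526) (nat_lit 0) .nil) .nil)))) (.nd (nat_lit 9) 
(.lf (nat_lit 586102) (.g (nat_lit 1673) (.e (nat_lit 393253) (nat_lit 18) (.e (nat_lit 164329) (nat_lit 230) (.e (nat_lit 163873) (nat_lit 3) (.e (nat_lit 204811) (nat_lit 9) (.e (nat_lit 426259) (nat_lit 9) (.e (nat_lit 426565) (nat_lit 34) .nil)))))) (.g (nat_lit 1) (.e (nat_lit 389248) (nat_lit 0) .nil) .nil))) 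
(.lf (nat_lit 586614) (.g (nat_lit 2660) (.e (nat_lit 393271) (nat_lit 23) (.e (nat_lit 426436) (nat_lit 18) (.e (nat_lit 98333) (nat_lit 18) (.e (nat_lit 164327) (nat_lit 230) (.e (nat_lit 163904) (nat_lit 12) (.e (nat_lit 426566) (nat_lit 34) .nil)))))) (.g (nat_lit 1) (.e (nat_lit 389890) (nat_lit 0) .nil) .nil))))) (.nd (nat_lit 8) (.nd (nat_lit 9) 
(.lf (nat_lit 585974) (.g (nat_lit 2141) (.e (nat_lit 393253) (nat_lit 18) (.e (nat_lit 164326) (nat_lit 230) (.e (nat_lit 163868) (nat_lit 2) (.e (nat_lit 196639) (nat_lit 9) .nil)))) (.g (nat_lit 0) (.e (nat_lit 389115) (nat_lit 0) .nil) .nil))) 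
(.lf (nat_lit 586486) (.g (nat_lit 3733) (.e (nat_lit 393268) (nat_lit 23) (.e (nat_lit 426436) (nat_lit 18) (.e (nat_lit 98333) (nat_lit 18) (.e (nat_lit 164327) (nat_lit 230) (.e (nat_lit 163903) (nat_lit 12) (.e (nat_lit 426566) (nat_lit 34) .nil)))))) (.g (nat_lit 1) (.e (nat_lit 389757) (nat_lit 0) .nil) .nil)))) (.nd (nat_lit 9) 
(.lf (nat_lit 586230) (.g (nat_lit 1210) (.e (nat_lit 393254) (nat_lit 18) (.e (nat_lit 164325) (nat_lit 230) (.e (nat_lit 163873) (nat_lit 3) (.e (nat_lit 204811) (nat_lit 9) (.e (nat_lit 426261) (nat_lit 9) (.e (nat_lit 433920) (nat_lit 34) .nil)))))) (.g (nat_lit 1) (.e (nat_lit 389395) (nat_lit 0) .nil) .nil))) 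
(.lf (nat_lit 586742) (.g (nat_lit 3045) (.e (nat_lit 393281) (nat_lit 23) (.e (nat_lit 426098) (nat_lit 1) (.e (nat_lit 164327) (nat_lit 230) (.e (nat_lit 163877) (nat_lit 4) (.e (nat_lit 213032) (nat_lit 11) (.e (nat_lit 24658) (nat_lit 13) .nil)))))) (.g (nat_lit 1) (.e (nat_lit 390049) (nat_lit 0) .nil) .nil))))))))) 
(.nd (nat_lit 4) (.nd (nat_lit 5) (.nd (nat_lit 6) (.nd (nat_lit 7) (.nd (nat_lit 8) 
(.nd (nat_lit 9) 
(.lf (nat_lit 585742) (.g (nat_lit 3766) (.e (nat_lit 393251) (nat_lit 18) (.e (nat_lit 164332) (nat_lit 230) (.e (nat_lit 163873) (nat_lit 3) (.e (nat_lit 204813) (nat_lit 9) (.e (nat_lit 426188) (nat_lit 9) (.e (nat_lit 426566) (nat_lit 34) .nil)))))) (.g (nat_lit 1) (.e (nat_lit 388835) (nat_lit 0) .nil) .nil))) 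
(.lf (nat_lit 586254) (.g (nat_lit 2011) (.e (nat_lit 393254) (nat_lit 18) (.e (nat_lit 164326) (nat_lit 230) (.e (nat_lit 163868) (nat_lit 2) (.e (nat_lit 196624) (nat_lit 9) (.e (nat_lit 457) (nat_lit 34) (.e (nat_lit 450304) (nat_lit 18) .nil)))))) (.g (nat_lit 1) (.e (nat_lit 389419) (nat_lit 0) .nil) .nil)))) (.nd (nat_lit 9) 
(.lf (nat_lit 585998) (.g (nat_lit 1942) (.e (nat_lit 393253) (nat_lit 18) (.e (nat_lit 164326) (nat_lit 230) (.e (nat_lit 163871) (nat_lit 2) (.e (nat_lit 196619) (nat_lit 9) (.e (nat_lit 454) (nat_lit 34) (.e (nat_lit 450304) (nat_lit 18) .nil)))))) (.g (nat_lit 1) (.e (nat_lit 389139) (nat_lit 0) .nil) .nil))) 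
(.lf (nat_lit 586510) (.g (nat_lit 3626) (.e (nat_lit 393268) (nat_lit 23) (.e (nat_lit 426438) (nat_lit 18) (.e (nat_lit 98333) (nat_lit 18) (.e (nat_lit 164327) (nat_lit 230) (.e (nat_lit 163903) (nat_lit 12) (.e (nat_lit 426567) (nat_lit 34) .nil)))))) (.g (nat_lit 1) (.e (nat_lit 389781) (nat_lit 0) .nil) .nil))))) (.nd (nat_lit 8) (.nd (nat_lit 9) 
(.lf (nat_lit 585870) (.g (nat_lit 3820) (.e (nat_lit 393253) (nat_lit 18) (.e (nat_lit 164322) (nat_lit 230) (.e (nat_lit 163873) (nat_lit 3) (.e (nat_lit 204813) (nat_lit 9) (.e (nat_lit 426199) (nat_lit 9) .nil))))) (.g (nat_lit 0) (.e (nat_lit 389007) (nat_lit 0) .nil) .nil))) 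
(.lf (nat_lit 586382) (.g (nat_lit 2148) (.e (nat_lit 393254) (nat_lit 18) (.e (nat_lit 164332) (nat_lit 230) (.e (nat_lit 163867) (nat_lit 2) (.e (nat_lit 196624) (nat_lit 9) (.e (nat_lit 457) (nat_lit 34) (.e (nat_lit 450304) (nat_lit 18) .nil)))))) (.g (nat_lit 1) (.e (nat_lit 389563) (nat_lit 0) .nil) .nil)))) (.nd (nat_lit 9) 
(.lf (nat_lit 586126) (.g (nat_lit 3768) (.e (nat_lit 393253) (nat_lit 18) (.e (nat_lit 164331) (nat_lit 230) (.e (nat_lit 163873) (nat_lit 3) (.e (nat_lit 204813) (nat_lit 9) (.e (nat_lit 426196) (nat_lit 9) (.e (nat_lit 426568) (nat_lit 34) .nil)))))) (.g (nat_lit 1) (.e (nat_lit 389272) (nat_lit 0) .nil) .nil))) 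
(.lf (nat_lit 586638) (.g (nat_lit 2922) (.e (nat_lit 393271) (nat_lit 23) (.e (nat_lit 426438) (nat_lit 18) (.e (nat_lit 98335) (nat_lit 18) (.e (nat_lit 164330) (nat_lit 230) (.e (nat_lit 163904) (nat_lit 12) (.e (nat_lit 426566) (nat_lit 34) .nil)))))) (.g (nat_lit 1) (.e (nat_lit 389914) (nat_lit 0) .nil) .nil)))))) (.nd (nat_lit 7) (.nd (nat_lit 8) (.nd (nat_lit 9) 
(.lf (nat_lit 585806) (.g (nat_lit 1405) (.e (nat_lit 393252) (nat_lit 18) (.e (nat_lit 164332) (nat_lit 230) (.e (nat_lit 163867) (nat_lit 2) (.e (nat_lit 196624) (nat_lit 9) (.e (nat_lit 7936) (nat_lit 34) (.e (nat_lit 450304) (nat_lit 18) .nil)))))) (.g (nat_lit 1) (.e (nat_lit 388917) (nat_lit 0) .nil) .nil))) 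
(.lf (nat_lit 586318) (.g (nat_lit 1540) (.e (nat_lit 393254) (nat_lit 18) (.e (nat_lit 164326) (nat_lit 230) (.e (nat_lit 163875) (nat_lit 3) (.e (nat_lit 204811) (nat_lit 9) (.e (nat_lit 426228) (nat_lit 9) (.e (nat_lit 426565) (nat_lit 34) .nil)))))) (.g (nat_lit 1) (.e (nat_lit 389484) (nat_lit 0) .nil) .nil)))) (.nd (nat_lit 9) 
(.lf (nat_lit 586062) (.g (nat_lit 1906) (.e (nat_lit 393253) (nat_lit 18) (.e (nat_lit 164327) (nat_lit 230) (.e (nat_lit 163871) (nat_lit 2) (.e (nat_lit 196630) (nat_lit 9) .nil)))) (.g (nat_lit 0) (.e (nat_lit 389206) (nat_lit 0) .nil) .nil))) 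
(.lf (nat_lit 586574) (.g (nat_lit 2498) (.e (nat_lit 393270) (nat_lit 23) (.e (nat_lit 426438) (nat_lit 18) (.e (nat_lit 98334) (nat_lit 18) (.e (nat_lit 164330) (nat_lit 230) (.e (nat_lit 163905) (nat_lit 12) (.e (nat_lit 426566) (nat_lit 34) .nil)))))) (.g (nat_lit 1) (.e (nat_lit 389847) (nat_lit 0) .nil) .nil))))) (.nd (nat_lit 8) (.nd (nat_lit 9) 
(.lf (nat_lit 585934) (.g (nat_lit 2048) (.e (nat_lit 393253) (nat_lit 18) (.e (nat_lit 164325) (nat_lit 230) (.e (nat_lit 163875) (nat_lit 3) (.e (nat_lit 204811) (nat_lit 9) (.e (nat_lit 426230) (nat_lit 9) (.e (nat_lit 426565) (nat_lit 34) .nil)))))) (.g (nat_lit 1) (.e (nat_lit 389073) (nat_lit 0) .nil) .nil))) 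
(.lf (nat_lit 586446) (.g (nat_lit 1011) (.e (nat_lit 393254) (nat_lit 18) (.e (nat_lit 164347) (nat_lit 240) (.e (nat_lit 2601) (nat_lit 163) (.e (nat_lit 163959) (nat_lit 24) (.e (nat_lit 524319) (nat_lit 11) (.e (nat_lit 450304) (nat_lit 18) .nil)))))) (.g (nat_lit 1) (.e (nat_lit 389629) (nat_lit 0) .nil) .nil)))) (.nd (nat_lit 9) 
(.lf (nat_lit 586190) (.g (nat_lit 990) (.e (nat_lit 393254) (nat_lit 18) (.e (nat_lit 164322) (nat_lit 230) (.e (nat_lit 163873) (nat_lit 3) (.e (nat_lit 204811) (nat_lit 9) .nil)))) (.g (nat_lit 0) (.e (nat_lit 389352) (nat_lit 0) .nil) .nil))) 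
(.lf (nat_lit 586702) (.g (nat_lit 2121) (.e (nat_lit 393275) (nat_lit 23) (.e (nat_lit 426109) (nat_lit 1) (.e (nat_lit 164326) (nat_lit 230) (.e (nat_lit 163882) (nat_lit 4) (.e (nat_lit 213030) (nat_lit 11) (.e (nat_lit 24660) (nat_lit 13) .nil)))))) (.g (nat_lit 1) (.e (nat_lit 389982) (nat_lit 0) .nil) .nil))))))) (.nd (nat_lit 6) (.nd (nat_lit 7) (.nd (nat_lit 8) (.nd (nat_lit 9) 
(.lf (nat_lit 585774) (.g (nat_lit 1757) (.e (nat_lit 393252) (nat_lit 18) (.e (nat_lit 164329) (nat_lit 230) (.e (nat_lit 163873) (nat_lit 3) (.e (nat_lit 204813) (nat_lit 9) (.e (nat_lit 426198) (nat_lit 9) .nil))))) (.g (nat_lit 0) (.e (nat_lit 388885) (nat_lit 0) .nil) .nil))) 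
(.lf (nat_lit 586286) (.g (nat_lit 1791) (.e (nat_lit 393254) (nat_lit 18) (.e (nat_lit 164326) (nat_lit 230) (.e (nat_lit 163871) (nat_lit 2) (.e (nat_lit 196619) (nat_lit 9) (.e (nat_lit 455) (nat_lit 34) (.e (nat_lit 450304) (nat_lit 18) .nil)))))) (.g (nat_lit 1) (.e (nat_lit 389452) (nat_lit 0) .nil) .nil)))) (.nd (nat_lit 9) 
(.lf (nat_lit 586030) (.g (nat_lit 2862) (.e (nat_lit 393253) (nat_lit 18) (.e (nat_lit 164326) (nat_lit 230) (.e (nat_lit 163874) (nat_lit 3) (.e (nat_lit 204813) (nat_lit 9) (.e (nat_lit 426200) (nat_lit 9) (.e (nat_lit 426566) (nat_lit 34) .nil)))))) (.g (nat_lit 1) (.e (nat_lit 389172) (nat_lit 0) .nil) .nil))) 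
(.lf (nat_lit 586542) (.g (nat_lit 1803) (.e (nat_lit 393270) (nat_lit 23) (.e (nat_lit 426436) (nat_lit 18) (.e (nat_lit 98333) (nat_lit 18) (.e (nat_lit 164329) (nat_lit 230) (.e (nat_lit 163902) (nat_lit 12) .nil))))) (.g (nat_lit 0) (.e (nat_lit 389815) (nat_lit 0) .nil) .nil))))) (.nd (nat_lit 8) (.nd (nat_lit 9) 
(.lf (nat_lit 585902) (.g (nat_lit 1866) (.e (nat_lit 393253) (nat_lit 18) (.e (nat_lit 164325) (nat_lit 230) (.e (nat_lit 163868) (nat_lit 2) (.e (nat_lit 196624) (nat_lit 9) (.e (nat_lit 433) (nat_lit 32) (.e (nat_lit 426228) (nat_lit 9) (.e (nat_lit 426565) (nat_lit 34) .nil))))))) (.g (nat_lit 1) (.e (nat_lit 389041) (nat_lit 0) .nil) .nil))) 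
(.lf (nat_lit 586414) (.g (nat_lit 1781) (.e (nat_lit 393254) (nat_lit 18) (.e (nat_lit 164332) (nat_lit 230) (.e (nat_lit 163869) (nat_lit 2) (.e (nat_lit 196628) (nat_lit 9) (.e (nat_lit 478) (nat_lit 37) (.e (nat_lit 474880) (nat_lit 18) .nil)))))) (.g (nat_lit 1) (.e (nat_lit 389595) (nat_lit 0) .nil) .nil)))) (.nd (nat_lit 9) 
(.lf (nat_lit 586158) (.g (nat_lit 4032) (.e (nat_lit 393253) (nat_lit 18) (.e (nat_lit 164332) (nat_lit 230) (.e (nat_lit 163869) (nat_lit 2) (.e (nat_lit 196654) (nat_lit 11) (.e (nat_lit 16435) (nat_lit 9) (.e (nat_lit 426566) (nat_lit 34) .nil)))))) (.g (nat_lit 1) (.e (nat_lit 389304) (nat_lit 0) .nil) .nil))) 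
(.lf (nat_lit 586670) (.g (nat_lit 2408) (.e (nat_lit 393273) (nat_lit 23) (.e (nat_lit 426131) (nat_lit 3) (.e (nat_lit 204829) (nat_lit 18) (.e (nat_lit 57655) (nat_lit 152) (.e (nat_lit 2632) (nat_lit 164) (.e (nat_lit 179968) (nat_lit 34) .nil)))))) (.g (nat_lit 1) (.e (nat_lit 389946) (nat_lit 0) .nil) .nil)))))) (.nd (nat_lit 7) (.nd (nat_lit 8) (.nd (nat_lit 9) 
(.lf (nat_lit 585838) (.g (nat_lit 1257) (.e (nat_lit 393252) (nat_lit 18) (.e (nat_lit 164332) (nat_lit 230) (.e (nat_lit 163873) (nat_lit 3) (.e (nat_lit 204811) (nat_lit 9) (.e (nat_lit 426261) (nat_lit 9) (.e (nat_lit 433920) (nat_lit 34) .nil)))))) (.g (nat_lit 1) (.e (nat_lit 388950) (nat_lit 0) .nil) .nil))) 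
(.lf (nat_lit 586350) (.g (nat_lit 3699) (.e (nat_lit 393254) (nat_lit 18) (.e (nat_lit 164327) (nat_lit 230) (.e (nat_lit 163875) (nat_lit 3) (.e (nat_lit 204813) (nat_lit 9) (.e (nat_lit 426188) (nat_lit 9) (.e (nat_lit 426566) (nat_lit 34) .nil)))))) (.g (nat_lit 1) (.e (nat_lit 389516) (nat_lit 0) .nil) .nil)))) (.nd (nat_lit 9) 
(.lf (nat_lit 586094) (.g (nat_lit 2381) (.e (nat_lit 393253) (nat_lit 18) (.e (nat_lit 164329) (nat_lit 230) (.e (nat_lit 163867) (nat_lit 2) (.e (nat_lit 196624) (nat_lit 9) (.e (nat_lit 459) (nat_lit 34) (.e (nat_lit 450304) (nat_lit 18) .nil)))))) (.g (nat_lit 1) (.e (nat_lit 389240) (nat_lit 0) .nil) .nil))) 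
(.lf (nat_lit 586606) (.g (nat_lit 3710) (.e (nat_lit 393271) (nat_lit 23) (.e (nat_lit 426131) (nat_lit 3) (.e (nat_lit 204830) (nat_lit 18) (.e (nat_lit 57692) (nat_lit 156) (.e (nat_lit 163905) (nat_lit 12) (.e (nat_lit 426568) (nat_lit 34) .nil)))))) (.g (nat_lit 1) (.e (nat_lit 389880) (nat_lit 0) .nil) .nil))))) (.nd (nat_lit 8) (.nd (nat_lit 9) 
(.lf (nat_lit 585966) (.g (nat_lit 1757) (.e (nat_lit 393253) (nat_lit 18) (.e (nat_lit 164326) (nat_lit 230) (.e (nat_lit 163868) (nat_lit 2) (.e (nat_lit 196628) (nat_lit 9) (.e (nat_lit 476) (nat_lit 37) (.e (nat_lit 474880) (nat_lit 18) .nil)))))) (.g (nat_lit 1) (.e (nat_lit 389106) (nat_lit 0) .nil) .nil))) 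
(.lf (nat_lit 586478) (.g (nat_lit 1422) (.e (nat_lit 393266) (nat_lit 23) (.e (nat_lit 426396) (nat_lit 15) (.e (nat_lit 2175) (nat_lit 143) (.e (nat_lit 712745) (nat_lit 27) (.e (nat_lit 426347) (nat_lit 14) .nil))))) (.g (nat_lit 0) (.e (nat_lit 389749) (nat_lit 0) .nil) .nil)))) (.nd (nat_lit 9) 
(.lf (nat_lit 586222) (.g (nat_lit 2478) (.e (nat_lit 393254) (nat_lit 18) (.e (nat_lit 164325) (nat_lit 230) (.e (nat_lit 163869) (nat_lit 2) (.e (nat_lit 196656) (nat_lit 11) (.e (nat_lit 16433) (nat_lit 9) .nil))))) (.g (nat_lit 0) (.e (nat_lit 389387) (nat_lit 0) .nil) .nil))) 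
(.lf (nat_lit 586734) (.g (nat_lit 2180) (.e (nat_lit 393281) (nat_lit 23) (.e (nat_lit 426098) (nat_lit 1) (.e (nat_lit 164325) (nat_lit 230) (.e (nat_lit 163844) (nat_lit 0) (.e (nat_lit 3656) (nat_lit 227) (.e (nat_lit 778462) (nat_lit 11) (.e (nat_lit 24658) (nat_lit 13) .nil))))))) (.g (nat_lit 1) (.e (nat_lit 390041) (nat_lit 0) .nil) .nil)))))))) 
(.nd (nat_lit 5) (.nd (nat_lit 6) (.nd (nat_lit 7) (.nd (nat_lit 8) (.nd (nat_lit 9) 
(.lf (nat_lit 585758) (.g (nat_lit 344) (.e (nat_lit 393251) (nat_lit 18) (.e (nat_lit 164399) (nat_lit 256) (.e (nat_lit 57370) (nat_lit 2) .nil))) (.g (nat_lit 0) (.e (nat_lit 388852) (nat_lit 0) .nil) .nil))) 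
(.lf (nat_lit 586270) (.g (nat_lit 2198) (.e (nat_lit 393254) (nat_lit 18) (.e (nat_lit 164326) (nat_lit 230) (.e (nat_lit 163868) (nat_lit 2) (.e (nat_lit 196638) (nat_lit 9) .nil)))) (.g (nat_lit 0) (.e (nat_lit 389436) (nat_lit 0) .nil) .nil)))) (.nd (nat_lit 9) 
(.lf (nat_lit 586014) (.g (nat_lit 1884) (.e (nat_lit 393253) (nat_lit 18) (.e (nat_lit 164326) (nat_lit 230) (.e (nat_lit 163871) (nat_lit 2) (.e (nat_lit 196626) (nat_lit 9) (.e (nat_lit 392) (nat_lit 32) (.e (nat_lit 426188) (nat_lit 9) (.e (nat_lit 426566) (nat_lit 34) .nil))))))) (.g (nat_lit 1) (.e (nat_lit 389155) (nat_lit 0) .nil) .nil))) 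
(.lf (nat_lit 586526) (.g (nat_lit 2999) (.e (nat_lit 393268) (nat_lit 23) (.e (nat_lit 426438) (nat_lit 18) (.e (nat_lit 98335) (nat_lit 18) (.e (nat_lit 164330) (nat_lit 230) (.e (nat_lit 163904) (nat_lit 12) (.e (nat_lit 426566) (nat_lit 34) .nil)))))) (.g (nat_lit 1) (.e (nat_lit 389797) (nat_lit 0) .nil) .nil))))) (.nd (nat_lit 8) (.nd (nat_lit 9) 
(.lf (nat_lit 585886) (.g (nat_lit 430) (.e (nat_lit 393253) (nat_lit 18) (.e (nat_lit 164324) (nat_lit 230) (.e (nat_lit 163873) (nat_lit 3) .nil))) (.g (nat_lit 0) (.e (nat_lit 389023) (nat_lit 0) .nil) .nil))) 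
(.lf (nat_lit 586398) (.g (nat_lit 2134) (.e (nat_lit 393254) (nat_lit 18) (.e (nat_lit 164332) (nat_lit 230) (.e (nat_lit 163869) (nat_lit 2) (.e (nat_lit 196623) (nat_lit 9) (.e (nat_lit 457) (nat_lit 34) (.e (nat_lit 450304) (nat_lit 18) .nil)))))) (.g (nat_lit 1) (.e (nat_lit 389579) (nat_lit 0) .nil) .nil)))) (.nd (nat_lit 9) 
(.lf (nat_lit 586142) (.g (nat_lit 2061) (.e (nat_lit 393253) (nat_lit 18) (.e (nat_lit 164332) (nat_lit 230) (.e (nat_lit 163869) (nat_lit 2) (.e (nat_lit 196624) (nat_lit 9) (.e (nat_lit 398) (nat_lit 32) .nil))))) (.g (nat_lit 0) (.e (nat_lit 389288) (nat_lit 0) .nil) .nil))) 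
(.lf (nat_lit 586654) (.g (nat_lit 3775) (.e (nat_lit 393272) (nat_lit 23) (.e (nat_lit 426436) (nat_lit 18) (.e (nat_lit 98333) (nat_lit 18) (.e (nat_lit 164325) (nat_lit 230) (.e (nat_lit 163903) (nat_lit 12) (.e (nat_lit 426566) (nat_lit 34) .nil)))))) (.g (nat_lit 1) (.e (nat_lit 389930) (nat_lit 0) .nil) .nil)))))) (.nd (nat_lit 7) (.nd (nat_lit 8) (.nd (nat_lit 9) 
(.lf (nat_lit 585822) (.g (nat_lit 2479) (.e (nat_lit 393252) (nat_lit 18) (.e (nat_lit 164332) (nat_lit 230) (.e (nat_lit 163869) (nat_lit 2) (.e (nat_lit 196624) (nat_lit 9) (.e (nat_lit 454) (nat_lit 34) (.e (nat_lit 450304) (nat_lit 18) .nil)))))) (.g (nat_lit 1) (.e (nat_lit 388934) (nat_lit 0) .nil) .nil))) 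
(.lf (nat_lit 586334) (.g (nat_lit 981) (.e (nat_lit 393254) (nat_lit 18) (.e (nat_lit 164327) (nat_lit 230) (.e (nat_lit 163870) (nat_lit 2) .nil))) (.g (nat_lit 0) (.e (nat_lit 389500) (nat_lit 0) .nil) .nil)))) (.nd (nat_lit 9) 
(.lf (nat_lit 586078) (.g (nat_lit 3300) (.e (nat_lit 393253) (nat_lit 18) (.e (nat_lit 164327) (nat_lit 230) (.e (nat_lit 163873) (nat_lit 3) (.e (nat_lit 204813) (nat_lit 9) (.e (nat_lit 426199) (nat_lit 9) (.e (nat_lit 426567) (nat_lit 34) .nil)))))) (.g (nat_lit 1) (.e (nat_lit 389222) (nat_lit 0) .nil) .nil))) 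
(.lf (nat_lit 586590) (.g (nat_lit 1786) (.e (nat_lit 393271) (nat_lit 23) (.e (nat_lit 426131) (nat_lit 3) (.e (nat_lit 204829) (nat_lit 18) (.e (nat_lit 57652) (nat_lit 152) .nil)))) (.g (nat_lit 0) (.e (nat_lit 389864) (nat_lit 0) .nil) .nil))))) (.nd (nat_lit 8) (.nd (nat_lit 9) 
(.lf (nat_lit 585950) (.g (nat_lit 1799) (.e (nat_lit 393253) (nat_lit 18) (.e (nat_lit 164326) (nat_lit 230) (.e (nat_lit 163868) (nat_lit 2) (.e (nat_lit 196623) (nat_lit 9) (.e (nat_lit 455) (nat_lit 34) (.e (nat_lit 450304) (nat_lit 18) .nil)))))) (.g (nat_lit 1) (.e (nat_lit 389090) (nat_lit 0) .nil) .nil))) 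
(.lf (nat_lit 586462) (.g (nat_lit 556) (.e (nat_lit 393260) (nat_lit 21) (.e (nat_lit 409617) (nat_lit 10) (.e (nat_lit 5038) (nat_lit 291) .nil))) (.g (nat_lit 0) (.e (nat_lit 389716) (nat_lit 0) .nil) .nil)))) (.nd (nat_lit 9) 
(.lf (nat_lit 586206) (.g (nat_lit 2246) (.e (nat_lit 393254) (nat_lit 18) (.e (nat_lit 164324) (nat_lit 230) (.e (nat_lit 163868) (nat_lit 2) (.e (nat_lit 196624) (nat_lit 9) (.e (nat_lit 479) (nat_lit 37) (.e (nat_lit 474880) (nat_lit 18) .nil)))))) (.g (nat_lit 1) (.e (nat_lit 389368) (nat_lit 0) .nil) .nil))) 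
(.lf (nat_lit 586718) (.g (nat_lit 1500) (.e (nat_lit 393279) (nat_lit 23) (.e (nat_lit 426110) (nat_lit 1) (.e (nat_lit 164327) (nat_lit 230) (.e (nat_lit 163882) (nat_lit 4) (.e (nat_lit 213031) (nat_lit 11) .nil))))) (.g (nat_lit 0) (.e (nat_lit 390018) (nat_lit 0) .nil) .nil))))))) (.nd (nat_lit 6) (.nd (nat_lit 7) (.nd (nat_lit 8) (.nd (nat_lit 9) 
(.lf (nat_lit 585790) (.g (nat_lit 1012) (.e (nat_lit 393252) (nat_lit 18) (.e (nat_lit 164330) (nat_lit 230) (.e (nat_lit 163874) (nat_lit 3) (.e (nat_lit 204809) (nat_lit 9) .nil)))) (.g (nat_lit 0) (.e (nat_lit 388901) (nat_lit 0) .nil) .nil))) 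
(.lf (nat_lit 586302) (.g (nat_lit 2275) (.e (nat_lit 393254) (nat_lit 18) (.e (nat_lit 164326) (nat_lit 230) (.e (nat_lit 163871) (nat_lit 2) (.e (nat_lit 196627) (nat_lit 9) .nil)))) (.g (nat_lit 0) (.e (nat_lit 389468) (nat_lit 0) .nil) .nil)))) (.nd (nat_lit 9) 
(.lf (nat_lit 586046) (.g (nat_lit 1531) (.e (nat_lit 393253) (nat_lit 18) (.e (nat_lit 164327) (nat_lit 230) (.e (nat_lit 163868) (nat_lit 2) (.e (nat_lit 196635) (nat_lit 9) .nil)))) (.g (nat_lit 0) (.e (nat_lit 389190) (nat_lit 0) .nil) .nil))) 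
(.lf (nat_lit 586558) (.g (nat_lit 2747) (.e (nat_lit 393270) (nat_lit 23) (.e (nat_lit 426436) (nat_lit 18) (.e (nat_lit 98335) (nat_lit 18) (.e (nat_lit 164324) (nat_lit 230) (.e (nat_lit 163903) (nat_lit 12) (.e (nat_lit 426567) (nat_lit 34) .nil)))))) (.g (nat_lit 1) (.e (nat_lit 389831) (nat_lit 0) .nil) .nil))))) (.nd (nat_lit 8) (.nd (nat_lit 9) 
(.lf (nat_lit 585918) (.g (nat_lit 2366) (.e (nat_lit 393253) (nat_lit 18) (.e (nat_lit 164325) (nat_lit 230) (.e (nat_lit 163871) (nat_lit 2) (.e (nat_lit 196624) (nat_lit 9) (.e (nat_lit 459) (nat_lit 34) (.e (nat_lit 450304) (nat_lit 18) .nil)))))) (.g (nat_lit 1) (.e (nat_lit 389057) (nat_lit 0) .nil) .nil))) 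
(.lf (nat_lit 586430) (.g (nat_lit 1373) (.e (nat_lit 393254) (nat_lit 18) (.e (nat_lit 164332) (nat_lit 230) (.e (nat_lit 163873) (nat_lit 3) (.e (nat_lit 204811) (nat_lit 9) (.e (nat_lit 426262) (nat_lit 9) (.e (nat_lit 433920) (nat_lit 34) .nil)))))) (.g (nat_lit 1) (.e (nat_lit 389611) (nat_lit 0) .nil) .nil)))) (.nd (nat_lit 9) 
(.lf (nat_lit 586174) (.g (nat_lit 403) (.e (nat_lit 393253) (nat_lit 18) (.e (nat_lit 164403) (nat_lit 256) (.e (nat_lit 57370) (nat_lit 2) .nil))) (.g (nat_lit 0) (.e (nat_lit 389323) (nat_lit 0) .nil) .nil))) 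
(.lf (nat_lit 586686) (.g (nat_lit 3561) (.e (nat_lit 393273) (nat_lit 23) (.e (nat_lit 426436) (nat_lit 18) (.e (nat_lit 98334) (nat_lit 18) (.e (nat_lit 164330) (nat_lit 230) (.e (nat_lit 163905) (nat_lit 12) (.e (nat_lit 426566) (nat_lit 34) .nil)))))) (.g (nat_lit 1) (.e (nat_lit 389963) (nat_lit 0) .nil) .nil)))))) (.nd (nat_lit 7) (.nd (nat_lit 8) (.nd (nat_lit 9) 
(.lf (nat_lit 585854) (.g (nat_lit 3147) (.e (nat_lit 393252) (nat_lit 18) (.e (nat_lit 164398) (nat_lit 256) (.e (nat_lit 57378) (nat_lit 3) (.e (nat_lit 98365) (nat_lit 26) (.e (nat_lit 426188) (nat_lit 9) (.e (nat_lit 426568) (nat_lit 34) .nil)))))) (.g (nat_lit 1) (.e (nat_lit 388966) (nat_lit 0) .nil) .nil))) 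
(.lf (nat_lit 586366) (.g (nat_lit 1413) (.e (nat_lit 393254) (nat_lit 18) (.e (nat_lit 164330) (nat_lit 230) (.e (nat_lit 163867) (nat_lit 2) (.e (nat_lit 196654) (nat_lit 11) .nil)))) (.g (nat_lit 0) (.e (nat_lit 389534) (nat_lit 0) .nil) .nil)))) (.nd (nat_lit 9) 
(.lf (nat_lit 586110) (.g (nat_lit 1658) (.e (nat_lit 393253) (nat_lit 18) (.e (nat_lit 164330) (nat_lit 230) (.e (nat_lit 163869) (nat_lit 2) (.e (nat_lit 196626) (nat_lit 9) (.e (nat_lit 396) (nat_lit 32) .nil))))) (.g (nat_lit 0) (.e (nat_lit 389256) (nat_lit 0) .nil) .nil))) 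
(.lf (nat_lit 586622) (.g (nat_lit 2843) (.e (nat_lit 393271) (nat_lit 23) (.e (nat_lit 426436) (nat_lit 18) (.e (nat_lit 98335) (nat_lit 18) (.e (nat_lit 164323) (nat_lit 230) .nil)))) (.g (nat_lit 0) (.e (nat_lit 389898) (nat_lit 0) .nil) .nil))))) (.nd (nat_lit 8) (.nd (nat_lit 9) 
(.lf (nat_lit 585982) (.g (nat_lit 1634) (.e (nat_lit 393253) (nat_lit 18) (.e (nat_lit 164326) (nat_lit 230) (.e (nat_lit 163870) (nat_lit 2) (.e (nat_lit 196617) (nat_lit 9) .nil)))) (.g (nat_lit 0) (.e (nat_lit 389123) (nat_lit 0) .nil) .nil))) 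
(.lf (nat_lit 586494) (.g (nat_lit 3868) (.e (nat_lit 393268) (nat_lit 23) (.e (nat_lit 426436) (nat_lit 18) (.e (nat_lit 98334) (nat_lit 18) (.e (nat_lit 164330) (nat_lit 230) (.e (nat_lit 163902) (nat_lit 12) (.e (nat_lit 426566) (nat_lit 34) .nil)))))) (.g (nat_lit 1) (.e (nat_lit 389765) (nat_lit 0) .nil) .nil)))) (.nd (nat_lit 9) 
(.lf (nat_lit 586238) (.g (nat_lit 1151) (.e (nat_lit 393254) (nat_lit 18) (.e (nat_lit 164325) (nat_lit 230) (.e (nat_lit 163875) (nat_lit 3) (.e (nat_lit 204811) (nat_lit 9) (.e (nat_lit 426261) (nat_lit 9) (.e (nat_lit 433920) (nat_lit 34) .nil)))))) (.g (nat_lit 1) (.e (nat_lit 389403) (nat_lit 0) .nil) .nil))) 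
(.lf (nat_lit 586750) (.g (nat_lit 2917) (.e (nat_lit 393281) (nat_lit 23) (.e (nat_lit 426098) (nat_lit 1) (.e (nat_lit 164332) (nat_lit 230) (.e (nat_lit 163880) (nat_lit 4) (.e (nat_lit 213030) (nat_lit 11) (.e (nat_lit 24656) (nat_lit 13) .nil)))))) (.g (nat_lit 1) (.e (nat_lit 390057) (nat_lit 0) .nil) .nil)))))))))))) 
(.nd (nat_lit 1) (.nd (nat_lit 2) (.nd (nat_lit 3) (.nd (nat_lit 4) (.nd (nat_lit 5) 
(.nd (nat_lit 6) (.nd (nat_lit 7) (.nd (nat_lit 8) (.nd (nat_lit 9) 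
(.lf (nat_lit 585729) (.g (nat_lit 2969) (.e (nat_lit 393251) (nat_lit 18) (.e (nat_lit 164332) (nat_lit 230) (.e (nat_lit 163869) (nat_lit 2) (.e (nat_lit 196622) (nat_lit 9) (.e (nat_lit 478) (nat_lit 37) (.e (nat_lit 474880) (nat_lit 18) .nil)))))) (.g (nat_lit 1) (.e (nat_lit 388822) (nat_lit 0) .nil) .nil))) 
(.lf (nat_lit 586241) (.g (nat_lit 1352) (.e (nat_lit 393254) (nat_lit 18) (.e (nat_lit 164326) (nat_lit 230) (.e (nat_lit 163868) (nat_lit 2) (.e (nat_lit 196617) (nat_lit 9) (.e (nat_lit 421) (nat_lit 32) .nil))))) (.g (nat_lit 0) (.e (nat_lit 389406) (nat_lit 0) .nil) .nil)))) (.nd (nat_lit 9) 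
(.lf (nat_lit 585985) (.g (nat_lit 1902) (.e (nat_lit 393253) (nat_lit 18) (.e (nat_lit 164326) (nat_lit 230) (.e (nat_lit 163870) (nat_lit 2) (.e (nat_lit 196628) (nat_lit 9) (.e (nat_lit 419) (nat_lit 32) .nil))))) (.g (nat_lit 0) (.e (nat_lit 389126) (nat_lit 0) .nil) .nil))) 
(.lf (nat_lit 586497) (.g (nat_lit 3438) (.e (nat_lit 393268) (nat_lit 23) (.e (nat_lit 426436) (nat_lit 18) (.e (nat_lit 98334) (nat_lit 18) (.e (nat_lit 164330) (nat_lit 230) (.e (nat_lit 163905) (nat_lit 12) (.e (nat_lit 426566) (nat_lit 34) .nil)))))) (.g (nat_lit 1) (.e (nat_lit 389768) (nat_lit 0) .nil) .nil))))) (.nd (nat_lit 8) (.nd (nat_lit 9) 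
(.lf (nat_lit 585857) (.g (nat_lit 3370) (.e (nat_lit 393252) (nat_lit 18) (.e (nat_lit 164398) (nat_lit 256) (.e (nat_lit 57379) (nat_lit 3) (.e (nat_lit 98365) (nat_lit 26) (.e (nat_lit 426188) (nat_lit 9) (.e (nat_lit 426568) (nat_lit 34) .nil)))))) (.g (nat_lit 1) (.e (nat_lit 388969) (nat_lit 0) .nil) .nil))) 
(.lf (nat_lit 586369) (.g (nat_lit 1500) (.e (nat_lit 393254) (nat_lit 18) (.e (nat_lit 164330) (nat_lit 230) (.e (nat_lit 163873) (nat_lit 3) (.e (nat_lit 204809) (nat_lit 9) .nil)))) (.g (nat_lit 0) (.e (nat_lit 389537) (nat_lit 0) .nil) .nil)))) (.nd (nat_lit 9) 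
(.lf (nat_lit 586113) (.g (nat_lit 794) (.e (nat_lit 393253) (nat_lit 18) (.e (nat_lit 164330) (nat_lit 230) (.e (nat_lit 163872) (nat_lit 3) .nil))) (.g (nat_lit 0) (.e (nat_lit 389259) (nat_lit 0) .nil) .nil))) 
(.lf (nat_lit 586625) (.g (nat_lit 4362) (.e (nat_lit 393271) (nat_lit 23) (.e (nat_lit 426436) (nat_lit 18) (.e (nat_lit 98335) (nat_lit 18) (.e (nat_lit 164330) (nat_lit 230) (.e (nat_lit 163902) (nat_lit 12) (.e (nat_lit 426566) (nat_lit 34) .nil)))))) (.g (nat_lit 1) (.e (nat_lit 389901) (nat_lit 0) .nil) .nil)))))) (.nd (nat_lit 7) (.nd (nat_lit 8) (.nd (nat_lit 9) 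
(.lf (nat_lit 585793) (.g (nat_lit 841) (.e (nat_lit 393252) (nat_lit 18) (.e (nat_lit 164330) (nat_lit 230) (.e (nat_lit 163874) (nat_lit 3) (.e (nat_lit 212736) (nat_lit 9) .nil)))) (.g (nat_lit 0) (.e (nat_lit 388904) (nat_lit 0) .nil) .nil))) 
(.lf (nat_lit 586305) (.g (nat_lit 1258) (.e (nat_lit 393254) (nat_lit 18) (.e (nat_lit 164326) (nat_lit 230) (.e (nat_lit 163871) (nat_lit 2) (.e (nat_lit 196635) (nat_lit 9) .nil)))) (.g (nat_lit 0) (.e (nat_lit 389471) (nat_lit 0) .nil) .nil)))) (.nd (nat_lit 9) 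
(.lf (nat_lit 586049) (.g (nat_lit 1890) (.e (nat_lit 393253) (nat_lit 18) (.e (nat_lit 164327) (nat_lit 230) (.e (nat_lit 163868) (nat_lit 2) (.e (nat_lit 196656) (nat_lit 11) (.e (nat_lit 16446) (nat_lit 9) .nil))))) (.g (nat_lit 0) (.e (nat_lit 389193) (nat_lit 0) .nil) .nil))) 
(.lf (nat_lit 586561) (.g (nat_lit 3475) (.e (nat_lit 393270) (nat_lit 23) (.e (nat_lit 426436) (nat_lit 18) (.e (nat_lit 98335) (nat_lit 18) (.e (nat_lit 164326) (nat_lit 230) (.e (nat_lit 163903) (nat_lit 12) (.e (nat_lit 426566) (nat_lit 34) .nil)))))) (.g (nat_lit 1) (.e (nat_lit 389834) (nat_lit 0) .nil) .nil))))) (.nd (nat_lit 8) (.nd (nat_lit 9) 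
(.lf (nat_lit 585921) (.g (nat_lit 3547) (.e (nat_lit 393253) (nat_lit 18) (.e (nat_lit 164325) (nat_lit 230) (.e (nat_lit 163871) (nat_lit 2) (.e (nat_lit 196656) (nat_lit 11) (.e (nat_lit 16433) (nat_lit 9) (.e (nat_lit 426568) (nat_lit 34) .nil)))))) (.g (nat_lit 1) (.e (nat_lit 389060) (nat_lit 0) .nil) .nil))) 
(.lf (nat_lit 586433) (.g (nat_lit 3090) (.e (nat_lit 393254) (nat_lit 18) (.e (nat_lit 164332) (nat_lit 230) (.e (nat_lit 163873) (nat_lit 3) (.e (nat_lit 204813) (nat_lit 9) (.e (nat_lit 426197) (nat_lit 9) .nil))))) (.g (nat_lit 0) (.e (nat_lit 389614) (nat_lit 0) .nil) .nil)))) (.nd (nat_lit 9) 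
(.lf (nat_lit 586177) (.g (nat_lit 388) (.e (nat_lit 393253) (nat_lit 18) (.e (nat_lit 164403) (nat_lit 256) (.e (nat_lit 57377) (nat_lit 3) .nil))) (.g (nat_lit 0) (.e (nat_lit 389337) (nat_lit 0) .nil) .nil))) 
(.lf (nat_lit 586689) (.g (nat_lit 1763) (.e (nat_lit 393273) (nat_lit 23) (.e (nat_lit 426436) (nat_lit 18) (.e (nat_lit 98335) (nat_lit 18) (.e (nat_lit 164305) (nat_lit 226) (.e (nat_lit 2439) (nat_lit 157) .nil))))) (.g (nat_lit 0) (.e (nat_lit 389966) (nat_lit 0) .nil) .nil))))))) (.nd (nat_lit 6) (.nd (nat_lit 7) (.nd (nat_lit 8) (.nd (nat_lit 9) 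
(.lf (nat_lit 585761) (.g (nat_lit 1766) (.e (nat_lit 393251) (nat_lit 18) (.e (nat_lit 164399) (nat_lit 256) (.e (nat_lit 57378) (nat_lit 3) (.e (nat_lit 98354) (nat_lit 26) .nil)))) (.g (nat_lit 0) (.e (nat_lit 388864) (nat_lit 0) .nil) .nil))) 
(.lf (nat_lit 586273) (.g (nat_lit 3025) (.e (nat_lit 393254) (nat_lit 18) (.e (nat_lit 164326) (nat_lit 230) (.e (nat_lit 163868) (nat_lit 2) (.e (nat_lit 196656) (nat_lit 11) (.e (nat_lit 16433) (nat_lit 9) (.e (nat_lit 426566) (nat_lit 34) .nil)))))) (.g (nat_lit 1) (.e (nat_lit 389439) (nat_lit 0) .nil) .nil)))) (.nd (nat_lit 9) 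
(.lf (nat_lit 586017) (.g (nat_lit 2212) (.e (nat_lit 393253) (nat_lit 18) (.e (nat_lit 164326) (nat_lit 230) (.e (nat_lit 163871) (nat_lit 2) (.e (nat_lit 196632) (nat_lit 9) .nil)))) (.g (nat_lit 0) (.e (nat_lit 389158) (nat_lit 0) .nil) .nil))) 
(.lf (nat_lit 586529) (.g (nat_lit 3382) (.e (nat_lit 393268) (nat_lit 23) (.e (nat_lit 426438) (nat_lit 18) (.e (nat_lit 98335) (nat_lit 18) (.e (nat_lit 164332) (nat_lit 230) (.e (nat_lit 163902) (nat_lit 12) (.e (nat_lit 426567) (nat_lit 34) .nil)))))) (.g (nat_lit 1) (.e (nat_lit 389800) (nat_lit 0) .nil) .nil))))) (.nd (nat_lit 8) (.nd (nat_lit 9) 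
(.lf (nat_lit 585889) (.g (nat_lit 4572) (.e (nat_lit 393253) (nat_lit 18) (.e (nat_lit 164324) (nat_lit 230) (.e (nat_lit 163873) (nat_lit 3) (.e (nat_lit 204813) (nat_lit 9) (.e (nat_lit 426185) (nat_lit 9) (.e (nat_lit 426566) (nat_lit 34) .nil)))))) (.g (nat_lit 1) (.e (nat_lit 389026) (nat_lit 0) .nil) .nil))) 
(.lf (nat_lit 586401) (.g (nat_lit 2584) (.e (nat_lit 393254) (nat_lit 18) (.e (nat_lit 164332) (nat_lit 230) (.e (nat_lit 163869) (nat_lit 2) (.e (nat_lit 196624) (nat_lit 9) (.e (nat_lit 455) (nat_lit 34) (.e (nat_lit 450304) (nat_lit 18) .nil)))))) (.g (nat_lit 1) (.e (nat_lit 389582) (nat_lit 0) .nil) .nil)))) (.nd (nat_lit 9) 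
(.lf (nat_lit 586145) (.g (nat_lit 2061) (.e (nat_lit 393253) (nat_lit 18) (.e (nat_lit 164332) (nat_lit 230) (.e (nat_lit 163869) (nat_lit 2) (.e (nat_lit 196624) (nat_lit 9) (.e (nat_lit 435) (nat_lit 32) .nil))))) (.g (nat_lit 0) (.e (nat_lit 389291) (nat_lit 0) .nil) .nil))) 
(.lf (nat_lit 586657) (.g (nat_lit 3079) (.e (nat_lit 393272) (nat_lit 23) (.e (nat_lit 426436) (nat_lit 18) (.e (nat_lit 98333) (nat_lit 18) (.e (nat_lit 164327) (nat_lit 230) (.e (nat_lit 163907) (nat_lit 12) (.e (nat_lit 426566) (nat_lit 34) .nil)))))) (.g (nat_lit 1) (.e (nat_lit 389933) (nat_lit 0) .nil) .nil)))))) (.nd (nat_lit 7) (.nd (nat_lit 8) (.nd (nat_lit 9) 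
(.lf (nat_lit 585825) (.g (nat_lit 2234) (.e (nat_lit 393252) (nat_lit 18) (.e (nat_lit 164332) (nat_lit 230) (.e (nat_lit 163869) (nat_lit 2) (.e (nat_lit 196624) (nat_lit 9) (.e (nat_lit 459) (nat_lit 34) (.e (nat_lit 450304) (nat_lit 18) .nil)))))) (.g (nat_lit 1) (.e (nat_lit 388937) (nat_lit 0) .nil) .nil))) 
(.lf (nat_lit 586337) (.g (nat_lit 2576) (.e (nat_lit 393254) (nat_lit 18) (.e (nat_lit 164327) (nat_lit 230) (.e (nat_lit 163871) (nat_lit 2) (.e (nat_lit 196656) (nat_lit 11) (.e (nat_lit 16433) (nat_lit 9) .nil))))) (.g (nat_lit 0) (.e (nat_lit 389503) (nat_lit 0) .nil) .nil)))) (.nd (nat_lit 9) 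
(.lf (nat_lit 586081) (.g (nat_lit 3348) (.e (nat_lit 393253) (nat_lit 18) (.e (nat_lit 164327) (nat_lit 230) (.e (nat_lit 163874) (nat_lit 3) (.e (nat_lit 204813) (nat_lit 9) (.e (nat_lit 426190) (nat_lit 9) (.e (nat_lit 426566) (nat_lit 34) .nil)))))) (.g (nat_lit 1) (.e (nat_lit 389225) (nat_lit 0) .nil) .nil))) 
(.lf (nat_lit 586593) (.g (nat_lit 2622) (.e (nat_lit 393271) (nat_lit 23) (.e (nat_lit 426131) (nat_lit 3) (.e (nat_lit 204829) (nat_lit 18) (.e (nat_lit 57654) (nat_lit 152) (.e (nat_lit 2633) (nat_lit 164) (.e (nat_lit 179968) (nat_lit 34) .nil)))))) (.g (nat_lit 1) (.e (nat_lit 389867) (nat_lit 0) .nil) .nil))))) (.nd (nat_lit 8) (.nd (nat_lit 9) 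
(.lf (nat_lit 585953) (.g (nat_lit 2618) (.e (nat_lit 393253) (nat_lit 18) (.e (nat_lit 164326) (nat_lit 230) (.e (nat_lit 163868) (nat_lit 2) (.e (nat_lit 196624) (nat_lit 9) (.e (nat_lit 455) (nat_lit 34) (.e (nat_lit 450304) (nat_lit 18) .nil)))))) (.g (nat_lit 1) (.e (nat_lit 389093) (nat_lit 0) .nil) .nil))) 
(.lf (nat_lit 586465) (.g (nat_lit 1179) (.e (nat_lit 393263) (nat_lit 22) (.e (nat_lit 425728) (nat_lit 2) (.e (nat_lit 32803) (nat_lit 16) (.e (nat_lit 24665) (nat_lit 14) (.e (nat_lit 409344) (nat_lit 34) .nil))))) (.g (nat_lit 1) (.e (nat_lit 389723) (nat_lit 0) .nil) .nil)))) (.nd (nat_lit 9) 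
(.lf (nat_lit 586209) (.g (nat_lit 2038) (.e (nat_lit 393254) (nat_lit 18) (.e (nat_lit 164324) (nat_lit 230) (.e (nat_lit 163873) (nat_lit 3) (.e (nat_lit 204811) (nat_lit 9) (.e (nat_lit 426234) (nat_lit 9) (.e (nat_lit 426565) (nat_lit 34) .nil)))))) (.g (nat_lit 1) (.e (nat_lit 389371) (nat_lit 0) .nil) .nil))) 
(.lf (nat_lit 586721) (.g (nat_lit 1719) (.e (nat_lit 393279) (nat_lit 23) (.e (nat_lit 426110) (nat_lit 1) (.e (nat_lit 164348) (nat_lit 240) (.e (nat_lit 2638) (nat_lit 165) (.e (nat_lit 180277) (nat_lit 32) (.e (nat_lit 1658) (nat_lit 115) .nil)))))) (.g (nat_lit 1) (.e (nat_lit 390023) (nat_lit 0) .nil) .nil)))))))) 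
(.nd (nat_lit 5) (.nd (nat_lit 6) (.nd (nat_lit 7) (.nd (nat_lit 8) (.nd (nat_lit 9) 
(.lf (nat_lit 585745) (.g (nat_lit 3688) (.e (nat_lit 393251) (nat_lit 18) (.e (nat_lit 164332) (nat_lit 230) (.e (nat_lit 163873) (nat_lit 3) (.e (nat_lit 204813) (nat_lit 9) (.e (nat_lit 426199) (nat_lit 9) (.e (nat_lit 426567) (nat_lit 34) .nil)))))) (.g (nat_lit 1) (.e (nat_lit 388838) (nat_lit 0) .nil) .nil))) 
(.lf (nat_lit 586257) (.g (nat_lit 2069) (.e (nat_lit 393254) (nat_lit 18) (.e (nat_lit 164326) (nat_lit 230) (.e (nat_lit 163868) (nat_lit 2) (.e (nat_lit 196624) (nat_lit 9) (.e (nat_lit 479) (nat_lit 37) (.e (nat_lit 474880) (nat_lit 18) .nil)))))) (.g (nat_lit 1) (.e (nat_lit 389422) (nat_lit 0) .nil) .nil)))) (.nd (nat_lit 9) 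
(.lf (nat_lit 586001) (.g (nat_lit 1956) (.e (nat_lit 393253) (nat_lit 18) (.e (nat_lit 164326) (nat_lit 230) (.e (nat_lit 163871) (nat_lit 2) (.e (nat_lit 196620) (nat_lit 9) .nil)))) (.g (nat_lit 0) (.e (nat_lit 389142) (nat_lit 0) .nil) .nil))) 
(.lf (nat_lit 586513) (.g (nat_lit 2276) (.e (nat_lit 393268) (nat_lit 23) (.e (nat_lit 426438) (nat_lit 18) (.e (nat_lit 98334) (nat_lit 18) (.e (nat_lit 164305) (nat_lit 226) (.e (nat_lit 2439) (nat_lit 157) (.e (nat_lit 2900) (nat_lit 184) (.e (nat_lit 426565) (nat_lit 34) .nil))))))) (.g (nat_lit 1) (.e (nat_lit 389784) (nat_lit 0) .nil) .nil))))) (.nd (nat_lit 8) (.nd (nat_lit 9) 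
(.lf (nat_lit 585873) (.g (nat_lit 368) (.e (nat_lit 393253) (nat_lit 18) (.e (nat_lit 164324) (nat_lit 230) (.e (nat_lit 163868) (nat_lit 2) .nil))) (.g (nat_lit 0) (.e (nat_lit 389010) (nat_lit 0) .nil) .nil))) 
(.lf (nat_lit 586385) (.g (nat_lit 2214) (.e (nat_lit 393254) (nat_lit 18) (.e (nat_lit 164332) (nat_lit 230) (.e (nat_lit 163867) (nat_lit 2) (.e (nat_lit 196624) (nat_lit 9) (.e (nat_lit 479) (nat_lit 37) (.e (nat_lit 474880) (nat_lit 18) .nil)))))) (.g (nat_lit 1) (.e (nat_lit 389566) (nat_lit 0) .nil) .nil)))) (.nd (nat_lit 9) 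
(.lf (nat_lit 586129) (.g (nat_lit 2246) (.e (nat_lit 393253) (nat_lit 18) (.e (nat_lit 164332) (nat_lit 230) (.e (nat_lit 163867) (nat_lit 2) (.e (nat_lit 196624) (nat_lit 9) (.e (nat_lit 455) (nat_lit 34) (.e (nat_lit 450304) (nat_lit 18) .nil)))))) (.g (nat_lit 1) (.e (nat_lit 389275) (nat_lit 0) .nil) .nil))) 
(.lf (nat_lit 586641) (.g (nat_lit 2443) (.e (nat_lit 393272) (nat_lit 23) (.e (nat_lit 426131) (nat_lit 3) (.e (nat_lit 204829) (nat_lit 18) (.e (nat_lit 57652) (nat_lit 152) (.e (nat_lit 2633) (nat_lit 164) (.e (nat_lit 179968) (nat_lit 34) .nil)))))) (.g (nat_lit 1) (.e (nat_lit 389917) (nat_lit 0) .nil) .nil)))))) (.nd (nat_lit 7) (.nd (nat_lit 8) (.nd (nat_lit 9) 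
(.lf (nat_lit 585809) (.g (nat_lit 1160) (.e (nat_lit 393252) (nat_lit 18) (.e (nat_lit 164332) (nat_lit 230) (.e (nat_lit 163867) (nat_lit 2) (.e (nat_lit 196652) (nat_lit 11) .nil)))) (.g (nat_lit 0) (.e (nat_lit 388920) (nat_lit 0) .nil) .nil))) 
(.lf (nat_lit 586321) (.g (nat_lit 1898) (.e (nat_lit 393254) (nat_lit 18) (.e (nat_lit 164326) (nat_lit 230) (.e (nat_lit 163875) (nat_lit 3) (.e (nat_lit 204811) (nat_lit 9) (.e (nat_lit 426260) (nat_lit 9) (.e (nat_lit 426565) (nat_lit 34) .nil)))))) (.g (nat_lit 1) (.e (nat_lit 389487) (nat_lit 0) .nil) .nil)))) (.nd (nat_lit 9) 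
(.lf (nat_lit 586065) (.g (nat_lit 3405) (.e (nat_lit 393253) (nat_lit 18) (.e (nat_lit 164327) (nat_lit 230) (.e (nat_lit 163871) (nat_lit 2) (.e (nat_lit 196656) (nat_lit 11) (.e (nat_lit 16434) (nat_lit 9) (.e (nat_lit 426566) (nat_lit 34) .nil)))))) (.g (nat_lit 1) (.e (nat_lit 389209) (nat_lit 0) .nil) .nil))) 
(.lf (nat_lit 586577) (.g (nat_lit 3056) (.e (nat_lit 393270) (nat_lit 23) (.e (nat_lit 426438) (nat_lit 18) (.e (nat_lit 98335) (nat_lit 18) (.e (nat_lit 164325) (nat_lit 230) (.e (nat_lit 163907) (nat_lit 12) (.e (nat_lit 426566) (nat_lit 34) .nil)))))) (.g (nat_lit 1) (.e (nat_lit 389850) (nat_lit 0) .nil) .nil))))) (.nd (nat_lit 8) (.nd (nat_lit 9) 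
(.lf (nat_lit 585937) (.g (nat_lit 1580) (.e (nat_lit 393253) (nat_lit 18) (.e (nat_lit 164325) (nat_lit 230) (.e (nat_lit 163875) (nat_lit 3) (.e (nat_lit 204811) (nat_lit 9) (.e (nat_lit 426262) (nat_lit 9) (.e (nat_lit 433920) (nat_lit 34) .nil)))))) (.g (nat_lit 1) (.e (nat_lit 389076) (nat_lit 0) .nil) .nil))) 
(.lf (nat_lit 586449) (.g (nat_lit 2072) (.e (nat_lit 393254) (nat_lit 18) (.e (nat_lit 164348) (nat_lit 240) (.e (nat_lit 2610) (nat_lit 163) (.e (nat_lit 163959) (nat_lit 24) (.e (nat_lit 524319) (nat_lit 11) (.e (nat_lit 450304) (nat_lit 18) .nil)))))) (.g (nat_lit 1) (.e (nat_lit 389632) (nat_lit 0) .nil) .nil)))) (.nd (nat_lit 9) 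
(.lf (nat_lit 586193) (.g (nat_lit 1671) (.e (nat_lit 393254) (nat_lit 18) (.e (nat_lit 164322) (nat_lit 230) (.e (nat_lit 163873) (nat_lit 3) (.e (nat_lit 204811) (nat_lit 9) (.e (nat_lit 426260) (nat_lit 9) (.e (nat_lit 426565) (nat_lit 34) .nil)))))) (.g (nat_lit 1) (.e (nat_lit 389355) (nat_lit 0) .nil) .nil))) 
(.lf (nat_lit 586705) (.g (nat_lit 1496) (.e (nat_lit 393275) (nat_lit 23) (.e (nat_lit 426109) (nat_lit 1) (.e (nat_lit 164347) (nat_lit 240) (.e (nat_lit 2638) (nat_lit 165) (.e (nat_lit 180278) (nat_lit 32) (.e (nat_lit 1658) (nat_lit 115) .nil)))))) (.g (nat_lit 1) (.e (nat_lit 389985) (nat_lit 0) .nil) .nil))))))) (.nd (nat_lit 6) (.nd (nat_lit 7) (.nd (nat_lit 8) (.nd (nat_lit 9) 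
(.lf (nat_lit 585777) (.g (nat_lit 1781) (.e (nat_lit 393252) (nat_lit 18) (.e (nat_lit 164330) (nat_lit 230) (.e (nat_lit 163867) (nat_lit 2) (.e (nat_lit 196628) (nat_lit 9) (.e (nat_lit 397) (nat_lit 32) .nil))))) (.g (nat_lit 0) (.e (nat_lit 388888) (nat_lit 0) .nil) .nil))) 
(.lf (nat_lit 586289) (.g (nat_lit 1649) (.e (nat_lit 393254) (nat_lit 18) (.e (nat_lit 164326) (nat_lit 230) (.e (nat_lit 163871) (nat_lit 2) (.e (nat_lit 196623) (nat_lit 9) (.e (nat_lit 454) (nat_lit 34) (.e (nat_lit 450304) (nat_lit 18) .nil)))))) (.g (nat_lit 1) (.e (nat_lit 389455) (nat_lit 0) .nil) .nil)))) (.nd (nat_lit 9) 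
(.lf (nat_lit 586033) (.g (nat_lit 3019) (.e (nat_lit 393253) (nat_lit 18) (.e (nat_lit 164326) (nat_lit 230) (.e (nat_lit 163875) (nat_lit 3) (.e (nat_lit 204809) (nat_lit 9) (.e (nat_lit 426200) (nat_lit 9) (.e (nat_lit 426566) (nat_lit 34) .nil)))))) (.g (nat_lit 1) (.e (nat_lit 389175) (nat_lit 0) .nil) .nil))) 
(.lf (nat_lit 586545) (.g (nat_lit 1820) (.e (nat_lit 393270) (nat_lit 23) (.e (nat_lit 426436) (nat_lit 18) (.e (nat_lit 98333) (nat_lit 18) (.e (nat_lit 164332) (nat_lit 230) (.e (nat_lit 163905) (nat_lit 12) (.e (nat_lit 426567) (nat_lit 34) .nil)))))) (.g (nat_lit 1) (.e (nat_lit 389818) (nat_lit 0) .nil) .nil))))) (.nd (nat_lit 8) (.nd (nat_lit 9) 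
(.lf (nat_lit 585905) (.g (nat_lit 2443) (.e (nat_lit 393253) (nat_lit 18) (.e (nat_lit 164325) (nat_lit 230) (.e (nat_lit 163868) (nat_lit 2) (.e (nat_lit 196624) (nat_lit 9) (.e (nat_lit 457) (nat_lit 34) (.e (nat_lit 450304) (nat_lit 18) .nil)))))) (.g (nat_lit 1) (.e (nat_lit 389044) (nat_lit 0) .nil) .nil))) 
(.lf (nat_lit 586417) (.g (nat_lit 3551) (.e (nat_lit 393254) (nat_lit 18) (.e (nat_lit 164332) (nat_lit 230) (.e (nat_lit 163869) (nat_lit 2) (.e (nat_lit 196632) (nat_lit 9) .nil)))) (.g (nat_lit 0) (.e (nat_lit 389598) (nat_lit 0) .nil) .nil)))) (.nd (nat_lit 9) 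
(.lf (nat_lit 586161) (.g (nat_lit 1808) (.e (nat_lit 393253) (nat_lit 18) (.e (nat_lit 164332) (nat_lit 230) (.e (nat_lit 163873) (nat_lit 3) (.e (nat_lit 204808) (nat_lit 9) (.e (nat_lit 426190) (nat_lit 9) .nil))))) (.g (nat_lit 0) (.e (nat_lit 389307) (nat_lit 0) .nil) .nil))) 
(.lf (nat_lit 586673) (.g (nat_lit 3740) (.e (nat_lit 393273) (nat_lit 23) (.e (nat_lit 426131) (nat_lit 3) (.e (nat_lit 204829) (nat_lit 18) (.e (nat_lit 57688) (nat_lit 156) (.e (nat_lit 163907) (nat_lit 12) (.e (nat_lit 426566) (nat_lit 34) .nil)))))) (.g (nat_lit 1) (.e (nat_lit 389949) (nat_lit 0) .nil) .nil)))))) (.nd (nat_lit 7) (.nd (nat_lit 8) (.nd (nat_lit 9) 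
(.lf (nat_lit 585841) (.g (nat_lit 1081) (.e (nat_lit 393252) (nat_lit 18) (.e (nat_lit 164332) (nat_lit 230) (.e (nat_lit 163874) (nat_lit 3) (.e (nat_lit 204811) (nat_lit 9) .nil)))) (.g (nat_lit 0) (.e (nat_lit 388953) (nat_lit 0) .nil) .nil))) 
(.lf (nat_lit 586353) (.g (nat_lit 2359) (.e (nat_lit 393254) (nat_lit 18) (.e (nat_lit 164329) (nat_lit 230) (.e (nat_lit 163867) (nat_lit 2) (.e (nat_lit 196624) (nat_lit 9) (.e (nat_lit 455) (nat_lit 34) (.e (nat_lit 450304) (nat_lit 18) .nil)))))) (.g (nat_lit 1) (.e (nat_lit 389521) (nat_lit 0) .nil) .nil)))) (.nd (nat_lit 9) 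
(.lf (nat_lit 586097) (.g (nat_lit 1234) (.e (nat_lit 393253) (nat_lit 18) (.e (nat_lit 164329) (nat_lit 230) (.e (nat_lit 163867) (nat_lit 2) (.e (nat_lit 196628) (nat_lit 9) .nil)))) (.g (nat_lit 0) (.e (nat_lit 389243) (nat_lit 0) .nil) .nil))) 
(.lf (nat_lit 586609) (.g (nat_lit 2128) (.e (nat_lit 393271) (nat_lit 23) (.e (nat_lit 426131) (nat_lit 3) (.e (nat_lit 204831) (nat_lit 18) (.e (nat_lit 57654) (nat_lit 152) (.e (nat_lit 2633) (nat_lit 164) (.e (nat_lit 179968) (nat_lit 34) .nil)))))) (.g (nat_lit 1) (.e (nat_lit 389883) (nat_lit 0) .nil) .nil))))) (.nd (nat_lit 8) (.nd (nat_lit 9) 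
(.lf (nat_lit 585969) (.g (nat_lit 2159) (.e (nat_lit 393253) (nat_lit 18) (.e (nat_lit 164326) (nat_lit 230) (.e (nat_lit 163868) (nat_lit 2) (.e (nat_lit 196631) (nat_lit 9) .nil)))) (.g (nat_lit 0) (.e (nat_lit 389109) (nat_lit 0) .nil) .nil))) 
(.lf (nat_lit 586481) (.g (nat_lit 2499) (.e (nat_lit 393266) (nat_lit 23) (.e (nat_lit 426437) (nat_lit 18) (.e (nat_lit 98334) (nat_lit 18) (.e (nat_lit 164329) (nat_lit 230) (.e (nat_lit 163902) (nat_lit 12) (.e (nat_lit 426568) (nat_lit 34) .nil)))))) (.g (nat_lit 1) (.e (nat_lit 389752) (nat_lit 0) .nil) .nil)))) (.nd (nat_lit 9) 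
(.lf (nat_lit 586225) (.g (nat_lit 1314) (.e (nat_lit 393254) (nat_lit 18) (.e (nat_lit 164325) (nat_lit 230) (.e (nat_lit 163871) (nat_lit 2) (.e (nat_lit 196624) (nat_lit 9) (.e (nat_lit 7936) (nat_lit 34) (.e (nat_lit 450304) (nat_lit 18) .nil)))))) (.g (nat_lit 1) (.e (nat_lit 389390) (nat_lit 0) .nil) .nil))) 
(.lf (nat_lit 586737) (.g (nat_lit 2660) (.e (nat_lit 393281) (nat_lit 23) (.e (nat_lit 426098) (nat_lit 1) (.e (nat_lit 164325) (nat_lit 230) (.e (nat_lit 163881) (nat_lit 4) (.e (nat_lit 213030) (nat_lit 11) (.e (nat_lit 24658) (nat_lit 13) .nil)))))) (.g (nat_lit 1) (.e (nat_lit 390044) (nat_lit 0) .nil) .nil))))))))) 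
(.nd (nat_lit 4) (.nd (nat_lit 5) (.nd (nat_lit 6) (.nd (nat_lit 7) (.nd (nat_lit 8) 
(.nd (nat_lit 9) 
(.lf (nat_lit 585737) (.g (nat_lit 2262) (.e (nat_lit 393251) (nat_lit 18) (.e (nat_lit 164332) (nat_lit 230) (.e (nat_lit 163869) (nat_lit 2) (.e (nat_lit 196624) (nat_lit 9) (.e (nat_lit 7936) (nat_lit 34) (.e (nat_lit 450304) (nat_lit 18) .nil)))))) (.g (nat_lit 1) (.e (nat_lit 388830) (nat_lit 0) .nil) .nil))) 
(.lf (nat_lit 586249) (.g (nat_lit 1674) (.e (nat_lit 393254) (nat_lit 18) (.e (nat_lit 164326) (nat_lit 230) (.e (nat_lit 163868) (nat_lit 2) (.e (nat_lit 196623) (nat_lit 9) (.e (nat_lit 455) (nat_lit 34) (.e (nat_lit 450304) (nat_lit 18) .nil)))))) (.g (nat_lit 1) (.e (nat_lit 389414) (nat_lit 0) .nil) .nil)))) (.nd (nat_lit 9) 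
(.lf (nat_lit 585993) (.g (nat_lit 1684) (.e (nat_lit 393253) (nat_lit 18) (.e (nat_lit 164326) (nat_lit 230) (.e (nat_lit 163870) (nat_lit 2) (.e (nat_lit 196640) (nat_lit 9) .nil)))) (.g (nat_lit 0) (.e (nat_lit 389134) (nat_lit 0) .nil) .nil))) 
(.lf (nat_lit 586505) (.g (nat_lit 3152) (.e (nat_lit 393268) (nat_lit 23) (.e (nat_lit 426436) (nat_lit 18) (.e (nat_lit 98335) (nat_lit 18) (.e (nat_lit 164332) (nat_lit 230) (.e (nat_lit 163904) (nat_lit 12) (.e (nat_lit 426566) (nat_lit 34) .nil)))))) (.g (nat_lit 1) (.e (nat_lit 389776) (nat_lit 0) .nil) .nil))))) (.nd (nat_lit 8) (.nd (nat_lit 9) 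
(.lf (nat_lit 585865) (.g (nat_lit 2875) (.e (nat_lit 393252) (nat_lit 18) (.e (nat_lit 164403) (nat_lit 256) (.e (nat_lit 57378) (nat_lit 3) (.e (nat_lit 98363) (nat_lit 26) (.e (nat_lit 426230) (nat_lit 9) (.e (nat_lit 426565) (nat_lit 34) .nil)))))) (.g (nat_lit 1) (.e (nat_lit 388991) (nat_lit 0) .nil) .nil))) 
(.lf (nat_lit 586377) (.g (nat_lit 811) (.e (nat_lit 393254) (nat_lit 18) (.e (nat_lit 164332) (nat_lit 230) (.e (nat_lit 163843) (nat_lit 0) .nil))) (.g (nat_lit 0) (.e (nat_lit 389548) (nat_lit 0) .nil) .nil)))) (.nd (nat_lit 9) 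
(.lf (nat_lit 586121) (.g (nat_lit 2571) (.e (nat_lit 393253) (nat_lit 18) (.e (nat_lit 164331) (nat_lit 230) (.e (nat_lit 163869) (nat_lit 2) (.e (nat_lit 196654) (nat_lit 11) (.e (nat_lit 16433) (nat_lit 9) .nil))))) (.g (nat_lit 0) (.e (nat_lit 389267) (nat_lit 0) .nil) .nil))) 
(.lf (nat_lit 586633) (.g (nat_lit 2322) (.e (nat_lit 393271) (nat_lit 23) (.e (nat_lit 426438) (nat_lit 18) (.e (nat_lit 98334) (nat_lit 18) (.e (nat_lit 164331) (nat_lit 230) (.e (nat_lit 163904) (nat_lit 12) (.e (nat_lit 426566) (nat_lit 34) .nil)))))) (.g (nat_lit 1) (.e (nat_lit 389909) (nat_lit 0) .nil) .nil)))))) (.nd (nat_lit 7) (.nd (nat_lit 8) (.nd (nat_lit 9) 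
(.lf (nat_lit 585801) (.g (nat_lit 1727) (.e (nat_lit 393252) (nat_lit 18) (.e (nat_lit 164332) (nat_lit 230) (.e (nat_lit 163867) (nat_lit 2) (.e (nat_lit 196624) (nat_lit 9) (.e (nat_lit 391) (nat_lit 32) .nil))))) (.g (nat_lit 0) (.e (nat_lit 388912) (nat_lit 0) .nil) .nil))) 
(.lf (nat_lit 586313) (.g (nat_lit 1605) (.e (nat_lit 393254) (nat_lit 18) (.e (nat_lit 164326) (nat_lit 230) (.e (nat_lit 163873) (nat_lit 3) (.e (nat_lit 204811) (nat_lit 9) (.e (nat_lit 426260) (nat_lit 9) (.e (nat_lit 426565) (nat_lit 34) .nil)))))) (.g (nat_lit 1) (.e (nat_lit 389479) (nat_lit 0) .nil) .nil)))) (.nd (nat_lit 9) 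
(.lf (nat_lit 586057) (.g (nat_lit 2768) (.e (nat_lit 393253) (nat_lit 18) (.e (nat_lit 164327) (nat_lit 230) (.e (nat_lit 163871) (nat_lit 2) (.e (nat_lit 196624) (nat_lit 9) (.e (nat_lit 433) (nat_lit 32) .nil))))) (.g (nat_lit 0) (.e (nat_lit 389201) (nat_lit 0) .nil) .nil))) 
(.lf (nat_lit 586569) (.g (nat_lit 3353) (.e (nat_lit 393270) (nat_lit 23) (.e (nat_lit 426436) (nat_lit 18) (.e (nat_lit 98335) (nat_lit 18) (.e (nat_lit 164332) (nat_lit 230) (.e (nat_lit 163905) (nat_lit 12) (.e (nat_lit 426566) (nat_lit 34) .nil)))))) (.g (nat_lit 1) (.e (nat_lit 389842) (nat_lit 0) .nil) .nil))))) (.nd (nat_lit 8) (.nd (nat_lit 9) 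
(.lf (nat_lit 585929) (.g (nat_lit 2609) (.e (nat_lit 393253) (nat_lit 18) (.e (nat_lit 164325) (nat_lit 230) (.e (nat_lit 163874) (nat_lit 3) (.e (nat_lit 204809) (nat_lit 9) (.e (nat_lit 426190) (nat_lit 9) .nil))))) (.g (nat_lit 0) (.e (nat_lit 389068) (nat_lit 0) .nil) .nil))) 
(.lf (nat_lit 586441) (.g (nat_lit 3571) (.e (nat_lit 393254) (nat_lit 18) (.e (nat_lit 164332) (nat_lit 230) (.e (nat_lit 163874) (nat_lit 3) (.e (nat_lit 204813) (nat_lit 9) (.e (nat_lit 426200) (nat_lit 9) (.e (nat_lit 426566) (nat_lit 34) .nil)))))) (.g (nat_lit 1) (.e (nat_lit 389622) (nat_lit 0) .nil) .nil)))) (.nd (nat_lit 9) 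
(.lf (nat_lit 586185) (.g (nat_lit 1842) (.e (nat_lit 393254) (nat_lit 18) (.e (nat_lit 164322) (nat_lit 230) (.e (nat_lit 163867) (nat_lit 2) (.e (nat_lit 196624) (nat_lit 9) (.e (nat_lit 7936) (nat_lit 34) (.e (nat_lit 450304) (nat_lit 18) .nil)))))) (.g (nat_lit 1) (.e (nat_lit 389347) (nat_lit 0) .nil) .nil))) 
(.lf (nat_lit 586697) (.g (nat_lit 2078) (.e (nat_lit 393273) (nat_lit 23) (.e (nat_lit 426437) (nat_lit 18) (.e (nat_lit 98335) (nat_lit 18) (.e (nat_lit 164327) (nat_lit 230) (.e (nat_lit 163907) (nat_lit 12) (.e (nat_lit 426566) (nat_lit 34) .nil)))))) (.g (nat_lit 1) (.e (nat_lit 389974) (nat_lit 0) .nil) .nil))))))) (.nd (nat_lit 6) (.nd (nat_lit 7) (.nd (nat_lit 8) (.nd (nat_lit 9) 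
(.lf (nat_lit 585769) (.g (nat_lit 1310) (.e (nat_lit 393252) (nat_lit 18) (.e (nat_lit 164182) (nat_lit 154) (.e (nat_lit 57411) (nat_lit 12) (.e (nat_lit 336316) (nat_lit 17) .nil)))) (.g (nat_lit 0) (.e (nat_lit 388878) (nat_lit 0) .nil) .nil))) 
(.lf (nat_lit 586281) (.g (nat_lit 1744) (.e (nat_lit 393254) (nat_lit 18) (.e (nat_lit 164326) (nat_lit 230) (.e (nat_lit 163870) (nat_lit 2) (.e (nat_lit 196630) (nat_lit 9) (.e (nat_lit 430) (nat_lit 32) .nil))))) (.g (nat_lit 0) (.e (nat_lit 389447) (nat_lit 0) .nil) .nil)))) (.nd (nat_lit 9) 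
(.lf (nat_lit 586025) (.g (nat_lit 3544) (.e (nat_lit 393253) (nat_lit 18) (.e (nat_lit 164326) (nat_lit 230) (.e (nat_lit 163873) (nat_lit 3) (.e (nat_lit 204813) (nat_lit 9) (.e (nat_lit 426200) (nat_lit 9) (.e (nat_lit 426566) (nat_lit 34) .nil)))))) (.g (nat_lit 1) (.e (nat_lit 389167) (nat_lit 0) .nil) .nil))) 
(.lf (nat_lit 586537) (.g (nat_lit 3817) (.e (nat_lit 393270) (nat_lit 23) (.e (nat_lit 426436) (nat_lit 18) (.e (nat_lit 98333) (nat_lit 18) (.e (nat_lit 164325) (nat_lit 230) (.e (nat_lit 163903) (nat_lit 12) (.e (nat_lit 426566) (nat_lit 34) .nil)))))) (.g (nat_lit 1) (.e (nat_lit 389810) (nat_lit 0) .nil) .nil))))) (.nd (nat_lit 8) (.nd (nat_lit 9) 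
(.lf (nat_lit 585897) (.g (nat_lit 1584) (.e (nat_lit 393253) (nat_lit 18) (.e (nat_lit 164325) (nat_lit 230) (.e (nat_lit 163867) (nat_lit 2) (.e (nat_lit 196652) (nat_lit 11) .nil)))) (.g (nat_lit 0) (.e (nat_lit 389036) (nat_lit 0) .nil) .nil))) 
(.lf (nat_lit 586409) (.g (nat_lit 3394) (.e (nat_lit 393254) (nat_lit 18) (.e (nat_lit 164332) (nat_lit 230) (.e (nat_lit 163869) (nat_lit 2) (.e (nat_lit 196627) (nat_lit 9) .nil)))) (.g (nat_lit 0) (.e (nat_lit 389590) (nat_lit 0) .nil) .nil)))) (.nd (nat_lit 9) 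
(.lf (nat_lit 586153) (.g (nat_lit 2782) (.e (nat_lit 393253) (nat_lit 18) (.e (nat_lit 164332) (nat_lit 230) (.e (nat_lit 163869) (nat_lit 2) (.e (nat_lit 196625) (nat_lit 9) (.e (nat_lit 396) (nat_lit 32) .nil))))) (.g (nat_lit 0) (.e (nat_lit 389299) (nat_lit 0) .nil) .nil))) 
(.lf (nat_lit 586665) (.g (nat_lit 2257) (.e (nat_lit 393272) (nat_lit 23) (.e (nat_lit 426438) (nat_lit 18) (.e (nat_lit 98334) (nat_lit 18) (.e (nat_lit 164330) (nat_lit 230) (.e (nat_lit 163905) (nat_lit 12) (.e (nat_lit 426566) (nat_lit 34) .nil)))))) (.g (nat_lit 1) (.e (nat_lit 389941) (nat_lit 0) .nil) .nil)))))) (.nd (nat_lit 7) (.nd (nat_lit 8) (.nd (nat_lit 9) 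
(.lf (nat_lit 585833) (.g (nat_lit 1950) (.e (nat_lit 393252) (nat_lit 18) (.e (nat_lit 164332) (nat_lit 230) (.e (nat_lit 163869) (nat_lit 2) (.e (nat_lit 196653) (nat_lit 11) (.e (nat_lit 16434) (nat_lit 9) .nil))))) (.g (nat_lit 0) (.e (nat_lit 388945) (nat_lit 0) .nil) .nil))) 
(.lf (nat_lit 586345) (.g (nat_lit 3510) (.e (nat_lit 393254) (nat_lit 18) (.e (nat_lit 164327) (nat_lit 230) (.e (nat_lit 163873) (nat_lit 3) (.e (nat_lit 204813) (nat_lit 9) (.e (nat_lit 426197) (nat_lit 9) .nil))))) (.g (nat_lit 0) (.e (nat_lit 389511) (nat_lit 0) .nil) .nil)))) (.nd (nat_lit 9) 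
(.lf (nat_lit 586089) (.g (nat_lit 1948) (.e (nat_lit 393253) (nat_lit 18) (.e (nat_lit 164329) (nat_lit 230) (.e (nat_lit 163867) (nat_lit 2) (.e (nat_lit 196624) (nat_lit 9) (.e (nat_lit 433) (nat_lit 32) .nil))))) (.g (nat_lit 0) (.e (nat_lit 389235) (nat_lit 0) .nil) .nil))) 
(.lf (nat_lit 586601) (.g (nat_lit 3883) (.e (nat_lit 393271) (nat_lit 23) (.e (nat_lit 426131) (nat_lit 3) (.e (nat_lit 204829) (nat_lit 18) (.e (nat_lit 57692) (nat_lit 156) (.e (nat_lit 163907) (nat_lit 12) (.e (nat_lit 426568) (nat_lit 34) .nil)))))) (.g (nat_lit 1) (.e (nat_lit 389875) (nat_lit 0) .nil) .nil))))) (.nd (nat_lit 8) (.nd (nat_lit 9) 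
(.lf (nat_lit 585961) (.g (nat_lit 2075) (.e (nat_lit 393253) (nat_lit 18) (.e (nat_lit 164326) (nat_lit 230) (.e (nat_lit 163868) (nat_lit 2) (.e (nat_lit 196626) (nat_lit 9) (.e (nat_lit 395) (nat_lit 32) (.e (nat_lit 426188) (nat_lit 9) (.e (nat_lit 426566) (nat_lit 34) .nil))))))) (.g (nat_lit 1) (.e (nat_lit 389101) (nat_lit 0) .nil) .nil))) 
(.lf (nat_lit 586473) (.g (nat_lit 2596) (.e (nat_lit 393266) (nat_lit 23) (.e (nat_lit 426109) (nat_lit 1) (.e (nat_lit 164347) (nat_lit 240) (.e (nat_lit 2638) (nat_lit 165) (.e (nat_lit 180278) (nat_lit 32) (.e (nat_lit 1658) (nat_lit 115) .nil)))))) (.g (nat_lit 1) (.e (nat_lit 389737) (nat_lit 0) .nil) .nil)))) (.nd (nat_lit 9) 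
(.lf (nat_lit 586217) (.g (nat_lit 1936) (.e (nat_lit 393254) (nat_lit 18) (.e (nat_lit 164325) (nat_lit 230) (.e (nat_lit 163868) (nat_lit 2) (.e (nat_lit 196624) (nat_lit 9) (.e (nat_lit 455) (nat_lit 34) (.e (nat_lit 450304) (nat_lit 18) .nil)))))) (.g (nat_lit 1) (.e (nat_lit 389382) (nat_lit 0) .nil) .nil))) 
(.lf (nat_lit 586729) (.g (nat_lit 1846) (.e (nat_lit 393280) (nat_lit 23) (.e (nat_lit 426107) (nat_lit 1) (.e (nat_lit 164345) (nat_lit 240) (.e (nat_lit 2638) (nat_lit 165) (.e (nat_lit 180278) (nat_lit 32) .nil))))) (.g (nat_lit 0) (.e (nat_lit 390033) (nat_lit 0) .nil) .nil)))))))) (.nd (nat_lit 5) (.nd (nat_lit 6) (.nd (nat_lit 7) (.nd (nat_lit 8) (.nd (nat_lit 9) 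
(.lf (nat_lit 585753) (.g (nat_lit 3738) (.e (nat_lit 393251) (nat_lit 18) (.e (nat_lit 164332) (nat_lit 230) (.e (nat_lit 163874) (nat_lit 3) (.e (nat_lit 204813) (nat_lit 9) (.e (nat_lit 426200) (nat_lit 9) (.e (nat_lit 426566) (nat_lit 34) .nil)))))) (.g (nat_lit 1) (.e (nat_lit 388846) (nat_lit 0) .nil) .nil))) 
(.lf (nat_lit 586265) (.g (nat_lit 2150) (.e (nat_lit 393254) (nat_lit 18) (.e (nat_lit 164326) (nat_lit 230) (.e (nat_lit 163868) (nat_lit 2) (.e (nat_lit 196633) (nat_lit 9) .nil)))) (.g (nat_lit 0) (.e (nat_lit 389430) (nat_lit 0) .nil) .nil)))) (.nd (nat_lit 9) 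
(.lf (nat_lit 586009) (.g (nat_lit 2587) (.e (nat_lit 393253) (nat_lit 18) (.e (nat_lit 164326) (nat_lit 230) (.e (nat_lit 163871) (nat_lit 2) (.e (nat_lit 196624) (nat_lit 9) (.e (nat_lit 455) (nat_lit 34) (.e (nat_lit 450304) (nat_lit 18) .nil)))))) (.g (nat_lit 1) (.e (nat_lit 389150) (nat_lit 0) .nil) .nil))) 
(.lf (nat_lit 586521) (.g (nat_lit 2904) (.e (nat_lit 393268) (nat_lit 23) (.e (nat_lit 426438) (nat_lit 18) (.e (nat_lit 98335) (nat_lit 18) (.e (nat_lit 164325) (nat_lit 230) (.e (nat_lit 163903) (nat_lit 12) (.e (nat_lit 426567) (nat_lit 34) .nil)))))) (.g (nat_lit 1) (.e (nat_lit 389792) (nat_lit 0) .nil) .nil))))) (.nd (nat_lit 8) (.nd (nat_lit 9) 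
(.lf (nat_lit 585881) (.g (nat_lit 3318) (.e (nat_lit 393253) (nat_lit 18) (.e (nat_lit 164324) (nat_lit 230) (.e (nat_lit 163869) (nat_lit 2) (.e (nat_lit 196654) (nat_lit 11) (.e (nat_lit 16433) (nat_lit 9) (.e (nat_lit 426568) (nat_lit 34) .nil)))))) (.g (nat_lit 1) (.e (nat_lit 389018) (nat_lit 0) .nil) .nil))) 
(.lf (nat_lit 586393) (.g (nat_lit 2670) (.e (nat_lit 393254) (nat_lit 18) (.e (nat_lit 164332) (nat_lit 230) (.e (nat_lit 163869) (nat_lit 2) (.e (nat_lit 196619) (nat_lit 9) (.e (nat_lit 457) (nat_lit 34) (.e (nat_lit 450304) (nat_lit 18) .nil)))))) (.g (nat_lit 1) (.e (nat_lit 389574) (nat_lit 0) .nil) .nil)))) (.nd (nat_lit 9) 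
(.lf (nat_lit 586137) (.g (nat_lit 2476) (.e (nat_lit 393253) (nat_lit 18) (.e (nat_lit 164332) (nat_lit 230) (.e (nat_lit 163869) (nat_lit 2) (.e (nat_lit 196620) (nat_lit 9) (.e (nat_lit 425) (nat_lit 32) .nil))))) (.g (nat_lit 0) (.e (nat_lit 389283) (nat_lit 0) .nil) .nil))) 
(.lf (nat_lit 586649) (.g (nat_lit 3222) (.e (nat_lit 393272) (nat_lit 23) (.e (nat_lit 426434) (nat_lit 18) (.e (nat_lit 98333) (nat_lit 18) (.e (nat_lit 164325) (nat_lit 230) (.e (nat_lit 163903) (nat_lit 12) (.e (nat_lit 426566) (nat_lit 34) .nil)))))) (.g (nat_lit 1) (.e (nat_lit 389925) (nat_lit 0) .nil) .nil)))))) (.nd (nat_lit 7) (.nd (nat_lit 8) (.nd (nat_lit 9) 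
(.lf (nat_lit 585817) (.g (nat_lit 2188) (.e (nat_lit 393252) (nat_lit 18) (.e (nat_lit 164332) (nat_lit 230) (.e (nat_lit 163869) (nat_lit 2) (.e (nat_lit 196624) (nat_lit 9) (.e (nat_lit 391) (nat_lit 32) .nil))))) (.g (nat_lit 0) (.e (nat_lit 388929) (nat_lit 0) .nil) .nil))) 
(.lf (nat_lit 586329) (.g (nat_lit 1140) (.e (nat_lit 393254) (nat_lit 18) (.e (nat_lit 164327) (nat_lit 230) (.e (nat_lit 163868) (nat_lit 2) (.e (nat_lit 196656) (nat_lit 11) .nil)))) (.g (nat_lit 0) (.e (nat_lit 389495) (nat_lit 0) .nil) .nil)))) (.nd (nat_lit 9) 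
(.lf (nat_lit 586073) (.g (nat_lit 1744) (.e (nat_lit 393253) (nat_lit 18) (.e (nat_lit 164327) (nat_lit 230) (.e (nat_lit 163873) (nat_lit 3) (.e (nat_lit 204811) (nat_lit 9) (.e (nat_lit 426262) (nat_lit 9) (.e (nat_lit 433920) (nat_lit 34) .nil)))))) (.g (nat_lit 1) (.e (nat_lit 389217) (nat_lit 0) .nil) .nil))) 
(.lf (nat_lit 586585) (.g (nat_lit 2659) (.e (nat_lit 393271) (nat_lit 23) (.e (nat_lit 426112) (nat_lit 1) (.e (nat_lit 164327) (nat_lit 230) (.e (nat_lit 163879) (nat_lit 4) (.e (nat_lit 213032) (nat_lit 11) (.e (nat_lit 24659) (nat_lit 13) .nil)))))) (.g (nat_lit 1) (.e (nat_lit 389858) (nat_lit 0) .nil) .nil))))) (.nd (nat_lit 8) (.nd (nat_lit 9) 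
(.lf (nat_lit 585945) (.g (nat_lit 2161) (.e (nat_lit 393253) (nat_lit 18) (.e (nat_lit 164326) (nat_lit 230) (.e (nat_lit 163868) (nat_lit 2) (.e (nat_lit 196617) (nat_lit 9) (.e (nat_lit 457) (nat_lit 34) (.e (nat_lit 450304) (nat_lit 18) .nil)))))) (.g (nat_lit 1) (.e (nat_lit 389085) (nat_lit 0) .nil) .nil))) 
(.lf (nat_lit 586457) (.g (nat_lit 898) (.e (nat_lit 393260) (nat_lit 21) (.e (nat_lit 409602) (nat_lit 0) (.e (nat_lit 59) (nat_lit 0) .nil))) (.g (nat_lit 0) (.e (nat_lit 389705) (nat_lit 0) .nil) .nil)))) (.nd (nat_lit 9) 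
(.lf (nat_lit 586201) (.g (nat_lit 2157) (.e (nat_lit 393254) (nat_lit 18) (.e (nat_lit 164324) (nat_lit 230) (.e (nat_lit 163868) (nat_lit 2) (.e (nat_lit 196624) (nat_lit 9) (.e (nat_lit 454) (nat_lit 34) (.e (nat_lit 450304) (nat_lit 18) .nil)))))) (.g (nat_lit 1) (.e (nat_lit 389363) (nat_lit 0) .nil) .nil))) 
(.lf (nat_lit 586713) (.g (nat_lit 2457) (.e (nat_lit 393277) (nat_lit 23) (.e (nat_lit 426412) (nat_lit 15) (.e (nat_lit 2059) (nat_lit 142) (.e (nat_lit 704596) (nat_lit 5) (.e (nat_lit 180277) (nat_lit 32) .nil))))) (.g (nat_lit 0) (.e (nat_lit 390012) (nat_lit 0) .nil) .nil))))))) (.nd (nat_lit 6) (.nd (nat_lit 7) (.nd (nat_lit 8) (.nd (nat_lit 9) 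
(.lf (nat_lit 585785) (.g (nat_lit 1872) (.e (nat_lit 393252) (nat_lit 18) (.e (nat_lit 164330) (nat_lit 230) (.e (nat_lit 163873) (nat_lit 3) (.e (nat_lit 204811) (nat_lit 9) (.e (nat_lit 426228) (nat_lit 9) (.e (nat_lit 426565) (nat_lit 34) .nil)))))) (.g (nat_lit 1) (.e (nat_lit 388896) (nat_lit 0) .nil) .nil))) 
(.lf (nat_lit 586297) (.g (nat_lit 2042) (.e (nat_lit 393254) (nat_lit 18) (.e (nat_lit 164326) (nat_lit 230) (.e (nat_lit 163871) (nat_lit 2) (.e (nat_lit 196624) (nat_lit 9) (.e (nat_lit 459) (nat_lit 34) (.e (nat_lit 450304) (nat_lit 18) .nil)))))) (.g (nat_lit 1) (.e (nat_lit 389463) (nat_lit 0) .nil) .nil)))) (.nd (nat_lit 9) 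
(.lf (nat_lit 586041) (.g (nat_lit 2999) (.e (nat_lit 393253) (nat_lit 18) (.e (nat_lit 164327) (nat_lit 230) (.e (nat_lit 163868) (nat_lit 2) (.e (nat_lit 196624) (nat_lit 9) (.e (nat_lit 457) (nat_lit 34) (.e (nat_lit 450304) (nat_lit 18) .nil)))))) (.g (nat_lit 1) (.e (nat_lit 389185) (nat_lit 0) .nil) .nil))) 
(.lf (nat_lit 586553) (.g (nat_lit 3123) (.e (nat_lit 393270) (nat_lit 23) (.e (nat_lit 426436) (nat_lit 18) (.e (nat_lit 98334) (nat_lit 18) (.e (nat_lit 164332) (nat_lit 230) (.e (nat_lit 163905) (nat_lit 12) (.e (nat_lit 426566) (nat_lit 34) .nil)))))) (.g (nat_lit 1) (.e (nat_lit 389826) (nat_lit 0) .nil) .nil))))) (.nd (nat_lit 8) (.nd (nat_lit 9) 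
(.lf (nat_lit 585913) (.g (nat_lit 2845) (.e (nat_lit 393253) (nat_lit 18) (.e (nat_lit 164325) (nat_lit 230) (.e (nat_lit 163869) (nat_lit 2) (.e (nat_lit 196656) (nat_lit 11) (.e (nat_lit 16437) (nat_lit 9) .nil))))) (.g (nat_lit 0) (.e (nat_lit 389052) (nat_lit 0) .nil) .nil))) 
(.lf (nat_lit 586425) (.g (nat_lit 3549) (.e (nat_lit 393254) (nat_lit 18) (.e (nat_lit 164332) (nat_lit 230) (.e (nat_lit 163869) (nat_lit 2) (.e (nat_lit 196641) (nat_lit 9) .nil)))) (.g (nat_lit 0) (.e (nat_lit 389606) (nat_lit 0) .nil) .nil)))) (.nd (nat_lit 9) 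
(.lf (nat_lit 586169) (.g (nat_lit 1215) (.e (nat_lit 393253) (nat_lit 18) (.e (nat_lit 164332) (nat_lit 230) (.e (nat_lit 163874) (nat_lit 3) (.e (nat_lit 212736) (nat_lit 9) .nil)))) (.g (nat_lit 0) (.e (nat_lit 389315) (nat_lit 0) .nil) .nil))) 
(.lf (nat_lit 586681) (.g (nat_lit 3657) (.e (nat_lit 393273) (nat_lit 23) (.e (nat_lit 426436) (nat_lit 18) (.e (nat_lit 98333) (nat_lit 18) (.e (nat_lit 164325) (nat_lit 230) (.e (nat_lit 163907) (nat_lit 12) (.e (nat_lit 426566) (nat_lit 34) .nil)))))) (.g (nat_lit 1) (.e (nat_lit 389958) (nat_lit 0) .nil) .nil)))))) (.nd (nat_lit 7) (.nd (nat_lit 8) (.nd (nat_lit 9) 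
(.lf (nat_lit 585849) (.g (nat_lit 1556) (.e (nat_lit 393252) (nat_lit 18) (.e (nat_lit 164396) (nat_lit 256) (.e (nat_lit 57379) (nat_lit 3) (.e (nat_lit 98365) (nat_lit 26) (.e (nat_lit 426188) (nat_lit 9) .nil))))) (.g (nat_lit 0) (.e (nat_lit 388961) (nat_lit 0) .nil) .nil))) 
(.lf (nat_lit 586361) (.g (nat_lit 1589) (.e (nat_lit 393254) (nat_lit 18) (.e (nat_lit 164329) (nat_lit 230) (.e (nat_lit 163873) (nat_lit 3) (.e (nat_lit 204811) (nat_lit 9) (.e (nat_lit 426230) (nat_lit 9) (.e (nat_lit 426565) (nat_lit 34) .nil)))))) (.g (nat_lit 1) (.e (nat_lit 389529) (nat_lit 0) .nil) .nil)))) (.nd (nat_lit 9) 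
(.lf (nat_lit 586105) (.g (nat_lit 3630) (.e (nat_lit 393253) (nat_lit 18) (.e (nat_lit 164329) (nat_lit 230) (.e (nat_lit 163873) (nat_lit 3) (.e (nat_lit 204813) (nat_lit 9) (.e (nat_lit 426200) (nat_lit 9) (.e (nat_lit 426566) (nat_lit 34) .nil)))))) (.g (nat_lit 1) (.e (nat_lit 389251) (nat_lit 0) .nil) .nil))) 
(.lf (nat_lit 586617) (.g (nat_lit 3999) (.e (nat_lit 393271) (nat_lit 23) (.e (nat_lit 426436) (nat_lit 18) (.e (nat_lit 98333) (nat_lit 18) (.e (nat_lit 164331) (nat_lit 230) (.e (nat_lit 163902) (nat_lit 12) (.e (nat_lit 426566) (nat_lit 34) .nil)))))) (.g (nat_lit 1) (.e (nat_lit 389893) (nat_lit 0) .nil) .nil))))) (.nd (nat_lit 8) (.nd (nat_lit 9) 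
(.lf (nat_lit 585977) (.g (nat_lit 2960) (.e (nat_lit 393253) (nat_lit 18) (.e (nat_lit 164326) (nat_lit 230) (.e (nat_lit 163868) (nat_lit 2) (.e (nat_lit 196652) (nat_lit 11) (.e (nat_lit 16433) (nat_lit 9) (.e (nat_lit 426566) (nat_lit 34) .nil)))))) (.g (nat_lit 1) (.e (nat_lit 389118) (nat_lit 0) .nil) .nil))) 
(.lf (nat_lit 586489) (.g (nat_lit 2233) (.e (nat_lit 393268) (nat_lit 23) (.e (nat_lit 426436) (nat_lit 18) (.e (nat_lit 98333) (nat_lit 18) (.e (nat_lit 164329) (nat_lit 230) (.e (nat_lit 163904) (nat_lit 12) (.e (nat_lit 426566) (nat_lit 34) .nil)))))) (.g (nat_lit 1) (.e (nat_lit 389760) (nat_lit 0) .nil) .nil)))) (.nd (nat_lit 9) 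
(.lf (nat_lit 586233) (.g (nat_lit 2495) (.e (nat_lit 393254) (nat_lit 18) (.e (nat_lit 164325) (nat_lit 230) (.e (nat_lit 163874) (nat_lit 3) (.e (nat_lit 204809) (nat_lit 9) (.e (nat_lit 426188) (nat_lit 9) .nil))))) (.g (nat_lit 0) (.e (nat_lit 389398) (nat_lit 0) .nil) .nil))) 
(.lf (nat_lit 586745) (.g (nat_lit 3023) (.e (nat_lit 393281) (nat_lit 23) (.e (nat_lit 426098) (nat_lit 1) (.e (nat_lit 164327) (nat_lit 230) (.e (nat_lit 163879) (nat_lit 4) (.e (nat_lit 213032) (nat_lit 11) (.e (nat_lit 24658) (nat_lit 13) .nil)))))) (.g (nat_lit 1) (.e (nat_lit 390052) (nat_lit 0) .nil) .nil)))))))))) 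
(.nd (nat_lit 3) (.nd (nat_lit 4) (.nd (nat_lit 5) (.nd (nat_lit 6) (.nd (nat_lit 7) 
(.nd (nat_lit 8) (.nd (nat_lit 9) 
(.lf (nat_lit 585733) (.g (nat_lit 2681) (.e (nat_lit 393251) (nat_lit 18) (.e (nat_lit 164332) (nat_lit 230) (.e (nat_lit 163869) (nat_lit 2) (.e (nat_lit 196624) (nat_lit 9) (.e (nat_lit 454) (nat_lit 34) (.e (nat_lit 450304) (nat_lit 18) .nil)))))) (.g (nat_lit 1) (.e (nat_lit 388826) (nat_lit 0) .nil) .nil))) 
(.lf (nat_lit 586245) (.g (nat_lit 2040) (.e (nat_lit 393254) (nat_lit 18) (.e (nat_lit 164326) (nat_lit 230) (.e (nat_lit 163868) (nat_lit 2) (.e (nat_lit 196620) (nat_lit 9) .nil)))) (.g (nat_lit 0) (.e (nat_lit 389410) (nat_lit 0) .nil) .nil)))) (.nd (nat_lit 9) 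
(.lf (nat_lit 585989) (.g (nat_lit 2110) (.e (nat_lit 393253) (nat_lit 18) (.e (nat_lit 164326) (nat_lit 230) (.e (nat_lit 163870) (nat_lit 2) (.e (nat_lit 196630) (nat_lit 9) (.e (nat_lit 392) (nat_lit 32) (.e (nat_lit 426188) (nat_lit 9) (.e (nat_lit 426566) (nat_lit 34) .nil))))))) (.g (nat_lit 1) (.e (nat_lit 389130) (nat_lit 0) .nil) .nil))) 
(.lf (nat_lit 586501) (.g (nat_lit 3233) (.e (nat_lit 393268) (nat_lit 23) (.e (nat_lit 426436) (nat_lit 18) (.e (nat_lit 98335) (nat_lit 18) (.e (nat_lit 164324) (nat_lit 230) (.e (nat_lit 163904) (nat_lit 12) (.e (nat_lit 426566) (nat_lit 34) .nil)))))) (.g (nat_lit 1) (.e (nat_lit 389772) (nat_lit 0) .nil) .nil))))) (.nd (nat_lit 8) (.nd (nat_lit 9) 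
(.lf (nat_lit 585861) (.g (nat_lit 3674) (.e (nat_lit 393252) (nat_lit 18) (.e (nat_lit 164399) (nat_lit 256) (.e (nat_lit 57378) (nat_lit 3) (.e (nat_lit 98365) (nat_lit 26) (.e (nat_lit 426188) (nat_lit 9) (.e (nat_lit 426568) (nat_lit 34) .nil)))))) (.g (nat_lit 1) (.e (nat_lit 388986) (nat_lit 0) .nil) .nil))) 
(.lf (nat_lit 586373) (.g (nat_lit 2061) (.e (nat_lit 393254) (nat_lit 18) (.e (nat_lit 164331) (nat_lit 230) (.e (nat_lit 163873) (nat_lit 3) (.e (nat_lit 204811) (nat_lit 9) (.e (nat_lit 426234) (nat_lit 9) (.e (nat_lit 426565) (nat_lit 34) .nil)))))) (.g (nat_lit 1) (.e (nat_lit 389541) (nat_lit 0) .nil) .nil)))) (.nd (nat_lit 9) 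
(.lf (nat_lit 586117) (.g (nat_lit 3761) (.e (nat_lit 393253) (nat_lit 18) (.e (nat_lit 164330) (nat_lit 230) (.e (nat_lit 163873) (nat_lit 3) (.e (nat_lit 204813) (nat_lit 9) (.e (nat_lit 426196) (nat_lit 9) .nil))))) (.g (nat_lit 0) (.e (nat_lit 389263) (nat_lit 0) .nil) .nil))) 
(.lf (nat_lit 586629) (.g (nat_lit 2865) (.e (nat_lit 393271) (nat_lit 23) (.e (nat_lit 426436) (nat_lit 18) (.e (nat_lit 98335) (nat_lit 18) (.e (nat_lit 164332) (nat_lit 230) (.e (nat_lit 163905) (nat_lit 12) (.e (nat_lit 426567) (nat_lit 34) .nil)))))) (.g (nat_lit 1) (.e (nat_lit 389905) (nat_lit 0) .nil) .nil)))))) (.nd (nat_lit 7) (.nd (nat_lit 8) (.nd (nat_lit 9) 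
(.lf (nat_lit 585797) (.g (nat_lit 3361) (.e (nat_lit 393252) (nat_lit 18) (.e (nat_lit 164331) (nat_lit 230) (.e (nat_lit 163873) (nat_lit 3) (.e (nat_lit 204813) (nat_lit 9) (.e (nat_lit 426197) (nat_lit 9) .nil))))) (.g (nat_lit 0) (.e (nat_lit 388908) (nat_lit 0) .nil) .nil))) 
(.lf (nat_lit 586309) (.g (nat_lit 774) (.e (nat_lit 393254) (nat_lit 18) (.e (nat_lit 164326) (nat_lit 230) (.e (nat_lit 163873) (nat_lit 3) (.e (nat_lit 204811) (nat_lit 9) .nil)))) (.g (nat_lit 0) (.e (nat_lit 389475) (nat_lit 0) .nil) .nil)))) (.nd (nat_lit 9) 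
(.lf (nat_lit 586053) (.g (nat_lit 2627) (.e (nat_lit 393253) (nat_lit 18) (.e (nat_lit 164327) (nat_lit 230) (.e (nat_lit 163870) (nat_lit 2) (.e (nat_lit 196630) (nat_lit 9) (.e (nat_lit 396) (nat_lit 32) .nil))))) (.g (nat_lit 0) (.e (nat_lit 389197) (nat_lit 0) .nil) .nil))) 
(.lf (nat_lit 586565) (.g (nat_lit 4001) (.e (nat_lit 393270) (nat_lit 23) (.e (nat_lit 426436) (nat_lit 18) (.e (nat_lit 98335) (nat_lit 18) (.e (nat_lit 164330) (nat_lit 230) (.e (nat_lit 163902) (nat_lit 12) (.e (nat_lit 426566) (nat_lit 34) .nil)))))) (.g (nat_lit 1) (.e (nat_lit 389838) (nat_lit 0) .nil) .nil))))) (.nd (nat_lit 8) (.nd (nat_lit 9) 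
(.lf (nat_lit 585925) (.g (nat_lit 3729) (.e (nat_lit 393253) (nat_lit 18) (.e (nat_lit 164325) (nat_lit 230) (.e (nat_lit 163873) (nat_lit 3) (.e (nat_lit 204813) (nat_lit 9) (.e (nat_lit 426190) (nat_lit 9) (.e (nat_lit 426566) (nat_lit 34) .nil)))))) (.g (nat_lit 1) (.e (nat_lit 389064) (nat_lit 0) .nil) .nil))) 
(.lf (nat_lit 586437) (.g (nat_lit 1578) (.e (nat_lit 393254) (nat_lit 18) (.e (nat_lit 164332) (nat_lit 230) (.e (nat_lit 163874) (nat_lit 3) (.e (nat_lit 204811) (nat_lit 9) (.e (nat_lit 426261) (nat_lit 9) (.e (nat_lit 433920) (nat_lit 34) .nil)))))) (.g (nat_lit 1) (.e (nat_lit 389618) (nat_lit 0) .nil) .nil)))) (.nd (nat_lit 9) 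
(.lf (nat_lit 586181) (.g (nat_lit 2161) (.e (nat_lit 393254) (nat_lit 18) (.e (nat_lit 164322) (nat_lit 230) (.e (nat_lit 163867) (nat_lit 2) (.e (nat_lit 196624) (nat_lit 9) (.e (nat_lit 433) (nat_lit 32) (.e (nat_lit 426228) (nat_lit 9) (.e (nat_lit 426565) (nat_lit 34) .nil))))))) (.g (nat_lit 1) (.e (nat_lit 389343) (nat_lit 0) .nil) .nil))) 
(.lf (nat_lit 586693) (.g (nat_lit 3933) (.e (nat_lit 393273) (nat_lit 23) (.e (nat_lit 426436) (nat_lit 18) (.e (nat_lit 98335) (nat_lit 18) (.e (nat_lit 164330) (nat_lit 230) (.e (nat_lit 163905) (nat_lit 12) (.e (nat_lit 426566) (nat_lit 34) .nil)))))) (.g (nat_lit 1) (.e (nat_lit 389970) (nat_lit 0) .nil) .nil))))))) (.nd (nat_lit 6) (.nd (nat_lit 7) (.nd (nat_lit 8) (.nd (nat_lit 9) 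
(.lf (nat_lit 585765) (.g (nat_lit 2561) (.e (nat_lit 393251) (nat_lit 18) (.e (nat_lit 164399) (nat_lit 256) (.e (nat_lit 57379) (nat_lit 3) (.e (nat_lit 98365) (nat_lit 26) (.e (nat_lit 426188) (nat_lit 9) (.e (nat_lit 426564) (nat_lit 34) .nil)))))) (.g (nat_lit 1) (.e (nat_lit 388868) (nat_lit 0) .nil) .nil))) 
(.lf (nat_lit 586277) (.g (nat_lit 1918) (.e (nat_lit 393254) (nat_lit 18) (.e (nat_lit 164326) (nat_lit 230) (.e (nat_lit 163870) (nat_lit 2) (.e (nat_lit 196628) (nat_lit 9) (.e (nat_lit 397) (nat_lit 32) .nil))))) (.g (nat_lit 0) (.e (nat_lit 389443) (nat_lit 0) .nil) .nil)))) (.nd (nat_lit 9) 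
(.lf (nat_lit 586021) (.g (nat_lit 3157) (.e (nat_lit 393253) (nat_lit 18) (.e (nat_lit 164326) (nat_lit 230) (.e (nat_lit 163871) (nat_lit 2) (.e (nat_lit 196656) (nat_lit 11) (.e (nat_lit 16437) (nat_lit 9) .nil))))) (.g (nat_lit 0) (.e (nat_lit 389163) (nat_lit 0) .nil) .nil))) 
(.lf (nat_lit 586533) (.g (nat_lit 3173) (.e (nat_lit 393269) (nat_lit 23) (.e (nat_lit 426436) (nat_lit 18) (.e (nat_lit 98335) (nat_lit 18) (.e (nat_lit 164332) (nat_lit 230) (.e (nat_lit 163902) (nat_lit 12) (.e (nat_lit 426567) (nat_lit 34) .nil)))))) (.g (nat_lit 1) (.e (nat_lit 389805) (nat_lit 0) .nil) .nil))))) (.nd (nat_lit 8) (.nd (nat_lit 9) 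
(.lf (nat_lit 585893) (.g (nat_lit 1761) (.e (nat_lit 393253) (nat_lit 18) (.e (nat_lit 164324) (nat_lit 230) (.e (nat_lit 163874) (nat_lit 3) (.e (nat_lit 204811) (nat_lit 9) .nil)))) (.g (nat_lit 0) (.e (nat_lit 389030) (nat_lit 0) .nil) .nil))) 
(.lf (nat_lit 586405) (.g (nat_lit 2494) (.e (nat_lit 393254) (nat_lit 18) (.e (nat_lit 164332) (nat_lit 230) (.e (nat_lit 163869) (nat_lit 2) (.e (nat_lit 196624) (nat_lit 9) (.e (nat_lit 479) (nat_lit 37) (.e (nat_lit 474880) (nat_lit 18) .nil)))))) (.g (nat_lit 1) (.e (nat_lit 389586) (nat_lit 0) .nil) .nil)))) (.nd (nat_lit 9) 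
(.lf (nat_lit 586149) (.g (nat_lit 2697) (.e (nat_lit 393253) (nat_lit 18) (.e (nat_lit 164332) (nat_lit 230) (.e (nat_lit 163869) (nat_lit 2) (.e (nat_lit 196624) (nat_lit 9) (.e (nat_lit 459) (nat_lit 34) (.e (nat_lit 450304) (nat_lit 18) .nil)))))) (.g (nat_lit 1) (.e (nat_lit 389295) (nat_lit 0) .nil) .nil))) 
(.lf (nat_lit 586661) (.g (nat_lit 1829) (.e (nat_lit 393272) (nat_lit 23) (.e (nat_lit 426436) (nat_lit 18) (.e (nat_lit 98335) (nat_lit 18) (.e (nat_lit 164305) (nat_lit 226) (.e (nat_lit 2439) (nat_lit 157) .nil))))) (.g (nat_lit 0) (.e (nat_lit 389937) (nat_lit 0) .nil) .nil)))))) (.nd (nat_lit 7) (.nd (nat_lit 8) (.nd (nat_lit 9) 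
(.lf (nat_lit 585829) (.g (nat_lit 2202) (.e (nat_lit 393252) (nat_lit 18) (.e (nat_lit 164332) (nat_lit 230) (.e (nat_lit 163869) (nat_lit 2) (.e (nat_lit 196627) (nat_lit 9) .nil)))) (.g (nat_lit 0) (.e (nat_lit 388941) (nat_lit 0) .nil) .nil))) 
(.lf (nat_lit 586341) (.g (nat_lit 2186) (.e (nat_lit 393254) (nat_lit 18) (.e (nat_lit 164327) (nat_lit 230) (.e (nat_lit 163873) (nat_lit 3) (.e (nat_lit 204811) (nat_lit 9) (.e (nat_lit 426234) (nat_lit 9) (.e (nat_lit 426565) (nat_lit 34) .nil)))))) (.g (nat_lit 1) (.e (nat_lit 389507) (nat_lit 0) .nil) .nil)))) (.nd (nat_lit 9) 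
(.lf (nat_lit 586085) (.g (nat_lit 1760) (.e (nat_lit 393253) (nat_lit 18) (.e (nat_lit 164327) (nat_lit 230) (.e (nat_lit 163875) (nat_lit 3) (.e (nat_lit 204811) (nat_lit 9) (.e (nat_lit 426260) (nat_lit 9) (.e (nat_lit 433920) (nat_lit 34) .nil)))))) (.g (nat_lit 1) (.e (nat_lit 389229) (nat_lit 0) .nil) .nil))) 
(.lf (nat_lit 586597) (.g (nat_lit 3397) (.e (nat_lit 393271) (nat_lit 23) (.e (nat_lit 426131) (nat_lit 3) (.e (nat_lit 204829) (nat_lit 18) (.e (nat_lit 57667) (nat_lit 152) (.e (nat_lit 2619) (nat_lit 164) (.e (nat_lit 179968) (nat_lit 34) .nil)))))) (.g (nat_lit 1) (.e (nat_lit 389871) (nat_lit 0) .nil) .nil))))) (.nd (nat_lit 8) (.nd (nat_lit 9) 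
(.lf (nat_lit 585957) (.g (nat_lit 2192) (.e (nat_lit 393253) (nat_lit 18) (.e (nat_lit 164326) (nat_lit 230) (.e (nat_lit 163868) (nat_lit 2) (.e (nat_lit 196624) (nat_lit 9) (.e (nat_lit 479) (nat_lit 37) (.e (nat_lit 474880) (nat_lit 18) .nil)))))) (.g (nat_lit 1) (.e (nat_lit 389097) (nat_lit 0) .nil) .nil))) 
(.lf (nat_lit 586469) (.g (nat_lit 2378) (.e (nat_lit 393266) (nat_lit 23) (.e (nat_lit 426109) (nat_lit 1) (.e (nat_lit 164345) (nat_lit 240) (.e (nat_lit 2638) (nat_lit 165) (.e (nat_lit 180278) (nat_lit 32) (.e (nat_lit 1658) (nat_lit 115) .nil)))))) (.g (nat_lit 1) (.e (nat_lit 389732) (nat_lit 0) .nil) .nil)))) (.nd (nat_lit 9) 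
(.lf (nat_lit 586213) (.g (nat_lit 1776) (.e (nat_lit 393254) (nat_lit 18) (.e (nat_lit 164324) (nat_lit 230) (.e (nat_lit 163874) (nat_lit 3) (.e (nat_lit 204811) (nat_lit 9) .nil)))) (.g (nat_lit 0) (.e (nat_lit 389375) (nat_lit 0) .nil) .nil))) 
(.lf (nat_lit 586725) (.g (nat_lit 3633) (.e (nat_lit 393279) (nat_lit 23) (.e (nat_lit 426129) (nat_lit 3) (.e (nat_lit 204829) (nat_lit 18) (.e (nat_lit 57688) (nat_lit 156) (.e (nat_lit 163907) (nat_lit 12) (.e (nat_lit 426568) (nat_lit 34) .nil)))))) (.g (nat_lit 1) (.e (nat_lit 390027) (nat_lit 0) .nil) .nil)))))))) 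
(.nd (nat_lit 5) (.nd (nat_lit 6) (.nd (nat_lit 7) (.nd (nat_lit 8) (.nd (nat_lit 9) 
(.lf (nat_lit 585749) (.g (nat_lit 1820) (.e (nat_lit 393251) (nat_lit 18) (.e (nat_lit 164332) (nat_lit 230) (.e (nat_lit 163874) (nat_lit 3) (.e (nat_lit 204811) (nat_lit 9) (.e (nat_lit 426261) (nat_lit 9) (.e (nat_lit 433920) (nat_lit 34) .nil)))))) (.g (nat_lit 1) (.e (nat_lit 388842) (nat_lit 0) .nil) .nil))) 
(.lf (nat_lit 586261) (.g (nat_lit 912) (.e (nat_lit 393254) (nat_lit 18) (.e (nat_lit 164326) (nat_lit 230) (.e (nat_lit 163868) (nat_lit 2) (.e (nat_lit 196628) (nat_lit 9) .nil)))) (.g (nat_lit 0) (.e (nat_lit 389426) (nat_lit 0) .nil) .nil)))) (.nd (nat_lit 9) 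
(.lf (nat_lit 586005) (.g (nat_lit 1914) (.e (nat_lit 393253) (nat_lit 18) (.e (nat_lit 164326) (nat_lit 230) (.e (nat_lit 163871) (nat_lit 2) (.e (nat_lit 196623) (nat_lit 9) (.e (nat_lit 455) (nat_lit 34) (.e (nat_lit 450304) (nat_lit 18) .nil)))))) (.g (nat_lit 1) (.e (nat_lit 389146) (nat_lit 0) .nil) .nil))) 
(.lf (nat_lit 586517) (.g (nat_lit 2224) (.e (nat_lit 393268) (nat_lit 23) (.e (nat_lit 426438) (nat_lit 18) (.e (nat_lit 98335) (nat_lit 18) (.e (nat_lit 164305) (nat_lit 226) (.e (nat_lit 2439) (nat_lit 157) (.e (nat_lit 2900) (nat_lit 184) (.e (nat_lit 426565) (nat_lit 34) .nil))))))) (.g (nat_lit 1) (.e (nat_lit 389788) (nat_lit 0) .nil) .nil))))) (.nd (nat_lit 8) (.nd (nat_lit 9) 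
(.lf (nat_lit 585877) (.g (nat_lit 2462) (.e (nat_lit 393253) (nat_lit 18) (.e (nat_lit 164324) (nat_lit 230) (.e (nat_lit 163868) (nat_lit 2) (.e (nat_lit 196624) (nat_lit 9) (.e (nat_lit 457) (nat_lit 34) (.e (nat_lit 450304) (nat_lit 18) .nil)))))) (.g (nat_lit 1) (.e (nat_lit 389014) (nat_lit 0) .nil) .nil))) 
(.lf (nat_lit 586389) (.g (nat_lit 3267) (.e (nat_lit 393254) (nat_lit 18) (.e (nat_lit 164332) (nat_lit 230) (.e (nat_lit 163867) (nat_lit 2) (.e (nat_lit 196656) (nat_lit 11) (.e (nat_lit 16433) (nat_lit 9) (.e (nat_lit 426566) (nat_lit 34) .nil)))))) (.g (nat_lit 1) (.e (nat_lit 389570) (nat_lit 0) .nil) .nil)))) (.nd (nat_lit 9) 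
(.lf (nat_lit 586133) (.g (nat_lit 2464) (.e (nat_lit 393253) (nat_lit 18) (.e (nat_lit 164332) (nat_lit 230) (.e (nat_lit 163867) (nat_lit 2) (.e (nat_lit 196624) (nat_lit 9) (.e (nat_lit 479) (nat_lit 37) (.e (nat_lit 474880) (nat_lit 18) .nil)))))) (.g (nat_lit 1) (.e (nat_lit 389279) (nat_lit 0) .nil) .nil))) 
(.lf (nat_lit 586645) (.g (nat_lit 3527) (.e (nat_lit 393272) (nat_lit 23) (.e (nat_lit 426131) (nat_lit 3) (.e (nat_lit 204830) (nat_lit 18) (.e (nat_lit 57691) (nat_lit 156) (.e (nat_lit 163907) (nat_lit 12) (.e (nat_lit 426566) (nat_lit 34) .nil)))))) (.g (nat_lit 1) (.e (nat_lit 389921) (nat_lit 0) .nil) .nil)))))) (.nd (nat_lit 7) (.nd (nat_lit 8) (.nd (nat_lit 9) 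
(.lf (nat_lit 585813) (.g (nat_lit 2263) (.e (nat_lit 393252) (nat_lit 18) (.e (nat_lit 164332) (nat_lit 230) (.e (nat_lit 163869) (nat_lit 2) (.e (nat_lit 196622) (nat_lit 9) (.e (nat_lit 478) (nat_lit 37) (.e (nat_lit 474880) (nat_lit 18) .nil)))))) (.g (nat_lit 1) (.e (nat_lit 388925) (nat_lit 0) .nil) .nil))) 
(.lf (nat_lit 586325) (.g (nat_lit 2400) (.e (nat_lit 393254) (nat_lit 18) (.e (nat_lit 164327) (nat_lit 230) (.e (nat_lit 163868) (nat_lit 2) (.e (nat_lit 196624) (nat_lit 9) (.e (nat_lit 457) (nat_lit 34) (.e (nat_lit 450304) (nat_lit 18) .nil)))))) (.g (nat_lit 1) (.e (nat_lit 389491) (nat_lit 0) .nil) .nil)))) (.nd (nat_lit 9) 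
(.lf (nat_lit 586069) (.g (nat_lit 425) (.e (nat_lit 393253) (nat_lit 18) (.e (nat_lit 164327) (nat_lit 230) (.e (nat_lit 163873) (nat_lit 3) .nil))) (.g (nat_lit 0) (.e (nat_lit 389213) (nat_lit 0) .nil) .nil))) 
(.lf (nat_lit 586581) (.g (nat_lit 1625) (.e (nat_lit 393270) (nat_lit 23) (.e (nat_lit 426448) (nat_lit 20) (.e (nat_lit 122624) (nat_lit 4) (.e (nat_lit 213032) (nat_lit 11) (.e (nat_lit 24659) (nat_lit 13) .nil))))) (.g (nat_lit 1) (.e (nat_lit 389854) (nat_lit 0) .nil) .nil))))) (.nd (nat_lit 8) (.nd (nat_lit 9) 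
(.lf (nat_lit 585941) (.g (nat_lit 1025) (.e (nat_lit 393253) (nat_lit 18) (.e (nat_lit 164326) (nat_lit 230) (.e (nat_lit 163868) (nat_lit 2) (.e (nat_lit 196617) (nat_lit 9) .nil)))) (.g (nat_lit 0) (.e (nat_lit 389080) (nat_lit 0) .nil) .nil))) 
(.lf (nat_lit 586453) (.g (nat_lit 1976) (.e (nat_lit 401152) (nat_lit 18) (.e (nat_lit 164399) (nat_lit 256) (.e (nat_lit 57378) (nat_lit 3) (.e (nat_lit 98365) (nat_lit 26) (.e (nat_lit 426188) (nat_lit 9) .nil))))) (.g (nat_lit 0) (.e (nat_lit 389646) (nat_lit 0) .nil) .nil)))) (.nd (nat_lit 9) 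
(.lf (nat_lit 586197) (.g (nat_lit 1150) (.e (nat_lit 393254) (nat_lit 18) (.e (nat_lit 164323) (nat_lit 230) (.e (nat_lit 163868) (nat_lit 2) (.e (nat_lit 196654) (nat_lit 11) .nil)))) (.g (nat_lit 0) (.e (nat_lit 389359) (nat_lit 0) .nil) .nil))) 
(.lf (nat_lit 586709) (.g (nat_lit 1033) (.e (nat_lit 393277) (nat_lit 23) (.e (nat_lit 426109) (nat_lit 1) (.e (nat_lit 164326) (nat_lit 230) (.e (nat_lit 163881) (nat_lit 4) .nil)))) (.g (nat_lit 0) (.e (nat_lit 390006) (nat_lit 0) .nil) .nil))))))) (.nd (nat_lit 6) (.nd (nat_lit 7) (.nd (nat_lit 8) (.nd (nat_lit 9) 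
(.lf (nat_lit 585781) (.g (nat_lit 1708) (.e (nat_lit 393252) (nat_lit 18) (.e (nat_lit 164330) (nat_lit 230) (.e (nat_lit 163869) (nat_lit 2) (.e (nat_lit 196653) (nat_lit 11) (.e (nat_lit 16434) (nat_lit 9) .nil))))) (.g (nat_lit 0) (.e (nat_lit 388892) (nat_lit 0) .nil) .nil))) 
(.lf (nat_lit 586293) (.g (nat_lit 2412) (.e (nat_lit 393254) (nat_lit 18) (.e (nat_lit 164326) (nat_lit 230) (.e (nat_lit 163871) (nat_lit 2) (.e (nat_lit 196624) (nat_lit 9) (.e (nat_lit 433) (nat_lit 32) (.e (nat_lit 426228) (nat_lit 9) (.e (nat_lit 426565) (nat_lit 34) .nil))))))) (.g (nat_lit 1) (.e (nat_lit 389459) (nat_lit 0) .nil) .nil)))) (.nd (nat_lit 9) 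
(.lf (nat_lit 586037) (.g (nat_lit 3386) (.e (nat_lit 393253) (nat_lit 18) (.e (nat_lit 164326) (nat_lit 230) (.e (nat_lit 163875) (nat_lit 3) (.e (nat_lit 204813) (nat_lit 9) (.e (nat_lit 426200) (nat_lit 9) (.e (nat_lit 426566) (nat_lit 34) .nil)))))) (.g (nat_lit 1) (.e (nat_lit 389179) (nat_lit 0) .nil) .nil))) 
(.lf (nat_lit 586549) (.g (nat_lit 3267) (.e (nat_lit 393270) (nat_lit 23) (.e (nat_lit 426436) (nat_lit 18) (.e (nat_lit 98334) (nat_lit 18) (.e (nat_lit 164330) (nat_lit 230) (.e (nat_lit 163902) (nat_lit 12) (.e (nat_lit 426567) (nat_lit 34) .nil)))))) (.g (nat_lit 1) (.e (nat_lit 389822) (nat_lit 0) .nil) .nil))))) (.nd (nat_lit 8) (.nd (nat_lit 9) 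
(.lf (nat_lit 585909) (.g (nat_lit 1787) (.e (nat_lit 393253) (nat_lit 18) (.e (nat_lit 164325) (nat_lit 230) (.e (nat_lit 163868) (nat_lit 2) (.e (nat_lit 196635) (nat_lit 9) .nil)))) (.g (nat_lit 0) (.e (nat_lit 389048) (nat_lit 0) .nil) .nil))) 
(.lf (nat_lit 586421) (.g (nat_lit 3810) (.e (nat_lit 393254) (nat_lit 18) (.e (nat_lit 164332) (nat_lit 230) (.e (nat_lit 163869) (nat_lit 2) (.e (nat_lit 196638) (nat_lit 9) .nil)))) (.g (nat_lit 0) (.e (nat_lit 389602) (nat_lit 0) .nil) .nil)))) (.nd (nat_lit 9) 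
(.lf (nat_lit 586165) (.g (nat_lit 3746) (.e (nat_lit 393253) (nat_lit 18) (.e (nat_lit 164332) (nat_lit 230) (.e (nat_lit 163873) (nat_lit 3) (.e (nat_lit 204813) (nat_lit 9) (.e (nat_lit 426196) (nat_lit 9) (.e (nat_lit 426568) (nat_lit 34) .nil)))))) (.g (nat_lit 1) (.e (nat_lit 389311) (nat_lit 0) .nil) .nil))) 
(.lf (nat_lit 586677) (.g (nat_lit 2541) (.e (nat_lit 393273) (nat_lit 23) (.e (nat_lit 426131) (nat_lit 3) (.e (nat_lit 204831) (nat_lit 18) (.e (nat_lit 57667) (nat_lit 152) (.e (nat_lit 2619) (nat_lit 164) (.e (nat_lit 179968) (nat_lit 34) .nil)))))) (.g (nat_lit 1) (.e (nat_lit 389953) (nat_lit 0) .nil) .nil)))))) (.nd (nat_lit 7) (.nd (nat_lit 8) (.nd (nat_lit 9) 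
(.lf (nat_lit 585845) (.g (nat_lit 1949) (.e (nat_lit 393252) (nat_lit 18) (.e (nat_lit 164332) (nat_lit 230) (.e (nat_lit 163874) (nat_lit 3) (.e (nat_lit 204811) (nat_lit 9) (.e (nat_lit 426261) (nat_lit 9) (.e (nat_lit 426565) (nat_lit 34) .nil)))))) (.g (nat_lit 1) (.e (nat_lit 388957) (nat_lit 0) .nil) .nil))) 
(.lf (nat_lit 586357) (.g (nat_lit 2198) (.e (nat_lit 393254) (nat_lit 18) (.e (nat_lit 164329) (nat_lit 230) (.e (nat_lit 163867) (nat_lit 2) (.e (nat_lit 196624) (nat_lit 9) (.e (nat_lit 479) (nat_lit 37) (.e (nat_lit 474880) (nat_lit 18) .nil)))))) (.g (nat_lit 1) (.e (nat_lit 389525) (nat_lit 0) .nil) .nil)))) (.nd (nat_lit 9) 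
(.lf (nat_lit 586101) (.g (nat_lit 1097) (.e (nat_lit 393253) (nat_lit 18) (.e (nat_lit 164329) (nat_lit 230) (.e (nat_lit 163873) (nat_lit 3) (.e (nat_lit 204811) (nat_lit 9) (.e (nat_lit 426258) (nat_lit 9) .nil))))) (.g (nat_lit 0) (.e (nat_lit 389247) (nat_lit 0) .nil) .nil))) 
(.lf (nat_lit 586613) (.g (nat_lit 2984) (.e (nat_lit 393271) (nat_lit 23) (.e (nat_lit 426131) (nat_lit 3) (.e (nat_lit 204831) (nat_lit 18) (.e (nat_lit 57688) (nat_lit 156) (.e (nat_lit 163907) (nat_lit 12) (.e (nat_lit 426566) (nat_lit 34) .nil)))))) (.g (nat_lit 1) (.e (nat_lit 389887) (nat_lit 0) .nil) .nil))))) (.nd (nat_lit 8) (.nd (nat_lit 9) 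
(.lf (nat_lit 585973) (.g (nat_lit 2055) (.e (nat_lit 393253) (nat_lit 18) (.e (nat_lit 164326) (nat_lit 230) (.e (nat_lit 163868) (nat_lit 2) (.e (nat_lit 196636) (nat_lit 9) .nil)))) (.g (nat_lit 0) (.e (nat_lit 389113) (nat_lit 0) .nil) .nil))) 
(.lf (nat_lit 586485) (.g (nat_lit 3501) (.e (nat_lit 393268) (nat_lit 23) (.e (nat_lit 426436) (nat_lit 18) (.e (nat_lit 98333) (nat_lit 18) (.e (nat_lit 164325) (nat_lit 230) (.e (nat_lit 163907) (nat_lit 12) (.e (nat_lit 426566) (nat_lit 34) .nil)))))) (.g (nat_lit 1) (.e (nat_lit 389756) (nat_lit 0) .nil) .nil)))) (.nd (nat_lit 9) 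
(.lf (nat_lit 586229) (.g (nat_lit 1665) (.e (nat_lit 393254) (nat_lit 18) (.e (nat_lit 164325) (nat_lit 230) (.e (nat_lit 163873) (nat_lit 3) (.e (nat_lit 204811) (nat_lit 9) (.e (nat_lit 426232) (nat_lit 9) (.e (nat_lit 426565) (nat_lit 34) .nil)))))) (.g (nat_lit 1) (.e (nat_lit 389394) (nat_lit 0) .nil) .nil))) 
(.lf (nat_lit 586741) (.g (nat_lit 3040) (.e (nat_lit 393281) (nat_lit 23) (.e (nat_lit 426098) (nat_lit 1) (.e (nat_lit 164325) (nat_lit 230) (.e (nat_lit 163882) (nat_lit 4) (.e (nat_lit 213032) (nat_lit 11) (.e (nat_lit 24658) (nat_lit 13) .nil)))))) (.g (nat_lit 1) (.e (nat_lit 390048) (nat_lit 0) .nil) .nil))))))))) 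
(.nd (nat_lit 4) (.nd (nat_lit 5) (.nd (nat_lit 6) (.nd (nat_lit 7) (.nd (nat_lit 8) 
(.nd (nat_lit 9) 
(.lf (nat_lit 585741) (.g (nat_lit 1567) (.e (nat_lit 393251) (nat_lit 18) (.e (nat_lit 164332) (nat_lit 230) (.e (nat_lit 163873) (nat_lit 3) (.e (nat_lit 204811) (nat_lit 9) (.e (nat_lit 426262) (nat_lit 9) (.e (nat_lit 433920) (nat_lit 34) .nil)))))) (.g (nat_lit 1) (.e (nat_lit 388834) (nat_lit 0) .nil) .nil))) 
(.lf (nat_lit 586253) (.g (nat_lit 2496) (.e (nat_lit 393254) (nat_lit 18) (.e (nat_lit 164326) (nat_lit 230) (.e (nat_lit 163868) (nat_lit 2) (.e (nat_lit 196624) (nat_lit 9) (.e (nat_lit 455) (nat_lit 34) (.e (nat_lit 450304) (nat_lit 18) .nil)))))) (.g (nat_lit 1) (.e (nat_lit 389418) (nat_lit 0) .nil) .nil)))) (.nd (nat_lit 9) 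
(.lf (nat_lit 585997) (.g (nat_lit 2096) (.e (nat_lit 393253) (nat_lit 18) (.e (nat_lit 164326) (nat_lit 230) (.e (nat_lit 163871) (nat_lit 2) (.e (nat_lit 196618) (nat_lit 9) (.e (nat_lit 457) (nat_lit 34) (.e (nat_lit 450304) (nat_lit 18) .nil)))))) (.g (nat_lit 1) (.e (nat_lit 389138) (nat_lit 0) .nil) .nil))) 
(.lf (nat_lit 586509) (.g (nat_lit 3415) (.e (nat_lit 393268) (nat_lit 23) (.e (nat_lit 426438) (nat_lit 18) (.e (nat_lit 98333) (nat_lit 18) (.e (nat_lit 164325) (nat_lit 230) (.e (nat_lit 163903) (nat_lit 12) (.e (nat_lit 426567) (nat_lit 34) .nil)))))) (.g (nat_lit 1) (.e (nat_lit 389780) (nat_lit 0) .nil) .nil))))) (.nd (nat_lit 8) (.nd (nat_lit 9) 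
(.lf (nat_lit 585869) (.g (nat_lit 1034) (.e (nat_lit 393253) (nat_lit 18) (.e (nat_lit 164322) (nat_lit 230) (.e (nat_lit 163873) (nat_lit 3) (.e (nat_lit 204809) (nat_lit 9) .nil)))) (.g (nat_lit 0) (.e (nat_lit 389006) (nat_lit 0) .nil) .nil))) 
(.lf (nat_lit 586381) (.g (nat_lit 1997) (.e (nat_lit 393254) (nat_lit 18) (.e (nat_lit 164332) (nat_lit 230) (.e (nat_lit 163867) (nat_lit 2) (.e (nat_lit 196624) (nat_lit 9) (.e (nat_lit 455) (nat_lit 34) (.e (nat_lit 450304) (nat_lit 18) .nil)))))) (.g (nat_lit 1) (.e (nat_lit 389562) (nat_lit 0) .nil) .nil)))) (.nd (nat_lit 9) 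
(.lf (nat_lit 586125) (.g (nat_lit 3692) (.e (nat_lit 393253) (nat_lit 18) (.e (nat_lit 164331) (nat_lit 230) (.e (nat_lit 163873) (nat_lit 3) (.e (nat_lit 204813) (nat_lit 9) (.e (nat_lit 426190) (nat_lit 9) (.e (nat_lit 426566) (nat_lit 34) .nil)))))) (.g (nat_lit 1) (.e (nat_lit 389271) (nat_lit 0) .nil) .nil))) 
(.lf (nat_lit 586637) (.g (nat_lit 3427) (.e (nat_lit 393271) (nat_lit 23) (.e (nat_lit 426438) (nat_lit 18) (.e (nat_lit 98335) (nat_lit 18) (.e (nat_lit 164330) (nat_lit 230) (.e (nat_lit 163902) (nat_lit 12) (.e (nat_lit 426566) (nat_lit 34) .nil)))))) (.g (nat_lit 1) (.e (nat_lit 389913) (nat_lit 0) .nil) .nil)))))) (.nd (nat_lit 7) (.nd (nat_lit 8) (.nd (nat_lit 9) 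
(.lf (nat_lit 585805) (.g (nat_lit 1993) (.e (nat_lit 393252) (nat_lit 18) (.e (nat_lit 164332) (nat_lit 230) (.e (nat_lit 163867) (nat_lit 2) (.e (nat_lit 196624) (nat_lit 9) (.e (nat_lit 459) (nat_lit 34) (.e (nat_lit 450304) (nat_lit 18) .nil)))))) (.g (nat_lit 1) (.e (nat_lit 388916) (nat_lit 0) .nil) .nil))) 
(.lf (nat_lit 586317) (.g (nat_lit 1824) (.e (nat_lit 393254) (nat_lit 18) (.e (nat_lit 164326) (nat_lit 230) (.e (nat_lit 163874) (nat_lit 3) (.e (nat_lit 204809) (nat_lit 9) .nil)))) (.g (nat_lit 0) (.e (nat_lit 389483) (nat_lit 0) .nil) .nil)))) (.nd (nat_lit 9) 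
(.lf (nat_lit 586061) (.g (nat_lit 1906) (.e (nat_lit 393253) (nat_lit 18) (.e (nat_lit 164327) (nat_lit 230) (.e (nat_lit 163871) (nat_lit 2) (.e (nat_lit 196625) (nat_lit 9) .nil)))) (.g (nat_lit 0) (.e (nat_lit 389205) (nat_lit 0) .nil) .nil))) 
(.lf (nat_lit 586573) (.g (nat_lit 3419) (.e (nat_lit 393270) (nat_lit 23) (.e (nat_lit 426438) (nat_lit 18) (.e (nat_lit 98334) (nat_lit 18) (.e (nat_lit 164330) (nat_lit 230) (.e (nat_lit 163902) (nat_lit 12) (.e (nat_lit 426566) (nat_lit 34) .nil)))))) (.g (nat_lit 1) (.e (nat_lit 389846) (nat_lit 0) .nil) .nil))))) (.nd (nat_lit 8) (.nd (nat_lit 9) 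
(.lf (nat_lit 585933) (.g (nat_lit 375) (.e (nat_lit 393253) (nat_lit 18) (.e (nat_lit 164325) (nat_lit 230) (.e (nat_lit 163875) (nat_lit 3) .nil))) (.g (nat_lit 0) (.e (nat_lit 389072) (nat_lit 0) .nil) .nil))) 
(.lf (nat_lit 586445) (.g (nat_lit 1000) (.e (nat_lit 393254) (nat_lit 18) (.e (nat_lit 164345) (nat_lit 240) (.e (nat_lit 2611) (nat_lit 163) (.e (nat_lit 163959) (nat_lit 24) (.e (nat_lit 524319) (nat_lit 11) (.e (nat_lit 450304) (nat_lit 18) .nil)))))) (.g (nat_lit 1) (.e (nat_lit 389628) (nat_lit 0) .nil) .nil)))) (.nd (nat_lit 9) 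
(.lf (nat_lit 586189) (.g (nat_lit 2492) (.e (nat_lit 393254) (nat_lit 18) (.e (nat_lit 164322) (nat_lit 230) (.e (nat_lit 163871) (nat_lit 2) (.e (nat_lit 196656) (nat_lit 11) (.e (nat_lit 16433) (nat_lit 9) (.e (nat_lit 426566) (nat_lit 34) .nil)))))) (.g (nat_lit 1) (.e (nat_lit 389351) (nat_lit 0) .nil) .nil))) 
(.lf (nat_lit 586701) (.g (nat_lit 2117) (.e (nat_lit 393275) (nat_lit 23) (.e (nat_lit 426109) (nat_lit 1) (.e (nat_lit 164326) (nat_lit 230) (.e (nat_lit 163881) (nat_lit 4) (.e (nat_lit 213032) (nat_lit 11) (.e (nat_lit 24660) (nat_lit 13) .nil)))))) (.g (nat_lit 1) (.e (nat_lit 389981) (nat_lit 0) .nil) .nil))))))) (.nd (nat_lit 6) (.nd (nat_lit 7) (.nd (nat_lit 8) (.nd (nat_lit 9) 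
(.lf (nat_lit 585773) (.g (nat_lit 2134) (.e (nat_lit 393252) (nat_lit 18) (.e (nat_lit 164329) (nat_lit 230) (.e (nat_lit 163867) (nat_lit 2) (.e (nat_lit 196656) (nat_lit 11) (.e (nat_lit 16433) (nat_lit 9) .nil))))) (.g (nat_lit 0) (.e (nat_lit 388884) (nat_lit 0) .nil) .nil))) 
(.lf (nat_lit 586285) (.g (nat_lit 2031) (.e (nat_lit 393254) (nat_lit 18) (.e (nat_lit 164326) (nat_lit 230) (.e (nat_lit 163871) (nat_lit 2) (.e (nat_lit 196618) (nat_lit 9) (.e (nat_lit 457) (nat_lit 34) (.e (nat_lit 450304) (nat_lit 18) .nil)))))) (.g (nat_lit 1) (.e (nat_lit 389451) (nat_lit 0) .nil) .nil)))) (.nd (nat_lit 9) 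
(.lf (nat_lit 586029) (.g (nat_lit 3073) (.e (nat_lit 393253) (nat_lit 18) (.e (nat_lit 164326) (nat_lit 230) (.e (nat_lit 163874) (nat_lit 3) (.e (nat_lit 204813) (nat_lit 9) (.e (nat_lit 426188) (nat_lit 9) (.e (nat_lit 426566) (nat_lit 34) .nil)))))) (.g (nat_lit 1) (.e (nat_lit 389171) (nat_lit 0) .nil) .nil))) 
(.lf (nat_lit 586541) (.g (nat_lit 2953) (.e (nat_lit 393270) (nat_lit 23) (.e (nat_lit 426436) (nat_lit 18) (.e (nat_lit 98333) (nat_lit 18) (.e (nat_lit 164327) (nat_lit 230) (.e (nat_lit 163903) (nat_lit 12) (.e (nat_lit 426567) (nat_lit 34) .nil)))))) (.g (nat_lit 1) (.e (nat_lit 389814) (nat_lit 0) .nil) .nil))))) (.nd (nat_lit 8) (.nd (nat_lit 9) 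
(.lf (nat_lit 585901) (.g (nat_lit 1881) (.e (nat_lit 393253) (nat_lit 18) (.e (nat_lit 164325) (nat_lit 230) (.e (nat_lit 163868) (nat_lit 2) (.e (nat_lit 196624) (nat_lit 9) (.e (nat_lit 416) (nat_lit 32) .nil))))) (.g (nat_lit 0) (.e (nat_lit 389040) (nat_lit 0) .nil) .nil))) 
(.lf (nat_lit 586413) (.g (nat_lit 1831) (.e (nat_lit 393254) (nat_lit 18) (.e (nat_lit 164332) (nat_lit 230) (.e (nat_lit 163869) (nat_lit 2) (.e (nat_lit 196628) (nat_lit 9) (.e (nat_lit 476) (nat_lit 37) (.e (nat_lit 474880) (nat_lit 18) .nil)))))) (.g (nat_lit 1) (.e (nat_lit 389594) (nat_lit 0) .nil) .nil)))) (.nd (nat_lit 9) 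
(.lf (nat_lit 586157) (.g (nat_lit 4093) (.e (nat_lit 393253) (nat_lit 18) (.e (nat_lit 164332) (nat_lit 230) (.e (nat_lit 163869) (nat_lit 2) (.e (nat_lit 196654) (nat_lit 11) (.e (nat_lit 16433) (nat_lit 9) (.e (nat_lit 426568) (nat_lit 34) .nil)))))) (.g (nat_lit 1) (.e (nat_lit 389303) (nat_lit 0) .nil) .nil))) 
(.lf (nat_lit 586669) (.g (nat_lit 2564) (.e (nat_lit 393273) (nat_lit 23) (.e (nat_lit 426131) (nat_lit 3) (.e (nat_lit 204829) (nat_lit 18) (.e (nat_lit 57654) (nat_lit 152) (.e (nat_lit 2633) (nat_lit 164) (.e (nat_lit 179968) (nat_lit 34) .nil)))))) (.g (nat_lit 1) (.e (nat_lit 389945) (nat_lit 0) .nil) .nil)))))) (.nd (nat_lit 7) (.nd (nat_lit 8) (.nd (nat_lit 9) 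
(.lf (nat_lit 585837) (.g (nat_lit 1647) (.e (nat_lit 393252) (nat_lit 18) (.e (nat_lit 164332) (nat_lit 230) (.e (nat_lit 163873) (nat_lit 3) (.e (nat_lit 204811) (nat_lit 9) (.e (nat_lit 426261) (nat_lit 9) (.e (nat_lit 426565) (nat_lit 34) .nil)))))) (.g (nat_lit 1) (.e (nat_lit 388949) (nat_lit 0) .nil) .nil))) 
(.lf (nat_lit 586349) (.g (nat_lit 1954) (.e (nat_lit 393254) (nat_lit 18) (.e (nat_lit 164327) (nat_lit 230) (.e (nat_lit 163874) (nat_lit 3) (.e (nat_lit 204809) (nat_lit 9) .nil)))) (.g (nat_lit 0) (.e (nat_lit 389515) (nat_lit 0) .nil) .nil)))) (.nd (nat_lit 9) 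
(.lf (nat_lit 586093) (.g (nat_lit 2290) (.e (nat_lit 393253) (nat_lit 18) (.e (nat_lit 164329) (nat_lit 230) (.e (nat_lit 163867) (nat_lit 2) (.e (nat_lit 196624) (nat_lit 9) (.e (nat_lit 457) (nat_lit 34) (.e (nat_lit 450304) (nat_lit 18) .nil)))))) (.g (nat_lit 1) (.e (nat_lit 389239) (nat_lit 0) .nil) .nil))) 
(.lf (nat_lit 586605) (.g (nat_lit 3501) (.e (nat_lit 393271) (nat_lit 23) (.e (nat_lit 426131) (nat_lit 3) (.e (nat_lit 204830) (nat_lit 18) (.e (nat_lit 57691) (nat_lit 156) (.e (nat_lit 163907) (nat_lit 12) (.e (nat_lit 426566) (nat_lit 34) .nil)))))) (.g (nat_lit 1) (.e (nat_lit 389879) (nat_lit 0) .nil) .nil))))) (.nd (nat_lit 8) (.nd (nat_lit 9) 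
(.lf (nat_lit 585965) (.g (nat_lit 1766) (.e (nat_lit 393253) (nat_lit 18) (.e (nat_lit 164326) (nat_lit 230) (.e (nat_lit 163868) (nat_lit 2) (.e (nat_lit 196628) (nat_lit 9) (.e (nat_lit 458) (nat_lit 34) (.e (nat_lit 450304) (nat_lit 18) .nil)))))) (.g (nat_lit 1) (.e (nat_lit 389105) (nat_lit 0) .nil) .nil))) 
(.lf (nat_lit 586477) (.g (nat_lit 1929) (.e (nat_lit 393266) (nat_lit 23) (.e (nat_lit 426396) (nat_lit 15) (.e (nat_lit 2059) (nat_lit 142) (.e (nat_lit 704596) (nat_lit 5) (.e (nat_lit 180277) (nat_lit 32) .nil))))) (.g (nat_lit 0) (.e (nat_lit 389748) (nat_lit 0) .nil) .nil)))) (.nd (nat_lit 9) 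
(.lf (nat_lit 586221) (.g (nat_lit 2177) (.e (nat_lit 393254) (nat_lit 18) (.e (nat_lit 164325) (nat_lit 230) (.e (nat_lit 163868) (nat_lit 2) (.e (nat_lit 196624) (nat_lit 9) (.e (nat_lit 479) (nat_lit 37) (.e (nat_lit 474880) (nat_lit 18) .nil)))))) (.g (nat_lit 1) (.e (nat_lit 389386) (nat_lit 0) .nil) .nil))) 
(.lf (nat_lit 586733) (.g (nat_lit 3484) (.e (nat_lit 393281) (nat_lit 23) (.e (nat_lit 426098) (nat_lit 1) (.e (nat_lit 164325) (nat_lit 230) (.e (nat_lit 163844) (nat_lit 0) (.e (nat_lit 3617) (nat_lit 227) (.e (nat_lit 778462) (nat_lit 11) (.e (nat_lit 24658) (nat_lit 13) .nil))))))) (.g (nat_lit 1) (.e (nat_lit 390040) (nat_lit 0) .nil) .nil)))))))) 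
(.nd (nat_lit 5) (.nd (nat_lit 6) (.nd (nat_lit 7) (.nd (nat_lit 8) (.nd (nat_lit 9) 
(.lf (nat_lit 585757) (.g (nat_lit 2997) (.e (nat_lit 393251) (nat_lit 18) (.e (nat_lit 164398) (nat_lit 256) (.e (nat_lit 57379) (nat_lit 3) (.e (nat_lit 98365) (nat_lit 26) (.e (nat_lit 426188) (nat_lit 9) (.e (nat_lit 426564) (nat_lit 34) .nil)))))) (.g (nat_lit 1) (.e (nat_lit 388851) (nat_lit 0) .nil) .nil))) 
(.lf (nat_lit 586269) (.g (nat_lit 2229) (.e (nat_lit 393254) (nat_lit 18) (.e (nat_lit 164326) (nat_lit 230) (.e (nat_lit 163868) (nat_lit 2) (.e (nat_lit 196639) (nat_lit 9) .nil)))) (.g (nat_lit 0) (.e (nat_lit 389435) (nat_lit 0) .nil) .nil)))) (.nd (nat_lit 9) 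
(.lf (nat_lit 586013) (.g (nat_lit 2182) (.e (nat_lit 393253) (nat_lit 18) (.e (nat_lit 164326) (nat_lit 230) (.e (nat_lit 163871) (nat_lit 2) (.e (nat_lit 196624) (nat_lit 9) (.e (nat_lit 479) (nat_lit 37) (.e (nat_lit 474880) (nat_lit 18) .nil)))))) (.g (nat_lit 1) (.e (nat_lit 389154) (nat_lit 0) .nil) .nil))) 
(.lf (nat_lit 586525) (.g (nat_lit 3892) (.e (nat_lit 393268) (nat_lit 23) (.e (nat_lit 426438) (nat_lit 18) (.e (nat_lit 98335) (nat_lit 18) (.e (nat_lit 164330) (nat_lit 230) (.e (nat_lit 163902) (nat_lit 12) (.e (nat_lit 426567) (nat_lit 34) .nil)))))) (.g (nat_lit 1) (.e (nat_lit 389796) (nat_lit 0) .nil) .nil))))) (.nd (nat_lit 8) (.nd (nat_lit 9) 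
(.lf (nat_lit 585885) (.g (nat_lit 552) (.e (nat_lit 393253) (nat_lit 18) (.e (nat_lit 164324) (nat_lit 230) (.e (nat_lit 163872) (nat_lit 3) .nil))) (.g (nat_lit 0) (.e (nat_lit 389022) (nat_lit 0) .nil) .nil))) 
(.lf (nat_lit 586397) (.g (nat_lit 1865) (.e (nat_lit 393254) (nat_lit 18) (.e (nat_lit 164332) (nat_lit 230) (.e (nat_lit 163869) (nat_lit 2) (.e (nat_lit 196623) (nat_lit 9) (.e (nat_lit 455) (nat_lit 34) (.e (nat_lit 450304) (nat_lit 18) .nil)))))) (.g (nat_lit 1) (.e (nat_lit 389578) (nat_lit 0) .nil) .nil)))) (.nd (nat_lit 9) 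
(.lf (nat_lit 586141) (.g (nat_lit 2061) (.e (nat_lit 393253) (nat_lit 18) (.e (nat_lit 164332) (nat_lit 230) (.e (nat_lit 163869) (nat_lit 2) (.e (nat_lit 196624) (nat_lit 9) (.e (nat_lit 399) (nat_lit 32) .nil))))) (.g (nat_lit 0) (.e (nat_lit 389287) (nat_lit 0) .nil) .nil))) 
(.lf (nat_lit 586653) (.g (nat_lit 2546) (.e (nat_lit 393272) (nat_lit 23) (.e (nat_lit 426434) (nat_lit 18) (.e (nat_lit 98334) (nat_lit 18) (.e (nat_lit 164332) (nat_lit 230) (.e (nat_lit 163905) (nat_lit 12) (.e (nat_lit 426566) (nat_lit 34) .nil)))))) (.g (nat_lit 1) (.e (nat_lit 389929) (nat_lit 0) .nil) .nil)))))) (.nd (nat_lit 7) (.nd (nat_lit 8) (.nd (nat_lit 9) 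
(.lf (nat_lit 585821) (.g (nat_lit 2188) (.e (nat_lit 393252) (nat_lit 18) (.e (nat_lit 164332) (nat_lit 230) (.e (nat_lit 163869) (nat_lit 2) (.e (nat_lit 196624) (nat_lit 9) (.e (nat_lit 435) (nat_lit 32) .nil))))) (.g (nat_lit 0) (.e (nat_lit 388933) (nat_lit 0) .nil) .nil))) 
(.lf (nat_lit 586333) (.g (nat_lit 2368) (.e (nat_lit 393254) (nat_lit 18) (.e (nat_lit 164327) (nat_lit 230) (.e (nat_lit 163869) (nat_lit 2) (.e (nat_lit 196654) (nat_lit 11) (.e (nat_lit 16433) (nat_lit 9) .nil))))) (.g (nat_lit 0) (.e (nat_lit 389499) (nat_lit 0) .nil) .nil)))) (.nd (nat_lit 9) 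
(.lf (nat_lit 586077) (.g (nat_lit 3003) (.e (nat_lit 393253) (nat_lit 18) (.e (nat_lit 164327) (nat_lit 230) (.e (nat_lit 163873) (nat_lit 3) (.e (nat_lit 204813) (nat_lit 9) (.e (nat_lit 426197) (nat_lit 9) .nil))))) (.g (nat_lit 0) (.e (nat_lit 389221) (nat_lit 0) .nil) .nil))) 
(.lf (nat_lit 586589) (.g (nat_lit 3112) (.e (nat_lit 393271) (nat_lit 23) (.e (nat_lit 426112) (nat_lit 1) (.e (nat_lit 164327) (nat_lit 230) (.e (nat_lit 163882) (nat_lit 4) (.e (nat_lit 213032) (nat_lit 11) (.e (nat_lit 24656) (nat_lit 13) .nil)))))) (.g (nat_lit 1) (.e (nat_lit 389862) (nat_lit 0) .nil) .nil))))) (.nd (nat_lit 8) (.nd (nat_lit 9) 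
(.lf (nat_lit 585949) (.g (nat_lit 1693) (.e (nat_lit 393253) (nat_lit 18) (.e (nat_lit 164326) (nat_lit 230) (.e (nat_lit 163868) (nat_lit 2) (.e (nat_lit 196623) (nat_lit 9) (.e (nat_lit 454) (nat_lit 34) (.e (nat_lit 450304) (nat_lit 18) .nil)))))) (.g (nat_lit 1) (.e (nat_lit 389089) (nat_lit 0) .nil) .nil))) 
(.lf (nat_lit 586461) (.g (nat_lit 701) (.e (nat_lit 393260) (nat_lit 21) (.e (nat_lit 409616) (nat_lit 10) (.e (nat_lit 5038) (nat_lit 291) .nil))) (.g (nat_lit 0) (.e (nat_lit 389714) (nat_lit 0) .nil) .nil)))) (.nd (nat_lit 9) 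
(.lf (nat_lit 586205) (.g (nat_lit 1868) (.e (nat_lit 393254) (nat_lit 18) (.e (nat_lit 164324) (nat_lit 230) (.e (nat_lit 163868) (nat_lit 2) (.e (nat_lit 196624) (nat_lit 9) (.e (nat_lit 7936) (nat_lit 34) (.e (nat_lit 450304) (nat_lit 18) .nil)))))) (.g (nat_lit 1) (.e (nat_lit 389367) (nat_lit 0) .nil) .nil))) 
(.lf (nat_lit 586717) (.g (nat_lit 1607) (.e (nat_lit 393279) (nat_lit 23) (.e (nat_lit 426110) (nat_lit 1) (.e (nat_lit 164327) (nat_lit 230) (.e (nat_lit 163882) (nat_lit 4) (.e (nat_lit 213030) (nat_lit 11) (.e (nat_lit 24659) (nat_lit 13) .nil)))))) (.g (nat_lit 1) (.e (nat_lit 390017) (nat_lit 0) .nil) .nil))))))) (.nd (nat_lit 6) (.nd (nat_lit 7) (.nd (nat_lit 8) (.nd (nat_lit 9) 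
(.lf (nat_lit 585789) (.g (nat_lit 720) (.e (nat_lit 393252) (nat_lit 18) (.e (nat_lit 164330) (nat_lit 230) (.e (nat_lit 163873) (nat_lit 3) (.e (nat_lit 212736) (nat_lit 9) .nil)))) (.g (nat_lit 0) (.e (nat_lit 388900) (nat_lit 0) .nil) .nil))) 
(.lf (nat_lit 586301) (.g (nat_lit 1488) (.e (nat_lit 393254) (nat_lit 18) (.e (nat_lit 164326) (nat_lit 230) (.e (nat_lit 163871) (nat_lit 2) (.e (nat_lit 196626) (nat_lit 9) (.e (nat_lit 437) (nat_lit 32) .nil))))) (.g (nat_lit 0) (.e (nat_lit 389467) (nat_lit 0) .nil) .nil)))) (.nd (nat_lit 9) 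
(.lf (nat_lit 586045) (.g (nat_lit 1954) (.e (nat_lit 393253) (nat_lit 18) (.e (nat_lit 164327) (nat_lit 230) (.e (nat_lit 163868) (nat_lit 2) (.e (nat_lit 196628) (nat_lit 9) (.e (nat_lit 423) (nat_lit 32) .nil))))) (.g (nat_lit 0) (.e (nat_lit 389189) (nat_lit 0) .nil) .nil))) 
(.lf (nat_lit 586557) (.g (nat_lit 3790) (.e (nat_lit 393270) (nat_lit 23) (.e (nat_lit 426436) (nat_lit 18) (.e (nat_lit 98335) (nat_lit 18) (.e (nat_lit 164323) (nat_lit 230) .nil)))) (.g (nat_lit 0) (.e (nat_lit 389830) (nat_lit 0) .nil) .nil))))) (.nd (nat_lit 8) (.nd (nat_lit 9) 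
(.lf (nat_lit 585917) (.g (nat_lit 2267) (.e (nat_lit 393253) (nat_lit 18) (.e (nat_lit 164325) (nat_lit 230) (.e (nat_lit 163871) (nat_lit 2) (.e (nat_lit 196624) (nat_lit 9) (.e (nat_lit 457) (nat_lit 34) (.e (nat_lit 450304) (nat_lit 18) .nil)))))) (.g (nat_lit 1) (.e (nat_lit 389056) (nat_lit 0) .nil) .nil))) 
(.lf (nat_lit 586429) (.g (nat_lit 1261) (.e (nat_lit 393254) (nat_lit 18) (.e (nat_lit 164332) (nat_lit 230) (.e (nat_lit 163873) (nat_lit 3) (.e (nat_lit 204811) (nat_lit 9) (.e (nat_lit 426261) (nat_lit 9) (.e (nat_lit 433920) (nat_lit 34) .nil)))))) (.g (nat_lit 1) (.e (nat_lit 389610) (nat_lit 0) .nil) .nil)))) (.nd (nat_lit 9) 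
(.lf (nat_lit 586173) (.g (nat_lit 2758) (.e (nat_lit 393253) (nat_lit 18) (.e (nat_lit 164348) (nat_lit 240) (.e (nat_lit 2610) (nat_lit 163) (.e (nat_lit 163959) (nat_lit 24) (.e (nat_lit 524319) (nat_lit 11) (.e (nat_lit 450304) (nat_lit 18) .nil)))))) (.g (nat_lit 1) (.e (nat_lit 389320) (nat_lit 0) .nil) .nil))) 
(.lf (nat_lit 586685) (.g (nat_lit 3731) (.e (nat_lit 393273) (nat_lit 23) (.e (nat_lit 426436) (nat_lit 18) (.e (nat_lit 98334) (nat_lit 18) (.e (nat_lit 164330) (nat_lit 230) (.e (nat_lit 163902) (nat_lit 12) (.e (nat_lit 426566) (nat_lit 34) .nil)))))) (.g (nat_lit 1) (.e (nat_lit 389962) (nat_lit 0) .nil) .nil)))))) (.nd (nat_lit 7) (.nd (nat_lit 8) (.nd (nat_lit 9) 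
(.lf (nat_lit 585853) (.g (nat_lit 1964) (.e (nat_lit 393252) (nat_lit 18) (.e (nat_lit 164398) (nat_lit 256) (.e (nat_lit 57378) (nat_lit 3) (.e (nat_lit 98365) (nat_lit 26) (.e (nat_lit 426188) (nat_lit 9) .nil))))) (.g (nat_lit 0) (.e (nat_lit 388965) (nat_lit 0) .nil) .nil))) 
(.lf (nat_lit 586365) (.g (nat_lit 1314) (.e (nat_lit 393254) (nat_lit 18) (.e (nat_lit 164330) (nat_lit 230) (.e (nat_lit 163866) (nat_lit 2) (.e (nat_lit 196654) (nat_lit 11) .nil)))) (.g (nat_lit 0) (.e (nat_lit 389533) (nat_lit 0) .nil) .nil)))) (.nd (nat_lit 9) 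
(.lf (nat_lit 586109) (.g (nat_lit 1288) (.e (nat_lit 393253) (nat_lit 18) (.e (nat_lit 164330) (nat_lit 230) (.e (nat_lit 163869) (nat_lit 2) (.e (nat_lit 196626) (nat_lit 9) .nil)))) (.g (nat_lit 0) (.e (nat_lit 389255) (nat_lit 0) .nil) .nil))) 
(.lf (nat_lit 586621) (.g (nat_lit 4138) (.e (nat_lit 393271) (nat_lit 23) (.e (nat_lit 426436) (nat_lit 18) (.e (nat_lit 98335) (nat_lit 18) (.e (nat_lit 164314) (nat_lit 226) .nil)))) (.g (nat_lit 0) (.e (nat_lit 389897) (nat_lit 0) .nil) .nil))))) (.nd (nat_lit 8) (.nd (nat_lit 9) 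
(.lf (nat_lit 585981) (.g (nat_lit 2406) (.e (nat_lit 393253) (nat_lit 18) (.e (nat_lit 164326) (nat_lit 230) (.e (nat_lit 163869) (nat_lit 2) (.e (nat_lit 196654) (nat_lit 11) (.e (nat_lit 16433) (nat_lit 9) (.e (nat_lit 426566) (nat_lit 34) .nil)))))) (.g (nat_lit 1) (.e (nat_lit 389122) (nat_lit 0) .nil) .nil))) 
(.lf (nat_lit 586493) (.g (nat_lit 2976) (.e (nat_lit 393268) (nat_lit 23) (.e (nat_lit 426436) (nat_lit 18) (.e (nat_lit 98334) (nat_lit 18) (.e (nat_lit 164322) (nat_lit 230) (.e (nat_lit 163904) (nat_lit 12) (.e (nat_lit 426566) (nat_lit 34) .nil)))))) (.g (nat_lit 1) (.e (nat_lit 389764) (nat_lit 0) .nil) .nil)))) (.nd (nat_lit 9) 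
(.lf (nat_lit 586237) (.g (nat_lit 1309) (.e (nat_lit 393254) (nat_lit 18) (.e (nat_lit 164325) (nat_lit 230) (.e (nat_lit 163875) (nat_lit 3) (.e (nat_lit 204811) (nat_lit 9) (.e (nat_lit 426228) (nat_lit 9) (.e (nat_lit 426565) (nat_lit 34) .nil)))))) (.g (nat_lit 1) (.e (nat_lit 389402) (nat_lit 0) .nil) .nil))) 
(.lf (nat_lit 586749) (.g (nat_lit 2965) (.e (nat_lit 393281) (nat_lit 23) (.e (nat_lit 426098) (nat_lit 1) (.e (nat_lit 164332) (nat_lit 230) (.e (nat_lit 163880) (nat_lit 4) (.e (nat_lit 213030) (nat_lit 11) (.e (nat_lit 24655) (nat_lit 13) .nil)))))) (.g (nat_lit 1) (.e (nat_lit 390056) (nat_lit 0) .nil) .nil))))))))))) 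
(.nd (nat_lit 2) (.nd (nat_lit 3) (.nd (nat_lit 4) (.nd (nat_lit 5) (.nd (nat_lit 6) 
(.nd (nat_lit 7) (.nd (nat_lit 8) (.nd (nat_lit 9) 
(.lf (nat_lit 585731) (.g (nat_lit 2011) (.e (nat_lit 393251) (nat_lit 18) (.e (nat_lit 164332) (nat_lit 230) (.e (nat_lit 163869) (nat_lit 2) (.e (nat_lit 196624) (nat_lit 9) (.e (nat_lit 411) (nat_lit 32) .nil))))) (.g (nat_lit 0) (.e (nat_lit 388824) (nat_lit 0) .nil) .nil))) 
(.lf (nat_lit 586243) (.g (nat_lit 2036) (.e (nat_lit 393254) (nat_lit 18) (.e (nat_lit 164326) (nat_lit 230) (.e (nat_lit 163868) (nat_lit 2) (.e (nat_lit 196617) (nat_lit 9) (.e (nat_lit 457) (nat_lit 34) (.e (nat_lit 450304) (nat_lit 18) .nil)))))) (.g (nat_lit 1) (.e (nat_lit 389408) (nat_lit 0) .nil) .nil)))) (.nd (nat_lit 9) 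
(.lf (nat_lit 585987) (.g (nat_lit 2214) (.e (nat_lit 393253) (nat_lit 18) (.e (nat_lit 164326) (nat_lit 230) (.e (nat_lit 163870) (nat_lit 2) (.e (nat_lit 196628) (nat_lit 9) (.e (nat_lit 476) (nat_lit 37) (.e (nat_lit 474880) (nat_lit 18) .nil)))))) (.g (nat_lit 1) (.e (nat_lit 389128) (nat_lit 0) .nil) .nil))) 
(.lf (nat_lit 586499) (.g (nat_lit 3269) (.e (nat_lit 393268) (nat_lit 23) (.e (nat_lit 426436) (nat_lit 18) (.e (nat_lit 98334) (nat_lit 18) (.e (nat_lit 164332) (nat_lit 230) (.e (nat_lit 163905) (nat_lit 12) (.e (nat_lit 426566) (nat_lit 34) .nil)))))) (.g (nat_lit 1) (.e (nat_lit 389770) (nat_lit 0) .nil) .nil))))) (.nd (nat_lit 8) (.nd (nat_lit 9) 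
(.lf (nat_lit 585859) (.g (nat_lit 3297) (.e (nat_lit 393252) (nat_lit 18) (.e (nat_lit 164399) (nat_lit 256) (.e (nat_lit 57377) (nat_lit 3) (.e (nat_lit 98365) (nat_lit 26) (.e (nat_lit 426188) (nat_lit 9) (.e (nat_lit 426568) (nat_lit 34) .nil)))))) (.g (nat_lit 1) (.e (nat_lit 388984) (nat_lit 0) .nil) .nil))) 
(.lf (nat_lit 586371) (.g (nat_lit 1838) (.e (nat_lit 393254) (nat_lit 18) (.e (nat_lit 164331) (nat_lit 230) (.e (nat_lit 163869) (nat_lit 2) (.e (nat_lit 196654) (nat_lit 11) .nil)))) (.g (nat_lit 0) (.e (nat_lit 389539) (nat_lit 0) .nil) .nil)))) (.nd (nat_lit 9) 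
(.lf (nat_lit 586115) (.g (nat_lit 4333) (.e (nat_lit 393253) (nat_lit 18) (.e (nat_lit 164330) (nat_lit 230) (.e (nat_lit 163873) (nat_lit 3) (.e (nat_lit 204813) (nat_lit 9) (.e (nat_lit 426185) (nat_lit 9) .nil))))) (.g (nat_lit 0) (.e (nat_lit 389261) (nat_lit 0) .nil) .nil))) 
(.lf (nat_lit 586627) (.g (nat_lit 3411) (.e (nat_lit 393271) (nat_lit 23) (.e (nat_lit 426436) (nat_lit 18) (.e (nat_lit 98335) (nat_lit 18) (.e (nat_lit 164330) (nat_lit 230) (.e (nat_lit 163905) (nat_lit 12) (.e (nat_lit 426567) (nat_lit 34) .nil)))))) (.g (nat_lit 1) (.e (nat_lit 389903) (nat_lit 0) .nil) .nil)))))) (.nd (nat_lit 7) (.nd (nat_lit 8) (.nd (nat_lit 9) 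
(.lf (nat_lit 585795) (.g (nat_lit 3337) (.e (nat_lit 393252) (nat_lit 18) (.e (nat_lit 164331) (nat_lit 230) (.e (nat_lit 163873) (nat_lit 3) (.e (nat_lit 204813) (nat_lit 9) (.e (nat_lit 426188) (nat_lit 9) (.e (nat_lit 426568) (nat_lit 34) .nil)))))) (.g (nat_lit 1) (.e (nat_lit 388906) (nat_lit 0) .nil) .nil))) 
(.lf (nat_lit 586307) (.g (nat_lit 3308) (.e (nat_lit 393254) (nat_lit 18) (.e (nat_lit 164326) (nat_lit 230) (.e (nat_lit 163871) (nat_lit 2) (.e (nat_lit 196656) (nat_lit 11) (.e (nat_lit 16436) (nat_lit 9) (.e (nat_lit 426566) (nat_lit 34) .nil)))))) (.g (nat_lit 1) (.e (nat_lit 389473) (nat_lit 0) .nil) .nil)))) (.nd (nat_lit 9) 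
(.lf (nat_lit 586051) (.g (nat_lit 1964) (.e (nat_lit 393253) (nat_lit 18) (.e (nat_lit 164327) (nat_lit 230) (.e (nat_lit 163870) (nat_lit 2) (.e (nat_lit 196628) (nat_lit 9) .nil)))) (.g (nat_lit 0) (.e (nat_lit 389195) (nat_lit 0) .nil) .nil))) 
(.lf (nat_lit 586563) (.g (nat_lit 3793) (.e (nat_lit 393270) (nat_lit 23) (.e (nat_lit 426436) (nat_lit 18) (.e (nat_lit 98335) (nat_lit 18) (.e (nat_lit 164327) (nat_lit 230) (.e (nat_lit 163903) (nat_lit 12) (.e (nat_lit 426566) (nat_lit 34) .nil)))))) (.g (nat_lit 1) (.e (nat_lit 389836) (nat_lit 0) .nil) .nil))))) (.nd (nat_lit 8) (.nd (nat_lit 9) 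
(.lf (nat_lit 585923) (.g (nat_lit 1542) (.e (nat_lit 393253) (nat_lit 18) (.e (nat_lit 164325) (nat_lit 230) (.e (nat_lit 163873) (nat_lit 3) (.e (nat_lit 204811) (nat_lit 9) (.e (nat_lit 426261) (nat_lit 9) (.e (nat_lit 433920) (nat_lit 34) .nil)))))) (.g (nat_lit 1) (.e (nat_lit 389062) (nat_lit 0) .nil) .nil))) 
(.lf (nat_lit 586435) (.g (nat_lit 3519) (.e (nat_lit 393254) (nat_lit 18) (.e (nat_lit 164332) (nat_lit 230) (.e (nat_lit 163873) (nat_lit 3) (.e (nat_lit 204813) (nat_lit 9) (.e (nat_lit 426200) (nat_lit 9) (.e (nat_lit 426566) (nat_lit 34) .nil)))))) (.g (nat_lit 1) (.e (nat_lit 389616) (nat_lit 0) .nil) .nil)))) (.nd (nat_lit 9) 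
(.lf (nat_lit 586179) (.g (nat_lit 2378) (.e (nat_lit 393253) (nat_lit 18) (.e (nat_lit 164403) (nat_lit 256) (.e (nat_lit 57378) (nat_lit 3) (.e (nat_lit 98358) (nat_lit 26) (.e (nat_lit 426226) (nat_lit 9) .nil))))) (.g (nat_lit 0) (.e (nat_lit 389339) (nat_lit 0) .nil) .nil))) 
(.lf (nat_lit 586691) (.g (nat_lit 4422) (.e (nat_lit 393273) (nat_lit 23) (.e (nat_lit 426436) (nat_lit 18) (.e (nat_lit 98335) (nat_lit 18) (.e (nat_lit 164314) (nat_lit 226) .nil)))) (.g (nat_lit 0) (.e (nat_lit 389968) (nat_lit 0) .nil) .nil))))))) (.nd (nat_lit 6) (.nd (nat_lit 7) (.nd (nat_lit 8) (.nd (nat_lit 9) 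
(.lf (nat_lit 585763) (.g (nat_lit 2639) (.e (nat_lit 393251) (nat_lit 18) (.e (nat_lit 164399) (nat_lit 256) (.e (nat_lit 57378) (nat_lit 3) (.e (nat_lit 98365) (nat_lit 26) (.e (nat_lit 426188) (nat_lit 9) (.e (nat_lit 426564) (nat_lit 34) .nil)))))) (.g (nat_lit 1) (.e (nat_lit 388866) (nat_lit 0) .nil) .nil))) 
(.lf (nat_lit 586275) (.g (nat_lit 1652) (.e (nat_lit 393254) (nat_lit 18) (.e (nat_lit 164326) (nat_lit 230) (.e (nat_lit 163870) (nat_lit 2) (.e (nat_lit 196622) (nat_lit 9) (.e (nat_lit 478) (nat_lit 37) (.e (nat_lit 474880) (nat_lit 18) .nil)))))) (.g (nat_lit 1) (.e (nat_lit 389441) (nat_lit 0) .nil) .nil)))) (.nd (nat_lit 9) 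
(.lf (nat_lit 586019) (.g (nat_lit 3064) (.e (nat_lit 393253) (nat_lit 18) (.e (nat_lit 164326) (nat_lit 230) (.e (nat_lit 163871) (nat_lit 2) (.e (nat_lit 196654) (nat_lit 11) (.e (nat_lit 16436) (nat_lit 9) (.e (nat_lit 426566) (nat_lit 34) .nil)))))) (.g (nat_lit 1) (.e (nat_lit 389161) (nat_lit 0) .nil) .nil))) 
(.lf (nat_lit 586531) (.g (nat_lit 3340) (.e (nat_lit 393269) (nat_lit 23) (.e (nat_lit 426436) (nat_lit 18) (.e (nat_lit 98335) (nat_lit 18) (.e (nat_lit 164324) (nat_lit 230) (.e (nat_lit 163903) (nat_lit 12) (.e (nat_lit 426567) (nat_lit 34) .nil)))))) (.g (nat_lit 1) (.e (nat_lit 389803) (nat_lit 0) .nil) .nil))))) (.nd (nat_lit 8) (.nd (nat_lit 9) 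
(.lf (nat_lit 585891) (.g (nat_lit 541) (.e (nat_lit 393253) (nat_lit 18) (.e (nat_lit 164324) (nat_lit 230) (.e (nat_lit 163874) (nat_lit 3) .nil))) (.g (nat_lit 0) (.e (nat_lit 389028) (nat_lit 0) .nil) .nil))) 
(.lf (nat_lit 586403) (.g (nat_lit 2515) (.e (nat_lit 393254) (nat_lit 18) (.e (nat_lit 164332) (nat_lit 230) (.e (nat_lit 163869) (nat_lit 2) (.e (nat_lit 196624) (nat_lit 9) (.e (nat_lit 459) (nat_lit 34) (.e (nat_lit 450304) (nat_lit 18) .nil)))))) (.g (nat_lit 1) (.e (nat_lit 389584) (nat_lit 0) .nil) .nil)))) (.nd (nat_lit 9) 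
(.lf (nat_lit 586147) (.g (nat_lit 2765) (.e (nat_lit 393253) (nat_lit 18) (.e (nat_lit 164332) (nat_lit 230) (.e (nat_lit 163869) (nat_lit 2) (.e (nat_lit 196624) (nat_lit 9) (.e (nat_lit 455) (nat_lit 34) (.e (nat_lit 450304) (nat_lit 18) .nil)))))) (.g (nat_lit 1) (.e (nat_lit 389293) (nat_lit 0) .nil) .nil))) 
(.lf (nat_lit 586659) (.g (nat_lit 3659) (.e (nat_lit 393272) (nat_lit 23) (.e (nat_lit 426436) (nat_lit 18) (.e (nat_lit 98334) (nat_lit 18) (.e (nat_lit 164330) (nat_lit 230) (.e (nat_lit 163902) (nat_lit 12) (.e (nat_lit 426566) (nat_lit 34) .nil)))))) (.g (nat_lit 1) (.e (nat_lit 389935) (nat_lit 0) .nil) .nil)))))) (.nd (nat_lit 7) (.nd (nat_lit 8) (.nd (nat_lit 9) 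
(.lf (nat_lit 585827) (.g (nat_lit 2213) (.e (nat_lit 393252) (nat_lit 18) (.e (nat_lit 164332) (nat_lit 230) (.e (nat_lit 163869) (nat_lit 2) (.e (nat_lit 196624) (nat_lit 9) (.e (nat_lit 479) (nat_lit 37) (.e (nat_lit 474880) (nat_lit 18) .nil)))))) (.g (nat_lit 1) (.e (nat_lit 388939) (nat_lit 0) .nil) .nil))) 
(.lf (nat_lit 586339) (.g (nat_lit 2293) (.e (nat_lit 393254) (nat_lit 18) (.e (nat_lit 164327) (nat_lit 230) (.e (nat_lit 163871) (nat_lit 2) (.e (nat_lit 196656) (nat_lit 11) (.e (nat_lit 16444) (nat_lit 9) .nil))))) (.g (nat_lit 0) (.e (nat_lit 389505) (nat_lit 0) .nil) .nil)))) (.nd (nat_lit 9) 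
(.lf (nat_lit 586083) (.g (nat_lit 1634) (.e (nat_lit 393253) (nat_lit 18) (.e (nat_lit 164327) (nat_lit 230) (.e (nat_lit 163875) (nat_lit 3) (.e (nat_lit 204809) (nat_lit 9) .nil)))) (.g (nat_lit 0) (.e (nat_lit 389227) (nat_lit 0) .nil) .nil))) 
(.lf (nat_lit 586595) (.g (nat_lit 2540) (.e (nat_lit 393271) (nat_lit 23) (.e (nat_lit 426131) (nat_lit 3) (.e (nat_lit 204829) (nat_lit 18) (.e (nat_lit 57655) (nat_lit 152) (.e (nat_lit 2632) (nat_lit 164) (.e (nat_lit 179968) (nat_lit 34) .nil)))))) (.g (nat_lit 1) (.e (nat_lit 389869) (nat_lit 0) .nil) .nil))))) (.nd (nat_lit 8) (.nd (nat_lit 9) 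
(.lf (nat_lit 585955) (.g (nat_lit 2225) (.e (nat_lit 393253) (nat_lit 18) (.e (nat_lit 164326) (nat_lit 230) (.e (nat_lit 163868) (nat_lit 2) (.e (nat_lit 196624) (nat_lit 9) (.e (nat_lit 459) (nat_lit 34) (.e (nat_lit 450304) (nat_lit 18) .nil)))))) (.g (nat_lit 1) (.e (nat_lit 389095) (nat_lit 0) .nil) .nil))) 
(.lf (nat_lit 586467) (.g (nat_lit 1402) (.e (nat_lit 393265) (nat_lit 22) (.e (nat_lit 417805) (nat_lit 2) (.e (nat_lit 32803) (nat_lit 16) (.e (nat_lit 24665) (nat_lit 14) (.e (nat_lit 409344) (nat_lit 34) .nil))))) (.g (nat_lit 1) (.e (nat_lit 389727) (nat_lit 0) .nil) .nil)))) (.nd (nat_lit 9) 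
(.lf (nat_lit 586211) (.g (nat_lit 1514) (.e (nat_lit 393254) (nat_lit 18) (.e (nat_lit 164324) (nat_lit 230) (.e (nat_lit 163873) (nat_lit 3) (.e (nat_lit 204811) (nat_lit 9) (.e (nat_lit 426262) (nat_lit 9) (.e (nat_lit 433920) (nat_lit 34) .nil)))))) (.g (nat_lit 1) (.e (nat_lit 389373) (nat_lit 0) .nil) .nil))) 
(.lf (nat_lit 586723) (.g (nat_lit 1579) (.e (nat_lit 393279) (nat_lit 23) (.e (nat_lit 426110) (nat_lit 1) (.e (nat_lit 164348) (nat_lit 240) (.e (nat_lit 2638) (nat_lit 165) (.e (nat_lit 188160) (nat_lit 32) (.e (nat_lit 1665) (nat_lit 115) .nil)))))) (.g (nat_lit 1) (.e (nat_lit 390025) (nat_lit 0) .nil) .nil)))))))) 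
(.nd (nat_lit 5) (.nd (nat_lit 6) (.nd (nat_lit 7) (.nd (nat_lit 8) (.nd (nat_lit 9) 
(.lf (nat_lit 585747) (.g (nat_lit 1340) (.e (nat_lit 393251) (nat_lit 18) (.e (nat_lit 164332) (nat_lit 230) (.e (nat_lit 163874) (nat_lit 3) (.e (nat_lit 204805) (nat_lit 0) .nil)))) (.g (nat_lit 0) (.e (nat_lit 388840) (nat_lit 0) .nil) .nil))) 
(.lf (nat_lit 586259) (.g (nat_lit 1338) (.e (nat_lit 393254) (nat_lit 18) (.e (nat_lit 164326) (nat_lit 230) (.e (nat_lit 163868) (nat_lit 2) (.e (nat_lit 196626) (nat_lit 9) .nil)))) (.g (nat_lit 0) (.e (nat_lit 389424) (nat_lit 0) .nil) .nil)))) (.nd (nat_lit 9) 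
(.lf (nat_lit 586003) (.g (nat_lit 2051) (.e (nat_lit 393253) (nat_lit 18) (.e (nat_lit 164326) (nat_lit 230) (.e (nat_lit 163871) (nat_lit 2) (.e (nat_lit 196622) (nat_lit 9) (.e (nat_lit 478) (nat_lit 37) (.e (nat_lit 474880) (nat_lit 18) .nil)))))) (.g (nat_lit 1) (.e (nat_lit 389144) (nat_lit 0) .nil) .nil))) 
(.lf (nat_lit 586515) (.g (nat_lit 4229) (.e (nat_lit 393268) (nat_lit 23) (.e (nat_lit 426438) (nat_lit 18) (.e (nat_lit 98334) (nat_lit 18) (.e (nat_lit 164330) (nat_lit 230) (.e (nat_lit 163902) (nat_lit 12) (.e (nat_lit 426567) (nat_lit 34) .nil)))))) (.g (nat_lit 1) (.e (nat_lit 389786) (nat_lit 0) .nil) .nil))))) (.nd (nat_lit 8) (.nd (nat_lit 9) 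
(.lf (nat_lit 585875) (.g (nat_lit 2432) (.e (nat_lit 393253) (nat_lit 18) (.e (nat_lit 164324) (nat_lit 230) (.e (nat_lit 163868) (nat_lit 2) (.e (nat_lit 196624) (nat_lit 9) (.e (nat_lit 454) (nat_lit 34) (.e (nat_lit 450304) (nat_lit 18) .nil)))))) (.g (nat_lit 1) (.e (nat_lit 389012) (nat_lit 0) .nil) .nil))) 
(.lf (nat_lit 586387) (.g (nat_lit 2850) (.e (nat_lit 393254) (nat_lit 18) (.e (nat_lit 164332) (nat_lit 230) (.e (nat_lit 163867) (nat_lit 2) (.e (nat_lit 196652) (nat_lit 11) (.e (nat_lit 16433) (nat_lit 9) .nil))))) (.g (nat_lit 0) (.e (nat_lit 389568) (nat_lit 0) .nil) .nil)))) (.nd (nat_lit 9) 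
(.lf (nat_lit 586131) (.g (nat_lit 2491) (.e (nat_lit 393253) (nat_lit 18) (.e (nat_lit 164332) (nat_lit 230) (.e (nat_lit 163867) (nat_lit 2) (.e (nat_lit 196624) (nat_lit 9) (.e (nat_lit 459) (nat_lit 34) (.e (nat_lit 450304) (nat_lit 18) .nil)))))) (.g (nat_lit 1) (.e (nat_lit 389277) (nat_lit 0) .nil) .nil))) 
(.lf (nat_lit 586643) (.g (nat_lit 2272) (.e (nat_lit 393272) (nat_lit 23) (.e (nat_lit 426131) (nat_lit 3) (.e (nat_lit 204829) (nat_lit 18) (.e (nat_lit 57655) (nat_lit 152) (.e (nat_lit 2633) (nat_lit 164) (.e (nat_lit 179968) (nat_lit 34) .nil)))))) (.g (nat_lit 1) (.e (nat_lit 389919) (nat_lit 0) .nil) .nil)))))) (.nd (nat_lit 7) (.nd (nat_lit 8) (.nd (nat_lit 9) 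
(.lf (nat_lit 585811) (.g (nat_lit 1964) (.e (nat_lit 393252) (nat_lit 18) (.e (nat_lit 164332) (nat_lit 230) (.e (nat_lit 163869) (nat_lit 2) (.e (nat_lit 196619) (nat_lit 9) .nil)))) (.g (nat_lit 0) (.e (nat_lit 388923) (nat_lit 0) .nil) .nil))) 
(.lf (nat_lit 586323) (.g (nat_lit 2235) (.e (nat_lit 393254) (nat_lit 18) (.e (nat_lit 164327) (nat_lit 230) (.e (nat_lit 163868) (nat_lit 2) (.e (nat_lit 196624) (nat_lit 9) (.e (nat_lit 454) (nat_lit 34) (.e (nat_lit 450304) (nat_lit 18) .nil)))))) (.g (nat_lit 1) (.e (nat_lit 389489) (nat_lit 0) .nil) .nil)))) (.nd (nat_lit 9) 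
(.lf (nat_lit 586067) (.g (nat_lit 2612) (.e (nat_lit 393253) (nat_lit 18) (.e (nat_lit 164327) (nat_lit 230) (.e (nat_lit 163871) (nat_lit 2) (.e (nat_lit 196656) (nat_lit 11) (.e (nat_lit 16444) (nat_lit 9) (.e (nat_lit 426565) (nat_lit 34) .nil)))))) (.g (nat_lit 1) (.e (nat_lit 389211) (nat_lit 0) .nil) .nil))) 
(.lf (nat_lit 586579) (.g (nat_lit 2779) (.e (nat_lit 393270) (nat_lit 23) (.e (nat_lit 426438) (nat_lit 18) (.e (nat_lit 98335) (nat_lit 18) (.e (nat_lit 164332) (nat_lit 230) (.e (nat_lit 163902) (nat_lit 12) (.e (nat_lit 426567) (nat_lit 34) .nil)))))) (.g (nat_lit 1) (.e (nat_lit 389852) (nat_lit 0) .nil) .nil))))) (.nd (nat_lit 8) (.nd (nat_lit 9) 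
(.lf (nat_lit 585939) (.g (nat_lit 2192) (.e (nat_lit 393253) (nat_lit 18) (.e (nat_lit 164326) (nat_lit 230) (.e (nat_lit 163865) (nat_lit 2) (.e (nat_lit 196654) (nat_lit 11) (.e (nat_lit 16433) (nat_lit 9) (.e (nat_lit 426566) (nat_lit 34) .nil)))))) (.g (nat_lit 1) (.e (nat_lit 389078) (nat_lit 0) .nil) .nil))) 
(.lf (nat_lit 586451) (.g (nat_lit 1606) (.e (nat_lit 401152) (nat_lit 18) (.e (nat_lit 164399) (nat_lit 256) (.e (nat_lit 57377) (nat_lit 3) (.e (nat_lit 98365) (nat_lit 26) (.e (nat_lit 426188) (nat_lit 9) .nil))))) (.g (nat_lit 0) (.e (nat_lit 389644) (nat_lit 0) .nil) .nil)))) (.nd (nat_lit 9) 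
(.lf (nat_lit 586195) (.g (nat_lit 3930) (.e (nat_lit 393254) (nat_lit 18) (.e (nat_lit 164322) (nat_lit 230) (.e (nat_lit 163873) (nat_lit 3) (.e (nat_lit 204813) (nat_lit 9) (.e (nat_lit 426197) (nat_lit 9) .nil))))) (.g (nat_lit 0) (.e (nat_lit 389357) (nat_lit 0) .nil) .nil))) 
(.lf (nat_lit 586707) (.g (nat_lit 1222) (.e (nat_lit 393275) (nat_lit 23) (.e (nat_lit 426396) (nat_lit 15) (.e (nat_lit 2059) (nat_lit 142) (.e (nat_lit 704596) (nat_lit 5) .nil)))) (.g (nat_lit 0) (.e (nat_lit 389995) (nat_lit 0) .nil) .nil))))))) (.nd (nat_lit 6) (.nd (nat_lit 7) (.nd (nat_lit 8) (.nd (nat_lit 9) 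
(.lf (nat_lit 585779) (.g (nat_lit 2401) (.e (nat_lit 393252) (nat_lit 18) (.e (nat_lit 164330) (nat_lit 230) (.e (nat_lit 163867) (nat_lit 2) (.e (nat_lit 196656) (nat_lit 11) (.e (nat_lit 16434) (nat_lit 9) .nil))))) (.g (nat_lit 0) (.e (nat_lit 388890) (nat_lit 0) .nil) .nil))) 
(.lf (nat_lit 586291) (.g (nat_lit 1969) (.e (nat_lit 393254) (nat_lit 18) (.e (nat_lit 164326) (nat_lit 230) (.e (nat_lit 163871) (nat_lit 2) (.e (nat_lit 196623) (nat_lit 9) (.e (nat_lit 457) (nat_lit 34) (.e (nat_lit 450304) (nat_lit 18) .nil)))))) (.g (nat_lit 1) (.e (nat_lit 389457) (nat_lit 0) .nil) .nil)))) (.nd (nat_lit 9) 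
(.lf (nat_lit 586035) (.g (nat_lit 1932) (.e (nat_lit 393253) (nat_lit 18) (.e (nat_lit 164326) (nat_lit 230) (.e (nat_lit 163875) (nat_lit 3) (.e (nat_lit 204811) (nat_lit 9) (.e (nat_lit 426261) (nat_lit 9) (.e (nat_lit 426565) (nat_lit 34) .nil)))))) (.g (nat_lit 1) (.e (nat_lit 389177) (nat_lit 0) .nil) .nil))) 
(.lf (nat_lit 586547) (.g (nat_lit 1981) (.e (nat_lit 393270) (nat_lit 23) (.e (nat_lit 426436) (nat_lit 18) (.e (nat_lit 98334) (nat_lit 18) (.e (nat_lit 164330) (nat_lit 230) (.e (nat_lit 163900) (nat_lit 12) (.e (nat_lit 426564) (nat_lit 34) .nil)))))) (.g (nat_lit 1) (.e (nat_lit 389820) (nat_lit 0) .nil) .nil))))) (.nd (nat_lit 8) (.nd (nat_lit 9) 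
(.lf (nat_lit 585907) (.g (nat_lit 1864) (.e (nat_lit 393253) (nat_lit 18) (.e (nat_lit 164325) (nat_lit 230) (.e (nat_lit 163868) (nat_lit 2) (.e (nat_lit 196624) (nat_lit 9) (.e (nat_lit 7936) (nat_lit 34) (.e (nat_lit 450304) (nat_lit 18) .nil)))))) (.g (nat_lit 1) (.e (nat_lit 389046) (nat_lit 0) .nil) .nil))) 
(.lf (nat_lit 586419) (.g (nat_lit 3655) (.e (nat_lit 393254) (nat_lit 18) (.e (nat_lit 164332) (nat_lit 230) (.e (nat_lit 163869) (nat_lit 2) (.e (nat_lit 196635) (nat_lit 9) .nil)))) (.g (nat_lit 0) (.e (nat_lit 389600) (nat_lit 0) .nil) .nil)))) (.nd (nat_lit 9) 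
(.lf (nat_lit 586163) (.g (nat_lit 1631) (.e (nat_lit 393253) (nat_lit 18) (.e (nat_lit 164332) (nat_lit 230) (.e (nat_lit 163873) (nat_lit 3) (.e (nat_lit 204811) (nat_lit 9) (.e (nat_lit 426262) (nat_lit 9) (.e (nat_lit 433920) (nat_lit 34) .nil)))))) (.g (nat_lit 1) (.e (nat_lit 389309) (nat_lit 0) .nil) .nil))) 
(.lf (nat_lit 586675) (.g (nat_lit 2029) (.e (nat_lit 393273) (nat_lit 23) (.e (nat_lit 426131) (nat_lit 3) (.e (nat_lit 204831) (nat_lit 18) (.e (nat_lit 57651) (nat_lit 152) (.e (nat_lit 2619) (nat_lit 164) (.e (nat_lit 179968) (nat_lit 34) .nil)))))) (.g (nat_lit 1) (.e (nat_lit 389951) (nat_lit 0) .nil) .nil)))))) (.nd (nat_lit 7) (.nd (nat_lit 8) (.nd (nat_lit 9) 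
(.lf (nat_lit 585843) (.g (nat_lit 2212) (.e (nat_lit 393252) (nat_lit 18) (.e (nat_lit 164332) (nat_lit 230) (.e (nat_lit 163874) (nat_lit 3) (.e (nat_lit 204811) (nat_lit 9) (.e (nat_lit 426234) (nat_lit 9) (.e (nat_lit 426565) (nat_lit 34) .nil)))))) (.g (nat_lit 1) (.e (nat_lit 388955) (nat_lit 0) .nil) .nil))) 
(.lf (nat_lit 586355) (.g (nat_lit 2229) (.e (nat_lit 393254) (nat_lit 18) (.e (nat_lit 164329) (nat_lit 230) (.e (nat_lit 163867) (nat_lit 2) (.e (nat_lit 196624) (nat_lit 9) (.e (nat_lit 459) (nat_lit 34) (.e (nat_lit 450304) (nat_lit 18) .nil)))))) (.g (nat_lit 1) (.e (nat_lit 389523) (nat_lit 0) .nil) .nil)))) (.nd (nat_lit 9) 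
(.lf (nat_lit 586099) (.g (nat_lit 2623) (.e (nat_lit 393253) (nat_lit 18) (.e (nat_lit 164329) (nat_lit 230) (.e (nat_lit 163869) (nat_lit 2) (.e (nat_lit 196654) (nat_lit 11) (.e (nat_lit 16433) (nat_lit 9) (.e (nat_lit 426566) (nat_lit 34) .nil)))))) (.g (nat_lit 1) (.e (nat_lit 389245) (nat_lit 0) .nil) .nil))) 
(.lf (nat_lit 586611) (.g (nat_lit 3872) (.e (nat_lit 393271) (nat_lit 23) (.e (nat_lit 426131) (nat_lit 3) (.e (nat_lit 204831) (nat_lit 18) (.e (nat_lit 57688) (nat_lit 156) (.e (nat_lit 163902) (nat_lit 12) (.e (nat_lit 426568) (nat_lit 34) .nil)))))) (.g (nat_lit 1) (.e (nat_lit 389885) (nat_lit 0) .nil) .nil))))) (.nd (nat_lit 8) (.nd (nat_lit 9) 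
(.lf (nat_lit 585971) (.g (nat_lit 2329) (.e (nat_lit 393253) (nat_lit 18) (.e (nat_lit 164326) (nat_lit 230) (.e (nat_lit 163868) (nat_lit 2) (.e (nat_lit 196632) (nat_lit 9) .nil)))) (.g (nat_lit 0) (.e (nat_lit 389111) (nat_lit 0) .nil) .nil))) 
(.lf (nat_lit 586483) (.g (nat_lit 1078) (.e (nat_lit 393268) (nat_lit 23) (.e (nat_lit 426428) (nat_lit 17) (.e (nat_lit 90134) (nat_lit 9) (.e (nat_lit 2612) (nat_lit 163) .nil)))) (.g (nat_lit 0) (.e (nat_lit 389754) (nat_lit 0) .nil) .nil)))) (.nd (nat_lit 9) 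
(.lf (nat_lit 586227) (.g (nat_lit 384) (.e (nat_lit 393254) (nat_lit 18) (.e (nat_lit 164325) (nat_lit 230) (.e (nat_lit 163873) (nat_lit 3) .nil))) (.g (nat_lit 0) (.e (nat_lit 389392) (nat_lit 0) .nil) .nil))) 
(.lf (nat_lit 586739) (.g (nat_lit 3311) (.e (nat_lit 393281) (nat_lit 23) (.e (nat_lit 426098) (nat_lit 1) (.e (nat_lit 164325) (nat_lit 230) (.e (nat_lit 163882) (nat_lit 4) (.e (nat_lit 213031) (nat_lit 11) (.e (nat_lit 24655) (nat_lit 13) .nil)))))) (.g (nat_lit 1) (.e (nat_lit 390046) (nat_lit 0) .nil) .nil))))))))) 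
(.nd (nat_lit 4) (.nd (nat_lit 5) (.nd (nat_lit 6) (.nd (nat_lit 7) (.nd (nat_lit 8) 
(.nd (nat_lit 9) 
(.lf (nat_lit 585739) (.g (nat_lit 2194) (.e (nat_lit 393251) (nat_lit 18) (.e (nat_lit 164332) (nat_lit 230) (.e (nat_lit 163869) (nat_lit 2) (.e (nat_lit 196628) (nat_lit 9) .nil)))) (.g (nat_lit 0) (.e (nat_lit 388832) (nat_lit 0) .nil) .nil))) 
(.lf (nat_lit 586251) (.g (nat_lit 2125) (.e (nat_lit 393254) (nat_lit 18) (.e (nat_lit 164326) (nat_lit 230) (.e (nat_lit 163868) (nat_lit 2) (.e (nat_lit 196624) (nat_lit 9) (.e (nat_lit 433) (nat_lit 32) (.e (nat_lit 426228) (nat_lit 9) (.e (nat_lit 426565) (nat_lit 34) .nil))))))) (.g (nat_lit 1) (.e (nat_lit 389416) (nat_lit 0) .nil) .nil)))) (.nd (nat_lit 9) 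
(.lf (nat_lit 585995) (.g (nat_lit 1536) (.e (nat_lit 393253) (nat_lit 18) (.e (nat_lit 164326) (nat_lit 230) (.e (nat_lit 163871) (nat_lit 2) (.e (nat_lit 196617) (nat_lit 9) .nil)))) (.g (nat_lit 0) (.e (nat_lit 389136) (nat_lit 0) .nil) .nil))) 
(.lf (nat_lit 586507) (.g (nat_lit 3489) (.e (nat_lit 393268) (nat_lit 23) (.e (nat_lit 426436) (nat_lit 18) (.e (nat_lit 98335) (nat_lit 18) (.e (nat_lit 164332) (nat_lit 230) (.e (nat_lit 163905) (nat_lit 12) (.e (nat_lit 426568) (nat_lit 34) .nil)))))) (.g (nat_lit 1) (.e (nat_lit 389778) (nat_lit 0) .nil) .nil))))) (.nd (nat_lit 8) (.nd (nat_lit 9) 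
(.lf (nat_lit 585867) (.g (nat_lit 2591) (.e (nat_lit 393253) (nat_lit 18) (.e (nat_lit 164179) (nat_lit 154) (.e (nat_lit 57412) (nat_lit 12) (.e (nat_lit 336295) (nat_lit 15) (.e (nat_lit 3253) (nat_lit 197) (.e (nat_lit 532533) (nat_lit 9) (.e (nat_lit 336211) (nat_lit 13) .nil))))))) (.g (nat_lit 1) (.e (nat_lit 389000) (nat_lit 0) .nil) .nil))) 
(.lf (nat_lit 586379) (.g (nat_lit 1733) (.e (nat_lit 393254) (nat_lit 18) (.e (nat_lit 164332) (nat_lit 230) (.e (nat_lit 163867) (nat_lit 2) (.e (nat_lit 196624) (nat_lit 9) (.e (nat_lit 433) (nat_lit 32) .nil))))) (.g (nat_lit 0) (.e (nat_lit 389560) (nat_lit 0) .nil) .nil)))) (.nd (nat_lit 9) 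
(.lf (nat_lit 586123) (.g (nat_lit 1362) (.e (nat_lit 393253) (nat_lit 18) (.e (nat_lit 164331) (nat_lit 230) (.e (nat_lit 163873) (nat_lit 3) (.e (nat_lit 204808) (nat_lit 9) .nil)))) (.g (nat_lit 0) (.e (nat_lit 389269) (nat_lit 0) .nil) .nil))) 
(.lf (nat_lit 586635) (.g (nat_lit 3043) (.e (nat_lit 393271) (nat_lit 23) (.e (nat_lit 426438) (nat_lit 18) (.e (nat_lit 98335) (nat_lit 18) (.e (nat_lit 164325) (nat_lit 230) (.e (nat_lit 163907) (nat_lit 12) (.e (nat_lit 426566) (nat_lit 34) .nil)))))) (.g (nat_lit 1) (.e (nat_lit 389911) (nat_lit 0) .nil) .nil)))))) (.nd (nat_lit 7) (.nd (nat_lit 8) (.nd (nat_lit 9) 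
(.lf (nat_lit 585803) (.g (nat_lit 1898) (.e (nat_lit 393252) (nat_lit 18) (.e (nat_lit 164332) (nat_lit 230) (.e (nat_lit 163867) (nat_lit 2) (.e (nat_lit 196624) (nat_lit 9) (.e (nat_lit 454) (nat_lit 34) (.e (nat_lit 450304) (nat_lit 18) .nil)))))) (.g (nat_lit 1) (.e (nat_lit 388914) (nat_lit 0) .nil) .nil))) 
(.lf (nat_lit 586315) (.g (nat_lit 3425) (.e (nat_lit 393254) (nat_lit 18) (.e (nat_lit 164326) (nat_lit 230) (.e (nat_lit 163873) (nat_lit 3) (.e (nat_lit 204813) (nat_lit 9) (.e (nat_lit 426200) (nat_lit 9) (.e (nat_lit 426566) (nat_lit 34) .nil)))))) (.g (nat_lit 1) (.e (nat_lit 389481) (nat_lit 0) .nil) .nil)))) (.nd (nat_lit 9) 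
(.lf (nat_lit 586059) (.g (nat_lit 2968) (.e (nat_lit 393253) (nat_lit 18) (.e (nat_lit 164327) (nat_lit 230) (.e (nat_lit 163871) (nat_lit 2) (.e (nat_lit 196624) (nat_lit 9) (.e (nat_lit 459) (nat_lit 34) (.e (nat_lit 450304) (nat_lit 18) .nil)))))) (.g (nat_lit 1) (.e (nat_lit 389203) (nat_lit 0) .nil) .nil))) 
(.lf (nat_lit 586571) (.g (nat_lit 3385) (.e (nat_lit 393270) (nat_lit 23) (.e (nat_lit 426438) (nat_lit 18) (.e (nat_lit 98333) (nat_lit 18) (.e (nat_lit 164325) (nat_lit 230) (.e (nat_lit 163907) (nat_lit 12) (.e (nat_lit 426566) (nat_lit 34) .nil)))))) (.g (nat_lit 1) (.e (nat_lit 389844) (nat_lit 0) .nil) .nil))))) (.nd (nat_lit 8) (.nd (nat_lit 9) 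
(.lf (nat_lit 585931) (.g (nat_lit 1542) (.e (nat_lit 393253) (nat_lit 18) (.e (nat_lit 164325) (nat_lit 230) (.e (nat_lit 163874) (nat_lit 3) (.e (nat_lit 204811) (nat_lit 9) (.e (nat_lit 426262) (nat_lit 9) .nil))))) (.g (nat_lit 0) (.e (nat_lit 389070) (nat_lit 0) .nil) .nil))) 
(.lf (nat_lit 586443) (.g (nat_lit 1110) (.e (nat_lit 393254) (nat_lit 18) (.e (nat_lit 164345) (nat_lit 240) (.e (nat_lit 2601) (nat_lit 163) (.e (nat_lit 163959) (nat_lit 24) (.e (nat_lit 524319) (nat_lit 11) (.e (nat_lit 450304) (nat_lit 18) .nil)))))) (.g (nat_lit 1) (.e (nat_lit 389625) (nat_lit 0) .nil) .nil)))) (.nd (nat_lit 9) 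
(.lf (nat_lit 586187) (.g (nat_lit 1343) (.e (nat_lit 393254) (nat_lit 18) (.e (nat_lit 164322) (nat_lit 230) (.e (nat_lit 163868) (nat_lit 2) (.e (nat_lit 196624) (nat_lit 9) .nil)))) (.g (nat_lit 0) (.e (nat_lit 389349) (nat_lit 0) .nil) .nil))) 
(.lf (nat_lit 586699) (.g (nat_lit 1402) (.e (nat_lit 393274) (nat_lit 23) (.e (nat_lit 426097) (nat_lit 1) (.e (nat_lit 164327) (nat_lit 230) (.e (nat_lit 163879) (nat_lit 4) (.e (nat_lit 213032) (nat_lit 11) .nil))))) (.g (nat_lit 0) (.e (nat_lit 389977) (nat_lit 0) .nil) .nil))))))) (.nd (nat_lit 6) (.nd (nat_lit 7) (.nd (nat_lit 8) (.nd (nat_lit 9) 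
(.lf (nat_lit 585771) (.g (nat_lit 1888) (.e (nat_lit 393252) (nat_lit 18) (.e (nat_lit 164329) (nat_lit 230) (.e (nat_lit 163867) (nat_lit 2) (.e (nat_lit 196628) (nat_lit 9) (.e (nat_lit 397) (nat_lit 32) .nil))))) (.g (nat_lit 0) (.e (nat_lit 388882) (nat_lit 0) .nil) .nil))) 
(.lf (nat_lit 586283) (.g (nat_lit 1605) (.e (nat_lit 393254) (nat_lit 18) (.e (nat_lit 164326) (nat_lit 230) (.e (nat_lit 163870) (nat_lit 2) (.e (nat_lit 196637) (nat_lit 9) .nil)))) (.g (nat_lit 0) (.e (nat_lit 389449) (nat_lit 0) .nil) .nil)))) (.nd (nat_lit 9) 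
(.lf (nat_lit 586027) (.g (nat_lit 1667) (.e (nat_lit 393253) (nat_lit 18) (.e (nat_lit 164326) (nat_lit 230) (.e (nat_lit 163874) (nat_lit 3) (.e (nat_lit 204811) (nat_lit 9) .nil)))) (.g (nat_lit 0) (.e (nat_lit 389169) (nat_lit 0) .nil) .nil))) 
(.lf (nat_lit 586539) (.g (nat_lit 2893) (.e (nat_lit 393270) (nat_lit 23) (.e (nat_lit 426436) (nat_lit 18) (.e (nat_lit 98333) (nat_lit 18) (.e (nat_lit 164325) (nat_lit 230) (.e (nat_lit 163907) (nat_lit 12) (.e (nat_lit 426567) (nat_lit 34) .nil)))))) (.g (nat_lit 1) (.e (nat_lit 389812) (nat_lit 0) .nil) .nil))))) (.nd (nat_lit 8) (.nd (nat_lit 9) 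
(.lf (nat_lit 585899) (.g (nat_lit 1882) (.e (nat_lit 393253) (nat_lit 18) (.e (nat_lit 164325) (nat_lit 230) (.e (nat_lit 163868) (nat_lit 2) (.e (nat_lit 196624) (nat_lit 9) (.e (nat_lit 391) (nat_lit 32) .nil))))) (.g (nat_lit 0) (.e (nat_lit 389038) (nat_lit 0) .nil) .nil))) 
(.lf (nat_lit 586411) (.g (nat_lit 1817) (.e (nat_lit 393254) (nat_lit 18) (.e (nat_lit 164332) (nat_lit 230) (.e (nat_lit 163869) (nat_lit 2) (.e (nat_lit 196628) (nat_lit 9) (.e (nat_lit 458) (nat_lit 34) (.e (nat_lit 450304) (nat_lit 18) .nil)))))) (.g (nat_lit 1) (.e (nat_lit 389592) (nat_lit 0) .nil) .nil)))) (.nd (nat_lit 9) 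
(.lf (nat_lit 586155) (.g (nat_lit 2536) (.e (nat_lit 393253) (nat_lit 18) (.e (nat_lit 164332) (nat_lit 230) (.e (nat_lit 163869) (nat_lit 2) (.e (nat_lit 196630) (nat_lit 9) (.e (nat_lit 396) (nat_lit 32) .nil))))) (.g (nat_lit 0) (.e (nat_lit 389301) (nat_lit 0) .nil) .nil))) 
(.lf (nat_lit 586667) (.g (nat_lit 2184) (.e (nat_lit 393273) (nat_lit 23) (.e (nat_lit 426131) (nat_lit 3) (.e (nat_lit 204829) (nat_lit 18) (.e (nat_lit 57651) (nat_lit 152) .nil)))) (.g (nat_lit 0) (.e (nat_lit 389943) (nat_lit 0) .nil) .nil)))))) (.nd (nat_lit 7) (.nd (nat_lit 8) (.nd (nat_lit 9) 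
(.lf (nat_lit 585835) (.g (nat_lit 812) (.e (nat_lit 393252) (nat_lit 18) (.e (nat_lit 164332) (nat_lit 230) (.e (nat_lit 163873) (nat_lit 3) (.e (nat_lit 204811) (nat_lit 9) .nil)))) (.g (nat_lit 0) (.e (nat_lit 388947) (nat_lit 0) .nil) .nil))) 
(.lf (nat_lit 586347) (.g (nat_lit 3849) (.e (nat_lit 393254) (nat_lit 18) (.e (nat_lit 164327) (nat_lit 230) (.e (nat_lit 163873) (nat_lit 3) (.e (nat_lit 204813) (nat_lit 9) (.e (nat_lit 426200) (nat_lit 9) (.e (nat_lit 426566) (nat_lit 34) .nil)))))) (.g (nat_lit 1) (.e (nat_lit 389513) (nat_lit 0) .nil) .nil)))) (.nd (nat_lit 9) 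
(.lf (nat_lit 586091) (.g (nat_lit 2402) (.e (nat_lit 393253) (nat_lit 18) (.e (nat_lit 164329) (nat_lit 230) (.e (nat_lit 163867) (nat_lit 2) (.e (nat_lit 196624) (nat_lit 9) (.e (nat_lit 454) (nat_lit 34) (.e (nat_lit 450304) (nat_lit 18) .nil)))))) (.g (nat_lit 1) (.e (nat_lit 389237) (nat_lit 0) .nil) .nil))) 
(.lf (nat_lit 586603) (.g (nat_lit 2794) (.e (nat_lit 393271) (nat_lit 23) (.e (nat_lit 426131) (nat_lit 3) (.e (nat_lit 204830) (nat_lit 18) (.e (nat_lit 57651) (nat_lit 152) (.e (nat_lit 2619) (nat_lit 164) (.e (nat_lit 179968) (nat_lit 34) .nil)))))) (.g (nat_lit 1) (.e (nat_lit 389877) (nat_lit 0) .nil) .nil))))) (.nd (nat_lit 8) (.nd (nat_lit 9) 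
(.lf (nat_lit 585963) (.g (nat_lit 2007) (.e (nat_lit 393253) (nat_lit 18) (.e (nat_lit 164326) (nat_lit 230) (.e (nat_lit 163868) (nat_lit 2) (.e (nat_lit 196629) (nat_lit 9) .nil)))) (.g (nat_lit 0) (.e (nat_lit 389103) (nat_lit 0) .nil) .nil))) 
(.lf (nat_lit 586475) (.g (nat_lit 819) (.e (nat_lit 393266) (nat_lit 23) (.e (nat_lit 426109) (nat_lit 1) (.e (nat_lit 164347) (nat_lit 240) (.e (nat_lit 2639) (nat_lit 165) .nil)))) (.g (nat_lit 0) (.e (nat_lit 389739) (nat_lit 0) .nil) .nil)))) (.nd (nat_lit 9) 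
(.lf (nat_lit 586219) (.g (nat_lit 2207) (.e (nat_lit 393254) (nat_lit 18) (.e (nat_lit 164325) (nat_lit 230) (.e (nat_lit 163868) (nat_lit 2) (.e (nat_lit 196624) (nat_lit 9) (.e (nat_lit 459) (nat_lit 34) (.e (nat_lit 450304) (nat_lit 18) .nil)))))) (.g (nat_lit 1) (.e (nat_lit 389384) (nat_lit 0) .nil) .nil))) 
(.lf (nat_lit 586731) (.g (nat_lit 1022) (.e (nat_lit 393280) (nat_lit 23) (.e (nat_lit 426108) (nat_lit 1) (.e (nat_lit 164345) (nat_lit 240) .nil))) (.g (nat_lit 0) (.e (nat_lit 390035) (nat_lit 0) .nil) .nil)))))))) (.nd (nat_lit 5) (.nd (nat_lit 6) (.nd (nat_lit 7) (.nd (nat_lit 8) (.nd (nat_lit 9) 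
(.lf (nat_lit 585755) (.g (nat_lit 434) (.e (nat_lit 393251) (nat_lit 18) (.e (nat_lit 164398) (nat_lit 256) (.e (nat_lit 57370) (nat_lit 2) .nil))) (.g (nat_lit 0) (.e (nat_lit 388849) (nat_lit 0) .nil) .nil))) 
(.lf (nat_lit 586267) (.g (nat_lit 2148) (.e (nat_lit 393254) (nat_lit 18) (.e (nat_lit 164326) (nat_lit 230) (.e (nat_lit 163868) (nat_lit 2) (.e (nat_lit 196636) (nat_lit 9) .nil)))) (.g (nat_lit 0) (.e (nat_lit 389432) (nat_lit 0) .nil) .nil)))) (.nd (nat_lit 9) 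
(.lf (nat_lit 586011) (.g (nat_lit 2202) (.e (nat_lit 393253) (nat_lit 18) (.e (nat_lit 164326) (nat_lit 230) (.e (nat_lit 163871) (nat_lit 2) (.e (nat_lit 196624) (nat_lit 9) (.e (nat_lit 459) (nat_lit 34) (.e (nat_lit 450304) (nat_lit 18) .nil)))))) (.g (nat_lit 1) (.e (nat_lit 389152) (nat_lit 0) .nil) .nil))) 
(.lf (nat_lit 586523) (.g (nat_lit 2350) (.e (nat_lit 393268) (nat_lit 23) (.e (nat_lit 426438) (nat_lit 18) (.e (nat_lit 98335) (nat_lit 18) (.e (nat_lit 164327) (nat_lit 230) (.e (nat_lit 163904) (nat_lit 12) (.e (nat_lit 426566) (nat_lit 34) .nil)))))) (.g (nat_lit 1) (.e (nat_lit 389794) (nat_lit 0) .nil) .nil))))) (.nd (nat_lit 8) (.nd (nat_lit 9) 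
(.lf (nat_lit 585883) (.g (nat_lit 541) (.e (nat_lit 393253) (nat_lit 18) (.e (nat_lit 164324) (nat_lit 230) (.e (nat_lit 163871) (nat_lit 2) .nil))) (.g (nat_lit 0) (.e (nat_lit 389020) (nat_lit 0) .nil) .nil))) 
(.lf (nat_lit 586395) (.g (nat_lit 3634) (.e (nat_lit 393254) (nat_lit 18) (.e (nat_lit 164332) (nat_lit 230) (.e (nat_lit 163869) (nat_lit 2) (.e (nat_lit 196621) (nat_lit 9) .nil)))) (.g (nat_lit 0) (.e (nat_lit 389576) (nat_lit 0) .nil) .nil)))) (.nd (nat_lit 9) 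
(.lf (nat_lit 586139) (.g (nat_lit 2479) (.e (nat_lit 393253) (nat_lit 18) (.e (nat_lit 164332) (nat_lit 230) (.e (nat_lit 163869) (nat_lit 2) (.e (nat_lit 196621) (nat_lit 9) .nil)))) (.g (nat_lit 0) (.e (nat_lit 389285) (nat_lit 0) .nil) .nil))) 
(.lf (nat_lit 586651) (.g (nat_lit 3059) (.e (nat_lit 393272) (nat_lit 23) (.e (nat_lit 426434) (nat_lit 18) (.e (nat_lit 98333) (nat_lit 18) (.e (nat_lit 164327) (nat_lit 230) (.e (nat_lit 163903) (nat_lit 12) (.e (nat_lit 426566) (nat_lit 34) .nil)))))) (.g (nat_lit 1) (.e (nat_lit 389927) (nat_lit 0) .nil) .nil)))))) (.nd (nat_lit 7) (.nd (nat_lit 8) (.nd (nat_lit 9) 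
(.lf (nat_lit 585819) (.g (nat_lit 2129) (.e (nat_lit 393252) (nat_lit 18) (.e (nat_lit 164332) (nat_lit 230) (.e (nat_lit 163869) (nat_lit 2) (.e (nat_lit 196624) (nat_lit 9) (.e (nat_lit 416) (nat_lit 32) .nil))))) (.g (nat_lit 0) (.e (nat_lit 388931) (nat_lit 0) .nil) .nil))) 
(.lf (nat_lit 586331) (.g (nat_lit 1629) (.e (nat_lit 393254) (nat_lit 18) (.e (nat_lit 164327) (nat_lit 230) (.e (nat_lit 163868) (nat_lit 2) (.e (nat_lit 196656) (nat_lit 11) (.e (nat_lit 16444) (nat_lit 9) .nil))))) (.g (nat_lit 0) (.e (nat_lit 389497) (nat_lit 0) .nil) .nil)))) (.nd (nat_lit 9) 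
(.lf (nat_lit 586075) (.g (nat_lit 4531) (.e (nat_lit 393253) (nat_lit 18) (.e (nat_lit 164327) (nat_lit 230) (.e (nat_lit 163873) (nat_lit 3) (.e (nat_lit 204813) (nat_lit 9) (.e (nat_lit 426185) (nat_lit 9) (.e (nat_lit 426566) (nat_lit 34) .nil)))))) (.g (nat_lit 1) (.e (nat_lit 389219) (nat_lit 0) .nil) .nil))) 
(.lf (nat_lit 586587) (.g (nat_lit 3171) (.e (nat_lit 393271) (nat_lit 23) (.e (nat_lit 426112) (nat_lit 1) (.e (nat_lit 164327) (nat_lit 230) (.e (nat_lit 163881) (nat_lit 4) (.e (nat_lit 213032) (nat_lit 11) (.e (nat_lit 24657) (nat_lit 13) .nil)))))) (.g (nat_lit 1) (.e (nat_lit 389860) (nat_lit 0) .nil) .nil))))) (.nd (nat_lit 8) (.nd (nat_lit 9) 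
(.lf (nat_lit 585947) (.g (nat_lit 1495) (.e (nat_lit 393253) (nat_lit 18) (.e (nat_lit 164326) (nat_lit 230) (.e (nat_lit 163868) (nat_lit 2) (.e (nat_lit 196622) (nat_lit 9) (.e (nat_lit 478) (nat_lit 37) (.e (nat_lit 474880) (nat_lit 18) .nil)))))) (.g (nat_lit 1) (.e (nat_lit 389087) (nat_lit 0) .nil) .nil))) 
(.lf (nat_lit 586459) (.g (nat_lit 525) (.e (nat_lit 393260) (nat_lit 21) (.e (nat_lit 409616) (nat_lit 10) (.e (nat_lit 595) (nat_lit 45) .nil))) (.g (nat_lit 0) (.e (nat_lit 389709) (nat_lit 0) .nil) .nil)))) (.nd (nat_lit 9) 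
(.lf (nat_lit 586203) (.g (nat_lit 2187) (.e (nat_lit 393254) (nat_lit 18) (.e (nat_lit 164324) (nat_lit 230) (.e (nat_lit 163868) (nat_lit 2) (.e (nat_lit 196624) (nat_lit 9) (.e (nat_lit 457) (nat_lit 34) (.e (nat_lit 450304) (nat_lit 18) .nil)))))) (.g (nat_lit 1) (.e (nat_lit 389365) (nat_lit 0) .nil) .nil))) 
(.lf (nat_lit 586715) (.g (nat_lit 1062) (.e (nat_lit 393278) (nat_lit 23) (.e (nat_lit 426109) (nat_lit 1) (.e (nat_lit 164326) (nat_lit 230) (.e (nat_lit 163882) (nat_lit 4) .nil)))) (.g (nat_lit 0) (.e (nat_lit 390014) (nat_lit 0) .nil) .nil))))))) (.nd (nat_lit 6) (.nd (nat_lit 7) (.nd (nat_lit 8) (.nd (nat_lit 9) 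
(.lf (nat_lit 585787) (.g (nat_lit 1102) (.e (nat_lit 393252) (nat_lit 18) (.e (nat_lit 164330) (nat_lit 230) (.e (nat_lit 163873) (nat_lit 3) (.e (nat_lit 204811) (nat_lit 9) (.e (nat_lit 426258) (nat_lit 9) .nil))))) (.g (nat_lit 0) (.e (nat_lit 388898) (nat_lit 0) .nil) .nil))) 
(.lf (nat_lit 586299) (.g (nat_lit 2022) (.e (nat_lit 393254) (nat_lit 18) (.e (nat_lit 164326) (nat_lit 230) (.e (nat_lit 163871) (nat_lit 2) (.e (nat_lit 196624) (nat_lit 9) (.e (nat_lit 479) (nat_lit 37) (.e (nat_lit 474880) (nat_lit 18) .nil)))))) (.g (nat_lit 1) (.e (nat_lit 389465) (nat_lit 0) .nil) .nil)))) (.nd (nat_lit 9) 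
(.lf (nat_lit 586043) (.g (nat_lit 2423) (.e (nat_lit 393253) (nat_lit 18) (.e (nat_lit 164327) (nat_lit 230) (.e (nat_lit 163868) (nat_lit 2) (.e (nat_lit 196624) (nat_lit 9) (.e (nat_lit 7936) (nat_lit 34) (.e (nat_lit 450304) (nat_lit 18) .nil)))))) (.g (nat_lit 1) (.e (nat_lit 389187) (nat_lit 0) .nil) .nil))) 
(.lf (nat_lit 586555) (.g (nat_lit 4249) (.e (nat_lit 393270) (nat_lit 23) (.e (nat_lit 426436) (nat_lit 18) (.e (nat_lit 98335) (nat_lit 18) (.e (nat_lit 164314) (nat_lit 226) .nil)))) (.g (nat_lit 0) (.e (nat_lit 389828) (nat_lit 0) .nil) .nil))))) (.nd (nat_lit 8) (.nd (nat_lit 9) 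
(.lf (nat_lit 585915) (.g (nat_lit 1908) (.e (nat_lit 393253) (nat_lit 18) (.e (nat_lit 164325) (nat_lit 230) (.e (nat_lit 163871) (nat_lit 2) (.e (nat_lit 196624) (nat_lit 9) (.e (nat_lit 454) (nat_lit 34) (.e (nat_lit 450304) (nat_lit 18) .nil)))))) (.g (nat_lit 1) (.e (nat_lit 389054) (nat_lit 0) .nil) .nil))) 
(.lf (nat_lit 586427) (.g (nat_lit 3702) (.e (nat_lit 393254) (nat_lit 18) (.e (nat_lit 164332) (nat_lit 230) (.e (nat_lit 163869) (nat_lit 2) (.e (nat_lit 196656) (nat_lit 11) (.e (nat_lit 16433) (nat_lit 9) (.e (nat_lit 426566) (nat_lit 34) .nil)))))) (.g (nat_lit 1) (.e (nat_lit 389608) (nat_lit 0) .nil) .nil)))) (.nd (nat_lit 9) 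
(.lf (nat_lit 586171) (.g (nat_lit 2377) (.e (nat_lit 393253) (nat_lit 18) (.e (nat_lit 164347) (nat_lit 240) (.e (nat_lit 2610) (nat_lit 163) (.e (nat_lit 163959) (nat_lit 24) (.e (nat_lit 524319) (nat_lit 11) (.e (nat_lit 450304) (nat_lit 18) .nil)))))) (.g (nat_lit 1) (.e (nat_lit 389317) (nat_lit 0) .nil) .nil))) 
(.lf (nat_lit 586683) (.g (nat_lit 3205) (.e (nat_lit 393273) (nat_lit 23) (.e (nat_lit 426436) (nat_lit 18) (.e (nat_lit 98333) (nat_lit 18) (.e (nat_lit 164330) (nat_lit 230) (.e (nat_lit 163902) (nat_lit 12) (.e (nat_lit 426566) (nat_lit 34) .nil)))))) (.g (nat_lit 1) (.e (nat_lit 389960) (nat_lit 0) .nil) .nil)))))) (.nd (nat_lit 7) (.nd (nat_lit 8) (.nd (nat_lit 9) 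
(.lf (nat_lit 585851) (.g (nat_lit 1505) (.e (nat_lit 393252) (nat_lit 18) (.e (nat_lit 164398) (nat_lit 256) (.e (nat_lit 57377) (nat_lit 3) (.e (nat_lit 98365) (nat_lit 26) (.e (nat_lit 426188) (nat_lit 9) .nil))))) (.g (nat_lit 0) (.e (nat_lit 388963) (nat_lit 0) .nil) .nil))) 
(.lf (nat_lit 586363) (.g (nat_lit 3370) (.e (nat_lit 393254) (nat_lit 18) (.e (nat_lit 164329) (nat_lit 230) (.e (nat_lit 163873) (nat_lit 3) (.e (nat_lit 204813) (nat_lit 9) (.e (nat_lit 426188) (nat_lit 9) (.e (nat_lit 426566) (nat_lit 34) .nil)))))) (.g (nat_lit 1) (.e (nat_lit 389531) (nat_lit 0) .nil) .nil)))) (.nd (nat_lit 9) 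
(.lf (nat_lit 586107) (.g (nat_lit 1326) (.e (nat_lit 393253) (nat_lit 18) (.e (nat_lit 164330) (nat_lit 230) (.e (nat_lit 163867) (nat_lit 2) (.e (nat_lit 196624) (nat_lit 9) .nil)))) (.g (nat_lit 0) (.e (nat_lit 389253) (nat_lit 0) .nil) .nil))) 
(.lf (nat_lit 586619) (.g (nat_lit 3606) (.e (nat_lit 393271) (nat_lit 23) (.e (nat_lit 426436) (nat_lit 18) (.e (nat_lit 98334) (nat_lit 18) (.e (nat_lit 164330) (nat_lit 230) (.e (nat_lit 163904) (nat_lit 12) (.e (nat_lit 426566) (nat_lit 34) .nil)))))) (.g (nat_lit 1) (.e (nat_lit 389895) (nat_lit 0) .nil) .nil))))) (.nd (nat_lit 8) (.nd (nat_lit 9) 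
(.lf (nat_lit 585979) (.g (nat_lit 3186) (.e (nat_lit 393253) (nat_lit 18) (.e (nat_lit 164326) (nat_lit 230) (.e (nat_lit 163868) (nat_lit 2) (.e (nat_lit 196656) (nat_lit 11) (.e (nat_lit 16433) (nat_lit 9) (.e (nat_lit 426566) (nat_lit 34) .nil)))))) (.g (nat_lit 1) (.e (nat_lit 389120) (nat_lit 0) .nil) .nil))) 
(.lf (nat_lit 586491) (.g (nat_lit 3412) (.e (nat_lit 393268) (nat_lit 23) (.e (nat_lit 426436) (nat_lit 18) (.e (nat_lit 98333) (nat_lit 18) (.e (nat_lit 164332) (nat_lit 230) (.e (nat_lit 163902) (nat_lit 12) (.e (nat_lit 426566) (nat_lit 34) .nil)))))) (.g (nat_lit 1) (.e (nat_lit 389762) (nat_lit 0) .nil) .nil)))) (.nd (nat_lit 9) 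
(.lf (nat_lit 586235) (.g (nat_lit 1465) (.e (nat_lit 393254) (nat_lit 18) (.e (nat_lit 164325) (nat_lit 230) (.e (nat_lit 163874) (nat_lit 3) (.e (nat_lit 204811) (nat_lit 9) .nil)))) (.g (nat_lit 0) (.e (nat_lit 389400) (nat_lit 0) .nil) .nil))) 
(.lf (nat_lit 586747) (.g (nat_lit 2511) (.e (nat_lit 393281) (nat_lit 23) (.e (nat_lit 426098) (nat_lit 1) (.e (nat_lit 164327) (nat_lit 230) (.e (nat_lit 163882) (nat_lit 4) (.e (nat_lit 213032) (nat_lit 11) (.e (nat_lit 24656) (nat_lit 13) .nil)))))) (.g (nat_lit 1) (.e (nat_lit 390054) (nat_lit 0) .nil) .nil)))))))))) 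
(.nd (nat_lit 3) (.nd (nat_lit 4) (.nd (nat_lit 5) (.nd (nat_lit 6) (.nd (nat_lit 7) 
(.nd (nat_lit 8) (.nd (nat_lit 9) 
(.lf (nat_lit 585735) (.g (nat_lit 2328) (.e (nat_lit 393251) (nat_lit 18) (.e (nat_lit 164332) (nat_lit 230) (.e (nat_lit 163869) (nat_lit 2) (.e (nat_lit 196624) (nat_lit 9) (.e (nat_lit 457) (nat_lit 34) (.e (nat_lit 450304) (nat_lit 18) .nil)))))) (.g (nat_lit 1) (.e (nat_lit 388828) (nat_lit 0) .nil) .nil))) 
(.lf (nat_lit 586247) (.g (nat_lit 2269) (.e (nat_lit 393254) (nat_lit 18) (.e (nat_lit 164326) (nat_lit 230) (.e (nat_lit 163868) (nat_lit 2) (.e (nat_lit 196621) (nat_lit 9) .nil)))) (.g (nat_lit 0) (.e (nat_lit 389412) (nat_lit 0) .nil) .nil)))) (.nd (nat_lit 9) 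
(.lf (nat_lit 585991) (.g (nat_lit 1798) (.e (nat_lit 393253) (nat_lit 18) (.e (nat_lit 164326) (nat_lit 230) (.e (nat_lit 163870) (nat_lit 2) (.e (nat_lit 196630) (nat_lit 9) (.e (nat_lit 428) (nat_lit 32) .nil))))) (.g (nat_lit 0) (.e (nat_lit 389132) (nat_lit 0) .nil) .nil))) 
(.lf (nat_lit 586503) (.g (nat_lit 3639) (.e (nat_lit 393268) (nat_lit 23) (.e (nat_lit 426436) (nat_lit 18) (.e (nat_lit 98335) (nat_lit 18) (.e (nat_lit 164330) (nat_lit 230) (.e (nat_lit 163905) (nat_lit 12) (.e (nat_lit 426566) (nat_lit 34) .nil)))))) (.g (nat_lit 1) (.e (nat_lit 389774) (nat_lit 0) .nil) .nil))))) (.nd (nat_lit 8) (.nd (nat_lit 9) 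
(.lf (nat_lit 585863) (.g (nat_lit 1703) (.e (nat_lit 393252) (nat_lit 18) (.e (nat_lit 164401) (nat_lit 256) (.e (nat_lit 57378) (nat_lit 3) (.e (nat_lit 98365) (nat_lit 26) (.e (nat_lit 426188) (nat_lit 9) .nil))))) (.g (nat_lit 0) (.e (nat_lit 388988) (nat_lit 0) .nil) .nil))) 
(.lf (nat_lit 586375) (.g (nat_lit 1323) (.e (nat_lit 393254) (nat_lit 18) (.e (nat_lit 164331) (nat_lit 230) (.e (nat_lit 163873) (nat_lit 3) (.e (nat_lit 204811) (nat_lit 9) (.e (nat_lit 426262) (nat_lit 9) (.e (nat_lit 433920) (nat_lit 34) .nil)))))) (.g (nat_lit 1) (.e (nat_lit 389543) (nat_lit 0) .nil) .nil)))) (.nd (nat_lit 9) 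
(.lf (nat_lit 586119) (.g (nat_lit 3157) (.e (nat_lit 393253) (nat_lit 18) (.e (nat_lit 164330) (nat_lit 230) (.e (nat_lit 163874) (nat_lit 3) (.e (nat_lit 204813) (nat_lit 9) (.e (nat_lit 426190) (nat_lit 9) (.e (nat_lit 426566) (nat_lit 34) .nil)))))) (.g (nat_lit 1) (.e (nat_lit 389265) (nat_lit 0) .nil) .nil))) 
(.lf (nat_lit 586631) (.g (nat_lit 3352) (.e (nat_lit 393271) (nat_lit 23) (.e (nat_lit 426438) (nat_lit 18) (.e (nat_lit 98333) (nat_lit 18) (.e (nat_lit 164325) (nat_lit 230) (.e (nat_lit 163907) (nat_lit 12) (.e (nat_lit 426566) (nat_lit 34) .nil)))))) (.g (nat_lit 1) (.e (nat_lit 389907) (nat_lit 0) .nil) .nil)))))) (.nd (nat_lit 7) (.nd (nat_lit 8) (.nd (nat_lit 9) 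
(.lf (nat_lit 585799) (.g (nat_lit 3107) (.e (nat_lit 393252) (nat_lit 18) (.e (nat_lit 164332) (nat_lit 230) (.e (nat_lit 163866) (nat_lit 2) (.e (nat_lit 196654) (nat_lit 11) (.e (nat_lit 16435) (nat_lit 9) (.e (nat_lit 426566) (nat_lit 34) .nil)))))) (.g (nat_lit 1) (.e (nat_lit 388910) (nat_lit 0) .nil) .nil))) 
(.lf (nat_lit 586311) (.g (nat_lit 1618) (.e (nat_lit 393254) (nat_lit 18) (.e (nat_lit 164326) (nat_lit 230) (.e (nat_lit 163873) (nat_lit 3) (.e (nat_lit 204811) (nat_lit 9) (.e (nat_lit 426230) (nat_lit 9) (.e (nat_lit 426565) (nat_lit 34) .nil)))))) (.g (nat_lit 1) (.e (nat_lit 389477) (nat_lit 0) .nil) .nil)))) (.nd (nat_lit 9) 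
(.lf (nat_lit 586055) (.g (nat_lit 1666) (.e (nat_lit 393253) (nat_lit 18) (.e (nat_lit 164327) (nat_lit 230) (.e (nat_lit 163871) (nat_lit 2) (.e (nat_lit 196624) (nat_lit 9) .nil)))) (.g (nat_lit 0) (.e (nat_lit 389199) (nat_lit 0) .nil) .nil))) 
(.lf (nat_lit 586567) (.g (nat_lit 3581) (.e (nat_lit 393270) (nat_lit 23) (.e (nat_lit 426436) (nat_lit 18) (.e (nat_lit 98335) (nat_lit 18) (.e (nat_lit 164330) (nat_lit 230) (.e (nat_lit 163905) (nat_lit 12) (.e (nat_lit 426566) (nat_lit 34) .nil)))))) (.g (nat_lit 1) (.e (nat_lit 389840) (nat_lit 0) .nil) .nil))))) (.nd (nat_lit 8) (.nd (nat_lit 9) 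
(.lf (nat_lit 585927) (.g (nat_lit 3110) (.e (nat_lit 393253) (nat_lit 18) (.e (nat_lit 164325) (nat_lit 230) (.e (nat_lit 163873) (nat_lit 3) (.e (nat_lit 204813) (nat_lit 9) (.e (nat_lit 426197) (nat_lit 9) .nil))))) (.g (nat_lit 0) (.e (nat_lit 389066) (nat_lit 0) .nil) .nil))) 
(.lf (nat_lit 586439) (.g (nat_lit 1626) (.e (nat_lit 393254) (nat_lit 18) (.e (nat_lit 164332) (nat_lit 230) (.e (nat_lit 163874) (nat_lit 3) (.e (nat_lit 204812) (nat_lit 9) .nil)))) (.g (nat_lit 0) (.e (nat_lit 389620) (nat_lit 0) .nil) .nil)))) (.nd (nat_lit 9) 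
(.lf (nat_lit 586183) (.g (nat_lit 2391) (.e (nat_lit 393254) (nat_lit 18) (.e (nat_lit 164322) (nat_lit 230) (.e (nat_lit 163867) (nat_lit 2) (.e (nat_lit 196624) (nat_lit 9) (.e (nat_lit 457) (nat_lit 34) (.e (nat_lit 450304) (nat_lit 18) .nil)))))) (.g (nat_lit 1) (.e (nat_lit 389345) (nat_lit 0) .nil) .nil))) 
(.lf (nat_lit 586695) (.g (nat_lit 4274) (.e (nat_lit 393273) (nat_lit 23) (.e (nat_lit 426436) (nat_lit 18) (.e (nat_lit 98335) (nat_lit 18) (.e (nat_lit 171776) (nat_lit 230) .nil)))) (.g (nat_lit 0) (.e (nat_lit 389972) (nat_lit 0) .nil) .nil))))))) (.nd (nat_lit 6) (.nd (nat_lit 7) (.nd (nat_lit 8) (.nd (nat_lit 9) 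
(.lf (nat_lit 585767) (.g (nat_lit 232) (.e (nat_lit 393251) (nat_lit 18) (.e (nat_lit 164402) (nat_lit 256) (.e (nat_lit 57371) (nat_lit 2) .nil))) (.g (nat_lit 0) (.e (nat_lit 388870) (nat_lit 0) .nil) .nil))) 
(.lf (nat_lit 586279) (.g (nat_lit 1809) (.e (nat_lit 393254) (nat_lit 18) (.e (nat_lit 164326) (nat_lit 230) (.e (nat_lit 163870) (nat_lit 2) (.e (nat_lit 196630) (nat_lit 9) (.e (nat_lit 437) (nat_lit 32) .nil))))) (.g (nat_lit 0) (.e (nat_lit 389445) (nat_lit 0) .nil) .nil)))) (.nd (nat_lit 9) 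
(.lf (nat_lit 586023) (.g (nat_lit 1822) (.e (nat_lit 393253) (nat_lit 18) (.e (nat_lit 164326) (nat_lit 230) (.e (nat_lit 163873) (nat_lit 3) (.e (nat_lit 204811) (nat_lit 9) (.e (nat_lit 426230) (nat_lit 9) (.e (nat_lit 426565) (nat_lit 34) .nil)))))) (.g (nat_lit 1) (.e (nat_lit 389165) (nat_lit 0) .nil) .nil))) 
(.lf (nat_lit 586535) (.g (nat_lit 2747) (.e (nat_lit 393270) (nat_lit 23) (.e (nat_lit 426131) (nat_lit 3) (.e (nat_lit 204829) (nat_lit 18) (.e (nat_lit 57688) (nat_lit 156) (.e (nat_lit 163907) (nat_lit 12) (.e (nat_lit 426566) (nat_lit 34) .nil)))))) (.g (nat_lit 1) (.e (nat_lit 389807) (nat_lit 0) .nil) .nil))))) (.nd (nat_lit 8) (.nd (nat_lit 9) 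
(.lf (nat_lit 585895) (.g (nat_lit 545) (.e (nat_lit 393253) (nat_lit 18) (.e (nat_lit 164324) (nat_lit 230) (.e (nat_lit 163875) (nat_lit 3) .nil))) (.g (nat_lit 0) (.e (nat_lit 389032) (nat_lit 0) .nil) .nil))) 
(.lf (nat_lit 586407) (.g (nat_lit 1251) (.e (nat_lit 393254) (nat_lit 18) (.e (nat_lit 164332) (nat_lit 230) (.e (nat_lit 163869) (nat_lit 2) (.e (nat_lit 196626) (nat_lit 9) .nil)))) (.g (nat_lit 0) (.e (nat_lit 389588) (nat_lit 0) .nil) .nil)))) (.nd (nat_lit 9) 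
(.lf (nat_lit 586151) (.g (nat_lit 2676) (.e (nat_lit 393253) (nat_lit 18) (.e (nat_lit 164332) (nat_lit 230) (.e (nat_lit 163869) (nat_lit 2) (.e (nat_lit 196624) (nat_lit 9) (.e (nat_lit 479) (nat_lit 37) (.e (nat_lit 474880) (nat_lit 18) .nil)))))) (.g (nat_lit 1) (.e (nat_lit 389297) (nat_lit 0) .nil) .nil))) 
(.lf (nat_lit 586663) (.g (nat_lit 3467) (.e (nat_lit 393272) (nat_lit 23) (.e (nat_lit 426436) (nat_lit 18) (.e (nat_lit 98335) (nat_lit 18) (.e (nat_lit 164332) (nat_lit 230) (.e (nat_lit 163905) (nat_lit 12) (.e (nat_lit 426566) (nat_lit 34) .nil)))))) (.g (nat_lit 1) (.e (nat_lit 389939) (nat_lit 0) .nil) .nil)))))) (.nd (nat_lit 7) (.nd (nat_lit 8) (.nd (nat_lit 9) 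
(.lf (nat_lit 585831) (.g (nat_lit 2153) (.e (nat_lit 393252) (nat_lit 18) (.e (nat_lit 164332) (nat_lit 230) (.e (nat_lit 163869) (nat_lit 2) (.e (nat_lit 196628) (nat_lit 9) (.e (nat_lit 425) (nat_lit 32) .nil))))) (.g (nat_lit 0) (.e (nat_lit 388943) (nat_lit 0) .nil) .nil))) 
(.lf (nat_lit 586343) (.g (nat_lit 1973) (.e (nat_lit 393254) (nat_lit 18) (.e (nat_lit 164327) (nat_lit 230) (.e (nat_lit 163873) (nat_lit 3) (.e (nat_lit 204811) (nat_lit 9) (.e (nat_lit 426262) (nat_lit 9) (.e (nat_lit 426565) (nat_lit 34) .nil)))))) (.g (nat_lit 1) (.e (nat_lit 389509) (nat_lit 0) .nil) .nil)))) (.nd (nat_lit 9) 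
(.lf (nat_lit 586087) (.g (nat_lit 2005) (.e (nat_lit 393253) (nat_lit 18) (.e (nat_lit 164327) (nat_lit 230) (.e (nat_lit 163875) (nat_lit 3) (.e (nat_lit 204811) (nat_lit 9) (.e (nat_lit 426262) (nat_lit 9) (.e (nat_lit 433920) (nat_lit 34) .nil)))))) (.g (nat_lit 1) (.e (nat_lit 389231) (nat_lit 0) .nil) .nil))) 
(.lf (nat_lit 586599) (.g (nat_lit 4043) (.e (nat_lit 393271) (nat_lit 23) (.e (nat_lit 426131) (nat_lit 3) (.e (nat_lit 204829) (nat_lit 18) (.e (nat_lit 57688) (nat_lit 156) (.e (nat_lit 163903) (nat_lit 12) (.e (nat_lit 426568) (nat_lit 34) .nil)))))) (.g (nat_lit 1) (.e (nat_lit 389873) (nat_lit 0) .nil) .nil))))) (.nd (nat_lit 8) (.nd (nat_lit 9) 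
(.lf (nat_lit 585959) (.g (nat_lit 2440) (.e (nat_lit 393253) (nat_lit 18) (.e (nat_lit 164326) (nat_lit 230) (.e (nat_lit 163868) (nat_lit 2) (.e (nat_lit 196625) (nat_lit 9) (.e (nat_lit 437) (nat_lit 32) .nil))))) (.g (nat_lit 0) (.e (nat_lit 389099) (nat_lit 0) .nil) .nil))) 
(.lf (nat_lit 586471) (.g (nat_lit 1006) (.e (nat_lit 393266) (nat_lit 23) (.e (nat_lit 426109) (nat_lit 1) (.e (nat_lit 164346) (nat_lit 240) (.e (nat_lit 2640) (nat_lit 165) (.e (nat_lit 180278) (nat_lit 32) .nil))))) (.g (nat_lit 0) (.e (nat_lit 389734) (nat_lit 0) .nil) .nil)))) (.nd (nat_lit 9) 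
(.lf (nat_lit 586215) (.g (nat_lit 1516) (.e (nat_lit 393254) (nat_lit 18) (.e (nat_lit 164324) (nat_lit 230) (.e (nat_lit 163875) (nat_lit 3) (.e (nat_lit 204812) (nat_lit 9) .nil)))) (.g (nat_lit 0) (.e (nat_lit 389377) (nat_lit 0) .nil) .nil))) 
(.lf (nat_lit 586727) (.g (nat_lit 1521) (.e (nat_lit 393280) (nat_lit 23) (.e (nat_lit 426098) (nat_lit 1) (.e (nat_lit 164325) (nat_lit 230) (.e (nat_lit 163879) (nat_lit 4) .nil)))) (.g (nat_lit 0) (.e (nat_lit 390030) (nat_lit 0) .nil) .nil)))))))) (.nd (nat_lit 5) (.nd (nat_lit 6) (.nd (nat_lit 7) (.nd (nat_lit 8) (.nd (nat_lit 9) 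
(.lf (nat_lit 585751) (.g (nat_lit 3906) (.e (nat_lit 393251) (nat_lit 18) (.e (nat_lit 164332) (nat_lit 230) (.e (nat_lit 163874) (nat_lit 3) (.e (nat_lit 204813) (nat_lit 9) (.e (nat_lit 426188) (nat_lit 9) (.e (nat_lit 426566) (nat_lit 34) .nil)))))) (.g (nat_lit 1) (.e (nat_lit 388844) (nat_lit 0) .nil) .nil))) 
(.lf (nat_lit 586263) (.g (nat_lit 2215) (.e (nat_lit 393254) (nat_lit 18) (.e (nat_lit 164326) (nat_lit 230) (.e (nat_lit 163868) (nat_lit 2) (.e (nat_lit 196630) (nat_lit 9) .nil)))) (.g (nat_lit 0) (.e (nat_lit 389428) (nat_lit 0) .nil) .nil)))) (.nd (nat_lit 9) 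
(.lf (nat_lit 586007) (.g (nat_lit 957) (.e (nat_lit 393253) (nat_lit 18) (.e (nat_lit 164326) (nat_lit 230) (.e (nat_lit 163871) (nat_lit 2) (.e (nat_lit 196624) (nat_lit 9) .nil)))) (.g (nat_lit 0) (.e (nat_lit 389148) (nat_lit 0) .nil) .nil))) 
(.lf (nat_lit 586519) (.g (nat_lit 3211) (.e (nat_lit 393268) (nat_lit 23) (.e (nat_lit 426438) (nat_lit 18) (.e (nat_lit 98335) (nat_lit 18) (.e (nat_lit 164324) (nat_lit 230) (.e (nat_lit 163903) (nat_lit 12) (.e (nat_lit 426567) (nat_lit 34) .nil)))))) (.g (nat_lit 1) (.e (nat_lit 389790) (nat_lit 0) .nil) .nil))))) (.nd (nat_lit 8) (.nd (nat_lit 9) 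
(.lf (nat_lit 585879) (.g (nat_lit 2143) (.e (nat_lit 393253) (nat_lit 18) (.e (nat_lit 164324) (nat_lit 230) (.e (nat_lit 163868) (nat_lit 2) (.e (nat_lit 196624) (nat_lit 9) (.e (nat_lit 7936) (nat_lit 34) (.e (nat_lit 450304) (nat_lit 18) .nil)))))) (.g (nat_lit 1) (.e (nat_lit 389016) (nat_lit 0) .nil) .nil))) 
(.lf (nat_lit 586391) (.g (nat_lit 2985) (.e (nat_lit 393254) (nat_lit 18) (.e (nat_lit 164332) (nat_lit 230) (.e (nat_lit 163869) (nat_lit 2) (.e (nat_lit 196617) (nat_lit 9) .nil)))) (.g (nat_lit 0) (.e (nat_lit 389572) (nat_lit 0) .nil) .nil)))) (.nd (nat_lit 9) 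
(.lf (nat_lit 586135) (.g (nat_lit 2038) (.e (nat_lit 393253) (nat_lit 18) (.e (nat_lit 164332) (nat_lit 230) (.e (nat_lit 163869) (nat_lit 2) (.e (nat_lit 196619) (nat_lit 9) .nil)))) (.g (nat_lit 0) (.e (nat_lit 389281) (nat_lit 0) .nil) .nil))) 
(.lf (nat_lit 586647) (.g (nat_lit 1791) (.e (nat_lit 393272) (nat_lit 23) (.e (nat_lit 426131) (nat_lit 3) (.e (nat_lit 204831) (nat_lit 18) (.e (nat_lit 57654) (nat_lit 152) (.e (nat_lit 2633) (nat_lit 164) (.e (nat_lit 179968) (nat_lit 34) .nil)))))) (.g (nat_lit 1) (.e (nat_lit 389923) (nat_lit 0) .nil) .nil)))))) (.nd (nat_lit 7) (.nd (nat_lit 8) (.nd (nat_lit 9) 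
(.lf (nat_lit 585815) (.g (nat_lit 2112) (.e (nat_lit 393252) (nat_lit 18) (.e (nat_lit 164332) (nat_lit 230) (.e (nat_lit 163869) (nat_lit 2) (.e (nat_lit 196624) (nat_lit 9) (.e (nat_lit 388) (nat_lit 32) .nil))))) (.g (nat_lit 0) (.e (nat_lit 388927) (nat_lit 0) .nil) .nil))) 
(.lf (nat_lit 586327) (.g (nat_lit 1824) (.e (nat_lit 393254) (nat_lit 18) (.e (nat_lit 164327) (nat_lit 230) (.e (nat_lit 163868) (nat_lit 2) (.e (nat_lit 196624) (nat_lit 9) (.e (nat_lit 7936) (nat_lit 34) (.e (nat_lit 450304) (nat_lit 18) .nil)))))) (.g (nat_lit 1) (.e (nat_lit 389493) (nat_lit 0) .nil) .nil)))) (.nd (nat_lit 9) 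
(.lf (nat_lit 586071) (.g (nat_lit 1947) (.e (nat_lit 393253) (nat_lit 18) (.e (nat_lit 164327) (nat_lit 230) (.e (nat_lit 163873) (nat_lit 3) (.e (nat_lit 204809) (nat_lit 9) (.e (nat_lit 426197) (nat_lit 9) .nil))))) (.g (nat_lit 0) (.e (nat_lit 389215) (nat_lit 0) .nil) .nil))) 
(.lf (nat_lit 586583) (.g (nat_lit 2151) (.e (nat_lit 393271) (nat_lit 23) (.e (nat_lit 426112) (nat_lit 1) (.e (nat_lit 164326) (nat_lit 230) (.e (nat_lit 163882) (nat_lit 4) (.e (nat_lit 213032) (nat_lit 11) (.e (nat_lit 24659) (nat_lit 13) .nil)))))) (.g (nat_lit 1) (.e (nat_lit 389856) (nat_lit 0) .nil) .nil))))) (.nd (nat_lit 8) (.nd (nat_lit 9) 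
(.lf (nat_lit 585943) (.g (nat_lit 1561) (.e (nat_lit 393253) (nat_lit 18) (.e (nat_lit 164326) (nat_lit 230) (.e (nat_lit 163868) (nat_lit 2) (.e (nat_lit 196617) (nat_lit 9) (.e (nat_lit 419) (nat_lit 32) (.e (nat_lit 426230) (nat_lit 9) (.e (nat_lit 426565) (nat_lit 34) .nil))))))) (.g (nat_lit 1) (.e (nat_lit 389083) (nat_lit 0) .nil) .nil))) 
(.lf (nat_lit 586455) (.g (nat_lit 1472) (.e (nat_lit 393256) (nat_lit 19) (.e (nat_lit 229679) (nat_lit 244) (.e (nat_lit 163843) (nat_lit 0) (.e (nat_lit 3222) (nat_lit 196) (.e (nat_lit 524319) (nat_lit 11) (.e (nat_lit 450304) (nat_lit 18) .nil)))))) (.g (nat_lit 1) (.e (nat_lit 389660) (nat_lit 0) .nil) .nil)))) (.nd (nat_lit 9) 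
(.lf (nat_lit 586199) (.g (nat_lit 2461) (.e (nat_lit 393254) (nat_lit 18) (.e (nat_lit 164324) (nat_lit 230) (.e (nat_lit 163867) (nat_lit 2) (.e (nat_lit 196656) (nat_lit 11) (.e (nat_lit 16433) (nat_lit 9) .nil))))) (.g (nat_lit 0) (.e (nat_lit 389361) (nat_lit 0) .nil) .nil))) 
(.lf (nat_lit 586711) (.g (nat_lit 1128) (.e (nat_lit 393277) (nat_lit 23) (.e (nat_lit 426140) (nat_lit 3) (.e (nat_lit 204821) (nat_lit 17) (.e (nat_lit 1040) (nat_lit 81) .nil)))) (.g (nat_lit 0) (.e (nat_lit 390008) (nat_lit 0) .nil) .nil))))))) (.nd (nat_lit 6) (.nd (nat_lit 7) (.nd (nat_lit 8) (.nd (nat_lit 9) 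
(.lf (nat_lit 585783) (.g (nat_lit 2721) (.e (nat_lit 393252) (nat_lit 18) (.e (nat_lit 164330) (nat_lit 230) (.e (nat_lit 163869) (nat_lit 2) (.e (nat_lit 196656) (nat_lit 11) (.e (nat_lit 16434) (nat_lit 9) (.e (nat_lit 426566) (nat_lit 34) .nil)))))) (.g (nat_lit 1) (.e (nat_lit 388894) (nat_lit 0) .nil) .nil))) 
(.lf (nat_lit 586295) (.g (nat_lit 2428) (.e (nat_lit 393254) (nat_lit 18) (.e (nat_lit 164326) (nat_lit 230) (.e (nat_lit 163871) (nat_lit 2) (.e (nat_lit 196624) (nat_lit 9) (.e (nat_lit 455) (nat_lit 34) (.e (nat_lit 450304) (nat_lit 18) .nil)))))) (.g (nat_lit 1) (.e (nat_lit 389461) (nat_lit 0) .nil) .nil)))) (.nd (nat_lit 9) 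
(.lf (nat_lit 586039) (.g (nat_lit 2834) (.e (nat_lit 393253) (nat_lit 18) (.e (nat_lit 164327) (nat_lit 230) (.e (nat_lit 163868) (nat_lit 2) (.e (nat_lit 196624) (nat_lit 9) (.e (nat_lit 454) (nat_lit 34) (.e (nat_lit 450304) (nat_lit 18) .nil)))))) (.g (nat_lit 1) (.e (nat_lit 389183) (nat_lit 0) .nil) .nil))) 
(.lf (nat_lit 586551) (.g (nat_lit 3284) (.e (nat_lit 393270) (nat_lit 23) (.e (nat_lit 426436) (nat_lit 18) (.e (nat_lit 98334) (nat_lit 18) (.e (nat_lit 164330) (nat_lit 230) (.e (nat_lit 163905) (nat_lit 12) (.e (nat_lit 426566) (nat_lit 34) .nil)))))) (.g (nat_lit 1) (.e (nat_lit 389824) (nat_lit 0) .nil) .nil))))) (.nd (nat_lit 8) (.nd (nat_lit 9) 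
(.lf (nat_lit 585911) (.g (nat_lit 2466) (.e (nat_lit 393253) (nat_lit 18) (.e (nat_lit 164325) (nat_lit 230) (.e (nat_lit 163869) (nat_lit 2) (.e (nat_lit 196630) (nat_lit 9) (.e (nat_lit 430) (nat_lit 32) .nil))))) (.g (nat_lit 0) (.e (nat_lit 389050) (nat_lit 0) .nil) .nil))) 
(.lf (nat_lit 586423) (.g (nat_lit 3574) (.e (nat_lit 393254) (nat_lit 18) (.e (nat_lit 164332) (nat_lit 230) (.e (nat_lit 163869) (nat_lit 2) (.e (nat_lit 196643) (nat_lit 9) .nil)))) (.g (nat_lit 0) (.e (nat_lit 389604) (nat_lit 0) .nil) .nil)))) (.nd (nat_lit 9) 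
(.lf (nat_lit 586167) (.g (nat_lit 1853) (.e (nat_lit 393253) (nat_lit 18) (.e (nat_lit 164332) (nat_lit 230) (.e (nat_lit 163874) (nat_lit 3) (.e (nat_lit 204811) (nat_lit 9) (.e (nat_lit 426261) (nat_lit 9) (.e (nat_lit 433920) (nat_lit 34) .nil)))))) (.g (nat_lit 1) (.e (nat_lit 389313) (nat_lit 0) .nil) .nil))) 
(.lf (nat_lit 586679) (.g (nat_lit 3599) (.e (nat_lit 393273) (nat_lit 23) (.e (nat_lit 426402) (nat_lit 15) (.e (nat_lit 1788) (nat_lit 119) (.e (nat_lit 516115) (nat_lit 1) (.e (nat_lit 164332) (nat_lit 230) (.e (nat_lit 163905) (nat_lit 12) (.e (nat_lit 426566) (nat_lit 34) .nil))))))) (.g (nat_lit 1) (.e (nat_lit 389956) (nat_lit 0) .nil) .nil)))))) 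
(.nd (nat_lit 7) (.nd (nat_lit 8) (.nd (nat_lit 9) 
(.lf (nat_lit 585847) (.g (nat_lit 1698) (.e (nat_lit 393252) (nat_lit 18) (.e (nat_lit 164332) (nat_lit 230) (.e (nat_lit 163874) (nat_lit 3) (.e (nat_lit 204811) (nat_lit 9) (.e (nat_lit 426262) (nat_lit 9) (.e (nat_lit 433920) (nat_lit 34) .nil)))))) (.g (nat_lit 1) (.e (nat_lit 388959) (nat_lit 0) .nil) .nil))) 
(.lf (nat_lit 586359) (.g (nat_lit 693) (.e (nat_lit 393254) (nat_lit 18) (.e (nat_lit 164329) (nat_lit 230) (.e (nat_lit 163873) (nat_lit 3) (.e (nat_lit 204811) (nat_lit 9) .nil)))) (.g (nat_lit 0) (.e (nat_lit 389527) (nat_lit 0) .nil) .nil)))) (.nd (nat_lit 9) 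
(.lf (nat_lit 586103) (.g (nat_lit 1812) (.e (nat_lit 393253) (nat_lit 18) (.e (nat_lit 164329) (nat_lit 230) (.e (nat_lit 163873) (nat_lit 3) (.e (nat_lit 204811) (nat_lit 9) (.e (nat_lit 426262) (nat_lit 9) (.e (nat_lit 426565) (nat_lit 34) .nil)))))) (.g (nat_lit 1) (.e (nat_lit 389249) (nat_lit 0) .nil) .nil))) 
(.lf (nat_lit 586615) (.g (nat_lit 3131) (.e (nat_lit 393271) (nat_lit 23) (.e (nat_lit 426436) (nat_lit 18) (.e (nat_lit 98333) (nat_lit 18) (.e (nat_lit 164329) (nat_lit 230) (.e (nat_lit 163902) (nat_lit 12) (.e (nat_lit 426566) (nat_lit 34) .nil)))))) (.g (nat_lit 1) (.e (nat_lit 389891) (nat_lit 0) .nil) .nil))))) (.nd (nat_lit 8) (.nd (nat_lit 9) 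
(.lf (nat_lit 585975) (.g (nat_lit 2117) (.e (nat_lit 393253) (nat_lit 18) (.e (nat_lit 164326) (nat_lit 230) (.e (nat_lit 163868) (nat_lit 2) (.e (nat_lit 196638) (nat_lit 9) .nil)))) (.g (nat_lit 0) (.e (nat_lit 389116) (nat_lit 0) .nil) .nil))) 
(.lf (nat_lit 586487) (.g (nat_lit 2343) (.e (nat_lit 393268) (nat_lit 23) (.e (nat_lit 426436) (nat_lit 18) (.e (nat_lit 98333) (nat_lit 18) (.e (nat_lit 164327) (nat_lit 230) (.e (nat_lit 163904) (nat_lit 12) (.e (nat_lit 426566) (nat_lit 34) .nil)))))) (.g (nat_lit 1) (.e (nat_lit 389758) (nat_lit 0) .nil) .nil)))) (.nd (nat_lit 9) 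
(.lf (nat_lit 586231) (.g (nat_lit 3177) (.e (nat_lit 393254) (nat_lit 18) (.e (nat_lit 164325) (nat_lit 230) (.e (nat_lit 163873) (nat_lit 3) (.e (nat_lit 204813) (nat_lit 9) (.e (nat_lit 426197) (nat_lit 9) .nil))))) (.g (nat_lit 0) (.e (nat_lit 389396) (nat_lit 0) .nil) .nil))) 
(.lf (nat_lit 586743) (.g (nat_lit 2793) (.e (nat_lit 393281) (nat_lit 23) (.e (nat_lit 426098) (nat_lit 1) (.e (nat_lit 164327) (nat_lit 230) (.e (nat_lit 163879) (nat_lit 4) (.e (nat_lit 213030) (nat_lit 11) (.e (nat_lit 24658) (nat_lit 13) .nil)))))) (.g (nat_lit 1) (.e (nat_lit 390050) (nat_lit 0) .nil) .nil))))))))) 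
(.nd (nat_lit 4) (.nd (nat_lit 5) (.nd (nat_lit 6) (.nd (nat_lit 7) (.nd (nat_lit 8) 
(.nd (nat_lit 9) 
(.lf (nat_lit 585743) (.g (nat_lit 3039) (.e (nat_lit 393251) (nat_lit 18) (.e (nat_lit 164332) (nat_lit 230) (.e (nat_lit 163873) (nat_lit 3) (.e (nat_lit 204813) (nat_lit 9) (.e (nat_lit 426197) (nat_lit 9) .nil))))) (.g (nat_lit 0) (.e (nat_lit 388836) (nat_lit 0) .nil) .nil))) 
(.lf (nat_lit 586255) (.g (nat_lit 2102) (.e (nat_lit 393254) (nat_lit 18) (.e (nat_lit 164326) (nat_lit 230) (.e (nat_lit 163868) (nat_lit 2) (.e (nat_lit 196624) (nat_lit 9) (.e (nat_lit 459) (nat_lit 34) (.e (nat_lit 450304) (nat_lit 18) .nil)))))) (.g (nat_lit 1) (.e (nat_lit 389420) (nat_lit 0) .nil) .nil)))) (.nd (nat_lit 9) 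
(.lf (nat_lit 585999) (.g (nat_lit 2269) (.e (nat_lit 393253) (nat_lit 18) (.e (nat_lit 164326) (nat_lit 230) (.e (nat_lit 163871) (nat_lit 2) (.e (nat_lit 196619) (nat_lit 9) (.e (nat_lit 455) (nat_lit 34) (.e (nat_lit 450304) (nat_lit 18) .nil)))))) (.g (nat_lit 1) (.e (nat_lit 389140) (nat_lit 0) .nil) .nil))) 
(.lf (nat_lit 586511) (.g (nat_lit 2819) (.e (nat_lit 393268) (nat_lit 23) (.e (nat_lit 426438) (nat_lit 18) (.e (nat_lit 98333) (nat_lit 18) (.e (nat_lit 164332) (nat_lit 230) (.e (nat_lit 163902) (nat_lit 12) (.e (nat_lit 426566) (nat_lit 34) .nil)))))) (.g (nat_lit 1) (.e (nat_lit 389782) (nat_lit 0) .nil) .nil))))) (.nd (nat_lit 8) (.nd (nat_lit 9) 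
(.lf (nat_lit 585871) (.g (nat_lit 1495) (.e (nat_lit 393253) (nat_lit 18) (.e (nat_lit 164324) (nat_lit 230) (.e (nat_lit 163867) (nat_lit 2) (.e (nat_lit 196624) (nat_lit 9) .nil)))) (.g (nat_lit 0) (.e (nat_lit 389008) (nat_lit 0) .nil) .nil))) 
(.lf (nat_lit 586383) (.g (nat_lit 2241) (.e (nat_lit 393254) (nat_lit 18) (.e (nat_lit 164332) (nat_lit 230) (.e (nat_lit 163867) (nat_lit 2) (.e (nat_lit 196624) (nat_lit 9) (.e (nat_lit 459) (nat_lit 34) (.e (nat_lit 450304) (nat_lit 18) .nil)))))) (.g (nat_lit 1) (.e (nat_lit 389564) (nat_lit 0) .nil) .nil)))) (.nd (nat_lit 9) 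
(.lf (nat_lit 586127) (.g (nat_lit 2029) (.e (nat_lit 393253) (nat_lit 18) (.e (nat_lit 164332) (nat_lit 230) (.e (nat_lit 163867) (nat_lit 2) (.e (nat_lit 196624) (nat_lit 9) (.e (nat_lit 433) (nat_lit 32) (.e (nat_lit 426228) (nat_lit 9) (.e (nat_lit 426565) (nat_lit 34) .nil))))))) (.g (nat_lit 1) (.e (nat_lit 389273) (nat_lit 0) .nil) .nil))) 
(.lf (nat_lit 586639) (.g (nat_lit 3342) (.e (nat_lit 393271) (nat_lit 23) (.e (nat_lit 426438) (nat_lit 18) (.e (nat_lit 98335) (nat_lit 18) (.e (nat_lit 164331) (nat_lit 230) (.e (nat_lit 163902) (nat_lit 12) (.e (nat_lit 426566) (nat_lit 34) .nil)))))) (.g (nat_lit 1) (.e (nat_lit 389915) (nat_lit 0) .nil) .nil)))))) (.nd (nat_lit 7) (.nd (nat_lit 8) (.nd (nat_lit 9) 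
(.lf (nat_lit 585807) (.g (nat_lit 1966) (.e (nat_lit 393252) (nat_lit 18) (.e (nat_lit 164332) (nat_lit 230) (.e (nat_lit 163867) (nat_lit 2) (.e (nat_lit 196624) (nat_lit 9) (.e (nat_lit 479) (nat_lit 37) (.e (nat_lit 474880) (nat_lit 18) .nil)))))) (.g (nat_lit 1) (.e (nat_lit 388918) (nat_lit 0) .nil) .nil))) 
(.lf (nat_lit 586319) (.g (nat_lit 1751) (.e (nat_lit 393254) (nat_lit 18) (.e (nat_lit 164326) (nat_lit 230) (.e (nat_lit 163875) (nat_lit 3) (.e (nat_lit 204811) (nat_lit 9) (.e (nat_lit 426232) (nat_lit 9) (.e (nat_lit 426565) (nat_lit 34) .nil)))))) (.g (nat_lit 1) (.e (nat_lit 389485) (nat_lit 0) .nil) .nil)))) (.nd (nat_lit 9) 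
(.lf (nat_lit 586063) (.g (nat_lit 2891) (.e (nat_lit 393253) (nat_lit 18) (.e (nat_lit 164327) (nat_lit 230) (.e (nat_lit 163871) (nat_lit 2) (.e (nat_lit 196656) (nat_lit 11) (.e (nat_lit 16431) (nat_lit 9) (.e (nat_lit 426568) (nat_lit 34) .nil)))))) (.g (nat_lit 1) (.e (nat_lit 389207) (nat_lit 0) .nil) .nil))) 
(.lf (nat_lit 586575) (.g (nat_lit 3103) (.e (nat_lit 393270) (nat_lit 23) (.e (nat_lit 426438) (nat_lit 18) (.e (nat_lit 98334) (nat_lit 18) (.e (nat_lit 164332) (nat_lit 230) (.e (nat_lit 163905) (nat_lit 12) (.e (nat_lit 426566) (nat_lit 34) .nil)))))) (.g (nat_lit 1) (.e (nat_lit 389848) (nat_lit 0) .nil) .nil))))) (.nd (nat_lit 8) (.nd (nat_lit 9) 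
(.lf (nat_lit 585935) (.g (nat_lit 2130) (.e (nat_lit 393253) (nat_lit 18) (.e (nat_lit 164325) (nat_lit 230) (.e (nat_lit 163875) (nat_lit 3) (.e (nat_lit 204811) (nat_lit 9) (.e (nat_lit 426234) (nat_lit 9) (.e (nat_lit 426565) (nat_lit 34) .nil)))))) (.g (nat_lit 1) (.e (nat_lit 389074) (nat_lit 0) .nil) .nil))) 
(.lf (nat_lit 586447) (.g (nat_lit 1871) (.e (nat_lit 393254) (nat_lit 18) (.e (nat_lit 164347) (nat_lit 240) (.e (nat_lit 2610) (nat_lit 163) (.e (nat_lit 163959) (nat_lit 24) (.e (nat_lit 524319) (nat_lit 11) (.e (nat_lit 450304) (nat_lit 18) .nil)))))) (.g (nat_lit 1) (.e (nat_lit 389630) (nat_lit 0) .nil) .nil)))) (.nd (nat_lit 9) 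
(.lf (nat_lit 586191) (.g (nat_lit 1673) (.e (nat_lit 393254) (nat_lit 18) (.e (nat_lit 164322) (nat_lit 230) (.e (nat_lit 163873) (nat_lit 3) (.e (nat_lit 204811) (nat_lit 9) (.e (nat_lit 426230) (nat_lit 9) (.e (nat_lit 426565) (nat_lit 34) .nil)))))) (.g (nat_lit 1) (.e (nat_lit 389353) (nat_lit 0) .nil) .nil))) 
(.lf (nat_lit 586703) (.g (nat_lit 2287) (.e (nat_lit 393275) (nat_lit 23) (.e (nat_lit 426109) (nat_lit 1) (.e (nat_lit 164326) (nat_lit 230) (.e (nat_lit 163882) (nat_lit 4) (.e (nat_lit 213032) (nat_lit 11) (.e (nat_lit 24660) (nat_lit 13) .nil)))))) (.g (nat_lit 1) (.e (nat_lit 389983) (nat_lit 0) .nil) .nil))))))) (.nd (nat_lit 6) (.nd (nat_lit 7) (.nd (nat_lit 8) (.nd (nat_lit 9) 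
(.lf (nat_lit 585775) (.g (nat_lit 1973) (.e (nat_lit 393252) (nat_lit 18) (.e (nat_lit 164329) (nat_lit 230) (.e (nat_lit 163873) (nat_lit 3) (.e (nat_lit 204813) (nat_lit 9) (.e (nat_lit 426200) (nat_lit 9) .nil))))) (.g (nat_lit 0) (.e (nat_lit 388886) (nat_lit 0) .nil) .nil))) 
(.lf (nat_lit 586287) (.g (nat_lit 1978) (.e (nat_lit 393254) (nat_lit 18) (.e (nat_lit 164326) (nat_lit 230) (.e (nat_lit 163871) (nat_lit 2) (.e (nat_lit 196619) (nat_lit 9) (.e (nat_lit 457) (nat_lit 34) (.e (nat_lit 450304) (nat_lit 18) .nil)))))) (.g (nat_lit 1) (.e (nat_lit 389453) (nat_lit 0) .nil) .nil)))) (.nd (nat_lit 9) 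
(.lf (nat_lit 586031) (.g (nat_lit 1150) (.e (nat_lit 393253) (nat_lit 18) (.e (nat_lit 164326) (nat_lit 230) (.e (nat_lit 163874) (nat_lit 3) (.e (nat_lit 212736) (nat_lit 9) .nil)))) (.g (nat_lit 0) (.e (nat_lit 389173) (nat_lit 0) .nil) .nil))) 
(.lf (nat_lit 586543) (.g (nat_lit 2266) (.e (nat_lit 393270) (nat_lit 23) (.e (nat_lit 426436) (nat_lit 18) (.e (nat_lit 98333) (nat_lit 18) (.e (nat_lit 164330) (nat_lit 230) (.e (nat_lit 163902) (nat_lit 12) (.e (nat_lit 426566) (nat_lit 34) .nil)))))) (.g (nat_lit 1) (.e (nat_lit 389816) (nat_lit 0) .nil) .nil))))) (.nd (nat_lit 8) (.nd (nat_lit 9) 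
(.lf (nat_lit 585903) (.g (nat_lit 2153) (.e (nat_lit 393253) (nat_lit 18) (.e (nat_lit 164325) (nat_lit 230) (.e (nat_lit 163868) (nat_lit 2) (.e (nat_lit 196624) (nat_lit 9) (.e (nat_lit 454) (nat_lit 34) (.e (nat_lit 450304) (nat_lit 18) .nil)))))) (.g (nat_lit 1) (.e (nat_lit 389042) (nat_lit 0) .nil) .nil))) 
(.lf (nat_lit 586415) (.g (nat_lit 1988) (.e (nat_lit 393254) (nat_lit 18) (.e (nat_lit 164332) (nat_lit 230) (.e (nat_lit 163869) (nat_lit 2) (.e (nat_lit 196630) (nat_lit 9) .nil)))) (.g (nat_lit 0) (.e (nat_lit 389596) (nat_lit 0) .nil) .nil)))) (.nd (nat_lit 9) 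
(.lf (nat_lit 586159) (.g (nat_lit 4045) (.e (nat_lit 393253) (nat_lit 18) (.e (nat_lit 164332) (nat_lit 230) (.e (nat_lit 163869) (nat_lit 2) (.e (nat_lit 196656) (nat_lit 11) (.e (nat_lit 16433) (nat_lit 9) (.e (nat_lit 426568) (nat_lit 34) .nil)))))) (.g (nat_lit 1) (.e (nat_lit 389305) (nat_lit 0) .nil) .nil))) 
(.lf (nat_lit 586671) (.g (nat_lit 2544) (.e (nat_lit 393273) (nat_lit 23) (.e (nat_lit 426131) (nat_lit 3) (.e (nat_lit 204829) (nat_lit 18) (.e (nat_lit 57655) (nat_lit 152) (.e (nat_lit 2633) (nat_lit 164) (.e (nat_lit 179968) (nat_lit 34) .nil)))))) (.g (nat_lit 1) (.e (nat_lit 389947) (nat_lit 0) .nil) .nil)))))) (.nd (nat_lit 7) (.nd (nat_lit 8) (.nd (nat_lit 9) 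
(.lf (nat_lit 585839) (.g (nat_lit 1369) (.e (nat_lit 393252) (nat_lit 18) (.e (nat_lit 164332) (nat_lit 230) (.e (nat_lit 163873) (nat_lit 3) (.e (nat_lit 204811) (nat_lit 9) (.e (nat_lit 426262) (nat_lit 9) (.e (nat_lit 433920) (nat_lit 34) .nil)))))) (.g (nat_lit 1) (.e (nat_lit 388951) (nat_lit 0) .nil) .nil))) 
(.lf (nat_lit 586351) (.g (nat_lit 1395) (.e (nat_lit 393254) (nat_lit 18) (.e (nat_lit 164327) (nat_lit 230) (.e (nat_lit 163875) (nat_lit 3) (.e (nat_lit 212736) (nat_lit 9) .nil)))) (.g (nat_lit 0) (.e (nat_lit 389517) (nat_lit 0) .nil) .nil)))) (.nd (nat_lit 9) 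
(.lf (nat_lit 586095) (.g (nat_lit 2046) (.e (nat_lit 393253) (nat_lit 18) (.e (nat_lit 164329) (nat_lit 230) (.e (nat_lit 163867) (nat_lit 2) (.e (nat_lit 196624) (nat_lit 9) (.e (nat_lit 7936) (nat_lit 34) (.e (nat_lit 450304) (nat_lit 18) .nil)))))) (.g (nat_lit 1) (.e (nat_lit 389241) (nat_lit 0) .nil) .nil))) 
(.lf (nat_lit 586607) (.g (nat_lit 3772) (.e (nat_lit 393271) (nat_lit 23) (.e (nat_lit 426131) (nat_lit 3) (.e (nat_lit 204830) (nat_lit 18) (.e (nat_lit 57692) (nat_lit 156) (.e (nat_lit 163907) (nat_lit 12) (.e (nat_lit 426568) (nat_lit 34) .nil)))))) (.g (nat_lit 1) (.e (nat_lit 389881) (nat_lit 0) .nil) .nil))))) (.nd (nat_lit 8) (.nd (nat_lit 9) 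
(.lf (nat_lit 585967) (.g (nat_lit 1608) (.e (nat_lit 393253) (nat_lit 18) (.e (nat_lit 164326) (nat_lit 230) (.e (nat_lit 163868) (nat_lit 2) (.e (nat_lit 196628) (nat_lit 9) (.e (nat_lit 478) (nat_lit 37) (.e (nat_lit 474880) (nat_lit 18) .nil)))))) (.g (nat_lit 1) (.e (nat_lit 389107) (nat_lit 0) .nil) .nil))) 
(.lf (nat_lit 586479) (.g (nat_lit 1288) (.e (nat_lit 393266) (nat_lit 23) (.e (nat_lit 426412) (nat_lit 15) (.e (nat_lit 2175) (nat_lit 143) (.e (nat_lit 712745) (nat_lit 27) .nil)))) (.g (nat_lit 0) (.e (nat_lit 389750) (nat_lit 0) .nil) .nil)))) (.nd (nat_lit 9) 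
(.lf (nat_lit 586223) (.g (nat_lit 1909) (.e (nat_lit 393254) (nat_lit 18) (.e (nat_lit 164325) (nat_lit 230) (.e (nat_lit 163871) (nat_lit 2) (.e (nat_lit 196624) (nat_lit 9) (.e (nat_lit 457) (nat_lit 34) (.e (nat_lit 450304) (nat_lit 18) .nil)))))) (.g (nat_lit 1) (.e (nat_lit 389388) (nat_lit 0) .nil) .nil))) 
(.lf (nat_lit 586735) (.g (nat_lit 1661) (.e (nat_lit 393281) (nat_lit 23) (.e (nat_lit 426098) (nat_lit 1) (.e (nat_lit 164325) (nat_lit 230) (.e (nat_lit 163880) (nat_lit 4) .nil)))) (.g (nat_lit 0) (.e (nat_lit 390042) (nat_lit 0) .nil) .nil)))))))) (.nd (nat_lit 5) (.nd (nat_lit 6) (.nd (nat_lit 7) (.nd (nat_lit 8) (.nd (nat_lit 9) 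
(.lf (nat_lit 585759) (.g (nat_lit 2902) (.e (nat_lit 393251) (nat_lit 18) (.e (nat_lit 164399) (nat_lit 256) (.e (nat_lit 57377) (nat_lit 3) (.e (nat_lit 98365) (nat_lit 26) (.e (nat_lit 426187) (nat_lit 9) (.e (nat_lit 426568) (nat_lit 34) .nil)))))) (.g (nat_lit 1) (.e (nat_lit 388862) (nat_lit 0) .nil) .nil))) 
(.lf (nat_lit 586271) (.g (nat_lit 2243) (.e (nat_lit 393254) (nat_lit 18) (.e (nat_lit 164326) (nat_lit 230) (.e (nat_lit 163868) (nat_lit 2) (.e (nat_lit 196643) (nat_lit 9) .nil)))) (.g (nat_lit 0) (.e (nat_lit 389437) (nat_lit 0) .nil) .nil)))) (.nd (nat_lit 9) 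
(.lf (nat_lit 586015) (.g (nat_lit 2193) (.e (nat_lit 393253) (nat_lit 18) (.e (nat_lit 164326) (nat_lit 230) (.e (nat_lit 163871) (nat_lit 2) (.e (nat_lit 196627) (nat_lit 9) .nil)))) (.g (nat_lit 0) (.e (nat_lit 389156) (nat_lit 0) .nil) .nil))) 
(.lf (nat_lit 586527) (.g (nat_lit 3459) (.e (nat_lit 393268) (nat_lit 23) (.e (nat_lit 426438) (nat_lit 18) (.e (nat_lit 98335) (nat_lit 18) (.e (nat_lit 164331) (nat_lit 230) (.e (nat_lit 163902) (nat_lit 12) (.e (nat_lit 426566) (nat_lit 34) .nil)))))) (.g (nat_lit 1) (.e (nat_lit 389798) (nat_lit 0) .nil) .nil))))) (.nd (nat_lit 8) (.nd (nat_lit 9) 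
(.lf (nat_lit 585887) (.g (nat_lit 1670) (.e (nat_lit 393253) (nat_lit 18) (.e (nat_lit 164324) (nat_lit 230) (.e (nat_lit 163873) (nat_lit 3) (.e (nat_lit 204811) (nat_lit 9) (.e (nat_lit 426261) (nat_lit 9) (.e (nat_lit 433920) (nat_lit 34) .nil)))))) (.g (nat_lit 1) (.e (nat_lit 389024) (nat_lit 0) .nil) .nil))) 
(.lf (nat_lit 586399) (.g (nat_lit 2368) (.e (nat_lit 393254) (nat_lit 18) (.e (nat_lit 164332) (nat_lit 230) (.e (nat_lit 163869) (nat_lit 2) (.e (nat_lit 196624) (nat_lit 9) (.e (nat_lit 433) (nat_lit 32) .nil))))) (.g (nat_lit 0) (.e (nat_lit 389580) (nat_lit 0) .nil) .nil)))) (.nd (nat_lit 9) 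
(.lf (nat_lit 586143) (.g (nat_lit 2061) (.e (nat_lit 393253) (nat_lit 18) (.e (nat_lit 164332) (nat_lit 230) (.e (nat_lit 163869) (nat_lit 2) (.e (nat_lit 196624) (nat_lit 9) (.e (nat_lit 433) (nat_lit 32) .nil))))) (.g (nat_lit 0) (.e (nat_lit 389289) (nat_lit 0) .nil) .nil))) 
(.lf (nat_lit 586655) (.g (nat_lit 3373) (.e (nat_lit 393272) (nat_lit 23) (.e (nat_lit 426436) (nat_lit 18) (.e (nat_lit 98333) (nat_lit 18) (.e (nat_lit 164325) (nat_lit 230) (.e (nat_lit 163907) (nat_lit 12) (.e (nat_lit 426566) (nat_lit 34) .nil)))))) (.g (nat_lit 1) (.e (nat_lit 389931) (nat_lit 0) .nil) .nil)))))) (.nd (nat_lit 7) (.nd (nat_lit 8) (.nd (nat_lit 9) 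
(.lf (nat_lit 585823) (.g (nat_lit 2528) (.e (nat_lit 393252) (nat_lit 18) (.e (nat_lit 164332) (nat_lit 230) (.e (nat_lit 163869) (nat_lit 2) (.e (nat_lit 196624) (nat_lit 9) (.e (nat_lit 455) (nat_lit 34) (.e (nat_lit 450304) (nat_lit 18) .nil)))))) (.g (nat_lit 1) (.e (nat_lit 388935) (nat_lit 0) .nil) .nil))) 
(.lf (nat_lit 586335) (.g (nat_lit 2307) (.e (nat_lit 393254) (nat_lit 18) (.e (nat_lit 164327) (nat_lit 230) (.e (nat_lit 163870) (nat_lit 2) (.e (nat_lit 196628) (nat_lit 9) .nil)))) (.g (nat_lit 0) (.e (nat_lit 389501) (nat_lit 0) .nil) .nil)))) (.nd (nat_lit 9) 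
(.lf (nat_lit 586079) (.g (nat_lit 2020) (.e (nat_lit 393253) (nat_lit 18) (.e (nat_lit 164327) (nat_lit 230) (.e (nat_lit 163874) (nat_lit 3) (.e (nat_lit 204809) (nat_lit 9) .nil)))) (.g (nat_lit 0) (.e (nat_lit 389223) (nat_lit 0) .nil) .nil))) 
(.lf (nat_lit 586591) (.g (nat_lit 2767) (.e (nat_lit 393271) (nat_lit 23) (.e (nat_lit 426131) (nat_lit 3) (.e (nat_lit 204829) (nat_lit 18) (.e (nat_lit 57652) (nat_lit 152) (.e (nat_lit 2633) (nat_lit 164) (.e (nat_lit 179968) (nat_lit 34) .nil)))))) (.g (nat_lit 1) (.e (nat_lit 389865) (nat_lit 0) .nil) .nil))))) (.nd (nat_lit 8) (.nd (nat_lit 9) 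
(.lf (nat_lit 585951) (.g (nat_lit 1918) (.e (nat_lit 393253) (nat_lit 18) (.e (nat_lit 164326) (nat_lit 230) (.e (nat_lit 163868) (nat_lit 2) (.e (nat_lit 196623) (nat_lit 9) (.e (nat_lit 457) (nat_lit 34) (.e (nat_lit 450304) (nat_lit 18) .nil)))))) (.g (nat_lit 1) (.e (nat_lit 389091) (nat_lit 0) .nil) .nil))) 
(.lf (nat_lit 586463) (.g (nat_lit 3253) (.e (nat_lit 393260) (nat_lit 21) (.e (nat_lit 409617) (nat_lit 10) (.e (nat_lit 5355) (nat_lit 298) (.e (nat_lit 401) (nat_lit 32) (.e (nat_lit 426340) (nat_lit 14) (.e (nat_lit 491571) (nat_lit 13) .nil)))))) (.g (nat_lit 1) (.e (nat_lit 389717) (nat_lit 0) .nil) .nil)))) (.nd (nat_lit 9) 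
(.lf (nat_lit 586207) (.g (nat_lit 2576) (.e (nat_lit 393254) (nat_lit 18) (.e (nat_lit 164324) (nat_lit 230) (.e (nat_lit 163871) (nat_lit 2) (.e (nat_lit 196656) (nat_lit 11) (.e (nat_lit 16433) (nat_lit 9) .nil))))) (.g (nat_lit 0) (.e (nat_lit 389369) (nat_lit 0) .nil) .nil))) 
(.lf (nat_lit 586719) (.g (nat_lit 1131) (.e (nat_lit 393279) (nat_lit 23) (.e (nat_lit 426110) (nat_lit 1) (.e (nat_lit 164332) (nat_lit 230) (.e (nat_lit 163880) (nat_lit 4) .nil)))) (.g (nat_lit 0) (.e (nat_lit 390019) (nat_lit 0) .nil) .nil))))))) (.nd (nat_lit 6) (.nd (nat_lit 7) (.nd (nat_lit 8) (.nd (nat_lit 9) 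
(.lf (nat_lit 585791) (.g (nat_lit 986) (.e (nat_lit 393252) (nat_lit 18) (.e (nat_lit 164330) (nat_lit 230) (.e (nat_lit 163874) (nat_lit 3) (.e (nat_lit 204811) (nat_lit 9) .nil)))) (.g (nat_lit 0) (.e (nat_lit 388902) (nat_lit 0) .nil) .nil))) 
(.lf (nat_lit 586303) (.g (nat_lit 2421) (.e (nat_lit 393254) (nat_lit 18) (.e (nat_lit 164326) (nat_lit 230) (.e (nat_lit 163871) (nat_lit 2) (.e (nat_lit 196630) (nat_lit 9) .nil)))) (.g (nat_lit 0) (.e (nat_lit 389469) (nat_lit 0) .nil) .nil)))) (.nd (nat_lit 9) 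
(.lf (nat_lit 586047) (.g (nat_lit 3601) (.e (nat_lit 393253) (nat_lit 18) (.e (nat_lit 164327) (nat_lit 230) (.e (nat_lit 163868) (nat_lit 2) (.e (nat_lit 196656) (nat_lit 11) (.e (nat_lit 16433) (nat_lit 9) (.e (nat_lit 426568) (nat_lit 34) .nil)))))) (.g (nat_lit 1) (.e (nat_lit 389191) (nat_lit 0) .nil) .nil))) 
(.lf (nat_lit 586559) (.g (nat_lit 3781) (.e (nat_lit 393270) (nat_lit 23) (.e (nat_lit 426436) (nat_lit 18) (.e (nat_lit 98335) (nat_lit 18) (.e (nat_lit 164325) (nat_lit 230) (.e (nat_lit 163903) (nat_lit 12) (.e (nat_lit 426566) (nat_lit 34) .nil)))))) (.g (nat_lit 1) (.e (nat_lit 389832) (nat_lit 0) .nil) .nil))))) (.nd (nat_lit 8) (.nd (nat_lit 9) 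
(.lf (nat_lit 585919) (.g (nat_lit 1672) (.e (nat_lit 393253) (nat_lit 18) (.e (nat_lit 164325) (nat_lit 230) (.e (nat_lit 163871) (nat_lit 2) (.e (nat_lit 196624) (nat_lit 9) (.e (nat_lit 7936) (nat_lit 34) (.e (nat_lit 450304) (nat_lit 18) .nil)))))) (.g (nat_lit 1) (.e (nat_lit 389058) (nat_lit 0) .nil) .nil))) 
(.lf (nat_lit 586431) (.g (nat_lit 2734) (.e (nat_lit 393254) (nat_lit 18) (.e (nat_lit 164332) (nat_lit 230) (.e (nat_lit 163873) (nat_lit 3) (.e (nat_lit 204812) (nat_lit 9) .nil)))) (.g (nat_lit 0) (.e (nat_lit 389612) (nat_lit 0) .nil) .nil)))) (.nd (nat_lit 9) 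
(.lf (nat_lit 586175) (.g (nat_lit 1770) (.e (nat_lit 393253) (nat_lit 18) (.e (nat_lit 164403) (nat_lit 256) (.e (nat_lit 57373) (nat_lit 2) (.e (nat_lit 90168) (nat_lit 13) .nil)))) (.g (nat_lit 0) (.e (nat_lit 389335) (nat_lit 0) .nil) .nil))) 
(.lf (nat_lit 586687) (.g (nat_lit 3476) (.e (nat_lit 393273) (nat_lit 23) (.e (nat_lit 426436) (nat_lit 18) (.e (nat_lit 98334) (nat_lit 18) (.e (nat_lit 164332) (nat_lit 230) (.e (nat_lit 163902) (nat_lit 12) (.e (nat_lit 426566) (nat_lit 34) .nil)))))) (.g (nat_lit 1) (.e (nat_lit 389964) (nat_lit 0) .nil) .nil)))))) (.nd (nat_lit 7) (.nd (nat_lit 8) (.nd (nat_lit 9) 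
(.lf (nat_lit 585855) (.g (nat_lit 2528) (.e (nat_lit 393252) (nat_lit 18) (.e (nat_lit 164398) (nat_lit 256) (.e (nat_lit 57378) (nat_lit 3) (.e (nat_lit 98365) (nat_lit 26) (.e (nat_lit 426190) (nat_lit 9) .nil))))) (.g (nat_lit 0) (.e (nat_lit 388967) (nat_lit 0) .nil) .nil))) 
(.lf (nat_lit 586367) (.g (nat_lit 1883) (.e (nat_lit 393254) (nat_lit 18) (.e (nat_lit 164330) (nat_lit 230) (.e (nat_lit 163869) (nat_lit 2) (.e (nat_lit 196654) (nat_lit 11) .nil)))) (.g (nat_lit 0) (.e (nat_lit 389535) (nat_lit 0) .nil) .nil)))) (.nd (nat_lit 9) 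
(.lf (nat_lit 586111) (.g (nat_lit 3510) (.e (nat_lit 393253) (nat_lit 18) (.e (nat_lit 164330) (nat_lit 230) (.e (nat_lit 163869) (nat_lit 2) (.e (nat_lit 196654) (nat_lit 11) (.e (nat_lit 16435) (nat_lit 9) (.e (nat_lit 426566) (nat_lit 34) .nil)))))) (.g (nat_lit 1) (.e (nat_lit 389257) (nat_lit 0) .nil) .nil))) 
(.lf (nat_lit 586623) (.g (nat_lit 4181) (.e (nat_lit 393271) (nat_lit 23) (.e (nat_lit 426436) (nat_lit 18) (.e (nat_lit 98335) (nat_lit 18) (.e (nat_lit 164324) (nat_lit 230) (.e (nat_lit 163903) (nat_lit 12) (.e (nat_lit 426566) (nat_lit 34) .nil)))))) (.g (nat_lit 1) (.e (nat_lit 389899) (nat_lit 0) .nil) .nil))))) (.nd (nat_lit 8) (.nd (nat_lit 9) 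
(.lf (nat_lit 585983) (.g (nat_lit 2051) (.e (nat_lit 393253) (nat_lit 18) (.e (nat_lit 164326) (nat_lit 230) (.e (nat_lit 163870) (nat_lit 2) (.e (nat_lit 196622) (nat_lit 9) (.e (nat_lit 478) (nat_lit 37) (.e (nat_lit 474880) (nat_lit 18) .nil)))))) (.g (nat_lit 1) (.e (nat_lit 389124) (nat_lit 0) .nil) .nil))) 
(.lf (nat_lit 586495) (.g (nat_lit 4006) (.e (nat_lit 393268) (nat_lit 23) (.e (nat_lit 426436) (nat_lit 18) (.e (nat_lit 98334) (nat_lit 18) (.e (nat_lit 164330) (nat_lit 230) (.e (nat_lit 163902) (nat_lit 12) (.e (nat_lit 426568) (nat_lit 34) .nil)))))) (.g (nat_lit 1) (.e (nat_lit 389766) (nat_lit 0) .nil) .nil)))) (.nd (nat_lit 9) 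
(.lf (nat_lit 586239) (.g (nat_lit 1855) (.e (nat_lit 393254) (nat_lit 18) (.e (nat_lit 164326) (nat_lit 230) (.e (nat_lit 163867) (nat_lit 2) (.e (nat_lit 196654) (nat_lit 11) (.e (nat_lit 16433) (nat_lit 9) .nil))))) (.g (nat_lit 0) (.e (nat_lit 389404) (nat_lit 0) .nil) .nil))) 
(.lf (nat_lit 586751) (.g (nat_lit 2799) (.e (nat_lit 393281) (nat_lit 23) (.e (nat_lit 426098) (nat_lit 1) (.e (nat_lit 164332) (nat_lit 230) (.e (nat_lit 163880) (nat_lit 4) (.e (nat_lit 213030) (nat_lit 11) (.e (nat_lit 24657) (nat_lit 13) .nil)))))) (.g (nat_lit 1) (.e (nat_lit 390058) (nat_lit 0) .nil) .nil)))))))))))))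

noncomputable def tv5633 : DT := (.nd (nat_lit 0) (.nd (nat_lit 1) (.nd (nat_lit 2) (.nd (nat_lit 3) (.nd (nat_lit 4) (.nd (nat_lit 5) (.nd (nat_lit 6) (.nd (nat_lit 7) (.nd (nat_lit 8) (.nd (nat_lit 9) 
(.lf (nat_lit 586752) (.g (nat_lit 2681) (.e (nat_lit 393281) (nat_lit 23) (.e (nat_lit 426098) (nat_lit 1) (.e (nat_lit 164332) (nat_lit 230) (.e (nat_lit 163880) (nat_lit 4) (.e (nat_lit 213031) (nat_lit 11) .nil))))) (.g (nat_lit 0) (.e (nat_lit 390059) (nat_lit 0) .nil) .nil))) 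
(.lf (nat_lit 587264) (.g (nat_lit 2081) (.e (nat_lit 393295) (nat_lit 26) (.e (nat_lit 475210) (nat_lit 41) (.e (nat_lit 712745) (nat_lit 27) (.e (nat_lit 426347) (nat_lit 14) (.e (nat_lit 491568) (nat_lit 13) .nil))))) (.g (nat_lit 0) (.e (nat_lit 390689) (nat_lit 0) .nil) .nil)))) (.nd (nat_lit 9) 
(.lf (nat_lit 587008) (.g (nat_lit 1963) (.e (nat_lit 393287) (nat_lit 25) (.e (nat_lit 458789) (nat_lit 23) (.e (nat_lit 532499) (nat_lit 1) (.e (nat_lit 57652) (nat_lit 152) (.e (nat_lit 2633) (nat_lit 164) (.e (nat_lit 179968) (nat_lit 34) .nil)))))) (.g (nat_lit 1) (.e (nat_lit 390425) (nat_lit 0) .nil) .nil))) 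
(.lf (nat_lit 587520) (.g (nat_lit 2690) (.e (nat_lit 401428) (nat_lit 3) (.e (nat_lit 204869) (nat_lit 29) (.e (nat_lit 360471) (nat_lit 7) (.e (nat_lit 548878) (nat_lit 5) .nil)))) (.g (nat_lit 0) (.e (nat_lit 391240) (nat_lit 0) .nil) .nil))))) (.nd (nat_lit 8) (.nd (nat_lit 9) 
(.lf (nat_lit 586880) (.g (nat_lit 2799) (.e (nat_lit 393282) (nat_lit 24) (.e (nat_lit 434231) (nat_lit 23) (.e (nat_lit 532502) (nat_lit 1) (.e (nat_lit 57688) (nat_lit 156) (.e (nat_lit 163907) (nat_lit 12) (.e (nat_lit 426568) (nat_lit 34) .nil)))))) (.g (nat_lit 1) (.e (nat_lit 390215) (nat_lit 0) .nil) .nil))) 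
(.lf (nat_lit 587392) (.g (nat_lit 3972) (.e (nat_lit 401425) (nat_lit 2) (.e (nat_lit 196666) (nat_lit 13) (.e (nat_lit 65610) (nat_lit 10) (.e (nat_lit 344129) (nat_lit 26) (.e (nat_lit 557087) (nat_lit 11) (.e (nat_lit 24664) (nat_lit 14) .nil)))))) (.g (nat_lit 1) (.e (nat_lit 390927) (nat_lit 0) .nil) .nil)))) (.nd (nat_lit 9) 
(.lf (nat_lit 587136) (.g (nat_lit 1463) (.e (nat_lit 393291) (nat_lit 26) (.e (nat_lit 475214) (nat_lit 42) (.e (nat_lit 720911) (nat_lit 20) .nil))) (.g (nat_lit 0) (.e (nat_lit 390559) (nat_lit 0) .nil) .nil))) 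
(.lf (nat_lit 587648) (.g (nat_lit 1979) (.e (nat_lit 401446) (nat_lit 10) (.e (nat_lit 434272) (nat_lit 38) (.e (nat_lit 655364) (nat_lit 0) (.e (nat_lit 3022) (nat_lit 187) (.e (nat_lit 450569) (nat_lit 0) .nil))))) (.g (nat_lit 0) (.e (nat_lit 391784) (nat_lit 0) .nil) .nil)))))) (.nd (nat_lit 7) (.nd (nat_lit 8) (.nd (nat_lit 9) 
(.lf (nat_lit 586816) (.g (nat_lit 4137) (.e (nat_lit 393281) (nat_lit 23) (.e (nat_lit 426108) (nat_lit 1) (.e (nat_lit 164332) (nat_lit 230) (.e (nat_lit 163880) (nat_lit 4) (.e (nat_lit 213032) (nat_lit 11) .nil))))) (.g (nat_lit 0) (.e (nat_lit 390135) (nat_lit 0) .nil) .nil))) 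
(.lf (nat_lit 587328) (.g (nat_lit 1841) (.e (nat_lit 393296) (nat_lit 26) (.e (nat_lit 475196) (nat_lit 40) (.e (nat_lit 704592) (nat_lit 4) (.e (nat_lit 172126) (nat_lit 14) (.e (nat_lit 491567) (nat_lit 13) .nil))))) (.g (nat_lit 1) (.e (nat_lit 390753) (nat_lit 0) .nil) .nil)))) (.nd (nat_lit 9) 
(.lf (nat_lit 587072) (.g (nat_lit 2326) (.e (nat_lit 393291) (nat_lit 26) (.e (nat_lit 475176) (nat_lit 24) (.e (nat_lit 516115) (nat_lit 1) (.e (nat_lit 164325) (nat_lit 230) (.e (nat_lit 163904) (nat_lit 12) .nil))))) (.g (nat_lit 0) (.e (nat_lit 390495) (nat_lit 0) .nil) .nil))) 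
(.lf (nat_lit 587584) (.g (nat_lit 377) (.e (nat_lit 401437) (nat_lit 9) (.e (nat_lit 426482) (nat_lit 27) (.e (nat_lit 336060) (nat_lit 7) .nil))) (.g (nat_lit 0) (.e (nat_lit 391471) (nat_lit 0) .nil) .nil))))) (.nd (nat_lit 8) (.nd (nat_lit 9) 
(.lf (nat_lit 586944) (.g (nat_lit 2844) (.e (nat_lit 393284) (nat_lit 24) (.e (nat_lit 434272) (nat_lit 38) (.e (nat_lit 655376) (nat_lit 4) (.e (nat_lit 172126) (nat_lit 14) (.e (nat_lit 491570) (nat_lit 13) .nil))))) (.g (nat_lit 1) (.e (nat_lit 390321) (nat_lit 0) .nil) .nil))) 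
(.lf (nat_lit 587456) (.g (nat_lit 1358) (.e (nat_lit 401428) (nat_lit 3) (.e (nat_lit 204829) (nat_lit 18) (.e (nat_lit 57731) (nat_lit 181) (.e (nat_lit 1190) (nat_lit 88) .nil)))) (.g (nat_lit 0) (.e (nat_lit 391086) (nat_lit 0) .nil) .nil)))) (.nd (nat_lit 9) 
(.lf (nat_lit 587200) (.g (nat_lit 3297) (.e (nat_lit 393293) (nat_lit 26) (.e (nat_lit 475179) (nat_lit 24) (.e (nat_lit 516120) (nat_lit 1) (.e (nat_lit 164332) (nat_lit 230) (.e (nat_lit 163905) (nat_lit 12) (.e (nat_lit 426566) (nat_lit 34) .nil)))))) (.g (nat_lit 1) (.e (nat_lit 390623) (nat_lit 0) .nil) .nil))) 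
(.lf (nat_lit 587712) (.g (nat_lit 6269) (.e (nat_lit 401448) (nat_lit 10) (.e (nat_lit 434238) (nat_lit 25) (.e (nat_lit 548913) (nat_lit 18) (.e (nat_lit 172094) (nat_lit 9) (.e (nat_lit 426125) (nat_lit 2) (.e (nat_lit 196631) (nat_lit 9) (.e (nat_lit 1673) (nat_lit 116) .nil))))))) (.g (nat_lit 1) (.e (nat_lit 391976) (nat_lit 0) .nil) .nil))))))) 
(.nd (nat_lit 6) (.nd (nat_lit 7) (.nd (nat_lit 8) (.nd (nat_lit 9) 
(.lf (nat_lit 586784) (.g (nat_lit 1344) (.e (nat_lit 393281) (nat_lit 23) (.e (nat_lit 426100) (nat_lit 1) (.e (nat_lit 164330) (nat_lit 230) (.e (nat_lit 163876) (nat_lit 4) .nil)))) (.g (nat_lit 0) (.e (nat_lit 390097) (nat_lit 0) .nil) .nil))) 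
(.lf (nat_lit 587296) (.g (nat_lit 3734) (.e (nat_lit 393296) (nat_lit 26) (.e (nat_lit 475178) (nat_lit 24) (.e (nat_lit 516117) (nat_lit 1) (.e (nat_lit 164330) (nat_lit 230) (.e (nat_lit 163902) (nat_lit 12) (.e (nat_lit 426566) (nat_lit 34) .nil)))))) (.g (nat_lit 1) (.e (nat_lit 390721) (nat_lit 0) .nil) .nil)))) (.nd (nat_lit 9) 
(.lf (nat_lit 587040) (.g (nat_lit 2992) (.e (nat_lit 393287) (nat_lit 25) (.e (nat_lit 458789) (nat_lit 23) (.e (nat_lit 532503) (nat_lit 1) (.e (nat_lit 57688) (nat_lit 156) (.e (nat_lit 163903) (nat_lit 12) (.e (nat_lit 426566) (nat_lit 34) .nil)))))) (.g (nat_lit 1) (.e (nat_lit 390459) (nat_lit 0) .nil) .nil))) 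
(.lf (nat_lit 587552) (.g (nat_lit 2812) (.e (nat_lit 401428) (nat_lit 3) (.e (nat_lit 204876) (nat_lit 31) (.e (nat_lit 376835) (nat_lit 0) (.e (nat_lit 3305) (nat_lit 202) (.e (nat_lit 573485) (nat_lit 13) (.e (nat_lit 65630) (nat_lit 14) .nil)))))) (.g (nat_lit 1) (.e (nat_lit 391354) (nat_lit 0) .nil) .nil))))) (.nd (nat_lit 8) (.nd (nat_lit 9) 
(.lf (nat_lit 586912) (.g (nat_lit 2842) (.e (nat_lit 393283) (nat_lit 24) (.e (nat_lit 434231) (nat_lit 23) (.e (nat_lit 532500) (nat_lit 1) (.e (nat_lit 57651) (nat_lit 152) (.e (nat_lit 2619) (nat_lit 164) (.e (nat_lit 179968) (nat_lit 34) .nil)))))) (.g (nat_lit 1) (.e (nat_lit 390256) (nat_lit 0) .nil) .nil))) 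
(.lf (nat_lit 587424) (.g (nat_lit 3867) (.e (nat_lit 401426) (nat_lit 3) (.e (nat_lit 204869) (nat_lit 29) (.e (nat_lit 360475) (nat_lit 8) (.e (nat_lit 557087) (nat_lit 11) (.e (nat_lit 24664) (nat_lit 14) .nil))))) (.g (nat_lit 1) (.e (nat_lit 390998) (nat_lit 0) .nil) .nil)))) (.nd (nat_lit 9) 
(.lf (nat_lit 587168) (.g (nat_lit 2713) (.e (nat_lit 393293) (nat_lit 26) (.e (nat_lit 475177) (nat_lit 24) (.e (nat_lit 516117) (nat_lit 1) (.e (nat_lit 164332) (nat_lit 230) (.e (nat_lit 163905) (nat_lit 12) (.e (nat_lit 426566) (nat_lit 34) .nil)))))) (.g (nat_lit 1) (.e (nat_lit 390591) (nat_lit 0) .nil) .nil))) 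
(.lf (nat_lit 587680) (.g (nat_lit 3872) (.e (nat_lit 401448) (nat_lit 10) (.e (nat_lit 434231) (nat_lit 23) (.e (nat_lit 532523) (nat_lit 7) (.e (nat_lit 319504) (nat_lit 10) (.e (nat_lit 5712) (nat_lit 312) .nil))))) (.g (nat_lit 0) (.e (nat_lit 391934) (nat_lit 0) .nil) .nil)))))) (.nd (nat_lit 7) (.nd (nat_lit 8) (.nd (nat_lit 9) 
(.lf (nat_lit 586848) (.g (nat_lit 3275) (.e (nat_lit 393282) (nat_lit 24) (.e (nat_lit 434209) (nat_lit 18) (.e (nat_lit 5547) (nat_lit 306) (.e (nat_lit 2638) (nat_lit 165) (.e (nat_lit 180278) (nat_lit 32) (.e (nat_lit 1660) (nat_lit 115) .nil)))))) (.g (nat_lit 1) (.e (nat_lit 390180) (nat_lit 0) .nil) .nil))) 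
(.lf (nat_lit 587360) (.g (nat_lit 2160) (.e (nat_lit 401414) (nat_lit 0) (.e (nat_lit 3459) (nat_lit 216) (.e (nat_lit 688140) (nat_lit 5) (.e (nat_lit 2852) (nat_lit 184) (.e (nat_lit 426438) (nat_lit 18) (.e (nat_lit 98370) (nat_lit 28) (.e (nat_lit 442391) (nat_lit 19) .nil))))))) (.g (nat_lit 1) (.e (nat_lit 390849) (nat_lit 0) .nil) .nil)))) (.nd (nat_lit 9) 
(.lf (nat_lit 587104) (.g (nat_lit 1926) (.e (nat_lit 393291) (nat_lit 26) (.e (nat_lit 475177) (nat_lit 24) (.e (nat_lit 516119) (nat_lit 1) (.e (nat_lit 164329) (nat_lit 230) (.e (nat_lit 163904) (nat_lit 12) .nil))))) (.g (nat_lit 0) (.e (nat_lit 390527) (nat_lit 0) .nil) .nil))) 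
(.lf (nat_lit 587616) (.g (nat_lit 286) (.e (nat_lit 401444) (nat_lit 9) (.e (nat_lit 426163) (nat_lit 6) (.e (nat_lit 253991) (nat_lit 11) .nil))) (.g (nat_lit 0) (.e (nat_lit 391568) (nat_lit 0) .nil) .nil))))) (.nd (nat_lit 8) (.nd (nat_lit 9) 
(.lf (nat_lit 586976) (.g (nat_lit 1797) (.e (nat_lit 393286) (nat_lit 25) (.e (nat_lit 458789) (nat_lit 23) (.e (nat_lit 532501) (nat_lit 1) (.e (nat_lit 57651) (nat_lit 152) (.e (nat_lit 2633) (nat_lit 164) (.e (nat_lit 179968) (nat_lit 34) .nil)))))) (.g (nat_lit 1) (.e (nat_lit 390377) (nat_lit 0) .nil) .nil))) 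
(.lf (nat_lit 587488) (.g (nat_lit 1001) (.e (nat_lit 401428) (nat_lit 3) (.e (nat_lit 204868) (nat_lit 29) (.e (nat_lit 360473) (nat_lit 8) (.e (nat_lit 557068) (nat_lit 9) .nil)))) (.g (nat_lit 0) (.e (nat_lit 391160) (nat_lit 0) .nil) .nil)))) (.nd (nat_lit 9) 
(.lf (nat_lit 587232) (.g (nat_lit 3668) (.e (nat_lit 393294) (nat_lit 26) (.e (nat_lit 475179) (nat_lit 24) (.e (nat_lit 516120) (nat_lit 1) (.e (nat_lit 164330) (nat_lit 230) (.e (nat_lit 163902) (nat_lit 12) (.e (nat_lit 426567) (nat_lit 34) .nil)))))) (.g (nat_lit 1) (.e (nat_lit 390655) (nat_lit 0) .nil) .nil))) 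
(.lf (nat_lit 587744) (.g (nat_lit 2402) (.e (nat_lit 401448) (nat_lit 10) (.e (nat_lit 434248) (nat_lit 28) (.e (nat_lit 573471) (nat_lit 11) (.e (nat_lit 16450) (nat_lit 11) (.e (nat_lit 458789) (nat_lit 23) .nil))))) (.g (nat_lit 0) (.e (nat_lit 392031) (nat_lit 0) .nil) .nil)))))))) (.nd (nat_lit 5) (.nd (nat_lit 6) (.nd (nat_lit 7) (.nd (nat_lit 8) (.nd (nat_lit 9) 
(.lf (nat_lit 586768) (.g (nat_lit 3238) (.e (nat_lit 393281) (nat_lit 23) (.e (nat_lit 426099) (nat_lit 1) (.e (nat_lit 164332) (nat_lit 230) (.e (nat_lit 163843) (nat_lit 0) (.e (nat_lit 3617) (nat_lit 227) (.e (nat_lit 778462) (nat_lit 11) (.e (nat_lit 24658) (nat_lit 13) .nil))))))) (.g (nat_lit 1) (.e (nat_lit 390078) (nat_lit 0) .nil) .nil))) 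
(.lf (nat_lit 587280) (.g (nat_lit 3813) (.e (nat_lit 393296) (nat_lit 26) (.e (nat_lit 475177) (nat_lit 24) (.e (nat_lit 516119) (nat_lit 1) (.e (nat_lit 164325) (nat_lit 230) (.e (nat_lit 163903) (nat_lit 12) (.e (nat_lit 426566) (nat_lit 34) .nil)))))) (.g (nat_lit 1) (.e (nat_lit 390705) (nat_lit 0) .nil) .nil)))) (.nd (nat_lit 9) 
(.lf (nat_lit 587024) (.g (nat_lit 2531) (.e (nat_lit 393287) (nat_lit 25) (.e (nat_lit 458789) (nat_lit 23) (.e (nat_lit 532501) (nat_lit 1) (.e (nat_lit 57651) (nat_lit 152) (.e (nat_lit 2619) (nat_lit 164) (.e (nat_lit 179968) (nat_lit 34) .nil)))))) (.g (nat_lit 1) (.e (nat_lit 390443) (nat_lit 0) .nil) .nil))) 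
(.lf (nat_lit 587536) (.g (nat_lit 3482) (.e (nat_lit 401428) (nat_lit 3) (.e (nat_lit 204869) (nat_lit 29) (.e (nat_lit 360474) (nat_lit 8) (.e (nat_lit 557065) (nat_lit 9) (.e (nat_lit 7936) (nat_lit 21) .nil))))) (.g (nat_lit 0) (.e (nat_lit 391257) (nat_lit 0) .nil) .nil))))) (.nd (nat_lit 8) (.nd (nat_lit 9) 
(.lf (nat_lit 586896) (.g (nat_lit 2048) (.e (nat_lit 393282) (nat_lit 24) (.e (nat_lit 434233) (nat_lit 23) (.e (nat_lit 532504) (nat_lit 1) (.e (nat_lit 57692) (nat_lit 156) (.e (nat_lit 163907) (nat_lit 12) (.e (nat_lit 426566) (nat_lit 34) .nil)))))) (.g (nat_lit 1) (.e (nat_lit 390231) (nat_lit 0) .nil) .nil))) 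
(.lf (nat_lit 587408) (.g (nat_lit 1751) (.e (nat_lit 401425) (nat_lit 2) (.e (nat_lit 196666) (nat_lit 13) (.e (nat_lit 65630) (nat_lit 14) (.e (nat_lit 401428) (nat_lit 3) (.e (nat_lit 204858) (nat_lit 26) .nil))))) (.g (nat_lit 0) (.e (nat_lit 390946) (nat_lit 0) .nil) .nil)))) (.nd (nat_lit 9) 
(.lf (nat_lit 587152) (.g (nat_lit 3013) (.e (nat_lit 393293) (nat_lit 26) (.e (nat_lit 475177) (nat_lit 24) (.e (nat_lit 516115) (nat_lit 1) (.e (nat_lit 164325) (nat_lit 230) (.e (nat_lit 163901) (nat_lit 12) (.e (nat_lit 426566) (nat_lit 34) .nil)))))) (.g (nat_lit 1) (.e (nat_lit 390575) (nat_lit 0) .nil) .nil))) 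
(.lf (nat_lit 587664) (.g (nat_lit 1636) (.e (nat_lit 401447) (nat_lit 10) (.e (nat_lit 434238) (nat_lit 25) (.e (nat_lit 548898) (nat_lit 14) (.e (nat_lit 2999) (nat_lit 186) .nil)))) (.g (nat_lit 0) (.e (nat_lit 391827) (nat_lit 0) .nil) .nil)))))) (.nd (nat_lit 7) (.nd (nat_lit 8) (.nd (nat_lit 9) 
(.lf (nat_lit 586832) (.g (nat_lit 1375) (.e (nat_lit 401152) (nat_lit 23) (.e (nat_lit 426098) (nat_lit 1) (.e (nat_lit 164325) (nat_lit 230) (.e (nat_lit 163882) (nat_lit 4) (.e (nat_lit 213030) (nat_lit 11) .nil))))) (.g (nat_lit 0) (.e (nat_lit 390159) (nat_lit 0) .nil) .nil))) 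
(.lf (nat_lit 587344) (.g (nat_lit 3986) (.e (nat_lit 393301) (nat_lit 27) (.e (nat_lit 491560) (nat_lit 10) (.e (nat_lit 344179) (nat_lit 44) (.e (nat_lit 778465) (nat_lit 11) (.e (nat_lit 24658) (nat_lit 13) .nil))))) (.g (nat_lit 1) (.e (nat_lit 390788) (nat_lit 0) .nil) .nil)))) (.nd (nat_lit 9) 
(.lf (nat_lit 587088) (.g (nat_lit 3661) (.e (nat_lit 393291) (nat_lit 26) (.e (nat_lit 475177) (nat_lit 24) (.e (nat_lit 516117) (nat_lit 1) (.e (nat_lit 164330) (nat_lit 230) (.e (nat_lit 163902) (nat_lit 12) (.e (nat_lit 426564) (nat_lit 34) .nil)))))) (.g (nat_lit 1) (.e (nat_lit 390511) (nat_lit 0) .nil) .nil))) 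
(.lf (nat_lit 587600) (.g (nat_lit 1541) (.e (nat_lit 401438) (nat_lit 9) (.e (nat_lit 426533) (nat_lit 28) (.e (nat_lit 344067) (nat_lit 0) (.e (nat_lit 2940) (nat_lit 184) (.e (nat_lit 426508) (nat_lit 27) (.e (nat_lit 336228) (nat_lit 14) .nil)))))) (.g (nat_lit 1) (.e (nat_lit 391499) (nat_lit 0) .nil) .nil))))) (.nd (nat_lit 8) (.nd (nat_lit 9) 
(.lf (nat_lit 586960) (.g (nat_lit 1563) (.e (nat_lit 393286) (nat_lit 25) (.e (nat_lit 458789) (nat_lit 23) (.e (nat_lit 532499) (nat_lit 1) (.e (nat_lit 57655) (nat_lit 152) (.e (nat_lit 2633) (nat_lit 164) (.e (nat_lit 179968) (nat_lit 34) .nil)))))) (.g (nat_lit 1) (.e (nat_lit 390360) (nat_lit 0) .nil) .nil))) 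
(.lf (nat_lit 587472) (.g (nat_lit 2600) (.e (nat_lit 401428) (nat_lit 3) (.e (nat_lit 204855) (nat_lit 26) (.e (nat_lit 336200) (nat_lit 12) (.e (nat_lit 385074) (nat_lit 31) (.e (nat_lit 573482) (nat_lit 13) .nil))))) (.g (nat_lit 0) (.e (nat_lit 391110) (nat_lit 0) .nil) .nil)))) (.nd (nat_lit 9) 
(.lf (nat_lit 587216) (.g (nat_lit 1975) (.e (nat_lit 393294) (nat_lit 26) (.e (nat_lit 475177) (nat_lit 24) (.e (nat_lit 516119) (nat_lit 1) (.e (nat_lit 164332) (nat_lit 230) (.e (nat_lit 163904) (nat_lit 12) .nil))))) (.g (nat_lit 0) (.e (nat_lit 390639) (nat_lit 0) .nil) .nil))) 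
(.lf (nat_lit 587728) (.g (nat_lit 1917) (.e (nat_lit 401448) (nat_lit 10) (.e (nat_lit 434244) (nat_lit 28) (.e (nat_lit 573471) (nat_lit 11) (.e (nat_lit 24320) (nat_lit 9) .nil)))) (.g (nat_lit 0) (.e (nat_lit 392003) (nat_lit 0) .nil) .nil))))))) (.nd (nat_lit 6) (.nd (nat_lit 7) (.nd (nat_lit 8) (.nd (nat_lit 9) 
(.lf (nat_lit 586800) (.g (nat_lit 2793) (.e (nat_lit 393281) (nat_lit 23) (.e (nat_lit 426100) (nat_lit 1) (.e (nat_lit 164332) (nat_lit 230) (.e (nat_lit 163880) (nat_lit 4) (.e (nat_lit 213030) (nat_lit 11) (.e (nat_lit 24660) (nat_lit 13) .nil)))))) (.g (nat_lit 1) (.e (nat_lit 390113) (nat_lit 0) .nil) .nil))) 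
(.lf (nat_lit 587312) (.g (nat_lit 4133) (.e (nat_lit 393296) (nat_lit 26) (.e (nat_lit 475179) (nat_lit 24) (.e (nat_lit 516115) (nat_lit 1) (.e (nat_lit 164325) (nat_lit 230) (.e (nat_lit 163907) (nat_lit 12) (.e (nat_lit 426566) (nat_lit 34) .nil)))))) (.g (nat_lit 1) (.e (nat_lit 390737) (nat_lit 0) .nil) .nil)))) (.nd (nat_lit 9) 
(.lf (nat_lit 587056) (.g (nat_lit 2217) (.e (nat_lit 393290) (nat_lit 26) (.e (nat_lit 475177) (nat_lit 24) (.e (nat_lit 516115) (nat_lit 1) (.e (nat_lit 164325) (nat_lit 230) (.e (nat_lit 163907) (nat_lit 12) .nil))))) (.g (nat_lit 0) (.e (nat_lit 390478) (nat_lit 0) .nil) .nil))) 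
(.lf (nat_lit 587568) (.g (nat_lit 1761) (.e (nat_lit 401434) (nat_lit 9) (.e (nat_lit 426125) (nat_lit 2) (.e (nat_lit 196661) (nat_lit 12) (.e (nat_lit 57721) (nat_lit 177) .nil)))) (.g (nat_lit 0) (.e (nat_lit 391424) (nat_lit 0) .nil) .nil))))) (.nd (nat_lit 8) (.nd (nat_lit 9) 
(.lf (nat_lit 586928) (.g (nat_lit 1727) (.e (nat_lit 393283) (nat_lit 24) (.e (nat_lit 434275) (nat_lit 39) (.e (nat_lit 663589) (nat_lit 14) (.e (nat_lit 2807) (nat_lit 180) (.e (nat_lit 303146) (nat_lit 14) .nil))))) (.g (nat_lit 0) (.e (nat_lit 390288) (nat_lit 0) .nil) .nil))) 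
(.lf (nat_lit 587440) (.g (nat_lit 787) (.e (nat_lit 401427) (nat_lit 3) (.e (nat_lit 204869) (nat_lit 29) (.e (nat_lit 360455) (nat_lit 0) .nil))) (.g (nat_lit 0) (.e (nat_lit 391056) (nat_lit 0) .nil) .nil)))) (.nd (nat_lit 9) 
(.lf (nat_lit 587184) (.g (nat_lit 2958) (.e (nat_lit 393293) (nat_lit 26) (.e (nat_lit 475177) (nat_lit 24) (.e (nat_lit 516120) (nat_lit 1) (.e (nat_lit 164330) (nat_lit 230) (.e (nat_lit 163905) (nat_lit 12) (.e (nat_lit 426567) (nat_lit 34) .nil)))))) (.g (nat_lit 1) (.e (nat_lit 390607) (nat_lit 0) .nil) .nil))) 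
(.lf (nat_lit 587696) (.g (nat_lit 2741) (.e (nat_lit 401448) (nat_lit 10) (.e (nat_lit 434231) (nat_lit 23) (.e (nat_lit 532569) (nat_lit 16) (.e (nat_lit 401444) (nat_lit 9) (.e (nat_lit 426071) (nat_lit 0) .nil))))) (.g (nat_lit 0) (.e (nat_lit 391952) (nat_lit 0) .nil) .nil)))))) (.nd (nat_lit 7) (.nd (nat_lit 8) (.nd (nat_lit 9) 
(.lf (nat_lit 586864) (.g (nat_lit 4325) (.e (nat_lit 393282) (nat_lit 24) (.e (nat_lit 434231) (nat_lit 23) (.e (nat_lit 532499) (nat_lit 1) (.e (nat_lit 57688) (nat_lit 156) (.e (nat_lit 163907) (nat_lit 12) (.e (nat_lit 426568) (nat_lit 34) .nil)))))) (.g (nat_lit 1) (.e (nat_lit 390199) (nat_lit 0) .nil) .nil))) 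
(.lf (nat_lit 587376) (.g (nat_lit 596) (.e (nat_lit 401424) (nat_lit 2) (.e (nat_lit 196672) (nat_lit 15) (.e (nat_lit 81946) (nat_lit 20) .nil))) (.g (nat_lit 0) (.e (nat_lit 390903) (nat_lit 0) .nil) .nil)))) (.nd (nat_lit 9) 
(.lf (nat_lit 587120) (.g (nat_lit 1568) (.e (nat_lit 393291) (nat_lit 26) (.e (nat_lit 475179) (nat_lit 24) (.e (nat_lit 516115) (nat_lit 1) (.e (nat_lit 164329) (nat_lit 230) .nil)))) (.g (nat_lit 0) (.e (nat_lit 390543) (nat_lit 0) .nil) .nil))) 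
(.lf (nat_lit 587632) (.g (nat_lit 2129) (.e (nat_lit 401446) (nat_lit 10) (.e (nat_lit 434202) (nat_lit 18) (.e (nat_lit 6420) (nat_lit 341) (.e (nat_lit 163843) (nat_lit 0) (.e (nat_lit 7936) (nat_lit 392) (.e (nat_lit 172150) (nat_lit 27) (.e (nat_lit 336231) (nat_lit 14) .nil))))))) (.g (nat_lit 1) (.e (nat_lit 391620) (nat_lit 0) .nil) .nil))))) (.nd (nat_lit 8) (.nd (nat_lit 9) 
(.lf (nat_lit 586992) (.g (nat_lit 2982) (.e (nat_lit 393286) (nat_lit 25) (.e (nat_lit 458789) (nat_lit 23) (.e (nat_lit 532503) (nat_lit 1) (.e (nat_lit 57688) (nat_lit 156) (.e (nat_lit 163903) (nat_lit 12) (.e (nat_lit 426566) (nat_lit 34) .nil)))))) (.g (nat_lit 1) (.e (nat_lit 390393) (nat_lit 0) .nil) .nil))) 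
(.lf (nat_lit 587504) (.g (nat_lit 3356) (.e (nat_lit 401428) (nat_lit 3) (.e (nat_lit 204869) (nat_lit 29) (.e (nat_lit 360450) (nat_lit 0) (.e (nat_lit 4160) (nat_lit 250) .nil)))) (.g (nat_lit 0) (.e (nat_lit 391182) (nat_lit 0) .nil) .nil)))) (.nd (nat_lit 9) 
(.lf (nat_lit 587248) (.g (nat_lit 3203) (.e (nat_lit 393295) (nat_lit 26) (.e (nat_lit 475177) (nat_lit 24) (.e (nat_lit 516118) (nat_lit 1) (.e (nat_lit 164327) (nat_lit 230) (.e (nat_lit 163903) (nat_lit 12) (.e (nat_lit 426566) (nat_lit 34) .nil)))))) (.g (nat_lit 1) (.e (nat_lit 390673) (nat_lit 0) .nil) .nil))) 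
(.lf (nat_lit 587760) (.g (nat_lit 3441) (.e (nat_lit 401450) (nat_lit 12) (.e (nat_lit 475184) (nat_lit 29) (.e (nat_lit 557109) (nat_lit 15) (.e (nat_lit 188452) (nat_lit 23) (.e (nat_lit 204885) (nat_lit 33) .nil))))) (.g (nat_lit 1) (.e (nat_lit 392088) (nat_lit 0) .nil) .nil))))))))) (.nd (nat_lit 4) (.nd (nat_lit 5) (.nd (nat_lit 6) (.nd (nat_lit 7) (.nd (nat_lit 8) (.nd (nat_lit 9) 
(.lf (nat_lit 586760) (.g (nat_lit 1595) (.e (nat_lit 393281) (nat_lit 23) (.e (nat_lit 426099) (nat_lit 1) (.e (nat_lit 164305) (nat_lit 226) (.e (nat_lit 2612) (nat_lit 163) (.e (nat_lit 164046) (nat_lit 55) .nil))))) (.g (nat_lit 0) (.e (nat_lit 390069) (nat_lit 0) .nil) .nil))) 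
(.lf (nat_lit 587272) (.g (nat_lit 4239) (.e (nat_lit 393296) (nat_lit 26) (.e (nat_lit 475177) (nat_lit 24) (.e (nat_lit 516115) (nat_lit 1) (.e (nat_lit 164325) (nat_lit 230) (.e (nat_lit 163903) (nat_lit 12) (.e (nat_lit 426566) (nat_lit 34) .nil)))))) (.g (nat_lit 1) (.e (nat_lit 390697) (nat_lit 0) .nil) .nil)))) (.nd (nat_lit 9) 
(.lf (nat_lit 587016) (.g (nat_lit 3369) (.e (nat_lit 393287) (nat_lit 25) (.e (nat_lit 458789) (nat_lit 23) (.e (nat_lit 532499) (nat_lit 1) (.e (nat_lit 57688) (nat_lit 156) (.e (nat_lit 163902) (nat_lit 12) (.e (nat_lit 426568) (nat_lit 34) .nil)))))) (.g (nat_lit 1) (.e (nat_lit 390435) (nat_lit 0) .nil) .nil))) 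
(.lf (nat_lit 587528) (.g (nat_lit 3366) (.e (nat_lit 401428) (nat_lit 3) (.e (nat_lit 204869) (nat_lit 29) (.e (nat_lit 360474) (nat_lit 8) (.e (nat_lit 557065) (nat_lit 9) (.e (nat_lit 232) (nat_lit 21) .nil))))) (.g (nat_lit 0) (.e (nat_lit 391249) (nat_lit 0) .nil) .nil))))) (.nd (nat_lit 8) (.nd (nat_lit 9) 
(.lf (nat_lit 586888) (.g (nat_lit 2349) (.e (nat_lit 393282) (nat_lit 24) (.e (nat_lit 434233) (nat_lit 23) (.e (nat_lit 532499) (nat_lit 1) (.e (nat_lit 57688) (nat_lit 156) (.e (nat_lit 163902) (nat_lit 12) (.e (nat_lit 426568) (nat_lit 34) .nil)))))) (.g (nat_lit 1) (.e (nat_lit 390223) (nat_lit 0) .nil) .nil))) 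
(.lf (nat_lit 587400) (.g (nat_lit 2122) (.e (nat_lit 401425) (nat_lit 2) (.e (nat_lit 196666) (nat_lit 13) (.e (nat_lit 65624) (nat_lit 12) (.e (nat_lit 385045) (nat_lit 21) .nil)))) (.g (nat_lit 0) (.e (nat_lit 390935) (nat_lit 0) .nil) .nil)))) (.nd (nat_lit 9) 
(.lf (nat_lit 587144) (.g (nat_lit 219) (.e (nat_lit 393292) (nat_lit 26) (.e (nat_lit 475197) (nat_lit 40) (.e (nat_lit 704592) (nat_lit 4) .nil))) (.g (nat_lit 0) (.e (nat_lit 390567) (nat_lit 0) .nil) .nil))) 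
(.lf (nat_lit 587656) (.g (nat_lit 2870) (.e (nat_lit 401446) (nat_lit 10) (.e (nat_lit 434289) (nat_lit 43) (.e (nat_lit 696329) (nat_lit 5) (.e (nat_lit 3004) (nat_lit 186) (.e (nat_lit 442390) (nat_lit 11) (.e (nat_lit 336231) (nat_lit 14) .nil)))))) (.g (nat_lit 1) (.e (nat_lit 391799) (nat_lit 0) .nil) .nil)))))) (.nd (nat_lit 7) (.nd (nat_lit 8) (.nd (nat_lit 9) 
(.lf (nat_lit 586824) (.g (nat_lit 2673) (.e (nat_lit 393281) (nat_lit 23) (.e (nat_lit 426137) (nat_lit 3) (.e (nat_lit 204829) (nat_lit 18) (.e (nat_lit 57688) (nat_lit 156) (.e (nat_lit 163905) (nat_lit 12) (.e (nat_lit 426568) (nat_lit 34) .nil)))))) (.g (nat_lit 1) (.e (nat_lit 390149) (nat_lit 0) .nil) .nil))) 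
(.lf (nat_lit 587336) (.g (nat_lit 1566) (.e (nat_lit 393298) (nat_lit 27) (.e (nat_lit 491566) (nat_lit 12) (.e (nat_lit 385078) (nat_lit 35) (.e (nat_lit 606243) (nat_lit 11) .nil)))) (.g (nat_lit 0) (.e (nat_lit 390769) (nat_lit 0) .nil) .nil)))) (.nd (nat_lit 9) 
(.lf (nat_lit 587080) (.g (nat_lit 3683) (.e (nat_lit 393291) (nat_lit 26) (.e (nat_lit 475177) (nat_lit 24) (.e (nat_lit 516115) (nat_lit 1) (.e (nat_lit 164325) (nat_lit 230) (.e (nat_lit 163907) (nat_lit 12) (.e (nat_lit 426564) (nat_lit 34) .nil)))))) (.g (nat_lit 1) (.e (nat_lit 390503) (nat_lit 0) .nil) .nil))) 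
(.lf (nat_lit 587592) (.g (nat_lit 3049) (.e (nat_lit 401437) (nat_lit 9) (.e (nat_lit 426542) (nat_lit 29) (.e (nat_lit 352287) (nat_lit 20) (.e (nat_lit 1999) (nat_lit 137) (.e (nat_lit 663567) (nat_lit 4) (.e (nat_lit 65628) (nat_lit 14) .nil)))))) (.g (nat_lit 1) (.e (nat_lit 391484) (nat_lit 0) .nil) .nil))))) (.nd (nat_lit 8) (.nd (nat_lit 9) 
(.lf (nat_lit 586952) (.g (nat_lit 3102) (.e (nat_lit 393286) (nat_lit 25) (.e (nat_lit 458774) (nat_lit 18) (.e (nat_lit 5547) (nat_lit 306) (.e (nat_lit 2638) (nat_lit 165) (.e (nat_lit 180278) (nat_lit 32) (.e (nat_lit 1660) (nat_lit 115) .nil)))))) (.g (nat_lit 1) (.e (nat_lit 390344) (nat_lit 0) .nil) .nil))) 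
(.lf (nat_lit 587464) (.g (nat_lit 2331) (.e (nat_lit 401428) (nat_lit 3) (.e (nat_lit 204854) (nat_lit 26) (.e (nat_lit 336207) (nat_lit 12) (.e (nat_lit 385074) (nat_lit 31) (.e (nat_lit 573482) (nat_lit 13) .nil))))) (.g (nat_lit 0) (.e (nat_lit 391099) (nat_lit 0) .nil) .nil)))) (.nd (nat_lit 9) 
(.lf (nat_lit 587208) (.g (nat_lit 1821) (.e (nat_lit 393294) (nat_lit 26) (.e (nat_lit 475176) (nat_lit 24) (.e (nat_lit 516120) (nat_lit 1) (.e (nat_lit 164329) (nat_lit 230) (.e (nat_lit 163904) (nat_lit 12) .nil))))) (.g (nat_lit 0) (.e (nat_lit 390631) (nat_lit 0) .nil) .nil))) 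
(.lf (nat_lit 587720) (.g (nat_lit 2123) (.e (nat_lit 401448) (nat_lit 10) (.e (nat_lit 434244) (nat_lit 28) (.e (nat_lit 573451) (nat_lit 9) (.e (nat_lit 430) (nat_lit 32) .nil)))) (.g (nat_lit 0) (.e (nat_lit 391993) (nat_lit 0) .nil) .nil))))))) (.nd (nat_lit 6) (.nd (nat_lit 7) (.nd (nat_lit 8) (.nd (nat_lit 9) 
(.lf (nat_lit 586792) (.g (nat_lit 2985) (.e (nat_lit 393281) (nat_lit 23) (.e (nat_lit 426100) (nat_lit 1) (.e (nat_lit 164332) (nat_lit 230) (.e (nat_lit 163877) (nat_lit 4) (.e (nat_lit 213032) (nat_lit 11) (.e (nat_lit 24655) (nat_lit 13) .nil)))))) (.g (nat_lit 1) (.e (nat_lit 390105) (nat_lit 0) .nil) .nil))) 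
(.lf (nat_lit 587304) (.g (nat_lit 1705) (.e (nat_lit 393296) (nat_lit 26) (.e (nat_lit 475178) (nat_lit 24) (.e (nat_lit 516120) (nat_lit 1) (.e (nat_lit 164304) (nat_lit 226) (.e (nat_lit 2439) (nat_lit 157) (.e (nat_lit 2900) (nat_lit 184) (.e (nat_lit 426565) (nat_lit 34) .nil))))))) (.g (nat_lit 1) (.e (nat_lit 390729) (nat_lit 0) .nil) .nil)))) (.nd (nat_lit 9) 
(.lf (nat_lit 587048) (.g (nat_lit 1332) (.e (nat_lit 393289) (nat_lit 25) (.e (nat_lit 458787) (nat_lit 23) (.e (nat_lit 532503) (nat_lit 1) (.e (nat_lit 57653) (nat_lit 152) (.e (nat_lit 2633) (nat_lit 164) (.e (nat_lit 179968) (nat_lit 34) .nil)))))) (.g (nat_lit 1) (.e (nat_lit 390469) (nat_lit 0) .nil) .nil))) 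
(.lf (nat_lit 587560) (.g (nat_lit 1394) (.e (nat_lit 401432) (nat_lit 7) (.e (nat_lit 409646) (nat_lit 18) (.e (nat_lit 303140) (nat_lit 10) (.e (nat_lit 434275) (nat_lit 39) .nil)))) (.g (nat_lit 0) (.e (nat_lit 391385) (nat_lit 0) .nil) .nil))))) (.nd (nat_lit 8) (.nd (nat_lit 9) 
(.lf (nat_lit 586920) (.g (nat_lit 2270) (.e (nat_lit 393283) (nat_lit 24) (.e (nat_lit 434232) (nat_lit 23) (.e (nat_lit 532501) (nat_lit 1) (.e (nat_lit 57691) (nat_lit 156) (.e (nat_lit 163907) (nat_lit 12) (.e (nat_lit 426568) (nat_lit 34) .nil)))))) (.g (nat_lit 1) (.e (nat_lit 390264) (nat_lit 0) .nil) .nil))) 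
(.lf (nat_lit 587432) (.g (nat_lit 3516) (.e (nat_lit 401427) (nat_lit 3) (.e (nat_lit 204868) (nat_lit 29) (.e (nat_lit 360475) (nat_lit 8) (.e (nat_lit 557086) (nat_lit 11) (.e (nat_lit 24664) (nat_lit 14) .nil))))) (.g (nat_lit 1) (.e (nat_lit 391025) (nat_lit 0) .nil) .nil)))) (.nd (nat_lit 9) 
(.lf (nat_lit 587176) (.g (nat_lit 2303) (.e (nat_lit 393293) (nat_lit 26) (.e (nat_lit 475177) (nat_lit 24) (.e (nat_lit 516119) (nat_lit 1) (.e (nat_lit 164326) (nat_lit 230) (.e (nat_lit 163903) (nat_lit 12) (.e (nat_lit 426567) (nat_lit 34) .nil)))))) (.g (nat_lit 1) (.e (nat_lit 390599) (nat_lit 0) .nil) .nil))) 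
(.lf (nat_lit 587688) (.g (nat_lit 750) (.e (nat_lit 401448) (nat_lit 10) (.e (nat_lit 434231) (nat_lit 23) (.e (nat_lit 532567) (nat_lit 16) .nil))) (.g (nat_lit 0) (.e (nat_lit 391943) (nat_lit 0) .nil) .nil)))))) (.nd (nat_lit 7) (.nd (nat_lit 8) (.nd (nat_lit 9) 
(.lf (nat_lit 586856) (.g (nat_lit 1873) (.e (nat_lit 393282) (nat_lit 24) (.e (nat_lit 434212) (nat_lit 18) (.e (nat_lit 5548) (nat_lit 306) (.e (nat_lit 2638) (nat_lit 165) (.e (nat_lit 180278) (nat_lit 32) (.e (nat_lit 1660) (nat_lit 115) .nil)))))) (.g (nat_lit 1) (.e (nat_lit 390191) (nat_lit 0) .nil) .nil))) 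
(.lf (nat_lit 587368) (.g (nat_lit 528) (.e (nat_lit 401423) (nat_lit 2) (.e (nat_lit 196668) (nat_lit 14) (.e (nat_lit 73782) (nat_lit 32) .nil))) (.g (nat_lit 0) (.e (nat_lit 390878) (nat_lit 0) .nil) .nil)))) (.nd (nat_lit 9) 
(.lf (nat_lit 587112) (.g (nat_lit 2193) (.e (nat_lit 393291) (nat_lit 26) (.e (nat_lit 475177) (nat_lit 24) (.e (nat_lit 516120) (nat_lit 1) (.e (nat_lit 164330) (nat_lit 230) (.e (nat_lit 171776) (nat_lit 12) (.e (nat_lit 426566) (nat_lit 34) .nil)))))) (.g (nat_lit 1) (.e (nat_lit 390535) (nat_lit 0) .nil) .nil))) 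
(.lf (nat_lit 587624) (.g (nat_lit 2486) (.e (nat_lit 401444) (nat_lit 9) (.e (nat_lit 426163) (nat_lit 6) (.e (nat_lit 253991) (nat_lit 11) (.e (nat_lit 16465) (nat_lit 13) (.e (nat_lit 483409) (nat_lit 27) .nil))))) (.g (nat_lit 1) (.e (nat_lit 391582) (nat_lit 0) .nil) .nil))))) (.nd (nat_lit 8) (.nd (nat_lit 9) 
(.lf (nat_lit 586984) (.g (nat_lit 2715) (.e (nat_lit 393286) (nat_lit 25) (.e (nat_lit 458789) (nat_lit 23) (.e (nat_lit 532502) (nat_lit 1) (.e (nat_lit 57692) (nat_lit 156) (.e (nat_lit 163905) (nat_lit 12) (.e (nat_lit 426568) (nat_lit 34) .nil)))))) (.g (nat_lit 1) (.e (nat_lit 390385) (nat_lit 0) .nil) .nil))) 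
(.lf (nat_lit 587496) (.g (nat_lit 2482) (.e (nat_lit 401428) (nat_lit 3) (.e (nat_lit 204869) (nat_lit 29) (.e (nat_lit 360449) (nat_lit 0) (.e (nat_lit 3950) (nat_lit 239) .nil)))) (.g (nat_lit 0) (.e (nat_lit 391168) (nat_lit 0) .nil) .nil)))) (.nd (nat_lit 9) 
(.lf (nat_lit 587240) (.g (nat_lit 2197) (.e (nat_lit 393295) (nat_lit 26) (.e (nat_lit 475176) (nat_lit 24) (.e (nat_lit 516115) (nat_lit 1) (.e (nat_lit 164325) (nat_lit 230) (.e (nat_lit 163907) (nat_lit 12) (.e (nat_lit 426566) (nat_lit 34) .nil)))))) (.g (nat_lit 1) (.e (nat_lit 390665) (nat_lit 0) .nil) .nil))) 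
(.lf (nat_lit 587752) (.g (nat_lit 1551) (.e (nat_lit 401448) (nat_lit 10) (.e (nat_lit 434289) (nat_lit 43) (.e (nat_lit 696344) (nat_lit 8) (.e (nat_lit 172033) (nat_lit 0) .nil)))) (.g (nat_lit 0) (.e (nat_lit 392056) (nat_lit 0) .nil) .nil)))))))) (.nd (nat_lit 5) (.nd (nat_lit 6) (.nd (nat_lit 7) (.nd (nat_lit 8) (.nd (nat_lit 9) 
(.lf (nat_lit 586776) (.g (nat_lit 2589) (.e (nat_lit 393281) (nat_lit 23) (.e (nat_lit 426099) (nat_lit 1) (.e (nat_lit 164332) (nat_lit 230) (.e (nat_lit 163878) (nat_lit 4) (.e (nat_lit 213030) (nat_lit 11) (.e (nat_lit 24660) (nat_lit 13) .nil)))))) (.g (nat_lit 1) (.e (nat_lit 390086) (nat_lit 0) .nil) .nil))) 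
(.lf (nat_lit 587288) (.g (nat_lit 4179) (.e (nat_lit 393296) (nat_lit 26) (.e (nat_lit 475178) (nat_lit 24) (.e (nat_lit 516115) (nat_lit 1) (.e (nat_lit 164325) (nat_lit 230) (.e (nat_lit 163907) (nat_lit 12) (.e (nat_lit 426566) (nat_lit 34) .nil)))))) (.g (nat_lit 1) (.e (nat_lit 390713) (nat_lit 0) .nil) .nil)))) (.nd (nat_lit 9) 
(.lf (nat_lit 587032) (.g (nat_lit 2737) (.e (nat_lit 393287) (nat_lit 25) (.e (nat_lit 458789) (nat_lit 23) (.e (nat_lit 532502) (nat_lit 1) (.e (nat_lit 57692) (nat_lit 156) (.e (nat_lit 163907) (nat_lit 12) (.e (nat_lit 426568) (nat_lit 34) .nil)))))) (.g (nat_lit 1) (.e (nat_lit 390451) (nat_lit 0) .nil) .nil))) 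
(.lf (nat_lit 587544) (.g (nat_lit 4040) (.e (nat_lit 401428) (nat_lit 3) (.e (nat_lit 204869) (nat_lit 29) (.e (nat_lit 360475) (nat_lit 8) (.e (nat_lit 557065) (nat_lit 9) (.e (nat_lit 249) (nat_lit 21) .nil))))) (.g (nat_lit 0) (.e (nat_lit 391319) (nat_lit 0) .nil) .nil))))) (.nd (nat_lit 8) (.nd (nat_lit 9) 
(.lf (nat_lit 586904) (.g (nat_lit 1650) (.e (nat_lit 393282) (nat_lit 24) (.e (nat_lit 434272) (nat_lit 38) (.e (nat_lit 655364) (nat_lit 0) (.e (nat_lit 2884) (nat_lit 184) .nil)))) (.g (nat_lit 0) (.e (nat_lit 390241) (nat_lit 0) .nil) .nil))) 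
(.lf (nat_lit 587416) (.g (nat_lit 2023) (.e (nat_lit 401426) (nat_lit 3) (.e (nat_lit 204855) (nat_lit 26) (.e (nat_lit 336176) (nat_lit 10) (.e (nat_lit 344132) (nat_lit 26) (.e (nat_lit 564992) (nat_lit 11) (.e (nat_lit 24665) (nat_lit 14) .nil)))))) (.g (nat_lit 1) (.e (nat_lit 390974) (nat_lit 0) .nil) .nil)))) (.nd (nat_lit 9) 
(.lf (nat_lit 587160) (.g (nat_lit 2269) (.e (nat_lit 393293) (nat_lit 26) (.e (nat_lit 475177) (nat_lit 24) (.e (nat_lit 516115) (nat_lit 1) (.e (nat_lit 164399) (nat_lit 256) .nil)))) (.g (nat_lit 0) (.e (nat_lit 390583) (nat_lit 0) .nil) .nil))) 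
(.lf (nat_lit 587672) (.g (nat_lit 618) (.e (nat_lit 401448) (nat_lit 10) (.e (nat_lit 434209) (nat_lit 18) (.e (nat_lit 6384) (nat_lit 338) .nil))) (.g (nat_lit 0) (.e (nat_lit 391903) (nat_lit 0) .nil) .nil)))))) (.nd (nat_lit 7) (.nd (nat_lit 8) (.nd (nat_lit 9) 
(.lf (nat_lit 586840) (.g (nat_lit 2561) (.e (nat_lit 401152) (nat_lit 23) (.e (nat_lit 426436) (nat_lit 18) (.e (nat_lit 98335) (nat_lit 18) (.e (nat_lit 164332) (nat_lit 230) .nil)))) (.g (nat_lit 0) (.e (nat_lit 390170) (nat_lit 0) .nil) .nil))) 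
(.lf (nat_lit 587352) (.g (nat_lit 1914) (.e (nat_lit 401414) (nat_lit 0) (.e (nat_lit 3238) (nat_lit 197) (.e (nat_lit 532535) (nat_lit 9) (.e (nat_lit 336176) (nat_lit 10) (.e (nat_lit 344130) (nat_lit 26) .nil))))) (.g (nat_lit 0) (.e (nat_lit 390825) (nat_lit 0) .nil) .nil)))) (.nd (nat_lit 9) 
(.lf (nat_lit 587096) (.g (nat_lit 3349) (.e (nat_lit 393291) (nat_lit 26) (.e (nat_lit 475177) (nat_lit 24) (.e (nat_lit 516118) (nat_lit 1) (.e (nat_lit 164332) (nat_lit 230) (.e (nat_lit 163905) (nat_lit 12) (.e (nat_lit 426564) (nat_lit 34) .nil)))))) (.g (nat_lit 1) (.e (nat_lit 390519) (nat_lit 0) .nil) .nil))) 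
(.lf (nat_lit 587608) (.g (nat_lit 1904) (.e (nat_lit 401438) (nat_lit 9) (.e (nat_lit 426544) (nat_lit 30) (.e (nat_lit 360452) (nat_lit 0) (.e (nat_lit 5907) (nat_lit 320) (.e (nat_lit 1200) (nat_lit 88) .nil))))) (.g (nat_lit 0) (.e (nat_lit 391509) (nat_lit 0) .nil) .nil))))) (.nd (nat_lit 8) (.nd (nat_lit 9) 
(.lf (nat_lit 586968) (.g (nat_lit 3174) (.e (nat_lit 393286) (nat_lit 25) (.e (nat_lit 458789) (nat_lit 23) (.e (nat_lit 532499) (nat_lit 1) (.e (nat_lit 57688) (nat_lit 156) (.e (nat_lit 163903) (nat_lit 12) (.e (nat_lit 426568) (nat_lit 34) .nil)))))) (.g (nat_lit 1) (.e (nat_lit 390369) (nat_lit 0) .nil) .nil))) 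
(.lf (nat_lit 587480) (.g (nat_lit 3495) (.e (nat_lit 401428) (nat_lit 3) (.e (nat_lit 204861) (nat_lit 26) (.e (nat_lit 336194) (nat_lit 12) (.e (nat_lit 385074) (nat_lit 31) (.e (nat_lit 573485) (nat_lit 13) (.e (nat_lit 65630) (nat_lit 14) .nil)))))) (.g (nat_lit 1) (.e (nat_lit 391122) (nat_lit 0) .nil) .nil)))) (.nd (nat_lit 9) 
(.lf (nat_lit 587224) (.g (nat_lit 2412) (.e (nat_lit 393294) (nat_lit 26) (.e (nat_lit 475179) (nat_lit 24) (.e (nat_lit 516115) (nat_lit 1) (.e (nat_lit 164332) (nat_lit 230) (.e (nat_lit 163905) (nat_lit 12) .nil))))) (.g (nat_lit 0) (.e (nat_lit 390647) (nat_lit 0) .nil) .nil))) 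
(.lf (nat_lit 587736) (.g (nat_lit 3774) (.e (nat_lit 401448) (nat_lit 10) (.e (nat_lit 434247) (nat_lit 28) (.e (nat_lit 573471) (nat_lit 11) (.e (nat_lit 16448) (nat_lit 10) (.e (nat_lit 434231) (nat_lit 23) (.e (nat_lit 532569) (nat_lit 16) .nil)))))) (.g (nat_lit 1) (.e (nat_lit 392014) (nat_lit 0) .nil) .nil))))))) (.nd (nat_lit 6) (.nd (nat_lit 7) (.nd (nat_lit 8) (.nd (nat_lit 9) 
(.lf (nat_lit 586808) (.g (nat_lit 3025) (.e (nat_lit 393281) (nat_lit 23) (.e (nat_lit 426107) (nat_lit 1) (.e (nat_lit 164345) (nat_lit 240) (.e (nat_lit 2638) (nat_lit 165) (.e (nat_lit 180278) (nat_lit 32) (.e (nat_lit 1659) (nat_lit 115) .nil)))))) (.g (nat_lit 1) (.e (nat_lit 390123) (nat_lit 0) .nil) .nil))) 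
(.lf (nat_lit 587320) (.g (nat_lit 3724) (.e (nat_lit 393296) (nat_lit 26) (.e (nat_lit 475179) (nat_lit 24) (.e (nat_lit 516117) (nat_lit 1) (.e (nat_lit 164332) (nat_lit 230) (.e (nat_lit 163905) (nat_lit 12) (.e (nat_lit 426566) (nat_lit 34) .nil)))))) (.g (nat_lit 1) (.e (nat_lit 390745) (nat_lit 0) .nil) .nil)))) (.nd (nat_lit 9) 
(.lf (nat_lit 587064) (.g (nat_lit 2839) (.e (nat_lit 393290) (nat_lit 26) (.e (nat_lit 475179) (nat_lit 24) (.e (nat_lit 516117) (nat_lit 1) (.e (nat_lit 164330) (nat_lit 230) (.e (nat_lit 163905) (nat_lit 12) (.e (nat_lit 426566) (nat_lit 34) .nil)))))) (.g (nat_lit 1) (.e (nat_lit 390486) (nat_lit 0) .nil) .nil))) 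
(.lf (nat_lit 587576) (.g (nat_lit 3183) (.e (nat_lit 401434) (nat_lit 9) (.e (nat_lit 426140) (nat_lit 3) (.e (nat_lit 204846) (nat_lit 24) (.e (nat_lit 319538) (nat_lit 19) (.e (nat_lit 311314) (nat_lit 3) .nil))))) (.g (nat_lit 0) (.e (nat_lit 391442) (nat_lit 0) .nil) .nil))))) (.nd (nat_lit 8) (.nd (nat_lit 9) 
(.lf (nat_lit 586936) (.g (nat_lit 2205) (.e (nat_lit 393284) (nat_lit 24) (.e (nat_lit 434212) (nat_lit 18) (.e (nat_lit 5548) (nat_lit 306) (.e (nat_lit 2638) (nat_lit 165) (.e (nat_lit 180278) (nat_lit 32) (.e (nat_lit 1660) (nat_lit 115) .nil)))))) (.g (nat_lit 1) (.e (nat_lit 390308) (nat_lit 0) .nil) .nil))) 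
(.lf (nat_lit 587448) (.g (nat_lit 3710) (.e (nat_lit 401427) (nat_lit 3) (.e (nat_lit 204869) (nat_lit 29) (.e (nat_lit 360474) (nat_lit 8) (.e (nat_lit 557065) (nat_lit 9) (.e (nat_lit 249) (nat_lit 21) .nil))))) (.g (nat_lit 0) (.e (nat_lit 391072) (nat_lit 0) .nil) .nil)))) (.nd (nat_lit 9) 
(.lf (nat_lit 587192) (.g (nat_lit 2720) (.e (nat_lit 393293) (nat_lit 26) (.e (nat_lit 475179) (nat_lit 24) (.e (nat_lit 516117) (nat_lit 1) (.e (nat_lit 164330) (nat_lit 230) (.e (nat_lit 163902) (nat_lit 12) (.e (nat_lit 426567) (nat_lit 34) .nil)))))) (.g (nat_lit 1) (.e (nat_lit 390615) (nat_lit 0) .nil) .nil))) 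
(.lf (nat_lit 587704) (.g (nat_lit 2437) (.e (nat_lit 401448) (nat_lit 10) (.e (nat_lit 434232) (nat_lit 23) (.e (nat_lit 532568) (nat_lit 16) (.e (nat_lit 401438) (nat_lit 9) (.e (nat_lit 426131) (nat_lit 3) (.e (nat_lit 204885) (nat_lit 33) .nil)))))) (.g (nat_lit 1) (.e (nat_lit 391965) (nat_lit 0) .nil) .nil)))))) (.nd (nat_lit 7) (.nd (nat_lit 8) (.nd (nat_lit 9) 
(.lf (nat_lit 586872) (.g (nat_lit 3153) (.e (nat_lit 393282) (nat_lit 24) (.e (nat_lit 434231) (nat_lit 23) (.e (nat_lit 532500) (nat_lit 1) (.e (nat_lit 57691) (nat_lit 156) (.e (nat_lit 163907) (nat_lit 12) (.e (nat_lit 426566) (nat_lit 34) .nil)))))) (.g (nat_lit 1) (.e (nat_lit 390207) (nat_lit 0) .nil) .nil))) 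
(.lf (nat_lit 587384) (.g (nat_lit 1962) (.e (nat_lit 401425) (nat_lit 2) (.e (nat_lit 196666) (nat_lit 13) (.e (nat_lit 65610) (nat_lit 10) (.e (nat_lit 344090) (nat_lit 18) .nil)))) (.g (nat_lit 0) (.e (nat_lit 390919) (nat_lit 0) .nil) .nil)))) (.nd (nat_lit 9) 
(.lf (nat_lit 587128) (.g (nat_lit 1708) (.e (nat_lit 393291) (nat_lit 26) (.e (nat_lit 475179) (nat_lit 24) (.e (nat_lit 516119) (nat_lit 1) (.e (nat_lit 164332) (nat_lit 230) .nil)))) (.g (nat_lit 0) (.e (nat_lit 390551) (nat_lit 0) .nil) .nil))) 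
(.lf (nat_lit 587640) (.g (nat_lit 2460) (.e (nat_lit 401446) (nat_lit 10) (.e (nat_lit 434231) (nat_lit 23) (.e (nat_lit 532569) (nat_lit 16) (.e (nat_lit 401446) (nat_lit 10) (.e (nat_lit 434219) (nat_lit 19) .nil))))) (.g (nat_lit 0) (.e (nat_lit 391712) (nat_lit 0) .nil) .nil))))) (.nd (nat_lit 8) (.nd (nat_lit 9) 
(.lf (nat_lit 587000) (.g (nat_lit 1539) (.e (nat_lit 393287) (nat_lit 25) (.e (nat_lit 458774) (nat_lit 18) (.e (nat_lit 5548) (nat_lit 306) (.e (nat_lit 2638) (nat_lit 165) (.e (nat_lit 180277) (nat_lit 32) (.e (nat_lit 1658) (nat_lit 115) .nil)))))) (.g (nat_lit 1) (.e (nat_lit 390413) (nat_lit 0) .nil) .nil))) 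
(.lf (nat_lit 587512) (.g (nat_lit 3302) (.e (nat_lit 401428) (nat_lit 3) (.e (nat_lit 204869) (nat_lit 29) (.e (nat_lit 360451) (nat_lit 0) (.e (nat_lit 4069) (nat_lit 245) .nil)))) (.g (nat_lit 0) (.e (nat_lit 391190) (nat_lit 0) .nil) .nil)))) (.nd (nat_lit 9) 
(.lf (nat_lit 587256) (.g (nat_lit 2794) (.e (nat_lit 393295) (nat_lit 26) (.e (nat_lit 475179) (nat_lit 24) (.e (nat_lit 516115) (nat_lit 1) (.e (nat_lit 164327) (nat_lit 230) (.e (nat_lit 163907) (nat_lit 12) (.e (nat_lit 426566) (nat_lit 34) .nil)))))) (.g (nat_lit 1) (.e (nat_lit 390681) (nat_lit 0) .nil) .nil))) 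
(.lf (nat_lit 587768) (.g (nat_lit 1361) (.e (nat_lit 401450) (nat_lit 12) (.e (nat_lit 475214) (nat_lit 42) (.e (nat_lit 720953) (nat_lit 25) .nil))) (.g (nat_lit 0) (.e (nat_lit 392102) (nat_lit 0) .nil) .nil)))))))))) (.nd (nat_lit 3) (.nd (nat_lit 4) (.nd (nat_lit 5) (.nd (nat_lit 6) (.nd (nat_lit 7) (.nd (nat_lit 8) (.nd (nat_lit 9) 
(.lf (nat_lit 586756) (.g (nat_lit 2207) (.e (nat_lit 393281) (nat_lit 23) (.e (nat_lit 426098) (nat_lit 1) (.e (nat_lit 164347) (nat_lit 240) (.e (nat_lit 2638) (nat_lit 165) (.e (nat_lit 180277) (nat_lit 32) (.e (nat_lit 1660) (nat_lit 115) .nil)))))) (.g (nat_lit 1) (.e (nat_lit 390063) (nat_lit 0) .nil) .nil))) 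
(.lf (nat_lit 587268) (.g (nat_lit 2891) (.e (nat_lit 393296) (nat_lit 26) (.e (nat_lit 475176) (nat_lit 24) (.e (nat_lit 516115) (nat_lit 1) (.e (nat_lit 164325) (nat_lit 230) (.e (nat_lit 163906) (nat_lit 12) (.e (nat_lit 426566) (nat_lit 34) .nil)))))) (.g (nat_lit 1) (.e (nat_lit 390693) (nat_lit 0) .nil) .nil)))) (.nd (nat_lit 9) 
(.lf (nat_lit 587012) (.g (nat_lit 2395) (.e (nat_lit 393287) (nat_lit 25) (.e (nat_lit 458789) (nat_lit 23) (.e (nat_lit 532499) (nat_lit 1) (.e (nat_lit 57667) (nat_lit 152) (.e (nat_lit 2619) (nat_lit 164) (.e (nat_lit 179968) (nat_lit 34) .nil)))))) (.g (nat_lit 1) (.e (nat_lit 390431) (nat_lit 0) .nil) .nil))) 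
(.lf (nat_lit 587524) (.g (nat_lit 4286) (.e (nat_lit 401428) (nat_lit 3) (.e (nat_lit 204869) (nat_lit 29) (.e (nat_lit 360473) (nat_lit 8) (.e (nat_lit 557086) (nat_lit 11) (.e (nat_lit 24662) (nat_lit 14) .nil))))) (.g (nat_lit 1) (.e (nat_lit 391245) (nat_lit 0) .nil) .nil))))) (.nd (nat_lit 8) (.nd (nat_lit 9) 
(.lf (nat_lit 586884) (.g (nat_lit 1440) (.e (nat_lit 393282) (nat_lit 24) (.e (nat_lit 434232) (nat_lit 23) (.e (nat_lit 532504) (nat_lit 1) (.e (nat_lit 57692) (nat_lit 156) (.e (nat_lit 163905) (nat_lit 12) .nil))))) (.g (nat_lit 0) (.e (nat_lit 390219) (nat_lit 0) .nil) .nil))) 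
(.lf (nat_lit 587396) (.g (nat_lit 1065) (.e (nat_lit 401425) (nat_lit 2) (.e (nat_lit 196666) (nat_lit 13) (.e (nat_lit 65617) (nat_lit 10) (.e (nat_lit 344126) (nat_lit 25) .nil)))) (.g (nat_lit 0) (.e (nat_lit 390931) (nat_lit 0) .nil) .nil)))) (.nd (nat_lit 9) 
(.lf (nat_lit 587140) (.g (nat_lit 2539) (.e (nat_lit 393292) (nat_lit 26) (.e (nat_lit 475179) (nat_lit 24) (.e (nat_lit 516115) (nat_lit 1) (.e (nat_lit 164327) (nat_lit 230) (.e (nat_lit 163907) (nat_lit 12) .nil))))) (.g (nat_lit 0) (.e (nat_lit 390563) (nat_lit 0) .nil) .nil))) 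
(.lf (nat_lit 587652) (.g (nat_lit 2849) (.e (nat_lit 401446) (nat_lit 10) (.e (nat_lit 434289) (nat_lit 43) (.e (nat_lit 696327) (nat_lit 5) (.e (nat_lit 3004) (nat_lit 186) (.e (nat_lit 442390) (nat_lit 11) (.e (nat_lit 336231) (nat_lit 14) .nil)))))) (.g (nat_lit 1) (.e (nat_lit 391795) (nat_lit 0) .nil) .nil)))))) (.nd (nat_lit 7) (.nd (nat_lit 8) (.nd (nat_lit 9) 
(.lf (nat_lit 586820) (.g (nat_lit 2653) (.e (nat_lit 393281) (nat_lit 23) (.e (nat_lit 426133) (nat_lit 3) (.e (nat_lit 204829) (nat_lit 18) (.e (nat_lit 57688) (nat_lit 156) (.e (nat_lit 163903) (nat_lit 12) (.e (nat_lit 426567) (nat_lit 34) .nil)))))) (.g (nat_lit 1) (.e (nat_lit 390145) (nat_lit 0) .nil) .nil))) 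
(.lf (nat_lit 587332) (.g (nat_lit 748) (.e (nat_lit 393297) (nat_lit 27) (.e (nat_lit 491549) (nat_lit 9) (.e (nat_lit 336374) (nat_lit 27) .nil))) (.g (nat_lit 0) (.e (nat_lit 390760) (nat_lit 0) .nil) .nil)))) (.nd (nat_lit 9) 
(.lf (nat_lit 587076) (.g (nat_lit 4249) (.e (nat_lit 393291) (nat_lit 26) (.e (nat_lit 475177) (nat_lit 24) (.e (nat_lit 516115) (nat_lit 1) (.e (nat_lit 164325) (nat_lit 230) (.e (nat_lit 163903) (nat_lit 12) (.e (nat_lit 426566) (nat_lit 34) .nil)))))) (.g (nat_lit 1) (.e (nat_lit 390499) (nat_lit 0) .nil) .nil))) 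
(.lf (nat_lit 587588) (.g (nat_lit 1970) (.e (nat_lit 401437) (nat_lit 9) (.e (nat_lit 426533) (nat_lit 28) (.e (nat_lit 344069) (nat_lit 0) (.e (nat_lit 3089) (nat_lit 191) (.e (nat_lit 483409) (nat_lit 27) .nil))))) (.g (nat_lit 1) (.e (nat_lit 391480) (nat_lit 0) .nil) .nil))))) (.nd (nat_lit 8) (.nd (nat_lit 9) 
(.lf (nat_lit 586948) (.g (nat_lit 2268) (.e (nat_lit 393285) (nat_lit 25) (.e (nat_lit 458789) (nat_lit 23) (.e (nat_lit 532501) (nat_lit 1) (.e (nat_lit 57651) (nat_lit 152) .nil)))) (.g (nat_lit 0) (.e (nat_lit 390330) (nat_lit 0) .nil) .nil))) 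
(.lf (nat_lit 587460) (.g (nat_lit 2522) (.e (nat_lit 401428) (nat_lit 3) (.e (nat_lit 204852) (nat_lit 26) (.e (nat_lit 336208) (nat_lit 12) (.e (nat_lit 385074) (nat_lit 31) (.e (nat_lit 573485) (nat_lit 13) .nil))))) (.g (nat_lit 0) (.e (nat_lit 391094) (nat_lit 0) .nil) .nil)))) (.nd (nat_lit 9) 
(.lf (nat_lit 587204) (.g (nat_lit 3090) (.e (nat_lit 393294) (nat_lit 26) (.e (nat_lit 475176) (nat_lit 24) (.e (nat_lit 516115) (nat_lit 1) (.e (nat_lit 164325) (nat_lit 230) (.e (nat_lit 163901) (nat_lit 12) (.e (nat_lit 426566) (nat_lit 34) .nil)))))) (.g (nat_lit 1) (.e (nat_lit 390627) (nat_lit 0) .nil) .nil))) 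
(.lf (nat_lit 587716) (.g (nat_lit 1686) (.e (nat_lit 401448) (nat_lit 10) (.e (nat_lit 434238) (nat_lit 25) (.e (nat_lit 548915) (nat_lit 20) (.e (nat_lit 188437) (nat_lit 20) .nil)))) (.g (nat_lit 0) (.e (nat_lit 391982) (nat_lit 0) .nil) .nil))))))) (.nd (nat_lit 6) (.nd (nat_lit 7) (.nd (nat_lit 8) (.nd (nat_lit 9) 
(.lf (nat_lit 586788) (.g (nat_lit 2640) (.e (nat_lit 393281) (nat_lit 23) (.e (nat_lit 426100) (nat_lit 1) (.e (nat_lit 164330) (nat_lit 230) (.e (nat_lit 163880) (nat_lit 4) (.e (nat_lit 213032) (nat_lit 11) (.e (nat_lit 24660) (nat_lit 13) .nil)))))) (.g (nat_lit 1) (.e (nat_lit 390101) (nat_lit 0) .nil) .nil))) 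
(.lf (nat_lit 587300) (.g (nat_lit 3341) (.e (nat_lit 393296) (nat_lit 26) (.e (nat_lit 475178) (nat_lit 24) (.e (nat_lit 516117) (nat_lit 1) (.e (nat_lit 164332) (nat_lit 230) (.e (nat_lit 163905) (nat_lit 12) (.e (nat_lit 426566) (nat_lit 34) .nil)))))) (.g (nat_lit 1) (.e (nat_lit 390725) (nat_lit 0) .nil) .nil)))) (.nd (nat_lit 9) 
(.lf (nat_lit 587044) (.g (nat_lit 3449) (.e (nat_lit 393287) (nat_lit 25) (.e (nat_lit 458789) (nat_lit 23) (.e (nat_lit 532504) (nat_lit 1) (.e (nat_lit 57691) (nat_lit 156) (.e (nat_lit 163907) (nat_lit 12) (.e (nat_lit 426568) (nat_lit 34) .nil)))))) (.g (nat_lit 1) (.e (nat_lit 390463) (nat_lit 0) .nil) .nil))) 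
(.lf (nat_lit 587556) (.g (nat_lit 1147) (.e (nat_lit 401432) (nat_lit 7) (.e (nat_lit 409646) (nat_lit 18) (.e (nat_lit 303135) (nat_lit 10) (.e (nat_lit 434275) (nat_lit 39) .nil)))) (.g (nat_lit 0) (.e (nat_lit 391378) (nat_lit 0) .nil) .nil))))) (.nd (nat_lit 8) (.nd (nat_lit 9) 
(.lf (nat_lit 586916) (.g (nat_lit 3505) (.e (nat_lit 393283) (nat_lit 24) (.e (nat_lit 434231) (nat_lit 23) (.e (nat_lit 532500) (nat_lit 1) (.e (nat_lit 57692) (nat_lit 156) (.e (nat_lit 163905) (nat_lit 12) (.e (nat_lit 426568) (nat_lit 34) .nil)))))) (.g (nat_lit 1) (.e (nat_lit 390260) (nat_lit 0) .nil) .nil))) 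
(.lf (nat_lit 587428) (.g (nat_lit 1825) (.e (nat_lit 401427) (nat_lit 3) (.e (nat_lit 204855) (nat_lit 26) (.e (nat_lit 336226) (nat_lit 14) (.e (nat_lit 401425) (nat_lit 2) .nil)))) (.g (nat_lit 0) (.e (nat_lit 391009) (nat_lit 0) .nil) .nil)))) (.nd (nat_lit 9) 
(.lf (nat_lit 587172) (.g (nat_lit 3432) (.e (nat_lit 393293) (nat_lit 26) (.e (nat_lit 475177) (nat_lit 24) (.e (nat_lit 516119) (nat_lit 1) (.e (nat_lit 164324) (nat_lit 230) (.e (nat_lit 163903) (nat_lit 12) (.e (nat_lit 426566) (nat_lit 34) .nil)))))) (.g (nat_lit 1) (.e (nat_lit 390595) (nat_lit 0) .nil) .nil))) 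
(.lf (nat_lit 587684) (.g (nat_lit 1622) (.e (nat_lit 401448) (nat_lit 10) (.e (nat_lit 434231) (nat_lit 23) (.e (nat_lit 532523) (nat_lit 7) (.e (nat_lit 319538) (nat_lit 19) .nil)))) (.g (nat_lit 0) (.e (nat_lit 391938) (nat_lit 0) .nil) .nil)))))) (.nd (nat_lit 7) (.nd (nat_lit 8) (.nd (nat_lit 9) 
(.lf (nat_lit 586852) (.g (nat_lit 3475) (.e (nat_lit 393282) (nat_lit 24) (.e (nat_lit 434209) (nat_lit 18) (.e (nat_lit 5548) (nat_lit 306) (.e (nat_lit 2638) (nat_lit 165) (.e (nat_lit 180278) (nat_lit 32) (.e (nat_lit 1660) (nat_lit 115) .nil)))))) (.g (nat_lit 1) (.e (nat_lit 390187) (nat_lit 0) .nil) .nil))) 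
(.lf (nat_lit 587364) (.g (nat_lit 3004) (.e (nat_lit 401423) (nat_lit 2) (.e (nat_lit 196666) (nat_lit 13) (.e (nat_lit 65610) (nat_lit 10) (.e (nat_lit 344097) (nat_lit 18) (.e (nat_lit 4073) (nat_lit 245) .nil))))) (.g (nat_lit 0) (.e (nat_lit 390872) (nat_lit 0) .nil) .nil)))) (.nd (nat_lit 9) 
(.lf (nat_lit 587108) (.g (nat_lit 2462) (.e (nat_lit 393291) (nat_lit 26) (.e (nat_lit 475177) (nat_lit 24) (.e (nat_lit 516120) (nat_lit 1) (.e (nat_lit 164330) (nat_lit 230) (.e (nat_lit 163902) (nat_lit 12) (.e (nat_lit 426567) (nat_lit 34) .nil)))))) (.g (nat_lit 1) (.e (nat_lit 390531) (nat_lit 0) .nil) .nil))) 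
(.lf (nat_lit 587620) (.g (nat_lit 2442) (.e (nat_lit 401444) (nat_lit 9) (.e (nat_lit 426163) (nat_lit 6) (.e (nat_lit 253991) (nat_lit 11) (.e (nat_lit 16431) (nat_lit 9) (.e (nat_lit 426496) (nat_lit 27) .nil))))) (.g (nat_lit 0) (.e (nat_lit 391572) (nat_lit 0) .nil) .nil))))) (.nd (nat_lit 8) (.nd (nat_lit 9) 
(.lf (nat_lit 586980) (.g (nat_lit 3302) (.e (nat_lit 393286) (nat_lit 25) (.e (nat_lit 458789) (nat_lit 23) (.e (nat_lit 532502) (nat_lit 1) (.e (nat_lit 57688) (nat_lit 156) (.e (nat_lit 163902) (nat_lit 12) (.e (nat_lit 426568) (nat_lit 34) .nil)))))) (.g (nat_lit 1) (.e (nat_lit 390381) (nat_lit 0) .nil) .nil))) 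
(.lf (nat_lit 587492) (.g (nat_lit 3374) (.e (nat_lit 401428) (nat_lit 3) (.e (nat_lit 204868) (nat_lit 29) (.e (nat_lit 360475) (nat_lit 8) (.e (nat_lit 557087) (nat_lit 11) (.e (nat_lit 24661) (nat_lit 14) .nil))))) (.g (nat_lit 1) (.e (nat_lit 391164) (nat_lit 0) .nil) .nil)))) (.nd (nat_lit 9) 
(.lf (nat_lit 587236) (.g (nat_lit 755) (.e (nat_lit 393294) (nat_lit 26) (.e (nat_lit 475212) (nat_lit 42) (.e (nat_lit 728832) (nat_lit 4) .nil))) (.g (nat_lit 0) (.e (nat_lit 390661) (nat_lit 0) .nil) .nil))) 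
(.lf (nat_lit 587748) (.g (nat_lit 385) (.e (nat_lit 401448) (nat_lit 10) (.e (nat_lit 434286) (nat_lit 42) (.e (nat_lit 688139) (nat_lit 5) .nil))) (.g (nat_lit 0) (.e (nat_lit 392043) (nat_lit 0) .nil) .nil)))))))) (.nd (nat_lit 5) (.nd (nat_lit 6) (.nd (nat_lit 7) (.nd (nat_lit 8) (.nd (nat_lit 9) 
(.lf (nat_lit 586772) (.g (nat_lit 2686) (.e (nat_lit 393281) (nat_lit 23) (.e (nat_lit 426099) (nat_lit 1) (.e (nat_lit 164332) (nat_lit 230) (.e (nat_lit 163877) (nat_lit 4) (.e (nat_lit 213032) (nat_lit 11) (.e (nat_lit 24655) (nat_lit 13) .nil)))))) (.g (nat_lit 1) (.e (nat_lit 390082) (nat_lit 0) .nil) .nil))) 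
(.lf (nat_lit 587284) (.g (nat_lit 3011) (.e (nat_lit 393296) (nat_lit 26) (.e (nat_lit 475177) (nat_lit 24) (.e (nat_lit 516120) (nat_lit 1) (.e (nat_lit 164330) (nat_lit 230) (.e (nat_lit 163913) (nat_lit 12) (.e (nat_lit 433920) (nat_lit 34) .nil)))))) (.g (nat_lit 1) (.e (nat_lit 390709) (nat_lit 0) .nil) .nil)))) (.nd (nat_lit 9) 
(.lf (nat_lit 587028) (.g (nat_lit 2968) (.e (nat_lit 393287) (nat_lit 25) (.e (nat_lit 458789) (nat_lit 23) (.e (nat_lit 532502) (nat_lit 1) (.e (nat_lit 57688) (nat_lit 156) (.e (nat_lit 163903) (nat_lit 12) (.e (nat_lit 426566) (nat_lit 34) .nil)))))) (.g (nat_lit 1) (.e (nat_lit 390447) (nat_lit 0) .nil) .nil))) 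
(.lf (nat_lit 587540) (.g (nat_lit 5129) (.e (nat_lit 401428) (nat_lit 3) (.e (nat_lit 204869) (nat_lit 29) (.e (nat_lit 360474) (nat_lit 8) (.e (nat_lit 557085) (nat_lit 11) (.e (nat_lit 24662) (nat_lit 14) .nil))))) (.g (nat_lit 1) (.e (nat_lit 391261) (nat_lit 0) .nil) .nil))))) (.nd (nat_lit 8) (.nd (nat_lit 9) 
(.lf (nat_lit 586900) (.g (nat_lit 1694) (.e (nat_lit 393282) (nat_lit 24) (.e (nat_lit 434248) (nat_lit 28) (.e (nat_lit 573475) (nat_lit 12) (.e (nat_lit 57503) (nat_lit 38) .nil)))) (.g (nat_lit 0) (.e (nat_lit 390236) (nat_lit 0) .nil) .nil))) 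
(.lf (nat_lit 587412) (.g (nat_lit 866) (.e (nat_lit 401425) (nat_lit 2) (.e (nat_lit 196681) (nat_lit 17) (.e (nat_lit 131107) (nat_lit 9) .nil))) (.g (nat_lit 0) (.e (nat_lit 390952) (nat_lit 0) .nil) .nil)))) (.nd (nat_lit 9) 
(.lf (nat_lit 587156) (.g (nat_lit 2877) (.e (nat_lit 393293) (nat_lit 26) (.e (nat_lit 475177) (nat_lit 24) (.e (nat_lit 516115) (nat_lit 1) (.e (nat_lit 164325) (nat_lit 230) (.e (nat_lit 163907) (nat_lit 12) (.e (nat_lit 426567) (nat_lit 34) .nil)))))) (.g (nat_lit 1) (.e (nat_lit 390579) (nat_lit 0) .nil) .nil))) 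
(.lf (nat_lit 587668) (.g (nat_lit 660) (.e (nat_lit 401447) (nat_lit 10) (.e (nat_lit 434244) (nat_lit 28) (.e (nat_lit 573471) (nat_lit 11) .nil))) (.g (nat_lit 0) (.e (nat_lit 391834) (nat_lit 0) .nil) .nil)))))) (.nd (nat_lit 7) (.nd (nat_lit 8) (.nd (nat_lit 9) 
(.lf (nat_lit 586836) (.g (nat_lit 733) (.e (nat_lit 401152) (nat_lit 23) (.e (nat_lit 426107) (nat_lit 1) (.e (nat_lit 164348) (nat_lit 240) .nil))) (.g (nat_lit 0) (.e (nat_lit 390163) (nat_lit 0) .nil) .nil))) 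
(.lf (nat_lit 587348) (.g (nat_lit 2989) (.e (nat_lit 401408) (nat_lit 0) (.e (nat_lit 3307) (nat_lit 202) (.e (nat_lit 573484) (nat_lit 13) (.e (nat_lit 65563) (nat_lit 1) (.e (nat_lit 57931) (nat_lit 282) .nil))))) (.g (nat_lit 0) (.e (nat_lit 390794) (nat_lit 0) .nil) .nil)))) (.nd (nat_lit 9) 
(.lf (nat_lit 587092) (.g (nat_lit 3010) (.e (nat_lit 393291) (nat_lit 26) (.e (nat_lit 475177) (nat_lit 24) (.e (nat_lit 516117) (nat_lit 1) (.e (nat_lit 164330) (nat_lit 230) (.e (nat_lit 163905) (nat_lit 12) (.e (nat_lit 426567) (nat_lit 34) .nil)))))) (.g (nat_lit 1) (.e (nat_lit 390515) (nat_lit 0) .nil) .nil))) 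
(.lf (nat_lit 587604) (.g (nat_lit 2449) (.e (nat_lit 401438) (nat_lit 9) (.e (nat_lit 426533) (nat_lit 28) (.e (nat_lit 344069) (nat_lit 0) (.e (nat_lit 2857) (nat_lit 184) (.e (nat_lit 426509) (nat_lit 27) (.e (nat_lit 336228) (nat_lit 14) .nil)))))) (.g (nat_lit 1) (.e (nat_lit 391503) (nat_lit 0) .nil) .nil))))) (.nd (nat_lit 8) (.nd (nat_lit 9) 
(.lf (nat_lit 586964) (.g (nat_lit 3111) (.e (nat_lit 393286) (nat_lit 25) (.e (nat_lit 458789) (nat_lit 23) (.e (nat_lit 532499) (nat_lit 1) (.e (nat_lit 57686) (nat_lit 156) (.e (nat_lit 163903) (nat_lit 12) (.e (nat_lit 426568) (nat_lit 34) .nil)))))) (.g (nat_lit 1) (.e (nat_lit 390365) (nat_lit 0) .nil) .nil))) 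
(.lf (nat_lit 587476) (.g (nat_lit 1335) (.e (nat_lit 401428) (nat_lit 3) (.e (nat_lit 204861) (nat_lit 26) (.e (nat_lit 336075) (nat_lit 9) (.e (nat_lit 336258) (nat_lit 15) (.e (nat_lit 3309) (nat_lit 202) .nil))))) (.g (nat_lit 0) (.e (nat_lit 391115) (nat_lit 0) .nil) .nil)))) (.nd (nat_lit 9) 
(.lf (nat_lit 587220) (.g (nat_lit 3237) (.e (nat_lit 393294) (nat_lit 26) (.e (nat_lit 475179) (nat_lit 24) (.e (nat_lit 516115) (nat_lit 1) (.e (nat_lit 164325) (nat_lit 230) (.e (nat_lit 163907) (nat_lit 12) (.e (nat_lit 433920) (nat_lit 34) .nil)))))) (.g (nat_lit 1) (.e (nat_lit 390643) (nat_lit 0) .nil) .nil))) 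
(.lf (nat_lit 587732) (.g (nat_lit 1982) (.e (nat_lit 401448) (nat_lit 10) (.e (nat_lit 434247) (nat_lit 28) (.e (nat_lit 573458) (nat_lit 9) (.e (nat_lit 426) (nat_lit 32) (.e (nat_lit 426298) (nat_lit 11) .nil))))) (.g (nat_lit 0) (.e (nat_lit 392010) (nat_lit 0) .nil) .nil))))))) (.nd (nat_lit 6) (.nd (nat_lit 7) (.nd (nat_lit 8) (.nd (nat_lit 9) 
(.lf (nat_lit 586804) (.g (nat_lit 1615) (.e (nat_lit 393281) (nat_lit 23) (.e (nat_lit 426100) (nat_lit 1) (.e (nat_lit 164332) (nat_lit 230) (.e (nat_lit 163893) (nat_lit 9) (.e (nat_lit 262165) (nat_lit 11) .nil))))) (.g (nat_lit 0) (.e (nat_lit 390117) (nat_lit 0) .nil) .nil))) 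
(.lf (nat_lit 587316) (.g (nat_lit 3917) (.e (nat_lit 393296) (nat_lit 26) (.e (nat_lit 475179) (nat_lit 24) (.e (nat_lit 516117) (nat_lit 1) (.e (nat_lit 164330) (nat_lit 230) (.e (nat_lit 163905) (nat_lit 12) (.e (nat_lit 426566) (nat_lit 34) .nil)))))) (.g (nat_lit 1) (.e (nat_lit 390741) (nat_lit 0) .nil) .nil)))) (.nd (nat_lit 9) 
(.lf (nat_lit 587060) (.g (nat_lit 2674) (.e (nat_lit 393290) (nat_lit 26) (.e (nat_lit 475179) (nat_lit 24) (.e (nat_lit 516115) (nat_lit 1) (.e (nat_lit 164327) (nat_lit 230) (.e (nat_lit 163907) (nat_lit 12) (.e (nat_lit 426566) (nat_lit 34) .nil)))))) (.g (nat_lit 1) (.e (nat_lit 390482) (nat_lit 0) .nil) .nil))) 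
(.lf (nat_lit 587572) (.g (nat_lit 455) (.e (nat_lit 401434) (nat_lit 9) (.e (nat_lit 426140) (nat_lit 3) (.e (nat_lit 204845) (nat_lit 24) .nil))) (.g (nat_lit 0) (.e (nat_lit 391438) (nat_lit 0) .nil) .nil))))) (.nd (nat_lit 8) (.nd (nat_lit 9) 
(.lf (nat_lit 586932) (.g (nat_lit 3510) (.e (nat_lit 393283) (nat_lit 24) (.e (nat_lit 434271) (nat_lit 38) (.e (nat_lit 655378) (nat_lit 4) (.e (nat_lit 172126) (nat_lit 14) (.e (nat_lit 491568) (nat_lit 13) .nil))))) (.g (nat_lit 1) (.e (nat_lit 390294) (nat_lit 0) .nil) .nil))) 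
(.lf (nat_lit 587444) (.g (nat_lit 3663) (.e (nat_lit 401427) (nat_lit 3) (.e (nat_lit 204869) (nat_lit 29) (.e (nat_lit 360473) (nat_lit 8) (.e (nat_lit 557086) (nat_lit 11) (.e (nat_lit 24665) (nat_lit 14) .nil))))) (.g (nat_lit 1) (.e (nat_lit 391068) (nat_lit 0) .nil) .nil)))) (.nd (nat_lit 9) 
(.lf (nat_lit 587188) (.g (nat_lit 3317) (.e (nat_lit 393293) (nat_lit 26) (.e (nat_lit 475179) (nat_lit 24) (.e (nat_lit 516115) (nat_lit 1) (.e (nat_lit 164325) (nat_lit 230) (.e (nat_lit 163903) (nat_lit 12) (.e (nat_lit 426567) (nat_lit 34) .nil)))))) (.g (nat_lit 1) (.e (nat_lit 390611) (nat_lit 0) .nil) .nil))) 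
(.lf (nat_lit 587700) (.g (nat_lit 1789) (.e (nat_lit 401448) (nat_lit 10) (.e (nat_lit 434232) (nat_lit 23) (.e (nat_lit 532522) (nat_lit 7) (.e (nat_lit 319500) (nat_lit 10) (.e (nat_lit 5712) (nat_lit 312) .nil))))) (.g (nat_lit 0) (.e (nat_lit 391957) (nat_lit 0) .nil) .nil)))))) (.nd (nat_lit 7) (.nd (nat_lit 8) (.nd (nat_lit 9) 
(.lf (nat_lit 586868) (.g (nat_lit 1997) (.e (nat_lit 393282) (nat_lit 24) (.e (nat_lit 434231) (nat_lit 23) (.e (nat_lit 532500) (nat_lit 1) (.e (nat_lit 57668) (nat_lit 152) .nil)))) (.g (nat_lit 0) (.e (nat_lit 390203) (nat_lit 0) .nil) .nil))) 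
(.lf (nat_lit 587380) (.g (nat_lit 475) (.e (nat_lit 401425) (nat_lit 2) (.e (nat_lit 196666) (nat_lit 13) (.e (nat_lit 65583) (nat_lit 7) .nil))) (.g (nat_lit 0) (.e (nat_lit 390914) (nat_lit 0) .nil) .nil)))) (.nd (nat_lit 9) 
(.lf (nat_lit 587124) (.g (nat_lit 2062) (.e (nat_lit 393291) (nat_lit 26) (.e (nat_lit 475179) (nat_lit 24) (.e (nat_lit 516117) (nat_lit 1) (.e (nat_lit 164305) (nat_lit 226) (.e (nat_lit 2439) (nat_lit 157) .nil))))) (.g (nat_lit 0) (.e (nat_lit 390547) (nat_lit 0) .nil) .nil))) 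
(.lf (nat_lit 587636) (.g (nat_lit 495) (.e (nat_lit 401446) (nat_lit 10) (.e (nat_lit 434219) (nat_lit 19) (.e (nat_lit 499965) (nat_lit 14) .nil))) (.g (nat_lit 0) (.e (nat_lit 391692) (nat_lit 0) .nil) .nil))))) (.nd (nat_lit 8) (.nd (nat_lit 9) 
(.lf (nat_lit 586996) (.g (nat_lit 2774) (.e (nat_lit 393286) (nat_lit 25) (.e (nat_lit 458789) (nat_lit 23) (.e (nat_lit 532504) (nat_lit 1) (.e (nat_lit 57692) (nat_lit 156) (.e (nat_lit 163905) (nat_lit 12) (.e (nat_lit 426568) (nat_lit 34) .nil)))))) (.g (nat_lit 1) (.e (nat_lit 390397) (nat_lit 0) .nil) .nil))) 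
(.lf (nat_lit 587508) (.g (nat_lit 3302) (.e (nat_lit 401428) (nat_lit 3) (.e (nat_lit 204869) (nat_lit 29) (.e (nat_lit 360451) (nat_lit 0) (.e (nat_lit 4058) (nat_lit 245) .nil)))) (.g (nat_lit 0) (.e (nat_lit 391186) (nat_lit 0) .nil) .nil)))) (.nd (nat_lit 9) 
(.lf (nat_lit 587252) (.g (nat_lit 3454) (.e (nat_lit 393295) (nat_lit 26) (.e (nat_lit 475177) (nat_lit 24) (.e (nat_lit 516120) (nat_lit 1) (.e (nat_lit 164330) (nat_lit 230) (.e (nat_lit 163905) (nat_lit 12) (.e (nat_lit 426566) (nat_lit 34) .nil)))))) (.g (nat_lit 1) (.e (nat_lit 390677) (nat_lit 0) .nil) .nil))) 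
(.lf (nat_lit 587764) (.g (nat_lit 3899) (.e (nat_lit 401450) (nat_lit 12) (.e (nat_lit 475185) (nat_lit 29) (.e (nat_lit 557107) (nat_lit 15) (.e (nat_lit 188452) (nat_lit 23) (.e (nat_lit 204885) (nat_lit 33) .nil))))) (.g (nat_lit 1) (.e (nat_lit 392094) (nat_lit 0) .nil) .nil))))))))) (.nd (nat_lit 4) (.nd (nat_lit 5) (.nd (nat_lit 6) (.nd (nat_lit 7) (.nd (nat_lit 8) (.nd (nat_lit 9) 
(.lf (nat_lit 586764) (.g (nat_lit 2134) (.e (nat_lit 393281) (nat_lit 23) (.e (nat_lit 426099) (nat_lit 1) (.e (nat_lit 164330) (nat_lit 230) (.e (nat_lit 163880) (nat_lit 4) (.e (nat_lit 213030) (nat_lit 11) (.e (nat_lit 24659) (nat_lit 13) .nil)))))) (.g (nat_lit 1) (.e (nat_lit 390074) (nat_lit 0) .nil) .nil))) 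
(.lf (nat_lit 587276) (.g (nat_lit 2987) (.e (nat_lit 393296) (nat_lit 26) (.e (nat_lit 475177) (nat_lit 24) (.e (nat_lit 516117) (nat_lit 1) (.e (nat_lit 164330) (nat_lit 230) (.e (nat_lit 163913) (nat_lit 12) (.e (nat_lit 433920) (nat_lit 34) .nil)))))) (.g (nat_lit 1) (.e (nat_lit 390701) (nat_lit 0) .nil) .nil)))) (.nd (nat_lit 9) 
(.lf (nat_lit 587020) (.g (nat_lit 2878) (.e (nat_lit 393287) (nat_lit 25) (.e (nat_lit 458789) (nat_lit 23) (.e (nat_lit 532499) (nat_lit 1) (.e (nat_lit 57691) (nat_lit 156) (.e (nat_lit 163907) (nat_lit 12) (.e (nat_lit 426566) (nat_lit 34) .nil)))))) (.g (nat_lit 1) (.e (nat_lit 390439) (nat_lit 0) .nil) .nil))) 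
(.lf (nat_lit 587532) (.g (nat_lit 3502) (.e (nat_lit 401428) (nat_lit 3) (.e (nat_lit 204869) (nat_lit 29) (.e (nat_lit 360474) (nat_lit 8) (.e (nat_lit 557065) (nat_lit 9) (.e (nat_lit 251) (nat_lit 21) .nil))))) (.g (nat_lit 0) (.e (nat_lit 391253) (nat_lit 0) .nil) .nil))))) (.nd (nat_lit 8) (.nd (nat_lit 9) 
(.lf (nat_lit 586892) (.g (nat_lit 1188) (.e (nat_lit 393282) (nat_lit 24) (.e (nat_lit 434233) (nat_lit 23) (.e (nat_lit 532502) (nat_lit 1) (.e (nat_lit 57692) (nat_lit 156) (.e (nat_lit 163907) (nat_lit 12) .nil))))) (.g (nat_lit 0) (.e (nat_lit 390227) (nat_lit 0) .nil) .nil))) 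
(.lf (nat_lit 587404) (.g (nat_lit 1673) (.e (nat_lit 401425) (nat_lit 2) (.e (nat_lit 196666) (nat_lit 13) (.e (nat_lit 65628) (nat_lit 14) (.e (nat_lit 401428) (nat_lit 3) (.e (nat_lit 204858) (nat_lit 26) .nil))))) (.g (nat_lit 0) (.e (nat_lit 390941) (nat_lit 0) .nil) .nil)))) (.nd (nat_lit 9) 
(.lf (nat_lit 587148) (.g (nat_lit 2322) (.e (nat_lit 393293) (nat_lit 26) (.e (nat_lit 475176) (nat_lit 24) (.e (nat_lit 516115) (nat_lit 1) (.e (nat_lit 164325) (nat_lit 230) (.e (nat_lit 163904) (nat_lit 12) .nil))))) (.g (nat_lit 0) (.e (nat_lit 390571) (nat_lit 0) .nil) .nil))) 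
(.lf (nat_lit 587660) (.g (nat_lit 3378) (.e (nat_lit 401447) (nat_lit 10) (.e (nat_lit 434231) (nat_lit 23) (.e (nat_lit 532569) (nat_lit 16) (.e (nat_lit 401446) (nat_lit 10) (.e (nat_lit 434219) (nat_lit 19) .nil))))) (.g (nat_lit 0) (.e (nat_lit 391815) (nat_lit 0) .nil) .nil)))))) (.nd (nat_lit 7) (.nd (nat_lit 8) (.nd (nat_lit 9) 
(.lf (nat_lit 586828) (.g (nat_lit 2794) (.e (nat_lit 393281) (nat_lit 23) (.e (nat_lit 426139) (nat_lit 3) (.e (nat_lit 204829) (nat_lit 18) (.e (nat_lit 57692) (nat_lit 156) (.e (nat_lit 163907) (nat_lit 12) (.e (nat_lit 426568) (nat_lit 34) .nil)))))) (.g (nat_lit 1) (.e (nat_lit 390153) (nat_lit 0) .nil) .nil))) 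
(.lf (nat_lit 587340) (.g (nat_lit 3484) (.e (nat_lit 393299) (nat_lit 27) (.e (nat_lit 491556) (nat_lit 9) (.e (nat_lit 336390) (nat_lit 27) (.e (nat_lit 426341) (nat_lit 14) (.e (nat_lit 491571) (nat_lit 13) .nil))))) (.g (nat_lit 1) (.e (nat_lit 390775) (nat_lit 0) .nil) .nil)))) (.nd (nat_lit 9) 
(.lf (nat_lit 587084) (.g (nat_lit 2597) (.e (nat_lit 393291) (nat_lit 26) (.e (nat_lit 475177) (nat_lit 24) (.e (nat_lit 516115) (nat_lit 1) (.e (nat_lit 164327) (nat_lit 230) (.e (nat_lit 163904) (nat_lit 12) (.e (nat_lit 426566) (nat_lit 34) .nil)))))) (.g (nat_lit 1) (.e (nat_lit 390507) (nat_lit 0) .nil) .nil))) 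
(.lf (nat_lit 587596) (.g (nat_lit 550) (.e (nat_lit 401438) (nat_lit 9) (.e (nat_lit 426482) (nat_lit 27) (.e (nat_lit 336228) (nat_lit 14) .nil))) (.g (nat_lit 0) (.e (nat_lit 391494) (nat_lit 0) .nil) .nil))))) (.nd (nat_lit 8) (.nd (nat_lit 9) 
(.lf (nat_lit 586956) (.g (nat_lit 391) (.e (nat_lit 393286) (nat_lit 25) (.e (nat_lit 458789) (nat_lit 23) (.e (nat_lit 532499) (nat_lit 1) .nil))) (.g (nat_lit 0) (.e (nat_lit 390356) (nat_lit 0) .nil) .nil))) 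
(.lf (nat_lit 587468) (.g (nat_lit 2230) (.e (nat_lit 401428) (nat_lit 3) (.e (nat_lit 204854) (nat_lit 26) (.e (nat_lit 336208) (nat_lit 12) (.e (nat_lit 385074) (nat_lit 31) (.e (nat_lit 573483) (nat_lit 13) .nil))))) (.g (nat_lit 0) (.e (nat_lit 391103) (nat_lit 0) .nil) .nil)))) (.nd (nat_lit 9) 
(.lf (nat_lit 587212) (.g (nat_lit 4285) (.e (nat_lit 393294) (nat_lit 26) (.e (nat_lit 475177) (nat_lit 24) (.e (nat_lit 516116) (nat_lit 1) (.e (nat_lit 164329) (nat_lit 230) (.e (nat_lit 163902) (nat_lit 12) (.e (nat_lit 426568) (nat_lit 34) .nil)))))) (.g (nat_lit 1) (.e (nat_lit 390635) (nat_lit 0) .nil) .nil))) 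
(.lf (nat_lit 587724) (.g (nat_lit 384) (.e (nat_lit 401448) (nat_lit 10) (.e (nat_lit 434244) (nat_lit 28) (.e (nat_lit 573471) (nat_lit 11) .nil))) (.g (nat_lit 0) (.e (nat_lit 391999) (nat_lit 0) .nil) .nil))))))) (.nd (nat_lit 6) (.nd (nat_lit 7) (.nd (nat_lit 8) (.nd (nat_lit 9) 
(.lf (nat_lit 586796) (.g (nat_lit 3222) (.e (nat_lit 393281) (nat_lit 23) (.e (nat_lit 426100) (nat_lit 1) (.e (nat_lit 164332) (nat_lit 230) (.e (nat_lit 163878) (nat_lit 4) (.e (nat_lit 213032) (nat_lit 11) (.e (nat_lit 24655) (nat_lit 13) .nil)))))) (.g (nat_lit 1) (.e (nat_lit 390109) (nat_lit 0) .nil) .nil))) 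
(.lf (nat_lit 587308) (.g (nat_lit 1460) (.e (nat_lit 393296) (nat_lit 26) (.e (nat_lit 475178) (nat_lit 24) (.e (nat_lit 516120) (nat_lit 1) (.e (nat_lit 164329) (nat_lit 230) (.e (nat_lit 163915) (nat_lit 12) (.e (nat_lit 433920) (nat_lit 34) .nil)))))) (.g (nat_lit 1) (.e (nat_lit 390733) (nat_lit 0) .nil) .nil)))) (.nd (nat_lit 9) 
(.lf (nat_lit 587052) (.g (nat_lit 2701) (.e (nat_lit 393289) (nat_lit 25) (.e (nat_lit 458789) (nat_lit 23) (.e (nat_lit 532499) (nat_lit 1) (.e (nat_lit 57667) (nat_lit 152) (.e (nat_lit 2619) (nat_lit 164) (.e (nat_lit 179968) (nat_lit 34) .nil)))))) (.g (nat_lit 1) (.e (nat_lit 390473) (nat_lit 0) .nil) .nil))) 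
(.lf (nat_lit 587564) (.g (nat_lit 779) (.e (nat_lit 401432) (nat_lit 7) (.e (nat_lit 409649) (nat_lit 18) (.e (nat_lit 303136) (nat_lit 10) .nil))) (.g (nat_lit 0) (.e (nat_lit 391396) (nat_lit 0) .nil) .nil))))) (.nd (nat_lit 8) (.nd (nat_lit 9) 
(.lf (nat_lit 586924) (.g (nat_lit 1650) (.e (nat_lit 393283) (nat_lit 24) (.e (nat_lit 434248) (nat_lit 28) (.e (nat_lit 573475) (nat_lit 12) (.e (nat_lit 57500) (nat_lit 37) .nil)))) (.g (nat_lit 0) (.e (nat_lit 390275) (nat_lit 0) .nil) .nil))) 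
(.lf (nat_lit 587436) (.g (nat_lit 3458) (.e (nat_lit 401427) (nat_lit 3) (.e (nat_lit 204869) (nat_lit 29) (.e (nat_lit 360450) (nat_lit 0) (.e (nat_lit 4031) (nat_lit 245) .nil)))) (.g (nat_lit 0) (.e (nat_lit 391032) (nat_lit 0) .nil) .nil)))) (.nd (nat_lit 9) 
(.lf (nat_lit 587180) (.g (nat_lit 2281) (.e (nat_lit 393293) (nat_lit 26) (.e (nat_lit 475177) (nat_lit 24) (.e (nat_lit 516120) (nat_lit 1) (.e (nat_lit 164329) (nat_lit 230) (.e (nat_lit 163902) (nat_lit 12) (.e (nat_lit 426566) (nat_lit 34) .nil)))))) (.g (nat_lit 1) (.e (nat_lit 390603) (nat_lit 0) .nil) .nil))) 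
(.lf (nat_lit 587692) (.g (nat_lit 2959) (.e (nat_lit 401448) (nat_lit 10) (.e (nat_lit 434231) (nat_lit 23) (.e (nat_lit 532568) (nat_lit 16) (.e (nat_lit 401448) (nat_lit 10) (.e (nat_lit 434231) (nat_lit 23) .nil))))) (.g (nat_lit 0) (.e (nat_lit 391948) (nat_lit 0) .nil) .nil)))))) (.nd (nat_lit 7) (.nd (nat_lit 8) (.nd (nat_lit 9) 
(.lf (nat_lit 586860) (.g (nat_lit 845) (.e (nat_lit 393282) (nat_lit 24) (.e (nat_lit 434231) (nat_lit 23) (.e (nat_lit 532498) (nat_lit 1) .nil))) (.g (nat_lit 0) (.e (nat_lit 390195) (nat_lit 0) .nil) .nil))) 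
(.lf (nat_lit 587372) (.g (nat_lit 1672) (.e (nat_lit 401424) (nat_lit 2) (.e (nat_lit 196666) (nat_lit 13) (.e (nat_lit 65610) (nat_lit 10) (.e (nat_lit 344117) (nat_lit 21) .nil)))) (.g (nat_lit 0) (.e (nat_lit 390890) (nat_lit 0) .nil) .nil)))) (.nd (nat_lit 9) 
(.lf (nat_lit 587116) (.g (nat_lit 2790) (.e (nat_lit 393291) (nat_lit 26) (.e (nat_lit 475179) (nat_lit 24) (.e (nat_lit 516115) (nat_lit 1) (.e (nat_lit 164325) (nat_lit 230) (.e (nat_lit 163906) (nat_lit 12) (.e (nat_lit 426564) (nat_lit 34) .nil)))))) (.g (nat_lit 1) (.e (nat_lit 390539) (nat_lit 0) .nil) .nil))) 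
(.lf (nat_lit 587628) (.g (nat_lit 1293) (.e (nat_lit 401444) (nat_lit 9) (.e (nat_lit 426163) (nat_lit 6) (.e (nat_lit 253992) (nat_lit 11) (.e (nat_lit 16433) (nat_lit 9) .nil)))) (.g (nat_lit 0) (.e (nat_lit 391587) (nat_lit 0) .nil) .nil))))) (.nd (nat_lit 8) (.nd (nat_lit 9) 
(.lf (nat_lit 586988) (.g (nat_lit 2093) (.e (nat_lit 393286) (nat_lit 25) (.e (nat_lit 458789) (nat_lit 23) (.e (nat_lit 532503) (nat_lit 1) (.e (nat_lit 57653) (nat_lit 152) (.e (nat_lit 2633) (nat_lit 164) (.e (nat_lit 179968) (nat_lit 34) .nil)))))) (.g (nat_lit 1) (.e (nat_lit 390389) (nat_lit 0) .nil) .nil))) 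
(.lf (nat_lit 587500) (.g (nat_lit 3356) (.e (nat_lit 401428) (nat_lit 3) (.e (nat_lit 204869) (nat_lit 29) (.e (nat_lit 360450) (nat_lit 0) (.e (nat_lit 4031) (nat_lit 245) .nil)))) (.g (nat_lit 0) (.e (nat_lit 391173) (nat_lit 0) .nil) .nil)))) (.nd (nat_lit 9) 
(.lf (nat_lit 587244) (.g (nat_lit 3773) (.e (nat_lit 393295) (nat_lit 26) (.e (nat_lit 475177) (nat_lit 24) (.e (nat_lit 516115) (nat_lit 1) (.e (nat_lit 164327) (nat_lit 230) (.e (nat_lit 163903) (nat_lit 12) (.e (nat_lit 426566) (nat_lit 34) .nil)))))) (.g (nat_lit 1) (.e (nat_lit 390669) (nat_lit 0) .nil) .nil))) 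
(.lf (nat_lit 587756) (.g (nat_lit 2420) (.e (nat_lit 401448) (nat_lit 10) (.e (nat_lit 434291) (nat_lit 44) (.e (nat_lit 704737) (nat_lit 11) (.e (nat_lit 16465) (nat_lit 13) (.e (nat_lit 483409) (nat_lit 27) .nil))))) (.g (nat_lit 1) (.e (nat_lit 392071) (nat_lit 0) .nil) .nil)))))))) (.nd (nat_lit 5) (.nd (nat_lit 6) (.nd (nat_lit 7) (.nd (nat_lit 8) (.nd (nat_lit 9) 
(.lf (nat_lit 586780) (.g (nat_lit 491) (.e (nat_lit 393281) (nat_lit 23) (.e (nat_lit 426100) (nat_lit 1) (.e (nat_lit 164305) (nat_lit 226) .nil))) (.g (nat_lit 0) (.e (nat_lit 390090) (nat_lit 0) .nil) .nil))) 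
(.lf (nat_lit 587292) (.g (nat_lit 2100) (.e (nat_lit 393296) (nat_lit 26) (.e (nat_lit 475178) (nat_lit 24) (.e (nat_lit 516117) (nat_lit 1) (.e (nat_lit 164329) (nat_lit 230) (.e (nat_lit 163902) (nat_lit 12) (.e (nat_lit 433920) (nat_lit 34) .nil)))))) (.g (nat_lit 1) (.e (nat_lit 390717) (nat_lit 0) .nil) .nil)))) (.nd (nat_lit 9) 
(.lf (nat_lit 587036) (.g (nat_lit 2193) (.e (nat_lit 393287) (nat_lit 25) (.e (nat_lit 458789) (nat_lit 23) (.e (nat_lit 532503) (nat_lit 1) (.e (nat_lit 57654) (nat_lit 152) (.e (nat_lit 2633) (nat_lit 164) (.e (nat_lit 179968) (nat_lit 34) .nil)))))) (.g (nat_lit 1) (.e (nat_lit 390455) (nat_lit 0) .nil) .nil))) 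
(.lf (nat_lit 587548) (.g (nat_lit 2848) (.e (nat_lit 401428) (nat_lit 3) (.e (nat_lit 204869) (nat_lit 29) (.e (nat_lit 360475) (nat_lit 8) (.e (nat_lit 557066) (nat_lit 9) (.e (nat_lit 232) (nat_lit 21) .nil))))) (.g (nat_lit 0) (.e (nat_lit 391323) (nat_lit 0) .nil) .nil))))) (.nd (nat_lit 8) (.nd (nat_lit 9) 
(.lf (nat_lit 586908) (.g (nat_lit 2865) (.e (nat_lit 393283) (nat_lit 24) (.e (nat_lit 434209) (nat_lit 18) (.e (nat_lit 5547) (nat_lit 306) (.e (nat_lit 2638) (nat_lit 165) (.e (nat_lit 180278) (nat_lit 32) (.e (nat_lit 1658) (nat_lit 115) .nil)))))) (.g (nat_lit 1) (.e (nat_lit 390251) (nat_lit 0) .nil) .nil))) 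
(.lf (nat_lit 587420) (.g (nat_lit 949) (.e (nat_lit 401426) (nat_lit 3) (.e (nat_lit 204866) (nat_lit 28) (.e (nat_lit 352303) (nat_lit 20) (.e (nat_lit 1842) (nat_lit 123) .nil)))) (.g (nat_lit 0) (.e (nat_lit 390981) (nat_lit 0) .nil) .nil)))) (.nd (nat_lit 9) 
(.lf (nat_lit 587164) (.g (nat_lit 1986) (.e (nat_lit 393293) (nat_lit 26) (.e (nat_lit 475177) (nat_lit 24) (.e (nat_lit 516117) (nat_lit 1) (.e (nat_lit 164330) (nat_lit 230) (.e (nat_lit 163905) (nat_lit 12) (.e (nat_lit 426564) (nat_lit 34) .nil)))))) (.g (nat_lit 1) (.e (nat_lit 390587) (nat_lit 0) .nil) .nil))) 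
(.lf (nat_lit 587676) (.g (nat_lit 1986) (.e (nat_lit 401448) (nat_lit 10) (.e (nat_lit 434231) (nat_lit 23) (.e (nat_lit 532490) (nat_lit 0) (.e (nat_lit 6206) (nat_lit 333) .nil)))) (.g (nat_lit 0) (.e (nat_lit 391929) (nat_lit 0) .nil) .nil)))))) (.nd (nat_lit 7) (.nd (nat_lit 8) (.nd (nat_lit 9) 
(.lf (nat_lit 586844) (.g (nat_lit 2749) (.e (nat_lit 393282) (nat_lit 24) (.e (nat_lit 434209) (nat_lit 18) (.e (nat_lit 5546) (nat_lit 306) (.e (nat_lit 2639) (nat_lit 165) (.e (nat_lit 180278) (nat_lit 32) (.e (nat_lit 1658) (nat_lit 115) .nil)))))) (.g (nat_lit 1) (.e (nat_lit 390175) (nat_lit 0) .nil) .nil))) 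
(.lf (nat_lit 587356) (.g (nat_lit 1225) (.e (nat_lit 401414) (nat_lit 0) (.e (nat_lit 3238) (nat_lit 197) (.e (nat_lit 532560) (nat_lit 14) (.e (nat_lit 376855) (nat_lit 20) .nil)))) (.g (nat_lit 0) (.e (nat_lit 390840) (nat_lit 0) .nil) .nil)))) (.nd (nat_lit 9) 
(.lf (nat_lit 587100) (.g (nat_lit 3681) (.e (nat_lit 393291) (nat_lit 26) (.e (nat_lit 475177) (nat_lit 24) (.e (nat_lit 516119) (nat_lit 1) (.e (nat_lit 164326) (nat_lit 230) (.e (nat_lit 163903) (nat_lit 12) (.e (nat_lit 426566) (nat_lit 34) .nil)))))) (.g (nat_lit 1) (.e (nat_lit 390523) (nat_lit 0) .nil) .nil))) 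
(.lf (nat_lit 587612) (.g (nat_lit 1776) (.e (nat_lit 401440) (nat_lit 9) (.e (nat_lit 426470) (nat_lit 25) (.e (nat_lit 319491) (nat_lit 0) (.e (nat_lit 5771) (nat_lit 316) (.e (nat_lit 172150) (nat_lit 27) (.e (nat_lit 336231) (nat_lit 14) .nil)))))) (.g (nat_lit 1) (.e (nat_lit 391524) (nat_lit 0) .nil) .nil))))) (.nd (nat_lit 8) (.nd (nat_lit 9) 
(.lf (nat_lit 586972) (.g (nat_lit 2867) (.e (nat_lit 393286) (nat_lit 25) (.e (nat_lit 458789) (nat_lit 23) (.e (nat_lit 532499) (nat_lit 1) (.e (nat_lit 57692) (nat_lit 156) (.e (nat_lit 163905) (nat_lit 12) (.e (nat_lit 426568) (nat_lit 34) .nil)))))) (.g (nat_lit 1) (.e (nat_lit 390373) (nat_lit 0) .nil) .nil))) 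
(.lf (nat_lit 587484) (.g (nat_lit 2763) (.e (nat_lit 401428) (nat_lit 3) (.e (nat_lit 204865) (nat_lit 28) (.e (nat_lit 352262) (nat_lit 0) (.e (nat_lit 3305) (nat_lit 202) (.e (nat_lit 573480) (nat_lit 13) (.e (nat_lit 65630) (nat_lit 14) .nil)))))) (.g (nat_lit 1) (.e (nat_lit 391129) (nat_lit 0) .nil) .nil)))) (.nd (nat_lit 9) 
(.lf (nat_lit 587228) (.g (nat_lit 1636) (.e (nat_lit 393294) (nat_lit 26) (.e (nat_lit 475179) (nat_lit 24) (.e (nat_lit 516119) (nat_lit 1) (.e (nat_lit 164327) (nat_lit 230) .nil)))) (.g (nat_lit 0) (.e (nat_lit 390651) (nat_lit 0) .nil) .nil))) 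
(.lf (nat_lit 587740) (.g (nat_lit 2178) (.e (nat_lit 401448) (nat_lit 10) (.e (nat_lit 434248) (nat_lit 28) (.e (nat_lit 573471) (nat_lit 11) (.e (nat_lit 16435) (nat_lit 9) (.e (nat_lit 426131) (nat_lit 3) .nil))))) (.g (nat_lit 0) (.e (nat_lit 392025) (nat_lit 0) .nil) .nil))))))) (.nd (nat_lit 6) (.nd (nat_lit 7) (.nd (nat_lit 8) (.nd (nat_lit 9) 
(.lf (nat_lit 586812) (.g (nat_lit 1491) (.e (nat_lit 393281) (nat_lit 23) (.e (nat_lit 426108) (nat_lit 1) (.e (nat_lit 164330) (nat_lit 230) (.e (nat_lit 163850) (nat_lit 0) .nil)))) (.g (nat_lit 0) (.e (nat_lit 390131) (nat_lit 0) .nil) .nil))) 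
(.lf (nat_lit 587324) (.g (nat_lit 3116) (.e (nat_lit 393296) (nat_lit 26) (.e (nat_lit 475179) (nat_lit 24) (.e (nat_lit 516119) (nat_lit 1) (.e (nat_lit 164331) (nat_lit 230) (.e (nat_lit 163902) (nat_lit 12) .nil))))) (.g (nat_lit 0) (.e (nat_lit 390749) (nat_lit 0) .nil) .nil)))) (.nd (nat_lit 9) 
(.lf (nat_lit 587068) (.g (nat_lit 3363) (.e (nat_lit 393290) (nat_lit 26) (.e (nat_lit 475179) (nat_lit 24) (.e (nat_lit 516120) (nat_lit 1) (.e (nat_lit 164329) (nat_lit 230) (.e (nat_lit 163902) (nat_lit 12) (.e (nat_lit 426568) (nat_lit 34) .nil)))))) (.g (nat_lit 1) (.e (nat_lit 390490) (nat_lit 0) .nil) .nil))) 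
(.lf (nat_lit 587580) (.g (nat_lit 1586) (.e (nat_lit 401436) (nat_lit 9) (.e (nat_lit 426533) (nat_lit 28) (.e (nat_lit 344069) (nat_lit 0) (.e (nat_lit 3089) (nat_lit 191) (.e (nat_lit 483409) (nat_lit 27) .nil))))) (.g (nat_lit 1) (.e (nat_lit 391460) (nat_lit 0) .nil) .nil))))) (.nd (nat_lit 8) (.nd (nat_lit 9) 
(.lf (nat_lit 586940) (.g (nat_lit 2011) (.e (nat_lit 393284) (nat_lit 24) (.e (nat_lit 434233) (nat_lit 23) (.e (nat_lit 532503) (nat_lit 1) (.e (nat_lit 57653) (nat_lit 152) (.e (nat_lit 2633) (nat_lit 164) (.e (nat_lit 179968) (nat_lit 34) .nil)))))) (.g (nat_lit 1) (.e (nat_lit 390312) (nat_lit 0) .nil) .nil))) 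
(.lf (nat_lit 587452) (.g (nat_lit 3821) (.e (nat_lit 401427) (nat_lit 3) (.e (nat_lit 204869) (nat_lit 29) (.e (nat_lit 360474) (nat_lit 8) (.e (nat_lit 557086) (nat_lit 11) (.e (nat_lit 24664) (nat_lit 14) .nil))))) (.g (nat_lit 1) (.e (nat_lit 391076) (nat_lit 0) .nil) .nil)))) (.nd (nat_lit 9) 
(.lf (nat_lit 587196) (.g (nat_lit 2791) (.e (nat_lit 393293) (nat_lit 26) (.e (nat_lit 475179) (nat_lit 24) (.e (nat_lit 516119) (nat_lit 1) (.e (nat_lit 164327) (nat_lit 230) (.e (nat_lit 163903) (nat_lit 12) (.e (nat_lit 426567) (nat_lit 34) .nil)))))) (.g (nat_lit 1) (.e (nat_lit 390619) (nat_lit 0) .nil) .nil))) 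
(.lf (nat_lit 587708) (.g (nat_lit 4235) (.e (nat_lit 401448) (nat_lit 10) (.e (nat_lit 434238) (nat_lit 25) (.e (nat_lit 548898) (nat_lit 14) (.e (nat_lit 3016) (nat_lit 187) (.e (nat_lit 450580) (nat_lit 5) (.e (nat_lit 532569) (nat_lit 16) .nil)))))) (.g (nat_lit 1) (.e (nat_lit 391970) (nat_lit 0) .nil) .nil)))))) (.nd (nat_lit 7) (.nd (nat_lit 8) (.nd (nat_lit 9) 
(.lf (nat_lit 586876) (.g (nat_lit 2953) (.e (nat_lit 393282) (nat_lit 24) (.e (nat_lit 434231) (nat_lit 23) (.e (nat_lit 532502) (nat_lit 1) (.e (nat_lit 57688) (nat_lit 156) (.e (nat_lit 163902) (nat_lit 12) (.e (nat_lit 426566) (nat_lit 34) .nil)))))) (.g (nat_lit 1) (.e (nat_lit 390211) (nat_lit 0) .nil) .nil))) 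
(.lf (nat_lit 587388) (.g (nat_lit 1023) (.e (nat_lit 401425) (nat_lit 2) (.e (nat_lit 196666) (nat_lit 13) (.e (nat_lit 65610) (nat_lit 10) (.e (nat_lit 344129) (nat_lit 26) .nil)))) (.g (nat_lit 0) (.e (nat_lit 390923) (nat_lit 0) .nil) .nil)))) (.nd (nat_lit 9) 
(.lf (nat_lit 587132) (.g (nat_lit 2649) (.e (nat_lit 393291) (nat_lit 26) (.e (nat_lit 475179) (nat_lit 24) (.e (nat_lit 516120) (nat_lit 1) (.e (nat_lit 164330) (nat_lit 230) (.e (nat_lit 163905) (nat_lit 12) (.e (nat_lit 426564) (nat_lit 34) .nil)))))) (.g (nat_lit 1) (.e (nat_lit 390555) (nat_lit 0) .nil) .nil))) 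
(.lf (nat_lit 587644) (.g (nat_lit 3206) (.e (nat_lit 401446) (nat_lit 10) (.e (nat_lit 434233) (nat_lit 23) (.e (nat_lit 532523) (nat_lit 7) (.e (nat_lit 319538) (nat_lit 19) (.e (nat_lit 311314) (nat_lit 3) (.e (nat_lit 204885) (nat_lit 33) .nil)))))) (.g (nat_lit 1) (.e (nat_lit 391720) (nat_lit 0) .nil) .nil))))) (.nd (nat_lit 8) (.nd (nat_lit 9) 
(.lf (nat_lit 587004) (.g (nat_lit 1488) (.e (nat_lit 393287) (nat_lit 25) (.e (nat_lit 458774) (nat_lit 18) (.e (nat_lit 5548) (nat_lit 306) (.e (nat_lit 2640) (nat_lit 165) (.e (nat_lit 180277) (nat_lit 32) (.e (nat_lit 1658) (nat_lit 115) .nil)))))) (.g (nat_lit 1) (.e (nat_lit 390418) (nat_lit 0) .nil) .nil))) 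
(.lf (nat_lit 587516) (.g (nat_lit 379) (.e (nat_lit 401428) (nat_lit 3) (.e (nat_lit 204869) (nat_lit 29) (.e (nat_lit 360471) (nat_lit 7) .nil))) (.g (nat_lit 0) (.e (nat_lit 391235) (nat_lit 0) .nil) .nil)))) (.nd (nat_lit 9) 
(.lf (nat_lit 587260) (.g (nat_lit 3331) (.e (nat_lit 393295) (nat_lit 26) (.e (nat_lit 475179) (nat_lit 24) (.e (nat_lit 516117) (nat_lit 1) (.e (nat_lit 164332) (nat_lit 230) (.e (nat_lit 163905) (nat_lit 12) (.e (nat_lit 426566) (nat_lit 34) .nil)))))) (.g (nat_lit 1) (.e (nat_lit 390685) (nat_lit 0) .nil) .nil))) 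
(.lf (nat_lit 587772) (.g (nat_lit 570) (.e (nat_lit 401451) (nat_lit 12) (.e (nat_lit 475185) (nat_lit 29) (.e (nat_lit 557097) (nat_lit 13) .nil))) (.g (nat_lit 0) (.e (nat_lit 392111) (nat_lit 0) .nil) .nil))))))))))) (.nd (nat_lit 2) (.nd (nat_lit 3) (.nd (nat_lit 4) (.nd (nat_lit 5) (.nd (nat_lit 6) (.nd (nat_lit 7) (.nd (nat_lit 8) (.nd (nat_lit 9) 
(.lf (nat_lit 586754) (.g (nat_lit 3307) (.e (nat_lit 393281) (nat_lit 23) (.e (nat_lit 426098) (nat_lit 1) (.e (nat_lit 164332) (nat_lit 230) (.e (nat_lit 163880) (nat_lit 4) (.e (nat_lit 213032) (nat_lit 11) (.e (nat_lit 24659) (nat_lit 13) .nil)))))) (.g (nat_lit 1) (.e (nat_lit 390061) (nat_lit 0) .nil) .nil))) 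
(.lf (nat_lit 587266) (.g (nat_lit 1298) (.e (nat_lit 393296) (nat_lit 26) (.e (nat_lit 475176) (nat_lit 24) (.e (nat_lit 516106) (nat_lit 0) (.e (nat_lit 2478) (nat_lit 157) .nil)))) (.g (nat_lit 0) (.e (nat_lit 390691) (nat_lit 0) .nil) .nil)))) (.nd (nat_lit 9) 
(.lf (nat_lit 587010) (.g (nat_lit 1737) (.e (nat_lit 393287) (nat_lit 25) (.e (nat_lit 458789) (nat_lit 23) (.e (nat_lit 532499) (nat_lit 1) (.e (nat_lit 57655) (nat_lit 152) (.e (nat_lit 2632) (nat_lit 164) (.e (nat_lit 179968) (nat_lit 34) .nil)))))) (.g (nat_lit 1) (.e (nat_lit 390427) (nat_lit 0) .nil) .nil))) 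
(.lf (nat_lit 587522) (.g (nat_lit 4136) (.e (nat_lit 401428) (nat_lit 3) (.e (nat_lit 204869) (nat_lit 29) (.e (nat_lit 360472) (nat_lit 8) (.e (nat_lit 557086) (nat_lit 11) (.e (nat_lit 24662) (nat_lit 14) .nil))))) (.g (nat_lit 1) (.e (nat_lit 391243) (nat_lit 0) .nil) .nil))))) (.nd (nat_lit 8) (.nd (nat_lit 9) 
(.lf (nat_lit 586882) (.g (nat_lit 1033) (.e (nat_lit 393282) (nat_lit 24) (.e (nat_lit 434232) (nat_lit 23) (.e (nat_lit 532499) (nat_lit 1) (.e (nat_lit 57688) (nat_lit 156) .nil)))) (.g (nat_lit 0) (.e (nat_lit 390217) (nat_lit 0) .nil) .nil))) 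
(.lf (nat_lit 587394) (.g (nat_lit 713) (.e (nat_lit 401425) (nat_lit 2) (.e (nat_lit 196666) (nat_lit 13) (.e (nat_lit 65611) (nat_lit 10) .nil))) (.g (nat_lit 0) (.e (nat_lit 390929) (nat_lit 0) .nil) .nil)))) (.nd (nat_lit 9) 
(.lf (nat_lit 587138) (.g (nat_lit 1402) (.e (nat_lit 393292) (nat_lit 26) (.e (nat_lit 475177) (nat_lit 24) (.e (nat_lit 516119) (nat_lit 1) (.e (nat_lit 164332) (nat_lit 230) .nil)))) (.g (nat_lit 0) (.e (nat_lit 390561) (nat_lit 0) .nil) .nil))) 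
(.lf (nat_lit 587650) (.g (nat_lit 383) (.e (nat_lit 401446) (nat_lit 10) (.e (nat_lit 434286) (nat_lit 42) (.e (nat_lit 688139) (nat_lit 5) .nil))) (.g (nat_lit 0) (.e (nat_lit 391789) (nat_lit 0) .nil) .nil)))))) (.nd (nat_lit 7) (.nd (nat_lit 8) (.nd (nat_lit 9) 
(.lf (nat_lit 586818) (.g (nat_lit 3562) (.e (nat_lit 393281) (nat_lit 23) (.e (nat_lit 426108) (nat_lit 1) (.e (nat_lit 164345) (nat_lit 240) (.e (nat_lit 2638) (nat_lit 165) (.e (nat_lit 180278) (nat_lit 32) (.e (nat_lit 1659) (nat_lit 115) .nil)))))) (.g (nat_lit 1) (.e (nat_lit 390139) (nat_lit 0) .nil) .nil))) 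
(.lf (nat_lit 587330) (.g (nat_lit 2420) (.e (nat_lit 393296) (nat_lit 26) (.e (nat_lit 475198) (nat_lit 40) (.e (nat_lit 704592) (nat_lit 4) (.e (nat_lit 172126) (nat_lit 14) (.e (nat_lit 491567) (nat_lit 13) .nil))))) (.g (nat_lit 1) (.e (nat_lit 390756) (nat_lit 0) .nil) .nil)))) (.nd (nat_lit 9) 
(.lf (nat_lit 587074) (.g (nat_lit 1988) (.e (nat_lit 393291) (nat_lit 26) (.e (nat_lit 475177) (nat_lit 24) (.e (nat_lit 516115) (nat_lit 1) (.e (nat_lit 164324) (nat_lit 230) .nil)))) (.g (nat_lit 0) (.e (nat_lit 390497) (nat_lit 0) .nil) .nil))) 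
(.lf (nat_lit 587586) (.g (nat_lit 2793) (.e (nat_lit 401437) (nat_lit 9) (.e (nat_lit 426530) (nat_lit 27) (.e (nat_lit 336235) (nat_lit 14) (.e (nat_lit 401458) (nat_lit 13) (.e (nat_lit 483409) (nat_lit 27) .nil))))) (.g (nat_lit 1) (.e (nat_lit 391478) (nat_lit 0) .nil) .nil))))) (.nd (nat_lit 8) (.nd (nat_lit 9) 
(.lf (nat_lit 586946) (.g (nat_lit 3111) (.e (nat_lit 393284) (nat_lit 24) (.e (nat_lit 434272) (nat_lit 38) (.e (nat_lit 655378) (nat_lit 4) (.e (nat_lit 172125) (nat_lit 14) (.e (nat_lit 491570) (nat_lit 13) .nil))))) (.g (nat_lit 1) (.e (nat_lit 390323) (nat_lit 0) .nil) .nil))) 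
(.lf (nat_lit 587458) (.g (nat_lit 3254) (.e (nat_lit 401428) (nat_lit 3) (.e (nat_lit 204845) (nat_lit 24) (.e (nat_lit 319490) (nat_lit 0) (.e (nat_lit 5664) (nat_lit 312) (.e (nat_lit 2661) (nat_lit 167) (.e (nat_lit 196666) (nat_lit 13) (.e (nat_lit 65628) (nat_lit 14) .nil))))))) (.g (nat_lit 1) (.e (nat_lit 391088) (nat_lit 0) .nil) .nil)))) (.nd (nat_lit 9) 
(.lf (nat_lit 587202) (.g (nat_lit 738) (.e (nat_lit 393293) (nat_lit 26) (.e (nat_lit 475198) (nat_lit 40) (.e (nat_lit 704777) (nat_lit 14) .nil))) (.g (nat_lit 0) (.e (nat_lit 390625) (nat_lit 0) .nil) .nil))) 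
(.lf (nat_lit 587714) (.g (nat_lit 3062) (.e (nat_lit 401448) (nat_lit 10) (.e (nat_lit 434238) (nat_lit 25) (.e (nat_lit 548913) (nat_lit 18) (.e (nat_lit 172094) (nat_lit 9) (.e (nat_lit 426135) (nat_lit 3) .nil))))) (.g (nat_lit 0) (.e (nat_lit 391979) (nat_lit 0) .nil) .nil))))))) (.nd (nat_lit 6) (.nd (nat_lit 7) (.nd (nat_lit 8) (.nd (nat_lit 9) 
(.lf (nat_lit 586786) (.g (nat_lit 2170) (.e (nat_lit 393281) (nat_lit 23) (.e (nat_lit 426100) (nat_lit 1) (.e (nat_lit 164330) (nat_lit 230) (.e (nat_lit 163878) (nat_lit 4) (.e (nat_lit 213030) (nat_lit 11) (.e (nat_lit 24660) (nat_lit 13) .nil)))))) (.g (nat_lit 1) (.e (nat_lit 390099) (nat_lit 0) .nil) .nil))) 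
(.lf (nat_lit 587298) (.g (nat_lit 3125) (.e (nat_lit 393296) (nat_lit 26) (.e (nat_lit 475178) (nat_lit 24) (.e (nat_lit 516117) (nat_lit 1) (.e (nat_lit 164330) (nat_lit 230) (.e (nat_lit 163913) (nat_lit 12) (.e (nat_lit 433920) (nat_lit 34) .nil)))))) (.g (nat_lit 1) (.e (nat_lit 390723) (nat_lit 0) .nil) .nil)))) (.nd (nat_lit 9) 
(.lf (nat_lit 587042) (.g (nat_lit 2436) (.e (nat_lit 393287) (nat_lit 25) (.e (nat_lit 458789) (nat_lit 23) (.e (nat_lit 532503) (nat_lit 1) (.e (nat_lit 57691) (nat_lit 156) (.e (nat_lit 163907) (nat_lit 12) (.e (nat_lit 426566) (nat_lit 34) .nil)))))) (.g (nat_lit 1) (.e (nat_lit 390461) (nat_lit 0) .nil) .nil))) 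
(.lf (nat_lit 587554) (.g (nat_lit 1454) (.e (nat_lit 401432) (nat_lit 7) (.e (nat_lit 409645) (nat_lit 18) (.e (nat_lit 303140) (nat_lit 10) (.e (nat_lit 434275) (nat_lit 39) .nil)))) (.g (nat_lit 0) (.e (nat_lit 391369) (nat_lit 0) .nil) .nil))))) (.nd (nat_lit 8) (.nd (nat_lit 9) 
(.lf (nat_lit 586914) (.g (nat_lit 1437) (.e (nat_lit 393283) (nat_lit 24) (.e (nat_lit 434231) (nat_lit 23) (.e (nat_lit 532500) (nat_lit 1) (.e (nat_lit 57668) (nat_lit 152) .nil)))) (.g (nat_lit 0) (.e (nat_lit 390258) (nat_lit 0) .nil) .nil))) 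
(.lf (nat_lit 587426) (.g (nat_lit 566) (.e (nat_lit 401427) (nat_lit 3) (.e (nat_lit 204854) (nat_lit 26) (.e (nat_lit 336182) (nat_lit 11) .nil))) (.g (nat_lit 0) (.e (nat_lit 391007) (nat_lit 0) .nil) .nil)))) (.nd (nat_lit 9) 
(.lf (nat_lit 587170) (.g (nat_lit 3181) (.e (nat_lit 393293) (nat_lit 26) (.e (nat_lit 475177) (nat_lit 24) (.e (nat_lit 516118) (nat_lit 1) (.e (nat_lit 164327) (nat_lit 230) (.e (nat_lit 163903) (nat_lit 12) (.e (nat_lit 426566) (nat_lit 34) .nil)))))) (.g (nat_lit 1) (.e (nat_lit 390593) (nat_lit 0) .nil) .nil))) 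
(.lf (nat_lit 587682) (.g (nat_lit 2711) (.e (nat_lit 401448) (nat_lit 10) (.e (nat_lit 434231) (nat_lit 23) (.e (nat_lit 532523) (nat_lit 7) (.e (nat_lit 319511) (nat_lit 10) .nil)))) (.g (nat_lit 0) (.e (nat_lit 391936) (nat_lit 0) .nil) .nil)))))) (.nd (nat_lit 7) (.nd (nat_lit 8) (.nd (nat_lit 9) 
(.lf (nat_lit 586850) (.g (nat_lit 3209) (.e (nat_lit 393282) (nat_lit 24) (.e (nat_lit 434209) (nat_lit 18) (.e (nat_lit 5548) (nat_lit 306) (.e (nat_lit 2638) (nat_lit 165) (.e (nat_lit 180278) (nat_lit 32) (.e (nat_lit 1658) (nat_lit 115) .nil)))))) (.g (nat_lit 1) (.e (nat_lit 390185) (nat_lit 0) .nil) .nil))) 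
(.lf (nat_lit 587362) (.g (nat_lit 3188) (.e (nat_lit 401423) (nat_lit 2) (.e (nat_lit 196666) (nat_lit 13) (.e (nat_lit 65610) (nat_lit 10) (.e (nat_lit 344097) (nat_lit 18) (.e (nat_lit 4066) (nat_lit 245) .nil))))) (.g (nat_lit 0) (.e (nat_lit 390870) (nat_lit 0) .nil) .nil)))) (.nd (nat_lit 9) 
(.lf (nat_lit 587106) (.g (nat_lit 3132) (.e (nat_lit 393291) (nat_lit 26) (.e (nat_lit 475177) (nat_lit 24) (.e (nat_lit 516120) (nat_lit 1) (.e (nat_lit 164330) (nat_lit 230) (.e (nat_lit 163902) (nat_lit 12) (.e (nat_lit 426564) (nat_lit 34) .nil)))))) (.g (nat_lit 1) (.e (nat_lit 390529) (nat_lit 0) .nil) .nil))) 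
(.lf (nat_lit 587618) (.g (nat_lit 2174) (.e (nat_lit 401444) (nat_lit 9) (.e (nat_lit 426163) (nat_lit 6) (.e (nat_lit 253991) (nat_lit 11) (.e (nat_lit 16388) (nat_lit 0) (.e (nat_lit 7379) (nat_lit 390) .nil))))) (.g (nat_lit 0) (.e (nat_lit 391570) (nat_lit 0) .nil) .nil))))) (.nd (nat_lit 8) (.nd (nat_lit 9) 
(.lf (nat_lit 586978) (.g (nat_lit 2881) (.e (nat_lit 393286) (nat_lit 25) (.e (nat_lit 458789) (nat_lit 23) (.e (nat_lit 532501) (nat_lit 1) (.e (nat_lit 57692) (nat_lit 156) (.e (nat_lit 163905) (nat_lit 12) (.e (nat_lit 426568) (nat_lit 34) .nil)))))) (.g (nat_lit 1) (.e (nat_lit 390379) (nat_lit 0) .nil) .nil))) 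
(.lf (nat_lit 587490) (.g (nat_lit 2392) (.e (nat_lit 401428) (nat_lit 3) (.e (nat_lit 204868) (nat_lit 29) (.e (nat_lit 360473) (nat_lit 8) (.e (nat_lit 557087) (nat_lit 11) (.e (nat_lit 32512) (nat_lit 14) .nil))))) (.g (nat_lit 1) (.e (nat_lit 391162) (nat_lit 0) .nil) .nil)))) (.nd (nat_lit 9) 
(.lf (nat_lit 587234) (.g (nat_lit 2588) (.e (nat_lit 393294) (nat_lit 26) (.e (nat_lit 475179) (nat_lit 24) (.e (nat_lit 516120) (nat_lit 1) (.e (nat_lit 164332) (nat_lit 230) (.e (nat_lit 163902) (nat_lit 12) (.e (nat_lit 426567) (nat_lit 34) .nil)))))) (.g (nat_lit 1) (.e (nat_lit 390657) (nat_lit 0) .nil) .nil))) 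
(.lf (nat_lit 587746) (.g (nat_lit 1275) (.e (nat_lit 401448) (nat_lit 10) (.e (nat_lit 434272) (nat_lit 38) (.e (nat_lit 655364) (nat_lit 0) (.e (nat_lit 3015) (nat_lit 187) .nil)))) (.g (nat_lit 0) (.e (nat_lit 392038) (nat_lit 0) .nil) .nil)))))))) (.nd (nat_lit 5) (.nd (nat_lit 6) (.nd (nat_lit 7) (.nd (nat_lit 8) (.nd (nat_lit 9) 
(.lf (nat_lit 586770) (.g (nat_lit 1836) (.e (nat_lit 393281) (nat_lit 23) (.e (nat_lit 426099) (nat_lit 1) (.e (nat_lit 164332) (nat_lit 230) (.e (nat_lit 163843) (nat_lit 0) (.e (nat_lit 3661) (nat_lit 227) (.e (nat_lit 778462) (nat_lit 11) (.e (nat_lit 24658) (nat_lit 13) .nil))))))) (.g (nat_lit 1) (.e (nat_lit 390080) (nat_lit 0) .nil) .nil))) 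
(.lf (nat_lit 587282) (.g (nat_lit 1814) (.e (nat_lit 393296) (nat_lit 26) (.e (nat_lit 475177) (nat_lit 24) (.e (nat_lit 516120) (nat_lit 1) (.e (nat_lit 164305) (nat_lit 226) (.e (nat_lit 2439) (nat_lit 157) (.e (nat_lit 2900) (nat_lit 184) (.e (nat_lit 426565) (nat_lit 34) .nil))))))) (.g (nat_lit 1) (.e (nat_lit 390707) (nat_lit 0) .nil) .nil)))) (.nd (nat_lit 9) 
(.lf (nat_lit 587026) (.g (nat_lit 712) (.e (nat_lit 393287) (nat_lit 25) (.e (nat_lit 458789) (nat_lit 23) (.e (nat_lit 532501) (nat_lit 1) (.e (nat_lit 57663) (nat_lit 152) .nil)))) (.g (nat_lit 0) (.e (nat_lit 390445) (nat_lit 0) .nil) .nil))) 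
(.lf (nat_lit 587538) (.g (nat_lit 4202) (.e (nat_lit 401428) (nat_lit 3) (.e (nat_lit 204869) (nat_lit 29) (.e (nat_lit 360474) (nat_lit 8) (.e (nat_lit 557079) (nat_lit 9) .nil)))) (.g (nat_lit 0) (.e (nat_lit 391259) (nat_lit 0) .nil) .nil))))) (.nd (nat_lit 8) (.nd (nat_lit 9) 
(.lf (nat_lit 586898) (.g (nat_lit 579) (.e (nat_lit 393282) (nat_lit 24) (.e (nat_lit 434247) (nat_lit 28) (.e (nat_lit 573475) (nat_lit 12) .nil))) (.g (nat_lit 0) (.e (nat_lit 390234) (nat_lit 0) .nil) .nil))) 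
(.lf (nat_lit 587410) (.g (nat_lit 355) (.e (nat_lit 401425) (nat_lit 2) (.e (nat_lit 196674) (nat_lit 15) (.e (nat_lit 89856) (nat_lit 0) .nil))) (.g (nat_lit 0) (.e (nat_lit 390948) (nat_lit 0) .nil) .nil)))) (.nd (nat_lit 9) 
(.lf (nat_lit 587154) (.g (nat_lit 2346) (.e (nat_lit 393293) (nat_lit 26) (.e (nat_lit 475177) (nat_lit 24) (.e (nat_lit 516115) (nat_lit 1) (.e (nat_lit 164325) (nat_lit 230) (.e (nat_lit 163907) (nat_lit 12) (.e (nat_lit 426564) (nat_lit 34) .nil)))))) (.g (nat_lit 1) (.e (nat_lit 390577) (nat_lit 0) .nil) .nil))) 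
(.lf (nat_lit 587666) (.g (nat_lit 1323) (.e (nat_lit 401447) (nat_lit 10) (.e (nat_lit 434238) (nat_lit 25) (.e (nat_lit 548898) (nat_lit 14) (.e (nat_lit 3022) (nat_lit 187) .nil)))) (.g (nat_lit 0) (.e (nat_lit 391829) (nat_lit 0) .nil) .nil)))))) (.nd (nat_lit 7) (.nd (nat_lit 8) (.nd (nat_lit 9) 
(.lf (nat_lit 586834) (.g (nat_lit 1283) (.e (nat_lit 401152) (nat_lit 23) (.e (nat_lit 426107) (nat_lit 1) (.e (nat_lit 164325) (nat_lit 230) (.e (nat_lit 163882) (nat_lit 4) .nil)))) (.g (nat_lit 0) (.e (nat_lit 390161) (nat_lit 0) .nil) .nil))) 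
(.lf (nat_lit 587346) (.g (nat_lit 2541) (.e (nat_lit 401408) (nat_lit 0) (.e (nat_lit 3238) (nat_lit 197) (.e (nat_lit 532535) (nat_lit 9) (.e (nat_lit 336171) (nat_lit 10) .nil)))) (.g (nat_lit 0) (.e (nat_lit 390791) (nat_lit 0) .nil) .nil)))) (.nd (nat_lit 9) 
(.lf (nat_lit 587090) (.g (nat_lit 3270) (.e (nat_lit 393291) (nat_lit 26) (.e (nat_lit 475177) (nat_lit 24) (.e (nat_lit 516117) (nat_lit 1) (.e (nat_lit 164330) (nat_lit 230) (.e (nat_lit 163902) (nat_lit 12) (.e (nat_lit 426567) (nat_lit 34) .nil)))))) (.g (nat_lit 1) (.e (nat_lit 390513) (nat_lit 0) .nil) .nil))) 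
(.lf (nat_lit 587602) (.g (nat_lit 1859) (.e (nat_lit 401438) (nat_lit 9) (.e (nat_lit 426533) (nat_lit 28) (.e (nat_lit 344069) (nat_lit 0) (.e (nat_lit 2854) (nat_lit 184) (.e (nat_lit 426509) (nat_lit 27) (.e (nat_lit 336228) (nat_lit 14) .nil)))))) (.g (nat_lit 1) (.e (nat_lit 391501) (nat_lit 0) .nil) .nil))))) (.nd (nat_lit 8) (.nd (nat_lit 9) 
(.lf (nat_lit 586962) (.g (nat_lit 2352) (.e (nat_lit 393286) (nat_lit 25) (.e (nat_lit 458789) (nat_lit 23) (.e (nat_lit 532499) (nat_lit 1) (.e (nat_lit 57667) (nat_lit 152) (.e (nat_lit 2619) (nat_lit 164) (.e (nat_lit 179968) (nat_lit 34) .nil)))))) (.g (nat_lit 1) (.e (nat_lit 390363) (nat_lit 0) .nil) .nil))) 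
(.lf (nat_lit 587474) (.g (nat_lit 3406) (.e (nat_lit 401428) (nat_lit 3) (.e (nat_lit 204859) (nat_lit 26) (.e (nat_lit 336206) (nat_lit 12) (.e (nat_lit 385074) (nat_lit 31) (.e (nat_lit 573484) (nat_lit 13) (.e (nat_lit 65628) (nat_lit 14) .nil)))))) (.g (nat_lit 1) (.e (nat_lit 391113) (nat_lit 0) .nil) .nil)))) (.nd (nat_lit 9) 
(.lf (nat_lit 587218) (.g (nat_lit 3593) (.e (nat_lit 393294) (nat_lit 26) (.e (nat_lit 475177) (nat_lit 24) (.e (nat_lit 516120) (nat_lit 1) (.e (nat_lit 164330) (nat_lit 230) (.e (nat_lit 163904) (nat_lit 12) (.e (nat_lit 426566) (nat_lit 34) .nil)))))) (.g (nat_lit 1) (.e (nat_lit 390641) (nat_lit 0) .nil) .nil))) 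
(.lf (nat_lit 587730) (.g (nat_lit 1802) (.e (nat_lit 401448) (nat_lit 10) (.e (nat_lit 434245) (nat_lit 28) (.e (nat_lit 573471) (nat_lit 11) (.e (nat_lit 16441) (nat_lit 9) .nil)))) (.g (nat_lit 0) (.e (nat_lit 392005) (nat_lit 0) .nil) .nil))))))) (.nd (nat_lit 6) (.nd (nat_lit 7) (.nd (nat_lit 8) (.nd (nat_lit 9) 
(.lf (nat_lit 586802) (.g (nat_lit 2681) (.e (nat_lit 393281) (nat_lit 23) (.e (nat_lit 426100) (nat_lit 1) (.e (nat_lit 164332) (nat_lit 230) (.e (nat_lit 163880) (nat_lit 4) (.e (nat_lit 213032) (nat_lit 11) (.e (nat_lit 24656) (nat_lit 13) .nil)))))) (.g (nat_lit 1) (.e (nat_lit 390115) (nat_lit 0) .nil) .nil))) 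
(.lf (nat_lit 587314) (.g (nat_lit 2086) (.e (nat_lit 393296) (nat_lit 26) (.e (nat_lit 475179) (nat_lit 24) (.e (nat_lit 516115) (nat_lit 1) (.e (nat_lit 164330) (nat_lit 230) .nil)))) (.g (nat_lit 0) (.e (nat_lit 390739) (nat_lit 0) .nil) .nil)))) (.nd (nat_lit 9) 
(.lf (nat_lit 587058) (.g (nat_lit 4462) (.e (nat_lit 393290) (nat_lit 26) (.e (nat_lit 475179) (nat_lit 24) (.e (nat_lit 516115) (nat_lit 1) (.e (nat_lit 164325) (nat_lit 230) (.e (nat_lit 163903) (nat_lit 12) (.e (nat_lit 426566) (nat_lit 34) .nil)))))) (.g (nat_lit 1) (.e (nat_lit 390480) (nat_lit 0) .nil) .nil))) 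
(.lf (nat_lit 587570) (.g (nat_lit 964) (.e (nat_lit 401434) (nat_lit 9) (.e (nat_lit 426125) (nat_lit 2) (.e (nat_lit 196661) (nat_lit 12) (.e (nat_lit 65280) (nat_lit 206) .nil)))) (.g (nat_lit 0) (.e (nat_lit 391426) (nat_lit 0) .nil) .nil))))) (.nd (nat_lit 8) (.nd (nat_lit 9) 
(.lf (nat_lit 586930) (.g (nat_lit 352) (.e (nat_lit 393283) (nat_lit 24) (.e (nat_lit 434271) (nat_lit 38) (.e (nat_lit 655367) (nat_lit 0) .nil))) (.g (nat_lit 0) (.e (nat_lit 390291) (nat_lit 0) .nil) .nil))) 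
(.lf (nat_lit 587442) (.g (nat_lit 2302) (.e (nat_lit 401427) (nat_lit 3) (.e (nat_lit 204869) (nat_lit 29) (.e (nat_lit 360471) (nat_lit 7) (.e (nat_lit 548874) (nat_lit 5) .nil)))) (.g (nat_lit 0) (.e (nat_lit 391066) (nat_lit 0) .nil) .nil)))) (.nd (nat_lit 9) 
(.lf (nat_lit 587186) (.g (nat_lit 2852) (.e (nat_lit 393293) (nat_lit 26) (.e (nat_lit 475177) (nat_lit 24) (.e (nat_lit 516120) (nat_lit 1) (.e (nat_lit 164332) (nat_lit 230) (.e (nat_lit 163905) (nat_lit 12) (.e (nat_lit 426566) (nat_lit 34) .nil)))))) (.g (nat_lit 1) (.e (nat_lit 390609) (nat_lit 0) .nil) .nil))) 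
(.lf (nat_lit 587698) (.g (nat_lit 2773) (.e (nat_lit 401448) (nat_lit 10) (.e (nat_lit 434231) (nat_lit 23) (.e (nat_lit 532569) (nat_lit 16) (.e (nat_lit 401447) (nat_lit 10) (.e (nat_lit 434231) (nat_lit 23) .nil))))) (.g (nat_lit 0) (.e (nat_lit 391954) (nat_lit 0) .nil) .nil)))))) (.nd (nat_lit 7) (.nd (nat_lit 8) (.nd (nat_lit 9) 
(.lf (nat_lit 586866) (.g (nat_lit 552) (.e (nat_lit 393282) (nat_lit 24) (.e (nat_lit 434231) (nat_lit 23) (.e (nat_lit 532500) (nat_lit 1) .nil))) (.g (nat_lit 0) (.e (nat_lit 390201) (nat_lit 0) .nil) .nil))) 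
(.lf (nat_lit 587378) (.g (nat_lit 450) (.e (nat_lit 401424) (nat_lit 2) (.e (nat_lit 196674) (nat_lit 15) (.e (nat_lit 81946) (nat_lit 20) .nil))) (.g (nat_lit 0) (.e (nat_lit 390908) (nat_lit 0) .nil) .nil)))) (.nd (nat_lit 9) 
(.lf (nat_lit 587122) (.g (nat_lit 2441) (.e (nat_lit 393291) (nat_lit 26) (.e (nat_lit 475179) (nat_lit 24) (.e (nat_lit 516115) (nat_lit 1) (.e (nat_lit 164332) (nat_lit 230) (.e (nat_lit 163904) (nat_lit 12) .nil))))) (.g (nat_lit 0) (.e (nat_lit 390545) (nat_lit 0) .nil) .nil))) 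
(.lf (nat_lit 587634) (.g (nat_lit 3382) (.e (nat_lit 401446) (nat_lit 10) (.e (nat_lit 434209) (nat_lit 18) (.e (nat_lit 6425) (nat_lit 342) (.e (nat_lit 229412) (nat_lit 14) (.e (nat_lit 442390) (nat_lit 11) (.e (nat_lit 336230) (nat_lit 14) .nil)))))) (.g (nat_lit 1) (.e (nat_lit 391678) (nat_lit 0) .nil) .nil))))) (.nd (nat_lit 8) (.nd (nat_lit 9) 
(.lf (nat_lit 586994) (.g (nat_lit 1453) (.e (nat_lit 393286) (nat_lit 25) (.e (nat_lit 458789) (nat_lit 23) (.e (nat_lit 532503) (nat_lit 1) (.e (nat_lit 57693) (nat_lit 157) .nil)))) (.g (nat_lit 0) (.e (nat_lit 390395) (nat_lit 0) .nil) .nil))) 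
(.lf (nat_lit 587506) (.g (nat_lit 3302) (.e (nat_lit 401428) (nat_lit 3) (.e (nat_lit 204869) (nat_lit 29) (.e (nat_lit 360451) (nat_lit 0) (.e (nat_lit 4004) (nat_lit 242) .nil)))) (.g (nat_lit 0) (.e (nat_lit 391184) (nat_lit 0) .nil) .nil)))) (.nd (nat_lit 9) 
(.lf (nat_lit 587250) (.g (nat_lit 3231) (.e (nat_lit 393295) (nat_lit 26) (.e (nat_lit 475177) (nat_lit 24) (.e (nat_lit 516119) (nat_lit 1) (.e (nat_lit 164325) (nat_lit 230) (.e (nat_lit 163907) (nat_lit 12) (.e (nat_lit 426566) (nat_lit 34) .nil)))))) (.g (nat_lit 1) (.e (nat_lit 390675) (nat_lit 0) .nil) .nil))) 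
(.lf (nat_lit 587762) (.g (nat_lit 3401) (.e (nat_lit 401450) (nat_lit 12) (.e (nat_lit 475185) (nat_lit 29) (.e (nat_lit 557101) (nat_lit 13) (.e (nat_lit 172097) (nat_lit 9) (.e (nat_lit 426140) (nat_lit 3) (.e (nat_lit 204883) (nat_lit 33) .nil)))))) (.g (nat_lit 1) (.e (nat_lit 392090) (nat_lit 0) .nil) .nil))))))))) 
(.nd (nat_lit 4) (.nd (nat_lit 5) (.nd (nat_lit 6) (.nd (nat_lit 7) (.nd (nat_lit 8) 
(.nd (nat_lit 9) 
(.lf (nat_lit 586762) (.g (nat_lit 1129) (.e (nat_lit 393281) (nat_lit 23) (.e (nat_lit 426099) (nat_lit 1) (.e (nat_lit 164330) (nat_lit 230) (.e (nat_lit 163855) (nat_lit 0) .nil)))) (.g (nat_lit 0) (.e (nat_lit 390072) (nat_lit 0) .nil) .nil))) 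
(.lf (nat_lit 587274) (.g (nat_lit 1828) (.e (nat_lit 393296) (nat_lit 26) (.e (nat_lit 475177) (nat_lit 24) (.e (nat_lit 516117) (nat_lit 1) (.e (nat_lit 164305) (nat_lit 226) (.e (nat_lit 2439) (nat_lit 157) (.e (nat_lit 2900) (nat_lit 184) (.e (nat_lit 426565) (nat_lit 34) .nil))))))) (.g (nat_lit 1) (.e (nat_lit 390699) (nat_lit 0) .nil) .nil)))) (.nd (nat_lit 9) 
(.lf (nat_lit 587018) (.g (nat_lit 3146) (.e (nat_lit 393287) (nat_lit 25) (.e (nat_lit 458789) (nat_lit 23) (.e (nat_lit 532499) (nat_lit 1) (.e (nat_lit 57688) (nat_lit 156) (.e (nat_lit 163903) (nat_lit 12) (.e (nat_lit 426568) (nat_lit 34) .nil)))))) (.g (nat_lit 1) (.e (nat_lit 390437) (nat_lit 0) .nil) .nil))) 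
(.lf (nat_lit 587530) (.g (nat_lit 3500) (.e (nat_lit 401428) (nat_lit 3) (.e (nat_lit 204869) (nat_lit 29) (.e (nat_lit 360474) (nat_lit 8) (.e (nat_lit 557065) (nat_lit 9) (.e (nat_lit 234) (nat_lit 21) .nil))))) (.g (nat_lit 0) (.e (nat_lit 391251) (nat_lit 0) .nil) .nil))))) (.nd (nat_lit 8) (.nd (nat_lit 9) 
(.lf (nat_lit 586890) (.g (nat_lit 2148) (.e (nat_lit 393282) (nat_lit 24) (.e (nat_lit 434233) (nat_lit 23) (.e (nat_lit 532499) (nat_lit 1) (.e (nat_lit 57691) (nat_lit 156) (.e (nat_lit 163905) (nat_lit 12) (.e (nat_lit 426568) (nat_lit 34) .nil)))))) (.g (nat_lit 1) (.e (nat_lit 390225) (nat_lit 0) .nil) .nil))) 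
(.lf (nat_lit 587402) (.g (nat_lit 2962) (.e (nat_lit 401425) (nat_lit 2) (.e (nat_lit 196666) (nat_lit 13) (.e (nat_lit 65624) (nat_lit 12) (.e (nat_lit 385072) (nat_lit 31) (.e (nat_lit 573481) (nat_lit 13) .nil))))) (.g (nat_lit 0) (.e (nat_lit 390938) (nat_lit 0) .nil) .nil)))) (.nd (nat_lit 9) 
(.lf (nat_lit 587146) (.g (nat_lit 3078) (.e (nat_lit 393293) (nat_lit 26) (.e (nat_lit 475175) (nat_lit 24) (.e (nat_lit 516119) (nat_lit 1) (.e (nat_lit 164326) (nat_lit 230) (.e (nat_lit 163903) (nat_lit 12) (.e (nat_lit 426566) (nat_lit 34) .nil)))))) (.g (nat_lit 1) (.e (nat_lit 390569) (nat_lit 0) .nil) .nil))) 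
(.lf (nat_lit 587658) (.g (nat_lit 2423) (.e (nat_lit 401447) (nat_lit 10) (.e (nat_lit 434231) (nat_lit 23) (.e (nat_lit 532490) (nat_lit 0) (.e (nat_lit 7936) (nat_lit 362) .nil)))) (.g (nat_lit 0) (.e (nat_lit 391811) (nat_lit 0) .nil) .nil)))))) (.nd (nat_lit 7) (.nd (nat_lit 8) (.nd (nat_lit 9) 
(.lf (nat_lit 586826) (.g (nat_lit 1537) (.e (nat_lit 393281) (nat_lit 23) (.e (nat_lit 426139) (nat_lit 3) (.e (nat_lit 204813) (nat_lit 9) (.e (nat_lit 426100) (nat_lit 1) .nil)))) (.g (nat_lit 0) (.e (nat_lit 390151) (nat_lit 0) .nil) .nil))) 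
(.lf (nat_lit 587338) (.g (nat_lit 2644) (.e (nat_lit 393299) (nat_lit 27) (.e (nat_lit 491547) (nat_lit 9) (.e (nat_lit 336395) (nat_lit 27) (.e (nat_lit 426340) (nat_lit 14) (.e (nat_lit 491571) (nat_lit 13) .nil))))) (.g (nat_lit 1) (.e (nat_lit 390773) (nat_lit 0) .nil) .nil)))) (.nd (nat_lit 9) 
(.lf (nat_lit 587082) (.g (nat_lit 2286) (.e (nat_lit 393291) (nat_lit 26) (.e (nat_lit 475177) (nat_lit 24) (.e (nat_lit 516115) (nat_lit 1) (.e (nat_lit 164326) (nat_lit 230) (.e (nat_lit 163904) (nat_lit 12) .nil))))) (.g (nat_lit 0) (.e (nat_lit 390505) (nat_lit 0) .nil) .nil))) 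
(.lf (nat_lit 587594) (.g (nat_lit 4709) (.e (nat_lit 401437) (nat_lit 9) (.e (nat_lit 426566) (nat_lit 34) (.e (nat_lit 393253) (nat_lit 18) (.e (nat_lit 164406) (nat_lit 258) .nil)))) (.g (nat_lit 0) (.e (nat_lit 391486) (nat_lit 0) .nil) .nil))))) (.nd (nat_lit 8) (.nd (nat_lit 9) 
(.lf (nat_lit 586954) (.g (nat_lit 2797) (.e (nat_lit 393286) (nat_lit 25) (.e (nat_lit 458774) (nat_lit 18) (.e (nat_lit 5548) (nat_lit 306) (.e (nat_lit 2638) (nat_lit 165) (.e (nat_lit 180278) (nat_lit 32) (.e (nat_lit 1660) (nat_lit 115) .nil)))))) (.g (nat_lit 1) (.e (nat_lit 390353) (nat_lit 0) .nil) .nil))) 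
(.lf (nat_lit 587466) (.g (nat_lit 1239) (.e (nat_lit 401428) (nat_lit 3) (.e (nat_lit 204854) (nat_lit 26) (.e (nat_lit 336208) (nat_lit 12) (.e (nat_lit 385072) (nat_lit 31) .nil)))) (.g (nat_lit 0) (.e (nat_lit 391101) (nat_lit 0) .nil) .nil)))) (.nd (nat_lit 9) 
(.lf (nat_lit 587210) (.g (nat_lit 3238) (.e (nat_lit 393294) (nat_lit 26) (.e (nat_lit 475177) (nat_lit 24) (.e (nat_lit 516115) (nat_lit 1) (.e (nat_lit 164327) (nat_lit 230) (.e (nat_lit 163903) (nat_lit 12) (.e (nat_lit 426567) (nat_lit 34) .nil)))))) (.g (nat_lit 1) (.e (nat_lit 390633) (nat_lit 0) .nil) .nil))) 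
(.lf (nat_lit 587722) (.g (nat_lit 1674) (.e (nat_lit 401448) (nat_lit 10) (.e (nat_lit 434244) (nat_lit 28) (.e (nat_lit 573469) (nat_lit 11) (.e (nat_lit 16452) (nat_lit 11) .nil)))) (.g (nat_lit 0) (.e (nat_lit 391997) (nat_lit 0) .nil) .nil))))))) (.nd (nat_lit 6) (.nd (nat_lit 7) (.nd (nat_lit 8) (.nd (nat_lit 9) 
(.lf (nat_lit 586794) (.g (nat_lit 2875) (.e (nat_lit 393281) (nat_lit 23) (.e (nat_lit 426100) (nat_lit 1) (.e (nat_lit 164332) (nat_lit 230) (.e (nat_lit 163878) (nat_lit 4) (.e (nat_lit 213030) (nat_lit 11) (.e (nat_lit 24656) (nat_lit 13) .nil)))))) (.g (nat_lit 1) (.e (nat_lit 390107) (nat_lit 0) .nil) .nil))) 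
(.lf (nat_lit 587306) (.g (nat_lit 2179) (.e (nat_lit 393296) (nat_lit 26) (.e (nat_lit 475178) (nat_lit 24) (.e (nat_lit 516120) (nat_lit 1) (.e (nat_lit 164329) (nat_lit 230) (.e (nat_lit 163908) (nat_lit 12) (.e (nat_lit 433920) (nat_lit 34) .nil)))))) (.g (nat_lit 1) (.e (nat_lit 390731) (nat_lit 0) .nil) .nil)))) (.nd (nat_lit 9) 
(.lf (nat_lit 587050) (.g (nat_lit 2119) (.e (nat_lit 393289) (nat_lit 25) (.e (nat_lit 458789) (nat_lit 23) (.e (nat_lit 532499) (nat_lit 1) (.e (nat_lit 57654) (nat_lit 152) (.e (nat_lit 2633) (nat_lit 164) (.e (nat_lit 179968) (nat_lit 34) .nil)))))) (.g (nat_lit 1) (.e (nat_lit 390471) (nat_lit 0) .nil) .nil))) 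
(.lf (nat_lit 587562) (.g (nat_lit 958) (.e (nat_lit 401432) (nat_lit 7) (.e (nat_lit 409648) (nat_lit 18) (.e (nat_lit 303138) (nat_lit 10) (.e (nat_lit 434275) (nat_lit 39) .nil)))) (.g (nat_lit 0) (.e (nat_lit 391394) (nat_lit 0) .nil) .nil))))) (.nd (nat_lit 8) (.nd (nat_lit 9) 
(.lf (nat_lit 586922) (.g (nat_lit 3446) (.e (nat_lit 393283) (nat_lit 24) (.e (nat_lit 434232) (nat_lit 23) (.e (nat_lit 532503) (nat_lit 1) (.e (nat_lit 57688) (nat_lit 156) (.e (nat_lit 163907) (nat_lit 12) (.e (nat_lit 426568) (nat_lit 34) .nil)))))) (.g (nat_lit 1) (.e (nat_lit 390266) (nat_lit 0) .nil) .nil))) 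
(.lf (nat_lit 587434) (.g (nat_lit 3841) (.e (nat_lit 401427) (nat_lit 3) (.e (nat_lit 204868) (nat_lit 29) (.e (nat_lit 360475) (nat_lit 8) (.e (nat_lit 557087) (nat_lit 11) (.e (nat_lit 24661) (nat_lit 14) .nil))))) (.g (nat_lit 1) (.e (nat_lit 391027) (nat_lit 0) .nil) .nil)))) (.nd (nat_lit 9) 
(.lf (nat_lit 587178) (.g (nat_lit 2905) (.e (nat_lit 393293) (nat_lit 26) (.e (nat_lit 475177) (nat_lit 24) (.e (nat_lit 516119) (nat_lit 1) (.e (nat_lit 164327) (nat_lit 230) (.e (nat_lit 163903) (nat_lit 12) (.e (nat_lit 426567) (nat_lit 34) .nil)))))) (.g (nat_lit 1) (.e (nat_lit 390601) (nat_lit 0) .nil) .nil))) 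
(.lf (nat_lit 587690) (.g (nat_lit 2424) (.e (nat_lit 401448) (nat_lit 10) (.e (nat_lit 434231) (nat_lit 23) (.e (nat_lit 532567) (nat_lit 16) (.e (nat_lit 401437) (nat_lit 9) (.e (nat_lit 426131) (nat_lit 3) .nil))))) (.g (nat_lit 0) (.e (nat_lit 391945) (nat_lit 0) .nil) .nil)))))) (.nd (nat_lit 7) (.nd (nat_lit 8) (.nd (nat_lit 9) 
(.lf (nat_lit 586858) (.g (nat_lit 1419) (.e (nat_lit 393282) (nat_lit 24) (.e (nat_lit 434212) (nat_lit 18) (.e (nat_lit 5548) (nat_lit 306) (.e (nat_lit 2640) (nat_lit 165) (.e (nat_lit 180278) (nat_lit 32) .nil))))) (.g (nat_lit 0) (.e (nat_lit 390193) (nat_lit 0) .nil) .nil))) 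
(.lf (nat_lit 587370) (.g (nat_lit 552) (.e (nat_lit 401423) (nat_lit 2) (.e (nat_lit 196674) (nat_lit 15) (.e (nat_lit 81946) (nat_lit 20) .nil))) (.g (nat_lit 0) (.e (nat_lit 390883) (nat_lit 0) .nil) .nil)))) (.nd (nat_lit 9) 
(.lf (nat_lit 587114) (.g (nat_lit 2725) (.e (nat_lit 393291) (nat_lit 26) (.e (nat_lit 475179) (nat_lit 24) (.e (nat_lit 516115) (nat_lit 1) (.e (nat_lit 164325) (nat_lit 230) (.e (nat_lit 163901) (nat_lit 12) .nil))))) (.g (nat_lit 0) (.e (nat_lit 390537) (nat_lit 0) .nil) .nil))) 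
(.lf (nat_lit 587626) (.g (nat_lit 4047) (.e (nat_lit 401444) (nat_lit 9) (.e (nat_lit 426163) (nat_lit 6) (.e (nat_lit 253991) (nat_lit 11) (.e (nat_lit 16466) (nat_lit 13) (.e (nat_lit 483410) (nat_lit 27) .nil))))) (.g (nat_lit 1) (.e (nat_lit 391584) (nat_lit 0) .nil) .nil))))) (.nd (nat_lit 8) (.nd (nat_lit 9) 
(.lf (nat_lit 586986) (.g (nat_lit 1501) (.e (nat_lit 393286) (nat_lit 25) (.e (nat_lit 458789) (nat_lit 23) (.e (nat_lit 532503) (nat_lit 1) (.e (nat_lit 57651) (nat_lit 152) .nil)))) (.g (nat_lit 0) (.e (nat_lit 390387) (nat_lit 0) .nil) .nil))) 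
(.lf (nat_lit 587498) (.g (nat_lit 371) (.e (nat_lit 401428) (nat_lit 3) (.e (nat_lit 204869) (nat_lit 29) (.e (nat_lit 360450) (nat_lit 0) .nil))) (.g (nat_lit 0) (.e (nat_lit 391171) (nat_lit 0) .nil) .nil)))) (.nd (nat_lit 9) 
(.lf (nat_lit 587242) (.g (nat_lit 4055) (.e (nat_lit 393295) (nat_lit 26) (.e (nat_lit 475177) (nat_lit 24) (.e (nat_lit 516115) (nat_lit 1) (.e (nat_lit 164325) (nat_lit 230) (.e (nat_lit 163903) (nat_lit 12) (.e (nat_lit 426566) (nat_lit 34) .nil)))))) (.g (nat_lit 1) (.e (nat_lit 390667) (nat_lit 0) .nil) .nil))) 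
(.lf (nat_lit 587754) (.g (nat_lit 3753) (.e (nat_lit 401448) (nat_lit 10) (.e (nat_lit 434289) (nat_lit 43) (.e (nat_lit 696344) (nat_lit 8) (.e (nat_lit 172122) (nat_lit 13) (.e (nat_lit 483413) (nat_lit 27) .nil))))) (.g (nat_lit 1) (.e (nat_lit 392058) (nat_lit 0) .nil) .nil)))))))) (.nd (nat_lit 5) (.nd (nat_lit 6) (.nd (nat_lit 7) (.nd (nat_lit 8) (.nd (nat_lit 9) 
(.lf (nat_lit 586778) (.g (nat_lit 3287) (.e (nat_lit 393281) (nat_lit 23) (.e (nat_lit 426099) (nat_lit 1) (.e (nat_lit 164332) (nat_lit 230) (.e (nat_lit 163878) (nat_lit 4) (.e (nat_lit 213032) (nat_lit 11) (.e (nat_lit 24658) (nat_lit 13) .nil)))))) (.g (nat_lit 1) (.e (nat_lit 390088) (nat_lit 0) .nil) .nil))) 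
(.lf (nat_lit 587290) (.g (nat_lit 1603) (.e (nat_lit 393296) (nat_lit 26) (.e (nat_lit 475178) (nat_lit 24) (.e (nat_lit 516117) (nat_lit 1) (.e (nat_lit 164304) (nat_lit 226) (.e (nat_lit 2439) (nat_lit 157) (.e (nat_lit 2900) (nat_lit 184) (.e (nat_lit 426565) (nat_lit 34) .nil))))))) (.g (nat_lit 1) (.e (nat_lit 390715) (nat_lit 0) .nil) .nil)))) (.nd (nat_lit 9) 
(.lf (nat_lit 587034) (.g (nat_lit 2085) (.e (nat_lit 393287) (nat_lit 25) (.e (nat_lit 458789) (nat_lit 23) (.e (nat_lit 532503) (nat_lit 1) (.e (nat_lit 57651) (nat_lit 152) (.e (nat_lit 2619) (nat_lit 164) (.e (nat_lit 179968) (nat_lit 34) .nil)))))) (.g (nat_lit 1) (.e (nat_lit 390453) (nat_lit 0) .nil) .nil))) 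
(.lf (nat_lit 587546) (.g (nat_lit 4068) (.e (nat_lit 401428) (nat_lit 3) (.e (nat_lit 204869) (nat_lit 29) (.e (nat_lit 360475) (nat_lit 8) (.e (nat_lit 557065) (nat_lit 9) (.e (nat_lit 290) (nat_lit 21) .nil))))) (.g (nat_lit 0) (.e (nat_lit 391321) (nat_lit 0) .nil) .nil))))) (.nd (nat_lit 8) (.nd (nat_lit 9) 
(.lf (nat_lit 586906) (.g (nat_lit 2606) (.e (nat_lit 393283) (nat_lit 24) (.e (nat_lit 434209) (nat_lit 18) (.e (nat_lit 5546) (nat_lit 306) (.e (nat_lit 2638) (nat_lit 165) (.e (nat_lit 180277) (nat_lit 32) (.e (nat_lit 1658) (nat_lit 115) .nil)))))) (.g (nat_lit 1) (.e (nat_lit 390247) (nat_lit 0) .nil) .nil))) 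
(.lf (nat_lit 587418) (.g (nat_lit 761) (.e (nat_lit 401426) (nat_lit 3) (.e (nat_lit 204861) (nat_lit 26) (.e (nat_lit 336186) (nat_lit 11) .nil))) (.g (nat_lit 0) (.e (nat_lit 390978) (nat_lit 0) .nil) .nil)))) (.nd (nat_lit 9) 
(.lf (nat_lit 587162) (.g (nat_lit 3534) (.e (nat_lit 393293) (nat_lit 26) (.e (nat_lit 475177) (nat_lit 24) (.e (nat_lit 516117) (nat_lit 1) (.e (nat_lit 164330) (nat_lit 230) (.e (nat_lit 163902) (nat_lit 12) (.e (nat_lit 426566) (nat_lit 34) .nil)))))) (.g (nat_lit 1) (.e (nat_lit 390585) (nat_lit 0) .nil) .nil))) 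
(.lf (nat_lit 587674) (.g (nat_lit 1804) (.e (nat_lit 401448) (nat_lit 10) (.e (nat_lit 434231) (nat_lit 23) (.e (nat_lit 532490) (nat_lit 0) (.e (nat_lit 6114) (nat_lit 332) .nil)))) (.g (nat_lit 0) (.e (nat_lit 391927) (nat_lit 0) .nil) .nil)))))) (.nd (nat_lit 7) (.nd (nat_lit 8) (.nd (nat_lit 9) 
(.lf (nat_lit 586842) (.g (nat_lit 2787) (.e (nat_lit 393282) (nat_lit 24) (.e (nat_lit 434209) (nat_lit 18) (.e (nat_lit 5546) (nat_lit 306) (.e (nat_lit 2638) (nat_lit 165) (.e (nat_lit 180277) (nat_lit 32) (.e (nat_lit 1658) (nat_lit 115) .nil)))))) (.g (nat_lit 1) (.e (nat_lit 390173) (nat_lit 0) .nil) .nil))) 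
(.lf (nat_lit 587354) (.g (nat_lit 1964) (.e (nat_lit 401414) (nat_lit 0) (.e (nat_lit 3238) (nat_lit 197) (.e (nat_lit 532535) (nat_lit 9) (.e (nat_lit 336176) (nat_lit 10) (.e (nat_lit 344133) (nat_lit 26) .nil))))) (.g (nat_lit 0) (.e (nat_lit 390828) (nat_lit 0) .nil) .nil)))) (.nd (nat_lit 9) 
(.lf (nat_lit 587098) (.g (nat_lit 2318) (.e (nat_lit 393291) (nat_lit 26) (.e (nat_lit 475177) (nat_lit 24) (.e (nat_lit 516119) (nat_lit 1) (.e (nat_lit 164324) (nat_lit 230) (.e (nat_lit 163903) (nat_lit 12) (.e (nat_lit 426567) (nat_lit 34) .nil)))))) (.g (nat_lit 1) (.e (nat_lit 390521) (nat_lit 0) .nil) .nil))) 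
(.lf (nat_lit 587610) (.g (nat_lit 538) (.e (nat_lit 401439) (nat_lit 9) (.e (nat_lit 426412) (nat_lit 15) (.e (nat_lit 1856) (nat_lit 124) .nil))) (.g (nat_lit 0) (.e (nat_lit 391512) (nat_lit 0) .nil) .nil))))) (.nd (nat_lit 8) (.nd (nat_lit 9) 
(.lf (nat_lit 586970) (.g (nat_lit 4020) (.e (nat_lit 393286) (nat_lit 25) (.e (nat_lit 458789) (nat_lit 23) (.e (nat_lit 532499) (nat_lit 1) (.e (nat_lit 57688) (nat_lit 156) (.e (nat_lit 163907) (nat_lit 12) (.e (nat_lit 426568) (nat_lit 34) .nil)))))) (.g (nat_lit 1) (.e (nat_lit 390371) (nat_lit 0) .nil) .nil))) 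
(.lf (nat_lit 587482) (.g (nat_lit 3471) (.e (nat_lit 401428) (nat_lit 3) (.e (nat_lit 204861) (nat_lit 26) (.e (nat_lit 336229) (nat_lit 14) (.e (nat_lit 401425) (nat_lit 2) (.e (nat_lit 196666) (nat_lit 13) (.e (nat_lit 65628) (nat_lit 14) .nil)))))) (.g (nat_lit 1) (.e (nat_lit 391126) (nat_lit 0) .nil) .nil)))) (.nd (nat_lit 9) 
(.lf (nat_lit 587226) (.g (nat_lit 2529) (.e (nat_lit 393294) (nat_lit 26) (.e (nat_lit 475179) (nat_lit 24) (.e (nat_lit 516117) (nat_lit 1) (.e (nat_lit 164330) (nat_lit 230) (.e (nat_lit 163905) (nat_lit 12) .nil))))) (.g (nat_lit 0) (.e (nat_lit 390649) (nat_lit 0) .nil) .nil))) 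
(.lf (nat_lit 587738) (.g (nat_lit 3912) (.e (nat_lit 401448) (nat_lit 10) (.e (nat_lit 434248) (nat_lit 28) (.e (nat_lit 573471) (nat_lit 11) (.e (nat_lit 16433) (nat_lit 9) (.e (nat_lit 425996) (nat_lit 0) .nil))))) (.g (nat_lit 0) (.e (nat_lit 392023) (nat_lit 0) .nil) .nil))))))) (.nd (nat_lit 6) (.nd (nat_lit 7) (.nd (nat_lit 8) (.nd (nat_lit 9) 
(.lf (nat_lit 586810) (.g (nat_lit 2160) (.e (nat_lit 393281) (nat_lit 23) (.e (nat_lit 426107) (nat_lit 1) (.e (nat_lit 164347) (nat_lit 240) (.e (nat_lit 2638) (nat_lit 165) (.e (nat_lit 180277) (nat_lit 32) (.e (nat_lit 1658) (nat_lit 115) .nil)))))) (.g (nat_lit 1) (.e (nat_lit 390126) (nat_lit 0) .nil) .nil))) 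
(.lf (nat_lit 587322) (.g (nat_lit 2505) (.e (nat_lit 393296) (nat_lit 26) (.e (nat_lit 475179) (nat_lit 24) (.e (nat_lit 516119) (nat_lit 1) (.e (nat_lit 164322) (nat_lit 230) (.e (nat_lit 163902) (nat_lit 12) .nil))))) (.g (nat_lit 0) (.e (nat_lit 390747) (nat_lit 0) .nil) .nil)))) (.nd (nat_lit 9) 
(.lf (nat_lit 587066) (.g (nat_lit 3992) (.e (nat_lit 393290) (nat_lit 26) (.e (nat_lit 475179) (nat_lit 24) (.e (nat_lit 516119) (nat_lit 1) (.e (nat_lit 164325) (nat_lit 230) (.e (nat_lit 163903) (nat_lit 12) (.e (nat_lit 426566) (nat_lit 34) .nil)))))) (.g (nat_lit 1) (.e (nat_lit 390488) (nat_lit 0) .nil) .nil))) 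
(.lf (nat_lit 587578) (.g (nat_lit 557) (.e (nat_lit 401435) (nat_lit 9) (.e (nat_lit 426482) (nat_lit 27) (.e (nat_lit 336228) (nat_lit 14) .nil))) (.g (nat_lit 0) (.e (nat_lit 391454) (nat_lit 0) .nil) .nil))))) (.nd (nat_lit 8) (.nd (nat_lit 9) 
(.lf (nat_lit 586938) (.g (nat_lit 2253) (.e (nat_lit 393284) (nat_lit 24) (.e (nat_lit 434233) (nat_lit 23) (.e (nat_lit 532501) (nat_lit 1) (.e (nat_lit 57691) (nat_lit 156) (.e (nat_lit 163907) (nat_lit 12) (.e (nat_lit 426568) (nat_lit 34) .nil)))))) (.g (nat_lit 1) (.e (nat_lit 390310) (nat_lit 0) .nil) .nil))) 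
(.lf (nat_lit 587450) (.g (nat_lit 3874) (.e (nat_lit 401427) (nat_lit 3) (.e (nat_lit 204869) (nat_lit 29) (.e (nat_lit 360474) (nat_lit 8) (.e (nat_lit 557085) (nat_lit 11) (.e (nat_lit 24664) (nat_lit 14) .nil))))) (.g (nat_lit 1) (.e (nat_lit 391074) (nat_lit 0) .nil) .nil)))) (.nd (nat_lit 9) 
(.lf (nat_lit 587194) (.g (nat_lit 2775) (.e (nat_lit 393293) (nat_lit 26) (.e (nat_lit 475179) (nat_lit 24) (.e (nat_lit 516117) (nat_lit 1) (.e (nat_lit 164331) (nat_lit 230) (.e (nat_lit 163902) (nat_lit 12) .nil))))) (.g (nat_lit 0) (.e (nat_lit 390617) (nat_lit 0) .nil) .nil))) 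
(.lf (nat_lit 587706) (.g (nat_lit 1558) (.e (nat_lit 401448) (nat_lit 10) (.e (nat_lit 434234) (nat_lit 23) (.e (nat_lit 532523) (nat_lit 7) (.e (nat_lit 319505) (nat_lit 10) (.e (nat_lit 5714) (nat_lit 312) .nil))))) (.g (nat_lit 0) (.e (nat_lit 391967) (nat_lit 0) .nil) .nil)))))) (.nd (nat_lit 7) (.nd (nat_lit 8) (.nd (nat_lit 9) 
(.lf (nat_lit 586874) (.g (nat_lit 2284) (.e (nat_lit 393282) (nat_lit 24) (.e (nat_lit 434231) (nat_lit 23) (.e (nat_lit 532500) (nat_lit 1) (.e (nat_lit 57693) (nat_lit 157) .nil)))) (.g (nat_lit 0) (.e (nat_lit 390209) (nat_lit 0) .nil) .nil))) 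
(.lf (nat_lit 587386) (.g (nat_lit 1570) (.e (nat_lit 401425) (nat_lit 2) (.e (nat_lit 196666) (nat_lit 13) (.e (nat_lit 65610) (nat_lit 10) (.e (nat_lit 344115) (nat_lit 20) .nil)))) (.g (nat_lit 0) (.e (nat_lit 390921) (nat_lit 0) .nil) .nil)))) (.nd (nat_lit 9) 
(.lf (nat_lit 587130) (.g (nat_lit 2810) (.e (nat_lit 393291) (nat_lit 26) (.e (nat_lit 475179) (nat_lit 24) (.e (nat_lit 516120) (nat_lit 1) (.e (nat_lit 164330) (nat_lit 230) (.e (nat_lit 163902) (nat_lit 12) (.e (nat_lit 426567) (nat_lit 34) .nil)))))) (.g (nat_lit 1) (.e (nat_lit 390553) (nat_lit 0) .nil) .nil))) 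
(.lf (nat_lit 587642) (.g (nat_lit 2396) (.e (nat_lit 401446) (nat_lit 10) (.e (nat_lit 434231) (nat_lit 23) (.e (nat_lit 532569) (nat_lit 16) (.e (nat_lit 401448) (nat_lit 10) (.e (nat_lit 434219) (nat_lit 19) .nil))))) (.g (nat_lit 0) (.e (nat_lit 391715) (nat_lit 0) .nil) .nil))))) (.nd (nat_lit 8) (.nd (nat_lit 9) 
(.lf (nat_lit 587002) (.g (nat_lit 1742) (.e (nat_lit 393287) (nat_lit 25) (.e (nat_lit 458774) (nat_lit 18) (.e (nat_lit 5548) (nat_lit 306) (.e (nat_lit 2638) (nat_lit 165) (.e (nat_lit 180278) (nat_lit 32) (.e (nat_lit 1658) (nat_lit 115) .nil)))))) (.g (nat_lit 1) (.e (nat_lit 390415) (nat_lit 0) .nil) .nil))) 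
(.lf (nat_lit 587514) (.g (nat_lit 3302) (.e (nat_lit 401428) (nat_lit 3) (.e (nat_lit 204869) (nat_lit 29) (.e (nat_lit 360451) (nat_lit 0) (.e (nat_lit 4160) (nat_lit 250) .nil)))) (.g (nat_lit 0) (.e (nat_lit 391193) (nat_lit 0) .nil) .nil)))) (.nd (nat_lit 9) 
(.lf (nat_lit 587258) (.g (nat_lit 3007) (.e (nat_lit 393295) (nat_lit 26) (.e (nat_lit 475179) (nat_lit 24) (.e (nat_lit 516117) (nat_lit 1) (.e (nat_lit 164330) (nat_lit 230) (.e (nat_lit 163902) (nat_lit 12) (.e (nat_lit 426566) (nat_lit 34) .nil)))))) (.g (nat_lit 1) (.e (nat_lit 390683) (nat_lit 0) .nil) .nil))) 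
(.lf (nat_lit 587770) (.g (nat_lit 3997) (.e (nat_lit 401451) (nat_lit 12) (.e (nat_lit 475183) (nat_lit 29) (.e (nat_lit 557107) (nat_lit 15) (.e (nat_lit 188452) (nat_lit 23) (.e (nat_lit 204885) (nat_lit 33) .nil))))) (.g (nat_lit 1) (.e (nat_lit 392105) (nat_lit 0) .nil) .nil)))))))))) 
(.nd (nat_lit 3) (.nd (nat_lit 4) (.nd (nat_lit 5) (.nd (nat_lit 6) (.nd (nat_lit 7) 
(.nd (nat_lit 8) (.nd (nat_lit 9) 
(.lf (nat_lit 586758) (.g (nat_lit 2090) (.e (nat_lit 393281) (nat_lit 23) (.e (nat_lit 426098) (nat_lit 1) (.e (nat_lit 164348) (nat_lit 240) (.e (nat_lit 2638) (nat_lit 165) (.e (nat_lit 180277) (nat_lit 32) (.e (nat_lit 1658) (nat_lit 115) .nil)))))) (.g (nat_lit 1) (.e (nat_lit 390065) (nat_lit 0) .nil) .nil))) 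
(.lf (nat_lit 587270) (.g (nat_lit 2912) (.e (nat_lit 393296) (nat_lit 26) (.e (nat_lit 475176) (nat_lit 24) (.e (nat_lit 516116) (nat_lit 1) (.e (nat_lit 164330) (nat_lit 230) (.e (nat_lit 163902) (nat_lit 12) (.e (nat_lit 426566) (nat_lit 34) .nil)))))) (.g (nat_lit 1) (.e (nat_lit 390695) (nat_lit 0) .nil) .nil)))) (.nd (nat_lit 9) 
(.lf (nat_lit 587014) (.g (nat_lit 3082) (.e (nat_lit 393287) (nat_lit 25) (.e (nat_lit 458789) (nat_lit 23) (.e (nat_lit 532499) (nat_lit 1) (.e (nat_lit 57686) (nat_lit 156) (.e (nat_lit 163903) (nat_lit 12) (.e (nat_lit 426568) (nat_lit 34) .nil)))))) (.g (nat_lit 1) (.e (nat_lit 390433) (nat_lit 0) .nil) .nil))) 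
(.lf (nat_lit 587526) (.g (nat_lit 3513) (.e (nat_lit 401428) (nat_lit 3) (.e (nat_lit 204869) (nat_lit 29) (.e (nat_lit 360474) (nat_lit 8) (.e (nat_lit 557065) (nat_lit 9) (.e (nat_lit 227) (nat_lit 21) .nil))))) (.g (nat_lit 0) (.e (nat_lit 391247) (nat_lit 0) .nil) .nil))))) (.nd (nat_lit 8) (.nd (nat_lit 9) 
(.lf (nat_lit 586886) (.g (nat_lit 2025) (.e (nat_lit 393282) (nat_lit 24) (.e (nat_lit 434233) (nat_lit 23) (.e (nat_lit 532499) (nat_lit 1) (.e (nat_lit 57686) (nat_lit 156) (.e (nat_lit 163903) (nat_lit 12) (.e (nat_lit 426568) (nat_lit 34) .nil)))))) (.g (nat_lit 1) (.e (nat_lit 390221) (nat_lit 0) .nil) .nil))) 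
(.lf (nat_lit 587398) (.g (nat_lit 1496) (.e (nat_lit 401425) (nat_lit 2) (.e (nat_lit 196666) (nat_lit 13) (.e (nat_lit 65617) (nat_lit 10) (.e (nat_lit 344132) (nat_lit 26) (.e (nat_lit 557070) (nat_lit 9) .nil))))) (.g (nat_lit 0) (.e (nat_lit 390933) (nat_lit 0) .nil) .nil)))) (.nd (nat_lit 9) 
(.lf (nat_lit 587142) (.g (nat_lit 2939) (.e (nat_lit 393292) (nat_lit 26) (.e (nat_lit 475179) (nat_lit 24) (.e (nat_lit 516119) (nat_lit 1) (.e (nat_lit 164322) (nat_lit 230) (.e (nat_lit 163902) (nat_lit 12) (.e (nat_lit 426568) (nat_lit 34) .nil)))))) (.g (nat_lit 1) (.e (nat_lit 390565) (nat_lit 0) .nil) .nil))) 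
(.lf (nat_lit 587654) (.g (nat_lit 2834) (.e (nat_lit 401446) (nat_lit 10) (.e (nat_lit 434289) (nat_lit 43) (.e (nat_lit 696328) (nat_lit 5) (.e (nat_lit 3004) (nat_lit 186) (.e (nat_lit 442390) (nat_lit 11) (.e (nat_lit 336231) (nat_lit 14) .nil)))))) (.g (nat_lit 1) (.e (nat_lit 391797) (nat_lit 0) .nil) .nil)))))) (.nd (nat_lit 7) (.nd (nat_lit 8) (.nd (nat_lit 9) 
(.lf (nat_lit 586822) (.g (nat_lit 2925) (.e (nat_lit 393281) (nat_lit 23) (.e (nat_lit 426137) (nat_lit 3) (.e (nat_lit 204829) (nat_lit 18) (.e (nat_lit 57688) (nat_lit 156) (.e (nat_lit 163902) (nat_lit 12) (.e (nat_lit 426568) (nat_lit 34) .nil)))))) (.g (nat_lit 1) (.e (nat_lit 390147) (nat_lit 0) .nil) .nil))) 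
(.lf (nat_lit 587334) (.g (nat_lit 792) (.e (nat_lit 393298) (nat_lit 27) (.e (nat_lit 491537) (nat_lit 2) (.e (nat_lit 90165) (nat_lit 12) .nil))) (.g (nat_lit 0) (.e (nat_lit 390764) (nat_lit 0) .nil) .nil)))) (.nd (nat_lit 9) 
(.lf (nat_lit 587078) (.g (nat_lit 2541) (.e (nat_lit 393291) (nat_lit 26) (.e (nat_lit 475177) (nat_lit 24) (.e (nat_lit 516115) (nat_lit 1) (.e (nat_lit 164325) (nat_lit 230) (.e (nat_lit 163906) (nat_lit 12) (.e (nat_lit 426564) (nat_lit 34) .nil)))))) (.g (nat_lit 1) (.e (nat_lit 390501) (nat_lit 0) .nil) .nil))) 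
(.lf (nat_lit 587590) (.g (nat_lit 1859) (.e (nat_lit 401437) (nat_lit 9) (.e (nat_lit 426533) (nat_lit 28) (.e (nat_lit 344069) (nat_lit 0) (.e (nat_lit 3090) (nat_lit 191) (.e (nat_lit 491264) (nat_lit 27) .nil))))) (.g (nat_lit 1) (.e (nat_lit 391482) (nat_lit 0) .nil) .nil))))) (.nd (nat_lit 8) (.nd (nat_lit 9) 
(.lf (nat_lit 586950) (.g (nat_lit 336) (.e (nat_lit 393286) (nat_lit 25) (.e (nat_lit 458774) (nat_lit 18) (.e (nat_lit 5224) (nat_lit 296) .nil))) (.g (nat_lit 0) (.e (nat_lit 390332) (nat_lit 0) .nil) .nil))) 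
(.lf (nat_lit 587462) (.g (nat_lit 1129) (.e (nat_lit 401428) (nat_lit 3) (.e (nat_lit 204854) (nat_lit 26) (.e (nat_lit 336114) (nat_lit 9) .nil))) (.g (nat_lit 0) (.e (nat_lit 391096) (nat_lit 0) .nil) .nil)))) (.nd (nat_lit 9) 
(.lf (nat_lit 587206) (.g (nat_lit 1898) (.e (nat_lit 393294) (nat_lit 26) (.e (nat_lit 475176) (nat_lit 24) (.e (nat_lit 516119) (nat_lit 1) (.e (nat_lit 164322) (nat_lit 230) (.e (nat_lit 163902) (nat_lit 12) .nil))))) (.g (nat_lit 0) (.e (nat_lit 390629) (nat_lit 0) .nil) .nil))) 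
(.lf (nat_lit 587718) (.g (nat_lit 2515) (.e (nat_lit 401448) (nat_lit 10) (.e (nat_lit 434243) (nat_lit 28) (.e (nat_lit 573471) (nat_lit 11) (.e (nat_lit 16436) (nat_lit 9) (.e (nat_lit 426131) (nat_lit 3) (.e (nat_lit 204885) (nat_lit 33) .nil)))))) (.g (nat_lit 1) (.e (nat_lit 391986) (nat_lit 0) .nil) .nil))))))) (.nd (nat_lit 6) (.nd (nat_lit 7) (.nd (nat_lit 8) (.nd (nat_lit 9) 
(.lf (nat_lit 586790) (.g (nat_lit 1605) (.e (nat_lit 393281) (nat_lit 23) (.e (nat_lit 426100) (nat_lit 1) (.e (nat_lit 164331) (nat_lit 230) (.e (nat_lit 163877) (nat_lit 4) (.e (nat_lit 213032) (nat_lit 11) .nil))))) (.g (nat_lit 0) (.e (nat_lit 390103) (nat_lit 0) .nil) .nil))) 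
(.lf (nat_lit 587302) (.g (nat_lit 3459) (.e (nat_lit 393296) (nat_lit 26) (.e (nat_lit 475178) (nat_lit 24) (.e (nat_lit 516119) (nat_lit 1) (.e (nat_lit 164322) (nat_lit 230) (.e (nat_lit 163903) (nat_lit 12) (.e (nat_lit 426566) (nat_lit 34) .nil)))))) (.g (nat_lit 1) (.e (nat_lit 390727) (nat_lit 0) .nil) .nil)))) (.nd (nat_lit 9) 
(.lf (nat_lit 587046) (.g (nat_lit 2800) (.e (nat_lit 393287) (nat_lit 25) (.e (nat_lit 458789) (nat_lit 23) (.e (nat_lit 532504) (nat_lit 1) (.e (nat_lit 57692) (nat_lit 156) (.e (nat_lit 163907) (nat_lit 12) (.e (nat_lit 426568) (nat_lit 34) .nil)))))) (.g (nat_lit 1) (.e (nat_lit 390465) (nat_lit 0) .nil) .nil))) 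
(.lf (nat_lit 587558) (.g (nat_lit 1503) (.e (nat_lit 401432) (nat_lit 7) (.e (nat_lit 409646) (nat_lit 18) (.e (nat_lit 303137) (nat_lit 10) (.e (nat_lit 434275) (nat_lit 39) .nil)))) (.g (nat_lit 0) (.e (nat_lit 391380) (nat_lit 0) .nil) .nil))))) (.nd (nat_lit 8) (.nd (nat_lit 9) 
(.lf (nat_lit 586918) (.g (nat_lit 1999) (.e (nat_lit 393283) (nat_lit 24) (.e (nat_lit 434232) (nat_lit 23) (.e (nat_lit 532499) (nat_lit 1) (.e (nat_lit 57692) (nat_lit 156) (.e (nat_lit 163905) (nat_lit 12) (.e (nat_lit 426568) (nat_lit 34) .nil)))))) (.g (nat_lit 1) (.e (nat_lit 390262) (nat_lit 0) .nil) .nil))) 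
(.lf (nat_lit 587430) (.g (nat_lit 3612) (.e (nat_lit 401427) (nat_lit 3) (.e (nat_lit 204861) (nat_lit 26) (.e (nat_lit 336204) (nat_lit 12) (.e (nat_lit 385074) (nat_lit 31) (.e (nat_lit 573482) (nat_lit 13) .nil))))) (.g (nat_lit 0) (.e (nat_lit 391013) (nat_lit 0) .nil) .nil)))) (.nd (nat_lit 9) 
(.lf (nat_lit 587174) (.g (nat_lit 3471) (.e (nat_lit 393293) (nat_lit 26) (.e (nat_lit 475177) (nat_lit 24) (.e (nat_lit 516119) (nat_lit 1) (.e (nat_lit 164325) (nat_lit 230) (.e (nat_lit 163903) (nat_lit 12) (.e (nat_lit 426566) (nat_lit 34) .nil)))))) (.g (nat_lit 1) (.e (nat_lit 390597) (nat_lit 0) .nil) .nil))) 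
(.lf (nat_lit 587686) (.g (nat_lit 2459) (.e (nat_lit 401448) (nat_lit 10) (.e (nat_lit 434231) (nat_lit 23) (.e (nat_lit 532535) (nat_lit 9) (.e (nat_lit 335925) (nat_lit 0) .nil)))) (.g (nat_lit 0) (.e (nat_lit 391941) (nat_lit 0) .nil) .nil)))))) (.nd (nat_lit 7) (.nd (nat_lit 8) (.nd (nat_lit 9) 
(.lf (nat_lit 586854) (.g (nat_lit 3194) (.e (nat_lit 393282) (nat_lit 24) (.e (nat_lit 434209) (nat_lit 18) (.e (nat_lit 5548) (nat_lit 306) (.e (nat_lit 2640) (nat_lit 165) (.e (nat_lit 180278) (nat_lit 32) (.e (nat_lit 1660) (nat_lit 115) .nil)))))) (.g (nat_lit 1) (.e (nat_lit 390189) (nat_lit 0) .nil) .nil))) 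
(.lf (nat_lit 587366) (.g (nat_lit 4525) (.e (nat_lit 401423) (nat_lit 2) (.e (nat_lit 196666) (nat_lit 13) (.e (nat_lit 65610) (nat_lit 10) (.e (nat_lit 344129) (nat_lit 26) (.e (nat_lit 557087) (nat_lit 11) (.e (nat_lit 24664) (nat_lit 14) .nil)))))) (.g (nat_lit 1) (.e (nat_lit 390874) (nat_lit 0) .nil) .nil)))) (.nd (nat_lit 9) 
(.lf (nat_lit 587110) (.g (nat_lit 3427) (.e (nat_lit 393291) (nat_lit 26) (.e (nat_lit 475177) (nat_lit 24) (.e (nat_lit 516120) (nat_lit 1) (.e (nat_lit 164330) (nat_lit 230) (.e (nat_lit 163905) (nat_lit 12) (.e (nat_lit 426566) (nat_lit 34) .nil)))))) (.g (nat_lit 1) (.e (nat_lit 390533) (nat_lit 0) .nil) .nil))) 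
(.lf (nat_lit 587622) (.g (nat_lit 2776) (.e (nat_lit 401444) (nat_lit 9) (.e (nat_lit 426163) (nat_lit 6) (.e (nat_lit 253991) (nat_lit 11) (.e (nat_lit 16446) (nat_lit 9) (.e (nat_lit 426500) (nat_lit 27) .nil))))) (.g (nat_lit 0) (.e (nat_lit 391579) (nat_lit 0) .nil) .nil))))) (.nd (nat_lit 8) (.nd (nat_lit 9) 
(.lf (nat_lit 586982) (.g (nat_lit 3041) (.e (nat_lit 393286) (nat_lit 25) (.e (nat_lit 458789) (nat_lit 23) (.e (nat_lit 532502) (nat_lit 1) (.e (nat_lit 57688) (nat_lit 156) (.e (nat_lit 163903) (nat_lit 12) (.e (nat_lit 426568) (nat_lit 34) .nil)))))) (.g (nat_lit 1) (.e (nat_lit 390383) (nat_lit 0) .nil) .nil))) 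
(.lf (nat_lit 587494) (.g (nat_lit 473) (.e (nat_lit 401428) (nat_lit 3) (.e (nat_lit 204869) (nat_lit 29) (.e (nat_lit 360448) (nat_lit 0) .nil))) (.g (nat_lit 0) (.e (nat_lit 391166) (nat_lit 0) .nil) .nil)))) (.nd (nat_lit 9) 
(.lf (nat_lit 587238) (.g (nat_lit 1917) (.e (nat_lit 393295) (nat_lit 26) (.e (nat_lit 475175) (nat_lit 24) (.e (nat_lit 516119) (nat_lit 1) (.e (nat_lit 164325) (nat_lit 230) (.e (nat_lit 163907) (nat_lit 12) (.e (nat_lit 426566) (nat_lit 34) .nil)))))) (.g (nat_lit 1) (.e (nat_lit 390663) (nat_lit 0) .nil) .nil))) 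
(.lf (nat_lit 587750) (.g (nat_lit 438) (.e (nat_lit 401448) (nat_lit 10) (.e (nat_lit 434289) (nat_lit 43) (.e (nat_lit 696342) (nat_lit 8) .nil))) (.g (nat_lit 0) (.e (nat_lit 392053) (nat_lit 0) .nil) .nil)))))))) (.nd (nat_lit 5) (.nd (nat_lit 6) (.nd (nat_lit 7) (.nd (nat_lit 8) (.nd (nat_lit 9) 
(.lf (nat_lit 586774) (.g (nat_lit 2374) (.e (nat_lit 393281) (nat_lit 23) (.e (nat_lit 426099) (nat_lit 1) (.e (nat_lit 164332) (nat_lit 230) (.e (nat_lit 163878) (nat_lit 4) (.e (nat_lit 213030) (nat_lit 11) (.e (nat_lit 24656) (nat_lit 13) .nil)))))) (.g (nat_lit 1) (.e (nat_lit 390084) (nat_lit 0) .nil) .nil))) 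
(.lf (nat_lit 587286) (.g (nat_lit 3253) (.e (nat_lit 393296) (nat_lit 26) (.e (nat_lit 475177) (nat_lit 24) (.e (nat_lit 516120) (nat_lit 1) (.e (nat_lit 164332) (nat_lit 230) (.e (nat_lit 163902) (nat_lit 12) (.e (nat_lit 426566) (nat_lit 34) .nil)))))) (.g (nat_lit 1) (.e (nat_lit 390711) (nat_lit 0) .nil) .nil)))) (.nd (nat_lit 9) 
(.lf (nat_lit 587030) (.g (nat_lit 2591) (.e (nat_lit 393287) (nat_lit 25) (.e (nat_lit 458789) (nat_lit 23) (.e (nat_lit 532502) (nat_lit 1) (.e (nat_lit 57691) (nat_lit 156) (.e (nat_lit 163907) (nat_lit 12) (.e (nat_lit 426566) (nat_lit 34) .nil)))))) (.g (nat_lit 1) (.e (nat_lit 390449) (nat_lit 0) .nil) .nil))) 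
(.lf (nat_lit 587542) (.g (nat_lit 4031) (.e (nat_lit 401428) (nat_lit 3) (.e (nat_lit 204869) (nat_lit 29) (.e (nat_lit 360475) (nat_lit 8) (.e (nat_lit 557065) (nat_lit 9) (.e (nat_lit 230) (nat_lit 21) .nil))))) (.g (nat_lit 0) (.e (nat_lit 391317) (nat_lit 0) .nil) .nil))))) (.nd (nat_lit 8) (.nd (nat_lit 9) 
(.lf (nat_lit 586902) (.g (nat_lit 1261) (.e (nat_lit 393282) (nat_lit 24) (.e (nat_lit 434275) (nat_lit 39) (.e (nat_lit 663589) (nat_lit 14) (.e (nat_lit 2797) (nat_lit 180) .nil)))) (.g (nat_lit 0) (.e (nat_lit 390239) (nat_lit 0) .nil) .nil))) 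
(.lf (nat_lit 587414) (.g (nat_lit 658) (.e (nat_lit 401425) (nat_lit 2) (.e (nat_lit 196681) (nat_lit 17) (.e (nat_lit 131122) (nat_lit 12) .nil))) (.g (nat_lit 0) (.e (nat_lit 390958) (nat_lit 0) .nil) .nil)))) (.nd (nat_lit 9) 
(.lf (nat_lit 587158) (.g (nat_lit 3016) (.e (nat_lit 393293) (nat_lit 26) (.e (nat_lit 475177) (nat_lit 24) (.e (nat_lit 516115) (nat_lit 1) (.e (nat_lit 164327) (nat_lit 230) (.e (nat_lit 163903) (nat_lit 12) (.e (nat_lit 426568) (nat_lit 34) .nil)))))) (.g (nat_lit 1) (.e (nat_lit 390581) (nat_lit 0) .nil) .nil))) 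
(.lf (nat_lit 587670) (.g (nat_lit 1590) (.e (nat_lit 401447) (nat_lit 10) (.e (nat_lit 434289) (nat_lit 43) (.e (nat_lit 696344) (nat_lit 8) (.e (nat_lit 172088) (nat_lit 9) .nil)))) (.g (nat_lit 0) (.e (nat_lit 391849) (nat_lit 0) .nil) .nil)))))) (.nd (nat_lit 7) (.nd (nat_lit 8) (.nd (nat_lit 9) 
(.lf (nat_lit 586838) (.g (nat_lit 3228) (.e (nat_lit 401152) (nat_lit 23) (.e (nat_lit 426436) (nat_lit 18) (.e (nat_lit 98335) (nat_lit 18) (.e (nat_lit 164322) (nat_lit 230) .nil)))) (.g (nat_lit 0) (.e (nat_lit 390168) (nat_lit 0) .nil) .nil))) 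
(.lf (nat_lit 587350) (.g (nat_lit 2419) (.e (nat_lit 401414) (nat_lit 0) (.e (nat_lit 3238) (nat_lit 197) (.e (nat_lit 532535) (nat_lit 9) (.e (nat_lit 336163) (nat_lit 10) .nil)))) (.g (nat_lit 0) (.e (nat_lit 390820) (nat_lit 0) .nil) .nil)))) (.nd (nat_lit 9) 
(.lf (nat_lit 587094) (.g (nat_lit 3364) (.e (nat_lit 393291) (nat_lit 26) (.e (nat_lit 475177) (nat_lit 24) (.e (nat_lit 516117) (nat_lit 1) (.e (nat_lit 164332) (nat_lit 230) (.e (nat_lit 163902) (nat_lit 12) (.e (nat_lit 426566) (nat_lit 34) .nil)))))) (.g (nat_lit 1) (.e (nat_lit 390517) (nat_lit 0) .nil) .nil))) 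
(.lf (nat_lit 587606) (.g (nat_lit 2606) (.e (nat_lit 401438) (nat_lit 9) (.e (nat_lit 426533) (nat_lit 28) (.e (nat_lit 344069) (nat_lit 0) (.e (nat_lit 3090) (nat_lit 191) (.e (nat_lit 483409) (nat_lit 27) .nil))))) (.g (nat_lit 1) (.e (nat_lit 391505) (nat_lit 0) .nil) .nil))))) (.nd (nat_lit 8) (.nd (nat_lit 9) 
(.lf (nat_lit 586966) (.g (nat_lit 3397) (.e (nat_lit 393286) (nat_lit 25) (.e (nat_lit 458789) (nat_lit 23) (.e (nat_lit 532499) (nat_lit 1) (.e (nat_lit 57688) (nat_lit 156) (.e (nat_lit 163902) (nat_lit 12) (.e (nat_lit 426568) (nat_lit 34) .nil)))))) (.g (nat_lit 1) (.e (nat_lit 390367) (nat_lit 0) .nil) .nil))) 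
(.lf (nat_lit 587478) (.g (nat_lit 2040) (.e (nat_lit 401428) (nat_lit 3) (.e (nat_lit 204861) (nat_lit 26) (.e (nat_lit 336194) (nat_lit 12) (.e (nat_lit 385072) (nat_lit 31) (.e (nat_lit 573485) (nat_lit 13) (.e (nat_lit 65630) (nat_lit 14) .nil)))))) (.g (nat_lit 1) (.e (nat_lit 391118) (nat_lit 0) .nil) .nil)))) (.nd (nat_lit 9) 
(.lf (nat_lit 587222) (.g (nat_lit 2284) (.e (nat_lit 393294) (nat_lit 26) (.e (nat_lit 475179) (nat_lit 24) (.e (nat_lit 516115) (nat_lit 1) (.e (nat_lit 164329) (nat_lit 230) (.e (nat_lit 163902) (nat_lit 12) .nil))))) (.g (nat_lit 0) (.e (nat_lit 390645) (nat_lit 0) .nil) .nil))) 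
(.lf (nat_lit 587734) (.g (nat_lit 2074) (.e (nat_lit 401448) (nat_lit 10) (.e (nat_lit 434247) (nat_lit 28) (.e (nat_lit 573469) (nat_lit 11) (.e (nat_lit 16454) (nat_lit 11) (.e (nat_lit 458789) (nat_lit 23) .nil))))) (.g (nat_lit 0) (.e (nat_lit 392012) (nat_lit 0) .nil) .nil))))))) (.nd (nat_lit 6) (.nd (nat_lit 7) (.nd (nat_lit 8) (.nd (nat_lit 9) 
(.lf (nat_lit 586806) (.g (nat_lit 390) (.e (nat_lit 393281) (nat_lit 23) (.e (nat_lit 426100) (nat_lit 1) (.e (nat_lit 164399) (nat_lit 256) .nil))) (.g (nat_lit 0) (.e (nat_lit 390121) (nat_lit 0) .nil) .nil))) 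
(.lf (nat_lit 587318) (.g (nat_lit 2695) (.e (nat_lit 393296) (nat_lit 26) (.e (nat_lit 475179) (nat_lit 24) (.e (nat_lit 516117) (nat_lit 1) (.e (nat_lit 164330) (nat_lit 230) (.e (nat_lit 163915) (nat_lit 12) (.e (nat_lit 433920) (nat_lit 34) .nil)))))) (.g (nat_lit 1) (.e (nat_lit 390743) (nat_lit 0) .nil) .nil)))) (.nd (nat_lit 9) 
(.lf (nat_lit 587062) (.g (nat_lit 2806) (.e (nat_lit 393290) (nat_lit 26) (.e (nat_lit 475179) (nat_lit 24) (.e (nat_lit 516117) (nat_lit 1) (.e (nat_lit 164330) (nat_lit 230) (.e (nat_lit 163902) (nat_lit 12) (.e (nat_lit 426566) (nat_lit 34) .nil)))))) (.g (nat_lit 1) (.e (nat_lit 390484) (nat_lit 0) .nil) .nil))) 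
(.lf (nat_lit 587574) (.g (nat_lit 3352) (.e (nat_lit 401434) (nat_lit 9) (.e (nat_lit 426140) (nat_lit 3) (.e (nat_lit 204846) (nat_lit 24) (.e (nat_lit 319504) (nat_lit 10) (.e (nat_lit 5712) (nat_lit 312) (.e (nat_lit 2505) (nat_lit 157) (.e (nat_lit 3249) (nat_lit 197) (.e (nat_lit 532569) (nat_lit 16) .nil)))))))) (.g (nat_lit 1) (.e (nat_lit 391440) (nat_lit 0) .nil) .nil))))) 
(.nd (nat_lit 8) (.nd (nat_lit 9) 
(.lf (nat_lit 586934) (.g (nat_lit 3263) (.e (nat_lit 393283) (nat_lit 24) (.e (nat_lit 434272) (nat_lit 38) (.e (nat_lit 655378) (nat_lit 4) (.e (nat_lit 172124) (nat_lit 14) (.e (nat_lit 491569) (nat_lit 13) .nil))))) (.g (nat_lit 1) (.e (nat_lit 390298) (nat_lit 0) .nil) .nil))) 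
(.lf (nat_lit 587446) (.g (nat_lit 3521) (.e (nat_lit 401427) (nat_lit 3) (.e (nat_lit 204869) (nat_lit 29) (.e (nat_lit 360473) (nat_lit 8) (.e (nat_lit 557087) (nat_lit 11) (.e (nat_lit 24664) (nat_lit 14) .nil))))) (.g (nat_lit 1) (.e (nat_lit 391070) (nat_lit 0) .nil) .nil)))) (.nd (nat_lit 9) 
(.lf (nat_lit 587190) (.g (nat_lit 2641) (.e (nat_lit 393293) (nat_lit 26) (.e (nat_lit 475179) (nat_lit 24) (.e (nat_lit 516115) (nat_lit 1) (.e (nat_lit 164332) (nat_lit 230) (.e (nat_lit 163905) (nat_lit 12) .nil))))) (.g (nat_lit 0) (.e (nat_lit 390613) (nat_lit 0) .nil) .nil))) 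
(.lf (nat_lit 587702) (.g (nat_lit 3159) (.e (nat_lit 401448) (nat_lit 10) (.e (nat_lit 434232) (nat_lit 23) (.e (nat_lit 532568) (nat_lit 16) (.e (nat_lit 401434) (nat_lit 9) (.e (nat_lit 426140) (nat_lit 3) (.e (nat_lit 204885) (nat_lit 33) .nil)))))) (.g (nat_lit 1) (.e (nat_lit 391963) (nat_lit 0) .nil) .nil)))))) (.nd (nat_lit 7) (.nd (nat_lit 8) (.nd (nat_lit 9) 
(.lf (nat_lit 586870) (.g (nat_lit 2259) (.e (nat_lit 393282) (nat_lit 24) (.e (nat_lit 434231) (nat_lit 23) (.e (nat_lit 532500) (nat_lit 1) (.e (nat_lit 57690) (nat_lit 156) .nil)))) (.g (nat_lit 0) (.e (nat_lit 390205) (nat_lit 0) .nil) .nil))) 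
(.lf (nat_lit 587382) (.g (nat_lit 434) (.e (nat_lit 401425) (nat_lit 2) (.e (nat_lit 196666) (nat_lit 13) (.e (nat_lit 65610) (nat_lit 10) .nil))) (.g (nat_lit 0) (.e (nat_lit 390917) (nat_lit 0) .nil) .nil)))) (.nd (nat_lit 9) 
(.lf (nat_lit 587126) (.g (nat_lit 2409) (.e (nat_lit 393291) (nat_lit 26) (.e (nat_lit 475179) (nat_lit 24) (.e (nat_lit 516119) (nat_lit 1) (.e (nat_lit 164326) (nat_lit 230) (.e (nat_lit 163903) (nat_lit 12) (.e (nat_lit 426564) (nat_lit 34) .nil)))))) (.g (nat_lit 1) (.e (nat_lit 390549) (nat_lit 0) .nil) .nil))) 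
(.lf (nat_lit 587638) (.g (nat_lit 3837) (.e (nat_lit 401446) (nat_lit 10) (.e (nat_lit 434231) (nat_lit 23) (.e (nat_lit 532523) (nat_lit 7) (.e (nat_lit 319505) (nat_lit 10) (.e (nat_lit 5714) (nat_lit 312) (.e (nat_lit 2682) (nat_lit 168) (.e (nat_lit 204885) (nat_lit 33) .nil))))))) (.g (nat_lit 1) (.e (nat_lit 391699) (nat_lit 0) .nil) .nil))))) (.nd (nat_lit 8) (.nd (nat_lit 9) 
(.lf (nat_lit 586998) (.g (nat_lit 1990) (.e (nat_lit 393287) (nat_lit 25) (.e (nat_lit 458774) (nat_lit 18) (.e (nat_lit 5547) (nat_lit 306) (.e (nat_lit 2638) (nat_lit 165) (.e (nat_lit 180278) (nat_lit 32) (.e (nat_lit 1658) (nat_lit 115) .nil)))))) (.g (nat_lit 1) (.e (nat_lit 390406) (nat_lit 0) .nil) .nil))) 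
(.lf (nat_lit 587510) (.g (nat_lit 3302) (.e (nat_lit 401428) (nat_lit 3) (.e (nat_lit 204869) (nat_lit 29) (.e (nat_lit 360451) (nat_lit 0) (.e (nat_lit 4065) (nat_lit 245) .nil)))) (.g (nat_lit 0) (.e (nat_lit 391188) (nat_lit 0) .nil) .nil)))) (.nd (nat_lit 9) 
(.lf (nat_lit 587254) (.g (nat_lit 2845) (.e (nat_lit 393295) (nat_lit 26) (.e (nat_lit 475179) (nat_lit 24) (.e (nat_lit 516115) (nat_lit 1) (.e (nat_lit 164325) (nat_lit 230) (.e (nat_lit 163906) (nat_lit 12) (.e (nat_lit 426566) (nat_lit 34) .nil)))))) (.g (nat_lit 1) (.e (nat_lit 390679) (nat_lit 0) .nil) .nil))) 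
(.lf (nat_lit 587766) (.g (nat_lit 3374) (.e (nat_lit 401450) (nat_lit 12) (.e (nat_lit 475185) (nat_lit 29) (.e (nat_lit 557109) (nat_lit 15) (.e (nat_lit 188450) (nat_lit 23) (.e (nat_lit 204885) (nat_lit 33) .nil))))) (.g (nat_lit 1) (.e (nat_lit 392096) (nat_lit 0) .nil) .nil))))))))) (.nd (nat_lit 4) (.nd (nat_lit 5) (.nd (nat_lit 6) (.nd (nat_lit 7) (.nd (nat_lit 8) (.nd (nat_lit 9) 
(.lf (nat_lit 586766) (.g (nat_lit 2482) (.e (nat_lit 393281) (nat_lit 23) (.e (nat_lit 426099) (nat_lit 1) (.e (nat_lit 164330) (nat_lit 230) (.e (nat_lit 163880) (nat_lit 4) (.e (nat_lit 213032) (nat_lit 11) (.e (nat_lit 24658) (nat_lit 13) .nil)))))) (.g (nat_lit 1) (.e (nat_lit 390076) (nat_lit 0) .nil) .nil))) 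
(.lf (nat_lit 587278) (.g (nat_lit 3117) (.e (nat_lit 393296) (nat_lit 26) (.e (nat_lit 475177) (nat_lit 24) (.e (nat_lit 516117) (nat_lit 1) (.e (nat_lit 164332) (nat_lit 230) (.e (nat_lit 163902) (nat_lit 12) (.e (nat_lit 426566) (nat_lit 34) .nil)))))) (.g (nat_lit 1) (.e (nat_lit 390703) (nat_lit 0) .nil) .nil)))) (.nd (nat_lit 9) 
(.lf (nat_lit 587022) (.g (nat_lit 2908) (.e (nat_lit 393287) (nat_lit 25) (.e (nat_lit 458789) (nat_lit 23) (.e (nat_lit 532499) (nat_lit 1) (.e (nat_lit 57692) (nat_lit 156) (.e (nat_lit 163907) (nat_lit 12) (.e (nat_lit 426568) (nat_lit 34) .nil)))))) (.g (nat_lit 1) (.e (nat_lit 390441) (nat_lit 0) .nil) .nil))) 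
(.lf (nat_lit 587534) (.g (nat_lit 3516) (.e (nat_lit 401428) (nat_lit 3) (.e (nat_lit 204869) (nat_lit 29) (.e (nat_lit 360474) (nat_lit 8) (.e (nat_lit 557065) (nat_lit 9) (.e (nat_lit 265) (nat_lit 21) .nil))))) (.g (nat_lit 0) (.e (nat_lit 391255) (nat_lit 0) .nil) .nil))))) (.nd (nat_lit 8) (.nd (nat_lit 9) 
(.lf (nat_lit 586894) (.g (nat_lit 2239) (.e (nat_lit 393282) (nat_lit 24) (.e (nat_lit 434233) (nat_lit 23) (.e (nat_lit 532503) (nat_lit 1) (.e (nat_lit 57688) (nat_lit 156) (.e (nat_lit 163905) (nat_lit 12) (.e (nat_lit 426568) (nat_lit 34) .nil)))))) (.g (nat_lit 1) (.e (nat_lit 390229) (nat_lit 0) .nil) .nil))) 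
(.lf (nat_lit 587406) (.g (nat_lit 1636) (.e (nat_lit 401425) (nat_lit 2) (.e (nat_lit 196666) (nat_lit 13) (.e (nat_lit 65630) (nat_lit 14) (.e (nat_lit 401412) (nat_lit 0) .nil)))) (.g (nat_lit 0) (.e (nat_lit 390943) (nat_lit 0) .nil) .nil)))) (.nd (nat_lit 9) 
(.lf (nat_lit 587150) (.g (nat_lit 1951) (.e (nat_lit 393293) (nat_lit 26) (.e (nat_lit 475176) (nat_lit 24) (.e (nat_lit 516115) (nat_lit 1) (.e (nat_lit 164325) (nat_lit 230) (.e (nat_lit 163907) (nat_lit 12) .nil))))) (.g (nat_lit 0) (.e (nat_lit 390573) (nat_lit 0) .nil) .nil))) 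
(.lf (nat_lit 587662) (.g (nat_lit 1527) (.e (nat_lit 401447) (nat_lit 10) (.e (nat_lit 434238) (nat_lit 25) (.e (nat_lit 548897) (nat_lit 14) (.e (nat_lit 2999) (nat_lit 186) (.e (nat_lit 442433) (nat_lit 25) (.e (nat_lit 245784) (nat_lit 9) (.e (nat_lit 1673) (nat_lit 116) .nil))))))) (.g (nat_lit 1) (.e (nat_lit 391822) (nat_lit 0) .nil) .nil)))))) 
(.nd (nat_lit 7) (.nd (nat_lit 8) (.nd (nat_lit 9) 
(.lf (nat_lit 586830) (.g (nat_lit 1203) (.e (nat_lit 401152) (nat_lit 23) (.e (nat_lit 426098) (nat_lit 1) (.e (nat_lit 164325) (nat_lit 230) (.e (nat_lit 163881) (nat_lit 4) .nil)))) (.g (nat_lit 0) (.e (nat_lit 390157) (nat_lit 0) .nil) .nil))) 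
(.lf (nat_lit 587342) (.g (nat_lit 780) (.e (nat_lit 393300) (nat_lit 27) (.e (nat_lit 491537) (nat_lit 2) (.e (nat_lit 90165) (nat_lit 12) .nil))) (.g (nat_lit 0) (.e (nat_lit 390781) (nat_lit 0) .nil) .nil)))) (.nd (nat_lit 9) 
(.lf (nat_lit 587086) (.g (nat_lit 1838) (.e (nat_lit 393291) (nat_lit 26) (.e (nat_lit 475177) (nat_lit 24) (.e (nat_lit 516115) (nat_lit 1) (.e (nat_lit 164332) (nat_lit 230) (.e (nat_lit 163901) (nat_lit 12) .nil))))) (.g (nat_lit 0) (.e (nat_lit 390509) (nat_lit 0) .nil) .nil))) 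
(.lf (nat_lit 587598) (.g (nat_lit 2633) (.e (nat_lit 401438) (nat_lit 9) (.e (nat_lit 426530) (nat_lit 27) (.e (nat_lit 336235) (nat_lit 14) (.e (nat_lit 401458) (nat_lit 13) (.e (nat_lit 483409) (nat_lit 27) .nil))))) (.g (nat_lit 1) (.e (nat_lit 391497) (nat_lit 0) .nil) .nil))))) (.nd (nat_lit 8) (.nd (nat_lit 9) 
(.lf (nat_lit 586958) (.g (nat_lit 1970) (.e (nat_lit 393286) (nat_lit 25) (.e (nat_lit 458789) (nat_lit 23) (.e (nat_lit 532499) (nat_lit 1) (.e (nat_lit 57654) (nat_lit 152) (.e (nat_lit 2633) (nat_lit 164) (.e (nat_lit 179968) (nat_lit 34) .nil)))))) (.g (nat_lit 1) (.e (nat_lit 390358) (nat_lit 0) .nil) .nil))) 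
(.lf (nat_lit 587470) (.g (nat_lit 3465) (.e (nat_lit 401428) (nat_lit 3) (.e (nat_lit 204854) (nat_lit 26) (.e (nat_lit 336236) (nat_lit 14) (.e (nat_lit 401425) (nat_lit 2) (.e (nat_lit 196666) (nat_lit 13) (.e (nat_lit 65630) (nat_lit 14) .nil)))))) (.g (nat_lit 1) (.e (nat_lit 391106) (nat_lit 0) .nil) .nil)))) (.nd (nat_lit 9) 
(.lf (nat_lit 587214) (.g (nat_lit 3159) (.e (nat_lit 393294) (nat_lit 26) (.e (nat_lit 475177) (nat_lit 24) (.e (nat_lit 516118) (nat_lit 1) (.e (nat_lit 164332) (nat_lit 230) (.e (nat_lit 163904) (nat_lit 12) (.e (nat_lit 426566) (nat_lit 34) .nil)))))) (.g (nat_lit 1) (.e (nat_lit 390637) (nat_lit 0) .nil) .nil))) 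
(.lf (nat_lit 587726) (.g (nat_lit 2523) (.e (nat_lit 401448) (nat_lit 10) (.e (nat_lit 434244) (nat_lit 28) (.e (nat_lit 573471) (nat_lit 11) (.e (nat_lit 16433) (nat_lit 9) .nil)))) (.g (nat_lit 0) (.e (nat_lit 392001) (nat_lit 0) .nil) .nil))))))) (.nd (nat_lit 6) (.nd (nat_lit 7) (.nd (nat_lit 8) (.nd (nat_lit 9) 
(.lf (nat_lit 586798) (.g (nat_lit 2583) (.e (nat_lit 393281) (nat_lit 23) (.e (nat_lit 426100) (nat_lit 1) (.e (nat_lit 164332) (nat_lit 230) (.e (nat_lit 163878) (nat_lit 4) (.e (nat_lit 213032) (nat_lit 11) (.e (nat_lit 24660) (nat_lit 13) .nil)))))) (.g (nat_lit 1) (.e (nat_lit 390111) (nat_lit 0) .nil) .nil))) 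
(.lf (nat_lit 587310) (.g (nat_lit 2086) (.e (nat_lit 393296) (nat_lit 26) (.e (nat_lit 475179) (nat_lit 24) (.e (nat_lit 516115) (nat_lit 1) (.e (nat_lit 164324) (nat_lit 230) .nil)))) (.g (nat_lit 0) (.e (nat_lit 390735) (nat_lit 0) .nil) .nil)))) (.nd (nat_lit 9) 
(.lf (nat_lit 587054) (.g (nat_lit 1524) (.e (nat_lit 393290) (nat_lit 26) (.e (nat_lit 475177) (nat_lit 24) (.e (nat_lit 516115) (nat_lit 1) (.e (nat_lit 164325) (nat_lit 230) .nil)))) (.g (nat_lit 0) (.e (nat_lit 390476) (nat_lit 0) .nil) .nil))) 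
(.lf (nat_lit 587566) (.g (nat_lit 812) (.e (nat_lit 401434) (nat_lit 9) (.e (nat_lit 426125) (nat_lit 2) (.e (nat_lit 196630) (nat_lit 9) .nil))) (.g (nat_lit 0) (.e (nat_lit 391418) (nat_lit 0) .nil) .nil))))) (.nd (nat_lit 8) (.nd (nat_lit 9) 
(.lf (nat_lit 586926) (.g (nat_lit 446) (.e (nat_lit 393283) (nat_lit 24) (.e (nat_lit 434268) (nat_lit 36) (.e (nat_lit 638995) (nat_lit 7) .nil))) (.g (nat_lit 0) (.e (nat_lit 390279) (nat_lit 0) .nil) .nil))) 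
(.lf (nat_lit 587438) (.g (nat_lit 3435) (.e (nat_lit 401427) (nat_lit 3) (.e (nat_lit 204869) (nat_lit 29) (.e (nat_lit 360451) (nat_lit 0) (.e (nat_lit 4065) (nat_lit 245) .nil)))) (.g (nat_lit 0) (.e (nat_lit 391049) (nat_lit 0) .nil) .nil)))) (.nd (nat_lit 9) 
(.lf (nat_lit 587182) (.g (nat_lit 1987) (.e (nat_lit 393293) (nat_lit 26) (.e (nat_lit 475177) (nat_lit 24) (.e (nat_lit 516120) (nat_lit 1) (.e (nat_lit 164330) (nat_lit 230) (.e (nat_lit 163905) (nat_lit 12) (.e (nat_lit 426564) (nat_lit 34) .nil)))))) (.g (nat_lit 1) (.e (nat_lit 390605) (nat_lit 0) .nil) .nil))) 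
(.lf (nat_lit 587694) (.g (nat_lit 4571) (.e (nat_lit 401448) (nat_lit 10) (.e (nat_lit 434231) (nat_lit 23) (.e (nat_lit 532569) (nat_lit 16) (.e (nat_lit 401434) (nat_lit 9) (.e (nat_lit 426140) (nat_lit 3) (.e (nat_lit 204884) (nat_lit 33) .nil)))))) (.g (nat_lit 1) (.e (nat_lit 391950) (nat_lit 0) .nil) .nil)))))) (.nd (nat_lit 7) (.nd (nat_lit 8) (.nd (nat_lit 9) 
(.lf (nat_lit 586862) (.g (nat_lit 4005) (.e (nat_lit 393282) (nat_lit 24) (.e (nat_lit 434231) (nat_lit 23) (.e (nat_lit 532499) (nat_lit 1) (.e (nat_lit 57688) (nat_lit 156) (.e (nat_lit 163905) (nat_lit 12) (.e (nat_lit 426568) (nat_lit 34) .nil)))))) (.g (nat_lit 1) (.e (nat_lit 390197) (nat_lit 0) .nil) .nil))) 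
(.lf (nat_lit 587374) (.g (nat_lit 1567) (.e (nat_lit 401424) (nat_lit 2) (.e (nat_lit 196666) (nat_lit 13) (.e (nat_lit 65617) (nat_lit 10) (.e (nat_lit 344126) (nat_lit 25) .nil)))) (.g (nat_lit 0) (.e (nat_lit 390894) (nat_lit 0) .nil) .nil)))) (.nd (nat_lit 9) 
(.lf (nat_lit 587118) (.g (nat_lit 2623) (.e (nat_lit 393291) (nat_lit 26) (.e (nat_lit 475179) (nat_lit 24) (.e (nat_lit 516115) (nat_lit 1) (.e (nat_lit 164327) (nat_lit 230) (.e (nat_lit 163903) (nat_lit 12) (.e (nat_lit 426564) (nat_lit 34) .nil)))))) (.g (nat_lit 1) (.e (nat_lit 390541) (nat_lit 0) .nil) .nil))) 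
(.lf (nat_lit 587630) (.g (nat_lit 2177) (.e (nat_lit 401444) (nat_lit 9) (.e (nat_lit 426163) (nat_lit 6) (.e (nat_lit 253992) (nat_lit 11) (.e (nat_lit 16466) (nat_lit 13) (.e (nat_lit 483409) (nat_lit 27) .nil))))) (.g (nat_lit 0) (.e (nat_lit 391589) (nat_lit 0) .nil) .nil))))) (.nd (nat_lit 8) (.nd (nat_lit 9) 
(.lf (nat_lit 586990) (.g (nat_lit 3849) (.e (nat_lit 393286) (nat_lit 25) (.e (nat_lit 458789) (nat_lit 23) (.e (nat_lit 532503) (nat_lit 1) (.e (nat_lit 57687) (nat_lit 156) (.e (nat_lit 163903) (nat_lit 12) (.e (nat_lit 426568) (nat_lit 34) .nil)))))) (.g (nat_lit 1) (.e (nat_lit 390391) (nat_lit 0) .nil) .nil))) 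
(.lf (nat_lit 587502) (.g (nat_lit 3356) (.e (nat_lit 401428) (nat_lit 3) (.e (nat_lit 204869) (nat_lit 29) (.e (nat_lit 360450) (nat_lit 0) (.e (nat_lit 4157) (nat_lit 250) .nil)))) (.g (nat_lit 0) (.e (nat_lit 391180) (nat_lit 0) .nil) .nil)))) (.nd (nat_lit 9) 
(.lf (nat_lit 587246) (.g (nat_lit 3445) (.e (nat_lit 393295) (nat_lit 26) (.e (nat_lit 475177) (nat_lit 24) (.e (nat_lit 516117) (nat_lit 1) (.e (nat_lit 164330) (nat_lit 230) (.e (nat_lit 163905) (nat_lit 12) (.e (nat_lit 426566) (nat_lit 34) .nil)))))) (.g (nat_lit 1) (.e (nat_lit 390671) (nat_lit 0) .nil) .nil))) 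
(.lf (nat_lit 587758) (.g (nat_lit 2443) (.e (nat_lit 401450) (nat_lit 12) (.e (nat_lit 475183) (nat_lit 29) (.e (nat_lit 557097) (nat_lit 13) (.e (nat_lit 172115) (nat_lit 10) (.e (nat_lit 434231) (nat_lit 23) .nil))))) (.g (nat_lit 0) (.e (nat_lit 392086) (nat_lit 0) .nil) .nil)))))))) (.nd (nat_lit 5) (.nd (nat_lit 6) (.nd (nat_lit 7) (.nd (nat_lit 8) (.nd (nat_lit 9) 
(.lf (nat_lit 586782) (.g (nat_lit 2616) (.e (nat_lit 393281) (nat_lit 23) (.e (nat_lit 426100) (nat_lit 1) (.e (nat_lit 164330) (nat_lit 230) (.e (nat_lit 163843) (nat_lit 0) (.e (nat_lit 3653) (nat_lit 227) .nil))))) (.g (nat_lit 0) (.e (nat_lit 390094) (nat_lit 0) .nil) .nil))) 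
(.lf (nat_lit 587294) (.g (nat_lit 1200) (.e (nat_lit 393296) (nat_lit 26) (.e (nat_lit 475178) (nat_lit 24) (.e (nat_lit 516117) (nat_lit 1) (.e (nat_lit 164329) (nat_lit 230) (.e (nat_lit 163909) (nat_lit 12) (.e (nat_lit 433920) (nat_lit 34) .nil)))))) (.g (nat_lit 1) (.e (nat_lit 390719) (nat_lit 0) .nil) .nil)))) (.nd (nat_lit 9) 
(.lf (nat_lit 587038) (.g (nat_lit 3802) (.e (nat_lit 393287) (nat_lit 25) (.e (nat_lit 458789) (nat_lit 23) (.e (nat_lit 532503) (nat_lit 1) (.e (nat_lit 57687) (nat_lit 156) (.e (nat_lit 163903) (nat_lit 12) (.e (nat_lit 426568) (nat_lit 34) .nil)))))) (.g (nat_lit 1) (.e (nat_lit 390457) (nat_lit 0) .nil) .nil))) 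
(.lf (nat_lit 587550) (.g (nat_lit 4121) (.e (nat_lit 401428) (nat_lit 3) (.e (nat_lit 204869) (nat_lit 29) (.e (nat_lit 360475) (nat_lit 8) (.e (nat_lit 557087) (nat_lit 11) (.e (nat_lit 24663) (nat_lit 14) .nil))))) (.g (nat_lit 1) (.e (nat_lit 391327) (nat_lit 0) .nil) .nil))))) (.nd (nat_lit 8) (.nd (nat_lit 9) 
(.lf (nat_lit 586910) (.g (nat_lit 4460) (.e (nat_lit 393283) (nat_lit 24) (.e (nat_lit 434231) (nat_lit 23) (.e (nat_lit 532499) (nat_lit 1) (.e (nat_lit 57688) (nat_lit 156) (.e (nat_lit 163907) (nat_lit 12) (.e (nat_lit 426568) (nat_lit 34) .nil)))))) (.g (nat_lit 1) (.e (nat_lit 390254) (nat_lit 0) .nil) .nil))) 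
(.lf (nat_lit 587422) (.g (nat_lit 2738) (.e (nat_lit 401426) (nat_lit 3) (.e (nat_lit 204868) (nat_lit 29) (.e (nat_lit 360473) (nat_lit 8) (.e (nat_lit 557087) (nat_lit 11) (.e (nat_lit 24664) (nat_lit 14) .nil))))) (.g (nat_lit 1) (.e (nat_lit 390991) (nat_lit 0) .nil) .nil)))) (.nd (nat_lit 9) 
(.lf (nat_lit 587166) (.g (nat_lit 2968) (.e (nat_lit 393293) (nat_lit 26) (.e (nat_lit 475177) (nat_lit 24) (.e (nat_lit 516117) (nat_lit 1) (.e (nat_lit 164330) (nat_lit 230) (.e (nat_lit 163905) (nat_lit 12) (.e (nat_lit 426567) (nat_lit 34) .nil)))))) (.g (nat_lit 1) (.e (nat_lit 390589) (nat_lit 0) .nil) .nil))) 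
(.lf (nat_lit 587678) (.g (nat_lit 1969) (.e (nat_lit 401448) (nat_lit 10) (.e (nat_lit 434231) (nat_lit 23) (.e (nat_lit 532490) (nat_lit 0) (.e (nat_lit 6674) (nat_lit 357) .nil)))) (.g (nat_lit 0) (.e (nat_lit 391931) (nat_lit 0) .nil) .nil)))))) (.nd (nat_lit 7) (.nd (nat_lit 8) (.nd (nat_lit 9) 
(.lf (nat_lit 586846) (.g (nat_lit 3026) (.e (nat_lit 393282) (nat_lit 24) (.e (nat_lit 434209) (nat_lit 18) (.e (nat_lit 5547) (nat_lit 306) (.e (nat_lit 2638) (nat_lit 165) (.e (nat_lit 180278) (nat_lit 32) (.e (nat_lit 1658) (nat_lit 115) .nil)))))) (.g (nat_lit 1) (.e (nat_lit 390178) (nat_lit 0) .nil) .nil))) 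
(.lf (nat_lit 587358) (.g (nat_lit 2743) (.e (nat_lit 401414) (nat_lit 0) (.e (nat_lit 3459) (nat_lit 216) (.e (nat_lit 688139) (nat_lit 5) (.e (nat_lit 3062) (nat_lit 190) (.e (nat_lit 475179) (nat_lit 24) (.e (nat_lit 516176) (nat_lit 14) (.e (nat_lit 474880) (nat_lit 19) .nil))))))) (.g (nat_lit 1) (.e (nat_lit 390847) (nat_lit 0) .nil) .nil)))) (.nd (nat_lit 9) 
(.lf (nat_lit 587102) (.g (nat_lit 3754) (.e (nat_lit 393291) (nat_lit 26) (.e (nat_lit 475177) (nat_lit 24) (.e (nat_lit 516119) (nat_lit 1) (.e (nat_lit 164327) (nat_lit 230) (.e (nat_lit 163903) (nat_lit 12) (.e (nat_lit 426566) (nat_lit 34) .nil)))))) (.g (nat_lit 1) (.e (nat_lit 390525) (nat_lit 0) .nil) .nil))) 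
(.lf (nat_lit 587614) (.g (nat_lit 2212) (.e (nat_lit 401442) (nat_lit 9) (.e (nat_lit 426140) (nat_lit 3) (.e (nat_lit 204885) (nat_lit 33) (.e (nat_lit 401448) (nat_lit 10) (.e (nat_lit 434232) (nat_lit 23) .nil))))) (.g (nat_lit 0) (.e (nat_lit 391549) (nat_lit 0) .nil) .nil))))) (.nd (nat_lit 8) (.nd (nat_lit 9) 
(.lf (nat_lit 586974) (.g (nat_lit 394) (.e (nat_lit 393286) (nat_lit 25) (.e (nat_lit 458789) (nat_lit 23) (.e (nat_lit 532501) (nat_lit 1) .nil))) (.g (nat_lit 0) (.e (nat_lit 390375) (nat_lit 0) .nil) .nil))) 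
(.lf (nat_lit 587486) (.g (nat_lit 3088) (.e (nat_lit 401428) (nat_lit 3) (.e (nat_lit 204866) (nat_lit 28) (.e (nat_lit 352262) (nat_lit 0) (.e (nat_lit 3305) (nat_lit 202) (.e (nat_lit 573485) (nat_lit 13) (.e (nat_lit 65630) (nat_lit 14) .nil)))))) (.g (nat_lit 1) (.e (nat_lit 391131) (nat_lit 0) .nil) .nil)))) (.nd (nat_lit 9) 
(.lf (nat_lit 587230) (.g (nat_lit 2231) (.e (nat_lit 393294) (nat_lit 26) (.e (nat_lit 475179) (nat_lit 24) (.e (nat_lit 516120) (nat_lit 1) (.e (nat_lit 164322) (nat_lit 230) (.e (nat_lit 163902) (nat_lit 12) .nil))))) (.g (nat_lit 0) (.e (nat_lit 390653) (nat_lit 0) .nil) .nil))) 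
(.lf (nat_lit 587742) (.g (nat_lit 2798) (.e (nat_lit 401448) (nat_lit 10) (.e (nat_lit 434248) (nat_lit 28) (.e (nat_lit 573471) (nat_lit 11) (.e (nat_lit 16447) (nat_lit 10) (.e (nat_lit 434231) (nat_lit 23) (.e (nat_lit 532569) (nat_lit 16) .nil)))))) (.g (nat_lit 1) (.e (nat_lit 392029) (nat_lit 0) .nil) .nil))))))) (.nd (nat_lit 6) (.nd (nat_lit 7) (.nd (nat_lit 8) (.nd (nat_lit 9) 
(.lf (nat_lit 586814) (.g (nat_lit 3058) (.e (nat_lit 393281) (nat_lit 23) (.e (nat_lit 426108) (nat_lit 1) (.e (nat_lit 164330) (nat_lit 230) (.e (nat_lit 163880) (nat_lit 4) (.e (nat_lit 213032) (nat_lit 11) (.e (nat_lit 24658) (nat_lit 13) .nil)))))) (.g (nat_lit 1) (.e (nat_lit 390133) (nat_lit 0) .nil) .nil))) 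
(.lf (nat_lit 587326) (.g (nat_lit 2043) (.e (nat_lit 393296) (nat_lit 26) (.e (nat_lit 475182) (nat_lit 28) (.e (nat_lit 548897) (nat_lit 14) (.e (nat_lit 2828) (nat_lit 182) (.e (nat_lit 409646) (nat_lit 18) (.e (nat_lit 311040) (nat_lit 34) .nil)))))) (.g (nat_lit 1) (.e (nat_lit 390751) (nat_lit 0) .nil) .nil)))) (.nd (nat_lit 9) 
(.lf (nat_lit 587070) (.g (nat_lit 2546) (.e (nat_lit 393290) (nat_lit 26) (.e (nat_lit 475197) (nat_lit 40) (.e (nat_lit 704592) (nat_lit 4) (.e (nat_lit 172126) (nat_lit 14) (.e (nat_lit 491569) (nat_lit 13) .nil))))) (.g (nat_lit 1) (.e (nat_lit 390492) (nat_lit 0) .nil) .nil))) 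
(.lf (nat_lit 587582) (.g (nat_lit 4129) (.e (nat_lit 401437) (nat_lit 9) (.e (nat_lit 426436) (nat_lit 18) (.e (nat_lit 98335) (nat_lit 18) (.e (nat_lit 164330) (nat_lit 230) .nil)))) (.g (nat_lit 0) (.e (nat_lit 391464) (nat_lit 0) .nil) .nil))))) (.nd (nat_lit 8) (.nd (nat_lit 9) 
(.lf (nat_lit 586942) (.g (nat_lit 3584) (.e (nat_lit 393284) (nat_lit 24) (.e (nat_lit 434233) (nat_lit 23) (.e (nat_lit 532503) (nat_lit 1) (.e (nat_lit 57688) (nat_lit 156) (.e (nat_lit 163903) (nat_lit 12) (.e (nat_lit 426568) (nat_lit 34) .nil)))))) (.g (nat_lit 1) (.e (nat_lit 390314) (nat_lit 0) .nil) .nil))) 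
(.lf (nat_lit 587454) (.g (nat_lit 4952) (.e (nat_lit 401427) (nat_lit 3) (.e (nat_lit 204869) (nat_lit 29) (.e (nat_lit 360475) (nat_lit 8) (.e (nat_lit 557085) (nat_lit 11) (.e (nat_lit 24665) (nat_lit 14) .nil))))) (.g (nat_lit 1) (.e (nat_lit 391082) (nat_lit 0) .nil) .nil)))) (.nd (nat_lit 9) 
(.lf (nat_lit 587198) (.g (nat_lit 2500) (.e (nat_lit 393293) (nat_lit 26) (.e (nat_lit 475179) (nat_lit 24) (.e (nat_lit 516120) (nat_lit 1) (.e (nat_lit 164322) (nat_lit 230) (.e (nat_lit 163902) (nat_lit 12) .nil))))) (.g (nat_lit 0) (.e (nat_lit 390621) (nat_lit 0) .nil) .nil))) 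
(.lf (nat_lit 587710) (.g (nat_lit 2687) (.e (nat_lit 401448) (nat_lit 10) (.e (nat_lit 434238) (nat_lit 25) (.e (nat_lit 548913) (nat_lit 18) (.e (nat_lit 172088) (nat_lit 9) .nil)))) (.g (nat_lit 0) (.e (nat_lit 391973) (nat_lit 0) .nil) .nil)))))) (.nd (nat_lit 7) (.nd (nat_lit 8) (.nd (nat_lit 9) 
(.lf (nat_lit 586878) (.g (nat_lit 2831) (.e (nat_lit 393282) (nat_lit 24) (.e (nat_lit 434231) (nat_lit 23) (.e (nat_lit 532502) (nat_lit 1) (.e (nat_lit 57688) (nat_lit 156) (.e (nat_lit 163903) (nat_lit 12) (.e (nat_lit 426568) (nat_lit 34) .nil)))))) (.g (nat_lit 1) (.e (nat_lit 390213) (nat_lit 0) .nil) .nil))) 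
(.lf (nat_lit 587390) (.g (nat_lit 3166) (.e (nat_lit 401425) (nat_lit 2) (.e (nat_lit 196666) (nat_lit 13) (.e (nat_lit 65610) (nat_lit 10) (.e (nat_lit 344129) (nat_lit 26) (.e (nat_lit 557086) (nat_lit 11) (.e (nat_lit 24664) (nat_lit 14) .nil)))))) (.g (nat_lit 1) (.e (nat_lit 390925) (nat_lit 0) .nil) .nil)))) (.nd (nat_lit 9) 
(.lf (nat_lit 587134) (.g (nat_lit 3986) (.e (nat_lit 393291) (nat_lit 26) (.e (nat_lit 475198) (nat_lit 40) (.e (nat_lit 704592) (nat_lit 4) (.e (nat_lit 172126) (nat_lit 14) (.e (nat_lit 491571) (nat_lit 13) .nil))))) (.g (nat_lit 1) (.e (nat_lit 390557) (nat_lit 0) .nil) .nil))) 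
(.lf (nat_lit 587646) (.g (nat_lit 1392) (.e (nat_lit 401446) (nat_lit 10) (.e (nat_lit 434244) (nat_lit 28) (.e (nat_lit 573471) (nat_lit 11) (.e (nat_lit 16440) (nat_lit 9) (.e (nat_lit 426125) (nat_lit 2) .nil))))) (.g (nat_lit 0) (.e (nat_lit 391745) (nat_lit 0) .nil) .nil))))) (.nd (nat_lit 8) (.nd (nat_lit 9) 
(.lf (nat_lit 587006) (.g (nat_lit 2603) (.e (nat_lit 393287) (nat_lit 25) (.e (nat_lit 458774) (nat_lit 18) (.e (nat_lit 5548) (nat_lit 306) (.e (nat_lit 2640) (nat_lit 165) (.e (nat_lit 180278) (nat_lit 32) (.e (nat_lit 1660) (nat_lit 115) .nil)))))) (.g (nat_lit 1) (.e (nat_lit 390420) (nat_lit 0) .nil) .nil))) 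
(.lf (nat_lit 587518) (.g (nat_lit 2681) (.e (nat_lit 401428) (nat_lit 3) (.e (nat_lit 204869) (nat_lit 29) (.e (nat_lit 360471) (nat_lit 7) (.e (nat_lit 548873) (nat_lit 5) .nil)))) (.g (nat_lit 0) (.e (nat_lit 391237) (nat_lit 0) .nil) .nil)))) (.nd (nat_lit 9) 
(.lf (nat_lit 587262) (.g (nat_lit 2106) (.e (nat_lit 393295) (nat_lit 26) (.e (nat_lit 475179) (nat_lit 24) (.e (nat_lit 516120) (nat_lit 1) (.e (nat_lit 164329) (nat_lit 230) .nil)))) (.g (nat_lit 0) (.e (nat_lit 390687) (nat_lit 0) .nil) .nil))) 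
(.lf (nat_lit 587774) (.g (nat_lit 1470) (.e (nat_lit 401451) (nat_lit 12) (.e (nat_lit 475185) (nat_lit 29) (.e (nat_lit 557098) (nat_lit 13) (.e (nat_lit 172112) (nat_lit 10) .nil)))) (.g (nat_lit 0) (.e (nat_lit 392113) (nat_lit 0) .nil) .nil)))))))))))) 
(.nd (nat_lit 1) (.nd (nat_lit 2) (.nd (nat_lit 3) (.nd (nat_lit 4) (.nd (nat_lit 5) 
(.nd (nat_lit 6) (.nd (nat_lit 7) (.nd (nat_lit 8) (.nd (nat_lit 9) 
(.lf (nat_lit 586753) (.g (nat_lit 2862) (.e (nat_lit 393281) (nat_lit 23) (.e (nat_lit 426098) (nat_lit 1) (.e (nat_lit 164332) (nat_lit 230) (.e (nat_lit 163880) (nat_lit 4) (.e (nat_lit 213032) (nat_lit 11) (.e (nat_lit 24656) (nat_lit 13) .nil)))))) (.g (nat_lit 1) (.e (nat_lit 390060) (nat_lit 0) .nil) .nil))) 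
(.lf (nat_lit 587265) (.g (nat_lit 2665) (.e (nat_lit 393296) (nat_lit 26) (.e (nat_lit 475175) (nat_lit 24) (.e (nat_lit 516115) (nat_lit 1) (.e (nat_lit 164325) (nat_lit 230) (.e (nat_lit 163903) (nat_lit 12) .nil))))) (.g (nat_lit 0) (.e (nat_lit 390690) (nat_lit 0) .nil) .nil)))) (.nd (nat_lit 9) 
(.lf (nat_lit 587009) (.g (nat_lit 2032) (.e (nat_lit 393287) (nat_lit 25) (.e (nat_lit 458789) (nat_lit 23) (.e (nat_lit 532499) (nat_lit 1) (.e (nat_lit 57654) (nat_lit 152) (.e (nat_lit 2633) (nat_lit 164) (.e (nat_lit 179968) (nat_lit 34) .nil)))))) (.g (nat_lit 1) (.e (nat_lit 390426) (nat_lit 0) .nil) .nil))) 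
(.lf (nat_lit 587521) (.g (nat_lit 128) (.e (nat_lit 401428) (nat_lit 3) (.e (nat_lit 204869) (nat_lit 29) (.e (nat_lit 360472) (nat_lit 8) .nil))) (.g (nat_lit 0) (.e (nat_lit 391242) (nat_lit 0) .nil) .nil))))) (.nd (nat_lit 8) (.nd (nat_lit 9) 
(.lf (nat_lit 586881) (.g (nat_lit 2323) (.e (nat_lit 393282) (nat_lit 24) (.e (nat_lit 434231) (nat_lit 23) (.e (nat_lit 532504) (nat_lit 1) (.e (nat_lit 57692) (nat_lit 156) .nil)))) (.g (nat_lit 0) (.e (nat_lit 390216) (nat_lit 0) .nil) .nil))) 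
(.lf (nat_lit 587393) (.g (nat_lit 3063) (.e (nat_lit 401425) (nat_lit 2) (.e (nat_lit 196666) (nat_lit 13) (.e (nat_lit 65610) (nat_lit 10) (.e (nat_lit 344129) (nat_lit 26) (.e (nat_lit 557087) (nat_lit 11) (.e (nat_lit 32512) (nat_lit 14) .nil)))))) (.g (nat_lit 1) (.e (nat_lit 390928) (nat_lit 0) .nil) .nil)))) (.nd (nat_lit 9) 
(.lf (nat_lit 587137) (.g (nat_lit 2168) (.e (nat_lit 393292) (nat_lit 26) (.e (nat_lit 475177) (nat_lit 24) (.e (nat_lit 516115) (nat_lit 1) (.e (nat_lit 164325) (nat_lit 230) (.e (nat_lit 163905) (nat_lit 12) .nil))))) (.g (nat_lit 0) (.e (nat_lit 390560) (nat_lit 0) .nil) .nil))) 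
(.lf (nat_lit 587649) (.g (nat_lit 1621) (.e (nat_lit 401446) (nat_lit 10) (.e (nat_lit 434286) (nat_lit 42) (.e (nat_lit 688138) (nat_lit 5) (.e (nat_lit 2887) (nat_lit 184) (.e (nat_lit 426214) (nat_lit 9) .nil))))) (.g (nat_lit 0) (.e (nat_lit 391787) (nat_lit 0) .nil) .nil)))))) (.nd (nat_lit 7) (.nd (nat_lit 8) (.nd (nat_lit 9) 
(.lf (nat_lit 586817) (.g (nat_lit 2348) (.e (nat_lit 393281) (nat_lit 23) (.e (nat_lit 426108) (nat_lit 1) (.e (nat_lit 164345) (nat_lit 240) (.e (nat_lit 2638) (nat_lit 165) (.e (nat_lit 180278) (nat_lit 32) (.e (nat_lit 1658) (nat_lit 115) .nil)))))) (.g (nat_lit 1) (.e (nat_lit 390138) (nat_lit 0) .nil) .nil))) 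
(.lf (nat_lit 587329) (.g (nat_lit 2310) (.e (nat_lit 393296) (nat_lit 26) (.e (nat_lit 475196) (nat_lit 40) (.e (nat_lit 704592) (nat_lit 4) (.e (nat_lit 172126) (nat_lit 14) (.e (nat_lit 491569) (nat_lit 13) .nil))))) (.g (nat_lit 1) (.e (nat_lit 390754) (nat_lit 0) .nil) .nil)))) (.nd (nat_lit 9) 
(.lf (nat_lit 587073) (.g (nat_lit 2664) (.e (nat_lit 393291) (nat_lit 26) (.e (nat_lit 475177) (nat_lit 24) (.e (nat_lit 516115) (nat_lit 1) (.e (nat_lit 164322) (nat_lit 230) (.e (nat_lit 163904) (nat_lit 12) .nil))))) (.g (nat_lit 0) (.e (nat_lit 390496) (nat_lit 0) .nil) .nil))) 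
(.lf (nat_lit 587585) (.g (nat_lit 2495) (.e (nat_lit 401437) (nat_lit 9) (.e (nat_lit 426530) (nat_lit 27) (.e (nat_lit 336235) (nat_lit 14) (.e (nat_lit 401457) (nat_lit 13) (.e (nat_lit 483409) (nat_lit 27) .nil))))) (.g (nat_lit 0) (.e (nat_lit 391477) (nat_lit 0) .nil) .nil))))) (.nd (nat_lit 8) (.nd (nat_lit 9) 
(.lf (nat_lit 586945) (.g (nat_lit 2874) (.e (nat_lit 393284) (nat_lit 24) (.e (nat_lit 434272) (nat_lit 38) (.e (nat_lit 655378) (nat_lit 4) (.e (nat_lit 172124) (nat_lit 14) (.e (nat_lit 491570) (nat_lit 13) .nil))))) (.g (nat_lit 1) (.e (nat_lit 390322) (nat_lit 0) .nil) .nil))) 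
(.lf (nat_lit 587457) (.g (nat_lit 3188) (.e (nat_lit 401428) (nat_lit 3) (.e (nat_lit 204845) (nat_lit 24) (.e (nat_lit 319490) (nat_lit 0) (.e (nat_lit 5664) (nat_lit 312) (.e (nat_lit 2661) (nat_lit 167) (.e (nat_lit 196665) (nat_lit 13) (.e (nat_lit 65628) (nat_lit 14) .nil))))))) (.g (nat_lit 1) (.e (nat_lit 391087) (nat_lit 0) .nil) .nil)))) (.nd (nat_lit 9) 
(.lf (nat_lit 587201) (.g (nat_lit 2524) (.e (nat_lit 393293) (nat_lit 26) (.e (nat_lit 475179) (nat_lit 24) (.e (nat_lit 516120) (nat_lit 1) (.e (nat_lit 164332) (nat_lit 230) (.e (nat_lit 163905) (nat_lit 12) (.e (nat_lit 426567) (nat_lit 34) .nil)))))) (.g (nat_lit 1) (.e (nat_lit 390624) (nat_lit 0) .nil) .nil))) 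
(.lf (nat_lit 587713) (.g (nat_lit 6350) (.e (nat_lit 401448) (nat_lit 10) (.e (nat_lit 434238) (nat_lit 25) (.e (nat_lit 548913) (nat_lit 18) (.e (nat_lit 172094) (nat_lit 9) (.e (nat_lit 426125) (nat_lit 2) (.e (nat_lit 196643) (nat_lit 9) (.e (nat_lit 1673) (nat_lit 116) .nil))))))) (.g (nat_lit 1) (.e (nat_lit 391978) (nat_lit 0) .nil) .nil))))))) 
(.nd (nat_lit 6) (.nd (nat_lit 7) (.nd (nat_lit 8) (.nd (nat_lit 9) 
(.lf (nat_lit 586785) (.g (nat_lit 2872) (.e (nat_lit 393281) (nat_lit 23) (.e (nat_lit 426100) (nat_lit 1) (.e (nat_lit 164330) (nat_lit 230) (.e (nat_lit 163877) (nat_lit 4) (.e (nat_lit 213032) (nat_lit 11) (.e (nat_lit 24655) (nat_lit 13) .nil)))))) (.g (nat_lit 1) (.e (nat_lit 390098) (nat_lit 0) .nil) .nil))) 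
(.lf (nat_lit 587297) (.g (nat_lit 3555) (.e (nat_lit 393296) (nat_lit 26) (.e (nat_lit 475178) (nat_lit 24) (.e (nat_lit 516117) (nat_lit 1) (.e (nat_lit 164330) (nat_lit 230) (.e (nat_lit 163905) (nat_lit 12) (.e (nat_lit 426566) (nat_lit 34) .nil)))))) (.g (nat_lit 1) (.e (nat_lit 390722) (nat_lit 0) .nil) .nil)))) (.nd (nat_lit 9) 
(.lf (nat_lit 587041) (.g (nat_lit 3022) (.e (nat_lit 393287) (nat_lit 25) (.e (nat_lit 458789) (nat_lit 23) (.e (nat_lit 532503) (nat_lit 1) (.e (nat_lit 57688) (nat_lit 156) (.e (nat_lit 163903) (nat_lit 12) (.e (nat_lit 426568) (nat_lit 34) .nil)))))) (.g (nat_lit 1) (.e (nat_lit 390460) (nat_lit 0) .nil) .nil))) 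
(.lf (nat_lit 587553) (.g (nat_lit 915) (.e (nat_lit 401432) (nat_lit 7) (.e (nat_lit 409645) (nat_lit 18) (.e (nat_lit 303137) (nat_lit 10) .nil))) (.g (nat_lit 0) (.e (nat_lit 391365) (nat_lit 0) .nil) .nil))))) (.nd (nat_lit 8) (.nd (nat_lit 9) 
(.lf (nat_lit 586913) (.g (nat_lit 2218) (.e (nat_lit 393283) (nat_lit 24) (.e (nat_lit 434231) (nat_lit 23) (.e (nat_lit 532500) (nat_lit 1) (.e (nat_lit 57651) (nat_lit 152) (.e (nat_lit 2633) (nat_lit 164) (.e (nat_lit 179968) (nat_lit 34) .nil)))))) (.g (nat_lit 1) (.e (nat_lit 390257) (nat_lit 0) .nil) .nil))) 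
(.lf (nat_lit 587425) (.g (nat_lit 1035) (.e (nat_lit 401427) (nat_lit 3) (.e (nat_lit 204854) (nat_lit 26) (.e (nat_lit 343808) (nat_lit 10) .nil))) (.g (nat_lit 0) (.e (nat_lit 391006) (nat_lit 0) .nil) .nil)))) (.nd (nat_lit 9) 
(.lf (nat_lit 587169) (.g (nat_lit 3084) (.e (nat_lit 393293) (nat_lit 26) (.e (nat_lit 475177) (nat_lit 24) (.e (nat_lit 516118) (nat_lit 1) (.e (nat_lit 164325) (nat_lit 230) (.e (nat_lit 163903) (nat_lit 12) (.e (nat_lit 426566) (nat_lit 34) .nil)))))) (.g (nat_lit 1) (.e (nat_lit 390592) (nat_lit 0) .nil) .nil))) 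
(.lf (nat_lit 587681) (.g (nat_lit 3654) (.e (nat_lit 401448) (nat_lit 10) (.e (nat_lit 434231) (nat_lit 23) (.e (nat_lit 532523) (nat_lit 7) (.e (nat_lit 319505) (nat_lit 10) (.e (nat_lit 5714) (nat_lit 312) .nil))))) (.g (nat_lit 0) (.e (nat_lit 391935) (nat_lit 0) .nil) .nil)))))) (.nd (nat_lit 7) (.nd (nat_lit 8) (.nd (nat_lit 9) 
(.lf (nat_lit 586849) (.g (nat_lit 2933) (.e (nat_lit 393282) (nat_lit 24) (.e (nat_lit 434209) (nat_lit 18) (.e (nat_lit 5548) (nat_lit 306) (.e (nat_lit 2638) (nat_lit 165) (.e (nat_lit 180277) (nat_lit 32) (.e (nat_lit 1658) (nat_lit 115) .nil)))))) (.g (nat_lit 1) (.e (nat_lit 390184) (nat_lit 0) .nil) .nil))) 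
(.lf (nat_lit 587361) (.g (nat_lit 674) (.e (nat_lit 401423) (nat_lit 2) (.e (nat_lit 196666) (nat_lit 13) (.e (nat_lit 65609) (nat_lit 10) .nil))) (.g (nat_lit 0) (.e (nat_lit 390869) (nat_lit 0) .nil) .nil)))) (.nd (nat_lit 9) 
(.lf (nat_lit 587105) (.g (nat_lit 3270) (.e (nat_lit 393291) (nat_lit 26) (.e (nat_lit 475177) (nat_lit 24) (.e (nat_lit 516119) (nat_lit 1) (.e (nat_lit 164331) (nat_lit 230) (.e (nat_lit 163902) (nat_lit 12) (.e (nat_lit 426566) (nat_lit 34) .nil)))))) (.g (nat_lit 1) (.e (nat_lit 390528) (nat_lit 0) .nil) .nil))) 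
(.lf (nat_lit 587617) (.g (nat_lit 2059) (.e (nat_lit 401444) (nat_lit 9) (.e (nat_lit 426163) (nat_lit 6) (.e (nat_lit 253991) (nat_lit 11) (.e (nat_lit 16388) (nat_lit 0) (.e (nat_lit 7377) (nat_lit 390) .nil))))) (.g (nat_lit 0) (.e (nat_lit 391569) (nat_lit 0) .nil) .nil))))) (.nd (nat_lit 8) (.nd (nat_lit 9) 
(.lf (nat_lit 586977) (.g (nat_lit 822) (.e (nat_lit 393286) (nat_lit 25) (.e (nat_lit 458789) (nat_lit 23) (.e (nat_lit 532501) (nat_lit 1) (.e (nat_lit 57663) (nat_lit 152) .nil)))) (.g (nat_lit 0) (.e (nat_lit 390378) (nat_lit 0) .nil) .nil))) 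
(.lf (nat_lit 587489) (.g (nat_lit 1008) (.e (nat_lit 401428) (nat_lit 3) (.e (nat_lit 204868) (nat_lit 29) (.e (nat_lit 360473) (nat_lit 8) (.e (nat_lit 557073) (nat_lit 9) .nil)))) (.g (nat_lit 0) (.e (nat_lit 391161) (nat_lit 0) .nil) .nil)))) (.nd (nat_lit 9) 
(.lf (nat_lit 587233) (.g (nat_lit 3438) (.e (nat_lit 393294) (nat_lit 26) (.e (nat_lit 475179) (nat_lit 24) (.e (nat_lit 516120) (nat_lit 1) (.e (nat_lit 164330) (nat_lit 230) (.e (nat_lit 163905) (nat_lit 12) (.e (nat_lit 426567) (nat_lit 34) .nil)))))) (.g (nat_lit 1) (.e (nat_lit 390656) (nat_lit 0) .nil) .nil))) 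
(.lf (nat_lit 587745) (.g (nat_lit 2004) (.e (nat_lit 401448) (nat_lit 10) (.e (nat_lit 434248) (nat_lit 28) (.e (nat_lit 573471) (nat_lit 11) (.e (nat_lit 16453) (nat_lit 11) .nil)))) (.g (nat_lit 0) (.e (nat_lit 392032) (nat_lit 0) .nil) .nil)))))))) (.nd (nat_lit 5) (.nd (nat_lit 6) (.nd (nat_lit 7) (.nd (nat_lit 8) (.nd (nat_lit 9) 
(.lf (nat_lit 586769) (.g (nat_lit 1834) (.e (nat_lit 393281) (nat_lit 23) (.e (nat_lit 426099) (nat_lit 1) (.e (nat_lit 164332) (nat_lit 230) (.e (nat_lit 163843) (nat_lit 0) (.e (nat_lit 3656) (nat_lit 227) (.e (nat_lit 778462) (nat_lit 11) (.e (nat_lit 24658) (nat_lit 13) .nil))))))) (.g (nat_lit 1) (.e (nat_lit 390079) (nat_lit 0) .nil) .nil))) 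
(.lf (nat_lit 587281) (.g (nat_lit 3807) (.e (nat_lit 393296) (nat_lit 26) (.e (nat_lit 475177) (nat_lit 24) (.e (nat_lit 516119) (nat_lit 1) (.e (nat_lit 164327) (nat_lit 230) (.e (nat_lit 163903) (nat_lit 12) (.e (nat_lit 426566) (nat_lit 34) .nil)))))) (.g (nat_lit 1) (.e (nat_lit 390706) (nat_lit 0) .nil) .nil)))) (.nd (nat_lit 9) 
(.lf (nat_lit 587025) (.g (nat_lit 1850) (.e (nat_lit 393287) (nat_lit 25) (.e (nat_lit 458789) (nat_lit 23) (.e (nat_lit 532501) (nat_lit 1) (.e (nat_lit 57651) (nat_lit 152) (.e (nat_lit 2633) (nat_lit 164) (.e (nat_lit 179968) (nat_lit 34) .nil)))))) (.g (nat_lit 1) (.e (nat_lit 390444) (nat_lit 0) .nil) .nil))) 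
(.lf (nat_lit 587537) (.g (nat_lit 3218) (.e (nat_lit 401428) (nat_lit 3) (.e (nat_lit 204869) (nat_lit 29) (.e (nat_lit 360474) (nat_lit 8) (.e (nat_lit 557066) (nat_lit 9) (.e (nat_lit 232) (nat_lit 21) .nil))))) (.g (nat_lit 0) (.e (nat_lit 391258) (nat_lit 0) .nil) .nil))))) (.nd (nat_lit 8) (.nd (nat_lit 9) 
(.lf (nat_lit 586897) (.g (nat_lit 2015) (.e (nat_lit 393282) (nat_lit 24) (.e (nat_lit 434233) (nat_lit 23) (.e (nat_lit 532504) (nat_lit 1) (.e (nat_lit 57692) (nat_lit 156) (.e (nat_lit 163907) (nat_lit 12) (.e (nat_lit 426568) (nat_lit 34) .nil)))))) (.g (nat_lit 1) (.e (nat_lit 390232) (nat_lit 0) .nil) .nil))) 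
(.lf (nat_lit 587409) (.g (nat_lit 1502) (.e (nat_lit 401425) (nat_lit 2) (.e (nat_lit 196672) (nat_lit 15) (.e (nat_lit 81924) (nat_lit 0) (.e (nat_lit 3304) (nat_lit 202) (.e (nat_lit 573480) (nat_lit 13) .nil))))) (.g (nat_lit 0) (.e (nat_lit 390947) (nat_lit 0) .nil) .nil)))) (.nd (nat_lit 9) 
(.lf (nat_lit 587153) (.g (nat_lit 3923) (.e (nat_lit 393293) (nat_lit 26) (.e (nat_lit 475177) (nat_lit 24) (.e (nat_lit 516115) (nat_lit 1) (.e (nat_lit 164325) (nat_lit 230) (.e (nat_lit 163903) (nat_lit 12) (.e (nat_lit 426566) (nat_lit 34) .nil)))))) (.g (nat_lit 1) (.e (nat_lit 390576) (nat_lit 0) .nil) .nil))) 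
(.lf (nat_lit 587665) (.g (nat_lit 2013) (.e (nat_lit 401447) (nat_lit 10) (.e (nat_lit 434238) (nat_lit 25) (.e (nat_lit 548898) (nat_lit 14) (.e (nat_lit 3015) (nat_lit 187) (.e (nat_lit 450574) (nat_lit 1) .nil))))) (.g (nat_lit 0) (.e (nat_lit 391828) (nat_lit 0) .nil) .nil)))))) (.nd (nat_lit 7) (.nd (nat_lit 8) (.nd (nat_lit 9) 
(.lf (nat_lit 586833) (.g (nat_lit 1376) (.e (nat_lit 401152) (nat_lit 23) (.e (nat_lit 426098) (nat_lit 1) (.e (nat_lit 164325) (nat_lit 230) (.e (nat_lit 163882) (nat_lit 4) (.e (nat_lit 213032) (nat_lit 11) .nil))))) (.g (nat_lit 0) (.e (nat_lit 390160) (nat_lit 0) .nil) .nil))) 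
(.lf (nat_lit 587345) (.g (nat_lit 502) (.e (nat_lit 401152) (nat_lit 27) (.e (nat_lit 491571) (nat_lit 13) (.e (nat_lit 393238) (nat_lit 17) .nil))) (.g (nat_lit 0) (.e (nat_lit 390789) (nat_lit 0) .nil) .nil)))) (.nd (nat_lit 9) 
(.lf (nat_lit 587089) (.g (nat_lit 3884) (.e (nat_lit 393291) (nat_lit 26) (.e (nat_lit 475177) (nat_lit 24) (.e (nat_lit 516117) (nat_lit 1) (.e (nat_lit 164330) (nat_lit 230) (.e (nat_lit 163902) (nat_lit 12) (.e (nat_lit 426566) (nat_lit 34) .nil)))))) (.g (nat_lit 1) (.e (nat_lit 390512) (nat_lit 0) .nil) .nil))) 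
(.lf (nat_lit 587601) (.g (nat_lit 3070) (.e (nat_lit 401438) (nat_lit 9) (.e (nat_lit 426533) (nat_lit 28) (.e (nat_lit 344068) (nat_lit 0) (.e (nat_lit 2856) (nat_lit 184) (.e (nat_lit 426509) (nat_lit 27) (.e (nat_lit 336228) (nat_lit 14) .nil)))))) (.g (nat_lit 1) (.e (nat_lit 391500) (nat_lit 0) .nil) .nil))))) (.nd (nat_lit 8) (.nd (nat_lit 9) 
(.lf (nat_lit 586961) (.g (nat_lit 1254) (.e (nat_lit 393286) (nat_lit 25) (.e (nat_lit 458789) (nat_lit 23) (.e (nat_lit 532499) (nat_lit 1) (.e (nat_lit 57657) (nat_lit 152) .nil)))) (.g (nat_lit 0) (.e (nat_lit 390361) (nat_lit 0) .nil) .nil))) 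
(.lf (nat_lit 587473) (.g (nat_lit 2969) (.e (nat_lit 401428) (nat_lit 3) (.e (nat_lit 204855) (nat_lit 26) (.e (nat_lit 336226) (nat_lit 14) (.e (nat_lit 401425) (nat_lit 2) (.e (nat_lit 196665) (nat_lit 13) .nil))))) (.g (nat_lit 0) (.e (nat_lit 391111) (nat_lit 0) .nil) .nil)))) (.nd (nat_lit 9) 
(.lf (nat_lit 587217) (.g (nat_lit 4530) (.e (nat_lit 393294) (nat_lit 26) (.e (nat_lit 475177) (nat_lit 24) (.e (nat_lit 516120) (nat_lit 1) (.e (nat_lit 164330) (nat_lit 230) (.e (nat_lit 163902) (nat_lit 12) (.e (nat_lit 426568) (nat_lit 34) .nil)))))) (.g (nat_lit 1) (.e (nat_lit 390640) (nat_lit 0) .nil) .nil))) 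
(.lf (nat_lit 587729) (.g (nat_lit 2650) (.e (nat_lit 401448) (nat_lit 10) (.e (nat_lit 434245) (nat_lit 28) (.e (nat_lit 573471) (nat_lit 11) (.e (nat_lit 16439) (nat_lit 9) (.e (nat_lit 426132) (nat_lit 3) (.e (nat_lit 204885) (nat_lit 33) .nil)))))) (.g (nat_lit 1) (.e (nat_lit 392004) (nat_lit 0) .nil) .nil))))))) (.nd (nat_lit 6) (.nd (nat_lit 7) (.nd (nat_lit 8) (.nd (nat_lit 9) 
(.lf (nat_lit 586801) (.g (nat_lit 1859) (.e (nat_lit 393281) (nat_lit 23) (.e (nat_lit 426100) (nat_lit 1) (.e (nat_lit 164332) (nat_lit 230) (.e (nat_lit 163880) (nat_lit 4) (.e (nat_lit 213031) (nat_lit 11) .nil))))) (.g (nat_lit 0) (.e (nat_lit 390114) (nat_lit 0) .nil) .nil))) 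
(.lf (nat_lit 587313) (.g (nat_lit 3001) (.e (nat_lit 393296) (nat_lit 26) (.e (nat_lit 475179) (nat_lit 24) (.e (nat_lit 516115) (nat_lit 1) (.e (nat_lit 164325) (nat_lit 230) (.e (nat_lit 163907) (nat_lit 12) (.e (nat_lit 433920) (nat_lit 34) .nil)))))) (.g (nat_lit 1) (.e (nat_lit 390738) (nat_lit 0) .nil) .nil)))) (.nd (nat_lit 9) 
(.lf (nat_lit 587057) (.g (nat_lit 1293) (.e (nat_lit 393290) (nat_lit 26) (.e (nat_lit 475177) (nat_lit 24) (.e (nat_lit 516115) (nat_lit 1) (.e (nat_lit 164327) (nat_lit 230) .nil)))) (.g (nat_lit 0) (.e (nat_lit 390479) (nat_lit 0) .nil) .nil))) 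
(.lf (nat_lit 587569) (.g (nat_lit 1763) (.e (nat_lit 401434) (nat_lit 9) (.e (nat_lit 426125) (nat_lit 2) (.e (nat_lit 196661) (nat_lit 12) (.e (nat_lit 57751) (nat_lit 201) .nil)))) (.g (nat_lit 0) (.e (nat_lit 391425) (nat_lit 0) .nil) .nil))))) (.nd (nat_lit 8) (.nd (nat_lit 9) 
(.lf (nat_lit 586929) (.g (nat_lit 1690) (.e (nat_lit 393283) (nat_lit 24) (.e (nat_lit 434276) (nat_lit 39) (.e (nat_lit 663589) (nat_lit 14) (.e (nat_lit 2808) (nat_lit 180) (.e (nat_lit 303146) (nat_lit 14) .nil))))) (.g (nat_lit 0) (.e (nat_lit 390290) (nat_lit 0) .nil) .nil))) 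
(.lf (nat_lit 587441) (.g (nat_lit 389) (.e (nat_lit 401427) (nat_lit 3) (.e (nat_lit 204869) (nat_lit 29) (.e (nat_lit 360471) (nat_lit 7) .nil))) (.g (nat_lit 0) (.e (nat_lit 391065) (nat_lit 0) .nil) .nil)))) (.nd (nat_lit 9) 
(.lf (nat_lit 587185) (.g (nat_lit 3124) (.e (nat_lit 393293) (nat_lit 26) (.e (nat_lit 475177) (nat_lit 24) (.e (nat_lit 516120) (nat_lit 1) (.e (nat_lit 164332) (nat_lit 230) (.e (nat_lit 163902) (nat_lit 12) (.e (nat_lit 426566) (nat_lit 34) .nil)))))) (.g (nat_lit 1) (.e (nat_lit 390608) (nat_lit 0) .nil) .nil))) 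
(.lf (nat_lit 587697) (.g (nat_lit 3465) (.e (nat_lit 401448) (nat_lit 10) (.e (nat_lit 434231) (nat_lit 23) (.e (nat_lit 532569) (nat_lit 16) (.e (nat_lit 401445) (nat_lit 9) (.e (nat_lit 426133) (nat_lit 3) (.e (nat_lit 204885) (nat_lit 33) .nil)))))) (.g (nat_lit 1) (.e (nat_lit 391953) (nat_lit 0) .nil) .nil)))))) (.nd (nat_lit 7) (.nd (nat_lit 8) (.nd (nat_lit 9) 
(.lf (nat_lit 586865) (.g (nat_lit 2333) (.e (nat_lit 393282) (nat_lit 24) (.e (nat_lit 434231) (nat_lit 23) (.e (nat_lit 532499) (nat_lit 1) (.e (nat_lit 57688) (nat_lit 156) (.e (nat_lit 171776) (nat_lit 12) .nil))))) (.g (nat_lit 0) (.e (nat_lit 390200) (nat_lit 0) .nil) .nil))) 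
(.lf (nat_lit 587377) (.g (nat_lit 1275) (.e (nat_lit 401424) (nat_lit 2) (.e (nat_lit 196672) (nat_lit 15) (.e (nat_lit 81946) (nat_lit 20) (.e (nat_lit 1858) (nat_lit 124) .nil)))) (.g (nat_lit 0) (.e (nat_lit 390904) (nat_lit 0) .nil) .nil)))) (.nd (nat_lit 9) 
(.lf (nat_lit 587121) (.g (nat_lit 2377) (.e (nat_lit 393291) (nat_lit 26) (.e (nat_lit 475179) (nat_lit 24) (.e (nat_lit 516115) (nat_lit 1) (.e (nat_lit 164332) (nat_lit 230) (.e (nat_lit 163902) (nat_lit 12) .nil))))) (.g (nat_lit 0) (.e (nat_lit 390544) (nat_lit 0) .nil) .nil))) 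
(.lf (nat_lit 587633) (.g (nat_lit 1891) (.e (nat_lit 401446) (nat_lit 10) (.e (nat_lit 434208) (nat_lit 18) (.e (nat_lit 6420) (nat_lit 341) (.e (nat_lit 163902) (nat_lit 12) (.e (nat_lit 426233) (nat_lit 9) .nil))))) (.g (nat_lit 0) (.e (nat_lit 391656) (nat_lit 0) .nil) .nil))))) (.nd (nat_lit 8) (.nd (nat_lit 9) 
(.lf (nat_lit 586993) (.g (nat_lit 3065) (.e (nat_lit 393286) (nat_lit 25) (.e (nat_lit 458789) (nat_lit 23) (.e (nat_lit 532503) (nat_lit 1) (.e (nat_lit 57688) (nat_lit 156) (.e (nat_lit 163903) (nat_lit 12) (.e (nat_lit 426568) (nat_lit 34) .nil)))))) (.g (nat_lit 1) (.e (nat_lit 390394) (nat_lit 0) .nil) .nil))) 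
(.lf (nat_lit 587505) (.g (nat_lit 405) (.e (nat_lit 401428) (nat_lit 3) (.e (nat_lit 204869) (nat_lit 29) (.e (nat_lit 360451) (nat_lit 0) .nil))) (.g (nat_lit 0) (.e (nat_lit 391183) (nat_lit 0) .nil) .nil)))) (.nd (nat_lit 9) 
(.lf (nat_lit 587249) (.g (nat_lit 3636) (.e (nat_lit 393295) (nat_lit 26) (.e (nat_lit 475177) (nat_lit 24) (.e (nat_lit 516119) (nat_lit 1) (.e (nat_lit 164325) (nat_lit 230) (.e (nat_lit 163903) (nat_lit 12) (.e (nat_lit 426566) (nat_lit 34) .nil)))))) (.g (nat_lit 1) (.e (nat_lit 390674) (nat_lit 0) .nil) .nil))) 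
(.lf (nat_lit 587761) (.g (nat_lit 2353) (.e (nat_lit 401450) (nat_lit 12) (.e (nat_lit 475185) (nat_lit 29) (.e (nat_lit 557098) (nat_lit 13) (.e (nat_lit 172114) (nat_lit 10) .nil)))) (.g (nat_lit 0) (.e (nat_lit 392089) (nat_lit 0) .nil) .nil))))))))) (.nd (nat_lit 4) (.nd (nat_lit 5) (.nd (nat_lit 6) (.nd (nat_lit 7) (.nd (nat_lit 8) (.nd (nat_lit 9) 
(.lf (nat_lit 586761) (.g (nat_lit 1132) (.e (nat_lit 393281) (nat_lit 23) (.e (nat_lit 426099) (nat_lit 1) (.e (nat_lit 164330) (nat_lit 230) (.e (nat_lit 163850) (nat_lit 0) .nil)))) (.g (nat_lit 0) (.e (nat_lit 390071) (nat_lit 0) .nil) .nil))) 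
(.lf (nat_lit 587273) (.g (nat_lit 3924) (.e (nat_lit 393296) (nat_lit 26) (.e (nat_lit 475177) (nat_lit 24) (.e (nat_lit 516115) (nat_lit 1) (.e (nat_lit 164327) (nat_lit 230) (.e (nat_lit 163903) (nat_lit 12) (.e (nat_lit 426566) (nat_lit 34) .nil)))))) (.g (nat_lit 1) (.e (nat_lit 390698) (nat_lit 0) .nil) .nil)))) (.nd (nat_lit 9) 
(.lf (nat_lit 587017) (.g (nat_lit 3118) (.e (nat_lit 393287) (nat_lit 25) (.e (nat_lit 458789) (nat_lit 23) (.e (nat_lit 532499) (nat_lit 1) (.e (nat_lit 57688) (nat_lit 156) (.e (nat_lit 163903) (nat_lit 12) (.e (nat_lit 426566) (nat_lit 34) .nil)))))) (.g (nat_lit 1) (.e (nat_lit 390436) (nat_lit 0) .nil) .nil))) 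
(.lf (nat_lit 587529) (.g (nat_lit 3526) (.e (nat_lit 401428) (nat_lit 3) (.e (nat_lit 204869) (nat_lit 29) (.e (nat_lit 360474) (nat_lit 8) (.e (nat_lit 557065) (nat_lit 9) (.e (nat_lit 230) (nat_lit 21) .nil))))) (.g (nat_lit 0) (.e (nat_lit 391250) (nat_lit 0) .nil) .nil))))) (.nd (nat_lit 8) (.nd (nat_lit 9) 
(.lf (nat_lit 586889) (.g (nat_lit 2379) (.e (nat_lit 393282) (nat_lit 24) (.e (nat_lit 434233) (nat_lit 23) (.e (nat_lit 532499) (nat_lit 1) (.e (nat_lit 57688) (nat_lit 156) (.e (nat_lit 163903) (nat_lit 12) (.e (nat_lit 426566) (nat_lit 34) .nil)))))) (.g (nat_lit 1) (.e (nat_lit 390224) (nat_lit 0) .nil) .nil))) 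
(.lf (nat_lit 587401) (.g (nat_lit 1952) (.e (nat_lit 401425) (nat_lit 2) (.e (nat_lit 196666) (nat_lit 13) (.e (nat_lit 65624) (nat_lit 12) (.e (nat_lit 385072) (nat_lit 31) .nil)))) (.g (nat_lit 0) (.e (nat_lit 390937) (nat_lit 0) .nil) .nil)))) (.nd (nat_lit 9) 
(.lf (nat_lit 587145) (.g (nat_lit 1169) (.e (nat_lit 393292) (nat_lit 26) (.e (nat_lit 475198) (nat_lit 40) (.e (nat_lit 704592) (nat_lit 4) (.e (nat_lit 172125) (nat_lit 14) .nil)))) (.g (nat_lit 0) (.e (nat_lit 390568) (nat_lit 0) .nil) .nil))) 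
(.lf (nat_lit 587657) (.g (nat_lit 2103) (.e (nat_lit 401446) (nat_lit 10) (.e (nat_lit 434289) (nat_lit 43) (.e (nat_lit 696344) (nat_lit 8) (.e (nat_lit 172095) (nat_lit 9) (.e (nat_lit 426513) (nat_lit 27) .nil))))) (.g (nat_lit 0) (.e (nat_lit 391801) (nat_lit 0) .nil) .nil)))))) (.nd (nat_lit 7) (.nd (nat_lit 8) (.nd (nat_lit 9) 
(.lf (nat_lit 586825) (.g (nat_lit 2704) (.e (nat_lit 393281) (nat_lit 23) (.e (nat_lit 426137) (nat_lit 3) (.e (nat_lit 204829) (nat_lit 18) (.e (nat_lit 57692) (nat_lit 156) (.e (nat_lit 163905) (nat_lit 12) (.e (nat_lit 426568) (nat_lit 34) .nil)))))) (.g (nat_lit 1) (.e (nat_lit 390150) (nat_lit 0) .nil) .nil))) 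
(.lf (nat_lit 587337) (.g (nat_lit 1268) (.e (nat_lit 393299) (nat_lit 27) (.e (nat_lit 491538) (nat_lit 3) (.e (nat_lit 98334) (nat_lit 18) (.e (nat_lit 164224) (nat_lit 181) .nil)))) (.g (nat_lit 0) (.e (nat_lit 390770) (nat_lit 0) .nil) .nil)))) (.nd (nat_lit 9) 
(.lf (nat_lit 587081) (.g (nat_lit 3739) (.e (nat_lit 393291) (nat_lit 26) (.e (nat_lit 475177) (nat_lit 24) (.e (nat_lit 516115) (nat_lit 1) (.e (nat_lit 164325) (nat_lit 230) (.e (nat_lit 163907) (nat_lit 12) (.e (nat_lit 426566) (nat_lit 34) .nil)))))) (.g (nat_lit 1) (.e (nat_lit 390504) (nat_lit 0) .nil) .nil))) 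
(.lf (nat_lit 587593) (.g (nat_lit 511) (.e (nat_lit 401437) (nat_lit 9) (.e (nat_lit 426542) (nat_lit 29) (.e (nat_lit 352308) (nat_lit 21) .nil))) (.g (nat_lit 0) (.e (nat_lit 391485) (nat_lit 0) .nil) .nil))))) (.nd (nat_lit 8) (.nd (nat_lit 9) 
(.lf (nat_lit 586953) (.g (nat_lit 2769) (.e (nat_lit 393286) (nat_lit 25) (.e (nat_lit 458774) (nat_lit 18) (.e (nat_lit 5548) (nat_lit 306) (.e (nat_lit 2638) (nat_lit 165) (.e (nat_lit 180277) (nat_lit 32) (.e (nat_lit 1660) (nat_lit 115) .nil)))))) (.g (nat_lit 1) (.e (nat_lit 390352) (nat_lit 0) .nil) .nil))) 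
(.lf (nat_lit 587465) (.g (nat_lit 2501) (.e (nat_lit 401428) (nat_lit 3) (.e (nat_lit 204854) (nat_lit 26) (.e (nat_lit 336207) (nat_lit 12) (.e (nat_lit 385074) (nat_lit 31) (.e (nat_lit 573485) (nat_lit 13) (.e (nat_lit 65628) (nat_lit 14) .nil)))))) (.g (nat_lit 1) (.e (nat_lit 391100) (nat_lit 0) .nil) .nil)))) (.nd (nat_lit 9) 
(.lf (nat_lit 587209) (.g (nat_lit 1914) (.e (nat_lit 393294) (nat_lit 26) (.e (nat_lit 475177) (nat_lit 24) (.e (nat_lit 516115) (nat_lit 1) (.e (nat_lit 164324) (nat_lit 230) .nil)))) (.g (nat_lit 0) (.e (nat_lit 390632) (nat_lit 0) .nil) .nil))) 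
(.lf (nat_lit 587721) (.g (nat_lit 642) (.e (nat_lit 401448) (nat_lit 10) (.e (nat_lit 434244) (nat_lit 28) (.e (nat_lit 573460) (nat_lit 9) .nil))) (.g (nat_lit 0) (.e (nat_lit 391995) (nat_lit 0) .nil) .nil))))))) (.nd (nat_lit 6) (.nd (nat_lit 7) (.nd (nat_lit 8) (.nd (nat_lit 9) 
(.lf (nat_lit 586793) (.g (nat_lit 3052) (.e (nat_lit 393281) (nat_lit 23) (.e (nat_lit 426100) (nat_lit 1) (.e (nat_lit 164332) (nat_lit 230) (.e (nat_lit 163877) (nat_lit 4) (.e (nat_lit 213032) (nat_lit 11) (.e (nat_lit 24658) (nat_lit 13) .nil)))))) (.g (nat_lit 1) (.e (nat_lit 390106) (nat_lit 0) .nil) .nil))) 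
(.lf (nat_lit 587305) (.g (nat_lit 2196) (.e (nat_lit 393296) (nat_lit 26) (.e (nat_lit 475178) (nat_lit 24) (.e (nat_lit 516120) (nat_lit 1) (.e (nat_lit 164329) (nat_lit 230) (.e (nat_lit 163902) (nat_lit 12) (.e (nat_lit 433920) (nat_lit 34) .nil)))))) (.g (nat_lit 1) (.e (nat_lit 390730) (nat_lit 0) .nil) .nil)))) (.nd (nat_lit 9) 
(.lf (nat_lit 587049) (.g (nat_lit 1313) (.e (nat_lit 393289) (nat_lit 25) (.e (nat_lit 458788) (nat_lit 23) (.e (nat_lit 532503) (nat_lit 1) (.e (nat_lit 57653) (nat_lit 152) (.e (nat_lit 2633) (nat_lit 164) (.e (nat_lit 179968) (nat_lit 34) .nil)))))) (.g (nat_lit 1) (.e (nat_lit 390470) (nat_lit 0) .nil) .nil))) 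
(.lf (nat_lit 587561) (.g (nat_lit 487) (.e (nat_lit 401432) (nat_lit 7) (.e (nat_lit 409648) (nat_lit 18) (.e (nat_lit 303137) (nat_lit 10) .nil))) (.g (nat_lit 0) (.e (nat_lit 391390) (nat_lit 0) .nil) .nil))))) (.nd (nat_lit 8) (.nd (nat_lit 9) 
(.lf (nat_lit 586921) (.g (nat_lit 2016) (.e (nat_lit 393283) (nat_lit 24) (.e (nat_lit 434232) (nat_lit 23) (.e (nat_lit 532503) (nat_lit 1) (.e (nat_lit 57653) (nat_lit 152) (.e (nat_lit 2633) (nat_lit 164) (.e (nat_lit 179968) (nat_lit 34) .nil)))))) (.g (nat_lit 1) (.e (nat_lit 390265) (nat_lit 0) .nil) .nil))) 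
(.lf (nat_lit 587433) (.g (nat_lit 3397) (.e (nat_lit 401427) (nat_lit 3) (.e (nat_lit 204868) (nat_lit 29) (.e (nat_lit 360475) (nat_lit 8) (.e (nat_lit 557086) (nat_lit 11) (.e (nat_lit 24665) (nat_lit 14) .nil))))) (.g (nat_lit 1) (.e (nat_lit 391026) (nat_lit 0) .nil) .nil)))) (.nd (nat_lit 9) 
(.lf (nat_lit 587177) (.g (nat_lit 3468) (.e (nat_lit 393293) (nat_lit 26) (.e (nat_lit 475177) (nat_lit 24) (.e (nat_lit 516119) (nat_lit 1) (.e (nat_lit 164327) (nat_lit 230) (.e (nat_lit 163903) (nat_lit 12) (.e (nat_lit 426566) (nat_lit 34) .nil)))))) (.g (nat_lit 1) (.e (nat_lit 390600) (nat_lit 0) .nil) .nil))) 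
(.lf (nat_lit 587689) (.g (nat_lit 3116) (.e (nat_lit 401448) (nat_lit 10) (.e (nat_lit 434231) (nat_lit 23) (.e (nat_lit 532567) (nat_lit 16) (.e (nat_lit 401435) (nat_lit 9) (.e (nat_lit 426131) (nat_lit 3) (.e (nat_lit 204885) (nat_lit 33) .nil)))))) (.g (nat_lit 1) (.e (nat_lit 391944) (nat_lit 0) .nil) .nil)))))) (.nd (nat_lit 7) (.nd (nat_lit 8) (.nd (nat_lit 9) 
(.lf (nat_lit 586857) (.g (nat_lit 1451) (.e (nat_lit 393282) (nat_lit 24) (.e (nat_lit 434212) (nat_lit 18) (.e (nat_lit 5548) (nat_lit 306) (.e (nat_lit 2640) (nat_lit 165) (.e (nat_lit 180277) (nat_lit 32) .nil))))) (.g (nat_lit 0) (.e (nat_lit 390192) (nat_lit 0) .nil) .nil))) 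
(.lf (nat_lit 587369) (.g (nat_lit 719) (.e (nat_lit 401423) (nat_lit 2) (.e (nat_lit 196670) (nat_lit 14) (.e (nat_lit 73781) (nat_lit 32) .nil))) (.g (nat_lit 0) (.e (nat_lit 390880) (nat_lit 0) .nil) .nil)))) (.nd (nat_lit 9) 
(.lf (nat_lit 587113) (.g (nat_lit 3144) (.e (nat_lit 393291) (nat_lit 26) (.e (nat_lit 475177) (nat_lit 24) (.e (nat_lit 516120) (nat_lit 1) (.e (nat_lit 164332) (nat_lit 230) (.e (nat_lit 163905) (nat_lit 12) (.e (nat_lit 426566) (nat_lit 34) .nil)))))) (.g (nat_lit 1) (.e (nat_lit 390536) (nat_lit 0) .nil) .nil))) 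
(.lf (nat_lit 587625) (.g (nat_lit 3134) (.e (nat_lit 401444) (nat_lit 9) (.e (nat_lit 426163) (nat_lit 6) (.e (nat_lit 253991) (nat_lit 11) (.e (nat_lit 16466) (nat_lit 13) (.e (nat_lit 483409) (nat_lit 27) .nil))))) (.g (nat_lit 1) (.e (nat_lit 391583) (nat_lit 0) .nil) .nil))))) (.nd (nat_lit 8) (.nd (nat_lit 9) 
(.lf (nat_lit 586985) (.g (nat_lit 2779) (.e (nat_lit 393286) (nat_lit 25) (.e (nat_lit 458789) (nat_lit 23) (.e (nat_lit 532502) (nat_lit 1) (.e (nat_lit 57692) (nat_lit 156) (.e (nat_lit 163907) (nat_lit 12) (.e (nat_lit 426568) (nat_lit 34) .nil)))))) (.g (nat_lit 1) (.e (nat_lit 390386) (nat_lit 0) .nil) .nil))) 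
(.lf (nat_lit 587497) (.g (nat_lit 2504) (.e (nat_lit 401428) (nat_lit 3) (.e (nat_lit 204869) (nat_lit 29) (.e (nat_lit 360449) (nat_lit 0) (.e (nat_lit 3959) (nat_lit 239) (.e (nat_lit 1197) (nat_lit 88) .nil))))) (.g (nat_lit 0) (.e (nat_lit 391169) (nat_lit 0) .nil) .nil)))) (.nd (nat_lit 9) 
(.lf (nat_lit 587241) (.g (nat_lit 1282) (.e (nat_lit 393295) (nat_lit 26) (.e (nat_lit 475176) (nat_lit 24) (.e (nat_lit 516115) (nat_lit 1) (.e (nat_lit 164332) (nat_lit 230) .nil)))) (.g (nat_lit 0) (.e (nat_lit 390666) (nat_lit 0) .nil) .nil))) 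
(.lf (nat_lit 587753) (.g (nat_lit 1548) (.e (nat_lit 401448) (nat_lit 10) (.e (nat_lit 434289) (nat_lit 43) (.e (nat_lit 696344) (nat_lit 8) (.e (nat_lit 172085) (nat_lit 9) .nil)))) (.g (nat_lit 0) (.e (nat_lit 392057) (nat_lit 0) .nil) .nil)))))))) (.nd (nat_lit 5) (.nd (nat_lit 6) (.nd (nat_lit 7) (.nd (nat_lit 8) (.nd (nat_lit 9) 
(.lf (nat_lit 586777) (.g (nat_lit 2936) (.e (nat_lit 393281) (nat_lit 23) (.e (nat_lit 426099) (nat_lit 1) (.e (nat_lit 164332) (nat_lit 230) (.e (nat_lit 163878) (nat_lit 4) (.e (nat_lit 213032) (nat_lit 11) (.e (nat_lit 24655) (nat_lit 13) .nil)))))) (.g (nat_lit 1) (.e (nat_lit 390087) (nat_lit 0) .nil) .nil))) 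
(.lf (nat_lit 587289) (.g (nat_lit 2718) (.e (nat_lit 393296) (nat_lit 26) (.e (nat_lit 475178) (nat_lit 24) (.e (nat_lit 516116) (nat_lit 1) (.e (nat_lit 164330) (nat_lit 230) (.e (nat_lit 163902) (nat_lit 12) (.e (nat_lit 426566) (nat_lit 34) .nil)))))) (.g (nat_lit 1) (.e (nat_lit 390714) (nat_lit 0) .nil) .nil)))) (.nd (nat_lit 9) 
(.lf (nat_lit 587033) (.g (nat_lit 1514) (.e (nat_lit 393287) (nat_lit 25) (.e (nat_lit 458789) (nat_lit 23) (.e (nat_lit 532503) (nat_lit 1) (.e (nat_lit 57651) (nat_lit 152) .nil)))) (.g (nat_lit 0) (.e (nat_lit 390452) (nat_lit 0) .nil) .nil))) 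
(.lf (nat_lit 587545) (.g (nat_lit 4101) (.e (nat_lit 401428) (nat_lit 3) (.e (nat_lit 204869) (nat_lit 29) (.e (nat_lit 360475) (nat_lit 8) (.e (nat_lit 557065) (nat_lit 9) (.e (nat_lit 265) (nat_lit 21) .nil))))) (.g (nat_lit 0) (.e (nat_lit 391320) (nat_lit 0) .nil) .nil))))) (.nd (nat_lit 8) (.nd (nat_lit 9) 
(.lf (nat_lit 586905) (.g (nat_lit 2606) (.e (nat_lit 393283) (nat_lit 24) (.e (nat_lit 434209) (nat_lit 18) (.e (nat_lit 5224) (nat_lit 296) (.e (nat_lit 163882) (nat_lit 4) (.e (nat_lit 213032) (nat_lit 11) (.e (nat_lit 24660) (nat_lit 13) .nil)))))) (.g (nat_lit 1) (.e (nat_lit 390245) (nat_lit 0) .nil) .nil))) 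
(.lf (nat_lit 587417) (.g (nat_lit 2637) (.e (nat_lit 401426) (nat_lit 3) (.e (nat_lit 204855) (nat_lit 26) (.e (nat_lit 336176) (nat_lit 10) (.e (nat_lit 344133) (nat_lit 26) (.e (nat_lit 564992) (nat_lit 11) (.e (nat_lit 24665) (nat_lit 14) .nil)))))) (.g (nat_lit 1) (.e (nat_lit 390975) (nat_lit 0) .nil) .nil)))) (.nd (nat_lit 9) 
(.lf (nat_lit 587161) (.g (nat_lit 2307) (.e (nat_lit 393293) (nat_lit 26) (.e (nat_lit 475177) (nat_lit 24) (.e (nat_lit 516116) (nat_lit 1) (.e (nat_lit 164329) (nat_lit 230) (.e (nat_lit 163902) (nat_lit 12) (.e (nat_lit 426568) (nat_lit 34) .nil)))))) (.g (nat_lit 1) (.e (nat_lit 390584) (nat_lit 0) .nil) .nil))) 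
(.lf (nat_lit 587673) (.g (nat_lit 1858) (.e (nat_lit 401448) (nat_lit 10) (.e (nat_lit 434231) (nat_lit 23) (.e (nat_lit 532490) (nat_lit 0) (.e (nat_lit 6092) (nat_lit 332) .nil)))) (.g (nat_lit 0) (.e (nat_lit 391926) (nat_lit 0) .nil) .nil)))))) (.nd (nat_lit 7) (.nd (nat_lit 8) (.nd (nat_lit 9) 
(.lf (nat_lit 586841) (.g (nat_lit 2815) (.e (nat_lit 393282) (nat_lit 24) (.e (nat_lit 434209) (nat_lit 18) (.e (nat_lit 5224) (nat_lit 296) (.e (nat_lit 163882) (nat_lit 4) (.e (nat_lit 213032) (nat_lit 11) (.e (nat_lit 24660) (nat_lit 13) .nil)))))) (.g (nat_lit 1) (.e (nat_lit 390171) (nat_lit 0) .nil) .nil))) 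
(.lf (nat_lit 587353) (.g (nat_lit 3105) (.e (nat_lit 401414) (nat_lit 0) (.e (nat_lit 3238) (nat_lit 197) (.e (nat_lit 532535) (nat_lit 9) (.e (nat_lit 336176) (nat_lit 10) (.e (nat_lit 344132) (nat_lit 26) (.e (nat_lit 564992) (nat_lit 11) (.e (nat_lit 24665) (nat_lit 14) .nil))))))) (.g (nat_lit 1) (.e (nat_lit 390827) (nat_lit 0) .nil) .nil)))) (.nd (nat_lit 9) 
(.lf (nat_lit 587097) (.g (nat_lit 3775) (.e (nat_lit 393291) (nat_lit 26) (.e (nat_lit 475177) (nat_lit 24) (.e (nat_lit 516119) (nat_lit 1) (.e (nat_lit 164324) (nat_lit 230) (.e (nat_lit 163903) (nat_lit 12) (.e (nat_lit 426566) (nat_lit 34) .nil)))))) (.g (nat_lit 1) (.e (nat_lit 390520) (nat_lit 0) .nil) .nil))) 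
(.lf (nat_lit 587609) (.g (nat_lit 1155) (.e (nat_lit 401438) (nat_lit 9) (.e (nat_lit 426555) (nat_lit 32) (.e (nat_lit 376856) (nat_lit 21) .nil))) (.g (nat_lit 0) (.e (nat_lit 391510) (nat_lit 0) .nil) .nil))))) (.nd (nat_lit 8) (.nd (nat_lit 9) 
(.lf (nat_lit 586969) (.g (nat_lit 2891) (.e (nat_lit 393286) (nat_lit 25) (.e (nat_lit 458789) (nat_lit 23) (.e (nat_lit 532499) (nat_lit 1) (.e (nat_lit 57688) (nat_lit 156) (.e (nat_lit 163904) (nat_lit 12) (.e (nat_lit 426566) (nat_lit 34) .nil)))))) (.g (nat_lit 1) (.e (nat_lit 390370) (nat_lit 0) .nil) .nil))) 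
(.lf (nat_lit 587481) (.g (nat_lit 1595) (.e (nat_lit 401428) (nat_lit 3) (.e (nat_lit 204861) (nat_lit 26) (.e (nat_lit 336203) (nat_lit 12) (.e (nat_lit 385072) (nat_lit 31) .nil)))) (.g (nat_lit 0) (.e (nat_lit 391124) (nat_lit 0) .nil) .nil)))) (.nd (nat_lit 9) 
(.lf (nat_lit 587225) (.g (nat_lit 2941) (.e (nat_lit 393294) (nat_lit 26) (.e (nat_lit 475179) (nat_lit 24) (.e (nat_lit 516117) (nat_lit 1) (.e (nat_lit 164330) (nat_lit 230) (.e (nat_lit 163904) (nat_lit 12) (.e (nat_lit 426566) (nat_lit 34) .nil)))))) (.g (nat_lit 1) (.e (nat_lit 390648) (nat_lit 0) .nil) .nil))) 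
(.lf (nat_lit 587737) (.g (nat_lit 3765) (.e (nat_lit 401448) (nat_lit 10) (.e (nat_lit 434248) (nat_lit 28) (.e (nat_lit 573471) (nat_lit 11) (.e (nat_lit 16433) (nat_lit 9) (.e (nat_lit 425992) (nat_lit 0) .nil))))) (.g (nat_lit 0) (.e (nat_lit 392022) (nat_lit 0) .nil) .nil))))))) (.nd (nat_lit 6) (.nd (nat_lit 7) (.nd (nat_lit 8) (.nd (nat_lit 9) 
(.lf (nat_lit 586809) (.g (nat_lit 2820) (.e (nat_lit 393281) (nat_lit 23) (.e (nat_lit 426107) (nat_lit 1) (.e (nat_lit 164345) (nat_lit 240) (.e (nat_lit 2638) (nat_lit 165) (.e (nat_lit 180278) (nat_lit 32) (.e (nat_lit 1660) (nat_lit 115) .nil)))))) (.g (nat_lit 1) (.e (nat_lit 390124) (nat_lit 0) .nil) .nil))) 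
(.lf (nat_lit 587321) (.g (nat_lit 1757) (.e (nat_lit 393296) (nat_lit 26) (.e (nat_lit 475179) (nat_lit 24) (.e (nat_lit 516119) (nat_lit 1) (.e (nat_lit 164322) (nat_lit 230) .nil)))) (.g (nat_lit 0) (.e (nat_lit 390746) (nat_lit 0) .nil) .nil)))) (.nd (nat_lit 9) 
(.lf (nat_lit 587065) (.g (nat_lit 3367) (.e (nat_lit 393290) (nat_lit 26) (.e (nat_lit 475179) (nat_lit 24) (.e (nat_lit 516117) (nat_lit 1) (.e (nat_lit 164332) (nat_lit 230) (.e (nat_lit 163905) (nat_lit 12) (.e (nat_lit 426566) (nat_lit 34) .nil)))))) (.g (nat_lit 1) (.e (nat_lit 390487) (nat_lit 0) .nil) .nil))) 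
(.lf (nat_lit 587577) (.g (nat_lit 591) (.e (nat_lit 401435) (nat_lit 9) (.e (nat_lit 426436) (nat_lit 18) (.e (nat_lit 98335) (nat_lit 18) .nil))) (.g (nat_lit 0) (.e (nat_lit 391451) (nat_lit 0) .nil) .nil))))) (.nd (nat_lit 8) (.nd (nat_lit 9) 
(.lf (nat_lit 586937) (.g (nat_lit 3223) (.e (nat_lit 393284) (nat_lit 24) (.e (nat_lit 434233) (nat_lit 23) (.e (nat_lit 532499) (nat_lit 1) (.e (nat_lit 57686) (nat_lit 156) (.e (nat_lit 163903) (nat_lit 12) (.e (nat_lit 426568) (nat_lit 34) .nil)))))) (.g (nat_lit 1) (.e (nat_lit 390309) (nat_lit 0) .nil) .nil))) 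
(.lf (nat_lit 587449) (.g (nat_lit 3676) (.e (nat_lit 401427) (nat_lit 3) (.e (nat_lit 204869) (nat_lit 29) (.e (nat_lit 360474) (nat_lit 8) (.e (nat_lit 557065) (nat_lit 9) (.e (nat_lit 290) (nat_lit 21) .nil))))) (.g (nat_lit 0) (.e (nat_lit 391073) (nat_lit 0) .nil) .nil)))) (.nd (nat_lit 9) 
(.lf (nat_lit 587193) (.g (nat_lit 2756) (.e (nat_lit 393293) (nat_lit 26) (.e (nat_lit 475179) (nat_lit 24) (.e (nat_lit 516117) (nat_lit 1) (.e (nat_lit 164330) (nat_lit 230) (.e (nat_lit 163905) (nat_lit 12) .nil))))) (.g (nat_lit 0) (.e (nat_lit 390616) (nat_lit 0) .nil) .nil))) 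
(.lf (nat_lit 587705) (.g (nat_lit 3040) (.e (nat_lit 401448) (nat_lit 10) (.e (nat_lit 434232) (nat_lit 23) (.e (nat_lit 532568) (nat_lit 16) (.e (nat_lit 401446) (nat_lit 10) (.e (nat_lit 434231) (nat_lit 23) (.e (nat_lit 532569) (nat_lit 16) .nil)))))) (.g (nat_lit 1) (.e (nat_lit 391966) (nat_lit 0) .nil) .nil)))))) (.nd (nat_lit 7) (.nd (nat_lit 8) (.nd (nat_lit 9) 
(.lf (nat_lit 586873) (.g (nat_lit 3843) (.e (nat_lit 393282) (nat_lit 24) (.e (nat_lit 434231) (nat_lit 23) (.e (nat_lit 532500) (nat_lit 1) (.e (nat_lit 57691) (nat_lit 156) (.e (nat_lit 163907) (nat_lit 12) (.e (nat_lit 426568) (nat_lit 34) .nil)))))) (.g (nat_lit 1) (.e (nat_lit 390208) (nat_lit 0) .nil) .nil))) 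
(.lf (nat_lit 587385) (.g (nat_lit 1964) (.e (nat_lit 401425) (nat_lit 2) (.e (nat_lit 196666) (nat_lit 13) (.e (nat_lit 65610) (nat_lit 10) (.e (nat_lit 344097) (nat_lit 18) .nil)))) (.g (nat_lit 0) (.e (nat_lit 390920) (nat_lit 0) .nil) .nil)))) (.nd (nat_lit 9) 
(.lf (nat_lit 587129) (.g (nat_lit 2247) (.e (nat_lit 393291) (nat_lit 26) (.e (nat_lit 475179) (nat_lit 24) (.e (nat_lit 516120) (nat_lit 1) (.e (nat_lit 164322) (nat_lit 230) (.e (nat_lit 163902) (nat_lit 12) .nil))))) (.g (nat_lit 0) (.e (nat_lit 390552) (nat_lit 0) .nil) .nil))) 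
(.lf (nat_lit 587641) (.g (nat_lit 2198) (.e (nat_lit 401446) (nat_lit 10) (.e (nat_lit 434231) (nat_lit 23) (.e (nat_lit 532569) (nat_lit 16) (.e (nat_lit 401448) (nat_lit 10) (.e (nat_lit 434217) (nat_lit 19) .nil))))) (.g (nat_lit 0) (.e (nat_lit 391714) (nat_lit 0) .nil) .nil))))) (.nd (nat_lit 8) (.nd (nat_lit 9) 
(.lf (nat_lit 587001) (.g (nat_lit 2840) (.e (nat_lit 393287) (nat_lit 25) (.e (nat_lit 458774) (nat_lit 18) (.e (nat_lit 5548) (nat_lit 306) (.e (nat_lit 2638) (nat_lit 165) (.e (nat_lit 180277) (nat_lit 32) (.e (nat_lit 1660) (nat_lit 115) .nil)))))) (.g (nat_lit 1) (.e (nat_lit 390414) (nat_lit 0) .nil) .nil))) 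
(.lf (nat_lit 587513) (.g (nat_lit 3184) (.e (nat_lit 401428) (nat_lit 3) (.e (nat_lit 204869) (nat_lit 29) (.e (nat_lit 360451) (nat_lit 0) (.e (nat_lit 4157) (nat_lit 250) .nil)))) (.g (nat_lit 0) (.e (nat_lit 391192) (nat_lit 0) .nil) .nil)))) (.nd (nat_lit 9) 
(.lf (nat_lit 587257) (.g (nat_lit 2742) (.e (nat_lit 393295) (nat_lit 26) (.e (nat_lit 475179) (nat_lit 24) (.e (nat_lit 516115) (nat_lit 1) (.e (nat_lit 164332) (nat_lit 230) (.e (nat_lit 163905) (nat_lit 12) .nil))))) (.g (nat_lit 0) (.e (nat_lit 390682) (nat_lit 0) .nil) .nil))) 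
(.lf (nat_lit 587769) (.g (nat_lit 5766) (.e (nat_lit 401451) (nat_lit 12) (.e (nat_lit 475183) (nat_lit 29) (.e (nat_lit 557097) (nat_lit 13) (.e (nat_lit 172115) (nat_lit 10) (.e (nat_lit 434231) (nat_lit 23) (.e (nat_lit 532569) (nat_lit 16) .nil)))))) (.g (nat_lit 1) (.e (nat_lit 392103) (nat_lit 0) .nil) .nil)))))))))) 
(.nd (nat_lit 3) (.nd (nat_lit 4) (.nd (nat_lit 5) (.nd (nat_lit 6) (.nd (nat_lit 7) 
(.nd (nat_lit 8) (.nd (nat_lit 9) 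
(.lf (nat_lit 586757) (.g (nat_lit 2442) (.e (nat_lit 393281) (nat_lit 23) (.e (nat_lit 426098) (nat_lit 1) (.e (nat_lit 164347) (nat_lit 240) (.e (nat_lit 2638) (nat_lit 165) (.e (nat_lit 180278) (nat_lit 32) (.e (nat_lit 1660) (nat_lit 115) .nil)))))) (.g (nat_lit 1) (.e (nat_lit 390064) (nat_lit 0) .nil) .nil))) 
(.lf (nat_lit 587269) (.g (nat_lit 3867) (.e (nat_lit 393296) (nat_lit 26) (.e (nat_lit 475176) (nat_lit 24) (.e (nat_lit 516115) (nat_lit 1) (.e (nat_lit 164327) (nat_lit 230) (.e (nat_lit 163903) (nat_lit 12) (.e (nat_lit 426566) (nat_lit 34) .nil)))))) (.g (nat_lit 1) (.e (nat_lit 390694) (nat_lit 0) .nil) .nil)))) (.nd (nat_lit 9) 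
(.lf (nat_lit 587013) (.g (nat_lit 2960) (.e (nat_lit 393287) (nat_lit 25) (.e (nat_lit 458789) (nat_lit 23) (.e (nat_lit 532499) (nat_lit 1) (.e (nat_lit 57686) (nat_lit 156) (.e (nat_lit 163902) (nat_lit 12) (.e (nat_lit 426568) (nat_lit 34) .nil)))))) (.g (nat_lit 1) (.e (nat_lit 390432) (nat_lit 0) .nil) .nil))) 
(.lf (nat_lit 587525) (.g (nat_lit 3899) (.e (nat_lit 401428) (nat_lit 3) (.e (nat_lit 204869) (nat_lit 29) (.e (nat_lit 360473) (nat_lit 8) (.e (nat_lit 557087) (nat_lit 11) (.e (nat_lit 24661) (nat_lit 14) .nil))))) (.g (nat_lit 1) (.e (nat_lit 391246) (nat_lit 0) .nil) .nil))))) (.nd (nat_lit 8) (.nd (nat_lit 9) 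
(.lf (nat_lit 586885) (.g (nat_lit 1424) (.e (nat_lit 393282) (nat_lit 24) (.e (nat_lit 434232) (nat_lit 23) (.e (nat_lit 532504) (nat_lit 1) (.e (nat_lit 57692) (nat_lit 156) (.e (nat_lit 163907) (nat_lit 12) .nil))))) (.g (nat_lit 0) (.e (nat_lit 390220) (nat_lit 0) .nil) .nil))) 
(.lf (nat_lit 587397) (.g (nat_lit 3049) (.e (nat_lit 401425) (nat_lit 2) (.e (nat_lit 196666) (nat_lit 13) (.e (nat_lit 65617) (nat_lit 10) (.e (nat_lit 344130) (nat_lit 26) (.e (nat_lit 557087) (nat_lit 11) (.e (nat_lit 32512) (nat_lit 14) .nil)))))) (.g (nat_lit 1) (.e (nat_lit 390932) (nat_lit 0) .nil) .nil)))) (.nd (nat_lit 9) 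
(.lf (nat_lit 587141) (.g (nat_lit 1980) (.e (nat_lit 393292) (nat_lit 26) (.e (nat_lit 475179) (nat_lit 24) (.e (nat_lit 516115) (nat_lit 1) (.e (nat_lit 164332) (nat_lit 230) .nil)))) (.g (nat_lit 0) (.e (nat_lit 390564) (nat_lit 0) .nil) .nil))) 
(.lf (nat_lit 587653) (.g (nat_lit 2711) (.e (nat_lit 401446) (nat_lit 10) (.e (nat_lit 434289) (nat_lit 43) (.e (nat_lit 696327) (nat_lit 5) (.e (nat_lit 3004) (nat_lit 186) (.e (nat_lit 442390) (nat_lit 11) (.e (nat_lit 336232) (nat_lit 14) .nil)))))) (.g (nat_lit 1) (.e (nat_lit 391796) (nat_lit 0) .nil) .nil)))))) (.nd (nat_lit 7) (.nd (nat_lit 8) (.nd (nat_lit 9) 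
(.lf (nat_lit 586821) (.g (nat_lit 4088) (.e (nat_lit 393281) (nat_lit 23) (.e (nat_lit 426133) (nat_lit 3) (.e (nat_lit 204829) (nat_lit 18) (.e (nat_lit 57688) (nat_lit 156) (.e (nat_lit 163907) (nat_lit 12) (.e (nat_lit 426568) (nat_lit 34) .nil)))))) (.g (nat_lit 1) (.e (nat_lit 390146) (nat_lit 0) .nil) .nil))) 
(.lf (nat_lit 587333) (.g (nat_lit 1183) (.e (nat_lit 393297) (nat_lit 27) (.e (nat_lit 491566) (nat_lit 12) (.e (nat_lit 385044) (nat_lit 21) .nil))) (.g (nat_lit 0) (.e (nat_lit 390761) (nat_lit 0) .nil) .nil)))) (.nd (nat_lit 9) 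
(.lf (nat_lit 587077) (.g (nat_lit 2694) (.e (nat_lit 393291) (nat_lit 26) (.e (nat_lit 475177) (nat_lit 24) (.e (nat_lit 516115) (nat_lit 1) (.e (nat_lit 164325) (nat_lit 230) (.e (nat_lit 163903) (nat_lit 12) (.e (nat_lit 426567) (nat_lit 34) .nil)))))) (.g (nat_lit 1) (.e (nat_lit 390500) (nat_lit 0) .nil) .nil))) 
(.lf (nat_lit 587589) (.g (nat_lit 2553) (.e (nat_lit 401437) (nat_lit 9) (.e (nat_lit 426533) (nat_lit 28) (.e (nat_lit 344069) (nat_lit 0) (.e (nat_lit 3090) (nat_lit 191) (.e (nat_lit 483409) (nat_lit 27) .nil))))) (.g (nat_lit 1) (.e (nat_lit 391481) (nat_lit 0) .nil) .nil))))) (.nd (nat_lit 8) (.nd (nat_lit 9) 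
(.lf (nat_lit 586949) (.g (nat_lit 2710) (.e (nat_lit 393285) (nat_lit 25) (.e (nat_lit 458789) (nat_lit 23) (.e (nat_lit 532504) (nat_lit 1) (.e (nat_lit 57691) (nat_lit 156) (.e (nat_lit 163907) (nat_lit 12) .nil))))) (.g (nat_lit 0) (.e (nat_lit 390331) (nat_lit 0) .nil) .nil))) 
(.lf (nat_lit 587461) (.g (nat_lit 682) (.e (nat_lit 401428) (nat_lit 3) (.e (nat_lit 204852) (nat_lit 26) (.e (nat_lit 343808) (nat_lit 12) .nil))) (.g (nat_lit 0) (.e (nat_lit 391095) (nat_lit 0) .nil) .nil)))) (.nd (nat_lit 9) 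
(.lf (nat_lit 587205) (.g (nat_lit 3142) (.e (nat_lit 393294) (nat_lit 26) (.e (nat_lit 475176) (nat_lit 24) (.e (nat_lit 516115) (nat_lit 1) (.e (nat_lit 164325) (nat_lit 230) (.e (nat_lit 163906) (nat_lit 12) (.e (nat_lit 426566) (nat_lit 34) .nil)))))) (.g (nat_lit 1) (.e (nat_lit 390628) (nat_lit 0) .nil) .nil))) 
(.lf (nat_lit 587717) (.g (nat_lit 3271) (.e (nat_lit 401448) (nat_lit 10) (.e (nat_lit 434242) (nat_lit 28) (.e (nat_lit 573471) (nat_lit 11) (.e (nat_lit 16448) (nat_lit 10) (.e (nat_lit 434231) (nat_lit 23) (.e (nat_lit 532569) (nat_lit 16) .nil)))))) (.g (nat_lit 1) (.e (nat_lit 391985) (nat_lit 0) .nil) .nil))))))) (.nd (nat_lit 6) (.nd (nat_lit 7) (.nd (nat_lit 8) (.nd (nat_lit 9) 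
(.lf (nat_lit 586789) (.g (nat_lit 1855) (.e (nat_lit 393281) (nat_lit 23) (.e (nat_lit 426100) (nat_lit 1) (.e (nat_lit 164330) (nat_lit 230) (.e (nat_lit 163893) (nat_lit 9) .nil)))) (.g (nat_lit 0) (.e (nat_lit 390102) (nat_lit 0) .nil) .nil))) 
(.lf (nat_lit 587301) (.g (nat_lit 4527) (.e (nat_lit 393296) (nat_lit 26) (.e (nat_lit 475178) (nat_lit 24) (.e (nat_lit 516119) (nat_lit 1) (.e (nat_lit 164322) (nat_lit 230) (.e (nat_lit 163902) (nat_lit 12) (.e (nat_lit 426566) (nat_lit 34) .nil)))))) (.g (nat_lit 1) (.e (nat_lit 390726) (nat_lit 0) .nil) .nil)))) (.nd (nat_lit 9) 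
(.lf (nat_lit 587045) (.g (nat_lit 2733) (.e (nat_lit 393287) (nat_lit 25) (.e (nat_lit 458789) (nat_lit 23) (.e (nat_lit 532504) (nat_lit 1) (.e (nat_lit 57692) (nat_lit 156) (.e (nat_lit 163905) (nat_lit 12) (.e (nat_lit 426568) (nat_lit 34) .nil)))))) (.g (nat_lit 1) (.e (nat_lit 390464) (nat_lit 0) .nil) .nil))) 
(.lf (nat_lit 587557) (.g (nat_lit 913) (.e (nat_lit 401432) (nat_lit 7) (.e (nat_lit 409646) (nat_lit 18) (.e (nat_lit 303136) (nat_lit 10) .nil))) (.g (nat_lit 0) (.e (nat_lit 391379) (nat_lit 0) .nil) .nil))))) (.nd (nat_lit 8) (.nd (nat_lit 9) 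
(.lf (nat_lit 586917) (.g (nat_lit 3596) (.e (nat_lit 393283) (nat_lit 24) (.e (nat_lit 434231) (nat_lit 23) (.e (nat_lit 532500) (nat_lit 1) (.e (nat_lit 57692) (nat_lit 156) (.e (nat_lit 163907) (nat_lit 12) (.e (nat_lit 426568) (nat_lit 34) .nil)))))) (.g (nat_lit 1) (.e (nat_lit 390261) (nat_lit 0) .nil) .nil))) 
(.lf (nat_lit 587429) (.g (nat_lit 4001) (.e (nat_lit 401427) (nat_lit 3) (.e (nat_lit 204859) (nat_lit 26) (.e (nat_lit 336206) (nat_lit 12) (.e (nat_lit 385074) (nat_lit 31) (.e (nat_lit 573484) (nat_lit 13) (.e (nat_lit 65630) (nat_lit 14) .nil)))))) (.g (nat_lit 1) (.e (nat_lit 391010) (nat_lit 0) .nil) .nil)))) (.nd (nat_lit 9) 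
(.lf (nat_lit 587173) (.g (nat_lit 2372) (.e (nat_lit 393293) (nat_lit 26) (.e (nat_lit 475177) (nat_lit 24) (.e (nat_lit 516119) (nat_lit 1) (.e (nat_lit 164324) (nat_lit 230) (.e (nat_lit 163903) (nat_lit 12) (.e (nat_lit 426567) (nat_lit 34) .nil)))))) (.g (nat_lit 1) (.e (nat_lit 390596) (nat_lit 0) .nil) .nil))) 
(.lf (nat_lit 587685) (.g (nat_lit 2498) (.e (nat_lit 401448) (nat_lit 10) (.e (nat_lit 434231) (nat_lit 23) (.e (nat_lit 532523) (nat_lit 7) (.e (nat_lit 319539) (nat_lit 19) (.e (nat_lit 311315) (nat_lit 3) .nil))))) (.g (nat_lit 0) (.e (nat_lit 391939) (nat_lit 0) .nil) .nil)))))) (.nd (nat_lit 7) (.nd (nat_lit 8) (.nd (nat_lit 9) 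
(.lf (nat_lit 586853) (.g (nat_lit 3449) (.e (nat_lit 393282) (nat_lit 24) (.e (nat_lit 434209) (nat_lit 18) (.e (nat_lit 5548) (nat_lit 306) (.e (nat_lit 2640) (nat_lit 165) (.e (nat_lit 180277) (nat_lit 32) (.e (nat_lit 1659) (nat_lit 115) .nil)))))) (.g (nat_lit 1) (.e (nat_lit 390188) (nat_lit 0) .nil) .nil))) 
(.lf (nat_lit 587365) (.g (nat_lit 3187) (.e (nat_lit 401423) (nat_lit 2) (.e (nat_lit 196666) (nat_lit 13) (.e (nat_lit 65610) (nat_lit 10) (.e (nat_lit 344097) (nat_lit 18) (.e (nat_lit 4075) (nat_lit 245) .nil))))) (.g (nat_lit 0) (.e (nat_lit 390873) (nat_lit 0) .nil) .nil)))) (.nd (nat_lit 9) 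
(.lf (nat_lit 587109) (.g (nat_lit 4305) (.e (nat_lit 393291) (nat_lit 26) (.e (nat_lit 475177) (nat_lit 24) (.e (nat_lit 516120) (nat_lit 1) (.e (nat_lit 164330) (nat_lit 230) (.e (nat_lit 163902) (nat_lit 12) (.e (nat_lit 426568) (nat_lit 34) .nil)))))) (.g (nat_lit 1) (.e (nat_lit 390532) (nat_lit 0) .nil) .nil))) 
(.lf (nat_lit 587621) (.g (nat_lit 3953) (.e (nat_lit 401444) (nat_lit 9) (.e (nat_lit 426163) (nat_lit 6) (.e (nat_lit 253991) (nat_lit 11) (.e (nat_lit 16444) (nat_lit 9) (.e (nat_lit 426503) (nat_lit 27) (.e (nat_lit 336232) (nat_lit 14) .nil)))))) (.g (nat_lit 1) (.e (nat_lit 391576) (nat_lit 0) .nil) .nil))))) (.nd (nat_lit 8) (.nd (nat_lit 9) 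
(.lf (nat_lit 586981) (.g (nat_lit 2955) (.e (nat_lit 393286) (nat_lit 25) (.e (nat_lit 458789) (nat_lit 23) (.e (nat_lit 532502) (nat_lit 1) (.e (nat_lit 57688) (nat_lit 156) (.e (nat_lit 163903) (nat_lit 12) (.e (nat_lit 426566) (nat_lit 34) .nil)))))) (.g (nat_lit 1) (.e (nat_lit 390382) (nat_lit 0) .nil) .nil))) 
(.lf (nat_lit 587493) (.g (nat_lit 3163) (.e (nat_lit 401428) (nat_lit 3) (.e (nat_lit 204868) (nat_lit 29) (.e (nat_lit 360475) (nat_lit 8) (.e (nat_lit 557087) (nat_lit 11) (.e (nat_lit 24664) (nat_lit 14) .nil))))) (.g (nat_lit 1) (.e (nat_lit 391165) (nat_lit 0) .nil) .nil)))) (.nd (nat_lit 9) 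
(.lf (nat_lit 587237) (.g (nat_lit 1595) (.e (nat_lit 393294) (nat_lit 26) (.e (nat_lit 475214) (nat_lit 42) (.e (nat_lit 728832) (nat_lit 4) (.e (nat_lit 213030) (nat_lit 11) (.e (nat_lit 24656) (nat_lit 13) .nil))))) (.g (nat_lit 1) (.e (nat_lit 390662) (nat_lit 0) .nil) .nil))) 
(.lf (nat_lit 587749) (.g (nat_lit 354) (.e (nat_lit 401448) (nat_lit 10) (.e (nat_lit 434289) (nat_lit 43) (.e (nat_lit 696328) (nat_lit 5) .nil))) (.g (nat_lit 0) (.e (nat_lit 392050) (nat_lit 0) .nil) .nil)))))))) (.nd (nat_lit 5) (.nd (nat_lit 6) (.nd (nat_lit 7) (.nd (nat_lit 8) (.nd (nat_lit 9) 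
(.lf (nat_lit 586773) (.g (nat_lit 2735) (.e (nat_lit 393281) (nat_lit 23) (.e (nat_lit 426099) (nat_lit 1) (.e (nat_lit 164332) (nat_lit 230) (.e (nat_lit 163877) (nat_lit 4) (.e (nat_lit 213032) (nat_lit 11) (.e (nat_lit 24658) (nat_lit 13) .nil)))))) (.g (nat_lit 1) (.e (nat_lit 390083) (nat_lit 0) .nil) .nil))) 
(.lf (nat_lit 587285) (.g (nat_lit 2047) (.e (nat_lit 393296) (nat_lit 26) (.e (nat_lit 475177) (nat_lit 24) (.e (nat_lit 516120) (nat_lit 1) (.e (nat_lit 164330) (nat_lit 230) (.e (nat_lit 163915) (nat_lit 12) (.e (nat_lit 433920) (nat_lit 34) .nil)))))) (.g (nat_lit 1) (.e (nat_lit 390710) (nat_lit 0) .nil) .nil)))) (.nd (nat_lit 9) 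
(.lf (nat_lit 587029) (.g (nat_lit 3001) (.e (nat_lit 393287) (nat_lit 25) (.e (nat_lit 458789) (nat_lit 23) (.e (nat_lit 532502) (nat_lit 1) (.e (nat_lit 57688) (nat_lit 156) (.e (nat_lit 163903) (nat_lit 12) (.e (nat_lit 426568) (nat_lit 34) .nil)))))) (.g (nat_lit 1) (.e (nat_lit 390448) (nat_lit 0) .nil) .nil))) 
(.lf (nat_lit 587541) (.g (nat_lit 4083) (.e (nat_lit 401428) (nat_lit 3) (.e (nat_lit 204869) (nat_lit 29) (.e (nat_lit 360475) (nat_lit 8) (.e (nat_lit 557065) (nat_lit 9) (.e (nat_lit 228) (nat_lit 21) .nil))))) (.g (nat_lit 0) (.e (nat_lit 391316) (nat_lit 0) .nil) .nil))))) (.nd (nat_lit 8) (.nd (nat_lit 9) 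
(.lf (nat_lit 586901) (.g (nat_lit 3132) (.e (nat_lit 393282) (nat_lit 24) (.e (nat_lit 434275) (nat_lit 39) (.e (nat_lit 663584) (nat_lit 12) (.e (nat_lit 163999) (nat_lit 38) (.e (nat_lit 639020) (nat_lit 16) (.e (nat_lit 65627) (nat_lit 13) .nil)))))) (.g (nat_lit 1) (.e (nat_lit 390237) (nat_lit 0) .nil) .nil))) 
(.lf (nat_lit 587413) (.g (nat_lit 1003) (.e (nat_lit 401425) (nat_lit 2) (.e (nat_lit 196681) (nat_lit 17) (.e (nat_lit 131117) (nat_lit 10) .nil))) (.g (nat_lit 0) (.e (nat_lit 390954) (nat_lit 0) .nil) .nil)))) (.nd (nat_lit 9) 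
(.lf (nat_lit 587157) (.g (nat_lit 3613) (.e (nat_lit 393293) (nat_lit 26) (.e (nat_lit 475177) (nat_lit 24) (.e (nat_lit 516115) (nat_lit 1) (.e (nat_lit 164327) (nat_lit 230) (.e (nat_lit 163903) (nat_lit 12) (.e (nat_lit 426566) (nat_lit 34) .nil)))))) (.g (nat_lit 1) (.e (nat_lit 390580) (nat_lit 0) .nil) .nil))) 
(.lf (nat_lit 587669) (.g (nat_lit 1557) (.e (nat_lit 401447) (nat_lit 10) (.e (nat_lit 434272) (nat_lit 38) (.e (nat_lit 655378) (nat_lit 4) (.e (nat_lit 172113) (nat_lit 10) .nil)))) (.g (nat_lit 0) (.e (nat_lit 391841) (nat_lit 0) .nil) .nil)))))) (.nd (nat_lit 7) (.nd (nat_lit 8) (.nd (nat_lit 9) 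
(.lf (nat_lit 586837) (.g (nat_lit 2140) (.e (nat_lit 401152) (nat_lit 23) (.e (nat_lit 426108) (nat_lit 1) (.e (nat_lit 164330) (nat_lit 230) (.e (nat_lit 163880) (nat_lit 4) .nil)))) (.g (nat_lit 0) (.e (nat_lit 390165) (nat_lit 0) .nil) .nil))) 
(.lf (nat_lit 587349) (.g (nat_lit 1896) (.e (nat_lit 401408) (nat_lit 0) (.e (nat_lit 3309) (nat_lit 202) (.e (nat_lit 573484) (nat_lit 13) (.e (nat_lit 65563) (nat_lit 1) .nil)))) (.g (nat_lit 0) (.e (nat_lit 390806) (nat_lit 0) .nil) .nil)))) (.nd (nat_lit 9) 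
(.lf (nat_lit 587093) (.g (nat_lit 2693) (.e (nat_lit 393291) (nat_lit 26) (.e (nat_lit 475177) (nat_lit 24) (.e (nat_lit 516117) (nat_lit 1) (.e (nat_lit 164331) (nat_lit 230) (.e (nat_lit 163902) (nat_lit 12) (.e (nat_lit 426566) (nat_lit 34) .nil)))))) (.g (nat_lit 1) (.e (nat_lit 390516) (nat_lit 0) .nil) .nil))) 
(.lf (nat_lit 587605) (.g (nat_lit 2817) (.e (nat_lit 401438) (nat_lit 9) (.e (nat_lit 426533) (nat_lit 28) (.e (nat_lit 344069) (nat_lit 0) (.e (nat_lit 3088) (nat_lit 191) (.e (nat_lit 483410) (nat_lit 27) .nil))))) (.g (nat_lit 1) (.e (nat_lit 391504) (nat_lit 0) .nil) .nil))))) (.nd (nat_lit 8) (.nd (nat_lit 9) 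
(.lf (nat_lit 586965) (.g (nat_lit 3627) (.e (nat_lit 393286) (nat_lit 25) (.e (nat_lit 458789) (nat_lit 23) (.e (nat_lit 532499) (nat_lit 1) (.e (nat_lit 57687) (nat_lit 156) (.e (nat_lit 163903) (nat_lit 12) (.e (nat_lit 426568) (nat_lit 34) .nil)))))) (.g (nat_lit 1) (.e (nat_lit 390366) (nat_lit 0) .nil) .nil))) 
(.lf (nat_lit 587477) (.g (nat_lit 928) (.e (nat_lit 401428) (nat_lit 3) (.e (nat_lit 204861) (nat_lit 26) (.e (nat_lit 336075) (nat_lit 9) (.e (nat_lit 336306) (nat_lit 15) .nil)))) (.g (nat_lit 0) (.e (nat_lit 391116) (nat_lit 0) .nil) .nil)))) (.nd (nat_lit 9) 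
(.lf (nat_lit 587221) (.g (nat_lit 3383) (.e (nat_lit 393294) (nat_lit 26) (.e (nat_lit 475179) (nat_lit 24) (.e (nat_lit 516115) (nat_lit 1) (.e (nat_lit 164327) (nat_lit 230) (.e (nat_lit 163903) (nat_lit 12) (.e (nat_lit 426567) (nat_lit 34) .nil)))))) (.g (nat_lit 1) (.e (nat_lit 390644) (nat_lit 0) .nil) .nil))) 
(.lf (nat_lit 587733) (.g (nat_lit 1572) (.e (nat_lit 401448) (nat_lit 10) (.e (nat_lit 434247) (nat_lit 28) (.e (nat_lit 573469) (nat_lit 11) (.e (nat_lit 16446) (nat_lit 9) .nil)))) (.g (nat_lit 0) (.e (nat_lit 392011) (nat_lit 0) .nil) .nil))))))) (.nd (nat_lit 6) (.nd (nat_lit 7) (.nd (nat_lit 8) (.nd (nat_lit 9) 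
(.lf (nat_lit 586805) (.g (nat_lit 2056) (.e (nat_lit 393281) (nat_lit 23) (.e (nat_lit 426100) (nat_lit 1) (.e (nat_lit 164345) (nat_lit 240) (.e (nat_lit 2638) (nat_lit 165) (.e (nat_lit 180278) (nat_lit 32) (.e (nat_lit 1658) (nat_lit 115) .nil)))))) (.g (nat_lit 1) (.e (nat_lit 390118) (nat_lit 0) .nil) .nil))) 
(.lf (nat_lit 587317) (.g (nat_lit 3560) (.e (nat_lit 393296) (nat_lit 26) (.e (nat_lit 475179) (nat_lit 24) (.e (nat_lit 516117) (nat_lit 1) (.e (nat_lit 164330) (nat_lit 230) (.e (nat_lit 163913) (nat_lit 12) (.e (nat_lit 433920) (nat_lit 34) .nil)))))) (.g (nat_lit 1) (.e (nat_lit 390742) (nat_lit 0) .nil) .nil)))) (.nd (nat_lit 9) 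
(.lf (nat_lit 587061) (.g (nat_lit 2548) (.e (nat_lit 393290) (nat_lit 26) (.e (nat_lit 475179) (nat_lit 24) (.e (nat_lit 516115) (nat_lit 1) (.e (nat_lit 164332) (nat_lit 230) (.e (nat_lit 163905) (nat_lit 12) .nil))))) (.g (nat_lit 0) (.e (nat_lit 390483) (nat_lit 0) .nil) .nil))) 
(.lf (nat_lit 587573) (.g (nat_lit 1557) (.e (nat_lit 401434) (nat_lit 9) (.e (nat_lit 426140) (nat_lit 3) (.e (nat_lit 204846) (nat_lit 24) (.e (nat_lit 319504) (nat_lit 10) .nil)))) (.g (nat_lit 0) (.e (nat_lit 391439) (nat_lit 0) .nil) .nil))))) (.nd (nat_lit 8) (.nd (nat_lit 9) 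
(.lf (nat_lit 586933) (.g (nat_lit 4002) (.e (nat_lit 393283) (nat_lit 24) (.e (nat_lit 434271) (nat_lit 38) (.e (nat_lit 655378) (nat_lit 4) (.e (nat_lit 172126) (nat_lit 14) (.e (nat_lit 491569) (nat_lit 13) .nil))))) (.g (nat_lit 1) (.e (nat_lit 390295) (nat_lit 0) .nil) .nil))) 
(.lf (nat_lit 587445) (.g (nat_lit 3553) (.e (nat_lit 401427) (nat_lit 3) (.e (nat_lit 204869) (nat_lit 29) (.e (nat_lit 360473) (nat_lit 8) (.e (nat_lit 557087) (nat_lit 11) (.e (nat_lit 24663) (nat_lit 14) .nil))))) (.g (nat_lit 1) (.e (nat_lit 391069) (nat_lit 0) .nil) .nil)))) (.nd (nat_lit 9) 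
(.lf (nat_lit 587189) (.g (nat_lit 3704) (.e (nat_lit 393293) (nat_lit 26) (.e (nat_lit 475179) (nat_lit 24) (.e (nat_lit 516115) (nat_lit 1) (.e (nat_lit 164325) (nat_lit 230) (.e (nat_lit 163907) (nat_lit 12) (.e (nat_lit 426567) (nat_lit 34) .nil)))))) (.g (nat_lit 1) (.e (nat_lit 390612) (nat_lit 0) .nil) .nil))) 
(.lf (nat_lit 587701) (.g (nat_lit 2273) (.e (nat_lit 401448) (nat_lit 10) (.e (nat_lit 434232) (nat_lit 23) (.e (nat_lit 532523) (nat_lit 7) (.e (nat_lit 319539) (nat_lit 19) (.e (nat_lit 311315) (nat_lit 3) .nil))))) (.g (nat_lit 0) (.e (nat_lit 391958) (nat_lit 0) .nil) .nil)))))) (.nd (nat_lit 7) (.nd (nat_lit 8) (.nd (nat_lit 9) 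
(.lf (nat_lit 586869) (.g (nat_lit 1983) (.e (nat_lit 393282) (nat_lit 24) (.e (nat_lit 434231) (nat_lit 23) (.e (nat_lit 532500) (nat_lit 1) (.e (nat_lit 57689) (nat_lit 156) .nil)))) (.g (nat_lit 0) (.e (nat_lit 390204) (nat_lit 0) .nil) .nil))) 
(.lf (nat_lit 587381) (.g (nat_lit 784) (.e (nat_lit 401425) (nat_lit 2) (.e (nat_lit 196666) (nat_lit 13) (.e (nat_lit 65592) (nat_lit 9) .nil))) (.g (nat_lit 0) (.e (nat_lit 390915) (nat_lit 0) .nil) .nil)))) (.nd (nat_lit 9) 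
(.lf (nat_lit 587125) (.g (nat_lit 2706) (.e (nat_lit 393291) (nat_lit 26) (.e (nat_lit 475179) (nat_lit 24) (.e (nat_lit 516117) (nat_lit 1) (.e (nat_lit 164330) (nat_lit 230) (.e (nat_lit 163904) (nat_lit 12) (.e (nat_lit 426566) (nat_lit 34) .nil)))))) (.g (nat_lit 1) (.e (nat_lit 390548) (nat_lit 0) .nil) .nil))) 
(.lf (nat_lit 587637) (.g (nat_lit 4355) (.e (nat_lit 401446) (nat_lit 10) (.e (nat_lit 434231) (nat_lit 23) (.e (nat_lit 532490) (nat_lit 0) (.e (nat_lit 6114) (nat_lit 332) (.e (nat_lit 1374) (nat_lit 104) (.e (nat_lit 303118) (nat_lit 3) (.e (nat_lit 204885) (nat_lit 33) .nil))))))) (.g (nat_lit 1) (.e (nat_lit 391696) (nat_lit 0) .nil) .nil))))) (.nd (nat_lit 8) (.nd (nat_lit 9) 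
(.lf (nat_lit 586997) (.g (nat_lit 2841) (.e (nat_lit 393286) (nat_lit 25) (.e (nat_lit 458789) (nat_lit 23) (.e (nat_lit 532504) (nat_lit 1) (.e (nat_lit 57692) (nat_lit 156) (.e (nat_lit 163907) (nat_lit 12) (.e (nat_lit 426568) (nat_lit 34) .nil)))))) (.g (nat_lit 1) (.e (nat_lit 390398) (nat_lit 0) .nil) .nil))) 
(.lf (nat_lit 587509) (.g (nat_lit 3179) (.e (nat_lit 401428) (nat_lit 3) (.e (nat_lit 204869) (nat_lit 29) (.e (nat_lit 360451) (nat_lit 0) (.e (nat_lit 4063) (nat_lit 245) .nil)))) (.g (nat_lit 0) (.e (nat_lit 391187) (nat_lit 0) .nil) .nil)))) (.nd (nat_lit 9) 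
(.lf (nat_lit 587253) (.g (nat_lit 4105) (.e (nat_lit 393295) (nat_lit 26) (.e (nat_lit 475179) (nat_lit 24) (.e (nat_lit 516115) (nat_lit 1) (.e (nat_lit 164325) (nat_lit 230) (.e (nat_lit 163903) (nat_lit 12) (.e (nat_lit 426566) (nat_lit 34) .nil)))))) (.g (nat_lit 1) (.e (nat_lit 390678) (nat_lit 0) .nil) .nil))) 
(.lf (nat_lit 587765) (.g (nat_lit 3841) (.e (nat_lit 401450) (nat_lit 12) (.e (nat_lit 475185) (nat_lit 29) (.e (nat_lit 557109) (nat_lit 15) (.e (nat_lit 188450) (nat_lit 23) (.e (nat_lit 204884) (nat_lit 33) .nil))))) (.g (nat_lit 1) (.e (nat_lit 392095) (nat_lit 0) .nil) .nil))))))))) (.nd (nat_lit 4) (.nd (nat_lit 5) (.nd (nat_lit 6) (.nd (nat_lit 7) (.nd (nat_lit 8) (.nd (nat_lit 9) 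
(.lf (nat_lit 586765) (.g (nat_lit 2009) (.e (nat_lit 393281) (nat_lit 23) (.e (nat_lit 426099) (nat_lit 1) (.e (nat_lit 164330) (nat_lit 230) (.e (nat_lit 163880) (nat_lit 4) (.e (nat_lit 213030) (nat_lit 11) (.e (nat_lit 24660) (nat_lit 13) .nil)))))) (.g (nat_lit 1) (.e (nat_lit 390075) (nat_lit 0) .nil) .nil))) 
(.lf (nat_lit 587277) (.g (nat_lit 2042) (.e (nat_lit 393296) (nat_lit 26) (.e (nat_lit 475177) (nat_lit 24) (.e (nat_lit 516117) (nat_lit 1) (.e (nat_lit 164330) (nat_lit 230) (.e (nat_lit 163915) (nat_lit 12) (.e (nat_lit 433920) (nat_lit 34) .nil)))))) (.g (nat_lit 1) (.e (nat_lit 390702) (nat_lit 0) .nil) .nil)))) (.nd (nat_lit 9) 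
(.lf (nat_lit 587021) (.g (nat_lit 2835) (.e (nat_lit 393287) (nat_lit 25) (.e (nat_lit 458789) (nat_lit 23) (.e (nat_lit 532499) (nat_lit 1) (.e (nat_lit 57692) (nat_lit 156) (.e (nat_lit 163905) (nat_lit 12) (.e (nat_lit 426568) (nat_lit 34) .nil)))))) (.g (nat_lit 1) (.e (nat_lit 390440) (nat_lit 0) .nil) .nil))) 
(.lf (nat_lit 587533) (.g (nat_lit 3509) (.e (nat_lit 401428) (nat_lit 3) (.e (nat_lit 204869) (nat_lit 29) (.e (nat_lit 360474) (nat_lit 8) (.e (nat_lit 557065) (nat_lit 9) (.e (nat_lit 249) (nat_lit 21) .nil))))) (.g (nat_lit 0) (.e (nat_lit 391254) (nat_lit 0) .nil) .nil))))) (.nd (nat_lit 8) (.nd (nat_lit 9) 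
(.lf (nat_lit 586893) (.g (nat_lit 1597) (.e (nat_lit 393282) (nat_lit 24) (.e (nat_lit 434233) (nat_lit 23) (.e (nat_lit 532503) (nat_lit 1) (.e (nat_lit 57653) (nat_lit 152) (.e (nat_lit 2633) (nat_lit 164) (.e (nat_lit 179968) (nat_lit 34) .nil)))))) (.g (nat_lit 1) (.e (nat_lit 390228) (nat_lit 0) .nil) .nil))) 
(.lf (nat_lit 587405) (.g (nat_lit 697) (.e (nat_lit 401425) (nat_lit 2) (.e (nat_lit 196666) (nat_lit 13) (.e (nat_lit 65629) (nat_lit 14) .nil))) (.g (nat_lit 0) (.e (nat_lit 390942) (nat_lit 0) .nil) .nil)))) (.nd (nat_lit 9) 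
(.lf (nat_lit 587149) (.g (nat_lit 2284) (.e (nat_lit 393293) (nat_lit 26) (.e (nat_lit 475176) (nat_lit 24) (.e (nat_lit 516115) (nat_lit 1) (.e (nat_lit 164325) (nat_lit 230) (.e (nat_lit 163905) (nat_lit 12) .nil))))) (.g (nat_lit 0) (.e (nat_lit 390572) (nat_lit 0) .nil) .nil))) 
(.lf (nat_lit 587661) (.g (nat_lit 1827) (.e (nat_lit 401447) (nat_lit 10) (.e (nat_lit 434231) (nat_lit 23) (.e (nat_lit 532569) (nat_lit 16) (.e (nat_lit 401448) (nat_lit 10) .nil)))) (.g (nat_lit 0) (.e (nat_lit 391816) (nat_lit 0) .nil) .nil)))))) (.nd (nat_lit 7) (.nd (nat_lit 8) (.nd (nat_lit 9) 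
(.lf (nat_lit 586829) (.g (nat_lit 3733) (.e (nat_lit 393281) (nat_lit 23) (.e (nat_lit 426139) (nat_lit 3) (.e (nat_lit 204830) (nat_lit 18) (.e (nat_lit 57691) (nat_lit 156) (.e (nat_lit 163907) (nat_lit 12) (.e (nat_lit 426568) (nat_lit 34) .nil)))))) (.g (nat_lit 1) (.e (nat_lit 390154) (nat_lit 0) .nil) .nil))) 
(.lf (nat_lit 587341) (.g (nat_lit 2728) (.e (nat_lit 393299) (nat_lit 27) (.e (nat_lit 491556) (nat_lit 9) (.e (nat_lit 336394) (nat_lit 27) (.e (nat_lit 426340) (nat_lit 14) (.e (nat_lit 491571) (nat_lit 13) .nil))))) (.g (nat_lit 1) (.e (nat_lit 390776) (nat_lit 0) .nil) .nil)))) (.nd (nat_lit 9) 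
(.lf (nat_lit 587085) (.g (nat_lit 2102) (.e (nat_lit 393291) (nat_lit 26) (.e (nat_lit 475177) (nat_lit 24) (.e (nat_lit 516115) (nat_lit 1) (.e (nat_lit 164327) (nat_lit 230) (.e (nat_lit 163906) (nat_lit 12) .nil))))) (.g (nat_lit 0) (.e (nat_lit 390508) (nat_lit 0) .nil) .nil))) 
(.lf (nat_lit 587597) (.g (nat_lit 2536) (.e (nat_lit 401438) (nat_lit 9) (.e (nat_lit 426530) (nat_lit 27) (.e (nat_lit 336235) (nat_lit 14) (.e (nat_lit 401457) (nat_lit 13) (.e (nat_lit 483409) (nat_lit 27) .nil))))) (.g (nat_lit 0) (.e (nat_lit 391496) (nat_lit 0) .nil) .nil))))) (.nd (nat_lit 8) (.nd (nat_lit 9) 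
(.lf (nat_lit 586957) (.g (nat_lit 1901) (.e (nat_lit 393286) (nat_lit 25) (.e (nat_lit 458789) (nat_lit 23) (.e (nat_lit 532499) (nat_lit 1) (.e (nat_lit 57652) (nat_lit 152) (.e (nat_lit 2633) (nat_lit 164) (.e (nat_lit 179968) (nat_lit 34) .nil)))))) (.g (nat_lit 1) (.e (nat_lit 390357) (nat_lit 0) .nil) .nil))) 
(.lf (nat_lit 587469) (.g (nat_lit 3260) (.e (nat_lit 401428) (nat_lit 3) (.e (nat_lit 204854) (nat_lit 26) (.e (nat_lit 336208) (nat_lit 12) (.e (nat_lit 385074) (nat_lit 31) (.e (nat_lit 573485) (nat_lit 13) (.e (nat_lit 65630) (nat_lit 14) .nil)))))) (.g (nat_lit 1) (.e (nat_lit 391105) (nat_lit 0) .nil) .nil)))) (.nd (nat_lit 9) 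
(.lf (nat_lit 587213) (.g (nat_lit 3592) (.e (nat_lit 393294) (nat_lit 26) (.e (nat_lit 475177) (nat_lit 24) (.e (nat_lit 516117) (nat_lit 1) (.e (nat_lit 164330) (nat_lit 230) (.e (nat_lit 163904) (nat_lit 12) (.e (nat_lit 426566) (nat_lit 34) .nil)))))) (.g (nat_lit 1) (.e (nat_lit 390636) (nat_lit 0) .nil) .nil))) 
(.lf (nat_lit 587725) (.g (nat_lit 2286) (.e (nat_lit 401448) (nat_lit 10) (.e (nat_lit 434244) (nat_lit 28) (.e (nat_lit 573471) (nat_lit 11) (.e (nat_lit 16392) (nat_lit 0) .nil)))) (.g (nat_lit 0) (.e (nat_lit 392000) (nat_lit 0) .nil) .nil))))))) (.nd (nat_lit 6) (.nd (nat_lit 7) (.nd (nat_lit 8) (.nd (nat_lit 9) 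
(.lf (nat_lit 586797) (.g (nat_lit 3591) (.e (nat_lit 393281) (nat_lit 23) (.e (nat_lit 426100) (nat_lit 1) (.e (nat_lit 164332) (nat_lit 230) (.e (nat_lit 163878) (nat_lit 4) (.e (nat_lit 213032) (nat_lit 11) (.e (nat_lit 24658) (nat_lit 13) .nil)))))) (.g (nat_lit 1) (.e (nat_lit 390110) (nat_lit 0) .nil) .nil))) 
(.lf (nat_lit 587309) (.g (nat_lit 3731) (.e (nat_lit 393296) (nat_lit 26) (.e (nat_lit 475178) (nat_lit 24) (.e (nat_lit 516120) (nat_lit 1) (.e (nat_lit 164332) (nat_lit 230) (.e (nat_lit 163905) (nat_lit 12) (.e (nat_lit 426566) (nat_lit 34) .nil)))))) (.g (nat_lit 1) (.e (nat_lit 390734) (nat_lit 0) .nil) .nil)))) (.nd (nat_lit 9) 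
(.lf (nat_lit 587053) (.g (nat_lit 1281) (.e (nat_lit 393289) (nat_lit 25) (.e (nat_lit 466688) (nat_lit 21) (.e (nat_lit 516115) (nat_lit 1) (.e (nat_lit 164190) (nat_lit 157) (.e (nat_lit 229405) (nat_lit 12) (.e (nat_lit 433920) (nat_lit 34) .nil)))))) (.g (nat_lit 1) (.e (nat_lit 390474) (nat_lit 0) .nil) .nil))) 
(.lf (nat_lit 587565) (.g (nat_lit 1535) (.e (nat_lit 401432) (nat_lit 7) (.e (nat_lit 409649) (nat_lit 18) (.e (nat_lit 303137) (nat_lit 10) (.e (nat_lit 434275) (nat_lit 39) .nil)))) (.g (nat_lit 0) (.e (nat_lit 391397) (nat_lit 0) .nil) .nil))))) (.nd (nat_lit 8) (.nd (nat_lit 9) 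
(.lf (nat_lit 586925) (.g (nat_lit 2229) (.e (nat_lit 393283) (nat_lit 24) (.e (nat_lit 434248) (nat_lit 28) (.e (nat_lit 573475) (nat_lit 12) (.e (nat_lit 57504) (nat_lit 38) .nil)))) (.g (nat_lit 0) (.e (nat_lit 390276) (nat_lit 0) .nil) .nil))) 
(.lf (nat_lit 587437) (.g (nat_lit 3382) (.e (nat_lit 401427) (nat_lit 3) (.e (nat_lit 204869) (nat_lit 29) (.e (nat_lit 360451) (nat_lit 0) (.e (nat_lit 4031) (nat_lit 245) .nil)))) (.g (nat_lit 0) (.e (nat_lit 391043) (nat_lit 0) .nil) .nil)))) (.nd (nat_lit 9) 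
(.lf (nat_lit 587181) (.g (nat_lit 3527) (.e (nat_lit 393293) (nat_lit 26) (.e (nat_lit 475177) (nat_lit 24) (.e (nat_lit 516120) (nat_lit 1) (.e (nat_lit 164330) (nat_lit 230) (.e (nat_lit 163902) (nat_lit 12) (.e (nat_lit 426566) (nat_lit 34) .nil)))))) (.g (nat_lit 1) (.e (nat_lit 390604) (nat_lit 0) .nil) .nil))) 
(.lf (nat_lit 587693) (.g (nat_lit 2578) (.e (nat_lit 401448) (nat_lit 10) (.e (nat_lit 434231) (nat_lit 23) (.e (nat_lit 532569) (nat_lit 16) (.e (nat_lit 401434) (nat_lit 9) (.e (nat_lit 426131) (nat_lit 3) (.e (nat_lit 204885) (nat_lit 33) .nil)))))) (.g (nat_lit 1) (.e (nat_lit 391949) (nat_lit 0) .nil) .nil)))))) (.nd (nat_lit 7) (.nd (nat_lit 8) (.nd (nat_lit 9) 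
(.lf (nat_lit 586861) (.g (nat_lit 3659) (.e (nat_lit 393282) (nat_lit 24) (.e (nat_lit 434231) (nat_lit 23) (.e (nat_lit 532499) (nat_lit 1) (.e (nat_lit 57688) (nat_lit 156) (.e (nat_lit 163903) (nat_lit 12) (.e (nat_lit 426566) (nat_lit 34) .nil)))))) (.g (nat_lit 1) (.e (nat_lit 390196) (nat_lit 0) .nil) .nil))) 
(.lf (nat_lit 587373) (.g (nat_lit 3789) (.e (nat_lit 401424) (nat_lit 2) (.e (nat_lit 196666) (nat_lit 13) (.e (nat_lit 65610) (nat_lit 10) (.e (nat_lit 344129) (nat_lit 26) (.e (nat_lit 557086) (nat_lit 11) (.e (nat_lit 24664) (nat_lit 14) .nil)))))) (.g (nat_lit 1) (.e (nat_lit 390893) (nat_lit 0) .nil) .nil)))) (.nd (nat_lit 9) 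
(.lf (nat_lit 587117) (.g (nat_lit 2917) (.e (nat_lit 393291) (nat_lit 26) (.e (nat_lit 475179) (nat_lit 24) (.e (nat_lit 516115) (nat_lit 1) (.e (nat_lit 164325) (nat_lit 230) (.e (nat_lit 163907) (nat_lit 12) (.e (nat_lit 433920) (nat_lit 34) .nil)))))) (.g (nat_lit 1) (.e (nat_lit 390540) (nat_lit 0) .nil) .nil))) 
(.lf (nat_lit 587629) (.g (nat_lit 1006) (.e (nat_lit 401444) (nat_lit 9) (.e (nat_lit 426163) (nat_lit 6) (.e (nat_lit 253992) (nat_lit 11) (.e (nat_lit 16444) (nat_lit 9) .nil)))) (.g (nat_lit 0) (.e (nat_lit 391588) (nat_lit 0) .nil) .nil))))) (.nd (nat_lit 8) (.nd (nat_lit 9) 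
(.lf (nat_lit 586989) (.g (nat_lit 2106) (.e (nat_lit 393286) (nat_lit 25) (.e (nat_lit 458789) (nat_lit 23) (.e (nat_lit 532503) (nat_lit 1) (.e (nat_lit 57654) (nat_lit 152) (.e (nat_lit 2633) (nat_lit 164) (.e (nat_lit 179968) (nat_lit 34) .nil)))))) (.g (nat_lit 1) (.e (nat_lit 390390) (nat_lit 0) .nil) .nil))) 
(.lf (nat_lit 587501) (.g (nat_lit 3356) (.e (nat_lit 401428) (nat_lit 3) (.e (nat_lit 204869) (nat_lit 29) (.e (nat_lit 360450) (nat_lit 0) (.e (nat_lit 4071) (nat_lit 245) .nil)))) (.g (nat_lit 0) (.e (nat_lit 391176) (nat_lit 0) .nil) .nil)))) (.nd (nat_lit 9) 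
(.lf (nat_lit 587245) (.g (nat_lit 3624) (.e (nat_lit 393295) (nat_lit 26) (.e (nat_lit 475177) (nat_lit 24) (.e (nat_lit 516117) (nat_lit 1) (.e (nat_lit 164330) (nat_lit 230) (.e (nat_lit 163902) (nat_lit 12) (.e (nat_lit 426566) (nat_lit 34) .nil)))))) (.g (nat_lit 1) (.e (nat_lit 390670) (nat_lit 0) .nil) .nil))) 
(.lf (nat_lit 587757) (.g (nat_lit 2764) (.e (nat_lit 401449) (nat_lit 11) (.e (nat_lit 458789) (nat_lit 23) (.e (nat_lit 532569) (nat_lit 16) (.e (nat_lit 401448) (nat_lit 10) (.e (nat_lit 434232) (nat_lit 23) .nil))))) (.g (nat_lit 0) (.e (nat_lit 392082) (nat_lit 0) .nil) .nil)))))))) (.nd (nat_lit 5) (.nd (nat_lit 6) (.nd (nat_lit 7) (.nd (nat_lit 8) (.nd (nat_lit 9) 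
(.lf (nat_lit 586781) (.g (nat_lit 1440) (.e (nat_lit 393281) (nat_lit 23) (.e (nat_lit 426100) (nat_lit 1) (.e (nat_lit 164329) (nat_lit 230) (.e (nat_lit 163850) (nat_lit 0) .nil)))) (.g (nat_lit 0) (.e (nat_lit 390093) (nat_lit 0) .nil) .nil))) 
(.lf (nat_lit 587293) (.g (nat_lit 2107) (.e (nat_lit 393296) (nat_lit 26) (.e (nat_lit 475178) (nat_lit 24) (.e (nat_lit 516117) (nat_lit 1) (.e (nat_lit 164329) (nat_lit 230) (.e (nat_lit 163908) (nat_lit 12) (.e (nat_lit 433920) (nat_lit 34) .nil)))))) (.g (nat_lit 1) (.e (nat_lit 390718) (nat_lit 0) .nil) .nil)))) (.nd (nat_lit 9) 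
(.lf (nat_lit 587037) (.g (nat_lit 2145) (.e (nat_lit 393287) (nat_lit 25) (.e (nat_lit 458789) (nat_lit 23) (.e (nat_lit 532503) (nat_lit 1) (.e (nat_lit 57667) (nat_lit 152) (.e (nat_lit 2619) (nat_lit 164) (.e (nat_lit 179968) (nat_lit 34) .nil)))))) (.g (nat_lit 1) (.e (nat_lit 390456) (nat_lit 0) .nil) .nil))) 
(.lf (nat_lit 587549) (.g (nat_lit 4625) (.e (nat_lit 401428) (nat_lit 3) (.e (nat_lit 204869) (nat_lit 29) (.e (nat_lit 360475) (nat_lit 8) (.e (nat_lit 557087) (nat_lit 11) (.e (nat_lit 24661) (nat_lit 14) .nil))))) (.g (nat_lit 1) (.e (nat_lit 391326) (nat_lit 0) .nil) .nil))))) (.nd (nat_lit 8) (.nd (nat_lit 9) 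
(.lf (nat_lit 586909) (.g (nat_lit 3063) (.e (nat_lit 393283) (nat_lit 24) (.e (nat_lit 434209) (nat_lit 18) (.e (nat_lit 5548) (nat_lit 306) (.e (nat_lit 2638) (nat_lit 165) (.e (nat_lit 180278) (nat_lit 32) (.e (nat_lit 1658) (nat_lit 115) .nil)))))) (.g (nat_lit 1) (.e (nat_lit 390253) (nat_lit 0) .nil) .nil))) 
(.lf (nat_lit 587421) (.g (nat_lit 3032) (.e (nat_lit 401426) (nat_lit 3) (.e (nat_lit 204868) (nat_lit 29) (.e (nat_lit 360473) (nat_lit 8) (.e (nat_lit 557085) (nat_lit 11) (.e (nat_lit 24664) (nat_lit 14) .nil))))) (.g (nat_lit 1) (.e (nat_lit 390990) (nat_lit 0) .nil) .nil)))) (.nd (nat_lit 9) 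
(.lf (nat_lit 587165) (.g (nat_lit 3131) (.e (nat_lit 393293) (nat_lit 26) (.e (nat_lit 475177) (nat_lit 24) (.e (nat_lit 516117) (nat_lit 1) (.e (nat_lit 164330) (nat_lit 230) (.e (nat_lit 163905) (nat_lit 12) (.e (nat_lit 426566) (nat_lit 34) .nil)))))) (.g (nat_lit 1) (.e (nat_lit 390588) (nat_lit 0) .nil) .nil))) 
(.lf (nat_lit 587677) (.g (nat_lit 1793) (.e (nat_lit 401448) (nat_lit 10) (.e (nat_lit 434231) (nat_lit 23) (.e (nat_lit 532490) (nat_lit 0) (.e (nat_lit 6223) (nat_lit 334) .nil)))) (.g (nat_lit 0) (.e (nat_lit 391930) (nat_lit 0) .nil) .nil)))))) (.nd (nat_lit 7) (.nd (nat_lit 8) (.nd (nat_lit 9) 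
(.lf (nat_lit 586845) (.g (nat_lit 2732) (.e (nat_lit 393282) (nat_lit 24) (.e (nat_lit 434209) (nat_lit 18) (.e (nat_lit 5547) (nat_lit 306) (.e (nat_lit 2638) (nat_lit 165) (.e (nat_lit 180277) (nat_lit 32) (.e (nat_lit 1658) (nat_lit 115) .nil)))))) (.g (nat_lit 1) (.e (nat_lit 390177) (nat_lit 0) .nil) .nil))) 
(.lf (nat_lit 587357) (.g (nat_lit 2995) (.e (nat_lit 401414) (nat_lit 0) (.e (nat_lit 3459) (nat_lit 216) (.e (nat_lit 688139) (nat_lit 5) (.e (nat_lit 3062) (nat_lit 190) (.e (nat_lit 475179) (nat_lit 24) (.e (nat_lit 516102) (nat_lit 0) (.e (nat_lit 7936) (nat_lit 392) (.e (nat_lit 172151) (nat_lit 35) .nil)))))))) (.g (nat_lit 1) (.e (nat_lit 390846) (nat_lit 0) .nil) .nil)))) 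
(.nd (nat_lit 9) 
(.lf (nat_lit 587101) (.g (nat_lit 2935) (.e (nat_lit 393291) (nat_lit 26) (.e (nat_lit 475177) (nat_lit 24) (.e (nat_lit 516119) (nat_lit 1) (.e (nat_lit 164327) (nat_lit 230) (.e (nat_lit 163903) (nat_lit 12) (.e (nat_lit 426564) (nat_lit 34) .nil)))))) (.g (nat_lit 1) (.e (nat_lit 390524) (nat_lit 0) .nil) .nil))) 
(.lf (nat_lit 587613) (.g (nat_lit 557) (.e (nat_lit 401440) (nat_lit 9) (.e (nat_lit 426499) (nat_lit 27) (.e (nat_lit 336229) (nat_lit 14) .nil))) (.g (nat_lit 0) (.e (nat_lit 391530) (nat_lit 0) .nil) .nil))))) (.nd (nat_lit 8) (.nd (nat_lit 9) 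
(.lf (nat_lit 586973) (.g (nat_lit 2940) (.e (nat_lit 393286) (nat_lit 25) (.e (nat_lit 458789) (nat_lit 23) (.e (nat_lit 532499) (nat_lit 1) (.e (nat_lit 57692) (nat_lit 156) (.e (nat_lit 163907) (nat_lit 12) (.e (nat_lit 426568) (nat_lit 34) .nil)))))) (.g (nat_lit 1) (.e (nat_lit 390374) (nat_lit 0) .nil) .nil))) 
(.lf (nat_lit 587485) (.g (nat_lit 3084) (.e (nat_lit 401428) (nat_lit 3) (.e (nat_lit 204866) (nat_lit 28) (.e (nat_lit 352262) (nat_lit 0) (.e (nat_lit 3305) (nat_lit 202) (.e (nat_lit 573480) (nat_lit 13) (.e (nat_lit 65630) (nat_lit 14) .nil)))))) (.g (nat_lit 1) (.e (nat_lit 391130) (nat_lit 0) .nil) .nil)))) (.nd (nat_lit 9) 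
(.lf (nat_lit 587229) (.g (nat_lit 1695) (.e (nat_lit 393294) (nat_lit 26) (.e (nat_lit 475179) (nat_lit 24) (.e (nat_lit 516119) (nat_lit 1) (.e (nat_lit 164332) (nat_lit 230) .nil)))) (.g (nat_lit 0) (.e (nat_lit 390652) (nat_lit 0) .nil) .nil))) 
(.lf (nat_lit 587741) (.g (nat_lit 2494) (.e (nat_lit 401448) (nat_lit 10) (.e (nat_lit 434248) (nat_lit 28) (.e (nat_lit 573471) (nat_lit 11) (.e (nat_lit 16444) (nat_lit 9) (.e (nat_lit 426072) (nat_lit 0) .nil))))) (.g (nat_lit 0) (.e (nat_lit 392028) (nat_lit 0) .nil) .nil))))))) (.nd (nat_lit 6) (.nd (nat_lit 7) (.nd (nat_lit 8) (.nd (nat_lit 9) 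
(.lf (nat_lit 586813) (.g (nat_lit 1491) (.e (nat_lit 393281) (nat_lit 23) (.e (nat_lit 426108) (nat_lit 1) (.e (nat_lit 164330) (nat_lit 230) (.e (nat_lit 163855) (nat_lit 0) .nil)))) (.g (nat_lit 0) (.e (nat_lit 390132) (nat_lit 0) .nil) .nil))) 
(.lf (nat_lit 587325) (.g (nat_lit 2884) (.e (nat_lit 393296) (nat_lit 26) (.e (nat_lit 475179) (nat_lit 24) (.e (nat_lit 516120) (nat_lit 1) (.e (nat_lit 164330) (nat_lit 230) (.e (nat_lit 163905) (nat_lit 12) (.e (nat_lit 426566) (nat_lit 34) .nil)))))) (.g (nat_lit 1) (.e (nat_lit 390750) (nat_lit 0) .nil) .nil)))) (.nd (nat_lit 9) 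
(.lf (nat_lit 587069) (.g (nat_lit 3348) (.e (nat_lit 393290) (nat_lit 26) (.e (nat_lit 475179) (nat_lit 24) (.e (nat_lit 516120) (nat_lit 1) (.e (nat_lit 164332) (nat_lit 230) (.e (nat_lit 163905) (nat_lit 12) (.e (nat_lit 426566) (nat_lit 34) .nil)))))) (.g (nat_lit 1) (.e (nat_lit 390491) (nat_lit 0) .nil) .nil))) 
(.lf (nat_lit 587581) (.g (nat_lit 3129) (.e (nat_lit 401437) (nat_lit 9) (.e (nat_lit 426131) (nat_lit 3) (.e (nat_lit 204885) (nat_lit 33) (.e (nat_lit 401448) (nat_lit 10) (.e (nat_lit 434232) (nat_lit 23) (.e (nat_lit 532568) (nat_lit 16) .nil)))))) (.g (nat_lit 1) (.e (nat_lit 391462) (nat_lit 0) .nil) .nil))))) (.nd (nat_lit 8) (.nd (nat_lit 9) 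
(.lf (nat_lit 586941) (.g (nat_lit 4073) (.e (nat_lit 393284) (nat_lit 24) (.e (nat_lit 434233) (nat_lit 23) (.e (nat_lit 532503) (nat_lit 1) (.e (nat_lit 57688) (nat_lit 156) (.e (nat_lit 163902) (nat_lit 12) (.e (nat_lit 426568) (nat_lit 34) .nil)))))) (.g (nat_lit 1) (.e (nat_lit 390313) (nat_lit 0) .nil) .nil))) 
(.lf (nat_lit 587453) (.g (nat_lit 4019) (.e (nat_lit 401427) (nat_lit 3) (.e (nat_lit 204869) (nat_lit 29) (.e (nat_lit 360474) (nat_lit 8) (.e (nat_lit 557087) (nat_lit 11) (.e (nat_lit 24661) (nat_lit 14) .nil))))) (.g (nat_lit 1) (.e (nat_lit 391077) (nat_lit 0) .nil) .nil)))) (.nd (nat_lit 9) 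
(.lf (nat_lit 587197) (.g (nat_lit 1959) (.e (nat_lit 393293) (nat_lit 26) (.e (nat_lit 475179) (nat_lit 24) (.e (nat_lit 516119) (nat_lit 1) (.e (nat_lit 164332) (nat_lit 230) .nil)))) (.g (nat_lit 0) (.e (nat_lit 390620) (nat_lit 0) .nil) .nil))) 
(.lf (nat_lit 587709) (.g (nat_lit 595) (.e (nat_lit 401448) (nat_lit 10) (.e (nat_lit 434238) (nat_lit 25) (.e (nat_lit 548913) (nat_lit 18) .nil))) (.g (nat_lit 0) (.e (nat_lit 391972) (nat_lit 0) .nil) .nil)))))) (.nd (nat_lit 7) (.nd (nat_lit 8) (.nd (nat_lit 9) 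
(.lf (nat_lit 586877) (.g (nat_lit 2933) (.e (nat_lit 393282) (nat_lit 24) (.e (nat_lit 434231) (nat_lit 23) (.e (nat_lit 532502) (nat_lit 1) (.e (nat_lit 57688) (nat_lit 156) (.e (nat_lit 163903) (nat_lit 12) (.e (nat_lit 426566) (nat_lit 34) .nil)))))) (.g (nat_lit 1) (.e (nat_lit 390212) (nat_lit 0) .nil) .nil))) 
(.lf (nat_lit 587389) (.g (nat_lit 4503) (.e (nat_lit 401425) (nat_lit 2) (.e (nat_lit 196666) (nat_lit 13) (.e (nat_lit 65610) (nat_lit 10) (.e (nat_lit 344129) (nat_lit 26) (.e (nat_lit 557086) (nat_lit 11) (.e (nat_lit 24662) (nat_lit 14) .nil)))))) (.g (nat_lit 1) (.e (nat_lit 390924) (nat_lit 0) .nil) .nil)))) (.nd (nat_lit 9) 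
(.lf (nat_lit 587133) (.g (nat_lit 2578) (.e (nat_lit 393291) (nat_lit 26) (.e (nat_lit 475179) (nat_lit 24) (.e (nat_lit 516120) (nat_lit 1) (.e (nat_lit 164330) (nat_lit 230) (.e (nat_lit 163905) (nat_lit 12) (.e (nat_lit 426566) (nat_lit 34) .nil)))))) (.g (nat_lit 1) (.e (nat_lit 390556) (nat_lit 0) .nil) .nil))) 
(.lf (nat_lit 587645) (.g (nat_lit 3034) (.e (nat_lit 401446) (nat_lit 10) (.e (nat_lit 434233) (nat_lit 23) (.e (nat_lit 532569) (nat_lit 16) (.e (nat_lit 401448) (nat_lit 10) (.e (nat_lit 434232) (nat_lit 23) (.e (nat_lit 532569) (nat_lit 16) .nil)))))) (.g (nat_lit 1) (.e (nat_lit 391725) (nat_lit 0) .nil) .nil))))) (.nd (nat_lit 8) (.nd (nat_lit 9) 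
(.lf (nat_lit 587005) (.g (nat_lit 1523) (.e (nat_lit 393287) (nat_lit 25) (.e (nat_lit 458774) (nat_lit 18) (.e (nat_lit 5548) (nat_lit 306) (.e (nat_lit 2640) (nat_lit 165) (.e (nat_lit 180278) (nat_lit 32) (.e (nat_lit 1658) (nat_lit 115) .nil)))))) (.g (nat_lit 1) (.e (nat_lit 390419) (nat_lit 0) .nil) .nil))) 
(.lf (nat_lit 587517) (.g (nat_lit 2652) (.e (nat_lit 401428) (nat_lit 3) (.e (nat_lit 204869) (nat_lit 29) (.e (nat_lit 360471) (nat_lit 7) (.e (nat_lit 548872) (nat_lit 5) .nil)))) (.g (nat_lit 0) (.e (nat_lit 391236) (nat_lit 0) .nil) .nil)))) (.nd (nat_lit 9) 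
(.lf (nat_lit 587261) (.g (nat_lit 1987) (.e (nat_lit 393295) (nat_lit 26) (.e (nat_lit 475179) (nat_lit 24) (.e (nat_lit 516119) (nat_lit 1) (.e (nat_lit 164332) (nat_lit 230) .nil)))) (.g (nat_lit 0) (.e (nat_lit 390686) (nat_lit 0) .nil) .nil))) 
(.lf (nat_lit 587773) (.g (nat_lit 4982) (.e (nat_lit 401451) (nat_lit 12) (.e (nat_lit 475185) (nat_lit 29) (.e (nat_lit 557098) (nat_lit 13) (.e (nat_lit 172106) (nat_lit 10) (.e (nat_lit 434231) (nat_lit 23) (.e (nat_lit 532569) (nat_lit 16) .nil)))))) (.g (nat_lit 1) (.e (nat_lit 392112) (nat_lit 0) .nil) .nil))))))))))) 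
(.nd (nat_lit 2) (.nd (nat_lit 3) (.nd (nat_lit 4) (.nd (nat_lit 5) (.nd (nat_lit 6) 
(.nd (nat_lit 7) (.nd (nat_lit 8) (.nd (nat_lit 9) 
(.lf (nat_lit 586755) (.g (nat_lit 1975) (.e (nat_lit 393281) (nat_lit 23) (.e (nat_lit 426098) (nat_lit 1) (.e (nat_lit 164346) (nat_lit 240) (.e (nat_lit 2638) (nat_lit 165) (.e (nat_lit 180278) (nat_lit 32) (.e (nat_lit 1658) (nat_lit 115) .nil)))))) (.g (nat_lit 1) (.e (nat_lit 390062) (nat_lit 0) .nil) .nil))) 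
(.lf (nat_lit 587267) (.g (nat_lit 4155) (.e (nat_lit 393296) (nat_lit 26) (.e (nat_lit 475176) (nat_lit 24) (.e (nat_lit 516115) (nat_lit 1) (.e (nat_lit 164325) (nat_lit 230) (.e (nat_lit 163903) (nat_lit 12) (.e (nat_lit 426566) (nat_lit 34) .nil)))))) (.g (nat_lit 1) (.e (nat_lit 390692) (nat_lit 0) .nil) .nil)))) (.nd (nat_lit 9) 
(.lf (nat_lit 587011) (.g (nat_lit 1625) (.e (nat_lit 393287) (nat_lit 25) (.e (nat_lit 458789) (nat_lit 23) (.e (nat_lit 532499) (nat_lit 1) (.e (nat_lit 57655) (nat_lit 152) (.e (nat_lit 2633) (nat_lit 164) (.e (nat_lit 179968) (nat_lit 34) .nil)))))) (.g (nat_lit 1) (.e (nat_lit 390428) (nat_lit 0) .nil) .nil))) 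
(.lf (nat_lit 587523) (.g (nat_lit 4303) (.e (nat_lit 401428) (nat_lit 3) (.e (nat_lit 204869) (nat_lit 29) (.e (nat_lit 360472) (nat_lit 8) (.e (nat_lit 557087) (nat_lit 11) (.e (nat_lit 24662) (nat_lit 14) .nil))))) (.g (nat_lit 1) (.e (nat_lit 391244) (nat_lit 0) .nil) .nil))))) (.nd (nat_lit 8) (.nd (nat_lit 9) 
(.lf (nat_lit 586883) (.g (nat_lit 1638) (.e (nat_lit 393282) (nat_lit 24) (.e (nat_lit 434232) (nat_lit 23) (.e (nat_lit 532504) (nat_lit 1) (.e (nat_lit 57691) (nat_lit 156) (.e (nat_lit 163907) (nat_lit 12) .nil))))) (.g (nat_lit 0) (.e (nat_lit 390218) (nat_lit 0) .nil) .nil))) 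
(.lf (nat_lit 587395) (.g (nat_lit 1100) (.e (nat_lit 401425) (nat_lit 2) (.e (nat_lit 196666) (nat_lit 13) (.e (nat_lit 65617) (nat_lit 10) (.e (nat_lit 344096) (nat_lit 18) .nil)))) (.g (nat_lit 0) (.e (nat_lit 390930) (nat_lit 0) .nil) .nil)))) (.nd (nat_lit 9) 
(.lf (nat_lit 587139) (.g (nat_lit 1778) (.e (nat_lit 393292) (nat_lit 26) (.e (nat_lit 475177) (nat_lit 24) (.e (nat_lit 516120) (nat_lit 1) (.e (nat_lit 164330) (nat_lit 230) (.e (nat_lit 163905) (nat_lit 12) (.e (nat_lit 426567) (nat_lit 34) .nil)))))) (.g (nat_lit 1) (.e (nat_lit 390562) (nat_lit 0) .nil) .nil))) 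
(.lf (nat_lit 587651) (.g (nat_lit 2847) (.e (nat_lit 401446) (nat_lit 10) (.e (nat_lit 434289) (nat_lit 43) (.e (nat_lit 696327) (nat_lit 5) (.e (nat_lit 2988) (nat_lit 186) (.e (nat_lit 442390) (nat_lit 11) (.e (nat_lit 336231) (nat_lit 14) .nil)))))) (.g (nat_lit 1) (.e (nat_lit 391794) (nat_lit 0) .nil) .nil)))))) (.nd (nat_lit 7) (.nd (nat_lit 8) (.nd (nat_lit 9) 
(.lf (nat_lit 586819) (.g (nat_lit 540) (.e (nat_lit 393281) (nat_lit 23) (.e (nat_lit 426124) (nat_lit 2) (.e (nat_lit 196677) (nat_lit 16) .nil))) (.g (nat_lit 0) (.e (nat_lit 390143) (nat_lit 0) .nil) .nil))) 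
(.lf (nat_lit 587331) (.g (nat_lit 451) (.e (nat_lit 393296) (nat_lit 26) (.e (nat_lit 475212) (nat_lit 42) (.e (nat_lit 728832) (nat_lit 4) .nil))) (.g (nat_lit 0) (.e (nat_lit 390757) (nat_lit 0) .nil) .nil)))) (.nd (nat_lit 9) 
(.lf (nat_lit 587075) (.g (nat_lit 2641) (.e (nat_lit 393291) (nat_lit 26) (.e (nat_lit 475177) (nat_lit 24) (.e (nat_lit 516115) (nat_lit 1) (.e (nat_lit 164325) (nat_lit 230) (.e (nat_lit 163901) (nat_lit 12) .nil))))) (.g (nat_lit 0) (.e (nat_lit 390498) (nat_lit 0) .nil) .nil))) 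
(.lf (nat_lit 587587) (.g (nat_lit 2505) (.e (nat_lit 401437) (nat_lit 9) (.e (nat_lit 426533) (nat_lit 28) (.e (nat_lit 344068) (nat_lit 0) (.e (nat_lit 3090) (nat_lit 191) (.e (nat_lit 483409) (nat_lit 27) .nil))))) (.g (nat_lit 1) (.e (nat_lit 391479) (nat_lit 0) .nil) .nil))))) (.nd (nat_lit 8) (.nd (nat_lit 9) 
(.lf (nat_lit 586947) (.g (nat_lit 3133) (.e (nat_lit 393284) (nat_lit 24) (.e (nat_lit 434272) (nat_lit 38) (.e (nat_lit 655378) (nat_lit 4) (.e (nat_lit 172126) (nat_lit 14) (.e (nat_lit 491570) (nat_lit 13) .nil))))) (.g (nat_lit 1) (.e (nat_lit 390324) (nat_lit 0) .nil) .nil))) 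
(.lf (nat_lit 587459) (.g (nat_lit 2823) (.e (nat_lit 401428) (nat_lit 3) (.e (nat_lit 204852) (nat_lit 26) (.e (nat_lit 336208) (nat_lit 12) (.e (nat_lit 385074) (nat_lit 31) (.e (nat_lit 573482) (nat_lit 13) .nil))))) (.g (nat_lit 0) (.e (nat_lit 391093) (nat_lit 0) .nil) .nil)))) (.nd (nat_lit 9) 
(.lf (nat_lit 587203) (.g (nat_lit 1518) (.e (nat_lit 393293) (nat_lit 26) (.e (nat_lit 475212) (nat_lit 42) (.e (nat_lit 728832) (nat_lit 4) (.e (nat_lit 213032) (nat_lit 11) (.e (nat_lit 24659) (nat_lit 13) .nil))))) (.g (nat_lit 1) (.e (nat_lit 390626) (nat_lit 0) .nil) .nil))) 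
(.lf (nat_lit 587715) (.g (nat_lit 2840) (.e (nat_lit 401448) (nat_lit 10) (.e (nat_lit 434238) (nat_lit 25) (.e (nat_lit 548913) (nat_lit 18) (.e (nat_lit 172107) (nat_lit 10) (.e (nat_lit 434231) (nat_lit 23) .nil))))) (.g (nat_lit 0) (.e (nat_lit 391981) (nat_lit 0) .nil) .nil))))))) (.nd (nat_lit 6) (.nd (nat_lit 7) (.nd (nat_lit 8) (.nd (nat_lit 9) 
(.lf (nat_lit 586787) (.g (nat_lit 2492) (.e (nat_lit 393281) (nat_lit 23) (.e (nat_lit 426100) (nat_lit 1) (.e (nat_lit 164330) (nat_lit 230) (.e (nat_lit 163880) (nat_lit 4) (.e (nat_lit 213030) (nat_lit 11) (.e (nat_lit 24660) (nat_lit 13) .nil)))))) (.g (nat_lit 1) (.e (nat_lit 390100) (nat_lit 0) .nil) .nil))) 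
(.lf (nat_lit 587299) (.g (nat_lit 2201) (.e (nat_lit 393296) (nat_lit 26) (.e (nat_lit 475178) (nat_lit 24) (.e (nat_lit 516117) (nat_lit 1) (.e (nat_lit 164330) (nat_lit 230) (.e (nat_lit 163915) (nat_lit 12) (.e (nat_lit 433920) (nat_lit 34) .nil)))))) (.g (nat_lit 1) (.e (nat_lit 390724) (nat_lit 0) .nil) .nil)))) (.nd (nat_lit 9) 
(.lf (nat_lit 587043) (.g (nat_lit 1461) (.e (nat_lit 393287) (nat_lit 25) (.e (nat_lit 458789) (nat_lit 23) (.e (nat_lit 532503) (nat_lit 1) (.e (nat_lit 57693) (nat_lit 157) .nil)))) (.g (nat_lit 0) (.e (nat_lit 390462) (nat_lit 0) .nil) .nil))) 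
(.lf (nat_lit 587555) (.g (nat_lit 810) (.e (nat_lit 401432) (nat_lit 7) (.e (nat_lit 409646) (nat_lit 18) (.e (nat_lit 303135) (nat_lit 10) .nil))) (.g (nat_lit 0) (.e (nat_lit 391377) (nat_lit 0) .nil) .nil))))) (.nd (nat_lit 8) (.nd (nat_lit 9) 
(.lf (nat_lit 586915) (.g (nat_lit 4307) (.e (nat_lit 393283) (nat_lit 24) (.e (nat_lit 434231) (nat_lit 23) (.e (nat_lit 532500) (nat_lit 1) (.e (nat_lit 57691) (nat_lit 156) (.e (nat_lit 163905) (nat_lit 12) (.e (nat_lit 426568) (nat_lit 34) .nil)))))) (.g (nat_lit 1) (.e (nat_lit 390259) (nat_lit 0) .nil) .nil))) 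
(.lf (nat_lit 587427) (.g (nat_lit 2280) (.e (nat_lit 401427) (nat_lit 3) (.e (nat_lit 204854) (nat_lit 26) (.e (nat_lit 336208) (nat_lit 12) (.e (nat_lit 385074) (nat_lit 31) (.e (nat_lit 573480) (nat_lit 13) .nil))))) (.g (nat_lit 0) (.e (nat_lit 391008) (nat_lit 0) .nil) .nil)))) (.nd (nat_lit 9) 
(.lf (nat_lit 587171) (.g (nat_lit 2632) (.e (nat_lit 393293) (nat_lit 26) (.e (nat_lit 475177) (nat_lit 24) (.e (nat_lit 516118) (nat_lit 1) (.e (nat_lit 164327) (nat_lit 230) (.e (nat_lit 163903) (nat_lit 12) (.e (nat_lit 426567) (nat_lit 34) .nil)))))) (.g (nat_lit 1) (.e (nat_lit 390594) (nat_lit 0) .nil) .nil))) 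
(.lf (nat_lit 587683) (.g (nat_lit 2749) (.e (nat_lit 401448) (nat_lit 10) (.e (nat_lit 434231) (nat_lit 23) (.e (nat_lit 532523) (nat_lit 7) (.e (nat_lit 327424) (nat_lit 18) .nil)))) (.g (nat_lit 0) (.e (nat_lit 391937) (nat_lit 0) .nil) .nil)))))) (.nd (nat_lit 7) (.nd (nat_lit 8) (.nd (nat_lit 9) 
(.lf (nat_lit 586851) (.g (nat_lit 3743) (.e (nat_lit 393282) (nat_lit 24) (.e (nat_lit 434209) (nat_lit 18) (.e (nat_lit 5548) (nat_lit 306) (.e (nat_lit 2638) (nat_lit 165) (.e (nat_lit 180278) (nat_lit 32) (.e (nat_lit 1659) (nat_lit 115) .nil)))))) (.g (nat_lit 1) (.e (nat_lit 390186) (nat_lit 0) .nil) .nil))) 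
(.lf (nat_lit 587363) (.g (nat_lit 3187) (.e (nat_lit 401423) (nat_lit 2) (.e (nat_lit 196666) (nat_lit 13) (.e (nat_lit 65610) (nat_lit 10) (.e (nat_lit 344097) (nat_lit 18) (.e (nat_lit 4072) (nat_lit 245) .nil))))) (.g (nat_lit 0) (.e (nat_lit 390871) (nat_lit 0) .nil) .nil)))) (.nd (nat_lit 9) 
(.lf (nat_lit 587107) (.g (nat_lit 3869) (.e (nat_lit 393291) (nat_lit 26) (.e (nat_lit 475177) (nat_lit 24) (.e (nat_lit 516120) (nat_lit 1) (.e (nat_lit 164330) (nat_lit 230) (.e (nat_lit 163902) (nat_lit 12) (.e (nat_lit 426566) (nat_lit 34) .nil)))))) (.g (nat_lit 1) (.e (nat_lit 390530) (nat_lit 0) .nil) .nil))) 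
(.lf (nat_lit 587619) (.g (nat_lit 1199) (.e (nat_lit 401444) (nat_lit 9) (.e (nat_lit 426163) (nat_lit 6) (.e (nat_lit 253991) (nat_lit 11) (.e (nat_lit 16431) (nat_lit 9) .nil)))) (.g (nat_lit 0) (.e (nat_lit 391571) (nat_lit 0) .nil) .nil))))) (.nd (nat_lit 8) (.nd (nat_lit 9) 
(.lf (nat_lit 586979) (.g (nat_lit 2945) (.e (nat_lit 393286) (nat_lit 25) (.e (nat_lit 458789) (nat_lit 23) (.e (nat_lit 532501) (nat_lit 1) (.e (nat_lit 57692) (nat_lit 156) (.e (nat_lit 163907) (nat_lit 12) (.e (nat_lit 426568) (nat_lit 34) .nil)))))) (.g (nat_lit 1) (.e (nat_lit 390380) (nat_lit 0) .nil) .nil))) 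
(.lf (nat_lit 587491) (.g (nat_lit 4210) (.e (nat_lit 401428) (nat_lit 3) (.e (nat_lit 204868) (nat_lit 29) (.e (nat_lit 360475) (nat_lit 8) (.e (nat_lit 557086) (nat_lit 11) (.e (nat_lit 24662) (nat_lit 14) .nil))))) (.g (nat_lit 1) (.e (nat_lit 391163) (nat_lit 0) .nil) .nil)))) (.nd (nat_lit 9) 
(.lf (nat_lit 587235) (.g (nat_lit 3132) (.e (nat_lit 393294) (nat_lit 26) (.e (nat_lit 475199) (nat_lit 40) (.e (nat_lit 704592) (nat_lit 4) (.e (nat_lit 172126) (nat_lit 14) (.e (nat_lit 491569) (nat_lit 13) .nil))))) (.g (nat_lit 1) (.e (nat_lit 390659) (nat_lit 0) .nil) .nil))) 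
(.lf (nat_lit 587747) (.g (nat_lit 417) (.e (nat_lit 401448) (nat_lit 10) (.e (nat_lit 434286) (nat_lit 42) (.e (nat_lit 688138) (nat_lit 5) .nil))) (.g (nat_lit 0) (.e (nat_lit 392041) (nat_lit 0) .nil) .nil)))))))) (.nd (nat_lit 5) (.nd (nat_lit 6) (.nd (nat_lit 7) (.nd (nat_lit 8) (.nd (nat_lit 9) 
(.lf (nat_lit 586771) (.g (nat_lit 1238) (.e (nat_lit 393281) (nat_lit 23) (.e (nat_lit 426099) (nat_lit 1) (.e (nat_lit 164332) (nat_lit 230) (.e (nat_lit 163850) (nat_lit 0) .nil)))) (.g (nat_lit 0) (.e (nat_lit 390081) (nat_lit 0) .nil) .nil))) 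
(.lf (nat_lit 587283) (.g (nat_lit 3670) (.e (nat_lit 393296) (nat_lit 26) (.e (nat_lit 475177) (nat_lit 24) (.e (nat_lit 516120) (nat_lit 1) (.e (nat_lit 164330) (nat_lit 230) (.e (nat_lit 163902) (nat_lit 12) (.e (nat_lit 426566) (nat_lit 34) .nil)))))) (.g (nat_lit 1) (.e (nat_lit 390708) (nat_lit 0) .nil) .nil)))) (.nd (nat_lit 9) 
(.lf (nat_lit 587027) (.g (nat_lit 3262) (.e (nat_lit 393287) (nat_lit 25) (.e (nat_lit 458789) (nat_lit 23) (.e (nat_lit 532502) (nat_lit 1) (.e (nat_lit 57688) (nat_lit 156) (.e (nat_lit 163902) (nat_lit 12) (.e (nat_lit 426568) (nat_lit 34) .nil)))))) (.g (nat_lit 1) (.e (nat_lit 390446) (nat_lit 0) .nil) .nil))) 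
(.lf (nat_lit 587539) (.g (nat_lit 2365) (.e (nat_lit 401428) (nat_lit 3) (.e (nat_lit 204869) (nat_lit 29) (.e (nat_lit 360474) (nat_lit 8) (.e (nat_lit 564992) (nat_lit 9) .nil)))) (.g (nat_lit 0) (.e (nat_lit 391260) (nat_lit 0) .nil) .nil))))) (.nd (nat_lit 8) (.nd (nat_lit 9) 
(.lf (nat_lit 586899) (.g (nat_lit 533) (.e (nat_lit 393282) (nat_lit 24) (.e (nat_lit 434248) (nat_lit 28) (.e (nat_lit 573475) (nat_lit 12) .nil))) (.g (nat_lit 0) (.e (nat_lit 390235) (nat_lit 0) .nil) .nil))) 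
(.lf (nat_lit 587411) (.g (nat_lit 1093) (.e (nat_lit 401425) (nat_lit 2) (.e (nat_lit 196681) (nat_lit 17) (.e (nat_lit 131073) (nat_lit 0) .nil))) (.g (nat_lit 0) (.e (nat_lit 390950) (nat_lit 0) .nil) .nil)))) (.nd (nat_lit 9) 
(.lf (nat_lit 587155) (.g (nat_lit 3449) (.e (nat_lit 393293) (nat_lit 26) (.e (nat_lit 475177) (nat_lit 24) (.e (nat_lit 516115) (nat_lit 1) (.e (nat_lit 164325) (nat_lit 230) (.e (nat_lit 163907) (nat_lit 12) (.e (nat_lit 426566) (nat_lit 34) .nil)))))) (.g (nat_lit 1) (.e (nat_lit 390578) (nat_lit 0) .nil) .nil))) 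
(.lf (nat_lit 587667) (.g (nat_lit 4445) (.e (nat_lit 401447) (nat_lit 10) (.e (nat_lit 434238) (nat_lit 25) (.e (nat_lit 548913) (nat_lit 18) (.e (nat_lit 172094) (nat_lit 9) (.e (nat_lit 426125) (nat_lit 2) (.e (nat_lit 196642) (nat_lit 9) (.e (nat_lit 1673) (nat_lit 116) .nil))))))) (.g (nat_lit 1) (.e (nat_lit 391830) (nat_lit 0) .nil) .nil)))))) 
(.nd (nat_lit 7) (.nd (nat_lit 8) (.nd (nat_lit 9) 
(.lf (nat_lit 586835) (.g (nat_lit 947) (.e (nat_lit 401152) (nat_lit 23) (.e (nat_lit 426107) (nat_lit 1) (.e (nat_lit 164345) (nat_lit 240) (.e (nat_lit 2640) (nat_lit 165) (.e (nat_lit 180278) (nat_lit 32) .nil))))) (.g (nat_lit 0) (.e (nat_lit 390162) (nat_lit 0) .nil) .nil))) 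
(.lf (nat_lit 587347) (.g (nat_lit 2553) (.e (nat_lit 401408) (nat_lit 0) (.e (nat_lit 3307) (nat_lit 202) (.e (nat_lit 573484) (nat_lit 13) (.e (nat_lit 65563) (nat_lit 1) .nil)))) (.g (nat_lit 0) (.e (nat_lit 390793) (nat_lit 0) .nil) .nil)))) (.nd (nat_lit 9) 
(.lf (nat_lit 587091) (.g (nat_lit 3443) (.e (nat_lit 393291) (nat_lit 26) (.e (nat_lit 475177) (nat_lit 24) (.e (nat_lit 516117) (nat_lit 1) (.e (nat_lit 164330) (nat_lit 230) (.e (nat_lit 163905) (nat_lit 12) (.e (nat_lit 426566) (nat_lit 34) .nil)))))) (.g (nat_lit 1) (.e (nat_lit 390514) (nat_lit 0) .nil) .nil))) 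
(.lf (nat_lit 587603) (.g (nat_lit 2742) (.e (nat_lit 401438) (nat_lit 9) (.e (nat_lit 426533) (nat_lit 28) (.e (nat_lit 344069) (nat_lit 0) (.e (nat_lit 2856) (nat_lit 184) (.e (nat_lit 426509) (nat_lit 27) (.e (nat_lit 336228) (nat_lit 14) .nil)))))) (.g (nat_lit 1) (.e (nat_lit 391502) (nat_lit 0) .nil) .nil))))) (.nd (nat_lit 8) (.nd (nat_lit 9) 
(.lf (nat_lit 586963) (.g (nat_lit 2989) (.e (nat_lit 393286) (nat_lit 25) (.e (nat_lit 458789) (nat_lit 23) (.e (nat_lit 532499) (nat_lit 1) (.e (nat_lit 57686) (nat_lit 156) (.e (nat_lit 163902) (nat_lit 12) (.e (nat_lit 426568) (nat_lit 34) .nil)))))) (.g (nat_lit 1) (.e (nat_lit 390364) (nat_lit 0) .nil) .nil))) 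
(.lf (nat_lit 587475) (.g (nat_lit 3417) (.e (nat_lit 401428) (nat_lit 3) (.e (nat_lit 204859) (nat_lit 26) (.e (nat_lit 336206) (nat_lit 12) (.e (nat_lit 385074) (nat_lit 31) (.e (nat_lit 573484) (nat_lit 13) (.e (nat_lit 65630) (nat_lit 14) .nil)))))) (.g (nat_lit 1) (.e (nat_lit 391114) (nat_lit 0) .nil) .nil)))) (.nd (nat_lit 9) 
(.lf (nat_lit 587219) (.g (nat_lit 3659) (.e (nat_lit 393294) (nat_lit 26) (.e (nat_lit 475179) (nat_lit 24) (.e (nat_lit 516115) (nat_lit 1) (.e (nat_lit 164325) (nat_lit 230) (.e (nat_lit 163903) (nat_lit 12) (.e (nat_lit 426567) (nat_lit 34) .nil)))))) (.g (nat_lit 1) (.e (nat_lit 390642) (nat_lit 0) .nil) .nil))) 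
(.lf (nat_lit 587731) (.g (nat_lit 2118) (.e (nat_lit 401448) (nat_lit 10) (.e (nat_lit 434246) (nat_lit 28) (.e (nat_lit 573471) (nat_lit 11) (.e (nat_lit 16444) (nat_lit 9) (.e (nat_lit 425991) (nat_lit 0) .nil))))) (.g (nat_lit 0) (.e (nat_lit 392007) (nat_lit 0) .nil) .nil))))))) (.nd (nat_lit 6) (.nd (nat_lit 7) (.nd (nat_lit 8) (.nd (nat_lit 9) 
(.lf (nat_lit 586803) (.g (nat_lit 2902) (.e (nat_lit 393281) (nat_lit 23) (.e (nat_lit 426100) (nat_lit 1) (.e (nat_lit 164332) (nat_lit 230) (.e (nat_lit 163880) (nat_lit 4) (.e (nat_lit 213032) (nat_lit 11) (.e (nat_lit 24660) (nat_lit 13) .nil)))))) (.g (nat_lit 1) (.e (nat_lit 390116) (nat_lit 0) .nil) .nil))) 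
(.lf (nat_lit 587315) (.g (nat_lit 4123) (.e (nat_lit 393296) (nat_lit 26) (.e (nat_lit 475179) (nat_lit 24) (.e (nat_lit 516117) (nat_lit 1) (.e (nat_lit 164330) (nat_lit 230) (.e (nat_lit 163902) (nat_lit 12) (.e (nat_lit 426566) (nat_lit 34) .nil)))))) (.g (nat_lit 1) (.e (nat_lit 390740) (nat_lit 0) .nil) .nil)))) (.nd (nat_lit 9) 
(.lf (nat_lit 587059) (.g (nat_lit 3781) (.e (nat_lit 393290) (nat_lit 26) (.e (nat_lit 475179) (nat_lit 24) (.e (nat_lit 516115) (nat_lit 1) (.e (nat_lit 164325) (nat_lit 230) (.e (nat_lit 163907) (nat_lit 12) (.e (nat_lit 426566) (nat_lit 34) .nil)))))) (.g (nat_lit 1) (.e (nat_lit 390481) (nat_lit 0) .nil) .nil))) 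
(.lf (nat_lit 587571) (.g (nat_lit 426) (.e (nat_lit 401434) (nat_lit 9) (.e (nat_lit 426140) (nat_lit 3) (.e (nat_lit 204821) (nat_lit 17) .nil))) (.g (nat_lit 0) (.e (nat_lit 391437) (nat_lit 0) .nil) .nil))))) (.nd (nat_lit 8) (.nd (nat_lit 9) 
(.lf (nat_lit 586931) (.g (nat_lit 3283) (.e (nat_lit 393283) (nat_lit 24) (.e (nat_lit 434271) (nat_lit 38) (.e (nat_lit 655378) (nat_lit 4) (.e (nat_lit 172125) (nat_lit 14) (.e (nat_lit 491570) (nat_lit 13) .nil))))) (.g (nat_lit 1) (.e (nat_lit 390293) (nat_lit 0) .nil) .nil))) 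
(.lf (nat_lit 587443) (.g (nat_lit 3923) (.e (nat_lit 401427) (nat_lit 3) (.e (nat_lit 204869) (nat_lit 29) (.e (nat_lit 360472) (nat_lit 8) (.e (nat_lit 557087) (nat_lit 11) (.e (nat_lit 24661) (nat_lit 14) .nil))))) (.g (nat_lit 1) (.e (nat_lit 391067) (nat_lit 0) .nil) .nil)))) (.nd (nat_lit 9) 
(.lf (nat_lit 587187) (.g (nat_lit 3219) (.e (nat_lit 393293) (nat_lit 26) (.e (nat_lit 475179) (nat_lit 24) (.e (nat_lit 516115) (nat_lit 1) (.e (nat_lit 164325) (nat_lit 230) (.e (nat_lit 163901) (nat_lit 12) (.e (nat_lit 426566) (nat_lit 34) .nil)))))) (.g (nat_lit 1) (.e (nat_lit 390610) (nat_lit 0) .nil) .nil))) 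
(.lf (nat_lit 587699) (.g (nat_lit 2612) (.e (nat_lit 401448) (nat_lit 10) (.e (nat_lit 434231) (nat_lit 23) (.e (nat_lit 532569) (nat_lit 16) (.e (nat_lit 401448) (nat_lit 10) (.e (nat_lit 434234) (nat_lit 23) .nil))))) (.g (nat_lit 0) (.e (nat_lit 391955) (nat_lit 0) .nil) .nil)))))) (.nd (nat_lit 7) (.nd (nat_lit 8) (.nd (nat_lit 9) 
(.lf (nat_lit 586867) (.g (nat_lit 2339) (.e (nat_lit 393282) (nat_lit 24) (.e (nat_lit 434231) (nat_lit 23) (.e (nat_lit 532500) (nat_lit 1) (.e (nat_lit 57661) (nat_lit 152) .nil)))) (.g (nat_lit 0) (.e (nat_lit 390202) (nat_lit 0) .nil) .nil))) 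
(.lf (nat_lit 587379) (.g (nat_lit 542) (.e (nat_lit 401424) (nat_lit 2) (.e (nat_lit 196674) (nat_lit 15) (.e (nat_lit 81947) (nat_lit 20) .nil))) (.g (nat_lit 0) (.e (nat_lit 390909) (nat_lit 0) .nil) .nil)))) (.nd (nat_lit 9) 
(.lf (nat_lit 587123) (.g (nat_lit 2415) (.e (nat_lit 393291) (nat_lit 26) (.e (nat_lit 475179) (nat_lit 24) (.e (nat_lit 516115) (nat_lit 1) (.e (nat_lit 164332) (nat_lit 230) (.e (nat_lit 163905) (nat_lit 12) .nil))))) (.g (nat_lit 0) (.e (nat_lit 390546) (nat_lit 0) .nil) .nil))) 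
(.lf (nat_lit 587635) (.g (nat_lit 3138) (.e (nat_lit 401446) (nat_lit 10) (.e (nat_lit 434212) (nat_lit 18) (.e (nat_lit 6425) (nat_lit 342) (.e (nat_lit 229412) (nat_lit 14) (.e (nat_lit 442390) (nat_lit 11) (.e (nat_lit 336230) (nat_lit 14) .nil)))))) (.g (nat_lit 1) (.e (nat_lit 391690) (nat_lit 0) .nil) .nil))))) (.nd (nat_lit 8) (.nd (nat_lit 9) 
(.lf (nat_lit 586995) (.g (nat_lit 3502) (.e (nat_lit 393286) (nat_lit 25) (.e (nat_lit 458789) (nat_lit 23) (.e (nat_lit 532504) (nat_lit 1) (.e (nat_lit 57691) (nat_lit 156) (.e (nat_lit 163907) (nat_lit 12) (.e (nat_lit 426568) (nat_lit 34) .nil)))))) (.g (nat_lit 1) (.e (nat_lit 390396) (nat_lit 0) .nil) .nil))) 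
(.lf (nat_lit 587507) (.g (nat_lit 3123) (.e (nat_lit 401428) (nat_lit 3) (.e (nat_lit 204869) (nat_lit 29) (.e (nat_lit 360451) (nat_lit 0) (.e (nat_lit 4046) (nat_lit 245) .nil)))) (.g (nat_lit 0) (.e (nat_lit 391185) (nat_lit 0) .nil) .nil)))) (.nd (nat_lit 9) 
(.lf (nat_lit 587251) (.g (nat_lit 3540) (.e (nat_lit 393295) (nat_lit 26) (.e (nat_lit 475177) (nat_lit 24) (.e (nat_lit 516119) (nat_lit 1) (.e (nat_lit 164327) (nat_lit 230) (.e (nat_lit 163903) (nat_lit 12) (.e (nat_lit 426566) (nat_lit 34) .nil)))))) (.g (nat_lit 1) (.e (nat_lit 390676) (nat_lit 0) .nil) .nil))) 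
(.lf (nat_lit 587763) (.g (nat_lit 4431) (.e (nat_lit 401450) (nat_lit 12) (.e (nat_lit 475185) (nat_lit 29) (.e (nat_lit 557107) (nat_lit 15) (.e (nat_lit 188452) (nat_lit 23) (.e (nat_lit 204884) (nat_lit 33) .nil))))) (.g (nat_lit 1) (.e (nat_lit 392093) (nat_lit 0) .nil) .nil))))))))) (.nd (nat_lit 4) (.nd (nat_lit 5) (.nd (nat_lit 6) (.nd (nat_lit 7) (.nd (nat_lit 8) (.nd (nat_lit 9) 
(.lf (nat_lit 586763) (.g (nat_lit 2357) (.e (nat_lit 393281) (nat_lit 23) (.e (nat_lit 426099) (nat_lit 1) (.e (nat_lit 164330) (nat_lit 230) (.e (nat_lit 163877) (nat_lit 4) (.e (nat_lit 213032) (nat_lit 11) (.e (nat_lit 24655) (nat_lit 13) .nil)))))) (.g (nat_lit 1) (.e (nat_lit 390073) (nat_lit 0) .nil) .nil))) 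
(.lf (nat_lit 587275) (.g (nat_lit 3640) (.e (nat_lit 393296) (nat_lit 26) (.e (nat_lit 475177) (nat_lit 24) (.e (nat_lit 516117) (nat_lit 1) (.e (nat_lit 164330) (nat_lit 230) (.e (nat_lit 163902) (nat_lit 12) (.e (nat_lit 426566) (nat_lit 34) .nil)))))) (.g (nat_lit 1) (.e (nat_lit 390700) (nat_lit 0) .nil) .nil)))) (.nd (nat_lit 9) 
(.lf (nat_lit 587019) (.g (nat_lit 3986) (.e (nat_lit 393287) (nat_lit 25) (.e (nat_lit 458789) (nat_lit 23) (.e (nat_lit 532499) (nat_lit 1) (.e (nat_lit 57688) (nat_lit 156) (.e (nat_lit 163907) (nat_lit 12) (.e (nat_lit 426568) (nat_lit 34) .nil)))))) (.g (nat_lit 1) (.e (nat_lit 390438) (nat_lit 0) .nil) .nil))) 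
(.lf (nat_lit 587531) (.g (nat_lit 3498) (.e (nat_lit 401428) (nat_lit 3) (.e (nat_lit 204869) (nat_lit 29) (.e (nat_lit 360474) (nat_lit 8) (.e (nat_lit 557065) (nat_lit 9) (.e (nat_lit 239) (nat_lit 21) .nil))))) (.g (nat_lit 0) (.e (nat_lit 391252) (nat_lit 0) .nil) .nil))))) (.nd (nat_lit 8) (.nd (nat_lit 9) 
(.lf (nat_lit 586891) (.g (nat_lit 1658) (.e (nat_lit 393282) (nat_lit 24) (.e (nat_lit 434233) (nat_lit 23) (.e (nat_lit 532499) (nat_lit 1) (.e (nat_lit 57692) (nat_lit 156) (.e (nat_lit 163907) (nat_lit 12) .nil))))) (.g (nat_lit 0) (.e (nat_lit 390226) (nat_lit 0) .nil) .nil))) 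
(.lf (nat_lit 587403) (.g (nat_lit 2009) (.e (nat_lit 401425) (nat_lit 2) (.e (nat_lit 196666) (nat_lit 13) (.e (nat_lit 65624) (nat_lit 12) (.e (nat_lit 385073) (nat_lit 31) .nil)))) (.g (nat_lit 0) (.e (nat_lit 390939) (nat_lit 0) .nil) .nil)))) (.nd (nat_lit 9) 
(.lf (nat_lit 587147) (.g (nat_lit 2471) (.e (nat_lit 393293) (nat_lit 26) (.e (nat_lit 475175) (nat_lit 24) (.e (nat_lit 516119) (nat_lit 1) (.e (nat_lit 164326) (nat_lit 230) (.e (nat_lit 163903) (nat_lit 12) (.e (nat_lit 426567) (nat_lit 34) .nil)))))) (.g (nat_lit 1) (.e (nat_lit 390570) (nat_lit 0) .nil) .nil))) 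
(.lf (nat_lit 587659) (.g (nat_lit 697) (.e (nat_lit 401447) (nat_lit 10) (.e (nat_lit 434231) (nat_lit 23) (.e (nat_lit 532569) (nat_lit 16) .nil))) (.g (nat_lit 0) (.e (nat_lit 391813) (nat_lit 0) .nil) .nil)))))) (.nd (nat_lit 7) (.nd (nat_lit 8) (.nd (nat_lit 9) 
(.lf (nat_lit 586827) (.g (nat_lit 2917) (.e (nat_lit 393281) (nat_lit 23) (.e (nat_lit 426139) (nat_lit 3) (.e (nat_lit 204829) (nat_lit 18) (.e (nat_lit 57688) (nat_lit 156) (.e (nat_lit 163905) (nat_lit 12) (.e (nat_lit 426568) (nat_lit 34) .nil)))))) (.g (nat_lit 1) (.e (nat_lit 390152) (nat_lit 0) .nil) .nil))) 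
(.lf (nat_lit 587339) (.g (nat_lit 792) (.e (nat_lit 393299) (nat_lit 27) (.e (nat_lit 491549) (nat_lit 9) (.e (nat_lit 336370) (nat_lit 27) .nil))) (.g (nat_lit 0) (.e (nat_lit 390774) (nat_lit 0) .nil) .nil)))) (.nd (nat_lit 9) 
(.lf (nat_lit 587083) (.g (nat_lit 3117) (.e (nat_lit 393291) (nat_lit 26) (.e (nat_lit 475177) (nat_lit 24) (.e (nat_lit 516115) (nat_lit 1) (.e (nat_lit 164327) (nat_lit 230) (.e (nat_lit 163903) (nat_lit 12) (.e (nat_lit 426567) (nat_lit 34) .nil)))))) (.g (nat_lit 1) (.e (nat_lit 390506) (nat_lit 0) .nil) .nil))) 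
(.lf (nat_lit 587595) (.g (nat_lit 548) (.e (nat_lit 401438) (nat_lit 9) (.e (nat_lit 426482) (nat_lit 27) (.e (nat_lit 336166) (nat_lit 10) .nil))) (.g (nat_lit 0) (.e (nat_lit 391493) (nat_lit 0) .nil) .nil))))) (.nd (nat_lit 8) (.nd (nat_lit 9) 
(.lf (nat_lit 586955) (.g (nat_lit 2534) (.e (nat_lit 393286) (nat_lit 25) (.e (nat_lit 458774) (nat_lit 18) (.e (nat_lit 5548) (nat_lit 306) (.e (nat_lit 2640) (nat_lit 165) (.e (nat_lit 180278) (nat_lit 32) (.e (nat_lit 1660) (nat_lit 115) .nil)))))) (.g (nat_lit 1) (.e (nat_lit 390354) (nat_lit 0) .nil) .nil))) 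
(.lf (nat_lit 587467) (.g (nat_lit 1463) (.e (nat_lit 401428) (nat_lit 3) (.e (nat_lit 204854) (nat_lit 26) (.e (nat_lit 336208) (nat_lit 12) (.e (nat_lit 385073) (nat_lit 31) (.e (nat_lit 573485) (nat_lit 13) .nil))))) (.g (nat_lit 0) (.e (nat_lit 391102) (nat_lit 0) .nil) .nil)))) (.nd (nat_lit 9) 
(.lf (nat_lit 587211) (.g (nat_lit 2889) (.e (nat_lit 393294) (nat_lit 26) (.e (nat_lit 475177) (nat_lit 24) (.e (nat_lit 516115) (nat_lit 1) (.e (nat_lit 164327) (nat_lit 230) (.e (nat_lit 163904) (nat_lit 12) (.e (nat_lit 426566) (nat_lit 34) .nil)))))) (.g (nat_lit 1) (.e (nat_lit 390634) (nat_lit 0) .nil) .nil))) 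
(.lf (nat_lit 587723) (.g (nat_lit 1350) (.e (nat_lit 401448) (nat_lit 10) (.e (nat_lit 434244) (nat_lit 28) (.e (nat_lit 573470) (nat_lit 11) (.e (nat_lit 16451) (nat_lit 11) .nil)))) (.g (nat_lit 0) (.e (nat_lit 391998) (nat_lit 0) .nil) .nil))))))) (.nd (nat_lit 6) (.nd (nat_lit 7) (.nd (nat_lit 8) (.nd (nat_lit 9) 
(.lf (nat_lit 586795) (.g (nat_lit 2898) (.e (nat_lit 393281) (nat_lit 23) (.e (nat_lit 426100) (nat_lit 1) (.e (nat_lit 164332) (nat_lit 230) (.e (nat_lit 163878) (nat_lit 4) (.e (nat_lit 213030) (nat_lit 11) (.e (nat_lit 24660) (nat_lit 13) .nil)))))) (.g (nat_lit 1) (.e (nat_lit 390108) (nat_lit 0) .nil) .nil))) 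
(.lf (nat_lit 587307) (.g (nat_lit 1245) (.e (nat_lit 393296) (nat_lit 26) (.e (nat_lit 475178) (nat_lit 24) (.e (nat_lit 516120) (nat_lit 1) (.e (nat_lit 164329) (nat_lit 230) (.e (nat_lit 163909) (nat_lit 12) (.e (nat_lit 433920) (nat_lit 34) .nil)))))) (.g (nat_lit 1) (.e (nat_lit 390732) (nat_lit 0) .nil) .nil)))) (.nd (nat_lit 9) 
(.lf (nat_lit 587051) (.g (nat_lit 1712) (.e (nat_lit 393289) (nat_lit 25) (.e (nat_lit 458789) (nat_lit 23) (.e (nat_lit 532499) (nat_lit 1) (.e (nat_lit 57655) (nat_lit 152) (.e (nat_lit 2633) (nat_lit 164) (.e (nat_lit 179968) (nat_lit 34) .nil)))))) (.g (nat_lit 1) (.e (nat_lit 390472) (nat_lit 0) .nil) .nil))) 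
(.lf (nat_lit 587563) (.g (nat_lit 1001) (.e (nat_lit 401432) (nat_lit 7) (.e (nat_lit 409649) (nat_lit 18) (.e (nat_lit 303135) (nat_lit 10) .nil))) (.g (nat_lit 0) (.e (nat_lit 391395) (nat_lit 0) .nil) .nil))))) (.nd (nat_lit 8) (.nd (nat_lit 9) 
(.lf (nat_lit 586923) (.g (nat_lit 559) (.e (nat_lit 393283) (nat_lit 24) (.e (nat_lit 434244) (nat_lit 28) (.e (nat_lit 573473) (nat_lit 12) .nil))) (.g (nat_lit 0) (.e (nat_lit 390268) (nat_lit 0) .nil) .nil))) 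
(.lf (nat_lit 587435) (.g (nat_lit 855) (.e (nat_lit 401427) (nat_lit 3) (.e (nat_lit 204869) (nat_lit 29) (.e (nat_lit 360448) (nat_lit 0) .nil))) (.g (nat_lit 0) (.e (nat_lit 391028) (nat_lit 0) .nil) .nil)))) (.nd (nat_lit 9) 
(.lf (nat_lit 587179) (.g (nat_lit 3016) (.e (nat_lit 393293) (nat_lit 26) (.e (nat_lit 475177) (nat_lit 24) (.e (nat_lit 516119) (nat_lit 1) (.e (nat_lit 164327) (nat_lit 230) (.e (nat_lit 163903) (nat_lit 12) (.e (nat_lit 426568) (nat_lit 34) .nil)))))) (.g (nat_lit 1) (.e (nat_lit 390602) (nat_lit 0) .nil) .nil))) 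
(.lf (nat_lit 587691) (.g (nat_lit 1464) (.e (nat_lit 401448) (nat_lit 10) (.e (nat_lit 434231) (nat_lit 23) (.e (nat_lit 532568) (nat_lit 16) (.e (nat_lit 401446) (nat_lit 10) .nil)))) (.g (nat_lit 0) (.e (nat_lit 391947) (nat_lit 0) .nil) .nil)))))) (.nd (nat_lit 7) (.nd (nat_lit 8) (.nd (nat_lit 9) 
(.lf (nat_lit 586859) (.g (nat_lit 1475) (.e (nat_lit 393282) (nat_lit 24) (.e (nat_lit 434231) (nat_lit 23) (.e (nat_lit 532490) (nat_lit 0) (.e (nat_lit 1040) (nat_lit 81) .nil)))) (.g (nat_lit 0) (.e (nat_lit 390194) (nat_lit 0) .nil) .nil))) 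
(.lf (nat_lit 587371) (.g (nat_lit 4661) (.e (nat_lit 401424) (nat_lit 2) (.e (nat_lit 196663) (nat_lit 13) (.e (nat_lit 65630) (nat_lit 14) (.e (nat_lit 401425) (nat_lit 2) (.e (nat_lit 196666) (nat_lit 13) (.e (nat_lit 65630) (nat_lit 14) .nil)))))) (.g (nat_lit 1) (.e (nat_lit 390884) (nat_lit 0) .nil) .nil)))) (.nd (nat_lit 9) 
(.lf (nat_lit 587115) (.g (nat_lit 2819) (.e (nat_lit 393291) (nat_lit 26) (.e (nat_lit 475179) (nat_lit 24) (.e (nat_lit 516115) (nat_lit 1) (.e (nat_lit 164325) (nat_lit 230) (.e (nat_lit 163903) (nat_lit 12) (.e (nat_lit 426567) (nat_lit 34) .nil)))))) (.g (nat_lit 1) (.e (nat_lit 390538) (nat_lit 0) .nil) .nil))) 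
(.lf (nat_lit 587627) (.g (nat_lit 243) (.e (nat_lit 401444) (nat_lit 9) (.e (nat_lit 426163) (nat_lit 6) (.e (nat_lit 253992) (nat_lit 11) .nil))) (.g (nat_lit 0) (.e (nat_lit 391585) (nat_lit 0) .nil) .nil))))) (.nd (nat_lit 8) (.nd (nat_lit 9) 
(.lf (nat_lit 586987) (.g (nat_lit 2017) (.e (nat_lit 393286) (nat_lit 25) (.e (nat_lit 458789) (nat_lit 23) (.e (nat_lit 532503) (nat_lit 1) (.e (nat_lit 57651) (nat_lit 152) (.e (nat_lit 2619) (nat_lit 164) (.e (nat_lit 179968) (nat_lit 34) .nil)))))) (.g (nat_lit 1) (.e (nat_lit 390388) (nat_lit 0) .nil) .nil))) 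
(.lf (nat_lit 587499) (.g (nat_lit 3356) (.e (nat_lit 401428) (nat_lit 3) (.e (nat_lit 204869) (nat_lit 29) (.e (nat_lit 360450) (nat_lit 0) (.e (nat_lit 4004) (nat_lit 242) .nil)))) (.g (nat_lit 0) (.e (nat_lit 391172) (nat_lit 0) .nil) .nil)))) (.nd (nat_lit 9) 
(.lf (nat_lit 587243) (.g (nat_lit 3637) (.e (nat_lit 393295) (nat_lit 26) (.e (nat_lit 475177) (nat_lit 24) (.e (nat_lit 516115) (nat_lit 1) (.e (nat_lit 164325) (nat_lit 230) (.e (nat_lit 163907) (nat_lit 12) (.e (nat_lit 426566) (nat_lit 34) .nil)))))) (.g (nat_lit 1) (.e (nat_lit 390668) (nat_lit 0) .nil) .nil))) 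
(.lf (nat_lit 587755) (.g (nat_lit 2517) (.e (nat_lit 401448) (nat_lit 10) (.e (nat_lit 434291) (nat_lit 44) (.e (nat_lit 704737) (nat_lit 11) (.e (nat_lit 16392) (nat_lit 0) (.e (nat_lit 7936) (nat_lit 390) (.e (nat_lit 24665) (nat_lit 14) .nil)))))) (.g (nat_lit 1) (.e (nat_lit 392070) (nat_lit 0) .nil) .nil)))))))) 
(.nd (nat_lit 5) (.nd (nat_lit 6) (.nd (nat_lit 7) (.nd (nat_lit 8) (.nd (nat_lit 9) 
(.lf (nat_lit 586779) (.g (nat_lit 1186) (.e (nat_lit 393281) (nat_lit 23) (.e (nat_lit 426099) (nat_lit 1) (.e (nat_lit 164332) (nat_lit 230) (.e (nat_lit 163893) (nat_lit 9) .nil)))) (.g (nat_lit 0) (.e (nat_lit 390089) (nat_lit 0) .nil) .nil))) 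
(.lf (nat_lit 587291) (.g (nat_lit 2070) (.e (nat_lit 393296) (nat_lit 26) (.e (nat_lit 475178) (nat_lit 24) (.e (nat_lit 516117) (nat_lit 1) (.e (nat_lit 164305) (nat_lit 226) (.e (nat_lit 2439) (nat_lit 157) (.e (nat_lit 2900) (nat_lit 184) (.e (nat_lit 426565) (nat_lit 34) .nil))))))) (.g (nat_lit 1) (.e (nat_lit 390716) (nat_lit 0) .nil) .nil)))) (.nd (nat_lit 9) 
(.lf (nat_lit 587035) (.g (nat_lit 2204) (.e (nat_lit 393287) (nat_lit 25) (.e (nat_lit 458789) (nat_lit 23) (.e (nat_lit 532503) (nat_lit 1) (.e (nat_lit 57653) (nat_lit 152) (.e (nat_lit 2633) (nat_lit 164) (.e (nat_lit 179968) (nat_lit 34) .nil)))))) (.g (nat_lit 1) (.e (nat_lit 390454) (nat_lit 0) .nil) .nil))) 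
(.lf (nat_lit 587547) (.g (nat_lit 4071) (.e (nat_lit 401428) (nat_lit 3) (.e (nat_lit 204869) (nat_lit 29) (.e (nat_lit 360475) (nat_lit 8) (.e (nat_lit 557065) (nat_lit 9) (.e (nat_lit 7936) (nat_lit 21) .nil))))) (.g (nat_lit 0) (.e (nat_lit 391322) (nat_lit 0) .nil) .nil))))) (.nd (nat_lit 8) (.nd (nat_lit 9) 
(.lf (nat_lit 586907) (.g (nat_lit 2560) (.e (nat_lit 393283) (nat_lit 24) (.e (nat_lit 434209) (nat_lit 18) (.e (nat_lit 5547) (nat_lit 306) (.e (nat_lit 2638) (nat_lit 165) (.e (nat_lit 180277) (nat_lit 32) (.e (nat_lit 1658) (nat_lit 115) .nil)))))) (.g (nat_lit 1) (.e (nat_lit 390250) (nat_lit 0) .nil) .nil))) 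
(.lf (nat_lit 587419) (.g (nat_lit 696) (.e (nat_lit 401426) (nat_lit 3) (.e (nat_lit 204866) (nat_lit 28) (.e (nat_lit 352302) (nat_lit 20) .nil))) (.g (nat_lit 0) (.e (nat_lit 390980) (nat_lit 0) .nil) .nil)))) (.nd (nat_lit 9) 
(.lf (nat_lit 587163) (.g (nat_lit 3116) (.e (nat_lit 393293) (nat_lit 26) (.e (nat_lit 475177) (nat_lit 24) (.e (nat_lit 516117) (nat_lit 1) (.e (nat_lit 164330) (nat_lit 230) (.e (nat_lit 163902) (nat_lit 12) (.e (nat_lit 426567) (nat_lit 34) .nil)))))) (.g (nat_lit 1) (.e (nat_lit 390586) (nat_lit 0) .nil) .nil))) 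
(.lf (nat_lit 587675) (.g (nat_lit 1919) (.e (nat_lit 401448) (nat_lit 10) (.e (nat_lit 434231) (nat_lit 23) (.e (nat_lit 532490) (nat_lit 0) (.e (nat_lit 6136) (nat_lit 332) .nil)))) (.g (nat_lit 0) (.e (nat_lit 391928) (nat_lit 0) .nil) .nil)))))) (.nd (nat_lit 7) (.nd (nat_lit 8) (.nd (nat_lit 9) 
(.lf (nat_lit 586843) (.g (nat_lit 3653) (.e (nat_lit 393282) (nat_lit 24) (.e (nat_lit 434209) (nat_lit 18) (.e (nat_lit 5546) (nat_lit 306) (.e (nat_lit 2638) (nat_lit 165) (.e (nat_lit 180278) (nat_lit 32) (.e (nat_lit 1659) (nat_lit 115) .nil)))))) (.g (nat_lit 1) (.e (nat_lit 390174) (nat_lit 0) .nil) .nil))) 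
(.lf (nat_lit 587355) (.g (nat_lit 2378) (.e (nat_lit 401414) (nat_lit 0) (.e (nat_lit 3238) (nat_lit 197) (.e (nat_lit 532535) (nat_lit 9) (.e (nat_lit 336175) (nat_lit 10) .nil)))) (.g (nat_lit 0) (.e (nat_lit 390830) (nat_lit 0) .nil) .nil)))) (.nd (nat_lit 9) 
(.lf (nat_lit 587099) (.g (nat_lit 3119) (.e (nat_lit 393291) (nat_lit 26) (.e (nat_lit 475177) (nat_lit 24) (.e (nat_lit 516119) (nat_lit 1) (.e (nat_lit 164325) (nat_lit 230) (.e (nat_lit 163907) (nat_lit 12) (.e (nat_lit 426564) (nat_lit 34) .nil)))))) (.g (nat_lit 1) (.e (nat_lit 390522) (nat_lit 0) .nil) .nil))) 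
(.lf (nat_lit 587611) (.g (nat_lit 2208) (.e (nat_lit 401440) (nat_lit 9) (.e (nat_lit 426470) (nat_lit 25) (.e (nat_lit 319490) (nat_lit 0) (.e (nat_lit 5771) (nat_lit 316) (.e (nat_lit 172150) (nat_lit 27) (.e (nat_lit 336232) (nat_lit 14) .nil)))))) (.g (nat_lit 1) (.e (nat_lit 391523) (nat_lit 0) .nil) .nil))))) (.nd (nat_lit 8) (.nd (nat_lit 9) 
(.lf (nat_lit 586971) (.g (nat_lit 2870) (.e (nat_lit 393286) (nat_lit 25) (.e (nat_lit 458789) (nat_lit 23) (.e (nat_lit 532499) (nat_lit 1) (.e (nat_lit 57691) (nat_lit 156) (.e (nat_lit 163907) (nat_lit 12) (.e (nat_lit 426566) (nat_lit 34) .nil)))))) (.g (nat_lit 1) (.e (nat_lit 390372) (nat_lit 0) .nil) .nil))) 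
(.lf (nat_lit 587483) (.g (nat_lit 1096) (.e (nat_lit 401428) (nat_lit 3) (.e (nat_lit 204863) (nat_lit 27) (.e (nat_lit 344074) (nat_lit 13) .nil))) (.g (nat_lit 0) (.e (nat_lit 391128) (nat_lit 0) .nil) .nil)))) (.nd (nat_lit 9) 
(.lf (nat_lit 587227) (.g (nat_lit 2839) (.e (nat_lit 393294) (nat_lit 26) (.e (nat_lit 475179) (nat_lit 24) (.e (nat_lit 516119) (nat_lit 1) (.e (nat_lit 164325) (nat_lit 230) (.e (nat_lit 163907) (nat_lit 12) (.e (nat_lit 433920) (nat_lit 34) .nil)))))) (.g (nat_lit 1) (.e (nat_lit 390650) (nat_lit 0) .nil) .nil))) 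
(.lf (nat_lit 587739) (.g (nat_lit 3704) (.e (nat_lit 401448) (nat_lit 10) (.e (nat_lit 434248) (nat_lit 28) (.e (nat_lit 573471) (nat_lit 11) (.e (nat_lit 16433) (nat_lit 9) (.e (nat_lit 426131) (nat_lit 3) (.e (nat_lit 204885) (nat_lit 33) .nil)))))) (.g (nat_lit 1) (.e (nat_lit 392024) (nat_lit 0) .nil) .nil))))))) (.nd (nat_lit 6) (.nd (nat_lit 7) (.nd (nat_lit 8) (.nd (nat_lit 9) 
(.lf (nat_lit 586811) (.g (nat_lit 1348) (.e (nat_lit 393281) (nat_lit 23) (.e (nat_lit 426107) (nat_lit 1) (.e (nat_lit 164348) (nat_lit 240) (.e (nat_lit 2640) (nat_lit 165) .nil)))) (.g (nat_lit 0) (.e (nat_lit 390130) (nat_lit 0) .nil) .nil))) 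
(.lf (nat_lit 587323) (.g (nat_lit 4148) (.e (nat_lit 393296) (nat_lit 26) (.e (nat_lit 475179) (nat_lit 24) (.e (nat_lit 516119) (nat_lit 1) (.e (nat_lit 164326) (nat_lit 230) (.e (nat_lit 163903) (nat_lit 12) (.e (nat_lit 426566) (nat_lit 34) .nil)))))) (.g (nat_lit 1) (.e (nat_lit 390748) (nat_lit 0) .nil) .nil)))) (.nd (nat_lit 9) 
(.lf (nat_lit 587067) (.g (nat_lit 1763) (.e (nat_lit 393290) (nat_lit 26) (.e (nat_lit 475179) (nat_lit 24) (.e (nat_lit 516119) (nat_lit 1) (.e (nat_lit 164332) (nat_lit 230) .nil)))) (.g (nat_lit 0) (.e (nat_lit 390489) (nat_lit 0) .nil) .nil))) 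
(.lf (nat_lit 587579) (.g (nat_lit 1171) (.e (nat_lit 401435) (nat_lit 9) (.e (nat_lit 426555) (nat_lit 32) (.e (nat_lit 376834) (nat_lit 0) .nil))) (.g (nat_lit 0) (.e (nat_lit 391457) (nat_lit 0) .nil) .nil))))) (.nd (nat_lit 8) (.nd (nat_lit 9) 
(.lf (nat_lit 586939) (.g (nat_lit 1754) (.e (nat_lit 393284) (nat_lit 24) (.e (nat_lit 434233) (nat_lit 23) (.e (nat_lit 532503) (nat_lit 1) (.e (nat_lit 57651) (nat_lit 152) (.e (nat_lit 2619) (nat_lit 164) (.e (nat_lit 179968) (nat_lit 34) .nil)))))) (.g (nat_lit 1) (.e (nat_lit 390311) (nat_lit 0) .nil) .nil))) 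
(.lf (nat_lit 587451) (.g (nat_lit 4057) (.e (nat_lit 401427) (nat_lit 3) (.e (nat_lit 204869) (nat_lit 29) (.e (nat_lit 360474) (nat_lit 8) (.e (nat_lit 557085) (nat_lit 11) (.e (nat_lit 24665) (nat_lit 14) .nil))))) (.g (nat_lit 1) (.e (nat_lit 391075) (nat_lit 0) .nil) .nil)))) (.nd (nat_lit 9) 
(.lf (nat_lit 587195) (.g (nat_lit 3270) (.e (nat_lit 393293) (nat_lit 26) (.e (nat_lit 475179) (nat_lit 24) (.e (nat_lit 516119) (nat_lit 1) (.e (nat_lit 164326) (nat_lit 230) (.e (nat_lit 163903) (nat_lit 12) (.e (nat_lit 426567) (nat_lit 34) .nil)))))) (.g (nat_lit 1) (.e (nat_lit 390618) (nat_lit 0) .nil) .nil))) 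
(.lf (nat_lit 587707) (.g (nat_lit 3111) (.e (nat_lit 401448) (nat_lit 10) (.e (nat_lit 434234) (nat_lit 23) (.e (nat_lit 532523) (nat_lit 7) (.e (nat_lit 319538) (nat_lit 19) (.e (nat_lit 311315) (nat_lit 3) (.e (nat_lit 204885) (nat_lit 33) .nil)))))) (.g (nat_lit 1) (.e (nat_lit 391968) (nat_lit 0) .nil) .nil)))))) (.nd (nat_lit 7) (.nd (nat_lit 8) (.nd (nat_lit 9) 
(.lf (nat_lit 586875) (.g (nat_lit 1739) (.e (nat_lit 393282) (nat_lit 24) (.e (nat_lit 434231) (nat_lit 23) (.e (nat_lit 532502) (nat_lit 1) (.e (nat_lit 57688) (nat_lit 156) .nil)))) (.g (nat_lit 0) (.e (nat_lit 390210) (nat_lit 0) .nil) .nil))) 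
(.lf (nat_lit 587387) (.g (nat_lit 1365) (.e (nat_lit 401425) (nat_lit 2) (.e (nat_lit 196666) (nat_lit 13) (.e (nat_lit 65610) (nat_lit 10) (.e (nat_lit 344126) (nat_lit 25) .nil)))) (.g (nat_lit 0) (.e (nat_lit 390922) (nat_lit 0) .nil) .nil)))) (.nd (nat_lit 9) 
(.lf (nat_lit 587131) (.g (nat_lit 2202) (.e (nat_lit 393291) (nat_lit 26) (.e (nat_lit 475179) (nat_lit 24) (.e (nat_lit 516120) (nat_lit 1) (.e (nat_lit 164330) (nat_lit 230) (.e (nat_lit 163905) (nat_lit 12) .nil))))) (.g (nat_lit 0) (.e (nat_lit 390554) (nat_lit 0) .nil) .nil))) 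
(.lf (nat_lit 587643) (.g (nat_lit 2412) (.e (nat_lit 401446) (nat_lit 10) (.e (nat_lit 434231) (nat_lit 23) (.e (nat_lit 532569) (nat_lit 16) (.e (nat_lit 401448) (nat_lit 10) (.e (nat_lit 434234) (nat_lit 23) .nil))))) (.g (nat_lit 0) (.e (nat_lit 391716) (nat_lit 0) .nil) .nil))))) (.nd (nat_lit 8) (.nd (nat_lit 9) 
(.lf (nat_lit 587003) (.g (nat_lit 2867) (.e (nat_lit 393287) (nat_lit 25) (.e (nat_lit 458774) (nat_lit 18) (.e (nat_lit 5548) (nat_lit 306) (.e (nat_lit 2638) (nat_lit 165) (.e (nat_lit 180278) (nat_lit 32) (.e (nat_lit 1660) (nat_lit 115) .nil)))))) (.g (nat_lit 1) (.e (nat_lit 390416) (nat_lit 0) .nil) .nil))) 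
(.lf (nat_lit 587515) (.g (nat_lit 1932) (.e (nat_lit 401428) (nat_lit 3) (.e (nat_lit 204869) (nat_lit 29) (.e (nat_lit 360455) (nat_lit 0) (.e (nat_lit 3966) (nat_lit 239) .nil)))) (.g (nat_lit 0) (.e (nat_lit 391195) (nat_lit 0) .nil) .nil)))) (.nd (nat_lit 9) 
(.lf (nat_lit 587259) (.g (nat_lit 3043) (.e (nat_lit 393295) (nat_lit 26) (.e (nat_lit 475179) (nat_lit 24) (.e (nat_lit 516117) (nat_lit 1) (.e (nat_lit 164330) (nat_lit 230) (.e (nat_lit 163905) (nat_lit 12) .nil))))) (.g (nat_lit 0) (.e (nat_lit 390684) (nat_lit 0) .nil) .nil))) 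
(.lf (nat_lit 587771) (.g (nat_lit 5129) (.e (nat_lit 401451) (nat_lit 12) (.e (nat_lit 475183) (nat_lit 29) (.e (nat_lit 557108) (nat_lit 15) (.e (nat_lit 188452) (nat_lit 23) (.e (nat_lit 204885) (nat_lit 33) .nil))))) (.g (nat_lit 1) (.e (nat_lit 392106) (nat_lit 0) .nil) .nil)))))))))) 
(.nd (nat_lit 3) (.nd (nat_lit 4) (.nd (nat_lit 5) (.nd (nat_lit 6) (.nd (nat_lit 7) 
(.nd (nat_lit 8) (.nd (nat_lit 9) 
(.lf (nat_lit 586759) (.g (nat_lit 2304) (.e (nat_lit 393281) (nat_lit 23) (.e (nat_lit 426098) (nat_lit 1) (.e (nat_lit 164348) (nat_lit 240) (.e (nat_lit 2638) (nat_lit 165) (.e (nat_lit 180278) (nat_lit 32) (.e (nat_lit 1658) (nat_lit 115) .nil)))))) (.g (nat_lit 1) (.e (nat_lit 390066) (nat_lit 0) .nil) .nil))) 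
(.lf (nat_lit 587271) (.g (nat_lit 3689) (.e (nat_lit 393296) (nat_lit 26) (.e (nat_lit 475176) (nat_lit 24) (.e (nat_lit 516117) (nat_lit 1) (.e (nat_lit 164330) (nat_lit 230) (.e (nat_lit 163902) (nat_lit 12) (.e (nat_lit 426566) (nat_lit 34) .nil)))))) (.g (nat_lit 1) (.e (nat_lit 390696) (nat_lit 0) .nil) .nil)))) (.nd (nat_lit 9) 
(.lf (nat_lit 587015) (.g (nat_lit 3598) (.e (nat_lit 393287) (nat_lit 25) (.e (nat_lit 458789) (nat_lit 23) (.e (nat_lit 532499) (nat_lit 1) (.e (nat_lit 57687) (nat_lit 156) (.e (nat_lit 163903) (nat_lit 12) (.e (nat_lit 426568) (nat_lit 34) .nil)))))) (.g (nat_lit 1) (.e (nat_lit 390434) (nat_lit 0) .nil) .nil))) 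
(.lf (nat_lit 587527) (.g (nat_lit 3498) (.e (nat_lit 401428) (nat_lit 3) (.e (nat_lit 204869) (nat_lit 29) (.e (nat_lit 360474) (nat_lit 8) (.e (nat_lit 557065) (nat_lit 9) (.e (nat_lit 228) (nat_lit 21) .nil))))) (.g (nat_lit 0) (.e (nat_lit 391248) (nat_lit 0) .nil) .nil))))) (.nd (nat_lit 8) (.nd (nat_lit 9) 
(.lf (nat_lit 586887) (.g (nat_lit 2336) (.e (nat_lit 393282) (nat_lit 24) (.e (nat_lit 434233) (nat_lit 23) (.e (nat_lit 532499) (nat_lit 1) (.e (nat_lit 57688) (nat_lit 156) (.e (nat_lit 163902) (nat_lit 12) (.e (nat_lit 426566) (nat_lit 34) .nil)))))) (.g (nat_lit 1) (.e (nat_lit 390222) (nat_lit 0) .nil) .nil))) 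
(.lf (nat_lit 587399) (.g (nat_lit 2429) (.e (nat_lit 401425) (nat_lit 2) (.e (nat_lit 196666) (nat_lit 13) (.e (nat_lit 65623) (nat_lit 12) (.e (nat_lit 385074) (nat_lit 31) (.e (nat_lit 573482) (nat_lit 13) .nil))))) (.g (nat_lit 0) (.e (nat_lit 390934) (nat_lit 0) .nil) .nil)))) (.nd (nat_lit 9) 
(.lf (nat_lit 587143) (.g (nat_lit 2548) (.e (nat_lit 393292) (nat_lit 26) (.e (nat_lit 475179) (nat_lit 24) (.e (nat_lit 516120) (nat_lit 1) (.e (nat_lit 164330) (nat_lit 230) (.e (nat_lit 163905) (nat_lit 12) .nil))))) (.g (nat_lit 0) (.e (nat_lit 390566) (nat_lit 0) .nil) .nil))) 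
(.lf (nat_lit 587655) (.g (nat_lit 2876) (.e (nat_lit 401446) (nat_lit 10) (.e (nat_lit 434289) (nat_lit 43) (.e (nat_lit 696329) (nat_lit 5) (.e (nat_lit 2988) (nat_lit 186) (.e (nat_lit 442390) (nat_lit 11) (.e (nat_lit 336231) (nat_lit 14) .nil)))))) (.g (nat_lit 1) (.e (nat_lit 391798) (nat_lit 0) .nil) .nil)))))) (.nd (nat_lit 7) (.nd (nat_lit 8) (.nd (nat_lit 9) 
(.lf (nat_lit 586823) (.g (nat_lit 2726) (.e (nat_lit 393281) (nat_lit 23) (.e (nat_lit 426137) (nat_lit 3) (.e (nat_lit 204829) (nat_lit 18) (.e (nat_lit 57688) (nat_lit 156) (.e (nat_lit 163903) (nat_lit 12) (.e (nat_lit 426568) (nat_lit 34) .nil)))))) (.g (nat_lit 1) (.e (nat_lit 390148) (nat_lit 0) .nil) .nil))) 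
(.lf (nat_lit 587335) (.g (nat_lit 279) (.e (nat_lit 393298) (nat_lit 27) (.e (nat_lit 491548) (nat_lit 9) (.e (nat_lit 336370) (nat_lit 27) .nil))) (.g (nat_lit 0) (.e (nat_lit 390768) (nat_lit 0) .nil) .nil)))) (.nd (nat_lit 9) 
(.lf (nat_lit 587079) (.g (nat_lit 4180) (.e (nat_lit 393291) (nat_lit 26) (.e (nat_lit 475177) (nat_lit 24) (.e (nat_lit 516115) (nat_lit 1) (.e (nat_lit 164325) (nat_lit 230) (.e (nat_lit 163906) (nat_lit 12) (.e (nat_lit 426566) (nat_lit 34) .nil)))))) (.g (nat_lit 1) (.e (nat_lit 390502) (nat_lit 0) .nil) .nil))) 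
(.lf (nat_lit 587591) (.g (nat_lit 2854) (.e (nat_lit 401437) (nat_lit 9) (.e (nat_lit 426542) (nat_lit 29) (.e (nat_lit 352283) (nat_lit 20) (.e (nat_lit 1999) (nat_lit 137) (.e (nat_lit 663567) (nat_lit 4) (.e (nat_lit 65628) (nat_lit 14) .nil)))))) (.g (nat_lit 1) (.e (nat_lit 391483) (nat_lit 0) .nil) .nil))))) (.nd (nat_lit 8) (.nd (nat_lit 9) 
(.lf (nat_lit 586951) (.g (nat_lit 1777) (.e (nat_lit 393286) (nat_lit 25) (.e (nat_lit 458774) (nat_lit 18) (.e (nat_lit 5546) (nat_lit 306) (.e (nat_lit 2640) (nat_lit 165) (.e (nat_lit 180277) (nat_lit 32) (.e (nat_lit 1660) (nat_lit 115) .nil)))))) (.g (nat_lit 1) (.e (nat_lit 390342) (nat_lit 0) .nil) .nil))) 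
(.lf (nat_lit 587463) (.g (nat_lit 1123) (.e (nat_lit 401428) (nat_lit 3) (.e (nat_lit 204854) (nat_lit 26) (.e (nat_lit 336207) (nat_lit 12) (.e (nat_lit 385074) (nat_lit 31) .nil)))) (.g (nat_lit 0) (.e (nat_lit 391098) (nat_lit 0) .nil) .nil)))) (.nd (nat_lit 9) 
(.lf (nat_lit 587207) (.g (nat_lit 3223) (.e (nat_lit 393294) (nat_lit 26) (.e (nat_lit 475176) (nat_lit 24) (.e (nat_lit 516119) (nat_lit 1) (.e (nat_lit 164325) (nat_lit 230) (.e (nat_lit 163904) (nat_lit 12) .nil))))) (.g (nat_lit 0) (.e (nat_lit 390630) (nat_lit 0) .nil) .nil))) 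
(.lf (nat_lit 587719) (.g (nat_lit 3315) (.e (nat_lit 401448) (nat_lit 10) (.e (nat_lit 434244) (nat_lit 28) (.e (nat_lit 573450) (nat_lit 9) (.e (nat_lit 375) (nat_lit 32) (.e (nat_lit 426289) (nat_lit 10) (.e (nat_lit 434231) (nat_lit 23) (.e (nat_lit 532569) (nat_lit 16) .nil))))))) (.g (nat_lit 1) (.e (nat_lit 391990) (nat_lit 0) .nil) .nil))))))) 
(.nd (nat_lit 6) (.nd (nat_lit 7) (.nd (nat_lit 8) (.nd (nat_lit 9) 
(.lf (nat_lit 586791) (.g (nat_lit 1509) (.e (nat_lit 393281) (nat_lit 23) (.e (nat_lit 426100) (nat_lit 1) (.e (nat_lit 164332) (nat_lit 230) (.e (nat_lit 163850) (nat_lit 0) .nil)))) (.g (nat_lit 0) (.e (nat_lit 390104) (nat_lit 0) .nil) .nil))) 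
(.lf (nat_lit 587303) (.g (nat_lit 3640) (.e (nat_lit 393296) (nat_lit 26) (.e (nat_lit 475178) (nat_lit 24) (.e (nat_lit 516119) (nat_lit 1) (.e (nat_lit 164325) (nat_lit 230) (.e (nat_lit 163907) (nat_lit 12) (.e (nat_lit 426566) (nat_lit 34) .nil)))))) (.g (nat_lit 1) (.e (nat_lit 390728) (nat_lit 0) .nil) .nil)))) (.nd (nat_lit 9) 
(.lf (nat_lit 587047) (.g (nat_lit 943) (.e (nat_lit 393288) (nat_lit 25) (.e (nat_lit 458774) (nat_lit 18) (.e (nat_lit 5548) (nat_lit 306) (.e (nat_lit 2640) (nat_lit 165) .nil)))) (.g (nat_lit 0) (.e (nat_lit 390466) (nat_lit 0) .nil) .nil))) 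
(.lf (nat_lit 587559) (.g (nat_lit 913) (.e (nat_lit 401432) (nat_lit 7) (.e (nat_lit 409646) (nat_lit 18) (.e (nat_lit 303139) (nat_lit 10) .nil))) (.g (nat_lit 0) (.e (nat_lit 391381) (nat_lit 0) .nil) .nil))))) (.nd (nat_lit 8) (.nd (nat_lit 9) 
(.lf (nat_lit 586919) (.g (nat_lit 2206) (.e (nat_lit 393283) (nat_lit 24) (.e (nat_lit 434232) (nat_lit 23) (.e (nat_lit 532501) (nat_lit 1) (.e (nat_lit 57691) (nat_lit 156) (.e (nat_lit 163905) (nat_lit 12) (.e (nat_lit 426568) (nat_lit 34) .nil)))))) (.g (nat_lit 1) (.e (nat_lit 390263) (nat_lit 0) .nil) .nil))) 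
(.lf (nat_lit 587431) (.g (nat_lit 3425) (.e (nat_lit 401427) (nat_lit 3) (.e (nat_lit 204868) (nat_lit 29) (.e (nat_lit 360473) (nat_lit 8) (.e (nat_lit 557087) (nat_lit 11) (.e (nat_lit 24661) (nat_lit 14) .nil))))) (.g (nat_lit 1) (.e (nat_lit 391024) (nat_lit 0) .nil) .nil)))) (.nd (nat_lit 9) 
(.lf (nat_lit 587175) (.g (nat_lit 3010) (.e (nat_lit 393293) (nat_lit 26) (.e (nat_lit 475177) (nat_lit 24) (.e (nat_lit 516119) (nat_lit 1) (.e (nat_lit 164325) (nat_lit 230) (.e (nat_lit 163907) (nat_lit 12) (.e (nat_lit 426566) (nat_lit 34) .nil)))))) (.g (nat_lit 1) (.e (nat_lit 390598) (nat_lit 0) .nil) .nil))) 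
(.lf (nat_lit 587687) (.g (nat_lit 2433) (.e (nat_lit 401448) (nat_lit 10) (.e (nat_lit 434231) (nat_lit 23) (.e (nat_lit 532563) (nat_lit 15) (.e (nat_lit 385105) (nat_lit 50) (.e (nat_lit 794368) (nat_lit 3) .nil))))) (.g (nat_lit 0) (.e (nat_lit 391942) (nat_lit 0) .nil) .nil)))))) (.nd (nat_lit 7) (.nd (nat_lit 8) (.nd (nat_lit 9) 
(.lf (nat_lit 586855) (.g (nat_lit 1888) (.e (nat_lit 393282) (nat_lit 24) (.e (nat_lit 434212) (nat_lit 18) (.e (nat_lit 5548) (nat_lit 306) (.e (nat_lit 2638) (nat_lit 165) (.e (nat_lit 180277) (nat_lit 32) (.e (nat_lit 1660) (nat_lit 115) .nil)))))) (.g (nat_lit 1) (.e (nat_lit 390190) (nat_lit 0) .nil) .nil))) 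
(.lf (nat_lit 587367) (.g (nat_lit 2166) (.e (nat_lit 401423) (nat_lit 2) (.e (nat_lit 196666) (nat_lit 13) (.e (nat_lit 65617) (nat_lit 10) (.e (nat_lit 344132) (nat_lit 26) (.e (nat_lit 564992) (nat_lit 11) (.e (nat_lit 24665) (nat_lit 14) .nil)))))) (.g (nat_lit 1) (.e (nat_lit 390876) (nat_lit 0) .nil) .nil)))) (.nd (nat_lit 9) 
(.lf (nat_lit 587111) (.g (nat_lit 2881) (.e (nat_lit 393291) (nat_lit 26) (.e (nat_lit 475177) (nat_lit 24) (.e (nat_lit 516120) (nat_lit 1) (.e (nat_lit 164330) (nat_lit 230) (.e (nat_lit 163905) (nat_lit 12) (.e (nat_lit 426567) (nat_lit 34) .nil)))))) (.g (nat_lit 1) (.e (nat_lit 390534) (nat_lit 0) .nil) .nil))) 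
(.lf (nat_lit 587623) (.g (nat_lit 1087) (.e (nat_lit 401444) (nat_lit 9) (.e (nat_lit 426163) (nat_lit 6) (.e (nat_lit 253991) (nat_lit 11) (.e (nat_lit 24320) (nat_lit 9) .nil)))) (.g (nat_lit 0) (.e (nat_lit 391581) (nat_lit 0) .nil) .nil))))) (.nd (nat_lit 8) (.nd (nat_lit 9) 
(.lf (nat_lit 586983) (.g (nat_lit 2608) (.e (nat_lit 393286) (nat_lit 25) (.e (nat_lit 458789) (nat_lit 23) (.e (nat_lit 532502) (nat_lit 1) (.e (nat_lit 57691) (nat_lit 156) (.e (nat_lit 163907) (nat_lit 12) (.e (nat_lit 426566) (nat_lit 34) .nil)))))) (.g (nat_lit 1) (.e (nat_lit 390384) (nat_lit 0) .nil) .nil))) 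
(.lf (nat_lit 587495) (.g (nat_lit 709) (.e (nat_lit 401428) (nat_lit 3) (.e (nat_lit 204869) (nat_lit 29) (.e (nat_lit 360449) (nat_lit 0) .nil))) (.g (nat_lit 0) (.e (nat_lit 391167) (nat_lit 0) .nil) .nil)))) (.nd (nat_lit 9) 
(.lf (nat_lit 587239) (.g (nat_lit 2565) (.e (nat_lit 393295) (nat_lit 26) (.e (nat_lit 475176) (nat_lit 24) (.e (nat_lit 516115) (nat_lit 1) (.e (nat_lit 164325) (nat_lit 230) (.e (nat_lit 163905) (nat_lit 12) (.e (nat_lit 426566) (nat_lit 34) .nil)))))) (.g (nat_lit 1) (.e (nat_lit 390664) (nat_lit 0) .nil) .nil))) 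
(.lf (nat_lit 587751) (.g (nat_lit 389) (.e (nat_lit 401448) (nat_lit 10) (.e (nat_lit 434289) (nat_lit 43) (.e (nat_lit 696343) (nat_lit 8) .nil))) (.g (nat_lit 0) (.e (nat_lit 392054) (nat_lit 0) .nil) .nil)))))))) (.nd (nat_lit 5) (.nd (nat_lit 6) (.nd (nat_lit 7) (.nd (nat_lit 8) (.nd (nat_lit 9) 
(.lf (nat_lit 586775) (.g (nat_lit 2915) (.e (nat_lit 393281) (nat_lit 23) (.e (nat_lit 426099) (nat_lit 1) (.e (nat_lit 164332) (nat_lit 230) (.e (nat_lit 163878) (nat_lit 4) (.e (nat_lit 213030) (nat_lit 11) (.e (nat_lit 24658) (nat_lit 13) .nil)))))) (.g (nat_lit 1) (.e (nat_lit 390085) (nat_lit 0) .nil) .nil))) 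
(.lf (nat_lit 587287) (.g (nat_lit 4667) (.e (nat_lit 393296) (nat_lit 26) (.e (nat_lit 475178) (nat_lit 24) (.e (nat_lit 516115) (nat_lit 1) (.e (nat_lit 164325) (nat_lit 230) (.e (nat_lit 163903) (nat_lit 12) (.e (nat_lit 426566) (nat_lit 34) .nil)))))) (.g (nat_lit 1) (.e (nat_lit 390712) (nat_lit 0) .nil) .nil)))) (.nd (nat_lit 9) 
(.lf (nat_lit 587031) (.g (nat_lit 2673) (.e (nat_lit 393287) (nat_lit 25) (.e (nat_lit 458789) (nat_lit 23) (.e (nat_lit 532502) (nat_lit 1) (.e (nat_lit 57692) (nat_lit 156) (.e (nat_lit 163905) (nat_lit 12) (.e (nat_lit 426568) (nat_lit 34) .nil)))))) (.g (nat_lit 1) (.e (nat_lit 390450) (nat_lit 0) .nil) .nil))) 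
(.lf (nat_lit 587543) (.g (nat_lit 4087) (.e (nat_lit 401428) (nat_lit 3) (.e (nat_lit 204869) (nat_lit 29) (.e (nat_lit 360475) (nat_lit 8) (.e (nat_lit 557065) (nat_lit 9) (.e (nat_lit 251) (nat_lit 21) .nil))))) (.g (nat_lit 0) (.e (nat_lit 391318) (nat_lit 0) .nil) .nil))))) (.nd (nat_lit 8) (.nd (nat_lit 9) 
(.lf (nat_lit 586903) (.g (nat_lit 1278) (.e (nat_lit 393282) (nat_lit 24) (.e (nat_lit 434275) (nat_lit 39) (.e (nat_lit 663589) (nat_lit 14) (.e (nat_lit 2807) (nat_lit 180) .nil)))) (.g (nat_lit 0) (.e (nat_lit 390240) (nat_lit 0) .nil) .nil))) 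
(.lf (nat_lit 587415) (.g (nat_lit 4121) (.e (nat_lit 401425) (nat_lit 2) (.e (nat_lit 196681) (nat_lit 17) (.e (nat_lit 131129) (nat_lit 14) (.e (nat_lit 401425) (nat_lit 2) (.e (nat_lit 196666) (nat_lit 13) (.e (nat_lit 65630) (nat_lit 14) .nil)))))) (.g (nat_lit 1) (.e (nat_lit 390961) (nat_lit 0) .nil) .nil)))) (.nd (nat_lit 9) 
(.lf (nat_lit 587159) (.g (nat_lit 3178) (.e (nat_lit 393293) (nat_lit 26) (.e (nat_lit 475177) (nat_lit 24) (.e (nat_lit 516115) (nat_lit 1) (.e (nat_lit 164332) (nat_lit 230) (.e (nat_lit 163902) (nat_lit 12) (.e (nat_lit 426566) (nat_lit 34) .nil)))))) (.g (nat_lit 1) (.e (nat_lit 390582) (nat_lit 0) .nil) .nil))) 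
(.lf (nat_lit 587671) (.g (nat_lit 1150) (.e (nat_lit 401448) (nat_lit 10) (.e (nat_lit 434203) (nat_lit 18) (.e (nat_lit 6416) (nat_lit 341) (.e (nat_lit 163843) (nat_lit 0) (.e (nat_lit 7936) (nat_lit 392) .nil))))) (.g (nat_lit 0) (.e (nat_lit 391871) (nat_lit 0) .nil) .nil)))))) (.nd (nat_lit 7) (.nd (nat_lit 8) (.nd (nat_lit 9) 
(.lf (nat_lit 586839) (.g (nat_lit 2646) (.e (nat_lit 401152) (nat_lit 23) (.e (nat_lit 426436) (nat_lit 18) (.e (nat_lit 98335) (nat_lit 18) (.e (nat_lit 164330) (nat_lit 230) .nil)))) (.g (nat_lit 0) (.e (nat_lit 390169) (nat_lit 0) .nil) .nil))) 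
(.lf (nat_lit 587351) (.g (nat_lit 4056) (.e (nat_lit 401414) (nat_lit 0) (.e (nat_lit 3238) (nat_lit 197) (.e (nat_lit 532535) (nat_lit 9) (.e (nat_lit 336173) (nat_lit 10) (.e (nat_lit 344132) (nat_lit 26) .nil))))) (.g (nat_lit 0) (.e (nat_lit 390822) (nat_lit 0) .nil) .nil)))) (.nd (nat_lit 9) 
(.lf (nat_lit 587095) (.g (nat_lit 3026) (.e (nat_lit 393291) (nat_lit 26) (.e (nat_lit 475177) (nat_lit 24) (.e (nat_lit 516117) (nat_lit 1) (.e (nat_lit 164332) (nat_lit 230) (.e (nat_lit 163905) (nat_lit 12) (.e (nat_lit 426566) (nat_lit 34) .nil)))))) (.g (nat_lit 1) (.e (nat_lit 390518) (nat_lit 0) .nil) .nil))) 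
(.lf (nat_lit 587607) (.g (nat_lit 2390) (.e (nat_lit 401438) (nat_lit 9) (.e (nat_lit 426538) (nat_lit 29) (.e (nat_lit 352262) (nat_lit 0) (.e (nat_lit 3748) (nat_lit 228) (.e (nat_lit 786473) (nat_lit 27) (.e (nat_lit 336235) (nat_lit 14) .nil)))))) (.g (nat_lit 1) (.e (nat_lit 391506) (nat_lit 0) .nil) .nil))))) (.nd (nat_lit 8) (.nd (nat_lit 9) 
(.lf (nat_lit 586967) (.g (nat_lit 3086) (.e (nat_lit 393286) (nat_lit 25) (.e (nat_lit 458789) (nat_lit 23) (.e (nat_lit 532499) (nat_lit 1) (.e (nat_lit 57688) (nat_lit 156) (.e (nat_lit 163903) (nat_lit 12) (.e (nat_lit 426566) (nat_lit 34) .nil)))))) (.g (nat_lit 1) (.e (nat_lit 390368) (nat_lit 0) .nil) .nil))) 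
(.lf (nat_lit 587479) (.g (nat_lit 3484) (.e (nat_lit 401428) (nat_lit 3) (.e (nat_lit 204861) (nat_lit 26) (.e (nat_lit 336194) (nat_lit 12) (.e (nat_lit 385073) (nat_lit 31) (.e (nat_lit 573482) (nat_lit 13) (.e (nat_lit 65628) (nat_lit 14) .nil)))))) (.g (nat_lit 1) (.e (nat_lit 391119) (nat_lit 0) .nil) .nil)))) (.nd (nat_lit 9) 
(.lf (nat_lit 587223) (.g (nat_lit 2438) (.e (nat_lit 393294) (nat_lit 26) (.e (nat_lit 475179) (nat_lit 24) (.e (nat_lit 516115) (nat_lit 1) (.e (nat_lit 164332) (nat_lit 230) (.e (nat_lit 163904) (nat_lit 12) .nil))))) (.g (nat_lit 0) (.e (nat_lit 390646) (nat_lit 0) .nil) .nil))) 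
(.lf (nat_lit 587735) (.g (nat_lit 2779) (.e (nat_lit 401448) (nat_lit 10) (.e (nat_lit 434247) (nat_lit 28) (.e (nat_lit 573471) (nat_lit 11) (.e (nat_lit 16447) (nat_lit 10) (.e (nat_lit 434231) (nat_lit 23) .nil))))) (.g (nat_lit 0) (.e (nat_lit 392013) (nat_lit 0) .nil) .nil))))))) (.nd (nat_lit 6) (.nd (nat_lit 7) (.nd (nat_lit 8) (.nd (nat_lit 9) 
(.lf (nat_lit 586807) (.g (nat_lit 1423) (.e (nat_lit 393281) (nat_lit 23) (.e (nat_lit 426107) (nat_lit 1) (.e (nat_lit 164326) (nat_lit 230) (.e (nat_lit 163882) (nat_lit 4) .nil)))) (.g (nat_lit 0) (.e (nat_lit 390122) (nat_lit 0) .nil) .nil))) 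
(.lf (nat_lit 587319) (.g (nat_lit 3802) (.e (nat_lit 393296) (nat_lit 26) (.e (nat_lit 475179) (nat_lit 24) (.e (nat_lit 516117) (nat_lit 1) (.e (nat_lit 164332) (nat_lit 230) (.e (nat_lit 163902) (nat_lit 12) (.e (nat_lit 426566) (nat_lit 34) .nil)))))) (.g (nat_lit 1) (.e (nat_lit 390744) (nat_lit 0) .nil) .nil)))) (.nd (nat_lit 9) 
(.lf (nat_lit 587063) (.g (nat_lit 2818) (.e (nat_lit 393290) (nat_lit 26) (.e (nat_lit 475179) (nat_lit 24) (.e (nat_lit 516117) (nat_lit 1) (.e (nat_lit 164330) (nat_lit 230) (.e (nat_lit 163902) (nat_lit 12) (.e (nat_lit 426568) (nat_lit 34) .nil)))))) (.g (nat_lit 1) (.e (nat_lit 390485) (nat_lit 0) .nil) .nil))) 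
(.lf (nat_lit 587575) (.g (nat_lit 2490) (.e (nat_lit 401434) (nat_lit 9) (.e (nat_lit 426140) (nat_lit 3) (.e (nat_lit 204846) (nat_lit 24) (.e (nat_lit 319505) (nat_lit 10) (.e (nat_lit 5714) (nat_lit 312) .nil))))) (.g (nat_lit 0) (.e (nat_lit 391441) (nat_lit 0) .nil) .nil))))) (.nd (nat_lit 8) (.nd (nat_lit 9) 
(.lf (nat_lit 586935) (.g (nat_lit 2193) (.e (nat_lit 393284) (nat_lit 24) (.e (nat_lit 434212) (nat_lit 18) (.e (nat_lit 5548) (nat_lit 306) (.e (nat_lit 2638) (nat_lit 165) (.e (nat_lit 180277) (nat_lit 32) (.e (nat_lit 1660) (nat_lit 115) .nil)))))) (.g (nat_lit 1) (.e (nat_lit 390307) (nat_lit 0) .nil) .nil))) 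
(.lf (nat_lit 587447) (.g (nat_lit 4050) (.e (nat_lit 401427) (nat_lit 3) (.e (nat_lit 204869) (nat_lit 29) (.e (nat_lit 360473) (nat_lit 8) (.e (nat_lit 557087) (nat_lit 11) (.e (nat_lit 24665) (nat_lit 14) .nil))))) (.g (nat_lit 1) (.e (nat_lit 391071) (nat_lit 0) .nil) .nil)))) (.nd (nat_lit 9) 
(.lf (nat_lit 587191) (.g (nat_lit 1993) (.e (nat_lit 393293) (nat_lit 26) (.e (nat_lit 475179) (nat_lit 24) (.e (nat_lit 516117) (nat_lit 1) (.e (nat_lit 164322) (nat_lit 230) .nil)))) (.g (nat_lit 0) (.e (nat_lit 390614) (nat_lit 0) .nil) .nil))) 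
(.lf (nat_lit 587703) (.g (nat_lit 2488) (.e (nat_lit 401448) (nat_lit 10) (.e (nat_lit 434232) (nat_lit 23) (.e (nat_lit 532568) (nat_lit 16) (.e (nat_lit 401435) (nat_lit 9) (.e (nat_lit 426131) (nat_lit 3) (.e (nat_lit 204885) (nat_lit 33) .nil)))))) (.g (nat_lit 1) (.e (nat_lit 391964) (nat_lit 0) .nil) .nil)))))) (.nd (nat_lit 7) (.nd (nat_lit 8) (.nd (nat_lit 9) 
(.lf (nat_lit 586871) (.g (nat_lit 3885) (.e (nat_lit 393282) (nat_lit 24) (.e (nat_lit 434231) (nat_lit 23) (.e (nat_lit 532500) (nat_lit 1) (.e (nat_lit 57691) (nat_lit 156) (.e (nat_lit 163905) (nat_lit 12) (.e (nat_lit 426568) (nat_lit 34) .nil)))))) (.g (nat_lit 1) (.e (nat_lit 390206) (nat_lit 0) .nil) .nil))) 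
(.lf (nat_lit 587383) (.g (nat_lit 2262) (.e (nat_lit 401425) (nat_lit 2) (.e (nat_lit 196666) (nat_lit 13) (.e (nat_lit 65610) (nat_lit 10) (.e (nat_lit 344089) (nat_lit 18) .nil)))) (.g (nat_lit 0) (.e (nat_lit 390918) (nat_lit 0) .nil) .nil)))) (.nd (nat_lit 9) 
(.lf (nat_lit 587127) (.g (nat_lit 2016) (.e (nat_lit 393291) (nat_lit 26) (.e (nat_lit 475179) (nat_lit 24) (.e (nat_lit 516119) (nat_lit 1) (.e (nat_lit 164327) (nat_lit 230) (.e (nat_lit 163907) (nat_lit 12) .nil))))) (.g (nat_lit 0) (.e (nat_lit 390550) (nat_lit 0) .nil) .nil))) 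
(.lf (nat_lit 587639) (.g (nat_lit 1801) (.e (nat_lit 401446) (nat_lit 10) (.e (nat_lit 434231) (nat_lit 23) (.e (nat_lit 532523) (nat_lit 7) (.e (nat_lit 319538) (nat_lit 19) .nil)))) (.g (nat_lit 0) (.e (nat_lit 391701) (nat_lit 0) .nil) .nil))))) (.nd (nat_lit 8) (.nd (nat_lit 9) 
(.lf (nat_lit 586999) (.g (nat_lit 3182) (.e (nat_lit 393287) (nat_lit 25) (.e (nat_lit 458774) (nat_lit 18) (.e (nat_lit 5547) (nat_lit 306) (.e (nat_lit 2638) (nat_lit 165) (.e (nat_lit 180278) (nat_lit 32) (.e (nat_lit 1660) (nat_lit 115) .nil)))))) (.g (nat_lit 1) (.e (nat_lit 390407) (nat_lit 0) .nil) .nil))) 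
(.lf (nat_lit 587511) (.g (nat_lit 3302) (.e (nat_lit 401428) (nat_lit 3) (.e (nat_lit 204869) (nat_lit 29) (.e (nat_lit 360451) (nat_lit 0) (.e (nat_lit 4068) (nat_lit 245) .nil)))) (.g (nat_lit 0) (.e (nat_lit 391189) (nat_lit 0) .nil) .nil)))) (.nd (nat_lit 9) 
(.lf (nat_lit 587255) (.g (nat_lit 3704) (.e (nat_lit 393295) (nat_lit 26) (.e (nat_lit 475179) (nat_lit 24) (.e (nat_lit 516115) (nat_lit 1) (.e (nat_lit 164325) (nat_lit 230) (.e (nat_lit 163907) (nat_lit 12) (.e (nat_lit 426566) (nat_lit 34) .nil)))))) (.g (nat_lit 1) (.e (nat_lit 390680) (nat_lit 0) .nil) .nil))) 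
(.lf (nat_lit 587767) (.g (nat_lit 3569) (.e (nat_lit 401450) (nat_lit 12) (.e (nat_lit 475185) (nat_lit 29) (.e (nat_lit 557109) (nat_lit 15) (.e (nat_lit 188452) (nat_lit 23) (.e (nat_lit 204883) (nat_lit 33) .nil))))) (.g (nat_lit 1) (.e (nat_lit 392097) (nat_lit 0) .nil) .nil))))))))) (.nd (nat_lit 4) (.nd (nat_lit 5) (.nd (nat_lit 6) (.nd (nat_lit 7) (.nd (nat_lit 8) (.nd (nat_lit 9) 
(.lf (nat_lit 586767) (.g (nat_lit 2130) (.e (nat_lit 393281) (nat_lit 23) (.e (nat_lit 426099) (nat_lit 1) (.e (nat_lit 164330) (nat_lit 230) (.e (nat_lit 163880) (nat_lit 4) (.e (nat_lit 213032) (nat_lit 11) (.e (nat_lit 24660) (nat_lit 13) .nil)))))) (.g (nat_lit 1) (.e (nat_lit 390077) (nat_lit 0) .nil) .nil))) 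
(.lf (nat_lit 587279) (.g (nat_lit 3761) (.e (nat_lit 393296) (nat_lit 26) (.e (nat_lit 475177) (nat_lit 24) (.e (nat_lit 516119) (nat_lit 1) (.e (nat_lit 164324) (nat_lit 230) (.e (nat_lit 163903) (nat_lit 12) (.e (nat_lit 426566) (nat_lit 34) .nil)))))) (.g (nat_lit 1) (.e (nat_lit 390704) (nat_lit 0) .nil) .nil)))) (.nd (nat_lit 9) 
(.lf (nat_lit 587023) (.g (nat_lit 352) (.e (nat_lit 393287) (nat_lit 25) (.e (nat_lit 458789) (nat_lit 23) (.e (nat_lit 532501) (nat_lit 1) .nil))) (.g (nat_lit 0) (.e (nat_lit 390442) (nat_lit 0) .nil) .nil))) 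
(.lf (nat_lit 587535) (.g (nat_lit 3475) (.e (nat_lit 401428) (nat_lit 3) (.e (nat_lit 204869) (nat_lit 29) (.e (nat_lit 360474) (nat_lit 8) (.e (nat_lit 557065) (nat_lit 9) (.e (nat_lit 290) (nat_lit 21) .nil))))) (.g (nat_lit 0) (.e (nat_lit 391256) (nat_lit 0) .nil) .nil))))) (.nd (nat_lit 8) (.nd (nat_lit 9) 
(.lf (nat_lit 586895) (.g (nat_lit 1962) (.e (nat_lit 393282) (nat_lit 24) (.e (nat_lit 434233) (nat_lit 23) (.e (nat_lit 532504) (nat_lit 1) (.e (nat_lit 57692) (nat_lit 156) (.e (nat_lit 163905) (nat_lit 12) (.e (nat_lit 426568) (nat_lit 34) .nil)))))) (.g (nat_lit 1) (.e (nat_lit 390230) (nat_lit 0) .nil) .nil))) 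
(.lf (nat_lit 587407) (.g (nat_lit 1275) (.e (nat_lit 401425) (nat_lit 2) (.e (nat_lit 196666) (nat_lit 13) (.e (nat_lit 65630) (nat_lit 14) (.e (nat_lit 401428) (nat_lit 3) .nil)))) (.g (nat_lit 0) (.e (nat_lit 390945) (nat_lit 0) .nil) .nil)))) (.nd (nat_lit 9) 
(.lf (nat_lit 587151) (.g (nat_lit 1315) (.e (nat_lit 393293) (nat_lit 26) (.e (nat_lit 475176) (nat_lit 24) (.e (nat_lit 516117) (nat_lit 1) (.e (nat_lit 164332) (nat_lit 230) .nil)))) (.g (nat_lit 0) (.e (nat_lit 390574) (nat_lit 0) .nil) .nil))) 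
(.lf (nat_lit 587663) (.g (nat_lit 1305) (.e (nat_lit 401447) (nat_lit 10) (.e (nat_lit 434238) (nat_lit 25) (.e (nat_lit 548897) (nat_lit 14) (.e (nat_lit 3015) (nat_lit 187) (.e (nat_lit 450574) (nat_lit 1) .nil))))) (.g (nat_lit 0) (.e (nat_lit 391823) (nat_lit 0) .nil) .nil)))))) (.nd (nat_lit 7) (.nd (nat_lit 8) (.nd (nat_lit 9) 
(.lf (nat_lit 586831) (.g (nat_lit 1308) (.e (nat_lit 401152) (nat_lit 23) (.e (nat_lit 426098) (nat_lit 1) (.e (nat_lit 164325) (nat_lit 230) (.e (nat_lit 163881) (nat_lit 4) (.e (nat_lit 213032) (nat_lit 11) .nil))))) (.g (nat_lit 0) (.e (nat_lit 390158) (nat_lit 0) .nil) .nil))) 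
(.lf (nat_lit 587343) (.g (nat_lit 2728) (.e (nat_lit 393301) (nat_lit 27) (.e (nat_lit 491552) (nat_lit 9) (.e (nat_lit 336410) (nat_lit 27) (.e (nat_lit 426347) (nat_lit 14) (.e (nat_lit 491569) (nat_lit 13) .nil))))) (.g (nat_lit 1) (.e (nat_lit 390787) (nat_lit 0) .nil) .nil)))) (.nd (nat_lit 9) 
(.lf (nat_lit 587087) (.g (nat_lit 2865) (.e (nat_lit 393291) (nat_lit 26) (.e (nat_lit 475177) (nat_lit 24) (.e (nat_lit 516115) (nat_lit 1) (.e (nat_lit 164399) (nat_lit 256) (.e (nat_lit 65280) (nat_lit 62) .nil))))) (.g (nat_lit 0) (.e (nat_lit 390510) (nat_lit 0) .nil) .nil))) 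
(.lf (nat_lit 587599) (.g (nat_lit 1632) (.e (nat_lit 401438) (nat_lit 9) (.e (nat_lit 426533) (nat_lit 28) (.e (nat_lit 344067) (nat_lit 0) (.e (nat_lit 2936) (nat_lit 184) (.e (nat_lit 426508) (nat_lit 27) (.e (nat_lit 336228) (nat_lit 14) .nil)))))) (.g (nat_lit 1) (.e (nat_lit 391498) (nat_lit 0) .nil) .nil))))) (.nd (nat_lit 8) (.nd (nat_lit 9) 
(.lf (nat_lit 586959) (.g (nat_lit 1662) (.e (nat_lit 393286) (nat_lit 25) (.e (nat_lit 458789) (nat_lit 23) (.e (nat_lit 532499) (nat_lit 1) (.e (nat_lit 57655) (nat_lit 152) (.e (nat_lit 2632) (nat_lit 164) (.e (nat_lit 179968) (nat_lit 34) .nil)))))) (.g (nat_lit 1) (.e (nat_lit 390359) (nat_lit 0) .nil) .nil))) 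
(.lf (nat_lit 587471) (.g (nat_lit 3065) (.e (nat_lit 401428) (nat_lit 3) (.e (nat_lit 204855) (nat_lit 26) (.e (nat_lit 336193) (nat_lit 12) (.e (nat_lit 385074) (nat_lit 31) (.e (nat_lit 573482) (nat_lit 13) .nil))))) (.g (nat_lit 0) (.e (nat_lit 391109) (nat_lit 0) .nil) .nil)))) (.nd (nat_lit 9) 
(.lf (nat_lit 587215) (.g (nat_lit 1876) (.e (nat_lit 393294) (nat_lit 26) (.e (nat_lit 475177) (nat_lit 24) (.e (nat_lit 516119) (nat_lit 1) (.e (nat_lit 164329) (nat_lit 230) (.e (nat_lit 163904) (nat_lit 12) .nil))))) (.g (nat_lit 0) (.e (nat_lit 390638) (nat_lit 0) .nil) .nil))) 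
(.lf (nat_lit 587727) (.g (nat_lit 2351) (.e (nat_lit 401448) (nat_lit 10) (.e (nat_lit 434244) (nat_lit 28) (.e (nat_lit 573471) (nat_lit 11) (.e (nat_lit 16441) (nat_lit 9) .nil)))) (.g (nat_lit 0) (.e (nat_lit 392002) (nat_lit 0) .nil) .nil))))))) (.nd (nat_lit 6) (.nd (nat_lit 7) (.nd (nat_lit 8) (.nd (nat_lit 9) 
(.lf (nat_lit 586799) (.g (nat_lit 2708) (.e (nat_lit 393281) (nat_lit 23) (.e (nat_lit 426100) (nat_lit 1) (.e (nat_lit 164332) (nat_lit 230) (.e (nat_lit 163880) (nat_lit 4) (.e (nat_lit 213030) (nat_lit 11) (.e (nat_lit 24656) (nat_lit 13) .nil)))))) (.g (nat_lit 1) (.e (nat_lit 390112) (nat_lit 0) .nil) .nil))) 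
(.lf (nat_lit 587311) (.g (nat_lit 4596) (.e (nat_lit 393296) (nat_lit 26) (.e (nat_lit 475179) (nat_lit 24) (.e (nat_lit 516115) (nat_lit 1) (.e (nat_lit 164325) (nat_lit 230) (.e (nat_lit 163903) (nat_lit 12) (.e (nat_lit 426566) (nat_lit 34) .nil)))))) (.g (nat_lit 1) (.e (nat_lit 390736) (nat_lit 0) .nil) .nil)))) (.nd (nat_lit 9) 
(.lf (nat_lit 587055) (.g (nat_lit 2339) (.e (nat_lit 393290) (nat_lit 26) (.e (nat_lit 475177) (nat_lit 24) (.e (nat_lit 516115) (nat_lit 1) (.e (nat_lit 164325) (nat_lit 230) (.e (nat_lit 163903) (nat_lit 12) .nil))))) (.g (nat_lit 0) (.e (nat_lit 390477) (nat_lit 0) .nil) .nil))) 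
(.lf (nat_lit 587567) (.g (nat_lit 1508) (.e (nat_lit 401434) (nat_lit 9) (.e (nat_lit 426125) (nat_lit 2) (.e (nat_lit 196661) (nat_lit 12) (.e (nat_lit 57714) (nat_lit 176) .nil)))) (.g (nat_lit 0) (.e (nat_lit 391423) (nat_lit 0) .nil) .nil))))) (.nd (nat_lit 8) (.nd (nat_lit 9) 
(.lf (nat_lit 586927) (.g (nat_lit 3161) (.e (nat_lit 393283) (nat_lit 24) (.e (nat_lit 434275) (nat_lit 39) (.e (nat_lit 663584) (nat_lit 12) (.e (nat_lit 164000) (nat_lit 38) (.e (nat_lit 639020) (nat_lit 16) (.e (nat_lit 65627) (nat_lit 13) .nil)))))) (.g (nat_lit 1) (.e (nat_lit 390283) (nat_lit 0) .nil) .nil))) 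
(.lf (nat_lit 587439) (.g (nat_lit 3442) (.e (nat_lit 401427) (nat_lit 3) (.e (nat_lit 204869) (nat_lit 29) (.e (nat_lit 360451) (nat_lit 0) (.e (nat_lit 4071) (nat_lit 245) .nil)))) (.g (nat_lit 0) (.e (nat_lit 391054) (nat_lit 0) .nil) .nil)))) (.nd (nat_lit 9) 
(.lf (nat_lit 587183) (.g (nat_lit 3123) (.e (nat_lit 393293) (nat_lit 26) (.e (nat_lit 475177) (nat_lit 24) (.e (nat_lit 516120) (nat_lit 1) (.e (nat_lit 164330) (nat_lit 230) (.e (nat_lit 163905) (nat_lit 12) (.e (nat_lit 426566) (nat_lit 34) .nil)))))) (.g (nat_lit 1) (.e (nat_lit 390606) (nat_lit 0) .nil) .nil))) 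
(.lf (nat_lit 587695) (.g (nat_lit 2391) (.e (nat_lit 401448) (nat_lit 10) (.e (nat_lit 434231) (nat_lit 23) (.e (nat_lit 532569) (nat_lit 16) (.e (nat_lit 401443) (nat_lit 9) .nil)))) (.g (nat_lit 0) (.e (nat_lit 391951) (nat_lit 0) .nil) .nil)))))) (.nd (nat_lit 7) (.nd (nat_lit 8) (.nd (nat_lit 9) 
(.lf (nat_lit 586863) (.g (nat_lit 3365) (.e (nat_lit 393282) (nat_lit 24) (.e (nat_lit 434231) (nat_lit 23) (.e (nat_lit 532499) (nat_lit 1) (.e (nat_lit 57688) (nat_lit 156) (.e (nat_lit 163907) (nat_lit 12) (.e (nat_lit 426566) (nat_lit 34) .nil)))))) (.g (nat_lit 1) (.e (nat_lit 390198) (nat_lit 0) .nil) .nil))) 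
(.lf (nat_lit 587375) (.g (nat_lit 1562) (.e (nat_lit 401424) (nat_lit 2) (.e (nat_lit 196666) (nat_lit 13) (.e (nat_lit 65630) (nat_lit 14) (.e (nat_lit 401425) (nat_lit 2) .nil)))) (.g (nat_lit 0) (.e (nat_lit 390895) (nat_lit 0) .nil) .nil)))) (.nd (nat_lit 9) 
(.lf (nat_lit 587119) (.g (nat_lit 2743) (.e (nat_lit 393291) (nat_lit 26) (.e (nat_lit 475179) (nat_lit 24) (.e (nat_lit 516115) (nat_lit 1) (.e (nat_lit 164327) (nat_lit 230) (.e (nat_lit 163907) (nat_lit 12) (.e (nat_lit 426566) (nat_lit 34) .nil)))))) (.g (nat_lit 1) (.e (nat_lit 390542) (nat_lit 0) .nil) .nil))) 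
(.lf (nat_lit 587631) (.g (nat_lit 1114) (.e (nat_lit 401446) (nat_lit 10) (.e (nat_lit 434202) (nat_lit 18) (.e (nat_lit 6416) (nat_lit 341) (.e (nat_lit 163843) (nat_lit 0) (.e (nat_lit 7936) (nat_lit 392) .nil))))) (.g (nat_lit 0) (.e (nat_lit 391618) (nat_lit 0) .nil) .nil))))) (.nd (nat_lit 8) (.nd (nat_lit 9) 
(.lf (nat_lit 586991) (.g (nat_lit 3315) (.e (nat_lit 393286) (nat_lit 25) (.e (nat_lit 458789) (nat_lit 23) (.e (nat_lit 532503) (nat_lit 1) (.e (nat_lit 57688) (nat_lit 156) (.e (nat_lit 163902) (nat_lit 12) (.e (nat_lit 426568) (nat_lit 34) .nil)))))) (.g (nat_lit 1) (.e (nat_lit 390392) (nat_lit 0) .nil) .nil))) 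
(.lf (nat_lit 587503) (.g (nat_lit 2788) (.e (nat_lit 401428) (nat_lit 3) (.e (nat_lit 204869) (nat_lit 29) (.e (nat_lit 360450) (nat_lit 0) (.e (nat_lit 4159) (nat_lit 250) .nil)))) (.g (nat_lit 0) (.e (nat_lit 391181) (nat_lit 0) .nil) .nil)))) (.nd (nat_lit 9) 
(.lf (nat_lit 587247) (.g (nat_lit 3068) (.e (nat_lit 393295) (nat_lit 26) (.e (nat_lit 475177) (nat_lit 24) (.e (nat_lit 516118) (nat_lit 1) (.e (nat_lit 164325) (nat_lit 230) (.e (nat_lit 163903) (nat_lit 12) (.e (nat_lit 426566) (nat_lit 34) .nil)))))) (.g (nat_lit 1) (.e (nat_lit 390672) (nat_lit 0) .nil) .nil))) 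
(.lf (nat_lit 587759) (.g (nat_lit 3044) (.e (nat_lit 401450) (nat_lit 12) (.e (nat_lit 475184) (nat_lit 29) (.e (nat_lit 557108) (nat_lit 15) (.e (nat_lit 188452) (nat_lit 23) (.e (nat_lit 204885) (nat_lit 33) .nil))))) (.g (nat_lit 1) (.e (nat_lit 392087) (nat_lit 0) .nil) .nil)))))))) (.nd (nat_lit 5) (.nd (nat_lit 6) (.nd (nat_lit 7) (.nd (nat_lit 8) (.nd (nat_lit 9) 
(.lf (nat_lit 586783) (.g (nat_lit 1717) (.e (nat_lit 393281) (nat_lit 23) (.e (nat_lit 426100) (nat_lit 1) (.e (nat_lit 164330) (nat_lit 230) (.e (nat_lit 163850) (nat_lit 0) .nil)))) (.g (nat_lit 0) (.e (nat_lit 390095) (nat_lit 0) .nil) .nil))) 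
(.lf (nat_lit 587295) (.g (nat_lit 1415) (.e (nat_lit 393296) (nat_lit 26) (.e (nat_lit 475178) (nat_lit 24) (.e (nat_lit 516117) (nat_lit 1) (.e (nat_lit 164329) (nat_lit 230) (.e (nat_lit 163915) (nat_lit 12) (.e (nat_lit 433920) (nat_lit 34) .nil)))))) (.g (nat_lit 1) (.e (nat_lit 390720) (nat_lit 0) .nil) .nil)))) (.nd (nat_lit 9) 
(.lf (nat_lit 587039) (.g (nat_lit 3272) (.e (nat_lit 393287) (nat_lit 25) (.e (nat_lit 458789) (nat_lit 23) (.e (nat_lit 532503) (nat_lit 1) (.e (nat_lit 57688) (nat_lit 156) (.e (nat_lit 163902) (nat_lit 12) (.e (nat_lit 426568) (nat_lit 34) .nil)))))) (.g (nat_lit 1) (.e (nat_lit 390458) (nat_lit 0) .nil) .nil))) 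
(.lf (nat_lit 587551) (.g (nat_lit 4057) (.e (nat_lit 401428) (nat_lit 3) (.e (nat_lit 204869) (nat_lit 29) (.e (nat_lit 360475) (nat_lit 8) (.e (nat_lit 557087) (nat_lit 11) (.e (nat_lit 32512) (nat_lit 14) .nil))))) (.g (nat_lit 1) (.e (nat_lit 391328) (nat_lit 0) .nil) .nil))))) (.nd (nat_lit 8) (.nd (nat_lit 9) 
(.lf (nat_lit 586911) (.g (nat_lit 3410) (.e (nat_lit 393283) (nat_lit 24) (.e (nat_lit 434231) (nat_lit 23) (.e (nat_lit 532499) (nat_lit 1) (.e (nat_lit 57692) (nat_lit 156) (.e (nat_lit 163907) (nat_lit 12) (.e (nat_lit 426568) (nat_lit 34) .nil)))))) (.g (nat_lit 1) (.e (nat_lit 390255) (nat_lit 0) .nil) .nil))) 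
(.lf (nat_lit 587423) (.g (nat_lit 2092) (.e (nat_lit 401426) (nat_lit 3) (.e (nat_lit 204869) (nat_lit 29) (.e (nat_lit 360475) (nat_lit 8) (.e (nat_lit 557085) (nat_lit 11) .nil)))) (.g (nat_lit 0) (.e (nat_lit 390997) (nat_lit 0) .nil) .nil)))) (.nd (nat_lit 9) 
(.lf (nat_lit 587167) (.g (nat_lit 3011) (.e (nat_lit 393293) (nat_lit 26) (.e (nat_lit 475177) (nat_lit 24) (.e (nat_lit 516117) (nat_lit 1) (.e (nat_lit 164332) (nat_lit 230) (.e (nat_lit 163902) (nat_lit 12) (.e (nat_lit 426566) (nat_lit 34) .nil)))))) (.g (nat_lit 1) (.e (nat_lit 390590) (nat_lit 0) .nil) .nil))) 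
(.lf (nat_lit 587679) (.g (nat_lit 2342) (.e (nat_lit 401448) (nat_lit 10) (.e (nat_lit 434231) (nat_lit 23) (.e (nat_lit 532522) (nat_lit 7) (.e (nat_lit 319539) (nat_lit 19) (.e (nat_lit 311315) (nat_lit 3) .nil))))) (.g (nat_lit 0) (.e (nat_lit 391933) (nat_lit 0) .nil) .nil)))))) (.nd (nat_lit 7) (.nd (nat_lit 8) (.nd (nat_lit 9) 
(.lf (nat_lit 586847) (.g (nat_lit 3521) (.e (nat_lit 393282) (nat_lit 24) (.e (nat_lit 434209) (nat_lit 18) (.e (nat_lit 5547) (nat_lit 306) (.e (nat_lit 2638) (nat_lit 165) (.e (nat_lit 180278) (nat_lit 32) (.e (nat_lit 1659) (nat_lit 115) .nil)))))) (.g (nat_lit 1) (.e (nat_lit 390179) (nat_lit 0) .nil) .nil))) 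
(.lf (nat_lit 587359) (.g (nat_lit 1813) (.e (nat_lit 401414) (nat_lit 0) (.e (nat_lit 3459) (nat_lit 216) (.e (nat_lit 688140) (nat_lit 5) (.e (nat_lit 2852) (nat_lit 184) (.e (nat_lit 426438) (nat_lit 18) (.e (nat_lit 98369) (nat_lit 28) (.e (nat_lit 442391) (nat_lit 19) .nil))))))) (.g (nat_lit 1) (.e (nat_lit 390848) (nat_lit 0) .nil) .nil)))) (.nd (nat_lit 9) 
(.lf (nat_lit 587103) (.g (nat_lit 2861) (.e (nat_lit 393291) (nat_lit 26) (.e (nat_lit 475177) (nat_lit 24) (.e (nat_lit 516119) (nat_lit 1) (.e (nat_lit 164327) (nat_lit 230) (.e (nat_lit 163903) (nat_lit 12) (.e (nat_lit 426567) (nat_lit 34) .nil)))))) (.g (nat_lit 1) (.e (nat_lit 390526) (nat_lit 0) .nil) .nil))) 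
(.lf (nat_lit 587615) (.g (nat_lit 1158) (.e (nat_lit 401443) (nat_lit 9) (.e (nat_lit 426133) (nat_lit 3) (.e (nat_lit 204885) (nat_lit 33) .nil))) (.g (nat_lit 0) (.e (nat_lit 391554) (nat_lit 0) .nil) .nil))))) (.nd (nat_lit 8) (.nd (nat_lit 9) 
(.lf (nat_lit 586975) (.g (nat_lit 2497) (.e (nat_lit 393286) (nat_lit 25) (.e (nat_lit 458789) (nat_lit 23) (.e (nat_lit 532501) (nat_lit 1) (.e (nat_lit 57651) (nat_lit 152) (.e (nat_lit 2619) (nat_lit 164) (.e (nat_lit 179968) (nat_lit 34) .nil)))))) (.g (nat_lit 1) (.e (nat_lit 390376) (nat_lit 0) .nil) .nil))) 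
(.lf (nat_lit 587487) (.g (nat_lit 431) (.e (nat_lit 401428) (nat_lit 3) (.e (nat_lit 204868) (nat_lit 29) (.e (nat_lit 360471) (nat_lit 7) .nil))) (.g (nat_lit 0) (.e (nat_lit 391159) (nat_lit 0) .nil) .nil)))) (.nd (nat_lit 9) 
(.lf (nat_lit 587231) (.g (nat_lit 2734) (.e (nat_lit 393294) (nat_lit 26) (.e (nat_lit 475179) (nat_lit 24) (.e (nat_lit 516120) (nat_lit 1) (.e (nat_lit 164330) (nat_lit 230) (.e (nat_lit 163901) (nat_lit 12) (.e (nat_lit 426566) (nat_lit 34) .nil)))))) (.g (nat_lit 1) (.e (nat_lit 390654) (nat_lit 0) .nil) .nil))) 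
(.lf (nat_lit 587743) (.g (nat_lit 3604) (.e (nat_lit 401448) (nat_lit 10) (.e (nat_lit 434248) (nat_lit 28) (.e (nat_lit 573471) (nat_lit 11) (.e (nat_lit 16448) (nat_lit 10) (.e (nat_lit 434231) (nat_lit 23) (.e (nat_lit 532569) (nat_lit 16) .nil)))))) (.g (nat_lit 1) (.e (nat_lit 392030) (nat_lit 0) .nil) .nil))))))) (.nd (nat_lit 6) (.nd (nat_lit 7) (.nd (nat_lit 8) (.nd (nat_lit 9) 
(.lf (nat_lit 586815) (.g (nat_lit 2749) (.e (nat_lit 393281) (nat_lit 23) (.e (nat_lit 426108) (nat_lit 1) (.e (nat_lit 164330) (nat_lit 230) (.e (nat_lit 163880) (nat_lit 4) (.e (nat_lit 213032) (nat_lit 11) (.e (nat_lit 24660) (nat_lit 13) .nil)))))) (.g (nat_lit 1) (.e (nat_lit 390134) (nat_lit 0) .nil) .nil))) 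
(.lf (nat_lit 587327) (.g (nat_lit 1392) (.e (nat_lit 393296) (nat_lit 26) (.e (nat_lit 475187) (nat_lit 32) (.e (nat_lit 581645) (nat_lit 2) (.e (nat_lit 24665) (nat_lit 14) (.e (nat_lit 409344) (nat_lit 34) .nil))))) (.g (nat_lit 1) (.e (nat_lit 390752) (nat_lit 0) .nil) .nil)))) (.nd (nat_lit 9) 
(.lf (nat_lit 587071) (.g (nat_lit 441) (.e (nat_lit 393290) (nat_lit 26) (.e (nat_lit 475214) (nat_lit 42) (.e (nat_lit 728832) (nat_lit 4) .nil))) (.g (nat_lit 0) (.e (nat_lit 390494) (nat_lit 0) .nil) .nil))) 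
(.lf (nat_lit 587583) (.g (nat_lit 4161) (.e (nat_lit 401437) (nat_lit 9) (.e (nat_lit 426436) (nat_lit 18) (.e (nat_lit 98335) (nat_lit 18) (.e (nat_lit 164332) (nat_lit 230) .nil)))) (.g (nat_lit 0) (.e (nat_lit 391465) (nat_lit 0) .nil) .nil))))) (.nd (nat_lit 8) (.nd (nat_lit 9) 
(.lf (nat_lit 586943) (.g (nat_lit 836) (.e (nat_lit 393284) (nat_lit 24) (.e (nat_lit 434248) (nat_lit 28) (.e (nat_lit 573503) (nat_lit 18) .nil))) (.g (nat_lit 0) (.e (nat_lit 390319) (nat_lit 0) .nil) .nil))) 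
(.lf (nat_lit 587455) (.g (nat_lit 3847) (.e (nat_lit 401427) (nat_lit 3) (.e (nat_lit 204869) (nat_lit 29) (.e (nat_lit 360475) (nat_lit 8) (.e (nat_lit 557086) (nat_lit 11) (.e (nat_lit 24665) (nat_lit 14) .nil))))) (.g (nat_lit 1) (.e (nat_lit 391083) (nat_lit 0) .nil) .nil)))) (.nd (nat_lit 9) 
(.lf (nat_lit 587199) (.g (nat_lit 2518) (.e (nat_lit 393293) (nat_lit 26) (.e (nat_lit 475179) (nat_lit 24) (.e (nat_lit 516120) (nat_lit 1) (.e (nat_lit 164330) (nat_lit 230) (.e (nat_lit 163905) (nat_lit 12) (.e (nat_lit 426566) (nat_lit 34) .nil)))))) (.g (nat_lit 1) (.e (nat_lit 390622) (nat_lit 0) .nil) .nil))) 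
(.lf (nat_lit 587711) (.g (nat_lit 2350) (.e (nat_lit 401448) (nat_lit 10) (.e (nat_lit 434238) (nat_lit 25) (.e (nat_lit 548913) (nat_lit 18) (.e (nat_lit 172094) (nat_lit 9) .nil)))) (.g (nat_lit 0) (.e (nat_lit 391974) (nat_lit 0) .nil) .nil)))))) (.nd (nat_lit 7) (.nd (nat_lit 8) (.nd (nat_lit 9) 
(.lf (nat_lit 586879) (.g (nat_lit 2578) (.e (nat_lit 393282) (nat_lit 24) (.e (nat_lit 434231) (nat_lit 23) (.e (nat_lit 532502) (nat_lit 1) (.e (nat_lit 57688) (nat_lit 156) (.e (nat_lit 163905) (nat_lit 12) .nil))))) (.g (nat_lit 0) (.e (nat_lit 390214) (nat_lit 0) .nil) .nil))) 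
(.lf (nat_lit 587391) (.g (nat_lit 4200) (.e (nat_lit 401425) (nat_lit 2) (.e (nat_lit 196666) (nat_lit 13) (.e (nat_lit 65610) (nat_lit 10) (.e (nat_lit 344129) (nat_lit 26) (.e (nat_lit 557087) (nat_lit 11) (.e (nat_lit 24663) (nat_lit 14) .nil)))))) (.g (nat_lit 1) (.e (nat_lit 390926) (nat_lit 0) .nil) .nil)))) (.nd (nat_lit 9) 
(.lf (nat_lit 587135) (.g (nat_lit 1463) (.e (nat_lit 393291) (nat_lit 26) (.e (nat_lit 475214) (nat_lit 42) (.e (nat_lit 720903) (nat_lit 0) .nil))) (.g (nat_lit 0) (.e (nat_lit 390558) (nat_lit 0) .nil) .nil))) 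
(.lf (nat_lit 587647) (.g (nat_lit 179) (.e (nat_lit 401446) (nat_lit 10) (.e (nat_lit 434245) (nat_lit 28) (.e (nat_lit 573471) (nat_lit 11) .nil))) (.g (nat_lit 0) (.e (nat_lit 391754) (nat_lit 0) .nil) .nil))))) (.nd (nat_lit 8) (.nd (nat_lit 9) 
(.lf (nat_lit 587007) (.g (nat_lit 394) (.e (nat_lit 393287) (nat_lit 25) (.e (nat_lit 458789) (nat_lit 23) (.e (nat_lit 532499) (nat_lit 1) .nil))) (.g (nat_lit 0) (.e (nat_lit 390424) (nat_lit 0) .nil) .nil))) 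
(.lf (nat_lit 587519) (.g (nat_lit 2479) (.e (nat_lit 401428) (nat_lit 3) (.e (nat_lit 204869) (nat_lit 29) (.e (nat_lit 360471) (nat_lit 7) (.e (nat_lit 548874) (nat_lit 5) .nil)))) (.g (nat_lit 0) (.e (nat_lit 391238) (nat_lit 0) .nil) .nil)))) (.nd (nat_lit 9) 
(.lf (nat_lit 587263) (.g (nat_lit 3175) (.e (nat_lit 393295) (nat_lit 26) (.e (nat_lit 475179) (nat_lit 24) (.e (nat_lit 516120) (nat_lit 1) (.e (nat_lit 164332) (nat_lit 230) (.e (nat_lit 163905) (nat_lit 12) (.e (nat_lit 426566) (nat_lit 34) .nil)))))) (.g (nat_lit 1) (.e (nat_lit 390688) (nat_lit 0) .nil) .nil))) 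
(.lf (nat_lit 587775) (.g (nat_lit 2636) (.e (nat_lit 401451) (nat_lit 12) (.e (nat_lit 475185) (nat_lit 29) (.e (nat_lit 557100) (nat_lit 13) (.e (nat_lit 172097) (nat_lit 9) .nil)))) (.g (nat_lit 0) (.e (nat_lit 392114) (nat_lit 0) .nil) .nil)))))))))))))

noncomputable def tv5634 : DT := (.nd (nat_lit 0) (.nd (nat_lit 1) (.nd (nat_lit 2) (.nd (nat_lit 3) (.nd (nat_lit 4) (.nd (nat_lit 5) (.nd (nat_lit 6) (.nd (nat_lit 7) (.nd (nat_lit 8) (.nd (nat_lit 9) 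
(.lf (nat_lit 587776) (.g (nat_lit 4121) (.e (nat_lit 401451) (nat_lit 12) (.e (nat_lit 475185) (nat_lit 29) (.e (nat_lit 557100) (nat_lit 13) (.e (nat_lit 172106) (nat_lit 10) (.e (nat_lit 434231) (nat_lit 23) (.e (nat_lit 532567) (nat_lit 16) .nil)))))) (.g (nat_lit 1) (.e (nat_lit 392115) (nat_lit 0) .nil) .nil))) 
(.lf (nat_lit 588288) (.g (nat_lit 2238) (.e (nat_lit 500070) (nat_lit 19) (.e (nat_lit 73781) (nat_lit 32) (.e (nat_lit 2663) (nat_lit 167) (.e (nat_lit 196668) (nat_lit 14) (.e (nat_lit 81664) (nat_lit 35) .nil))))) (.g (nat_lit 0) (.e (nat_lit 393284) (nat_lit 0) .nil) .nil)))) (.nd (nat_lit 9) 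
(.lf (nat_lit 588032) (.g (nat_lit 3039) (.e (nat_lit 401460) (nat_lit 14) (.e (nat_lit 491570) (nat_lit 13) (.e (nat_lit 393260) (nat_lit 21) (.e (nat_lit 409648) (nat_lit 18) (.e (nat_lit 311040) (nat_lit 35) .nil))))) (.g (nat_lit 1) (.e (nat_lit 392692) (nat_lit 0) .nil) .nil))) 
(.lf (nat_lit 588544) (.g (nat_lit 3102) (.e (nat_lit 499930) (nat_lit 11) (.e (nat_lit 188452) (nat_lit 23) (.e (nat_lit 204846) (nat_lit 24) (.e (nat_lit 319534) (nat_lit 16) (.e (nat_lit 286723) (nat_lit 0) .nil))))) (.g (nat_lit 0) (.e (nat_lit 394317) (nat_lit 0) .nil) .nil))))) (.nd (nat_lit 8) (.nd (nat_lit 9) 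
(.lf (nat_lit 587904) (.g (nat_lit 2817) (.e (nat_lit 401456) (nat_lit 13) (.e (nat_lit 483344) (nat_lit 17) (.e (nat_lit 6720) (nat_lit 361) (.e (nat_lit 172150) (nat_lit 27) (.e (nat_lit 336232) (nat_lit 14) .nil))))) (.g (nat_lit 1) (.e (nat_lit 392372) (nat_lit 0) .nil) .nil))) 
(.lf (nat_lit 588416) (.g (nat_lit 1679) (.e (nat_lit 499820) (nat_lit 5) (.e (nat_lit 2830) (nat_lit 182) (.e (nat_lit 409648) (nat_lit 18) (.e (nat_lit 303117) (nat_lit 2) .nil)))) (.g (nat_lit 0) (.e (nat_lit 393503) (nat_lit 0) .nil) .nil)))) (.nd (nat_lit 9) 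
(.lf (nat_lit 588160) (.g (nat_lit 1336) (.e (nat_lit 500046) (nat_lit 16) (.e (nat_lit 16436) (nat_lit 9) (.e (nat_lit 426558) (nat_lit 33) (.e (nat_lit 385041) (nat_lit 19) .nil)))) (.g (nat_lit 0) (.e (nat_lit 393042) (nat_lit 0) .nil) .nil))) 
(.lf (nat_lit 588672) (.g (nat_lit 2881) (.e (nat_lit 532482) (nat_lit 0) (.e (nat_lit 6724) (nat_lit 362) (.e (nat_lit 180250) (nat_lit 10) (.e (nat_lit 573471) (nat_lit 11) (.e (nat_lit 16433) (nat_lit 9) (.e (nat_lit 426093) (nat_lit 0) (.e (nat_lit 3238) (nat_lit 197) .nil))))))) (.g (nat_lit 1) (.e (nat_lit 395117) (nat_lit 0) .nil) .nil)))))) 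
(.nd (nat_lit 7) (.nd (nat_lit 8) (.nd (nat_lit 9) 
(.lf (nat_lit 587840) (.g (nat_lit 3142) (.e (nat_lit 401454) (nat_lit 12) (.e (nat_lit 475179) (nat_lit 24) (.e (nat_lit 516120) (nat_lit 1) (.e (nat_lit 164330) (nat_lit 230) (.e (nat_lit 163946) (nat_lit 20) .nil))))) (.g (nat_lit 0) (.e (nat_lit 392242) (nat_lit 0) .nil) .nil))) 
(.lf (nat_lit 588352) (.g (nat_lit 2847) (.e (nat_lit 500075) (nat_lit 20) (.e (nat_lit 81946) (nat_lit 20) (.e (nat_lit 1842) (nat_lit 123) (.e (nat_lit 548889) (nat_lit 9) (.e (nat_lit 65629) (nat_lit 14) (.e (nat_lit 401412) (nat_lit 0) (.e (nat_lit 3114) (nat_lit 193) .nil))))))) (.g (nat_lit 1) (.e (nat_lit 393354) (nat_lit 0) .nil) .nil)))) (.nd (nat_lit 9) 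
(.lf (nat_lit 588096) (.g (nat_lit 1494) (.e (nat_lit 499985) (nat_lit 14) (.e (nat_lit 1673) (nat_lit 116) (.e (nat_lit 401448) (nat_lit 10) (.e (nat_lit 434227) (nat_lit 20) .nil)))) (.g (nat_lit 0) (.e (nat_lit 392948) (nat_lit 0) .nil) .nil))) 
(.lf (nat_lit 588608) (.g (nat_lit 3308) (.e (nat_lit 507922) (nat_lit 6) (.e (nat_lit 286759) (nat_lit 12) (.e (nat_lit 385074) (nat_lit 31) (.e (nat_lit 573482) (nat_lit 13) .nil)))) (.g (nat_lit 0) (.e (nat_lit 394957) (nat_lit 0) .nil) .nil))))) (.nd (nat_lit 8) (.nd (nat_lit 9) 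
(.lf (nat_lit 587968) (.g (nat_lit 831) (.e (nat_lit 401458) (nat_lit 13) (.e (nat_lit 483341) (nat_lit 9) (.e (nat_lit 426106) (nat_lit 1) .nil))) (.g (nat_lit 0) (.e (nat_lit 392570) (nat_lit 0) .nil) .nil))) 
(.lf (nat_lit 588480) (.g (nat_lit 2149) (.e (nat_lit 499915) (nat_lit 9) (.e (nat_lit 172120) (nat_lit 12) (.e (nat_lit 475185) (nat_lit 29) (.e (nat_lit 557103) (nat_lit 14) .nil)))) (.g (nat_lit 0) (.e (nat_lit 393897) (nat_lit 0) .nil) .nil)))) (.nd (nat_lit 9) 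
(.lf (nat_lit 588224) (.g (nat_lit 5577) (.e (nat_lit 500065) (nat_lit 18) (.e (nat_lit 65610) (nat_lit 10) (.e (nat_lit 344117) (nat_lit 21) (.e (nat_lit 516139) (nat_lit 7) (.e (nat_lit 409645) (nat_lit 18) (.e (nat_lit 303112) (nat_lit 0) (.e (nat_lit 3144) (nat_lit 193) .nil))))))) (.g (nat_lit 1) (.e (nat_lit 393186) (nat_lit 0) .nil) .nil))) 
(.lf (nat_lit 588736) (.g (nat_lit 2535) (.e (nat_lit 532499) (nat_lit 1) (.e (nat_lit 57686) (nat_lit 156) (.e (nat_lit 163903) (nat_lit 12) (.e (nat_lit 426568) (nat_lit 34) (.e (nat_lit 393283) (nat_lit 24) (.e (nat_lit 434232) (nat_lit 23) .nil)))))) (.g (nat_lit 1) (.e (nat_lit 395224) (nat_lit 0) .nil) .nil))))))) (.nd (nat_lit 6) (.nd (nat_lit 7) (.nd (nat_lit 8) (.nd (nat_lit 9) 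
(.lf (nat_lit 587808) (.g (nat_lit 3411) (.e (nat_lit 401453) (nat_lit 12) (.e (nat_lit 475184) (nat_lit 29) (.e (nat_lit 557109) (nat_lit 15) (.e (nat_lit 188452) (nat_lit 23) (.e (nat_lit 212736) (nat_lit 33) .nil))))) (.g (nat_lit 1) (.e (nat_lit 392172) (nat_lit 0) .nil) .nil))) 
(.lf (nat_lit 588320) (.g (nat_lit 857) (.e (nat_lit 507648) (nat_lit 19) (.e (nat_lit 73781) (nat_lit 32) (.e (nat_lit 2664) (nat_lit 167) (.e (nat_lit 196668) (nat_lit 14) .nil)))) (.g (nat_lit 0) (.e (nat_lit 393320) (nat_lit 0) .nil) .nil)))) (.nd (nat_lit 9) 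
(.lf (nat_lit 588064) (.g (nat_lit 892) (.e (nat_lit 499776) (nat_lit 0) (.e (nat_lit 2797) (nat_lit 180) (.e (nat_lit 303143) (nat_lit 12) (.e (nat_lit 475185) (nat_lit 29) .nil)))) (.g (nat_lit 0) (.e (nat_lit 392871) (nat_lit 0) .nil) .nil))) 
(.lf (nat_lit 588576) (.g (nat_lit 3620) (.e (nat_lit 507946) (nat_lit 18) (.e (nat_lit 303143) (nat_lit 12) (.e (nat_lit 475185) (nat_lit 29) (.e (nat_lit 557107) (nat_lit 15) (.e (nat_lit 188441) (nat_lit 20) (.e (nat_lit 3205) (nat_lit 194) .nil)))))) (.g (nat_lit 1) (.e (nat_lit 394900) (nat_lit 0) .nil) .nil))))) (.nd (nat_lit 8) (.nd (nat_lit 9) 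
(.lf (nat_lit 587936) (.g (nat_lit 2213) (.e (nat_lit 401457) (nat_lit 13) (.e (nat_lit 483413) (nat_lit 27) (.e (nat_lit 401447) (nat_lit 10) (.e (nat_lit 434200) (nat_lit 18) .nil)))) (.g (nat_lit 0) (.e (nat_lit 392522) (nat_lit 0) .nil) .nil))) 
(.lf (nat_lit 588448) (.g (nat_lit 651) (.e (nat_lit 499900) (nat_lit 7) (.e (nat_lit 24608) (nat_lit 3) (.e (nat_lit 98313) (nat_lit 9) .nil))) (.g (nat_lit 0) (.e (nat_lit 393701) (nat_lit 0) .nil) .nil)))) (.nd (nat_lit 9) 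
(.lf (nat_lit 588192) (.g (nat_lit 1499) (.e (nat_lit 500048) (nat_lit 16) (.e (nat_lit 16466) (nat_lit 13) (.e (nat_lit 483337) (nat_lit 9) (.e (nat_lit 426108) (nat_lit 1) .nil)))) (.g (nat_lit 0) (.e (nat_lit 393096) (nat_lit 0) .nil) .nil))) 
(.lf (nat_lit 588704) (.g (nat_lit 4441) (.e (nat_lit 532490) (nat_lit 0) (.e (nat_lit 6680) (nat_lit 357) (.e (nat_lit 3065) (nat_lit 190) (.e (nat_lit 475185) (nat_lit 29) (.e (nat_lit 557100) (nat_lit 13) (.e (nat_lit 172106) (nat_lit 10) (.e (nat_lit 434231) (nat_lit 23) .nil))))))) (.g (nat_lit 1) (.e (nat_lit 395180) (nat_lit 0) .nil) .nil)))))) 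
(.nd (nat_lit 7) (.nd (nat_lit 8) (.nd (nat_lit 9) 
(.lf (nat_lit 587872) (.g (nat_lit 477) (.e (nat_lit 401454) (nat_lit 12) (.e (nat_lit 475198) (nat_lit 40) (.e (nat_lit 704595) (nat_lit 5) .nil))) (.g (nat_lit 0) (.e (nat_lit 392279) (nat_lit 0) .nil) .nil))) 
(.lf (nat_lit 588384) (.g (nat_lit 1874) (.e (nat_lit 500077) (nat_lit 20) (.e (nat_lit 81924) (nat_lit 0) (.e (nat_lit 3305) (nat_lit 202) (.e (nat_lit 573489) (nat_lit 14) (.e (nat_lit 81664) (nat_lit 35) (.e (nat_lit 163950) (nat_lit 21) .nil)))))) (.g (nat_lit 1) (.e (nat_lit 393395) (nat_lit 0) .nil) .nil)))) (.nd (nat_lit 9) 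
(.lf (nat_lit 588128) (.g (nat_lit 635) (.e (nat_lit 500046) (nat_lit 16) (.e (nat_lit 16412) (nat_lit 2) (.e (nat_lit 196654) (nat_lit 11) .nil))) (.g (nat_lit 0) (.e (nat_lit 393006) (nat_lit 0) .nil) .nil))) 
(.lf (nat_lit 588640) (.g (nat_lit 2400) (.e (nat_lit 532482) (nat_lit 0) (.e (nat_lit 6203) (nat_lit 332) (.e (nat_lit 2798) (nat_lit 180) (.e (nat_lit 303119) (nat_lit 3) (.e (nat_lit 204864) (nat_lit 27) (.e (nat_lit 352000) (nat_lit 3) (.e (nat_lit 163962) (nat_lit 25) .nil))))))) (.g (nat_lit 1) (.e (nat_lit 395062) (nat_lit 0) .nil) .nil))))) (.nd (nat_lit 8) (.nd (nat_lit 9) 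
(.lf (nat_lit 588000) (.g (nat_lit 1475) (.e (nat_lit 401459) (nat_lit 13) (.e (nat_lit 483354) (nat_lit 17) (.e (nat_lit 6680) (nat_lit 357) (.e (nat_lit 3088) (nat_lit 191) (.e (nat_lit 491264) (nat_lit 27) .nil))))) (.g (nat_lit 1) (.e (nat_lit 392638) (nat_lit 0) .nil) .nil))) 
(.lf (nat_lit 588512) (.g (nat_lit 897) (.e (nat_lit 499919) (nat_lit 9) (.e (nat_lit 172138) (nat_lit 15) (.e (nat_lit 2058) (nat_lit 142) (.e (nat_lit 704589) (nat_lit 3) .nil)))) (.g (nat_lit 0) (.e (nat_lit 393981) (nat_lit 0) .nil) .nil)))) (.nd (nat_lit 9) 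
(.lf (nat_lit 588256) (.g (nat_lit 2560) (.e (nat_lit 500065) (nat_lit 18) (.e (nat_lit 65622) (nat_lit 12) (.e (nat_lit 385074) (nat_lit 31) (.e (nat_lit 573489) (nat_lit 14) (.e (nat_lit 73779) (nat_lit 32) .nil))))) (.g (nat_lit 0) (.e (nat_lit 393229) (nat_lit 0) .nil) .nil))) 
(.lf (nat_lit 588768) (.g (nat_lit 2068) (.e (nat_lit 532499) (nat_lit 1) (.e (nat_lit 57691) (nat_lit 156) (.e (nat_lit 163869) (nat_lit 2) (.e (nat_lit 196624) (nat_lit 9) (.e (nat_lit 1277) (nat_lit 94) .nil))))) (.g (nat_lit 0) (.e (nat_lit 395278) (nat_lit 0) .nil) .nil)))))))) (.nd (nat_lit 5) (.nd (nat_lit 6) (.nd (nat_lit 7) (.nd (nat_lit 8) (.nd (nat_lit 9) 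
(.lf (nat_lit 587792) (.g (nat_lit 3468) (.e (nat_lit 401452) (nat_lit 12) (.e (nat_lit 475185) (nat_lit 29) (.e (nat_lit 557107) (nat_lit 15) (.e (nat_lit 188452) (nat_lit 23) (.e (nat_lit 204885) (nat_lit 33) .nil))))) (.g (nat_lit 1) (.e (nat_lit 392150) (nat_lit 0) .nil) .nil))) 
(.lf (nat_lit 588304) (.g (nat_lit 1656) (.e (nat_lit 500071) (nat_lit 19) (.e (nat_lit 73782) (nat_lit 32) (.e (nat_lit 2664) (nat_lit 167) (.e (nat_lit 196668) (nat_lit 14) (.e (nat_lit 81664) (nat_lit 35) (.e (nat_lit 163950) (nat_lit 21) .nil)))))) (.g (nat_lit 1) (.e (nat_lit 393301) (nat_lit 0) .nil) .nil)))) (.nd (nat_lit 9) 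
(.lf (nat_lit 588048) (.g (nat_lit 1813) (.e (nat_lit 499727) (nat_lit 0) (.e (nat_lit 2777) (nat_lit 178) (.e (nat_lit 286759) (nat_lit 12) (.e (nat_lit 392960) (nat_lit 2) .nil)))) (.g (nat_lit 0) (.e (nat_lit 392822) (nat_lit 0) .nil) .nil))) 
(.lf (nat_lit 588560) (.g (nat_lit 619) (.e (nat_lit 507944) (nat_lit 18) (.e (nat_lit 303133) (nat_lit 9) (.e (nat_lit 426412) (nat_lit 15) .nil))) (.g (nat_lit 0) (.e (nat_lit 394646) (nat_lit 0) .nil) .nil))))) (.nd (nat_lit 8) (.nd (nat_lit 9) 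
(.lf (nat_lit 587920) (.g (nat_lit 2031) (.e (nat_lit 401456) (nat_lit 13) (.e (nat_lit 483413) (nat_lit 27) (.e (nat_lit 401448) (nat_lit 10) (.e (nat_lit 434202) (nat_lit 18) .nil)))) (.g (nat_lit 0) (.e (nat_lit 392458) (nat_lit 0) .nil) .nil))) 
(.lf (nat_lit 588432) (.g (nat_lit 2758) (.e (nat_lit 499837) (nat_lit 5) (.e (nat_lit 3017) (nat_lit 187) (.e (nat_lit 450588) (nat_lit 10) (.e (nat_lit 573475) (nat_lit 12) (.e (nat_lit 57574) (nat_lit 55) .nil))))) (.g (nat_lit 0) (.e (nat_lit 393621) (nat_lit 0) .nil) .nil)))) (.nd (nat_lit 9) 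
(.lf (nat_lit 588176) (.g (nat_lit 1067) (.e (nat_lit 500046) (nat_lit 16) (.e (nat_lit 16466) (nat_lit 13) (.e (nat_lit 483341) (nat_lit 9) (.e (nat_lit 426106) (nat_lit 1) .nil)))) (.g (nat_lit 0) (.e (nat_lit 393059) (nat_lit 0) .nil) .nil))) 
(.lf (nat_lit 588688) (.g (nat_lit 3682) (.e (nat_lit 532486) (nat_lit 0) (.e (nat_lit 6113) (nat_lit 332) (.e (nat_lit 1374) (nat_lit 104) (.e (nat_lit 303117) (nat_lit 2) (.e (nat_lit 196661) (nat_lit 12) (.e (nat_lit 65280) (nat_lit 206) (.e (nat_lit 180245) (nat_lit 5) .nil))))))) (.g (nat_lit 1) (.e (nat_lit 395143) (nat_lit 0) .nil) .nil)))))) 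
(.nd (nat_lit 7) (.nd (nat_lit 8) (.nd (nat_lit 9) 
(.lf (nat_lit 587856) (.g (nat_lit 4858) (.e (nat_lit 401454) (nat_lit 12) (.e (nat_lit 475185) (nat_lit 29) (.e (nat_lit 557100) (nat_lit 13) (.e (nat_lit 172106) (nat_lit 10) (.e (nat_lit 434231) (nat_lit 23) (.e (nat_lit 532568) (nat_lit 16) .nil)))))) (.g (nat_lit 1) (.e (nat_lit 392261) (nat_lit 0) .nil) .nil))) 
(.lf (nat_lit 588368) (.g (nat_lit 2717) (.e (nat_lit 500075) (nat_lit 20) (.e (nat_lit 81956) (nat_lit 23) (.e (nat_lit 98323) (nat_lit 17) (.e (nat_lit 6989) (nat_lit 377) (.e (nat_lit 2810) (nat_lit 180) .nil))))) (.g (nat_lit 0) (.e (nat_lit 393371) (nat_lit 0) .nil) .nil)))) (.nd (nat_lit 9) 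
(.lf (nat_lit 588112) (.g (nat_lit 2719) (.e (nat_lit 499991) (nat_lit 14) (.e (nat_lit 1673) (nat_lit 116) (.e (nat_lit 401448) (nat_lit 10) (.e (nat_lit 434238) (nat_lit 25) (.e (nat_lit 548898) (nat_lit 14) (.e (nat_lit 3016) (nat_lit 187) (.e (nat_lit 450575) (nat_lit 1) .nil))))))) (.g (nat_lit 1) (.e (nat_lit 392974) (nat_lit 0) .nil) .nil))) 
(.lf (nat_lit 588624) (.g (nat_lit 196) (.e (nat_lit 532481) (nat_lit 0) (.e (nat_lit 6724) (nat_lit 362) (.e (nat_lit 180251) (nat_lit 10) .nil))) (.g (nat_lit 0) (.e (nat_lit 395034) (nat_lit 0) .nil) .nil))))) (.nd (nat_lit 8) (.nd (nat_lit 9) 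
(.lf (nat_lit 587984) (.g (nat_lit 1942) (.e (nat_lit 401458) (nat_lit 13) (.e (nat_lit 483372) (nat_lit 21) (.e (nat_lit 319504) (nat_lit 10) (.e (nat_lit 5712) (nat_lit 312) (.e (nat_lit 286) (nat_lit 21) .nil))))) (.g (nat_lit 0) (.e (nat_lit 392609) (nat_lit 0) .nil) .nil))) 
(.lf (nat_lit 588496) (.g (nat_lit 1922) (.e (nat_lit 499919) (nat_lit 9) (.e (nat_lit 172106) (nat_lit 10) (.e (nat_lit 434231) (nat_lit 23) (.e (nat_lit 532482) (nat_lit 0) .nil)))) (.g (nat_lit 0) (.e (nat_lit 393955) (nat_lit 0) .nil) .nil)))) (.nd (nat_lit 9) 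
(.lf (nat_lit 588240) (.g (nat_lit 4244) (.e (nat_lit 500065) (nat_lit 18) (.e (nat_lit 65617) (nat_lit 10) (.e (nat_lit 344132) (nat_lit 26) (.e (nat_lit 557093) (nat_lit 12) (.e (nat_lit 164023) (nat_lit 46) (.e (nat_lit 704629) (nat_lit 9) (.e (nat_lit 442) (nat_lit 33) (.e (nat_lit 434222) (nat_lit 19) .nil)))))))) (.g (nat_lit 1) (.e (nat_lit 393202) (nat_lit 0) .nil) .nil))) 
(.lf (nat_lit 588752) (.g (nat_lit 1418) (.e (nat_lit 532499) (nat_lit 1) (.e (nat_lit 57688) (nat_lit 156) (.e (nat_lit 163903) (nat_lit 12) (.e (nat_lit 426567) (nat_lit 34) .nil)))) (.g (nat_lit 0) (.e (nat_lit 395250) (nat_lit 0) .nil) .nil))))))) (.nd (nat_lit 6) (.nd (nat_lit 7) (.nd (nat_lit 8) (.nd (nat_lit 9) 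
(.lf (nat_lit 587824) (.g (nat_lit 1324) (.e (nat_lit 401454) (nat_lit 12) (.e (nat_lit 483072) (nat_lit 26) (.e (nat_lit 532559) (nat_lit 14) (.e (nat_lit 376842) (nat_lit 11) (.e (nat_lit 433920) (nat_lit 35) .nil))))) (.g (nat_lit 1) (.e (nat_lit 392223) (nat_lit 0) .nil) .nil))) 
(.lf (nat_lit 588336) (.g (nat_lit 2108) (.e (nat_lit 500074) (nat_lit 20) (.e (nat_lit 81956) (nat_lit 23) (.e (nat_lit 98323) (nat_lit 17) (.e (nat_lit 6989) (nat_lit 377) (.e (nat_lit 2810) (nat_lit 180) .nil))))) (.g (nat_lit 0) (.e (nat_lit 393336) (nat_lit 0) .nil) .nil)))) (.nd (nat_lit 9) 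
(.lf (nat_lit 588080) (.g (nat_lit 2229) (.e (nat_lit 499952) (nat_lit 14) (.e (nat_lit 1673) (nat_lit 116) (.e (nat_lit 401448) (nat_lit 10) (.e (nat_lit 434227) (nat_lit 20) (.e (nat_lit 507929) (nat_lit 10) .nil))))) (.g (nat_lit 0) (.e (nat_lit 392916) (nat_lit 0) .nil) .nil))) 
(.lf (nat_lit 588592) (.g (nat_lit 3083) (.e (nat_lit 507907) (nat_lit 0) (.e (nat_lit 5412) (nat_lit 303) (.e (nat_lit 73739) (nat_lit 1) (.e (nat_lit 499811) (nat_lit 5) (.e (nat_lit 3102) (nat_lit 192) (.e (nat_lit 491560) (nat_lit 10) (.e (nat_lit 344115) (nat_lit 20) .nil))))))) (.g (nat_lit 1) (.e (nat_lit 394936) (nat_lit 0) .nil) .nil))))) (.nd (nat_lit 8) (.nd (nat_lit 9) 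
(.lf (nat_lit 587952) (.g (nat_lit 2659) (.e (nat_lit 401457) (nat_lit 13) (.e (nat_lit 483413) (nat_lit 27) (.e (nat_lit 401448) (nat_lit 10) (.e (nat_lit 434202) (nat_lit 18) (.e (nat_lit 6063) (nat_lit 328) .nil))))) (.g (nat_lit 0) (.e (nat_lit 392543) (nat_lit 0) .nil) .nil))) 
(.lf (nat_lit 588464) (.g (nat_lit 2359) (.e (nat_lit 499905) (nat_lit 8) (.e (nat_lit 164208) (nat_lit 176) (.e (nat_lit 2819) (nat_lit 181) (.e (nat_lit 311315) (nat_lit 3) .nil)))) (.g (nat_lit 0) (.e (nat_lit 393765) (nat_lit 0) .nil) .nil)))) (.nd (nat_lit 9) 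
(.lf (nat_lit 588208) (.g (nat_lit 2729) (.e (nat_lit 500061) (nat_lit 18) (.e (nat_lit 65630) (nat_lit 14) (.e (nat_lit 401428) (nat_lit 3) (.e (nat_lit 204863) (nat_lit 27) (.e (nat_lit 352000) (nat_lit 3) .nil))))) (.g (nat_lit 0) (.e (nat_lit 393157) (nat_lit 0) .nil) .nil))) 
(.lf (nat_lit 588720) (.g (nat_lit 1931) (.e (nat_lit 532498) (nat_lit 1) (.e (nat_lit 57691) (nat_lit 156) (.e (nat_lit 163905) (nat_lit 12) (.e (nat_lit 426479) (nat_lit 27) (.e (nat_lit 336434) (nat_lit 30) .nil))))) (.g (nat_lit 0) (.e (nat_lit 395201) (nat_lit 0) .nil) .nil)))))) (.nd (nat_lit 7) (.nd (nat_lit 8) (.nd (nat_lit 9) 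
(.lf (nat_lit 587888) (.g (nat_lit 2649) (.e (nat_lit 401454) (nat_lit 12) (.e (nat_lit 475209) (nat_lit 41) (.e (nat_lit 712755) (nat_lit 30) (.e (nat_lit 450569) (nat_lit 0) (.e (nat_lit 5947) (nat_lit 322) (.e (nat_lit 57449) (nat_lit 20) .nil)))))) (.g (nat_lit 1) (.e (nat_lit 392295) (nat_lit 0) .nil) .nil))) 
(.lf (nat_lit 588400) (.g (nat_lit 1839) (.e (nat_lit 500079) (nat_lit 20) (.e (nat_lit 81956) (nat_lit 23) (.e (nat_lit 98320) (nat_lit 17) (.e (nat_lit 7110) (nat_lit 380) .nil)))) (.g (nat_lit 0) (.e (nat_lit 393422) (nat_lit 0) .nil) .nil)))) (.nd (nat_lit 9) 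
(.lf (nat_lit 588144) (.g (nat_lit 2392) (.e (nat_lit 500046) (nat_lit 16) (.e (nat_lit 16416) (nat_lit 3) (.e (nat_lit 204813) (nat_lit 9) (.e (nat_lit 426124) (nat_lit 2) (.e (nat_lit 196624) (nat_lit 9) (.e (nat_lit 473) (nat_lit 36) (.e (nat_lit 458779) (nat_lit 19) .nil))))))) (.g (nat_lit 1) (.e (nat_lit 393024) (nat_lit 0) .nil) .nil))) 
(.lf (nat_lit 588656) (.g (nat_lit 2698) (.e (nat_lit 532482) (nat_lit 0) (.e (nat_lit 6722) (nat_lit 362) (.e (nat_lit 180250) (nat_lit 10) (.e (nat_lit 573471) (nat_lit 11) (.e (nat_lit 16451) (nat_lit 11) (.e (nat_lit 458789) (nat_lit 23) .nil)))))) (.g (nat_lit 1) (.e (nat_lit 395086) (nat_lit 0) .nil) .nil))))) (.nd (nat_lit 8) (.nd (nat_lit 9) 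
(.lf (nat_lit 588016) (.g (nat_lit 1727) (.e (nat_lit 401459) (nat_lit 13) (.e (nat_lit 483410) (nat_lit 27) (.e (nat_lit 401456) (nat_lit 13) (.e (nat_lit 483410) (nat_lit 27) .nil)))) (.g (nat_lit 0) (.e (nat_lit 392654) (nat_lit 0) .nil) .nil))) 
(.lf (nat_lit 588528) (.g (nat_lit 3837) (.e (nat_lit 499929) (nat_lit 11) (.e (nat_lit 188452) (nat_lit 23) (.e (nat_lit 204846) (nat_lit 24) (.e (nat_lit 319504) (nat_lit 10) (.e (nat_lit 5396) (nat_lit 301) .nil))))) (.g (nat_lit 0) (.e (nat_lit 394293) (nat_lit 0) .nil) .nil)))) (.nd (nat_lit 9) 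
(.lf (nat_lit 588272) (.g (nat_lit 3416) (.e (nat_lit 500065) (nat_lit 18) (.e (nat_lit 65630) (nat_lit 14) (.e (nat_lit 401425) (nat_lit 2) (.e (nat_lit 196666) (nat_lit 13) (.e (nat_lit 65629) (nat_lit 14) .nil))))) (.g (nat_lit 0) (.e (nat_lit 393247) (nat_lit 0) .nil) .nil))) 
(.lf (nat_lit 588784) (.g (nat_lit 2573) (.e (nat_lit 532499) (nat_lit 1) (.e (nat_lit 57692) (nat_lit 156) (.e (nat_lit 163907) (nat_lit 12) (.e (nat_lit 426568) (nat_lit 34) (.e (nat_lit 393283) (nat_lit 24) (.e (nat_lit 434234) (nat_lit 23) .nil)))))) (.g (nat_lit 1) (.e (nat_lit 395311) (nat_lit 0) .nil) .nil))))))))) 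
(.nd (nat_lit 4) (.nd (nat_lit 5) (.nd (nat_lit 6) (.nd (nat_lit 7) (.nd (nat_lit 8) 
(.nd (nat_lit 9) 
(.lf (nat_lit 587784) (.g (nat_lit 3842) (.e (nat_lit 401451) (nat_lit 12) (.e (nat_lit 475185) (nat_lit 29) (.e (nat_lit 557109) (nat_lit 15) (.e (nat_lit 188449) (nat_lit 22) (.e (nat_lit 196630) (nat_lit 9) (.e (nat_lit 1669) (nat_lit 116) .nil)))))) (.g (nat_lit 1) (.e (nat_lit 392123) (nat_lit 0) .nil) .nil))) 
(.lf (nat_lit 588296) (.g (nat_lit 2279) (.e (nat_lit 500071) (nat_lit 19) (.e (nat_lit 73753) (nat_lit 8) (.e (nat_lit 557100) (nat_lit 13) (.e (nat_lit 172135) (nat_lit 15) .nil)))) (.g (nat_lit 0) (.e (nat_lit 393293) (nat_lit 0) .nil) .nil)))) (.nd (nat_lit 9) 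
(.lf (nat_lit 588040) (.g (nat_lit 855) (.e (nat_lit 409344) (nat_lit 30) (.e (nat_lit 360448) (nat_lit 0) (.e (nat_lit 4269) (nat_lit 251) (.e (nat_lit 2650) (nat_lit 166) (.e (nat_lit 196352) (nat_lit 19) .nil))))) (.g (nat_lit 0) (.e (nat_lit 392770) (nat_lit 0) .nil) .nil))) 
(.lf (nat_lit 588552) (.g (nat_lit 1076) (.e (nat_lit 499933) (nat_lit 11) (.e (nat_lit 188452) (nat_lit 23) (.e (nat_lit 204849) (nat_lit 25) .nil))) (.g (nat_lit 0) (.e (nat_lit 394423) (nat_lit 0) .nil) .nil))))) (.nd (nat_lit 8) (.nd (nat_lit 9) 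
(.lf (nat_lit 587912) (.g (nat_lit 1181) (.e (nat_lit 401456) (nat_lit 13) (.e (nat_lit 483383) (nat_lit 23) (.e (nat_lit 336263) (nat_lit 15) .nil))) (.g (nat_lit 0) (.e (nat_lit 392414) (nat_lit 0) .nil) .nil))) 
(.lf (nat_lit 588424) (.g (nat_lit 1572) (.e (nat_lit 499828) (nat_lit 5) (.e (nat_lit 3098) (nat_lit 192) (.e (nat_lit 491566) (nat_lit 12) (.e (nat_lit 385074) (nat_lit 31) .nil)))) (.g (nat_lit 0) (.e (nat_lit 393594) (nat_lit 0) .nil) .nil)))) (.nd (nat_lit 9) 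
(.lf (nat_lit 588168) (.g (nat_lit 1047) (.e (nat_lit 500046) (nat_lit 16) (.e (nat_lit 16465) (nat_lit 13) (.e (nat_lit 483333) (nat_lit 0) .nil))) (.g (nat_lit 0) (.e (nat_lit 393051) (nat_lit 0) .nil) .nil))) 
(.lf (nat_lit 588680) (.g (nat_lit 3155) (.e (nat_lit 532482) (nat_lit 0) (.e (nat_lit 6724) (nat_lit 362) (.e (nat_lit 180252) (nat_lit 10) (.e (nat_lit 573471) (nat_lit 11) (.e (nat_lit 16447) (nat_lit 10) (.e (nat_lit 434231) (nat_lit 23) .nil)))))) (.g (nat_lit 1) (.e (nat_lit 395130) (nat_lit 0) .nil) .nil)))))) (.nd (nat_lit 7) (.nd (nat_lit 8) (.nd (nat_lit 9) 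
(.lf (nat_lit 587848) (.g (nat_lit 3621) (.e (nat_lit 401454) (nat_lit 12) (.e (nat_lit 475183) (nat_lit 29) (.e (nat_lit 557107) (nat_lit 15) (.e (nat_lit 188452) (nat_lit 23) (.e (nat_lit 204884) (nat_lit 33) .nil))))) (.g (nat_lit 1) (.e (nat_lit 392252) (nat_lit 0) .nil) .nil))) 
(.lf (nat_lit 588360) (.g (nat_lit 422) (.e (nat_lit 500075) (nat_lit 20) (.e (nat_lit 81954) (nat_lit 23) (.e (nat_lit 98350) (nat_lit 24) .nil))) (.g (nat_lit 0) (.e (nat_lit 393362) (nat_lit 0) .nil) .nil)))) (.nd (nat_lit 9) 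
(.lf (nat_lit 588104) (.g (nat_lit 2728) (.e (nat_lit 499991) (nat_lit 14) (.e (nat_lit 1587) (nat_lit 111) (.e (nat_lit 360475) (nat_lit 8) (.e (nat_lit 557091) (nat_lit 12) (.e (nat_lit 164016) (nat_lit 44) .nil))))) (.g (nat_lit 0) (.e (nat_lit 392965) (nat_lit 0) .nil) .nil))) 
(.lf (nat_lit 588616) (.g (nat_lit 1970) (.e (nat_lit 532481) (nat_lit 0) (.e (nat_lit 2031) (nat_lit 140) (.e (nat_lit 688177) (nat_lit 16) (.e (nat_lit 65575) (nat_lit 5) (.e (nat_lit 139295) (nat_lit 14) .nil))))) (.g (nat_lit 0) (.e (nat_lit 394994) (nat_lit 0) .nil) .nil))))) (.nd (nat_lit 8) (.nd (nat_lit 9) 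
(.lf (nat_lit 587976) (.g (nat_lit 481) (.e (nat_lit 401458) (nat_lit 13) (.e (nat_lit 483350) (nat_lit 17) (.e (nat_lit 6629) (nat_lit 357) .nil))) (.g (nat_lit 0) (.e (nat_lit 392586) (nat_lit 0) .nil) .nil))) 
(.lf (nat_lit 588488) (.g (nat_lit 1948) (.e (nat_lit 499917) (nat_lit 9) (.e (nat_lit 172126) (nat_lit 14) (.e (nat_lit 491537) (nat_lit 2) (.e (nat_lit 90170) (nat_lit 13) .nil)))) (.g (nat_lit 0) (.e (nat_lit 393933) (nat_lit 0) .nil) .nil)))) (.nd (nat_lit 9) 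
(.lf (nat_lit 588232) (.g (nat_lit 2052) (.e (nat_lit 500065) (nat_lit 18) (.e (nat_lit 65617) (nat_lit 10) (.e (nat_lit 344130) (nat_lit 26) (.e (nat_lit 557090) (nat_lit 12) (.e (nat_lit 164022) (nat_lit 46) (.e (nat_lit 704737) (nat_lit 11) (.e (nat_lit 16401) (nat_lit 0) (.e (nat_lit 3141) (nat_lit 193) .nil)))))))) (.g (nat_lit 1) (.e (nat_lit 393194) (nat_lit 0) .nil) .nil))) 
(.lf (nat_lit 588744) (.g (nat_lit 3643) (.e (nat_lit 532499) (nat_lit 1) (.e (nat_lit 57688) (nat_lit 156) (.e (nat_lit 163875) (nat_lit 3) (.e (nat_lit 204837) (nat_lit 20) (.e (nat_lit 114718) (nat_lit 23) (.e (nat_lit 98367) (nat_lit 27) (.e (nat_lit 434232) (nat_lit 23) .nil))))))) (.g (nat_lit 1) (.e (nat_lit 395238) (nat_lit 0) .nil) .nil))))))) 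
(.nd (nat_lit 6) (.nd (nat_lit 7) (.nd (nat_lit 8) (.nd (nat_lit 9) 
(.lf (nat_lit 587816) (.g (nat_lit 4230) (.e (nat_lit 401453) (nat_lit 12) (.e (nat_lit 475185) (nat_lit 29) (.e (nat_lit 557109) (nat_lit 15) (.e (nat_lit 188452) (nat_lit 23) (.e (nat_lit 204885) (nat_lit 33) .nil))))) (.g (nat_lit 1) (.e (nat_lit 392181) (nat_lit 0) .nil) .nil))) 
(.lf (nat_lit 588328) (.g (nat_lit 2768) (.e (nat_lit 500074) (nat_lit 20) (.e (nat_lit 81954) (nat_lit 23) (.e (nat_lit 98349) (nat_lit 24) (.e (nat_lit 409645) (nat_lit 18) (.e (nat_lit 303106) (nat_lit 0) (.e (nat_lit 3114) (nat_lit 193) .nil)))))) (.g (nat_lit 1) (.e (nat_lit 393328) (nat_lit 0) .nil) .nil)))) (.nd (nat_lit 9) 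
(.lf (nat_lit 588072) (.g (nat_lit 1733) (.e (nat_lit 507648) (nat_lit 0) (.e (nat_lit 2797) (nat_lit 180) (.e (nat_lit 303143) (nat_lit 12) (.e (nat_lit 475185) (nat_lit 29) (.e (nat_lit 557101) (nat_lit 13) .nil))))) (.g (nat_lit 0) (.e (nat_lit 392885) (nat_lit 0) .nil) .nil))) 
(.lf (nat_lit 588584) (.g (nat_lit 711) (.e (nat_lit 507943) (nat_lit 17) (.e (nat_lit 294960) (nat_lit 13) (.e (nat_lit 401152) (nat_lit 16) (.e (nat_lit 401454) (nat_lit 12) (.e (nat_lit 483072) (nat_lit 23) .nil))))) (.g (nat_lit 0) (.e (nat_lit 394922) (nat_lit 0) .nil) .nil))))) (.nd (nat_lit 8) (.nd (nat_lit 9) 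
(.lf (nat_lit 587944) (.g (nat_lit 2843) (.e (nat_lit 401457) (nat_lit 13) (.e (nat_lit 483413) (nat_lit 27) (.e (nat_lit 401447) (nat_lit 10) (.e (nat_lit 434208) (nat_lit 18) (.e (nat_lit 6063) (nat_lit 328) .nil))))) (.g (nat_lit 0) (.e (nat_lit 392533) (nat_lit 0) .nil) .nil))) 
(.lf (nat_lit 588456) (.g (nat_lit 671) (.e (nat_lit 499900) (nat_lit 7) (.e (nat_lit 24658) (nat_lit 13) (.e (nat_lit 393225) (nat_lit 9) .nil))) (.g (nat_lit 0) (.e (nat_lit 393732) (nat_lit 0) .nil) .nil)))) (.nd (nat_lit 9) 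
(.lf (nat_lit 588200) (.g (nat_lit 2491) (.e (nat_lit 500059) (nat_lit 18) (.e (nat_lit 65630) (nat_lit 14) (.e (nat_lit 401428) (nat_lit 3) (.e (nat_lit 204855) (nat_lit 26) (.e (nat_lit 336226) (nat_lit 14) (.e (nat_lit 401414) (nat_lit 0) (.e (nat_lit 3124) (nat_lit 193) .nil))))))) (.g (nat_lit 1) (.e (nat_lit 393145) (nat_lit 0) .nil) .nil))) 
(.lf (nat_lit 588712) (.g (nat_lit 1782) (.e (nat_lit 532498) (nat_lit 1) (.e (nat_lit 57688) (nat_lit 156) (.e (nat_lit 163903) (nat_lit 12) (.e (nat_lit 426479) (nat_lit 27) (.e (nat_lit 336434) (nat_lit 30) .nil))))) (.g (nat_lit 0) (.e (nat_lit 395190) (nat_lit 0) .nil) .nil)))))) (.nd (nat_lit 7) (.nd (nat_lit 8) (.nd (nat_lit 9) 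
(.lf (nat_lit 587880) (.g (nat_lit 1819) (.e (nat_lit 401454) (nat_lit 12) (.e (nat_lit 475208) (nat_lit 41) (.e (nat_lit 712741) (nat_lit 27) (.e (nat_lit 426171) (nat_lit 7) (.e (nat_lit 409646) (nat_lit 18) (.e (nat_lit 311040) (nat_lit 35) .nil)))))) (.g (nat_lit 1) (.e (nat_lit 392287) (nat_lit 0) .nil) .nil))) 
(.lf (nat_lit 588392) (.g (nat_lit 743) (.e (nat_lit 500078) (nat_lit 20) (.e (nat_lit 81950) (nat_lit 21) (.e (nat_lit 57686) (nat_lit 156) .nil))) (.g (nat_lit 0) (.e (nat_lit 393405) (nat_lit 0) .nil) .nil)))) (.nd (nat_lit 9) 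
(.lf (nat_lit 588136) (.g (nat_lit 3302) (.e (nat_lit 500046) (nat_lit 16) (.e (nat_lit 16416) (nat_lit 3) (.e (nat_lit 204809) (nat_lit 9) (.e (nat_lit 426124) (nat_lit 2) (.e (nat_lit 196624) (nat_lit 9) (.e (nat_lit 473) (nat_lit 36) (.e (nat_lit 458782) (nat_lit 19) .nil))))))) (.g (nat_lit 1) (.e (nat_lit 393016) (nat_lit 0) .nil) .nil))) 
(.lf (nat_lit 588648) (.g (nat_lit 1217) (.e (nat_lit 532482) (nat_lit 0) (.e (nat_lit 6722) (nat_lit 362) (.e (nat_lit 180244) (nat_lit 5) (.e (nat_lit 532486) (nat_lit 0) .nil)))) (.g (nat_lit 0) (.e (nat_lit 395076) (nat_lit 0) .nil) .nil))))) (.nd (nat_lit 8) (.nd (nat_lit 9) 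
(.lf (nat_lit 588008) (.g (nat_lit 2067) (.e (nat_lit 401459) (nat_lit 13) (.e (nat_lit 483409) (nat_lit 27) (.e (nat_lit 401457) (nat_lit 13) (.e (nat_lit 491264) (nat_lit 27) .nil)))) (.g (nat_lit 1) (.e (nat_lit 392646) (nat_lit 0) .nil) .nil))) 
(.lf (nat_lit 588520) (.g (nat_lit 1986) (.e (nat_lit 499928) (nat_lit 11) (.e (nat_lit 188452) (nat_lit 23) (.e (nat_lit 204846) (nat_lit 24) (.e (nat_lit 319534) (nat_lit 16) .nil)))) (.g (nat_lit 0) (.e (nat_lit 394277) (nat_lit 0) .nil) .nil)))) (.nd (nat_lit 9) 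
(.lf (nat_lit 588264) (.g (nat_lit 2786) (.e (nat_lit 500065) (nat_lit 18) (.e (nat_lit 65628) (nat_lit 14) (.e (nat_lit 401425) (nat_lit 2) (.e (nat_lit 196666) (nat_lit 13) (.e (nat_lit 65630) (nat_lit 14) (.e (nat_lit 401412) (nat_lit 0) (.e (nat_lit 3138) (nat_lit 193) .nil))))))) (.g (nat_lit 1) (.e (nat_lit 393238) (nat_lit 0) .nil) .nil))) 
(.lf (nat_lit 588776) (.g (nat_lit 3444) (.e (nat_lit 532499) (nat_lit 1) (.e (nat_lit 57692) (nat_lit 156) (.e (nat_lit 163875) (nat_lit 3) (.e (nat_lit 204837) (nat_lit 20) (.e (nat_lit 114719) (nat_lit 23) (.e (nat_lit 98367) (nat_lit 27) (.e (nat_lit 434232) (nat_lit 23) .nil))))))) (.g (nat_lit 1) (.e (nat_lit 395299) (nat_lit 0) .nil) .nil)))))))) 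
(.nd (nat_lit 5) (.nd (nat_lit 6) (.nd (nat_lit 7) (.nd (nat_lit 8) (.nd (nat_lit 9) 
(.lf (nat_lit 587800) (.g (nat_lit 3710) (.e (nat_lit 401453) (nat_lit 12) (.e (nat_lit 475184) (nat_lit 29) (.e (nat_lit 557098) (nat_lit 13) (.e (nat_lit 172115) (nat_lit 10) (.e (nat_lit 434231) (nat_lit 23) (.e (nat_lit 532568) (nat_lit 16) .nil)))))) (.g (nat_lit 1) (.e (nat_lit 392164) (nat_lit 0) .nil) .nil))) 
(.lf (nat_lit 588312) (.g (nat_lit 2410) (.e (nat_lit 500072) (nat_lit 19) (.e (nat_lit 73755) (nat_lit 8) (.e (nat_lit 557098) (nat_lit 13) (.e (nat_lit 172133) (nat_lit 15) (.e (nat_lit 7936) (nat_lit 121) .nil))))) (.g (nat_lit 0) (.e (nat_lit 393310) (nat_lit 0) .nil) .nil)))) (.nd (nat_lit 9) 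
(.lf (nat_lit 588056) (.g (nat_lit 2200) (.e (nat_lit 499719) (nat_lit 0) (.e (nat_lit 1348) (nat_lit 102) (.e (nat_lit 286759) (nat_lit 12) (.e (nat_lit 385074) (nat_lit 31) (.e (nat_lit 573484) (nat_lit 13) .nil))))) (.g (nat_lit 0) (.e (nat_lit 392844) (nat_lit 0) .nil) .nil))) 
(.lf (nat_lit 588568) (.g (nat_lit 2493) (.e (nat_lit 507945) (nat_lit 18) (.e (nat_lit 303143) (nat_lit 12) (.e (nat_lit 475185) (nat_lit 29) (.e (nat_lit 557109) (nat_lit 15) .nil)))) (.g (nat_lit 0) (.e (nat_lit 394701) (nat_lit 0) .nil) .nil))))) (.nd (nat_lit 8) (.nd (nat_lit 9) 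
(.lf (nat_lit 587928) (.g (nat_lit 611) (.e (nat_lit 401457) (nat_lit 13) (.e (nat_lit 483346) (nat_lit 17) (.e (nat_lit 2368) (nat_lit 153) .nil))) (.g (nat_lit 0) (.e (nat_lit 392469) (nat_lit 0) .nil) .nil))) 
(.lf (nat_lit 588440) (.g (nat_lit 2279) (.e (nat_lit 499845) (nat_lit 5) (.e (nat_lit 3102) (nat_lit 192) (.e (nat_lit 491560) (nat_lit 10) (.e (nat_lit 344115) (nat_lit 20) (.e (nat_lit 507907) (nat_lit 0) (.e (nat_lit 5412) (nat_lit 303) (.e (nat_lit 73739) (nat_lit 1) .nil))))))) (.g (nat_lit 1) (.e (nat_lit 393640) (nat_lit 0) .nil) .nil)))) (.nd (nat_lit 9) 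
(.lf (nat_lit 588184) (.g (nat_lit 2157) (.e (nat_lit 500048) (nat_lit 16) (.e (nat_lit 16435) (nat_lit 9) (.e (nat_lit 426566) (nat_lit 34) (.e (nat_lit 393253) (nat_lit 18) (.e (nat_lit 164329) (nat_lit 230) .nil))))) (.g (nat_lit 0) (.e (nat_lit 393085) (nat_lit 0) .nil) .nil))) 
(.lf (nat_lit 588696) (.g (nat_lit 1047) (.e (nat_lit 532490) (nat_lit 0) (.e (nat_lit 1040) (nat_lit 81) (.e (nat_lit 7270) (nat_lit 385) (.e (nat_lit 122893) (nat_lit 3) .nil)))) (.g (nat_lit 0) (.e (nat_lit 395158) (nat_lit 0) .nil) .nil)))))) (.nd (nat_lit 7) (.nd (nat_lit 8) (.nd (nat_lit 9) 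
(.lf (nat_lit 587864) (.g (nat_lit 3092) (.e (nat_lit 401454) (nat_lit 12) (.e (nat_lit 475197) (nat_lit 40) (.e (nat_lit 704592) (nat_lit 4) (.e (nat_lit 172082) (nat_lit 7) (.e (nat_lit 409646) (nat_lit 18) (.e (nat_lit 311040) (nat_lit 35) .nil)))))) (.g (nat_lit 1) (.e (nat_lit 392271) (nat_lit 0) .nil) .nil))) 
(.lf (nat_lit 588376) (.g (nat_lit 3392) (.e (nat_lit 500075) (nat_lit 20) (.e (nat_lit 81956) (nat_lit 23) (.e (nat_lit 98350) (nat_lit 24) (.e (nat_lit 409647) (nat_lit 18) .nil)))) (.g (nat_lit 0) (.e (nat_lit 393379) (nat_lit 0) .nil) .nil)))) (.nd (nat_lit 9) 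
(.lf (nat_lit 588120) (.g (nat_lit 1759) (.e (nat_lit 500011) (nat_lit 14) (.e (nat_lit 1638) (nat_lit 114) (.e (nat_lit 385067) (nat_lit 26) (.e (nat_lit 532530) (nat_lit 9) (.e (nat_lit 336324) (nat_lit 18) .nil))))) (.g (nat_lit 0) (.e (nat_lit 392983) (nat_lit 0) .nil) .nil))) 
(.lf (nat_lit 588632) (.g (nat_lit 4518) (.e (nat_lit 532482) (nat_lit 0) (.e (nat_lit 6203) (nat_lit 332) (.e (nat_lit 2798) (nat_lit 180) (.e (nat_lit 303117) (nat_lit 2) (.e (nat_lit 196670) (nat_lit 14) (.e (nat_lit 73779) (nat_lit 32) (.e (nat_lit 2505) (nat_lit 157) (.e (nat_lit 3249) (nat_lit 197) .nil)))))))) (.g (nat_lit 1) (.e (nat_lit 395054) (nat_lit 0) .nil) .nil))))) 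
(.nd (nat_lit 8) (.nd (nat_lit 9) 
(.lf (nat_lit 587992) (.g (nat_lit 1602) (.e (nat_lit 401458) (nat_lit 13) (.e (nat_lit 483395) (nat_lit 24) (.e (nat_lit 344169) (nat_lit 40) (.e (nat_lit 671751) (nat_lit 0) (.e (nat_lit 1524) (nat_lit 108) .nil))))) (.g (nat_lit 0) (.e (nat_lit 392620) (nat_lit 0) .nil) .nil))) 
(.lf (nat_lit 588504) (.g (nat_lit 3594) (.e (nat_lit 499919) (nat_lit 9) (.e (nat_lit 172113) (nat_lit 10) (.e (nat_lit 434245) (nat_lit 28) (.e (nat_lit 573471) (nat_lit 11) (.e (nat_lit 16425) (nat_lit 7) (.e (nat_lit 409623) (nat_lit 10) (.e (nat_lit 555) (nat_lit 41) .nil))))))) (.g (nat_lit 1) (.e (nat_lit 393969) (nat_lit 0) .nil) .nil)))) (.nd (nat_lit 9) 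
(.lf (nat_lit 588248) (.g (nat_lit 6409) (.e (nat_lit 500065) (nat_lit 18) (.e (nat_lit 65617) (nat_lit 10) (.e (nat_lit 344133) (nat_lit 26) (.e (nat_lit 557091) (nat_lit 12) (.e (nat_lit 164022) (nat_lit 46) (.e (nat_lit 704629) (nat_lit 9) (.e (nat_lit 442) (nat_lit 33) (.e (nat_lit 434222) (nat_lit 19) .nil)))))))) (.g (nat_lit 1) (.e (nat_lit 393210) (nat_lit 0) .nil) .nil))) 
(.lf (nat_lit 588760) (.g (nat_lit 3201) (.e (nat_lit 532499) (nat_lit 1) (.e (nat_lit 57688) (nat_lit 156) (.e (nat_lit 163905) (nat_lit 12) (.e (nat_lit 426568) (nat_lit 34) (.e (nat_lit 393284) (nat_lit 24) (.e (nat_lit 434233) (nat_lit 23) .nil)))))) (.g (nat_lit 1) (.e (nat_lit 395259) (nat_lit 0) .nil) .nil))))))) (.nd (nat_lit 6) (.nd (nat_lit 7) (.nd (nat_lit 8) (.nd (nat_lit 9) 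
(.lf (nat_lit 587832) (.g (nat_lit 1184) (.e (nat_lit 401454) (nat_lit 12) (.e (nat_lit 483072) (nat_lit 26) (.e (nat_lit 532561) (nat_lit 14) (.e (nat_lit 376842) (nat_lit 11) (.e (nat_lit 433920) (nat_lit 35) .nil))))) (.g (nat_lit 1) (.e (nat_lit 392231) (nat_lit 0) .nil) .nil))) 
(.lf (nat_lit 588344) (.g (nat_lit 2856) (.e (nat_lit 500074) (nat_lit 20) (.e (nat_lit 81956) (nat_lit 23) (.e (nat_lit 98350) (nat_lit 24) (.e (nat_lit 409643) (nat_lit 18) .nil)))) (.g (nat_lit 0) (.e (nat_lit 393344) (nat_lit 0) .nil) .nil)))) (.nd (nat_lit 9) 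
(.lf (nat_lit 588088) (.g (nat_lit 1291) (.e (nat_lit 499972) (nat_lit 14) (.e (nat_lit 1673) (nat_lit 116) (.e (nat_lit 401447) (nat_lit 10) (.e (nat_lit 434238) (nat_lit 25) (.e (nat_lit 548897) (nat_lit 14) .nil))))) (.g (nat_lit 0) (.e (nat_lit 392940) (nat_lit 0) .nil) .nil))) 
(.lf (nat_lit 588600) (.g (nat_lit 2122) (.e (nat_lit 507919) (nat_lit 4) (.e (nat_lit 270354) (nat_lit 8) (.e (nat_lit 303117) (nat_lit 2) (.e (nat_lit 196665) (nat_lit 13) (.e (nat_lit 65608) (nat_lit 9) (.e (nat_lit 335892) (nat_lit 0) (.e (nat_lit 1770) (nat_lit 118) .nil))))))) (.g (nat_lit 1) (.e (nat_lit 394948) (nat_lit 0) .nil) .nil))))) (.nd (nat_lit 8) (.nd (nat_lit 9) 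
(.lf (nat_lit 587960) (.g (nat_lit 2719) (.e (nat_lit 401457) (nat_lit 13) (.e (nat_lit 483413) (nat_lit 27) (.e (nat_lit 401448) (nat_lit 10) (.e (nat_lit 434208) (nat_lit 18) (.e (nat_lit 5986) (nat_lit 326) .nil))))) (.g (nat_lit 0) (.e (nat_lit 392556) (nat_lit 0) .nil) .nil))) 
(.lf (nat_lit 588472) (.g (nat_lit 2321) (.e (nat_lit 499913) (nat_lit 9) (.e (nat_lit 172120) (nat_lit 12) (.e (nat_lit 475185) (nat_lit 29) (.e (nat_lit 557103) (nat_lit 14) .nil)))) (.g (nat_lit 0) (.e (nat_lit 393864) (nat_lit 0) .nil) .nil)))) (.nd (nat_lit 9) 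
(.lf (nat_lit 588216) (.g (nat_lit 325) (.e (nat_lit 500065) (nat_lit 18) (.e (nat_lit 65610) (nat_lit 10) (.e (nat_lit 344117) (nat_lit 21) .nil))) (.g (nat_lit 0) (.e (nat_lit 393178) (nat_lit 0) .nil) .nil))) 
(.lf (nat_lit 588728) (.g (nat_lit 2579) (.e (nat_lit 532498) (nat_lit 1) (.e (nat_lit 57847) (nat_lit 252) (.e (nat_lit 57407) (nat_lit 12) (.e (nat_lit 336454) (nat_lit 34) (.e (nat_lit 483385) (nat_lit 23) .nil))))) (.g (nat_lit 0) (.e (nat_lit 395214) (nat_lit 0) .nil) .nil)))))) (.nd (nat_lit 7) (.nd (nat_lit 8) (.nd (nat_lit 9) 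
(.lf (nat_lit 587896) (.g (nat_lit 2448) (.e (nat_lit 401454) (nat_lit 12) (.e (nat_lit 475210) (nat_lit 41) (.e (nat_lit 712755) (nat_lit 30) (.e (nat_lit 450562) (nat_lit 0) (.e (nat_lit 5954) (nat_lit 322) (.e (nat_lit 57449) (nat_lit 20) .nil)))))) (.g (nat_lit 1) (.e (nat_lit 392304) (nat_lit 0) .nil) .nil))) 
(.lf (nat_lit 588408) (.g (nat_lit 3258) (.e (nat_lit 500089) (nat_lit 22) (.e (nat_lit 131109) (nat_lit 9) (.e (nat_lit 336019) (nat_lit 3) (.e (nat_lit 98350) (nat_lit 24) (.e (nat_lit 409649) (nat_lit 18) (.e (nat_lit 303111) (nat_lit 0) (.e (nat_lit 3147) (nat_lit 193) .nil))))))) (.g (nat_lit 1) (.e (nat_lit 393436) (nat_lit 0) .nil) .nil)))) (.nd (nat_lit 9) 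
(.lf (nat_lit 588152) (.g (nat_lit 2046) (.e (nat_lit 500046) (nat_lit 16) (.e (nat_lit 16416) (nat_lit 3) (.e (nat_lit 204813) (nat_lit 9) (.e (nat_lit 426139) (nat_lit 3) (.e (nat_lit 212736) (nat_lit 10) .nil))))) (.g (nat_lit 0) (.e (nat_lit 393032) (nat_lit 0) .nil) .nil))) 
(.lf (nat_lit 588664) (.g (nat_lit 1565) (.e (nat_lit 532482) (nat_lit 0) (.e (nat_lit 6724) (nat_lit 362) (.e (nat_lit 180243) (nat_lit 5) (.e (nat_lit 532486) (nat_lit 0) (.e (nat_lit 6225) (nat_lit 334) .nil))))) (.g (nat_lit 0) (.e (nat_lit 395101) (nat_lit 0) .nil) .nil))))) (.nd (nat_lit 8) (.nd (nat_lit 9) 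
(.lf (nat_lit 588024) (.g (nat_lit 1930) (.e (nat_lit 401459) (nat_lit 13) (.e (nat_lit 483411) (nat_lit 27) (.e (nat_lit 401456) (nat_lit 13) (.e (nat_lit 491264) (nat_lit 27) .nil)))) (.g (nat_lit 1) (.e (nat_lit 392662) (nat_lit 0) .nil) .nil))) 
(.lf (nat_lit 588536) (.g (nat_lit 783) (.e (nat_lit 499930) (nat_lit 11) (.e (nat_lit 188446) (nat_lit 21) (.e (nat_lit 164178) (nat_lit 154) .nil))) (.g (nat_lit 0) (.e (nat_lit 394303) (nat_lit 0) .nil) .nil)))) (.nd (nat_lit 9) 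
(.lf (nat_lit 588280) (.g (nat_lit 1767) (.e (nat_lit 500065) (nat_lit 18) (.e (nat_lit 65642) (nat_lit 15) (.e (nat_lit 3253) (nat_lit 197) (.e (nat_lit 532563) (nat_lit 15) (.e (nat_lit 385066) (nat_lit 26) .nil))))) (.g (nat_lit 0) (.e (nat_lit 393256) (nat_lit 0) .nil) .nil))) 
(.lf (nat_lit 588792) (.g (nat_lit 4366) (.e (nat_lit 532499) (nat_lit 1) (.e (nat_lit 57847) (nat_lit 252) (.e (nat_lit 57409) (nat_lit 12) (.e (nat_lit 336454) (nat_lit 34) (.e (nat_lit 483385) (nat_lit 23) (.e (nat_lit 336260) (nat_lit 15) (.e (nat_lit 3252) (nat_lit 197) .nil))))))) (.g (nat_lit 1) (.e (nat_lit 395330) (nat_lit 0) .nil) .nil)))))))))) 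
(.nd (nat_lit 3) (.nd (nat_lit 4) (.nd (nat_lit 5) (.nd (nat_lit 6) (.nd (nat_lit 7) 
(.nd (nat_lit 8) (.nd (nat_lit 9) 
(.lf (nat_lit 587780) (.g (nat_lit 3497) (.e (nat_lit 401451) (nat_lit 12) (.e (nat_lit 475185) (nat_lit 29) (.e (nat_lit 557101) (nat_lit 13) (.e (nat_lit 172115) (nat_lit 10) (.e (nat_lit 434231) (nat_lit 23) (.e (nat_lit 540416) (nat_lit 16) .nil)))))) (.g (nat_lit 1) (.e (nat_lit 392119) (nat_lit 0) .nil) .nil))) 
(.lf (nat_lit 588292) (.g (nat_lit 2556) (.e (nat_lit 500070) (nat_lit 19) (.e (nat_lit 73782) (nat_lit 32) (.e (nat_lit 2663) (nat_lit 167) (.e (nat_lit 196668) (nat_lit 14) (.e (nat_lit 81664) (nat_lit 35) .nil))))) (.g (nat_lit 0) (.e (nat_lit 393288) (nat_lit 0) .nil) .nil)))) (.nd (nat_lit 9) 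
(.lf (nat_lit 588036) (.g (nat_lit 1996) (.e (nat_lit 409344) (nat_lit 18) (.e (nat_lit 98350) (nat_lit 24) (.e (nat_lit 409602) (nat_lit 0) (.e (nat_lit 5259) (nat_lit 298) .nil)))) (.g (nat_lit 0) (.e (nat_lit 392705) (nat_lit 0) .nil) .nil))) 
(.lf (nat_lit 588548) (.g (nat_lit 1317) (.e (nat_lit 499933) (nat_lit 11) (.e (nat_lit 188441) (nat_lit 20) (.e (nat_lit 3272) (nat_lit 199) (.e (nat_lit 548913) (nat_lit 18) .nil)))) (.g (nat_lit 0) (.e (nat_lit 394412) (nat_lit 0) .nil) .nil))))) (.nd (nat_lit 8) (.nd (nat_lit 9) 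
(.lf (nat_lit 587908) (.g (nat_lit 737) (.e (nat_lit 401456) (nat_lit 13) (.e (nat_lit 483372) (nat_lit 21) (.e (nat_lit 319502) (nat_lit 10) .nil))) (.g (nat_lit 0) (.e (nat_lit 392392) (nat_lit 0) .nil) .nil))) 
(.lf (nat_lit 588420) (.g (nat_lit 1021) (.e (nat_lit 499828) (nat_lit 5) (.e (nat_lit 3098) (nat_lit 192) (.e (nat_lit 491548) (nat_lit 9) (.e (nat_lit 336019) (nat_lit 3) .nil)))) (.g (nat_lit 0) (.e (nat_lit 393583) (nat_lit 0) .nil) .nil)))) (.nd (nat_lit 9) 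
(.lf (nat_lit 588164) (.g (nat_lit 1278) (.e (nat_lit 500046) (nat_lit 16) (.e (nat_lit 16463) (nat_lit 13) (.e (nat_lit 483333) (nat_lit 0) (.e (nat_lit 7098) (nat_lit 380) (.e (nat_lit 164293) (nat_lit 224) .nil))))) (.g (nat_lit 0) (.e (nat_lit 393047) (nat_lit 0) .nil) .nil))) 
(.lf (nat_lit 588676) (.g (nat_lit 272) (.e (nat_lit 532482) (nat_lit 0) (.e (nat_lit 6724) (nat_lit 362) (.e (nat_lit 180251) (nat_lit 10) .nil))) (.g (nat_lit 0) (.e (nat_lit 395121) (nat_lit 0) .nil) .nil)))))) (.nd (nat_lit 7) (.nd (nat_lit 8) (.nd (nat_lit 9) 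
(.lf (nat_lit 587844) (.g (nat_lit 2341) (.e (nat_lit 401454) (nat_lit 12) (.e (nat_lit 475183) (nat_lit 29) (.e (nat_lit 557098) (nat_lit 13) (.e (nat_lit 172115) (nat_lit 10) (.e (nat_lit 434231) (nat_lit 23) (.e (nat_lit 540416) (nat_lit 16) .nil)))))) (.g (nat_lit 1) (.e (nat_lit 392248) (nat_lit 0) .nil) .nil))) 
(.lf (nat_lit 588356) (.g (nat_lit 477) (.e (nat_lit 500075) (nat_lit 20) (.e (nat_lit 81954) (nat_lit 23) (.e (nat_lit 98349) (nat_lit 24) .nil))) (.g (nat_lit 0) (.e (nat_lit 393358) (nat_lit 0) .nil) .nil)))) (.nd (nat_lit 9) 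
(.lf (nat_lit 588100) (.g (nat_lit 2168) (.e (nat_lit 499991) (nat_lit 14) (.e (nat_lit 1587) (nat_lit 111) (.e (nat_lit 360474) (nat_lit 8) (.e (nat_lit 557091) (nat_lit 12) .nil)))) (.g (nat_lit 0) (.e (nat_lit 392961) (nat_lit 0) .nil) .nil))) 
(.lf (nat_lit 588612) (.g (nat_lit 1657) (.e (nat_lit 532480) (nat_lit 0) (.e (nat_lit 1962) (nat_lit 134) (.e (nat_lit 638998) (nat_lit 8) (.e (nat_lit 172067) (nat_lit 3) (.e (nat_lit 204869) (nat_lit 29) .nil))))) (.g (nat_lit 0) (.e (nat_lit 394972) (nat_lit 0) .nil) .nil))))) (.nd (nat_lit 8) (.nd (nat_lit 9) 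
(.lf (nat_lit 587972) (.g (nat_lit 3849) (.e (nat_lit 401458) (nat_lit 13) (.e (nat_lit 483350) (nat_lit 17) (.e (nat_lit 6113) (nat_lit 332) (.e (nat_lit 1376) (nat_lit 104) (.e (nat_lit 303151) (nat_lit 27) .nil))))) (.g (nat_lit 0) (.e (nat_lit 392582) (nat_lit 0) .nil) .nil))) 
(.lf (nat_lit 588484) (.g (nat_lit 3510) (.e (nat_lit 499916) (nat_lit 9) (.e (nat_lit 172133) (nat_lit 15) (.e (nat_lit 2059) (nat_lit 142) (.e (nat_lit 704589) (nat_lit 3) (.e (nat_lit 163975) (nat_lit 30) .nil))))) (.g (nat_lit 0) (.e (nat_lit 393910) (nat_lit 0) .nil) .nil)))) (.nd (nat_lit 9) 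
(.lf (nat_lit 588228) (.g (nat_lit 1915) (.e (nat_lit 500065) (nat_lit 18) (.e (nat_lit 65610) (nat_lit 10) (.e (nat_lit 344129) (nat_lit 26) (.e (nat_lit 557087) (nat_lit 11) (.e (nat_lit 24617) (nat_lit 7) .nil))))) (.g (nat_lit 0) (.e (nat_lit 393190) (nat_lit 0) .nil) .nil))) 
(.lf (nat_lit 588740) (.g (nat_lit 1723) (.e (nat_lit 532499) (nat_lit 1) (.e (nat_lit 57688) (nat_lit 156) (.e (nat_lit 163874) (nat_lit 3) (.e (nat_lit 204836) (nat_lit 20) .nil)))) (.g (nat_lit 0) (.e (nat_lit 395234) (nat_lit 0) .nil) .nil))))))) (.nd (nat_lit 6) (.nd (nat_lit 7) (.nd (nat_lit 8) (.nd (nat_lit 9) 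
(.lf (nat_lit 587812) (.g (nat_lit 3445) (.e (nat_lit 401453) (nat_lit 12) (.e (nat_lit 475185) (nat_lit 29) (.e (nat_lit 557107) (nat_lit 15) (.e (nat_lit 188452) (nat_lit 23) (.e (nat_lit 204885) (nat_lit 33) .nil))))) (.g (nat_lit 1) (.e (nat_lit 392177) (nat_lit 0) .nil) .nil))) 
(.lf (nat_lit 588324) (.g (nat_lit 1709) (.e (nat_lit 500074) (nat_lit 20) (.e (nat_lit 81953) (nat_lit 22) (.e (nat_lit 90134) (nat_lit 9) (.e (nat_lit 2822) (nat_lit 182) .nil)))) (.g (nat_lit 0) (.e (nat_lit 393324) (nat_lit 0) .nil) .nil)))) (.nd (nat_lit 9) 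
(.lf (nat_lit 588068) (.g (nat_lit 2051) (.e (nat_lit 499762) (nat_lit 0) (.e (nat_lit 1349) (nat_lit 102) (.e (nat_lit 286759) (nat_lit 12) (.e (nat_lit 385074) (nat_lit 31) (.e (nat_lit 573484) (nat_lit 13) .nil))))) (.g (nat_lit 0) (.e (nat_lit 392879) (nat_lit 0) .nil) .nil))) 
(.lf (nat_lit 588580) (.g (nat_lit 1893) (.e (nat_lit 507946) (nat_lit 18) (.e (nat_lit 303146) (nat_lit 14) (.e (nat_lit 491537) (nat_lit 2) (.e (nat_lit 90178) (nat_lit 15) .nil)))) (.g (nat_lit 0) (.e (nat_lit 394916) (nat_lit 0) .nil) .nil))))) (.nd (nat_lit 8) (.nd (nat_lit 9) 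
(.lf (nat_lit 587940) (.g (nat_lit 2890) (.e (nat_lit 401457) (nat_lit 13) (.e (nat_lit 483413) (nat_lit 27) (.e (nat_lit 401447) (nat_lit 10) (.e (nat_lit 434203) (nat_lit 18) (.e (nat_lit 5985) (nat_lit 326) .nil))))) (.g (nat_lit 0) (.e (nat_lit 392527) (nat_lit 0) .nil) .nil))) 
(.lf (nat_lit 588452) (.g (nat_lit 2334) (.e (nat_lit 499900) (nat_lit 7) (.e (nat_lit 24608) (nat_lit 3) (.e (nat_lit 98317) (nat_lit 9) (.e (nat_lit 336021) (nat_lit 3) (.e (nat_lit 98315) (nat_lit 9) .nil))))) (.g (nat_lit 0) (.e (nat_lit 393705) (nat_lit 0) .nil) .nil)))) (.nd (nat_lit 9) 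
(.lf (nat_lit 588196) (.g (nat_lit 2170) (.e (nat_lit 500059) (nat_lit 18) (.e (nat_lit 65630) (nat_lit 14) (.e (nat_lit 401425) (nat_lit 2) (.e (nat_lit 196666) (nat_lit 13) (.e (nat_lit 65586) (nat_lit 7) .nil))))) (.g (nat_lit 0) (.e (nat_lit 393141) (nat_lit 0) .nil) .nil))) 
(.lf (nat_lit 588708) (.g (nat_lit 1058) (.e (nat_lit 532498) (nat_lit 1) (.e (nat_lit 57686) (nat_lit 156) (.e (nat_lit 163902) (nat_lit 12) (.e (nat_lit 426479) (nat_lit 27) (.e (nat_lit 336434) (nat_lit 30) .nil))))) (.g (nat_lit 0) (.e (nat_lit 395185) (nat_lit 0) .nil) .nil)))))) (.nd (nat_lit 7) (.nd (nat_lit 8) (.nd (nat_lit 9) 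
(.lf (nat_lit 587876) (.g (nat_lit 2833) (.e (nat_lit 401454) (nat_lit 12) (.e (nat_lit 475198) (nat_lit 40) (.e (nat_lit 704595) (nat_lit 5) (.e (nat_lit 180291) (nat_lit 48) (.e (nat_lit 164356) (nat_lit 246) (.e (nat_lit 355) (nat_lit 29) .nil)))))) (.g (nat_lit 1) (.e (nat_lit 392283) (nat_lit 0) .nil) .nil))) 
(.lf (nat_lit 588388) (.g (nat_lit 539) (.e (nat_lit 500077) (nat_lit 20) (.e (nat_lit 81948) (nat_lit 21) (.e (nat_lit 57687) (nat_lit 156) .nil))) (.g (nat_lit 0) (.e (nat_lit 393401) (nat_lit 0) .nil) .nil)))) (.nd (nat_lit 9) 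
(.lf (nat_lit 588132) (.g (nat_lit 590) (.e (nat_lit 500046) (nat_lit 16) (.e (nat_lit 16412) (nat_lit 2) (.e (nat_lit 196656) (nat_lit 11) .nil))) (.g (nat_lit 0) (.e (nat_lit 393010) (nat_lit 0) .nil) .nil))) 
(.lf (nat_lit 588644) (.g (nat_lit 515) (.e (nat_lit 532482) (nat_lit 0) (.e (nat_lit 6722) (nat_lit 362) (.e (nat_lit 180237) (nat_lit 1) .nil))) (.g (nat_lit 0) (.e (nat_lit 395071) (nat_lit 0) .nil) .nil))))) (.nd (nat_lit 8) (.nd (nat_lit 9) 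
(.lf (nat_lit 588004) (.g (nat_lit 1553) (.e (nat_lit 401459) (nat_lit 13) (.e (nat_lit 483372) (nat_lit 21) (.e (nat_lit 319530) (nat_lit 16) (.e (nat_lit 286728) (nat_lit 0) .nil)))) (.g (nat_lit 0) (.e (nat_lit 392642) (nat_lit 0) .nil) .nil))) 
(.lf (nat_lit 588516) (.g (nat_lit 550) (.e (nat_lit 499928) (nat_lit 11) (.e (nat_lit 188449) (nat_lit 22) (.e (nat_lit 196661) (nat_lit 12) .nil))) (.g (nat_lit 0) (.e (nat_lit 394263) (nat_lit 0) .nil) .nil)))) (.nd (nat_lit 9) 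
(.lf (nat_lit 588260) (.g (nat_lit 3511) (.e (nat_lit 500065) (nat_lit 18) (.e (nat_lit 65624) (nat_lit 12) (.e (nat_lit 385074) (nat_lit 31) (.e (nat_lit 573487) (nat_lit 14) (.e (nat_lit 73780) (nat_lit 32) (.e (nat_lit 2508) (nat_lit 157) (.e (nat_lit 3141) (nat_lit 193) .nil))))))) (.g (nat_lit 1) (.e (nat_lit 393234) (nat_lit 0) .nil) .nil))) 
(.lf (nat_lit 588772) (.g (nat_lit 473) (.e (nat_lit 532499) (nat_lit 1) (.e (nat_lit 57691) (nat_lit 156) (.e (nat_lit 163906) (nat_lit 12) .nil))) (.g (nat_lit 0) (.e (nat_lit 395288) (nat_lit 0) .nil) .nil)))))))) (.nd (nat_lit 5) (.nd (nat_lit 6) (.nd (nat_lit 7) (.nd (nat_lit 8) (.nd (nat_lit 9) 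
(.lf (nat_lit 587796) (.g (nat_lit 3688) (.e (nat_lit 401453) (nat_lit 12) (.e (nat_lit 475183) (nat_lit 29) (.e (nat_lit 557097) (nat_lit 13) (.e (nat_lit 172115) (nat_lit 10) (.e (nat_lit 434231) (nat_lit 23) (.e (nat_lit 532568) (nat_lit 16) .nil)))))) (.g (nat_lit 1) (.e (nat_lit 392160) (nat_lit 0) .nil) .nil))) 
(.lf (nat_lit 588308) (.g (nat_lit 2520) (.e (nat_lit 500072) (nat_lit 19) (.e (nat_lit 73755) (nat_lit 8) (.e (nat_lit 557098) (nat_lit 13) (.e (nat_lit 172130) (nat_lit 15) (.e (nat_lit 7936) (nat_lit 121) .nil))))) (.g (nat_lit 0) (.e (nat_lit 393306) (nat_lit 0) .nil) .nil)))) (.nd (nat_lit 9) 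
(.lf (nat_lit 588052) (.g (nat_lit 905) (.e (nat_lit 499728) (nat_lit 0) (.e (nat_lit 2819) (nat_lit 181) (.e (nat_lit 311339) (nat_lit 12) (.e (nat_lit 475184) (nat_lit 29) .nil)))) (.g (nat_lit 0) (.e (nat_lit 392830) (nat_lit 0) .nil) .nil))) 
(.lf (nat_lit 588564) (.g (nat_lit 3835) (.e (nat_lit 507944) (nat_lit 18) (.e (nat_lit 303143) (nat_lit 12) (.e (nat_lit 475185) (nat_lit 29) (.e (nat_lit 557109) (nat_lit 15) (.e (nat_lit 188434) (nat_lit 20) (.e (nat_lit 3205) (nat_lit 194) .nil)))))) (.g (nat_lit 1) (.e (nat_lit 394670) (nat_lit 0) .nil) .nil))))) (.nd (nat_lit 8) (.nd (nat_lit 9) 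
(.lf (nat_lit 587924) (.g (nat_lit 2027) (.e (nat_lit 401456) (nat_lit 13) (.e (nat_lit 483413) (nat_lit 27) (.e (nat_lit 401448) (nat_lit 10) (.e (nat_lit 434208) (nat_lit 18) .nil)))) (.g (nat_lit 0) (.e (nat_lit 392463) (nat_lit 0) .nil) .nil))) 
(.lf (nat_lit 588436) (.g (nat_lit 2758) (.e (nat_lit 499842) (nat_lit 5) (.e (nat_lit 3017) (nat_lit 187) (.e (nat_lit 450588) (nat_lit 10) (.e (nat_lit 573475) (nat_lit 12) (.e (nat_lit 57574) (nat_lit 55) .nil))))) (.g (nat_lit 0) (.e (nat_lit 393631) (nat_lit 0) .nil) .nil)))) (.nd (nat_lit 9) 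
(.lf (nat_lit 588180) (.g (nat_lit 2135) (.e (nat_lit 500047) (nat_lit 16) (.e (nat_lit 16435) (nat_lit 9) (.e (nat_lit 426566) (nat_lit 34) (.e (nat_lit 393253) (nat_lit 18) (.e (nat_lit 164325) (nat_lit 230) .nil))))) (.g (nat_lit 0) (.e (nat_lit 393068) (nat_lit 0) .nil) .nil))) 
(.lf (nat_lit 588692) (.g (nat_lit 2626) (.e (nat_lit 532486) (nat_lit 0) (.e (nat_lit 6113) (nat_lit 332) (.e (nat_lit 1374) (nat_lit 104) (.e (nat_lit 303119) (nat_lit 3) (.e (nat_lit 204821) (nat_lit 17) .nil))))) (.g (nat_lit 0) (.e (nat_lit 395147) (nat_lit 0) .nil) .nil)))))) (.nd (nat_lit 7) (.nd (nat_lit 8) (.nd (nat_lit 9) 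
(.lf (nat_lit 587860) (.g (nat_lit 3511) (.e (nat_lit 401454) (nat_lit 12) (.e (nat_lit 475185) (nat_lit 29) (.e (nat_lit 557109) (nat_lit 15) (.e (nat_lit 188450) (nat_lit 23) (.e (nat_lit 204884) (nat_lit 33) .nil))))) (.g (nat_lit 1) (.e (nat_lit 392267) (nat_lit 0) .nil) .nil))) 
(.lf (nat_lit 588372) (.g (nat_lit 2942) (.e (nat_lit 500075) (nat_lit 20) (.e (nat_lit 81956) (nat_lit 23) (.e (nat_lit 98350) (nat_lit 24) (.e (nat_lit 409643) (nat_lit 18) .nil)))) (.g (nat_lit 0) (.e (nat_lit 393375) (nat_lit 0) .nil) .nil)))) (.nd (nat_lit 9) 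
(.lf (nat_lit 588116) (.g (nat_lit 2214) (.e (nat_lit 499992) (nat_lit 14) (.e (nat_lit 1673) (nat_lit 116) (.e (nat_lit 401448) (nat_lit 10) (.e (nat_lit 434227) (nat_lit 20) (.e (nat_lit 507929) (nat_lit 10) .nil))))) (.g (nat_lit 0) (.e (nat_lit 392979) (nat_lit 0) .nil) .nil))) 
(.lf (nat_lit 588628) (.g (nat_lit 2080) (.e (nat_lit 532482) (nat_lit 0) (.e (nat_lit 6203) (nat_lit 332) (.e (nat_lit 2798) (nat_lit 180) (.e (nat_lit 303117) (nat_lit 2) (.e (nat_lit 196667) (nat_lit 14) .nil))))) (.g (nat_lit 0) (.e (nat_lit 395050) (nat_lit 0) .nil) .nil))))) (.nd (nat_lit 8) (.nd (nat_lit 9) 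
(.lf (nat_lit 587988) (.g (nat_lit 857) (.e (nat_lit 401458) (nat_lit 13) (.e (nat_lit 483372) (nat_lit 21) (.e (nat_lit 319511) (nat_lit 10) (.e (nat_lit 5629) (nat_lit 312) .nil)))) (.g (nat_lit 0) (.e (nat_lit 392614) (nat_lit 0) .nil) .nil))) 
(.lf (nat_lit 588500) (.g (nat_lit 3472) (.e (nat_lit 499919) (nat_lit 9) (.e (nat_lit 172106) (nat_lit 10) (.e (nat_lit 434244) (nat_lit 28) (.e (nat_lit 573471) (nat_lit 11) (.e (nat_lit 16425) (nat_lit 7) (.e (nat_lit 409623) (nat_lit 10) (.e (nat_lit 555) (nat_lit 41) .nil))))))) (.g (nat_lit 1) (.e (nat_lit 393962) (nat_lit 0) .nil) .nil)))) (.nd (nat_lit 9) 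
(.lf (nat_lit 588244) (.g (nat_lit 5748) (.e (nat_lit 500065) (nat_lit 18) (.e (nat_lit 65617) (nat_lit 10) (.e (nat_lit 344132) (nat_lit 26) (.e (nat_lit 557094) (nat_lit 12) (.e (nat_lit 164022) (nat_lit 46) (.e (nat_lit 704629) (nat_lit 9) (.e (nat_lit 442) (nat_lit 33) (.e (nat_lit 434222) (nat_lit 19) .nil)))))))) (.g (nat_lit 1) (.e (nat_lit 393206) (nat_lit 0) .nil) .nil))) 
(.lf (nat_lit 588756) (.g (nat_lit 3331) (.e (nat_lit 532499) (nat_lit 1) (.e (nat_lit 57688) (nat_lit 156) (.e (nat_lit 163903) (nat_lit 12) (.e (nat_lit 426568) (nat_lit 34) (.e (nat_lit 393283) (nat_lit 24) (.e (nat_lit 434234) (nat_lit 23) .nil)))))) (.g (nat_lit 1) (.e (nat_lit 395254) (nat_lit 0) .nil) .nil))))))) (.nd (nat_lit 6) (.nd (nat_lit 7) (.nd (nat_lit 8) (.nd (nat_lit 9) 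
(.lf (nat_lit 587828) (.g (nat_lit 542) (.e (nat_lit 401454) (nat_lit 12) (.e (nat_lit 483072) (nat_lit 26) (.e (nat_lit 532561) (nat_lit 14) (.e (nat_lit 376838) (nat_lit 11) (.e (nat_lit 433920) (nat_lit 35) .nil))))) (.g (nat_lit 1) (.e (nat_lit 392227) (nat_lit 0) .nil) .nil))) 
(.lf (nat_lit 588340) (.g (nat_lit 2715) (.e (nat_lit 500074) (nat_lit 20) (.e (nat_lit 81956) (nat_lit 23) (.e (nat_lit 98349) (nat_lit 24) (.e (nat_lit 409644) (nat_lit 18) (.e (nat_lit 303106) (nat_lit 0) (.e (nat_lit 3114) (nat_lit 193) .nil)))))) (.g (nat_lit 1) (.e (nat_lit 393340) (nat_lit 0) .nil) .nil)))) (.nd (nat_lit 9) 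
(.lf (nat_lit 588084) (.g (nat_lit 2121) (.e (nat_lit 499969) (nat_lit 14) (.e (nat_lit 1669) (nat_lit 116) (.e (nat_lit 401434) (nat_lit 9) (.e (nat_lit 426140) (nat_lit 3) (.e (nat_lit 204821) (nat_lit 17) .nil))))) (.g (nat_lit 0) (.e (nat_lit 392930) (nat_lit 0) .nil) .nil))) 
(.lf (nat_lit 588596) (.g (nat_lit 3088) (.e (nat_lit 507908) (nat_lit 0) (.e (nat_lit 5412) (nat_lit 303) (.e (nat_lit 73739) (nat_lit 1) (.e (nat_lit 499811) (nat_lit 5) (.e (nat_lit 3102) (nat_lit 192) (.e (nat_lit 491560) (nat_lit 10) (.e (nat_lit 344115) (nat_lit 20) .nil))))))) (.g (nat_lit 1) (.e (nat_lit 394943) (nat_lit 0) .nil) .nil))))) (.nd (nat_lit 8) (.nd (nat_lit 9) 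
(.lf (nat_lit 587956) (.g (nat_lit 2442) (.e (nat_lit 401457) (nat_lit 13) (.e (nat_lit 483413) (nat_lit 27) (.e (nat_lit 401448) (nat_lit 10) (.e (nat_lit 434203) (nat_lit 18) (.e (nat_lit 6067) (nat_lit 328) .nil))))) (.g (nat_lit 0) (.e (nat_lit 392549) (nat_lit 0) .nil) .nil))) 
(.lf (nat_lit 588468) (.g (nat_lit 2719) (.e (nat_lit 499910) (nat_lit 8) (.e (nat_lit 164208) (nat_lit 176) (.e (nat_lit 2819) (nat_lit 181) (.e (nat_lit 311315) (nat_lit 3) (.e (nat_lit 204868) (nat_lit 29) (.e (nat_lit 368384) (nat_lit 1) .nil)))))) (.g (nat_lit 1) (.e (nat_lit 393823) (nat_lit 0) .nil) .nil)))) (.nd (nat_lit 9) 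
(.lf (nat_lit 588212) (.g (nat_lit 2861) (.e (nat_lit 500063) (nat_lit 18) (.e (nat_lit 65630) (nat_lit 14) (.e (nat_lit 401425) (nat_lit 2) (.e (nat_lit 196666) (nat_lit 13) (.e (nat_lit 65586) (nat_lit 7) .nil))))) (.g (nat_lit 0) (.e (nat_lit 393163) (nat_lit 0) .nil) .nil))) 
(.lf (nat_lit 588724) (.g (nat_lit 2031) (.e (nat_lit 532498) (nat_lit 1) (.e (nat_lit 57691) (nat_lit 156) (.e (nat_lit 163907) (nat_lit 12) (.e (nat_lit 426568) (nat_lit 34) (.e (nat_lit 393283) (nat_lit 24) .nil))))) (.g (nat_lit 0) (.e (nat_lit 395207) (nat_lit 0) .nil) .nil)))))) (.nd (nat_lit 7) (.nd (nat_lit 8) (.nd (nat_lit 9) 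
(.lf (nat_lit 587892) (.g (nat_lit 2245) (.e (nat_lit 401454) (nat_lit 12) (.e (nat_lit 475210) (nat_lit 41) (.e (nat_lit 712742) (nat_lit 27) (.e (nat_lit 426173) (nat_lit 7) (.e (nat_lit 409649) (nat_lit 18) (.e (nat_lit 311040) (nat_lit 35) .nil)))))) (.g (nat_lit 1) (.e (nat_lit 392299) (nat_lit 0) .nil) .nil))) 
(.lf (nat_lit 588404) (.g (nat_lit 818) (.e (nat_lit 500089) (nat_lit 22) (.e (nat_lit 131105) (nat_lit 9) (.e (nat_lit 336324) (nat_lit 18) (.e (nat_lit 204838) (nat_lit 20) .nil)))) (.g (nat_lit 0) (.e (nat_lit 393432) (nat_lit 0) .nil) .nil)))) (.nd (nat_lit 9) 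
(.lf (nat_lit 588148) (.g (nat_lit 2113) (.e (nat_lit 500046) (nat_lit 16) (.e (nat_lit 16416) (nat_lit 3) (.e (nat_lit 204813) (nat_lit 9) (.e (nat_lit 426133) (nat_lit 3) (.e (nat_lit 212736) (nat_lit 10) .nil))))) (.g (nat_lit 0) (.e (nat_lit 393028) (nat_lit 0) .nil) .nil))) 
(.lf (nat_lit 588660) (.g (nat_lit 2685) (.e (nat_lit 532482) (nat_lit 0) (.e (nat_lit 6722) (nat_lit 362) (.e (nat_lit 180252) (nat_lit 10) (.e (nat_lit 573471) (nat_lit 11) (.e (nat_lit 16433) (nat_lit 9) (.e (nat_lit 426093) (nat_lit 0) (.e (nat_lit 3238) (nat_lit 197) .nil))))))) (.g (nat_lit 1) (.e (nat_lit 395093) (nat_lit 0) .nil) .nil))))) (.nd (nat_lit 8) (.nd (nat_lit 9) 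
(.lf (nat_lit 588020) (.g (nat_lit 740) (.e (nat_lit 401459) (nat_lit 13) (.e (nat_lit 483411) (nat_lit 27) (.e (nat_lit 401408) (nat_lit 0) (.e (nat_lit 7936) (nat_lit 390) .nil)))) (.g (nat_lit 0) (.e (nat_lit 392658) (nat_lit 0) .nil) .nil))) 
(.lf (nat_lit 588532) (.g (nat_lit 3574) (.e (nat_lit 499929) (nat_lit 11) (.e (nat_lit 188452) (nat_lit 23) (.e (nat_lit 204846) (nat_lit 24) (.e (nat_lit 319534) (nat_lit 16) (.e (nat_lit 286723) (nat_lit 0) .nil))))) (.g (nat_lit 0) (.e (nat_lit 394297) (nat_lit 0) .nil) .nil)))) (.nd (nat_lit 9) 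
(.lf (nat_lit 588276) (.g (nat_lit 3206) (.e (nat_lit 500065) (nat_lit 18) (.e (nat_lit 65630) (nat_lit 14) (.e (nat_lit 401425) (nat_lit 2) (.e (nat_lit 196670) (nat_lit 14) (.e (nat_lit 73779) (nat_lit 32) (.e (nat_lit 2505) (nat_lit 157) (.e (nat_lit 3141) (nat_lit 193) .nil))))))) (.g (nat_lit 1) (.e (nat_lit 393251) (nat_lit 0) .nil) .nil))) 
(.lf (nat_lit 588788) (.g (nat_lit 4978) (.e (nat_lit 532499) (nat_lit 1) (.e (nat_lit 57847) (nat_lit 252) (.e (nat_lit 57355) (nat_lit 0) (.e (nat_lit 1858) (nat_lit 124) (.e (nat_lit 557105) (nat_lit 14) (.e (nat_lit 180252) (nat_lit 10) (.e (nat_lit 573481) (nat_lit 13) (.e (nat_lit 65637) (nat_lit 15) (.e (nat_lit 3253) (nat_lit 197) .nil))))))))) (.g (nat_lit 1) (.e (nat_lit 395324) (nat_lit 0) .nil) .nil))))))))) 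
(.nd (nat_lit 4) (.nd (nat_lit 5) (.nd (nat_lit 6) (.nd (nat_lit 7) (.nd (nat_lit 8) 
(.nd (nat_lit 9) 
(.lf (nat_lit 587788) (.g (nat_lit 1377) (.e (nat_lit 401452) (nat_lit 12) (.e (nat_lit 475184) (nat_lit 29) (.e (nat_lit 557100) (nat_lit 13) (.e (nat_lit 172106) (nat_lit 10) (.e (nat_lit 434231) (nat_lit 23) .nil))))) (.g (nat_lit 0) (.e (nat_lit 392144) (nat_lit 0) .nil) .nil))) 
(.lf (nat_lit 588300) (.g (nat_lit 2491) (.e (nat_lit 500071) (nat_lit 19) (.e (nat_lit 73781) (nat_lit 32) (.e (nat_lit 2663) (nat_lit 167) (.e (nat_lit 196670) (nat_lit 14) (.e (nat_lit 81664) (nat_lit 35) .nil))))) (.g (nat_lit 0) (.e (nat_lit 393297) (nat_lit 0) .nil) .nil)))) (.nd (nat_lit 9) 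
(.lf (nat_lit 588044) (.g (nat_lit 3794) (.e (nat_lit 499727) (nat_lit 0) (.e (nat_lit 2798) (nat_lit 180) (.e (nat_lit 303143) (nat_lit 12) (.e (nat_lit 475185) (nat_lit 29) (.e (nat_lit 557100) (nat_lit 13) (.e (nat_lit 172113) (nat_lit 10) (.e (nat_lit 442112) (nat_lit 19) .nil))))))) (.g (nat_lit 1) (.e (nat_lit 392817) (nat_lit 0) .nil) .nil))) 
(.lf (nat_lit 588556) (.g (nat_lit 2724) (.e (nat_lit 507940) (nat_lit 13) (.e (nat_lit 49188) (nat_lit 11) (.e (nat_lit 16416) (nat_lit 3) (.e (nat_lit 204861) (nat_lit 26) (.e (nat_lit 336194) (nat_lit 12) (.e (nat_lit 385062) (nat_lit 23) .nil)))))) (.g (nat_lit 1) (.e (nat_lit 394639) (nat_lit 0) .nil) .nil))))) (.nd (nat_lit 8) (.nd (nat_lit 9) 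
(.lf (nat_lit 587916) (.g (nat_lit 1449) (.e (nat_lit 401456) (nat_lit 13) (.e (nat_lit 483410) (nat_lit 27) (.e (nat_lit 401459) (nat_lit 13) (.e (nat_lit 483409) (nat_lit 27) .nil)))) (.g (nat_lit 0) (.e (nat_lit 392430) (nat_lit 0) .nil) .nil))) 
(.lf (nat_lit 588428) (.g (nat_lit 2758) (.e (nat_lit 499835) (nat_lit 5) (.e (nat_lit 3017) (nat_lit 187) (.e (nat_lit 450588) (nat_lit 10) (.e (nat_lit 573475) (nat_lit 12) (.e (nat_lit 57574) (nat_lit 55) .nil))))) (.g (nat_lit 0) (.e (nat_lit 393607) (nat_lit 0) .nil) .nil)))) (.nd (nat_lit 9) 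
(.lf (nat_lit 588172) (.g (nat_lit 2672) (.e (nat_lit 500046) (nat_lit 16) (.e (nat_lit 16466) (nat_lit 13) (.e (nat_lit 483333) (nat_lit 0) (.e (nat_lit 7096) (nat_lit 380) (.e (nat_lit 164287) (nat_lit 224) (.e (nat_lit 164092) (nat_lit 82) .nil)))))) (.g (nat_lit 1) (.e (nat_lit 393055) (nat_lit 0) .nil) .nil))) 
(.lf (nat_lit 588684) (.g (nat_lit 1983) (.e (nat_lit 532484) (nat_lit 0) (.e (nat_lit 2031) (nat_lit 140) (.e (nat_lit 688177) (nat_lit 16) (.e (nat_lit 65575) (nat_lit 5) .nil)))) (.g (nat_lit 0) (.e (nat_lit 395134) (nat_lit 0) .nil) .nil)))))) (.nd (nat_lit 7) (.nd (nat_lit 8) (.nd (nat_lit 9) 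
(.lf (nat_lit 587852) (.g (nat_lit 3663) (.e (nat_lit 401454) (nat_lit 12) (.e (nat_lit 475184) (nat_lit 29) (.e (nat_lit 557107) (nat_lit 15) (.e (nat_lit 188452) (nat_lit 23) (.e (nat_lit 204884) (nat_lit 33) .nil))))) (.g (nat_lit 1) (.e (nat_lit 392256) (nat_lit 0) .nil) .nil))) 
(.lf (nat_lit 588364) (.g (nat_lit 1811) (.e (nat_lit 500075) (nat_lit 20) (.e (nat_lit 81954) (nat_lit 23) (.e (nat_lit 98350) (nat_lit 24) (.e (nat_lit 409646) (nat_lit 18) .nil)))) (.g (nat_lit 0) (.e (nat_lit 393366) (nat_lit 0) .nil) .nil)))) (.nd (nat_lit 9) 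
(.lf (nat_lit 588108) (.g (nat_lit 2942) (.e (nat_lit 499991) (nat_lit 14) (.e (nat_lit 1673) (nat_lit 116) (.e (nat_lit 401448) (nat_lit 10) (.e (nat_lit 434238) (nat_lit 25) (.e (nat_lit 548896) (nat_lit 14) .nil))))) (.g (nat_lit 0) (.e (nat_lit 392970) (nat_lit 0) .nil) .nil))) 
(.lf (nat_lit 588620) (.g (nat_lit 618) (.e (nat_lit 532481) (nat_lit 0) (.e (nat_lit 6724) (nat_lit 362) (.e (nat_lit 180249) (nat_lit 10) .nil))) (.g (nat_lit 0) (.e (nat_lit 395028) (nat_lit 0) .nil) .nil))))) (.nd (nat_lit 8) (.nd (nat_lit 9) 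
(.lf (nat_lit 587980) (.g (nat_lit 985) (.e (nat_lit 401458) (nat_lit 13) (.e (nat_lit 483372) (nat_lit 21) (.e (nat_lit 319500) (nat_lit 10) .nil))) (.g (nat_lit 0) (.e (nat_lit 392603) (nat_lit 0) .nil) .nil))) 
(.lf (nat_lit 588492) (.g (nat_lit 2807) (.e (nat_lit 499918) (nat_lit 9) (.e (nat_lit 172126) (nat_lit 14) (.e (nat_lit 491537) (nat_lit 2) (.e (nat_lit 90170) (nat_lit 13) (.e (nat_lit 172124) (nat_lit 14) .nil))))) (.g (nat_lit 0) (.e (nat_lit 393941) (nat_lit 0) .nil) .nil)))) (.nd (nat_lit 9) 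
(.lf (nat_lit 588236) (.g (nat_lit 6143) (.e (nat_lit 500065) (nat_lit 18) (.e (nat_lit 65617) (nat_lit 10) (.e (nat_lit 344132) (nat_lit 26) (.e (nat_lit 557093) (nat_lit 12) (.e (nat_lit 164022) (nat_lit 46) (.e (nat_lit 704629) (nat_lit 9) (.e (nat_lit 442) (nat_lit 33) (.e (nat_lit 434222) (nat_lit 19) .nil)))))))) (.g (nat_lit 1) (.e (nat_lit 393198) (nat_lit 0) .nil) .nil))) 
(.lf (nat_lit 588748) (.g (nat_lit 3315) (.e (nat_lit 532499) (nat_lit 1) (.e (nat_lit 57688) (nat_lit 156) (.e (nat_lit 163902) (nat_lit 12) (.e (nat_lit 426568) (nat_lit 34) (.e (nat_lit 393283) (nat_lit 24) (.e (nat_lit 434232) (nat_lit 23) .nil)))))) (.g (nat_lit 1) (.e (nat_lit 395245) (nat_lit 0) .nil) .nil))))))) (.nd (nat_lit 6) (.nd (nat_lit 7) (.nd (nat_lit 8) (.nd (nat_lit 9) 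
(.lf (nat_lit 587820) (.g (nat_lit 1431) (.e (nat_lit 401454) (nat_lit 12) (.e (nat_lit 483072) (nat_lit 26) (.e (nat_lit 532558) (nat_lit 14) (.e (nat_lit 376842) (nat_lit 11) (.e (nat_lit 433920) (nat_lit 35) .nil))))) (.g (nat_lit 1) (.e (nat_lit 392219) (nat_lit 0) .nil) .nil))) 
(.lf (nat_lit 588332) (.g (nat_lit 2601) (.e (nat_lit 500074) (nat_lit 20) (.e (nat_lit 81954) (nat_lit 23) (.e (nat_lit 98350) (nat_lit 24) (.e (nat_lit 409644) (nat_lit 18) (.e (nat_lit 303106) (nat_lit 0) .nil))))) (.g (nat_lit 0) (.e (nat_lit 393332) (nat_lit 0) .nil) .nil)))) (.nd (nat_lit 9) 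
(.lf (nat_lit 588076) (.g (nat_lit 2241) (.e (nat_lit 499780) (nat_lit 1) (.e (nat_lit 57816) (nat_lit 246) (.e (nat_lit 57881) (nat_lit 270) (.e (nat_lit 496) (nat_lit 39) (.e (nat_lit 483406) (nat_lit 26) (.e (nat_lit 385057) (nat_lit 22) .nil)))))) (.g (nat_lit 1) (.e (nat_lit 392906) (nat_lit 0) .nil) .nil))) 
(.lf (nat_lit 588588) (.g (nat_lit 2906) (.e (nat_lit 507906) (nat_lit 0) (.e (nat_lit 5412) (nat_lit 303) (.e (nat_lit 73739) (nat_lit 1) (.e (nat_lit 499847) (nat_lit 5) (.e (nat_lit 3102) (nat_lit 192) (.e (nat_lit 491560) (nat_lit 10) (.e (nat_lit 344115) (nat_lit 20) .nil))))))) (.g (nat_lit 1) (.e (nat_lit 394931) (nat_lit 0) .nil) .nil))))) (.nd (nat_lit 8) (.nd (nat_lit 9) 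
(.lf (nat_lit 587948) (.g (nat_lit 2357) (.e (nat_lit 401457) (nat_lit 13) (.e (nat_lit 483413) (nat_lit 27) (.e (nat_lit 401448) (nat_lit 10) (.e (nat_lit 434199) (nat_lit 18) (.e (nat_lit 6047) (nat_lit 326) .nil))))) (.g (nat_lit 0) (.e (nat_lit 392537) (nat_lit 0) .nil) .nil))) 
(.lf (nat_lit 588460) (.g (nat_lit 1378) (.e (nat_lit 499902) (nat_lit 7) (.e (nat_lit 24628) (nat_lit 9) (.e (nat_lit 336019) (nat_lit 3) (.e (nat_lit 98386) (nat_lit 32) .nil)))) (.g (nat_lit 0) (.e (nat_lit 393741) (nat_lit 0) .nil) .nil)))) (.nd (nat_lit 9) 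
(.lf (nat_lit 588204) (.g (nat_lit 2408) (.e (nat_lit 500060) (nat_lit 18) (.e (nat_lit 65630) (nat_lit 14) (.e (nat_lit 401428) (nat_lit 3) (.e (nat_lit 204861) (nat_lit 26) (.e (nat_lit 336229) (nat_lit 14) .nil))))) (.g (nat_lit 0) (.e (nat_lit 393151) (nat_lit 0) .nil) .nil))) 
(.lf (nat_lit 588716) (.g (nat_lit 1873) (.e (nat_lit 532498) (nat_lit 1) (.e (nat_lit 57691) (nat_lit 156) (.e (nat_lit 163875) (nat_lit 3) (.e (nat_lit 204836) (nat_lit 20) .nil)))) (.g (nat_lit 0) (.e (nat_lit 395197) (nat_lit 0) .nil) .nil)))))) (.nd (nat_lit 7) (.nd (nat_lit 8) (.nd (nat_lit 9) 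
(.lf (nat_lit 587884) (.g (nat_lit 3012) (.e (nat_lit 401454) (nat_lit 12) (.e (nat_lit 475209) (nat_lit 41) (.e (nat_lit 712742) (nat_lit 27) (.e (nat_lit 426171) (nat_lit 7) (.e (nat_lit 409646) (nat_lit 18) (.e (nat_lit 311040) (nat_lit 35) .nil)))))) (.g (nat_lit 1) (.e (nat_lit 392291) (nat_lit 0) .nil) .nil))) 
(.lf (nat_lit 588396) (.g (nat_lit 1860) (.e (nat_lit 500079) (nat_lit 20) (.e (nat_lit 81922) (nat_lit 0) (.e (nat_lit 3305) (nat_lit 202) (.e (nat_lit 573487) (nat_lit 14) (.e (nat_lit 73780) (nat_lit 32) .nil))))) (.g (nat_lit 0) (.e (nat_lit 393412) (nat_lit 0) .nil) .nil)))) (.nd (nat_lit 9) 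
(.lf (nat_lit 588140) (.g (nat_lit 680) (.e (nat_lit 500046) (nat_lit 16) (.e (nat_lit 16416) (nat_lit 3) (.e (nat_lit 204813) (nat_lit 9) .nil))) (.g (nat_lit 0) (.e (nat_lit 393020) (nat_lit 0) .nil) .nil))) 
(.lf (nat_lit 588652) (.g (nat_lit 1272) (.e (nat_lit 532482) (nat_lit 0) (.e (nat_lit 6722) (nat_lit 362) (.e (nat_lit 180244) (nat_lit 5) (.e (nat_lit 532568) (nat_lit 16) .nil)))) (.g (nat_lit 0) (.e (nat_lit 395080) (nat_lit 0) .nil) .nil))))) (.nd (nat_lit 8) (.nd (nat_lit 9) 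
(.lf (nat_lit 588012) (.g (nat_lit 1313) (.e (nat_lit 401459) (nat_lit 13) (.e (nat_lit 483410) (nat_lit 27) (.e (nat_lit 401418) (nat_lit 0) (.e (nat_lit 7936) (nat_lit 390) .nil)))) (.g (nat_lit 0) (.e (nat_lit 392650) (nat_lit 0) .nil) .nil))) 
(.lf (nat_lit 588524) (.g (nat_lit 2533) (.e (nat_lit 499929) (nat_lit 11) (.e (nat_lit 188451) (nat_lit 23) (.e (nat_lit 204846) (nat_lit 24) (.e (nat_lit 319504) (nat_lit 10) (.e (nat_lit 7936) (nat_lit 301) .nil))))) (.g (nat_lit 0) (.e (nat_lit 394286) (nat_lit 0) .nil) .nil)))) (.nd (nat_lit 9) 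
(.lf (nat_lit 588268) (.g (nat_lit 2090) (.e (nat_lit 500065) (nat_lit 18) (.e (nat_lit 65628) (nat_lit 14) (.e (nat_lit 401428) (nat_lit 3) (.e (nat_lit 204862) (nat_lit 27) (.e (nat_lit 344067) (nat_lit 0) .nil))))) (.g (nat_lit 0) (.e (nat_lit 393242) (nat_lit 0) .nil) .nil))) 
(.lf (nat_lit 588780) (.g (nat_lit 497) (.e (nat_lit 532499) (nat_lit 1) (.e (nat_lit 57692) (nat_lit 156) (.e (nat_lit 163906) (nat_lit 12) .nil))) (.g (nat_lit 0) (.e (nat_lit 395305) (nat_lit 0) .nil) .nil)))))))) (.nd (nat_lit 5) (.nd (nat_lit 6) (.nd (nat_lit 7) (.nd (nat_lit 8) (.nd (nat_lit 9) 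
(.lf (nat_lit 587804) (.g (nat_lit 3491) (.e (nat_lit 401453) (nat_lit 12) (.e (nat_lit 475184) (nat_lit 29) (.e (nat_lit 557109) (nat_lit 15) (.e (nat_lit 188450) (nat_lit 23) (.e (nat_lit 204883) (nat_lit 33) .nil))))) (.g (nat_lit 1) (.e (nat_lit 392168) (nat_lit 0) .nil) .nil))) 
(.lf (nat_lit 588316) (.g (nat_lit 2260) (.e (nat_lit 500073) (nat_lit 19) (.e (nat_lit 73754) (nat_lit 8) (.e (nat_lit 557100) (nat_lit 13) (.e (nat_lit 172138) (nat_lit 15) .nil)))) (.g (nat_lit 0) (.e (nat_lit 393314) (nat_lit 0) .nil) .nil)))) (.nd (nat_lit 9) 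
(.lf (nat_lit 588060) (.g (nat_lit 2413) (.e (nat_lit 499726) (nat_lit 0) (.e (nat_lit 1349) (nat_lit 102) (.e (nat_lit 286759) (nat_lit 12) (.e (nat_lit 385074) (nat_lit 31) (.e (nat_lit 573485) (nat_lit 13) .nil))))) (.g (nat_lit 0) (.e (nat_lit 392848) (nat_lit 0) .nil) .nil))) 
(.lf (nat_lit 588572) (.g (nat_lit 2392) (.e (nat_lit 507946) (nat_lit 18) (.e (nat_lit 303131) (nat_lit 9) (.e (nat_lit 426125) (nat_lit 2) (.e (nat_lit 196638) (nat_lit 9) .nil)))) (.g (nat_lit 0) (.e (nat_lit 394720) (nat_lit 0) .nil) .nil))))) (.nd (nat_lit 8) (.nd (nat_lit 9) 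
(.lf (nat_lit 587932) (.g (nat_lit 218) (.e (nat_lit 401457) (nat_lit 13) (.e (nat_lit 483409) (nat_lit 27) (.e (nat_lit 401437) (nat_lit 9) .nil))) (.g (nat_lit 0) (.e (nat_lit 392481) (nat_lit 0) .nil) .nil))) 
(.lf (nat_lit 588444) (.g (nat_lit 1740) (.e (nat_lit 499865) (nat_lit 5) (.e (nat_lit 3067) (nat_lit 190) (.e (nat_lit 475179) (nat_lit 24) (.e (nat_lit 516146) (nat_lit 9) .nil)))) (.g (nat_lit 0) (.e (nat_lit 393669) (nat_lit 0) .nil) .nil)))) (.nd (nat_lit 9) 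
(.lf (nat_lit 588188) (.g (nat_lit 1679) (.e (nat_lit 500048) (nat_lit 16) (.e (nat_lit 16448) (nat_lit 10) (.e (nat_lit 434231) (nat_lit 23) (.e (nat_lit 532529) (nat_lit 9) .nil)))) (.g (nat_lit 0) (.e (nat_lit 393090) (nat_lit 0) .nil) .nil))) 
(.lf (nat_lit 588700) (.g (nat_lit 3355) (.e (nat_lit 532490) (nat_lit 0) (.e (nat_lit 6674) (nat_lit 357) (.e (nat_lit 2936) (nat_lit 184) (.e (nat_lit 426401) (nat_lit 15) (.e (nat_lit 1859) (nat_lit 124) (.e (nat_lit 557098) (nat_lit 13) (.e (nat_lit 172115) (nat_lit 10) (.e (nat_lit 434231) (nat_lit 23) .nil)))))))) (.g (nat_lit 1) (.e (nat_lit 395176) (nat_lit 0) .nil) .nil)))))) 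
(.nd (nat_lit 7) (.nd (nat_lit 8) (.nd (nat_lit 9) 
(.lf (nat_lit 587868) (.g (nat_lit 2787) (.e (nat_lit 401454) (nat_lit 12) (.e (nat_lit 475198) (nat_lit 40) (.e (nat_lit 704592) (nat_lit 4) (.e (nat_lit 172079) (nat_lit 7) (.e (nat_lit 409645) (nat_lit 18) (.e (nat_lit 311040) (nat_lit 35) .nil)))))) (.g (nat_lit 1) (.e (nat_lit 392275) (nat_lit 0) .nil) .nil))) 
(.lf (nat_lit 588380) (.g (nat_lit 3135) (.e (nat_lit 500076) (nat_lit 20) (.e (nat_lit 81956) (nat_lit 23) (.e (nat_lit 98350) (nat_lit 24) (.e (nat_lit 409648) (nat_lit 18) (.e (nat_lit 303108) (nat_lit 0) (.e (nat_lit 3168) (nat_lit 193) .nil)))))) (.g (nat_lit 1) (.e (nat_lit 393391) (nat_lit 0) .nil) .nil)))) (.nd (nat_lit 9) 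
(.lf (nat_lit 588124) (.g (nat_lit 398) (.e (nat_lit 507648) (nat_lit 14) (.e (nat_lit 479) (nat_lit 37) (.e (nat_lit 474880) (nat_lit 19) .nil))) (.g (nat_lit 0) (.e (nat_lit 392995) (nat_lit 0) .nil) .nil))) 
(.lf (nat_lit 588636) (.g (nat_lit 2382) (.e (nat_lit 532482) (nat_lit 0) (.e (nat_lit 6203) (nat_lit 332) (.e (nat_lit 2798) (nat_lit 180) (.e (nat_lit 303119) (nat_lit 3) (.e (nat_lit 204848) (nat_lit 25) .nil))))) (.g (nat_lit 0) (.e (nat_lit 395058) (nat_lit 0) .nil) .nil))))) (.nd (nat_lit 8) (.nd (nat_lit 9) 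
(.lf (nat_lit 587996) (.g (nat_lit 1351) (.e (nat_lit 401458) (nat_lit 13) (.e (nat_lit 483410) (nat_lit 27) (.e (nat_lit 401437) (nat_lit 9) (.e (nat_lit 426482) (nat_lit 27) .nil)))) (.g (nat_lit 0) (.e (nat_lit 392625) (nat_lit 0) .nil) .nil))) 
(.lf (nat_lit 588508) (.g (nat_lit 3332) (.e (nat_lit 499919) (nat_lit 9) (.e (nat_lit 172120) (nat_lit 12) (.e (nat_lit 475185) (nat_lit 29) (.e (nat_lit 557105) (nat_lit 14) (.e (nat_lit 180276) (nat_lit 32) .nil))))) (.g (nat_lit 0) (.e (nat_lit 393976) (nat_lit 0) .nil) .nil)))) (.nd (nat_lit 9) 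
(.lf (nat_lit 588252) (.g (nat_lit 2548) (.e (nat_lit 500065) (nat_lit 18) (.e (nat_lit 65617) (nat_lit 10) (.e (nat_lit 344133) (nat_lit 26) (.e (nat_lit 557091) (nat_lit 12) (.e (nat_lit 164022) (nat_lit 46) (.e (nat_lit 704738) (nat_lit 11) (.e (nat_lit 16401) (nat_lit 0) (.e (nat_lit 3141) (nat_lit 193) .nil)))))))) (.g (nat_lit 1) (.e (nat_lit 393214) (nat_lit 0) .nil) .nil))) 
(.lf (nat_lit 588764) (.g (nat_lit 3682) (.e (nat_lit 532499) (nat_lit 1) (.e (nat_lit 57688) (nat_lit 156) (.e (nat_lit 163907) (nat_lit 12) (.e (nat_lit 426568) (nat_lit 34) (.e (nat_lit 393283) (nat_lit 24) (.e (nat_lit 434232) (nat_lit 23) .nil)))))) (.g (nat_lit 1) (.e (nat_lit 395265) (nat_lit 0) .nil) .nil))))))) (.nd (nat_lit 6) (.nd (nat_lit 7) (.nd (nat_lit 8) (.nd (nat_lit 9) 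
(.lf (nat_lit 587836) (.g (nat_lit 3375) (.e (nat_lit 401454) (nat_lit 12) (.e (nat_lit 475179) (nat_lit 24) (.e (nat_lit 516119) (nat_lit 1) (.e (nat_lit 164345) (nat_lit 240) (.e (nat_lit 2551) (nat_lit 159) (.e (nat_lit 24675) (nat_lit 27) (.e (nat_lit 433920) (nat_lit 35) .nil))))))) (.g (nat_lit 1) (.e (nat_lit 392237) (nat_lit 0) .nil) .nil))) 
(.lf (nat_lit 588348) (.g (nat_lit 2819) (.e (nat_lit 500074) (nat_lit 20) (.e (nat_lit 81956) (nat_lit 23) (.e (nat_lit 98352) (nat_lit 25) (.e (nat_lit 417828) (nat_lit 18) (.e (nat_lit 303106) (nat_lit 0) (.e (nat_lit 3114) (nat_lit 193) .nil)))))) (.g (nat_lit 1) (.e (nat_lit 393348) (nat_lit 0) .nil) .nil)))) (.nd (nat_lit 9) 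
(.lf (nat_lit 588092) (.g (nat_lit 2683) (.e (nat_lit 499974) (nat_lit 14) (.e (nat_lit 1673) (nat_lit 116) (.e (nat_lit 401448) (nat_lit 10) (.e (nat_lit 434238) (nat_lit 25) (.e (nat_lit 548898) (nat_lit 14) .nil))))) (.g (nat_lit 0) (.e (nat_lit 392944) (nat_lit 0) .nil) .nil))) 
(.lf (nat_lit 588604) (.g (nat_lit 2788) (.e (nat_lit 507925) (nat_lit 9) (.e (nat_lit 311325) (nat_lit 9) (.e (nat_lit 426131) (nat_lit 3) (.e (nat_lit 204846) (nat_lit 24) (.e (nat_lit 319534) (nat_lit 16) (.e (nat_lit 286728) (nat_lit 0) (.e (nat_lit 1774) (nat_lit 118) .nil))))))) (.g (nat_lit 1) (.e (nat_lit 394952) (nat_lit 0) .nil) .nil))))) (.nd (nat_lit 8) (.nd (nat_lit 9) 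
(.lf (nat_lit 587964) (.g (nat_lit 2154) (.e (nat_lit 401457) (nat_lit 13) (.e (nat_lit 483413) (nat_lit 27) (.e (nat_lit 401456) (nat_lit 13) (.e (nat_lit 491264) (nat_lit 27) .nil)))) (.g (nat_lit 1) (.e (nat_lit 392564) (nat_lit 0) .nil) .nil))) 
(.lf (nat_lit 588476) (.g (nat_lit 3489) (.e (nat_lit 499913) (nat_lit 9) (.e (nat_lit 172133) (nat_lit 15) (.e (nat_lit 2059) (nat_lit 142) (.e (nat_lit 704589) (nat_lit 3) (.e (nat_lit 163979) (nat_lit 30) .nil))))) (.g (nat_lit 0) (.e (nat_lit 393875) (nat_lit 0) .nil) .nil)))) (.nd (nat_lit 9) 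
(.lf (nat_lit 588220) (.g (nat_lit 4494) (.e (nat_lit 500065) (nat_lit 18) (.e (nat_lit 65610) (nat_lit 10) (.e (nat_lit 344117) (nat_lit 21) (.e (nat_lit 516138) (nat_lit 7) (.e (nat_lit 409645) (nat_lit 18) (.e (nat_lit 303112) (nat_lit 0) (.e (nat_lit 3144) (nat_lit 193) .nil))))))) (.g (nat_lit 1) (.e (nat_lit 393182) (nat_lit 0) .nil) .nil))) 
(.lf (nat_lit 588732) (.g (nat_lit 2557) (.e (nat_lit 532499) (nat_lit 1) (.e (nat_lit 57686) (nat_lit 156) (.e (nat_lit 163875) (nat_lit 3) (.e (nat_lit 204837) (nat_lit 20) (.e (nat_lit 114715) (nat_lit 22) (.e (nat_lit 90174) (nat_lit 14) (.e (nat_lit 180243) (nat_lit 5) .nil))))))) (.g (nat_lit 1) (.e (nat_lit 395220) (nat_lit 0) .nil) .nil)))))) 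
(.nd (nat_lit 7) (.nd (nat_lit 8) (.nd (nat_lit 9) 
(.lf (nat_lit 587900) (.g (nat_lit 1980) (.e (nat_lit 401456) (nat_lit 13) (.e (nat_lit 483341) (nat_lit 9) (.e (nat_lit 426011) (nat_lit 0) (.e (nat_lit 2399) (nat_lit 157) .nil)))) (.g (nat_lit 0) (.e (nat_lit 392366) (nat_lit 0) .nil) .nil))) 
(.lf (nat_lit 588412) (.g (nat_lit 1657) (.e (nat_lit 500090) (nat_lit 22) (.e (nat_lit 131107) (nat_lit 9) (.e (nat_lit 336324) (nat_lit 18) (.e (nat_lit 204837) (nat_lit 20) (.e (nat_lit 122624) (nat_lit 12) (.e (nat_lit 434219) (nat_lit 19) .nil)))))) (.g (nat_lit 1) (.e (nat_lit 393442) (nat_lit 0) .nil) .nil)))) (.nd (nat_lit 9) 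
(.lf (nat_lit 588156) (.g (nat_lit 497) (.e (nat_lit 500046) (nat_lit 16) (.e (nat_lit 16433) (nat_lit 9) (.e (nat_lit 426568) (nat_lit 34) .nil))) (.g (nat_lit 0) (.e (nat_lit 393037) (nat_lit 0) .nil) .nil))) 
(.lf (nat_lit 588668) (.g (nat_lit 381) (.e (nat_lit 532482) (nat_lit 0) (.e (nat_lit 6724) (nat_lit 362) (.e (nat_lit 180250) (nat_lit 10) .nil))) (.g (nat_lit 0) (.e (nat_lit 395108) (nat_lit 0) .nil) .nil))))) (.nd (nat_lit 8) (.nd (nat_lit 9) 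
(.lf (nat_lit 588028) (.g (nat_lit 4176) (.e (nat_lit 401460) (nat_lit 14) (.e (nat_lit 491537) (nat_lit 2) (.e (nat_lit 90177) (nat_lit 15) (.e (nat_lit 188452) (nat_lit 23) (.e (nat_lit 204885) (nat_lit 33) .nil))))) (.g (nat_lit 1) (.e (nat_lit 392682) (nat_lit 0) .nil) .nil))) 
(.lf (nat_lit 588540) (.g (nat_lit 2405) (.e (nat_lit 499930) (nat_lit 11) (.e (nat_lit 188452) (nat_lit 23) (.e (nat_lit 204846) (nat_lit 24) (.e (nat_lit 319504) (nat_lit 10) .nil)))) (.g (nat_lit 0) (.e (nat_lit 394309) (nat_lit 0) .nil) .nil)))) (.nd (nat_lit 9) 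
(.lf (nat_lit 588284) (.g (nat_lit 2273) (.e (nat_lit 500070) (nat_lit 19) (.e (nat_lit 73755) (nat_lit 8) (.e (nat_lit 557098) (nat_lit 13) (.e (nat_lit 172130) (nat_lit 15) .nil)))) (.g (nat_lit 0) (.e (nat_lit 393280) (nat_lit 0) .nil) .nil))) 
(.lf (nat_lit 588796) (.g (nat_lit 3147) (.e (nat_lit 532499) (nat_lit 1) (.e (nat_lit 57847) (nat_lit 252) (.e (nat_lit 57410) (nat_lit 12) (.e (nat_lit 336454) (nat_lit 34) (.e (nat_lit 483385) (nat_lit 23) (.e (nat_lit 336284) (nat_lit 15) (.e (nat_lit 3249) (nat_lit 197) .nil))))))) (.g (nat_lit 1) (.e (nat_lit 395334) (nat_lit 0) .nil) .nil))))))))))) 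
(.nd (nat_lit 2) (.nd (nat_lit 3) (.nd (nat_lit 4) (.nd (nat_lit 5) (.nd (nat_lit 6) 
(.nd (nat_lit 7) (.nd (nat_lit 8) (.nd (nat_lit 9) 
(.lf (nat_lit 587778) (.g (nat_lit 3647) (.e (nat_lit 401451) (nat_lit 12) (.e (nat_lit 475185) (nat_lit 29) (.e (nat_lit 557101) (nat_lit 13) (.e (nat_lit 172097) (nat_lit 9) (.e (nat_lit 426140) (nat_lit 3) (.e (nat_lit 204883) (nat_lit 33) .nil)))))) (.g (nat_lit 1) (.e (nat_lit 392117) (nat_lit 0) .nil) .nil))) 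
(.lf (nat_lit 588290) (.g (nat_lit 1571) (.e (nat_lit 500070) (nat_lit 19) (.e (nat_lit 73781) (nat_lit 32) (.e (nat_lit 2664) (nat_lit 167) (.e (nat_lit 196668) (nat_lit 14) (.e (nat_lit 81664) (nat_lit 35) .nil))))) (.g (nat_lit 0) (.e (nat_lit 393286) (nat_lit 0) .nil) .nil)))) (.nd (nat_lit 9) 
(.lf (nat_lit 588034) (.g (nat_lit 3187) (.e (nat_lit 401460) (nat_lit 14) (.e (nat_lit 491571) (nat_lit 13) (.e (nat_lit 393260) (nat_lit 21) (.e (nat_lit 409648) (nat_lit 18) (.e (nat_lit 311040) (nat_lit 35) .nil))))) (.g (nat_lit 1) (.e (nat_lit 392695) (nat_lit 0) .nil) .nil))) 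
(.lf (nat_lit 588546) (.g (nat_lit 237) (.e (nat_lit 499931) (nat_lit 11) (.e (nat_lit 188423) (nat_lit 11) (.e (nat_lit 335986) (nat_lit 1) .nil))) (.g (nat_lit 0) (.e (nat_lit 394326) (nat_lit 0) .nil) .nil))))) (.nd (nat_lit 8) (.nd (nat_lit 9) 
(.lf (nat_lit 587906) (.g (nat_lit 416) (.e (nat_lit 401456) (nat_lit 13) (.e (nat_lit 483346) (nat_lit 17) (.e (nat_lit 6720) (nat_lit 361) .nil))) (.g (nat_lit 0) (.e (nat_lit 392375) (nat_lit 0) .nil) .nil))) 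
(.lf (nat_lit 588418) (.g (nat_lit 1183) (.e (nat_lit 499825) (nat_lit 5) (.e (nat_lit 3105) (nat_lit 192) (.e (nat_lit 491566) (nat_lit 12) (.e (nat_lit 385074) (nat_lit 31) .nil)))) (.g (nat_lit 0) (.e (nat_lit 393543) (nat_lit 0) .nil) .nil)))) (.nd (nat_lit 9) 
(.lf (nat_lit 588162) (.g (nat_lit 2241) (.e (nat_lit 500046) (nat_lit 16) (.e (nat_lit 16463) (nat_lit 13) (.e (nat_lit 483333) (nat_lit 0) (.e (nat_lit 7096) (nat_lit 380) (.e (nat_lit 164287) (nat_lit 224) (.e (nat_lit 164092) (nat_lit 82) .nil)))))) (.g (nat_lit 1) (.e (nat_lit 393045) (nat_lit 0) .nil) .nil))) 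
(.lf (nat_lit 588674) (.g (nat_lit 4044) (.e (nat_lit 532482) (nat_lit 0) (.e (nat_lit 6724) (nat_lit 362) (.e (nat_lit 180250) (nat_lit 10) (.e (nat_lit 573471) (nat_lit 11) (.e (nat_lit 16448) (nat_lit 10) (.e (nat_lit 434231) (nat_lit 23) .nil)))))) (.g (nat_lit 1) (.e (nat_lit 395119) (nat_lit 0) .nil) .nil)))))) (.nd (nat_lit 7) (.nd (nat_lit 8) (.nd (nat_lit 9) 
(.lf (nat_lit 587842) (.g (nat_lit 714) (.e (nat_lit 401454) (nat_lit 12) (.e (nat_lit 475179) (nat_lit 24) (.e (nat_lit 516124) (nat_lit 2) .nil))) (.g (nat_lit 0) (.e (nat_lit 392244) (nat_lit 0) .nil) .nil))) 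
(.lf (nat_lit 588354) (.g (nat_lit 1742) (.e (nat_lit 500075) (nat_lit 20) (.e (nat_lit 81953) (nat_lit 22) (.e (nat_lit 90134) (nat_lit 9) (.e (nat_lit 2822) (nat_lit 182) .nil)))) (.g (nat_lit 0) (.e (nat_lit 393356) (nat_lit 0) .nil) .nil)))) (.nd (nat_lit 9) 
(.lf (nat_lit 588098) (.g (nat_lit 2255) (.e (nat_lit 499991) (nat_lit 14) (.e (nat_lit 1181) (nat_lit 87) (.e (nat_lit 57692) (nat_lit 156) (.e (nat_lit 163874) (nat_lit 3) (.e (nat_lit 204838) (nat_lit 20) .nil))))) (.g (nat_lit 0) (.e (nat_lit 392955) (nat_lit 0) .nil) .nil))) 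
(.lf (nat_lit 588610) (.g (nat_lit 980) (.e (nat_lit 507923) (nat_lit 6) (.e (nat_lit 286748) (nat_lit 9) (.e (nat_lit 336295) (nat_lit 15) (.e (nat_lit 3305) (nat_lit 202) .nil)))) (.g (nat_lit 0) (.e (nat_lit 394962) (nat_lit 0) .nil) .nil))))) (.nd (nat_lit 8) (.nd (nat_lit 9) 
(.lf (nat_lit 587970) (.g (nat_lit 264) (.e (nat_lit 401458) (nat_lit 13) (.e (nat_lit 483350) (nat_lit 17) (.e (nat_lit 6113) (nat_lit 332) .nil))) (.g (nat_lit 0) (.e (nat_lit 392578) (nat_lit 0) .nil) .nil))) 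
(.lf (nat_lit 588482) (.g (nat_lit 3605) (.e (nat_lit 499915) (nat_lit 9) (.e (nat_lit 172133) (nat_lit 15) (.e (nat_lit 2059) (nat_lit 142) (.e (nat_lit 704589) (nat_lit 3) (.e (nat_lit 163975) (nat_lit 30) .nil))))) (.g (nat_lit 0) (.e (nat_lit 393906) (nat_lit 0) .nil) .nil)))) (.nd (nat_lit 9) 
(.lf (nat_lit 588226) (.g (nat_lit 3122) (.e (nat_lit 500065) (nat_lit 18) (.e (nat_lit 65610) (nat_lit 10) (.e (nat_lit 344117) (nat_lit 21) (.e (nat_lit 516139) (nat_lit 7) (.e (nat_lit 409646) (nat_lit 18) (.e (nat_lit 303112) (nat_lit 0) (.e (nat_lit 3144) (nat_lit 193) .nil))))))) (.g (nat_lit 1) (.e (nat_lit 393188) (nat_lit 0) .nil) .nil))) 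
(.lf (nat_lit 588738) (.g (nat_lit 1784) (.e (nat_lit 532499) (nat_lit 1) (.e (nat_lit 57687) (nat_lit 156) (.e (nat_lit 163905) (nat_lit 12) (.e (nat_lit 426479) (nat_lit 27) (.e (nat_lit 336434) (nat_lit 30) .nil))))) (.g (nat_lit 0) (.e (nat_lit 395227) (nat_lit 0) .nil) .nil))))))) (.nd (nat_lit 6) (.nd (nat_lit 7) (.nd (nat_lit 8) (.nd (nat_lit 9) 
(.lf (nat_lit 587810) (.g (nat_lit 4361) (.e (nat_lit 401453) (nat_lit 12) (.e (nat_lit 475185) (nat_lit 29) (.e (nat_lit 557100) (nat_lit 13) (.e (nat_lit 172106) (nat_lit 10) (.e (nat_lit 434231) (nat_lit 23) (.e (nat_lit 532568) (nat_lit 16) .nil)))))) (.g (nat_lit 1) (.e (nat_lit 392175) (nat_lit 0) .nil) .nil))) 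
(.lf (nat_lit 588322) (.g (nat_lit 826) (.e (nat_lit 507648) (nat_lit 19) (.e (nat_lit 73782) (nat_lit 32) (.e (nat_lit 2664) (nat_lit 167) (.e (nat_lit 196670) (nat_lit 14) .nil)))) (.g (nat_lit 0) (.e (nat_lit 393322) (nat_lit 0) .nil) .nil)))) (.nd (nat_lit 9) 
(.lf (nat_lit 588066) (.g (nat_lit 2114) (.e (nat_lit 499755) (nat_lit 0) (.e (nat_lit 1349) (nat_lit 102) (.e (nat_lit 286759) (nat_lit 12) (.e (nat_lit 385074) (nat_lit 31) (.e (nat_lit 573485) (nat_lit 13) .nil))))) (.g (nat_lit 0) (.e (nat_lit 392877) (nat_lit 0) .nil) .nil))) 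
(.lf (nat_lit 588578) (.g (nat_lit 2173) (.e (nat_lit 507946) (nat_lit 18) (.e (nat_lit 303146) (nat_lit 14) (.e (nat_lit 491537) (nat_lit 2) (.e (nat_lit 90176) (nat_lit 15) .nil)))) (.g (nat_lit 0) (.e (nat_lit 394914) (nat_lit 0) .nil) .nil))))) (.nd (nat_lit 8) (.nd (nat_lit 9) 
(.lf (nat_lit 587938) (.g (nat_lit 2201) (.e (nat_lit 401457) (nat_lit 13) (.e (nat_lit 483413) (nat_lit 27) (.e (nat_lit 401447) (nat_lit 10) (.e (nat_lit 434203) (nat_lit 18) .nil)))) (.g (nat_lit 0) (.e (nat_lit 392525) (nat_lit 0) .nil) .nil))) 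
(.lf (nat_lit 588450) (.g (nat_lit 2129) (.e (nat_lit 499900) (nat_lit 7) (.e (nat_lit 24608) (nat_lit 3) (.e (nat_lit 98313) (nat_lit 9) (.e (nat_lit 336027) (nat_lit 3) (.e (nat_lit 98315) (nat_lit 9) .nil))))) (.g (nat_lit 0) (.e (nat_lit 393703) (nat_lit 0) .nil) .nil)))) (.nd (nat_lit 9) 
(.lf (nat_lit 588194) (.g (nat_lit 538) (.e (nat_lit 500056) (nat_lit 17) (.e (nat_lit 57574) (nat_lit 55) (.e (nat_lit 778466) (nat_lit 11) .nil))) (.g (nat_lit 0) (.e (nat_lit 393109) (nat_lit 0) .nil) .nil))) 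
(.lf (nat_lit 588706) (.g (nat_lit 4367) (.e (nat_lit 532492) (nat_lit 0) (.e (nat_lit 6114) (nat_lit 332) (.e (nat_lit 1370) (nat_lit 103) (.e (nat_lit 294928) (nat_lit 2) .nil)))) (.g (nat_lit 0) (.e (nat_lit 395183) (nat_lit 0) .nil) .nil)))))) (.nd (nat_lit 7) (.nd (nat_lit 8) (.nd (nat_lit 9) 
(.lf (nat_lit 587874) (.g (nat_lit 2172) (.e (nat_lit 401454) (nat_lit 12) (.e (nat_lit 475198) (nat_lit 40) (.e (nat_lit 704595) (nat_lit 5) (.e (nat_lit 180285) (nat_lit 45) (.e (nat_lit 2817) (nat_lit 181) (.e (nat_lit 319232) (nat_lit 35) .nil)))))) (.g (nat_lit 1) (.e (nat_lit 392281) (nat_lit 0) .nil) .nil))) 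
(.lf (nat_lit 588386) (.g (nat_lit 1483) (.e (nat_lit 500077) (nat_lit 20) (.e (nat_lit 81948) (nat_lit 21) (.e (nat_lit 57686) (nat_lit 156) (.e (nat_lit 163885) (nat_lit 5) (.e (nat_lit 229120) (nat_lit 17) .nil))))) (.g (nat_lit 0) (.e (nat_lit 393399) (nat_lit 0) .nil) .nil)))) (.nd (nat_lit 9) 
(.lf (nat_lit 588130) (.g (nat_lit 1374) (.e (nat_lit 500046) (nat_lit 16) (.e (nat_lit 16412) (nat_lit 2) (.e (nat_lit 196654) (nat_lit 11) (.e (nat_lit 16415) (nat_lit 3) .nil)))) (.g (nat_lit 0) (.e (nat_lit 393008) (nat_lit 0) .nil) .nil))) 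
(.lf (nat_lit 588642) (.g (nat_lit 2365) (.e (nat_lit 532482) (nat_lit 0) (.e (nat_lit 6203) (nat_lit 332) (.e (nat_lit 2798) (nat_lit 180) (.e (nat_lit 303119) (nat_lit 3) (.e (nat_lit 204873) (nat_lit 30) .nil))))) (.g (nat_lit 0) (.e (nat_lit 395064) (nat_lit 0) .nil) .nil))))) (.nd (nat_lit 8) (.nd (nat_lit 9) 
(.lf (nat_lit 588002) (.g (nat_lit 746) (.e (nat_lit 401459) (nat_lit 13) (.e (nat_lit 483372) (nat_lit 21) (.e (nat_lit 319507) (nat_lit 10) .nil))) (.g (nat_lit 0) (.e (nat_lit 392640) (nat_lit 0) .nil) .nil))) 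
(.lf (nat_lit 588514) (.g (nat_lit 1833) (.e (nat_lit 499919) (nat_lit 9) (.e (nat_lit 172138) (nat_lit 15) (.e (nat_lit 2059) (nat_lit 142) (.e (nat_lit 704589) (nat_lit 3) (.e (nat_lit 163979) (nat_lit 30) .nil))))) (.g (nat_lit 0) (.e (nat_lit 394011) (nat_lit 0) .nil) .nil)))) (.nd (nat_lit 9) 
(.lf (nat_lit 588258) (.g (nat_lit 537) (.e (nat_lit 500065) (nat_lit 18) (.e (nat_lit 65624) (nat_lit 12) (.e (nat_lit 385074) (nat_lit 31) .nil))) (.g (nat_lit 0) (.e (nat_lit 393232) (nat_lit 0) .nil) .nil))) 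
(.lf (nat_lit 588770) (.g (nat_lit 3123) (.e (nat_lit 532499) (nat_lit 1) (.e (nat_lit 57691) (nat_lit 156) (.e (nat_lit 163905) (nat_lit 12) (.e (nat_lit 426568) (nat_lit 34) (.e (nat_lit 393283) (nat_lit 24) (.e (nat_lit 434234) (nat_lit 23) .nil)))))) (.g (nat_lit 1) (.e (nat_lit 395286) (nat_lit 0) .nil) .nil)))))))) 
(.nd (nat_lit 5) (.nd (nat_lit 6) (.nd (nat_lit 7) (.nd (nat_lit 8) (.nd (nat_lit 9) 
(.lf (nat_lit 587794) (.g (nat_lit 3236) (.e (nat_lit 401452) (nat_lit 12) (.e (nat_lit 475185) (nat_lit 29) (.e (nat_lit 557108) (nat_lit 15) (.e (nat_lit 188452) (nat_lit 23) (.e (nat_lit 204885) (nat_lit 33) .nil))))) (.g (nat_lit 1) (.e (nat_lit 392152) (nat_lit 0) .nil) .nil))) 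
(.lf (nat_lit 588306) (.g (nat_lit 2224) (.e (nat_lit 500072) (nat_lit 19) (.e (nat_lit 73753) (nat_lit 8) (.e (nat_lit 557100) (nat_lit 13) (.e (nat_lit 172138) (nat_lit 15) .nil)))) (.g (nat_lit 0) (.e (nat_lit 393303) (nat_lit 0) .nil) .nil)))) (.nd (nat_lit 9) 
(.lf (nat_lit 588050) (.g (nat_lit 1886) (.e (nat_lit 499727) (nat_lit 0) (.e (nat_lit 2777) (nat_lit 178) (.e (nat_lit 286761) (nat_lit 13) (.e (nat_lit 401152) (nat_lit 16) .nil)))) (.g (nat_lit 0) (.e (nat_lit 392824) (nat_lit 0) .nil) .nil))) 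
(.lf (nat_lit 588562) (.g (nat_lit 3015) (.e (nat_lit 507944) (nat_lit 18) (.e (nat_lit 303143) (nat_lit 12) (.e (nat_lit 475185) (nat_lit 29) (.e (nat_lit 557100) (nat_lit 13) (.e (nat_lit 172106) (nat_lit 10) (.e (nat_lit 434226) (nat_lit 20) .nil)))))) (.g (nat_lit 1) (.e (nat_lit 394667) (nat_lit 0) .nil) .nil))))) (.nd (nat_lit 8) (.nd (nat_lit 9) 
(.lf (nat_lit 587922) (.g (nat_lit 1873) (.e (nat_lit 401456) (nat_lit 13) (.e (nat_lit 483413) (nat_lit 27) (.e (nat_lit 401448) (nat_lit 10) (.e (nat_lit 434206) (nat_lit 18) (.e (nat_lit 6047) (nat_lit 326) .nil))))) (.g (nat_lit 0) (.e (nat_lit 392461) (nat_lit 0) .nil) .nil))) 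
(.lf (nat_lit 588434) (.g (nat_lit 2758) (.e (nat_lit 499838) (nat_lit 5) (.e (nat_lit 3017) (nat_lit 187) (.e (nat_lit 450588) (nat_lit 10) (.e (nat_lit 573475) (nat_lit 12) (.e (nat_lit 57574) (nat_lit 55) .nil))))) (.g (nat_lit 0) (.e (nat_lit 393626) (nat_lit 0) .nil) .nil)))) (.nd (nat_lit 9) 
(.lf (nat_lit 588178) (.g (nat_lit 2224) (.e (nat_lit 500047) (nat_lit 16) (.e (nat_lit 16435) (nat_lit 9) (.e (nat_lit 426566) (nat_lit 34) (.e (nat_lit 393251) (nat_lit 18) (.e (nat_lit 164325) (nat_lit 230) .nil))))) (.g (nat_lit 0) (.e (nat_lit 393066) (nat_lit 0) .nil) .nil))) 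
(.lf (nat_lit 588690) (.g (nat_lit 1529) (.e (nat_lit 532486) (nat_lit 0) (.e (nat_lit 6113) (nat_lit 332) (.e (nat_lit 1374) (nat_lit 104) (.e (nat_lit 303119) (nat_lit 3) .nil)))) (.g (nat_lit 0) (.e (nat_lit 395145) (nat_lit 0) .nil) .nil)))))) (.nd (nat_lit 7) (.nd (nat_lit 8) (.nd (nat_lit 9) 
(.lf (nat_lit 587858) (.g (nat_lit 2846) (.e (nat_lit 401454) (nat_lit 12) (.e (nat_lit 475185) (nat_lit 29) (.e (nat_lit 557107) (nat_lit 15) (.e (nat_lit 188450) (nat_lit 23) (.e (nat_lit 204884) (nat_lit 33) .nil))))) (.g (nat_lit 1) (.e (nat_lit 392265) (nat_lit 0) .nil) .nil))) 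
(.lf (nat_lit 588370) (.g (nat_lit 2812) (.e (nat_lit 500075) (nat_lit 20) (.e (nat_lit 81956) (nat_lit 23) (.e (nat_lit 98349) (nat_lit 24) (.e (nat_lit 409645) (nat_lit 18) (.e (nat_lit 303106) (nat_lit 0) .nil))))) (.g (nat_lit 0) (.e (nat_lit 393373) (nat_lit 0) .nil) .nil)))) (.nd (nat_lit 9) 
(.lf (nat_lit 588114) (.g (nat_lit 1446) (.e (nat_lit 499992) (nat_lit 14) (.e (nat_lit 1673) (nat_lit 116) (.e (nat_lit 401446) (nat_lit 10) (.e (nat_lit 434227) (nat_lit 20) (.e (nat_lit 507929) (nat_lit 10) .nil))))) (.g (nat_lit 0) (.e (nat_lit 392977) (nat_lit 0) .nil) .nil))) 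
(.lf (nat_lit 588626) (.g (nat_lit 963) (.e (nat_lit 532481) (nat_lit 0) (.e (nat_lit 6724) (nat_lit 362) (.e (nat_lit 180251) (nat_lit 10) (.e (nat_lit 573470) (nat_lit 11) .nil)))) (.g (nat_lit 0) (.e (nat_lit 395036) (nat_lit 0) .nil) .nil))))) (.nd (nat_lit 8) (.nd (nat_lit 9) 
(.lf (nat_lit 587986) (.g (nat_lit 1476) (.e (nat_lit 401458) (nat_lit 13) (.e (nat_lit 483372) (nat_lit 21) (.e (nat_lit 319505) (nat_lit 10) (.e (nat_lit 5714) (nat_lit 312) .nil)))) (.g (nat_lit 0) (.e (nat_lit 392612) (nat_lit 0) .nil) .nil))) 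
(.lf (nat_lit 588498) (.g (nat_lit 2028) (.e (nat_lit 499919) (nat_lit 9) (.e (nat_lit 172106) (nat_lit 10) (.e (nat_lit 434231) (nat_lit 23) (.e (nat_lit 532543) (nat_lit 10) (.e (nat_lit 344160) (nat_lit 37) .nil))))) (.g (nat_lit 0) (.e (nat_lit 393957) (nat_lit 0) .nil) .nil)))) (.nd (nat_lit 9) 
(.lf (nat_lit 588242) (.g (nat_lit 2502) (.e (nat_lit 500065) (nat_lit 18) (.e (nat_lit 65617) (nat_lit 10) (.e (nat_lit 344132) (nat_lit 26) (.e (nat_lit 557093) (nat_lit 12) (.e (nat_lit 164023) (nat_lit 46) (.e (nat_lit 704737) (nat_lit 11) (.e (nat_lit 16401) (nat_lit 0) (.e (nat_lit 3141) (nat_lit 193) .nil)))))))) (.g (nat_lit 1) (.e (nat_lit 393204) (nat_lit 0) .nil) .nil))) 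
(.lf (nat_lit 588754) (.g (nat_lit 3569) (.e (nat_lit 532499) (nat_lit 1) (.e (nat_lit 57688) (nat_lit 156) (.e (nat_lit 163903) (nat_lit 12) (.e (nat_lit 426568) (nat_lit 34) (.e (nat_lit 393282) (nat_lit 24) (.e (nat_lit 434231) (nat_lit 23) .nil)))))) (.g (nat_lit 1) (.e (nat_lit 395252) (nat_lit 0) .nil) .nil))))))) (.nd (nat_lit 6) (.nd (nat_lit 7) (.nd (nat_lit 8) (.nd (nat_lit 9) 
(.lf (nat_lit 587826) (.g (nat_lit 996) (.e (nat_lit 401454) (nat_lit 12) (.e (nat_lit 483072) (nat_lit 26) (.e (nat_lit 532560) (nat_lit 14) (.e (nat_lit 376840) (nat_lit 11) (.e (nat_lit 433920) (nat_lit 35) .nil))))) (.g (nat_lit 1) (.e (nat_lit 392225) (nat_lit 0) .nil) .nil))) 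
(.lf (nat_lit 588338) (.g (nat_lit 1297) (.e (nat_lit 500074) (nat_lit 20) (.e (nat_lit 81956) (nat_lit 23) (.e (nat_lit 98325) (nat_lit 17) (.e (nat_lit 6986) (nat_lit 377) .nil)))) (.g (nat_lit 0) (.e (nat_lit 393338) (nat_lit 0) .nil) .nil)))) (.nd (nat_lit 9) 
(.lf (nat_lit 588082) (.g (nat_lit 3267) (.e (nat_lit 499952) (nat_lit 14) (.e (nat_lit 1673) (nat_lit 116) (.e (nat_lit 401448) (nat_lit 10) (.e (nat_lit 434238) (nat_lit 25) (.e (nat_lit 548898) (nat_lit 14) (.e (nat_lit 3027) (nat_lit 187) (.e (nat_lit 450571) (nat_lit 1) .nil))))))) (.g (nat_lit 1) (.e (nat_lit 392918) (nat_lit 0) .nil) .nil))) 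
(.lf (nat_lit 588594) (.g (nat_lit 2877) (.e (nat_lit 507908) (nat_lit 0) (.e (nat_lit 5406) (nat_lit 302) (.e (nat_lit 65637) (nat_lit 15) (.e (nat_lit 3305) (nat_lit 202) (.e (nat_lit 573485) (nat_lit 13) (.e (nat_lit 65619) (nat_lit 10) (.e (nat_lit 344115) (nat_lit 20) .nil))))))) (.g (nat_lit 1) (.e (nat_lit 394941) (nat_lit 0) .nil) .nil))))) (.nd (nat_lit 8) (.nd (nat_lit 9) 
(.lf (nat_lit 587954) (.g (nat_lit 1832) (.e (nat_lit 401457) (nat_lit 13) (.e (nat_lit 483413) (nat_lit 27) (.e (nat_lit 401448) (nat_lit 10) (.e (nat_lit 434203) (nat_lit 18) .nil)))) (.g (nat_lit 0) (.e (nat_lit 392546) (nat_lit 0) .nil) .nil))) 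
(.lf (nat_lit 588466) (.g (nat_lit 3341) (.e (nat_lit 499910) (nat_lit 8) (.e (nat_lit 164021) (nat_lit 46) (.e (nat_lit 704588) (nat_lit 3) (.e (nat_lit 163962) (nat_lit 25) (.e (nat_lit 532544) (nat_lit 10) (.e (nat_lit 344133) (nat_lit 26) (.e (nat_lit 557103) (nat_lit 14) (.e (nat_lit 188160) (nat_lit 1) .nil)))))))) (.g (nat_lit 1) (.e (nat_lit 393781) (nat_lit 0) .nil) .nil)))) 
(.nd (nat_lit 9) 
(.lf (nat_lit 588210) (.g (nat_lit 2665) (.e (nat_lit 500062) (nat_lit 18) (.e (nat_lit 65623) (nat_lit 12) (.e (nat_lit 385074) (nat_lit 31) (.e (nat_lit 573489) (nat_lit 14) (.e (nat_lit 81664) (nat_lit 35) .nil))))) (.g (nat_lit 0) (.e (nat_lit 393160) (nat_lit 0) .nil) .nil))) 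
(.lf (nat_lit 588722) (.g (nat_lit 480) (.e (nat_lit 532498) (nat_lit 1) (.e (nat_lit 57691) (nat_lit 156) (.e (nat_lit 163907) (nat_lit 12) .nil))) (.g (nat_lit 0) (.e (nat_lit 395204) (nat_lit 0) .nil) .nil)))))) (.nd (nat_lit 7) (.nd (nat_lit 8) (.nd (nat_lit 9) 
(.lf (nat_lit 587890) (.g (nat_lit 2567) (.e (nat_lit 401454) (nat_lit 12) (.e (nat_lit 475210) (nat_lit 41) (.e (nat_lit 712739) (nat_lit 27) (.e (nat_lit 426173) (nat_lit 7) (.e (nat_lit 409649) (nat_lit 18) (.e (nat_lit 311040) (nat_lit 35) .nil)))))) (.g (nat_lit 1) (.e (nat_lit 392297) (nat_lit 0) .nil) .nil))) 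
(.lf (nat_lit 588402) (.g (nat_lit 1581) (.e (nat_lit 500087) (nat_lit 22) (.e (nat_lit 131105) (nat_lit 9) (.e (nat_lit 336324) (nat_lit 18) (.e (nat_lit 204837) (nat_lit 20) (.e (nat_lit 122624) (nat_lit 12) .nil))))) (.g (nat_lit 0) (.e (nat_lit 393424) (nat_lit 0) .nil) .nil)))) (.nd (nat_lit 9) 
(.lf (nat_lit 588146) (.g (nat_lit 2019) (.e (nat_lit 500046) (nat_lit 16) (.e (nat_lit 16416) (nat_lit 3) (.e (nat_lit 204813) (nat_lit 9) (.e (nat_lit 426133) (nat_lit 3) (.e (nat_lit 204813) (nat_lit 9) .nil))))) (.g (nat_lit 0) (.e (nat_lit 393026) (nat_lit 0) .nil) .nil))) 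
(.lf (nat_lit 588658) (.g (nat_lit 2388) (.e (nat_lit 532482) (nat_lit 0) (.e (nat_lit 6722) (nat_lit 362) (.e (nat_lit 180252) (nat_lit 10) (.e (nat_lit 573451) (nat_lit 9) (.e (nat_lit 430) (nat_lit 32) .nil))))) (.g (nat_lit 0) (.e (nat_lit 395090) (nat_lit 0) .nil) .nil))))) (.nd (nat_lit 8) (.nd (nat_lit 9) 
(.lf (nat_lit 588018) (.g (nat_lit 2079) (.e (nat_lit 401459) (nat_lit 13) (.e (nat_lit 483410) (nat_lit 27) (.e (nat_lit 401458) (nat_lit 13) (.e (nat_lit 491264) (nat_lit 27) .nil)))) (.g (nat_lit 1) (.e (nat_lit 392656) (nat_lit 0) .nil) .nil))) 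
(.lf (nat_lit 588530) (.g (nat_lit 2371) (.e (nat_lit 499929) (nat_lit 11) (.e (nat_lit 188452) (nat_lit 23) (.e (nat_lit 204846) (nat_lit 24) (.e (nat_lit 319533) (nat_lit 16) .nil)))) (.g (nat_lit 0) (.e (nat_lit 394295) (nat_lit 0) .nil) .nil)))) (.nd (nat_lit 9) 
(.lf (nat_lit 588274) (.g (nat_lit 3187) (.e (nat_lit 500065) (nat_lit 18) (.e (nat_lit 65630) (nat_lit 14) (.e (nat_lit 401425) (nat_lit 2) (.e (nat_lit 196666) (nat_lit 13) (.e (nat_lit 65630) (nat_lit 14) (.e (nat_lit 401412) (nat_lit 0) (.e (nat_lit 3138) (nat_lit 193) .nil))))))) (.g (nat_lit 1) (.e (nat_lit 393249) (nat_lit 0) .nil) .nil))) 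
(.lf (nat_lit 588786) (.g (nat_lit 4454) (.e (nat_lit 532499) (nat_lit 1) (.e (nat_lit 57847) (nat_lit 252) (.e (nat_lit 57345) (nat_lit 0) (.e (nat_lit 1860) (nat_lit 124) (.e (nat_lit 557105) (nat_lit 14) (.e (nat_lit 180252) (nat_lit 10) (.e (nat_lit 573481) (nat_lit 13) (.e (nat_lit 65637) (nat_lit 15) (.e (nat_lit 3253) (nat_lit 197) .nil))))))))) (.g (nat_lit 1) (.e (nat_lit 395322) (nat_lit 0) .nil) .nil))))))))) 
(.nd (nat_lit 4) (.nd (nat_lit 5) (.nd (nat_lit 6) (.nd (nat_lit 7) (.nd (nat_lit 8) 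
(.nd (nat_lit 9) 
(.lf (nat_lit 587786) (.g (nat_lit 3596) (.e (nat_lit 401451) (nat_lit 12) (.e (nat_lit 475185) (nat_lit 29) (.e (nat_lit 557109) (nat_lit 15) (.e (nat_lit 188452) (nat_lit 23) (.e (nat_lit 204884) (nat_lit 33) .nil))))) (.g (nat_lit 1) (.e (nat_lit 392125) (nat_lit 0) .nil) .nil))) 
(.lf (nat_lit 588298) (.g (nat_lit 2279) (.e (nat_lit 500071) (nat_lit 19) (.e (nat_lit 73755) (nat_lit 8) (.e (nat_lit 557098) (nat_lit 13) (.e (nat_lit 172127) (nat_lit 15) .nil)))) (.g (nat_lit 0) (.e (nat_lit 393295) (nat_lit 0) .nil) .nil)))) (.nd (nat_lit 9) 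
(.lf (nat_lit 588042) (.g (nat_lit 848) (.e (nat_lit 499727) (nat_lit 0) (.e (nat_lit 2797) (nat_lit 180) (.e (nat_lit 303133) (nat_lit 9) .nil))) (.g (nat_lit 0) (.e (nat_lit 392815) (nat_lit 0) .nil) .nil))) 
(.lf (nat_lit 588554) (.g (nat_lit 993) (.e (nat_lit 507936) (nat_lit 10) (.e (nat_lit 5626) (nat_lit 312) (.e (nat_lit 3071) (nat_lit 190) .nil))) (.g (nat_lit 0) (.e (nat_lit 394637) (nat_lit 0) .nil) .nil))))) (.nd (nat_lit 8) (.nd (nat_lit 9) 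
(.lf (nat_lit 587914) (.g (nat_lit 1181) (.e (nat_lit 401456) (nat_lit 13) (.e (nat_lit 483383) (nat_lit 23) (.e (nat_lit 336286) (nat_lit 15) .nil))) (.g (nat_lit 0) (.e (nat_lit 392416) (nat_lit 0) .nil) .nil))) 
(.lf (nat_lit 588426) (.g (nat_lit 2281) (.e (nat_lit 499828) (nat_lit 5) (.e (nat_lit 3098) (nat_lit 192) (.e (nat_lit 491566) (nat_lit 12) (.e (nat_lit 385074) (nat_lit 31) (.e (nat_lit 573491) (nat_lit 15) .nil))))) (.g (nat_lit 0) (.e (nat_lit 393597) (nat_lit 0) .nil) .nil)))) (.nd (nat_lit 9) 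
(.lf (nat_lit 588170) (.g (nat_lit 982) (.e (nat_lit 500046) (nat_lit 16) (.e (nat_lit 16465) (nat_lit 13) (.e (nat_lit 491264) (nat_lit 7) (.e (nat_lit 409618) (nat_lit 10) (.e (nat_lit 5023) (nat_lit 290) .nil))))) (.g (nat_lit 0) (.e (nat_lit 393053) (nat_lit 0) .nil) .nil))) 
(.lf (nat_lit 588682) (.g (nat_lit 2641) (.e (nat_lit 532482) (nat_lit 0) (.e (nat_lit 6724) (nat_lit 362) (.e (nat_lit 180252) (nat_lit 10) (.e (nat_lit 573471) (nat_lit 11) (.e (nat_lit 16451) (nat_lit 11) (.e (nat_lit 458789) (nat_lit 23) .nil)))))) (.g (nat_lit 1) (.e (nat_lit 395132) (nat_lit 0) .nil) .nil)))))) (.nd (nat_lit 7) (.nd (nat_lit 8) (.nd (nat_lit 9) 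
(.lf (nat_lit 587850) (.g (nat_lit 3500) (.e (nat_lit 401454) (nat_lit 12) (.e (nat_lit 475184) (nat_lit 29) (.e (nat_lit 557101) (nat_lit 13) (.e (nat_lit 172115) (nat_lit 10) (.e (nat_lit 434231) (nat_lit 23) (.e (nat_lit 532568) (nat_lit 16) .nil)))))) (.g (nat_lit 1) (.e (nat_lit 392254) (nat_lit 0) .nil) .nil))) 
(.lf (nat_lit 588362) (.g (nat_lit 2082) (.e (nat_lit 500075) (nat_lit 20) (.e (nat_lit 81954) (nat_lit 23) (.e (nat_lit 98350) (nat_lit 24) (.e (nat_lit 409644) (nat_lit 18) .nil)))) (.g (nat_lit 0) (.e (nat_lit 393364) (nat_lit 0) .nil) .nil)))) (.nd (nat_lit 9) 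
(.lf (nat_lit 588106) (.g (nat_lit 2483) (.e (nat_lit 499991) (nat_lit 14) (.e (nat_lit 1673) (nat_lit 116) (.e (nat_lit 401447) (nat_lit 10) (.e (nat_lit 434238) (nat_lit 25) (.e (nat_lit 548897) (nat_lit 14) (.e (nat_lit 3022) (nat_lit 187) (.e (nat_lit 450575) (nat_lit 1) .nil))))))) (.g (nat_lit 1) (.e (nat_lit 392968) (nat_lit 0) .nil) .nil))) 
(.lf (nat_lit 588618) (.g (nat_lit 407) (.e (nat_lit 532481) (nat_lit 0) (.e (nat_lit 6724) (nat_lit 362) (.e (nat_lit 180243) (nat_lit 5) .nil))) (.g (nat_lit 0) (.e (nat_lit 395025) (nat_lit 0) .nil) .nil))))) (.nd (nat_lit 8) (.nd (nat_lit 9) 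
(.lf (nat_lit 587978) (.g (nat_lit 296) (.e (nat_lit 401458) (nat_lit 13) (.e (nat_lit 483350) (nat_lit 17) (.e (nat_lit 7936) (nat_lit 361) .nil))) (.g (nat_lit 0) (.e (nat_lit 392595) (nat_lit 0) .nil) .nil))) 
(.lf (nat_lit 588490) (.g (nat_lit 2321) (.e (nat_lit 499918) (nat_lit 9) (.e (nat_lit 172120) (nat_lit 12) (.e (nat_lit 475185) (nat_lit 29) (.e (nat_lit 557103) (nat_lit 14) .nil)))) (.g (nat_lit 0) (.e (nat_lit 393938) (nat_lit 0) .nil) .nil)))) (.nd (nat_lit 9) 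
(.lf (nat_lit 588234) (.g (nat_lit 1354) (.e (nat_lit 500065) (nat_lit 18) (.e (nat_lit 65617) (nat_lit 10) (.e (nat_lit 344132) (nat_lit 26) (.e (nat_lit 557093) (nat_lit 12) .nil)))) (.g (nat_lit 0) (.e (nat_lit 393196) (nat_lit 0) .nil) .nil))) 
(.lf (nat_lit 588746) (.g (nat_lit 3329) (.e (nat_lit 532499) (nat_lit 1) (.e (nat_lit 57688) (nat_lit 156) (.e (nat_lit 163875) (nat_lit 3) (.e (nat_lit 204838) (nat_lit 20) (.e (nat_lit 114719) (nat_lit 23) (.e (nat_lit 98367) (nat_lit 27) (.e (nat_lit 434234) (nat_lit 23) .nil))))))) (.g (nat_lit 1) (.e (nat_lit 395240) (nat_lit 0) .nil) .nil))))))) 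
(.nd (nat_lit 6) (.nd (nat_lit 7) (.nd (nat_lit 8) (.nd (nat_lit 9) 
(.lf (nat_lit 587818) (.g (nat_lit 1925) (.e (nat_lit 401454) (nat_lit 12) (.e (nat_lit 475170) (nat_lit 22) (.e (nat_lit 499732) (nat_lit 0) (.e (nat_lit 2788) (nat_lit 179) (.e (nat_lit 294959) (nat_lit 13) (.e (nat_lit 401152) (nat_lit 16) .nil)))))) (.g (nat_lit 1) (.e (nat_lit 392198) (nat_lit 0) .nil) .nil))) 
(.lf (nat_lit 588330) (.g (nat_lit 1593) (.e (nat_lit 500074) (nat_lit 20) (.e (nat_lit 81954) (nat_lit 23) (.e (nat_lit 98349) (nat_lit 24) (.e (nat_lit 417536) (nat_lit 18) .nil)))) (.g (nat_lit 0) (.e (nat_lit 393330) (nat_lit 0) .nil) .nil)))) (.nd (nat_lit 9) 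
(.lf (nat_lit 588074) (.g (nat_lit 2559) (.e (nat_lit 499780) (nat_lit 1) (.e (nat_lit 57813) (nat_lit 246) (.e (nat_lit 57878) (nat_lit 270) (.e (nat_lit 496) (nat_lit 39) (.e (nat_lit 483403) (nat_lit 26) (.e (nat_lit 385057) (nat_lit 22) .nil)))))) (.g (nat_lit 1) (.e (nat_lit 392904) (nat_lit 0) .nil) .nil))) 
(.lf (nat_lit 588586) (.g (nat_lit 2887) (.e (nat_lit 507906) (nat_lit 0) (.e (nat_lit 5412) (nat_lit 303) (.e (nat_lit 73739) (nat_lit 1) (.e (nat_lit 499833) (nat_lit 5) (.e (nat_lit 3102) (nat_lit 192) (.e (nat_lit 491560) (nat_lit 10) (.e (nat_lit 344115) (nat_lit 20) .nil))))))) (.g (nat_lit 1) (.e (nat_lit 394929) (nat_lit 0) .nil) .nil))))) (.nd (nat_lit 8) (.nd (nat_lit 9) 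
(.lf (nat_lit 587946) (.g (nat_lit 1991) (.e (nat_lit 401457) (nat_lit 13) (.e (nat_lit 483413) (nat_lit 27) (.e (nat_lit 401447) (nat_lit 10) (.e (nat_lit 434283) (nat_lit 41) .nil)))) (.g (nat_lit 0) (.e (nat_lit 392535) (nat_lit 0) .nil) .nil))) 
(.lf (nat_lit 588458) (.g (nat_lit 1360) (.e (nat_lit 499900) (nat_lit 7) (.e (nat_lit 24665) (nat_lit 14) (.e (nat_lit 401468) (nat_lit 27) .nil))) (.g (nat_lit 0) (.e (nat_lit 393735) (nat_lit 0) .nil) .nil)))) (.nd (nat_lit 9) 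
(.lf (nat_lit 588202) (.g (nat_lit 2955) (.e (nat_lit 500060) (nat_lit 18) (.e (nat_lit 65630) (nat_lit 14) (.e (nat_lit 401425) (nat_lit 2) (.e (nat_lit 196670) (nat_lit 14) (.e (nat_lit 81664) (nat_lit 35) .nil))))) (.g (nat_lit 0) (.e (nat_lit 393149) (nat_lit 0) .nil) .nil))) 
(.lf (nat_lit 588714) (.g (nat_lit 818) (.e (nat_lit 532498) (nat_lit 1) (.e (nat_lit 57688) (nat_lit 156) (.e (nat_lit 163905) (nat_lit 12) .nil))) (.g (nat_lit 0) (.e (nat_lit 395192) (nat_lit 0) .nil) .nil)))))) (.nd (nat_lit 7) (.nd (nat_lit 8) (.nd (nat_lit 9) 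
(.lf (nat_lit 587882) (.g (nat_lit 2070) (.e (nat_lit 401454) (nat_lit 12) (.e (nat_lit 475209) (nat_lit 41) (.e (nat_lit 712739) (nat_lit 27) (.e (nat_lit 426173) (nat_lit 7) (.e (nat_lit 409649) (nat_lit 18) (.e (nat_lit 311040) (nat_lit 35) .nil)))))) (.g (nat_lit 1) (.e (nat_lit 392289) (nat_lit 0) .nil) .nil))) 
(.lf (nat_lit 588394) (.g (nat_lit 1117) (.e (nat_lit 500078) (nat_lit 20) (.e (nat_lit 81950) (nat_lit 21) (.e (nat_lit 57686) (nat_lit 156) (.e (nat_lit 163885) (nat_lit 5) .nil)))) (.g (nat_lit 0) (.e (nat_lit 393407) (nat_lit 0) .nil) .nil)))) (.nd (nat_lit 9) 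
(.lf (nat_lit 588138) (.g (nat_lit 1870) (.e (nat_lit 500046) (nat_lit 16) (.e (nat_lit 16416) (nat_lit 3) (.e (nat_lit 204809) (nat_lit 9) (.e (nat_lit 426139) (nat_lit 3) (.e (nat_lit 204813) (nat_lit 9) .nil))))) (.g (nat_lit 0) (.e (nat_lit 393018) (nat_lit 0) .nil) .nil))) 
(.lf (nat_lit 588650) (.g (nat_lit 1259) (.e (nat_lit 532482) (nat_lit 0) (.e (nat_lit 6722) (nat_lit 362) (.e (nat_lit 180244) (nat_lit 5) (.e (nat_lit 532490) (nat_lit 0) .nil)))) (.g (nat_lit 0) (.e (nat_lit 395078) (nat_lit 0) .nil) .nil))))) (.nd (nat_lit 8) (.nd (nat_lit 9) 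
(.lf (nat_lit 588010) (.g (nat_lit 2050) (.e (nat_lit 401459) (nat_lit 13) (.e (nat_lit 483409) (nat_lit 27) (.e (nat_lit 401459) (nat_lit 13) (.e (nat_lit 491264) (nat_lit 27) .nil)))) (.g (nat_lit 1) (.e (nat_lit 392648) (nat_lit 0) .nil) .nil))) 
(.lf (nat_lit 588522) (.g (nat_lit 486) (.e (nat_lit 499928) (nat_lit 11) (.e (nat_lit 188452) (nat_lit 23) (.e (nat_lit 204885) (nat_lit 33) .nil))) (.g (nat_lit 0) (.e (nat_lit 394281) (nat_lit 0) .nil) .nil)))) (.nd (nat_lit 9) 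
(.lf (nat_lit 588266) (.g (nat_lit 2901) (.e (nat_lit 500065) (nat_lit 18) (.e (nat_lit 65628) (nat_lit 14) (.e (nat_lit 401425) (nat_lit 2) (.e (nat_lit 196668) (nat_lit 14) (.e (nat_lit 73780) (nat_lit 32) (.e (nat_lit 2508) (nat_lit 157) (.e (nat_lit 3141) (nat_lit 193) .nil))))))) (.g (nat_lit 1) (.e (nat_lit 393240) (nat_lit 0) .nil) .nil))) 
(.lf (nat_lit 588778) (.g (nat_lit 1706) (.e (nat_lit 532499) (nat_lit 1) (.e (nat_lit 57692) (nat_lit 156) (.e (nat_lit 163905) (nat_lit 12) (.e (nat_lit 426566) (nat_lit 34) (.e (nat_lit 393288) (nat_lit 25) .nil))))) (.g (nat_lit 0) (.e (nat_lit 395303) (nat_lit 0) .nil) .nil)))))))) (.nd (nat_lit 5) (.nd (nat_lit 6) (.nd (nat_lit 7) (.nd (nat_lit 8) (.nd (nat_lit 9) 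
(.lf (nat_lit 587802) (.g (nat_lit 3521) (.e (nat_lit 401453) (nat_lit 12) (.e (nat_lit 475184) (nat_lit 29) (.e (nat_lit 557101) (nat_lit 13) (.e (nat_lit 172115) (nat_lit 10) (.e (nat_lit 434231) (nat_lit 23) (.e (nat_lit 532568) (nat_lit 16) .nil)))))) (.g (nat_lit 1) (.e (nat_lit 392166) (nat_lit 0) .nil) .nil))) 
(.lf (nat_lit 588314) (.g (nat_lit 2162) (.e (nat_lit 500073) (nat_lit 19) (.e (nat_lit 73753) (nat_lit 8) (.e (nat_lit 557100) (nat_lit 13) (.e (nat_lit 172138) (nat_lit 15) .nil)))) (.g (nat_lit 0) (.e (nat_lit 393312) (nat_lit 0) .nil) .nil)))) (.nd (nat_lit 9) 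
(.lf (nat_lit 588058) (.g (nat_lit 2502) (.e (nat_lit 499722) (nat_lit 0) (.e (nat_lit 1348) (nat_lit 102) (.e (nat_lit 286759) (nat_lit 12) (.e (nat_lit 385074) (nat_lit 31) (.e (nat_lit 573484) (nat_lit 13) .nil))))) (.g (nat_lit 0) (.e (nat_lit 392846) (nat_lit 0) .nil) .nil))) 
(.lf (nat_lit 588570) (.g (nat_lit 2392) (.e (nat_lit 507946) (nat_lit 18) (.e (nat_lit 303131) (nat_lit 9) (.e (nat_lit 426125) (nat_lit 2) (.e (nat_lit 196632) (nat_lit 9) .nil)))) (.g (nat_lit 0) (.e (nat_lit 394717) (nat_lit 0) .nil) .nil))))) (.nd (nat_lit 8) (.nd (nat_lit 9) 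
(.lf (nat_lit 587930) (.g (nat_lit 1112) (.e (nat_lit 401457) (nat_lit 13) (.e (nat_lit 483383) (nat_lit 23) (.e (nat_lit 335939) (nat_lit 0) .nil))) (.g (nat_lit 0) (.e (nat_lit 392479) (nat_lit 0) .nil) .nil))) 
(.lf (nat_lit 588442) (.g (nat_lit 2225) (.e (nat_lit 499846) (nat_lit 5) (.e (nat_lit 2829) (nat_lit 182) (.e (nat_lit 409649) (nat_lit 18) (.e (nat_lit 303119) (nat_lit 3) (.e (nat_lit 204870) (nat_lit 29) (.e (nat_lit 360463) (nat_lit 1) .nil)))))) (.g (nat_lit 1) (.e (nat_lit 393654) (nat_lit 0) .nil) .nil)))) (.nd (nat_lit 9) 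
(.lf (nat_lit 588186) (.g (nat_lit 2253) (.e (nat_lit 500048) (nat_lit 16) (.e (nat_lit 16436) (nat_lit 9) (.e (nat_lit 426131) (nat_lit 3) (.e (nat_lit 204880) (nat_lit 32) (.e (nat_lit 385098) (nat_lit 49) .nil))))) (.g (nat_lit 0) (.e (nat_lit 393088) (nat_lit 0) .nil) .nil))) 
(.lf (nat_lit 588698) (.g (nat_lit 3793) (.e (nat_lit 532490) (nat_lit 0) (.e (nat_lit 6674) (nat_lit 357) (.e (nat_lit 2936) (nat_lit 184) (.e (nat_lit 426419) (nat_lit 15) (.e (nat_lit 1856) (nat_lit 124) (.e (nat_lit 557101) (nat_lit 13) (.e (nat_lit 172115) (nat_lit 10) (.e (nat_lit 434231) (nat_lit 23) .nil)))))))) (.g (nat_lit 1) (.e (nat_lit 395174) (nat_lit 0) .nil) .nil)))))) 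
(.nd (nat_lit 7) (.nd (nat_lit 8) (.nd (nat_lit 9) 
(.lf (nat_lit 587866) (.g (nat_lit 2532) (.e (nat_lit 401454) (nat_lit 12) (.e (nat_lit 475197) (nat_lit 40) (.e (nat_lit 704595) (nat_lit 5) (.e (nat_lit 180284) (nat_lit 45) (.e (nat_lit 2797) (nat_lit 180) (.e (nat_lit 311040) (nat_lit 35) .nil)))))) (.g (nat_lit 1) (.e (nat_lit 392273) (nat_lit 0) .nil) .nil))) 
(.lf (nat_lit 588378) (.g (nat_lit 1614) (.e (nat_lit 500076) (nat_lit 20) (.e (nat_lit 81946) (nat_lit 20) (.e (nat_lit 1842) (nat_lit 123) (.e (nat_lit 548889) (nat_lit 9) (.e (nat_lit 65583) (nat_lit 7) .nil))))) (.g (nat_lit 0) (.e (nat_lit 393387) (nat_lit 0) .nil) .nil)))) (.nd (nat_lit 9) 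
(.lf (nat_lit 588122) (.g (nat_lit 3140) (.e (nat_lit 500011) (nat_lit 14) (.e (nat_lit 1638) (nat_lit 114) (.e (nat_lit 385068) (nat_lit 26) (.e (nat_lit 532530) (nat_lit 9) (.e (nat_lit 336326) (nat_lit 18) .nil))))) (.g (nat_lit 0) (.e (nat_lit 392985) (nat_lit 0) .nil) .nil))) 
(.lf (nat_lit 588634) (.g (nat_lit 1072) (.e (nat_lit 532482) (nat_lit 0) (.e (nat_lit 6203) (nat_lit 332) (.e (nat_lit 2798) (nat_lit 180) (.e (nat_lit 303119) (nat_lit 3) .nil)))) (.g (nat_lit 0) (.e (nat_lit 395056) (nat_lit 0) .nil) .nil))))) (.nd (nat_lit 8) (.nd (nat_lit 9) 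
(.lf (nat_lit 587994) (.g (nat_lit 1097) (.e (nat_lit 401458) (nat_lit 13) (.e (nat_lit 483409) (nat_lit 27) (.e (nat_lit 401458) (nat_lit 13) (.e (nat_lit 491264) (nat_lit 27) .nil)))) (.g (nat_lit 1) (.e (nat_lit 392623) (nat_lit 0) .nil) .nil))) 
(.lf (nat_lit 588506) (.g (nat_lit 1277) (.e (nat_lit 499919) (nat_lit 9) (.e (nat_lit 172113) (nat_lit 10) (.e (nat_lit 434247) (nat_lit 28) (.e (nat_lit 573469) (nat_lit 11) .nil)))) (.g (nat_lit 0) (.e (nat_lit 393971) (nat_lit 0) .nil) .nil)))) (.nd (nat_lit 9) 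
(.lf (nat_lit 588250) (.g (nat_lit 2375) (.e (nat_lit 500065) (nat_lit 18) (.e (nat_lit 65617) (nat_lit 10) (.e (nat_lit 344133) (nat_lit 26) (.e (nat_lit 557091) (nat_lit 12) (.e (nat_lit 164022) (nat_lit 46) (.e (nat_lit 704737) (nat_lit 11) (.e (nat_lit 16401) (nat_lit 0) (.e (nat_lit 3141) (nat_lit 193) .nil)))))))) (.g (nat_lit 1) (.e (nat_lit 393212) (nat_lit 0) .nil) .nil))) 
(.lf (nat_lit 588762) (.g (nat_lit 3585) (.e (nat_lit 532499) (nat_lit 1) (.e (nat_lit 57688) (nat_lit 156) (.e (nat_lit 163907) (nat_lit 12) (.e (nat_lit 426479) (nat_lit 27) (.e (nat_lit 336434) (nat_lit 30) (.e (nat_lit 450579) (nat_lit 5) .nil)))))) (.g (nat_lit 1) (.e (nat_lit 395261) (nat_lit 0) .nil) .nil))))))) (.nd (nat_lit 6) (.nd (nat_lit 7) (.nd (nat_lit 8) (.nd (nat_lit 9) 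
(.lf (nat_lit 587834) (.g (nat_lit 3511) (.e (nat_lit 401454) (nat_lit 12) (.e (nat_lit 475179) (nat_lit 24) (.e (nat_lit 516115) (nat_lit 1) (.e (nat_lit 164325) (nat_lit 230) (.e (nat_lit 163947) (nat_lit 20) .nil))))) (.g (nat_lit 0) (.e (nat_lit 392234) (nat_lit 0) .nil) .nil))) 
(.lf (nat_lit 588346) (.g (nat_lit 3169) (.e (nat_lit 500074) (nat_lit 20) (.e (nat_lit 81956) (nat_lit 23) (.e (nat_lit 98350) (nat_lit 24) (.e (nat_lit 409647) (nat_lit 18) .nil)))) (.g (nat_lit 0) (.e (nat_lit 393346) (nat_lit 0) .nil) .nil)))) (.nd (nat_lit 9) 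
(.lf (nat_lit 588090) (.g (nat_lit 2237) (.e (nat_lit 499974) (nat_lit 14) (.e (nat_lit 1673) (nat_lit 116) (.e (nat_lit 401448) (nat_lit 10) (.e (nat_lit 434227) (nat_lit 20) (.e (nat_lit 507929) (nat_lit 10) .nil))))) (.g (nat_lit 0) (.e (nat_lit 392942) (nat_lit 0) .nil) .nil))) 
(.lf (nat_lit 588602) (.g (nat_lit 2630) (.e (nat_lit 507919) (nat_lit 4) (.e (nat_lit 270354) (nat_lit 8) (.e (nat_lit 303119) (nat_lit 3) (.e (nat_lit 204868) (nat_lit 29) (.e (nat_lit 360464) (nat_lit 2) .nil))))) (.g (nat_lit 1) (.e (nat_lit 394950) (nat_lit 0) .nil) .nil))))) (.nd (nat_lit 8) (.nd (nat_lit 9) 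
(.lf (nat_lit 587962) (.g (nat_lit 1785) (.e (nat_lit 401457) (nat_lit 13) (.e (nat_lit 483413) (nat_lit 27) (.e (nat_lit 401448) (nat_lit 10) (.e (nat_lit 434284) (nat_lit 41) .nil)))) (.g (nat_lit 0) (.e (nat_lit 392561) (nat_lit 0) .nil) .nil))) 
(.lf (nat_lit 588474) (.g (nat_lit 2198) (.e (nat_lit 499913) (nat_lit 9) (.e (nat_lit 172126) (nat_lit 14) (.e (nat_lit 491537) (nat_lit 2) (.e (nat_lit 90170) (nat_lit 13) (.e (nat_lit 172124) (nat_lit 14) .nil))))) (.g (nat_lit 0) (.e (nat_lit 393869) (nat_lit 0) .nil) .nil)))) (.nd (nat_lit 9) 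
(.lf (nat_lit 588218) (.g (nat_lit 1801) (.e (nat_lit 500065) (nat_lit 18) (.e (nat_lit 65610) (nat_lit 10) (.e (nat_lit 344117) (nat_lit 21) (.e (nat_lit 516102) (nat_lit 0) .nil)))) (.g (nat_lit 0) (.e (nat_lit 393180) (nat_lit 0) .nil) .nil))) 
(.lf (nat_lit 588730) (.g (nat_lit 1700) (.e (nat_lit 532498) (nat_lit 1) (.e (nat_lit 57847) (nat_lit 252) (.e (nat_lit 57407) (nat_lit 12) (.e (nat_lit 336456) (nat_lit 34) .nil)))) (.g (nat_lit 0) (.e (nat_lit 395216) (nat_lit 0) .nil) .nil)))))) (.nd (nat_lit 7) (.nd (nat_lit 8) (.nd (nat_lit 9) 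
(.lf (nat_lit 587898) (.g (nat_lit 2789) (.e (nat_lit 401454) (nat_lit 12) (.e (nat_lit 475210) (nat_lit 41) (.e (nat_lit 712755) (nat_lit 30) (.e (nat_lit 450563) (nat_lit 0) (.e (nat_lit 5945) (nat_lit 322) (.e (nat_lit 57449) (nat_lit 20) .nil)))))) (.g (nat_lit 1) (.e (nat_lit 392306) (nat_lit 0) .nil) .nil))) 
(.lf (nat_lit 588410) (.g (nat_lit 1581) (.e (nat_lit 500090) (nat_lit 22) (.e (nat_lit 131105) (nat_lit 9) (.e (nat_lit 336324) (nat_lit 18) (.e (nat_lit 204837) (nat_lit 20) (.e (nat_lit 122624) (nat_lit 12) .nil))))) (.g (nat_lit 0) (.e (nat_lit 393440) (nat_lit 0) .nil) .nil)))) (.nd (nat_lit 9) 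
(.lf (nat_lit 588154) (.g (nat_lit 750) (.e (nat_lit 500046) (nat_lit 16) (.e (nat_lit 16433) (nat_lit 9) (.e (nat_lit 426557) (nat_lit 33) .nil))) (.g (nat_lit 0) (.e (nat_lit 393035) (nat_lit 0) .nil) .nil))) 
(.lf (nat_lit 588666) (.g (nat_lit 1235) (.e (nat_lit 532482) (nat_lit 0) (.e (nat_lit 6724) (nat_lit 362) (.e (nat_lit 180243) (nat_lit 5) (.e (nat_lit 532562) (nat_lit 15) .nil)))) (.g (nat_lit 0) (.e (nat_lit 395103) (nat_lit 0) .nil) .nil))))) (.nd (nat_lit 8) (.nd (nat_lit 9) 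
(.lf (nat_lit 588026) (.g (nat_lit 2351) (.e (nat_lit 401459) (nat_lit 13) (.e (nat_lit 483411) (nat_lit 27) (.e (nat_lit 401458) (nat_lit 13) (.e (nat_lit 491264) (nat_lit 27) .nil)))) (.g (nat_lit 1) (.e (nat_lit 392664) (nat_lit 0) .nil) .nil))) 
(.lf (nat_lit 588538) (.g (nat_lit 1955) (.e (nat_lit 499930) (nat_lit 11) (.e (nat_lit 188450) (nat_lit 23) (.e (nat_lit 204846) (nat_lit 24) (.e (nat_lit 319524) (nat_lit 14) .nil)))) (.g (nat_lit 0) (.e (nat_lit 394305) (nat_lit 0) .nil) .nil)))) (.nd (nat_lit 9) 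
(.lf (nat_lit 588282) (.g (nat_lit 2371) (.e (nat_lit 500070) (nat_lit 19) (.e (nat_lit 73754) (nat_lit 8) (.e (nat_lit 557100) (nat_lit 13) (.e (nat_lit 172135) (nat_lit 15) .nil)))) (.g (nat_lit 0) (.e (nat_lit 393278) (nat_lit 0) .nil) .nil))) 
(.lf (nat_lit 588794) (.g (nat_lit 3472) (.e (nat_lit 532499) (nat_lit 1) (.e (nat_lit 57847) (nat_lit 252) (.e (nat_lit 57410) (nat_lit 12) (.e (nat_lit 336454) (nat_lit 34) (.e (nat_lit 483385) (nat_lit 23) (.e (nat_lit 336260) (nat_lit 15) (.e (nat_lit 3238) (nat_lit 197) .nil))))))) (.g (nat_lit 1) (.e (nat_lit 395332) (nat_lit 0) .nil) .nil)))))))))) 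
(.nd (nat_lit 3) (.nd (nat_lit 4) (.nd (nat_lit 5) (.nd (nat_lit 6) (.nd (nat_lit 7) 
(.nd (nat_lit 8) (.nd (nat_lit 9) 
(.lf (nat_lit 587782) (.g (nat_lit 3498) (.e (nat_lit 401451) (nat_lit 12) (.e (nat_lit 475185) (nat_lit 29) (.e (nat_lit 557108) (nat_lit 15) (.e (nat_lit 188458) (nat_lit 25) (.e (nat_lit 245784) (nat_lit 9) .nil))))) (.g (nat_lit 0) (.e (nat_lit 392121) (nat_lit 0) .nil) .nil))) 
(.lf (nat_lit 588294) (.g (nat_lit 1683) (.e (nat_lit 500070) (nat_lit 19) (.e (nat_lit 73782) (nat_lit 32) (.e (nat_lit 2682) (nat_lit 168) (.e (nat_lit 204863) (nat_lit 27) (.e (nat_lit 352000) (nat_lit 3) .nil))))) (.g (nat_lit 0) (.e (nat_lit 393290) (nat_lit 0) .nil) .nil)))) (.nd (nat_lit 9) 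
(.lf (nat_lit 588038) (.g (nat_lit 1497) (.e (nat_lit 401469) (nat_lit 27) (.e (nat_lit 336405) (nat_lit 27) (.e (nat_lit 426200) (nat_lit 9) (.e (nat_lit 426128) (nat_lit 2) (.e (nat_lit 204544) (nat_lit 2) .nil))))) (.g (nat_lit 0) (.e (nat_lit 392721) (nat_lit 0) .nil) .nil))) 
(.lf (nat_lit 588550) (.g (nat_lit 2426) (.e (nat_lit 499933) (nat_lit 11) (.e (nat_lit 188452) (nat_lit 23) (.e (nat_lit 204846) (nat_lit 24) (.e (nat_lit 319505) (nat_lit 10) .nil)))) (.g (nat_lit 0) (.e (nat_lit 394416) (nat_lit 0) .nil) .nil))))) (.nd (nat_lit 8) (.nd (nat_lit 9) 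
(.lf (nat_lit 587910) (.g (nat_lit 514) (.e (nat_lit 401456) (nat_lit 13) (.e (nat_lit 483372) (nat_lit 21) (.e (nat_lit 327424) (nat_lit 10) .nil))) (.g (nat_lit 0) (.e (nat_lit 392402) (nat_lit 0) .nil) .nil))) 
(.lf (nat_lit 588422) (.g (nat_lit 1727) (.e (nat_lit 499828) (nat_lit 5) (.e (nat_lit 3098) (nat_lit 192) (.e (nat_lit 491566) (nat_lit 12) (.e (nat_lit 385072) (nat_lit 31) .nil)))) (.g (nat_lit 0) (.e (nat_lit 393592) (nat_lit 0) .nil) .nil)))) (.nd (nat_lit 9) 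
(.lf (nat_lit 588166) (.g (nat_lit 2138) (.e (nat_lit 500046) (nat_lit 16) (.e (nat_lit 16463) (nat_lit 13) (.e (nat_lit 483337) (nat_lit 9) (.e (nat_lit 426108) (nat_lit 1) (.e (nat_lit 164329) (nat_lit 230) .nil))))) (.g (nat_lit 0) (.e (nat_lit 393049) (nat_lit 0) .nil) .nil))) 
(.lf (nat_lit 588678) (.g (nat_lit 2047) (.e (nat_lit 532482) (nat_lit 0) (.e (nat_lit 6724) (nat_lit 362) (.e (nat_lit 180251) (nat_lit 10) (.e (nat_lit 573471) (nat_lit 11) (.e (nat_lit 16451) (nat_lit 11) .nil))))) (.g (nat_lit 0) (.e (nat_lit 395126) (nat_lit 0) .nil) .nil)))))) (.nd (nat_lit 7) (.nd (nat_lit 8) (.nd (nat_lit 9) 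
(.lf (nat_lit 587846) (.g (nat_lit 3870) (.e (nat_lit 401454) (nat_lit 12) (.e (nat_lit 475183) (nat_lit 29) (.e (nat_lit 557101) (nat_lit 13) (.e (nat_lit 172115) (nat_lit 10) (.e (nat_lit 434231) (nat_lit 23) (.e (nat_lit 532568) (nat_lit 16) .nil)))))) (.g (nat_lit 1) (.e (nat_lit 392250) (nat_lit 0) .nil) .nil))) 
(.lf (nat_lit 588358) (.g (nat_lit 2521) (.e (nat_lit 500075) (nat_lit 20) (.e (nat_lit 81954) (nat_lit 23) (.e (nat_lit 98349) (nat_lit 24) (.e (nat_lit 409645) (nat_lit 18) (.e (nat_lit 303106) (nat_lit 0) (.e (nat_lit 3114) (nat_lit 193) .nil)))))) (.g (nat_lit 1) (.e (nat_lit 393360) (nat_lit 0) .nil) .nil)))) (.nd (nat_lit 9) 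
(.lf (nat_lit 588102) (.g (nat_lit 2805) (.e (nat_lit 499991) (nat_lit 14) (.e (nat_lit 1587) (nat_lit 111) (.e (nat_lit 360475) (nat_lit 8) (.e (nat_lit 557089) (nat_lit 12) (.e (nat_lit 164017) (nat_lit 44) .nil))))) (.g (nat_lit 0) (.e (nat_lit 392963) (nat_lit 0) .nil) .nil))) 
(.lf (nat_lit 588614) (.g (nat_lit 1957) (.e (nat_lit 532480) (nat_lit 0) (.e (nat_lit 6113) (nat_lit 332) (.e (nat_lit 1374) (nat_lit 104) (.e (nat_lit 303119) (nat_lit 3) .nil)))) (.g (nat_lit 0) (.e (nat_lit 394974) (nat_lit 0) .nil) .nil))))) (.nd (nat_lit 8) (.nd (nat_lit 9) 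
(.lf (nat_lit 587974) (.g (nat_lit 359) (.e (nat_lit 401458) (nat_lit 13) (.e (nat_lit 483350) (nat_lit 17) (.e (nat_lit 6225) (nat_lit 334) .nil))) (.g (nat_lit 0) (.e (nat_lit 392584) (nat_lit 0) .nil) .nil))) 
(.lf (nat_lit 588486) (.g (nat_lit 3394) (.e (nat_lit 499916) (nat_lit 9) (.e (nat_lit 172133) (nat_lit 15) (.e (nat_lit 2059) (nat_lit 142) (.e (nat_lit 704589) (nat_lit 3) (.e (nat_lit 163979) (nat_lit 30) .nil))))) (.g (nat_lit 0) (.e (nat_lit 393914) (nat_lit 0) .nil) .nil)))) (.nd (nat_lit 9) 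
(.lf (nat_lit 588230) (.g (nat_lit 2033) (.e (nat_lit 500065) (nat_lit 18) (.e (nat_lit 65617) (nat_lit 10) (.e (nat_lit 344130) (nat_lit 26) (.e (nat_lit 557090) (nat_lit 12) (.e (nat_lit 164022) (nat_lit 46) .nil))))) (.g (nat_lit 0) (.e (nat_lit 393192) (nat_lit 0) .nil) .nil))) 
(.lf (nat_lit 588742) (.g (nat_lit 4319) (.e (nat_lit 532499) (nat_lit 1) (.e (nat_lit 57688) (nat_lit 156) (.e (nat_lit 163874) (nat_lit 3) (.e (nat_lit 204837) (nat_lit 20) (.e (nat_lit 114719) (nat_lit 23) (.e (nat_lit 98367) (nat_lit 27) (.e (nat_lit 434232) (nat_lit 23) .nil))))))) (.g (nat_lit 1) (.e (nat_lit 395236) (nat_lit 0) .nil) .nil))))))) 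
(.nd (nat_lit 6) (.nd (nat_lit 7) (.nd (nat_lit 8) (.nd (nat_lit 9) 
(.lf (nat_lit 587814) (.g (nat_lit 3163) (.e (nat_lit 401453) (nat_lit 12) (.e (nat_lit 475185) (nat_lit 29) (.e (nat_lit 557109) (nat_lit 15) (.e (nat_lit 188450) (nat_lit 23) (.e (nat_lit 204885) (nat_lit 33) .nil))))) (.g (nat_lit 1) (.e (nat_lit 392179) (nat_lit 0) .nil) .nil))) 
(.lf (nat_lit 588326) (.g (nat_lit 585) (.e (nat_lit 500074) (nat_lit 20) (.e (nat_lit 81954) (nat_lit 23) (.e (nat_lit 98325) (nat_lit 17) .nil))) (.g (nat_lit 0) (.e (nat_lit 393326) (nat_lit 0) .nil) .nil)))) (.nd (nat_lit 9) 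
(.lf (nat_lit 588070) (.g (nat_lit 1803) (.e (nat_lit 499764) (nat_lit 0) (.e (nat_lit 1349) (nat_lit 102) (.e (nat_lit 286759) (nat_lit 12) (.e (nat_lit 385074) (nat_lit 31) (.e (nat_lit 573493) (nat_lit 15) .nil))))) (.g (nat_lit 0) (.e (nat_lit 392881) (nat_lit 0) .nil) .nil))) 
(.lf (nat_lit 588582) (.g (nat_lit 2097) (.e (nat_lit 507943) (nat_lit 17) (.e (nat_lit 294941) (nat_lit 9) (.e (nat_lit 336324) (nat_lit 18) (.e (nat_lit 204838) (nat_lit 20) (.e (nat_lit 122624) (nat_lit 12) .nil))))) (.g (nat_lit 0) (.e (nat_lit 394919) (nat_lit 0) .nil) .nil))))) (.nd (nat_lit 8) (.nd (nat_lit 9) 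
(.lf (nat_lit 587942) (.g (nat_lit 2247) (.e (nat_lit 401457) (nat_lit 13) (.e (nat_lit 483413) (nat_lit 27) (.e (nat_lit 401447) (nat_lit 10) (.e (nat_lit 434207) (nat_lit 18) .nil)))) (.g (nat_lit 0) (.e (nat_lit 392531) (nat_lit 0) .nil) .nil))) 
(.lf (nat_lit 588454) (.g (nat_lit 592) (.e (nat_lit 499900) (nat_lit 7) (.e (nat_lit 24625) (nat_lit 9) (.e (nat_lit 336454) (nat_lit 34) .nil))) (.g (nat_lit 0) (.e (nat_lit 393717) (nat_lit 0) .nil) .nil)))) (.nd (nat_lit 9) 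
(.lf (nat_lit 588198) (.g (nat_lit 2921) (.e (nat_lit 500059) (nat_lit 18) (.e (nat_lit 65630) (nat_lit 14) (.e (nat_lit 401425) (nat_lit 2) (.e (nat_lit 196670) (nat_lit 14) (.e (nat_lit 81664) (nat_lit 35) .nil))))) (.g (nat_lit 0) (.e (nat_lit 393143) (nat_lit 0) .nil) .nil))) 
(.lf (nat_lit 588710) (.g (nat_lit 534) (.e (nat_lit 532498) (nat_lit 1) (.e (nat_lit 57688) (nat_lit 156) (.e (nat_lit 163902) (nat_lit 12) .nil))) (.g (nat_lit 0) (.e (nat_lit 395188) (nat_lit 0) .nil) .nil)))))) (.nd (nat_lit 7) (.nd (nat_lit 8) (.nd (nat_lit 9) 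
(.lf (nat_lit 587878) (.g (nat_lit 3017) (.e (nat_lit 401454) (nat_lit 12) (.e (nat_lit 475198) (nat_lit 40) (.e (nat_lit 704596) (nat_lit 5) (.e (nat_lit 180287) (nat_lit 45) (.e (nat_lit 2817) (nat_lit 181) (.e (nat_lit 319232) (nat_lit 35) .nil)))))) (.g (nat_lit 1) (.e (nat_lit 392285) (nat_lit 0) .nil) .nil))) 
(.lf (nat_lit 588390) (.g (nat_lit 1245) (.e (nat_lit 500077) (nat_lit 20) (.e (nat_lit 81950) (nat_lit 21) (.e (nat_lit 57687) (nat_lit 156) (.e (nat_lit 163886) (nat_lit 5) .nil)))) (.g (nat_lit 0) (.e (nat_lit 393403) (nat_lit 0) .nil) .nil)))) (.nd (nat_lit 9) 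
(.lf (nat_lit 588134) (.g (nat_lit 1287) (.e (nat_lit 500046) (nat_lit 16) (.e (nat_lit 16416) (nat_lit 3) (.e (nat_lit 204809) (nat_lit 9) (.e (nat_lit 426124) (nat_lit 2) .nil)))) (.g (nat_lit 0) (.e (nat_lit 393013) (nat_lit 0) .nil) .nil))) 
(.lf (nat_lit 588646) (.g (nat_lit 497) (.e (nat_lit 532482) (nat_lit 0) (.e (nat_lit 6722) (nat_lit 362) (.e (nat_lit 180243) (nat_lit 5) .nil))) (.g (nat_lit 0) (.e (nat_lit 395074) (nat_lit 0) .nil) .nil))))) (.nd (nat_lit 8) (.nd (nat_lit 9) 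
(.lf (nat_lit 588006) (.g (nat_lit 2204) (.e (nat_lit 401459) (nat_lit 13) (.e (nat_lit 483409) (nat_lit 27) (.e (nat_lit 401437) (nat_lit 9) (.e (nat_lit 426482) (nat_lit 27) (.e (nat_lit 336228) (nat_lit 14) .nil))))) (.g (nat_lit 0) (.e (nat_lit 392644) (nat_lit 0) .nil) .nil))) 
(.lf (nat_lit 588518) (.g (nat_lit 775) (.e (nat_lit 499928) (nat_lit 11) (.e (nat_lit 188452) (nat_lit 23) (.e (nat_lit 204816) (nat_lit 17) .nil))) (.g (nat_lit 0) (.e (nat_lit 394267) (nat_lit 0) .nil) .nil)))) (.nd (nat_lit 9) 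
(.lf (nat_lit 588262) (.g (nat_lit 1580) (.e (nat_lit 500065) (nat_lit 18) (.e (nat_lit 65628) (nat_lit 14) (.e (nat_lit 401425) (nat_lit 2) (.e (nat_lit 196666) (nat_lit 13) .nil)))) (.g (nat_lit 0) (.e (nat_lit 393236) (nat_lit 0) .nil) .nil))) 
(.lf (nat_lit 588774) (.g (nat_lit 3420) (.e (nat_lit 532499) (nat_lit 1) (.e (nat_lit 57692) (nat_lit 156) (.e (nat_lit 163874) (nat_lit 3) (.e (nat_lit 204837) (nat_lit 20) (.e (nat_lit 114719) (nat_lit 23) (.e (nat_lit 98367) (nat_lit 27) (.e (nat_lit 434232) (nat_lit 23) .nil))))))) (.g (nat_lit 1) (.e (nat_lit 395297) (nat_lit 0) .nil) .nil)))))))) 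
(.nd (nat_lit 5) (.nd (nat_lit 6) (.nd (nat_lit 7) (.nd (nat_lit 8) (.nd (nat_lit 9) 
(.lf (nat_lit 587798) (.g (nat_lit 4352) (.e (nat_lit 401453) (nat_lit 12) (.e (nat_lit 475183) (nat_lit 29) (.e (nat_lit 557108) (nat_lit 15) (.e (nat_lit 188452) (nat_lit 23) (.e (nat_lit 204885) (nat_lit 33) .nil))))) (.g (nat_lit 1) (.e (nat_lit 392162) (nat_lit 0) .nil) .nil))) 
(.lf (nat_lit 588310) (.g (nat_lit 2269) (.e (nat_lit 500072) (nat_lit 19) (.e (nat_lit 73755) (nat_lit 8) (.e (nat_lit 557098) (nat_lit 13) (.e (nat_lit 172131) (nat_lit 15) .nil)))) (.g (nat_lit 0) (.e (nat_lit 393308) (nat_lit 0) .nil) .nil)))) (.nd (nat_lit 9) 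
(.lf (nat_lit 588054) (.g (nat_lit 3801) (.e (nat_lit 499732) (nat_lit 0) (.e (nat_lit 2798) (nat_lit 180) (.e (nat_lit 303143) (nat_lit 12) (.e (nat_lit 475185) (nat_lit 29) (.e (nat_lit 557100) (nat_lit 13) (.e (nat_lit 172113) (nat_lit 10) (.e (nat_lit 442112) (nat_lit 19) .nil))))))) (.g (nat_lit 1) (.e (nat_lit 392840) (nat_lit 0) .nil) .nil))) 
(.lf (nat_lit 588566) (.g (nat_lit 3692) (.e (nat_lit 507945) (nat_lit 18) (.e (nat_lit 303143) (nat_lit 12) (.e (nat_lit 475185) (nat_lit 29) (.e (nat_lit 557107) (nat_lit 15) (.e (nat_lit 188440) (nat_lit 20) .nil))))) (.g (nat_lit 0) (.e (nat_lit 394699) (nat_lit 0) .nil) .nil))))) (.nd (nat_lit 8) (.nd (nat_lit 9) 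
(.lf (nat_lit 587926) (.g (nat_lit 2325) (.e (nat_lit 401456) (nat_lit 13) (.e (nat_lit 483413) (nat_lit 27) (.e (nat_lit 401448) (nat_lit 10) (.e (nat_lit 434284) (nat_lit 41) .nil)))) (.g (nat_lit 0) (.e (nat_lit 392465) (nat_lit 0) .nil) .nil))) 
(.lf (nat_lit 588438) (.g (nat_lit 2758) (.e (nat_lit 499843) (nat_lit 5) (.e (nat_lit 3017) (nat_lit 187) (.e (nat_lit 450588) (nat_lit 10) (.e (nat_lit 573475) (nat_lit 12) (.e (nat_lit 57574) (nat_lit 55) .nil))))) (.g (nat_lit 0) (.e (nat_lit 393636) (nat_lit 0) .nil) .nil)))) (.nd (nat_lit 9) 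
(.lf (nat_lit 588182) (.g (nat_lit 1427) (.e (nat_lit 500048) (nat_lit 16) (.e (nat_lit 16435) (nat_lit 9) (.e (nat_lit 426566) (nat_lit 34) (.e (nat_lit 393253) (nat_lit 18) .nil)))) (.g (nat_lit 0) (.e (nat_lit 393083) (nat_lit 0) .nil) .nil))) 
(.lf (nat_lit 588694) (.g (nat_lit 2348) (.e (nat_lit 532486) (nat_lit 0) (.e (nat_lit 6666) (nat_lit 357) (.e (nat_lit 3067) (nat_lit 190) (.e (nat_lit 475185) (nat_lit 29) (.e (nat_lit 557101) (nat_lit 13) .nil))))) (.g (nat_lit 0) (.e (nat_lit 395150) (nat_lit 0) .nil) .nil)))))) (.nd (nat_lit 7) (.nd (nat_lit 8) (.nd (nat_lit 9) 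
(.lf (nat_lit 587862) (.g (nat_lit 2873) (.e (nat_lit 401454) (nat_lit 12) (.e (nat_lit 475196) (nat_lit 40) (.e (nat_lit 704593) (nat_lit 4) (.e (nat_lit 172082) (nat_lit 7) (.e (nat_lit 409646) (nat_lit 18) (.e (nat_lit 311040) (nat_lit 35) .nil)))))) (.g (nat_lit 1) (.e (nat_lit 392269) (nat_lit 0) .nil) .nil))) 
(.lf (nat_lit 588374) (.g (nat_lit 2734) (.e (nat_lit 500075) (nat_lit 20) (.e (nat_lit 81956) (nat_lit 23) (.e (nat_lit 98350) (nat_lit 24) (.e (nat_lit 409645) (nat_lit 18) .nil)))) (.g (nat_lit 0) (.e (nat_lit 393377) (nat_lit 0) .nil) .nil)))) (.nd (nat_lit 9) 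
(.lf (nat_lit 588118) (.g (nat_lit 2660) (.e (nat_lit 499992) (nat_lit 14) (.e (nat_lit 1673) (nat_lit 116) (.e (nat_lit 401448) (nat_lit 10) (.e (nat_lit 434238) (nat_lit 25) (.e (nat_lit 548898) (nat_lit 14) .nil))))) (.g (nat_lit 0) (.e (nat_lit 392981) (nat_lit 0) .nil) .nil))) 
(.lf (nat_lit 588630) (.g (nat_lit 2123) (.e (nat_lit 532482) (nat_lit 0) (.e (nat_lit 6203) (nat_lit 332) (.e (nat_lit 2798) (nat_lit 180) (.e (nat_lit 303117) (nat_lit 2) (.e (nat_lit 196669) (nat_lit 14) .nil))))) (.g (nat_lit 0) (.e (nat_lit 395052) (nat_lit 0) .nil) .nil))))) (.nd (nat_lit 8) (.nd (nat_lit 9) 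
(.lf (nat_lit 587990) (.g (nat_lit 929) (.e (nat_lit 401458) (nat_lit 13) (.e (nat_lit 483372) (nat_lit 21) (.e (nat_lit 319537) (nat_lit 19) (.e (nat_lit 319232) (nat_lit 27) .nil)))) (.g (nat_lit 0) (.e (nat_lit 392617) (nat_lit 0) .nil) .nil))) 
(.lf (nat_lit 588502) (.g (nat_lit 480) (.e (nat_lit 499919) (nat_lit 9) (.e (nat_lit 172113) (nat_lit 10) (.e (nat_lit 434245) (nat_lit 28) .nil))) (.g (nat_lit 0) (.e (nat_lit 393964) (nat_lit 0) .nil) .nil)))) (.nd (nat_lit 9) 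
(.lf (nat_lit 588246) (.g (nat_lit 1394) (.e (nat_lit 500065) (nat_lit 18) (.e (nat_lit 65617) (nat_lit 10) (.e (nat_lit 344133) (nat_lit 26) (.e (nat_lit 557091) (nat_lit 12) .nil)))) (.g (nat_lit 0) (.e (nat_lit 393208) (nat_lit 0) .nil) .nil))) 
(.lf (nat_lit 588758) (.g (nat_lit 3460) (.e (nat_lit 532499) (nat_lit 1) (.e (nat_lit 57688) (nat_lit 156) (.e (nat_lit 163905) (nat_lit 12) (.e (nat_lit 426566) (nat_lit 34) (.e (nat_lit 393287) (nat_lit 25) (.e (nat_lit 458789) (nat_lit 23) .nil)))))) (.g (nat_lit 1) (.e (nat_lit 395257) (nat_lit 0) .nil) .nil))))))) (.nd (nat_lit 6) (.nd (nat_lit 7) (.nd (nat_lit 8) (.nd (nat_lit 9) 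
(.lf (nat_lit 587830) (.g (nat_lit 519) (.e (nat_lit 401454) (nat_lit 12) (.e (nat_lit 483072) (nat_lit 26) (.e (nat_lit 532561) (nat_lit 14) (.e (nat_lit 376840) (nat_lit 11) (.e (nat_lit 433920) (nat_lit 35) .nil))))) (.g (nat_lit 1) (.e (nat_lit 392229) (nat_lit 0) .nil) .nil))) 
(.lf (nat_lit 588342) (.g (nat_lit 3010) (.e (nat_lit 500074) (nat_lit 20) (.e (nat_lit 81956) (nat_lit 23) (.e (nat_lit 98349) (nat_lit 24) (.e (nat_lit 409646) (nat_lit 18) (.e (nat_lit 303106) (nat_lit 0) (.e (nat_lit 3114) (nat_lit 193) .nil)))))) (.g (nat_lit 1) (.e (nat_lit 393342) (nat_lit 0) .nil) .nil)))) (.nd (nat_lit 9) 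
(.lf (nat_lit 588086) (.g (nat_lit 2660) (.e (nat_lit 499971) (nat_lit 14) (.e (nat_lit 1673) (nat_lit 116) (.e (nat_lit 401448) (nat_lit 10) (.e (nat_lit 434238) (nat_lit 25) (.e (nat_lit 548898) (nat_lit 14) .nil))))) (.g (nat_lit 0) (.e (nat_lit 392938) (nat_lit 0) .nil) .nil))) 
(.lf (nat_lit 588598) (.g (nat_lit 959) (.e (nat_lit 507910) (nat_lit 0) (.e (nat_lit 4995) (nat_lit 288) (.e (nat_lit 57879) (nat_lit 270) (.e (nat_lit 496) (nat_lit 39) (.e (nat_lit 483405) (nat_lit 26) (.e (nat_lit 385062) (nat_lit 23) .nil)))))) (.g (nat_lit 1) (.e (nat_lit 394945) (nat_lit 0) .nil) .nil))))) (.nd (nat_lit 8) (.nd (nat_lit 9) 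
(.lf (nat_lit 587958) (.g (nat_lit 2874) (.e (nat_lit 401457) (nat_lit 13) (.e (nat_lit 483413) (nat_lit 27) (.e (nat_lit 401448) (nat_lit 10) (.e (nat_lit 434207) (nat_lit 18) .nil)))) (.g (nat_lit 0) (.e (nat_lit 392554) (nat_lit 0) .nil) .nil))) 
(.lf (nat_lit 588470) (.g (nat_lit 3436) (.e (nat_lit 499910) (nat_lit 8) (.e (nat_lit 164210) (nat_lit 176) (.e (nat_lit 2798) (nat_lit 180) (.e (nat_lit 303119) (nat_lit 3) (.e (nat_lit 204868) (nat_lit 29) (.e (nat_lit 368384) (nat_lit 1) .nil)))))) (.g (nat_lit 1) (.e (nat_lit 393828) (nat_lit 0) .nil) .nil)))) (.nd (nat_lit 9) 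
(.lf (nat_lit 588214) (.g (nat_lit 960) (.e (nat_lit 500065) (nat_lit 18) (.e (nat_lit 65571) (nat_lit 3) (.e (nat_lit 98341) (nat_lit 20) .nil))) (.g (nat_lit 0) (.e (nat_lit 393172) (nat_lit 0) .nil) .nil))) 
(.lf (nat_lit 588726) (.g (nat_lit 1541) (.e (nat_lit 532498) (nat_lit 1) (.e (nat_lit 57692) (nat_lit 156) (.e (nat_lit 163907) (nat_lit 12) (.e (nat_lit 426479) (nat_lit 27) (.e (nat_lit 336434) (nat_lit 30) .nil))))) (.g (nat_lit 0) (.e (nat_lit 395211) (nat_lit 0) .nil) .nil)))))) (.nd (nat_lit 7) (.nd (nat_lit 8) (.nd (nat_lit 9) 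
(.lf (nat_lit 587894) (.g (nat_lit 2032) (.e (nat_lit 401454) (nat_lit 12) (.e (nat_lit 475210) (nat_lit 41) (.e (nat_lit 712742) (nat_lit 27) (.e (nat_lit 426171) (nat_lit 7) (.e (nat_lit 409649) (nat_lit 18) (.e (nat_lit 311040) (nat_lit 35) .nil)))))) (.g (nat_lit 1) (.e (nat_lit 392301) (nat_lit 0) .nil) .nil))) 
(.lf (nat_lit 588406) (.g (nat_lit 1159) (.e (nat_lit 500089) (nat_lit 22) (.e (nat_lit 131109) (nat_lit 9) (.e (nat_lit 336019) (nat_lit 3) (.e (nat_lit 98350) (nat_lit 24) .nil)))) (.g (nat_lit 0) (.e (nat_lit 393434) (nat_lit 0) .nil) .nil)))) (.nd (nat_lit 9) 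
(.lf (nat_lit 588150) (.g (nat_lit 1435) (.e (nat_lit 500046) (nat_lit 16) (.e (nat_lit 16416) (nat_lit 3) (.e (nat_lit 204813) (nat_lit 9) (.e (nat_lit 426139) (nat_lit 3) .nil)))) (.g (nat_lit 0) (.e (nat_lit 393030) (nat_lit 0) .nil) .nil))) 
(.lf (nat_lit 588662) (.g (nat_lit 387) (.e (nat_lit 532482) (nat_lit 0) (.e (nat_lit 6724) (nat_lit 362) (.e (nat_lit 180243) (nat_lit 5) .nil))) (.g (nat_lit 0) (.e (nat_lit 395098) (nat_lit 0) .nil) .nil))))) (.nd (nat_lit 8) (.nd (nat_lit 9) 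
(.lf (nat_lit 588022) (.g (nat_lit 3891) (.e (nat_lit 401459) (nat_lit 13) (.e (nat_lit 483411) (nat_lit 27) (.e (nat_lit 401437) (nat_lit 9) (.e (nat_lit 426482) (nat_lit 27) (.e (nat_lit 336227) (nat_lit 14) .nil))))) (.g (nat_lit 1) (.e (nat_lit 392660) (nat_lit 0) .nil) .nil))) 
(.lf (nat_lit 588534) (.g (nat_lit 1323) (.e (nat_lit 499930) (nat_lit 11) (.e (nat_lit 188441) (nat_lit 20) (.e (nat_lit 3272) (nat_lit 199) (.e (nat_lit 548913) (nat_lit 18) .nil)))) (.g (nat_lit 0) (.e (nat_lit 394300) (nat_lit 0) .nil) .nil)))) (.nd (nat_lit 9) 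
(.lf (nat_lit 588278) (.g (nat_lit 2073) (.e (nat_lit 500065) (nat_lit 18) (.e (nat_lit 65630) (nat_lit 14) (.e (nat_lit 401428) (nat_lit 3) (.e (nat_lit 204862) (nat_lit 27) (.e (nat_lit 344067) (nat_lit 0) .nil))))) (.g (nat_lit 0) (.e (nat_lit 393253) (nat_lit 0) .nil) .nil))) 
(.lf (nat_lit 588790) (.g (nat_lit 602) (.e (nat_lit 532499) (nat_lit 1) (.e (nat_lit 57847) (nat_lit 252) (.e (nat_lit 57404) (nat_lit 12) .nil))) (.g (nat_lit 0) (.e (nat_lit 395328) (nat_lit 0) .nil) .nil))))))))) (.nd (nat_lit 4) (.nd (nat_lit 5) (.nd (nat_lit 6) (.nd (nat_lit 7) (.nd (nat_lit 8) (.nd (nat_lit 9) 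
(.lf (nat_lit 587790) (.g (nat_lit 4200) (.e (nat_lit 401452) (nat_lit 12) (.e (nat_lit 475185) (nat_lit 29) (.e (nat_lit 557100) (nat_lit 13) (.e (nat_lit 172106) (nat_lit 10) (.e (nat_lit 434231) (nat_lit 23) (.e (nat_lit 532569) (nat_lit 16) .nil)))))) (.g (nat_lit 1) (.e (nat_lit 392148) (nat_lit 0) .nil) .nil))) 
(.lf (nat_lit 588302) (.g (nat_lit 1817) (.e (nat_lit 500071) (nat_lit 19) (.e (nat_lit 73781) (nat_lit 32) (.e (nat_lit 2682) (nat_lit 168) (.e (nat_lit 204863) (nat_lit 27) (.e (nat_lit 352000) (nat_lit 3) .nil))))) (.g (nat_lit 0) (.e (nat_lit 393299) (nat_lit 0) .nil) .nil)))) (.nd (nat_lit 9) 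
(.lf (nat_lit 588046) (.g (nat_lit 1015) (.e (nat_lit 499727) (nat_lit 0) (.e (nat_lit 2777) (nat_lit 178) (.e (nat_lit 286743) (nat_lit 9) .nil))) (.g (nat_lit 0) (.e (nat_lit 392820) (nat_lit 0) .nil) .nil))) 
(.lf (nat_lit 588558) (.g (nat_lit 3386) (.e (nat_lit 507942) (nat_lit 15) (.e (nat_lit 278566) (nat_lit 16) (.e (nat_lit 286733) (nat_lit 2) (.e (nat_lit 90170) (nat_lit 13) (.e (nat_lit 172106) (nat_lit 10) (.e (nat_lit 434227) (nat_lit 20) .nil)))))) (.g (nat_lit 1) (.e (nat_lit 394643) (nat_lit 0) .nil) .nil))))) (.nd (nat_lit 8) (.nd (nat_lit 9) 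
(.lf (nat_lit 587918) (.g (nat_lit 1929) (.e (nat_lit 401456) (nat_lit 13) (.e (nat_lit 483413) (nat_lit 27) (.e (nat_lit 401448) (nat_lit 10) (.e (nat_lit 434199) (nat_lit 18) .nil)))) (.g (nat_lit 0) (.e (nat_lit 392456) (nat_lit 0) .nil) .nil))) 
(.lf (nat_lit 588430) (.g (nat_lit 2758) (.e (nat_lit 499834) (nat_lit 5) (.e (nat_lit 3017) (nat_lit 187) (.e (nat_lit 450588) (nat_lit 10) (.e (nat_lit 573475) (nat_lit 12) (.e (nat_lit 57574) (nat_lit 55) .nil))))) (.g (nat_lit 0) (.e (nat_lit 393611) (nat_lit 0) .nil) .nil)))) (.nd (nat_lit 9) 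
(.lf (nat_lit 588174) (.g (nat_lit 1600) (.e (nat_lit 500046) (nat_lit 16) (.e (nat_lit 16466) (nat_lit 13) (.e (nat_lit 491264) (nat_lit 7) (.e (nat_lit 409618) (nat_lit 10) (.e (nat_lit 5023) (nat_lit 290) (.e (nat_lit 164092) (nat_lit 82) .nil)))))) (.g (nat_lit 1) (.e (nat_lit 393057) (nat_lit 0) .nil) .nil))) 
(.lf (nat_lit 588686) (.g (nat_lit 2321) (.e (nat_lit 532486) (nat_lit 0) (.e (nat_lit 6113) (nat_lit 332) (.e (nat_lit 1374) (nat_lit 104) (.e (nat_lit 303112) (nat_lit 0) .nil)))) (.g (nat_lit 0) (.e (nat_lit 395141) (nat_lit 0) .nil) .nil)))))) (.nd (nat_lit 7) (.nd (nat_lit 8) (.nd (nat_lit 9) 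
(.lf (nat_lit 587854) (.g (nat_lit 3847) (.e (nat_lit 401454) (nat_lit 12) (.e (nat_lit 475184) (nat_lit 29) (.e (nat_lit 557109) (nat_lit 15) (.e (nat_lit 188452) (nat_lit 23) (.e (nat_lit 204884) (nat_lit 33) .nil))))) (.g (nat_lit 1) (.e (nat_lit 392258) (nat_lit 0) .nil) .nil))) 
(.lf (nat_lit 588366) (.g (nat_lit 1669) (.e (nat_lit 500075) (nat_lit 20) (.e (nat_lit 81955) (nat_lit 23) (.e (nat_lit 98349) (nat_lit 24) (.e (nat_lit 409644) (nat_lit 18) (.e (nat_lit 303106) (nat_lit 0) .nil))))) (.g (nat_lit 0) (.e (nat_lit 393368) (nat_lit 0) .nil) .nil)))) (.nd (nat_lit 9) 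
(.lf (nat_lit 588110) (.g (nat_lit 4074) (.e (nat_lit 499991) (nat_lit 14) (.e (nat_lit 1673) (nat_lit 116) (.e (nat_lit 401448) (nat_lit 10) (.e (nat_lit 434238) (nat_lit 25) (.e (nat_lit 548897) (nat_lit 14) (.e (nat_lit 3022) (nat_lit 187) (.e (nat_lit 450575) (nat_lit 1) .nil))))))) (.g (nat_lit 1) (.e (nat_lit 392972) (nat_lit 0) .nil) .nil))) 
(.lf (nat_lit 588622) (.g (nat_lit 2668) (.e (nat_lit 532481) (nat_lit 0) (.e (nat_lit 6724) (nat_lit 362) (.e (nat_lit 180250) (nat_lit 10) (.e (nat_lit 573469) (nat_lit 11) (.e (nat_lit 16452) (nat_lit 11) (.e (nat_lit 458789) (nat_lit 23) .nil)))))) (.g (nat_lit 1) (.e (nat_lit 395032) (nat_lit 0) .nil) .nil))))) (.nd (nat_lit 8) (.nd (nat_lit 9) 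
(.lf (nat_lit 587982) (.g (nat_lit 1284) (.e (nat_lit 401458) (nat_lit 13) (.e (nat_lit 483372) (nat_lit 21) (.e (nat_lit 319504) (nat_lit 10) (.e (nat_lit 5734) (nat_lit 312) .nil)))) (.g (nat_lit 0) (.e (nat_lit 392607) (nat_lit 0) .nil) .nil))) 
(.lf (nat_lit 588494) (.g (nat_lit 3007) (.e (nat_lit 499918) (nat_lit 9) (.e (nat_lit 172126) (nat_lit 14) (.e (nat_lit 491537) (nat_lit 2) (.e (nat_lit 90170) (nat_lit 13) (.e (nat_lit 172126) (nat_lit 14) .nil))))) (.g (nat_lit 0) (.e (nat_lit 393943) (nat_lit 0) .nil) .nil)))) (.nd (nat_lit 9) 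
(.lf (nat_lit 588238) (.g (nat_lit 2388) (.e (nat_lit 500065) (nat_lit 18) (.e (nat_lit 65617) (nat_lit 10) (.e (nat_lit 344132) (nat_lit 26) (.e (nat_lit 557093) (nat_lit 12) (.e (nat_lit 164022) (nat_lit 46) (.e (nat_lit 704738) (nat_lit 11) (.e (nat_lit 16397) (nat_lit 0) (.e (nat_lit 3147) (nat_lit 193) .nil)))))))) (.g (nat_lit 1) (.e (nat_lit 393200) (nat_lit 0) .nil) .nil))) 
(.lf (nat_lit 588750) (.g (nat_lit 3885) (.e (nat_lit 532499) (nat_lit 1) (.e (nat_lit 57688) (nat_lit 156) (.e (nat_lit 163902) (nat_lit 12) (.e (nat_lit 426568) (nat_lit 34) (.e (nat_lit 393284) (nat_lit 24) (.e (nat_lit 434233) (nat_lit 23) .nil)))))) (.g (nat_lit 1) (.e (nat_lit 395247) (nat_lit 0) .nil) .nil))))))) (.nd (nat_lit 6) (.nd (nat_lit 7) (.nd (nat_lit 8) (.nd (nat_lit 9) 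
(.lf (nat_lit 587822) (.g (nat_lit 624) (.e (nat_lit 401454) (nat_lit 12) (.e (nat_lit 483072) (nat_lit 26) (.e (nat_lit 532559) (nat_lit 14) (.e (nat_lit 376840) (nat_lit 11) (.e (nat_lit 433920) (nat_lit 35) .nil))))) (.g (nat_lit 1) (.e (nat_lit 392221) (nat_lit 0) .nil) .nil))) 
(.lf (nat_lit 588334) (.g (nat_lit 2028) (.e (nat_lit 500074) (nat_lit 20) (.e (nat_lit 81954) (nat_lit 23) (.e (nat_lit 98350) (nat_lit 24) (.e (nat_lit 417536) (nat_lit 18) .nil)))) (.g (nat_lit 0) (.e (nat_lit 393334) (nat_lit 0) .nil) .nil)))) (.nd (nat_lit 9) 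
(.lf (nat_lit 588078) (.g (nat_lit 2758) (.e (nat_lit 499952) (nat_lit 14) (.e (nat_lit 1587) (nat_lit 111) (.e (nat_lit 360475) (nat_lit 8) (.e (nat_lit 557091) (nat_lit 12) (.e (nat_lit 164022) (nat_lit 46) .nil))))) (.g (nat_lit 0) (.e (nat_lit 392914) (nat_lit 0) .nil) .nil))) 
(.lf (nat_lit 588590) (.g (nat_lit 2806) (.e (nat_lit 507907) (nat_lit 0) (.e (nat_lit 5406) (nat_lit 302) (.e (nat_lit 65637) (nat_lit 15) (.e (nat_lit 3305) (nat_lit 202) (.e (nat_lit 573485) (nat_lit 13) (.e (nat_lit 65619) (nat_lit 10) (.e (nat_lit 344115) (nat_lit 20) .nil))))))) (.g (nat_lit 1) (.e (nat_lit 394934) (nat_lit 0) .nil) .nil))))) (.nd (nat_lit 8) (.nd (nat_lit 9) 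
(.lf (nat_lit 587950) (.g (nat_lit 2070) (.e (nat_lit 401457) (nat_lit 13) (.e (nat_lit 483413) (nat_lit 27) (.e (nat_lit 401448) (nat_lit 10) (.e (nat_lit 434202) (nat_lit 18) .nil)))) (.g (nat_lit 0) (.e (nat_lit 392541) (nat_lit 0) .nil) .nil))) 
(.lf (nat_lit 588462) (.g (nat_lit 1682) (.e (nat_lit 499903) (nat_lit 7) (.e (nat_lit 24627) (nat_lit 9) (.e (nat_lit 336454) (nat_lit 34) (.e (nat_lit 483365) (nat_lit 18) .nil)))) (.g (nat_lit 0) (.e (nat_lit 393747) (nat_lit 0) .nil) .nil)))) (.nd (nat_lit 9) 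
(.lf (nat_lit 588206) (.g (nat_lit 2437) (.e (nat_lit 500061) (nat_lit 18) (.e (nat_lit 65630) (nat_lit 14) (.e (nat_lit 401425) (nat_lit 2) (.e (nat_lit 196668) (nat_lit 14) .nil)))) (.g (nat_lit 0) (.e (nat_lit 393155) (nat_lit 0) .nil) .nil))) 
(.lf (nat_lit 588718) (.g (nat_lit 2558) (.e (nat_lit 532498) (nat_lit 1) (.e (nat_lit 57691) (nat_lit 156) (.e (nat_lit 163875) (nat_lit 3) (.e (nat_lit 204837) (nat_lit 20) (.e (nat_lit 114719) (nat_lit 23) .nil))))) (.g (nat_lit 0) (.e (nat_lit 395199) (nat_lit 0) .nil) .nil)))))) (.nd (nat_lit 7) (.nd (nat_lit 8) (.nd (nat_lit 9) 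
(.lf (nat_lit 587886) (.g (nat_lit 2376) (.e (nat_lit 401454) (nat_lit 12) (.e (nat_lit 475209) (nat_lit 41) (.e (nat_lit 712755) (nat_lit 30) (.e (nat_lit 450563) (nat_lit 0) (.e (nat_lit 5934) (nat_lit 322) (.e (nat_lit 57449) (nat_lit 20) .nil)))))) (.g (nat_lit 1) (.e (nat_lit 392293) (nat_lit 0) .nil) .nil))) 
(.lf (nat_lit 588398) (.g (nat_lit 1253) (.e (nat_lit 500079) (nat_lit 20) (.e (nat_lit 81947) (nat_lit 20) (.e (nat_lit 1842) (nat_lit 123) (.e (nat_lit 548890) (nat_lit 10) .nil)))) (.g (nat_lit 0) (.e (nat_lit 393420) (nat_lit 0) .nil) .nil)))) (.nd (nat_lit 9) 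
(.lf (nat_lit 588142) (.g (nat_lit 2146) (.e (nat_lit 500046) (nat_lit 16) (.e (nat_lit 16416) (nat_lit 3) (.e (nat_lit 204813) (nat_lit 9) (.e (nat_lit 426116) (nat_lit 2) (.e (nat_lit 196656) (nat_lit 11) (.e (nat_lit 16401) (nat_lit 0) (.e (nat_lit 3137) (nat_lit 193) .nil))))))) (.g (nat_lit 1) (.e (nat_lit 393022) (nat_lit 0) .nil) .nil))) 
(.lf (nat_lit 588654) (.g (nat_lit 2558) (.e (nat_lit 532482) (nat_lit 0) (.e (nat_lit 6722) (nat_lit 362) (.e (nat_lit 180250) (nat_lit 10) (.e (nat_lit 573469) (nat_lit 11) (.e (nat_lit 16448) (nat_lit 10) .nil))))) (.g (nat_lit 0) (.e (nat_lit 395084) (nat_lit 0) .nil) .nil))))) (.nd (nat_lit 8) (.nd (nat_lit 9) 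
(.lf (nat_lit 588014) (.g (nat_lit 2621) (.e (nat_lit 401459) (nat_lit 13) (.e (nat_lit 483410) (nat_lit 27) (.e (nat_lit 401437) (nat_lit 9) (.e (nat_lit 426482) (nat_lit 27) (.e (nat_lit 336233) (nat_lit 14) .nil))))) (.g (nat_lit 1) (.e (nat_lit 392652) (nat_lit 0) .nil) .nil))) 
(.lf (nat_lit 588526) (.g (nat_lit 468) (.e (nat_lit 499929) (nat_lit 11) (.e (nat_lit 188452) (nat_lit 23) (.e (nat_lit 204846) (nat_lit 24) .nil))) (.g (nat_lit 0) (.e (nat_lit 394291) (nat_lit 0) .nil) .nil)))) (.nd (nat_lit 9) 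
(.lf (nat_lit 588270) (.g (nat_lit 3979) (.e (nat_lit 500065) (nat_lit 18) (.e (nat_lit 65628) (nat_lit 14) (.e (nat_lit 401428) (nat_lit 3) (.e (nat_lit 204863) (nat_lit 27) (.e (nat_lit 344066) (nat_lit 0) (.e (nat_lit 2508) (nat_lit 157) (.e (nat_lit 3141) (nat_lit 193) .nil))))))) (.g (nat_lit 1) (.e (nat_lit 393244) (nat_lit 0) .nil) .nil))) 
(.lf (nat_lit 588782) (.g (nat_lit 1512) (.e (nat_lit 532499) (nat_lit 1) (.e (nat_lit 57692) (nat_lit 156) (.e (nat_lit 163907) (nat_lit 12) (.e (nat_lit 426491) (nat_lit 27) .nil)))) (.g (nat_lit 0) (.e (nat_lit 395307) (nat_lit 0) .nil) .nil)))))))) (.nd (nat_lit 5) (.nd (nat_lit 6) (.nd (nat_lit 7) (.nd (nat_lit 8) (.nd (nat_lit 9) 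
(.lf (nat_lit 587806) (.g (nat_lit 3259) (.e (nat_lit 401453) (nat_lit 12) (.e (nat_lit 475184) (nat_lit 29) (.e (nat_lit 557109) (nat_lit 15) (.e (nat_lit 188450) (nat_lit 23) (.e (nat_lit 204885) (nat_lit 33) .nil))))) (.g (nat_lit 1) (.e (nat_lit 392170) (nat_lit 0) .nil) .nil))) 
(.lf (nat_lit 588318) (.g (nat_lit 2491) (.e (nat_lit 500073) (nat_lit 19) (.e (nat_lit 73781) (nat_lit 32) (.e (nat_lit 2663) (nat_lit 167) (.e (nat_lit 196670) (nat_lit 14) (.e (nat_lit 81664) (nat_lit 35) .nil))))) (.g (nat_lit 0) (.e (nat_lit 393316) (nat_lit 0) .nil) .nil)))) (.nd (nat_lit 9) 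
(.lf (nat_lit 588062) (.g (nat_lit 2356) (.e (nat_lit 499750) (nat_lit 0) (.e (nat_lit 1353) (nat_lit 102) (.e (nat_lit 286759) (nat_lit 12) (.e (nat_lit 385074) (nat_lit 31) (.e (nat_lit 573485) (nat_lit 13) .nil))))) (.g (nat_lit 0) (.e (nat_lit 392850) (nat_lit 0) .nil) .nil))) 
(.lf (nat_lit 588574) (.g (nat_lit 2238) (.e (nat_lit 507946) (nat_lit 18) (.e (nat_lit 303143) (nat_lit 12) (.e (nat_lit 475185) (nat_lit 29) (.e (nat_lit 557103) (nat_lit 14) .nil)))) (.g (nat_lit 0) (.e (nat_lit 394898) (nat_lit 0) .nil) .nil))))) (.nd (nat_lit 8) (.nd (nat_lit 9) 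
(.lf (nat_lit 587934) (.g (nat_lit 1860) (.e (nat_lit 401457) (nat_lit 13) (.e (nat_lit 483413) (nat_lit 27) (.e (nat_lit 401446) (nat_lit 10) (.e (nat_lit 434203) (nat_lit 18) (.e (nat_lit 6047) (nat_lit 326) .nil))))) (.g (nat_lit 0) (.e (nat_lit 392514) (nat_lit 0) .nil) .nil))) 
(.lf (nat_lit 588446) (.g (nat_lit 1970) (.e (nat_lit 499900) (nat_lit 7) (.e (nat_lit 24604) (nat_lit 2) (.e (nat_lit 90160) (nat_lit 11) (.e (nat_lit 24607) (nat_lit 3) (.e (nat_lit 106240) (nat_lit 10) (.e (nat_lit 344110) (nat_lit 19) .nil)))))) (.g (nat_lit 1) (.e (nat_lit 393699) (nat_lit 0) .nil) .nil)))) (.nd (nat_lit 9) 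
(.lf (nat_lit 588190) (.g (nat_lit 2177) (.e (nat_lit 500048) (nat_lit 16) (.e (nat_lit 16463) (nat_lit 13) (.e (nat_lit 483341) (nat_lit 9) (.e (nat_lit 426108) (nat_lit 1) .nil)))) (.g (nat_lit 0) (.e (nat_lit 393093) (nat_lit 0) .nil) .nil))) 
(.lf (nat_lit 588702) (.g (nat_lit 3504) (.e (nat_lit 532490) (nat_lit 0) (.e (nat_lit 6674) (nat_lit 357) (.e (nat_lit 2940) (nat_lit 184) (.e (nat_lit 426401) (nat_lit 15) (.e (nat_lit 1858) (nat_lit 124) (.e (nat_lit 557101) (nat_lit 13) (.e (nat_lit 172115) (nat_lit 10) (.e (nat_lit 434231) (nat_lit 23) .nil)))))))) (.g (nat_lit 1) (.e (nat_lit 395178) (nat_lit 0) .nil) .nil)))))) 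
(.nd (nat_lit 7) (.nd (nat_lit 8) (.nd (nat_lit 9) 
(.lf (nat_lit 587870) (.g (nat_lit 2645) (.e (nat_lit 401454) (nat_lit 12) (.e (nat_lit 475198) (nat_lit 40) (.e (nat_lit 704592) (nat_lit 4) (.e (nat_lit 172082) (nat_lit 7) (.e (nat_lit 409649) (nat_lit 18) (.e (nat_lit 311040) (nat_lit 35) .nil)))))) (.g (nat_lit 1) (.e (nat_lit 392277) (nat_lit 0) .nil) .nil))) 
(.lf (nat_lit 588382) (.g (nat_lit 1768) (.e (nat_lit 500077) (nat_lit 20) (.e (nat_lit 81922) (nat_lit 0) (.e (nat_lit 3305) (nat_lit 202) (.e (nat_lit 573487) (nat_lit 14) (.e (nat_lit 81664) (nat_lit 35) .nil))))) (.g (nat_lit 0) (.e (nat_lit 393393) (nat_lit 0) .nil) .nil)))) (.nd (nat_lit 9) 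
(.lf (nat_lit 588126) (.g (nat_lit 850) (.e (nat_lit 500045) (nat_lit 16) (.e (nat_lit 16433) (nat_lit 9) (.e (nat_lit 426558) (nat_lit 33) .nil))) (.g (nat_lit 0) (.e (nat_lit 393001) (nat_lit 0) .nil) .nil))) 
(.lf (nat_lit 588638) (.g (nat_lit 3847) (.e (nat_lit 532482) (nat_lit 0) (.e (nat_lit 6203) (nat_lit 332) (.e (nat_lit 2798) (nat_lit 180) (.e (nat_lit 303119) (nat_lit 3) (.e (nat_lit 204863) (nat_lit 27) (.e (nat_lit 344065) (nat_lit 0) (.e (nat_lit 2505) (nat_lit 157) (.e (nat_lit 3249) (nat_lit 197) .nil)))))))) (.g (nat_lit 1) (.e (nat_lit 395060) (nat_lit 0) .nil) .nil))))) 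
(.nd (nat_lit 8) (.nd (nat_lit 9) 
(.lf (nat_lit 587998) (.g (nat_lit 1992) (.e (nat_lit 401459) (nat_lit 13) (.e (nat_lit 483341) (nat_lit 9) (.e (nat_lit 426011) (nat_lit 0) (.e (nat_lit 2399) (nat_lit 157) .nil)))) (.g (nat_lit 0) (.e (nat_lit 392632) (nat_lit 0) .nil) .nil))) 
(.lf (nat_lit 588510) (.g (nat_lit 1849) (.e (nat_lit 499919) (nat_lit 9) (.e (nat_lit 172126) (nat_lit 14) (.e (nat_lit 491537) (nat_lit 2) (.e (nat_lit 90172) (nat_lit 14) .nil)))) (.g (nat_lit 0) (.e (nat_lit 393978) (nat_lit 0) .nil) .nil)))) (.nd (nat_lit 9) 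
(.lf (nat_lit 588254) (.g (nat_lit 2830) (.e (nat_lit 500065) (nat_lit 18) (.e (nat_lit 65622) (nat_lit 12) (.e (nat_lit 385074) (nat_lit 31) (.e (nat_lit 573487) (nat_lit 14) (.e (nat_lit 73780) (nat_lit 32) (.e (nat_lit 2505) (nat_lit 157) (.e (nat_lit 3141) (nat_lit 193) .nil))))))) (.g (nat_lit 1) (.e (nat_lit 393227) (nat_lit 0) .nil) .nil))) 
(.lf (nat_lit 588766) (.g (nat_lit 3773) (.e (nat_lit 532499) (nat_lit 1) (.e (nat_lit 57688) (nat_lit 156) (.e (nat_lit 163907) (nat_lit 12) (.e (nat_lit 426568) (nat_lit 34) (.e (nat_lit 393284) (nat_lit 24) (.e (nat_lit 434233) (nat_lit 23) .nil)))))) (.g (nat_lit 1) (.e (nat_lit 395267) (nat_lit 0) .nil) .nil))))))) (.nd (nat_lit 6) (.nd (nat_lit 7) (.nd (nat_lit 8) (.nd (nat_lit 9) 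
(.lf (nat_lit 587838) (.g (nat_lit 4157) (.e (nat_lit 401454) (nat_lit 12) (.e (nat_lit 475179) (nat_lit 24) (.e (nat_lit 516119) (nat_lit 1) (.e (nat_lit 164347) (nat_lit 240) (.e (nat_lit 2554) (nat_lit 159) (.e (nat_lit 24675) (nat_lit 27) (.e (nat_lit 433920) (nat_lit 35) .nil))))))) (.g (nat_lit 1) (.e (nat_lit 392239) (nat_lit 0) .nil) .nil))) 
(.lf (nat_lit 588350) (.g (nat_lit 3001) (.e (nat_lit 500074) (nat_lit 20) (.e (nat_lit 81956) (nat_lit 23) (.e (nat_lit 98367) (nat_lit 27) (.e (nat_lit 434268) (nat_lit 36) (.e (nat_lit 639005) (nat_lit 13) .nil))))) (.g (nat_lit 0) (.e (nat_lit 393352) (nat_lit 0) .nil) .nil)))) (.nd (nat_lit 9) 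
(.lf (nat_lit 588094) (.g (nat_lit 1555) (.e (nat_lit 499981) (nat_lit 14) (.e (nat_lit 1587) (nat_lit 111) (.e (nat_lit 360474) (nat_lit 8) (.e (nat_lit 557094) (nat_lit 12) (.e (nat_lit 164022) (nat_lit 46) .nil))))) (.g (nat_lit 0) (.e (nat_lit 392946) (nat_lit 0) .nil) .nil))) 
(.lf (nat_lit 588606) (.g (nat_lit 1400) (.e (nat_lit 507921) (nat_lit 6) (.e (nat_lit 286759) (nat_lit 12) (.e (nat_lit 385074) (nat_lit 31) (.e (nat_lit 573491) (nat_lit 15) .nil)))) (.g (nat_lit 0) (.e (nat_lit 394955) (nat_lit 0) .nil) .nil))))) (.nd (nat_lit 8) (.nd (nat_lit 9) 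
(.lf (nat_lit 587966) (.g (nat_lit 748) (.e (nat_lit 401458) (nat_lit 13) (.e (nat_lit 483341) (nat_lit 9) (.e (nat_lit 426009) (nat_lit 0) .nil))) (.g (nat_lit 0) (.e (nat_lit 392566) (nat_lit 0) .nil) .nil))) 
(.lf (nat_lit 588478) (.g (nat_lit 2288) (.e (nat_lit 499914) (nat_lit 9) (.e (nat_lit 172120) (nat_lit 12) (.e (nat_lit 475185) (nat_lit 29) (.e (nat_lit 557105) (nat_lit 14) .nil)))) (.g (nat_lit 0) (.e (nat_lit 393881) (nat_lit 0) .nil) .nil)))) (.nd (nat_lit 9) 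
(.lf (nat_lit 588222) (.g (nat_lit 3820) (.e (nat_lit 500065) (nat_lit 18) (.e (nat_lit 65610) (nat_lit 10) (.e (nat_lit 344117) (nat_lit 21) (.e (nat_lit 516138) (nat_lit 7) (.e (nat_lit 409646) (nat_lit 18) (.e (nat_lit 303112) (nat_lit 0) (.e (nat_lit 3144) (nat_lit 193) .nil))))))) (.g (nat_lit 1) (.e (nat_lit 393184) (nat_lit 0) .nil) .nil))) 
(.lf (nat_lit 588734) (.g (nat_lit 2363) (.e (nat_lit 532499) (nat_lit 1) (.e (nat_lit 57686) (nat_lit 156) (.e (nat_lit 163902) (nat_lit 12) (.e (nat_lit 426568) (nat_lit 34) (.e (nat_lit 393283) (nat_lit 24) (.e (nat_lit 434232) (nat_lit 23) .nil)))))) (.g (nat_lit 1) (.e (nat_lit 395222) (nat_lit 0) .nil) .nil)))))) (.nd (nat_lit 7) (.nd (nat_lit 8) (.nd (nat_lit 9) 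
(.lf (nat_lit 587902) (.g (nat_lit 2350) (.e (nat_lit 401456) (nat_lit 13) (.e (nat_lit 483343) (nat_lit 17) (.e (nat_lit 6720) (nat_lit 361) (.e (nat_lit 172150) (nat_lit 27) (.e (nat_lit 336232) (nat_lit 14) .nil))))) (.g (nat_lit 1) (.e (nat_lit 392370) (nat_lit 0) .nil) .nil))) 
(.lf (nat_lit 588414) (.g (nat_lit 1765) (.e (nat_lit 500090) (nat_lit 22) (.e (nat_lit 131133) (nat_lit 15) (.e (nat_lit 3253) (nat_lit 197) (.e (nat_lit 532563) (nat_lit 15) (.e (nat_lit 385066) (nat_lit 26) .nil))))) (.g (nat_lit 0) (.e (nat_lit 393447) (nat_lit 0) .nil) .nil)))) (.nd (nat_lit 9) 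
(.lf (nat_lit 588158) (.g (nat_lit 1336) (.e (nat_lit 500046) (nat_lit 16) (.e (nat_lit 16433) (nat_lit 9) (.e (nat_lit 426568) (nat_lit 34) (.e (nat_lit 393253) (nat_lit 18) .nil)))) (.g (nat_lit 0) (.e (nat_lit 393039) (nat_lit 0) .nil) .nil))) 
(.lf (nat_lit 588670) (.g (nat_lit 2636) (.e (nat_lit 532482) (nat_lit 0) (.e (nat_lit 6724) (nat_lit 362) (.e (nat_lit 180250) (nat_lit 10) (.e (nat_lit 573451) (nat_lit 9) (.e (nat_lit 430) (nat_lit 32) (.e (nat_lit 426298) (nat_lit 11) (.e (nat_lit 458789) (nat_lit 23) .nil))))))) (.g (nat_lit 1) (.e (nat_lit 395111) (nat_lit 0) .nil) .nil))))) (.nd (nat_lit 8) (.nd (nat_lit 9) 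
(.lf (nat_lit 588030) (.g (nat_lit 3215) (.e (nat_lit 401460) (nat_lit 14) (.e (nat_lit 491550) (nat_lit 9) (.e (nat_lit 336369) (nat_lit 27) (.e (nat_lit 426173) (nat_lit 7) (.e (nat_lit 409649) (nat_lit 18) (.e (nat_lit 311040) (nat_lit 35) .nil)))))) (.g (nat_lit 1) (.e (nat_lit 392684) (nat_lit 0) .nil) .nil))) 
(.lf (nat_lit 588542) (.g (nat_lit 1886) (.e (nat_lit 499930) (nat_lit 11) (.e (nat_lit 188452) (nat_lit 23) (.e (nat_lit 204846) (nat_lit 24) (.e (nat_lit 319533) (nat_lit 16) .nil)))) (.g (nat_lit 0) (.e (nat_lit 394313) (nat_lit 0) .nil) .nil)))) (.nd (nat_lit 9) 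
(.lf (nat_lit 588286) (.g (nat_lit 1942) (.e (nat_lit 500070) (nat_lit 19) (.e (nat_lit 73755) (nat_lit 8) (.e (nat_lit 557098) (nat_lit 13) (.e (nat_lit 172134) (nat_lit 15) .nil)))) (.g (nat_lit 0) (.e (nat_lit 393282) (nat_lit 0) .nil) .nil))) 
(.lf (nat_lit 588798) (.g (nat_lit 1958) (.e (nat_lit 532499) (nat_lit 1) (.e (nat_lit 57847) (nat_lit 252) (.e (nat_lit 57410) (nat_lit 12) (.e (nat_lit 336454) (nat_lit 34) (.e (nat_lit 483404) (nat_lit 26) .nil))))) (.g (nat_lit 0) (.e (nat_lit 395336) (nat_lit 0) .nil) .nil)))))))))))) 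
(.nd (nat_lit 1) (.nd (nat_lit 2) (.nd (nat_lit 3) (.nd (nat_lit 4) (.nd (nat_lit 5) 
(.nd (nat_lit 6) (.nd (nat_lit 7) (.nd (nat_lit 8) (.nd (nat_lit 9) 
(.lf (nat_lit 587777) (.g (nat_lit 2355) (.e (nat_lit 401451) (nat_lit 12) (.e (nat_lit 475185) (nat_lit 29) (.e (nat_lit 557100) (nat_lit 13) (.e (nat_lit 172113) (nat_lit 10) .nil)))) (.g (nat_lit 0) (.e (nat_lit 392116) (nat_lit 0) .nil) .nil))) 
(.lf (nat_lit 588289) (.g (nat_lit 2491) (.e (nat_lit 500070) (nat_lit 19) (.e (nat_lit 73781) (nat_lit 32) (.e (nat_lit 2663) (nat_lit 167) (.e (nat_lit 196670) (nat_lit 14) (.e (nat_lit 81664) (nat_lit 35) .nil))))) (.g (nat_lit 0) (.e (nat_lit 393285) (nat_lit 0) .nil) .nil)))) (.nd (nat_lit 9) 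
(.lf (nat_lit 588033) (.g (nat_lit 2610) (.e (nat_lit 401460) (nat_lit 14) (.e (nat_lit 491570) (nat_lit 13) (.e (nat_lit 393260) (nat_lit 21) (.e (nat_lit 409649) (nat_lit 18) (.e (nat_lit 311040) (nat_lit 35) .nil))))) (.g (nat_lit 1) (.e (nat_lit 392693) (nat_lit 0) .nil) .nil))) 
(.lf (nat_lit 588545) (.g (nat_lit 1638) (.e (nat_lit 499930) (nat_lit 11) (.e (nat_lit 188452) (nat_lit 23) (.e (nat_lit 204885) (nat_lit 33) (.e (nat_lit 401432) (nat_lit 7) .nil)))) (.g (nat_lit 0) (.e (nat_lit 394325) (nat_lit 0) .nil) .nil))))) (.nd (nat_lit 8) (.nd (nat_lit 9) 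
(.lf (nat_lit 587905) (.g (nat_lit 466) (.e (nat_lit 401456) (nat_lit 13) (.e (nat_lit 483346) (nat_lit 17) (.e (nat_lit 6624) (nat_lit 357) .nil))) (.g (nat_lit 0) (.e (nat_lit 392373) (nat_lit 0) .nil) .nil))) 
(.lf (nat_lit 588417) (.g (nat_lit 956) (.e (nat_lit 499825) (nat_lit 5) (.e (nat_lit 3105) (nat_lit 192) (.e (nat_lit 491566) (nat_lit 12) (.e (nat_lit 385073) (nat_lit 31) .nil)))) (.g (nat_lit 0) (.e (nat_lit 393542) (nat_lit 0) .nil) .nil)))) (.nd (nat_lit 9) 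
(.lf (nat_lit 588161) (.g (nat_lit 481) (.e (nat_lit 500046) (nat_lit 16) (.e (nat_lit 16459) (nat_lit 12) (.e (nat_lit 483072) (nat_lit 2) .nil))) (.g (nat_lit 0) (.e (nat_lit 393043) (nat_lit 0) .nil) .nil))) 
(.lf (nat_lit 588673) (.g (nat_lit 3309) (.e (nat_lit 532482) (nat_lit 0) (.e (nat_lit 6724) (nat_lit 362) (.e (nat_lit 180250) (nat_lit 10) (.e (nat_lit 573471) (nat_lit 11) (.e (nat_lit 16447) (nat_lit 10) (.e (nat_lit 434231) (nat_lit 23) .nil)))))) (.g (nat_lit 1) (.e (nat_lit 395118) (nat_lit 0) .nil) .nil)))))) (.nd (nat_lit 7) (.nd (nat_lit 8) (.nd (nat_lit 9) 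
(.lf (nat_lit 587841) (.g (nat_lit 2586) (.e (nat_lit 401454) (nat_lit 12) (.e (nat_lit 475179) (nat_lit 24) (.e (nat_lit 516120) (nat_lit 1) (.e (nat_lit 164332) (nat_lit 230) (.e (nat_lit 163947) (nat_lit 20) .nil))))) (.g (nat_lit 0) (.e (nat_lit 392243) (nat_lit 0) .nil) .nil))) 
(.lf (nat_lit 588353) (.g (nat_lit 3676) (.e (nat_lit 500075) (nat_lit 20) (.e (nat_lit 81953) (nat_lit 22) (.e (nat_lit 90130) (nat_lit 9) (.e (nat_lit 2830) (nat_lit 182) (.e (nat_lit 409648) (nat_lit 18) (.e (nat_lit 303106) (nat_lit 0) (.e (nat_lit 3114) (nat_lit 193) .nil))))))) (.g (nat_lit 1) (.e (nat_lit 393355) (nat_lit 0) .nil) .nil)))) (.nd (nat_lit 9) 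
(.lf (nat_lit 588097) (.g (nat_lit 1391) (.e (nat_lit 499991) (nat_lit 14) (.e (nat_lit 1181) (nat_lit 87) (.e (nat_lit 57692) (nat_lit 156) (.e (nat_lit 163874) (nat_lit 3) .nil)))) (.g (nat_lit 0) (.e (nat_lit 392954) (nat_lit 0) .nil) .nil))) 
(.lf (nat_lit 588609) (.g (nat_lit 2553) (.e (nat_lit 507922) (nat_lit 6) (.e (nat_lit 286759) (nat_lit 12) (.e (nat_lit 385074) (nat_lit 31) (.e (nat_lit 573491) (nat_lit 15) .nil)))) (.g (nat_lit 0) (.e (nat_lit 394958) (nat_lit 0) .nil) .nil))))) (.nd (nat_lit 8) (.nd (nat_lit 9) 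
(.lf (nat_lit 587969) (.g (nat_lit 415) (.e (nat_lit 401458) (nat_lit 13) (.e (nat_lit 483344) (nat_lit 17) (.e (nat_lit 7936) (nat_lit 361) .nil))) (.g (nat_lit 0) (.e (nat_lit 392576) (nat_lit 0) .nil) .nil))) 
(.lf (nat_lit 588481) (.g (nat_lit 2731) (.e (nat_lit 499915) (nat_lit 9) (.e (nat_lit 172120) (nat_lit 12) (.e (nat_lit 475185) (nat_lit 29) (.e (nat_lit 557105) (nat_lit 14) (.e (nat_lit 188160) (nat_lit 35) .nil))))) (.g (nat_lit 0) (.e (nat_lit 393898) (nat_lit 0) .nil) .nil)))) (.nd (nat_lit 9) 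
(.lf (nat_lit 588225) (.g (nat_lit 2460) (.e (nat_lit 500065) (nat_lit 18) (.e (nat_lit 65610) (nat_lit 10) (.e (nat_lit 344117) (nat_lit 21) (.e (nat_lit 516139) (nat_lit 7) (.e (nat_lit 409646) (nat_lit 18) .nil))))) (.g (nat_lit 0) (.e (nat_lit 393187) (nat_lit 0) .nil) .nil))) 
(.lf (nat_lit 588737) (.g (nat_lit 2301) (.e (nat_lit 532499) (nat_lit 1) (.e (nat_lit 57687) (nat_lit 156) (.e (nat_lit 163903) (nat_lit 12) (.e (nat_lit 426568) (nat_lit 34) (.e (nat_lit 393283) (nat_lit 24) .nil))))) (.g (nat_lit 0) (.e (nat_lit 395226) (nat_lit 0) .nil) .nil))))))) (.nd (nat_lit 6) (.nd (nat_lit 7) (.nd (nat_lit 8) (.nd (nat_lit 9) 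
(.lf (nat_lit 587809) (.g (nat_lit 2134) (.e (nat_lit 401453) (nat_lit 12) (.e (nat_lit 475185) (nat_lit 29) (.e (nat_lit 557098) (nat_lit 13) (.e (nat_lit 172114) (nat_lit 10) .nil)))) (.g (nat_lit 0) (.e (nat_lit 392174) (nat_lit 0) .nil) .nil))) 
(.lf (nat_lit 588321) (.g (nat_lit 1590) (.e (nat_lit 507648) (nat_lit 19) (.e (nat_lit 73781) (nat_lit 32) (.e (nat_lit 2664) (nat_lit 167) (.e (nat_lit 196670) (nat_lit 14) (.e (nat_lit 81664) (nat_lit 35) .nil))))) (.g (nat_lit 0) (.e (nat_lit 393321) (nat_lit 0) .nil) .nil)))) (.nd (nat_lit 9) 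
(.lf (nat_lit 588065) (.g (nat_lit 1891) (.e (nat_lit 499755) (nat_lit 0) (.e (nat_lit 1348) (nat_lit 102) (.e (nat_lit 286759) (nat_lit 12) (.e (nat_lit 385074) (nat_lit 31) (.e (nat_lit 573485) (nat_lit 13) .nil))))) (.g (nat_lit 0) (.e (nat_lit 392876) (nat_lit 0) .nil) .nil))) 
(.lf (nat_lit 588577) (.g (nat_lit 4329) (.e (nat_lit 507946) (nat_lit 18) (.e (nat_lit 303146) (nat_lit 14) (.e (nat_lit 491537) (nat_lit 2) (.e (nat_lit 90170) (nat_lit 13) (.e (nat_lit 172113) (nat_lit 10) (.e (nat_lit 434227) (nat_lit 20) .nil)))))) (.g (nat_lit 1) (.e (nat_lit 394913) (nat_lit 0) .nil) .nil))))) (.nd (nat_lit 8) (.nd (nat_lit 9) 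
(.lf (nat_lit 587937) (.g (nat_lit 2240) (.e (nat_lit 401457) (nat_lit 13) (.e (nat_lit 483413) (nat_lit 27) (.e (nat_lit 401447) (nat_lit 10) (.e (nat_lit 434202) (nat_lit 18) .nil)))) (.g (nat_lit 0) (.e (nat_lit 392523) (nat_lit 0) .nil) .nil))) 
(.lf (nat_lit 588449) (.g (nat_lit 2057) (.e (nat_lit 499900) (nat_lit 7) (.e (nat_lit 24608) (nat_lit 3) (.e (nat_lit 98313) (nat_lit 9) (.e (nat_lit 336021) (nat_lit 3) (.e (nat_lit 106240) (nat_lit 10) (.e (nat_lit 344110) (nat_lit 19) .nil)))))) (.g (nat_lit 1) (.e (nat_lit 393702) (nat_lit 0) .nil) .nil)))) (.nd (nat_lit 9) 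
(.lf (nat_lit 588193) (.g (nat_lit 1290) (.e (nat_lit 507648) (nat_lit 16) (.e (nat_lit 16433) (nat_lit 9) (.e (nat_lit 426558) (nat_lit 33) (.e (nat_lit 392960) (nat_lit 5) .nil)))) (.g (nat_lit 0) (.e (nat_lit 393102) (nat_lit 0) .nil) .nil))) 
(.lf (nat_lit 588705) (.g (nat_lit 5006) (.e (nat_lit 532490) (nat_lit 0) (.e (nat_lit 6680) (nat_lit 357) (.e (nat_lit 3067) (nat_lit 190) (.e (nat_lit 475185) (nat_lit 29) (.e (nat_lit 557100) (nat_lit 13) (.e (nat_lit 172106) (nat_lit 10) (.e (nat_lit 434231) (nat_lit 23) .nil))))))) (.g (nat_lit 1) (.e (nat_lit 395181) (nat_lit 0) .nil) .nil)))))) 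
(.nd (nat_lit 7) (.nd (nat_lit 8) (.nd (nat_lit 9) 
(.lf (nat_lit 587873) (.g (nat_lit 3035) (.e (nat_lit 401454) (nat_lit 12) (.e (nat_lit 475198) (nat_lit 40) (.e (nat_lit 704595) (nat_lit 5) (.e (nat_lit 180284) (nat_lit 45) (.e (nat_lit 2797) (nat_lit 180) (.e (nat_lit 311040) (nat_lit 35) .nil)))))) (.g (nat_lit 1) (.e (nat_lit 392280) (nat_lit 0) .nil) .nil))) 
(.lf (nat_lit 588385) (.g (nat_lit 1316) (.e (nat_lit 500077) (nat_lit 20) (.e (nat_lit 81948) (nat_lit 21) (.e (nat_lit 57686) (nat_lit 156) (.e (nat_lit 163884) (nat_lit 5) (.e (nat_lit 229120) (nat_lit 17) .nil))))) (.g (nat_lit 0) (.e (nat_lit 393398) (nat_lit 0) .nil) .nil)))) (.nd (nat_lit 9) 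
(.lf (nat_lit 588129) (.g (nat_lit 1511) (.e (nat_lit 500046) (nat_lit 16) (.e (nat_lit 16412) (nat_lit 2) (.e (nat_lit 196654) (nat_lit 11) (.e (nat_lit 16412) (nat_lit 2) .nil)))) (.g (nat_lit 0) (.e (nat_lit 393007) (nat_lit 0) .nil) .nil))) 
(.lf (nat_lit 588641) (.g (nat_lit 2373) (.e (nat_lit 532482) (nat_lit 0) (.e (nat_lit 6203) (nat_lit 332) (.e (nat_lit 2798) (nat_lit 180) (.e (nat_lit 303119) (nat_lit 3) (.e (nat_lit 204872) (nat_lit 30) .nil))))) (.g (nat_lit 0) (.e (nat_lit 395063) (nat_lit 0) .nil) .nil))))) (.nd (nat_lit 8) (.nd (nat_lit 9) 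
(.lf (nat_lit 588001) (.g (nat_lit 1051) (.e (nat_lit 401459) (nat_lit 13) (.e (nat_lit 483372) (nat_lit 21) (.e (nat_lit 319501) (nat_lit 10) .nil))) (.g (nat_lit 0) (.e (nat_lit 392639) (nat_lit 0) .nil) .nil))) 
(.lf (nat_lit 588513) (.g (nat_lit 1928) (.e (nat_lit 499919) (nat_lit 9) (.e (nat_lit 172138) (nat_lit 15) (.e (nat_lit 2059) (nat_lit 142) (.e (nat_lit 704589) (nat_lit 3) (.e (nat_lit 163975) (nat_lit 30) .nil))))) (.g (nat_lit 0) (.e (nat_lit 393985) (nat_lit 0) .nil) .nil)))) (.nd (nat_lit 9) 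
(.lf (nat_lit 588257) (.g (nat_lit 2810) (.e (nat_lit 500065) (nat_lit 18) (.e (nat_lit 65622) (nat_lit 12) (.e (nat_lit 385074) (nat_lit 31) (.e (nat_lit 573489) (nat_lit 14) (.e (nat_lit 73780) (nat_lit 32) .nil))))) (.g (nat_lit 0) (.e (nat_lit 393230) (nat_lit 0) .nil) .nil))) 
(.lf (nat_lit 588769) (.g (nat_lit 1961) (.e (nat_lit 532499) (nat_lit 1) (.e (nat_lit 57691) (nat_lit 156) (.e (nat_lit 163875) (nat_lit 3) (.e (nat_lit 204834) (nat_lit 19) .nil)))) (.g (nat_lit 0) (.e (nat_lit 395280) (nat_lit 0) .nil) .nil)))))))) (.nd (nat_lit 5) (.nd (nat_lit 6) (.nd (nat_lit 7) (.nd (nat_lit 8) (.nd (nat_lit 9) 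
(.lf (nat_lit 587793) (.g (nat_lit 2476) (.e (nat_lit 401452) (nat_lit 12) (.e (nat_lit 475185) (nat_lit 29) (.e (nat_lit 557108) (nat_lit 15) (.e (nat_lit 188452) (nat_lit 23) (.e (nat_lit 204884) (nat_lit 33) .nil))))) (.g (nat_lit 1) (.e (nat_lit 392151) (nat_lit 0) .nil) .nil))) 
(.lf (nat_lit 588305) (.g (nat_lit 1714) (.e (nat_lit 500071) (nat_lit 19) (.e (nat_lit 73782) (nat_lit 32) (.e (nat_lit 2682) (nat_lit 168) (.e (nat_lit 204863) (nat_lit 27) (.e (nat_lit 352000) (nat_lit 3) .nil))))) (.g (nat_lit 0) (.e (nat_lit 393302) (nat_lit 0) .nil) .nil)))) (.nd (nat_lit 9) 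
(.lf (nat_lit 588049) (.g (nat_lit 2432) (.e (nat_lit 499727) (nat_lit 0) (.e (nat_lit 2777) (nat_lit 178) (.e (nat_lit 286761) (nat_lit 13) (.e (nat_lit 393225) (nat_lit 9) (.e (nat_lit 335995) (nat_lit 1) .nil))))) (.g (nat_lit 0) (.e (nat_lit 392823) (nat_lit 0) .nil) .nil))) 
(.lf (nat_lit 588561) (.g (nat_lit 2554) (.e (nat_lit 507944) (nat_lit 18) (.e (nat_lit 303143) (nat_lit 12) (.e (nat_lit 475185) (nat_lit 29) (.e (nat_lit 557098) (nat_lit 13) .nil)))) (.g (nat_lit 0) (.e (nat_lit 394666) (nat_lit 0) .nil) .nil))))) (.nd (nat_lit 8) (.nd (nat_lit 9) 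
(.lf (nat_lit 587921) (.g (nat_lit 1881) (.e (nat_lit 401456) (nat_lit 13) (.e (nat_lit 483413) (nat_lit 27) (.e (nat_lit 401448) (nat_lit 10) (.e (nat_lit 434203) (nat_lit 18) .nil)))) (.g (nat_lit 0) (.e (nat_lit 392459) (nat_lit 0) .nil) .nil))) 
(.lf (nat_lit 588433) (.g (nat_lit 2758) (.e (nat_lit 499839) (nat_lit 5) (.e (nat_lit 3017) (nat_lit 187) (.e (nat_lit 450588) (nat_lit 10) (.e (nat_lit 573475) (nat_lit 12) (.e (nat_lit 57574) (nat_lit 55) .nil))))) (.g (nat_lit 0) (.e (nat_lit 393624) (nat_lit 0) .nil) .nil)))) (.nd (nat_lit 9) 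
(.lf (nat_lit 588177) (.g (nat_lit 1460) (.e (nat_lit 500046) (nat_lit 16) (.e (nat_lit 16473) (nat_lit 14) (.e (nat_lit 491579) (nat_lit 27) .nil))) (.g (nat_lit 0) (.e (nat_lit 393063) (nat_lit 0) .nil) .nil))) 
(.lf (nat_lit 588689) (.g (nat_lit 3153) (.e (nat_lit 532486) (nat_lit 0) (.e (nat_lit 6113) (nat_lit 332) (.e (nat_lit 1374) (nat_lit 104) (.e (nat_lit 303118) (nat_lit 3) (.e (nat_lit 204885) (nat_lit 33) .nil))))) (.g (nat_lit 0) (.e (nat_lit 395144) (nat_lit 0) .nil) .nil)))))) (.nd (nat_lit 7) (.nd (nat_lit 8) (.nd (nat_lit 9) 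
(.lf (nat_lit 587857) (.g (nat_lit 4307) (.e (nat_lit 401454) (nat_lit 12) (.e (nat_lit 475185) (nat_lit 29) (.e (nat_lit 557101) (nat_lit 13) (.e (nat_lit 172115) (nat_lit 10) (.e (nat_lit 434231) (nat_lit 23) (.e (nat_lit 532568) (nat_lit 16) .nil)))))) (.g (nat_lit 1) (.e (nat_lit 392262) (nat_lit 0) .nil) .nil))) 
(.lf (nat_lit 588369) (.g (nat_lit 2421) (.e (nat_lit 500075) (nat_lit 20) (.e (nat_lit 81956) (nat_lit 23) (.e (nat_lit 98349) (nat_lit 24) (.e (nat_lit 409644) (nat_lit 18) (.e (nat_lit 303106) (nat_lit 0) .nil))))) (.g (nat_lit 0) (.e (nat_lit 393372) (nat_lit 0) .nil) .nil)))) (.nd (nat_lit 9) 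
(.lf (nat_lit 588113) (.g (nat_lit 4308) (.e (nat_lit 499991) (nat_lit 14) (.e (nat_lit 1673) (nat_lit 116) (.e (nat_lit 401448) (nat_lit 10) (.e (nat_lit 434238) (nat_lit 25) (.e (nat_lit 548898) (nat_lit 14) (.e (nat_lit 3022) (nat_lit 187) (.e (nat_lit 450575) (nat_lit 1) .nil))))))) (.g (nat_lit 1) (.e (nat_lit 392975) (nat_lit 0) .nil) .nil))) 
(.lf (nat_lit 588625) (.g (nat_lit 3242) (.e (nat_lit 532481) (nat_lit 0) (.e (nat_lit 6724) (nat_lit 362) (.e (nat_lit 180251) (nat_lit 10) (.e (nat_lit 573469) (nat_lit 11) (.e (nat_lit 16452) (nat_lit 11) (.e (nat_lit 458789) (nat_lit 23) .nil)))))) (.g (nat_lit 1) (.e (nat_lit 395035) (nat_lit 0) .nil) .nil))))) (.nd (nat_lit 8) (.nd (nat_lit 9) 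
(.lf (nat_lit 587985) (.g (nat_lit 1155) (.e (nat_lit 401458) (nat_lit 13) (.e (nat_lit 483372) (nat_lit 21) (.e (nat_lit 319505) (nat_lit 10) (.e (nat_lit 5712) (nat_lit 312) .nil)))) (.g (nat_lit 0) (.e (nat_lit 392610) (nat_lit 0) .nil) .nil))) 
(.lf (nat_lit 588497) (.g (nat_lit 1964) (.e (nat_lit 499919) (nat_lit 9) (.e (nat_lit 172106) (nat_lit 10) (.e (nat_lit 434231) (nat_lit 23) (.e (nat_lit 532522) (nat_lit 7) .nil)))) (.g (nat_lit 0) (.e (nat_lit 393956) (nat_lit 0) .nil) .nil)))) (.nd (nat_lit 9) 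
(.lf (nat_lit 588241) (.g (nat_lit 2752) (.e (nat_lit 500065) (nat_lit 18) (.e (nat_lit 65617) (nat_lit 10) (.e (nat_lit 344132) (nat_lit 26) (.e (nat_lit 557093) (nat_lit 12) (.e (nat_lit 164023) (nat_lit 46) (.e (nat_lit 704629) (nat_lit 9) (.e (nat_lit 442) (nat_lit 33) (.e (nat_lit 434223) (nat_lit 19) .nil)))))))) (.g (nat_lit 1) (.e (nat_lit 393203) (nat_lit 0) .nil) .nil))) 
(.lf (nat_lit 588753) (.g (nat_lit 1799) (.e (nat_lit 532499) (nat_lit 1) (.e (nat_lit 57688) (nat_lit 156) (.e (nat_lit 163903) (nat_lit 12) (.e (nat_lit 426567) (nat_lit 34) (.e (nat_lit 393283) (nat_lit 24) .nil))))) (.g (nat_lit 0) (.e (nat_lit 395251) (nat_lit 0) .nil) .nil))))))) (.nd (nat_lit 6) (.nd (nat_lit 7) (.nd (nat_lit 8) (.nd (nat_lit 9) 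
(.lf (nat_lit 587825) (.g (nat_lit 1272) (.e (nat_lit 401454) (nat_lit 12) (.e (nat_lit 483072) (nat_lit 26) (.e (nat_lit 532560) (nat_lit 14) (.e (nat_lit 376838) (nat_lit 11) (.e (nat_lit 433920) (nat_lit 35) .nil))))) (.g (nat_lit 1) (.e (nat_lit 392224) (nat_lit 0) .nil) .nil))) 
(.lf (nat_lit 588337) (.g (nat_lit 556) (.e (nat_lit 500074) (nat_lit 20) (.e (nat_lit 81956) (nat_lit 23) (.e (nat_lit 98325) (nat_lit 17) .nil))) (.g (nat_lit 0) (.e (nat_lit 393337) (nat_lit 0) .nil) .nil)))) (.nd (nat_lit 9) 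
(.lf (nat_lit 588081) (.g (nat_lit 2229) (.e (nat_lit 499952) (nat_lit 14) (.e (nat_lit 1673) (nat_lit 116) (.e (nat_lit 401448) (nat_lit 10) (.e (nat_lit 434227) (nat_lit 20) (.e (nat_lit 507930) (nat_lit 10) .nil))))) (.g (nat_lit 0) (.e (nat_lit 392917) (nat_lit 0) .nil) .nil))) 
(.lf (nat_lit 588593) (.g (nat_lit 2973) (.e (nat_lit 507907) (nat_lit 0) (.e (nat_lit 5412) (nat_lit 303) (.e (nat_lit 73739) (nat_lit 1) (.e (nat_lit 499847) (nat_lit 5) (.e (nat_lit 3102) (nat_lit 192) (.e (nat_lit 491560) (nat_lit 10) (.e (nat_lit 344115) (nat_lit 20) .nil))))))) (.g (nat_lit 1) (.e (nat_lit 394937) (nat_lit 0) .nil) .nil))))) (.nd (nat_lit 8) (.nd (nat_lit 9) 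
(.lf (nat_lit 587953) (.g (nat_lit 2659) (.e (nat_lit 401457) (nat_lit 13) (.e (nat_lit 483413) (nat_lit 27) (.e (nat_lit 401448) (nat_lit 10) (.e (nat_lit 434202) (nat_lit 18) (.e (nat_lit 6065) (nat_lit 328) .nil))))) (.g (nat_lit 0) (.e (nat_lit 392544) (nat_lit 0) .nil) .nil))) 
(.lf (nat_lit 588465) (.g (nat_lit 2541) (.e (nat_lit 499910) (nat_lit 8) (.e (nat_lit 164021) (nat_lit 46) (.e (nat_lit 704588) (nat_lit 3) (.e (nat_lit 163962) (nat_lit 25) (.e (nat_lit 532544) (nat_lit 10) (.e (nat_lit 344130) (nat_lit 26) (.e (nat_lit 557104) (nat_lit 14) (.e (nat_lit 188160) (nat_lit 1) .nil)))))))) (.g (nat_lit 1) (.e (nat_lit 393780) (nat_lit 0) .nil) .nil)))) 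
(.nd (nat_lit 9) 
(.lf (nat_lit 588209) (.g (nat_lit 2816) (.e (nat_lit 500062) (nat_lit 18) (.e (nat_lit 65623) (nat_lit 12) (.e (nat_lit 385074) (nat_lit 31) (.e (nat_lit 573487) (nat_lit 14) (.e (nat_lit 81664) (nat_lit 35) .nil))))) (.g (nat_lit 0) (.e (nat_lit 393159) (nat_lit 0) .nil) .nil))) 
(.lf (nat_lit 588721) (.g (nat_lit 1980) (.e (nat_lit 532498) (nat_lit 1) (.e (nat_lit 57691) (nat_lit 156) (.e (nat_lit 163905) (nat_lit 12) (.e (nat_lit 426568) (nat_lit 34) (.e (nat_lit 393283) (nat_lit 24) .nil))))) (.g (nat_lit 0) (.e (nat_lit 395203) (nat_lit 0) .nil) .nil)))))) (.nd (nat_lit 7) (.nd (nat_lit 8) (.nd (nat_lit 9) 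
(.lf (nat_lit 587889) (.g (nat_lit 2104) (.e (nat_lit 401454) (nat_lit 12) (.e (nat_lit 475209) (nat_lit 41) (.e (nat_lit 712757) (nat_lit 32) (.e (nat_lit 466972) (nat_lit 21) (.e (nat_lit 164403) (nat_lit 256) (.e (nat_lit 57450) (nat_lit 20) .nil)))))) (.g (nat_lit 1) (.e (nat_lit 392296) (nat_lit 0) .nil) .nil))) 
(.lf (nat_lit 588401) (.g (nat_lit 845) (.e (nat_lit 500079) (nat_lit 20) (.e (nat_lit 81956) (nat_lit 23) (.e (nat_lit 98389) (nat_lit 33) .nil))) (.g (nat_lit 0) (.e (nat_lit 393423) (nat_lit 0) .nil) .nil)))) (.nd (nat_lit 9) 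
(.lf (nat_lit 588145) (.g (nat_lit 3096) (.e (nat_lit 500046) (nat_lit 16) (.e (nat_lit 16416) (nat_lit 3) (.e (nat_lit 204813) (nat_lit 9) (.e (nat_lit 426124) (nat_lit 2) (.e (nat_lit 196624) (nat_lit 9) (.e (nat_lit 473) (nat_lit 36) (.e (nat_lit 458782) (nat_lit 19) .nil))))))) (.g (nat_lit 1) (.e (nat_lit 393025) (nat_lit 0) .nil) .nil))) 
(.lf (nat_lit 588657) (.g (nat_lit 330) (.e (nat_lit 532482) (nat_lit 0) (.e (nat_lit 6722) (nat_lit 362) (.e (nat_lit 180252) (nat_lit 10) .nil))) (.g (nat_lit 0) (.e (nat_lit 395088) (nat_lit 0) .nil) .nil))))) (.nd (nat_lit 8) (.nd (nat_lit 9) 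
(.lf (nat_lit 588017) (.g (nat_lit 2450) (.e (nat_lit 401459) (nat_lit 13) (.e (nat_lit 483410) (nat_lit 27) (.e (nat_lit 401457) (nat_lit 13) (.e (nat_lit 491264) (nat_lit 27) .nil)))) (.g (nat_lit 1) (.e (nat_lit 392655) (nat_lit 0) .nil) .nil))) 
(.lf (nat_lit 588529) (.g (nat_lit 2435) (.e (nat_lit 499929) (nat_lit 11) (.e (nat_lit 188452) (nat_lit 23) (.e (nat_lit 204846) (nat_lit 24) (.e (nat_lit 319505) (nat_lit 10) .nil)))) (.g (nat_lit 0) (.e (nat_lit 394294) (nat_lit 0) .nil) .nil)))) (.nd (nat_lit 9) 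
(.lf (nat_lit 588273) (.g (nat_lit 3198) (.e (nat_lit 500065) (nat_lit 18) (.e (nat_lit 65630) (nat_lit 14) (.e (nat_lit 401425) (nat_lit 2) (.e (nat_lit 196666) (nat_lit 13) (.e (nat_lit 65630) (nat_lit 14) (.e (nat_lit 401412) (nat_lit 0) (.e (nat_lit 3107) (nat_lit 193) .nil))))))) (.g (nat_lit 1) (.e (nat_lit 393248) (nat_lit 0) .nil) .nil))) 
(.lf (nat_lit 588785) (.g (nat_lit 2194) (.e (nat_lit 532499) (nat_lit 1) (.e (nat_lit 57692) (nat_lit 156) (.e (nat_lit 163907) (nat_lit 12) (.e (nat_lit 426568) (nat_lit 34) (.e (nat_lit 393284) (nat_lit 24) (.e (nat_lit 434233) (nat_lit 23) .nil)))))) (.g (nat_lit 1) (.e (nat_lit 395312) (nat_lit 0) .nil) .nil))))))))) 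
(.nd (nat_lit 4) (.nd (nat_lit 5) (.nd (nat_lit 6) (.nd (nat_lit 7) (.nd (nat_lit 8) 
(.nd (nat_lit 9) 
(.lf (nat_lit 587785) (.g (nat_lit 3129) (.e (nat_lit 401451) (nat_lit 12) (.e (nat_lit 475185) (nat_lit 29) (.e (nat_lit 557109) (nat_lit 15) (.e (nat_lit 188452) (nat_lit 23) (.e (nat_lit 204883) (nat_lit 33) .nil))))) (.g (nat_lit 1) (.e (nat_lit 392124) (nat_lit 0) .nil) .nil))) 
(.lf (nat_lit 588297) (.g (nat_lit 2683) (.e (nat_lit 500071) (nat_lit 19) (.e (nat_lit 73754) (nat_lit 8) (.e (nat_lit 557100) (nat_lit 13) (.e (nat_lit 172138) (nat_lit 15) (.e (nat_lit 7936) (nat_lit 121) .nil))))) (.g (nat_lit 0) (.e (nat_lit 393294) (nat_lit 0) .nil) .nil)))) (.nd (nat_lit 9) 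
(.lf (nat_lit 588041) (.g (nat_lit 940) (.e (nat_lit 409344) (nat_lit 30) (.e (nat_lit 360477) (nat_lit 11) (.e (nat_lit 581653) (nat_lit 6) (.e (nat_lit 196352) (nat_lit 19) .nil)))) (.g (nat_lit 0) (.e (nat_lit 392811) (nat_lit 0) .nil) .nil))) 
(.lf (nat_lit 588553) (.g (nat_lit 2998) (.e (nat_lit 507930) (nat_lit 10) (.e (nat_lit 5776) (nat_lit 317) (.e (nat_lit 180244) (nat_lit 5) (.e (nat_lit 532569) (nat_lit 16) (.e (nat_lit 401448) (nat_lit 10) (.e (nat_lit 434226) (nat_lit 20) .nil)))))) (.g (nat_lit 1) (.e (nat_lit 394602) (nat_lit 0) .nil) .nil))))) (.nd (nat_lit 8) (.nd (nat_lit 9) 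
(.lf (nat_lit 587913) (.g (nat_lit 1813) (.e (nat_lit 401456) (nat_lit 13) (.e (nat_lit 483383) (nat_lit 23) (.e (nat_lit 336306) (nat_lit 15) (.e (nat_lit 3735) (nat_lit 228) .nil)))) (.g (nat_lit 0) (.e (nat_lit 392415) (nat_lit 0) .nil) .nil))) 
(.lf (nat_lit 588425) (.g (nat_lit 2553) (.e (nat_lit 499828) (nat_lit 5) (.e (nat_lit 3098) (nat_lit 192) (.e (nat_lit 491566) (nat_lit 12) (.e (nat_lit 385074) (nat_lit 31) (.e (nat_lit 573482) (nat_lit 13) .nil))))) (.g (nat_lit 0) (.e (nat_lit 393595) (nat_lit 0) .nil) .nil)))) (.nd (nat_lit 9) 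
(.lf (nat_lit 588169) (.g (nat_lit 477) (.e (nat_lit 500046) (nat_lit 16) (.e (nat_lit 16465) (nat_lit 13) (.e (nat_lit 491264) (nat_lit 7) .nil))) (.g (nat_lit 0) (.e (nat_lit 393052) (nat_lit 0) .nil) .nil))) 
(.lf (nat_lit 588681) (.g (nat_lit 3914) (.e (nat_lit 532482) (nat_lit 0) (.e (nat_lit 6724) (nat_lit 362) (.e (nat_lit 180252) (nat_lit 10) (.e (nat_lit 573471) (nat_lit 11) (.e (nat_lit 16448) (nat_lit 10) (.e (nat_lit 434231) (nat_lit 23) .nil)))))) (.g (nat_lit 1) (.e (nat_lit 395131) (nat_lit 0) .nil) .nil)))))) (.nd (nat_lit 7) (.nd (nat_lit 8) (.nd (nat_lit 9) 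
(.lf (nat_lit 587849) (.g (nat_lit 4057) (.e (nat_lit 401454) (nat_lit 12) (.e (nat_lit 475183) (nat_lit 29) (.e (nat_lit 557108) (nat_lit 15) (.e (nat_lit 188452) (nat_lit 23) (.e (nat_lit 204884) (nat_lit 33) .nil))))) (.g (nat_lit 1) (.e (nat_lit 392253) (nat_lit 0) .nil) .nil))) 
(.lf (nat_lit 588361) (.g (nat_lit 2072) (.e (nat_lit 500075) (nat_lit 20) (.e (nat_lit 81954) (nat_lit 23) (.e (nat_lit 98350) (nat_lit 24) (.e (nat_lit 409643) (nat_lit 18) .nil)))) (.g (nat_lit 0) (.e (nat_lit 393363) (nat_lit 0) .nil) .nil)))) (.nd (nat_lit 9) 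
(.lf (nat_lit 588105) (.g (nat_lit 1216) (.e (nat_lit 499991) (nat_lit 14) (.e (nat_lit 1671) (nat_lit 116) (.e (nat_lit 401448) (nat_lit 10) (.e (nat_lit 434231) (nat_lit 23) .nil)))) (.g (nat_lit 0) (.e (nat_lit 392966) (nat_lit 0) .nil) .nil))) 
(.lf (nat_lit 588617) (.g (nat_lit 2476) (.e (nat_lit 532481) (nat_lit 0) (.e (nat_lit 6203) (nat_lit 332) (.e (nat_lit 2798) (nat_lit 180) (.e (nat_lit 303117) (nat_lit 2) (.e (nat_lit 196668) (nat_lit 14) (.e (nat_lit 81664) (nat_lit 35) (.e (nat_lit 163962) (nat_lit 25) .nil))))))) (.g (nat_lit 1) (.e (nat_lit 395004) (nat_lit 0) .nil) .nil))))) (.nd (nat_lit 8) (.nd (nat_lit 9) 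
(.lf (nat_lit 587977) (.g (nat_lit 2001) (.e (nat_lit 401458) (nat_lit 13) (.e (nat_lit 483350) (nat_lit 17) (.e (nat_lit 6666) (nat_lit 357) (.e (nat_lit 3090) (nat_lit 191) (.e (nat_lit 491264) (nat_lit 27) .nil))))) (.g (nat_lit 1) (.e (nat_lit 392591) (nat_lit 0) .nil) .nil))) 
(.lf (nat_lit 588489) (.g (nat_lit 2126) (.e (nat_lit 499918) (nat_lit 9) (.e (nat_lit 172113) (nat_lit 10) (.e (nat_lit 434245) (nat_lit 28) (.e (nat_lit 573474) (nat_lit 12) (.e (nat_lit 57574) (nat_lit 55) .nil))))) (.g (nat_lit 0) (.e (nat_lit 393937) (nat_lit 0) .nil) .nil)))) (.nd (nat_lit 9) 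
(.lf (nat_lit 588233) (.g (nat_lit 2243) (.e (nat_lit 500065) (nat_lit 18) (.e (nat_lit 65617) (nat_lit 10) (.e (nat_lit 344130) (nat_lit 26) (.e (nat_lit 557090) (nat_lit 12) (.e (nat_lit 164022) (nat_lit 46) (.e (nat_lit 704738) (nat_lit 11) (.e (nat_lit 16397) (nat_lit 0) (.e (nat_lit 3147) (nat_lit 193) .nil)))))))) (.g (nat_lit 1) (.e (nat_lit 393195) (nat_lit 0) .nil) .nil))) 
(.lf (nat_lit 588745) (.g (nat_lit 3406) (.e (nat_lit 532499) (nat_lit 1) (.e (nat_lit 57688) (nat_lit 156) (.e (nat_lit 163875) (nat_lit 3) (.e (nat_lit 204837) (nat_lit 20) (.e (nat_lit 114718) (nat_lit 23) (.e (nat_lit 98367) (nat_lit 27) (.e (nat_lit 434234) (nat_lit 23) .nil))))))) (.g (nat_lit 1) (.e (nat_lit 395239) (nat_lit 0) .nil) .nil))))))) 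
(.nd (nat_lit 6) (.nd (nat_lit 7) (.nd (nat_lit 8) (.nd (nat_lit 9) 
(.lf (nat_lit 587817) (.g (nat_lit 1524) (.e (nat_lit 401453) (nat_lit 12) (.e (nat_lit 475207) (nat_lit 41) (.e (nat_lit 712755) (nat_lit 30) (.e (nat_lit 450563) (nat_lit 0) (.e (nat_lit 4778) (nat_lit 281) .nil))))) (.g (nat_lit 0) (.e (nat_lit 392189) (nat_lit 0) .nil) .nil))) 
(.lf (nat_lit 588329) (.g (nat_lit 2670) (.e (nat_lit 500074) (nat_lit 20) (.e (nat_lit 81954) (nat_lit 23) (.e (nat_lit 98349) (nat_lit 24) (.e (nat_lit 409646) (nat_lit 18) (.e (nat_lit 303106) (nat_lit 0) .nil))))) (.g (nat_lit 0) (.e (nat_lit 393329) (nat_lit 0) .nil) .nil)))) (.nd (nat_lit 9) 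
(.lf (nat_lit 588073) (.g (nat_lit 2124) (.e (nat_lit 499780) (nat_lit 1) (.e (nat_lit 57811) (nat_lit 246) (.e (nat_lit 57883) (nat_lit 270) (.e (nat_lit 496) (nat_lit 39) (.e (nat_lit 483406) (nat_lit 26) (.e (nat_lit 385057) (nat_lit 22) .nil)))))) (.g (nat_lit 1) (.e (nat_lit 392903) (nat_lit 0) .nil) .nil))) 
(.lf (nat_lit 588585) (.g (nat_lit 3019) (.e (nat_lit 507906) (nat_lit 0) (.e (nat_lit 5412) (nat_lit 303) (.e (nat_lit 73739) (nat_lit 1) (.e (nat_lit 499811) (nat_lit 5) (.e (nat_lit 3102) (nat_lit 192) (.e (nat_lit 491560) (nat_lit 10) (.e (nat_lit 344115) (nat_lit 20) .nil))))))) (.g (nat_lit 1) (.e (nat_lit 394928) (nat_lit 0) .nil) .nil))))) (.nd (nat_lit 8) (.nd (nat_lit 9) 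
(.lf (nat_lit 587945) (.g (nat_lit 2822) (.e (nat_lit 401457) (nat_lit 13) (.e (nat_lit 483413) (nat_lit 27) (.e (nat_lit 401447) (nat_lit 10) (.e (nat_lit 434208) (nat_lit 18) (.e (nat_lit 6065) (nat_lit 328) .nil))))) (.g (nat_lit 0) (.e (nat_lit 392534) (nat_lit 0) .nil) .nil))) 
(.lf (nat_lit 588457) (.g (nat_lit 1942) (.e (nat_lit 499900) (nat_lit 7) (.e (nat_lit 24658) (nat_lit 13) (.e (nat_lit 393229) (nat_lit 9) (.e (nat_lit 335996) (nat_lit 1) (.e (nat_lit 57851) (nat_lit 252) .nil))))) (.g (nat_lit 0) (.e (nat_lit 393733) (nat_lit 0) .nil) .nil)))) (.nd (nat_lit 9) 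
(.lf (nat_lit 588201) (.g (nat_lit 2002) (.e (nat_lit 500060) (nat_lit 18) (.e (nat_lit 65630) (nat_lit 14) (.e (nat_lit 401425) (nat_lit 2) (.e (nat_lit 196666) (nat_lit 13) (.e (nat_lit 65628) (nat_lit 14) (.e (nat_lit 401412) (nat_lit 0) (.e (nat_lit 3133) (nat_lit 193) .nil))))))) (.g (nat_lit 1) (.e (nat_lit 393148) (nat_lit 0) .nil) .nil))) 
(.lf (nat_lit 588713) (.g (nat_lit 1717) (.e (nat_lit 532498) (nat_lit 1) (.e (nat_lit 57688) (nat_lit 156) (.e (nat_lit 163903) (nat_lit 12) (.e (nat_lit 426568) (nat_lit 34) .nil)))) (.g (nat_lit 0) (.e (nat_lit 395191) (nat_lit 0) .nil) .nil)))))) (.nd (nat_lit 7) (.nd (nat_lit 8) (.nd (nat_lit 9) 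
(.lf (nat_lit 587881) (.g (nat_lit 2065) (.e (nat_lit 401454) (nat_lit 12) (.e (nat_lit 475208) (nat_lit 41) (.e (nat_lit 712742) (nat_lit 27) (.e (nat_lit 426173) (nat_lit 7) (.e (nat_lit 409649) (nat_lit 18) (.e (nat_lit 311040) (nat_lit 35) .nil)))))) (.g (nat_lit 1) (.e (nat_lit 392288) (nat_lit 0) .nil) .nil))) 
(.lf (nat_lit 588393) (.g (nat_lit 1104) (.e (nat_lit 500078) (nat_lit 20) (.e (nat_lit 81950) (nat_lit 21) (.e (nat_lit 57686) (nat_lit 156) (.e (nat_lit 163884) (nat_lit 5) .nil)))) (.g (nat_lit 0) (.e (nat_lit 393406) (nat_lit 0) .nil) .nil)))) (.nd (nat_lit 9) 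
(.lf (nat_lit 588137) (.g (nat_lit 1908) (.e (nat_lit 500046) (nat_lit 16) (.e (nat_lit 16416) (nat_lit 3) (.e (nat_lit 204809) (nat_lit 9) (.e (nat_lit 426133) (nat_lit 3) (.e (nat_lit 212736) (nat_lit 10) .nil))))) (.g (nat_lit 0) (.e (nat_lit 393017) (nat_lit 0) .nil) .nil))) 
(.lf (nat_lit 588649) (.g (nat_lit 1492) (.e (nat_lit 532482) (nat_lit 0) (.e (nat_lit 6722) (nat_lit 362) (.e (nat_lit 180244) (nat_lit 5) (.e (nat_lit 532486) (nat_lit 0) (.e (nat_lit 7936) (nat_lit 362) .nil))))) (.g (nat_lit 0) (.e (nat_lit 395077) (nat_lit 0) .nil) .nil))))) (.nd (nat_lit 8) (.nd (nat_lit 9) 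
(.lf (nat_lit 588009) (.g (nat_lit 1367) (.e (nat_lit 401459) (nat_lit 13) (.e (nat_lit 483409) (nat_lit 27) (.e (nat_lit 401458) (nat_lit 13) (.e (nat_lit 491264) (nat_lit 27) .nil)))) (.g (nat_lit 1) (.e (nat_lit 392647) (nat_lit 0) .nil) .nil))) 
(.lf (nat_lit 588521) (.g (nat_lit 2519) (.e (nat_lit 499928) (nat_lit 11) (.e (nat_lit 188452) (nat_lit 23) (.e (nat_lit 204846) (nat_lit 24) (.e (nat_lit 327424) (nat_lit 16) .nil)))) (.g (nat_lit 0) (.e (nat_lit 394279) (nat_lit 0) .nil) .nil)))) (.nd (nat_lit 9) 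
(.lf (nat_lit 588265) (.g (nat_lit 2942) (.e (nat_lit 500065) (nat_lit 18) (.e (nat_lit 65628) (nat_lit 14) (.e (nat_lit 401425) (nat_lit 2) (.e (nat_lit 196668) (nat_lit 14) (.e (nat_lit 73780) (nat_lit 32) (.e (nat_lit 2505) (nat_lit 157) (.e (nat_lit 3141) (nat_lit 193) .nil))))))) (.g (nat_lit 1) (.e (nat_lit 393239) (nat_lit 0) .nil) .nil))) 
(.lf (nat_lit 588777) (.g (nat_lit 1727) (.e (nat_lit 532499) (nat_lit 1) (.e (nat_lit 57692) (nat_lit 156) (.e (nat_lit 163875) (nat_lit 3) (.e (nat_lit 204838) (nat_lit 20) (.e (nat_lit 114719) (nat_lit 23) .nil))))) (.g (nat_lit 0) (.e (nat_lit 395300) (nat_lit 0) .nil) .nil)))))))) (.nd (nat_lit 5) (.nd (nat_lit 6) (.nd (nat_lit 7) (.nd (nat_lit 8) (.nd (nat_lit 9) 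
(.lf (nat_lit 587801) (.g (nat_lit 3789) (.e (nat_lit 401453) (nat_lit 12) (.e (nat_lit 475184) (nat_lit 29) (.e (nat_lit 557100) (nat_lit 13) (.e (nat_lit 172106) (nat_lit 10) (.e (nat_lit 434231) (nat_lit 23) (.e (nat_lit 532568) (nat_lit 16) .nil)))))) (.g (nat_lit 1) (.e (nat_lit 392165) (nat_lit 0) .nil) .nil))) 
(.lf (nat_lit 588313) (.g (nat_lit 515) (.e (nat_lit 500072) (nat_lit 19) (.e (nat_lit 73781) (nat_lit 32) (.e (nat_lit 2664) (nat_lit 167) .nil))) (.g (nat_lit 0) (.e (nat_lit 393311) (nat_lit 0) .nil) .nil)))) (.nd (nat_lit 9) 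
(.lf (nat_lit 588057) (.g (nat_lit 2133) (.e (nat_lit 499719) (nat_lit 0) (.e (nat_lit 1349) (nat_lit 102) (.e (nat_lit 286759) (nat_lit 12) (.e (nat_lit 385074) (nat_lit 31) (.e (nat_lit 573485) (nat_lit 13) .nil))))) (.g (nat_lit 0) (.e (nat_lit 392845) (nat_lit 0) .nil) .nil))) 
(.lf (nat_lit 588569) (.g (nat_lit 4362) (.e (nat_lit 507945) (nat_lit 18) (.e (nat_lit 303143) (nat_lit 12) (.e (nat_lit 475185) (nat_lit 29) (.e (nat_lit 557109) (nat_lit 15) (.e (nat_lit 188441) (nat_lit 20) .nil))))) (.g (nat_lit 0) (.e (nat_lit 394702) (nat_lit 0) .nil) .nil))))) (.nd (nat_lit 8) (.nd (nat_lit 9) 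
(.lf (nat_lit 587929) (.g (nat_lit 612) (.e (nat_lit 401457) (nat_lit 13) (.e (nat_lit 483346) (nat_lit 17) (.e (nat_lit 2369) (nat_lit 153) .nil))) (.g (nat_lit 0) (.e (nat_lit 392470) (nat_lit 0) .nil) .nil))) 
(.lf (nat_lit 588441) (.g (nat_lit 2510) (.e (nat_lit 499846) (nat_lit 5) (.e (nat_lit 2829) (nat_lit 182) (.e (nat_lit 409645) (nat_lit 18) (.e (nat_lit 303119) (nat_lit 3) (.e (nat_lit 204870) (nat_lit 29) (.e (nat_lit 360463) (nat_lit 1) .nil)))))) (.g (nat_lit 1) (.e (nat_lit 393651) (nat_lit 0) .nil) .nil)))) (.nd (nat_lit 9) 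
(.lf (nat_lit 588185) (.g (nat_lit 2132) (.e (nat_lit 500048) (nat_lit 16) (.e (nat_lit 16436) (nat_lit 9) (.e (nat_lit 426131) (nat_lit 3) (.e (nat_lit 204880) (nat_lit 32) (.e (nat_lit 385096) (nat_lit 49) .nil))))) (.g (nat_lit 0) (.e (nat_lit 393087) (nat_lit 0) .nil) .nil))) 
(.lf (nat_lit 588697) (.g (nat_lit 1064) (.e (nat_lit 532490) (nat_lit 0) (.e (nat_lit 2391) (nat_lit 156) (.e (nat_lit 819204) (nat_lit 0) (.e (nat_lit 2685) (nat_lit 168) .nil)))) (.g (nat_lit 0) (.e (nat_lit 395171) (nat_lit 0) .nil) .nil)))))) (.nd (nat_lit 7) (.nd (nat_lit 8) (.nd (nat_lit 9) 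
(.lf (nat_lit 587865) (.g (nat_lit 2688) (.e (nat_lit 401454) (nat_lit 12) (.e (nat_lit 475197) (nat_lit 40) (.e (nat_lit 704593) (nat_lit 4) (.e (nat_lit 172082) (nat_lit 7) (.e (nat_lit 409646) (nat_lit 18) (.e (nat_lit 311040) (nat_lit 35) .nil)))))) (.g (nat_lit 1) (.e (nat_lit 392272) (nat_lit 0) .nil) .nil))) 
(.lf (nat_lit 588377) (.g (nat_lit 1766) (.e (nat_lit 500076) (nat_lit 20) (.e (nat_lit 81924) (nat_lit 0) (.e (nat_lit 3305) (nat_lit 202) (.e (nat_lit 573489) (nat_lit 14) (.e (nat_lit 81664) (nat_lit 35) (.e (nat_lit 163950) (nat_lit 21) .nil)))))) (.g (nat_lit 1) (.e (nat_lit 393386) (nat_lit 0) .nil) .nil)))) (.nd (nat_lit 9) 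
(.lf (nat_lit 588121) (.g (nat_lit 1643) (.e (nat_lit 500011) (nat_lit 14) (.e (nat_lit 1638) (nat_lit 114) (.e (nat_lit 385067) (nat_lit 26) (.e (nat_lit 532530) (nat_lit 9) (.e (nat_lit 336326) (nat_lit 18) .nil))))) (.g (nat_lit 0) (.e (nat_lit 392984) (nat_lit 0) .nil) .nil))) 
(.lf (nat_lit 588633) (.g (nat_lit 2618) (.e (nat_lit 532482) (nat_lit 0) (.e (nat_lit 6203) (nat_lit 332) (.e (nat_lit 2798) (nat_lit 180) (.e (nat_lit 303117) (nat_lit 2) (.e (nat_lit 196670) (nat_lit 14) (.e (nat_lit 81664) (nat_lit 38) (.e (nat_lit 229433) (nat_lit 25) .nil))))))) (.g (nat_lit 1) (.e (nat_lit 395055) (nat_lit 0) .nil) .nil))))) (.nd (nat_lit 8) (.nd (nat_lit 9) 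
(.lf (nat_lit 587993) (.g (nat_lit 1704) (.e (nat_lit 401458) (nat_lit 13) (.e (nat_lit 483409) (nat_lit 27) (.e (nat_lit 401457) (nat_lit 13) (.e (nat_lit 491264) (nat_lit 27) .nil)))) (.g (nat_lit 1) (.e (nat_lit 392622) (nat_lit 0) .nil) .nil))) 
(.lf (nat_lit 588505) (.g (nat_lit 2101) (.e (nat_lit 499919) (nat_lit 9) (.e (nat_lit 172113) (nat_lit 10) (.e (nat_lit 434245) (nat_lit 28) (.e (nat_lit 573471) (nat_lit 11) (.e (nat_lit 16425) (nat_lit 7) (.e (nat_lit 409624) (nat_lit 10) (.e (nat_lit 555) (nat_lit 41) .nil))))))) (.g (nat_lit 1) (.e (nat_lit 393970) (nat_lit 0) .nil) .nil)))) (.nd (nat_lit 9) 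
(.lf (nat_lit 588249) (.g (nat_lit 4917) (.e (nat_lit 500065) (nat_lit 18) (.e (nat_lit 65617) (nat_lit 10) (.e (nat_lit 344133) (nat_lit 26) (.e (nat_lit 557091) (nat_lit 12) (.e (nat_lit 164022) (nat_lit 46) (.e (nat_lit 704629) (nat_lit 9) (.e (nat_lit 442) (nat_lit 33) (.e (nat_lit 434223) (nat_lit 19) .nil)))))))) (.g (nat_lit 1) (.e (nat_lit 393211) (nat_lit 0) .nil) .nil))) 
(.lf (nat_lit 588761) (.g (nat_lit 4189) (.e (nat_lit 532499) (nat_lit 1) (.e (nat_lit 57688) (nat_lit 156) (.e (nat_lit 163907) (nat_lit 12) (.e (nat_lit 426479) (nat_lit 27) (.e (nat_lit 336432) (nat_lit 30) (.e (nat_lit 450580) (nat_lit 5) .nil)))))) (.g (nat_lit 1) (.e (nat_lit 395260) (nat_lit 0) .nil) .nil))))))) (.nd (nat_lit 6) (.nd (nat_lit 7) (.nd (nat_lit 8) (.nd (nat_lit 9) 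
(.lf (nat_lit 587833) (.g (nat_lit 3511) (.e (nat_lit 401454) (nat_lit 12) (.e (nat_lit 475179) (nat_lit 24) (.e (nat_lit 516115) (nat_lit 1) (.e (nat_lit 164325) (nat_lit 230) (.e (nat_lit 163946) (nat_lit 20) .nil))))) (.g (nat_lit 0) (.e (nat_lit 392233) (nat_lit 0) .nil) .nil))) 
(.lf (nat_lit 588345) (.g (nat_lit 2712) (.e (nat_lit 500074) (nat_lit 20) (.e (nat_lit 81956) (nat_lit 23) (.e (nat_lit 98350) (nat_lit 24) (.e (nat_lit 409644) (nat_lit 18) .nil)))) (.g (nat_lit 0) (.e (nat_lit 393345) (nat_lit 0) .nil) .nil)))) (.nd (nat_lit 9) 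
(.lf (nat_lit 588089) (.g (nat_lit 3274) (.e (nat_lit 499972) (nat_lit 14) (.e (nat_lit 1673) (nat_lit 116) (.e (nat_lit 401448) (nat_lit 10) (.e (nat_lit 434238) (nat_lit 25) (.e (nat_lit 548897) (nat_lit 14) .nil))))) (.g (nat_lit 0) (.e (nat_lit 392941) (nat_lit 0) .nil) .nil))) 
(.lf (nat_lit 588601) (.g (nat_lit 2468) (.e (nat_lit 507919) (nat_lit 4) (.e (nat_lit 270354) (nat_lit 8) (.e (nat_lit 303117) (nat_lit 2) (.e (nat_lit 196674) (nat_lit 15) (.e (nat_lit 81936) (nat_lit 20) (.e (nat_lit 1770) (nat_lit 118) .nil)))))) (.g (nat_lit 1) (.e (nat_lit 394949) (nat_lit 0) .nil) .nil))))) (.nd (nat_lit 8) (.nd (nat_lit 9) 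
(.lf (nat_lit 587961) (.g (nat_lit 1686) (.e (nat_lit 401457) (nat_lit 13) (.e (nat_lit 483413) (nat_lit 27) (.e (nat_lit 401448) (nat_lit 10) (.e (nat_lit 434283) (nat_lit 41) .nil)))) (.g (nat_lit 0) (.e (nat_lit 392560) (nat_lit 0) .nil) .nil))) 
(.lf (nat_lit 588473) (.g (nat_lit 2288) (.e (nat_lit 499913) (nat_lit 9) (.e (nat_lit 172120) (nat_lit 12) (.e (nat_lit 475185) (nat_lit 29) (.e (nat_lit 557105) (nat_lit 14) .nil)))) (.g (nat_lit 0) (.e (nat_lit 393865) (nat_lit 0) .nil) .nil)))) (.nd (nat_lit 9) 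
(.lf (nat_lit 588217) (.g (nat_lit 2984) (.e (nat_lit 500065) (nat_lit 18) (.e (nat_lit 65610) (nat_lit 10) (.e (nat_lit 344117) (nat_lit 21) (.e (nat_lit 516099) (nat_lit 0) .nil)))) (.g (nat_lit 0) (.e (nat_lit 393179) (nat_lit 0) .nil) .nil))) 
(.lf (nat_lit 588729) (.g (nat_lit 2605) (.e (nat_lit 532498) (nat_lit 1) (.e (nat_lit 57847) (nat_lit 252) (.e (nat_lit 57407) (nat_lit 12) (.e (nat_lit 336454) (nat_lit 34) (.e (nat_lit 483408) (nat_lit 26) .nil))))) (.g (nat_lit 0) (.e (nat_lit 395215) (nat_lit 0) .nil) .nil)))))) (.nd (nat_lit 7) (.nd (nat_lit 8) (.nd (nat_lit 9) 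
(.lf (nat_lit 587897) (.g (nat_lit 2813) (.e (nat_lit 401454) (nat_lit 12) (.e (nat_lit 475210) (nat_lit 41) (.e (nat_lit 712755) (nat_lit 30) (.e (nat_lit 450563) (nat_lit 0) (.e (nat_lit 5934) (nat_lit 322) (.e (nat_lit 57449) (nat_lit 20) .nil)))))) (.g (nat_lit 1) (.e (nat_lit 392305) (nat_lit 0) .nil) .nil))) 
(.lf (nat_lit 588409) (.g (nat_lit 619) (.e (nat_lit 500089) (nat_lit 22) (.e (nat_lit 131128) (nat_lit 13) (.e (nat_lit 401152) (nat_lit 16) (.e (nat_lit 401454) (nat_lit 12) (.e (nat_lit 483072) (nat_lit 22) .nil))))) (.g (nat_lit 0) (.e (nat_lit 393439) (nat_lit 0) .nil) .nil)))) (.nd (nat_lit 9) 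
(.lf (nat_lit 588153) (.g (nat_lit 1502) (.e (nat_lit 500046) (nat_lit 16) (.e (nat_lit 16431) (nat_lit 9) (.e (nat_lit 426562) (nat_lit 33) (.e (nat_lit 385041) (nat_lit 19) .nil)))) (.g (nat_lit 0) (.e (nat_lit 393033) (nat_lit 0) .nil) .nil))) 
(.lf (nat_lit 588665) (.g (nat_lit 2848) (.e (nat_lit 532482) (nat_lit 0) (.e (nat_lit 6724) (nat_lit 362) (.e (nat_lit 180243) (nat_lit 5) (.e (nat_lit 532523) (nat_lit 7) (.e (nat_lit 319505) (nat_lit 10) (.e (nat_lit 5712) (nat_lit 312) (.e (nat_lit 2508) (nat_lit 157) (.e (nat_lit 3249) (nat_lit 197) .nil)))))))) (.g (nat_lit 1) (.e (nat_lit 395102) (nat_lit 0) .nil) .nil))))) 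
(.nd (nat_lit 8) (.nd (nat_lit 9) 
(.lf (nat_lit 588025) (.g (nat_lit 2357) (.e (nat_lit 401459) (nat_lit 13) (.e (nat_lit 483411) (nat_lit 27) (.e (nat_lit 401457) (nat_lit 13) (.e (nat_lit 491264) (nat_lit 27) .nil)))) (.g (nat_lit 1) (.e (nat_lit 392663) (nat_lit 0) .nil) .nil))) 
(.lf (nat_lit 588537) (.g (nat_lit 1572) (.e (nat_lit 499930) (nat_lit 11) (.e (nat_lit 188449) (nat_lit 22) (.e (nat_lit 196626) (nat_lit 9) (.e (nat_lit 1400) (nat_lit 106) (.e (nat_lit 319534) (nat_lit 16) .nil))))) (.g (nat_lit 0) (.e (nat_lit 394304) (nat_lit 0) .nil) .nil)))) (.nd (nat_lit 9) 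
(.lf (nat_lit 588281) (.g (nat_lit 2224) (.e (nat_lit 500070) (nat_lit 19) (.e (nat_lit 73753) (nat_lit 8) (.e (nat_lit 557100) (nat_lit 13) (.e (nat_lit 172138) (nat_lit 15) .nil)))) (.g (nat_lit 0) (.e (nat_lit 393277) (nat_lit 0) .nil) .nil))) 
(.lf (nat_lit 588793) (.g (nat_lit 1885) (.e (nat_lit 532499) (nat_lit 1) (.e (nat_lit 57847) (nat_lit 252) (.e (nat_lit 57410) (nat_lit 12) (.e (nat_lit 336454) (nat_lit 34) (.e (nat_lit 483385) (nat_lit 23) .nil))))) (.g (nat_lit 0) (.e (nat_lit 395331) (nat_lit 0) .nil) .nil)))))))))) 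
(.nd (nat_lit 3) (.nd (nat_lit 4) (.nd (nat_lit 5) (.nd (nat_lit 6) (.nd (nat_lit 7) 
(.nd (nat_lit 8) (.nd (nat_lit 9) 
(.lf (nat_lit 587781) (.g (nat_lit 1444) (.e (nat_lit 401451) (nat_lit 12) (.e (nat_lit 475185) (nat_lit 29) (.e (nat_lit 557105) (nat_lit 14) (.e (nat_lit 180281) (nat_lit 40) .nil)))) (.g (nat_lit 0) (.e (nat_lit 392120) (nat_lit 0) .nil) .nil))) 
(.lf (nat_lit 588293) (.g (nat_lit 1620) (.e (nat_lit 500070) (nat_lit 19) (.e (nat_lit 73782) (nat_lit 32) (.e (nat_lit 2664) (nat_lit 167) (.e (nat_lit 196668) (nat_lit 14) (.e (nat_lit 81664) (nat_lit 35) .nil))))) (.g (nat_lit 0) (.e (nat_lit 393289) (nat_lit 0) .nil) .nil)))) (.nd (nat_lit 9) 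
(.lf (nat_lit 588037) (.g (nat_lit 1698) (.e (nat_lit 409344) (nat_lit 25) (.e (nat_lit 319534) (nat_lit 16) (.e (nat_lit 286749) (nat_lit 9) (.e (nat_lit 336047) (nat_lit 6) .nil)))) (.g (nat_lit 0) (.e (nat_lit 392712) (nat_lit 0) .nil) .nil))) 
(.lf (nat_lit 588549) (.g (nat_lit 2872) (.e (nat_lit 499933) (nat_lit 11) (.e (nat_lit 188452) (nat_lit 23) (.e (nat_lit 204846) (nat_lit 24) (.e (nat_lit 319504) (nat_lit 10) .nil)))) (.g (nat_lit 0) (.e (nat_lit 394415) (nat_lit 0) .nil) .nil))))) (.nd (nat_lit 8) (.nd (nat_lit 9) 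
(.lf (nat_lit 587909) (.g (nat_lit 1270) (.e (nat_lit 401456) (nat_lit 13) (.e (nat_lit 483372) (nat_lit 21) (.e (nat_lit 319505) (nat_lit 10) (.e (nat_lit 7936) (nat_lit 312) .nil)))) (.g (nat_lit 0) (.e (nat_lit 392397) (nat_lit 0) .nil) .nil))) 
(.lf (nat_lit 588421) (.g (nat_lit 1496) (.e (nat_lit 499828) (nat_lit 5) (.e (nat_lit 3098) (nat_lit 192) (.e (nat_lit 491564) (nat_lit 12) (.e (nat_lit 385074) (nat_lit 31) .nil)))) (.g (nat_lit 0) (.e (nat_lit 393589) (nat_lit 0) .nil) .nil)))) (.nd (nat_lit 9) 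
(.lf (nat_lit 588165) (.g (nat_lit 1284) (.e (nat_lit 500046) (nat_lit 16) (.e (nat_lit 16463) (nat_lit 13) (.e (nat_lit 491264) (nat_lit 7) (.e (nat_lit 409618) (nat_lit 10) (.e (nat_lit 5023) (nat_lit 290) (.e (nat_lit 164092) (nat_lit 82) .nil)))))) (.g (nat_lit 1) (.e (nat_lit 393048) (nat_lit 0) .nil) .nil))) 
(.lf (nat_lit 588677) (.g (nat_lit 1895) (.e (nat_lit 532482) (nat_lit 0) (.e (nat_lit 6724) (nat_lit 362) (.e (nat_lit 180251) (nat_lit 10) (.e (nat_lit 573469) (nat_lit 11) (.e (nat_lit 16447) (nat_lit 10) .nil))))) (.g (nat_lit 0) (.e (nat_lit 395125) (nat_lit 0) .nil) .nil)))))) (.nd (nat_lit 7) (.nd (nat_lit 8) (.nd (nat_lit 9) 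
(.lf (nat_lit 587845) (.g (nat_lit 3881) (.e (nat_lit 401454) (nat_lit 12) (.e (nat_lit 475183) (nat_lit 29) (.e (nat_lit 557100) (nat_lit 13) (.e (nat_lit 172106) (nat_lit 10) (.e (nat_lit 434231) (nat_lit 23) (.e (nat_lit 532568) (nat_lit 16) .nil)))))) (.g (nat_lit 1) (.e (nat_lit 392249) (nat_lit 0) .nil) .nil))) 
(.lf (nat_lit 588357) (.g (nat_lit 2000) (.e (nat_lit 500075) (nat_lit 20) (.e (nat_lit 81954) (nat_lit 23) (.e (nat_lit 98349) (nat_lit 24) (.e (nat_lit 409644) (nat_lit 18) (.e (nat_lit 303106) (nat_lit 0) (.e (nat_lit 3114) (nat_lit 193) .nil)))))) (.g (nat_lit 1) (.e (nat_lit 393359) (nat_lit 0) .nil) .nil)))) (.nd (nat_lit 9) 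
(.lf (nat_lit 588101) (.g (nat_lit 1520) (.e (nat_lit 499991) (nat_lit 14) (.e (nat_lit 1587) (nat_lit 111) (.e (nat_lit 360474) (nat_lit 8) (.e (nat_lit 557094) (nat_lit 12) (.e (nat_lit 164016) (nat_lit 44) .nil))))) (.g (nat_lit 0) (.e (nat_lit 392962) (nat_lit 0) .nil) .nil))) 
(.lf (nat_lit 588613) (.g (nat_lit 4129) (.e (nat_lit 532480) (nat_lit 0) (.e (nat_lit 6114) (nat_lit 332) (.e (nat_lit 1370) (nat_lit 103) (.e (nat_lit 294931) (nat_lit 3) .nil)))) (.g (nat_lit 0) (.e (nat_lit 394973) (nat_lit 0) .nil) .nil))))) (.nd (nat_lit 8) (.nd (nat_lit 9) 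
(.lf (nat_lit 587973) (.g (nat_lit 1029) (.e (nat_lit 401458) (nat_lit 13) (.e (nat_lit 483350) (nat_lit 17) (.e (nat_lit 6113) (nat_lit 332) (.e (nat_lit 1390) (nat_lit 105) .nil)))) (.g (nat_lit 0) (.e (nat_lit 392583) (nat_lit 0) .nil) .nil))) 
(.lf (nat_lit 588485) (.g (nat_lit 3443) (.e (nat_lit 499916) (nat_lit 9) (.e (nat_lit 172133) (nat_lit 15) (.e (nat_lit 2059) (nat_lit 142) (.e (nat_lit 704589) (nat_lit 3) (.e (nat_lit 163976) (nat_lit 30) .nil))))) (.g (nat_lit 0) (.e (nat_lit 393911) (nat_lit 0) .nil) .nil)))) (.nd (nat_lit 9) 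
(.lf (nat_lit 588229) (.g (nat_lit 1224) (.e (nat_lit 500065) (nat_lit 18) (.e (nat_lit 65617) (nat_lit 10) (.e (nat_lit 344130) (nat_lit 26) (.e (nat_lit 557090) (nat_lit 12) .nil)))) (.g (nat_lit 0) (.e (nat_lit 393191) (nat_lit 0) .nil) .nil))) 
(.lf (nat_lit 588741) (.g (nat_lit 3596) (.e (nat_lit 532499) (nat_lit 1) (.e (nat_lit 57688) (nat_lit 156) (.e (nat_lit 163874) (nat_lit 3) (.e (nat_lit 204837) (nat_lit 20) (.e (nat_lit 114718) (nat_lit 23) (.e (nat_lit 98367) (nat_lit 27) (.e (nat_lit 434234) (nat_lit 23) .nil))))))) (.g (nat_lit 1) (.e (nat_lit 395235) (nat_lit 0) .nil) .nil))))))) 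
(.nd (nat_lit 6) (.nd (nat_lit 7) (.nd (nat_lit 8) (.nd (nat_lit 9) 
(.lf (nat_lit 587813) (.g (nat_lit 3327) (.e (nat_lit 401453) (nat_lit 12) (.e (nat_lit 475185) (nat_lit 29) (.e (nat_lit 557109) (nat_lit 15) (.e (nat_lit 188450) (nat_lit 23) (.e (nat_lit 204883) (nat_lit 33) .nil))))) (.g (nat_lit 1) (.e (nat_lit 392178) (nat_lit 0) .nil) .nil))) 
(.lf (nat_lit 588325) (.g (nat_lit 2154) (.e (nat_lit 500074) (nat_lit 20) (.e (nat_lit 81954) (nat_lit 23) (.e (nat_lit 98323) (nat_lit 17) (.e (nat_lit 6989) (nat_lit 377) (.e (nat_lit 2810) (nat_lit 180) .nil))))) (.g (nat_lit 0) (.e (nat_lit 393325) (nat_lit 0) .nil) .nil)))) (.nd (nat_lit 9) 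
(.lf (nat_lit 588069) (.g (nat_lit 1928) (.e (nat_lit 499762) (nat_lit 0) (.e (nat_lit 1349) (nat_lit 102) (.e (nat_lit 286759) (nat_lit 12) (.e (nat_lit 385074) (nat_lit 31) (.e (nat_lit 573493) (nat_lit 15) .nil))))) (.g (nat_lit 0) (.e (nat_lit 392880) (nat_lit 0) .nil) .nil))) 
(.lf (nat_lit 588581) (.g (nat_lit 3937) (.e (nat_lit 507946) (nat_lit 18) (.e (nat_lit 303146) (nat_lit 14) (.e (nat_lit 491537) (nat_lit 2) (.e (nat_lit 90178) (nat_lit 15) (.e (nat_lit 188441) (nat_lit 20) (.e (nat_lit 3205) (nat_lit 194) .nil)))))) (.g (nat_lit 1) (.e (nat_lit 394917) (nat_lit 0) .nil) .nil))))) (.nd (nat_lit 8) (.nd (nat_lit 9) 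
(.lf (nat_lit 587941) (.g (nat_lit 2773) (.e (nat_lit 401457) (nat_lit 13) (.e (nat_lit 483413) (nat_lit 27) (.e (nat_lit 401447) (nat_lit 10) (.e (nat_lit 434203) (nat_lit 18) (.e (nat_lit 6047) (nat_lit 326) .nil))))) (.g (nat_lit 0) (.e (nat_lit 392528) (nat_lit 0) .nil) .nil))) 
(.lf (nat_lit 588453) (.g (nat_lit 2352) (.e (nat_lit 499900) (nat_lit 7) (.e (nat_lit 24608) (nat_lit 3) (.e (nat_lit 98317) (nat_lit 9) (.e (nat_lit 336021) (nat_lit 3) (.e (nat_lit 106240) (nat_lit 10) (.e (nat_lit 344110) (nat_lit 19) .nil)))))) (.g (nat_lit 1) (.e (nat_lit 393706) (nat_lit 0) .nil) .nil)))) (.nd (nat_lit 9) 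
(.lf (nat_lit 588197) (.g (nat_lit 2221) (.e (nat_lit 500059) (nat_lit 18) (.e (nat_lit 65630) (nat_lit 14) (.e (nat_lit 401425) (nat_lit 2) (.e (nat_lit 196668) (nat_lit 14) .nil)))) (.g (nat_lit 0) (.e (nat_lit 393142) (nat_lit 0) .nil) .nil))) 
(.lf (nat_lit 588709) (.g (nat_lit 1442) (.e (nat_lit 532498) (nat_lit 1) (.e (nat_lit 57686) (nat_lit 156) (.e (nat_lit 163903) (nat_lit 12) (.e (nat_lit 426479) (nat_lit 27) (.e (nat_lit 336434) (nat_lit 30) .nil))))) (.g (nat_lit 0) (.e (nat_lit 395186) (nat_lit 0) .nil) .nil)))))) (.nd (nat_lit 7) (.nd (nat_lit 8) (.nd (nat_lit 9) 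
(.lf (nat_lit 587877) (.g (nat_lit 2321) (.e (nat_lit 401454) (nat_lit 12) (.e (nat_lit 475198) (nat_lit 40) (.e (nat_lit 704596) (nat_lit 5) (.e (nat_lit 180287) (nat_lit 45) (.e (nat_lit 2797) (nat_lit 180) (.e (nat_lit 311040) (nat_lit 35) .nil)))))) (.g (nat_lit 1) (.e (nat_lit 392284) (nat_lit 0) .nil) .nil))) 
(.lf (nat_lit 588389) (.g (nat_lit 539) (.e (nat_lit 500077) (nat_lit 20) (.e (nat_lit 81948) (nat_lit 21) (.e (nat_lit 57688) (nat_lit 156) .nil))) (.g (nat_lit 0) (.e (nat_lit 393402) (nat_lit 0) .nil) .nil)))) (.nd (nat_lit 9) 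
(.lf (nat_lit 588133) (.g (nat_lit 1526) (.e (nat_lit 500046) (nat_lit 16) (.e (nat_lit 16412) (nat_lit 2) (.e (nat_lit 196656) (nat_lit 11) (.e (nat_lit 16415) (nat_lit 3) (.e (nat_lit 212736) (nat_lit 10) .nil))))) (.g (nat_lit 0) (.e (nat_lit 393011) (nat_lit 0) .nil) .nil))) 
(.lf (nat_lit 588645) (.g (nat_lit 1478) (.e (nat_lit 532482) (nat_lit 0) (.e (nat_lit 6722) (nat_lit 362) (.e (nat_lit 180242) (nat_lit 5) (.e (nat_lit 532490) (nat_lit 0) (.e (nat_lit 7936) (nat_lit 362) .nil))))) (.g (nat_lit 0) (.e (nat_lit 395073) (nat_lit 0) .nil) .nil))))) (.nd (nat_lit 8) (.nd (nat_lit 9) 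
(.lf (nat_lit 588005) (.g (nat_lit 1351) (.e (nat_lit 401459) (nat_lit 13) (.e (nat_lit 483372) (nat_lit 21) (.e (nat_lit 319532) (nat_lit 16) (.e (nat_lit 286728) (nat_lit 0) .nil)))) (.g (nat_lit 0) (.e (nat_lit 392643) (nat_lit 0) .nil) .nil))) 
(.lf (nat_lit 588517) (.g (nat_lit 1135) (.e (nat_lit 499928) (nat_lit 11) (.e (nat_lit 188452) (nat_lit 23) (.e (nat_lit 204814) (nat_lit 17) .nil))) (.g (nat_lit 0) (.e (nat_lit 394266) (nat_lit 0) .nil) .nil)))) (.nd (nat_lit 9) 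
(.lf (nat_lit 588261) (.g (nat_lit 3558) (.e (nat_lit 500065) (nat_lit 18) (.e (nat_lit 65624) (nat_lit 12) (.e (nat_lit 385074) (nat_lit 31) (.e (nat_lit 573489) (nat_lit 14) (.e (nat_lit 73779) (nat_lit 32) (.e (nat_lit 2505) (nat_lit 157) (.e (nat_lit 3141) (nat_lit 193) .nil))))))) (.g (nat_lit 1) (.e (nat_lit 393235) (nat_lit 0) .nil) .nil))) 
(.lf (nat_lit 588773) (.g (nat_lit 2869) (.e (nat_lit 532499) (nat_lit 1) (.e (nat_lit 57691) (nat_lit 156) (.e (nat_lit 163907) (nat_lit 12) (.e (nat_lit 426568) (nat_lit 34) (.e (nat_lit 393284) (nat_lit 24) (.e (nat_lit 434233) (nat_lit 23) .nil)))))) (.g (nat_lit 1) (.e (nat_lit 395293) (nat_lit 0) .nil) .nil)))))))) 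
(.nd (nat_lit 5) (.nd (nat_lit 6) (.nd (nat_lit 7) (.nd (nat_lit 8) (.nd (nat_lit 9) 
(.lf (nat_lit 587797) (.g (nat_lit 4046) (.e (nat_lit 401453) (nat_lit 12) (.e (nat_lit 475183) (nat_lit 29) (.e (nat_lit 557100) (nat_lit 13) (.e (nat_lit 172106) (nat_lit 10) (.e (nat_lit 434231) (nat_lit 23) (.e (nat_lit 532568) (nat_lit 16) .nil)))))) (.g (nat_lit 1) (.e (nat_lit 392161) (nat_lit 0) .nil) .nil))) 
(.lf (nat_lit 588309) (.g (nat_lit 2269) (.e (nat_lit 500072) (nat_lit 19) (.e (nat_lit 73755) (nat_lit 8) (.e (nat_lit 557098) (nat_lit 13) (.e (nat_lit 172129) (nat_lit 15) .nil)))) (.g (nat_lit 0) (.e (nat_lit 393307) (nat_lit 0) .nil) .nil)))) (.nd (nat_lit 9) 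
(.lf (nat_lit 588053) (.g (nat_lit 3837) (.e (nat_lit 499732) (nat_lit 0) (.e (nat_lit 2797) (nat_lit 180) (.e (nat_lit 303143) (nat_lit 12) (.e (nat_lit 475185) (nat_lit 29) (.e (nat_lit 557100) (nat_lit 13) (.e (nat_lit 172113) (nat_lit 10) (.e (nat_lit 442112) (nat_lit 19) .nil))))))) (.g (nat_lit 1) (.e (nat_lit 392839) (nat_lit 0) .nil) .nil))) 
(.lf (nat_lit 588565) (.g (nat_lit 1573) (.e (nat_lit 507945) (nat_lit 18) (.e (nat_lit 303133) (nat_lit 9) (.e (nat_lit 426412) (nat_lit 15) (.e (nat_lit 1856) (nat_lit 124) (.e (nat_lit 557101) (nat_lit 13) .nil))))) (.g (nat_lit 0) (.e (nat_lit 394673) (nat_lit 0) .nil) .nil))))) (.nd (nat_lit 8) (.nd (nat_lit 9) 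
(.lf (nat_lit 587925) (.g (nat_lit 2272) (.e (nat_lit 401456) (nat_lit 13) (.e (nat_lit 483413) (nat_lit 27) (.e (nat_lit 401448) (nat_lit 10) (.e (nat_lit 434283) (nat_lit 41) .nil)))) (.g (nat_lit 0) (.e (nat_lit 392464) (nat_lit 0) .nil) .nil))) 
(.lf (nat_lit 588437) (.g (nat_lit 2758) (.e (nat_lit 499844) (nat_lit 5) (.e (nat_lit 3017) (nat_lit 187) (.e (nat_lit 450588) (nat_lit 10) (.e (nat_lit 573475) (nat_lit 12) (.e (nat_lit 57574) (nat_lit 55) .nil))))) (.g (nat_lit 0) (.e (nat_lit 393633) (nat_lit 0) .nil) .nil)))) (.nd (nat_lit 9) 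
(.lf (nat_lit 588181) (.g (nat_lit 1833) (.e (nat_lit 500048) (nat_lit 16) (.e (nat_lit 16435) (nat_lit 9) (.e (nat_lit 426566) (nat_lit 34) (.e (nat_lit 393252) (nat_lit 18) (.e (nat_lit 164305) (nat_lit 226) .nil))))) (.g (nat_lit 0) (.e (nat_lit 393082) (nat_lit 0) .nil) .nil))) 
(.lf (nat_lit 588693) (.g (nat_lit 1347) (.e (nat_lit 532486) (nat_lit 0) (.e (nat_lit 6113) (nat_lit 332) (.e (nat_lit 1376) (nat_lit 104) (.e (nat_lit 303117) (nat_lit 2) (.e (nat_lit 196628) (nat_lit 9) .nil))))) (.g (nat_lit 0) (.e (nat_lit 395148) (nat_lit 0) .nil) .nil)))))) (.nd (nat_lit 7) (.nd (nat_lit 8) (.nd (nat_lit 9) 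
(.lf (nat_lit 587861) (.g (nat_lit 4251) (.e (nat_lit 401454) (nat_lit 12) (.e (nat_lit 475185) (nat_lit 29) (.e (nat_lit 557109) (nat_lit 15) (.e (nat_lit 188452) (nat_lit 23) (.e (nat_lit 204884) (nat_lit 33) .nil))))) (.g (nat_lit 1) (.e (nat_lit 392268) (nat_lit 0) .nil) .nil))) 
(.lf (nat_lit 588373) (.g (nat_lit 2935) (.e (nat_lit 500075) (nat_lit 20) (.e (nat_lit 81956) (nat_lit 23) (.e (nat_lit 98350) (nat_lit 24) (.e (nat_lit 409644) (nat_lit 18) .nil)))) (.g (nat_lit 0) (.e (nat_lit 393376) (nat_lit 0) .nil) .nil)))) (.nd (nat_lit 9) 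
(.lf (nat_lit 588117) (.g (nat_lit 2214) (.e (nat_lit 499992) (nat_lit 14) (.e (nat_lit 1673) (nat_lit 116) (.e (nat_lit 401448) (nat_lit 10) (.e (nat_lit 434227) (nat_lit 20) (.e (nat_lit 507930) (nat_lit 10) .nil))))) (.g (nat_lit 0) (.e (nat_lit 392980) (nat_lit 0) .nil) .nil))) 
(.lf (nat_lit 588629) (.g (nat_lit 2106) (.e (nat_lit 532482) (nat_lit 0) (.e (nat_lit 6203) (nat_lit 332) (.e (nat_lit 2798) (nat_lit 180) (.e (nat_lit 303117) (nat_lit 2) (.e (nat_lit 196668) (nat_lit 14) .nil))))) (.g (nat_lit 0) (.e (nat_lit 395051) (nat_lit 0) .nil) .nil))))) (.nd (nat_lit 8) (.nd (nat_lit 9) 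
(.lf (nat_lit 587989) (.g (nat_lit 302) (.e (nat_lit 401458) (nat_lit 13) (.e (nat_lit 483372) (nat_lit 21) (.e (nat_lit 327424) (nat_lit 10) .nil))) (.g (nat_lit 0) (.e (nat_lit 392616) (nat_lit 0) .nil) .nil))) 
(.lf (nat_lit 588501) (.g (nat_lit 2483) (.e (nat_lit 499919) (nat_lit 9) (.e (nat_lit 172106) (nat_lit 10) (.e (nat_lit 434244) (nat_lit 28) (.e (nat_lit 573471) (nat_lit 11) (.e (nat_lit 16425) (nat_lit 7) (.e (nat_lit 409624) (nat_lit 10) (.e (nat_lit 555) (nat_lit 41) .nil))))))) (.g (nat_lit 1) (.e (nat_lit 393963) (nat_lit 0) .nil) .nil)))) (.nd (nat_lit 9) 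
(.lf (nat_lit 588245) (.g (nat_lit 491) (.e (nat_lit 500065) (nat_lit 18) (.e (nat_lit 65617) (nat_lit 10) (.e (nat_lit 344133) (nat_lit 26) .nil))) (.g (nat_lit 0) (.e (nat_lit 393207) (nat_lit 0) .nil) .nil))) 
(.lf (nat_lit 588757) (.g (nat_lit 3436) (.e (nat_lit 532499) (nat_lit 1) (.e (nat_lit 57688) (nat_lit 156) (.e (nat_lit 163905) (nat_lit 12) (.e (nat_lit 426566) (nat_lit 34) (.e (nat_lit 393286) (nat_lit 25) (.e (nat_lit 458789) (nat_lit 23) .nil)))))) (.g (nat_lit 1) (.e (nat_lit 395256) (nat_lit 0) .nil) .nil))))))) (.nd (nat_lit 6) (.nd (nat_lit 7) (.nd (nat_lit 8) (.nd (nat_lit 9) 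
(.lf (nat_lit 587829) (.g (nat_lit 545) (.e (nat_lit 401454) (nat_lit 12) (.e (nat_lit 483072) (nat_lit 26) (.e (nat_lit 532561) (nat_lit 14) (.e (nat_lit 376839) (nat_lit 11) (.e (nat_lit 433920) (nat_lit 35) .nil))))) (.g (nat_lit 1) (.e (nat_lit 392228) (nat_lit 0) .nil) .nil))) 
(.lf (nat_lit 588341) (.g (nat_lit 3313) (.e (nat_lit 500074) (nat_lit 20) (.e (nat_lit 81956) (nat_lit 23) (.e (nat_lit 98349) (nat_lit 24) (.e (nat_lit 409645) (nat_lit 18) (.e (nat_lit 303106) (nat_lit 0) (.e (nat_lit 3114) (nat_lit 193) .nil)))))) (.g (nat_lit 1) (.e (nat_lit 393341) (nat_lit 0) .nil) .nil)))) (.nd (nat_lit 9) 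
(.lf (nat_lit 588085) (.g (nat_lit 2599) (.e (nat_lit 499969) (nat_lit 14) (.e (nat_lit 1669) (nat_lit 116) (.e (nat_lit 401438) (nat_lit 9) (.e (nat_lit 426131) (nat_lit 3) (.e (nat_lit 204885) (nat_lit 33) .nil))))) (.g (nat_lit 0) (.e (nat_lit 392931) (nat_lit 0) .nil) .nil))) 
(.lf (nat_lit 588597) (.g (nat_lit 2975) (.e (nat_lit 507908) (nat_lit 0) (.e (nat_lit 5412) (nat_lit 303) (.e (nat_lit 73739) (nat_lit 1) (.e (nat_lit 499847) (nat_lit 5) (.e (nat_lit 3102) (nat_lit 192) (.e (nat_lit 491560) (nat_lit 10) (.e (nat_lit 344115) (nat_lit 20) .nil))))))) (.g (nat_lit 1) (.e (nat_lit 394944) (nat_lit 0) .nil) .nil))))) (.nd (nat_lit 8) (.nd (nat_lit 9) 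
(.lf (nat_lit 587957) (.g (nat_lit 1674) (.e (nat_lit 401457) (nat_lit 13) (.e (nat_lit 483413) (nat_lit 27) (.e (nat_lit 401448) (nat_lit 10) (.e (nat_lit 434206) (nat_lit 18) .nil)))) (.g (nat_lit 0) (.e (nat_lit 392551) (nat_lit 0) .nil) .nil))) 
(.lf (nat_lit 588469) (.g (nat_lit 3260) (.e (nat_lit 499910) (nat_lit 8) (.e (nat_lit 164209) (nat_lit 176) (.e (nat_lit 2797) (nat_lit 180) (.e (nat_lit 303119) (nat_lit 3) (.e (nat_lit 204870) (nat_lit 29) (.e (nat_lit 368384) (nat_lit 1) .nil)))))) (.g (nat_lit 1) (.e (nat_lit 393826) (nat_lit 0) .nil) .nil)))) (.nd (nat_lit 9) 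
(.lf (nat_lit 588213) (.g (nat_lit 2253) (.e (nat_lit 500064) (nat_lit 18) (.e (nat_lit 65617) (nat_lit 10) (.e (nat_lit 344133) (nat_lit 26) (.e (nat_lit 557091) (nat_lit 12) (.e (nat_lit 164022) (nat_lit 46) .nil))))) (.g (nat_lit 0) (.e (nat_lit 393164) (nat_lit 0) .nil) .nil))) 
(.lf (nat_lit 588725) (.g (nat_lit 1520) (.e (nat_lit 532498) (nat_lit 1) (.e (nat_lit 57692) (nat_lit 156) (.e (nat_lit 163905) (nat_lit 12) (.e (nat_lit 426479) (nat_lit 27) (.e (nat_lit 336434) (nat_lit 30) .nil))))) (.g (nat_lit 0) (.e (nat_lit 395210) (nat_lit 0) .nil) .nil)))))) (.nd (nat_lit 7) (.nd (nat_lit 8) (.nd (nat_lit 9) 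
(.lf (nat_lit 587893) (.g (nat_lit 2868) (.e (nat_lit 401454) (nat_lit 12) (.e (nat_lit 475210) (nat_lit 41) (.e (nat_lit 712742) (nat_lit 27) (.e (nat_lit 426171) (nat_lit 7) (.e (nat_lit 409646) (nat_lit 18) (.e (nat_lit 311040) (nat_lit 35) .nil)))))) (.g (nat_lit 1) (.e (nat_lit 392300) (nat_lit 0) .nil) .nil))) 
(.lf (nat_lit 588405) (.g (nat_lit 944) (.e (nat_lit 500089) (nat_lit 22) (.e (nat_lit 131109) (nat_lit 9) (.e (nat_lit 336019) (nat_lit 3) (.e (nat_lit 98349) (nat_lit 24) .nil)))) (.g (nat_lit 0) (.e (nat_lit 393433) (nat_lit 0) .nil) .nil)))) (.nd (nat_lit 9) 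
(.lf (nat_lit 588149) (.g (nat_lit 1461) (.e (nat_lit 500046) (nat_lit 16) (.e (nat_lit 16416) (nat_lit 3) (.e (nat_lit 204813) (nat_lit 9) (.e (nat_lit 426138) (nat_lit 3) .nil)))) (.g (nat_lit 0) (.e (nat_lit 393029) (nat_lit 0) .nil) .nil))) 
(.lf (nat_lit 588661) (.g (nat_lit 2653) (.e (nat_lit 532482) (nat_lit 0) (.e (nat_lit 6722) (nat_lit 362) (.e (nat_lit 180252) (nat_lit 10) (.e (nat_lit 573471) (nat_lit 11) (.e (nat_lit 16451) (nat_lit 11) (.e (nat_lit 458789) (nat_lit 23) .nil)))))) (.g (nat_lit 1) (.e (nat_lit 395094) (nat_lit 0) .nil) .nil))))) (.nd (nat_lit 8) (.nd (nat_lit 9) 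
(.lf (nat_lit 588021) (.g (nat_lit 1205) (.e (nat_lit 401459) (nat_lit 13) (.e (nat_lit 483411) (nat_lit 27) (.e (nat_lit 401435) (nat_lit 9) (.e (nat_lit 426489) (nat_lit 27) .nil)))) (.g (nat_lit 0) (.e (nat_lit 392659) (nat_lit 0) .nil) .nil))) 
(.lf (nat_lit 588533) (.g (nat_lit 1487) (.e (nat_lit 499930) (nat_lit 11) (.e (nat_lit 188439) (nat_lit 20) (.e (nat_lit 3272) (nat_lit 199) (.e (nat_lit 548913) (nat_lit 18) (.e (nat_lit 172082) (nat_lit 7) .nil))))) (.g (nat_lit 0) (.e (nat_lit 394299) (nat_lit 0) .nil) .nil)))) (.nd (nat_lit 9) 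
(.lf (nat_lit 588277) (.g (nat_lit 3236) (.e (nat_lit 500065) (nat_lit 18) (.e (nat_lit 65630) (nat_lit 14) (.e (nat_lit 401425) (nat_lit 2) (.e (nat_lit 196670) (nat_lit 14) (.e (nat_lit 73779) (nat_lit 32) (.e (nat_lit 2508) (nat_lit 157) (.e (nat_lit 3141) (nat_lit 193) .nil))))))) (.g (nat_lit 1) (.e (nat_lit 393252) (nat_lit 0) .nil) .nil))) 
(.lf (nat_lit 588789) (.g (nat_lit 4909) (.e (nat_lit 532499) (nat_lit 1) (.e (nat_lit 57847) (nat_lit 252) (.e (nat_lit 57355) (nat_lit 0) (.e (nat_lit 1858) (nat_lit 124) (.e (nat_lit 557105) (nat_lit 14) (.e (nat_lit 180252) (nat_lit 10) (.e (nat_lit 573482) (nat_lit 13) (.e (nat_lit 65637) (nat_lit 15) (.e (nat_lit 3253) (nat_lit 197) .nil))))))))) (.g (nat_lit 1) (.e (nat_lit 395325) (nat_lit 0) .nil) .nil))))))))) 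
(.nd (nat_lit 4) (.nd (nat_lit 5) (.nd (nat_lit 6) (.nd (nat_lit 7) (.nd (nat_lit 8) 
(.nd (nat_lit 9) 
(.lf (nat_lit 587789) (.g (nat_lit 2844) (.e (nat_lit 401452) (nat_lit 12) (.e (nat_lit 475184) (nat_lit 29) (.e (nat_lit 557109) (nat_lit 15) (.e (nat_lit 188452) (nat_lit 23) (.e (nat_lit 204885) (nat_lit 33) .nil))))) (.g (nat_lit 1) (.e (nat_lit 392145) (nat_lit 0) .nil) .nil))) 
(.lf (nat_lit 588301) (.g (nat_lit 1605) (.e (nat_lit 500071) (nat_lit 19) (.e (nat_lit 73781) (nat_lit 32) (.e (nat_lit 2664) (nat_lit 167) (.e (nat_lit 196668) (nat_lit 14) (.e (nat_lit 81664) (nat_lit 35) (.e (nat_lit 163950) (nat_lit 21) .nil)))))) (.g (nat_lit 1) (.e (nat_lit 393298) (nat_lit 0) .nil) .nil)))) (.nd (nat_lit 9) 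
(.lf (nat_lit 588045) (.g (nat_lit 1826) (.e (nat_lit 499727) (nat_lit 0) (.e (nat_lit 2810) (nat_lit 180) (.e (nat_lit 303143) (nat_lit 12) (.e (nat_lit 475185) (nat_lit 29) (.e (nat_lit 557100) (nat_lit 13) .nil))))) (.g (nat_lit 0) (.e (nat_lit 392819) (nat_lit 0) .nil) .nil))) 
(.lf (nat_lit 588557) (.g (nat_lit 2357) (.e (nat_lit 507940) (nat_lit 13) (.e (nat_lit 49189) (nat_lit 11) (.e (nat_lit 16416) (nat_lit 3) (.e (nat_lit 204861) (nat_lit 26) (.e (nat_lit 336194) (nat_lit 12) (.e (nat_lit 385062) (nat_lit 23) .nil)))))) (.g (nat_lit 1) (.e (nat_lit 394641) (nat_lit 0) .nil) .nil))))) (.nd (nat_lit 8) (.nd (nat_lit 9) 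
(.lf (nat_lit 587917) (.g (nat_lit 1667) (.e (nat_lit 401456) (nat_lit 13) (.e (nat_lit 483413) (nat_lit 27) (.e (nat_lit 401447) (nat_lit 10) (.e (nat_lit 434203) (nat_lit 18) .nil)))) (.g (nat_lit 0) (.e (nat_lit 392452) (nat_lit 0) .nil) .nil))) 
(.lf (nat_lit 588429) (.g (nat_lit 2280) (.e (nat_lit 499835) (nat_lit 5) (.e (nat_lit 3102) (nat_lit 192) (.e (nat_lit 491560) (nat_lit 10) (.e (nat_lit 344115) (nat_lit 20) (.e (nat_lit 507907) (nat_lit 0) (.e (nat_lit 5412) (nat_lit 303) (.e (nat_lit 73739) (nat_lit 1) .nil))))))) (.g (nat_lit 1) (.e (nat_lit 393608) (nat_lit 0) .nil) .nil)))) (.nd (nat_lit 9) 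
(.lf (nat_lit 588173) (.g (nat_lit 2559) (.e (nat_lit 500046) (nat_lit 16) (.e (nat_lit 16466) (nat_lit 13) (.e (nat_lit 483333) (nat_lit 0) (.e (nat_lit 7105) (nat_lit 380) (.e (nat_lit 164288) (nat_lit 224) (.e (nat_lit 164092) (nat_lit 82) .nil)))))) (.g (nat_lit 1) (.e (nat_lit 393056) (nat_lit 0) .nil) .nil))) 
(.lf (nat_lit 588685) (.g (nat_lit 1983) (.e (nat_lit 532484) (nat_lit 0) (.e (nat_lit 2031) (nat_lit 140) (.e (nat_lit 688177) (nat_lit 16) (.e (nat_lit 65577) (nat_lit 5) .nil)))) (.g (nat_lit 0) (.e (nat_lit 395135) (nat_lit 0) .nil) .nil)))))) (.nd (nat_lit 7) (.nd (nat_lit 8) (.nd (nat_lit 9) 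
(.lf (nat_lit 587853) (.g (nat_lit 3397) (.e (nat_lit 401454) (nat_lit 12) (.e (nat_lit 475184) (nat_lit 29) (.e (nat_lit 557109) (nat_lit 15) (.e (nat_lit 188450) (nat_lit 23) (.e (nat_lit 204884) (nat_lit 33) .nil))))) (.g (nat_lit 1) (.e (nat_lit 392257) (nat_lit 0) .nil) .nil))) 
(.lf (nat_lit 588365) (.g (nat_lit 353) (.e (nat_lit 500075) (nat_lit 20) (.e (nat_lit 81955) (nat_lit 23) (.e (nat_lit 98349) (nat_lit 24) .nil))) (.g (nat_lit 0) (.e (nat_lit 393367) (nat_lit 0) .nil) .nil)))) (.nd (nat_lit 9) 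
(.lf (nat_lit 588109) (.g (nat_lit 3272) (.e (nat_lit 499991) (nat_lit 14) (.e (nat_lit 1673) (nat_lit 116) (.e (nat_lit 401448) (nat_lit 10) (.e (nat_lit 434238) (nat_lit 25) (.e (nat_lit 548897) (nat_lit 14) .nil))))) (.g (nat_lit 0) (.e (nat_lit 392971) (nat_lit 0) .nil) .nil))) 
(.lf (nat_lit 588621) (.g (nat_lit 2215) (.e (nat_lit 532481) (nat_lit 0) (.e (nat_lit 6724) (nat_lit 362) (.e (nat_lit 180250) (nat_lit 10) (.e (nat_lit 573469) (nat_lit 11) (.e (nat_lit 16451) (nat_lit 11) .nil))))) (.g (nat_lit 0) (.e (nat_lit 395031) (nat_lit 0) .nil) .nil))))) (.nd (nat_lit 8) (.nd (nat_lit 9) 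
(.lf (nat_lit 587981) (.g (nat_lit 721) (.e (nat_lit 401458) (nat_lit 13) (.e (nat_lit 483372) (nat_lit 21) (.e (nat_lit 319502) (nat_lit 10) .nil))) (.g (nat_lit 0) (.e (nat_lit 392604) (nat_lit 0) .nil) .nil))) 
(.lf (nat_lit 588493) (.g (nat_lit 3827) (.e (nat_lit 499918) (nat_lit 9) (.e (nat_lit 172126) (nat_lit 14) (.e (nat_lit 491537) (nat_lit 2) (.e (nat_lit 90170) (nat_lit 13) (.e (nat_lit 172125) (nat_lit 14) .nil))))) (.g (nat_lit 0) (.e (nat_lit 393942) (nat_lit 0) .nil) .nil)))) (.nd (nat_lit 9) 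
(.lf (nat_lit 588237) (.g (nat_lit 2068) (.e (nat_lit 500065) (nat_lit 18) (.e (nat_lit 65617) (nat_lit 10) (.e (nat_lit 344132) (nat_lit 26) (.e (nat_lit 557093) (nat_lit 12) (.e (nat_lit 164022) (nat_lit 46) (.e (nat_lit 704737) (nat_lit 11) (.e (nat_lit 16401) (nat_lit 0) (.e (nat_lit 3141) (nat_lit 193) .nil)))))))) (.g (nat_lit 1) (.e (nat_lit 393199) (nat_lit 0) .nil) .nil))) 
(.lf (nat_lit 588749) (.g (nat_lit 3502) (.e (nat_lit 532499) (nat_lit 1) (.e (nat_lit 57688) (nat_lit 156) (.e (nat_lit 163902) (nat_lit 12) (.e (nat_lit 426568) (nat_lit 34) (.e (nat_lit 393283) (nat_lit 24) (.e (nat_lit 434234) (nat_lit 23) .nil)))))) (.g (nat_lit 1) (.e (nat_lit 395246) (nat_lit 0) .nil) .nil))))))) (.nd (nat_lit 6) (.nd (nat_lit 7) (.nd (nat_lit 8) (.nd (nat_lit 9) 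
(.lf (nat_lit 587821) (.g (nat_lit 629) (.e (nat_lit 401454) (nat_lit 12) (.e (nat_lit 483072) (nat_lit 26) (.e (nat_lit 532559) (nat_lit 14) (.e (nat_lit 376838) (nat_lit 11) (.e (nat_lit 433920) (nat_lit 35) .nil))))) (.g (nat_lit 1) (.e (nat_lit 392220) (nat_lit 0) .nil) .nil))) 
(.lf (nat_lit 588333) (.g (nat_lit 2718) (.e (nat_lit 500074) (nat_lit 20) (.e (nat_lit 81954) (nat_lit 23) (.e (nat_lit 98350) (nat_lit 24) (.e (nat_lit 409646) (nat_lit 18) (.e (nat_lit 303106) (nat_lit 0) (.e (nat_lit 3114) (nat_lit 193) .nil)))))) (.g (nat_lit 1) (.e (nat_lit 393333) (nat_lit 0) .nil) .nil)))) (.nd (nat_lit 9) 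
(.lf (nat_lit 588077) (.g (nat_lit 402) (.e (nat_lit 499952) (nat_lit 14) (.e (nat_lit 479) (nat_lit 37) (.e (nat_lit 474880) (nat_lit 19) .nil))) (.g (nat_lit 0) (.e (nat_lit 392913) (nat_lit 0) .nil) .nil))) 
(.lf (nat_lit 588589) (.g (nat_lit 2852) (.e (nat_lit 507906) (nat_lit 0) (.e (nat_lit 5412) (nat_lit 303) (.e (nat_lit 73739) (nat_lit 1) (.e (nat_lit 499848) (nat_lit 5) (.e (nat_lit 3102) (nat_lit 192) (.e (nat_lit 491560) (nat_lit 10) (.e (nat_lit 344115) (nat_lit 20) .nil))))))) (.g (nat_lit 1) (.e (nat_lit 394932) (nat_lit 0) .nil) .nil))))) (.nd (nat_lit 8) (.nd (nat_lit 9) 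
(.lf (nat_lit 587949) (.g (nat_lit 1720) (.e (nat_lit 401457) (nat_lit 13) (.e (nat_lit 483413) (nat_lit 27) (.e (nat_lit 401448) (nat_lit 10) (.e (nat_lit 434200) (nat_lit 18) .nil)))) (.g (nat_lit 0) (.e (nat_lit 392538) (nat_lit 0) .nil) .nil))) 
(.lf (nat_lit 588461) (.g (nat_lit 1965) (.e (nat_lit 499902) (nat_lit 7) (.e (nat_lit 24655) (nat_lit 13) (.e (nat_lit 393225) (nat_lit 9) (.e (nat_lit 335996) (nat_lit 1) .nil)))) (.g (nat_lit 0) (.e (nat_lit 393743) (nat_lit 0) .nil) .nil)))) (.nd (nat_lit 9) 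
(.lf (nat_lit 588205) (.g (nat_lit 2412) (.e (nat_lit 500060) (nat_lit 18) (.e (nat_lit 65630) (nat_lit 14) (.e (nat_lit 401428) (nat_lit 3) (.e (nat_lit 204861) (nat_lit 26) (.e (nat_lit 336231) (nat_lit 14) .nil))))) (.g (nat_lit 0) (.e (nat_lit 393152) (nat_lit 0) .nil) .nil))) 
(.lf (nat_lit 588717) (.g (nat_lit 1676) (.e (nat_lit 532498) (nat_lit 1) (.e (nat_lit 57691) (nat_lit 156) (.e (nat_lit 163875) (nat_lit 3) (.e (nat_lit 204837) (nat_lit 20) .nil)))) (.g (nat_lit 0) (.e (nat_lit 395198) (nat_lit 0) .nil) .nil)))))) (.nd (nat_lit 7) (.nd (nat_lit 8) (.nd (nat_lit 9) 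
(.lf (nat_lit 587885) (.g (nat_lit 2830) (.e (nat_lit 401454) (nat_lit 12) (.e (nat_lit 475209) (nat_lit 41) (.e (nat_lit 712755) (nat_lit 30) (.e (nat_lit 450562) (nat_lit 0) (.e (nat_lit 5945) (nat_lit 322) (.e (nat_lit 57449) (nat_lit 20) .nil)))))) (.g (nat_lit 1) (.e (nat_lit 392292) (nat_lit 0) .nil) .nil))) 
(.lf (nat_lit 588397) (.g (nat_lit 1801) (.e (nat_lit 500079) (nat_lit 20) (.e (nat_lit 81922) (nat_lit 0) (.e (nat_lit 3305) (nat_lit 202) (.e (nat_lit 573489) (nat_lit 14) (.e (nat_lit 73779) (nat_lit 32) .nil))))) (.g (nat_lit 0) (.e (nat_lit 393413) (nat_lit 0) .nil) .nil)))) (.nd (nat_lit 9) 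
(.lf (nat_lit 588141) (.g (nat_lit 1451) (.e (nat_lit 500046) (nat_lit 16) (.e (nat_lit 16416) (nat_lit 3) (.e (nat_lit 204813) (nat_lit 9) (.e (nat_lit 426116) (nat_lit 2) .nil)))) (.g (nat_lit 0) (.e (nat_lit 393021) (nat_lit 0) .nil) .nil))) 
(.lf (nat_lit 588653) (.g (nat_lit 2342) (.e (nat_lit 532482) (nat_lit 0) (.e (nat_lit 6722) (nat_lit 362) (.e (nat_lit 180245) (nat_lit 5) (.e (nat_lit 532523) (nat_lit 7) (.e (nat_lit 319505) (nat_lit 10) (.e (nat_lit 5712) (nat_lit 312) (.e (nat_lit 2505) (nat_lit 157) (.e (nat_lit 3249) (nat_lit 197) .nil)))))))) (.g (nat_lit 1) (.e (nat_lit 395081) (nat_lit 0) .nil) .nil))))) 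
(.nd (nat_lit 8) (.nd (nat_lit 9) 
(.lf (nat_lit 588013) (.g (nat_lit 410) (.e (nat_lit 401459) (nat_lit 13) (.e (nat_lit 483410) (nat_lit 27) (.e (nat_lit 401437) (nat_lit 9) .nil))) (.g (nat_lit 0) (.e (nat_lit 392651) (nat_lit 0) .nil) .nil))) 
(.lf (nat_lit 588525) (.g (nat_lit 957) (.e (nat_lit 499929) (nat_lit 11) (.e (nat_lit 188452) (nat_lit 23) (.e (nat_lit 204821) (nat_lit 17) .nil))) (.g (nat_lit 0) (.e (nat_lit 394290) (nat_lit 0) .nil) .nil)))) (.nd (nat_lit 9) 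
(.lf (nat_lit 588269) (.g (nat_lit 3955) (.e (nat_lit 500065) (nat_lit 18) (.e (nat_lit 65628) (nat_lit 14) (.e (nat_lit 401428) (nat_lit 3) (.e (nat_lit 204863) (nat_lit 27) (.e (nat_lit 344066) (nat_lit 0) (.e (nat_lit 2505) (nat_lit 157) (.e (nat_lit 3141) (nat_lit 193) .nil))))))) (.g (nat_lit 1) (.e (nat_lit 393243) (nat_lit 0) .nil) .nil))) 
(.lf (nat_lit 588781) (.g (nat_lit 1472) (.e (nat_lit 532499) (nat_lit 1) (.e (nat_lit 57692) (nat_lit 156) (.e (nat_lit 163907) (nat_lit 12) (.e (nat_lit 426481) (nat_lit 27) .nil)))) (.g (nat_lit 0) (.e (nat_lit 395306) (nat_lit 0) .nil) .nil)))))))) (.nd (nat_lit 5) (.nd (nat_lit 6) (.nd (nat_lit 7) (.nd (nat_lit 8) (.nd (nat_lit 9) 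
(.lf (nat_lit 587805) (.g (nat_lit 3516) (.e (nat_lit 401453) (nat_lit 12) (.e (nat_lit 475184) (nat_lit 29) (.e (nat_lit 557109) (nat_lit 15) (.e (nat_lit 188450) (nat_lit 23) (.e (nat_lit 204884) (nat_lit 33) .nil))))) (.g (nat_lit 1) (.e (nat_lit 392169) (nat_lit 0) .nil) .nil))) 
(.lf (nat_lit 588317) (.g (nat_lit 2238) (.e (nat_lit 500073) (nat_lit 19) (.e (nat_lit 73781) (nat_lit 32) (.e (nat_lit 2663) (nat_lit 167) (.e (nat_lit 196668) (nat_lit 14) (.e (nat_lit 81664) (nat_lit 35) .nil))))) (.g (nat_lit 0) (.e (nat_lit 393315) (nat_lit 0) .nil) .nil)))) (.nd (nat_lit 9) 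
(.lf (nat_lit 588061) (.g (nat_lit 2231) (.e (nat_lit 499750) (nat_lit 0) (.e (nat_lit 1353) (nat_lit 102) (.e (nat_lit 286759) (nat_lit 12) (.e (nat_lit 385074) (nat_lit 31) (.e (nat_lit 573484) (nat_lit 13) .nil))))) (.g (nat_lit 0) (.e (nat_lit 392849) (nat_lit 0) .nil) .nil))) 
(.lf (nat_lit 588573) (.g (nat_lit 2668) (.e (nat_lit 507946) (nat_lit 18) (.e (nat_lit 303142) (nat_lit 12) (.e (nat_lit 475185) (nat_lit 29) (.e (nat_lit 557107) (nat_lit 15) (.e (nat_lit 188440) (nat_lit 20) (.e (nat_lit 3205) (nat_lit 194) .nil)))))) (.g (nat_lit 1) (.e (nat_lit 394896) (nat_lit 0) .nil) .nil))))) (.nd (nat_lit 8) (.nd (nat_lit 9) 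
(.lf (nat_lit 587933) (.g (nat_lit 1682) (.e (nat_lit 401457) (nat_lit 13) (.e (nat_lit 483411) (nat_lit 27) (.e (nat_lit 401437) (nat_lit 9) (.e (nat_lit 426509) (nat_lit 27) .nil)))) (.g (nat_lit 0) (.e (nat_lit 392489) (nat_lit 0) .nil) .nil))) 
(.lf (nat_lit 588445) (.g (nat_lit 718) (.e (nat_lit 499900) (nat_lit 7) (.e (nat_lit 24604) (nat_lit 2) (.e (nat_lit 98048) (nat_lit 0) .nil))) (.g (nat_lit 0) (.e (nat_lit 393696) (nat_lit 0) .nil) .nil)))) (.nd (nat_lit 9) 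
(.lf (nat_lit 588189) (.g (nat_lit 2211) (.e (nat_lit 500048) (nat_lit 16) (.e (nat_lit 16448) (nat_lit 10) (.e (nat_lit 434231) (nat_lit 23) (.e (nat_lit 532563) (nat_lit 15) (.e (nat_lit 385109) (nat_lit 51) .nil))))) (.g (nat_lit 0) (.e (nat_lit 393092) (nat_lit 0) .nil) .nil))) 
(.lf (nat_lit 588701) (.g (nat_lit 3665) (.e (nat_lit 532490) (nat_lit 0) (.e (nat_lit 6674) (nat_lit 357) (.e (nat_lit 2939) (nat_lit 184) (.e (nat_lit 426419) (nat_lit 15) (.e (nat_lit 1856) (nat_lit 124) (.e (nat_lit 557101) (nat_lit 13) (.e (nat_lit 172115) (nat_lit 10) (.e (nat_lit 434231) (nat_lit 23) .nil)))))))) (.g (nat_lit 1) (.e (nat_lit 395177) (nat_lit 0) .nil) .nil)))))) 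
(.nd (nat_lit 7) (.nd (nat_lit 8) (.nd (nat_lit 9) 
(.lf (nat_lit 587869) (.g (nat_lit 3561) (.e (nat_lit 401454) (nat_lit 12) (.e (nat_lit 475198) (nat_lit 40) (.e (nat_lit 704592) (nat_lit 4) (.e (nat_lit 172082) (nat_lit 7) (.e (nat_lit 409646) (nat_lit 18) (.e (nat_lit 311040) (nat_lit 35) .nil)))))) (.g (nat_lit 1) (.e (nat_lit 392276) (nat_lit 0) .nil) .nil))) 
(.lf (nat_lit 588381) (.g (nat_lit 3895) (.e (nat_lit 500076) (nat_lit 20) (.e (nat_lit 81956) (nat_lit 23) (.e (nat_lit 98350) (nat_lit 24) (.e (nat_lit 409649) (nat_lit 18) (.e (nat_lit 303111) (nat_lit 0) (.e (nat_lit 3124) (nat_lit 193) .nil)))))) (.g (nat_lit 1) (.e (nat_lit 393392) (nat_lit 0) .nil) .nil)))) (.nd (nat_lit 9) 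
(.lf (nat_lit 588125) (.g (nat_lit 1519) (.e (nat_lit 500044) (nat_lit 16) (.e (nat_lit 16433) (nat_lit 9) (.e (nat_lit 426558) (nat_lit 33) (.e (nat_lit 392960) (nat_lit 5) .nil)))) (.g (nat_lit 0) (.e (nat_lit 392999) (nat_lit 0) .nil) .nil))) 
(.lf (nat_lit 588637) (.g (nat_lit 2380) (.e (nat_lit 532482) (nat_lit 0) (.e (nat_lit 6203) (nat_lit 332) (.e (nat_lit 2798) (nat_lit 180) (.e (nat_lit 303119) (nat_lit 3) (.e (nat_lit 204862) (nat_lit 27) .nil))))) (.g (nat_lit 0) (.e (nat_lit 395059) (nat_lit 0) .nil) .nil))))) (.nd (nat_lit 8) (.nd (nat_lit 9) 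
(.lf (nat_lit 587997) (.g (nat_lit 858) (.e (nat_lit 401458) (nat_lit 13) (.e (nat_lit 483411) (nat_lit 27) (.e (nat_lit 401437) (nat_lit 9) .nil))) (.g (nat_lit 0) (.e (nat_lit 392629) (nat_lit 0) .nil) .nil))) 
(.lf (nat_lit 588509) (.g (nat_lit 649) (.e (nat_lit 499919) (nat_lit 9) (.e (nat_lit 172124) (nat_lit 14) (.e (nat_lit 491540) (nat_lit 3) .nil))) (.g (nat_lit 0) (.e (nat_lit 393977) (nat_lit 0) .nil) .nil)))) (.nd (nat_lit 9) 
(.lf (nat_lit 588253) (.g (nat_lit 2598) (.e (nat_lit 500065) (nat_lit 18) (.e (nat_lit 65617) (nat_lit 10) (.e (nat_lit 344133) (nat_lit 26) (.e (nat_lit 557094) (nat_lit 12) (.e (nat_lit 164022) (nat_lit 46) .nil))))) (.g (nat_lit 0) (.e (nat_lit 393215) (nat_lit 0) .nil) .nil))) 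
(.lf (nat_lit 588765) (.g (nat_lit 3992) (.e (nat_lit 532499) (nat_lit 1) (.e (nat_lit 57688) (nat_lit 156) (.e (nat_lit 163907) (nat_lit 12) (.e (nat_lit 426568) (nat_lit 34) (.e (nat_lit 393283) (nat_lit 24) (.e (nat_lit 434234) (nat_lit 23) .nil)))))) (.g (nat_lit 1) (.e (nat_lit 395266) (nat_lit 0) .nil) .nil))))))) (.nd (nat_lit 6) (.nd (nat_lit 7) (.nd (nat_lit 8) (.nd (nat_lit 9) 
(.lf (nat_lit 587837) (.g (nat_lit 3883) (.e (nat_lit 401454) (nat_lit 12) (.e (nat_lit 475179) (nat_lit 24) (.e (nat_lit 516119) (nat_lit 1) (.e (nat_lit 164345) (nat_lit 240) (.e (nat_lit 2554) (nat_lit 159) (.e (nat_lit 24675) (nat_lit 27) (.e (nat_lit 433920) (nat_lit 35) .nil))))))) (.g (nat_lit 1) (.e (nat_lit 392238) (nat_lit 0) .nil) .nil))) 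
(.lf (nat_lit 588349) (.g (nat_lit 1518) (.e (nat_lit 500074) (nat_lit 20) (.e (nat_lit 81956) (nat_lit 23) (.e (nat_lit 98352) (nat_lit 25) (.e (nat_lit 417829) (nat_lit 18) .nil)))) (.g (nat_lit 0) (.e (nat_lit 393349) (nat_lit 0) .nil) .nil)))) (.nd (nat_lit 9) 
(.lf (nat_lit 588093) (.g (nat_lit 1704) (.e (nat_lit 499981) (nat_lit 14) (.e (nat_lit 1587) (nat_lit 111) (.e (nat_lit 360474) (nat_lit 8) (.e (nat_lit 557093) (nat_lit 12) (.e (nat_lit 164022) (nat_lit 46) .nil))))) (.g (nat_lit 0) (.e (nat_lit 392945) (nat_lit 0) .nil) .nil))) 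
(.lf (nat_lit 588605) (.g (nat_lit 690) (.e (nat_lit 507925) (nat_lit 9) (.e (nat_lit 311342) (nat_lit 13) (.e (nat_lit 491264) (nat_lit 16) (.e (nat_lit 491566) (nat_lit 12) (.e (nat_lit 392960) (nat_lit 23) .nil))))) (.g (nat_lit 0) (.e (nat_lit 394954) (nat_lit 0) .nil) .nil))))) (.nd (nat_lit 8) (.nd (nat_lit 9) 
(.lf (nat_lit 587965) (.g (nat_lit 2289) (.e (nat_lit 401458) (nat_lit 13) (.e (nat_lit 483337) (nat_lit 9) (.e (nat_lit 426107) (nat_lit 1) (.e (nat_lit 164406) (nat_lit 258) .nil)))) (.g (nat_lit 0) (.e (nat_lit 392565) (nat_lit 0) .nil) .nil))) 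
(.lf (nat_lit 588477) (.g (nat_lit 2321) (.e (nat_lit 499914) (nat_lit 9) (.e (nat_lit 172120) (nat_lit 12) (.e (nat_lit 475185) (nat_lit 29) (.e (nat_lit 557103) (nat_lit 14) .nil)))) (.g (nat_lit 0) (.e (nat_lit 393880) (nat_lit 0) .nil) .nil)))) (.nd (nat_lit 9) 
(.lf (nat_lit 588221) (.g (nat_lit 2968) (.e (nat_lit 500065) (nat_lit 18) (.e (nat_lit 65610) (nat_lit 10) (.e (nat_lit 344117) (nat_lit 21) (.e (nat_lit 516138) (nat_lit 7) (.e (nat_lit 409646) (nat_lit 18) (.e (nat_lit 303112) (nat_lit 0) (.e (nat_lit 3107) (nat_lit 193) .nil))))))) (.g (nat_lit 1) (.e (nat_lit 393183) (nat_lit 0) .nil) .nil))) 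
(.lf (nat_lit 588733) (.g (nat_lit 3324) (.e (nat_lit 532499) (nat_lit 1) (.e (nat_lit 57686) (nat_lit 156) (.e (nat_lit 163902) (nat_lit 12) (.e (nat_lit 426568) (nat_lit 34) (.e (nat_lit 393282) (nat_lit 24) (.e (nat_lit 434231) (nat_lit 23) .nil)))))) (.g (nat_lit 1) (.e (nat_lit 395221) (nat_lit 0) .nil) .nil)))))) (.nd (nat_lit 7) (.nd (nat_lit 8) (.nd (nat_lit 9) 
(.lf (nat_lit 587901) (.g (nat_lit 2450) (.e (nat_lit 401456) (nat_lit 13) (.e (nat_lit 483343) (nat_lit 17) (.e (nat_lit 6718) (nat_lit 361) (.e (nat_lit 172150) (nat_lit 27) (.e (nat_lit 336232) (nat_lit 14) .nil))))) (.g (nat_lit 1) (.e (nat_lit 392369) (nat_lit 0) .nil) .nil))) 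
(.lf (nat_lit 588413) (.g (nat_lit 1676) (.e (nat_lit 500090) (nat_lit 22) (.e (nat_lit 131107) (nat_lit 9) (.e (nat_lit 336324) (nat_lit 18) (.e (nat_lit 204838) (nat_lit 20) (.e (nat_lit 122624) (nat_lit 12) (.e (nat_lit 434219) (nat_lit 19) .nil)))))) (.g (nat_lit 1) (.e (nat_lit 393443) (nat_lit 0) .nil) .nil)))) (.nd (nat_lit 9) 
(.lf (nat_lit 588157) (.g (nat_lit 1396) (.e (nat_lit 500046) (nat_lit 16) (.e (nat_lit 16433) (nat_lit 9) (.e (nat_lit 426568) (nat_lit 34) (.e (nat_lit 401152) (nat_lit 3) .nil)))) (.g (nat_lit 0) (.e (nat_lit 393038) (nat_lit 0) .nil) .nil))) 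
(.lf (nat_lit 588669) (.g (nat_lit 2468) (.e (nat_lit 532482) (nat_lit 0) (.e (nat_lit 6724) (nat_lit 362) (.e (nat_lit 180250) (nat_lit 10) (.e (nat_lit 573451) (nat_lit 9) (.e (nat_lit 430) (nat_lit 32) .nil))))) (.g (nat_lit 0) (.e (nat_lit 395110) (nat_lit 0) .nil) .nil))))) (.nd (nat_lit 8) (.nd (nat_lit 9) 
(.lf (nat_lit 588029) (.g (nat_lit 3351) (.e (nat_lit 401460) (nat_lit 14) (.e (nat_lit 491549) (nat_lit 9) (.e (nat_lit 336369) (nat_lit 27) (.e (nat_lit 426173) (nat_lit 7) (.e (nat_lit 409649) (nat_lit 18) (.e (nat_lit 311040) (nat_lit 35) .nil)))))) (.g (nat_lit 1) (.e (nat_lit 392683) (nat_lit 0) .nil) .nil))) 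
(.lf (nat_lit 588541) (.g (nat_lit 3366) (.e (nat_lit 499930) (nat_lit 11) (.e (nat_lit 188452) (nat_lit 23) (.e (nat_lit 204846) (nat_lit 24) (.e (nat_lit 319504) (nat_lit 10) (.e (nat_lit 5396) (nat_lit 301) .nil))))) (.g (nat_lit 0) (.e (nat_lit 394311) (nat_lit 0) .nil) .nil)))) (.nd (nat_lit 9) 
(.lf (nat_lit 588285) (.g (nat_lit 1814) (.e (nat_lit 500070) (nat_lit 19) (.e (nat_lit 73755) (nat_lit 8) (.e (nat_lit 557098) (nat_lit 13) (.e (nat_lit 172133) (nat_lit 15) .nil)))) (.g (nat_lit 0) (.e (nat_lit 393281) (nat_lit 0) .nil) .nil))) 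
(.lf (nat_lit 588797) (.g (nat_lit 4370) (.e (nat_lit 532499) (nat_lit 1) (.e (nat_lit 57847) (nat_lit 252) (.e (nat_lit 57410) (nat_lit 12) (.e (nat_lit 336454) (nat_lit 34) (.e (nat_lit 483385) (nat_lit 23) (.e (nat_lit 336306) (nat_lit 15) (.e (nat_lit 3238) (nat_lit 197) .nil))))))) (.g (nat_lit 1) (.e (nat_lit 395335) (nat_lit 0) .nil) .nil))))))))))) 
(.nd (nat_lit 2) (.nd (nat_lit 3) (.nd (nat_lit 4) (.nd (nat_lit 5) (.nd (nat_lit 6) 
(.nd (nat_lit 7) (.nd (nat_lit 8) (.nd (nat_lit 9) 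
(.lf (nat_lit 587779) (.g (nat_lit 3555) (.e (nat_lit 401451) (nat_lit 12) (.e (nat_lit 475185) (nat_lit 29) (.e (nat_lit 557101) (nat_lit 13) (.e (nat_lit 172097) (nat_lit 9) (.e (nat_lit 426140) (nat_lit 3) (.e (nat_lit 212736) (nat_lit 33) .nil)))))) (.g (nat_lit 1) (.e (nat_lit 392118) (nat_lit 0) .nil) .nil))) 
(.lf (nat_lit 588291) (.g (nat_lit 1788) (.e (nat_lit 500070) (nat_lit 19) (.e (nat_lit 73781) (nat_lit 32) (.e (nat_lit 2682) (nat_lit 168) (.e (nat_lit 204863) (nat_lit 27) (.e (nat_lit 352000) (nat_lit 3) .nil))))) (.g (nat_lit 0) (.e (nat_lit 393287) (nat_lit 0) .nil) .nil)))) (.nd (nat_lit 9) 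
(.lf (nat_lit 588035) (.g (nat_lit 3905) (.e (nat_lit 401460) (nat_lit 14) (.e (nat_lit 491571) (nat_lit 13) (.e (nat_lit 393260) (nat_lit 21) (.e (nat_lit 409649) (nat_lit 18) (.e (nat_lit 311040) (nat_lit 35) .nil))))) (.g (nat_lit 1) (.e (nat_lit 392696) (nat_lit 0) .nil) .nil))) 
(.lf (nat_lit 588547) (.g (nat_lit 681) (.e (nat_lit 499932) (nat_lit 11) (.e (nat_lit 188452) (nat_lit 23) (.e (nat_lit 204846) (nat_lit 24) .nil))) (.g (nat_lit 0) (.e (nat_lit 394383) (nat_lit 0) .nil) .nil))))) (.nd (nat_lit 8) (.nd (nat_lit 9) 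
(.lf (nat_lit 587907) (.g (nat_lit 1872) (.e (nat_lit 401456) (nat_lit 13) (.e (nat_lit 483363) (nat_lit 18) (.e (nat_lit 57692) (nat_lit 156) (.e (nat_lit 163916) (nat_lit 13) .nil)))) (.g (nat_lit 0) (.e (nat_lit 392382) (nat_lit 0) .nil) .nil))) 
(.lf (nat_lit 588419) (.g (nat_lit 2592) (.e (nat_lit 499828) (nat_lit 5) (.e (nat_lit 3098) (nat_lit 192) (.e (nat_lit 491546) (nat_lit 9) (.e (nat_lit 336028) (nat_lit 3) (.e (nat_lit 98325) (nat_lit 17) (.e (nat_lit 7936) (nat_lit 407) (.e (nat_lit 73740) (nat_lit 1) .nil))))))) (.g (nat_lit 1) (.e (nat_lit 393582) (nat_lit 0) .nil) .nil)))) (.nd (nat_lit 9) 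
(.lf (nat_lit 588163) (.g (nat_lit 1962) (.e (nat_lit 500046) (nat_lit 16) (.e (nat_lit 16463) (nat_lit 13) (.e (nat_lit 483333) (nat_lit 0) (.e (nat_lit 7098) (nat_lit 380) (.e (nat_lit 164291) (nat_lit 224) (.e (nat_lit 164092) (nat_lit 82) .nil)))))) (.g (nat_lit 1) (.e (nat_lit 393046) (nat_lit 0) .nil) .nil))) 
(.lf (nat_lit 588675) (.g (nat_lit 2780) (.e (nat_lit 532482) (nat_lit 0) (.e (nat_lit 6724) (nat_lit 362) (.e (nat_lit 180250) (nat_lit 10) (.e (nat_lit 573471) (nat_lit 11) (.e (nat_lit 16451) (nat_lit 11) (.e (nat_lit 458789) (nat_lit 23) .nil)))))) (.g (nat_lit 1) (.e (nat_lit 395120) (nat_lit 0) .nil) .nil)))))) (.nd (nat_lit 7) (.nd (nat_lit 8) (.nd (nat_lit 9) 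
(.lf (nat_lit 587843) (.g (nat_lit 2829) (.e (nat_lit 401454) (nat_lit 12) (.e (nat_lit 475183) (nat_lit 29) (.e (nat_lit 557097) (nat_lit 13) (.e (nat_lit 172115) (nat_lit 10) (.e (nat_lit 434231) (nat_lit 23) (.e (nat_lit 540416) (nat_lit 16) .nil)))))) (.g (nat_lit 1) (.e (nat_lit 392247) (nat_lit 0) .nil) .nil))) 
(.lf (nat_lit 588355) (.g (nat_lit 2325) (.e (nat_lit 500075) (nat_lit 20) (.e (nat_lit 81954) (nat_lit 23) (.e (nat_lit 98323) (nat_lit 17) (.e (nat_lit 6989) (nat_lit 377) (.e (nat_lit 2810) (nat_lit 180) .nil))))) (.g (nat_lit 0) (.e (nat_lit 393357) (nat_lit 0) .nil) .nil)))) (.nd (nat_lit 9) 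
(.lf (nat_lit 588099) (.g (nat_lit 1882) (.e (nat_lit 499991) (nat_lit 14) (.e (nat_lit 1399) (nat_lit 106) (.e (nat_lit 319534) (nat_lit 16) (.e (nat_lit 286734) (nat_lit 3) (.e (nat_lit 98374) (nat_lit 29) .nil))))) (.g (nat_lit 0) (.e (nat_lit 392960) (nat_lit 0) .nil) .nil))) 
(.lf (nat_lit 588611) (.g (nat_lit 1554) (.e (nat_lit 507923) (nat_lit 6) (.e (nat_lit 286762) (nat_lit 14) (.e (nat_lit 401425) (nat_lit 2) (.e (nat_lit 196666) (nat_lit 13) .nil)))) (.g (nat_lit 0) (.e (nat_lit 394964) (nat_lit 0) .nil) .nil))))) (.nd (nat_lit 8) (.nd (nat_lit 9) 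
(.lf (nat_lit 587971) (.g (nat_lit 768) (.e (nat_lit 401458) (nat_lit 13) (.e (nat_lit 483350) (nat_lit 17) (.e (nat_lit 6113) (nat_lit 332) (.e (nat_lit 975) (nat_lit 81) .nil)))) (.g (nat_lit 0) (.e (nat_lit 392579) (nat_lit 0) .nil) .nil))) 
(.lf (nat_lit 588483) (.g (nat_lit 3489) (.e (nat_lit 499915) (nat_lit 9) (.e (nat_lit 172133) (nat_lit 15) (.e (nat_lit 2059) (nat_lit 142) (.e (nat_lit 704589) (nat_lit 3) (.e (nat_lit 163979) (nat_lit 30) .nil))))) (.g (nat_lit 0) (.e (nat_lit 393908) (nat_lit 0) .nil) .nil)))) (.nd (nat_lit 9) 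
(.lf (nat_lit 588227) (.g (nat_lit 1875) (.e (nat_lit 500065) (nat_lit 18) (.e (nat_lit 65610) (nat_lit 10) (.e (nat_lit 344117) (nat_lit 21) (.e (nat_lit 516160) (nat_lit 10) .nil)))) (.g (nat_lit 0) (.e (nat_lit 393189) (nat_lit 0) .nil) .nil))) 
(.lf (nat_lit 588739) (.g (nat_lit 1193) (.e (nat_lit 532499) (nat_lit 1) (.e (nat_lit 57687) (nat_lit 156) (.e (nat_lit 163905) (nat_lit 12) (.e (nat_lit 426568) (nat_lit 34) .nil)))) (.g (nat_lit 0) (.e (nat_lit 395228) (nat_lit 0) .nil) .nil))))))) (.nd (nat_lit 6) (.nd (nat_lit 7) (.nd (nat_lit 8) (.nd (nat_lit 9) 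
(.lf (nat_lit 587811) (.g (nat_lit 3521) (.e (nat_lit 401453) (nat_lit 12) (.e (nat_lit 475185) (nat_lit 29) (.e (nat_lit 557107) (nat_lit 15) (.e (nat_lit 188452) (nat_lit 23) (.e (nat_lit 204884) (nat_lit 33) .nil))))) (.g (nat_lit 1) (.e (nat_lit 392176) (nat_lit 0) .nil) .nil))) 
(.lf (nat_lit 588323) (.g (nat_lit 2491) (.e (nat_lit 500074) (nat_lit 20) (.e (nat_lit 81953) (nat_lit 22) (.e (nat_lit 90130) (nat_lit 9) (.e (nat_lit 2830) (nat_lit 182) (.e (nat_lit 409648) (nat_lit 18) (.e (nat_lit 303104) (nat_lit 0) (.e (nat_lit 3114) (nat_lit 193) .nil))))))) (.g (nat_lit 1) (.e (nat_lit 393323) (nat_lit 0) .nil) .nil)))) (.nd (nat_lit 9) 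
(.lf (nat_lit 588067) (.g (nat_lit 2214) (.e (nat_lit 499762) (nat_lit 0) (.e (nat_lit 1348) (nat_lit 102) (.e (nat_lit 286759) (nat_lit 12) (.e (nat_lit 385074) (nat_lit 31) (.e (nat_lit 573484) (nat_lit 13) .nil))))) (.g (nat_lit 0) (.e (nat_lit 392878) (nat_lit 0) .nil) .nil))) 
(.lf (nat_lit 588579) (.g (nat_lit 3653) (.e (nat_lit 507946) (nat_lit 18) (.e (nat_lit 303146) (nat_lit 14) (.e (nat_lit 491537) (nat_lit 2) (.e (nat_lit 90176) (nat_lit 15) (.e (nat_lit 188441) (nat_lit 20) .nil))))) (.g (nat_lit 0) (.e (nat_lit 394915) (nat_lit 0) .nil) .nil))))) (.nd (nat_lit 8) (.nd (nat_lit 9) 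
(.lf (nat_lit 587939) (.g (nat_lit 2880) (.e (nat_lit 401457) (nat_lit 13) (.e (nat_lit 483413) (nat_lit 27) (.e (nat_lit 401447) (nat_lit 10) (.e (nat_lit 434203) (nat_lit 18) (.e (nat_lit 5982) (nat_lit 326) .nil))))) (.g (nat_lit 0) (.e (nat_lit 392526) (nat_lit 0) .nil) .nil))) 
(.lf (nat_lit 588451) (.g (nat_lit 2398) (.e (nat_lit 499900) (nat_lit 7) (.e (nat_lit 24608) (nat_lit 3) (.e (nat_lit 98313) (nat_lit 9) (.e (nat_lit 336027) (nat_lit 3) (.e (nat_lit 106240) (nat_lit 10) (.e (nat_lit 344110) (nat_lit 19) .nil)))))) (.g (nat_lit 1) (.e (nat_lit 393704) (nat_lit 0) .nil) .nil)))) (.nd (nat_lit 9) 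
(.lf (nat_lit 588195) (.g (nat_lit 2038) (.e (nat_lit 500059) (nat_lit 18) (.e (nat_lit 65616) (nat_lit 10) (.e (nat_lit 344133) (nat_lit 26) (.e (nat_lit 557091) (nat_lit 12) (.e (nat_lit 164022) (nat_lit 46) (.e (nat_lit 704629) (nat_lit 9) (.e (nat_lit 452) (nat_lit 33) (.e (nat_lit 434219) (nat_lit 19) .nil)))))))) (.g (nat_lit 1) (.e (nat_lit 393139) (nat_lit 0) .nil) .nil))) 
(.lf (nat_lit 588707) (.g (nat_lit 4361) (.e (nat_lit 532494) (nat_lit 0) (.e (nat_lit 6114) (nat_lit 332) (.e (nat_lit 1370) (nat_lit 103) (.e (nat_lit 294928) (nat_lit 2) .nil)))) (.g (nat_lit 0) (.e (nat_lit 395184) (nat_lit 0) .nil) .nil)))))) (.nd (nat_lit 7) (.nd (nat_lit 8) (.nd (nat_lit 9) 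
(.lf (nat_lit 587875) (.g (nat_lit 1409) (.e (nat_lit 401454) (nat_lit 12) (.e (nat_lit 475198) (nat_lit 40) (.e (nat_lit 704595) (nat_lit 5) (.e (nat_lit 180288) (nat_lit 45) (.e (nat_lit 2798) (nat_lit 180) .nil))))) (.g (nat_lit 0) (.e (nat_lit 392282) (nat_lit 0) .nil) .nil))) 
(.lf (nat_lit 588387) (.g (nat_lit 868) (.e (nat_lit 500077) (nat_lit 20) (.e (nat_lit 81948) (nat_lit 21) (.e (nat_lit 57686) (nat_lit 156) (.e (nat_lit 163886) (nat_lit 5) .nil)))) (.g (nat_lit 0) (.e (nat_lit 393400) (nat_lit 0) .nil) .nil)))) (.nd (nat_lit 9) 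
(.lf (nat_lit 588131) (.g (nat_lit 889) (.e (nat_lit 500046) (nat_lit 16) (.e (nat_lit 16412) (nat_lit 2) (.e (nat_lit 196655) (nat_lit 11) .nil))) (.g (nat_lit 0) (.e (nat_lit 393009) (nat_lit 0) .nil) .nil))) 
(.lf (nat_lit 588643) (.g (nat_lit 5533) (.e (nat_lit 532482) (nat_lit 0) (.e (nat_lit 6619) (nat_lit 357) (.e (nat_lit 3098) (nat_lit 192) (.e (nat_lit 491537) (nat_lit 2) (.e (nat_lit 90170) (nat_lit 13) (.e (nat_lit 172106) (nat_lit 10) (.e (nat_lit 434231) (nat_lit 23) .nil))))))) (.g (nat_lit 1) (.e (nat_lit 395065) (nat_lit 0) .nil) .nil))))) (.nd (nat_lit 8) (.nd (nat_lit 9) 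
(.lf (nat_lit 588003) (.g (nat_lit 1008) (.e (nat_lit 401459) (nat_lit 13) (.e (nat_lit 483372) (nat_lit 21) (.e (nat_lit 319508) (nat_lit 10) (.e (nat_lit 7936) (nat_lit 314) .nil)))) (.g (nat_lit 0) (.e (nat_lit 392641) (nat_lit 0) .nil) .nil))) 
(.lf (nat_lit 588515) (.g (nat_lit 2280) (.e (nat_lit 499924) (nat_lit 10) (.e (nat_lit 180252) (nat_lit 10) (.e (nat_lit 573482) (nat_lit 13) (.e (nat_lit 65631) (nat_lit 15) .nil)))) (.g (nat_lit 0) (.e (nat_lit 394079) (nat_lit 0) .nil) .nil)))) (.nd (nat_lit 9) 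
(.lf (nat_lit 588259) (.g (nat_lit 3425) (.e (nat_lit 500065) (nat_lit 18) (.e (nat_lit 65624) (nat_lit 12) (.e (nat_lit 385074) (nat_lit 31) (.e (nat_lit 573487) (nat_lit 14) (.e (nat_lit 73779) (nat_lit 32) .nil))))) (.g (nat_lit 0) (.e (nat_lit 393233) (nat_lit 0) .nil) .nil))) 
(.lf (nat_lit 588771) (.g (nat_lit 2821) (.e (nat_lit 532499) (nat_lit 1) (.e (nat_lit 57691) (nat_lit 156) (.e (nat_lit 163905) (nat_lit 12) (.e (nat_lit 426568) (nat_lit 34) (.e (nat_lit 393284) (nat_lit 24) (.e (nat_lit 434233) (nat_lit 23) .nil)))))) (.g (nat_lit 1) (.e (nat_lit 395287) (nat_lit 0) .nil) .nil)))))))) 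
(.nd (nat_lit 5) (.nd (nat_lit 6) (.nd (nat_lit 7) (.nd (nat_lit 8) (.nd (nat_lit 9) 
(.lf (nat_lit 587795) (.g (nat_lit 4121) (.e (nat_lit 401452) (nat_lit 12) (.e (nat_lit 475185) (nat_lit 29) (.e (nat_lit 557109) (nat_lit 15) (.e (nat_lit 188452) (nat_lit 23) (.e (nat_lit 204885) (nat_lit 33) .nil))))) (.g (nat_lit 1) (.e (nat_lit 392153) (nat_lit 0) .nil) .nil))) 
(.lf (nat_lit 588307) (.g (nat_lit 2361) (.e (nat_lit 500072) (nat_lit 19) (.e (nat_lit 73754) (nat_lit 8) (.e (nat_lit 557100) (nat_lit 13) (.e (nat_lit 172135) (nat_lit 15) .nil)))) (.g (nat_lit 0) (.e (nat_lit 393304) (nat_lit 0) .nil) .nil)))) (.nd (nat_lit 9) 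
(.lf (nat_lit 588051) (.g (nat_lit 498) (.e (nat_lit 499728) (nat_lit 0) (.e (nat_lit 2798) (nat_lit 180) (.e (nat_lit 303133) (nat_lit 9) .nil))) (.g (nat_lit 0) (.e (nat_lit 392826) (nat_lit 0) .nil) .nil))) 
(.lf (nat_lit 588563) (.g (nat_lit 2964) (.e (nat_lit 507944) (nat_lit 18) (.e (nat_lit 303143) (nat_lit 12) (.e (nat_lit 475185) (nat_lit 29) (.e (nat_lit 557100) (nat_lit 13) (.e (nat_lit 172113) (nat_lit 10) (.e (nat_lit 434226) (nat_lit 20) .nil)))))) (.g (nat_lit 1) (.e (nat_lit 394668) (nat_lit 0) .nil) .nil))))) (.nd (nat_lit 8) (.nd (nat_lit 9) 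
(.lf (nat_lit 587923) (.g (nat_lit 2298) (.e (nat_lit 401456) (nat_lit 13) (.e (nat_lit 483413) (nat_lit 27) (.e (nat_lit 401448) (nat_lit 10) (.e (nat_lit 434207) (nat_lit 18) .nil)))) (.g (nat_lit 0) (.e (nat_lit 392462) (nat_lit 0) .nil) .nil))) 
(.lf (nat_lit 588435) (.g (nat_lit 2758) (.e (nat_lit 499840) (nat_lit 5) (.e (nat_lit 3017) (nat_lit 187) (.e (nat_lit 450588) (nat_lit 10) (.e (nat_lit 573475) (nat_lit 12) (.e (nat_lit 57574) (nat_lit 55) .nil))))) (.g (nat_lit 0) (.e (nat_lit 393629) (nat_lit 0) .nil) .nil)))) (.nd (nat_lit 9) 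
(.lf (nat_lit 588179) (.g (nat_lit 1625) (.e (nat_lit 500047) (nat_lit 16) (.e (nat_lit 16435) (nat_lit 9) (.e (nat_lit 426566) (nat_lit 34) (.e (nat_lit 393253) (nat_lit 18) .nil)))) (.g (nat_lit 0) (.e (nat_lit 393067) (nat_lit 0) .nil) .nil))) 
(.lf (nat_lit 588691) (.g (nat_lit 2032) (.e (nat_lit 532486) (nat_lit 0) (.e (nat_lit 6113) (nat_lit 332) (.e (nat_lit 1374) (nat_lit 104) (.e (nat_lit 303119) (nat_lit 3) (.e (nat_lit 204816) (nat_lit 17) .nil))))) (.g (nat_lit 0) (.e (nat_lit 395146) (nat_lit 0) .nil) .nil)))))) (.nd (nat_lit 7) (.nd (nat_lit 8) (.nd (nat_lit 9) 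
(.lf (nat_lit 587859) (.g (nat_lit 4050) (.e (nat_lit 401454) (nat_lit 12) (.e (nat_lit 475185) (nat_lit 29) (.e (nat_lit 557107) (nat_lit 15) (.e (nat_lit 188452) (nat_lit 23) (.e (nat_lit 204884) (nat_lit 33) .nil))))) (.g (nat_lit 1) (.e (nat_lit 392266) (nat_lit 0) .nil) .nil))) 
(.lf (nat_lit 588371) (.g (nat_lit 1732) (.e (nat_lit 500075) (nat_lit 20) (.e (nat_lit 81956) (nat_lit 23) (.e (nat_lit 98349) (nat_lit 24) (.e (nat_lit 417536) (nat_lit 18) .nil)))) (.g (nat_lit 0) (.e (nat_lit 393374) (nat_lit 0) .nil) .nil)))) (.nd (nat_lit 9) 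
(.lf (nat_lit 588115) (.g (nat_lit 1446) (.e (nat_lit 499992) (nat_lit 14) (.e (nat_lit 1673) (nat_lit 116) (.e (nat_lit 401446) (nat_lit 10) (.e (nat_lit 434227) (nat_lit 20) (.e (nat_lit 507930) (nat_lit 10) .nil))))) (.g (nat_lit 0) (.e (nat_lit 392978) (nat_lit 0) .nil) .nil))) 
(.lf (nat_lit 588627) (.g (nat_lit 2179) (.e (nat_lit 532481) (nat_lit 0) (.e (nat_lit 6724) (nat_lit 362) (.e (nat_lit 180252) (nat_lit 10) (.e (nat_lit 573471) (nat_lit 11) (.e (nat_lit 16450) (nat_lit 11) .nil))))) (.g (nat_lit 0) (.e (nat_lit 395037) (nat_lit 0) .nil) .nil))))) (.nd (nat_lit 8) (.nd (nat_lit 9) 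
(.lf (nat_lit 587987) (.g (nat_lit 933) (.e (nat_lit 401458) (nat_lit 13) (.e (nat_lit 483372) (nat_lit 21) (.e (nat_lit 319511) (nat_lit 10) (.e (nat_lit 5612) (nat_lit 312) .nil)))) (.g (nat_lit 0) (.e (nat_lit 392613) (nat_lit 0) .nil) .nil))) 
(.lf (nat_lit 588499) (.g (nat_lit 1433) (.e (nat_lit 499919) (nat_lit 9) (.e (nat_lit 172106) (nat_lit 10) (.e (nat_lit 434244) (nat_lit 28) (.e (nat_lit 573471) (nat_lit 11) .nil)))) (.g (nat_lit 0) (.e (nat_lit 393959) (nat_lit 0) .nil) .nil)))) (.nd (nat_lit 9) 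
(.lf (nat_lit 588243) (.g (nat_lit 1278) (.e (nat_lit 500065) (nat_lit 18) (.e (nat_lit 65617) (nat_lit 10) (.e (nat_lit 344132) (nat_lit 26) (.e (nat_lit 557094) (nat_lit 12) .nil)))) (.g (nat_lit 0) (.e (nat_lit 393205) (nat_lit 0) .nil) .nil))) 
(.lf (nat_lit 588755) (.g (nat_lit 3047) (.e (nat_lit 532499) (nat_lit 1) (.e (nat_lit 57688) (nat_lit 156) (.e (nat_lit 163903) (nat_lit 12) (.e (nat_lit 426568) (nat_lit 34) (.e (nat_lit 393283) (nat_lit 24) (.e (nat_lit 434232) (nat_lit 23) .nil)))))) (.g (nat_lit 1) (.e (nat_lit 395253) (nat_lit 0) .nil) .nil))))))) (.nd (nat_lit 6) (.nd (nat_lit 7) (.nd (nat_lit 8) (.nd (nat_lit 9) 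
(.lf (nat_lit 587827) (.g (nat_lit 1807) (.e (nat_lit 401454) (nat_lit 12) (.e (nat_lit 483072) (nat_lit 26) (.e (nat_lit 532560) (nat_lit 14) (.e (nat_lit 376842) (nat_lit 11) (.e (nat_lit 433920) (nat_lit 35) .nil))))) (.g (nat_lit 1) (.e (nat_lit 392226) (nat_lit 0) .nil) .nil))) 
(.lf (nat_lit 588339) (.g (nat_lit 536) (.e (nat_lit 500074) (nat_lit 20) (.e (nat_lit 81956) (nat_lit 23) (.e (nat_lit 98349) (nat_lit 24) .nil))) (.g (nat_lit 0) (.e (nat_lit 393339) (nat_lit 0) .nil) .nil)))) (.nd (nat_lit 9) 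
(.lf (nat_lit 588083) (.g (nat_lit 826) (.e (nat_lit 499965) (nat_lit 14) (.e (nat_lit 1521) (nat_lit 108) (.e (nat_lit 336078) (nat_lit 9) (.e (nat_lit 336324) (nat_lit 18) .nil)))) (.g (nat_lit 0) (.e (nat_lit 392925) (nat_lit 0) .nil) .nil))) 
(.lf (nat_lit 588595) (.g (nat_lit 2682) (.e (nat_lit 507908) (nat_lit 0) (.e (nat_lit 5406) (nat_lit 302) (.e (nat_lit 65642) (nat_lit 15) (.e (nat_lit 3305) (nat_lit 202) (.e (nat_lit 573485) (nat_lit 13) (.e (nat_lit 65619) (nat_lit 10) (.e (nat_lit 344115) (nat_lit 20) .nil))))))) (.g (nat_lit 1) (.e (nat_lit 394942) (nat_lit 0) .nil) .nil))))) (.nd (nat_lit 8) (.nd (nat_lit 9) 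
(.lf (nat_lit 587955) (.g (nat_lit 2456) (.e (nat_lit 401457) (nat_lit 13) (.e (nat_lit 483413) (nat_lit 27) (.e (nat_lit 401448) (nat_lit 10) (.e (nat_lit 434203) (nat_lit 18) (.e (nat_lit 6063) (nat_lit 328) .nil))))) (.g (nat_lit 0) (.e (nat_lit 392547) (nat_lit 0) .nil) .nil))) 
(.lf (nat_lit 588467) (.g (nat_lit 2059) (.e (nat_lit 499910) (nat_lit 8) (.e (nat_lit 164023) (nat_lit 46) (.e (nat_lit 704738) (nat_lit 11) (.e (nat_lit 16392) (nat_lit 0) .nil)))) (.g (nat_lit 0) (.e (nat_lit 393815) (nat_lit 0) .nil) .nil)))) (.nd (nat_lit 9) 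
(.lf (nat_lit 588211) (.g (nat_lit 1714) (.e (nat_lit 500063) (nat_lit 18) (.e (nat_lit 65628) (nat_lit 14) (.e (nat_lit 401425) (nat_lit 2) (.e (nat_lit 196666) (nat_lit 13) .nil)))) (.g (nat_lit 0) (.e (nat_lit 393162) (nat_lit 0) .nil) .nil))) 
(.lf (nat_lit 588723) (.g (nat_lit 2010) (.e (nat_lit 532498) (nat_lit 1) (.e (nat_lit 57691) (nat_lit 156) (.e (nat_lit 163907) (nat_lit 12) (.e (nat_lit 426479) (nat_lit 27) (.e (nat_lit 336434) (nat_lit 30) .nil))))) (.g (nat_lit 0) (.e (nat_lit 395205) (nat_lit 0) .nil) .nil)))))) (.nd (nat_lit 7) (.nd (nat_lit 8) (.nd (nat_lit 9) 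
(.lf (nat_lit 587891) (.g (nat_lit 2648) (.e (nat_lit 401454) (nat_lit 12) (.e (nat_lit 475210) (nat_lit 41) (.e (nat_lit 712739) (nat_lit 27) (.e (nat_lit 426171) (nat_lit 7) (.e (nat_lit 409646) (nat_lit 18) (.e (nat_lit 311040) (nat_lit 35) .nil)))))) (.g (nat_lit 1) (.e (nat_lit 392298) (nat_lit 0) .nil) .nil))) 
(.lf (nat_lit 588403) (.g (nat_lit 834) (.e (nat_lit 500089) (nat_lit 22) (.e (nat_lit 131105) (nat_lit 9) (.e (nat_lit 336324) (nat_lit 18) (.e (nat_lit 204837) (nat_lit 20) .nil)))) (.g (nat_lit 0) (.e (nat_lit 393431) (nat_lit 0) .nil) .nil)))) (.nd (nat_lit 9) 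
(.lf (nat_lit 588147) (.g (nat_lit 2250) (.e (nat_lit 500046) (nat_lit 16) (.e (nat_lit 16416) (nat_lit 3) (.e (nat_lit 204813) (nat_lit 9) (.e (nat_lit 426133) (nat_lit 3) (.e (nat_lit 204813) (nat_lit 9) (.e (nat_lit 426031) (nat_lit 0) (.e (nat_lit 3126) (nat_lit 193) .nil))))))) (.g (nat_lit 1) (.e (nat_lit 393027) (nat_lit 0) .nil) .nil))) 
(.lf (nat_lit 588659) (.g (nat_lit 1350) (.e (nat_lit 532482) (nat_lit 0) (.e (nat_lit 6722) (nat_lit 362) (.e (nat_lit 180252) (nat_lit 10) (.e (nat_lit 573470) (nat_lit 11) (.e (nat_lit 16447) (nat_lit 10) .nil))))) (.g (nat_lit 0) (.e (nat_lit 395092) (nat_lit 0) .nil) .nil))))) (.nd (nat_lit 8) (.nd (nat_lit 9) 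
(.lf (nat_lit 588019) (.g (nat_lit 2780) (.e (nat_lit 401459) (nat_lit 13) (.e (nat_lit 483410) (nat_lit 27) (.e (nat_lit 401459) (nat_lit 13) (.e (nat_lit 491264) (nat_lit 27) .nil)))) (.g (nat_lit 1) (.e (nat_lit 392657) (nat_lit 0) .nil) .nil))) 
(.lf (nat_lit 588531) (.g (nat_lit 2247) (.e (nat_lit 499929) (nat_lit 11) (.e (nat_lit 188452) (nat_lit 23) (.e (nat_lit 204846) (nat_lit 24) (.e (nat_lit 319534) (nat_lit 16) .nil)))) (.g (nat_lit 0) (.e (nat_lit 394296) (nat_lit 0) .nil) .nil)))) (.nd (nat_lit 9) 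
(.lf (nat_lit 588275) (.g (nat_lit 2625) (.e (nat_lit 500065) (nat_lit 18) (.e (nat_lit 65630) (nat_lit 14) (.e (nat_lit 401425) (nat_lit 2) (.e (nat_lit 196666) (nat_lit 13) (.e (nat_lit 65630) (nat_lit 14) (.e (nat_lit 401412) (nat_lit 0) (.e (nat_lit 3139) (nat_lit 193) .nil))))))) (.g (nat_lit 1) (.e (nat_lit 393250) (nat_lit 0) .nil) .nil))) 
(.lf (nat_lit 588787) (.g (nat_lit 4374) (.e (nat_lit 532499) (nat_lit 1) (.e (nat_lit 57847) (nat_lit 252) (.e (nat_lit 57345) (nat_lit 0) (.e (nat_lit 1860) (nat_lit 124) (.e (nat_lit 557105) (nat_lit 14) (.e (nat_lit 180252) (nat_lit 10) (.e (nat_lit 573482) (nat_lit 13) (.e (nat_lit 65637) (nat_lit 15) (.e (nat_lit 3253) (nat_lit 197) .nil))))))))) (.g (nat_lit 1) (.e (nat_lit 395323) (nat_lit 0) .nil) .nil))))))))) 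
(.nd (nat_lit 4) (.nd (nat_lit 5) (.nd (nat_lit 6) (.nd (nat_lit 7) (.nd (nat_lit 8) 
(.nd (nat_lit 9) 
(.lf (nat_lit 587787) (.g (nat_lit 3316) (.e (nat_lit 401451) (nat_lit 12) (.e (nat_lit 475185) (nat_lit 29) (.e (nat_lit 557109) (nat_lit 15) (.e (nat_lit 188452) (nat_lit 23) (.e (nat_lit 212736) (nat_lit 33) .nil))))) (.g (nat_lit 1) (.e (nat_lit 392126) (nat_lit 0) .nil) .nil))) 
(.lf (nat_lit 588299) (.g (nat_lit 2238) (.e (nat_lit 500071) (nat_lit 19) (.e (nat_lit 73781) (nat_lit 32) (.e (nat_lit 2663) (nat_lit 167) (.e (nat_lit 196668) (nat_lit 14) (.e (nat_lit 81664) (nat_lit 35) .nil))))) (.g (nat_lit 0) (.e (nat_lit 393296) (nat_lit 0) .nil) .nil)))) (.nd (nat_lit 9) 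
(.lf (nat_lit 588043) (.g (nat_lit 3991) (.e (nat_lit 499727) (nat_lit 0) (.e (nat_lit 2797) (nat_lit 180) (.e (nat_lit 303143) (nat_lit 12) (.e (nat_lit 475185) (nat_lit 29) (.e (nat_lit 557100) (nat_lit 13) (.e (nat_lit 172113) (nat_lit 10) (.e (nat_lit 442112) (nat_lit 19) .nil))))))) (.g (nat_lit 1) (.e (nat_lit 392816) (nat_lit 0) .nil) .nil))) 
(.lf (nat_lit 588555) (.g (nat_lit 823) (.e (nat_lit 515840) (nat_lit 10) (.e (nat_lit 5664) (nat_lit 312) (.e (nat_lit 3062) (nat_lit 190) (.e (nat_lit 475185) (nat_lit 29) .nil)))) (.g (nat_lit 0) (.e (nat_lit 394638) (nat_lit 0) .nil) .nil))))) (.nd (nat_lit 8) (.nd (nat_lit 9) 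
(.lf (nat_lit 587915) (.g (nat_lit 1533) (.e (nat_lit 401456) (nat_lit 13) (.e (nat_lit 483409) (nat_lit 27) (.e (nat_lit 401459) (nat_lit 13) (.e (nat_lit 483410) (nat_lit 27) .nil)))) (.g (nat_lit 0) (.e (nat_lit 392425) (nat_lit 0) .nil) .nil))) 
(.lf (nat_lit 588427) (.g (nat_lit 618) (.e (nat_lit 499832) (nat_lit 5) (.e (nat_lit 2829) (nat_lit 182) (.e (nat_lit 409649) (nat_lit 18) (.e (nat_lit 303119) (nat_lit 3) .nil)))) (.g (nat_lit 0) (.e (nat_lit 393601) (nat_lit 0) .nil) .nil)))) (.nd (nat_lit 9) 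
(.lf (nat_lit 588171) (.g (nat_lit 447) (.e (nat_lit 500046) (nat_lit 16) (.e (nat_lit 16466) (nat_lit 13) (.e (nat_lit 483333) (nat_lit 0) .nil))) (.g (nat_lit 0) (.e (nat_lit 393054) (nat_lit 0) .nil) .nil))) 
(.lf (nat_lit 588683) (.g (nat_lit 1945) (.e (nat_lit 532482) (nat_lit 0) (.e (nat_lit 6724) (nat_lit 362) (.e (nat_lit 180252) (nat_lit 10) (.e (nat_lit 573471) (nat_lit 11) (.e (nat_lit 16453) (nat_lit 11) .nil))))) (.g (nat_lit 0) (.e (nat_lit 395133) (nat_lit 0) .nil) .nil)))))) (.nd (nat_lit 7) (.nd (nat_lit 8) (.nd (nat_lit 9) 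
(.lf (nat_lit 587851) (.g (nat_lit 2364) (.e (nat_lit 401454) (nat_lit 12) (.e (nat_lit 475184) (nat_lit 29) (.e (nat_lit 557107) (nat_lit 15) (.e (nat_lit 188450) (nat_lit 23) (.e (nat_lit 204884) (nat_lit 33) .nil))))) (.g (nat_lit 1) (.e (nat_lit 392255) (nat_lit 0) .nil) .nil))) 
(.lf (nat_lit 588363) (.g (nat_lit 2501) (.e (nat_lit 500075) (nat_lit 20) (.e (nat_lit 81954) (nat_lit 23) (.e (nat_lit 98350) (nat_lit 24) (.e (nat_lit 409645) (nat_lit 18) (.e (nat_lit 303106) (nat_lit 0) (.e (nat_lit 3114) (nat_lit 193) .nil)))))) (.g (nat_lit 1) (.e (nat_lit 393365) (nat_lit 0) .nil) .nil)))) (.nd (nat_lit 9) 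
(.lf (nat_lit 588107) (.g (nat_lit 2847) (.e (nat_lit 499991) (nat_lit 14) (.e (nat_lit 1673) (nat_lit 116) (.e (nat_lit 401447) (nat_lit 10) (.e (nat_lit 434238) (nat_lit 25) (.e (nat_lit 548898) (nat_lit 14) (.e (nat_lit 3022) (nat_lit 187) (.e (nat_lit 450575) (nat_lit 1) .nil))))))) (.g (nat_lit 1) (.e (nat_lit 392969) (nat_lit 0) .nil) .nil))) 
(.lf (nat_lit 588619) (.g (nat_lit 4003) (.e (nat_lit 532481) (nat_lit 0) (.e (nat_lit 6724) (nat_lit 362) (.e (nat_lit 180243) (nat_lit 5) (.e (nat_lit 532569) (nat_lit 16) (.e (nat_lit 401446) (nat_lit 10) (.e (nat_lit 434231) (nat_lit 23) .nil)))))) (.g (nat_lit 1) (.e (nat_lit 395026) (nat_lit 0) .nil) .nil))))) (.nd (nat_lit 8) (.nd (nat_lit 9) 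
(.lf (nat_lit 587979) (.g (nat_lit 659) (.e (nat_lit 401458) (nat_lit 13) (.e (nat_lit 483372) (nat_lit 21) (.e (nat_lit 319496) (nat_lit 10) .nil))) (.g (nat_lit 0) (.e (nat_lit 392599) (nat_lit 0) .nil) .nil))) 
(.lf (nat_lit 588491) (.g (nat_lit 2288) (.e (nat_lit 499918) (nat_lit 9) (.e (nat_lit 172120) (nat_lit 12) (.e (nat_lit 475185) (nat_lit 29) (.e (nat_lit 557105) (nat_lit 14) .nil)))) (.g (nat_lit 0) (.e (nat_lit 393939) (nat_lit 0) .nil) .nil)))) (.nd (nat_lit 9) 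
(.lf (nat_lit 588235) (.g (nat_lit 1669) (.e (nat_lit 500065) (nat_lit 18) (.e (nat_lit 65617) (nat_lit 10) (.e (nat_lit 344132) (nat_lit 26) (.e (nat_lit 557093) (nat_lit 12) (.e (nat_lit 164022) (nat_lit 46) .nil))))) (.g (nat_lit 0) (.e (nat_lit 393197) (nat_lit 0) .nil) .nil))) 
(.lf (nat_lit 588747) (.g (nat_lit 3773) (.e (nat_lit 532499) (nat_lit 1) (.e (nat_lit 57688) (nat_lit 156) (.e (nat_lit 163902) (nat_lit 12) (.e (nat_lit 426568) (nat_lit 34) (.e (nat_lit 393282) (nat_lit 24) (.e (nat_lit 434231) (nat_lit 23) .nil)))))) (.g (nat_lit 1) (.e (nat_lit 395244) (nat_lit 0) .nil) .nil))))))) (.nd (nat_lit 6) (.nd (nat_lit 7) (.nd (nat_lit 8) (.nd (nat_lit 9) 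
(.lf (nat_lit 587819) (.g (nat_lit 1504) (.e (nat_lit 401454) (nat_lit 12) (.e (nat_lit 475171) (nat_lit 22) (.e (nat_lit 499732) (nat_lit 0) (.e (nat_lit 2788) (nat_lit 179) (.e (nat_lit 294959) (nat_lit 13) (.e (nat_lit 401152) (nat_lit 16) .nil)))))) (.g (nat_lit 1) (.e (nat_lit 392199) (nat_lit 0) .nil) .nil))) 
(.lf (nat_lit 588331) (.g (nat_lit 2047) (.e (nat_lit 500074) (nat_lit 20) (.e (nat_lit 81954) (nat_lit 23) (.e (nat_lit 98350) (nat_lit 24) (.e (nat_lit 409643) (nat_lit 18) .nil)))) (.g (nat_lit 0) (.e (nat_lit 393331) (nat_lit 0) .nil) .nil)))) (.nd (nat_lit 9) 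
(.lf (nat_lit 588075) (.g (nat_lit 2095) (.e (nat_lit 499780) (nat_lit 1) (.e (nat_lit 57816) (nat_lit 246) (.e (nat_lit 57878) (nat_lit 270) (.e (nat_lit 496) (nat_lit 39) (.e (nat_lit 483406) (nat_lit 26) (.e (nat_lit 385057) (nat_lit 22) .nil)))))) (.g (nat_lit 1) (.e (nat_lit 392905) (nat_lit 0) .nil) .nil))) 
(.lf (nat_lit 588587) (.g (nat_lit 2859) (.e (nat_lit 507906) (nat_lit 0) (.e (nat_lit 5412) (nat_lit 303) (.e (nat_lit 73739) (nat_lit 1) (.e (nat_lit 499842) (nat_lit 5) (.e (nat_lit 3102) (nat_lit 192) (.e (nat_lit 491560) (nat_lit 10) (.e (nat_lit 344115) (nat_lit 20) .nil))))))) (.g (nat_lit 1) (.e (nat_lit 394930) (nat_lit 0) .nil) .nil))))) (.nd (nat_lit 8) (.nd (nat_lit 9) 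
(.lf (nat_lit 587947) (.g (nat_lit 1992) (.e (nat_lit 401457) (nat_lit 13) (.e (nat_lit 483413) (nat_lit 27) (.e (nat_lit 401447) (nat_lit 10) (.e (nat_lit 434284) (nat_lit 41) .nil)))) (.g (nat_lit 0) (.e (nat_lit 392536) (nat_lit 0) .nil) .nil))) 
(.lf (nat_lit 588459) (.g (nat_lit 1296) (.e (nat_lit 499902) (nat_lit 7) (.e (nat_lit 24628) (nat_lit 9) (.e (nat_lit 336019) (nat_lit 3) (.e (nat_lit 98384) (nat_lit 32) .nil)))) (.g (nat_lit 0) (.e (nat_lit 393740) (nat_lit 0) .nil) .nil)))) (.nd (nat_lit 9) 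
(.lf (nat_lit 588203) (.g (nat_lit 2193) (.e (nat_lit 500060) (nat_lit 18) (.e (nat_lit 65630) (nat_lit 14) (.e (nat_lit 401428) (nat_lit 3) (.e (nat_lit 204855) (nat_lit 26) (.e (nat_lit 336226) (nat_lit 14) .nil))))) (.g (nat_lit 0) (.e (nat_lit 393150) (nat_lit 0) .nil) .nil))) 
(.lf (nat_lit 588715) (.g (nat_lit 2295) (.e (nat_lit 532498) (nat_lit 1) (.e (nat_lit 57688) (nat_lit 156) (.e (nat_lit 163907) (nat_lit 12) (.e (nat_lit 426479) (nat_lit 27) .nil)))) (.g (nat_lit 0) (.e (nat_lit 395193) (nat_lit 0) .nil) .nil)))))) (.nd (nat_lit 7) (.nd (nat_lit 8) (.nd (nat_lit 9) 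
(.lf (nat_lit 587883) (.g (nat_lit 2557) (.e (nat_lit 401454) (nat_lit 12) (.e (nat_lit 475209) (nat_lit 41) (.e (nat_lit 712742) (nat_lit 27) (.e (nat_lit 426173) (nat_lit 7) (.e (nat_lit 409649) (nat_lit 18) (.e (nat_lit 311040) (nat_lit 35) .nil)))))) (.g (nat_lit 1) (.e (nat_lit 392290) (nat_lit 0) .nil) .nil))) 
(.lf (nat_lit 588395) (.g (nat_lit 1757) (.e (nat_lit 500078) (nat_lit 20) (.e (nat_lit 81950) (nat_lit 21) (.e (nat_lit 57687) (nat_lit 156) (.e (nat_lit 163886) (nat_lit 5) (.e (nat_lit 229120) (nat_lit 17) .nil))))) (.g (nat_lit 0) (.e (nat_lit 393408) (nat_lit 0) .nil) .nil)))) (.nd (nat_lit 9) 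
(.lf (nat_lit 588139) (.g (nat_lit 2097) (.e (nat_lit 500046) (nat_lit 16) (.e (nat_lit 16416) (nat_lit 3) (.e (nat_lit 204809) (nat_lit 9) (.e (nat_lit 426139) (nat_lit 3) (.e (nat_lit 212736) (nat_lit 10) .nil))))) (.g (nat_lit 0) (.e (nat_lit 393019) (nat_lit 0) .nil) .nil))) 
(.lf (nat_lit 588651) (.g (nat_lit 2780) (.e (nat_lit 532482) (nat_lit 0) (.e (nat_lit 6722) (nat_lit 362) (.e (nat_lit 180244) (nat_lit 5) (.e (nat_lit 532523) (nat_lit 7) (.e (nat_lit 319505) (nat_lit 10) (.e (nat_lit 5712) (nat_lit 312) (.e (nat_lit 2505) (nat_lit 157) (.e (nat_lit 3249) (nat_lit 197) .nil)))))))) (.g (nat_lit 1) (.e (nat_lit 395079) (nat_lit 0) .nil) .nil))))) 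
(.nd (nat_lit 8) (.nd (nat_lit 9) 
(.lf (nat_lit 588011) (.g (nat_lit 1297) (.e (nat_lit 401459) (nat_lit 13) (.e (nat_lit 483410) (nat_lit 27) (.e (nat_lit 401415) (nat_lit 0) (.e (nat_lit 7936) (nat_lit 390) .nil)))) (.g (nat_lit 0) (.e (nat_lit 392649) (nat_lit 0) .nil) .nil))) 
(.lf (nat_lit 588523) (.g (nat_lit 2687) (.e (nat_lit 499929) (nat_lit 11) (.e (nat_lit 188451) (nat_lit 23) (.e (nat_lit 204846) (nat_lit 24) (.e (nat_lit 319504) (nat_lit 10) (.e (nat_lit 5396) (nat_lit 301) .nil))))) (.g (nat_lit 0) (.e (nat_lit 394285) (nat_lit 0) .nil) .nil)))) (.nd (nat_lit 9) 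
(.lf (nat_lit 588267) (.g (nat_lit 2779) (.e (nat_lit 500065) (nat_lit 18) (.e (nat_lit 65628) (nat_lit 14) (.e (nat_lit 401425) (nat_lit 2) (.e (nat_lit 196670) (nat_lit 14) (.e (nat_lit 73779) (nat_lit 32) .nil))))) (.g (nat_lit 0) (.e (nat_lit 393241) (nat_lit 0) .nil) .nil))) 
(.lf (nat_lit 588779) (.g (nat_lit 2183) (.e (nat_lit 532499) (nat_lit 1) (.e (nat_lit 57692) (nat_lit 156) (.e (nat_lit 163905) (nat_lit 12) (.e (nat_lit 426568) (nat_lit 34) (.e (nat_lit 393284) (nat_lit 24) (.e (nat_lit 434233) (nat_lit 23) .nil)))))) (.g (nat_lit 1) (.e (nat_lit 395304) (nat_lit 0) .nil) .nil)))))))) 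
(.nd (nat_lit 5) (.nd (nat_lit 6) (.nd (nat_lit 7) (.nd (nat_lit 8) (.nd (nat_lit 9) 
(.lf (nat_lit 587803) (.g (nat_lit 3812) (.e (nat_lit 401453) (nat_lit 12) (.e (nat_lit 475184) (nat_lit 29) (.e (nat_lit 557107) (nat_lit 15) (.e (nat_lit 188452) (nat_lit 23) (.e (nat_lit 204884) (nat_lit 33) .nil))))) (.g (nat_lit 1) (.e (nat_lit 392167) (nat_lit 0) .nil) .nil))) 
(.lf (nat_lit 588315) (.g (nat_lit 2376) (.e (nat_lit 500073) (nat_lit 19) (.e (nat_lit 73754) (nat_lit 8) (.e (nat_lit 557100) (nat_lit 13) (.e (nat_lit 172135) (nat_lit 15) .nil)))) (.g (nat_lit 0) (.e (nat_lit 393313) (nat_lit 0) .nil) .nil)))) (.nd (nat_lit 9) 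
(.lf (nat_lit 588059) (.g (nat_lit 2368) (.e (nat_lit 499726) (nat_lit 0) (.e (nat_lit 1349) (nat_lit 102) (.e (nat_lit 286759) (nat_lit 12) (.e (nat_lit 385074) (nat_lit 31) (.e (nat_lit 573484) (nat_lit 13) .nil))))) (.g (nat_lit 0) (.e (nat_lit 392847) (nat_lit 0) .nil) .nil))) 
(.lf (nat_lit 588571) (.g (nat_lit 1911) (.e (nat_lit 507946) (nat_lit 18) (.e (nat_lit 303131) (nat_lit 9) (.e (nat_lit 426125) (nat_lit 2) (.e (nat_lit 196637) (nat_lit 9) .nil)))) (.g (nat_lit 0) (.e (nat_lit 394719) (nat_lit 0) .nil) .nil))))) (.nd (nat_lit 8) (.nd (nat_lit 9) 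
(.lf (nat_lit 587931) (.g (nat_lit 1497) (.e (nat_lit 401457) (nat_lit 13) (.e (nat_lit 483383) (nat_lit 23) (.e (nat_lit 335999) (nat_lit 1) (.e (nat_lit 57872) (nat_lit 264) .nil)))) (.g (nat_lit 0) (.e (nat_lit 392480) (nat_lit 0) .nil) .nil))) 
(.lf (nat_lit 588443) (.g (nat_lit 2758) (.e (nat_lit 499847) (nat_lit 5) (.e (nat_lit 3017) (nat_lit 187) (.e (nat_lit 450588) (nat_lit 10) (.e (nat_lit 573475) (nat_lit 12) (.e (nat_lit 57574) (nat_lit 55) .nil))))) (.g (nat_lit 0) (.e (nat_lit 393663) (nat_lit 0) .nil) .nil)))) (.nd (nat_lit 9) 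
(.lf (nat_lit 588187) (.g (nat_lit 628) (.e (nat_lit 500048) (nat_lit 16) (.e (nat_lit 16448) (nat_lit 10) (.e (nat_lit 434231) (nat_lit 23) .nil))) (.g (nat_lit 0) (.e (nat_lit 393089) (nat_lit 0) .nil) .nil))) 
(.lf (nat_lit 588699) (.g (nat_lit 3552) (.e (nat_lit 532490) (nat_lit 0) (.e (nat_lit 6674) (nat_lit 357) (.e (nat_lit 2936) (nat_lit 184) (.e (nat_lit 426401) (nat_lit 15) (.e (nat_lit 1858) (nat_lit 124) (.e (nat_lit 557101) (nat_lit 13) (.e (nat_lit 172115) (nat_lit 10) (.e (nat_lit 434231) (nat_lit 23) .nil)))))))) (.g (nat_lit 1) (.e (nat_lit 395175) (nat_lit 0) .nil) .nil)))))) 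
(.nd (nat_lit 7) (.nd (nat_lit 8) (.nd (nat_lit 9) 
(.lf (nat_lit 587867) (.g (nat_lit 1810) (.e (nat_lit 401454) (nat_lit 12) (.e (nat_lit 475197) (nat_lit 40) (.e (nat_lit 704595) (nat_lit 5) (.e (nat_lit 180285) (nat_lit 45) (.e (nat_lit 2817) (nat_lit 181) (.e (nat_lit 319232) (nat_lit 35) .nil)))))) (.g (nat_lit 1) (.e (nat_lit 392274) (nat_lit 0) .nil) .nil))) 
(.lf (nat_lit 588379) (.g (nat_lit 2838) (.e (nat_lit 500076) (nat_lit 20) (.e (nat_lit 81956) (nat_lit 23) (.e (nat_lit 98350) (nat_lit 24) (.e (nat_lit 409636) (nat_lit 14) .nil)))) (.g (nat_lit 0) (.e (nat_lit 393390) (nat_lit 0) .nil) .nil)))) (.nd (nat_lit 9) 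
(.lf (nat_lit 588123) (.g (nat_lit 840) (.e (nat_lit 507648) (nat_lit 14) (.e (nat_lit 375) (nat_lit 32) (.e (nat_lit 426173) (nat_lit 7) (.e (nat_lit 409617) (nat_lit 10) .nil)))) (.g (nat_lit 0) (.e (nat_lit 392987) (nat_lit 0) .nil) .nil))) 
(.lf (nat_lit 588635) (.g (nat_lit 4172) (.e (nat_lit 532482) (nat_lit 0) (.e (nat_lit 6203) (nat_lit 332) (.e (nat_lit 2798) (nat_lit 180) (.e (nat_lit 303119) (nat_lit 3) (.e (nat_lit 204846) (nat_lit 24) (.e (nat_lit 319491) (nat_lit 0) (.e (nat_lit 5761) (nat_lit 315) (.e (nat_lit 163962) (nat_lit 25) .nil)))))))) (.g (nat_lit 1) (.e (nat_lit 395057) (nat_lit 0) .nil) .nil))))) 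
(.nd (nat_lit 8) (.nd (nat_lit 9) 
(.lf (nat_lit 587995) (.g (nat_lit 1841) (.e (nat_lit 401458) (nat_lit 13) (.e (nat_lit 483409) (nat_lit 27) (.e (nat_lit 401459) (nat_lit 13) (.e (nat_lit 491264) (nat_lit 27) .nil)))) (.g (nat_lit 1) (.e (nat_lit 392624) (nat_lit 0) .nil) .nil))) 
(.lf (nat_lit 588507) (.g (nat_lit 2191) (.e (nat_lit 499919) (nat_lit 9) (.e (nat_lit 172115) (nat_lit 10) (.e (nat_lit 434244) (nat_lit 28) (.e (nat_lit 573471) (nat_lit 11) (.e (nat_lit 16425) (nat_lit 7) (.e (nat_lit 409623) (nat_lit 10) (.e (nat_lit 555) (nat_lit 41) .nil))))))) (.g (nat_lit 1) (.e (nat_lit 393975) (nat_lit 0) .nil) .nil)))) (.nd (nat_lit 9) 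
(.lf (nat_lit 588251) (.g (nat_lit 2684) (.e (nat_lit 500065) (nat_lit 18) (.e (nat_lit 65617) (nat_lit 10) (.e (nat_lit 344133) (nat_lit 26) (.e (nat_lit 557091) (nat_lit 12) (.e (nat_lit 164022) (nat_lit 46) (.e (nat_lit 704738) (nat_lit 11) (.e (nat_lit 16397) (nat_lit 0) (.e (nat_lit 3147) (nat_lit 193) .nil)))))))) (.g (nat_lit 1) (.e (nat_lit 393213) (nat_lit 0) .nil) .nil))) 
(.lf (nat_lit 588763) (.g (nat_lit 1664) (.e (nat_lit 532499) (nat_lit 1) (.e (nat_lit 57688) (nat_lit 156) (.e (nat_lit 163907) (nat_lit 12) (.e (nat_lit 426481) (nat_lit 27) .nil)))) (.g (nat_lit 0) (.e (nat_lit 395262) (nat_lit 0) .nil) .nil))))))) (.nd (nat_lit 6) (.nd (nat_lit 7) (.nd (nat_lit 8) (.nd (nat_lit 9) 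
(.lf (nat_lit 587835) (.g (nat_lit 3522) (.e (nat_lit 401454) (nat_lit 12) (.e (nat_lit 475179) (nat_lit 24) (.e (nat_lit 516117) (nat_lit 1) (.e (nat_lit 164330) (nat_lit 230) (.e (nat_lit 163946) (nat_lit 20) .nil))))) (.g (nat_lit 0) (.e (nat_lit 392235) (nat_lit 0) .nil) .nil))) 
(.lf (nat_lit 588347) (.g (nat_lit 2893) (.e (nat_lit 500074) (nat_lit 20) (.e (nat_lit 81956) (nat_lit 23) (.e (nat_lit 98350) (nat_lit 24) (.e (nat_lit 409649) (nat_lit 18) (.e (nat_lit 303106) (nat_lit 0) .nil))))) (.g (nat_lit 0) (.e (nat_lit 393347) (nat_lit 0) .nil) .nil)))) (.nd (nat_lit 9) 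
(.lf (nat_lit 588091) (.g (nat_lit 2237) (.e (nat_lit 499974) (nat_lit 14) (.e (nat_lit 1673) (nat_lit 116) (.e (nat_lit 401448) (nat_lit 10) (.e (nat_lit 434227) (nat_lit 20) (.e (nat_lit 507930) (nat_lit 10) .nil))))) (.g (nat_lit 0) (.e (nat_lit 392943) (nat_lit 0) .nil) .nil))) 
(.lf (nat_lit 588603) (.g (nat_lit 3775) (.e (nat_lit 507925) (nat_lit 9) (.e (nat_lit 311321) (nat_lit 9) (.e (nat_lit 426140) (nat_lit 3) (.e (nat_lit 204846) (nat_lit 24) (.e (nat_lit 319534) (nat_lit 16) (.e (nat_lit 286728) (nat_lit 0) (.e (nat_lit 1774) (nat_lit 118) .nil))))))) (.g (nat_lit 1) (.e (nat_lit 394951) (nat_lit 0) .nil) .nil))))) (.nd (nat_lit 8) (.nd (nat_lit 9) 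
(.lf (nat_lit 587963) (.g (nat_lit 1965) (.e (nat_lit 401457) (nat_lit 13) (.e (nat_lit 483413) (nat_lit 27) (.e (nat_lit 401455) (nat_lit 13) (.e (nat_lit 491264) (nat_lit 27) .nil)))) (.g (nat_lit 1) (.e (nat_lit 392562) (nat_lit 0) .nil) .nil))) 
(.lf (nat_lit 588475) (.g (nat_lit 3605) (.e (nat_lit 499913) (nat_lit 9) (.e (nat_lit 172133) (nat_lit 15) (.e (nat_lit 2059) (nat_lit 142) (.e (nat_lit 704589) (nat_lit 3) (.e (nat_lit 163975) (nat_lit 30) .nil))))) (.g (nat_lit 0) (.e (nat_lit 393874) (nat_lit 0) .nil) .nil)))) (.nd (nat_lit 9) 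
(.lf (nat_lit 588219) (.g (nat_lit 1828) (.e (nat_lit 500065) (nat_lit 18) (.e (nat_lit 65610) (nat_lit 10) (.e (nat_lit 344117) (nat_lit 21) (.e (nat_lit 516106) (nat_lit 0) .nil)))) (.g (nat_lit 0) (.e (nat_lit 393181) (nat_lit 0) .nil) .nil))) 
(.lf (nat_lit 588731) (.g (nat_lit 1947) (.e (nat_lit 532498) (nat_lit 1) (.e (nat_lit 57849) (nat_lit 252) (.e (nat_lit 57407) (nat_lit 12) (.e (nat_lit 336454) (nat_lit 34) .nil)))) (.g (nat_lit 0) (.e (nat_lit 395217) (nat_lit 0) .nil) .nil)))))) (.nd (nat_lit 7) (.nd (nat_lit 8) (.nd (nat_lit 9) 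
(.lf (nat_lit 587899) (.g (nat_lit 2754) (.e (nat_lit 401455) (nat_lit 13) (.e (nat_lit 483410) (nat_lit 27) (.e (nat_lit 401459) (nat_lit 13) (.e (nat_lit 483411) (nat_lit 27) .nil)))) (.g (nat_lit 1) (.e (nat_lit 392342) (nat_lit 0) .nil) .nil))) 
(.lf (nat_lit 588411) (.g (nat_lit 1592) (.e (nat_lit 500090) (nat_lit 22) (.e (nat_lit 131105) (nat_lit 9) (.e (nat_lit 336324) (nat_lit 18) (.e (nat_lit 204838) (nat_lit 20) (.e (nat_lit 122624) (nat_lit 12) (.e (nat_lit 434219) (nat_lit 19) .nil)))))) (.g (nat_lit 1) (.e (nat_lit 393441) (nat_lit 0) .nil) .nil)))) (.nd (nat_lit 9) 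
(.lf (nat_lit 588155) (.g (nat_lit 1130) (.e (nat_lit 500046) (nat_lit 16) (.e (nat_lit 16433) (nat_lit 9) (.e (nat_lit 426566) (nat_lit 34) (.e (nat_lit 393253) (nat_lit 18) .nil)))) (.g (nat_lit 0) (.e (nat_lit 393036) (nat_lit 0) .nil) .nil))) 
(.lf (nat_lit 588667) (.g (nat_lit 509) (.e (nat_lit 532482) (nat_lit 0) (.e (nat_lit 6724) (nat_lit 362) (.e (nat_lit 180245) (nat_lit 5) .nil))) (.g (nat_lit 0) (.e (nat_lit 395105) (nat_lit 0) .nil) .nil))))) (.nd (nat_lit 8) (.nd (nat_lit 9) 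
(.lf (nat_lit 588027) (.g (nat_lit 3078) (.e (nat_lit 401460) (nat_lit 14) (.e (nat_lit 491535) (nat_lit 2) (.e (nat_lit 90176) (nat_lit 15) (.e (nat_lit 188450) (nat_lit 23) (.e (nat_lit 204885) (nat_lit 33) .nil))))) (.g (nat_lit 1) (.e (nat_lit 392681) (nat_lit 0) .nil) .nil))) 
(.lf (nat_lit 588539) (.g (nat_lit 424) (.e (nat_lit 499930) (nat_lit 11) (.e (nat_lit 188452) (nat_lit 23) (.e (nat_lit 204846) (nat_lit 24) .nil))) (.g (nat_lit 0) (.e (nat_lit 394308) (nat_lit 0) .nil) .nil)))) (.nd (nat_lit 9) 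
(.lf (nat_lit 588283) (.g (nat_lit 2270) (.e (nat_lit 500070) (nat_lit 19) (.e (nat_lit 73755) (nat_lit 8) (.e (nat_lit 557098) (nat_lit 13) (.e (nat_lit 172128) (nat_lit 15) .nil)))) (.g (nat_lit 0) (.e (nat_lit 393279) (nat_lit 0) .nil) .nil))) 
(.lf (nat_lit 588795) (.g (nat_lit 3471) (.e (nat_lit 532499) (nat_lit 1) (.e (nat_lit 57847) (nat_lit 252) (.e (nat_lit 57410) (nat_lit 12) (.e (nat_lit 336454) (nat_lit 34) (.e (nat_lit 483385) (nat_lit 23) (.e (nat_lit 336260) (nat_lit 15) (.e (nat_lit 3255) (nat_lit 197) .nil))))))) (.g (nat_lit 1) (.e (nat_lit 395333) (nat_lit 0) .nil) .nil)))))))))) 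
(.nd (nat_lit 3) (.nd (nat_lit 4) (.nd (nat_lit 5) (.nd (nat_lit 6) (.nd (nat_lit 7) 
(.nd (nat_lit 8) (.nd (nat_lit 9) 
(.lf (nat_lit 587783) (.g (nat_lit 4784) (.e (nat_lit 401451) (nat_lit 12) (.e (nat_lit 475185) (nat_lit 29) (.e (nat_lit 557109) (nat_lit 15) (.e (nat_lit 188449) (nat_lit 22) (.e (nat_lit 196626) (nat_lit 9) .nil))))) (.g (nat_lit 0) (.e (nat_lit 392122) (nat_lit 0) .nil) .nil))) 
(.lf (nat_lit 588295) (.g (nat_lit 2234) (.e (nat_lit 500071) (nat_lit 19) (.e (nat_lit 73753) (nat_lit 8) (.e (nat_lit 557098) (nat_lit 13) (.e (nat_lit 172133) (nat_lit 15) (.e (nat_lit 7936) (nat_lit 121) .nil))))) (.g (nat_lit 0) (.e (nat_lit 393292) (nat_lit 0) .nil) .nil)))) (.nd (nat_lit 9) 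
(.lf (nat_lit 588039) (.g (nat_lit 67) (.e (nat_lit 401473) (nat_lit 29) (.e (nat_lit 360192) (nat_lit 7) (.e (nat_lit 245778) (nat_lit 6) (.e (nat_lit 196352) (nat_lit 19) .nil)))) (.g (nat_lit 1) (.e (nat_lit 392724) (nat_lit 0) .nil) .nil))) 
(.lf (nat_lit 588551) (.g (nat_lit 2287) (.e (nat_lit 499933) (nat_lit 11) (.e (nat_lit 188452) (nat_lit 23) (.e (nat_lit 204846) (nat_lit 24) (.e (nat_lit 319533) (nat_lit 16) .nil)))) (.g (nat_lit 0) (.e (nat_lit 394418) (nat_lit 0) .nil) .nil))))) (.nd (nat_lit 8) (.nd (nat_lit 9) 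
(.lf (nat_lit 587911) (.g (nat_lit 1111) (.e (nat_lit 401456) (nat_lit 13) (.e (nat_lit 483380) (nat_lit 23) (.e (nat_lit 336265) (nat_lit 15) .nil))) (.g (nat_lit 0) (.e (nat_lit 392409) (nat_lit 0) .nil) .nil))) 
(.lf (nat_lit 588423) (.g (nat_lit 1702) (.e (nat_lit 499828) (nat_lit 5) (.e (nat_lit 3098) (nat_lit 192) (.e (nat_lit 491566) (nat_lit 12) (.e (nat_lit 385073) (nat_lit 31) .nil)))) (.g (nat_lit 0) (.e (nat_lit 393593) (nat_lit 0) .nil) .nil)))) (.nd (nat_lit 9) 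
(.lf (nat_lit 588167) (.g (nat_lit 1638) (.e (nat_lit 500046) (nat_lit 16) (.e (nat_lit 16463) (nat_lit 13) (.e (nat_lit 483341) (nat_lit 9) (.e (nat_lit 426108) (nat_lit 1) .nil)))) (.g (nat_lit 0) (.e (nat_lit 393050) (nat_lit 0) .nil) .nil))) 
(.lf (nat_lit 588679) (.g (nat_lit 2599) (.e (nat_lit 532482) (nat_lit 0) (.e (nat_lit 6724) (nat_lit 362) (.e (nat_lit 180252) (nat_lit 10) (.e (nat_lit 573471) (nat_lit 11) (.e (nat_lit 16433) (nat_lit 9) (.e (nat_lit 426093) (nat_lit 0) (.e (nat_lit 3238) (nat_lit 197) .nil))))))) (.g (nat_lit 1) (.e (nat_lit 395129) (nat_lit 0) .nil) .nil)))))) 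
(.nd (nat_lit 7) (.nd (nat_lit 8) (.nd (nat_lit 9) 
(.lf (nat_lit 587847) (.g (nat_lit 2438) (.e (nat_lit 401454) (nat_lit 12) (.e (nat_lit 475183) (nat_lit 29) (.e (nat_lit 557101) (nat_lit 13) (.e (nat_lit 172115) (nat_lit 10) (.e (nat_lit 434231) (nat_lit 23) (.e (nat_lit 540416) (nat_lit 16) .nil)))))) (.g (nat_lit 1) (.e (nat_lit 392251) (nat_lit 0) .nil) .nil))) 
(.lf (nat_lit 588359) (.g (nat_lit 2763) (.e (nat_lit 500075) (nat_lit 20) (.e (nat_lit 81954) (nat_lit 23) (.e (nat_lit 98349) (nat_lit 24) (.e (nat_lit 409646) (nat_lit 18) (.e (nat_lit 303106) (nat_lit 0) .nil))))) (.g (nat_lit 0) (.e (nat_lit 393361) (nat_lit 0) .nil) .nil)))) (.nd (nat_lit 9) 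
(.lf (nat_lit 588103) (.g (nat_lit 1704) (.e (nat_lit 499991) (nat_lit 14) (.e (nat_lit 1587) (nat_lit 111) (.e (nat_lit 360475) (nat_lit 8) (.e (nat_lit 557091) (nat_lit 12) .nil)))) (.g (nat_lit 0) (.e (nat_lit 392964) (nat_lit 0) .nil) .nil))) 
(.lf (nat_lit 588615) (.g (nat_lit 1439) (.e (nat_lit 532481) (nat_lit 0) (.e (nat_lit 2283) (nat_lit 150) (.e (nat_lit 770071) (nat_lit 8) (.e (nat_lit 65580) (nat_lit 6) (.e (nat_lit 155392) (nat_lit 0) .nil))))) (.g (nat_lit 0) (.e (nat_lit 394992) (nat_lit 0) .nil) .nil))))) (.nd (nat_lit 8) (.nd (nat_lit 9) 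
(.lf (nat_lit 587975) (.g (nat_lit 420) (.e (nat_lit 401458) (nat_lit 13) (.e (nat_lit 483350) (nat_lit 17) (.e (nat_lit 6627) (nat_lit 357) .nil))) (.g (nat_lit 0) (.e (nat_lit 392585) (nat_lit 0) .nil) .nil))) 
(.lf (nat_lit 588487) (.g (nat_lit 2431) (.e (nat_lit 499916) (nat_lit 9) (.e (nat_lit 172133) (nat_lit 15) (.e (nat_lit 2059) (nat_lit 142) (.e (nat_lit 704590) (nat_lit 3) (.e (nat_lit 163975) (nat_lit 30) .nil))))) (.g (nat_lit 0) (.e (nat_lit 393916) (nat_lit 0) .nil) .nil)))) (.nd (nat_lit 9) 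
(.lf (nat_lit 588231) (.g (nat_lit 5754) (.e (nat_lit 500065) (nat_lit 18) (.e (nat_lit 65617) (nat_lit 10) (.e (nat_lit 344130) (nat_lit 26) (.e (nat_lit 557090) (nat_lit 12) (.e (nat_lit 164022) (nat_lit 46) (.e (nat_lit 704629) (nat_lit 9) (.e (nat_lit 442) (nat_lit 33) (.e (nat_lit 434222) (nat_lit 19) .nil)))))))) (.g (nat_lit 1) (.e (nat_lit 393193) (nat_lit 0) .nil) .nil))) 
(.lf (nat_lit 588743) (.g (nat_lit 3923) (.e (nat_lit 532499) (nat_lit 1) (.e (nat_lit 57688) (nat_lit 156) (.e (nat_lit 163874) (nat_lit 3) (.e (nat_lit 204837) (nat_lit 20) (.e (nat_lit 114719) (nat_lit 23) (.e (nat_lit 98367) (nat_lit 27) (.e (nat_lit 434234) (nat_lit 23) .nil))))))) (.g (nat_lit 1) (.e (nat_lit 395237) (nat_lit 0) .nil) .nil))))))) 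
(.nd (nat_lit 6) (.nd (nat_lit 7) (.nd (nat_lit 8) (.nd (nat_lit 9) 
(.lf (nat_lit 587815) (.g (nat_lit 4013) (.e (nat_lit 401453) (nat_lit 12) (.e (nat_lit 475185) (nat_lit 29) (.e (nat_lit 557109) (nat_lit 15) (.e (nat_lit 188452) (nat_lit 23) (.e (nat_lit 204884) (nat_lit 33) .nil))))) (.g (nat_lit 1) (.e (nat_lit 392180) (nat_lit 0) .nil) .nil))) 
(.lf (nat_lit 588327) (.g (nat_lit 2267) (.e (nat_lit 500074) (nat_lit 20) (.e (nat_lit 81954) (nat_lit 23) (.e (nat_lit 98349) (nat_lit 24) (.e (nat_lit 409644) (nat_lit 18) (.e (nat_lit 303106) (nat_lit 0) (.e (nat_lit 3114) (nat_lit 193) .nil)))))) (.g (nat_lit 1) (.e (nat_lit 393327) (nat_lit 0) .nil) .nil)))) (.nd (nat_lit 9) 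
(.lf (nat_lit 588071) (.g (nat_lit 1995) (.e (nat_lit 507648) (nat_lit 0) (.e (nat_lit 2797) (nat_lit 180) (.e (nat_lit 303143) (nat_lit 12) (.e (nat_lit 475185) (nat_lit 29) (.e (nat_lit 557100) (nat_lit 13) .nil))))) (.g (nat_lit 0) (.e (nat_lit 392884) (nat_lit 0) .nil) .nil))) 
(.lf (nat_lit 588583) (.g (nat_lit 139) (.e (nat_lit 507943) (nat_lit 17) (.e (nat_lit 294959) (nat_lit 13) (.e (nat_lit 401152) (nat_lit 16) .nil))) (.g (nat_lit 0) (.e (nat_lit 394921) (nat_lit 0) .nil) .nil))))) (.nd (nat_lit 8) (.nd (nat_lit 9) 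
(.lf (nat_lit 587943) (.g (nat_lit 2200) (.e (nat_lit 401457) (nat_lit 13) (.e (nat_lit 483413) (nat_lit 27) (.e (nat_lit 401447) (nat_lit 10) (.e (nat_lit 434208) (nat_lit 18) .nil)))) (.g (nat_lit 0) (.e (nat_lit 392532) (nat_lit 0) .nil) .nil))) 
(.lf (nat_lit 588455) (.g (nat_lit 2031) (.e (nat_lit 499900) (nat_lit 7) (.e (nat_lit 24628) (nat_lit 9) (.e (nat_lit 336019) (nat_lit 3) (.e (nat_lit 98384) (nat_lit 32) (.e (nat_lit 475201) (nat_lit 40) .nil))))) (.g (nat_lit 0) (.e (nat_lit 393723) (nat_lit 0) .nil) .nil)))) (.nd (nat_lit 9) 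
(.lf (nat_lit 588199) (.g (nat_lit 1935) (.e (nat_lit 500059) (nat_lit 18) (.e (nat_lit 65630) (nat_lit 14) (.e (nat_lit 401425) (nat_lit 2) (.e (nat_lit 196681) (nat_lit 17) .nil)))) (.g (nat_lit 0) (.e (nat_lit 393144) (nat_lit 0) .nil) .nil))) 
(.lf (nat_lit 588711) (.g (nat_lit 544) (.e (nat_lit 532498) (nat_lit 1) (.e (nat_lit 57688) (nat_lit 156) (.e (nat_lit 163903) (nat_lit 12) .nil))) (.g (nat_lit 0) (.e (nat_lit 395189) (nat_lit 0) .nil) .nil)))))) (.nd (nat_lit 7) (.nd (nat_lit 8) (.nd (nat_lit 9) 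
(.lf (nat_lit 587879) (.g (nat_lit 2749) (.e (nat_lit 401454) (nat_lit 12) (.e (nat_lit 475205) (nat_lit 40) (.e (nat_lit 704591) (nat_lit 4) (.e (nat_lit 172082) (nat_lit 7) (.e (nat_lit 409646) (nat_lit 18) (.e (nat_lit 311040) (nat_lit 35) .nil)))))) (.g (nat_lit 1) (.e (nat_lit 392286) (nat_lit 0) .nil) .nil))) 
(.lf (nat_lit 588391) (.g (nat_lit 583) (.e (nat_lit 500077) (nat_lit 20) (.e (nat_lit 81954) (nat_lit 23) (.e (nat_lit 98325) (nat_lit 17) .nil))) (.g (nat_lit 0) (.e (nat_lit 393404) (nat_lit 0) .nil) .nil)))) (.nd (nat_lit 9) 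
(.lf (nat_lit 588135) (.g (nat_lit 2598) (.e (nat_lit 500046) (nat_lit 16) (.e (nat_lit 16416) (nat_lit 3) (.e (nat_lit 204809) (nat_lit 9) (.e (nat_lit 426124) (nat_lit 2) (.e (nat_lit 196624) (nat_lit 9) (.e (nat_lit 473) (nat_lit 36) (.e (nat_lit 458779) (nat_lit 19) .nil))))))) (.g (nat_lit 1) (.e (nat_lit 393015) (nat_lit 0) .nil) .nil))) 
(.lf (nat_lit 588647) (.g (nat_lit 320) (.e (nat_lit 532482) (nat_lit 0) (.e (nat_lit 6722) (nat_lit 362) (.e (nat_lit 180244) (nat_lit 5) .nil))) (.g (nat_lit 0) (.e (nat_lit 395075) (nat_lit 0) .nil) .nil))))) (.nd (nat_lit 8) (.nd (nat_lit 9) 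
(.lf (nat_lit 588007) (.g (nat_lit 3206) (.e (nat_lit 401459) (nat_lit 13) (.e (nat_lit 483409) (nat_lit 27) (.e (nat_lit 401438) (nat_lit 9) (.e (nat_lit 426530) (nat_lit 27) (.e (nat_lit 336235) (nat_lit 14) .nil))))) (.g (nat_lit 1) (.e (nat_lit 392645) (nat_lit 0) .nil) .nil))) 
(.lf (nat_lit 588519) (.g (nat_lit 1895) (.e (nat_lit 499928) (nat_lit 11) (.e (nat_lit 188452) (nat_lit 23) (.e (nat_lit 204846) (nat_lit 24) (.e (nat_lit 319533) (nat_lit 16) .nil)))) (.g (nat_lit 0) (.e (nat_lit 394275) (nat_lit 0) .nil) .nil)))) (.nd (nat_lit 9) 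
(.lf (nat_lit 588263) (.g (nat_lit 2797) (.e (nat_lit 500065) (nat_lit 18) (.e (nat_lit 65628) (nat_lit 14) (.e (nat_lit 401425) (nat_lit 2) (.e (nat_lit 196666) (nat_lit 13) (.e (nat_lit 65630) (nat_lit 14) (.e (nat_lit 401412) (nat_lit 0) (.e (nat_lit 3107) (nat_lit 193) .nil))))))) (.g (nat_lit 1) (.e (nat_lit 393237) (nat_lit 0) .nil) .nil))) 
(.lf (nat_lit 588775) (.g (nat_lit 1802) (.e (nat_lit 532499) (nat_lit 1) (.e (nat_lit 57692) (nat_lit 156) (.e (nat_lit 163874) (nat_lit 3) (.e (nat_lit 204838) (nat_lit 20) (.e (nat_lit 114719) (nat_lit 23) .nil))))) (.g (nat_lit 0) (.e (nat_lit 395298) (nat_lit 0) .nil) .nil)))))))) (.nd (nat_lit 5) (.nd (nat_lit 6) (.nd (nat_lit 7) (.nd (nat_lit 8) (.nd (nat_lit 9) 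
(.lf (nat_lit 587799) (.g (nat_lit 4608) (.e (nat_lit 401453) (nat_lit 12) (.e (nat_lit 475183) (nat_lit 29) (.e (nat_lit 557109) (nat_lit 15) (.e (nat_lit 188452) (nat_lit 23) (.e (nat_lit 204884) (nat_lit 33) .nil))))) (.g (nat_lit 1) (.e (nat_lit 392163) (nat_lit 0) .nil) .nil))) 
(.lf (nat_lit 588311) (.g (nat_lit 2213) (.e (nat_lit 500072) (nat_lit 19) (.e (nat_lit 73755) (nat_lit 8) (.e (nat_lit 557098) (nat_lit 13) (.e (nat_lit 172132) (nat_lit 15) .nil)))) (.g (nat_lit 0) (.e (nat_lit 393309) (nat_lit 0) .nil) .nil)))) (.nd (nat_lit 9) 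
(.lf (nat_lit 588055) (.g (nat_lit 4542) (.e (nat_lit 499718) (nat_lit 0) (.e (nat_lit 1374) (nat_lit 104) (.e (nat_lit 303145) (nat_lit 13) (.e (nat_lit 483337) (nat_lit 9) (.e (nat_lit 426107) (nat_lit 1) (.e (nat_lit 164347) (nat_lit 240) (.e (nat_lit 2601) (nat_lit 163) (.e (nat_lit 163950) (nat_lit 21) .nil)))))))) (.g (nat_lit 1) (.e (nat_lit 392843) (nat_lit 0) .nil) .nil))) 
(.lf (nat_lit 588567) (.g (nat_lit 4122) (.e (nat_lit 507945) (nat_lit 18) (.e (nat_lit 303143) (nat_lit 12) (.e (nat_lit 475185) (nat_lit 29) (.e (nat_lit 557107) (nat_lit 15) (.e (nat_lit 188441) (nat_lit 20) .nil))))) (.g (nat_lit 0) (.e (nat_lit 394700) (nat_lit 0) .nil) .nil))))) (.nd (nat_lit 8) (.nd (nat_lit 9) 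
(.lf (nat_lit 587927) (.g (nat_lit 3871) (.e (nat_lit 401457) (nat_lit 13) (.e (nat_lit 483341) (nat_lit 9) (.e (nat_lit 426107) (nat_lit 1) (.e (nat_lit 164406) (nat_lit 258) .nil)))) (.g (nat_lit 0) (.e (nat_lit 392467) (nat_lit 0) .nil) .nil))) 
(.lf (nat_lit 588439) (.g (nat_lit 2758) (.e (nat_lit 499845) (nat_lit 5) (.e (nat_lit 3017) (nat_lit 187) (.e (nat_lit 450588) (nat_lit 10) (.e (nat_lit 573475) (nat_lit 12) (.e (nat_lit 57574) (nat_lit 55) .nil))))) (.g (nat_lit 0) (.e (nat_lit 393639) (nat_lit 0) .nil) .nil)))) (.nd (nat_lit 9) 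
(.lf (nat_lit 588183) (.g (nat_lit 2705) (.e (nat_lit 500048) (nat_lit 16) (.e (nat_lit 16435) (nat_lit 9) (.e (nat_lit 426566) (nat_lit 34) (.e (nat_lit 393253) (nat_lit 18) (.e (nat_lit 164305) (nat_lit 226) .nil))))) (.g (nat_lit 0) (.e (nat_lit 393084) (nat_lit 0) .nil) .nil))) 
(.lf (nat_lit 588695) (.g (nat_lit 1515) (.e (nat_lit 532490) (nat_lit 0) (.e (nat_lit 1040) (nat_lit 81) (.e (nat_lit 5194) (nat_lit 294) (.e (nat_lit 57407) (nat_lit 12) (.e (nat_lit 336454) (nat_lit 34) .nil))))) (.g (nat_lit 0) (.e (nat_lit 395157) (nat_lit 0) .nil) .nil)))))) (.nd (nat_lit 7) (.nd (nat_lit 8) (.nd (nat_lit 9) 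
(.lf (nat_lit 587863) (.g (nat_lit 2159) (.e (nat_lit 401454) (nat_lit 12) (.e (nat_lit 475197) (nat_lit 40) (.e (nat_lit 704592) (nat_lit 4) (.e (nat_lit 172079) (nat_lit 7) (.e (nat_lit 409645) (nat_lit 18) (.e (nat_lit 311040) (nat_lit 35) .nil)))))) (.g (nat_lit 1) (.e (nat_lit 392270) (nat_lit 0) .nil) .nil))) 
(.lf (nat_lit 588375) (.g (nat_lit 2552) (.e (nat_lit 500075) (nat_lit 20) (.e (nat_lit 81956) (nat_lit 23) (.e (nat_lit 98350) (nat_lit 24) (.e (nat_lit 409646) (nat_lit 18) (.e (nat_lit 303106) (nat_lit 0) .nil))))) (.g (nat_lit 0) (.e (nat_lit 393378) (nat_lit 0) .nil) .nil)))) (.nd (nat_lit 9) 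
(.lf (nat_lit 588119) (.g (nat_lit 1927) (.e (nat_lit 499986) (nat_lit 14) (.e (nat_lit 1425) (nat_lit 108) (.e (nat_lit 336324) (nat_lit 18) (.e (nat_lit 204854) (nat_lit 26) (.e (nat_lit 336326) (nat_lit 18) .nil))))) (.g (nat_lit 0) (.e (nat_lit 392982) (nat_lit 0) .nil) .nil))) 
(.lf (nat_lit 588631) (.g (nat_lit 2190) (.e (nat_lit 532482) (nat_lit 0) (.e (nat_lit 6203) (nat_lit 332) (.e (nat_lit 2798) (nat_lit 180) (.e (nat_lit 303117) (nat_lit 2) (.e (nat_lit 196669) (nat_lit 14) (.e (nat_lit 73780) (nat_lit 32) (.e (nat_lit 2505) (nat_lit 157) (.e (nat_lit 3249) (nat_lit 197) .nil)))))))) (.g (nat_lit 1) (.e (nat_lit 395053) (nat_lit 0) .nil) .nil))))) 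
(.nd (nat_lit 8) (.nd (nat_lit 9) 
(.lf (nat_lit 587991) (.g (nat_lit 2251) (.e (nat_lit 401458) (nat_lit 13) (.e (nat_lit 483372) (nat_lit 21) (.e (nat_lit 319534) (nat_lit 16) (.e (nat_lit 286728) (nat_lit 0) (.e (nat_lit 2390) (nat_lit 156) .nil))))) (.g (nat_lit 0) (.e (nat_lit 392619) (nat_lit 0) .nil) .nil))) 
(.lf (nat_lit 588503) (.g (nat_lit 1027) (.e (nat_lit 499919) (nat_lit 9) (.e (nat_lit 172113) (nat_lit 10) (.e (nat_lit 434245) (nat_lit 28) (.e (nat_lit 573471) (nat_lit 11) .nil)))) (.g (nat_lit 0) (.e (nat_lit 393965) (nat_lit 0) .nil) .nil)))) (.nd (nat_lit 9) 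
(.lf (nat_lit 588247) (.g (nat_lit 2192) (.e (nat_lit 500065) (nat_lit 18) (.e (nat_lit 65617) (nat_lit 10) (.e (nat_lit 344133) (nat_lit 26) (.e (nat_lit 557091) (nat_lit 12) (.e (nat_lit 164022) (nat_lit 46) .nil))))) (.g (nat_lit 0) (.e (nat_lit 393209) (nat_lit 0) .nil) .nil))) 
(.lf (nat_lit 588759) (.g (nat_lit 3145) (.e (nat_lit 532499) (nat_lit 1) (.e (nat_lit 57688) (nat_lit 156) (.e (nat_lit 163905) (nat_lit 12) (.e (nat_lit 426568) (nat_lit 34) (.e (nat_lit 393283) (nat_lit 24) (.e (nat_lit 434232) (nat_lit 23) .nil)))))) (.g (nat_lit 1) (.e (nat_lit 395258) (nat_lit 0) .nil) .nil))))))) (.nd (nat_lit 6) (.nd (nat_lit 7) (.nd (nat_lit 8) (.nd (nat_lit 9) 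
(.lf (nat_lit 587831) (.g (nat_lit 471) (.e (nat_lit 401454) (nat_lit 12) (.e (nat_lit 483072) (nat_lit 26) (.e (nat_lit 532561) (nat_lit 14) (.e (nat_lit 376841) (nat_lit 11) (.e (nat_lit 433920) (nat_lit 35) .nil))))) (.g (nat_lit 1) (.e (nat_lit 392230) (nat_lit 0) .nil) .nil))) 
(.lf (nat_lit 588343) (.g (nat_lit 1647) (.e (nat_lit 500074) (nat_lit 20) (.e (nat_lit 81956) (nat_lit 23) (.e (nat_lit 98349) (nat_lit 24) (.e (nat_lit 417536) (nat_lit 18) .nil)))) (.g (nat_lit 0) (.e (nat_lit 393343) (nat_lit 0) .nil) .nil)))) (.nd (nat_lit 9) 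
(.lf (nat_lit 588087) (.g (nat_lit 2057) (.e (nat_lit 499972) (nat_lit 14) (.e (nat_lit 1399) (nat_lit 106) (.e (nat_lit 319531) (nat_lit 16) (.e (nat_lit 286735) (nat_lit 3) (.e (nat_lit 98374) (nat_lit 29) .nil))))) (.g (nat_lit 0) (.e (nat_lit 392939) (nat_lit 0) .nil) .nil))) 
(.lf (nat_lit 588599) (.g (nat_lit 1104) (.e (nat_lit 507910) (nat_lit 0) (.e (nat_lit 4995) (nat_lit 288) (.e (nat_lit 57883) (nat_lit 270) (.e (nat_lit 496) (nat_lit 39) (.e (nat_lit 483405) (nat_lit 26) (.e (nat_lit 385062) (nat_lit 23) .nil)))))) (.g (nat_lit 1) (.e (nat_lit 394946) (nat_lit 0) .nil) .nil))))) (.nd (nat_lit 8) (.nd (nat_lit 9) 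
(.lf (nat_lit 587959) (.g (nat_lit 2006) (.e (nat_lit 401457) (nat_lit 13) (.e (nat_lit 483413) (nat_lit 27) (.e (nat_lit 401448) (nat_lit 10) (.e (nat_lit 434208) (nat_lit 18) .nil)))) (.g (nat_lit 0) (.e (nat_lit 392555) (nat_lit 0) .nil) .nil))) 
(.lf (nat_lit 588471) (.g (nat_lit 1780) (.e (nat_lit 499910) (nat_lit 8) (.e (nat_lit 171776) (nat_lit 192) (.e (nat_lit 73746) (nat_lit 3) (.e (nat_lit 516098) (nat_lit 0) (.e (nat_lit 7591) (nat_lit 407) (.e (nat_lit 73740) (nat_lit 1) .nil)))))) (.g (nat_lit 1) (.e (nat_lit 393843) (nat_lit 0) .nil) .nil)))) (.nd (nat_lit 9) 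
(.lf (nat_lit 588215) (.g (nat_lit 1490) (.e (nat_lit 500065) (nat_lit 18) (.e (nat_lit 65571) (nat_lit 3) (.e (nat_lit 98342) (nat_lit 20) (.e (nat_lit 229120) (nat_lit 3) .nil)))) (.g (nat_lit 0) (.e (nat_lit 393173) (nat_lit 0) .nil) .nil))) 
(.lf (nat_lit 588727) (.g (nat_lit 1975) (.e (nat_lit 532498) (nat_lit 1) (.e (nat_lit 57847) (nat_lit 252) (.e (nat_lit 57407) (nat_lit 12) (.e (nat_lit 336454) (nat_lit 34) .nil)))) (.g (nat_lit 0) (.e (nat_lit 395213) (nat_lit 0) .nil) .nil)))))) (.nd (nat_lit 7) (.nd (nat_lit 8) (.nd (nat_lit 9) 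
(.lf (nat_lit 587895) (.g (nat_lit 537) (.e (nat_lit 401454) (nat_lit 12) (.e (nat_lit 475210) (nat_lit 41) (.e (nat_lit 712749) (nat_lit 28) .nil))) (.g (nat_lit 0) (.e (nat_lit 392303) (nat_lit 0) .nil) .nil))) 
(.lf (nat_lit 588407) (.g (nat_lit 3058) (.e (nat_lit 500089) (nat_lit 22) (.e (nat_lit 131109) (nat_lit 9) (.e (nat_lit 336019) (nat_lit 3) (.e (nat_lit 98350) (nat_lit 24) (.e (nat_lit 409645) (nat_lit 18) (.e (nat_lit 303112) (nat_lit 0) (.e (nat_lit 3144) (nat_lit 193) .nil))))))) (.g (nat_lit 1) (.e (nat_lit 393435) (nat_lit 0) .nil) .nil)))) (.nd (nat_lit 9) 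
(.lf (nat_lit 588151) (.g (nat_lit 2220) (.e (nat_lit 500046) (nat_lit 16) (.e (nat_lit 16416) (nat_lit 3) (.e (nat_lit 204813) (nat_lit 9) (.e (nat_lit 426139) (nat_lit 3) (.e (nat_lit 204813) (nat_lit 9) (.e (nat_lit 426009) (nat_lit 0) (.e (nat_lit 3135) (nat_lit 193) .nil))))))) (.g (nat_lit 1) (.e (nat_lit 393031) (nat_lit 0) .nil) .nil))) 
(.lf (nat_lit 588663) (.g (nat_lit 1582) (.e (nat_lit 532482) (nat_lit 0) (.e (nat_lit 6724) (nat_lit 362) (.e (nat_lit 180243) (nat_lit 5) (.e (nat_lit 532481) (nat_lit 0) (.e (nat_lit 7936) (nat_lit 362) .nil))))) (.g (nat_lit 0) (.e (nat_lit 395099) (nat_lit 0) .nil) .nil))))) (.nd (nat_lit 8) (.nd (nat_lit 9) 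
(.lf (nat_lit 588023) (.g (nat_lit 1385) (.e (nat_lit 401459) (nat_lit 13) (.e (nat_lit 483411) (nat_lit 27) (.e (nat_lit 401455) (nat_lit 13) (.e (nat_lit 491264) (nat_lit 27) .nil)))) (.g (nat_lit 1) (.e (nat_lit 392661) (nat_lit 0) .nil) .nil))) 
(.lf (nat_lit 588535) (.g (nat_lit 743) (.e (nat_lit 499930) (nat_lit 11) (.e (nat_lit 188446) (nat_lit 21) (.e (nat_lit 164177) (nat_lit 154) .nil))) (.g (nat_lit 0) (.e (nat_lit 394302) (nat_lit 0) .nil) .nil)))) (.nd (nat_lit 9) 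
(.lf (nat_lit 588279) (.g (nat_lit 4321) (.e (nat_lit 500065) (nat_lit 18) (.e (nat_lit 65630) (nat_lit 14) (.e (nat_lit 401428) (nat_lit 3) (.e (nat_lit 204863) (nat_lit 27) (.e (nat_lit 344066) (nat_lit 0) (.e (nat_lit 2508) (nat_lit 157) (.e (nat_lit 3141) (nat_lit 193) .nil))))))) (.g (nat_lit 1) (.e (nat_lit 393254) (nat_lit 0) .nil) .nil))) 
(.lf (nat_lit 588791) (.g (nat_lit 2810) (.e (nat_lit 532499) (nat_lit 1) (.e (nat_lit 57847) (nat_lit 252) (.e (nat_lit 57406) (nat_lit 12) (.e (nat_lit 336454) (nat_lit 34) (.e (nat_lit 483407) (nat_lit 26) .nil))))) (.g (nat_lit 0) (.e (nat_lit 395329) (nat_lit 0) .nil) .nil))))))))) (.nd (nat_lit 4) (.nd (nat_lit 5) (.nd (nat_lit 6) (.nd (nat_lit 7) (.nd (nat_lit 8) (.nd (nat_lit 9) 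
(.lf (nat_lit 587791) (.g (nat_lit 3553) (.e (nat_lit 401452) (nat_lit 12) (.e (nat_lit 475185) (nat_lit 29) (.e (nat_lit 557107) (nat_lit 15) (.e (nat_lit 188452) (nat_lit 23) (.e (nat_lit 204884) (nat_lit 33) .nil))))) (.g (nat_lit 1) (.e (nat_lit 392149) (nat_lit 0) .nil) .nil))) 
(.lf (nat_lit 588303) (.g (nat_lit 2559) (.e (nat_lit 500071) (nat_lit 19) (.e (nat_lit 73782) (nat_lit 32) (.e (nat_lit 2663) (nat_lit 167) (.e (nat_lit 196668) (nat_lit 14) (.e (nat_lit 81664) (nat_lit 35) .nil))))) (.g (nat_lit 0) (.e (nat_lit 393300) (nat_lit 0) .nil) .nil)))) (.nd (nat_lit 9) 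
(.lf (nat_lit 588047) (.g (nat_lit 841) (.e (nat_lit 499727) (nat_lit 0) (.e (nat_lit 2777) (nat_lit 178) (.e (nat_lit 286759) (nat_lit 12) .nil))) (.g (nat_lit 0) (.e (nat_lit 392821) (nat_lit 0) .nil) .nil))) 
(.lf (nat_lit 588559) (.g (nat_lit 2805) (.e (nat_lit 507942) (nat_lit 15) (.e (nat_lit 278566) (nat_lit 16) (.e (nat_lit 286733) (nat_lit 2) (.e (nat_lit 90170) (nat_lit 13) (.e (nat_lit 172113) (nat_lit 10) .nil))))) (.g (nat_lit 0) (.e (nat_lit 394644) (nat_lit 0) .nil) .nil))))) (.nd (nat_lit 8) (.nd (nat_lit 9) 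
(.lf (nat_lit 587919) (.g (nat_lit 2089) (.e (nat_lit 401456) (nat_lit 13) (.e (nat_lit 483413) (nat_lit 27) (.e (nat_lit 401448) (nat_lit 10) (.e (nat_lit 434200) (nat_lit 18) .nil)))) (.g (nat_lit 0) (.e (nat_lit 392457) (nat_lit 0) .nil) .nil))) 
(.lf (nat_lit 588431) (.g (nat_lit 2758) (.e (nat_lit 499836) (nat_lit 5) (.e (nat_lit 3017) (nat_lit 187) (.e (nat_lit 450588) (nat_lit 10) (.e (nat_lit 573475) (nat_lit 12) (.e (nat_lit 57574) (nat_lit 55) .nil))))) (.g (nat_lit 0) (.e (nat_lit 393614) (nat_lit 0) .nil) .nil)))) (.nd (nat_lit 9) 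
(.lf (nat_lit 588175) (.g (nat_lit 2201) (.e (nat_lit 500046) (nat_lit 16) (.e (nat_lit 16466) (nat_lit 13) (.e (nat_lit 483337) (nat_lit 9) (.e (nat_lit 426108) (nat_lit 1) (.e (nat_lit 164329) (nat_lit 230) .nil))))) (.g (nat_lit 0) (.e (nat_lit 393058) (nat_lit 0) .nil) .nil))) 
(.lf (nat_lit 588687) (.g (nat_lit 2798) (.e (nat_lit 532486) (nat_lit 0) (.e (nat_lit 6113) (nat_lit 332) (.e (nat_lit 1374) (nat_lit 104) (.e (nat_lit 303117) (nat_lit 2) (.e (nat_lit 196661) (nat_lit 12) .nil))))) (.g (nat_lit 0) (.e (nat_lit 395142) (nat_lit 0) .nil) .nil)))))) (.nd (nat_lit 7) (.nd (nat_lit 8) (.nd (nat_lit 9) 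
(.lf (nat_lit 587855) (.g (nat_lit 2228) (.e (nat_lit 401454) (nat_lit 12) (.e (nat_lit 475185) (nat_lit 29) (.e (nat_lit 557098) (nat_lit 13) (.e (nat_lit 172104) (nat_lit 9) .nil)))) (.g (nat_lit 0) (.e (nat_lit 392260) (nat_lit 0) .nil) .nil))) 
(.lf (nat_lit 588367) (.g (nat_lit 2777) (.e (nat_lit 500075) (nat_lit 20) (.e (nat_lit 81955) (nat_lit 23) (.e (nat_lit 98350) (nat_lit 24) (.e (nat_lit 409616) (nat_lit 10) (.e (nat_lit 5759) (nat_lit 315) .nil))))) (.g (nat_lit 0) (.e (nat_lit 393369) (nat_lit 0) .nil) .nil)))) (.nd (nat_lit 9) 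
(.lf (nat_lit 588111) (.g (nat_lit 2660) (.e (nat_lit 499991) (nat_lit 14) (.e (nat_lit 1673) (nat_lit 116) (.e (nat_lit 401448) (nat_lit 10) (.e (nat_lit 434238) (nat_lit 25) (.e (nat_lit 548898) (nat_lit 14) .nil))))) (.g (nat_lit 0) (.e (nat_lit 392973) (nat_lit 0) .nil) .nil))) 
(.lf (nat_lit 588623) (.g (nat_lit 3635) (.e (nat_lit 532481) (nat_lit 0) (.e (nat_lit 6724) (nat_lit 362) (.e (nat_lit 180250) (nat_lit 10) (.e (nat_lit 573471) (nat_lit 11) (.e (nat_lit 16447) (nat_lit 10) (.e (nat_lit 434231) (nat_lit 23) .nil)))))) (.g (nat_lit 1) (.e (nat_lit 395033) (nat_lit 0) .nil) .nil))))) (.nd (nat_lit 8) (.nd (nat_lit 9) 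
(.lf (nat_lit 587983) (.g (nat_lit 1582) (.e (nat_lit 401458) (nat_lit 13) (.e (nat_lit 483372) (nat_lit 21) (.e (nat_lit 319504) (nat_lit 10) (.e (nat_lit 5712) (nat_lit 312) .nil)))) (.g (nat_lit 0) (.e (nat_lit 392608) (nat_lit 0) .nil) .nil))) 
(.lf (nat_lit 588495) (.g (nat_lit 2334) (.e (nat_lit 499919) (nat_lit 9) (.e (nat_lit 172106) (nat_lit 10) (.e (nat_lit 434231) (nat_lit 23) (.e (nat_lit 532481) (nat_lit 0) .nil)))) (.g (nat_lit 0) (.e (nat_lit 393954) (nat_lit 0) .nil) .nil)))) (.nd (nat_lit 9) 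
(.lf (nat_lit 588239) (.g (nat_lit 2260) (.e (nat_lit 500065) (nat_lit 18) (.e (nat_lit 65617) (nat_lit 10) (.e (nat_lit 344132) (nat_lit 26) (.e (nat_lit 557093) (nat_lit 12) (.e (nat_lit 164022) (nat_lit 46) (.e (nat_lit 704738) (nat_lit 11) (.e (nat_lit 16401) (nat_lit 0) (.e (nat_lit 3141) (nat_lit 193) .nil)))))))) (.g (nat_lit 1) (.e (nat_lit 393201) (nat_lit 0) .nil) .nil))) 
(.lf (nat_lit 588751) (.g (nat_lit 1520) (.e (nat_lit 532499) (nat_lit 1) (.e (nat_lit 57688) (nat_lit 156) (.e (nat_lit 163903) (nat_lit 12) (.e (nat_lit 426481) (nat_lit 27) .nil)))) (.g (nat_lit 0) (.e (nat_lit 395248) (nat_lit 0) .nil) .nil))))))) (.nd (nat_lit 6) (.nd (nat_lit 7) (.nd (nat_lit 8) (.nd (nat_lit 9) 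
(.lf (nat_lit 587823) (.g (nat_lit 627) (.e (nat_lit 401454) (nat_lit 12) (.e (nat_lit 483072) (nat_lit 26) (.e (nat_lit 532559) (nat_lit 14) (.e (nat_lit 376841) (nat_lit 11) (.e (nat_lit 433920) (nat_lit 35) .nil))))) (.g (nat_lit 1) (.e (nat_lit 392222) (nat_lit 0) .nil) .nil))) 
(.lf (nat_lit 588335) (.g (nat_lit 2019) (.e (nat_lit 500074) (nat_lit 20) (.e (nat_lit 81954) (nat_lit 23) (.e (nat_lit 98367) (nat_lit 27) (.e (nat_lit 434268) (nat_lit 36) .nil)))) (.g (nat_lit 0) (.e (nat_lit 393335) (nat_lit 0) .nil) .nil)))) (.nd (nat_lit 9) 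
(.lf (nat_lit 588079) (.g (nat_lit 3649) (.e (nat_lit 499952) (nat_lit 14) (.e (nat_lit 1587) (nat_lit 111) (.e (nat_lit 360475) (nat_lit 8) (.e (nat_lit 557091) (nat_lit 12) (.e (nat_lit 164022) (nat_lit 46) (.e (nat_lit 704629) (nat_lit 9) (.e (nat_lit 452) (nat_lit 33) (.e (nat_lit 434219) (nat_lit 19) .nil)))))))) (.g (nat_lit 1) (.e (nat_lit 392915) (nat_lit 0) .nil) .nil))) 
(.lf (nat_lit 588591) (.g (nat_lit 2611) (.e (nat_lit 507907) (nat_lit 0) (.e (nat_lit 5406) (nat_lit 302) (.e (nat_lit 65642) (nat_lit 15) (.e (nat_lit 3305) (nat_lit 202) (.e (nat_lit 573485) (nat_lit 13) (.e (nat_lit 65619) (nat_lit 10) (.e (nat_lit 344115) (nat_lit 20) .nil))))))) (.g (nat_lit 1) (.e (nat_lit 394935) (nat_lit 0) .nil) .nil))))) (.nd (nat_lit 8) (.nd (nat_lit 9) 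
(.lf (nat_lit 587951) (.g (nat_lit 2729) (.e (nat_lit 401457) (nat_lit 13) (.e (nat_lit 483413) (nat_lit 27) (.e (nat_lit 401448) (nat_lit 10) (.e (nat_lit 434202) (nat_lit 18) (.e (nat_lit 6047) (nat_lit 326) .nil))))) (.g (nat_lit 0) (.e (nat_lit 392542) (nat_lit 0) .nil) .nil))) 
(.lf (nat_lit 588463) (.g (nat_lit 1120) (.e (nat_lit 499903) (nat_lit 7) (.e (nat_lit 24665) (nat_lit 14) (.e (nat_lit 409344) (nat_lit 27) .nil))) (.g (nat_lit 0) (.e (nat_lit 393748) (nat_lit 0) .nil) .nil)))) (.nd (nat_lit 9) 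
(.lf (nat_lit 588207) (.g (nat_lit 3137) (.e (nat_lit 500061) (nat_lit 18) (.e (nat_lit 65630) (nat_lit 14) (.e (nat_lit 401425) (nat_lit 2) (.e (nat_lit 196670) (nat_lit 14) (.e (nat_lit 81664) (nat_lit 35) .nil))))) (.g (nat_lit 0) (.e (nat_lit 393156) (nat_lit 0) .nil) .nil))) 
(.lf (nat_lit 588719) (.g (nat_lit 1705) (.e (nat_lit 532498) (nat_lit 1) (.e (nat_lit 57691) (nat_lit 156) (.e (nat_lit 163875) (nat_lit 3) (.e (nat_lit 204838) (nat_lit 20) .nil)))) (.g (nat_lit 0) (.e (nat_lit 395200) (nat_lit 0) .nil) .nil)))))) (.nd (nat_lit 7) (.nd (nat_lit 8) (.nd (nat_lit 9) 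
(.lf (nat_lit 587887) (.g (nat_lit 2353) (.e (nat_lit 401454) (nat_lit 12) (.e (nat_lit 475209) (nat_lit 41) (.e (nat_lit 712755) (nat_lit 30) (.e (nat_lit 450563) (nat_lit 0) (.e (nat_lit 5945) (nat_lit 322) (.e (nat_lit 57449) (nat_lit 20) .nil)))))) (.g (nat_lit 1) (.e (nat_lit 392294) (nat_lit 0) .nil) .nil))) 
(.lf (nat_lit 588399) (.g (nat_lit 918) (.e (nat_lit 500079) (nat_lit 20) (.e (nat_lit 81956) (nat_lit 23) (.e (nat_lit 98320) (nat_lit 17) .nil))) (.g (nat_lit 0) (.e (nat_lit 393421) (nat_lit 0) .nil) .nil)))) (.nd (nat_lit 9) 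
(.lf (nat_lit 588143) (.g (nat_lit 1415) (.e (nat_lit 500046) (nat_lit 16) (.e (nat_lit 16416) (nat_lit 3) (.e (nat_lit 204813) (nat_lit 9) (.e (nat_lit 426124) (nat_lit 2) .nil)))) (.g (nat_lit 0) (.e (nat_lit 393023) (nat_lit 0) .nil) .nil))) 
(.lf (nat_lit 588655) (.g (nat_lit 2857) (.e (nat_lit 532482) (nat_lit 0) (.e (nat_lit 6722) (nat_lit 362) (.e (nat_lit 180250) (nat_lit 10) (.e (nat_lit 573471) (nat_lit 11) (.e (nat_lit 16433) (nat_lit 9) (.e (nat_lit 426093) (nat_lit 0) (.e (nat_lit 3238) (nat_lit 197) .nil))))))) (.g (nat_lit 1) (.e (nat_lit 395085) (nat_lit 0) .nil) .nil))))) (.nd (nat_lit 8) (.nd (nat_lit 9) 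
(.lf (nat_lit 588015) (.g (nat_lit 2225) (.e (nat_lit 401459) (nat_lit 13) (.e (nat_lit 483410) (nat_lit 27) (.e (nat_lit 401438) (nat_lit 9) (.e (nat_lit 426489) (nat_lit 27) .nil)))) (.g (nat_lit 0) (.e (nat_lit 392653) (nat_lit 0) .nil) .nil))) 
(.lf (nat_lit 588527) (.g (nat_lit 2877) (.e (nat_lit 499929) (nat_lit 11) (.e (nat_lit 188452) (nat_lit 23) (.e (nat_lit 204846) (nat_lit 24) (.e (nat_lit 319504) (nat_lit 10) .nil)))) (.g (nat_lit 0) (.e (nat_lit 394292) (nat_lit 0) .nil) .nil)))) (.nd (nat_lit 9) 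
(.lf (nat_lit 588271) (.g (nat_lit 2396) (.e (nat_lit 500065) (nat_lit 18) (.e (nat_lit 65630) (nat_lit 14) (.e (nat_lit 401425) (nat_lit 2) (.e (nat_lit 196666) (nat_lit 13) (.e (nat_lit 65628) (nat_lit 14) .nil))))) (.g (nat_lit 0) (.e (nat_lit 393246) (nat_lit 0) .nil) .nil))) 
(.lf (nat_lit 588783) (.g (nat_lit 3282) (.e (nat_lit 532499) (nat_lit 1) (.e (nat_lit 57692) (nat_lit 156) (.e (nat_lit 163907) (nat_lit 12) (.e (nat_lit 426568) (nat_lit 34) (.e (nat_lit 393282) (nat_lit 24) (.e (nat_lit 434231) (nat_lit 23) .nil)))))) (.g (nat_lit 1) (.e (nat_lit 395310) (nat_lit 0) .nil) .nil)))))))) 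
(.nd (nat_lit 5) (.nd (nat_lit 6) (.nd (nat_lit 7) (.nd (nat_lit 8) (.nd (nat_lit 9) 
(.lf (nat_lit 587807) (.g (nat_lit 4030) (.e (nat_lit 401453) (nat_lit 12) (.e (nat_lit 475184) (nat_lit 29) (.e (nat_lit 557109) (nat_lit 15) (.e (nat_lit 188452) (nat_lit 23) (.e (nat_lit 204885) (nat_lit 33) .nil))))) (.g (nat_lit 1) (.e (nat_lit 392171) (nat_lit 0) .nil) .nil))) 
(.lf (nat_lit 588319) (.g (nat_lit 1817) (.e (nat_lit 500073) (nat_lit 19) (.e (nat_lit 73781) (nat_lit 32) (.e (nat_lit 2682) (nat_lit 168) (.e (nat_lit 204863) (nat_lit 27) (.e (nat_lit 352000) (nat_lit 3) .nil))))) (.g (nat_lit 0) (.e (nat_lit 393317) (nat_lit 0) .nil) .nil)))) (.nd (nat_lit 9) 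
(.lf (nat_lit 588063) (.g (nat_lit 496) (.e (nat_lit 499774) (nat_lit 0) (.e (nat_lit 2798) (nat_lit 180) (.e (nat_lit 303133) (nat_lit 9) .nil))) (.g (nat_lit 0) (.e (nat_lit 392868) (nat_lit 0) .nil) .nil))) 
(.lf (nat_lit 588575) (.g (nat_lit 2089) (.e (nat_lit 507946) (nat_lit 18) (.e (nat_lit 303143) (nat_lit 12) (.e (nat_lit 475185) (nat_lit 29) (.e (nat_lit 557105) (nat_lit 14) .nil)))) (.g (nat_lit 0) (.e (nat_lit 394899) (nat_lit 0) .nil) .nil))))) (.nd (nat_lit 8) (.nd (nat_lit 9) 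
(.lf (nat_lit 587935) (.g (nat_lit 1233) (.e (nat_lit 401457) (nat_lit 13) (.e (nat_lit 483413) (nat_lit 27) (.e (nat_lit 401446) (nat_lit 10) (.e (nat_lit 434207) (nat_lit 18) .nil)))) (.g (nat_lit 0) (.e (nat_lit 392518) (nat_lit 0) .nil) .nil))) 
(.lf (nat_lit 588447) (.g (nat_lit 915) (.e (nat_lit 499900) (nat_lit 7) (.e (nat_lit 24608) (nat_lit 3) (.e (nat_lit 98312) (nat_lit 9) .nil))) (.g (nat_lit 0) (.e (nat_lit 393700) (nat_lit 0) .nil) .nil)))) (.nd (nat_lit 9) 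
(.lf (nat_lit 588191) (.g (nat_lit 2444) (.e (nat_lit 500048) (nat_lit 16) (.e (nat_lit 16465) (nat_lit 13) (.e (nat_lit 483341) (nat_lit 9) (.e (nat_lit 426108) (nat_lit 1) (.e (nat_lit 164329) (nat_lit 230) .nil))))) (.g (nat_lit 0) (.e (nat_lit 393095) (nat_lit 0) .nil) .nil))) 
(.lf (nat_lit 588703) (.g (nat_lit 3309) (.e (nat_lit 532490) (nat_lit 0) (.e (nat_lit 6674) (nat_lit 357) (.e (nat_lit 2940) (nat_lit 184) (.e (nat_lit 426401) (nat_lit 15) (.e (nat_lit 1859) (nat_lit 124) (.e (nat_lit 557098) (nat_lit 13) (.e (nat_lit 172115) (nat_lit 10) (.e (nat_lit 434231) (nat_lit 23) .nil)))))))) (.g (nat_lit 1) (.e (nat_lit 395179) (nat_lit 0) .nil) .nil)))))) 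
(.nd (nat_lit 7) (.nd (nat_lit 8) (.nd (nat_lit 9) 
(.lf (nat_lit 587871) (.g (nat_lit 3133) (.e (nat_lit 401454) (nat_lit 12) (.e (nat_lit 475198) (nat_lit 40) (.e (nat_lit 704593) (nat_lit 4) (.e (nat_lit 172082) (nat_lit 7) (.e (nat_lit 409646) (nat_lit 18) (.e (nat_lit 311040) (nat_lit 35) .nil)))))) (.g (nat_lit 1) (.e (nat_lit 392278) (nat_lit 0) .nil) .nil))) 
(.lf (nat_lit 588383) (.g (nat_lit 1729) (.e (nat_lit 500077) (nat_lit 20) (.e (nat_lit 81922) (nat_lit 0) (.e (nat_lit 3305) (nat_lit 202) (.e (nat_lit 573489) (nat_lit 14) (.e (nat_lit 81664) (nat_lit 35) .nil))))) (.g (nat_lit 0) (.e (nat_lit 393394) (nat_lit 0) .nil) .nil)))) (.nd (nat_lit 9) 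
(.lf (nat_lit 588127) (.g (nat_lit 524) (.e (nat_lit 500046) (nat_lit 16) (.e (nat_lit 16412) (nat_lit 2) (.e (nat_lit 196653) (nat_lit 11) .nil))) (.g (nat_lit 0) (.e (nat_lit 393005) (nat_lit 0) .nil) .nil))) 
(.lf (nat_lit 588639) (.g (nat_lit 3127) (.e (nat_lit 532482) (nat_lit 0) (.e (nat_lit 6203) (nat_lit 332) (.e (nat_lit 2798) (nat_lit 180) (.e (nat_lit 303119) (nat_lit 3) (.e (nat_lit 204863) (nat_lit 27) (.e (nat_lit 344068) (nat_lit 0) (.e (nat_lit 2505) (nat_lit 157) (.e (nat_lit 3249) (nat_lit 197) .nil)))))))) (.g (nat_lit 1) (.e (nat_lit 395061) (nat_lit 0) .nil) .nil))))) 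
(.nd (nat_lit 8) (.nd (nat_lit 9) 
(.lf (nat_lit 587999) (.g (nat_lit 414) (.e (nat_lit 401459) (nat_lit 13) (.e (nat_lit 483350) (nat_lit 17) (.e (nat_lit 7936) (nat_lit 357) .nil))) (.g (nat_lit 0) (.e (nat_lit 392637) (nat_lit 0) .nil) .nil))) 
(.lf (nat_lit 588511) (.g (nat_lit 596) (.e (nat_lit 499919) (nat_lit 9) (.e (nat_lit 172126) (nat_lit 14) (.e (nat_lit 491540) (nat_lit 3) .nil))) (.g (nat_lit 0) (.e (nat_lit 393979) (nat_lit 0) .nil) .nil)))) (.nd (nat_lit 9) 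
(.lf (nat_lit 588255) (.g (nat_lit 2776) (.e (nat_lit 500065) (nat_lit 18) (.e (nat_lit 65622) (nat_lit 12) (.e (nat_lit 385074) (nat_lit 31) (.e (nat_lit 573487) (nat_lit 14) (.e (nat_lit 73780) (nat_lit 32) (.e (nat_lit 2508) (nat_lit 157) (.e (nat_lit 3141) (nat_lit 193) .nil))))))) (.g (nat_lit 1) (.e (nat_lit 393228) (nat_lit 0) .nil) .nil))) 
(.lf (nat_lit 588767) (.g (nat_lit 591) (.e (nat_lit 532499) (nat_lit 1) (.e (nat_lit 57688) (nat_lit 156) (.e (nat_lit 163927) (nat_lit 16) .nil))) (.g (nat_lit 0) (.e (nat_lit 395269) (nat_lit 0) .nil) .nil))))))) (.nd (nat_lit 6) (.nd (nat_lit 7) (.nd (nat_lit 8) (.nd (nat_lit 9) 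
(.lf (nat_lit 587839) (.g (nat_lit 3579) (.e (nat_lit 401454) (nat_lit 12) (.e (nat_lit 475179) (nat_lit 24) (.e (nat_lit 516119) (nat_lit 1) (.e (nat_lit 164347) (nat_lit 240) (.e (nat_lit 2555) (nat_lit 159) (.e (nat_lit 24675) (nat_lit 27) (.e (nat_lit 433920) (nat_lit 35) .nil))))))) (.g (nat_lit 1) (.e (nat_lit 392240) (nat_lit 0) .nil) .nil))) 
(.lf (nat_lit 588351) (.g (nat_lit 2936) (.e (nat_lit 500074) (nat_lit 20) (.e (nat_lit 81956) (nat_lit 23) (.e (nat_lit 98367) (nat_lit 27) (.e (nat_lit 434268) (nat_lit 36) (.e (nat_lit 639007) (nat_lit 13) .nil))))) (.g (nat_lit 0) (.e (nat_lit 393353) (nat_lit 0) .nil) .nil)))) (.nd (nat_lit 9) 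
(.lf (nat_lit 588095) (.g (nat_lit 2666) (.e (nat_lit 499983) (nat_lit 14) (.e (nat_lit 1673) (nat_lit 116) (.e (nat_lit 401448) (nat_lit 10) (.e (nat_lit 434238) (nat_lit 25) (.e (nat_lit 548898) (nat_lit 14) .nil))))) (.g (nat_lit 0) (.e (nat_lit 392947) (nat_lit 0) .nil) .nil))) 
(.lf (nat_lit 588607) (.g (nat_lit 2322) (.e (nat_lit 507921) (nat_lit 6) (.e (nat_lit 286759) (nat_lit 12) (.e (nat_lit 385074) (nat_lit 31) (.e (nat_lit 573493) (nat_lit 15) .nil)))) (.g (nat_lit 0) (.e (nat_lit 394956) (nat_lit 0) .nil) .nil))))) (.nd (nat_lit 8) (.nd (nat_lit 9) 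
(.lf (nat_lit 587967) (.g (nat_lit 1781) (.e (nat_lit 401458) (nat_lit 13) (.e (nat_lit 483341) (nat_lit 9) (.e (nat_lit 426011) (nat_lit 0) (.e (nat_lit 2399) (nat_lit 157) .nil)))) (.g (nat_lit 0) (.e (nat_lit 392568) (nat_lit 0) .nil) .nil))) 
(.lf (nat_lit 588479) (.g (nat_lit 2205) (.e (nat_lit 499914) (nat_lit 9) (.e (nat_lit 172126) (nat_lit 14) (.e (nat_lit 491537) (nat_lit 2) (.e (nat_lit 90172) (nat_lit 14) .nil)))) (.g (nat_lit 0) (.e (nat_lit 393886) (nat_lit 0) .nil) .nil)))) (.nd (nat_lit 9) 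
(.lf (nat_lit 588223) (.g (nat_lit 2106) (.e (nat_lit 500065) (nat_lit 18) (.e (nat_lit 65610) (nat_lit 10) (.e (nat_lit 344117) (nat_lit 21) (.e (nat_lit 516139) (nat_lit 7) .nil)))) (.g (nat_lit 0) (.e (nat_lit 393185) (nat_lit 0) .nil) .nil))) 
(.lf (nat_lit 588735) (.g (nat_lit 3464) (.e (nat_lit 532499) (nat_lit 1) (.e (nat_lit 57686) (nat_lit 156) (.e (nat_lit 163903) (nat_lit 12) (.e (nat_lit 426568) (nat_lit 34) (.e (nat_lit 393282) (nat_lit 24) (.e (nat_lit 434231) (nat_lit 23) .nil)))))) (.g (nat_lit 1) (.e (nat_lit 395223) (nat_lit 0) .nil) .nil)))))) (.nd (nat_lit 7) (.nd (nat_lit 8) (.nd (nat_lit 9) 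
(.lf (nat_lit 587903) (.g (nat_lit 2900) (.e (nat_lit 401456) (nat_lit 13) (.e (nat_lit 483344) (nat_lit 17) (.e (nat_lit 6718) (nat_lit 361) (.e (nat_lit 172150) (nat_lit 27) (.e (nat_lit 336232) (nat_lit 14) .nil))))) (.g (nat_lit 1) (.e (nat_lit 392371) (nat_lit 0) .nil) .nil))) 
(.lf (nat_lit 588415) (.g (nat_lit 1057) (.e (nat_lit 507648) (nat_lit 22) (.e (nat_lit 131116) (nat_lit 9) (.e (nat_lit 336021) (nat_lit 3) (.e (nat_lit 98353) (nat_lit 25) .nil)))) (.g (nat_lit 0) (.e (nat_lit 393448) (nat_lit 0) .nil) .nil)))) (.nd (nat_lit 9) 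
(.lf (nat_lit 588159) (.g (nat_lit 1778) (.e (nat_lit 500046) (nat_lit 16) (.e (nat_lit 16436) (nat_lit 9) (.e (nat_lit 426131) (nat_lit 3) (.e (nat_lit 204880) (nat_lit 32) (.e (nat_lit 385109) (nat_lit 51) .nil))))) (.g (nat_lit 0) (.e (nat_lit 393041) (nat_lit 0) .nil) .nil))) 
(.lf (nat_lit 588671) (.g (nat_lit 2130) (.e (nat_lit 532482) (nat_lit 0) (.e (nat_lit 6724) (nat_lit 362) (.e (nat_lit 180250) (nat_lit 10) (.e (nat_lit 573469) (nat_lit 11) (.e (nat_lit 16451) (nat_lit 11) .nil))))) (.g (nat_lit 0) (.e (nat_lit 395116) (nat_lit 0) .nil) .nil))))) (.nd (nat_lit 8) (.nd (nat_lit 9) 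
(.lf (nat_lit 588031) (.g (nat_lit 827) (.e (nat_lit 401460) (nat_lit 14) (.e (nat_lit 491565) (nat_lit 12) (.e (nat_lit 385109) (nat_lit 51) .nil))) (.g (nat_lit 0) (.e (nat_lit 392685) (nat_lit 0) .nil) .nil))) 
(.lf (nat_lit 588543) (.g (nat_lit 1776) (.e (nat_lit 499930) (nat_lit 11) (.e (nat_lit 188452) (nat_lit 23) (.e (nat_lit 204846) (nat_lit 24) (.e (nat_lit 319534) (nat_lit 16) .nil)))) (.g (nat_lit 0) (.e (nat_lit 394316) (nat_lit 0) .nil) .nil)))) (.nd (nat_lit 9) 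
(.lf (nat_lit 588287) (.g (nat_lit 1738) (.e (nat_lit 500070) (nat_lit 19) (.e (nat_lit 73755) (nat_lit 8) (.e (nat_lit 557098) (nat_lit 13) (.e (nat_lit 172136) (nat_lit 15) .nil)))) (.g (nat_lit 0) (.e (nat_lit 393283) (nat_lit 0) .nil) .nil))) 
(.lf (nat_lit 588799) (.g (nat_lit 1364) (.e (nat_lit 532499) (nat_lit 1) (.e (nat_lit 57847) (nat_lit 252) (.e (nat_lit 57411) (nat_lit 12) (.e (nat_lit 336455) (nat_lit 34) .nil)))) (.g (nat_lit 0) (.e (nat_lit 395337) (nat_lit 0) .nil) .nil)))))))))))))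


end

end Pool.Agent.Lib.MP_5854e1_co.Cz
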