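import Pool.Agent.Lib.MP_5854e1_co.DtD

/-!
# Windows and cells of the rings
-/

set_option autoImplicit false
set_option maxRecDepth 100000
set_option deprecated.oldSectionVars true

namespace Pool.Agent.Lib.MP_5854e1_co.Cz

open Pool.Agent.Lib.MP_5854e1_co

noncomputable section

noncomputable def tv5635 : DT := (.nd (nat_lit 0) (.nd (nat_lit 1) (.nd (nat_lit 2) (.nd (nat_lit 3) (.nd (nat_lit 4) (.nd (nat_lit 5) (.nd (nat_lit 6) (.nd (nat_lit 7) (.nd (nat_lit 8) (.nd (nat_lit 9) 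
(.lf (nat_lit 588800) (.g (nat_lit 1831) (.e (nat_lit 532499) (nat_lit 1) (.e (nat_lit 57847) (nat_lit 252) (.e (nat_lit 57447) (nat_lit 19) (.e (nat_lit 393238) (nat_lit 17) .nil)))) (.g (nat_lit 0) (.e (nat_lit 395339) (nat_lit 0) .nil) .nil))) 
(.lf (nat_lit 589312) (.g (nat_lit 2174) (.e (nat_lit 532501) (nat_lit 1) (.e (nat_lit 57931) (nat_lit 282) (.e (nat_lit 163867) (nat_lit 2) (.e (nat_lit 196670) (nat_lit 14) (.e (nat_lit 73746) (nat_lit 3) .nil))))) (.g (nat_lit 0) (.e (nat_lit 396218) (nat_lit 0) .nil) .nil)))) (.nd (nat_lit 9) 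
(.lf (nat_lit 589056) (.g (nat_lit 3224) (.e (nat_lit 532499) (nat_lit 1) (.e (nat_lit 57927) (nat_lit 282) (.e (nat_lit 163875) (nat_lit 3) (.e (nat_lit 204862) (nat_lit 27) (.e (nat_lit 344117) (nat_lit 21) (.e (nat_lit 516122) (nat_lit 2) (.e (nat_lit 213035) (nat_lit 12) (.e (nat_lit 163965) (nat_lit 25) .nil)))))))) (.g (nat_lit 1) (.e (nat_lit 395790) (nat_lit 0) .nil) .nil))) 
(.lf (nat_lit 589568) (.g (nat_lit 4349) (.e (nat_lit 532503) (nat_lit 1) (.e (nat_lit 57930) (nat_lit 282) (.e (nat_lit 163867) (nat_lit 2) (.e (nat_lit 196670) (nat_lit 14) (.e (nat_lit 73746) (nat_lit 3) (.e (nat_lit 516129) (nat_lit 3) (.e (nat_lit 221204) (nat_lit 20) (.e (nat_lit 3253) (nat_lit 197) .nil)))))))) (.g (nat_lit 1) (.e (nat_lit 396587) (nat_lit 0) .nil) .nil))))) 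
(.nd (nat_lit 8) (.nd (nat_lit 9) 
(.lf (nat_lit 588928) (.g (nat_lit 2262) (.e (nat_lit 532499) (nat_lit 1) (.e (nat_lit 57927) (nat_lit 282) (.e (nat_lit 163869) (nat_lit 2) (.e (nat_lit 196666) (nat_lit 13) (.e (nat_lit 65571) (nat_lit 3) (.e (nat_lit 98341) (nat_lit 20) (.e (nat_lit 221196) (nat_lit 20) (.e (nat_lit 3237) (nat_lit 197) .nil)))))))) (.g (nat_lit 1) (.e (nat_lit 395546) (nat_lit 0) .nil) .nil))) 
(.lf (nat_lit 589440) (.g (nat_lit 1597) (.e (nat_lit 532503) (nat_lit 1) (.e (nat_lit 57689) (nat_lit 156) (.e (nat_lit 163905) (nat_lit 12) (.e (nat_lit 426479) (nat_lit 27) (.e (nat_lit 336432) (nat_lit 30) .nil))))) (.g (nat_lit 0) (.e (nat_lit 396438) (nat_lit 0) .nil) .nil)))) (.nd (nat_lit 9) 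
(.lf (nat_lit 589184) (.g (nat_lit 2766) (.e (nat_lit 532501) (nat_lit 1) (.e (nat_lit 57852) (nat_lit 252) (.e (nat_lit 57376) (nat_lit 3) (.e (nat_lit 98342) (nat_lit 20) (.e (nat_lit 221210) (nat_lit 22) (.e (nat_lit 196665) (nat_lit 13) (.e (nat_lit 65637) (nat_lit 15) (.e (nat_lit 3253) (nat_lit 197) .nil)))))))) (.g (nat_lit 1) (.e (nat_lit 395982) (nat_lit 0) .nil) .nil))) 
(.lf (nat_lit 589696) (.g (nat_lit 4540) (.e (nat_lit 532503) (nat_lit 1) (.e (nat_lit 57931) (nat_lit 282) (.e (nat_lit 163869) (nat_lit 2) (.e (nat_lit 196668) (nat_lit 14) (.e (nat_lit 73747) (nat_lit 3) (.e (nat_lit 516129) (nat_lit 3) (.e (nat_lit 221196) (nat_lit 20) (.e (nat_lit 3230) (nat_lit 197) .nil)))))))) (.g (nat_lit 1) (.e (nat_lit 396787) (nat_lit 0) .nil) .nil)))))) 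
(.nd (nat_lit 7) (.nd (nat_lit 8) (.nd (nat_lit 9) 
(.lf (nat_lit 588864) (.g (nat_lit 2953) (.e (nat_lit 532499) (nat_lit 1) (.e (nat_lit 57927) (nat_lit 282) (.e (nat_lit 163868) (nat_lit 2) (.e (nat_lit 196668) (nat_lit 14) (.e (nat_lit 73746) (nat_lit 3) (.e (nat_lit 516129) (nat_lit 3) (.e (nat_lit 221196) (nat_lit 20) (.e (nat_lit 3236) (nat_lit 197) .nil)))))))) (.g (nat_lit 1) (.e (nat_lit 395451) (nat_lit 0) .nil) .nil))) 
(.lf (nat_lit 589376) (.g (nat_lit 1669) (.e (nat_lit 532502) (nat_lit 1) (.e (nat_lit 57847) (nat_lit 252) (.e (nat_lit 57411) (nat_lit 12) (.e (nat_lit 336456) (nat_lit 34) (.e (nat_lit 483404) (nat_lit 26) .nil))))) (.g (nat_lit 0) (.e (nat_lit 396324) (nat_lit 0) .nil) .nil)))) (.nd (nat_lit 9) 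
(.lf (nat_lit 589120) (.g (nat_lit 2530) (.e (nat_lit 532500) (nat_lit 1) (.e (nat_lit 57926) (nat_lit 282) (.e (nat_lit 163869) (nat_lit 2) (.e (nat_lit 196670) (nat_lit 14) (.e (nat_lit 73746) (nat_lit 3) (.e (nat_lit 516131) (nat_lit 3) (.e (nat_lit 221198) (nat_lit 20) (.e (nat_lit 3241) (nat_lit 197) .nil)))))))) (.g (nat_lit 1) (.e (nat_lit 395876) (nat_lit 0) .nil) .nil))) 
(.lf (nat_lit 589632) (.g (nat_lit 2091) (.e (nat_lit 532503) (nat_lit 1) (.e (nat_lit 57931) (nat_lit 282) (.e (nat_lit 163867) (nat_lit 2) (.e (nat_lit 196670) (nat_lit 14) (.e (nat_lit 73746) (nat_lit 3) .nil))))) (.g (nat_lit 0) (.e (nat_lit 396664) (nat_lit 0) .nil) .nil))))) (.nd (nat_lit 8) (.nd (nat_lit 9) 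
(.lf (nat_lit 588992) (.g (nat_lit 5148) (.e (nat_lit 532499) (nat_lit 1) (.e (nat_lit 57927) (nat_lit 282) (.e (nat_lit 163869) (nat_lit 2) (.e (nat_lit 196670) (nat_lit 14) (.e (nat_lit 73746) (nat_lit 3) (.e (nat_lit 516129) (nat_lit 3) (.e (nat_lit 221204) (nat_lit 20) (.e (nat_lit 3253) (nat_lit 197) .nil)))))))) (.g (nat_lit 1) (.e (nat_lit 395644) (nat_lit 0) .nil) .nil))) 
(.lf (nat_lit 589504) (.g (nat_lit 4346) (.e (nat_lit 532503) (nat_lit 1) (.e (nat_lit 57847) (nat_lit 252) (.e (nat_lit 57445) (nat_lit 19) (.e (nat_lit 393229) (nat_lit 9) (.e (nat_lit 336100) (nat_lit 9) .nil))))) (.g (nat_lit 0) (.e (nat_lit 396515) (nat_lit 0) .nil) .nil)))) (.nd (nat_lit 9) 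
(.lf (nat_lit 589248) (.g (nat_lit 3582) (.e (nat_lit 532501) (nat_lit 1) (.e (nat_lit 57926) (nat_lit 282) (.e (nat_lit 163875) (nat_lit 3) (.e (nat_lit 204862) (nat_lit 27) (.e (nat_lit 344117) (nat_lit 21) (.e (nat_lit 516123) (nat_lit 2) (.e (nat_lit 213036) (nat_lit 13) (.e (nat_lit 229433) (nat_lit 25) .nil)))))))) (.g (nat_lit 1) (.e (nat_lit 396081) (nat_lit 0) .nil) .nil))) 
(.lf (nat_lit 589760) (.g (nat_lit 3069) (.e (nat_lit 532503) (nat_lit 1) (.e (nat_lit 57931) (nat_lit 282) (.e (nat_lit 163869) (nat_lit 2) (.e (nat_lit 196670) (nat_lit 14) (.e (nat_lit 73746) (nat_lit 3) (.e (nat_lit 516129) (nat_lit 3) (.e (nat_lit 221197) (nat_lit 20) (.e (nat_lit 3237) (nat_lit 197) .nil)))))))) (.g (nat_lit 1) (.e (nat_lit 396851) (nat_lit 0) .nil) .nil))))))) 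
(.nd (nat_lit 6) (.nd (nat_lit 7) (.nd (nat_lit 8) (.nd (nat_lit 9) 
(.lf (nat_lit 588832) (.g (nat_lit 2731) (.e (nat_lit 532499) (nat_lit 1) (.e (nat_lit 57926) (nat_lit 282) (.e (nat_lit 163869) (nat_lit 2) (.e (nat_lit 196670) (nat_lit 14) (.e (nat_lit 73746) (nat_lit 3) (.e (nat_lit 516127) (nat_lit 2) (.e (nat_lit 213038) (nat_lit 13) (.e (nat_lit 229434) (nat_lit 25) .nil)))))))) (.g (nat_lit 1) (.e (nat_lit 395376) (nat_lit 0) .nil) .nil))) 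
(.lf (nat_lit 589344) (.g (nat_lit 1862) (.e (nat_lit 532502) (nat_lit 1) (.e (nat_lit 57688) (nat_lit 156) (.e (nat_lit 163905) (nat_lit 12) (.e (nat_lit 426479) (nat_lit 27) (.e (nat_lit 336434) (nat_lit 30) .nil))))) (.g (nat_lit 0) (.e (nat_lit 396267) (nat_lit 0) .nil) .nil)))) (.nd (nat_lit 9) 
(.lf (nat_lit 589088) (.g (nat_lit 3387) (.e (nat_lit 532499) (nat_lit 1) (.e (nat_lit 57931) (nat_lit 282) (.e (nat_lit 163869) (nat_lit 2) (.e (nat_lit 196670) (nat_lit 14) (.e (nat_lit 73746) (nat_lit 3) (.e (nat_lit 516127) (nat_lit 2) (.e (nat_lit 213035) (nat_lit 12) (.e (nat_lit 163963) (nat_lit 25) .nil)))))))) (.g (nat_lit 1) (.e (nat_lit 395834) (nat_lit 0) .nil) .nil))) 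
(.lf (nat_lit 589600) (.g (nat_lit 2574) (.e (nat_lit 532503) (nat_lit 1) (.e (nat_lit 57931) (nat_lit 282) (.e (nat_lit 163867) (nat_lit 2) (.e (nat_lit 196668) (nat_lit 14) (.e (nat_lit 73746) (nat_lit 3) (.e (nat_lit 516129) (nat_lit 3) (.e (nat_lit 221198) (nat_lit 20) (.e (nat_lit 3248) (nat_lit 197) .nil)))))))) (.g (nat_lit 1) (.e (nat_lit 396629) (nat_lit 0) .nil) .nil))))) 
(.nd (nat_lit 8) (.nd (nat_lit 9) 
(.lf (nat_lit 588960) (.g (nat_lit 3569) (.e (nat_lit 532499) (nat_lit 1) (.e (nat_lit 57927) (nat_lit 282) (.e (nat_lit 163869) (nat_lit 2) (.e (nat_lit 196670) (nat_lit 14) (.e (nat_lit 73746) (nat_lit 3) (.e (nat_lit 516124) (nat_lit 2) (.e (nat_lit 213033) (nat_lit 12) (.e (nat_lit 163963) (nat_lit 25) .nil)))))))) (.g (nat_lit 1) (.e (nat_lit 395612) (nat_lit 0) .nil) .nil))) 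
(.lf (nat_lit 589472) (.g (nat_lit 1834) (.e (nat_lit 532503) (nat_lit 1) (.e (nat_lit 57847) (nat_lit 252) (.e (nat_lit 57407) (nat_lit 12) (.e (nat_lit 336454) (nat_lit 34) (.e (nat_lit 483385) (nat_lit 23) .nil))))) (.g (nat_lit 0) (.e (nat_lit 396480) (nat_lit 0) .nil) .nil)))) (.nd (nat_lit 9) 
(.lf (nat_lit 589216) (.g (nat_lit 1412) (.e (nat_lit 532501) (nat_lit 1) (.e (nat_lit 57854) (nat_lit 252) (.e (nat_lit 57409) (nat_lit 12) (.e (nat_lit 336456) (nat_lit 34) (.e (nat_lit 483379) (nat_lit 23) .nil))))) (.g (nat_lit 0) (.e (nat_lit 396017) (nat_lit 0) .nil) .nil))) 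
(.lf (nat_lit 589728) (.g (nat_lit 3214) (.e (nat_lit 532503) (nat_lit 1) (.e (nat_lit 57931) (nat_lit 282) (.e (nat_lit 163869) (nat_lit 2) (.e (nat_lit 196670) (nat_lit 14) (.e (nat_lit 73746) (nat_lit 3) (.e (nat_lit 516124) (nat_lit 2) (.e (nat_lit 213036) (nat_lit 13) (.e (nat_lit 229433) (nat_lit 25) .nil)))))))) (.g (nat_lit 1) (.e (nat_lit 396819) (nat_lit 0) .nil) .nil)))))) 
(.nd (nat_lit 7) (.nd (nat_lit 8) (.nd (nat_lit 9) 
(.lf (nat_lit 588896) (.g (nat_lit 3466) (.e (nat_lit 532499) (nat_lit 1) (.e (nat_lit 57927) (nat_lit 282) (.e (nat_lit 163868) (nat_lit 2) (.e (nat_lit 196670) (nat_lit 14) (.e (nat_lit 73746) (nat_lit 3) (.e (nat_lit 516124) (nat_lit 2) (.e (nat_lit 213035) (nat_lit 12) (.e (nat_lit 163965) (nat_lit 25) .nil)))))))) (.g (nat_lit 1) (.e (nat_lit 395498) (nat_lit 0) .nil) .nil))) 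
(.lf (nat_lit 589408) (.g (nat_lit 2749) (.e (nat_lit 532503) (nat_lit 1) (.e (nat_lit 57687) (nat_lit 156) (.e (nat_lit 163903) (nat_lit 12) (.e (nat_lit 426568) (nat_lit 34) (.e (nat_lit 393282) (nat_lit 24) (.e (nat_lit 434233) (nat_lit 23) .nil)))))) (.g (nat_lit 1) (.e (nat_lit 396376) (nat_lit 0) .nil) .nil)))) (.nd (nat_lit 9) 
(.lf (nat_lit 589152) (.g (nat_lit 2890) (.e (nat_lit 532501) (nat_lit 1) (.e (nat_lit 57692) (nat_lit 156) (.e (nat_lit 163907) (nat_lit 12) (.e (nat_lit 426568) (nat_lit 34) (.e (nat_lit 393287) (nat_lit 25) (.e (nat_lit 458789) (nat_lit 23) .nil)))))) (.g (nat_lit 1) (.e (nat_lit 395942) (nat_lit 0) .nil) .nil))) 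
(.lf (nat_lit 589664) (.g (nat_lit 3003) (.e (nat_lit 532503) (nat_lit 1) (.e (nat_lit 57931) (nat_lit 282) (.e (nat_lit 163867) (nat_lit 2) (.e (nat_lit 196670) (nat_lit 14) (.e (nat_lit 73746) (nat_lit 3) (.e (nat_lit 516131) (nat_lit 3) (.e (nat_lit 221197) (nat_lit 20) (.e (nat_lit 3256) (nat_lit 197) .nil)))))))) (.g (nat_lit 1) (.e (nat_lit 396718) (nat_lit 0) .nil) .nil))))) 
(.nd (nat_lit 8) (.nd (nat_lit 9) 
(.lf (nat_lit 589024) (.g (nat_lit 2353) (.e (nat_lit 532499) (nat_lit 1) (.e (nat_lit 57927) (nat_lit 282) (.e (nat_lit 163871) (nat_lit 2) (.e (nat_lit 196670) (nat_lit 14) (.e (nat_lit 73746) (nat_lit 3) (.e (nat_lit 516129) (nat_lit 3) (.e (nat_lit 221196) (nat_lit 20) (.e (nat_lit 3241) (nat_lit 197) .nil)))))))) (.g (nat_lit 1) (.e (nat_lit 395749) (nat_lit 0) .nil) .nil))) 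
(.lf (nat_lit 589536) (.g (nat_lit 1391) (.e (nat_lit 532503) (nat_lit 1) (.e (nat_lit 57849) (nat_lit 252) (.e (nat_lit 57411) (nat_lit 12) (.e (nat_lit 336454) (nat_lit 34) (.e (nat_lit 483385) (nat_lit 23) .nil))))) (.g (nat_lit 0) (.e (nat_lit 396551) (nat_lit 0) .nil) .nil)))) (.nd (nat_lit 9) 
(.lf (nat_lit 589280) (.g (nat_lit 2905) (.e (nat_lit 532501) (nat_lit 1) (.e (nat_lit 57927) (nat_lit 282) (.e (nat_lit 163869) (nat_lit 2) (.e (nat_lit 196670) (nat_lit 14) (.e (nat_lit 73746) (nat_lit 3) (.e (nat_lit 516127) (nat_lit 2) (.e (nat_lit 213035) (nat_lit 12) (.e (nat_lit 163965) (nat_lit 25) .nil)))))))) (.g (nat_lit 1) (.e (nat_lit 396150) (nat_lit 0) .nil) .nil))) 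
(.lf (nat_lit 589792) (.g (nat_lit 4174) (.e (nat_lit 532503) (nat_lit 1) (.e (nat_lit 57931) (nat_lit 282) (.e (nat_lit 163869) (nat_lit 2) (.e (nat_lit 196670) (nat_lit 14) (.e (nat_lit 73746) (nat_lit 3) (.e (nat_lit 516131) (nat_lit 3) (.e (nat_lit 221198) (nat_lit 20) (.e (nat_lit 3230) (nat_lit 197) .nil)))))))) (.g (nat_lit 1) (.e (nat_lit 396883) (nat_lit 0) .nil) .nil)))))))) 
(.nd (nat_lit 5) (.nd (nat_lit 6) (.nd (nat_lit 7) (.nd (nat_lit 8) (.nd (nat_lit 9) 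
(.lf (nat_lit 588816) (.g (nat_lit 3625) (.e (nat_lit 532499) (nat_lit 1) (.e (nat_lit 57926) (nat_lit 282) (.e (nat_lit 163869) (nat_lit 2) (.e (nat_lit 196670) (nat_lit 14) (.e (nat_lit 73746) (nat_lit 3) (.e (nat_lit 516124) (nat_lit 2) (.e (nat_lit 213033) (nat_lit 12) (.e (nat_lit 163962) (nat_lit 25) .nil)))))))) (.g (nat_lit 1) (.e (nat_lit 395360) (nat_lit 0) .nil) .nil))) 
(.lf (nat_lit 589328) (.g (nat_lit 2364) (.e (nat_lit 532502) (nat_lit 1) (.e (nat_lit 57687) (nat_lit 156) (.e (nat_lit 163903) (nat_lit 12) (.e (nat_lit 426568) (nat_lit 34) (.e (nat_lit 393286) (nat_lit 25) .nil))))) (.g (nat_lit 0) (.e (nat_lit 396249) (nat_lit 0) .nil) .nil)))) (.nd (nat_lit 9) 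
(.lf (nat_lit 589072) (.g (nat_lit 2072) (.e (nat_lit 532499) (nat_lit 1) (.e (nat_lit 57931) (nat_lit 282) (.e (nat_lit 163869) (nat_lit 2) (.e (nat_lit 196663) (nat_lit 13) .nil)))) (.g (nat_lit 0) (.e (nat_lit 395814) (nat_lit 0) .nil) .nil))) 
(.lf (nat_lit 589584) (.g (nat_lit 1222) (.e (nat_lit 532503) (nat_lit 1) (.e (nat_lit 57931) (nat_lit 282) (.e (nat_lit 163867) (nat_lit 2) (.e (nat_lit 196663) (nat_lit 13) .nil)))) (.g (nat_lit 0) (.e (nat_lit 396609) (nat_lit 0) .nil) .nil))))) (.nd (nat_lit 8) (.nd (nat_lit 9) 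
(.lf (nat_lit 588944) (.g (nat_lit 2674) (.e (nat_lit 532499) (nat_lit 1) (.e (nat_lit 57927) (nat_lit 282) (.e (nat_lit 163869) (nat_lit 2) (.e (nat_lit 196668) (nat_lit 14) (.e (nat_lit 73747) (nat_lit 3) (.e (nat_lit 516129) (nat_lit 3) (.e (nat_lit 221202) (nat_lit 20) (.e (nat_lit 3233) (nat_lit 197) .nil)))))))) (.g (nat_lit 1) (.e (nat_lit 395595) (nat_lit 0) .nil) .nil))) 
(.lf (nat_lit 589456) (.g (nat_lit 2533) (.e (nat_lit 532503) (nat_lit 1) (.e (nat_lit 57844) (nat_lit 252) (.e (nat_lit 57406) (nat_lit 12) (.e (nat_lit 336456) (nat_lit 34) (.e (nat_lit 483404) (nat_lit 26) .nil))))) (.g (nat_lit 0) (.e (nat_lit 396463) (nat_lit 0) .nil) .nil)))) (.nd (nat_lit 9) 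
(.lf (nat_lit 589200) (.g (nat_lit 543) (.e (nat_lit 532501) (nat_lit 1) (.e (nat_lit 57854) (nat_lit 252) (.e (nat_lit 57405) (nat_lit 12) .nil))) (.g (nat_lit 0) (.e (nat_lit 396001) (nat_lit 0) .nil) .nil))) 
(.lf (nat_lit 589712) (.g (nat_lit 4286) (.e (nat_lit 532503) (nat_lit 1) (.e (nat_lit 57931) (nat_lit 282) (.e (nat_lit 163869) (nat_lit 2) (.e (nat_lit 196668) (nat_lit 14) (.e (nat_lit 73747) (nat_lit 3) (.e (nat_lit 516131) (nat_lit 3) (.e (nat_lit 221197) (nat_lit 20) (.e (nat_lit 3248) (nat_lit 197) .nil)))))))) (.g (nat_lit 1) (.e (nat_lit 396803) (nat_lit 0) .nil) .nil)))))) 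
(.nd (nat_lit 7) (.nd (nat_lit 8) (.nd (nat_lit 9) 
(.lf (nat_lit 588880) (.g (nat_lit 2540) (.e (nat_lit 532499) (nat_lit 1) (.e (nat_lit 57927) (nat_lit 282) (.e (nat_lit 163868) (nat_lit 2) (.e (nat_lit 196668) (nat_lit 14) (.e (nat_lit 73747) (nat_lit 3) (.e (nat_lit 516131) (nat_lit 3) (.e (nat_lit 221197) (nat_lit 20) (.e (nat_lit 3240) (nat_lit 197) .nil)))))))) (.g (nat_lit 1) (.e (nat_lit 395482) (nat_lit 0) .nil) .nil))) 
(.lf (nat_lit 589392) (.g (nat_lit 2428) (.e (nat_lit 532502) (nat_lit 1) (.e (nat_lit 57854) (nat_lit 252) (.e (nat_lit 57378) (nat_lit 3) (.e (nat_lit 98341) (nat_lit 20) .nil)))) (.g (nat_lit 0) (.e (nat_lit 396353) (nat_lit 0) .nil) .nil)))) (.nd (nat_lit 9) 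
(.lf (nat_lit 589136) (.g (nat_lit 2028) (.e (nat_lit 532500) (nat_lit 1) (.e (nat_lit 57931) (nat_lit 282) (.e (nat_lit 163869) (nat_lit 2) (.e (nat_lit 196668) (nat_lit 14) .nil)))) (.g (nat_lit 0) (.e (nat_lit 395906) (nat_lit 0) .nil) .nil))) 
(.lf (nat_lit 589648) (.g (nat_lit 2552) (.e (nat_lit 532503) (nat_lit 1) (.e (nat_lit 57931) (nat_lit 282) (.e (nat_lit 163867) (nat_lit 2) (.e (nat_lit 196670) (nat_lit 14) (.e (nat_lit 73746) (nat_lit 3) (.e (nat_lit 516129) (nat_lit 3) (.e (nat_lit 221197) (nat_lit 20) (.e (nat_lit 3250) (nat_lit 197) .nil)))))))) (.g (nat_lit 1) (.e (nat_lit 396702) (nat_lit 0) .nil) .nil))))) 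
(.nd (nat_lit 8) (.nd (nat_lit 9) 
(.lf (nat_lit 589008) (.g (nat_lit 3070) (.e (nat_lit 532499) (nat_lit 1) (.e (nat_lit 57927) (nat_lit 282) (.e (nat_lit 163871) (nat_lit 2) (.e (nat_lit 196670) (nat_lit 14) (.e (nat_lit 73746) (nat_lit 3) (.e (nat_lit 516124) (nat_lit 2) (.e (nat_lit 213035) (nat_lit 12) (.e (nat_lit 163964) (nat_lit 25) .nil)))))))) (.g (nat_lit 1) (.e (nat_lit 395733) (nat_lit 0) .nil) .nil))) 
(.lf (nat_lit 589520) (.g (nat_lit 4095) (.e (nat_lit 532503) (nat_lit 1) (.e (nat_lit 57848) (nat_lit 252) (.e (nat_lit 57445) (nat_lit 19) (.e (nat_lit 393229) (nat_lit 9) (.e (nat_lit 336100) (nat_lit 9) (.e (nat_lit 336282) (nat_lit 15) (.e (nat_lit 3253) (nat_lit 197) .nil))))))) (.g (nat_lit 1) (.e (nat_lit 396533) (nat_lit 0) .nil) .nil)))) (.nd (nat_lit 9) 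
(.lf (nat_lit 589264) (.g (nat_lit 2140) (.e (nat_lit 532501) (nat_lit 1) (.e (nat_lit 57927) (nat_lit 282) (.e (nat_lit 163869) (nat_lit 2) (.e (nat_lit 196668) (nat_lit 14) (.e (nat_lit 73747) (nat_lit 3) .nil))))) (.g (nat_lit 0) (.e (nat_lit 396131) (nat_lit 0) .nil) .nil))) 
(.lf (nat_lit 589776) (.g (nat_lit 2757) (.e (nat_lit 532503) (nat_lit 1) (.e (nat_lit 57931) (nat_lit 282) (.e (nat_lit 163869) (nat_lit 2) (.e (nat_lit 196670) (nat_lit 14) (.e (nat_lit 73746) (nat_lit 3) (.e (nat_lit 516129) (nat_lit 3) (.e (nat_lit 221201) (nat_lit 20) (.e (nat_lit 3230) (nat_lit 197) .nil)))))))) (.g (nat_lit 1) (.e (nat_lit 396867) (nat_lit 0) .nil) .nil))))))) 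
(.nd (nat_lit 6) (.nd (nat_lit 7) (.nd (nat_lit 8) (.nd (nat_lit 9) 
(.lf (nat_lit 588848) (.g (nat_lit 2334) (.e (nat_lit 532499) (nat_lit 1) (.e (nat_lit 57927) (nat_lit 282) (.e (nat_lit 163866) (nat_lit 2) (.e (nat_lit 196670) (nat_lit 14) (.e (nat_lit 73746) (nat_lit 3) (.e (nat_lit 516124) (nat_lit 2) (.e (nat_lit 213035) (nat_lit 12) (.e (nat_lit 163964) (nat_lit 25) .nil)))))))) (.g (nat_lit 1) (.e (nat_lit 395406) (nat_lit 0) .nil) .nil))) 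
(.lf (nat_lit 589360) (.g (nat_lit 1145) (.e (nat_lit 532502) (nat_lit 1) (.e (nat_lit 57691) (nat_lit 156) (.e (nat_lit 163907) (nat_lit 12) (.e (nat_lit 426568) (nat_lit 34) .nil)))) (.g (nat_lit 0) (.e (nat_lit 396296) (nat_lit 0) .nil) .nil)))) (.nd (nat_lit 9) 
(.lf (nat_lit 589104) (.g (nat_lit 1036) (.e (nat_lit 532500) (nat_lit 1) (.e (nat_lit 57851) (nat_lit 252) (.e (nat_lit 57406) (nat_lit 12) (.e (nat_lit 336456) (nat_lit 34) .nil)))) (.g (nat_lit 0) (.e (nat_lit 395854) (nat_lit 0) .nil) .nil))) 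
(.lf (nat_lit 589616) (.g (nat_lit 3415) (.e (nat_lit 532503) (nat_lit 1) (.e (nat_lit 57931) (nat_lit 282) (.e (nat_lit 163867) (nat_lit 2) (.e (nat_lit 196668) (nat_lit 14) (.e (nat_lit 73747) (nat_lit 3) (.e (nat_lit 516129) (nat_lit 3) (.e (nat_lit 221197) (nat_lit 20) (.e (nat_lit 3230) (nat_lit 197) .nil)))))))) (.g (nat_lit 1) (.e (nat_lit 396648) (nat_lit 0) .nil) .nil))))) 
(.nd (nat_lit 8) (.nd (nat_lit 9) 
(.lf (nat_lit 588976) (.g (nat_lit 3942) (.e (nat_lit 532499) (nat_lit 1) (.e (nat_lit 57927) (nat_lit 282) (.e (nat_lit 163869) (nat_lit 2) (.e (nat_lit 196670) (nat_lit 14) (.e (nat_lit 73746) (nat_lit 3) (.e (nat_lit 516127) (nat_lit 2) (.e (nat_lit 213038) (nat_lit 13) (.e (nat_lit 229434) (nat_lit 25) .nil)))))))) (.g (nat_lit 1) (.e (nat_lit 395628) (nat_lit 0) .nil) .nil))) 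
(.lf (nat_lit 589488) (.g (nat_lit 740) (.e (nat_lit 532503) (nat_lit 1) (.e (nat_lit 57847) (nat_lit 252) (.e (nat_lit 57410) (nat_lit 12) (.e (nat_lit 343808) (nat_lit 34) .nil)))) (.g (nat_lit 0) (.e (nat_lit 396498) (nat_lit 0) .nil) .nil)))) (.nd (nat_lit 9) 
(.lf (nat_lit 589232) (.g (nat_lit 2911) (.e (nat_lit 532501) (nat_lit 1) (.e (nat_lit 57926) (nat_lit 282) (.e (nat_lit 163869) (nat_lit 2) (.e (nat_lit 196670) (nat_lit 14) (.e (nat_lit 73746) (nat_lit 3) (.e (nat_lit 516126) (nat_lit 2) (.e (nat_lit 213035) (nat_lit 12) (.e (nat_lit 163963) (nat_lit 25) .nil)))))))) (.g (nat_lit 1) (.e (nat_lit 396057) (nat_lit 0) .nil) .nil))) 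
(.lf (nat_lit 589744) (.g (nat_lit 3465) (.e (nat_lit 532503) (nat_lit 1) (.e (nat_lit 57931) (nat_lit 282) (.e (nat_lit 163869) (nat_lit 2) (.e (nat_lit 196670) (nat_lit 14) (.e (nat_lit 73746) (nat_lit 3) (.e (nat_lit 516127) (nat_lit 2) (.e (nat_lit 213035) (nat_lit 12) (.e (nat_lit 163963) (nat_lit 25) .nil)))))))) (.g (nat_lit 1) (.e (nat_lit 396835) (nat_lit 0) .nil) .nil)))))) 
(.nd (nat_lit 7) (.nd (nat_lit 8) (.nd (nat_lit 9) 
(.lf (nat_lit 588912) (.g (nat_lit 3115) (.e (nat_lit 532499) (nat_lit 1) (.e (nat_lit 57927) (nat_lit 282) (.e (nat_lit 163868) (nat_lit 2) (.e (nat_lit 196670) (nat_lit 14) (.e (nat_lit 73746) (nat_lit 3) (.e (nat_lit 516127) (nat_lit 2) (.e (nat_lit 213038) (nat_lit 13) (.e (nat_lit 229434) (nat_lit 25) .nil)))))))) (.g (nat_lit 1) (.e (nat_lit 395514) (nat_lit 0) .nil) .nil))) 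
(.lf (nat_lit 589424) (.g (nat_lit 1972) (.e (nat_lit 532503) (nat_lit 1) (.e (nat_lit 57688) (nat_lit 156) (.e (nat_lit 163902) (nat_lit 12) (.e (nat_lit 426566) (nat_lit 34) (.e (nat_lit 393289) (nat_lit 25) .nil))))) (.g (nat_lit 0) (.e (nat_lit 396399) (nat_lit 0) .nil) .nil)))) (.nd (nat_lit 9) 
(.lf (nat_lit 589168) (.g (nat_lit 2075) (.e (nat_lit 532501) (nat_lit 1) (.e (nat_lit 57851) (nat_lit 252) (.e (nat_lit 57406) (nat_lit 12) (.e (nat_lit 336456) (nat_lit 34) (.e (nat_lit 483383) (nat_lit 23) (.e (nat_lit 336238) (nat_lit 15) (.e (nat_lit 3248) (nat_lit 197) .nil))))))) (.g (nat_lit 1) (.e (nat_lit 395965) (nat_lit 0) .nil) .nil))) 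
(.lf (nat_lit 589680) (.g (nat_lit 2617) (.e (nat_lit 532503) (nat_lit 1) (.e (nat_lit 57931) (nat_lit 282) (.e (nat_lit 163869) (nat_lit 2) (.e (nat_lit 196666) (nat_lit 13) (.e (nat_lit 65571) (nat_lit 3) (.e (nat_lit 98342) (nat_lit 20) (.e (nat_lit 221198) (nat_lit 20) (.e (nat_lit 3250) (nat_lit 197) .nil)))))))) (.g (nat_lit 1) (.e (nat_lit 396766) (nat_lit 0) .nil) .nil))))) 
(.nd (nat_lit 8) (.nd (nat_lit 9) 
(.lf (nat_lit 589040) (.g (nat_lit 2115) (.e (nat_lit 532499) (nat_lit 1) (.e (nat_lit 57927) (nat_lit 282) (.e (nat_lit 163874) (nat_lit 3) (.e (nat_lit 204862) (nat_lit 27) (.e (nat_lit 344117) (nat_lit 21) .nil))))) (.g (nat_lit 0) (.e (nat_lit 395770) (nat_lit 0) .nil) .nil))) 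
(.lf (nat_lit 589552) (.g (nat_lit 2549) (.e (nat_lit 532503) (nat_lit 1) (.e (nat_lit 57924) (nat_lit 282) (.e (nat_lit 163867) (nat_lit 2) (.e (nat_lit 196670) (nat_lit 14) (.e (nat_lit 73746) (nat_lit 3) (.e (nat_lit 516131) (nat_lit 3) (.e (nat_lit 221196) (nat_lit 20) (.e (nat_lit 3248) (nat_lit 197) .nil)))))))) (.g (nat_lit 1) (.e (nat_lit 396569) (nat_lit 0) .nil) .nil)))) 
(.nd (nat_lit 9) 
(.lf (nat_lit 589296) (.g (nat_lit 1679) (.e (nat_lit 532501) (nat_lit 1) (.e (nat_lit 57928) (nat_lit 282) (.e (nat_lit 163868) (nat_lit 2) (.e (nat_lit 196668) (nat_lit 14) (.e (nat_lit 73747) (nat_lit 3) .nil))))) (.g (nat_lit 0) (.e (nat_lit 396191) (nat_lit 0) .nil) .nil))) 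
(.lf (nat_lit 589808) (.g (nat_lit 2673) (.e (nat_lit 532503) (nat_lit 1) (.e (nat_lit 57931) (nat_lit 282) (.e (nat_lit 163874) (nat_lit 3) (.e (nat_lit 204854) (nat_lit 26) (.e (nat_lit 336019) (nat_lit 3) (.e (nat_lit 98342) (nat_lit 20) (.e (nat_lit 221198) (nat_lit 20) (.e (nat_lit 3237) (nat_lit 197) .nil)))))))) (.g (nat_lit 1) (.e (nat_lit 396905) (nat_lit 0) .nil) .nil))))))))) 
(.nd (nat_lit 4) (.nd (nat_lit 5) (.nd (nat_lit 6) (.nd (nat_lit 7) (.nd (nat_lit 8) 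
(.nd (nat_lit 9) 
(.lf (nat_lit 588808) (.g (nat_lit 2780) (.e (nat_lit 532499) (nat_lit 1) (.e (nat_lit 57926) (nat_lit 282) (.e (nat_lit 163869) (nat_lit 2) (.e (nat_lit 196666) (nat_lit 13) (.e (nat_lit 65569) (nat_lit 3) (.e (nat_lit 98341) (nat_lit 20) (.e (nat_lit 221204) (nat_lit 20) (.e (nat_lit 3253) (nat_lit 197) .nil)))))))) (.g (nat_lit 1) (.e (nat_lit 395352) (nat_lit 0) .nil) .nil))) 
(.lf (nat_lit 589320) (.g (nat_lit 4687) (.e (nat_lit 532501) (nat_lit 1) (.e (nat_lit 57931) (nat_lit 282) (.e (nat_lit 163869) (nat_lit 2) (.e (nat_lit 196670) (nat_lit 14) (.e (nat_lit 73746) (nat_lit 3) (.e (nat_lit 516127) (nat_lit 2) (.e (nat_lit 220928) (nat_lit 13) (.e (nat_lit 229433) (nat_lit 25) .nil)))))))) (.g (nat_lit 1) (.e (nat_lit 396241) (nat_lit 0) .nil) .nil)))) 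
(.nd (nat_lit 9) 
(.lf (nat_lit 589064) (.g (nat_lit 5023) (.e (nat_lit 532499) (nat_lit 1) (.e (nat_lit 57927) (nat_lit 282) (.e (nat_lit 163884) (nat_lit 5) (.e (nat_lit 221210) (nat_lit 22) (.e (nat_lit 196656) (nat_lit 11) (.e (nat_lit 16425) (nat_lit 7) (.e (nat_lit 409617) (nat_lit 10) (.e (nat_lit 604) (nat_lit 45) .nil)))))))) (.g (nat_lit 1) (.e (nat_lit 395800) (nat_lit 0) .nil) .nil))) 
(.lf (nat_lit 589576) (.g (nat_lit 2549) (.e (nat_lit 532503) (nat_lit 1) (.e (nat_lit 57931) (nat_lit 282) (.e (nat_lit 163866) (nat_lit 2) (.e (nat_lit 196668) (nat_lit 14) (.e (nat_lit 73747) (nat_lit 3) (.e (nat_lit 516129) (nat_lit 3) (.e (nat_lit 221202) (nat_lit 20) (.e (nat_lit 3230) (nat_lit 197) .nil)))))))) (.g (nat_lit 1) (.e (nat_lit 396599) (nat_lit 0) .nil) .nil))))) 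
(.nd (nat_lit 8) (.nd (nat_lit 9) 
(.lf (nat_lit 588936) (.g (nat_lit 2866) (.e (nat_lit 532499) (nat_lit 1) (.e (nat_lit 57927) (nat_lit 282) (.e (nat_lit 163869) (nat_lit 2) (.e (nat_lit 196666) (nat_lit 13) (.e (nat_lit 65571) (nat_lit 3) (.e (nat_lit 98342) (nat_lit 20) (.e (nat_lit 221198) (nat_lit 20) (.e (nat_lit 3250) (nat_lit 197) .nil)))))))) (.g (nat_lit 1) (.e (nat_lit 395557) (nat_lit 0) .nil) .nil))) 
(.lf (nat_lit 589448) (.g (nat_lit 1401) (.e (nat_lit 532503) (nat_lit 1) (.e (nat_lit 57844) (nat_lit 252) (.e (nat_lit 57379) (nat_lit 3) (.e (nat_lit 98342) (nat_lit 20) .nil)))) (.g (nat_lit 0) (.e (nat_lit 396455) (nat_lit 0) .nil) .nil)))) (.nd (nat_lit 9) 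
(.lf (nat_lit 589192) (.g (nat_lit 3922) (.e (nat_lit 532501) (nat_lit 1) (.e (nat_lit 57852) (nat_lit 252) (.e (nat_lit 57406) (nat_lit 12) (.e (nat_lit 336454) (nat_lit 34) (.e (nat_lit 483385) (nat_lit 23) (.e (nat_lit 336260) (nat_lit 15) (.e (nat_lit 3255) (nat_lit 197) .nil))))))) (.g (nat_lit 1) (.e (nat_lit 395990) (nat_lit 0) .nil) .nil))) 
(.lf (nat_lit 589704) (.g (nat_lit 3721) (.e (nat_lit 532503) (nat_lit 1) (.e (nat_lit 57931) (nat_lit 282) (.e (nat_lit 163869) (nat_lit 2) (.e (nat_lit 196668) (nat_lit 14) (.e (nat_lit 73747) (nat_lit 3) (.e (nat_lit 516129) (nat_lit 3) (.e (nat_lit 221197) (nat_lit 20) (.e (nat_lit 3248) (nat_lit 197) .nil)))))))) (.g (nat_lit 1) (.e (nat_lit 396795) (nat_lit 0) .nil) .nil)))))) 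
(.nd (nat_lit 7) (.nd (nat_lit 8) (.nd (nat_lit 9) 
(.lf (nat_lit 588872) (.g (nat_lit 2003) (.e (nat_lit 532499) (nat_lit 1) (.e (nat_lit 57927) (nat_lit 282) (.e (nat_lit 163868) (nat_lit 2) (.e (nat_lit 196668) (nat_lit 14) (.e (nat_lit 73747) (nat_lit 3) .nil))))) (.g (nat_lit 0) (.e (nat_lit 395461) (nat_lit 0) .nil) .nil))) 
(.lf (nat_lit 589384) (.g (nat_lit 2255) (.e (nat_lit 532502) (nat_lit 1) (.e (nat_lit 57849) (nat_lit 252) (.e (nat_lit 57407) (nat_lit 12) (.e (nat_lit 336456) (nat_lit 34) (.e (nat_lit 483404) (nat_lit 26) .nil))))) (.g (nat_lit 0) (.e (nat_lit 396335) (nat_lit 0) .nil) .nil)))) (.nd (nat_lit 9) 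
(.lf (nat_lit 589128) (.g (nat_lit 2223) (.e (nat_lit 532500) (nat_lit 1) (.e (nat_lit 57927) (nat_lit 282) (.e (nat_lit 163869) (nat_lit 2) (.e (nat_lit 196666) (nat_lit 13) (.e (nat_lit 65569) (nat_lit 3) (.e (nat_lit 98342) (nat_lit 20) (.e (nat_lit 221198) (nat_lit 20) (.e (nat_lit 3241) (nat_lit 197) .nil)))))))) (.g (nat_lit 1) (.e (nat_lit 395891) (nat_lit 0) .nil) .nil))) 
(.lf (nat_lit 589640) (.g (nat_lit 4635) (.e (nat_lit 532503) (nat_lit 1) (.e (nat_lit 57931) (nat_lit 282) (.e (nat_lit 163867) (nat_lit 2) (.e (nat_lit 196670) (nat_lit 14) (.e (nat_lit 73746) (nat_lit 3) (.e (nat_lit 516129) (nat_lit 3) (.e (nat_lit 221196) (nat_lit 20) (.e (nat_lit 3248) (nat_lit 197) .nil)))))))) (.g (nat_lit 1) (.e (nat_lit 396694) (nat_lit 0) .nil) .nil))))) 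
(.nd (nat_lit 8) (.nd (nat_lit 9) 
(.lf (nat_lit 589000) (.g (nat_lit 2084) (.e (nat_lit 532499) (nat_lit 1) (.e (nat_lit 57927) (nat_lit 282) (.e (nat_lit 163870) (nat_lit 2) (.e (nat_lit 196670) (nat_lit 14) (.e (nat_lit 73746) (nat_lit 3) .nil))))) (.g (nat_lit 0) (.e (nat_lit 395681) (nat_lit 0) .nil) .nil))) 
(.lf (nat_lit 589512) (.g (nat_lit 2589) (.e (nat_lit 532503) (nat_lit 1) (.e (nat_lit 57848) (nat_lit 252) (.e (nat_lit 57407) (nat_lit 12) (.e (nat_lit 336454) (nat_lit 34) (.e (nat_lit 483385) (nat_lit 23) (.e (nat_lit 336260) (nat_lit 15) (.e (nat_lit 3255) (nat_lit 197) .nil))))))) (.g (nat_lit 1) (.e (nat_lit 396525) (nat_lit 0) .nil) .nil)))) (.nd (nat_lit 9) 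
(.lf (nat_lit 589256) (.g (nat_lit 3261) (.e (nat_lit 532501) (nat_lit 1) (.e (nat_lit 57927) (nat_lit 282) (.e (nat_lit 163868) (nat_lit 2) (.e (nat_lit 196670) (nat_lit 14) (.e (nat_lit 73746) (nat_lit 3) (.e (nat_lit 516124) (nat_lit 2) (.e (nat_lit 213035) (nat_lit 12) (.e (nat_lit 163964) (nat_lit 25) .nil)))))))) (.g (nat_lit 1) (.e (nat_lit 396114) (nat_lit 0) .nil) .nil))) 
(.lf (nat_lit 589768) (.g (nat_lit 2697) (.e (nat_lit 532503) (nat_lit 1) (.e (nat_lit 57931) (nat_lit 282) (.e (nat_lit 163869) (nat_lit 2) (.e (nat_lit 196670) (nat_lit 14) (.e (nat_lit 73746) (nat_lit 3) (.e (nat_lit 516129) (nat_lit 3) (.e (nat_lit 221198) (nat_lit 20) (.e (nat_lit 3250) (nat_lit 197) .nil)))))))) (.g (nat_lit 1) (.e (nat_lit 396859) (nat_lit 0) .nil) .nil))))))) 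
(.nd (nat_lit 6) (.nd (nat_lit 7) (.nd (nat_lit 8) (.nd (nat_lit 9) 
(.lf (nat_lit 588840) (.g (nat_lit 4321) (.e (nat_lit 532499) (nat_lit 1) (.e (nat_lit 57926) (nat_lit 282) (.e (nat_lit 163886) (nat_lit 5) (.e (nat_lit 221212) (nat_lit 22) (.e (nat_lit 196656) (nat_lit 11) (.e (nat_lit 16425) (nat_lit 7) (.e (nat_lit 409617) (nat_lit 10) (.e (nat_lit 604) (nat_lit 45) .nil)))))))) (.g (nat_lit 1) (.e (nat_lit 395392) (nat_lit 0) .nil) .nil))) 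
(.lf (nat_lit 589352) (.g (nat_lit 2905) (.e (nat_lit 532502) (nat_lit 1) (.e (nat_lit 57688) (nat_lit 156) (.e (nat_lit 163907) (nat_lit 12) (.e (nat_lit 426568) (nat_lit 34) (.e (nat_lit 393284) (nat_lit 24) .nil))))) (.g (nat_lit 0) (.e (nat_lit 396275) (nat_lit 0) .nil) .nil)))) (.nd (nat_lit 9) 
(.lf (nat_lit 589096) (.g (nat_lit 3120) (.e (nat_lit 532499) (nat_lit 1) (.e (nat_lit 57931) (nat_lit 282) (.e (nat_lit 163885) (nat_lit 5) (.e (nat_lit 221212) (nat_lit 22) (.e (nat_lit 196656) (nat_lit 11) (.e (nat_lit 16425) (nat_lit 7) (.e (nat_lit 409616) (nat_lit 10) (.e (nat_lit 604) (nat_lit 45) .nil)))))))) (.g (nat_lit 1) (.e (nat_lit 395844) (nat_lit 0) .nil) .nil))) 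
(.lf (nat_lit 589608) (.g (nat_lit 3164) (.e (nat_lit 532503) (nat_lit 1) (.e (nat_lit 57931) (nat_lit 282) (.e (nat_lit 163867) (nat_lit 2) (.e (nat_lit 196668) (nat_lit 14) (.e (nat_lit 73746) (nat_lit 3) (.e (nat_lit 516131) (nat_lit 3) (.e (nat_lit 221198) (nat_lit 20) (.e (nat_lit 3248) (nat_lit 197) .nil)))))))) (.g (nat_lit 1) (.e (nat_lit 396637) (nat_lit 0) .nil) .nil))))) 
(.nd (nat_lit 8) (.nd (nat_lit 9) 
(.lf (nat_lit 588968) (.g (nat_lit 3884) (.e (nat_lit 532499) (nat_lit 1) (.e (nat_lit 57927) (nat_lit 282) (.e (nat_lit 163869) (nat_lit 2) (.e (nat_lit 196670) (nat_lit 14) (.e (nat_lit 73746) (nat_lit 3) (.e (nat_lit 516126) (nat_lit 2) (.e (nat_lit 213034) (nat_lit 12) (.e (nat_lit 163963) (nat_lit 25) .nil)))))))) (.g (nat_lit 1) (.e (nat_lit 395620) (nat_lit 0) .nil) .nil))) 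
(.lf (nat_lit 589480) (.g (nat_lit 1852) (.e (nat_lit 532503) (nat_lit 1) (.e (nat_lit 57847) (nat_lit 252) (.e (nat_lit 57407) (nat_lit 12) (.e (nat_lit 336456) (nat_lit 34) (.e (nat_lit 483402) (nat_lit 26) .nil))))) (.g (nat_lit 0) (.e (nat_lit 396488) (nat_lit 0) .nil) .nil)))) (.nd (nat_lit 9) 
(.lf (nat_lit 589224) (.g (nat_lit 1957) (.e (nat_lit 532501) (nat_lit 1) (.e (nat_lit 57926) (nat_lit 282) (.e (nat_lit 163869) (nat_lit 2) (.e (nat_lit 196668) (nat_lit 14) (.e (nat_lit 73747) (nat_lit 3) .nil))))) (.g (nat_lit 0) (.e (nat_lit 396046) (nat_lit 0) .nil) .nil))) 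
(.lf (nat_lit 589736) (.g (nat_lit 2722) (.e (nat_lit 532503) (nat_lit 1) (.e (nat_lit 57931) (nat_lit 282) (.e (nat_lit 163869) (nat_lit 2) (.e (nat_lit 196670) (nat_lit 14) (.e (nat_lit 73746) (nat_lit 3) (.e (nat_lit 516126) (nat_lit 2) (.e (nat_lit 213035) (nat_lit 12) (.e (nat_lit 163965) (nat_lit 25) .nil)))))))) (.g (nat_lit 1) (.e (nat_lit 396827) (nat_lit 0) .nil) .nil)))))) 
(.nd (nat_lit 7) (.nd (nat_lit 8) (.nd (nat_lit 9) 
(.lf (nat_lit 588904) (.g (nat_lit 2549) (.e (nat_lit 532499) (nat_lit 1) (.e (nat_lit 57927) (nat_lit 282) (.e (nat_lit 163868) (nat_lit 2) (.e (nat_lit 196670) (nat_lit 14) (.e (nat_lit 73746) (nat_lit 3) (.e (nat_lit 516127) (nat_lit 2) (.e (nat_lit 213019) (nat_lit 9) (.e (nat_lit 2505) (nat_lit 157) (.e (nat_lit 3249) (nat_lit 197) .nil))))))))) (.g (nat_lit 1) (.e (nat_lit 395506) (nat_lit 0) .nil) .nil))) 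
(.lf (nat_lit 589416) (.g (nat_lit 1931) (.e (nat_lit 532503) (nat_lit 1) (.e (nat_lit 57688) (nat_lit 156) (.e (nat_lit 163874) (nat_lit 3) (.e (nat_lit 204836) (nat_lit 20) .nil)))) (.g (nat_lit 0) (.e (nat_lit 396390) (nat_lit 0) .nil) .nil)))) (.nd (nat_lit 9) 
(.lf (nat_lit 589160) (.g (nat_lit 3196) (.e (nat_lit 532501) (nat_lit 1) (.e (nat_lit 57851) (nat_lit 252) (.e (nat_lit 57406) (nat_lit 12) (.e (nat_lit 336367) (nat_lit 27) (.e (nat_lit 426542) (nat_lit 29) (.e (nat_lit 352267) (nat_lit 0) (.e (nat_lit 3230) (nat_lit 197) .nil))))))) (.g (nat_lit 1) (.e (nat_lit 395957) (nat_lit 0) .nil) .nil))) 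
(.lf (nat_lit 589672) (.g (nat_lit 1922) (.e (nat_lit 532503) (nat_lit 1) (.e (nat_lit 57931) (nat_lit 282) (.e (nat_lit 163869) (nat_lit 2) (.e (nat_lit 196663) (nat_lit 13) .nil)))) (.g (nat_lit 0) (.e (nat_lit 396726) (nat_lit 0) .nil) .nil))))) (.nd (nat_lit 8) (.nd (nat_lit 9) 
(.lf (nat_lit 589032) (.g (nat_lit 1792) (.e (nat_lit 532499) (nat_lit 1) (.e (nat_lit 57927) (nat_lit 282) (.e (nat_lit 163874) (nat_lit 3) (.e (nat_lit 204850) (nat_lit 26) .nil)))) (.g (nat_lit 0) (.e (nat_lit 395758) (nat_lit 0) .nil) .nil))) 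
(.lf (nat_lit 589544) (.g (nat_lit 2396) (.e (nat_lit 532503) (nat_lit 1) (.e (nat_lit 57924) (nat_lit 282) (.e (nat_lit 163867) (nat_lit 2) (.e (nat_lit 196668) (nat_lit 14) (.e (nat_lit 73746) (nat_lit 3) (.e (nat_lit 516129) (nat_lit 3) (.e (nat_lit 221196) (nat_lit 20) (.e (nat_lit 3248) (nat_lit 197) .nil)))))))) (.g (nat_lit 1) (.e (nat_lit 396559) (nat_lit 0) .nil) .nil)))) 
(.nd (nat_lit 9) 
(.lf (nat_lit 589288) (.g (nat_lit 1477) (.e (nat_lit 532501) (nat_lit 1) (.e (nat_lit 57927) (nat_lit 282) (.e (nat_lit 163874) (nat_lit 3) (.e (nat_lit 204873) (nat_lit 30) .nil)))) (.g (nat_lit 0) (.e (nat_lit 396180) (nat_lit 0) .nil) .nil))) 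
(.lf (nat_lit 589800) (.g (nat_lit 1864) (.e (nat_lit 532503) (nat_lit 1) (.e (nat_lit 57931) (nat_lit 282) (.e (nat_lit 163874) (nat_lit 3) (.e (nat_lit 204850) (nat_lit 26) .nil)))) (.g (nat_lit 0) (.e (nat_lit 396893) (nat_lit 0) .nil) .nil)))))))) (.nd (nat_lit 5) (.nd (nat_lit 6) (.nd (nat_lit 7) (.nd (nat_lit 8) (.nd (nat_lit 9) 
(.lf (nat_lit 588824) (.g (nat_lit 2664) (.e (nat_lit 532499) (nat_lit 1) (.e (nat_lit 57926) (nat_lit 282) (.e (nat_lit 163869) (nat_lit 2) (.e (nat_lit 196670) (nat_lit 14) (.e (nat_lit 73746) (nat_lit 3) (.e (nat_lit 516126) (nat_lit 2) (.e (nat_lit 213033) (nat_lit 12) (.e (nat_lit 163964) (nat_lit 25) .nil)))))))) (.g (nat_lit 1) (.e (nat_lit 395368) (nat_lit 0) .nil) .nil))) 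
(.lf (nat_lit 589336) (.g (nat_lit 3248) (.e (nat_lit 532502) (nat_lit 1) (.e (nat_lit 57688) (nat_lit 156) (.e (nat_lit 163902) (nat_lit 12) (.e (nat_lit 426568) (nat_lit 34) (.e (nat_lit 393284) (nat_lit 24) (.e (nat_lit 434233) (nat_lit 23) .nil)))))) (.g (nat_lit 1) (.e (nat_lit 396259) (nat_lit 0) .nil) .nil)))) (.nd (nat_lit 9) 
(.lf (nat_lit 589080) (.g (nat_lit 3609) (.e (nat_lit 532499) (nat_lit 1) (.e (nat_lit 57931) (nat_lit 282) (.e (nat_lit 163869) (nat_lit 2) (.e (nat_lit 196670) (nat_lit 14) (.e (nat_lit 73746) (nat_lit 3) (.e (nat_lit 516124) (nat_lit 2) (.e (nat_lit 213035) (nat_lit 12) (.e (nat_lit 163965) (nat_lit 25) .nil)))))))) (.g (nat_lit 1) (.e (nat_lit 395826) (nat_lit 0) .nil) .nil))) 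
(.lf (nat_lit 589592) (.g (nat_lit 2512) (.e (nat_lit 532503) (nat_lit 1) (.e (nat_lit 57931) (nat_lit 282) (.e (nat_lit 163867) (nat_lit 2) (.e (nat_lit 196668) (nat_lit 14) (.e (nat_lit 73746) (nat_lit 3) .nil))))) (.g (nat_lit 0) (.e (nat_lit 396617) (nat_lit 0) .nil) .nil))))) (.nd (nat_lit 8) (.nd (nat_lit 9) 
(.lf (nat_lit 588952) (.g (nat_lit 1988) (.e (nat_lit 532499) (nat_lit 1) (.e (nat_lit 57927) (nat_lit 282) (.e (nat_lit 163869) (nat_lit 2) (.e (nat_lit 196670) (nat_lit 14) (.e (nat_lit 73746) (nat_lit 3) .nil))))) (.g (nat_lit 0) (.e (nat_lit 395604) (nat_lit 0) .nil) .nil))) 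
(.lf (nat_lit 589464) (.g (nat_lit 3517) (.e (nat_lit 532503) (nat_lit 1) (.e (nat_lit 57847) (nat_lit 252) (.e (nat_lit 57377) (nat_lit 3) (.e (nat_lit 98317) (nat_lit 9) (.e (nat_lit 336027) (nat_lit 3) .nil))))) (.g (nat_lit 0) (.e (nat_lit 396471) (nat_lit 0) .nil) .nil)))) (.nd (nat_lit 9) 
(.lf (nat_lit 589208) (.g (nat_lit 1882) (.e (nat_lit 532501) (nat_lit 1) (.e (nat_lit 57854) (nat_lit 252) (.e (nat_lit 57406) (nat_lit 12) (.e (nat_lit 336456) (nat_lit 34) (.e (nat_lit 483379) (nat_lit 23) .nil))))) (.g (nat_lit 0) (.e (nat_lit 396009) (nat_lit 0) .nil) .nil))) 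
(.lf (nat_lit 589720) (.g (nat_lit 2898) (.e (nat_lit 532503) (nat_lit 1) (.e (nat_lit 57931) (nat_lit 282) (.e (nat_lit 163869) (nat_lit 2) (.e (nat_lit 196670) (nat_lit 14) (.e (nat_lit 73746) (nat_lit 3) (.e (nat_lit 516122) (nat_lit 2) (.e (nat_lit 213035) (nat_lit 12) (.e (nat_lit 163963) (nat_lit 25) .nil)))))))) (.g (nat_lit 1) (.e (nat_lit 396811) (nat_lit 0) .nil) .nil)))))) 
(.nd (nat_lit 7) (.nd (nat_lit 8) (.nd (nat_lit 9) 
(.lf (nat_lit 588888) (.g (nat_lit 2922) (.e (nat_lit 532499) (nat_lit 1) (.e (nat_lit 57927) (nat_lit 282) (.e (nat_lit 163868) (nat_lit 2) (.e (nat_lit 196670) (nat_lit 14) (.e (nat_lit 73746) (nat_lit 3) (.e (nat_lit 516122) (nat_lit 2) (.e (nat_lit 213035) (nat_lit 12) (.e (nat_lit 163964) (nat_lit 25) .nil)))))))) (.g (nat_lit 1) (.e (nat_lit 395490) (nat_lit 0) .nil) .nil))) 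
(.lf (nat_lit 589400) (.g (nat_lit 2374) (.e (nat_lit 532503) (nat_lit 1) (.e (nat_lit 57685) (nat_lit 156) (.e (nat_lit 163902) (nat_lit 12) (.e (nat_lit 426568) (nat_lit 34) (.e (nat_lit 393283) (nat_lit 24) (.e (nat_lit 434232) (nat_lit 23) .nil)))))) (.g (nat_lit 1) (.e (nat_lit 396363) (nat_lit 0) .nil) .nil)))) (.nd (nat_lit 9) 
(.lf (nat_lit 589144) (.g (nat_lit 3456) (.e (nat_lit 532501) (nat_lit 1) (.e (nat_lit 57691) (nat_lit 156) (.e (nat_lit 163905) (nat_lit 12) (.e (nat_lit 426479) (nat_lit 27) (.e (nat_lit 336432) (nat_lit 30) (.e (nat_lit 450580) (nat_lit 5) .nil)))))) (.g (nat_lit 1) (.e (nat_lit 395919) (nat_lit 0) .nil) .nil))) 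
(.lf (nat_lit 589656) (.g (nat_lit 2656) (.e (nat_lit 532503) (nat_lit 1) (.e (nat_lit 57931) (nat_lit 282) (.e (nat_lit 163867) (nat_lit 2) (.e (nat_lit 196670) (nat_lit 14) (.e (nat_lit 73746) (nat_lit 3) (.e (nat_lit 516129) (nat_lit 3) (.e (nat_lit 221202) (nat_lit 20) (.e (nat_lit 3231) (nat_lit 197) .nil)))))))) (.g (nat_lit 1) (.e (nat_lit 396710) (nat_lit 0) .nil) .nil))))) 
(.nd (nat_lit 8) (.nd (nat_lit 9) 
(.lf (nat_lit 589016) (.g (nat_lit 3094) (.e (nat_lit 532499) (nat_lit 1) (.e (nat_lit 57927) (nat_lit 282) (.e (nat_lit 163871) (nat_lit 2) (.e (nat_lit 196670) (nat_lit 14) (.e (nat_lit 73746) (nat_lit 3) (.e (nat_lit 516126) (nat_lit 2) (.e (nat_lit 213035) (nat_lit 12) (.e (nat_lit 163965) (nat_lit 25) .nil)))))))) (.g (nat_lit 1) (.e (nat_lit 395741) (nat_lit 0) .nil) .nil))) 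
(.lf (nat_lit 589528) (.g (nat_lit 1853) (.e (nat_lit 532503) (nat_lit 1) (.e (nat_lit 57849) (nat_lit 252) (.e (nat_lit 57407) (nat_lit 12) (.e (nat_lit 336454) (nat_lit 34) (.e (nat_lit 483385) (nat_lit 23) .nil))))) (.g (nat_lit 0) (.e (nat_lit 396543) (nat_lit 0) .nil) .nil)))) (.nd (nat_lit 9) 
(.lf (nat_lit 589272) (.g (nat_lit 3164) (.e (nat_lit 532501) (nat_lit 1) (.e (nat_lit 57927) (nat_lit 282) (.e (nat_lit 163869) (nat_lit 2) (.e (nat_lit 196670) (nat_lit 14) (.e (nat_lit 73746) (nat_lit 3) (.e (nat_lit 516126) (nat_lit 2) (.e (nat_lit 213033) (nat_lit 12) (.e (nat_lit 163964) (nat_lit 25) .nil)))))))) (.g (nat_lit 1) (.e (nat_lit 396142) (nat_lit 0) .nil) .nil))) 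
(.lf (nat_lit 589784) (.g (nat_lit 2949) (.e (nat_lit 532503) (nat_lit 1) (.e (nat_lit 57931) (nat_lit 282) (.e (nat_lit 163869) (nat_lit 2) (.e (nat_lit 196670) (nat_lit 14) (.e (nat_lit 73746) (nat_lit 3) (.e (nat_lit 516131) (nat_lit 3) (.e (nat_lit 221196) (nat_lit 20) (.e (nat_lit 3247) (nat_lit 197) .nil)))))))) (.g (nat_lit 1) (.e (nat_lit 396875) (nat_lit 0) .nil) .nil))))))) 
(.nd (nat_lit 6) (.nd (nat_lit 7) (.nd (nat_lit 8) (.nd (nat_lit 9) 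
(.lf (nat_lit 588856) (.g (nat_lit 2364) (.e (nat_lit 532499) (nat_lit 1) (.e (nat_lit 57927) (nat_lit 282) (.e (nat_lit 163866) (nat_lit 2) (.e (nat_lit 196670) (nat_lit 14) (.e (nat_lit 73746) (nat_lit 3) (.e (nat_lit 516127) (nat_lit 2) (.e (nat_lit 213035) (nat_lit 12) (.e (nat_lit 163964) (nat_lit 25) .nil)))))))) (.g (nat_lit 1) (.e (nat_lit 395414) (nat_lit 0) .nil) .nil))) 
(.lf (nat_lit 589368) (.g (nat_lit 1517) (.e (nat_lit 532502) (nat_lit 1) (.e (nat_lit 57692) (nat_lit 156) (.e (nat_lit 163907) (nat_lit 12) (.e (nat_lit 426568) (nat_lit 34) (.e (nat_lit 393283) (nat_lit 24) .nil))))) (.g (nat_lit 0) (.e (nat_lit 396307) (nat_lit 0) .nil) .nil)))) (.nd (nat_lit 9) 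
(.lf (nat_lit 589112) (.g (nat_lit 1844) (.e (nat_lit 532500) (nat_lit 1) (.e (nat_lit 57852) (nat_lit 252) (.e (nat_lit 57406) (nat_lit 12) (.e (nat_lit 336456) (nat_lit 34) .nil)))) (.g (nat_lit 0) (.e (nat_lit 395865) (nat_lit 0) .nil) .nil))) 
(.lf (nat_lit 589624) (.g (nat_lit 3936) (.e (nat_lit 532503) (nat_lit 1) (.e (nat_lit 57931) (nat_lit 282) (.e (nat_lit 163867) (nat_lit 2) (.e (nat_lit 196668) (nat_lit 14) (.e (nat_lit 73747) (nat_lit 3) (.e (nat_lit 516131) (nat_lit 3) (.e (nat_lit 221197) (nat_lit 20) (.e (nat_lit 3230) (nat_lit 197) .nil)))))))) (.g (nat_lit 1) (.e (nat_lit 396656) (nat_lit 0) .nil) .nil))))) 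
(.nd (nat_lit 8) (.nd (nat_lit 9) 
(.lf (nat_lit 588984) (.g (nat_lit 2290) (.e (nat_lit 532499) (nat_lit 1) (.e (nat_lit 57927) (nat_lit 282) (.e (nat_lit 163869) (nat_lit 2) (.e (nat_lit 196670) (nat_lit 14) (.e (nat_lit 73746) (nat_lit 3) (.e (nat_lit 516129) (nat_lit 3) (.e (nat_lit 221198) (nat_lit 20) (.e (nat_lit 3237) (nat_lit 197) .nil)))))))) (.g (nat_lit 1) (.e (nat_lit 395636) (nat_lit 0) .nil) .nil))) 
(.lf (nat_lit 589496) (.g (nat_lit 2085) (.e (nat_lit 532503) (nat_lit 1) (.e (nat_lit 57847) (nat_lit 252) (.e (nat_lit 57411) (nat_lit 12) (.e (nat_lit 336454) (nat_lit 34) (.e (nat_lit 483404) (nat_lit 26) .nil))))) (.g (nat_lit 0) (.e (nat_lit 396506) (nat_lit 0) .nil) .nil)))) (.nd (nat_lit 9) 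
(.lf (nat_lit 589240) (.g (nat_lit 3100) (.e (nat_lit 532501) (nat_lit 1) (.e (nat_lit 57926) (nat_lit 282) (.e (nat_lit 163869) (nat_lit 2) (.e (nat_lit 196670) (nat_lit 14) (.e (nat_lit 73746) (nat_lit 3) (.e (nat_lit 516127) (nat_lit 2) (.e (nat_lit 213038) (nat_lit 13) (.e (nat_lit 229434) (nat_lit 25) .nil)))))))) (.g (nat_lit 1) (.e (nat_lit 396065) (nat_lit 0) .nil) .nil))) 
(.lf (nat_lit 589752) (.g (nat_lit 3295) (.e (nat_lit 532503) (nat_lit 1) (.e (nat_lit 57931) (nat_lit 282) (.e (nat_lit 163869) (nat_lit 2) (.e (nat_lit 196670) (nat_lit 14) (.e (nat_lit 73746) (nat_lit 3) (.e (nat_lit 516129) (nat_lit 3) (.e (nat_lit 221195) (nat_lit 20) (.e (nat_lit 3254) (nat_lit 197) .nil)))))))) (.g (nat_lit 1) (.e (nat_lit 396843) (nat_lit 0) .nil) .nil)))))) 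
(.nd (nat_lit 7) (.nd (nat_lit 8) (.nd (nat_lit 9) 
(.lf (nat_lit 588920) (.g (nat_lit 1392) (.e (nat_lit 532499) (nat_lit 1) (.e (nat_lit 57927) (nat_lit 282) (.e (nat_lit 163869) (nat_lit 2) (.e (nat_lit 196663) (nat_lit 13) .nil)))) (.g (nat_lit 0) (.e (nat_lit 395522) (nat_lit 0) .nil) .nil))) 
(.lf (nat_lit 589432) (.g (nat_lit 2824) (.e (nat_lit 532503) (nat_lit 1) (.e (nat_lit 57688) (nat_lit 156) (.e (nat_lit 163905) (nat_lit 12) (.e (nat_lit 426568) (nat_lit 34) (.e (nat_lit 393283) (nat_lit 24) (.e (nat_lit 434234) (nat_lit 23) .nil)))))) (.g (nat_lit 1) (.e (nat_lit 396411) (nat_lit 0) .nil) .nil)))) (.nd (nat_lit 9) 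
(.lf (nat_lit 589176) (.g (nat_lit 2462) (.e (nat_lit 532501) (nat_lit 1) (.e (nat_lit 57851) (nat_lit 252) (.e (nat_lit 57406) (nat_lit 12) (.e (nat_lit 336456) (nat_lit 34) (.e (nat_lit 483393) (nat_lit 23) (.e (nat_lit 336293) (nat_lit 15) (.e (nat_lit 3251) (nat_lit 197) .nil))))))) (.g (nat_lit 1) (.e (nat_lit 395973) (nat_lit 0) .nil) .nil))) 
(.lf (nat_lit 589688) (.g (nat_lit 3908) (.e (nat_lit 532503) (nat_lit 1) (.e (nat_lit 57931) (nat_lit 282) (.e (nat_lit 163869) (nat_lit 2) (.e (nat_lit 196668) (nat_lit 14) (.e (nat_lit 73746) (nat_lit 3) (.e (nat_lit 516129) (nat_lit 3) (.e (nat_lit 221202) (nat_lit 20) (.e (nat_lit 3249) (nat_lit 197) .nil)))))))) (.g (nat_lit 1) (.e (nat_lit 396776) (nat_lit 0) .nil) .nil))))) 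
(.nd (nat_lit 8) (.nd (nat_lit 9) 
(.lf (nat_lit 589048) (.g (nat_lit 2823) (.e (nat_lit 532499) (nat_lit 1) (.e (nat_lit 57927) (nat_lit 282) (.e (nat_lit 163874) (nat_lit 3) (.e (nat_lit 204862) (nat_lit 27) (.e (nat_lit 344117) (nat_lit 21) (.e (nat_lit 516123) (nat_lit 2) (.e (nat_lit 220928) (nat_lit 13) (.e (nat_lit 229433) (nat_lit 25) .nil)))))))) (.g (nat_lit 1) (.e (nat_lit 395778) (nat_lit 0) .nil) .nil))) 
(.lf (nat_lit 589560) (.g (nat_lit 2390) (.e (nat_lit 532503) (nat_lit 1) (.e (nat_lit 57929) (nat_lit 282) (.e (nat_lit 163869) (nat_lit 2) (.e (nat_lit 196668) (nat_lit 14) (.e (nat_lit 73747) (nat_lit 3) (.e (nat_lit 516131) (nat_lit 3) (.e (nat_lit 221197) (nat_lit 20) (.e (nat_lit 3248) (nat_lit 197) .nil)))))))) (.g (nat_lit 1) (.e (nat_lit 396578) (nat_lit 0) .nil) .nil)))) 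
(.nd (nat_lit 9) 
(.lf (nat_lit 589304) (.g (nat_lit 2588) (.e (nat_lit 532501) (nat_lit 1) (.e (nat_lit 57929) (nat_lit 282) (.e (nat_lit 163869) (nat_lit 2) (.e (nat_lit 196670) (nat_lit 14) (.e (nat_lit 73746) (nat_lit 3) (.e (nat_lit 516122) (nat_lit 2) (.e (nat_lit 213035) (nat_lit 12) (.e (nat_lit 163964) (nat_lit 25) .nil)))))))) (.g (nat_lit 1) (.e (nat_lit 396209) (nat_lit 0) .nil) .nil))) 
(.lf (nat_lit 589816) (.g (nat_lit 2910) (.e (nat_lit 532503) (nat_lit 1) (.e (nat_lit 57931) (nat_lit 282) (.e (nat_lit 163874) (nat_lit 3) (.e (nat_lit 204862) (nat_lit 27) (.e (nat_lit 344117) (nat_lit 21) (.e (nat_lit 516130) (nat_lit 3) (.e (nat_lit 221198) (nat_lit 20) (.e (nat_lit 3248) (nat_lit 197) .nil)))))))) (.g (nat_lit 1) (.e (nat_lit 396913) (nat_lit 0) .nil) .nil)))))))))) 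
(.nd (nat_lit 3) (.nd (nat_lit 4) (.nd (nat_lit 5) (.nd (nat_lit 6) (.nd (nat_lit 7) 
(.nd (nat_lit 8) (.nd (nat_lit 9) 
(.lf (nat_lit 588804) (.g (nat_lit 2122) (.e (nat_lit 532499) (nat_lit 1) (.e (nat_lit 57854) (nat_lit 252) (.e (nat_lit 57406) (nat_lit 12) (.e (nat_lit 336456) (nat_lit 34) (.e (nat_lit 483404) (nat_lit 26) .nil))))) (.g (nat_lit 0) (.e (nat_lit 395347) (nat_lit 0) .nil) .nil))) 
(.lf (nat_lit 589316) (.g (nat_lit 2680) (.e (nat_lit 532501) (nat_lit 1) (.e (nat_lit 57931) (nat_lit 282) (.e (nat_lit 163869) (nat_lit 2) (.e (nat_lit 196670) (nat_lit 14) (.e (nat_lit 73746) (nat_lit 3) .nil))))) (.g (nat_lit 0) (.e (nat_lit 396237) (nat_lit 0) .nil) .nil)))) (.nd (nat_lit 9) 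
(.lf (nat_lit 589060) (.g (nat_lit 2617) (.e (nat_lit 532499) (nat_lit 1) (.e (nat_lit 57927) (nat_lit 282) (.e (nat_lit 163875) (nat_lit 3) (.e (nat_lit 204862) (nat_lit 27) (.e (nat_lit 344117) (nat_lit 21) (.e (nat_lit 516129) (nat_lit 3) (.e (nat_lit 221202) (nat_lit 20) (.e (nat_lit 3249) (nat_lit 197) .nil)))))))) (.g (nat_lit 1) (.e (nat_lit 395794) (nat_lit 0) .nil) .nil))) 
(.lf (nat_lit 589572) (.g (nat_lit 1786) (.e (nat_lit 532503) (nat_lit 1) (.e (nat_lit 57931) (nat_lit 282) (.e (nat_lit 163866) (nat_lit 2) (.e (nat_lit 196668) (nat_lit 14) (.e (nat_lit 73747) (nat_lit 3) .nil))))) (.g (nat_lit 0) (.e (nat_lit 396595) (nat_lit 0) .nil) .nil))))) (.nd (nat_lit 8) (.nd (nat_lit 9) 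
(.lf (nat_lit 588932) (.g (nat_lit 2246) (.e (nat_lit 532499) (nat_lit 1) (.e (nat_lit 57927) (nat_lit 282) (.e (nat_lit 163869) (nat_lit 2) (.e (nat_lit 196666) (nat_lit 13) (.e (nat_lit 65571) (nat_lit 3) (.e (nat_lit 98341) (nat_lit 20) (.e (nat_lit 221197) (nat_lit 20) (.e (nat_lit 3250) (nat_lit 197) .nil)))))))) (.g (nat_lit 1) (.e (nat_lit 395550) (nat_lit 0) .nil) .nil))) 
(.lf (nat_lit 589444) (.g (nat_lit 1368) (.e (nat_lit 532503) (nat_lit 1) (.e (nat_lit 57691) (nat_lit 156) (.e (nat_lit 163907) (nat_lit 12) (.e (nat_lit 426566) (nat_lit 34) .nil)))) (.g (nat_lit 0) (.e (nat_lit 396448) (nat_lit 0) .nil) .nil)))) (.nd (nat_lit 9) 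
(.lf (nat_lit 589188) (.g (nat_lit 3275) (.e (nat_lit 532501) (nat_lit 1) (.e (nat_lit 57852) (nat_lit 252) (.e (nat_lit 57377) (nat_lit 3) (.e (nat_lit 98313) (nat_lit 9) (.e (nat_lit 336027) (nat_lit 3) (.e (nat_lit 98338) (nat_lit 19) (.e (nat_lit 213036) (nat_lit 13) (.e (nat_lit 229433) (nat_lit 25) .nil)))))))) (.g (nat_lit 1) (.e (nat_lit 395986) (nat_lit 0) .nil) .nil))) 
(.lf (nat_lit 589700) (.g (nat_lit 3011) (.e (nat_lit 532503) (nat_lit 1) (.e (nat_lit 57931) (nat_lit 282) (.e (nat_lit 163869) (nat_lit 2) (.e (nat_lit 196668) (nat_lit 14) (.e (nat_lit 73747) (nat_lit 3) (.e (nat_lit 516129) (nat_lit 3) (.e (nat_lit 221196) (nat_lit 20) (.e (nat_lit 3244) (nat_lit 197) .nil)))))))) (.g (nat_lit 1) (.e (nat_lit 396791) (nat_lit 0) .nil) .nil)))))) 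
(.nd (nat_lit 7) (.nd (nat_lit 8) (.nd (nat_lit 9) 
(.lf (nat_lit 588868) (.g (nat_lit 2525) (.e (nat_lit 532499) (nat_lit 1) (.e (nat_lit 57927) (nat_lit 282) (.e (nat_lit 163868) (nat_lit 2) (.e (nat_lit 196668) (nat_lit 14) (.e (nat_lit 73746) (nat_lit 3) (.e (nat_lit 516129) (nat_lit 3) (.e (nat_lit 221202) (nat_lit 20) (.e (nat_lit 3232) (nat_lit 197) .nil)))))))) (.g (nat_lit 1) (.e (nat_lit 395456) (nat_lit 0) .nil) .nil))) 
(.lf (nat_lit 589380) (.g (nat_lit 1490) (.e (nat_lit 532502) (nat_lit 1) (.e (nat_lit 57848) (nat_lit 252) (.e (nat_lit 57407) (nat_lit 12) (.e (nat_lit 336455) (nat_lit 34) (.e (nat_lit 483405) (nat_lit 26) .nil))))) (.g (nat_lit 0) (.e (nat_lit 396328) (nat_lit 0) .nil) .nil)))) (.nd (nat_lit 9) 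
(.lf (nat_lit 589124) (.g (nat_lit 2542) (.e (nat_lit 532500) (nat_lit 1) (.e (nat_lit 57927) (nat_lit 282) (.e (nat_lit 163868) (nat_lit 2) (.e (nat_lit 196668) (nat_lit 14) (.e (nat_lit 73747) (nat_lit 3) (.e (nat_lit 516131) (nat_lit 3) (.e (nat_lit 221198) (nat_lit 20) (.e (nat_lit 3241) (nat_lit 197) .nil)))))))) (.g (nat_lit 1) (.e (nat_lit 395887) (nat_lit 0) .nil) .nil))) 
(.lf (nat_lit 589636) (.g (nat_lit 2711) (.e (nat_lit 532503) (nat_lit 1) (.e (nat_lit 57931) (nat_lit 282) (.e (nat_lit 163867) (nat_lit 2) (.e (nat_lit 196670) (nat_lit 14) (.e (nat_lit 73746) (nat_lit 3) (.e (nat_lit 516129) (nat_lit 3) (.e (nat_lit 221195) (nat_lit 20) (.e (nat_lit 3254) (nat_lit 197) .nil)))))))) (.g (nat_lit 1) (.e (nat_lit 396690) (nat_lit 0) .nil) .nil))))) 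
(.nd (nat_lit 8) (.nd (nat_lit 9) 
(.lf (nat_lit 588996) (.g (nat_lit 2387) (.e (nat_lit 532499) (nat_lit 1) (.e (nat_lit 57927) (nat_lit 282) (.e (nat_lit 163869) (nat_lit 2) (.e (nat_lit 196670) (nat_lit 14) (.e (nat_lit 73746) (nat_lit 3) (.e (nat_lit 516131) (nat_lit 3) (.e (nat_lit 221197) (nat_lit 20) (.e (nat_lit 3241) (nat_lit 197) .nil)))))))) (.g (nat_lit 1) (.e (nat_lit 395648) (nat_lit 0) .nil) .nil))) 
(.lf (nat_lit 589508) (.g (nat_lit 2895) (.e (nat_lit 532503) (nat_lit 1) (.e (nat_lit 57848) (nat_lit 252) (.e (nat_lit 57407) (nat_lit 12) (.e (nat_lit 336454) (nat_lit 34) (.e (nat_lit 483384) (nat_lit 23) (.e (nat_lit 336306) (nat_lit 15) (.e (nat_lit 3238) (nat_lit 197) .nil))))))) (.g (nat_lit 1) (.e (nat_lit 396521) (nat_lit 0) .nil) .nil)))) (.nd (nat_lit 9) 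
(.lf (nat_lit 589252) (.g (nat_lit 2386) (.e (nat_lit 532501) (nat_lit 1) (.e (nat_lit 57927) (nat_lit 282) (.e (nat_lit 163868) (nat_lit 2) (.e (nat_lit 196668) (nat_lit 14) (.e (nat_lit 73746) (nat_lit 3) .nil))))) (.g (nat_lit 0) (.e (nat_lit 396099) (nat_lit 0) .nil) .nil))) 
(.lf (nat_lit 589764) (.g (nat_lit 2786) (.e (nat_lit 532503) (nat_lit 1) (.e (nat_lit 57931) (nat_lit 282) (.e (nat_lit 163869) (nat_lit 2) (.e (nat_lit 196670) (nat_lit 14) (.e (nat_lit 73746) (nat_lit 3) (.e (nat_lit 516129) (nat_lit 3) (.e (nat_lit 221197) (nat_lit 20) (.e (nat_lit 3246) (nat_lit 197) .nil)))))))) (.g (nat_lit 1) (.e (nat_lit 396855) (nat_lit 0) .nil) .nil))))))) 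
(.nd (nat_lit 6) (.nd (nat_lit 7) (.nd (nat_lit 8) (.nd (nat_lit 9) 
(.lf (nat_lit 588836) (.g (nat_lit 1960) (.e (nat_lit 532499) (nat_lit 1) (.e (nat_lit 57926) (nat_lit 282) (.e (nat_lit 163875) (nat_lit 3) (.e (nat_lit 204862) (nat_lit 27) (.e (nat_lit 344117) (nat_lit 21) .nil))))) (.g (nat_lit 0) (.e (nat_lit 395387) (nat_lit 0) .nil) .nil))) 
(.lf (nat_lit 589348) (.g (nat_lit 1866) (.e (nat_lit 532502) (nat_lit 1) (.e (nat_lit 57688) (nat_lit 156) (.e (nat_lit 163907) (nat_lit 12) (.e (nat_lit 426479) (nat_lit 27) .nil)))) (.g (nat_lit 0) (.e (nat_lit 396271) (nat_lit 0) .nil) .nil)))) (.nd (nat_lit 9) 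
(.lf (nat_lit 589092) (.g (nat_lit 3501) (.e (nat_lit 532499) (nat_lit 1) (.e (nat_lit 57931) (nat_lit 282) (.e (nat_lit 163869) (nat_lit 2) (.e (nat_lit 196670) (nat_lit 14) (.e (nat_lit 73746) (nat_lit 3) (.e (nat_lit 516129) (nat_lit 3) (.e (nat_lit 221195) (nat_lit 20) (.e (nat_lit 3252) (nat_lit 197) .nil)))))))) (.g (nat_lit 1) (.e (nat_lit 395838) (nat_lit 0) .nil) .nil))) 
(.lf (nat_lit 589604) (.g (nat_lit 4386) (.e (nat_lit 532503) (nat_lit 1) (.e (nat_lit 57931) (nat_lit 282) (.e (nat_lit 163867) (nat_lit 2) (.e (nat_lit 196668) (nat_lit 14) (.e (nat_lit 73746) (nat_lit 3) (.e (nat_lit 516129) (nat_lit 3) (.e (nat_lit 221204) (nat_lit 20) (.e (nat_lit 3253) (nat_lit 197) .nil)))))))) (.g (nat_lit 1) (.e (nat_lit 396633) (nat_lit 0) .nil) .nil))))) 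
(.nd (nat_lit 8) (.nd (nat_lit 9) 
(.lf (nat_lit 588964) (.g (nat_lit 2664) (.e (nat_lit 532499) (nat_lit 1) (.e (nat_lit 57927) (nat_lit 282) (.e (nat_lit 163869) (nat_lit 2) (.e (nat_lit 196670) (nat_lit 14) (.e (nat_lit 73746) (nat_lit 3) (.e (nat_lit 516124) (nat_lit 2) (.e (nat_lit 220928) (nat_lit 12) (.e (nat_lit 163962) (nat_lit 25) .nil)))))))) (.g (nat_lit 1) (.e (nat_lit 395616) (nat_lit 0) .nil) .nil))) 
(.lf (nat_lit 589476) (.g (nat_lit 1145) (.e (nat_lit 532503) (nat_lit 1) (.e (nat_lit 57847) (nat_lit 252) (.e (nat_lit 57407) (nat_lit 12) (.e (nat_lit 336456) (nat_lit 34) .nil)))) (.g (nat_lit 0) (.e (nat_lit 396484) (nat_lit 0) .nil) .nil)))) (.nd (nat_lit 9) 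
(.lf (nat_lit 589220) (.g (nat_lit 2197) (.e (nat_lit 532501) (nat_lit 1) (.e (nat_lit 57926) (nat_lit 282) (.e (nat_lit 163868) (nat_lit 2) (.e (nat_lit 196668) (nat_lit 14) (.e (nat_lit 73747) (nat_lit 3) .nil))))) (.g (nat_lit 0) (.e (nat_lit 396039) (nat_lit 0) .nil) .nil))) 
(.lf (nat_lit 589732) (.g (nat_lit 2794) (.e (nat_lit 532503) (nat_lit 1) (.e (nat_lit 57931) (nat_lit 282) (.e (nat_lit 163869) (nat_lit 2) (.e (nat_lit 196670) (nat_lit 14) (.e (nat_lit 73746) (nat_lit 3) (.e (nat_lit 516126) (nat_lit 2) (.e (nat_lit 213033) (nat_lit 12) (.e (nat_lit 163963) (nat_lit 25) .nil)))))))) (.g (nat_lit 1) (.e (nat_lit 396823) (nat_lit 0) .nil) .nil)))))) 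
(.nd (nat_lit 7) (.nd (nat_lit 8) (.nd (nat_lit 9) 
(.lf (nat_lit 588900) (.g (nat_lit 3341) (.e (nat_lit 532499) (nat_lit 1) (.e (nat_lit 57927) (nat_lit 282) (.e (nat_lit 163868) (nat_lit 2) (.e (nat_lit 196670) (nat_lit 14) (.e (nat_lit 73746) (nat_lit 3) (.e (nat_lit 516126) (nat_lit 2) (.e (nat_lit 213035) (nat_lit 12) (.e (nat_lit 163963) (nat_lit 25) .nil)))))))) (.g (nat_lit 1) (.e (nat_lit 395502) (nat_lit 0) .nil) .nil))) 
(.lf (nat_lit 589412) (.g (nat_lit 1789) (.e (nat_lit 532503) (nat_lit 1) (.e (nat_lit 57687) (nat_lit 156) (.e (nat_lit 163905) (nat_lit 12) (.e (nat_lit 426479) (nat_lit 27) (.e (nat_lit 336432) (nat_lit 30) .nil))))) (.g (nat_lit 0) (.e (nat_lit 396380) (nat_lit 0) .nil) .nil)))) (.nd (nat_lit 9) 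
(.lf (nat_lit 589156) (.g (nat_lit 4740) (.e (nat_lit 532501) (nat_lit 1) (.e (nat_lit 57851) (nat_lit 252) (.e (nat_lit 57354) (nat_lit 0) (.e (nat_lit 1855) (nat_lit 124) (.e (nat_lit 557105) (nat_lit 14) (.e (nat_lit 180252) (nat_lit 10) (.e (nat_lit 573482) (nat_lit 13) (.e (nat_lit 65637) (nat_lit 15) (.e (nat_lit 3253) (nat_lit 197) .nil))))))))) (.g (nat_lit 1) (.e (nat_lit 395953) (nat_lit 0) .nil) .nil))) 
(.lf (nat_lit 589668) (.g (nat_lit 2471) (.e (nat_lit 532503) (nat_lit 1) (.e (nat_lit 57931) (nat_lit 282) (.e (nat_lit 163867) (nat_lit 2) (.e (nat_lit 196670) (nat_lit 14) (.e (nat_lit 73746) (nat_lit 3) (.e (nat_lit 516131) (nat_lit 3) (.e (nat_lit 221198) (nat_lit 20) (.e (nat_lit 3237) (nat_lit 197) .nil)))))))) (.g (nat_lit 1) (.e (nat_lit 396722) (nat_lit 0) .nil) .nil))))) 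
(.nd (nat_lit 8) (.nd (nat_lit 9) 
(.lf (nat_lit 589028) (.g (nat_lit 4168) (.e (nat_lit 532499) (nat_lit 1) (.e (nat_lit 57927) (nat_lit 282) (.e (nat_lit 163873) (nat_lit 3) (.e (nat_lit 204853) (nat_lit 26) (.e (nat_lit 336019) (nat_lit 3) (.e (nat_lit 98342) (nat_lit 20) (.e (nat_lit 221204) (nat_lit 20) (.e (nat_lit 3253) (nat_lit 197) .nil)))))))) (.g (nat_lit 1) (.e (nat_lit 395753) (nat_lit 0) .nil) .nil))) 
(.lf (nat_lit 589540) (.g (nat_lit 3287) (.e (nat_lit 532503) (nat_lit 1) (.e (nat_lit 57853) (nat_lit 252) (.e (nat_lit 57406) (nat_lit 12) (.e (nat_lit 336454) (nat_lit 34) (.e (nat_lit 483407) (nat_lit 26) .nil))))) (.g (nat_lit 0) (.e (nat_lit 396555) (nat_lit 0) .nil) .nil)))) (.nd (nat_lit 9) 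
(.lf (nat_lit 589284) (.g (nat_lit 3923) (.e (nat_lit 532501) (nat_lit 1) (.e (nat_lit 57927) (nat_lit 282) (.e (nat_lit 163873) (nat_lit 3) (.e (nat_lit 204853) (nat_lit 26) (.e (nat_lit 336019) (nat_lit 3) (.e (nat_lit 98342) (nat_lit 20) (.e (nat_lit 221204) (nat_lit 20) (.e (nat_lit 3253) (nat_lit 197) .nil)))))))) (.g (nat_lit 1) (.e (nat_lit 396175) (nat_lit 0) .nil) .nil))) 
(.lf (nat_lit 589796) (.g (nat_lit 3532) (.e (nat_lit 532503) (nat_lit 1) (.e (nat_lit 57931) (nat_lit 282) (.e (nat_lit 163869) (nat_lit 2) (.e (nat_lit 196670) (nat_lit 14) (.e (nat_lit 73746) (nat_lit 3) (.e (nat_lit 516131) (nat_lit 3) (.e (nat_lit 221198) (nat_lit 20) (.e (nat_lit 3244) (nat_lit 197) .nil)))))))) (.g (nat_lit 1) (.e (nat_lit 396887) (nat_lit 0) .nil) .nil)))))))) 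
(.nd (nat_lit 5) (.nd (nat_lit 6) (.nd (nat_lit 7) (.nd (nat_lit 8) (.nd (nat_lit 9) 
(.lf (nat_lit 588820) (.g (nat_lit 3378) (.e (nat_lit 532499) (nat_lit 1) (.e (nat_lit 57926) (nat_lit 282) (.e (nat_lit 163869) (nat_lit 2) (.e (nat_lit 196670) (nat_lit 14) (.e (nat_lit 73746) (nat_lit 3) (.e (nat_lit 516124) (nat_lit 2) (.e (nat_lit 213035) (nat_lit 12) (.e (nat_lit 163964) (nat_lit 25) .nil)))))))) (.g (nat_lit 1) (.e (nat_lit 395364) (nat_lit 0) .nil) .nil))) 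
(.lf (nat_lit 589332) (.g (nat_lit 2995) (.e (nat_lit 532502) (nat_lit 1) (.e (nat_lit 57688) (nat_lit 156) (.e (nat_lit 163902) (nat_lit 12) (.e (nat_lit 426566) (nat_lit 34) (.e (nat_lit 393284) (nat_lit 24) .nil))))) (.g (nat_lit 0) (.e (nat_lit 396255) (nat_lit 0) .nil) .nil)))) (.nd (nat_lit 9) 
(.lf (nat_lit 589076) (.g (nat_lit 2624) (.e (nat_lit 532499) (nat_lit 1) (.e (nat_lit 57931) (nat_lit 282) (.e (nat_lit 163869) (nat_lit 2) (.e (nat_lit 196670) (nat_lit 14) (.e (nat_lit 73746) (nat_lit 3) .nil))))) (.g (nat_lit 0) (.e (nat_lit 395822) (nat_lit 0) .nil) .nil))) 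
(.lf (nat_lit 589588) (.g (nat_lit 4007) (.e (nat_lit 532503) (nat_lit 1) (.e (nat_lit 57931) (nat_lit 282) (.e (nat_lit 163867) (nat_lit 2) (.e (nat_lit 196663) (nat_lit 13) (.e (nat_lit 65571) (nat_lit 3) (.e (nat_lit 98342) (nat_lit 20) (.e (nat_lit 221204) (nat_lit 20) (.e (nat_lit 3253) (nat_lit 197) .nil)))))))) (.g (nat_lit 1) (.e (nat_lit 396613) (nat_lit 0) .nil) .nil))))) 
(.nd (nat_lit 8) (.nd (nat_lit 9) 
(.lf (nat_lit 588948) (.g (nat_lit 2966) (.e (nat_lit 532499) (nat_lit 1) (.e (nat_lit 57927) (nat_lit 282) (.e (nat_lit 163869) (nat_lit 2) (.e (nat_lit 196668) (nat_lit 14) (.e (nat_lit 73747) (nat_lit 3) (.e (nat_lit 516131) (nat_lit 3) (.e (nat_lit 221198) (nat_lit 20) (.e (nat_lit 3237) (nat_lit 197) .nil)))))))) (.g (nat_lit 1) (.e (nat_lit 395600) (nat_lit 0) .nil) .nil))) 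
(.lf (nat_lit 589460) (.g (nat_lit 2442) (.e (nat_lit 532503) (nat_lit 1) (.e (nat_lit 57846) (nat_lit 252) (.e (nat_lit 57407) (nat_lit 12) (.e (nat_lit 336454) (nat_lit 34) (.e (nat_lit 483385) (nat_lit 23) (.e (nat_lit 336284) (nat_lit 15) (.e (nat_lit 3249) (nat_lit 197) .nil))))))) (.g (nat_lit 1) (.e (nat_lit 396467) (nat_lit 0) .nil) .nil)))) (.nd (nat_lit 9) 
(.lf (nat_lit 589204) (.g (nat_lit 3004) (.e (nat_lit 532501) (nat_lit 1) (.e (nat_lit 57854) (nat_lit 252) (.e (nat_lit 57406) (nat_lit 12) (.e (nat_lit 336454) (nat_lit 34) (.e (nat_lit 483385) (nat_lit 23) (.e (nat_lit 336260) (nat_lit 15) (.e (nat_lit 3251) (nat_lit 197) .nil))))))) (.g (nat_lit 1) (.e (nat_lit 396005) (nat_lit 0) .nil) .nil))) 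
(.lf (nat_lit 589716) (.g (nat_lit 3043) (.e (nat_lit 532503) (nat_lit 1) (.e (nat_lit 57931) (nat_lit 282) (.e (nat_lit 163869) (nat_lit 2) (.e (nat_lit 196668) (nat_lit 14) (.e (nat_lit 73747) (nat_lit 3) (.e (nat_lit 516131) (nat_lit 3) (.e (nat_lit 221198) (nat_lit 20) (.e (nat_lit 3237) (nat_lit 197) .nil)))))))) (.g (nat_lit 1) (.e (nat_lit 396807) (nat_lit 0) .nil) .nil)))))) 
(.nd (nat_lit 7) (.nd (nat_lit 8) (.nd (nat_lit 9) 
(.lf (nat_lit 588884) (.g (nat_lit 3279) (.e (nat_lit 532499) (nat_lit 1) (.e (nat_lit 57927) (nat_lit 282) (.e (nat_lit 163868) (nat_lit 2) (.e (nat_lit 196668) (nat_lit 14) (.e (nat_lit 73747) (nat_lit 3) (.e (nat_lit 516131) (nat_lit 3) (.e (nat_lit 221198) (nat_lit 20) (.e (nat_lit 3250) (nat_lit 197) .nil)))))))) (.g (nat_lit 1) (.e (nat_lit 395486) (nat_lit 0) .nil) .nil))) 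
(.lf (nat_lit 589396) (.g (nat_lit 2199) (.e (nat_lit 532502) (nat_lit 1) (.e (nat_lit 57854) (nat_lit 252) (.e (nat_lit 57406) (nat_lit 12) (.e (nat_lit 336456) (nat_lit 34) (.e (nat_lit 483404) (nat_lit 26) .nil))))) (.g (nat_lit 0) (.e (nat_lit 396359) (nat_lit 0) .nil) .nil)))) (.nd (nat_lit 9) 
(.lf (nat_lit 589140) (.g (nat_lit 1004) (.e (nat_lit 532501) (nat_lit 1) (.e (nat_lit 57690) (nat_lit 156) (.e (nat_lit 163907) (nat_lit 12) (.e (nat_lit 426566) (nat_lit 34) .nil)))) (.g (nat_lit 0) (.e (nat_lit 395913) (nat_lit 0) .nil) .nil))) 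
(.lf (nat_lit 589652) (.g (nat_lit 3254) (.e (nat_lit 532503) (nat_lit 1) (.e (nat_lit 57931) (nat_lit 282) (.e (nat_lit 163867) (nat_lit 2) (.e (nat_lit 196670) (nat_lit 14) (.e (nat_lit 73746) (nat_lit 3) (.e (nat_lit 516129) (nat_lit 3) (.e (nat_lit 221198) (nat_lit 20) (.e (nat_lit 3248) (nat_lit 197) .nil)))))))) (.g (nat_lit 1) (.e (nat_lit 396706) (nat_lit 0) .nil) .nil))))) 
(.nd (nat_lit 8) (.nd (nat_lit 9) 
(.lf (nat_lit 589012) (.g (nat_lit 2371) (.e (nat_lit 532499) (nat_lit 1) (.e (nat_lit 57927) (nat_lit 282) (.e (nat_lit 163871) (nat_lit 2) (.e (nat_lit 196670) (nat_lit 14) (.e (nat_lit 73746) (nat_lit 3) (.e (nat_lit 516126) (nat_lit 2) (.e (nat_lit 213033) (nat_lit 12) (.e (nat_lit 163964) (nat_lit 25) .nil)))))))) (.g (nat_lit 1) (.e (nat_lit 395737) (nat_lit 0) .nil) .nil))) 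
(.lf (nat_lit 589524) (.g (nat_lit 2817) (.e (nat_lit 532503) (nat_lit 1) (.e (nat_lit 57849) (nat_lit 252) (.e (nat_lit 57377) (nat_lit 3) (.e (nat_lit 98342) (nat_lit 20) (.e (nat_lit 221214) (nat_lit 23) .nil))))) (.g (nat_lit 0) (.e (nat_lit 396538) (nat_lit 0) .nil) .nil)))) (.nd (nat_lit 9) 
(.lf (nat_lit 589268) (.g (nat_lit 3170) (.e (nat_lit 532501) (nat_lit 1) (.e (nat_lit 57927) (nat_lit 282) (.e (nat_lit 163869) (nat_lit 2) (.e (nat_lit 196670) (nat_lit 14) (.e (nat_lit 73746) (nat_lit 3) (.e (nat_lit 516124) (nat_lit 2) (.e (nat_lit 213033) (nat_lit 12) (.e (nat_lit 163964) (nat_lit 25) .nil)))))))) (.g (nat_lit 1) (.e (nat_lit 396138) (nat_lit 0) .nil) .nil))) 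
(.lf (nat_lit 589780) (.g (nat_lit 4335) (.e (nat_lit 532503) (nat_lit 1) (.e (nat_lit 57931) (nat_lit 282) (.e (nat_lit 163869) (nat_lit 2) (.e (nat_lit 196670) (nat_lit 14) (.e (nat_lit 73746) (nat_lit 3) (.e (nat_lit 516129) (nat_lit 3) (.e (nat_lit 221202) (nat_lit 20) (.e (nat_lit 3245) (nat_lit 197) .nil)))))))) (.g (nat_lit 1) (.e (nat_lit 396871) (nat_lit 0) .nil) .nil))))))) 
(.nd (nat_lit 6) (.nd (nat_lit 7) (.nd (nat_lit 8) (.nd (nat_lit 9) 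
(.lf (nat_lit 588852) (.g (nat_lit 2334) (.e (nat_lit 532499) (nat_lit 1) (.e (nat_lit 57927) (nat_lit 282) (.e (nat_lit 163866) (nat_lit 2) (.e (nat_lit 196670) (nat_lit 14) (.e (nat_lit 73746) (nat_lit 3) (.e (nat_lit 516126) (nat_lit 2) (.e (nat_lit 213035) (nat_lit 12) (.e (nat_lit 163964) (nat_lit 25) .nil)))))))) (.g (nat_lit 1) (.e (nat_lit 395410) (nat_lit 0) .nil) .nil))) 
(.lf (nat_lit 589364) (.g (nat_lit 1913) (.e (nat_lit 532502) (nat_lit 1) (.e (nat_lit 57692) (nat_lit 156) (.e (nat_lit 163905) (nat_lit 12) (.e (nat_lit 426566) (nat_lit 34) (.e (nat_lit 393288) (nat_lit 25) (.e (nat_lit 458788) (nat_lit 23) .nil)))))) (.g (nat_lit 1) (.e (nat_lit 396303) (nat_lit 0) .nil) .nil)))) (.nd (nat_lit 9) 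
(.lf (nat_lit 589108) (.g (nat_lit 2054) (.e (nat_lit 532500) (nat_lit 1) (.e (nat_lit 57851) (nat_lit 252) (.e (nat_lit 57408) (nat_lit 12) (.e (nat_lit 336454) (nat_lit 34) (.e (nat_lit 483380) (nat_lit 23) (.e (nat_lit 336258) (nat_lit 15) (.e (nat_lit 3241) (nat_lit 197) .nil))))))) (.g (nat_lit 1) (.e (nat_lit 395860) (nat_lit 0) .nil) .nil))) 
(.lf (nat_lit 589620) (.g (nat_lit 2778) (.e (nat_lit 532503) (nat_lit 1) (.e (nat_lit 57931) (nat_lit 282) (.e (nat_lit 163867) (nat_lit 2) (.e (nat_lit 196668) (nat_lit 14) (.e (nat_lit 73747) (nat_lit 3) (.e (nat_lit 516129) (nat_lit 3) (.e (nat_lit 221200) (nat_lit 20) (.e (nat_lit 3254) (nat_lit 197) .nil)))))))) (.g (nat_lit 1) (.e (nat_lit 396652) (nat_lit 0) .nil) .nil))))) 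
(.nd (nat_lit 8) (.nd (nat_lit 9) 
(.lf (nat_lit 588980) (.g (nat_lit 3028) (.e (nat_lit 532499) (nat_lit 1) (.e (nat_lit 57927) (nat_lit 282) (.e (nat_lit 163869) (nat_lit 2) (.e (nat_lit 196670) (nat_lit 14) (.e (nat_lit 73746) (nat_lit 3) (.e (nat_lit 516129) (nat_lit 3) (.e (nat_lit 221197) (nat_lit 20) (.e (nat_lit 3237) (nat_lit 197) .nil)))))))) (.g (nat_lit 1) (.e (nat_lit 395632) (nat_lit 0) .nil) .nil))) 
(.lf (nat_lit 589492) (.g (nat_lit 1718) (.e (nat_lit 532503) (nat_lit 1) (.e (nat_lit 57847) (nat_lit 252) (.e (nat_lit 57411) (nat_lit 12) (.e (nat_lit 336375) (nat_lit 27) (.e (nat_lit 426524) (nat_lit 27) .nil))))) (.g (nat_lit 0) (.e (nat_lit 396502) (nat_lit 0) .nil) .nil)))) (.nd (nat_lit 9) 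
(.lf (nat_lit 589236) (.g (nat_lit 2849) (.e (nat_lit 532501) (nat_lit 1) (.e (nat_lit 57926) (nat_lit 282) (.e (nat_lit 163869) (nat_lit 2) (.e (nat_lit 196670) (nat_lit 14) (.e (nat_lit 73746) (nat_lit 3) (.e (nat_lit 516127) (nat_lit 2) (.e (nat_lit 213033) (nat_lit 12) (.e (nat_lit 163964) (nat_lit 25) .nil)))))))) (.g (nat_lit 1) (.e (nat_lit 396061) (nat_lit 0) .nil) .nil))) 
(.lf (nat_lit 589748) (.g (nat_lit 4376) (.e (nat_lit 532503) (nat_lit 1) (.e (nat_lit 57931) (nat_lit 282) (.e (nat_lit 163869) (nat_lit 2) (.e (nat_lit 196670) (nat_lit 14) (.e (nat_lit 73746) (nat_lit 3) (.e (nat_lit 516127) (nat_lit 2) (.e (nat_lit 213038) (nat_lit 13) (.e (nat_lit 229434) (nat_lit 25) .nil)))))))) (.g (nat_lit 1) (.e (nat_lit 396839) (nat_lit 0) .nil) .nil)))))) 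
(.nd (nat_lit 7) (.nd (nat_lit 8) (.nd (nat_lit 9) 
(.lf (nat_lit 588916) (.g (nat_lit 3157) (.e (nat_lit 532499) (nat_lit 1) (.e (nat_lit 57927) (nat_lit 282) (.e (nat_lit 163868) (nat_lit 2) (.e (nat_lit 196670) (nat_lit 14) (.e (nat_lit 73746) (nat_lit 3) (.e (nat_lit 516129) (nat_lit 3) (.e (nat_lit 221199) (nat_lit 20) (.e (nat_lit 3252) (nat_lit 197) .nil)))))))) (.g (nat_lit 1) (.e (nat_lit 395518) (nat_lit 0) .nil) .nil))) 
(.lf (nat_lit 589428) (.g (nat_lit 2431) (.e (nat_lit 532503) (nat_lit 1) (.e (nat_lit 57688) (nat_lit 156) (.e (nat_lit 163903) (nat_lit 12) (.e (nat_lit 426568) (nat_lit 34) (.e (nat_lit 393282) (nat_lit 24) (.e (nat_lit 434233) (nat_lit 23) .nil)))))) (.g (nat_lit 1) (.e (nat_lit 396406) (nat_lit 0) .nil) .nil)))) (.nd (nat_lit 9) 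
(.lf (nat_lit 589172) (.g (nat_lit 3458) (.e (nat_lit 532501) (nat_lit 1) (.e (nat_lit 57851) (nat_lit 252) (.e (nat_lit 57406) (nat_lit 12) (.e (nat_lit 336456) (nat_lit 34) (.e (nat_lit 483383) (nat_lit 23) (.e (nat_lit 336260) (nat_lit 15) (.e (nat_lit 3255) (nat_lit 197) .nil))))))) (.g (nat_lit 1) (.e (nat_lit 395969) (nat_lit 0) .nil) .nil))) 
(.lf (nat_lit 589684) (.g (nat_lit 3208) (.e (nat_lit 532503) (nat_lit 1) (.e (nat_lit 57931) (nat_lit 282) (.e (nat_lit 163869) (nat_lit 2) (.e (nat_lit 196668) (nat_lit 14) (.e (nat_lit 73746) (nat_lit 3) (.e (nat_lit 516129) (nat_lit 3) (.e (nat_lit 221196) (nat_lit 20) (.e (nat_lit 3247) (nat_lit 197) .nil)))))))) (.g (nat_lit 1) (.e (nat_lit 396772) (nat_lit 0) .nil) .nil))))) 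
(.nd (nat_lit 8) (.nd (nat_lit 9) 
(.lf (nat_lit 589044) (.g (nat_lit 3338) (.e (nat_lit 532499) (nat_lit 1) (.e (nat_lit 57927) (nat_lit 282) (.e (nat_lit 163874) (nat_lit 3) (.e (nat_lit 204862) (nat_lit 27) (.e (nat_lit 344117) (nat_lit 21) (.e (nat_lit 516122) (nat_lit 2) (.e (nat_lit 213035) (nat_lit 12) (.e (nat_lit 163965) (nat_lit 25) .nil)))))))) (.g (nat_lit 1) (.e (nat_lit 395774) (nat_lit 0) .nil) .nil))) 
(.lf (nat_lit 589556) (.g (nat_lit 2729) (.e (nat_lit 532503) (nat_lit 1) (.e (nat_lit 57924) (nat_lit 282) (.e (nat_lit 163868) (nat_lit 2) (.e (nat_lit 196668) (nat_lit 14) (.e (nat_lit 73746) (nat_lit 3) (.e (nat_lit 516129) (nat_lit 3) (.e (nat_lit 221204) (nat_lit 20) (.e (nat_lit 3253) (nat_lit 197) .nil)))))))) (.g (nat_lit 1) (.e (nat_lit 396573) (nat_lit 0) .nil) .nil)))) 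
(.nd (nat_lit 9) 
(.lf (nat_lit 589300) (.g (nat_lit 3116) (.e (nat_lit 532501) (nat_lit 1) (.e (nat_lit 57928) (nat_lit 282) (.e (nat_lit 163875) (nat_lit 3) (.e (nat_lit 204862) (nat_lit 27) (.e (nat_lit 344117) (nat_lit 21) (.e (nat_lit 516122) (nat_lit 2) (.e (nat_lit 213036) (nat_lit 13) (.e (nat_lit 229433) (nat_lit 25) .nil)))))))) (.g (nat_lit 1) (.e (nat_lit 396202) (nat_lit 0) .nil) .nil))) 
(.lf (nat_lit 589812) (.g (nat_lit 2447) (.e (nat_lit 532503) (nat_lit 1) (.e (nat_lit 57931) (nat_lit 282) (.e (nat_lit 163874) (nat_lit 3) (.e (nat_lit 204862) (nat_lit 27) (.e (nat_lit 344117) (nat_lit 21) .nil))))) (.g (nat_lit 0) (.e (nat_lit 396909) (nat_lit 0) .nil) .nil))))))))) (.nd (nat_lit 4) (.nd (nat_lit 5) (.nd (nat_lit 6) (.nd (nat_lit 7) (.nd (nat_lit 8) (.nd (nat_lit 9) 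
(.lf (nat_lit 588812) (.g (nat_lit 2617) (.e (nat_lit 532499) (nat_lit 1) (.e (nat_lit 57926) (nat_lit 282) (.e (nat_lit 163869) (nat_lit 2) (.e (nat_lit 196670) (nat_lit 14) (.e (nat_lit 73746) (nat_lit 3) (.e (nat_lit 516122) (nat_lit 2) (.e (nat_lit 213035) (nat_lit 12) (.e (nat_lit 163963) (nat_lit 25) .nil)))))))) (.g (nat_lit 1) (.e (nat_lit 395356) (nat_lit 0) .nil) .nil))) 
(.lf (nat_lit 589324) (.g (nat_lit 1943) (.e (nat_lit 532502) (nat_lit 1) (.e (nat_lit 57686) (nat_lit 156) (.e (nat_lit 163875) (nat_lit 3) (.e (nat_lit 204837) (nat_lit 20) (.e (nat_lit 114718) (nat_lit 23) .nil))))) (.g (nat_lit 0) (.e (nat_lit 396245) (nat_lit 0) .nil) .nil)))) (.nd (nat_lit 9) 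
(.lf (nat_lit 589068) (.g (nat_lit 4156) (.e (nat_lit 532499) (nat_lit 1) (.e (nat_lit 57927) (nat_lit 282) (.e (nat_lit 163886) (nat_lit 5) (.e (nat_lit 221212) (nat_lit 22) (.e (nat_lit 196656) (nat_lit 11) (.e (nat_lit 16425) (nat_lit 7) (.e (nat_lit 409616) (nat_lit 10) (.e (nat_lit 604) (nat_lit 45) .nil)))))))) (.g (nat_lit 1) (.e (nat_lit 395804) (nat_lit 0) .nil) .nil))) 
(.lf (nat_lit 589580) (.g (nat_lit 3023) (.e (nat_lit 532503) (nat_lit 1) (.e (nat_lit 57931) (nat_lit 282) (.e (nat_lit 163866) (nat_lit 2) (.e (nat_lit 196670) (nat_lit 14) (.e (nat_lit 73746) (nat_lit 3) (.e (nat_lit 516129) (nat_lit 3) (.e (nat_lit 221196) (nat_lit 20) (.e (nat_lit 3248) (nat_lit 197) .nil)))))))) (.g (nat_lit 1) (.e (nat_lit 396603) (nat_lit 0) .nil) .nil))))) 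
(.nd (nat_lit 8) (.nd (nat_lit 9) 
(.lf (nat_lit 588940) (.g (nat_lit 3060) (.e (nat_lit 532499) (nat_lit 1) (.e (nat_lit 57927) (nat_lit 282) (.e (nat_lit 163869) (nat_lit 2) (.e (nat_lit 196668) (nat_lit 14) (.e (nat_lit 73747) (nat_lit 3) (.e (nat_lit 516129) (nat_lit 3) (.e (nat_lit 221196) (nat_lit 20) (.e (nat_lit 3236) (nat_lit 197) .nil)))))))) (.g (nat_lit 1) (.e (nat_lit 395589) (nat_lit 0) .nil) .nil))) 
(.lf (nat_lit 589452) (.g (nat_lit 2518) (.e (nat_lit 532503) (nat_lit 1) (.e (nat_lit 57844) (nat_lit 252) (.e (nat_lit 57406) (nat_lit 12) (.e (nat_lit 336456) (nat_lit 34) (.e (nat_lit 483387) (nat_lit 23) .nil))))) (.g (nat_lit 0) (.e (nat_lit 396459) (nat_lit 0) .nil) .nil)))) (.nd (nat_lit 9) 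
(.lf (nat_lit 589196) (.g (nat_lit 2798) (.e (nat_lit 532501) (nat_lit 1) (.e (nat_lit 57852) (nat_lit 252) (.e (nat_lit 57409) (nat_lit 12) (.e (nat_lit 336454) (nat_lit 34) (.e (nat_lit 483385) (nat_lit 23) (.e (nat_lit 336260) (nat_lit 15) (.e (nat_lit 3255) (nat_lit 197) .nil))))))) (.g (nat_lit 1) (.e (nat_lit 395994) (nat_lit 0) .nil) .nil))) 
(.lf (nat_lit 589708) (.g (nat_lit 3921) (.e (nat_lit 532503) (nat_lit 1) (.e (nat_lit 57931) (nat_lit 282) (.e (nat_lit 163869) (nat_lit 2) (.e (nat_lit 196668) (nat_lit 14) (.e (nat_lit 73747) (nat_lit 3) (.e (nat_lit 516129) (nat_lit 3) (.e (nat_lit 221202) (nat_lit 20) (.e (nat_lit 3245) (nat_lit 197) .nil)))))))) (.g (nat_lit 1) (.e (nat_lit 396799) (nat_lit 0) .nil) .nil)))))) 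
(.nd (nat_lit 7) (.nd (nat_lit 8) (.nd (nat_lit 9) 
(.lf (nat_lit 588876) (.g (nat_lit 2475) (.e (nat_lit 532499) (nat_lit 1) (.e (nat_lit 57927) (nat_lit 282) (.e (nat_lit 163868) (nat_lit 2) (.e (nat_lit 196668) (nat_lit 14) (.e (nat_lit 73747) (nat_lit 3) (.e (nat_lit 516129) (nat_lit 3) (.e (nat_lit 221202) (nat_lit 20) (.e (nat_lit 3232) (nat_lit 197) .nil)))))))) (.g (nat_lit 1) (.e (nat_lit 395478) (nat_lit 0) .nil) .nil))) 
(.lf (nat_lit 589388) (.g (nat_lit 1487) (.e (nat_lit 532502) (nat_lit 1) (.e (nat_lit 57852) (nat_lit 252) (.e (nat_lit 57406) (nat_lit 12) (.e (nat_lit 336455) (nat_lit 34) .nil)))) (.g (nat_lit 0) (.e (nat_lit 396340) (nat_lit 0) .nil) .nil)))) (.nd (nat_lit 9) 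
(.lf (nat_lit 589132) (.g (nat_lit 3176) (.e (nat_lit 532500) (nat_lit 1) (.e (nat_lit 57927) (nat_lit 282) (.e (nat_lit 163869) (nat_lit 2) (.e (nat_lit 196670) (nat_lit 14) (.e (nat_lit 73746) (nat_lit 3) (.e (nat_lit 516129) (nat_lit 3) (.e (nat_lit 221196) (nat_lit 20) (.e (nat_lit 3241) (nat_lit 197) .nil)))))))) (.g (nat_lit 1) (.e (nat_lit 395897) (nat_lit 0) .nil) .nil))) 
(.lf (nat_lit 589644) (.g (nat_lit 3819) (.e (nat_lit 532503) (nat_lit 1) (.e (nat_lit 57931) (nat_lit 282) (.e (nat_lit 163867) (nat_lit 2) (.e (nat_lit 196670) (nat_lit 14) (.e (nat_lit 73746) (nat_lit 3) (.e (nat_lit 516129) (nat_lit 3) (.e (nat_lit 221196) (nat_lit 20) (.e (nat_lit 3247) (nat_lit 197) .nil)))))))) (.g (nat_lit 1) (.e (nat_lit 396698) (nat_lit 0) .nil) .nil))))) 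
(.nd (nat_lit 8) (.nd (nat_lit 9) 
(.lf (nat_lit 589004) (.g (nat_lit 3264) (.e (nat_lit 532499) (nat_lit 1) (.e (nat_lit 57927) (nat_lit 282) (.e (nat_lit 163871) (nat_lit 2) (.e (nat_lit 196670) (nat_lit 14) (.e (nat_lit 73746) (nat_lit 3) (.e (nat_lit 516124) (nat_lit 2) (.e (nat_lit 213033) (nat_lit 12) (.e (nat_lit 163962) (nat_lit 25) .nil)))))))) (.g (nat_lit 1) (.e (nat_lit 395729) (nat_lit 0) .nil) .nil))) 
(.lf (nat_lit 589516) (.g (nat_lit 2030) (.e (nat_lit 532503) (nat_lit 1) (.e (nat_lit 57848) (nat_lit 252) (.e (nat_lit 57407) (nat_lit 12) (.e (nat_lit 336456) (nat_lit 34) (.e (nat_lit 483407) (nat_lit 26) .nil))))) (.g (nat_lit 0) (.e (nat_lit 396529) (nat_lit 0) .nil) .nil)))) (.nd (nat_lit 9) 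
(.lf (nat_lit 589260) (.g (nat_lit 3234) (.e (nat_lit 532501) (nat_lit 1) (.e (nat_lit 57927) (nat_lit 282) (.e (nat_lit 163869) (nat_lit 2) (.e (nat_lit 196663) (nat_lit 13) (.e (nat_lit 65571) (nat_lit 3) (.e (nat_lit 98341) (nat_lit 20) (.e (nat_lit 221204) (nat_lit 20) (.e (nat_lit 3253) (nat_lit 197) .nil)))))))) (.g (nat_lit 1) (.e (nat_lit 396119) (nat_lit 0) .nil) .nil))) 
(.lf (nat_lit 589772) (.g (nat_lit 3204) (.e (nat_lit 532503) (nat_lit 1) (.e (nat_lit 57931) (nat_lit 282) (.e (nat_lit 163869) (nat_lit 2) (.e (nat_lit 196670) (nat_lit 14) (.e (nat_lit 73746) (nat_lit 3) (.e (nat_lit 516129) (nat_lit 3) (.e (nat_lit 221199) (nat_lit 20) (.e (nat_lit 3254) (nat_lit 197) .nil)))))))) (.g (nat_lit 1) (.e (nat_lit 396863) (nat_lit 0) .nil) .nil))))))) 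
(.nd (nat_lit 6) (.nd (nat_lit 7) (.nd (nat_lit 8) (.nd (nat_lit 9) 
(.lf (nat_lit 588844) (.g (nat_lit 1576) (.e (nat_lit 532499) (nat_lit 1) (.e (nat_lit 57927) (nat_lit 282) (.e (nat_lit 163866) (nat_lit 2) (.e (nat_lit 196670) (nat_lit 14) (.e (nat_lit 73746) (nat_lit 3) .nil))))) (.g (nat_lit 0) (.e (nat_lit 395401) (nat_lit 0) .nil) .nil))) 
(.lf (nat_lit 589356) (.g (nat_lit 1861) (.e (nat_lit 532502) (nat_lit 1) (.e (nat_lit 57691) (nat_lit 156) (.e (nat_lit 163875) (nat_lit 3) (.e (nat_lit 204836) (nat_lit 20) .nil)))) (.g (nat_lit 0) (.e (nat_lit 396292) (nat_lit 0) .nil) .nil)))) (.nd (nat_lit 9) 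
(.lf (nat_lit 589100) (.g (nat_lit 1101) (.e (nat_lit 532500) (nat_lit 1) (.e (nat_lit 57691) (nat_lit 156) (.e (nat_lit 163907) (nat_lit 12) (.e (nat_lit 426568) (nat_lit 34) .nil)))) (.g (nat_lit 0) (.e (nat_lit 395849) (nat_lit 0) .nil) .nil))) 
(.lf (nat_lit 589612) (.g (nat_lit 2839) (.e (nat_lit 532503) (nat_lit 1) (.e (nat_lit 57931) (nat_lit 282) (.e (nat_lit 163867) (nat_lit 2) (.e (nat_lit 196668) (nat_lit 14) (.e (nat_lit 73747) (nat_lit 3) (.e (nat_lit 516129) (nat_lit 3) (.e (nat_lit 221196) (nat_lit 20) (.e (nat_lit 3236) (nat_lit 197) .nil)))))))) (.g (nat_lit 1) (.e (nat_lit 396644) (nat_lit 0) .nil) .nil))))) 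
(.nd (nat_lit 8) (.nd (nat_lit 9) 
(.lf (nat_lit 588972) (.g (nat_lit 3376) (.e (nat_lit 532499) (nat_lit 1) (.e (nat_lit 57927) (nat_lit 282) (.e (nat_lit 163869) (nat_lit 2) (.e (nat_lit 196670) (nat_lit 14) (.e (nat_lit 73746) (nat_lit 3) (.e (nat_lit 516127) (nat_lit 2) (.e (nat_lit 213019) (nat_lit 9) (.e (nat_lit 2505) (nat_lit 157) (.e (nat_lit 3249) (nat_lit 197) .nil))))))))) (.g (nat_lit 1) (.e (nat_lit 395624) (nat_lit 0) .nil) .nil))) 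
(.lf (nat_lit 589484) (.g (nat_lit 2537) (.e (nat_lit 532503) (nat_lit 1) (.e (nat_lit 57847) (nat_lit 252) (.e (nat_lit 57409) (nat_lit 12) (.e (nat_lit 336454) (nat_lit 34) (.e (nat_lit 483385) (nat_lit 23) (.e (nat_lit 336260) (nat_lit 15) (.e (nat_lit 3230) (nat_lit 197) .nil))))))) (.g (nat_lit 1) (.e (nat_lit 396492) (nat_lit 0) .nil) .nil)))) (.nd (nat_lit 9) 
(.lf (nat_lit 589228) (.g (nat_lit 2588) (.e (nat_lit 532501) (nat_lit 1) (.e (nat_lit 57926) (nat_lit 282) (.e (nat_lit 163869) (nat_lit 2) (.e (nat_lit 196670) (nat_lit 14) (.e (nat_lit 73746) (nat_lit 3) (.e (nat_lit 516122) (nat_lit 2) (.e (nat_lit 213037) (nat_lit 13) (.e (nat_lit 229433) (nat_lit 25) .nil)))))))) (.g (nat_lit 1) (.e (nat_lit 396053) (nat_lit 0) .nil) .nil))) 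
(.lf (nat_lit 589740) (.g (nat_lit 3725) (.e (nat_lit 532503) (nat_lit 1) (.e (nat_lit 57931) (nat_lit 282) (.e (nat_lit 163869) (nat_lit 2) (.e (nat_lit 196670) (nat_lit 14) (.e (nat_lit 73746) (nat_lit 3) (.e (nat_lit 516127) (nat_lit 2) (.e (nat_lit 213019) (nat_lit 9) (.e (nat_lit 2505) (nat_lit 157) (.e (nat_lit 3249) (nat_lit 197) .nil))))))))) (.g (nat_lit 1) (.e (nat_lit 396831) (nat_lit 0) .nil) .nil)))))) 
(.nd (nat_lit 7) (.nd (nat_lit 8) (.nd (nat_lit 9) 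
(.lf (nat_lit 588908) (.g (nat_lit 3413) (.e (nat_lit 532499) (nat_lit 1) (.e (nat_lit 57927) (nat_lit 282) (.e (nat_lit 163868) (nat_lit 2) (.e (nat_lit 196670) (nat_lit 14) (.e (nat_lit 73746) (nat_lit 3) (.e (nat_lit 516127) (nat_lit 2) (.e (nat_lit 213034) (nat_lit 12) (.e (nat_lit 163963) (nat_lit 25) .nil)))))))) (.g (nat_lit 1) (.e (nat_lit 395510) (nat_lit 0) .nil) .nil))) 
(.lf (nat_lit 589420) (.g (nat_lit 1235) (.e (nat_lit 532503) (nat_lit 1) (.e (nat_lit 57688) (nat_lit 156) (.e (nat_lit 163875) (nat_lit 3) (.e (nat_lit 204838) (nat_lit 20) .nil)))) (.g (nat_lit 0) (.e (nat_lit 396394) (nat_lit 0) .nil) .nil)))) (.nd (nat_lit 9) 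
(.lf (nat_lit 589164) (.g (nat_lit 3966) (.e (nat_lit 532501) (nat_lit 1) (.e (nat_lit 57851) (nat_lit 252) (.e (nat_lit 57406) (nat_lit 12) (.e (nat_lit 336454) (nat_lit 34) (.e (nat_lit 483384) (nat_lit 23) (.e (nat_lit 336306) (nat_lit 15) (.e (nat_lit 3238) (nat_lit 197) .nil))))))) (.g (nat_lit 1) (.e (nat_lit 395961) (nat_lit 0) .nil) .nil))) 
(.lf (nat_lit 589676) (.g (nat_lit 2260) (.e (nat_lit 532503) (nat_lit 1) (.e (nat_lit 57931) (nat_lit 282) (.e (nat_lit 163869) (nat_lit 2) (.e (nat_lit 196666) (nat_lit 13) (.e (nat_lit 65569) (nat_lit 3) (.e (nat_lit 98342) (nat_lit 20) (.e (nat_lit 221198) (nat_lit 20) (.e (nat_lit 3237) (nat_lit 197) .nil)))))))) (.g (nat_lit 1) (.e (nat_lit 396740) (nat_lit 0) .nil) .nil))))) 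
(.nd (nat_lit 8) (.nd (nat_lit 9) 
(.lf (nat_lit 589036) (.g (nat_lit 2807) (.e (nat_lit 532499) (nat_lit 1) (.e (nat_lit 57927) (nat_lit 282) (.e (nat_lit 163874) (nat_lit 3) (.e (nat_lit 204854) (nat_lit 26) (.e (nat_lit 336019) (nat_lit 3) (.e (nat_lit 98342) (nat_lit 20) (.e (nat_lit 221198) (nat_lit 20) (.e (nat_lit 3237) (nat_lit 197) .nil)))))))) (.g (nat_lit 1) (.e (nat_lit 395766) (nat_lit 0) .nil) .nil))) 
(.lf (nat_lit 589548) (.g (nat_lit 3940) (.e (nat_lit 532503) (nat_lit 1) (.e (nat_lit 57924) (nat_lit 282) (.e (nat_lit 163867) (nat_lit 2) (.e (nat_lit 196670) (nat_lit 14) (.e (nat_lit 73746) (nat_lit 3) (.e (nat_lit 516129) (nat_lit 3) (.e (nat_lit 221196) (nat_lit 20) (.e (nat_lit 3248) (nat_lit 197) .nil)))))))) (.g (nat_lit 1) (.e (nat_lit 396565) (nat_lit 0) .nil) .nil)))) 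
(.nd (nat_lit 9) 
(.lf (nat_lit 589292) (.g (nat_lit 2804) (.e (nat_lit 532501) (nat_lit 1) (.e (nat_lit 57927) (nat_lit 282) (.e (nat_lit 163875) (nat_lit 3) (.e (nat_lit 204863) (nat_lit 27) (.e (nat_lit 344117) (nat_lit 21) (.e (nat_lit 516123) (nat_lit 2) (.e (nat_lit 213036) (nat_lit 13) (.e (nat_lit 229433) (nat_lit 25) .nil)))))))) (.g (nat_lit 1) (.e (nat_lit 396184) (nat_lit 0) .nil) .nil))) 
(.lf (nat_lit 589804) (.g (nat_lit 1127) (.e (nat_lit 532503) (nat_lit 1) (.e (nat_lit 57931) (nat_lit 282) (.e (nat_lit 163874) (nat_lit 3) (.e (nat_lit 204854) (nat_lit 26) .nil)))) (.g (nat_lit 0) (.e (nat_lit 396901) (nat_lit 0) .nil) .nil)))))))) (.nd (nat_lit 5) (.nd (nat_lit 6) (.nd (nat_lit 7) (.nd (nat_lit 8) (.nd (nat_lit 9) 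
(.lf (nat_lit 588828) (.g (nat_lit 3237) (.e (nat_lit 532499) (nat_lit 1) (.e (nat_lit 57926) (nat_lit 282) (.e (nat_lit 163869) (nat_lit 2) (.e (nat_lit 196670) (nat_lit 14) (.e (nat_lit 73746) (nat_lit 3) (.e (nat_lit 516126) (nat_lit 2) (.e (nat_lit 213037) (nat_lit 13) (.e (nat_lit 229433) (nat_lit 25) .nil)))))))) (.g (nat_lit 1) (.e (nat_lit 395372) (nat_lit 0) .nil) .nil))) 
(.lf (nat_lit 589340) (.g (nat_lit 2252) (.e (nat_lit 532502) (nat_lit 1) (.e (nat_lit 57688) (nat_lit 156) (.e (nat_lit 163903) (nat_lit 12) (.e (nat_lit 426566) (nat_lit 34) (.e (nat_lit 393288) (nat_lit 25) .nil))))) (.g (nat_lit 0) (.e (nat_lit 396263) (nat_lit 0) .nil) .nil)))) (.nd (nat_lit 9) 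
(.lf (nat_lit 589084) (.g (nat_lit 3569) (.e (nat_lit 532499) (nat_lit 1) (.e (nat_lit 57931) (nat_lit 282) (.e (nat_lit 163869) (nat_lit 2) (.e (nat_lit 196670) (nat_lit 14) (.e (nat_lit 73746) (nat_lit 3) (.e (nat_lit 516126) (nat_lit 2) (.e (nat_lit 213035) (nat_lit 12) (.e (nat_lit 163965) (nat_lit 25) .nil)))))))) (.g (nat_lit 1) (.e (nat_lit 395830) (nat_lit 0) .nil) .nil))) 
(.lf (nat_lit 589596) (.g (nat_lit 3168) (.e (nat_lit 532503) (nat_lit 1) (.e (nat_lit 57931) (nat_lit 282) (.e (nat_lit 163867) (nat_lit 2) (.e (nat_lit 196668) (nat_lit 14) (.e (nat_lit 73746) (nat_lit 3) (.e (nat_lit 516129) (nat_lit 3) (.e (nat_lit 221196) (nat_lit 20) (.e (nat_lit 3247) (nat_lit 197) .nil)))))))) (.g (nat_lit 1) (.e (nat_lit 396625) (nat_lit 0) .nil) .nil))))) 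
(.nd (nat_lit 8) (.nd (nat_lit 9) 
(.lf (nat_lit 588956) (.g (nat_lit 3454) (.e (nat_lit 532499) (nat_lit 1) (.e (nat_lit 57927) (nat_lit 282) (.e (nat_lit 163869) (nat_lit 2) (.e (nat_lit 196670) (nat_lit 14) (.e (nat_lit 73746) (nat_lit 3) (.e (nat_lit 516122) (nat_lit 2) (.e (nat_lit 213036) (nat_lit 13) (.e (nat_lit 229433) (nat_lit 25) .nil)))))))) (.g (nat_lit 1) (.e (nat_lit 395608) (nat_lit 0) .nil) .nil))) 
(.lf (nat_lit 589468) (.g (nat_lit 3468) (.e (nat_lit 532503) (nat_lit 1) (.e (nat_lit 57847) (nat_lit 252) (.e (nat_lit 57407) (nat_lit 12) (.e (nat_lit 336367) (nat_lit 27) (.e (nat_lit 426540) (nat_lit 29) (.e (nat_lit 352262) (nat_lit 0) (.e (nat_lit 3253) (nat_lit 197) .nil))))))) (.g (nat_lit 1) (.e (nat_lit 396476) (nat_lit 0) .nil) .nil)))) (.nd (nat_lit 9) 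
(.lf (nat_lit 589212) (.g (nat_lit 2894) (.e (nat_lit 532501) (nat_lit 1) (.e (nat_lit 57854) (nat_lit 252) (.e (nat_lit 57409) (nat_lit 12) (.e (nat_lit 336454) (nat_lit 34) (.e (nat_lit 483385) (nat_lit 23) (.e (nat_lit 336260) (nat_lit 15) (.e (nat_lit 3251) (nat_lit 197) .nil))))))) (.g (nat_lit 1) (.e (nat_lit 396013) (nat_lit 0) .nil) .nil))) 
(.lf (nat_lit 589724) (.g (nat_lit 3861) (.e (nat_lit 532503) (nat_lit 1) (.e (nat_lit 57931) (nat_lit 282) (.e (nat_lit 163869) (nat_lit 2) (.e (nat_lit 196670) (nat_lit 14) (.e (nat_lit 73746) (nat_lit 3) (.e (nat_lit 516124) (nat_lit 2) (.e (nat_lit 213034) (nat_lit 12) (.e (nat_lit 163963) (nat_lit 25) .nil)))))))) (.g (nat_lit 1) (.e (nat_lit 396815) (nat_lit 0) .nil) .nil)))))) 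
(.nd (nat_lit 7) (.nd (nat_lit 8) (.nd (nat_lit 9) 
(.lf (nat_lit 588892) (.g (nat_lit 3599) (.e (nat_lit 532499) (nat_lit 1) (.e (nat_lit 57927) (nat_lit 282) (.e (nat_lit 163868) (nat_lit 2) (.e (nat_lit 196670) (nat_lit 14) (.e (nat_lit 73746) (nat_lit 3) (.e (nat_lit 516124) (nat_lit 2) (.e (nat_lit 213033) (nat_lit 12) (.e (nat_lit 163962) (nat_lit 25) .nil)))))))) (.g (nat_lit 1) (.e (nat_lit 395494) (nat_lit 0) .nil) .nil))) 
(.lf (nat_lit 589404) (.g (nat_lit 2243) (.e (nat_lit 532503) (nat_lit 1) (.e (nat_lit 57687) (nat_lit 156) (.e (nat_lit 163902) (nat_lit 12) (.e (nat_lit 426568) (nat_lit 34) (.e (nat_lit 393283) (nat_lit 24) (.e (nat_lit 434232) (nat_lit 23) .nil)))))) (.g (nat_lit 1) (.e (nat_lit 396371) (nat_lit 0) .nil) .nil)))) (.nd (nat_lit 9) 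
(.lf (nat_lit 589148) (.g (nat_lit 3014) (.e (nat_lit 532501) (nat_lit 1) (.e (nat_lit 57692) (nat_lit 156) (.e (nat_lit 163905) (nat_lit 12) (.e (nat_lit 426479) (nat_lit 27) (.e (nat_lit 336432) (nat_lit 30) (.e (nat_lit 450580) (nat_lit 5) .nil)))))) (.g (nat_lit 1) (.e (nat_lit 395933) (nat_lit 0) .nil) .nil))) 
(.lf (nat_lit 589660) (.g (nat_lit 3244) (.e (nat_lit 532503) (nat_lit 1) (.e (nat_lit 57931) (nat_lit 282) (.e (nat_lit 163867) (nat_lit 2) (.e (nat_lit 196670) (nat_lit 14) (.e (nat_lit 73746) (nat_lit 3) (.e (nat_lit 516131) (nat_lit 3) (.e (nat_lit 221196) (nat_lit 20) (.e (nat_lit 3248) (nat_lit 197) .nil)))))))) (.g (nat_lit 1) (.e (nat_lit 396714) (nat_lit 0) .nil) .nil))))) 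
(.nd (nat_lit 8) (.nd (nat_lit 9) 
(.lf (nat_lit 589020) (.g (nat_lit 3100) (.e (nat_lit 532499) (nat_lit 1) (.e (nat_lit 57927) (nat_lit 282) (.e (nat_lit 163871) (nat_lit 2) (.e (nat_lit 196670) (nat_lit 14) (.e (nat_lit 73746) (nat_lit 3) (.e (nat_lit 516127) (nat_lit 2) (.e (nat_lit 213035) (nat_lit 12) (.e (nat_lit 163964) (nat_lit 25) .nil)))))))) (.g (nat_lit 1) (.e (nat_lit 395745) (nat_lit 0) .nil) .nil))) 
(.lf (nat_lit 589532) (.g (nat_lit 1295) (.e (nat_lit 532503) (nat_lit 1) (.e (nat_lit 57849) (nat_lit 252) (.e (nat_lit 57407) (nat_lit 12) (.e (nat_lit 336455) (nat_lit 34) .nil)))) (.g (nat_lit 0) (.e (nat_lit 396547) (nat_lit 0) .nil) .nil)))) (.nd (nat_lit 9) 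
(.lf (nat_lit 589276) (.g (nat_lit 3540) (.e (nat_lit 532501) (nat_lit 1) (.e (nat_lit 57927) (nat_lit 282) (.e (nat_lit 163869) (nat_lit 2) (.e (nat_lit 196670) (nat_lit 14) (.e (nat_lit 73746) (nat_lit 3) (.e (nat_lit 516126) (nat_lit 2) (.e (nat_lit 220928) (nat_lit 13) (.e (nat_lit 229433) (nat_lit 25) .nil)))))))) (.g (nat_lit 1) (.e (nat_lit 396146) (nat_lit 0) .nil) .nil))) 
(.lf (nat_lit 589788) (.g (nat_lit 2934) (.e (nat_lit 532503) (nat_lit 1) (.e (nat_lit 57931) (nat_lit 282) (.e (nat_lit 163869) (nat_lit 2) (.e (nat_lit 196670) (nat_lit 14) (.e (nat_lit 73746) (nat_lit 3) (.e (nat_lit 516131) (nat_lit 3) (.e (nat_lit 221197) (nat_lit 20) (.e (nat_lit 3250) (nat_lit 197) .nil)))))))) (.g (nat_lit 1) (.e (nat_lit 396879) (nat_lit 0) .nil) .nil))))))) 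
(.nd (nat_lit 6) (.nd (nat_lit 7) (.nd (nat_lit 8) (.nd (nat_lit 9) 
(.lf (nat_lit 588860) (.g (nat_lit 1519) (.e (nat_lit 532499) (nat_lit 1) (.e (nat_lit 57927) (nat_lit 282) (.e (nat_lit 163868) (nat_lit 2) (.e (nat_lit 196663) (nat_lit 13) (.e (nat_lit 65571) (nat_lit 3) .nil))))) (.g (nat_lit 0) (.e (nat_lit 395422) (nat_lit 0) .nil) .nil))) 
(.lf (nat_lit 589372) (.g (nat_lit 1155) (.e (nat_lit 532502) (nat_lit 1) (.e (nat_lit 57847) (nat_lit 252) (.e (nat_lit 57407) (nat_lit 12) (.e (nat_lit 336454) (nat_lit 34) .nil)))) (.g (nat_lit 0) (.e (nat_lit 396318) (nat_lit 0) .nil) .nil)))) (.nd (nat_lit 9) 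
(.lf (nat_lit 589116) (.g (nat_lit 2977) (.e (nat_lit 532500) (nat_lit 1) (.e (nat_lit 57854) (nat_lit 252) (.e (nat_lit 57406) (nat_lit 12) (.e (nat_lit 336454) (nat_lit 34) (.e (nat_lit 483385) (nat_lit 23) (.e (nat_lit 336260) (nat_lit 15) (.e (nat_lit 3230) (nat_lit 197) .nil))))))) (.g (nat_lit 1) (.e (nat_lit 395871) (nat_lit 0) .nil) .nil))) 
(.lf (nat_lit 589628) (.g (nat_lit 2611) (.e (nat_lit 532503) (nat_lit 1) (.e (nat_lit 57931) (nat_lit 282) (.e (nat_lit 163867) (nat_lit 2) (.e (nat_lit 196668) (nat_lit 14) (.e (nat_lit 73747) (nat_lit 3) (.e (nat_lit 516131) (nat_lit 3) (.e (nat_lit 221197) (nat_lit 20) (.e (nat_lit 3247) (nat_lit 197) .nil)))))))) (.g (nat_lit 1) (.e (nat_lit 396660) (nat_lit 0) .nil) .nil))))) 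
(.nd (nat_lit 8) (.nd (nat_lit 9) 
(.lf (nat_lit 588988) (.g (nat_lit 2213) (.e (nat_lit 532499) (nat_lit 1) (.e (nat_lit 57927) (nat_lit 282) (.e (nat_lit 163869) (nat_lit 2) (.e (nat_lit 196670) (nat_lit 14) (.e (nat_lit 73746) (nat_lit 3) (.e (nat_lit 516129) (nat_lit 3) (.e (nat_lit 221200) (nat_lit 20) (.e (nat_lit 3254) (nat_lit 197) .nil)))))))) (.g (nat_lit 1) (.e (nat_lit 395640) (nat_lit 0) .nil) .nil))) 
(.lf (nat_lit 589500) (.g (nat_lit 2277) (.e (nat_lit 532503) (nat_lit 1) (.e (nat_lit 57847) (nat_lit 252) (.e (nat_lit 57445) (nat_lit 19) (.e (nat_lit 393229) (nat_lit 9) (.e (nat_lit 336085) (nat_lit 9) .nil))))) (.g (nat_lit 0) (.e (nat_lit 396511) (nat_lit 0) .nil) .nil)))) (.nd (nat_lit 9) 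
(.lf (nat_lit 589244) (.g (nat_lit 3184) (.e (nat_lit 532501) (nat_lit 1) (.e (nat_lit 57926) (nat_lit 282) (.e (nat_lit 163871) (nat_lit 2) (.e (nat_lit 196670) (nat_lit 14) (.e (nat_lit 73746) (nat_lit 3) (.e (nat_lit 516126) (nat_lit 2) (.e (nat_lit 213036) (nat_lit 13) (.e (nat_lit 229433) (nat_lit 25) .nil)))))))) (.g (nat_lit 1) (.e (nat_lit 396077) (nat_lit 0) .nil) .nil))) 
(.lf (nat_lit 589756) (.g (nat_lit 3747) (.e (nat_lit 532503) (nat_lit 1) (.e (nat_lit 57931) (nat_lit 282) (.e (nat_lit 163869) (nat_lit 2) (.e (nat_lit 196670) (nat_lit 14) (.e (nat_lit 73746) (nat_lit 3) (.e (nat_lit 516129) (nat_lit 3) (.e (nat_lit 221196) (nat_lit 20) (.e (nat_lit 3246) (nat_lit 197) .nil)))))))) (.g (nat_lit 1) (.e (nat_lit 396847) (nat_lit 0) .nil) .nil)))))) 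
(.nd (nat_lit 7) (.nd (nat_lit 8) (.nd (nat_lit 9) 
(.lf (nat_lit 588924) (.g (nat_lit 1769) (.e (nat_lit 532499) (nat_lit 1) (.e (nat_lit 57927) (nat_lit 282) (.e (nat_lit 163869) (nat_lit 2) (.e (nat_lit 196666) (nat_lit 13) (.e (nat_lit 65569) (nat_lit 3) .nil))))) (.g (nat_lit 0) (.e (nat_lit 395526) (nat_lit 0) .nil) .nil))) 
(.lf (nat_lit 589436) (.g (nat_lit 1633) (.e (nat_lit 532503) (nat_lit 1) (.e (nat_lit 57688) (nat_lit 156) (.e (nat_lit 163907) (nat_lit 12) (.e (nat_lit 426568) (nat_lit 34) .nil)))) (.g (nat_lit 0) (.e (nat_lit 396416) (nat_lit 0) .nil) .nil)))) (.nd (nat_lit 9) 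
(.lf (nat_lit 589180) (.g (nat_lit 3741) (.e (nat_lit 532501) (nat_lit 1) (.e (nat_lit 57852) (nat_lit 252) (.e (nat_lit 57355) (nat_lit 0) (.e (nat_lit 1858) (nat_lit 124) (.e (nat_lit 557105) (nat_lit 14) (.e (nat_lit 180252) (nat_lit 10) (.e (nat_lit 573482) (nat_lit 13) (.e (nat_lit 65637) (nat_lit 15) (.e (nat_lit 3253) (nat_lit 197) .nil))))))))) (.g (nat_lit 1) (.e (nat_lit 395977) (nat_lit 0) .nil) .nil))) 
(.lf (nat_lit 589692) (.g (nat_lit 2976) (.e (nat_lit 532503) (nat_lit 1) (.e (nat_lit 57931) (nat_lit 282) (.e (nat_lit 163869) (nat_lit 2) (.e (nat_lit 196668) (nat_lit 14) (.e (nat_lit 73746) (nat_lit 3) (.e (nat_lit 516131) (nat_lit 3) (.e (nat_lit 221198) (nat_lit 20) (.e (nat_lit 3230) (nat_lit 197) .nil)))))))) (.g (nat_lit 1) (.e (nat_lit 396780) (nat_lit 0) .nil) .nil))))) 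
(.nd (nat_lit 8) (.nd (nat_lit 9) 
(.lf (nat_lit 589052) (.g (nat_lit 1659) (.e (nat_lit 532499) (nat_lit 1) (.e (nat_lit 57927) (nat_lit 282) (.e (nat_lit 163875) (nat_lit 3) (.e (nat_lit 204850) (nat_lit 26) .nil)))) (.g (nat_lit 0) (.e (nat_lit 395784) (nat_lit 0) .nil) .nil))) 
(.lf (nat_lit 589564) (.g (nat_lit 2634) (.e (nat_lit 532503) (nat_lit 1) (.e (nat_lit 57929) (nat_lit 282) (.e (nat_lit 163869) (nat_lit 2) (.e (nat_lit 196670) (nat_lit 14) (.e (nat_lit 73746) (nat_lit 3) (.e (nat_lit 516129) (nat_lit 3) (.e (nat_lit 221197) (nat_lit 20) (.e (nat_lit 3248) (nat_lit 197) .nil)))))))) (.g (nat_lit 1) (.e (nat_lit 396582) (nat_lit 0) .nil) .nil)))) 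
(.nd (nat_lit 9) 
(.lf (nat_lit 589308) (.g (nat_lit 2816) (.e (nat_lit 532501) (nat_lit 1) (.e (nat_lit 57929) (nat_lit 282) (.e (nat_lit 163869) (nat_lit 2) (.e (nat_lit 196670) (nat_lit 14) (.e (nat_lit 73746) (nat_lit 3) (.e (nat_lit 516126) (nat_lit 2) (.e (nat_lit 220928) (nat_lit 13) (.e (nat_lit 229433) (nat_lit 25) .nil)))))))) (.g (nat_lit 1) (.e (nat_lit 396213) (nat_lit 0) .nil) .nil))) 
(.lf (nat_lit 589820) (.g (nat_lit 1752) (.e (nat_lit 532503) (nat_lit 1) (.e (nat_lit 57931) (nat_lit 282) (.e (nat_lit 163874) (nat_lit 3) (.e (nat_lit 204872) (nat_lit 30) (.e (nat_lit 368676) (nat_lit 21) .nil))))) (.g (nat_lit 0) (.e (nat_lit 396917) (nat_lit 0) .nil) .nil))))))))))) 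
(.nd (nat_lit 2) (.nd (nat_lit 3) (.nd (nat_lit 4) (.nd (nat_lit 5) (.nd (nat_lit 6) 
(.nd (nat_lit 7) (.nd (nat_lit 8) (.nd (nat_lit 9) 
(.lf (nat_lit 588802) (.g (nat_lit 3300) (.e (nat_lit 532499) (nat_lit 1) (.e (nat_lit 57853) (nat_lit 252) (.e (nat_lit 57406) (nat_lit 12) (.e (nat_lit 336454) (nat_lit 34) (.e (nat_lit 483407) (nat_lit 26) .nil))))) (.g (nat_lit 0) (.e (nat_lit 395344) (nat_lit 0) .nil) .nil))) 
(.lf (nat_lit 589314) (.g (nat_lit 3313) (.e (nat_lit 532501) (nat_lit 1) (.e (nat_lit 57931) (nat_lit 282) (.e (nat_lit 163869) (nat_lit 2) (.e (nat_lit 196668) (nat_lit 14) (.e (nat_lit 73746) (nat_lit 3) .nil))))) (.g (nat_lit 0) (.e (nat_lit 396230) (nat_lit 0) .nil) .nil)))) (.nd (nat_lit 9) 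
(.lf (nat_lit 589058) (.g (nat_lit 2676) (.e (nat_lit 532499) (nat_lit 1) (.e (nat_lit 57927) (nat_lit 282) (.e (nat_lit 163875) (nat_lit 3) (.e (nat_lit 204862) (nat_lit 27) (.e (nat_lit 344117) (nat_lit 21) (.e (nat_lit 516123) (nat_lit 2) (.e (nat_lit 213033) (nat_lit 12) (.e (nat_lit 163964) (nat_lit 25) .nil)))))))) (.g (nat_lit 1) (.e (nat_lit 395792) (nat_lit 0) .nil) .nil))) 
(.lf (nat_lit 589570) (.g (nat_lit 2778) (.e (nat_lit 532503) (nat_lit 1) (.e (nat_lit 57930) (nat_lit 282) (.e (nat_lit 163869) (nat_lit 2) (.e (nat_lit 196670) (nat_lit 14) (.e (nat_lit 73746) (nat_lit 3) (.e (nat_lit 516129) (nat_lit 3) (.e (nat_lit 221196) (nat_lit 20) (.e (nat_lit 3248) (nat_lit 197) .nil)))))))) (.g (nat_lit 1) (.e (nat_lit 396589) (nat_lit 0) .nil) .nil))))) 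
(.nd (nat_lit 8) (.nd (nat_lit 9) 
(.lf (nat_lit 588930) (.g (nat_lit 2364) (.e (nat_lit 532499) (nat_lit 1) (.e (nat_lit 57927) (nat_lit 282) (.e (nat_lit 163869) (nat_lit 2) (.e (nat_lit 196666) (nat_lit 13) (.e (nat_lit 65571) (nat_lit 3) (.e (nat_lit 98341) (nat_lit 20) (.e (nat_lit 221196) (nat_lit 20) (.e (nat_lit 3250) (nat_lit 197) .nil)))))))) (.g (nat_lit 1) (.e (nat_lit 395548) (nat_lit 0) .nil) .nil))) 
(.lf (nat_lit 589442) (.g (nat_lit 2407) (.e (nat_lit 532503) (nat_lit 1) (.e (nat_lit 57691) (nat_lit 156) (.e (nat_lit 163875) (nat_lit 3) (.e (nat_lit 204838) (nat_lit 20) (.e (nat_lit 114718) (nat_lit 23) .nil))))) (.g (nat_lit 0) (.e (nat_lit 396441) (nat_lit 0) .nil) .nil)))) (.nd (nat_lit 9) 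
(.lf (nat_lit 589186) (.g (nat_lit 1910) (.e (nat_lit 532501) (nat_lit 1) (.e (nat_lit 57852) (nat_lit 252) (.e (nat_lit 57377) (nat_lit 3) (.e (nat_lit 98313) (nat_lit 9) (.e (nat_lit 336027) (nat_lit 3) .nil))))) (.g (nat_lit 0) (.e (nat_lit 395984) (nat_lit 0) .nil) .nil))) 
(.lf (nat_lit 589698) (.g (nat_lit 4511) (.e (nat_lit 532503) (nat_lit 1) (.e (nat_lit 57931) (nat_lit 282) (.e (nat_lit 163869) (nat_lit 2) (.e (nat_lit 196668) (nat_lit 14) (.e (nat_lit 73747) (nat_lit 3) (.e (nat_lit 516129) (nat_lit 3) (.e (nat_lit 221196) (nat_lit 20) (.e (nat_lit 3248) (nat_lit 197) .nil)))))))) (.g (nat_lit 1) (.e (nat_lit 396789) (nat_lit 0) .nil) .nil)))))) 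
(.nd (nat_lit 7) (.nd (nat_lit 8) (.nd (nat_lit 9) 
(.lf (nat_lit 588866) (.g (nat_lit 2759) (.e (nat_lit 532499) (nat_lit 1) (.e (nat_lit 57927) (nat_lit 282) (.e (nat_lit 163868) (nat_lit 2) (.e (nat_lit 196668) (nat_lit 14) (.e (nat_lit 73746) (nat_lit 3) (.e (nat_lit 516129) (nat_lit 3) (.e (nat_lit 221196) (nat_lit 20) (.e (nat_lit 3241) (nat_lit 197) .nil)))))))) (.g (nat_lit 1) (.e (nat_lit 395453) (nat_lit 0) .nil) .nil))) 
(.lf (nat_lit 589378) (.g (nat_lit 2116) (.e (nat_lit 532502) (nat_lit 1) (.e (nat_lit 57848) (nat_lit 252) (.e (nat_lit 57407) (nat_lit 12) (.e (nat_lit 336454) (nat_lit 34) (.e (nat_lit 483407) (nat_lit 26) .nil))))) (.g (nat_lit 0) (.e (nat_lit 396326) (nat_lit 0) .nil) .nil)))) (.nd (nat_lit 9) 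
(.lf (nat_lit 589122) (.g (nat_lit 2081) (.e (nat_lit 532500) (nat_lit 1) (.e (nat_lit 57927) (nat_lit 282) (.e (nat_lit 163868) (nat_lit 2) (.e (nat_lit 196668) (nat_lit 14) (.e (nat_lit 73747) (nat_lit 3) .nil))))) (.g (nat_lit 0) (.e (nat_lit 395885) (nat_lit 0) .nil) .nil))) 
(.lf (nat_lit 589634) (.g (nat_lit 2588) (.e (nat_lit 532503) (nat_lit 1) (.e (nat_lit 57931) (nat_lit 282) (.e (nat_lit 163867) (nat_lit 2) (.e (nat_lit 196670) (nat_lit 14) (.e (nat_lit 73746) (nat_lit 3) (.e (nat_lit 516129) (nat_lit 3) (.e (nat_lit 221195) (nat_lit 20) (.e (nat_lit 3248) (nat_lit 197) .nil)))))))) (.g (nat_lit 1) (.e (nat_lit 396688) (nat_lit 0) .nil) .nil))))) 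
(.nd (nat_lit 8) (.nd (nat_lit 9) 
(.lf (nat_lit 588994) (.g (nat_lit 2999) (.e (nat_lit 532499) (nat_lit 1) (.e (nat_lit 57927) (nat_lit 282) (.e (nat_lit 163869) (nat_lit 2) (.e (nat_lit 196670) (nat_lit 14) (.e (nat_lit 73746) (nat_lit 3) (.e (nat_lit 516131) (nat_lit 3) (.e (nat_lit 221197) (nat_lit 20) (.e (nat_lit 3237) (nat_lit 197) .nil)))))))) (.g (nat_lit 1) (.e (nat_lit 395646) (nat_lit 0) .nil) .nil))) 
(.lf (nat_lit 589506) (.g (nat_lit 2580) (.e (nat_lit 532503) (nat_lit 1) (.e (nat_lit 57848) (nat_lit 252) (.e (nat_lit 57407) (nat_lit 12) (.e (nat_lit 336367) (nat_lit 27) (.e (nat_lit 426540) (nat_lit 29) (.e (nat_lit 352261) (nat_lit 0) (.e (nat_lit 3249) (nat_lit 197) .nil))))))) (.g (nat_lit 1) (.e (nat_lit 396518) (nat_lit 0) .nil) .nil)))) (.nd (nat_lit 9) 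
(.lf (nat_lit 589250) (.g (nat_lit 2858) (.e (nat_lit 532501) (nat_lit 1) (.e (nat_lit 57927) (nat_lit 282) (.e (nat_lit 163867) (nat_lit 2) (.e (nat_lit 196670) (nat_lit 14) (.e (nat_lit 73746) (nat_lit 3) (.e (nat_lit 516129) (nat_lit 3) (.e (nat_lit 221204) (nat_lit 20) (.e (nat_lit 3253) (nat_lit 197) .nil)))))))) (.g (nat_lit 1) (.e (nat_lit 396092) (nat_lit 0) .nil) .nil))) 
(.lf (nat_lit 589762) (.g (nat_lit 2963) (.e (nat_lit 532503) (nat_lit 1) (.e (nat_lit 57931) (nat_lit 282) (.e (nat_lit 163869) (nat_lit 2) (.e (nat_lit 196670) (nat_lit 14) (.e (nat_lit 73746) (nat_lit 3) (.e (nat_lit 516129) (nat_lit 3) (.e (nat_lit 221197) (nat_lit 20) (.e (nat_lit 3250) (nat_lit 197) .nil)))))))) (.g (nat_lit 1) (.e (nat_lit 396853) (nat_lit 0) .nil) .nil))))))) 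
(.nd (nat_lit 6) (.nd (nat_lit 7) (.nd (nat_lit 8) (.nd (nat_lit 9) 
(.lf (nat_lit 588834) (.g (nat_lit 2759) (.e (nat_lit 532499) (nat_lit 1) (.e (nat_lit 57926) (nat_lit 282) (.e (nat_lit 163869) (nat_lit 2) (.e (nat_lit 196670) (nat_lit 14) (.e (nat_lit 73746) (nat_lit 3) (.e (nat_lit 516129) (nat_lit 3) (.e (nat_lit 221199) (nat_lit 20) (.e (nat_lit 3252) (nat_lit 197) .nil)))))))) (.g (nat_lit 1) (.e (nat_lit 395378) (nat_lit 0) .nil) .nil))) 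
(.lf (nat_lit 589346) (.g (nat_lit 2577) (.e (nat_lit 532502) (nat_lit 1) (.e (nat_lit 57688) (nat_lit 156) (.e (nat_lit 163905) (nat_lit 12) (.e (nat_lit 426566) (nat_lit 34) (.e (nat_lit 393286) (nat_lit 25) .nil))))) (.g (nat_lit 0) (.e (nat_lit 396269) (nat_lit 0) .nil) .nil)))) (.nd (nat_lit 9) 
(.lf (nat_lit 589090) (.g (nat_lit 3653) (.e (nat_lit 532499) (nat_lit 1) (.e (nat_lit 57931) (nat_lit 282) (.e (nat_lit 163869) (nat_lit 2) (.e (nat_lit 196670) (nat_lit 14) (.e (nat_lit 73746) (nat_lit 3) (.e (nat_lit 516127) (nat_lit 2) (.e (nat_lit 213035) (nat_lit 12) (.e (nat_lit 163965) (nat_lit 25) .nil)))))))) (.g (nat_lit 1) (.e (nat_lit 395836) (nat_lit 0) .nil) .nil))) 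
(.lf (nat_lit 589602) (.g (nat_lit 2708) (.e (nat_lit 532503) (nat_lit 1) (.e (nat_lit 57931) (nat_lit 282) (.e (nat_lit 163867) (nat_lit 2) (.e (nat_lit 196668) (nat_lit 14) (.e (nat_lit 73746) (nat_lit 3) (.e (nat_lit 516129) (nat_lit 3) (.e (nat_lit 221200) (nat_lit 20) (.e (nat_lit 3254) (nat_lit 197) .nil)))))))) (.g (nat_lit 1) (.e (nat_lit 396631) (nat_lit 0) .nil) .nil))))) 
(.nd (nat_lit 8) (.nd (nat_lit 9) 
(.lf (nat_lit 588962) (.g (nat_lit 3134) (.e (nat_lit 532499) (nat_lit 1) (.e (nat_lit 57927) (nat_lit 282) (.e (nat_lit 163869) (nat_lit 2) (.e (nat_lit 196670) (nat_lit 14) (.e (nat_lit 73746) (nat_lit 3) (.e (nat_lit 516124) (nat_lit 2) (.e (nat_lit 213033) (nat_lit 12) (.e (nat_lit 163965) (nat_lit 25) .nil)))))))) (.g (nat_lit 1) (.e (nat_lit 395614) (nat_lit 0) .nil) .nil))) 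
(.lf (nat_lit 589474) (.g (nat_lit 2493) (.e (nat_lit 532503) (nat_lit 1) (.e (nat_lit 57847) (nat_lit 252) (.e (nat_lit 57407) (nat_lit 12) (.e (nat_lit 336454) (nat_lit 34) (.e (nat_lit 483402) (nat_lit 26) .nil))))) (.g (nat_lit 0) (.e (nat_lit 396482) (nat_lit 0) .nil) .nil)))) (.nd (nat_lit 9) 
(.lf (nat_lit 589218) (.g (nat_lit 4457) (.e (nat_lit 532501) (nat_lit 1) (.e (nat_lit 57854) (nat_lit 252) (.e (nat_lit 57445) (nat_lit 19) (.e (nat_lit 393229) (nat_lit 9) (.e (nat_lit 336100) (nat_lit 9) .nil))))) (.g (nat_lit 0) (.e (nat_lit 396019) (nat_lit 0) .nil) .nil))) 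
(.lf (nat_lit 589730) (.g (nat_lit 2945) (.e (nat_lit 532503) (nat_lit 1) (.e (nat_lit 57931) (nat_lit 282) (.e (nat_lit 163869) (nat_lit 2) (.e (nat_lit 196670) (nat_lit 14) (.e (nat_lit 73746) (nat_lit 3) (.e (nat_lit 516124) (nat_lit 2) (.e (nat_lit 213038) (nat_lit 13) (.e (nat_lit 229434) (nat_lit 25) .nil)))))))) (.g (nat_lit 1) (.e (nat_lit 396821) (nat_lit 0) .nil) .nil)))))) 
(.nd (nat_lit 7) (.nd (nat_lit 8) (.nd (nat_lit 9) 
(.lf (nat_lit 588898) (.g (nat_lit 2320) (.e (nat_lit 532499) (nat_lit 1) (.e (nat_lit 57927) (nat_lit 282) (.e (nat_lit 163868) (nat_lit 2) (.e (nat_lit 196670) (nat_lit 14) (.e (nat_lit 73746) (nat_lit 3) (.e (nat_lit 516126) (nat_lit 2) (.e (nat_lit 213033) (nat_lit 12) (.e (nat_lit 163965) (nat_lit 25) .nil)))))))) (.g (nat_lit 1) (.e (nat_lit 395500) (nat_lit 0) .nil) .nil))) 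
(.lf (nat_lit 589410) (.g (nat_lit 2413) (.e (nat_lit 532503) (nat_lit 1) (.e (nat_lit 57687) (nat_lit 156) (.e (nat_lit 163903) (nat_lit 12) (.e (nat_lit 426568) (nat_lit 34) (.e (nat_lit 393283) (nat_lit 24) (.e (nat_lit 434234) (nat_lit 23) .nil)))))) (.g (nat_lit 1) (.e (nat_lit 396378) (nat_lit 0) .nil) .nil)))) (.nd (nat_lit 9) 
(.lf (nat_lit 589154) (.g (nat_lit 1476) (.e (nat_lit 532501) (nat_lit 1) (.e (nat_lit 57844) (nat_lit 252) (.e (nat_lit 57406) (nat_lit 12) (.e (nat_lit 336456) (nat_lit 34) .nil)))) (.g (nat_lit 0) (.e (nat_lit 395951) (nat_lit 0) .nil) .nil))) 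
(.lf (nat_lit 589666) (.g (nat_lit 2761) (.e (nat_lit 532503) (nat_lit 1) (.e (nat_lit 57931) (nat_lit 282) (.e (nat_lit 163867) (nat_lit 2) (.e (nat_lit 196670) (nat_lit 14) (.e (nat_lit 73746) (nat_lit 3) (.e (nat_lit 516131) (nat_lit 3) (.e (nat_lit 221197) (nat_lit 20) (.e (nat_lit 3247) (nat_lit 197) .nil)))))))) (.g (nat_lit 1) (.e (nat_lit 396720) (nat_lit 0) .nil) .nil))))) 
(.nd (nat_lit 8) (.nd (nat_lit 9) 
(.lf (nat_lit 589026) (.g (nat_lit 1874) (.e (nat_lit 532499) (nat_lit 1) (.e (nat_lit 57927) (nat_lit 282) (.e (nat_lit 163873) (nat_lit 3) (.e (nat_lit 204851) (nat_lit 26) .nil)))) (.g (nat_lit 0) (.e (nat_lit 395751) (nat_lit 0) .nil) .nil))) 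
(.lf (nat_lit 589538) (.g (nat_lit 2997) (.e (nat_lit 532503) (nat_lit 1) (.e (nat_lit 57849) (nat_lit 252) (.e (nat_lit 57411) (nat_lit 12) (.e (nat_lit 336454) (nat_lit 34) (.e (nat_lit 483385) (nat_lit 23) (.e (nat_lit 336306) (nat_lit 15) (.e (nat_lit 3238) (nat_lit 197) .nil))))))) (.g (nat_lit 1) (.e (nat_lit 396553) (nat_lit 0) .nil) .nil)))) (.nd (nat_lit 9) 
(.lf (nat_lit 589282) (.g (nat_lit 3313) (.e (nat_lit 532501) (nat_lit 1) (.e (nat_lit 57927) (nat_lit 282) (.e (nat_lit 163871) (nat_lit 2) (.e (nat_lit 196670) (nat_lit 14) (.e (nat_lit 73746) (nat_lit 3) (.e (nat_lit 516124) (nat_lit 2) (.e (nat_lit 213037) (nat_lit 13) (.e (nat_lit 229433) (nat_lit 25) .nil)))))))) (.g (nat_lit 1) (.e (nat_lit 396173) (nat_lit 0) .nil) .nil))) 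
(.lf (nat_lit 589794) (.g (nat_lit 4204) (.e (nat_lit 532503) (nat_lit 1) (.e (nat_lit 57931) (nat_lit 282) (.e (nat_lit 163869) (nat_lit 2) (.e (nat_lit 196670) (nat_lit 14) (.e (nat_lit 73746) (nat_lit 3) (.e (nat_lit 516131) (nat_lit 3) (.e (nat_lit 221198) (nat_lit 20) (.e (nat_lit 3248) (nat_lit 197) .nil)))))))) (.g (nat_lit 1) (.e (nat_lit 396885) (nat_lit 0) .nil) .nil)))))))) 
(.nd (nat_lit 5) (.nd (nat_lit 6) (.nd (nat_lit 7) (.nd (nat_lit 8) (.nd (nat_lit 9) 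
(.lf (nat_lit 588818) (.g (nat_lit 2670) (.e (nat_lit 532499) (nat_lit 1) (.e (nat_lit 57926) (nat_lit 282) (.e (nat_lit 163869) (nat_lit 2) (.e (nat_lit 196670) (nat_lit 14) (.e (nat_lit 73746) (nat_lit 3) (.e (nat_lit 516124) (nat_lit 2) (.e (nat_lit 213033) (nat_lit 12) (.e (nat_lit 163964) (nat_lit 25) .nil)))))))) (.g (nat_lit 1) (.e (nat_lit 395362) (nat_lit 0) .nil) .nil))) 
(.lf (nat_lit 589330) (.g (nat_lit 2458) (.e (nat_lit 532502) (nat_lit 1) (.e (nat_lit 57688) (nat_lit 156) (.e (nat_lit 163873) (nat_lit 3) (.e (nat_lit 204837) (nat_lit 20) (.e (nat_lit 114715) (nat_lit 22) .nil))))) (.g (nat_lit 0) (.e (nat_lit 396253) (nat_lit 0) .nil) .nil)))) (.nd (nat_lit 9) 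
(.lf (nat_lit 589074) (.g (nat_lit 3785) (.e (nat_lit 532499) (nat_lit 1) (.e (nat_lit 57931) (nat_lit 282) (.e (nat_lit 163869) (nat_lit 2) (.e (nat_lit 196668) (nat_lit 14) (.e (nat_lit 73746) (nat_lit 3) (.e (nat_lit 516129) (nat_lit 3) (.e (nat_lit 221204) (nat_lit 20) (.e (nat_lit 3253) (nat_lit 197) .nil)))))))) (.g (nat_lit 1) (.e (nat_lit 395820) (nat_lit 0) .nil) .nil))) 
(.lf (nat_lit 589586) (.g (nat_lit 2858) (.e (nat_lit 532503) (nat_lit 1) (.e (nat_lit 57931) (nat_lit 282) (.e (nat_lit 163867) (nat_lit 2) (.e (nat_lit 196663) (nat_lit 13) (.e (nat_lit 65571) (nat_lit 3) (.e (nat_lit 98341) (nat_lit 20) (.e (nat_lit 221197) (nat_lit 20) (.e (nat_lit 3230) (nat_lit 197) .nil)))))))) (.g (nat_lit 1) (.e (nat_lit 396611) (nat_lit 0) .nil) .nil))))) 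
(.nd (nat_lit 8) (.nd (nat_lit 9) 
(.lf (nat_lit 588946) (.g (nat_lit 2780) (.e (nat_lit 532499) (nat_lit 1) (.e (nat_lit 57927) (nat_lit 282) (.e (nat_lit 163869) (nat_lit 2) (.e (nat_lit 196668) (nat_lit 14) (.e (nat_lit 73747) (nat_lit 3) (.e (nat_lit 516131) (nat_lit 3) (.e (nat_lit 221197) (nat_lit 20) (.e (nat_lit 3236) (nat_lit 197) .nil)))))))) (.g (nat_lit 1) (.e (nat_lit 395598) (nat_lit 0) .nil) .nil))) 
(.lf (nat_lit 589458) (.g (nat_lit 1599) (.e (nat_lit 532503) (nat_lit 1) (.e (nat_lit 57846) (nat_lit 252) (.e (nat_lit 57406) (nat_lit 12) (.e (nat_lit 336456) (nat_lit 34) .nil)))) (.g (nat_lit 0) (.e (nat_lit 396465) (nat_lit 0) .nil) .nil)))) (.nd (nat_lit 9) 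
(.lf (nat_lit 589202) (.g (nat_lit 1183) (.e (nat_lit 532501) (nat_lit 1) (.e (nat_lit 57854) (nat_lit 252) (.e (nat_lit 57406) (nat_lit 12) (.e (nat_lit 336370) (nat_lit 27) .nil)))) (.g (nat_lit 0) (.e (nat_lit 396003) (nat_lit 0) .nil) .nil))) 
(.lf (nat_lit 589714) (.g (nat_lit 3165) (.e (nat_lit 532503) (nat_lit 1) (.e (nat_lit 57931) (nat_lit 282) (.e (nat_lit 163869) (nat_lit 2) (.e (nat_lit 196668) (nat_lit 14) (.e (nat_lit 73747) (nat_lit 3) (.e (nat_lit 516131) (nat_lit 3) (.e (nat_lit 221197) (nat_lit 20) (.e (nat_lit 3244) (nat_lit 197) .nil)))))))) (.g (nat_lit 1) (.e (nat_lit 396805) (nat_lit 0) .nil) .nil)))))) 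
(.nd (nat_lit 7) (.nd (nat_lit 8) (.nd (nat_lit 9) 
(.lf (nat_lit 588882) (.g (nat_lit 2883) (.e (nat_lit 532499) (nat_lit 1) (.e (nat_lit 57927) (nat_lit 282) (.e (nat_lit 163868) (nat_lit 2) (.e (nat_lit 196668) (nat_lit 14) (.e (nat_lit 73747) (nat_lit 3) (.e (nat_lit 516131) (nat_lit 3) (.e (nat_lit 221198) (nat_lit 20) (.e (nat_lit 3237) (nat_lit 197) .nil)))))))) (.g (nat_lit 1) (.e (nat_lit 395484) (nat_lit 0) .nil) .nil))) 
(.lf (nat_lit 589394) (.g (nat_lit 1498) (.e (nat_lit 532502) (nat_lit 1) (.e (nat_lit 57854) (nat_lit 252) (.e (nat_lit 57405) (nat_lit 12) (.e (nat_lit 336456) (nat_lit 34) .nil)))) (.g (nat_lit 0) (.e (nat_lit 396356) (nat_lit 0) .nil) .nil)))) (.nd (nat_lit 9) 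
(.lf (nat_lit 589138) (.g (nat_lit 2680) (.e (nat_lit 532501) (nat_lit 1) (.e (nat_lit 57689) (nat_lit 156) (.e (nat_lit 163905) (nat_lit 12) (.e (nat_lit 426479) (nat_lit 27) (.e (nat_lit 336434) (nat_lit 30) (.e (nat_lit 450579) (nat_lit 5) .nil)))))) (.g (nat_lit 1) (.e (nat_lit 395910) (nat_lit 0) .nil) .nil))) 
(.lf (nat_lit 589650) (.g (nat_lit 2724) (.e (nat_lit 532503) (nat_lit 1) (.e (nat_lit 57931) (nat_lit 282) (.e (nat_lit 163867) (nat_lit 2) (.e (nat_lit 196670) (nat_lit 14) (.e (nat_lit 73746) (nat_lit 3) (.e (nat_lit 516129) (nat_lit 3) (.e (nat_lit 221197) (nat_lit 20) (.e (nat_lit 3244) (nat_lit 197) .nil)))))))) (.g (nat_lit 1) (.e (nat_lit 396704) (nat_lit 0) .nil) .nil))))) 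
(.nd (nat_lit 8) (.nd (nat_lit 9) 
(.lf (nat_lit 589010) (.g (nat_lit 3272) (.e (nat_lit 532499) (nat_lit 1) (.e (nat_lit 57927) (nat_lit 282) (.e (nat_lit 163871) (nat_lit 2) (.e (nat_lit 196670) (nat_lit 14) (.e (nat_lit 73746) (nat_lit 3) (.e (nat_lit 516126) (nat_lit 2) (.e (nat_lit 213033) (nat_lit 12) (.e (nat_lit 163962) (nat_lit 25) .nil)))))))) (.g (nat_lit 1) (.e (nat_lit 395735) (nat_lit 0) .nil) .nil))) 
(.lf (nat_lit 589522) (.g (nat_lit 3034) (.e (nat_lit 532503) (nat_lit 1) (.e (nat_lit 57849) (nat_lit 252) (.e (nat_lit 57372) (nat_lit 2) (.e (nat_lit 90160) (nat_lit 11) (.e (nat_lit 24608) (nat_lit 3) .nil))))) (.g (nat_lit 0) (.e (nat_lit 396535) (nat_lit 0) .nil) .nil)))) (.nd (nat_lit 9) 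
(.lf (nat_lit 589266) (.g (nat_lit 3712) (.e (nat_lit 532501) (nat_lit 1) (.e (nat_lit 57927) (nat_lit 282) (.e (nat_lit 163869) (nat_lit 2) (.e (nat_lit 196670) (nat_lit 14) (.e (nat_lit 73746) (nat_lit 3) (.e (nat_lit 516122) (nat_lit 2) (.e (nat_lit 213036) (nat_lit 13) (.e (nat_lit 229433) (nat_lit 25) .nil)))))))) (.g (nat_lit 1) (.e (nat_lit 396136) (nat_lit 0) .nil) .nil))) 
(.lf (nat_lit 589778) (.g (nat_lit 3240) (.e (nat_lit 532503) (nat_lit 1) (.e (nat_lit 57931) (nat_lit 282) (.e (nat_lit 163869) (nat_lit 2) (.e (nat_lit 196670) (nat_lit 14) (.e (nat_lit 73746) (nat_lit 3) (.e (nat_lit 516129) (nat_lit 3) (.e (nat_lit 221202) (nat_lit 20) (.e (nat_lit 3231) (nat_lit 197) .nil)))))))) (.g (nat_lit 1) (.e (nat_lit 396869) (nat_lit 0) .nil) .nil))))))) 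
(.nd (nat_lit 6) (.nd (nat_lit 7) (.nd (nat_lit 8) (.nd (nat_lit 9) 
(.lf (nat_lit 588850) (.g (nat_lit 2512) (.e (nat_lit 532499) (nat_lit 1) (.e (nat_lit 57927) (nat_lit 282) (.e (nat_lit 163866) (nat_lit 2) (.e (nat_lit 196670) (nat_lit 14) (.e (nat_lit 73746) (nat_lit 3) (.e (nat_lit 516126) (nat_lit 2) (.e (nat_lit 213033) (nat_lit 12) (.e (nat_lit 163962) (nat_lit 25) .nil)))))))) (.g (nat_lit 1) (.e (nat_lit 395408) (nat_lit 0) .nil) .nil))) 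
(.lf (nat_lit 589362) (.g (nat_lit 2132) (.e (nat_lit 532502) (nat_lit 1) (.e (nat_lit 57692) (nat_lit 156) (.e (nat_lit 163874) (nat_lit 3) (.e (nat_lit 204837) (nat_lit 20) (.e (nat_lit 114715) (nat_lit 22) .nil))))) (.g (nat_lit 0) (.e (nat_lit 396299) (nat_lit 0) .nil) .nil)))) (.nd (nat_lit 9) 
(.lf (nat_lit 589106) (.g (nat_lit 2599) (.e (nat_lit 532500) (nat_lit 1) (.e (nat_lit 57851) (nat_lit 252) (.e (nat_lit 57406) (nat_lit 12) (.e (nat_lit 336456) (nat_lit 34) (.e (nat_lit 483383) (nat_lit 23) (.e (nat_lit 336240) (nat_lit 15) (.e (nat_lit 3243) (nat_lit 197) .nil))))))) (.g (nat_lit 1) (.e (nat_lit 395858) (nat_lit 0) .nil) .nil))) 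
(.lf (nat_lit 589618) (.g (nat_lit 2591) (.e (nat_lit 532503) (nat_lit 1) (.e (nat_lit 57931) (nat_lit 282) (.e (nat_lit 163867) (nat_lit 2) (.e (nat_lit 196668) (nat_lit 14) (.e (nat_lit 73747) (nat_lit 3) (.e (nat_lit 516129) (nat_lit 3) (.e (nat_lit 221198) (nat_lit 20) (.e (nat_lit 3230) (nat_lit 197) .nil)))))))) (.g (nat_lit 1) (.e (nat_lit 396650) (nat_lit 0) .nil) .nil))))) 
(.nd (nat_lit 8) (.nd (nat_lit 9) 
(.lf (nat_lit 588978) (.g (nat_lit 3392) (.e (nat_lit 532499) (nat_lit 1) (.e (nat_lit 57927) (nat_lit 282) (.e (nat_lit 163869) (nat_lit 2) (.e (nat_lit 196670) (nat_lit 14) (.e (nat_lit 73746) (nat_lit 3) (.e (nat_lit 516129) (nat_lit 3) (.e (nat_lit 221196) (nat_lit 20) (.e (nat_lit 3237) (nat_lit 197) .nil)))))))) (.g (nat_lit 1) (.e (nat_lit 395630) (nat_lit 0) .nil) .nil))) 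
(.lf (nat_lit 589490) (.g (nat_lit 1546) (.e (nat_lit 532503) (nat_lit 1) (.e (nat_lit 57847) (nat_lit 252) (.e (nat_lit 57411) (nat_lit 12) (.e (nat_lit 336368) (nat_lit 27) .nil)))) (.g (nat_lit 0) (.e (nat_lit 396500) (nat_lit 0) .nil) .nil)))) (.nd (nat_lit 9) 
(.lf (nat_lit 589234) (.g (nat_lit 2707) (.e (nat_lit 532501) (nat_lit 1) (.e (nat_lit 57926) (nat_lit 282) (.e (nat_lit 163869) (nat_lit 2) (.e (nat_lit 196670) (nat_lit 14) (.e (nat_lit 73746) (nat_lit 3) (.e (nat_lit 516126) (nat_lit 2) (.e (nat_lit 213038) (nat_lit 13) (.e (nat_lit 229434) (nat_lit 25) .nil)))))))) (.g (nat_lit 1) (.e (nat_lit 396059) (nat_lit 0) .nil) .nil))) 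
(.lf (nat_lit 589746) (.g (nat_lit 3285) (.e (nat_lit 532503) (nat_lit 1) (.e (nat_lit 57931) (nat_lit 282) (.e (nat_lit 163869) (nat_lit 2) (.e (nat_lit 196670) (nat_lit 14) (.e (nat_lit 73746) (nat_lit 3) (.e (nat_lit 516127) (nat_lit 2) (.e (nat_lit 213036) (nat_lit 13) (.e (nat_lit 229433) (nat_lit 25) .nil)))))))) (.g (nat_lit 1) (.e (nat_lit 396837) (nat_lit 0) .nil) .nil)))))) 
(.nd (nat_lit 7) (.nd (nat_lit 8) (.nd (nat_lit 9) 
(.lf (nat_lit 588914) (.g (nat_lit 2622) (.e (nat_lit 532499) (nat_lit 1) (.e (nat_lit 57927) (nat_lit 282) (.e (nat_lit 163868) (nat_lit 2) (.e (nat_lit 196670) (nat_lit 14) (.e (nat_lit 73746) (nat_lit 3) (.e (nat_lit 516129) (nat_lit 3) (.e (nat_lit 221196) (nat_lit 20) (.e (nat_lit 3237) (nat_lit 197) .nil)))))))) (.g (nat_lit 1) (.e (nat_lit 395516) (nat_lit 0) .nil) .nil))) 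
(.lf (nat_lit 589426) (.g (nat_lit 398) (.e (nat_lit 532503) (nat_lit 1) (.e (nat_lit 57688) (nat_lit 156) (.e (nat_lit 163903) (nat_lit 12) .nil))) (.g (nat_lit 0) (.e (nat_lit 396401) (nat_lit 0) .nil) .nil)))) (.nd (nat_lit 9) 
(.lf (nat_lit 589170) (.g (nat_lit 3244) (.e (nat_lit 532501) (nat_lit 1) (.e (nat_lit 57851) (nat_lit 252) (.e (nat_lit 57406) (nat_lit 12) (.e (nat_lit 336456) (nat_lit 34) (.e (nat_lit 483383) (nat_lit 23) (.e (nat_lit 336258) (nat_lit 15) (.e (nat_lit 3248) (nat_lit 197) .nil))))))) (.g (nat_lit 1) (.e (nat_lit 395967) (nat_lit 0) .nil) .nil))) 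
(.lf (nat_lit 589682) (.g (nat_lit 2905) (.e (nat_lit 532503) (nat_lit 1) (.e (nat_lit 57931) (nat_lit 282) (.e (nat_lit 163869) (nat_lit 2) (.e (nat_lit 196668) (nat_lit 14) (.e (nat_lit 73746) (nat_lit 3) .nil))))) (.g (nat_lit 0) (.e (nat_lit 396769) (nat_lit 0) .nil) .nil))))) (.nd (nat_lit 8) (.nd (nat_lit 9) 
(.lf (nat_lit 589042) (.g (nat_lit 3228) (.e (nat_lit 532499) (nat_lit 1) (.e (nat_lit 57927) (nat_lit 282) (.e (nat_lit 163874) (nat_lit 3) (.e (nat_lit 204862) (nat_lit 27) (.e (nat_lit 344117) (nat_lit 21) (.e (nat_lit 516122) (nat_lit 2) (.e (nat_lit 213035) (nat_lit 12) (.e (nat_lit 163963) (nat_lit 25) .nil)))))))) (.g (nat_lit 1) (.e (nat_lit 395772) (nat_lit 0) .nil) .nil))) 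
(.lf (nat_lit 589554) (.g (nat_lit 2332) (.e (nat_lit 532503) (nat_lit 1) (.e (nat_lit 57924) (nat_lit 282) (.e (nat_lit 163867) (nat_lit 2) (.e (nat_lit 196670) (nat_lit 14) (.e (nat_lit 73746) (nat_lit 3) (.e (nat_lit 516131) (nat_lit 3) (.e (nat_lit 221198) (nat_lit 20) (.e (nat_lit 3230) (nat_lit 197) .nil)))))))) (.g (nat_lit 1) (.e (nat_lit 396571) (nat_lit 0) .nil) .nil)))) 
(.nd (nat_lit 9) 
(.lf (nat_lit 589298) (.g (nat_lit 2950) (.e (nat_lit 532501) (nat_lit 1) (.e (nat_lit 57928) (nat_lit 282) (.e (nat_lit 163871) (nat_lit 2) (.e (nat_lit 196670) (nat_lit 14) (.e (nat_lit 73746) (nat_lit 3) (.e (nat_lit 516127) (nat_lit 2) (.e (nat_lit 213037) (nat_lit 13) (.e (nat_lit 229433) (nat_lit 25) .nil)))))))) (.g (nat_lit 1) (.e (nat_lit 396200) (nat_lit 0) .nil) .nil))) 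
(.lf (nat_lit 589810) (.g (nat_lit 3101) (.e (nat_lit 532503) (nat_lit 1) (.e (nat_lit 57931) (nat_lit 282) (.e (nat_lit 163874) (nat_lit 3) (.e (nat_lit 204854) (nat_lit 26) (.e (nat_lit 336019) (nat_lit 3) (.e (nat_lit 98342) (nat_lit 20) (.e (nat_lit 221198) (nat_lit 20) (.e (nat_lit 3250) (nat_lit 197) .nil)))))))) (.g (nat_lit 1) (.e (nat_lit 396907) (nat_lit 0) .nil) .nil))))))))) 
(.nd (nat_lit 4) (.nd (nat_lit 5) (.nd (nat_lit 6) (.nd (nat_lit 7) (.nd (nat_lit 8) 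
(.nd (nat_lit 9) 
(.lf (nat_lit 588810) (.g (nat_lit 1872) (.e (nat_lit 532499) (nat_lit 1) (.e (nat_lit 57926) (nat_lit 282) (.e (nat_lit 163869) (nat_lit 2) (.e (nat_lit 196668) (nat_lit 14) (.e (nat_lit 73747) (nat_lit 3) .nil))))) (.g (nat_lit 0) (.e (nat_lit 395354) (nat_lit 0) .nil) .nil))) 
(.lf (nat_lit 589322) (.g (nat_lit 3031) (.e (nat_lit 532501) (nat_lit 1) (.e (nat_lit 57931) (nat_lit 282) (.e (nat_lit 163885) (nat_lit 5) (.e (nat_lit 221212) (nat_lit 22) (.e (nat_lit 196656) (nat_lit 11) (.e (nat_lit 16425) (nat_lit 7) (.e (nat_lit 409616) (nat_lit 10) (.e (nat_lit 604) (nat_lit 45) .nil)))))))) (.g (nat_lit 1) (.e (nat_lit 396243) (nat_lit 0) .nil) .nil)))) (.nd (nat_lit 9) 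
(.lf (nat_lit 589066) (.g (nat_lit 3408) (.e (nat_lit 532499) (nat_lit 1) (.e (nat_lit 57927) (nat_lit 282) (.e (nat_lit 163885) (nat_lit 5) (.e (nat_lit 221212) (nat_lit 22) (.e (nat_lit 196656) (nat_lit 11) (.e (nat_lit 16425) (nat_lit 7) (.e (nat_lit 409617) (nat_lit 10) (.e (nat_lit 604) (nat_lit 45) .nil)))))))) (.g (nat_lit 1) (.e (nat_lit 395802) (nat_lit 0) .nil) .nil))) 
(.lf (nat_lit 589578) (.g (nat_lit 2393) (.e (nat_lit 532503) (nat_lit 1) (.e (nat_lit 57931) (nat_lit 282) (.e (nat_lit 163866) (nat_lit 2) (.e (nat_lit 196670) (nat_lit 14) (.e (nat_lit 73746) (nat_lit 3) (.e (nat_lit 516127) (nat_lit 2) (.e (nat_lit 213038) (nat_lit 13) (.e (nat_lit 229434) (nat_lit 25) .nil)))))))) (.g (nat_lit 1) (.e (nat_lit 396601) (nat_lit 0) .nil) .nil))))) 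
(.nd (nat_lit 8) (.nd (nat_lit 9) 
(.lf (nat_lit 588938) (.g (nat_lit 3284) (.e (nat_lit 532499) (nat_lit 1) (.e (nat_lit 57927) (nat_lit 282) (.e (nat_lit 163869) (nat_lit 2) (.e (nat_lit 196668) (nat_lit 14) (.e (nat_lit 73746) (nat_lit 3) (.e (nat_lit 516129) (nat_lit 3) (.e (nat_lit 221203) (nat_lit 20) (.e (nat_lit 3253) (nat_lit 197) .nil)))))))) (.g (nat_lit 1) (.e (nat_lit 395575) (nat_lit 0) .nil) .nil))) 
(.lf (nat_lit 589450) (.g (nat_lit 1147) (.e (nat_lit 532503) (nat_lit 1) (.e (nat_lit 57844) (nat_lit 252) (.e (nat_lit 57406) (nat_lit 12) (.e (nat_lit 336456) (nat_lit 34) .nil)))) (.g (nat_lit 0) (.e (nat_lit 396457) (nat_lit 0) .nil) .nil)))) (.nd (nat_lit 9) 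
(.lf (nat_lit 589194) (.g (nat_lit 1783) (.e (nat_lit 532501) (nat_lit 1) (.e (nat_lit 57852) (nat_lit 252) (.e (nat_lit 57406) (nat_lit 12) (.e (nat_lit 336454) (nat_lit 34) (.e (nat_lit 483405) (nat_lit 26) .nil))))) (.g (nat_lit 0) (.e (nat_lit 395992) (nat_lit 0) .nil) .nil))) 
(.lf (nat_lit 589706) (.g (nat_lit 3067) (.e (nat_lit 532503) (nat_lit 1) (.e (nat_lit 57931) (nat_lit 282) (.e (nat_lit 163869) (nat_lit 2) (.e (nat_lit 196668) (nat_lit 14) (.e (nat_lit 73747) (nat_lit 3) (.e (nat_lit 516129) (nat_lit 3) (.e (nat_lit 221198) (nat_lit 20) (.e (nat_lit 3248) (nat_lit 197) .nil)))))))) (.g (nat_lit 1) (.e (nat_lit 396797) (nat_lit 0) .nil) .nil)))))) 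
(.nd (nat_lit 7) (.nd (nat_lit 8) (.nd (nat_lit 9) 
(.lf (nat_lit 588874) (.g (nat_lit 2787) (.e (nat_lit 532499) (nat_lit 1) (.e (nat_lit 57927) (nat_lit 282) (.e (nat_lit 163868) (nat_lit 2) (.e (nat_lit 196668) (nat_lit 14) (.e (nat_lit 73747) (nat_lit 3) (.e (nat_lit 516129) (nat_lit 3) (.e (nat_lit 221196) (nat_lit 20) (.e (nat_lit 3241) (nat_lit 197) .nil)))))))) (.g (nat_lit 1) (.e (nat_lit 395475) (nat_lit 0) .nil) .nil))) 
(.lf (nat_lit 589386) (.g (nat_lit 1792) (.e (nat_lit 532502) (nat_lit 1) (.e (nat_lit 57852) (nat_lit 252) (.e (nat_lit 57406) (nat_lit 12) (.e (nat_lit 336452) (nat_lit 34) (.e (nat_lit 483403) (nat_lit 26) .nil))))) (.g (nat_lit 0) (.e (nat_lit 396338) (nat_lit 0) .nil) .nil)))) (.nd (nat_lit 9) 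
(.lf (nat_lit 589130) (.g (nat_lit 2663) (.e (nat_lit 532500) (nat_lit 1) (.e (nat_lit 57927) (nat_lit 282) (.e (nat_lit 163869) (nat_lit 2) (.e (nat_lit 196668) (nat_lit 14) (.e (nat_lit 73747) (nat_lit 3) (.e (nat_lit 516129) (nat_lit 3) (.e (nat_lit 221196) (nat_lit 20) (.e (nat_lit 3241) (nat_lit 197) .nil)))))))) (.g (nat_lit 1) (.e (nat_lit 395895) (nat_lit 0) .nil) .nil))) 
(.lf (nat_lit 589642) (.g (nat_lit 3651) (.e (nat_lit 532503) (nat_lit 1) (.e (nat_lit 57931) (nat_lit 282) (.e (nat_lit 163867) (nat_lit 2) (.e (nat_lit 196670) (nat_lit 14) (.e (nat_lit 73746) (nat_lit 3) (.e (nat_lit 516129) (nat_lit 3) (.e (nat_lit 221196) (nat_lit 20) (.e (nat_lit 3256) (nat_lit 197) .nil)))))))) (.g (nat_lit 1) (.e (nat_lit 396696) (nat_lit 0) .nil) .nil))))) 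
(.nd (nat_lit 8) (.nd (nat_lit 9) 
(.lf (nat_lit 589002) (.g (nat_lit 1664) (.e (nat_lit 532499) (nat_lit 1) (.e (nat_lit 57927) (nat_lit 282) (.e (nat_lit 163871) (nat_lit 2) (.e (nat_lit 196670) (nat_lit 14) (.e (nat_lit 73746) (nat_lit 3) .nil))))) (.g (nat_lit 0) (.e (nat_lit 395726) (nat_lit 0) .nil) .nil))) 
(.lf (nat_lit 589514) (.g (nat_lit 2536) (.e (nat_lit 532503) (nat_lit 1) (.e (nat_lit 57848) (nat_lit 252) (.e (nat_lit 57407) (nat_lit 12) (.e (nat_lit 336456) (nat_lit 34) (.e (nat_lit 483383) (nat_lit 23) (.e (nat_lit 336240) (nat_lit 15) (.e (nat_lit 3248) (nat_lit 197) .nil))))))) (.g (nat_lit 1) (.e (nat_lit 396527) (nat_lit 0) .nil) .nil)))) (.nd (nat_lit 9) 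
(.lf (nat_lit 589258) (.g (nat_lit 3358) (.e (nat_lit 532501) (nat_lit 1) (.e (nat_lit 57927) (nat_lit 282) (.e (nat_lit 163868) (nat_lit 2) (.e (nat_lit 196670) (nat_lit 14) (.e (nat_lit 73746) (nat_lit 3) (.e (nat_lit 516126) (nat_lit 2) (.e (nat_lit 213037) (nat_lit 13) (.e (nat_lit 229433) (nat_lit 25) .nil)))))))) (.g (nat_lit 1) (.e (nat_lit 396116) (nat_lit 0) .nil) .nil))) 
(.lf (nat_lit 589770) (.g (nat_lit 2895) (.e (nat_lit 532503) (nat_lit 1) (.e (nat_lit 57931) (nat_lit 282) (.e (nat_lit 163869) (nat_lit 2) (.e (nat_lit 196670) (nat_lit 14) (.e (nat_lit 73746) (nat_lit 3) (.e (nat_lit 516129) (nat_lit 3) (.e (nat_lit 221199) (nat_lit 20) (.e (nat_lit 3230) (nat_lit 197) .nil)))))))) (.g (nat_lit 1) (.e (nat_lit 396861) (nat_lit 0) .nil) .nil))))))) 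
(.nd (nat_lit 6) (.nd (nat_lit 7) (.nd (nat_lit 8) (.nd (nat_lit 9) 
(.lf (nat_lit 588842) (.g (nat_lit 1573) (.e (nat_lit 532499) (nat_lit 1) (.e (nat_lit 57927) (nat_lit 282) (.e (nat_lit 163866) (nat_lit 2) (.e (nat_lit 196668) (nat_lit 14) (.e (nat_lit 73747) (nat_lit 3) .nil))))) (.g (nat_lit 0) (.e (nat_lit 395397) (nat_lit 0) .nil) .nil))) 
(.lf (nat_lit 589354) (.g (nat_lit 2274) (.e (nat_lit 532502) (nat_lit 1) (.e (nat_lit 57691) (nat_lit 156) (.e (nat_lit 163874) (nat_lit 3) (.e (nat_lit 204837) (nat_lit 20) (.e (nat_lit 114719) (nat_lit 23) .nil))))) (.g (nat_lit 0) (.e (nat_lit 396290) (nat_lit 0) .nil) .nil)))) (.nd (nat_lit 9) 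
(.lf (nat_lit 589098) (.g (nat_lit 2852) (.e (nat_lit 532500) (nat_lit 1) (.e (nat_lit 57691) (nat_lit 156) (.e (nat_lit 163905) (nat_lit 12) (.e (nat_lit 426566) (nat_lit 34) (.e (nat_lit 393282) (nat_lit 24) .nil))))) (.g (nat_lit 0) (.e (nat_lit 395847) (nat_lit 0) .nil) .nil))) 
(.lf (nat_lit 589610) (.g (nat_lit 2056) (.e (nat_lit 532503) (nat_lit 1) (.e (nat_lit 57931) (nat_lit 282) (.e (nat_lit 163867) (nat_lit 2) (.e (nat_lit 196668) (nat_lit 14) (.e (nat_lit 73747) (nat_lit 3) .nil))))) (.g (nat_lit 0) (.e (nat_lit 396639) (nat_lit 0) .nil) .nil))))) (.nd (nat_lit 8) (.nd (nat_lit 9) 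
(.lf (nat_lit 588970) (.g (nat_lit 3549) (.e (nat_lit 532499) (nat_lit 1) (.e (nat_lit 57927) (nat_lit 282) (.e (nat_lit 163869) (nat_lit 2) (.e (nat_lit 196670) (nat_lit 14) (.e (nat_lit 73746) (nat_lit 3) (.e (nat_lit 516126) (nat_lit 2) (.e (nat_lit 213038) (nat_lit 13) (.e (nat_lit 229434) (nat_lit 25) .nil)))))))) (.g (nat_lit 1) (.e (nat_lit 395622) (nat_lit 0) .nil) .nil))) 
(.lf (nat_lit 589482) (.g (nat_lit 1805) (.e (nat_lit 532503) (nat_lit 1) (.e (nat_lit 57847) (nat_lit 252) (.e (nat_lit 57407) (nat_lit 12) (.e (nat_lit 336456) (nat_lit 34) (.e (nat_lit 491264) (nat_lit 26) .nil))))) (.g (nat_lit 0) (.e (nat_lit 396490) (nat_lit 0) .nil) .nil)))) (.nd (nat_lit 9) 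
(.lf (nat_lit 589226) (.g (nat_lit 3467) (.e (nat_lit 532501) (nat_lit 1) (.e (nat_lit 57926) (nat_lit 282) (.e (nat_lit 163869) (nat_lit 2) (.e (nat_lit 196670) (nat_lit 14) (.e (nat_lit 73746) (nat_lit 3) (.e (nat_lit 516122) (nat_lit 2) (.e (nat_lit 213035) (nat_lit 12) (.e (nat_lit 163964) (nat_lit 25) .nil)))))))) (.g (nat_lit 1) (.e (nat_lit 396051) (nat_lit 0) .nil) .nil))) 
(.lf (nat_lit 589738) (.g (nat_lit 3212) (.e (nat_lit 532503) (nat_lit 1) (.e (nat_lit 57931) (nat_lit 282) (.e (nat_lit 163869) (nat_lit 2) (.e (nat_lit 196670) (nat_lit 14) (.e (nat_lit 73746) (nat_lit 3) (.e (nat_lit 516126) (nat_lit 2) (.e (nat_lit 213038) (nat_lit 13) (.e (nat_lit 229432) (nat_lit 25) .nil)))))))) (.g (nat_lit 1) (.e (nat_lit 396829) (nat_lit 0) .nil) .nil)))))) 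
(.nd (nat_lit 7) (.nd (nat_lit 8) (.nd (nat_lit 9) 
(.lf (nat_lit 588906) (.g (nat_lit 2503) (.e (nat_lit 532499) (nat_lit 1) (.e (nat_lit 57927) (nat_lit 282) (.e (nat_lit 163868) (nat_lit 2) (.e (nat_lit 196670) (nat_lit 14) (.e (nat_lit 73746) (nat_lit 3) (.e (nat_lit 516127) (nat_lit 2) (.e (nat_lit 213033) (nat_lit 12) (.e (nat_lit 163963) (nat_lit 25) .nil)))))))) (.g (nat_lit 1) (.e (nat_lit 395508) (nat_lit 0) .nil) .nil))) 
(.lf (nat_lit 589418) (.g (nat_lit 3031) (.e (nat_lit 532503) (nat_lit 1) (.e (nat_lit 57688) (nat_lit 156) (.e (nat_lit 163874) (nat_lit 3) (.e (nat_lit 204838) (nat_lit 20) (.e (nat_lit 114719) (nat_lit 23) (.e (nat_lit 98367) (nat_lit 27) (.e (nat_lit 434234) (nat_lit 23) .nil))))))) (.g (nat_lit 1) (.e (nat_lit 396392) (nat_lit 0) .nil) .nil)))) (.nd (nat_lit 9) 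
(.lf (nat_lit 589162) (.g (nat_lit 1543) (.e (nat_lit 532501) (nat_lit 1) (.e (nat_lit 57851) (nat_lit 252) (.e (nat_lit 57406) (nat_lit 12) (.e (nat_lit 336375) (nat_lit 27) .nil)))) (.g (nat_lit 0) (.e (nat_lit 395959) (nat_lit 0) .nil) .nil))) 
(.lf (nat_lit 589674) (.g (nat_lit 1819) (.e (nat_lit 532503) (nat_lit 1) (.e (nat_lit 57931) (nat_lit 282) (.e (nat_lit 163869) (nat_lit 2) (.e (nat_lit 196664) (nat_lit 13) .nil)))) (.g (nat_lit 0) (.e (nat_lit 396728) (nat_lit 0) .nil) .nil))))) (.nd (nat_lit 8) (.nd (nat_lit 9) 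
(.lf (nat_lit 589034) (.g (nat_lit 1952) (.e (nat_lit 532499) (nat_lit 1) (.e (nat_lit 57927) (nat_lit 282) (.e (nat_lit 163874) (nat_lit 3) (.e (nat_lit 204853) (nat_lit 26) .nil)))) (.g (nat_lit 0) (.e (nat_lit 395764) (nat_lit 0) .nil) .nil))) 
(.lf (nat_lit 589546) (.g (nat_lit 2231) (.e (nat_lit 532503) (nat_lit 1) (.e (nat_lit 57924) (nat_lit 282) (.e (nat_lit 163867) (nat_lit 2) (.e (nat_lit 196668) (nat_lit 14) (.e (nat_lit 73747) (nat_lit 3) (.e (nat_lit 516129) (nat_lit 3) (.e (nat_lit 221197) (nat_lit 20) (.e (nat_lit 3248) (nat_lit 197) .nil)))))))) (.g (nat_lit 1) (.e (nat_lit 396561) (nat_lit 0) .nil) .nil)))) 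
(.nd (nat_lit 9) 
(.lf (nat_lit 589290) (.g (nat_lit 3448) (.e (nat_lit 532501) (nat_lit 1) (.e (nat_lit 57927) (nat_lit 282) (.e (nat_lit 163875) (nat_lit 3) (.e (nat_lit 204862) (nat_lit 27) (.e (nat_lit 344117) (nat_lit 21) (.e (nat_lit 516123) (nat_lit 2) (.e (nat_lit 213036) (nat_lit 13) (.e (nat_lit 229433) (nat_lit 25) .nil)))))))) (.g (nat_lit 1) (.e (nat_lit 396182) (nat_lit 0) .nil) .nil))) 
(.lf (nat_lit 589802) (.g (nat_lit 3080) (.e (nat_lit 532503) (nat_lit 1) (.e (nat_lit 57931) (nat_lit 282) (.e (nat_lit 163874) (nat_lit 3) (.e (nat_lit 204851) (nat_lit 26) (.e (nat_lit 336019) (nat_lit 3) (.e (nat_lit 98342) (nat_lit 20) (.e (nat_lit 221198) (nat_lit 20) (.e (nat_lit 3248) (nat_lit 197) .nil)))))))) (.g (nat_lit 1) (.e (nat_lit 396895) (nat_lit 0) .nil) .nil)))))))) 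
(.nd (nat_lit 5) (.nd (nat_lit 6) (.nd (nat_lit 7) (.nd (nat_lit 8) (.nd (nat_lit 9) 
(.lf (nat_lit 588826) (.g (nat_lit 3375) (.e (nat_lit 532499) (nat_lit 1) (.e (nat_lit 57926) (nat_lit 282) (.e (nat_lit 163869) (nat_lit 2) (.e (nat_lit 196670) (nat_lit 14) (.e (nat_lit 73746) (nat_lit 3) (.e (nat_lit 516126) (nat_lit 2) (.e (nat_lit 213035) (nat_lit 12) (.e (nat_lit 163964) (nat_lit 25) .nil)))))))) (.g (nat_lit 1) (.e (nat_lit 395370) (nat_lit 0) .nil) .nil))) 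
(.lf (nat_lit 589338) (.g (nat_lit 1315) (.e (nat_lit 532502) (nat_lit 1) (.e (nat_lit 57688) (nat_lit 156) (.e (nat_lit 163903) (nat_lit 12) (.e (nat_lit 426479) (nat_lit 27) .nil)))) (.g (nat_lit 0) (.e (nat_lit 396261) (nat_lit 0) .nil) .nil)))) (.nd (nat_lit 9) 
(.lf (nat_lit 589082) (.g (nat_lit 3304) (.e (nat_lit 532499) (nat_lit 1) (.e (nat_lit 57931) (nat_lit 282) (.e (nat_lit 163869) (nat_lit 2) (.e (nat_lit 196670) (nat_lit 14) (.e (nat_lit 73746) (nat_lit 3) (.e (nat_lit 516126) (nat_lit 2) (.e (nat_lit 213035) (nat_lit 12) (.e (nat_lit 163963) (nat_lit 25) .nil)))))))) (.g (nat_lit 1) (.e (nat_lit 395828) (nat_lit 0) .nil) .nil))) 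
(.lf (nat_lit 589594) (.g (nat_lit 3000) (.e (nat_lit 532503) (nat_lit 1) (.e (nat_lit 57931) (nat_lit 282) (.e (nat_lit 163867) (nat_lit 2) (.e (nat_lit 196668) (nat_lit 14) (.e (nat_lit 73746) (nat_lit 3) (.e (nat_lit 516129) (nat_lit 3) (.e (nat_lit 221196) (nat_lit 20) (.e (nat_lit 3256) (nat_lit 197) .nil)))))))) (.g (nat_lit 1) (.e (nat_lit 396623) (nat_lit 0) .nil) .nil))))) 
(.nd (nat_lit 8) (.nd (nat_lit 9) 
(.lf (nat_lit 588954) (.g (nat_lit 3724) (.e (nat_lit 532499) (nat_lit 1) (.e (nat_lit 57927) (nat_lit 282) (.e (nat_lit 163869) (nat_lit 2) (.e (nat_lit 196670) (nat_lit 14) (.e (nat_lit 73746) (nat_lit 3) (.e (nat_lit 516122) (nat_lit 2) (.e (nat_lit 213035) (nat_lit 12) (.e (nat_lit 163964) (nat_lit 25) .nil)))))))) (.g (nat_lit 1) (.e (nat_lit 395606) (nat_lit 0) .nil) .nil))) 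
(.lf (nat_lit 589466) (.g (nat_lit 1803) (.e (nat_lit 532503) (nat_lit 1) (.e (nat_lit 57847) (nat_lit 252) (.e (nat_lit 57379) (nat_lit 3) (.e (nat_lit 98341) (nat_lit 20) (.e (nat_lit 221212) (nat_lit 22) (.e (nat_lit 196665) (nat_lit 13) (.e (nat_lit 65637) (nat_lit 15) (.e (nat_lit 3253) (nat_lit 197) .nil)))))))) (.g (nat_lit 1) (.e (nat_lit 396473) (nat_lit 0) .nil) .nil)))) 
(.nd (nat_lit 9) 
(.lf (nat_lit 589210) (.g (nat_lit 1936) (.e (nat_lit 532501) (nat_lit 1) (.e (nat_lit 57854) (nat_lit 252) (.e (nat_lit 57406) (nat_lit 12) (.e (nat_lit 336456) (nat_lit 34) (.e (nat_lit 491264) (nat_lit 26) .nil))))) (.g (nat_lit 0) (.e (nat_lit 396011) (nat_lit 0) .nil) .nil))) 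
(.lf (nat_lit 589722) (.g (nat_lit 2800) (.e (nat_lit 532503) (nat_lit 1) (.e (nat_lit 57931) (nat_lit 282) (.e (nat_lit 163869) (nat_lit 2) (.e (nat_lit 196670) (nat_lit 14) (.e (nat_lit 73746) (nat_lit 3) (.e (nat_lit 516124) (nat_lit 2) (.e (nat_lit 213033) (nat_lit 12) (.e (nat_lit 163963) (nat_lit 25) .nil)))))))) (.g (nat_lit 1) (.e (nat_lit 396813) (nat_lit 0) .nil) .nil)))))) 
(.nd (nat_lit 7) (.nd (nat_lit 8) (.nd (nat_lit 9) 
(.lf (nat_lit 588890) (.g (nat_lit 2294) (.e (nat_lit 532499) (nat_lit 1) (.e (nat_lit 57927) (nat_lit 282) (.e (nat_lit 163868) (nat_lit 2) (.e (nat_lit 196670) (nat_lit 14) (.e (nat_lit 73746) (nat_lit 3) (.e (nat_lit 516124) (nat_lit 2) (.e (nat_lit 213013) (nat_lit 9) (.e (nat_lit 2505) (nat_lit 157) (.e (nat_lit 3249) (nat_lit 197) .nil))))))))) (.g (nat_lit 1) (.e (nat_lit 395492) (nat_lit 0) .nil) .nil))) 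
(.lf (nat_lit 589402) (.g (nat_lit 2635) (.e (nat_lit 532503) (nat_lit 1) (.e (nat_lit 57686) (nat_lit 156) (.e (nat_lit 163902) (nat_lit 12) (.e (nat_lit 426568) (nat_lit 34) (.e (nat_lit 393284) (nat_lit 24) (.e (nat_lit 434233) (nat_lit 23) .nil)))))) (.g (nat_lit 1) (.e (nat_lit 396367) (nat_lit 0) .nil) .nil)))) (.nd (nat_lit 9) 
(.lf (nat_lit 589146) (.g (nat_lit 1787) (.e (nat_lit 532501) (nat_lit 1) (.e (nat_lit 57692) (nat_lit 156) (.e (nat_lit 163874) (nat_lit 3) (.e (nat_lit 204834) (nat_lit 19) .nil)))) (.g (nat_lit 0) (.e (nat_lit 395930) (nat_lit 0) .nil) .nil))) 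
(.lf (nat_lit 589658) (.g (nat_lit 3751) (.e (nat_lit 532503) (nat_lit 1) (.e (nat_lit 57931) (nat_lit 282) (.e (nat_lit 163867) (nat_lit 2) (.e (nat_lit 196670) (nat_lit 14) (.e (nat_lit 73746) (nat_lit 3) (.e (nat_lit 516129) (nat_lit 3) (.e (nat_lit 221202) (nat_lit 20) (.e (nat_lit 3245) (nat_lit 197) .nil)))))))) (.g (nat_lit 1) (.e (nat_lit 396712) (nat_lit 0) .nil) .nil))))) 
(.nd (nat_lit 8) (.nd (nat_lit 9) 
(.lf (nat_lit 589018) (.g (nat_lit 3063) (.e (nat_lit 532499) (nat_lit 1) (.e (nat_lit 57927) (nat_lit 282) (.e (nat_lit 163871) (nat_lit 2) (.e (nat_lit 196670) (nat_lit 14) (.e (nat_lit 73746) (nat_lit 3) (.e (nat_lit 516127) (nat_lit 2) (.e (nat_lit 213034) (nat_lit 12) (.e (nat_lit 163963) (nat_lit 25) .nil)))))))) (.g (nat_lit 1) (.e (nat_lit 395743) (nat_lit 0) .nil) .nil))) 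
(.lf (nat_lit 589530) (.g (nat_lit 2768) (.e (nat_lit 532503) (nat_lit 1) (.e (nat_lit 57849) (nat_lit 252) (.e (nat_lit 57407) (nat_lit 12) (.e (nat_lit 336454) (nat_lit 34) (.e (nat_lit 483385) (nat_lit 23) (.e (nat_lit 336284) (nat_lit 15) (.e (nat_lit 3249) (nat_lit 197) .nil))))))) (.g (nat_lit 1) (.e (nat_lit 396545) (nat_lit 0) .nil) .nil)))) (.nd (nat_lit 9) 
(.lf (nat_lit 589274) (.g (nat_lit 2821) (.e (nat_lit 532501) (nat_lit 1) (.e (nat_lit 57927) (nat_lit 282) (.e (nat_lit 163869) (nat_lit 2) (.e (nat_lit 196670) (nat_lit 14) (.e (nat_lit 73746) (nat_lit 3) (.e (nat_lit 516126) (nat_lit 2) (.e (nat_lit 213035) (nat_lit 12) (.e (nat_lit 163965) (nat_lit 25) .nil)))))))) (.g (nat_lit 1) (.e (nat_lit 396144) (nat_lit 0) .nil) .nil))) 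
(.lf (nat_lit 589786) (.g (nat_lit 3040) (.e (nat_lit 532503) (nat_lit 1) (.e (nat_lit 57931) (nat_lit 282) (.e (nat_lit 163869) (nat_lit 2) (.e (nat_lit 196670) (nat_lit 14) (.e (nat_lit 73746) (nat_lit 3) (.e (nat_lit 516131) (nat_lit 3) (.e (nat_lit 221197) (nat_lit 20) (.e (nat_lit 3237) (nat_lit 197) .nil)))))))) (.g (nat_lit 1) (.e (nat_lit 396877) (nat_lit 0) .nil) .nil))))))) 
(.nd (nat_lit 6) (.nd (nat_lit 7) (.nd (nat_lit 8) (.nd (nat_lit 9) 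
(.lf (nat_lit 588858) (.g (nat_lit 2216) (.e (nat_lit 532499) (nat_lit 1) (.e (nat_lit 57927) (nat_lit 282) (.e (nat_lit 163867) (nat_lit 2) (.e (nat_lit 196670) (nat_lit 14) (.e (nat_lit 73746) (nat_lit 3) .nil))))) (.g (nat_lit 0) (.e (nat_lit 395418) (nat_lit 0) .nil) .nil))) 
(.lf (nat_lit 589370) (.g (nat_lit 1872) (.e (nat_lit 532502) (nat_lit 1) (.e (nat_lit 57846) (nat_lit 252) (.e (nat_lit 57407) (nat_lit 12) (.e (nat_lit 336456) (nat_lit 34) (.e (nat_lit 483404) (nat_lit 26) .nil))))) (.g (nat_lit 0) (.e (nat_lit 396316) (nat_lit 0) .nil) .nil)))) (.nd (nat_lit 9) 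
(.lf (nat_lit 589114) (.g (nat_lit 4592) (.e (nat_lit 532500) (nat_lit 1) (.e (nat_lit 57852) (nat_lit 252) (.e (nat_lit 57408) (nat_lit 12) (.e (nat_lit 336454) (nat_lit 34) (.e (nat_lit 483385) (nat_lit 23) .nil))))) (.g (nat_lit 0) (.e (nat_lit 395867) (nat_lit 0) .nil) .nil))) 
(.lf (nat_lit 589626) (.g (nat_lit 2505) (.e (nat_lit 532503) (nat_lit 1) (.e (nat_lit 57931) (nat_lit 282) (.e (nat_lit 163867) (nat_lit 2) (.e (nat_lit 196668) (nat_lit 14) (.e (nat_lit 73747) (nat_lit 3) (.e (nat_lit 516131) (nat_lit 3) (.e (nat_lit 221197) (nat_lit 20) (.e (nat_lit 3237) (nat_lit 197) .nil)))))))) (.g (nat_lit 1) (.e (nat_lit 396658) (nat_lit 0) .nil) .nil))))) 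
(.nd (nat_lit 8) (.nd (nat_lit 9) 
(.lf (nat_lit 588986) (.g (nat_lit 2667) (.e (nat_lit 532499) (nat_lit 1) (.e (nat_lit 57927) (nat_lit 282) (.e (nat_lit 163869) (nat_lit 2) (.e (nat_lit 196670) (nat_lit 14) (.e (nat_lit 73746) (nat_lit 3) (.e (nat_lit 516129) (nat_lit 3) (.e (nat_lit 221198) (nat_lit 20) (.e (nat_lit 3250) (nat_lit 197) .nil)))))))) (.g (nat_lit 1) (.e (nat_lit 395638) (nat_lit 0) .nil) .nil))) 
(.lf (nat_lit 589498) (.g (nat_lit 1360) (.e (nat_lit 532503) (nat_lit 1) (.e (nat_lit 57847) (nat_lit 252) (.e (nat_lit 57411) (nat_lit 12) (.e (nat_lit 336456) (nat_lit 34) (.e (nat_lit 491264) (nat_lit 26) .nil))))) (.g (nat_lit 0) (.e (nat_lit 396509) (nat_lit 0) .nil) .nil)))) (.nd (nat_lit 9) 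
(.lf (nat_lit 589242) (.g (nat_lit 3151) (.e (nat_lit 532501) (nat_lit 1) (.e (nat_lit 57926) (nat_lit 282) (.e (nat_lit 163871) (nat_lit 2) (.e (nat_lit 196670) (nat_lit 14) (.e (nat_lit 73746) (nat_lit 3) (.e (nat_lit 516124) (nat_lit 2) (.e (nat_lit 213036) (nat_lit 13) (.e (nat_lit 229433) (nat_lit 25) .nil)))))))) (.g (nat_lit 1) (.e (nat_lit 396075) (nat_lit 0) .nil) .nil))) 
(.lf (nat_lit 589754) (.g (nat_lit 3433) (.e (nat_lit 532503) (nat_lit 1) (.e (nat_lit 57931) (nat_lit 282) (.e (nat_lit 163869) (nat_lit 2) (.e (nat_lit 196670) (nat_lit 14) (.e (nat_lit 73746) (nat_lit 3) (.e (nat_lit 516129) (nat_lit 3) (.e (nat_lit 221196) (nat_lit 20) (.e (nat_lit 3237) (nat_lit 197) .nil)))))))) (.g (nat_lit 1) (.e (nat_lit 396845) (nat_lit 0) .nil) .nil)))))) 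
(.nd (nat_lit 7) (.nd (nat_lit 8) (.nd (nat_lit 9) 
(.lf (nat_lit 588922) (.g (nat_lit 1348) (.e (nat_lit 532499) (nat_lit 1) (.e (nat_lit 57927) (nat_lit 282) (.e (nat_lit 163869) (nat_lit 2) (.e (nat_lit 196664) (nat_lit 13) .nil)))) (.g (nat_lit 0) (.e (nat_lit 395524) (nat_lit 0) .nil) .nil))) 
(.lf (nat_lit 589434) (.g (nat_lit 1882) (.e (nat_lit 532503) (nat_lit 1) (.e (nat_lit 57688) (nat_lit 156) (.e (nat_lit 163907) (nat_lit 12) (.e (nat_lit 426479) (nat_lit 27) .nil)))) (.g (nat_lit 0) (.e (nat_lit 396414) (nat_lit 0) .nil) .nil)))) (.nd (nat_lit 9) 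
(.lf (nat_lit 589178) (.g (nat_lit 1345) (.e (nat_lit 532501) (nat_lit 1) (.e (nat_lit 57851) (nat_lit 252) (.e (nat_lit 57417) (nat_lit 12) (.e (nat_lit 343808) (nat_lit 34) .nil)))) (.g (nat_lit 0) (.e (nat_lit 395975) (nat_lit 0) .nil) .nil))) 
(.lf (nat_lit 589690) (.g (nat_lit 3175) (.e (nat_lit 532503) (nat_lit 1) (.e (nat_lit 57931) (nat_lit 282) (.e (nat_lit 163869) (nat_lit 2) (.e (nat_lit 196668) (nat_lit 14) (.e (nat_lit 73746) (nat_lit 3) (.e (nat_lit 516131) (nat_lit 3) (.e (nat_lit 221197) (nat_lit 20) (.e (nat_lit 3230) (nat_lit 197) .nil)))))))) (.g (nat_lit 1) (.e (nat_lit 396778) (nat_lit 0) .nil) .nil))))) 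
(.nd (nat_lit 8) (.nd (nat_lit 9) 
(.lf (nat_lit 589050) (.g (nat_lit 3193) (.e (nat_lit 532499) (nat_lit 1) (.e (nat_lit 57927) (nat_lit 282) (.e (nat_lit 163874) (nat_lit 3) (.e (nat_lit 204863) (nat_lit 27) (.e (nat_lit 344117) (nat_lit 21) (.e (nat_lit 516123) (nat_lit 2) (.e (nat_lit 213036) (nat_lit 13) (.e (nat_lit 229433) (nat_lit 25) .nil)))))))) (.g (nat_lit 1) (.e (nat_lit 395780) (nat_lit 0) .nil) .nil))) 
(.lf (nat_lit 589562) (.g (nat_lit 2558) (.e (nat_lit 532503) (nat_lit 1) (.e (nat_lit 57929) (nat_lit 282) (.e (nat_lit 163869) (nat_lit 2) (.e (nat_lit 196670) (nat_lit 14) (.e (nat_lit 73746) (nat_lit 3) (.e (nat_lit 516129) (nat_lit 3) (.e (nat_lit 221196) (nat_lit 20) (.e (nat_lit 3230) (nat_lit 197) .nil)))))))) (.g (nat_lit 1) (.e (nat_lit 396580) (nat_lit 0) .nil) .nil)))) 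
(.nd (nat_lit 9) 
(.lf (nat_lit 589306) (.g (nat_lit 3080) (.e (nat_lit 532501) (nat_lit 1) (.e (nat_lit 57929) (nat_lit 282) (.e (nat_lit 163869) (nat_lit 2) (.e (nat_lit 196670) (nat_lit 14) (.e (nat_lit 73746) (nat_lit 3) (.e (nat_lit 516124) (nat_lit 2) (.e (nat_lit 213035) (nat_lit 12) (.e (nat_lit 163964) (nat_lit 25) .nil)))))))) (.g (nat_lit 1) (.e (nat_lit 396211) (nat_lit 0) .nil) .nil))) 
(.lf (nat_lit 589818) (.g (nat_lit 2626) (.e (nat_lit 532503) (nat_lit 1) (.e (nat_lit 57931) (nat_lit 282) (.e (nat_lit 163874) (nat_lit 3) (.e (nat_lit 204863) (nat_lit 27) (.e (nat_lit 344117) (nat_lit 21) (.e (nat_lit 516129) (nat_lit 3) (.e (nat_lit 221196) (nat_lit 20) (.e (nat_lit 3248) (nat_lit 197) .nil)))))))) (.g (nat_lit 1) (.e (nat_lit 396915) (nat_lit 0) .nil) .nil)))))))))) 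
(.nd (nat_lit 3) (.nd (nat_lit 4) (.nd (nat_lit 5) (.nd (nat_lit 6) (.nd (nat_lit 7) 
(.nd (nat_lit 8) (.nd (nat_lit 9) 
(.lf (nat_lit 588806) (.g (nat_lit 2509) (.e (nat_lit 532499) (nat_lit 1) (.e (nat_lit 57926) (nat_lit 282) (.e (nat_lit 163868) (nat_lit 2) (.e (nat_lit 196668) (nat_lit 14) (.e (nat_lit 73746) (nat_lit 3) .nil))))) (.g (nat_lit 0) (.e (nat_lit 395350) (nat_lit 0) .nil) .nil))) 
(.lf (nat_lit 589318) (.g (nat_lit 4267) (.e (nat_lit 532501) (nat_lit 1) (.e (nat_lit 57931) (nat_lit 282) (.e (nat_lit 163869) (nat_lit 2) (.e (nat_lit 196670) (nat_lit 14) (.e (nat_lit 73746) (nat_lit 3) (.e (nat_lit 516126) (nat_lit 2) (.e (nat_lit 213037) (nat_lit 13) (.e (nat_lit 229433) (nat_lit 25) .nil)))))))) (.g (nat_lit 1) (.e (nat_lit 396239) (nat_lit 0) .nil) .nil)))) 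
(.nd (nat_lit 9) 
(.lf (nat_lit 589062) (.g (nat_lit 2600) (.e (nat_lit 532499) (nat_lit 1) (.e (nat_lit 57927) (nat_lit 282) (.e (nat_lit 163884) (nat_lit 5) (.e (nat_lit 221210) (nat_lit 22) (.e (nat_lit 196656) (nat_lit 11) (.e (nat_lit 16425) (nat_lit 7) (.e (nat_lit 409616) (nat_lit 10) (.e (nat_lit 595) (nat_lit 45) .nil)))))))) (.g (nat_lit 1) (.e (nat_lit 395798) (nat_lit 0) .nil) .nil))) 
(.lf (nat_lit 589574) (.g (nat_lit 3074) (.e (nat_lit 532503) (nat_lit 1) (.e (nat_lit 57931) (nat_lit 282) (.e (nat_lit 163866) (nat_lit 2) (.e (nat_lit 196668) (nat_lit 14) (.e (nat_lit 73747) (nat_lit 3) (.e (nat_lit 516129) (nat_lit 3) (.e (nat_lit 221196) (nat_lit 20) (.e (nat_lit 3248) (nat_lit 197) .nil)))))))) (.g (nat_lit 1) (.e (nat_lit 396597) (nat_lit 0) .nil) .nil))))) 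
(.nd (nat_lit 8) (.nd (nat_lit 9) 
(.lf (nat_lit 588934) (.g (nat_lit 2632) (.e (nat_lit 532499) (nat_lit 1) (.e (nat_lit 57927) (nat_lit 282) (.e (nat_lit 163869) (nat_lit 2) (.e (nat_lit 196666) (nat_lit 13) (.e (nat_lit 65571) (nat_lit 3) (.e (nat_lit 98342) (nat_lit 20) (.e (nat_lit 221198) (nat_lit 20) (.e (nat_lit 3240) (nat_lit 197) .nil)))))))) (.g (nat_lit 1) (.e (nat_lit 395555) (nat_lit 0) .nil) .nil))) 
(.lf (nat_lit 589446) (.g (nat_lit 2232) (.e (nat_lit 532503) (nat_lit 1) (.e (nat_lit 57691) (nat_lit 156) (.e (nat_lit 163907) (nat_lit 12) (.e (nat_lit 426568) (nat_lit 34) (.e (nat_lit 393284) (nat_lit 24) .nil))))) (.g (nat_lit 0) (.e (nat_lit 396450) (nat_lit 0) .nil) .nil)))) (.nd (nat_lit 9) 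
(.lf (nat_lit 589190) (.g (nat_lit 2193) (.e (nat_lit 532501) (nat_lit 1) (.e (nat_lit 57852) (nat_lit 252) (.e (nat_lit 57405) (nat_lit 12) (.e (nat_lit 336454) (nat_lit 34) (.e (nat_lit 483408) (nat_lit 26) .nil))))) (.g (nat_lit 0) (.e (nat_lit 395988) (nat_lit 0) .nil) .nil))) 
(.lf (nat_lit 589702) (.g (nat_lit 3888) (.e (nat_lit 532503) (nat_lit 1) (.e (nat_lit 57931) (nat_lit 282) (.e (nat_lit 163869) (nat_lit 2) (.e (nat_lit 196668) (nat_lit 14) (.e (nat_lit 73747) (nat_lit 3) (.e (nat_lit 516129) (nat_lit 3) (.e (nat_lit 221196) (nat_lit 20) (.e (nat_lit 3247) (nat_lit 197) .nil)))))))) (.g (nat_lit 1) (.e (nat_lit 396793) (nat_lit 0) .nil) .nil)))))) 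
(.nd (nat_lit 7) (.nd (nat_lit 8) (.nd (nat_lit 9) 
(.lf (nat_lit 588870) (.g (nat_lit 4083) (.e (nat_lit 532499) (nat_lit 1) (.e (nat_lit 57927) (nat_lit 282) (.e (nat_lit 163868) (nat_lit 2) (.e (nat_lit 196668) (nat_lit 14) (.e (nat_lit 73746) (nat_lit 3) (.e (nat_lit 516129) (nat_lit 3) (.e (nat_lit 221202) (nat_lit 20) (.e (nat_lit 3249) (nat_lit 197) .nil)))))))) (.g (nat_lit 1) (.e (nat_lit 395458) (nat_lit 0) .nil) .nil))) 
(.lf (nat_lit 589382) (.g (nat_lit 1979) (.e (nat_lit 532502) (nat_lit 1) (.e (nat_lit 57849) (nat_lit 252) (.e (nat_lit 57377) (nat_lit 3) (.e (nat_lit 98342) (nat_lit 20) .nil)))) (.g (nat_lit 0) (.e (nat_lit 396332) (nat_lit 0) .nil) .nil)))) (.nd (nat_lit 9) 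
(.lf (nat_lit 589126) (.g (nat_lit 3147) (.e (nat_lit 532500) (nat_lit 1) (.e (nat_lit 57927) (nat_lit 282) (.e (nat_lit 163868) (nat_lit 2) (.e (nat_lit 196670) (nat_lit 14) (.e (nat_lit 73746) (nat_lit 3) (.e (nat_lit 516126) (nat_lit 2) (.e (nat_lit 213033) (nat_lit 12) (.e (nat_lit 163962) (nat_lit 25) .nil)))))))) (.g (nat_lit 1) (.e (nat_lit 395889) (nat_lit 0) .nil) .nil))) 
(.lf (nat_lit 589638) (.g (nat_lit 3457) (.e (nat_lit 532503) (nat_lit 1) (.e (nat_lit 57931) (nat_lit 282) (.e (nat_lit 163867) (nat_lit 2) (.e (nat_lit 196670) (nat_lit 14) (.e (nat_lit 73746) (nat_lit 3) (.e (nat_lit 516129) (nat_lit 3) (.e (nat_lit 221196) (nat_lit 20) (.e (nat_lit 3236) (nat_lit 197) .nil)))))))) (.g (nat_lit 1) (.e (nat_lit 396692) (nat_lit 0) .nil) .nil))))) 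
(.nd (nat_lit 8) (.nd (nat_lit 9) 
(.lf (nat_lit 588998) (.g (nat_lit 2748) (.e (nat_lit 532499) (nat_lit 1) (.e (nat_lit 57927) (nat_lit 282) (.e (nat_lit 163869) (nat_lit 2) (.e (nat_lit 196670) (nat_lit 14) (.e (nat_lit 73746) (nat_lit 3) (.e (nat_lit 516131) (nat_lit 3) (.e (nat_lit 221198) (nat_lit 20) (.e (nat_lit 3241) (nat_lit 197) .nil)))))))) (.g (nat_lit 1) (.e (nat_lit 395650) (nat_lit 0) .nil) .nil))) 
(.lf (nat_lit 589510) (.g (nat_lit 3400) (.e (nat_lit 532503) (nat_lit 1) (.e (nat_lit 57848) (nat_lit 252) (.e (nat_lit 57407) (nat_lit 12) (.e (nat_lit 336454) (nat_lit 34) (.e (nat_lit 483385) (nat_lit 23) (.e (nat_lit 336260) (nat_lit 15) (.e (nat_lit 3251) (nat_lit 197) .nil))))))) (.g (nat_lit 1) (.e (nat_lit 396523) (nat_lit 0) .nil) .nil)))) (.nd (nat_lit 9) 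
(.lf (nat_lit 589254) (.g (nat_lit 1854) (.e (nat_lit 532501) (nat_lit 1) (.e (nat_lit 57927) (nat_lit 282) (.e (nat_lit 163868) (nat_lit 2) (.e (nat_lit 196670) (nat_lit 14) (.e (nat_lit 73746) (nat_lit 3) .nil))))) (.g (nat_lit 0) (.e (nat_lit 396112) (nat_lit 0) .nil) .nil))) 
(.lf (nat_lit 589766) (.g (nat_lit 3658) (.e (nat_lit 532503) (nat_lit 1) (.e (nat_lit 57931) (nat_lit 282) (.e (nat_lit 163869) (nat_lit 2) (.e (nat_lit 196670) (nat_lit 14) (.e (nat_lit 73746) (nat_lit 3) (.e (nat_lit 516129) (nat_lit 3) (.e (nat_lit 221198) (nat_lit 20) (.e (nat_lit 3230) (nat_lit 197) .nil)))))))) (.g (nat_lit 1) (.e (nat_lit 396857) (nat_lit 0) .nil) .nil))))))) 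
(.nd (nat_lit 6) (.nd (nat_lit 7) (.nd (nat_lit 8) (.nd (nat_lit 9) 
(.lf (nat_lit 588838) (.g (nat_lit 3847) (.e (nat_lit 532499) (nat_lit 1) (.e (nat_lit 57926) (nat_lit 282) (.e (nat_lit 163884) (nat_lit 5) (.e (nat_lit 221210) (nat_lit 22) (.e (nat_lit 196656) (nat_lit 11) (.e (nat_lit 16425) (nat_lit 7) (.e (nat_lit 409617) (nat_lit 10) (.e (nat_lit 604) (nat_lit 45) .nil)))))))) (.g (nat_lit 1) (.e (nat_lit 395390) (nat_lit 0) .nil) .nil))) 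
(.lf (nat_lit 589350) (.g (nat_lit 2394) (.e (nat_lit 532502) (nat_lit 1) (.e (nat_lit 57688) (nat_lit 156) (.e (nat_lit 163907) (nat_lit 12) (.e (nat_lit 426566) (nat_lit 34) (.e (nat_lit 393285) (nat_lit 25) .nil))))) (.g (nat_lit 0) (.e (nat_lit 396273) (nat_lit 0) .nil) .nil)))) (.nd (nat_lit 9) 
(.lf (nat_lit 589094) (.g (nat_lit 2629) (.e (nat_lit 532499) (nat_lit 1) (.e (nat_lit 57931) (nat_lit 282) (.e (nat_lit 163874) (nat_lit 3) (.e (nat_lit 204851) (nat_lit 26) (.e (nat_lit 336019) (nat_lit 3) .nil))))) (.g (nat_lit 0) (.e (nat_lit 395841) (nat_lit 0) .nil) .nil))) 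
(.lf (nat_lit 589606) (.g (nat_lit 3156) (.e (nat_lit 532503) (nat_lit 1) (.e (nat_lit 57931) (nat_lit 282) (.e (nat_lit 163867) (nat_lit 2) (.e (nat_lit 196668) (nat_lit 14) (.e (nat_lit 73746) (nat_lit 3) (.e (nat_lit 516131) (nat_lit 3) (.e (nat_lit 221197) (nat_lit 20) (.e (nat_lit 3248) (nat_lit 197) .nil)))))))) (.g (nat_lit 1) (.e (nat_lit 396635) (nat_lit 0) .nil) .nil))))) 
(.nd (nat_lit 8) (.nd (nat_lit 9) 
(.lf (nat_lit 588966) (.g (nat_lit 3509) (.e (nat_lit 532499) (nat_lit 1) (.e (nat_lit 57927) (nat_lit 282) (.e (nat_lit 163869) (nat_lit 2) (.e (nat_lit 196670) (nat_lit 14) (.e (nat_lit 73746) (nat_lit 3) (.e (nat_lit 516126) (nat_lit 2) (.e (nat_lit 213033) (nat_lit 12) (.e (nat_lit 163964) (nat_lit 25) .nil)))))))) (.g (nat_lit 1) (.e (nat_lit 395618) (nat_lit 0) .nil) .nil))) 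
(.lf (nat_lit 589478) (.g (nat_lit 1836) (.e (nat_lit 532503) (nat_lit 1) (.e (nat_lit 57847) (nat_lit 252) (.e (nat_lit 57407) (nat_lit 12) (.e (nat_lit 336456) (nat_lit 34) (.e (nat_lit 483379) (nat_lit 23) .nil))))) (.g (nat_lit 0) (.e (nat_lit 396486) (nat_lit 0) .nil) .nil)))) (.nd (nat_lit 9) 
(.lf (nat_lit 589222) (.g (nat_lit 3864) (.e (nat_lit 532501) (nat_lit 1) (.e (nat_lit 57926) (nat_lit 282) (.e (nat_lit 163869) (nat_lit 2) (.e (nat_lit 196666) (nat_lit 13) (.e (nat_lit 65571) (nat_lit 3) (.e (nat_lit 98341) (nat_lit 20) (.e (nat_lit 221204) (nat_lit 20) (.e (nat_lit 3253) (nat_lit 197) .nil)))))))) (.g (nat_lit 1) (.e (nat_lit 396044) (nat_lit 0) .nil) .nil))) 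
(.lf (nat_lit 589734) (.g (nat_lit 3115) (.e (nat_lit 532503) (nat_lit 1) (.e (nat_lit 57931) (nat_lit 282) (.e (nat_lit 163869) (nat_lit 2) (.e (nat_lit 196670) (nat_lit 14) (.e (nat_lit 73746) (nat_lit 3) (.e (nat_lit 516126) (nat_lit 2) (.e (nat_lit 213034) (nat_lit 12) (.e (nat_lit 163963) (nat_lit 25) .nil)))))))) (.g (nat_lit 1) (.e (nat_lit 396825) (nat_lit 0) .nil) .nil)))))) 
(.nd (nat_lit 7) (.nd (nat_lit 8) (.nd (nat_lit 9) 
(.lf (nat_lit 588902) (.g (nat_lit 3433) (.e (nat_lit 532499) (nat_lit 1) (.e (nat_lit 57927) (nat_lit 282) (.e (nat_lit 163868) (nat_lit 2) (.e (nat_lit 196670) (nat_lit 14) (.e (nat_lit 73746) (nat_lit 3) (.e (nat_lit 516126) (nat_lit 2) (.e (nat_lit 213035) (nat_lit 12) (.e (nat_lit 163965) (nat_lit 25) .nil)))))))) (.g (nat_lit 1) (.e (nat_lit 395504) (nat_lit 0) .nil) .nil))) 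
(.lf (nat_lit 589414) (.g (nat_lit 1175) (.e (nat_lit 532503) (nat_lit 1) (.e (nat_lit 57688) (nat_lit 156) (.e (nat_lit 163850) (nat_lit 0) (.e (nat_lit 3252) (nat_lit 197) .nil)))) (.g (nat_lit 0) (.e (nat_lit 396388) (nat_lit 0) .nil) .nil)))) (.nd (nat_lit 9) 
(.lf (nat_lit 589158) (.g (nat_lit 291) (.e (nat_lit 532501) (nat_lit 1) (.e (nat_lit 57851) (nat_lit 252) (.e (nat_lit 57406) (nat_lit 12) .nil))) (.g (nat_lit 0) (.e (nat_lit 395955) (nat_lit 0) .nil) .nil))) 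
(.lf (nat_lit 589670) (.g (nat_lit 3089) (.e (nat_lit 532503) (nat_lit 1) (.e (nat_lit 57931) (nat_lit 282) (.e (nat_lit 163867) (nat_lit 2) (.e (nat_lit 196670) (nat_lit 14) (.e (nat_lit 73746) (nat_lit 3) (.e (nat_lit 516131) (nat_lit 3) (.e (nat_lit 221198) (nat_lit 20) (.e (nat_lit 3244) (nat_lit 197) .nil)))))))) (.g (nat_lit 1) (.e (nat_lit 396724) (nat_lit 0) .nil) .nil))))) 
(.nd (nat_lit 8) (.nd (nat_lit 9) 
(.lf (nat_lit 589030) (.g (nat_lit 1764) (.e (nat_lit 532499) (nat_lit 1) (.e (nat_lit 57927) (nat_lit 282) (.e (nat_lit 163873) (nat_lit 3) (.e (nat_lit 204872) (nat_lit 30) .nil)))) (.g (nat_lit 0) (.e (nat_lit 395755) (nat_lit 0) .nil) .nil))) 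
(.lf (nat_lit 589542) (.g (nat_lit 643) (.e (nat_lit 532503) (nat_lit 1) (.e (nat_lit 57854) (nat_lit 252) (.e (nat_lit 57378) (nat_lit 3) .nil))) (.g (nat_lit 0) (.e (nat_lit 396557) (nat_lit 0) .nil) .nil)))) (.nd (nat_lit 9) 
(.lf (nat_lit 589286) (.g (nat_lit 3432) (.e (nat_lit 532501) (nat_lit 1) (.e (nat_lit 57927) (nat_lit 282) (.e (nat_lit 163874) (nat_lit 3) (.e (nat_lit 204863) (nat_lit 27) (.e (nat_lit 344117) (nat_lit 21) (.e (nat_lit 516123) (nat_lit 2) (.e (nat_lit 213036) (nat_lit 13) (.e (nat_lit 229433) (nat_lit 25) .nil)))))))) (.g (nat_lit 1) (.e (nat_lit 396178) (nat_lit 0) .nil) .nil))) 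
(.lf (nat_lit 589798) (.g (nat_lit 2763) (.e (nat_lit 532503) (nat_lit 1) (.e (nat_lit 57931) (nat_lit 282) (.e (nat_lit 163869) (nat_lit 2) (.e (nat_lit 196670) (nat_lit 14) (.e (nat_lit 73746) (nat_lit 3) (.e (nat_lit 516131) (nat_lit 3) (.e (nat_lit 221202) (nat_lit 20) (.e (nat_lit 3245) (nat_lit 197) .nil)))))))) (.g (nat_lit 1) (.e (nat_lit 396889) (nat_lit 0) .nil) .nil)))))))) 
(.nd (nat_lit 5) (.nd (nat_lit 6) (.nd (nat_lit 7) (.nd (nat_lit 8) (.nd (nat_lit 9) 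
(.lf (nat_lit 588822) (.g (nat_lit 3630) (.e (nat_lit 532499) (nat_lit 1) (.e (nat_lit 57926) (nat_lit 282) (.e (nat_lit 163869) (nat_lit 2) (.e (nat_lit 196670) (nat_lit 14) (.e (nat_lit 73746) (nat_lit 3) (.e (nat_lit 516126) (nat_lit 2) (.e (nat_lit 213033) (nat_lit 12) (.e (nat_lit 163962) (nat_lit 25) .nil)))))))) (.g (nat_lit 1) (.e (nat_lit 395366) (nat_lit 0) .nil) .nil))) 
(.lf (nat_lit 589334) (.g (nat_lit 2312) (.e (nat_lit 532502) (nat_lit 1) (.e (nat_lit 57688) (nat_lit 156) (.e (nat_lit 163902) (nat_lit 12) (.e (nat_lit 426566) (nat_lit 34) (.e (nat_lit 393289) (nat_lit 25) (.e (nat_lit 458788) (nat_lit 23) .nil)))))) (.g (nat_lit 1) (.e (nat_lit 396257) (nat_lit 0) .nil) .nil)))) (.nd (nat_lit 9) 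
(.lf (nat_lit 589078) (.g (nat_lit 3341) (.e (nat_lit 532499) (nat_lit 1) (.e (nat_lit 57931) (nat_lit 282) (.e (nat_lit 163869) (nat_lit 2) (.e (nat_lit 196670) (nat_lit 14) (.e (nat_lit 73746) (nat_lit 3) (.e (nat_lit 516124) (nat_lit 2) (.e (nat_lit 213035) (nat_lit 12) (.e (nat_lit 163963) (nat_lit 25) .nil)))))))) (.g (nat_lit 1) (.e (nat_lit 395824) (nat_lit 0) .nil) .nil))) 
(.lf (nat_lit 589590) (.g (nat_lit 3326) (.e (nat_lit 532503) (nat_lit 1) (.e (nat_lit 57931) (nat_lit 282) (.e (nat_lit 163867) (nat_lit 2) (.e (nat_lit 196664) (nat_lit 13) (.e (nat_lit 65571) (nat_lit 3) (.e (nat_lit 98341) (nat_lit 20) (.e (nat_lit 221204) (nat_lit 20) (.e (nat_lit 3253) (nat_lit 197) .nil)))))))) (.g (nat_lit 1) (.e (nat_lit 396615) (nat_lit 0) .nil) .nil))))) 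
(.nd (nat_lit 8) (.nd (nat_lit 9) 
(.lf (nat_lit 588950) (.g (nat_lit 2761) (.e (nat_lit 532499) (nat_lit 1) (.e (nat_lit 57927) (nat_lit 282) (.e (nat_lit 163869) (nat_lit 2) (.e (nat_lit 196668) (nat_lit 14) (.e (nat_lit 73747) (nat_lit 3) (.e (nat_lit 516131) (nat_lit 3) (.e (nat_lit 221198) (nat_lit 20) (.e (nat_lit 3241) (nat_lit 197) .nil)))))))) (.g (nat_lit 1) (.e (nat_lit 395602) (nat_lit 0) .nil) .nil))) 
(.lf (nat_lit 589462) (.g (nat_lit 1844) (.e (nat_lit 532503) (nat_lit 1) (.e (nat_lit 57846) (nat_lit 252) (.e (nat_lit 57407) (nat_lit 12) (.e (nat_lit 336456) (nat_lit 34) (.e (nat_lit 483387) (nat_lit 23) .nil))))) (.g (nat_lit 0) (.e (nat_lit 396469) (nat_lit 0) .nil) .nil)))) (.nd (nat_lit 9) 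
(.lf (nat_lit 589206) (.g (nat_lit 1697) (.e (nat_lit 532501) (nat_lit 1) (.e (nat_lit 57854) (nat_lit 252) (.e (nat_lit 57406) (nat_lit 12) (.e (nat_lit 336454) (nat_lit 34) (.e (nat_lit 483405) (nat_lit 26) .nil))))) (.g (nat_lit 0) (.e (nat_lit 396007) (nat_lit 0) .nil) .nil))) 
(.lf (nat_lit 589718) (.g (nat_lit 3256) (.e (nat_lit 532503) (nat_lit 1) (.e (nat_lit 57931) (nat_lit 282) (.e (nat_lit 163869) (nat_lit 2) (.e (nat_lit 196668) (nat_lit 14) (.e (nat_lit 73747) (nat_lit 3) (.e (nat_lit 516131) (nat_lit 3) (.e (nat_lit 221202) (nat_lit 20) (.e (nat_lit 3249) (nat_lit 197) .nil)))))))) (.g (nat_lit 1) (.e (nat_lit 396809) (nat_lit 0) .nil) .nil)))))) 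
(.nd (nat_lit 7) (.nd (nat_lit 8) (.nd (nat_lit 9) 
(.lf (nat_lit 588886) (.g (nat_lit 1743) (.e (nat_lit 532499) (nat_lit 1) (.e (nat_lit 57927) (nat_lit 282) (.e (nat_lit 163868) (nat_lit 2) (.e (nat_lit 196670) (nat_lit 14) (.e (nat_lit 73746) (nat_lit 3) .nil))))) (.g (nat_lit 0) (.e (nat_lit 395488) (nat_lit 0) .nil) .nil))) 
(.lf (nat_lit 589398) (.g (nat_lit 2911) (.e (nat_lit 532502) (nat_lit 1) (.e (nat_lit 57931) (nat_lit 282) (.e (nat_lit 163869) (nat_lit 2) (.e (nat_lit 196670) (nat_lit 14) (.e (nat_lit 73746) (nat_lit 3) (.e (nat_lit 516127) (nat_lit 2) (.e (nat_lit 213038) (nat_lit 13) (.e (nat_lit 229434) (nat_lit 25) .nil)))))))) (.g (nat_lit 1) (.e (nat_lit 396361) (nat_lit 0) .nil) .nil)))) 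
(.nd (nat_lit 9) 
(.lf (nat_lit 589142) (.g (nat_lit 3038) (.e (nat_lit 532501) (nat_lit 1) (.e (nat_lit 57691) (nat_lit 156) (.e (nat_lit 163875) (nat_lit 3) (.e (nat_lit 204837) (nat_lit 20) (.e (nat_lit 114719) (nat_lit 23) (.e (nat_lit 98367) (nat_lit 27) (.e (nat_lit 434232) (nat_lit 23) .nil))))))) (.g (nat_lit 1) (.e (nat_lit 395915) (nat_lit 0) .nil) .nil))) 
(.lf (nat_lit 589654) (.g (nat_lit 3499) (.e (nat_lit 532503) (nat_lit 1) (.e (nat_lit 57931) (nat_lit 282) (.e (nat_lit 163867) (nat_lit 2) (.e (nat_lit 196670) (nat_lit 14) (.e (nat_lit 73746) (nat_lit 3) (.e (nat_lit 516129) (nat_lit 3) (.e (nat_lit 221200) (nat_lit 20) (.e (nat_lit 3230) (nat_lit 197) .nil)))))))) (.g (nat_lit 1) (.e (nat_lit 396708) (nat_lit 0) .nil) .nil))))) 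
(.nd (nat_lit 8) (.nd (nat_lit 9) 
(.lf (nat_lit 589014) (.g (nat_lit 3002) (.e (nat_lit 532499) (nat_lit 1) (.e (nat_lit 57927) (nat_lit 282) (.e (nat_lit 163871) (nat_lit 2) (.e (nat_lit 196670) (nat_lit 14) (.e (nat_lit 73746) (nat_lit 3) (.e (nat_lit 516126) (nat_lit 2) (.e (nat_lit 213035) (nat_lit 12) (.e (nat_lit 163963) (nat_lit 25) .nil)))))))) (.g (nat_lit 1) (.e (nat_lit 395739) (nat_lit 0) .nil) .nil))) 
(.lf (nat_lit 589526) (.g (nat_lit 3229) (.e (nat_lit 532503) (nat_lit 1) (.e (nat_lit 57849) (nat_lit 252) (.e (nat_lit 57379) (nat_lit 3) (.e (nat_lit 98341) (nat_lit 20) (.e (nat_lit 221210) (nat_lit 22) (.e (nat_lit 196665) (nat_lit 13) (.e (nat_lit 65637) (nat_lit 15) (.e (nat_lit 3253) (nat_lit 197) .nil)))))))) (.g (nat_lit 1) (.e (nat_lit 396540) (nat_lit 0) .nil) .nil)))) 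
(.nd (nat_lit 9) 
(.lf (nat_lit 589270) (.g (nat_lit 4022) (.e (nat_lit 532501) (nat_lit 1) (.e (nat_lit 57927) (nat_lit 282) (.e (nat_lit 163869) (nat_lit 2) (.e (nat_lit 196670) (nat_lit 14) (.e (nat_lit 73746) (nat_lit 3) (.e (nat_lit 516124) (nat_lit 2) (.e (nat_lit 213035) (nat_lit 12) (.e (nat_lit 163964) (nat_lit 25) .nil)))))))) (.g (nat_lit 1) (.e (nat_lit 396140) (nat_lit 0) .nil) .nil))) 
(.lf (nat_lit 589782) (.g (nat_lit 3601) (.e (nat_lit 532503) (nat_lit 1) (.e (nat_lit 57931) (nat_lit 282) (.e (nat_lit 163869) (nat_lit 2) (.e (nat_lit 196670) (nat_lit 14) (.e (nat_lit 73746) (nat_lit 3) (.e (nat_lit 516131) (nat_lit 3) (.e (nat_lit 221196) (nat_lit 20) (.e (nat_lit 3230) (nat_lit 197) .nil)))))))) (.g (nat_lit 1) (.e (nat_lit 396873) (nat_lit 0) .nil) .nil))))))) 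
(.nd (nat_lit 6) (.nd (nat_lit 7) (.nd (nat_lit 8) (.nd (nat_lit 9) 
(.lf (nat_lit 588854) (.g (nat_lit 2327) (.e (nat_lit 532499) (nat_lit 1) (.e (nat_lit 57927) (nat_lit 282) (.e (nat_lit 163866) (nat_lit 2) (.e (nat_lit 196670) (nat_lit 14) (.e (nat_lit 73746) (nat_lit 3) (.e (nat_lit 516127) (nat_lit 2) (.e (nat_lit 213034) (nat_lit 12) (.e (nat_lit 163963) (nat_lit 25) .nil)))))))) (.g (nat_lit 1) (.e (nat_lit 395412) (nat_lit 0) .nil) .nil))) 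
(.lf (nat_lit 589366) (.g (nat_lit 1433) (.e (nat_lit 532502) (nat_lit 1) (.e (nat_lit 57692) (nat_lit 156) (.e (nat_lit 163907) (nat_lit 12) (.e (nat_lit 426481) (nat_lit 27) .nil)))) (.g (nat_lit 0) (.e (nat_lit 396305) (nat_lit 0) .nil) .nil)))) (.nd (nat_lit 9) 
(.lf (nat_lit 589110) (.g (nat_lit 1405) (.e (nat_lit 532500) (nat_lit 1) (.e (nat_lit 57852) (nat_lit 252) (.e (nat_lit 57406) (nat_lit 12) (.e (nat_lit 336454) (nat_lit 34) .nil)))) (.g (nat_lit 0) (.e (nat_lit 395863) (nat_lit 0) .nil) .nil))) 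
(.lf (nat_lit 589622) (.g (nat_lit 2935) (.e (nat_lit 532503) (nat_lit 1) (.e (nat_lit 57931) (nat_lit 282) (.e (nat_lit 163867) (nat_lit 2) (.e (nat_lit 196668) (nat_lit 14) (.e (nat_lit 73747) (nat_lit 3) (.e (nat_lit 516131) (nat_lit 3) (.e (nat_lit 221196) (nat_lit 20) (.e (nat_lit 3230) (nat_lit 197) .nil)))))))) (.g (nat_lit 1) (.e (nat_lit 396654) (nat_lit 0) .nil) .nil))))) 
(.nd (nat_lit 8) (.nd (nat_lit 9) 
(.lf (nat_lit 588982) (.g (nat_lit 2416) (.e (nat_lit 532499) (nat_lit 1) (.e (nat_lit 57927) (nat_lit 282) (.e (nat_lit 163869) (nat_lit 2) (.e (nat_lit 196670) (nat_lit 14) (.e (nat_lit 73746) (nat_lit 3) (.e (nat_lit 516129) (nat_lit 3) (.e (nat_lit 221197) (nat_lit 20) (.e (nat_lit 3241) (nat_lit 197) .nil)))))))) (.g (nat_lit 1) (.e (nat_lit 395634) (nat_lit 0) .nil) .nil))) 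
(.lf (nat_lit 589494) (.g (nat_lit 2700) (.e (nat_lit 532503) (nat_lit 1) (.e (nat_lit 57847) (nat_lit 252) (.e (nat_lit 57411) (nat_lit 12) (.e (nat_lit 336454) (nat_lit 34) (.e (nat_lit 483385) (nat_lit 23) (.e (nat_lit 336260) (nat_lit 15) (.e (nat_lit 3254) (nat_lit 197) .nil))))))) (.g (nat_lit 1) (.e (nat_lit 396504) (nat_lit 0) .nil) .nil)))) (.nd (nat_lit 9) 
(.lf (nat_lit 589238) (.g (nat_lit 2994) (.e (nat_lit 532501) (nat_lit 1) (.e (nat_lit 57926) (nat_lit 282) (.e (nat_lit 163869) (nat_lit 2) (.e (nat_lit 196670) (nat_lit 14) (.e (nat_lit 73746) (nat_lit 3) (.e (nat_lit 516127) (nat_lit 2) (.e (nat_lit 213035) (nat_lit 12) (.e (nat_lit 163963) (nat_lit 25) .nil)))))))) (.g (nat_lit 1) (.e (nat_lit 396063) (nat_lit 0) .nil) .nil))) 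
(.lf (nat_lit 589750) (.g (nat_lit 2974) (.e (nat_lit 532503) (nat_lit 1) (.e (nat_lit 57931) (nat_lit 282) (.e (nat_lit 163869) (nat_lit 2) (.e (nat_lit 196670) (nat_lit 14) (.e (nat_lit 73746) (nat_lit 3) (.e (nat_lit 516129) (nat_lit 3) (.e (nat_lit 221195) (nat_lit 20) (.e (nat_lit 3248) (nat_lit 197) .nil)))))))) (.g (nat_lit 1) (.e (nat_lit 396841) (nat_lit 0) .nil) .nil)))))) 
(.nd (nat_lit 7) (.nd (nat_lit 8) (.nd (nat_lit 9) 
(.lf (nat_lit 588918) (.g (nat_lit 3851) (.e (nat_lit 532499) (nat_lit 1) (.e (nat_lit 57927) (nat_lit 282) (.e (nat_lit 163868) (nat_lit 2) (.e (nat_lit 196670) (nat_lit 14) (.e (nat_lit 73746) (nat_lit 3) (.e (nat_lit 516129) (nat_lit 3) (.e (nat_lit 221202) (nat_lit 20) (.e (nat_lit 3249) (nat_lit 197) .nil)))))))) (.g (nat_lit 1) (.e (nat_lit 395520) (nat_lit 0) .nil) .nil))) 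
(.lf (nat_lit 589430) (.g (nat_lit 2613) (.e (nat_lit 532503) (nat_lit 1) (.e (nat_lit 57688) (nat_lit 156) (.e (nat_lit 163905) (nat_lit 12) (.e (nat_lit 426566) (nat_lit 34) (.e (nat_lit 393286) (nat_lit 25) .nil))))) (.g (nat_lit 0) (.e (nat_lit 396409) (nat_lit 0) .nil) .nil)))) (.nd (nat_lit 9) 
(.lf (nat_lit 589174) (.g (nat_lit 2150) (.e (nat_lit 532501) (nat_lit 1) (.e (nat_lit 57851) (nat_lit 252) (.e (nat_lit 57406) (nat_lit 12) (.e (nat_lit 336456) (nat_lit 34) (.e (nat_lit 483391) (nat_lit 23) (.e (nat_lit 336237) (nat_lit 15) (.e (nat_lit 3248) (nat_lit 197) .nil))))))) (.g (nat_lit 1) (.e (nat_lit 395971) (nat_lit 0) .nil) .nil))) 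
(.lf (nat_lit 589686) (.g (nat_lit 3082) (.e (nat_lit 532503) (nat_lit 1) (.e (nat_lit 57931) (nat_lit 282) (.e (nat_lit 163869) (nat_lit 2) (.e (nat_lit 196668) (nat_lit 14) (.e (nat_lit 73746) (nat_lit 3) (.e (nat_lit 516129) (nat_lit 3) (.e (nat_lit 221197) (nat_lit 20) (.e (nat_lit 3248) (nat_lit 197) .nil)))))))) (.g (nat_lit 1) (.e (nat_lit 396774) (nat_lit 0) .nil) .nil))))) 
(.nd (nat_lit 8) (.nd (nat_lit 9) 
(.lf (nat_lit 589046) (.g (nat_lit 2833) (.e (nat_lit 532499) (nat_lit 1) (.e (nat_lit 57927) (nat_lit 282) (.e (nat_lit 163874) (nat_lit 3) (.e (nat_lit 204862) (nat_lit 27) (.e (nat_lit 344117) (nat_lit 21) (.e (nat_lit 516123) (nat_lit 2) (.e (nat_lit 213033) (nat_lit 12) (.e (nat_lit 163963) (nat_lit 25) .nil)))))))) (.g (nat_lit 1) (.e (nat_lit 395776) (nat_lit 0) .nil) .nil))) 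
(.lf (nat_lit 589558) (.g (nat_lit 2622) (.e (nat_lit 532503) (nat_lit 1) (.e (nat_lit 57929) (nat_lit 282) (.e (nat_lit 163869) (nat_lit 2) (.e (nat_lit 196668) (nat_lit 14) (.e (nat_lit 73747) (nat_lit 3) (.e (nat_lit 516129) (nat_lit 3) (.e (nat_lit 221196) (nat_lit 20) (.e (nat_lit 3248) (nat_lit 197) .nil)))))))) (.g (nat_lit 1) (.e (nat_lit 396576) (nat_lit 0) .nil) .nil)))) 
(.nd (nat_lit 9) 
(.lf (nat_lit 589302) (.g (nat_lit 2233) (.e (nat_lit 532501) (nat_lit 1) (.e (nat_lit 57929) (nat_lit 282) (.e (nat_lit 163869) (nat_lit 2) (.e (nat_lit 196668) (nat_lit 14) (.e (nat_lit 73746) (nat_lit 3) .nil))))) (.g (nat_lit 0) (.e (nat_lit 396205) (nat_lit 0) .nil) .nil))) 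
(.lf (nat_lit 589814) (.g (nat_lit 2982) (.e (nat_lit 532503) (nat_lit 1) (.e (nat_lit 57931) (nat_lit 282) (.e (nat_lit 163874) (nat_lit 3) (.e (nat_lit 204862) (nat_lit 27) (.e (nat_lit 344117) (nat_lit 21) (.e (nat_lit 516129) (nat_lit 3) (.e (nat_lit 221196) (nat_lit 20) (.e (nat_lit 3248) (nat_lit 197) .nil)))))))) (.g (nat_lit 1) (.e (nat_lit 396911) (nat_lit 0) .nil) .nil))))))))) 
(.nd (nat_lit 4) (.nd (nat_lit 5) (.nd (nat_lit 6) (.nd (nat_lit 7) (.nd (nat_lit 8) 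
(.nd (nat_lit 9) 
(.lf (nat_lit 588814) (.g (nat_lit 2900) (.e (nat_lit 532499) (nat_lit 1) (.e (nat_lit 57926) (nat_lit 282) (.e (nat_lit 163869) (nat_lit 2) (.e (nat_lit 196670) (nat_lit 14) (.e (nat_lit 73746) (nat_lit 3) (.e (nat_lit 516122) (nat_lit 2) (.e (nat_lit 213035) (nat_lit 12) (.e (nat_lit 163965) (nat_lit 25) .nil)))))))) (.g (nat_lit 1) (.e (nat_lit 395358) (nat_lit 0) .nil) .nil))) 
(.lf (nat_lit 589326) (.g (nat_lit 1368) (.e (nat_lit 532502) (nat_lit 1) (.e (nat_lit 57686) (nat_lit 156) (.e (nat_lit 163903) (nat_lit 12) (.e (nat_lit 426566) (nat_lit 34) .nil)))) (.g (nat_lit 0) (.e (nat_lit 396247) (nat_lit 0) .nil) .nil)))) (.nd (nat_lit 9) 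
(.lf (nat_lit 589070) (.g (nat_lit 3179) (.e (nat_lit 532499) (nat_lit 1) (.e (nat_lit 57931) (nat_lit 282) (.e (nat_lit 163867) (nat_lit 2) (.e (nat_lit 196668) (nat_lit 14) (.e (nat_lit 73746) (nat_lit 3) (.e (nat_lit 516129) (nat_lit 3) (.e (nat_lit 221204) (nat_lit 20) (.e (nat_lit 3253) (nat_lit 197) .nil)))))))) (.g (nat_lit 1) (.e (nat_lit 395807) (nat_lit 0) .nil) .nil))) 
(.lf (nat_lit 589582) (.g (nat_lit 2719) (.e (nat_lit 532503) (nat_lit 1) (.e (nat_lit 57931) (nat_lit 282) (.e (nat_lit 163866) (nat_lit 2) (.e (nat_lit 196670) (nat_lit 14) (.e (nat_lit 73746) (nat_lit 3) (.e (nat_lit 516129) (nat_lit 3) (.e (nat_lit 221202) (nat_lit 20) (.e (nat_lit 3249) (nat_lit 197) .nil)))))))) (.g (nat_lit 1) (.e (nat_lit 396605) (nat_lit 0) .nil) .nil))))) 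
(.nd (nat_lit 8) (.nd (nat_lit 9) 
(.lf (nat_lit 588942) (.g (nat_lit 2348) (.e (nat_lit 532499) (nat_lit 1) (.e (nat_lit 57927) (nat_lit 282) (.e (nat_lit 163869) (nat_lit 2) (.e (nat_lit 196668) (nat_lit 14) (.e (nat_lit 73747) (nat_lit 3) (.e (nat_lit 516129) (nat_lit 3) (.e (nat_lit 221197) (nat_lit 20) (.e (nat_lit 3237) (nat_lit 197) .nil)))))))) (.g (nat_lit 1) (.e (nat_lit 395591) (nat_lit 0) .nil) .nil))) 
(.lf (nat_lit 589454) (.g (nat_lit 2222) (.e (nat_lit 532503) (nat_lit 1) (.e (nat_lit 57844) (nat_lit 252) (.e (nat_lit 57406) (nat_lit 12) (.e (nat_lit 336456) (nat_lit 34) (.e (nat_lit 483393) (nat_lit 23) .nil))))) (.g (nat_lit 0) (.e (nat_lit 396461) (nat_lit 0) .nil) .nil)))) (.nd (nat_lit 9) 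
(.lf (nat_lit 589198) (.g (nat_lit 554) (.e (nat_lit 532501) (nat_lit 1) (.e (nat_lit 57854) (nat_lit 252) (.e (nat_lit 57378) (nat_lit 3) .nil))) (.g (nat_lit 0) (.e (nat_lit 395998) (nat_lit 0) .nil) .nil))) 
(.lf (nat_lit 589710) (.g (nat_lit 3236) (.e (nat_lit 532503) (nat_lit 1) (.e (nat_lit 57931) (nat_lit 282) (.e (nat_lit 163869) (nat_lit 2) (.e (nat_lit 196668) (nat_lit 14) (.e (nat_lit 73747) (nat_lit 3) (.e (nat_lit 516131) (nat_lit 3) (.e (nat_lit 221197) (nat_lit 20) (.e (nat_lit 3236) (nat_lit 197) .nil)))))))) (.g (nat_lit 1) (.e (nat_lit 396801) (nat_lit 0) .nil) .nil)))))) 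
(.nd (nat_lit 7) (.nd (nat_lit 8) (.nd (nat_lit 9) 
(.lf (nat_lit 588878) (.g (nat_lit 2697) (.e (nat_lit 532499) (nat_lit 1) (.e (nat_lit 57927) (nat_lit 282) (.e (nat_lit 163868) (nat_lit 2) (.e (nat_lit 196668) (nat_lit 14) (.e (nat_lit 73747) (nat_lit 3) (.e (nat_lit 516131) (nat_lit 3) (.e (nat_lit 221197) (nat_lit 20) (.e (nat_lit 3236) (nat_lit 197) .nil)))))))) (.g (nat_lit 1) (.e (nat_lit 395480) (nat_lit 0) .nil) .nil))) 
(.lf (nat_lit 589390) (.g (nat_lit 3174) (.e (nat_lit 532502) (nat_lit 1) (.e (nat_lit 57854) (nat_lit 252) (.e (nat_lit 57378) (nat_lit 3) (.e (nat_lit 98337) (nat_lit 19) .nil)))) (.g (nat_lit 0) (.e (nat_lit 396351) (nat_lit 0) .nil) .nil)))) (.nd (nat_lit 9) 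
(.lf (nat_lit 589134) (.g (nat_lit 1716) (.e (nat_lit 532500) (nat_lit 1) (.e (nat_lit 57927) (nat_lit 282) (.e (nat_lit 163871) (nat_lit 2) (.e (nat_lit 196670) (nat_lit 14) (.e (nat_lit 73746) (nat_lit 3) .nil))))) (.g (nat_lit 0) (.e (nat_lit 395903) (nat_lit 0) .nil) .nil))) 
(.lf (nat_lit 589646) (.g (nat_lit 2672) (.e (nat_lit 532503) (nat_lit 1) (.e (nat_lit 57931) (nat_lit 282) (.e (nat_lit 163867) (nat_lit 2) (.e (nat_lit 196670) (nat_lit 14) (.e (nat_lit 73746) (nat_lit 3) (.e (nat_lit 516129) (nat_lit 3) (.e (nat_lit 221197) (nat_lit 20) (.e (nat_lit 3236) (nat_lit 197) .nil)))))))) (.g (nat_lit 1) (.e (nat_lit 396700) (nat_lit 0) .nil) .nil))))) 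
(.nd (nat_lit 8) (.nd (nat_lit 9) 
(.lf (nat_lit 589006) (.g (nat_lit 2374) (.e (nat_lit 532499) (nat_lit 1) (.e (nat_lit 57927) (nat_lit 282) (.e (nat_lit 163871) (nat_lit 2) (.e (nat_lit 196670) (nat_lit 14) (.e (nat_lit 73746) (nat_lit 3) (.e (nat_lit 516124) (nat_lit 2) (.e (nat_lit 213033) (nat_lit 12) (.e (nat_lit 163964) (nat_lit 25) .nil)))))))) (.g (nat_lit 1) (.e (nat_lit 395731) (nat_lit 0) .nil) .nil))) 
(.lf (nat_lit 589518) (.g (nat_lit 2387) (.e (nat_lit 532503) (nat_lit 1) (.e (nat_lit 57848) (nat_lit 252) (.e (nat_lit 57445) (nat_lit 19) (.e (nat_lit 393229) (nat_lit 9) (.e (nat_lit 336085) (nat_lit 9) (.e (nat_lit 336284) (nat_lit 15) (.e (nat_lit 3249) (nat_lit 197) .nil))))))) (.g (nat_lit 1) (.e (nat_lit 396531) (nat_lit 0) .nil) .nil)))) (.nd (nat_lit 9) 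
(.lf (nat_lit 589262) (.g (nat_lit 2712) (.e (nat_lit 532501) (nat_lit 1) (.e (nat_lit 57927) (nat_lit 282) (.e (nat_lit 163869) (nat_lit 2) (.e (nat_lit 196668) (nat_lit 14) (.e (nat_lit 73746) (nat_lit 3) .nil))))) (.g (nat_lit 0) (.e (nat_lit 396123) (nat_lit 0) .nil) .nil))) 
(.lf (nat_lit 589774) (.g (nat_lit 3281) (.e (nat_lit 532503) (nat_lit 1) (.e (nat_lit 57931) (nat_lit 282) (.e (nat_lit 163869) (nat_lit 2) (.e (nat_lit 196670) (nat_lit 14) (.e (nat_lit 73746) (nat_lit 3) (.e (nat_lit 516129) (nat_lit 3) (.e (nat_lit 221200) (nat_lit 20) (.e (nat_lit 3252) (nat_lit 197) .nil)))))))) (.g (nat_lit 1) (.e (nat_lit 396865) (nat_lit 0) .nil) .nil))))))) 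
(.nd (nat_lit 6) (.nd (nat_lit 7) (.nd (nat_lit 8) (.nd (nat_lit 9) 
(.lf (nat_lit 588846) (.g (nat_lit 2742) (.e (nat_lit 532499) (nat_lit 1) (.e (nat_lit 57927) (nat_lit 282) (.e (nat_lit 163866) (nat_lit 2) (.e (nat_lit 196670) (nat_lit 14) (.e (nat_lit 73746) (nat_lit 3) (.e (nat_lit 516124) (nat_lit 2) (.e (nat_lit 213034) (nat_lit 12) (.e (nat_lit 163963) (nat_lit 25) .nil)))))))) (.g (nat_lit 1) (.e (nat_lit 395404) (nat_lit 0) .nil) .nil))) 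
(.lf (nat_lit 589358) (.g (nat_lit 1399) (.e (nat_lit 532502) (nat_lit 1) (.e (nat_lit 57691) (nat_lit 156) (.e (nat_lit 163907) (nat_lit 12) (.e (nat_lit 426566) (nat_lit 34) .nil)))) (.g (nat_lit 0) (.e (nat_lit 396294) (nat_lit 0) .nil) .nil)))) (.nd (nat_lit 9) 
(.lf (nat_lit 589102) (.g (nat_lit 1933) (.e (nat_lit 532500) (nat_lit 1) (.e (nat_lit 57692) (nat_lit 156) (.e (nat_lit 163906) (nat_lit 12) (.e (nat_lit 426566) (nat_lit 34) (.e (nat_lit 393282) (nat_lit 24) .nil))))) (.g (nat_lit 0) (.e (nat_lit 395852) (nat_lit 0) .nil) .nil))) 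
(.lf (nat_lit 589614) (.g (nat_lit 3033) (.e (nat_lit 532503) (nat_lit 1) (.e (nat_lit 57931) (nat_lit 282) (.e (nat_lit 163867) (nat_lit 2) (.e (nat_lit 196668) (nat_lit 14) (.e (nat_lit 73747) (nat_lit 3) (.e (nat_lit 516129) (nat_lit 3) (.e (nat_lit 221196) (nat_lit 20) (.e (nat_lit 3256) (nat_lit 197) .nil)))))))) (.g (nat_lit 1) (.e (nat_lit 396646) (nat_lit 0) .nil) .nil))))) 
(.nd (nat_lit 8) (.nd (nat_lit 9) 
(.lf (nat_lit 588974) (.g (nat_lit 3257) (.e (nat_lit 532499) (nat_lit 1) (.e (nat_lit 57927) (nat_lit 282) (.e (nat_lit 163869) (nat_lit 2) (.e (nat_lit 196670) (nat_lit 14) (.e (nat_lit 73746) (nat_lit 3) (.e (nat_lit 516127) (nat_lit 2) (.e (nat_lit 213033) (nat_lit 12) (.e (nat_lit 163964) (nat_lit 25) .nil)))))))) (.g (nat_lit 1) (.e (nat_lit 395626) (nat_lit 0) .nil) .nil))) 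
(.lf (nat_lit 589486) (.g (nat_lit 1834) (.e (nat_lit 532503) (nat_lit 1) (.e (nat_lit 57847) (nat_lit 252) (.e (nat_lit 57409) (nat_lit 12) (.e (nat_lit 336454) (nat_lit 34) (.e (nat_lit 483404) (nat_lit 26) .nil))))) (.g (nat_lit 0) (.e (nat_lit 396494) (nat_lit 0) .nil) .nil)))) (.nd (nat_lit 9) 
(.lf (nat_lit 589230) (.g (nat_lit 2797) (.e (nat_lit 532501) (nat_lit 1) (.e (nat_lit 57926) (nat_lit 282) (.e (nat_lit 163869) (nat_lit 2) (.e (nat_lit 196670) (nat_lit 14) (.e (nat_lit 73746) (nat_lit 3) (.e (nat_lit 516124) (nat_lit 2) (.e (nat_lit 213035) (nat_lit 12) (.e (nat_lit 163965) (nat_lit 25) .nil)))))))) (.g (nat_lit 1) (.e (nat_lit 396055) (nat_lit 0) .nil) .nil))) 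
(.lf (nat_lit 589742) (.g (nat_lit 2783) (.e (nat_lit 532503) (nat_lit 1) (.e (nat_lit 57931) (nat_lit 282) (.e (nat_lit 163869) (nat_lit 2) (.e (nat_lit 196670) (nat_lit 14) (.e (nat_lit 73746) (nat_lit 3) (.e (nat_lit 516127) (nat_lit 2) (.e (nat_lit 213033) (nat_lit 12) (.e (nat_lit 163964) (nat_lit 25) .nil)))))))) (.g (nat_lit 1) (.e (nat_lit 396833) (nat_lit 0) .nil) .nil)))))) 
(.nd (nat_lit 7) (.nd (nat_lit 8) (.nd (nat_lit 9) 
(.lf (nat_lit 588910) (.g (nat_lit 3450) (.e (nat_lit 532499) (nat_lit 1) (.e (nat_lit 57927) (nat_lit 282) (.e (nat_lit 163868) (nat_lit 2) (.e (nat_lit 196670) (nat_lit 14) (.e (nat_lit 73746) (nat_lit 3) (.e (nat_lit 516127) (nat_lit 2) (.e (nat_lit 213035) (nat_lit 12) (.e (nat_lit 163964) (nat_lit 25) .nil)))))))) (.g (nat_lit 1) (.e (nat_lit 395512) (nat_lit 0) .nil) .nil))) 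
(.lf (nat_lit 589422) (.g (nat_lit 3484) (.e (nat_lit 532503) (nat_lit 1) (.e (nat_lit 57688) (nat_lit 156) (.e (nat_lit 163902) (nat_lit 12) (.e (nat_lit 426566) (nat_lit 34) (.e (nat_lit 393284) (nat_lit 24) (.e (nat_lit 434233) (nat_lit 23) .nil)))))) (.g (nat_lit 1) (.e (nat_lit 396397) (nat_lit 0) .nil) .nil)))) (.nd (nat_lit 9) 
(.lf (nat_lit 589166) (.g (nat_lit 2427) (.e (nat_lit 532501) (nat_lit 1) (.e (nat_lit 57851) (nat_lit 252) (.e (nat_lit 57406) (nat_lit 12) (.e (nat_lit 336456) (nat_lit 34) (.e (nat_lit 483379) (nat_lit 23) (.e (nat_lit 336258) (nat_lit 15) (.e (nat_lit 3248) (nat_lit 197) .nil))))))) (.g (nat_lit 1) (.e (nat_lit 395963) (nat_lit 0) .nil) .nil))) 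
(.lf (nat_lit 589678) (.g (nat_lit 3004) (.e (nat_lit 532503) (nat_lit 1) (.e (nat_lit 57931) (nat_lit 282) (.e (nat_lit 163869) (nat_lit 2) (.e (nat_lit 196666) (nat_lit 13) (.e (nat_lit 65569) (nat_lit 3) (.e (nat_lit 98342) (nat_lit 20) (.e (nat_lit 221198) (nat_lit 20) (.e (nat_lit 3244) (nat_lit 197) .nil)))))))) (.g (nat_lit 1) (.e (nat_lit 396743) (nat_lit 0) .nil) .nil))))) 
(.nd (nat_lit 8) (.nd (nat_lit 9) 
(.lf (nat_lit 589038) (.g (nat_lit 3203) (.e (nat_lit 532499) (nat_lit 1) (.e (nat_lit 57927) (nat_lit 282) (.e (nat_lit 163874) (nat_lit 3) (.e (nat_lit 204854) (nat_lit 26) (.e (nat_lit 336019) (nat_lit 3) (.e (nat_lit 98342) (nat_lit 20) (.e (nat_lit 221198) (nat_lit 20) (.e (nat_lit 3250) (nat_lit 197) .nil)))))))) (.g (nat_lit 1) (.e (nat_lit 395768) (nat_lit 0) .nil) .nil))) 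
(.lf (nat_lit 589550) (.g (nat_lit 2557) (.e (nat_lit 532503) (nat_lit 1) (.e (nat_lit 57924) (nat_lit 282) (.e (nat_lit 163867) (nat_lit 2) (.e (nat_lit 196670) (nat_lit 14) (.e (nat_lit 73746) (nat_lit 3) (.e (nat_lit 516129) (nat_lit 3) (.e (nat_lit 221198) (nat_lit 20) (.e (nat_lit 3248) (nat_lit 197) .nil)))))))) (.g (nat_lit 1) (.e (nat_lit 396567) (nat_lit 0) .nil) .nil)))) 
(.nd (nat_lit 9) 
(.lf (nat_lit 589294) (.g (nat_lit 4282) (.e (nat_lit 532501) (nat_lit 1) (.e (nat_lit 57927) (nat_lit 282) (.e (nat_lit 163884) (nat_lit 5) (.e (nat_lit 221210) (nat_lit 22) (.e (nat_lit 196656) (nat_lit 11) (.e (nat_lit 16425) (nat_lit 7) (.e (nat_lit 409617) (nat_lit 10) (.e (nat_lit 604) (nat_lit 45) .nil)))))))) (.g (nat_lit 1) (.e (nat_lit 396186) (nat_lit 0) .nil) .nil))) 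
(.lf (nat_lit 589806) (.g (nat_lit 2867) (.e (nat_lit 532503) (nat_lit 1) (.e (nat_lit 57931) (nat_lit 282) (.e (nat_lit 163874) (nat_lit 3) (.e (nat_lit 204854) (nat_lit 26) (.e (nat_lit 336019) (nat_lit 3) (.e (nat_lit 98342) (nat_lit 20) (.e (nat_lit 221197) (nat_lit 20) (.e (nat_lit 3248) (nat_lit 197) .nil)))))))) (.g (nat_lit 1) (.e (nat_lit 396903) (nat_lit 0) .nil) .nil)))))))) 
(.nd (nat_lit 5) (.nd (nat_lit 6) (.nd (nat_lit 7) (.nd (nat_lit 8) (.nd (nat_lit 9) 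
(.lf (nat_lit 588830) (.g (nat_lit 3414) (.e (nat_lit 532499) (nat_lit 1) (.e (nat_lit 57926) (nat_lit 282) (.e (nat_lit 163869) (nat_lit 2) (.e (nat_lit 196670) (nat_lit 14) (.e (nat_lit 73746) (nat_lit 3) (.e (nat_lit 516127) (nat_lit 2) (.e (nat_lit 213035) (nat_lit 12) (.e (nat_lit 163964) (nat_lit 25) .nil)))))))) (.g (nat_lit 1) (.e (nat_lit 395374) (nat_lit 0) .nil) .nil))) 
(.lf (nat_lit 589342) (.g (nat_lit 1666) (.e (nat_lit 532502) (nat_lit 1) (.e (nat_lit 57688) (nat_lit 156) (.e (nat_lit 163903) (nat_lit 12) (.e (nat_lit 426567) (nat_lit 34) (.e (nat_lit 393289) (nat_lit 25) .nil))))) (.g (nat_lit 0) (.e (nat_lit 396265) (nat_lit 0) .nil) .nil)))) (.nd (nat_lit 9) 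
(.lf (nat_lit 589086) (.g (nat_lit 3602) (.e (nat_lit 532499) (nat_lit 1) (.e (nat_lit 57931) (nat_lit 282) (.e (nat_lit 163869) (nat_lit 2) (.e (nat_lit 196670) (nat_lit 14) (.e (nat_lit 73746) (nat_lit 3) (.e (nat_lit 516127) (nat_lit 2) (.e (nat_lit 213033) (nat_lit 12) (.e (nat_lit 163962) (nat_lit 25) .nil)))))))) (.g (nat_lit 1) (.e (nat_lit 395832) (nat_lit 0) .nil) .nil))) 
(.lf (nat_lit 589598) (.g (nat_lit 3240) (.e (nat_lit 532503) (nat_lit 1) (.e (nat_lit 57931) (nat_lit 282) (.e (nat_lit 163867) (nat_lit 2) (.e (nat_lit 196668) (nat_lit 14) (.e (nat_lit 73746) (nat_lit 3) (.e (nat_lit 516129) (nat_lit 3) (.e (nat_lit 221197) (nat_lit 20) (.e (nat_lit 3248) (nat_lit 197) .nil)))))))) (.g (nat_lit 1) (.e (nat_lit 396627) (nat_lit 0) .nil) .nil))))) 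
(.nd (nat_lit 8) (.nd (nat_lit 9) 
(.lf (nat_lit 588958) (.g (nat_lit 3130) (.e (nat_lit 532499) (nat_lit 1) (.e (nat_lit 57927) (nat_lit 282) (.e (nat_lit 163869) (nat_lit 2) (.e (nat_lit 196670) (nat_lit 14) (.e (nat_lit 73746) (nat_lit 3) (.e (nat_lit 516124) (nat_lit 2) (.e (nat_lit 213013) (nat_lit 9) (.e (nat_lit 2505) (nat_lit 157) (.e (nat_lit 3249) (nat_lit 197) .nil))))))))) (.g (nat_lit 1) (.e (nat_lit 395610) (nat_lit 0) .nil) .nil))) 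
(.lf (nat_lit 589470) (.g (nat_lit 2323) (.e (nat_lit 532503) (nat_lit 1) (.e (nat_lit 57847) (nat_lit 252) (.e (nat_lit 57407) (nat_lit 12) (.e (nat_lit 336452) (nat_lit 34) .nil)))) (.g (nat_lit 0) (.e (nat_lit 396478) (nat_lit 0) .nil) .nil)))) (.nd (nat_lit 9) 
(.lf (nat_lit 589214) (.g (nat_lit 3565) (.e (nat_lit 532501) (nat_lit 1) (.e (nat_lit 57854) (nat_lit 252) (.e (nat_lit 57409) (nat_lit 12) (.e (nat_lit 336454) (nat_lit 34) (.e (nat_lit 483385) (nat_lit 23) (.e (nat_lit 336260) (nat_lit 15) (.e (nat_lit 3255) (nat_lit 197) .nil))))))) (.g (nat_lit 1) (.e (nat_lit 396015) (nat_lit 0) .nil) .nil))) 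
(.lf (nat_lit 589726) (.g (nat_lit 3893) (.e (nat_lit 532503) (nat_lit 1) (.e (nat_lit 57931) (nat_lit 282) (.e (nat_lit 163869) (nat_lit 2) (.e (nat_lit 196670) (nat_lit 14) (.e (nat_lit 73746) (nat_lit 3) (.e (nat_lit 516124) (nat_lit 2) (.e (nat_lit 213035) (nat_lit 12) (.e (nat_lit 163964) (nat_lit 25) .nil)))))))) (.g (nat_lit 1) (.e (nat_lit 396817) (nat_lit 0) .nil) .nil)))))) 
(.nd (nat_lit 7) (.nd (nat_lit 8) (.nd (nat_lit 9) 
(.lf (nat_lit 588894) (.g (nat_lit 3371) (.e (nat_lit 532499) (nat_lit 1) (.e (nat_lit 57927) (nat_lit 282) (.e (nat_lit 163868) (nat_lit 2) (.e (nat_lit 196670) (nat_lit 14) (.e (nat_lit 73746) (nat_lit 3) (.e (nat_lit 516124) (nat_lit 2) (.e (nat_lit 213035) (nat_lit 12) (.e (nat_lit 163963) (nat_lit 25) .nil)))))))) (.g (nat_lit 1) (.e (nat_lit 395496) (nat_lit 0) .nil) .nil))) 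
(.lf (nat_lit 589406) (.g (nat_lit 1461) (.e (nat_lit 532503) (nat_lit 1) (.e (nat_lit 57687) (nat_lit 156) (.e (nat_lit 163903) (nat_lit 12) (.e (nat_lit 426566) (nat_lit 34) (.e (nat_lit 393282) (nat_lit 24) .nil))))) (.g (nat_lit 0) (.e (nat_lit 396374) (nat_lit 0) .nil) .nil)))) (.nd (nat_lit 9) 
(.lf (nat_lit 589150) (.g (nat_lit 584) (.e (nat_lit 532501) (nat_lit 1) (.e (nat_lit 57692) (nat_lit 156) (.e (nat_lit 163906) (nat_lit 12) .nil))) (.g (nat_lit 0) (.e (nat_lit 395937) (nat_lit 0) .nil) .nil))) 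
(.lf (nat_lit 589662) (.g (nat_lit 2655) (.e (nat_lit 532503) (nat_lit 1) (.e (nat_lit 57931) (nat_lit 282) (.e (nat_lit 163867) (nat_lit 2) (.e (nat_lit 196670) (nat_lit 14) (.e (nat_lit 73746) (nat_lit 3) (.e (nat_lit 516131) (nat_lit 3) (.e (nat_lit 221197) (nat_lit 20) (.e (nat_lit 3237) (nat_lit 197) .nil)))))))) (.g (nat_lit 1) (.e (nat_lit 396716) (nat_lit 0) .nil) .nil))))) 
(.nd (nat_lit 8) (.nd (nat_lit 9) 
(.lf (nat_lit 589022) (.g (nat_lit 2765) (.e (nat_lit 532499) (nat_lit 1) (.e (nat_lit 57927) (nat_lit 282) (.e (nat_lit 163871) (nat_lit 2) (.e (nat_lit 196670) (nat_lit 14) (.e (nat_lit 73746) (nat_lit 3) (.e (nat_lit 516127) (nat_lit 2) (.e (nat_lit 213038) (nat_lit 13) (.e (nat_lit 229434) (nat_lit 25) .nil)))))))) (.g (nat_lit 1) (.e (nat_lit 395747) (nat_lit 0) .nil) .nil))) 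
(.lf (nat_lit 589534) (.g (nat_lit 1225) (.e (nat_lit 532503) (nat_lit 1) (.e (nat_lit 57849) (nat_lit 252) (.e (nat_lit 57407) (nat_lit 12) (.e (nat_lit 336456) (nat_lit 34) .nil)))) (.g (nat_lit 0) (.e (nat_lit 396549) (nat_lit 0) .nil) .nil)))) (.nd (nat_lit 9) 
(.lf (nat_lit 589278) (.g (nat_lit 3044) (.e (nat_lit 532501) (nat_lit 1) (.e (nat_lit 57927) (nat_lit 282) (.e (nat_lit 163869) (nat_lit 2) (.e (nat_lit 196670) (nat_lit 14) (.e (nat_lit 73746) (nat_lit 3) (.e (nat_lit 516127) (nat_lit 2) (.e (nat_lit 213034) (nat_lit 12) (.e (nat_lit 163963) (nat_lit 25) .nil)))))))) (.g (nat_lit 1) (.e (nat_lit 396148) (nat_lit 0) .nil) .nil))) 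
(.lf (nat_lit 589790) (.g (nat_lit 2757) (.e (nat_lit 532503) (nat_lit 1) (.e (nat_lit 57931) (nat_lit 282) (.e (nat_lit 163869) (nat_lit 2) (.e (nat_lit 196670) (nat_lit 14) (.e (nat_lit 73746) (nat_lit 3) (.e (nat_lit 516131) (nat_lit 3) (.e (nat_lit 221197) (nat_lit 20) (.e (nat_lit 3246) (nat_lit 197) .nil)))))))) (.g (nat_lit 1) (.e (nat_lit 396881) (nat_lit 0) .nil) .nil))))))) 
(.nd (nat_lit 6) (.nd (nat_lit 7) (.nd (nat_lit 8) (.nd (nat_lit 9) 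
(.lf (nat_lit 588862) (.g (nat_lit 3569) (.e (nat_lit 532499) (nat_lit 1) (.e (nat_lit 57927) (nat_lit 282) (.e (nat_lit 163868) (nat_lit 2) (.e (nat_lit 196664) (nat_lit 13) (.e (nat_lit 65571) (nat_lit 3) (.e (nat_lit 98341) (nat_lit 20) (.e (nat_lit 221204) (nat_lit 20) (.e (nat_lit 3253) (nat_lit 197) .nil)))))))) (.g (nat_lit 1) (.e (nat_lit 395430) (nat_lit 0) .nil) .nil))) 
(.lf (nat_lit 589374) (.g (nat_lit 1542) (.e (nat_lit 532502) (nat_lit 1) (.e (nat_lit 57847) (nat_lit 252) (.e (nat_lit 57407) (nat_lit 12) (.e (nat_lit 336455) (nat_lit 34) .nil)))) (.g (nat_lit 0) (.e (nat_lit 396320) (nat_lit 0) .nil) .nil)))) (.nd (nat_lit 9) 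
(.lf (nat_lit 589118) (.g (nat_lit 2154) (.e (nat_lit 532500) (nat_lit 1) (.e (nat_lit 57926) (nat_lit 282) (.e (nat_lit 163868) (nat_lit 2) (.e (nat_lit 196668) (nat_lit 14) (.e (nat_lit 73747) (nat_lit 3) .nil))))) (.g (nat_lit 0) (.e (nat_lit 395873) (nat_lit 0) .nil) .nil))) 
(.lf (nat_lit 589630) (.g (nat_lit 3865) (.e (nat_lit 532503) (nat_lit 1) (.e (nat_lit 57931) (nat_lit 282) (.e (nat_lit 163867) (nat_lit 2) (.e (nat_lit 196668) (nat_lit 14) (.e (nat_lit 73747) (nat_lit 3) (.e (nat_lit 516131) (nat_lit 3) (.e (nat_lit 221198) (nat_lit 20) (.e (nat_lit 3248) (nat_lit 197) .nil)))))))) (.g (nat_lit 1) (.e (nat_lit 396662) (nat_lit 0) .nil) .nil))))) 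
(.nd (nat_lit 8) (.nd (nat_lit 9) 
(.lf (nat_lit 588990) (.g (nat_lit 2766) (.e (nat_lit 532499) (nat_lit 1) (.e (nat_lit 57927) (nat_lit 282) (.e (nat_lit 163869) (nat_lit 2) (.e (nat_lit 196670) (nat_lit 14) (.e (nat_lit 73746) (nat_lit 3) (.e (nat_lit 516129) (nat_lit 3) (.e (nat_lit 221202) (nat_lit 20) (.e (nat_lit 3231) (nat_lit 197) .nil)))))))) (.g (nat_lit 1) (.e (nat_lit 395642) (nat_lit 0) .nil) .nil))) 
(.lf (nat_lit 589502) (.g (nat_lit 2725) (.e (nat_lit 532503) (nat_lit 1) (.e (nat_lit 57847) (nat_lit 252) (.e (nat_lit 57445) (nat_lit 19) (.e (nat_lit 393229) (nat_lit 9) (.e (nat_lit 336086) (nat_lit 9) (.e (nat_lit 336270) (nat_lit 15) (.e (nat_lit 3253) (nat_lit 197) .nil))))))) (.g (nat_lit 1) (.e (nat_lit 396513) (nat_lit 0) .nil) .nil)))) (.nd (nat_lit 9) 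
(.lf (nat_lit 589246) (.g (nat_lit 2977) (.e (nat_lit 532501) (nat_lit 1) (.e (nat_lit 57926) (nat_lit 282) (.e (nat_lit 163871) (nat_lit 2) (.e (nat_lit 196670) (nat_lit 14) (.e (nat_lit 73746) (nat_lit 3) (.e (nat_lit 516127) (nat_lit 2) (.e (nat_lit 220928) (nat_lit 13) (.e (nat_lit 229433) (nat_lit 25) .nil)))))))) (.g (nat_lit 1) (.e (nat_lit 396079) (nat_lit 0) .nil) .nil))) 
(.lf (nat_lit 589758) (.g (nat_lit 4499) (.e (nat_lit 532503) (nat_lit 1) (.e (nat_lit 57931) (nat_lit 282) (.e (nat_lit 163869) (nat_lit 2) (.e (nat_lit 196670) (nat_lit 14) (.e (nat_lit 73746) (nat_lit 3) (.e (nat_lit 516129) (nat_lit 3) (.e (nat_lit 221197) (nat_lit 20) (.e (nat_lit 3230) (nat_lit 197) .nil)))))))) (.g (nat_lit 1) (.e (nat_lit 396849) (nat_lit 0) .nil) .nil)))))) 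
(.nd (nat_lit 7) (.nd (nat_lit 8) (.nd (nat_lit 9) 
(.lf (nat_lit 588926) (.g (nat_lit 2359) (.e (nat_lit 532499) (nat_lit 1) (.e (nat_lit 57927) (nat_lit 282) (.e (nat_lit 163869) (nat_lit 2) (.e (nat_lit 196666) (nat_lit 13) (.e (nat_lit 65569) (nat_lit 3) (.e (nat_lit 98342) (nat_lit 20) (.e (nat_lit 221198) (nat_lit 20) (.e (nat_lit 3241) (nat_lit 197) .nil)))))))) (.g (nat_lit 1) (.e (nat_lit 395534) (nat_lit 0) .nil) .nil))) 
(.lf (nat_lit 589438) (.g (nat_lit 3094) (.e (nat_lit 532503) (nat_lit 1) (.e (nat_lit 57688) (nat_lit 156) (.e (nat_lit 163907) (nat_lit 12) (.e (nat_lit 426568) (nat_lit 34) (.e (nat_lit 393283) (nat_lit 24) (.e (nat_lit 434234) (nat_lit 23) .nil)))))) (.g (nat_lit 1) (.e (nat_lit 396418) (nat_lit 0) .nil) .nil)))) (.nd (nat_lit 9) 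
(.lf (nat_lit 589182) (.g (nat_lit 2656) (.e (nat_lit 532501) (nat_lit 1) (.e (nat_lit 57852) (nat_lit 252) (.e (nat_lit 57371) (nat_lit 2) (.e (nat_lit 90160) (nat_lit 11) (.e (nat_lit 24608) (nat_lit 3) .nil))))) (.g (nat_lit 0) (.e (nat_lit 395980) (nat_lit 0) .nil) .nil))) 
(.lf (nat_lit 589694) (.g (nat_lit 2937) (.e (nat_lit 532503) (nat_lit 1) (.e (nat_lit 57931) (nat_lit 282) (.e (nat_lit 163869) (nat_lit 2) (.e (nat_lit 196668) (nat_lit 14) (.e (nat_lit 73746) (nat_lit 3) (.e (nat_lit 516131) (nat_lit 3) (.e (nat_lit 221204) (nat_lit 20) (.e (nat_lit 3253) (nat_lit 197) .nil)))))))) (.g (nat_lit 1) (.e (nat_lit 396782) (nat_lit 0) .nil) .nil))))) 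
(.nd (nat_lit 8) (.nd (nat_lit 9) 
(.lf (nat_lit 589054) (.g (nat_lit 3114) (.e (nat_lit 532499) (nat_lit 1) (.e (nat_lit 57927) (nat_lit 282) (.e (nat_lit 163875) (nat_lit 3) (.e (nat_lit 204862) (nat_lit 27) (.e (nat_lit 344117) (nat_lit 21) (.e (nat_lit 516122) (nat_lit 2) (.e (nat_lit 213035) (nat_lit 12) (.e (nat_lit 163963) (nat_lit 25) .nil)))))))) (.g (nat_lit 1) (.e (nat_lit 395788) (nat_lit 0) .nil) .nil))) 
(.lf (nat_lit 589566) (.g (nat_lit 2537) (.e (nat_lit 532503) (nat_lit 1) (.e (nat_lit 57929) (nat_lit 282) (.e (nat_lit 163869) (nat_lit 2) (.e (nat_lit 196670) (nat_lit 14) (.e (nat_lit 73746) (nat_lit 3) (.e (nat_lit 516131) (nat_lit 3) (.e (nat_lit 221198) (nat_lit 20) (.e (nat_lit 3248) (nat_lit 197) .nil)))))))) (.g (nat_lit 1) (.e (nat_lit 396584) (nat_lit 0) .nil) .nil)))) 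
(.nd (nat_lit 9) 
(.lf (nat_lit 589310) (.g (nat_lit 3204) (.e (nat_lit 532501) (nat_lit 1) (.e (nat_lit 57929) (nat_lit 282) (.e (nat_lit 163869) (nat_lit 2) (.e (nat_lit 196670) (nat_lit 14) (.e (nat_lit 73746) (nat_lit 3) (.e (nat_lit 516127) (nat_lit 2) (.e (nat_lit 213037) (nat_lit 13) (.e (nat_lit 229433) (nat_lit 25) .nil)))))))) (.g (nat_lit 1) (.e (nat_lit 396215) (nat_lit 0) .nil) .nil))) 
(.lf (nat_lit 589822) (.g (nat_lit 1916) (.e (nat_lit 532503) (nat_lit 1) (.e (nat_lit 57931) (nat_lit 282) (.e (nat_lit 163874) (nat_lit 3) (.e (nat_lit 204873) (nat_lit 30) (.e (nat_lit 368676) (nat_lit 21) .nil))))) (.g (nat_lit 0) (.e (nat_lit 396919) (nat_lit 0) .nil) .nil)))))))))))) 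
(.nd (nat_lit 1) (.nd (nat_lit 2) (.nd (nat_lit 3) (.nd (nat_lit 4) (.nd (nat_lit 5) 
(.nd (nat_lit 6) (.nd (nat_lit 7) (.nd (nat_lit 8) (.nd (nat_lit 9) 
(.lf (nat_lit 588801) (.g (nat_lit 1778) (.e (nat_lit 532499) (nat_lit 1) (.e (nat_lit 57849) (nat_lit 252) (.e (nat_lit 57407) (nat_lit 12) (.e (nat_lit 336454) (nat_lit 34) (.e (nat_lit 483385) (nat_lit 23) .nil))))) (.g (nat_lit 0) (.e (nat_lit 395343) (nat_lit 0) .nil) .nil))) 
(.lf (nat_lit 589313) (.g (nat_lit 2126) (.e (nat_lit 532501) (nat_lit 1) (.e (nat_lit 57931) (nat_lit 282) (.e (nat_lit 163869) (nat_lit 2) (.e (nat_lit 196663) (nat_lit 13) .nil)))) (.g (nat_lit 0) (.e (nat_lit 396226) (nat_lit 0) .nil) .nil)))) (.nd (nat_lit 9) 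
(.lf (nat_lit 589057) (.g (nat_lit 2719) (.e (nat_lit 532499) (nat_lit 1) (.e (nat_lit 57927) (nat_lit 282) (.e (nat_lit 163875) (nat_lit 3) (.e (nat_lit 204862) (nat_lit 27) (.e (nat_lit 344117) (nat_lit 21) (.e (nat_lit 516123) (nat_lit 2) (.e (nat_lit 213033) (nat_lit 12) (.e (nat_lit 163963) (nat_lit 25) .nil)))))))) (.g (nat_lit 1) (.e (nat_lit 395791) (nat_lit 0) .nil) .nil))) 
(.lf (nat_lit 589569) (.g (nat_lit 2889) (.e (nat_lit 532503) (nat_lit 1) (.e (nat_lit 57930) (nat_lit 282) (.e (nat_lit 163869) (nat_lit 2) (.e (nat_lit 196666) (nat_lit 13) (.e (nat_lit 65569) (nat_lit 3) (.e (nat_lit 98342) (nat_lit 20) (.e (nat_lit 221204) (nat_lit 20) (.e (nat_lit 3253) (nat_lit 197) .nil)))))))) (.g (nat_lit 1) (.e (nat_lit 396588) (nat_lit 0) .nil) .nil))))) 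
(.nd (nat_lit 8) (.nd (nat_lit 9) 
(.lf (nat_lit 588929) (.g (nat_lit 2330) (.e (nat_lit 532499) (nat_lit 1) (.e (nat_lit 57927) (nat_lit 282) (.e (nat_lit 163869) (nat_lit 2) (.e (nat_lit 196666) (nat_lit 13) (.e (nat_lit 65571) (nat_lit 3) (.e (nat_lit 98341) (nat_lit 20) (.e (nat_lit 221196) (nat_lit 20) (.e (nat_lit 3241) (nat_lit 197) .nil)))))))) (.g (nat_lit 1) (.e (nat_lit 395547) (nat_lit 0) .nil) .nil))) 
(.lf (nat_lit 589441) (.g (nat_lit 1650) (.e (nat_lit 532503) (nat_lit 1) (.e (nat_lit 57689) (nat_lit 156) (.e (nat_lit 163907) (nat_lit 12) (.e (nat_lit 426479) (nat_lit 27) (.e (nat_lit 336432) (nat_lit 30) .nil))))) (.g (nat_lit 0) (.e (nat_lit 396440) (nat_lit 0) .nil) .nil)))) (.nd (nat_lit 9) 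
(.lf (nat_lit 589185) (.g (nat_lit 675) (.e (nat_lit 532501) (nat_lit 1) (.e (nat_lit 57852) (nat_lit 252) (.e (nat_lit 57377) (nat_lit 3) .nil))) (.g (nat_lit 0) (.e (nat_lit 395983) (nat_lit 0) .nil) .nil))) 
(.lf (nat_lit 589697) (.g (nat_lit 2918) (.e (nat_lit 532503) (nat_lit 1) (.e (nat_lit 57931) (nat_lit 282) (.e (nat_lit 163869) (nat_lit 2) (.e (nat_lit 196668) (nat_lit 14) (.e (nat_lit 73747) (nat_lit 3) (.e (nat_lit 516129) (nat_lit 3) (.e (nat_lit 221196) (nat_lit 20) (.e (nat_lit 3237) (nat_lit 197) .nil)))))))) (.g (nat_lit 1) (.e (nat_lit 396788) (nat_lit 0) .nil) .nil)))))) 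
(.nd (nat_lit 7) (.nd (nat_lit 8) (.nd (nat_lit 9) 
(.lf (nat_lit 588865) (.g (nat_lit 2675) (.e (nat_lit 532499) (nat_lit 1) (.e (nat_lit 57927) (nat_lit 282) (.e (nat_lit 163868) (nat_lit 2) (.e (nat_lit 196668) (nat_lit 14) (.e (nat_lit 73746) (nat_lit 3) (.e (nat_lit 516129) (nat_lit 3) (.e (nat_lit 221196) (nat_lit 20) (.e (nat_lit 3237) (nat_lit 197) .nil)))))))) (.g (nat_lit 1) (.e (nat_lit 395452) (nat_lit 0) .nil) .nil))) 
(.lf (nat_lit 589377) (.g (nat_lit 1521) (.e (nat_lit 532502) (nat_lit 1) (.e (nat_lit 57847) (nat_lit 252) (.e (nat_lit 57411) (nat_lit 12) (.e (nat_lit 343808) (nat_lit 34) .nil)))) (.g (nat_lit 0) (.e (nat_lit 396325) (nat_lit 0) .nil) .nil)))) (.nd (nat_lit 9) 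
(.lf (nat_lit 589121) (.g (nat_lit 2549) (.e (nat_lit 532500) (nat_lit 1) (.e (nat_lit 57927) (nat_lit 282) (.e (nat_lit 163868) (nat_lit 2) (.e (nat_lit 196668) (nat_lit 14) (.e (nat_lit 73746) (nat_lit 3) (.e (nat_lit 516129) (nat_lit 3) (.e (nat_lit 221196) (nat_lit 20) (.e (nat_lit 3241) (nat_lit 197) .nil)))))))) (.g (nat_lit 1) (.e (nat_lit 395884) (nat_lit 0) .nil) .nil))) 
(.lf (nat_lit 589633) (.g (nat_lit 2801) (.e (nat_lit 532503) (nat_lit 1) (.e (nat_lit 57931) (nat_lit 282) (.e (nat_lit 163867) (nat_lit 2) (.e (nat_lit 196670) (nat_lit 14) (.e (nat_lit 73746) (nat_lit 3) (.e (nat_lit 516129) (nat_lit 3) (.e (nat_lit 221195) (nat_lit 20) (.e (nat_lit 3230) (nat_lit 197) .nil)))))))) (.g (nat_lit 1) (.e (nat_lit 396687) (nat_lit 0) .nil) .nil))))) 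
(.nd (nat_lit 8) (.nd (nat_lit 9) 
(.lf (nat_lit 588993) (.g (nat_lit 2216) (.e (nat_lit 532499) (nat_lit 1) (.e (nat_lit 57927) (nat_lit 282) (.e (nat_lit 163869) (nat_lit 2) (.e (nat_lit 196670) (nat_lit 14) (.e (nat_lit 73746) (nat_lit 3) (.e (nat_lit 516131) (nat_lit 3) (.e (nat_lit 221196) (nat_lit 20) (.e (nat_lit 3236) (nat_lit 197) .nil)))))))) (.g (nat_lit 1) (.e (nat_lit 395645) (nat_lit 0) .nil) .nil))) 
(.lf (nat_lit 589505) (.g (nat_lit 1271) (.e (nat_lit 532503) (nat_lit 1) (.e (nat_lit 57847) (nat_lit 252) (.e (nat_lit 57448) (nat_lit 19) (.e (nat_lit 393229) (nat_lit 9) (.e (nat_lit 336086) (nat_lit 9) .nil))))) (.g (nat_lit 0) (.e (nat_lit 396516) (nat_lit 0) .nil) .nil)))) (.nd (nat_lit 9) 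
(.lf (nat_lit 589249) (.g (nat_lit 2979) (.e (nat_lit 532501) (nat_lit 1) (.e (nat_lit 57926) (nat_lit 282) (.e (nat_lit 163875) (nat_lit 3) (.e (nat_lit 204862) (nat_lit 27) (.e (nat_lit 344117) (nat_lit 21) (.e (nat_lit 516123) (nat_lit 2) (.e (nat_lit 220928) (nat_lit 13) (.e (nat_lit 229433) (nat_lit 25) .nil)))))))) (.g (nat_lit 1) (.e (nat_lit 396082) (nat_lit 0) .nil) .nil))) 
(.lf (nat_lit 589761) (.g (nat_lit 4306) (.e (nat_lit 532503) (nat_lit 1) (.e (nat_lit 57931) (nat_lit 282) (.e (nat_lit 163869) (nat_lit 2) (.e (nat_lit 196670) (nat_lit 14) (.e (nat_lit 73746) (nat_lit 3) (.e (nat_lit 516129) (nat_lit 3) (.e (nat_lit 221197) (nat_lit 20) (.e (nat_lit 3248) (nat_lit 197) .nil)))))))) (.g (nat_lit 1) (.e (nat_lit 396852) (nat_lit 0) .nil) .nil))))))) 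
(.nd (nat_lit 6) (.nd (nat_lit 7) (.nd (nat_lit 8) (.nd (nat_lit 9) 
(.lf (nat_lit 588833) (.g (nat_lit 2459) (.e (nat_lit 532499) (nat_lit 1) (.e (nat_lit 57926) (nat_lit 282) (.e (nat_lit 163869) (nat_lit 2) (.e (nat_lit 196670) (nat_lit 14) (.e (nat_lit 73746) (nat_lit 3) (.e (nat_lit 516129) (nat_lit 3) (.e (nat_lit 221196) (nat_lit 20) (.e (nat_lit 3236) (nat_lit 197) .nil)))))))) (.g (nat_lit 1) (.e (nat_lit 395377) (nat_lit 0) .nil) .nil))) 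
(.lf (nat_lit 589345) (.g (nat_lit 1689) (.e (nat_lit 532502) (nat_lit 1) (.e (nat_lit 57688) (nat_lit 156) (.e (nat_lit 163905) (nat_lit 12) (.e (nat_lit 426566) (nat_lit 34) .nil)))) (.g (nat_lit 0) (.e (nat_lit 396268) (nat_lit 0) .nil) .nil)))) (.nd (nat_lit 9) 
(.lf (nat_lit 589089) (.g (nat_lit 3617) (.e (nat_lit 532499) (nat_lit 1) (.e (nat_lit 57931) (nat_lit 282) (.e (nat_lit 163869) (nat_lit 2) (.e (nat_lit 196670) (nat_lit 14) (.e (nat_lit 73746) (nat_lit 3) (.e (nat_lit 516127) (nat_lit 2) (.e (nat_lit 213035) (nat_lit 12) (.e (nat_lit 163964) (nat_lit 25) .nil)))))))) (.g (nat_lit 1) (.e (nat_lit 395835) (nat_lit 0) .nil) .nil))) 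
(.lf (nat_lit 589601) (.g (nat_lit 2962) (.e (nat_lit 532503) (nat_lit 1) (.e (nat_lit 57931) (nat_lit 282) (.e (nat_lit 163867) (nat_lit 2) (.e (nat_lit 196668) (nat_lit 14) (.e (nat_lit 73746) (nat_lit 3) (.e (nat_lit 516129) (nat_lit 3) (.e (nat_lit 221200) (nat_lit 20) (.e (nat_lit 3230) (nat_lit 197) .nil)))))))) (.g (nat_lit 1) (.e (nat_lit 396630) (nat_lit 0) .nil) .nil))))) 
(.nd (nat_lit 8) (.nd (nat_lit 9) 
(.lf (nat_lit 588961) (.g (nat_lit 3515) (.e (nat_lit 532499) (nat_lit 1) (.e (nat_lit 57927) (nat_lit 282) (.e (nat_lit 163869) (nat_lit 2) (.e (nat_lit 196670) (nat_lit 14) (.e (nat_lit 73746) (nat_lit 3) (.e (nat_lit 516124) (nat_lit 2) (.e (nat_lit 213033) (nat_lit 12) (.e (nat_lit 163964) (nat_lit 25) .nil)))))))) (.g (nat_lit 1) (.e (nat_lit 395613) (nat_lit 0) .nil) .nil))) 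
(.lf (nat_lit 589473) (.g (nat_lit 3213) (.e (nat_lit 532503) (nat_lit 1) (.e (nat_lit 57847) (nat_lit 252) (.e (nat_lit 57407) (nat_lit 12) (.e (nat_lit 336454) (nat_lit 34) (.e (nat_lit 483385) (nat_lit 23) (.e (nat_lit 336260) (nat_lit 15) (.e (nat_lit 3254) (nat_lit 197) .nil))))))) (.g (nat_lit 1) (.e (nat_lit 396481) (nat_lit 0) .nil) .nil)))) (.nd (nat_lit 9) 
(.lf (nat_lit 589217) (.g (nat_lit 4326) (.e (nat_lit 532501) (nat_lit 1) (.e (nat_lit 57854) (nat_lit 252) (.e (nat_lit 57445) (nat_lit 19) (.e (nat_lit 393229) (nat_lit 9) (.e (nat_lit 336091) (nat_lit 9) .nil))))) (.g (nat_lit 0) (.e (nat_lit 396018) (nat_lit 0) .nil) .nil))) 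
(.lf (nat_lit 589729) (.g (nat_lit 2931) (.e (nat_lit 532503) (nat_lit 1) (.e (nat_lit 57931) (nat_lit 282) (.e (nat_lit 163869) (nat_lit 2) (.e (nat_lit 196670) (nat_lit 14) (.e (nat_lit 73746) (nat_lit 3) (.e (nat_lit 516124) (nat_lit 2) (.e (nat_lit 213037) (nat_lit 13) (.e (nat_lit 229433) (nat_lit 25) .nil)))))))) (.g (nat_lit 1) (.e (nat_lit 396820) (nat_lit 0) .nil) .nil)))))) 
(.nd (nat_lit 7) (.nd (nat_lit 8) (.nd (nat_lit 9) 
(.lf (nat_lit 588897) (.g (nat_lit 3611) (.e (nat_lit 532499) (nat_lit 1) (.e (nat_lit 57927) (nat_lit 282) (.e (nat_lit 163868) (nat_lit 2) (.e (nat_lit 196670) (nat_lit 14) (.e (nat_lit 73746) (nat_lit 3) (.e (nat_lit 516126) (nat_lit 2) (.e (nat_lit 213033) (nat_lit 12) (.e (nat_lit 163962) (nat_lit 25) .nil)))))))) (.g (nat_lit 1) (.e (nat_lit 395499) (nat_lit 0) .nil) .nil))) 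
(.lf (nat_lit 589409) (.g (nat_lit 3198) (.e (nat_lit 532503) (nat_lit 1) (.e (nat_lit 57687) (nat_lit 156) (.e (nat_lit 163903) (nat_lit 12) (.e (nat_lit 426568) (nat_lit 34) (.e (nat_lit 393283) (nat_lit 24) (.e (nat_lit 434232) (nat_lit 23) .nil)))))) (.g (nat_lit 1) (.e (nat_lit 396377) (nat_lit 0) .nil) .nil)))) (.nd (nat_lit 9) 
(.lf (nat_lit 589153) (.g (nat_lit 2078) (.e (nat_lit 532501) (nat_lit 1) (.e (nat_lit 57830) (nat_lit 250) (.e (nat_lit 1201) (nat_lit 88) (.e (nat_lit 65571) (nat_lit 3) (.e (nat_lit 98367) (nat_lit 27) .nil))))) (.g (nat_lit 0) (.e (nat_lit 395948) (nat_lit 0) .nil) .nil))) 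
(.lf (nat_lit 589665) (.g (nat_lit 2713) (.e (nat_lit 532503) (nat_lit 1) (.e (nat_lit 57931) (nat_lit 282) (.e (nat_lit 163867) (nat_lit 2) (.e (nat_lit 196670) (nat_lit 14) (.e (nat_lit 73746) (nat_lit 3) (.e (nat_lit 516131) (nat_lit 3) (.e (nat_lit 221197) (nat_lit 20) (.e (nat_lit 3244) (nat_lit 197) .nil)))))))) (.g (nat_lit 1) (.e (nat_lit 396719) (nat_lit 0) .nil) .nil))))) 
(.nd (nat_lit 8) (.nd (nat_lit 9) 
(.lf (nat_lit 589025) (.g (nat_lit 2390) (.e (nat_lit 532499) (nat_lit 1) (.e (nat_lit 57927) (nat_lit 282) (.e (nat_lit 163871) (nat_lit 2) (.e (nat_lit 196670) (nat_lit 14) (.e (nat_lit 73746) (nat_lit 3) (.e (nat_lit 516129) (nat_lit 3) (.e (nat_lit 221196) (nat_lit 20) (.e (nat_lit 3250) (nat_lit 197) .nil)))))))) (.g (nat_lit 1) (.e (nat_lit 395750) (nat_lit 0) .nil) .nil))) 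
(.lf (nat_lit 589537) (.g (nat_lit 2961) (.e (nat_lit 532503) (nat_lit 1) (.e (nat_lit 57849) (nat_lit 252) (.e (nat_lit 57411) (nat_lit 12) (.e (nat_lit 336454) (nat_lit 34) (.e (nat_lit 483385) (nat_lit 23) (.e (nat_lit 336260) (nat_lit 15) (.e (nat_lit 3230) (nat_lit 197) .nil))))))) (.g (nat_lit 1) (.e (nat_lit 396552) (nat_lit 0) .nil) .nil)))) (.nd (nat_lit 9) 
(.lf (nat_lit 589281) (.g (nat_lit 3163) (.e (nat_lit 532501) (nat_lit 1) (.e (nat_lit 57927) (nat_lit 282) (.e (nat_lit 163869) (nat_lit 2) (.e (nat_lit 196670) (nat_lit 14) (.e (nat_lit 73746) (nat_lit 3) (.e (nat_lit 516127) (nat_lit 2) (.e (nat_lit 213038) (nat_lit 13) (.e (nat_lit 229434) (nat_lit 25) .nil)))))))) (.g (nat_lit 1) (.e (nat_lit 396151) (nat_lit 0) .nil) .nil))) 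
(.lf (nat_lit 589793) (.g (nat_lit 2856) (.e (nat_lit 532503) (nat_lit 1) (.e (nat_lit 57931) (nat_lit 282) (.e (nat_lit 163869) (nat_lit 2) (.e (nat_lit 196670) (nat_lit 14) (.e (nat_lit 73746) (nat_lit 3) (.e (nat_lit 516131) (nat_lit 3) (.e (nat_lit 221198) (nat_lit 20) (.e (nat_lit 3237) (nat_lit 197) .nil)))))))) (.g (nat_lit 1) (.e (nat_lit 396884) (nat_lit 0) .nil) .nil)))))))) 
(.nd (nat_lit 5) (.nd (nat_lit 6) (.nd (nat_lit 7) (.nd (nat_lit 8) (.nd (nat_lit 9) 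
(.lf (nat_lit 588817) (.g (nat_lit 2519) (.e (nat_lit 532499) (nat_lit 1) (.e (nat_lit 57926) (nat_lit 282) (.e (nat_lit 163869) (nat_lit 2) (.e (nat_lit 196670) (nat_lit 14) (.e (nat_lit 73746) (nat_lit 3) (.e (nat_lit 516124) (nat_lit 2) (.e (nat_lit 213033) (nat_lit 12) (.e (nat_lit 163963) (nat_lit 25) .nil)))))))) (.g (nat_lit 1) (.e (nat_lit 395361) (nat_lit 0) .nil) .nil))) 
(.lf (nat_lit 589329) (.g (nat_lit 2363) (.e (nat_lit 532502) (nat_lit 1) (.e (nat_lit 57687) (nat_lit 156) (.e (nat_lit 163903) (nat_lit 12) (.e (nat_lit 426568) (nat_lit 34) (.e (nat_lit 393287) (nat_lit 25) .nil))))) (.g (nat_lit 0) (.e (nat_lit 396250) (nat_lit 0) .nil) .nil)))) (.nd (nat_lit 9) 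
(.lf (nat_lit 589073) (.g (nat_lit 3259) (.e (nat_lit 532499) (nat_lit 1) (.e (nat_lit 57931) (nat_lit 282) (.e (nat_lit 163869) (nat_lit 2) (.e (nat_lit 196668) (nat_lit 14) (.e (nat_lit 73746) (nat_lit 3) .nil))))) (.g (nat_lit 0) (.e (nat_lit 395819) (nat_lit 0) .nil) .nil))) 
(.lf (nat_lit 589585) (.g (nat_lit 1931) (.e (nat_lit 532503) (nat_lit 1) (.e (nat_lit 57931) (nat_lit 282) (.e (nat_lit 163867) (nat_lit 2) (.e (nat_lit 196663) (nat_lit 13) (.e (nat_lit 65571) (nat_lit 3) .nil))))) (.g (nat_lit 0) (.e (nat_lit 396610) (nat_lit 0) .nil) .nil))))) (.nd (nat_lit 8) (.nd (nat_lit 9) 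
(.lf (nat_lit 588945) (.g (nat_lit 4156) (.e (nat_lit 532499) (nat_lit 1) (.e (nat_lit 57927) (nat_lit 282) (.e (nat_lit 163869) (nat_lit 2) (.e (nat_lit 196668) (nat_lit 14) (.e (nat_lit 73747) (nat_lit 3) (.e (nat_lit 516129) (nat_lit 3) (.e (nat_lit 221202) (nat_lit 20) (.e (nat_lit 3249) (nat_lit 197) .nil)))))))) (.g (nat_lit 1) (.e (nat_lit 395596) (nat_lit 0) .nil) .nil))) 
(.lf (nat_lit 589457) (.g (nat_lit 1280) (.e (nat_lit 532503) (nat_lit 1) (.e (nat_lit 57846) (nat_lit 252) (.e (nat_lit 57405) (nat_lit 12) (.e (nat_lit 336454) (nat_lit 34) (.e (nat_lit 483403) (nat_lit 26) .nil))))) (.g (nat_lit 0) (.e (nat_lit 396464) (nat_lit 0) .nil) .nil)))) (.nd (nat_lit 9) 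
(.lf (nat_lit 589201) (.g (nat_lit 3174) (.e (nat_lit 532501) (nat_lit 1) (.e (nat_lit 57854) (nat_lit 252) (.e (nat_lit 57406) (nat_lit 12) (.e (nat_lit 336367) (nat_lit 27) (.e (nat_lit 426540) (nat_lit 29) (.e (nat_lit 352262) (nat_lit 0) (.e (nat_lit 3253) (nat_lit 197) .nil))))))) (.g (nat_lit 1) (.e (nat_lit 396002) (nat_lit 0) .nil) .nil))) 
(.lf (nat_lit 589713) (.g (nat_lit 2943) (.e (nat_lit 532503) (nat_lit 1) (.e (nat_lit 57931) (nat_lit 282) (.e (nat_lit 163869) (nat_lit 2) (.e (nat_lit 196668) (nat_lit 14) (.e (nat_lit 73747) (nat_lit 3) (.e (nat_lit 516131) (nat_lit 3) (.e (nat_lit 221197) (nat_lit 20) (.e (nat_lit 3250) (nat_lit 197) .nil)))))))) (.g (nat_lit 1) (.e (nat_lit 396804) (nat_lit 0) .nil) .nil)))))) 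
(.nd (nat_lit 7) (.nd (nat_lit 8) (.nd (nat_lit 9) 
(.lf (nat_lit 588881) (.g (nat_lit 2767) (.e (nat_lit 532499) (nat_lit 1) (.e (nat_lit 57927) (nat_lit 282) (.e (nat_lit 163868) (nat_lit 2) (.e (nat_lit 196668) (nat_lit 14) (.e (nat_lit 73747) (nat_lit 3) (.e (nat_lit 516131) (nat_lit 3) (.e (nat_lit 221197) (nat_lit 20) (.e (nat_lit 3250) (nat_lit 197) .nil)))))))) (.g (nat_lit 1) (.e (nat_lit 395483) (nat_lit 0) .nil) .nil))) 
(.lf (nat_lit 589393) (.g (nat_lit 3125) (.e (nat_lit 532502) (nat_lit 1) (.e (nat_lit 57854) (nat_lit 252) (.e (nat_lit 57378) (nat_lit 3) (.e (nat_lit 98341) (nat_lit 20) (.e (nat_lit 221214) (nat_lit 23) .nil))))) (.g (nat_lit 0) (.e (nat_lit 396354) (nat_lit 0) .nil) .nil)))) (.nd (nat_lit 9) 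
(.lf (nat_lit 589137) (.g (nat_lit 1235) (.e (nat_lit 532501) (nat_lit 1) (.e (nat_lit 57685) (nat_lit 156) (.e (nat_lit 163905) (nat_lit 12) (.e (nat_lit 426566) (nat_lit 34) .nil)))) (.g (nat_lit 0) (.e (nat_lit 395909) (nat_lit 0) .nil) .nil))) 
(.lf (nat_lit 589649) (.g (nat_lit 3018) (.e (nat_lit 532503) (nat_lit 1) (.e (nat_lit 57931) (nat_lit 282) (.e (nat_lit 163867) (nat_lit 2) (.e (nat_lit 196670) (nat_lit 14) (.e (nat_lit 73746) (nat_lit 3) (.e (nat_lit 516129) (nat_lit 3) (.e (nat_lit 221197) (nat_lit 20) (.e (nat_lit 3256) (nat_lit 197) .nil)))))))) (.g (nat_lit 1) (.e (nat_lit 396703) (nat_lit 0) .nil) .nil))))) 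
(.nd (nat_lit 8) (.nd (nat_lit 9) 
(.lf (nat_lit 589009) (.g (nat_lit 3131) (.e (nat_lit 532499) (nat_lit 1) (.e (nat_lit 57927) (nat_lit 282) (.e (nat_lit 163871) (nat_lit 2) (.e (nat_lit 196670) (nat_lit 14) (.e (nat_lit 73746) (nat_lit 3) (.e (nat_lit 516124) (nat_lit 2) (.e (nat_lit 213035) (nat_lit 12) (.e (nat_lit 163965) (nat_lit 25) .nil)))))))) (.g (nat_lit 1) (.e (nat_lit 395734) (nat_lit 0) .nil) .nil))) 
(.lf (nat_lit 589521) (.g (nat_lit 1959) (.e (nat_lit 532503) (nat_lit 1) (.e (nat_lit 57849) (nat_lit 252) (.e (nat_lit 57372) (nat_lit 2) (.e (nat_lit 90128) (nat_lit 9) .nil)))) (.g (nat_lit 0) (.e (nat_lit 396534) (nat_lit 0) .nil) .nil)))) (.nd (nat_lit 9) 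
(.lf (nat_lit 589265) (.g (nat_lit 2142) (.e (nat_lit 532501) (nat_lit 1) (.e (nat_lit 57927) (nat_lit 282) (.e (nat_lit 163869) (nat_lit 2) (.e (nat_lit 196670) (nat_lit 14) (.e (nat_lit 73746) (nat_lit 3) .nil))))) (.g (nat_lit 0) (.e (nat_lit 396135) (nat_lit 0) .nil) .nil))) 
(.lf (nat_lit 589777) (.g (nat_lit 4430) (.e (nat_lit 532503) (nat_lit 1) (.e (nat_lit 57931) (nat_lit 282) (.e (nat_lit 163869) (nat_lit 2) (.e (nat_lit 196670) (nat_lit 14) (.e (nat_lit 73746) (nat_lit 3) (.e (nat_lit 516129) (nat_lit 3) (.e (nat_lit 221202) (nat_lit 20) (.e (nat_lit 3230) (nat_lit 197) .nil)))))))) (.g (nat_lit 1) (.e (nat_lit 396868) (nat_lit 0) .nil) .nil))))))) 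
(.nd (nat_lit 6) (.nd (nat_lit 7) (.nd (nat_lit 8) (.nd (nat_lit 9) 
(.lf (nat_lit 588849) (.g (nat_lit 2395) (.e (nat_lit 532499) (nat_lit 1) (.e (nat_lit 57927) (nat_lit 282) (.e (nat_lit 163866) (nat_lit 2) (.e (nat_lit 196670) (nat_lit 14) (.e (nat_lit 73746) (nat_lit 3) (.e (nat_lit 516124) (nat_lit 2) (.e (nat_lit 213035) (nat_lit 12) (.e (nat_lit 163965) (nat_lit 25) .nil)))))))) (.g (nat_lit 1) (.e (nat_lit 395407) (nat_lit 0) .nil) .nil))) 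
(.lf (nat_lit 589361) (.g (nat_lit 1832) (.e (nat_lit 532502) (nat_lit 1) (.e (nat_lit 57692) (nat_lit 156) (.e (nat_lit 163874) (nat_lit 3) (.e (nat_lit 204834) (nat_lit 19) .nil)))) (.g (nat_lit 0) (.e (nat_lit 396298) (nat_lit 0) .nil) .nil)))) (.nd (nat_lit 9) 
(.lf (nat_lit 589105) (.g (nat_lit 2515) (.e (nat_lit 532500) (nat_lit 1) (.e (nat_lit 57851) (nat_lit 252) (.e (nat_lit 57406) (nat_lit 12) (.e (nat_lit 336456) (nat_lit 34) (.e (nat_lit 483380) (nat_lit 23) (.e (nat_lit 336258) (nat_lit 15) (.e (nat_lit 3241) (nat_lit 197) .nil))))))) (.g (nat_lit 1) (.e (nat_lit 395857) (nat_lit 0) .nil) .nil))) 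
(.lf (nat_lit 589617) (.g (nat_lit 3232) (.e (nat_lit 532503) (nat_lit 1) (.e (nat_lit 57931) (nat_lit 282) (.e (nat_lit 163867) (nat_lit 2) (.e (nat_lit 196668) (nat_lit 14) (.e (nat_lit 73747) (nat_lit 3) (.e (nat_lit 516129) (nat_lit 3) (.e (nat_lit 221197) (nat_lit 20) (.e (nat_lit 3248) (nat_lit 197) .nil)))))))) (.g (nat_lit 1) (.e (nat_lit 396649) (nat_lit 0) .nil) .nil))))) 
(.nd (nat_lit 8) (.nd (nat_lit 9) 
(.lf (nat_lit 588977) (.g (nat_lit 3670) (.e (nat_lit 532499) (nat_lit 1) (.e (nat_lit 57927) (nat_lit 282) (.e (nat_lit 163869) (nat_lit 2) (.e (nat_lit 196670) (nat_lit 14) (.e (nat_lit 73746) (nat_lit 3) (.e (nat_lit 516129) (nat_lit 3) (.e (nat_lit 221196) (nat_lit 20) (.e (nat_lit 3236) (nat_lit 197) .nil)))))))) (.g (nat_lit 1) (.e (nat_lit 395629) (nat_lit 0) .nil) .nil))) 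
(.lf (nat_lit 589489) (.g (nat_lit 2926) (.e (nat_lit 532503) (nat_lit 1) (.e (nat_lit 57847) (nat_lit 252) (.e (nat_lit 57411) (nat_lit 12) (.e (nat_lit 336367) (nat_lit 27) (.e (nat_lit 426540) (nat_lit 29) (.e (nat_lit 352262) (nat_lit 0) (.e (nat_lit 3253) (nat_lit 197) .nil))))))) (.g (nat_lit 1) (.e (nat_lit 396499) (nat_lit 0) .nil) .nil)))) (.nd (nat_lit 9) 
(.lf (nat_lit 589233) (.g (nat_lit 2758) (.e (nat_lit 532501) (nat_lit 1) (.e (nat_lit 57926) (nat_lit 282) (.e (nat_lit 163869) (nat_lit 2) (.e (nat_lit 196670) (nat_lit 14) (.e (nat_lit 73746) (nat_lit 3) (.e (nat_lit 516126) (nat_lit 2) (.e (nat_lit 213035) (nat_lit 12) (.e (nat_lit 163965) (nat_lit 25) .nil)))))))) (.g (nat_lit 1) (.e (nat_lit 396058) (nat_lit 0) .nil) .nil))) 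
(.lf (nat_lit 589745) (.g (nat_lit 2806) (.e (nat_lit 532503) (nat_lit 1) (.e (nat_lit 57931) (nat_lit 282) (.e (nat_lit 163869) (nat_lit 2) (.e (nat_lit 196670) (nat_lit 14) (.e (nat_lit 73746) (nat_lit 3) (.e (nat_lit 516127) (nat_lit 2) (.e (nat_lit 213035) (nat_lit 12) (.e (nat_lit 163965) (nat_lit 25) .nil)))))))) (.g (nat_lit 1) (.e (nat_lit 396836) (nat_lit 0) .nil) .nil)))))) 
(.nd (nat_lit 7) (.nd (nat_lit 8) (.nd (nat_lit 9) 
(.lf (nat_lit 588913) (.g (nat_lit 2900) (.e (nat_lit 532499) (nat_lit 1) (.e (nat_lit 57927) (nat_lit 282) (.e (nat_lit 163868) (nat_lit 2) (.e (nat_lit 196670) (nat_lit 14) (.e (nat_lit 73746) (nat_lit 3) (.e (nat_lit 516129) (nat_lit 3) (.e (nat_lit 221196) (nat_lit 20) (.e (nat_lit 3236) (nat_lit 197) .nil)))))))) (.g (nat_lit 1) (.e (nat_lit 395515) (nat_lit 0) .nil) .nil))) 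
(.lf (nat_lit 589425) (.g (nat_lit 2665) (.e (nat_lit 532503) (nat_lit 1) (.e (nat_lit 57688) (nat_lit 156) (.e (nat_lit 163902) (nat_lit 12) (.e (nat_lit 426568) (nat_lit 34) (.e (nat_lit 393282) (nat_lit 24) (.e (nat_lit 434233) (nat_lit 23) .nil)))))) (.g (nat_lit 1) (.e (nat_lit 396400) (nat_lit 0) .nil) .nil)))) (.nd (nat_lit 9) 
(.lf (nat_lit 589169) (.g (nat_lit 3062) (.e (nat_lit 532501) (nat_lit 1) (.e (nat_lit 57851) (nat_lit 252) (.e (nat_lit 57406) (nat_lit 12) (.e (nat_lit 336456) (nat_lit 34) (.e (nat_lit 483383) (nat_lit 23) (.e (nat_lit 336240) (nat_lit 15) (.e (nat_lit 3230) (nat_lit 197) .nil))))))) (.g (nat_lit 1) (.e (nat_lit 395966) (nat_lit 0) .nil) .nil))) 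
(.lf (nat_lit 589681) (.g (nat_lit 2936) (.e (nat_lit 532503) (nat_lit 1) (.e (nat_lit 57931) (nat_lit 282) (.e (nat_lit 163869) (nat_lit 2) (.e (nat_lit 196666) (nat_lit 13) (.e (nat_lit 65571) (nat_lit 3) (.e (nat_lit 98342) (nat_lit 20) (.e (nat_lit 221198) (nat_lit 20) (.e (nat_lit 3244) (nat_lit 197) .nil)))))))) (.g (nat_lit 1) (.e (nat_lit 396767) (nat_lit 0) .nil) .nil))))) 
(.nd (nat_lit 8) (.nd (nat_lit 9) 
(.lf (nat_lit 589041) (.g (nat_lit 2703) (.e (nat_lit 532499) (nat_lit 1) (.e (nat_lit 57927) (nat_lit 282) (.e (nat_lit 163874) (nat_lit 3) (.e (nat_lit 204862) (nat_lit 27) (.e (nat_lit 344117) (nat_lit 21) (.e (nat_lit 516106) (nat_lit 0) (.e (nat_lit 3721) (nat_lit 227) (.e (nat_lit 778482) (nat_lit 12) (.e (nat_lit 163963) (nat_lit 25) .nil))))))))) (.g (nat_lit 1) (.e (nat_lit 395771) (nat_lit 0) .nil) .nil))) 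
(.lf (nat_lit 589553) (.g (nat_lit 3155) (.e (nat_lit 532503) (nat_lit 1) (.e (nat_lit 57924) (nat_lit 282) (.e (nat_lit 163867) (nat_lit 2) (.e (nat_lit 196670) (nat_lit 14) (.e (nat_lit 73746) (nat_lit 3) (.e (nat_lit 516131) (nat_lit 3) (.e (nat_lit 221197) (nat_lit 20) (.e (nat_lit 3248) (nat_lit 197) .nil)))))))) (.g (nat_lit 1) (.e (nat_lit 396570) (nat_lit 0) .nil) .nil)))) 
(.nd (nat_lit 9) 
(.lf (nat_lit 589297) (.g (nat_lit 2313) (.e (nat_lit 532501) (nat_lit 1) (.e (nat_lit 57928) (nat_lit 282) (.e (nat_lit 163868) (nat_lit 2) (.e (nat_lit 196670) (nat_lit 14) (.e (nat_lit 73746) (nat_lit 3) .nil))))) (.g (nat_lit 0) (.e (nat_lit 396194) (nat_lit 0) .nil) .nil))) 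
(.lf (nat_lit 589809) (.g (nat_lit 3966) (.e (nat_lit 532503) (nat_lit 1) (.e (nat_lit 57931) (nat_lit 282) (.e (nat_lit 163874) (nat_lit 3) (.e (nat_lit 204854) (nat_lit 26) (.e (nat_lit 336019) (nat_lit 3) (.e (nat_lit 98342) (nat_lit 20) (.e (nat_lit 221198) (nat_lit 20) (.e (nat_lit 3248) (nat_lit 197) .nil)))))))) (.g (nat_lit 1) (.e (nat_lit 396906) (nat_lit 0) .nil) .nil))))))))) 
(.nd (nat_lit 4) (.nd (nat_lit 5) (.nd (nat_lit 6) (.nd (nat_lit 7) (.nd (nat_lit 8) 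
(.nd (nat_lit 9) 
(.lf (nat_lit 588809) (.g (nat_lit 3026) (.e (nat_lit 532499) (nat_lit 1) (.e (nat_lit 57926) (nat_lit 282) (.e (nat_lit 163869) (nat_lit 2) (.e (nat_lit 196668) (nat_lit 14) (.e (nat_lit 73746) (nat_lit 3) (.e (nat_lit 516129) (nat_lit 3) (.e (nat_lit 221204) (nat_lit 20) (.e (nat_lit 3253) (nat_lit 197) .nil)))))))) (.g (nat_lit 1) (.e (nat_lit 395353) (nat_lit 0) .nil) .nil))) 
(.lf (nat_lit 589321) (.g (nat_lit 2966) (.e (nat_lit 532501) (nat_lit 1) (.e (nat_lit 57931) (nat_lit 282) (.e (nat_lit 163884) (nat_lit 5) (.e (nat_lit 221210) (nat_lit 22) (.e (nat_lit 196656) (nat_lit 11) (.e (nat_lit 16425) (nat_lit 7) (.e (nat_lit 409617) (nat_lit 10) (.e (nat_lit 604) (nat_lit 45) .nil)))))))) (.g (nat_lit 1) (.e (nat_lit 396242) (nat_lit 0) .nil) .nil)))) (.nd (nat_lit 9) 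
(.lf (nat_lit 589065) (.g (nat_lit 3053) (.e (nat_lit 532499) (nat_lit 1) (.e (nat_lit 57927) (nat_lit 282) (.e (nat_lit 163884) (nat_lit 5) (.e (nat_lit 221212) (nat_lit 22) (.e (nat_lit 196656) (nat_lit 11) (.e (nat_lit 16425) (nat_lit 7) (.e (nat_lit 409616) (nat_lit 10) (.e (nat_lit 604) (nat_lit 45) .nil)))))))) (.g (nat_lit 1) (.e (nat_lit 395801) (nat_lit 0) .nil) .nil))) 
(.lf (nat_lit 589577) (.g (nat_lit 1737) (.e (nat_lit 532503) (nat_lit 1) (.e (nat_lit 57931) (nat_lit 282) (.e (nat_lit 163866) (nat_lit 2) (.e (nat_lit 196670) (nat_lit 14) (.e (nat_lit 73746) (nat_lit 3) .nil))))) (.g (nat_lit 0) (.e (nat_lit 396600) (nat_lit 0) .nil) .nil))))) (.nd (nat_lit 8) (.nd (nat_lit 9) 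
(.lf (nat_lit 588937) (.g (nat_lit 2534) (.e (nat_lit 532499) (nat_lit 1) (.e (nat_lit 57927) (nat_lit 282) (.e (nat_lit 163869) (nat_lit 2) (.e (nat_lit 196668) (nat_lit 14) (.e (nat_lit 73746) (nat_lit 3) .nil))))) (.g (nat_lit 0) (.e (nat_lit 395558) (nat_lit 0) .nil) .nil))) 
(.lf (nat_lit 589449) (.g (nat_lit 2540) (.e (nat_lit 532503) (nat_lit 1) (.e (nat_lit 57844) (nat_lit 252) (.e (nat_lit 57406) (nat_lit 12) (.e (nat_lit 336454) (nat_lit 34) (.e (nat_lit 483385) (nat_lit 23) .nil))))) (.g (nat_lit 0) (.e (nat_lit 396456) (nat_lit 0) .nil) .nil)))) (.nd (nat_lit 9) 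
(.lf (nat_lit 589193) (.g (nat_lit 3575) (.e (nat_lit 532501) (nat_lit 1) (.e (nat_lit 57852) (nat_lit 252) (.e (nat_lit 57406) (nat_lit 12) (.e (nat_lit 336454) (nat_lit 34) (.e (nat_lit 483404) (nat_lit 26) .nil))))) (.g (nat_lit 0) (.e (nat_lit 395991) (nat_lit 0) .nil) .nil))) 
(.lf (nat_lit 589705) (.g (nat_lit 3085) (.e (nat_lit 532503) (nat_lit 1) (.e (nat_lit 57931) (nat_lit 282) (.e (nat_lit 163869) (nat_lit 2) (.e (nat_lit 196668) (nat_lit 14) (.e (nat_lit 73747) (nat_lit 3) (.e (nat_lit 516129) (nat_lit 3) (.e (nat_lit 221198) (nat_lit 20) (.e (nat_lit 3230) (nat_lit 197) .nil)))))))) (.g (nat_lit 1) (.e (nat_lit 396796) (nat_lit 0) .nil) .nil)))))) 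
(.nd (nat_lit 7) (.nd (nat_lit 8) (.nd (nat_lit 9) 
(.lf (nat_lit 588873) (.g (nat_lit 2703) (.e (nat_lit 532499) (nat_lit 1) (.e (nat_lit 57927) (nat_lit 282) (.e (nat_lit 163868) (nat_lit 2) (.e (nat_lit 196668) (nat_lit 14) (.e (nat_lit 73747) (nat_lit 3) (.e (nat_lit 516129) (nat_lit 3) (.e (nat_lit 221196) (nat_lit 20) (.e (nat_lit 3237) (nat_lit 197) .nil)))))))) (.g (nat_lit 1) (.e (nat_lit 395474) (nat_lit 0) .nil) .nil))) 
(.lf (nat_lit 589385) (.g (nat_lit 1754) (.e (nat_lit 532502) (nat_lit 1) (.e (nat_lit 57851) (nat_lit 252) (.e (nat_lit 57406) (nat_lit 12) (.e (nat_lit 336456) (nat_lit 34) (.e (nat_lit 483405) (nat_lit 26) .nil))))) (.g (nat_lit 0) (.e (nat_lit 396337) (nat_lit 0) .nil) .nil)))) (.nd (nat_lit 9) 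
(.lf (nat_lit 589129) (.g (nat_lit 2148) (.e (nat_lit 532500) (nat_lit 1) (.e (nat_lit 57927) (nat_lit 282) (.e (nat_lit 163869) (nat_lit 2) (.e (nat_lit 196666) (nat_lit 13) (.e (nat_lit 65571) (nat_lit 3) (.e (nat_lit 98342) (nat_lit 20) (.e (nat_lit 221198) (nat_lit 20) (.e (nat_lit 3241) (nat_lit 197) .nil)))))))) (.g (nat_lit 1) (.e (nat_lit 395893) (nat_lit 0) .nil) .nil))) 
(.lf (nat_lit 589641) (.g (nat_lit 3100) (.e (nat_lit 532503) (nat_lit 1) (.e (nat_lit 57931) (nat_lit 282) (.e (nat_lit 163867) (nat_lit 2) (.e (nat_lit 196670) (nat_lit 14) (.e (nat_lit 73746) (nat_lit 3) (.e (nat_lit 516129) (nat_lit 3) (.e (nat_lit 221196) (nat_lit 20) (.e (nat_lit 3250) (nat_lit 197) .nil)))))))) (.g (nat_lit 1) (.e (nat_lit 396695) (nat_lit 0) .nil) .nil))))) 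
(.nd (nat_lit 8) (.nd (nat_lit 9) 
(.lf (nat_lit 589001) (.g (nat_lit 1698) (.e (nat_lit 532499) (nat_lit 1) (.e (nat_lit 57927) (nat_lit 282) (.e (nat_lit 163871) (nat_lit 2) (.e (nat_lit 196663) (nat_lit 13) .nil)))) (.g (nat_lit 0) (.e (nat_lit 395682) (nat_lit 0) .nil) .nil))) 
(.lf (nat_lit 589513) (.g (nat_lit 4753) (.e (nat_lit 532503) (nat_lit 1) (.e (nat_lit 57848) (nat_lit 252) (.e (nat_lit 57407) (nat_lit 12) (.e (nat_lit 336454) (nat_lit 34) (.e (nat_lit 483385) (nat_lit 23) (.e (nat_lit 336306) (nat_lit 15) (.e (nat_lit 3238) (nat_lit 197) .nil))))))) (.g (nat_lit 1) (.e (nat_lit 396526) (nat_lit 0) .nil) .nil)))) (.nd (nat_lit 9) 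
(.lf (nat_lit 589257) (.g (nat_lit 3260) (.e (nat_lit 532501) (nat_lit 1) (.e (nat_lit 57927) (nat_lit 282) (.e (nat_lit 163868) (nat_lit 2) (.e (nat_lit 196670) (nat_lit 14) (.e (nat_lit 73746) (nat_lit 3) (.e (nat_lit 516126) (nat_lit 2) (.e (nat_lit 213035) (nat_lit 12) (.e (nat_lit 163964) (nat_lit 25) .nil)))))))) (.g (nat_lit 1) (.e (nat_lit 396115) (nat_lit 0) .nil) .nil))) 
(.lf (nat_lit 589769) (.g (nat_lit 3016) (.e (nat_lit 532503) (nat_lit 1) (.e (nat_lit 57931) (nat_lit 282) (.e (nat_lit 163869) (nat_lit 2) (.e (nat_lit 196670) (nat_lit 14) (.e (nat_lit 73746) (nat_lit 3) (.e (nat_lit 516129) (nat_lit 3) (.e (nat_lit 221198) (nat_lit 20) (.e (nat_lit 3244) (nat_lit 197) .nil)))))))) (.g (nat_lit 1) (.e (nat_lit 396860) (nat_lit 0) .nil) .nil))))))) 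
(.nd (nat_lit 6) (.nd (nat_lit 7) (.nd (nat_lit 8) (.nd (nat_lit 9) 
(.lf (nat_lit 588841) (.g (nat_lit 2041) (.e (nat_lit 532499) (nat_lit 1) (.e (nat_lit 57927) (nat_lit 282) (.e (nat_lit 163866) (nat_lit 2) (.e (nat_lit 196668) (nat_lit 14) (.e (nat_lit 73746) (nat_lit 3) .nil))))) (.g (nat_lit 0) (.e (nat_lit 395396) (nat_lit 0) .nil) .nil))) 
(.lf (nat_lit 589353) (.g (nat_lit 2213) (.e (nat_lit 532502) (nat_lit 1) (.e (nat_lit 57691) (nat_lit 156) (.e (nat_lit 163874) (nat_lit 3) (.e (nat_lit 204837) (nat_lit 20) (.e (nat_lit 114716) (nat_lit 22) .nil))))) (.g (nat_lit 0) (.e (nat_lit 396289) (nat_lit 0) .nil) .nil)))) (.nd (nat_lit 9) 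
(.lf (nat_lit 589097) (.g (nat_lit 3870) (.e (nat_lit 532499) (nat_lit 1) (.e (nat_lit 57931) (nat_lit 282) (.e (nat_lit 163885) (nat_lit 5) (.e (nat_lit 221212) (nat_lit 22) (.e (nat_lit 196656) (nat_lit 11) (.e (nat_lit 16425) (nat_lit 7) (.e (nat_lit 409617) (nat_lit 10) (.e (nat_lit 604) (nat_lit 45) .nil)))))))) (.g (nat_lit 1) (.e (nat_lit 395845) (nat_lit 0) .nil) .nil))) 
(.lf (nat_lit 589609) (.g (nat_lit 3043) (.e (nat_lit 532503) (nat_lit 1) (.e (nat_lit 57931) (nat_lit 282) (.e (nat_lit 163867) (nat_lit 2) (.e (nat_lit 196668) (nat_lit 14) (.e (nat_lit 73746) (nat_lit 3) (.e (nat_lit 516131) (nat_lit 3) (.e (nat_lit 221204) (nat_lit 20) (.e (nat_lit 3253) (nat_lit 197) .nil)))))))) (.g (nat_lit 1) (.e (nat_lit 396638) (nat_lit 0) .nil) .nil))))) 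
(.nd (nat_lit 8) (.nd (nat_lit 9) 
(.lf (nat_lit 588969) (.g (nat_lit 2732) (.e (nat_lit 532499) (nat_lit 1) (.e (nat_lit 57927) (nat_lit 282) (.e (nat_lit 163869) (nat_lit 2) (.e (nat_lit 196670) (nat_lit 14) (.e (nat_lit 73746) (nat_lit 3) (.e (nat_lit 516126) (nat_lit 2) (.e (nat_lit 213038) (nat_lit 13) (.e (nat_lit 229432) (nat_lit 25) .nil)))))))) (.g (nat_lit 1) (.e (nat_lit 395621) (nat_lit 0) .nil) .nil))) 
(.lf (nat_lit 589481) (.g (nat_lit 2373) (.e (nat_lit 532503) (nat_lit 1) (.e (nat_lit 57847) (nat_lit 252) (.e (nat_lit 57407) (nat_lit 12) (.e (nat_lit 336456) (nat_lit 34) (.e (nat_lit 483407) (nat_lit 26) .nil))))) (.g (nat_lit 0) (.e (nat_lit 396489) (nat_lit 0) .nil) .nil)))) (.nd (nat_lit 9) 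
(.lf (nat_lit 589225) (.g (nat_lit 1877) (.e (nat_lit 532501) (nat_lit 1) (.e (nat_lit 57926) (nat_lit 282) (.e (nat_lit 163869) (nat_lit 2) (.e (nat_lit 196670) (nat_lit 14) (.e (nat_lit 73746) (nat_lit 3) .nil))))) (.g (nat_lit 0) (.e (nat_lit 396050) (nat_lit 0) .nil) .nil))) 
(.lf (nat_lit 589737) (.g (nat_lit 3244) (.e (nat_lit 532503) (nat_lit 1) (.e (nat_lit 57931) (nat_lit 282) (.e (nat_lit 163869) (nat_lit 2) (.e (nat_lit 196670) (nat_lit 14) (.e (nat_lit 73746) (nat_lit 3) (.e (nat_lit 516126) (nat_lit 2) (.e (nat_lit 213036) (nat_lit 13) (.e (nat_lit 229433) (nat_lit 25) .nil)))))))) (.g (nat_lit 1) (.e (nat_lit 396828) (nat_lit 0) .nil) .nil)))))) 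
(.nd (nat_lit 7) (.nd (nat_lit 8) (.nd (nat_lit 9) 
(.lf (nat_lit 588905) (.g (nat_lit 3382) (.e (nat_lit 532499) (nat_lit 1) (.e (nat_lit 57927) (nat_lit 282) (.e (nat_lit 163868) (nat_lit 2) (.e (nat_lit 196670) (nat_lit 14) (.e (nat_lit 73746) (nat_lit 3) (.e (nat_lit 516127) (nat_lit 2) (.e (nat_lit 213033) (nat_lit 12) (.e (nat_lit 163962) (nat_lit 25) .nil)))))))) (.g (nat_lit 1) (.e (nat_lit 395507) (nat_lit 0) .nil) .nil))) 
(.lf (nat_lit 589417) (.g (nat_lit 1354) (.e (nat_lit 532503) (nat_lit 1) (.e (nat_lit 57688) (nat_lit 156) (.e (nat_lit 163874) (nat_lit 3) (.e (nat_lit 204838) (nat_lit 20) .nil)))) (.g (nat_lit 0) (.e (nat_lit 396391) (nat_lit 0) .nil) .nil)))) (.nd (nat_lit 9) 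
(.lf (nat_lit 589161) (.g (nat_lit 2342) (.e (nat_lit 532501) (nat_lit 1) (.e (nat_lit 57851) (nat_lit 252) (.e (nat_lit 57406) (nat_lit 12) (.e (nat_lit 336367) (nat_lit 27) (.e (nat_lit 426555) (nat_lit 32) (.e (nat_lit 376832) (nat_lit 0) (.e (nat_lit 3233) (nat_lit 197) .nil))))))) (.g (nat_lit 1) (.e (nat_lit 395958) (nat_lit 0) .nil) .nil))) 
(.lf (nat_lit 589673) (.g (nat_lit 2321) (.e (nat_lit 532503) (nat_lit 1) (.e (nat_lit 57931) (nat_lit 282) (.e (nat_lit 163869) (nat_lit 2) (.e (nat_lit 196663) (nat_lit 13) (.e (nat_lit 65571) (nat_lit 3) .nil))))) (.g (nat_lit 0) (.e (nat_lit 396727) (nat_lit 0) .nil) .nil))))) (.nd (nat_lit 8) (.nd (nat_lit 9) 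
(.lf (nat_lit 589033) (.g (nat_lit 2355) (.e (nat_lit 532499) (nat_lit 1) (.e (nat_lit 57927) (nat_lit 282) (.e (nat_lit 163874) (nat_lit 3) (.e (nat_lit 204851) (nat_lit 26) (.e (nat_lit 336019) (nat_lit 3) .nil))))) (.g (nat_lit 0) (.e (nat_lit 395759) (nat_lit 0) .nil) .nil))) 
(.lf (nat_lit 589545) (.g (nat_lit 3028) (.e (nat_lit 532503) (nat_lit 1) (.e (nat_lit 57924) (nat_lit 282) (.e (nat_lit 163867) (nat_lit 2) (.e (nat_lit 196668) (nat_lit 14) (.e (nat_lit 73747) (nat_lit 3) (.e (nat_lit 516129) (nat_lit 3) (.e (nat_lit 221196) (nat_lit 20) (.e (nat_lit 3248) (nat_lit 197) .nil)))))))) (.g (nat_lit 1) (.e (nat_lit 396560) (nat_lit 0) .nil) .nil)))) 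
(.nd (nat_lit 9) 
(.lf (nat_lit 589289) (.g (nat_lit 3030) (.e (nat_lit 532501) (nat_lit 1) (.e (nat_lit 57927) (nat_lit 282) (.e (nat_lit 163875) (nat_lit 3) (.e (nat_lit 204862) (nat_lit 27) (.e (nat_lit 344117) (nat_lit 21) (.e (nat_lit 516122) (nat_lit 2) (.e (nat_lit 213035) (nat_lit 12) (.e (nat_lit 163964) (nat_lit 25) .nil)))))))) (.g (nat_lit 1) (.e (nat_lit 396181) (nat_lit 0) .nil) .nil))) 
(.lf (nat_lit 589801) (.g (nat_lit 2520) (.e (nat_lit 532503) (nat_lit 1) (.e (nat_lit 57931) (nat_lit 282) (.e (nat_lit 163874) (nat_lit 3) (.e (nat_lit 204851) (nat_lit 26) (.e (nat_lit 336019) (nat_lit 3) .nil))))) (.g (nat_lit 0) (.e (nat_lit 396894) (nat_lit 0) .nil) .nil)))))))) (.nd (nat_lit 5) (.nd (nat_lit 6) (.nd (nat_lit 7) (.nd (nat_lit 8) (.nd (nat_lit 9) 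
(.lf (nat_lit 588825) (.g (nat_lit 2834) (.e (nat_lit 532499) (nat_lit 1) (.e (nat_lit 57926) (nat_lit 282) (.e (nat_lit 163869) (nat_lit 2) (.e (nat_lit 196670) (nat_lit 14) (.e (nat_lit 73746) (nat_lit 3) (.e (nat_lit 516126) (nat_lit 2) (.e (nat_lit 213034) (nat_lit 12) (.e (nat_lit 163963) (nat_lit 25) .nil)))))))) (.g (nat_lit 1) (.e (nat_lit 395369) (nat_lit 0) .nil) .nil))) 
(.lf (nat_lit 589337) (.g (nat_lit 392) (.e (nat_lit 532502) (nat_lit 1) (.e (nat_lit 57688) (nat_lit 156) (.e (nat_lit 163903) (nat_lit 12) .nil))) (.g (nat_lit 0) (.e (nat_lit 396260) (nat_lit 0) .nil) .nil)))) (.nd (nat_lit 9) 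
(.lf (nat_lit 589081) (.g (nat_lit 4032) (.e (nat_lit 532499) (nat_lit 1) (.e (nat_lit 57931) (nat_lit 282) (.e (nat_lit 163869) (nat_lit 2) (.e (nat_lit 196670) (nat_lit 14) (.e (nat_lit 73746) (nat_lit 3) (.e (nat_lit 516124) (nat_lit 2) (.e (nat_lit 220928) (nat_lit 13) (.e (nat_lit 229433) (nat_lit 25) .nil)))))))) (.g (nat_lit 1) (.e (nat_lit 395827) (nat_lit 0) .nil) .nil))) 
(.lf (nat_lit 589593) (.g (nat_lit 2806) (.e (nat_lit 532503) (nat_lit 1) (.e (nat_lit 57931) (nat_lit 282) (.e (nat_lit 163867) (nat_lit 2) (.e (nat_lit 196668) (nat_lit 14) (.e (nat_lit 73746) (nat_lit 3) (.e (nat_lit 516129) (nat_lit 3) (.e (nat_lit 221196) (nat_lit 20) (.e (nat_lit 3236) (nat_lit 197) .nil)))))))) (.g (nat_lit 1) (.e (nat_lit 396622) (nat_lit 0) .nil) .nil))))) 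
(.nd (nat_lit 8) (.nd (nat_lit 9) 
(.lf (nat_lit 588953) (.g (nat_lit 2838) (.e (nat_lit 532499) (nat_lit 1) (.e (nat_lit 57927) (nat_lit 282) (.e (nat_lit 163869) (nat_lit 2) (.e (nat_lit 196670) (nat_lit 14) (.e (nat_lit 73746) (nat_lit 3) (.e (nat_lit 516122) (nat_lit 2) (.e (nat_lit 213033) (nat_lit 12) (.e (nat_lit 163962) (nat_lit 25) .nil)))))))) (.g (nat_lit 1) (.e (nat_lit 395605) (nat_lit 0) .nil) .nil))) 
(.lf (nat_lit 589465) (.g (nat_lit 1672) (.e (nat_lit 532503) (nat_lit 1) (.e (nat_lit 57847) (nat_lit 252) (.e (nat_lit 57379) (nat_lit 3) (.e (nat_lit 98340) (nat_lit 20) .nil)))) (.g (nat_lit 0) (.e (nat_lit 396472) (nat_lit 0) .nil) .nil)))) (.nd (nat_lit 9) 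
(.lf (nat_lit 589209) (.g (nat_lit 2253) (.e (nat_lit 532501) (nat_lit 1) (.e (nat_lit 57854) (nat_lit 252) (.e (nat_lit 57406) (nat_lit 12) (.e (nat_lit 336456) (nat_lit 34) (.e (nat_lit 483393) (nat_lit 23) (.e (nat_lit 336293) (nat_lit 15) (.e (nat_lit 3253) (nat_lit 197) .nil))))))) (.g (nat_lit 1) (.e (nat_lit 396010) (nat_lit 0) .nil) .nil))) 
(.lf (nat_lit 589721) (.g (nat_lit 3401) (.e (nat_lit 532503) (nat_lit 1) (.e (nat_lit 57931) (nat_lit 282) (.e (nat_lit 163869) (nat_lit 2) (.e (nat_lit 196670) (nat_lit 14) (.e (nat_lit 73746) (nat_lit 3) (.e (nat_lit 516122) (nat_lit 2) (.e (nat_lit 213035) (nat_lit 12) (.e (nat_lit 163964) (nat_lit 25) .nil)))))))) (.g (nat_lit 1) (.e (nat_lit 396812) (nat_lit 0) .nil) .nil)))))) 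
(.nd (nat_lit 7) (.nd (nat_lit 8) (.nd (nat_lit 9) 
(.lf (nat_lit 588889) (.g (nat_lit 2964) (.e (nat_lit 532499) (nat_lit 1) (.e (nat_lit 57927) (nat_lit 282) (.e (nat_lit 163868) (nat_lit 2) (.e (nat_lit 196670) (nat_lit 14) (.e (nat_lit 73746) (nat_lit 3) (.e (nat_lit 516122) (nat_lit 2) (.e (nat_lit 213035) (nat_lit 12) (.e (nat_lit 163965) (nat_lit 25) .nil)))))))) (.g (nat_lit 1) (.e (nat_lit 395491) (nat_lit 0) .nil) .nil))) 
(.lf (nat_lit 589401) (.g (nat_lit 2727) (.e (nat_lit 532503) (nat_lit 1) (.e (nat_lit 57685) (nat_lit 156) (.e (nat_lit 163902) (nat_lit 12) (.e (nat_lit 426568) (nat_lit 34) (.e (nat_lit 393286) (nat_lit 25) (.e (nat_lit 458789) (nat_lit 23) .nil)))))) (.g (nat_lit 1) (.e (nat_lit 396364) (nat_lit 0) .nil) .nil)))) (.nd (nat_lit 9) 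
(.lf (nat_lit 589145) (.g (nat_lit 3388) (.e (nat_lit 532501) (nat_lit 1) (.e (nat_lit 57691) (nat_lit 156) (.e (nat_lit 163907) (nat_lit 12) (.e (nat_lit 426479) (nat_lit 27) (.e (nat_lit 336432) (nat_lit 30) (.e (nat_lit 450580) (nat_lit 5) .nil)))))) (.g (nat_lit 1) (.e (nat_lit 395923) (nat_lit 0) .nil) .nil))) 
(.lf (nat_lit 589657) (.g (nat_lit 4432) (.e (nat_lit 532503) (nat_lit 1) (.e (nat_lit 57931) (nat_lit 282) (.e (nat_lit 163867) (nat_lit 2) (.e (nat_lit 196670) (nat_lit 14) (.e (nat_lit 73746) (nat_lit 3) (.e (nat_lit 516129) (nat_lit 3) (.e (nat_lit 221202) (nat_lit 20) (.e (nat_lit 3249) (nat_lit 197) .nil)))))))) (.g (nat_lit 1) (.e (nat_lit 396711) (nat_lit 0) .nil) .nil))))) 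
(.nd (nat_lit 8) (.nd (nat_lit 9) 
(.lf (nat_lit 589017) (.g (nat_lit 2381) (.e (nat_lit 532499) (nat_lit 1) (.e (nat_lit 57927) (nat_lit 282) (.e (nat_lit 163871) (nat_lit 2) (.e (nat_lit 196670) (nat_lit 14) (.e (nat_lit 73746) (nat_lit 3) (.e (nat_lit 516126) (nat_lit 2) (.e (nat_lit 213038) (nat_lit 13) (.e (nat_lit 229434) (nat_lit 25) .nil)))))))) (.g (nat_lit 1) (.e (nat_lit 395742) (nat_lit 0) .nil) .nil))) 
(.lf (nat_lit 589529) (.g (nat_lit 3412) (.e (nat_lit 532503) (nat_lit 1) (.e (nat_lit 57849) (nat_lit 252) (.e (nat_lit 57407) (nat_lit 12) (.e (nat_lit 336454) (nat_lit 34) (.e (nat_lit 483385) (nat_lit 23) (.e (nat_lit 336260) (nat_lit 15) (.e (nat_lit 3230) (nat_lit 197) .nil))))))) (.g (nat_lit 1) (.e (nat_lit 396544) (nat_lit 0) .nil) .nil)))) (.nd (nat_lit 9) 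
(.lf (nat_lit 589273) (.g (nat_lit 2974) (.e (nat_lit 532501) (nat_lit 1) (.e (nat_lit 57927) (nat_lit 282) (.e (nat_lit 163869) (nat_lit 2) (.e (nat_lit 196670) (nat_lit 14) (.e (nat_lit 73746) (nat_lit 3) (.e (nat_lit 516126) (nat_lit 2) (.e (nat_lit 213035) (nat_lit 12) (.e (nat_lit 163963) (nat_lit 25) .nil)))))))) (.g (nat_lit 1) (.e (nat_lit 396143) (nat_lit 0) .nil) .nil))) 
(.lf (nat_lit 589785) (.g (nat_lit 3215) (.e (nat_lit 532503) (nat_lit 1) (.e (nat_lit 57931) (nat_lit 282) (.e (nat_lit 163869) (nat_lit 2) (.e (nat_lit 196670) (nat_lit 14) (.e (nat_lit 73746) (nat_lit 3) (.e (nat_lit 516131) (nat_lit 3) (.e (nat_lit 221197) (nat_lit 20) (.e (nat_lit 3236) (nat_lit 197) .nil)))))))) (.g (nat_lit 1) (.e (nat_lit 396876) (nat_lit 0) .nil) .nil))))))) 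
(.nd (nat_lit 6) (.nd (nat_lit 7) (.nd (nat_lit 8) (.nd (nat_lit 9) 
(.lf (nat_lit 588857) (.g (nat_lit 2300) (.e (nat_lit 532499) (nat_lit 1) (.e (nat_lit 57927) (nat_lit 282) (.e (nat_lit 163867) (nat_lit 2) (.e (nat_lit 196668) (nat_lit 14) (.e (nat_lit 73747) (nat_lit 3) .nil))))) (.g (nat_lit 0) (.e (nat_lit 395417) (nat_lit 0) .nil) .nil))) 
(.lf (nat_lit 589369) (.g (nat_lit 3121) (.e (nat_lit 532502) (nat_lit 1) (.e (nat_lit 57846) (nat_lit 252) (.e (nat_lit 57406) (nat_lit 12) (.e (nat_lit 336454) (nat_lit 34) (.e (nat_lit 483405) (nat_lit 26) .nil))))) (.g (nat_lit 0) (.e (nat_lit 396315) (nat_lit 0) .nil) .nil)))) (.nd (nat_lit 9) 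
(.lf (nat_lit 589113) (.g (nat_lit 1569) (.e (nat_lit 532500) (nat_lit 1) (.e (nat_lit 57852) (nat_lit 252) (.e (nat_lit 57408) (nat_lit 12) (.e (nat_lit 336454) (nat_lit 34) .nil)))) (.g (nat_lit 0) (.e (nat_lit 395866) (nat_lit 0) .nil) .nil))) 
(.lf (nat_lit 589625) (.g (nat_lit 2511) (.e (nat_lit 532503) (nat_lit 1) (.e (nat_lit 57931) (nat_lit 282) (.e (nat_lit 163867) (nat_lit 2) (.e (nat_lit 196668) (nat_lit 14) (.e (nat_lit 73747) (nat_lit 3) (.e (nat_lit 516131) (nat_lit 3) (.e (nat_lit 221197) (nat_lit 20) (.e (nat_lit 3236) (nat_lit 197) .nil)))))))) (.g (nat_lit 1) (.e (nat_lit 396657) (nat_lit 0) .nil) .nil))))) 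
(.nd (nat_lit 8) (.nd (nat_lit 9) 
(.lf (nat_lit 588985) (.g (nat_lit 2433) (.e (nat_lit 532499) (nat_lit 1) (.e (nat_lit 57927) (nat_lit 282) (.e (nat_lit 163869) (nat_lit 2) (.e (nat_lit 196670) (nat_lit 14) (.e (nat_lit 73746) (nat_lit 3) (.e (nat_lit 516129) (nat_lit 3) (.e (nat_lit 221198) (nat_lit 20) (.e (nat_lit 3240) (nat_lit 197) .nil)))))))) (.g (nat_lit 1) (.e (nat_lit 395637) (nat_lit 0) .nil) .nil))) 
(.lf (nat_lit 589497) (.g (nat_lit 1387) (.e (nat_lit 532503) (nat_lit 1) (.e (nat_lit 57847) (nat_lit 252) (.e (nat_lit 57411) (nat_lit 12) (.e (nat_lit 336456) (nat_lit 34) (.e (nat_lit 483379) (nat_lit 23) .nil))))) (.g (nat_lit 0) (.e (nat_lit 396508) (nat_lit 0) .nil) .nil)))) (.nd (nat_lit 9) 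
(.lf (nat_lit 589241) (.g (nat_lit 4929) (.e (nat_lit 532501) (nat_lit 1) (.e (nat_lit 57926) (nat_lit 282) (.e (nat_lit 163869) (nat_lit 2) (.e (nat_lit 196670) (nat_lit 14) (.e (nat_lit 73746) (nat_lit 3) (.e (nat_lit 516129) (nat_lit 3) (.e (nat_lit 221204) (nat_lit 20) (.e (nat_lit 3253) (nat_lit 197) .nil)))))))) (.g (nat_lit 1) (.e (nat_lit 396066) (nat_lit 0) .nil) .nil))) 
(.lf (nat_lit 589753) (.g (nat_lit 4041) (.e (nat_lit 532503) (nat_lit 1) (.e (nat_lit 57931) (nat_lit 282) (.e (nat_lit 163869) (nat_lit 2) (.e (nat_lit 196670) (nat_lit 14) (.e (nat_lit 73746) (nat_lit 3) (.e (nat_lit 516129) (nat_lit 3) (.e (nat_lit 221196) (nat_lit 20) (.e (nat_lit 3236) (nat_lit 197) .nil)))))))) (.g (nat_lit 1) (.e (nat_lit 396844) (nat_lit 0) .nil) .nil)))))) 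
(.nd (nat_lit 7) (.nd (nat_lit 8) (.nd (nat_lit 9) 
(.lf (nat_lit 588921) (.g (nat_lit 3449) (.e (nat_lit 532499) (nat_lit 1) (.e (nat_lit 57927) (nat_lit 282) (.e (nat_lit 163869) (nat_lit 2) (.e (nat_lit 196663) (nat_lit 13) (.e (nat_lit 65571) (nat_lit 3) (.e (nat_lit 98341) (nat_lit 20) (.e (nat_lit 221204) (nat_lit 20) (.e (nat_lit 3253) (nat_lit 197) .nil)))))))) (.g (nat_lit 1) (.e (nat_lit 395523) (nat_lit 0) .nil) .nil))) 
(.lf (nat_lit 589433) (.g (nat_lit 2804) (.e (nat_lit 532503) (nat_lit 1) (.e (nat_lit 57688) (nat_lit 156) (.e (nat_lit 163905) (nat_lit 12) (.e (nat_lit 426568) (nat_lit 34) (.e (nat_lit 393284) (nat_lit 24) (.e (nat_lit 434233) (nat_lit 23) .nil)))))) (.g (nat_lit 1) (.e (nat_lit 396412) (nat_lit 0) .nil) .nil)))) (.nd (nat_lit 9) 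
(.lf (nat_lit 589177) (.g (nat_lit 3274) (.e (nat_lit 532501) (nat_lit 1) (.e (nat_lit 57851) (nat_lit 252) (.e (nat_lit 57408) (nat_lit 12) (.e (nat_lit 336454) (nat_lit 34) (.e (nat_lit 483384) (nat_lit 23) (.e (nat_lit 336306) (nat_lit 15) (.e (nat_lit 3238) (nat_lit 197) .nil))))))) (.g (nat_lit 1) (.e (nat_lit 395974) (nat_lit 0) .nil) .nil))) 
(.lf (nat_lit 589689) (.g (nat_lit 3319) (.e (nat_lit 532503) (nat_lit 1) (.e (nat_lit 57931) (nat_lit 282) (.e (nat_lit 163869) (nat_lit 2) (.e (nat_lit 196668) (nat_lit 14) (.e (nat_lit 73746) (nat_lit 3) (.e (nat_lit 516129) (nat_lit 3) (.e (nat_lit 221202) (nat_lit 20) (.e (nat_lit 3245) (nat_lit 197) .nil)))))))) (.g (nat_lit 1) (.e (nat_lit 396777) (nat_lit 0) .nil) .nil))))) 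
(.nd (nat_lit 8) (.nd (nat_lit 9) 
(.lf (nat_lit 589049) (.g (nat_lit 3518) (.e (nat_lit 532499) (nat_lit 1) (.e (nat_lit 57927) (nat_lit 282) (.e (nat_lit 163874) (nat_lit 3) (.e (nat_lit 204863) (nat_lit 27) (.e (nat_lit 344117) (nat_lit 21) (.e (nat_lit 516123) (nat_lit 2) (.e (nat_lit 213033) (nat_lit 12) (.e (nat_lit 163962) (nat_lit 25) .nil)))))))) (.g (nat_lit 1) (.e (nat_lit 395779) (nat_lit 0) .nil) .nil))) 
(.lf (nat_lit 589561) (.g (nat_lit 2501) (.e (nat_lit 532503) (nat_lit 1) (.e (nat_lit 57929) (nat_lit 282) (.e (nat_lit 163869) (nat_lit 2) (.e (nat_lit 196668) (nat_lit 14) (.e (nat_lit 73747) (nat_lit 3) (.e (nat_lit 516131) (nat_lit 3) (.e (nat_lit 221198) (nat_lit 20) (.e (nat_lit 3248) (nat_lit 197) .nil)))))))) (.g (nat_lit 1) (.e (nat_lit 396579) (nat_lit 0) .nil) .nil)))) 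
(.nd (nat_lit 9) 
(.lf (nat_lit 589305) (.g (nat_lit 2978) (.e (nat_lit 532501) (nat_lit 1) (.e (nat_lit 57929) (nat_lit 282) (.e (nat_lit 163869) (nat_lit 2) (.e (nat_lit 196670) (nat_lit 14) (.e (nat_lit 73746) (nat_lit 3) (.e (nat_lit 516122) (nat_lit 2) (.e (nat_lit 213036) (nat_lit 13) (.e (nat_lit 229433) (nat_lit 25) .nil)))))))) (.g (nat_lit 1) (.e (nat_lit 396210) (nat_lit 0) .nil) .nil))) 
(.lf (nat_lit 589817) (.g (nat_lit 2066) (.e (nat_lit 532503) (nat_lit 1) (.e (nat_lit 57931) (nat_lit 282) (.e (nat_lit 163874) (nat_lit 3) (.e (nat_lit 204863) (nat_lit 27) (.e (nat_lit 344117) (nat_lit 21) .nil))))) (.g (nat_lit 0) (.e (nat_lit 396914) (nat_lit 0) .nil) .nil)))))))))) 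
(.nd (nat_lit 3) (.nd (nat_lit 4) (.nd (nat_lit 5) (.nd (nat_lit 6) (.nd (nat_lit 7) 
(.nd (nat_lit 8) (.nd (nat_lit 9) 
(.lf (nat_lit 588805) (.g (nat_lit 1494) (.e (nat_lit 532499) (nat_lit 1) (.e (nat_lit 57926) (nat_lit 282) (.e (nat_lit 163868) (nat_lit 2) (.e (nat_lit 196663) (nat_lit 13) .nil)))) (.g (nat_lit 0) (.e (nat_lit 395349) (nat_lit 0) .nil) .nil))) 
(.lf (nat_lit 589317) (.g (nat_lit 3452) (.e (nat_lit 532501) (nat_lit 1) (.e (nat_lit 57931) (nat_lit 282) (.e (nat_lit 163869) (nat_lit 2) (.e (nat_lit 196670) (nat_lit 14) (.e (nat_lit 73746) (nat_lit 3) (.e (nat_lit 516122) (nat_lit 2) (.e (nat_lit 213035) (nat_lit 12) (.e (nat_lit 163964) (nat_lit 25) .nil)))))))) (.g (nat_lit 1) (.e (nat_lit 396238) (nat_lit 0) .nil) .nil)))) 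
(.nd (nat_lit 9) 
(.lf (nat_lit 589061) (.g (nat_lit 1276) (.e (nat_lit 532499) (nat_lit 1) (.e (nat_lit 57927) (nat_lit 282) (.e (nat_lit 163875) (nat_lit 3) (.e (nat_lit 204872) (nat_lit 30) (.e (nat_lit 368676) (nat_lit 21) .nil))))) (.g (nat_lit 0) (.e (nat_lit 395795) (nat_lit 0) .nil) .nil))) 
(.lf (nat_lit 589573) (.g (nat_lit 3073) (.e (nat_lit 532503) (nat_lit 1) (.e (nat_lit 57931) (nat_lit 282) (.e (nat_lit 163866) (nat_lit 2) (.e (nat_lit 196668) (nat_lit 14) (.e (nat_lit 73747) (nat_lit 3) (.e (nat_lit 516129) (nat_lit 3) (.e (nat_lit 221196) (nat_lit 20) (.e (nat_lit 3230) (nat_lit 197) .nil)))))))) (.g (nat_lit 1) (.e (nat_lit 396596) (nat_lit 0) .nil) .nil))))) 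
(.nd (nat_lit 8) (.nd (nat_lit 9) 
(.lf (nat_lit 588933) (.g (nat_lit 2489) (.e (nat_lit 532499) (nat_lit 1) (.e (nat_lit 57927) (nat_lit 282) (.e (nat_lit 163869) (nat_lit 2) (.e (nat_lit 196666) (nat_lit 13) (.e (nat_lit 65571) (nat_lit 3) (.e (nat_lit 98342) (nat_lit 20) (.e (nat_lit 221198) (nat_lit 20) (.e (nat_lit 3237) (nat_lit 197) .nil)))))))) (.g (nat_lit 1) (.e (nat_lit 395554) (nat_lit 0) .nil) .nil))) 
(.lf (nat_lit 589445) (.g (nat_lit 1782) (.e (nat_lit 532503) (nat_lit 1) (.e (nat_lit 57691) (nat_lit 156) (.e (nat_lit 163907) (nat_lit 12) (.e (nat_lit 426568) (nat_lit 34) (.e (nat_lit 393282) (nat_lit 24) .nil))))) (.g (nat_lit 0) (.e (nat_lit 396449) (nat_lit 0) .nil) .nil)))) (.nd (nat_lit 9) 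
(.lf (nat_lit 589189) (.g (nat_lit 604) (.e (nat_lit 532501) (nat_lit 1) (.e (nat_lit 57852) (nat_lit 252) (.e (nat_lit 57378) (nat_lit 3) .nil))) (.g (nat_lit 0) (.e (nat_lit 395987) (nat_lit 0) .nil) .nil))) 
(.lf (nat_lit 589701) (.g (nat_lit 3232) (.e (nat_lit 532503) (nat_lit 1) (.e (nat_lit 57931) (nat_lit 282) (.e (nat_lit 163869) (nat_lit 2) (.e (nat_lit 196668) (nat_lit 14) (.e (nat_lit 73747) (nat_lit 3) (.e (nat_lit 516129) (nat_lit 3) (.e (nat_lit 221196) (nat_lit 20) (.e (nat_lit 3246) (nat_lit 197) .nil)))))))) (.g (nat_lit 1) (.e (nat_lit 396792) (nat_lit 0) .nil) .nil)))))) 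
(.nd (nat_lit 7) (.nd (nat_lit 8) (.nd (nat_lit 9) 
(.lf (nat_lit 588869) (.g (nat_lit 2645) (.e (nat_lit 532499) (nat_lit 1) (.e (nat_lit 57927) (nat_lit 282) (.e (nat_lit 163868) (nat_lit 2) (.e (nat_lit 196668) (nat_lit 14) (.e (nat_lit 73746) (nat_lit 3) (.e (nat_lit 516129) (nat_lit 3) (.e (nat_lit 221202) (nat_lit 20) (.e (nat_lit 3233) (nat_lit 197) .nil)))))))) (.g (nat_lit 1) (.e (nat_lit 395457) (nat_lit 0) .nil) .nil))) 
(.lf (nat_lit 589381) (.g (nat_lit 1681) (.e (nat_lit 532502) (nat_lit 1) (.e (nat_lit 57848) (nat_lit 252) (.e (nat_lit 57407) (nat_lit 12) (.e (nat_lit 336456) (nat_lit 34) (.e (nat_lit 483404) (nat_lit 26) .nil))))) (.g (nat_lit 0) (.e (nat_lit 396329) (nat_lit 0) .nil) .nil)))) (.nd (nat_lit 9) 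
(.lf (nat_lit 589125) (.g (nat_lit 3137) (.e (nat_lit 532500) (nat_lit 1) (.e (nat_lit 57927) (nat_lit 282) (.e (nat_lit 163868) (nat_lit 2) (.e (nat_lit 196670) (nat_lit 14) (.e (nat_lit 73746) (nat_lit 3) (.e (nat_lit 516124) (nat_lit 2) (.e (nat_lit 213033) (nat_lit 12) (.e (nat_lit 163962) (nat_lit 25) .nil)))))))) (.g (nat_lit 1) (.e (nat_lit 395888) (nat_lit 0) .nil) .nil))) 
(.lf (nat_lit 589637) (.g (nat_lit 4664) (.e (nat_lit 532503) (nat_lit 1) (.e (nat_lit 57931) (nat_lit 282) (.e (nat_lit 163867) (nat_lit 2) (.e (nat_lit 196670) (nat_lit 14) (.e (nat_lit 73746) (nat_lit 3) (.e (nat_lit 516129) (nat_lit 3) (.e (nat_lit 221196) (nat_lit 20) (.e (nat_lit 3230) (nat_lit 197) .nil)))))))) (.g (nat_lit 1) (.e (nat_lit 396691) (nat_lit 0) .nil) .nil))))) 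
(.nd (nat_lit 8) (.nd (nat_lit 9) 
(.lf (nat_lit 588997) (.g (nat_lit 2489) (.e (nat_lit 532499) (nat_lit 1) (.e (nat_lit 57927) (nat_lit 282) (.e (nat_lit 163869) (nat_lit 2) (.e (nat_lit 196670) (nat_lit 14) (.e (nat_lit 73746) (nat_lit 3) (.e (nat_lit 516131) (nat_lit 3) (.e (nat_lit 221197) (nat_lit 20) (.e (nat_lit 3256) (nat_lit 197) .nil)))))))) (.g (nat_lit 1) (.e (nat_lit 395649) (nat_lit 0) .nil) .nil))) 
(.lf (nat_lit 589509) (.g (nat_lit 1869) (.e (nat_lit 532503) (nat_lit 1) (.e (nat_lit 57848) (nat_lit 252) (.e (nat_lit 57407) (nat_lit 12) (.e (nat_lit 336454) (nat_lit 34) (.e (nat_lit 483385) (nat_lit 23) .nil))))) (.g (nat_lit 0) (.e (nat_lit 396522) (nat_lit 0) .nil) .nil)))) (.nd (nat_lit 9) 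
(.lf (nat_lit 589253) (.g (nat_lit 2085) (.e (nat_lit 532501) (nat_lit 1) (.e (nat_lit 57927) (nat_lit 282) (.e (nat_lit 163868) (nat_lit 2) (.e (nat_lit 196668) (nat_lit 14) (.e (nat_lit 73747) (nat_lit 3) .nil))))) (.g (nat_lit 0) (.e (nat_lit 396108) (nat_lit 0) .nil) .nil))) 
(.lf (nat_lit 589765) (.g (nat_lit 3356) (.e (nat_lit 532503) (nat_lit 1) (.e (nat_lit 57931) (nat_lit 282) (.e (nat_lit 163869) (nat_lit 2) (.e (nat_lit 196670) (nat_lit 14) (.e (nat_lit 73746) (nat_lit 3) (.e (nat_lit 516129) (nat_lit 3) (.e (nat_lit 221197) (nat_lit 20) (.e (nat_lit 3247) (nat_lit 197) .nil)))))))) (.g (nat_lit 1) (.e (nat_lit 396856) (nat_lit 0) .nil) .nil))))))) 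
(.nd (nat_lit 6) (.nd (nat_lit 7) (.nd (nat_lit 8) (.nd (nat_lit 9) 
(.lf (nat_lit 588837) (.g (nat_lit 3091) (.e (nat_lit 532499) (nat_lit 1) (.e (nat_lit 57926) (nat_lit 282) (.e (nat_lit 163884) (nat_lit 5) (.e (nat_lit 221210) (nat_lit 22) (.e (nat_lit 196656) (nat_lit 11) (.e (nat_lit 16425) (nat_lit 7) (.e (nat_lit 409616) (nat_lit 10) (.e (nat_lit 604) (nat_lit 45) .nil)))))))) (.g (nat_lit 1) (.e (nat_lit 395389) (nat_lit 0) .nil) .nil))) 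
(.lf (nat_lit 589349) (.g (nat_lit 1687) (.e (nat_lit 532502) (nat_lit 1) (.e (nat_lit 57688) (nat_lit 156) (.e (nat_lit 163907) (nat_lit 12) (.e (nat_lit 426566) (nat_lit 34) .nil)))) (.g (nat_lit 0) (.e (nat_lit 396272) (nat_lit 0) .nil) .nil)))) (.nd (nat_lit 9) 
(.lf (nat_lit 589093) (.g (nat_lit 3493) (.e (nat_lit 532499) (nat_lit 1) (.e (nat_lit 57931) (nat_lit 282) (.e (nat_lit 163869) (nat_lit 2) (.e (nat_lit 196670) (nat_lit 14) (.e (nat_lit 73746) (nat_lit 3) (.e (nat_lit 516129) (nat_lit 3) (.e (nat_lit 221200) (nat_lit 20) (.e (nat_lit 3252) (nat_lit 197) .nil)))))))) (.g (nat_lit 1) (.e (nat_lit 395839) (nat_lit 0) .nil) .nil))) 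
(.lf (nat_lit 589605) (.g (nat_lit 3328) (.e (nat_lit 532503) (nat_lit 1) (.e (nat_lit 57931) (nat_lit 282) (.e (nat_lit 163867) (nat_lit 2) (.e (nat_lit 196668) (nat_lit 14) (.e (nat_lit 73746) (nat_lit 3) (.e (nat_lit 516131) (nat_lit 3) (.e (nat_lit 221197) (nat_lit 20) (.e (nat_lit 3230) (nat_lit 197) .nil)))))))) (.g (nat_lit 1) (.e (nat_lit 396634) (nat_lit 0) .nil) .nil))))) 
(.nd (nat_lit 8) (.nd (nat_lit 9) 
(.lf (nat_lit 588965) (.g (nat_lit 3563) (.e (nat_lit 532499) (nat_lit 1) (.e (nat_lit 57927) (nat_lit 282) (.e (nat_lit 163869) (nat_lit 2) (.e (nat_lit 196670) (nat_lit 14) (.e (nat_lit 73746) (nat_lit 3) (.e (nat_lit 516126) (nat_lit 2) (.e (nat_lit 213033) (nat_lit 12) (.e (nat_lit 163963) (nat_lit 25) .nil)))))))) (.g (nat_lit 1) (.e (nat_lit 395617) (nat_lit 0) .nil) .nil))) 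
(.lf (nat_lit 589477) (.g (nat_lit 1896) (.e (nat_lit 532503) (nat_lit 1) (.e (nat_lit 57847) (nat_lit 252) (.e (nat_lit 57407) (nat_lit 12) (.e (nat_lit 336456) (nat_lit 34) (.e (nat_lit 483346) (nat_lit 17) .nil))))) (.g (nat_lit 0) (.e (nat_lit 396485) (nat_lit 0) .nil) .nil)))) (.nd (nat_lit 9) 
(.lf (nat_lit 589221) (.g (nat_lit 4292) (.e (nat_lit 532501) (nat_lit 1) (.e (nat_lit 57926) (nat_lit 282) (.e (nat_lit 163868) (nat_lit 2) (.e (nat_lit 196668) (nat_lit 14) (.e (nat_lit 73747) (nat_lit 3) (.e (nat_lit 516129) (nat_lit 3) (.e (nat_lit 221204) (nat_lit 20) (.e (nat_lit 3253) (nat_lit 197) .nil)))))))) (.g (nat_lit 1) (.e (nat_lit 396041) (nat_lit 0) .nil) .nil))) 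
(.lf (nat_lit 589733) (.g (nat_lit 3035) (.e (nat_lit 532503) (nat_lit 1) (.e (nat_lit 57931) (nat_lit 282) (.e (nat_lit 163869) (nat_lit 2) (.e (nat_lit 196670) (nat_lit 14) (.e (nat_lit 73746) (nat_lit 3) (.e (nat_lit 516126) (nat_lit 2) (.e (nat_lit 213033) (nat_lit 12) (.e (nat_lit 163964) (nat_lit 25) .nil)))))))) (.g (nat_lit 1) (.e (nat_lit 396824) (nat_lit 0) .nil) .nil)))))) 
(.nd (nat_lit 7) (.nd (nat_lit 8) (.nd (nat_lit 9) 
(.lf (nat_lit 588901) (.g (nat_lit 3409) (.e (nat_lit 532499) (nat_lit 1) (.e (nat_lit 57927) (nat_lit 282) (.e (nat_lit 163868) (nat_lit 2) (.e (nat_lit 196670) (nat_lit 14) (.e (nat_lit 73746) (nat_lit 3) (.e (nat_lit 516126) (nat_lit 2) (.e (nat_lit 213035) (nat_lit 12) (.e (nat_lit 163964) (nat_lit 25) .nil)))))))) (.g (nat_lit 1) (.e (nat_lit 395503) (nat_lit 0) .nil) .nil))) 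
(.lf (nat_lit 589413) (.g (nat_lit 1411) (.e (nat_lit 532503) (nat_lit 1) (.e (nat_lit 57688) (nat_lit 156) (.e (nat_lit 163843) (nat_lit 0) (.e (nat_lit 3248) (nat_lit 197) .nil)))) (.g (nat_lit 0) (.e (nat_lit 396387) (nat_lit 0) .nil) .nil)))) (.nd (nat_lit 9) 
(.lf (nat_lit 589157) (.g (nat_lit 3085) (.e (nat_lit 532501) (nat_lit 1) (.e (nat_lit 57851) (nat_lit 252) (.e (nat_lit 57371) (nat_lit 2) (.e (nat_lit 90160) (nat_lit 11) (.e (nat_lit 24608) (nat_lit 3) (.e (nat_lit 98337) (nat_lit 19) (.e (nat_lit 213035) (nat_lit 12) (.e (nat_lit 163964) (nat_lit 25) .nil)))))))) (.g (nat_lit 1) (.e (nat_lit 395954) (nat_lit 0) .nil) .nil))) 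
(.lf (nat_lit 589669) (.g (nat_lit 2820) (.e (nat_lit 532503) (nat_lit 1) (.e (nat_lit 57931) (nat_lit 282) (.e (nat_lit 163867) (nat_lit 2) (.e (nat_lit 196670) (nat_lit 14) (.e (nat_lit 73746) (nat_lit 3) (.e (nat_lit 516131) (nat_lit 3) (.e (nat_lit 221198) (nat_lit 20) (.e (nat_lit 3250) (nat_lit 197) .nil)))))))) (.g (nat_lit 1) (.e (nat_lit 396723) (nat_lit 0) .nil) .nil))))) 
(.nd (nat_lit 8) (.nd (nat_lit 9) 
(.lf (nat_lit 589029) (.g (nat_lit 3455) (.e (nat_lit 532499) (nat_lit 1) (.e (nat_lit 57927) (nat_lit 282) (.e (nat_lit 163873) (nat_lit 3) (.e (nat_lit 204854) (nat_lit 26) (.e (nat_lit 336019) (nat_lit 3) (.e (nat_lit 98342) (nat_lit 20) (.e (nat_lit 221204) (nat_lit 20) (.e (nat_lit 3253) (nat_lit 197) .nil)))))))) (.g (nat_lit 1) (.e (nat_lit 395754) (nat_lit 0) .nil) .nil))) 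
(.lf (nat_lit 589541) (.g (nat_lit 2621) (.e (nat_lit 532503) (nat_lit 1) (.e (nat_lit 57853) (nat_lit 252) (.e (nat_lit 57406) (nat_lit 12) (.e (nat_lit 336456) (nat_lit 34) (.e (nat_lit 483406) (nat_lit 26) .nil))))) (.g (nat_lit 0) (.e (nat_lit 396556) (nat_lit 0) .nil) .nil)))) (.nd (nat_lit 9) 
(.lf (nat_lit 589285) (.g (nat_lit 2246) (.e (nat_lit 532501) (nat_lit 1) (.e (nat_lit 57927) (nat_lit 282) (.e (nat_lit 163874) (nat_lit 3) (.e (nat_lit 204862) (nat_lit 27) (.e (nat_lit 344117) (nat_lit 21) .nil))))) (.g (nat_lit 0) (.e (nat_lit 396177) (nat_lit 0) .nil) .nil))) 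
(.lf (nat_lit 589797) (.g (nat_lit 2858) (.e (nat_lit 532503) (nat_lit 1) (.e (nat_lit 57931) (nat_lit 282) (.e (nat_lit 163869) (nat_lit 2) (.e (nat_lit 196670) (nat_lit 14) (.e (nat_lit 73746) (nat_lit 3) (.e (nat_lit 516131) (nat_lit 3) (.e (nat_lit 221202) (nat_lit 20) (.e (nat_lit 3230) (nat_lit 197) .nil)))))))) (.g (nat_lit 1) (.e (nat_lit 396888) (nat_lit 0) .nil) .nil)))))))) 
(.nd (nat_lit 5) (.nd (nat_lit 6) (.nd (nat_lit 7) (.nd (nat_lit 8) (.nd (nat_lit 9) 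
(.lf (nat_lit 588821) (.g (nat_lit 3406) (.e (nat_lit 532499) (nat_lit 1) (.e (nat_lit 57926) (nat_lit 282) (.e (nat_lit 163869) (nat_lit 2) (.e (nat_lit 196670) (nat_lit 14) (.e (nat_lit 73746) (nat_lit 3) (.e (nat_lit 516124) (nat_lit 2) (.e (nat_lit 213035) (nat_lit 12) (.e (nat_lit 163965) (nat_lit 25) .nil)))))))) (.g (nat_lit 1) (.e (nat_lit 395365) (nat_lit 0) .nil) .nil))) 
(.lf (nat_lit 589333) (.g (nat_lit 2697) (.e (nat_lit 532502) (nat_lit 1) (.e (nat_lit 57688) (nat_lit 156) (.e (nat_lit 163902) (nat_lit 12) (.e (nat_lit 426566) (nat_lit 34) (.e (nat_lit 393288) (nat_lit 25) .nil))))) (.g (nat_lit 0) (.e (nat_lit 396256) (nat_lit 0) .nil) .nil)))) (.nd (nat_lit 9) 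
(.lf (nat_lit 589077) (.g (nat_lit 3560) (.e (nat_lit 532499) (nat_lit 1) (.e (nat_lit 57931) (nat_lit 282) (.e (nat_lit 163869) (nat_lit 2) (.e (nat_lit 196670) (nat_lit 14) (.e (nat_lit 73746) (nat_lit 3) (.e (nat_lit 516124) (nat_lit 2) (.e (nat_lit 213019) (nat_lit 9) (.e (nat_lit 2505) (nat_lit 157) (.e (nat_lit 3249) (nat_lit 197) .nil))))))))) (.g (nat_lit 1) (.e (nat_lit 395823) (nat_lit 0) .nil) .nil))) 
(.lf (nat_lit 589589) (.g (nat_lit 1922) (.e (nat_lit 532503) (nat_lit 1) (.e (nat_lit 57931) (nat_lit 282) (.e (nat_lit 163867) (nat_lit 2) (.e (nat_lit 196664) (nat_lit 13) (.e (nat_lit 65571) (nat_lit 3) .nil))))) (.g (nat_lit 0) (.e (nat_lit 396614) (nat_lit 0) .nil) .nil))))) (.nd (nat_lit 8) (.nd (nat_lit 9) 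
(.lf (nat_lit 588949) (.g (nat_lit 3109) (.e (nat_lit 532499) (nat_lit 1) (.e (nat_lit 57927) (nat_lit 282) (.e (nat_lit 163869) (nat_lit 2) (.e (nat_lit 196668) (nat_lit 14) (.e (nat_lit 73747) (nat_lit 3) (.e (nat_lit 516131) (nat_lit 3) (.e (nat_lit 221198) (nat_lit 20) (.e (nat_lit 3240) (nat_lit 197) .nil)))))))) (.g (nat_lit 1) (.e (nat_lit 395601) (nat_lit 0) .nil) .nil))) 
(.lf (nat_lit 589461) (.g (nat_lit 2591) (.e (nat_lit 532503) (nat_lit 1) (.e (nat_lit 57846) (nat_lit 252) (.e (nat_lit 57407) (nat_lit 12) (.e (nat_lit 336454) (nat_lit 34) (.e (nat_lit 483402) (nat_lit 26) .nil))))) (.g (nat_lit 0) (.e (nat_lit 396468) (nat_lit 0) .nil) .nil)))) (.nd (nat_lit 9) 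
(.lf (nat_lit 589205) (.g (nat_lit 3675) (.e (nat_lit 532501) (nat_lit 1) (.e (nat_lit 57854) (nat_lit 252) (.e (nat_lit 57406) (nat_lit 12) (.e (nat_lit 336454) (nat_lit 34) (.e (nat_lit 483385) (nat_lit 23) (.e (nat_lit 336260) (nat_lit 15) (.e (nat_lit 3255) (nat_lit 197) .nil))))))) (.g (nat_lit 1) (.e (nat_lit 396006) (nat_lit 0) .nil) .nil))) 
(.lf (nat_lit 589717) (.g (nat_lit 3787) (.e (nat_lit 532503) (nat_lit 1) (.e (nat_lit 57931) (nat_lit 282) (.e (nat_lit 163869) (nat_lit 2) (.e (nat_lit 196668) (nat_lit 14) (.e (nat_lit 73747) (nat_lit 3) (.e (nat_lit 516131) (nat_lit 3) (.e (nat_lit 221198) (nat_lit 20) (.e (nat_lit 3244) (nat_lit 197) .nil)))))))) (.g (nat_lit 1) (.e (nat_lit 396808) (nat_lit 0) .nil) .nil)))))) 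
(.nd (nat_lit 7) (.nd (nat_lit 8) (.nd (nat_lit 9) 
(.lf (nat_lit 588885) (.g (nat_lit 2775) (.e (nat_lit 532499) (nat_lit 1) (.e (nat_lit 57927) (nat_lit 282) (.e (nat_lit 163868) (nat_lit 2) (.e (nat_lit 196668) (nat_lit 14) (.e (nat_lit 73747) (nat_lit 3) (.e (nat_lit 516131) (nat_lit 3) (.e (nat_lit 221202) (nat_lit 20) (.e (nat_lit 3249) (nat_lit 197) .nil)))))))) (.g (nat_lit 1) (.e (nat_lit 395487) (nat_lit 0) .nil) .nil))) 
(.lf (nat_lit 589397) (.g (nat_lit 2779) (.e (nat_lit 532502) (nat_lit 1) (.e (nat_lit 57931) (nat_lit 282) (.e (nat_lit 163869) (nat_lit 2) (.e (nat_lit 196668) (nat_lit 14) (.e (nat_lit 73747) (nat_lit 3) .nil))))) (.g (nat_lit 0) (.e (nat_lit 396360) (nat_lit 0) .nil) .nil)))) (.nd (nat_lit 9) 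
(.lf (nat_lit 589141) (.g (nat_lit 2145) (.e (nat_lit 532501) (nat_lit 1) (.e (nat_lit 57691) (nat_lit 156) (.e (nat_lit 163874) (nat_lit 3) (.e (nat_lit 204837) (nat_lit 20) (.e (nat_lit 114715) (nat_lit 22) .nil))))) (.g (nat_lit 0) (.e (nat_lit 395914) (nat_lit 0) .nil) .nil))) 
(.lf (nat_lit 589653) (.g (nat_lit 2620) (.e (nat_lit 532503) (nat_lit 1) (.e (nat_lit 57931) (nat_lit 282) (.e (nat_lit 163867) (nat_lit 2) (.e (nat_lit 196670) (nat_lit 14) (.e (nat_lit 73746) (nat_lit 3) (.e (nat_lit 516129) (nat_lit 3) (.e (nat_lit 221199) (nat_lit 20) (.e (nat_lit 3254) (nat_lit 197) .nil)))))))) (.g (nat_lit 1) (.e (nat_lit 396707) (nat_lit 0) .nil) .nil))))) 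
(.nd (nat_lit 8) (.nd (nat_lit 9) 
(.lf (nat_lit 589013) (.g (nat_lit 2735) (.e (nat_lit 532499) (nat_lit 1) (.e (nat_lit 57927) (nat_lit 282) (.e (nat_lit 163871) (nat_lit 2) (.e (nat_lit 196670) (nat_lit 14) (.e (nat_lit 73746) (nat_lit 3) (.e (nat_lit 516126) (nat_lit 2) (.e (nat_lit 213034) (nat_lit 12) (.e (nat_lit 163963) (nat_lit 25) .nil)))))))) (.g (nat_lit 1) (.e (nat_lit 395738) (nat_lit 0) .nil) .nil))) 
(.lf (nat_lit 589525) (.g (nat_lit 2593) (.e (nat_lit 532503) (nat_lit 1) (.e (nat_lit 57849) (nat_lit 252) (.e (nat_lit 57377) (nat_lit 3) (.e (nat_lit 98342) (nat_lit 20) (.e (nat_lit 221215) (nat_lit 23) .nil))))) (.g (nat_lit 0) (.e (nat_lit 396539) (nat_lit 0) .nil) .nil)))) (.nd (nat_lit 9) 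
(.lf (nat_lit 589269) (.g (nat_lit 3011) (.e (nat_lit 532501) (nat_lit 1) (.e (nat_lit 57927) (nat_lit 282) (.e (nat_lit 163869) (nat_lit 2) (.e (nat_lit 196670) (nat_lit 14) (.e (nat_lit 73746) (nat_lit 3) (.e (nat_lit 516124) (nat_lit 2) (.e (nat_lit 213035) (nat_lit 12) (.e (nat_lit 163963) (nat_lit 25) .nil)))))))) (.g (nat_lit 1) (.e (nat_lit 396139) (nat_lit 0) .nil) .nil))) 
(.lf (nat_lit 589781) (.g (nat_lit 3309) (.e (nat_lit 532503) (nat_lit 1) (.e (nat_lit 57931) (nat_lit 282) (.e (nat_lit 163869) (nat_lit 2) (.e (nat_lit 196670) (nat_lit 14) (.e (nat_lit 73746) (nat_lit 3) (.e (nat_lit 516129) (nat_lit 3) (.e (nat_lit 229120) (nat_lit 20) (.e (nat_lit 3249) (nat_lit 197) .nil)))))))) (.g (nat_lit 1) (.e (nat_lit 396872) (nat_lit 0) .nil) .nil))))))) 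
(.nd (nat_lit 6) (.nd (nat_lit 7) (.nd (nat_lit 8) (.nd (nat_lit 9) 
(.lf (nat_lit 588853) (.g (nat_lit 2358) (.e (nat_lit 532499) (nat_lit 1) (.e (nat_lit 57927) (nat_lit 282) (.e (nat_lit 163866) (nat_lit 2) (.e (nat_lit 196670) (nat_lit 14) (.e (nat_lit 73746) (nat_lit 3) (.e (nat_lit 516126) (nat_lit 2) (.e (nat_lit 213035) (nat_lit 12) (.e (nat_lit 163965) (nat_lit 25) .nil)))))))) (.g (nat_lit 1) (.e (nat_lit 395411) (nat_lit 0) .nil) .nil))) 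
(.lf (nat_lit 589365) (.g (nat_lit 1986) (.e (nat_lit 532502) (nat_lit 1) (.e (nat_lit 57692) (nat_lit 156) (.e (nat_lit 163905) (nat_lit 12) (.e (nat_lit 426566) (nat_lit 34) (.e (nat_lit 393289) (nat_lit 25) (.e (nat_lit 458788) (nat_lit 23) .nil)))))) (.g (nat_lit 1) (.e (nat_lit 396304) (nat_lit 0) .nil) .nil)))) (.nd (nat_lit 9) 
(.lf (nat_lit 589109) (.g (nat_lit 662) (.e (nat_lit 532500) (nat_lit 1) (.e (nat_lit 57852) (nat_lit 252) (.e (nat_lit 57406) (nat_lit 12) .nil))) (.g (nat_lit 0) (.e (nat_lit 395862) (nat_lit 0) .nil) .nil))) 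
(.lf (nat_lit 589621) (.g (nat_lit 3522) (.e (nat_lit 532503) (nat_lit 1) (.e (nat_lit 57931) (nat_lit 282) (.e (nat_lit 163867) (nat_lit 2) (.e (nat_lit 196668) (nat_lit 14) (.e (nat_lit 73747) (nat_lit 3) (.e (nat_lit 516129) (nat_lit 3) (.e (nat_lit 221202) (nat_lit 20) (.e (nat_lit 3230) (nat_lit 197) .nil)))))))) (.g (nat_lit 1) (.e (nat_lit 396653) (nat_lit 0) .nil) .nil))))) 
(.nd (nat_lit 8) (.nd (nat_lit 9) 
(.lf (nat_lit 588981) (.g (nat_lit 2719) (.e (nat_lit 532499) (nat_lit 1) (.e (nat_lit 57927) (nat_lit 282) (.e (nat_lit 163869) (nat_lit 2) (.e (nat_lit 196670) (nat_lit 14) (.e (nat_lit 73746) (nat_lit 3) (.e (nat_lit 516129) (nat_lit 3) (.e (nat_lit 221197) (nat_lit 20) (.e (nat_lit 3240) (nat_lit 197) .nil)))))))) (.g (nat_lit 1) (.e (nat_lit 395633) (nat_lit 0) .nil) .nil))) 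
(.lf (nat_lit 589493) (.g (nat_lit 941) (.e (nat_lit 532503) (nat_lit 1) (.e (nat_lit 57847) (nat_lit 252) (.e (nat_lit 57411) (nat_lit 12) (.e (nat_lit 336454) (nat_lit 34) .nil)))) (.g (nat_lit 0) (.e (nat_lit 396503) (nat_lit 0) .nil) .nil)))) (.nd (nat_lit 9) 
(.lf (nat_lit 589237) (.g (nat_lit 2981) (.e (nat_lit 532501) (nat_lit 1) (.e (nat_lit 57926) (nat_lit 282) (.e (nat_lit 163869) (nat_lit 2) (.e (nat_lit 196670) (nat_lit 14) (.e (nat_lit 73746) (nat_lit 3) (.e (nat_lit 516127) (nat_lit 2) (.e (nat_lit 213034) (nat_lit 12) (.e (nat_lit 163963) (nat_lit 25) .nil)))))))) (.g (nat_lit 1) (.e (nat_lit 396062) (nat_lit 0) .nil) .nil))) 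
(.lf (nat_lit 589749) (.g (nat_lit 2956) (.e (nat_lit 532503) (nat_lit 1) (.e (nat_lit 57931) (nat_lit 282) (.e (nat_lit 163869) (nat_lit 2) (.e (nat_lit 196670) (nat_lit 14) (.e (nat_lit 73746) (nat_lit 3) (.e (nat_lit 516127) (nat_lit 2) (.e (nat_lit 220928) (nat_lit 13) (.e (nat_lit 229433) (nat_lit 25) .nil)))))))) (.g (nat_lit 1) (.e (nat_lit 396840) (nat_lit 0) .nil) .nil)))))) 
(.nd (nat_lit 7) (.nd (nat_lit 8) (.nd (nat_lit 9) 
(.lf (nat_lit 588917) (.g (nat_lit 2293) (.e (nat_lit 532499) (nat_lit 1) (.e (nat_lit 57927) (nat_lit 282) (.e (nat_lit 163868) (nat_lit 2) (.e (nat_lit 196670) (nat_lit 14) (.e (nat_lit 73746) (nat_lit 3) (.e (nat_lit 516129) (nat_lit 3) (.e (nat_lit 221202) (nat_lit 20) (.e (nat_lit 3232) (nat_lit 197) .nil)))))))) (.g (nat_lit 1) (.e (nat_lit 395519) (nat_lit 0) .nil) .nil))) 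
(.lf (nat_lit 589429) (.g (nat_lit 1726) (.e (nat_lit 532503) (nat_lit 1) (.e (nat_lit 57688) (nat_lit 156) (.e (nat_lit 163905) (nat_lit 12) (.e (nat_lit 426566) (nat_lit 34) .nil)))) (.g (nat_lit 0) (.e (nat_lit 396408) (nat_lit 0) .nil) .nil)))) (.nd (nat_lit 9) 
(.lf (nat_lit 589173) (.g (nat_lit 1997) (.e (nat_lit 532501) (nat_lit 1) (.e (nat_lit 57851) (nat_lit 252) (.e (nat_lit 57406) (nat_lit 12) (.e (nat_lit 336456) (nat_lit 34) (.e (nat_lit 483387) (nat_lit 23) (.e (nat_lit 336267) (nat_lit 15) (.e (nat_lit 3251) (nat_lit 197) .nil))))))) (.g (nat_lit 1) (.e (nat_lit 395970) (nat_lit 0) .nil) .nil))) 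
(.lf (nat_lit 589685) (.g (nat_lit 3275) (.e (nat_lit 532503) (nat_lit 1) (.e (nat_lit 57931) (nat_lit 282) (.e (nat_lit 163869) (nat_lit 2) (.e (nat_lit 196668) (nat_lit 14) (.e (nat_lit 73746) (nat_lit 3) (.e (nat_lit 516129) (nat_lit 3) (.e (nat_lit 221197) (nat_lit 20) (.e (nat_lit 3230) (nat_lit 197) .nil)))))))) (.g (nat_lit 1) (.e (nat_lit 396773) (nat_lit 0) .nil) .nil))))) 
(.nd (nat_lit 8) (.nd (nat_lit 9) 
(.lf (nat_lit 589045) (.g (nat_lit 3708) (.e (nat_lit 532499) (nat_lit 1) (.e (nat_lit 57927) (nat_lit 282) (.e (nat_lit 163874) (nat_lit 3) (.e (nat_lit 204862) (nat_lit 27) (.e (nat_lit 344117) (nat_lit 21) (.e (nat_lit 516123) (nat_lit 2) (.e (nat_lit 213033) (nat_lit 12) (.e (nat_lit 163962) (nat_lit 25) .nil)))))))) (.g (nat_lit 1) (.e (nat_lit 395775) (nat_lit 0) .nil) .nil))) 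
(.lf (nat_lit 589557) (.g (nat_lit 3067) (.e (nat_lit 532503) (nat_lit 1) (.e (nat_lit 57929) (nat_lit 282) (.e (nat_lit 163869) (nat_lit 2) (.e (nat_lit 196668) (nat_lit 14) (.e (nat_lit 73746) (nat_lit 3) (.e (nat_lit 516129) (nat_lit 3) (.e (nat_lit 221204) (nat_lit 20) (.e (nat_lit 3253) (nat_lit 197) .nil)))))))) (.g (nat_lit 1) (.e (nat_lit 396575) (nat_lit 0) .nil) .nil)))) 
(.nd (nat_lit 9) 
(.lf (nat_lit 589301) (.g (nat_lit 2754) (.e (nat_lit 532501) (nat_lit 1) (.e (nat_lit 57928) (nat_lit 282) (.e (nat_lit 163875) (nat_lit 3) (.e (nat_lit 204862) (nat_lit 27) (.e (nat_lit 344117) (nat_lit 21) (.e (nat_lit 516123) (nat_lit 2) (.e (nat_lit 220928) (nat_lit 13) (.e (nat_lit 229433) (nat_lit 25) .nil)))))))) (.g (nat_lit 1) (.e (nat_lit 396203) (nat_lit 0) .nil) .nil))) 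
(.lf (nat_lit 589813) (.g (nat_lit 3003) (.e (nat_lit 532503) (nat_lit 1) (.e (nat_lit 57931) (nat_lit 282) (.e (nat_lit 163874) (nat_lit 3) (.e (nat_lit 204862) (nat_lit 27) (.e (nat_lit 344117) (nat_lit 21) (.e (nat_lit 516106) (nat_lit 0) (.e (nat_lit 3721) (nat_lit 227) (.e (nat_lit 778474) (nat_lit 12) (.e (nat_lit 163963) (nat_lit 25) .nil))))))))) (.g (nat_lit 1) (.e (nat_lit 396910) (nat_lit 0) .nil) .nil))))))))) 
(.nd (nat_lit 4) (.nd (nat_lit 5) (.nd (nat_lit 6) (.nd (nat_lit 7) (.nd (nat_lit 8) 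
(.nd (nat_lit 9) 
(.lf (nat_lit 588813) (.g (nat_lit 2891) (.e (nat_lit 532499) (nat_lit 1) (.e (nat_lit 57926) (nat_lit 282) (.e (nat_lit 163869) (nat_lit 2) (.e (nat_lit 196670) (nat_lit 14) (.e (nat_lit 73746) (nat_lit 3) (.e (nat_lit 516122) (nat_lit 2) (.e (nat_lit 213035) (nat_lit 12) (.e (nat_lit 163964) (nat_lit 25) .nil)))))))) (.g (nat_lit 1) (.e (nat_lit 395357) (nat_lit 0) .nil) .nil))) 
(.lf (nat_lit 589325) (.g (nat_lit 1083) (.e (nat_lit 532502) (nat_lit 1) (.e (nat_lit 57686) (nat_lit 156) (.e (nat_lit 163902) (nat_lit 12) (.e (nat_lit 426479) (nat_lit 27) (.e (nat_lit 336434) (nat_lit 30) .nil))))) (.g (nat_lit 0) (.e (nat_lit 396246) (nat_lit 0) .nil) .nil)))) (.nd (nat_lit 9) 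
(.lf (nat_lit 589069) (.g (nat_lit 2595) (.e (nat_lit 532499) (nat_lit 1) (.e (nat_lit 57931) (nat_lit 282) (.e (nat_lit 163867) (nat_lit 2) (.e (nat_lit 196668) (nat_lit 14) (.e (nat_lit 73746) (nat_lit 3) .nil))))) (.g (nat_lit 0) (.e (nat_lit 395806) (nat_lit 0) .nil) .nil))) 
(.lf (nat_lit 589581) (.g (nat_lit 2471) (.e (nat_lit 532503) (nat_lit 1) (.e (nat_lit 57931) (nat_lit 282) (.e (nat_lit 163866) (nat_lit 2) (.e (nat_lit 196670) (nat_lit 14) (.e (nat_lit 73746) (nat_lit 3) (.e (nat_lit 516129) (nat_lit 3) (.e (nat_lit 221197) (nat_lit 20) (.e (nat_lit 3230) (nat_lit 197) .nil)))))))) (.g (nat_lit 1) (.e (nat_lit 396604) (nat_lit 0) .nil) .nil))))) 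
(.nd (nat_lit 8) (.nd (nat_lit 9) 
(.lf (nat_lit 588941) (.g (nat_lit 2782) (.e (nat_lit 532499) (nat_lit 1) (.e (nat_lit 57927) (nat_lit 282) (.e (nat_lit 163869) (nat_lit 2) (.e (nat_lit 196668) (nat_lit 14) (.e (nat_lit 73747) (nat_lit 3) (.e (nat_lit 516129) (nat_lit 3) (.e (nat_lit 221196) (nat_lit 20) (.e (nat_lit 3237) (nat_lit 197) .nil)))))))) (.g (nat_lit 1) (.e (nat_lit 395590) (nat_lit 0) .nil) .nil))) 
(.lf (nat_lit 589453) (.g (nat_lit 3260) (.e (nat_lit 532503) (nat_lit 1) (.e (nat_lit 57844) (nat_lit 252) (.e (nat_lit 57406) (nat_lit 12) (.e (nat_lit 336456) (nat_lit 34) (.e (nat_lit 483387) (nat_lit 23) (.e (nat_lit 336282) (nat_lit 15) (.e (nat_lit 3253) (nat_lit 197) .nil))))))) (.g (nat_lit 1) (.e (nat_lit 396460) (nat_lit 0) .nil) .nil)))) (.nd (nat_lit 9) 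
(.lf (nat_lit 589197) (.g (nat_lit 1396) (.e (nat_lit 532501) (nat_lit 1) (.e (nat_lit 57852) (nat_lit 252) (.e (nat_lit 57409) (nat_lit 12) (.e (nat_lit 336455) (nat_lit 34) (.e (nat_lit 483407) (nat_lit 26) .nil))))) (.g (nat_lit 0) (.e (nat_lit 395995) (nat_lit 0) .nil) .nil))) 
(.lf (nat_lit 589709) (.g (nat_lit 3478) (.e (nat_lit 532503) (nat_lit 1) (.e (nat_lit 57931) (nat_lit 282) (.e (nat_lit 163869) (nat_lit 2) (.e (nat_lit 196668) (nat_lit 14) (.e (nat_lit 73747) (nat_lit 3) (.e (nat_lit 516131) (nat_lit 3) (.e (nat_lit 221196) (nat_lit 20) (.e (nat_lit 3248) (nat_lit 197) .nil)))))))) (.g (nat_lit 1) (.e (nat_lit 396800) (nat_lit 0) .nil) .nil)))))) 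
(.nd (nat_lit 7) (.nd (nat_lit 8) (.nd (nat_lit 9) 
(.lf (nat_lit 588877) (.g (nat_lit 4077) (.e (nat_lit 532499) (nat_lit 1) (.e (nat_lit 57927) (nat_lit 282) (.e (nat_lit 163868) (nat_lit 2) (.e (nat_lit 196668) (nat_lit 14) (.e (nat_lit 73747) (nat_lit 3) (.e (nat_lit 516129) (nat_lit 3) (.e (nat_lit 221202) (nat_lit 20) (.e (nat_lit 3249) (nat_lit 197) .nil)))))))) (.g (nat_lit 1) (.e (nat_lit 395479) (nat_lit 0) .nil) .nil))) 
(.lf (nat_lit 589389) (.g (nat_lit 3220) (.e (nat_lit 532502) (nat_lit 1) (.e (nat_lit 57853) (nat_lit 252) (.e (nat_lit 57406) (nat_lit 12) (.e (nat_lit 336454) (nat_lit 34) (.e (nat_lit 483407) (nat_lit 26) .nil))))) (.g (nat_lit 0) (.e (nat_lit 396341) (nat_lit 0) .nil) .nil)))) (.nd (nat_lit 9) 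
(.lf (nat_lit 589133) (.g (nat_lit 2522) (.e (nat_lit 532500) (nat_lit 1) (.e (nat_lit 57927) (nat_lit 282) (.e (nat_lit 163869) (nat_lit 2) (.e (nat_lit 196670) (nat_lit 14) (.e (nat_lit 73746) (nat_lit 3) (.e (nat_lit 516131) (nat_lit 3) (.e (nat_lit 221198) (nat_lit 20) (.e (nat_lit 3241) (nat_lit 197) .nil)))))))) (.g (nat_lit 1) (.e (nat_lit 395898) (nat_lit 0) .nil) .nil))) 
(.lf (nat_lit 589645) (.g (nat_lit 4108) (.e (nat_lit 532503) (nat_lit 1) (.e (nat_lit 57931) (nat_lit 282) (.e (nat_lit 163867) (nat_lit 2) (.e (nat_lit 196670) (nat_lit 14) (.e (nat_lit 73746) (nat_lit 3) (.e (nat_lit 516129) (nat_lit 3) (.e (nat_lit 221197) (nat_lit 20) (.e (nat_lit 3230) (nat_lit 197) .nil)))))))) (.g (nat_lit 1) (.e (nat_lit 396699) (nat_lit 0) .nil) .nil))))) 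
(.nd (nat_lit 8) (.nd (nat_lit 9) 
(.lf (nat_lit 589005) (.g (nat_lit 2417) (.e (nat_lit 532499) (nat_lit 1) (.e (nat_lit 57927) (nat_lit 282) (.e (nat_lit 163871) (nat_lit 2) (.e (nat_lit 196670) (nat_lit 14) (.e (nat_lit 73746) (nat_lit 3) (.e (nat_lit 516124) (nat_lit 2) (.e (nat_lit 213033) (nat_lit 12) (.e (nat_lit 163963) (nat_lit 25) .nil)))))))) (.g (nat_lit 1) (.e (nat_lit 395730) (nat_lit 0) .nil) .nil))) 
(.lf (nat_lit 589517) (.g (nat_lit 1631) (.e (nat_lit 532503) (nat_lit 1) (.e (nat_lit 57848) (nat_lit 252) (.e (nat_lit 57408) (nat_lit 12) (.e (nat_lit 336454) (nat_lit 34) (.e (nat_lit 483405) (nat_lit 26) .nil))))) (.g (nat_lit 0) (.e (nat_lit 396530) (nat_lit 0) .nil) .nil)))) (.nd (nat_lit 9) 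
(.lf (nat_lit 589261) (.g (nat_lit 3143) (.e (nat_lit 532501) (nat_lit 1) (.e (nat_lit 57927) (nat_lit 282) (.e (nat_lit 163869) (nat_lit 2) (.e (nat_lit 196664) (nat_lit 13) (.e (nat_lit 65571) (nat_lit 3) (.e (nat_lit 98341) (nat_lit 20) (.e (nat_lit 221204) (nat_lit 20) (.e (nat_lit 3253) (nat_lit 197) .nil)))))))) (.g (nat_lit 1) (.e (nat_lit 396120) (nat_lit 0) .nil) .nil))) 
(.lf (nat_lit 589773) (.g (nat_lit 3139) (.e (nat_lit 532503) (nat_lit 1) (.e (nat_lit 57931) (nat_lit 282) (.e (nat_lit 163869) (nat_lit 2) (.e (nat_lit 196670) (nat_lit 14) (.e (nat_lit 73746) (nat_lit 3) (.e (nat_lit 516129) (nat_lit 3) (.e (nat_lit 221200) (nat_lit 20) (.e (nat_lit 3251) (nat_lit 197) .nil)))))))) (.g (nat_lit 1) (.e (nat_lit 396864) (nat_lit 0) .nil) .nil))))))) 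
(.nd (nat_lit 6) (.nd (nat_lit 7) (.nd (nat_lit 8) (.nd (nat_lit 9) 
(.lf (nat_lit 588845) (.g (nat_lit 2504) (.e (nat_lit 532499) (nat_lit 1) (.e (nat_lit 57927) (nat_lit 282) (.e (nat_lit 163866) (nat_lit 2) (.e (nat_lit 196670) (nat_lit 14) (.e (nat_lit 73746) (nat_lit 3) (.e (nat_lit 516124) (nat_lit 2) (.e (nat_lit 213033) (nat_lit 12) (.e (nat_lit 163962) (nat_lit 25) .nil)))))))) (.g (nat_lit 1) (.e (nat_lit 395403) (nat_lit 0) .nil) .nil))) 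
(.lf (nat_lit 589357) (.g (nat_lit 1924) (.e (nat_lit 532502) (nat_lit 1) (.e (nat_lit 57691) (nat_lit 156) (.e (nat_lit 163905) (nat_lit 12) (.e (nat_lit 426566) (nat_lit 34) .nil)))) (.g (nat_lit 0) (.e (nat_lit 396293) (nat_lit 0) .nil) .nil)))) (.nd (nat_lit 9) 
(.lf (nat_lit 589101) (.g (nat_lit 2076) (.e (nat_lit 532500) (nat_lit 1) (.e (nat_lit 57692) (nat_lit 156) (.e (nat_lit 163874) (nat_lit 3) (.e (nat_lit 204837) (nat_lit 20) (.e (nat_lit 114716) (nat_lit 22) .nil))))) (.g (nat_lit 0) (.e (nat_lit 395851) (nat_lit 0) .nil) .nil))) 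
(.lf (nat_lit 589613) (.g (nat_lit 4022) (.e (nat_lit 532503) (nat_lit 1) (.e (nat_lit 57931) (nat_lit 282) (.e (nat_lit 163867) (nat_lit 2) (.e (nat_lit 196668) (nat_lit 14) (.e (nat_lit 73747) (nat_lit 3) (.e (nat_lit 516129) (nat_lit 3) (.e (nat_lit 221196) (nat_lit 20) (.e (nat_lit 3248) (nat_lit 197) .nil)))))))) (.g (nat_lit 1) (.e (nat_lit 396645) (nat_lit 0) .nil) .nil))))) 
(.nd (nat_lit 8) (.nd (nat_lit 9) 
(.lf (nat_lit 588973) (.g (nat_lit 3311) (.e (nat_lit 532499) (nat_lit 1) (.e (nat_lit 57927) (nat_lit 282) (.e (nat_lit 163869) (nat_lit 2) (.e (nat_lit 196670) (nat_lit 14) (.e (nat_lit 73746) (nat_lit 3) (.e (nat_lit 516127) (nat_lit 2) (.e (nat_lit 213033) (nat_lit 12) (.e (nat_lit 163963) (nat_lit 25) .nil)))))))) (.g (nat_lit 1) (.e (nat_lit 395625) (nat_lit 0) .nil) .nil))) 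
(.lf (nat_lit 589485) (.g (nat_lit 2596) (.e (nat_lit 532503) (nat_lit 1) (.e (nat_lit 57847) (nat_lit 252) (.e (nat_lit 57409) (nat_lit 12) (.e (nat_lit 336454) (nat_lit 34) (.e (nat_lit 483385) (nat_lit 23) (.e (nat_lit 336306) (nat_lit 15) (.e (nat_lit 3238) (nat_lit 197) .nil))))))) (.g (nat_lit 1) (.e (nat_lit 396493) (nat_lit 0) .nil) .nil)))) (.nd (nat_lit 9) 
(.lf (nat_lit 589229) (.g (nat_lit 2948) (.e (nat_lit 532501) (nat_lit 1) (.e (nat_lit 57926) (nat_lit 282) (.e (nat_lit 163869) (nat_lit 2) (.e (nat_lit 196670) (nat_lit 14) (.e (nat_lit 73746) (nat_lit 3) (.e (nat_lit 516124) (nat_lit 2) (.e (nat_lit 213035) (nat_lit 12) (.e (nat_lit 163963) (nat_lit 25) .nil)))))))) (.g (nat_lit 1) (.e (nat_lit 396054) (nat_lit 0) .nil) .nil))) 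
(.lf (nat_lit 589741) (.g (nat_lit 2542) (.e (nat_lit 532503) (nat_lit 1) (.e (nat_lit 57931) (nat_lit 282) (.e (nat_lit 163869) (nat_lit 2) (.e (nat_lit 196670) (nat_lit 14) (.e (nat_lit 73746) (nat_lit 3) (.e (nat_lit 516127) (nat_lit 2) (.e (nat_lit 213033) (nat_lit 12) (.e (nat_lit 163963) (nat_lit 25) .nil)))))))) (.g (nat_lit 1) (.e (nat_lit 396832) (nat_lit 0) .nil) .nil)))))) 
(.nd (nat_lit 7) (.nd (nat_lit 8) (.nd (nat_lit 9) 
(.lf (nat_lit 588909) (.g (nat_lit 3426) (.e (nat_lit 532499) (nat_lit 1) (.e (nat_lit 57927) (nat_lit 282) (.e (nat_lit 163868) (nat_lit 2) (.e (nat_lit 196670) (nat_lit 14) (.e (nat_lit 73746) (nat_lit 3) (.e (nat_lit 516127) (nat_lit 2) (.e (nat_lit 213035) (nat_lit 12) (.e (nat_lit 163963) (nat_lit 25) .nil)))))))) (.g (nat_lit 1) (.e (nat_lit 395511) (nat_lit 0) .nil) .nil))) 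
(.lf (nat_lit 589421) (.g (nat_lit 350) (.e (nat_lit 532503) (nat_lit 1) (.e (nat_lit 57688) (nat_lit 156) (.e (nat_lit 163902) (nat_lit 12) .nil))) (.g (nat_lit 0) (.e (nat_lit 396396) (nat_lit 0) .nil) .nil)))) (.nd (nat_lit 9) 
(.lf (nat_lit 589165) (.g (nat_lit 2383) (.e (nat_lit 532501) (nat_lit 1) (.e (nat_lit 57851) (nat_lit 252) (.e (nat_lit 57406) (nat_lit 12) (.e (nat_lit 336456) (nat_lit 34) (.e (nat_lit 483379) (nat_lit 23) (.e (nat_lit 336238) (nat_lit 15) (.e (nat_lit 3248) (nat_lit 197) .nil))))))) (.g (nat_lit 1) (.e (nat_lit 395962) (nat_lit 0) .nil) .nil))) 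
(.lf (nat_lit 589677) (.g (nat_lit 2685) (.e (nat_lit 532503) (nat_lit 1) (.e (nat_lit 57931) (nat_lit 282) (.e (nat_lit 163869) (nat_lit 2) (.e (nat_lit 196666) (nat_lit 13) (.e (nat_lit 65569) (nat_lit 3) (.e (nat_lit 98342) (nat_lit 20) (.e (nat_lit 221198) (nat_lit 20) (.e (nat_lit 3250) (nat_lit 197) .nil)))))))) (.g (nat_lit 1) (.e (nat_lit 396742) (nat_lit 0) .nil) .nil))))) 
(.nd (nat_lit 8) (.nd (nat_lit 9) 
(.lf (nat_lit 589037) (.g (nat_lit 2618) (.e (nat_lit 532499) (nat_lit 1) (.e (nat_lit 57927) (nat_lit 282) (.e (nat_lit 163874) (nat_lit 3) (.e (nat_lit 204854) (nat_lit 26) (.e (nat_lit 336019) (nat_lit 3) (.e (nat_lit 98342) (nat_lit 20) (.e (nat_lit 221198) (nat_lit 20) (.e (nat_lit 3241) (nat_lit 197) .nil)))))))) (.g (nat_lit 1) (.e (nat_lit 395767) (nat_lit 0) .nil) .nil))) 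
(.lf (nat_lit 589549) (.g (nat_lit 3218) (.e (nat_lit 532503) (nat_lit 1) (.e (nat_lit 57924) (nat_lit 282) (.e (nat_lit 163867) (nat_lit 2) (.e (nat_lit 196670) (nat_lit 14) (.e (nat_lit 73746) (nat_lit 3) (.e (nat_lit 516129) (nat_lit 3) (.e (nat_lit 221197) (nat_lit 20) (.e (nat_lit 3248) (nat_lit 197) .nil)))))))) (.g (nat_lit 1) (.e (nat_lit 396566) (nat_lit 0) .nil) .nil)))) 
(.nd (nat_lit 9) 
(.lf (nat_lit 589293) (.g (nat_lit 3474) (.e (nat_lit 532501) (nat_lit 1) (.e (nat_lit 57927) (nat_lit 282) (.e (nat_lit 163884) (nat_lit 5) (.e (nat_lit 221210) (nat_lit 22) (.e (nat_lit 196656) (nat_lit 11) (.e (nat_lit 16425) (nat_lit 7) (.e (nat_lit 409616) (nat_lit 10) (.e (nat_lit 604) (nat_lit 45) .nil)))))))) (.g (nat_lit 1) (.e (nat_lit 396185) (nat_lit 0) .nil) .nil))) 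
(.lf (nat_lit 589805) (.g (nat_lit 3030) (.e (nat_lit 532503) (nat_lit 1) (.e (nat_lit 57931) (nat_lit 282) (.e (nat_lit 163874) (nat_lit 3) (.e (nat_lit 204854) (nat_lit 26) (.e (nat_lit 336019) (nat_lit 3) (.e (nat_lit 98342) (nat_lit 20) (.e (nat_lit 221197) (nat_lit 20) (.e (nat_lit 3230) (nat_lit 197) .nil)))))))) (.g (nat_lit 1) (.e (nat_lit 396902) (nat_lit 0) .nil) .nil)))))))) 
(.nd (nat_lit 5) (.nd (nat_lit 6) (.nd (nat_lit 7) (.nd (nat_lit 8) (.nd (nat_lit 9) 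
(.lf (nat_lit 588829) (.g (nat_lit 2677) (.e (nat_lit 532499) (nat_lit 1) (.e (nat_lit 57926) (nat_lit 282) (.e (nat_lit 163869) (nat_lit 2) (.e (nat_lit 196670) (nat_lit 14) (.e (nat_lit 73746) (nat_lit 3) (.e (nat_lit 516126) (nat_lit 2) (.e (nat_lit 220928) (nat_lit 13) (.e (nat_lit 229433) (nat_lit 25) .nil)))))))) (.g (nat_lit 1) (.e (nat_lit 395373) (nat_lit 0) .nil) .nil))) 
(.lf (nat_lit 589341) (.g (nat_lit 2179) (.e (nat_lit 532502) (nat_lit 1) (.e (nat_lit 57688) (nat_lit 156) (.e (nat_lit 163903) (nat_lit 12) (.e (nat_lit 426566) (nat_lit 34) (.e (nat_lit 393289) (nat_lit 25) (.e (nat_lit 458788) (nat_lit 23) .nil)))))) (.g (nat_lit 1) (.e (nat_lit 396264) (nat_lit 0) .nil) .nil)))) (.nd (nat_lit 9) 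
(.lf (nat_lit 589085) (.g (nat_lit 3440) (.e (nat_lit 532499) (nat_lit 1) (.e (nat_lit 57931) (nat_lit 282) (.e (nat_lit 163869) (nat_lit 2) (.e (nat_lit 196670) (nat_lit 14) (.e (nat_lit 73746) (nat_lit 3) (.e (nat_lit 516126) (nat_lit 2) (.e (nat_lit 213037) (nat_lit 13) (.e (nat_lit 229433) (nat_lit 25) .nil)))))))) (.g (nat_lit 1) (.e (nat_lit 395831) (nat_lit 0) .nil) .nil))) 
(.lf (nat_lit 589597) (.g (nat_lit 3428) (.e (nat_lit 532503) (nat_lit 1) (.e (nat_lit 57931) (nat_lit 282) (.e (nat_lit 163867) (nat_lit 2) (.e (nat_lit 196668) (nat_lit 14) (.e (nat_lit 73746) (nat_lit 3) (.e (nat_lit 516129) (nat_lit 3) (.e (nat_lit 221197) (nat_lit 20) (.e (nat_lit 3230) (nat_lit 197) .nil)))))))) (.g (nat_lit 1) (.e (nat_lit 396626) (nat_lit 0) .nil) .nil))))) 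
(.nd (nat_lit 8) (.nd (nat_lit 9) 
(.lf (nat_lit 588957) (.g (nat_lit 2642) (.e (nat_lit 532499) (nat_lit 1) (.e (nat_lit 57927) (nat_lit 282) (.e (nat_lit 163869) (nat_lit 2) (.e (nat_lit 196670) (nat_lit 14) (.e (nat_lit 73746) (nat_lit 3) (.e (nat_lit 516122) (nat_lit 2) (.e (nat_lit 213037) (nat_lit 13) (.e (nat_lit 229433) (nat_lit 25) .nil)))))))) (.g (nat_lit 1) (.e (nat_lit 395609) (nat_lit 0) .nil) .nil))) 
(.lf (nat_lit 589469) (.g (nat_lit 3066) (.e (nat_lit 532503) (nat_lit 1) (.e (nat_lit 57847) (nat_lit 252) (.e (nat_lit 57407) (nat_lit 12) (.e (nat_lit 336367) (nat_lit 27) (.e (nat_lit 426542) (nat_lit 29) (.e (nat_lit 352267) (nat_lit 0) (.e (nat_lit 3253) (nat_lit 197) .nil))))))) (.g (nat_lit 1) (.e (nat_lit 396477) (nat_lit 0) .nil) .nil)))) (.nd (nat_lit 9) 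
(.lf (nat_lit 589213) (.g (nat_lit 3015) (.e (nat_lit 532501) (nat_lit 1) (.e (nat_lit 57854) (nat_lit 252) (.e (nat_lit 57409) (nat_lit 12) (.e (nat_lit 336454) (nat_lit 34) (.e (nat_lit 483385) (nat_lit 23) (.e (nat_lit 336260) (nat_lit 15) (.e (nat_lit 3252) (nat_lit 197) .nil))))))) (.g (nat_lit 1) (.e (nat_lit 396014) (nat_lit 0) .nil) .nil))) 
(.lf (nat_lit 589725) (.g (nat_lit 3419) (.e (nat_lit 532503) (nat_lit 1) (.e (nat_lit 57931) (nat_lit 282) (.e (nat_lit 163869) (nat_lit 2) (.e (nat_lit 196670) (nat_lit 14) (.e (nat_lit 73746) (nat_lit 3) (.e (nat_lit 516124) (nat_lit 2) (.e (nat_lit 213035) (nat_lit 12) (.e (nat_lit 163963) (nat_lit 25) .nil)))))))) (.g (nat_lit 1) (.e (nat_lit 396816) (nat_lit 0) .nil) .nil)))))) 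
(.nd (nat_lit 7) (.nd (nat_lit 8) (.nd (nat_lit 9) 
(.lf (nat_lit 588893) (.g (nat_lit 3813) (.e (nat_lit 532499) (nat_lit 1) (.e (nat_lit 57927) (nat_lit 282) (.e (nat_lit 163868) (nat_lit 2) (.e (nat_lit 196670) (nat_lit 14) (.e (nat_lit 73746) (nat_lit 3) (.e (nat_lit 516124) (nat_lit 2) (.e (nat_lit 213034) (nat_lit 12) (.e (nat_lit 163963) (nat_lit 25) .nil)))))))) (.g (nat_lit 1) (.e (nat_lit 395495) (nat_lit 0) .nil) .nil))) 
(.lf (nat_lit 589405) (.g (nat_lit 3009) (.e (nat_lit 532503) (nat_lit 1) (.e (nat_lit 57687) (nat_lit 156) (.e (nat_lit 163902) (nat_lit 12) (.e (nat_lit 426568) (nat_lit 34) (.e (nat_lit 393284) (nat_lit 24) (.e (nat_lit 434233) (nat_lit 23) .nil)))))) (.g (nat_lit 1) (.e (nat_lit 396372) (nat_lit 0) .nil) .nil)))) (.nd (nat_lit 9) 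
(.lf (nat_lit 589149) (.g (nat_lit 2826) (.e (nat_lit 532501) (nat_lit 1) (.e (nat_lit 57692) (nat_lit 156) (.e (nat_lit 163905) (nat_lit 12) (.e (nat_lit 426568) (nat_lit 34) (.e (nat_lit 393287) (nat_lit 25) (.e (nat_lit 458789) (nat_lit 23) .nil)))))) (.g (nat_lit 1) (.e (nat_lit 395936) (nat_lit 0) .nil) .nil))) 
(.lf (nat_lit 589661) (.g (nat_lit 2649) (.e (nat_lit 532503) (nat_lit 1) (.e (nat_lit 57931) (nat_lit 282) (.e (nat_lit 163867) (nat_lit 2) (.e (nat_lit 196670) (nat_lit 14) (.e (nat_lit 73746) (nat_lit 3) (.e (nat_lit 516131) (nat_lit 3) (.e (nat_lit 221197) (nat_lit 20) (.e (nat_lit 3236) (nat_lit 197) .nil)))))))) (.g (nat_lit 1) (.e (nat_lit 396715) (nat_lit 0) .nil) .nil))))) 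
(.nd (nat_lit 8) (.nd (nat_lit 9) 
(.lf (nat_lit 589021) (.g (nat_lit 3169) (.e (nat_lit 532499) (nat_lit 1) (.e (nat_lit 57927) (nat_lit 282) (.e (nat_lit 163871) (nat_lit 2) (.e (nat_lit 196670) (nat_lit 14) (.e (nat_lit 73746) (nat_lit 3) (.e (nat_lit 516127) (nat_lit 2) (.e (nat_lit 213035) (nat_lit 12) (.e (nat_lit 163965) (nat_lit 25) .nil)))))))) (.g (nat_lit 1) (.e (nat_lit 395746) (nat_lit 0) .nil) .nil))) 
(.lf (nat_lit 589533) (.g (nat_lit 1600) (.e (nat_lit 532503) (nat_lit 1) (.e (nat_lit 57849) (nat_lit 252) (.e (nat_lit 57407) (nat_lit 12) (.e (nat_lit 336455) (nat_lit 34) (.e (nat_lit 483404) (nat_lit 26) .nil))))) (.g (nat_lit 0) (.e (nat_lit 396548) (nat_lit 0) .nil) .nil)))) (.nd (nat_lit 9) 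
(.lf (nat_lit 589277) (.g (nat_lit 2912) (.e (nat_lit 532501) (nat_lit 1) (.e (nat_lit 57927) (nat_lit 282) (.e (nat_lit 163869) (nat_lit 2) (.e (nat_lit 196670) (nat_lit 14) (.e (nat_lit 73746) (nat_lit 3) (.e (nat_lit 516127) (nat_lit 2) (.e (nat_lit 213033) (nat_lit 12) (.e (nat_lit 163964) (nat_lit 25) .nil)))))))) (.g (nat_lit 1) (.e (nat_lit 396147) (nat_lit 0) .nil) .nil))) 
(.lf (nat_lit 589789) (.g (nat_lit 3156) (.e (nat_lit 532503) (nat_lit 1) (.e (nat_lit 57931) (nat_lit 282) (.e (nat_lit 163869) (nat_lit 2) (.e (nat_lit 196670) (nat_lit 14) (.e (nat_lit 73746) (nat_lit 3) (.e (nat_lit 516131) (nat_lit 3) (.e (nat_lit 221197) (nat_lit 20) (.e (nat_lit 3244) (nat_lit 197) .nil)))))))) (.g (nat_lit 1) (.e (nat_lit 396880) (nat_lit 0) .nil) .nil))))))) 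
(.nd (nat_lit 6) (.nd (nat_lit 7) (.nd (nat_lit 8) (.nd (nat_lit 9) 
(.lf (nat_lit 588861) (.g (nat_lit 1622) (.e (nat_lit 532499) (nat_lit 1) (.e (nat_lit 57927) (nat_lit 282) (.e (nat_lit 163868) (nat_lit 2) (.e (nat_lit 196664) (nat_lit 13) .nil)))) (.g (nat_lit 0) (.e (nat_lit 395429) (nat_lit 0) .nil) .nil))) 
(.lf (nat_lit 589373) (.g (nat_lit 2777) (.e (nat_lit 532502) (nat_lit 1) (.e (nat_lit 57847) (nat_lit 252) (.e (nat_lit 57407) (nat_lit 12) (.e (nat_lit 336454) (nat_lit 34) (.e (nat_lit 483385) (nat_lit 23) (.e (nat_lit 336306) (nat_lit 15) (.e (nat_lit 3238) (nat_lit 197) .nil))))))) (.g (nat_lit 1) (.e (nat_lit 396319) (nat_lit 0) .nil) .nil)))) (.nd (nat_lit 9) 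
(.lf (nat_lit 589117) (.g (nat_lit 2508) (.e (nat_lit 532500) (nat_lit 1) (.e (nat_lit 57926) (nat_lit 282) (.e (nat_lit 163868) (nat_lit 2) (.e (nat_lit 196668) (nat_lit 14) (.e (nat_lit 73746) (nat_lit 3) .nil))))) (.g (nat_lit 0) (.e (nat_lit 395872) (nat_lit 0) .nil) .nil))) 
(.lf (nat_lit 589629) (.g (nat_lit 2499) (.e (nat_lit 532503) (nat_lit 1) (.e (nat_lit 57931) (nat_lit 282) (.e (nat_lit 163867) (nat_lit 2) (.e (nat_lit 196668) (nat_lit 14) (.e (nat_lit 73747) (nat_lit 3) (.e (nat_lit 516131) (nat_lit 3) (.e (nat_lit 221198) (nat_lit 20) (.e (nat_lit 3237) (nat_lit 197) .nil)))))))) (.g (nat_lit 1) (.e (nat_lit 396661) (nat_lit 0) .nil) .nil))))) 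
(.nd (nat_lit 8) (.nd (nat_lit 9) 
(.lf (nat_lit 588989) (.g (nat_lit 2791) (.e (nat_lit 532499) (nat_lit 1) (.e (nat_lit 57927) (nat_lit 282) (.e (nat_lit 163869) (nat_lit 2) (.e (nat_lit 196670) (nat_lit 14) (.e (nat_lit 73746) (nat_lit 3) (.e (nat_lit 516129) (nat_lit 3) (.e (nat_lit 221201) (nat_lit 20) (.e (nat_lit 3252) (nat_lit 197) .nil)))))))) (.g (nat_lit 1) (.e (nat_lit 395641) (nat_lit 0) .nil) .nil))) 
(.lf (nat_lit 589501) (.g (nat_lit 1446) (.e (nat_lit 532503) (nat_lit 1) (.e (nat_lit 57847) (nat_lit 252) (.e (nat_lit 57445) (nat_lit 19) (.e (nat_lit 393229) (nat_lit 9) (.e (nat_lit 336086) (nat_lit 9) .nil))))) (.g (nat_lit 0) (.e (nat_lit 396512) (nat_lit 0) .nil) .nil)))) (.nd (nat_lit 9) 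
(.lf (nat_lit 589245) (.g (nat_lit 3216) (.e (nat_lit 532501) (nat_lit 1) (.e (nat_lit 57926) (nat_lit 282) (.e (nat_lit 163871) (nat_lit 2) (.e (nat_lit 196670) (nat_lit 14) (.e (nat_lit 73746) (nat_lit 3) (.e (nat_lit 516127) (nat_lit 2) (.e (nat_lit 213036) (nat_lit 13) (.e (nat_lit 229433) (nat_lit 25) .nil)))))))) (.g (nat_lit 1) (.e (nat_lit 396078) (nat_lit 0) .nil) .nil))) 
(.lf (nat_lit 589757) (.g (nat_lit 4403) (.e (nat_lit 532503) (nat_lit 1) (.e (nat_lit 57931) (nat_lit 282) (.e (nat_lit 163869) (nat_lit 2) (.e (nat_lit 196670) (nat_lit 14) (.e (nat_lit 73746) (nat_lit 3) (.e (nat_lit 516129) (nat_lit 3) (.e (nat_lit 221196) (nat_lit 20) (.e (nat_lit 3247) (nat_lit 197) .nil)))))))) (.g (nat_lit 1) (.e (nat_lit 396848) (nat_lit 0) .nil) .nil)))))) 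
(.nd (nat_lit 7) (.nd (nat_lit 8) (.nd (nat_lit 9) 
(.lf (nat_lit 588925) (.g (nat_lit 2564) (.e (nat_lit 532499) (nat_lit 1) (.e (nat_lit 57927) (nat_lit 282) (.e (nat_lit 163869) (nat_lit 2) (.e (nat_lit 196666) (nat_lit 13) (.e (nat_lit 65569) (nat_lit 3) (.e (nat_lit 98342) (nat_lit 20) (.e (nat_lit 221198) (nat_lit 20) (.e (nat_lit 3237) (nat_lit 197) .nil)))))))) (.g (nat_lit 1) (.e (nat_lit 395533) (nat_lit 0) .nil) .nil))) 
(.lf (nat_lit 589437) (.g (nat_lit 2522) (.e (nat_lit 532503) (nat_lit 1) (.e (nat_lit 57688) (nat_lit 156) (.e (nat_lit 163907) (nat_lit 12) (.e (nat_lit 426568) (nat_lit 34) (.e (nat_lit 393282) (nat_lit 24) .nil))))) (.g (nat_lit 0) (.e (nat_lit 396417) (nat_lit 0) .nil) .nil)))) (.nd (nat_lit 9) 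
(.lf (nat_lit 589181) (.g (nat_lit 3849) (.e (nat_lit 532501) (nat_lit 1) (.e (nat_lit 57852) (nat_lit 252) (.e (nat_lit 57357) (nat_lit 0) (.e (nat_lit 1858) (nat_lit 124) (.e (nat_lit 557105) (nat_lit 14) (.e (nat_lit 180252) (nat_lit 10) (.e (nat_lit 573481) (nat_lit 13) (.e (nat_lit 65637) (nat_lit 15) (.e (nat_lit 3253) (nat_lit 197) .nil))))))))) (.g (nat_lit 1) (.e (nat_lit 395978) (nat_lit 0) .nil) .nil))) 
(.lf (nat_lit 589693) (.g (nat_lit 3006) (.e (nat_lit 532503) (nat_lit 1) (.e (nat_lit 57931) (nat_lit 282) (.e (nat_lit 163869) (nat_lit 2) (.e (nat_lit 196668) (nat_lit 14) (.e (nat_lit 73746) (nat_lit 3) (.e (nat_lit 516131) (nat_lit 3) (.e (nat_lit 221198) (nat_lit 20) (.e (nat_lit 3248) (nat_lit 197) .nil)))))))) (.g (nat_lit 1) (.e (nat_lit 396781) (nat_lit 0) .nil) .nil))))) 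
(.nd (nat_lit 8) (.nd (nat_lit 9) 
(.lf (nat_lit 589053) (.g (nat_lit 2589) (.e (nat_lit 532499) (nat_lit 1) (.e (nat_lit 57927) (nat_lit 282) (.e (nat_lit 163875) (nat_lit 3) (.e (nat_lit 204862) (nat_lit 27) (.e (nat_lit 344117) (nat_lit 21) (.e (nat_lit 516106) (nat_lit 0) (.e (nat_lit 3721) (nat_lit 227) (.e (nat_lit 778482) (nat_lit 12) (.e (nat_lit 163963) (nat_lit 25) .nil))))))))) (.g (nat_lit 1) (.e (nat_lit 395787) (nat_lit 0) .nil) .nil))) 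
(.lf (nat_lit 589565) (.g (nat_lit 2553) (.e (nat_lit 532503) (nat_lit 1) (.e (nat_lit 57929) (nat_lit 282) (.e (nat_lit 163869) (nat_lit 2) (.e (nat_lit 196670) (nat_lit 14) (.e (nat_lit 73746) (nat_lit 3) (.e (nat_lit 516131) (nat_lit 3) (.e (nat_lit 221197) (nat_lit 20) (.e (nat_lit 3248) (nat_lit 197) .nil)))))))) (.g (nat_lit 1) (.e (nat_lit 396583) (nat_lit 0) .nil) .nil)))) 
(.nd (nat_lit 9) 
(.lf (nat_lit 589309) (.g (nat_lit 3114) (.e (nat_lit 532501) (nat_lit 1) (.e (nat_lit 57929) (nat_lit 282) (.e (nat_lit 163869) (nat_lit 2) (.e (nat_lit 196670) (nat_lit 14) (.e (nat_lit 73746) (nat_lit 3) (.e (nat_lit 516127) (nat_lit 2) (.e (nat_lit 213035) (nat_lit 12) (.e (nat_lit 163964) (nat_lit 25) .nil)))))))) (.g (nat_lit 1) (.e (nat_lit 396214) (nat_lit 0) .nil) .nil))) 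
(.lf (nat_lit 589821) (.g (nat_lit 3180) (.e (nat_lit 532503) (nat_lit 1) (.e (nat_lit 57931) (nat_lit 282) (.e (nat_lit 163874) (nat_lit 3) (.e (nat_lit 204872) (nat_lit 30) (.e (nat_lit 368676) (nat_lit 21) (.e (nat_lit 516131) (nat_lit 3) (.e (nat_lit 221198) (nat_lit 20) (.e (nat_lit 3230) (nat_lit 197) .nil)))))))) (.g (nat_lit 1) (.e (nat_lit 396918) (nat_lit 0) .nil) .nil))))))))))) 
(.nd (nat_lit 2) (.nd (nat_lit 3) (.nd (nat_lit 4) (.nd (nat_lit 5) (.nd (nat_lit 6) 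
(.nd (nat_lit 7) (.nd (nat_lit 8) (.nd (nat_lit 9) 
(.lf (nat_lit 588803) (.g (nat_lit 3493) (.e (nat_lit 532499) (nat_lit 1) (.e (nat_lit 57854) (nat_lit 252) (.e (nat_lit 57406) (nat_lit 12) (.e (nat_lit 336454) (nat_lit 34) (.e (nat_lit 483404) (nat_lit 26) .nil))))) (.g (nat_lit 0) (.e (nat_lit 395346) (nat_lit 0) .nil) .nil))) 
(.lf (nat_lit 589315) (.g (nat_lit 2741) (.e (nat_lit 532501) (nat_lit 1) (.e (nat_lit 57931) (nat_lit 282) (.e (nat_lit 163869) (nat_lit 2) (.e (nat_lit 196668) (nat_lit 14) (.e (nat_lit 73747) (nat_lit 3) .nil))))) (.g (nat_lit 0) (.e (nat_lit 396235) (nat_lit 0) .nil) .nil)))) (.nd (nat_lit 9) 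
(.lf (nat_lit 589059) (.g (nat_lit 2709) (.e (nat_lit 532499) (nat_lit 1) (.e (nat_lit 57927) (nat_lit 282) (.e (nat_lit 163875) (nat_lit 3) (.e (nat_lit 204862) (nat_lit 27) (.e (nat_lit 344117) (nat_lit 21) (.e (nat_lit 516123) (nat_lit 2) (.e (nat_lit 220928) (nat_lit 13) (.e (nat_lit 229433) (nat_lit 25) .nil)))))))) (.g (nat_lit 1) (.e (nat_lit 395793) (nat_lit 0) .nil) .nil))) 
(.lf (nat_lit 589571) (.g (nat_lit 617) (.e (nat_lit 532503) (nat_lit 1) (.e (nat_lit 57931) (nat_lit 282) (.e (nat_lit 163865) (nat_lit 2) .nil))) (.g (nat_lit 0) (.e (nat_lit 396592) (nat_lit 0) .nil) .nil))))) (.nd (nat_lit 8) (.nd (nat_lit 9) 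
(.lf (nat_lit 588931) (.g (nat_lit 2328) (.e (nat_lit 532499) (nat_lit 1) (.e (nat_lit 57927) (nat_lit 282) (.e (nat_lit 163869) (nat_lit 2) (.e (nat_lit 196666) (nat_lit 13) (.e (nat_lit 65571) (nat_lit 3) (.e (nat_lit 98341) (nat_lit 20) (.e (nat_lit 221197) (nat_lit 20) (.e (nat_lit 3237) (nat_lit 197) .nil)))))))) (.g (nat_lit 1) (.e (nat_lit 395549) (nat_lit 0) .nil) .nil))) 
(.lf (nat_lit 589443) (.g (nat_lit 1843) (.e (nat_lit 532503) (nat_lit 1) (.e (nat_lit 57691) (nat_lit 156) (.e (nat_lit 163905) (nat_lit 12) (.e (nat_lit 426566) (nat_lit 34) .nil)))) (.g (nat_lit 0) (.e (nat_lit 396444) (nat_lit 0) .nil) .nil)))) (.nd (nat_lit 9) 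
(.lf (nat_lit 589187) (.g (nat_lit 2523) (.e (nat_lit 532501) (nat_lit 1) (.e (nat_lit 57852) (nat_lit 252) (.e (nat_lit 57377) (nat_lit 3) (.e (nat_lit 98313) (nat_lit 9) (.e (nat_lit 336027) (nat_lit 3) (.e (nat_lit 98337) (nat_lit 19) (.e (nat_lit 213037) (nat_lit 13) (.e (nat_lit 229433) (nat_lit 25) .nil)))))))) (.g (nat_lit 1) (.e (nat_lit 395985) (nat_lit 0) .nil) .nil))) 
(.lf (nat_lit 589699) (.g (nat_lit 2996) (.e (nat_lit 532503) (nat_lit 1) (.e (nat_lit 57931) (nat_lit 282) (.e (nat_lit 163869) (nat_lit 2) (.e (nat_lit 196668) (nat_lit 14) (.e (nat_lit 73747) (nat_lit 3) (.e (nat_lit 516129) (nat_lit 3) (.e (nat_lit 221196) (nat_lit 20) (.e (nat_lit 3250) (nat_lit 197) .nil)))))))) (.g (nat_lit 1) (.e (nat_lit 396790) (nat_lit 0) .nil) .nil)))))) 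
(.nd (nat_lit 7) (.nd (nat_lit 8) (.nd (nat_lit 9) 
(.lf (nat_lit 588867) (.g (nat_lit 2796) (.e (nat_lit 532499) (nat_lit 1) (.e (nat_lit 57927) (nat_lit 282) (.e (nat_lit 163868) (nat_lit 2) (.e (nat_lit 196668) (nat_lit 14) (.e (nat_lit 73746) (nat_lit 3) (.e (nat_lit 516129) (nat_lit 3) (.e (nat_lit 221196) (nat_lit 20) (.e (nat_lit 3250) (nat_lit 197) .nil)))))))) (.g (nat_lit 1) (.e (nat_lit 395454) (nat_lit 0) .nil) .nil))) 
(.lf (nat_lit 589379) (.g (nat_lit 1872) (.e (nat_lit 532502) (nat_lit 1) (.e (nat_lit 57848) (nat_lit 252) (.e (nat_lit 57407) (nat_lit 12) (.e (nat_lit 336454) (nat_lit 34) (.e (nat_lit 483408) (nat_lit 26) .nil))))) (.g (nat_lit 0) (.e (nat_lit 396327) (nat_lit 0) .nil) .nil)))) (.nd (nat_lit 9) 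
(.lf (nat_lit 589123) (.g (nat_lit 2577) (.e (nat_lit 532500) (nat_lit 1) (.e (nat_lit 57927) (nat_lit 282) (.e (nat_lit 163868) (nat_lit 2) (.e (nat_lit 196668) (nat_lit 14) (.e (nat_lit 73747) (nat_lit 3) (.e (nat_lit 516129) (nat_lit 3) (.e (nat_lit 221196) (nat_lit 20) (.e (nat_lit 3241) (nat_lit 197) .nil)))))))) (.g (nat_lit 1) (.e (nat_lit 395886) (nat_lit 0) .nil) .nil))) 
(.lf (nat_lit 589635) (.g (nat_lit 2705) (.e (nat_lit 532503) (nat_lit 1) (.e (nat_lit 57931) (nat_lit 282) (.e (nat_lit 163867) (nat_lit 2) (.e (nat_lit 196670) (nat_lit 14) (.e (nat_lit 73746) (nat_lit 3) (.e (nat_lit 516129) (nat_lit 3) (.e (nat_lit 221195) (nat_lit 20) (.e (nat_lit 3252) (nat_lit 197) .nil)))))))) (.g (nat_lit 1) (.e (nat_lit 396689) (nat_lit 0) .nil) .nil))))) 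
(.nd (nat_lit 8) (.nd (nat_lit 9) 
(.lf (nat_lit 588995) (.g (nat_lit 2690) (.e (nat_lit 532499) (nat_lit 1) (.e (nat_lit 57927) (nat_lit 282) (.e (nat_lit 163869) (nat_lit 2) (.e (nat_lit 196670) (nat_lit 14) (.e (nat_lit 73746) (nat_lit 3) (.e (nat_lit 516131) (nat_lit 3) (.e (nat_lit 221197) (nat_lit 20) (.e (nat_lit 3240) (nat_lit 197) .nil)))))))) (.g (nat_lit 1) (.e (nat_lit 395647) (nat_lit 0) .nil) .nil))) 
(.lf (nat_lit 589507) (.g (nat_lit 1995) (.e (nat_lit 532503) (nat_lit 1) (.e (nat_lit 57848) (nat_lit 252) (.e (nat_lit 57407) (nat_lit 12) (.e (nat_lit 336367) (nat_lit 27) (.e (nat_lit 426542) (nat_lit 29) (.e (nat_lit 352267) (nat_lit 0) (.e (nat_lit 3231) (nat_lit 197) .nil))))))) (.g (nat_lit 1) (.e (nat_lit 396519) (nat_lit 0) .nil) .nil)))) (.nd (nat_lit 9) 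
(.lf (nat_lit 589251) (.g (nat_lit 3452) (.e (nat_lit 532501) (nat_lit 1) (.e (nat_lit 57927) (nat_lit 282) (.e (nat_lit 163868) (nat_lit 2) (.e (nat_lit 196664) (nat_lit 13) (.e (nat_lit 65571) (nat_lit 3) (.e (nat_lit 98341) (nat_lit 20) (.e (nat_lit 221204) (nat_lit 20) (.e (nat_lit 3253) (nat_lit 197) .nil)))))))) (.g (nat_lit 1) (.e (nat_lit 396095) (nat_lit 0) .nil) .nil))) 
(.lf (nat_lit 589763) (.g (nat_lit 3185) (.e (nat_lit 532503) (nat_lit 1) (.e (nat_lit 57931) (nat_lit 282) (.e (nat_lit 163869) (nat_lit 2) (.e (nat_lit 196670) (nat_lit 14) (.e (nat_lit 73746) (nat_lit 3) (.e (nat_lit 516129) (nat_lit 3) (.e (nat_lit 221197) (nat_lit 20) (.e (nat_lit 3244) (nat_lit 197) .nil)))))))) (.g (nat_lit 1) (.e (nat_lit 396854) (nat_lit 0) .nil) .nil))))))) 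
(.nd (nat_lit 6) (.nd (nat_lit 7) (.nd (nat_lit 8) (.nd (nat_lit 9) 
(.lf (nat_lit 588835) (.g (nat_lit 1442) (.e (nat_lit 532499) (nat_lit 1) (.e (nat_lit 57926) (nat_lit 282) (.e (nat_lit 163871) (nat_lit 2) (.e (nat_lit 196670) (nat_lit 14) (.e (nat_lit 73746) (nat_lit 3) .nil))))) (.g (nat_lit 0) (.e (nat_lit 395385) (nat_lit 0) .nil) .nil))) 
(.lf (nat_lit 589347) (.g (nat_lit 2585) (.e (nat_lit 532502) (nat_lit 1) (.e (nat_lit 57688) (nat_lit 156) (.e (nat_lit 163905) (nat_lit 12) (.e (nat_lit 426566) (nat_lit 34) (.e (nat_lit 393287) (nat_lit 25) .nil))))) (.g (nat_lit 0) (.e (nat_lit 396270) (nat_lit 0) .nil) .nil)))) (.nd (nat_lit 9) 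
(.lf (nat_lit 589091) (.g (nat_lit 3267) (.e (nat_lit 532499) (nat_lit 1) (.e (nat_lit 57931) (nat_lit 282) (.e (nat_lit 163869) (nat_lit 2) (.e (nat_lit 196670) (nat_lit 14) (.e (nat_lit 73746) (nat_lit 3) (.e (nat_lit 516127) (nat_lit 2) (.e (nat_lit 213037) (nat_lit 13) (.e (nat_lit 229433) (nat_lit 25) .nil)))))))) (.g (nat_lit 1) (.e (nat_lit 395837) (nat_lit 0) .nil) .nil))) 
(.lf (nat_lit 589603) (.g (nat_lit 3279) (.e (nat_lit 532503) (nat_lit 1) (.e (nat_lit 57931) (nat_lit 282) (.e (nat_lit 163867) (nat_lit 2) (.e (nat_lit 196668) (nat_lit 14) (.e (nat_lit 73746) (nat_lit 3) (.e (nat_lit 516129) (nat_lit 3) (.e (nat_lit 221202) (nat_lit 20) (.e (nat_lit 3245) (nat_lit 197) .nil)))))))) (.g (nat_lit 1) (.e (nat_lit 396632) (nat_lit 0) .nil) .nil))))) 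
(.nd (nat_lit 8) (.nd (nat_lit 9) 
(.lf (nat_lit 588963) (.g (nat_lit 2770) (.e (nat_lit 532499) (nat_lit 1) (.e (nat_lit 57927) (nat_lit 282) (.e (nat_lit 163869) (nat_lit 2) (.e (nat_lit 196670) (nat_lit 14) (.e (nat_lit 73746) (nat_lit 3) (.e (nat_lit 516124) (nat_lit 2) (.e (nat_lit 213034) (nat_lit 12) (.e (nat_lit 163965) (nat_lit 25) .nil)))))))) (.g (nat_lit 1) (.e (nat_lit 395615) (nat_lit 0) .nil) .nil))) 
(.lf (nat_lit 589475) (.g (nat_lit 2866) (.e (nat_lit 532503) (nat_lit 1) (.e (nat_lit 57847) (nat_lit 252) (.e (nat_lit 57407) (nat_lit 12) (.e (nat_lit 336454) (nat_lit 34) (.e (nat_lit 483404) (nat_lit 26) .nil))))) (.g (nat_lit 0) (.e (nat_lit 396483) (nat_lit 0) .nil) .nil)))) (.nd (nat_lit 9) 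
(.lf (nat_lit 589219) (.g (nat_lit 2551) (.e (nat_lit 532501) (nat_lit 1) (.e (nat_lit 57926) (nat_lit 282) (.e (nat_lit 163868) (nat_lit 2) (.e (nat_lit 196668) (nat_lit 14) (.e (nat_lit 73746) (nat_lit 3) .nil))))) (.g (nat_lit 0) (.e (nat_lit 396032) (nat_lit 0) .nil) .nil))) 
(.lf (nat_lit 589731) (.g (nat_lit 3127) (.e (nat_lit 532503) (nat_lit 1) (.e (nat_lit 57931) (nat_lit 282) (.e (nat_lit 163869) (nat_lit 2) (.e (nat_lit 196670) (nat_lit 14) (.e (nat_lit 73746) (nat_lit 3) (.e (nat_lit 516124) (nat_lit 2) (.e (nat_lit 220928) (nat_lit 13) (.e (nat_lit 229433) (nat_lit 25) .nil)))))))) (.g (nat_lit 1) (.e (nat_lit 396822) (nat_lit 0) .nil) .nil)))))) 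
(.nd (nat_lit 7) (.nd (nat_lit 8) (.nd (nat_lit 9) 
(.lf (nat_lit 588899) (.g (nat_lit 3074) (.e (nat_lit 532499) (nat_lit 1) (.e (nat_lit 57927) (nat_lit 282) (.e (nat_lit 163868) (nat_lit 2) (.e (nat_lit 196670) (nat_lit 14) (.e (nat_lit 73746) (nat_lit 3) (.e (nat_lit 516126) (nat_lit 2) (.e (nat_lit 213034) (nat_lit 12) (.e (nat_lit 163963) (nat_lit 25) .nil)))))))) (.g (nat_lit 1) (.e (nat_lit 395501) (nat_lit 0) .nil) .nil))) 
(.lf (nat_lit 589411) (.g (nat_lit 3678) (.e (nat_lit 532503) (nat_lit 1) (.e (nat_lit 57687) (nat_lit 156) (.e (nat_lit 163903) (nat_lit 12) (.e (nat_lit 426568) (nat_lit 34) (.e (nat_lit 393284) (nat_lit 24) (.e (nat_lit 434233) (nat_lit 23) .nil)))))) (.g (nat_lit 1) (.e (nat_lit 396379) (nat_lit 0) .nil) .nil)))) (.nd (nat_lit 9) 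
(.lf (nat_lit 589155) (.g (nat_lit 4796) (.e (nat_lit 532501) (nat_lit 1) (.e (nat_lit 57851) (nat_lit 252) (.e (nat_lit 57354) (nat_lit 0) (.e (nat_lit 1855) (nat_lit 124) (.e (nat_lit 557105) (nat_lit 14) (.e (nat_lit 180252) (nat_lit 10) (.e (nat_lit 573481) (nat_lit 13) (.e (nat_lit 65637) (nat_lit 15) (.e (nat_lit 3253) (nat_lit 197) .nil))))))))) (.g (nat_lit 1) (.e (nat_lit 395952) (nat_lit 0) .nil) .nil))) 
(.lf (nat_lit 589667) (.g (nat_lit 3801) (.e (nat_lit 532503) (nat_lit 1) (.e (nat_lit 57931) (nat_lit 282) (.e (nat_lit 163867) (nat_lit 2) (.e (nat_lit 196670) (nat_lit 14) (.e (nat_lit 73746) (nat_lit 3) (.e (nat_lit 516131) (nat_lit 3) (.e (nat_lit 221198) (nat_lit 20) (.e (nat_lit 3230) (nat_lit 197) .nil)))))))) (.g (nat_lit 1) (.e (nat_lit 396721) (nat_lit 0) .nil) .nil))))) 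
(.nd (nat_lit 8) (.nd (nat_lit 9) 
(.lf (nat_lit 589027) (.g (nat_lit 1732) (.e (nat_lit 532499) (nat_lit 1) (.e (nat_lit 57927) (nat_lit 282) (.e (nat_lit 163873) (nat_lit 3) (.e (nat_lit 204853) (nat_lit 26) .nil)))) (.g (nat_lit 0) (.e (nat_lit 395752) (nat_lit 0) .nil) .nil))) 
(.lf (nat_lit 589539) (.g (nat_lit 1336) (.e (nat_lit 532503) (nat_lit 1) (.e (nat_lit 57852) (nat_lit 252) (.e (nat_lit 57406) (nat_lit 12) (.e (nat_lit 336454) (nat_lit 34) .nil)))) (.g (nat_lit 0) (.e (nat_lit 396554) (nat_lit 0) .nil) .nil)))) (.nd (nat_lit 9) 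
(.lf (nat_lit 589283) (.g (nat_lit 3321) (.e (nat_lit 532501) (nat_lit 1) (.e (nat_lit 57927) (nat_lit 282) (.e (nat_lit 163871) (nat_lit 2) (.e (nat_lit 196670) (nat_lit 14) (.e (nat_lit 73746) (nat_lit 3) (.e (nat_lit 516127) (nat_lit 2) (.e (nat_lit 220928) (nat_lit 13) (.e (nat_lit 229433) (nat_lit 25) .nil)))))))) (.g (nat_lit 1) (.e (nat_lit 396174) (nat_lit 0) .nil) .nil))) 
(.lf (nat_lit 589795) (.g (nat_lit 3213) (.e (nat_lit 532503) (nat_lit 1) (.e (nat_lit 57931) (nat_lit 282) (.e (nat_lit 163869) (nat_lit 2) (.e (nat_lit 196670) (nat_lit 14) (.e (nat_lit 73746) (nat_lit 3) (.e (nat_lit 516131) (nat_lit 3) (.e (nat_lit 221198) (nat_lit 20) (.e (nat_lit 3250) (nat_lit 197) .nil)))))))) (.g (nat_lit 1) (.e (nat_lit 396886) (nat_lit 0) .nil) .nil)))))))) 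
(.nd (nat_lit 5) (.nd (nat_lit 6) (.nd (nat_lit 7) (.nd (nat_lit 8) (.nd (nat_lit 9) 
(.lf (nat_lit 588819) (.g (nat_lit 3580) (.e (nat_lit 532499) (nat_lit 1) (.e (nat_lit 57926) (nat_lit 282) (.e (nat_lit 163869) (nat_lit 2) (.e (nat_lit 196670) (nat_lit 14) (.e (nat_lit 73746) (nat_lit 3) (.e (nat_lit 516124) (nat_lit 2) (.e (nat_lit 213034) (nat_lit 12) (.e (nat_lit 163963) (nat_lit 25) .nil)))))))) (.g (nat_lit 1) (.e (nat_lit 395363) (nat_lit 0) .nil) .nil))) 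
(.lf (nat_lit 589331) (.g (nat_lit 1634) (.e (nat_lit 532502) (nat_lit 1) (.e (nat_lit 57688) (nat_lit 156) (.e (nat_lit 163902) (nat_lit 12) (.e (nat_lit 426479) (nat_lit 27) (.e (nat_lit 336432) (nat_lit 30) .nil))))) (.g (nat_lit 0) (.e (nat_lit 396254) (nat_lit 0) .nil) .nil)))) (.nd (nat_lit 9) 
(.lf (nat_lit 589075) (.g (nat_lit 2687) (.e (nat_lit 532499) (nat_lit 1) (.e (nat_lit 57931) (nat_lit 282) (.e (nat_lit 163869) (nat_lit 2) (.e (nat_lit 196668) (nat_lit 14) (.e (nat_lit 73747) (nat_lit 3) .nil))))) (.g (nat_lit 0) (.e (nat_lit 395821) (nat_lit 0) .nil) .nil))) 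
(.lf (nat_lit 589587) (.g (nat_lit 2670) (.e (nat_lit 532503) (nat_lit 1) (.e (nat_lit 57931) (nat_lit 282) (.e (nat_lit 163867) (nat_lit 2) (.e (nat_lit 196663) (nat_lit 13) (.e (nat_lit 65571) (nat_lit 3) (.e (nat_lit 98341) (nat_lit 20) (.e (nat_lit 221197) (nat_lit 20) (.e (nat_lit 3248) (nat_lit 197) .nil)))))))) (.g (nat_lit 1) (.e (nat_lit 396612) (nat_lit 0) .nil) .nil))))) 
(.nd (nat_lit 8) (.nd (nat_lit 9) 
(.lf (nat_lit 588947) (.g (nat_lit 2604) (.e (nat_lit 532499) (nat_lit 1) (.e (nat_lit 57927) (nat_lit 282) (.e (nat_lit 163869) (nat_lit 2) (.e (nat_lit 196668) (nat_lit 14) (.e (nat_lit 73747) (nat_lit 3) (.e (nat_lit 516131) (nat_lit 3) (.e (nat_lit 221197) (nat_lit 20) (.e (nat_lit 3240) (nat_lit 197) .nil)))))))) (.g (nat_lit 1) (.e (nat_lit 395599) (nat_lit 0) .nil) .nil))) 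
(.lf (nat_lit 589459) (.g (nat_lit 1058) (.e (nat_lit 532503) (nat_lit 1) (.e (nat_lit 57846) (nat_lit 252) (.e (nat_lit 57407) (nat_lit 12) (.e (nat_lit 336454) (nat_lit 34) .nil)))) (.g (nat_lit 0) (.e (nat_lit 396466) (nat_lit 0) .nil) .nil)))) (.nd (nat_lit 9) 
(.lf (nat_lit 589203) (.g (nat_lit 906) (.e (nat_lit 532501) (nat_lit 1) (.e (nat_lit 57854) (nat_lit 252) (.e (nat_lit 57406) (nat_lit 12) (.e (nat_lit 336454) (nat_lit 34) .nil)))) (.g (nat_lit 0) (.e (nat_lit 396004) (nat_lit 0) .nil) .nil))) 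
(.lf (nat_lit 589715) (.g (nat_lit 3336) (.e (nat_lit 532503) (nat_lit 1) (.e (nat_lit 57931) (nat_lit 282) (.e (nat_lit 163869) (nat_lit 2) (.e (nat_lit 196668) (nat_lit 14) (.e (nat_lit 73747) (nat_lit 3) (.e (nat_lit 516131) (nat_lit 3) (.e (nat_lit 221197) (nat_lit 20) (.e (nat_lit 3247) (nat_lit 197) .nil)))))))) (.g (nat_lit 1) (.e (nat_lit 396806) (nat_lit 0) .nil) .nil)))))) 
(.nd (nat_lit 7) (.nd (nat_lit 8) (.nd (nat_lit 9) 
(.lf (nat_lit 588883) (.g (nat_lit 2694) (.e (nat_lit 532499) (nat_lit 1) (.e (nat_lit 57927) (nat_lit 282) (.e (nat_lit 163868) (nat_lit 2) (.e (nat_lit 196668) (nat_lit 14) (.e (nat_lit 73747) (nat_lit 3) (.e (nat_lit 516131) (nat_lit 3) (.e (nat_lit 221198) (nat_lit 20) (.e (nat_lit 3241) (nat_lit 197) .nil)))))))) (.g (nat_lit 1) (.e (nat_lit 395485) (nat_lit 0) .nil) .nil))) 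
(.lf (nat_lit 589395) (.g (nat_lit 2514) (.e (nat_lit 532502) (nat_lit 1) (.e (nat_lit 57854) (nat_lit 252) (.e (nat_lit 57406) (nat_lit 12) (.e (nat_lit 336454) (nat_lit 34) (.e (nat_lit 483385) (nat_lit 23) (.e (nat_lit 336306) (nat_lit 15) (.e (nat_lit 3238) (nat_lit 197) .nil))))))) (.g (nat_lit 1) (.e (nat_lit 396358) (nat_lit 0) .nil) .nil)))) (.nd (nat_lit 9) 
(.lf (nat_lit 589139) (.g (nat_lit 2561) (.e (nat_lit 532501) (nat_lit 1) (.e (nat_lit 57689) (nat_lit 156) (.e (nat_lit 163907) (nat_lit 12) (.e (nat_lit 426479) (nat_lit 27) (.e (nat_lit 336434) (nat_lit 30) (.e (nat_lit 450579) (nat_lit 5) .nil)))))) (.g (nat_lit 1) (.e (nat_lit 395911) (nat_lit 0) .nil) .nil))) 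
(.lf (nat_lit 589651) (.g (nat_lit 2772) (.e (nat_lit 532503) (nat_lit 1) (.e (nat_lit 57931) (nat_lit 282) (.e (nat_lit 163867) (nat_lit 2) (.e (nat_lit 196670) (nat_lit 14) (.e (nat_lit 73746) (nat_lit 3) (.e (nat_lit 516129) (nat_lit 3) (.e (nat_lit 221197) (nat_lit 20) (.e (nat_lit 3247) (nat_lit 197) .nil)))))))) (.g (nat_lit 1) (.e (nat_lit 396705) (nat_lit 0) .nil) .nil))))) 
(.nd (nat_lit 8) (.nd (nat_lit 9) 
(.lf (nat_lit 589011) (.g (nat_lit 2414) (.e (nat_lit 532499) (nat_lit 1) (.e (nat_lit 57927) (nat_lit 282) (.e (nat_lit 163871) (nat_lit 2) (.e (nat_lit 196670) (nat_lit 14) (.e (nat_lit 73746) (nat_lit 3) (.e (nat_lit 516126) (nat_lit 2) (.e (nat_lit 213033) (nat_lit 12) (.e (nat_lit 163963) (nat_lit 25) .nil)))))))) (.g (nat_lit 1) (.e (nat_lit 395736) (nat_lit 0) .nil) .nil))) 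
(.lf (nat_lit 589523) (.g (nat_lit 3511) (.e (nat_lit 532503) (nat_lit 1) (.e (nat_lit 57849) (nat_lit 252) (.e (nat_lit 57377) (nat_lit 3) (.e (nat_lit 98317) (nat_lit 9) (.e (nat_lit 336027) (nat_lit 3) .nil))))) (.g (nat_lit 0) (.e (nat_lit 396537) (nat_lit 0) .nil) .nil)))) (.nd (nat_lit 9) 
(.lf (nat_lit 589267) (.g (nat_lit 2743) (.e (nat_lit 532501) (nat_lit 1) (.e (nat_lit 57927) (nat_lit 282) (.e (nat_lit 163869) (nat_lit 2) (.e (nat_lit 196670) (nat_lit 14) (.e (nat_lit 73746) (nat_lit 3) (.e (nat_lit 516122) (nat_lit 2) (.e (nat_lit 213037) (nat_lit 13) (.e (nat_lit 229433) (nat_lit 25) .nil)))))))) (.g (nat_lit 1) (.e (nat_lit 396137) (nat_lit 0) .nil) .nil))) 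
(.lf (nat_lit 589779) (.g (nat_lit 2892) (.e (nat_lit 532503) (nat_lit 1) (.e (nat_lit 57931) (nat_lit 282) (.e (nat_lit 163869) (nat_lit 2) (.e (nat_lit 196670) (nat_lit 14) (.e (nat_lit 73746) (nat_lit 3) (.e (nat_lit 516129) (nat_lit 3) (.e (nat_lit 221202) (nat_lit 20) (.e (nat_lit 3232) (nat_lit 197) .nil)))))))) (.g (nat_lit 1) (.e (nat_lit 396870) (nat_lit 0) .nil) .nil))))))) 
(.nd (nat_lit 6) (.nd (nat_lit 7) (.nd (nat_lit 8) (.nd (nat_lit 9) 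
(.lf (nat_lit 588851) (.g (nat_lit 2266) (.e (nat_lit 532499) (nat_lit 1) (.e (nat_lit 57927) (nat_lit 282) (.e (nat_lit 163866) (nat_lit 2) (.e (nat_lit 196670) (nat_lit 14) (.e (nat_lit 73746) (nat_lit 3) (.e (nat_lit 516126) (nat_lit 2) (.e (nat_lit 213035) (nat_lit 12) (.e (nat_lit 163963) (nat_lit 25) .nil)))))))) (.g (nat_lit 1) (.e (nat_lit 395409) (nat_lit 0) .nil) .nil))) 
(.lf (nat_lit 589363) (.g (nat_lit 1975) (.e (nat_lit 532502) (nat_lit 1) (.e (nat_lit 57692) (nat_lit 156) (.e (nat_lit 163875) (nat_lit 3) (.e (nat_lit 204837) (nat_lit 20) (.e (nat_lit 114715) (nat_lit 22) .nil))))) (.g (nat_lit 0) (.e (nat_lit 396300) (nat_lit 0) .nil) .nil)))) (.nd (nat_lit 9) 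
(.lf (nat_lit 589107) (.g (nat_lit 1947) (.e (nat_lit 532500) (nat_lit 1) (.e (nat_lit 57851) (nat_lit 252) (.e (nat_lit 57406) (nat_lit 12) (.e (nat_lit 336456) (nat_lit 34) (.e (nat_lit 483404) (nat_lit 26) .nil))))) (.g (nat_lit 0) (.e (nat_lit 395859) (nat_lit 0) .nil) .nil))) 
(.lf (nat_lit 589619) (.g (nat_lit 2578) (.e (nat_lit 532503) (nat_lit 1) (.e (nat_lit 57931) (nat_lit 282) (.e (nat_lit 163867) (nat_lit 2) (.e (nat_lit 196668) (nat_lit 14) (.e (nat_lit 73747) (nat_lit 3) (.e (nat_lit 516129) (nat_lit 3) (.e (nat_lit 221198) (nat_lit 20) (.e (nat_lit 3248) (nat_lit 197) .nil)))))))) (.g (nat_lit 1) (.e (nat_lit 396651) (nat_lit 0) .nil) .nil))))) 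
(.nd (nat_lit 8) (.nd (nat_lit 9) 
(.lf (nat_lit 588979) (.g (nat_lit 2594) (.e (nat_lit 532499) (nat_lit 1) (.e (nat_lit 57927) (nat_lit 282) (.e (nat_lit 163869) (nat_lit 2) (.e (nat_lit 196670) (nat_lit 14) (.e (nat_lit 73746) (nat_lit 3) (.e (nat_lit 516129) (nat_lit 3) (.e (nat_lit 221196) (nat_lit 20) (.e (nat_lit 3248) (nat_lit 197) .nil)))))))) (.g (nat_lit 1) (.e (nat_lit 395631) (nat_lit 0) .nil) .nil))) 
(.lf (nat_lit 589491) (.g (nat_lit 1540) (.e (nat_lit 532503) (nat_lit 1) (.e (nat_lit 57847) (nat_lit 252) (.e (nat_lit 57411) (nat_lit 12) (.e (nat_lit 336374) (nat_lit 27) .nil)))) (.g (nat_lit 0) (.e (nat_lit 396501) (nat_lit 0) .nil) .nil)))) (.nd (nat_lit 9) 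
(.lf (nat_lit 589235) (.g (nat_lit 3386) (.e (nat_lit 532501) (nat_lit 1) (.e (nat_lit 57926) (nat_lit 282) (.e (nat_lit 163869) (nat_lit 2) (.e (nat_lit 196670) (nat_lit 14) (.e (nat_lit 73746) (nat_lit 3) (.e (nat_lit 516126) (nat_lit 2) (.e (nat_lit 220928) (nat_lit 13) (.e (nat_lit 229433) (nat_lit 25) .nil)))))))) (.g (nat_lit 1) (.e (nat_lit 396060) (nat_lit 0) .nil) .nil))) 
(.lf (nat_lit 589747) (.g (nat_lit 3606) (.e (nat_lit 532503) (nat_lit 1) (.e (nat_lit 57931) (nat_lit 282) (.e (nat_lit 163869) (nat_lit 2) (.e (nat_lit 196670) (nat_lit 14) (.e (nat_lit 73746) (nat_lit 3) (.e (nat_lit 516127) (nat_lit 2) (.e (nat_lit 213038) (nat_lit 13) (.e (nat_lit 229432) (nat_lit 25) .nil)))))))) (.g (nat_lit 1) (.e (nat_lit 396838) (nat_lit 0) .nil) .nil)))))) 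
(.nd (nat_lit 7) (.nd (nat_lit 8) (.nd (nat_lit 9) 
(.lf (nat_lit 588915) (.g (nat_lit 2258) (.e (nat_lit 532499) (nat_lit 1) (.e (nat_lit 57927) (nat_lit 282) (.e (nat_lit 163868) (nat_lit 2) (.e (nat_lit 196670) (nat_lit 14) (.e (nat_lit 73746) (nat_lit 3) (.e (nat_lit 516129) (nat_lit 3) (.e (nat_lit 221197) (nat_lit 20) (.e (nat_lit 3237) (nat_lit 197) .nil)))))))) (.g (nat_lit 1) (.e (nat_lit 395517) (nat_lit 0) .nil) .nil))) 
(.lf (nat_lit 589427) (.g (nat_lit 1784) (.e (nat_lit 532503) (nat_lit 1) (.e (nat_lit 57688) (nat_lit 156) (.e (nat_lit 163903) (nat_lit 12) (.e (nat_lit 426566) (nat_lit 34) (.e (nat_lit 393289) (nat_lit 25) .nil))))) (.g (nat_lit 0) (.e (nat_lit 396405) (nat_lit 0) .nil) .nil)))) (.nd (nat_lit 9) 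
(.lf (nat_lit 589171) (.g (nat_lit 2893) (.e (nat_lit 532501) (nat_lit 1) (.e (nat_lit 57851) (nat_lit 252) (.e (nat_lit 57406) (nat_lit 12) (.e (nat_lit 336456) (nat_lit 34) (.e (nat_lit 483383) (nat_lit 23) (.e (nat_lit 336260) (nat_lit 15) (.e (nat_lit 3252) (nat_lit 197) .nil))))))) (.g (nat_lit 1) (.e (nat_lit 395968) (nat_lit 0) .nil) .nil))) 
(.lf (nat_lit 589683) (.g (nat_lit 3826) (.e (nat_lit 532503) (nat_lit 1) (.e (nat_lit 57931) (nat_lit 282) (.e (nat_lit 163869) (nat_lit 2) (.e (nat_lit 196668) (nat_lit 14) (.e (nat_lit 73746) (nat_lit 3) (.e (nat_lit 516129) (nat_lit 3) (.e (nat_lit 221196) (nat_lit 20) (.e (nat_lit 3248) (nat_lit 197) .nil)))))))) (.g (nat_lit 1) (.e (nat_lit 396771) (nat_lit 0) .nil) .nil))))) 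
(.nd (nat_lit 8) (.nd (nat_lit 9) 
(.lf (nat_lit 589043) (.g (nat_lit 3296) (.e (nat_lit 532499) (nat_lit 1) (.e (nat_lit 57927) (nat_lit 282) (.e (nat_lit 163874) (nat_lit 3) (.e (nat_lit 204862) (nat_lit 27) (.e (nat_lit 344117) (nat_lit 21) (.e (nat_lit 516122) (nat_lit 2) (.e (nat_lit 213035) (nat_lit 12) (.e (nat_lit 163964) (nat_lit 25) .nil)))))))) (.g (nat_lit 1) (.e (nat_lit 395773) (nat_lit 0) .nil) .nil))) 
(.lf (nat_lit 589555) (.g (nat_lit 3139) (.e (nat_lit 532503) (nat_lit 1) (.e (nat_lit 57924) (nat_lit 282) (.e (nat_lit 163867) (nat_lit 2) (.e (nat_lit 196670) (nat_lit 14) (.e (nat_lit 73746) (nat_lit 3) (.e (nat_lit 516131) (nat_lit 3) (.e (nat_lit 221198) (nat_lit 20) (.e (nat_lit 3248) (nat_lit 197) .nil)))))))) (.g (nat_lit 1) (.e (nat_lit 396572) (nat_lit 0) .nil) .nil)))) 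
(.nd (nat_lit 9) 
(.lf (nat_lit 589299) (.g (nat_lit 3543) (.e (nat_lit 532501) (nat_lit 1) (.e (nat_lit 57928) (nat_lit 282) (.e (nat_lit 163871) (nat_lit 2) (.e (nat_lit 196670) (nat_lit 14) (.e (nat_lit 73746) (nat_lit 3) (.e (nat_lit 516127) (nat_lit 2) (.e (nat_lit 220928) (nat_lit 13) (.e (nat_lit 229433) (nat_lit 25) .nil)))))))) (.g (nat_lit 1) (.e (nat_lit 396201) (nat_lit 0) .nil) .nil))) 
(.lf (nat_lit 589811) (.g (nat_lit 2424) (.e (nat_lit 532503) (nat_lit 1) (.e (nat_lit 57931) (nat_lit 282) (.e (nat_lit 163874) (nat_lit 3) (.e (nat_lit 204854) (nat_lit 26) (.e (nat_lit 336019) (nat_lit 3) (.e (nat_lit 98342) (nat_lit 20) (.e (nat_lit 221198) (nat_lit 20) (.e (nat_lit 3246) (nat_lit 197) .nil)))))))) (.g (nat_lit 1) (.e (nat_lit 396908) (nat_lit 0) .nil) .nil))))))))) 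
(.nd (nat_lit 4) (.nd (nat_lit 5) (.nd (nat_lit 6) (.nd (nat_lit 7) (.nd (nat_lit 8) 
(.nd (nat_lit 9) 
(.lf (nat_lit 588811) (.g (nat_lit 1754) (.e (nat_lit 532499) (nat_lit 1) (.e (nat_lit 57926) (nat_lit 282) (.e (nat_lit 163869) (nat_lit 2) (.e (nat_lit 196670) (nat_lit 14) (.e (nat_lit 73746) (nat_lit 3) .nil))))) (.g (nat_lit 0) (.e (nat_lit 395355) (nat_lit 0) .nil) .nil))) 
(.lf (nat_lit 589323) (.g (nat_lit 3833) (.e (nat_lit 532501) (nat_lit 1) (.e (nat_lit 57931) (nat_lit 282) (.e (nat_lit 163885) (nat_lit 5) (.e (nat_lit 221212) (nat_lit 22) (.e (nat_lit 196656) (nat_lit 11) (.e (nat_lit 16425) (nat_lit 7) (.e (nat_lit 409617) (nat_lit 10) (.e (nat_lit 604) (nat_lit 45) .nil)))))))) (.g (nat_lit 1) (.e (nat_lit 396244) (nat_lit 0) .nil) .nil)))) (.nd (nat_lit 9) 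
(.lf (nat_lit 589067) (.g (nat_lit 2831) (.e (nat_lit 532499) (nat_lit 1) (.e (nat_lit 57927) (nat_lit 282) (.e (nat_lit 163886) (nat_lit 5) (.e (nat_lit 221212) (nat_lit 22) (.e (nat_lit 196624) (nat_lit 9) (.e (nat_lit 375) (nat_lit 32) (.e (nat_lit 426173) (nat_lit 7) (.e (nat_lit 409617) (nat_lit 10) (.e (nat_lit 604) (nat_lit 45) .nil))))))))) (.g (nat_lit 1) (.e (nat_lit 395803) (nat_lit 0) .nil) .nil))) 
(.lf (nat_lit 589579) (.g (nat_lit 3027) (.e (nat_lit 532503) (nat_lit 1) (.e (nat_lit 57931) (nat_lit 282) (.e (nat_lit 163866) (nat_lit 2) (.e (nat_lit 196670) (nat_lit 14) (.e (nat_lit 73746) (nat_lit 3) (.e (nat_lit 516129) (nat_lit 3) (.e (nat_lit 221196) (nat_lit 20) (.e (nat_lit 3230) (nat_lit 197) .nil)))))))) (.g (nat_lit 1) (.e (nat_lit 396602) (nat_lit 0) .nil) .nil))))) 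
(.nd (nat_lit 8) (.nd (nat_lit 9) 
(.lf (nat_lit 588939) (.g (nat_lit 1962) (.e (nat_lit 532499) (nat_lit 1) (.e (nat_lit 57927) (nat_lit 282) (.e (nat_lit 163869) (nat_lit 2) (.e (nat_lit 196668) (nat_lit 14) (.e (nat_lit 73747) (nat_lit 3) .nil))))) (.g (nat_lit 0) (.e (nat_lit 395576) (nat_lit 0) .nil) .nil))) 
(.lf (nat_lit 589451) (.g (nat_lit 2212) (.e (nat_lit 532503) (nat_lit 1) (.e (nat_lit 57844) (nat_lit 252) (.e (nat_lit 57406) (nat_lit 12) (.e (nat_lit 336456) (nat_lit 34) (.e (nat_lit 483383) (nat_lit 23) .nil))))) (.g (nat_lit 0) (.e (nat_lit 396458) (nat_lit 0) .nil) .nil)))) (.nd (nat_lit 9) 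
(.lf (nat_lit 589195) (.g (nat_lit 2719) (.e (nat_lit 532501) (nat_lit 1) (.e (nat_lit 57852) (nat_lit 252) (.e (nat_lit 57406) (nat_lit 12) (.e (nat_lit 336456) (nat_lit 34) (.e (nat_lit 483387) (nat_lit 23) .nil))))) (.g (nat_lit 0) (.e (nat_lit 395993) (nat_lit 0) .nil) .nil))) 
(.lf (nat_lit 589707) (.g (nat_lit 3465) (.e (nat_lit 532503) (nat_lit 1) (.e (nat_lit 57931) (nat_lit 282) (.e (nat_lit 163869) (nat_lit 2) (.e (nat_lit 196668) (nat_lit 14) (.e (nat_lit 73747) (nat_lit 3) (.e (nat_lit 516129) (nat_lit 3) (.e (nat_lit 221200) (nat_lit 20) (.e (nat_lit 3254) (nat_lit 197) .nil)))))))) (.g (nat_lit 1) (.e (nat_lit 396798) (nat_lit 0) .nil) .nil)))))) 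
(.nd (nat_lit 7) (.nd (nat_lit 8) (.nd (nat_lit 9) 
(.lf (nat_lit 588875) (.g (nat_lit 2824) (.e (nat_lit 532499) (nat_lit 1) (.e (nat_lit 57927) (nat_lit 282) (.e (nat_lit 163868) (nat_lit 2) (.e (nat_lit 196668) (nat_lit 14) (.e (nat_lit 73747) (nat_lit 3) (.e (nat_lit 516129) (nat_lit 3) (.e (nat_lit 221196) (nat_lit 20) (.e (nat_lit 3250) (nat_lit 197) .nil)))))))) (.g (nat_lit 1) (.e (nat_lit 395476) (nat_lit 0) .nil) .nil))) 
(.lf (nat_lit 589387) (.g (nat_lit 3450) (.e (nat_lit 532502) (nat_lit 1) (.e (nat_lit 57852) (nat_lit 252) (.e (nat_lit 57406) (nat_lit 12) (.e (nat_lit 336454) (nat_lit 34) (.e (nat_lit 483404) (nat_lit 26) .nil))))) (.g (nat_lit 0) (.e (nat_lit 396339) (nat_lit 0) .nil) .nil)))) (.nd (nat_lit 9) 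
(.lf (nat_lit 589131) (.g (nat_lit 2632) (.e (nat_lit 532500) (nat_lit 1) (.e (nat_lit 57927) (nat_lit 282) (.e (nat_lit 163869) (nat_lit 2) (.e (nat_lit 196668) (nat_lit 14) (.e (nat_lit 73747) (nat_lit 3) (.e (nat_lit 516131) (nat_lit 3) (.e (nat_lit 221198) (nat_lit 20) (.e (nat_lit 3241) (nat_lit 197) .nil)))))))) (.g (nat_lit 1) (.e (nat_lit 395896) (nat_lit 0) .nil) .nil))) 
(.lf (nat_lit 589643) (.g (nat_lit 3065) (.e (nat_lit 532503) (nat_lit 1) (.e (nat_lit 57931) (nat_lit 282) (.e (nat_lit 163867) (nat_lit 2) (.e (nat_lit 196670) (nat_lit 14) (.e (nat_lit 73746) (nat_lit 3) (.e (nat_lit 516129) (nat_lit 3) (.e (nat_lit 221196) (nat_lit 20) (.e (nat_lit 3244) (nat_lit 197) .nil)))))))) (.g (nat_lit 1) (.e (nat_lit 396697) (nat_lit 0) .nil) .nil))))) 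
(.nd (nat_lit 8) (.nd (nat_lit 9) 
(.lf (nat_lit 589003) (.g (nat_lit 2504) (.e (nat_lit 532499) (nat_lit 1) (.e (nat_lit 57927) (nat_lit 282) (.e (nat_lit 163871) (nat_lit 2) (.e (nat_lit 196670) (nat_lit 14) (.e (nat_lit 73746) (nat_lit 3) (.e (nat_lit 516122) (nat_lit 2) (.e (nat_lit 213035) (nat_lit 12) (.e (nat_lit 163963) (nat_lit 25) .nil)))))))) (.g (nat_lit 1) (.e (nat_lit 395727) (nat_lit 0) .nil) .nil))) 
(.lf (nat_lit 589515) (.g (nat_lit 2105) (.e (nat_lit 532503) (nat_lit 1) (.e (nat_lit 57848) (nat_lit 252) (.e (nat_lit 57407) (nat_lit 12) (.e (nat_lit 336456) (nat_lit 34) (.e (nat_lit 483393) (nat_lit 23) (.e (nat_lit 336271) (nat_lit 15) (.e (nat_lit 3233) (nat_lit 197) .nil))))))) (.g (nat_lit 1) (.e (nat_lit 396528) (nat_lit 0) .nil) .nil)))) (.nd (nat_lit 9) 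
(.lf (nat_lit 589259) (.g (nat_lit 3304) (.e (nat_lit 532501) (nat_lit 1) (.e (nat_lit 57927) (nat_lit 282) (.e (nat_lit 163868) (nat_lit 2) (.e (nat_lit 196670) (nat_lit 14) (.e (nat_lit 73746) (nat_lit 3) (.e (nat_lit 516127) (nat_lit 2) (.e (nat_lit 213035) (nat_lit 12) (.e (nat_lit 163964) (nat_lit 25) .nil)))))))) (.g (nat_lit 1) (.e (nat_lit 396117) (nat_lit 0) .nil) .nil))) 
(.lf (nat_lit 589771) (.g (nat_lit 3071) (.e (nat_lit 532503) (nat_lit 1) (.e (nat_lit 57931) (nat_lit 282) (.e (nat_lit 163869) (nat_lit 2) (.e (nat_lit 196670) (nat_lit 14) (.e (nat_lit 73746) (nat_lit 3) (.e (nat_lit 516129) (nat_lit 3) (.e (nat_lit 221199) (nat_lit 20) (.e (nat_lit 3251) (nat_lit 197) .nil)))))))) (.g (nat_lit 1) (.e (nat_lit 396862) (nat_lit 0) .nil) .nil))))))) 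
(.nd (nat_lit 6) (.nd (nat_lit 7) (.nd (nat_lit 8) (.nd (nat_lit 9) 
(.lf (nat_lit 588843) (.g (nat_lit 2853) (.e (nat_lit 532499) (nat_lit 1) (.e (nat_lit 57927) (nat_lit 282) (.e (nat_lit 163866) (nat_lit 2) (.e (nat_lit 196668) (nat_lit 14) (.e (nat_lit 73747) (nat_lit 3) (.e (nat_lit 516129) (nat_lit 3) (.e (nat_lit 221202) (nat_lit 20) (.e (nat_lit 3249) (nat_lit 197) .nil)))))))) (.g (nat_lit 1) (.e (nat_lit 395400) (nat_lit 0) .nil) .nil))) 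
(.lf (nat_lit 589355) (.g (nat_lit 2027) (.e (nat_lit 532502) (nat_lit 1) (.e (nat_lit 57691) (nat_lit 156) (.e (nat_lit 163874) (nat_lit 3) (.e (nat_lit 204838) (nat_lit 20) (.e (nat_lit 114716) (nat_lit 22) .nil))))) (.g (nat_lit 0) (.e (nat_lit 396291) (nat_lit 0) .nil) .nil)))) (.nd (nat_lit 9) 
(.lf (nat_lit 589099) (.g (nat_lit 1830) (.e (nat_lit 532500) (nat_lit 1) (.e (nat_lit 57691) (nat_lit 156) (.e (nat_lit 163907) (nat_lit 12) (.e (nat_lit 426479) (nat_lit 27) (.e (nat_lit 336432) (nat_lit 30) .nil))))) (.g (nat_lit 0) (.e (nat_lit 395848) (nat_lit 0) .nil) .nil))) 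
(.lf (nat_lit 589611) (.g (nat_lit 4046) (.e (nat_lit 532503) (nat_lit 1) (.e (nat_lit 57931) (nat_lit 282) (.e (nat_lit 163867) (nat_lit 2) (.e (nat_lit 196668) (nat_lit 14) (.e (nat_lit 73747) (nat_lit 3) (.e (nat_lit 516129) (nat_lit 3) (.e (nat_lit 221196) (nat_lit 20) (.e (nat_lit 3230) (nat_lit 197) .nil)))))))) (.g (nat_lit 1) (.e (nat_lit 396643) (nat_lit 0) .nil) .nil))))) 
(.nd (nat_lit 8) (.nd (nat_lit 9) 
(.lf (nat_lit 588971) (.g (nat_lit 3450) (.e (nat_lit 532499) (nat_lit 1) (.e (nat_lit 57927) (nat_lit 282) (.e (nat_lit 163869) (nat_lit 2) (.e (nat_lit 196670) (nat_lit 14) (.e (nat_lit 73746) (nat_lit 3) (.e (nat_lit 516126) (nat_lit 2) (.e (nat_lit 220928) (nat_lit 13) (.e (nat_lit 229433) (nat_lit 25) .nil)))))))) (.g (nat_lit 1) (.e (nat_lit 395623) (nat_lit 0) .nil) .nil))) 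
(.lf (nat_lit 589483) (.g (nat_lit 1900) (.e (nat_lit 532503) (nat_lit 1) (.e (nat_lit 57847) (nat_lit 252) (.e (nat_lit 57409) (nat_lit 12) (.e (nat_lit 336454) (nat_lit 34) (.e (nat_lit 483385) (nat_lit 23) .nil))))) (.g (nat_lit 0) (.e (nat_lit 396491) (nat_lit 0) .nil) .nil)))) (.nd (nat_lit 9) 
(.lf (nat_lit 589227) (.g (nat_lit 3557) (.e (nat_lit 532501) (nat_lit 1) (.e (nat_lit 57926) (nat_lit 282) (.e (nat_lit 163869) (nat_lit 2) (.e (nat_lit 196670) (nat_lit 14) (.e (nat_lit 73746) (nat_lit 3) (.e (nat_lit 516122) (nat_lit 2) (.e (nat_lit 213036) (nat_lit 13) (.e (nat_lit 229433) (nat_lit 25) .nil)))))))) (.g (nat_lit 1) (.e (nat_lit 396052) (nat_lit 0) .nil) .nil))) 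
(.lf (nat_lit 589739) (.g (nat_lit 3983) (.e (nat_lit 532503) (nat_lit 1) (.e (nat_lit 57931) (nat_lit 282) (.e (nat_lit 163869) (nat_lit 2) (.e (nat_lit 196670) (nat_lit 14) (.e (nat_lit 73746) (nat_lit 3) (.e (nat_lit 516126) (nat_lit 2) (.e (nat_lit 213038) (nat_lit 13) (.e (nat_lit 229434) (nat_lit 25) .nil)))))))) (.g (nat_lit 1) (.e (nat_lit 396830) (nat_lit 0) .nil) .nil)))))) 
(.nd (nat_lit 7) (.nd (nat_lit 8) (.nd (nat_lit 9) 
(.lf (nat_lit 588907) (.g (nat_lit 2460) (.e (nat_lit 532499) (nat_lit 1) (.e (nat_lit 57927) (nat_lit 282) (.e (nat_lit 163868) (nat_lit 2) (.e (nat_lit 196670) (nat_lit 14) (.e (nat_lit 73746) (nat_lit 3) (.e (nat_lit 516127) (nat_lit 2) (.e (nat_lit 213033) (nat_lit 12) (.e (nat_lit 163964) (nat_lit 25) .nil)))))))) (.g (nat_lit 1) (.e (nat_lit 395509) (nat_lit 0) .nil) .nil))) 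
(.lf (nat_lit 589419) (.g (nat_lit 1258) (.e (nat_lit 532503) (nat_lit 1) (.e (nat_lit 57688) (nat_lit 156) (.e (nat_lit 163875) (nat_lit 3) (.e (nat_lit 204837) (nat_lit 20) .nil)))) (.g (nat_lit 0) (.e (nat_lit 396393) (nat_lit 0) .nil) .nil)))) (.nd (nat_lit 9) 
(.lf (nat_lit 589163) (.g (nat_lit 2322) (.e (nat_lit 532501) (nat_lit 1) (.e (nat_lit 57851) (nat_lit 252) (.e (nat_lit 57406) (nat_lit 12) (.e (nat_lit 336454) (nat_lit 34) (.e (nat_lit 483383) (nat_lit 23) (.e (nat_lit 336240) (nat_lit 15) (.e (nat_lit 3248) (nat_lit 197) .nil))))))) (.g (nat_lit 1) (.e (nat_lit 395960) (nat_lit 0) .nil) .nil))) 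
(.lf (nat_lit 589675) (.g (nat_lit 1944) (.e (nat_lit 532503) (nat_lit 1) (.e (nat_lit 57931) (nat_lit 282) (.e (nat_lit 163869) (nat_lit 2) (.e (nat_lit 196666) (nat_lit 13) (.e (nat_lit 65569) (nat_lit 3) .nil))))) (.g (nat_lit 0) (.e (nat_lit 396730) (nat_lit 0) .nil) .nil))))) (.nd (nat_lit 8) (.nd (nat_lit 9) 
(.lf (nat_lit 589035) (.g (nat_lit 1018) (.e (nat_lit 532499) (nat_lit 1) (.e (nat_lit 57927) (nat_lit 282) (.e (nat_lit 163874) (nat_lit 3) (.e (nat_lit 204854) (nat_lit 26) .nil)))) (.g (nat_lit 0) (.e (nat_lit 395765) (nat_lit 0) .nil) .nil))) 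
(.lf (nat_lit 589547) (.g (nat_lit 3198) (.e (nat_lit 532503) (nat_lit 1) (.e (nat_lit 57924) (nat_lit 282) (.e (nat_lit 163867) (nat_lit 2) (.e (nat_lit 196670) (nat_lit 14) (.e (nat_lit 73746) (nat_lit 3) (.e (nat_lit 516129) (nat_lit 3) (.e (nat_lit 221196) (nat_lit 20) (.e (nat_lit 3230) (nat_lit 197) .nil)))))))) (.g (nat_lit 1) (.e (nat_lit 396564) (nat_lit 0) .nil) .nil)))) 
(.nd (nat_lit 9) 
(.lf (nat_lit 589291) (.g (nat_lit 2844) (.e (nat_lit 532501) (nat_lit 1) (.e (nat_lit 57927) (nat_lit 282) (.e (nat_lit 163875) (nat_lit 3) (.e (nat_lit 204862) (nat_lit 27) (.e (nat_lit 344117) (nat_lit 21) (.e (nat_lit 516123) (nat_lit 2) (.e (nat_lit 220928) (nat_lit 13) (.e (nat_lit 229433) (nat_lit 25) .nil)))))))) (.g (nat_lit 1) (.e (nat_lit 396183) (nat_lit 0) .nil) .nil))) 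
(.lf (nat_lit 589803) (.g (nat_lit 2085) (.e (nat_lit 532503) (nat_lit 1) (.e (nat_lit 57931) (nat_lit 282) (.e (nat_lit 163874) (nat_lit 3) (.e (nat_lit 204853) (nat_lit 26) .nil)))) (.g (nat_lit 0) (.e (nat_lit 396900) (nat_lit 0) .nil) .nil)))))))) (.nd (nat_lit 5) (.nd (nat_lit 6) (.nd (nat_lit 7) (.nd (nat_lit 8) (.nd (nat_lit 9) 
(.lf (nat_lit 588827) (.g (nat_lit 3366) (.e (nat_lit 532499) (nat_lit 1) (.e (nat_lit 57926) (nat_lit 282) (.e (nat_lit 163869) (nat_lit 2) (.e (nat_lit 196670) (nat_lit 14) (.e (nat_lit 73746) (nat_lit 3) (.e (nat_lit 516126) (nat_lit 2) (.e (nat_lit 213035) (nat_lit 12) (.e (nat_lit 163965) (nat_lit 25) .nil)))))))) (.g (nat_lit 1) (.e (nat_lit 395371) (nat_lit 0) .nil) .nil))) 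
(.lf (nat_lit 589339) (.g (nat_lit 1710) (.e (nat_lit 532502) (nat_lit 1) (.e (nat_lit 57688) (nat_lit 156) (.e (nat_lit 163903) (nat_lit 12) (.e (nat_lit 426479) (nat_lit 27) (.e (nat_lit 336432) (nat_lit 30) .nil))))) (.g (nat_lit 0) (.e (nat_lit 396262) (nat_lit 0) .nil) .nil)))) (.nd (nat_lit 9) 
(.lf (nat_lit 589083) (.g (nat_lit 3578) (.e (nat_lit 532499) (nat_lit 1) (.e (nat_lit 57931) (nat_lit 282) (.e (nat_lit 163869) (nat_lit 2) (.e (nat_lit 196670) (nat_lit 14) (.e (nat_lit 73746) (nat_lit 3) (.e (nat_lit 516126) (nat_lit 2) (.e (nat_lit 213035) (nat_lit 12) (.e (nat_lit 163964) (nat_lit 25) .nil)))))))) (.g (nat_lit 1) (.e (nat_lit 395829) (nat_lit 0) .nil) .nil))) 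
(.lf (nat_lit 589595) (.g (nat_lit 2700) (.e (nat_lit 532503) (nat_lit 1) (.e (nat_lit 57931) (nat_lit 282) (.e (nat_lit 163867) (nat_lit 2) (.e (nat_lit 196668) (nat_lit 14) (.e (nat_lit 73746) (nat_lit 3) (.e (nat_lit 516129) (nat_lit 3) (.e (nat_lit 221196) (nat_lit 20) (.e (nat_lit 3246) (nat_lit 197) .nil)))))))) (.g (nat_lit 1) (.e (nat_lit 396624) (nat_lit 0) .nil) .nil))))) 
(.nd (nat_lit 8) (.nd (nat_lit 9) 
(.lf (nat_lit 588955) (.g (nat_lit 3775) (.e (nat_lit 532499) (nat_lit 1) (.e (nat_lit 57927) (nat_lit 282) (.e (nat_lit 163869) (nat_lit 2) (.e (nat_lit 196670) (nat_lit 14) (.e (nat_lit 73746) (nat_lit 3) (.e (nat_lit 516122) (nat_lit 2) (.e (nat_lit 213035) (nat_lit 12) (.e (nat_lit 163965) (nat_lit 25) .nil)))))))) (.g (nat_lit 1) (.e (nat_lit 395607) (nat_lit 0) .nil) .nil))) 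
(.lf (nat_lit 589467) (.g (nat_lit 815) (.e (nat_lit 532503) (nat_lit 1) (.e (nat_lit 57847) (nat_lit 252) (.e (nat_lit 57379) (nat_lit 3) (.e (nat_lit 98342) (nat_lit 20) .nil)))) (.g (nat_lit 0) (.e (nat_lit 396474) (nat_lit 0) .nil) .nil)))) (.nd (nat_lit 9) 
(.lf (nat_lit 589211) (.g (nat_lit 2965) (.e (nat_lit 532501) (nat_lit 1) (.e (nat_lit 57854) (nat_lit 252) (.e (nat_lit 57409) (nat_lit 12) (.e (nat_lit 336367) (nat_lit 27) (.e (nat_lit 426540) (nat_lit 29) (.e (nat_lit 352262) (nat_lit 0) (.e (nat_lit 3253) (nat_lit 197) .nil))))))) (.g (nat_lit 1) (.e (nat_lit 396012) (nat_lit 0) .nil) .nil))) 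
(.lf (nat_lit 589723) (.g (nat_lit 3041) (.e (nat_lit 532503) (nat_lit 1) (.e (nat_lit 57931) (nat_lit 282) (.e (nat_lit 163869) (nat_lit 2) (.e (nat_lit 196670) (nat_lit 14) (.e (nat_lit 73746) (nat_lit 3) (.e (nat_lit 516124) (nat_lit 2) (.e (nat_lit 213033) (nat_lit 12) (.e (nat_lit 163964) (nat_lit 25) .nil)))))))) (.g (nat_lit 1) (.e (nat_lit 396814) (nat_lit 0) .nil) .nil)))))) 
(.nd (nat_lit 7) (.nd (nat_lit 8) (.nd (nat_lit 9) 
(.lf (nat_lit 588891) (.g (nat_lit 3441) (.e (nat_lit 532499) (nat_lit 1) (.e (nat_lit 57927) (nat_lit 282) (.e (nat_lit 163868) (nat_lit 2) (.e (nat_lit 196670) (nat_lit 14) (.e (nat_lit 73746) (nat_lit 3) (.e (nat_lit 516124) (nat_lit 2) (.e (nat_lit 213019) (nat_lit 9) (.e (nat_lit 2505) (nat_lit 157) (.e (nat_lit 3249) (nat_lit 197) .nil))))))))) (.g (nat_lit 1) (.e (nat_lit 395493) (nat_lit 0) .nil) .nil))) 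
(.lf (nat_lit 589403) (.g (nat_lit 2569) (.e (nat_lit 532503) (nat_lit 1) (.e (nat_lit 57686) (nat_lit 156) (.e (nat_lit 163903) (nat_lit 12) (.e (nat_lit 426568) (nat_lit 34) (.e (nat_lit 393284) (nat_lit 24) (.e (nat_lit 434233) (nat_lit 23) .nil)))))) (.g (nat_lit 1) (.e (nat_lit 396368) (nat_lit 0) .nil) .nil)))) (.nd (nat_lit 9) 
(.lf (nat_lit 589147) (.g (nat_lit 2761) (.e (nat_lit 532501) (nat_lit 1) (.e (nat_lit 57692) (nat_lit 156) (.e (nat_lit 163874) (nat_lit 3) (.e (nat_lit 204838) (nat_lit 20) (.e (nat_lit 114719) (nat_lit 23) (.e (nat_lit 98367) (nat_lit 27) (.e (nat_lit 434232) (nat_lit 23) .nil))))))) (.g (nat_lit 1) (.e (nat_lit 395931) (nat_lit 0) .nil) .nil))) 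
(.lf (nat_lit 589659) (.g (nat_lit 2817) (.e (nat_lit 532503) (nat_lit 1) (.e (nat_lit 57931) (nat_lit 282) (.e (nat_lit 163867) (nat_lit 2) (.e (nat_lit 196670) (nat_lit 14) (.e (nat_lit 73746) (nat_lit 3) (.e (nat_lit 516129) (nat_lit 3) (.e (nat_lit 229120) (nat_lit 20) (.e (nat_lit 3249) (nat_lit 197) .nil)))))))) (.g (nat_lit 1) (.e (nat_lit 396713) (nat_lit 0) .nil) .nil))))) 
(.nd (nat_lit 8) (.nd (nat_lit 9) 
(.lf (nat_lit 589019) (.g (nat_lit 3076) (.e (nat_lit 532499) (nat_lit 1) (.e (nat_lit 57927) (nat_lit 282) (.e (nat_lit 163871) (nat_lit 2) (.e (nat_lit 196670) (nat_lit 14) (.e (nat_lit 73746) (nat_lit 3) (.e (nat_lit 516127) (nat_lit 2) (.e (nat_lit 213035) (nat_lit 12) (.e (nat_lit 163963) (nat_lit 25) .nil)))))))) (.g (nat_lit 1) (.e (nat_lit 395744) (nat_lit 0) .nil) .nil))) 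
(.lf (nat_lit 589531) (.g (nat_lit 3438) (.e (nat_lit 532503) (nat_lit 1) (.e (nat_lit 57849) (nat_lit 252) (.e (nat_lit 57407) (nat_lit 12) (.e (nat_lit 336454) (nat_lit 34) (.e (nat_lit 483385) (nat_lit 23) (.e (nat_lit 336306) (nat_lit 15) (.e (nat_lit 3238) (nat_lit 197) .nil))))))) (.g (nat_lit 1) (.e (nat_lit 396546) (nat_lit 0) .nil) .nil)))) (.nd (nat_lit 9) 
(.lf (nat_lit 589275) (.g (nat_lit 2770) (.e (nat_lit 532501) (nat_lit 1) (.e (nat_lit 57927) (nat_lit 282) (.e (nat_lit 163869) (nat_lit 2) (.e (nat_lit 196670) (nat_lit 14) (.e (nat_lit 73746) (nat_lit 3) (.e (nat_lit 516126) (nat_lit 2) (.e (nat_lit 213038) (nat_lit 13) (.e (nat_lit 229434) (nat_lit 25) .nil)))))))) (.g (nat_lit 1) (.e (nat_lit 396145) (nat_lit 0) .nil) .nil))) 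
(.lf (nat_lit 589787) (.g (nat_lit 4225) (.e (nat_lit 532503) (nat_lit 1) (.e (nat_lit 57931) (nat_lit 282) (.e (nat_lit 163869) (nat_lit 2) (.e (nat_lit 196670) (nat_lit 14) (.e (nat_lit 73746) (nat_lit 3) (.e (nat_lit 516131) (nat_lit 3) (.e (nat_lit 221197) (nat_lit 20) (.e (nat_lit 3248) (nat_lit 197) .nil)))))))) (.g (nat_lit 1) (.e (nat_lit 396878) (nat_lit 0) .nil) .nil))))))) 
(.nd (nat_lit 6) (.nd (nat_lit 7) (.nd (nat_lit 8) (.nd (nat_lit 9) 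
(.lf (nat_lit 588859) (.g (nat_lit 1638) (.e (nat_lit 532499) (nat_lit 1) (.e (nat_lit 57927) (nat_lit 282) (.e (nat_lit 163868) (nat_lit 2) (.e (nat_lit 196663) (nat_lit 13) (.e (nat_lit 65569) (nat_lit 3) .nil))))) (.g (nat_lit 0) (.e (nat_lit 395419) (nat_lit 0) .nil) .nil))) 
(.lf (nat_lit 589371) (.g (nat_lit 2338) (.e (nat_lit 532502) (nat_lit 1) (.e (nat_lit 57846) (nat_lit 252) (.e (nat_lit 57409) (nat_lit 12) (.e (nat_lit 336454) (nat_lit 34) (.e (nat_lit 483407) (nat_lit 26) .nil))))) (.g (nat_lit 0) (.e (nat_lit 396317) (nat_lit 0) .nil) .nil)))) (.nd (nat_lit 9) 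
(.lf (nat_lit 589115) (.g (nat_lit 1007) (.e (nat_lit 532500) (nat_lit 1) (.e (nat_lit 57854) (nat_lit 252) (.e (nat_lit 57406) (nat_lit 12) (.e (nat_lit 336454) (nat_lit 34) .nil)))) (.g (nat_lit 0) (.e (nat_lit 395870) (nat_lit 0) .nil) .nil))) 
(.lf (nat_lit 589627) (.g (nat_lit 2857) (.e (nat_lit 532503) (nat_lit 1) (.e (nat_lit 57931) (nat_lit 282) (.e (nat_lit 163867) (nat_lit 2) (.e (nat_lit 196668) (nat_lit 14) (.e (nat_lit 73747) (nat_lit 3) (.e (nat_lit 516131) (nat_lit 3) (.e (nat_lit 221197) (nat_lit 20) (.e (nat_lit 3256) (nat_lit 197) .nil)))))))) (.g (nat_lit 1) (.e (nat_lit 396659) (nat_lit 0) .nil) .nil))))) 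
(.nd (nat_lit 8) (.nd (nat_lit 9) 
(.lf (nat_lit 588987) (.g (nat_lit 3908) (.e (nat_lit 532499) (nat_lit 1) (.e (nat_lit 57927) (nat_lit 282) (.e (nat_lit 163869) (nat_lit 2) (.e (nat_lit 196670) (nat_lit 14) (.e (nat_lit 73746) (nat_lit 3) (.e (nat_lit 516129) (nat_lit 3) (.e (nat_lit 221199) (nat_lit 20) (.e (nat_lit 3252) (nat_lit 197) .nil)))))))) (.g (nat_lit 1) (.e (nat_lit 395639) (nat_lit 0) .nil) .nil))) 
(.lf (nat_lit 589499) (.g (nat_lit 1464) (.e (nat_lit 532503) (nat_lit 1) (.e (nat_lit 57847) (nat_lit 252) (.e (nat_lit 57411) (nat_lit 12) (.e (nat_lit 343808) (nat_lit 34) .nil)))) (.g (nat_lit 0) (.e (nat_lit 396510) (nat_lit 0) .nil) .nil)))) (.nd (nat_lit 9) 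
(.lf (nat_lit 589243) (.g (nat_lit 3154) (.e (nat_lit 532501) (nat_lit 1) (.e (nat_lit 57926) (nat_lit 282) (.e (nat_lit 163871) (nat_lit 2) (.e (nat_lit 196670) (nat_lit 14) (.e (nat_lit 73746) (nat_lit 3) (.e (nat_lit 516124) (nat_lit 2) (.e (nat_lit 220928) (nat_lit 13) (.e (nat_lit 229433) (nat_lit 25) .nil)))))))) (.g (nat_lit 1) (.e (nat_lit 396076) (nat_lit 0) .nil) .nil))) 
(.lf (nat_lit 589755) (.g (nat_lit 3511) (.e (nat_lit 532503) (nat_lit 1) (.e (nat_lit 57931) (nat_lit 282) (.e (nat_lit 163869) (nat_lit 2) (.e (nat_lit 196670) (nat_lit 14) (.e (nat_lit 73746) (nat_lit 3) (.e (nat_lit 516129) (nat_lit 3) (.e (nat_lit 221196) (nat_lit 20) (.e (nat_lit 3250) (nat_lit 197) .nil)))))))) (.g (nat_lit 1) (.e (nat_lit 396846) (nat_lit 0) .nil) .nil)))))) 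
(.nd (nat_lit 7) (.nd (nat_lit 8) (.nd (nat_lit 9) 
(.lf (nat_lit 588923) (.g (nat_lit 3358) (.e (nat_lit 532499) (nat_lit 1) (.e (nat_lit 57927) (nat_lit 282) (.e (nat_lit 163869) (nat_lit 2) (.e (nat_lit 196664) (nat_lit 13) (.e (nat_lit 65571) (nat_lit 3) (.e (nat_lit 98341) (nat_lit 20) (.e (nat_lit 221204) (nat_lit 20) (.e (nat_lit 3253) (nat_lit 197) .nil)))))))) (.g (nat_lit 1) (.e (nat_lit 395525) (nat_lit 0) .nil) .nil))) 
(.lf (nat_lit 589435) (.g (nat_lit 1704) (.e (nat_lit 532503) (nat_lit 1) (.e (nat_lit 57688) (nat_lit 156) (.e (nat_lit 163907) (nat_lit 12) (.e (nat_lit 426566) (nat_lit 34) .nil)))) (.g (nat_lit 0) (.e (nat_lit 396415) (nat_lit 0) .nil) .nil)))) (.nd (nat_lit 9) 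
(.lf (nat_lit 589179) (.g (nat_lit 3609) (.e (nat_lit 532501) (nat_lit 1) (.e (nat_lit 57852) (nat_lit 252) (.e (nat_lit 57344) (nat_lit 0) (.e (nat_lit 1858) (nat_lit 124) (.e (nat_lit 557105) (nat_lit 14) (.e (nat_lit 180252) (nat_lit 10) (.e (nat_lit 573481) (nat_lit 13) (.e (nat_lit 65637) (nat_lit 15) (.e (nat_lit 3253) (nat_lit 197) .nil))))))))) (.g (nat_lit 1) (.e (nat_lit 395976) (nat_lit 0) .nil) .nil))) 
(.lf (nat_lit 589691) (.g (nat_lit 2998) (.e (nat_lit 532503) (nat_lit 1) (.e (nat_lit 57931) (nat_lit 282) (.e (nat_lit 163869) (nat_lit 2) (.e (nat_lit 196668) (nat_lit 14) (.e (nat_lit 73746) (nat_lit 3) (.e (nat_lit 516131) (nat_lit 3) (.e (nat_lit 221197) (nat_lit 20) (.e (nat_lit 3248) (nat_lit 197) .nil)))))))) (.g (nat_lit 1) (.e (nat_lit 396779) (nat_lit 0) .nil) .nil))))) 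
(.nd (nat_lit 8) (.nd (nat_lit 9) 
(.lf (nat_lit 589051) (.g (nat_lit 1574) (.e (nat_lit 532499) (nat_lit 1) (.e (nat_lit 57927) (nat_lit 282) (.e (nat_lit 163874) (nat_lit 3) (.e (nat_lit 204872) (nat_lit 30) (.e (nat_lit 368676) (nat_lit 21) .nil))))) (.g (nat_lit 0) (.e (nat_lit 395781) (nat_lit 0) .nil) .nil))) 
(.lf (nat_lit 589563) (.g (nat_lit 3356) (.e (nat_lit 532503) (nat_lit 1) (.e (nat_lit 57929) (nat_lit 282) (.e (nat_lit 163869) (nat_lit 2) (.e (nat_lit 196670) (nat_lit 14) (.e (nat_lit 73746) (nat_lit 3) (.e (nat_lit 516129) (nat_lit 3) (.e (nat_lit 221196) (nat_lit 20) (.e (nat_lit 3248) (nat_lit 197) .nil)))))))) (.g (nat_lit 1) (.e (nat_lit 396581) (nat_lit 0) .nil) .nil)))) 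
(.nd (nat_lit 9) 
(.lf (nat_lit 589307) (.g (nat_lit 3072) (.e (nat_lit 532501) (nat_lit 1) (.e (nat_lit 57929) (nat_lit 282) (.e (nat_lit 163869) (nat_lit 2) (.e (nat_lit 196670) (nat_lit 14) (.e (nat_lit 73746) (nat_lit 3) (.e (nat_lit 516126) (nat_lit 2) (.e (nat_lit 213035) (nat_lit 12) (.e (nat_lit 163964) (nat_lit 25) .nil)))))))) (.g (nat_lit 1) (.e (nat_lit 396212) (nat_lit 0) .nil) .nil))) 
(.lf (nat_lit 589819) (.g (nat_lit 2083) (.e (nat_lit 532503) (nat_lit 1) (.e (nat_lit 57931) (nat_lit 282) (.e (nat_lit 163874) (nat_lit 3) (.e (nat_lit 204864) (nat_lit 27) .nil)))) (.g (nat_lit 0) (.e (nat_lit 396916) (nat_lit 0) .nil) .nil)))))))))) (.nd (nat_lit 3) (.nd (nat_lit 4) (.nd (nat_lit 5) (.nd (nat_lit 6) (.nd (nat_lit 7) (.nd (nat_lit 8) (.nd (nat_lit 9) 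
(.lf (nat_lit 588807) (.g (nat_lit 2154) (.e (nat_lit 532499) (nat_lit 1) (.e (nat_lit 57926) (nat_lit 282) (.e (nat_lit 163868) (nat_lit 2) (.e (nat_lit 196668) (nat_lit 14) (.e (nat_lit 73747) (nat_lit 3) .nil))))) (.g (nat_lit 0) (.e (nat_lit 395351) (nat_lit 0) .nil) .nil))) 
(.lf (nat_lit 589319) (.g (nat_lit 4094) (.e (nat_lit 532501) (nat_lit 1) (.e (nat_lit 57931) (nat_lit 282) (.e (nat_lit 163869) (nat_lit 2) (.e (nat_lit 196670) (nat_lit 14) (.e (nat_lit 73746) (nat_lit 3) (.e (nat_lit 516127) (nat_lit 2) (.e (nat_lit 213037) (nat_lit 13) (.e (nat_lit 229433) (nat_lit 25) .nil)))))))) (.g (nat_lit 1) (.e (nat_lit 396240) (nat_lit 0) .nil) .nil)))) 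
(.nd (nat_lit 9) 
(.lf (nat_lit 589063) (.g (nat_lit 4268) (.e (nat_lit 532499) (nat_lit 1) (.e (nat_lit 57927) (nat_lit 282) (.e (nat_lit 163884) (nat_lit 5) (.e (nat_lit 221210) (nat_lit 22) (.e (nat_lit 196656) (nat_lit 11) (.e (nat_lit 16425) (nat_lit 7) (.e (nat_lit 409616) (nat_lit 10) (.e (nat_lit 604) (nat_lit 45) .nil)))))))) (.g (nat_lit 1) (.e (nat_lit 395799) (nat_lit 0) .nil) .nil))) 
(.lf (nat_lit 589575) (.g (nat_lit 2442) (.e (nat_lit 532503) (nat_lit 1) (.e (nat_lit 57931) (nat_lit 282) (.e (nat_lit 163866) (nat_lit 2) (.e (nat_lit 196668) (nat_lit 14) (.e (nat_lit 73747) (nat_lit 3) (.e (nat_lit 516129) (nat_lit 3) (.e (nat_lit 221197) (nat_lit 20) (.e (nat_lit 3230) (nat_lit 197) .nil)))))))) (.g (nat_lit 1) (.e (nat_lit 396598) (nat_lit 0) .nil) .nil))))) 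
(.nd (nat_lit 8) (.nd (nat_lit 9) 
(.lf (nat_lit 588935) (.g (nat_lit 2284) (.e (nat_lit 532499) (nat_lit 1) (.e (nat_lit 57927) (nat_lit 282) (.e (nat_lit 163869) (nat_lit 2) (.e (nat_lit 196666) (nat_lit 13) (.e (nat_lit 65571) (nat_lit 3) (.e (nat_lit 98342) (nat_lit 20) (.e (nat_lit 221198) (nat_lit 20) (.e (nat_lit 3241) (nat_lit 197) .nil)))))))) (.g (nat_lit 1) (.e (nat_lit 395556) (nat_lit 0) .nil) .nil))) 
(.lf (nat_lit 589447) (.g (nat_lit 2157) (.e (nat_lit 532503) (nat_lit 1) (.e (nat_lit 57692) (nat_lit 156) (.e (nat_lit 163874) (nat_lit 3) (.e (nat_lit 204838) (nat_lit 20) (.e (nat_lit 114715) (nat_lit 22) .nil))))) (.g (nat_lit 0) (.e (nat_lit 396451) (nat_lit 0) .nil) .nil)))) (.nd (nat_lit 9) 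
(.lf (nat_lit 589191) (.g (nat_lit 2136) (.e (nat_lit 532501) (nat_lit 1) (.e (nat_lit 57852) (nat_lit 252) (.e (nat_lit 57406) (nat_lit 12) (.e (nat_lit 336367) (nat_lit 27) (.e (nat_lit 426530) (nat_lit 27) .nil))))) (.g (nat_lit 0) (.e (nat_lit 395989) (nat_lit 0) .nil) .nil))) 
(.lf (nat_lit 589703) (.g (nat_lit 3909) (.e (nat_lit 532503) (nat_lit 1) (.e (nat_lit 57931) (nat_lit 282) (.e (nat_lit 163869) (nat_lit 2) (.e (nat_lit 196668) (nat_lit 14) (.e (nat_lit 73747) (nat_lit 3) (.e (nat_lit 516129) (nat_lit 3) (.e (nat_lit 221197) (nat_lit 20) (.e (nat_lit 3230) (nat_lit 197) .nil)))))))) (.g (nat_lit 1) (.e (nat_lit 396794) (nat_lit 0) .nil) .nil)))))) 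
(.nd (nat_lit 7) (.nd (nat_lit 8) (.nd (nat_lit 9) 
(.lf (nat_lit 588871) (.g (nat_lit 2481) (.e (nat_lit 532499) (nat_lit 1) (.e (nat_lit 57927) (nat_lit 282) (.e (nat_lit 163868) (nat_lit 2) (.e (nat_lit 196668) (nat_lit 14) (.e (nat_lit 73746) (nat_lit 3) (.e (nat_lit 516131) (nat_lit 3) (.e (nat_lit 221198) (nat_lit 20) (.e (nat_lit 3250) (nat_lit 197) .nil)))))))) (.g (nat_lit 1) (.e (nat_lit 395460) (nat_lit 0) .nil) .nil))) 
(.lf (nat_lit 589383) (.g (nat_lit 2001) (.e (nat_lit 532502) (nat_lit 1) (.e (nat_lit 57849) (nat_lit 252) (.e (nat_lit 57407) (nat_lit 12) (.e (nat_lit 336454) (nat_lit 34) (.e (nat_lit 483408) (nat_lit 26) .nil))))) (.g (nat_lit 0) (.e (nat_lit 396334) (nat_lit 0) .nil) .nil)))) (.nd (nat_lit 9) 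
(.lf (nat_lit 589127) (.g (nat_lit 2487) (.e (nat_lit 532500) (nat_lit 1) (.e (nat_lit 57927) (nat_lit 282) (.e (nat_lit 163868) (nat_lit 2) (.e (nat_lit 196670) (nat_lit 14) (.e (nat_lit 73746) (nat_lit 3) (.e (nat_lit 516129) (nat_lit 3) (.e (nat_lit 221196) (nat_lit 20) (.e (nat_lit 3241) (nat_lit 197) .nil)))))))) (.g (nat_lit 1) (.e (nat_lit 395890) (nat_lit 0) .nil) .nil))) 
(.lf (nat_lit 589639) (.g (nat_lit 3030) (.e (nat_lit 532503) (nat_lit 1) (.e (nat_lit 57931) (nat_lit 282) (.e (nat_lit 163867) (nat_lit 2) (.e (nat_lit 196670) (nat_lit 14) (.e (nat_lit 73746) (nat_lit 3) (.e (nat_lit 516129) (nat_lit 3) (.e (nat_lit 221196) (nat_lit 20) (.e (nat_lit 3237) (nat_lit 197) .nil)))))))) (.g (nat_lit 1) (.e (nat_lit 396693) (nat_lit 0) .nil) .nil))))) 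
(.nd (nat_lit 8) (.nd (nat_lit 9) 
(.lf (nat_lit 588999) (.g (nat_lit 3183) (.e (nat_lit 532499) (nat_lit 1) (.e (nat_lit 57927) (nat_lit 282) (.e (nat_lit 163869) (nat_lit 2) (.e (nat_lit 196670) (nat_lit 14) (.e (nat_lit 73746) (nat_lit 3) (.e (nat_lit 516131) (nat_lit 3) (.e (nat_lit 221198) (nat_lit 20) (.e (nat_lit 3250) (nat_lit 197) .nil)))))))) (.g (nat_lit 1) (.e (nat_lit 395651) (nat_lit 0) .nil) .nil))) 
(.lf (nat_lit 589511) (.g (nat_lit 3602) (.e (nat_lit 532503) (nat_lit 1) (.e (nat_lit 57848) (nat_lit 252) (.e (nat_lit 57407) (nat_lit 12) (.e (nat_lit 336454) (nat_lit 34) (.e (nat_lit 483385) (nat_lit 23) (.e (nat_lit 336260) (nat_lit 15) (.e (nat_lit 3254) (nat_lit 197) .nil))))))) (.g (nat_lit 1) (.e (nat_lit 396524) (nat_lit 0) .nil) .nil)))) (.nd (nat_lit 9) 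
(.lf (nat_lit 589255) (.g (nat_lit 2773) (.e (nat_lit 532501) (nat_lit 1) (.e (nat_lit 57927) (nat_lit 282) (.e (nat_lit 163868) (nat_lit 2) (.e (nat_lit 196670) (nat_lit 14) (.e (nat_lit 73746) (nat_lit 3) (.e (nat_lit 516122) (nat_lit 2) (.e (nat_lit 213035) (nat_lit 12) (.e (nat_lit 163964) (nat_lit 25) .nil)))))))) (.g (nat_lit 1) (.e (nat_lit 396113) (nat_lit 0) .nil) .nil))) 
(.lf (nat_lit 589767) (.g (nat_lit 3640) (.e (nat_lit 532503) (nat_lit 1) (.e (nat_lit 57931) (nat_lit 282) (.e (nat_lit 163869) (nat_lit 2) (.e (nat_lit 196670) (nat_lit 14) (.e (nat_lit 73746) (nat_lit 3) (.e (nat_lit 516129) (nat_lit 3) (.e (nat_lit 221198) (nat_lit 20) (.e (nat_lit 3248) (nat_lit 197) .nil)))))))) (.g (nat_lit 1) (.e (nat_lit 396858) (nat_lit 0) .nil) .nil))))))) 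
(.nd (nat_lit 6) (.nd (nat_lit 7) (.nd (nat_lit 8) (.nd (nat_lit 9) 
(.lf (nat_lit 588839) (.g (nat_lit 3479) (.e (nat_lit 532499) (nat_lit 1) (.e (nat_lit 57926) (nat_lit 282) (.e (nat_lit 163885) (nat_lit 5) (.e (nat_lit 221212) (nat_lit 22) (.e (nat_lit 196656) (nat_lit 11) (.e (nat_lit 16425) (nat_lit 7) (.e (nat_lit 409617) (nat_lit 10) (.e (nat_lit 604) (nat_lit 45) .nil)))))))) (.g (nat_lit 1) (.e (nat_lit 395391) (nat_lit 0) .nil) .nil))) 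
(.lf (nat_lit 589351) (.g (nat_lit 1660) (.e (nat_lit 532502) (nat_lit 1) (.e (nat_lit 57688) (nat_lit 156) (.e (nat_lit 163907) (nat_lit 12) (.e (nat_lit 426568) (nat_lit 34) .nil)))) (.g (nat_lit 0) (.e (nat_lit 396274) (nat_lit 0) .nil) .nil)))) (.nd (nat_lit 9) 
(.lf (nat_lit 589095) (.g (nat_lit 2611) (.e (nat_lit 532499) (nat_lit 1) (.e (nat_lit 57931) (nat_lit 282) (.e (nat_lit 163874) (nat_lit 3) (.e (nat_lit 204862) (nat_lit 27) (.e (nat_lit 344117) (nat_lit 21) .nil))))) (.g (nat_lit 0) (.e (nat_lit 395843) (nat_lit 0) .nil) .nil))) 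
(.lf (nat_lit 589607) (.g (nat_lit 3129) (.e (nat_lit 532503) (nat_lit 1) (.e (nat_lit 57931) (nat_lit 282) (.e (nat_lit 163867) (nat_lit 2) (.e (nat_lit 196668) (nat_lit 14) (.e (nat_lit 73746) (nat_lit 3) (.e (nat_lit 516131) (nat_lit 3) (.e (nat_lit 221198) (nat_lit 20) (.e (nat_lit 3230) (nat_lit 197) .nil)))))))) (.g (nat_lit 1) (.e (nat_lit 396636) (nat_lit 0) .nil) .nil))))) 
(.nd (nat_lit 8) (.nd (nat_lit 9) 
(.lf (nat_lit 588967) (.g (nat_lit 3128) (.e (nat_lit 532499) (nat_lit 1) (.e (nat_lit 57927) (nat_lit 282) (.e (nat_lit 163869) (nat_lit 2) (.e (nat_lit 196670) (nat_lit 14) (.e (nat_lit 73746) (nat_lit 3) (.e (nat_lit 516126) (nat_lit 2) (.e (nat_lit 213033) (nat_lit 12) (.e (nat_lit 163965) (nat_lit 25) .nil)))))))) (.g (nat_lit 1) (.e (nat_lit 395619) (nat_lit 0) .nil) .nil))) 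
(.lf (nat_lit 589479) (.g (nat_lit 1944) (.e (nat_lit 532503) (nat_lit 1) (.e (nat_lit 57847) (nat_lit 252) (.e (nat_lit 57407) (nat_lit 12) (.e (nat_lit 336456) (nat_lit 34) (.e (nat_lit 483387) (nat_lit 23) .nil))))) (.g (nat_lit 0) (.e (nat_lit 396487) (nat_lit 0) .nil) .nil)))) (.nd (nat_lit 9) 
(.lf (nat_lit 589223) (.g (nat_lit 2493) (.e (nat_lit 532501) (nat_lit 1) (.e (nat_lit 57926) (nat_lit 282) (.e (nat_lit 163869) (nat_lit 2) (.e (nat_lit 196668) (nat_lit 14) (.e (nat_lit 73746) (nat_lit 3) .nil))))) (.g (nat_lit 0) (.e (nat_lit 396045) (nat_lit 0) .nil) .nil))) 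
(.lf (nat_lit 589735) (.g (nat_lit 3382) (.e (nat_lit 532503) (nat_lit 1) (.e (nat_lit 57931) (nat_lit 282) (.e (nat_lit 163869) (nat_lit 2) (.e (nat_lit 196670) (nat_lit 14) (.e (nat_lit 73746) (nat_lit 3) (.e (nat_lit 516126) (nat_lit 2) (.e (nat_lit 213035) (nat_lit 12) (.e (nat_lit 163963) (nat_lit 25) .nil)))))))) (.g (nat_lit 1) (.e (nat_lit 396826) (nat_lit 0) .nil) .nil)))))) 
(.nd (nat_lit 7) (.nd (nat_lit 8) (.nd (nat_lit 9) 
(.lf (nat_lit 588903) (.g (nat_lit 3210) (.e (nat_lit 532499) (nat_lit 1) (.e (nat_lit 57927) (nat_lit 282) (.e (nat_lit 163868) (nat_lit 2) (.e (nat_lit 196670) (nat_lit 14) (.e (nat_lit 73746) (nat_lit 3) (.e (nat_lit 516126) (nat_lit 2) (.e (nat_lit 213037) (nat_lit 13) (.e (nat_lit 229433) (nat_lit 25) .nil)))))))) (.g (nat_lit 1) (.e (nat_lit 395505) (nat_lit 0) .nil) .nil))) 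
(.lf (nat_lit 589415) (.g (nat_lit 1270) (.e (nat_lit 532503) (nat_lit 1) (.e (nat_lit 57688) (nat_lit 156) (.e (nat_lit 163873) (nat_lit 3) (.e (nat_lit 204838) (nat_lit 20) .nil)))) (.g (nat_lit 0) (.e (nat_lit 396389) (nat_lit 0) .nil) .nil)))) (.nd (nat_lit 9) 
(.lf (nat_lit 589159) (.g (nat_lit 2356) (.e (nat_lit 532501) (nat_lit 1) (.e (nat_lit 57851) (nat_lit 252) (.e (nat_lit 57406) (nat_lit 12) (.e (nat_lit 336367) (nat_lit 27) (.e (nat_lit 426542) (nat_lit 29) (.e (nat_lit 352266) (nat_lit 0) (.e (nat_lit 3234) (nat_lit 197) .nil))))))) (.g (nat_lit 1) (.e (nat_lit 395956) (nat_lit 0) .nil) .nil))) 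
(.lf (nat_lit 589671) (.g (nat_lit 2922) (.e (nat_lit 532503) (nat_lit 1) (.e (nat_lit 57931) (nat_lit 282) (.e (nat_lit 163867) (nat_lit 2) (.e (nat_lit 196670) (nat_lit 14) (.e (nat_lit 73746) (nat_lit 3) (.e (nat_lit 516131) (nat_lit 3) (.e (nat_lit 221202) (nat_lit 20) (.e (nat_lit 3249) (nat_lit 197) .nil)))))))) (.g (nat_lit 1) (.e (nat_lit 396725) (nat_lit 0) .nil) .nil))))) 
(.nd (nat_lit 8) (.nd (nat_lit 9) 
(.lf (nat_lit 589031) (.g (nat_lit 388) (.e (nat_lit 532499) (nat_lit 1) (.e (nat_lit 57927) (nat_lit 282) (.e (nat_lit 163874) (nat_lit 3) .nil))) (.g (nat_lit 0) (.e (nat_lit 395757) (nat_lit 0) .nil) .nil))) 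
(.lf (nat_lit 589543) (.g (nat_lit 1699) (.e (nat_lit 532503) (nat_lit 1) (.e (nat_lit 57854) (nat_lit 252) (.e (nat_lit 57409) (nat_lit 12) (.e (nat_lit 336454) (nat_lit 34) (.e (nat_lit 483385) (nat_lit 23) .nil))))) (.g (nat_lit 0) (.e (nat_lit 396558) (nat_lit 0) .nil) .nil)))) (.nd (nat_lit 9) 
(.lf (nat_lit 589287) (.g (nat_lit 2818) (.e (nat_lit 532501) (nat_lit 1) (.e (nat_lit 57927) (nat_lit 282) (.e (nat_lit 163874) (nat_lit 3) (.e (nat_lit 204863) (nat_lit 27) (.e (nat_lit 344117) (nat_lit 21) (.e (nat_lit 516123) (nat_lit 2) (.e (nat_lit 220928) (nat_lit 13) (.e (nat_lit 229433) (nat_lit 25) .nil)))))))) (.g (nat_lit 1) (.e (nat_lit 396179) (nat_lit 0) .nil) .nil))) 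
(.lf (nat_lit 589799) (.g (nat_lit 1705) (.e (nat_lit 532503) (nat_lit 1) (.e (nat_lit 57931) (nat_lit 282) (.e (nat_lit 163873) (nat_lit 3) (.e (nat_lit 204853) (nat_lit 26) .nil)))) (.g (nat_lit 0) (.e (nat_lit 396892) (nat_lit 0) .nil) .nil)))))))) (.nd (nat_lit 5) (.nd (nat_lit 6) (.nd (nat_lit 7) (.nd (nat_lit 8) (.nd (nat_lit 9) 
(.lf (nat_lit 588823) (.g (nat_lit 2513) (.e (nat_lit 532499) (nat_lit 1) (.e (nat_lit 57926) (nat_lit 282) (.e (nat_lit 163869) (nat_lit 2) (.e (nat_lit 196670) (nat_lit 14) (.e (nat_lit 73746) (nat_lit 3) (.e (nat_lit 516126) (nat_lit 2) (.e (nat_lit 213033) (nat_lit 12) (.e (nat_lit 163963) (nat_lit 25) .nil)))))))) (.g (nat_lit 1) (.e (nat_lit 395367) (nat_lit 0) .nil) .nil))) 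
(.lf (nat_lit 589335) (.g (nat_lit 2174) (.e (nat_lit 532502) (nat_lit 1) (.e (nat_lit 57688) (nat_lit 156) (.e (nat_lit 163902) (nat_lit 12) (.e (nat_lit 426568) (nat_lit 34) (.e (nat_lit 393283) (nat_lit 24) (.e (nat_lit 434234) (nat_lit 23) .nil)))))) (.g (nat_lit 1) (.e (nat_lit 396258) (nat_lit 0) .nil) .nil)))) (.nd (nat_lit 9) 
(.lf (nat_lit 589079) (.g (nat_lit 3581) (.e (nat_lit 532499) (nat_lit 1) (.e (nat_lit 57931) (nat_lit 282) (.e (nat_lit 163869) (nat_lit 2) (.e (nat_lit 196670) (nat_lit 14) (.e (nat_lit 73746) (nat_lit 3) (.e (nat_lit 516124) (nat_lit 2) (.e (nat_lit 213035) (nat_lit 12) (.e (nat_lit 163964) (nat_lit 25) .nil)))))))) (.g (nat_lit 1) (.e (nat_lit 395825) (nat_lit 0) .nil) .nil))) 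
(.lf (nat_lit 589591) (.g (nat_lit 1536) (.e (nat_lit 532503) (nat_lit 1) (.e (nat_lit 57931) (nat_lit 282) (.e (nat_lit 163867) (nat_lit 2) (.e (nat_lit 196667) (nat_lit 14) .nil)))) (.g (nat_lit 0) (.e (nat_lit 396616) (nat_lit 0) .nil) .nil))))) (.nd (nat_lit 8) (.nd (nat_lit 9) 
(.lf (nat_lit 588951) (.g (nat_lit 3343) (.e (nat_lit 532499) (nat_lit 1) (.e (nat_lit 57927) (nat_lit 282) (.e (nat_lit 163869) (nat_lit 2) (.e (nat_lit 196668) (nat_lit 14) (.e (nat_lit 73747) (nat_lit 3) (.e (nat_lit 516131) (nat_lit 3) (.e (nat_lit 221198) (nat_lit 20) (.e (nat_lit 3250) (nat_lit 197) .nil)))))))) (.g (nat_lit 1) (.e (nat_lit 395603) (nat_lit 0) .nil) .nil))) 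
(.lf (nat_lit 589463) (.g (nat_lit 2727) (.e (nat_lit 532503) (nat_lit 1) (.e (nat_lit 57846) (nat_lit 252) (.e (nat_lit 57409) (nat_lit 12) (.e (nat_lit 336454) (nat_lit 34) (.e (nat_lit 483385) (nat_lit 23) .nil))))) (.g (nat_lit 0) (.e (nat_lit 396470) (nat_lit 0) .nil) .nil)))) (.nd (nat_lit 9) 
(.lf (nat_lit 589207) (.g (nat_lit 944) (.e (nat_lit 532501) (nat_lit 1) (.e (nat_lit 57854) (nat_lit 252) (.e (nat_lit 57406) (nat_lit 12) (.e (nat_lit 336456) (nat_lit 34) .nil)))) (.g (nat_lit 0) (.e (nat_lit 396008) (nat_lit 0) .nil) .nil))) 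
(.lf (nat_lit 589719) (.g (nat_lit 2241) (.e (nat_lit 532503) (nat_lit 1) (.e (nat_lit 57931) (nat_lit 282) (.e (nat_lit 163869) (nat_lit 2) (.e (nat_lit 196670) (nat_lit 14) (.e (nat_lit 73746) (nat_lit 3) .nil))))) (.g (nat_lit 0) (.e (nat_lit 396810) (nat_lit 0) .nil) .nil)))))) (.nd (nat_lit 7) (.nd (nat_lit 8) (.nd (nat_lit 9) 
(.lf (nat_lit 588887) (.g (nat_lit 2854) (.e (nat_lit 532499) (nat_lit 1) (.e (nat_lit 57927) (nat_lit 282) (.e (nat_lit 163868) (nat_lit 2) (.e (nat_lit 196670) (nat_lit 14) (.e (nat_lit 73746) (nat_lit 3) (.e (nat_lit 516122) (nat_lit 2) (.e (nat_lit 213035) (nat_lit 12) (.e (nat_lit 163963) (nat_lit 25) .nil)))))))) (.g (nat_lit 1) (.e (nat_lit 395489) (nat_lit 0) .nil) .nil))) 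
(.lf (nat_lit 589399) (.g (nat_lit 3239) (.e (nat_lit 532502) (nat_lit 1) (.e (nat_lit 57931) (nat_lit 282) (.e (nat_lit 163869) (nat_lit 2) (.e (nat_lit 196670) (nat_lit 14) (.e (nat_lit 73746) (nat_lit 3) (.e (nat_lit 516129) (nat_lit 3) (.e (nat_lit 221202) (nat_lit 20) (.e (nat_lit 3245) (nat_lit 197) .nil)))))))) (.g (nat_lit 1) (.e (nat_lit 396362) (nat_lit 0) .nil) .nil)))) 
(.nd (nat_lit 9) 
(.lf (nat_lit 589143) (.g (nat_lit 2178) (.e (nat_lit 532501) (nat_lit 1) (.e (nat_lit 57691) (nat_lit 156) (.e (nat_lit 163875) (nat_lit 3) (.e (nat_lit 204838) (nat_lit 20) (.e (nat_lit 114719) (nat_lit 23) .nil))))) (.g (nat_lit 0) (.e (nat_lit 395916) (nat_lit 0) .nil) .nil))) 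
(.lf (nat_lit 589655) (.g (nat_lit 2697) (.e (nat_lit 532503) (nat_lit 1) (.e (nat_lit 57931) (nat_lit 282) (.e (nat_lit 163867) (nat_lit 2) (.e (nat_lit 196670) (nat_lit 14) (.e (nat_lit 73746) (nat_lit 3) (.e (nat_lit 516129) (nat_lit 3) (.e (nat_lit 221200) (nat_lit 20) (.e (nat_lit 3252) (nat_lit 197) .nil)))))))) (.g (nat_lit 1) (.e (nat_lit 396709) (nat_lit 0) .nil) .nil))))) 
(.nd (nat_lit 8) (.nd (nat_lit 9) 
(.lf (nat_lit 589015) (.g (nat_lit 3070) (.e (nat_lit 532499) (nat_lit 1) (.e (nat_lit 57927) (nat_lit 282) (.e (nat_lit 163871) (nat_lit 2) (.e (nat_lit 196670) (nat_lit 14) (.e (nat_lit 73746) (nat_lit 3) (.e (nat_lit 516126) (nat_lit 2) (.e (nat_lit 213035) (nat_lit 12) (.e (nat_lit 163964) (nat_lit 25) .nil)))))))) (.g (nat_lit 1) (.e (nat_lit 395740) (nat_lit 0) .nil) .nil))) 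
(.lf (nat_lit 589527) (.g (nat_lit 1234) (.e (nat_lit 532503) (nat_lit 1) (.e (nat_lit 57849) (nat_lit 252) (.e (nat_lit 57407) (nat_lit 12) (.e (nat_lit 336454) (nat_lit 34) .nil)))) (.g (nat_lit 0) (.e (nat_lit 396542) (nat_lit 0) .nil) .nil)))) (.nd (nat_lit 9) 
(.lf (nat_lit 589271) (.g (nat_lit 2860) (.e (nat_lit 532501) (nat_lit 1) (.e (nat_lit 57927) (nat_lit 282) (.e (nat_lit 163869) (nat_lit 2) (.e (nat_lit 196670) (nat_lit 14) (.e (nat_lit 73746) (nat_lit 3) (.e (nat_lit 516124) (nat_lit 2) (.e (nat_lit 213035) (nat_lit 12) (.e (nat_lit 163965) (nat_lit 25) .nil)))))))) (.g (nat_lit 1) (.e (nat_lit 396141) (nat_lit 0) .nil) .nil))) 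
(.lf (nat_lit 589783) (.g (nat_lit 3612) (.e (nat_lit 532503) (nat_lit 1) (.e (nat_lit 57931) (nat_lit 282) (.e (nat_lit 163869) (nat_lit 2) (.e (nat_lit 196670) (nat_lit 14) (.e (nat_lit 73746) (nat_lit 3) (.e (nat_lit 516131) (nat_lit 3) (.e (nat_lit 221196) (nat_lit 20) (.e (nat_lit 3248) (nat_lit 197) .nil)))))))) (.g (nat_lit 1) (.e (nat_lit 396874) (nat_lit 0) .nil) .nil))))))) 
(.nd (nat_lit 6) (.nd (nat_lit 7) (.nd (nat_lit 8) (.nd (nat_lit 9) 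
(.lf (nat_lit 588855) (.g (nat_lit 2340) (.e (nat_lit 532499) (nat_lit 1) (.e (nat_lit 57927) (nat_lit 282) (.e (nat_lit 163866) (nat_lit 2) (.e (nat_lit 196670) (nat_lit 14) (.e (nat_lit 73746) (nat_lit 3) (.e (nat_lit 516127) (nat_lit 2) (.e (nat_lit 213035) (nat_lit 12) (.e (nat_lit 163963) (nat_lit 25) .nil)))))))) (.g (nat_lit 1) (.e (nat_lit 395413) (nat_lit 0) .nil) .nil))) 
(.lf (nat_lit 589367) (.g (nat_lit 1967) (.e (nat_lit 532502) (nat_lit 1) (.e (nat_lit 57692) (nat_lit 156) (.e (nat_lit 163907) (nat_lit 12) (.e (nat_lit 426566) (nat_lit 34) (.e (nat_lit 393288) (nat_lit 25) (.e (nat_lit 458788) (nat_lit 23) .nil)))))) (.g (nat_lit 1) (.e (nat_lit 396306) (nat_lit 0) .nil) .nil)))) (.nd (nat_lit 9) 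
(.lf (nat_lit 589111) (.g (nat_lit 5168) (.e (nat_lit 532500) (nat_lit 1) (.e (nat_lit 57852) (nat_lit 252) (.e (nat_lit 57406) (nat_lit 12) (.e (nat_lit 336454) (nat_lit 34) (.e (nat_lit 483385) (nat_lit 23) (.e (nat_lit 336306) (nat_lit 15) (.e (nat_lit 3238) (nat_lit 197) .nil))))))) (.g (nat_lit 1) (.e (nat_lit 395864) (nat_lit 0) .nil) .nil))) 
(.lf (nat_lit 589623) (.g (nat_lit 2951) (.e (nat_lit 532503) (nat_lit 1) (.e (nat_lit 57931) (nat_lit 282) (.e (nat_lit 163867) (nat_lit 2) (.e (nat_lit 196668) (nat_lit 14) (.e (nat_lit 73747) (nat_lit 3) (.e (nat_lit 516131) (nat_lit 3) (.e (nat_lit 221196) (nat_lit 20) (.e (nat_lit 3248) (nat_lit 197) .nil)))))))) (.g (nat_lit 1) (.e (nat_lit 396655) (nat_lit 0) .nil) .nil))))) 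
(.nd (nat_lit 8) (.nd (nat_lit 9) 
(.lf (nat_lit 588983) (.g (nat_lit 2522) (.e (nat_lit 532499) (nat_lit 1) (.e (nat_lit 57927) (nat_lit 282) (.e (nat_lit 163869) (nat_lit 2) (.e (nat_lit 196670) (nat_lit 14) (.e (nat_lit 73746) (nat_lit 3) (.e (nat_lit 516129) (nat_lit 3) (.e (nat_lit 221197) (nat_lit 20) (.e (nat_lit 3256) (nat_lit 197) .nil)))))))) (.g (nat_lit 1) (.e (nat_lit 395635) (nat_lit 0) .nil) .nil))) 
(.lf (nat_lit 589495) (.g (nat_lit 3019) (.e (nat_lit 532503) (nat_lit 1) (.e (nat_lit 57847) (nat_lit 252) (.e (nat_lit 57411) (nat_lit 12) (.e (nat_lit 336454) (nat_lit 34) (.e (nat_lit 483385) (nat_lit 23) (.e (nat_lit 336284) (nat_lit 15) (.e (nat_lit 3249) (nat_lit 197) .nil))))))) (.g (nat_lit 1) (.e (nat_lit 396505) (nat_lit 0) .nil) .nil)))) (.nd (nat_lit 9) 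
(.lf (nat_lit 589239) (.g (nat_lit 2842) (.e (nat_lit 532501) (nat_lit 1) (.e (nat_lit 57926) (nat_lit 282) (.e (nat_lit 163869) (nat_lit 2) (.e (nat_lit 196670) (nat_lit 14) (.e (nat_lit 73746) (nat_lit 3) (.e (nat_lit 516127) (nat_lit 2) (.e (nat_lit 213035) (nat_lit 12) (.e (nat_lit 163965) (nat_lit 25) .nil)))))))) (.g (nat_lit 1) (.e (nat_lit 396064) (nat_lit 0) .nil) .nil))) 
(.lf (nat_lit 589751) (.g (nat_lit 3289) (.e (nat_lit 532503) (nat_lit 1) (.e (nat_lit 57931) (nat_lit 282) (.e (nat_lit 163869) (nat_lit 2) (.e (nat_lit 196670) (nat_lit 14) (.e (nat_lit 73746) (nat_lit 3) (.e (nat_lit 516129) (nat_lit 3) (.e (nat_lit 221195) (nat_lit 20) (.e (nat_lit 3252) (nat_lit 197) .nil)))))))) (.g (nat_lit 1) (.e (nat_lit 396842) (nat_lit 0) .nil) .nil)))))) 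
(.nd (nat_lit 7) (.nd (nat_lit 8) (.nd (nat_lit 9) 
(.lf (nat_lit 588919) (.g (nat_lit 2428) (.e (nat_lit 532499) (nat_lit 1) (.e (nat_lit 57927) (nat_lit 282) (.e (nat_lit 163868) (nat_lit 2) (.e (nat_lit 196670) (nat_lit 14) (.e (nat_lit 73746) (nat_lit 3) (.e (nat_lit 516131) (nat_lit 3) (.e (nat_lit 221198) (nat_lit 20) (.e (nat_lit 3250) (nat_lit 197) .nil)))))))) (.g (nat_lit 1) (.e (nat_lit 395521) (nat_lit 0) .nil) .nil))) 
(.lf (nat_lit 589431) (.g (nat_lit 1213) (.e (nat_lit 532503) (nat_lit 1) (.e (nat_lit 57688) (nat_lit 156) (.e (nat_lit 163905) (nat_lit 12) (.e (nat_lit 426568) (nat_lit 34) .nil)))) (.g (nat_lit 0) (.e (nat_lit 396410) (nat_lit 0) .nil) .nil)))) (.nd (nat_lit 9) 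
(.lf (nat_lit 589175) (.g (nat_lit 2834) (.e (nat_lit 532501) (nat_lit 1) (.e (nat_lit 57851) (nat_lit 252) (.e (nat_lit 57406) (nat_lit 12) (.e (nat_lit 336456) (nat_lit 34) (.e (nat_lit 483393) (nat_lit 23) (.e (nat_lit 336271) (nat_lit 15) (.e (nat_lit 3233) (nat_lit 197) .nil))))))) (.g (nat_lit 1) (.e (nat_lit 395972) (nat_lit 0) .nil) .nil))) 
(.lf (nat_lit 589687) (.g (nat_lit 3414) (.e (nat_lit 532503) (nat_lit 1) (.e (nat_lit 57931) (nat_lit 282) (.e (nat_lit 163869) (nat_lit 2) (.e (nat_lit 196668) (nat_lit 14) (.e (nat_lit 73746) (nat_lit 3) (.e (nat_lit 516129) (nat_lit 3) (.e (nat_lit 221202) (nat_lit 20) (.e (nat_lit 3230) (nat_lit 197) .nil)))))))) (.g (nat_lit 1) (.e (nat_lit 396775) (nat_lit 0) .nil) .nil))))) 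
(.nd (nat_lit 8) (.nd (nat_lit 9) 
(.lf (nat_lit 589047) (.g (nat_lit 2790) (.e (nat_lit 532499) (nat_lit 1) (.e (nat_lit 57927) (nat_lit 282) (.e (nat_lit 163874) (nat_lit 3) (.e (nat_lit 204862) (nat_lit 27) (.e (nat_lit 344117) (nat_lit 21) (.e (nat_lit 516123) (nat_lit 2) (.e (nat_lit 213033) (nat_lit 12) (.e (nat_lit 163964) (nat_lit 25) .nil)))))))) (.g (nat_lit 1) (.e (nat_lit 395777) (nat_lit 0) .nil) .nil))) 
(.lf (nat_lit 589559) (.g (nat_lit 3936) (.e (nat_lit 532503) (nat_lit 1) (.e (nat_lit 57929) (nat_lit 282) (.e (nat_lit 163869) (nat_lit 2) (.e (nat_lit 196668) (nat_lit 14) (.e (nat_lit 73747) (nat_lit 3) (.e (nat_lit 516129) (nat_lit 3) (.e (nat_lit 221204) (nat_lit 20) (.e (nat_lit 3253) (nat_lit 197) .nil)))))))) (.g (nat_lit 1) (.e (nat_lit 396577) (nat_lit 0) .nil) .nil)))) 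
(.nd (nat_lit 9) 
(.lf (nat_lit 589303) (.g (nat_lit 2735) (.e (nat_lit 532501) (nat_lit 1) (.e (nat_lit 57929) (nat_lit 282) (.e (nat_lit 163869) (nat_lit 2) (.e (nat_lit 196668) (nat_lit 14) (.e (nat_lit 73746) (nat_lit 3) (.e (nat_lit 516129) (nat_lit 3) (.e (nat_lit 221204) (nat_lit 20) (.e (nat_lit 3253) (nat_lit 197) .nil)))))))) (.g (nat_lit 1) (.e (nat_lit 396206) (nat_lit 0) .nil) .nil))) 
(.lf (nat_lit 589815) (.g (nat_lit 2930) (.e (nat_lit 532503) (nat_lit 1) (.e (nat_lit 57931) (nat_lit 282) (.e (nat_lit 163874) (nat_lit 3) (.e (nat_lit 204862) (nat_lit 27) (.e (nat_lit 344117) (nat_lit 21) (.e (nat_lit 516130) (nat_lit 3) (.e (nat_lit 221196) (nat_lit 20) (.e (nat_lit 3248) (nat_lit 197) .nil)))))))) (.g (nat_lit 1) (.e (nat_lit 396912) (nat_lit 0) .nil) .nil))))))))) 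
(.nd (nat_lit 4) (.nd (nat_lit 5) (.nd (nat_lit 6) (.nd (nat_lit 7) (.nd (nat_lit 8) 
(.nd (nat_lit 9) 
(.lf (nat_lit 588815) (.g (nat_lit 3357) (.e (nat_lit 532499) (nat_lit 1) (.e (nat_lit 57926) (nat_lit 282) (.e (nat_lit 163869) (nat_lit 2) (.e (nat_lit 196670) (nat_lit 14) (.e (nat_lit 73746) (nat_lit 3) (.e (nat_lit 516124) (nat_lit 2) (.e (nat_lit 213019) (nat_lit 9) (.e (nat_lit 2505) (nat_lit 157) (.e (nat_lit 3249) (nat_lit 197) .nil))))))))) (.g (nat_lit 1) (.e (nat_lit 395359) (nat_lit 0) .nil) .nil))) 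
(.lf (nat_lit 589327) (.g (nat_lit 1404) (.e (nat_lit 532502) (nat_lit 1) (.e (nat_lit 57687) (nat_lit 156) (.e (nat_lit 163903) (nat_lit 12) (.e (nat_lit 426568) (nat_lit 34) .nil)))) (.g (nat_lit 0) (.e (nat_lit 396248) (nat_lit 0) .nil) .nil)))) (.nd (nat_lit 9) 
(.lf (nat_lit 589071) (.g (nat_lit 2174) (.e (nat_lit 532499) (nat_lit 1) (.e (nat_lit 57931) (nat_lit 282) (.e (nat_lit 163867) (nat_lit 2) (.e (nat_lit 196670) (nat_lit 14) (.e (nat_lit 73746) (nat_lit 3) .nil))))) (.g (nat_lit 0) (.e (nat_lit 395808) (nat_lit 0) .nil) .nil))) 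
(.lf (nat_lit 589583) (.g (nat_lit 1936) (.e (nat_lit 532503) (nat_lit 1) (.e (nat_lit 57931) (nat_lit 282) (.e (nat_lit 163867) (nat_lit 2) (.e (nat_lit 196662) (nat_lit 13) (.e (nat_lit 65569) (nat_lit 3) .nil))))) (.g (nat_lit 0) (.e (nat_lit 396608) (nat_lit 0) .nil) .nil))))) (.nd (nat_lit 8) (.nd (nat_lit 9) 
(.lf (nat_lit 588943) (.g (nat_lit 2554) (.e (nat_lit 532499) (nat_lit 1) (.e (nat_lit 57927) (nat_lit 282) (.e (nat_lit 163869) (nat_lit 2) (.e (nat_lit 196668) (nat_lit 14) (.e (nat_lit 73747) (nat_lit 3) (.e (nat_lit 516129) (nat_lit 3) (.e (nat_lit 221202) (nat_lit 20) (.e (nat_lit 3232) (nat_lit 197) .nil)))))))) (.g (nat_lit 1) (.e (nat_lit 395594) (nat_lit 0) .nil) .nil))) 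
(.lf (nat_lit 589455) (.g (nat_lit 3100) (.e (nat_lit 532503) (nat_lit 1) (.e (nat_lit 57844) (nat_lit 252) (.e (nat_lit 57406) (nat_lit 12) (.e (nat_lit 336456) (nat_lit 34) (.e (nat_lit 483393) (nat_lit 23) (.e (nat_lit 336291) (nat_lit 15) (.e (nat_lit 3253) (nat_lit 197) .nil))))))) (.g (nat_lit 1) (.e (nat_lit 396462) (nat_lit 0) .nil) .nil)))) (.nd (nat_lit 9) 
(.lf (nat_lit 589199) (.g (nat_lit 2313) (.e (nat_lit 532501) (nat_lit 1) (.e (nat_lit 57854) (nat_lit 252) (.e (nat_lit 57378) (nat_lit 3) (.e (nat_lit 98340) (nat_lit 20) .nil)))) (.g (nat_lit 0) (.e (nat_lit 396000) (nat_lit 0) .nil) .nil))) 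
(.lf (nat_lit 589711) (.g (nat_lit 3049) (.e (nat_lit 532503) (nat_lit 1) (.e (nat_lit 57931) (nat_lit 282) (.e (nat_lit 163869) (nat_lit 2) (.e (nat_lit 196668) (nat_lit 14) (.e (nat_lit 73747) (nat_lit 3) (.e (nat_lit 516131) (nat_lit 3) (.e (nat_lit 221197) (nat_lit 20) (.e (nat_lit 3237) (nat_lit 197) .nil)))))))) (.g (nat_lit 1) (.e (nat_lit 396802) (nat_lit 0) .nil) .nil)))))) 
(.nd (nat_lit 7) (.nd (nat_lit 8) (.nd (nat_lit 9) 
(.lf (nat_lit 588879) (.g (nat_lit 2830) (.e (nat_lit 532499) (nat_lit 1) (.e (nat_lit 57927) (nat_lit 282) (.e (nat_lit 163868) (nat_lit 2) (.e (nat_lit 196668) (nat_lit 14) (.e (nat_lit 73747) (nat_lit 3) (.e (nat_lit 516131) (nat_lit 3) (.e (nat_lit 221197) (nat_lit 20) (.e (nat_lit 3237) (nat_lit 197) .nil)))))))) (.g (nat_lit 1) (.e (nat_lit 395481) (nat_lit 0) .nil) .nil))) 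
(.lf (nat_lit 589391) (.g (nat_lit 2992) (.e (nat_lit 532502) (nat_lit 1) (.e (nat_lit 57854) (nat_lit 252) (.e (nat_lit 57378) (nat_lit 3) (.e (nat_lit 98338) (nat_lit 19) .nil)))) (.g (nat_lit 0) (.e (nat_lit 396352) (nat_lit 0) .nil) .nil)))) (.nd (nat_lit 9) 
(.lf (nat_lit 589135) (.g (nat_lit 2540) (.e (nat_lit 532500) (nat_lit 1) (.e (nat_lit 57927) (nat_lit 282) (.e (nat_lit 163875) (nat_lit 3) (.e (nat_lit 204862) (nat_lit 27) (.e (nat_lit 344117) (nat_lit 21) (.e (nat_lit 516106) (nat_lit 0) (.e (nat_lit 3721) (nat_lit 227) (.e (nat_lit 778474) (nat_lit 12) (.e (nat_lit 163962) (nat_lit 25) .nil))))))))) (.g (nat_lit 1) (.e (nat_lit 395905) (nat_lit 0) .nil) .nil))) 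
(.lf (nat_lit 589647) (.g (nat_lit 2666) (.e (nat_lit 532503) (nat_lit 1) (.e (nat_lit 57931) (nat_lit 282) (.e (nat_lit 163867) (nat_lit 2) (.e (nat_lit 196670) (nat_lit 14) (.e (nat_lit 73746) (nat_lit 3) (.e (nat_lit 516129) (nat_lit 3) (.e (nat_lit 221197) (nat_lit 20) (.e (nat_lit 3237) (nat_lit 197) .nil)))))))) (.g (nat_lit 1) (.e (nat_lit 396701) (nat_lit 0) .nil) .nil))))) 
(.nd (nat_lit 8) (.nd (nat_lit 9) 
(.lf (nat_lit 589007) (.g (nat_lit 3036) (.e (nat_lit 532499) (nat_lit 1) (.e (nat_lit 57927) (nat_lit 282) (.e (nat_lit 163871) (nat_lit 2) (.e (nat_lit 196670) (nat_lit 14) (.e (nat_lit 73746) (nat_lit 3) (.e (nat_lit 516124) (nat_lit 2) (.e (nat_lit 213035) (nat_lit 12) (.e (nat_lit 163963) (nat_lit 25) .nil)))))))) (.g (nat_lit 1) (.e (nat_lit 395732) (nat_lit 0) .nil) .nil))) 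
(.lf (nat_lit 589519) (.g (nat_lit 3859) (.e (nat_lit 532503) (nat_lit 1) (.e (nat_lit 57848) (nat_lit 252) (.e (nat_lit 57445) (nat_lit 19) (.e (nat_lit 393229) (nat_lit 9) (.e (nat_lit 336091) (nat_lit 9) (.e (nat_lit 336295) (nat_lit 15) (.e (nat_lit 3253) (nat_lit 197) .nil))))))) (.g (nat_lit 1) (.e (nat_lit 396532) (nat_lit 0) .nil) .nil)))) (.nd (nat_lit 9) 
(.lf (nat_lit 589263) (.g (nat_lit 3331) (.e (nat_lit 532501) (nat_lit 1) (.e (nat_lit 57927) (nat_lit 282) (.e (nat_lit 163869) (nat_lit 2) (.e (nat_lit 196668) (nat_lit 14) (.e (nat_lit 73746) (nat_lit 3) (.e (nat_lit 516129) (nat_lit 3) (.e (nat_lit 221203) (nat_lit 20) (.e (nat_lit 3253) (nat_lit 197) .nil)))))))) (.g (nat_lit 1) (.e (nat_lit 396130) (nat_lit 0) .nil) .nil))) 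
(.lf (nat_lit 589775) (.g (nat_lit 3829) (.e (nat_lit 532503) (nat_lit 1) (.e (nat_lit 57931) (nat_lit 282) (.e (nat_lit 163869) (nat_lit 2) (.e (nat_lit 196670) (nat_lit 14) (.e (nat_lit 73746) (nat_lit 3) (.e (nat_lit 516129) (nat_lit 3) (.e (nat_lit 221200) (nat_lit 20) (.e (nat_lit 3254) (nat_lit 197) .nil)))))))) (.g (nat_lit 1) (.e (nat_lit 396866) (nat_lit 0) .nil) .nil))))))) 
(.nd (nat_lit 6) (.nd (nat_lit 7) (.nd (nat_lit 8) (.nd (nat_lit 9) 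
(.lf (nat_lit 588847) (.g (nat_lit 2300) (.e (nat_lit 532499) (nat_lit 1) (.e (nat_lit 57927) (nat_lit 282) (.e (nat_lit 163866) (nat_lit 2) (.e (nat_lit 196670) (nat_lit 14) (.e (nat_lit 73746) (nat_lit 3) (.e (nat_lit 516124) (nat_lit 2) (.e (nat_lit 213035) (nat_lit 12) (.e (nat_lit 163963) (nat_lit 25) .nil)))))))) (.g (nat_lit 1) (.e (nat_lit 395405) (nat_lit 0) .nil) .nil))) 
(.lf (nat_lit 589359) (.g (nat_lit 2149) (.e (nat_lit 532502) (nat_lit 1) (.e (nat_lit 57691) (nat_lit 156) (.e (nat_lit 163907) (nat_lit 12) (.e (nat_lit 426566) (nat_lit 34) (.e (nat_lit 393289) (nat_lit 25) .nil))))) (.g (nat_lit 0) (.e (nat_lit 396295) (nat_lit 0) .nil) .nil)))) (.nd (nat_lit 9) 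
(.lf (nat_lit 589103) (.g (nat_lit 1392) (.e (nat_lit 532500) (nat_lit 1) (.e (nat_lit 57844) (nat_lit 252) (.e (nat_lit 57406) (nat_lit 12) (.e (nat_lit 336454) (nat_lit 34) .nil)))) (.g (nat_lit 0) (.e (nat_lit 395853) (nat_lit 0) .nil) .nil))) 
(.lf (nat_lit 589615) (.g (nat_lit 2733) (.e (nat_lit 532503) (nat_lit 1) (.e (nat_lit 57931) (nat_lit 282) (.e (nat_lit 163867) (nat_lit 2) (.e (nat_lit 196668) (nat_lit 14) (.e (nat_lit 73747) (nat_lit 3) (.e (nat_lit 516129) (nat_lit 3) (.e (nat_lit 221196) (nat_lit 20) (.e (nat_lit 3246) (nat_lit 197) .nil)))))))) (.g (nat_lit 1) (.e (nat_lit 396647) (nat_lit 0) .nil) .nil))))) 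
(.nd (nat_lit 8) (.nd (nat_lit 9) 
(.lf (nat_lit 588975) (.g (nat_lit 3126) (.e (nat_lit 532499) (nat_lit 1) (.e (nat_lit 57927) (nat_lit 282) (.e (nat_lit 163869) (nat_lit 2) (.e (nat_lit 196670) (nat_lit 14) (.e (nat_lit 73746) (nat_lit 3) (.e (nat_lit 516127) (nat_lit 2) (.e (nat_lit 213038) (nat_lit 13) (.e (nat_lit 229432) (nat_lit 25) .nil)))))))) (.g (nat_lit 1) (.e (nat_lit 395627) (nat_lit 0) .nil) .nil))) 
(.lf (nat_lit 589487) (.g (nat_lit 1845) (.e (nat_lit 532503) (nat_lit 1) (.e (nat_lit 57847) (nat_lit 252) (.e (nat_lit 57409) (nat_lit 12) (.e (nat_lit 336454) (nat_lit 34) (.e (nat_lit 483408) (nat_lit 26) .nil))))) (.g (nat_lit 0) (.e (nat_lit 396495) (nat_lit 0) .nil) .nil)))) (.nd (nat_lit 9) 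
(.lf (nat_lit 589231) (.g (nat_lit 2644) (.e (nat_lit 532501) (nat_lit 1) (.e (nat_lit 57926) (nat_lit 282) (.e (nat_lit 163869) (nat_lit 2) (.e (nat_lit 196670) (nat_lit 14) (.e (nat_lit 73746) (nat_lit 3) (.e (nat_lit 516126) (nat_lit 2) (.e (nat_lit 213034) (nat_lit 12) (.e (nat_lit 163963) (nat_lit 25) .nil)))))))) (.g (nat_lit 1) (.e (nat_lit 396056) (nat_lit 0) .nil) .nil))) 
(.lf (nat_lit 589743) (.g (nat_lit 3452) (.e (nat_lit 532503) (nat_lit 1) (.e (nat_lit 57931) (nat_lit 282) (.e (nat_lit 163869) (nat_lit 2) (.e (nat_lit 196670) (nat_lit 14) (.e (nat_lit 73746) (nat_lit 3) (.e (nat_lit 516127) (nat_lit 2) (.e (nat_lit 213034) (nat_lit 12) (.e (nat_lit 163963) (nat_lit 25) .nil)))))))) (.g (nat_lit 1) (.e (nat_lit 396834) (nat_lit 0) .nil) .nil)))))) 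
(.nd (nat_lit 7) (.nd (nat_lit 8) (.nd (nat_lit 9) 
(.lf (nat_lit 588911) (.g (nat_lit 3519) (.e (nat_lit 532499) (nat_lit 1) (.e (nat_lit 57927) (nat_lit 282) (.e (nat_lit 163868) (nat_lit 2) (.e (nat_lit 196670) (nat_lit 14) (.e (nat_lit 73746) (nat_lit 3) (.e (nat_lit 516127) (nat_lit 2) (.e (nat_lit 213035) (nat_lit 12) (.e (nat_lit 163965) (nat_lit 25) .nil)))))))) (.g (nat_lit 1) (.e (nat_lit 395513) (nat_lit 0) .nil) .nil))) 
(.lf (nat_lit 589423) (.g (nat_lit 2137) (.e (nat_lit 532503) (nat_lit 1) (.e (nat_lit 57688) (nat_lit 156) (.e (nat_lit 163902) (nat_lit 12) (.e (nat_lit 426566) (nat_lit 34) (.e (nat_lit 393285) (nat_lit 25) .nil))))) (.g (nat_lit 0) (.e (nat_lit 396398) (nat_lit 0) .nil) .nil)))) (.nd (nat_lit 9) 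
(.lf (nat_lit 589167) (.g (nat_lit 3203) (.e (nat_lit 532501) (nat_lit 1) (.e (nat_lit 57851) (nat_lit 252) (.e (nat_lit 57406) (nat_lit 12) (.e (nat_lit 336456) (nat_lit 34) (.e (nat_lit 483379) (nat_lit 23) (.e (nat_lit 336281) (nat_lit 15) (.e (nat_lit 3231) (nat_lit 197) .nil))))))) (.g (nat_lit 1) (.e (nat_lit 395964) (nat_lit 0) .nil) .nil))) 
(.lf (nat_lit 589679) (.g (nat_lit 2826) (.e (nat_lit 532503) (nat_lit 1) (.e (nat_lit 57931) (nat_lit 282) (.e (nat_lit 163869) (nat_lit 2) (.e (nat_lit 196666) (nat_lit 13) (.e (nat_lit 65571) (nat_lit 3) (.e (nat_lit 98341) (nat_lit 20) (.e (nat_lit 221196) (nat_lit 20) (.e (nat_lit 3256) (nat_lit 197) .nil)))))))) (.g (nat_lit 1) (.e (nat_lit 396749) (nat_lit 0) .nil) .nil))))) 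
(.nd (nat_lit 8) (.nd (nat_lit 9) 
(.lf (nat_lit 589039) (.g (nat_lit 2701) (.e (nat_lit 532499) (nat_lit 1) (.e (nat_lit 57927) (nat_lit 282) (.e (nat_lit 163874) (nat_lit 3) (.e (nat_lit 204854) (nat_lit 26) (.e (nat_lit 336019) (nat_lit 3) (.e (nat_lit 98342) (nat_lit 20) (.e (nat_lit 221202) (nat_lit 20) (.e (nat_lit 3249) (nat_lit 197) .nil)))))))) (.g (nat_lit 1) (.e (nat_lit 395769) (nat_lit 0) .nil) .nil))) 
(.lf (nat_lit 589551) (.g (nat_lit 2508) (.e (nat_lit 532503) (nat_lit 1) (.e (nat_lit 57924) (nat_lit 282) (.e (nat_lit 163867) (nat_lit 2) (.e (nat_lit 196670) (nat_lit 14) (.e (nat_lit 73746) (nat_lit 3) (.e (nat_lit 516129) (nat_lit 3) (.e (nat_lit 221202) (nat_lit 20) (.e (nat_lit 3230) (nat_lit 197) .nil)))))))) (.g (nat_lit 1) (.e (nat_lit 396568) (nat_lit 0) .nil) .nil)))) 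
(.nd (nat_lit 9) 
(.lf (nat_lit 589295) (.g (nat_lit 2216) (.e (nat_lit 532501) (nat_lit 1) (.e (nat_lit 57928) (nat_lit 282) (.e (nat_lit 163868) (nat_lit 2) (.e (nat_lit 196668) (nat_lit 14) (.e (nat_lit 73746) (nat_lit 3) (.e (nat_lit 516131) (nat_lit 3) (.e (nat_lit 221204) (nat_lit 20) (.e (nat_lit 3253) (nat_lit 197) .nil)))))))) (.g (nat_lit 1) (.e (nat_lit 396190) (nat_lit 0) .nil) .nil))) 
(.lf (nat_lit 589807) (.g (nat_lit 3954) (.e (nat_lit 532503) (nat_lit 1) (.e (nat_lit 57931) (nat_lit 282) (.e (nat_lit 163874) (nat_lit 3) (.e (nat_lit 204854) (nat_lit 26) (.e (nat_lit 336019) (nat_lit 3) (.e (nat_lit 98342) (nat_lit 20) (.e (nat_lit 221198) (nat_lit 20) (.e (nat_lit 3230) (nat_lit 197) .nil)))))))) (.g (nat_lit 1) (.e (nat_lit 396904) (nat_lit 0) .nil) .nil)))))))) 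
(.nd (nat_lit 5) (.nd (nat_lit 6) (.nd (nat_lit 7) (.nd (nat_lit 8) (.nd (nat_lit 9) 
(.lf (nat_lit 588831) (.g (nat_lit 3450) (.e (nat_lit 532499) (nat_lit 1) (.e (nat_lit 57926) (nat_lit 282) (.e (nat_lit 163869) (nat_lit 2) (.e (nat_lit 196670) (nat_lit 14) (.e (nat_lit 73746) (nat_lit 3) (.e (nat_lit 516127) (nat_lit 2) (.e (nat_lit 213035) (nat_lit 12) (.e (nat_lit 163965) (nat_lit 25) .nil)))))))) (.g (nat_lit 1) (.e (nat_lit 395375) (nat_lit 0) .nil) .nil))) 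
(.lf (nat_lit 589343) (.g (nat_lit 1950) (.e (nat_lit 532502) (nat_lit 1) (.e (nat_lit 57688) (nat_lit 156) (.e (nat_lit 163903) (nat_lit 12) (.e (nat_lit 426568) (nat_lit 34) (.e (nat_lit 393283) (nat_lit 24) (.e (nat_lit 434234) (nat_lit 23) .nil)))))) (.g (nat_lit 1) (.e (nat_lit 396266) (nat_lit 0) .nil) .nil)))) (.nd (nat_lit 9) 
(.lf (nat_lit 589087) (.g (nat_lit 3374) (.e (nat_lit 532499) (nat_lit 1) (.e (nat_lit 57931) (nat_lit 282) (.e (nat_lit 163869) (nat_lit 2) (.e (nat_lit 196670) (nat_lit 14) (.e (nat_lit 73746) (nat_lit 3) (.e (nat_lit 516127) (nat_lit 2) (.e (nat_lit 213034) (nat_lit 12) (.e (nat_lit 163963) (nat_lit 25) .nil)))))))) (.g (nat_lit 1) (.e (nat_lit 395833) (nat_lit 0) .nil) .nil))) 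
(.lf (nat_lit 589599) (.g (nat_lit 2587) (.e (nat_lit 532503) (nat_lit 1) (.e (nat_lit 57931) (nat_lit 282) (.e (nat_lit 163867) (nat_lit 2) (.e (nat_lit 196668) (nat_lit 14) (.e (nat_lit 73746) (nat_lit 3) (.e (nat_lit 516129) (nat_lit 3) (.e (nat_lit 221198) (nat_lit 20) (.e (nat_lit 3230) (nat_lit 197) .nil)))))))) (.g (nat_lit 1) (.e (nat_lit 396628) (nat_lit 0) .nil) .nil))))) 
(.nd (nat_lit 8) (.nd (nat_lit 9) 
(.lf (nat_lit 588959) (.g (nat_lit 4277) (.e (nat_lit 532499) (nat_lit 1) (.e (nat_lit 57927) (nat_lit 282) (.e (nat_lit 163869) (nat_lit 2) (.e (nat_lit 196670) (nat_lit 14) (.e (nat_lit 73746) (nat_lit 3) (.e (nat_lit 516124) (nat_lit 2) (.e (nat_lit 213019) (nat_lit 9) (.e (nat_lit 2505) (nat_lit 157) (.e (nat_lit 3249) (nat_lit 197) .nil))))))))) (.g (nat_lit 1) (.e (nat_lit 395611) (nat_lit 0) .nil) .nil))) 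
(.lf (nat_lit 589471) (.g (nat_lit 1215) (.e (nat_lit 532503) (nat_lit 1) (.e (nat_lit 57847) (nat_lit 252) (.e (nat_lit 57407) (nat_lit 12) (.e (nat_lit 336454) (nat_lit 34) .nil)))) (.g (nat_lit 0) (.e (nat_lit 396479) (nat_lit 0) .nil) .nil)))) (.nd (nat_lit 9) 
(.lf (nat_lit 589215) (.g (nat_lit 1339) (.e (nat_lit 532501) (nat_lit 1) (.e (nat_lit 57854) (nat_lit 252) (.e (nat_lit 57409) (nat_lit 12) (.e (nat_lit 336455) (nat_lit 34) (.e (nat_lit 483405) (nat_lit 26) .nil))))) (.g (nat_lit 0) (.e (nat_lit 396016) (nat_lit 0) .nil) .nil))) 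
(.lf (nat_lit 589727) (.g (nat_lit 2761) (.e (nat_lit 532503) (nat_lit 1) (.e (nat_lit 57931) (nat_lit 282) (.e (nat_lit 163869) (nat_lit 2) (.e (nat_lit 196670) (nat_lit 14) (.e (nat_lit 73746) (nat_lit 3) (.e (nat_lit 516124) (nat_lit 2) (.e (nat_lit 213035) (nat_lit 12) (.e (nat_lit 163965) (nat_lit 25) .nil)))))))) (.g (nat_lit 1) (.e (nat_lit 396818) (nat_lit 0) .nil) .nil)))))) 
(.nd (nat_lit 7) (.nd (nat_lit 8) (.nd (nat_lit 9) 
(.lf (nat_lit 588895) (.g (nat_lit 3405) (.e (nat_lit 532499) (nat_lit 1) (.e (nat_lit 57927) (nat_lit 282) (.e (nat_lit 163868) (nat_lit 2) (.e (nat_lit 196670) (nat_lit 14) (.e (nat_lit 73746) (nat_lit 3) (.e (nat_lit 516124) (nat_lit 2) (.e (nat_lit 213035) (nat_lit 12) (.e (nat_lit 163964) (nat_lit 25) .nil)))))))) (.g (nat_lit 1) (.e (nat_lit 395497) (nat_lit 0) .nil) .nil))) 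
(.lf (nat_lit 589407) (.g (nat_lit 1264) (.e (nat_lit 532503) (nat_lit 1) (.e (nat_lit 57687) (nat_lit 156) (.e (nat_lit 163903) (nat_lit 12) (.e (nat_lit 426568) (nat_lit 34) .nil)))) (.g (nat_lit 0) (.e (nat_lit 396375) (nat_lit 0) .nil) .nil)))) (.nd (nat_lit 9) 
(.lf (nat_lit 589151) (.g (nat_lit 1461) (.e (nat_lit 532501) (nat_lit 1) (.e (nat_lit 57692) (nat_lit 156) (.e (nat_lit 163907) (nat_lit 12) (.e (nat_lit 426481) (nat_lit 27) .nil)))) (.g (nat_lit 0) (.e (nat_lit 395938) (nat_lit 0) .nil) .nil))) 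
(.lf (nat_lit 589663) (.g (nat_lit 2541) (.e (nat_lit 532503) (nat_lit 1) (.e (nat_lit 57931) (nat_lit 282) (.e (nat_lit 163867) (nat_lit 2) (.e (nat_lit 196670) (nat_lit 14) (.e (nat_lit 73746) (nat_lit 3) (.e (nat_lit 516131) (nat_lit 3) (.e (nat_lit 221197) (nat_lit 20) (.e (nat_lit 3250) (nat_lit 197) .nil)))))))) (.g (nat_lit 1) (.e (nat_lit 396717) (nat_lit 0) .nil) .nil))))) 
(.nd (nat_lit 8) (.nd (nat_lit 9) 
(.lf (nat_lit 589023) (.g (nat_lit 2269) (.e (nat_lit 532499) (nat_lit 1) (.e (nat_lit 57927) (nat_lit 282) (.e (nat_lit 163871) (nat_lit 2) (.e (nat_lit 196670) (nat_lit 14) (.e (nat_lit 73746) (nat_lit 3) (.e (nat_lit 516129) (nat_lit 3) (.e (nat_lit 221196) (nat_lit 20) (.e (nat_lit 3237) (nat_lit 197) .nil)))))))) (.g (nat_lit 1) (.e (nat_lit 395748) (nat_lit 0) .nil) .nil))) 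
(.lf (nat_lit 589535) (.g (nat_lit 950) (.e (nat_lit 532503) (nat_lit 1) (.e (nat_lit 57849) (nat_lit 252) (.e (nat_lit 57411) (nat_lit 12) (.e (nat_lit 336454) (nat_lit 34) .nil)))) (.g (nat_lit 0) (.e (nat_lit 396550) (nat_lit 0) .nil) .nil)))) (.nd (nat_lit 9) 
(.lf (nat_lit 589279) (.g (nat_lit 3057) (.e (nat_lit 532501) (nat_lit 1) (.e (nat_lit 57927) (nat_lit 282) (.e (nat_lit 163869) (nat_lit 2) (.e (nat_lit 196670) (nat_lit 14) (.e (nat_lit 73746) (nat_lit 3) (.e (nat_lit 516127) (nat_lit 2) (.e (nat_lit 213035) (nat_lit 12) (.e (nat_lit 163963) (nat_lit 25) .nil)))))))) (.g (nat_lit 1) (.e (nat_lit 396149) (nat_lit 0) .nil) .nil))) 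
(.lf (nat_lit 589791) (.g (nat_lit 3327) (.e (nat_lit 532503) (nat_lit 1) (.e (nat_lit 57931) (nat_lit 282) (.e (nat_lit 163869) (nat_lit 2) (.e (nat_lit 196670) (nat_lit 14) (.e (nat_lit 73746) (nat_lit 3) (.e (nat_lit 516131) (nat_lit 3) (.e (nat_lit 221197) (nat_lit 20) (.e (nat_lit 3247) (nat_lit 197) .nil)))))))) (.g (nat_lit 1) (.e (nat_lit 396882) (nat_lit 0) .nil) .nil))))))) 
(.nd (nat_lit 6) (.nd (nat_lit 7) (.nd (nat_lit 8) (.nd (nat_lit 9) 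
(.lf (nat_lit 588863) (.g (nat_lit 2304) (.e (nat_lit 532499) (nat_lit 1) (.e (nat_lit 57927) (nat_lit 282) (.e (nat_lit 163868) (nat_lit 2) (.e (nat_lit 196668) (nat_lit 14) (.e (nat_lit 73746) (nat_lit 3) .nil))))) (.g (nat_lit 0) (.e (nat_lit 395432) (nat_lit 0) .nil) .nil))) 
(.lf (nat_lit 589375) (.g (nat_lit 2016) (.e (nat_lit 532502) (nat_lit 1) (.e (nat_lit 57847) (nat_lit 252) (.e (nat_lit 57407) (nat_lit 12) (.e (nat_lit 336456) (nat_lit 34) (.e (nat_lit 483404) (nat_lit 26) .nil))))) (.g (nat_lit 0) (.e (nat_lit 396321) (nat_lit 0) .nil) .nil)))) (.nd (nat_lit 9) 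
(.lf (nat_lit 589119) (.g (nat_lit 3182) (.e (nat_lit 532500) (nat_lit 1) (.e (nat_lit 57926) (nat_lit 282) (.e (nat_lit 163869) (nat_lit 2) (.e (nat_lit 196670) (nat_lit 14) (.e (nat_lit 73746) (nat_lit 3) (.e (nat_lit 516129) (nat_lit 3) (.e (nat_lit 221196) (nat_lit 20) (.e (nat_lit 3241) (nat_lit 197) .nil)))))))) (.g (nat_lit 1) (.e (nat_lit 395875) (nat_lit 0) .nil) .nil))) 
(.lf (nat_lit 589631) (.g (nat_lit 2916) (.e (nat_lit 532503) (nat_lit 1) (.e (nat_lit 57931) (nat_lit 282) (.e (nat_lit 163867) (nat_lit 2) (.e (nat_lit 196668) (nat_lit 14) (.e (nat_lit 73747) (nat_lit 3) (.e (nat_lit 516131) (nat_lit 3) (.e (nat_lit 221198) (nat_lit 20) (.e (nat_lit 3250) (nat_lit 197) .nil)))))))) (.g (nat_lit 1) (.e (nat_lit 396663) (nat_lit 0) .nil) .nil))))) 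
(.nd (nat_lit 8) (.nd (nat_lit 9) 
(.lf (nat_lit 588991) (.g (nat_lit 3063) (.e (nat_lit 532499) (nat_lit 1) (.e (nat_lit 57927) (nat_lit 282) (.e (nat_lit 163869) (nat_lit 2) (.e (nat_lit 196670) (nat_lit 14) (.e (nat_lit 73746) (nat_lit 3) (.e (nat_lit 516129) (nat_lit 3) (.e (nat_lit 221202) (nat_lit 20) (.e (nat_lit 3232) (nat_lit 197) .nil)))))))) (.g (nat_lit 1) (.e (nat_lit 395643) (nat_lit 0) .nil) .nil))) 
(.lf (nat_lit 589503) (.g (nat_lit 4272) (.e (nat_lit 532503) (nat_lit 1) (.e (nat_lit 57847) (nat_lit 252) (.e (nat_lit 57445) (nat_lit 19) (.e (nat_lit 393229) (nat_lit 9) (.e (nat_lit 336091) (nat_lit 9) .nil))))) (.g (nat_lit 0) (.e (nat_lit 396514) (nat_lit 0) .nil) .nil)))) (.nd (nat_lit 9) 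
(.lf (nat_lit 589247) (.g (nat_lit 1369) (.e (nat_lit 532501) (nat_lit 1) (.e (nat_lit 57926) (nat_lit 282) (.e (nat_lit 163874) (nat_lit 3) (.e (nat_lit 204873) (nat_lit 30) .nil)))) (.g (nat_lit 0) (.e (nat_lit 396080) (nat_lit 0) .nil) .nil))) 
(.lf (nat_lit 589759) (.g (nat_lit 3256) (.e (nat_lit 532503) (nat_lit 1) (.e (nat_lit 57931) (nat_lit 282) (.e (nat_lit 163869) (nat_lit 2) (.e (nat_lit 196670) (nat_lit 14) (.e (nat_lit 73746) (nat_lit 3) (.e (nat_lit 516129) (nat_lit 3) (.e (nat_lit 221197) (nat_lit 20) (.e (nat_lit 3236) (nat_lit 197) .nil)))))))) (.g (nat_lit 1) (.e (nat_lit 396850) (nat_lit 0) .nil) .nil)))))) 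
(.nd (nat_lit 7) (.nd (nat_lit 8) (.nd (nat_lit 9) 
(.lf (nat_lit 588927) (.g (nat_lit 2941) (.e (nat_lit 532499) (nat_lit 1) (.e (nat_lit 57927) (nat_lit 282) (.e (nat_lit 163869) (nat_lit 2) (.e (nat_lit 196666) (nat_lit 13) (.e (nat_lit 65569) (nat_lit 3) (.e (nat_lit 98342) (nat_lit 20) (.e (nat_lit 221198) (nat_lit 20) (.e (nat_lit 3250) (nat_lit 197) .nil)))))))) (.g (nat_lit 1) (.e (nat_lit 395535) (nat_lit 0) .nil) .nil))) 
(.lf (nat_lit 589439) (.g (nat_lit 3197) (.e (nat_lit 532503) (nat_lit 1) (.e (nat_lit 57688) (nat_lit 156) (.e (nat_lit 163907) (nat_lit 12) (.e (nat_lit 426568) (nat_lit 34) (.e (nat_lit 393284) (nat_lit 24) (.e (nat_lit 434233) (nat_lit 23) .nil)))))) (.g (nat_lit 1) (.e (nat_lit 396419) (nat_lit 0) .nil) .nil)))) (.nd (nat_lit 9) 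
(.lf (nat_lit 589183) (.g (nat_lit 2678) (.e (nat_lit 532501) (nat_lit 1) (.e (nat_lit 57852) (nat_lit 252) (.e (nat_lit 57373) (nat_lit 2) (.e (nat_lit 90160) (nat_lit 11) (.e (nat_lit 24608) (nat_lit 3) .nil))))) (.g (nat_lit 0) (.e (nat_lit 395981) (nat_lit 0) .nil) .nil))) 
(.lf (nat_lit 589695) (.g (nat_lit 2333) (.e (nat_lit 532503) (nat_lit 1) (.e (nat_lit 57931) (nat_lit 282) (.e (nat_lit 163869) (nat_lit 2) (.e (nat_lit 196668) (nat_lit 14) (.e (nat_lit 73747) (nat_lit 3) .nil))))) (.g (nat_lit 0) (.e (nat_lit 396783) (nat_lit 0) .nil) .nil))))) (.nd (nat_lit 8) (.nd (nat_lit 9) 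
(.lf (nat_lit 589055) (.g (nat_lit 3182) (.e (nat_lit 532499) (nat_lit 1) (.e (nat_lit 57927) (nat_lit 282) (.e (nat_lit 163875) (nat_lit 3) (.e (nat_lit 204862) (nat_lit 27) (.e (nat_lit 344117) (nat_lit 21) (.e (nat_lit 516122) (nat_lit 2) (.e (nat_lit 213035) (nat_lit 12) (.e (nat_lit 163964) (nat_lit 25) .nil)))))))) (.g (nat_lit 1) (.e (nat_lit 395789) (nat_lit 0) .nil) .nil))) 
(.lf (nat_lit 589567) (.g (nat_lit 1890) (.e (nat_lit 532503) (nat_lit 1) (.e (nat_lit 57930) (nat_lit 282) (.e (nat_lit 163867) (nat_lit 2) (.e (nat_lit 196670) (nat_lit 14) (.e (nat_lit 73746) (nat_lit 3) .nil))))) (.g (nat_lit 0) (.e (nat_lit 396586) (nat_lit 0) .nil) .nil)))) (.nd (nat_lit 9) 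
(.lf (nat_lit 589311) (.g (nat_lit 2596) (.e (nat_lit 532501) (nat_lit 1) (.e (nat_lit 57931) (nat_lit 282) (.e (nat_lit 163867) (nat_lit 2) (.e (nat_lit 196668) (nat_lit 14) (.e (nat_lit 73746) (nat_lit 3) .nil))))) (.g (nat_lit 0) (.e (nat_lit 396216) (nat_lit 0) .nil) .nil))) 
(.lf (nat_lit 589823) (.g (nat_lit 559) (.e (nat_lit 532503) (nat_lit 1) (.e (nat_lit 57931) (nat_lit 282) (.e (nat_lit 163884) (nat_lit 5) .nil))) (.g (nat_lit 0) (.e (nat_lit 396923) (nat_lit 0) .nil) .nil)))))))))))))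

noncomputable def tv5636 : DT := (.nd (nat_lit 0) (.nd (nat_lit 1) (.nd (nat_lit 2) (.nd (nat_lit 3) (.nd (nat_lit 4) (.nd (nat_lit 5) (.nd (nat_lit 6) (.nd (nat_lit 7) (.nd (nat_lit 8) (.nd (nat_lit 9) 
(.lf (nat_lit 589824) (.g (nat_lit 4775) (.e (nat_lit 532503) (nat_lit 1) (.e (nat_lit 57931) (nat_lit 282) (.e (nat_lit 163884) (nat_lit 5) (.e (nat_lit 221210) (nat_lit 22) (.e (nat_lit 196656) (nat_lit 11) (.e (nat_lit 16425) (nat_lit 7) (.e (nat_lit 409617) (nat_lit 10) (.e (nat_lit 604) (nat_lit 45) .nil)))))))) (.g (nat_lit 1) (.e (nat_lit 396924) (nat_lit 0) .nil) .nil))) 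
(.lf (nat_lit 590336) (.g (nat_lit 3546) (.e (nat_lit 532513) (nat_lit 3) (.e (nat_lit 114714) (nat_lit 22) (.e (nat_lit 90174) (nat_lit 14) (.e (nat_lit 180243) (nat_lit 5) (.e (nat_lit 532504) (nat_lit 1) (.e (nat_lit 57664) (nat_lit 152) (.e (nat_lit 2715) (nat_lit 171) (.e (nat_lit 229433) (nat_lit 25) .nil)))))))) (.g (nat_lit 1) (.e (nat_lit 397671) (nat_lit 0) .nil) .nil)))) 
(.nd (nat_lit 9) 
(.lf (nat_lit 590080) (.g (nat_lit 1127) (.e (nat_lit 532510) (nat_lit 2) (.e (nat_lit 106534) (nat_lit 11) (.e (nat_lit 16416) (nat_lit 3) (.e (nat_lit 204876) (nat_lit 31) .nil)))) (.g (nat_lit 0) (.e (nat_lit 397250) (nat_lit 0) .nil) .nil))) 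
(.lf (nat_lit 590592) (.g (nat_lit 984) (.e (nat_lit 532515) (nat_lit 3) (.e (nat_lit 114719) (nat_lit 23) (.e (nat_lit 98360) (nat_lit 26) .nil))) (.g (nat_lit 0) (.e (nat_lit 398564) (nat_lit 0) .nil) .nil))))) (.nd (nat_lit 8) (.nd (nat_lit 9) 
(.lf (nat_lit 589952) (.g (nat_lit 2579) (.e (nat_lit 532504) (nat_lit 1) (.e (nat_lit 57852) (nat_lit 252) (.e (nat_lit 57406) (nat_lit 12) (.e (nat_lit 336456) (nat_lit 34) (.e (nat_lit 483379) (nat_lit 23) .nil))))) (.g (nat_lit 0) (.e (nat_lit 397077) (nat_lit 0) .nil) .nil))) 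
(.lf (nat_lit 590464) (.g (nat_lit 1625) (.e (nat_lit 532515) (nat_lit 3) (.e (nat_lit 114697) (nat_lit 11) (.e (nat_lit 426124) (nat_lit 2) (.e (nat_lit 196672) (nat_lit 15) (.e (nat_lit 81922) (nat_lit 0) .nil))))) (.g (nat_lit 0) (.e (nat_lit 398004) (nat_lit 0) .nil) .nil)))) (.nd (nat_lit 9) 
(.lf (nat_lit 590208) (.g (nat_lit 2560) (.e (nat_lit 532513) (nat_lit 3) (.e (nat_lit 114714) (nat_lit 22) (.e (nat_lit 90172) (nat_lit 14) (.e (nat_lit 180243) (nat_lit 5) (.e (nat_lit 532501) (nat_lit 1) (.e (nat_lit 57663) (nat_lit 152) (.e (nat_lit 2717) (nat_lit 171) (.e (nat_lit 229432) (nat_lit 25) .nil)))))))) (.g (nat_lit 1) (.e (nat_lit 397507) (nat_lit 0) .nil) .nil))) 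
(.lf (nat_lit 590720) (.g (nat_lit 1756) (.e (nat_lit 532523) (nat_lit 7) (.e (nat_lit 319530) (nat_lit 16) (.e (nat_lit 286735) (nat_lit 3) (.e (nat_lit 98361) (nat_lit 26) .nil)))) (.g (nat_lit 0) (.e (nat_lit 398801) (nat_lit 0) .nil) .nil)))))) (.nd (nat_lit 7) (.nd (nat_lit 8) (.nd (nat_lit 9) 
(.lf (nat_lit 589888) (.g (nat_lit 3384) (.e (nat_lit 532504) (nat_lit 1) (.e (nat_lit 57851) (nat_lit 252) (.e (nat_lit 57406) (nat_lit 12) (.e (nat_lit 336456) (nat_lit 34) (.e (nat_lit 483379) (nat_lit 23) (.e (nat_lit 336306) (nat_lit 15) (.e (nat_lit 3238) (nat_lit 197) .nil))))))) (.g (nat_lit 1) (.e (nat_lit 397012) (nat_lit 0) .nil) .nil))) 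
(.lf (nat_lit 590400) (.g (nat_lit 1782) (.e (nat_lit 532514) (nat_lit 3) (.e (nat_lit 114715) (nat_lit 22) (.e (nat_lit 90170) (nat_lit 13) (.e (nat_lit 172049) (nat_lit 0) .nil)))) (.g (nat_lit 0) (.e (nat_lit 397875) (nat_lit 0) .nil) .nil)))) (.nd (nat_lit 9) 
(.lf (nat_lit 590144) (.g (nat_lit 1637) (.e (nat_lit 532513) (nat_lit 3) (.e (nat_lit 114697) (nat_lit 11) (.e (nat_lit 426133) (nat_lit 3) (.e (nat_lit 204859) (nat_lit 26) (.e (nat_lit 336206) (nat_lit 12) .nil))))) (.g (nat_lit 0) (.e (nat_lit 397336) (nat_lit 0) .nil) .nil))) 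
(.lf (nat_lit 590656) (.g (nat_lit 1167) (.e (nat_lit 532522) (nat_lit 7) (.e (nat_lit 319531) (nat_lit 16) (.e (nat_lit 286726) (nat_lit 0) .nil))) (.g (nat_lit 0) (.e (nat_lit 398712) (nat_lit 0) .nil) .nil))))) (.nd (nat_lit 8) (.nd (nat_lit 9) 
(.lf (nat_lit 590016) (.g (nat_lit 1215) (.e (nat_lit 532505) (nat_lit 2) (.e (nat_lit 106536) (nat_lit 11) (.e (nat_lit 16412) (nat_lit 2) .nil))) (.g (nat_lit 0) (.e (nat_lit 397159) (nat_lit 0) .nil) .nil))) 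
(.lf (nat_lit 590528) (.g (nat_lit 2675) (.e (nat_lit 532515) (nat_lit 3) (.e (nat_lit 114716) (nat_lit 22) (.e (nat_lit 90172) (nat_lit 14) (.e (nat_lit 180244) (nat_lit 5) (.e (nat_lit 532575) (nat_lit 17) (.e (nat_lit 7096) (nat_lit 380) (.e (nat_lit 171776) (nat_lit 86) .nil))))))) (.g (nat_lit 1) (.e (nat_lit 398310) (nat_lit 0) .nil) .nil)))) (.nd (nat_lit 9) 
(.lf (nat_lit 590272) (.g (nat_lit 3171) (.e (nat_lit 532513) (nat_lit 3) (.e (nat_lit 114714) (nat_lit 22) (.e (nat_lit 90172) (nat_lit 14) (.e (nat_lit 180244) (nat_lit 5) (.e (nat_lit 532503) (nat_lit 1) (.e (nat_lit 57688) (nat_lit 156) (.e (nat_lit 163844) (nat_lit 0) (.e (nat_lit 3248) (nat_lit 197) .nil)))))))) (.g (nat_lit 1) (.e (nat_lit 397595) (nat_lit 0) .nil) .nil))) 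
(.lf (nat_lit 590784) (.g (nat_lit 3593) (.e (nat_lit 532523) (nat_lit 7) (.e (nat_lit 319533) (nat_lit 16) (.e (nat_lit 286733) (nat_lit 2) (.e (nat_lit 90176) (nat_lit 15) (.e (nat_lit 196352) (nat_lit 20) .nil))))) (.g (nat_lit 0) (.e (nat_lit 398883) (nat_lit 0) .nil) .nil))))))) (.nd (nat_lit 6) (.nd (nat_lit 7) (.nd (nat_lit 8) (.nd (nat_lit 9) 
(.lf (nat_lit 589856) (.g (nat_lit 3334) (.e (nat_lit 532504) (nat_lit 1) (.e (nat_lit 57851) (nat_lit 252) (.e (nat_lit 57354) (nat_lit 0) (.e (nat_lit 1855) (nat_lit 124) (.e (nat_lit 557105) (nat_lit 14) (.e (nat_lit 180252) (nat_lit 10) (.e (nat_lit 573481) (nat_lit 13) (.e (nat_lit 65636) (nat_lit 15) (.e (nat_lit 3249) (nat_lit 197) .nil))))))))) (.g (nat_lit 1) (.e (nat_lit 396979) (nat_lit 0) .nil) .nil))) 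
(.lf (nat_lit 590368) (.g (nat_lit 1646) (.e (nat_lit 532513) (nat_lit 3) (.e (nat_lit 114719) (nat_lit 23) (.e (nat_lit 98335) (nat_lit 18) (.e (nat_lit 164401) (nat_lit 256) .nil)))) (.g (nat_lit 0) (.e (nat_lit 397732) (nat_lit 0) .nil) .nil)))) (.nd (nat_lit 9) 
(.lf (nat_lit 590112) (.g (nat_lit 1313) (.e (nat_lit 532511) (nat_lit 2) (.e (nat_lit 106534) (nat_lit 11) (.e (nat_lit 16413) (nat_lit 2) (.e (nat_lit 196674) (nat_lit 15) (.e (nat_lit 89856) (nat_lit 0) (.e (nat_lit 3249) (nat_lit 197) .nil)))))) (.g (nat_lit 1) (.e (nat_lit 397290) (nat_lit 0) .nil) .nil))) 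
(.lf (nat_lit 590624) (.g (nat_lit 2888) (.e (nat_lit 532515) (nat_lit 3) (.e (nat_lit 114719) (nat_lit 23) (.e (nat_lit 98384) (nat_lit 32) (.e (nat_lit 475177) (nat_lit 24) (.e (nat_lit 516117) (nat_lit 1) (.e (nat_lit 164330) (nat_lit 230) (.e (nat_lit 163850) (nat_lit 0) (.e (nat_lit 3252) (nat_lit 197) .nil)))))))) (.g (nat_lit 1) (.e (nat_lit 398645) (nat_lit 0) .nil) .nil))))) 
(.nd (nat_lit 8) (.nd (nat_lit 9) 
(.lf (nat_lit 589984) (.g (nat_lit 1426) (.e (nat_lit 532504) (nat_lit 1) (.e (nat_lit 57854) (nat_lit 252) (.e (nat_lit 57445) (nat_lit 19) (.e (nat_lit 393229) (nat_lit 9) (.e (nat_lit 336086) (nat_lit 9) .nil))))) (.g (nat_lit 0) (.e (nat_lit 397119) (nat_lit 0) .nil) .nil))) 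
(.lf (nat_lit 590496) (.g (nat_lit 1852) (.e (nat_lit 532515) (nat_lit 3) (.e (nat_lit 114715) (nat_lit 22) (.e (nat_lit 90170) (nat_lit 13) (.e (nat_lit 172067) (nat_lit 3) (.e (nat_lit 204805) (nat_lit 0) .nil))))) (.g (nat_lit 0) (.e (nat_lit 398120) (nat_lit 0) .nil) .nil)))) (.nd (nat_lit 9) 
(.lf (nat_lit 590240) (.g (nat_lit 3339) (.e (nat_lit 532513) (nat_lit 3) (.e (nat_lit 114714) (nat_lit 22) (.e (nat_lit 90172) (nat_lit 14) (.e (nat_lit 180244) (nat_lit 5) (.e (nat_lit 532499) (nat_lit 1) (.e (nat_lit 57687) (nat_lit 156) (.e (nat_lit 163850) (nat_lit 0) (.e (nat_lit 3252) (nat_lit 197) .nil)))))))) (.g (nat_lit 1) (.e (nat_lit 397548) (nat_lit 0) .nil) .nil))) 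
(.lf (nat_lit 590752) (.g (nat_lit 3763) (.e (nat_lit 532523) (nat_lit 7) (.e (nat_lit 319531) (nat_lit 16) (.e (nat_lit 286735) (nat_lit 3) (.e (nat_lit 98370) (nat_lit 28) (.e (nat_lit 442392) (nat_lit 20) (.e (nat_lit 3238) (nat_lit 197) .nil)))))) (.g (nat_lit 1) (.e (nat_lit 398837) (nat_lit 0) .nil) .nil)))))) (.nd (nat_lit 7) (.nd (nat_lit 8) (.nd (nat_lit 9) 
(.lf (nat_lit 589920) (.g (nat_lit 1937) (.e (nat_lit 532504) (nat_lit 1) (.e (nat_lit 57851) (nat_lit 252) (.e (nat_lit 57446) (nat_lit 19) (.e (nat_lit 393229) (nat_lit 9) (.e (nat_lit 336088) (nat_lit 9) (.e (nat_lit 336259) (nat_lit 15) (.e (nat_lit 3252) (nat_lit 197) .nil))))))) (.g (nat_lit 1) (.e (nat_lit 397044) (nat_lit 0) .nil) .nil))) 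
(.lf (nat_lit 590432) (.g (nat_lit 1523) (.e (nat_lit 532514) (nat_lit 3) (.e (nat_lit 114719) (nat_lit 23) (.e (nat_lit 98333) (nat_lit 18) (.e (nat_lit 164396) (nat_lit 256) .nil)))) (.g (nat_lit 0) (.e (nat_lit 397939) (nat_lit 0) .nil) .nil)))) (.nd (nat_lit 9) 
(.lf (nat_lit 590176) (.g (nat_lit 1783) (.e (nat_lit 532513) (nat_lit 3) (.e (nat_lit 114714) (nat_lit 22) (.e (nat_lit 90167) (nat_lit 13) (.e (nat_lit 172067) (nat_lit 3) (.e (nat_lit 204817) (nat_lit 17) .nil))))) (.g (nat_lit 0) (.e (nat_lit 397457) (nat_lit 0) .nil) .nil))) 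
(.lf (nat_lit 590688) (.g (nat_lit 2525) (.e (nat_lit 532523) (nat_lit 7) (.e (nat_lit 319528) (nat_lit 16) (.e (nat_lit 286735) (nat_lit 3) (.e (nat_lit 98359) (nat_lit 26) (.e (nat_lit 426275) (nat_lit 10) .nil))))) (.g (nat_lit 0) (.e (nat_lit 398764) (nat_lit 0) .nil) .nil))))) (.nd (nat_lit 8) (.nd (nat_lit 9) 
(.lf (nat_lit 590048) (.g (nat_lit 1197) (.e (nat_lit 532508) (nat_lit 2) (.e (nat_lit 106534) (nat_lit 11) (.e (nat_lit 16413) (nat_lit 2) (.e (nat_lit 196674) (nat_lit 15) (.e (nat_lit 89856) (nat_lit 0) (.e (nat_lit 3233) (nat_lit 197) .nil)))))) (.g (nat_lit 1) (.e (nat_lit 397210) (nat_lit 0) .nil) .nil))) 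
(.lf (nat_lit 590560) (.g (nat_lit 2229) (.e (nat_lit 532515) (nat_lit 3) (.e (nat_lit 114718) (nat_lit 23) (.e (nat_lit 98334) (nat_lit 18) (.e (nat_lit 164398) (nat_lit 256) (.e (nat_lit 57379) (nat_lit 3) .nil))))) (.g (nat_lit 0) (.e (nat_lit 398489) (nat_lit 0) .nil) .nil)))) (.nd (nat_lit 9) 
(.lf (nat_lit 590304) (.g (nat_lit 2598) (.e (nat_lit 532513) (nat_lit 3) (.e (nat_lit 114714) (nat_lit 22) (.e (nat_lit 90174) (nat_lit 14) (.e (nat_lit 180243) (nat_lit 5) (.e (nat_lit 532501) (nat_lit 1) (.e (nat_lit 57651) (nat_lit 152) (.e (nat_lit 2719) (nat_lit 171) (.e (nat_lit 229433) (nat_lit 25) .nil)))))))) (.g (nat_lit 1) (.e (nat_lit 397632) (nat_lit 0) .nil) .nil))) 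
(.lf (nat_lit 590816) (.g (nat_lit 3194) (.e (nat_lit 532523) (nat_lit 7) (.e (nat_lit 319533) (nat_lit 16) (.e (nat_lit 286735) (nat_lit 3) (.e (nat_lit 98370) (nat_lit 28) (.e (nat_lit 442405) (nat_lit 20) .nil))))) (.g (nat_lit 0) (.e (nat_lit 398915) (nat_lit 0) .nil) .nil)))))))) (.nd (nat_lit 5) (.nd (nat_lit 6) (.nd (nat_lit 7) (.nd (nat_lit 8) (.nd (nat_lit 9) 
(.lf (nat_lit 589840) (.g (nat_lit 1946) (.e (nat_lit 532504) (nat_lit 1) (.e (nat_lit 57692) (nat_lit 156) (.e (nat_lit 163874) (nat_lit 3) (.e (nat_lit 204837) (nat_lit 20) (.e (nat_lit 114716) (nat_lit 22) .nil))))) (.g (nat_lit 0) (.e (nat_lit 396949) (nat_lit 0) .nil) .nil))) 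
(.lf (nat_lit 590352) (.g (nat_lit 2924) (.e (nat_lit 532513) (nat_lit 3) (.e (nat_lit 114718) (nat_lit 23) (.e (nat_lit 98356) (nat_lit 26) (.e (nat_lit 426436) (nat_lit 18) (.e (nat_lit 98334) (nat_lit 18) (.e (nat_lit 164305) (nat_lit 226) (.e (nat_lit 2612) (nat_lit 163) (.e (nat_lit 163964) (nat_lit 25) .nil)))))))) (.g (nat_lit 1) (.e (nat_lit 397697) (nat_lit 0) .nil) .nil)))) 
(.nd (nat_lit 9) 
(.lf (nat_lit 590096) (.g (nat_lit 1026) (.e (nat_lit 532510) (nat_lit 2) (.e (nat_lit 106536) (nat_lit 11) (.e (nat_lit 16413) (nat_lit 2) (.e (nat_lit 196674) (nat_lit 15) (.e (nat_lit 89856) (nat_lit 0) (.e (nat_lit 3254) (nat_lit 197) .nil)))))) (.g (nat_lit 1) (.e (nat_lit 397270) (nat_lit 0) .nil) .nil))) 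
(.lf (nat_lit 590608) (.g (nat_lit 3509) (.e (nat_lit 532515) (nat_lit 3) (.e (nat_lit 114719) (nat_lit 23) (.e (nat_lit 98365) (nat_lit 26) (.e (nat_lit 426133) (nat_lit 3) (.e (nat_lit 212736) (nat_lit 7) (.e (nat_lit 409616) (nat_lit 10) (.e (nat_lit 604) (nat_lit 45) .nil))))))) (.g (nat_lit 1) (.e (nat_lit 398598) (nat_lit 0) .nil) .nil))))) (.nd (nat_lit 8) (.nd (nat_lit 9) 
(.lf (nat_lit 589968) (.g (nat_lit 2961) (.e (nat_lit 532504) (nat_lit 1) (.e (nat_lit 57854) (nat_lit 252) (.e (nat_lit 57373) (nat_lit 2) (.e (nat_lit 90160) (nat_lit 11) (.e (nat_lit 24608) (nat_lit 3) .nil))))) (.g (nat_lit 0) (.e (nat_lit 397098) (nat_lit 0) .nil) .nil))) 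
(.lf (nat_lit 590480) (.g (nat_lit 2759) (.e (nat_lit 532515) (nat_lit 3) (.e (nat_lit 114698) (nat_lit 11) (.e (nat_lit 426123) (nat_lit 2) (.e (nat_lit 196681) (nat_lit 17) (.e (nat_lit 131123) (nat_lit 12) (.e (nat_lit 385068) (nat_lit 26) .nil)))))) (.g (nat_lit 1) (.e (nat_lit 398048) (nat_lit 0) .nil) .nil)))) (.nd (nat_lit 9) 
(.lf (nat_lit 590224) (.g (nat_lit 2703) (.e (nat_lit 532513) (nat_lit 3) (.e (nat_lit 114714) (nat_lit 22) (.e (nat_lit 90172) (nat_lit 14) (.e (nat_lit 180243) (nat_lit 5) (.e (nat_lit 532504) (nat_lit 1) (.e (nat_lit 57663) (nat_lit 152) (.e (nat_lit 2717) (nat_lit 171) (.e (nat_lit 229434) (nat_lit 25) .nil)))))))) (.g (nat_lit 1) (.e (nat_lit 397527) (nat_lit 0) .nil) .nil))) 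
(.lf (nat_lit 590736) (.g (nat_lit 1742) (.e (nat_lit 532523) (nat_lit 7) (.e (nat_lit 319531) (nat_lit 16) (.e (nat_lit 286733) (nat_lit 2) (.e (nat_lit 90183) (nat_lit 17) .nil)))) (.g (nat_lit 0) (.e (nat_lit 398821) (nat_lit 0) .nil) .nil)))))) (.nd (nat_lit 7) (.nd (nat_lit 8) (.nd (nat_lit 9) 
(.lf (nat_lit 589904) (.g (nat_lit 2680) (.e (nat_lit 532504) (nat_lit 1) (.e (nat_lit 57851) (nat_lit 252) (.e (nat_lit 57406) (nat_lit 12) (.e (nat_lit 336456) (nat_lit 34) (.e (nat_lit 483383) (nat_lit 23) (.e (nat_lit 336261) (nat_lit 15) (.e (nat_lit 3252) (nat_lit 197) .nil))))))) (.g (nat_lit 1) (.e (nat_lit 397028) (nat_lit 0) .nil) .nil))) 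
(.lf (nat_lit 590416) (.g (nat_lit 2145) (.e (nat_lit 532514) (nat_lit 3) (.e (nat_lit 114718) (nat_lit 23) (.e (nat_lit 98333) (nat_lit 18) (.e (nat_lit 164398) (nat_lit 256) (.e (nat_lit 57375) (nat_lit 2) .nil))))) (.g (nat_lit 0) (.e (nat_lit 397922) (nat_lit 0) .nil) .nil)))) (.nd (nat_lit 9) 
(.lf (nat_lit 590160) (.g (nat_lit 2202) (.e (nat_lit 532513) (nat_lit 3) (.e (nat_lit 114698) (nat_lit 11) (.e (nat_lit 426133) (nat_lit 3) (.e (nat_lit 204865) (nat_lit 28) (.e (nat_lit 352262) (nat_lit 0) .nil))))) (.g (nat_lit 0) (.e (nat_lit 397391) (nat_lit 0) .nil) .nil))) 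
(.lf (nat_lit 590672) (.g (nat_lit 2450) (.e (nat_lit 532523) (nat_lit 7) (.e (nat_lit 319490) (nat_lit 0) (.e (nat_lit 5664) (nat_lit 312) (.e (nat_lit 2661) (nat_lit 167) (.e (nat_lit 196667) (nat_lit 14) .nil))))) (.g (nat_lit 0) (.e (nat_lit 398735) (nat_lit 0) .nil) .nil))))) (.nd (nat_lit 8) (.nd (nat_lit 9) 
(.lf (nat_lit 590032) (.g (nat_lit 731) (.e (nat_lit 532507) (nat_lit 2) (.e (nat_lit 106534) (nat_lit 11) (.e (nat_lit 16413) (nat_lit 2) (.e (nat_lit 196672) (nat_lit 15) .nil)))) (.g (nat_lit 0) (.e (nat_lit 397181) (nat_lit 0) .nil) .nil))) 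
(.lf (nat_lit 590544) (.g (nat_lit 2846) (.e (nat_lit 532515) (nat_lit 3) (.e (nat_lit 114716) (nat_lit 22) (.e (nat_lit 90174) (nat_lit 14) (.e (nat_lit 180243) (nat_lit 5) (.e (nat_lit 532504) (nat_lit 1) (.e (nat_lit 57685) (nat_lit 156) (.e (nat_lit 163844) (nat_lit 0) (.e (nat_lit 3248) (nat_lit 197) .nil)))))))) (.g (nat_lit 1) (.e (nat_lit 398424) (nat_lit 0) .nil) .nil)))) 
(.nd (nat_lit 9) 
(.lf (nat_lit 590288) (.g (nat_lit 539) (.e (nat_lit 532513) (nat_lit 3) (.e (nat_lit 114714) (nat_lit 22) (.e (nat_lit 90173) (nat_lit 14) .nil))) (.g (nat_lit 0) (.e (nat_lit 397612) (nat_lit 0) .nil) .nil))) 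
(.lf (nat_lit 590800) (.g (nat_lit 2972) (.e (nat_lit 532523) (nat_lit 7) (.e (nat_lit 319533) (nat_lit 16) (.e (nat_lit 286735) (nat_lit 3) (.e (nat_lit 98355) (nat_lit 26) (.e (nat_lit 426272) (nat_lit 10) .nil))))) (.g (nat_lit 0) (.e (nat_lit 398899) (nat_lit 0) .nil) .nil))))))) (.nd (nat_lit 6) (.nd (nat_lit 7) (.nd (nat_lit 8) (.nd (nat_lit 9) 
(.lf (nat_lit 589872) (.g (nat_lit 2344) (.e (nat_lit 532504) (nat_lit 1) (.e (nat_lit 57851) (nat_lit 252) (.e (nat_lit 57406) (nat_lit 12) (.e (nat_lit 336454) (nat_lit 34) (.e (nat_lit 483383) (nat_lit 23) (.e (nat_lit 336240) (nat_lit 15) (.e (nat_lit 3239) (nat_lit 197) .nil))))))) (.g (nat_lit 1) (.e (nat_lit 396996) (nat_lit 0) .nil) .nil))) 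
(.lf (nat_lit 590384) (.g (nat_lit 4011) (.e (nat_lit 532513) (nat_lit 3) (.e (nat_lit 114719) (nat_lit 23) (.e (nat_lit 98384) (nat_lit 32) (.e (nat_lit 475179) (nat_lit 24) (.e (nat_lit 516117) (nat_lit 1) (.e (nat_lit 164305) (nat_lit 226) (.e (nat_lit 2612) (nat_lit 163) (.e (nat_lit 163964) (nat_lit 25) .nil)))))))) (.g (nat_lit 1) (.e (nat_lit 397774) (nat_lit 0) .nil) .nil)))) 
(.nd (nat_lit 9) 
(.lf (nat_lit 590128) (.g (nat_lit 749) (.e (nat_lit 532511) (nat_lit 2) (.e (nat_lit 106536) (nat_lit 11) (.e (nat_lit 16413) (nat_lit 2) (.e (nat_lit 196672) (nat_lit 15) (.e (nat_lit 89856) (nat_lit 0) .nil))))) (.g (nat_lit 0) (.e (nat_lit 397308) (nat_lit 0) .nil) .nil))) 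
(.lf (nat_lit 590640) (.g (nat_lit 1301) (.e (nat_lit 532522) (nat_lit 7) (.e (nat_lit 319529) (nat_lit 16) (.e (nat_lit 286733) (nat_lit 2) (.e (nat_lit 90168) (nat_lit 13) .nil)))) (.g (nat_lit 0) (.e (nat_lit 398694) (nat_lit 0) .nil) .nil))))) (.nd (nat_lit 8) (.nd (nat_lit 9) 
(.lf (nat_lit 590000) (.g (nat_lit 2223) (.e (nat_lit 532504) (nat_lit 1) (.e (nat_lit 57931) (nat_lit 282) (.e (nat_lit 163869) (nat_lit 2) (.e (nat_lit 196666) (nat_lit 13) (.e (nat_lit 65569) (nat_lit 3) .nil))))) (.g (nat_lit 0) (.e (nat_lit 397140) (nat_lit 0) .nil) .nil))) 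
(.lf (nat_lit 590512) (.g (nat_lit 3749) (.e (nat_lit 532515) (nat_lit 3) (.e (nat_lit 114716) (nat_lit 22) (.e (nat_lit 90172) (nat_lit 14) (.e (nat_lit 180243) (nat_lit 5) (.e (nat_lit 532499) (nat_lit 1) (.e (nat_lit 57688) (nat_lit 156) (.e (nat_lit 163844) (nat_lit 0) (.e (nat_lit 3248) (nat_lit 197) .nil)))))))) (.g (nat_lit 1) (.e (nat_lit 398193) (nat_lit 0) .nil) .nil)))) 
(.nd (nat_lit 9) 
(.lf (nat_lit 590256) (.g (nat_lit 2510) (.e (nat_lit 532513) (nat_lit 3) (.e (nat_lit 114714) (nat_lit 22) (.e (nat_lit 90172) (nat_lit 14) (.e (nat_lit 180244) (nat_lit 5) (.e (nat_lit 532503) (nat_lit 1) (.e (nat_lit 57651) (nat_lit 152) (.e (nat_lit 2715) (nat_lit 171) (.e (nat_lit 229433) (nat_lit 25) .nil)))))))) (.g (nat_lit 1) (.e (nat_lit 397573) (nat_lit 0) .nil) .nil))) 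
(.lf (nat_lit 590768) (.g (nat_lit 756) (.e (nat_lit 532523) (nat_lit 7) (.e (nat_lit 319533) (nat_lit 16) (.e (nat_lit 286722) (nat_lit 0) (.e (nat_lit 1812) (nat_lit 120) .nil)))) (.g (nat_lit 0) (.e (nat_lit 398854) (nat_lit 0) .nil) .nil)))))) (.nd (nat_lit 7) (.nd (nat_lit 8) (.nd (nat_lit 9) 
(.lf (nat_lit 589936) (.g (nat_lit 3905) (.e (nat_lit 532504) (nat_lit 1) (.e (nat_lit 57852) (nat_lit 252) (.e (nat_lit 57377) (nat_lit 3) (.e (nat_lit 98317) (nat_lit 9) (.e (nat_lit 336027) (nat_lit 3) (.e (nat_lit 98341) (nat_lit 20) (.e (nat_lit 221204) (nat_lit 20) (.e (nat_lit 3253) (nat_lit 197) .nil)))))))) (.g (nat_lit 1) (.e (nat_lit 397060) (nat_lit 0) .nil) .nil))) 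
(.lf (nat_lit 590448) (.g (nat_lit 932) (.e (nat_lit 532514) (nat_lit 3) (.e (nat_lit 114719) (nat_lit 23) (.e (nat_lit 98363) (nat_lit 26) .nil))) (.g (nat_lit 0) (.e (nat_lit 397955) (nat_lit 0) .nil) .nil)))) (.nd (nat_lit 9) 
(.lf (nat_lit 590192) (.g (nat_lit 2771) (.e (nat_lit 532513) (nat_lit 3) (.e (nat_lit 114714) (nat_lit 22) (.e (nat_lit 90170) (nat_lit 13) (.e (nat_lit 172067) (nat_lit 3) (.e (nat_lit 204821) (nat_lit 17) .nil))))) (.g (nat_lit 0) (.e (nat_lit 397483) (nat_lit 0) .nil) .nil))) 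
(.lf (nat_lit 590704) (.g (nat_lit 1644) (.e (nat_lit 532523) (nat_lit 7) (.e (nat_lit 319529) (nat_lit 16) (.e (nat_lit 286735) (nat_lit 3) (.e (nat_lit 98364) (nat_lit 26) .nil)))) (.g (nat_lit 0) (.e (nat_lit 398783) (nat_lit 0) .nil) .nil))))) (.nd (nat_lit 8) (.nd (nat_lit 9) 
(.lf (nat_lit 590064) (.g (nat_lit 1713) (.e (nat_lit 532508) (nat_lit 2) (.e (nat_lit 106536) (nat_lit 11) (.e (nat_lit 16417) (nat_lit 3) (.e (nat_lit 204854) (nat_lit 26) (.e (nat_lit 336208) (nat_lit 12) .nil))))) (.g (nat_lit 0) (.e (nat_lit 397230) (nat_lit 0) .nil) .nil))) 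
(.lf (nat_lit 590576) (.g (nat_lit 1042) (.e (nat_lit 532515) (nat_lit 3) (.e (nat_lit 114719) (nat_lit 23) (.e (nat_lit 98335) (nat_lit 18) (.e (nat_lit 164403) (nat_lit 256) .nil)))) (.g (nat_lit 0) (.e (nat_lit 398529) (nat_lit 0) .nil) .nil)))) (.nd (nat_lit 9) 
(.lf (nat_lit 590320) (.g (nat_lit 2330) (.e (nat_lit 532513) (nat_lit 3) (.e (nat_lit 114714) (nat_lit 22) (.e (nat_lit 90174) (nat_lit 14) (.e (nat_lit 180243) (nat_lit 5) (.e (nat_lit 532503) (nat_lit 1) (.e (nat_lit 57651) (nat_lit 152) (.e (nat_lit 2715) (nat_lit 171) (.e (nat_lit 229433) (nat_lit 25) .nil)))))))) (.g (nat_lit 1) (.e (nat_lit 397652) (nat_lit 0) .nil) .nil))) 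
(.lf (nat_lit 590832) (.g (nat_lit 2285) (.e (nat_lit 532523) (nat_lit 7) (.e (nat_lit 319534) (nat_lit 16) (.e (nat_lit 286732) (nat_lit 2) (.e (nat_lit 90174) (nat_lit 14) (.e (nat_lit 188160) (nat_lit 43) .nil))))) (.g (nat_lit 0) (.e (nat_lit 398935) (nat_lit 0) .nil) .nil))))))))) (.nd (nat_lit 4) (.nd (nat_lit 5) (.nd (nat_lit 6) (.nd (nat_lit 7) (.nd (nat_lit 8) (.nd (nat_lit 9) 
(.lf (nat_lit 589832) (.g (nat_lit 2391) (.e (nat_lit 532504) (nat_lit 1) (.e (nat_lit 57691) (nat_lit 156) (.e (nat_lit 163875) (nat_lit 3) (.e (nat_lit 204837) (nat_lit 20) (.e (nat_lit 114718) (nat_lit 23) .nil))))) (.g (nat_lit 0) (.e (nat_lit 396937) (nat_lit 0) .nil) .nil))) 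
(.lf (nat_lit 590344) (.g (nat_lit 2253) (.e (nat_lit 532513) (nat_lit 3) (.e (nat_lit 114718) (nat_lit 23) (.e (nat_lit 98333) (nat_lit 18) (.e (nat_lit 164398) (nat_lit 256) (.e (nat_lit 57370) (nat_lit 2) .nil))))) (.g (nat_lit 0) (.e (nat_lit 397685) (nat_lit 0) .nil) .nil)))) (.nd (nat_lit 9) 
(.lf (nat_lit 590088) (.g (nat_lit 1637) (.e (nat_lit 532510) (nat_lit 2) (.e (nat_lit 106536) (nat_lit 11) (.e (nat_lit 16413) (nat_lit 2) (.e (nat_lit 196670) (nat_lit 14) (.e (nat_lit 81664) (nat_lit 41) .nil))))) (.g (nat_lit 0) (.e (nat_lit 397262) (nat_lit 0) .nil) .nil))) 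
(.lf (nat_lit 590600) (.g (nat_lit 1648) (.e (nat_lit 532515) (nat_lit 3) (.e (nat_lit 114719) (nat_lit 23) (.e (nat_lit 98365) (nat_lit 26) (.e (nat_lit 426124) (nat_lit 2) .nil)))) (.g (nat_lit 0) (.e (nat_lit 398582) (nat_lit 0) .nil) .nil))))) (.nd (nat_lit 8) (.nd (nat_lit 9) 
(.lf (nat_lit 589960) (.g (nat_lit 368) (.e (nat_lit 532504) (nat_lit 1) (.e (nat_lit 57852) (nat_lit 252) (.e (nat_lit 57417) (nat_lit 12) .nil))) (.g (nat_lit 0) (.e (nat_lit 397085) (nat_lit 0) .nil) .nil))) 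
(.lf (nat_lit 590472) (.g (nat_lit 1623) (.e (nat_lit 532515) (nat_lit 3) (.e (nat_lit 114698) (nat_lit 11) (.e (nat_lit 426122) (nat_lit 2) (.e (nat_lit 196672) (nat_lit 15) (.e (nat_lit 81922) (nat_lit 0) (.e (nat_lit 3253) (nat_lit 197) .nil)))))) (.g (nat_lit 1) (.e (nat_lit 398034) (nat_lit 0) .nil) .nil)))) (.nd (nat_lit 9) 
(.lf (nat_lit 590216) (.g (nat_lit 2516) (.e (nat_lit 532513) (nat_lit 3) (.e (nat_lit 114714) (nat_lit 22) (.e (nat_lit 90172) (nat_lit 14) (.e (nat_lit 180243) (nat_lit 5) (.e (nat_lit 532503) (nat_lit 1) (.e (nat_lit 57687) (nat_lit 156) (.e (nat_lit 163850) (nat_lit 0) (.e (nat_lit 3252) (nat_lit 197) .nil)))))))) (.g (nat_lit 1) (.e (nat_lit 397516) (nat_lit 0) .nil) .nil))) 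
(.lf (nat_lit 590728) (.g (nat_lit 1533) (.e (nat_lit 532523) (nat_lit 7) (.e (nat_lit 319531) (nat_lit 16) (.e (nat_lit 286733) (nat_lit 2) (.e (nat_lit 90134) (nat_lit 9) .nil)))) (.g (nat_lit 0) (.e (nat_lit 398810) (nat_lit 0) .nil) .nil)))))) (.nd (nat_lit 7) (.nd (nat_lit 8) (.nd (nat_lit 9) 
(.lf (nat_lit 589896) (.g (nat_lit 2013) (.e (nat_lit 532504) (nat_lit 1) (.e (nat_lit 57851) (nat_lit 252) (.e (nat_lit 57406) (nat_lit 12) (.e (nat_lit 336456) (nat_lit 34) (.e (nat_lit 483383) (nat_lit 23) (.e (nat_lit 336257) (nat_lit 15) (.e (nat_lit 3248) (nat_lit 197) .nil))))))) (.g (nat_lit 1) (.e (nat_lit 397020) (nat_lit 0) .nil) .nil))) 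
(.lf (nat_lit 590408) (.g (nat_lit 1690) (.e (nat_lit 532514) (nat_lit 3) (.e (nat_lit 114716) (nat_lit 22) (.e (nat_lit 90172) (nat_lit 14) (.e (nat_lit 180244) (nat_lit 5) (.e (nat_lit 532575) (nat_lit 17) (.e (nat_lit 7098) (nat_lit 380) (.e (nat_lit 171776) (nat_lit 86) .nil))))))) (.g (nat_lit 1) (.e (nat_lit 397900) (nat_lit 0) .nil) .nil)))) (.nd (nat_lit 9) 
(.lf (nat_lit 590152) (.g (nat_lit 477) (.e (nat_lit 532513) (nat_lit 3) (.e (nat_lit 114698) (nat_lit 11) (.e (nat_lit 426123) (nat_lit 2) .nil))) (.g (nat_lit 0) (.e (nat_lit 397366) (nat_lit 0) .nil) .nil))) 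
(.lf (nat_lit 590664) (.g (nat_lit 990) (.e (nat_lit 532522) (nat_lit 7) (.e (nat_lit 319533) (nat_lit 16) (.e (nat_lit 286725) (nat_lit 0) .nil))) (.g (nat_lit 0) (.e (nat_lit 398722) (nat_lit 0) .nil) .nil))))) (.nd (nat_lit 8) (.nd (nat_lit 9) 
(.lf (nat_lit 590024) (.g (nat_lit 1718) (.e (nat_lit 532506) (nat_lit 2) (.e (nat_lit 106534) (nat_lit 11) (.e (nat_lit 16412) (nat_lit 2) (.e (nat_lit 196681) (nat_lit 17) .nil)))) (.g (nat_lit 0) (.e (nat_lit 397167) (nat_lit 0) .nil) .nil))) 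
(.lf (nat_lit 590536) (.g (nat_lit 2714) (.e (nat_lit 532515) (nat_lit 3) (.e (nat_lit 114716) (nat_lit 22) (.e (nat_lit 90174) (nat_lit 14) (.e (nat_lit 180243) (nat_lit 5) (.e (nat_lit 532501) (nat_lit 1) (.e (nat_lit 57685) (nat_lit 156) (.e (nat_lit 163843) (nat_lit 0) (.e (nat_lit 3248) (nat_lit 197) .nil)))))))) (.g (nat_lit 1) (.e (nat_lit 398374) (nat_lit 0) .nil) .nil)))) 
(.nd (nat_lit 9) 
(.lf (nat_lit 590280) (.g (nat_lit 2605) (.e (nat_lit 532513) (nat_lit 3) (.e (nat_lit 114714) (nat_lit 22) (.e (nat_lit 90172) (nat_lit 14) (.e (nat_lit 180244) (nat_lit 5) (.e (nat_lit 532575) (nat_lit 17) (.e (nat_lit 7105) (nat_lit 380) (.e (nat_lit 171776) (nat_lit 86) .nil))))))) (.g (nat_lit 1) (.e (nat_lit 397603) (nat_lit 0) .nil) .nil))) 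
(.lf (nat_lit 590792) (.g (nat_lit 2587) (.e (nat_lit 532523) (nat_lit 7) (.e (nat_lit 319533) (nat_lit 16) (.e (nat_lit 286734) (nat_lit 3) (.e (nat_lit 98359) (nat_lit 26) (.e (nat_lit 426288) (nat_lit 10) .nil))))) (.g (nat_lit 0) (.e (nat_lit 398891) (nat_lit 0) .nil) .nil))))))) (.nd (nat_lit 6) (.nd (nat_lit 7) (.nd (nat_lit 8) (.nd (nat_lit 9) 
(.lf (nat_lit 589864) (.g (nat_lit 2288) (.e (nat_lit 532504) (nat_lit 1) (.e (nat_lit 57851) (nat_lit 252) (.e (nat_lit 57406) (nat_lit 12) (.e (nat_lit 336367) (nat_lit 27) (.e (nat_lit 426542) (nat_lit 29) (.e (nat_lit 352266) (nat_lit 0) (.e (nat_lit 3231) (nat_lit 197) .nil))))))) (.g (nat_lit 1) (.e (nat_lit 396988) (nat_lit 0) .nil) .nil))) 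
(.lf (nat_lit 590376) (.g (nat_lit 3982) (.e (nat_lit 532513) (nat_lit 3) (.e (nat_lit 114719) (nat_lit 23) (.e (nat_lit 98356) (nat_lit 26) (.e (nat_lit 426438) (nat_lit 18) (.e (nat_lit 98334) (nat_lit 18) (.e (nat_lit 164305) (nat_lit 226) (.e (nat_lit 2612) (nat_lit 163) (.e (nat_lit 163964) (nat_lit 25) .nil)))))))) (.g (nat_lit 1) (.e (nat_lit 397742) (nat_lit 0) .nil) .nil)))) 
(.nd (nat_lit 9) 
(.lf (nat_lit 590120) (.g (nat_lit 883) (.e (nat_lit 532511) (nat_lit 2) (.e (nat_lit 106534) (nat_lit 11) (.e (nat_lit 16484) (nat_lit 27) (.e (nat_lit 336051) (nat_lit 6) .nil)))) (.g (nat_lit 0) (.e (nat_lit 397298) (nat_lit 0) .nil) .nil))) 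
(.lf (nat_lit 590632) (.g (nat_lit 3030) (.e (nat_lit 532515) (nat_lit 3) (.e (nat_lit 114719) (nat_lit 23) (.e (nat_lit 98386) (nat_lit 32) (.e (nat_lit 475178) (nat_lit 24) (.e (nat_lit 516120) (nat_lit 1) (.e (nat_lit 164329) (nat_lit 230) (.e (nat_lit 163850) (nat_lit 0) (.e (nat_lit 3252) (nat_lit 197) .nil)))))))) (.g (nat_lit 1) (.e (nat_lit 398665) (nat_lit 0) .nil) .nil))))) 
(.nd (nat_lit 8) (.nd (nat_lit 9) 
(.lf (nat_lit 589992) (.g (nat_lit 2896) (.e (nat_lit 532504) (nat_lit 1) (.e (nat_lit 57929) (nat_lit 282) (.e (nat_lit 163869) (nat_lit 2) (.e (nat_lit 196670) (nat_lit 14) (.e (nat_lit 73746) (nat_lit 3) (.e (nat_lit 516127) (nat_lit 2) (.e (nat_lit 213035) (nat_lit 12) (.e (nat_lit 163964) (nat_lit 25) .nil)))))))) (.g (nat_lit 1) (.e (nat_lit 397129) (nat_lit 0) .nil) .nil))) 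
(.lf (nat_lit 590504) (.g (nat_lit 1639) (.e (nat_lit 532515) (nat_lit 3) (.e (nat_lit 114716) (nat_lit 22) (.e (nat_lit 90168) (nat_lit 13) (.e (nat_lit 172067) (nat_lit 3) (.e (nat_lit 204805) (nat_lit 0) .nil))))) (.g (nat_lit 0) (.e (nat_lit 398168) (nat_lit 0) .nil) .nil)))) (.nd (nat_lit 9) 
(.lf (nat_lit 590248) (.g (nat_lit 2958) (.e (nat_lit 532513) (nat_lit 3) (.e (nat_lit 114714) (nat_lit 22) (.e (nat_lit 90172) (nat_lit 14) (.e (nat_lit 180244) (nat_lit 5) (.e (nat_lit 532501) (nat_lit 1) (.e (nat_lit 57662) (nat_lit 152) (.e (nat_lit 2715) (nat_lit 171) (.e (nat_lit 229433) (nat_lit 25) .nil)))))))) (.g (nat_lit 1) (.e (nat_lit 397558) (nat_lit 0) .nil) .nil))) 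
(.lf (nat_lit 590760) (.g (nat_lit 355) (.e (nat_lit 532523) (nat_lit 7) (.e (nat_lit 319532) (nat_lit 16) (.e (nat_lit 286733) (nat_lit 2) .nil))) (.g (nat_lit 0) (.e (nat_lit 398845) (nat_lit 0) .nil) .nil)))))) (.nd (nat_lit 7) (.nd (nat_lit 8) (.nd (nat_lit 9) 
(.lf (nat_lit 589928) (.g (nat_lit 2586) (.e (nat_lit 532504) (nat_lit 1) (.e (nat_lit 57852) (nat_lit 252) (.e (nat_lit 57355) (nat_lit 0) (.e (nat_lit 1858) (nat_lit 124) (.e (nat_lit 557105) (nat_lit 14) (.e (nat_lit 180251) (nat_lit 10) (.e (nat_lit 573479) (nat_lit 13) (.e (nat_lit 65637) (nat_lit 15) (.e (nat_lit 3253) (nat_lit 197) .nil))))))))) (.g (nat_lit 1) (.e (nat_lit 397052) (nat_lit 0) .nil) .nil))) 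
(.lf (nat_lit 590440) (.g (nat_lit 4235) (.e (nat_lit 532514) (nat_lit 3) (.e (nat_lit 114719) (nat_lit 23) (.e (nat_lit 98350) (nat_lit 24) (.e (nat_lit 409617) (nat_lit 10) (.e (nat_lit 632) (nat_lit 50) (.e (nat_lit 573489) (nat_lit 14) (.e (nat_lit 81664) (nat_lit 5) .nil))))))) (.g (nat_lit 1) (.e (nat_lit 397947) (nat_lit 0) .nil) .nil)))) (.nd (nat_lit 9) 
(.lf (nat_lit 590184) (.g (nat_lit 2226) (.e (nat_lit 532513) (nat_lit 3) (.e (nat_lit 114714) (nat_lit 22) (.e (nat_lit 90170) (nat_lit 13) (.e (nat_lit 172064) (nat_lit 2) (.e (nat_lit 204544) (nat_lit 2) .nil))))) (.g (nat_lit 0) (.e (nat_lit 397473) (nat_lit 0) .nil) .nil))) 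
(.lf (nat_lit 590696) (.g (nat_lit 1523) (.e (nat_lit 532523) (nat_lit 7) (.e (nat_lit 319529) (nat_lit 16) (.e (nat_lit 286733) (nat_lit 2) (.e (nat_lit 90176) (nat_lit 15) .nil)))) (.g (nat_lit 0) (.e (nat_lit 398775) (nat_lit 0) .nil) .nil))))) (.nd (nat_lit 8) (.nd (nat_lit 9) 
(.lf (nat_lit 590056) (.g (nat_lit 1409) (.e (nat_lit 532508) (nat_lit 2) (.e (nat_lit 106536) (nat_lit 11) (.e (nat_lit 16412) (nat_lit 2) (.e (nat_lit 196672) (nat_lit 15) .nil)))) (.g (nat_lit 0) (.e (nat_lit 397221) (nat_lit 0) .nil) .nil))) 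
(.lf (nat_lit 590568) (.g (nat_lit 1403) (.e (nat_lit 532515) (nat_lit 3) (.e (nat_lit 114718) (nat_lit 23) (.e (nat_lit 98384) (nat_lit 32) (.e (nat_lit 475177) (nat_lit 24) .nil)))) (.g (nat_lit 0) (.e (nat_lit 398503) (nat_lit 0) .nil) .nil)))) (.nd (nat_lit 9) 
(.lf (nat_lit 590312) (.g (nat_lit 2633) (.e (nat_lit 532513) (nat_lit 3) (.e (nat_lit 114714) (nat_lit 22) (.e (nat_lit 90174) (nat_lit 14) (.e (nat_lit 180243) (nat_lit 5) (.e (nat_lit 532501) (nat_lit 1) (.e (nat_lit 57663) (nat_lit 152) (.e (nat_lit 2717) (nat_lit 171) (.e (nat_lit 229432) (nat_lit 25) .nil)))))))) (.g (nat_lit 1) (.e (nat_lit 397641) (nat_lit 0) .nil) .nil))) 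
(.lf (nat_lit 590824) (.g (nat_lit 2730) (.e (nat_lit 532523) (nat_lit 7) (.e (nat_lit 319533) (nat_lit 16) (.e (nat_lit 286735) (nat_lit 3) (.e (nat_lit 98381) (nat_lit 31) (.e (nat_lit 466955) (nat_lit 20) .nil))))) (.g (nat_lit 0) (.e (nat_lit 398923) (nat_lit 0) .nil) .nil)))))))) (.nd (nat_lit 5) (.nd (nat_lit 6) (.nd (nat_lit 7) (.nd (nat_lit 8) (.nd (nat_lit 9) 
(.lf (nat_lit 589848) (.g (nat_lit 4004) (.e (nat_lit 532504) (nat_lit 1) (.e (nat_lit 57692) (nat_lit 156) (.e (nat_lit 163875) (nat_lit 3) (.e (nat_lit 204838) (nat_lit 20) (.e (nat_lit 114718) (nat_lit 23) (.e (nat_lit 98367) (nat_lit 27) (.e (nat_lit 434232) (nat_lit 23) .nil))))))) (.g (nat_lit 1) (.e (nat_lit 396957) (nat_lit 0) .nil) .nil))) 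
(.lf (nat_lit 590360) (.g (nat_lit 3906) (.e (nat_lit 532513) (nat_lit 3) (.e (nat_lit 114718) (nat_lit 23) (.e (nat_lit 98384) (nat_lit 32) (.e (nat_lit 475179) (nat_lit 24) (.e (nat_lit 516120) (nat_lit 1) (.e (nat_lit 164305) (nat_lit 226) (.e (nat_lit 2612) (nat_lit 163) (.e (nat_lit 163964) (nat_lit 25) .nil)))))))) (.g (nat_lit 1) (.e (nat_lit 397712) (nat_lit 0) .nil) .nil)))) 
(.nd (nat_lit 9) 
(.lf (nat_lit 590104) (.g (nat_lit 1925) (.e (nat_lit 532510) (nat_lit 2) (.e (nat_lit 106536) (nat_lit 11) (.e (nat_lit 16416) (nat_lit 3) (.e (nat_lit 204877) (nat_lit 31) (.e (nat_lit 376833) (nat_lit 0) (.e (nat_lit 3231) (nat_lit 197) .nil)))))) (.g (nat_lit 1) (.e (nat_lit 397278) (nat_lit 0) .nil) .nil))) 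
(.lf (nat_lit 590616) (.g (nat_lit 3012) (.e (nat_lit 532515) (nat_lit 3) (.e (nat_lit 114719) (nat_lit 23) (.e (nat_lit 98365) (nat_lit 26) (.e (nat_lit 426139) (nat_lit 3) (.e (nat_lit 204829) (nat_lit 18) (.e (nat_lit 57688) (nat_lit 156) (.e (nat_lit 163844) (nat_lit 0) (.e (nat_lit 3248) (nat_lit 197) .nil)))))))) (.g (nat_lit 1) (.e (nat_lit 398607) (nat_lit 0) .nil) .nil))))) 
(.nd (nat_lit 8) (.nd (nat_lit 9) 
(.lf (nat_lit 589976) (.g (nat_lit 3469) (.e (nat_lit 532504) (nat_lit 1) (.e (nat_lit 57854) (nat_lit 252) (.e (nat_lit 57406) (nat_lit 12) (.e (nat_lit 336454) (nat_lit 34) (.e (nat_lit 483385) (nat_lit 23) (.e (nat_lit 336260) (nat_lit 15) (.e (nat_lit 3254) (nat_lit 197) .nil))))))) (.g (nat_lit 1) (.e (nat_lit 397111) (nat_lit 0) .nil) .nil))) 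
(.lf (nat_lit 590488) (.g (nat_lit 2766) (.e (nat_lit 532515) (nat_lit 3) (.e (nat_lit 114698) (nat_lit 11) (.e (nat_lit 426139) (nat_lit 3) (.e (nat_lit 204852) (nat_lit 26) (.e (nat_lit 336208) (nat_lit 12) (.e (nat_lit 385068) (nat_lit 26) .nil)))))) (.g (nat_lit 1) (.e (nat_lit 398067) (nat_lit 0) .nil) .nil)))) (.nd (nat_lit 9) 
(.lf (nat_lit 590232) (.g (nat_lit 3393) (.e (nat_lit 532513) (nat_lit 3) (.e (nat_lit 114714) (nat_lit 22) (.e (nat_lit 90172) (nat_lit 14) (.e (nat_lit 180244) (nat_lit 5) (.e (nat_lit 532499) (nat_lit 1) (.e (nat_lit 57655) (nat_lit 152) (.e (nat_lit 2714) (nat_lit 171) (.e (nat_lit 229433) (nat_lit 25) .nil)))))))) (.g (nat_lit 1) (.e (nat_lit 397537) (nat_lit 0) .nil) .nil))) 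
(.lf (nat_lit 590744) (.g (nat_lit 1898) (.e (nat_lit 532523) (nat_lit 7) (.e (nat_lit 319531) (nat_lit 16) (.e (nat_lit 286735) (nat_lit 3) (.e (nat_lit 98357) (nat_lit 26) .nil)))) (.g (nat_lit 0) (.e (nat_lit 398829) (nat_lit 0) .nil) .nil)))))) (.nd (nat_lit 7) (.nd (nat_lit 8) (.nd (nat_lit 9) 
(.lf (nat_lit 589912) (.g (nat_lit 2696) (.e (nat_lit 532504) (nat_lit 1) (.e (nat_lit 57851) (nat_lit 252) (.e (nat_lit 57406) (nat_lit 12) (.e (nat_lit 336456) (nat_lit 34) (.e (nat_lit 483391) (nat_lit 23) (.e (nat_lit 336237) (nat_lit 15) (.e (nat_lit 3248) (nat_lit 197) .nil))))))) (.g (nat_lit 1) (.e (nat_lit 397036) (nat_lit 0) .nil) .nil))) 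
(.lf (nat_lit 590424) (.g (nat_lit 1548) (.e (nat_lit 532514) (nat_lit 3) (.e (nat_lit 114718) (nat_lit 23) (.e (nat_lit 98356) (nat_lit 26) (.e (nat_lit 426432) (nat_lit 17) .nil)))) (.g (nat_lit 0) (.e (nat_lit 397930) (nat_lit 0) .nil) .nil)))) (.nd (nat_lit 9) 
(.lf (nat_lit 590168) (.g (nat_lit 3790) (.e (nat_lit 532513) (nat_lit 3) (.e (nat_lit 114698) (nat_lit 11) (.e (nat_lit 426139) (nat_lit 3) (.e (nat_lit 204861) (nat_lit 26) (.e (nat_lit 336194) (nat_lit 12) (.e (nat_lit 385068) (nat_lit 26) .nil)))))) (.g (nat_lit 1) (.e (nat_lit 397410) (nat_lit 0) .nil) .nil))) 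
(.lf (nat_lit 590680) (.g (nat_lit 426) (.e (nat_lit 532523) (nat_lit 7) (.e (nat_lit 319538) (nat_lit 19) (.e (nat_lit 311314) (nat_lit 3) .nil))) (.g (nat_lit 0) (.e (nat_lit 398751) (nat_lit 0) .nil) .nil))))) (.nd (nat_lit 8) (.nd (nat_lit 9) 
(.lf (nat_lit 590040) (.g (nat_lit 2675) (.e (nat_lit 532507) (nat_lit 2) (.e (nat_lit 106536) (nat_lit 11) (.e (nat_lit 16416) (nat_lit 3) (.e (nat_lit 204876) (nat_lit 31) (.e (nat_lit 384768) (nat_lit 0) .nil))))) (.g (nat_lit 0) (.e (nat_lit 397194) (nat_lit 0) .nil) .nil))) 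
(.lf (nat_lit 590552) (.g (nat_lit 2328) (.e (nat_lit 532515) (nat_lit 3) (.e (nat_lit 114716) (nat_lit 22) (.e (nat_lit 90185) (nat_lit 17) (.e (nat_lit 237594) (nat_lit 3) (.e (nat_lit 204805) (nat_lit 0) (.e (nat_lit 7105) (nat_lit 380) (.e (nat_lit 171776) (nat_lit 86) .nil))))))) (.g (nat_lit 1) (.e (nat_lit 398466) (nat_lit 0) .nil) .nil)))) (.nd (nat_lit 9) 
(.lf (nat_lit 590296) (.g (nat_lit 2490) (.e (nat_lit 532513) (nat_lit 3) (.e (nat_lit 114714) (nat_lit 22) (.e (nat_lit 90174) (nat_lit 14) (.e (nat_lit 180243) (nat_lit 5) (.e (nat_lit 532499) (nat_lit 1) (.e (nat_lit 57657) (nat_lit 152) (.e (nat_lit 2719) (nat_lit 171) (.e (nat_lit 229433) (nat_lit 25) .nil)))))))) (.g (nat_lit 1) (.e (nat_lit 397623) (nat_lit 0) .nil) .nil))) 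
(.lf (nat_lit 590808) (.g (nat_lit 3583) (.e (nat_lit 532523) (nat_lit 7) (.e (nat_lit 319533) (nat_lit 16) (.e (nat_lit 286735) (nat_lit 3) (.e (nat_lit 98365) (nat_lit 26) (.e (nat_lit 426298) (nat_lit 11) (.e (nat_lit 458789) (nat_lit 23) .nil)))))) (.g (nat_lit 1) (.e (nat_lit 398907) (nat_lit 0) .nil) .nil))))))) (.nd (nat_lit 6) (.nd (nat_lit 7) (.nd (nat_lit 8) (.nd (nat_lit 9) 
(.lf (nat_lit 589880) (.g (nat_lit 2911) (.e (nat_lit 532504) (nat_lit 1) (.e (nat_lit 57851) (nat_lit 252) (.e (nat_lit 57406) (nat_lit 12) (.e (nat_lit 336456) (nat_lit 34) (.e (nat_lit 483379) (nat_lit 23) (.e (nat_lit 336238) (nat_lit 15) (.e (nat_lit 3248) (nat_lit 197) .nil))))))) (.g (nat_lit 1) (.e (nat_lit 397004) (nat_lit 0) .nil) .nil))) 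
(.lf (nat_lit 590392) (.g (nat_lit 4246) (.e (nat_lit 532514) (nat_lit 3) (.e (nat_lit 114698) (nat_lit 11) (.e (nat_lit 426123) (nat_lit 2) (.e (nat_lit 196666) (nat_lit 13) (.e (nat_lit 65624) (nat_lit 12) (.e (nat_lit 385068) (nat_lit 26) .nil)))))) (.g (nat_lit 1) (.e (nat_lit 397826) (nat_lit 0) .nil) .nil)))) (.nd (nat_lit 9) 
(.lf (nat_lit 590136) (.g (nat_lit 2959) (.e (nat_lit 532511) (nat_lit 2) (.e (nat_lit 106536) (nat_lit 11) (.e (nat_lit 16416) (nat_lit 3) (.e (nat_lit 204852) (nat_lit 26) (.e (nat_lit 336208) (nat_lit 12) .nil))))) (.g (nat_lit 0) (.e (nat_lit 397316) (nat_lit 0) .nil) .nil))) 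
(.lf (nat_lit 590648) (.g (nat_lit 1612) (.e (nat_lit 532522) (nat_lit 7) (.e (nat_lit 319530) (nat_lit 16) (.e (nat_lit 286733) (nat_lit 2) (.e (nat_lit 90175) (nat_lit 15) .nil)))) (.g (nat_lit 0) (.e (nat_lit 398703) (nat_lit 0) .nil) .nil))))) (.nd (nat_lit 8) (.nd (nat_lit 9) 
(.lf (nat_lit 590008) (.g (nat_lit 3707) (.e (nat_lit 532504) (nat_lit 1) (.e (nat_lit 57931) (nat_lit 282) (.e (nat_lit 163869) (nat_lit 2) (.e (nat_lit 196670) (nat_lit 14) (.e (nat_lit 73746) (nat_lit 3) (.e (nat_lit 516127) (nat_lit 2) (.e (nat_lit 213035) (nat_lit 12) (.e (nat_lit 163964) (nat_lit 25) .nil)))))))) (.g (nat_lit 1) (.e (nat_lit 397148) (nat_lit 0) .nil) .nil))) 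
(.lf (nat_lit 590520) (.g (nat_lit 4687) (.e (nat_lit 532515) (nat_lit 3) (.e (nat_lit 114716) (nat_lit 22) (.e (nat_lit 90172) (nat_lit 14) (.e (nat_lit 180244) (nat_lit 5) (.e (nat_lit 532499) (nat_lit 1) (.e (nat_lit 57688) (nat_lit 156) (.e (nat_lit 163844) (nat_lit 0) (.e (nat_lit 3248) (nat_lit 197) .nil)))))))) (.g (nat_lit 1) (.e (nat_lit 398247) (nat_lit 0) .nil) .nil)))) 
(.nd (nat_lit 9) 
(.lf (nat_lit 590264) (.g (nat_lit 2985) (.e (nat_lit 532513) (nat_lit 3) (.e (nat_lit 114714) (nat_lit 22) (.e (nat_lit 90172) (nat_lit 14) (.e (nat_lit 180244) (nat_lit 5) (.e (nat_lit 532503) (nat_lit 1) (.e (nat_lit 57661) (nat_lit 152) (.e (nat_lit 2715) (nat_lit 171) (.e (nat_lit 229433) (nat_lit 25) .nil)))))))) (.g (nat_lit 1) (.e (nat_lit 397585) (nat_lit 0) .nil) .nil))) 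
(.lf (nat_lit 590776) (.g (nat_lit 2726) (.e (nat_lit 532523) (nat_lit 7) (.e (nat_lit 319533) (nat_lit 16) (.e (nat_lit 286733) (nat_lit 2) (.e (nat_lit 90134) (nat_lit 9) (.e (nat_lit 3025) (nat_lit 187) .nil))))) (.g (nat_lit 0) (.e (nat_lit 398872) (nat_lit 0) .nil) .nil)))))) (.nd (nat_lit 7) (.nd (nat_lit 8) (.nd (nat_lit 9) 
(.lf (nat_lit 589944) (.g (nat_lit 1859) (.e (nat_lit 532504) (nat_lit 1) (.e (nat_lit 57852) (nat_lit 252) (.e (nat_lit 57406) (nat_lit 12) (.e (nat_lit 336377) (nat_lit 27) (.e (nat_lit 426524) (nat_lit 27) .nil))))) (.g (nat_lit 0) (.e (nat_lit 397069) (nat_lit 0) .nil) .nil))) 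
(.lf (nat_lit 590456) (.g (nat_lit 2392) (.e (nat_lit 532514) (nat_lit 3) (.e (nat_lit 114719) (nat_lit 23) (.e (nat_lit 98365) (nat_lit 26) (.e (nat_lit 426133) (nat_lit 3) (.e (nat_lit 204805) (nat_lit 0) (.e (nat_lit 7106) (nat_lit 380) (.e (nat_lit 171776) (nat_lit 86) .nil))))))) (.g (nat_lit 1) (.e (nat_lit 397963) (nat_lit 0) .nil) .nil)))) (.nd (nat_lit 9) 
(.lf (nat_lit 590200) (.g (nat_lit 3831) (.e (nat_lit 532513) (nat_lit 3) (.e (nat_lit 114714) (nat_lit 22) (.e (nat_lit 90172) (nat_lit 14) (.e (nat_lit 180243) (nat_lit 5) (.e (nat_lit 532499) (nat_lit 1) (.e (nat_lit 57655) (nat_lit 152) (.e (nat_lit 2615) (nat_lit 163) (.e (nat_lit 163962) (nat_lit 25) .nil)))))))) (.g (nat_lit 1) (.e (nat_lit 397496) (nat_lit 0) .nil) .nil))) 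
(.lf (nat_lit 590712) (.g (nat_lit 2301) (.e (nat_lit 532523) (nat_lit 7) (.e (nat_lit 319530) (nat_lit 16) (.e (nat_lit 286734) (nat_lit 3) (.e (nat_lit 98359) (nat_lit 26) (.e (nat_lit 426289) (nat_lit 10) .nil))))) (.g (nat_lit 0) (.e (nat_lit 398793) (nat_lit 0) .nil) .nil))))) (.nd (nat_lit 8) (.nd (nat_lit 9) 
(.lf (nat_lit 590072) (.g (nat_lit 1120) (.e (nat_lit 532510) (nat_lit 2) (.e (nat_lit 106534) (nat_lit 11) (.e (nat_lit 16413) (nat_lit 2) (.e (nat_lit 196672) (nat_lit 15) (.e (nat_lit 89856) (nat_lit 0) (.e (nat_lit 3248) (nat_lit 197) .nil)))))) (.g (nat_lit 1) (.e (nat_lit 397242) (nat_lit 0) .nil) .nil))) 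
(.lf (nat_lit 590584) (.g (nat_lit 5091) (.e (nat_lit 532515) (nat_lit 3) (.e (nat_lit 114719) (nat_lit 23) (.e (nat_lit 98354) (nat_lit 26) (.e (nat_lit 426436) (nat_lit 18) (.e (nat_lit 98335) (nat_lit 18) (.e (nat_lit 164305) (nat_lit 226) (.e (nat_lit 2612) (nat_lit 163) (.e (nat_lit 163964) (nat_lit 25) .nil)))))))) (.g (nat_lit 1) (.e (nat_lit 398547) (nat_lit 0) .nil) .nil)))) 
(.nd (nat_lit 9) 
(.lf (nat_lit 590328) (.g (nat_lit 2326) (.e (nat_lit 532513) (nat_lit 3) (.e (nat_lit 114714) (nat_lit 22) (.e (nat_lit 90174) (nat_lit 14) (.e (nat_lit 180243) (nat_lit 5) (.e (nat_lit 532504) (nat_lit 1) (.e (nat_lit 57651) (nat_lit 152) (.e (nat_lit 2719) (nat_lit 171) (.e (nat_lit 229433) (nat_lit 25) .nil)))))))) (.g (nat_lit 1) (.e (nat_lit 397662) (nat_lit 0) .nil) .nil))) 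
(.lf (nat_lit 590840) (.g (nat_lit 1871) (.e (nat_lit 532523) (nat_lit 7) (.e (nat_lit 319534) (nat_lit 16) (.e (nat_lit 286733) (nat_lit 2) (.e (nat_lit 90171) (nat_lit 14) .nil)))) (.g (nat_lit 0) (.e (nat_lit 398951) (nat_lit 0) .nil) .nil)))))))))) (.nd (nat_lit 3) (.nd (nat_lit 4) (.nd (nat_lit 5) (.nd (nat_lit 6) (.nd (nat_lit 7) (.nd (nat_lit 8) (.nd (nat_lit 9) 
(.lf (nat_lit 589828) (.g (nat_lit 3752) (.e (nat_lit 532504) (nat_lit 1) (.e (nat_lit 57690) (nat_lit 156) (.e (nat_lit 163875) (nat_lit 3) (.e (nat_lit 204837) (nat_lit 20) (.e (nat_lit 114719) (nat_lit 23) (.e (nat_lit 98367) (nat_lit 27) (.e (nat_lit 434232) (nat_lit 23) .nil))))))) (.g (nat_lit 1) (.e (nat_lit 396932) (nat_lit 0) .nil) .nil))) 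
(.lf (nat_lit 590340) (.g (nat_lit 1206) (.e (nat_lit 532513) (nat_lit 3) (.e (nat_lit 114714) (nat_lit 22) (.e (nat_lit 90174) (nat_lit 14) (.e (nat_lit 188160) (nat_lit 3) .nil)))) (.g (nat_lit 0) (.e (nat_lit 397677) (nat_lit 0) .nil) .nil)))) (.nd (nat_lit 9) 
(.lf (nat_lit 590084) (.g (nat_lit 1796) (.e (nat_lit 532510) (nat_lit 2) (.e (nat_lit 106536) (nat_lit 11) (.e (nat_lit 16412) (nat_lit 2) (.e (nat_lit 196672) (nat_lit 15) (.e (nat_lit 89856) (nat_lit 0) (.e (nat_lit 3244) (nat_lit 197) .nil)))))) (.g (nat_lit 1) (.e (nat_lit 397258) (nat_lit 0) .nil) .nil))) 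
(.lf (nat_lit 590596) (.g (nat_lit 1705) (.e (nat_lit 532515) (nat_lit 3) (.e (nat_lit 114719) (nat_lit 23) (.e (nat_lit 98365) (nat_lit 26) (.e (nat_lit 426115) (nat_lit 2) .nil)))) (.g (nat_lit 0) (.e (nat_lit 398568) (nat_lit 0) .nil) .nil))))) (.nd (nat_lit 8) (.nd (nat_lit 9) 
(.lf (nat_lit 589956) (.g (nat_lit 2680) (.e (nat_lit 532504) (nat_lit 1) (.e (nat_lit 57852) (nat_lit 252) (.e (nat_lit 57406) (nat_lit 12) (.e (nat_lit 336456) (nat_lit 34) (.e (nat_lit 491264) (nat_lit 26) .nil))))) (.g (nat_lit 0) (.e (nat_lit 397081) (nat_lit 0) .nil) .nil))) 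
(.lf (nat_lit 590468) (.g (nat_lit 2285) (.e (nat_lit 532515) (nat_lit 3) (.e (nat_lit 114697) (nat_lit 11) (.e (nat_lit 426137) (nat_lit 3) (.e (nat_lit 204865) (nat_lit 28) (.e (nat_lit 352262) (nat_lit 0) (.e (nat_lit 3253) (nat_lit 197) .nil)))))) (.g (nat_lit 1) (.e (nat_lit 398019) (nat_lit 0) .nil) .nil)))) (.nd (nat_lit 9) 
(.lf (nat_lit 590212) (.g (nat_lit 3365) (.e (nat_lit 532513) (nat_lit 3) (.e (nat_lit 114714) (nat_lit 22) (.e (nat_lit 90172) (nat_lit 14) (.e (nat_lit 180243) (nat_lit 5) (.e (nat_lit 532503) (nat_lit 1) (.e (nat_lit 57653) (nat_lit 152) (.e (nat_lit 2615) (nat_lit 163) (.e (nat_lit 163962) (nat_lit 25) .nil)))))))) (.g (nat_lit 1) (.e (nat_lit 397512) (nat_lit 0) .nil) .nil))) 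
(.lf (nat_lit 590724) (.g (nat_lit 1410) (.e (nat_lit 532523) (nat_lit 7) (.e (nat_lit 319530) (nat_lit 16) (.e (nat_lit 286735) (nat_lit 3) (.e (nat_lit 98380) (nat_lit 31) .nil)))) (.g (nat_lit 0) (.e (nat_lit 398805) (nat_lit 0) .nil) .nil)))))) (.nd (nat_lit 7) (.nd (nat_lit 8) (.nd (nat_lit 9) 
(.lf (nat_lit 589892) (.g (nat_lit 3057) (.e (nat_lit 532504) (nat_lit 1) (.e (nat_lit 57851) (nat_lit 252) (.e (nat_lit 57406) (nat_lit 12) (.e (nat_lit 336456) (nat_lit 34) (.e (nat_lit 483383) (nat_lit 23) (.e (nat_lit 336240) (nat_lit 15) (.e (nat_lit 3236) (nat_lit 197) .nil))))))) (.g (nat_lit 1) (.e (nat_lit 397016) (nat_lit 0) .nil) .nil))) 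
(.lf (nat_lit 590404) (.g (nat_lit 2109) (.e (nat_lit 532514) (nat_lit 3) (.e (nat_lit 114715) (nat_lit 22) (.e (nat_lit 90170) (nat_lit 13) (.e (nat_lit 172065) (nat_lit 3) (.e (nat_lit 204830) (nat_lit 18) (.e (nat_lit 57663) (nat_lit 152) (.e (nat_lit 2717) (nat_lit 171) (.e (nat_lit 229434) (nat_lit 25) .nil)))))))) (.g (nat_lit 1) (.e (nat_lit 397881) (nat_lit 0) .nil) .nil)))) 
(.nd (nat_lit 9) 
(.lf (nat_lit 590148) (.g (nat_lit 421) (.e (nat_lit 532513) (nat_lit 3) (.e (nat_lit 114698) (nat_lit 11) (.e (nat_lit 426116) (nat_lit 2) .nil))) (.g (nat_lit 0) (.e (nat_lit 397349) (nat_lit 0) .nil) .nil))) 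
(.lf (nat_lit 590660) (.g (nat_lit 2359) (.e (nat_lit 532522) (nat_lit 7) (.e (nat_lit 319531) (nat_lit 16) (.e (nat_lit 286733) (nat_lit 2) (.e (nat_lit 90134) (nat_lit 9) (.e (nat_lit 3028) (nat_lit 187) .nil))))) (.g (nat_lit 0) (.e (nat_lit 398718) (nat_lit 0) .nil) .nil))))) (.nd (nat_lit 8) (.nd (nat_lit 9) 
(.lf (nat_lit 590020) (.g (nat_lit 847) (.e (nat_lit 532505) (nat_lit 2) (.e (nat_lit 106536) (nat_lit 11) (.e (nat_lit 16415) (nat_lit 3) .nil))) (.g (nat_lit 0) (.e (nat_lit 397163) (nat_lit 0) .nil) .nil))) 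
(.lf (nat_lit 590532) (.g (nat_lit 3371) (.e (nat_lit 532515) (nat_lit 3) (.e (nat_lit 114716) (nat_lit 22) (.e (nat_lit 90174) (nat_lit 14) (.e (nat_lit 180243) (nat_lit 5) (.e (nat_lit 532499) (nat_lit 1) (.e (nat_lit 57686) (nat_lit 156) (.e (nat_lit 163843) (nat_lit 0) (.e (nat_lit 3248) (nat_lit 197) .nil)))))))) (.g (nat_lit 1) (.e (nat_lit 398349) (nat_lit 0) .nil) .nil)))) 
(.nd (nat_lit 9) 
(.lf (nat_lit 590276) (.g (nat_lit 3312) (.e (nat_lit 532513) (nat_lit 3) (.e (nat_lit 114714) (nat_lit 22) (.e (nat_lit 90172) (nat_lit 14) (.e (nat_lit 180244) (nat_lit 5) (.e (nat_lit 532504) (nat_lit 1) (.e (nat_lit 57663) (nat_lit 152) (.e (nat_lit 2715) (nat_lit 171) (.e (nat_lit 229433) (nat_lit 25) .nil)))))))) (.g (nat_lit 1) (.e (nat_lit 397599) (nat_lit 0) .nil) .nil))) 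
(.lf (nat_lit 590788) (.g (nat_lit 2063) (.e (nat_lit 532523) (nat_lit 7) (.e (nat_lit 319533) (nat_lit 16) (.e (nat_lit 286734) (nat_lit 3) (.e (nat_lit 98319) (nat_lit 17) (.e (nat_lit 7389) (nat_lit 393) .nil))))) (.g (nat_lit 0) (.e (nat_lit 398887) (nat_lit 0) .nil) .nil))))))) (.nd (nat_lit 6) (.nd (nat_lit 7) (.nd (nat_lit 8) (.nd (nat_lit 9) 
(.lf (nat_lit 589860) (.g (nat_lit 3195) (.e (nat_lit 532504) (nat_lit 1) (.e (nat_lit 57851) (nat_lit 252) (.e (nat_lit 57371) (nat_lit 2) (.e (nat_lit 90160) (nat_lit 11) (.e (nat_lit 24608) (nat_lit 3) (.e (nat_lit 98337) (nat_lit 19) (.e (nat_lit 213035) (nat_lit 12) (.e (nat_lit 163964) (nat_lit 25) .nil)))))))) (.g (nat_lit 1) (.e (nat_lit 396983) (nat_lit 0) .nil) .nil))) 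
(.lf (nat_lit 590372) (.g (nat_lit 2008) (.e (nat_lit 532513) (nat_lit 3) (.e (nat_lit 114719) (nat_lit 23) (.e (nat_lit 98354) (nat_lit 26) (.e (nat_lit 426125) (nat_lit 2) (.e (nat_lit 204544) (nat_lit 2) .nil))))) (.g (nat_lit 0) (.e (nat_lit 397738) (nat_lit 0) .nil) .nil)))) (.nd (nat_lit 9) 
(.lf (nat_lit 590116) (.g (nat_lit 1553) (.e (nat_lit 532511) (nat_lit 2) (.e (nat_lit 106534) (nat_lit 11) (.e (nat_lit 16416) (nat_lit 3) (.e (nat_lit 204866) (nat_lit 28) (.e (nat_lit 352261) (nat_lit 0) .nil))))) (.g (nat_lit 0) (.e (nat_lit 397294) (nat_lit 0) .nil) .nil))) 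
(.lf (nat_lit 590628) (.g (nat_lit 1013) (.e (nat_lit 532515) (nat_lit 3) (.e (nat_lit 114719) (nat_lit 23) (.e (nat_lit 98385) (nat_lit 32) .nil))) (.g (nat_lit 0) (.e (nat_lit 398658) (nat_lit 0) .nil) .nil))))) (.nd (nat_lit 8) (.nd (nat_lit 9) 
(.lf (nat_lit 589988) (.g (nat_lit 2741) (.e (nat_lit 532504) (nat_lit 1) (.e (nat_lit 57929) (nat_lit 282) (.e (nat_lit 163869) (nat_lit 2) (.e (nat_lit 196670) (nat_lit 14) (.e (nat_lit 73746) (nat_lit 3) (.e (nat_lit 516124) (nat_lit 2) (.e (nat_lit 213034) (nat_lit 12) (.e (nat_lit 163963) (nat_lit 25) .nil)))))))) (.g (nat_lit 1) (.e (nat_lit 397125) (nat_lit 0) .nil) .nil))) 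
(.lf (nat_lit 590500) (.g (nat_lit 2817) (.e (nat_lit 532515) (nat_lit 3) (.e (nat_lit 114715) (nat_lit 22) (.e (nat_lit 90170) (nat_lit 13) (.e (nat_lit 172138) (nat_lit 15) (.e (nat_lit 1800) (nat_lit 119) (.e (nat_lit 516120) (nat_lit 1) (.e (nat_lit 164329) (nat_lit 230) (.e (nat_lit 163850) (nat_lit 0) (.e (nat_lit 3252) (nat_lit 197) .nil))))))))) (.g (nat_lit 1) (.e (nat_lit 398140) (nat_lit 0) .nil) .nil)))) 
(.nd (nat_lit 9) 
(.lf (nat_lit 590244) (.g (nat_lit 1497) (.e (nat_lit 532513) (nat_lit 3) (.e (nat_lit 114714) (nat_lit 22) (.e (nat_lit 90172) (nat_lit 14) (.e (nat_lit 180244) (nat_lit 5) (.e (nat_lit 532501) (nat_lit 1) .nil))))) (.g (nat_lit 0) (.e (nat_lit 397553) (nat_lit 0) .nil) .nil))) 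
(.lf (nat_lit 590756) (.g (nat_lit 1863) (.e (nat_lit 532523) (nat_lit 7) (.e (nat_lit 319531) (nat_lit 16) (.e (nat_lit 286735) (nat_lit 3) (.e (nat_lit 98380) (nat_lit 31) (.e (nat_lit 474880) (nat_lit 20) .nil))))) (.g (nat_lit 0) (.e (nat_lit 398841) (nat_lit 0) .nil) .nil)))))) (.nd (nat_lit 7) (.nd (nat_lit 8) (.nd (nat_lit 9) 
(.lf (nat_lit 589924) (.g (nat_lit 3916) (.e (nat_lit 532504) (nat_lit 1) (.e (nat_lit 57852) (nat_lit 252) (.e (nat_lit 57345) (nat_lit 0) (.e (nat_lit 1860) (nat_lit 124) (.e (nat_lit 557105) (nat_lit 14) (.e (nat_lit 180252) (nat_lit 10) (.e (nat_lit 573481) (nat_lit 13) (.e (nat_lit 65637) (nat_lit 15) (.e (nat_lit 3253) (nat_lit 197) .nil))))))))) (.g (nat_lit 1) (.e (nat_lit 397048) (nat_lit 0) .nil) .nil))) 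
(.lf (nat_lit 590436) (.g (nat_lit 932) (.e (nat_lit 532514) (nat_lit 3) (.e (nat_lit 114719) (nat_lit 23) (.e (nat_lit 98349) (nat_lit 24) .nil))) (.g (nat_lit 0) (.e (nat_lit 397943) (nat_lit 0) .nil) .nil)))) (.nd (nat_lit 9) 
(.lf (nat_lit 590180) (.g (nat_lit 3413) (.e (nat_lit 532513) (nat_lit 3) (.e (nat_lit 114714) (nat_lit 22) (.e (nat_lit 90169) (nat_lit 13) (.e (nat_lit 172133) (nat_lit 15) (.e (nat_lit 1800) (nat_lit 119) (.e (nat_lit 516117) (nat_lit 1) (.e (nat_lit 164329) (nat_lit 230) (.e (nat_lit 163850) (nat_lit 0) (.e (nat_lit 3252) (nat_lit 197) .nil))))))))) (.g (nat_lit 1) (.e (nat_lit 397465) (nat_lit 0) .nil) .nil))) 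
(.lf (nat_lit 590692) (.g (nat_lit 2564) (.e (nat_lit 532523) (nat_lit 7) (.e (nat_lit 319528) (nat_lit 16) (.e (nat_lit 286735) (nat_lit 3) (.e (nat_lit 98381) (nat_lit 31) (.e (nat_lit 466955) (nat_lit 20) .nil))))) (.g (nat_lit 0) (.e (nat_lit 398768) (nat_lit 0) .nil) .nil))))) (.nd (nat_lit 8) (.nd (nat_lit 9) 
(.lf (nat_lit 590052) (.g (nat_lit 1475) (.e (nat_lit 532508) (nat_lit 2) (.e (nat_lit 106534) (nat_lit 11) (.e (nat_lit 16416) (nat_lit 3) (.e (nat_lit 204876) (nat_lit 31) (.e (nat_lit 376833) (nat_lit 0) .nil))))) (.g (nat_lit 0) (.e (nat_lit 397216) (nat_lit 0) .nil) .nil))) 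
(.lf (nat_lit 590564) (.g (nat_lit 2001) (.e (nat_lit 532515) (nat_lit 3) (.e (nat_lit 114718) (nat_lit 23) (.e (nat_lit 98335) (nat_lit 18) (.e (nat_lit 164401) (nat_lit 256) (.e (nat_lit 57373) (nat_lit 2) .nil))))) (.g (nat_lit 0) (.e (nat_lit 398493) (nat_lit 0) .nil) .nil)))) (.nd (nat_lit 9) 
(.lf (nat_lit 590308) (.g (nat_lit 2993) (.e (nat_lit 532513) (nat_lit 3) (.e (nat_lit 114714) (nat_lit 22) (.e (nat_lit 90174) (nat_lit 14) (.e (nat_lit 180243) (nat_lit 5) (.e (nat_lit 532501) (nat_lit 1) (.e (nat_lit 57662) (nat_lit 152) (.e (nat_lit 2715) (nat_lit 171) (.e (nat_lit 229433) (nat_lit 25) .nil)))))))) (.g (nat_lit 1) (.e (nat_lit 397636) (nat_lit 0) .nil) .nil))) 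
(.lf (nat_lit 590820) (.g (nat_lit 2673) (.e (nat_lit 532523) (nat_lit 7) (.e (nat_lit 319533) (nat_lit 16) (.e (nat_lit 286735) (nat_lit 3) (.e (nat_lit 98370) (nat_lit 28) (.e (nat_lit 450304) (nat_lit 20) .nil))))) (.g (nat_lit 0) (.e (nat_lit 398919) (nat_lit 0) .nil) .nil)))))))) (.nd (nat_lit 5) (.nd (nat_lit 6) (.nd (nat_lit 7) (.nd (nat_lit 8) (.nd (nat_lit 9) 
(.lf (nat_lit 589844) (.g (nat_lit 2821) (.e (nat_lit 532504) (nat_lit 1) (.e (nat_lit 57692) (nat_lit 156) (.e (nat_lit 163874) (nat_lit 3) (.e (nat_lit 204838) (nat_lit 20) (.e (nat_lit 114718) (nat_lit 23) (.e (nat_lit 98367) (nat_lit 27) (.e (nat_lit 434234) (nat_lit 23) .nil))))))) (.g (nat_lit 1) (.e (nat_lit 396953) (nat_lit 0) .nil) .nil))) 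
(.lf (nat_lit 590356) (.g (nat_lit 1369) (.e (nat_lit 532513) (nat_lit 3) (.e (nat_lit 114718) (nat_lit 23) (.e (nat_lit 98365) (nat_lit 26) (.e (nat_lit 426133) (nat_lit 3) .nil)))) (.g (nat_lit 0) (.e (nat_lit 397705) (nat_lit 0) .nil) .nil)))) (.nd (nat_lit 9) 
(.lf (nat_lit 590100) (.g (nat_lit 979) (.e (nat_lit 532510) (nat_lit 2) (.e (nat_lit 106536) (nat_lit 11) (.e (nat_lit 16414) (nat_lit 3) .nil))) (.g (nat_lit 0) (.e (nat_lit 397274) (nat_lit 0) .nil) .nil))) 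
(.lf (nat_lit 590612) (.g (nat_lit 1758) (.e (nat_lit 532515) (nat_lit 3) (.e (nat_lit 114719) (nat_lit 23) (.e (nat_lit 98365) (nat_lit 26) (.e (nat_lit 426137) (nat_lit 3) .nil)))) (.g (nat_lit 0) (.e (nat_lit 398603) (nat_lit 0) .nil) .nil))))) (.nd (nat_lit 8) (.nd (nat_lit 9) 
(.lf (nat_lit 589972) (.g (nat_lit 3452) (.e (nat_lit 532504) (nat_lit 1) (.e (nat_lit 57854) (nat_lit 252) (.e (nat_lit 57406) (nat_lit 12) (.e (nat_lit 336367) (nat_lit 27) (.e (nat_lit 426540) (nat_lit 29) (.e (nat_lit 352262) (nat_lit 0) (.e (nat_lit 3253) (nat_lit 197) .nil))))))) (.g (nat_lit 1) (.e (nat_lit 397107) (nat_lit 0) .nil) .nil))) 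
(.lf (nat_lit 590484) (.g (nat_lit 2014) (.e (nat_lit 532515) (nat_lit 3) (.e (nat_lit 114698) (nat_lit 11) (.e (nat_lit 426133) (nat_lit 3) (.e (nat_lit 204877) (nat_lit 31) .nil)))) (.g (nat_lit 0) (.e (nat_lit 398061) (nat_lit 0) .nil) .nil)))) (.nd (nat_lit 9) 
(.lf (nat_lit 590228) (.g (nat_lit 1012) (.e (nat_lit 532513) (nat_lit 3) (.e (nat_lit 114714) (nat_lit 22) (.e (nat_lit 90172) (nat_lit 14) (.e (nat_lit 180244) (nat_lit 5) .nil)))) (.g (nat_lit 0) (.e (nat_lit 397531) (nat_lit 0) .nil) .nil))) 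
(.lf (nat_lit 590740) (.g (nat_lit 2968) (.e (nat_lit 532523) (nat_lit 7) (.e (nat_lit 319531) (nat_lit 16) (.e (nat_lit 286735) (nat_lit 3) (.e (nat_lit 98350) (nat_lit 24) (.e (nat_lit 409601) (nat_lit 0) .nil))))) (.g (nat_lit 0) (.e (nat_lit 398825) (nat_lit 0) .nil) .nil)))))) (.nd (nat_lit 7) (.nd (nat_lit 8) (.nd (nat_lit 9) 
(.lf (nat_lit 589908) (.g (nat_lit 3988) (.e (nat_lit 532504) (nat_lit 1) (.e (nat_lit 57851) (nat_lit 252) (.e (nat_lit 57406) (nat_lit 12) (.e (nat_lit 336456) (nat_lit 34) (.e (nat_lit 483383) (nat_lit 23) (.e (nat_lit 336306) (nat_lit 15) (.e (nat_lit 3238) (nat_lit 197) .nil))))))) (.g (nat_lit 1) (.e (nat_lit 397032) (nat_lit 0) .nil) .nil))) 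
(.lf (nat_lit 590420) (.g (nat_lit 1975) (.e (nat_lit 532514) (nat_lit 3) (.e (nat_lit 114718) (nat_lit 23) (.e (nat_lit 98334) (nat_lit 18) (.e (nat_lit 164399) (nat_lit 256) (.e (nat_lit 57370) (nat_lit 2) .nil))))) (.g (nat_lit 0) (.e (nat_lit 397926) (nat_lit 0) .nil) .nil)))) (.nd (nat_lit 9) 
(.lf (nat_lit 590164) (.g (nat_lit 1711) (.e (nat_lit 532513) (nat_lit 3) (.e (nat_lit 114698) (nat_lit 11) (.e (nat_lit 426139) (nat_lit 3) (.e (nat_lit 204852) (nat_lit 26) .nil)))) (.g (nat_lit 0) (.e (nat_lit 397404) (nat_lit 0) .nil) .nil))) 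
(.lf (nat_lit 590676) (.g (nat_lit 389) (.e (nat_lit 532523) (nat_lit 7) (.e (nat_lit 319505) (nat_lit 10) (.e (nat_lit 5714) (nat_lit 312) .nil))) (.g (nat_lit 0) (.e (nat_lit 398744) (nat_lit 0) .nil) .nil))))) (.nd (nat_lit 8) (.nd (nat_lit 9) 
(.lf (nat_lit 590036) (.g (nat_lit 2393) (.e (nat_lit 532507) (nat_lit 2) (.e (nat_lit 106536) (nat_lit 11) (.e (nat_lit 16416) (nat_lit 3) (.e (nat_lit 204861) (nat_lit 26) .nil)))) (.g (nat_lit 0) (.e (nat_lit 397190) (nat_lit 0) .nil) .nil))) 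
(.lf (nat_lit 590548) (.g (nat_lit 2205) (.e (nat_lit 532515) (nat_lit 3) (.e (nat_lit 114716) (nat_lit 22) (.e (nat_lit 90185) (nat_lit 17) (.e (nat_lit 237592) (nat_lit 3) (.e (nat_lit 204805) (nat_lit 0) (.e (nat_lit 7098) (nat_lit 380) (.e (nat_lit 171776) (nat_lit 86) .nil))))))) (.g (nat_lit 1) (.e (nat_lit 398452) (nat_lit 0) .nil) .nil)))) (.nd (nat_lit 9) 
(.lf (nat_lit 590292) (.g (nat_lit 3152) (.e (nat_lit 532513) (nat_lit 3) (.e (nat_lit 114714) (nat_lit 22) (.e (nat_lit 90174) (nat_lit 14) (.e (nat_lit 180243) (nat_lit 5) (.e (nat_lit 532499) (nat_lit 1) (.e (nat_lit 57652) (nat_lit 152) (.e (nat_lit 2615) (nat_lit 163) (.e (nat_lit 163962) (nat_lit 25) .nil)))))))) (.g (nat_lit 1) (.e (nat_lit 397617) (nat_lit 0) .nil) .nil))) 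
(.lf (nat_lit 590804) (.g (nat_lit 1755) (.e (nat_lit 532523) (nat_lit 7) (.e (nat_lit 319533) (nat_lit 16) (.e (nat_lit 286735) (nat_lit 3) (.e (nat_lit 98363) (nat_lit 26) .nil)))) (.g (nat_lit 0) (.e (nat_lit 398903) (nat_lit 0) .nil) .nil))))))) (.nd (nat_lit 6) (.nd (nat_lit 7) (.nd (nat_lit 8) (.nd (nat_lit 9) 
(.lf (nat_lit 589876) (.g (nat_lit 1720) (.e (nat_lit 532504) (nat_lit 1) (.e (nat_lit 57851) (nat_lit 252) (.e (nat_lit 57406) (nat_lit 12) (.e (nat_lit 336456) (nat_lit 34) (.e (nat_lit 483350) (nat_lit 17) .nil))))) (.g (nat_lit 0) (.e (nat_lit 397000) (nat_lit 0) .nil) .nil))) 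
(.lf (nat_lit 590388) (.g (nat_lit 872) (.e (nat_lit 532514) (nat_lit 3) (.e (nat_lit 114698) (nat_lit 11) (.e (nat_lit 426122) (nat_lit 2) (.e (nat_lit 196666) (nat_lit 13) .nil)))) (.g (nat_lit 0) (.e (nat_lit 397814) (nat_lit 0) .nil) .nil)))) (.nd (nat_lit 9) 
(.lf (nat_lit 590132) (.g (nat_lit 985) (.e (nat_lit 532511) (nat_lit 2) (.e (nat_lit 106536) (nat_lit 11) (.e (nat_lit 16413) (nat_lit 2) (.e (nat_lit 196674) (nat_lit 15) (.e (nat_lit 89856) (nat_lit 0) .nil))))) (.g (nat_lit 0) (.e (nat_lit 397312) (nat_lit 0) .nil) .nil))) 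
(.lf (nat_lit 590644) (.g (nat_lit 3167) (.e (nat_lit 532522) (nat_lit 7) (.e (nat_lit 319530) (nat_lit 16) (.e (nat_lit 286733) (nat_lit 2) (.e (nat_lit 90134) (nat_lit 9) (.e (nat_lit 3025) (nat_lit 187) (.e (nat_lit 450578) (nat_lit 5) .nil)))))) (.g (nat_lit 1) (.e (nat_lit 398699) (nat_lit 0) .nil) .nil))))) (.nd (nat_lit 8) (.nd (nat_lit 9) 
(.lf (nat_lit 590004) (.g (nat_lit 3552) (.e (nat_lit 532504) (nat_lit 1) (.e (nat_lit 57931) (nat_lit 282) (.e (nat_lit 163869) (nat_lit 2) (.e (nat_lit 196670) (nat_lit 14) (.e (nat_lit 73746) (nat_lit 3) (.e (nat_lit 516124) (nat_lit 2) (.e (nat_lit 213034) (nat_lit 12) (.e (nat_lit 163963) (nat_lit 25) .nil)))))))) (.g (nat_lit 1) (.e (nat_lit 397144) (nat_lit 0) .nil) .nil))) 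
(.lf (nat_lit 590516) (.g (nat_lit 3721) (.e (nat_lit 532515) (nat_lit 3) (.e (nat_lit 114716) (nat_lit 22) (.e (nat_lit 90172) (nat_lit 14) (.e (nat_lit 180243) (nat_lit 5) (.e (nat_lit 532503) (nat_lit 1) (.e (nat_lit 57688) (nat_lit 156) (.e (nat_lit 163843) (nat_lit 0) (.e (nat_lit 3248) (nat_lit 197) .nil)))))))) (.g (nat_lit 1) (.e (nat_lit 398216) (nat_lit 0) .nil) .nil)))) 
(.nd (nat_lit 9) 
(.lf (nat_lit 590260) (.g (nat_lit 2499) (.e (nat_lit 532513) (nat_lit 3) (.e (nat_lit 114714) (nat_lit 22) (.e (nat_lit 90172) (nat_lit 14) (.e (nat_lit 180244) (nat_lit 5) (.e (nat_lit 532503) (nat_lit 1) (.e (nat_lit 57657) (nat_lit 152) (.e (nat_lit 2715) (nat_lit 171) (.e (nat_lit 229433) (nat_lit 25) .nil)))))))) (.g (nat_lit 1) (.e (nat_lit 397579) (nat_lit 0) .nil) .nil))) 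
(.lf (nat_lit 590772) (.g (nat_lit 2180) (.e (nat_lit 532523) (nat_lit 7) (.e (nat_lit 319533) (nat_lit 16) (.e (nat_lit 286732) (nat_lit 2) (.e (nat_lit 90174) (nat_lit 14) (.e (nat_lit 188160) (nat_lit 43) .nil))))) (.g (nat_lit 0) (.e (nat_lit 398863) (nat_lit 0) .nil) .nil)))))) (.nd (nat_lit 7) (.nd (nat_lit 8) (.nd (nat_lit 9) 
(.lf (nat_lit 589940) (.g (nat_lit 2154) (.e (nat_lit 532504) (nat_lit 1) (.e (nat_lit 57852) (nat_lit 252) (.e (nat_lit 57405) (nat_lit 12) (.e (nat_lit 336454) (nat_lit 34) (.e (nat_lit 483408) (nat_lit 26) .nil))))) (.g (nat_lit 0) (.e (nat_lit 397065) (nat_lit 0) .nil) .nil))) 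
(.lf (nat_lit 590452) (.g (nat_lit 2561) (.e (nat_lit 532514) (nat_lit 3) (.e (nat_lit 114719) (nat_lit 23) (.e (nat_lit 98365) (nat_lit 26) (.e (nat_lit 426124) (nat_lit 2) (.e (nat_lit 196660) (nat_lit 12) .nil))))) (.g (nat_lit 0) (.e (nat_lit 397959) (nat_lit 0) .nil) .nil)))) (.nd (nat_lit 9) 
(.lf (nat_lit 590196) (.g (nat_lit 1914) (.e (nat_lit 532513) (nat_lit 3) (.e (nat_lit 114714) (nat_lit 22) (.e (nat_lit 90170) (nat_lit 13) (.e (nat_lit 172073) (nat_lit 5) .nil)))) (.g (nat_lit 0) (.e (nat_lit 397487) (nat_lit 0) .nil) .nil))) 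
(.lf (nat_lit 590708) (.g (nat_lit 1638) (.e (nat_lit 532523) (nat_lit 7) (.e (nat_lit 319530) (nat_lit 16) (.e (nat_lit 286727) (nat_lit 0) (.e (nat_lit 1798) (nat_lit 119) .nil)))) (.g (nat_lit 0) (.e (nat_lit 398788) (nat_lit 0) .nil) .nil))))) (.nd (nat_lit 8) (.nd (nat_lit 9) 
(.lf (nat_lit 590068) (.g (nat_lit 2224) (.e (nat_lit 532509) (nat_lit 2) (.e (nat_lit 106536) (nat_lit 11) (.e (nat_lit 16415) (nat_lit 3) (.e (nat_lit 204861) (nat_lit 26) (.e (nat_lit 336195) (nat_lit 12) .nil))))) (.g (nat_lit 0) (.e (nat_lit 397238) (nat_lit 0) .nil) .nil))) 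
(.lf (nat_lit 590580) (.g (nat_lit 4033) (.e (nat_lit 532515) (nat_lit 3) (.e (nat_lit 114719) (nat_lit 23) (.e (nat_lit 98350) (nat_lit 24) (.e (nat_lit 409617) (nat_lit 10) (.e (nat_lit 632) (nat_lit 50) (.e (nat_lit 573487) (nat_lit 14) (.e (nat_lit 81664) (nat_lit 5) .nil))))))) (.g (nat_lit 1) (.e (nat_lit 398540) (nat_lit 0) .nil) .nil)))) (.nd (nat_lit 9) 
(.lf (nat_lit 590324) (.g (nat_lit 2729) (.e (nat_lit 532513) (nat_lit 3) (.e (nat_lit 114714) (nat_lit 22) (.e (nat_lit 90174) (nat_lit 14) (.e (nat_lit 180243) (nat_lit 5) (.e (nat_lit 532503) (nat_lit 1) (.e (nat_lit 57687) (nat_lit 156) (.e (nat_lit 163850) (nat_lit 0) (.e (nat_lit 3252) (nat_lit 197) .nil)))))))) (.g (nat_lit 1) (.e (nat_lit 397656) (nat_lit 0) .nil) .nil))) 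
(.lf (nat_lit 590836) (.g (nat_lit 326) (.e (nat_lit 532523) (nat_lit 7) (.e (nat_lit 319534) (nat_lit 16) (.e (nat_lit 286733) (nat_lit 2) .nil))) (.g (nat_lit 0) (.e (nat_lit 398939) (nat_lit 0) .nil) .nil))))))))) (.nd (nat_lit 4) (.nd (nat_lit 5) (.nd (nat_lit 6) (.nd (nat_lit 7) (.nd (nat_lit 8) (.nd (nat_lit 9) 
(.lf (nat_lit 589836) (.g (nat_lit 1883) (.e (nat_lit 532504) (nat_lit 1) (.e (nat_lit 57691) (nat_lit 156) (.e (nat_lit 163905) (nat_lit 12) (.e (nat_lit 426566) (nat_lit 34) .nil)))) (.g (nat_lit 0) (.e (nat_lit 396942) (nat_lit 0) .nil) .nil))) 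
(.lf (nat_lit 590348) (.g (nat_lit 2595) (.e (nat_lit 532513) (nat_lit 3) (.e (nat_lit 114718) (nat_lit 23) (.e (nat_lit 98334) (nat_lit 18) (.e (nat_lit 164398) (nat_lit 256) (.e (nat_lit 57370) (nat_lit 2) .nil))))) (.g (nat_lit 0) (.e (nat_lit 397693) (nat_lit 0) .nil) .nil)))) (.nd (nat_lit 9) 
(.lf (nat_lit 590092) (.g (nat_lit 1224) (.e (nat_lit 532510) (nat_lit 2) (.e (nat_lit 106536) (nat_lit 11) (.e (nat_lit 16413) (nat_lit 2) (.e (nat_lit 196672) (nat_lit 15) (.e (nat_lit 89856) (nat_lit 0) (.e (nat_lit 3247) (nat_lit 197) .nil)))))) (.g (nat_lit 1) (.e (nat_lit 397266) (nat_lit 0) .nil) .nil))) 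
(.lf (nat_lit 590604) (.g (nat_lit 3204) (.e (nat_lit 532515) (nat_lit 3) (.e (nat_lit 114719) (nat_lit 23) (.e (nat_lit 98365) (nat_lit 26) (.e (nat_lit 426133) (nat_lit 3) (.e (nat_lit 204805) (nat_lit 0) (.e (nat_lit 7096) (nat_lit 380) (.e (nat_lit 171776) (nat_lit 86) .nil))))))) (.g (nat_lit 1) (.e (nat_lit 398594) (nat_lit 0) .nil) .nil))))) (.nd (nat_lit 8) (.nd (nat_lit 9) 
(.lf (nat_lit 589964) (.g (nat_lit 1621) (.e (nat_lit 532504) (nat_lit 1) (.e (nat_lit 57852) (nat_lit 252) (.e (nat_lit 57447) (nat_lit 19) (.e (nat_lit 393229) (nat_lit 9) (.e (nat_lit 336086) (nat_lit 9) .nil))))) (.g (nat_lit 0) (.e (nat_lit 397093) (nat_lit 0) .nil) .nil))) 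
(.lf (nat_lit 590476) (.g (nat_lit 1661) (.e (nat_lit 532515) (nat_lit 3) (.e (nat_lit 114698) (nat_lit 11) (.e (nat_lit 426123) (nat_lit 2) (.e (nat_lit 196672) (nat_lit 15) .nil)))) (.g (nat_lit 0) (.e (nat_lit 398044) (nat_lit 0) .nil) .nil)))) (.nd (nat_lit 9) 
(.lf (nat_lit 590220) (.g (nat_lit 2385) (.e (nat_lit 532513) (nat_lit 3) (.e (nat_lit 114714) (nat_lit 22) (.e (nat_lit 90172) (nat_lit 14) (.e (nat_lit 180243) (nat_lit 5) (.e (nat_lit 532504) (nat_lit 1) (.e (nat_lit 57651) (nat_lit 152) (.e (nat_lit 2715) (nat_lit 171) (.e (nat_lit 229433) (nat_lit 25) .nil)))))))) (.g (nat_lit 1) (.e (nat_lit 397522) (nat_lit 0) .nil) .nil))) 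
(.lf (nat_lit 590732) (.g (nat_lit 2428) (.e (nat_lit 532523) (nat_lit 7) (.e (nat_lit 319531) (nat_lit 16) (.e (nat_lit 286733) (nat_lit 2) (.e (nat_lit 90134) (nat_lit 9) (.e (nat_lit 2885) (nat_lit 184) .nil))))) (.g (nat_lit 0) (.e (nat_lit 398815) (nat_lit 0) .nil) .nil)))))) (.nd (nat_lit 7) (.nd (nat_lit 8) (.nd (nat_lit 9) 
(.lf (nat_lit 589900) (.g (nat_lit 3495) (.e (nat_lit 532504) (nat_lit 1) (.e (nat_lit 57851) (nat_lit 252) (.e (nat_lit 57406) (nat_lit 12) (.e (nat_lit 336456) (nat_lit 34) (.e (nat_lit 483383) (nat_lit 23) (.e (nat_lit 336258) (nat_lit 15) (.e (nat_lit 3250) (nat_lit 197) .nil))))))) (.g (nat_lit 1) (.e (nat_lit 397024) (nat_lit 0) .nil) .nil))) 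
(.lf (nat_lit 590412) (.g (nat_lit 323) (.e (nat_lit 532514) (nat_lit 3) (.e (nat_lit 114716) (nat_lit 22) (.e (nat_lit 90173) (nat_lit 14) .nil))) (.g (nat_lit 0) (.e (nat_lit 397905) (nat_lit 0) .nil) .nil)))) (.nd (nat_lit 9) 
(.lf (nat_lit 590156) (.g (nat_lit 1674) (.e (nat_lit 532513) (nat_lit 3) (.e (nat_lit 114698) (nat_lit 11) (.e (nat_lit 426123) (nat_lit 2) (.e (nat_lit 196672) (nat_lit 15) .nil)))) (.g (nat_lit 0) (.e (nat_lit 397372) (nat_lit 0) .nil) .nil))) 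
(.lf (nat_lit 590668) (.g (nat_lit 1646) (.e (nat_lit 532522) (nat_lit 7) (.e (nat_lit 319534) (nat_lit 16) (.e (nat_lit 286735) (nat_lit 3) (.e (nat_lit 98365) (nat_lit 26) .nil)))) (.g (nat_lit 0) (.e (nat_lit 398728) (nat_lit 0) .nil) .nil))))) (.nd (nat_lit 8) (.nd (nat_lit 9) 
(.lf (nat_lit 590028) (.g (nat_lit 721) (.e (nat_lit 532506) (nat_lit 2) (.e (nat_lit 106536) (nat_lit 11) (.e (nat_lit 16415) (nat_lit 3) .nil))) (.g (nat_lit 0) (.e (nat_lit 397172) (nat_lit 0) .nil) .nil))) 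
(.lf (nat_lit 590540) (.g (nat_lit 3774) (.e (nat_lit 532515) (nat_lit 3) (.e (nat_lit 114716) (nat_lit 22) (.e (nat_lit 90174) (nat_lit 14) (.e (nat_lit 180243) (nat_lit 5) (.e (nat_lit 532503) (nat_lit 1) (.e (nat_lit 57685) (nat_lit 156) (.e (nat_lit 163844) (nat_lit 0) (.e (nat_lit 3248) (nat_lit 197) .nil)))))))) (.g (nat_lit 1) (.e (nat_lit 398395) (nat_lit 0) .nil) .nil)))) 
(.nd (nat_lit 9) 
(.lf (nat_lit 590284) (.g (nat_lit 2390) (.e (nat_lit 532513) (nat_lit 3) (.e (nat_lit 114714) (nat_lit 22) (.e (nat_lit 90172) (nat_lit 14) (.e (nat_lit 180250) (nat_lit 10) (.e (nat_lit 573473) (nat_lit 12) .nil))))) (.g (nat_lit 0) (.e (nat_lit 397607) (nat_lit 0) .nil) .nil))) 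
(.lf (nat_lit 590796) (.g (nat_lit 3632) (.e (nat_lit 532523) (nat_lit 7) (.e (nat_lit 319533) (nat_lit 16) (.e (nat_lit 286734) (nat_lit 3) (.e (nat_lit 98380) (nat_lit 31) (.e (nat_lit 466967) (nat_lit 20) (.e (nat_lit 3253) (nat_lit 197) .nil)))))) (.g (nat_lit 1) (.e (nat_lit 398895) (nat_lit 0) .nil) .nil))))))) (.nd (nat_lit 6) (.nd (nat_lit 7) (.nd (nat_lit 8) (.nd (nat_lit 9) 
(.lf (nat_lit 589868) (.g (nat_lit 2333) (.e (nat_lit 532504) (nat_lit 1) (.e (nat_lit 57851) (nat_lit 252) (.e (nat_lit 57406) (nat_lit 12) (.e (nat_lit 336367) (nat_lit 27) (.e (nat_lit 426555) (nat_lit 32) (.e (nat_lit 376832) (nat_lit 0) (.e (nat_lit 3233) (nat_lit 197) .nil))))))) (.g (nat_lit 1) (.e (nat_lit 396992) (nat_lit 0) .nil) .nil))) 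
(.lf (nat_lit 590380) (.g (nat_lit 1588) (.e (nat_lit 532513) (nat_lit 3) (.e (nat_lit 114719) (nat_lit 23) (.e (nat_lit 98367) (nat_lit 27) (.e (nat_lit 434241) (nat_lit 27) .nil)))) (.g (nat_lit 0) (.e (nat_lit 397770) (nat_lit 0) .nil) .nil)))) (.nd (nat_lit 9) 
(.lf (nat_lit 590124) (.g (nat_lit 408) (.e (nat_lit 532511) (nat_lit 2) (.e (nat_lit 106536) (nat_lit 11) (.e (nat_lit 16411) (nat_lit 2) .nil))) (.g (nat_lit 0) (.e (nat_lit 397304) (nat_lit 0) .nil) .nil))) 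
(.lf (nat_lit 590636) (.g (nat_lit 2294) (.e (nat_lit 532522) (nat_lit 7) (.e (nat_lit 319490) (nat_lit 0) (.e (nat_lit 5664) (nat_lit 312) (.e (nat_lit 2661) (nat_lit 167) .nil)))) (.g (nat_lit 0) (.e (nat_lit 398689) (nat_lit 0) .nil) .nil))))) (.nd (nat_lit 8) (.nd (nat_lit 9) 
(.lf (nat_lit 589996) (.g (nat_lit 2163) (.e (nat_lit 532504) (nat_lit 1) (.e (nat_lit 57931) (nat_lit 282) (.e (nat_lit 163867) (nat_lit 2) (.e (nat_lit 196670) (nat_lit 14) (.e (nat_lit 73746) (nat_lit 3) .nil))))) (.g (nat_lit 0) (.e (nat_lit 397135) (nat_lit 0) .nil) .nil))) 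
(.lf (nat_lit 590508) (.g (nat_lit 4383) (.e (nat_lit 532515) (nat_lit 3) (.e (nat_lit 114716) (nat_lit 22) (.e (nat_lit 90169) (nat_lit 13) (.e (nat_lit 172133) (nat_lit 15) (.e (nat_lit 1800) (nat_lit 119) (.e (nat_lit 516120) (nat_lit 1) (.e (nat_lit 164330) (nat_lit 230) (.e (nat_lit 163850) (nat_lit 0) (.e (nat_lit 3252) (nat_lit 197) .nil))))))))) (.g (nat_lit 1) (.e (nat_lit 398175) (nat_lit 0) .nil) .nil)))) 
(.nd (nat_lit 9) 
(.lf (nat_lit 590252) (.g (nat_lit 3020) (.e (nat_lit 532513) (nat_lit 3) (.e (nat_lit 114714) (nat_lit 22) (.e (nat_lit 90172) (nat_lit 14) (.e (nat_lit 180244) (nat_lit 5) (.e (nat_lit 532501) (nat_lit 1) (.e (nat_lit 57663) (nat_lit 152) (.e (nat_lit 2717) (nat_lit 171) (.e (nat_lit 229434) (nat_lit 25) .nil)))))))) (.g (nat_lit 1) (.e (nat_lit 397564) (nat_lit 0) .nil) .nil))) 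
(.lf (nat_lit 590764) (.g (nat_lit 1143) (.e (nat_lit 532523) (nat_lit 7) (.e (nat_lit 319532) (nat_lit 16) (.e (nat_lit 286734) (nat_lit 3) (.e (nat_lit 98354) (nat_lit 26) .nil)))) (.g (nat_lit 0) (.e (nat_lit 398850) (nat_lit 0) .nil) .nil)))))) (.nd (nat_lit 7) (.nd (nat_lit 8) (.nd (nat_lit 9) 
(.lf (nat_lit 589932) (.g (nat_lit 3663) (.e (nat_lit 532504) (nat_lit 1) (.e (nat_lit 57852) (nat_lit 252) (.e (nat_lit 57357) (nat_lit 0) (.e (nat_lit 1859) (nat_lit 124) (.e (nat_lit 557105) (nat_lit 14) (.e (nat_lit 180252) (nat_lit 10) (.e (nat_lit 573481) (nat_lit 13) (.e (nat_lit 65637) (nat_lit 15) (.e (nat_lit 3253) (nat_lit 197) .nil))))))))) (.g (nat_lit 1) (.e (nat_lit 397056) (nat_lit 0) .nil) .nil))) 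
(.lf (nat_lit 590444) (.g (nat_lit 3851) (.e (nat_lit 532514) (nat_lit 3) (.e (nat_lit 114719) (nat_lit 23) (.e (nat_lit 98356) (nat_lit 26) (.e (nat_lit 426436) (nat_lit 18) (.e (nat_lit 98335) (nat_lit 18) (.e (nat_lit 164305) (nat_lit 226) (.e (nat_lit 2604) (nat_lit 163) (.e (nat_lit 163962) (nat_lit 25) .nil)))))))) (.g (nat_lit 1) (.e (nat_lit 397951) (nat_lit 0) .nil) .nil)))) 
(.nd (nat_lit 9) 
(.lf (nat_lit 590188) (.g (nat_lit 3441) (.e (nat_lit 532513) (nat_lit 3) (.e (nat_lit 114714) (nat_lit 22) (.e (nat_lit 90170) (nat_lit 13) (.e (nat_lit 172065) (nat_lit 3) (.e (nat_lit 204830) (nat_lit 18) (.e (nat_lit 57663) (nat_lit 152) (.e (nat_lit 2715) (nat_lit 171) (.e (nat_lit 229433) (nat_lit 25) .nil)))))))) (.g (nat_lit 1) (.e (nat_lit 397478) (nat_lit 0) .nil) .nil))) 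
(.lf (nat_lit 590700) (.g (nat_lit 1966) (.e (nat_lit 532523) (nat_lit 7) (.e (nat_lit 319529) (nat_lit 16) (.e (nat_lit 286735) (nat_lit 3) (.e (nat_lit 98321) (nat_lit 17) (.e (nat_lit 7936) (nat_lit 393) .nil))))) (.g (nat_lit 0) (.e (nat_lit 398779) (nat_lit 0) .nil) .nil))))) (.nd (nat_lit 8) (.nd (nat_lit 9) 
(.lf (nat_lit 590060) (.g (nat_lit 2096) (.e (nat_lit 532508) (nat_lit 2) (.e (nat_lit 106536) (nat_lit 11) (.e (nat_lit 16415) (nat_lit 3) (.e (nat_lit 204861) (nat_lit 26) (.e (nat_lit 336194) (nat_lit 12) .nil))))) (.g (nat_lit 0) (.e (nat_lit 397225) (nat_lit 0) .nil) .nil))) 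
(.lf (nat_lit 590572) (.g (nat_lit 1951) (.e (nat_lit 532515) (nat_lit 3) (.e (nat_lit 114719) (nat_lit 23) (.e (nat_lit 98333) (nat_lit 18) (.e (nat_lit 164398) (nat_lit 256) (.e (nat_lit 57371) (nat_lit 2) .nil))))) (.g (nat_lit 0) (.e (nat_lit 398521) (nat_lit 0) .nil) .nil)))) (.nd (nat_lit 9) 
(.lf (nat_lit 590316) (.g (nat_lit 2512) (.e (nat_lit 532513) (nat_lit 3) (.e (nat_lit 114714) (nat_lit 22) (.e (nat_lit 90174) (nat_lit 14) (.e (nat_lit 180243) (nat_lit 5) (.e (nat_lit 532501) (nat_lit 1) (.e (nat_lit 57668) (nat_lit 152) (.e (nat_lit 2715) (nat_lit 171) (.e (nat_lit 229433) (nat_lit 25) .nil)))))))) (.g (nat_lit 1) (.e (nat_lit 397647) (nat_lit 0) .nil) .nil))) 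
(.lf (nat_lit 590828) (.g (nat_lit 417) (.e (nat_lit 532523) (nat_lit 7) (.e (nat_lit 319534) (nat_lit 16) (.e (nat_lit 286728) (nat_lit 0) .nil))) (.g (nat_lit 0) (.e (nat_lit 398928) (nat_lit 0) .nil) .nil)))))))) (.nd (nat_lit 5) (.nd (nat_lit 6) (.nd (nat_lit 7) (.nd (nat_lit 8) (.nd (nat_lit 9) 
(.lf (nat_lit 589852) (.g (nat_lit 2238) (.e (nat_lit 532504) (nat_lit 1) (.e (nat_lit 57692) (nat_lit 156) (.e (nat_lit 163907) (nat_lit 12) (.e (nat_lit 426566) (nat_lit 34) (.e (nat_lit 393284) (nat_lit 24) (.e (nat_lit 434233) (nat_lit 23) .nil)))))) (.g (nat_lit 1) (.e (nat_lit 396967) (nat_lit 0) .nil) .nil))) 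
(.lf (nat_lit 590364) (.g (nat_lit 1524) (.e (nat_lit 532513) (nat_lit 3) (.e (nat_lit 114719) (nat_lit 23) (.e (nat_lit 98334) (nat_lit 18) (.e (nat_lit 164397) (nat_lit 256) .nil)))) (.g (nat_lit 0) (.e (nat_lit 397728) (nat_lit 0) .nil) .nil)))) (.nd (nat_lit 9) 
(.lf (nat_lit 590108) (.g (nat_lit 1398) (.e (nat_lit 532511) (nat_lit 2) (.e (nat_lit 106534) (nat_lit 11) (.e (nat_lit 16413) (nat_lit 2) (.e (nat_lit 196670) (nat_lit 14) (.e (nat_lit 81664) (nat_lit 41) .nil))))) (.g (nat_lit 0) (.e (nat_lit 397286) (nat_lit 0) .nil) .nil))) 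
(.lf (nat_lit 590620) (.g (nat_lit 2024) (.e (nat_lit 532515) (nat_lit 3) (.e (nat_lit 114719) (nat_lit 23) (.e (nat_lit 98367) (nat_lit 27) (.e (nat_lit 434231) (nat_lit 23) (.e (nat_lit 532575) (nat_lit 17) .nil))))) (.g (nat_lit 0) (.e (nat_lit 398632) (nat_lit 0) .nil) .nil))))) (.nd (nat_lit 8) (.nd (nat_lit 9) 
(.lf (nat_lit 589980) (.g (nat_lit 2983) (.e (nat_lit 532504) (nat_lit 1) (.e (nat_lit 57854) (nat_lit 252) (.e (nat_lit 57409) (nat_lit 12) (.e (nat_lit 336454) (nat_lit 34) (.e (nat_lit 483385) (nat_lit 23) (.e (nat_lit 336260) (nat_lit 15) (.e (nat_lit 3230) (nat_lit 197) .nil))))))) (.g (nat_lit 1) (.e (nat_lit 397115) (nat_lit 0) .nil) .nil))) 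
(.lf (nat_lit 590492) (.g (nat_lit 538) (.e (nat_lit 532515) (nat_lit 3) (.e (nat_lit 114714) (nat_lit 22) (.e (nat_lit 90172) (nat_lit 14) .nil))) (.g (nat_lit 0) (.e (nat_lit 398102) (nat_lit 0) .nil) .nil)))) (.nd (nat_lit 9) 
(.lf (nat_lit 590236) (.g (nat_lit 2760) (.e (nat_lit 532513) (nat_lit 3) (.e (nat_lit 114714) (nat_lit 22) (.e (nat_lit 90172) (nat_lit 14) (.e (nat_lit 180244) (nat_lit 5) (.e (nat_lit 532499) (nat_lit 1) (.e (nat_lit 65280) (nat_lit 152) (.e (nat_lit 2612) (nat_lit 163) (.e (nat_lit 163964) (nat_lit 25) .nil)))))))) (.g (nat_lit 1) (.e (nat_lit 397544) (nat_lit 0) .nil) .nil))) 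
(.lf (nat_lit 590748) (.g (nat_lit 1965) (.e (nat_lit 532523) (nat_lit 7) (.e (nat_lit 319531) (nat_lit 16) (.e (nat_lit 286735) (nat_lit 3) (.e (nat_lit 98363) (nat_lit 26) (.e (nat_lit 426230) (nat_lit 9) .nil))))) (.g (nat_lit 0) (.e (nat_lit 398833) (nat_lit 0) .nil) .nil)))))) (.nd (nat_lit 7) (.nd (nat_lit 8) (.nd (nat_lit 9) 
(.lf (nat_lit 589916) (.g (nat_lit 2716) (.e (nat_lit 532504) (nat_lit 1) (.e (nat_lit 57851) (nat_lit 252) (.e (nat_lit 57408) (nat_lit 12) (.e (nat_lit 336454) (nat_lit 34) (.e (nat_lit 483383) (nat_lit 23) (.e (nat_lit 336240) (nat_lit 15) (.e (nat_lit 3248) (nat_lit 197) .nil))))))) (.g (nat_lit 1) (.e (nat_lit 397040) (nat_lit 0) .nil) .nil))) 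
(.lf (nat_lit 590428) (.g (nat_lit 1623) (.e (nat_lit 532514) (nat_lit 3) (.e (nat_lit 114718) (nat_lit 23) (.e (nat_lit 98367) (nat_lit 27) (.e (nat_lit 434241) (nat_lit 27) .nil)))) (.g (nat_lit 0) (.e (nat_lit 397934) (nat_lit 0) .nil) .nil)))) (.nd (nat_lit 9) 
(.lf (nat_lit 590172) (.g (nat_lit 2746) (.e (nat_lit 532513) (nat_lit 3) (.e (nat_lit 122624) (nat_lit 11) (.e (nat_lit 426566) (nat_lit 34) (.e (nat_lit 393260) (nat_lit 21) (.e (nat_lit 409617) (nat_lit 10) (.e (nat_lit 604) (nat_lit 45) .nil)))))) (.g (nat_lit 1) (.e (nat_lit 397422) (nat_lit 0) .nil) .nil))) 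
(.lf (nat_lit 590684) (.g (nat_lit 2933) (.e (nat_lit 532523) (nat_lit 7) (.e (nat_lit 319528) (nat_lit 16) (.e (nat_lit 286733) (nat_lit 2) (.e (nat_lit 90178) (nat_lit 15) (.e (nat_lit 188424) (nat_lit 20) (.e (nat_lit 3238) (nat_lit 197) .nil)))))) (.g (nat_lit 1) (.e (nat_lit 398760) (nat_lit 0) .nil) .nil))))) (.nd (nat_lit 8) (.nd (nat_lit 9) 
(.lf (nat_lit 590044) (.g (nat_lit 1800) (.e (nat_lit 532508) (nat_lit 2) (.e (nat_lit 106534) (nat_lit 11) (.e (nat_lit 16412) (nat_lit 2) (.e (nat_lit 196674) (nat_lit 15) (.e (nat_lit 81922) (nat_lit 0) (.e (nat_lit 3251) (nat_lit 197) .nil)))))) (.g (nat_lit 1) (.e (nat_lit 397206) (nat_lit 0) .nil) .nil))) 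
(.lf (nat_lit 590556) (.g (nat_lit 1946) (.e (nat_lit 532515) (nat_lit 3) (.e (nat_lit 114718) (nat_lit 23) (.e (nat_lit 98333) (nat_lit 18) (.e (nat_lit 164399) (nat_lit 256) (.e (nat_lit 57372) (nat_lit 2) .nil))))) (.g (nat_lit 0) (.e (nat_lit 398480) (nat_lit 0) .nil) .nil)))) (.nd (nat_lit 9) 
(.lf (nat_lit 590300) (.g (nat_lit 2451) (.e (nat_lit 532513) (nat_lit 3) (.e (nat_lit 114714) (nat_lit 22) (.e (nat_lit 90174) (nat_lit 14) (.e (nat_lit 180243) (nat_lit 5) (.e (nat_lit 532499) (nat_lit 1) (.e (nat_lit 57687) (nat_lit 156) (.e (nat_lit 163850) (nat_lit 0) (.e (nat_lit 3252) (nat_lit 197) .nil)))))))) (.g (nat_lit 1) (.e (nat_lit 397628) (nat_lit 0) .nil) .nil))) 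
(.lf (nat_lit 590812) (.g (nat_lit 3423) (.e (nat_lit 532523) (nat_lit 7) (.e (nat_lit 319533) (nat_lit 16) (.e (nat_lit 286735) (nat_lit 3) (.e (nat_lit 98369) (nat_lit 28) (.e (nat_lit 442407) (nat_lit 20) (.e (nat_lit 3238) (nat_lit 197) .nil)))))) (.g (nat_lit 1) (.e (nat_lit 398911) (nat_lit 0) .nil) .nil))))))) (.nd (nat_lit 6) (.nd (nat_lit 7) (.nd (nat_lit 8) (.nd (nat_lit 9) 
(.lf (nat_lit 589884) (.g (nat_lit 2919) (.e (nat_lit 532504) (nat_lit 1) (.e (nat_lit 57851) (nat_lit 252) (.e (nat_lit 57406) (nat_lit 12) (.e (nat_lit 336456) (nat_lit 34) (.e (nat_lit 483379) (nat_lit 23) (.e (nat_lit 336259) (nat_lit 15) (.e (nat_lit 3254) (nat_lit 197) .nil))))))) (.g (nat_lit 1) (.e (nat_lit 397008) (nat_lit 0) .nil) .nil))) 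
(.lf (nat_lit 590396) (.g (nat_lit 3428) (.e (nat_lit 532514) (nat_lit 3) (.e (nat_lit 114698) (nat_lit 11) (.e (nat_lit 426139) (nat_lit 3) (.e (nat_lit 204861) (nat_lit 26) (.e (nat_lit 336194) (nat_lit 12) (.e (nat_lit 385064) (nat_lit 26) .nil)))))) (.g (nat_lit 1) (.e (nat_lit 397854) (nat_lit 0) .nil) .nil)))) (.nd (nat_lit 9) 
(.lf (nat_lit 590140) (.g (nat_lit 1911) (.e (nat_lit 532513) (nat_lit 3) (.e (nat_lit 114697) (nat_lit 11) (.e (nat_lit 426116) (nat_lit 2) (.e (nat_lit 196672) (nat_lit 15) (.e (nat_lit 81924) (nat_lit 0) (.e (nat_lit 3253) (nat_lit 197) .nil)))))) (.g (nat_lit 1) (.e (nat_lit 397326) (nat_lit 0) .nil) .nil))) 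
(.lf (nat_lit 590652) (.g (nat_lit 2657) (.e (nat_lit 532522) (nat_lit 7) (.e (nat_lit 319530) (nat_lit 16) (.e (nat_lit 286735) (nat_lit 3) (.e (nat_lit 98359) (nat_lit 26) (.e (nat_lit 426289) (nat_lit 10) .nil))))) (.g (nat_lit 0) (.e (nat_lit 398707) (nat_lit 0) .nil) .nil))))) (.nd (nat_lit 8) (.nd (nat_lit 9) 
(.lf (nat_lit 590012) (.g (nat_lit 1569) (.e (nat_lit 532504) (nat_lit 1) (.e (nat_lit 57931) (nat_lit 282) (.e (nat_lit 163874) (nat_lit 3) (.e (nat_lit 204872) (nat_lit 30) .nil)))) (.g (nat_lit 0) (.e (nat_lit 397154) (nat_lit 0) .nil) .nil))) 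
(.lf (nat_lit 590524) (.g (nat_lit 4071) (.e (nat_lit 532515) (nat_lit 3) (.e (nat_lit 114716) (nat_lit 22) (.e (nat_lit 90172) (nat_lit 14) (.e (nat_lit 180244) (nat_lit 5) (.e (nat_lit 532503) (nat_lit 1) (.e (nat_lit 57685) (nat_lit 156) (.e (nat_lit 163843) (nat_lit 0) (.e (nat_lit 3248) (nat_lit 197) .nil)))))))) (.g (nat_lit 1) (.e (nat_lit 398284) (nat_lit 0) .nil) .nil)))) 
(.nd (nat_lit 9) 
(.lf (nat_lit 590268) (.g (nat_lit 2332) (.e (nat_lit 532513) (nat_lit 3) (.e (nat_lit 114714) (nat_lit 22) (.e (nat_lit 90172) (nat_lit 14) (.e (nat_lit 180244) (nat_lit 5) (.e (nat_lit 532503) (nat_lit 1) (.e (nat_lit 57687) (nat_lit 156) (.e (nat_lit 163843) (nat_lit 0) (.e (nat_lit 3230) (nat_lit 197) .nil)))))))) (.g (nat_lit 1) (.e (nat_lit 397590) (nat_lit 0) .nil) .nil))) 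
(.lf (nat_lit 590780) (.g (nat_lit 3842) (.e (nat_lit 532523) (nat_lit 7) (.e (nat_lit 319533) (nat_lit 16) (.e (nat_lit 286733) (nat_lit 2) (.e (nat_lit 90176) (nat_lit 15) (.e (nat_lit 188435) (nat_lit 20) .nil))))) (.g (nat_lit 0) (.e (nat_lit 398879) (nat_lit 0) .nil) .nil)))))) (.nd (nat_lit 7) (.nd (nat_lit 8) (.nd (nat_lit 9) 
(.lf (nat_lit 589948) (.g (nat_lit 3635) (.e (nat_lit 532504) (nat_lit 1) (.e (nat_lit 57852) (nat_lit 252) (.e (nat_lit 57406) (nat_lit 12) (.e (nat_lit 336454) (nat_lit 34) (.e (nat_lit 483385) (nat_lit 23) (.e (nat_lit 336260) (nat_lit 15) (.e (nat_lit 3252) (nat_lit 197) .nil))))))) (.g (nat_lit 1) (.e (nat_lit 397073) (nat_lit 0) .nil) .nil))) 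
(.lf (nat_lit 590460) (.g (nat_lit 1029) (.e (nat_lit 532515) (nat_lit 3) (.e (nat_lit 114694) (nat_lit 11) (.e (nat_lit 426123) (nat_lit 2) (.e (nat_lit 196681) (nat_lit 17) .nil)))) (.g (nat_lit 0) (.e (nat_lit 397977) (nat_lit 0) .nil) .nil)))) (.nd (nat_lit 9) 
(.lf (nat_lit 590204) (.g (nat_lit 2838) (.e (nat_lit 532513) (nat_lit 3) (.e (nat_lit 114714) (nat_lit 22) (.e (nat_lit 90172) (nat_lit 14) (.e (nat_lit 180243) (nat_lit 5) (.e (nat_lit 532501) (nat_lit 1) (.e (nat_lit 57661) (nat_lit 152) (.e (nat_lit 2715) (nat_lit 171) (.e (nat_lit 229433) (nat_lit 25) .nil)))))))) (.g (nat_lit 1) (.e (nat_lit 397502) (nat_lit 0) .nil) .nil))) 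
(.lf (nat_lit 590716) (.g (nat_lit 1322) (.e (nat_lit 532523) (nat_lit 7) (.e (nat_lit 319530) (nat_lit 16) (.e (nat_lit 286735) (nat_lit 3) (.e (nat_lit 98325) (nat_lit 17) .nil)))) (.g (nat_lit 0) (.e (nat_lit 398797) (nat_lit 0) .nil) .nil))))) (.nd (nat_lit 8) (.nd (nat_lit 9) 
(.lf (nat_lit 590076) (.g (nat_lit 1686) (.e (nat_lit 532510) (nat_lit 2) (.e (nat_lit 106534) (nat_lit 11) (.e (nat_lit 16413) (nat_lit 2) (.e (nat_lit 196681) (nat_lit 17) (.e (nat_lit 131122) (nat_lit 12) .nil))))) (.g (nat_lit 0) (.e (nat_lit 397246) (nat_lit 0) .nil) .nil))) 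
(.lf (nat_lit 590588) (.g (nat_lit 1521) (.e (nat_lit 532515) (nat_lit 3) (.e (nat_lit 114719) (nat_lit 23) (.e (nat_lit 98356) (nat_lit 26) (.e (nat_lit 426438) (nat_lit 18) (.e (nat_lit 98335) (nat_lit 18) .nil))))) (.g (nat_lit 0) (.e (nat_lit 398555) (nat_lit 0) .nil) .nil)))) (.nd (nat_lit 9) 
(.lf (nat_lit 590332) (.g (nat_lit 3343) (.e (nat_lit 532513) (nat_lit 3) (.e (nat_lit 114714) (nat_lit 22) (.e (nat_lit 90174) (nat_lit 14) (.e (nat_lit 180243) (nat_lit 5) (.e (nat_lit 532504) (nat_lit 1) (.e (nat_lit 57663) (nat_lit 152) (.e (nat_lit 2715) (nat_lit 171) (.e (nat_lit 229433) (nat_lit 25) .nil)))))))) (.g (nat_lit 1) (.e (nat_lit 397667) (nat_lit 0) .nil) .nil))) 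
(.lf (nat_lit 590844) (.g (nat_lit 2853) (.e (nat_lit 532523) (nat_lit 7) (.e (nat_lit 319534) (nat_lit 16) (.e (nat_lit 286733) (nat_lit 2) (.e (nat_lit 90178) (nat_lit 15) (.e (nat_lit 196352) (nat_lit 20) .nil))))) (.g (nat_lit 0) (.e (nat_lit 398955) (nat_lit 0) .nil) .nil))))))))))) 
(.nd (nat_lit 2) (.nd (nat_lit 3) (.nd (nat_lit 4) (.nd (nat_lit 5) (.nd (nat_lit 6) 
(.nd (nat_lit 7) (.nd (nat_lit 8) (.nd (nat_lit 9) 
(.lf (nat_lit 589826) (.g (nat_lit 3554) (.e (nat_lit 532503) (nat_lit 1) (.e (nat_lit 57931) (nat_lit 282) (.e (nat_lit 163884) (nat_lit 5) (.e (nat_lit 221212) (nat_lit 22) (.e (nat_lit 196656) (nat_lit 11) (.e (nat_lit 16425) (nat_lit 7) (.e (nat_lit 409617) (nat_lit 10) (.e (nat_lit 604) (nat_lit 45) .nil)))))))) (.g (nat_lit 1) (.e (nat_lit 396926) (nat_lit 0) .nil) .nil))) 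
(.lf (nat_lit 590338) (.g (nat_lit 3905) (.e (nat_lit 532513) (nat_lit 3) (.e (nat_lit 114714) (nat_lit 22) (.e (nat_lit 90174) (nat_lit 14) (.e (nat_lit 180243) (nat_lit 5) (.e (nat_lit 532504) (nat_lit 1) (.e (nat_lit 57665) (nat_lit 152) (.e (nat_lit 7936) (nat_lit 163) (.e (nat_lit 163962) (nat_lit 25) .nil)))))))) (.g (nat_lit 1) (.e (nat_lit 397673) (nat_lit 0) .nil) .nil)))) 
(.nd (nat_lit 9) 
(.lf (nat_lit 590082) (.g (nat_lit 1591) (.e (nat_lit 532510) (nat_lit 2) (.e (nat_lit 106535) (nat_lit 11) (.e (nat_lit 16412) (nat_lit 2) (.e (nat_lit 196681) (nat_lit 17) (.e (nat_lit 131123) (nat_lit 12) .nil))))) (.g (nat_lit 0) (.e (nat_lit 397252) (nat_lit 0) .nil) .nil))) 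
(.lf (nat_lit 590594) (.g (nat_lit 1472) (.e (nat_lit 532515) (nat_lit 3) (.e (nat_lit 114719) (nat_lit 23) (.e (nat_lit 98363) (nat_lit 26) (.e (nat_lit 426129) (nat_lit 3) .nil)))) (.g (nat_lit 0) (.e (nat_lit 398566) (nat_lit 0) .nil) .nil))))) (.nd (nat_lit 8) (.nd (nat_lit 9) 
(.lf (nat_lit 589954) (.g (nat_lit 3569) (.e (nat_lit 532504) (nat_lit 1) (.e (nat_lit 57852) (nat_lit 252) (.e (nat_lit 57406) (nat_lit 12) (.e (nat_lit 336456) (nat_lit 34) (.e (nat_lit 483387) (nat_lit 23) (.e (nat_lit 336282) (nat_lit 15) (.e (nat_lit 3253) (nat_lit 197) .nil))))))) (.g (nat_lit 1) (.e (nat_lit 397079) (nat_lit 0) .nil) .nil))) 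
(.lf (nat_lit 590466) (.g (nat_lit 2748) (.e (nat_lit 532515) (nat_lit 3) (.e (nat_lit 114697) (nat_lit 11) (.e (nat_lit 426124) (nat_lit 2) (.e (nat_lit 196681) (nat_lit 17) (.e (nat_lit 131123) (nat_lit 12) (.e (nat_lit 385068) (nat_lit 26) .nil)))))) (.g (nat_lit 1) (.e (nat_lit 398016) (nat_lit 0) .nil) .nil)))) (.nd (nat_lit 9) 
(.lf (nat_lit 590210) (.g (nat_lit 3319) (.e (nat_lit 532513) (nat_lit 3) (.e (nat_lit 114714) (nat_lit 22) (.e (nat_lit 90172) (nat_lit 14) (.e (nat_lit 180243) (nat_lit 5) (.e (nat_lit 532501) (nat_lit 1) (.e (nat_lit 57665) (nat_lit 152) (.e (nat_lit 7936) (nat_lit 163) (.e (nat_lit 163962) (nat_lit 25) .nil)))))))) (.g (nat_lit 1) (.e (nat_lit 397509) (nat_lit 0) .nil) .nil))) 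
(.lf (nat_lit 590722) (.g (nat_lit 4169) (.e (nat_lit 532523) (nat_lit 7) (.e (nat_lit 319530) (nat_lit 16) (.e (nat_lit 286735) (nat_lit 3) (.e (nat_lit 98367) (nat_lit 27) (.e (nat_lit 442112) (nat_lit 11) (.e (nat_lit 163962) (nat_lit 25) .nil)))))) (.g (nat_lit 1) (.e (nat_lit 398803) (nat_lit 0) .nil) .nil)))))) (.nd (nat_lit 7) (.nd (nat_lit 8) (.nd (nat_lit 9) 
(.lf (nat_lit 589890) (.g (nat_lit 2030) (.e (nat_lit 532504) (nat_lit 1) (.e (nat_lit 57851) (nat_lit 252) (.e (nat_lit 57406) (nat_lit 12) (.e (nat_lit 336456) (nat_lit 34) (.e (nat_lit 483380) (nat_lit 23) (.e (nat_lit 336258) (nat_lit 15) (.e (nat_lit 3248) (nat_lit 197) .nil))))))) (.g (nat_lit 1) (.e (nat_lit 397014) (nat_lit 0) .nil) .nil))) 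
(.lf (nat_lit 590402) (.g (nat_lit 1390) (.e (nat_lit 532514) (nat_lit 3) (.e (nat_lit 114715) (nat_lit 22) (.e (nat_lit 90170) (nat_lit 13) (.e (nat_lit 172065) (nat_lit 3) .nil)))) (.g (nat_lit 0) (.e (nat_lit 397877) (nat_lit 0) .nil) .nil)))) (.nd (nat_lit 9) 
(.lf (nat_lit 590146) (.g (nat_lit 2526) (.e (nat_lit 532513) (nat_lit 3) (.e (nat_lit 114697) (nat_lit 11) (.e (nat_lit 426139) (nat_lit 3) (.e (nat_lit 204865) (nat_lit 28) (.e (nat_lit 352262) (nat_lit 0) (.e (nat_lit 3253) (nat_lit 197) .nil)))))) (.g (nat_lit 1) (.e (nat_lit 397339) (nat_lit 0) .nil) .nil))) 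
(.lf (nat_lit 590658) (.g (nat_lit 1464) (.e (nat_lit 532522) (nat_lit 7) (.e (nat_lit 319531) (nat_lit 16) (.e (nat_lit 286733) (nat_lit 2) (.e (nat_lit 90134) (nat_lit 9) .nil)))) (.g (nat_lit 0) (.e (nat_lit 398716) (nat_lit 0) .nil) .nil))))) (.nd (nat_lit 8) (.nd (nat_lit 9) 
(.lf (nat_lit 590018) (.g (nat_lit 2021) (.e (nat_lit 532505) (nat_lit 2) (.e (nat_lit 106536) (nat_lit 11) (.e (nat_lit 16412) (nat_lit 2) (.e (nat_lit 196674) (nat_lit 15) .nil)))) (.g (nat_lit 0) (.e (nat_lit 397161) (nat_lit 0) .nil) .nil))) 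
(.lf (nat_lit 590530) (.g (nat_lit 2734) (.e (nat_lit 532515) (nat_lit 3) (.e (nat_lit 114716) (nat_lit 22) (.e (nat_lit 90172) (nat_lit 14) (.e (nat_lit 180244) (nat_lit 5) (.e (nat_lit 532575) (nat_lit 17) (.e (nat_lit 7105) (nat_lit 380) (.e (nat_lit 171776) (nat_lit 86) .nil))))))) (.g (nat_lit 1) (.e (nat_lit 398312) (nat_lit 0) .nil) .nil)))) (.nd (nat_lit 9) 
(.lf (nat_lit 590274) (.g (nat_lit 2308) (.e (nat_lit 532513) (nat_lit 3) (.e (nat_lit 114714) (nat_lit 22) (.e (nat_lit 90172) (nat_lit 14) (.e (nat_lit 180244) (nat_lit 5) (.e (nat_lit 532504) (nat_lit 1) (.e (nat_lit 57662) (nat_lit 152) (.e (nat_lit 2715) (nat_lit 171) (.e (nat_lit 229433) (nat_lit 25) .nil)))))))) (.g (nat_lit 1) (.e (nat_lit 397597) (nat_lit 0) .nil) .nil))) 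
(.lf (nat_lit 590786) (.g (nat_lit 3670) (.e (nat_lit 532523) (nat_lit 7) (.e (nat_lit 319533) (nat_lit 16) (.e (nat_lit 286733) (nat_lit 2) (.e (nat_lit 90178) (nat_lit 15) (.e (nat_lit 188436) (nat_lit 20) (.e (nat_lit 3238) (nat_lit 197) .nil)))))) (.g (nat_lit 1) (.e (nat_lit 398885) (nat_lit 0) .nil) .nil))))))) (.nd (nat_lit 6) (.nd (nat_lit 7) (.nd (nat_lit 8) (.nd (nat_lit 9) 
(.lf (nat_lit 589858) (.g (nat_lit 2986) (.e (nat_lit 532504) (nat_lit 1) (.e (nat_lit 57851) (nat_lit 252) (.e (nat_lit 57371) (nat_lit 2) (.e (nat_lit 90160) (nat_lit 11) (.e (nat_lit 24608) (nat_lit 3) (.e (nat_lit 98337) (nat_lit 19) (.e (nat_lit 213034) (nat_lit 12) (.e (nat_lit 163963) (nat_lit 25) .nil)))))))) (.g (nat_lit 1) (.e (nat_lit 396981) (nat_lit 0) .nil) .nil))) 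
(.lf (nat_lit 590370) (.g (nat_lit 3215) (.e (nat_lit 532513) (nat_lit 3) (.e (nat_lit 114719) (nat_lit 23) (.e (nat_lit 98350) (nat_lit 24) (.e (nat_lit 409616) (nat_lit 10) (.e (nat_lit 632) (nat_lit 50) .nil))))) (.g (nat_lit 0) (.e (nat_lit 397736) (nat_lit 0) .nil) .nil)))) (.nd (nat_lit 9) 
(.lf (nat_lit 590114) (.g (nat_lit 1740) (.e (nat_lit 532511) (nat_lit 2) (.e (nat_lit 106534) (nat_lit 11) (.e (nat_lit 16416) (nat_lit 3) (.e (nat_lit 204861) (nat_lit 26) (.e (nat_lit 336195) (nat_lit 12) .nil))))) (.g (nat_lit 0) (.e (nat_lit 397292) (nat_lit 0) .nil) .nil))) 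
(.lf (nat_lit 590626) (.g (nat_lit 4582) (.e (nat_lit 532515) (nat_lit 3) (.e (nat_lit 114719) (nat_lit 23) (.e (nat_lit 98384) (nat_lit 32) (.e (nat_lit 475179) (nat_lit 24) (.e (nat_lit 516117) (nat_lit 1) (.e (nat_lit 164329) (nat_lit 230) (.e (nat_lit 163850) (nat_lit 0) (.e (nat_lit 3252) (nat_lit 197) .nil)))))))) (.g (nat_lit 1) (.e (nat_lit 398654) (nat_lit 0) .nil) .nil))))) 
(.nd (nat_lit 8) (.nd (nat_lit 9) 
(.lf (nat_lit 589986) (.g (nat_lit 4459) (.e (nat_lit 532504) (nat_lit 1) (.e (nat_lit 57854) (nat_lit 252) (.e (nat_lit 57445) (nat_lit 19) (.e (nat_lit 393229) (nat_lit 9) (.e (nat_lit 336100) (nat_lit 9) .nil))))) (.g (nat_lit 0) (.e (nat_lit 397121) (nat_lit 0) .nil) .nil))) 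
(.lf (nat_lit 590498) (.g (nat_lit 2093) (.e (nat_lit 532515) (nat_lit 3) (.e (nat_lit 114715) (nat_lit 22) (.e (nat_lit 90170) (nat_lit 13) (.e (nat_lit 172067) (nat_lit 3) (.e (nat_lit 204805) (nat_lit 0) (.e (nat_lit 7105) (nat_lit 380) (.e (nat_lit 171776) (nat_lit 86) .nil))))))) (.g (nat_lit 1) (.e (nat_lit 398122) (nat_lit 0) .nil) .nil)))) (.nd (nat_lit 9) 
(.lf (nat_lit 590242) (.g (nat_lit 3281) (.e (nat_lit 532513) (nat_lit 3) (.e (nat_lit 114714) (nat_lit 22) (.e (nat_lit 90172) (nat_lit 14) (.e (nat_lit 180244) (nat_lit 5) (.e (nat_lit 532499) (nat_lit 1) (.e (nat_lit 57688) (nat_lit 156) (.e (nat_lit 163844) (nat_lit 0) (.e (nat_lit 3230) (nat_lit 197) .nil)))))))) (.g (nat_lit 1) (.e (nat_lit 397550) (nat_lit 0) .nil) .nil))) 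
(.lf (nat_lit 590754) (.g (nat_lit 1876) (.e (nat_lit 532523) (nat_lit 7) (.e (nat_lit 319531) (nat_lit 16) (.e (nat_lit 286735) (nat_lit 3) (.e (nat_lit 98374) (nat_lit 29) (.e (nat_lit 458496) (nat_lit 5) .nil))))) (.g (nat_lit 0) (.e (nat_lit 398839) (nat_lit 0) .nil) .nil)))))) (.nd (nat_lit 7) (.nd (nat_lit 8) (.nd (nat_lit 9) 
(.lf (nat_lit 589922) (.g (nat_lit 5067) (.e (nat_lit 532504) (nat_lit 1) (.e (nat_lit 57852) (nat_lit 252) (.e (nat_lit 57344) (nat_lit 0) (.e (nat_lit 1858) (nat_lit 124) (.e (nat_lit 557105) (nat_lit 14) (.e (nat_lit 180252) (nat_lit 10) (.e (nat_lit 573481) (nat_lit 13) (.e (nat_lit 65637) (nat_lit 15) (.e (nat_lit 3253) (nat_lit 197) .nil))))))))) (.g (nat_lit 1) (.e (nat_lit 397046) (nat_lit 0) .nil) .nil))) 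
(.lf (nat_lit 590434) (.g (nat_lit 417) (.e (nat_lit 532514) (nat_lit 3) (.e (nat_lit 114719) (nat_lit 23) (.e (nat_lit 98334) (nat_lit 18) .nil))) (.g (nat_lit 0) (.e (nat_lit 397941) (nat_lit 0) .nil) .nil)))) (.nd (nat_lit 9) 
(.lf (nat_lit 590178) (.g (nat_lit 542) (.e (nat_lit 532513) (nat_lit 3) (.e (nat_lit 114714) (nat_lit 22) (.e (nat_lit 90168) (nat_lit 13) .nil))) (.g (nat_lit 0) (.e (nat_lit 397461) (nat_lit 0) .nil) .nil))) 
(.lf (nat_lit 590690) (.g (nat_lit 1187) (.e (nat_lit 532523) (nat_lit 7) (.e (nat_lit 319528) (nat_lit 16) (.e (nat_lit 286735) (nat_lit 3) (.e (nat_lit 98371) (nat_lit 28) .nil)))) (.g (nat_lit 0) (.e (nat_lit 398766) (nat_lit 0) .nil) .nil))))) (.nd (nat_lit 8) (.nd (nat_lit 9) 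
(.lf (nat_lit 590050) (.g (nat_lit 1781) (.e (nat_lit 532508) (nat_lit 2) (.e (nat_lit 106534) (nat_lit 11) (.e (nat_lit 16416) (nat_lit 3) (.e (nat_lit 204861) (nat_lit 26) (.e (nat_lit 336195) (nat_lit 12) .nil))))) (.g (nat_lit 0) (.e (nat_lit 397214) (nat_lit 0) .nil) .nil))) 
(.lf (nat_lit 590562) (.g (nat_lit 2287) (.e (nat_lit 532515) (nat_lit 3) (.e (nat_lit 114718) (nat_lit 23) (.e (nat_lit 98334) (nat_lit 18) (.e (nat_lit 164402) (nat_lit 256) (.e (nat_lit 57371) (nat_lit 2) .nil))))) (.g (nat_lit 0) (.e (nat_lit 398491) (nat_lit 0) .nil) .nil)))) (.nd (nat_lit 9) 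
(.lf (nat_lit 590306) (.g (nat_lit 2431) (.e (nat_lit 532513) (nat_lit 3) (.e (nat_lit 114714) (nat_lit 22) (.e (nat_lit 90174) (nat_lit 14) (.e (nat_lit 180243) (nat_lit 5) (.e (nat_lit 532501) (nat_lit 1) (.e (nat_lit 57661) (nat_lit 152) (.e (nat_lit 2716) (nat_lit 171) (.e (nat_lit 229433) (nat_lit 25) .nil)))))))) (.g (nat_lit 1) (.e (nat_lit 397634) (nat_lit 0) .nil) .nil))) 
(.lf (nat_lit 590818) (.g (nat_lit 3802) (.e (nat_lit 532523) (nat_lit 7) (.e (nat_lit 319533) (nat_lit 16) (.e (nat_lit 286735) (nat_lit 3) (.e (nat_lit 98370) (nat_lit 28) (.e (nat_lit 442410) (nat_lit 20) (.e (nat_lit 3238) (nat_lit 197) .nil)))))) (.g (nat_lit 1) (.e (nat_lit 398917) (nat_lit 0) .nil) .nil)))))))) 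
(.nd (nat_lit 5) (.nd (nat_lit 6) (.nd (nat_lit 7) (.nd (nat_lit 8) (.nd (nat_lit 9) 
(.lf (nat_lit 589842) (.g (nat_lit 3556) (.e (nat_lit 532504) (nat_lit 1) (.e (nat_lit 57692) (nat_lit 156) (.e (nat_lit 163874) (nat_lit 3) (.e (nat_lit 204837) (nat_lit 20) (.e (nat_lit 114719) (nat_lit 23) (.e (nat_lit 98367) (nat_lit 27) (.e (nat_lit 434234) (nat_lit 23) .nil))))))) (.g (nat_lit 1) (.e (nat_lit 396951) (nat_lit 0) .nil) .nil))) 
(.lf (nat_lit 590354) (.g (nat_lit 4281) (.e (nat_lit 532513) (nat_lit 3) (.e (nat_lit 114718) (nat_lit 23) (.e (nat_lit 98356) (nat_lit 26) (.e (nat_lit 426438) (nat_lit 18) (.e (nat_lit 98334) (nat_lit 18) (.e (nat_lit 164305) (nat_lit 226) (.e (nat_lit 2612) (nat_lit 163) (.e (nat_lit 163964) (nat_lit 25) .nil)))))))) (.g (nat_lit 1) (.e (nat_lit 397699) (nat_lit 0) .nil) .nil)))) 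
(.nd (nat_lit 9) 
(.lf (nat_lit 590098) (.g (nat_lit 1147) (.e (nat_lit 532510) (nat_lit 2) (.e (nat_lit 106536) (nat_lit 11) (.e (nat_lit 16413) (nat_lit 2) (.e (nat_lit 196674) (nat_lit 15) (.e (nat_lit 89856) (nat_lit 0) (.e (nat_lit 3245) (nat_lit 197) .nil)))))) (.g (nat_lit 1) (.e (nat_lit 397272) (nat_lit 0) .nil) .nil))) 
(.lf (nat_lit 590610) (.g (nat_lit 2330) (.e (nat_lit 532515) (nat_lit 3) (.e (nat_lit 114719) (nat_lit 23) (.e (nat_lit 98365) (nat_lit 26) (.e (nat_lit 426133) (nat_lit 3) (.e (nat_lit 204829) (nat_lit 18) .nil))))) (.g (nat_lit 0) (.e (nat_lit 398601) (nat_lit 0) .nil) .nil))))) (.nd (nat_lit 8) (.nd (nat_lit 9) 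
(.lf (nat_lit 589970) (.g (nat_lit 2913) (.e (nat_lit 532504) (nat_lit 1) (.e (nat_lit 57854) (nat_lit 252) (.e (nat_lit 57378) (nat_lit 3) (.e (nat_lit 98342) (nat_lit 20) (.e (nat_lit 221210) (nat_lit 22) (.e (nat_lit 196665) (nat_lit 13) (.e (nat_lit 65637) (nat_lit 15) (.e (nat_lit 3253) (nat_lit 197) .nil)))))))) (.g (nat_lit 1) (.e (nat_lit 397104) (nat_lit 0) .nil) .nil))) 
(.lf (nat_lit 590482) (.g (nat_lit 1131) (.e (nat_lit 532515) (nat_lit 3) (.e (nat_lit 114698) (nat_lit 11) (.e (nat_lit 426124) (nat_lit 2) (.e (nat_lit 196681) (nat_lit 17) .nil)))) (.g (nat_lit 0) (.e (nat_lit 398056) (nat_lit 0) .nil) .nil)))) (.nd (nat_lit 9) 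
(.lf (nat_lit 590226) (.g (nat_lit 3612) (.e (nat_lit 532513) (nat_lit 3) (.e (nat_lit 114714) (nat_lit 22) (.e (nat_lit 90172) (nat_lit 14) (.e (nat_lit 180243) (nat_lit 5) (.e (nat_lit 532504) (nat_lit 1) (.e (nat_lit 57665) (nat_lit 152) (.e (nat_lit 7936) (nat_lit 163) (.e (nat_lit 163962) (nat_lit 25) .nil)))))))) (.g (nat_lit 1) (.e (nat_lit 397529) (nat_lit 0) .nil) .nil))) 
(.lf (nat_lit 590738) (.g (nat_lit 1431) (.e (nat_lit 532523) (nat_lit 7) (.e (nat_lit 319531) (nat_lit 16) (.e (nat_lit 286735) (nat_lit 3) (.e (nat_lit 98320) (nat_lit 17) .nil)))) (.g (nat_lit 0) (.e (nat_lit 398823) (nat_lit 0) .nil) .nil)))))) (.nd (nat_lit 7) (.nd (nat_lit 8) (.nd (nat_lit 9) 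
(.lf (nat_lit 589906) (.g (nat_lit 2770) (.e (nat_lit 532504) (nat_lit 1) (.e (nat_lit 57851) (nat_lit 252) (.e (nat_lit 57406) (nat_lit 12) (.e (nat_lit 336456) (nat_lit 34) (.e (nat_lit 483383) (nat_lit 23) (.e (nat_lit 336260) (nat_lit 15) (.e (nat_lit 3254) (nat_lit 197) .nil))))))) (.g (nat_lit 1) (.e (nat_lit 397030) (nat_lit 0) .nil) .nil))) 
(.lf (nat_lit 590418) (.g (nat_lit 449) (.e (nat_lit 532514) (nat_lit 3) (.e (nat_lit 114718) (nat_lit 23) (.e (nat_lit 98334) (nat_lit 18) .nil))) (.g (nat_lit 0) (.e (nat_lit 397924) (nat_lit 0) .nil) .nil)))) (.nd (nat_lit 9) 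
(.lf (nat_lit 590162) (.g (nat_lit 3089) (.e (nat_lit 532513) (nat_lit 3) (.e (nat_lit 114698) (nat_lit 11) (.e (nat_lit 426138) (nat_lit 3) (.e (nat_lit 204861) (nat_lit 26) (.e (nat_lit 336194) (nat_lit 12) (.e (nat_lit 385068) (nat_lit 26) .nil)))))) (.g (nat_lit 1) (.e (nat_lit 397397) (nat_lit 0) .nil) .nil))) 
(.lf (nat_lit 590674) (.g (nat_lit 2949) (.e (nat_lit 532523) (nat_lit 7) (.e (nat_lit 319490) (nat_lit 0) (.e (nat_lit 5664) (nat_lit 312) (.e (nat_lit 2679) (nat_lit 168) (.e (nat_lit 204864) (nat_lit 27) .nil))))) (.g (nat_lit 0) (.e (nat_lit 398737) (nat_lit 0) .nil) .nil))))) (.nd (nat_lit 8) (.nd (nat_lit 9) 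
(.lf (nat_lit 590034) (.g (nat_lit 2392) (.e (nat_lit 532507) (nat_lit 2) (.e (nat_lit 106536) (nat_lit 11) (.e (nat_lit 16412) (nat_lit 2) (.e (nat_lit 196681) (nat_lit 17) .nil)))) (.g (nat_lit 0) (.e (nat_lit 397188) (nat_lit 0) .nil) .nil))) 
(.lf (nat_lit 590546) (.g (nat_lit 1656) (.e (nat_lit 532515) (nat_lit 3) (.e (nat_lit 114716) (nat_lit 22) (.e (nat_lit 90174) (nat_lit 14) (.e (nat_lit 180243) (nat_lit 5) (.e (nat_lit 532575) (nat_lit 17) (.e (nat_lit 7098) (nat_lit 380) (.e (nat_lit 171776) (nat_lit 86) .nil))))))) (.g (nat_lit 1) (.e (nat_lit 398432) (nat_lit 0) .nil) .nil)))) (.nd (nat_lit 9) 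
(.lf (nat_lit 590290) (.g (nat_lit 410) (.e (nat_lit 532513) (nat_lit 3) (.e (nat_lit 114714) (nat_lit 22) (.e (nat_lit 90174) (nat_lit 14) .nil))) (.g (nat_lit 0) (.e (nat_lit 397614) (nat_lit 0) .nil) .nil))) 
(.lf (nat_lit 590802) (.g (nat_lit 3793) (.e (nat_lit 532523) (nat_lit 7) (.e (nat_lit 319533) (nat_lit 16) (.e (nat_lit 286735) (nat_lit 3) (.e (nat_lit 98359) (nat_lit 26) (.e (nat_lit 426281) (nat_lit 10) .nil))))) (.g (nat_lit 0) (.e (nat_lit 398901) (nat_lit 0) .nil) .nil))))))) (.nd (nat_lit 6) (.nd (nat_lit 7) (.nd (nat_lit 8) (.nd (nat_lit 9) 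
(.lf (nat_lit 589874) (.g (nat_lit 3287) (.e (nat_lit 532504) (nat_lit 1) (.e (nat_lit 57851) (nat_lit 252) (.e (nat_lit 57406) (nat_lit 12) (.e (nat_lit 336454) (nat_lit 34) (.e (nat_lit 483384) (nat_lit 23) (.e (nat_lit 336306) (nat_lit 15) (.e (nat_lit 3238) (nat_lit 197) .nil))))))) (.g (nat_lit 1) (.e (nat_lit 396998) (nat_lit 0) .nil) .nil))) 
(.lf (nat_lit 590386) (.g (nat_lit 1811) (.e (nat_lit 532514) (nat_lit 3) (.e (nat_lit 114697) (nat_lit 11) (.e (nat_lit 426123) (nat_lit 2) (.e (nat_lit 196666) (nat_lit 13) (.e (nat_lit 65624) (nat_lit 12) .nil))))) (.g (nat_lit 0) (.e (nat_lit 397787) (nat_lit 0) .nil) .nil)))) (.nd (nat_lit 9) 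
(.lf (nat_lit 590130) (.g (nat_lit 978) (.e (nat_lit 532511) (nat_lit 2) (.e (nat_lit 106536) (nat_lit 11) (.e (nat_lit 16413) (nat_lit 2) (.e (nat_lit 196672) (nat_lit 15) (.e (nat_lit 89856) (nat_lit 0) (.e (nat_lit 3247) (nat_lit 197) .nil)))))) (.g (nat_lit 1) (.e (nat_lit 397310) (nat_lit 0) .nil) .nil))) 
(.lf (nat_lit 590642) (.g (nat_lit 2382) (.e (nat_lit 532522) (nat_lit 7) (.e (nat_lit 319530) (nat_lit 16) (.e (nat_lit 286733) (nat_lit 2) (.e (nat_lit 90134) (nat_lit 9) (.e (nat_lit 2876) (nat_lit 184) .nil))))) (.g (nat_lit 0) (.e (nat_lit 398697) (nat_lit 0) .nil) .nil))))) (.nd (nat_lit 8) (.nd (nat_lit 9) 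
(.lf (nat_lit 590002) (.g (nat_lit 2630) (.e (nat_lit 532504) (nat_lit 1) (.e (nat_lit 57931) (nat_lit 282) (.e (nat_lit 163869) (nat_lit 2) (.e (nat_lit 196668) (nat_lit 14) (.e (nat_lit 73747) (nat_lit 3) .nil))))) (.g (nat_lit 0) (.e (nat_lit 397142) (nat_lit 0) .nil) .nil))) 
(.lf (nat_lit 590514) (.g (nat_lit 3117) (.e (nat_lit 532515) (nat_lit 3) (.e (nat_lit 114716) (nat_lit 22) (.e (nat_lit 90172) (nat_lit 14) (.e (nat_lit 180243) (nat_lit 5) (.e (nat_lit 532503) (nat_lit 1) (.e (nat_lit 57687) (nat_lit 156) (.e (nat_lit 163843) (nat_lit 0) (.e (nat_lit 3248) (nat_lit 197) .nil)))))))) (.g (nat_lit 1) (.e (nat_lit 398212) (nat_lit 0) .nil) .nil)))) 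
(.nd (nat_lit 9) 
(.lf (nat_lit 590258) (.g (nat_lit 2364) (.e (nat_lit 532513) (nat_lit 3) (.e (nat_lit 114714) (nat_lit 22) (.e (nat_lit 90172) (nat_lit 14) (.e (nat_lit 180244) (nat_lit 5) (.e (nat_lit 532503) (nat_lit 1) (.e (nat_lit 57652) (nat_lit 152) (.e (nat_lit 2715) (nat_lit 171) (.e (nat_lit 229433) (nat_lit 25) .nil)))))))) (.g (nat_lit 1) (.e (nat_lit 397575) (nat_lit 0) .nil) .nil))) 
(.lf (nat_lit 590770) (.g (nat_lit 313) (.e (nat_lit 532523) (nat_lit 7) (.e (nat_lit 319533) (nat_lit 16) (.e (nat_lit 286724) (nat_lit 0) .nil))) (.g (nat_lit 0) (.e (nat_lit 398856) (nat_lit 0) .nil) .nil)))))) (.nd (nat_lit 7) (.nd (nat_lit 8) (.nd (nat_lit 9) 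
(.lf (nat_lit 589938) (.g (nat_lit 3776) (.e (nat_lit 532504) (nat_lit 1) (.e (nat_lit 57852) (nat_lit 252) (.e (nat_lit 57378) (nat_lit 3) (.e (nat_lit 98341) (nat_lit 20) (.e (nat_lit 221210) (nat_lit 22) (.e (nat_lit 196665) (nat_lit 13) (.e (nat_lit 65637) (nat_lit 15) (.e (nat_lit 3253) (nat_lit 197) .nil)))))))) (.g (nat_lit 1) (.e (nat_lit 397062) (nat_lit 0) .nil) .nil))) 
(.lf (nat_lit 590450) (.g (nat_lit 2418) (.e (nat_lit 532514) (nat_lit 3) (.e (nat_lit 114719) (nat_lit 23) (.e (nat_lit 98365) (nat_lit 26) (.e (nat_lit 426116) (nat_lit 2) (.e (nat_lit 196649) (nat_lit 10) .nil))))) (.g (nat_lit 0) (.e (nat_lit 397957) (nat_lit 0) .nil) .nil)))) (.nd (nat_lit 9) 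
(.lf (nat_lit 590194) (.g (nat_lit 3795) (.e (nat_lit 532513) (nat_lit 3) (.e (nat_lit 114714) (nat_lit 22) (.e (nat_lit 90170) (nat_lit 13) (.e (nat_lit 172067) (nat_lit 3) (.e (nat_lit 204830) (nat_lit 18) (.e (nat_lit 57663) (nat_lit 152) (.e (nat_lit 2612) (nat_lit 163) (.e (nat_lit 163964) (nat_lit 25) .nil)))))))) (.g (nat_lit 1) (.e (nat_lit 397485) (nat_lit 0) .nil) .nil))) 
(.lf (nat_lit 590706) (.g (nat_lit 2798) (.e (nat_lit 532523) (nat_lit 7) (.e (nat_lit 319529) (nat_lit 16) (.e (nat_lit 286735) (nat_lit 3) (.e (nat_lit 98381) (nat_lit 31) (.e (nat_lit 466955) (nat_lit 20) .nil))))) (.g (nat_lit 0) (.e (nat_lit 398785) (nat_lit 0) .nil) .nil))))) (.nd (nat_lit 8) (.nd (nat_lit 9) 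
(.lf (nat_lit 590066) (.g (nat_lit 1116) (.e (nat_lit 532509) (nat_lit 2) (.e (nat_lit 106536) (nat_lit 11) (.e (nat_lit 16413) (nat_lit 2) (.e (nat_lit 196672) (nat_lit 15) (.e (nat_lit 89856) (nat_lit 0) .nil))))) (.g (nat_lit 0) (.e (nat_lit 397236) (nat_lit 0) .nil) .nil))) 
(.lf (nat_lit 590578) (.g (nat_lit 3664) (.e (nat_lit 532515) (nat_lit 3) (.e (nat_lit 114719) (nat_lit 23) (.e (nat_lit 98350) (nat_lit 24) (.e (nat_lit 409616) (nat_lit 10) (.e (nat_lit 632) (nat_lit 50) (.e (nat_lit 573489) (nat_lit 14) (.e (nat_lit 81664) (nat_lit 5) .nil))))))) (.g (nat_lit 1) (.e (nat_lit 398535) (nat_lit 0) .nil) .nil)))) (.nd (nat_lit 9) 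
(.lf (nat_lit 590322) (.g (nat_lit 2748) (.e (nat_lit 532513) (nat_lit 3) (.e (nat_lit 114714) (nat_lit 22) (.e (nat_lit 90174) (nat_lit 14) (.e (nat_lit 180243) (nat_lit 5) (.e (nat_lit 532503) (nat_lit 1) (.e (nat_lit 57685) (nat_lit 156) (.e (nat_lit 163850) (nat_lit 0) (.e (nat_lit 3252) (nat_lit 197) .nil)))))))) (.g (nat_lit 1) (.e (nat_lit 397654) (nat_lit 0) .nil) .nil))) 
(.lf (nat_lit 590834) (.g (nat_lit 3664) (.e (nat_lit 532523) (nat_lit 7) (.e (nat_lit 319534) (nat_lit 16) (.e (nat_lit 286732) (nat_lit 2) (.e (nat_lit 90178) (nat_lit 15) (.e (nat_lit 188424) (nat_lit 20) (.e (nat_lit 3238) (nat_lit 197) .nil)))))) (.g (nat_lit 1) (.e (nat_lit 398937) (nat_lit 0) .nil) .nil))))))))) 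
(.nd (nat_lit 4) (.nd (nat_lit 5) (.nd (nat_lit 6) (.nd (nat_lit 7) (.nd (nat_lit 8) 
(.nd (nat_lit 9) 
(.lf (nat_lit 589834) (.g (nat_lit 2252) (.e (nat_lit 532504) (nat_lit 1) (.e (nat_lit 57691) (nat_lit 156) (.e (nat_lit 163875) (nat_lit 3) (.e (nat_lit 204838) (nat_lit 20) (.e (nat_lit 114718) (nat_lit 23) .nil))))) (.g (nat_lit 0) (.e (nat_lit 396939) (nat_lit 0) .nil) .nil))) 
(.lf (nat_lit 590346) (.g (nat_lit 4234) (.e (nat_lit 532513) (nat_lit 3) (.e (nat_lit 114718) (nat_lit 23) (.e (nat_lit 98333) (nat_lit 18) (.e (nat_lit 164403) (nat_lit 256) (.e (nat_lit 57378) (nat_lit 3) (.e (nat_lit 98366) (nat_lit 27) (.e (nat_lit 434231) (nat_lit 23) .nil))))))) (.g (nat_lit 1) (.e (nat_lit 397687) (nat_lit 0) .nil) .nil)))) (.nd (nat_lit 9) 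
(.lf (nat_lit 590090) (.g (nat_lit 1123) (.e (nat_lit 532510) (nat_lit 2) (.e (nat_lit 106536) (nat_lit 11) (.e (nat_lit 16413) (nat_lit 2) (.e (nat_lit 196672) (nat_lit 15) (.e (nat_lit 89856) (nat_lit 0) (.e (nat_lit 3254) (nat_lit 197) .nil)))))) (.g (nat_lit 1) (.e (nat_lit 397264) (nat_lit 0) .nil) .nil))) 
(.lf (nat_lit 590602) (.g (nat_lit 1615) (.e (nat_lit 532515) (nat_lit 3) (.e (nat_lit 114719) (nat_lit 23) (.e (nat_lit 98365) (nat_lit 26) (.e (nat_lit 426133) (nat_lit 3) .nil)))) (.g (nat_lit 0) (.e (nat_lit 398592) (nat_lit 0) .nil) .nil))))) (.nd (nat_lit 8) (.nd (nat_lit 9) 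
(.lf (nat_lit 589962) (.g (nat_lit 802) (.e (nat_lit 532504) (nat_lit 1) (.e (nat_lit 57852) (nat_lit 252) (.e (nat_lit 57439) (nat_lit 18) .nil))) (.g (nat_lit 0) (.e (nat_lit 397091) (nat_lit 0) .nil) .nil))) 
(.lf (nat_lit 590474) (.g (nat_lit 451) (.e (nat_lit 532515) (nat_lit 3) (.e (nat_lit 114698) (nat_lit 11) (.e (nat_lit 426123) (nat_lit 2) .nil))) (.g (nat_lit 0) (.e (nat_lit 398038) (nat_lit 0) .nil) .nil)))) (.nd (nat_lit 9) 
(.lf (nat_lit 590218) (.g (nat_lit 3535) (.e (nat_lit 532513) (nat_lit 3) (.e (nat_lit 114714) (nat_lit 22) (.e (nat_lit 90172) (nat_lit 14) (.e (nat_lit 180243) (nat_lit 5) (.e (nat_lit 532503) (nat_lit 1) (.e (nat_lit 57688) (nat_lit 156) (.e (nat_lit 163850) (nat_lit 0) (.e (nat_lit 3252) (nat_lit 197) .nil)))))))) (.g (nat_lit 1) (.e (nat_lit 397518) (nat_lit 0) .nil) .nil))) 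
(.lf (nat_lit 590730) (.g (nat_lit 2428) (.e (nat_lit 532523) (nat_lit 7) (.e (nat_lit 319531) (nat_lit 16) (.e (nat_lit 286733) (nat_lit 2) (.e (nat_lit 90134) (nat_lit 9) (.e (nat_lit 2878) (nat_lit 184) .nil))))) (.g (nat_lit 0) (.e (nat_lit 398813) (nat_lit 0) .nil) .nil)))))) (.nd (nat_lit 7) (.nd (nat_lit 8) (.nd (nat_lit 9) 
(.lf (nat_lit 589898) (.g (nat_lit 3247) (.e (nat_lit 532504) (nat_lit 1) (.e (nat_lit 57851) (nat_lit 252) (.e (nat_lit 57406) (nat_lit 12) (.e (nat_lit 336456) (nat_lit 34) (.e (nat_lit 483383) (nat_lit 23) (.e (nat_lit 336258) (nat_lit 15) (.e (nat_lit 3237) (nat_lit 197) .nil))))))) (.g (nat_lit 1) (.e (nat_lit 397022) (nat_lit 0) .nil) .nil))) 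
(.lf (nat_lit 590410) (.g (nat_lit 1470) (.e (nat_lit 532514) (nat_lit 3) (.e (nat_lit 114716) (nat_lit 22) (.e (nat_lit 90172) (nat_lit 14) (.e (nat_lit 180241) (nat_lit 4) (.e (nat_lit 524339) (nat_lit 27) (.e (nat_lit 352000) (nat_lit 23) .nil)))))) (.g (nat_lit 1) (.e (nat_lit 397903) (nat_lit 0) .nil) .nil)))) (.nd (nat_lit 9) 
(.lf (nat_lit 590154) (.g (nat_lit 1669) (.e (nat_lit 532513) (nat_lit 3) (.e (nat_lit 114698) (nat_lit 11) (.e (nat_lit 426123) (nat_lit 2) (.e (nat_lit 196662) (nat_lit 13) .nil)))) (.g (nat_lit 0) (.e (nat_lit 397368) (nat_lit 0) .nil) .nil))) 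
(.lf (nat_lit 590666) (.g (nat_lit 1618) (.e (nat_lit 532522) (nat_lit 7) (.e (nat_lit 319534) (nat_lit 16) (.e (nat_lit 286733) (nat_lit 2) (.e (nat_lit 90134) (nat_lit 9) .nil)))) (.g (nat_lit 0) (.e (nat_lit 398726) (nat_lit 0) .nil) .nil))))) (.nd (nat_lit 8) (.nd (nat_lit 9) 
(.lf (nat_lit 590026) (.g (nat_lit 1435) (.e (nat_lit 532506) (nat_lit 2) (.e (nat_lit 106536) (nat_lit 11) (.e (nat_lit 16411) (nat_lit 2) (.e (nat_lit 196681) (nat_lit 17) (.e (nat_lit 131120) (nat_lit 12) .nil))))) (.g (nat_lit 0) (.e (nat_lit 397170) (nat_lit 0) .nil) .nil))) 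
(.lf (nat_lit 590538) (.g (nat_lit 2743) (.e (nat_lit 532515) (nat_lit 3) (.e (nat_lit 114716) (nat_lit 22) (.e (nat_lit 90174) (nat_lit 14) (.e (nat_lit 180243) (nat_lit 5) (.e (nat_lit 532502) (nat_lit 1) (.e (nat_lit 57688) (nat_lit 156) (.e (nat_lit 163843) (nat_lit 0) (.e (nat_lit 3248) (nat_lit 197) .nil)))))))) (.g (nat_lit 1) (.e (nat_lit 398382) (nat_lit 0) .nil) .nil)))) 
(.nd (nat_lit 9) 
(.lf (nat_lit 590282) (.g (nat_lit 1018) (.e (nat_lit 532513) (nat_lit 3) (.e (nat_lit 114714) (nat_lit 22) (.e (nat_lit 90172) (nat_lit 14) (.e (nat_lit 188160) (nat_lit 3) .nil)))) (.g (nat_lit 0) (.e (nat_lit 397605) (nat_lit 0) .nil) .nil))) 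
(.lf (nat_lit 590794) (.g (nat_lit 1603) (.e (nat_lit 532523) (nat_lit 7) (.e (nat_lit 319533) (nat_lit 16) (.e (nat_lit 286734) (nat_lit 3) (.e (nat_lit 98366) (nat_lit 27) .nil)))) (.g (nat_lit 0) (.e (nat_lit 398893) (nat_lit 0) .nil) .nil))))))) (.nd (nat_lit 6) (.nd (nat_lit 7) (.nd (nat_lit 8) (.nd (nat_lit 9) 
(.lf (nat_lit 589866) (.g (nat_lit 2241) (.e (nat_lit 532504) (nat_lit 1) (.e (nat_lit 57851) (nat_lit 252) (.e (nat_lit 57406) (nat_lit 12) (.e (nat_lit 336367) (nat_lit 27) (.e (nat_lit 426542) (nat_lit 29) (.e (nat_lit 360192) (nat_lit 0) (.e (nat_lit 3233) (nat_lit 197) .nil))))))) (.g (nat_lit 1) (.e (nat_lit 396990) (nat_lit 0) .nil) .nil))) 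
(.lf (nat_lit 590378) (.g (nat_lit 913) (.e (nat_lit 532513) (nat_lit 3) (.e (nat_lit 114719) (nat_lit 23) (.e (nat_lit 98357) (nat_lit 26) .nil))) (.g (nat_lit 0) (.e (nat_lit 397744) (nat_lit 0) .nil) .nil)))) (.nd (nat_lit 9) 
(.lf (nat_lit 590122) (.g (nat_lit 397) (.e (nat_lit 532511) (nat_lit 2) (.e (nat_lit 106536) (nat_lit 11) (.e (nat_lit 16410) (nat_lit 2) .nil))) (.g (nat_lit 0) (.e (nat_lit 397302) (nat_lit 0) .nil) .nil))) 
(.lf (nat_lit 590634) (.g (nat_lit 3593) (.e (nat_lit 532515) (nat_lit 3) (.e (nat_lit 114719) (nat_lit 23) (.e (nat_lit 98386) (nat_lit 32) (.e (nat_lit 475179) (nat_lit 24) (.e (nat_lit 516120) (nat_lit 1) (.e (nat_lit 164330) (nat_lit 230) (.e (nat_lit 163850) (nat_lit 0) (.e (nat_lit 3252) (nat_lit 197) .nil)))))))) (.g (nat_lit 1) (.e (nat_lit 398674) (nat_lit 0) .nil) .nil))))) 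
(.nd (nat_lit 8) (.nd (nat_lit 9) 
(.lf (nat_lit 589994) (.g (nat_lit 2585) (.e (nat_lit 532504) (nat_lit 1) (.e (nat_lit 57931) (nat_lit 282) (.e (nat_lit 163867) (nat_lit 2) (.e (nat_lit 196668) (nat_lit 14) (.e (nat_lit 73746) (nat_lit 3) .nil))))) (.g (nat_lit 0) (.e (nat_lit 397133) (nat_lit 0) .nil) .nil))) 
(.lf (nat_lit 590506) (.g (nat_lit 4192) (.e (nat_lit 532515) (nat_lit 3) (.e (nat_lit 114716) (nat_lit 22) (.e (nat_lit 90169) (nat_lit 13) (.e (nat_lit 172133) (nat_lit 15) (.e (nat_lit 1800) (nat_lit 119) (.e (nat_lit 516117) (nat_lit 1) (.e (nat_lit 164329) (nat_lit 230) (.e (nat_lit 163850) (nat_lit 0) (.e (nat_lit 3252) (nat_lit 197) .nil))))))))) (.g (nat_lit 1) (.e (nat_lit 398172) (nat_lit 0) .nil) .nil)))) 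
(.nd (nat_lit 9) 
(.lf (nat_lit 590250) (.g (nat_lit 3235) (.e (nat_lit 532513) (nat_lit 3) (.e (nat_lit 114714) (nat_lit 22) (.e (nat_lit 90172) (nat_lit 14) (.e (nat_lit 180244) (nat_lit 5) (.e (nat_lit 532501) (nat_lit 1) (.e (nat_lit 57663) (nat_lit 152) (.e (nat_lit 2716) (nat_lit 171) (.e (nat_lit 229433) (nat_lit 25) .nil)))))))) (.g (nat_lit 1) (.e (nat_lit 397562) (nat_lit 0) .nil) .nil))) 
(.lf (nat_lit 590762) (.g (nat_lit 2833) (.e (nat_lit 532523) (nat_lit 7) (.e (nat_lit 319532) (nat_lit 16) (.e (nat_lit 286733) (nat_lit 2) (.e (nat_lit 90178) (nat_lit 15) (.e (nat_lit 188436) (nat_lit 20) .nil))))) (.g (nat_lit 0) (.e (nat_lit 398848) (nat_lit 0) .nil) .nil)))))) (.nd (nat_lit 7) (.nd (nat_lit 8) (.nd (nat_lit 9) 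
(.lf (nat_lit 589930) (.g (nat_lit 2662) (.e (nat_lit 532504) (nat_lit 1) (.e (nat_lit 57852) (nat_lit 252) (.e (nat_lit 57357) (nat_lit 0) (.e (nat_lit 1858) (nat_lit 124) (.e (nat_lit 557105) (nat_lit 14) (.e (nat_lit 180251) (nat_lit 10) (.e (nat_lit 573479) (nat_lit 13) (.e (nat_lit 65637) (nat_lit 15) (.e (nat_lit 3253) (nat_lit 197) .nil))))))))) (.g (nat_lit 1) (.e (nat_lit 397054) (nat_lit 0) .nil) .nil))) 
(.lf (nat_lit 590442) (.g (nat_lit 2032) (.e (nat_lit 532514) (nat_lit 3) (.e (nat_lit 114719) (nat_lit 23) (.e (nat_lit 98356) (nat_lit 26) (.e (nat_lit 426428) (nat_lit 17) (.e (nat_lit 98048) (nat_lit 5) .nil))))) (.g (nat_lit 0) (.e (nat_lit 397949) (nat_lit 0) .nil) .nil)))) (.nd (nat_lit 9) 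
(.lf (nat_lit 590186) (.g (nat_lit 2094) (.e (nat_lit 532513) (nat_lit 3) (.e (nat_lit 114714) (nat_lit 22) (.e (nat_lit 90170) (nat_lit 13) (.e (nat_lit 172065) (nat_lit 3) (.e (nat_lit 204829) (nat_lit 18) .nil))))) (.g (nat_lit 0) (.e (nat_lit 397475) (nat_lit 0) .nil) .nil))) 
(.lf (nat_lit 590698) (.g (nat_lit 4331) (.e (nat_lit 532523) (nat_lit 7) (.e (nat_lit 319529) (nat_lit 16) (.e (nat_lit 286733) (nat_lit 2) (.e (nat_lit 90178) (nat_lit 15) (.e (nat_lit 188440) (nat_lit 20) (.e (nat_lit 3238) (nat_lit 197) .nil)))))) (.g (nat_lit 1) (.e (nat_lit 398777) (nat_lit 0) .nil) .nil))))) (.nd (nat_lit 8) (.nd (nat_lit 9) 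
(.lf (nat_lit 590058) (.g (nat_lit 1071) (.e (nat_lit 532508) (nat_lit 2) (.e (nat_lit 106536) (nat_lit 11) (.e (nat_lit 16413) (nat_lit 2) (.e (nat_lit 196674) (nat_lit 15) .nil)))) (.g (nat_lit 0) (.e (nat_lit 397223) (nat_lit 0) .nil) .nil))) 
(.lf (nat_lit 590570) (.g (nat_lit 545) (.e (nat_lit 532515) (nat_lit 3) (.e (nat_lit 114719) (nat_lit 23) (.e (nat_lit 98323) (nat_lit 17) .nil))) (.g (nat_lit 0) (.e (nat_lit 398510) (nat_lit 0) .nil) .nil)))) (.nd (nat_lit 9) 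
(.lf (nat_lit 590314) (.g (nat_lit 3767) (.e (nat_lit 532513) (nat_lit 3) (.e (nat_lit 114714) (nat_lit 22) (.e (nat_lit 90174) (nat_lit 14) (.e (nat_lit 180243) (nat_lit 5) (.e (nat_lit 532501) (nat_lit 1) (.e (nat_lit 57665) (nat_lit 152) (.e (nat_lit 7936) (nat_lit 163) (.e (nat_lit 163962) (nat_lit 25) .nil)))))))) (.g (nat_lit 1) (.e (nat_lit 397643) (nat_lit 0) .nil) .nil))) 
(.lf (nat_lit 590826) (.g (nat_lit 2045) (.e (nat_lit 532523) (nat_lit 7) (.e (nat_lit 319533) (nat_lit 16) (.e (nat_lit 286735) (nat_lit 3) (.e (nat_lit 98382) (nat_lit 31) (.e (nat_lit 466955) (nat_lit 20) .nil))))) (.g (nat_lit 0) (.e (nat_lit 398925) (nat_lit 0) .nil) .nil)))))))) (.nd (nat_lit 5) (.nd (nat_lit 6) (.nd (nat_lit 7) (.nd (nat_lit 8) (.nd (nat_lit 9) 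
(.lf (nat_lit 589850) (.g (nat_lit 2278) (.e (nat_lit 532504) (nat_lit 1) (.e (nat_lit 57692) (nat_lit 156) (.e (nat_lit 163905) (nat_lit 12) (.e (nat_lit 426566) (nat_lit 34) (.e (nat_lit 393284) (nat_lit 24) (.e (nat_lit 434233) (nat_lit 23) .nil)))))) (.g (nat_lit 1) (.e (nat_lit 396961) (nat_lit 0) .nil) .nil))) 
(.lf (nat_lit 590362) (.g (nat_lit 3931) (.e (nat_lit 532513) (nat_lit 3) (.e (nat_lit 114719) (nat_lit 23) (.e (nat_lit 98333) (nat_lit 18) (.e (nat_lit 164403) (nat_lit 256) (.e (nat_lit 57378) (nat_lit 3) (.e (nat_lit 98366) (nat_lit 27) (.e (nat_lit 434231) (nat_lit 23) .nil))))))) (.g (nat_lit 1) (.e (nat_lit 397722) (nat_lit 0) .nil) .nil)))) (.nd (nat_lit 9) 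
(.lf (nat_lit 590106) (.g (nat_lit 1471) (.e (nat_lit 532511) (nat_lit 2) (.e (nat_lit 106534) (nat_lit 11) (.e (nat_lit 16412) (nat_lit 2) (.e (nat_lit 196672) (nat_lit 15) (.e (nat_lit 89856) (nat_lit 0) .nil))))) (.g (nat_lit 0) (.e (nat_lit 397284) (nat_lit 0) .nil) .nil))) 
(.lf (nat_lit 590618) (.g (nat_lit 1843) (.e (nat_lit 532515) (nat_lit 3) (.e (nat_lit 114719) (nat_lit 23) (.e (nat_lit 98366) (nat_lit 27) (.e (nat_lit 434231) (nat_lit 23) (.e (nat_lit 532575) (nat_lit 17) (.e (nat_lit 7098) (nat_lit 380) (.e (nat_lit 171776) (nat_lit 86) .nil))))))) (.g (nat_lit 1) (.e (nat_lit 398616) (nat_lit 0) .nil) .nil))))) (.nd (nat_lit 8) (.nd (nat_lit 9) 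
(.lf (nat_lit 589978) (.g (nat_lit 2547) (.e (nat_lit 532504) (nat_lit 1) (.e (nat_lit 57854) (nat_lit 252) (.e (nat_lit 57406) (nat_lit 12) (.e (nat_lit 336456) (nat_lit 34) (.e (nat_lit 483393) (nat_lit 23) (.e (nat_lit 336293) (nat_lit 15) (.e (nat_lit 3253) (nat_lit 197) .nil))))))) (.g (nat_lit 1) (.e (nat_lit 397113) (nat_lit 0) .nil) .nil))) 
(.lf (nat_lit 590490) (.g (nat_lit 1175) (.e (nat_lit 532515) (nat_lit 3) (.e (nat_lit 114698) (nat_lit 11) (.e (nat_lit 426139) (nat_lit 3) (.e (nat_lit 204859) (nat_lit 26) .nil)))) (.g (nat_lit 0) (.e (nat_lit 398069) (nat_lit 0) .nil) .nil)))) (.nd (nat_lit 9) 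
(.lf (nat_lit 590234) (.g (nat_lit 2371) (.e (nat_lit 532513) (nat_lit 3) (.e (nat_lit 114714) (nat_lit 22) (.e (nat_lit 90172) (nat_lit 14) (.e (nat_lit 180244) (nat_lit 5) (.e (nat_lit 532499) (nat_lit 1) (.e (nat_lit 57659) (nat_lit 152) (.e (nat_lit 2715) (nat_lit 171) (.e (nat_lit 229433) (nat_lit 25) .nil)))))))) (.g (nat_lit 1) (.e (nat_lit 397542) (nat_lit 0) .nil) .nil))) 
(.lf (nat_lit 590746) (.g (nat_lit 1870) (.e (nat_lit 532523) (nat_lit 7) (.e (nat_lit 319531) (nat_lit 16) (.e (nat_lit 286735) (nat_lit 3) (.e (nat_lit 98361) (nat_lit 26) .nil)))) (.g (nat_lit 0) (.e (nat_lit 398831) (nat_lit 0) .nil) .nil)))))) (.nd (nat_lit 7) (.nd (nat_lit 8) (.nd (nat_lit 9) 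
(.lf (nat_lit 589914) (.g (nat_lit 2786) (.e (nat_lit 532504) (nat_lit 1) (.e (nat_lit 57851) (nat_lit 252) (.e (nat_lit 57406) (nat_lit 12) (.e (nat_lit 336456) (nat_lit 34) (.e (nat_lit 483393) (nat_lit 23) (.e (nat_lit 336271) (nat_lit 15) (.e (nat_lit 3233) (nat_lit 197) .nil))))))) (.g (nat_lit 1) (.e (nat_lit 397038) (nat_lit 0) .nil) .nil))) 
(.lf (nat_lit 590426) (.g (nat_lit 2008) (.e (nat_lit 532514) (nat_lit 3) (.e (nat_lit 114718) (nat_lit 23) (.e (nat_lit 98356) (nat_lit 26) (.e (nat_lit 426438) (nat_lit 18) (.e (nat_lit 98334) (nat_lit 18) (.e (nat_lit 164305) (nat_lit 226) (.e (nat_lit 2612) (nat_lit 163) (.e (nat_lit 163961) (nat_lit 25) .nil)))))))) (.g (nat_lit 1) (.e (nat_lit 397932) (nat_lit 0) .nil) .nil)))) 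
(.nd (nat_lit 9) 
(.lf (nat_lit 590170) (.g (nat_lit 2615) (.e (nat_lit 532513) (nat_lit 3) (.e (nat_lit 122624) (nat_lit 11) (.e (nat_lit 426125) (nat_lit 2) (.e (nat_lit 196681) (nat_lit 17) (.e (nat_lit 131120) (nat_lit 12) (.e (nat_lit 385068) (nat_lit 26) .nil)))))) (.g (nat_lit 1) (.e (nat_lit 397417) (nat_lit 0) .nil) .nil))) 
(.lf (nat_lit 590682) (.g (nat_lit 4293) (.e (nat_lit 532523) (nat_lit 7) (.e (nat_lit 319538) (nat_lit 19) (.e (nat_lit 311315) (nat_lit 3) (.e (nat_lit 204846) (nat_lit 24) (.e (nat_lit 319504) (nat_lit 10) (.e (nat_lit 7936) (nat_lit 315) (.e (nat_lit 163962) (nat_lit 25) .nil))))))) (.g (nat_lit 1) (.e (nat_lit 398753) (nat_lit 0) .nil) .nil))))) (.nd (nat_lit 8) (.nd (nat_lit 9) 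
(.lf (nat_lit 590042) (.g (nat_lit 2454) (.e (nat_lit 532507) (nat_lit 2) (.e (nat_lit 106537) (nat_lit 12) (.e (nat_lit 57476) (nat_lit 28) (.e (nat_lit 557090) (nat_lit 12) (.e (nat_lit 164038) (nat_lit 55) .nil))))) (.g (nat_lit 0) (.e (nat_lit 397197) (nat_lit 0) .nil) .nil))) 
(.lf (nat_lit 590554) (.g (nat_lit 1569) (.e (nat_lit 532515) (nat_lit 3) (.e (nat_lit 114717) (nat_lit 23) (.e (nat_lit 98333) (nat_lit 18) (.e (nat_lit 164399) (nat_lit 256) (.e (nat_lit 57370) (nat_lit 2) .nil))))) (.g (nat_lit 0) (.e (nat_lit 398475) (nat_lit 0) .nil) .nil)))) (.nd (nat_lit 9) 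
(.lf (nat_lit 590298) (.g (nat_lit 3710) (.e (nat_lit 532513) (nat_lit 3) (.e (nat_lit 114714) (nat_lit 22) (.e (nat_lit 90174) (nat_lit 14) (.e (nat_lit 180243) (nat_lit 5) (.e (nat_lit 532499) (nat_lit 1) (.e (nat_lit 57665) (nat_lit 152) (.e (nat_lit 7936) (nat_lit 163) (.e (nat_lit 163962) (nat_lit 25) .nil)))))))) (.g (nat_lit 1) (.e (nat_lit 397626) (nat_lit 0) .nil) .nil))) 
(.lf (nat_lit 590810) (.g (nat_lit 3674) (.e (nat_lit 532523) (nat_lit 7) (.e (nat_lit 319533) (nat_lit 16) (.e (nat_lit 286735) (nat_lit 3) (.e (nat_lit 98367) (nat_lit 27) (.e (nat_lit 442112) (nat_lit 11) (.e (nat_lit 163962) (nat_lit 25) .nil)))))) (.g (nat_lit 1) (.e (nat_lit 398909) (nat_lit 0) .nil) .nil))))))) (.nd (nat_lit 6) (.nd (nat_lit 7) (.nd (nat_lit 8) (.nd (nat_lit 9) 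
(.lf (nat_lit 589882) (.g (nat_lit 2393) (.e (nat_lit 532504) (nat_lit 1) (.e (nat_lit 57851) (nat_lit 252) (.e (nat_lit 57406) (nat_lit 12) (.e (nat_lit 336456) (nat_lit 34) (.e (nat_lit 483379) (nat_lit 23) (.e (nat_lit 336257) (nat_lit 15) (.e (nat_lit 3252) (nat_lit 197) .nil))))))) (.g (nat_lit 1) (.e (nat_lit 397006) (nat_lit 0) .nil) .nil))) 
(.lf (nat_lit 590394) (.g (nat_lit 2097) (.e (nat_lit 532514) (nat_lit 3) (.e (nat_lit 114698) (nat_lit 11) (.e (nat_lit 426139) (nat_lit 3) (.e (nat_lit 204850) (nat_lit 26) .nil)))) (.g (nat_lit 0) (.e (nat_lit 397850) (nat_lit 0) .nil) .nil)))) (.nd (nat_lit 9) 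
(.lf (nat_lit 590138) (.g (nat_lit 1414) (.e (nat_lit 532512) (nat_lit 3) (.e (nat_lit 114698) (nat_lit 11) (.e (nat_lit 426139) (nat_lit 3) .nil))) (.g (nat_lit 0) (.e (nat_lit 397319) (nat_lit 0) .nil) .nil))) 
(.lf (nat_lit 590650) (.g (nat_lit 2950) (.e (nat_lit 532522) (nat_lit 7) (.e (nat_lit 319530) (nat_lit 16) (.e (nat_lit 286735) (nat_lit 3) (.e (nat_lit 98350) (nat_lit 24) (.e (nat_lit 409602) (nat_lit 0) (.e (nat_lit 5761) (nat_lit 315) (.e (nat_lit 163962) (nat_lit 25) .nil))))))) (.g (nat_lit 1) (.e (nat_lit 398705) (nat_lit 0) .nil) .nil))))) (.nd (nat_lit 8) (.nd (nat_lit 9) 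
(.lf (nat_lit 590010) (.g (nat_lit 4112) (.e (nat_lit 532504) (nat_lit 1) (.e (nat_lit 57931) (nat_lit 282) (.e (nat_lit 163869) (nat_lit 2) (.e (nat_lit 196670) (nat_lit 14) (.e (nat_lit 73746) (nat_lit 3) (.e (nat_lit 516129) (nat_lit 3) (.e (nat_lit 221196) (nat_lit 20) (.e (nat_lit 3248) (nat_lit 197) .nil)))))))) (.g (nat_lit 1) (.e (nat_lit 397150) (nat_lit 0) .nil) .nil))) 
(.lf (nat_lit 590522) (.g (nat_lit 2302) (.e (nat_lit 532515) (nat_lit 3) (.e (nat_lit 114716) (nat_lit 22) (.e (nat_lit 90172) (nat_lit 14) (.e (nat_lit 180244) (nat_lit 5) (.e (nat_lit 532502) (nat_lit 1) (.e (nat_lit 57688) (nat_lit 156) (.e (nat_lit 163843) (nat_lit 0) (.e (nat_lit 3248) (nat_lit 197) .nil)))))))) (.g (nat_lit 1) (.e (nat_lit 398277) (nat_lit 0) .nil) .nil)))) 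
(.nd (nat_lit 9) 
(.lf (nat_lit 590266) (.g (nat_lit 2620) (.e (nat_lit 532513) (nat_lit 3) (.e (nat_lit 114714) (nat_lit 22) (.e (nat_lit 90172) (nat_lit 14) (.e (nat_lit 180244) (nat_lit 5) (.e (nat_lit 532503) (nat_lit 1) (.e (nat_lit 57685) (nat_lit 156) (.e (nat_lit 163844) (nat_lit 0) (.e (nat_lit 3230) (nat_lit 197) .nil)))))))) (.g (nat_lit 1) (.e (nat_lit 397587) (nat_lit 0) .nil) .nil))) 
(.lf (nat_lit 590778) (.g (nat_lit 1826) (.e (nat_lit 532523) (nat_lit 7) (.e (nat_lit 319533) (nat_lit 16) (.e (nat_lit 286733) (nat_lit 2) (.e (nat_lit 90165) (nat_lit 12) .nil)))) (.g (nat_lit 0) (.e (nat_lit 398877) (nat_lit 0) .nil) .nil)))))) (.nd (nat_lit 7) (.nd (nat_lit 8) (.nd (nat_lit 9) 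
(.lf (nat_lit 589946) (.g (nat_lit 1366) (.e (nat_lit 532504) (nat_lit 1) (.e (nat_lit 57852) (nat_lit 252) (.e (nat_lit 57406) (nat_lit 12) (.e (nat_lit 336454) (nat_lit 34) (.e (nat_lit 483385) (nat_lit 23) .nil))))) (.g (nat_lit 0) (.e (nat_lit 397071) (nat_lit 0) .nil) .nil))) 
(.lf (nat_lit 590458) (.g (nat_lit 1808) (.e (nat_lit 532514) (nat_lit 3) (.e (nat_lit 114719) (nat_lit 23) (.e (nat_lit 98384) (nat_lit 32) (.e (nat_lit 475169) (nat_lit 22) .nil)))) (.g (nat_lit 0) (.e (nat_lit 397974) (nat_lit 0) .nil) .nil)))) (.nd (nat_lit 9) 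
(.lf (nat_lit 590202) (.g (nat_lit 3159) (.e (nat_lit 532513) (nat_lit 3) (.e (nat_lit 114714) (nat_lit 22) (.e (nat_lit 90172) (nat_lit 14) (.e (nat_lit 180243) (nat_lit 5) (.e (nat_lit 532501) (nat_lit 1) (.e (nat_lit 57651) (nat_lit 152) (.e (nat_lit 2615) (nat_lit 163) (.e (nat_lit 163962) (nat_lit 25) .nil)))))))) (.g (nat_lit 1) (.e (nat_lit 397500) (nat_lit 0) .nil) .nil))) 
(.lf (nat_lit 590714) (.g (nat_lit 1786) (.e (nat_lit 532523) (nat_lit 7) (.e (nat_lit 319530) (nat_lit 16) (.e (nat_lit 286735) (nat_lit 3) (.e (nat_lit 98321) (nat_lit 17) .nil)))) (.g (nat_lit 0) (.e (nat_lit 398795) (nat_lit 0) .nil) .nil))))) (.nd (nat_lit 8) (.nd (nat_lit 9) 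
(.lf (nat_lit 590074) (.g (nat_lit 1304) (.e (nat_lit 532510) (nat_lit 2) (.e (nat_lit 106534) (nat_lit 11) (.e (nat_lit 16413) (nat_lit 2) (.e (nat_lit 196674) (nat_lit 15) (.e (nat_lit 89856) (nat_lit 0) (.e (nat_lit 3248) (nat_lit 197) .nil)))))) (.g (nat_lit 1) (.e (nat_lit 397244) (nat_lit 0) .nil) .nil))) 
(.lf (nat_lit 590586) (.g (nat_lit 1526) (.e (nat_lit 532515) (nat_lit 3) (.e (nat_lit 114719) (nat_lit 23) (.e (nat_lit 98356) (nat_lit 26) (.e (nat_lit 426438) (nat_lit 18) (.e (nat_lit 98334) (nat_lit 18) .nil))))) (.g (nat_lit 0) (.e (nat_lit 398551) (nat_lit 0) .nil) .nil)))) (.nd (nat_lit 9) 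
(.lf (nat_lit 590330) (.g (nat_lit 2559) (.e (nat_lit 532513) (nat_lit 3) (.e (nat_lit 114714) (nat_lit 22) (.e (nat_lit 90174) (nat_lit 14) (.e (nat_lit 180243) (nat_lit 5) (.e (nat_lit 532504) (nat_lit 1) (.e (nat_lit 57662) (nat_lit 152) (.e (nat_lit 2716) (nat_lit 171) (.e (nat_lit 229433) (nat_lit 25) .nil)))))))) (.g (nat_lit 1) (.e (nat_lit 397664) (nat_lit 0) .nil) .nil))) 
(.lf (nat_lit 590842) (.g (nat_lit 3515) (.e (nat_lit 532523) (nat_lit 7) (.e (nat_lit 319534) (nat_lit 16) (.e (nat_lit 286733) (nat_lit 2) (.e (nat_lit 90176) (nat_lit 15) (.e (nat_lit 196352) (nat_lit 20) (.e (nat_lit 3249) (nat_lit 197) .nil)))))) (.g (nat_lit 1) (.e (nat_lit 398953) (nat_lit 0) .nil) .nil)))))))))) 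
(.nd (nat_lit 3) (.nd (nat_lit 4) (.nd (nat_lit 5) (.nd (nat_lit 6) (.nd (nat_lit 7) 
(.nd (nat_lit 8) (.nd (nat_lit 9) 
(.lf (nat_lit 589830) (.g (nat_lit 3480) (.e (nat_lit 532504) (nat_lit 1) (.e (nat_lit 57691) (nat_lit 156) (.e (nat_lit 163874) (nat_lit 3) (.e (nat_lit 204838) (nat_lit 20) (.e (nat_lit 114719) (nat_lit 23) (.e (nat_lit 98367) (nat_lit 27) (.e (nat_lit 434232) (nat_lit 23) .nil))))))) (.g (nat_lit 1) (.e (nat_lit 396935) (nat_lit 0) .nil) .nil))) 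
(.lf (nat_lit 590342) (.g (nat_lit 1101) (.e (nat_lit 532513) (nat_lit 3) (.e (nat_lit 114714) (nat_lit 22) (.e (nat_lit 90185) (nat_lit 17) (.e (nat_lit 237592) (nat_lit 3) .nil)))) (.g (nat_lit 0) (.e (nat_lit 397680) (nat_lit 0) .nil) .nil)))) (.nd (nat_lit 9) 
(.lf (nat_lit 590086) (.g (nat_lit 1660) (.e (nat_lit 532510) (nat_lit 2) (.e (nat_lit 106536) (nat_lit 11) (.e (nat_lit 16412) (nat_lit 2) (.e (nat_lit 196672) (nat_lit 15) (.e (nat_lit 89856) (nat_lit 0) (.e (nat_lit 3247) (nat_lit 197) .nil)))))) (.g (nat_lit 1) (.e (nat_lit 397260) (nat_lit 0) .nil) .nil))) 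
(.lf (nat_lit 590598) (.g (nat_lit 1758) (.e (nat_lit 532515) (nat_lit 3) (.e (nat_lit 114719) (nat_lit 23) (.e (nat_lit 98365) (nat_lit 26) (.e (nat_lit 426122) (nat_lit 2) .nil)))) (.g (nat_lit 0) (.e (nat_lit 398579) (nat_lit 0) .nil) .nil))))) (.nd (nat_lit 8) (.nd (nat_lit 9) 
(.lf (nat_lit 589958) (.g (nat_lit 1395) (.e (nat_lit 532504) (nat_lit 1) (.e (nat_lit 57852) (nat_lit 252) (.e (nat_lit 57409) (nat_lit 12) (.e (nat_lit 336455) (nat_lit 34) (.e (nat_lit 483407) (nat_lit 26) .nil))))) (.g (nat_lit 0) (.e (nat_lit 397083) (nat_lit 0) .nil) .nil))) 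
(.lf (nat_lit 590470) (.g (nat_lit 2051) (.e (nat_lit 532515) (nat_lit 3) (.e (nat_lit 114698) (nat_lit 11) (.e (nat_lit 426114) (nat_lit 2) (.e (nat_lit 196681) (nat_lit 17) (.e (nat_lit 131122) (nat_lit 12) .nil))))) (.g (nat_lit 0) (.e (nat_lit 398028) (nat_lit 0) .nil) .nil)))) (.nd (nat_lit 9) 
(.lf (nat_lit 590214) (.g (nat_lit 3252) (.e (nat_lit 532513) (nat_lit 3) (.e (nat_lit 114714) (nat_lit 22) (.e (nat_lit 90172) (nat_lit 14) (.e (nat_lit 180243) (nat_lit 5) (.e (nat_lit 532503) (nat_lit 1) (.e (nat_lit 57659) (nat_lit 152) (.e (nat_lit 2612) (nat_lit 163) (.e (nat_lit 163964) (nat_lit 25) .nil)))))))) (.g (nat_lit 1) (.e (nat_lit 397514) (nat_lit 0) .nil) .nil))) 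
(.lf (nat_lit 590726) (.g (nat_lit 289) (.e (nat_lit 532523) (nat_lit 7) (.e (nat_lit 319531) (nat_lit 16) (.e (nat_lit 286722) (nat_lit 0) .nil))) (.g (nat_lit 0) (.e (nat_lit 398807) (nat_lit 0) .nil) .nil)))))) (.nd (nat_lit 7) (.nd (nat_lit 8) (.nd (nat_lit 9) 
(.lf (nat_lit 589894) (.g (nat_lit 3107) (.e (nat_lit 532504) (nat_lit 1) (.e (nat_lit 57851) (nat_lit 252) (.e (nat_lit 57406) (nat_lit 12) (.e (nat_lit 336456) (nat_lit 34) (.e (nat_lit 483383) (nat_lit 23) (.e (nat_lit 336240) (nat_lit 15) (.e (nat_lit 3237) (nat_lit 197) .nil))))))) (.g (nat_lit 1) (.e (nat_lit 397018) (nat_lit 0) .nil) .nil))) 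
(.lf (nat_lit 590406) (.g (nat_lit 952) (.e (nat_lit 532514) (nat_lit 3) (.e (nat_lit 114716) (nat_lit 22) (.e (nat_lit 90168) (nat_lit 13) (.e (nat_lit 172064) (nat_lit 2) (.e (nat_lit 204544) (nat_lit 2) .nil))))) (.g (nat_lit 0) (.e (nat_lit 397887) (nat_lit 0) .nil) .nil)))) (.nd (nat_lit 9) 
(.lf (nat_lit 590150) (.g (nat_lit 1919) (.e (nat_lit 532513) (nat_lit 3) (.e (nat_lit 114698) (nat_lit 11) (.e (nat_lit 426122) (nat_lit 2) (.e (nat_lit 196672) (nat_lit 15) (.e (nat_lit 81922) (nat_lit 0) (.e (nat_lit 3253) (nat_lit 197) .nil)))))) (.g (nat_lit 1) (.e (nat_lit 397362) (nat_lit 0) .nil) .nil))) 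
(.lf (nat_lit 590662) (.g (nat_lit 2798) (.e (nat_lit 532522) (nat_lit 7) (.e (nat_lit 319531) (nat_lit 16) (.e (nat_lit 286735) (nat_lit 3) (.e (nat_lit 98358) (nat_lit 26) (.e (nat_lit 426294) (nat_lit 11) .nil))))) (.g (nat_lit 0) (.e (nat_lit 398720) (nat_lit 0) .nil) .nil))))) (.nd (nat_lit 8) (.nd (nat_lit 9) 
(.lf (nat_lit 590022) (.g (nat_lit 2577) (.e (nat_lit 532505) (nat_lit 2) (.e (nat_lit 106536) (nat_lit 11) (.e (nat_lit 16416) (nat_lit 3) (.e (nat_lit 204876) (nat_lit 31) .nil)))) (.g (nat_lit 0) (.e (nat_lit 397165) (nat_lit 0) .nil) .nil))) 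
(.lf (nat_lit 590534) (.g (nat_lit 3886) (.e (nat_lit 532515) (nat_lit 3) (.e (nat_lit 114716) (nat_lit 22) (.e (nat_lit 90174) (nat_lit 14) (.e (nat_lit 180243) (nat_lit 5) (.e (nat_lit 532499) (nat_lit 1) (.e (nat_lit 57687) (nat_lit 156) (.e (nat_lit 163843) (nat_lit 0) (.e (nat_lit 3248) (nat_lit 197) .nil)))))))) (.g (nat_lit 1) (.e (nat_lit 398351) (nat_lit 0) .nil) .nil)))) 
(.nd (nat_lit 9) 
(.lf (nat_lit 590278) (.g (nat_lit 2546) (.e (nat_lit 532513) (nat_lit 3) (.e (nat_lit 114714) (nat_lit 22) (.e (nat_lit 90172) (nat_lit 14) (.e (nat_lit 180244) (nat_lit 5) (.e (nat_lit 532575) (nat_lit 17) (.e (nat_lit 7096) (nat_lit 380) (.e (nat_lit 171776) (nat_lit 86) .nil))))))) (.g (nat_lit 1) (.e (nat_lit 397601) (nat_lit 0) .nil) .nil))) 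
(.lf (nat_lit 590790) (.g (nat_lit 1578) (.e (nat_lit 532523) (nat_lit 7) (.e (nat_lit 319533) (nat_lit 16) (.e (nat_lit 286734) (nat_lit 3) (.e (nat_lit 98323) (nat_lit 17) .nil)))) (.g (nat_lit 0) (.e (nat_lit 398889) (nat_lit 0) .nil) .nil))))))) (.nd (nat_lit 6) (.nd (nat_lit 7) (.nd (nat_lit 8) (.nd (nat_lit 9) 
(.lf (nat_lit 589862) (.g (nat_lit 280) (.e (nat_lit 532504) (nat_lit 1) (.e (nat_lit 57851) (nat_lit 252) (.e (nat_lit 57406) (nat_lit 12) .nil))) (.g (nat_lit 0) (.e (nat_lit 396985) (nat_lit 0) .nil) .nil))) 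
(.lf (nat_lit 590374) (.g (nat_lit 4345) (.e (nat_lit 532513) (nat_lit 3) (.e (nat_lit 114719) (nat_lit 23) (.e (nat_lit 98356) (nat_lit 26) (.e (nat_lit 426436) (nat_lit 18) (.e (nat_lit 98335) (nat_lit 18) (.e (nat_lit 164305) (nat_lit 226) (.e (nat_lit 2612) (nat_lit 163) (.e (nat_lit 163964) (nat_lit 25) .nil)))))))) (.g (nat_lit 1) (.e (nat_lit 397740) (nat_lit 0) .nil) .nil)))) 
(.nd (nat_lit 9) 
(.lf (nat_lit 590118) (.g (nat_lit 1510) (.e (nat_lit 532511) (nat_lit 2) (.e (nat_lit 106534) (nat_lit 11) (.e (nat_lit 16416) (nat_lit 3) (.e (nat_lit 204876) (nat_lit 31) (.e (nat_lit 376833) (nat_lit 0) (.e (nat_lit 3231) (nat_lit 197) .nil)))))) (.g (nat_lit 1) (.e (nat_lit 397296) (nat_lit 0) .nil) .nil))) 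
(.lf (nat_lit 590630) (.g (nat_lit 1013) (.e (nat_lit 532515) (nat_lit 3) (.e (nat_lit 114719) (nat_lit 23) (.e (nat_lit 98386) (nat_lit 32) .nil))) (.g (nat_lit 0) (.e (nat_lit 398663) (nat_lit 0) .nil) .nil))))) (.nd (nat_lit 8) (.nd (nat_lit 9) 
(.lf (nat_lit 589990) (.g (nat_lit 2854) (.e (nat_lit 532504) (nat_lit 1) (.e (nat_lit 57929) (nat_lit 282) (.e (nat_lit 163869) (nat_lit 2) (.e (nat_lit 196670) (nat_lit 14) (.e (nat_lit 73746) (nat_lit 3) (.e (nat_lit 516126) (nat_lit 2) (.e (nat_lit 213035) (nat_lit 12) (.e (nat_lit 163964) (nat_lit 25) .nil)))))))) (.g (nat_lit 1) (.e (nat_lit 397127) (nat_lit 0) .nil) .nil))) 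
(.lf (nat_lit 590502) (.g (nat_lit 516) (.e (nat_lit 532515) (nat_lit 3) (.e (nat_lit 114716) (nat_lit 22) (.e (nat_lit 90153) (nat_lit 10) .nil))) (.g (nat_lit 0) (.e (nat_lit 398158) (nat_lit 0) .nil) .nil)))) (.nd (nat_lit 9) 
(.lf (nat_lit 590246) (.g (nat_lit 2661) (.e (nat_lit 532513) (nat_lit 3) (.e (nat_lit 114714) (nat_lit 22) (.e (nat_lit 90172) (nat_lit 14) (.e (nat_lit 180244) (nat_lit 5) (.e (nat_lit 532501) (nat_lit 1) (.e (nat_lit 57651) (nat_lit 152) (.e (nat_lit 2719) (nat_lit 171) (.e (nat_lit 229433) (nat_lit 25) .nil)))))))) (.g (nat_lit 1) (.e (nat_lit 397555) (nat_lit 0) .nil) .nil))) 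
(.lf (nat_lit 590758) (.g (nat_lit 1188) (.e (nat_lit 532523) (nat_lit 7) (.e (nat_lit 319531) (nat_lit 16) (.e (nat_lit 286735) (nat_lit 3) (.e (nat_lit 98382) (nat_lit 31) .nil)))) (.g (nat_lit 0) (.e (nat_lit 398843) (nat_lit 0) .nil) .nil)))))) (.nd (nat_lit 7) (.nd (nat_lit 8) (.nd (nat_lit 9) 
(.lf (nat_lit 589926) (.g (nat_lit 4873) (.e (nat_lit 532504) (nat_lit 1) (.e (nat_lit 57852) (nat_lit 252) (.e (nat_lit 57354) (nat_lit 0) (.e (nat_lit 1855) (nat_lit 124) (.e (nat_lit 557105) (nat_lit 14) (.e (nat_lit 180252) (nat_lit 10) (.e (nat_lit 573481) (nat_lit 13) (.e (nat_lit 65637) (nat_lit 15) (.e (nat_lit 3253) (nat_lit 197) .nil))))))))) (.g (nat_lit 1) (.e (nat_lit 397050) (nat_lit 0) .nil) .nil))) 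
(.lf (nat_lit 590438) (.g (nat_lit 3453) (.e (nat_lit 532514) (nat_lit 3) (.e (nat_lit 114719) (nat_lit 23) (.e (nat_lit 98350) (nat_lit 24) (.e (nat_lit 409616) (nat_lit 10) (.e (nat_lit 632) (nat_lit 50) (.e (nat_lit 573489) (nat_lit 14) (.e (nat_lit 81664) (nat_lit 5) .nil))))))) (.g (nat_lit 1) (.e (nat_lit 397945) (nat_lit 0) .nil) .nil)))) (.nd (nat_lit 9) 
(.lf (nat_lit 590182) (.g (nat_lit 1778) (.e (nat_lit 532513) (nat_lit 3) (.e (nat_lit 114714) (nat_lit 22) (.e (nat_lit 90170) (nat_lit 13) (.e (nat_lit 172049) (nat_lit 0) .nil)))) (.g (nat_lit 0) (.e (nat_lit 397469) (nat_lit 0) .nil) .nil))) 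
(.lf (nat_lit 590694) (.g (nat_lit 1567) (.e (nat_lit 532523) (nat_lit 7) (.e (nat_lit 319529) (nat_lit 16) (.e (nat_lit 286733) (nat_lit 2) (.e (nat_lit 90134) (nat_lit 9) .nil)))) (.g (nat_lit 0) (.e (nat_lit 398773) (nat_lit 0) .nil) .nil))))) (.nd (nat_lit 8) (.nd (nat_lit 9) 
(.lf (nat_lit 590054) (.g (nat_lit 1376) (.e (nat_lit 532508) (nat_lit 2) (.e (nat_lit 106534) (nat_lit 11) (.e (nat_lit 16416) (nat_lit 3) (.e (nat_lit 204877) (nat_lit 31) (.e (nat_lit 376835) (nat_lit 0) .nil))))) (.g (nat_lit 0) (.e (nat_lit 397218) (nat_lit 0) .nil) .nil))) 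
(.lf (nat_lit 590566) (.g (nat_lit 2347) (.e (nat_lit 532515) (nat_lit 3) (.e (nat_lit 114718) (nat_lit 23) (.e (nat_lit 98356) (nat_lit 26) (.e (nat_lit 426436) (nat_lit 18) (.e (nat_lit 98334) (nat_lit 18) (.e (nat_lit 164305) (nat_lit 226) (.e (nat_lit 2612) (nat_lit 163) (.e (nat_lit 163964) (nat_lit 25) .nil)))))))) (.g (nat_lit 1) (.e (nat_lit 398495) (nat_lit 0) .nil) .nil)))) 
(.nd (nat_lit 9) 
(.lf (nat_lit 590310) (.g (nat_lit 3511) (.e (nat_lit 532513) (nat_lit 3) (.e (nat_lit 114714) (nat_lit 22) (.e (nat_lit 90174) (nat_lit 14) (.e (nat_lit 180243) (nat_lit 5) (.e (nat_lit 532501) (nat_lit 1) (.e (nat_lit 57663) (nat_lit 152) (.e (nat_lit 7936) (nat_lit 163) (.e (nat_lit 163962) (nat_lit 25) .nil)))))))) (.g (nat_lit 1) (.e (nat_lit 397639) (nat_lit 0) .nil) .nil))) 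
(.lf (nat_lit 590822) (.g (nat_lit 2783) (.e (nat_lit 532523) (nat_lit 7) (.e (nat_lit 319533) (nat_lit 16) (.e (nat_lit 286735) (nat_lit 3) (.e (nat_lit 98380) (nat_lit 31) (.e (nat_lit 466965) (nat_lit 20) .nil))))) (.g (nat_lit 0) (.e (nat_lit 398921) (nat_lit 0) .nil) .nil)))))))) (.nd (nat_lit 5) (.nd (nat_lit 6) (.nd (nat_lit 7) (.nd (nat_lit 8) (.nd (nat_lit 9) 
(.lf (nat_lit 589846) (.g (nat_lit 4321) (.e (nat_lit 532504) (nat_lit 1) (.e (nat_lit 57692) (nat_lit 156) (.e (nat_lit 163875) (nat_lit 3) (.e (nat_lit 204837) (nat_lit 20) (.e (nat_lit 114718) (nat_lit 23) (.e (nat_lit 98367) (nat_lit 27) (.e (nat_lit 434232) (nat_lit 23) .nil))))))) (.g (nat_lit 1) (.e (nat_lit 396955) (nat_lit 0) .nil) .nil))) 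
(.lf (nat_lit 590358) (.g (nat_lit 1940) (.e (nat_lit 532513) (nat_lit 3) (.e (nat_lit 114718) (nat_lit 23) (.e (nat_lit 98384) (nat_lit 32) (.e (nat_lit 475177) (nat_lit 24) (.e (nat_lit 516120) (nat_lit 1) .nil))))) (.g (nat_lit 0) (.e (nat_lit 397709) (nat_lit 0) .nil) .nil)))) (.nd (nat_lit 9) 
(.lf (nat_lit 590102) (.g (nat_lit 2948) (.e (nat_lit 532510) (nat_lit 2) (.e (nat_lit 106536) (nat_lit 11) (.e (nat_lit 16416) (nat_lit 3) (.e (nat_lit 204852) (nat_lit 26) (.e (nat_lit 336208) (nat_lit 12) .nil))))) (.g (nat_lit 0) (.e (nat_lit 397276) (nat_lit 0) .nil) .nil))) 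
(.lf (nat_lit 590614) (.g (nat_lit 1743) (.e (nat_lit 532515) (nat_lit 3) (.e (nat_lit 114719) (nat_lit 23) (.e (nat_lit 98365) (nat_lit 26) (.e (nat_lit 426139) (nat_lit 3) .nil)))) (.g (nat_lit 0) (.e (nat_lit 398605) (nat_lit 0) .nil) .nil))))) (.nd (nat_lit 8) (.nd (nat_lit 9) 
(.lf (nat_lit 589974) (.g (nat_lit 3064) (.e (nat_lit 532504) (nat_lit 1) (.e (nat_lit 57854) (nat_lit 252) (.e (nat_lit 57406) (nat_lit 12) (.e (nat_lit 336454) (nat_lit 34) (.e (nat_lit 483385) (nat_lit 23) (.e (nat_lit 336260) (nat_lit 15) (.e (nat_lit 3230) (nat_lit 197) .nil))))))) (.g (nat_lit 1) (.e (nat_lit 397109) (nat_lit 0) .nil) .nil))) 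
(.lf (nat_lit 590486) (.g (nat_lit 2031) (.e (nat_lit 532515) (nat_lit 3) (.e (nat_lit 114698) (nat_lit 11) (.e (nat_lit 426139) (nat_lit 3) (.e (nat_lit 204850) (nat_lit 26) .nil)))) (.g (nat_lit 0) (.e (nat_lit 398065) (nat_lit 0) .nil) .nil)))) (.nd (nat_lit 9) 
(.lf (nat_lit 590230) (.g (nat_lit 3374) (.e (nat_lit 532513) (nat_lit 3) (.e (nat_lit 114714) (nat_lit 22) (.e (nat_lit 90172) (nat_lit 14) (.e (nat_lit 180244) (nat_lit 5) (.e (nat_lit 532499) (nat_lit 1) (.e (nat_lit 57652) (nat_lit 152) (.e (nat_lit 2715) (nat_lit 171) (.e (nat_lit 229433) (nat_lit 25) .nil)))))))) (.g (nat_lit 1) (.e (nat_lit 397535) (nat_lit 0) .nil) .nil))) 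
(.lf (nat_lit 590742) (.g (nat_lit 2857) (.e (nat_lit 532523) (nat_lit 7) (.e (nat_lit 319531) (nat_lit 16) (.e (nat_lit 286735) (nat_lit 3) (.e (nat_lit 98350) (nat_lit 24) (.e (nat_lit 409606) (nat_lit 0) .nil))))) (.g (nat_lit 0) (.e (nat_lit 398827) (nat_lit 0) .nil) .nil)))))) (.nd (nat_lit 7) (.nd (nat_lit 8) (.nd (nat_lit 9) 
(.lf (nat_lit 589910) (.g (nat_lit 1590) (.e (nat_lit 532504) (nat_lit 1) (.e (nat_lit 57851) (nat_lit 252) (.e (nat_lit 57406) (nat_lit 12) (.e (nat_lit 336456) (nat_lit 34) (.e (nat_lit 483387) (nat_lit 23) .nil))))) (.g (nat_lit 0) (.e (nat_lit 397034) (nat_lit 0) .nil) .nil))) 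
(.lf (nat_lit 590422) (.g (nat_lit 2587) (.e (nat_lit 532514) (nat_lit 3) (.e (nat_lit 114718) (nat_lit 23) (.e (nat_lit 98350) (nat_lit 24) (.e (nat_lit 409617) (nat_lit 10) (.e (nat_lit 632) (nat_lit 50) .nil))))) (.g (nat_lit 0) (.e (nat_lit 397928) (nat_lit 0) .nil) .nil)))) (.nd (nat_lit 9) 
(.lf (nat_lit 590166) (.g (nat_lit 2009) (.e (nat_lit 532513) (nat_lit 3) (.e (nat_lit 114698) (nat_lit 11) (.e (nat_lit 426139) (nat_lit 3) (.e (nat_lit 204855) (nat_lit 26) .nil)))) (.g (nat_lit 0) (.e (nat_lit 397407) (nat_lit 0) .nil) .nil))) 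
(.lf (nat_lit 590678) (.g (nat_lit 3419) (.e (nat_lit 532523) (nat_lit 7) (.e (nat_lit 319537) (nat_lit 19) (.e (nat_lit 311315) (nat_lit 3) (.e (nat_lit 204846) (nat_lit 24) (.e (nat_lit 319504) (nat_lit 10) (.e (nat_lit 5712) (nat_lit 312) (.e (nat_lit 2508) (nat_lit 157) (.e (nat_lit 3249) (nat_lit 197) .nil)))))))) (.g (nat_lit 1) (.e (nat_lit 398748) (nat_lit 0) .nil) .nil))))) 
(.nd (nat_lit 8) (.nd (nat_lit 9) 
(.lf (nat_lit 590038) (.g (nat_lit 1706) (.e (nat_lit 532507) (nat_lit 2) (.e (nat_lit 106536) (nat_lit 11) (.e (nat_lit 16416) (nat_lit 3) (.e (nat_lit 204866) (nat_lit 28) .nil)))) (.g (nat_lit 0) (.e (nat_lit 397192) (nat_lit 0) .nil) .nil))) 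
(.lf (nat_lit 590550) (.g (nat_lit 1566) (.e (nat_lit 532515) (nat_lit 3) (.e (nat_lit 114716) (nat_lit 22) (.e (nat_lit 90185) (nat_lit 17) (.e (nat_lit 237592) (nat_lit 3) (.e (nat_lit 204805) (nat_lit 0) (.e (nat_lit 7106) (nat_lit 380) (.e (nat_lit 171776) (nat_lit 86) .nil))))))) (.g (nat_lit 1) (.e (nat_lit 398454) (nat_lit 0) .nil) .nil)))) (.nd (nat_lit 9) 
(.lf (nat_lit 590294) (.g (nat_lit 3333) (.e (nat_lit 532513) (nat_lit 3) (.e (nat_lit 114714) (nat_lit 22) (.e (nat_lit 90174) (nat_lit 14) (.e (nat_lit 180243) (nat_lit 5) (.e (nat_lit 532499) (nat_lit 1) (.e (nat_lit 57657) (nat_lit 152) (.e (nat_lit 7936) (nat_lit 163) (.e (nat_lit 163962) (nat_lit 25) .nil)))))))) (.g (nat_lit 1) (.e (nat_lit 397621) (nat_lit 0) .nil) .nil))) 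
(.lf (nat_lit 590806) (.g (nat_lit 3112) (.e (nat_lit 532523) (nat_lit 7) (.e (nat_lit 319533) (nat_lit 16) (.e (nat_lit 286735) (nat_lit 3) (.e (nat_lit 98365) (nat_lit 26) (.e (nat_lit 426296) (nat_lit 11) .nil))))) (.g (nat_lit 0) (.e (nat_lit 398905) (nat_lit 0) .nil) .nil))))))) (.nd (nat_lit 6) (.nd (nat_lit 7) (.nd (nat_lit 8) (.nd (nat_lit 9) 
(.lf (nat_lit 589878) (.g (nat_lit 1593) (.e (nat_lit 532504) (nat_lit 1) (.e (nat_lit 57851) (nat_lit 252) (.e (nat_lit 57406) (nat_lit 12) (.e (nat_lit 336456) (nat_lit 34) (.e (nat_lit 483378) (nat_lit 23) .nil))))) (.g (nat_lit 0) (.e (nat_lit 397002) (nat_lit 0) .nil) .nil))) 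
(.lf (nat_lit 590390) (.g (nat_lit 3734) (.e (nat_lit 532514) (nat_lit 3) (.e (nat_lit 114698) (nat_lit 11) (.e (nat_lit 426123) (nat_lit 2) (.e (nat_lit 196666) (nat_lit 13) (.e (nat_lit 65622) (nat_lit 12) .nil))))) (.g (nat_lit 0) (.e (nat_lit 397823) (nat_lit 0) .nil) .nil)))) (.nd (nat_lit 9) 
(.lf (nat_lit 590134) (.g (nat_lit 1119) (.e (nat_lit 532511) (nat_lit 2) (.e (nat_lit 106536) (nat_lit 11) (.e (nat_lit 16413) (nat_lit 2) (.e (nat_lit 196674) (nat_lit 15) (.e (nat_lit 89856) (nat_lit 0) (.e (nat_lit 3245) (nat_lit 197) .nil)))))) (.g (nat_lit 1) (.e (nat_lit 397314) (nat_lit 0) .nil) .nil))) 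
(.lf (nat_lit 590646) (.g (nat_lit 2382) (.e (nat_lit 532522) (nat_lit 7) (.e (nat_lit 319530) (nat_lit 16) (.e (nat_lit 286733) (nat_lit 2) (.e (nat_lit 90134) (nat_lit 9) (.e (nat_lit 3028) (nat_lit 187) .nil))))) (.g (nat_lit 0) (.e (nat_lit 398701) (nat_lit 0) .nil) .nil))))) (.nd (nat_lit 8) (.nd (nat_lit 9) 
(.lf (nat_lit 590006) (.g (nat_lit 3665) (.e (nat_lit 532504) (nat_lit 1) (.e (nat_lit 57931) (nat_lit 282) (.e (nat_lit 163869) (nat_lit 2) (.e (nat_lit 196670) (nat_lit 14) (.e (nat_lit 73746) (nat_lit 3) (.e (nat_lit 516126) (nat_lit 2) (.e (nat_lit 213035) (nat_lit 12) (.e (nat_lit 163964) (nat_lit 25) .nil)))))))) (.g (nat_lit 1) (.e (nat_lit 397146) (nat_lit 0) .nil) .nil))) 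
(.lf (nat_lit 590518) (.g (nat_lit 4050) (.e (nat_lit 532515) (nat_lit 3) (.e (nat_lit 114716) (nat_lit 22) (.e (nat_lit 90172) (nat_lit 14) (.e (nat_lit 180244) (nat_lit 5) (.e (nat_lit 532499) (nat_lit 1) (.e (nat_lit 57687) (nat_lit 156) (.e (nat_lit 163843) (nat_lit 0) (.e (nat_lit 3248) (nat_lit 197) .nil)))))))) (.g (nat_lit 1) (.e (nat_lit 398243) (nat_lit 0) .nil) .nil)))) 
(.nd (nat_lit 9) 
(.lf (nat_lit 590262) (.g (nat_lit 3008) (.e (nat_lit 532513) (nat_lit 3) (.e (nat_lit 114714) (nat_lit 22) (.e (nat_lit 90172) (nat_lit 14) (.e (nat_lit 180244) (nat_lit 5) (.e (nat_lit 532503) (nat_lit 1) (.e (nat_lit 57658) (nat_lit 152) (.e (nat_lit 2715) (nat_lit 171) (.e (nat_lit 229433) (nat_lit 25) .nil)))))))) (.g (nat_lit 1) (.e (nat_lit 397581) (nat_lit 0) .nil) .nil))) 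
(.lf (nat_lit 590774) (.g (nat_lit 2149) (.e (nat_lit 532523) (nat_lit 7) (.e (nat_lit 319533) (nat_lit 16) (.e (nat_lit 286732) (nat_lit 2) (.e (nat_lit 90176) (nat_lit 15) (.e (nat_lit 196352) (nat_lit 20) .nil))))) (.g (nat_lit 0) (.e (nat_lit 398865) (nat_lit 0) .nil) .nil)))))) (.nd (nat_lit 7) (.nd (nat_lit 8) (.nd (nat_lit 9) 
(.lf (nat_lit 589942) (.g (nat_lit 1902) (.e (nat_lit 532504) (nat_lit 1) (.e (nat_lit 57852) (nat_lit 252) (.e (nat_lit 57406) (nat_lit 12) (.e (nat_lit 336372) (nat_lit 27) (.e (nat_lit 426524) (nat_lit 27) .nil))))) (.g (nat_lit 0) (.e (nat_lit 397067) (nat_lit 0) .nil) .nil))) 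
(.lf (nat_lit 590454) (.g (nat_lit 2954) (.e (nat_lit 532514) (nat_lit 3) (.e (nat_lit 114719) (nat_lit 23) (.e (nat_lit 98365) (nat_lit 26) (.e (nat_lit 426133) (nat_lit 3) (.e (nat_lit 204805) (nat_lit 0) (.e (nat_lit 7098) (nat_lit 380) (.e (nat_lit 171776) (nat_lit 86) .nil))))))) (.g (nat_lit 1) (.e (nat_lit 397961) (nat_lit 0) .nil) .nil)))) (.nd (nat_lit 9) 
(.lf (nat_lit 590198) (.g (nat_lit 1311) (.e (nat_lit 532513) (nat_lit 3) (.e (nat_lit 114714) (nat_lit 22) (.e (nat_lit 90172) (nat_lit 14) (.e (nat_lit 180243) (nat_lit 5) .nil)))) (.g (nat_lit 0) (.e (nat_lit 397494) (nat_lit 0) .nil) .nil))) 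
(.lf (nat_lit 590710) (.g (nat_lit 1584) (.e (nat_lit 532523) (nat_lit 7) (.e (nat_lit 319530) (nat_lit 16) (.e (nat_lit 286733) (nat_lit 2) (.e (nat_lit 90134) (nat_lit 9) .nil)))) (.g (nat_lit 0) (.e (nat_lit 398790) (nat_lit 0) .nil) .nil))))) (.nd (nat_lit 8) (.nd (nat_lit 9) 
(.lf (nat_lit 590070) (.g (nat_lit 1493) (.e (nat_lit 532510) (nat_lit 2) (.e (nat_lit 106534) (nat_lit 11) (.e (nat_lit 16412) (nat_lit 2) (.e (nat_lit 196674) (nat_lit 15) (.e (nat_lit 89856) (nat_lit 0) .nil))))) (.g (nat_lit 0) (.e (nat_lit 397240) (nat_lit 0) .nil) .nil))) 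
(.lf (nat_lit 590582) (.g (nat_lit 1731) (.e (nat_lit 532515) (nat_lit 3) (.e (nat_lit 114719) (nat_lit 23) (.e (nat_lit 98354) (nat_lit 26) (.e (nat_lit 426140) (nat_lit 3) (.e (nat_lit 212736) (nat_lit 7) (.e (nat_lit 409616) (nat_lit 10) (.e (nat_lit 604) (nat_lit 45) .nil))))))) (.g (nat_lit 1) (.e (nat_lit 398545) (nat_lit 0) .nil) .nil)))) (.nd (nat_lit 9) 
(.lf (nat_lit 590326) (.g (nat_lit 3191) (.e (nat_lit 532513) (nat_lit 3) (.e (nat_lit 114714) (nat_lit 22) (.e (nat_lit 90174) (nat_lit 14) (.e (nat_lit 180243) (nat_lit 5) (.e (nat_lit 532504) (nat_lit 1) (.e (nat_lit 57651) (nat_lit 152) (.e (nat_lit 2615) (nat_lit 163) (.e (nat_lit 163962) (nat_lit 25) .nil)))))))) (.g (nat_lit 1) (.e (nat_lit 397660) (nat_lit 0) .nil) .nil))) 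
(.lf (nat_lit 590838) (.g (nat_lit 1784) (.e (nat_lit 532523) (nat_lit 7) (.e (nat_lit 319534) (nat_lit 16) (.e (nat_lit 286733) (nat_lit 2) (.e (nat_lit 90149) (nat_lit 9) .nil)))) (.g (nat_lit 0) (.e (nat_lit 398948) (nat_lit 0) .nil) .nil))))))))) (.nd (nat_lit 4) (.nd (nat_lit 5) (.nd (nat_lit 6) (.nd (nat_lit 7) (.nd (nat_lit 8) (.nd (nat_lit 9) 
(.lf (nat_lit 589838) (.g (nat_lit 3068) (.e (nat_lit 532504) (nat_lit 1) (.e (nat_lit 57691) (nat_lit 156) (.e (nat_lit 163907) (nat_lit 12) (.e (nat_lit 426568) (nat_lit 34) (.e (nat_lit 393284) (nat_lit 24) (.e (nat_lit 434233) (nat_lit 23) .nil)))))) (.g (nat_lit 1) (.e (nat_lit 396945) (nat_lit 0) .nil) .nil))) 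
(.lf (nat_lit 590350) (.g (nat_lit 1499) (.e (nat_lit 532513) (nat_lit 3) (.e (nat_lit 114718) (nat_lit 23) (.e (nat_lit 98350) (nat_lit 24) (.e (nat_lit 409617) (nat_lit 10) .nil)))) (.g (nat_lit 0) (.e (nat_lit 397695) (nat_lit 0) .nil) .nil)))) (.nd (nat_lit 9) 
(.lf (nat_lit 590094) (.g (nat_lit 1212) (.e (nat_lit 532510) (nat_lit 2) (.e (nat_lit 106536) (nat_lit 11) (.e (nat_lit 16413) (nat_lit 2) (.e (nat_lit 196674) (nat_lit 15) (.e (nat_lit 81922) (nat_lit 0) (.e (nat_lit 3234) (nat_lit 197) .nil)))))) (.g (nat_lit 1) (.e (nat_lit 397268) (nat_lit 0) .nil) .nil))) 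
(.lf (nat_lit 590606) (.g (nat_lit 3618) (.e (nat_lit 532515) (nat_lit 3) (.e (nat_lit 114719) (nat_lit 23) (.e (nat_lit 98365) (nat_lit 26) (.e (nat_lit 426133) (nat_lit 3) (.e (nat_lit 204805) (nat_lit 0) (.e (nat_lit 7105) (nat_lit 380) (.e (nat_lit 171776) (nat_lit 86) .nil))))))) (.g (nat_lit 1) (.e (nat_lit 398596) (nat_lit 0) .nil) .nil))))) (.nd (nat_lit 8) (.nd (nat_lit 9) 
(.lf (nat_lit 589966) (.g (nat_lit 2459) (.e (nat_lit 532504) (nat_lit 1) (.e (nat_lit 57853) (nat_lit 252) (.e (nat_lit 57406) (nat_lit 12) (.e (nat_lit 336456) (nat_lit 34) (.e (nat_lit 483402) (nat_lit 26) .nil))))) (.g (nat_lit 0) (.e (nat_lit 397096) (nat_lit 0) .nil) .nil))) 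
(.lf (nat_lit 590478) (.g (nat_lit 2927) (.e (nat_lit 532515) (nat_lit 3) (.e (nat_lit 114698) (nat_lit 11) (.e (nat_lit 426123) (nat_lit 2) (.e (nat_lit 196681) (nat_lit 17) (.e (nat_lit 131120) (nat_lit 12) (.e (nat_lit 385068) (nat_lit 26) .nil)))))) (.g (nat_lit 1) (.e (nat_lit 398046) (nat_lit 0) .nil) .nil)))) (.nd (nat_lit 9) 
(.lf (nat_lit 590222) (.g (nat_lit 3347) (.e (nat_lit 532513) (nat_lit 3) (.e (nat_lit 114714) (nat_lit 22) (.e (nat_lit 90172) (nat_lit 14) (.e (nat_lit 180243) (nat_lit 5) (.e (nat_lit 532504) (nat_lit 1) (.e (nat_lit 57663) (nat_lit 152) (.e (nat_lit 2715) (nat_lit 171) (.e (nat_lit 229433) (nat_lit 25) .nil)))))))) (.g (nat_lit 1) (.e (nat_lit 397525) (nat_lit 0) .nil) .nil))) 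
(.lf (nat_lit 590734) (.g (nat_lit 1357) (.e (nat_lit 532523) (nat_lit 7) (.e (nat_lit 319531) (nat_lit 16) (.e (nat_lit 286733) (nat_lit 2) (.e (nat_lit 90168) (nat_lit 13) .nil)))) (.g (nat_lit 0) (.e (nat_lit 398819) (nat_lit 0) .nil) .nil)))))) (.nd (nat_lit 7) (.nd (nat_lit 8) (.nd (nat_lit 9) 
(.lf (nat_lit 589902) (.g (nat_lit 3311) (.e (nat_lit 532504) (nat_lit 1) (.e (nat_lit 57851) (nat_lit 252) (.e (nat_lit 57406) (nat_lit 12) (.e (nat_lit 336456) (nat_lit 34) (.e (nat_lit 483383) (nat_lit 23) (.e (nat_lit 336258) (nat_lit 15) (.e (nat_lit 3246) (nat_lit 197) .nil))))))) (.g (nat_lit 1) (.e (nat_lit 397026) (nat_lit 0) .nil) .nil))) 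
(.lf (nat_lit 590414) (.g (nat_lit 927) (.e (nat_lit 532514) (nat_lit 3) (.e (nat_lit 114716) (nat_lit 22) (.e (nat_lit 90185) (nat_lit 17) (.e (nat_lit 237590) (nat_lit 2) .nil)))) (.g (nat_lit 0) (.e (nat_lit 397917) (nat_lit 0) .nil) .nil)))) (.nd (nat_lit 9) 
(.lf (nat_lit 590158) (.g (nat_lit 3119) (.e (nat_lit 532513) (nat_lit 3) (.e (nat_lit 114698) (nat_lit 11) (.e (nat_lit 426123) (nat_lit 2) (.e (nat_lit 196681) (nat_lit 17) (.e (nat_lit 131123) (nat_lit 12) (.e (nat_lit 385068) (nat_lit 26) .nil)))))) (.g (nat_lit 1) (.e (nat_lit 397375) (nat_lit 0) .nil) .nil))) 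
(.lf (nat_lit 590670) (.g (nat_lit 1741) (.e (nat_lit 532523) (nat_lit 7) (.e (nat_lit 319490) (nat_lit 0) (.e (nat_lit 5626) (nat_lit 312) (.e (nat_lit 2668) (nat_lit 167) .nil)))) (.g (nat_lit 0) (.e (nat_lit 398731) (nat_lit 0) .nil) .nil))))) (.nd (nat_lit 8) (.nd (nat_lit 9) 
(.lf (nat_lit 590030) (.g (nat_lit 1757) (.e (nat_lit 532506) (nat_lit 2) (.e (nat_lit 106536) (nat_lit 11) (.e (nat_lit 16416) (nat_lit 3) (.e (nat_lit 204865) (nat_lit 28) (.e (nat_lit 352261) (nat_lit 0) .nil))))) (.g (nat_lit 0) (.e (nat_lit 397176) (nat_lit 0) .nil) .nil))) 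
(.lf (nat_lit 590542) (.g (nat_lit 4213) (.e (nat_lit 532515) (nat_lit 3) (.e (nat_lit 114716) (nat_lit 22) (.e (nat_lit 90174) (nat_lit 14) (.e (nat_lit 180243) (nat_lit 5) (.e (nat_lit 532503) (nat_lit 1) (.e (nat_lit 57688) (nat_lit 156) (.e (nat_lit 163844) (nat_lit 0) (.e (nat_lit 3248) (nat_lit 197) .nil)))))))) (.g (nat_lit 1) (.e (nat_lit 398403) (nat_lit 0) .nil) .nil)))) 
(.nd (nat_lit 9) 
(.lf (nat_lit 590286) (.g (nat_lit 4136) (.e (nat_lit 532513) (nat_lit 3) (.e (nat_lit 114714) (nat_lit 22) (.e (nat_lit 90172) (nat_lit 14) (.e (nat_lit 180250) (nat_lit 10) (.e (nat_lit 573475) (nat_lit 12) (.e (nat_lit 57503) (nat_lit 38) (.e (nat_lit 639002) (nat_lit 11) (.e (nat_lit 229433) (nat_lit 25) .nil)))))))) (.g (nat_lit 1) (.e (nat_lit 397610) (nat_lit 0) .nil) .nil))) 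
(.lf (nat_lit 590798) (.g (nat_lit 1826) (.e (nat_lit 532523) (nat_lit 7) (.e (nat_lit 319533) (nat_lit 16) (.e (nat_lit 286735) (nat_lit 3) (.e (nat_lit 98325) (nat_lit 17) .nil)))) (.g (nat_lit 0) (.e (nat_lit 398897) (nat_lit 0) .nil) .nil))))))) (.nd (nat_lit 6) (.nd (nat_lit 7) (.nd (nat_lit 8) (.nd (nat_lit 9) 
(.lf (nat_lit 589870) (.g (nat_lit 1532) (.e (nat_lit 532504) (nat_lit 1) (.e (nat_lit 57851) (nat_lit 252) (.e (nat_lit 57406) (nat_lit 12) (.e (nat_lit 336375) (nat_lit 27) .nil)))) (.g (nat_lit 0) (.e (nat_lit 396994) (nat_lit 0) .nil) .nil))) 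
(.lf (nat_lit 590382) (.g (nat_lit 3196) (.e (nat_lit 532513) (nat_lit 3) (.e (nat_lit 114719) (nat_lit 23) (.e (nat_lit 98384) (nat_lit 32) (.e (nat_lit 475177) (nat_lit 24) (.e (nat_lit 516117) (nat_lit 1) (.e (nat_lit 164305) (nat_lit 226) (.e (nat_lit 2612) (nat_lit 163) (.e (nat_lit 163964) (nat_lit 25) .nil)))))))) (.g (nat_lit 1) (.e (nat_lit 397772) (nat_lit 0) .nil) .nil)))) 
(.nd (nat_lit 9) 
(.lf (nat_lit 590126) (.g (nat_lit 1677) (.e (nat_lit 532511) (nat_lit 2) (.e (nat_lit 106536) (nat_lit 11) (.e (nat_lit 16412) (nat_lit 2) (.e (nat_lit 196672) (nat_lit 15) (.e (nat_lit 89856) (nat_lit 0) (.e (nat_lit 3245) (nat_lit 197) .nil)))))) (.g (nat_lit 1) (.e (nat_lit 397306) (nat_lit 0) .nil) .nil))) 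
(.lf (nat_lit 590638) (.g (nat_lit 906) (.e (nat_lit 532522) (nat_lit 7) (.e (nat_lit 319504) (nat_lit 10) (.e (nat_lit 5294) (nat_lit 298) .nil))) (.g (nat_lit 0) (.e (nat_lit 398691) (nat_lit 0) .nil) .nil))))) (.nd (nat_lit 8) (.nd (nat_lit 9) 
(.lf (nat_lit 589998) (.g (nat_lit 2015) (.e (nat_lit 532504) (nat_lit 1) (.e (nat_lit 57931) (nat_lit 282) (.e (nat_lit 163869) (nat_lit 2) (.e (nat_lit 196663) (nat_lit 13) .nil)))) (.g (nat_lit 0) (.e (nat_lit 397138) (nat_lit 0) .nil) .nil))) 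
(.lf (nat_lit 590510) (.g (nat_lit 292) (.e (nat_lit 532515) (nat_lit 3) (.e (nat_lit 114716) (nat_lit 22) (.e (nat_lit 90172) (nat_lit 14) .nil))) (.g (nat_lit 0) (.e (nat_lit 398179) (nat_lit 0) .nil) .nil)))) (.nd (nat_lit 9) 
(.lf (nat_lit 590254) (.g (nat_lit 1816) (.e (nat_lit 532513) (nat_lit 3) (.e (nat_lit 114714) (nat_lit 22) (.e (nat_lit 90172) (nat_lit 14) (.e (nat_lit 180244) (nat_lit 5) (.e (nat_lit 532503) (nat_lit 1) .nil))))) (.g (nat_lit 0) (.e (nat_lit 397568) (nat_lit 0) .nil) .nil))) 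
(.lf (nat_lit 590766) (.g (nat_lit 1130) (.e (nat_lit 532523) (nat_lit 7) (.e (nat_lit 319532) (nat_lit 16) (.e (nat_lit 286734) (nat_lit 3) (.e (nat_lit 98379) (nat_lit 31) .nil)))) (.g (nat_lit 0) (.e (nat_lit 398852) (nat_lit 0) .nil) .nil)))))) (.nd (nat_lit 7) (.nd (nat_lit 8) (.nd (nat_lit 9) 
(.lf (nat_lit 589934) (.g (nat_lit 3816) (.e (nat_lit 532504) (nat_lit 1) (.e (nat_lit 57852) (nat_lit 252) (.e (nat_lit 57371) (nat_lit 2) (.e (nat_lit 90160) (nat_lit 11) (.e (nat_lit 24608) (nat_lit 3) (.e (nat_lit 98341) (nat_lit 20) (.e (nat_lit 221204) (nat_lit 20) (.e (nat_lit 3253) (nat_lit 197) .nil)))))))) (.g (nat_lit 1) (.e (nat_lit 397058) (nat_lit 0) .nil) .nil))) 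
(.lf (nat_lit 590446) (.g (nat_lit 2068) (.e (nat_lit 532514) (nat_lit 3) (.e (nat_lit 114719) (nat_lit 23) (.e (nat_lit 98356) (nat_lit 26) (.e (nat_lit 426438) (nat_lit 18) (.e (nat_lit 98334) (nat_lit 18) (.e (nat_lit 164305) (nat_lit 226) (.e (nat_lit 2612) (nat_lit 163) (.e (nat_lit 163964) (nat_lit 25) .nil)))))))) (.g (nat_lit 1) (.e (nat_lit 397953) (nat_lit 0) .nil) .nil)))) 
(.nd (nat_lit 9) 
(.lf (nat_lit 590190) (.g (nat_lit 2865) (.e (nat_lit 532513) (nat_lit 3) (.e (nat_lit 114714) (nat_lit 22) (.e (nat_lit 90170) (nat_lit 13) (.e (nat_lit 172065) (nat_lit 3) (.e (nat_lit 204830) (nat_lit 18) (.e (nat_lit 57665) (nat_lit 152) (.e (nat_lit 2715) (nat_lit 171) (.e (nat_lit 229433) (nat_lit 25) .nil)))))))) (.g (nat_lit 1) (.e (nat_lit 397480) (nat_lit 0) .nil) .nil))) 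
(.lf (nat_lit 590702) (.g (nat_lit 2107) (.e (nat_lit 532523) (nat_lit 7) (.e (nat_lit 319529) (nat_lit 16) (.e (nat_lit 286735) (nat_lit 3) (.e (nat_lit 98355) (nat_lit 26) (.e (nat_lit 426272) (nat_lit 10) .nil))))) (.g (nat_lit 0) (.e (nat_lit 398781) (nat_lit 0) .nil) .nil))))) (.nd (nat_lit 8) (.nd (nat_lit 9) 
(.lf (nat_lit 590062) (.g (nat_lit 1397) (.e (nat_lit 532508) (nat_lit 2) (.e (nat_lit 106536) (nat_lit 11) (.e (nat_lit 16416) (nat_lit 3) (.e (nat_lit 204859) (nat_lit 26) .nil)))) (.g (nat_lit 0) (.e (nat_lit 397228) (nat_lit 0) .nil) .nil))) 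
(.lf (nat_lit 590574) (.g (nat_lit 418) (.e (nat_lit 532515) (nat_lit 3) (.e (nat_lit 114719) (nat_lit 23) (.e (nat_lit 98334) (nat_lit 18) .nil))) (.g (nat_lit 0) (.e (nat_lit 398523) (nat_lit 0) .nil) .nil)))) (.nd (nat_lit 9) 
(.lf (nat_lit 590318) (.g (nat_lit 3049) (.e (nat_lit 532513) (nat_lit 3) (.e (nat_lit 114714) (nat_lit 22) (.e (nat_lit 90174) (nat_lit 14) (.e (nat_lit 180243) (nat_lit 5) (.e (nat_lit 532501) (nat_lit 1) (.e (nat_lit 57670) (nat_lit 152) (.e (nat_lit 2715) (nat_lit 171) (.e (nat_lit 229433) (nat_lit 25) .nil)))))))) (.g (nat_lit 1) (.e (nat_lit 397649) (nat_lit 0) .nil) .nil))) 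
(.lf (nat_lit 590830) (.g (nat_lit 1044) (.e (nat_lit 532523) (nat_lit 7) (.e (nat_lit 319534) (nat_lit 16) (.e (nat_lit 286728) (nat_lit 0) (.e (nat_lit 1842) (nat_lit 123) .nil)))) (.g (nat_lit 0) (.e (nat_lit 398930) (nat_lit 0) .nil) .nil)))))))) (.nd (nat_lit 5) (.nd (nat_lit 6) (.nd (nat_lit 7) (.nd (nat_lit 8) (.nd (nat_lit 9) 
(.lf (nat_lit 589854) (.g (nat_lit 1465) (.e (nat_lit 532504) (nat_lit 1) (.e (nat_lit 57844) (nat_lit 252) (.e (nat_lit 57406) (nat_lit 12) (.e (nat_lit 336456) (nat_lit 34) .nil)))) (.g (nat_lit 0) (.e (nat_lit 396977) (nat_lit 0) .nil) .nil))) 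
(.lf (nat_lit 590366) (.g (nat_lit 2479) (.e (nat_lit 532513) (nat_lit 3) (.e (nat_lit 114719) (nat_lit 23) (.e (nat_lit 98334) (nat_lit 18) (.e (nat_lit 164398) (nat_lit 256) (.e (nat_lit 57370) (nat_lit 2) .nil))))) (.g (nat_lit 0) (.e (nat_lit 397730) (nat_lit 0) .nil) .nil)))) (.nd (nat_lit 9) 
(.lf (nat_lit 590110) (.g (nat_lit 981) (.e (nat_lit 532511) (nat_lit 2) (.e (nat_lit 106534) (nat_lit 11) (.e (nat_lit 16413) (nat_lit 2) (.e (nat_lit 196672) (nat_lit 15) (.e (nat_lit 89856) (nat_lit 0) (.e (nat_lit 3245) (nat_lit 197) .nil)))))) (.g (nat_lit 1) (.e (nat_lit 397288) (nat_lit 0) .nil) .nil))) 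
(.lf (nat_lit 590622) (.g (nat_lit 1582) (.e (nat_lit 532515) (nat_lit 3) (.e (nat_lit 114719) (nat_lit 23) (.e (nat_lit 98383) (nat_lit 32) (.e (nat_lit 475179) (nat_lit 24) (.e (nat_lit 516120) (nat_lit 1) .nil))))) (.g (nat_lit 0) (.e (nat_lit 398641) (nat_lit 0) .nil) .nil))))) (.nd (nat_lit 8) (.nd (nat_lit 9) 
(.lf (nat_lit 589982) (.g (nat_lit 3388) (.e (nat_lit 532504) (nat_lit 1) (.e (nat_lit 57854) (nat_lit 252) (.e (nat_lit 57409) (nat_lit 12) (.e (nat_lit 336454) (nat_lit 34) (.e (nat_lit 483385) (nat_lit 23) (.e (nat_lit 336260) (nat_lit 15) (.e (nat_lit 3254) (nat_lit 197) .nil))))))) (.g (nat_lit 1) (.e (nat_lit 397117) (nat_lit 0) .nil) .nil))) 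
(.lf (nat_lit 590494) (.g (nat_lit 1629) (.e (nat_lit 532515) (nat_lit 3) (.e (nat_lit 114715) (nat_lit 22) (.e (nat_lit 90170) (nat_lit 13) (.e (nat_lit 172062) (nat_lit 2) .nil)))) (.g (nat_lit 0) (.e (nat_lit 398108) (nat_lit 0) .nil) .nil)))) (.nd (nat_lit 9) 
(.lf (nat_lit 590238) (.g (nat_lit 2535) (.e (nat_lit 532513) (nat_lit 3) (.e (nat_lit 114714) (nat_lit 22) (.e (nat_lit 90172) (nat_lit 14) (.e (nat_lit 180244) (nat_lit 5) (.e (nat_lit 532499) (nat_lit 1) (.e (nat_lit 57686) (nat_lit 156) (.e (nat_lit 163850) (nat_lit 0) (.e (nat_lit 3252) (nat_lit 197) .nil)))))))) (.g (nat_lit 1) (.e (nat_lit 397546) (nat_lit 0) .nil) .nil))) 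
(.lf (nat_lit 590750) (.g (nat_lit 3292) (.e (nat_lit 532523) (nat_lit 7) (.e (nat_lit 319531) (nat_lit 16) (.e (nat_lit 286735) (nat_lit 3) (.e (nat_lit 98367) (nat_lit 27) (.e (nat_lit 434183) (nat_lit 8) (.e (nat_lit 2505) (nat_lit 157) (.e (nat_lit 3249) (nat_lit 197) .nil))))))) (.g (nat_lit 1) (.e (nat_lit 398835) (nat_lit 0) .nil) .nil)))))) 
(.nd (nat_lit 7) (.nd (nat_lit 8) (.nd (nat_lit 9) 
(.lf (nat_lit 589918) (.g (nat_lit 1900) (.e (nat_lit 532504) (nat_lit 1) (.e (nat_lit 57851) (nat_lit 252) (.e (nat_lit 57446) (nat_lit 19) (.e (nat_lit 393229) (nat_lit 9) (.e (nat_lit 336088) (nat_lit 9) (.e (nat_lit 336257) (nat_lit 15) (.e (nat_lit 3248) (nat_lit 197) .nil))))))) (.g (nat_lit 1) (.e (nat_lit 397042) (nat_lit 0) .nil) .nil))) 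
(.lf (nat_lit 590430) (.g (nat_lit 1436) (.e (nat_lit 532514) (nat_lit 3) (.e (nat_lit 114718) (nat_lit 23) (.e (nat_lit 98384) (nat_lit 32) (.e (nat_lit 475177) (nat_lit 24) .nil)))) (.g (nat_lit 0) (.e (nat_lit 397936) (nat_lit 0) .nil) .nil)))) (.nd (nat_lit 9) 
(.lf (nat_lit 590174) (.g (nat_lit 798) (.e (nat_lit 532513) (nat_lit 3) (.e (nat_lit 114711) (nat_lit 21) (.e (nat_lit 57640) (nat_lit 140) .nil))) (.g (nat_lit 0) (.e (nat_lit 397442) (nat_lit 0) .nil) .nil))) 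
(.lf (nat_lit 590686) (.g (nat_lit 1793) (.e (nat_lit 532523) (nat_lit 7) (.e (nat_lit 319528) (nat_lit 16) (.e (nat_lit 286735) (nat_lit 3) (.e (nat_lit 98321) (nat_lit 17) (.e (nat_lit 7936) (nat_lit 393) .nil))))) (.g (nat_lit 0) (.e (nat_lit 398762) (nat_lit 0) .nil) .nil))))) (.nd (nat_lit 8) (.nd (nat_lit 9) 
(.lf (nat_lit 590046) (.g (nat_lit 1058) (.e (nat_lit 532508) (nat_lit 2) (.e (nat_lit 106534) (nat_lit 11) (.e (nat_lit 16413) (nat_lit 2) (.e (nat_lit 196672) (nat_lit 15) (.e (nat_lit 89856) (nat_lit 0) (.e (nat_lit 3233) (nat_lit 197) .nil)))))) (.g (nat_lit 1) (.e (nat_lit 397208) (nat_lit 0) .nil) .nil))) 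
(.lf (nat_lit 590558) (.g (nat_lit 1222) (.e (nat_lit 532515) (nat_lit 3) (.e (nat_lit 114718) (nat_lit 23) (.e (nat_lit 98334) (nat_lit 18) (.e (nat_lit 164398) (nat_lit 256) .nil)))) (.g (nat_lit 0) (.e (nat_lit 398487) (nat_lit 0) .nil) .nil)))) (.nd (nat_lit 9) 
(.lf (nat_lit 590302) (.g (nat_lit 1803) (.e (nat_lit 532513) (nat_lit 3) (.e (nat_lit 114714) (nat_lit 22) (.e (nat_lit 90174) (nat_lit 14) (.e (nat_lit 180243) (nat_lit 5) (.e (nat_lit 532501) (nat_lit 1) .nil))))) (.g (nat_lit 0) (.e (nat_lit 397630) (nat_lit 0) .nil) .nil))) 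
(.lf (nat_lit 590814) (.g (nat_lit 3897) (.e (nat_lit 532523) (nat_lit 7) (.e (nat_lit 319533) (nat_lit 16) (.e (nat_lit 286735) (nat_lit 3) (.e (nat_lit 98370) (nat_lit 28) (.e (nat_lit 442392) (nat_lit 20) (.e (nat_lit 3238) (nat_lit 197) .nil)))))) (.g (nat_lit 1) (.e (nat_lit 398913) (nat_lit 0) .nil) .nil))))))) (.nd (nat_lit 6) (.nd (nat_lit 7) (.nd (nat_lit 8) (.nd (nat_lit 9) 
(.lf (nat_lit 589886) (.g (nat_lit 3175) (.e (nat_lit 532504) (nat_lit 1) (.e (nat_lit 57851) (nat_lit 252) (.e (nat_lit 57406) (nat_lit 12) (.e (nat_lit 336456) (nat_lit 34) (.e (nat_lit 483379) (nat_lit 23) (.e (nat_lit 336281) (nat_lit 15) (.e (nat_lit 3231) (nat_lit 197) .nil))))))) (.g (nat_lit 1) (.e (nat_lit 397010) (nat_lit 0) .nil) .nil))) 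
(.lf (nat_lit 590398) (.g (nat_lit 2336) (.e (nat_lit 532514) (nat_lit 3) (.e (nat_lit 114712) (nat_lit 21) (.e (nat_lit 57691) (nat_lit 156) (.e (nat_lit 163869) (nat_lit 2) (.e (nat_lit 196691) (nat_lit 18) .nil))))) (.g (nat_lit 0) (.e (nat_lit 397869) (nat_lit 0) .nil) .nil)))) (.nd (nat_lit 9) 
(.lf (nat_lit 590142) (.g (nat_lit 1550) (.e (nat_lit 532513) (nat_lit 3) (.e (nat_lit 114697) (nat_lit 11) (.e (nat_lit 426122) (nat_lit 2) (.e (nat_lit 196681) (nat_lit 17) (.e (nat_lit 131122) (nat_lit 12) .nil))))) (.g (nat_lit 0) (.e (nat_lit 397332) (nat_lit 0) .nil) .nil))) 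
(.lf (nat_lit 590654) (.g (nat_lit 1401) (.e (nat_lit 532522) (nat_lit 7) (.e (nat_lit 319530) (nat_lit 16) (.e (nat_lit 286735) (nat_lit 3) (.e (nat_lit 106240) (nat_lit 29) .nil)))) (.g (nat_lit 0) (.e (nat_lit 398709) (nat_lit 0) .nil) .nil))))) (.nd (nat_lit 8) (.nd (nat_lit 9) 
(.lf (nat_lit 590014) (.g (nat_lit 3696) (.e (nat_lit 532504) (nat_lit 1) (.e (nat_lit 57931) (nat_lit 282) (.e (nat_lit 163885) (nat_lit 5) (.e (nat_lit 221210) (nat_lit 22) (.e (nat_lit 196656) (nat_lit 11) (.e (nat_lit 16425) (nat_lit 7) (.e (nat_lit 409617) (nat_lit 10) (.e (nat_lit 604) (nat_lit 45) .nil)))))))) (.g (nat_lit 1) (.e (nat_lit 397156) (nat_lit 0) .nil) .nil))) 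
(.lf (nat_lit 590526) (.g (nat_lit 4349) (.e (nat_lit 532515) (nat_lit 3) (.e (nat_lit 114716) (nat_lit 22) (.e (nat_lit 90172) (nat_lit 14) (.e (nat_lit 180244) (nat_lit 5) (.e (nat_lit 532503) (nat_lit 1) (.e (nat_lit 57687) (nat_lit 156) (.e (nat_lit 163843) (nat_lit 0) (.e (nat_lit 3248) (nat_lit 197) .nil)))))))) (.g (nat_lit 1) (.e (nat_lit 398289) (nat_lit 0) .nil) .nil)))) 
(.nd (nat_lit 9) 
(.lf (nat_lit 590270) (.g (nat_lit 3406) (.e (nat_lit 532513) (nat_lit 3) (.e (nat_lit 114714) (nat_lit 22) (.e (nat_lit 90172) (nat_lit 14) (.e (nat_lit 180244) (nat_lit 5) (.e (nat_lit 532503) (nat_lit 1) (.e (nat_lit 57687) (nat_lit 156) (.e (nat_lit 163844) (nat_lit 0) (.e (nat_lit 3248) (nat_lit 197) .nil)))))))) (.g (nat_lit 1) (.e (nat_lit 397592) (nat_lit 0) .nil) .nil))) 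
(.lf (nat_lit 590782) (.g (nat_lit 3495) (.e (nat_lit 532523) (nat_lit 7) (.e (nat_lit 319533) (nat_lit 16) (.e (nat_lit 286733) (nat_lit 2) (.e (nat_lit 90176) (nat_lit 15) (.e (nat_lit 188438) (nat_lit 20) .nil))))) (.g (nat_lit 0) (.e (nat_lit 398881) (nat_lit 0) .nil) .nil)))))) (.nd (nat_lit 7) (.nd (nat_lit 8) (.nd (nat_lit 9) 
(.lf (nat_lit 589950) (.g (nat_lit 1334) (.e (nat_lit 532504) (nat_lit 1) (.e (nat_lit 57852) (nat_lit 252) (.e (nat_lit 57406) (nat_lit 12) (.e (nat_lit 336456) (nat_lit 34) .nil)))) (.g (nat_lit 0) (.e (nat_lit 397075) (nat_lit 0) .nil) .nil))) 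
(.lf (nat_lit 590462) (.g (nat_lit 1775) (.e (nat_lit 532515) (nat_lit 3) (.e (nat_lit 114697) (nat_lit 11) (.e (nat_lit 426116) (nat_lit 2) (.e (nat_lit 196672) (nat_lit 15) (.e (nat_lit 81924) (nat_lit 0) (.e (nat_lit 3253) (nat_lit 197) .nil)))))) (.g (nat_lit 1) (.e (nat_lit 397990) (nat_lit 0) .nil) .nil)))) (.nd (nat_lit 9) 
(.lf (nat_lit 590206) (.g (nat_lit 3331) (.e (nat_lit 532513) (nat_lit 3) (.e (nat_lit 114714) (nat_lit 22) (.e (nat_lit 90172) (nat_lit 14) (.e (nat_lit 180243) (nat_lit 5) (.e (nat_lit 532501) (nat_lit 1) (.e (nat_lit 57663) (nat_lit 152) (.e (nat_lit 7936) (nat_lit 163) (.e (nat_lit 163962) (nat_lit 25) .nil)))))))) (.g (nat_lit 1) (.e (nat_lit 397505) (nat_lit 0) .nil) .nil))) 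
(.lf (nat_lit 590718) (.g (nat_lit 1552) (.e (nat_lit 532523) (nat_lit 7) (.e (nat_lit 319530) (nat_lit 16) (.e (nat_lit 286735) (nat_lit 3) (.e (nat_lit 98354) (nat_lit 26) .nil)))) (.g (nat_lit 0) (.e (nat_lit 398799) (nat_lit 0) .nil) .nil))))) (.nd (nat_lit 8) (.nd (nat_lit 9) 
(.lf (nat_lit 590078) (.g (nat_lit 1784) (.e (nat_lit 532510) (nat_lit 2) (.e (nat_lit 106534) (nat_lit 11) (.e (nat_lit 16416) (nat_lit 3) (.e (nat_lit 204861) (nat_lit 26) (.e (nat_lit 336195) (nat_lit 12) .nil))))) (.g (nat_lit 0) (.e (nat_lit 397248) (nat_lit 0) .nil) .nil))) 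
(.lf (nat_lit 590590) (.g (nat_lit 4578) (.e (nat_lit 532515) (nat_lit 3) (.e (nat_lit 114719) (nat_lit 23) (.e (nat_lit 98357) (nat_lit 26) (.e (nat_lit 426436) (nat_lit 18) (.e (nat_lit 98335) (nat_lit 18) (.e (nat_lit 164305) (nat_lit 226) (.e (nat_lit 2612) (nat_lit 163) (.e (nat_lit 163964) (nat_lit 25) .nil)))))))) (.g (nat_lit 1) (.e (nat_lit 398560) (nat_lit 0) .nil) .nil)))) 
(.nd (nat_lit 9) 
(.lf (nat_lit 590334) (.g (nat_lit 2699) (.e (nat_lit 532513) (nat_lit 3) (.e (nat_lit 114714) (nat_lit 22) (.e (nat_lit 90174) (nat_lit 14) (.e (nat_lit 180243) (nat_lit 5) (.e (nat_lit 532504) (nat_lit 1) (.e (nat_lit 57663) (nat_lit 152) (.e (nat_lit 2717) (nat_lit 171) (.e (nat_lit 229434) (nat_lit 25) .nil)))))))) (.g (nat_lit 1) (.e (nat_lit 397669) (nat_lit 0) .nil) .nil))) 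
(.lf (nat_lit 590846) (.g (nat_lit 1770) (.e (nat_lit 532523) (nat_lit 7) (.e (nat_lit 319534) (nat_lit 16) (.e (nat_lit 286734) (nat_lit 3) (.e (nat_lit 98320) (nat_lit 17) .nil)))) (.g (nat_lit 0) (.e (nat_lit 398958) (nat_lit 0) .nil) .nil)))))))))))) 
(.nd (nat_lit 1) (.nd (nat_lit 2) (.nd (nat_lit 3) (.nd (nat_lit 4) (.nd (nat_lit 5) 
(.nd (nat_lit 6) (.nd (nat_lit 7) (.nd (nat_lit 8) (.nd (nat_lit 9) 
(.lf (nat_lit 589825) (.g (nat_lit 2782) (.e (nat_lit 532503) (nat_lit 1) (.e (nat_lit 57931) (nat_lit 282) (.e (nat_lit 163884) (nat_lit 5) (.e (nat_lit 221212) (nat_lit 22) (.e (nat_lit 196656) (nat_lit 11) (.e (nat_lit 16425) (nat_lit 7) (.e (nat_lit 409616) (nat_lit 10) (.e (nat_lit 604) (nat_lit 45) .nil)))))))) (.g (nat_lit 1) (.e (nat_lit 396925) (nat_lit 0) .nil) .nil))) 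
(.lf (nat_lit 590337) (.g (nat_lit 2603) (.e (nat_lit 532513) (nat_lit 3) (.e (nat_lit 114714) (nat_lit 22) (.e (nat_lit 90174) (nat_lit 14) (.e (nat_lit 180243) (nat_lit 5) (.e (nat_lit 532504) (nat_lit 1) (.e (nat_lit 57664) (nat_lit 152) (.e (nat_lit 2716) (nat_lit 171) (.e (nat_lit 229433) (nat_lit 25) .nil)))))))) (.g (nat_lit 1) (.e (nat_lit 397672) (nat_lit 0) .nil) .nil)))) 
(.nd (nat_lit 9) 
(.lf (nat_lit 590081) (.g (nat_lit 1135) (.e (nat_lit 532510) (nat_lit 2) (.e (nat_lit 106534) (nat_lit 11) (.e (nat_lit 16416) (nat_lit 3) (.e (nat_lit 204877) (nat_lit 31) .nil)))) (.g (nat_lit 0) (.e (nat_lit 397251) (nat_lit 0) .nil) .nil))) 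
(.lf (nat_lit 590593) (.g (nat_lit 1119) (.e (nat_lit 532515) (nat_lit 3) (.e (nat_lit 114719) (nat_lit 23) (.e (nat_lit 98360) (nat_lit 26) (.e (nat_lit 426125) (nat_lit 2) .nil)))) (.g (nat_lit 0) (.e (nat_lit 398565) (nat_lit 0) .nil) .nil))))) (.nd (nat_lit 8) (.nd (nat_lit 9) 
(.lf (nat_lit 589953) (.g (nat_lit 2705) (.e (nat_lit 532504) (nat_lit 1) (.e (nat_lit 57852) (nat_lit 252) (.e (nat_lit 57406) (nat_lit 12) (.e (nat_lit 336456) (nat_lit 34) (.e (nat_lit 483387) (nat_lit 23) .nil))))) (.g (nat_lit 0) (.e (nat_lit 397078) (nat_lit 0) .nil) .nil))) 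
(.lf (nat_lit 590465) (.g (nat_lit 2580) (.e (nat_lit 532515) (nat_lit 3) (.e (nat_lit 114697) (nat_lit 11) (.e (nat_lit 426124) (nat_lit 2) (.e (nat_lit 196681) (nat_lit 17) (.e (nat_lit 131123) (nat_lit 12) (.e (nat_lit 385066) (nat_lit 26) .nil)))))) (.g (nat_lit 1) (.e (nat_lit 398015) (nat_lit 0) .nil) .nil)))) (.nd (nat_lit 9) 
(.lf (nat_lit 590209) (.g (nat_lit 2619) (.e (nat_lit 532513) (nat_lit 3) (.e (nat_lit 114714) (nat_lit 22) (.e (nat_lit 90172) (nat_lit 14) (.e (nat_lit 180243) (nat_lit 5) (.e (nat_lit 532501) (nat_lit 1) (.e (nat_lit 57663) (nat_lit 152) (.e (nat_lit 2717) (nat_lit 171) (.e (nat_lit 229434) (nat_lit 25) .nil)))))))) (.g (nat_lit 1) (.e (nat_lit 397508) (nat_lit 0) .nil) .nil))) 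
(.lf (nat_lit 590721) (.g (nat_lit 3508) (.e (nat_lit 532523) (nat_lit 7) (.e (nat_lit 319530) (nat_lit 16) (.e (nat_lit 286735) (nat_lit 3) (.e (nat_lit 98367) (nat_lit 27) (.e (nat_lit 434183) (nat_lit 8) (.e (nat_lit 2505) (nat_lit 157) (.e (nat_lit 3249) (nat_lit 197) .nil))))))) (.g (nat_lit 1) (.e (nat_lit 398802) (nat_lit 0) .nil) .nil)))))) 
(.nd (nat_lit 7) (.nd (nat_lit 8) (.nd (nat_lit 9) 
(.lf (nat_lit 589889) (.g (nat_lit 2286) (.e (nat_lit 532504) (nat_lit 1) (.e (nat_lit 57851) (nat_lit 252) (.e (nat_lit 57406) (nat_lit 12) (.e (nat_lit 336456) (nat_lit 34) (.e (nat_lit 483380) (nat_lit 23) (.e (nat_lit 336257) (nat_lit 15) (.e (nat_lit 3252) (nat_lit 197) .nil))))))) (.g (nat_lit 1) (.e (nat_lit 397013) (nat_lit 0) .nil) .nil))) 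
(.lf (nat_lit 590401) (.g (nat_lit 1928) (.e (nat_lit 532514) (nat_lit 3) (.e (nat_lit 114715) (nat_lit 22) (.e (nat_lit 90170) (nat_lit 13) (.e (nat_lit 172064) (nat_lit 2) (.e (nat_lit 204544) (nat_lit 2) .nil))))) (.g (nat_lit 0) (.e (nat_lit 397876) (nat_lit 0) .nil) .nil)))) (.nd (nat_lit 9) 
(.lf (nat_lit 590145) (.g (nat_lit 281) (.e (nat_lit 532513) (nat_lit 3) (.e (nat_lit 114697) (nat_lit 11) (.e (nat_lit 426139) (nat_lit 3) .nil))) (.g (nat_lit 0) (.e (nat_lit 397338) (nat_lit 0) .nil) .nil))) 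
(.lf (nat_lit 590657) (.g (nat_lit 1643) (.e (nat_lit 532522) (nat_lit 7) (.e (nat_lit 319531) (nat_lit 16) (.e (nat_lit 286733) (nat_lit 2) (.e (nat_lit 90131) (nat_lit 9) .nil)))) (.g (nat_lit 0) (.e (nat_lit 398715) (nat_lit 0) .nil) .nil))))) (.nd (nat_lit 8) (.nd (nat_lit 9) 
(.lf (nat_lit 590017) (.g (nat_lit 2203) (.e (nat_lit 532505) (nat_lit 2) (.e (nat_lit 106536) (nat_lit 11) (.e (nat_lit 16412) (nat_lit 2) (.e (nat_lit 196672) (nat_lit 15) .nil)))) (.g (nat_lit 0) (.e (nat_lit 397160) (nat_lit 0) .nil) .nil))) 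
(.lf (nat_lit 590529) (.g (nat_lit 2982) (.e (nat_lit 532515) (nat_lit 3) (.e (nat_lit 114716) (nat_lit 22) (.e (nat_lit 90172) (nat_lit 14) (.e (nat_lit 180244) (nat_lit 5) (.e (nat_lit 532575) (nat_lit 17) (.e (nat_lit 7098) (nat_lit 380) (.e (nat_lit 171776) (nat_lit 86) .nil))))))) (.g (nat_lit 1) (.e (nat_lit 398311) (nat_lit 0) .nil) .nil)))) (.nd (nat_lit 9) 
(.lf (nat_lit 590273) (.g (nat_lit 4004) (.e (nat_lit 532513) (nat_lit 3) (.e (nat_lit 114714) (nat_lit 22) (.e (nat_lit 90172) (nat_lit 14) (.e (nat_lit 180244) (nat_lit 5) (.e (nat_lit 532503) (nat_lit 1) (.e (nat_lit 57688) (nat_lit 156) (.e (nat_lit 163850) (nat_lit 0) (.e (nat_lit 3252) (nat_lit 197) .nil)))))))) (.g (nat_lit 1) (.e (nat_lit 397596) (nat_lit 0) .nil) .nil))) 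
(.lf (nat_lit 590785) (.g (nat_lit 3848) (.e (nat_lit 532523) (nat_lit 7) (.e (nat_lit 319533) (nat_lit 16) (.e (nat_lit 286733) (nat_lit 2) (.e (nat_lit 90178) (nat_lit 15) (.e (nat_lit 188424) (nat_lit 20) (.e (nat_lit 3238) (nat_lit 197) .nil)))))) (.g (nat_lit 1) (.e (nat_lit 398884) (nat_lit 0) .nil) .nil))))))) (.nd (nat_lit 6) (.nd (nat_lit 7) (.nd (nat_lit 8) (.nd (nat_lit 9) 
(.lf (nat_lit 589857) (.g (nat_lit 1293) (.e (nat_lit 532504) (nat_lit 1) (.e (nat_lit 57851) (nat_lit 252) (.e (nat_lit 57371) (nat_lit 2) (.e (nat_lit 90158) (nat_lit 11) .nil)))) (.g (nat_lit 0) (.e (nat_lit 396980) (nat_lit 0) .nil) .nil))) 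
(.lf (nat_lit 590369) (.g (nat_lit 1473) (.e (nat_lit 532513) (nat_lit 3) (.e (nat_lit 114719) (nat_lit 23) (.e (nat_lit 98335) (nat_lit 18) (.e (nat_lit 164403) (nat_lit 256) .nil)))) (.g (nat_lit 0) (.e (nat_lit 397733) (nat_lit 0) .nil) .nil)))) (.nd (nat_lit 9) 
(.lf (nat_lit 590113) (.g (nat_lit 1833) (.e (nat_lit 532511) (nat_lit 2) (.e (nat_lit 106534) (nat_lit 11) (.e (nat_lit 16415) (nat_lit 3) (.e (nat_lit 204861) (nat_lit 26) (.e (nat_lit 336195) (nat_lit 12) .nil))))) (.g (nat_lit 0) (.e (nat_lit 397291) (nat_lit 0) .nil) .nil))) 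
(.lf (nat_lit 590625) (.g (nat_lit 2350) (.e (nat_lit 532515) (nat_lit 3) (.e (nat_lit 114719) (nat_lit 23) (.e (nat_lit 98384) (nat_lit 32) (.e (nat_lit 475177) (nat_lit 24) (.e (nat_lit 516120) (nat_lit 1) (.e (nat_lit 164330) (nat_lit 230) (.e (nat_lit 163850) (nat_lit 0) (.e (nat_lit 3252) (nat_lit 197) .nil)))))))) (.g (nat_lit 1) (.e (nat_lit 398650) (nat_lit 0) .nil) .nil))))) 
(.nd (nat_lit 8) (.nd (nat_lit 9) 
(.lf (nat_lit 589985) (.g (nat_lit 4329) (.e (nat_lit 532504) (nat_lit 1) (.e (nat_lit 57854) (nat_lit 252) (.e (nat_lit 57445) (nat_lit 19) (.e (nat_lit 393229) (nat_lit 9) (.e (nat_lit 336091) (nat_lit 9) .nil))))) (.g (nat_lit 0) (.e (nat_lit 397120) (nat_lit 0) .nil) .nil))) 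
(.lf (nat_lit 590497) (.g (nat_lit 2125) (.e (nat_lit 532515) (nat_lit 3) (.e (nat_lit 114715) (nat_lit 22) (.e (nat_lit 90170) (nat_lit 13) (.e (nat_lit 172067) (nat_lit 3) (.e (nat_lit 204805) (nat_lit 0) (.e (nat_lit 7098) (nat_lit 380) (.e (nat_lit 171776) (nat_lit 86) .nil))))))) (.g (nat_lit 1) (.e (nat_lit 398121) (nat_lit 0) .nil) .nil)))) (.nd (nat_lit 9) 
(.lf (nat_lit 590241) (.g (nat_lit 3394) (.e (nat_lit 532513) (nat_lit 3) (.e (nat_lit 114714) (nat_lit 22) (.e (nat_lit 90172) (nat_lit 14) (.e (nat_lit 180244) (nat_lit 5) (.e (nat_lit 532499) (nat_lit 1) (.e (nat_lit 57688) (nat_lit 156) (.e (nat_lit 163843) (nat_lit 0) (.e (nat_lit 3248) (nat_lit 197) .nil)))))))) (.g (nat_lit 1) (.e (nat_lit 397549) (nat_lit 0) .nil) .nil))) 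
(.lf (nat_lit 590753) (.g (nat_lit 2342) (.e (nat_lit 532523) (nat_lit 7) (.e (nat_lit 319531) (nat_lit 16) (.e (nat_lit 286735) (nat_lit 3) (.e (nat_lit 98370) (nat_lit 28) (.e (nat_lit 450304) (nat_lit 20) .nil))))) (.g (nat_lit 0) (.e (nat_lit 398838) (nat_lit 0) .nil) .nil)))))) (.nd (nat_lit 7) (.nd (nat_lit 8) (.nd (nat_lit 9) 
(.lf (nat_lit 589921) (.g (nat_lit 1978) (.e (nat_lit 532504) (nat_lit 1) (.e (nat_lit 57851) (nat_lit 252) (.e (nat_lit 57446) (nat_lit 19) (.e (nat_lit 393229) (nat_lit 9) (.e (nat_lit 336088) (nat_lit 9) (.e (nat_lit 336261) (nat_lit 15) (.e (nat_lit 3252) (nat_lit 197) .nil))))))) (.g (nat_lit 1) (.e (nat_lit 397045) (nat_lit 0) .nil) .nil))) 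
(.lf (nat_lit 590433) (.g (nat_lit 2157) (.e (nat_lit 532514) (nat_lit 3) (.e (nat_lit 114719) (nat_lit 23) (.e (nat_lit 98333) (nat_lit 18) (.e (nat_lit 164399) (nat_lit 256) (.e (nat_lit 57371) (nat_lit 2) .nil))))) (.g (nat_lit 0) (.e (nat_lit 397940) (nat_lit 0) .nil) .nil)))) (.nd (nat_lit 9) 
(.lf (nat_lit 590177) (.g (nat_lit 2466) (.e (nat_lit 532513) (nat_lit 3) (.e (nat_lit 114714) (nat_lit 22) (.e (nat_lit 90167) (nat_lit 13) (.e (nat_lit 172067) (nat_lit 3) (.e (nat_lit 204830) (nat_lit 18) (.e (nat_lit 57663) (nat_lit 152) (.e (nat_lit 2612) (nat_lit 163) (.e (nat_lit 163964) (nat_lit 25) .nil)))))))) (.g (nat_lit 1) (.e (nat_lit 397458) (nat_lit 0) .nil) .nil))) 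
(.lf (nat_lit 590689) (.g (nat_lit 2663) (.e (nat_lit 532523) (nat_lit 7) (.e (nat_lit 319528) (nat_lit 16) (.e (nat_lit 286735) (nat_lit 3) (.e (nat_lit 98367) (nat_lit 27) (.e (nat_lit 442112) (nat_lit 11) (.e (nat_lit 163962) (nat_lit 25) .nil)))))) (.g (nat_lit 1) (.e (nat_lit 398765) (nat_lit 0) .nil) .nil))))) (.nd (nat_lit 8) (.nd (nat_lit 9) 
(.lf (nat_lit 590049) (.g (nat_lit 1790) (.e (nat_lit 532508) (nat_lit 2) (.e (nat_lit 106534) (nat_lit 11) (.e (nat_lit 16413) (nat_lit 2) (.e (nat_lit 196681) (nat_lit 17) (.e (nat_lit 131122) (nat_lit 12) (.e (nat_lit 385067) (nat_lit 26) .nil)))))) (.g (nat_lit 1) (.e (nat_lit 397211) (nat_lit 0) .nil) .nil))) 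
(.lf (nat_lit 590561) (.g (nat_lit 1337) (.e (nat_lit 532515) (nat_lit 3) (.e (nat_lit 114718) (nat_lit 23) (.e (nat_lit 98334) (nat_lit 18) (.e (nat_lit 164401) (nat_lit 256) .nil)))) (.g (nat_lit 0) (.e (nat_lit 398490) (nat_lit 0) .nil) .nil)))) (.nd (nat_lit 9) 
(.lf (nat_lit 590305) (.g (nat_lit 3116) (.e (nat_lit 532513) (nat_lit 3) (.e (nat_lit 114714) (nat_lit 22) (.e (nat_lit 90174) (nat_lit 14) (.e (nat_lit 180243) (nat_lit 5) (.e (nat_lit 532501) (nat_lit 1) (.e (nat_lit 57661) (nat_lit 152) (.e (nat_lit 2715) (nat_lit 171) (.e (nat_lit 229433) (nat_lit 25) .nil)))))))) (.g (nat_lit 1) (.e (nat_lit 397633) (nat_lit 0) .nil) .nil))) 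
(.lf (nat_lit 590817) (.g (nat_lit 3194) (.e (nat_lit 532523) (nat_lit 7) (.e (nat_lit 319533) (nat_lit 16) (.e (nat_lit 286735) (nat_lit 3) (.e (nat_lit 98370) (nat_lit 28) (.e (nat_lit 442407) (nat_lit 20) .nil))))) (.g (nat_lit 0) (.e (nat_lit 398916) (nat_lit 0) .nil) .nil)))))))) (.nd (nat_lit 5) (.nd (nat_lit 6) (.nd (nat_lit 7) (.nd (nat_lit 8) (.nd (nat_lit 9) 
(.lf (nat_lit 589841) (.g (nat_lit 4187) (.e (nat_lit 532504) (nat_lit 1) (.e (nat_lit 57692) (nat_lit 156) (.e (nat_lit 163874) (nat_lit 3) (.e (nat_lit 204837) (nat_lit 20) (.e (nat_lit 114718) (nat_lit 23) (.e (nat_lit 98367) (nat_lit 27) (.e (nat_lit 434232) (nat_lit 23) .nil))))))) (.g (nat_lit 1) (.e (nat_lit 396950) (nat_lit 0) .nil) .nil))) 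
(.lf (nat_lit 590353) (.g (nat_lit 2514) (.e (nat_lit 532513) (nat_lit 3) (.e (nat_lit 114718) (nat_lit 23) (.e (nat_lit 98356) (nat_lit 26) (.e (nat_lit 426438) (nat_lit 18) (.e (nat_lit 98334) (nat_lit 18) (.e (nat_lit 164305) (nat_lit 226) (.e (nat_lit 2612) (nat_lit 163) (.e (nat_lit 163963) (nat_lit 25) .nil)))))))) (.g (nat_lit 1) (.e (nat_lit 397698) (nat_lit 0) .nil) .nil)))) 
(.nd (nat_lit 9) 
(.lf (nat_lit 590097) (.g (nat_lit 1263) (.e (nat_lit 532510) (nat_lit 2) (.e (nat_lit 106536) (nat_lit 11) (.e (nat_lit 16413) (nat_lit 2) (.e (nat_lit 196674) (nat_lit 15) (.e (nat_lit 89856) (nat_lit 0) (.e (nat_lit 3244) (nat_lit 197) .nil)))))) (.g (nat_lit 1) (.e (nat_lit 397271) (nat_lit 0) .nil) .nil))) 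
(.lf (nat_lit 590609) (.g (nat_lit 3013) (.e (nat_lit 532515) (nat_lit 3) (.e (nat_lit 114719) (nat_lit 23) (.e (nat_lit 98365) (nat_lit 26) (.e (nat_lit 426133) (nat_lit 3) (.e (nat_lit 212736) (nat_lit 7) (.e (nat_lit 409617) (nat_lit 10) (.e (nat_lit 604) (nat_lit 45) .nil))))))) (.g (nat_lit 1) (.e (nat_lit 398599) (nat_lit 0) .nil) .nil))))) (.nd (nat_lit 8) (.nd (nat_lit 9) 
(.lf (nat_lit 589969) (.g (nat_lit 3313) (.e (nat_lit 532504) (nat_lit 1) (.e (nat_lit 57854) (nat_lit 252) (.e (nat_lit 57378) (nat_lit 3) (.e (nat_lit 98341) (nat_lit 20) (.e (nat_lit 221210) (nat_lit 22) (.e (nat_lit 196665) (nat_lit 13) (.e (nat_lit 65637) (nat_lit 15) (.e (nat_lit 3253) (nat_lit 197) .nil)))))))) (.g (nat_lit 1) (.e (nat_lit 397103) (nat_lit 0) .nil) .nil))) 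
(.lf (nat_lit 590481) (.g (nat_lit 1897) (.e (nat_lit 532515) (nat_lit 3) (.e (nat_lit 114698) (nat_lit 11) (.e (nat_lit 426124) (nat_lit 2) (.e (nat_lit 196672) (nat_lit 15) (.e (nat_lit 81922) (nat_lit 0) .nil))))) (.g (nat_lit 0) (.e (nat_lit 398049) (nat_lit 0) .nil) .nil)))) (.nd (nat_lit 9) 
(.lf (nat_lit 590225) (.g (nat_lit 3360) (.e (nat_lit 532513) (nat_lit 3) (.e (nat_lit 114714) (nat_lit 22) (.e (nat_lit 90172) (nat_lit 14) (.e (nat_lit 180243) (nat_lit 5) (.e (nat_lit 532504) (nat_lit 1) (.e (nat_lit 57664) (nat_lit 152) (.e (nat_lit 2715) (nat_lit 171) (.e (nat_lit 229433) (nat_lit 25) .nil)))))))) (.g (nat_lit 1) (.e (nat_lit 397528) (nat_lit 0) .nil) .nil))) 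
(.lf (nat_lit 590737) (.g (nat_lit 1328) (.e (nat_lit 532523) (nat_lit 7) (.e (nat_lit 319531) (nat_lit 16) (.e (nat_lit 286734) (nat_lit 3) (.e (nat_lit 106240) (nat_lit 29) .nil)))) (.g (nat_lit 0) (.e (nat_lit 398822) (nat_lit 0) .nil) .nil)))))) (.nd (nat_lit 7) (.nd (nat_lit 8) (.nd (nat_lit 9) 
(.lf (nat_lit 589905) (.g (nat_lit 3386) (.e (nat_lit 532504) (nat_lit 1) (.e (nat_lit 57851) (nat_lit 252) (.e (nat_lit 57406) (nat_lit 12) (.e (nat_lit 336456) (nat_lit 34) (.e (nat_lit 483383) (nat_lit 23) (.e (nat_lit 336260) (nat_lit 15) (.e (nat_lit 3252) (nat_lit 197) .nil))))))) (.g (nat_lit 1) (.e (nat_lit 397029) (nat_lit 0) .nil) .nil))) 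
(.lf (nat_lit 590417) (.g (nat_lit 2132) (.e (nat_lit 532514) (nat_lit 3) (.e (nat_lit 114718) (nat_lit 23) (.e (nat_lit 98333) (nat_lit 18) (.e (nat_lit 164399) (nat_lit 256) (.e (nat_lit 57370) (nat_lit 2) .nil))))) (.g (nat_lit 0) (.e (nat_lit 397923) (nat_lit 0) .nil) .nil)))) (.nd (nat_lit 9) 
(.lf (nat_lit 590161) (.g (nat_lit 372) (.e (nat_lit 532513) (nat_lit 3) (.e (nat_lit 114698) (nat_lit 11) (.e (nat_lit 426138) (nat_lit 3) .nil))) (.g (nat_lit 0) (.e (nat_lit 397395) (nat_lit 0) .nil) .nil))) 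
(.lf (nat_lit 590673) (.g (nat_lit 2314) (.e (nat_lit 532523) (nat_lit 7) (.e (nat_lit 319490) (nat_lit 0) (.e (nat_lit 5664) (nat_lit 312) (.e (nat_lit 2661) (nat_lit 167) (.e (nat_lit 196669) (nat_lit 14) .nil))))) (.g (nat_lit 0) (.e (nat_lit 398736) (nat_lit 0) .nil) .nil))))) (.nd (nat_lit 8) (.nd (nat_lit 9) 
(.lf (nat_lit 590033) (.g (nat_lit 672) (.e (nat_lit 532507) (nat_lit 2) (.e (nat_lit 106534) (nat_lit 11) (.e (nat_lit 16415) (nat_lit 3) .nil))) (.g (nat_lit 0) (.e (nat_lit 397182) (nat_lit 0) .nil) .nil))) 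
(.lf (nat_lit 590545) (.g (nat_lit 1244) (.e (nat_lit 532515) (nat_lit 3) (.e (nat_lit 114716) (nat_lit 22) (.e (nat_lit 90174) (nat_lit 14) (.e (nat_lit 180243) (nat_lit 5) (.e (nat_lit 532575) (nat_lit 17) .nil))))) (.g (nat_lit 0) (.e (nat_lit 398431) (nat_lit 0) .nil) .nil)))) (.nd (nat_lit 9) 
(.lf (nat_lit 590289) (.g (nat_lit 2212) (.e (nat_lit 532513) (nat_lit 3) (.e (nat_lit 114714) (nat_lit 22) (.e (nat_lit 90173) (nat_lit 14) (.e (nat_lit 180251) (nat_lit 10) (.e (nat_lit 573475) (nat_lit 12) (.e (nat_lit 57503) (nat_lit 38) (.e (nat_lit 639002) (nat_lit 11) (.e (nat_lit 229433) (nat_lit 25) .nil)))))))) (.g (nat_lit 1) (.e (nat_lit 397613) (nat_lit 0) .nil) .nil))) 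
(.lf (nat_lit 590801) (.g (nat_lit 3471) (.e (nat_lit 532523) (nat_lit 7) (.e (nat_lit 319533) (nat_lit 16) (.e (nat_lit 286735) (nat_lit 3) (.e (nat_lit 98359) (nat_lit 26) (.e (nat_lit 426275) (nat_lit 10) .nil))))) (.g (nat_lit 0) (.e (nat_lit 398900) (nat_lit 0) .nil) .nil))))))) (.nd (nat_lit 6) (.nd (nat_lit 7) (.nd (nat_lit 8) (.nd (nat_lit 9) 
(.lf (nat_lit 589873) (.g (nat_lit 2816) (.e (nat_lit 532504) (nat_lit 1) (.e (nat_lit 57851) (nat_lit 252) (.e (nat_lit 57406) (nat_lit 12) (.e (nat_lit 336454) (nat_lit 34) (.e (nat_lit 483383) (nat_lit 23) (.e (nat_lit 336240) (nat_lit 15) (.e (nat_lit 3248) (nat_lit 197) .nil))))))) (.g (nat_lit 1) (.e (nat_lit 396997) (nat_lit 0) .nil) .nil))) 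
(.lf (nat_lit 590385) (.g (nat_lit 4121) (.e (nat_lit 532513) (nat_lit 3) (.e (nat_lit 114719) (nat_lit 23) (.e (nat_lit 98384) (nat_lit 32) (.e (nat_lit 475179) (nat_lit 24) (.e (nat_lit 516120) (nat_lit 1) (.e (nat_lit 164304) (nat_lit 226) (.e (nat_lit 2612) (nat_lit 163) (.e (nat_lit 163964) (nat_lit 25) .nil)))))))) (.g (nat_lit 1) (.e (nat_lit 397775) (nat_lit 0) .nil) .nil)))) 
(.nd (nat_lit 9) 
(.lf (nat_lit 590129) (.g (nat_lit 1109) (.e (nat_lit 532511) (nat_lit 2) (.e (nat_lit 106536) (nat_lit 11) (.e (nat_lit 16413) (nat_lit 2) (.e (nat_lit 196672) (nat_lit 15) (.e (nat_lit 89856) (nat_lit 0) (.e (nat_lit 3244) (nat_lit 197) .nil)))))) (.g (nat_lit 1) (.e (nat_lit 397309) (nat_lit 0) .nil) .nil))) 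
(.lf (nat_lit 590641) (.g (nat_lit 1385) (.e (nat_lit 532522) (nat_lit 7) (.e (nat_lit 319530) (nat_lit 16) (.e (nat_lit 286733) (nat_lit 2) (.e (nat_lit 90134) (nat_lit 9) .nil)))) (.g (nat_lit 0) (.e (nat_lit 398696) (nat_lit 0) .nil) .nil))))) (.nd (nat_lit 8) (.nd (nat_lit 9) 
(.lf (nat_lit 590001) (.g (nat_lit 3202) (.e (nat_lit 532504) (nat_lit 1) (.e (nat_lit 57931) (nat_lit 282) (.e (nat_lit 163869) (nat_lit 2) (.e (nat_lit 196668) (nat_lit 14) (.e (nat_lit 73746) (nat_lit 3) .nil))))) (.g (nat_lit 0) (.e (nat_lit 397141) (nat_lit 0) .nil) .nil))) 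
(.lf (nat_lit 590513) (.g (nat_lit 2579) (.e (nat_lit 532515) (nat_lit 3) (.e (nat_lit 114716) (nat_lit 22) (.e (nat_lit 90172) (nat_lit 14) (.e (nat_lit 180243) (nat_lit 5) (.e (nat_lit 532503) (nat_lit 1) (.e (nat_lit 57685) (nat_lit 156) (.e (nat_lit 163843) (nat_lit 0) (.e (nat_lit 3248) (nat_lit 197) .nil)))))))) (.g (nat_lit 1) (.e (nat_lit 398208) (nat_lit 0) .nil) .nil)))) 
(.nd (nat_lit 9) 
(.lf (nat_lit 590257) (.g (nat_lit 2394) (.e (nat_lit 532513) (nat_lit 3) (.e (nat_lit 114714) (nat_lit 22) (.e (nat_lit 90172) (nat_lit 14) (.e (nat_lit 180244) (nat_lit 5) (.e (nat_lit 532503) (nat_lit 1) (.e (nat_lit 57651) (nat_lit 152) (.e (nat_lit 2719) (nat_lit 171) (.e (nat_lit 229433) (nat_lit 25) .nil)))))))) (.g (nat_lit 1) (.e (nat_lit 397574) (nat_lit 0) .nil) .nil))) 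
(.lf (nat_lit 590769) (.g (nat_lit 640) (.e (nat_lit 532523) (nat_lit 7) (.e (nat_lit 319533) (nat_lit 16) (.e (nat_lit 286723) (nat_lit 0) .nil))) (.g (nat_lit 0) (.e (nat_lit 398855) (nat_lit 0) .nil) .nil)))))) (.nd (nat_lit 7) (.nd (nat_lit 8) (.nd (nat_lit 9) 
(.lf (nat_lit 589937) (.g (nat_lit 2191) (.e (nat_lit 532504) (nat_lit 1) (.e (nat_lit 57852) (nat_lit 252) (.e (nat_lit 57377) (nat_lit 3) (.e (nat_lit 98342) (nat_lit 20) (.e (nat_lit 221214) (nat_lit 23) .nil))))) (.g (nat_lit 0) (.e (nat_lit 397061) (nat_lit 0) .nil) .nil))) 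
(.lf (nat_lit 590449) (.g (nat_lit 594) (.e (nat_lit 532514) (nat_lit 3) (.e (nat_lit 114719) (nat_lit 23) (.e (nat_lit 98365) (nat_lit 26) .nil))) (.g (nat_lit 0) (.e (nat_lit 397956) (nat_lit 0) .nil) .nil)))) (.nd (nat_lit 9) 
(.lf (nat_lit 590193) (.g (nat_lit 2380) (.e (nat_lit 532513) (nat_lit 3) (.e (nat_lit 114714) (nat_lit 22) (.e (nat_lit 90170) (nat_lit 13) (.e (nat_lit 172067) (nat_lit 3) (.e (nat_lit 204829) (nat_lit 18) .nil))))) (.g (nat_lit 0) (.e (nat_lit 397484) (nat_lit 0) .nil) .nil))) 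
(.lf (nat_lit 590705) (.g (nat_lit 2190) (.e (nat_lit 532523) (nat_lit 7) (.e (nat_lit 319529) (nat_lit 16) (.e (nat_lit 286735) (nat_lit 3) (.e (nat_lit 98380) (nat_lit 31) (.e (nat_lit 466965) (nat_lit 20) .nil))))) (.g (nat_lit 0) (.e (nat_lit 398784) (nat_lit 0) .nil) .nil))))) (.nd (nat_lit 8) (.nd (nat_lit 9) 
(.lf (nat_lit 590065) (.g (nat_lit 635) (.e (nat_lit 532509) (nat_lit 2) (.e (nat_lit 106536) (nat_lit 11) (.e (nat_lit 16413) (nat_lit 2) .nil))) (.g (nat_lit 0) (.e (nat_lit 397235) (nat_lit 0) .nil) .nil))) 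
(.lf (nat_lit 590577) (.g (nat_lit 3280) (.e (nat_lit 532515) (nat_lit 3) (.e (nat_lit 114719) (nat_lit 23) (.e (nat_lit 98350) (nat_lit 24) (.e (nat_lit 409616) (nat_lit 10) (.e (nat_lit 632) (nat_lit 50) .nil))))) (.g (nat_lit 0) (.e (nat_lit 398534) (nat_lit 0) .nil) .nil)))) (.nd (nat_lit 9) 
(.lf (nat_lit 590321) (.g (nat_lit 3481) (.e (nat_lit 532513) (nat_lit 3) (.e (nat_lit 114714) (nat_lit 22) (.e (nat_lit 90174) (nat_lit 14) (.e (nat_lit 180243) (nat_lit 5) (.e (nat_lit 532503) (nat_lit 1) (.e (nat_lit 57659) (nat_lit 152) (.e (nat_lit 2612) (nat_lit 163) (.e (nat_lit 163964) (nat_lit 25) .nil)))))))) (.g (nat_lit 1) (.e (nat_lit 397653) (nat_lit 0) .nil) .nil))) 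
(.lf (nat_lit 590833) (.g (nat_lit 2176) (.e (nat_lit 532523) (nat_lit 7) (.e (nat_lit 319534) (nat_lit 16) (.e (nat_lit 286732) (nat_lit 2) (.e (nat_lit 90176) (nat_lit 15) (.e (nat_lit 196352) (nat_lit 20) .nil))))) (.g (nat_lit 0) (.e (nat_lit 398936) (nat_lit 0) .nil) .nil))))))))) (.nd (nat_lit 4) (.nd (nat_lit 5) (.nd (nat_lit 6) (.nd (nat_lit 7) (.nd (nat_lit 8) (.nd (nat_lit 9) 
(.lf (nat_lit 589833) (.g (nat_lit 3164) (.e (nat_lit 532504) (nat_lit 1) (.e (nat_lit 57691) (nat_lit 156) (.e (nat_lit 163875) (nat_lit 3) (.e (nat_lit 204837) (nat_lit 20) (.e (nat_lit 114719) (nat_lit 23) (.e (nat_lit 98366) (nat_lit 27) (.e (nat_lit 434232) (nat_lit 23) .nil))))))) (.g (nat_lit 1) (.e (nat_lit 396938) (nat_lit 0) .nil) .nil))) 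
(.lf (nat_lit 590345) (.g (nat_lit 2193) (.e (nat_lit 532513) (nat_lit 3) (.e (nat_lit 114718) (nat_lit 23) (.e (nat_lit 98333) (nat_lit 18) (.e (nat_lit 164403) (nat_lit 256) (.e (nat_lit 57371) (nat_lit 2) .nil))))) (.g (nat_lit 0) (.e (nat_lit 397686) (nat_lit 0) .nil) .nil)))) (.nd (nat_lit 9) 
(.lf (nat_lit 590089) (.g (nat_lit 1271) (.e (nat_lit 532510) (nat_lit 2) (.e (nat_lit 106536) (nat_lit 11) (.e (nat_lit 16413) (nat_lit 2) (.e (nat_lit 196672) (nat_lit 15) (.e (nat_lit 81924) (nat_lit 0) (.e (nat_lit 3234) (nat_lit 197) .nil)))))) (.g (nat_lit 1) (.e (nat_lit 397263) (nat_lit 0) .nil) .nil))) 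
(.lf (nat_lit 590601) (.g (nat_lit 1758) (.e (nat_lit 532515) (nat_lit 3) (.e (nat_lit 114719) (nat_lit 23) (.e (nat_lit 98365) (nat_lit 26) (.e (nat_lit 426132) (nat_lit 3) .nil)))) (.g (nat_lit 0) (.e (nat_lit 398591) (nat_lit 0) .nil) .nil))))) (.nd (nat_lit 8) (.nd (nat_lit 9) 
(.lf (nat_lit 589961) (.g (nat_lit 483) (.e (nat_lit 532504) (nat_lit 1) (.e (nat_lit 57852) (nat_lit 252) (.e (nat_lit 65280) (nat_lit 12) .nil))) (.g (nat_lit 0) (.e (nat_lit 397090) (nat_lit 0) .nil) .nil))) 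
(.lf (nat_lit 590473) (.g (nat_lit 1648) (.e (nat_lit 532515) (nat_lit 3) (.e (nat_lit 114698) (nat_lit 11) (.e (nat_lit 426122) (nat_lit 2) (.e (nat_lit 196681) (nat_lit 17) (.e (nat_lit 131122) (nat_lit 12) .nil))))) (.g (nat_lit 0) (.e (nat_lit 398037) (nat_lit 0) .nil) .nil)))) (.nd (nat_lit 9) 
(.lf (nat_lit 590217) (.g (nat_lit 2702) (.e (nat_lit 532513) (nat_lit 3) (.e (nat_lit 114714) (nat_lit 22) (.e (nat_lit 90172) (nat_lit 14) (.e (nat_lit 180243) (nat_lit 5) (.e (nat_lit 532503) (nat_lit 1) (.e (nat_lit 57688) (nat_lit 156) (.e (nat_lit 163844) (nat_lit 0) (.e (nat_lit 3248) (nat_lit 197) .nil)))))))) (.g (nat_lit 1) (.e (nat_lit 397517) (nat_lit 0) .nil) .nil))) 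
(.lf (nat_lit 590729) (.g (nat_lit 2428) (.e (nat_lit 532523) (nat_lit 7) (.e (nat_lit 319531) (nat_lit 16) (.e (nat_lit 286733) (nat_lit 2) (.e (nat_lit 90134) (nat_lit 9) (.e (nat_lit 2868) (nat_lit 184) .nil))))) (.g (nat_lit 0) (.e (nat_lit 398811) (nat_lit 0) .nil) .nil)))))) (.nd (nat_lit 7) (.nd (nat_lit 8) (.nd (nat_lit 9) 
(.lf (nat_lit 589897) (.g (nat_lit 3166) (.e (nat_lit 532504) (nat_lit 1) (.e (nat_lit 57851) (nat_lit 252) (.e (nat_lit 57406) (nat_lit 12) (.e (nat_lit 336456) (nat_lit 34) (.e (nat_lit 483383) (nat_lit 23) (.e (nat_lit 336258) (nat_lit 15) (.e (nat_lit 3236) (nat_lit 197) .nil))))))) (.g (nat_lit 1) (.e (nat_lit 397021) (nat_lit 0) .nil) .nil))) 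
(.lf (nat_lit 590409) (.g (nat_lit 882) (.e (nat_lit 532514) (nat_lit 3) (.e (nat_lit 114716) (nat_lit 22) (.e (nat_lit 90172) (nat_lit 14) (.e (nat_lit 188160) (nat_lit 3) .nil)))) (.g (nat_lit 0) (.e (nat_lit 397901) (nat_lit 0) .nil) .nil)))) (.nd (nat_lit 9) 
(.lf (nat_lit 590153) (.g (nat_lit 1688) (.e (nat_lit 532513) (nat_lit 3) (.e (nat_lit 114698) (nat_lit 11) (.e (nat_lit 426123) (nat_lit 2) (.e (nat_lit 196661) (nat_lit 12) .nil)))) (.g (nat_lit 0) (.e (nat_lit 397367) (nat_lit 0) .nil) .nil))) 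
(.lf (nat_lit 590665) (.g (nat_lit 1102) (.e (nat_lit 532522) (nat_lit 7) (.e (nat_lit 319534) (nat_lit 16) (.e (nat_lit 286720) (nat_lit 0) .nil))) (.g (nat_lit 0) (.e (nat_lit 398724) (nat_lit 0) .nil) .nil))))) (.nd (nat_lit 8) (.nd (nat_lit 9) 
(.lf (nat_lit 590025) (.g (nat_lit 578) (.e (nat_lit 532506) (nat_lit 2) (.e (nat_lit 106534) (nat_lit 11) (.e (nat_lit 16417) (nat_lit 3) .nil))) (.g (nat_lit 0) (.e (nat_lit 397168) (nat_lit 0) .nil) .nil))) 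
(.lf (nat_lit 590537) (.g (nat_lit 2927) (.e (nat_lit 532515) (nat_lit 3) (.e (nat_lit 114716) (nat_lit 22) (.e (nat_lit 90174) (nat_lit 14) (.e (nat_lit 180243) (nat_lit 5) (.e (nat_lit 532501) (nat_lit 1) (.e (nat_lit 57685) (nat_lit 156) (.e (nat_lit 163844) (nat_lit 0) (.e (nat_lit 3248) (nat_lit 197) .nil)))))))) (.g (nat_lit 1) (.e (nat_lit 398375) (nat_lit 0) .nil) .nil)))) 
(.nd (nat_lit 9) 
(.lf (nat_lit 590281) (.g (nat_lit 2211) (.e (nat_lit 532513) (nat_lit 3) (.e (nat_lit 114714) (nat_lit 22) (.e (nat_lit 90172) (nat_lit 14) (.e (nat_lit 180244) (nat_lit 5) (.e (nat_lit 532575) (nat_lit 17) (.e (nat_lit 7106) (nat_lit 380) (.e (nat_lit 171776) (nat_lit 86) .nil))))))) (.g (nat_lit 1) (.e (nat_lit 397604) (nat_lit 0) .nil) .nil))) 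
(.lf (nat_lit 590793) (.g (nat_lit 1688) (.e (nat_lit 532523) (nat_lit 7) (.e (nat_lit 319533) (nat_lit 16) (.e (nat_lit 286734) (nat_lit 3) (.e (nat_lit 98365) (nat_lit 26) (.e (nat_lit 426298) (nat_lit 11) .nil))))) (.g (nat_lit 0) (.e (nat_lit 398892) (nat_lit 0) .nil) .nil))))))) (.nd (nat_lit 6) (.nd (nat_lit 7) (.nd (nat_lit 8) (.nd (nat_lit 9) 
(.lf (nat_lit 589865) (.g (nat_lit 3356) (.e (nat_lit 532504) (nat_lit 1) (.e (nat_lit 57851) (nat_lit 252) (.e (nat_lit 57406) (nat_lit 12) (.e (nat_lit 336367) (nat_lit 27) (.e (nat_lit 426542) (nat_lit 29) (.e (nat_lit 352267) (nat_lit 0) (.e (nat_lit 3234) (nat_lit 197) .nil))))))) (.g (nat_lit 1) (.e (nat_lit 396989) (nat_lit 0) .nil) .nil))) 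
(.lf (nat_lit 590377) (.g (nat_lit 3801) (.e (nat_lit 532513) (nat_lit 3) (.e (nat_lit 114719) (nat_lit 23) (.e (nat_lit 98356) (nat_lit 26) (.e (nat_lit 426438) (nat_lit 18) (.e (nat_lit 98335) (nat_lit 18) (.e (nat_lit 164305) (nat_lit 226) (.e (nat_lit 2612) (nat_lit 163) (.e (nat_lit 163964) (nat_lit 25) .nil)))))))) (.g (nat_lit 1) (.e (nat_lit 397743) (nat_lit 0) .nil) .nil)))) 
(.nd (nat_lit 9) 
(.lf (nat_lit 590121) (.g (nat_lit 1053) (.e (nat_lit 532511) (nat_lit 2) (.e (nat_lit 106535) (nat_lit 11) (.e (nat_lit 16410) (nat_lit 2) (.e (nat_lit 196681) (nat_lit 17) (.e (nat_lit 131120) (nat_lit 12) .nil))))) (.g (nat_lit 0) (.e (nat_lit 397299) (nat_lit 0) .nil) .nil))) 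
(.lf (nat_lit 590633) (.g (nat_lit 4504) (.e (nat_lit 532515) (nat_lit 3) (.e (nat_lit 114719) (nat_lit 23) (.e (nat_lit 98386) (nat_lit 32) (.e (nat_lit 475179) (nat_lit 24) (.e (nat_lit 516120) (nat_lit 1) (.e (nat_lit 164329) (nat_lit 230) (.e (nat_lit 163850) (nat_lit 0) (.e (nat_lit 3252) (nat_lit 197) .nil)))))))) (.g (nat_lit 1) (.e (nat_lit 398673) (nat_lit 0) .nil) .nil))))) 
(.nd (nat_lit 8) (.nd (nat_lit 9) 
(.lf (nat_lit 589993) (.g (nat_lit 3261) (.e (nat_lit 532504) (nat_lit 1) (.e (nat_lit 57929) (nat_lit 282) (.e (nat_lit 163869) (nat_lit 2) (.e (nat_lit 196670) (nat_lit 14) (.e (nat_lit 73746) (nat_lit 3) (.e (nat_lit 516127) (nat_lit 2) (.e (nat_lit 213038) (nat_lit 13) (.e (nat_lit 229434) (nat_lit 25) .nil)))))))) (.g (nat_lit 1) (.e (nat_lit 397130) (nat_lit 0) .nil) .nil))) 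
(.lf (nat_lit 590505) (.g (nat_lit 1023) (.e (nat_lit 532515) (nat_lit 3) (.e (nat_lit 114716) (nat_lit 22) (.e (nat_lit 90169) (nat_lit 13) (.e (nat_lit 172133) (nat_lit 15) (.e (nat_lit 1800) (nat_lit 119) .nil))))) (.g (nat_lit 0) (.e (nat_lit 398170) (nat_lit 0) .nil) .nil)))) (.nd (nat_lit 9) 
(.lf (nat_lit 590249) (.g (nat_lit 3667) (.e (nat_lit 532513) (nat_lit 3) (.e (nat_lit 114714) (nat_lit 22) (.e (nat_lit 90172) (nat_lit 14) (.e (nat_lit 180244) (nat_lit 5) (.e (nat_lit 532501) (nat_lit 1) (.e (nat_lit 57663) (nat_lit 152) (.e (nat_lit 2715) (nat_lit 171) (.e (nat_lit 229433) (nat_lit 25) .nil)))))))) (.g (nat_lit 1) (.e (nat_lit 397561) (nat_lit 0) .nil) .nil))) 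
(.lf (nat_lit 590761) (.g (nat_lit 1913) (.e (nat_lit 532523) (nat_lit 7) (.e (nat_lit 319532) (nat_lit 16) (.e (nat_lit 286733) (nat_lit 2) (.e (nat_lit 90177) (nat_lit 15) (.e (nat_lit 188435) (nat_lit 20) .nil))))) (.g (nat_lit 0) (.e (nat_lit 398847) (nat_lit 0) .nil) .nil)))))) (.nd (nat_lit 7) (.nd (nat_lit 8) (.nd (nat_lit 9) 
(.lf (nat_lit 589929) (.g (nat_lit 4619) (.e (nat_lit 532504) (nat_lit 1) (.e (nat_lit 57852) (nat_lit 252) (.e (nat_lit 57355) (nat_lit 0) (.e (nat_lit 1858) (nat_lit 124) (.e (nat_lit 557105) (nat_lit 14) (.e (nat_lit 180252) (nat_lit 10) (.e (nat_lit 573480) (nat_lit 13) (.e (nat_lit 65637) (nat_lit 15) (.e (nat_lit 3253) (nat_lit 197) .nil))))))))) (.g (nat_lit 1) (.e (nat_lit 397053) (nat_lit 0) .nil) .nil))) 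
(.lf (nat_lit 590441) (.g (nat_lit 1803) (.e (nat_lit 532514) (nat_lit 3) (.e (nat_lit 114719) (nat_lit 23) (.e (nat_lit 98354) (nat_lit 26) (.e (nat_lit 426125) (nat_lit 2) (.e (nat_lit 204544) (nat_lit 2) .nil))))) (.g (nat_lit 0) (.e (nat_lit 397948) (nat_lit 0) .nil) .nil)))) (.nd (nat_lit 9) 
(.lf (nat_lit 590185) (.g (nat_lit 1402) (.e (nat_lit 532513) (nat_lit 3) (.e (nat_lit 114714) (nat_lit 22) (.e (nat_lit 90170) (nat_lit 13) (.e (nat_lit 172065) (nat_lit 3) .nil)))) (.g (nat_lit 0) (.e (nat_lit 397474) (nat_lit 0) .nil) .nil))) 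
(.lf (nat_lit 590697) (.g (nat_lit 3495) (.e (nat_lit 532523) (nat_lit 7) (.e (nat_lit 319529) (nat_lit 16) (.e (nat_lit 286733) (nat_lit 2) (.e (nat_lit 90178) (nat_lit 15) (.e (nat_lit 188436) (nat_lit 20) (.e (nat_lit 3238) (nat_lit 197) .nil)))))) (.g (nat_lit 1) (.e (nat_lit 398776) (nat_lit 0) .nil) .nil))))) (.nd (nat_lit 8) (.nd (nat_lit 9) 
(.lf (nat_lit 590057) (.g (nat_lit 1337) (.e (nat_lit 532508) (nat_lit 2) (.e (nat_lit 106536) (nat_lit 11) (.e (nat_lit 16413) (nat_lit 2) (.e (nat_lit 196661) (nat_lit 12) .nil)))) (.g (nat_lit 0) (.e (nat_lit 397222) (nat_lit 0) .nil) .nil))) 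
(.lf (nat_lit 590569) (.g (nat_lit 2403) (.e (nat_lit 532515) (nat_lit 3) (.e (nat_lit 114718) (nat_lit 23) (.e (nat_lit 98384) (nat_lit 32) (.e (nat_lit 475179) (nat_lit 24) (.e (nat_lit 516120) (nat_lit 1) .nil))))) (.g (nat_lit 0) (.e (nat_lit 398507) (nat_lit 0) .nil) .nil)))) (.nd (nat_lit 9) 
(.lf (nat_lit 590313) (.g (nat_lit 2692) (.e (nat_lit 532513) (nat_lit 3) (.e (nat_lit 114714) (nat_lit 22) (.e (nat_lit 90174) (nat_lit 14) (.e (nat_lit 180243) (nat_lit 5) (.e (nat_lit 532501) (nat_lit 1) (.e (nat_lit 57663) (nat_lit 152) (.e (nat_lit 2717) (nat_lit 171) (.e (nat_lit 229434) (nat_lit 25) .nil)))))))) (.g (nat_lit 1) (.e (nat_lit 397642) (nat_lit 0) .nil) .nil))) 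
(.lf (nat_lit 590825) (.g (nat_lit 3084) (.e (nat_lit 532523) (nat_lit 7) (.e (nat_lit 319533) (nat_lit 16) (.e (nat_lit 286735) (nat_lit 3) (.e (nat_lit 98381) (nat_lit 31) (.e (nat_lit 466967) (nat_lit 20) (.e (nat_lit 3253) (nat_lit 197) .nil)))))) (.g (nat_lit 1) (.e (nat_lit 398924) (nat_lit 0) .nil) .nil)))))))) 
(.nd (nat_lit 5) (.nd (nat_lit 6) (.nd (nat_lit 7) (.nd (nat_lit 8) (.nd (nat_lit 9) 
(.lf (nat_lit 589849) (.g (nat_lit 353) (.e (nat_lit 532504) (nat_lit 1) (.e (nat_lit 57692) (nat_lit 156) (.e (nat_lit 163905) (nat_lit 12) .nil))) (.g (nat_lit 0) (.e (nat_lit 396958) (nat_lit 0) .nil) .nil))) 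
(.lf (nat_lit 590361) (.g (nat_lit 2055) (.e (nat_lit 532513) (nat_lit 3) (.e (nat_lit 114719) (nat_lit 23) (.e (nat_lit 98333) (nat_lit 18) (.e (nat_lit 164403) (nat_lit 256) (.e (nat_lit 57371) (nat_lit 2) .nil))))) (.g (nat_lit 0) (.e (nat_lit 397721) (nat_lit 0) .nil) .nil)))) (.nd (nat_lit 9) 
(.lf (nat_lit 590105) (.g (nat_lit 963) (.e (nat_lit 532511) (nat_lit 2) (.e (nat_lit 106534) (nat_lit 11) (.e (nat_lit 16412) (nat_lit 2) (.e (nat_lit 196672) (nat_lit 15) .nil)))) (.g (nat_lit 0) (.e (nat_lit 397283) (nat_lit 0) .nil) .nil))) 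
(.lf (nat_lit 590617) (.g (nat_lit 1502) (.e (nat_lit 532515) (nat_lit 3) (.e (nat_lit 114719) (nat_lit 23) (.e (nat_lit 98366) (nat_lit 27) (.e (nat_lit 434231) (nat_lit 23) (.e (nat_lit 532575) (nat_lit 17) .nil))))) (.g (nat_lit 0) (.e (nat_lit 398615) (nat_lit 0) .nil) .nil))))) (.nd (nat_lit 8) (.nd (nat_lit 9) 
(.lf (nat_lit 589977) (.g (nat_lit 2053) (.e (nat_lit 532504) (nat_lit 1) (.e (nat_lit 57854) (nat_lit 252) (.e (nat_lit 57406) (nat_lit 12) (.e (nat_lit 336456) (nat_lit 34) (.e (nat_lit 483346) (nat_lit 17) .nil))))) (.g (nat_lit 0) (.e (nat_lit 397112) (nat_lit 0) .nil) .nil))) 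
(.lf (nat_lit 590489) (.g (nat_lit 2041) (.e (nat_lit 532515) (nat_lit 3) (.e (nat_lit 114698) (nat_lit 11) (.e (nat_lit 426139) (nat_lit 3) (.e (nat_lit 204855) (nat_lit 26) .nil)))) (.g (nat_lit 0) (.e (nat_lit 398068) (nat_lit 0) .nil) .nil)))) (.nd (nat_lit 9) 
(.lf (nat_lit 590233) (.g (nat_lit 3110) (.e (nat_lit 532513) (nat_lit 3) (.e (nat_lit 114714) (nat_lit 22) (.e (nat_lit 90172) (nat_lit 14) (.e (nat_lit 180244) (nat_lit 5) (.e (nat_lit 532499) (nat_lit 1) (.e (nat_lit 57657) (nat_lit 152) (.e (nat_lit 2719) (nat_lit 171) (.e (nat_lit 229433) (nat_lit 25) .nil)))))))) (.g (nat_lit 1) (.e (nat_lit 397539) (nat_lit 0) .nil) .nil))) 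
(.lf (nat_lit 590745) (.g (nat_lit 3064) (.e (nat_lit 532523) (nat_lit 7) (.e (nat_lit 319531) (nat_lit 16) (.e (nat_lit 286735) (nat_lit 3) (.e (nat_lit 98358) (nat_lit 26) (.e (nat_lit 426272) (nat_lit 10) .nil))))) (.g (nat_lit 0) (.e (nat_lit 398830) (nat_lit 0) .nil) .nil)))))) (.nd (nat_lit 7) (.nd (nat_lit 8) (.nd (nat_lit 9) 
(.lf (nat_lit 589913) (.g (nat_lit 2345) (.e (nat_lit 532504) (nat_lit 1) (.e (nat_lit 57851) (nat_lit 252) (.e (nat_lit 57406) (nat_lit 12) (.e (nat_lit 336456) (nat_lit 34) (.e (nat_lit 483391) (nat_lit 23) (.e (nat_lit 336272) (nat_lit 15) (.e (nat_lit 3230) (nat_lit 197) .nil))))))) (.g (nat_lit 1) (.e (nat_lit 397037) (nat_lit 0) .nil) .nil))) 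
(.lf (nat_lit 590425) (.g (nat_lit 3597) (.e (nat_lit 532514) (nat_lit 3) (.e (nat_lit 114718) (nat_lit 23) (.e (nat_lit 98356) (nat_lit 26) (.e (nat_lit 426436) (nat_lit 18) (.e (nat_lit 98335) (nat_lit 18) (.e (nat_lit 164305) (nat_lit 226) (.e (nat_lit 2604) (nat_lit 163) (.e (nat_lit 163962) (nat_lit 25) .nil)))))))) (.g (nat_lit 1) (.e (nat_lit 397931) (nat_lit 0) .nil) .nil)))) 
(.nd (nat_lit 9) 
(.lf (nat_lit 590169) (.g (nat_lit 2932) (.e (nat_lit 532513) (nat_lit 3) (.e (nat_lit 114698) (nat_lit 11) (.e (nat_lit 426139) (nat_lit 3) (.e (nat_lit 204865) (nat_lit 28) (.e (nat_lit 352262) (nat_lit 0) (.e (nat_lit 3253) (nat_lit 197) .nil)))))) (.g (nat_lit 1) (.e (nat_lit 397411) (nat_lit 0) .nil) .nil))) 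
(.lf (nat_lit 590681) (.g (nat_lit 411) (.e (nat_lit 532523) (nat_lit 7) (.e (nat_lit 319538) (nat_lit 19) (.e (nat_lit 311315) (nat_lit 3) .nil))) (.g (nat_lit 0) (.e (nat_lit 398752) (nat_lit 0) .nil) .nil))))) (.nd (nat_lit 8) (.nd (nat_lit 9) 
(.lf (nat_lit 590041) (.g (nat_lit 2309) (.e (nat_lit 532507) (nat_lit 2) (.e (nat_lit 106536) (nat_lit 11) (.e (nat_lit 16416) (nat_lit 3) (.e (nat_lit 204877) (nat_lit 31) .nil)))) (.g (nat_lit 0) (.e (nat_lit 397195) (nat_lit 0) .nil) .nil))) 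
(.lf (nat_lit 590553) (.g (nat_lit 1761) (.e (nat_lit 532515) (nat_lit 3) (.e (nat_lit 114716) (nat_lit 22) (.e (nat_lit 90185) (nat_lit 17) (.e (nat_lit 237594) (nat_lit 3) (.e (nat_lit 204805) (nat_lit 0) (.e (nat_lit 7106) (nat_lit 380) (.e (nat_lit 171776) (nat_lit 86) .nil))))))) (.g (nat_lit 1) (.e (nat_lit 398467) (nat_lit 0) .nil) .nil)))) (.nd (nat_lit 9) 
(.lf (nat_lit 590297) (.g (nat_lit 3701) (.e (nat_lit 532513) (nat_lit 3) (.e (nat_lit 114714) (nat_lit 22) (.e (nat_lit 90174) (nat_lit 14) (.e (nat_lit 180243) (nat_lit 5) (.e (nat_lit 532499) (nat_lit 1) (.e (nat_lit 57659) (nat_lit 152) (.e (nat_lit 2612) (nat_lit 163) (.e (nat_lit 163964) (nat_lit 25) .nil)))))))) (.g (nat_lit 1) (.e (nat_lit 397624) (nat_lit 0) .nil) .nil))) 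
(.lf (nat_lit 590809) (.g (nat_lit 1899) (.e (nat_lit 532523) (nat_lit 7) (.e (nat_lit 319533) (nat_lit 16) (.e (nat_lit 286735) (nat_lit 3) (.e (nat_lit 106240) (nat_lit 26) .nil)))) (.g (nat_lit 0) (.e (nat_lit 398908) (nat_lit 0) .nil) .nil))))))) (.nd (nat_lit 6) (.nd (nat_lit 7) (.nd (nat_lit 8) (.nd (nat_lit 9) 
(.lf (nat_lit 589881) (.g (nat_lit 2720) (.e (nat_lit 532504) (nat_lit 1) (.e (nat_lit 57851) (nat_lit 252) (.e (nat_lit 57406) (nat_lit 12) (.e (nat_lit 336456) (nat_lit 34) (.e (nat_lit 483379) (nat_lit 23) (.e (nat_lit 336238) (nat_lit 15) (.e (nat_lit 3250) (nat_lit 197) .nil))))))) (.g (nat_lit 1) (.e (nat_lit 397005) (nat_lit 0) .nil) .nil))) 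
(.lf (nat_lit 590393) (.g (nat_lit 627) (.e (nat_lit 532514) (nat_lit 3) (.e (nat_lit 114698) (nat_lit 11) (.e (nat_lit 426138) (nat_lit 3) .nil))) (.g (nat_lit 0) (.e (nat_lit 397847) (nat_lit 0) .nil) .nil)))) (.nd (nat_lit 9) 
(.lf (nat_lit 590137) (.g (nat_lit 1508) (.e (nat_lit 532511) (nat_lit 2) (.e (nat_lit 106536) (nat_lit 11) (.e (nat_lit 16416) (nat_lit 3) (.e (nat_lit 204866) (nat_lit 28) (.e (nat_lit 352261) (nat_lit 0) .nil))))) (.g (nat_lit 0) (.e (nat_lit 397317) (nat_lit 0) .nil) .nil))) 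
(.lf (nat_lit 590649) (.g (nat_lit 1832) (.e (nat_lit 532522) (nat_lit 7) (.e (nat_lit 319530) (nat_lit 16) (.e (nat_lit 286734) (nat_lit 3) (.e (nat_lit 98365) (nat_lit 26) (.e (nat_lit 426298) (nat_lit 11) .nil))))) (.g (nat_lit 0) (.e (nat_lit 398704) (nat_lit 0) .nil) .nil))))) (.nd (nat_lit 8) (.nd (nat_lit 9) 
(.lf (nat_lit 590009) (.g (nat_lit 4072) (.e (nat_lit 532504) (nat_lit 1) (.e (nat_lit 57931) (nat_lit 282) (.e (nat_lit 163869) (nat_lit 2) (.e (nat_lit 196670) (nat_lit 14) (.e (nat_lit 73746) (nat_lit 3) (.e (nat_lit 516127) (nat_lit 2) (.e (nat_lit 213038) (nat_lit 13) (.e (nat_lit 229434) (nat_lit 25) .nil)))))))) (.g (nat_lit 1) (.e (nat_lit 397149) (nat_lit 0) .nil) .nil))) 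
(.lf (nat_lit 590521) (.g (nat_lit 2576) (.e (nat_lit 532515) (nat_lit 3) (.e (nat_lit 114716) (nat_lit 22) (.e (nat_lit 90172) (nat_lit 14) (.e (nat_lit 180244) (nat_lit 5) (.e (nat_lit 532501) (nat_lit 1) (.e (nat_lit 57685) (nat_lit 156) (.e (nat_lit 163844) (nat_lit 0) (.e (nat_lit 3248) (nat_lit 197) .nil)))))))) (.g (nat_lit 1) (.e (nat_lit 398270) (nat_lit 0) .nil) .nil)))) 
(.nd (nat_lit 9) 
(.lf (nat_lit 590265) (.g (nat_lit 2300) (.e (nat_lit 532513) (nat_lit 3) (.e (nat_lit 114714) (nat_lit 22) (.e (nat_lit 90172) (nat_lit 14) (.e (nat_lit 180244) (nat_lit 5) (.e (nat_lit 532503) (nat_lit 1) (.e (nat_lit 57661) (nat_lit 152) (.e (nat_lit 2716) (nat_lit 171) (.e (nat_lit 229433) (nat_lit 25) .nil)))))))) (.g (nat_lit 1) (.e (nat_lit 397586) (nat_lit 0) .nil) .nil))) 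
(.lf (nat_lit 590777) (.g (nat_lit 1838) (.e (nat_lit 532523) (nat_lit 7) (.e (nat_lit 319533) (nat_lit 16) (.e (nat_lit 286733) (nat_lit 2) (.e (nat_lit 90149) (nat_lit 9) .nil)))) (.g (nat_lit 0) (.e (nat_lit 398876) (nat_lit 0) .nil) .nil)))))) (.nd (nat_lit 7) (.nd (nat_lit 8) (.nd (nat_lit 9) 
(.lf (nat_lit 589945) (.g (nat_lit 934) (.e (nat_lit 532504) (nat_lit 1) (.e (nat_lit 57852) (nat_lit 252) (.e (nat_lit 57406) (nat_lit 12) (.e (nat_lit 336454) (nat_lit 34) .nil)))) (.g (nat_lit 0) (.e (nat_lit 397070) (nat_lit 0) .nil) .nil))) 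
(.lf (nat_lit 590457) (.g (nat_lit 1716) (.e (nat_lit 532514) (nat_lit 3) (.e (nat_lit 114719) (nat_lit 23) (.e (nat_lit 98365) (nat_lit 26) (.e (nat_lit 426139) (nat_lit 3) .nil)))) (.g (nat_lit 0) (.e (nat_lit 397965) (nat_lit 0) .nil) .nil)))) (.nd (nat_lit 9) 
(.lf (nat_lit 590201) (.g (nat_lit 2502) (.e (nat_lit 532513) (nat_lit 3) (.e (nat_lit 114714) (nat_lit 22) (.e (nat_lit 90172) (nat_lit 14) (.e (nat_lit 180243) (nat_lit 5) (.e (nat_lit 532499) (nat_lit 1) (.e (nat_lit 57657) (nat_lit 152) (.e (nat_lit 2715) (nat_lit 171) (.e (nat_lit 229433) (nat_lit 25) .nil)))))))) (.g (nat_lit 1) (.e (nat_lit 397497) (nat_lit 0) .nil) .nil))) 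
(.lf (nat_lit 590713) (.g (nat_lit 1383) (.e (nat_lit 532523) (nat_lit 7) (.e (nat_lit 319530) (nat_lit 16) (.e (nat_lit 286735) (nat_lit 3) (.e (nat_lit 98320) (nat_lit 17) .nil)))) (.g (nat_lit 0) (.e (nat_lit 398794) (nat_lit 0) .nil) .nil))))) (.nd (nat_lit 8) (.nd (nat_lit 9) 
(.lf (nat_lit 590073) (.g (nat_lit 1361) (.e (nat_lit 532510) (nat_lit 2) (.e (nat_lit 106534) (nat_lit 11) (.e (nat_lit 16413) (nat_lit 2) (.e (nat_lit 196674) (nat_lit 15) (.e (nat_lit 81922) (nat_lit 0) (.e (nat_lit 3251) (nat_lit 197) .nil)))))) (.g (nat_lit 1) (.e (nat_lit 397243) (nat_lit 0) .nil) .nil))) 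
(.lf (nat_lit 590585) (.g (nat_lit 2941) (.e (nat_lit 532515) (nat_lit 3) (.e (nat_lit 114719) (nat_lit 23) (.e (nat_lit 98356) (nat_lit 26) (.e (nat_lit 426436) (nat_lit 18) (.e (nat_lit 98334) (nat_lit 18) (.e (nat_lit 164305) (nat_lit 226) (.e (nat_lit 2612) (nat_lit 163) (.e (nat_lit 163964) (nat_lit 25) .nil)))))))) (.g (nat_lit 1) (.e (nat_lit 398548) (nat_lit 0) .nil) .nil)))) 
(.nd (nat_lit 9) 
(.lf (nat_lit 590329) (.g (nat_lit 2359) (.e (nat_lit 532513) (nat_lit 3) (.e (nat_lit 114714) (nat_lit 22) (.e (nat_lit 90174) (nat_lit 14) (.e (nat_lit 180243) (nat_lit 5) (.e (nat_lit 532504) (nat_lit 1) (.e (nat_lit 57662) (nat_lit 152) (.e (nat_lit 2612) (nat_lit 163) (.e (nat_lit 163964) (nat_lit 25) .nil)))))))) (.g (nat_lit 1) (.e (nat_lit 397663) (nat_lit 0) .nil) .nil))) 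
(.lf (nat_lit 590841) (.g (nat_lit 3800) (.e (nat_lit 532523) (nat_lit 7) (.e (nat_lit 319534) (nat_lit 16) (.e (nat_lit 286733) (nat_lit 2) (.e (nat_lit 90176) (nat_lit 15) (.e (nat_lit 188435) (nat_lit 20) (.e (nat_lit 3238) (nat_lit 197) .nil)))))) (.g (nat_lit 1) (.e (nat_lit 398952) (nat_lit 0) .nil) .nil)))))))))) 
(.nd (nat_lit 3) (.nd (nat_lit 4) (.nd (nat_lit 5) (.nd (nat_lit 6) (.nd (nat_lit 7) 
(.nd (nat_lit 8) (.nd (nat_lit 9) 
(.lf (nat_lit 589829) (.g (nat_lit 3803) (.e (nat_lit 532504) (nat_lit 1) (.e (nat_lit 57691) (nat_lit 156) (.e (nat_lit 163874) (nat_lit 3) (.e (nat_lit 204837) (nat_lit 20) (.e (nat_lit 114719) (nat_lit 23) (.e (nat_lit 98367) (nat_lit 27) (.e (nat_lit 434232) (nat_lit 23) .nil))))))) (.g (nat_lit 1) (.e (nat_lit 396934) (nat_lit 0) .nil) .nil))) 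
(.lf (nat_lit 590341) (.g (nat_lit 2665) (.e (nat_lit 532513) (nat_lit 3) (.e (nat_lit 114714) (nat_lit 22) (.e (nat_lit 90174) (nat_lit 14) (.e (nat_lit 180251) (nat_lit 10) (.e (nat_lit 573475) (nat_lit 12) (.e (nat_lit 57503) (nat_lit 38) (.e (nat_lit 639002) (nat_lit 11) (.e (nat_lit 229433) (nat_lit 25) .nil)))))))) (.g (nat_lit 1) (.e (nat_lit 397678) (nat_lit 0) .nil) .nil)))) 
(.nd (nat_lit 9) 
(.lf (nat_lit 590085) (.g (nat_lit 1680) (.e (nat_lit 532510) (nat_lit 2) (.e (nat_lit 106536) (nat_lit 11) (.e (nat_lit 16412) (nat_lit 2) (.e (nat_lit 196672) (nat_lit 15) (.e (nat_lit 89856) (nat_lit 0) (.e (nat_lit 3245) (nat_lit 197) .nil)))))) (.g (nat_lit 1) (.e (nat_lit 397259) (nat_lit 0) .nil) .nil))) 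
(.lf (nat_lit 590597) (.g (nat_lit 1758) (.e (nat_lit 532515) (nat_lit 3) (.e (nat_lit 114719) (nat_lit 23) (.e (nat_lit 98365) (nat_lit 26) (.e (nat_lit 426121) (nat_lit 2) .nil)))) (.g (nat_lit 0) (.e (nat_lit 398578) (nat_lit 0) .nil) .nil))))) (.nd (nat_lit 8) (.nd (nat_lit 9) 
(.lf (nat_lit 589957) (.g (nat_lit 2278) (.e (nat_lit 532504) (nat_lit 1) (.e (nat_lit 57852) (nat_lit 252) (.e (nat_lit 57409) (nat_lit 12) (.e (nat_lit 336019) (nat_lit 3) (.e (nat_lit 98354) (nat_lit 26) (.e (nat_lit 426173) (nat_lit 7) (.e (nat_lit 409617) (nat_lit 10) (.e (nat_lit 604) (nat_lit 45) .nil)))))))) (.g (nat_lit 1) (.e (nat_lit 397082) (nat_lit 0) .nil) .nil))) 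
(.lf (nat_lit 590469) (.g (nat_lit 486) (.e (nat_lit 532515) (nat_lit 3) (.e (nat_lit 114697) (nat_lit 11) (.e (nat_lit 426138) (nat_lit 3) (.e (nat_lit 204858) (nat_lit 26) .nil)))) (.g (nat_lit 0) (.e (nat_lit 398023) (nat_lit 0) .nil) .nil)))) (.nd (nat_lit 9) 
(.lf (nat_lit 590213) (.g (nat_lit 3795) (.e (nat_lit 532513) (nat_lit 3) (.e (nat_lit 114714) (nat_lit 22) (.e (nat_lit 90172) (nat_lit 14) (.e (nat_lit 180243) (nat_lit 5) (.e (nat_lit 532503) (nat_lit 1) (.e (nat_lit 57654) (nat_lit 152) (.e (nat_lit 2615) (nat_lit 163) (.e (nat_lit 163962) (nat_lit 25) .nil)))))))) (.g (nat_lit 1) (.e (nat_lit 397513) (nat_lit 0) .nil) .nil))) 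
(.lf (nat_lit 590725) (.g (nat_lit 2112) (.e (nat_lit 532523) (nat_lit 7) (.e (nat_lit 319530) (nat_lit 16) (.e (nat_lit 286735) (nat_lit 3) (.e (nat_lit 98381) (nat_lit 31) (.e (nat_lit 466967) (nat_lit 20) .nil))))) (.g (nat_lit 0) (.e (nat_lit 398806) (nat_lit 0) .nil) .nil)))))) (.nd (nat_lit 7) (.nd (nat_lit 8) (.nd (nat_lit 9) 
(.lf (nat_lit 589893) (.g (nat_lit 3247) (.e (nat_lit 532504) (nat_lit 1) (.e (nat_lit 57851) (nat_lit 252) (.e (nat_lit 57406) (nat_lit 12) (.e (nat_lit 336456) (nat_lit 34) (.e (nat_lit 483383) (nat_lit 23) (.e (nat_lit 336240) (nat_lit 15) (.e (nat_lit 3239) (nat_lit 197) .nil))))))) (.g (nat_lit 1) (.e (nat_lit 397017) (nat_lit 0) .nil) .nil))) 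
(.lf (nat_lit 590405) (.g (nat_lit 1267) (.e (nat_lit 532514) (nat_lit 3) (.e (nat_lit 114716) (nat_lit 22) (.e (nat_lit 90167) (nat_lit 13) (.e (nat_lit 172064) (nat_lit 2) (.e (nat_lit 204544) (nat_lit 2) .nil))))) (.g (nat_lit 0) (.e (nat_lit 397886) (nat_lit 0) .nil) .nil)))) (.nd (nat_lit 9) 
(.lf (nat_lit 590149) (.g (nat_lit 2319) (.e (nat_lit 532513) (nat_lit 3) (.e (nat_lit 114698) (nat_lit 11) (.e (nat_lit 426121) (nat_lit 2) (.e (nat_lit 196666) (nat_lit 13) (.e (nat_lit 65622) (nat_lit 12) .nil))))) (.g (nat_lit 0) (.e (nat_lit 397356) (nat_lit 0) .nil) .nil))) 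
(.lf (nat_lit 590661) (.g (nat_lit 1516) (.e (nat_lit 532522) (nat_lit 7) (.e (nat_lit 319531) (nat_lit 16) (.e (nat_lit 286733) (nat_lit 2) (.e (nat_lit 90175) (nat_lit 15) .nil)))) (.g (nat_lit 0) (.e (nat_lit 398719) (nat_lit 0) .nil) .nil))))) (.nd (nat_lit 8) (.nd (nat_lit 9) 
(.lf (nat_lit 590021) (.g (nat_lit 2628) (.e (nat_lit 532505) (nat_lit 2) (.e (nat_lit 106536) (nat_lit 11) (.e (nat_lit 16416) (nat_lit 3) (.e (nat_lit 204859) (nat_lit 26) .nil)))) (.g (nat_lit 0) (.e (nat_lit 397164) (nat_lit 0) .nil) .nil))) 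
(.lf (nat_lit 590533) (.g (nat_lit 3040) (.e (nat_lit 532515) (nat_lit 3) (.e (nat_lit 114716) (nat_lit 22) (.e (nat_lit 90174) (nat_lit 14) (.e (nat_lit 180243) (nat_lit 5) (.e (nat_lit 532499) (nat_lit 1) (.e (nat_lit 57686) (nat_lit 156) (.e (nat_lit 163844) (nat_lit 0) (.e (nat_lit 3248) (nat_lit 197) .nil)))))))) (.g (nat_lit 1) (.e (nat_lit 398350) (nat_lit 0) .nil) .nil)))) 
(.nd (nat_lit 9) 
(.lf (nat_lit 590277) (.g (nat_lit 2910) (.e (nat_lit 532513) (nat_lit 3) (.e (nat_lit 114714) (nat_lit 22) (.e (nat_lit 90172) (nat_lit 14) (.e (nat_lit 180244) (nat_lit 5) (.e (nat_lit 532504) (nat_lit 1) (.e (nat_lit 57663) (nat_lit 152) (.e (nat_lit 2716) (nat_lit 171) (.e (nat_lit 229433) (nat_lit 25) .nil)))))))) (.g (nat_lit 1) (.e (nat_lit 397600) (nat_lit 0) .nil) .nil))) 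
(.lf (nat_lit 590789) (.g (nat_lit 2038) (.e (nat_lit 532523) (nat_lit 7) (.e (nat_lit 319533) (nat_lit 16) (.e (nat_lit 286734) (nat_lit 3) (.e (nat_lit 98321) (nat_lit 17) (.e (nat_lit 7936) (nat_lit 393) .nil))))) (.g (nat_lit 0) (.e (nat_lit 398888) (nat_lit 0) .nil) .nil))))))) (.nd (nat_lit 6) (.nd (nat_lit 7) (.nd (nat_lit 8) (.nd (nat_lit 9) 
(.lf (nat_lit 589861) (.g (nat_lit 2209) (.e (nat_lit 532504) (nat_lit 1) (.e (nat_lit 57851) (nat_lit 252) (.e (nat_lit 57377) (nat_lit 3) (.e (nat_lit 98313) (nat_lit 9) (.e (nat_lit 336027) (nat_lit 3) (.e (nat_lit 98325) (nat_lit 17) (.e (nat_lit 3721) (nat_lit 227) (.e (nat_lit 778474) (nat_lit 12) (.e (nat_lit 163963) (nat_lit 25) .nil))))))))) (.g (nat_lit 1) (.e (nat_lit 396984) (nat_lit 0) .nil) .nil))) 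
(.lf (nat_lit 590373) (.g (nat_lit 2482) (.e (nat_lit 532513) (nat_lit 3) (.e (nat_lit 114719) (nat_lit 23) (.e (nat_lit 98356) (nat_lit 26) (.e (nat_lit 426436) (nat_lit 18) (.e (nat_lit 98334) (nat_lit 18) (.e (nat_lit 164305) (nat_lit 226) (.e (nat_lit 2612) (nat_lit 163) (.e (nat_lit 163964) (nat_lit 25) .nil)))))))) (.g (nat_lit 1) (.e (nat_lit 397739) (nat_lit 0) .nil) .nil)))) 
(.nd (nat_lit 9) 
(.lf (nat_lit 590117) (.g (nat_lit 1385) (.e (nat_lit 532511) (nat_lit 2) (.e (nat_lit 106534) (nat_lit 11) (.e (nat_lit 16416) (nat_lit 3) (.e (nat_lit 204876) (nat_lit 31) (.e (nat_lit 376833) (nat_lit 0) .nil))))) (.g (nat_lit 0) (.e (nat_lit 397295) (nat_lit 0) .nil) .nil))) 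
(.lf (nat_lit 590629) (.g (nat_lit 2426) (.e (nat_lit 532515) (nat_lit 3) (.e (nat_lit 114719) (nat_lit 23) (.e (nat_lit 98385) (nat_lit 32) (.e (nat_lit 475179) (nat_lit 24) (.e (nat_lit 516120) (nat_lit 1) .nil))))) (.g (nat_lit 0) (.e (nat_lit 398661) (nat_lit 0) .nil) .nil))))) (.nd (nat_lit 8) (.nd (nat_lit 9) 
(.lf (nat_lit 589989) (.g (nat_lit 2862) (.e (nat_lit 532504) (nat_lit 1) (.e (nat_lit 57929) (nat_lit 282) (.e (nat_lit 163869) (nat_lit 2) (.e (nat_lit 196670) (nat_lit 14) (.e (nat_lit 73746) (nat_lit 3) (.e (nat_lit 516124) (nat_lit 2) (.e (nat_lit 213035) (nat_lit 12) (.e (nat_lit 163964) (nat_lit 25) .nil)))))))) (.g (nat_lit 1) (.e (nat_lit 397126) (nat_lit 0) .nil) .nil))) 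
(.lf (nat_lit 590501) (.g (nat_lit 2975) (.e (nat_lit 532515) (nat_lit 3) (.e (nat_lit 114715) (nat_lit 22) (.e (nat_lit 90170) (nat_lit 13) (.e (nat_lit 172138) (nat_lit 15) (.e (nat_lit 1800) (nat_lit 119) (.e (nat_lit 516120) (nat_lit 1) (.e (nat_lit 164330) (nat_lit 230) (.e (nat_lit 163850) (nat_lit 0) (.e (nat_lit 3252) (nat_lit 197) .nil))))))))) (.g (nat_lit 1) (.e (nat_lit 398141) (nat_lit 0) .nil) .nil)))) 
(.nd (nat_lit 9) 
(.lf (nat_lit 590245) (.g (nat_lit 2777) (.e (nat_lit 532513) (nat_lit 3) (.e (nat_lit 114714) (nat_lit 22) (.e (nat_lit 90172) (nat_lit 14) (.e (nat_lit 180244) (nat_lit 5) (.e (nat_lit 532501) (nat_lit 1) (.e (nat_lit 57651) (nat_lit 152) (.e (nat_lit 2715) (nat_lit 171) (.e (nat_lit 229433) (nat_lit 25) .nil)))))))) (.g (nat_lit 1) (.e (nat_lit 397554) (nat_lit 0) .nil) .nil))) 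
(.lf (nat_lit 590757) (.g (nat_lit 1572) (.e (nat_lit 532523) (nat_lit 7) (.e (nat_lit 319531) (nat_lit 16) (.e (nat_lit 286735) (nat_lit 3) (.e (nat_lit 98381) (nat_lit 31) .nil)))) (.g (nat_lit 0) (.e (nat_lit 398842) (nat_lit 0) .nil) .nil)))))) (.nd (nat_lit 7) (.nd (nat_lit 8) (.nd (nat_lit 9) 
(.lf (nat_lit 589925) (.g (nat_lit 2548) (.e (nat_lit 532504) (nat_lit 1) (.e (nat_lit 57852) (nat_lit 252) (.e (nat_lit 57349) (nat_lit 0) (.e (nat_lit 1860) (nat_lit 124) (.e (nat_lit 557105) (nat_lit 14) (.e (nat_lit 180252) (nat_lit 10) (.e (nat_lit 573480) (nat_lit 13) (.e (nat_lit 65637) (nat_lit 15) (.e (nat_lit 3253) (nat_lit 197) .nil))))))))) (.g (nat_lit 1) (.e (nat_lit 397049) (nat_lit 0) .nil) .nil))) 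
(.lf (nat_lit 590437) (.g (nat_lit 3070) (.e (nat_lit 532514) (nat_lit 3) (.e (nat_lit 114719) (nat_lit 23) (.e (nat_lit 98350) (nat_lit 24) (.e (nat_lit 409616) (nat_lit 10) (.e (nat_lit 632) (nat_lit 50) .nil))))) (.g (nat_lit 0) (.e (nat_lit 397944) (nat_lit 0) .nil) .nil)))) (.nd (nat_lit 9) 
(.lf (nat_lit 590181) (.g (nat_lit 3368) (.e (nat_lit 532513) (nat_lit 3) (.e (nat_lit 114714) (nat_lit 22) (.e (nat_lit 90169) (nat_lit 13) (.e (nat_lit 172133) (nat_lit 15) (.e (nat_lit 1800) (nat_lit 119) (.e (nat_lit 516120) (nat_lit 1) (.e (nat_lit 164329) (nat_lit 230) (.e (nat_lit 163850) (nat_lit 0) (.e (nat_lit 3252) (nat_lit 197) .nil))))))))) (.g (nat_lit 1) (.e (nat_lit 397467) (nat_lit 0) .nil) .nil))) 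
(.lf (nat_lit 590693) (.g (nat_lit 2343) (.e (nat_lit 532523) (nat_lit 7) (.e (nat_lit 319528) (nat_lit 16) (.e (nat_lit 286735) (nat_lit 3) (.e (nat_lit 98381) (nat_lit 31) (.e (nat_lit 466967) (nat_lit 20) (.e (nat_lit 3253) (nat_lit 197) .nil)))))) (.g (nat_lit 1) (.e (nat_lit 398769) (nat_lit 0) .nil) .nil))))) (.nd (nat_lit 8) (.nd (nat_lit 9) 
(.lf (nat_lit 590053) (.g (nat_lit 1504) (.e (nat_lit 532508) (nat_lit 2) (.e (nat_lit 106534) (nat_lit 11) (.e (nat_lit 16416) (nat_lit 3) (.e (nat_lit 204877) (nat_lit 31) (.e (nat_lit 376833) (nat_lit 0) .nil))))) (.g (nat_lit 0) (.e (nat_lit 397217) (nat_lit 0) .nil) .nil))) 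
(.lf (nat_lit 590565) (.g (nat_lit 658) (.e (nat_lit 532515) (nat_lit 3) (.e (nat_lit 114718) (nat_lit 23) (.e (nat_lit 98356) (nat_lit 26) .nil))) (.g (nat_lit 0) (.e (nat_lit 398494) (nat_lit 0) .nil) .nil)))) (.nd (nat_lit 9) 
(.lf (nat_lit 590309) (.g (nat_lit 2623) (.e (nat_lit 532513) (nat_lit 3) (.e (nat_lit 114714) (nat_lit 22) (.e (nat_lit 90174) (nat_lit 14) (.e (nat_lit 180243) (nat_lit 5) (.e (nat_lit 532501) (nat_lit 1) (.e (nat_lit 57662) (nat_lit 152) (.e (nat_lit 2716) (nat_lit 171) (.e (nat_lit 229433) (nat_lit 25) .nil)))))))) (.g (nat_lit 1) (.e (nat_lit 397637) (nat_lit 0) .nil) .nil))) 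
(.lf (nat_lit 590821) (.g (nat_lit 1899) (.e (nat_lit 532523) (nat_lit 7) (.e (nat_lit 319533) (nat_lit 16) (.e (nat_lit 286735) (nat_lit 3) (.e (nat_lit 106240) (nat_lit 29) .nil)))) (.g (nat_lit 0) (.e (nat_lit 398920) (nat_lit 0) .nil) .nil)))))))) (.nd (nat_lit 5) (.nd (nat_lit 6) (.nd (nat_lit 7) (.nd (nat_lit 8) (.nd (nat_lit 9) 
(.lf (nat_lit 589845) (.g (nat_lit 3221) (.e (nat_lit 532504) (nat_lit 1) (.e (nat_lit 57692) (nat_lit 156) (.e (nat_lit 163874) (nat_lit 3) (.e (nat_lit 204838) (nat_lit 20) (.e (nat_lit 114719) (nat_lit 23) (.e (nat_lit 98367) (nat_lit 27) (.e (nat_lit 434234) (nat_lit 23) .nil))))))) (.g (nat_lit 1) (.e (nat_lit 396954) (nat_lit 0) .nil) .nil))) 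
(.lf (nat_lit 590357) (.g (nat_lit 2120) (.e (nat_lit 532513) (nat_lit 3) (.e (nat_lit 114718) (nat_lit 23) (.e (nat_lit 98384) (nat_lit 32) (.e (nat_lit 475177) (nat_lit 24) (.e (nat_lit 516117) (nat_lit 1) .nil))))) (.g (nat_lit 0) (.e (nat_lit 397708) (nat_lit 0) .nil) .nil)))) (.nd (nat_lit 9) 
(.lf (nat_lit 590101) (.g (nat_lit 2764) (.e (nat_lit 532510) (nat_lit 2) (.e (nat_lit 106536) (nat_lit 11) (.e (nat_lit 16415) (nat_lit 3) (.e (nat_lit 204861) (nat_lit 26) (.e (nat_lit 336194) (nat_lit 12) (.e (nat_lit 385067) (nat_lit 26) .nil)))))) (.g (nat_lit 1) (.e (nat_lit 397275) (nat_lit 0) .nil) .nil))) 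
(.lf (nat_lit 590613) (.g (nat_lit 1758) (.e (nat_lit 532515) (nat_lit 3) (.e (nat_lit 114719) (nat_lit 23) (.e (nat_lit 98365) (nat_lit 26) (.e (nat_lit 426138) (nat_lit 3) .nil)))) (.g (nat_lit 0) (.e (nat_lit 398604) (nat_lit 0) .nil) .nil))))) (.nd (nat_lit 8) (.nd (nat_lit 9) 
(.lf (nat_lit 589973) (.g (nat_lit 3078) (.e (nat_lit 532504) (nat_lit 1) (.e (nat_lit 57854) (nat_lit 252) (.e (nat_lit 57406) (nat_lit 12) (.e (nat_lit 336367) (nat_lit 27) (.e (nat_lit 426542) (nat_lit 29) (.e (nat_lit 352267) (nat_lit 0) (.e (nat_lit 3253) (nat_lit 197) .nil))))))) (.g (nat_lit 1) (.e (nat_lit 397108) (nat_lit 0) .nil) .nil))) 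
(.lf (nat_lit 590485) (.g (nat_lit 353) (.e (nat_lit 532515) (nat_lit 3) (.e (nat_lit 114698) (nat_lit 11) (.e (nat_lit 426138) (nat_lit 3) .nil))) (.g (nat_lit 0) (.e (nat_lit 398064) (nat_lit 0) .nil) .nil)))) (.nd (nat_lit 9) 
(.lf (nat_lit 590229) (.g (nat_lit 3788) (.e (nat_lit 532513) (nat_lit 3) (.e (nat_lit 114714) (nat_lit 22) (.e (nat_lit 90172) (nat_lit 14) (.e (nat_lit 180244) (nat_lit 5) (.e (nat_lit 532499) (nat_lit 1) (.e (nat_lit 57652) (nat_lit 152) (.e (nat_lit 2612) (nat_lit 163) (.e (nat_lit 163964) (nat_lit 25) .nil)))))))) (.g (nat_lit 1) (.e (nat_lit 397533) (nat_lit 0) .nil) .nil))) 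
(.lf (nat_lit 590741) (.g (nat_lit 3454) (.e (nat_lit 532523) (nat_lit 7) (.e (nat_lit 319531) (nat_lit 16) (.e (nat_lit 286735) (nat_lit 3) (.e (nat_lit 98350) (nat_lit 24) (.e (nat_lit 409603) (nat_lit 0) (.e (nat_lit 5761) (nat_lit 315) (.e (nat_lit 163962) (nat_lit 25) .nil))))))) (.g (nat_lit 1) (.e (nat_lit 398826) (nat_lit 0) .nil) .nil)))))) 
(.nd (nat_lit 7) (.nd (nat_lit 8) (.nd (nat_lit 9) 
(.lf (nat_lit 589909) (.g (nat_lit 3393) (.e (nat_lit 532504) (nat_lit 1) (.e (nat_lit 57851) (nat_lit 252) (.e (nat_lit 57406) (nat_lit 12) (.e (nat_lit 336456) (nat_lit 34) (.e (nat_lit 483384) (nat_lit 23) (.e (nat_lit 336306) (nat_lit 15) (.e (nat_lit 3238) (nat_lit 197) .nil))))))) (.g (nat_lit 1) (.e (nat_lit 397033) (nat_lit 0) .nil) .nil))) 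
(.lf (nat_lit 590421) (.g (nat_lit 2458) (.e (nat_lit 532514) (nat_lit 3) (.e (nat_lit 114718) (nat_lit 23) (.e (nat_lit 98335) (nat_lit 18) (.e (nat_lit 164403) (nat_lit 256) (.e (nat_lit 57370) (nat_lit 2) .nil))))) (.g (nat_lit 0) (.e (nat_lit 397927) (nat_lit 0) .nil) .nil)))) (.nd (nat_lit 9) 
(.lf (nat_lit 590165) (.g (nat_lit 3096) (.e (nat_lit 532513) (nat_lit 3) (.e (nat_lit 114698) (nat_lit 11) (.e (nat_lit 426139) (nat_lit 3) (.e (nat_lit 204852) (nat_lit 26) (.e (nat_lit 336208) (nat_lit 12) (.e (nat_lit 385068) (nat_lit 26) .nil)))))) (.g (nat_lit 1) (.e (nat_lit 397406) (nat_lit 0) .nil) .nil))) 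
(.lf (nat_lit 590677) (.g (nat_lit 394) (.e (nat_lit 532523) (nat_lit 7) (.e (nat_lit 319537) (nat_lit 19) (.e (nat_lit 311315) (nat_lit 3) .nil))) (.g (nat_lit 0) (.e (nat_lit 398747) (nat_lit 0) .nil) .nil))))) (.nd (nat_lit 8) (.nd (nat_lit 9) 
(.lf (nat_lit 590037) (.g (nat_lit 1681) (.e (nat_lit 532507) (nat_lit 2) (.e (nat_lit 106536) (nat_lit 11) (.e (nat_lit 16416) (nat_lit 3) (.e (nat_lit 204865) (nat_lit 28) .nil)))) (.g (nat_lit 0) (.e (nat_lit 397191) (nat_lit 0) .nil) .nil))) 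
(.lf (nat_lit 590549) (.g (nat_lit 2133) (.e (nat_lit 532515) (nat_lit 3) (.e (nat_lit 114716) (nat_lit 22) (.e (nat_lit 90185) (nat_lit 17) (.e (nat_lit 237592) (nat_lit 3) (.e (nat_lit 204805) (nat_lit 0) (.e (nat_lit 7105) (nat_lit 380) (.e (nat_lit 171776) (nat_lit 86) .nil))))))) (.g (nat_lit 1) (.e (nat_lit 398453) (nat_lit 0) .nil) .nil)))) (.nd (nat_lit 9) 
(.lf (nat_lit 590293) (.g (nat_lit 4425) (.e (nat_lit 532513) (nat_lit 3) (.e (nat_lit 114714) (nat_lit 22) (.e (nat_lit 90174) (nat_lit 14) (.e (nat_lit 180243) (nat_lit 5) (.e (nat_lit 532499) (nat_lit 1) (.e (nat_lit 57655) (nat_lit 152) (.e (nat_lit 2615) (nat_lit 163) (.e (nat_lit 163962) (nat_lit 25) .nil)))))))) (.g (nat_lit 1) (.e (nat_lit 397619) (nat_lit 0) .nil) .nil))) 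
(.lf (nat_lit 590805) (.g (nat_lit 2760) (.e (nat_lit 532523) (nat_lit 7) (.e (nat_lit 319533) (nat_lit 16) (.e (nat_lit 286735) (nat_lit 3) (.e (nat_lit 98364) (nat_lit 26) (.e (nat_lit 426298) (nat_lit 11) .nil))))) (.g (nat_lit 0) (.e (nat_lit 398904) (nat_lit 0) .nil) .nil))))))) (.nd (nat_lit 6) (.nd (nat_lit 7) (.nd (nat_lit 8) (.nd (nat_lit 9) 
(.lf (nat_lit 589877) (.g (nat_lit 2077) (.e (nat_lit 532504) (nat_lit 1) (.e (nat_lit 57851) (nat_lit 252) (.e (nat_lit 57406) (nat_lit 12) (.e (nat_lit 336456) (nat_lit 34) (.e (nat_lit 483365) (nat_lit 18) .nil))))) (.g (nat_lit 0) (.e (nat_lit 397001) (nat_lit 0) .nil) .nil))) 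
(.lf (nat_lit 590389) (.g (nat_lit 1145) (.e (nat_lit 532514) (nat_lit 3) (.e (nat_lit 114698) (nat_lit 11) (.e (nat_lit 426123) (nat_lit 2) .nil))) (.g (nat_lit 0) (.e (nat_lit 397818) (nat_lit 0) .nil) .nil)))) (.nd (nat_lit 9) 
(.lf (nat_lit 590133) (.g (nat_lit 1407) (.e (nat_lit 532511) (nat_lit 2) (.e (nat_lit 106536) (nat_lit 11) (.e (nat_lit 16413) (nat_lit 2) (.e (nat_lit 196674) (nat_lit 15) (.e (nat_lit 89856) (nat_lit 0) (.e (nat_lit 3233) (nat_lit 197) .nil)))))) (.g (nat_lit 1) (.e (nat_lit 397313) (nat_lit 0) .nil) .nil))) 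
(.lf (nat_lit 590645) (.g (nat_lit 2788) (.e (nat_lit 532522) (nat_lit 7) (.e (nat_lit 319530) (nat_lit 16) (.e (nat_lit 286733) (nat_lit 2) (.e (nat_lit 90134) (nat_lit 9) (.e (nat_lit 3025) (nat_lit 187) (.e (nat_lit 450581) (nat_lit 5) .nil)))))) (.g (nat_lit 1) (.e (nat_lit 398700) (nat_lit 0) .nil) .nil))))) (.nd (nat_lit 8) (.nd (nat_lit 9) 
(.lf (nat_lit 590005) (.g (nat_lit 3673) (.e (nat_lit 532504) (nat_lit 1) (.e (nat_lit 57931) (nat_lit 282) (.e (nat_lit 163869) (nat_lit 2) (.e (nat_lit 196670) (nat_lit 14) (.e (nat_lit 73746) (nat_lit 3) (.e (nat_lit 516124) (nat_lit 2) (.e (nat_lit 213035) (nat_lit 12) (.e (nat_lit 163964) (nat_lit 25) .nil)))))))) (.g (nat_lit 1) (.e (nat_lit 397145) (nat_lit 0) .nil) .nil))) 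
(.lf (nat_lit 590517) (.g (nat_lit 3633) (.e (nat_lit 532515) (nat_lit 3) (.e (nat_lit 114716) (nat_lit 22) (.e (nat_lit 90172) (nat_lit 14) (.e (nat_lit 180244) (nat_lit 5) (.e (nat_lit 532499) (nat_lit 1) (.e (nat_lit 57686) (nat_lit 156) (.e (nat_lit 163843) (nat_lit 0) (.e (nat_lit 3248) (nat_lit 197) .nil)))))))) (.g (nat_lit 1) (.e (nat_lit 398241) (nat_lit 0) .nil) .nil)))) 
(.nd (nat_lit 9) 
(.lf (nat_lit 590261) (.g (nat_lit 2381) (.e (nat_lit 532513) (nat_lit 3) (.e (nat_lit 114714) (nat_lit 22) (.e (nat_lit 90172) (nat_lit 14) (.e (nat_lit 180244) (nat_lit 5) (.e (nat_lit 532503) (nat_lit 1) (.e (nat_lit 57658) (nat_lit 152) (.e (nat_lit 2612) (nat_lit 163) (.e (nat_lit 163964) (nat_lit 25) .nil)))))))) (.g (nat_lit 1) (.e (nat_lit 397580) (nat_lit 0) .nil) .nil))) 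
(.lf (nat_lit 590773) (.g (nat_lit 2019) (.e (nat_lit 532523) (nat_lit 7) (.e (nat_lit 319533) (nat_lit 16) (.e (nat_lit 286732) (nat_lit 2) (.e (nat_lit 90176) (nat_lit 15) (.e (nat_lit 188439) (nat_lit 20) .nil))))) (.g (nat_lit 0) (.e (nat_lit 398864) (nat_lit 0) .nil) .nil)))))) (.nd (nat_lit 7) (.nd (nat_lit 8) (.nd (nat_lit 9) 
(.lf (nat_lit 589941) (.g (nat_lit 4471) (.e (nat_lit 532504) (nat_lit 1) (.e (nat_lit 57852) (nat_lit 252) (.e (nat_lit 57406) (nat_lit 12) (.e (nat_lit 336367) (nat_lit 27) (.e (nat_lit 426540) (nat_lit 29) (.e (nat_lit 352262) (nat_lit 0) (.e (nat_lit 3253) (nat_lit 197) .nil))))))) (.g (nat_lit 1) (.e (nat_lit 397066) (nat_lit 0) .nil) .nil))) 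
(.lf (nat_lit 590453) (.g (nat_lit 1561) (.e (nat_lit 532514) (nat_lit 3) (.e (nat_lit 114719) (nat_lit 23) (.e (nat_lit 98365) (nat_lit 26) (.e (nat_lit 426133) (nat_lit 3) .nil)))) (.g (nat_lit 0) (.e (nat_lit 397960) (nat_lit 0) .nil) .nil)))) (.nd (nat_lit 9) 
(.lf (nat_lit 590197) (.g (nat_lit 436) (.e (nat_lit 532513) (nat_lit 3) (.e (nat_lit 114714) (nat_lit 22) (.e (nat_lit 90172) (nat_lit 14) .nil))) (.g (nat_lit 0) (.e (nat_lit 397489) (nat_lit 0) .nil) .nil))) 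
(.lf (nat_lit 590709) (.g (nat_lit 312) (.e (nat_lit 532523) (nat_lit 7) (.e (nat_lit 319530) (nat_lit 16) (.e (nat_lit 286733) (nat_lit 2) .nil))) (.g (nat_lit 0) (.e (nat_lit 398789) (nat_lit 0) .nil) .nil))))) (.nd (nat_lit 8) (.nd (nat_lit 9) 
(.lf (nat_lit 590069) (.g (nat_lit 1023) (.e (nat_lit 532509) (nat_lit 2) (.e (nat_lit 106536) (nat_lit 11) (.e (nat_lit 16417) (nat_lit 3) (.e (nat_lit 204854) (nat_lit 26) .nil)))) (.g (nat_lit 0) (.e (nat_lit 397239) (nat_lit 0) .nil) .nil))) 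
(.lf (nat_lit 590581) (.g (nat_lit 4429) (.e (nat_lit 532515) (nat_lit 3) (.e (nat_lit 114719) (nat_lit 23) (.e (nat_lit 98350) (nat_lit 24) (.e (nat_lit 409617) (nat_lit 10) (.e (nat_lit 632) (nat_lit 50) (.e (nat_lit 573489) (nat_lit 14) (.e (nat_lit 81664) (nat_lit 5) .nil))))))) (.g (nat_lit 1) (.e (nat_lit 398541) (nat_lit 0) .nil) .nil)))) (.nd (nat_lit 9) 
(.lf (nat_lit 590325) (.g (nat_lit 3141) (.e (nat_lit 532513) (nat_lit 3) (.e (nat_lit 114714) (nat_lit 22) (.e (nat_lit 90174) (nat_lit 14) (.e (nat_lit 180243) (nat_lit 5) (.e (nat_lit 532503) (nat_lit 1) (.e (nat_lit 57688) (nat_lit 156) (.e (nat_lit 163850) (nat_lit 0) (.e (nat_lit 3252) (nat_lit 197) .nil)))))))) (.g (nat_lit 1) (.e (nat_lit 397657) (nat_lit 0) .nil) .nil))) 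
(.lf (nat_lit 590837) (.g (nat_lit 1454) (.e (nat_lit 532523) (nat_lit 7) (.e (nat_lit 319534) (nat_lit 16) (.e (nat_lit 286733) (nat_lit 2) (.e (nat_lit 90134) (nat_lit 9) .nil)))) (.g (nat_lit 0) (.e (nat_lit 398947) (nat_lit 0) .nil) .nil))))))))) (.nd (nat_lit 4) (.nd (nat_lit 5) (.nd (nat_lit 6) (.nd (nat_lit 7) (.nd (nat_lit 8) (.nd (nat_lit 9) 
(.lf (nat_lit 589837) (.g (nat_lit 3087) (.e (nat_lit 532504) (nat_lit 1) (.e (nat_lit 57691) (nat_lit 156) (.e (nat_lit 163905) (nat_lit 12) (.e (nat_lit 426568) (nat_lit 34) (.e (nat_lit 393284) (nat_lit 24) (.e (nat_lit 434233) (nat_lit 23) .nil)))))) (.g (nat_lit 1) (.e (nat_lit 396943) (nat_lit 0) .nil) .nil))) 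
(.lf (nat_lit 590349) (.g (nat_lit 1233) (.e (nat_lit 532513) (nat_lit 3) (.e (nat_lit 114718) (nat_lit 23) (.e (nat_lit 98335) (nat_lit 18) (.e (nat_lit 164403) (nat_lit 256) .nil)))) (.g (nat_lit 0) (.e (nat_lit 397694) (nat_lit 0) .nil) .nil)))) (.nd (nat_lit 9) 
(.lf (nat_lit 590093) (.g (nat_lit 1311) (.e (nat_lit 532510) (nat_lit 2) (.e (nat_lit 106536) (nat_lit 11) (.e (nat_lit 16413) (nat_lit 2) (.e (nat_lit 196674) (nat_lit 15) (.e (nat_lit 81922) (nat_lit 0) (.e (nat_lit 3231) (nat_lit 197) .nil)))))) (.g (nat_lit 1) (.e (nat_lit 397267) (nat_lit 0) .nil) .nil))) 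
(.lf (nat_lit 590605) (.g (nat_lit 3601) (.e (nat_lit 532515) (nat_lit 3) (.e (nat_lit 114719) (nat_lit 23) (.e (nat_lit 98365) (nat_lit 26) (.e (nat_lit 426133) (nat_lit 3) (.e (nat_lit 204805) (nat_lit 0) (.e (nat_lit 7098) (nat_lit 380) (.e (nat_lit 171776) (nat_lit 86) .nil))))))) (.g (nat_lit 1) (.e (nat_lit 398595) (nat_lit 0) .nil) .nil))))) (.nd (nat_lit 8) (.nd (nat_lit 9) 
(.lf (nat_lit 589965) (.g (nat_lit 2152) (.e (nat_lit 532504) (nat_lit 1) (.e (nat_lit 57853) (nat_lit 252) (.e (nat_lit 57406) (nat_lit 12) (.e (nat_lit 336454) (nat_lit 34) (.e (nat_lit 483385) (nat_lit 23) .nil))))) (.g (nat_lit 0) (.e (nat_lit 397095) (nat_lit 0) .nil) .nil))) 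
(.lf (nat_lit 590477) (.g (nat_lit 2921) (.e (nat_lit 532515) (nat_lit 3) (.e (nat_lit 114698) (nat_lit 11) (.e (nat_lit 426123) (nat_lit 2) (.e (nat_lit 196681) (nat_lit 17) (.e (nat_lit 131120) (nat_lit 12) (.e (nat_lit 385066) (nat_lit 26) .nil)))))) (.g (nat_lit 1) (.e (nat_lit 398045) (nat_lit 0) .nil) .nil)))) (.nd (nat_lit 9) 
(.lf (nat_lit 590221) (.g (nat_lit 3261) (.e (nat_lit 532513) (nat_lit 3) (.e (nat_lit 114714) (nat_lit 22) (.e (nat_lit 90172) (nat_lit 14) (.e (nat_lit 180243) (nat_lit 5) (.e (nat_lit 532504) (nat_lit 1) (.e (nat_lit 57663) (nat_lit 152) (.e (nat_lit 7936) (nat_lit 163) (.e (nat_lit 163962) (nat_lit 25) .nil)))))))) (.g (nat_lit 1) (.e (nat_lit 397524) (nat_lit 0) .nil) .nil))) 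
(.lf (nat_lit 590733) (.g (nat_lit 1867) (.e (nat_lit 532523) (nat_lit 7) (.e (nat_lit 319531) (nat_lit 16) (.e (nat_lit 286733) (nat_lit 2) (.e (nat_lit 90166) (nat_lit 13) (.e (nat_lit 172114) (nat_lit 10) .nil))))) (.g (nat_lit 0) (.e (nat_lit 398818) (nat_lit 0) .nil) .nil)))))) (.nd (nat_lit 7) (.nd (nat_lit 8) (.nd (nat_lit 9) 
(.lf (nat_lit 589901) (.g (nat_lit 2828) (.e (nat_lit 532504) (nat_lit 1) (.e (nat_lit 57851) (nat_lit 252) (.e (nat_lit 57406) (nat_lit 12) (.e (nat_lit 336456) (nat_lit 34) (.e (nat_lit 483383) (nat_lit 23) (.e (nat_lit 336258) (nat_lit 15) (.e (nat_lit 3244) (nat_lit 197) .nil))))))) (.g (nat_lit 1) (.e (nat_lit 397025) (nat_lit 0) .nil) .nil))) 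
(.lf (nat_lit 590413) (.g (nat_lit 1358) (.e (nat_lit 532514) (nat_lit 3) (.e (nat_lit 114716) (nat_lit 22) (.e (nat_lit 90185) (nat_lit 17) (.e (nat_lit 237587) (nat_lit 2) (.e (nat_lit 204544) (nat_lit 2) .nil))))) (.g (nat_lit 0) (.e (nat_lit 397916) (nat_lit 0) .nil) .nil)))) (.nd (nat_lit 9) 
(.lf (nat_lit 590157) (.g (nat_lit 1670) (.e (nat_lit 532513) (nat_lit 3) (.e (nat_lit 114698) (nat_lit 11) (.e (nat_lit 426123) (nat_lit 2) (.e (nat_lit 196674) (nat_lit 15) .nil)))) (.g (nat_lit 0) (.e (nat_lit 397373) (nat_lit 0) .nil) .nil))) 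
(.lf (nat_lit 590669) (.g (nat_lit 3192) (.e (nat_lit 532522) (nat_lit 7) (.e (nat_lit 319536) (nat_lit 17) (.e (nat_lit 294927) (nat_lit 2) (.e (nat_lit 90170) (nat_lit 13) (.e (nat_lit 172106) (nat_lit 10) (.e (nat_lit 434231) (nat_lit 23) .nil)))))) (.g (nat_lit 1) (.e (nat_lit 398729) (nat_lit 0) .nil) .nil))))) (.nd (nat_lit 8) (.nd (nat_lit 9) 
(.lf (nat_lit 590029) (.g (nat_lit 1393) (.e (nat_lit 532506) (nat_lit 2) (.e (nat_lit 106536) (nat_lit 11) (.e (nat_lit 16416) (nat_lit 3) (.e (nat_lit 204859) (nat_lit 26) .nil)))) (.g (nat_lit 0) (.e (nat_lit 397175) (nat_lit 0) .nil) .nil))) 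
(.lf (nat_lit 590541) (.g (nat_lit 4126) (.e (nat_lit 532515) (nat_lit 3) (.e (nat_lit 114716) (nat_lit 22) (.e (nat_lit 90174) (nat_lit 14) (.e (nat_lit 180243) (nat_lit 5) (.e (nat_lit 532503) (nat_lit 1) (.e (nat_lit 57687) (nat_lit 156) (.e (nat_lit 163843) (nat_lit 0) (.e (nat_lit 3248) (nat_lit 197) .nil)))))))) (.g (nat_lit 1) (.e (nat_lit 398399) (nat_lit 0) .nil) .nil)))) 
(.nd (nat_lit 9) 
(.lf (nat_lit 590285) (.g (nat_lit 2778) (.e (nat_lit 532513) (nat_lit 3) (.e (nat_lit 114714) (nat_lit 22) (.e (nat_lit 90172) (nat_lit 14) (.e (nat_lit 180250) (nat_lit 10) (.e (nat_lit 573473) (nat_lit 12) (.e (nat_lit 57504) (nat_lit 38) (.e (nat_lit 639002) (nat_lit 11) (.e (nat_lit 229433) (nat_lit 25) .nil)))))))) (.g (nat_lit 1) (.e (nat_lit 397608) (nat_lit 0) .nil) .nil))) 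
(.lf (nat_lit 590797) (.g (nat_lit 2766) (.e (nat_lit 532523) (nat_lit 7) (.e (nat_lit 319533) (nat_lit 16) (.e (nat_lit 286735) (nat_lit 3) (.e (nat_lit 98321) (nat_lit 17) (.e (nat_lit 7936) (nat_lit 393) .nil))))) (.g (nat_lit 0) (.e (nat_lit 398896) (nat_lit 0) .nil) .nil))))))) (.nd (nat_lit 6) (.nd (nat_lit 7) (.nd (nat_lit 8) (.nd (nat_lit 9) 
(.lf (nat_lit 589869) (.g (nat_lit 2378) (.e (nat_lit 532504) (nat_lit 1) (.e (nat_lit 57851) (nat_lit 252) (.e (nat_lit 57406) (nat_lit 12) (.e (nat_lit 336367) (nat_lit 27) (.e (nat_lit 426555) (nat_lit 32) (.e (nat_lit 376832) (nat_lit 0) (.e (nat_lit 3249) (nat_lit 197) .nil))))))) (.g (nat_lit 1) (.e (nat_lit 396993) (nat_lit 0) .nil) .nil))) 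
(.lf (nat_lit 590381) (.g (nat_lit 2331) (.e (nat_lit 532513) (nat_lit 3) (.e (nat_lit 114719) (nat_lit 23) (.e (nat_lit 98384) (nat_lit 32) (.e (nat_lit 475177) (nat_lit 24) (.e (nat_lit 516117) (nat_lit 1) (.e (nat_lit 164304) (nat_lit 226) (.e (nat_lit 2612) (nat_lit 163) (.e (nat_lit 163964) (nat_lit 25) .nil)))))))) (.g (nat_lit 1) (.e (nat_lit 397771) (nat_lit 0) .nil) .nil)))) 
(.nd (nat_lit 9) 
(.lf (nat_lit 590125) (.g (nat_lit 1853) (.e (nat_lit 532511) (nat_lit 2) (.e (nat_lit 106536) (nat_lit 11) (.e (nat_lit 16412) (nat_lit 2) (.e (nat_lit 196672) (nat_lit 15) (.e (nat_lit 89856) (nat_lit 0) (.e (nat_lit 3249) (nat_lit 197) .nil)))))) (.g (nat_lit 1) (.e (nat_lit 397305) (nat_lit 0) .nil) .nil))) 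
(.lf (nat_lit 590637) (.g (nat_lit 2212) (.e (nat_lit 532522) (nat_lit 7) (.e (nat_lit 319490) (nat_lit 0) (.e (nat_lit 5664) (nat_lit 312) (.e (nat_lit 2679) (nat_lit 168) .nil)))) (.g (nat_lit 0) (.e (nat_lit 398690) (nat_lit 0) .nil) .nil))))) (.nd (nat_lit 8) (.nd (nat_lit 9) 
(.lf (nat_lit 589997) (.g (nat_lit 3206) (.e (nat_lit 532504) (nat_lit 1) (.e (nat_lit 57931) (nat_lit 282) (.e (nat_lit 163867) (nat_lit 2) (.e (nat_lit 196670) (nat_lit 14) (.e (nat_lit 73746) (nat_lit 3) (.e (nat_lit 516129) (nat_lit 3) (.e (nat_lit 221196) (nat_lit 20) (.e (nat_lit 3248) (nat_lit 197) .nil)))))))) (.g (nat_lit 1) (.e (nat_lit 397137) (nat_lit 0) .nil) .nil))) 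
(.lf (nat_lit 590509) (.g (nat_lit 1725) (.e (nat_lit 532515) (nat_lit 3) (.e (nat_lit 114716) (nat_lit 22) (.e (nat_lit 90170) (nat_lit 13) (.e (nat_lit 172064) (nat_lit 2) .nil)))) (.g (nat_lit 0) (.e (nat_lit 398176) (nat_lit 0) .nil) .nil)))) (.nd (nat_lit 9) 
(.lf (nat_lit 590253) (.g (nat_lit 2245) (.e (nat_lit 532513) (nat_lit 3) (.e (nat_lit 114714) (nat_lit 22) (.e (nat_lit 90172) (nat_lit 14) (.e (nat_lit 180244) (nat_lit 5) (.e (nat_lit 532501) (nat_lit 1) (.e (nat_lit 57685) (nat_lit 156) (.e (nat_lit 163850) (nat_lit 0) (.e (nat_lit 3252) (nat_lit 197) .nil)))))))) (.g (nat_lit 1) (.e (nat_lit 397567) (nat_lit 0) .nil) .nil))) 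
(.lf (nat_lit 590765) (.g (nat_lit 2271) (.e (nat_lit 532523) (nat_lit 7) (.e (nat_lit 319532) (nat_lit 16) (.e (nat_lit 286734) (nat_lit 3) (.e (nat_lit 98358) (nat_lit 26) (.e (nat_lit 426272) (nat_lit 10) .nil))))) (.g (nat_lit 0) (.e (nat_lit 398851) (nat_lit 0) .nil) .nil)))))) (.nd (nat_lit 7) (.nd (nat_lit 8) (.nd (nat_lit 9) 
(.lf (nat_lit 589933) (.g (nat_lit 3955) (.e (nat_lit 532504) (nat_lit 1) (.e (nat_lit 57852) (nat_lit 252) (.e (nat_lit 57361) (nat_lit 0) (.e (nat_lit 1855) (nat_lit 124) (.e (nat_lit 557105) (nat_lit 14) (.e (nat_lit 180252) (nat_lit 10) (.e (nat_lit 573481) (nat_lit 13) (.e (nat_lit 65637) (nat_lit 15) (.e (nat_lit 3253) (nat_lit 197) .nil))))))))) (.g (nat_lit 1) (.e (nat_lit 397057) (nat_lit 0) .nil) .nil))) 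
(.lf (nat_lit 590445) (.g (nat_lit 2476) (.e (nat_lit 532514) (nat_lit 3) (.e (nat_lit 114719) (nat_lit 23) (.e (nat_lit 98356) (nat_lit 26) (.e (nat_lit 426438) (nat_lit 18) (.e (nat_lit 98334) (nat_lit 18) (.e (nat_lit 164305) (nat_lit 226) (.e (nat_lit 2612) (nat_lit 163) (.e (nat_lit 163961) (nat_lit 25) .nil)))))))) (.g (nat_lit 1) (.e (nat_lit 397952) (nat_lit 0) .nil) .nil)))) 
(.nd (nat_lit 9) 
(.lf (nat_lit 590189) (.g (nat_lit 2727) (.e (nat_lit 532513) (nat_lit 3) (.e (nat_lit 114714) (nat_lit 22) (.e (nat_lit 90170) (nat_lit 13) (.e (nat_lit 172065) (nat_lit 3) (.e (nat_lit 204830) (nat_lit 18) (.e (nat_lit 57663) (nat_lit 152) (.e (nat_lit 2717) (nat_lit 171) (.e (nat_lit 229434) (nat_lit 25) .nil)))))))) (.g (nat_lit 1) (.e (nat_lit 397479) (nat_lit 0) .nil) .nil))) 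
(.lf (nat_lit 590701) (.g (nat_lit 2965) (.e (nat_lit 532523) (nat_lit 7) (.e (nat_lit 319529) (nat_lit 16) (.e (nat_lit 286735) (nat_lit 3) (.e (nat_lit 98350) (nat_lit 24) (.e (nat_lit 409603) (nat_lit 0) .nil))))) (.g (nat_lit 0) (.e (nat_lit 398780) (nat_lit 0) .nil) .nil))))) (.nd (nat_lit 8) (.nd (nat_lit 9) 
(.lf (nat_lit 590061) (.g (nat_lit 3214) (.e (nat_lit 532508) (nat_lit 2) (.e (nat_lit 106536) (nat_lit 11) (.e (nat_lit 16416) (nat_lit 3) (.e (nat_lit 204852) (nat_lit 26) (.e (nat_lit 336208) (nat_lit 12) .nil))))) (.g (nat_lit 0) (.e (nat_lit 397227) (nat_lit 0) .nil) .nil))) 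
(.lf (nat_lit 590573) (.g (nat_lit 1734) (.e (nat_lit 532515) (nat_lit 3) (.e (nat_lit 114719) (nat_lit 23) (.e (nat_lit 98333) (nat_lit 18) (.e (nat_lit 164399) (nat_lit 256) (.e (nat_lit 57372) (nat_lit 2) .nil))))) (.g (nat_lit 0) (.e (nat_lit 398522) (nat_lit 0) .nil) .nil)))) (.nd (nat_lit 9) 
(.lf (nat_lit 590317) (.g (nat_lit 2357) (.e (nat_lit 532513) (nat_lit 3) (.e (nat_lit 114714) (nat_lit 22) (.e (nat_lit 90174) (nat_lit 14) (.e (nat_lit 180243) (nat_lit 5) (.e (nat_lit 532501) (nat_lit 1) (.e (nat_lit 57669) (nat_lit 152) (.e (nat_lit 2715) (nat_lit 171) (.e (nat_lit 229433) (nat_lit 25) .nil)))))))) (.g (nat_lit 1) (.e (nat_lit 397648) (nat_lit 0) .nil) .nil))) 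
(.lf (nat_lit 590829) (.g (nat_lit 1684) (.e (nat_lit 532523) (nat_lit 7) (.e (nat_lit 319534) (nat_lit 16) (.e (nat_lit 286728) (nat_lit 0) (.e (nat_lit 1698) (nat_lit 117) (.e (nat_lit 499913) (nat_lit 9) .nil))))) (.g (nat_lit 0) (.e (nat_lit 398929) (nat_lit 0) .nil) .nil)))))))) (.nd (nat_lit 5) (.nd (nat_lit 6) (.nd (nat_lit 7) (.nd (nat_lit 8) (.nd (nat_lit 9) 
(.lf (nat_lit 589853) (.g (nat_lit 1122) (.e (nat_lit 532504) (nat_lit 1) (.e (nat_lit 57829) (nat_lit 250) (.e (nat_lit 1201) (nat_lit 88) (.e (nat_lit 65639) (nat_lit 15) .nil)))) (.g (nat_lit 0) (.e (nat_lit 396976) (nat_lit 0) .nil) .nil))) 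
(.lf (nat_lit 590365) (.g (nat_lit 1199) (.e (nat_lit 532513) (nat_lit 3) (.e (nat_lit 114719) (nat_lit 23) (.e (nat_lit 98334) (nat_lit 18) (.e (nat_lit 164398) (nat_lit 256) .nil)))) (.g (nat_lit 0) (.e (nat_lit 397729) (nat_lit 0) .nil) .nil)))) (.nd (nat_lit 9) 
(.lf (nat_lit 590109) (.g (nat_lit 1050) (.e (nat_lit 532511) (nat_lit 2) (.e (nat_lit 106534) (nat_lit 11) (.e (nat_lit 16413) (nat_lit 2) (.e (nat_lit 196672) (nat_lit 15) (.e (nat_lit 89856) (nat_lit 0) (.e (nat_lit 3233) (nat_lit 197) .nil)))))) (.g (nat_lit 1) (.e (nat_lit 397287) (nat_lit 0) .nil) .nil))) 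
(.lf (nat_lit 590621) (.g (nat_lit 565) (.e (nat_lit 532515) (nat_lit 3) (.e (nat_lit 114719) (nat_lit 23) (.e (nat_lit 98383) (nat_lit 32) .nil))) (.g (nat_lit 0) (.e (nat_lit 398640) (nat_lit 0) .nil) .nil))))) (.nd (nat_lit 8) (.nd (nat_lit 9) 
(.lf (nat_lit 589981) (.g (nat_lit 3634) (.e (nat_lit 532504) (nat_lit 1) (.e (nat_lit 57854) (nat_lit 252) (.e (nat_lit 57409) (nat_lit 12) (.e (nat_lit 336454) (nat_lit 34) (.e (nat_lit 483385) (nat_lit 23) (.e (nat_lit 336260) (nat_lit 15) (.e (nat_lit 3251) (nat_lit 197) .nil))))))) (.g (nat_lit 1) (.e (nat_lit 397116) (nat_lit 0) .nil) .nil))) 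
(.lf (nat_lit 590493) (.g (nat_lit 1345) (.e (nat_lit 532515) (nat_lit 3) (.e (nat_lit 114714) (nat_lit 22) (.e (nat_lit 90174) (nat_lit 14) (.e (nat_lit 180243) (nat_lit 5) .nil)))) (.g (nat_lit 0) (.e (nat_lit 398105) (nat_lit 0) .nil) .nil)))) (.nd (nat_lit 9) 
(.lf (nat_lit 590237) (.g (nat_lit 2373) (.e (nat_lit 532513) (nat_lit 3) (.e (nat_lit 114714) (nat_lit 22) (.e (nat_lit 90172) (nat_lit 14) (.e (nat_lit 180244) (nat_lit 5) (.e (nat_lit 532499) (nat_lit 1) (.e (nat_lit 57686) (nat_lit 156) (.e (nat_lit 163843) (nat_lit 0) (.e (nat_lit 3248) (nat_lit 197) .nil)))))))) (.g (nat_lit 1) (.e (nat_lit 397545) (nat_lit 0) .nil) .nil))) 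
(.lf (nat_lit 590749) (.g (nat_lit 1290) (.e (nat_lit 532523) (nat_lit 7) (.e (nat_lit 319531) (nat_lit 16) (.e (nat_lit 286735) (nat_lit 3) (.e (nat_lit 98365) (nat_lit 26) .nil)))) (.g (nat_lit 0) (.e (nat_lit 398834) (nat_lit 0) .nil) .nil)))))) (.nd (nat_lit 7) (.nd (nat_lit 8) (.nd (nat_lit 9) 
(.lf (nat_lit 589917) (.g (nat_lit 1356) (.e (nat_lit 532504) (nat_lit 1) (.e (nat_lit 57851) (nat_lit 252) (.e (nat_lit 57417) (nat_lit 12) (.e (nat_lit 343808) (nat_lit 34) .nil)))) (.g (nat_lit 0) (.e (nat_lit 397041) (nat_lit 0) .nil) .nil))) 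
(.lf (nat_lit 590429) (.g (nat_lit 1816) (.e (nat_lit 532514) (nat_lit 3) (.e (nat_lit 114718) (nat_lit 23) (.e (nat_lit 98384) (nat_lit 32) (.e (nat_lit 475169) (nat_lit 22) .nil)))) (.g (nat_lit 0) (.e (nat_lit 397935) (nat_lit 0) .nil) .nil)))) (.nd (nat_lit 9) 
(.lf (nat_lit 590173) (.g (nat_lit 1555) (.e (nat_lit 532513) (nat_lit 3) (.e (nat_lit 114708) (nat_lit 20) (.e (nat_lit 1800) (nat_lit 119) (.e (nat_lit 516115) (nat_lit 1) (.e (nat_lit 164397) (nat_lit 256) .nil))))) (.g (nat_lit 0) (.e (nat_lit 397437) (nat_lit 0) .nil) .nil))) 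
(.lf (nat_lit 590685) (.g (nat_lit 1778) (.e (nat_lit 532523) (nat_lit 7) (.e (nat_lit 319528) (nat_lit 16) (.e (nat_lit 286733) (nat_lit 2) (.e (nat_lit 90178) (nat_lit 15) (.e (nat_lit 196352) (nat_lit 20) .nil))))) (.g (nat_lit 0) (.e (nat_lit 398761) (nat_lit 0) .nil) .nil))))) (.nd (nat_lit 8) (.nd (nat_lit 9) 
(.lf (nat_lit 590045) (.g (nat_lit 1441) (.e (nat_lit 532508) (nat_lit 2) (.e (nat_lit 106534) (nat_lit 11) (.e (nat_lit 16412) (nat_lit 2) (.e (nat_lit 196674) (nat_lit 15) (.e (nat_lit 89856) (nat_lit 0) .nil))))) (.g (nat_lit 0) (.e (nat_lit 397207) (nat_lit 0) .nil) .nil))) 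
(.lf (nat_lit 590557) (.g (nat_lit 437) (.e (nat_lit 532515) (nat_lit 3) (.e (nat_lit 114718) (nat_lit 23) (.e (nat_lit 98334) (nat_lit 18) .nil))) (.g (nat_lit 0) (.e (nat_lit 398481) (nat_lit 0) .nil) .nil)))) (.nd (nat_lit 9) 
(.lf (nat_lit 590301) (.g (nat_lit 3975) (.e (nat_lit 532513) (nat_lit 3) (.e (nat_lit 114714) (nat_lit 22) (.e (nat_lit 90174) (nat_lit 14) (.e (nat_lit 180243) (nat_lit 5) (.e (nat_lit 532499) (nat_lit 1) (.e (nat_lit 57688) (nat_lit 156) (.e (nat_lit 163850) (nat_lit 0) (.e (nat_lit 3252) (nat_lit 197) .nil)))))))) (.g (nat_lit 1) (.e (nat_lit 397629) (nat_lit 0) .nil) .nil))) 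
(.lf (nat_lit 590813) (.g (nat_lit 2418) (.e (nat_lit 532523) (nat_lit 7) (.e (nat_lit 319533) (nat_lit 16) (.e (nat_lit 286735) (nat_lit 3) (.e (nat_lit 98369) (nat_lit 28) (.e (nat_lit 442417) (nat_lit 20) .nil))))) (.g (nat_lit 0) (.e (nat_lit 398912) (nat_lit 0) .nil) .nil))))))) (.nd (nat_lit 6) (.nd (nat_lit 7) (.nd (nat_lit 8) (.nd (nat_lit 9) 
(.lf (nat_lit 589885) (.g (nat_lit 2932) (.e (nat_lit 532504) (nat_lit 1) (.e (nat_lit 57851) (nat_lit 252) (.e (nat_lit 57406) (nat_lit 12) (.e (nat_lit 336456) (nat_lit 34) (.e (nat_lit 483379) (nat_lit 23) (.e (nat_lit 336261) (nat_lit 15) (.e (nat_lit 3254) (nat_lit 197) .nil))))))) (.g (nat_lit 1) (.e (nat_lit 397009) (nat_lit 0) .nil) .nil))) 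
(.lf (nat_lit 590397) (.g (nat_lit 2639) (.e (nat_lit 532514) (nat_lit 3) (.e (nat_lit 114711) (nat_lit 21) (.e (nat_lit 57688) (nat_lit 156) (.e (nat_lit 163868) (nat_lit 2) (.e (nat_lit 196691) (nat_lit 18) .nil))))) (.g (nat_lit 0) (.e (nat_lit 397868) (nat_lit 0) .nil) .nil)))) (.nd (nat_lit 9) 
(.lf (nat_lit 590141) (.g (nat_lit 1728) (.e (nat_lit 532513) (nat_lit 3) (.e (nat_lit 114697) (nat_lit 11) (.e (nat_lit 426122) (nat_lit 2) (.e (nat_lit 196672) (nat_lit 15) (.e (nat_lit 81922) (nat_lit 0) (.e (nat_lit 3253) (nat_lit 197) .nil)))))) (.g (nat_lit 1) (.e (nat_lit 397328) (nat_lit 0) .nil) .nil))) 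
(.lf (nat_lit 590653) (.g (nat_lit 1401) (.e (nat_lit 532522) (nat_lit 7) (.e (nat_lit 319530) (nat_lit 16) (.e (nat_lit 286735) (nat_lit 3) (.e (nat_lit 106240) (nat_lit 26) .nil)))) (.g (nat_lit 0) (.e (nat_lit 398708) (nat_lit 0) .nil) .nil))))) (.nd (nat_lit 8) (.nd (nat_lit 9) 
(.lf (nat_lit 590013) (.g (nat_lit 3774) (.e (nat_lit 532504) (nat_lit 1) (.e (nat_lit 57931) (nat_lit 282) (.e (nat_lit 163884) (nat_lit 5) (.e (nat_lit 221210) (nat_lit 22) (.e (nat_lit 196656) (nat_lit 11) (.e (nat_lit 16425) (nat_lit 7) (.e (nat_lit 409617) (nat_lit 10) (.e (nat_lit 604) (nat_lit 45) .nil)))))))) (.g (nat_lit 1) (.e (nat_lit 397155) (nat_lit 0) .nil) .nil))) 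
(.lf (nat_lit 590525) (.g (nat_lit 2085) (.e (nat_lit 532515) (nat_lit 3) (.e (nat_lit 114716) (nat_lit 22) (.e (nat_lit 90172) (nat_lit 14) (.e (nat_lit 180244) (nat_lit 5) (.e (nat_lit 532503) (nat_lit 1) (.e (nat_lit 57686) (nat_lit 156) (.e (nat_lit 163843) (nat_lit 0) (.e (nat_lit 3248) (nat_lit 197) .nil)))))))) (.g (nat_lit 1) (.e (nat_lit 398287) (nat_lit 0) .nil) .nil)))) 
(.nd (nat_lit 9) 
(.lf (nat_lit 590269) (.g (nat_lit 3071) (.e (nat_lit 532513) (nat_lit 3) (.e (nat_lit 114714) (nat_lit 22) (.e (nat_lit 90172) (nat_lit 14) (.e (nat_lit 180244) (nat_lit 5) (.e (nat_lit 532503) (nat_lit 1) (.e (nat_lit 57687) (nat_lit 156) (.e (nat_lit 163843) (nat_lit 0) (.e (nat_lit 3248) (nat_lit 197) .nil)))))))) (.g (nat_lit 1) (.e (nat_lit 397591) (nat_lit 0) .nil) .nil))) 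
(.lf (nat_lit 590781) (.g (nat_lit 4221) (.e (nat_lit 532523) (nat_lit 7) (.e (nat_lit 319533) (nat_lit 16) (.e (nat_lit 286733) (nat_lit 2) (.e (nat_lit 90176) (nat_lit 15) (.e (nat_lit 188437) (nat_lit 20) (.e (nat_lit 3238) (nat_lit 197) .nil)))))) (.g (nat_lit 1) (.e (nat_lit 398880) (nat_lit 0) .nil) .nil)))))) (.nd (nat_lit 7) (.nd (nat_lit 8) (.nd (nat_lit 9) 
(.lf (nat_lit 589949) (.g (nat_lit 2902) (.e (nat_lit 532504) (nat_lit 1) (.e (nat_lit 57852) (nat_lit 252) (.e (nat_lit 57406) (nat_lit 12) (.e (nat_lit 336454) (nat_lit 34) (.e (nat_lit 483385) (nat_lit 23) (.e (nat_lit 336260) (nat_lit 15) (.e (nat_lit 3255) (nat_lit 197) .nil))))))) (.g (nat_lit 1) (.e (nat_lit 397074) (nat_lit 0) .nil) .nil))) 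
(.lf (nat_lit 590461) (.g (nat_lit 1965) (.e (nat_lit 532515) (nat_lit 3) (.e (nat_lit 114694) (nat_lit 11) (.e (nat_lit 426139) (nat_lit 3) (.e (nat_lit 204861) (nat_lit 26) (.e (nat_lit 336194) (nat_lit 12) (.e (nat_lit 385064) (nat_lit 26) .nil)))))) (.g (nat_lit 1) (.e (nat_lit 397982) (nat_lit 0) .nil) .nil)))) (.nd (nat_lit 9) 
(.lf (nat_lit 590205) (.g (nat_lit 2455) (.e (nat_lit 532513) (nat_lit 3) (.e (nat_lit 114714) (nat_lit 22) (.e (nat_lit 90172) (nat_lit 14) (.e (nat_lit 180243) (nat_lit 5) (.e (nat_lit 532501) (nat_lit 1) (.e (nat_lit 57662) (nat_lit 152) (.e (nat_lit 2716) (nat_lit 171) (.e (nat_lit 229433) (nat_lit 25) .nil)))))))) (.g (nat_lit 1) (.e (nat_lit 397503) (nat_lit 0) .nil) .nil))) 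
(.lf (nat_lit 590717) (.g (nat_lit 3396) (.e (nat_lit 532523) (nat_lit 7) (.e (nat_lit 319530) (nat_lit 16) (.e (nat_lit 286735) (nat_lit 3) (.e (nat_lit 98350) (nat_lit 24) (.e (nat_lit 409603) (nat_lit 0) (.e (nat_lit 5761) (nat_lit 315) (.e (nat_lit 163962) (nat_lit 25) .nil))))))) (.g (nat_lit 1) (.e (nat_lit 398798) (nat_lit 0) .nil) .nil))))) (.nd (nat_lit 8) (.nd (nat_lit 9) 
(.lf (nat_lit 590077) (.g (nat_lit 1906) (.e (nat_lit 532510) (nat_lit 2) (.e (nat_lit 106534) (nat_lit 11) (.e (nat_lit 16415) (nat_lit 3) (.e (nat_lit 204861) (nat_lit 26) (.e (nat_lit 336195) (nat_lit 12) .nil))))) (.g (nat_lit 0) (.e (nat_lit 397247) (nat_lit 0) .nil) .nil))) 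
(.lf (nat_lit 590589) (.g (nat_lit 3327) (.e (nat_lit 532515) (nat_lit 3) (.e (nat_lit 114719) (nat_lit 23) (.e (nat_lit 98356) (nat_lit 26) (.e (nat_lit 426438) (nat_lit 18) (.e (nat_lit 98335) (nat_lit 18) (.e (nat_lit 164330) (nat_lit 230) (.e (nat_lit 163857) (nat_lit 0) (.e (nat_lit 3253) (nat_lit 197) .nil)))))))) (.g (nat_lit 1) (.e (nat_lit 398558) (nat_lit 0) .nil) .nil)))) 
(.nd (nat_lit 9) 
(.lf (nat_lit 590333) (.g (nat_lit 2636) (.e (nat_lit 532513) (nat_lit 3) (.e (nat_lit 114714) (nat_lit 22) (.e (nat_lit 90174) (nat_lit 14) (.e (nat_lit 180243) (nat_lit 5) (.e (nat_lit 532504) (nat_lit 1) (.e (nat_lit 57663) (nat_lit 152) (.e (nat_lit 2717) (nat_lit 171) (.e (nat_lit 229432) (nat_lit 25) .nil)))))))) (.g (nat_lit 1) (.e (nat_lit 397668) (nat_lit 0) .nil) .nil))) 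
(.lf (nat_lit 590845) (.g (nat_lit 1760) (.e (nat_lit 532523) (nat_lit 7) (.e (nat_lit 319534) (nat_lit 16) (.e (nat_lit 286734) (nat_lit 3) (.e (nat_lit 98319) (nat_lit 17) .nil)))) (.g (nat_lit 0) (.e (nat_lit 398957) (nat_lit 0) .nil) .nil))))))))))) (.nd (nat_lit 2) (.nd (nat_lit 3) (.nd (nat_lit 4) (.nd (nat_lit 5) (.nd (nat_lit 6) (.nd (nat_lit 7) (.nd (nat_lit 8) (.nd (nat_lit 9) 
(.lf (nat_lit 589827) (.g (nat_lit 4206) (.e (nat_lit 532503) (nat_lit 1) (.e (nat_lit 57931) (nat_lit 282) (.e (nat_lit 163885) (nat_lit 5) (.e (nat_lit 221212) (nat_lit 22) (.e (nat_lit 196656) (nat_lit 11) (.e (nat_lit 16425) (nat_lit 7) (.e (nat_lit 409616) (nat_lit 10) (.e (nat_lit 604) (nat_lit 45) .nil)))))))) (.g (nat_lit 1) (.e (nat_lit 396928) (nat_lit 0) .nil) .nil))) 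
(.lf (nat_lit 590339) (.g (nat_lit 3775) (.e (nat_lit 532513) (nat_lit 3) (.e (nat_lit 114714) (nat_lit 22) (.e (nat_lit 90174) (nat_lit 14) (.e (nat_lit 180243) (nat_lit 5) (.e (nat_lit 532504) (nat_lit 1) (.e (nat_lit 57665) (nat_lit 152) (.e (nat_lit 2715) (nat_lit 171) (.e (nat_lit 229433) (nat_lit 25) .nil)))))))) (.g (nat_lit 1) (.e (nat_lit 397675) (nat_lit 0) .nil) .nil)))) 
(.nd (nat_lit 9) 
(.lf (nat_lit 590083) (.g (nat_lit 2098) (.e (nat_lit 532510) (nat_lit 2) (.e (nat_lit 106536) (nat_lit 11) (.e (nat_lit 16410) (nat_lit 2) (.e (nat_lit 196681) (nat_lit 17) (.e (nat_lit 131122) (nat_lit 12) .nil))))) (.g (nat_lit 0) (.e (nat_lit 397255) (nat_lit 0) .nil) .nil))) 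
(.lf (nat_lit 590595) (.g (nat_lit 1699) (.e (nat_lit 532515) (nat_lit 3) (.e (nat_lit 114719) (nat_lit 23) (.e (nat_lit 98365) (nat_lit 26) (.e (nat_lit 426114) (nat_lit 2) .nil)))) (.g (nat_lit 0) (.e (nat_lit 398567) (nat_lit 0) .nil) .nil))))) (.nd (nat_lit 8) (.nd (nat_lit 9) 
(.lf (nat_lit 589955) (.g (nat_lit 3303) (.e (nat_lit 532504) (nat_lit 1) (.e (nat_lit 57852) (nat_lit 252) (.e (nat_lit 57406) (nat_lit 12) (.e (nat_lit 336456) (nat_lit 34) (.e (nat_lit 483393) (nat_lit 23) (.e (nat_lit 336291) (nat_lit 15) (.e (nat_lit 3253) (nat_lit 197) .nil))))))) (.g (nat_lit 1) (.e (nat_lit 397080) (nat_lit 0) .nil) .nil))) 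
(.lf (nat_lit 590467) (.g (nat_lit 308) (.e (nat_lit 532515) (nat_lit 3) (.e (nat_lit 114697) (nat_lit 11) (.e (nat_lit 426137) (nat_lit 3) .nil))) (.g (nat_lit 0) (.e (nat_lit 398018) (nat_lit 0) .nil) .nil)))) (.nd (nat_lit 9) 
(.lf (nat_lit 590211) (.g (nat_lit 3258) (.e (nat_lit 532513) (nat_lit 3) (.e (nat_lit 114714) (nat_lit 22) (.e (nat_lit 90172) (nat_lit 14) (.e (nat_lit 180243) (nat_lit 5) (.e (nat_lit 532501) (nat_lit 1) (.e (nat_lit 57665) (nat_lit 152) (.e (nat_lit 2715) (nat_lit 171) (.e (nat_lit 229433) (nat_lit 25) .nil)))))))) (.g (nat_lit 1) (.e (nat_lit 397510) (nat_lit 0) .nil) .nil))) 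
(.lf (nat_lit 590723) (.g (nat_lit 1323) (.e (nat_lit 532523) (nat_lit 7) (.e (nat_lit 319530) (nat_lit 16) (.e (nat_lit 286735) (nat_lit 3) (.e (nat_lit 106240) (nat_lit 29) .nil)))) (.g (nat_lit 0) (.e (nat_lit 398804) (nat_lit 0) .nil) .nil)))))) (.nd (nat_lit 7) (.nd (nat_lit 8) (.nd (nat_lit 9) 
(.lf (nat_lit 589891) (.g (nat_lit 2603) (.e (nat_lit 532504) (nat_lit 1) (.e (nat_lit 57851) (nat_lit 252) (.e (nat_lit 57406) (nat_lit 12) (.e (nat_lit 336456) (nat_lit 34) (.e (nat_lit 483383) (nat_lit 23) (.e (nat_lit 336238) (nat_lit 15) (.e (nat_lit 3248) (nat_lit 197) .nil))))))) (.g (nat_lit 1) (.e (nat_lit 397015) (nat_lit 0) .nil) .nil))) 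
(.lf (nat_lit 590403) (.g (nat_lit 1925) (.e (nat_lit 532514) (nat_lit 3) (.e (nat_lit 114715) (nat_lit 22) (.e (nat_lit 90170) (nat_lit 13) (.e (nat_lit 172065) (nat_lit 3) (.e (nat_lit 204830) (nat_lit 18) (.e (nat_lit 57663) (nat_lit 152) (.e (nat_lit 2717) (nat_lit 171) (.e (nat_lit 229432) (nat_lit 25) .nil)))))))) (.g (nat_lit 1) (.e (nat_lit 397880) (nat_lit 0) .nil) .nil)))) 
(.nd (nat_lit 9) 
(.lf (nat_lit 590147) (.g (nat_lit 399) (.e (nat_lit 532513) (nat_lit 3) (.e (nat_lit 114698) (nat_lit 11) (.e (nat_lit 426114) (nat_lit 2) .nil))) (.g (nat_lit 0) (.e (nat_lit 397343) (nat_lit 0) .nil) .nil))) 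
(.lf (nat_lit 590659) (.g (nat_lit 3404) (.e (nat_lit 532522) (nat_lit 7) (.e (nat_lit 319531) (nat_lit 16) (.e (nat_lit 286733) (nat_lit 2) (.e (nat_lit 90134) (nat_lit 9) (.e (nat_lit 3025) (nat_lit 187) (.e (nat_lit 450578) (nat_lit 5) .nil)))))) (.g (nat_lit 1) (.e (nat_lit 398717) (nat_lit 0) .nil) .nil))))) (.nd (nat_lit 8) (.nd (nat_lit 9) 
(.lf (nat_lit 590019) (.g (nat_lit 2580) (.e (nat_lit 532505) (nat_lit 2) (.e (nat_lit 106536) (nat_lit 11) (.e (nat_lit 16412) (nat_lit 2) (.e (nat_lit 196681) (nat_lit 17) .nil)))) (.g (nat_lit 0) (.e (nat_lit 397162) (nat_lit 0) .nil) .nil))) 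
(.lf (nat_lit 590531) (.g (nat_lit 2340) (.e (nat_lit 532515) (nat_lit 3) (.e (nat_lit 114716) (nat_lit 22) (.e (nat_lit 90172) (nat_lit 14) (.e (nat_lit 180244) (nat_lit 5) (.e (nat_lit 532575) (nat_lit 17) (.e (nat_lit 7106) (nat_lit 380) (.e (nat_lit 171776) (nat_lit 86) .nil))))))) (.g (nat_lit 1) (.e (nat_lit 398313) (nat_lit 0) .nil) .nil)))) (.nd (nat_lit 9) 
(.lf (nat_lit 590275) (.g (nat_lit 3153) (.e (nat_lit 532513) (nat_lit 3) (.e (nat_lit 114714) (nat_lit 22) (.e (nat_lit 90172) (nat_lit 14) (.e (nat_lit 180244) (nat_lit 5) (.e (nat_lit 532504) (nat_lit 1) (.e (nat_lit 57663) (nat_lit 152) (.e (nat_lit 7936) (nat_lit 163) (.e (nat_lit 163962) (nat_lit 25) .nil)))))))) (.g (nat_lit 1) (.e (nat_lit 397598) (nat_lit 0) .nil) .nil))) 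
(.lf (nat_lit 590787) (.g (nat_lit 4204) (.e (nat_lit 532523) (nat_lit 7) (.e (nat_lit 319533) (nat_lit 16) (.e (nat_lit 286733) (nat_lit 2) (.e (nat_lit 90178) (nat_lit 15) (.e (nat_lit 188441) (nat_lit 20) (.e (nat_lit 3238) (nat_lit 197) .nil)))))) (.g (nat_lit 1) (.e (nat_lit 398886) (nat_lit 0) .nil) .nil))))))) (.nd (nat_lit 6) (.nd (nat_lit 7) (.nd (nat_lit 8) (.nd (nat_lit 9) 
(.lf (nat_lit 589859) (.g (nat_lit 2767) (.e (nat_lit 532504) (nat_lit 1) (.e (nat_lit 57851) (nat_lit 252) (.e (nat_lit 57371) (nat_lit 2) (.e (nat_lit 90160) (nat_lit 11) (.e (nat_lit 24608) (nat_lit 3) (.e (nat_lit 98337) (nat_lit 19) (.e (nat_lit 213035) (nat_lit 12) (.e (nat_lit 163963) (nat_lit 25) .nil)))))))) (.g (nat_lit 1) (.e (nat_lit 396982) (nat_lit 0) .nil) .nil))) 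
(.lf (nat_lit 590371) (.g (nat_lit 2414) (.e (nat_lit 532513) (nat_lit 3) (.e (nat_lit 114719) (nat_lit 23) (.e (nat_lit 98350) (nat_lit 24) (.e (nat_lit 409617) (nat_lit 10) (.e (nat_lit 632) (nat_lit 50) (.e (nat_lit 573487) (nat_lit 14) (.e (nat_lit 81664) (nat_lit 5) .nil))))))) (.g (nat_lit 1) (.e (nat_lit 397737) (nat_lit 0) .nil) .nil)))) (.nd (nat_lit 9) 
(.lf (nat_lit 590115) (.g (nat_lit 1393) (.e (nat_lit 532511) (nat_lit 2) (.e (nat_lit 106534) (nat_lit 11) (.e (nat_lit 16416) (nat_lit 3) (.e (nat_lit 204865) (nat_lit 28) (.e (nat_lit 352261) (nat_lit 0) .nil))))) (.g (nat_lit 0) (.e (nat_lit 397293) (nat_lit 0) .nil) .nil))) 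
(.lf (nat_lit 590627) (.g (nat_lit 4683) (.e (nat_lit 532515) (nat_lit 3) (.e (nat_lit 114719) (nat_lit 23) (.e (nat_lit 98384) (nat_lit 32) (.e (nat_lit 475179) (nat_lit 24) (.e (nat_lit 516120) (nat_lit 1) (.e (nat_lit 164329) (nat_lit 230) (.e (nat_lit 163850) (nat_lit 0) (.e (nat_lit 3252) (nat_lit 197) .nil)))))))) (.g (nat_lit 1) (.e (nat_lit 398657) (nat_lit 0) .nil) .nil))))) 
(.nd (nat_lit 8) (.nd (nat_lit 9) 
(.lf (nat_lit 589987) (.g (nat_lit 3206) (.e (nat_lit 532504) (nat_lit 1) (.e (nat_lit 57854) (nat_lit 252) (.e (nat_lit 57447) (nat_lit 19) (.e (nat_lit 393229) (nat_lit 9) (.e (nat_lit 336086) (nat_lit 9) (.e (nat_lit 336284) (nat_lit 15) (.e (nat_lit 3249) (nat_lit 197) .nil))))))) (.g (nat_lit 1) (.e (nat_lit 397122) (nat_lit 0) .nil) .nil))) 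
(.lf (nat_lit 590499) (.g (nat_lit 2567) (.e (nat_lit 532515) (nat_lit 3) (.e (nat_lit 114715) (nat_lit 22) (.e (nat_lit 90170) (nat_lit 13) (.e (nat_lit 172138) (nat_lit 15) (.e (nat_lit 1800) (nat_lit 119) .nil))))) (.g (nat_lit 0) (.e (nat_lit 398136) (nat_lit 0) .nil) .nil)))) (.nd (nat_lit 9) 
(.lf (nat_lit 590243) (.g (nat_lit 3951) (.e (nat_lit 532513) (nat_lit 3) (.e (nat_lit 114714) (nat_lit 22) (.e (nat_lit 90172) (nat_lit 14) (.e (nat_lit 180244) (nat_lit 5) (.e (nat_lit 532499) (nat_lit 1) (.e (nat_lit 57694) (nat_lit 157) (.e (nat_lit 229379) (nat_lit 0) (.e (nat_lit 3238) (nat_lit 197) .nil)))))))) (.g (nat_lit 1) (.e (nat_lit 397552) (nat_lit 0) .nil) .nil))) 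
(.lf (nat_lit 590755) (.g (nat_lit 1596) (.e (nat_lit 532523) (nat_lit 7) (.e (nat_lit 319531) (nat_lit 16) (.e (nat_lit 286735) (nat_lit 3) (.e (nat_lit 106240) (nat_lit 29) .nil)))) (.g (nat_lit 0) (.e (nat_lit 398840) (nat_lit 0) .nil) .nil)))))) (.nd (nat_lit 7) (.nd (nat_lit 8) (.nd (nat_lit 9) 
(.lf (nat_lit 589923) (.g (nat_lit 4986) (.e (nat_lit 532504) (nat_lit 1) (.e (nat_lit 57852) (nat_lit 252) (.e (nat_lit 57344) (nat_lit 0) (.e (nat_lit 1858) (nat_lit 124) (.e (nat_lit 557105) (nat_lit 14) (.e (nat_lit 180252) (nat_lit 10) (.e (nat_lit 573482) (nat_lit 13) (.e (nat_lit 65637) (nat_lit 15) (.e (nat_lit 3253) (nat_lit 197) .nil))))))))) (.g (nat_lit 1) (.e (nat_lit 397047) (nat_lit 0) .nil) .nil))) 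
(.lf (nat_lit 590435) (.g (nat_lit 1889) (.e (nat_lit 532514) (nat_lit 3) (.e (nat_lit 114719) (nat_lit 23) (.e (nat_lit 98343) (nat_lit 21) (.e (nat_lit 229663) (nat_lit 240) (.e (nat_lit 2612) (nat_lit 163) .nil))))) (.g (nat_lit 0) (.e (nat_lit 397942) (nat_lit 0) .nil) .nil)))) (.nd (nat_lit 9) 
(.lf (nat_lit 590179) (.g (nat_lit 1155) (.e (nat_lit 532513) (nat_lit 3) (.e (nat_lit 114714) (nat_lit 22) (.e (nat_lit 90168) (nat_lit 13) (.e (nat_lit 172064) (nat_lit 2) (.e (nat_lit 204544) (nat_lit 2) .nil))))) (.g (nat_lit 0) (.e (nat_lit 397462) (nat_lit 0) .nil) .nil))) 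
(.lf (nat_lit 590691) (.g (nat_lit 1825) (.e (nat_lit 532523) (nat_lit 7) (.e (nat_lit 319528) (nat_lit 16) (.e (nat_lit 286735) (nat_lit 3) (.e (nat_lit 98380) (nat_lit 31) (.e (nat_lit 466967) (nat_lit 20) .nil))))) (.g (nat_lit 0) (.e (nat_lit 398767) (nat_lit 0) .nil) .nil))))) (.nd (nat_lit 8) (.nd (nat_lit 9) 
(.lf (nat_lit 590051) (.g (nat_lit 1553) (.e (nat_lit 532508) (nat_lit 2) (.e (nat_lit 106534) (nat_lit 11) (.e (nat_lit 16416) (nat_lit 3) (.e (nat_lit 204866) (nat_lit 28) (.e (nat_lit 352261) (nat_lit 0) .nil))))) (.g (nat_lit 0) (.e (nat_lit 397215) (nat_lit 0) .nil) .nil))) 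
(.lf (nat_lit 590563) (.g (nat_lit 2035) (.e (nat_lit 532515) (nat_lit 3) (.e (nat_lit 114718) (nat_lit 23) (.e (nat_lit 98334) (nat_lit 18) (.e (nat_lit 164403) (nat_lit 256) (.e (nat_lit 57370) (nat_lit 2) .nil))))) (.g (nat_lit 0) (.e (nat_lit 398492) (nat_lit 0) .nil) .nil)))) (.nd (nat_lit 9) 
(.lf (nat_lit 590307) (.g (nat_lit 2424) (.e (nat_lit 532513) (nat_lit 3) (.e (nat_lit 114714) (nat_lit 22) (.e (nat_lit 90174) (nat_lit 14) (.e (nat_lit 180243) (nat_lit 5) (.e (nat_lit 532501) (nat_lit 1) (.e (nat_lit 57662) (nat_lit 152) (.e (nat_lit 2612) (nat_lit 163) (.e (nat_lit 163964) (nat_lit 25) .nil)))))))) (.g (nat_lit 1) (.e (nat_lit 397635) (nat_lit 0) .nil) .nil))) 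
(.lf (nat_lit 590819) (.g (nat_lit 3873) (.e (nat_lit 532523) (nat_lit 7) (.e (nat_lit 319533) (nat_lit 16) (.e (nat_lit 286735) (nat_lit 3) (.e (nat_lit 98370) (nat_lit 28) (.e (nat_lit 442411) (nat_lit 20) (.e (nat_lit 3238) (nat_lit 197) .nil)))))) (.g (nat_lit 1) (.e (nat_lit 398918) (nat_lit 0) .nil) .nil)))))))) 
(.nd (nat_lit 5) (.nd (nat_lit 6) (.nd (nat_lit 7) (.nd (nat_lit 8) (.nd (nat_lit 9) 
(.lf (nat_lit 589843) (.g (nat_lit 3862) (.e (nat_lit 532504) (nat_lit 1) (.e (nat_lit 57692) (nat_lit 156) (.e (nat_lit 163874) (nat_lit 3) (.e (nat_lit 204838) (nat_lit 20) (.e (nat_lit 114718) (nat_lit 23) (.e (nat_lit 98367) (nat_lit 27) (.e (nat_lit 434232) (nat_lit 23) .nil))))))) (.g (nat_lit 1) (.e (nat_lit 396952) (nat_lit 0) .nil) .nil))) 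
(.lf (nat_lit 590355) (.g (nat_lit 4082) (.e (nat_lit 532513) (nat_lit 3) (.e (nat_lit 114718) (nat_lit 23) (.e (nat_lit 98356) (nat_lit 26) (.e (nat_lit 426438) (nat_lit 18) (.e (nat_lit 98335) (nat_lit 18) (.e (nat_lit 164305) (nat_lit 226) (.e (nat_lit 2612) (nat_lit 163) (.e (nat_lit 163964) (nat_lit 25) .nil)))))))) (.g (nat_lit 1) (.e (nat_lit 397700) (nat_lit 0) .nil) .nil)))) 
(.nd (nat_lit 9) 
(.lf (nat_lit 590099) (.g (nat_lit 1127) (.e (nat_lit 532510) (nat_lit 2) (.e (nat_lit 106536) (nat_lit 11) (.e (nat_lit 16413) (nat_lit 2) (.e (nat_lit 196674) (nat_lit 15) (.e (nat_lit 89856) (nat_lit 0) (.e (nat_lit 3247) (nat_lit 197) .nil)))))) (.g (nat_lit 1) (.e (nat_lit 397273) (nat_lit 0) .nil) .nil))) 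
(.lf (nat_lit 590611) (.g (nat_lit 3261) (.e (nat_lit 532515) (nat_lit 3) (.e (nat_lit 114719) (nat_lit 23) (.e (nat_lit 98365) (nat_lit 26) (.e (nat_lit 426133) (nat_lit 3) (.e (nat_lit 204829) (nat_lit 18) (.e (nat_lit 57688) (nat_lit 156) (.e (nat_lit 163843) (nat_lit 0) (.e (nat_lit 3248) (nat_lit 197) .nil)))))))) (.g (nat_lit 1) (.e (nat_lit 398602) (nat_lit 0) .nil) .nil))))) 
(.nd (nat_lit 8) (.nd (nat_lit 9) 
(.lf (nat_lit 589971) (.g (nat_lit 3069) (.e (nat_lit 532504) (nat_lit 1) (.e (nat_lit 57854) (nat_lit 252) (.e (nat_lit 57378) (nat_lit 3) (.e (nat_lit 98342) (nat_lit 20) (.e (nat_lit 221212) (nat_lit 22) (.e (nat_lit 196665) (nat_lit 13) (.e (nat_lit 65637) (nat_lit 15) (.e (nat_lit 3253) (nat_lit 197) .nil)))))))) (.g (nat_lit 1) (.e (nat_lit 397105) (nat_lit 0) .nil) .nil))) 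
(.lf (nat_lit 590483) (.g (nat_lit 1706) (.e (nat_lit 532515) (nat_lit 3) (.e (nat_lit 114698) (nat_lit 11) (.e (nat_lit 426133) (nat_lit 3) (.e (nat_lit 204865) (nat_lit 28) .nil)))) (.g (nat_lit 0) (.e (nat_lit 398060) (nat_lit 0) .nil) .nil)))) (.nd (nat_lit 9) 
(.lf (nat_lit 590227) (.g (nat_lit 3589) (.e (nat_lit 532513) (nat_lit 3) (.e (nat_lit 114714) (nat_lit 22) (.e (nat_lit 90172) (nat_lit 14) (.e (nat_lit 180243) (nat_lit 5) (.e (nat_lit 532504) (nat_lit 1) (.e (nat_lit 57665) (nat_lit 152) (.e (nat_lit 2715) (nat_lit 171) (.e (nat_lit 229433) (nat_lit 25) .nil)))))))) (.g (nat_lit 1) (.e (nat_lit 397530) (nat_lit 0) .nil) .nil))) 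
(.lf (nat_lit 590739) (.g (nat_lit 1902) (.e (nat_lit 532523) (nat_lit 7) (.e (nat_lit 319531) (nat_lit 16) (.e (nat_lit 286735) (nat_lit 3) (.e (nat_lit 98321) (nat_lit 17) .nil)))) (.g (nat_lit 0) (.e (nat_lit 398824) (nat_lit 0) .nil) .nil)))))) (.nd (nat_lit 7) (.nd (nat_lit 8) (.nd (nat_lit 9) 
(.lf (nat_lit 589907) (.g (nat_lit 3622) (.e (nat_lit 532504) (nat_lit 1) (.e (nat_lit 57851) (nat_lit 252) (.e (nat_lit 57406) (nat_lit 12) (.e (nat_lit 336456) (nat_lit 34) (.e (nat_lit 483383) (nat_lit 23) (.e (nat_lit 336260) (nat_lit 15) (.e (nat_lit 3255) (nat_lit 197) .nil))))))) (.g (nat_lit 1) (.e (nat_lit 397031) (nat_lit 0) .nil) .nil))) 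
(.lf (nat_lit 590419) (.g (nat_lit 1432) (.e (nat_lit 532514) (nat_lit 3) (.e (nat_lit 114718) (nat_lit 23) (.e (nat_lit 98334) (nat_lit 18) (.e (nat_lit 164399) (nat_lit 256) .nil)))) (.g (nat_lit 0) (.e (nat_lit 397925) (nat_lit 0) .nil) .nil)))) (.nd (nat_lit 9) 
(.lf (nat_lit 590163) (.g (nat_lit 2603) (.e (nat_lit 532513) (nat_lit 3) (.e (nat_lit 114698) (nat_lit 11) (.e (nat_lit 426138) (nat_lit 3) (.e (nat_lit 204865) (nat_lit 28) (.e (nat_lit 352262) (nat_lit 0) (.e (nat_lit 3253) (nat_lit 197) .nil)))))) (.g (nat_lit 1) (.e (nat_lit 397399) (nat_lit 0) .nil) .nil))) 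
(.lf (nat_lit 590675) (.g (nat_lit 796) (.e (nat_lit 532523) (nat_lit 7) (.e (nat_lit 319505) (nat_lit 10) (.e (nat_lit 5712) (nat_lit 312) (.e (nat_lit 2508) (nat_lit 157) .nil)))) (.g (nat_lit 0) (.e (nat_lit 398743) (nat_lit 0) .nil) .nil))))) (.nd (nat_lit 8) (.nd (nat_lit 9) 
(.lf (nat_lit 590035) (.g (nat_lit 847) (.e (nat_lit 532507) (nat_lit 2) (.e (nat_lit 106536) (nat_lit 11) (.e (nat_lit 16415) (nat_lit 3) .nil))) (.g (nat_lit 0) (.e (nat_lit 397189) (nat_lit 0) .nil) .nil))) 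
(.lf (nat_lit 590547) (.g (nat_lit 1483) (.e (nat_lit 532515) (nat_lit 3) (.e (nat_lit 114716) (nat_lit 22) (.e (nat_lit 90174) (nat_lit 14) (.e (nat_lit 180243) (nat_lit 5) (.e (nat_lit 532575) (nat_lit 17) (.e (nat_lit 7105) (nat_lit 380) (.e (nat_lit 171776) (nat_lit 86) .nil))))))) (.g (nat_lit 1) (.e (nat_lit 398433) (nat_lit 0) .nil) .nil)))) (.nd (nat_lit 9) 
(.lf (nat_lit 590291) (.g (nat_lit 1095) (.e (nat_lit 532513) (nat_lit 3) (.e (nat_lit 114714) (nat_lit 22) (.e (nat_lit 90174) (nat_lit 14) (.e (nat_lit 180243) (nat_lit 5) .nil)))) (.g (nat_lit 0) (.e (nat_lit 397616) (nat_lit 0) .nil) .nil))) 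
(.lf (nat_lit 590803) (.g (nat_lit 1841) (.e (nat_lit 532523) (nat_lit 7) (.e (nat_lit 319533) (nat_lit 16) (.e (nat_lit 286735) (nat_lit 3) (.e (nat_lit 98362) (nat_lit 26) .nil)))) (.g (nat_lit 0) (.e (nat_lit 398902) (nat_lit 0) .nil) .nil))))))) (.nd (nat_lit 6) (.nd (nat_lit 7) (.nd (nat_lit 8) (.nd (nat_lit 9) 
(.lf (nat_lit 589875) (.g (nat_lit 1334) (.e (nat_lit 532504) (nat_lit 1) (.e (nat_lit 57851) (nat_lit 252) (.e (nat_lit 57406) (nat_lit 12) (.e (nat_lit 336455) (nat_lit 34) (.e (nat_lit 483405) (nat_lit 26) .nil))))) (.g (nat_lit 0) (.e (nat_lit 396999) (nat_lit 0) .nil) .nil))) 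
(.lf (nat_lit 590387) (.g (nat_lit 279) (.e (nat_lit 532514) (nat_lit 3) (.e (nat_lit 114697) (nat_lit 11) (.e (nat_lit 426137) (nat_lit 3) .nil))) (.g (nat_lit 0) (.e (nat_lit 397793) (nat_lit 0) .nil) .nil)))) (.nd (nat_lit 9) 
(.lf (nat_lit 590131) (.g (nat_lit 1261) (.e (nat_lit 532511) (nat_lit 2) (.e (nat_lit 106536) (nat_lit 11) (.e (nat_lit 16413) (nat_lit 2) (.e (nat_lit 196674) (nat_lit 15) (.e (nat_lit 81922) (nat_lit 0) (.e (nat_lit 3231) (nat_lit 197) .nil)))))) (.g (nat_lit 1) (.e (nat_lit 397311) (nat_lit 0) .nil) .nil))) 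
(.lf (nat_lit 590643) (.g (nat_lit 2382) (.e (nat_lit 532522) (nat_lit 7) (.e (nat_lit 319530) (nat_lit 16) (.e (nat_lit 286733) (nat_lit 2) (.e (nat_lit 90134) (nat_lit 9) (.e (nat_lit 3021) (nat_lit 187) .nil))))) (.g (nat_lit 0) (.e (nat_lit 398698) (nat_lit 0) .nil) .nil))))) (.nd (nat_lit 8) (.nd (nat_lit 9) 
(.lf (nat_lit 590003) (.g (nat_lit 2521) (.e (nat_lit 532504) (nat_lit 1) (.e (nat_lit 57931) (nat_lit 282) (.e (nat_lit 163869) (nat_lit 2) (.e (nat_lit 196670) (nat_lit 14) (.e (nat_lit 73746) (nat_lit 3) .nil))))) (.g (nat_lit 0) (.e (nat_lit 397143) (nat_lit 0) .nil) .nil))) 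
(.lf (nat_lit 590515) (.g (nat_lit 3411) (.e (nat_lit 532515) (nat_lit 3) (.e (nat_lit 114716) (nat_lit 22) (.e (nat_lit 90172) (nat_lit 14) (.e (nat_lit 180243) (nat_lit 5) (.e (nat_lit 532503) (nat_lit 1) (.e (nat_lit 57687) (nat_lit 156) (.e (nat_lit 163844) (nat_lit 0) (.e (nat_lit 3248) (nat_lit 197) .nil)))))))) (.g (nat_lit 1) (.e (nat_lit 398214) (nat_lit 0) .nil) .nil)))) 
(.nd (nat_lit 9) 
(.lf (nat_lit 590259) (.g (nat_lit 3682) (.e (nat_lit 532513) (nat_lit 3) (.e (nat_lit 114714) (nat_lit 22) (.e (nat_lit 90172) (nat_lit 14) (.e (nat_lit 180244) (nat_lit 5) (.e (nat_lit 532503) (nat_lit 1) (.e (nat_lit 57655) (nat_lit 152) (.e (nat_lit 2615) (nat_lit 163) (.e (nat_lit 163962) (nat_lit 25) .nil)))))))) (.g (nat_lit 1) (.e (nat_lit 397576) (nat_lit 0) .nil) .nil))) 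
(.lf (nat_lit 590771) (.g (nat_lit 1005) (.e (nat_lit 532523) (nat_lit 7) (.e (nat_lit 319533) (nat_lit 16) (.e (nat_lit 286726) (nat_lit 0) .nil))) (.g (nat_lit 0) (.e (nat_lit 398857) (nat_lit 0) .nil) .nil)))))) (.nd (nat_lit 7) (.nd (nat_lit 8) (.nd (nat_lit 9) 
(.lf (nat_lit 589939) (.g (nat_lit 3485) (.e (nat_lit 532504) (nat_lit 1) (.e (nat_lit 57852) (nat_lit 252) (.e (nat_lit 57378) (nat_lit 3) (.e (nat_lit 98342) (nat_lit 20) (.e (nat_lit 221210) (nat_lit 22) (.e (nat_lit 196665) (nat_lit 13) (.e (nat_lit 65637) (nat_lit 15) (.e (nat_lit 3253) (nat_lit 197) .nil)))))))) (.g (nat_lit 1) (.e (nat_lit 397063) (nat_lit 0) .nil) .nil))) 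
(.lf (nat_lit 590451) (.g (nat_lit 1630) (.e (nat_lit 532514) (nat_lit 3) (.e (nat_lit 114719) (nat_lit 23) (.e (nat_lit 98365) (nat_lit 26) (.e (nat_lit 426124) (nat_lit 2) .nil)))) (.g (nat_lit 0) (.e (nat_lit 397958) (nat_lit 0) .nil) .nil)))) (.nd (nat_lit 9) 
(.lf (nat_lit 590195) (.g (nat_lit 2709) (.e (nat_lit 532513) (nat_lit 3) (.e (nat_lit 114714) (nat_lit 22) (.e (nat_lit 90170) (nat_lit 13) (.e (nat_lit 172067) (nat_lit 3) (.e (nat_lit 204830) (nat_lit 18) (.e (nat_lit 57663) (nat_lit 152) (.e (nat_lit 2715) (nat_lit 171) (.e (nat_lit 229433) (nat_lit 25) .nil)))))))) (.g (nat_lit 1) (.e (nat_lit 397486) (nat_lit 0) .nil) .nil))) 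
(.lf (nat_lit 590707) (.g (nat_lit 885) (.e (nat_lit 532523) (nat_lit 7) (.e (nat_lit 319530) (nat_lit 16) (.e (nat_lit 286722) (nat_lit 0) (.e (nat_lit 1691) (nat_lit 117) .nil)))) (.g (nat_lit 0) (.e (nat_lit 398786) (nat_lit 0) .nil) .nil))))) (.nd (nat_lit 8) (.nd (nat_lit 9) 
(.lf (nat_lit 590067) (.g (nat_lit 850) (.e (nat_lit 532509) (nat_lit 2) (.e (nat_lit 106536) (nat_lit 11) (.e (nat_lit 16413) (nat_lit 2) (.e (nat_lit 196674) (nat_lit 15) .nil)))) (.g (nat_lit 0) (.e (nat_lit 397237) (nat_lit 0) .nil) .nil))) 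
(.lf (nat_lit 590579) (.g (nat_lit 2067) (.e (nat_lit 532515) (nat_lit 3) (.e (nat_lit 114719) (nat_lit 23) (.e (nat_lit 98350) (nat_lit 24) (.e (nat_lit 409617) (nat_lit 10) (.e (nat_lit 632) (nat_lit 50) .nil))))) (.g (nat_lit 0) (.e (nat_lit 398538) (nat_lit 0) .nil) .nil)))) (.nd (nat_lit 9) 
(.lf (nat_lit 590323) (.g (nat_lit 2515) (.e (nat_lit 532513) (nat_lit 3) (.e (nat_lit 114714) (nat_lit 22) (.e (nat_lit 90174) (nat_lit 14) (.e (nat_lit 180243) (nat_lit 5) (.e (nat_lit 532503) (nat_lit 1) (.e (nat_lit 57687) (nat_lit 156) (.e (nat_lit 163844) (nat_lit 0) (.e (nat_lit 3248) (nat_lit 197) .nil)))))))) (.g (nat_lit 1) (.e (nat_lit 397655) (nat_lit 0) .nil) .nil))) 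
(.lf (nat_lit 590835) (.g (nat_lit 3869) (.e (nat_lit 532523) (nat_lit 7) (.e (nat_lit 319534) (nat_lit 16) (.e (nat_lit 286732) (nat_lit 2) (.e (nat_lit 90178) (nat_lit 15) (.e (nat_lit 188441) (nat_lit 20) (.e (nat_lit 3238) (nat_lit 197) .nil)))))) (.g (nat_lit 1) (.e (nat_lit 398938) (nat_lit 0) .nil) .nil))))))))) 
(.nd (nat_lit 4) (.nd (nat_lit 5) (.nd (nat_lit 6) (.nd (nat_lit 7) (.nd (nat_lit 8) 
(.nd (nat_lit 9) 
(.lf (nat_lit 589835) (.g (nat_lit 2894) (.e (nat_lit 532504) (nat_lit 1) (.e (nat_lit 57691) (nat_lit 156) (.e (nat_lit 163875) (nat_lit 3) (.e (nat_lit 204838) (nat_lit 20) (.e (nat_lit 114719) (nat_lit 23) (.e (nat_lit 98366) (nat_lit 27) (.e (nat_lit 434232) (nat_lit 23) .nil))))))) (.g (nat_lit 1) (.e (nat_lit 396940) (nat_lit 0) .nil) .nil))) 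
(.lf (nat_lit 590347) (.g (nat_lit 501) (.e (nat_lit 532513) (nat_lit 3) (.e (nat_lit 114718) (nat_lit 23) (.e (nat_lit 98334) (nat_lit 18) .nil))) (.g (nat_lit 0) (.e (nat_lit 397688) (nat_lit 0) .nil) .nil)))) (.nd (nat_lit 9) 
(.lf (nat_lit 590091) (.g (nat_lit 1189) (.e (nat_lit 532510) (nat_lit 2) (.e (nat_lit 106536) (nat_lit 11) (.e (nat_lit 16413) (nat_lit 2) (.e (nat_lit 196672) (nat_lit 15) (.e (nat_lit 89856) (nat_lit 0) (.e (nat_lit 3246) (nat_lit 197) .nil)))))) (.g (nat_lit 1) (.e (nat_lit 397265) (nat_lit 0) .nil) .nil))) 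
(.lf (nat_lit 590603) (.g (nat_lit 2249) (.e (nat_lit 532515) (nat_lit 3) (.e (nat_lit 114719) (nat_lit 23) (.e (nat_lit 98365) (nat_lit 26) (.e (nat_lit 426133) (nat_lit 3) (.e (nat_lit 204805) (nat_lit 0) .nil))))) (.g (nat_lit 0) (.e (nat_lit 398593) (nat_lit 0) .nil) .nil))))) (.nd (nat_lit 8) (.nd (nat_lit 9) 
(.lf (nat_lit 589963) (.g (nat_lit 2064) (.e (nat_lit 532504) (nat_lit 1) (.e (nat_lit 57852) (nat_lit 252) (.e (nat_lit 57445) (nat_lit 19) (.e (nat_lit 393221) (nat_lit 0) (.e (nat_lit 7936) (nat_lit 343) .nil))))) (.g (nat_lit 0) (.e (nat_lit 397092) (nat_lit 0) .nil) .nil))) 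
(.lf (nat_lit 590475) (.g (nat_lit 1656) (.e (nat_lit 532515) (nat_lit 3) (.e (nat_lit 114698) (nat_lit 11) (.e (nat_lit 426123) (nat_lit 2) (.e (nat_lit 196665) (nat_lit 13) .nil)))) (.g (nat_lit 0) (.e (nat_lit 398039) (nat_lit 0) .nil) .nil)))) (.nd (nat_lit 9) 
(.lf (nat_lit 590219) (.g (nat_lit 3027) (.e (nat_lit 532513) (nat_lit 3) (.e (nat_lit 114714) (nat_lit 22) (.e (nat_lit 90172) (nat_lit 14) (.e (nat_lit 180243) (nat_lit 5) (.e (nat_lit 532504) (nat_lit 1) (.e (nat_lit 57651) (nat_lit 152) (.e (nat_lit 2615) (nat_lit 163) (.e (nat_lit 163962) (nat_lit 25) .nil)))))))) (.g (nat_lit 1) (.e (nat_lit 397521) (nat_lit 0) .nil) .nil))) 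
(.lf (nat_lit 590731) (.g (nat_lit 2388) (.e (nat_lit 532523) (nat_lit 7) (.e (nat_lit 319531) (nat_lit 16) (.e (nat_lit 286733) (nat_lit 2) (.e (nat_lit 90134) (nat_lit 9) (.e (nat_lit 2882) (nat_lit 184) .nil))))) (.g (nat_lit 0) (.e (nat_lit 398814) (nat_lit 0) .nil) .nil)))))) (.nd (nat_lit 7) (.nd (nat_lit 8) (.nd (nat_lit 9) 
(.lf (nat_lit 589899) (.g (nat_lit 3688) (.e (nat_lit 532504) (nat_lit 1) (.e (nat_lit 57851) (nat_lit 252) (.e (nat_lit 57406) (nat_lit 12) (.e (nat_lit 336456) (nat_lit 34) (.e (nat_lit 483383) (nat_lit 23) (.e (nat_lit 336258) (nat_lit 15) (.e (nat_lit 3248) (nat_lit 197) .nil))))))) (.g (nat_lit 1) (.e (nat_lit 397023) (nat_lit 0) .nil) .nil))) 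
(.lf (nat_lit 590411) (.g (nat_lit 1105) (.e (nat_lit 532514) (nat_lit 3) (.e (nat_lit 114716) (nat_lit 22) (.e (nat_lit 90172) (nat_lit 14) (.e (nat_lit 180248) (nat_lit 9) .nil)))) (.g (nat_lit 0) (.e (nat_lit 397904) (nat_lit 0) .nil) .nil)))) (.nd (nat_lit 9) 
(.lf (nat_lit 590155) (.g (nat_lit 2165) (.e (nat_lit 532513) (nat_lit 3) (.e (nat_lit 114698) (nat_lit 11) (.e (nat_lit 426123) (nat_lit 2) (.e (nat_lit 196665) (nat_lit 13) (.e (nat_lit 65623) (nat_lit 12) .nil))))) (.g (nat_lit 0) (.e (nat_lit 397369) (nat_lit 0) .nil) .nil))) 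
(.lf (nat_lit 590667) (.g (nat_lit 3233) (.e (nat_lit 532522) (nat_lit 7) (.e (nat_lit 319534) (nat_lit 16) (.e (nat_lit 294656) (nat_lit 2) (.e (nat_lit 90170) (nat_lit 13) (.e (nat_lit 172106) (nat_lit 10) (.e (nat_lit 434231) (nat_lit 23) .nil)))))) (.g (nat_lit 1) (.e (nat_lit 398727) (nat_lit 0) .nil) .nil))))) (.nd (nat_lit 8) (.nd (nat_lit 9) 
(.lf (nat_lit 590027) (.g (nat_lit 1891) (.e (nat_lit 532506) (nat_lit 2) (.e (nat_lit 106536) (nat_lit 11) (.e (nat_lit 16412) (nat_lit 2) (.e (nat_lit 196672) (nat_lit 15) (.e (nat_lit 89856) (nat_lit 0) .nil))))) (.g (nat_lit 0) (.e (nat_lit 397171) (nat_lit 0) .nil) .nil))) 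
(.lf (nat_lit 590539) (.g (nat_lit 3575) (.e (nat_lit 532515) (nat_lit 3) (.e (nat_lit 114716) (nat_lit 22) (.e (nat_lit 90174) (nat_lit 14) (.e (nat_lit 180243) (nat_lit 5) (.e (nat_lit 532503) (nat_lit 1) (.e (nat_lit 57685) (nat_lit 156) (.e (nat_lit 163843) (nat_lit 0) (.e (nat_lit 3248) (nat_lit 197) .nil)))))))) (.g (nat_lit 1) (.e (nat_lit 398393) (nat_lit 0) .nil) .nil)))) 
(.nd (nat_lit 9) 
(.lf (nat_lit 590283) (.g (nat_lit 2083) (.e (nat_lit 532513) (nat_lit 3) (.e (nat_lit 114714) (nat_lit 22) (.e (nat_lit 90172) (nat_lit 14) (.e (nat_lit 180241) (nat_lit 4) (.e (nat_lit 524339) (nat_lit 27) (.e (nat_lit 352000) (nat_lit 23) .nil)))))) (.g (nat_lit 1) (.e (nat_lit 397606) (nat_lit 0) .nil) .nil))) 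
(.lf (nat_lit 590795) (.g (nat_lit 2131) (.e (nat_lit 532523) (nat_lit 7) (.e (nat_lit 319533) (nat_lit 16) (.e (nat_lit 286734) (nat_lit 3) (.e (nat_lit 98368) (nat_lit 27) (.e (nat_lit 442112) (nat_lit 11) .nil))))) (.g (nat_lit 0) (.e (nat_lit 398894) (nat_lit 0) .nil) .nil))))))) (.nd (nat_lit 6) (.nd (nat_lit 7) (.nd (nat_lit 8) (.nd (nat_lit 9) 
(.lf (nat_lit 589867) (.g (nat_lit 1883) (.e (nat_lit 532504) (nat_lit 1) (.e (nat_lit 57851) (nat_lit 252) (.e (nat_lit 57406) (nat_lit 12) (.e (nat_lit 336367) (nat_lit 27) (.e (nat_lit 426542) (nat_lit 29) (.e (nat_lit 360192) (nat_lit 0) (.e (nat_lit 3249) (nat_lit 197) .nil))))))) (.g (nat_lit 1) (.e (nat_lit 396991) (nat_lit 0) .nil) .nil))) 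
(.lf (nat_lit 590379) (.g (nat_lit 758) (.e (nat_lit 532513) (nat_lit 3) (.e (nat_lit 114719) (nat_lit 23) (.e (nat_lit 98366) (nat_lit 27) .nil))) (.g (nat_lit 0) (.e (nat_lit 397756) (nat_lit 0) .nil) .nil)))) (.nd (nat_lit 9) 
(.lf (nat_lit 590123) (.g (nat_lit 2093) (.e (nat_lit 532511) (nat_lit 2) (.e (nat_lit 106536) (nat_lit 11) (.e (nat_lit 16410) (nat_lit 2) (.e (nat_lit 196681) (nat_lit 17) (.e (nat_lit 131122) (nat_lit 12) .nil))))) (.g (nat_lit 0) (.e (nat_lit 397303) (nat_lit 0) .nil) .nil))) 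
(.lf (nat_lit 590635) (.g (nat_lit 2711) (.e (nat_lit 532521) (nat_lit 6) (.e (nat_lit 155674) (nat_lit 12) (.e (nat_lit 57479) (nat_lit 28) (.e (nat_lit 557093) (nat_lit 12) (.e (nat_lit 164058) (nat_lit 56) .nil))))) (.g (nat_lit 0) (.e (nat_lit 398688) (nat_lit 0) .nil) .nil))))) (.nd (nat_lit 8) (.nd (nat_lit 9) 
(.lf (nat_lit 589995) (.g (nat_lit 2129) (.e (nat_lit 532504) (nat_lit 1) (.e (nat_lit 57931) (nat_lit 282) (.e (nat_lit 163867) (nat_lit 2) (.e (nat_lit 196668) (nat_lit 14) (.e (nat_lit 73747) (nat_lit 3) .nil))))) (.g (nat_lit 0) (.e (nat_lit 397134) (nat_lit 0) .nil) .nil))) 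
(.lf (nat_lit 590507) (.g (nat_lit 4147) (.e (nat_lit 532515) (nat_lit 3) (.e (nat_lit 114716) (nat_lit 22) (.e (nat_lit 90169) (nat_lit 13) (.e (nat_lit 172133) (nat_lit 15) (.e (nat_lit 1800) (nat_lit 119) (.e (nat_lit 516120) (nat_lit 1) (.e (nat_lit 164329) (nat_lit 230) (.e (nat_lit 163850) (nat_lit 0) (.e (nat_lit 3252) (nat_lit 197) .nil))))))))) (.g (nat_lit 1) (.e (nat_lit 398174) (nat_lit 0) .nil) .nil)))) 
(.nd (nat_lit 9) 
(.lf (nat_lit 590251) (.g (nat_lit 2961) (.e (nat_lit 532513) (nat_lit 3) (.e (nat_lit 114714) (nat_lit 22) (.e (nat_lit 90172) (nat_lit 14) (.e (nat_lit 180244) (nat_lit 5) (.e (nat_lit 532501) (nat_lit 1) (.e (nat_lit 57663) (nat_lit 152) (.e (nat_lit 2717) (nat_lit 171) (.e (nat_lit 229432) (nat_lit 25) .nil)))))))) (.g (nat_lit 1) (.e (nat_lit 397563) (nat_lit 0) .nil) .nil))) 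
(.lf (nat_lit 590763) (.g (nat_lit 3529) (.e (nat_lit 532523) (nat_lit 7) (.e (nat_lit 319532) (nat_lit 16) (.e (nat_lit 286733) (nat_lit 2) (.e (nat_lit 90178) (nat_lit 15) (.e (nat_lit 188440) (nat_lit 20) (.e (nat_lit 3238) (nat_lit 197) .nil)))))) (.g (nat_lit 1) (.e (nat_lit 398849) (nat_lit 0) .nil) .nil)))))) (.nd (nat_lit 7) (.nd (nat_lit 8) (.nd (nat_lit 9) 
(.lf (nat_lit 589931) (.g (nat_lit 4699) (.e (nat_lit 532504) (nat_lit 1) (.e (nat_lit 57852) (nat_lit 252) (.e (nat_lit 57357) (nat_lit 0) (.e (nat_lit 1858) (nat_lit 124) (.e (nat_lit 557105) (nat_lit 14) (.e (nat_lit 180252) (nat_lit 10) (.e (nat_lit 573480) (nat_lit 13) (.e (nat_lit 65637) (nat_lit 15) (.e (nat_lit 3253) (nat_lit 197) .nil))))))))) (.g (nat_lit 1) (.e (nat_lit 397055) (nat_lit 0) .nil) .nil))) 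
(.lf (nat_lit 590443) (.g (nat_lit 2048) (.e (nat_lit 532514) (nat_lit 3) (.e (nat_lit 114719) (nat_lit 23) (.e (nat_lit 98356) (nat_lit 26) (.e (nat_lit 426436) (nat_lit 18) (.e (nat_lit 98334) (nat_lit 18) (.e (nat_lit 164305) (nat_lit 226) (.e (nat_lit 2604) (nat_lit 163) (.e (nat_lit 163962) (nat_lit 25) .nil)))))))) (.g (nat_lit 1) (.e (nat_lit 397950) (nat_lit 0) .nil) .nil)))) 
(.nd (nat_lit 9) 
(.lf (nat_lit 590187) (.g (nat_lit 1907) (.e (nat_lit 532513) (nat_lit 3) (.e (nat_lit 114714) (nat_lit 22) (.e (nat_lit 90170) (nat_lit 13) (.e (nat_lit 172065) (nat_lit 3) (.e (nat_lit 204830) (nat_lit 18) .nil))))) (.g (nat_lit 0) (.e (nat_lit 397476) (nat_lit 0) .nil) .nil))) 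
(.lf (nat_lit 590699) (.g (nat_lit 2577) (.e (nat_lit 532523) (nat_lit 7) (.e (nat_lit 319529) (nat_lit 16) (.e (nat_lit 286733) (nat_lit 2) (.e (nat_lit 90178) (nat_lit 15) (.e (nat_lit 196352) (nat_lit 20) .nil))))) (.g (nat_lit 0) (.e (nat_lit 398778) (nat_lit 0) .nil) .nil))))) (.nd (nat_lit 8) (.nd (nat_lit 9) 
(.lf (nat_lit 590059) (.g (nat_lit 2123) (.e (nat_lit 532508) (nat_lit 2) (.e (nat_lit 106536) (nat_lit 11) (.e (nat_lit 16415) (nat_lit 3) (.e (nat_lit 204859) (nat_lit 26) .nil)))) (.g (nat_lit 0) (.e (nat_lit 397224) (nat_lit 0) .nil) .nil))) 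
(.lf (nat_lit 590571) (.g (nat_lit 1265) (.e (nat_lit 532515) (nat_lit 3) (.e (nat_lit 114719) (nat_lit 23) (.e (nat_lit 98333) (nat_lit 18) (.e (nat_lit 164398) (nat_lit 256) .nil)))) (.g (nat_lit 0) (.e (nat_lit 398520) (nat_lit 0) .nil) .nil)))) (.nd (nat_lit 9) 
(.lf (nat_lit 590315) (.g (nat_lit 3599) (.e (nat_lit 532513) (nat_lit 3) (.e (nat_lit 114714) (nat_lit 22) (.e (nat_lit 90174) (nat_lit 14) (.e (nat_lit 180243) (nat_lit 5) (.e (nat_lit 532501) (nat_lit 1) (.e (nat_lit 57665) (nat_lit 152) (.e (nat_lit 2715) (nat_lit 171) (.e (nat_lit 229433) (nat_lit 25) .nil)))))))) (.g (nat_lit 1) (.e (nat_lit 397645) (nat_lit 0) .nil) .nil))) 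
(.lf (nat_lit 590827) (.g (nat_lit 859) (.e (nat_lit 532523) (nat_lit 7) (.e (nat_lit 319534) (nat_lit 16) (.e (nat_lit 286723) (nat_lit 0) .nil))) (.g (nat_lit 0) (.e (nat_lit 398927) (nat_lit 0) .nil) .nil)))))))) (.nd (nat_lit 5) (.nd (nat_lit 6) (.nd (nat_lit 7) (.nd (nat_lit 8) (.nd (nat_lit 9) 
(.lf (nat_lit 589851) (.g (nat_lit 1425) (.e (nat_lit 532504) (nat_lit 1) (.e (nat_lit 57692) (nat_lit 156) (.e (nat_lit 163907) (nat_lit 12) (.e (nat_lit 426481) (nat_lit 27) .nil)))) (.g (nat_lit 0) (.e (nat_lit 396963) (nat_lit 0) .nil) .nil))) 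
(.lf (nat_lit 590363) (.g (nat_lit 448) (.e (nat_lit 532513) (nat_lit 3) (.e (nat_lit 114719) (nat_lit 23) (.e (nat_lit 98334) (nat_lit 18) .nil))) (.g (nat_lit 0) (.e (nat_lit 397723) (nat_lit 0) .nil) .nil)))) (.nd (nat_lit 9) 
(.lf (nat_lit 590107) (.g (nat_lit 1452) (.e (nat_lit 532511) (nat_lit 2) (.e (nat_lit 106534) (nat_lit 11) (.e (nat_lit 16412) (nat_lit 2) (.e (nat_lit 196674) (nat_lit 15) (.e (nat_lit 89856) (nat_lit 0) .nil))))) (.g (nat_lit 0) (.e (nat_lit 397285) (nat_lit 0) .nil) .nil))) 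
(.lf (nat_lit 590619) (.g (nat_lit 1675) (.e (nat_lit 532515) (nat_lit 3) (.e (nat_lit 114719) (nat_lit 23) (.e (nat_lit 98366) (nat_lit 27) (.e (nat_lit 434231) (nat_lit 23) (.e (nat_lit 532575) (nat_lit 17) (.e (nat_lit 7105) (nat_lit 380) (.e (nat_lit 171776) (nat_lit 86) .nil))))))) (.g (nat_lit 1) (.e (nat_lit 398617) (nat_lit 0) .nil) .nil))))) (.nd (nat_lit 8) (.nd (nat_lit 9) 
(.lf (nat_lit 589979) (.g (nat_lit 3195) (.e (nat_lit 532504) (nat_lit 1) (.e (nat_lit 57854) (nat_lit 252) (.e (nat_lit 57409) (nat_lit 12) (.e (nat_lit 336367) (nat_lit 27) (.e (nat_lit 426540) (nat_lit 29) (.e (nat_lit 352262) (nat_lit 0) (.e (nat_lit 3253) (nat_lit 197) .nil))))))) (.g (nat_lit 1) (.e (nat_lit 397114) (nat_lit 0) .nil) .nil))) 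
(.lf (nat_lit 590491) (.g (nat_lit 2108) (.e (nat_lit 532515) (nat_lit 3) (.e (nat_lit 114698) (nat_lit 11) (.e (nat_lit 426139) (nat_lit 3) (.e (nat_lit 204861) (nat_lit 26) (.e (nat_lit 336195) (nat_lit 12) .nil))))) (.g (nat_lit 0) (.e (nat_lit 398071) (nat_lit 0) .nil) .nil)))) (.nd (nat_lit 9) 
(.lf (nat_lit 590235) (.g (nat_lit 3274) (.e (nat_lit 532513) (nat_lit 3) (.e (nat_lit 114714) (nat_lit 22) (.e (nat_lit 90172) (nat_lit 14) (.e (nat_lit 180244) (nat_lit 5) (.e (nat_lit 532499) (nat_lit 1) (.e (nat_lit 57664) (nat_lit 152) (.e (nat_lit 2715) (nat_lit 171) (.e (nat_lit 229433) (nat_lit 25) .nil)))))))) (.g (nat_lit 1) (.e (nat_lit 397543) (nat_lit 0) .nil) .nil))) 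
(.lf (nat_lit 590747) (.g (nat_lit 1819) (.e (nat_lit 532523) (nat_lit 7) (.e (nat_lit 319531) (nat_lit 16) (.e (nat_lit 286735) (nat_lit 3) (.e (nat_lit 98362) (nat_lit 26) .nil)))) (.g (nat_lit 0) (.e (nat_lit 398832) (nat_lit 0) .nil) .nil)))))) (.nd (nat_lit 7) (.nd (nat_lit 8) (.nd (nat_lit 9) 
(.lf (nat_lit 589915) (.g (nat_lit 2448) (.e (nat_lit 532504) (nat_lit 1) (.e (nat_lit 57851) (nat_lit 252) (.e (nat_lit 57406) (nat_lit 12) (.e (nat_lit 336456) (nat_lit 34) (.e (nat_lit 483393) (nat_lit 23) (.e (nat_lit 336293) (nat_lit 15) (.e (nat_lit 3251) (nat_lit 197) .nil))))))) (.g (nat_lit 1) (.e (nat_lit 397039) (nat_lit 0) .nil) .nil))) 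
(.lf (nat_lit 590427) (.g (nat_lit 1327) (.e (nat_lit 532514) (nat_lit 3) (.e (nat_lit 114718) (nat_lit 23) (.e (nat_lit 98365) (nat_lit 26) (.e (nat_lit 426133) (nat_lit 3) .nil)))) (.g (nat_lit 0) (.e (nat_lit 397933) (nat_lit 0) .nil) .nil)))) (.nd (nat_lit 9) 
(.lf (nat_lit 590171) (.g (nat_lit 3022) (.e (nat_lit 532513) (nat_lit 3) (.e (nat_lit 122624) (nat_lit 11) (.e (nat_lit 426566) (nat_lit 34) (.e (nat_lit 393260) (nat_lit 21) (.e (nat_lit 409616) (nat_lit 10) (.e (nat_lit 604) (nat_lit 45) .nil)))))) (.g (nat_lit 1) (.e (nat_lit 397421) (nat_lit 0) .nil) .nil))) 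
(.lf (nat_lit 590683) (.g (nat_lit 1127) (.e (nat_lit 532523) (nat_lit 7) (.e (nat_lit 319528) (nat_lit 16) (.e (nat_lit 286733) (nat_lit 2) (.e (nat_lit 90134) (nat_lit 9) .nil)))) (.g (nat_lit 0) (.e (nat_lit 398756) (nat_lit 0) .nil) .nil))))) (.nd (nat_lit 8) (.nd (nat_lit 9) 
(.lf (nat_lit 590043) (.g (nat_lit 1457) (.e (nat_lit 532508) (nat_lit 2) (.e (nat_lit 106534) (nat_lit 11) (.e (nat_lit 16412) (nat_lit 2) (.e (nat_lit 196672) (nat_lit 15) (.e (nat_lit 89856) (nat_lit 0) .nil))))) (.g (nat_lit 0) (.e (nat_lit 397205) (nat_lit 0) .nil) .nil))) 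
(.lf (nat_lit 590555) (.g (nat_lit 2039) (.e (nat_lit 532515) (nat_lit 3) (.e (nat_lit 114717) (nat_lit 23) (.e (nat_lit 98334) (nat_lit 18) (.e (nat_lit 164398) (nat_lit 256) (.e (nat_lit 57370) (nat_lit 2) .nil))))) (.g (nat_lit 0) (.e (nat_lit 398476) (nat_lit 0) .nil) .nil)))) (.nd (nat_lit 9) 
(.lf (nat_lit 590299) (.g (nat_lit 3551) (.e (nat_lit 532513) (nat_lit 3) (.e (nat_lit 114714) (nat_lit 22) (.e (nat_lit 90174) (nat_lit 14) (.e (nat_lit 180243) (nat_lit 5) (.e (nat_lit 532499) (nat_lit 1) (.e (nat_lit 57665) (nat_lit 152) (.e (nat_lit 2715) (nat_lit 171) (.e (nat_lit 229433) (nat_lit 25) .nil)))))))) (.g (nat_lit 1) (.e (nat_lit 397627) (nat_lit 0) .nil) .nil))) 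
(.lf (nat_lit 590811) (.g (nat_lit 2605) (.e (nat_lit 532523) (nat_lit 7) (.e (nat_lit 319533) (nat_lit 16) (.e (nat_lit 286735) (nat_lit 3) (.e (nat_lit 98368) (nat_lit 27) (.e (nat_lit 442112) (nat_lit 11) .nil))))) (.g (nat_lit 0) (.e (nat_lit 398910) (nat_lit 0) .nil) .nil))))))) (.nd (nat_lit 6) (.nd (nat_lit 7) (.nd (nat_lit 8) (.nd (nat_lit 9) 
(.lf (nat_lit 589883) (.g (nat_lit 2875) (.e (nat_lit 532504) (nat_lit 1) (.e (nat_lit 57851) (nat_lit 252) (.e (nat_lit 57406) (nat_lit 12) (.e (nat_lit 336456) (nat_lit 34) (.e (nat_lit 483379) (nat_lit 23) (.e (nat_lit 336258) (nat_lit 15) (.e (nat_lit 3248) (nat_lit 197) .nil))))))) (.g (nat_lit 1) (.e (nat_lit 397007) (nat_lit 0) .nil) .nil))) 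
(.lf (nat_lit 590395) (.g (nat_lit 2169) (.e (nat_lit 532514) (nat_lit 3) (.e (nat_lit 114698) (nat_lit 11) (.e (nat_lit 426139) (nat_lit 3) (.e (nat_lit 204859) (nat_lit 26) (.e (nat_lit 336206) (nat_lit 12) .nil))))) (.g (nat_lit 0) (.e (nat_lit 397852) (nat_lit 0) .nil) .nil)))) (.nd (nat_lit 9) 
(.lf (nat_lit 590139) (.g (nat_lit 2002) (.e (nat_lit 532512) (nat_lit 3) (.e (nat_lit 114715) (nat_lit 22) (.e (nat_lit 90170) (nat_lit 13) (.e (nat_lit 172064) (nat_lit 2) (.e (nat_lit 204544) (nat_lit 2) .nil))))) (.g (nat_lit 0) (.e (nat_lit 397320) (nat_lit 0) .nil) .nil))) 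
(.lf (nat_lit 590651) (.g (nat_lit 3013) (.e (nat_lit 532522) (nat_lit 7) (.e (nat_lit 319530) (nat_lit 16) (.e (nat_lit 286735) (nat_lit 3) (.e (nat_lit 98358) (nat_lit 26) (.e (nat_lit 426294) (nat_lit 11) .nil))))) (.g (nat_lit 0) (.e (nat_lit 398706) (nat_lit 0) .nil) .nil))))) (.nd (nat_lit 8) (.nd (nat_lit 9) 
(.lf (nat_lit 590011) (.g (nat_lit 2347) (.e (nat_lit 532504) (nat_lit 1) (.e (nat_lit 57931) (nat_lit 282) (.e (nat_lit 163873) (nat_lit 3) (.e (nat_lit 204851) (nat_lit 26) (.e (nat_lit 336019) (nat_lit 3) .nil))))) (.g (nat_lit 0) (.e (nat_lit 397153) (nat_lit 0) .nil) .nil))) 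
(.lf (nat_lit 590523) (.g (nat_lit 2444) (.e (nat_lit 532515) (nat_lit 3) (.e (nat_lit 114716) (nat_lit 22) (.e (nat_lit 90172) (nat_lit 14) (.e (nat_lit 180244) (nat_lit 5) (.e (nat_lit 532502) (nat_lit 1) (.e (nat_lit 57688) (nat_lit 156) (.e (nat_lit 163844) (nat_lit 0) (.e (nat_lit 3248) (nat_lit 197) .nil)))))))) (.g (nat_lit 1) (.e (nat_lit 398278) (nat_lit 0) .nil) .nil)))) 
(.nd (nat_lit 9) 
(.lf (nat_lit 590267) (.g (nat_lit 3033) (.e (nat_lit 532513) (nat_lit 3) (.e (nat_lit 114714) (nat_lit 22) (.e (nat_lit 90172) (nat_lit 14) (.e (nat_lit 180244) (nat_lit 5) (.e (nat_lit 532503) (nat_lit 1) (.e (nat_lit 57685) (nat_lit 156) (.e (nat_lit 163844) (nat_lit 0) (.e (nat_lit 3248) (nat_lit 197) .nil)))))))) (.g (nat_lit 1) (.e (nat_lit 397588) (nat_lit 0) .nil) .nil))) 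
(.lf (nat_lit 590779) (.g (nat_lit 4204) (.e (nat_lit 532523) (nat_lit 7) (.e (nat_lit 319533) (nat_lit 16) (.e (nat_lit 286733) (nat_lit 2) (.e (nat_lit 90176) (nat_lit 15) (.e (nat_lit 188424) (nat_lit 20) (.e (nat_lit 3238) (nat_lit 197) .nil)))))) (.g (nat_lit 1) (.e (nat_lit 398878) (nat_lit 0) .nil) .nil)))))) (.nd (nat_lit 7) (.nd (nat_lit 8) (.nd (nat_lit 9) 
(.lf (nat_lit 589947) (.g (nat_lit 3723) (.e (nat_lit 532504) (nat_lit 1) (.e (nat_lit 57852) (nat_lit 252) (.e (nat_lit 57406) (nat_lit 12) (.e (nat_lit 336454) (nat_lit 34) (.e (nat_lit 483385) (nat_lit 23) (.e (nat_lit 336260) (nat_lit 15) (.e (nat_lit 3230) (nat_lit 197) .nil))))))) (.g (nat_lit 1) (.e (nat_lit 397072) (nat_lit 0) .nil) .nil))) 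
(.lf (nat_lit 590459) (.g (nat_lit 742) (.e (nat_lit 532515) (nat_lit 3) (.e (nat_lit 114694) (nat_lit 11) (.e (nat_lit 426114) (nat_lit 2) (.e (nat_lit 196681) (nat_lit 17) .nil)))) (.g (nat_lit 0) (.e (nat_lit 397975) (nat_lit 0) .nil) .nil)))) (.nd (nat_lit 9) 
(.lf (nat_lit 590203) (.g (nat_lit 2418) (.e (nat_lit 532513) (nat_lit 3) (.e (nat_lit 114714) (nat_lit 22) (.e (nat_lit 90172) (nat_lit 14) (.e (nat_lit 180243) (nat_lit 5) (.e (nat_lit 532501) (nat_lit 1) (.e (nat_lit 57651) (nat_lit 152) (.e (nat_lit 2719) (nat_lit 171) (.e (nat_lit 229433) (nat_lit 25) .nil)))))))) (.g (nat_lit 1) (.e (nat_lit 397501) (nat_lit 0) .nil) .nil))) 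
(.lf (nat_lit 590715) (.g (nat_lit 1936) (.e (nat_lit 532523) (nat_lit 7) (.e (nat_lit 319530) (nat_lit 16) (.e (nat_lit 286735) (nat_lit 3) (.e (nat_lit 98323) (nat_lit 17) (.e (nat_lit 7936) (nat_lit 388) .nil))))) (.g (nat_lit 0) (.e (nat_lit 398796) (nat_lit 0) .nil) .nil))))) (.nd (nat_lit 8) (.nd (nat_lit 9) 
(.lf (nat_lit 590075) (.g (nat_lit 1003) (.e (nat_lit 532510) (nat_lit 2) (.e (nat_lit 106534) (nat_lit 11) (.e (nat_lit 16413) (nat_lit 2) (.e (nat_lit 196681) (nat_lit 17) (.e (nat_lit 131109) (nat_lit 9) (.e (nat_lit 336238) (nat_lit 15) (.e (nat_lit 3248) (nat_lit 197) .nil))))))) (.g (nat_lit 1) (.e (nat_lit 397245) (nat_lit 0) .nil) .nil))) 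
(.lf (nat_lit 590587) (.g (nat_lit 4445) (.e (nat_lit 532515) (nat_lit 3) (.e (nat_lit 114719) (nat_lit 23) (.e (nat_lit 98356) (nat_lit 26) (.e (nat_lit 426438) (nat_lit 18) (.e (nat_lit 98334) (nat_lit 18) (.e (nat_lit 164305) (nat_lit 226) (.e (nat_lit 2612) (nat_lit 163) (.e (nat_lit 163964) (nat_lit 25) .nil)))))))) (.g (nat_lit 1) (.e (nat_lit 398552) (nat_lit 0) .nil) .nil)))) 
(.nd (nat_lit 9) 
(.lf (nat_lit 590331) (.g (nat_lit 3364) (.e (nat_lit 532513) (nat_lit 3) (.e (nat_lit 114714) (nat_lit 22) (.e (nat_lit 90174) (nat_lit 14) (.e (nat_lit 180243) (nat_lit 5) (.e (nat_lit 532504) (nat_lit 1) (.e (nat_lit 57663) (nat_lit 152) (.e (nat_lit 7936) (nat_lit 163) (.e (nat_lit 163962) (nat_lit 25) .nil)))))))) (.g (nat_lit 1) (.e (nat_lit 397666) (nat_lit 0) .nil) .nil))) 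
(.lf (nat_lit 590843) (.g (nat_lit 3995) (.e (nat_lit 532523) (nat_lit 7) (.e (nat_lit 319534) (nat_lit 16) (.e (nat_lit 286733) (nat_lit 2) (.e (nat_lit 90178) (nat_lit 15) (.e (nat_lit 188436) (nat_lit 20) (.e (nat_lit 3238) (nat_lit 197) .nil)))))) (.g (nat_lit 1) (.e (nat_lit 398954) (nat_lit 0) .nil) .nil)))))))))) 
(.nd (nat_lit 3) (.nd (nat_lit 4) (.nd (nat_lit 5) (.nd (nat_lit 6) (.nd (nat_lit 7) 
(.nd (nat_lit 8) (.nd (nat_lit 9) 
(.lf (nat_lit 589831) (.g (nat_lit 2492) (.e (nat_lit 532504) (nat_lit 1) (.e (nat_lit 57691) (nat_lit 156) (.e (nat_lit 163875) (nat_lit 3) (.e (nat_lit 204834) (nat_lit 19) (.e (nat_lit 106517) (nat_lit 9) .nil))))) (.g (nat_lit 0) (.e (nat_lit 396936) (nat_lit 0) .nil) .nil))) 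
(.lf (nat_lit 590343) (.g (nat_lit 1153) (.e (nat_lit 532513) (nat_lit 3) (.e (nat_lit 114714) (nat_lit 22) (.e (nat_lit 90185) (nat_lit 17) (.e (nat_lit 237594) (nat_lit 3) .nil)))) (.g (nat_lit 0) (.e (nat_lit 397681) (nat_lit 0) .nil) .nil)))) (.nd (nat_lit 9) 
(.lf (nat_lit 590087) (.g (nat_lit 1600) (.e (nat_lit 532510) (nat_lit 2) (.e (nat_lit 106536) (nat_lit 11) (.e (nat_lit 16412) (nat_lit 2) (.e (nat_lit 196674) (nat_lit 15) (.e (nat_lit 81922) (nat_lit 0) (.e (nat_lit 3231) (nat_lit 197) .nil)))))) (.g (nat_lit 1) (.e (nat_lit 397261) (nat_lit 0) .nil) .nil))) 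
(.lf (nat_lit 590599) (.g (nat_lit 1707) (.e (nat_lit 532515) (nat_lit 3) (.e (nat_lit 114719) (nat_lit 23) (.e (nat_lit 98365) (nat_lit 26) (.e (nat_lit 426123) (nat_lit 2) .nil)))) (.g (nat_lit 0) (.e (nat_lit 398580) (nat_lit 0) .nil) .nil))))) (.nd (nat_lit 8) (.nd (nat_lit 9) 
(.lf (nat_lit 589959) (.g (nat_lit 1317) (.e (nat_lit 532504) (nat_lit 1) (.e (nat_lit 57852) (nat_lit 252) (.e (nat_lit 57409) (nat_lit 12) (.e (nat_lit 343808) (nat_lit 34) .nil)))) (.g (nat_lit 0) (.e (nat_lit 397084) (nat_lit 0) .nil) .nil))) 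
(.lf (nat_lit 590471) (.g (nat_lit 349) (.e (nat_lit 532515) (nat_lit 3) (.e (nat_lit 114698) (nat_lit 11) (.e (nat_lit 426122) (nat_lit 2) .nil))) (.g (nat_lit 0) (.e (nat_lit 398033) (nat_lit 0) .nil) .nil)))) (.nd (nat_lit 9) 
(.lf (nat_lit 590215) (.g (nat_lit 2548) (.e (nat_lit 532513) (nat_lit 3) (.e (nat_lit 114714) (nat_lit 22) (.e (nat_lit 90172) (nat_lit 14) (.e (nat_lit 180243) (nat_lit 5) (.e (nat_lit 532503) (nat_lit 1) (.e (nat_lit 57685) (nat_lit 156) (.e (nat_lit 163850) (nat_lit 0) (.e (nat_lit 3252) (nat_lit 197) .nil)))))))) (.g (nat_lit 1) (.e (nat_lit 397515) (nat_lit 0) .nil) .nil))) 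
(.lf (nat_lit 590727) (.g (nat_lit 326) (.e (nat_lit 532523) (nat_lit 7) (.e (nat_lit 319531) (nat_lit 16) (.e (nat_lit 286733) (nat_lit 2) .nil))) (.g (nat_lit 0) (.e (nat_lit 398809) (nat_lit 0) .nil) .nil)))))) (.nd (nat_lit 7) (.nd (nat_lit 8) (.nd (nat_lit 9) 
(.lf (nat_lit 589895) (.g (nat_lit 3074) (.e (nat_lit 532504) (nat_lit 1) (.e (nat_lit 57851) (nat_lit 252) (.e (nat_lit 57406) (nat_lit 12) (.e (nat_lit 336456) (nat_lit 34) (.e (nat_lit 483383) (nat_lit 23) (.e (nat_lit 336240) (nat_lit 15) (.e (nat_lit 3247) (nat_lit 197) .nil))))))) (.g (nat_lit 1) (.e (nat_lit 397019) (nat_lit 0) .nil) .nil))) 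
(.lf (nat_lit 590407) (.g (nat_lit 2694) (.e (nat_lit 532514) (nat_lit 3) (.e (nat_lit 114716) (nat_lit 22) (.e (nat_lit 90172) (nat_lit 14) (.e (nat_lit 180244) (nat_lit 5) (.e (nat_lit 532503) (nat_lit 1) (.e (nat_lit 57687) (nat_lit 156) (.e (nat_lit 163844) (nat_lit 0) (.e (nat_lit 3230) (nat_lit 197) .nil)))))))) (.g (nat_lit 1) (.e (nat_lit 397899) (nat_lit 0) .nil) .nil)))) 
(.nd (nat_lit 9) 
(.lf (nat_lit 590151) (.g (nat_lit 2240) (.e (nat_lit 532513) (nat_lit 3) (.e (nat_lit 114698) (nat_lit 11) (.e (nat_lit 426122) (nat_lit 2) (.e (nat_lit 196672) (nat_lit 15) (.e (nat_lit 81924) (nat_lit 0) (.e (nat_lit 3253) (nat_lit 197) .nil)))))) (.g (nat_lit 1) (.e (nat_lit 397363) (nat_lit 0) .nil) .nil))) 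
(.lf (nat_lit 590663) (.g (nat_lit 3150) (.e (nat_lit 532522) (nat_lit 7) (.e (nat_lit 319531) (nat_lit 16) (.e (nat_lit 286735) (nat_lit 3) (.e (nat_lit 98382) (nat_lit 31) (.e (nat_lit 466967) (nat_lit 20) (.e (nat_lit 3253) (nat_lit 197) .nil)))))) (.g (nat_lit 1) (.e (nat_lit 398721) (nat_lit 0) .nil) .nil))))) (.nd (nat_lit 8) (.nd (nat_lit 9) 
(.lf (nat_lit 590023) (.g (nat_lit 2646) (.e (nat_lit 532505) (nat_lit 2) (.e (nat_lit 106536) (nat_lit 11) (.e (nat_lit 16416) (nat_lit 3) (.e (nat_lit 204877) (nat_lit 31) .nil)))) (.g (nat_lit 0) (.e (nat_lit 397166) (nat_lit 0) .nil) .nil))) 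
(.lf (nat_lit 590535) (.g (nat_lit 4918) (.e (nat_lit 532515) (nat_lit 3) (.e (nat_lit 114716) (nat_lit 22) (.e (nat_lit 90174) (nat_lit 14) (.e (nat_lit 180243) (nat_lit 5) (.e (nat_lit 532499) (nat_lit 1) (.e (nat_lit 57688) (nat_lit 156) (.e (nat_lit 163843) (nat_lit 0) (.e (nat_lit 3248) (nat_lit 197) .nil)))))))) (.g (nat_lit 1) (.e (nat_lit 398353) (nat_lit 0) .nil) .nil)))) 
(.nd (nat_lit 9) 
(.lf (nat_lit 590279) (.g (nat_lit 2853) (.e (nat_lit 532513) (nat_lit 3) (.e (nat_lit 114714) (nat_lit 22) (.e (nat_lit 90172) (nat_lit 14) (.e (nat_lit 180244) (nat_lit 5) (.e (nat_lit 532575) (nat_lit 17) (.e (nat_lit 7098) (nat_lit 380) (.e (nat_lit 171776) (nat_lit 86) .nil))))))) (.g (nat_lit 1) (.e (nat_lit 397602) (nat_lit 0) .nil) .nil))) 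
(.lf (nat_lit 590791) (.g (nat_lit 1278) (.e (nat_lit 532523) (nat_lit 7) (.e (nat_lit 319533) (nat_lit 16) (.e (nat_lit 286734) (nat_lit 3) (.e (nat_lit 98359) (nat_lit 26) .nil)))) (.g (nat_lit 0) (.e (nat_lit 398890) (nat_lit 0) .nil) .nil))))))) (.nd (nat_lit 6) (.nd (nat_lit 7) (.nd (nat_lit 8) (.nd (nat_lit 9) 
(.lf (nat_lit 589863) (.g (nat_lit 1907) (.e (nat_lit 532504) (nat_lit 1) (.e (nat_lit 57851) (nat_lit 252) (.e (nat_lit 57406) (nat_lit 12) (.e (nat_lit 336367) (nat_lit 27) (.e (nat_lit 426542) (nat_lit 29) (.e (nat_lit 352266) (nat_lit 0) (.e (nat_lit 3230) (nat_lit 197) .nil))))))) (.g (nat_lit 1) (.e (nat_lit 396987) (nat_lit 0) .nil) .nil))) 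
(.lf (nat_lit 590375) (.g (nat_lit 2298) (.e (nat_lit 532513) (nat_lit 3) (.e (nat_lit 114719) (nat_lit 23) (.e (nat_lit 98356) (nat_lit 26) (.e (nat_lit 426438) (nat_lit 18) (.e (nat_lit 98334) (nat_lit 18) (.e (nat_lit 164305) (nat_lit 226) (.e (nat_lit 2612) (nat_lit 163) (.e (nat_lit 163963) (nat_lit 25) .nil)))))))) (.g (nat_lit 1) (.e (nat_lit 397741) (nat_lit 0) .nil) .nil)))) 
(.nd (nat_lit 9) 
(.lf (nat_lit 590119) (.g (nat_lit 1406) (.e (nat_lit 532511) (nat_lit 2) (.e (nat_lit 106534) (nat_lit 11) (.e (nat_lit 16416) (nat_lit 3) (.e (nat_lit 204877) (nat_lit 31) (.e (nat_lit 376833) (nat_lit 0) .nil))))) (.g (nat_lit 0) (.e (nat_lit 397297) (nat_lit 0) .nil) .nil))) 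
(.lf (nat_lit 590631) (.g (nat_lit 3029) (.e (nat_lit 532515) (nat_lit 3) (.e (nat_lit 114719) (nat_lit 23) (.e (nat_lit 98386) (nat_lit 32) (.e (nat_lit 475178) (nat_lit 24) (.e (nat_lit 516117) (nat_lit 1) (.e (nat_lit 164329) (nat_lit 230) (.e (nat_lit 163850) (nat_lit 0) (.e (nat_lit 3252) (nat_lit 197) .nil)))))))) (.g (nat_lit 1) (.e (nat_lit 398664) (nat_lit 0) .nil) .nil))))) 
(.nd (nat_lit 8) (.nd (nat_lit 9) 
(.lf (nat_lit 589991) (.g (nat_lit 2868) (.e (nat_lit 532504) (nat_lit 1) (.e (nat_lit 57929) (nat_lit 282) (.e (nat_lit 163869) (nat_lit 2) (.e (nat_lit 196670) (nat_lit 14) (.e (nat_lit 73746) (nat_lit 3) (.e (nat_lit 516126) (nat_lit 2) (.e (nat_lit 213038) (nat_lit 13) (.e (nat_lit 229434) (nat_lit 25) .nil)))))))) (.g (nat_lit 1) (.e (nat_lit 397128) (nat_lit 0) .nil) .nil))) 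
(.lf (nat_lit 590503) (.g (nat_lit 1152) (.e (nat_lit 532515) (nat_lit 3) (.e (nat_lit 114716) (nat_lit 22) (.e (nat_lit 90167) (nat_lit 13) (.e (nat_lit 172064) (nat_lit 2) (.e (nat_lit 204544) (nat_lit 2) .nil))))) (.g (nat_lit 0) (.e (nat_lit 398166) (nat_lit 0) .nil) .nil)))) (.nd (nat_lit 9) 
(.lf (nat_lit 590247) (.g (nat_lit 2782) (.e (nat_lit 532513) (nat_lit 3) (.e (nat_lit 114714) (nat_lit 22) (.e (nat_lit 90172) (nat_lit 14) (.e (nat_lit 180244) (nat_lit 5) (.e (nat_lit 532501) (nat_lit 1) (.e (nat_lit 57661) (nat_lit 152) (.e (nat_lit 2715) (nat_lit 171) (.e (nat_lit 229433) (nat_lit 25) .nil)))))))) (.g (nat_lit 1) (.e (nat_lit 397557) (nat_lit 0) .nil) .nil))) 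
(.lf (nat_lit 590759) (.g (nat_lit 333) (.e (nat_lit 532523) (nat_lit 7) (.e (nat_lit 319532) (nat_lit 16) (.e (nat_lit 286732) (nat_lit 2) .nil))) (.g (nat_lit 0) (.e (nat_lit 398844) (nat_lit 0) .nil) .nil)))))) (.nd (nat_lit 7) (.nd (nat_lit 8) (.nd (nat_lit 9) 
(.lf (nat_lit 589927) (.g (nat_lit 4805) (.e (nat_lit 532504) (nat_lit 1) (.e (nat_lit 57852) (nat_lit 252) (.e (nat_lit 57354) (nat_lit 0) (.e (nat_lit 1855) (nat_lit 124) (.e (nat_lit 557105) (nat_lit 14) (.e (nat_lit 180252) (nat_lit 10) (.e (nat_lit 573482) (nat_lit 13) (.e (nat_lit 65637) (nat_lit 15) (.e (nat_lit 3253) (nat_lit 197) .nil))))))))) (.g (nat_lit 1) (.e (nat_lit 397051) (nat_lit 0) .nil) .nil))) 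
(.lf (nat_lit 590439) (.g (nat_lit 3855) (.e (nat_lit 532514) (nat_lit 3) (.e (nat_lit 114719) (nat_lit 23) (.e (nat_lit 98350) (nat_lit 24) (.e (nat_lit 409617) (nat_lit 10) (.e (nat_lit 632) (nat_lit 50) (.e (nat_lit 573487) (nat_lit 14) (.e (nat_lit 81664) (nat_lit 5) .nil))))))) (.g (nat_lit 1) (.e (nat_lit 397946) (nat_lit 0) .nil) .nil)))) (.nd (nat_lit 9) 
(.lf (nat_lit 590183) (.g (nat_lit 1811) (.e (nat_lit 532513) (nat_lit 3) (.e (nat_lit 114714) (nat_lit 22) (.e (nat_lit 90170) (nat_lit 13) (.e (nat_lit 172062) (nat_lit 2) .nil)))) (.g (nat_lit 0) (.e (nat_lit 397470) (nat_lit 0) .nil) .nil))) 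
(.lf (nat_lit 590695) (.g (nat_lit 2373) (.e (nat_lit 532523) (nat_lit 7) (.e (nat_lit 319529) (nat_lit 16) (.e (nat_lit 286733) (nat_lit 2) (.e (nat_lit 90134) (nat_lit 9) (.e (nat_lit 3025) (nat_lit 187) .nil))))) (.g (nat_lit 0) (.e (nat_lit 398774) (nat_lit 0) .nil) .nil))))) (.nd (nat_lit 8) (.nd (nat_lit 9) 
(.lf (nat_lit 590055) (.g (nat_lit 2993) (.e (nat_lit 532508) (nat_lit 2) (.e (nat_lit 106536) (nat_lit 11) (.e (nat_lit 16410) (nat_lit 2) (.e (nat_lit 196681) (nat_lit 17) (.e (nat_lit 131122) (nat_lit 12) .nil))))) (.g (nat_lit 0) (.e (nat_lit 397220) (nat_lit 0) .nil) .nil))) 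
(.lf (nat_lit 590567) (.g (nat_lit 4220) (.e (nat_lit 532515) (nat_lit 3) (.e (nat_lit 114718) (nat_lit 23) (.e (nat_lit 98356) (nat_lit 26) (.e (nat_lit 426436) (nat_lit 18) (.e (nat_lit 98335) (nat_lit 18) (.e (nat_lit 164305) (nat_lit 226) (.e (nat_lit 2612) (nat_lit 163) (.e (nat_lit 163964) (nat_lit 25) .nil)))))))) (.g (nat_lit 1) (.e (nat_lit 398496) (nat_lit 0) .nil) .nil)))) 
(.nd (nat_lit 9) 
(.lf (nat_lit 590311) (.g (nat_lit 3326) (.e (nat_lit 532513) (nat_lit 3) (.e (nat_lit 114714) (nat_lit 22) (.e (nat_lit 90174) (nat_lit 14) (.e (nat_lit 180243) (nat_lit 5) (.e (nat_lit 532501) (nat_lit 1) (.e (nat_lit 57663) (nat_lit 152) (.e (nat_lit 2715) (nat_lit 171) (.e (nat_lit 229433) (nat_lit 25) .nil)))))))) (.g (nat_lit 1) (.e (nat_lit 397640) (nat_lit 0) .nil) .nil))) 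
(.lf (nat_lit 590823) (.g (nat_lit 3181) (.e (nat_lit 532523) (nat_lit 7) (.e (nat_lit 319533) (nat_lit 16) (.e (nat_lit 286735) (nat_lit 3) (.e (nat_lit 98380) (nat_lit 31) (.e (nat_lit 466967) (nat_lit 20) (.e (nat_lit 3253) (nat_lit 197) .nil)))))) (.g (nat_lit 1) (.e (nat_lit 398922) (nat_lit 0) .nil) .nil)))))))) 
(.nd (nat_lit 5) (.nd (nat_lit 6) (.nd (nat_lit 7) (.nd (nat_lit 8) (.nd (nat_lit 9) 
(.lf (nat_lit 589847) (.g (nat_lit 3472) (.e (nat_lit 532504) (nat_lit 1) (.e (nat_lit 57692) (nat_lit 156) (.e (nat_lit 163875) (nat_lit 3) (.e (nat_lit 204837) (nat_lit 20) (.e (nat_lit 114719) (nat_lit 23) (.e (nat_lit 98367) (nat_lit 27) (.e (nat_lit 434234) (nat_lit 23) .nil))))))) (.g (nat_lit 1) (.e (nat_lit 396956) (nat_lit 0) .nil) .nil))) 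
(.lf (nat_lit 590359) (.g (nat_lit 4772) (.e (nat_lit 532513) (nat_lit 3) (.e (nat_lit 114718) (nat_lit 23) (.e (nat_lit 98384) (nat_lit 32) (.e (nat_lit 475179) (nat_lit 24) (.e (nat_lit 516117) (nat_lit 1) (.e (nat_lit 164304) (nat_lit 226) (.e (nat_lit 2612) (nat_lit 163) (.e (nat_lit 163964) (nat_lit 25) .nil)))))))) (.g (nat_lit 1) (.e (nat_lit 397711) (nat_lit 0) .nil) .nil)))) 
(.nd (nat_lit 9) 
(.lf (nat_lit 590103) (.g (nat_lit 1538) (.e (nat_lit 532510) (nat_lit 2) (.e (nat_lit 106536) (nat_lit 11) (.e (nat_lit 16416) (nat_lit 3) (.e (nat_lit 204866) (nat_lit 28) (.e (nat_lit 352261) (nat_lit 0) .nil))))) (.g (nat_lit 0) (.e (nat_lit 397277) (nat_lit 0) .nil) .nil))) 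
(.lf (nat_lit 590615) (.g (nat_lit 2471) (.e (nat_lit 532515) (nat_lit 3) (.e (nat_lit 114719) (nat_lit 23) (.e (nat_lit 98365) (nat_lit 26) (.e (nat_lit 426139) (nat_lit 3) (.e (nat_lit 204829) (nat_lit 18) .nil))))) (.g (nat_lit 0) (.e (nat_lit 398606) (nat_lit 0) .nil) .nil))))) (.nd (nat_lit 8) (.nd (nat_lit 9) 
(.lf (nat_lit 589975) (.g (nat_lit 3715) (.e (nat_lit 532504) (nat_lit 1) (.e (nat_lit 57854) (nat_lit 252) (.e (nat_lit 57406) (nat_lit 12) (.e (nat_lit 336454) (nat_lit 34) (.e (nat_lit 483385) (nat_lit 23) (.e (nat_lit 336260) (nat_lit 15) (.e (nat_lit 3251) (nat_lit 197) .nil))))))) (.g (nat_lit 1) (.e (nat_lit 397110) (nat_lit 0) .nil) .nil))) 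
(.lf (nat_lit 590487) (.g (nat_lit 1713) (.e (nat_lit 532515) (nat_lit 3) (.e (nat_lit 114698) (nat_lit 11) (.e (nat_lit 426139) (nat_lit 3) (.e (nat_lit 204852) (nat_lit 26) .nil)))) (.g (nat_lit 0) (.e (nat_lit 398066) (nat_lit 0) .nil) .nil)))) (.nd (nat_lit 9) 
(.lf (nat_lit 590231) (.g (nat_lit 3881) (.e (nat_lit 532513) (nat_lit 3) (.e (nat_lit 114714) (nat_lit 22) (.e (nat_lit 90172) (nat_lit 14) (.e (nat_lit 180244) (nat_lit 5) (.e (nat_lit 532499) (nat_lit 1) (.e (nat_lit 57653) (nat_lit 152) (.e (nat_lit 2615) (nat_lit 163) (.e (nat_lit 163962) (nat_lit 25) .nil)))))))) (.g (nat_lit 1) (.e (nat_lit 397536) (nat_lit 0) .nil) .nil))) 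
(.lf (nat_lit 590743) (.g (nat_lit 2962) (.e (nat_lit 532523) (nat_lit 7) (.e (nat_lit 319531) (nat_lit 16) (.e (nat_lit 286735) (nat_lit 3) (.e (nat_lit 98350) (nat_lit 24) (.e (nat_lit 409607) (nat_lit 0) .nil))))) (.g (nat_lit 0) (.e (nat_lit 398828) (nat_lit 0) .nil) .nil)))))) (.nd (nat_lit 7) (.nd (nat_lit 8) (.nd (nat_lit 9) 
(.lf (nat_lit 589911) (.g (nat_lit 1983) (.e (nat_lit 532504) (nat_lit 1) (.e (nat_lit 57851) (nat_lit 252) (.e (nat_lit 57406) (nat_lit 12) (.e (nat_lit 336456) (nat_lit 34) (.e (nat_lit 483387) (nat_lit 23) (.e (nat_lit 336267) (nat_lit 15) (.e (nat_lit 3251) (nat_lit 197) .nil))))))) (.g (nat_lit 1) (.e (nat_lit 397035) (nat_lit 0) .nil) .nil))) 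
(.lf (nat_lit 590423) (.g (nat_lit 2116) (.e (nat_lit 532514) (nat_lit 3) (.e (nat_lit 114718) (nat_lit 23) (.e (nat_lit 98356) (nat_lit 26) (.e (nat_lit 426428) (nat_lit 17) (.e (nat_lit 98048) (nat_lit 5) .nil))))) (.g (nat_lit 0) (.e (nat_lit 397929) (nat_lit 0) .nil) .nil)))) (.nd (nat_lit 9) 
(.lf (nat_lit 590167) (.g (nat_lit 2227) (.e (nat_lit 532513) (nat_lit 3) (.e (nat_lit 114698) (nat_lit 11) (.e (nat_lit 426139) (nat_lit 3) (.e (nat_lit 204861) (nat_lit 26) (.e (nat_lit 336194) (nat_lit 12) (.e (nat_lit 385064) (nat_lit 26) .nil)))))) (.g (nat_lit 1) (.e (nat_lit 397409) (nat_lit 0) .nil) .nil))) 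
(.lf (nat_lit 590679) (.g (nat_lit 1091) (.e (nat_lit 532523) (nat_lit 7) (.e (nat_lit 319538) (nat_lit 19) (.e (nat_lit 311312) (nat_lit 2) (.e (nat_lit 196660) (nat_lit 12) .nil)))) (.g (nat_lit 0) (.e (nat_lit 398750) (nat_lit 0) .nil) .nil))))) (.nd (nat_lit 8) (.nd (nat_lit 9) 
(.lf (nat_lit 590039) (.g (nat_lit 2260) (.e (nat_lit 532507) (nat_lit 2) (.e (nat_lit 106536) (nat_lit 11) (.e (nat_lit 16416) (nat_lit 3) (.e (nat_lit 204876) (nat_lit 31) .nil)))) (.g (nat_lit 0) (.e (nat_lit 397193) (nat_lit 0) .nil) .nil))) 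
(.lf (nat_lit 590551) (.g (nat_lit 2405) (.e (nat_lit 532515) (nat_lit 3) (.e (nat_lit 114716) (nat_lit 22) (.e (nat_lit 90185) (nat_lit 17) (.e (nat_lit 237594) (nat_lit 3) (.e (nat_lit 204805) (nat_lit 0) (.e (nat_lit 7098) (nat_lit 380) (.e (nat_lit 171776) (nat_lit 86) .nil))))))) (.g (nat_lit 1) (.e (nat_lit 398465) (nat_lit 0) .nil) .nil)))) (.nd (nat_lit 9) 
(.lf (nat_lit 590295) (.g (nat_lit 2900) (.e (nat_lit 532513) (nat_lit 3) (.e (nat_lit 114714) (nat_lit 22) (.e (nat_lit 90174) (nat_lit 14) (.e (nat_lit 180243) (nat_lit 5) (.e (nat_lit 532499) (nat_lit 1) (.e (nat_lit 57657) (nat_lit 152) (.e (nat_lit 2715) (nat_lit 171) (.e (nat_lit 229433) (nat_lit 25) .nil)))))))) (.g (nat_lit 1) (.e (nat_lit 397622) (nat_lit 0) .nil) .nil))) 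
(.lf (nat_lit 590807) (.g (nat_lit 3139) (.e (nat_lit 532523) (nat_lit 7) (.e (nat_lit 319533) (nat_lit 16) (.e (nat_lit 286735) (nat_lit 3) (.e (nat_lit 98365) (nat_lit 26) (.e (nat_lit 426297) (nat_lit 11) .nil))))) (.g (nat_lit 0) (.e (nat_lit 398906) (nat_lit 0) .nil) .nil))))))) (.nd (nat_lit 6) (.nd (nat_lit 7) (.nd (nat_lit 8) (.nd (nat_lit 9) 
(.lf (nat_lit 589879) (.g (nat_lit 1567) (.e (nat_lit 532504) (nat_lit 1) (.e (nat_lit 57851) (nat_lit 252) (.e (nat_lit 57406) (nat_lit 12) (.e (nat_lit 336456) (nat_lit 34) (.e (nat_lit 483379) (nat_lit 23) .nil))))) (.g (nat_lit 0) (.e (nat_lit 397003) (nat_lit 0) .nil) .nil))) 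
(.lf (nat_lit 590391) (.g (nat_lit 3837) (.e (nat_lit 532514) (nat_lit 3) (.e (nat_lit 114698) (nat_lit 11) (.e (nat_lit 426123) (nat_lit 2) (.e (nat_lit 196666) (nat_lit 13) (.e (nat_lit 65622) (nat_lit 12) (.e (nat_lit 385068) (nat_lit 26) .nil)))))) (.g (nat_lit 1) (.e (nat_lit 397824) (nat_lit 0) .nil) .nil)))) (.nd (nat_lit 9) 
(.lf (nat_lit 590135) (.g (nat_lit 2764) (.e (nat_lit 532511) (nat_lit 2) (.e (nat_lit 106536) (nat_lit 11) (.e (nat_lit 16415) (nat_lit 3) (.e (nat_lit 204861) (nat_lit 26) (.e (nat_lit 336194) (nat_lit 12) (.e (nat_lit 385067) (nat_lit 26) .nil)))))) (.g (nat_lit 1) (.e (nat_lit 397315) (nat_lit 0) .nil) .nil))) 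
(.lf (nat_lit 590647) (.g (nat_lit 1479) (.e (nat_lit 532522) (nat_lit 7) (.e (nat_lit 319530) (nat_lit 16) (.e (nat_lit 286733) (nat_lit 2) (.e (nat_lit 90166) (nat_lit 13) .nil)))) (.g (nat_lit 0) (.e (nat_lit 398702) (nat_lit 0) .nil) .nil))))) (.nd (nat_lit 8) (.nd (nat_lit 9) 
(.lf (nat_lit 590007) (.g (nat_lit 3679) (.e (nat_lit 532504) (nat_lit 1) (.e (nat_lit 57931) (nat_lit 282) (.e (nat_lit 163869) (nat_lit 2) (.e (nat_lit 196670) (nat_lit 14) (.e (nat_lit 73746) (nat_lit 3) (.e (nat_lit 516126) (nat_lit 2) (.e (nat_lit 213038) (nat_lit 13) (.e (nat_lit 229434) (nat_lit 25) .nil)))))))) (.g (nat_lit 1) (.e (nat_lit 397147) (nat_lit 0) .nil) .nil))) 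
(.lf (nat_lit 590519) (.g (nat_lit 4654) (.e (nat_lit 532515) (nat_lit 3) (.e (nat_lit 114716) (nat_lit 22) (.e (nat_lit 90172) (nat_lit 14) (.e (nat_lit 180244) (nat_lit 5) (.e (nat_lit 532499) (nat_lit 1) (.e (nat_lit 57688) (nat_lit 156) (.e (nat_lit 163843) (nat_lit 0) (.e (nat_lit 3248) (nat_lit 197) .nil)))))))) (.g (nat_lit 1) (.e (nat_lit 398245) (nat_lit 0) .nil) .nil)))) 
(.nd (nat_lit 9) 
(.lf (nat_lit 590263) (.g (nat_lit 2248) (.e (nat_lit 532513) (nat_lit 3) (.e (nat_lit 114714) (nat_lit 22) (.e (nat_lit 90172) (nat_lit 14) (.e (nat_lit 180244) (nat_lit 5) (.e (nat_lit 532503) (nat_lit 1) (.e (nat_lit 57659) (nat_lit 152) (.e (nat_lit 2715) (nat_lit 171) (.e (nat_lit 229433) (nat_lit 25) .nil)))))))) (.g (nat_lit 1) (.e (nat_lit 397583) (nat_lit 0) .nil) .nil))) 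
(.lf (nat_lit 590775) (.g (nat_lit 1756) (.e (nat_lit 532523) (nat_lit 7) (.e (nat_lit 319533) (nat_lit 16) (.e (nat_lit 286733) (nat_lit 2) (.e (nat_lit 90134) (nat_lit 9) .nil)))) (.g (nat_lit 0) (.e (nat_lit 398870) (nat_lit 0) .nil) .nil)))))) (.nd (nat_lit 7) (.nd (nat_lit 8) (.nd (nat_lit 9) 
(.lf (nat_lit 589943) (.g (nat_lit 1791) (.e (nat_lit 532504) (nat_lit 1) (.e (nat_lit 57852) (nat_lit 252) (.e (nat_lit 57406) (nat_lit 12) (.e (nat_lit 336375) (nat_lit 27) .nil)))) (.g (nat_lit 0) (.e (nat_lit 397068) (nat_lit 0) .nil) .nil))) 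
(.lf (nat_lit 590455) (.g (nat_lit 2862) (.e (nat_lit 532514) (nat_lit 3) (.e (nat_lit 114719) (nat_lit 23) (.e (nat_lit 98365) (nat_lit 26) (.e (nat_lit 426133) (nat_lit 3) (.e (nat_lit 204805) (nat_lit 0) (.e (nat_lit 7105) (nat_lit 380) (.e (nat_lit 171776) (nat_lit 86) .nil))))))) (.g (nat_lit 1) (.e (nat_lit 397962) (nat_lit 0) .nil) .nil)))) (.nd (nat_lit 9) 
(.lf (nat_lit 590199) (.g (nat_lit 3646) (.e (nat_lit 532513) (nat_lit 3) (.e (nat_lit 114714) (nat_lit 22) (.e (nat_lit 90172) (nat_lit 14) (.e (nat_lit 180243) (nat_lit 5) (.e (nat_lit 532499) (nat_lit 1) (.e (nat_lit 57654) (nat_lit 152) (.e (nat_lit 2615) (nat_lit 163) (.e (nat_lit 163962) (nat_lit 25) .nil)))))))) (.g (nat_lit 1) (.e (nat_lit 397495) (nat_lit 0) .nil) .nil))) 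
(.lf (nat_lit 590711) (.g (nat_lit 2490) (.e (nat_lit 532523) (nat_lit 7) (.e (nat_lit 319530) (nat_lit 16) (.e (nat_lit 286733) (nat_lit 2) (.e (nat_lit 90134) (nat_lit 9) (.e (nat_lit 2868) (nat_lit 184) .nil))))) (.g (nat_lit 0) (.e (nat_lit 398791) (nat_lit 0) .nil) .nil))))) (.nd (nat_lit 8) (.nd (nat_lit 9) 
(.lf (nat_lit 590071) (.g (nat_lit 1473) (.e (nat_lit 532510) (nat_lit 2) (.e (nat_lit 106534) (nat_lit 11) (.e (nat_lit 16413) (nat_lit 2) (.e (nat_lit 196668) (nat_lit 14) (.e (nat_lit 81664) (nat_lit 41) .nil))))) (.g (nat_lit 0) (.e (nat_lit 397241) (nat_lit 0) .nil) .nil))) 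
(.lf (nat_lit 590583) (.g (nat_lit 2543) (.e (nat_lit 532515) (nat_lit 3) (.e (nat_lit 114719) (nat_lit 23) (.e (nat_lit 98354) (nat_lit 26) (.e (nat_lit 426140) (nat_lit 3) (.e (nat_lit 212736) (nat_lit 7) (.e (nat_lit 409617) (nat_lit 10) (.e (nat_lit 604) (nat_lit 45) .nil))))))) (.g (nat_lit 1) (.e (nat_lit 398546) (nat_lit 0) .nil) .nil)))) (.nd (nat_lit 9) 
(.lf (nat_lit 590327) (.g (nat_lit 2442) (.e (nat_lit 532513) (nat_lit 3) (.e (nat_lit 114714) (nat_lit 22) (.e (nat_lit 90174) (nat_lit 14) (.e (nat_lit 180243) (nat_lit 5) (.e (nat_lit 532504) (nat_lit 1) (.e (nat_lit 57651) (nat_lit 152) (.e (nat_lit 2715) (nat_lit 171) (.e (nat_lit 229433) (nat_lit 25) .nil)))))))) (.g (nat_lit 1) (.e (nat_lit 397661) (nat_lit 0) .nil) .nil))) 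
(.lf (nat_lit 590839) (.g (nat_lit 1925) (.e (nat_lit 532523) (nat_lit 7) (.e (nat_lit 319534) (nat_lit 16) (.e (nat_lit 286733) (nat_lit 2) (.e (nat_lit 90169) (nat_lit 13) (.e (nat_lit 172057) (nat_lit 0) .nil))))) (.g (nat_lit 0) (.e (nat_lit 398950) (nat_lit 0) .nil) .nil))))))))) (.nd (nat_lit 4) (.nd (nat_lit 5) (.nd (nat_lit 6) (.nd (nat_lit 7) (.nd (nat_lit 8) (.nd (nat_lit 9) 
(.lf (nat_lit 589839) (.g (nat_lit 2290) (.e (nat_lit 532504) (nat_lit 1) (.e (nat_lit 57692) (nat_lit 156) (.e (nat_lit 163869) (nat_lit 2) (.e (nat_lit 196624) (nat_lit 9) (.e (nat_lit 1276) (nat_lit 94) .nil))))) (.g (nat_lit 0) (.e (nat_lit 396948) (nat_lit 0) .nil) .nil))) 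
(.lf (nat_lit 590351) (.g (nat_lit 1050) (.e (nat_lit 532513) (nat_lit 3) (.e (nat_lit 114718) (nat_lit 23) (.e (nat_lit 98356) (nat_lit 26) (.e (nat_lit 426428) (nat_lit 17) .nil)))) (.g (nat_lit 0) (.e (nat_lit 397696) (nat_lit 0) .nil) .nil)))) (.nd (nat_lit 9) 
(.lf (nat_lit 590095) (.g (nat_lit 1085) (.e (nat_lit 532510) (nat_lit 2) (.e (nat_lit 106536) (nat_lit 11) (.e (nat_lit 16413) (nat_lit 2) (.e (nat_lit 196674) (nat_lit 15) (.e (nat_lit 89856) (nat_lit 0) (.e (nat_lit 3233) (nat_lit 197) .nil)))))) (.g (nat_lit 1) (.e (nat_lit 397269) (nat_lit 0) .nil) .nil))) 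
(.lf (nat_lit 590607) (.g (nat_lit 3039) (.e (nat_lit 532515) (nat_lit 3) (.e (nat_lit 114719) (nat_lit 23) (.e (nat_lit 98365) (nat_lit 26) (.e (nat_lit 426133) (nat_lit 3) (.e (nat_lit 204805) (nat_lit 0) (.e (nat_lit 7106) (nat_lit 380) (.e (nat_lit 171776) (nat_lit 86) .nil))))))) (.g (nat_lit 1) (.e (nat_lit 398597) (nat_lit 0) .nil) .nil))))) (.nd (nat_lit 8) (.nd (nat_lit 9) 
(.lf (nat_lit 589967) (.g (nat_lit 2390) (.e (nat_lit 532504) (nat_lit 1) (.e (nat_lit 57854) (nat_lit 252) (.e (nat_lit 57373) (nat_lit 2) (.e (nat_lit 90158) (nat_lit 11) .nil)))) (.g (nat_lit 0) (.e (nat_lit 397097) (nat_lit 0) .nil) .nil))) 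
(.lf (nat_lit 590479) (.g (nat_lit 2767) (.e (nat_lit 532515) (nat_lit 3) (.e (nat_lit 114698) (nat_lit 11) (.e (nat_lit 426123) (nat_lit 2) (.e (nat_lit 196681) (nat_lit 17) (.e (nat_lit 131123) (nat_lit 12) (.e (nat_lit 385066) (nat_lit 26) .nil)))))) (.g (nat_lit 1) (.e (nat_lit 398047) (nat_lit 0) .nil) .nil)))) (.nd (nat_lit 9) 
(.lf (nat_lit 590223) (.g (nat_lit 2640) (.e (nat_lit 532513) (nat_lit 3) (.e (nat_lit 114714) (nat_lit 22) (.e (nat_lit 90172) (nat_lit 14) (.e (nat_lit 180243) (nat_lit 5) (.e (nat_lit 532504) (nat_lit 1) (.e (nat_lit 57663) (nat_lit 152) (.e (nat_lit 2717) (nat_lit 171) (.e (nat_lit 229432) (nat_lit 25) .nil)))))))) (.g (nat_lit 1) (.e (nat_lit 397526) (nat_lit 0) .nil) .nil))) 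
(.lf (nat_lit 590735) (.g (nat_lit 4033) (.e (nat_lit 532523) (nat_lit 7) (.e (nat_lit 319531) (nat_lit 16) (.e (nat_lit 286733) (nat_lit 2) (.e (nat_lit 90176) (nat_lit 15) (.e (nat_lit 188439) (nat_lit 20) (.e (nat_lit 3238) (nat_lit 197) .nil)))))) (.g (nat_lit 1) (.e (nat_lit 398820) (nat_lit 0) .nil) .nil)))))) (.nd (nat_lit 7) (.nd (nat_lit 8) (.nd (nat_lit 9) 
(.lf (nat_lit 589903) (.g (nat_lit 2946) (.e (nat_lit 532504) (nat_lit 1) (.e (nat_lit 57851) (nat_lit 252) (.e (nat_lit 57406) (nat_lit 12) (.e (nat_lit 336456) (nat_lit 34) (.e (nat_lit 483383) (nat_lit 23) (.e (nat_lit 336258) (nat_lit 15) (.e (nat_lit 3247) (nat_lit 197) .nil))))))) (.g (nat_lit 1) (.e (nat_lit 397027) (nat_lit 0) .nil) .nil))) 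
(.lf (nat_lit 590415) (.g (nat_lit 964) (.e (nat_lit 532514) (nat_lit 3) (.e (nat_lit 114716) (nat_lit 22) (.e (nat_lit 90185) (nat_lit 17) (.e (nat_lit 237592) (nat_lit 3) .nil)))) (.g (nat_lit 0) (.e (nat_lit 397918) (nat_lit 0) .nil) .nil)))) (.nd (nat_lit 9) 
(.lf (nat_lit 590159) (.g (nat_lit 2000) (.e (nat_lit 532513) (nat_lit 3) (.e (nat_lit 114698) (nat_lit 11) (.e (nat_lit 426133) (nat_lit 3) (.e (nat_lit 204861) (nat_lit 26) (.e (nat_lit 336194) (nat_lit 12) (.e (nat_lit 385064) (nat_lit 26) .nil)))))) (.g (nat_lit 1) (.e (nat_lit 397390) (nat_lit 0) .nil) .nil))) 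
(.lf (nat_lit 590671) (.g (nat_lit 1998) (.e (nat_lit 532523) (nat_lit 7) (.e (nat_lit 319490) (nat_lit 0) (.e (nat_lit 5664) (nat_lit 312) (.e (nat_lit 2661) (nat_lit 167) .nil)))) (.g (nat_lit 0) (.e (nat_lit 398734) (nat_lit 0) .nil) .nil))))) (.nd (nat_lit 8) (.nd (nat_lit 9) 
(.lf (nat_lit 590031) (.g (nat_lit 1934) (.e (nat_lit 532506) (nat_lit 2) (.e (nat_lit 106536) (nat_lit 11) (.e (nat_lit 16416) (nat_lit 3) (.e (nat_lit 204866) (nat_lit 28) (.e (nat_lit 352261) (nat_lit 0) .nil))))) (.g (nat_lit 0) (.e (nat_lit 397177) (nat_lit 0) .nil) .nil))) 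
(.lf (nat_lit 590543) (.g (nat_lit 2633) (.e (nat_lit 532515) (nat_lit 3) (.e (nat_lit 114716) (nat_lit 22) (.e (nat_lit 90174) (nat_lit 14) (.e (nat_lit 180243) (nat_lit 5) (.e (nat_lit 532504) (nat_lit 1) (.e (nat_lit 57685) (nat_lit 156) (.e (nat_lit 163843) (nat_lit 0) (.e (nat_lit 3248) (nat_lit 197) .nil)))))))) (.g (nat_lit 1) (.e (nat_lit 398423) (nat_lit 0) .nil) .nil)))) 
(.nd (nat_lit 9) 
(.lf (nat_lit 590287) (.g (nat_lit 3204) (.e (nat_lit 532513) (nat_lit 3) (.e (nat_lit 114714) (nat_lit 22) (.e (nat_lit 90172) (nat_lit 14) (.e (nat_lit 180250) (nat_lit 10) (.e (nat_lit 573475) (nat_lit 12) (.e (nat_lit 57504) (nat_lit 38) (.e (nat_lit 639002) (nat_lit 11) (.e (nat_lit 229433) (nat_lit 25) .nil)))))))) (.g (nat_lit 1) (.e (nat_lit 397611) (nat_lit 0) .nil) .nil))) 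
(.lf (nat_lit 590799) (.g (nat_lit 2804) (.e (nat_lit 532523) (nat_lit 7) (.e (nat_lit 319533) (nat_lit 16) (.e (nat_lit 286735) (nat_lit 3) (.e (nat_lit 98354) (nat_lit 26) (.e (nat_lit 426272) (nat_lit 10) .nil))))) (.g (nat_lit 0) (.e (nat_lit 398898) (nat_lit 0) .nil) .nil))))))) (.nd (nat_lit 6) (.nd (nat_lit 7) (.nd (nat_lit 8) (.nd (nat_lit 9) 
(.lf (nat_lit 589871) (.g (nat_lit 2358) (.e (nat_lit 532504) (nat_lit 1) (.e (nat_lit 57851) (nat_lit 252) (.e (nat_lit 57406) (nat_lit 12) (.e (nat_lit 336454) (nat_lit 34) (.e (nat_lit 483383) (nat_lit 23) (.e (nat_lit 336240) (nat_lit 15) (.e (nat_lit 3230) (nat_lit 197) .nil))))))) (.g (nat_lit 1) (.e (nat_lit 396995) (nat_lit 0) .nil) .nil))) 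
(.lf (nat_lit 590383) (.g (nat_lit 4246) (.e (nat_lit 532513) (nat_lit 3) (.e (nat_lit 114719) (nat_lit 23) (.e (nat_lit 98384) (nat_lit 32) (.e (nat_lit 475179) (nat_lit 24) (.e (nat_lit 516117) (nat_lit 1) (.e (nat_lit 164304) (nat_lit 226) (.e (nat_lit 2612) (nat_lit 163) (.e (nat_lit 163964) (nat_lit 25) .nil)))))))) (.g (nat_lit 1) (.e (nat_lit 397773) (nat_lit 0) .nil) .nil)))) 
(.nd (nat_lit 9) 
(.lf (nat_lit 590127) (.g (nat_lit 1634) (.e (nat_lit 532511) (nat_lit 2) (.e (nat_lit 106536) (nat_lit 11) (.e (nat_lit 16413) (nat_lit 2) (.e (nat_lit 196670) (nat_lit 14) (.e (nat_lit 81664) (nat_lit 41) .nil))))) (.g (nat_lit 0) (.e (nat_lit 397307) (nat_lit 0) .nil) .nil))) 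
(.lf (nat_lit 590639) (.g (nat_lit 486) (.e (nat_lit 532522) (nat_lit 7) (.e (nat_lit 319505) (nat_lit 10) (.e (nat_lit 5395) (nat_lit 301) .nil))) (.g (nat_lit 0) (.e (nat_lit 398692) (nat_lit 0) .nil) .nil))))) (.nd (nat_lit 8) (.nd (nat_lit 9) 
(.lf (nat_lit 589999) (.g (nat_lit 2414) (.e (nat_lit 532504) (nat_lit 1) (.e (nat_lit 57931) (nat_lit 282) (.e (nat_lit 163869) (nat_lit 2) (.e (nat_lit 196663) (nat_lit 13) (.e (nat_lit 65569) (nat_lit 3) .nil))))) (.g (nat_lit 0) (.e (nat_lit 397139) (nat_lit 0) .nil) .nil))) 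
(.lf (nat_lit 590511) (.g (nat_lit 2601) (.e (nat_lit 532515) (nat_lit 3) (.e (nat_lit 114716) (nat_lit 22) (.e (nat_lit 90172) (nat_lit 14) (.e (nat_lit 180243) (nat_lit 5) (.e (nat_lit 532499) (nat_lit 1) (.e (nat_lit 57687) (nat_lit 156) (.e (nat_lit 163843) (nat_lit 0) (.e (nat_lit 3248) (nat_lit 197) .nil)))))))) (.g (nat_lit 1) (.e (nat_lit 398192) (nat_lit 0) .nil) .nil)))) 
(.nd (nat_lit 9) 
(.lf (nat_lit 590255) (.g (nat_lit 3152) (.e (nat_lit 532513) (nat_lit 3) (.e (nat_lit 114714) (nat_lit 22) (.e (nat_lit 90172) (nat_lit 14) (.e (nat_lit 180244) (nat_lit 5) (.e (nat_lit 532503) (nat_lit 1) (.e (nat_lit 57651) (nat_lit 152) (.e (nat_lit 2615) (nat_lit 163) (.e (nat_lit 163962) (nat_lit 25) .nil)))))))) (.g (nat_lit 1) (.e (nat_lit 397572) (nat_lit 0) .nil) .nil))) 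
(.lf (nat_lit 590767) (.g (nat_lit 1316) (.e (nat_lit 532523) (nat_lit 7) (.e (nat_lit 319532) (nat_lit 16) (.e (nat_lit 286735) (nat_lit 3) (.e (nat_lit 106240) (nat_lit 29) .nil)))) (.g (nat_lit 0) (.e (nat_lit 398853) (nat_lit 0) .nil) .nil)))))) (.nd (nat_lit 7) (.nd (nat_lit 8) (.nd (nat_lit 9) 
(.lf (nat_lit 589935) (.g (nat_lit 3573) (.e (nat_lit 532504) (nat_lit 1) (.e (nat_lit 57852) (nat_lit 252) (.e (nat_lit 57376) (nat_lit 3) (.e (nat_lit 98342) (nat_lit 20) (.e (nat_lit 221210) (nat_lit 22) (.e (nat_lit 196665) (nat_lit 13) (.e (nat_lit 65637) (nat_lit 15) (.e (nat_lit 3253) (nat_lit 197) .nil)))))))) (.g (nat_lit 1) (.e (nat_lit 397059) (nat_lit 0) .nil) .nil))) 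
(.lf (nat_lit 590447) (.g (nat_lit 1887) (.e (nat_lit 532514) (nat_lit 3) (.e (nat_lit 114719) (nat_lit 23) (.e (nat_lit 98356) (nat_lit 26) (.e (nat_lit 426438) (nat_lit 18) (.e (nat_lit 98335) (nat_lit 18) (.e (nat_lit 164305) (nat_lit 226) (.e (nat_lit 2612) (nat_lit 163) (.e (nat_lit 163964) (nat_lit 25) .nil)))))))) (.g (nat_lit 1) (.e (nat_lit 397954) (nat_lit 0) .nil) .nil)))) 
(.nd (nat_lit 9) 
(.lf (nat_lit 590191) (.g (nat_lit 1306) (.e (nat_lit 532513) (nat_lit 3) (.e (nat_lit 114714) (nat_lit 22) (.e (nat_lit 90170) (nat_lit 13) (.e (nat_lit 172067) (nat_lit 3) .nil)))) (.g (nat_lit 0) (.e (nat_lit 397481) (nat_lit 0) .nil) .nil))) 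
(.lf (nat_lit 590703) (.g (nat_lit 2939) (.e (nat_lit 532523) (nat_lit 7) (.e (nat_lit 319529) (nat_lit 16) (.e (nat_lit 286735) (nat_lit 3) (.e (nat_lit 98359) (nat_lit 26) (.e (nat_lit 426289) (nat_lit 10) .nil))))) (.g (nat_lit 0) (.e (nat_lit 398782) (nat_lit 0) .nil) .nil))))) (.nd (nat_lit 8) (.nd (nat_lit 9) 
(.lf (nat_lit 590063) (.g (nat_lit 1959) (.e (nat_lit 532508) (nat_lit 2) (.e (nat_lit 106536) (nat_lit 11) (.e (nat_lit 16416) (nat_lit 3) (.e (nat_lit 204866) (nat_lit 28) (.e (nat_lit 352261) (nat_lit 0) .nil))))) (.g (nat_lit 0) (.e (nat_lit 397229) (nat_lit 0) .nil) .nil))) 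
(.lf (nat_lit 590575) (.g (nat_lit 1895) (.e (nat_lit 532515) (nat_lit 3) (.e (nat_lit 114719) (nat_lit 23) (.e (nat_lit 98334) (nat_lit 18) (.e (nat_lit 164402) (nat_lit 256) .nil)))) (.g (nat_lit 0) (.e (nat_lit 398528) (nat_lit 0) .nil) .nil)))) (.nd (nat_lit 9) 
(.lf (nat_lit 590319) (.g (nat_lit 1854) (.e (nat_lit 532513) (nat_lit 3) (.e (nat_lit 114714) (nat_lit 22) (.e (nat_lit 90174) (nat_lit 14) (.e (nat_lit 180243) (nat_lit 5) (.e (nat_lit 532503) (nat_lit 1) .nil))))) (.g (nat_lit 0) (.e (nat_lit 397650) (nat_lit 0) .nil) .nil))) 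
(.lf (nat_lit 590831) (.g (nat_lit 1865) (.e (nat_lit 532523) (nat_lit 7) (.e (nat_lit 319534) (nat_lit 16) (.e (nat_lit 286732) (nat_lit 2) (.e (nat_lit 90165) (nat_lit 12) (.e (nat_lit 171776) (nat_lit 206) .nil))))) (.g (nat_lit 0) (.e (nat_lit 398934) (nat_lit 0) .nil) .nil)))))))) (.nd (nat_lit 5) (.nd (nat_lit 6) (.nd (nat_lit 7) (.nd (nat_lit 8) (.nd (nat_lit 9) 
(.lf (nat_lit 589855) (.g (nat_lit 2559) (.e (nat_lit 532504) (nat_lit 1) (.e (nat_lit 57851) (nat_lit 252) (.e (nat_lit 57354) (nat_lit 0) (.e (nat_lit 1855) (nat_lit 124) (.e (nat_lit 557105) (nat_lit 14) (.e (nat_lit 180252) (nat_lit 10) (.e (nat_lit 573480) (nat_lit 13) (.e (nat_lit 65636) (nat_lit 15) (.e (nat_lit 3249) (nat_lit 197) .nil))))))))) (.g (nat_lit 1) (.e (nat_lit 396978) (nat_lit 0) .nil) .nil))) 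
(.lf (nat_lit 590367) (.g (nat_lit 1405) (.e (nat_lit 532513) (nat_lit 3) (.e (nat_lit 114719) (nat_lit 23) (.e (nat_lit 98334) (nat_lit 18) (.e (nat_lit 164399) (nat_lit 256) .nil)))) (.g (nat_lit 0) (.e (nat_lit 397731) (nat_lit 0) .nil) .nil)))) (.nd (nat_lit 9) 
(.lf (nat_lit 590111) (.g (nat_lit 1170) (.e (nat_lit 532511) (nat_lit 2) (.e (nat_lit 106534) (nat_lit 11) (.e (nat_lit 16413) (nat_lit 2) (.e (nat_lit 196674) (nat_lit 15) (.e (nat_lit 89856) (nat_lit 0) (.e (nat_lit 3233) (nat_lit 197) .nil)))))) (.g (nat_lit 1) (.e (nat_lit 397289) (nat_lit 0) .nil) .nil))) 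
(.lf (nat_lit 590623) (.g (nat_lit 1948) (.e (nat_lit 532515) (nat_lit 3) (.e (nat_lit 114719) (nat_lit 23) (.e (nat_lit 98384) (nat_lit 32) (.e (nat_lit 475177) (nat_lit 24) (.e (nat_lit 516115) (nat_lit 1) .nil))))) (.g (nat_lit 0) (.e (nat_lit 398642) (nat_lit 0) .nil) .nil))))) (.nd (nat_lit 8) (.nd (nat_lit 9) 
(.lf (nat_lit 589983) (.g (nat_lit 2155) (.e (nat_lit 532504) (nat_lit 1) (.e (nat_lit 57854) (nat_lit 252) (.e (nat_lit 57445) (nat_lit 19) (.e (nat_lit 393229) (nat_lit 9) (.e (nat_lit 336085) (nat_lit 9) .nil))))) (.g (nat_lit 0) (.e (nat_lit 397118) (nat_lit 0) .nil) .nil))) 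
(.lf (nat_lit 590495) (.g (nat_lit 1807) (.e (nat_lit 532515) (nat_lit 3) (.e (nat_lit 114715) (nat_lit 22) (.e (nat_lit 90170) (nat_lit 13) (.e (nat_lit 172064) (nat_lit 2) (.e (nat_lit 204544) (nat_lit 2) .nil))))) (.g (nat_lit 0) (.e (nat_lit 398109) (nat_lit 0) .nil) .nil)))) (.nd (nat_lit 9) 
(.lf (nat_lit 590239) (.g (nat_lit 3124) (.e (nat_lit 532513) (nat_lit 3) (.e (nat_lit 114714) (nat_lit 22) (.e (nat_lit 90172) (nat_lit 14) (.e (nat_lit 180244) (nat_lit 5) (.e (nat_lit 532499) (nat_lit 1) (.e (nat_lit 57687) (nat_lit 156) (.e (nat_lit 163844) (nat_lit 0) (.e (nat_lit 3248) (nat_lit 197) .nil)))))))) (.g (nat_lit 1) (.e (nat_lit 397547) (nat_lit 0) .nil) .nil))) 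
(.lf (nat_lit 590751) (.g (nat_lit 1623) (.e (nat_lit 532523) (nat_lit 7) (.e (nat_lit 319531) (nat_lit 16) (.e (nat_lit 286735) (nat_lit 3) (.e (nat_lit 98369) (nat_lit 28) .nil)))) (.g (nat_lit 0) (.e (nat_lit 398836) (nat_lit 0) .nil) .nil)))))) (.nd (nat_lit 7) (.nd (nat_lit 8) (.nd (nat_lit 9) 
(.lf (nat_lit 589919) (.g (nat_lit 2358) (.e (nat_lit 532504) (nat_lit 1) (.e (nat_lit 57851) (nat_lit 252) (.e (nat_lit 57446) (nat_lit 19) (.e (nat_lit 393229) (nat_lit 9) (.e (nat_lit 336088) (nat_lit 9) (.e (nat_lit 336257) (nat_lit 15) (.e (nat_lit 3252) (nat_lit 197) .nil))))))) (.g (nat_lit 1) (.e (nat_lit 397043) (nat_lit 0) .nil) .nil))) 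
(.lf (nat_lit 590431) (.g (nat_lit 946) (.e (nat_lit 532514) (nat_lit 3) (.e (nat_lit 114719) (nat_lit 23) (.e (nat_lit 98323) (nat_lit 17) .nil))) (.g (nat_lit 0) (.e (nat_lit 397938) (nat_lit 0) .nil) .nil)))) (.nd (nat_lit 9) 
(.lf (nat_lit 590175) (.g (nat_lit 929) (.e (nat_lit 532513) (nat_lit 3) (.e (nat_lit 114714) (nat_lit 22) (.e (nat_lit 90167) (nat_lit 13) (.e (nat_lit 172064) (nat_lit 2) .nil)))) (.g (nat_lit 0) (.e (nat_lit 397456) (nat_lit 0) .nil) .nil))) 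
(.lf (nat_lit 590687) (.g (nat_lit 2531) (.e (nat_lit 532523) (nat_lit 7) (.e (nat_lit 319528) (nat_lit 16) (.e (nat_lit 286735) (nat_lit 3) (.e (nat_lit 98350) (nat_lit 24) (.e (nat_lit 409603) (nat_lit 0) .nil))))) (.g (nat_lit 0) (.e (nat_lit 398763) (nat_lit 0) .nil) .nil))))) (.nd (nat_lit 8) (.nd (nat_lit 9) 
(.lf (nat_lit 590047) (.g (nat_lit 1772) (.e (nat_lit 532508) (nat_lit 2) (.e (nat_lit 106534) (nat_lit 11) (.e (nat_lit 16413) (nat_lit 2) (.e (nat_lit 196674) (nat_lit 15) (.e (nat_lit 81922) (nat_lit 0) (.e (nat_lit 3251) (nat_lit 197) .nil)))))) (.g (nat_lit 1) (.e (nat_lit 397209) (nat_lit 0) .nil) .nil))) 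
(.lf (nat_lit 590559) (.g (nat_lit 2499) (.e (nat_lit 532515) (nat_lit 3) (.e (nat_lit 114718) (nat_lit 23) (.e (nat_lit 98334) (nat_lit 18) (.e (nat_lit 164398) (nat_lit 256) (.e (nat_lit 57377) (nat_lit 3) .nil))))) (.g (nat_lit 0) (.e (nat_lit 398488) (nat_lit 0) .nil) .nil)))) (.nd (nat_lit 9) 
(.lf (nat_lit 590303) (.g (nat_lit 3446) (.e (nat_lit 532513) (nat_lit 3) (.e (nat_lit 114714) (nat_lit 22) (.e (nat_lit 90174) (nat_lit 14) (.e (nat_lit 180243) (nat_lit 5) (.e (nat_lit 532501) (nat_lit 1) (.e (nat_lit 57651) (nat_lit 152) (.e (nat_lit 2615) (nat_lit 163) (.e (nat_lit 163962) (nat_lit 25) .nil)))))))) (.g (nat_lit 1) (.e (nat_lit 397631) (nat_lit 0) .nil) .nil))) 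
(.lf (nat_lit 590815) (.g (nat_lit 3194) (.e (nat_lit 532523) (nat_lit 7) (.e (nat_lit 319533) (nat_lit 16) (.e (nat_lit 286735) (nat_lit 3) (.e (nat_lit 98370) (nat_lit 28) (.e (nat_lit 442402) (nat_lit 20) .nil))))) (.g (nat_lit 0) (.e (nat_lit 398914) (nat_lit 0) .nil) .nil))))))) (.nd (nat_lit 6) (.nd (nat_lit 7) (.nd (nat_lit 8) (.nd (nat_lit 9) 
(.lf (nat_lit 589887) (.g (nat_lit 2914) (.e (nat_lit 532504) (nat_lit 1) (.e (nat_lit 57851) (nat_lit 252) (.e (nat_lit 57406) (nat_lit 12) (.e (nat_lit 336456) (nat_lit 34) (.e (nat_lit 483379) (nat_lit 23) (.e (nat_lit 336302) (nat_lit 15) (.e (nat_lit 3234) (nat_lit 197) .nil))))))) (.g (nat_lit 1) (.e (nat_lit 397011) (nat_lit 0) .nil) .nil))) 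
(.lf (nat_lit 590399) (.g (nat_lit 1439) (.e (nat_lit 532514) (nat_lit 3) (.e (nat_lit 114715) (nat_lit 22) (.e (nat_lit 90170) (nat_lit 13) (.e (nat_lit 172042) (nat_lit 0) .nil)))) (.g (nat_lit 0) (.e (nat_lit 397874) (nat_lit 0) .nil) .nil)))) (.nd (nat_lit 9) 
(.lf (nat_lit 590143) (.g (nat_lit 3341) (.e (nat_lit 532513) (nat_lit 3) (.e (nat_lit 114697) (nat_lit 11) (.e (nat_lit 426123) (nat_lit 2) (.e (nat_lit 196666) (nat_lit 13) (.e (nat_lit 65624) (nat_lit 12) (.e (nat_lit 385066) (nat_lit 26) .nil)))))) (.g (nat_lit 1) (.e (nat_lit 397334) (nat_lit 0) .nil) .nil))) 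
(.lf (nat_lit 590655) (.g (nat_lit 1987) (.e (nat_lit 532522) (nat_lit 7) (.e (nat_lit 319530) (nat_lit 16) (.e (nat_lit 286735) (nat_lit 3) (.e (nat_lit 98380) (nat_lit 31) (.e (nat_lit 466967) (nat_lit 20) .nil))))) (.g (nat_lit 0) (.e (nat_lit 398710) (nat_lit 0) .nil) .nil))))) (.nd (nat_lit 8) (.nd (nat_lit 9) 
(.lf (nat_lit 590015) (.g (nat_lit 3760) (.e (nat_lit 532504) (nat_lit 1) (.e (nat_lit 57931) (nat_lit 282) (.e (nat_lit 163885) (nat_lit 5) (.e (nat_lit 221212) (nat_lit 22) (.e (nat_lit 196656) (nat_lit 11) (.e (nat_lit 16425) (nat_lit 7) (.e (nat_lit 409616) (nat_lit 10) (.e (nat_lit 604) (nat_lit 45) .nil)))))))) (.g (nat_lit 1) (.e (nat_lit 397157) (nat_lit 0) .nil) .nil))) 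
(.lf (nat_lit 590527) (.g (nat_lit 4318) (.e (nat_lit 532515) (nat_lit 3) (.e (nat_lit 114716) (nat_lit 22) (.e (nat_lit 90172) (nat_lit 14) (.e (nat_lit 180244) (nat_lit 5) (.e (nat_lit 532503) (nat_lit 1) (.e (nat_lit 57688) (nat_lit 156) (.e (nat_lit 163843) (nat_lit 0) (.e (nat_lit 3248) (nat_lit 197) .nil)))))))) (.g (nat_lit 1) (.e (nat_lit 398294) (nat_lit 0) .nil) .nil)))) 
(.nd (nat_lit 9) 
(.lf (nat_lit 590271) (.g (nat_lit 3040) (.e (nat_lit 532513) (nat_lit 3) (.e (nat_lit 114714) (nat_lit 22) (.e (nat_lit 90172) (nat_lit 14) (.e (nat_lit 180244) (nat_lit 5) (.e (nat_lit 532503) (nat_lit 1) (.e (nat_lit 57688) (nat_lit 156) (.e (nat_lit 163843) (nat_lit 0) (.e (nat_lit 3248) (nat_lit 197) .nil)))))))) (.g (nat_lit 1) (.e (nat_lit 397594) (nat_lit 0) .nil) .nil))) 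
(.lf (nat_lit 590783) (.g (nat_lit 4428) (.e (nat_lit 532523) (nat_lit 7) (.e (nat_lit 319533) (nat_lit 16) (.e (nat_lit 286733) (nat_lit 2) (.e (nat_lit 90176) (nat_lit 15) (.e (nat_lit 188439) (nat_lit 20) (.e (nat_lit 3238) (nat_lit 197) .nil)))))) (.g (nat_lit 1) (.e (nat_lit 398882) (nat_lit 0) .nil) .nil)))))) (.nd (nat_lit 7) (.nd (nat_lit 8) (.nd (nat_lit 9) 
(.lf (nat_lit 589951) (.g (nat_lit 2751) (.e (nat_lit 532504) (nat_lit 1) (.e (nat_lit 57852) (nat_lit 252) (.e (nat_lit 57406) (nat_lit 12) (.e (nat_lit 336456) (nat_lit 34) (.e (nat_lit 483346) (nat_lit 17) .nil))))) (.g (nat_lit 0) (.e (nat_lit 397076) (nat_lit 0) .nil) .nil))) 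
(.lf (nat_lit 590463) (.g (nat_lit 2027) (.e (nat_lit 532515) (nat_lit 3) (.e (nat_lit 114697) (nat_lit 11) (.e (nat_lit 426122) (nat_lit 2) (.e (nat_lit 196681) (nat_lit 17) (.e (nat_lit 131123) (nat_lit 12) (.e (nat_lit 385066) (nat_lit 26) .nil)))))) (.g (nat_lit 1) (.e (nat_lit 398002) (nat_lit 0) .nil) .nil)))) (.nd (nat_lit 9) 
(.lf (nat_lit 590207) (.g (nat_lit 3253) (.e (nat_lit 532513) (nat_lit 3) (.e (nat_lit 114714) (nat_lit 22) (.e (nat_lit 90172) (nat_lit 14) (.e (nat_lit 180243) (nat_lit 5) (.e (nat_lit 532501) (nat_lit 1) (.e (nat_lit 57663) (nat_lit 152) (.e (nat_lit 2715) (nat_lit 171) (.e (nat_lit 229433) (nat_lit 25) .nil)))))))) (.g (nat_lit 1) (.e (nat_lit 397506) (nat_lit 0) .nil) .nil))) 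
(.lf (nat_lit 590719) (.g (nat_lit 2976) (.e (nat_lit 532523) (nat_lit 7) (.e (nat_lit 319530) (nat_lit 16) (.e (nat_lit 286735) (nat_lit 3) (.e (nat_lit 98358) (nat_lit 26) (.e (nat_lit 426272) (nat_lit 10) .nil))))) (.g (nat_lit 0) (.e (nat_lit 398800) (nat_lit 0) .nil) .nil))))) (.nd (nat_lit 8) (.nd (nat_lit 9) 
(.lf (nat_lit 590079) (.g (nat_lit 1067) (.e (nat_lit 532510) (nat_lit 2) (.e (nat_lit 106534) (nat_lit 11) (.e (nat_lit 16416) (nat_lit 3) (.e (nat_lit 204865) (nat_lit 28) .nil)))) (.g (nat_lit 0) (.e (nat_lit 397249) (nat_lit 0) .nil) .nil))) 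
(.lf (nat_lit 590591) (.g (nat_lit 1588) (.e (nat_lit 532515) (nat_lit 3) (.e (nat_lit 114719) (nat_lit 23) (.e (nat_lit 98359) (nat_lit 26) (.e (nat_lit 426132) (nat_lit 3) (.e (nat_lit 212736) (nat_lit 7) .nil))))) (.g (nat_lit 0) (.e (nat_lit 398563) (nat_lit 0) .nil) .nil)))) (.nd (nat_lit 9) 
(.lf (nat_lit 590335) (.g (nat_lit 3348) (.e (nat_lit 532513) (nat_lit 3) (.e (nat_lit 114714) (nat_lit 22) (.e (nat_lit 90174) (nat_lit 14) (.e (nat_lit 180243) (nat_lit 5) (.e (nat_lit 532504) (nat_lit 1) (.e (nat_lit 57664) (nat_lit 152) (.e (nat_lit 7936) (nat_lit 163) (.e (nat_lit 163962) (nat_lit 25) .nil)))))))) (.g (nat_lit 1) (.e (nat_lit 397670) (nat_lit 0) .nil) .nil))) 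
(.lf (nat_lit 590847) (.g (nat_lit 1760) (.e (nat_lit 532523) (nat_lit 7) (.e (nat_lit 319534) (nat_lit 16) (.e (nat_lit 286734) (nat_lit 3) (.e (nat_lit 98321) (nat_lit 17) .nil)))) (.g (nat_lit 0) (.e (nat_lit 398959) (nat_lit 0) .nil) .nil)))))))))))))

noncomputable def tv5637 : DT := (.nd (nat_lit 0) (.nd (nat_lit 1) (.nd (nat_lit 2) (.nd (nat_lit 3) (.nd (nat_lit 4) (.nd (nat_lit 5) (.nd (nat_lit 6) (.nd (nat_lit 7) (.nd (nat_lit 8) (.nd (nat_lit 9) 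
(.lf (nat_lit 590848) (.g (nat_lit 1760) (.e (nat_lit 532523) (nat_lit 7) (.e (nat_lit 319534) (nat_lit 16) (.e (nat_lit 286734) (nat_lit 3) (.e (nat_lit 98354) (nat_lit 26) .nil)))) (.g (nat_lit 0) (.e (nat_lit 398960) (nat_lit 0) .nil) .nil))) 
(.lf (nat_lit 591360) (.g (nat_lit 4019) (.e (nat_lit 532535) (nat_lit 9) (.e (nat_lit 336177) (nat_lit 10) (.e (nat_lit 344129) (nat_lit 26) (.e (nat_lit 557087) (nat_lit 11) (.e (nat_lit 24617) (nat_lit 7) (.e (nat_lit 319505) (nat_lit 10) (.e (nat_lit 7936) (nat_lit 45) .nil))))))) (.g (nat_lit 1) (.e (nat_lit 400763) (nat_lit 0) .nil) .nil)))) (.nd (nat_lit 9) 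
(.lf (nat_lit 591104) (.g (nat_lit 1360) (.e (nat_lit 532533) (nat_lit 9) (.e (nat_lit 336208) (nat_lit 12) (.e (nat_lit 385068) (nat_lit 26) (.e (nat_lit 532513) (nat_lit 3) (.e (nat_lit 122624) (nat_lit 12) .nil))))) (.g (nat_lit 0) (.e (nat_lit 399747) (nat_lit 0) .nil) .nil))) 
(.lf (nat_lit 591616) (.g (nat_lit 3430) (.e (nat_lit 532544) (nat_lit 10) (.e (nat_lit 344131) (nat_lit 26) (.e (nat_lit 557103) (nat_lit 14) (.e (nat_lit 180250) (nat_lit 10) (.e (nat_lit 573441) (nat_lit 0) (.e (nat_lit 3067) (nat_lit 190) (.e (nat_lit 483072) (nat_lit 26) .nil))))))) (.g (nat_lit 1) (.e (nat_lit 401106) (nat_lit 0) .nil) .nil))))) (.nd (nat_lit 8) (.nd (nat_lit 9) 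
(.lf (nat_lit 590976) (.g (nat_lit 1983) (.e (nat_lit 532529) (nat_lit 9) (.e (nat_lit 336326) (nat_lit 18) (.e (nat_lit 204863) (nat_lit 27) (.e (nat_lit 344131) (nat_lit 26) (.e (nat_lit 557098) (nat_lit 13) .nil))))) (.g (nat_lit 0) (.e (nat_lit 399316) (nat_lit 0) .nil) .nil))) 
(.lf (nat_lit 591488) (.g (nat_lit 2559) (.e (nat_lit 532544) (nat_lit 10) (.e (nat_lit 344129) (nat_lit 26) (.e (nat_lit 557103) (nat_lit 14) (.e (nat_lit 180250) (nat_lit 10) (.e (nat_lit 573442) (nat_lit 0) .nil))))) (.g (nat_lit 0) (.e (nat_lit 400978) (nat_lit 0) .nil) .nil)))) (.nd (nat_lit 9) 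
(.lf (nat_lit 591232) (.g (nat_lit 3583) (.e (nat_lit 532535) (nat_lit 9) (.e (nat_lit 336099) (nat_lit 9) (.e (nat_lit 336013) (nat_lit 2) (.e (nat_lit 90165) (nat_lit 12) (.e (nat_lit 164210) (nat_lit 176) (.e (nat_lit 2768) (nat_lit 177) (.e (nat_lit 278552) (nat_lit 10) (.e (nat_lit 7936) (nat_lit 45) .nil)))))))) (.g (nat_lit 1) (.e (nat_lit 400103) (nat_lit 0) .nil) .nil))) 
(.lf (nat_lit 591744) (.g (nat_lit 4281) (.e (nat_lit 532544) (nat_lit 10) (.e (nat_lit 344133) (nat_lit 26) (.e (nat_lit 557098) (nat_lit 13) (.e (nat_lit 172045) (nat_lit 0) (.e (nat_lit 3307) (nat_lit 202) (.e (nat_lit 573440) (nat_lit 0) (.e (nat_lit 3067) (nat_lit 190) (.e (nat_lit 483072) (nat_lit 26) .nil)))))))) (.g (nat_lit 1) (.e (nat_lit 401234) (nat_lit 0) .nil) .nil)))))) 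
(.nd (nat_lit 7) (.nd (nat_lit 8) (.nd (nat_lit 9) 
(.lf (nat_lit 590912) (.g (nat_lit 1769) (.e (nat_lit 532526) (nat_lit 8) (.e (nat_lit 327699) (nat_lit 8) (.e (nat_lit 303119) (nat_lit 3) (.e (nat_lit 204848) (nat_lit 25) .nil)))) (.g (nat_lit 0) (.e (nat_lit 399063) (nat_lit 0) .nil) .nil))) 
(.lf (nat_lit 591424) (.g (nat_lit 1989) (.e (nat_lit 532544) (nat_lit 10) (.e (nat_lit 344081) (nat_lit 13) (.e (nat_lit 1140) (nat_lit 84) (.e (nat_lit 32787) (nat_lit 9) (.e (nat_lit 65586) (nat_lit 7) (.e (nat_lit 319505) (nat_lit 10) (.e (nat_lit 7936) (nat_lit 45) .nil))))))) (.g (nat_lit 1) (.e (nat_lit 400910) (nat_lit 0) .nil) .nil)))) (.nd (nat_lit 9) 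
(.lf (nat_lit 591168) (.g (nat_lit 3922) (.e (nat_lit 532535) (nat_lit 9) (.e (nat_lit 336099) (nat_lit 9) (.e (nat_lit 335886) (nat_lit 0) (.e (nat_lit 1848) (nat_lit 124) (.e (nat_lit 557087) (nat_lit 11) (.e (nat_lit 24617) (nat_lit 7) (.e (nat_lit 319504) (nat_lit 10) (.e (nat_lit 7936) (nat_lit 45) .nil)))))))) (.g (nat_lit 1) (.e (nat_lit 399978) (nat_lit 0) .nil) .nil))) 
(.lf (nat_lit 591680) (.g (nat_lit 2152) (.e (nat_lit 532544) (nat_lit 10) (.e (nat_lit 344132) (nat_lit 26) (.e (nat_lit 557101) (nat_lit 13) (.e (nat_lit 172063) (nat_lit 2) (.e (nat_lit 196622) (nat_lit 9) (.e (nat_lit 486) (nat_lit 38) (.e (nat_lit 483072) (nat_lit 26) .nil))))))) (.g (nat_lit 1) (.e (nat_lit 401170) (nat_lit 0) .nil) .nil))))) (.nd (nat_lit 8) (.nd (nat_lit 9) 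
(.lf (nat_lit 591040) (.g (nat_lit 834) (.e (nat_lit 532530) (nat_lit 9) (.e (nat_lit 336326) (nat_lit 18) (.e (nat_lit 204864) (nat_lit 27) (.e (nat_lit 344130) (nat_lit 26) .nil)))) (.g (nat_lit 0) (.e (nat_lit 399517) (nat_lit 0) .nil) .nil))) 
(.lf (nat_lit 591552) (.g (nat_lit 2284) (.e (nat_lit 532544) (nat_lit 10) (.e (nat_lit 344130) (nat_lit 26) (.e (nat_lit 557103) (nat_lit 14) (.e (nat_lit 180250) (nat_lit 10) (.e (nat_lit 581376) (nat_lit 0) (.e (nat_lit 3062) (nat_lit 190) (.e (nat_lit 483072) (nat_lit 26) .nil))))))) (.g (nat_lit 1) (.e (nat_lit 401042) (nat_lit 0) .nil) .nil)))) (.nd (nat_lit 9) 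
(.lf (nat_lit 591296) (.g (nat_lit 4169) (.e (nat_lit 532535) (nat_lit 9) (.e (nat_lit 336163) (nat_lit 10) (.e (nat_lit 344130) (nat_lit 26) (.e (nat_lit 557087) (nat_lit 11) (.e (nat_lit 24617) (nat_lit 7) (.e (nat_lit 319505) (nat_lit 10) (.e (nat_lit 7936) (nat_lit 45) .nil))))))) (.g (nat_lit 1) (.e (nat_lit 400412) (nat_lit 0) .nil) .nil))) 
(.lf (nat_lit 591808) (.g (nat_lit 1884) (.e (nat_lit 532544) (nat_lit 10) (.e (nat_lit 344133) (nat_lit 26) (.e (nat_lit 557105) (nat_lit 14) (.e (nat_lit 180249) (nat_lit 10) .nil)))) (.g (nat_lit 0) (.e (nat_lit 401298) (nat_lit 0) .nil) .nil))))))) (.nd (nat_lit 6) (.nd (nat_lit 7) (.nd (nat_lit 8) (.nd (nat_lit 9) 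
(.lf (nat_lit 590880) (.g (nat_lit 1881) (.e (nat_lit 540416) (nat_lit 7) (.e (nat_lit 319531) (nat_lit 16) (.e (nat_lit 286733) (nat_lit 2) (.e (nat_lit 90178) (nat_lit 15) (.e (nat_lit 188440) (nat_lit 20) .nil))))) (.g (nat_lit 0) (.e (nat_lit 398994) (nat_lit 0) .nil) .nil))) 
(.lf (nat_lit 591392) (.g (nat_lit 553) (.e (nat_lit 532542) (nat_lit 9) (.e (nat_lit 336204) (nat_lit 12) (.e (nat_lit 385074) (nat_lit 31) .nil))) (.g (nat_lit 0) (.e (nat_lit 400871) (nat_lit 0) .nil) .nil)))) (.nd (nat_lit 9) 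
(.lf (nat_lit 591136) (.g (nat_lit 1498) (.e (nat_lit 532534) (nat_lit 9) (.e (nat_lit 336211) (nat_lit 13) (.e (nat_lit 393225) (nat_lit 9) (.e (nat_lit 335996) (nat_lit 1) (.e (nat_lit 57929) (nat_lit 282) .nil))))) (.g (nat_lit 0) (.e (nat_lit 399813) (nat_lit 0) .nil) .nil))) 
(.lf (nat_lit 591648) (.g (nat_lit 2175) (.e (nat_lit 532544) (nat_lit 10) (.e (nat_lit 344132) (nat_lit 26) (.e (nat_lit 557100) (nat_lit 13) (.e (nat_lit 172045) (nat_lit 0) .nil)))) (.g (nat_lit 0) (.e (nat_lit 401138) (nat_lit 0) .nil) .nil))))) (.nd (nat_lit 8) (.nd (nat_lit 9) 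
(.lf (nat_lit 591008) (.g (nat_lit 2517) (.e (nat_lit 532530) (nat_lit 9) (.e (nat_lit 336142) (nat_lit 9) (.e (nat_lit 336027) (nat_lit 3) (.e (nat_lit 98350) (nat_lit 24) (.e (nat_lit 409646) (nat_lit 18) (.e (nat_lit 303112) (nat_lit 0) (.e (nat_lit 3252) (nat_lit 197) .nil))))))) (.g (nat_lit 1) (.e (nat_lit 399407) (nat_lit 0) .nil) .nil))) 
(.lf (nat_lit 591520) (.g (nat_lit 1908) (.e (nat_lit 532544) (nat_lit 10) (.e (nat_lit 344130) (nat_lit 26) (.e (nat_lit 557097) (nat_lit 13) (.e (nat_lit 172064) (nat_lit 2) (.e (nat_lit 196628) (nat_lit 9) (.e (nat_lit 486) (nat_lit 38) (.e (nat_lit 483072) (nat_lit 26) .nil))))))) (.g (nat_lit 1) (.e (nat_lit 401010) (nat_lit 0) .nil) .nil)))) (.nd (nat_lit 9) 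
(.lf (nat_lit 591264) (.g (nat_lit 3814) (.e (nat_lit 532535) (nat_lit 9) (.e (nat_lit 336099) (nat_lit 9) (.e (nat_lit 336028) (nat_lit 3) (.e (nat_lit 98349) (nat_lit 24) (.e (nat_lit 409645) (nat_lit 18) (.e (nat_lit 303106) (nat_lit 0) (.e (nat_lit 3237) (nat_lit 197) .nil))))))) (.g (nat_lit 1) (.e (nat_lit 400315) (nat_lit 0) .nil) .nil))) 
(.lf (nat_lit 591776) (.g (nat_lit 2957) (.e (nat_lit 532544) (nat_lit 10) (.e (nat_lit 344133) (nat_lit 26) (.e (nat_lit 557103) (nat_lit 14) (.e (nat_lit 180225) (nat_lit 0) (.e (nat_lit 4181) (nat_lit 251) (.e (nat_lit 2514) (nat_lit 157) (.e (nat_lit 3067) (nat_lit 190) (.e (nat_lit 483072) (nat_lit 26) .nil)))))))) (.g (nat_lit 1) (.e (nat_lit 401266) (nat_lit 0) .nil) .nil)))))) 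
(.nd (nat_lit 7) (.nd (nat_lit 8) (.nd (nat_lit 9) 
(.lf (nat_lit 590944) (.g (nat_lit 1992) (.e (nat_lit 532528) (nat_lit 9) (.e (nat_lit 336324) (nat_lit 18) (.e (nat_lit 204854) (nat_lit 26) (.e (nat_lit 336322) (nat_lit 18) .nil)))) (.g (nat_lit 0) (.e (nat_lit 399126) (nat_lit 0) .nil) .nil))) 
(.lf (nat_lit 591456) (.g (nat_lit 1147) (.e (nat_lit 532544) (nat_lit 10) (.e (nat_lit 344120) (nat_lit 21) (.e (nat_lit 516131) (nat_lit 3) (.e (nat_lit 221212) (nat_lit 22) (.e (nat_lit 196610) (nat_lit 0) (.e (nat_lit 3065) (nat_lit 190) (.e (nat_lit 483072) (nat_lit 26) .nil))))))) (.g (nat_lit 1) (.e (nat_lit 400945) (nat_lit 0) .nil) .nil)))) (.nd (nat_lit 9) 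
(.lf (nat_lit 591200) (.g (nat_lit 5316) (.e (nat_lit 532535) (nat_lit 9) (.e (nat_lit 336099) (nat_lit 9) (.e (nat_lit 336013) (nat_lit 2) (.e (nat_lit 90134) (nat_lit 9) (.e (nat_lit 2822) (nat_lit 182) (.e (nat_lit 409645) (nat_lit 18) (.e (nat_lit 303112) (nat_lit 0) (.e (nat_lit 3254) (nat_lit 197) .nil)))))))) (.g (nat_lit 1) (.e (nat_lit 400057) (nat_lit 0) .nil) .nil))) 
(.lf (nat_lit 591712) (.g (nat_lit 2343) (.e (nat_lit 532544) (nat_lit 10) (.e (nat_lit 344132) (nat_lit 26) (.e (nat_lit 557105) (nat_lit 14) (.e (nat_lit 180252) (nat_lit 10) (.e (nat_lit 573441) (nat_lit 0) (.e (nat_lit 3064) (nat_lit 190) (.e (nat_lit 483072) (nat_lit 26) .nil))))))) (.g (nat_lit 1) (.e (nat_lit 401202) (nat_lit 0) .nil) .nil))))) (.nd (nat_lit 8) (.nd (nat_lit 9) 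
(.lf (nat_lit 591072) (.g (nat_lit 1486) (.e (nat_lit 532532) (nat_lit 9) (.e (nat_lit 336324) (nat_lit 18) (.e (nat_lit 204852) (nat_lit 26) (.e (nat_lit 336322) (nat_lit 18) .nil)))) (.g (nat_lit 0) (.e (nat_lit 399691) (nat_lit 0) .nil) .nil))) 
(.lf (nat_lit 591584) (.g (nat_lit 1327) (.e (nat_lit 532544) (nat_lit 10) (.e (nat_lit 344131) (nat_lit 26) (.e (nat_lit 557098) (nat_lit 13) (.e (nat_lit 172063) (nat_lit 2) .nil)))) (.g (nat_lit 0) (.e (nat_lit 401074) (nat_lit 0) .nil) .nil)))) (.nd (nat_lit 9) 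
(.lf (nat_lit 591328) (.g (nat_lit 2267) (.e (nat_lit 532535) (nat_lit 9) (.e (nat_lit 336176) (nat_lit 10) (.e (nat_lit 344130) (nat_lit 26) (.e (nat_lit 557065) (nat_lit 9) (.e (nat_lit 214) (nat_lit 19) (.e (nat_lit 319491) (nat_lit 0) (.e (nat_lit 5761) (nat_lit 315) (.e (nat_lit 163962) (nat_lit 25) .nil)))))))) (.g (nat_lit 1) (.e (nat_lit 400541) (nat_lit 0) .nil) .nil))) 
(.lf (nat_lit 591840) (.g (nat_lit 3633) (.e (nat_lit 532544) (nat_lit 10) (.e (nat_lit 344133) (nat_lit 26) (.e (nat_lit 557105) (nat_lit 14) (.e (nat_lit 180252) (nat_lit 10) (.e (nat_lit 573473) (nat_lit 12) (.e (nat_lit 57508) (nat_lit 39) (.e (nat_lit 647180) (nat_lit 3) (.e (nat_lit 163962) (nat_lit 25) .nil)))))))) (.g (nat_lit 1) (.e (nat_lit 401330) (nat_lit 0) .nil) .nil)))))))) 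
(.nd (nat_lit 5) (.nd (nat_lit 6) (.nd (nat_lit 7) (.nd (nat_lit 8) (.nd (nat_lit 9) 
(.lf (nat_lit 590864) (.g (nat_lit 1775) (.e (nat_lit 532523) (nat_lit 7) (.e (nat_lit 319534) (nat_lit 16) (.e (nat_lit 286735) (nat_lit 3) (.e (nat_lit 98363) (nat_lit 26) .nil)))) (.g (nat_lit 0) (.e (nat_lit 398976) (nat_lit 0) .nil) .nil))) 
(.lf (nat_lit 591376) (.g (nat_lit 1857) (.e (nat_lit 532541) (nat_lit 9) (.e (nat_lit 336194) (nat_lit 12) (.e (nat_lit 385066) (nat_lit 26) (.e (nat_lit 532515) (nat_lit 3) (.e (nat_lit 122624) (nat_lit 15) .nil))))) (.g (nat_lit 0) (.e (nat_lit 400832) (nat_lit 0) .nil) .nil)))) (.nd (nat_lit 9) 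
(.lf (nat_lit 591120) (.g (nat_lit 2131) (.e (nat_lit 532533) (nat_lit 9) (.e (nat_lit 336324) (nat_lit 18) (.e (nat_lit 204882) (nat_lit 32) (.e (nat_lit 385066) (nat_lit 26) (.e (nat_lit 532564) (nat_lit 15) .nil))))) (.g (nat_lit 0) (.e (nat_lit 399769) (nat_lit 0) .nil) .nil))) 
(.lf (nat_lit 591632) (.g (nat_lit 2064) (.e (nat_lit 532544) (nat_lit 10) (.e (nat_lit 344131) (nat_lit 26) (.e (nat_lit 557105) (nat_lit 14) (.e (nat_lit 180252) (nat_lit 10) (.e (nat_lit 573441) (nat_lit 0) (.e (nat_lit 3064) (nat_lit 190) (.e (nat_lit 483072) (nat_lit 26) .nil))))))) (.g (nat_lit 1) (.e (nat_lit 401122) (nat_lit 0) .nil) .nil))))) (.nd (nat_lit 8) (.nd (nat_lit 9) 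
(.lf (nat_lit 590992) (.g (nat_lit 3422) (.e (nat_lit 532529) (nat_lit 9) (.e (nat_lit 336326) (nat_lit 18) (.e (nat_lit 204863) (nat_lit 27) (.e (nat_lit 344133) (nat_lit 26) (.e (nat_lit 557098) (nat_lit 13) (.e (nat_lit 172127) (nat_lit 15) (.e (nat_lit 1818) (nat_lit 121) .nil))))))) (.g (nat_lit 1) (.e (nat_lit 399332) (nat_lit 0) .nil) .nil))) 
(.lf (nat_lit 591504) (.g (nat_lit 2353) (.e (nat_lit 532544) (nat_lit 10) (.e (nat_lit 344129) (nat_lit 26) (.e (nat_lit 557104) (nat_lit 14) (.e (nat_lit 180252) (nat_lit 10) (.e (nat_lit 581376) (nat_lit 0) .nil))))) (.g (nat_lit 0) (.e (nat_lit 400994) (nat_lit 0) .nil) .nil)))) (.nd (nat_lit 9) 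
(.lf (nat_lit 591248) (.g (nat_lit 3413) (.e (nat_lit 532535) (nat_lit 9) (.e (nat_lit 336099) (nat_lit 9) (.e (nat_lit 336013) (nat_lit 2) (.e (nat_lit 90165) (nat_lit 12) (.e (nat_lit 164218) (nat_lit 179) (.e (nat_lit 164282) (nat_lit 223) (.e (nat_lit 130816) (nat_lit 86) .nil))))))) (.g (nat_lit 1) (.e (nat_lit 400122) (nat_lit 0) .nil) .nil))) 
(.lf (nat_lit 591760) (.g (nat_lit 2742) (.e (nat_lit 532544) (nat_lit 10) (.e (nat_lit 344133) (nat_lit 26) (.e (nat_lit 557098) (nat_lit 13) (.e (nat_lit 172064) (nat_lit 2) (.e (nat_lit 196624) (nat_lit 9) (.e (nat_lit 489) (nat_lit 38) (.e (nat_lit 483072) (nat_lit 26) .nil))))))) (.g (nat_lit 1) (.e (nat_lit 401250) (nat_lit 0) .nil) .nil)))))) 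
(.nd (nat_lit 7) (.nd (nat_lit 8) (.nd (nat_lit 9) 
(.lf (nat_lit 590928) (.g (nat_lit 4238) (.e (nat_lit 532526) (nat_lit 8) (.e (nat_lit 327717) (nat_lit 17) (.e (nat_lit 294927) (nat_lit 2) (.e (nat_lit 90170) (nat_lit 13) (.e (nat_lit 172106) (nat_lit 10) (.e (nat_lit 434231) (nat_lit 23) .nil)))))) (.g (nat_lit 1) (.e (nat_lit 399100) (nat_lit 0) .nil) .nil))) 
(.lf (nat_lit 591440) (.g (nat_lit 1916) (.e (nat_lit 532544) (nat_lit 10) (.e (nat_lit 344117) (nat_lit 21) (.e (nat_lit 516130) (nat_lit 3) (.e (nat_lit 221212) (nat_lit 22) (.e (nat_lit 196610) (nat_lit 0) (.e (nat_lit 3065) (nat_lit 190) (.e (nat_lit 483072) (nat_lit 26) .nil))))))) (.g (nat_lit 1) (.e (nat_lit 400929) (nat_lit 0) .nil) .nil)))) (.nd (nat_lit 9) 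
(.lf (nat_lit 591184) (.g (nat_lit 3740) (.e (nat_lit 532535) (nat_lit 9) (.e (nat_lit 336099) (nat_lit 9) (.e (nat_lit 335936) (nat_lit 0) (.e (nat_lit 1848) (nat_lit 124) (.e (nat_lit 557087) (nat_lit 11) (.e (nat_lit 24617) (nat_lit 7) (.e (nat_lit 319504) (nat_lit 10) (.e (nat_lit 7936) (nat_lit 45) .nil)))))))) (.g (nat_lit 1) (.e (nat_lit 400012) (nat_lit 0) .nil) .nil))) 
(.lf (nat_lit 591696) (.g (nat_lit 1973) (.e (nat_lit 532544) (nat_lit 10) (.e (nat_lit 344132) (nat_lit 26) (.e (nat_lit 557103) (nat_lit 14) (.e (nat_lit 180250) (nat_lit 10) (.e (nat_lit 573442) (nat_lit 0) (.e (nat_lit 3062) (nat_lit 190) (.e (nat_lit 483072) (nat_lit 26) .nil))))))) (.g (nat_lit 1) (.e (nat_lit 401186) (nat_lit 0) .nil) .nil))))) (.nd (nat_lit 8) (.nd (nat_lit 9) 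
(.lf (nat_lit 591056) (.g (nat_lit 3045) (.e (nat_lit 532531) (nat_lit 9) (.e (nat_lit 336324) (nat_lit 18) (.e (nat_lit 204852) (nat_lit 26) (.e (nat_lit 336324) (nat_lit 18) (.e (nat_lit 204882) (nat_lit 32) (.e (nat_lit 385066) (nat_lit 26) .nil)))))) (.g (nat_lit 1) (.e (nat_lit 399586) (nat_lit 0) .nil) .nil))) 
(.lf (nat_lit 591568) (.g (nat_lit 1987) (.e (nat_lit 532544) (nat_lit 10) (.e (nat_lit 344130) (nat_lit 26) (.e (nat_lit 557104) (nat_lit 14) (.e (nat_lit 180252) (nat_lit 10) (.e (nat_lit 581376) (nat_lit 0) (.e (nat_lit 3060) (nat_lit 190) (.e (nat_lit 483072) (nat_lit 26) .nil))))))) (.g (nat_lit 1) (.e (nat_lit 401058) (nat_lit 0) .nil) .nil)))) (.nd (nat_lit 9) 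
(.lf (nat_lit 591312) (.g (nat_lit 3926) (.e (nat_lit 532535) (nat_lit 9) (.e (nat_lit 336173) (nat_lit 10) (.e (nat_lit 344117) (nat_lit 21) (.e (nat_lit 516138) (nat_lit 7) (.e (nat_lit 409645) (nat_lit 18) (.e (nat_lit 303112) (nat_lit 0) (.e (nat_lit 3252) (nat_lit 197) .nil))))))) (.g (nat_lit 1) (.e (nat_lit 400434) (nat_lit 0) .nil) .nil))) 
(.lf (nat_lit 591824) (.g (nat_lit 2986) (.e (nat_lit 532544) (nat_lit 10) (.e (nat_lit 344133) (nat_lit 26) (.e (nat_lit 557105) (nat_lit 14) (.e (nat_lit 180252) (nat_lit 10) (.e (nat_lit 581376) (nat_lit 0) (.e (nat_lit 3056) (nat_lit 190) (.e (nat_lit 483072) (nat_lit 26) .nil))))))) (.g (nat_lit 1) (.e (nat_lit 401314) (nat_lit 0) .nil) .nil))))))) 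
(.nd (nat_lit 6) (.nd (nat_lit 7) (.nd (nat_lit 8) (.nd (nat_lit 9) 
(.lf (nat_lit 590896) (.g (nat_lit 3127) (.e (nat_lit 532526) (nat_lit 8) (.e (nat_lit 327699) (nat_lit 8) (.e (nat_lit 303117) (nat_lit 2) (.e (nat_lit 196668) (nat_lit 14) (.e (nat_lit 81664) (nat_lit 38) .nil))))) (.g (nat_lit 0) (.e (nat_lit 399044) (nat_lit 0) .nil) .nil))) 
(.lf (nat_lit 591408) (.g (nat_lit 4160) (.e (nat_lit 532543) (nat_lit 10) (.e (nat_lit 344129) (nat_lit 26) (.e (nat_lit 557097) (nat_lit 13) (.e (nat_lit 172133) (nat_lit 15) (.e (nat_lit 1800) (nat_lit 119) (.e (nat_lit 516119) (nat_lit 1) (.e (nat_lit 164347) (nat_lit 240) (.e (nat_lit 2601) (nat_lit 163) (.e (nat_lit 163962) (nat_lit 25) .nil))))))))) (.g (nat_lit 1) (.e (nat_lit 400889) (nat_lit 0) .nil) .nil)))) 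
(.nd (nat_lit 9) 
(.lf (nat_lit 591152) (.g (nat_lit 3610) (.e (nat_lit 532534) (nat_lit 9) (.e (nat_lit 336324) (nat_lit 18) (.e (nat_lit 204882) (nat_lit 32) (.e (nat_lit 385066) (nat_lit 26) (.e (nat_lit 532563) (nat_lit 15) (.e (nat_lit 385068) (nat_lit 26) .nil)))))) (.g (nat_lit 1) (.e (nat_lit 399847) (nat_lit 0) .nil) .nil))) 
(.lf (nat_lit 591664) (.g (nat_lit 2752) (.e (nat_lit 532544) (nat_lit 10) (.e (nat_lit 344132) (nat_lit 26) (.e (nat_lit 557100) (nat_lit 13) (.e (nat_lit 172067) (nat_lit 3) (.e (nat_lit 204813) (nat_lit 9) .nil))))) (.g (nat_lit 0) (.e (nat_lit 401154) (nat_lit 0) .nil) .nil))))) (.nd (nat_lit 8) (.nd (nat_lit 9) 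
(.lf (nat_lit 591024) (.g (nat_lit 951) (.e (nat_lit 532530) (nat_lit 9) (.e (nat_lit 336325) (nat_lit 18) (.e (nat_lit 204855) (nat_lit 26) (.e (nat_lit 343808) (nat_lit 18) .nil)))) (.g (nat_lit 0) (.e (nat_lit 399478) (nat_lit 0) .nil) .nil))) 
(.lf (nat_lit 591536) (.g (nat_lit 2876) (.e (nat_lit 532544) (nat_lit 10) (.e (nat_lit 344130) (nat_lit 26) (.e (nat_lit 557103) (nat_lit 14) (.e (nat_lit 180243) (nat_lit 5) (.e (nat_lit 532504) (nat_lit 1) (.e (nat_lit 57703) (nat_lit 164) (.e (nat_lit 2601) (nat_lit 163) (.e (nat_lit 163962) (nat_lit 25) .nil)))))))) (.g (nat_lit 1) (.e (nat_lit 401026) (nat_lit 0) .nil) .nil)))) 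
(.nd (nat_lit 9) 
(.lf (nat_lit 591280) (.g (nat_lit 3869) (.e (nat_lit 532535) (nat_lit 9) (.e (nat_lit 336099) (nat_lit 9) (.e (nat_lit 336028) (nat_lit 3) (.e (nat_lit 98350) (nat_lit 24) (.e (nat_lit 409616) (nat_lit 10) (.e (nat_lit 5759) (nat_lit 315) (.e (nat_lit 163961) (nat_lit 25) .nil))))))) (.g (nat_lit 1) (.e (nat_lit 400332) (nat_lit 0) .nil) .nil))) 
(.lf (nat_lit 591792) (.g (nat_lit 2917) (.e (nat_lit 532544) (nat_lit 10) (.e (nat_lit 344133) (nat_lit 26) (.e (nat_lit 557103) (nat_lit 14) (.e (nat_lit 180250) (nat_lit 10) (.e (nat_lit 573442) (nat_lit 0) (.e (nat_lit 2887) (nat_lit 184) (.e (nat_lit 426412) (nat_lit 15) (.e (nat_lit 7936) (nat_lit 121) .nil)))))))) (.g (nat_lit 1) (.e (nat_lit 401282) (nat_lit 0) .nil) .nil)))))) 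
(.nd (nat_lit 7) (.nd (nat_lit 8) (.nd (nat_lit 9) 
(.lf (nat_lit 590960) (.g (nat_lit 1287) (.e (nat_lit 532529) (nat_lit 9) (.e (nat_lit 336324) (nat_lit 18) (.e (nat_lit 204854) (nat_lit 26) (.e (nat_lit 336326) (nat_lit 18) .nil)))) (.g (nat_lit 0) (.e (nat_lit 399290) (nat_lit 0) .nil) .nil))) 
(.lf (nat_lit 591472) (.g (nat_lit 2874) (.e (nat_lit 532544) (nat_lit 10) (.e (nat_lit 344129) (nat_lit 26) (.e (nat_lit 557097) (nat_lit 13) (.e (nat_lit 172067) (nat_lit 3) (.e (nat_lit 204813) (nat_lit 9) .nil))))) (.g (nat_lit 0) (.e (nat_lit 400962) (nat_lit 0) .nil) .nil)))) (.nd (nat_lit 9) 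
(.lf (nat_lit 591216) (.g (nat_lit 2456) (.e (nat_lit 532535) (nat_lit 9) (.e (nat_lit 336099) (nat_lit 9) (.e (nat_lit 336013) (nat_lit 2) (.e (nat_lit 90144) (nat_lit 9) .nil)))) (.g (nat_lit 0) (.e (nat_lit 400085) (nat_lit 0) .nil) .nil))) 
(.lf (nat_lit 591728) (.g (nat_lit 2267) (.e (nat_lit 532544) (nat_lit 10) (.e (nat_lit 344132) (nat_lit 26) (.e (nat_lit 557105) (nat_lit 14) (.e (nat_lit 180252) (nat_lit 10) (.e (nat_lit 581376) (nat_lit 0) (.e (nat_lit 3073) (nat_lit 190) (.e (nat_lit 483072) (nat_lit 26) .nil))))))) (.g (nat_lit 1) (.e (nat_lit 401218) (nat_lit 0) .nil) .nil))))) (.nd (nat_lit 8) (.nd (nat_lit 9) 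
(.lf (nat_lit 591088) (.g (nat_lit 2280) (.e (nat_lit 532532) (nat_lit 9) (.e (nat_lit 336326) (nat_lit 18) (.e (nat_lit 204854) (nat_lit 26) (.e (nat_lit 336324) (nat_lit 18) (.e (nat_lit 204881) (nat_lit 32) .nil))))) (.g (nat_lit 0) (.e (nat_lit 399708) (nat_lit 0) .nil) .nil))) 
(.lf (nat_lit 591600) (.g (nat_lit 1396) (.e (nat_lit 532544) (nat_lit 10) (.e (nat_lit 344131) (nat_lit 26) (.e (nat_lit 557101) (nat_lit 13) (.e (nat_lit 172051) (nat_lit 0) (.e (nat_lit 3307) (nat_lit 202) (.e (nat_lit 573440) (nat_lit 0) (.e (nat_lit 3067) (nat_lit 190) (.e (nat_lit 483072) (nat_lit 26) .nil)))))))) (.g (nat_lit 1) (.e (nat_lit 401090) (nat_lit 0) .nil) .nil)))) 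
(.nd (nat_lit 9) 
(.lf (nat_lit 591344) (.g (nat_lit 1275) (.e (nat_lit 532535) (nat_lit 9) (.e (nat_lit 336176) (nat_lit 10) (.e (nat_lit 344133) (nat_lit 26) (.e (nat_lit 557064) (nat_lit 9) .nil)))) (.g (nat_lit 0) (.e (nat_lit 400685) (nat_lit 0) .nil) .nil))) 
(.lf (nat_lit 591856) (.g (nat_lit 1090) (.e (nat_lit 532546) (nat_lit 11) (.e (nat_lit 352292) (nat_lit 20) (.e (nat_lit 1788) (nat_lit 119) (.e (nat_lit 516139) (nat_lit 7) .nil)))) (.g (nat_lit 0) (.e (nat_lit 401360) (nat_lit 0) .nil) .nil))))))))) (.nd (nat_lit 4) (.nd (nat_lit 5) (.nd (nat_lit 6) (.nd (nat_lit 7) (.nd (nat_lit 8) (.nd (nat_lit 9) 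
(.lf (nat_lit 590856) (.g (nat_lit 1739) (.e (nat_lit 532523) (nat_lit 7) (.e (nat_lit 319534) (nat_lit 16) (.e (nat_lit 286734) (nat_lit 3) (.e (nat_lit 98381) (nat_lit 31) (.e (nat_lit 466965) (nat_lit 20) .nil))))) (.g (nat_lit 0) (.e (nat_lit 398968) (nat_lit 0) .nil) .nil))) 
(.lf (nat_lit 591368) (.g (nat_lit 4457) (.e (nat_lit 532535) (nat_lit 9) (.e (nat_lit 343808) (nat_lit 10) (.e (nat_lit 344129) (nat_lit 26) (.e (nat_lit 557087) (nat_lit 11) (.e (nat_lit 24617) (nat_lit 7) (.e (nat_lit 319504) (nat_lit 10) (.e (nat_lit 7936) (nat_lit 45) .nil))))))) (.g (nat_lit 1) (.e (nat_lit 400772) (nat_lit 0) .nil) .nil)))) (.nd (nat_lit 9) 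
(.lf (nat_lit 591112) (.g (nat_lit 1992) (.e (nat_lit 532533) (nat_lit 9) (.e (nat_lit 336324) (nat_lit 18) (.e (nat_lit 204854) (nat_lit 26) (.e (nat_lit 336322) (nat_lit 18) .nil)))) (.g (nat_lit 0) (.e (nat_lit 399760) (nat_lit 0) .nil) .nil))) 
(.lf (nat_lit 591624) (.g (nat_lit 1118) (.e (nat_lit 532544) (nat_lit 10) (.e (nat_lit 344131) (nat_lit 26) (.e (nat_lit 557105) (nat_lit 14) (.e (nat_lit 180227) (nat_lit 0) .nil)))) (.g (nat_lit 0) (.e (nat_lit 401114) (nat_lit 0) .nil) .nil))))) (.nd (nat_lit 8) (.nd (nat_lit 9) 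
(.lf (nat_lit 590984) (.g (nat_lit 2313) (.e (nat_lit 532529) (nat_lit 9) (.e (nat_lit 336326) (nat_lit 18) (.e (nat_lit 204863) (nat_lit 27) (.e (nat_lit 344133) (nat_lit 26) (.e (nat_lit 557096) (nat_lit 13) .nil))))) (.g (nat_lit 0) (.e (nat_lit 399324) (nat_lit 0) .nil) .nil))) 
(.lf (nat_lit 591496) (.g (nat_lit 2595) (.e (nat_lit 532544) (nat_lit 10) (.e (nat_lit 344129) (nat_lit 26) (.e (nat_lit 557104) (nat_lit 14) (.e (nat_lit 180244) (nat_lit 5) (.e (nat_lit 532579) (nat_lit 26) .nil))))) (.g (nat_lit 0) (.e (nat_lit 400986) (nat_lit 0) .nil) .nil)))) (.nd (nat_lit 9) 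
(.lf (nat_lit 591240) (.g (nat_lit 3067) (.e (nat_lit 532535) (nat_lit 9) (.e (nat_lit 336099) (nat_lit 9) (.e (nat_lit 336013) (nat_lit 2) (.e (nat_lit 90165) (nat_lit 12) (.e (nat_lit 164218) (nat_lit 179) (.e (nat_lit 164261) (nat_lit 221) (.e (nat_lit 971) (nat_lit 81) (.e (nat_lit 596) (nat_lit 45) .nil)))))))) (.g (nat_lit 1) (.e (nat_lit 400111) (nat_lit 0) .nil) .nil))) 
(.lf (nat_lit 591752) (.g (nat_lit 2875) (.e (nat_lit 532544) (nat_lit 10) (.e (nat_lit 344133) (nat_lit 26) (.e (nat_lit 557098) (nat_lit 13) (.e (nat_lit 172062) (nat_lit 2) (.e (nat_lit 196622) (nat_lit 9) (.e (nat_lit 488) (nat_lit 38) (.e (nat_lit 483072) (nat_lit 26) .nil))))))) (.g (nat_lit 1) (.e (nat_lit 401242) (nat_lit 0) .nil) .nil)))))) 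
(.nd (nat_lit 7) (.nd (nat_lit 8) (.nd (nat_lit 9) 
(.lf (nat_lit 590920) (.g (nat_lit 1417) (.e (nat_lit 532526) (nat_lit 8) (.e (nat_lit 327715) (nat_lit 16) (.e (nat_lit 286727) (nat_lit 0) (.e (nat_lit 1715) (nat_lit 117) .nil)))) (.g (nat_lit 0) (.e (nat_lit 399087) (nat_lit 0) .nil) .nil))) 
(.lf (nat_lit 591432) (.g (nat_lit 2479) (.e (nat_lit 532544) (nat_lit 10) (.e (nat_lit 344117) (nat_lit 21) (.e (nat_lit 516129) (nat_lit 3) (.e (nat_lit 221214) (nat_lit 23) (.e (nat_lit 204819) (nat_lit 17) .nil))))) (.g (nat_lit 0) (.e (nat_lit 400921) (nat_lit 0) .nil) .nil)))) (.nd (nat_lit 9) 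
(.lf (nat_lit 591176) (.g (nat_lit 3882) (.e (nat_lit 532535) (nat_lit 9) (.e (nat_lit 336099) (nat_lit 9) (.e (nat_lit 335921) (nat_lit 0) (.e (nat_lit 1848) (nat_lit 124) (.e (nat_lit 557087) (nat_lit 11) (.e (nat_lit 24617) (nat_lit 7) (.e (nat_lit 319504) (nat_lit 10) (.e (nat_lit 7936) (nat_lit 45) .nil)))))))) (.g (nat_lit 1) (.e (nat_lit 400001) (nat_lit 0) .nil) .nil))) 
(.lf (nat_lit 591688) (.g (nat_lit 2504) (.e (nat_lit 532544) (nat_lit 10) (.e (nat_lit 344132) (nat_lit 26) (.e (nat_lit 557101) (nat_lit 13) (.e (nat_lit 172067) (nat_lit 3) (.e (nat_lit 204813) (nat_lit 9) .nil))))) (.g (nat_lit 0) (.e (nat_lit 401178) (nat_lit 0) .nil) .nil))))) (.nd (nat_lit 8) (.nd (nat_lit 9) 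
(.lf (nat_lit 591048) (.g (nat_lit 3005) (.e (nat_lit 532531) (nat_lit 9) (.e (nat_lit 336019) (nat_lit 3) (.e (nat_lit 98342) (nat_lit 20) (.e (nat_lit 221210) (nat_lit 22) (.e (nat_lit 196658) (nat_lit 12) (.e (nat_lit 57508) (nat_lit 39) (.e (nat_lit 647181) (nat_lit 3) (.e (nat_lit 163964) (nat_lit 25) .nil)))))))) (.g (nat_lit 1) (.e (nat_lit 399571) (nat_lit 0) .nil) .nil))) 
(.lf (nat_lit 591560) (.g (nat_lit 2243) (.e (nat_lit 532544) (nat_lit 10) (.e (nat_lit 344130) (nat_lit 26) (.e (nat_lit 557104) (nat_lit 14) (.e (nat_lit 180252) (nat_lit 10) (.e (nat_lit 573441) (nat_lit 0) (.e (nat_lit 3066) (nat_lit 190) (.e (nat_lit 483072) (nat_lit 26) .nil))))))) (.g (nat_lit 1) (.e (nat_lit 401050) (nat_lit 0) .nil) .nil)))) (.nd (nat_lit 9) 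
(.lf (nat_lit 591304) (.g (nat_lit 2788) (.e (nat_lit 532535) (nat_lit 9) (.e (nat_lit 336166) (nat_lit 10) (.e (nat_lit 344130) (nat_lit 26) (.e (nat_lit 557087) (nat_lit 11) (.e (nat_lit 24617) (nat_lit 7) (.e (nat_lit 319505) (nat_lit 10) (.e (nat_lit 7936) (nat_lit 45) .nil))))))) (.g (nat_lit 1) (.e (nat_lit 400421) (nat_lit 0) .nil) .nil))) 
(.lf (nat_lit 591816) (.g (nat_lit 2878) (.e (nat_lit 532544) (nat_lit 10) (.e (nat_lit 344133) (nat_lit 26) (.e (nat_lit 557105) (nat_lit 14) (.e (nat_lit 180251) (nat_lit 10) (.e (nat_lit 581376) (nat_lit 0) (.e (nat_lit 3062) (nat_lit 190) (.e (nat_lit 483072) (nat_lit 26) .nil))))))) (.g (nat_lit 1) (.e (nat_lit 401306) (nat_lit 0) .nil) .nil))))))) 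
(.nd (nat_lit 6) (.nd (nat_lit 7) (.nd (nat_lit 8) (.nd (nat_lit 9) 
(.lf (nat_lit 590888) (.g (nat_lit 1664) (.e (nat_lit 532526) (nat_lit 8) (.e (nat_lit 327698) (nat_lit 8) (.e (nat_lit 303117) (nat_lit 2) (.e (nat_lit 196669) (nat_lit 14) (.e (nat_lit 73780) (nat_lit 32) .nil))))) (.g (nat_lit 0) (.e (nat_lit 399028) (nat_lit 0) .nil) .nil))) 
(.lf (nat_lit 591400) (.g (nat_lit 1679) (.e (nat_lit 532543) (nat_lit 10) (.e (nat_lit 344117) (nat_lit 21) (.e (nat_lit 516123) (nat_lit 2) (.e (nat_lit 220928) (nat_lit 3) .nil)))) (.g (nat_lit 0) (.e (nat_lit 400881) (nat_lit 0) .nil) .nil)))) (.nd (nat_lit 9) 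
(.lf (nat_lit 591144) (.g (nat_lit 1959) (.e (nat_lit 532534) (nat_lit 9) (.e (nat_lit 336324) (nat_lit 18) (.e (nat_lit 204854) (nat_lit 26) (.e (nat_lit 336284) (nat_lit 15) .nil)))) (.g (nat_lit 0) (.e (nat_lit 399837) (nat_lit 0) .nil) .nil))) 
(.lf (nat_lit 591656) (.g (nat_lit 2204) (.e (nat_lit 532544) (nat_lit 10) (.e (nat_lit 344132) (nat_lit 26) (.e (nat_lit 557100) (nat_lit 13) (.e (nat_lit 172064) (nat_lit 2) (.e (nat_lit 196653) (nat_lit 11) .nil))))) (.g (nat_lit 0) (.e (nat_lit 401146) (nat_lit 0) .nil) .nil))))) (.nd (nat_lit 8) (.nd (nat_lit 9) 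
(.lf (nat_lit 591016) (.g (nat_lit 3608) (.e (nat_lit 532530) (nat_lit 9) (.e (nat_lit 336324) (nat_lit 18) (.e (nat_lit 204880) (nat_lit 32) (.e (nat_lit 385066) (nat_lit 26) (.e (nat_lit 532563) (nat_lit 15) (.e (nat_lit 385068) (nat_lit 26) .nil)))))) (.g (nat_lit 1) (.e (nat_lit 399469) (nat_lit 0) .nil) .nil))) 
(.lf (nat_lit 591528) (.g (nat_lit 3741) (.e (nat_lit 532544) (nat_lit 10) (.e (nat_lit 344130) (nat_lit 26) (.e (nat_lit 557097) (nat_lit 13) (.e (nat_lit 172133) (nat_lit 15) (.e (nat_lit 1800) (nat_lit 119) (.e (nat_lit 516119) (nat_lit 1) (.e (nat_lit 164347) (nat_lit 240) (.e (nat_lit 2601) (nat_lit 163) (.e (nat_lit 163962) (nat_lit 25) .nil))))))))) (.g (nat_lit 1) (.e (nat_lit 401018) (nat_lit 0) .nil) .nil)))) 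
(.nd (nat_lit 9) 
(.lf (nat_lit 591272) (.g (nat_lit 5542) (.e (nat_lit 532535) (nat_lit 9) (.e (nat_lit 336099) (nat_lit 9) (.e (nat_lit 336028) (nat_lit 3) (.e (nat_lit 98349) (nat_lit 24) (.e (nat_lit 409646) (nat_lit 18) (.e (nat_lit 303112) (nat_lit 0) (.e (nat_lit 3230) (nat_lit 197) .nil))))))) (.g (nat_lit 1) (.e (nat_lit 400323) (nat_lit 0) .nil) .nil))) 
(.lf (nat_lit 591784) (.g (nat_lit 1484) (.e (nat_lit 532544) (nat_lit 10) (.e (nat_lit 344133) (nat_lit 26) (.e (nat_lit 557103) (nat_lit 14) (.e (nat_lit 180244) (nat_lit 5) .nil)))) (.g (nat_lit 0) (.e (nat_lit 401274) (nat_lit 0) .nil) .nil)))))) (.nd (nat_lit 7) (.nd (nat_lit 8) (.nd (nat_lit 9) 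
(.lf (nat_lit 590952) (.g (nat_lit 1995) (.e (nat_lit 532528) (nat_lit 9) (.e (nat_lit 336324) (nat_lit 18) (.e (nat_lit 204882) (nat_lit 32) (.e (nat_lit 385066) (nat_lit 26) (.e (nat_lit 532566) (nat_lit 15) .nil))))) (.g (nat_lit 0) (.e (nat_lit 399137) (nat_lit 0) .nil) .nil))) 
(.lf (nat_lit 591464) (.g (nat_lit 3020) (.e (nat_lit 532544) (nat_lit 10) (.e (nat_lit 344129) (nat_lit 26) (.e (nat_lit 557097) (nat_lit 13) (.e (nat_lit 172045) (nat_lit 0) (.e (nat_lit 3308) (nat_lit 202) (.e (nat_lit 573440) (nat_lit 0) (.e (nat_lit 3067) (nat_lit 190) (.e (nat_lit 483072) (nat_lit 26) .nil)))))))) (.g (nat_lit 1) (.e (nat_lit 400954) (nat_lit 0) .nil) .nil)))) 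
(.nd (nat_lit 9) 
(.lf (nat_lit 591208) (.g (nat_lit 4332) (.e (nat_lit 532535) (nat_lit 9) (.e (nat_lit 336099) (nat_lit 9) (.e (nat_lit 336013) (nat_lit 2) (.e (nat_lit 90134) (nat_lit 9) (.e (nat_lit 2827) (nat_lit 182) .nil))))) (.g (nat_lit 0) (.e (nat_lit 400065) (nat_lit 0) .nil) .nil))) 
(.lf (nat_lit 591720) (.g (nat_lit 2228) (.e (nat_lit 532544) (nat_lit 10) (.e (nat_lit 344132) (nat_lit 26) (.e (nat_lit 557105) (nat_lit 14) (.e (nat_lit 180252) (nat_lit 10) (.e (nat_lit 581376) (nat_lit 0) (.e (nat_lit 3059) (nat_lit 190) (.e (nat_lit 483072) (nat_lit 26) .nil))))))) (.g (nat_lit 1) (.e (nat_lit 401210) (nat_lit 0) .nil) .nil))))) (.nd (nat_lit 8) (.nd (nat_lit 9) 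
(.lf (nat_lit 591080) (.g (nat_lit 1777) (.e (nat_lit 532532) (nat_lit 9) (.e (nat_lit 336324) (nat_lit 18) (.e (nat_lit 204854) (nat_lit 26) (.e (nat_lit 343808) (nat_lit 18) .nil)))) (.g (nat_lit 0) (.e (nat_lit 399699) (nat_lit 0) .nil) .nil))) 
(.lf (nat_lit 591592) (.g (nat_lit 2381) (.e (nat_lit 532544) (nat_lit 10) (.e (nat_lit 344131) (nat_lit 26) (.e (nat_lit 557098) (nat_lit 13) (.e (nat_lit 172067) (nat_lit 3) (.e (nat_lit 204821) (nat_lit 17) .nil))))) (.g (nat_lit 0) (.e (nat_lit 401082) (nat_lit 0) .nil) .nil)))) (.nd (nat_lit 9) 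
(.lf (nat_lit 591336) (.g (nat_lit 1053) (.e (nat_lit 532535) (nat_lit 9) (.e (nat_lit 336176) (nat_lit 10) (.e (nat_lit 344130) (nat_lit 26) (.e (nat_lit 557090) (nat_lit 12) .nil)))) (.g (nat_lit 0) (.e (nat_lit 400592) (nat_lit 0) .nil) .nil))) 
(.lf (nat_lit 591848) (.g (nat_lit 3429) (.e (nat_lit 532544) (nat_lit 10) (.e (nat_lit 344133) (nat_lit 26) (.e (nat_lit 557105) (nat_lit 14) (.e (nat_lit 180252) (nat_lit 10) (.e (nat_lit 573474) (nat_lit 12) (.e (nat_lit 57513) (nat_lit 40) (.e (nat_lit 655373) (nat_lit 3) (.e (nat_lit 163962) (nat_lit 25) .nil)))))))) (.g (nat_lit 1) (.e (nat_lit 401338) (nat_lit 0) .nil) .nil)))))))) 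
(.nd (nat_lit 5) (.nd (nat_lit 6) (.nd (nat_lit 7) (.nd (nat_lit 8) (.nd (nat_lit 9) 
(.lf (nat_lit 590872) (.g (nat_lit 1738) (.e (nat_lit 532523) (nat_lit 7) (.e (nat_lit 319534) (nat_lit 16) (.e (nat_lit 286735) (nat_lit 3) (.e (nat_lit 106240) (nat_lit 29) .nil)))) (.g (nat_lit 0) (.e (nat_lit 398984) (nat_lit 0) .nil) .nil))) 
(.lf (nat_lit 591384) (.g (nat_lit 2483) (.e (nat_lit 532542) (nat_lit 9) (.e (nat_lit 336088) (nat_lit 9) (.e (nat_lit 336324) (nat_lit 18) (.e (nat_lit 204838) (nat_lit 20) (.e (nat_lit 114696) (nat_lit 11) .nil))))) (.g (nat_lit 0) (.e (nat_lit 400847) (nat_lit 0) .nil) .nil)))) (.nd (nat_lit 9) 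
(.lf (nat_lit 591128) (.g (nat_lit 1661) (.e (nat_lit 532534) (nat_lit 9) (.e (nat_lit 336019) (nat_lit 3) (.e (nat_lit 98342) (nat_lit 20) (.e (nat_lit 221210) (nat_lit 22) .nil)))) (.g (nat_lit 0) (.e (nat_lit 399800) (nat_lit 0) .nil) .nil))) 
(.lf (nat_lit 591640) (.g (nat_lit 1900) (.e (nat_lit 532544) (nat_lit 10) (.e (nat_lit 344131) (nat_lit 26) (.e (nat_lit 557105) (nat_lit 14) (.e (nat_lit 180252) (nat_lit 10) (.e (nat_lit 581376) (nat_lit 0) (.e (nat_lit 3061) (nat_lit 190) (.e (nat_lit 483072) (nat_lit 26) .nil))))))) (.g (nat_lit 1) (.e (nat_lit 401130) (nat_lit 0) .nil) .nil))))) (.nd (nat_lit 8) (.nd (nat_lit 9) 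
(.lf (nat_lit 591000) (.g (nat_lit 3362) (.e (nat_lit 532529) (nat_lit 9) (.e (nat_lit 336326) (nat_lit 18) (.e (nat_lit 204863) (nat_lit 27) (.e (nat_lit 344133) (nat_lit 26) (.e (nat_lit 557098) (nat_lit 13) (.e (nat_lit 179968) (nat_lit 15) (.e (nat_lit 1816) (nat_lit 121) .nil))))))) (.g (nat_lit 1) (.e (nat_lit 399340) (nat_lit 0) .nil) .nil))) 
(.lf (nat_lit 591512) (.g (nat_lit 2512) (.e (nat_lit 532544) (nat_lit 10) (.e (nat_lit 344129) (nat_lit 26) (.e (nat_lit 557104) (nat_lit 14) (.e (nat_lit 180252) (nat_lit 10) (.e (nat_lit 573474) (nat_lit 12) (.e (nat_lit 57508) (nat_lit 39) (.e (nat_lit 647180) (nat_lit 3) (.e (nat_lit 163962) (nat_lit 25) .nil)))))))) (.g (nat_lit 1) (.e (nat_lit 401002) (nat_lit 0) .nil) .nil)))) 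
(.nd (nat_lit 9) 
(.lf (nat_lit 591256) (.g (nat_lit 2118) (.e (nat_lit 532535) (nat_lit 9) (.e (nat_lit 336099) (nat_lit 9) (.e (nat_lit 336013) (nat_lit 2) (.e (nat_lit 90170) (nat_lit 13) .nil)))) (.g (nat_lit 0) (.e (nat_lit 400133) (nat_lit 0) .nil) .nil))) 
(.lf (nat_lit 591768) (.g (nat_lit 3174) (.e (nat_lit 532544) (nat_lit 10) (.e (nat_lit 344133) (nat_lit 26) (.e (nat_lit 557098) (nat_lit 13) (.e (nat_lit 172066) (nat_lit 3) (.e (nat_lit 204829) (nat_lit 18) (.e (nat_lit 57704) (nat_lit 164) (.e (nat_lit 2601) (nat_lit 163) (.e (nat_lit 163962) (nat_lit 25) .nil)))))))) (.g (nat_lit 1) (.e (nat_lit 401258) (nat_lit 0) .nil) .nil)))))) 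
(.nd (nat_lit 7) (.nd (nat_lit 8) (.nd (nat_lit 9) 
(.lf (nat_lit 590936) (.g (nat_lit 1730) (.e (nat_lit 532528) (nat_lit 9) (.e (nat_lit 336019) (nat_lit 3) (.e (nat_lit 98342) (nat_lit 20) (.e (nat_lit 221211) (nat_lit 22) .nil)))) (.g (nat_lit 0) (.e (nat_lit 399117) (nat_lit 0) .nil) .nil))) 
(.lf (nat_lit 591448) (.g (nat_lit 849) (.e (nat_lit 532544) (nat_lit 10) (.e (nat_lit 344118) (nat_lit 21) (.e (nat_lit 516131) (nat_lit 3) (.e (nat_lit 221198) (nat_lit 20) .nil)))) (.g (nat_lit 0) (.e (nat_lit 400937) (nat_lit 0) .nil) .nil)))) (.nd (nat_lit 9) 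
(.lf (nat_lit 591192) (.g (nat_lit 3006) (.e (nat_lit 532535) (nat_lit 9) (.e (nat_lit 336099) (nat_lit 9) (.e (nat_lit 336013) (nat_lit 2) (.e (nat_lit 90129) (nat_lit 9) .nil)))) (.g (nat_lit 0) (.e (nat_lit 400034) (nat_lit 0) .nil) .nil))) 
(.lf (nat_lit 591704) (.g (nat_lit 1202) (.e (nat_lit 532544) (nat_lit 10) (.e (nat_lit 344132) (nat_lit 26) (.e (nat_lit 557105) (nat_lit 14) (.e (nat_lit 188160) (nat_lit 1) .nil)))) (.g (nat_lit 0) (.e (nat_lit 401194) (nat_lit 0) .nil) .nil))))) (.nd (nat_lit 8) (.nd (nat_lit 9) 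
(.lf (nat_lit 591064) (.g (nat_lit 2924) (.e (nat_lit 532531) (nat_lit 9) (.e (nat_lit 336334) (nat_lit 20) (.e (nat_lit 221212) (nat_lit 22) (.e (nat_lit 196656) (nat_lit 11) (.e (nat_lit 16448) (nat_lit 10) (.e (nat_lit 434231) (nat_lit 23) .nil)))))) (.g (nat_lit 1) (.e (nat_lit 399613) (nat_lit 0) .nil) .nil))) 
(.lf (nat_lit 591576) (.g (nat_lit 2237) (.e (nat_lit 532544) (nat_lit 10) (.e (nat_lit 344130) (nat_lit 26) (.e (nat_lit 557104) (nat_lit 14) (.e (nat_lit 180252) (nat_lit 10) (.e (nat_lit 581376) (nat_lit 0) (.e (nat_lit 3072) (nat_lit 190) (.e (nat_lit 483072) (nat_lit 26) .nil))))))) (.g (nat_lit 1) (.e (nat_lit 401066) (nat_lit 0) .nil) .nil)))) (.nd (nat_lit 9) 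
(.lf (nat_lit 591320) (.g (nat_lit 4563) (.e (nat_lit 532535) (nat_lit 9) (.e (nat_lit 336173) (nat_lit 10) (.e (nat_lit 344126) (nat_lit 25) (.e (nat_lit 548889) (nat_lit 9) (.e (nat_lit 65629) (nat_lit 14) (.e (nat_lit 401412) (nat_lit 0) (.e (nat_lit 3256) (nat_lit 197) .nil))))))) (.g (nat_lit 1) (.e (nat_lit 400472) (nat_lit 0) .nil) .nil))) 
(.lf (nat_lit 591832) (.g (nat_lit 2984) (.e (nat_lit 532544) (nat_lit 10) (.e (nat_lit 344133) (nat_lit 26) (.e (nat_lit 557105) (nat_lit 14) (.e (nat_lit 180252) (nat_lit 10) (.e (nat_lit 581376) (nat_lit 0) (.e (nat_lit 3068) (nat_lit 190) (.e (nat_lit 483072) (nat_lit 26) .nil))))))) (.g (nat_lit 1) (.e (nat_lit 401322) (nat_lit 0) .nil) .nil))))))) 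
(.nd (nat_lit 6) (.nd (nat_lit 7) (.nd (nat_lit 8) (.nd (nat_lit 9) 
(.lf (nat_lit 590904) (.g (nat_lit 428) (.e (nat_lit 532526) (nat_lit 8) (.e (nat_lit 327699) (nat_lit 8) (.e (nat_lit 303119) (nat_lit 3) .nil))) (.g (nat_lit 0) (.e (nat_lit 399053) (nat_lit 0) .nil) .nil))) 
(.lf (nat_lit 591416) (.g (nat_lit 2480) (.e (nat_lit 532543) (nat_lit 10) (.e (nat_lit 344133) (nat_lit 26) (.e (nat_lit 557098) (nat_lit 13) (.e (nat_lit 179968) (nat_lit 18) (.e (nat_lit 98335) (nat_lit 18) (.e (nat_lit 164345) (nat_lit 240) (.e (nat_lit 2601) (nat_lit 163) (.e (nat_lit 163962) (nat_lit 25) .nil)))))))) (.g (nat_lit 1) (.e (nat_lit 400897) (nat_lit 0) .nil) .nil)))) 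
(.nd (nat_lit 9) 
(.lf (nat_lit 591160) (.g (nat_lit 2028) (.e (nat_lit 532534) (nat_lit 9) (.e (nat_lit 336326) (nat_lit 18) (.e (nat_lit 204854) (nat_lit 26) (.e (nat_lit 336303) (nat_lit 15) .nil)))) (.g (nat_lit 0) (.e (nat_lit 399855) (nat_lit 0) .nil) .nil))) 
(.lf (nat_lit 591672) (.g (nat_lit 1998) (.e (nat_lit 532544) (nat_lit 10) (.e (nat_lit 344132) (nat_lit 26) (.e (nat_lit 557101) (nat_lit 13) (.e (nat_lit 172045) (nat_lit 0) (.e (nat_lit 3307) (nat_lit 202) (.e (nat_lit 573447) (nat_lit 0) (.e (nat_lit 3067) (nat_lit 190) (.e (nat_lit 483072) (nat_lit 26) .nil)))))))) (.g (nat_lit 1) (.e (nat_lit 401162) (nat_lit 0) .nil) .nil))))) 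
(.nd (nat_lit 8) (.nd (nat_lit 9) 
(.lf (nat_lit 591032) (.g (nat_lit 2014) (.e (nat_lit 532530) (nat_lit 9) (.e (nat_lit 336326) (nat_lit 18) (.e (nat_lit 204854) (nat_lit 26) (.e (nat_lit 336286) (nat_lit 15) .nil)))) (.g (nat_lit 0) (.e (nat_lit 399493) (nat_lit 0) .nil) .nil))) 
(.lf (nat_lit 591544) (.g (nat_lit 2960) (.e (nat_lit 532544) (nat_lit 10) (.e (nat_lit 344130) (nat_lit 26) (.e (nat_lit 557103) (nat_lit 14) (.e (nat_lit 180250) (nat_lit 10) (.e (nat_lit 573441) (nat_lit 0) (.e (nat_lit 3066) (nat_lit 190) (.e (nat_lit 483072) (nat_lit 26) .nil))))))) (.g (nat_lit 1) (.e (nat_lit 401034) (nat_lit 0) .nil) .nil)))) (.nd (nat_lit 9) 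
(.lf (nat_lit 591288) (.g (nat_lit 2895) (.e (nat_lit 532535) (nat_lit 9) (.e (nat_lit 336099) (nat_lit 9) (.e (nat_lit 336028) (nat_lit 3) (.e (nat_lit 98350) (nat_lit 24) (.e (nat_lit 409649) (nat_lit 18) (.e (nat_lit 303111) (nat_lit 0) (.e (nat_lit 7936) (nat_lit 197) .nil))))))) (.g (nat_lit 1) (.e (nat_lit 400346) (nat_lit 0) .nil) .nil))) 
(.lf (nat_lit 591800) (.g (nat_lit 2834) (.e (nat_lit 532544) (nat_lit 10) (.e (nat_lit 344133) (nat_lit 26) (.e (nat_lit 557105) (nat_lit 14) (.e (nat_lit 180227) (nat_lit 0) (.e (nat_lit 4181) (nat_lit 251) (.e (nat_lit 2514) (nat_lit 157) (.e (nat_lit 3067) (nat_lit 190) (.e (nat_lit 483072) (nat_lit 26) .nil)))))))) (.g (nat_lit 1) (.e (nat_lit 401290) (nat_lit 0) .nil) .nil)))))) 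
(.nd (nat_lit 7) (.nd (nat_lit 8) (.nd (nat_lit 9) 
(.lf (nat_lit 590968) (.g (nat_lit 1715) (.e (nat_lit 532529) (nat_lit 9) (.e (nat_lit 336326) (nat_lit 18) (.e (nat_lit 204862) (nat_lit 27) (.e (nat_lit 344129) (nat_lit 26) (.e (nat_lit 557097) (nat_lit 13) .nil))))) (.g (nat_lit 0) (.e (nat_lit 399306) (nat_lit 0) .nil) .nil))) 
(.lf (nat_lit 591480) (.g (nat_lit 2554) (.e (nat_lit 532544) (nat_lit 10) (.e (nat_lit 344129) (nat_lit 26) (.e (nat_lit 557103) (nat_lit 14) (.e (nat_lit 180243) (nat_lit 5) (.e (nat_lit 540416) (nat_lit 32) (.e (nat_lit 483072) (nat_lit 26) .nil)))))) (.g (nat_lit 1) (.e (nat_lit 400970) (nat_lit 0) .nil) .nil)))) (.nd (nat_lit 9) 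
(.lf (nat_lit 591224) (.g (nat_lit 3679) (.e (nat_lit 532535) (nat_lit 9) (.e (nat_lit 336099) (nat_lit 9) (.e (nat_lit 336013) (nat_lit 2) (.e (nat_lit 90165) (nat_lit 12) (.e (nat_lit 164208) (nat_lit 176) (.e (nat_lit 2819) (nat_lit 181) (.e (nat_lit 311299) (nat_lit 0) (.e (nat_lit 3241) (nat_lit 197) .nil)))))))) (.g (nat_lit 1) (.e (nat_lit 400095) (nat_lit 0) .nil) .nil))) 
(.lf (nat_lit 591736) (.g (nat_lit 3397) (.e (nat_lit 532544) (nat_lit 10) (.e (nat_lit 344132) (nat_lit 26) (.e (nat_lit 557105) (nat_lit 14) (.e (nat_lit 180252) (nat_lit 10) (.e (nat_lit 573475) (nat_lit 12) (.e (nat_lit 57508) (nat_lit 39) (.e (nat_lit 647180) (nat_lit 3) (.e (nat_lit 163962) (nat_lit 25) .nil)))))))) (.g (nat_lit 1) (.e (nat_lit 401226) (nat_lit 0) .nil) .nil))))) 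
(.nd (nat_lit 8) (.nd (nat_lit 9) 
(.lf (nat_lit 591096) (.g (nat_lit 690) (.e (nat_lit 532533) (nat_lit 9) (.e (nat_lit 336019) (nat_lit 3) (.e (nat_lit 98338) (nat_lit 19) .nil))) (.g (nat_lit 0) (.e (nat_lit 399735) (nat_lit 0) .nil) .nil))) 
(.lf (nat_lit 591608) (.g (nat_lit 2450) (.e (nat_lit 532544) (nat_lit 10) (.e (nat_lit 344131) (nat_lit 26) (.e (nat_lit 557103) (nat_lit 14) (.e (nat_lit 180243) (nat_lit 5) (.e (nat_lit 540416) (nat_lit 32) (.e (nat_lit 483072) (nat_lit 26) .nil)))))) (.g (nat_lit 1) (.e (nat_lit 401098) (nat_lit 0) .nil) .nil)))) (.nd (nat_lit 9) 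
(.lf (nat_lit 591352) (.g (nat_lit 5460) (.e (nat_lit 532535) (nat_lit 9) (.e (nat_lit 336176) (nat_lit 10) (.e (nat_lit 344133) (nat_lit 26) (.e (nat_lit 557091) (nat_lit 12) (.e (nat_lit 164022) (nat_lit 46) (.e (nat_lit 704629) (nat_lit 9) (.e (nat_lit 442) (nat_lit 33) (.e (nat_lit 434233) (nat_lit 23) .nil)))))))) (.g (nat_lit 1) (.e (nat_lit 400749) (nat_lit 0) .nil) .nil))) 
(.lf (nat_lit 591864) (.g (nat_lit 1576) (.e (nat_lit 532546) (nat_lit 11) (.e (nat_lit 352313) (nat_lit 23) (.e (nat_lit 98350) (nat_lit 24) (.e (nat_lit 417536) (nat_lit 10) .nil)))) (.g (nat_lit 0) (.e (nat_lit 401368) (nat_lit 0) .nil) .nil)))))))))) (.nd (nat_lit 3) (.nd (nat_lit 4) (.nd (nat_lit 5) (.nd (nat_lit 6) (.nd (nat_lit 7) (.nd (nat_lit 8) (.nd (nat_lit 9) 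
(.lf (nat_lit 590852) (.g (nat_lit 2063) (.e (nat_lit 532523) (nat_lit 7) (.e (nat_lit 319534) (nat_lit 16) (.e (nat_lit 286734) (nat_lit 3) (.e (nat_lit 98368) (nat_lit 27) (.e (nat_lit 442112) (nat_lit 11) .nil))))) (.g (nat_lit 0) (.e (nat_lit 398964) (nat_lit 0) .nil) .nil))) 
(.lf (nat_lit 591364) (.g (nat_lit 3233) (.e (nat_lit 532535) (nat_lit 9) (.e (nat_lit 336178) (nat_lit 10) (.e (nat_lit 344117) (nat_lit 21) (.e (nat_lit 516139) (nat_lit 7) (.e (nat_lit 409645) (nat_lit 18) (.e (nat_lit 303112) (nat_lit 0) (.e (nat_lit 3252) (nat_lit 197) .nil))))))) (.g (nat_lit 1) (.e (nat_lit 400768) (nat_lit 0) .nil) .nil)))) (.nd (nat_lit 9) 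
(.lf (nat_lit 591108) (.g (nat_lit 1726) (.e (nat_lit 532533) (nat_lit 9) (.e (nat_lit 336211) (nat_lit 13) (.e (nat_lit 393251) (nat_lit 18) (.e (nat_lit 164155) (nat_lit 152) .nil)))) (.g (nat_lit 0) (.e (nat_lit 399756) (nat_lit 0) .nil) .nil))) 
(.lf (nat_lit 591620) (.g (nat_lit 2260) (.e (nat_lit 532544) (nat_lit 10) (.e (nat_lit 344131) (nat_lit 26) (.e (nat_lit 557103) (nat_lit 14) (.e (nat_lit 180250) (nat_lit 10) (.e (nat_lit 573447) (nat_lit 0) .nil))))) (.g (nat_lit 0) (.e (nat_lit 401110) (nat_lit 0) .nil) .nil))))) (.nd (nat_lit 8) (.nd (nat_lit 9) 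
(.lf (nat_lit 590980) (.g (nat_lit 3003) (.e (nat_lit 532529) (nat_lit 9) (.e (nat_lit 336326) (nat_lit 18) (.e (nat_lit 204863) (nat_lit 27) (.e (nat_lit 344132) (nat_lit 26) (.e (nat_lit 557101) (nat_lit 13) (.e (nat_lit 172134) (nat_lit 15) (.e (nat_lit 7936) (nat_lit 121) .nil))))))) (.g (nat_lit 1) (.e (nat_lit 399320) (nat_lit 0) .nil) .nil))) 
(.lf (nat_lit 591492) (.g (nat_lit 2182) (.e (nat_lit 532544) (nat_lit 10) (.e (nat_lit 344129) (nat_lit 26) (.e (nat_lit 557104) (nat_lit 14) (.e (nat_lit 180227) (nat_lit 0) (.e (nat_lit 4301) (nat_lit 256) .nil))))) (.g (nat_lit 0) (.e (nat_lit 400982) (nat_lit 0) .nil) .nil)))) (.nd (nat_lit 9) 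
(.lf (nat_lit 591236) (.g (nat_lit 3455) (.e (nat_lit 532535) (nat_lit 9) (.e (nat_lit 336099) (nat_lit 9) (.e (nat_lit 336013) (nat_lit 2) (.e (nat_lit 90165) (nat_lit 12) (.e (nat_lit 164210) (nat_lit 176) (.e (nat_lit 2771) (nat_lit 177) (.e (nat_lit 278551) (nat_lit 10) (.e (nat_lit 7936) (nat_lit 45) .nil)))))))) (.g (nat_lit 1) (.e (nat_lit 400107) (nat_lit 0) .nil) .nil))) 
(.lf (nat_lit 591748) (.g (nat_lit 3862) (.e (nat_lit 532544) (nat_lit 10) (.e (nat_lit 344133) (nat_lit 26) (.e (nat_lit 557098) (nat_lit 13) (.e (nat_lit 172051) (nat_lit 0) (.e (nat_lit 3307) (nat_lit 202) (.e (nat_lit 573440) (nat_lit 0) (.e (nat_lit 3067) (nat_lit 190) (.e (nat_lit 483072) (nat_lit 26) .nil)))))))) (.g (nat_lit 1) (.e (nat_lit 401238) (nat_lit 0) .nil) .nil)))))) 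
(.nd (nat_lit 7) (.nd (nat_lit 8) (.nd (nat_lit 9) 
(.lf (nat_lit 590916) (.g (nat_lit 3259) (.e (nat_lit 532526) (nat_lit 8) (.e (nat_lit 327699) (nat_lit 8) (.e (nat_lit 303119) (nat_lit 3) (.e (nat_lit 204863) (nat_lit 27) (.e (nat_lit 344068) (nat_lit 0) .nil))))) (.g (nat_lit 0) (.e (nat_lit 399070) (nat_lit 0) .nil) .nil))) 
(.lf (nat_lit 591428) (.g (nat_lit 716) (.e (nat_lit 532544) (nat_lit 10) (.e (nat_lit 344117) (nat_lit 21) (.e (nat_lit 516123) (nat_lit 2) .nil))) (.g (nat_lit 0) (.e (nat_lit 400917) (nat_lit 0) .nil) .nil)))) (.nd (nat_lit 9) 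
(.lf (nat_lit 591172) (.g (nat_lit 3749) (.e (nat_lit 532535) (nat_lit 9) (.e (nat_lit 336099) (nat_lit 9) (.e (nat_lit 335918) (nat_lit 0) (.e (nat_lit 1848) (nat_lit 124) (.e (nat_lit 557087) (nat_lit 11) (.e (nat_lit 24617) (nat_lit 7) (.e (nat_lit 319504) (nat_lit 10) (.e (nat_lit 7936) (nat_lit 45) .nil)))))))) (.g (nat_lit 1) (.e (nat_lit 399997) (nat_lit 0) .nil) .nil))) 
(.lf (nat_lit 591684) (.g (nat_lit 2033) (.e (nat_lit 532544) (nat_lit 10) (.e (nat_lit 344132) (nat_lit 26) (.e (nat_lit 557101) (nat_lit 13) (.e (nat_lit 172064) (nat_lit 2) (.e (nat_lit 196628) (nat_lit 9) (.e (nat_lit 488) (nat_lit 38) (.e (nat_lit 483072) (nat_lit 26) .nil))))))) (.g (nat_lit 1) (.e (nat_lit 401174) (nat_lit 0) .nil) .nil))))) (.nd (nat_lit 8) (.nd (nat_lit 9) 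
(.lf (nat_lit 591044) (.g (nat_lit 2564) (.e (nat_lit 532530) (nat_lit 9) (.e (nat_lit 336326) (nat_lit 18) (.e (nat_lit 204882) (nat_lit 32) (.e (nat_lit 385066) (nat_lit 26) (.e (nat_lit 532534) (nat_lit 9) (.e (nat_lit 336257) (nat_lit 15) (.e (nat_lit 3251) (nat_lit 197) .nil))))))) (.g (nat_lit 1) (.e (nat_lit 399537) (nat_lit 0) .nil) .nil))) 
(.lf (nat_lit 591556) (.g (nat_lit 2639) (.e (nat_lit 532544) (nat_lit 10) (.e (nat_lit 344130) (nat_lit 26) (.e (nat_lit 557104) (nat_lit 14) (.e (nat_lit 180252) (nat_lit 10) (.e (nat_lit 573440) (nat_lit 0) (.e (nat_lit 3067) (nat_lit 190) (.e (nat_lit 483072) (nat_lit 26) .nil))))))) (.g (nat_lit 1) (.e (nat_lit 401046) (nat_lit 0) .nil) .nil)))) (.nd (nat_lit 9) 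
(.lf (nat_lit 591300) (.g (nat_lit 2744) (.e (nat_lit 532535) (nat_lit 9) (.e (nat_lit 336167) (nat_lit 10) (.e (nat_lit 344130) (nat_lit 26) (.e (nat_lit 557087) (nat_lit 11) (.e (nat_lit 24617) (nat_lit 7) (.e (nat_lit 319505) (nat_lit 10) (.e (nat_lit 7936) (nat_lit 45) .nil))))))) (.g (nat_lit 1) (.e (nat_lit 400417) (nat_lit 0) .nil) .nil))) 
(.lf (nat_lit 591812) (.g (nat_lit 3533) (.e (nat_lit 532544) (nat_lit 10) (.e (nat_lit 344133) (nat_lit 26) (.e (nat_lit 557105) (nat_lit 14) (.e (nat_lit 180251) (nat_lit 10) (.e (nat_lit 573444) (nat_lit 0) (.e (nat_lit 3062) (nat_lit 190) (.e (nat_lit 483072) (nat_lit 26) .nil))))))) (.g (nat_lit 1) (.e (nat_lit 401302) (nat_lit 0) .nil) .nil))))))) 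
(.nd (nat_lit 6) (.nd (nat_lit 7) (.nd (nat_lit 8) (.nd (nat_lit 9) 
(.lf (nat_lit 590884) (.g (nat_lit 4257) (.e (nat_lit 532525) (nat_lit 8) (.e (nat_lit 327715) (nat_lit 16) (.e (nat_lit 286733) (nat_lit 2) (.e (nat_lit 90170) (nat_lit 13) (.e (nat_lit 172113) (nat_lit 10) .nil))))) (.g (nat_lit 0) (.e (nat_lit 399012) (nat_lit 0) .nil) .nil))) 
(.lf (nat_lit 591396) (.g (nat_lit 2256) (.e (nat_lit 532542) (nat_lit 9) (.e (nat_lit 336204) (nat_lit 12) (.e (nat_lit 385074) (nat_lit 31) (.e (nat_lit 573489) (nat_lit 14) (.e (nat_lit 73780) (nat_lit 32) (.e (nat_lit 2508) (nat_lit 157) (.e (nat_lit 3249) (nat_lit 197) .nil))))))) (.g (nat_lit 1) (.e (nat_lit 400875) (nat_lit 0) .nil) .nil)))) (.nd (nat_lit 9) 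
(.lf (nat_lit 591140) (.g (nat_lit 606) (.e (nat_lit 532534) (nat_lit 9) (.e (nat_lit 336320) (nat_lit 17) (.e (nat_lit 196664) (nat_lit 13) .nil))) (.g (nat_lit 0) (.e (nat_lit 399831) (nat_lit 0) .nil) .nil))) 
(.lf (nat_lit 591652) (.g (nat_lit 2724) (.e (nat_lit 532544) (nat_lit 10) (.e (nat_lit 344132) (nat_lit 26) (.e (nat_lit 557100) (nat_lit 13) (.e (nat_lit 172062) (nat_lit 2) (.e (nat_lit 196628) (nat_lit 9) (.e (nat_lit 486) (nat_lit 38) (.e (nat_lit 483072) (nat_lit 26) .nil))))))) (.g (nat_lit 1) (.e (nat_lit 401142) (nat_lit 0) .nil) .nil))))) (.nd (nat_lit 8) (.nd (nat_lit 9) 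
(.lf (nat_lit 591012) (.g (nat_lit 1152) (.e (nat_lit 532530) (nat_lit 9) (.e (nat_lit 336324) (nat_lit 18) (.e (nat_lit 204854) (nat_lit 26) (.e (nat_lit 336316) (nat_lit 17) .nil)))) (.g (nat_lit 0) (.e (nat_lit 399460) (nat_lit 0) .nil) .nil))) 
(.lf (nat_lit 591524) (.g (nat_lit 2250) (.e (nat_lit 532544) (nat_lit 10) (.e (nat_lit 344130) (nat_lit 26) (.e (nat_lit 557097) (nat_lit 13) (.e (nat_lit 172067) (nat_lit 3) (.e (nat_lit 204809) (nat_lit 9) .nil))))) (.g (nat_lit 0) (.e (nat_lit 401014) (nat_lit 0) .nil) .nil)))) (.nd (nat_lit 9) 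
(.lf (nat_lit 591268) (.g (nat_lit 4302) (.e (nat_lit 532535) (nat_lit 9) (.e (nat_lit 336099) (nat_lit 9) (.e (nat_lit 336028) (nat_lit 3) (.e (nat_lit 98349) (nat_lit 24) (.e (nat_lit 409645) (nat_lit 18) (.e (nat_lit 303112) (nat_lit 0) (.e (nat_lit 3254) (nat_lit 197) .nil))))))) (.g (nat_lit 1) (.e (nat_lit 400319) (nat_lit 0) .nil) .nil))) 
(.lf (nat_lit 591780) (.g (nat_lit 3375) (.e (nat_lit 532544) (nat_lit 10) (.e (nat_lit 344133) (nat_lit 26) (.e (nat_lit 557103) (nat_lit 14) (.e (nat_lit 180243) (nat_lit 5) (.e (nat_lit 532503) (nat_lit 1) (.e (nat_lit 57704) (nat_lit 164) (.e (nat_lit 2601) (nat_lit 163) (.e (nat_lit 163962) (nat_lit 25) .nil)))))))) (.g (nat_lit 1) (.e (nat_lit 401270) (nat_lit 0) .nil) .nil)))))) 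
(.nd (nat_lit 7) (.nd (nat_lit 8) (.nd (nat_lit 9) 
(.lf (nat_lit 590948) (.g (nat_lit 1828) (.e (nat_lit 532528) (nat_lit 9) (.e (nat_lit 336324) (nat_lit 18) (.e (nat_lit 204880) (nat_lit 32) (.e (nat_lit 385066) (nat_lit 26) (.e (nat_lit 532566) (nat_lit 15) .nil))))) (.g (nat_lit 0) (.e (nat_lit 399131) (nat_lit 0) .nil) .nil))) 
(.lf (nat_lit 591460) (.g (nat_lit 1571) (.e (nat_lit 532544) (nat_lit 10) (.e (nat_lit 344129) (nat_lit 26) (.e (nat_lit 557097) (nat_lit 13) (.e (nat_lit 172045) (nat_lit 0) (.e (nat_lit 3307) (nat_lit 202) .nil))))) (.g (nat_lit 0) (.e (nat_lit 400950) (nat_lit 0) .nil) .nil)))) (.nd (nat_lit 9) 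
(.lf (nat_lit 591204) (.g (nat_lit 4938) (.e (nat_lit 532535) (nat_lit 9) (.e (nat_lit 336099) (nat_lit 9) (.e (nat_lit 336013) (nat_lit 2) (.e (nat_lit 90134) (nat_lit 9) (.e (nat_lit 2823) (nat_lit 182) (.e (nat_lit 409646) (nat_lit 18) (.e (nat_lit 303112) (nat_lit 0) (.e (nat_lit 3252) (nat_lit 197) .nil)))))))) (.g (nat_lit 1) (.e (nat_lit 400061) (nat_lit 0) .nil) .nil))) 
(.lf (nat_lit 591716) (.g (nat_lit 2508) (.e (nat_lit 532544) (nat_lit 10) (.e (nat_lit 344132) (nat_lit 26) (.e (nat_lit 557105) (nat_lit 14) (.e (nat_lit 180252) (nat_lit 10) (.e (nat_lit 573442) (nat_lit 0) (.e (nat_lit 2887) (nat_lit 184) (.e (nat_lit 426412) (nat_lit 15) (.e (nat_lit 7936) (nat_lit 121) .nil)))))))) (.g (nat_lit 1) (.e (nat_lit 401206) (nat_lit 0) .nil) .nil))))) 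
(.nd (nat_lit 8) (.nd (nat_lit 9) 
(.lf (nat_lit 591076) (.g (nat_lit 2009) (.e (nat_lit 532532) (nat_lit 9) (.e (nat_lit 336324) (nat_lit 18) (.e (nat_lit 204854) (nat_lit 26) (.e (nat_lit 336284) (nat_lit 15) .nil)))) (.g (nat_lit 0) (.e (nat_lit 399695) (nat_lit 0) .nil) .nil))) 
(.lf (nat_lit 591588) (.g (nat_lit 1100) (.e (nat_lit 532544) (nat_lit 10) (.e (nat_lit 344131) (nat_lit 26) (.e (nat_lit 557098) (nat_lit 13) (.e (nat_lit 179968) (nat_lit 2) .nil)))) (.g (nat_lit 0) (.e (nat_lit 401078) (nat_lit 0) .nil) .nil)))) (.nd (nat_lit 9) 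
(.lf (nat_lit 591332) (.g (nat_lit 2086) (.e (nat_lit 532535) (nat_lit 9) (.e (nat_lit 336176) (nat_lit 10) (.e (nat_lit 344130) (nat_lit 26) (.e (nat_lit 557087) (nat_lit 11) (.e (nat_lit 24576) (nat_lit 0) .nil))))) (.g (nat_lit 0) (.e (nat_lit 400579) (nat_lit 0) .nil) .nil))) 
(.lf (nat_lit 591844) (.g (nat_lit 3007) (.e (nat_lit 532544) (nat_lit 10) (.e (nat_lit 344133) (nat_lit 26) (.e (nat_lit 557105) (nat_lit 14) (.e (nat_lit 180252) (nat_lit 10) (.e (nat_lit 573474) (nat_lit 12) (.e (nat_lit 57347) (nat_lit 0) (.e (nat_lit 5444) (nat_lit 306) (.e (nat_lit 2604) (nat_lit 163) (.e (nat_lit 163962) (nat_lit 25) .nil))))))))) (.g (nat_lit 1) (.e (nat_lit 401334) (nat_lit 0) .nil) .nil)))))))) 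
(.nd (nat_lit 5) (.nd (nat_lit 6) (.nd (nat_lit 7) (.nd (nat_lit 8) (.nd (nat_lit 9) 
(.lf (nat_lit 590868) (.g (nat_lit 3457) (.e (nat_lit 532523) (nat_lit 7) (.e (nat_lit 319534) (nat_lit 16) (.e (nat_lit 286735) (nat_lit 3) (.e (nat_lit 98367) (nat_lit 27) (.e (nat_lit 434183) (nat_lit 8) .nil))))) (.g (nat_lit 0) (.e (nat_lit 398980) (nat_lit 0) .nil) .nil))) 
(.lf (nat_lit 591380) (.g (nat_lit 632) (.e (nat_lit 532542) (nat_lit 9) (.e (nat_lit 336076) (nat_lit 9) (.e (nat_lit 336379) (nat_lit 27) .nil))) (.g (nat_lit 0) (.e (nat_lit 400842) (nat_lit 0) .nil) .nil)))) (.nd (nat_lit 9) 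
(.lf (nat_lit 591124) (.g (nat_lit 1735) (.e (nat_lit 532533) (nat_lit 9) (.e (nat_lit 336326) (nat_lit 18) (.e (nat_lit 204854) (nat_lit 26) (.e (nat_lit 336324) (nat_lit 18) .nil)))) (.g (nat_lit 0) (.e (nat_lit 399773) (nat_lit 0) .nil) .nil))) 
(.lf (nat_lit 591636) (.g (nat_lit 2311) (.e (nat_lit 532544) (nat_lit 10) (.e (nat_lit 344131) (nat_lit 26) (.e (nat_lit 557105) (nat_lit 14) (.e (nat_lit 180252) (nat_lit 10) (.e (nat_lit 573442) (nat_lit 0) .nil))))) (.g (nat_lit 0) (.e (nat_lit 401126) (nat_lit 0) .nil) .nil))))) (.nd (nat_lit 8) (.nd (nat_lit 9) 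
(.lf (nat_lit 590996) (.g (nat_lit 3970) (.e (nat_lit 532529) (nat_lit 9) (.e (nat_lit 336326) (nat_lit 18) (.e (nat_lit 204863) (nat_lit 27) (.e (nat_lit 344133) (nat_lit 26) (.e (nat_lit 557098) (nat_lit 13) (.e (nat_lit 172133) (nat_lit 15) (.e (nat_lit 7936) (nat_lit 121) .nil))))))) (.g (nat_lit 1) (.e (nat_lit 399336) (nat_lit 0) .nil) .nil))) 
(.lf (nat_lit 591508) (.g (nat_lit 2427) (.e (nat_lit 532544) (nat_lit 10) (.e (nat_lit 344129) (nat_lit 26) (.e (nat_lit 557104) (nat_lit 14) (.e (nat_lit 180252) (nat_lit 10) (.e (nat_lit 581376) (nat_lit 0) (.e (nat_lit 3064) (nat_lit 190) (.e (nat_lit 483072) (nat_lit 26) .nil))))))) (.g (nat_lit 1) (.e (nat_lit 400998) (nat_lit 0) .nil) .nil)))) (.nd (nat_lit 9) 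
(.lf (nat_lit 591252) (.g (nat_lit 3498) (.e (nat_lit 532535) (nat_lit 9) (.e (nat_lit 336099) (nat_lit 9) (.e (nat_lit 336013) (nat_lit 2) (.e (nat_lit 90165) (nat_lit 12) (.e (nat_lit 171776) (nat_lit 193) (.e (nat_lit 123081) (nat_lit 178) (.e (nat_lit 123002) (nat_lit 86) .nil))))))) (.g (nat_lit 1) (.e (nat_lit 400129) (nat_lit 0) .nil) .nil))) 
(.lf (nat_lit 591764) (.g (nat_lit 2385) (.e (nat_lit 532544) (nat_lit 10) (.e (nat_lit 344133) (nat_lit 26) (.e (nat_lit 557098) (nat_lit 13) (.e (nat_lit 172065) (nat_lit 3) (.e (nat_lit 204811) (nat_lit 9) .nil))))) (.g (nat_lit 0) (.e (nat_lit 401254) (nat_lit 0) .nil) .nil)))))) (.nd (nat_lit 7) (.nd (nat_lit 8) (.nd (nat_lit 9) 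
(.lf (nat_lit 590932) (.g (nat_lit 1766) (.e (nat_lit 532527) (nat_lit 9) (.e (nat_lit 336324) (nat_lit 18) (.e (nat_lit 204852) (nat_lit 26) (.e (nat_lit 336326) (nat_lit 18) (.e (nat_lit 204882) (nat_lit 32) .nil))))) (.g (nat_lit 0) (.e (nat_lit 399111) (nat_lit 0) .nil) .nil))) 
(.lf (nat_lit 591444) (.g (nat_lit 1062) (.e (nat_lit 532544) (nat_lit 10) (.e (nat_lit 344117) (nat_lit 21) (.e (nat_lit 516131) (nat_lit 3) .nil))) (.g (nat_lit 0) (.e (nat_lit 400933) (nat_lit 0) .nil) .nil)))) (.nd (nat_lit 9) 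
(.lf (nat_lit 591188) (.g (nat_lit 3707) (.e (nat_lit 532535) (nat_lit 9) (.e (nat_lit 336099) (nat_lit 9) (.e (nat_lit 335938) (nat_lit 0) (.e (nat_lit 1848) (nat_lit 124) (.e (nat_lit 557087) (nat_lit 11) (.e (nat_lit 24617) (nat_lit 7) (.e (nat_lit 319504) (nat_lit 10) (.e (nat_lit 7936) (nat_lit 45) .nil)))))))) (.g (nat_lit 1) (.e (nat_lit 400016) (nat_lit 0) .nil) .nil))) 
(.lf (nat_lit 591700) (.g (nat_lit 1969) (.e (nat_lit 532544) (nat_lit 10) (.e (nat_lit 344132) (nat_lit 26) (.e (nat_lit 557105) (nat_lit 14) (.e (nat_lit 180227) (nat_lit 0) (.e (nat_lit 4297) (nat_lit 256) .nil))))) (.g (nat_lit 0) (.e (nat_lit 401190) (nat_lit 0) .nil) .nil))))) (.nd (nat_lit 8) (.nd (nat_lit 9) 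
(.lf (nat_lit 591060) (.g (nat_lit 3396) (.e (nat_lit 532531) (nat_lit 9) (.e (nat_lit 336324) (nat_lit 18) (.e (nat_lit 204854) (nat_lit 26) (.e (nat_lit 336324) (nat_lit 18) (.e (nat_lit 204882) (nat_lit 32) (.e (nat_lit 385066) (nat_lit 26) .nil)))))) (.g (nat_lit 1) (.e (nat_lit 399590) (nat_lit 0) .nil) .nil))) 
(.lf (nat_lit 591572) (.g (nat_lit 2234) (.e (nat_lit 532544) (nat_lit 10) (.e (nat_lit 344130) (nat_lit 26) (.e (nat_lit 557104) (nat_lit 14) (.e (nat_lit 180252) (nat_lit 10) (.e (nat_lit 581376) (nat_lit 0) (.e (nat_lit 3068) (nat_lit 190) (.e (nat_lit 483072) (nat_lit 26) .nil))))))) (.g (nat_lit 1) (.e (nat_lit 401062) (nat_lit 0) .nil) .nil)))) (.nd (nat_lit 9) 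
(.lf (nat_lit 591316) (.g (nat_lit 2558) (.e (nat_lit 532535) (nat_lit 9) (.e (nat_lit 336173) (nat_lit 10) (.e (nat_lit 344126) (nat_lit 25) (.e (nat_lit 548889) (nat_lit 9) (.e (nat_lit 65586) (nat_lit 7) .nil))))) (.g (nat_lit 0) (.e (nat_lit 400455) (nat_lit 0) .nil) .nil))) 
(.lf (nat_lit 591828) (.g (nat_lit 3080) (.e (nat_lit 532544) (nat_lit 10) (.e (nat_lit 344133) (nat_lit 26) (.e (nat_lit 557105) (nat_lit 14) (.e (nat_lit 180252) (nat_lit 10) (.e (nat_lit 581376) (nat_lit 0) (.e (nat_lit 3061) (nat_lit 190) (.e (nat_lit 483072) (nat_lit 26) .nil))))))) (.g (nat_lit 1) (.e (nat_lit 401318) (nat_lit 0) .nil) .nil))))))) 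
(.nd (nat_lit 6) (.nd (nat_lit 7) (.nd (nat_lit 8) (.nd (nat_lit 9) 
(.lf (nat_lit 590900) (.g (nat_lit 2649) (.e (nat_lit 532526) (nat_lit 8) (.e (nat_lit 327699) (nat_lit 8) (.e (nat_lit 303118) (nat_lit 3) (.e (nat_lit 204846) (nat_lit 24) (.e (nat_lit 319490) (nat_lit 0) (.e (nat_lit 5756) (nat_lit 315) (.e (nat_lit 163962) (nat_lit 25) .nil))))))) (.g (nat_lit 1) (.e (nat_lit 399048) (nat_lit 0) .nil) .nil))) 
(.lf (nat_lit 591412) (.g (nat_lit 2000) (.e (nat_lit 532543) (nat_lit 10) (.e (nat_lit 344131) (nat_lit 26) (.e (nat_lit 557098) (nat_lit 13) (.e (nat_lit 172133) (nat_lit 15) (.e (nat_lit 1800) (nat_lit 119) (.e (nat_lit 516119) (nat_lit 1) (.e (nat_lit 164345) (nat_lit 240) (.e (nat_lit 2601) (nat_lit 163) (.e (nat_lit 163962) (nat_lit 25) .nil))))))))) (.g (nat_lit 1) (.e (nat_lit 400893) (nat_lit 0) .nil) .nil)))) 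
(.nd (nat_lit 9) 
(.lf (nat_lit 591156) (.g (nat_lit 1230) (.e (nat_lit 532534) (nat_lit 9) (.e (nat_lit 336325) (nat_lit 18) (.e (nat_lit 204852) (nat_lit 26) (.e (nat_lit 336322) (nat_lit 18) .nil)))) (.g (nat_lit 0) (.e (nat_lit 399851) (nat_lit 0) .nil) .nil))) 
(.lf (nat_lit 591668) (.g (nat_lit 3826) (.e (nat_lit 532544) (nat_lit 10) (.e (nat_lit 344132) (nat_lit 26) (.e (nat_lit 557100) (nat_lit 13) (.e (nat_lit 172138) (nat_lit 15) (.e (nat_lit 1800) (nat_lit 119) (.e (nat_lit 516119) (nat_lit 1) (.e (nat_lit 164345) (nat_lit 240) (.e (nat_lit 2601) (nat_lit 163) (.e (nat_lit 163962) (nat_lit 25) .nil))))))))) (.g (nat_lit 1) (.e (nat_lit 401158) (nat_lit 0) .nil) .nil))))) 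
(.nd (nat_lit 8) (.nd (nat_lit 9) 
(.lf (nat_lit 591028) (.g (nat_lit 3652) (.e (nat_lit 532530) (nat_lit 9) (.e (nat_lit 336326) (nat_lit 18) (.e (nat_lit 204852) (nat_lit 26) (.e (nat_lit 336324) (nat_lit 18) (.e (nat_lit 204882) (nat_lit 32) (.e (nat_lit 385066) (nat_lit 26) .nil)))))) (.g (nat_lit 1) (.e (nat_lit 399483) (nat_lit 0) .nil) .nil))) 
(.lf (nat_lit 591540) (.g (nat_lit 2631) (.e (nat_lit 532544) (nat_lit 10) (.e (nat_lit 344130) (nat_lit 26) (.e (nat_lit 557103) (nat_lit 14) (.e (nat_lit 180250) (nat_lit 10) (.e (nat_lit 573440) (nat_lit 0) (.e (nat_lit 3067) (nat_lit 190) (.e (nat_lit 483072) (nat_lit 26) .nil))))))) (.g (nat_lit 1) (.e (nat_lit 401030) (nat_lit 0) .nil) .nil)))) (.nd (nat_lit 9) 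
(.lf (nat_lit 591284) (.g (nat_lit 4651) (.e (nat_lit 532535) (nat_lit 9) (.e (nat_lit 336099) (nat_lit 9) (.e (nat_lit 336028) (nat_lit 3) (.e (nat_lit 98350) (nat_lit 24) (.e (nat_lit 409645) (nat_lit 18) (.e (nat_lit 303112) (nat_lit 0) (.e (nat_lit 3252) (nat_lit 197) .nil))))))) (.g (nat_lit 1) (.e (nat_lit 400342) (nat_lit 0) .nil) .nil))) 
(.lf (nat_lit 591796) (.g (nat_lit 2583) (.e (nat_lit 532544) (nat_lit 10) (.e (nat_lit 344133) (nat_lit 26) (.e (nat_lit 557103) (nat_lit 14) (.e (nat_lit 180250) (nat_lit 10) (.e (nat_lit 573447) (nat_lit 0) (.e (nat_lit 3064) (nat_lit 190) (.e (nat_lit 483072) (nat_lit 26) .nil))))))) (.g (nat_lit 1) (.e (nat_lit 401286) (nat_lit 0) .nil) .nil)))))) 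
(.nd (nat_lit 7) (.nd (nat_lit 8) (.nd (nat_lit 9) 
(.lf (nat_lit 590964) (.g (nat_lit 1624) (.e (nat_lit 532529) (nat_lit 9) (.e (nat_lit 336326) (nat_lit 18) (.e (nat_lit 204852) (nat_lit 26) (.e (nat_lit 336325) (nat_lit 18) (.e (nat_lit 204880) (nat_lit 32) .nil))))) (.g (nat_lit 0) (.e (nat_lit 399298) (nat_lit 0) .nil) .nil))) 
(.lf (nat_lit 591476) (.g (nat_lit 1586) (.e (nat_lit 532544) (nat_lit 10) (.e (nat_lit 344129) (nat_lit 26) (.e (nat_lit 557103) (nat_lit 14) (.e (nat_lit 180236) (nat_lit 1) .nil)))) (.g (nat_lit 0) (.e (nat_lit 400966) (nat_lit 0) .nil) .nil)))) (.nd (nat_lit 9) 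
(.lf (nat_lit 591220) (.g (nat_lit 3032) (.e (nat_lit 532535) (nat_lit 9) (.e (nat_lit 336099) (nat_lit 9) (.e (nat_lit 336013) (nat_lit 2) (.e (nat_lit 90165) (nat_lit 12) (.e (nat_lit 164207) (nat_lit 176) (.e (nat_lit 2771) (nat_lit 177) (.e (nat_lit 278551) (nat_lit 10) (.e (nat_lit 7936) (nat_lit 45) .nil)))))))) (.g (nat_lit 1) (.e (nat_lit 400091) (nat_lit 0) .nil) .nil))) 
(.lf (nat_lit 591732) (.g (nat_lit 2789) (.e (nat_lit 532544) (nat_lit 10) (.e (nat_lit 344132) (nat_lit 26) (.e (nat_lit 557105) (nat_lit 14) (.e (nat_lit 180252) (nat_lit 10) (.e (nat_lit 573474) (nat_lit 12) (.e (nat_lit 57348) (nat_lit 0) (.e (nat_lit 5436) (nat_lit 306) (.e (nat_lit 2604) (nat_lit 163) (.e (nat_lit 163962) (nat_lit 25) .nil))))))))) (.g (nat_lit 1) (.e (nat_lit 401222) (nat_lit 0) .nil) .nil))))) 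
(.nd (nat_lit 8) (.nd (nat_lit 9) 
(.lf (nat_lit 591092) (.g (nat_lit 1545) (.e (nat_lit 532532) (nat_lit 9) (.e (nat_lit 336326) (nat_lit 18) (.e (nat_lit 204882) (nat_lit 32) (.e (nat_lit 385065) (nat_lit 26) (.e (nat_lit 532563) (nat_lit 15) .nil))))) (.g (nat_lit 0) (.e (nat_lit 399712) (nat_lit 0) .nil) .nil))) 
(.lf (nat_lit 591604) (.g (nat_lit 2232) (.e (nat_lit 532544) (nat_lit 10) (.e (nat_lit 344131) (nat_lit 26) (.e (nat_lit 557103) (nat_lit 14) (.e (nat_lit 180225) (nat_lit 0) (.e (nat_lit 4301) (nat_lit 256) .nil))))) (.g (nat_lit 0) (.e (nat_lit 401094) (nat_lit 0) .nil) .nil)))) (.nd (nat_lit 9) 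
(.lf (nat_lit 591348) (.g (nat_lit 2388) (.e (nat_lit 532535) (nat_lit 9) (.e (nat_lit 336176) (nat_lit 10) (.e (nat_lit 344133) (nat_lit 26) (.e (nat_lit 557072) (nat_lit 9) (.e (nat_lit 290) (nat_lit 21) .nil))))) (.g (nat_lit 0) (.e (nat_lit 400699) (nat_lit 0) .nil) .nil))) 
(.lf (nat_lit 591860) (.g (nat_lit 3047) (.e (nat_lit 532546) (nat_lit 11) (.e (nat_lit 352313) (nat_lit 23) (.e (nat_lit 98350) (nat_lit 24) (.e (nat_lit 409616) (nat_lit 10) (.e (nat_lit 5763) (nat_lit 315) (.e (nat_lit 163962) (nat_lit 25) .nil)))))) (.g (nat_lit 1) (.e (nat_lit 401364) (nat_lit 0) .nil) .nil))))))))) 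
(.nd (nat_lit 4) (.nd (nat_lit 5) (.nd (nat_lit 6) (.nd (nat_lit 7) (.nd (nat_lit 8) 
(.nd (nat_lit 9) 
(.lf (nat_lit 590860) (.g (nat_lit 1850) (.e (nat_lit 532523) (nat_lit 7) (.e (nat_lit 319534) (nat_lit 16) (.e (nat_lit 286735) (nat_lit 3) (.e (nat_lit 98325) (nat_lit 17) (.e (nat_lit 7936) (nat_lit 388) .nil))))) (.g (nat_lit 0) (.e (nat_lit 398972) (nat_lit 0) .nil) .nil))) 
(.lf (nat_lit 591372) (.g (nat_lit 517) (.e (nat_lit 532535) (nat_lit 9) (.e (nat_lit 336295) (nat_lit 15) (.e (nat_lit 3253) (nat_lit 197) .nil))) (.g (nat_lit 0) (.e (nat_lit 400805) (nat_lit 0) .nil) .nil)))) (.nd (nat_lit 9) 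
(.lf (nat_lit 591116) (.g (nat_lit 1733) (.e (nat_lit 532533) (nat_lit 9) (.e (nat_lit 336324) (nat_lit 18) (.e (nat_lit 204854) (nat_lit 26) (.e (nat_lit 336326) (nat_lit 18) .nil)))) (.g (nat_lit 0) (.e (nat_lit 399764) (nat_lit 0) .nil) .nil))) 
(.lf (nat_lit 591628) (.g (nat_lit 2153) (.e (nat_lit 532544) (nat_lit 10) (.e (nat_lit 344131) (nat_lit 26) (.e (nat_lit 557105) (nat_lit 14) (.e (nat_lit 180251) (nat_lit 10) (.e (nat_lit 573443) (nat_lit 0) (.e (nat_lit 3062) (nat_lit 190) (.e (nat_lit 483072) (nat_lit 26) .nil))))))) (.g (nat_lit 1) (.e (nat_lit 401118) (nat_lit 0) .nil) .nil))))) (.nd (nat_lit 8) (.nd (nat_lit 9) 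
(.lf (nat_lit 590988) (.g (nat_lit 2754) (.e (nat_lit 532529) (nat_lit 9) (.e (nat_lit 336326) (nat_lit 18) (.e (nat_lit 204863) (nat_lit 27) (.e (nat_lit 344133) (nat_lit 26) (.e (nat_lit 557096) (nat_lit 13) (.e (nat_lit 172132) (nat_lit 15) (.e (nat_lit 7936) (nat_lit 121) .nil))))))) (.g (nat_lit 1) (.e (nat_lit 399328) (nat_lit 0) .nil) .nil))) 
(.lf (nat_lit 591500) (.g (nat_lit 2299) (.e (nat_lit 532544) (nat_lit 10) (.e (nat_lit 344129) (nat_lit 26) (.e (nat_lit 557104) (nat_lit 14) (.e (nat_lit 180252) (nat_lit 10) (.e (nat_lit 573441) (nat_lit 0) (.e (nat_lit 3066) (nat_lit 190) (.e (nat_lit 483072) (nat_lit 26) .nil))))))) (.g (nat_lit 1) (.e (nat_lit 400990) (nat_lit 0) .nil) .nil)))) (.nd (nat_lit 9) 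
(.lf (nat_lit 591244) (.g (nat_lit 3808) (.e (nat_lit 532535) (nat_lit 9) (.e (nat_lit 336099) (nat_lit 9) (.e (nat_lit 336013) (nat_lit 2) (.e (nat_lit 90165) (nat_lit 12) (.e (nat_lit 164218) (nat_lit 179) (.e (nat_lit 164262) (nat_lit 221) (.e (nat_lit 1050) (nat_lit 81) (.e (nat_lit 596) (nat_lit 45) .nil)))))))) (.g (nat_lit 1) (.e (nat_lit 400115) (nat_lit 0) .nil) .nil))) 
(.lf (nat_lit 591756) (.g (nat_lit 2644) (.e (nat_lit 532544) (nat_lit 10) (.e (nat_lit 344133) (nat_lit 26) (.e (nat_lit 557098) (nat_lit 13) (.e (nat_lit 172063) (nat_lit 2) (.e (nat_lit 196622) (nat_lit 9) (.e (nat_lit 486) (nat_lit 38) (.e (nat_lit 483072) (nat_lit 26) .nil))))))) (.g (nat_lit 1) (.e (nat_lit 401246) (nat_lit 0) .nil) .nil)))))) 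
(.nd (nat_lit 7) (.nd (nat_lit 8) (.nd (nat_lit 9) 
(.lf (nat_lit 590924) (.g (nat_lit 1228) (.e (nat_lit 532526) (nat_lit 8) (.e (nat_lit 327715) (nat_lit 16) (.e (nat_lit 286735) (nat_lit 3) (.e (nat_lit 98359) (nat_lit 26) .nil)))) (.g (nat_lit 0) (.e (nat_lit 399092) (nat_lit 0) .nil) .nil))) 
(.lf (nat_lit 591436) (.g (nat_lit 2810) (.e (nat_lit 532544) (nat_lit 10) (.e (nat_lit 344117) (nat_lit 21) (.e (nat_lit 516130) (nat_lit 3) (.e (nat_lit 221211) (nat_lit 22) (.e (nat_lit 196614) (nat_lit 0) (.e (nat_lit 3067) (nat_lit 190) (.e (nat_lit 483072) (nat_lit 26) .nil))))))) (.g (nat_lit 1) (.e (nat_lit 400925) (nat_lit 0) .nil) .nil)))) (.nd (nat_lit 9) 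
(.lf (nat_lit 591180) (.g (nat_lit 4189) (.e (nat_lit 532535) (nat_lit 9) (.e (nat_lit 336099) (nat_lit 9) (.e (nat_lit 335925) (nat_lit 0) (.e (nat_lit 1848) (nat_lit 124) (.e (nat_lit 557087) (nat_lit 11) (.e (nat_lit 24617) (nat_lit 7) (.e (nat_lit 319504) (nat_lit 10) (.e (nat_lit 7936) (nat_lit 45) .nil)))))))) (.g (nat_lit 1) (.e (nat_lit 400006) (nat_lit 0) .nil) .nil))) 
(.lf (nat_lit 591692) (.g (nat_lit 2144) (.e (nat_lit 532544) (nat_lit 10) (.e (nat_lit 344132) (nat_lit 26) (.e (nat_lit 557103) (nat_lit 14) (.e (nat_lit 180243) (nat_lit 5) (.e (nat_lit 532503) (nat_lit 1) .nil))))) (.g (nat_lit 0) (.e (nat_lit 401182) (nat_lit 0) .nil) .nil))))) (.nd (nat_lit 8) (.nd (nat_lit 9) 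
(.lf (nat_lit 591052) (.g (nat_lit 4426) (.e (nat_lit 532531) (nat_lit 9) (.e (nat_lit 336324) (nat_lit 18) (.e (nat_lit 204831) (nat_lit 18) (.e (nat_lit 57848) (nat_lit 252) .nil)))) (.g (nat_lit 0) (.e (nat_lit 399582) (nat_lit 0) .nil) .nil))) 
(.lf (nat_lit 591564) (.g (nat_lit 1782) (.e (nat_lit 532544) (nat_lit 10) (.e (nat_lit 344130) (nat_lit 26) (.e (nat_lit 557104) (nat_lit 14) (.e (nat_lit 180252) (nat_lit 10) (.e (nat_lit 581376) (nat_lit 0) .nil))))) (.g (nat_lit 0) (.e (nat_lit 401054) (nat_lit 0) .nil) .nil)))) (.nd (nat_lit 9) 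
(.lf (nat_lit 591308) (.g (nat_lit 3443) (.e (nat_lit 532535) (nat_lit 9) (.e (nat_lit 336172) (nat_lit 10) (.e (nat_lit 344129) (nat_lit 26) (.e (nat_lit 557087) (nat_lit 11) (.e (nat_lit 24617) (nat_lit 7) (.e (nat_lit 319505) (nat_lit 10) (.e (nat_lit 7936) (nat_lit 45) .nil))))))) (.g (nat_lit 1) (.e (nat_lit 400425) (nat_lit 0) .nil) .nil))) 
(.lf (nat_lit 591820) (.g (nat_lit 3787) (.e (nat_lit 532544) (nat_lit 10) (.e (nat_lit 344133) (nat_lit 26) (.e (nat_lit 557105) (nat_lit 14) (.e (nat_lit 180252) (nat_lit 10) (.e (nat_lit 573441) (nat_lit 0) (.e (nat_lit 3066) (nat_lit 190) (.e (nat_lit 483072) (nat_lit 26) .nil))))))) (.g (nat_lit 1) (.e (nat_lit 401310) (nat_lit 0) .nil) .nil))))))) 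
(.nd (nat_lit 6) (.nd (nat_lit 7) (.nd (nat_lit 8) (.nd (nat_lit 9) 
(.lf (nat_lit 590892) (.g (nat_lit 3304) (.e (nat_lit 532526) (nat_lit 8) (.e (nat_lit 327698) (nat_lit 8) (.e (nat_lit 303119) (nat_lit 3) (.e (nat_lit 204863) (nat_lit 27) (.e (nat_lit 344066) (nat_lit 0) (.e (nat_lit 2505) (nat_lit 157) (.e (nat_lit 3249) (nat_lit 197) .nil))))))) (.g (nat_lit 1) (.e (nat_lit 399036) (nat_lit 0) .nil) .nil))) 
(.lf (nat_lit 591404) (.g (nat_lit 2643) (.e (nat_lit 532543) (nat_lit 10) (.e (nat_lit 344117) (nat_lit 21) (.e (nat_lit 516130) (nat_lit 3) (.e (nat_lit 221215) (nat_lit 23) (.e (nat_lit 204821) (nat_lit 17) .nil))))) (.g (nat_lit 0) (.e (nat_lit 400885) (nat_lit 0) .nil) .nil)))) (.nd (nat_lit 9) 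
(.lf (nat_lit 591148) (.g (nat_lit 1719) (.e (nat_lit 532534) (nat_lit 9) (.e (nat_lit 336324) (nat_lit 18) (.e (nat_lit 204854) (nat_lit 26) (.e (nat_lit 343808) (nat_lit 18) .nil)))) (.g (nat_lit 0) (.e (nat_lit 399843) (nat_lit 0) .nil) .nil))) 
(.lf (nat_lit 591660) (.g (nat_lit 3113) (.e (nat_lit 532544) (nat_lit 10) (.e (nat_lit 344132) (nat_lit 26) (.e (nat_lit 557100) (nat_lit 13) (.e (nat_lit 172065) (nat_lit 3) (.e (nat_lit 212736) (nat_lit 15) (.e (nat_lit 483072) (nat_lit 26) .nil)))))) (.g (nat_lit 1) (.e (nat_lit 401150) (nat_lit 0) .nil) .nil))))) (.nd (nat_lit 8) (.nd (nat_lit 9) 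
(.lf (nat_lit 591020) (.g (nat_lit 3127) (.e (nat_lit 532530) (nat_lit 9) (.e (nat_lit 336324) (nat_lit 18) (.e (nat_lit 204882) (nat_lit 32) (.e (nat_lit 385066) (nat_lit 26) (.e (nat_lit 532566) (nat_lit 15) (.e (nat_lit 385068) (nat_lit 26) .nil)))))) (.g (nat_lit 1) (.e (nat_lit 399473) (nat_lit 0) .nil) .nil))) 
(.lf (nat_lit 591532) (.g (nat_lit 1437) (.e (nat_lit 532544) (nat_lit 10) (.e (nat_lit 344130) (nat_lit 26) (.e (nat_lit 557103) (nat_lit 14) (.e (nat_lit 180235) (nat_lit 1) .nil)))) (.g (nat_lit 0) (.e (nat_lit 401022) (nat_lit 0) .nil) .nil)))) (.nd (nat_lit 9) 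
(.lf (nat_lit 591276) (.g (nat_lit 2362) (.e (nat_lit 532535) (nat_lit 9) (.e (nat_lit 336099) (nat_lit 9) (.e (nat_lit 336028) (nat_lit 3) (.e (nat_lit 98349) (nat_lit 24) (.e (nat_lit 409648) (nat_lit 18) (.e (nat_lit 303109) (nat_lit 0) (.e (nat_lit 7936) (nat_lit 197) .nil))))))) (.g (nat_lit 1) (.e (nat_lit 400327) (nat_lit 0) .nil) .nil))) 
(.lf (nat_lit 591788) (.g (nat_lit 2784) (.e (nat_lit 532544) (nat_lit 10) (.e (nat_lit 344133) (nat_lit 26) (.e (nat_lit 557103) (nat_lit 14) (.e (nat_lit 180250) (nat_lit 10) (.e (nat_lit 573441) (nat_lit 0) (.e (nat_lit 3064) (nat_lit 190) (.e (nat_lit 483072) (nat_lit 26) .nil))))))) (.g (nat_lit 1) (.e (nat_lit 401278) (nat_lit 0) .nil) .nil)))))) 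
(.nd (nat_lit 7) (.nd (nat_lit 8) (.nd (nat_lit 9) 
(.lf (nat_lit 590956) (.g (nat_lit 3146) (.e (nat_lit 532529) (nat_lit 9) (.e (nat_lit 336142) (nat_lit 9) (.e (nat_lit 336027) (nat_lit 3) (.e (nat_lit 98350) (nat_lit 24) (.e (nat_lit 409645) (nat_lit 18) (.e (nat_lit 303112) (nat_lit 0) (.e (nat_lit 3252) (nat_lit 197) .nil))))))) (.g (nat_lit 1) (.e (nat_lit 399181) (nat_lit 0) .nil) .nil))) 
(.lf (nat_lit 591468) (.g (nat_lit 2367) (.e (nat_lit 532544) (nat_lit 10) (.e (nat_lit 344129) (nat_lit 26) (.e (nat_lit 557097) (nat_lit 13) (.e (nat_lit 172064) (nat_lit 2) (.e (nat_lit 196628) (nat_lit 9) (.e (nat_lit 488) (nat_lit 38) (.e (nat_lit 483072) (nat_lit 26) .nil))))))) (.g (nat_lit 1) (.e (nat_lit 400958) (nat_lit 0) .nil) .nil)))) (.nd (nat_lit 9) 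
(.lf (nat_lit 591212) (.g (nat_lit 3006) (.e (nat_lit 532535) (nat_lit 9) (.e (nat_lit 336099) (nat_lit 9) (.e (nat_lit 336013) (nat_lit 2) (.e (nat_lit 90137) (nat_lit 9) .nil)))) (.g (nat_lit 0) (.e (nat_lit 400076) (nat_lit 0) .nil) .nil))) 
(.lf (nat_lit 591724) (.g (nat_lit 2290) (.e (nat_lit 532544) (nat_lit 10) (.e (nat_lit 344132) (nat_lit 26) (.e (nat_lit 557105) (nat_lit 14) (.e (nat_lit 180252) (nat_lit 10) (.e (nat_lit 581376) (nat_lit 0) (.e (nat_lit 3069) (nat_lit 190) (.e (nat_lit 483072) (nat_lit 26) .nil))))))) (.g (nat_lit 1) (.e (nat_lit 401214) (nat_lit 0) .nil) .nil))))) (.nd (nat_lit 8) (.nd (nat_lit 9) 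
(.lf (nat_lit 591084) (.g (nat_lit 1409) (.e (nat_lit 532532) (nat_lit 9) (.e (nat_lit 336324) (nat_lit 18) (.e (nat_lit 204882) (nat_lit 32) (.e (nat_lit 392960) (nat_lit 26) .nil)))) (.g (nat_lit 0) (.e (nat_lit 399703) (nat_lit 0) .nil) .nil))) 
(.lf (nat_lit 591596) (.g (nat_lit 2569) (.e (nat_lit 532544) (nat_lit 10) (.e (nat_lit 344131) (nat_lit 26) (.e (nat_lit 557100) (nat_lit 13) (.e (nat_lit 172065) (nat_lit 3) (.e (nat_lit 212736) (nat_lit 15) (.e (nat_lit 483072) (nat_lit 26) .nil)))))) (.g (nat_lit 1) (.e (nat_lit 401086) (nat_lit 0) .nil) .nil)))) (.nd (nat_lit 9) 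
(.lf (nat_lit 591340) (.g (nat_lit 1998) (.e (nat_lit 532535) (nat_lit 9) (.e (nat_lit 336176) (nat_lit 10) (.e (nat_lit 344132) (nat_lit 26) (.e (nat_lit 557085) (nat_lit 11) (.e (nat_lit 24577) (nat_lit 0) .nil))))) (.g (nat_lit 0) (.e (nat_lit 400643) (nat_lit 0) .nil) .nil))) 
(.lf (nat_lit 591852) (.g (nat_lit 2828) (.e (nat_lit 532544) (nat_lit 10) (.e (nat_lit 344149) (nat_lit 33) (.e (nat_lit 614416) (nat_lit 4) (.e (nat_lit 172151) (nat_lit 35) (.e (nat_lit 401454) (nat_lit 12) (.e (nat_lit 483072) (nat_lit 26) .nil)))))) (.g (nat_lit 1) (.e (nat_lit 401343) (nat_lit 0) .nil) .nil)))))))) 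
(.nd (nat_lit 5) (.nd (nat_lit 6) (.nd (nat_lit 7) (.nd (nat_lit 8) (.nd (nat_lit 9) 
(.lf (nat_lit 590876) (.g (nat_lit 2104) (.e (nat_lit 532523) (nat_lit 7) (.e (nat_lit 327424) (nat_lit 16) (.e (nat_lit 286735) (nat_lit 3) (.e (nat_lit 98369) (nat_lit 28) (.e (nat_lit 442406) (nat_lit 20) (.e (nat_lit 3238) (nat_lit 197) .nil)))))) (.g (nat_lit 1) (.e (nat_lit 398989) (nat_lit 0) .nil) .nil))) 
(.lf (nat_lit 591388) (.g (nat_lit 2170) (.e (nat_lit 532542) (nat_lit 9) (.e (nat_lit 336194) (nat_lit 12) (.e (nat_lit 385066) (nat_lit 26) (.e (nat_lit 532513) (nat_lit 3) (.e (nat_lit 114696) (nat_lit 11) (.e (nat_lit 425997) (nat_lit 0) (.e (nat_lit 3249) (nat_lit 197) .nil))))))) (.g (nat_lit 1) (.e (nat_lit 400856) (nat_lit 0) .nil) .nil)))) (.nd (nat_lit 9) 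
(.lf (nat_lit 591132) (.g (nat_lit 3805) (.e (nat_lit 532534) (nat_lit 9) (.e (nat_lit 336019) (nat_lit 3) (.e (nat_lit 98342) (nat_lit 20) (.e (nat_lit 221212) (nat_lit 22) (.e (nat_lit 196658) (nat_lit 12) (.e (nat_lit 57508) (nat_lit 39) (.e (nat_lit 647181) (nat_lit 3) (.e (nat_lit 163964) (nat_lit 25) .nil)))))))) (.g (nat_lit 1) (.e (nat_lit 399804) (nat_lit 0) .nil) .nil))) 
(.lf (nat_lit 591644) (.g (nat_lit 2096) (.e (nat_lit 532544) (nat_lit 10) (.e (nat_lit 344131) (nat_lit 26) (.e (nat_lit 557105) (nat_lit 14) (.e (nat_lit 180252) (nat_lit 10) (.e (nat_lit 573474) (nat_lit 12) .nil))))) (.g (nat_lit 0) (.e (nat_lit 401134) (nat_lit 0) .nil) .nil))))) (.nd (nat_lit 8) (.nd (nat_lit 9) 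
(.lf (nat_lit 591004) (.g (nat_lit 1154) (.e (nat_lit 532530) (nat_lit 9) (.e (nat_lit 336019) (nat_lit 3) (.e (nat_lit 98341) (nat_lit 20) (.e (nat_lit 229120) (nat_lit 2) .nil)))) (.g (nat_lit 0) (.e (nat_lit 399374) (nat_lit 0) .nil) .nil))) 
(.lf (nat_lit 591516) (.g (nat_lit 2722) (.e (nat_lit 532544) (nat_lit 10) (.e (nat_lit 344130) (nat_lit 26) (.e (nat_lit 557097) (nat_lit 13) (.e (nat_lit 172045) (nat_lit 0) (.e (nat_lit 3308) (nat_lit 202) (.e (nat_lit 573440) (nat_lit 0) (.e (nat_lit 3067) (nat_lit 190) (.e (nat_lit 483072) (nat_lit 26) .nil)))))))) (.g (nat_lit 1) (.e (nat_lit 401006) (nat_lit 0) .nil) .nil)))) 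
(.nd (nat_lit 9) 
(.lf (nat_lit 591260) (.g (nat_lit 4999) (.e (nat_lit 532535) (nat_lit 9) (.e (nat_lit 336099) (nat_lit 9) (.e (nat_lit 336013) (nat_lit 2) (.e (nat_lit 90170) (nat_lit 13) (.e (nat_lit 172046) (nat_lit 0) .nil))))) (.g (nat_lit 0) (.e (nat_lit 400161) (nat_lit 0) .nil) .nil))) 
(.lf (nat_lit 591772) (.g (nat_lit 4329) (.e (nat_lit 532544) (nat_lit 10) (.e (nat_lit 344133) (nat_lit 26) (.e (nat_lit 557098) (nat_lit 13) (.e (nat_lit 172133) (nat_lit 15) (.e (nat_lit 1800) (nat_lit 119) (.e (nat_lit 516119) (nat_lit 1) (.e (nat_lit 164345) (nat_lit 240) (.e (nat_lit 2600) (nat_lit 163) (.e (nat_lit 163962) (nat_lit 25) .nil))))))))) (.g (nat_lit 1) (.e (nat_lit 401262) (nat_lit 0) .nil) .nil)))))) 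
(.nd (nat_lit 7) (.nd (nat_lit 8) (.nd (nat_lit 9) 
(.lf (nat_lit 590940) (.g (nat_lit 1603) (.e (nat_lit 532528) (nat_lit 9) (.e (nat_lit 336324) (nat_lit 18) (.e (nat_lit 204852) (nat_lit 26) (.e (nat_lit 336325) (nat_lit 18) .nil)))) (.g (nat_lit 0) (.e (nat_lit 399122) (nat_lit 0) .nil) .nil))) 
(.lf (nat_lit 591452) (.g (nat_lit 1435) (.e (nat_lit 532544) (nat_lit 10) (.e (nat_lit 344118) (nat_lit 21) (.e (nat_lit 516131) (nat_lit 3) (.e (nat_lit 221212) (nat_lit 22) (.e (nat_lit 196610) (nat_lit 0) (.e (nat_lit 3065) (nat_lit 190) (.e (nat_lit 483072) (nat_lit 26) .nil))))))) (.g (nat_lit 1) (.e (nat_lit 400941) (nat_lit 0) .nil) .nil)))) (.nd (nat_lit 9) 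
(.lf (nat_lit 591196) (.g (nat_lit 1948) (.e (nat_lit 532535) (nat_lit 9) (.e (nat_lit 336099) (nat_lit 9) (.e (nat_lit 336013) (nat_lit 2) (.e (nat_lit 90134) (nat_lit 9) .nil)))) (.g (nat_lit 0) (.e (nat_lit 400046) (nat_lit 0) .nil) .nil))) 
(.lf (nat_lit 591708) (.g (nat_lit 2219) (.e (nat_lit 532544) (nat_lit 10) (.e (nat_lit 344132) (nat_lit 26) (.e (nat_lit 557105) (nat_lit 14) (.e (nat_lit 180251) (nat_lit 10) (.e (nat_lit 573446) (nat_lit 0) .nil))))) (.g (nat_lit 0) (.e (nat_lit 401198) (nat_lit 0) .nil) .nil))))) (.nd (nat_lit 8) (.nd (nat_lit 9) 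
(.lf (nat_lit 591068) (.g (nat_lit 2143) (.e (nat_lit 532532) (nat_lit 9) (.e (nat_lit 336019) (nat_lit 3) (.e (nat_lit 98342) (nat_lit 20) (.e (nat_lit 221211) (nat_lit 22) (.e (nat_lit 196697) (nat_lit 19) .nil))))) (.g (nat_lit 0) (.e (nat_lit 399674) (nat_lit 0) .nil) .nil))) 
(.lf (nat_lit 591580) (.g (nat_lit 1867) (.e (nat_lit 532544) (nat_lit 10) (.e (nat_lit 344130) (nat_lit 26) (.e (nat_lit 557104) (nat_lit 14) (.e (nat_lit 180252) (nat_lit 10) (.e (nat_lit 573468) (nat_lit 10) .nil))))) (.g (nat_lit 0) (.e (nat_lit 401070) (nat_lit 0) .nil) .nil)))) (.nd (nat_lit 9) 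
(.lf (nat_lit 591324) (.g (nat_lit 2037) (.e (nat_lit 532535) (nat_lit 9) (.e (nat_lit 336173) (nat_lit 10) (.e (nat_lit 344133) (nat_lit 26) (.e (nat_lit 557066) (nat_lit 9) .nil)))) (.g (nat_lit 0) (.e (nat_lit 400482) (nat_lit 0) .nil) .nil))) 
(.lf (nat_lit 591836) (.g (nat_lit 2987) (.e (nat_lit 532544) (nat_lit 10) (.e (nat_lit 344133) (nat_lit 26) (.e (nat_lit 557105) (nat_lit 14) (.e (nat_lit 180252) (nat_lit 10) (.e (nat_lit 581376) (nat_lit 0) (.e (nat_lit 3072) (nat_lit 190) (.e (nat_lit 483072) (nat_lit 26) .nil))))))) (.g (nat_lit 1) (.e (nat_lit 401326) (nat_lit 0) .nil) .nil))))))) 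
(.nd (nat_lit 6) (.nd (nat_lit 7) (.nd (nat_lit 8) (.nd (nat_lit 9) 
(.lf (nat_lit 590908) (.g (nat_lit 4415) (.e (nat_lit 532526) (nat_lit 8) (.e (nat_lit 327699) (nat_lit 8) (.e (nat_lit 303119) (nat_lit 3) (.e (nat_lit 204846) (nat_lit 24) (.e (nat_lit 319490) (nat_lit 0) (.e (nat_lit 5761) (nat_lit 315) (.e (nat_lit 163962) (nat_lit 25) .nil))))))) (.g (nat_lit 1) (.e (nat_lit 399059) (nat_lit 0) .nil) .nil))) 
(.lf (nat_lit 591420) (.g (nat_lit 1708) (.e (nat_lit 532543) (nat_lit 10) (.e (nat_lit 344169) (nat_lit 40) (.e (nat_lit 671748) (nat_lit 0) (.e (nat_lit 1047) (nat_lit 81) .nil)))) (.g (nat_lit 0) (.e (nat_lit 400901) (nat_lit 0) .nil) .nil)))) (.nd (nat_lit 9) 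
(.lf (nat_lit 591164) (.g (nat_lit 2829) (.e (nat_lit 532535) (nat_lit 9) (.e (nat_lit 335925) (nat_lit 0) (.e (nat_lit 1858) (nat_lit 124) (.e (nat_lit 557100) (nat_lit 13) (.e (nat_lit 172138) (nat_lit 15) .nil))))) (.g (nat_lit 0) (.e (nat_lit 399891) (nat_lit 0) .nil) .nil))) 
(.lf (nat_lit 591676) (.g (nat_lit 1791) (.e (nat_lit 532544) (nat_lit 10) (.e (nat_lit 344132) (nat_lit 26) (.e (nat_lit 557101) (nat_lit 13) (.e (nat_lit 172062) (nat_lit 2) (.e (nat_lit 196622) (nat_lit 9) (.e (nat_lit 486) (nat_lit 38) (.e (nat_lit 483072) (nat_lit 26) .nil))))))) (.g (nat_lit 1) (.e (nat_lit 401166) (nat_lit 0) .nil) .nil))))) (.nd (nat_lit 8) (.nd (nat_lit 9) 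
(.lf (nat_lit 591036) (.g (nat_lit 2755) (.e (nat_lit 532530) (nat_lit 9) (.e (nat_lit 336326) (nat_lit 18) (.e (nat_lit 204854) (nat_lit 26) (.e (nat_lit 336326) (nat_lit 18) (.e (nat_lit 204854) (nat_lit 26) (.e (nat_lit 336247) (nat_lit 15) (.e (nat_lit 3232) (nat_lit 197) .nil))))))) (.g (nat_lit 1) (.e (nat_lit 399499) (nat_lit 0) .nil) .nil))) 
(.lf (nat_lit 591548) (.g (nat_lit 2394) (.e (nat_lit 532544) (nat_lit 10) (.e (nat_lit 344130) (nat_lit 26) (.e (nat_lit 557103) (nat_lit 14) (.e (nat_lit 180250) (nat_lit 10) (.e (nat_lit 573446) (nat_lit 0) .nil))))) (.g (nat_lit 0) (.e (nat_lit 401038) (nat_lit 0) .nil) .nil)))) (.nd (nat_lit 9) 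
(.lf (nat_lit 591292) (.g (nat_lit 2749) (.e (nat_lit 532535) (nat_lit 9) (.e (nat_lit 336111) (nat_lit 9) (.e (nat_lit 336028) (nat_lit 3) (.e (nat_lit 98350) (nat_lit 24) (.e (nat_lit 409616) (nat_lit 10) (.e (nat_lit 7936) (nat_lit 315) (.e (nat_lit 163962) (nat_lit 25) .nil))))))) (.g (nat_lit 1) (.e (nat_lit 400408) (nat_lit 0) .nil) .nil))) 
(.lf (nat_lit 591804) (.g (nat_lit 1877) (.e (nat_lit 532544) (nat_lit 10) (.e (nat_lit 344133) (nat_lit 26) (.e (nat_lit 557105) (nat_lit 14) (.e (nat_lit 180235) (nat_lit 1) .nil)))) (.g (nat_lit 0) (.e (nat_lit 401294) (nat_lit 0) .nil) .nil)))))) (.nd (nat_lit 7) (.nd (nat_lit 8) (.nd (nat_lit 9) 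
(.lf (nat_lit 590972) (.g (nat_lit 3336) (.e (nat_lit 532529) (nat_lit 9) (.e (nat_lit 336326) (nat_lit 18) (.e (nat_lit 204863) (nat_lit 27) (.e (nat_lit 344129) (nat_lit 26) (.e (nat_lit 557097) (nat_lit 13) (.e (nat_lit 172132) (nat_lit 15) (.e (nat_lit 7936) (nat_lit 121) .nil))))))) (.g (nat_lit 1) (.e (nat_lit 399312) (nat_lit 0) .nil) .nil))) 
(.lf (nat_lit 591484) (.g (nat_lit 2566) (.e (nat_lit 532544) (nat_lit 10) (.e (nat_lit 344129) (nat_lit 26) (.e (nat_lit 557103) (nat_lit 14) (.e (nat_lit 180250) (nat_lit 10) (.e (nat_lit 573440) (nat_lit 0) .nil))))) (.g (nat_lit 0) (.e (nat_lit 400974) (nat_lit 0) .nil) .nil)))) (.nd (nat_lit 9) 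
(.lf (nat_lit 591228) (.g (nat_lit 4342) (.e (nat_lit 532535) (nat_lit 9) (.e (nat_lit 336099) (nat_lit 9) (.e (nat_lit 336013) (nat_lit 2) (.e (nat_lit 90165) (nat_lit 12) (.e (nat_lit 164208) (nat_lit 176) (.e (nat_lit 2819) (nat_lit 181) (.e (nat_lit 311300) (nat_lit 0) (.e (nat_lit 3241) (nat_lit 197) .nil)))))))) (.g (nat_lit 1) (.e (nat_lit 400099) (nat_lit 0) .nil) .nil))) 
(.lf (nat_lit 591740) (.g (nat_lit 2598) (.e (nat_lit 532544) (nat_lit 10) (.e (nat_lit 344133) (nat_lit 26) (.e (nat_lit 557096) (nat_lit 13) (.e (nat_lit 172067) (nat_lit 3) (.e (nat_lit 212736) (nat_lit 15) (.e (nat_lit 483072) (nat_lit 26) .nil)))))) (.g (nat_lit 1) (.e (nat_lit 401230) (nat_lit 0) .nil) .nil))))) (.nd (nat_lit 8) (.nd (nat_lit 9) 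
(.lf (nat_lit 591100) (.g (nat_lit 1238) (.e (nat_lit 532533) (nat_lit 9) (.e (nat_lit 336019) (nat_lit 3) (.e (nat_lit 98342) (nat_lit 20) (.e (nat_lit 229120) (nat_lit 3) .nil)))) (.g (nat_lit 0) (.e (nat_lit 399739) (nat_lit 0) .nil) .nil))) 
(.lf (nat_lit 591612) (.g (nat_lit 2223) (.e (nat_lit 532544) (nat_lit 10) (.e (nat_lit 344131) (nat_lit 26) (.e (nat_lit 557103) (nat_lit 14) (.e (nat_lit 180250) (nat_lit 10) (.e (nat_lit 573441) (nat_lit 0) .nil))))) (.g (nat_lit 0) (.e (nat_lit 401102) (nat_lit 0) .nil) .nil)))) (.nd (nat_lit 9) 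
(.lf (nat_lit 591356) (.g (nat_lit 3059) (.e (nat_lit 532535) (nat_lit 9) (.e (nat_lit 336177) (nat_lit 10) (.e (nat_lit 344117) (nat_lit 21) (.e (nat_lit 516139) (nat_lit 7) (.e (nat_lit 409609) (nat_lit 10) (.e (nat_lit 5756) (nat_lit 315) (.e (nat_lit 163962) (nat_lit 25) .nil))))))) (.g (nat_lit 1) (.e (nat_lit 400758) (nat_lit 0) .nil) .nil))) 
(.lf (nat_lit 591868) (.g (nat_lit 1576) (.e (nat_lit 532546) (nat_lit 11) (.e (nat_lit 352313) (nat_lit 23) (.e (nat_lit 98350) (nat_lit 24) (.e (nat_lit 417536) (nat_lit 18) .nil)))) (.g (nat_lit 0) (.e (nat_lit 401372) (nat_lit 0) .nil) .nil))))))))))) (.nd (nat_lit 2) (.nd (nat_lit 3) (.nd (nat_lit 4) (.nd (nat_lit 5) (.nd (nat_lit 6) (.nd (nat_lit 7) (.nd (nat_lit 8) (.nd (nat_lit 9) 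
(.lf (nat_lit 590850) (.g (nat_lit 1899) (.e (nat_lit 532523) (nat_lit 7) (.e (nat_lit 319534) (nat_lit 16) (.e (nat_lit 286734) (nat_lit 3) (.e (nat_lit 98365) (nat_lit 26) (.e (nat_lit 426298) (nat_lit 11) .nil))))) (.g (nat_lit 0) (.e (nat_lit 398962) (nat_lit 0) .nil) .nil))) 
(.lf (nat_lit 591362) (.g (nat_lit 3094) (.e (nat_lit 532535) (nat_lit 9) (.e (nat_lit 336178) (nat_lit 10) (.e (nat_lit 344117) (nat_lit 21) (.e (nat_lit 516139) (nat_lit 7) (.e (nat_lit 409615) (nat_lit 10) (.e (nat_lit 5762) (nat_lit 315) (.e (nat_lit 163962) (nat_lit 25) .nil))))))) (.g (nat_lit 1) (.e (nat_lit 400765) (nat_lit 0) .nil) .nil)))) (.nd (nat_lit 9) 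
(.lf (nat_lit 591106) (.g (nat_lit 1056) (.e (nat_lit 532533) (nat_lit 9) (.e (nat_lit 336211) (nat_lit 13) (.e (nat_lit 393221) (nat_lit 0) (.e (nat_lit 6209) (nat_lit 333) (.e (nat_lit 57893) (nat_lit 271) .nil))))) (.g (nat_lit 0) (.e (nat_lit 399753) (nat_lit 0) .nil) .nil))) 
(.lf (nat_lit 591618) (.g (nat_lit 2215) (.e (nat_lit 532544) (nat_lit 10) (.e (nat_lit 344131) (nat_lit 26) (.e (nat_lit 557103) (nat_lit 14) (.e (nat_lit 180250) (nat_lit 10) (.e (nat_lit 573444) (nat_lit 0) .nil))))) (.g (nat_lit 0) (.e (nat_lit 401108) (nat_lit 0) .nil) .nil))))) (.nd (nat_lit 8) (.nd (nat_lit 9) 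
(.lf (nat_lit 590978) (.g (nat_lit 4493) (.e (nat_lit 532529) (nat_lit 9) (.e (nat_lit 336326) (nat_lit 18) (.e (nat_lit 204863) (nat_lit 27) (.e (nat_lit 344132) (nat_lit 26) (.e (nat_lit 557100) (nat_lit 13) (.e (nat_lit 172138) (nat_lit 15) (.e (nat_lit 7936) (nat_lit 121) .nil))))))) (.g (nat_lit 1) (.e (nat_lit 399318) (nat_lit 0) .nil) .nil))) 
(.lf (nat_lit 591490) (.g (nat_lit 2998) (.e (nat_lit 532544) (nat_lit 10) (.e (nat_lit 344129) (nat_lit 26) (.e (nat_lit 557103) (nat_lit 14) (.e (nat_lit 180250) (nat_lit 10) (.e (nat_lit 573443) (nat_lit 0) (.e (nat_lit 3062) (nat_lit 190) (.e (nat_lit 483072) (nat_lit 26) .nil))))))) (.g (nat_lit 1) (.e (nat_lit 400980) (nat_lit 0) .nil) .nil)))) (.nd (nat_lit 9) 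
(.lf (nat_lit 591234) (.g (nat_lit 3396) (.e (nat_lit 532535) (nat_lit 9) (.e (nat_lit 336099) (nat_lit 9) (.e (nat_lit 336013) (nat_lit 2) (.e (nat_lit 90165) (nat_lit 12) (.e (nat_lit 164210) (nat_lit 176) (.e (nat_lit 2770) (nat_lit 177) (.e (nat_lit 278551) (nat_lit 10) (.e (nat_lit 7936) (nat_lit 45) .nil)))))))) (.g (nat_lit 1) (.e (nat_lit 400105) (nat_lit 0) .nil) .nil))) 
(.lf (nat_lit 591746) (.g (nat_lit 3400) (.e (nat_lit 532544) (nat_lit 10) (.e (nat_lit 344133) (nat_lit 26) (.e (nat_lit 557098) (nat_lit 13) (.e (nat_lit 172045) (nat_lit 0) (.e (nat_lit 3308) (nat_lit 202) (.e (nat_lit 573440) (nat_lit 0) (.e (nat_lit 3067) (nat_lit 190) (.e (nat_lit 483072) (nat_lit 26) .nil)))))))) (.g (nat_lit 1) (.e (nat_lit 401236) (nat_lit 0) .nil) .nil)))))) 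
(.nd (nat_lit 7) (.nd (nat_lit 8) (.nd (nat_lit 9) 
(.lf (nat_lit 590914) (.g (nat_lit 1748) (.e (nat_lit 532526) (nat_lit 8) (.e (nat_lit 327699) (nat_lit 8) (.e (nat_lit 303119) (nat_lit 3) (.e (nat_lit 204862) (nat_lit 27) .nil)))) (.g (nat_lit 0) (.e (nat_lit 399068) (nat_lit 0) .nil) .nil))) 
(.lf (nat_lit 591426) (.g (nat_lit 1993) (.e (nat_lit 532544) (nat_lit 10) (.e (nat_lit 344081) (nat_lit 13) (.e (nat_lit 1141) (nat_lit 84) (.e (nat_lit 32787) (nat_lit 9) (.e (nat_lit 65586) (nat_lit 7) (.e (nat_lit 319505) (nat_lit 10) (.e (nat_lit 7936) (nat_lit 45) .nil))))))) (.g (nat_lit 1) (.e (nat_lit 400912) (nat_lit 0) .nil) .nil)))) (.nd (nat_lit 9) 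
(.lf (nat_lit 591170) (.g (nat_lit 3582) (.e (nat_lit 532535) (nat_lit 9) (.e (nat_lit 336099) (nat_lit 9) (.e (nat_lit 335916) (nat_lit 0) (.e (nat_lit 1848) (nat_lit 124) (.e (nat_lit 557087) (nat_lit 11) (.e (nat_lit 24617) (nat_lit 7) (.e (nat_lit 319504) (nat_lit 10) (.e (nat_lit 7936) (nat_lit 45) .nil)))))))) (.g (nat_lit 1) (.e (nat_lit 399995) (nat_lit 0) .nil) .nil))) 
(.lf (nat_lit 591682) (.g (nat_lit 1944) (.e (nat_lit 532544) (nat_lit 10) (.e (nat_lit 344132) (nat_lit 26) (.e (nat_lit 557101) (nat_lit 13) (.e (nat_lit 172064) (nat_lit 2) (.e (nat_lit 196622) (nat_lit 9) .nil))))) (.g (nat_lit 0) (.e (nat_lit 401172) (nat_lit 0) .nil) .nil))))) (.nd (nat_lit 8) (.nd (nat_lit 9) 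
(.lf (nat_lit 591042) (.g (nat_lit 829) (.e (nat_lit 532530) (nat_lit 9) (.e (nat_lit 336326) (nat_lit 18) (.e (nat_lit 204882) (nat_lit 32) (.e (nat_lit 385065) (nat_lit 26) .nil)))) (.g (nat_lit 0) (.e (nat_lit 399534) (nat_lit 0) .nil) .nil))) 
(.lf (nat_lit 591554) (.g (nat_lit 2299) (.e (nat_lit 532544) (nat_lit 10) (.e (nat_lit 344130) (nat_lit 26) (.e (nat_lit 557104) (nat_lit 14) (.e (nat_lit 180236) (nat_lit 1) (.e (nat_lit 499965) (nat_lit 14) (.e (nat_lit 488) (nat_lit 38) (.e (nat_lit 483072) (nat_lit 26) .nil))))))) (.g (nat_lit 1) (.e (nat_lit 401044) (nat_lit 0) .nil) .nil)))) (.nd (nat_lit 9) 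
(.lf (nat_lit 591298) (.g (nat_lit 4199) (.e (nat_lit 532535) (nat_lit 9) (.e (nat_lit 336167) (nat_lit 10) (.e (nat_lit 344129) (nat_lit 26) (.e (nat_lit 557087) (nat_lit 11) (.e (nat_lit 24617) (nat_lit 7) (.e (nat_lit 319504) (nat_lit 10) (.e (nat_lit 7936) (nat_lit 45) .nil))))))) (.g (nat_lit 1) (.e (nat_lit 400415) (nat_lit 0) .nil) .nil))) 
(.lf (nat_lit 591810) (.g (nat_lit 2982) (.e (nat_lit 532544) (nat_lit 10) (.e (nat_lit 344133) (nat_lit 26) (.e (nat_lit 557105) (nat_lit 14) (.e (nat_lit 180251) (nat_lit 10) (.e (nat_lit 573442) (nat_lit 0) (.e (nat_lit 2887) (nat_lit 184) (.e (nat_lit 426412) (nat_lit 15) (.e (nat_lit 7936) (nat_lit 121) .nil)))))))) (.g (nat_lit 1) (.e (nat_lit 401300) (nat_lit 0) .nil) .nil))))))) 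
(.nd (nat_lit 6) (.nd (nat_lit 7) (.nd (nat_lit 8) (.nd (nat_lit 9) 
(.lf (nat_lit 590882) (.g (nat_lit 1288) (.e (nat_lit 532524) (nat_lit 8) (.e (nat_lit 327717) (nat_lit 17) (.e (nat_lit 294931) (nat_lit 3) (.e (nat_lit 98372) (nat_lit 29) .nil)))) (.g (nat_lit 0) (.e (nat_lit 398999) (nat_lit 0) .nil) .nil))) 
(.lf (nat_lit 591394) (.g (nat_lit 2419) (.e (nat_lit 532542) (nat_lit 9) (.e (nat_lit 336204) (nat_lit 12) (.e (nat_lit 385074) (nat_lit 31) (.e (nat_lit 573487) (nat_lit 14) (.e (nat_lit 73779) (nat_lit 32) (.e (nat_lit 2505) (nat_lit 157) (.e (nat_lit 3249) (nat_lit 197) .nil))))))) (.g (nat_lit 1) (.e (nat_lit 400873) (nat_lit 0) .nil) .nil)))) (.nd (nat_lit 9) 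
(.lf (nat_lit 591138) (.g (nat_lit 1668) (.e (nat_lit 532534) (nat_lit 9) (.e (nat_lit 336315) (nat_lit 17) (.e (nat_lit 196666) (nat_lit 13) (.e (nat_lit 65642) (nat_lit 15) .nil)))) (.g (nat_lit 0) (.e (nat_lit 399819) (nat_lit 0) .nil) .nil))) 
(.lf (nat_lit 591650) (.g (nat_lit 3000) (.e (nat_lit 532544) (nat_lit 10) (.e (nat_lit 344132) (nat_lit 26) (.e (nat_lit 557100) (nat_lit 13) (.e (nat_lit 172062) (nat_lit 2) (.e (nat_lit 196622) (nat_lit 9) (.e (nat_lit 486) (nat_lit 38) (.e (nat_lit 483072) (nat_lit 26) .nil))))))) (.g (nat_lit 1) (.e (nat_lit 401140) (nat_lit 0) .nil) .nil))))) (.nd (nat_lit 8) (.nd (nat_lit 9) 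
(.lf (nat_lit 591010) (.g (nat_lit 610) (.e (nat_lit 532530) (nat_lit 9) (.e (nat_lit 336316) (nat_lit 17) (.e (nat_lit 196662) (nat_lit 13) (.e (nat_lit 73472) (nat_lit 18) .nil)))) (.g (nat_lit 0) (.e (nat_lit 399418) (nat_lit 0) .nil) .nil))) 
(.lf (nat_lit 591522) (.g (nat_lit 1959) (.e (nat_lit 532544) (nat_lit 10) (.e (nat_lit 344130) (nat_lit 26) (.e (nat_lit 557097) (nat_lit 13) (.e (nat_lit 172065) (nat_lit 3) (.e (nat_lit 212736) (nat_lit 15) (.e (nat_lit 483072) (nat_lit 26) .nil)))))) (.g (nat_lit 1) (.e (nat_lit 401012) (nat_lit 0) .nil) .nil)))) (.nd (nat_lit 9) 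
(.lf (nat_lit 591266) (.g (nat_lit 4889) (.e (nat_lit 532535) (nat_lit 9) (.e (nat_lit 336099) (nat_lit 9) (.e (nat_lit 336028) (nat_lit 3) (.e (nat_lit 98349) (nat_lit 24) (.e (nat_lit 409645) (nat_lit 18) (.e (nat_lit 303112) (nat_lit 0) (.e (nat_lit 3251) (nat_lit 197) .nil))))))) (.g (nat_lit 1) (.e (nat_lit 400317) (nat_lit 0) .nil) .nil))) 
(.lf (nat_lit 591778) (.g (nat_lit 1709) (.e (nat_lit 532544) (nat_lit 10) (.e (nat_lit 344133) (nat_lit 26) (.e (nat_lit 557103) (nat_lit 14) (.e (nat_lit 180234) (nat_lit 1) .nil)))) (.g (nat_lit 0) (.e (nat_lit 401268) (nat_lit 0) .nil) .nil)))))) (.nd (nat_lit 7) (.nd (nat_lit 8) (.nd (nat_lit 9) 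
(.lf (nat_lit 590946) (.g (nat_lit 2446) (.e (nat_lit 532528) (nat_lit 9) (.e (nat_lit 336324) (nat_lit 18) (.e (nat_lit 204854) (nat_lit 26) (.e (nat_lit 336325) (nat_lit 18) (.e (nat_lit 204880) (nat_lit 32) .nil))))) (.g (nat_lit 0) (.e (nat_lit 399128) (nat_lit 0) .nil) .nil))) 
(.lf (nat_lit 591458) (.g (nat_lit 2035) (.e (nat_lit 532544) (nat_lit 10) (.e (nat_lit 344129) (nat_lit 26) (.e (nat_lit 557096) (nat_lit 13) (.e (nat_lit 172067) (nat_lit 3) (.e (nat_lit 212736) (nat_lit 15) .nil))))) (.g (nat_lit 0) (.e (nat_lit 400948) (nat_lit 0) .nil) .nil)))) (.nd (nat_lit 9) 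
(.lf (nat_lit 591202) (.g (nat_lit 5126) (.e (nat_lit 532535) (nat_lit 9) (.e (nat_lit 336099) (nat_lit 9) (.e (nat_lit 336013) (nat_lit 2) (.e (nat_lit 90134) (nat_lit 9) (.e (nat_lit 2822) (nat_lit 182) (.e (nat_lit 409646) (nat_lit 18) (.e (nat_lit 303112) (nat_lit 0) (.e (nat_lit 3254) (nat_lit 197) .nil)))))))) (.g (nat_lit 1) (.e (nat_lit 400059) (nat_lit 0) .nil) .nil))) 
(.lf (nat_lit 591714) (.g (nat_lit 2787) (.e (nat_lit 532544) (nat_lit 10) (.e (nat_lit 344132) (nat_lit 26) (.e (nat_lit 557105) (nat_lit 14) (.e (nat_lit 180252) (nat_lit 10) (.e (nat_lit 573441) (nat_lit 0) (.e (nat_lit 3066) (nat_lit 190) (.e (nat_lit 483072) (nat_lit 26) .nil))))))) (.g (nat_lit 1) (.e (nat_lit 401204) (nat_lit 0) .nil) .nil))))) (.nd (nat_lit 8) (.nd (nat_lit 9) 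
(.lf (nat_lit 591074) (.g (nat_lit 3198) (.e (nat_lit 532532) (nat_lit 9) (.e (nat_lit 336324) (nat_lit 18) (.e (nat_lit 204852) (nat_lit 26) (.e (nat_lit 336324) (nat_lit 18) (.e (nat_lit 204882) (nat_lit 32) (.e (nat_lit 385066) (nat_lit 26) .nil)))))) (.g (nat_lit 1) (.e (nat_lit 399693) (nat_lit 0) .nil) .nil))) 
(.lf (nat_lit 591586) (.g (nat_lit 2297) (.e (nat_lit 532544) (nat_lit 10) (.e (nat_lit 344131) (nat_lit 26) (.e (nat_lit 557098) (nat_lit 13) (.e (nat_lit 172064) (nat_lit 2) (.e (nat_lit 196628) (nat_lit 9) (.e (nat_lit 488) (nat_lit 38) (.e (nat_lit 483072) (nat_lit 26) .nil))))))) (.g (nat_lit 1) (.e (nat_lit 401076) (nat_lit 0) .nil) .nil)))) (.nd (nat_lit 9) 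
(.lf (nat_lit 591330) (.g (nat_lit 2142) (.e (nat_lit 532535) (nat_lit 9) (.e (nat_lit 336176) (nat_lit 10) (.e (nat_lit 344130) (nat_lit 26) (.e (nat_lit 557067) (nat_lit 9) (.e (nat_lit 249) (nat_lit 21) .nil))))) (.g (nat_lit 0) (.e (nat_lit 400562) (nat_lit 0) .nil) .nil))) 
(.lf (nat_lit 591842) (.g (nat_lit 4147) (.e (nat_lit 532544) (nat_lit 10) (.e (nat_lit 344133) (nat_lit 26) (.e (nat_lit 557105) (nat_lit 14) (.e (nat_lit 180252) (nat_lit 10) (.e (nat_lit 573474) (nat_lit 12) (.e (nat_lit 57347) (nat_lit 0) (.e (nat_lit 5436) (nat_lit 306) (.e (nat_lit 2604) (nat_lit 163) (.e (nat_lit 163962) (nat_lit 25) .nil))))))))) (.g (nat_lit 1) (.e (nat_lit 401332) (nat_lit 0) .nil) .nil)))))))) 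
(.nd (nat_lit 5) (.nd (nat_lit 6) (.nd (nat_lit 7) (.nd (nat_lit 8) (.nd (nat_lit 9) 
(.lf (nat_lit 590866) (.g (nat_lit 1738) (.e (nat_lit 532523) (nat_lit 7) (.e (nat_lit 319534) (nat_lit 16) (.e (nat_lit 286735) (nat_lit 3) (.e (nat_lit 106240) (nat_lit 26) .nil)))) (.g (nat_lit 0) (.e (nat_lit 398978) (nat_lit 0) .nil) .nil))) 
(.lf (nat_lit 591378) (.g (nat_lit 504) (.e (nat_lit 532542) (nat_lit 9) (.e (nat_lit 336076) (nat_lit 9) (.e (nat_lit 336367) (nat_lit 27) .nil))) (.g (nat_lit 0) (.e (nat_lit 400839) (nat_lit 0) .nil) .nil)))) (.nd (nat_lit 9) 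
(.lf (nat_lit 591122) (.g (nat_lit 1886) (.e (nat_lit 532533) (nat_lit 9) (.e (nat_lit 336324) (nat_lit 18) (.e (nat_lit 204882) (nat_lit 32) (.e (nat_lit 385067) (nat_lit 26) (.e (nat_lit 532563) (nat_lit 15) .nil))))) (.g (nat_lit 0) (.e (nat_lit 399771) (nat_lit 0) .nil) .nil))) 
(.lf (nat_lit 591634) (.g (nat_lit 2508) (.e (nat_lit 532544) (nat_lit 10) (.e (nat_lit 344131) (nat_lit 26) (.e (nat_lit 557105) (nat_lit 14) (.e (nat_lit 180252) (nat_lit 10) (.e (nat_lit 573441) (nat_lit 0) (.e (nat_lit 3066) (nat_lit 190) (.e (nat_lit 483072) (nat_lit 26) .nil))))))) (.g (nat_lit 1) (.e (nat_lit 401124) (nat_lit 0) .nil) .nil))))) (.nd (nat_lit 8) (.nd (nat_lit 9) 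
(.lf (nat_lit 590994) (.g (nat_lit 3346) (.e (nat_lit 532529) (nat_lit 9) (.e (nat_lit 336326) (nat_lit 18) (.e (nat_lit 204863) (nat_lit 27) (.e (nat_lit 344133) (nat_lit 26) (.e (nat_lit 557098) (nat_lit 13) (.e (nat_lit 172128) (nat_lit 15) (.e (nat_lit 7936) (nat_lit 121) .nil))))))) (.g (nat_lit 1) (.e (nat_lit 399334) (nat_lit 0) .nil) .nil))) 
(.lf (nat_lit 591506) (.g (nat_lit 2403) (.e (nat_lit 532544) (nat_lit 10) (.e (nat_lit 344129) (nat_lit 26) (.e (nat_lit 557104) (nat_lit 14) (.e (nat_lit 180252) (nat_lit 10) (.e (nat_lit 581376) (nat_lit 0) (.e (nat_lit 3061) (nat_lit 190) (.e (nat_lit 483072) (nat_lit 26) .nil))))))) (.g (nat_lit 1) (.e (nat_lit 400996) (nat_lit 0) .nil) .nil)))) (.nd (nat_lit 9) 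
(.lf (nat_lit 591250) (.g (nat_lit 3571) (.e (nat_lit 532535) (nat_lit 9) (.e (nat_lit 336099) (nat_lit 9) (.e (nat_lit 336013) (nat_lit 2) (.e (nat_lit 90165) (nat_lit 12) (.e (nat_lit 164218) (nat_lit 179) (.e (nat_lit 164283) (nat_lit 223) (.e (nat_lit 130816) (nat_lit 86) .nil))))))) (.g (nat_lit 1) (.e (nat_lit 400124) (nat_lit 0) .nil) .nil))) 
(.lf (nat_lit 591762) (.g (nat_lit 3232) (.e (nat_lit 532544) (nat_lit 10) (.e (nat_lit 344133) (nat_lit 26) (.e (nat_lit 557098) (nat_lit 13) (.e (nat_lit 172064) (nat_lit 2) (.e (nat_lit 196628) (nat_lit 9) (.e (nat_lit 488) (nat_lit 38) (.e (nat_lit 483072) (nat_lit 26) .nil))))))) (.g (nat_lit 1) (.e (nat_lit 401252) (nat_lit 0) .nil) .nil)))))) 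
(.nd (nat_lit 7) (.nd (nat_lit 8) (.nd (nat_lit 9) 
(.lf (nat_lit 590930) (.g (nat_lit 820) (.e (nat_lit 532527) (nat_lit 9) (.e (nat_lit 336211) (nat_lit 13) (.e (nat_lit 401152) (nat_lit 16) (.e (nat_lit 401454) (nat_lit 12) (.e (nat_lit 483072) (nat_lit 26) .nil))))) (.g (nat_lit 0) (.e (nat_lit 399107) (nat_lit 0) .nil) .nil))) 
(.lf (nat_lit 591442) (.g (nat_lit 2252) (.e (nat_lit 532544) (nat_lit 10) (.e (nat_lit 344117) (nat_lit 21) (.e (nat_lit 516130) (nat_lit 3) (.e (nat_lit 221214) (nat_lit 23) (.e (nat_lit 204819) (nat_lit 17) .nil))))) (.g (nat_lit 0) (.e (nat_lit 400931) (nat_lit 0) .nil) .nil)))) (.nd (nat_lit 9) 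
(.lf (nat_lit 591186) (.g (nat_lit 3880) (.e (nat_lit 532535) (nat_lit 9) (.e (nat_lit 336099) (nat_lit 9) (.e (nat_lit 335937) (nat_lit 0) (.e (nat_lit 1848) (nat_lit 124) (.e (nat_lit 557087) (nat_lit 11) (.e (nat_lit 24617) (nat_lit 7) (.e (nat_lit 319504) (nat_lit 10) (.e (nat_lit 7936) (nat_lit 45) .nil)))))))) (.g (nat_lit 1) (.e (nat_lit 400014) (nat_lit 0) .nil) .nil))) 
(.lf (nat_lit 591698) (.g (nat_lit 2264) (.e (nat_lit 532544) (nat_lit 10) (.e (nat_lit 344132) (nat_lit 26) (.e (nat_lit 557103) (nat_lit 14) (.e (nat_lit 180250) (nat_lit 10) (.e (nat_lit 573447) (nat_lit 0) (.e (nat_lit 3067) (nat_lit 190) (.e (nat_lit 483072) (nat_lit 26) .nil))))))) (.g (nat_lit 1) (.e (nat_lit 401188) (nat_lit 0) .nil) .nil))))) (.nd (nat_lit 8) (.nd (nat_lit 9) 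
(.lf (nat_lit 591058) (.g (nat_lit 1197) (.e (nat_lit 532531) (nat_lit 9) (.e (nat_lit 336324) (nat_lit 18) (.e (nat_lit 204854) (nat_lit 26) (.e (nat_lit 336324) (nat_lit 18) .nil)))) (.g (nat_lit 0) (.e (nat_lit 399588) (nat_lit 0) .nil) .nil))) 
(.lf (nat_lit 591570) (.g (nat_lit 2354) (.e (nat_lit 532544) (nat_lit 10) (.e (nat_lit 344130) (nat_lit 26) (.e (nat_lit 557104) (nat_lit 14) (.e (nat_lit 180252) (nat_lit 10) (.e (nat_lit 581376) (nat_lit 0) (.e (nat_lit 3064) (nat_lit 190) (.e (nat_lit 483072) (nat_lit 26) .nil))))))) (.g (nat_lit 1) (.e (nat_lit 401060) (nat_lit 0) .nil) .nil)))) (.nd (nat_lit 9) 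
(.lf (nat_lit 591314) (.g (nat_lit 3897) (.e (nat_lit 532535) (nat_lit 9) (.e (nat_lit 336173) (nat_lit 10) (.e (nat_lit 344117) (nat_lit 21) (.e (nat_lit 516139) (nat_lit 7) (.e (nat_lit 409646) (nat_lit 18) (.e (nat_lit 303112) (nat_lit 0) (.e (nat_lit 3252) (nat_lit 197) .nil))))))) (.g (nat_lit 1) (.e (nat_lit 400436) (nat_lit 0) .nil) .nil))) 
(.lf (nat_lit 591826) (.g (nat_lit 2974) (.e (nat_lit 532544) (nat_lit 10) (.e (nat_lit 344133) (nat_lit 26) (.e (nat_lit 557105) (nat_lit 14) (.e (nat_lit 180252) (nat_lit 10) (.e (nat_lit 581376) (nat_lit 0) (.e (nat_lit 3059) (nat_lit 190) (.e (nat_lit 483072) (nat_lit 26) .nil))))))) (.g (nat_lit 1) (.e (nat_lit 401316) (nat_lit 0) .nil) .nil))))))) 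
(.nd (nat_lit 6) (.nd (nat_lit 7) (.nd (nat_lit 8) (.nd (nat_lit 9) 
(.lf (nat_lit 590898) (.g (nat_lit 2561) (.e (nat_lit 532526) (nat_lit 8) (.e (nat_lit 327699) (nat_lit 8) (.e (nat_lit 303117) (nat_lit 2) (.e (nat_lit 196669) (nat_lit 14) (.e (nat_lit 73780) (nat_lit 32) .nil))))) (.g (nat_lit 0) (.e (nat_lit 399046) (nat_lit 0) .nil) .nil))) 
(.lf (nat_lit 591410) (.g (nat_lit 3440) (.e (nat_lit 532543) (nat_lit 10) (.e (nat_lit 344129) (nat_lit 26) (.e (nat_lit 557103) (nat_lit 14) (.e (nat_lit 180244) (nat_lit 5) (.e (nat_lit 532503) (nat_lit 1) (.e (nat_lit 57704) (nat_lit 164) (.e (nat_lit 2601) (nat_lit 163) (.e (nat_lit 163962) (nat_lit 25) .nil)))))))) (.g (nat_lit 1) (.e (nat_lit 400891) (nat_lit 0) .nil) .nil)))) 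
(.nd (nat_lit 9) 
(.lf (nat_lit 591154) (.g (nat_lit 3216) (.e (nat_lit 532534) (nat_lit 9) (.e (nat_lit 336324) (nat_lit 18) (.e (nat_lit 204882) (nat_lit 32) (.e (nat_lit 385066) (nat_lit 26) (.e (nat_lit 532565) (nat_lit 15) (.e (nat_lit 385068) (nat_lit 26) .nil)))))) (.g (nat_lit 1) (.e (nat_lit 399849) (nat_lit 0) .nil) .nil))) 
(.lf (nat_lit 591666) (.g (nat_lit 2540) (.e (nat_lit 532544) (nat_lit 10) (.e (nat_lit 344132) (nat_lit 26) (.e (nat_lit 557100) (nat_lit 13) (.e (nat_lit 172067) (nat_lit 3) (.e (nat_lit 204821) (nat_lit 17) .nil))))) (.g (nat_lit 0) (.e (nat_lit 401156) (nat_lit 0) .nil) .nil))))) (.nd (nat_lit 8) (.nd (nat_lit 9) 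
(.lf (nat_lit 591026) (.g (nat_lit 2418) (.e (nat_lit 532530) (nat_lit 9) (.e (nat_lit 336326) (nat_lit 18) (.e (nat_lit 204852) (nat_lit 26) (.e (nat_lit 336316) (nat_lit 17) (.e (nat_lit 196665) (nat_lit 13) (.e (nat_lit 65637) (nat_lit 15) (.e (nat_lit 3253) (nat_lit 197) .nil))))))) (.g (nat_lit 1) (.e (nat_lit 399481) (nat_lit 0) .nil) .nil))) 
(.lf (nat_lit 591538) (.g (nat_lit 2163) (.e (nat_lit 532544) (nat_lit 10) (.e (nat_lit 344130) (nat_lit 26) (.e (nat_lit 557103) (nat_lit 14) (.e (nat_lit 180244) (nat_lit 5) (.e (nat_lit 532503) (nat_lit 1) .nil))))) (.g (nat_lit 0) (.e (nat_lit 401028) (nat_lit 0) .nil) .nil)))) (.nd (nat_lit 9) 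
(.lf (nat_lit 591282) (.g (nat_lit 3776) (.e (nat_lit 532535) (nat_lit 9) (.e (nat_lit 336099) (nat_lit 9) (.e (nat_lit 336028) (nat_lit 3) (.e (nat_lit 98350) (nat_lit 24) (.e (nat_lit 409616) (nat_lit 10) (.e (nat_lit 5763) (nat_lit 315) (.e (nat_lit 171776) (nat_lit 25) .nil))))))) (.g (nat_lit 1) (.e (nat_lit 400334) (nat_lit 0) .nil) .nil))) 
(.lf (nat_lit 591794) (.g (nat_lit 2471) (.e (nat_lit 532544) (nat_lit 10) (.e (nat_lit 344133) (nat_lit 26) (.e (nat_lit 557103) (nat_lit 14) (.e (nat_lit 180250) (nat_lit 10) (.e (nat_lit 573446) (nat_lit 0) .nil))))) (.g (nat_lit 0) (.e (nat_lit 401284) (nat_lit 0) .nil) .nil)))))) (.nd (nat_lit 7) (.nd (nat_lit 8) (.nd (nat_lit 9) 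
(.lf (nat_lit 590962) (.g (nat_lit 1608) (.e (nat_lit 532529) (nat_lit 9) (.e (nat_lit 336324) (nat_lit 18) (.e (nat_lit 204882) (nat_lit 32) (.e (nat_lit 385068) (nat_lit 26) (.e (nat_lit 532566) (nat_lit 15) .nil))))) (.g (nat_lit 0) (.e (nat_lit 399293) (nat_lit 0) .nil) .nil))) 
(.lf (nat_lit 591474) (.g (nat_lit 3925) (.e (nat_lit 532544) (nat_lit 10) (.e (nat_lit 344129) (nat_lit 26) (.e (nat_lit 557097) (nat_lit 13) (.e (nat_lit 172133) (nat_lit 15) (.e (nat_lit 1800) (nat_lit 119) (.e (nat_lit 516119) (nat_lit 1) (.e (nat_lit 164347) (nat_lit 240) (.e (nat_lit 2601) (nat_lit 163) (.e (nat_lit 163962) (nat_lit 25) .nil))))))))) (.g (nat_lit 1) (.e (nat_lit 400964) (nat_lit 0) .nil) .nil)))) 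
(.nd (nat_lit 9) 
(.lf (nat_lit 591218) (.g (nat_lit 2711) (.e (nat_lit 532535) (nat_lit 9) (.e (nat_lit 336099) (nat_lit 9) (.e (nat_lit 336013) (nat_lit 2) (.e (nat_lit 90161) (nat_lit 12) .nil)))) (.g (nat_lit 0) (.e (nat_lit 400089) (nat_lit 0) .nil) .nil))) 
(.lf (nat_lit 591730) (.g (nat_lit 2029) (.e (nat_lit 532544) (nat_lit 10) (.e (nat_lit 344132) (nat_lit 26) (.e (nat_lit 557105) (nat_lit 14) (.e (nat_lit 180252) (nat_lit 10) (.e (nat_lit 581376) (nat_lit 4) .nil))))) (.g (nat_lit 0) (.e (nat_lit 401220) (nat_lit 0) .nil) .nil))))) (.nd (nat_lit 8) (.nd (nat_lit 9) 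
(.lf (nat_lit 591090) (.g (nat_lit 1018) (.e (nat_lit 532532) (nat_lit 9) (.e (nat_lit 336326) (nat_lit 18) (.e (nat_lit 204859) (nat_lit 26) (.e (nat_lit 336321) (nat_lit 18) .nil)))) (.g (nat_lit 0) (.e (nat_lit 399710) (nat_lit 0) .nil) .nil))) 
(.lf (nat_lit 591602) (.g (nat_lit 1386) (.e (nat_lit 532544) (nat_lit 10) (.e (nat_lit 344131) (nat_lit 26) (.e (nat_lit 557103) (nat_lit 14) (.e (nat_lit 180225) (nat_lit 0) .nil)))) (.g (nat_lit 0) (.e (nat_lit 401092) (nat_lit 0) .nil) .nil)))) (.nd (nat_lit 9) 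
(.lf (nat_lit 591346) (.g (nat_lit 3920) (.e (nat_lit 532535) (nat_lit 9) (.e (nat_lit 336176) (nat_lit 10) (.e (nat_lit 344133) (nat_lit 26) (.e (nat_lit 557068) (nat_lit 9) (.e (nat_lit 214) (nat_lit 19) (.e (nat_lit 319491) (nat_lit 0) (.e (nat_lit 5761) (nat_lit 315) (.e (nat_lit 163962) (nat_lit 25) .nil)))))))) (.g (nat_lit 1) (.e (nat_lit 400692) (nat_lit 0) .nil) .nil))) 
(.lf (nat_lit 591858) (.g (nat_lit 3099) (.e (nat_lit 532546) (nat_lit 11) (.e (nat_lit 352313) (nat_lit 23) (.e (nat_lit 98350) (nat_lit 24) (.e (nat_lit 409616) (nat_lit 10) (.e (nat_lit 5756) (nat_lit 315) (.e (nat_lit 163962) (nat_lit 25) .nil)))))) (.g (nat_lit 1) (.e (nat_lit 401362) (nat_lit 0) .nil) .nil))))))))) 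
(.nd (nat_lit 4) (.nd (nat_lit 5) (.nd (nat_lit 6) (.nd (nat_lit 7) (.nd (nat_lit 8) 
(.nd (nat_lit 9) 
(.lf (nat_lit 590858) (.g (nat_lit 2233) (.e (nat_lit 532523) (nat_lit 7) (.e (nat_lit 319534) (nat_lit 16) (.e (nat_lit 286735) (nat_lit 3) (.e (nat_lit 98319) (nat_lit 17) (.e (nat_lit 7389) (nat_lit 393) .nil))))) (.g (nat_lit 0) (.e (nat_lit 398970) (nat_lit 0) .nil) .nil))) 
(.lf (nat_lit 591370) (.g (nat_lit 234) (.e (nat_lit 532535) (nat_lit 9) (.e (nat_lit 336226) (nat_lit 14) (.e (nat_lit 401425) (nat_lit 2) .nil))) (.g (nat_lit 0) (.e (nat_lit 400785) (nat_lit 0) .nil) .nil)))) (.nd (nat_lit 9) 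
(.lf (nat_lit 591114) (.g (nat_lit 2234) (.e (nat_lit 532533) (nat_lit 9) (.e (nat_lit 336324) (nat_lit 18) (.e (nat_lit 204854) (nat_lit 26) (.e (nat_lit 336324) (nat_lit 18) (.e (nat_lit 204881) (nat_lit 32) .nil))))) (.g (nat_lit 0) (.e (nat_lit 399762) (nat_lit 0) .nil) .nil))) 
(.lf (nat_lit 591626) (.g (nat_lit 2319) (.e (nat_lit 532544) (nat_lit 10) (.e (nat_lit 344131) (nat_lit 26) (.e (nat_lit 557105) (nat_lit 14) (.e (nat_lit 180251) (nat_lit 10) (.e (nat_lit 573440) (nat_lit 0) (.e (nat_lit 3067) (nat_lit 190) (.e (nat_lit 483072) (nat_lit 26) .nil))))))) (.g (nat_lit 1) (.e (nat_lit 401116) (nat_lit 0) .nil) .nil))))) (.nd (nat_lit 8) (.nd (nat_lit 9) 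
(.lf (nat_lit 590986) (.g (nat_lit 2959) (.e (nat_lit 532529) (nat_lit 9) (.e (nat_lit 336326) (nat_lit 18) (.e (nat_lit 204863) (nat_lit 27) (.e (nat_lit 344133) (nat_lit 26) (.e (nat_lit 557096) (nat_lit 13) (.e (nat_lit 172128) (nat_lit 15) (.e (nat_lit 7936) (nat_lit 121) .nil))))))) (.g (nat_lit 1) (.e (nat_lit 399326) (nat_lit 0) .nil) .nil))) 
(.lf (nat_lit 591498) (.g (nat_lit 2695) (.e (nat_lit 532544) (nat_lit 10) (.e (nat_lit 344129) (nat_lit 26) (.e (nat_lit 557104) (nat_lit 14) (.e (nat_lit 180252) (nat_lit 10) (.e (nat_lit 573440) (nat_lit 0) (.e (nat_lit 3067) (nat_lit 190) (.e (nat_lit 483072) (nat_lit 26) .nil))))))) (.g (nat_lit 1) (.e (nat_lit 400988) (nat_lit 0) .nil) .nil)))) (.nd (nat_lit 9) 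
(.lf (nat_lit 591242) (.g (nat_lit 3784) (.e (nat_lit 532535) (nat_lit 9) (.e (nat_lit 336099) (nat_lit 9) (.e (nat_lit 336013) (nat_lit 2) (.e (nat_lit 90165) (nat_lit 12) (.e (nat_lit 164218) (nat_lit 179) (.e (nat_lit 164262) (nat_lit 221) (.e (nat_lit 971) (nat_lit 81) (.e (nat_lit 596) (nat_lit 45) .nil)))))))) (.g (nat_lit 1) (.e (nat_lit 400113) (nat_lit 0) .nil) .nil))) 
(.lf (nat_lit 591754) (.g (nat_lit 2464) (.e (nat_lit 532544) (nat_lit 10) (.e (nat_lit 344133) (nat_lit 26) (.e (nat_lit 557098) (nat_lit 13) (.e (nat_lit 172062) (nat_lit 2) (.e (nat_lit 196628) (nat_lit 9) (.e (nat_lit 486) (nat_lit 38) (.e (nat_lit 483072) (nat_lit 26) .nil))))))) (.g (nat_lit 1) (.e (nat_lit 401244) (nat_lit 0) .nil) .nil)))))) 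
(.nd (nat_lit 7) (.nd (nat_lit 8) (.nd (nat_lit 9) 
(.lf (nat_lit 590922) (.g (nat_lit 1718) (.e (nat_lit 532526) (nat_lit 8) (.e (nat_lit 327715) (nat_lit 16) (.e (nat_lit 286733) (nat_lit 2) (.e (nat_lit 90178) (nat_lit 15) (.e (nat_lit 188440) (nat_lit 20) .nil))))) (.g (nat_lit 0) (.e (nat_lit 399089) (nat_lit 0) .nil) .nil))) 
(.lf (nat_lit 591434) (.g (nat_lit 2141) (.e (nat_lit 532544) (nat_lit 10) (.e (nat_lit 344117) (nat_lit 21) (.e (nat_lit 516130) (nat_lit 3) (.e (nat_lit 221204) (nat_lit 20) (.e (nat_lit 7936) (nat_lit 195) (.e (nat_lit 516181) (nat_lit 15) (.e (nat_lit 483072) (nat_lit 26) .nil))))))) (.g (nat_lit 1) (.e (nat_lit 400923) (nat_lit 0) .nil) .nil)))) (.nd (nat_lit 9) 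
(.lf (nat_lit 591178) (.g (nat_lit 3775) (.e (nat_lit 532535) (nat_lit 9) (.e (nat_lit 336099) (nat_lit 9) (.e (nat_lit 335922) (nat_lit 0) (.e (nat_lit 1848) (nat_lit 124) (.e (nat_lit 557087) (nat_lit 11) (.e (nat_lit 24617) (nat_lit 7) (.e (nat_lit 319504) (nat_lit 10) (.e (nat_lit 7936) (nat_lit 45) .nil)))))))) (.g (nat_lit 1) (.e (nat_lit 400004) (nat_lit 0) .nil) .nil))) 
(.lf (nat_lit 591690) (.g (nat_lit 3200) (.e (nat_lit 532544) (nat_lit 10) (.e (nat_lit 344132) (nat_lit 26) (.e (nat_lit 557101) (nat_lit 13) (.e (nat_lit 172136) (nat_lit 15) (.e (nat_lit 1800) (nat_lit 119) (.e (nat_lit 516119) (nat_lit 1) (.e (nat_lit 164345) (nat_lit 240) (.e (nat_lit 2601) (nat_lit 163) (.e (nat_lit 163962) (nat_lit 25) .nil))))))))) (.g (nat_lit 1) (.e (nat_lit 401180) (nat_lit 0) .nil) .nil))))) 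
(.nd (nat_lit 8) (.nd (nat_lit 9) 
(.lf (nat_lit 591050) (.g (nat_lit 1758) (.e (nat_lit 532531) (nat_lit 9) (.e (nat_lit 336019) (nat_lit 3) (.e (nat_lit 98342) (nat_lit 20) (.e (nat_lit 221212) (nat_lit 22) .nil)))) (.g (nat_lit 0) (.e (nat_lit 399573) (nat_lit 0) .nil) .nil))) 
(.lf (nat_lit 591562) (.g (nat_lit 2453) (.e (nat_lit 532544) (nat_lit 10) (.e (nat_lit 344130) (nat_lit 26) (.e (nat_lit 557104) (nat_lit 14) (.e (nat_lit 180252) (nat_lit 10) (.e (nat_lit 573442) (nat_lit 0) (.e (nat_lit 3062) (nat_lit 190) (.e (nat_lit 483072) (nat_lit 26) .nil))))))) (.g (nat_lit 1) (.e (nat_lit 401052) (nat_lit 0) .nil) .nil)))) (.nd (nat_lit 9) 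
(.lf (nat_lit 591306) (.g (nat_lit 4382) (.e (nat_lit 532535) (nat_lit 9) (.e (nat_lit 336171) (nat_lit 10) (.e (nat_lit 344131) (nat_lit 26) (.e (nat_lit 557087) (nat_lit 11) (.e (nat_lit 24617) (nat_lit 7) (.e (nat_lit 319504) (nat_lit 10) (.e (nat_lit 7936) (nat_lit 45) .nil))))))) (.g (nat_lit 1) (.e (nat_lit 400423) (nat_lit 0) .nil) .nil))) 
(.lf (nat_lit 591818) (.g (nat_lit 3343) (.e (nat_lit 532544) (nat_lit 10) (.e (nat_lit 344133) (nat_lit 26) (.e (nat_lit 557105) (nat_lit 14) (.e (nat_lit 180252) (nat_lit 10) (.e (nat_lit 573441) (nat_lit 0) (.e (nat_lit 3064) (nat_lit 190) (.e (nat_lit 483072) (nat_lit 26) .nil))))))) (.g (nat_lit 1) (.e (nat_lit 401308) (nat_lit 0) .nil) .nil))))))) 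
(.nd (nat_lit 6) (.nd (nat_lit 7) (.nd (nat_lit 8) (.nd (nat_lit 9) 
(.lf (nat_lit 590890) (.g (nat_lit 2358) (.e (nat_lit 532526) (nat_lit 8) (.e (nat_lit 327698) (nat_lit 8) (.e (nat_lit 303117) (nat_lit 2) (.e (nat_lit 196670) (nat_lit 14) (.e (nat_lit 81664) (nat_lit 38) .nil))))) (.g (nat_lit 0) (.e (nat_lit 399030) (nat_lit 0) .nil) .nil))) 
(.lf (nat_lit 591402) (.g (nat_lit 1982) (.e (nat_lit 532543) (nat_lit 10) (.e (nat_lit 344117) (nat_lit 21) (.e (nat_lit 516129) (nat_lit 3) (.e (nat_lit 229120) (nat_lit 2) .nil)))) (.g (nat_lit 0) (.e (nat_lit 400883) (nat_lit 0) .nil) .nil)))) (.nd (nat_lit 9) 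
(.lf (nat_lit 591146) (.g (nat_lit 1551) (.e (nat_lit 532534) (nat_lit 9) (.e (nat_lit 336324) (nat_lit 18) (.e (nat_lit 204854) (nat_lit 26) (.e (nat_lit 336316) (nat_lit 17) .nil)))) (.g (nat_lit 0) (.e (nat_lit 399839) (nat_lit 0) .nil) .nil))) 
(.lf (nat_lit 591658) (.g (nat_lit 1809) (.e (nat_lit 532544) (nat_lit 10) (.e (nat_lit 344132) (nat_lit 26) (.e (nat_lit 557100) (nat_lit 13) (.e (nat_lit 179968) (nat_lit 2) .nil)))) (.g (nat_lit 0) (.e (nat_lit 401148) (nat_lit 0) .nil) .nil))))) (.nd (nat_lit 8) (.nd (nat_lit 9) 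
(.lf (nat_lit 591018) (.g (nat_lit 2236) (.e (nat_lit 532530) (nat_lit 9) (.e (nat_lit 336324) (nat_lit 18) (.e (nat_lit 204881) (nat_lit 32) (.e (nat_lit 385066) (nat_lit 26) (.e (nat_lit 532565) (nat_lit 15) (.e (nat_lit 385067) (nat_lit 26) .nil)))))) (.g (nat_lit 1) (.e (nat_lit 399471) (nat_lit 0) .nil) .nil))) 
(.lf (nat_lit 591530) (.g (nat_lit 2243) (.e (nat_lit 532544) (nat_lit 10) (.e (nat_lit 344130) (nat_lit 26) (.e (nat_lit 557103) (nat_lit 14) (.e (nat_lit 180225) (nat_lit 0) (.e (nat_lit 4181) (nat_lit 251) .nil))))) (.g (nat_lit 0) (.e (nat_lit 401020) (nat_lit 0) .nil) .nil)))) (.nd (nat_lit 9) 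
(.lf (nat_lit 591274) (.g (nat_lit 4092) (.e (nat_lit 532535) (nat_lit 9) (.e (nat_lit 336099) (nat_lit 9) (.e (nat_lit 336028) (nat_lit 3) (.e (nat_lit 98349) (nat_lit 24) (.e (nat_lit 409646) (nat_lit 18) (.e (nat_lit 303112) (nat_lit 0) (.e (nat_lit 3254) (nat_lit 197) .nil))))))) (.g (nat_lit 1) (.e (nat_lit 400325) (nat_lit 0) .nil) .nil))) 
(.lf (nat_lit 591786) (.g (nat_lit 2930) (.e (nat_lit 532544) (nat_lit 10) (.e (nat_lit 344133) (nat_lit 26) (.e (nat_lit 557103) (nat_lit 14) (.e (nat_lit 180250) (nat_lit 10) (.e (nat_lit 573440) (nat_lit 0) (.e (nat_lit 3067) (nat_lit 190) (.e (nat_lit 483072) (nat_lit 26) .nil))))))) (.g (nat_lit 1) (.e (nat_lit 401276) (nat_lit 0) .nil) .nil)))))) 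
(.nd (nat_lit 7) (.nd (nat_lit 8) (.nd (nat_lit 9) 
(.lf (nat_lit 590954) (.g (nat_lit 1882) (.e (nat_lit 532528) (nat_lit 9) (.e (nat_lit 336324) (nat_lit 18) (.e (nat_lit 204882) (nat_lit 32) (.e (nat_lit 385068) (nat_lit 26) (.e (nat_lit 532566) (nat_lit 15) .nil))))) (.g (nat_lit 0) (.e (nat_lit 399139) (nat_lit 0) .nil) .nil))) 
(.lf (nat_lit 591466) (.g (nat_lit 2124) (.e (nat_lit 532544) (nat_lit 10) (.e (nat_lit 344129) (nat_lit 26) (.e (nat_lit 557097) (nat_lit 13) (.e (nat_lit 172062) (nat_lit 2) (.e (nat_lit 196624) (nat_lit 9) (.e (nat_lit 489) (nat_lit 38) (.e (nat_lit 483072) (nat_lit 26) .nil))))))) (.g (nat_lit 1) (.e (nat_lit 400956) (nat_lit 0) .nil) .nil)))) (.nd (nat_lit 9) 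
(.lf (nat_lit 591210) (.g (nat_lit 6081) (.e (nat_lit 532535) (nat_lit 9) (.e (nat_lit 336099) (nat_lit 9) (.e (nat_lit 336013) (nat_lit 2) (.e (nat_lit 90134) (nat_lit 9) (.e (nat_lit 2828) (nat_lit 182) (.e (nat_lit 409646) (nat_lit 18) (.e (nat_lit 303112) (nat_lit 0) (.e (nat_lit 3230) (nat_lit 197) .nil)))))))) (.g (nat_lit 1) (.e (nat_lit 400067) (nat_lit 0) .nil) .nil))) 
(.lf (nat_lit 591722) (.g (nat_lit 2358) (.e (nat_lit 532544) (nat_lit 10) (.e (nat_lit 344132) (nat_lit 26) (.e (nat_lit 557105) (nat_lit 14) (.e (nat_lit 180252) (nat_lit 10) (.e (nat_lit 581376) (nat_lit 0) (.e (nat_lit 3064) (nat_lit 190) (.e (nat_lit 483072) (nat_lit 26) .nil))))))) (.g (nat_lit 1) (.e (nat_lit 401212) (nat_lit 0) .nil) .nil))))) (.nd (nat_lit 8) (.nd (nat_lit 9) 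
(.lf (nat_lit 591082) (.g (nat_lit 3217) (.e (nat_lit 532532) (nat_lit 9) (.e (nat_lit 336324) (nat_lit 18) (.e (nat_lit 204882) (nat_lit 32) (.e (nat_lit 385065) (nat_lit 26) (.e (nat_lit 532563) (nat_lit 15) (.e (nat_lit 385066) (nat_lit 26) .nil)))))) (.g (nat_lit 1) (.e (nat_lit 399701) (nat_lit 0) .nil) .nil))) 
(.lf (nat_lit 591594) (.g (nat_lit 2630) (.e (nat_lit 532544) (nat_lit 10) (.e (nat_lit 344131) (nat_lit 26) (.e (nat_lit 557100) (nat_lit 13) (.e (nat_lit 172062) (nat_lit 2) (.e (nat_lit 196624) (nat_lit 9) (.e (nat_lit 489) (nat_lit 38) (.e (nat_lit 483072) (nat_lit 26) .nil))))))) (.g (nat_lit 1) (.e (nat_lit 401084) (nat_lit 0) .nil) .nil)))) (.nd (nat_lit 9) 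
(.lf (nat_lit 591338) (.g (nat_lit 6210) (.e (nat_lit 532535) (nat_lit 9) (.e (nat_lit 336176) (nat_lit 10) (.e (nat_lit 344130) (nat_lit 26) (.e (nat_lit 557090) (nat_lit 12) (.e (nat_lit 164022) (nat_lit 46) (.e (nat_lit 704629) (nat_lit 9) (.e (nat_lit 442) (nat_lit 33) (.e (nat_lit 434234) (nat_lit 23) .nil)))))))) (.g (nat_lit 1) (.e (nat_lit 400637) (nat_lit 0) .nil) .nil))) 
(.lf (nat_lit 591850) (.g (nat_lit 3303) (.e (nat_lit 532544) (nat_lit 10) (.e (nat_lit 344133) (nat_lit 26) (.e (nat_lit 557105) (nat_lit 14) (.e (nat_lit 180252) (nat_lit 10) (.e (nat_lit 573475) (nat_lit 12) (.e (nat_lit 57506) (nat_lit 39) (.e (nat_lit 647180) (nat_lit 3) (.e (nat_lit 163962) (nat_lit 25) .nil)))))))) (.g (nat_lit 1) (.e (nat_lit 401340) (nat_lit 0) .nil) .nil)))))))) 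
(.nd (nat_lit 5) (.nd (nat_lit 6) (.nd (nat_lit 7) (.nd (nat_lit 8) (.nd (nat_lit 9) 
(.lf (nat_lit 590874) (.g (nat_lit 2348) (.e (nat_lit 532523) (nat_lit 7) (.e (nat_lit 327424) (nat_lit 16) (.e (nat_lit 286733) (nat_lit 2) (.e (nat_lit 90178) (nat_lit 15) (.e (nat_lit 188424) (nat_lit 20) (.e (nat_lit 3238) (nat_lit 197) .nil)))))) (.g (nat_lit 1) (.e (nat_lit 398987) (nat_lit 0) .nil) .nil))) 
(.lf (nat_lit 591386) (.g (nat_lit 2004) (.e (nat_lit 532542) (nat_lit 9) (.e (nat_lit 336194) (nat_lit 12) (.e (nat_lit 385066) (nat_lit 26) (.e (nat_lit 532513) (nat_lit 3) (.e (nat_lit 114695) (nat_lit 11) .nil))))) (.g (nat_lit 0) (.e (nat_lit 400854) (nat_lit 0) .nil) .nil)))) (.nd (nat_lit 9) 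
(.lf (nat_lit 591130) (.g (nat_lit 2281) (.e (nat_lit 532534) (nat_lit 9) (.e (nat_lit 336019) (nat_lit 3) (.e (nat_lit 98342) (nat_lit 20) (.e (nat_lit 221211) (nat_lit 22) (.e (nat_lit 204544) (nat_lit 19) .nil))))) (.g (nat_lit 0) (.e (nat_lit 399802) (nat_lit 0) .nil) .nil))) 
(.lf (nat_lit 591642) (.g (nat_lit 1924) (.e (nat_lit 532544) (nat_lit 10) (.e (nat_lit 344131) (nat_lit 26) (.e (nat_lit 557105) (nat_lit 14) (.e (nat_lit 180252) (nat_lit 10) (.e (nat_lit 581376) (nat_lit 0) (.e (nat_lit 3064) (nat_lit 190) (.e (nat_lit 483072) (nat_lit 26) .nil))))))) (.g (nat_lit 1) (.e (nat_lit 401132) (nat_lit 0) .nil) .nil))))) (.nd (nat_lit 8) (.nd (nat_lit 9) 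
(.lf (nat_lit 591002) (.g (nat_lit 477) (.e (nat_lit 532529) (nat_lit 9) (.e (nat_lit 336336) (nat_lit 20) (.e (nat_lit 221210) (nat_lit 22) .nil))) (.g (nat_lit 0) (.e (nat_lit 399351) (nat_lit 0) .nil) .nil))) 
(.lf (nat_lit 591514) (.g (nat_lit 3643) (.e (nat_lit 532544) (nat_lit 10) (.e (nat_lit 344130) (nat_lit 26) (.e (nat_lit 557097) (nat_lit 13) (.e (nat_lit 172045) (nat_lit 0) (.e (nat_lit 3307) (nat_lit 202) (.e (nat_lit 573446) (nat_lit 0) (.e (nat_lit 3067) (nat_lit 190) (.e (nat_lit 483072) (nat_lit 26) .nil)))))))) (.g (nat_lit 1) (.e (nat_lit 401004) (nat_lit 0) .nil) .nil)))) 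
(.nd (nat_lit 9) 
(.lf (nat_lit 591258) (.g (nat_lit 5458) (.e (nat_lit 532535) (nat_lit 9) (.e (nat_lit 336099) (nat_lit 9) (.e (nat_lit 336013) (nat_lit 2) (.e (nat_lit 90170) (nat_lit 13) (.e (nat_lit 172042) (nat_lit 0) (.e (nat_lit 3366) (nat_lit 208) (.e (nat_lit 622635) (nat_lit 16) (.e (nat_lit 163965) (nat_lit 25) .nil)))))))) (.g (nat_lit 1) (.e (nat_lit 400145) (nat_lit 0) .nil) .nil))) 
(.lf (nat_lit 591770) (.g (nat_lit 3357) (.e (nat_lit 532544) (nat_lit 10) (.e (nat_lit 344133) (nat_lit 26) (.e (nat_lit 557098) (nat_lit 13) (.e (nat_lit 172067) (nat_lit 3) (.e (nat_lit 212736) (nat_lit 15) (.e (nat_lit 483072) (nat_lit 26) .nil)))))) (.g (nat_lit 1) (.e (nat_lit 401260) (nat_lit 0) .nil) .nil)))))) (.nd (nat_lit 7) (.nd (nat_lit 8) (.nd (nat_lit 9) 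
(.lf (nat_lit 590938) (.g (nat_lit 2757) (.e (nat_lit 532528) (nat_lit 9) (.e (nat_lit 336019) (nat_lit 3) (.e (nat_lit 98342) (nat_lit 20) (.e (nat_lit 221212) (nat_lit 22) (.e (nat_lit 196660) (nat_lit 12) .nil))))) (.g (nat_lit 0) (.e (nat_lit 399119) (nat_lit 0) .nil) .nil))) 
(.lf (nat_lit 591450) (.g (nat_lit 1759) (.e (nat_lit 532544) (nat_lit 10) (.e (nat_lit 344118) (nat_lit 21) (.e (nat_lit 516131) (nat_lit 3) (.e (nat_lit 221211) (nat_lit 22) (.e (nat_lit 196616) (nat_lit 0) (.e (nat_lit 3067) (nat_lit 190) (.e (nat_lit 483072) (nat_lit 26) .nil))))))) (.g (nat_lit 1) (.e (nat_lit 400939) (nat_lit 0) .nil) .nil)))) (.nd (nat_lit 9) 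
(.lf (nat_lit 591194) (.g (nat_lit 3248) (.e (nat_lit 532535) (nat_lit 9) (.e (nat_lit 336099) (nat_lit 9) (.e (nat_lit 336013) (nat_lit 2) (.e (nat_lit 90130) (nat_lit 9) (.e (nat_lit 2830) (nat_lit 182) .nil))))) (.g (nat_lit 0) (.e (nat_lit 400037) (nat_lit 0) .nil) .nil))) 
(.lf (nat_lit 591706) (.g (nat_lit 2468) (.e (nat_lit 532544) (nat_lit 10) (.e (nat_lit 344132) (nat_lit 26) (.e (nat_lit 557105) (nat_lit 14) (.e (nat_lit 180251) (nat_lit 10) (.e (nat_lit 573442) (nat_lit 0) (.e (nat_lit 3062) (nat_lit 190) (.e (nat_lit 483072) (nat_lit 26) .nil))))))) (.g (nat_lit 1) (.e (nat_lit 401196) (nat_lit 0) .nil) .nil))))) (.nd (nat_lit 8) (.nd (nat_lit 9) 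
(.lf (nat_lit 591066) (.g (nat_lit 3006) (.e (nat_lit 532531) (nat_lit 9) (.e (nat_lit 336336) (nat_lit 20) (.e (nat_lit 221212) (nat_lit 22) (.e (nat_lit 196656) (nat_lit 11) (.e (nat_lit 16448) (nat_lit 10) (.e (nat_lit 434231) (nat_lit 23) .nil)))))) (.g (nat_lit 1) (.e (nat_lit 399647) (nat_lit 0) .nil) .nil))) 
(.lf (nat_lit 591578) (.g (nat_lit 2221) (.e (nat_lit 532544) (nat_lit 10) (.e (nat_lit 344130) (nat_lit 26) (.e (nat_lit 557104) (nat_lit 14) (.e (nat_lit 180252) (nat_lit 10) (.e (nat_lit 581376) (nat_lit 0) (.e (nat_lit 3074) (nat_lit 190) (.e (nat_lit 483072) (nat_lit 26) .nil))))))) (.g (nat_lit 1) (.e (nat_lit 401068) (nat_lit 0) .nil) .nil)))) (.nd (nat_lit 9) 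
(.lf (nat_lit 591322) (.g (nat_lit 6350) (.e (nat_lit 532535) (nat_lit 9) (.e (nat_lit 336173) (nat_lit 10) (.e (nat_lit 344126) (nat_lit 25) (.e (nat_lit 548889) (nat_lit 9) (.e (nat_lit 65630) (nat_lit 14) (.e (nat_lit 401412) (nat_lit 0) (.e (nat_lit 3237) (nat_lit 197) .nil))))))) (.g (nat_lit 1) (.e (nat_lit 400478) (nat_lit 0) .nil) .nil))) 
(.lf (nat_lit 591834) (.g (nat_lit 2869) (.e (nat_lit 532544) (nat_lit 10) (.e (nat_lit 344133) (nat_lit 26) (.e (nat_lit 557105) (nat_lit 14) (.e (nat_lit 180252) (nat_lit 10) (.e (nat_lit 581376) (nat_lit 0) (.e (nat_lit 3070) (nat_lit 190) (.e (nat_lit 483072) (nat_lit 26) .nil))))))) (.g (nat_lit 1) (.e (nat_lit 401324) (nat_lit 0) .nil) .nil))))))) 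
(.nd (nat_lit 6) (.nd (nat_lit 7) (.nd (nat_lit 8) (.nd (nat_lit 9) 
(.lf (nat_lit 590906) (.g (nat_lit 1814) (.e (nat_lit 532526) (nat_lit 8) (.e (nat_lit 327699) (nat_lit 8) (.e (nat_lit 303119) (nat_lit 3) (.e (nat_lit 204846) (nat_lit 24) .nil)))) (.g (nat_lit 0) (.e (nat_lit 399057) (nat_lit 0) .nil) .nil))) 
(.lf (nat_lit 591418) (.g (nat_lit 1655) (.e (nat_lit 532543) (nat_lit 10) (.e (nat_lit 344133) (nat_lit 26) (.e (nat_lit 557105) (nat_lit 14) (.e (nat_lit 188160) (nat_lit 1) .nil)))) (.g (nat_lit 0) (.e (nat_lit 400899) (nat_lit 0) .nil) .nil)))) (.nd (nat_lit 9) 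
(.lf (nat_lit 591162) (.g (nat_lit 2015) (.e (nat_lit 532534) (nat_lit 9) (.e (nat_lit 336326) (nat_lit 18) (.e (nat_lit 204882) (nat_lit 32) (.e (nat_lit 385066) (nat_lit 26) (.e (nat_lit 532562) (nat_lit 15) .nil))))) (.g (nat_lit 0) (.e (nat_lit 399858) (nat_lit 0) .nil) .nil))) 
(.lf (nat_lit 591674) (.g (nat_lit 3524) (.e (nat_lit 532544) (nat_lit 10) (.e (nat_lit 344132) (nat_lit 26) (.e (nat_lit 557101) (nat_lit 13) (.e (nat_lit 172051) (nat_lit 0) (.e (nat_lit 3307) (nat_lit 202) (.e (nat_lit 573446) (nat_lit 0) (.e (nat_lit 3067) (nat_lit 190) (.e (nat_lit 483072) (nat_lit 26) .nil)))))))) (.g (nat_lit 1) (.e (nat_lit 401164) (nat_lit 0) .nil) .nil))))) 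
(.nd (nat_lit 8) (.nd (nat_lit 9) 
(.lf (nat_lit 591034) (.g (nat_lit 3741) (.e (nat_lit 532530) (nat_lit 9) (.e (nat_lit 336326) (nat_lit 18) (.e (nat_lit 204854) (nat_lit 26) (.e (nat_lit 336324) (nat_lit 18) (.e (nat_lit 204880) (nat_lit 32) (.e (nat_lit 385066) (nat_lit 26) .nil)))))) (.g (nat_lit 1) (.e (nat_lit 399497) (nat_lit 0) .nil) .nil))) 
(.lf (nat_lit 591546) (.g (nat_lit 2649) (.e (nat_lit 532544) (nat_lit 10) (.e (nat_lit 344130) (nat_lit 26) (.e (nat_lit 557103) (nat_lit 14) (.e (nat_lit 180250) (nat_lit 10) (.e (nat_lit 573442) (nat_lit 0) (.e (nat_lit 2887) (nat_lit 184) (.e (nat_lit 426412) (nat_lit 15) (.e (nat_lit 7936) (nat_lit 121) .nil)))))))) (.g (nat_lit 1) (.e (nat_lit 401036) (nat_lit 0) .nil) .nil)))) 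
(.nd (nat_lit 9) 
(.lf (nat_lit 591290) (.g (nat_lit 1657) (.e (nat_lit 532535) (nat_lit 9) (.e (nat_lit 336099) (nat_lit 9) (.e (nat_lit 343808) (nat_lit 3) (.e (nat_lit 98350) (nat_lit 24) (.e (nat_lit 409616) (nat_lit 10) (.e (nat_lit 7936) (nat_lit 318) (.e (nat_lit 237312) (nat_lit 25) .nil))))))) (.g (nat_lit 1) (.e (nat_lit 400394) (nat_lit 0) .nil) .nil))) 
(.lf (nat_lit 591802) (.g (nat_lit 2669) (.e (nat_lit 532544) (nat_lit 10) (.e (nat_lit 344133) (nat_lit 26) (.e (nat_lit 557105) (nat_lit 14) (.e (nat_lit 180227) (nat_lit 0) (.e (nat_lit 4300) (nat_lit 256) (.e (nat_lit 229419) (nat_lit 18) (.e (nat_lit 483072) (nat_lit 26) .nil))))))) (.g (nat_lit 1) (.e (nat_lit 401292) (nat_lit 0) .nil) .nil)))))) 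
(.nd (nat_lit 7) (.nd (nat_lit 8) (.nd (nat_lit 9) 
(.lf (nat_lit 590970) (.g (nat_lit 1930) (.e (nat_lit 532529) (nat_lit 9) (.e (nat_lit 336326) (nat_lit 18) (.e (nat_lit 204863) (nat_lit 27) (.e (nat_lit 344129) (nat_lit 26) (.e (nat_lit 557097) (nat_lit 13) .nil))))) (.g (nat_lit 0) (.e (nat_lit 399310) (nat_lit 0) .nil) .nil))) 
(.lf (nat_lit 591482) (.g (nat_lit 2275) (.e (nat_lit 532544) (nat_lit 10) (.e (nat_lit 344129) (nat_lit 26) (.e (nat_lit 557103) (nat_lit 14) (.e (nat_lit 180244) (nat_lit 5) (.e (nat_lit 532579) (nat_lit 26) .nil))))) (.g (nat_lit 0) (.e (nat_lit 400972) (nat_lit 0) .nil) .nil)))) (.nd (nat_lit 9) 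
(.lf (nat_lit 591226) (.g (nat_lit 3929) (.e (nat_lit 532535) (nat_lit 9) (.e (nat_lit 336099) (nat_lit 9) (.e (nat_lit 336013) (nat_lit 2) (.e (nat_lit 90165) (nat_lit 12) (.e (nat_lit 164208) (nat_lit 176) (.e (nat_lit 2819) (nat_lit 181) (.e (nat_lit 311300) (nat_lit 0) (.e (nat_lit 3236) (nat_lit 197) .nil)))))))) (.g (nat_lit 1) (.e (nat_lit 400097) (nat_lit 0) .nil) .nil))) 
(.lf (nat_lit 591738) (.g (nat_lit 2052) (.e (nat_lit 532544) (nat_lit 10) (.e (nat_lit 344133) (nat_lit 26) (.e (nat_lit 557096) (nat_lit 13) (.e (nat_lit 172064) (nat_lit 2) (.e (nat_lit 196622) (nat_lit 9) (.e (nat_lit 488) (nat_lit 38) (.e (nat_lit 483072) (nat_lit 26) .nil))))))) (.g (nat_lit 1) (.e (nat_lit 401228) (nat_lit 0) .nil) .nil))))) (.nd (nat_lit 8) (.nd (nat_lit 9) 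
(.lf (nat_lit 591098) (.g (nat_lit 1530) (.e (nat_lit 532533) (nat_lit 9) (.e (nat_lit 336019) (nat_lit 3) (.e (nat_lit 98341) (nat_lit 20) (.e (nat_lit 221187) (nat_lit 0) .nil)))) (.g (nat_lit 0) (.e (nat_lit 399737) (nat_lit 0) .nil) .nil))) 
(.lf (nat_lit 591610) (.g (nat_lit 1539) (.e (nat_lit 532544) (nat_lit 10) (.e (nat_lit 344131) (nat_lit 26) (.e (nat_lit 557103) (nat_lit 14) (.e (nat_lit 180249) (nat_lit 10) .nil)))) (.g (nat_lit 0) (.e (nat_lit 401100) (nat_lit 0) .nil) .nil)))) (.nd (nat_lit 9) 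
(.lf (nat_lit 591354) (.g (nat_lit 3821) (.e (nat_lit 532535) (nat_lit 9) (.e (nat_lit 336175) (nat_lit 10) (.e (nat_lit 344130) (nat_lit 26) (.e (nat_lit 557087) (nat_lit 11) (.e (nat_lit 24617) (nat_lit 7) (.e (nat_lit 319504) (nat_lit 10) (.e (nat_lit 7936) (nat_lit 45) .nil))))))) (.g (nat_lit 1) (.e (nat_lit 400756) (nat_lit 0) .nil) .nil))) 
(.lf (nat_lit 591866) (.g (nat_lit 2686) (.e (nat_lit 532546) (nat_lit 11) (.e (nat_lit 352313) (nat_lit 23) (.e (nat_lit 98350) (nat_lit 24) (.e (nat_lit 409648) (nat_lit 18) (.e (nat_lit 303108) (nat_lit 0) (.e (nat_lit 3238) (nat_lit 197) .nil)))))) (.g (nat_lit 1) (.e (nat_lit 401370) (nat_lit 0) .nil) .nil)))))))))) 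
(.nd (nat_lit 3) (.nd (nat_lit 4) (.nd (nat_lit 5) (.nd (nat_lit 6) (.nd (nat_lit 7) 
(.nd (nat_lit 8) (.nd (nat_lit 9) 
(.lf (nat_lit 590854) (.g (nat_lit 1140) (.e (nat_lit 532523) (nat_lit 7) (.e (nat_lit 319534) (nat_lit 16) (.e (nat_lit 286734) (nat_lit 3) (.e (nat_lit 98381) (nat_lit 31) .nil)))) (.g (nat_lit 0) (.e (nat_lit 398966) (nat_lit 0) .nil) .nil))) 
(.lf (nat_lit 591366) (.g (nat_lit 4633) (.e (nat_lit 532535) (nat_lit 9) (.e (nat_lit 336178) (nat_lit 10) (.e (nat_lit 344129) (nat_lit 26) (.e (nat_lit 557087) (nat_lit 11) (.e (nat_lit 24617) (nat_lit 7) (.e (nat_lit 319504) (nat_lit 10) (.e (nat_lit 7936) (nat_lit 45) .nil))))))) (.g (nat_lit 1) (.e (nat_lit 400770) (nat_lit 0) .nil) .nil)))) (.nd (nat_lit 9) 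
(.lf (nat_lit 591110) (.g (nat_lit 2184) (.e (nat_lit 532533) (nat_lit 9) (.e (nat_lit 336324) (nat_lit 18) (.e (nat_lit 204854) (nat_lit 26) (.e (nat_lit 336284) (nat_lit 15) .nil)))) (.g (nat_lit 0) (.e (nat_lit 399758) (nat_lit 0) .nil) .nil))) 
(.lf (nat_lit 591622) (.g (nat_lit 2064) (.e (nat_lit 532544) (nat_lit 10) (.e (nat_lit 344131) (nat_lit 26) (.e (nat_lit 557103) (nat_lit 14) (.e (nat_lit 180250) (nat_lit 10) (.e (nat_lit 581376) (nat_lit 0) .nil))))) (.g (nat_lit 0) (.e (nat_lit 401112) (nat_lit 0) .nil) .nil))))) (.nd (nat_lit 8) (.nd (nat_lit 9) 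
(.lf (nat_lit 590982) (.g (nat_lit 3017) (.e (nat_lit 532529) (nat_lit 9) (.e (nat_lit 336326) (nat_lit 18) (.e (nat_lit 204863) (nat_lit 27) (.e (nat_lit 344132) (nat_lit 26) (.e (nat_lit 557101) (nat_lit 13) (.e (nat_lit 172137) (nat_lit 15) (.e (nat_lit 7936) (nat_lit 121) .nil))))))) (.g (nat_lit 1) (.e (nat_lit 399322) (nat_lit 0) .nil) .nil))) 
(.lf (nat_lit 591494) (.g (nat_lit 2412) (.e (nat_lit 532544) (nat_lit 10) (.e (nat_lit 344129) (nat_lit 26) (.e (nat_lit 557104) (nat_lit 14) (.e (nat_lit 180236) (nat_lit 1) (.e (nat_lit 499965) (nat_lit 14) (.e (nat_lit 488) (nat_lit 38) (.e (nat_lit 483072) (nat_lit 26) .nil))))))) (.g (nat_lit 1) (.e (nat_lit 400984) (nat_lit 0) .nil) .nil)))) (.nd (nat_lit 9) 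
(.lf (nat_lit 591238) (.g (nat_lit 2723) (.e (nat_lit 532535) (nat_lit 9) (.e (nat_lit 336099) (nat_lit 9) (.e (nat_lit 336013) (nat_lit 2) (.e (nat_lit 90165) (nat_lit 12) (.e (nat_lit 164210) (nat_lit 176) (.e (nat_lit 2771) (nat_lit 177) (.e (nat_lit 278556) (nat_lit 10) (.e (nat_lit 7936) (nat_lit 45) .nil)))))))) (.g (nat_lit 1) (.e (nat_lit 400109) (nat_lit 0) .nil) .nil))) 
(.lf (nat_lit 591750) (.g (nat_lit 2857) (.e (nat_lit 532544) (nat_lit 10) (.e (nat_lit 344133) (nat_lit 26) (.e (nat_lit 557098) (nat_lit 13) (.e (nat_lit 172051) (nat_lit 0) (.e (nat_lit 3307) (nat_lit 202) (.e (nat_lit 573447) (nat_lit 0) (.e (nat_lit 3067) (nat_lit 190) (.e (nat_lit 483072) (nat_lit 26) .nil)))))))) (.g (nat_lit 1) (.e (nat_lit 401240) (nat_lit 0) .nil) .nil)))))) 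
(.nd (nat_lit 7) (.nd (nat_lit 8) (.nd (nat_lit 9) 
(.lf (nat_lit 590918) (.g (nat_lit 4367) (.e (nat_lit 532526) (nat_lit 8) (.e (nat_lit 327708) (nat_lit 10) (.e (nat_lit 5270) (nat_lit 298) (.e (nat_lit 1229) (nat_lit 91) .nil)))) (.g (nat_lit 0) (.e (nat_lit 399084) (nat_lit 0) .nil) .nil))) 
(.lf (nat_lit 591430) (.g (nat_lit 3286) (.e (nat_lit 532544) (nat_lit 10) (.e (nat_lit 344117) (nat_lit 21) (.e (nat_lit 516129) (nat_lit 3) (.e (nat_lit 221210) (nat_lit 22) (.e (nat_lit 196610) (nat_lit 0) (.e (nat_lit 3067) (nat_lit 190) (.e (nat_lit 483072) (nat_lit 26) .nil))))))) (.g (nat_lit 1) (.e (nat_lit 400919) (nat_lit 0) .nil) .nil)))) (.nd (nat_lit 9) 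
(.lf (nat_lit 591174) (.g (nat_lit 4329) (.e (nat_lit 532535) (nat_lit 9) (.e (nat_lit 336099) (nat_lit 9) (.e (nat_lit 335920) (nat_lit 0) (.e (nat_lit 1848) (nat_lit 124) (.e (nat_lit 557087) (nat_lit 11) (.e (nat_lit 24617) (nat_lit 7) (.e (nat_lit 319504) (nat_lit 10) (.e (nat_lit 7936) (nat_lit 45) .nil)))))))) (.g (nat_lit 1) (.e (nat_lit 399999) (nat_lit 0) .nil) .nil))) 
(.lf (nat_lit 591686) (.g (nat_lit 2140) (.e (nat_lit 532544) (nat_lit 10) (.e (nat_lit 344132) (nat_lit 26) (.e (nat_lit 557101) (nat_lit 13) (.e (nat_lit 172066) (nat_lit 3) (.e (nat_lit 212736) (nat_lit 15) (.e (nat_lit 483072) (nat_lit 26) .nil)))))) (.g (nat_lit 1) (.e (nat_lit 401176) (nat_lit 0) .nil) .nil))))) (.nd (nat_lit 8) (.nd (nat_lit 9) 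
(.lf (nat_lit 591046) (.g (nat_lit 591) (.e (nat_lit 532531) (nat_lit 9) (.e (nat_lit 336019) (nat_lit 3) (.e (nat_lit 98342) (nat_lit 20) .nil))) (.g (nat_lit 0) (.e (nat_lit 399569) (nat_lit 0) .nil) .nil))) 
(.lf (nat_lit 591558) (.g (nat_lit 1799) (.e (nat_lit 532544) (nat_lit 10) (.e (nat_lit 344130) (nat_lit 26) (.e (nat_lit 557104) (nat_lit 14) (.e (nat_lit 180252) (nat_lit 10) (.e (nat_lit 573441) (nat_lit 0) (.e (nat_lit 3064) (nat_lit 190) (.e (nat_lit 483072) (nat_lit 26) .nil))))))) (.g (nat_lit 1) (.e (nat_lit 401048) (nat_lit 0) .nil) .nil)))) (.nd (nat_lit 9) 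
(.lf (nat_lit 591302) (.g (nat_lit 4064) (.e (nat_lit 532535) (nat_lit 9) (.e (nat_lit 336166) (nat_lit 10) (.e (nat_lit 344129) (nat_lit 26) (.e (nat_lit 557087) (nat_lit 11) (.e (nat_lit 24617) (nat_lit 7) (.e (nat_lit 319505) (nat_lit 10) (.e (nat_lit 7936) (nat_lit 45) .nil))))))) (.g (nat_lit 1) (.e (nat_lit 400419) (nat_lit 0) .nil) .nil))) 
(.lf (nat_lit 591814) (.g (nat_lit 3087) (.e (nat_lit 532544) (nat_lit 10) (.e (nat_lit 344133) (nat_lit 26) (.e (nat_lit 557105) (nat_lit 14) (.e (nat_lit 180251) (nat_lit 10) (.e (nat_lit 573447) (nat_lit 0) .nil))))) (.g (nat_lit 0) (.e (nat_lit 401304) (nat_lit 0) .nil) .nil))))))) (.nd (nat_lit 6) (.nd (nat_lit 7) (.nd (nat_lit 8) (.nd (nat_lit 9) 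
(.lf (nat_lit 590886) (.g (nat_lit 3640) (.e (nat_lit 532525) (nat_lit 8) (.e (nat_lit 327717) (nat_lit 17) (.e (nat_lit 294927) (nat_lit 2) (.e (nat_lit 90170) (nat_lit 13) (.e (nat_lit 172113) (nat_lit 10) (.e (nat_lit 434231) (nat_lit 23) .nil)))))) (.g (nat_lit 1) (.e (nat_lit 399021) (nat_lit 0) .nil) .nil))) 
(.lf (nat_lit 591398) (.g (nat_lit 1818) (.e (nat_lit 532543) (nat_lit 10) (.e (nat_lit 344117) (nat_lit 21) (.e (nat_lit 516099) (nat_lit 0) (.e (nat_lit 3605) (nat_lit 225) .nil)))) (.g (nat_lit 0) (.e (nat_lit 400879) (nat_lit 0) .nil) .nil)))) (.nd (nat_lit 9) 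
(.lf (nat_lit 591142) (.g (nat_lit 647) (.e (nat_lit 532534) (nat_lit 9) (.e (nat_lit 336324) (nat_lit 18) (.e (nat_lit 204851) (nat_lit 26) .nil))) (.g (nat_lit 0) (.e (nat_lit 399834) (nat_lit 0) .nil) .nil))) 
(.lf (nat_lit 591654) (.g (nat_lit 2175) (.e (nat_lit 532544) (nat_lit 10) (.e (nat_lit 344132) (nat_lit 26) (.e (nat_lit 557100) (nat_lit 13) (.e (nat_lit 172063) (nat_lit 2) .nil)))) (.g (nat_lit 0) (.e (nat_lit 401144) (nat_lit 0) .nil) .nil))))) (.nd (nat_lit 8) (.nd (nat_lit 9) 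
(.lf (nat_lit 591014) (.g (nat_lit 1425) (.e (nat_lit 532530) (nat_lit 9) (.e (nat_lit 336324) (nat_lit 18) (.e (nat_lit 204854) (nat_lit 26) (.e (nat_lit 343808) (nat_lit 18) .nil)))) (.g (nat_lit 0) (.e (nat_lit 399467) (nat_lit 0) .nil) .nil))) 
(.lf (nat_lit 591526) (.g (nat_lit 2276) (.e (nat_lit 532544) (nat_lit 10) (.e (nat_lit 344130) (nat_lit 26) (.e (nat_lit 557097) (nat_lit 13) (.e (nat_lit 172067) (nat_lit 3) (.e (nat_lit 204821) (nat_lit 17) .nil))))) (.g (nat_lit 0) (.e (nat_lit 401016) (nat_lit 0) .nil) .nil)))) (.nd (nat_lit 9) 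
(.lf (nat_lit 591270) (.g (nat_lit 3861) (.e (nat_lit 532535) (nat_lit 9) (.e (nat_lit 336099) (nat_lit 9) (.e (nat_lit 336028) (nat_lit 3) (.e (nat_lit 98349) (nat_lit 24) (.e (nat_lit 409646) (nat_lit 18) (.e (nat_lit 303106) (nat_lit 0) (.e (nat_lit 3241) (nat_lit 197) .nil))))))) (.g (nat_lit 1) (.e (nat_lit 400321) (nat_lit 0) .nil) .nil))) 
(.lf (nat_lit 591782) (.g (nat_lit 2391) (.e (nat_lit 532544) (nat_lit 10) (.e (nat_lit 344133) (nat_lit 26) (.e (nat_lit 557103) (nat_lit 14) (.e (nat_lit 180243) (nat_lit 5) (.e (nat_lit 532579) (nat_lit 26) .nil))))) (.g (nat_lit 0) (.e (nat_lit 401272) (nat_lit 0) .nil) .nil)))))) (.nd (nat_lit 7) (.nd (nat_lit 8) (.nd (nat_lit 9) 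
(.lf (nat_lit 590950) (.g (nat_lit 2013) (.e (nat_lit 532528) (nat_lit 9) (.e (nat_lit 336324) (nat_lit 18) (.e (nat_lit 204882) (nat_lit 32) (.e (nat_lit 385065) (nat_lit 26) (.e (nat_lit 532563) (nat_lit 15) .nil))))) (.g (nat_lit 0) (.e (nat_lit 399134) (nat_lit 0) .nil) .nil))) 
(.lf (nat_lit 591462) (.g (nat_lit 3941) (.e (nat_lit 532544) (nat_lit 10) (.e (nat_lit 344129) (nat_lit 26) (.e (nat_lit 557097) (nat_lit 13) (.e (nat_lit 172045) (nat_lit 0) (.e (nat_lit 3307) (nat_lit 202) (.e (nat_lit 573446) (nat_lit 0) (.e (nat_lit 3067) (nat_lit 190) (.e (nat_lit 483072) (nat_lit 26) .nil)))))))) (.g (nat_lit 1) (.e (nat_lit 400952) (nat_lit 0) .nil) .nil)))) 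
(.nd (nat_lit 9) 
(.lf (nat_lit 591206) (.g (nat_lit 4332) (.e (nat_lit 532535) (nat_lit 9) (.e (nat_lit 336099) (nat_lit 9) (.e (nat_lit 336013) (nat_lit 2) (.e (nat_lit 90134) (nat_lit 9) (.e (nat_lit 2825) (nat_lit 182) .nil))))) (.g (nat_lit 0) (.e (nat_lit 400063) (nat_lit 0) .nil) .nil))) 
(.lf (nat_lit 591718) (.g (nat_lit 2240) (.e (nat_lit 532544) (nat_lit 10) (.e (nat_lit 344132) (nat_lit 26) (.e (nat_lit 557105) (nat_lit 14) (.e (nat_lit 180252) (nat_lit 10) (.e (nat_lit 581376) (nat_lit 0) (.e (nat_lit 3056) (nat_lit 190) (.e (nat_lit 483072) (nat_lit 26) .nil))))))) (.g (nat_lit 1) (.e (nat_lit 401208) (nat_lit 0) .nil) .nil))))) (.nd (nat_lit 8) (.nd (nat_lit 9) 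
(.lf (nat_lit 591078) (.g (nat_lit 3523) (.e (nat_lit 532532) (nat_lit 9) (.e (nat_lit 336324) (nat_lit 18) (.e (nat_lit 204854) (nat_lit 26) (.e (nat_lit 336324) (nat_lit 18) (.e (nat_lit 204882) (nat_lit 32) (.e (nat_lit 385066) (nat_lit 26) .nil)))))) (.g (nat_lit 1) (.e (nat_lit 399697) (nat_lit 0) .nil) .nil))) 
(.lf (nat_lit 591590) (.g (nat_lit 2745) (.e (nat_lit 532544) (nat_lit 10) (.e (nat_lit 344131) (nat_lit 26) (.e (nat_lit 557098) (nat_lit 13) (.e (nat_lit 172067) (nat_lit 3) (.e (nat_lit 204813) (nat_lit 9) .nil))))) (.g (nat_lit 0) (.e (nat_lit 401080) (nat_lit 0) .nil) .nil)))) (.nd (nat_lit 9) 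
(.lf (nat_lit 591334) (.g (nat_lit 2212) (.e (nat_lit 532535) (nat_lit 9) (.e (nat_lit 336176) (nat_lit 10) (.e (nat_lit 344130) (nat_lit 26) (.e (nat_lit 557087) (nat_lit 11) (.e (nat_lit 24577) (nat_lit 0) (.e (nat_lit 7936) (nat_lit 360) (.e (nat_lit 163962) (nat_lit 25) .nil))))))) (.g (nat_lit 1) (.e (nat_lit 400581) (nat_lit 0) .nil) .nil))) 
(.lf (nat_lit 591846) (.g (nat_lit 3594) (.e (nat_lit 532544) (nat_lit 10) (.e (nat_lit 344133) (nat_lit 26) (.e (nat_lit 557105) (nat_lit 14) (.e (nat_lit 180252) (nat_lit 10) (.e (nat_lit 573474) (nat_lit 12) (.e (nat_lit 57348) (nat_lit 0) (.e (nat_lit 5438) (nat_lit 306) (.e (nat_lit 2604) (nat_lit 163) (.e (nat_lit 163962) (nat_lit 25) .nil))))))))) (.g (nat_lit 1) (.e (nat_lit 401336) (nat_lit 0) .nil) .nil)))))))) 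
(.nd (nat_lit 5) (.nd (nat_lit 6) (.nd (nat_lit 7) (.nd (nat_lit 8) (.nd (nat_lit 9) 
(.lf (nat_lit 590870) (.g (nat_lit 3445) (.e (nat_lit 532523) (nat_lit 7) (.e (nat_lit 319534) (nat_lit 16) (.e (nat_lit 286735) (nat_lit 3) (.e (nat_lit 98370) (nat_lit 28) (.e (nat_lit 442405) (nat_lit 20) (.e (nat_lit 3238) (nat_lit 197) .nil)))))) (.g (nat_lit 1) (.e (nat_lit 398982) (nat_lit 0) .nil) .nil))) 
(.lf (nat_lit 591382) (.g (nat_lit 2181) (.e (nat_lit 532542) (nat_lit 9) (.e (nat_lit 336088) (nat_lit 9) (.e (nat_lit 336324) (nat_lit 18) (.e (nat_lit 204837) (nat_lit 20) (.e (nat_lit 114696) (nat_lit 11) .nil))))) (.g (nat_lit 0) (.e (nat_lit 400845) (nat_lit 0) .nil) .nil)))) (.nd (nat_lit 9) 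
(.lf (nat_lit 591126) (.g (nat_lit 713) (.e (nat_lit 532534) (nat_lit 9) (.e (nat_lit 336019) (nat_lit 3) (.e (nat_lit 98342) (nat_lit 20) .nil))) (.g (nat_lit 0) (.e (nat_lit 399797) (nat_lit 0) .nil) .nil))) 
(.lf (nat_lit 591638) (.g (nat_lit 3000) (.e (nat_lit 532544) (nat_lit 10) (.e (nat_lit 344131) (nat_lit 26) (.e (nat_lit 557105) (nat_lit 14) (.e (nat_lit 180252) (nat_lit 10) (.e (nat_lit 573446) (nat_lit 0) .nil))))) (.g (nat_lit 0) (.e (nat_lit 401128) (nat_lit 0) .nil) .nil))))) (.nd (nat_lit 8) (.nd (nat_lit 9) 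
(.lf (nat_lit 590998) (.g (nat_lit 3396) (.e (nat_lit 532529) (nat_lit 9) (.e (nat_lit 336326) (nat_lit 18) (.e (nat_lit 204863) (nat_lit 27) (.e (nat_lit 344133) (nat_lit 26) (.e (nat_lit 557098) (nat_lit 13) (.e (nat_lit 172136) (nat_lit 15) (.e (nat_lit 7936) (nat_lit 121) .nil))))))) (.g (nat_lit 1) (.e (nat_lit 399338) (nat_lit 0) .nil) .nil))) 
(.lf (nat_lit 591510) (.g (nat_lit 2353) (.e (nat_lit 532544) (nat_lit 10) (.e (nat_lit 344129) (nat_lit 26) (.e (nat_lit 557104) (nat_lit 14) (.e (nat_lit 180252) (nat_lit 10) (.e (nat_lit 581376) (nat_lit 4) .nil))))) (.g (nat_lit 0) (.e (nat_lit 401000) (nat_lit 0) .nil) .nil)))) (.nd (nat_lit 9) 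
(.lf (nat_lit 591254) (.g (nat_lit 1104) (.e (nat_lit 532535) (nat_lit 9) (.e (nat_lit 336099) (nat_lit 9) (.e (nat_lit 336013) (nat_lit 2) (.e (nat_lit 98048) (nat_lit 12) (.e (nat_lit 164209) (nat_lit 176) (.e (nat_lit 2771) (nat_lit 177) (.e (nat_lit 278551) (nat_lit 10) (.e (nat_lit 7936) (nat_lit 45) .nil)))))))) (.g (nat_lit 1) (.e (nat_lit 400131) (nat_lit 0) .nil) .nil))) 
(.lf (nat_lit 591766) (.g (nat_lit 2599) (.e (nat_lit 532544) (nat_lit 10) (.e (nat_lit 344133) (nat_lit 26) (.e (nat_lit 557098) (nat_lit 13) (.e (nat_lit 172066) (nat_lit 3) (.e (nat_lit 212736) (nat_lit 15) (.e (nat_lit 483072) (nat_lit 26) .nil)))))) (.g (nat_lit 1) (.e (nat_lit 401256) (nat_lit 0) .nil) .nil)))))) (.nd (nat_lit 7) (.nd (nat_lit 8) (.nd (nat_lit 9) 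
(.lf (nat_lit 590934) (.g (nat_lit 2207) (.e (nat_lit 532527) (nat_lit 9) (.e (nat_lit 336324) (nat_lit 18) (.e (nat_lit 204854) (nat_lit 26) (.e (nat_lit 336324) (nat_lit 18) (.e (nat_lit 204882) (nat_lit 32) .nil))))) (.g (nat_lit 0) (.e (nat_lit 399113) (nat_lit 0) .nil) .nil))) 
(.lf (nat_lit 591446) (.g (nat_lit 2528) (.e (nat_lit 532544) (nat_lit 10) (.e (nat_lit 344118) (nat_lit 21) (.e (nat_lit 516129) (nat_lit 3) (.e (nat_lit 221210) (nat_lit 22) (.e (nat_lit 196608) (nat_lit 0) (.e (nat_lit 3067) (nat_lit 190) (.e (nat_lit 483072) (nat_lit 26) .nil))))))) (.g (nat_lit 1) (.e (nat_lit 400935) (nat_lit 0) .nil) .nil)))) (.nd (nat_lit 9) 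
(.lf (nat_lit 591190) (.g (nat_lit 2622) (.e (nat_lit 532535) (nat_lit 9) (.e (nat_lit 336099) (nat_lit 9) (.e (nat_lit 336013) (nat_lit 2) (.e (nat_lit 90121) (nat_lit 9) .nil)))) (.g (nat_lit 0) (.e (nat_lit 400025) (nat_lit 0) .nil) .nil))) 
(.lf (nat_lit 591702) (.g (nat_lit 2286) (.e (nat_lit 532544) (nat_lit 10) (.e (nat_lit 344132) (nat_lit 26) (.e (nat_lit 557105) (nat_lit 14) (.e (nat_lit 180227) (nat_lit 0) (.e (nat_lit 4301) (nat_lit 256) (.e (nat_lit 229419) (nat_lit 18) (.e (nat_lit 483072) (nat_lit 26) .nil))))))) (.g (nat_lit 1) (.e (nat_lit 401192) (nat_lit 0) .nil) .nil))))) (.nd (nat_lit 8) (.nd (nat_lit 9) 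
(.lf (nat_lit 591062) (.g (nat_lit 910) (.e (nat_lit 532531) (nat_lit 9) (.e (nat_lit 336324) (nat_lit 18) (.e (nat_lit 204882) (nat_lit 32) (.e (nat_lit 385065) (nat_lit 26) .nil)))) (.g (nat_lit 0) (.e (nat_lit 399592) (nat_lit 0) .nil) .nil))) 
(.lf (nat_lit 591574) (.g (nat_lit 2119) (.e (nat_lit 532544) (nat_lit 10) (.e (nat_lit 344130) (nat_lit 26) (.e (nat_lit 557104) (nat_lit 14) (.e (nat_lit 180252) (nat_lit 10) (.e (nat_lit 581376) (nat_lit 0) (.e (nat_lit 3070) (nat_lit 190) (.e (nat_lit 483072) (nat_lit 26) .nil))))))) (.g (nat_lit 1) (.e (nat_lit 401064) (nat_lit 0) .nil) .nil)))) (.nd (nat_lit 9) 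
(.lf (nat_lit 591318) (.g (nat_lit 4441) (.e (nat_lit 532535) (nat_lit 9) (.e (nat_lit 336173) (nat_lit 10) (.e (nat_lit 344126) (nat_lit 25) (.e (nat_lit 548889) (nat_lit 9) (.e (nat_lit 65629) (nat_lit 14) (.e (nat_lit 401412) (nat_lit 0) (.e (nat_lit 3237) (nat_lit 197) .nil))))))) (.g (nat_lit 1) (.e (nat_lit 400469) (nat_lit 0) .nil) .nil))) 
(.lf (nat_lit 591830) (.g (nat_lit 3104) (.e (nat_lit 532544) (nat_lit 10) (.e (nat_lit 344133) (nat_lit 26) (.e (nat_lit 557105) (nat_lit 14) (.e (nat_lit 180252) (nat_lit 10) (.e (nat_lit 581376) (nat_lit 0) (.e (nat_lit 3064) (nat_lit 190) (.e (nat_lit 483072) (nat_lit 26) .nil))))))) (.g (nat_lit 1) (.e (nat_lit 401320) (nat_lit 0) .nil) .nil))))))) 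
(.nd (nat_lit 6) (.nd (nat_lit 7) (.nd (nat_lit 8) (.nd (nat_lit 9) 
(.lf (nat_lit 590902) (.g (nat_lit 2996) (.e (nat_lit 532526) (nat_lit 8) (.e (nat_lit 327699) (nat_lit 8) (.e (nat_lit 303118) (nat_lit 3) (.e (nat_lit 204846) (nat_lit 24) (.e (nat_lit 319492) (nat_lit 0) (.e (nat_lit 5761) (nat_lit 315) (.e (nat_lit 163962) (nat_lit 25) .nil))))))) (.g (nat_lit 1) (.e (nat_lit 399050) (nat_lit 0) .nil) .nil))) 
(.lf (nat_lit 591414) (.g (nat_lit 2667) (.e (nat_lit 532543) (nat_lit 10) (.e (nat_lit 344133) (nat_lit 26) (.e (nat_lit 557096) (nat_lit 13) (.e (nat_lit 172133) (nat_lit 15) (.e (nat_lit 1800) (nat_lit 119) (.e (nat_lit 516119) (nat_lit 1) (.e (nat_lit 164345) (nat_lit 240) (.e (nat_lit 2601) (nat_lit 163) (.e (nat_lit 163962) (nat_lit 25) .nil))))))))) (.g (nat_lit 1) (.e (nat_lit 400895) (nat_lit 0) .nil) .nil)))) 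
(.nd (nat_lit 9) 
(.lf (nat_lit 591158) (.g (nat_lit 1923) (.e (nat_lit 532534) (nat_lit 9) (.e (nat_lit 336326) (nat_lit 18) (.e (nat_lit 204854) (nat_lit 26) (.e (nat_lit 336243) (nat_lit 15) (.e (nat_lit 3249) (nat_lit 197) .nil))))) (.g (nat_lit 0) (.e (nat_lit 399853) (nat_lit 0) .nil) .nil))) 
(.lf (nat_lit 591670) (.g (nat_lit 2998) (.e (nat_lit 532544) (nat_lit 10) (.e (nat_lit 344132) (nat_lit 26) (.e (nat_lit 557101) (nat_lit 13) (.e (nat_lit 172045) (nat_lit 0) (.e (nat_lit 3307) (nat_lit 202) (.e (nat_lit 573440) (nat_lit 0) (.e (nat_lit 3067) (nat_lit 190) (.e (nat_lit 483072) (nat_lit 26) .nil)))))))) (.g (nat_lit 1) (.e (nat_lit 401160) (nat_lit 0) .nil) .nil))))) 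
(.nd (nat_lit 8) (.nd (nat_lit 9) 
(.lf (nat_lit 591030) (.g (nat_lit 1897) (.e (nat_lit 532530) (nat_lit 9) (.e (nat_lit 336326) (nat_lit 18) (.e (nat_lit 204854) (nat_lit 26) (.e (nat_lit 336243) (nat_lit 15) (.e (nat_lit 3249) (nat_lit 197) .nil))))) (.g (nat_lit 0) (.e (nat_lit 399489) (nat_lit 0) .nil) .nil))) 
(.lf (nat_lit 591542) (.g (nat_lit 2516) (.e (nat_lit 532544) (nat_lit 10) (.e (nat_lit 344130) (nat_lit 26) (.e (nat_lit 557103) (nat_lit 14) (.e (nat_lit 180250) (nat_lit 10) (.e (nat_lit 573441) (nat_lit 0) (.e (nat_lit 3064) (nat_lit 190) (.e (nat_lit 483072) (nat_lit 26) .nil))))))) (.g (nat_lit 1) (.e (nat_lit 401032) (nat_lit 0) .nil) .nil)))) (.nd (nat_lit 9) 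
(.lf (nat_lit 591286) (.g (nat_lit 3951) (.e (nat_lit 532535) (nat_lit 9) (.e (nat_lit 336099) (nat_lit 9) (.e (nat_lit 336028) (nat_lit 3) (.e (nat_lit 98350) (nat_lit 24) (.e (nat_lit 409648) (nat_lit 18) (.e (nat_lit 303108) (nat_lit 0) (.e (nat_lit 3254) (nat_lit 197) .nil))))))) (.g (nat_lit 1) (.e (nat_lit 400344) (nat_lit 0) .nil) .nil))) 
(.lf (nat_lit 591798) (.g (nat_lit 2578) (.e (nat_lit 532544) (nat_lit 10) (.e (nat_lit 344133) (nat_lit 26) (.e (nat_lit 557103) (nat_lit 14) (.e (nat_lit 180250) (nat_lit 10) (.e (nat_lit 581376) (nat_lit 0) (.e (nat_lit 3062) (nat_lit 190) (.e (nat_lit 483072) (nat_lit 26) .nil))))))) (.g (nat_lit 1) (.e (nat_lit 401288) (nat_lit 0) .nil) .nil)))))) 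
(.nd (nat_lit 7) (.nd (nat_lit 8) (.nd (nat_lit 9) 
(.lf (nat_lit 590966) (.g (nat_lit 1242) (.e (nat_lit 532529) (nat_lit 9) (.e (nat_lit 336326) (nat_lit 18) (.e (nat_lit 204854) (nat_lit 26) (.e (nat_lit 336324) (nat_lit 18) .nil)))) (.g (nat_lit 0) (.e (nat_lit 399301) (nat_lit 0) .nil) .nil))) 
(.lf (nat_lit 591478) (.g (nat_lit 2902) (.e (nat_lit 532544) (nat_lit 10) (.e (nat_lit 344129) (nat_lit 26) (.e (nat_lit 557103) (nat_lit 14) (.e (nat_lit 180243) (nat_lit 5) (.e (nat_lit 532503) (nat_lit 1) (.e (nat_lit 57704) (nat_lit 164) (.e (nat_lit 2601) (nat_lit 163) (.e (nat_lit 163962) (nat_lit 25) .nil)))))))) (.g (nat_lit 1) (.e (nat_lit 400968) (nat_lit 0) .nil) .nil)))) 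
(.nd (nat_lit 9) 
(.lf (nat_lit 591222) (.g (nat_lit 3413) (.e (nat_lit 532535) (nat_lit 9) (.e (nat_lit 336099) (nat_lit 9) (.e (nat_lit 336013) (nat_lit 2) (.e (nat_lit 90165) (nat_lit 12) (.e (nat_lit 164208) (nat_lit 176) (.e (nat_lit 2819) (nat_lit 181) (.e (nat_lit 311296) (nat_lit 0) (.e (nat_lit 3241) (nat_lit 197) .nil)))))))) (.g (nat_lit 1) (.e (nat_lit 400093) (nat_lit 0) .nil) .nil))) 
(.lf (nat_lit 591734) (.g (nat_lit 3622) (.e (nat_lit 532544) (nat_lit 10) (.e (nat_lit 344132) (nat_lit 26) (.e (nat_lit 557105) (nat_lit 14) (.e (nat_lit 180252) (nat_lit 10) (.e (nat_lit 573474) (nat_lit 12) (.e (nat_lit 57508) (nat_lit 39) (.e (nat_lit 647180) (nat_lit 3) (.e (nat_lit 163962) (nat_lit 25) .nil)))))))) (.g (nat_lit 1) (.e (nat_lit 401224) (nat_lit 0) .nil) .nil))))) 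
(.nd (nat_lit 8) (.nd (nat_lit 9) 
(.lf (nat_lit 591094) (.g (nat_lit 1868) (.e (nat_lit 532533) (nat_lit 9) (.e (nat_lit 336019) (nat_lit 3) (.e (nat_lit 98333) (nat_lit 18) (.e (nat_lit 164243) (nat_lit 195) .nil)))) (.g (nat_lit 0) (.e (nat_lit 399731) (nat_lit 0) .nil) .nil))) 
(.lf (nat_lit 591606) (.g (nat_lit 1411) (.e (nat_lit 532544) (nat_lit 10) (.e (nat_lit 344131) (nat_lit 26) (.e (nat_lit 557103) (nat_lit 14) (.e (nat_lit 180236) (nat_lit 1) .nil)))) (.g (nat_lit 0) (.e (nat_lit 401096) (nat_lit 0) .nil) .nil)))) (.nd (nat_lit 9) 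
(.lf (nat_lit 591350) (.g (nat_lit 1148) (.e (nat_lit 532535) (nat_lit 9) (.e (nat_lit 336176) (nat_lit 10) (.e (nat_lit 344133) (nat_lit 26) (.e (nat_lit 557091) (nat_lit 12) .nil)))) (.g (nat_lit 0) (.e (nat_lit 400714) (nat_lit 0) .nil) .nil))) 
(.lf (nat_lit 591862) (.g (nat_lit 2359) (.e (nat_lit 532546) (nat_lit 11) (.e (nat_lit 352313) (nat_lit 23) (.e (nat_lit 98350) (nat_lit 24) (.e (nat_lit 409617) (nat_lit 10) (.e (nat_lit 5756) (nat_lit 315) .nil))))) (.g (nat_lit 0) (.e (nat_lit 401366) (nat_lit 0) .nil) .nil))))))))) (.nd (nat_lit 4) (.nd (nat_lit 5) (.nd (nat_lit 6) (.nd (nat_lit 7) (.nd (nat_lit 8) (.nd (nat_lit 9) 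
(.lf (nat_lit 590862) (.g (nat_lit 3701) (.e (nat_lit 532523) (nat_lit 7) (.e (nat_lit 319534) (nat_lit 16) (.e (nat_lit 286735) (nat_lit 3) (.e (nat_lit 98350) (nat_lit 24) (.e (nat_lit 409603) (nat_lit 0) .nil))))) (.g (nat_lit 0) (.e (nat_lit 398974) (nat_lit 0) .nil) .nil))) 
(.lf (nat_lit 591374) (.g (nat_lit 587) (.e (nat_lit 532541) (nat_lit 9) (.e (nat_lit 336194) (nat_lit 12) (.e (nat_lit 385066) (nat_lit 26) .nil))) (.g (nat_lit 0) (.e (nat_lit 400830) (nat_lit 0) .nil) .nil)))) (.nd (nat_lit 9) 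
(.lf (nat_lit 591118) (.g (nat_lit 1849) (.e (nat_lit 532533) (nat_lit 9) (.e (nat_lit 336324) (nat_lit 18) (.e (nat_lit 204880) (nat_lit 32) (.e (nat_lit 385066) (nat_lit 26) (.e (nat_lit 532566) (nat_lit 15) .nil))))) (.g (nat_lit 0) (.e (nat_lit 399766) (nat_lit 0) .nil) .nil))) 
(.lf (nat_lit 591630) (.g (nat_lit 3119) (.e (nat_lit 532544) (nat_lit 10) (.e (nat_lit 344131) (nat_lit 26) (.e (nat_lit 557105) (nat_lit 14) (.e (nat_lit 180252) (nat_lit 10) (.e (nat_lit 573440) (nat_lit 0) (.e (nat_lit 3067) (nat_lit 190) (.e (nat_lit 483072) (nat_lit 26) .nil))))))) (.g (nat_lit 1) (.e (nat_lit 401120) (nat_lit 0) .nil) .nil))))) (.nd (nat_lit 8) (.nd (nat_lit 9) 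
(.lf (nat_lit 590990) (.g (nat_lit 3546) (.e (nat_lit 532529) (nat_lit 9) (.e (nat_lit 336326) (nat_lit 18) (.e (nat_lit 204863) (nat_lit 27) (.e (nat_lit 344133) (nat_lit 26) (.e (nat_lit 557098) (nat_lit 13) (.e (nat_lit 172127) (nat_lit 15) (.e (nat_lit 1814) (nat_lit 121) .nil))))))) (.g (nat_lit 1) (.e (nat_lit 399330) (nat_lit 0) .nil) .nil))) 
(.lf (nat_lit 591502) (.g (nat_lit 2546) (.e (nat_lit 532544) (nat_lit 10) (.e (nat_lit 344129) (nat_lit 26) (.e (nat_lit 557104) (nat_lit 14) (.e (nat_lit 180252) (nat_lit 10) (.e (nat_lit 573442) (nat_lit 0) .nil))))) (.g (nat_lit 0) (.e (nat_lit 400992) (nat_lit 0) .nil) .nil)))) (.nd (nat_lit 9) 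
(.lf (nat_lit 591246) (.g (nat_lit 3666) (.e (nat_lit 532535) (nat_lit 9) (.e (nat_lit 336099) (nat_lit 9) (.e (nat_lit 336013) (nat_lit 2) (.e (nat_lit 90165) (nat_lit 12) (.e (nat_lit 164218) (nat_lit 179) (.e (nat_lit 164266) (nat_lit 221) (.e (nat_lit 1061) (nat_lit 81) (.e (nat_lit 595) (nat_lit 45) .nil)))))))) (.g (nat_lit 1) (.e (nat_lit 400118) (nat_lit 0) .nil) .nil))) 
(.lf (nat_lit 591758) (.g (nat_lit 3062) (.e (nat_lit 532544) (nat_lit 10) (.e (nat_lit 344133) (nat_lit 26) (.e (nat_lit 557098) (nat_lit 13) (.e (nat_lit 172064) (nat_lit 2) (.e (nat_lit 196622) (nat_lit 9) (.e (nat_lit 486) (nat_lit 38) (.e (nat_lit 483072) (nat_lit 26) .nil))))))) (.g (nat_lit 1) (.e (nat_lit 401248) (nat_lit 0) .nil) .nil)))))) 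
(.nd (nat_lit 7) (.nd (nat_lit 8) (.nd (nat_lit 9) 
(.lf (nat_lit 590926) (.g (nat_lit 4004) (.e (nat_lit 532526) (nat_lit 8) (.e (nat_lit 327716) (nat_lit 16) (.e (nat_lit 286733) (nat_lit 2) (.e (nat_lit 90170) (nat_lit 13) (.e (nat_lit 172113) (nat_lit 10) (.e (nat_lit 434231) (nat_lit 23) .nil)))))) (.g (nat_lit 1) (.e (nat_lit 399095) (nat_lit 0) .nil) .nil))) 
(.lf (nat_lit 591438) (.g (nat_lit 2964) (.e (nat_lit 532544) (nat_lit 10) (.e (nat_lit 344117) (nat_lit 21) (.e (nat_lit 516130) (nat_lit 3) (.e (nat_lit 221212) (nat_lit 22) (.e (nat_lit 196608) (nat_lit 0) (.e (nat_lit 3067) (nat_lit 190) (.e (nat_lit 483072) (nat_lit 26) .nil))))))) (.g (nat_lit 1) (.e (nat_lit 400927) (nat_lit 0) .nil) .nil)))) (.nd (nat_lit 9) 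
(.lf (nat_lit 591182) (.g (nat_lit 4348) (.e (nat_lit 532535) (nat_lit 9) (.e (nat_lit 336099) (nat_lit 9) (.e (nat_lit 335927) (nat_lit 0) (.e (nat_lit 1848) (nat_lit 124) (.e (nat_lit 557087) (nat_lit 11) (.e (nat_lit 24617) (nat_lit 7) (.e (nat_lit 319504) (nat_lit 10) (.e (nat_lit 7936) (nat_lit 45) .nil)))))))) (.g (nat_lit 1) (.e (nat_lit 400010) (nat_lit 0) .nil) .nil))) 
(.lf (nat_lit 591694) (.g (nat_lit 2282) (.e (nat_lit 532544) (nat_lit 10) (.e (nat_lit 344132) (nat_lit 26) (.e (nat_lit 557103) (nat_lit 14) (.e (nat_lit 180244) (nat_lit 5) (.e (nat_lit 532579) (nat_lit 26) .nil))))) (.g (nat_lit 0) (.e (nat_lit 401184) (nat_lit 0) .nil) .nil))))) (.nd (nat_lit 8) (.nd (nat_lit 9) 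
(.lf (nat_lit 591054) (.g (nat_lit 3945) (.e (nat_lit 532531) (nat_lit 9) (.e (nat_lit 336324) (nat_lit 18) (.e (nat_lit 204831) (nat_lit 18) (.e (nat_lit 57852) (nat_lit 252) .nil)))) (.g (nat_lit 0) (.e (nat_lit 399584) (nat_lit 0) .nil) .nil))) 
(.lf (nat_lit 591566) (.g (nat_lit 2239) (.e (nat_lit 532544) (nat_lit 10) (.e (nat_lit 344130) (nat_lit 26) (.e (nat_lit 557104) (nat_lit 14) (.e (nat_lit 180252) (nat_lit 10) (.e (nat_lit 581376) (nat_lit 0) (.e (nat_lit 3058) (nat_lit 190) (.e (nat_lit 483072) (nat_lit 26) .nil))))))) (.g (nat_lit 1) (.e (nat_lit 401056) (nat_lit 0) .nil) .nil)))) (.nd (nat_lit 9) 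
(.lf (nat_lit 591310) (.g (nat_lit 3258) (.e (nat_lit 532535) (nat_lit 9) (.e (nat_lit 336172) (nat_lit 10) (.e (nat_lit 344130) (nat_lit 26) (.e (nat_lit 557087) (nat_lit 11) (.e (nat_lit 24617) (nat_lit 7) (.e (nat_lit 319505) (nat_lit 10) (.e (nat_lit 7936) (nat_lit 45) .nil))))))) (.g (nat_lit 1) (.e (nat_lit 400427) (nat_lit 0) .nil) .nil))) 
(.lf (nat_lit 591822) (.g (nat_lit 3300) (.e (nat_lit 532544) (nat_lit 10) (.e (nat_lit 344133) (nat_lit 26) (.e (nat_lit 557105) (nat_lit 14) (.e (nat_lit 180252) (nat_lit 10) (.e (nat_lit 573442) (nat_lit 0) (.e (nat_lit 2887) (nat_lit 184) (.e (nat_lit 426412) (nat_lit 15) (.e (nat_lit 7936) (nat_lit 121) .nil)))))))) (.g (nat_lit 1) (.e (nat_lit 401312) (nat_lit 0) .nil) .nil))))))) 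
(.nd (nat_lit 6) (.nd (nat_lit 7) (.nd (nat_lit 8) (.nd (nat_lit 9) 
(.lf (nat_lit 590894) (.g (nat_lit 2699) (.e (nat_lit 532526) (nat_lit 8) (.e (nat_lit 327698) (nat_lit 8) (.e (nat_lit 303119) (nat_lit 3) (.e (nat_lit 204863) (nat_lit 27) (.e (nat_lit 352000) (nat_lit 3) .nil))))) (.g (nat_lit 0) (.e (nat_lit 399038) (nat_lit 0) .nil) .nil))) 
(.lf (nat_lit 591406) (.g (nat_lit 1791) (.e (nat_lit 532543) (nat_lit 10) (.e (nat_lit 344129) (nat_lit 26) (.e (nat_lit 557096) (nat_lit 13) (.e (nat_lit 172133) (nat_lit 15) .nil)))) (.g (nat_lit 0) (.e (nat_lit 400887) (nat_lit 0) .nil) .nil)))) (.nd (nat_lit 9) 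
(.lf (nat_lit 591150) (.g (nat_lit 1430) (.e (nat_lit 532534) (nat_lit 9) (.e (nat_lit 336324) (nat_lit 18) (.e (nat_lit 204880) (nat_lit 32) (.e (nat_lit 385065) (nat_lit 26) .nil)))) (.g (nat_lit 0) (.e (nat_lit 399845) (nat_lit 0) .nil) .nil))) 
(.lf (nat_lit 591662) (.g (nat_lit 2941) (.e (nat_lit 532544) (nat_lit 10) (.e (nat_lit 344132) (nat_lit 26) (.e (nat_lit 557100) (nat_lit 13) (.e (nat_lit 172065) (nat_lit 3) (.e (nat_lit 204830) (nat_lit 18) (.e (nat_lit 57703) (nat_lit 164) (.e (nat_lit 2601) (nat_lit 163) (.e (nat_lit 163962) (nat_lit 25) .nil)))))))) (.g (nat_lit 1) (.e (nat_lit 401152) (nat_lit 0) .nil) .nil))))) 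
(.nd (nat_lit 8) (.nd (nat_lit 9) 
(.lf (nat_lit 591022) (.g (nat_lit 1077) (.e (nat_lit 532530) (nat_lit 9) (.e (nat_lit 336324) (nat_lit 18) (.e (nat_lit 204882) (nat_lit 32) (.e (nat_lit 392960) (nat_lit 26) .nil)))) (.g (nat_lit 0) (.e (nat_lit 399476) (nat_lit 0) .nil) .nil))) 
(.lf (nat_lit 591534) (.g (nat_lit 1502) (.e (nat_lit 532544) (nat_lit 10) (.e (nat_lit 344130) (nat_lit 26) (.e (nat_lit 557103) (nat_lit 14) (.e (nat_lit 180236) (nat_lit 1) (.e (nat_lit 499965) (nat_lit 14) .nil))))) (.g (nat_lit 0) (.e (nat_lit 401024) (nat_lit 0) .nil) .nil)))) (.nd (nat_lit 9) 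
(.lf (nat_lit 591278) (.g (nat_lit 4599) (.e (nat_lit 532535) (nat_lit 9) (.e (nat_lit 336099) (nat_lit 9) (.e (nat_lit 336028) (nat_lit 3) (.e (nat_lit 98349) (nat_lit 24) (.e (nat_lit 409649) (nat_lit 18) (.e (nat_lit 303111) (nat_lit 0) (.e (nat_lit 3255) (nat_lit 197) .nil))))))) (.g (nat_lit 1) (.e (nat_lit 400329) (nat_lit 0) .nil) .nil))) 
(.lf (nat_lit 591790) (.g (nat_lit 3228) (.e (nat_lit 532544) (nat_lit 10) (.e (nat_lit 344133) (nat_lit 26) (.e (nat_lit 557103) (nat_lit 14) (.e (nat_lit 180250) (nat_lit 10) (.e (nat_lit 573441) (nat_lit 0) (.e (nat_lit 3066) (nat_lit 190) (.e (nat_lit 483072) (nat_lit 26) .nil))))))) (.g (nat_lit 1) (.e (nat_lit 401280) (nat_lit 0) .nil) .nil)))))) 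
(.nd (nat_lit 7) (.nd (nat_lit 8) (.nd (nat_lit 9) 
(.lf (nat_lit 590958) (.g (nat_lit 2216) (.e (nat_lit 532529) (nat_lit 9) (.e (nat_lit 336316) (nat_lit 17) (.e (nat_lit 196670) (nat_lit 14) (.e (nat_lit 73755) (nat_lit 8) (.e (nat_lit 557098) (nat_lit 13) .nil))))) (.g (nat_lit 0) (.e (nat_lit 399274) (nat_lit 0) .nil) .nil))) 
(.lf (nat_lit 591470) (.g (nat_lit 2189) (.e (nat_lit 532544) (nat_lit 10) (.e (nat_lit 344129) (nat_lit 26) (.e (nat_lit 557097) (nat_lit 13) (.e (nat_lit 172065) (nat_lit 3) (.e (nat_lit 212736) (nat_lit 15) (.e (nat_lit 483072) (nat_lit 26) .nil)))))) (.g (nat_lit 1) (.e (nat_lit 400960) (nat_lit 0) .nil) .nil)))) (.nd (nat_lit 9) 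
(.lf (nat_lit 591214) (.g (nat_lit 3006) (.e (nat_lit 532535) (nat_lit 9) (.e (nat_lit 336099) (nat_lit 9) (.e (nat_lit 336013) (nat_lit 2) (.e (nat_lit 90140) (nat_lit 9) .nil)))) (.g (nat_lit 0) (.e (nat_lit 400080) (nat_lit 0) .nil) .nil))) 
(.lf (nat_lit 591726) (.g (nat_lit 2274) (.e (nat_lit 532544) (nat_lit 10) (.e (nat_lit 344132) (nat_lit 26) (.e (nat_lit 557105) (nat_lit 14) (.e (nat_lit 180252) (nat_lit 10) (.e (nat_lit 581376) (nat_lit 0) (.e (nat_lit 3071) (nat_lit 190) (.e (nat_lit 483072) (nat_lit 26) .nil))))))) (.g (nat_lit 1) (.e (nat_lit 401216) (nat_lit 0) .nil) .nil))))) (.nd (nat_lit 8) (.nd (nat_lit 9) 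
(.lf (nat_lit 591086) (.g (nat_lit 1876) (.e (nat_lit 532532) (nat_lit 9) (.e (nat_lit 336326) (nat_lit 18) (.e (nat_lit 204854) (nat_lit 26) (.e (nat_lit 336306) (nat_lit 15) (.e (nat_lit 3238) (nat_lit 197) .nil))))) (.g (nat_lit 0) (.e (nat_lit 399706) (nat_lit 0) .nil) .nil))) 
(.lf (nat_lit 591598) (.g (nat_lit 1274) (.e (nat_lit 532544) (nat_lit 10) (.e (nat_lit 344131) (nat_lit 26) (.e (nat_lit 557100) (nat_lit 13) (.e (nat_lit 172067) (nat_lit 3) .nil)))) (.g (nat_lit 0) (.e (nat_lit 401088) (nat_lit 0) .nil) .nil)))) (.nd (nat_lit 9) 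
(.lf (nat_lit 591342) (.g (nat_lit 4683) (.e (nat_lit 532535) (nat_lit 9) (.e (nat_lit 336176) (nat_lit 10) (.e (nat_lit 344132) (nat_lit 26) (.e (nat_lit 557094) (nat_lit 12) (.e (nat_lit 164022) (nat_lit 46) (.e (nat_lit 704629) (nat_lit 9) (.e (nat_lit 442) (nat_lit 33) (.e (nat_lit 434233) (nat_lit 23) .nil)))))))) (.g (nat_lit 1) (.e (nat_lit 400682) (nat_lit 0) .nil) .nil))) 
(.lf (nat_lit 591854) (.g (nat_lit 1904) (.e (nat_lit 540416) (nat_lit 10) (.e (nat_lit 344133) (nat_lit 26) (.e (nat_lit 557098) (nat_lit 13) (.e (nat_lit 172133) (nat_lit 15) (.e (nat_lit 7936) (nat_lit 121) .nil))))) (.g (nat_lit 0) (.e (nat_lit 401354) (nat_lit 0) .nil) .nil)))))))) (.nd (nat_lit 5) (.nd (nat_lit 6) (.nd (nat_lit 7) (.nd (nat_lit 8) (.nd (nat_lit 9) 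
(.lf (nat_lit 590878) (.g (nat_lit 2264) (.e (nat_lit 532523) (nat_lit 7) (.e (nat_lit 319535) (nat_lit 17) (.e (nat_lit 294928) (nat_lit 2) (.e (nat_lit 90170) (nat_lit 13) (.e (nat_lit 172113) (nat_lit 10) (.e (nat_lit 434234) (nat_lit 23) .nil)))))) (.g (nat_lit 1) (.e (nat_lit 398991) (nat_lit 0) .nil) .nil))) 
(.lf (nat_lit 591390) (.g (nat_lit 1674) (.e (nat_lit 532542) (nat_lit 9) (.e (nat_lit 336194) (nat_lit 12) (.e (nat_lit 385066) (nat_lit 26) (.e (nat_lit 532515) (nat_lit 3) (.e (nat_lit 114695) (nat_lit 11) .nil))))) (.g (nat_lit 0) (.e (nat_lit 400858) (nat_lit 0) .nil) .nil)))) (.nd (nat_lit 9) 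
(.lf (nat_lit 591134) (.g (nat_lit 2768) (.e (nat_lit 532534) (nat_lit 9) (.e (nat_lit 336019) (nat_lit 3) (.e (nat_lit 98342) (nat_lit 20) (.e (nat_lit 221212) (nat_lit 22) (.e (nat_lit 204544) (nat_lit 19) .nil))))) (.g (nat_lit 0) (.e (nat_lit 399806) (nat_lit 0) .nil) .nil))) 
(.lf (nat_lit 591646) (.g (nat_lit 2232) (.e (nat_lit 532544) (nat_lit 10) (.e (nat_lit 344131) (nat_lit 26) (.e (nat_lit 557105) (nat_lit 14) (.e (nat_lit 180252) (nat_lit 10) (.e (nat_lit 573474) (nat_lit 12) (.e (nat_lit 57348) (nat_lit 0) (.e (nat_lit 5438) (nat_lit 306) (.e (nat_lit 2604) (nat_lit 163) (.e (nat_lit 163962) (nat_lit 25) .nil))))))))) (.g (nat_lit 1) (.e (nat_lit 401136) (nat_lit 0) .nil) .nil))))) 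
(.nd (nat_lit 8) (.nd (nat_lit 9) 
(.lf (nat_lit 591006) (.g (nat_lit 446) (.e (nat_lit 532530) (nat_lit 9) (.e (nat_lit 336019) (nat_lit 3) (.e (nat_lit 98342) (nat_lit 20) .nil))) (.g (nat_lit 0) (.e (nat_lit 399381) (nat_lit 0) .nil) .nil))) 
(.lf (nat_lit 591518) (.g (nat_lit 2119) (.e (nat_lit 532544) (nat_lit 10) (.e (nat_lit 344130) (nat_lit 26) (.e (nat_lit 557097) (nat_lit 13) (.e (nat_lit 172064) (nat_lit 2) (.e (nat_lit 196622) (nat_lit 9) (.e (nat_lit 486) (nat_lit 38) (.e (nat_lit 483072) (nat_lit 26) .nil))))))) (.g (nat_lit 1) (.e (nat_lit 401008) (nat_lit 0) .nil) .nil)))) (.nd (nat_lit 9) 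
(.lf (nat_lit 591262) (.g (nat_lit 4737) (.e (nat_lit 532535) (nat_lit 9) (.e (nat_lit 336099) (nat_lit 9) (.e (nat_lit 336013) (nat_lit 2) (.e (nat_lit 90170) (nat_lit 13) (.e (nat_lit 172049) (nat_lit 0) .nil))))) (.g (nat_lit 0) (.e (nat_lit 400171) (nat_lit 0) .nil) .nil))) 
(.lf (nat_lit 591774) (.g (nat_lit 3285) (.e (nat_lit 532544) (nat_lit 10) (.e (nat_lit 344133) (nat_lit 26) (.e (nat_lit 557098) (nat_lit 13) (.e (nat_lit 179968) (nat_lit 15) (.e (nat_lit 1800) (nat_lit 119) (.e (nat_lit 516119) (nat_lit 1) (.e (nat_lit 164347) (nat_lit 240) (.e (nat_lit 2601) (nat_lit 163) (.e (nat_lit 163962) (nat_lit 25) .nil))))))))) (.g (nat_lit 1) (.e (nat_lit 401264) (nat_lit 0) .nil) .nil)))))) 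
(.nd (nat_lit 7) (.nd (nat_lit 8) (.nd (nat_lit 9) 
(.lf (nat_lit 590942) (.g (nat_lit 633) (.e (nat_lit 532528) (nat_lit 9) (.e (nat_lit 336324) (nat_lit 18) (.e (nat_lit 204854) (nat_lit 26) .nil))) (.g (nat_lit 0) (.e (nat_lit 399124) (nat_lit 0) .nil) .nil))) 
(.lf (nat_lit 591454) (.g (nat_lit 1218) (.e (nat_lit 532544) (nat_lit 10) (.e (nat_lit 344120) (nat_lit 21) (.e (nat_lit 516131) (nat_lit 3) (.e (nat_lit 221211) (nat_lit 22) (.e (nat_lit 196614) (nat_lit 0) (.e (nat_lit 3067) (nat_lit 190) (.e (nat_lit 483072) (nat_lit 26) .nil))))))) (.g (nat_lit 1) (.e (nat_lit 400943) (nat_lit 0) .nil) .nil)))) (.nd (nat_lit 9) 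
(.lf (nat_lit 591198) (.g (nat_lit 4876) (.e (nat_lit 532535) (nat_lit 9) (.e (nat_lit 336099) (nat_lit 9) (.e (nat_lit 336013) (nat_lit 2) (.e (nat_lit 90134) (nat_lit 9) (.e (nat_lit 2822) (nat_lit 182) (.e (nat_lit 409645) (nat_lit 18) (.e (nat_lit 303106) (nat_lit 0) (.e (nat_lit 3230) (nat_lit 197) .nil)))))))) (.g (nat_lit 1) (.e (nat_lit 400054) (nat_lit 0) .nil) .nil))) 
(.lf (nat_lit 591710) (.g (nat_lit 3992) (.e (nat_lit 532544) (nat_lit 10) (.e (nat_lit 344132) (nat_lit 26) (.e (nat_lit 557105) (nat_lit 14) (.e (nat_lit 180252) (nat_lit 10) (.e (nat_lit 573440) (nat_lit 0) (.e (nat_lit 3067) (nat_lit 190) (.e (nat_lit 483072) (nat_lit 26) .nil))))))) (.g (nat_lit 1) (.e (nat_lit 401200) (nat_lit 0) .nil) .nil))))) (.nd (nat_lit 8) (.nd (nat_lit 9) 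
(.lf (nat_lit 591070) (.g (nat_lit 1400) (.e (nat_lit 532532) (nat_lit 9) (.e (nat_lit 336322) (nat_lit 18) (.e (nat_lit 204852) (nat_lit 26) (.e (nat_lit 336325) (nat_lit 18) (.e (nat_lit 204880) (nat_lit 32) .nil))))) (.g (nat_lit 0) (.e (nat_lit 399688) (nat_lit 0) .nil) .nil))) 
(.lf (nat_lit 591582) (.g (nat_lit 1151) (.e (nat_lit 532544) (nat_lit 10) (.e (nat_lit 344131) (nat_lit 26) (.e (nat_lit 557098) (nat_lit 13) (.e (nat_lit 172051) (nat_lit 0) .nil)))) (.g (nat_lit 0) (.e (nat_lit 401072) (nat_lit 0) .nil) .nil)))) (.nd (nat_lit 9) 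
(.lf (nat_lit 591326) (.g (nat_lit 626) (.e (nat_lit 532535) (nat_lit 9) (.e (nat_lit 336176) (nat_lit 10) (.e (nat_lit 344129) (nat_lit 26) .nil))) (.g (nat_lit 0) (.e (nat_lit 400539) (nat_lit 0) .nil) .nil))) 
(.lf (nat_lit 591838) (.g (nat_lit 2971) (.e (nat_lit 532544) (nat_lit 10) (.e (nat_lit 344133) (nat_lit 26) (.e (nat_lit 557105) (nat_lit 14) (.e (nat_lit 180252) (nat_lit 10) (.e (nat_lit 581376) (nat_lit 0) (.e (nat_lit 3074) (nat_lit 190) (.e (nat_lit 483072) (nat_lit 26) .nil))))))) (.g (nat_lit 1) (.e (nat_lit 401328) (nat_lit 0) .nil) .nil))))))) 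
(.nd (nat_lit 6) (.nd (nat_lit 7) (.nd (nat_lit 8) (.nd (nat_lit 9) 
(.lf (nat_lit 590910) (.g (nat_lit 3910) (.e (nat_lit 532526) (nat_lit 8) (.e (nat_lit 327699) (nat_lit 8) (.e (nat_lit 303119) (nat_lit 3) (.e (nat_lit 204846) (nat_lit 24) (.e (nat_lit 319492) (nat_lit 0) (.e (nat_lit 5761) (nat_lit 315) (.e (nat_lit 163962) (nat_lit 25) .nil))))))) (.g (nat_lit 1) (.e (nat_lit 399061) (nat_lit 0) .nil) .nil))) 
(.lf (nat_lit 591422) (.g (nat_lit 1603) (.e (nat_lit 532543) (nat_lit 10) (.e (nat_lit 344160) (nat_lit 37) (.e (nat_lit 647195) (nat_lit 9) (.e (nat_lit 1234) (nat_lit 91) .nil)))) (.g (nat_lit 0) (.e (nat_lit 400903) (nat_lit 0) .nil) .nil)))) (.nd (nat_lit 9) 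
(.lf (nat_lit 591166) (.g (nat_lit 1999) (.e (nat_lit 532535) (nat_lit 9) (.e (nat_lit 336020) (nat_lit 3) (.e (nat_lit 106240) (nat_lit 16) (.e (nat_lit 401425) (nat_lit 2) (.e (nat_lit 196661) (nat_lit 12) (.e (nat_lit 57560) (nat_lit 50) (.e (nat_lit 737306) (nat_lit 11) (.e (nat_lit 596) (nat_lit 45) .nil)))))))) (.g (nat_lit 1) (.e (nat_lit 399906) (nat_lit 0) .nil) .nil))) 
(.lf (nat_lit 591678) (.g (nat_lit 1851) (.e (nat_lit 532544) (nat_lit 10) (.e (nat_lit 344132) (nat_lit 26) (.e (nat_lit 557101) (nat_lit 13) (.e (nat_lit 172062) (nat_lit 2) (.e (nat_lit 196628) (nat_lit 9) (.e (nat_lit 488) (nat_lit 38) (.e (nat_lit 483072) (nat_lit 26) .nil))))))) (.g (nat_lit 1) (.e (nat_lit 401168) (nat_lit 0) .nil) .nil))))) (.nd (nat_lit 8) (.nd (nat_lit 9) 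
(.lf (nat_lit 591038) (.g (nat_lit 3243) (.e (nat_lit 532530) (nat_lit 9) (.e (nat_lit 336326) (nat_lit 18) (.e (nat_lit 204859) (nat_lit 26) (.e (nat_lit 336323) (nat_lit 18) (.e (nat_lit 204882) (nat_lit 32) (.e (nat_lit 385066) (nat_lit 26) .nil)))))) (.g (nat_lit 1) (.e (nat_lit 399501) (nat_lit 0) .nil) .nil))) 
(.lf (nat_lit 591550) (.g (nat_lit 3638) (.e (nat_lit 532544) (nat_lit 10) (.e (nat_lit 344130) (nat_lit 26) (.e (nat_lit 557103) (nat_lit 14) (.e (nat_lit 180250) (nat_lit 10) (.e (nat_lit 573447) (nat_lit 0) (.e (nat_lit 3067) (nat_lit 190) (.e (nat_lit 483072) (nat_lit 26) .nil))))))) (.g (nat_lit 1) (.e (nat_lit 401040) (nat_lit 0) .nil) .nil)))) (.nd (nat_lit 9) 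
(.lf (nat_lit 591294) (.g (nat_lit 4371) (.e (nat_lit 532535) (nat_lit 9) (.e (nat_lit 336163) (nat_lit 10) (.e (nat_lit 344129) (nat_lit 26) (.e (nat_lit 557087) (nat_lit 11) (.e (nat_lit 24617) (nat_lit 7) (.e (nat_lit 319505) (nat_lit 10) (.e (nat_lit 7936) (nat_lit 45) .nil))))))) (.g (nat_lit 1) (.e (nat_lit 400410) (nat_lit 0) .nil) .nil))) 
(.lf (nat_lit 591806) (.g (nat_lit 2696) (.e (nat_lit 532544) (nat_lit 10) (.e (nat_lit 344133) (nat_lit 26) (.e (nat_lit 557105) (nat_lit 14) (.e (nat_lit 180244) (nat_lit 5) (.e (nat_lit 532503) (nat_lit 1) .nil))))) (.g (nat_lit 0) (.e (nat_lit 401296) (nat_lit 0) .nil) .nil)))))) (.nd (nat_lit 7) (.nd (nat_lit 8) (.nd (nat_lit 9) 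
(.lf (nat_lit 590974) (.g (nat_lit 2751) (.e (nat_lit 532529) (nat_lit 9) (.e (nat_lit 336326) (nat_lit 18) (.e (nat_lit 204863) (nat_lit 27) (.e (nat_lit 344130) (nat_lit 26) (.e (nat_lit 557097) (nat_lit 13) (.e (nat_lit 172132) (nat_lit 15) (.e (nat_lit 7936) (nat_lit 121) .nil))))))) (.g (nat_lit 1) (.e (nat_lit 399314) (nat_lit 0) .nil) .nil))) 
(.lf (nat_lit 591486) (.g (nat_lit 2664) (.e (nat_lit 532544) (nat_lit 10) (.e (nat_lit 344129) (nat_lit 26) (.e (nat_lit 557103) (nat_lit 14) (.e (nat_lit 180250) (nat_lit 10) (.e (nat_lit 573441) (nat_lit 0) (.e (nat_lit 3066) (nat_lit 190) (.e (nat_lit 483072) (nat_lit 26) .nil))))))) (.g (nat_lit 1) (.e (nat_lit 400976) (nat_lit 0) .nil) .nil)))) (.nd (nat_lit 9) 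
(.lf (nat_lit 591230) (.g (nat_lit 4181) (.e (nat_lit 532535) (nat_lit 9) (.e (nat_lit 336099) (nat_lit 9) (.e (nat_lit 336013) (nat_lit 2) (.e (nat_lit 90165) (nat_lit 12) (.e (nat_lit 164208) (nat_lit 176) (.e (nat_lit 2819) (nat_lit 181) (.e (nat_lit 311300) (nat_lit 0) (.e (nat_lit 3256) (nat_lit 197) .nil)))))))) (.g (nat_lit 1) (.e (nat_lit 400101) (nat_lit 0) .nil) .nil))) 
(.lf (nat_lit 591742) (.g (nat_lit 691) (.e (nat_lit 532544) (nat_lit 10) (.e (nat_lit 344133) (nat_lit 26) (.e (nat_lit 557097) (nat_lit 13) .nil))) (.g (nat_lit 0) (.e (nat_lit 401232) (nat_lit 0) .nil) .nil))))) (.nd (nat_lit 8) (.nd (nat_lit 9) 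
(.lf (nat_lit 591102) (.g (nat_lit 1503) (.e (nat_lit 532533) (nat_lit 9) (.e (nat_lit 336019) (nat_lit 3) (.e (nat_lit 98342) (nat_lit 20) (.e (nat_lit 221198) (nat_lit 20) .nil)))) (.g (nat_lit 0) (.e (nat_lit 399741) (nat_lit 0) .nil) .nil))) 
(.lf (nat_lit 591614) (.g (nat_lit 2553) (.e (nat_lit 532544) (nat_lit 10) (.e (nat_lit 344131) (nat_lit 26) (.e (nat_lit 557103) (nat_lit 14) (.e (nat_lit 180250) (nat_lit 10) (.e (nat_lit 573441) (nat_lit 0) (.e (nat_lit 3065) (nat_lit 190) (.e (nat_lit 483072) (nat_lit 26) .nil))))))) (.g (nat_lit 1) (.e (nat_lit 401104) (nat_lit 0) .nil) .nil)))) (.nd (nat_lit 9) 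
(.lf (nat_lit 591358) (.g (nat_lit 2896) (.e (nat_lit 532535) (nat_lit 9) (.e (nat_lit 336177) (nat_lit 10) (.e (nat_lit 344117) (nat_lit 21) (.e (nat_lit 516139) (nat_lit 7) (.e (nat_lit 417536) (nat_lit 10) (.e (nat_lit 5762) (nat_lit 315) (.e (nat_lit 163962) (nat_lit 25) .nil))))))) (.g (nat_lit 1) (.e (nat_lit 400761) (nat_lit 0) .nil) .nil))) 
(.lf (nat_lit 591870) (.g (nat_lit 2227) (.e (nat_lit 532546) (nat_lit 11) (.e (nat_lit 352314) (nat_lit 23) (.e (nat_lit 98350) (nat_lit 24) (.e (nat_lit 409616) (nat_lit 10) (.e (nat_lit 5763) (nat_lit 315) .nil))))) (.g (nat_lit 0) (.e (nat_lit 401376) (nat_lit 0) .nil) .nil)))))))))))) 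
(.nd (nat_lit 1) (.nd (nat_lit 2) (.nd (nat_lit 3) (.nd (nat_lit 4) (.nd (nat_lit 5) 
(.nd (nat_lit 6) (.nd (nat_lit 7) (.nd (nat_lit 8) (.nd (nat_lit 9) 
(.lf (nat_lit 590849) (.g (nat_lit 2208) (.e (nat_lit 532523) (nat_lit 7) (.e (nat_lit 319534) (nat_lit 16) (.e (nat_lit 286734) (nat_lit 3) (.e (nat_lit 98355) (nat_lit 26) (.e (nat_lit 426272) (nat_lit 10) .nil))))) (.g (nat_lit 0) (.e (nat_lit 398961) (nat_lit 0) .nil) .nil))) 
(.lf (nat_lit 591361) (.g (nat_lit 3326) (.e (nat_lit 532535) (nat_lit 9) (.e (nat_lit 336178) (nat_lit 10) (.e (nat_lit 344117) (nat_lit 21) (.e (nat_lit 516139) (nat_lit 7) (.e (nat_lit 409609) (nat_lit 10) (.e (nat_lit 5756) (nat_lit 315) (.e (nat_lit 163962) (nat_lit 25) .nil))))))) (.g (nat_lit 1) (.e (nat_lit 400764) (nat_lit 0) .nil) .nil)))) (.nd (nat_lit 9) 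
(.lf (nat_lit 591105) (.g (nat_lit 1184) (.e (nat_lit 532533) (nat_lit 9) (.e (nat_lit 336208) (nat_lit 12) (.e (nat_lit 385068) (nat_lit 26) (.e (nat_lit 532515) (nat_lit 3) (.e (nat_lit 122624) (nat_lit 12) .nil))))) (.g (nat_lit 0) (.e (nat_lit 399748) (nat_lit 0) .nil) .nil))) 
(.lf (nat_lit 591617) (.g (nat_lit 2443) (.e (nat_lit 532544) (nat_lit 10) (.e (nat_lit 344131) (nat_lit 26) (.e (nat_lit 557103) (nat_lit 14) (.e (nat_lit 180250) (nat_lit 10) (.e (nat_lit 573442) (nat_lit 0) (.e (nat_lit 2887) (nat_lit 184) (.e (nat_lit 426412) (nat_lit 15) (.e (nat_lit 7936) (nat_lit 121) .nil)))))))) (.g (nat_lit 1) (.e (nat_lit 401107) (nat_lit 0) .nil) .nil))))) 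
(.nd (nat_lit 8) (.nd (nat_lit 9) 
(.lf (nat_lit 590977) (.g (nat_lit 4543) (.e (nat_lit 532529) (nat_lit 9) (.e (nat_lit 336326) (nat_lit 18) (.e (nat_lit 204863) (nat_lit 27) (.e (nat_lit 344132) (nat_lit 26) (.e (nat_lit 557100) (nat_lit 13) (.e (nat_lit 172135) (nat_lit 15) (.e (nat_lit 7936) (nat_lit 121) .nil))))))) (.g (nat_lit 1) (.e (nat_lit 399317) (nat_lit 0) .nil) .nil))) 
(.lf (nat_lit 591489) (.g (nat_lit 3053) (.e (nat_lit 532544) (nat_lit 10) (.e (nat_lit 344129) (nat_lit 26) (.e (nat_lit 557103) (nat_lit 14) (.e (nat_lit 180250) (nat_lit 10) (.e (nat_lit 573442) (nat_lit 0) (.e (nat_lit 3062) (nat_lit 190) (.e (nat_lit 483072) (nat_lit 26) .nil))))))) (.g (nat_lit 1) (.e (nat_lit 400979) (nat_lit 0) .nil) .nil)))) (.nd (nat_lit 9) 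
(.lf (nat_lit 591233) (.g (nat_lit 2766) (.e (nat_lit 532535) (nat_lit 9) (.e (nat_lit 336099) (nat_lit 9) (.e (nat_lit 336013) (nat_lit 2) (.e (nat_lit 90165) (nat_lit 12) (.e (nat_lit 164210) (nat_lit 176) (.e (nat_lit 2768) (nat_lit 177) (.e (nat_lit 278556) (nat_lit 10) (.e (nat_lit 7936) (nat_lit 45) .nil)))))))) (.g (nat_lit 1) (.e (nat_lit 400104) (nat_lit 0) .nil) .nil))) 
(.lf (nat_lit 591745) (.g (nat_lit 3281) (.e (nat_lit 532544) (nat_lit 10) (.e (nat_lit 344133) (nat_lit 26) (.e (nat_lit 557098) (nat_lit 13) (.e (nat_lit 172045) (nat_lit 0) (.e (nat_lit 3307) (nat_lit 202) (.e (nat_lit 573447) (nat_lit 0) (.e (nat_lit 3067) (nat_lit 190) (.e (nat_lit 483072) (nat_lit 26) .nil)))))))) (.g (nat_lit 1) (.e (nat_lit 401235) (nat_lit 0) .nil) .nil)))))) 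
(.nd (nat_lit 7) (.nd (nat_lit 8) (.nd (nat_lit 9) 
(.lf (nat_lit 590913) (.g (nat_lit 3397) (.e (nat_lit 532526) (nat_lit 8) (.e (nat_lit 327699) (nat_lit 8) (.e (nat_lit 303119) (nat_lit 3) (.e (nat_lit 204849) (nat_lit 25) (.e (nat_lit 327681) (nat_lit 0) (.e (nat_lit 5762) (nat_lit 315) (.e (nat_lit 163962) (nat_lit 25) .nil))))))) (.g (nat_lit 1) (.e (nat_lit 399065) (nat_lit 0) .nil) .nil))) 
(.lf (nat_lit 591425) (.g (nat_lit 1132) (.e (nat_lit 532544) (nat_lit 10) (.e (nat_lit 344081) (nat_lit 13) (.e (nat_lit 1141) (nat_lit 84) (.e (nat_lit 32787) (nat_lit 9) (.e (nat_lit 65581) (nat_lit 7) (.e (nat_lit 319504) (nat_lit 10) (.e (nat_lit 7936) (nat_lit 45) .nil))))))) (.g (nat_lit 1) (.e (nat_lit 400911) (nat_lit 0) .nil) .nil)))) (.nd (nat_lit 9) 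
(.lf (nat_lit 591169) (.g (nat_lit 3704) (.e (nat_lit 532535) (nat_lit 9) (.e (nat_lit 336099) (nat_lit 9) (.e (nat_lit 335886) (nat_lit 0) (.e (nat_lit 1848) (nat_lit 124) (.e (nat_lit 557087) (nat_lit 11) (.e (nat_lit 24617) (nat_lit 7) (.e (nat_lit 319505) (nat_lit 10) (.e (nat_lit 7936) (nat_lit 45) .nil)))))))) (.g (nat_lit 1) (.e (nat_lit 399979) (nat_lit 0) .nil) .nil))) 
(.lf (nat_lit 591681) (.g (nat_lit 2283) (.e (nat_lit 532544) (nat_lit 10) (.e (nat_lit 344132) (nat_lit 26) (.e (nat_lit 557101) (nat_lit 13) (.e (nat_lit 172063) (nat_lit 2) (.e (nat_lit 196622) (nat_lit 9) (.e (nat_lit 488) (nat_lit 38) (.e (nat_lit 483072) (nat_lit 26) .nil))))))) (.g (nat_lit 1) (.e (nat_lit 401171) (nat_lit 0) .nil) .nil))))) (.nd (nat_lit 8) (.nd (nat_lit 9) 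
(.lf (nat_lit 591041) (.g (nat_lit 347) (.e (nat_lit 532530) (nat_lit 9) (.e (nat_lit 336326) (nat_lit 18) (.e (nat_lit 204882) (nat_lit 32) .nil))) (.g (nat_lit 0) (.e (nat_lit 399533) (nat_lit 0) .nil) .nil))) 
(.lf (nat_lit 591553) (.g (nat_lit 1290) (.e (nat_lit 532544) (nat_lit 10) (.e (nat_lit 344130) (nat_lit 26) (.e (nat_lit 557104) (nat_lit 14) (.e (nat_lit 180234) (nat_lit 1) .nil)))) (.g (nat_lit 0) (.e (nat_lit 401043) (nat_lit 0) .nil) .nil)))) (.nd (nat_lit 9) 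
(.lf (nat_lit 591297) (.g (nat_lit 4345) (.e (nat_lit 532535) (nat_lit 9) (.e (nat_lit 336163) (nat_lit 10) (.e (nat_lit 344133) (nat_lit 26) (.e (nat_lit 557087) (nat_lit 11) (.e (nat_lit 24617) (nat_lit 7) (.e (nat_lit 319504) (nat_lit 10) (.e (nat_lit 7936) (nat_lit 45) .nil))))))) (.g (nat_lit 1) (.e (nat_lit 400414) (nat_lit 0) .nil) .nil))) 
(.lf (nat_lit 591809) (.g (nat_lit 1877) (.e (nat_lit 532544) (nat_lit 10) (.e (nat_lit 344133) (nat_lit 26) (.e (nat_lit 557105) (nat_lit 14) (.e (nat_lit 180250) (nat_lit 10) .nil)))) (.g (nat_lit 0) (.e (nat_lit 401299) (nat_lit 0) .nil) .nil))))))) (.nd (nat_lit 6) (.nd (nat_lit 7) (.nd (nat_lit 8) (.nd (nat_lit 9) 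
(.lf (nat_lit 590881) (.g (nat_lit 2583) (.e (nat_lit 540416) (nat_lit 7) (.e (nat_lit 319534) (nat_lit 16) (.e (nat_lit 286734) (nat_lit 3) (.e (nat_lit 98372) (nat_lit 29) (.e (nat_lit 450579) (nat_lit 5) .nil))))) (.g (nat_lit 0) (.e (nat_lit 398995) (nat_lit 0) .nil) .nil))) 
(.lf (nat_lit 591393) (.g (nat_lit 2416) (.e (nat_lit 532542) (nat_lit 9) (.e (nat_lit 336204) (nat_lit 12) (.e (nat_lit 385074) (nat_lit 31) (.e (nat_lit 573487) (nat_lit 14) (.e (nat_lit 73779) (nat_lit 32) .nil))))) (.g (nat_lit 0) (.e (nat_lit 400872) (nat_lit 0) .nil) .nil)))) (.nd (nat_lit 9) 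
(.lf (nat_lit 591137) (.g (nat_lit 1049) (.e (nat_lit 532534) (nat_lit 9) (.e (nat_lit 336211) (nat_lit 13) (.e (nat_lit 393252) (nat_lit 18) (.e (nat_lit 164159) (nat_lit 152) .nil)))) (.g (nat_lit 0) (.e (nat_lit 399817) (nat_lit 0) .nil) .nil))) 
(.lf (nat_lit 591649) (.g (nat_lit 2601) (.e (nat_lit 532544) (nat_lit 10) (.e (nat_lit 344132) (nat_lit 26) (.e (nat_lit 557100) (nat_lit 13) (.e (nat_lit 172062) (nat_lit 2) (.e (nat_lit 196620) (nat_lit 9) (.e (nat_lit 488) (nat_lit 38) (.e (nat_lit 483072) (nat_lit 26) .nil))))))) (.g (nat_lit 1) (.e (nat_lit 401139) (nat_lit 0) .nil) .nil))))) (.nd (nat_lit 8) (.nd (nat_lit 9) 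
(.lf (nat_lit 591009) (.g (nat_lit 1088) (.e (nat_lit 532530) (nat_lit 9) (.e (nat_lit 336210) (nat_lit 13) (.e (nat_lit 393251) (nat_lit 18) (.e (nat_lit 164182) (nat_lit 154) .nil)))) (.g (nat_lit 0) (.e (nat_lit 399409) (nat_lit 0) .nil) .nil))) 
(.lf (nat_lit 591521) (.g (nat_lit 2306) (.e (nat_lit 532544) (nat_lit 10) (.e (nat_lit 344130) (nat_lit 26) (.e (nat_lit 557097) (nat_lit 13) (.e (nat_lit 172064) (nat_lit 2) (.e (nat_lit 196628) (nat_lit 9) (.e (nat_lit 488) (nat_lit 38) (.e (nat_lit 483072) (nat_lit 26) .nil))))))) (.g (nat_lit 1) (.e (nat_lit 401011) (nat_lit 0) .nil) .nil)))) (.nd (nat_lit 9) 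
(.lf (nat_lit 591265) (.g (nat_lit 3303) (.e (nat_lit 532535) (nat_lit 9) (.e (nat_lit 336099) (nat_lit 9) (.e (nat_lit 336028) (nat_lit 3) (.e (nat_lit 98349) (nat_lit 24) (.e (nat_lit 409645) (nat_lit 18) (.e (nat_lit 303106) (nat_lit 0) (.e (nat_lit 7936) (nat_lit 197) .nil))))))) (.g (nat_lit 1) (.e (nat_lit 400316) (nat_lit 0) .nil) .nil))) 
(.lf (nat_lit 591777) (.g (nat_lit 2948) (.e (nat_lit 532544) (nat_lit 10) (.e (nat_lit 344133) (nat_lit 26) (.e (nat_lit 557103) (nat_lit 14) (.e (nat_lit 180225) (nat_lit 0) (.e (nat_lit 4301) (nat_lit 256) (.e (nat_lit 229419) (nat_lit 18) (.e (nat_lit 483072) (nat_lit 26) .nil))))))) (.g (nat_lit 1) (.e (nat_lit 401267) (nat_lit 0) .nil) .nil)))))) 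
(.nd (nat_lit 7) (.nd (nat_lit 8) (.nd (nat_lit 9) 
(.lf (nat_lit 590945) (.g (nat_lit 1538) (.e (nat_lit 532528) (nat_lit 9) (.e (nat_lit 336324) (nat_lit 18) (.e (nat_lit 204854) (nat_lit 26) (.e (nat_lit 336324) (nat_lit 18) .nil)))) (.g (nat_lit 0) (.e (nat_lit 399127) (nat_lit 0) .nil) .nil))) 
(.lf (nat_lit 591457) (.g (nat_lit 2105) (.e (nat_lit 532544) (nat_lit 10) (.e (nat_lit 344120) (nat_lit 21) (.e (nat_lit 516131) (nat_lit 3) (.e (nat_lit 221212) (nat_lit 22) (.e (nat_lit 196610) (nat_lit 0) (.e (nat_lit 3067) (nat_lit 190) (.e (nat_lit 483072) (nat_lit 26) .nil))))))) (.g (nat_lit 1) (.e (nat_lit 400946) (nat_lit 0) .nil) .nil)))) (.nd (nat_lit 9) 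
(.lf (nat_lit 591201) (.g (nat_lit 5737) (.e (nat_lit 532535) (nat_lit 9) (.e (nat_lit 336099) (nat_lit 9) (.e (nat_lit 336013) (nat_lit 2) (.e (nat_lit 90134) (nat_lit 9) (.e (nat_lit 2822) (nat_lit 182) (.e (nat_lit 409646) (nat_lit 18) (.e (nat_lit 303112) (nat_lit 0) (.e (nat_lit 3251) (nat_lit 197) .nil)))))))) (.g (nat_lit 1) (.e (nat_lit 400058) (nat_lit 0) .nil) .nil))) 
(.lf (nat_lit 591713) (.g (nat_lit 2586) (.e (nat_lit 532544) (nat_lit 10) (.e (nat_lit 344132) (nat_lit 26) (.e (nat_lit 557105) (nat_lit 14) (.e (nat_lit 180252) (nat_lit 10) (.e (nat_lit 573441) (nat_lit 0) (.e (nat_lit 3065) (nat_lit 190) (.e (nat_lit 483072) (nat_lit 26) .nil))))))) (.g (nat_lit 1) (.e (nat_lit 401203) (nat_lit 0) .nil) .nil))))) (.nd (nat_lit 8) (.nd (nat_lit 9) 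
(.lf (nat_lit 591073) (.g (nat_lit 3069) (.e (nat_lit 532532) (nat_lit 9) (.e (nat_lit 336324) (nat_lit 18) (.e (nat_lit 204852) (nat_lit 26) (.e (nat_lit 336324) (nat_lit 18) (.e (nat_lit 204880) (nat_lit 32) (.e (nat_lit 385066) (nat_lit 26) .nil)))))) (.g (nat_lit 1) (.e (nat_lit 399692) (nat_lit 0) .nil) .nil))) 
(.lf (nat_lit 591585) (.g (nat_lit 2314) (.e (nat_lit 532544) (nat_lit 10) (.e (nat_lit 344131) (nat_lit 26) (.e (nat_lit 557098) (nat_lit 13) (.e (nat_lit 172064) (nat_lit 2) (.e (nat_lit 196622) (nat_lit 9) .nil))))) (.g (nat_lit 0) (.e (nat_lit 401075) (nat_lit 0) .nil) .nil)))) (.nd (nat_lit 9) 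
(.lf (nat_lit 591329) (.g (nat_lit 2401) (.e (nat_lit 532535) (nat_lit 9) (.e (nat_lit 336176) (nat_lit 10) (.e (nat_lit 344130) (nat_lit 26) (.e (nat_lit 557065) (nat_lit 9) (.e (nat_lit 214) (nat_lit 19) (.e (nat_lit 319493) (nat_lit 0) (.e (nat_lit 5761) (nat_lit 315) (.e (nat_lit 163962) (nat_lit 25) .nil)))))))) (.g (nat_lit 1) (.e (nat_lit 400542) (nat_lit 0) .nil) .nil))) 
(.lf (nat_lit 591841) (.g (nat_lit 2683) (.e (nat_lit 532544) (nat_lit 10) (.e (nat_lit 344133) (nat_lit 26) (.e (nat_lit 557105) (nat_lit 14) (.e (nat_lit 180252) (nat_lit 10) (.e (nat_lit 573474) (nat_lit 12) .nil))))) (.g (nat_lit 0) (.e (nat_lit 401331) (nat_lit 0) .nil) .nil)))))))) (.nd (nat_lit 5) (.nd (nat_lit 6) (.nd (nat_lit 7) (.nd (nat_lit 8) (.nd (nat_lit 9) 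
(.lf (nat_lit 590865) (.g (nat_lit 1559) (.e (nat_lit 532523) (nat_lit 7) (.e (nat_lit 319534) (nat_lit 16) (.e (nat_lit 286735) (nat_lit 3) (.e (nat_lit 98365) (nat_lit 26) .nil)))) (.g (nat_lit 0) (.e (nat_lit 398977) (nat_lit 0) .nil) .nil))) 
(.lf (nat_lit 591377) (.g (nat_lit 1447) (.e (nat_lit 532542) (nat_lit 9) (.e (nat_lit 336075) (nat_lit 9) (.e (nat_lit 336456) (nat_lit 34) (.e (nat_lit 483350) (nat_lit 17) (.e (nat_lit 1996) (nat_lit 137) .nil))))) (.g (nat_lit 0) (.e (nat_lit 400838) (nat_lit 0) .nil) .nil)))) (.nd (nat_lit 9) 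
(.lf (nat_lit 591121) (.g (nat_lit 2100) (.e (nat_lit 532533) (nat_lit 9) (.e (nat_lit 336324) (nat_lit 18) (.e (nat_lit 204882) (nat_lit 32) (.e (nat_lit 385066) (nat_lit 26) (.e (nat_lit 532566) (nat_lit 15) .nil))))) (.g (nat_lit 0) (.e (nat_lit 399770) (nat_lit 0) .nil) .nil))) 
(.lf (nat_lit 591633) (.g (nat_lit 2307) (.e (nat_lit 532544) (nat_lit 10) (.e (nat_lit 344131) (nat_lit 26) (.e (nat_lit 557105) (nat_lit 14) (.e (nat_lit 180252) (nat_lit 10) (.e (nat_lit 573441) (nat_lit 0) (.e (nat_lit 3065) (nat_lit 190) (.e (nat_lit 483072) (nat_lit 26) .nil))))))) (.g (nat_lit 1) (.e (nat_lit 401123) (nat_lit 0) .nil) .nil))))) (.nd (nat_lit 8) (.nd (nat_lit 9) 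
(.lf (nat_lit 590993) (.g (nat_lit 3769) (.e (nat_lit 532529) (nat_lit 9) (.e (nat_lit 336326) (nat_lit 18) (.e (nat_lit 204863) (nat_lit 27) (.e (nat_lit 344133) (nat_lit 26) (.e (nat_lit 557098) (nat_lit 13) (.e (nat_lit 172127) (nat_lit 15) (.e (nat_lit 7936) (nat_lit 121) .nil))))))) (.g (nat_lit 1) (.e (nat_lit 399333) (nat_lit 0) .nil) .nil))) 
(.lf (nat_lit 591505) (.g (nat_lit 2912) (.e (nat_lit 532544) (nat_lit 10) (.e (nat_lit 344129) (nat_lit 26) (.e (nat_lit 557104) (nat_lit 14) (.e (nat_lit 180252) (nat_lit 10) (.e (nat_lit 581376) (nat_lit 0) (.e (nat_lit 2887) (nat_lit 184) (.e (nat_lit 426412) (nat_lit 15) (.e (nat_lit 7936) (nat_lit 121) .nil)))))))) (.g (nat_lit 1) (.e (nat_lit 400995) (nat_lit 0) .nil) .nil)))) 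
(.nd (nat_lit 9) 
(.lf (nat_lit 591249) (.g (nat_lit 3675) (.e (nat_lit 532535) (nat_lit 9) (.e (nat_lit 336099) (nat_lit 9) (.e (nat_lit 336013) (nat_lit 2) (.e (nat_lit 90165) (nat_lit 12) (.e (nat_lit 164218) (nat_lit 179) (.e (nat_lit 164283) (nat_lit 223) (.e (nat_lit 123002) (nat_lit 86) .nil))))))) (.g (nat_lit 1) (.e (nat_lit 400123) (nat_lit 0) .nil) .nil))) 
(.lf (nat_lit 591761) (.g (nat_lit 2834) (.e (nat_lit 532544) (nat_lit 10) (.e (nat_lit 344133) (nat_lit 26) (.e (nat_lit 557098) (nat_lit 13) (.e (nat_lit 172064) (nat_lit 2) (.e (nat_lit 196628) (nat_lit 9) (.e (nat_lit 486) (nat_lit 38) (.e (nat_lit 483072) (nat_lit 26) .nil))))))) (.g (nat_lit 1) (.e (nat_lit 401251) (nat_lit 0) .nil) .nil)))))) 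
(.nd (nat_lit 7) (.nd (nat_lit 8) (.nd (nat_lit 9) 
(.lf (nat_lit 590929) (.g (nat_lit 2612) (.e (nat_lit 532527) (nat_lit 9) (.e (nat_lit 336177) (nat_lit 10) (.e (nat_lit 344129) (nat_lit 26) (.e (nat_lit 557087) (nat_lit 11) (.e (nat_lit 24617) (nat_lit 7) .nil))))) (.g (nat_lit 0) (.e (nat_lit 399103) (nat_lit 0) .nil) .nil))) 
(.lf (nat_lit 591441) (.g (nat_lit 2862) (.e (nat_lit 532544) (nat_lit 10) (.e (nat_lit 344117) (nat_lit 21) (.e (nat_lit 516130) (nat_lit 3) (.e (nat_lit 221212) (nat_lit 22) (.e (nat_lit 196610) (nat_lit 0) (.e (nat_lit 3067) (nat_lit 190) (.e (nat_lit 483072) (nat_lit 26) .nil))))))) (.g (nat_lit 1) (.e (nat_lit 400930) (nat_lit 0) .nil) .nil)))) (.nd (nat_lit 9) 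
(.lf (nat_lit 591185) (.g (nat_lit 3522) (.e (nat_lit 532535) (nat_lit 9) (.e (nat_lit 336099) (nat_lit 9) (.e (nat_lit 335936) (nat_lit 0) (.e (nat_lit 1848) (nat_lit 124) (.e (nat_lit 557087) (nat_lit 11) (.e (nat_lit 24617) (nat_lit 7) (.e (nat_lit 319505) (nat_lit 10) (.e (nat_lit 7936) (nat_lit 45) .nil)))))))) (.g (nat_lit 1) (.e (nat_lit 400013) (nat_lit 0) .nil) .nil))) 
(.lf (nat_lit 591697) (.g (nat_lit 1923) (.e (nat_lit 532544) (nat_lit 10) (.e (nat_lit 344132) (nat_lit 26) (.e (nat_lit 557103) (nat_lit 14) (.e (nat_lit 180250) (nat_lit 10) (.e (nat_lit 573443) (nat_lit 0) .nil))))) (.g (nat_lit 0) (.e (nat_lit 401187) (nat_lit 0) .nil) .nil))))) (.nd (nat_lit 8) (.nd (nat_lit 9) 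
(.lf (nat_lit 591057) (.g (nat_lit 2008) (.e (nat_lit 532531) (nat_lit 9) (.e (nat_lit 336324) (nat_lit 18) (.e (nat_lit 204854) (nat_lit 26) (.e (nat_lit 336316) (nat_lit 17) (.e (nat_lit 196665) (nat_lit 13) .nil))))) (.g (nat_lit 0) (.e (nat_lit 399587) (nat_lit 0) .nil) .nil))) 
(.lf (nat_lit 591569) (.g (nat_lit 2330) (.e (nat_lit 532544) (nat_lit 10) (.e (nat_lit 344130) (nat_lit 26) (.e (nat_lit 557104) (nat_lit 14) (.e (nat_lit 180252) (nat_lit 10) (.e (nat_lit 581376) (nat_lit 0) (.e (nat_lit 3061) (nat_lit 190) (.e (nat_lit 483072) (nat_lit 26) .nil))))))) (.g (nat_lit 1) (.e (nat_lit 401059) (nat_lit 0) .nil) .nil)))) (.nd (nat_lit 9) 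
(.lf (nat_lit 591313) (.g (nat_lit 5489) (.e (nat_lit 532535) (nat_lit 9) (.e (nat_lit 336173) (nat_lit 10) (.e (nat_lit 344117) (nat_lit 21) (.e (nat_lit 516139) (nat_lit 7) (.e (nat_lit 409645) (nat_lit 18) (.e (nat_lit 303112) (nat_lit 0) (.e (nat_lit 3252) (nat_lit 197) .nil))))))) (.g (nat_lit 1) (.e (nat_lit 400435) (nat_lit 0) .nil) .nil))) 
(.lf (nat_lit 591825) (.g (nat_lit 2989) (.e (nat_lit 532544) (nat_lit 10) (.e (nat_lit 344133) (nat_lit 26) (.e (nat_lit 557105) (nat_lit 14) (.e (nat_lit 180252) (nat_lit 10) (.e (nat_lit 581376) (nat_lit 0) (.e (nat_lit 3058) (nat_lit 190) (.e (nat_lit 483072) (nat_lit 26) .nil))))))) (.g (nat_lit 1) (.e (nat_lit 401315) (nat_lit 0) .nil) .nil))))))) 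
(.nd (nat_lit 6) (.nd (nat_lit 7) (.nd (nat_lit 8) (.nd (nat_lit 9) 
(.lf (nat_lit 590897) (.g (nat_lit 1713) (.e (nat_lit 532526) (nat_lit 8) (.e (nat_lit 327699) (nat_lit 8) (.e (nat_lit 303117) (nat_lit 2) (.e (nat_lit 196669) (nat_lit 14) .nil)))) (.g (nat_lit 0) (.e (nat_lit 399045) (nat_lit 0) .nil) .nil))) 
(.lf (nat_lit 591409) (.g (nat_lit 3142) (.e (nat_lit 532543) (nat_lit 10) (.e (nat_lit 344129) (nat_lit 26) (.e (nat_lit 557103) (nat_lit 14) (.e (nat_lit 180243) (nat_lit 5) (.e (nat_lit 532504) (nat_lit 1) (.e (nat_lit 57703) (nat_lit 164) (.e (nat_lit 2601) (nat_lit 163) (.e (nat_lit 163962) (nat_lit 25) .nil)))))))) (.g (nat_lit 1) (.e (nat_lit 400890) (nat_lit 0) .nil) .nil)))) 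
(.nd (nat_lit 9) 
(.lf (nat_lit 591153) (.g (nat_lit 2228) (.e (nat_lit 532534) (nat_lit 9) (.e (nat_lit 336324) (nat_lit 18) (.e (nat_lit 204882) (nat_lit 32) (.e (nat_lit 385066) (nat_lit 26) (.e (nat_lit 532565) (nat_lit 15) (.e (nat_lit 385065) (nat_lit 26) .nil)))))) (.g (nat_lit 1) (.e (nat_lit 399848) (nat_lit 0) .nil) .nil))) 
(.lf (nat_lit 591665) (.g (nat_lit 2775) (.e (nat_lit 532544) (nat_lit 10) (.e (nat_lit 344132) (nat_lit 26) (.e (nat_lit 557100) (nat_lit 13) (.e (nat_lit 172067) (nat_lit 3) (.e (nat_lit 212736) (nat_lit 15) (.e (nat_lit 483072) (nat_lit 26) .nil)))))) (.g (nat_lit 1) (.e (nat_lit 401155) (nat_lit 0) .nil) .nil))))) (.nd (nat_lit 8) (.nd (nat_lit 9) 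
(.lf (nat_lit 591025) (.g (nat_lit 3104) (.e (nat_lit 532530) (nat_lit 9) (.e (nat_lit 336326) (nat_lit 18) (.e (nat_lit 204851) (nat_lit 26) (.e (nat_lit 336324) (nat_lit 18) (.e (nat_lit 204882) (nat_lit 32) (.e (nat_lit 385067) (nat_lit 26) .nil)))))) (.g (nat_lit 1) (.e (nat_lit 399480) (nat_lit 0) .nil) .nil))) 
(.lf (nat_lit 591537) (.g (nat_lit 2638) (.e (nat_lit 532544) (nat_lit 10) (.e (nat_lit 344130) (nat_lit 26) (.e (nat_lit 557103) (nat_lit 14) (.e (nat_lit 180243) (nat_lit 5) (.e (nat_lit 540416) (nat_lit 32) (.e (nat_lit 483072) (nat_lit 26) .nil)))))) (.g (nat_lit 1) (.e (nat_lit 401027) (nat_lit 0) .nil) .nil)))) (.nd (nat_lit 9) 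
(.lf (nat_lit 591281) (.g (nat_lit 3911) (.e (nat_lit 532535) (nat_lit 9) (.e (nat_lit 336099) (nat_lit 9) (.e (nat_lit 336028) (nat_lit 3) (.e (nat_lit 98350) (nat_lit 24) (.e (nat_lit 409616) (nat_lit 10) (.e (nat_lit 5763) (nat_lit 315) (.e (nat_lit 163961) (nat_lit 25) .nil))))))) (.g (nat_lit 1) (.e (nat_lit 400333) (nat_lit 0) .nil) .nil))) 
(.lf (nat_lit 591793) (.g (nat_lit 2689) (.e (nat_lit 532544) (nat_lit 10) (.e (nat_lit 344133) (nat_lit 26) (.e (nat_lit 557103) (nat_lit 14) (.e (nat_lit 180250) (nat_lit 10) (.e (nat_lit 573444) (nat_lit 0) (.e (nat_lit 3062) (nat_lit 190) (.e (nat_lit 483072) (nat_lit 26) .nil))))))) (.g (nat_lit 1) (.e (nat_lit 401283) (nat_lit 0) .nil) .nil)))))) 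
(.nd (nat_lit 7) (.nd (nat_lit 8) (.nd (nat_lit 9) 
(.lf (nat_lit 590961) (.g (nat_lit 786) (.e (nat_lit 532529) (nat_lit 9) (.e (nat_lit 336324) (nat_lit 18) (.e (nat_lit 204881) (nat_lit 32) (.e (nat_lit 385066) (nat_lit 26) .nil)))) (.g (nat_lit 0) (.e (nat_lit 399292) (nat_lit 0) .nil) .nil))) 
(.lf (nat_lit 591473) (.g (nat_lit 2958) (.e (nat_lit 532544) (nat_lit 10) (.e (nat_lit 344129) (nat_lit 26) (.e (nat_lit 557097) (nat_lit 13) (.e (nat_lit 172067) (nat_lit 3) (.e (nat_lit 212736) (nat_lit 15) (.e (nat_lit 483072) (nat_lit 26) .nil)))))) (.g (nat_lit 1) (.e (nat_lit 400963) (nat_lit 0) .nil) .nil)))) (.nd (nat_lit 9) 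
(.lf (nat_lit 591217) (.g (nat_lit 3006) (.e (nat_lit 532535) (nat_lit 9) (.e (nat_lit 336099) (nat_lit 9) (.e (nat_lit 336013) (nat_lit 2) (.e (nat_lit 90145) (nat_lit 9) .nil)))) (.g (nat_lit 0) (.e (nat_lit 400088) (nat_lit 0) .nil) .nil))) 
(.lf (nat_lit 591729) (.g (nat_lit 2225) (.e (nat_lit 532544) (nat_lit 10) (.e (nat_lit 344132) (nat_lit 26) (.e (nat_lit 557105) (nat_lit 14) (.e (nat_lit 180252) (nat_lit 10) (.e (nat_lit 581376) (nat_lit 0) (.e (nat_lit 3074) (nat_lit 190) (.e (nat_lit 483072) (nat_lit 26) .nil))))))) (.g (nat_lit 1) (.e (nat_lit 401219) (nat_lit 0) .nil) .nil))))) (.nd (nat_lit 8) (.nd (nat_lit 9) 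
(.lf (nat_lit 591089) (.g (nat_lit 2427) (.e (nat_lit 532532) (nat_lit 9) (.e (nat_lit 336326) (nat_lit 18) (.e (nat_lit 204854) (nat_lit 26) (.e (nat_lit 336325) (nat_lit 18) (.e (nat_lit 204880) (nat_lit 32) .nil))))) (.g (nat_lit 0) (.e (nat_lit 399709) (nat_lit 0) .nil) .nil))) 
(.lf (nat_lit 591601) (.g (nat_lit 1429) (.e (nat_lit 532544) (nat_lit 10) (.e (nat_lit 344131) (nat_lit 26) (.e (nat_lit 557101) (nat_lit 13) (.e (nat_lit 172051) (nat_lit 0) (.e (nat_lit 3307) (nat_lit 202) (.e (nat_lit 573446) (nat_lit 0) (.e (nat_lit 3067) (nat_lit 190) (.e (nat_lit 483072) (nat_lit 26) .nil)))))))) (.g (nat_lit 1) (.e (nat_lit 401091) (nat_lit 0) .nil) .nil)))) 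
(.nd (nat_lit 9) 
(.lf (nat_lit 591345) (.g (nat_lit 1970) (.e (nat_lit 532535) (nat_lit 9) (.e (nat_lit 336176) (nat_lit 10) (.e (nat_lit 344133) (nat_lit 26) (.e (nat_lit 557067) (nat_lit 9) .nil)))) (.g (nat_lit 0) (.e (nat_lit 400688) (nat_lit 0) .nil) .nil))) 
(.lf (nat_lit 591857) (.g (nat_lit 1570) (.e (nat_lit 532546) (nat_lit 11) (.e (nat_lit 352313) (nat_lit 23) (.e (nat_lit 98350) (nat_lit 24) (.e (nat_lit 409616) (nat_lit 10) .nil)))) (.g (nat_lit 0) (.e (nat_lit 401361) (nat_lit 0) .nil) .nil))))))))) (.nd (nat_lit 4) (.nd (nat_lit 5) (.nd (nat_lit 6) (.nd (nat_lit 7) (.nd (nat_lit 8) (.nd (nat_lit 9) 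
(.lf (nat_lit 590857) (.g (nat_lit 3802) (.e (nat_lit 532523) (nat_lit 7) (.e (nat_lit 319534) (nat_lit 16) (.e (nat_lit 286734) (nat_lit 3) (.e (nat_lit 98381) (nat_lit 31) (.e (nat_lit 466967) (nat_lit 20) (.e (nat_lit 3253) (nat_lit 197) .nil)))))) (.g (nat_lit 1) (.e (nat_lit 398969) (nat_lit 0) .nil) .nil))) 
(.lf (nat_lit 591369) (.g (nat_lit 4240) (.e (nat_lit 532535) (nat_lit 9) (.e (nat_lit 343808) (nat_lit 10) (.e (nat_lit 344129) (nat_lit 26) (.e (nat_lit 557087) (nat_lit 11) (.e (nat_lit 24617) (nat_lit 7) (.e (nat_lit 319505) (nat_lit 10) (.e (nat_lit 7936) (nat_lit 45) .nil))))))) (.g (nat_lit 1) (.e (nat_lit 400773) (nat_lit 0) .nil) .nil)))) (.nd (nat_lit 9) 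
(.lf (nat_lit 591113) (.g (nat_lit 1719) (.e (nat_lit 532533) (nat_lit 9) (.e (nat_lit 336324) (nat_lit 18) (.e (nat_lit 204854) (nat_lit 26) (.e (nat_lit 336324) (nat_lit 18) .nil)))) (.g (nat_lit 0) (.e (nat_lit 399761) (nat_lit 0) .nil) .nil))) 
(.lf (nat_lit 591625) (.g (nat_lit 1865) (.e (nat_lit 532544) (nat_lit 10) (.e (nat_lit 344131) (nat_lit 26) (.e (nat_lit 557105) (nat_lit 14) (.e (nat_lit 180227) (nat_lit 0) (.e (nat_lit 4301) (nat_lit 256) .nil))))) (.g (nat_lit 0) (.e (nat_lit 401115) (nat_lit 0) .nil) .nil))))) (.nd (nat_lit 8) (.nd (nat_lit 9) 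
(.lf (nat_lit 590985) (.g (nat_lit 2629) (.e (nat_lit 532529) (nat_lit 9) (.e (nat_lit 336326) (nat_lit 18) (.e (nat_lit 204863) (nat_lit 27) (.e (nat_lit 344133) (nat_lit 26) (.e (nat_lit 557096) (nat_lit 13) (.e (nat_lit 172127) (nat_lit 15) (.e (nat_lit 7936) (nat_lit 121) .nil))))))) (.g (nat_lit 1) (.e (nat_lit 399325) (nat_lit 0) .nil) .nil))) 
(.lf (nat_lit 591497) (.g (nat_lit 2600) (.e (nat_lit 532544) (nat_lit 10) (.e (nat_lit 344129) (nat_lit 26) (.e (nat_lit 557104) (nat_lit 14) (.e (nat_lit 180244) (nat_lit 5) (.e (nat_lit 540416) (nat_lit 32) .nil))))) (.g (nat_lit 0) (.e (nat_lit 400987) (nat_lit 0) .nil) .nil)))) (.nd (nat_lit 9) 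
(.lf (nat_lit 591241) (.g (nat_lit 3829) (.e (nat_lit 532535) (nat_lit 9) (.e (nat_lit 336099) (nat_lit 9) (.e (nat_lit 336013) (nat_lit 2) (.e (nat_lit 90165) (nat_lit 12) (.e (nat_lit 164218) (nat_lit 179) (.e (nat_lit 164262) (nat_lit 221) (.e (nat_lit 969) (nat_lit 81) (.e (nat_lit 596) (nat_lit 45) .nil)))))))) (.g (nat_lit 1) (.e (nat_lit 400112) (nat_lit 0) .nil) .nil))) 
(.lf (nat_lit 591753) (.g (nat_lit 3165) (.e (nat_lit 532544) (nat_lit 10) (.e (nat_lit 344133) (nat_lit 26) (.e (nat_lit 557098) (nat_lit 13) (.e (nat_lit 172062) (nat_lit 2) (.e (nat_lit 196624) (nat_lit 9) (.e (nat_lit 489) (nat_lit 38) (.e (nat_lit 483072) (nat_lit 26) .nil))))))) (.g (nat_lit 1) (.e (nat_lit 401243) (nat_lit 0) .nil) .nil)))))) 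
(.nd (nat_lit 7) (.nd (nat_lit 8) (.nd (nat_lit 9) 
(.lf (nat_lit 590921) (.g (nat_lit 4336) (.e (nat_lit 532526) (nat_lit 8) (.e (nat_lit 327715) (nat_lit 16) (.e (nat_lit 286732) (nat_lit 2) (.e (nat_lit 90170) (nat_lit 13) (.e (nat_lit 172106) (nat_lit 10) (.e (nat_lit 434231) (nat_lit 23) .nil)))))) (.g (nat_lit 1) (.e (nat_lit 399088) (nat_lit 0) .nil) .nil))) 
(.lf (nat_lit 591433) (.g (nat_lit 2591) (.e (nat_lit 532544) (nat_lit 10) (.e (nat_lit 344117) (nat_lit 21) (.e (nat_lit 516129) (nat_lit 3) (.e (nat_lit 221215) (nat_lit 23) (.e (nat_lit 204819) (nat_lit 17) .nil))))) (.g (nat_lit 0) (.e (nat_lit 400922) (nat_lit 0) .nil) .nil)))) (.nd (nat_lit 9) 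
(.lf (nat_lit 591177) (.g (nat_lit 3664) (.e (nat_lit 532535) (nat_lit 9) (.e (nat_lit 336099) (nat_lit 9) (.e (nat_lit 335921) (nat_lit 0) (.e (nat_lit 1848) (nat_lit 124) (.e (nat_lit 557087) (nat_lit 11) (.e (nat_lit 24617) (nat_lit 7) (.e (nat_lit 319505) (nat_lit 10) (.e (nat_lit 7936) (nat_lit 45) .nil)))))))) (.g (nat_lit 1) (.e (nat_lit 400002) (nat_lit 0) .nil) .nil))) 
(.lf (nat_lit 591689) (.g (nat_lit 2516) (.e (nat_lit 532544) (nat_lit 10) (.e (nat_lit 344132) (nat_lit 26) (.e (nat_lit 557101) (nat_lit 13) (.e (nat_lit 172067) (nat_lit 3) (.e (nat_lit 212736) (nat_lit 15) (.e (nat_lit 483072) (nat_lit 26) .nil)))))) (.g (nat_lit 1) (.e (nat_lit 401179) (nat_lit 0) .nil) .nil))))) (.nd (nat_lit 8) (.nd (nat_lit 9) 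
(.lf (nat_lit 591049) (.g (nat_lit 2409) (.e (nat_lit 532531) (nat_lit 9) (.e (nat_lit 336019) (nat_lit 3) (.e (nat_lit 98342) (nat_lit 20) (.e (nat_lit 221210) (nat_lit 22) (.e (nat_lit 196660) (nat_lit 12) .nil))))) (.g (nat_lit 0) (.e (nat_lit 399572) (nat_lit 0) .nil) .nil))) 
(.lf (nat_lit 591561) (.g (nat_lit 1987) (.e (nat_lit 532544) (nat_lit 10) (.e (nat_lit 344130) (nat_lit 26) (.e (nat_lit 557104) (nat_lit 14) (.e (nat_lit 180252) (nat_lit 10) (.e (nat_lit 573442) (nat_lit 0) .nil))))) (.g (nat_lit 0) (.e (nat_lit 401051) (nat_lit 0) .nil) .nil)))) (.nd (nat_lit 9) 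
(.lf (nat_lit 591305) (.g (nat_lit 2506) (.e (nat_lit 532535) (nat_lit 9) (.e (nat_lit 336169) (nat_lit 10) (.e (nat_lit 344133) (nat_lit 26) (.e (nat_lit 557087) (nat_lit 11) (.e (nat_lit 24665) (nat_lit 14) .nil))))) (.g (nat_lit 0) (.e (nat_lit 400422) (nat_lit 0) .nil) .nil))) 
(.lf (nat_lit 591817) (.g (nat_lit 3119) (.e (nat_lit 532544) (nat_lit 10) (.e (nat_lit 344133) (nat_lit 26) (.e (nat_lit 557105) (nat_lit 14) (.e (nat_lit 180252) (nat_lit 10) (.e (nat_lit 573441) (nat_lit 0) (.e (nat_lit 3055) (nat_lit 190) (.e (nat_lit 483072) (nat_lit 26) .nil))))))) (.g (nat_lit 1) (.e (nat_lit 401307) (nat_lit 0) .nil) .nil))))))) 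
(.nd (nat_lit 6) (.nd (nat_lit 7) (.nd (nat_lit 8) (.nd (nat_lit 9) 
(.lf (nat_lit 590889) (.g (nat_lit 2989) (.e (nat_lit 532526) (nat_lit 8) (.e (nat_lit 327698) (nat_lit 8) (.e (nat_lit 303117) (nat_lit 2) (.e (nat_lit 196670) (nat_lit 14) (.e (nat_lit 81664) (nat_lit 35) (.e (nat_lit 163962) (nat_lit 25) .nil)))))) (.g (nat_lit 1) (.e (nat_lit 399029) (nat_lit 0) .nil) .nil))) 
(.lf (nat_lit 591401) (.g (nat_lit 1683) (.e (nat_lit 532543) (nat_lit 10) (.e (nat_lit 344117) (nat_lit 21) (.e (nat_lit 516123) (nat_lit 2) (.e (nat_lit 213034) (nat_lit 12) .nil)))) (.g (nat_lit 0) (.e (nat_lit 400882) (nat_lit 0) .nil) .nil)))) (.nd (nat_lit 9) 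
(.lf (nat_lit 591145) (.g (nat_lit 1423) (.e (nat_lit 532534) (nat_lit 9) (.e (nat_lit 336324) (nat_lit 18) (.e (nat_lit 204854) (nat_lit 26) (.e (nat_lit 336306) (nat_lit 15) .nil)))) (.g (nat_lit 0) (.e (nat_lit 399838) (nat_lit 0) .nil) .nil))) 
(.lf (nat_lit 591657) (.g (nat_lit 2202) (.e (nat_lit 532544) (nat_lit 10) (.e (nat_lit 344132) (nat_lit 26) (.e (nat_lit 557100) (nat_lit 13) (.e (nat_lit 172064) (nat_lit 2) (.e (nat_lit 196656) (nat_lit 11) .nil))))) (.g (nat_lit 0) (.e (nat_lit 401147) (nat_lit 0) .nil) .nil))))) (.nd (nat_lit 8) (.nd (nat_lit 9) 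
(.lf (nat_lit 591017) (.g (nat_lit 2953) (.e (nat_lit 532530) (nat_lit 9) (.e (nat_lit 336324) (nat_lit 18) (.e (nat_lit 204880) (nat_lit 32) (.e (nat_lit 385066) (nat_lit 26) (.e (nat_lit 532566) (nat_lit 15) (.e (nat_lit 385068) (nat_lit 26) .nil)))))) (.g (nat_lit 1) (.e (nat_lit 399470) (nat_lit 0) .nil) .nil))) 
(.lf (nat_lit 591529) (.g (nat_lit 1457) (.e (nat_lit 532544) (nat_lit 10) (.e (nat_lit 344130) (nat_lit 26) (.e (nat_lit 557103) (nat_lit 14) (.e (nat_lit 180225) (nat_lit 0) .nil)))) (.g (nat_lit 0) (.e (nat_lit 401019) (nat_lit 0) .nil) .nil)))) (.nd (nat_lit 9) 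
(.lf (nat_lit 591273) (.g (nat_lit 4703) (.e (nat_lit 532535) (nat_lit 9) (.e (nat_lit 336099) (nat_lit 9) (.e (nat_lit 336028) (nat_lit 3) (.e (nat_lit 98349) (nat_lit 24) (.e (nat_lit 409646) (nat_lit 18) (.e (nat_lit 303112) (nat_lit 0) (.e (nat_lit 3251) (nat_lit 197) .nil))))))) (.g (nat_lit 1) (.e (nat_lit 400324) (nat_lit 0) .nil) .nil))) 
(.lf (nat_lit 591785) (.g (nat_lit 2485) (.e (nat_lit 532544) (nat_lit 10) (.e (nat_lit 344133) (nat_lit 26) (.e (nat_lit 557103) (nat_lit 14) (.e (nat_lit 180244) (nat_lit 5) (.e (nat_lit 540416) (nat_lit 32) (.e (nat_lit 483072) (nat_lit 26) .nil)))))) (.g (nat_lit 1) (.e (nat_lit 401275) (nat_lit 0) .nil) .nil)))))) (.nd (nat_lit 7) (.nd (nat_lit 8) (.nd (nat_lit 9) 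
(.lf (nat_lit 590953) (.g (nat_lit 1886) (.e (nat_lit 532528) (nat_lit 9) (.e (nat_lit 336324) (nat_lit 18) (.e (nat_lit 204882) (nat_lit 32) (.e (nat_lit 385067) (nat_lit 26) (.e (nat_lit 532563) (nat_lit 15) .nil))))) (.g (nat_lit 0) (.e (nat_lit 399138) (nat_lit 0) .nil) .nil))) 
(.lf (nat_lit 591465) (.g (nat_lit 2994) (.e (nat_lit 532544) (nat_lit 10) (.e (nat_lit 344129) (nat_lit 26) (.e (nat_lit 557097) (nat_lit 13) (.e (nat_lit 172045) (nat_lit 0) (.e (nat_lit 3308) (nat_lit 202) (.e (nat_lit 573446) (nat_lit 0) (.e (nat_lit 3067) (nat_lit 190) (.e (nat_lit 483072) (nat_lit 26) .nil)))))))) (.g (nat_lit 1) (.e (nat_lit 400955) (nat_lit 0) .nil) .nil)))) 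
(.nd (nat_lit 9) 
(.lf (nat_lit 591209) (.g (nat_lit 4036) (.e (nat_lit 532535) (nat_lit 9) (.e (nat_lit 336099) (nat_lit 9) (.e (nat_lit 336013) (nat_lit 2) (.e (nat_lit 90134) (nat_lit 9) (.e (nat_lit 2828) (nat_lit 182) .nil))))) (.g (nat_lit 0) (.e (nat_lit 400066) (nat_lit 0) .nil) .nil))) 
(.lf (nat_lit 591721) (.g (nat_lit 2334) (.e (nat_lit 532544) (nat_lit 10) (.e (nat_lit 344132) (nat_lit 26) (.e (nat_lit 557105) (nat_lit 14) (.e (nat_lit 180252) (nat_lit 10) (.e (nat_lit 581376) (nat_lit 0) (.e (nat_lit 3061) (nat_lit 190) (.e (nat_lit 483072) (nat_lit 26) .nil))))))) (.g (nat_lit 1) (.e (nat_lit 401211) (nat_lit 0) .nil) .nil))))) (.nd (nat_lit 8) (.nd (nat_lit 9) 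
(.lf (nat_lit 591081) (.g (nat_lit 1635) (.e (nat_lit 532532) (nat_lit 9) (.e (nat_lit 336324) (nat_lit 18) (.e (nat_lit 204880) (nat_lit 32) (.e (nat_lit 385066) (nat_lit 26) (.e (nat_lit 532565) (nat_lit 15) .nil))))) (.g (nat_lit 0) (.e (nat_lit 399700) (nat_lit 0) .nil) .nil))) 
(.lf (nat_lit 591593) (.g (nat_lit 2299) (.e (nat_lit 532544) (nat_lit 10) (.e (nat_lit 344131) (nat_lit 26) (.e (nat_lit 557098) (nat_lit 13) (.e (nat_lit 172133) (nat_lit 15) (.e (nat_lit 1800) (nat_lit 119) (.e (nat_lit 516119) (nat_lit 1) (.e (nat_lit 164345) (nat_lit 240) (.e (nat_lit 2599) (nat_lit 163) (.e (nat_lit 163962) (nat_lit 25) .nil))))))))) (.g (nat_lit 1) (.e (nat_lit 401083) (nat_lit 0) .nil) .nil)))) 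
(.nd (nat_lit 9) 
(.lf (nat_lit 591337) (.g (nat_lit 4441) (.e (nat_lit 532535) (nat_lit 9) (.e (nat_lit 336176) (nat_lit 10) (.e (nat_lit 344130) (nat_lit 26) (.e (nat_lit 557090) (nat_lit 12) (.e (nat_lit 164022) (nat_lit 46) (.e (nat_lit 704629) (nat_lit 9) (.e (nat_lit 442) (nat_lit 33) (.e (nat_lit 434230) (nat_lit 23) .nil)))))))) (.g (nat_lit 1) (.e (nat_lit 400636) (nat_lit 0) .nil) .nil))) 
(.lf (nat_lit 591849) (.g (nat_lit 2871) (.e (nat_lit 532544) (nat_lit 10) (.e (nat_lit 344133) (nat_lit 26) (.e (nat_lit 557105) (nat_lit 14) (.e (nat_lit 180252) (nat_lit 10) (.e (nat_lit 573475) (nat_lit 12) .nil))))) (.g (nat_lit 0) (.e (nat_lit 401339) (nat_lit 0) .nil) .nil)))))))) (.nd (nat_lit 5) (.nd (nat_lit 6) (.nd (nat_lit 7) (.nd (nat_lit 8) (.nd (nat_lit 9) 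
(.lf (nat_lit 590873) (.g (nat_lit 3391) (.e (nat_lit 532523) (nat_lit 7) (.e (nat_lit 319534) (nat_lit 16) (.e (nat_lit 286735) (nat_lit 3) (.e (nat_lit 98381) (nat_lit 31) (.e (nat_lit 466967) (nat_lit 20) (.e (nat_lit 3253) (nat_lit 197) .nil)))))) (.g (nat_lit 1) (.e (nat_lit 398985) (nat_lit 0) .nil) .nil))) 
(.lf (nat_lit 591385) (.g (nat_lit 1224) (.e (nat_lit 532542) (nat_lit 9) (.e (nat_lit 336194) (nat_lit 12) (.e (nat_lit 385066) (nat_lit 26) (.e (nat_lit 532513) (nat_lit 3) .nil)))) (.g (nat_lit 0) (.e (nat_lit 400853) (nat_lit 0) .nil) .nil)))) (.nd (nat_lit 9) 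
(.lf (nat_lit 591129) (.g (nat_lit 2333) (.e (nat_lit 532534) (nat_lit 9) (.e (nat_lit 336019) (nat_lit 3) (.e (nat_lit 98342) (nat_lit 20) (.e (nat_lit 221210) (nat_lit 22) (.e (nat_lit 204544) (nat_lit 19) .nil))))) (.g (nat_lit 0) (.e (nat_lit 399801) (nat_lit 0) .nil) .nil))) 
(.lf (nat_lit 591641) (.g (nat_lit 2134) (.e (nat_lit 532544) (nat_lit 10) (.e (nat_lit 344131) (nat_lit 26) (.e (nat_lit 557105) (nat_lit 14) (.e (nat_lit 180252) (nat_lit 10) (.e (nat_lit 581376) (nat_lit 0) (.e (nat_lit 3062) (nat_lit 190) (.e (nat_lit 483072) (nat_lit 26) .nil))))))) (.g (nat_lit 1) (.e (nat_lit 401131) (nat_lit 0) .nil) .nil))))) (.nd (nat_lit 8) (.nd (nat_lit 9) 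
(.lf (nat_lit 591001) (.g (nat_lit 411) (.e (nat_lit 532529) (nat_lit 9) (.e (nat_lit 336326) (nat_lit 18) (.e (nat_lit 204864) (nat_lit 27) .nil))) (.g (nat_lit 0) (.e (nat_lit 399341) (nat_lit 0) .nil) .nil))) 
(.lf (nat_lit 591513) (.g (nat_lit 3649) (.e (nat_lit 532544) (nat_lit 10) (.e (nat_lit 344130) (nat_lit 26) (.e (nat_lit 557097) (nat_lit 13) (.e (nat_lit 172045) (nat_lit 0) (.e (nat_lit 3307) (nat_lit 202) (.e (nat_lit 573440) (nat_lit 0) (.e (nat_lit 3067) (nat_lit 190) (.e (nat_lit 483072) (nat_lit 26) .nil)))))))) (.g (nat_lit 1) (.e (nat_lit 401003) (nat_lit 0) .nil) .nil)))) 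
(.nd (nat_lit 9) 
(.lf (nat_lit 591257) (.g (nat_lit 5071) (.e (nat_lit 532535) (nat_lit 9) (.e (nat_lit 336099) (nat_lit 9) (.e (nat_lit 336013) (nat_lit 2) (.e (nat_lit 90170) (nat_lit 13) (.e (nat_lit 172042) (nat_lit 0) .nil))))) (.g (nat_lit 0) (.e (nat_lit 400134) (nat_lit 0) .nil) .nil))) 
(.lf (nat_lit 591769) (.g (nat_lit 2590) (.e (nat_lit 532544) (nat_lit 10) (.e (nat_lit 344133) (nat_lit 26) (.e (nat_lit 557098) (nat_lit 13) (.e (nat_lit 172067) (nat_lit 3) (.e (nat_lit 204809) (nat_lit 9) .nil))))) (.g (nat_lit 0) (.e (nat_lit 401259) (nat_lit 0) .nil) .nil)))))) (.nd (nat_lit 7) (.nd (nat_lit 8) (.nd (nat_lit 9) 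
(.lf (nat_lit 590937) (.g (nat_lit 1758) (.e (nat_lit 532528) (nat_lit 9) (.e (nat_lit 336019) (nat_lit 3) (.e (nat_lit 98342) (nat_lit 20) (.e (nat_lit 221212) (nat_lit 22) .nil)))) (.g (nat_lit 0) (.e (nat_lit 399118) (nat_lit 0) .nil) .nil))) 
(.lf (nat_lit 591449) (.g (nat_lit 1641) (.e (nat_lit 532544) (nat_lit 10) (.e (nat_lit 344118) (nat_lit 21) (.e (nat_lit 516131) (nat_lit 3) (.e (nat_lit 221211) (nat_lit 22) (.e (nat_lit 196614) (nat_lit 0) (.e (nat_lit 3067) (nat_lit 190) (.e (nat_lit 483072) (nat_lit 26) .nil))))))) (.g (nat_lit 1) (.e (nat_lit 400938) (nat_lit 0) .nil) .nil)))) (.nd (nat_lit 9) 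
(.lf (nat_lit 591193) (.g (nat_lit 2828) (.e (nat_lit 532535) (nat_lit 9) (.e (nat_lit 336099) (nat_lit 9) (.e (nat_lit 336013) (nat_lit 2) (.e (nat_lit 90130) (nat_lit 9) .nil)))) (.g (nat_lit 0) (.e (nat_lit 400036) (nat_lit 0) .nil) .nil))) 
(.lf (nat_lit 591705) (.g (nat_lit 1505) (.e (nat_lit 532544) (nat_lit 10) (.e (nat_lit 344132) (nat_lit 26) (.e (nat_lit 557105) (nat_lit 14) (.e (nat_lit 180249) (nat_lit 10) .nil)))) (.g (nat_lit 0) (.e (nat_lit 401195) (nat_lit 0) .nil) .nil))))) (.nd (nat_lit 8) (.nd (nat_lit 9) 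
(.lf (nat_lit 591065) (.g (nat_lit 3298) (.e (nat_lit 532531) (nat_lit 9) (.e (nat_lit 336336) (nat_lit 20) (.e (nat_lit 221210) (nat_lit 22) (.e (nat_lit 196656) (nat_lit 11) (.e (nat_lit 16448) (nat_lit 10) (.e (nat_lit 434231) (nat_lit 23) .nil)))))) (.g (nat_lit 1) (.e (nat_lit 399634) (nat_lit 0) .nil) .nil))) 
(.lf (nat_lit 591577) (.g (nat_lit 2263) (.e (nat_lit 532544) (nat_lit 10) (.e (nat_lit 344130) (nat_lit 26) (.e (nat_lit 557104) (nat_lit 14) (.e (nat_lit 180252) (nat_lit 10) (.e (nat_lit 581376) (nat_lit 0) (.e (nat_lit 3073) (nat_lit 190) (.e (nat_lit 483072) (nat_lit 26) .nil))))))) (.g (nat_lit 1) (.e (nat_lit 401067) (nat_lit 0) .nil) .nil)))) (.nd (nat_lit 9) 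
(.lf (nat_lit 591321) (.g (nat_lit 6269) (.e (nat_lit 532535) (nat_lit 9) (.e (nat_lit 336173) (nat_lit 10) (.e (nat_lit 344126) (nat_lit 25) (.e (nat_lit 548889) (nat_lit 9) (.e (nat_lit 65630) (nat_lit 14) (.e (nat_lit 401412) (nat_lit 0) (.e (nat_lit 3236) (nat_lit 197) .nil))))))) (.g (nat_lit 1) (.e (nat_lit 400477) (nat_lit 0) .nil) .nil))) 
(.lf (nat_lit 591833) (.g (nat_lit 3036) (.e (nat_lit 532544) (nat_lit 10) (.e (nat_lit 344133) (nat_lit 26) (.e (nat_lit 557105) (nat_lit 14) (.e (nat_lit 180252) (nat_lit 10) (.e (nat_lit 581376) (nat_lit 0) (.e (nat_lit 3069) (nat_lit 190) (.e (nat_lit 483072) (nat_lit 26) .nil))))))) (.g (nat_lit 1) (.e (nat_lit 401323) (nat_lit 0) .nil) .nil))))))) 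
(.nd (nat_lit 6) (.nd (nat_lit 7) (.nd (nat_lit 8) (.nd (nat_lit 9) 
(.lf (nat_lit 590905) (.g (nat_lit 3135) (.e (nat_lit 532526) (nat_lit 8) (.e (nat_lit 327699) (nat_lit 8) (.e (nat_lit 303119) (nat_lit 3) (.e (nat_lit 204845) (nat_lit 24) (.e (nat_lit 319490) (nat_lit 0) .nil))))) (.g (nat_lit 0) (.e (nat_lit 399055) (nat_lit 0) .nil) .nil))) 
(.lf (nat_lit 591417) (.g (nat_lit 2365) (.e (nat_lit 532543) (nat_lit 10) (.e (nat_lit 344133) (nat_lit 26) (.e (nat_lit 557103) (nat_lit 14) (.e (nat_lit 180243) (nat_lit 5) (.e (nat_lit 532504) (nat_lit 1) .nil))))) (.g (nat_lit 0) (.e (nat_lit 400898) (nat_lit 0) .nil) .nil)))) (.nd (nat_lit 9) 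
(.lf (nat_lit 591161) (.g (nat_lit 2028) (.e (nat_lit 532534) (nat_lit 9) (.e (nat_lit 336326) (nat_lit 18) (.e (nat_lit 204854) (nat_lit 26) (.e (nat_lit 336286) (nat_lit 15) .nil)))) (.g (nat_lit 0) (.e (nat_lit 399856) (nat_lit 0) .nil) .nil))) 
(.lf (nat_lit 591673) (.g (nat_lit 3491) (.e (nat_lit 532544) (nat_lit 10) (.e (nat_lit 344132) (nat_lit 26) (.e (nat_lit 557101) (nat_lit 13) (.e (nat_lit 172051) (nat_lit 0) (.e (nat_lit 3307) (nat_lit 202) (.e (nat_lit 573440) (nat_lit 0) (.e (nat_lit 3067) (nat_lit 190) (.e (nat_lit 483072) (nat_lit 26) .nil)))))))) (.g (nat_lit 1) (.e (nat_lit 401163) (nat_lit 0) .nil) .nil))))) 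
(.nd (nat_lit 8) (.nd (nat_lit 9) 
(.lf (nat_lit 591033) (.g (nat_lit 1231) (.e (nat_lit 532530) (nat_lit 9) (.e (nat_lit 336326) (nat_lit 18) (.e (nat_lit 204854) (nat_lit 26) (.e (nat_lit 336316) (nat_lit 17) .nil)))) (.g (nat_lit 0) (.e (nat_lit 399494) (nat_lit 0) .nil) .nil))) 
(.lf (nat_lit 591545) (.g (nat_lit 3636) (.e (nat_lit 532544) (nat_lit 10) (.e (nat_lit 344130) (nat_lit 26) (.e (nat_lit 557103) (nat_lit 14) (.e (nat_lit 180250) (nat_lit 10) (.e (nat_lit 573441) (nat_lit 0) (.e (nat_lit 3067) (nat_lit 190) (.e (nat_lit 483072) (nat_lit 26) .nil))))))) (.g (nat_lit 1) (.e (nat_lit 401035) (nat_lit 0) .nil) .nil)))) (.nd (nat_lit 9) 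
(.lf (nat_lit 591289) (.g (nat_lit 1961) (.e (nat_lit 532535) (nat_lit 9) (.e (nat_lit 336099) (nat_lit 9) (.e (nat_lit 343808) (nat_lit 3) (.e (nat_lit 98350) (nat_lit 24) (.e (nat_lit 409616) (nat_lit 10) (.e (nat_lit 5763) (nat_lit 315) (.e (nat_lit 171776) (nat_lit 25) .nil))))))) (.g (nat_lit 1) (.e (nat_lit 400393) (nat_lit 0) .nil) .nil))) 
(.lf (nat_lit 591801) (.g (nat_lit 2785) (.e (nat_lit 532544) (nat_lit 10) (.e (nat_lit 344133) (nat_lit 26) (.e (nat_lit 557105) (nat_lit 14) (.e (nat_lit 180227) (nat_lit 0) (.e (nat_lit 4297) (nat_lit 256) (.e (nat_lit 229419) (nat_lit 18) (.e (nat_lit 483072) (nat_lit 26) .nil))))))) (.g (nat_lit 1) (.e (nat_lit 401291) (nat_lit 0) .nil) .nil)))))) 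
(.nd (nat_lit 7) (.nd (nat_lit 8) (.nd (nat_lit 9) 
(.lf (nat_lit 590969) (.g (nat_lit 2073) (.e (nat_lit 532529) (nat_lit 9) (.e (nat_lit 336326) (nat_lit 18) (.e (nat_lit 204863) (nat_lit 27) (.e (nat_lit 344129) (nat_lit 26) (.e (nat_lit 557096) (nat_lit 13) .nil))))) (.g (nat_lit 0) (.e (nat_lit 399309) (nat_lit 0) .nil) .nil))) 
(.lf (nat_lit 591481) (.g (nat_lit 3108) (.e (nat_lit 532544) (nat_lit 10) (.e (nat_lit 344129) (nat_lit 26) (.e (nat_lit 557103) (nat_lit 14) (.e (nat_lit 180244) (nat_lit 5) (.e (nat_lit 532503) (nat_lit 1) (.e (nat_lit 57704) (nat_lit 164) (.e (nat_lit 2601) (nat_lit 163) (.e (nat_lit 163962) (nat_lit 25) .nil)))))))) (.g (nat_lit 1) (.e (nat_lit 400971) (nat_lit 0) .nil) .nil)))) 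
(.nd (nat_lit 9) 
(.lf (nat_lit 591225) (.g (nat_lit 4318) (.e (nat_lit 532535) (nat_lit 9) (.e (nat_lit 336099) (nat_lit 9) (.e (nat_lit 336013) (nat_lit 2) (.e (nat_lit 90165) (nat_lit 12) (.e (nat_lit 164208) (nat_lit 176) (.e (nat_lit 2819) (nat_lit 181) (.e (nat_lit 311300) (nat_lit 0) (.e (nat_lit 3230) (nat_lit 197) .nil)))))))) (.g (nat_lit 1) (.e (nat_lit 400096) (nat_lit 0) .nil) .nil))) 
(.lf (nat_lit 591737) (.g (nat_lit 1120) (.e (nat_lit 532544) (nat_lit 10) (.e (nat_lit 344133) (nat_lit 26) (.e (nat_lit 557096) (nat_lit 13) (.e (nat_lit 172062) (nat_lit 2) .nil)))) (.g (nat_lit 0) (.e (nat_lit 401227) (nat_lit 0) .nil) .nil))))) (.nd (nat_lit 8) (.nd (nat_lit 9) 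
(.lf (nat_lit 591097) (.g (nat_lit 1697) (.e (nat_lit 532533) (nat_lit 9) (.e (nat_lit 336019) (nat_lit 3) (.e (nat_lit 98341) (nat_lit 20) (.e (nat_lit 221185) (nat_lit 0) (.e (nat_lit 1796) (nat_lit 119) .nil))))) (.g (nat_lit 0) (.e (nat_lit 399736) (nat_lit 0) .nil) .nil))) 
(.lf (nat_lit 591609) (.g (nat_lit 1942) (.e (nat_lit 532544) (nat_lit 10) (.e (nat_lit 344131) (nat_lit 26) (.e (nat_lit 557103) (nat_lit 14) (.e (nat_lit 180244) (nat_lit 5) (.e (nat_lit 540416) (nat_lit 32) .nil))))) (.g (nat_lit 0) (.e (nat_lit 401099) (nat_lit 0) .nil) .nil)))) (.nd (nat_lit 9) 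
(.lf (nat_lit 591353) (.g (nat_lit 6248) (.e (nat_lit 532535) (nat_lit 9) (.e (nat_lit 336176) (nat_lit 10) (.e (nat_lit 344133) (nat_lit 26) (.e (nat_lit 557091) (nat_lit 12) (.e (nat_lit 164022) (nat_lit 46) (.e (nat_lit 704629) (nat_lit 9) (.e (nat_lit 442) (nat_lit 33) (.e (nat_lit 434234) (nat_lit 23) .nil)))))))) (.g (nat_lit 1) (.e (nat_lit 400750) (nat_lit 0) .nil) .nil))) 
(.lf (nat_lit 591865) (.g (nat_lit 2538) (.e (nat_lit 532546) (nat_lit 11) (.e (nat_lit 352313) (nat_lit 23) (.e (nat_lit 98350) (nat_lit 24) (.e (nat_lit 409648) (nat_lit 18) (.e (nat_lit 303104) (nat_lit 0) .nil))))) (.g (nat_lit 0) (.e (nat_lit 401369) (nat_lit 0) .nil) .nil)))))))))) 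
(.nd (nat_lit 3) (.nd (nat_lit 4) (.nd (nat_lit 5) (.nd (nat_lit 6) (.nd (nat_lit 7) 
(.nd (nat_lit 8) (.nd (nat_lit 9) 
(.lf (nat_lit 590853) (.g (nat_lit 3624) (.e (nat_lit 532523) (nat_lit 7) (.e (nat_lit 319534) (nat_lit 16) (.e (nat_lit 286734) (nat_lit 3) (.e (nat_lit 98380) (nat_lit 31) (.e (nat_lit 466967) (nat_lit 20) (.e (nat_lit 3253) (nat_lit 197) .nil)))))) (.g (nat_lit 1) (.e (nat_lit 398965) (nat_lit 0) .nil) .nil))) 
(.lf (nat_lit 591365) (.g (nat_lit 1707) (.e (nat_lit 532535) (nat_lit 9) (.e (nat_lit 336178) (nat_lit 10) (.e (nat_lit 344117) (nat_lit 21) (.e (nat_lit 516139) (nat_lit 7) (.e (nat_lit 409648) (nat_lit 18) .nil))))) (.g (nat_lit 0) (.e (nat_lit 400769) (nat_lit 0) .nil) .nil)))) (.nd (nat_lit 9) 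
(.lf (nat_lit 591109) (.g (nat_lit 1622) (.e (nat_lit 532533) (nat_lit 9) (.e (nat_lit 336324) (nat_lit 18) (.e (nat_lit 204852) (nat_lit 26) (.e (nat_lit 336325) (nat_lit 18) .nil)))) (.g (nat_lit 0) (.e (nat_lit 399757) (nat_lit 0) .nil) .nil))) 
(.lf (nat_lit 591621) (.g (nat_lit 3434) (.e (nat_lit 532544) (nat_lit 10) (.e (nat_lit 344131) (nat_lit 26) (.e (nat_lit 557103) (nat_lit 14) (.e (nat_lit 180250) (nat_lit 10) (.e (nat_lit 573447) (nat_lit 0) (.e (nat_lit 3067) (nat_lit 190) (.e (nat_lit 483072) (nat_lit 26) .nil))))))) (.g (nat_lit 1) (.e (nat_lit 401111) (nat_lit 0) .nil) .nil))))) (.nd (nat_lit 8) (.nd (nat_lit 9) 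
(.lf (nat_lit 590981) (.g (nat_lit 3190) (.e (nat_lit 532529) (nat_lit 9) (.e (nat_lit 336326) (nat_lit 18) (.e (nat_lit 204863) (nat_lit 27) (.e (nat_lit 344132) (nat_lit 26) (.e (nat_lit 557101) (nat_lit 13) (.e (nat_lit 172136) (nat_lit 15) (.e (nat_lit 7936) (nat_lit 121) .nil))))))) (.g (nat_lit 1) (.e (nat_lit 399321) (nat_lit 0) .nil) .nil))) 
(.lf (nat_lit 591493) (.g (nat_lit 1670) (.e (nat_lit 532544) (nat_lit 10) (.e (nat_lit 344129) (nat_lit 26) (.e (nat_lit 557104) (nat_lit 14) (.e (nat_lit 180234) (nat_lit 1) .nil)))) (.g (nat_lit 0) (.e (nat_lit 400983) (nat_lit 0) .nil) .nil)))) (.nd (nat_lit 9) 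
(.lf (nat_lit 591237) (.g (nat_lit 3463) (.e (nat_lit 532535) (nat_lit 9) (.e (nat_lit 336099) (nat_lit 9) (.e (nat_lit 336013) (nat_lit 2) (.e (nat_lit 90165) (nat_lit 12) (.e (nat_lit 164210) (nat_lit 176) (.e (nat_lit 2771) (nat_lit 177) (.e (nat_lit 278553) (nat_lit 10) (.e (nat_lit 7936) (nat_lit 45) .nil)))))))) (.g (nat_lit 1) (.e (nat_lit 400108) (nat_lit 0) .nil) .nil))) 
(.lf (nat_lit 591749) (.g (nat_lit 3895) (.e (nat_lit 532544) (nat_lit 10) (.e (nat_lit 344133) (nat_lit 26) (.e (nat_lit 557098) (nat_lit 13) (.e (nat_lit 172051) (nat_lit 0) (.e (nat_lit 3307) (nat_lit 202) (.e (nat_lit 573446) (nat_lit 0) (.e (nat_lit 3067) (nat_lit 190) (.e (nat_lit 483072) (nat_lit 26) .nil)))))))) (.g (nat_lit 1) (.e (nat_lit 401239) (nat_lit 0) .nil) .nil)))))) 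
(.nd (nat_lit 7) (.nd (nat_lit 8) (.nd (nat_lit 9) 
(.lf (nat_lit 590917) (.g (nat_lit 3070) (.e (nat_lit 532526) (nat_lit 8) (.e (nat_lit 327699) (nat_lit 8) (.e (nat_lit 303119) (nat_lit 3) (.e (nat_lit 204863) (nat_lit 27) (.e (nat_lit 352000) (nat_lit 6) .nil))))) (.g (nat_lit 0) (.e (nat_lit 399071) (nat_lit 0) .nil) .nil))) 
(.lf (nat_lit 591429) (.g (nat_lit 2343) (.e (nat_lit 532544) (nat_lit 10) (.e (nat_lit 344117) (nat_lit 21) (.e (nat_lit 516129) (nat_lit 3) (.e (nat_lit 221210) (nat_lit 22) (.e (nat_lit 196610) (nat_lit 0) .nil))))) (.g (nat_lit 0) (.e (nat_lit 400918) (nat_lit 0) .nil) .nil)))) (.nd (nat_lit 9) 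
(.lf (nat_lit 591173) (.g (nat_lit 3531) (.e (nat_lit 532535) (nat_lit 9) (.e (nat_lit 336099) (nat_lit 9) (.e (nat_lit 335918) (nat_lit 0) (.e (nat_lit 1848) (nat_lit 124) (.e (nat_lit 557087) (nat_lit 11) (.e (nat_lit 24617) (nat_lit 7) (.e (nat_lit 319505) (nat_lit 10) (.e (nat_lit 7936) (nat_lit 45) .nil)))))))) (.g (nat_lit 1) (.e (nat_lit 399998) (nat_lit 0) .nil) .nil))) 
(.lf (nat_lit 591685) (.g (nat_lit 2099) (.e (nat_lit 532544) (nat_lit 10) (.e (nat_lit 344132) (nat_lit 26) (.e (nat_lit 557101) (nat_lit 13) (.e (nat_lit 172065) (nat_lit 3) (.e (nat_lit 212736) (nat_lit 15) (.e (nat_lit 483072) (nat_lit 26) .nil)))))) (.g (nat_lit 1) (.e (nat_lit 401175) (nat_lit 0) .nil) .nil))))) (.nd (nat_lit 8) (.nd (nat_lit 9) 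
(.lf (nat_lit 591045) (.g (nat_lit 594) (.e (nat_lit 532531) (nat_lit 9) (.e (nat_lit 336019) (nat_lit 3) (.e (nat_lit 98341) (nat_lit 20) .nil))) (.g (nat_lit 0) (.e (nat_lit 399568) (nat_lit 0) .nil) .nil))) 
(.lf (nat_lit 591557) (.g (nat_lit 1731) (.e (nat_lit 532544) (nat_lit 10) (.e (nat_lit 344130) (nat_lit 26) (.e (nat_lit 557104) (nat_lit 14) (.e (nat_lit 180252) (nat_lit 10) (.e (nat_lit 573441) (nat_lit 0) .nil))))) (.g (nat_lit 0) (.e (nat_lit 401047) (nat_lit 0) .nil) .nil)))) (.nd (nat_lit 9) 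
(.lf (nat_lit 591301) (.g (nat_lit 4281) (.e (nat_lit 532535) (nat_lit 9) (.e (nat_lit 336166) (nat_lit 10) (.e (nat_lit 344129) (nat_lit 26) (.e (nat_lit 557087) (nat_lit 11) (.e (nat_lit 24617) (nat_lit 7) (.e (nat_lit 319504) (nat_lit 10) (.e (nat_lit 7936) (nat_lit 45) .nil))))))) (.g (nat_lit 1) (.e (nat_lit 400418) (nat_lit 0) .nil) .nil))) 
(.lf (nat_lit 591813) (.g (nat_lit 3110) (.e (nat_lit 532544) (nat_lit 10) (.e (nat_lit 344133) (nat_lit 26) (.e (nat_lit 557105) (nat_lit 14) (.e (nat_lit 180251) (nat_lit 10) (.e (nat_lit 573446) (nat_lit 0) .nil))))) (.g (nat_lit 0) (.e (nat_lit 401303) (nat_lit 0) .nil) .nil))))))) (.nd (nat_lit 6) (.nd (nat_lit 7) (.nd (nat_lit 8) (.nd (nat_lit 9) 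
(.lf (nat_lit 590885) (.g (nat_lit 4024) (.e (nat_lit 532525) (nat_lit 8) (.e (nat_lit 327717) (nat_lit 17) (.e (nat_lit 294927) (nat_lit 2) (.e (nat_lit 90170) (nat_lit 13) (.e (nat_lit 172106) (nat_lit 10) (.e (nat_lit 434231) (nat_lit 23) .nil)))))) (.g (nat_lit 1) (.e (nat_lit 399020) (nat_lit 0) .nil) .nil))) 
(.lf (nat_lit 591397) (.g (nat_lit 616) (.e (nat_lit 532542) (nat_lit 9) (.e (nat_lit 336213) (nat_lit 13) (.e (nat_lit 401152) (nat_lit 15) .nil))) (.g (nat_lit 0) (.e (nat_lit 400876) (nat_lit 0) .nil) .nil)))) (.nd (nat_lit 9) 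
(.lf (nat_lit 591141) (.g (nat_lit 787) (.e (nat_lit 532534) (nat_lit 9) (.e (nat_lit 336324) (nat_lit 18) (.e (nat_lit 204850) (nat_lit 26) .nil))) (.g (nat_lit 0) (.e (nat_lit 399833) (nat_lit 0) .nil) .nil))) 
(.lf (nat_lit 591653) (.g (nat_lit 3130) (.e (nat_lit 532544) (nat_lit 10) (.e (nat_lit 344132) (nat_lit 26) (.e (nat_lit 557100) (nat_lit 13) (.e (nat_lit 172062) (nat_lit 2) (.e (nat_lit 196628) (nat_lit 9) (.e (nat_lit 488) (nat_lit 38) (.e (nat_lit 483072) (nat_lit 26) .nil))))))) (.g (nat_lit 1) (.e (nat_lit 401143) (nat_lit 0) .nil) .nil))))) (.nd (nat_lit 8) (.nd (nat_lit 9) 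
(.lf (nat_lit 591013) (.g (nat_lit 2178) (.e (nat_lit 532530) (nat_lit 9) (.e (nat_lit 336324) (nat_lit 18) (.e (nat_lit 204854) (nat_lit 26) (.e (nat_lit 336324) (nat_lit 18) (.e (nat_lit 204879) (nat_lit 32) .nil))))) (.g (nat_lit 0) (.e (nat_lit 399463) (nat_lit 0) .nil) .nil))) 
(.lf (nat_lit 591525) (.g (nat_lit 2848) (.e (nat_lit 532544) (nat_lit 10) (.e (nat_lit 344130) (nat_lit 26) (.e (nat_lit 557097) (nat_lit 13) (.e (nat_lit 172067) (nat_lit 3) (.e (nat_lit 212736) (nat_lit 15) (.e (nat_lit 483072) (nat_lit 26) .nil)))))) (.g (nat_lit 1) (.e (nat_lit 401015) (nat_lit 0) .nil) .nil)))) (.nd (nat_lit 9) 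
(.lf (nat_lit 591269) (.g (nat_lit 4285) (.e (nat_lit 532535) (nat_lit 9) (.e (nat_lit 336099) (nat_lit 9) (.e (nat_lit 336028) (nat_lit 3) (.e (nat_lit 98349) (nat_lit 24) (.e (nat_lit 409646) (nat_lit 18) (.e (nat_lit 303106) (nat_lit 0) (.e (nat_lit 3230) (nat_lit 197) .nil))))))) (.g (nat_lit 1) (.e (nat_lit 400320) (nat_lit 0) .nil) .nil))) 
(.lf (nat_lit 591781) (.g (nat_lit 3197) (.e (nat_lit 532544) (nat_lit 10) (.e (nat_lit 344133) (nat_lit 26) (.e (nat_lit 557103) (nat_lit 14) (.e (nat_lit 180243) (nat_lit 5) (.e (nat_lit 532504) (nat_lit 1) (.e (nat_lit 57703) (nat_lit 164) (.e (nat_lit 2601) (nat_lit 163) (.e (nat_lit 163962) (nat_lit 25) .nil)))))))) (.g (nat_lit 1) (.e (nat_lit 401271) (nat_lit 0) .nil) .nil)))))) 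
(.nd (nat_lit 7) (.nd (nat_lit 8) (.nd (nat_lit 9) 
(.lf (nat_lit 590949) (.g (nat_lit 1682) (.e (nat_lit 532528) (nat_lit 9) (.e (nat_lit 336324) (nat_lit 18) (.e (nat_lit 204880) (nat_lit 32) (.e (nat_lit 385068) (nat_lit 26) (.e (nat_lit 532566) (nat_lit 15) .nil))))) (.g (nat_lit 0) (.e (nat_lit 399132) (nat_lit 0) .nil) .nil))) 
(.lf (nat_lit 591461) (.g (nat_lit 3947) (.e (nat_lit 532544) (nat_lit 10) (.e (nat_lit 344129) (nat_lit 26) (.e (nat_lit 557097) (nat_lit 13) (.e (nat_lit 172045) (nat_lit 0) (.e (nat_lit 3307) (nat_lit 202) (.e (nat_lit 573440) (nat_lit 0) (.e (nat_lit 3067) (nat_lit 190) (.e (nat_lit 483072) (nat_lit 26) .nil)))))))) (.g (nat_lit 1) (.e (nat_lit 400951) (nat_lit 0) .nil) .nil)))) 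
(.nd (nat_lit 9) 
(.lf (nat_lit 591205) (.g (nat_lit 5136) (.e (nat_lit 532535) (nat_lit 9) (.e (nat_lit 336099) (nat_lit 9) (.e (nat_lit 336013) (nat_lit 2) (.e (nat_lit 90134) (nat_lit 9) (.e (nat_lit 2824) (nat_lit 182) (.e (nat_lit 409645) (nat_lit 18) (.e (nat_lit 303112) (nat_lit 0) (.e (nat_lit 3252) (nat_lit 197) .nil)))))))) (.g (nat_lit 1) (.e (nat_lit 400062) (nat_lit 0) .nil) .nil))) 
(.lf (nat_lit 591717) (.g (nat_lit 2029) (.e (nat_lit 532544) (nat_lit 10) (.e (nat_lit 344132) (nat_lit 26) (.e (nat_lit 557105) (nat_lit 14) (.e (nat_lit 180252) (nat_lit 10) (.e (nat_lit 581376) (nat_lit 0) .nil))))) (.g (nat_lit 0) (.e (nat_lit 401207) (nat_lit 0) .nil) .nil))))) (.nd (nat_lit 8) (.nd (nat_lit 9) 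
(.lf (nat_lit 591077) (.g (nat_lit 3407) (.e (nat_lit 532532) (nat_lit 9) (.e (nat_lit 336324) (nat_lit 18) (.e (nat_lit 204854) (nat_lit 26) (.e (nat_lit 336324) (nat_lit 18) (.e (nat_lit 204880) (nat_lit 32) (.e (nat_lit 385066) (nat_lit 26) .nil)))))) (.g (nat_lit 1) (.e (nat_lit 399696) (nat_lit 0) .nil) .nil))) 
(.lf (nat_lit 591589) (.g (nat_lit 1137) (.e (nat_lit 532544) (nat_lit 10) (.e (nat_lit 344131) (nat_lit 26) (.e (nat_lit 557098) (nat_lit 13) (.e (nat_lit 172065) (nat_lit 3) .nil)))) (.g (nat_lit 0) (.e (nat_lit 401079) (nat_lit 0) .nil) .nil)))) (.nd (nat_lit 9) 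
(.lf (nat_lit 591333) (.g (nat_lit 2143) (.e (nat_lit 532535) (nat_lit 9) (.e (nat_lit 336176) (nat_lit 10) (.e (nat_lit 344130) (nat_lit 26) (.e (nat_lit 557087) (nat_lit 11) (.e (nat_lit 24576) (nat_lit 0) (.e (nat_lit 7936) (nat_lit 360) (.e (nat_lit 163962) (nat_lit 25) .nil))))))) (.g (nat_lit 1) (.e (nat_lit 400580) (nat_lit 0) .nil) .nil))) 
(.lf (nat_lit 591845) (.g (nat_lit 3590) (.e (nat_lit 532544) (nat_lit 10) (.e (nat_lit 344133) (nat_lit 26) (.e (nat_lit 557105) (nat_lit 14) (.e (nat_lit 180252) (nat_lit 10) (.e (nat_lit 573474) (nat_lit 12) (.e (nat_lit 57348) (nat_lit 0) (.e (nat_lit 5436) (nat_lit 306) (.e (nat_lit 2604) (nat_lit 163) (.e (nat_lit 163962) (nat_lit 25) .nil))))))))) (.g (nat_lit 1) (.e (nat_lit 401335) (nat_lit 0) .nil) .nil)))))))) 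
(.nd (nat_lit 5) (.nd (nat_lit 6) (.nd (nat_lit 7) (.nd (nat_lit 8) (.nd (nat_lit 9) 
(.lf (nat_lit 590869) (.g (nat_lit 3517) (.e (nat_lit 532523) (nat_lit 7) (.e (nat_lit 319534) (nat_lit 16) (.e (nat_lit 286735) (nat_lit 3) (.e (nat_lit 98370) (nat_lit 28) (.e (nat_lit 442402) (nat_lit 20) (.e (nat_lit 3238) (nat_lit 197) .nil)))))) (.g (nat_lit 1) (.e (nat_lit 398981) (nat_lit 0) .nil) .nil))) 
(.lf (nat_lit 591381) (.g (nat_lit 1373) (.e (nat_lit 532542) (nat_lit 9) (.e (nat_lit 336088) (nat_lit 9) (.e (nat_lit 336324) (nat_lit 18) (.e (nat_lit 204837) (nat_lit 20) .nil)))) (.g (nat_lit 0) (.e (nat_lit 400844) (nat_lit 0) .nil) .nil)))) (.nd (nat_lit 9) 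
(.lf (nat_lit 591125) (.g (nat_lit 1443) (.e (nat_lit 532534) (nat_lit 9) (.e (nat_lit 336019) (nat_lit 3) (.e (nat_lit 98341) (nat_lit 20) (.e (nat_lit 229120) (nat_lit 3) .nil)))) (.g (nat_lit 0) (.e (nat_lit 399796) (nat_lit 0) .nil) .nil))) 
(.lf (nat_lit 591637) (.g (nat_lit 2558) (.e (nat_lit 532544) (nat_lit 10) (.e (nat_lit 344131) (nat_lit 26) (.e (nat_lit 557105) (nat_lit 14) (.e (nat_lit 180252) (nat_lit 10) (.e (nat_lit 573442) (nat_lit 0) (.e (nat_lit 3062) (nat_lit 190) (.e (nat_lit 483072) (nat_lit 26) .nil))))))) (.g (nat_lit 1) (.e (nat_lit 401127) (nat_lit 0) .nil) .nil))))) (.nd (nat_lit 8) (.nd (nat_lit 9) 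
(.lf (nat_lit 590997) (.g (nat_lit 3461) (.e (nat_lit 532529) (nat_lit 9) (.e (nat_lit 336326) (nat_lit 18) (.e (nat_lit 204863) (nat_lit 27) (.e (nat_lit 344133) (nat_lit 26) (.e (nat_lit 557098) (nat_lit 13) (.e (nat_lit 172134) (nat_lit 15) (.e (nat_lit 7936) (nat_lit 121) .nil))))))) (.g (nat_lit 1) (.e (nat_lit 399337) (nat_lit 0) .nil) .nil))) 
(.lf (nat_lit 591509) (.g (nat_lit 2359) (.e (nat_lit 532544) (nat_lit 10) (.e (nat_lit 344129) (nat_lit 26) (.e (nat_lit 557104) (nat_lit 14) (.e (nat_lit 180252) (nat_lit 10) (.e (nat_lit 581376) (nat_lit 0) (.e (nat_lit 3069) (nat_lit 190) (.e (nat_lit 483072) (nat_lit 26) .nil))))))) (.g (nat_lit 1) (.e (nat_lit 400999) (nat_lit 0) .nil) .nil)))) (.nd (nat_lit 9) 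
(.lf (nat_lit 591253) (.g (nat_lit 855) (.e (nat_lit 532535) (nat_lit 9) (.e (nat_lit 336099) (nat_lit 9) (.e (nat_lit 336013) (nat_lit 2) (.e (nat_lit 98048) (nat_lit 12) (.e (nat_lit 164209) (nat_lit 176) (.e (nat_lit 2770) (nat_lit 177) (.e (nat_lit 278551) (nat_lit 10) (.e (nat_lit 7936) (nat_lit 45) .nil)))))))) (.g (nat_lit 1) (.e (nat_lit 400130) (nat_lit 0) .nil) .nil))) 
(.lf (nat_lit 591765) (.g (nat_lit 2579) (.e (nat_lit 532544) (nat_lit 10) (.e (nat_lit 344133) (nat_lit 26) (.e (nat_lit 557098) (nat_lit 13) (.e (nat_lit 172065) (nat_lit 3) (.e (nat_lit 212736) (nat_lit 15) (.e (nat_lit 483072) (nat_lit 26) .nil)))))) (.g (nat_lit 1) (.e (nat_lit 401255) (nat_lit 0) .nil) .nil)))))) (.nd (nat_lit 7) (.nd (nat_lit 8) (.nd (nat_lit 9) 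
(.lf (nat_lit 590933) (.g (nat_lit 1726) (.e (nat_lit 532527) (nat_lit 9) (.e (nat_lit 336324) (nat_lit 18) (.e (nat_lit 204854) (nat_lit 26) (.e (nat_lit 336324) (nat_lit 18) .nil)))) (.g (nat_lit 0) (.e (nat_lit 399112) (nat_lit 0) .nil) .nil))) 
(.lf (nat_lit 591445) (.g (nat_lit 1725) (.e (nat_lit 532544) (nat_lit 10) (.e (nat_lit 344117) (nat_lit 21) (.e (nat_lit 516131) (nat_lit 3) (.e (nat_lit 221212) (nat_lit 22) .nil)))) (.g (nat_lit 0) (.e (nat_lit 400934) (nat_lit 0) .nil) .nil)))) (.nd (nat_lit 9) 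
(.lf (nat_lit 591189) (.g (nat_lit 352) (.e (nat_lit 532535) (nat_lit 9) (.e (nat_lit 336099) (nat_lit 9) (.e (nat_lit 336013) (nat_lit 2) .nil))) (.g (nat_lit 0) (.e (nat_lit 400018) (nat_lit 0) .nil) .nil))) 
(.lf (nat_lit 591701) (.g (nat_lit 1969) (.e (nat_lit 532544) (nat_lit 10) (.e (nat_lit 344132) (nat_lit 26) (.e (nat_lit 557105) (nat_lit 14) (.e (nat_lit 180227) (nat_lit 0) (.e (nat_lit 4300) (nat_lit 256) .nil))))) (.g (nat_lit 0) (.e (nat_lit 401191) (nat_lit 0) .nil) .nil))))) (.nd (nat_lit 8) (.nd (nat_lit 9) 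
(.lf (nat_lit 591061) (.g (nat_lit 1175) (.e (nat_lit 532531) (nat_lit 9) (.e (nat_lit 336324) (nat_lit 18) (.e (nat_lit 204854) (nat_lit 26) (.e (nat_lit 336326) (nat_lit 18) .nil)))) (.g (nat_lit 0) (.e (nat_lit 399591) (nat_lit 0) .nil) .nil))) 
(.lf (nat_lit 591573) (.g (nat_lit 2286) (.e (nat_lit 532544) (nat_lit 10) (.e (nat_lit 344130) (nat_lit 26) (.e (nat_lit 557104) (nat_lit 14) (.e (nat_lit 180252) (nat_lit 10) (.e (nat_lit 581376) (nat_lit 0) (.e (nat_lit 3069) (nat_lit 190) (.e (nat_lit 483072) (nat_lit 26) .nil))))))) (.g (nat_lit 1) (.e (nat_lit 401063) (nat_lit 0) .nil) .nil)))) (.nd (nat_lit 9) 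
(.lf (nat_lit 591317) (.g (nat_lit 4360) (.e (nat_lit 532535) (nat_lit 9) (.e (nat_lit 336173) (nat_lit 10) (.e (nat_lit 344126) (nat_lit 25) (.e (nat_lit 548889) (nat_lit 9) (.e (nat_lit 65629) (nat_lit 14) (.e (nat_lit 401412) (nat_lit 0) (.e (nat_lit 3236) (nat_lit 197) .nil))))))) (.g (nat_lit 1) (.e (nat_lit 400468) (nat_lit 0) .nil) .nil))) 
(.lf (nat_lit 591829) (.g (nat_lit 3314) (.e (nat_lit 532544) (nat_lit 10) (.e (nat_lit 344133) (nat_lit 26) (.e (nat_lit 557105) (nat_lit 14) (.e (nat_lit 180252) (nat_lit 10) (.e (nat_lit 581376) (nat_lit 0) (.e (nat_lit 3062) (nat_lit 190) (.e (nat_lit 483072) (nat_lit 26) .nil))))))) (.g (nat_lit 1) (.e (nat_lit 401319) (nat_lit 0) .nil) .nil))))))) 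
(.nd (nat_lit 6) (.nd (nat_lit 7) (.nd (nat_lit 8) (.nd (nat_lit 9) 
(.lf (nat_lit 590901) (.g (nat_lit 2604) (.e (nat_lit 532526) (nat_lit 8) (.e (nat_lit 327699) (nat_lit 8) (.e (nat_lit 303118) (nat_lit 3) (.e (nat_lit 204846) (nat_lit 24) (.e (nat_lit 319490) (nat_lit 0) (.e (nat_lit 5761) (nat_lit 315) (.e (nat_lit 163962) (nat_lit 25) .nil))))))) (.g (nat_lit 1) (.e (nat_lit 399049) (nat_lit 0) .nil) .nil))) 
(.lf (nat_lit 591413) (.g (nat_lit 2070) (.e (nat_lit 532543) (nat_lit 10) (.e (nat_lit 344132) (nat_lit 26) (.e (nat_lit 557100) (nat_lit 13) (.e (nat_lit 172135) (nat_lit 15) .nil)))) (.g (nat_lit 0) (.e (nat_lit 400894) (nat_lit 0) .nil) .nil)))) (.nd (nat_lit 9) 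
(.lf (nat_lit 591157) (.g (nat_lit 1237) (.e (nat_lit 532534) (nat_lit 9) (.e (nat_lit 336325) (nat_lit 18) (.e (nat_lit 204880) (nat_lit 32) (.e (nat_lit 385066) (nat_lit 26) (.e (nat_lit 532565) (nat_lit 15) .nil))))) (.g (nat_lit 0) (.e (nat_lit 399852) (nat_lit 0) .nil) .nil))) 
(.lf (nat_lit 591669) (.g (nat_lit 3121) (.e (nat_lit 532544) (nat_lit 10) (.e (nat_lit 344132) (nat_lit 26) (.e (nat_lit 557100) (nat_lit 13) (.e (nat_lit 172138) (nat_lit 15) (.e (nat_lit 1800) (nat_lit 119) (.e (nat_lit 516119) (nat_lit 1) (.e (nat_lit 164347) (nat_lit 240) (.e (nat_lit 2601) (nat_lit 163) (.e (nat_lit 163962) (nat_lit 25) .nil))))))))) (.g (nat_lit 1) (.e (nat_lit 401159) (nat_lit 0) .nil) .nil))))) 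
(.nd (nat_lit 8) (.nd (nat_lit 9) 
(.lf (nat_lit 591029) (.g (nat_lit 2650) (.e (nat_lit 532530) (nat_lit 9) (.e (nat_lit 336326) (nat_lit 18) (.e (nat_lit 204852) (nat_lit 26) (.e (nat_lit 336326) (nat_lit 18) (.e (nat_lit 204854) (nat_lit 26) (.e (nat_lit 336247) (nat_lit 15) (.e (nat_lit 3232) (nat_lit 197) .nil))))))) (.g (nat_lit 1) (.e (nat_lit 399484) (nat_lit 0) .nil) .nil))) 
(.lf (nat_lit 591541) (.g (nat_lit 2402) (.e (nat_lit 532544) (nat_lit 10) (.e (nat_lit 344130) (nat_lit 26) (.e (nat_lit 557103) (nat_lit 14) (.e (nat_lit 180250) (nat_lit 10) (.e (nat_lit 573441) (nat_lit 0) .nil))))) (.g (nat_lit 0) (.e (nat_lit 401031) (nat_lit 0) .nil) .nil)))) (.nd (nat_lit 9) 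
(.lf (nat_lit 591285) (.g (nat_lit 4696) (.e (nat_lit 532535) (nat_lit 9) (.e (nat_lit 336099) (nat_lit 9) (.e (nat_lit 336028) (nat_lit 3) (.e (nat_lit 98350) (nat_lit 24) (.e (nat_lit 409648) (nat_lit 18) (.e (nat_lit 303108) (nat_lit 0) (.e (nat_lit 3230) (nat_lit 197) .nil))))))) (.g (nat_lit 1) (.e (nat_lit 400343) (nat_lit 0) .nil) .nil))) 
(.lf (nat_lit 591797) (.g (nat_lit 3928) (.e (nat_lit 532544) (nat_lit 10) (.e (nat_lit 344133) (nat_lit 26) (.e (nat_lit 557103) (nat_lit 14) (.e (nat_lit 180250) (nat_lit 10) (.e (nat_lit 573447) (nat_lit 0) (.e (nat_lit 3067) (nat_lit 190) (.e (nat_lit 483072) (nat_lit 26) .nil))))))) (.g (nat_lit 1) (.e (nat_lit 401287) (nat_lit 0) .nil) .nil)))))) 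
(.nd (nat_lit 7) (.nd (nat_lit 8) (.nd (nat_lit 9) 
(.lf (nat_lit 590965) (.g (nat_lit 2870) (.e (nat_lit 532529) (nat_lit 9) (.e (nat_lit 336326) (nat_lit 18) (.e (nat_lit 204853) (nat_lit 26) (.e (nat_lit 336324) (nat_lit 18) (.e (nat_lit 204854) (nat_lit 26) (.e (nat_lit 336306) (nat_lit 15) (.e (nat_lit 3238) (nat_lit 197) .nil))))))) (.g (nat_lit 1) (.e (nat_lit 399299) (nat_lit 0) .nil) .nil))) 
(.lf (nat_lit 591477) (.g (nat_lit 2920) (.e (nat_lit 532544) (nat_lit 10) (.e (nat_lit 344129) (nat_lit 26) (.e (nat_lit 557103) (nat_lit 14) (.e (nat_lit 180243) (nat_lit 5) (.e (nat_lit 532501) (nat_lit 1) (.e (nat_lit 57703) (nat_lit 164) (.e (nat_lit 2601) (nat_lit 163) (.e (nat_lit 163962) (nat_lit 25) .nil)))))))) (.g (nat_lit 1) (.e (nat_lit 400967) (nat_lit 0) .nil) .nil)))) 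
(.nd (nat_lit 9) 
(.lf (nat_lit 591221) (.g (nat_lit 3002) (.e (nat_lit 532535) (nat_lit 9) (.e (nat_lit 336099) (nat_lit 9) (.e (nat_lit 336013) (nat_lit 2) (.e (nat_lit 90165) (nat_lit 12) (.e (nat_lit 164207) (nat_lit 176) (.e (nat_lit 2771) (nat_lit 177) (.e (nat_lit 278553) (nat_lit 10) (.e (nat_lit 7936) (nat_lit 45) .nil)))))))) (.g (nat_lit 1) (.e (nat_lit 400092) (nat_lit 0) .nil) .nil))) 
(.lf (nat_lit 591733) (.g (nat_lit 2793) (.e (nat_lit 532544) (nat_lit 10) (.e (nat_lit 344132) (nat_lit 26) (.e (nat_lit 557105) (nat_lit 14) (.e (nat_lit 180252) (nat_lit 10) (.e (nat_lit 573474) (nat_lit 12) (.e (nat_lit 57348) (nat_lit 0) (.e (nat_lit 5438) (nat_lit 306) (.e (nat_lit 2604) (nat_lit 163) (.e (nat_lit 163962) (nat_lit 25) .nil))))))))) (.g (nat_lit 1) (.e (nat_lit 401223) (nat_lit 0) .nil) .nil))))) 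
(.nd (nat_lit 8) (.nd (nat_lit 9) 
(.lf (nat_lit 591093) (.g (nat_lit 1880) (.e (nat_lit 532533) (nat_lit 9) (.e (nat_lit 336019) (nat_lit 3) (.e (nat_lit 98333) (nat_lit 18) (.e (nat_lit 164242) (nat_lit 195) .nil)))) (.g (nat_lit 0) (.e (nat_lit 399730) (nat_lit 0) .nil) .nil))) 
(.lf (nat_lit 591605) (.g (nat_lit 1545) (.e (nat_lit 532544) (nat_lit 10) (.e (nat_lit 344131) (nat_lit 26) (.e (nat_lit 557103) (nat_lit 14) (.e (nat_lit 180235) (nat_lit 1) .nil)))) (.g (nat_lit 0) (.e (nat_lit 401095) (nat_lit 0) .nil) .nil)))) (.nd (nat_lit 9) 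
(.lf (nat_lit 591349) (.g (nat_lit 2524) (.e (nat_lit 532535) (nat_lit 9) (.e (nat_lit 336176) (nat_lit 10) (.e (nat_lit 344133) (nat_lit 26) (.e (nat_lit 557087) (nat_lit 11) (.e (nat_lit 24584) (nat_lit 0) .nil))))) (.g (nat_lit 0) (.e (nat_lit 400701) (nat_lit 0) .nil) .nil))) 
(.lf (nat_lit 591861) (.g (nat_lit 2740) (.e (nat_lit 532546) (nat_lit 11) (.e (nat_lit 352313) (nat_lit 23) (.e (nat_lit 98350) (nat_lit 24) (.e (nat_lit 409616) (nat_lit 10) (.e (nat_lit 7936) (nat_lit 315) .nil))))) (.g (nat_lit 0) (.e (nat_lit 401365) (nat_lit 0) .nil) .nil))))))))) (.nd (nat_lit 4) (.nd (nat_lit 5) (.nd (nat_lit 6) (.nd (nat_lit 7) (.nd (nat_lit 8) (.nd (nat_lit 9) 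
(.lf (nat_lit 590861) (.g (nat_lit 1966) (.e (nat_lit 532523) (nat_lit 7) (.e (nat_lit 319534) (nat_lit 16) (.e (nat_lit 286735) (nat_lit 3) (.e (nat_lit 98329) (nat_lit 17) .nil)))) (.g (nat_lit 0) (.e (nat_lit 398973) (nat_lit 0) .nil) .nil))) 
(.lf (nat_lit 591373) (.g (nat_lit 4292) (.e (nat_lit 532536) (nat_lit 9) (.e (nat_lit 336099) (nat_lit 9) (.e (nat_lit 336013) (nat_lit 2) (.e (nat_lit 90134) (nat_lit 9) (.e (nat_lit 2822) (nat_lit 182) .nil))))) (.g (nat_lit 0) (.e (nat_lit 400824) (nat_lit 0) .nil) .nil)))) (.nd (nat_lit 9) 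
(.lf (nat_lit 591117) (.g (nat_lit 1895) (.e (nat_lit 532533) (nat_lit 9) (.e (nat_lit 336324) (nat_lit 18) (.e (nat_lit 204880) (nat_lit 32) (.e (nat_lit 385066) (nat_lit 26) (.e (nat_lit 532564) (nat_lit 15) .nil))))) (.g (nat_lit 0) (.e (nat_lit 399765) (nat_lit 0) .nil) .nil))) 
(.lf (nat_lit 591629) (.g (nat_lit 2269) (.e (nat_lit 532544) (nat_lit 10) (.e (nat_lit 344131) (nat_lit 26) (.e (nat_lit 557105) (nat_lit 14) (.e (nat_lit 180251) (nat_lit 10) (.e (nat_lit 573447) (nat_lit 0) .nil))))) (.g (nat_lit 0) (.e (nat_lit 401119) (nat_lit 0) .nil) .nil))))) (.nd (nat_lit 8) (.nd (nat_lit 9) 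
(.lf (nat_lit 590989) (.g (nat_lit 3126) (.e (nat_lit 532529) (nat_lit 9) (.e (nat_lit 336326) (nat_lit 18) (.e (nat_lit 204863) (nat_lit 27) (.e (nat_lit 344133) (nat_lit 26) (.e (nat_lit 557096) (nat_lit 13) (.e (nat_lit 172133) (nat_lit 15) (.e (nat_lit 7936) (nat_lit 121) .nil))))))) (.g (nat_lit 1) (.e (nat_lit 399329) (nat_lit 0) .nil) .nil))) 
(.lf (nat_lit 591501) (.g (nat_lit 2795) (.e (nat_lit 532544) (nat_lit 10) (.e (nat_lit 344129) (nat_lit 26) (.e (nat_lit 557104) (nat_lit 14) (.e (nat_lit 180252) (nat_lit 10) (.e (nat_lit 573441) (nat_lit 0) (.e (nat_lit 3067) (nat_lit 190) (.e (nat_lit 483072) (nat_lit 26) .nil))))))) (.g (nat_lit 1) (.e (nat_lit 400991) (nat_lit 0) .nil) .nil)))) (.nd (nat_lit 9) 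
(.lf (nat_lit 591245) (.g (nat_lit 4259) (.e (nat_lit 532535) (nat_lit 9) (.e (nat_lit 336099) (nat_lit 9) (.e (nat_lit 336013) (nat_lit 2) (.e (nat_lit 90165) (nat_lit 12) (.e (nat_lit 164218) (nat_lit 179) (.e (nat_lit 164265) (nat_lit 221) (.e (nat_lit 1065) (nat_lit 81) (.e (nat_lit 595) (nat_lit 45) .nil)))))))) (.g (nat_lit 1) (.e (nat_lit 400116) (nat_lit 0) .nil) .nil))) 
(.lf (nat_lit 591757) (.g (nat_lit 2775) (.e (nat_lit 532544) (nat_lit 10) (.e (nat_lit 344133) (nat_lit 26) (.e (nat_lit 557098) (nat_lit 13) (.e (nat_lit 172063) (nat_lit 2) (.e (nat_lit 196622) (nat_lit 9) (.e (nat_lit 488) (nat_lit 38) (.e (nat_lit 483072) (nat_lit 26) .nil))))))) (.g (nat_lit 1) (.e (nat_lit 401247) (nat_lit 0) .nil) .nil)))))) 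
(.nd (nat_lit 7) (.nd (nat_lit 8) (.nd (nat_lit 9) 
(.lf (nat_lit 590925) (.g (nat_lit 4504) (.e (nat_lit 532526) (nat_lit 8) (.e (nat_lit 327716) (nat_lit 16) (.e (nat_lit 286733) (nat_lit 2) (.e (nat_lit 90170) (nat_lit 13) (.e (nat_lit 172106) (nat_lit 10) (.e (nat_lit 434231) (nat_lit 23) .nil)))))) (.g (nat_lit 1) (.e (nat_lit 399094) (nat_lit 0) .nil) .nil))) 
(.lf (nat_lit 591437) (.g (nat_lit 2971) (.e (nat_lit 532544) (nat_lit 10) (.e (nat_lit 344117) (nat_lit 21) (.e (nat_lit 516130) (nat_lit 3) (.e (nat_lit 221211) (nat_lit 22) (.e (nat_lit 196616) (nat_lit 0) (.e (nat_lit 3067) (nat_lit 190) (.e (nat_lit 483072) (nat_lit 26) .nil))))))) (.g (nat_lit 1) (.e (nat_lit 400926) (nat_lit 0) .nil) .nil)))) (.nd (nat_lit 9) 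
(.lf (nat_lit 591181) (.g (nat_lit 3971) (.e (nat_lit 532535) (nat_lit 9) (.e (nat_lit 336099) (nat_lit 9) (.e (nat_lit 335925) (nat_lit 0) (.e (nat_lit 1848) (nat_lit 124) (.e (nat_lit 557087) (nat_lit 11) (.e (nat_lit 24617) (nat_lit 7) (.e (nat_lit 319505) (nat_lit 10) (.e (nat_lit 7936) (nat_lit 45) .nil)))))))) (.g (nat_lit 1) (.e (nat_lit 400007) (nat_lit 0) .nil) .nil))) 
(.lf (nat_lit 591693) (.g (nat_lit 2115) (.e (nat_lit 532544) (nat_lit 10) (.e (nat_lit 344132) (nat_lit 26) (.e (nat_lit 557103) (nat_lit 14) (.e (nat_lit 180243) (nat_lit 5) (.e (nat_lit 540416) (nat_lit 32) .nil))))) (.g (nat_lit 0) (.e (nat_lit 401183) (nat_lit 0) .nil) .nil))))) (.nd (nat_lit 8) (.nd (nat_lit 9) 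
(.lf (nat_lit 591053) (.g (nat_lit 4708) (.e (nat_lit 532531) (nat_lit 9) (.e (nat_lit 336324) (nat_lit 18) (.e (nat_lit 204831) (nat_lit 18) (.e (nat_lit 57849) (nat_lit 252) .nil)))) (.g (nat_lit 0) (.e (nat_lit 399583) (nat_lit 0) .nil) .nil))) 
(.lf (nat_lit 591565) (.g (nat_lit 2236) (.e (nat_lit 532544) (nat_lit 10) (.e (nat_lit 344130) (nat_lit 26) (.e (nat_lit 557104) (nat_lit 14) (.e (nat_lit 180252) (nat_lit 10) (.e (nat_lit 581376) (nat_lit 0) (.e (nat_lit 3056) (nat_lit 190) (.e (nat_lit 483072) (nat_lit 26) .nil))))))) (.g (nat_lit 1) (.e (nat_lit 401055) (nat_lit 0) .nil) .nil)))) (.nd (nat_lit 9) 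
(.lf (nat_lit 591309) (.g (nat_lit 3192) (.e (nat_lit 532535) (nat_lit 9) (.e (nat_lit 336172) (nat_lit 10) (.e (nat_lit 344130) (nat_lit 26) (.e (nat_lit 557087) (nat_lit 11) (.e (nat_lit 24617) (nat_lit 7) (.e (nat_lit 319504) (nat_lit 10) (.e (nat_lit 7936) (nat_lit 45) .nil))))))) (.g (nat_lit 1) (.e (nat_lit 400426) (nat_lit 0) .nil) .nil))) 
(.lf (nat_lit 591821) (.g (nat_lit 4276) (.e (nat_lit 532544) (nat_lit 10) (.e (nat_lit 344133) (nat_lit 26) (.e (nat_lit 557105) (nat_lit 14) (.e (nat_lit 180252) (nat_lit 10) (.e (nat_lit 573441) (nat_lit 0) (.e (nat_lit 3067) (nat_lit 190) (.e (nat_lit 483072) (nat_lit 26) .nil))))))) (.g (nat_lit 1) (.e (nat_lit 401311) (nat_lit 0) .nil) .nil))))))) 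
(.nd (nat_lit 6) (.nd (nat_lit 7) (.nd (nat_lit 8) (.nd (nat_lit 9) 
(.lf (nat_lit 590893) (.g (nat_lit 3226) (.e (nat_lit 532526) (nat_lit 8) (.e (nat_lit 327698) (nat_lit 8) (.e (nat_lit 303119) (nat_lit 3) (.e (nat_lit 204863) (nat_lit 27) (.e (nat_lit 344066) (nat_lit 0) (.e (nat_lit 2508) (nat_lit 157) (.e (nat_lit 3249) (nat_lit 197) .nil))))))) (.g (nat_lit 1) (.e (nat_lit 399037) (nat_lit 0) .nil) .nil))) 
(.lf (nat_lit 591405) (.g (nat_lit 654) (.e (nat_lit 532543) (nat_lit 10) (.e (nat_lit 344129) (nat_lit 26) (.e (nat_lit 557067) (nat_lit 9) .nil))) (.g (nat_lit 0) (.e (nat_lit 400886) (nat_lit 0) .nil) .nil)))) (.nd (nat_lit 9) 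
(.lf (nat_lit 591149) (.g (nat_lit 788) (.e (nat_lit 532534) (nat_lit 9) (.e (nat_lit 336324) (nat_lit 18) (.e (nat_lit 204879) (nat_lit 32) .nil))) (.g (nat_lit 0) (.e (nat_lit 399844) (nat_lit 0) .nil) .nil))) 
(.lf (nat_lit 591661) (.g (nat_lit 2503) (.e (nat_lit 532544) (nat_lit 10) (.e (nat_lit 344132) (nat_lit 26) (.e (nat_lit 557100) (nat_lit 13) (.e (nat_lit 172065) (nat_lit 3) (.e (nat_lit 204829) (nat_lit 18) .nil))))) (.g (nat_lit 0) (.e (nat_lit 401151) (nat_lit 0) .nil) .nil))))) (.nd (nat_lit 8) (.nd (nat_lit 9) 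
(.lf (nat_lit 591021) (.g (nat_lit 2435) (.e (nat_lit 532530) (nat_lit 9) (.e (nat_lit 336324) (nat_lit 18) (.e (nat_lit 204882) (nat_lit 32) (.e (nat_lit 385068) (nat_lit 26) (.e (nat_lit 532562) (nat_lit 15) .nil))))) (.g (nat_lit 0) (.e (nat_lit 399475) (nat_lit 0) .nil) .nil))) 
(.lf (nat_lit 591533) (.g (nat_lit 1369) (.e (nat_lit 532544) (nat_lit 10) (.e (nat_lit 344130) (nat_lit 26) (.e (nat_lit 557103) (nat_lit 14) (.e (nat_lit 180236) (nat_lit 1) .nil)))) (.g (nat_lit 0) (.e (nat_lit 401023) (nat_lit 0) .nil) .nil)))) (.nd (nat_lit 9) 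
(.lf (nat_lit 591277) (.g (nat_lit 3918) (.e (nat_lit 532535) (nat_lit 9) (.e (nat_lit 336099) (nat_lit 9) (.e (nat_lit 336028) (nat_lit 3) (.e (nat_lit 98349) (nat_lit 24) (.e (nat_lit 409649) (nat_lit 18) (.e (nat_lit 303111) (nat_lit 0) (.e (nat_lit 3230) (nat_lit 197) .nil))))))) (.g (nat_lit 1) (.e (nat_lit 400328) (nat_lit 0) .nil) .nil))) 
(.lf (nat_lit 591789) (.g (nat_lit 3027) (.e (nat_lit 532544) (nat_lit 10) (.e (nat_lit 344133) (nat_lit 26) (.e (nat_lit 557103) (nat_lit 14) (.e (nat_lit 180250) (nat_lit 10) (.e (nat_lit 573441) (nat_lit 0) (.e (nat_lit 3065) (nat_lit 190) (.e (nat_lit 483072) (nat_lit 26) .nil))))))) (.g (nat_lit 1) (.e (nat_lit 401279) (nat_lit 0) .nil) .nil)))))) 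
(.nd (nat_lit 7) (.nd (nat_lit 8) (.nd (nat_lit 9) 
(.lf (nat_lit 590957) (.g (nat_lit 3099) (.e (nat_lit 532529) (nat_lit 9) (.e (nat_lit 343808) (nat_lit 10) (.e (nat_lit 344129) (nat_lit 26) (.e (nat_lit 557087) (nat_lit 11) (.e (nat_lit 24617) (nat_lit 7) (.e (nat_lit 319505) (nat_lit 10) (.e (nat_lit 7936) (nat_lit 45) .nil))))))) (.g (nat_lit 1) (.e (nat_lit 399182) (nat_lit 0) .nil) .nil))) 
(.lf (nat_lit 591469) (.g (nat_lit 1770) (.e (nat_lit 532544) (nat_lit 10) (.e (nat_lit 344129) (nat_lit 26) (.e (nat_lit 557097) (nat_lit 13) (.e (nat_lit 172065) (nat_lit 3) (.e (nat_lit 204811) (nat_lit 9) .nil))))) (.g (nat_lit 0) (.e (nat_lit 400959) (nat_lit 0) .nil) .nil)))) (.nd (nat_lit 9) 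
(.lf (nat_lit 591213) (.g (nat_lit 3006) (.e (nat_lit 532535) (nat_lit 9) (.e (nat_lit 336099) (nat_lit 9) (.e (nat_lit 336013) (nat_lit 2) (.e (nat_lit 90138) (nat_lit 9) .nil)))) (.g (nat_lit 0) (.e (nat_lit 400078) (nat_lit 0) .nil) .nil))) 
(.lf (nat_lit 591725) (.g (nat_lit 2123) (.e (nat_lit 532544) (nat_lit 10) (.e (nat_lit 344132) (nat_lit 26) (.e (nat_lit 557105) (nat_lit 14) (.e (nat_lit 180252) (nat_lit 10) (.e (nat_lit 581376) (nat_lit 0) (.e (nat_lit 3070) (nat_lit 190) (.e (nat_lit 483072) (nat_lit 26) .nil))))))) (.g (nat_lit 1) (.e (nat_lit 401215) (nat_lit 0) .nil) .nil))))) (.nd (nat_lit 8) (.nd (nat_lit 9) 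
(.lf (nat_lit 591085) (.g (nat_lit 1623) (.e (nat_lit 532532) (nat_lit 9) (.e (nat_lit 336326) (nat_lit 18) (.e (nat_lit 204851) (nat_lit 26) (.e (nat_lit 336324) (nat_lit 18) (.e (nat_lit 204880) (nat_lit 32) .nil))))) (.g (nat_lit 0) (.e (nat_lit 399705) (nat_lit 0) .nil) .nil))) 
(.lf (nat_lit 591597) (.g (nat_lit 2585) (.e (nat_lit 532544) (nat_lit 10) (.e (nat_lit 344131) (nat_lit 26) (.e (nat_lit 557100) (nat_lit 13) (.e (nat_lit 172065) (nat_lit 3) (.e (nat_lit 204821) (nat_lit 17) .nil))))) (.g (nat_lit 0) (.e (nat_lit 401087) (nat_lit 0) .nil) .nil)))) (.nd (nat_lit 9) 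
(.lf (nat_lit 591341) (.g (nat_lit 5054) (.e (nat_lit 532535) (nat_lit 9) (.e (nat_lit 336176) (nat_lit 10) (.e (nat_lit 344132) (nat_lit 26) (.e (nat_lit 557093) (nat_lit 12) (.e (nat_lit 164022) (nat_lit 46) (.e (nat_lit 704629) (nat_lit 9) (.e (nat_lit 442) (nat_lit 33) (.e (nat_lit 434233) (nat_lit 23) .nil)))))))) (.g (nat_lit 1) (.e (nat_lit 400658) (nat_lit 0) .nil) .nil))) 
(.lf (nat_lit 591853) (.g (nat_lit 1383) (.e (nat_lit 532545) (nat_lit 10) (.e (nat_lit 344133) (nat_lit 26) (.e (nat_lit 557103) (nat_lit 14) (.e (nat_lit 188160) (nat_lit 1) .nil)))) (.g (nat_lit 0) (.e (nat_lit 401349) (nat_lit 0) .nil) .nil)))))))) (.nd (nat_lit 5) (.nd (nat_lit 6) (.nd (nat_lit 7) (.nd (nat_lit 8) (.nd (nat_lit 9) 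
(.lf (nat_lit 590877) (.g (nat_lit 1286) (.e (nat_lit 532523) (nat_lit 7) (.e (nat_lit 319535) (nat_lit 17) (.e (nat_lit 294928) (nat_lit 2) (.e (nat_lit 90170) (nat_lit 13) (.e (nat_lit 172106) (nat_lit 10) .nil))))) (.g (nat_lit 0) (.e (nat_lit 398990) (nat_lit 0) .nil) .nil))) 
(.lf (nat_lit 591389) (.g (nat_lit 1154) (.e (nat_lit 532542) (nat_lit 9) (.e (nat_lit 336194) (nat_lit 12) (.e (nat_lit 385066) (nat_lit 26) (.e (nat_lit 532515) (nat_lit 3) .nil)))) (.g (nat_lit 0) (.e (nat_lit 400857) (nat_lit 0) .nil) .nil)))) (.nd (nat_lit 9) 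
(.lf (nat_lit 591133) (.g (nat_lit 3588) (.e (nat_lit 532534) (nat_lit 9) (.e (nat_lit 336019) (nat_lit 3) (.e (nat_lit 98342) (nat_lit 20) (.e (nat_lit 221212) (nat_lit 22) (.e (nat_lit 196677) (nat_lit 16) (.e (nat_lit 122952) (nat_lit 39) (.e (nat_lit 647181) (nat_lit 3) (.e (nat_lit 163964) (nat_lit 25) .nil)))))))) (.g (nat_lit 1) (.e (nat_lit 399805) (nat_lit 0) .nil) .nil))) 
(.lf (nat_lit 591645) (.g (nat_lit 2228) (.e (nat_lit 532544) (nat_lit 10) (.e (nat_lit 344131) (nat_lit 26) (.e (nat_lit 557105) (nat_lit 14) (.e (nat_lit 180252) (nat_lit 10) (.e (nat_lit 573474) (nat_lit 12) (.e (nat_lit 57348) (nat_lit 0) (.e (nat_lit 5436) (nat_lit 306) (.e (nat_lit 2604) (nat_lit 163) (.e (nat_lit 163962) (nat_lit 25) .nil))))))))) (.g (nat_lit 1) (.e (nat_lit 401135) (nat_lit 0) .nil) .nil))))) 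
(.nd (nat_lit 8) (.nd (nat_lit 9) 
(.lf (nat_lit 591005) (.g (nat_lit 1154) (.e (nat_lit 532530) (nat_lit 9) (.e (nat_lit 336019) (nat_lit 3) (.e (nat_lit 98341) (nat_lit 20) (.e (nat_lit 229120) (nat_lit 3) .nil)))) (.g (nat_lit 0) (.e (nat_lit 399375) (nat_lit 0) .nil) .nil))) 
(.lf (nat_lit 591517) (.g (nat_lit 1894) (.e (nat_lit 532544) (nat_lit 10) (.e (nat_lit 344130) (nat_lit 26) (.e (nat_lit 557097) (nat_lit 13) (.e (nat_lit 172062) (nat_lit 2) (.e (nat_lit 196624) (nat_lit 9) (.e (nat_lit 489) (nat_lit 38) (.e (nat_lit 483072) (nat_lit 26) .nil))))))) (.g (nat_lit 1) (.e (nat_lit 401007) (nat_lit 0) .nil) .nil)))) (.nd (nat_lit 9) 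
(.lf (nat_lit 591261) (.g (nat_lit 5136) (.e (nat_lit 532535) (nat_lit 9) (.e (nat_lit 336099) (nat_lit 9) (.e (nat_lit 336013) (nat_lit 2) (.e (nat_lit 90170) (nat_lit 13) (.e (nat_lit 172046) (nat_lit 0) (.e (nat_lit 3366) (nat_lit 208) (.e (nat_lit 622635) (nat_lit 16) (.e (nat_lit 163965) (nat_lit 25) .nil)))))))) (.g (nat_lit 1) (.e (nat_lit 400169) (nat_lit 0) .nil) .nil))) 
(.lf (nat_lit 591773) (.g (nat_lit 2869) (.e (nat_lit 532544) (nat_lit 10) (.e (nat_lit 344133) (nat_lit 26) (.e (nat_lit 557098) (nat_lit 13) (.e (nat_lit 172133) (nat_lit 15) (.e (nat_lit 1800) (nat_lit 119) (.e (nat_lit 516119) (nat_lit 1) (.e (nat_lit 164347) (nat_lit 240) (.e (nat_lit 2599) (nat_lit 163) (.e (nat_lit 163962) (nat_lit 25) .nil))))))))) (.g (nat_lit 1) (.e (nat_lit 401263) (nat_lit 0) .nil) .nil)))))) 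
(.nd (nat_lit 7) (.nd (nat_lit 8) (.nd (nat_lit 9) 
(.lf (nat_lit 590941) (.g (nat_lit 1357) (.e (nat_lit 532528) (nat_lit 9) (.e (nat_lit 336324) (nat_lit 18) (.e (nat_lit 204853) (nat_lit 26) (.e (nat_lit 336324) (nat_lit 18) (.e (nat_lit 204882) (nat_lit 32) .nil))))) (.g (nat_lit 0) (.e (nat_lit 399123) (nat_lit 0) .nil) .nil))) 
(.lf (nat_lit 591453) (.g (nat_lit 2393) (.e (nat_lit 532544) (nat_lit 10) (.e (nat_lit 344118) (nat_lit 21) (.e (nat_lit 516131) (nat_lit 3) (.e (nat_lit 221212) (nat_lit 22) (.e (nat_lit 196610) (nat_lit 0) (.e (nat_lit 3067) (nat_lit 190) (.e (nat_lit 483072) (nat_lit 26) .nil))))))) (.g (nat_lit 1) (.e (nat_lit 400942) (nat_lit 0) .nil) .nil)))) (.nd (nat_lit 9) 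
(.lf (nat_lit 591197) (.g (nat_lit 4228) (.e (nat_lit 532535) (nat_lit 9) (.e (nat_lit 336099) (nat_lit 9) (.e (nat_lit 336013) (nat_lit 2) (.e (nat_lit 90134) (nat_lit 9) (.e (nat_lit 2822) (nat_lit 182) .nil))))) (.g (nat_lit 0) (.e (nat_lit 400053) (nat_lit 0) .nil) .nil))) 
(.lf (nat_lit 591709) (.g (nat_lit 1681) (.e (nat_lit 532544) (nat_lit 10) (.e (nat_lit 344132) (nat_lit 26) (.e (nat_lit 557105) (nat_lit 14) (.e (nat_lit 180251) (nat_lit 10) (.e (nat_lit 581376) (nat_lit 0) .nil))))) (.g (nat_lit 0) (.e (nat_lit 401199) (nat_lit 0) .nil) .nil))))) (.nd (nat_lit 8) (.nd (nat_lit 9) 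
(.lf (nat_lit 591069) (.g (nat_lit 989) (.e (nat_lit 532532) (nat_lit 9) (.e (nat_lit 336316) (nat_lit 17) (.e (nat_lit 196681) (nat_lit 17) (.e (nat_lit 139008) (nat_lit 18) .nil)))) (.g (nat_lit 0) (.e (nat_lit 399687) (nat_lit 0) .nil) .nil))) 
(.lf (nat_lit 591581) (.g (nat_lit 1663) (.e (nat_lit 532544) (nat_lit 10) (.e (nat_lit 344130) (nat_lit 26) (.e (nat_lit 557104) (nat_lit 14) (.e (nat_lit 180252) (nat_lit 10) (.e (nat_lit 573474) (nat_lit 12) .nil))))) (.g (nat_lit 0) (.e (nat_lit 401071) (nat_lit 0) .nil) .nil)))) (.nd (nat_lit 9) 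
(.lf (nat_lit 591325) (.g (nat_lit 488) (.e (nat_lit 532535) (nat_lit 9) (.e (nat_lit 336176) (nat_lit 10) (.e (nat_lit 344127) (nat_lit 26) .nil))) (.g (nat_lit 0) (.e (nat_lit 400520) (nat_lit 0) .nil) .nil))) 
(.lf (nat_lit 591837) (.g (nat_lit 3013) (.e (nat_lit 532544) (nat_lit 10) (.e (nat_lit 344133) (nat_lit 26) (.e (nat_lit 557105) (nat_lit 14) (.e (nat_lit 180252) (nat_lit 10) (.e (nat_lit 581376) (nat_lit 0) (.e (nat_lit 3073) (nat_lit 190) (.e (nat_lit 483072) (nat_lit 26) .nil))))))) (.g (nat_lit 1) (.e (nat_lit 401327) (nat_lit 0) .nil) .nil))))))) 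
(.nd (nat_lit 6) (.nd (nat_lit 7) (.nd (nat_lit 8) (.nd (nat_lit 9) 
(.lf (nat_lit 590909) (.g (nat_lit 4251) (.e (nat_lit 532526) (nat_lit 8) (.e (nat_lit 327699) (nat_lit 8) (.e (nat_lit 303119) (nat_lit 3) (.e (nat_lit 204846) (nat_lit 24) (.e (nat_lit 319491) (nat_lit 0) .nil))))) (.g (nat_lit 0) (.e (nat_lit 399060) (nat_lit 0) .nil) .nil))) 
(.lf (nat_lit 591421) (.g (nat_lit 392) (.e (nat_lit 532543) (nat_lit 10) (.e (nat_lit 344160) (nat_lit 37) (.e (nat_lit 647190) (nat_lit 9) .nil))) (.g (nat_lit 0) (.e (nat_lit 400902) (nat_lit 0) .nil) .nil)))) (.nd (nat_lit 9) 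
(.lf (nat_lit 591165) (.g (nat_lit 1827) (.e (nat_lit 532535) (nat_lit 9) (.e (nat_lit 336020) (nat_lit 3) (.e (nat_lit 106240) (nat_lit 16) (.e (nat_lit 401425) (nat_lit 2) (.e (nat_lit 196661) (nat_lit 12) (.e (nat_lit 57560) (nat_lit 50) (.e (nat_lit 737305) (nat_lit 11) (.e (nat_lit 596) (nat_lit 45) .nil)))))))) (.g (nat_lit 1) (.e (nat_lit 399905) (nat_lit 0) .nil) .nil))) 
(.lf (nat_lit 591677) (.g (nat_lit 1856) (.e (nat_lit 532544) (nat_lit 10) (.e (nat_lit 344132) (nat_lit 26) (.e (nat_lit 557101) (nat_lit 13) (.e (nat_lit 172062) (nat_lit 2) (.e (nat_lit 196622) (nat_lit 9) (.e (nat_lit 488) (nat_lit 38) (.e (nat_lit 483072) (nat_lit 26) .nil))))))) (.g (nat_lit 1) (.e (nat_lit 401167) (nat_lit 0) .nil) .nil))))) (.nd (nat_lit 8) (.nd (nat_lit 9) 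
(.lf (nat_lit 591037) (.g (nat_lit 2763) (.e (nat_lit 532530) (nat_lit 9) (.e (nat_lit 336326) (nat_lit 18) (.e (nat_lit 204854) (nat_lit 26) (.e (nat_lit 336326) (nat_lit 18) (.e (nat_lit 204854) (nat_lit 26) (.e (nat_lit 336284) (nat_lit 15) (.e (nat_lit 3249) (nat_lit 197) .nil))))))) (.g (nat_lit 1) (.e (nat_lit 399500) (nat_lit 0) .nil) .nil))) 
(.lf (nat_lit 591549) (.g (nat_lit 2438) (.e (nat_lit 532544) (nat_lit 10) (.e (nat_lit 344130) (nat_lit 26) (.e (nat_lit 557103) (nat_lit 14) (.e (nat_lit 180250) (nat_lit 10) (.e (nat_lit 573447) (nat_lit 0) .nil))))) (.g (nat_lit 0) (.e (nat_lit 401039) (nat_lit 0) .nil) .nil)))) (.nd (nat_lit 9) 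
(.lf (nat_lit 591293) (.g (nat_lit 4588) (.e (nat_lit 532535) (nat_lit 9) (.e (nat_lit 336163) (nat_lit 10) (.e (nat_lit 344129) (nat_lit 26) (.e (nat_lit 557087) (nat_lit 11) (.e (nat_lit 24617) (nat_lit 7) (.e (nat_lit 319504) (nat_lit 10) (.e (nat_lit 7936) (nat_lit 45) .nil))))))) (.g (nat_lit 1) (.e (nat_lit 400409) (nat_lit 0) .nil) .nil))) 
(.lf (nat_lit 591805) (.g (nat_lit 1869) (.e (nat_lit 532544) (nat_lit 10) (.e (nat_lit 344133) (nat_lit 26) (.e (nat_lit 557105) (nat_lit 14) (.e (nat_lit 180237) (nat_lit 1) .nil)))) (.g (nat_lit 0) (.e (nat_lit 401295) (nat_lit 0) .nil) .nil)))))) (.nd (nat_lit 7) (.nd (nat_lit 8) (.nd (nat_lit 9) 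
(.lf (nat_lit 590973) (.g (nat_lit 3579) (.e (nat_lit 532529) (nat_lit 9) (.e (nat_lit 336326) (nat_lit 18) (.e (nat_lit 204863) (nat_lit 27) (.e (nat_lit 344129) (nat_lit 26) (.e (nat_lit 557097) (nat_lit 13) (.e (nat_lit 172133) (nat_lit 15) (.e (nat_lit 7936) (nat_lit 121) .nil))))))) (.g (nat_lit 1) (.e (nat_lit 399313) (nat_lit 0) .nil) .nil))) 
(.lf (nat_lit 591485) (.g (nat_lit 2573) (.e (nat_lit 532544) (nat_lit 10) (.e (nat_lit 344129) (nat_lit 26) (.e (nat_lit 557103) (nat_lit 14) (.e (nat_lit 180250) (nat_lit 10) (.e (nat_lit 573441) (nat_lit 0) .nil))))) (.g (nat_lit 0) (.e (nat_lit 400975) (nat_lit 0) .nil) .nil)))) (.nd (nat_lit 9) 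
(.lf (nat_lit 591229) (.g (nat_lit 4526) (.e (nat_lit 532535) (nat_lit 9) (.e (nat_lit 336099) (nat_lit 9) (.e (nat_lit 336013) (nat_lit 2) (.e (nat_lit 90165) (nat_lit 12) (.e (nat_lit 164208) (nat_lit 176) (.e (nat_lit 2819) (nat_lit 181) (.e (nat_lit 311300) (nat_lit 0) (.e (nat_lit 3250) (nat_lit 197) .nil)))))))) (.g (nat_lit 1) (.e (nat_lit 400100) (nat_lit 0) .nil) .nil))) 
(.lf (nat_lit 591741) (.g (nat_lit 3928) (.e (nat_lit 532544) (nat_lit 10) (.e (nat_lit 344133) (nat_lit 26) (.e (nat_lit 557096) (nat_lit 13) (.e (nat_lit 172133) (nat_lit 15) (.e (nat_lit 1800) (nat_lit 119) (.e (nat_lit 516119) (nat_lit 1) (.e (nat_lit 164347) (nat_lit 240) (.e (nat_lit 2601) (nat_lit 163) (.e (nat_lit 163962) (nat_lit 25) .nil))))))))) (.g (nat_lit 1) (.e (nat_lit 401231) (nat_lit 0) .nil) .nil))))) 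
(.nd (nat_lit 8) (.nd (nat_lit 9) 
(.lf (nat_lit 591101) (.g (nat_lit 1718) (.e (nat_lit 532533) (nat_lit 9) (.e (nat_lit 336019) (nat_lit 3) (.e (nat_lit 98342) (nat_lit 20) (.e (nat_lit 221197) (nat_lit 20) .nil)))) (.g (nat_lit 0) (.e (nat_lit 399740) (nat_lit 0) .nil) .nil))) 
(.lf (nat_lit 591613) (.g (nat_lit 2310) (.e (nat_lit 532544) (nat_lit 10) (.e (nat_lit 344131) (nat_lit 26) (.e (nat_lit 557103) (nat_lit 14) (.e (nat_lit 180250) (nat_lit 10) (.e (nat_lit 573441) (nat_lit 0) (.e (nat_lit 3064) (nat_lit 190) (.e (nat_lit 483072) (nat_lit 26) .nil))))))) (.g (nat_lit 1) (.e (nat_lit 401103) (nat_lit 0) .nil) .nil)))) (.nd (nat_lit 9) 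
(.lf (nat_lit 591357) (.g (nat_lit 2946) (.e (nat_lit 532535) (nat_lit 9) (.e (nat_lit 336177) (nat_lit 10) (.e (nat_lit 344117) (nat_lit 21) (.e (nat_lit 516139) (nat_lit 7) (.e (nat_lit 409615) (nat_lit 10) (.e (nat_lit 5762) (nat_lit 315) (.e (nat_lit 163962) (nat_lit 25) .nil))))))) (.g (nat_lit 1) (.e (nat_lit 400759) (nat_lit 0) .nil) .nil))) 
(.lf (nat_lit 591869) (.g (nat_lit 2274) (.e (nat_lit 532546) (nat_lit 11) (.e (nat_lit 352314) (nat_lit 23) (.e (nat_lit 98350) (nat_lit 24) (.e (nat_lit 409616) (nat_lit 10) (.e (nat_lit 5756) (nat_lit 315) (.e (nat_lit 163962) (nat_lit 25) .nil)))))) (.g (nat_lit 1) (.e (nat_lit 401375) (nat_lit 0) .nil) .nil))))))))))) 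
(.nd (nat_lit 2) (.nd (nat_lit 3) (.nd (nat_lit 4) (.nd (nat_lit 5) (.nd (nat_lit 6) 
(.nd (nat_lit 7) (.nd (nat_lit 8) (.nd (nat_lit 9) 
(.lf (nat_lit 590851) (.g (nat_lit 1702) (.e (nat_lit 532523) (nat_lit 7) (.e (nat_lit 319534) (nat_lit 16) (.e (nat_lit 286734) (nat_lit 3) (.e (nat_lit 98366) (nat_lit 27) .nil)))) (.g (nat_lit 0) (.e (nat_lit 398963) (nat_lit 0) .nil) .nil))) 
(.lf (nat_lit 591363) (.g (nat_lit 2933) (.e (nat_lit 532535) (nat_lit 9) (.e (nat_lit 336178) (nat_lit 10) (.e (nat_lit 344117) (nat_lit 21) (.e (nat_lit 516139) (nat_lit 7) (.e (nat_lit 417536) (nat_lit 10) (.e (nat_lit 5762) (nat_lit 315) (.e (nat_lit 163962) (nat_lit 25) .nil))))))) (.g (nat_lit 1) (.e (nat_lit 400767) (nat_lit 0) .nil) .nil)))) (.nd (nat_lit 9) 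
(.lf (nat_lit 591107) (.g (nat_lit 944) (.e (nat_lit 532533) (nat_lit 9) (.e (nat_lit 336211) (nat_lit 13) (.e (nat_lit 393221) (nat_lit 0) (.e (nat_lit 6216) (nat_lit 333) (.e (nat_lit 65280) (nat_lit 271) .nil))))) (.g (nat_lit 0) (.e (nat_lit 399754) (nat_lit 0) .nil) .nil))) 
(.lf (nat_lit 591619) (.g (nat_lit 2215) (.e (nat_lit 532544) (nat_lit 10) (.e (nat_lit 344131) (nat_lit 26) (.e (nat_lit 557103) (nat_lit 14) (.e (nat_lit 180250) (nat_lit 10) (.e (nat_lit 573446) (nat_lit 0) .nil))))) (.g (nat_lit 0) (.e (nat_lit 401109) (nat_lit 0) .nil) .nil))))) (.nd (nat_lit 8) (.nd (nat_lit 9) 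
(.lf (nat_lit 590979) (.g (nat_lit 2993) (.e (nat_lit 532529) (nat_lit 9) (.e (nat_lit 336326) (nat_lit 18) (.e (nat_lit 204863) (nat_lit 27) (.e (nat_lit 344132) (nat_lit 26) (.e (nat_lit 557100) (nat_lit 13) (.e (nat_lit 179968) (nat_lit 15) (.e (nat_lit 1816) (nat_lit 121) .nil))))))) (.g (nat_lit 1) (.e (nat_lit 399319) (nat_lit 0) .nil) .nil))) 
(.lf (nat_lit 591491) (.g (nat_lit 3344) (.e (nat_lit 532544) (nat_lit 10) (.e (nat_lit 344129) (nat_lit 26) (.e (nat_lit 557103) (nat_lit 14) (.e (nat_lit 180250) (nat_lit 10) (.e (nat_lit 573447) (nat_lit 0) (.e (nat_lit 3067) (nat_lit 190) (.e (nat_lit 483072) (nat_lit 26) .nil))))))) (.g (nat_lit 1) (.e (nat_lit 400981) (nat_lit 0) .nil) .nil)))) (.nd (nat_lit 9) 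
(.lf (nat_lit 591235) (.g (nat_lit 3408) (.e (nat_lit 532535) (nat_lit 9) (.e (nat_lit 336099) (nat_lit 9) (.e (nat_lit 336013) (nat_lit 2) (.e (nat_lit 90165) (nat_lit 12) (.e (nat_lit 164210) (nat_lit 176) (.e (nat_lit 2770) (nat_lit 177) (.e (nat_lit 278552) (nat_lit 10) (.e (nat_lit 7936) (nat_lit 45) .nil)))))))) (.g (nat_lit 1) (.e (nat_lit 400106) (nat_lit 0) .nil) .nil))) 
(.lf (nat_lit 591747) (.g (nat_lit 1498) (.e (nat_lit 532544) (nat_lit 10) (.e (nat_lit 344133) (nat_lit 26) (.e (nat_lit 557098) (nat_lit 13) (.e (nat_lit 172051) (nat_lit 0) (.e (nat_lit 3307) (nat_lit 202) .nil))))) (.g (nat_lit 0) (.e (nat_lit 401237) (nat_lit 0) .nil) .nil)))))) (.nd (nat_lit 7) (.nd (nat_lit 8) (.nd (nat_lit 9) 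
(.lf (nat_lit 590915) (.g (nat_lit 3911) (.e (nat_lit 532526) (nat_lit 8) (.e (nat_lit 327699) (nat_lit 8) (.e (nat_lit 303119) (nat_lit 3) (.e (nat_lit 204863) (nat_lit 27) (.e (nat_lit 344065) (nat_lit 0) (.e (nat_lit 2505) (nat_lit 157) (.e (nat_lit 3249) (nat_lit 197) .nil))))))) (.g (nat_lit 1) (.e (nat_lit 399069) (nat_lit 0) .nil) .nil))) 
(.lf (nat_lit 591427) (.g (nat_lit 2347) (.e (nat_lit 532544) (nat_lit 10) (.e (nat_lit 344117) (nat_lit 21) (.e (nat_lit 516106) (nat_lit 0) (.e (nat_lit 3721) (nat_lit 227) .nil)))) (.g (nat_lit 0) (.e (nat_lit 400916) (nat_lit 0) .nil) .nil)))) (.nd (nat_lit 9) 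
(.lf (nat_lit 591171) (.g (nat_lit 3364) (.e (nat_lit 532535) (nat_lit 9) (.e (nat_lit 336099) (nat_lit 9) (.e (nat_lit 335916) (nat_lit 0) (.e (nat_lit 1848) (nat_lit 124) (.e (nat_lit 557087) (nat_lit 11) (.e (nat_lit 24617) (nat_lit 7) (.e (nat_lit 319505) (nat_lit 10) (.e (nat_lit 7936) (nat_lit 45) .nil)))))))) (.g (nat_lit 1) (.e (nat_lit 399996) (nat_lit 0) .nil) .nil))) 
(.lf (nat_lit 591683) (.g (nat_lit 1977) (.e (nat_lit 532544) (nat_lit 10) (.e (nat_lit 344132) (nat_lit 26) (.e (nat_lit 557101) (nat_lit 13) (.e (nat_lit 172064) (nat_lit 2) (.e (nat_lit 196622) (nat_lit 9) (.e (nat_lit 488) (nat_lit 38) (.e (nat_lit 483072) (nat_lit 26) .nil))))))) (.g (nat_lit 1) (.e (nat_lit 401173) (nat_lit 0) .nil) .nil))))) (.nd (nat_lit 8) (.nd (nat_lit 9) 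
(.lf (nat_lit 591043) (.g (nat_lit 1381) (.e (nat_lit 532530) (nat_lit 9) (.e (nat_lit 336326) (nat_lit 18) (.e (nat_lit 204882) (nat_lit 32) (.e (nat_lit 385066) (nat_lit 26) (.e (nat_lit 532534) (nat_lit 9) .nil))))) (.g (nat_lit 0) (.e (nat_lit 399535) (nat_lit 0) .nil) .nil))) 
(.lf (nat_lit 591555) (.g (nat_lit 2182) (.e (nat_lit 532544) (nat_lit 10) (.e (nat_lit 344130) (nat_lit 26) (.e (nat_lit 557104) (nat_lit 14) (.e (nat_lit 180244) (nat_lit 5) (.e (nat_lit 540416) (nat_lit 32) .nil))))) (.g (nat_lit 0) (.e (nat_lit 401045) (nat_lit 0) .nil) .nil)))) (.nd (nat_lit 9) 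
(.lf (nat_lit 591299) (.g (nat_lit 2678) (.e (nat_lit 532535) (nat_lit 9) (.e (nat_lit 336167) (nat_lit 10) (.e (nat_lit 344130) (nat_lit 26) (.e (nat_lit 557087) (nat_lit 11) (.e (nat_lit 24617) (nat_lit 7) (.e (nat_lit 319504) (nat_lit 10) (.e (nat_lit 7936) (nat_lit 45) .nil))))))) (.g (nat_lit 1) (.e (nat_lit 400416) (nat_lit 0) .nil) .nil))) 
(.lf (nat_lit 591811) (.g (nat_lit 3679) (.e (nat_lit 532544) (nat_lit 10) (.e (nat_lit 344133) (nat_lit 26) (.e (nat_lit 557105) (nat_lit 14) (.e (nat_lit 180251) (nat_lit 10) (.e (nat_lit 573442) (nat_lit 0) (.e (nat_lit 3062) (nat_lit 190) (.e (nat_lit 483072) (nat_lit 26) .nil))))))) (.g (nat_lit 1) (.e (nat_lit 401301) (nat_lit 0) .nil) .nil))))))) 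
(.nd (nat_lit 6) (.nd (nat_lit 7) (.nd (nat_lit 8) (.nd (nat_lit 9) 
(.lf (nat_lit 590883) (.g (nat_lit 3134) (.e (nat_lit 532525) (nat_lit 8) (.e (nat_lit 327699) (nat_lit 8) (.e (nat_lit 303117) (nat_lit 2) (.e (nat_lit 196668) (nat_lit 14) (.e (nat_lit 81664) (nat_lit 35) .nil))))) (.g (nat_lit 0) (.e (nat_lit 399003) (nat_lit 0) .nil) .nil))) 
(.lf (nat_lit 591395) (.g (nat_lit 2434) (.e (nat_lit 532542) (nat_lit 9) (.e (nat_lit 336204) (nat_lit 12) (.e (nat_lit 385074) (nat_lit 31) (.e (nat_lit 573489) (nat_lit 14) (.e (nat_lit 73780) (nat_lit 32) (.e (nat_lit 2505) (nat_lit 157) (.e (nat_lit 3249) (nat_lit 197) .nil))))))) (.g (nat_lit 1) (.e (nat_lit 400874) (nat_lit 0) .nil) .nil)))) (.nd (nat_lit 9) 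
(.lf (nat_lit 591139) (.g (nat_lit 1303) (.e (nat_lit 532534) (nat_lit 9) (.e (nat_lit 336316) (nat_lit 17) (.e (nat_lit 196630) (nat_lit 9) (.e (nat_lit 1413) (nat_lit 108) (.e (nat_lit 336322) (nat_lit 18) .nil))))) (.g (nat_lit 0) (.e (nat_lit 399820) (nat_lit 0) .nil) .nil))) 
(.lf (nat_lit 591651) (.g (nat_lit 3063) (.e (nat_lit 532544) (nat_lit 10) (.e (nat_lit 344132) (nat_lit 26) (.e (nat_lit 557100) (nat_lit 13) (.e (nat_lit 172062) (nat_lit 2) (.e (nat_lit 196622) (nat_lit 9) (.e (nat_lit 488) (nat_lit 38) (.e (nat_lit 483072) (nat_lit 26) .nil))))))) (.g (nat_lit 1) (.e (nat_lit 401141) (nat_lit 0) .nil) .nil))))) (.nd (nat_lit 8) (.nd (nat_lit 9) 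
(.lf (nat_lit 591011) (.g (nat_lit 1312) (.e (nat_lit 532530) (nat_lit 9) (.e (nat_lit 336324) (nat_lit 18) (.e (nat_lit 204854) (nat_lit 26) (.e (nat_lit 336306) (nat_lit 15) .nil)))) (.g (nat_lit 0) (.e (nat_lit 399459) (nat_lit 0) .nil) .nil))) 
(.lf (nat_lit 591523) (.g (nat_lit 1954) (.e (nat_lit 532544) (nat_lit 10) (.e (nat_lit 344130) (nat_lit 26) (.e (nat_lit 557097) (nat_lit 13) (.e (nat_lit 172066) (nat_lit 3) (.e (nat_lit 212736) (nat_lit 15) (.e (nat_lit 483072) (nat_lit 26) .nil)))))) (.g (nat_lit 1) (.e (nat_lit 401013) (nat_lit 0) .nil) .nil)))) (.nd (nat_lit 9) 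
(.lf (nat_lit 591267) (.g (nat_lit 6538) (.e (nat_lit 532535) (nat_lit 9) (.e (nat_lit 336099) (nat_lit 9) (.e (nat_lit 336028) (nat_lit 3) (.e (nat_lit 98349) (nat_lit 24) (.e (nat_lit 409645) (nat_lit 18) (.e (nat_lit 303112) (nat_lit 0) (.e (nat_lit 3252) (nat_lit 197) .nil))))))) (.g (nat_lit 1) (.e (nat_lit 400318) (nat_lit 0) .nil) .nil))) 
(.lf (nat_lit 591779) (.g (nat_lit 1748) (.e (nat_lit 532544) (nat_lit 10) (.e (nat_lit 344133) (nat_lit 26) (.e (nat_lit 557103) (nat_lit 14) (.e (nat_lit 180236) (nat_lit 1) .nil)))) (.g (nat_lit 0) (.e (nat_lit 401269) (nat_lit 0) .nil) .nil)))))) (.nd (nat_lit 7) (.nd (nat_lit 8) (.nd (nat_lit 9) 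
(.lf (nat_lit 590947) (.g (nat_lit 1934) (.e (nat_lit 532528) (nat_lit 9) (.e (nat_lit 336324) (nat_lit 18) (.e (nat_lit 204880) (nat_lit 32) (.e (nat_lit 385066) (nat_lit 26) (.e (nat_lit 532565) (nat_lit 15) .nil))))) (.g (nat_lit 0) (.e (nat_lit 399130) (nat_lit 0) .nil) .nil))) 
(.lf (nat_lit 591459) (.g (nat_lit 2535) (.e (nat_lit 532544) (nat_lit 10) (.e (nat_lit 344129) (nat_lit 26) (.e (nat_lit 557096) (nat_lit 13) (.e (nat_lit 172133) (nat_lit 15) (.e (nat_lit 1800) (nat_lit 119) (.e (nat_lit 516119) (nat_lit 1) (.e (nat_lit 164347) (nat_lit 240) (.e (nat_lit 2601) (nat_lit 163) (.e (nat_lit 163962) (nat_lit 25) .nil))))))))) (.g (nat_lit 1) (.e (nat_lit 400949) (nat_lit 0) .nil) .nil)))) 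
(.nd (nat_lit 9) 
(.lf (nat_lit 591203) (.g (nat_lit 5017) (.e (nat_lit 532535) (nat_lit 9) (.e (nat_lit 336099) (nat_lit 9) (.e (nat_lit 336013) (nat_lit 2) (.e (nat_lit 90134) (nat_lit 9) (.e (nat_lit 2823) (nat_lit 182) (.e (nat_lit 409645) (nat_lit 18) (.e (nat_lit 303112) (nat_lit 0) (.e (nat_lit 3252) (nat_lit 197) .nil)))))))) (.g (nat_lit 1) (.e (nat_lit 400060) (nat_lit 0) .nil) .nil))) 
(.lf (nat_lit 591715) (.g (nat_lit 3276) (.e (nat_lit 532544) (nat_lit 10) (.e (nat_lit 344132) (nat_lit 26) (.e (nat_lit 557105) (nat_lit 14) (.e (nat_lit 180252) (nat_lit 10) (.e (nat_lit 573441) (nat_lit 0) (.e (nat_lit 3067) (nat_lit 190) (.e (nat_lit 483072) (nat_lit 26) .nil))))))) (.g (nat_lit 1) (.e (nat_lit 401205) (nat_lit 0) .nil) .nil))))) (.nd (nat_lit 8) (.nd (nat_lit 9) 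
(.lf (nat_lit 591075) (.g (nat_lit 3144) (.e (nat_lit 532532) (nat_lit 9) (.e (nat_lit 336324) (nat_lit 18) (.e (nat_lit 204852) (nat_lit 26) (.e (nat_lit 336326) (nat_lit 18) (.e (nat_lit 204880) (nat_lit 32) (.e (nat_lit 385066) (nat_lit 26) .nil)))))) (.g (nat_lit 1) (.e (nat_lit 399694) (nat_lit 0) .nil) .nil))) 
(.lf (nat_lit 591587) (.g (nat_lit 2315) (.e (nat_lit 532544) (nat_lit 10) (.e (nat_lit 344131) (nat_lit 26) (.e (nat_lit 557098) (nat_lit 13) (.e (nat_lit 172064) (nat_lit 2) (.e (nat_lit 196656) (nat_lit 11) .nil))))) (.g (nat_lit 0) (.e (nat_lit 401077) (nat_lit 0) .nil) .nil)))) (.nd (nat_lit 9) 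
(.lf (nat_lit 591331) (.g (nat_lit 2023) (.e (nat_lit 532535) (nat_lit 9) (.e (nat_lit 336176) (nat_lit 10) (.e (nat_lit 344130) (nat_lit 26) (.e (nat_lit 557085) (nat_lit 11) (.e (nat_lit 24577) (nat_lit 0) .nil))))) (.g (nat_lit 0) (.e (nat_lit 400578) (nat_lit 0) .nil) .nil))) 
(.lf (nat_lit 591843) (.g (nat_lit 4152) (.e (nat_lit 532544) (nat_lit 10) (.e (nat_lit 344133) (nat_lit 26) (.e (nat_lit 557105) (nat_lit 14) (.e (nat_lit 180252) (nat_lit 10) (.e (nat_lit 573474) (nat_lit 12) (.e (nat_lit 57347) (nat_lit 0) (.e (nat_lit 5438) (nat_lit 306) (.e (nat_lit 2604) (nat_lit 163) (.e (nat_lit 163962) (nat_lit 25) .nil))))))))) (.g (nat_lit 1) (.e (nat_lit 401333) (nat_lit 0) .nil) .nil)))))))) 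
(.nd (nat_lit 5) (.nd (nat_lit 6) (.nd (nat_lit 7) (.nd (nat_lit 8) (.nd (nat_lit 9) 
(.lf (nat_lit 590867) (.g (nat_lit 2291) (.e (nat_lit 532523) (nat_lit 7) (.e (nat_lit 319534) (nat_lit 16) (.e (nat_lit 286735) (nat_lit 3) (.e (nat_lit 98366) (nat_lit 27) (.e (nat_lit 442112) (nat_lit 11) .nil))))) (.g (nat_lit 0) (.e (nat_lit 398979) (nat_lit 0) .nil) .nil))) 
(.lf (nat_lit 591379) (.g (nat_lit 802) (.e (nat_lit 532542) (nat_lit 9) (.e (nat_lit 336076) (nat_lit 9) (.e (nat_lit 336374) (nat_lit 27) (.e (nat_lit 426571) (nat_lit 35) .nil)))) (.g (nat_lit 0) (.e (nat_lit 400841) (nat_lit 0) .nil) .nil)))) (.nd (nat_lit 9) 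
(.lf (nat_lit 591123) (.g (nat_lit 1974) (.e (nat_lit 532533) (nat_lit 9) (.e (nat_lit 336324) (nat_lit 18) (.e (nat_lit 204882) (nat_lit 32) (.e (nat_lit 385068) (nat_lit 26) (.e (nat_lit 532566) (nat_lit 15) .nil))))) (.g (nat_lit 0) (.e (nat_lit 399772) (nat_lit 0) .nil) .nil))) 
(.lf (nat_lit 591635) (.g (nat_lit 2997) (.e (nat_lit 532544) (nat_lit 10) (.e (nat_lit 344131) (nat_lit 26) (.e (nat_lit 557105) (nat_lit 14) (.e (nat_lit 180252) (nat_lit 10) (.e (nat_lit 573441) (nat_lit 0) (.e (nat_lit 3067) (nat_lit 190) (.e (nat_lit 483072) (nat_lit 26) .nil))))))) (.g (nat_lit 1) (.e (nat_lit 401125) (nat_lit 0) .nil) .nil))))) (.nd (nat_lit 8) (.nd (nat_lit 9) 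
(.lf (nat_lit 590995) (.g (nat_lit 3766) (.e (nat_lit 532529) (nat_lit 9) (.e (nat_lit 336326) (nat_lit 18) (.e (nat_lit 204863) (nat_lit 27) (.e (nat_lit 344133) (nat_lit 26) (.e (nat_lit 557098) (nat_lit 13) (.e (nat_lit 172130) (nat_lit 15) (.e (nat_lit 7936) (nat_lit 121) .nil))))))) (.g (nat_lit 1) (.e (nat_lit 399335) (nat_lit 0) .nil) .nil))) 
(.lf (nat_lit 591507) (.g (nat_lit 2637) (.e (nat_lit 532544) (nat_lit 10) (.e (nat_lit 344129) (nat_lit 26) (.e (nat_lit 557104) (nat_lit 14) (.e (nat_lit 180252) (nat_lit 10) (.e (nat_lit 581376) (nat_lit 0) (.e (nat_lit 3062) (nat_lit 190) (.e (nat_lit 483072) (nat_lit 26) .nil))))))) (.g (nat_lit 1) (.e (nat_lit 400997) (nat_lit 0) .nil) .nil)))) (.nd (nat_lit 9) 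
(.lf (nat_lit 591251) (.g (nat_lit 2780) (.e (nat_lit 532535) (nat_lit 9) (.e (nat_lit 336099) (nat_lit 9) (.e (nat_lit 336013) (nat_lit 2) (.e (nat_lit 90165) (nat_lit 12) (.e (nat_lit 164219) (nat_lit 180) .nil))))) (.g (nat_lit 0) (.e (nat_lit 400125) (nat_lit 0) .nil) .nil))) 
(.lf (nat_lit 591763) (.g (nat_lit 2502) (.e (nat_lit 532544) (nat_lit 10) (.e (nat_lit 344133) (nat_lit 26) (.e (nat_lit 557098) (nat_lit 13) (.e (nat_lit 172064) (nat_lit 2) (.e (nat_lit 196653) (nat_lit 11) .nil))))) (.g (nat_lit 0) (.e (nat_lit 401253) (nat_lit 0) .nil) .nil)))))) (.nd (nat_lit 7) (.nd (nat_lit 8) (.nd (nat_lit 9) 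
(.lf (nat_lit 590931) (.g (nat_lit 620) (.e (nat_lit 532527) (nat_lit 9) (.e (nat_lit 336324) (nat_lit 18) (.e (nat_lit 204852) (nat_lit 26) .nil))) (.g (nat_lit 0) (.e (nat_lit 399110) (nat_lit 0) .nil) .nil))) 
(.lf (nat_lit 591443) (.g (nat_lit 2233) (.e (nat_lit 532544) (nat_lit 10) (.e (nat_lit 344117) (nat_lit 21) (.e (nat_lit 516130) (nat_lit 3) (.e (nat_lit 221215) (nat_lit 23) (.e (nat_lit 204814) (nat_lit 17) .nil))))) (.g (nat_lit 0) (.e (nat_lit 400932) (nat_lit 0) .nil) .nil)))) (.nd (nat_lit 9) 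
(.lf (nat_lit 591187) (.g (nat_lit 3662) (.e (nat_lit 532535) (nat_lit 9) (.e (nat_lit 336099) (nat_lit 9) (.e (nat_lit 335937) (nat_lit 0) (.e (nat_lit 1848) (nat_lit 124) (.e (nat_lit 557087) (nat_lit 11) (.e (nat_lit 24617) (nat_lit 7) (.e (nat_lit 319505) (nat_lit 10) (.e (nat_lit 7936) (nat_lit 45) .nil)))))))) (.g (nat_lit 1) (.e (nat_lit 400015) (nat_lit 0) .nil) .nil))) 
(.lf (nat_lit 591699) (.g (nat_lit 1900) (.e (nat_lit 532544) (nat_lit 10) (.e (nat_lit 344132) (nat_lit 26) (.e (nat_lit 557105) (nat_lit 14) (.e (nat_lit 180227) (nat_lit 0) (.e (nat_lit 4181) (nat_lit 251) .nil))))) (.g (nat_lit 0) (.e (nat_lit 401189) (nat_lit 0) .nil) .nil))))) (.nd (nat_lit 8) (.nd (nat_lit 9) 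
(.lf (nat_lit 591059) (.g (nat_lit 3276) (.e (nat_lit 532531) (nat_lit 9) (.e (nat_lit 336324) (nat_lit 18) (.e (nat_lit 204854) (nat_lit 26) (.e (nat_lit 336324) (nat_lit 18) (.e (nat_lit 204880) (nat_lit 32) (.e (nat_lit 385066) (nat_lit 26) .nil)))))) (.g (nat_lit 1) (.e (nat_lit 399589) (nat_lit 0) .nil) .nil))) 
(.lf (nat_lit 591571) (.g (nat_lit 1913) (.e (nat_lit 532544) (nat_lit 10) (.e (nat_lit 344130) (nat_lit 26) (.e (nat_lit 557104) (nat_lit 14) (.e (nat_lit 180252) (nat_lit 10) (.e (nat_lit 581376) (nat_lit 0) (.e (nat_lit 3067) (nat_lit 190) (.e (nat_lit 483072) (nat_lit 26) .nil))))))) (.g (nat_lit 1) (.e (nat_lit 401061) (nat_lit 0) .nil) .nil)))) (.nd (nat_lit 9) 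
(.lf (nat_lit 591315) (.g (nat_lit 1065) (.e (nat_lit 532535) (nat_lit 9) (.e (nat_lit 336173) (nat_lit 10) (.e (nat_lit 344126) (nat_lit 25) (.e (nat_lit 548889) (nat_lit 9) .nil)))) (.g (nat_lit 0) (.e (nat_lit 400439) (nat_lit 0) .nil) .nil))) 
(.lf (nat_lit 591827) (.g (nat_lit 2737) (.e (nat_lit 532544) (nat_lit 10) (.e (nat_lit 344133) (nat_lit 26) (.e (nat_lit 557105) (nat_lit 14) (.e (nat_lit 180252) (nat_lit 10) (.e (nat_lit 581376) (nat_lit 0) (.e (nat_lit 3060) (nat_lit 190) (.e (nat_lit 483072) (nat_lit 26) .nil))))))) (.g (nat_lit 1) (.e (nat_lit 401317) (nat_lit 0) .nil) .nil))))))) 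
(.nd (nat_lit 6) (.nd (nat_lit 7) (.nd (nat_lit 8) (.nd (nat_lit 9) 
(.lf (nat_lit 590899) (.g (nat_lit 3153) (.e (nat_lit 532526) (nat_lit 8) (.e (nat_lit 327699) (nat_lit 8) (.e (nat_lit 303117) (nat_lit 2) (.e (nat_lit 196670) (nat_lit 14) (.e (nat_lit 81664) (nat_lit 38) (.e (nat_lit 229433) (nat_lit 25) .nil)))))) (.g (nat_lit 1) (.e (nat_lit 399047) (nat_lit 0) .nil) .nil))) 
(.lf (nat_lit 591411) (.g (nat_lit 3439) (.e (nat_lit 532543) (nat_lit 10) (.e (nat_lit 344130) (nat_lit 26) (.e (nat_lit 557097) (nat_lit 13) (.e (nat_lit 172133) (nat_lit 15) (.e (nat_lit 1800) (nat_lit 119) (.e (nat_lit 516119) (nat_lit 1) (.e (nat_lit 164345) (nat_lit 240) (.e (nat_lit 2601) (nat_lit 163) (.e (nat_lit 163962) (nat_lit 25) .nil))))))))) (.g (nat_lit 1) (.e (nat_lit 400892) (nat_lit 0) .nil) .nil)))) 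
(.nd (nat_lit 9) 
(.lf (nat_lit 591155) (.g (nat_lit 3579) (.e (nat_lit 532534) (nat_lit 9) (.e (nat_lit 336324) (nat_lit 18) (.e (nat_lit 204882) (nat_lit 32) (.e (nat_lit 385068) (nat_lit 26) (.e (nat_lit 532563) (nat_lit 15) (.e (nat_lit 385066) (nat_lit 26) .nil)))))) (.g (nat_lit 1) (.e (nat_lit 399850) (nat_lit 0) .nil) .nil))) 
(.lf (nat_lit 591667) (.g (nat_lit 1862) (.e (nat_lit 532544) (nat_lit 10) (.e (nat_lit 344132) (nat_lit 26) (.e (nat_lit 557100) (nat_lit 13) (.e (nat_lit 172138) (nat_lit 15) .nil)))) (.g (nat_lit 0) (.e (nat_lit 401157) (nat_lit 0) .nil) .nil))))) (.nd (nat_lit 8) (.nd (nat_lit 9) 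
(.lf (nat_lit 591027) (.g (nat_lit 3439) (.e (nat_lit 532530) (nat_lit 9) (.e (nat_lit 336326) (nat_lit 18) (.e (nat_lit 204852) (nat_lit 26) (.e (nat_lit 336324) (nat_lit 18) (.e (nat_lit 204880) (nat_lit 32) (.e (nat_lit 385066) (nat_lit 26) .nil)))))) (.g (nat_lit 1) (.e (nat_lit 399482) (nat_lit 0) .nil) .nil))) 
(.lf (nat_lit 591539) (.g (nat_lit 2050) (.e (nat_lit 532544) (nat_lit 10) (.e (nat_lit 344130) (nat_lit 26) (.e (nat_lit 557103) (nat_lit 14) (.e (nat_lit 180244) (nat_lit 5) (.e (nat_lit 540416) (nat_lit 32) .nil))))) (.g (nat_lit 0) (.e (nat_lit 401029) (nat_lit 0) .nil) .nil)))) (.nd (nat_lit 9) 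
(.lf (nat_lit 591283) (.g (nat_lit 3448) (.e (nat_lit 532535) (nat_lit 9) (.e (nat_lit 336099) (nat_lit 9) (.e (nat_lit 336028) (nat_lit 3) (.e (nat_lit 98350) (nat_lit 24) (.e (nat_lit 409616) (nat_lit 10) (.e (nat_lit 7936) (nat_lit 318) (.e (nat_lit 237312) (nat_lit 25) .nil))))))) (.g (nat_lit 1) (.e (nat_lit 400335) (nat_lit 0) .nil) .nil))) 
(.lf (nat_lit 591795) (.g (nat_lit 2510) (.e (nat_lit 532544) (nat_lit 10) (.e (nat_lit 344133) (nat_lit 26) (.e (nat_lit 557103) (nat_lit 14) (.e (nat_lit 180250) (nat_lit 10) (.e (nat_lit 573447) (nat_lit 0) .nil))))) (.g (nat_lit 0) (.e (nat_lit 401285) (nat_lit 0) .nil) .nil)))))) (.nd (nat_lit 7) (.nd (nat_lit 8) (.nd (nat_lit 9) 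
(.lf (nat_lit 590963) (.g (nat_lit 1391) (.e (nat_lit 532529) (nat_lit 9) (.e (nat_lit 336326) (nat_lit 18) (.e (nat_lit 204852) (nat_lit 26) (.e (nat_lit 336324) (nat_lit 18) (.e (nat_lit 204881) (nat_lit 32) .nil))))) (.g (nat_lit 0) (.e (nat_lit 399297) (nat_lit 0) .nil) .nil))) 
(.lf (nat_lit 591475) (.g (nat_lit 1404) (.e (nat_lit 532544) (nat_lit 10) (.e (nat_lit 344129) (nat_lit 26) (.e (nat_lit 557097) (nat_lit 13) (.e (nat_lit 179968) (nat_lit 18) .nil)))) (.g (nat_lit 0) (.e (nat_lit 400965) (nat_lit 0) .nil) .nil)))) (.nd (nat_lit 9) 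
(.lf (nat_lit 591219) (.g (nat_lit 3006) (.e (nat_lit 532535) (nat_lit 9) (.e (nat_lit 336099) (nat_lit 9) (.e (nat_lit 336013) (nat_lit 2) (.e (nat_lit 90163) (nat_lit 12) .nil)))) (.g (nat_lit 0) (.e (nat_lit 400090) (nat_lit 0) .nil) .nil))) 
(.lf (nat_lit 591731) (.g (nat_lit 2579) (.e (nat_lit 532544) (nat_lit 10) (.e (nat_lit 344132) (nat_lit 26) (.e (nat_lit 557105) (nat_lit 14) (.e (nat_lit 180252) (nat_lit 10) (.e (nat_lit 573474) (nat_lit 12) .nil))))) (.g (nat_lit 0) (.e (nat_lit 401221) (nat_lit 0) .nil) .nil))))) (.nd (nat_lit 8) (.nd (nat_lit 9) 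
(.lf (nat_lit 591091) (.g (nat_lit 1906) (.e (nat_lit 532532) (nat_lit 9) (.e (nat_lit 336326) (nat_lit 18) (.e (nat_lit 204880) (nat_lit 32) (.e (nat_lit 385068) (nat_lit 26) (.e (nat_lit 532566) (nat_lit 15) .nil))))) (.g (nat_lit 0) (.e (nat_lit 399711) (nat_lit 0) .nil) .nil))) 
(.lf (nat_lit 591603) (.g (nat_lit 2232) (.e (nat_lit 532544) (nat_lit 10) (.e (nat_lit 344131) (nat_lit 26) (.e (nat_lit 557103) (nat_lit 14) (.e (nat_lit 180225) (nat_lit 0) (.e (nat_lit 4181) (nat_lit 251) .nil))))) (.g (nat_lit 0) (.e (nat_lit 401093) (nat_lit 0) .nil) .nil)))) (.nd (nat_lit 9) 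
(.lf (nat_lit 591347) (.g (nat_lit 2683) (.e (nat_lit 532535) (nat_lit 9) (.e (nat_lit 336176) (nat_lit 10) (.e (nat_lit 344133) (nat_lit 26) (.e (nat_lit 557071) (nat_lit 9) (.e (nat_lit 214) (nat_lit 19) (.e (nat_lit 319491) (nat_lit 0) (.e (nat_lit 5761) (nat_lit 315) (.e (nat_lit 163962) (nat_lit 25) .nil)))))))) (.g (nat_lit 1) (.e (nat_lit 400698) (nat_lit 0) .nil) .nil))) 
(.lf (nat_lit 591859) (.g (nat_lit 3373) (.e (nat_lit 532546) (nat_lit 11) (.e (nat_lit 352313) (nat_lit 23) (.e (nat_lit 98350) (nat_lit 24) (.e (nat_lit 409616) (nat_lit 10) (.e (nat_lit 5757) (nat_lit 315) .nil))))) (.g (nat_lit 0) (.e (nat_lit 401363) (nat_lit 0) .nil) .nil))))))))) (.nd (nat_lit 4) (.nd (nat_lit 5) (.nd (nat_lit 6) (.nd (nat_lit 7) (.nd (nat_lit 8) (.nd (nat_lit 9) 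
(.lf (nat_lit 590859) (.g (nat_lit 2535) (.e (nat_lit 532523) (nat_lit 7) (.e (nat_lit 319534) (nat_lit 16) (.e (nat_lit 286735) (nat_lit 3) (.e (nat_lit 98323) (nat_lit 17) (.e (nat_lit 7085) (nat_lit 379) .nil))))) (.g (nat_lit 0) (.e (nat_lit 398971) (nat_lit 0) .nil) .nil))) 
(.lf (nat_lit 591371) (.g (nat_lit 444) (.e (nat_lit 532535) (nat_lit 9) (.e (nat_lit 336226) (nat_lit 14) (.e (nat_lit 401463) (nat_lit 15) .nil))) (.g (nat_lit 0) (.e (nat_lit 400800) (nat_lit 0) .nil) .nil)))) (.nd (nat_lit 9) 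
(.lf (nat_lit 591115) (.g (nat_lit 2473) (.e (nat_lit 532533) (nat_lit 9) (.e (nat_lit 336324) (nat_lit 18) (.e (nat_lit 204854) (nat_lit 26) (.e (nat_lit 336325) (nat_lit 18) (.e (nat_lit 204880) (nat_lit 32) .nil))))) (.g (nat_lit 0) (.e (nat_lit 399763) (nat_lit 0) .nil) .nil))) 
(.lf (nat_lit 591627) (.g (nat_lit 2061) (.e (nat_lit 532544) (nat_lit 10) (.e (nat_lit 344131) (nat_lit 26) (.e (nat_lit 557105) (nat_lit 14) (.e (nat_lit 180251) (nat_lit 10) (.e (nat_lit 573442) (nat_lit 0) .nil))))) (.g (nat_lit 0) (.e (nat_lit 401117) (nat_lit 0) .nil) .nil))))) (.nd (nat_lit 8) (.nd (nat_lit 9) 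
(.lf (nat_lit 590987) (.g (nat_lit 2754) (.e (nat_lit 532529) (nat_lit 9) (.e (nat_lit 336326) (nat_lit 18) (.e (nat_lit 204863) (nat_lit 27) (.e (nat_lit 344133) (nat_lit 26) (.e (nat_lit 557096) (nat_lit 13) (.e (nat_lit 172130) (nat_lit 15) (.e (nat_lit 7936) (nat_lit 121) .nil))))))) (.g (nat_lit 1) (.e (nat_lit 399327) (nat_lit 0) .nil) .nil))) 
(.lf (nat_lit 591499) (.g (nat_lit 2290) (.e (nat_lit 532544) (nat_lit 10) (.e (nat_lit 344129) (nat_lit 26) (.e (nat_lit 557104) (nat_lit 14) (.e (nat_lit 180252) (nat_lit 10) (.e (nat_lit 573441) (nat_lit 0) .nil))))) (.g (nat_lit 0) (.e (nat_lit 400989) (nat_lit 0) .nil) .nil)))) (.nd (nat_lit 9) 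
(.lf (nat_lit 591243) (.g (nat_lit 3721) (.e (nat_lit 532535) (nat_lit 9) (.e (nat_lit 336099) (nat_lit 9) (.e (nat_lit 336013) (nat_lit 2) (.e (nat_lit 90165) (nat_lit 12) (.e (nat_lit 164218) (nat_lit 179) (.e (nat_lit 164262) (nat_lit 221) (.e (nat_lit 1049) (nat_lit 81) (.e (nat_lit 596) (nat_lit 45) .nil)))))))) (.g (nat_lit 1) (.e (nat_lit 400114) (nat_lit 0) .nil) .nil))) 
(.lf (nat_lit 591755) (.g (nat_lit 2870) (.e (nat_lit 532544) (nat_lit 10) (.e (nat_lit 344133) (nat_lit 26) (.e (nat_lit 557098) (nat_lit 13) (.e (nat_lit 172062) (nat_lit 2) (.e (nat_lit 196628) (nat_lit 9) (.e (nat_lit 488) (nat_lit 38) (.e (nat_lit 483072) (nat_lit 26) .nil))))))) (.g (nat_lit 1) (.e (nat_lit 401245) (nat_lit 0) .nil) .nil)))))) 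
(.nd (nat_lit 7) (.nd (nat_lit 8) (.nd (nat_lit 9) 
(.lf (nat_lit 590923) (.g (nat_lit 270) (.e (nat_lit 532526) (nat_lit 8) (.e (nat_lit 327715) (nat_lit 16) (.e (nat_lit 286735) (nat_lit 3) .nil))) (.g (nat_lit 0) (.e (nat_lit 399090) (nat_lit 0) .nil) .nil))) 
(.lf (nat_lit 591435) (.g (nat_lit 2209) (.e (nat_lit 532544) (nat_lit 10) (.e (nat_lit 344117) (nat_lit 21) (.e (nat_lit 516130) (nat_lit 3) (.e (nat_lit 221211) (nat_lit 22) (.e (nat_lit 196608) (nat_lit 0) (.e (nat_lit 3067) (nat_lit 190) (.e (nat_lit 483072) (nat_lit 26) .nil))))))) (.g (nat_lit 1) (.e (nat_lit 400924) (nat_lit 0) .nil) .nil)))) (.nd (nat_lit 9) 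
(.lf (nat_lit 591179) (.g (nat_lit 3557) (.e (nat_lit 532535) (nat_lit 9) (.e (nat_lit 336099) (nat_lit 9) (.e (nat_lit 335922) (nat_lit 0) (.e (nat_lit 1848) (nat_lit 124) (.e (nat_lit 557087) (nat_lit 11) (.e (nat_lit 24617) (nat_lit 7) (.e (nat_lit 319505) (nat_lit 10) (.e (nat_lit 7936) (nat_lit 45) .nil)))))))) (.g (nat_lit 1) (.e (nat_lit 400005) (nat_lit 0) .nil) .nil))) 
(.lf (nat_lit 591691) (.g (nat_lit 1269) (.e (nat_lit 532544) (nat_lit 10) (.e (nat_lit 344132) (nat_lit 26) (.e (nat_lit 557103) (nat_lit 14) (.e (nat_lit 188160) (nat_lit 1) .nil)))) (.g (nat_lit 0) (.e (nat_lit 401181) (nat_lit 0) .nil) .nil))))) (.nd (nat_lit 8) (.nd (nat_lit 9) 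
(.lf (nat_lit 591051) (.g (nat_lit 809) (.e (nat_lit 532531) (nat_lit 9) (.e (nat_lit 336211) (nat_lit 13) (.e (nat_lit 401152) (nat_lit 16) (.e (nat_lit 401454) (nat_lit 12) (.e (nat_lit 483072) (nat_lit 26) .nil))))) (.g (nat_lit 0) (.e (nat_lit 399581) (nat_lit 0) .nil) .nil))) 
(.lf (nat_lit 591563) (.g (nat_lit 2384) (.e (nat_lit 532544) (nat_lit 10) (.e (nat_lit 344130) (nat_lit 26) (.e (nat_lit 557104) (nat_lit 14) (.e (nat_lit 180252) (nat_lit 10) (.e (nat_lit 573446) (nat_lit 0) (.e (nat_lit 3067) (nat_lit 190) (.e (nat_lit 483072) (nat_lit 26) .nil))))))) (.g (nat_lit 1) (.e (nat_lit 401053) (nat_lit 0) .nil) .nil)))) (.nd (nat_lit 9) 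
(.lf (nat_lit 591307) (.g (nat_lit 4787) (.e (nat_lit 532535) (nat_lit 9) (.e (nat_lit 336171) (nat_lit 10) (.e (nat_lit 344133) (nat_lit 26) (.e (nat_lit 557087) (nat_lit 11) (.e (nat_lit 24617) (nat_lit 7) (.e (nat_lit 319504) (nat_lit 10) (.e (nat_lit 7936) (nat_lit 45) .nil))))))) (.g (nat_lit 1) (.e (nat_lit 400424) (nat_lit 0) .nil) .nil))) 
(.lf (nat_lit 591819) (.g (nat_lit 3586) (.e (nat_lit 532544) (nat_lit 10) (.e (nat_lit 344133) (nat_lit 26) (.e (nat_lit 557105) (nat_lit 14) (.e (nat_lit 180252) (nat_lit 10) (.e (nat_lit 573441) (nat_lit 0) (.e (nat_lit 3065) (nat_lit 190) (.e (nat_lit 483072) (nat_lit 26) .nil))))))) (.g (nat_lit 1) (.e (nat_lit 401309) (nat_lit 0) .nil) .nil))))))) 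
(.nd (nat_lit 6) (.nd (nat_lit 7) (.nd (nat_lit 8) (.nd (nat_lit 9) 
(.lf (nat_lit 590891) (.g (nat_lit 2120) (.e (nat_lit 532526) (nat_lit 8) (.e (nat_lit 327698) (nat_lit 8) (.e (nat_lit 303119) (nat_lit 3) (.e (nat_lit 204846) (nat_lit 24) (.e (nat_lit 319492) (nat_lit 0) .nil))))) (.g (nat_lit 0) (.e (nat_lit 399031) (nat_lit 0) .nil) .nil))) 
(.lf (nat_lit 591403) (.g (nat_lit 1631) (.e (nat_lit 532543) (nat_lit 10) (.e (nat_lit 344117) (nat_lit 21) (.e (nat_lit 516130) (nat_lit 3) (.e (nat_lit 229120) (nat_lit 2) .nil)))) (.g (nat_lit 0) (.e (nat_lit 400884) (nat_lit 0) .nil) .nil)))) (.nd (nat_lit 9) 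
(.lf (nat_lit 591147) (.g (nat_lit 2247) (.e (nat_lit 532534) (nat_lit 9) (.e (nat_lit 336324) (nat_lit 18) (.e (nat_lit 204854) (nat_lit 26) (.e (nat_lit 336324) (nat_lit 18) (.e (nat_lit 204879) (nat_lit 32) .nil))))) (.g (nat_lit 0) (.e (nat_lit 399840) (nat_lit 0) .nil) .nil))) 
(.lf (nat_lit 591659) (.g (nat_lit 2579) (.e (nat_lit 532544) (nat_lit 10) (.e (nat_lit 344132) (nat_lit 26) (.e (nat_lit 557100) (nat_lit 13) (.e (nat_lit 172065) (nat_lit 3) (.e (nat_lit 204811) (nat_lit 9) .nil))))) (.g (nat_lit 0) (.e (nat_lit 401149) (nat_lit 0) .nil) .nil))))) (.nd (nat_lit 8) (.nd (nat_lit 9) 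
(.lf (nat_lit 591019) (.g (nat_lit 1367) (.e (nat_lit 532530) (nat_lit 9) (.e (nat_lit 336324) (nat_lit 18) (.e (nat_lit 204882) (nat_lit 32) (.e (nat_lit 385065) (nat_lit 26) (.e (nat_lit 532565) (nat_lit 15) .nil))))) (.g (nat_lit 0) (.e (nat_lit 399472) (nat_lit 0) .nil) .nil))) 
(.lf (nat_lit 591531) (.g (nat_lit 2243) (.e (nat_lit 532544) (nat_lit 10) (.e (nat_lit 344130) (nat_lit 26) (.e (nat_lit 557103) (nat_lit 14) (.e (nat_lit 180225) (nat_lit 0) (.e (nat_lit 4301) (nat_lit 256) .nil))))) (.g (nat_lit 0) (.e (nat_lit 401021) (nat_lit 0) .nil) .nil)))) (.nd (nat_lit 9) 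
(.lf (nat_lit 591275) (.g (nat_lit 4633) (.e (nat_lit 532535) (nat_lit 9) (.e (nat_lit 336099) (nat_lit 9) (.e (nat_lit 336028) (nat_lit 3) (.e (nat_lit 98349) (nat_lit 24) (.e (nat_lit 409646) (nat_lit 18) (.e (nat_lit 303111) (nat_lit 0) (.e (nat_lit 3255) (nat_lit 197) .nil))))))) (.g (nat_lit 1) (.e (nat_lit 400326) (nat_lit 0) .nil) .nil))) 
(.lf (nat_lit 591787) (.g (nat_lit 2560) (.e (nat_lit 532544) (nat_lit 10) (.e (nat_lit 344133) (nat_lit 26) (.e (nat_lit 557103) (nat_lit 14) (.e (nat_lit 180250) (nat_lit 10) (.e (nat_lit 573441) (nat_lit 0) (.e (nat_lit 3055) (nat_lit 190) (.e (nat_lit 483072) (nat_lit 26) .nil))))))) (.g (nat_lit 1) (.e (nat_lit 401277) (nat_lit 0) .nil) .nil)))))) 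
(.nd (nat_lit 7) (.nd (nat_lit 8) (.nd (nat_lit 9) 
(.lf (nat_lit 590955) (.g (nat_lit 3430) (.e (nat_lit 532529) (nat_lit 9) (.e (nat_lit 336130) (nat_lit 9) (.e (nat_lit 336027) (nat_lit 3) (.e (nat_lit 98350) (nat_lit 24) (.e (nat_lit 409646) (nat_lit 18) (.e (nat_lit 303112) (nat_lit 0) (.e (nat_lit 3252) (nat_lit 197) .nil))))))) (.g (nat_lit 1) (.e (nat_lit 399179) (nat_lit 0) .nil) .nil))) 
(.lf (nat_lit 591467) (.g (nat_lit 2311) (.e (nat_lit 532544) (nat_lit 10) (.e (nat_lit 344129) (nat_lit 26) (.e (nat_lit 557097) (nat_lit 13) (.e (nat_lit 172064) (nat_lit 2) (.e (nat_lit 196622) (nat_lit 9) (.e (nat_lit 488) (nat_lit 38) (.e (nat_lit 483072) (nat_lit 26) .nil))))))) (.g (nat_lit 1) (.e (nat_lit 400957) (nat_lit 0) .nil) .nil)))) (.nd (nat_lit 9) 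
(.lf (nat_lit 591211) (.g (nat_lit 5242) (.e (nat_lit 532535) (nat_lit 9) (.e (nat_lit 336099) (nat_lit 9) (.e (nat_lit 336013) (nat_lit 2) (.e (nat_lit 90134) (nat_lit 9) (.e (nat_lit 2828) (nat_lit 182) (.e (nat_lit 409646) (nat_lit 18) (.e (nat_lit 303112) (nat_lit 0) (.e (nat_lit 3251) (nat_lit 197) .nil)))))))) (.g (nat_lit 1) (.e (nat_lit 400068) (nat_lit 0) .nil) .nil))) 
(.lf (nat_lit 591723) (.g (nat_lit 2238) (.e (nat_lit 532544) (nat_lit 10) (.e (nat_lit 344132) (nat_lit 26) (.e (nat_lit 557105) (nat_lit 14) (.e (nat_lit 180252) (nat_lit 10) (.e (nat_lit 581376) (nat_lit 0) (.e (nat_lit 3068) (nat_lit 190) (.e (nat_lit 483072) (nat_lit 26) .nil))))))) (.g (nat_lit 1) (.e (nat_lit 401213) (nat_lit 0) .nil) .nil))))) (.nd (nat_lit 8) (.nd (nat_lit 9) 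
(.lf (nat_lit 591083) (.g (nat_lit 1706) (.e (nat_lit 532532) (nat_lit 9) (.e (nat_lit 336324) (nat_lit 18) (.e (nat_lit 204882) (nat_lit 32) (.e (nat_lit 385066) (nat_lit 26) (.e (nat_lit 532565) (nat_lit 15) .nil))))) (.g (nat_lit 0) (.e (nat_lit 399702) (nat_lit 0) .nil) .nil))) 
(.lf (nat_lit 591595) (.g (nat_lit 2565) (.e (nat_lit 532544) (nat_lit 10) (.e (nat_lit 344131) (nat_lit 26) (.e (nat_lit 557100) (nat_lit 13) (.e (nat_lit 172065) (nat_lit 3) (.e (nat_lit 204811) (nat_lit 9) .nil))))) (.g (nat_lit 0) (.e (nat_lit 401085) (nat_lit 0) .nil) .nil)))) (.nd (nat_lit 9) 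
(.lf (nat_lit 591339) (.g (nat_lit 692) (.e (nat_lit 532535) (nat_lit 9) (.e (nat_lit 336176) (nat_lit 10) (.e (nat_lit 344131) (nat_lit 26) .nil))) (.g (nat_lit 0) (.e (nat_lit 400641) (nat_lit 0) .nil) .nil))) 
(.lf (nat_lit 591851) (.g (nat_lit 3015) (.e (nat_lit 532544) (nat_lit 10) (.e (nat_lit 344133) (nat_lit 26) (.e (nat_lit 557105) (nat_lit 14) (.e (nat_lit 180252) (nat_lit 10) (.e (nat_lit 573475) (nat_lit 12) (.e (nat_lit 57507) (nat_lit 39) (.e (nat_lit 647180) (nat_lit 3) (.e (nat_lit 163962) (nat_lit 25) .nil)))))))) (.g (nat_lit 1) (.e (nat_lit 401341) (nat_lit 0) .nil) .nil)))))))) 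
(.nd (nat_lit 5) (.nd (nat_lit 6) (.nd (nat_lit 7) (.nd (nat_lit 8) (.nd (nat_lit 9) 
(.lf (nat_lit 590875) (.g (nat_lit 2170) (.e (nat_lit 532523) (nat_lit 7) (.e (nat_lit 327424) (nat_lit 16) (.e (nat_lit 286733) (nat_lit 2) (.e (nat_lit 90178) (nat_lit 15) (.e (nat_lit 188436) (nat_lit 20) (.e (nat_lit 3238) (nat_lit 197) .nil)))))) (.g (nat_lit 1) (.e (nat_lit 398988) (nat_lit 0) .nil) .nil))) 
(.lf (nat_lit 591387) (.g (nat_lit 1969) (.e (nat_lit 532542) (nat_lit 9) (.e (nat_lit 336194) (nat_lit 12) (.e (nat_lit 385066) (nat_lit 26) (.e (nat_lit 532513) (nat_lit 3) (.e (nat_lit 114696) (nat_lit 11) .nil))))) (.g (nat_lit 0) (.e (nat_lit 400855) (nat_lit 0) .nil) .nil)))) (.nd (nat_lit 9) 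
(.lf (nat_lit 591131) (.g (nat_lit 1818) (.e (nat_lit 532534) (nat_lit 9) (.e (nat_lit 336019) (nat_lit 3) (.e (nat_lit 98342) (nat_lit 20) (.e (nat_lit 221212) (nat_lit 22) .nil)))) (.g (nat_lit 0) (.e (nat_lit 399803) (nat_lit 0) .nil) .nil))) 
(.lf (nat_lit 591643) (.g (nat_lit 1859) (.e (nat_lit 532544) (nat_lit 10) (.e (nat_lit 344131) (nat_lit 26) (.e (nat_lit 557105) (nat_lit 14) (.e (nat_lit 180252) (nat_lit 10) (.e (nat_lit 581376) (nat_lit 4) .nil))))) (.g (nat_lit 0) (.e (nat_lit 401133) (nat_lit 0) .nil) .nil))))) (.nd (nat_lit 8) (.nd (nat_lit 9) 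
(.lf (nat_lit 591003) (.g (nat_lit 452) (.e (nat_lit 532530) (nat_lit 9) (.e (nat_lit 336019) (nat_lit 3) (.e (nat_lit 98341) (nat_lit 20) .nil))) (.g (nat_lit 0) (.e (nat_lit 399373) (nat_lit 0) .nil) .nil))) 
(.lf (nat_lit 591515) (.g (nat_lit 2649) (.e (nat_lit 532544) (nat_lit 10) (.e (nat_lit 344130) (nat_lit 26) (.e (nat_lit 557097) (nat_lit 13) (.e (nat_lit 172045) (nat_lit 0) (.e (nat_lit 3307) (nat_lit 202) (.e (nat_lit 573447) (nat_lit 0) (.e (nat_lit 3067) (nat_lit 190) (.e (nat_lit 483072) (nat_lit 26) .nil)))))))) (.g (nat_lit 1) (.e (nat_lit 401005) (nat_lit 0) .nil) .nil)))) 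
(.nd (nat_lit 9) 
(.lf (nat_lit 591259) (.g (nat_lit 5171) (.e (nat_lit 532535) (nat_lit 9) (.e (nat_lit 336099) (nat_lit 9) (.e (nat_lit 336013) (nat_lit 2) (.e (nat_lit 90170) (nat_lit 13) (.e (nat_lit 172042) (nat_lit 0) (.e (nat_lit 3369) (nat_lit 208) (.e (nat_lit 622633) (nat_lit 16) (.e (nat_lit 163962) (nat_lit 25) .nil)))))))) (.g (nat_lit 1) (.e (nat_lit 400148) (nat_lit 0) .nil) .nil))) 
(.lf (nat_lit 591771) (.g (nat_lit 3690) (.e (nat_lit 532544) (nat_lit 10) (.e (nat_lit 344133) (nat_lit 26) (.e (nat_lit 557098) (nat_lit 13) (.e (nat_lit 172133) (nat_lit 15) (.e (nat_lit 1800) (nat_lit 119) (.e (nat_lit 516119) (nat_lit 1) (.e (nat_lit 164345) (nat_lit 240) (.e (nat_lit 2599) (nat_lit 163) (.e (nat_lit 163962) (nat_lit 25) .nil))))))))) (.g (nat_lit 1) (.e (nat_lit 401261) (nat_lit 0) .nil) .nil)))))) 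
(.nd (nat_lit 7) (.nd (nat_lit 8) (.nd (nat_lit 9) 
(.lf (nat_lit 590939) (.g (nat_lit 1215) (.e (nat_lit 532528) (nat_lit 9) (.e (nat_lit 336324) (nat_lit 18) (.e (nat_lit 204852) (nat_lit 26) (.e (nat_lit 336324) (nat_lit 18) .nil)))) (.g (nat_lit 0) (.e (nat_lit 399121) (nat_lit 0) .nil) .nil))) 
(.lf (nat_lit 591451) (.g (nat_lit 2317) (.e (nat_lit 532544) (nat_lit 10) (.e (nat_lit 344118) (nat_lit 21) (.e (nat_lit 516131) (nat_lit 3) (.e (nat_lit 221212) (nat_lit 22) (.e (nat_lit 196608) (nat_lit 0) (.e (nat_lit 3067) (nat_lit 190) (.e (nat_lit 483072) (nat_lit 26) .nil))))))) (.g (nat_lit 1) (.e (nat_lit 400940) (nat_lit 0) .nil) .nil)))) (.nd (nat_lit 9) 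
(.lf (nat_lit 591195) (.g (nat_lit 3006) (.e (nat_lit 532535) (nat_lit 9) (.e (nat_lit 336099) (nat_lit 9) (.e (nat_lit 336013) (nat_lit 2) (.e (nat_lit 90131) (nat_lit 9) .nil)))) (.g (nat_lit 0) (.e (nat_lit 400039) (nat_lit 0) .nil) .nil))) 
(.lf (nat_lit 591707) (.g (nat_lit 2364) (.e (nat_lit 532544) (nat_lit 10) (.e (nat_lit 344132) (nat_lit 26) (.e (nat_lit 557105) (nat_lit 14) (.e (nat_lit 180251) (nat_lit 10) (.e (nat_lit 573444) (nat_lit 0) (.e (nat_lit 3062) (nat_lit 190) (.e (nat_lit 483072) (nat_lit 26) .nil))))))) (.g (nat_lit 1) (.e (nat_lit 401197) (nat_lit 0) .nil) .nil))))) (.nd (nat_lit 8) (.nd (nat_lit 9) 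
(.lf (nat_lit 591067) (.g (nat_lit 1597) (.e (nat_lit 532532) (nat_lit 9) (.e (nat_lit 336019) (nat_lit 3) (.e (nat_lit 98342) (nat_lit 20) (.e (nat_lit 221210) (nat_lit 22) .nil)))) (.g (nat_lit 0) (.e (nat_lit 399673) (nat_lit 0) .nil) .nil))) 
(.lf (nat_lit 591579) (.g (nat_lit 1782) (.e (nat_lit 532544) (nat_lit 10) (.e (nat_lit 344130) (nat_lit 26) (.e (nat_lit 557104) (nat_lit 14) (.e (nat_lit 180252) (nat_lit 10) (.e (nat_lit 581376) (nat_lit 4) .nil))))) (.g (nat_lit 0) (.e (nat_lit 401069) (nat_lit 0) .nil) .nil)))) (.nd (nat_lit 9) 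
(.lf (nat_lit 591323) (.g (nat_lit 5214) (.e (nat_lit 532535) (nat_lit 9) (.e (nat_lit 336173) (nat_lit 10) (.e (nat_lit 344132) (nat_lit 26) (.e (nat_lit 557093) (nat_lit 12) (.e (nat_lit 164022) (nat_lit 46) (.e (nat_lit 704629) (nat_lit 9) (.e (nat_lit 442) (nat_lit 33) (.e (nat_lit 434233) (nat_lit 23) .nil)))))))) (.g (nat_lit 1) (.e (nat_lit 400481) (nat_lit 0) .nil) .nil))) 
(.lf (nat_lit 591835) (.g (nat_lit 3020) (.e (nat_lit 532544) (nat_lit 10) (.e (nat_lit 344133) (nat_lit 26) (.e (nat_lit 557105) (nat_lit 14) (.e (nat_lit 180252) (nat_lit 10) (.e (nat_lit 581376) (nat_lit 0) (.e (nat_lit 3071) (nat_lit 190) (.e (nat_lit 483072) (nat_lit 26) .nil))))))) (.g (nat_lit 1) (.e (nat_lit 401325) (nat_lit 0) .nil) .nil))))))) 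
(.nd (nat_lit 6) (.nd (nat_lit 7) (.nd (nat_lit 8) (.nd (nat_lit 9) 
(.lf (nat_lit 590907) (.g (nat_lit 4489) (.e (nat_lit 532526) (nat_lit 8) (.e (nat_lit 327699) (nat_lit 8) (.e (nat_lit 303119) (nat_lit 3) (.e (nat_lit 204846) (nat_lit 24) (.e (nat_lit 319490) (nat_lit 0) (.e (nat_lit 5756) (nat_lit 315) (.e (nat_lit 163962) (nat_lit 25) .nil))))))) (.g (nat_lit 1) (.e (nat_lit 399058) (nat_lit 0) .nil) .nil))) 
(.lf (nat_lit 591419) (.g (nat_lit 1916) (.e (nat_lit 532543) (nat_lit 10) (.e (nat_lit 344133) (nat_lit 26) (.e (nat_lit 557105) (nat_lit 14) (.e (nat_lit 180245) (nat_lit 5) .nil)))) (.g (nat_lit 0) (.e (nat_lit 400900) (nat_lit 0) .nil) .nil)))) (.nd (nat_lit 9) 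
(.lf (nat_lit 591163) (.g (nat_lit 3342) (.e (nat_lit 532534) (nat_lit 9) (.e (nat_lit 336326) (nat_lit 18) (.e (nat_lit 204882) (nat_lit 32) (.e (nat_lit 385066) (nat_lit 26) (.e (nat_lit 532564) (nat_lit 15) (.e (nat_lit 385066) (nat_lit 26) .nil)))))) (.g (nat_lit 1) (.e (nat_lit 399859) (nat_lit 0) .nil) .nil))) 
(.lf (nat_lit 591675) (.g (nat_lit 2486) (.e (nat_lit 532544) (nat_lit 10) (.e (nat_lit 344132) (nat_lit 26) (.e (nat_lit 557101) (nat_lit 13) (.e (nat_lit 172051) (nat_lit 0) (.e (nat_lit 3307) (nat_lit 202) (.e (nat_lit 573447) (nat_lit 0) (.e (nat_lit 3067) (nat_lit 190) (.e (nat_lit 483072) (nat_lit 26) .nil)))))))) (.g (nat_lit 1) (.e (nat_lit 401165) (nat_lit 0) .nil) .nil))))) 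
(.nd (nat_lit 8) (.nd (nat_lit 9) 
(.lf (nat_lit 591035) (.g (nat_lit 3923) (.e (nat_lit 532530) (nat_lit 9) (.e (nat_lit 336326) (nat_lit 18) (.e (nat_lit 204854) (nat_lit 26) (.e (nat_lit 336324) (nat_lit 18) (.e (nat_lit 204882) (nat_lit 32) (.e (nat_lit 385066) (nat_lit 26) .nil)))))) (.g (nat_lit 1) (.e (nat_lit 399498) (nat_lit 0) .nil) .nil))) 
(.lf (nat_lit 591547) (.g (nat_lit 2394) (.e (nat_lit 532544) (nat_lit 10) (.e (nat_lit 344130) (nat_lit 26) (.e (nat_lit 557103) (nat_lit 14) (.e (nat_lit 180250) (nat_lit 10) (.e (nat_lit 573444) (nat_lit 0) .nil))))) (.g (nat_lit 0) (.e (nat_lit 401037) (nat_lit 0) .nil) .nil)))) (.nd (nat_lit 9) 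
(.lf (nat_lit 591291) (.g (nat_lit 332) (.e (nat_lit 532535) (nat_lit 9) (.e (nat_lit 336099) (nat_lit 9) (.e (nat_lit 336457) (nat_lit 35) .nil))) (.g (nat_lit 0) (.e (nat_lit 400405) (nat_lit 0) .nil) .nil))) 
(.lf (nat_lit 591803) (.g (nat_lit 3204) (.e (nat_lit 532544) (nat_lit 10) (.e (nat_lit 344133) (nat_lit 26) (.e (nat_lit 557105) (nat_lit 14) (.e (nat_lit 180227) (nat_lit 0) (.e (nat_lit 4301) (nat_lit 256) (.e (nat_lit 229419) (nat_lit 18) (.e (nat_lit 483072) (nat_lit 26) .nil))))))) (.g (nat_lit 1) (.e (nat_lit 401293) (nat_lit 0) .nil) .nil)))))) 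
(.nd (nat_lit 7) (.nd (nat_lit 8) (.nd (nat_lit 9) 
(.lf (nat_lit 590971) (.g (nat_lit 2624) (.e (nat_lit 532529) (nat_lit 9) (.e (nat_lit 336326) (nat_lit 18) (.e (nat_lit 204863) (nat_lit 27) (.e (nat_lit 344129) (nat_lit 26) (.e (nat_lit 557097) (nat_lit 13) (.e (nat_lit 172131) (nat_lit 15) (.e (nat_lit 7936) (nat_lit 121) .nil))))))) (.g (nat_lit 1) (.e (nat_lit 399311) (nat_lit 0) .nil) .nil))) 
(.lf (nat_lit 591483) (.g (nat_lit 2330) (.e (nat_lit 532544) (nat_lit 10) (.e (nat_lit 344129) (nat_lit 26) (.e (nat_lit 557103) (nat_lit 14) (.e (nat_lit 180244) (nat_lit 5) (.e (nat_lit 540416) (nat_lit 32) .nil))))) (.g (nat_lit 0) (.e (nat_lit 400973) (nat_lit 0) .nil) .nil)))) (.nd (nat_lit 9) 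
(.lf (nat_lit 591227) (.g (nat_lit 3885) (.e (nat_lit 532535) (nat_lit 9) (.e (nat_lit 336099) (nat_lit 9) (.e (nat_lit 336013) (nat_lit 2) (.e (nat_lit 90165) (nat_lit 12) (.e (nat_lit 164208) (nat_lit 176) (.e (nat_lit 2819) (nat_lit 181) (.e (nat_lit 311300) (nat_lit 0) (.e (nat_lit 3237) (nat_lit 197) .nil)))))))) (.g (nat_lit 1) (.e (nat_lit 400098) (nat_lit 0) .nil) .nil))) 
(.lf (nat_lit 591739) (.g (nat_lit 2108) (.e (nat_lit 532544) (nat_lit 10) (.e (nat_lit 344133) (nat_lit 26) (.e (nat_lit 557096) (nat_lit 13) (.e (nat_lit 172064) (nat_lit 2) (.e (nat_lit 196628) (nat_lit 9) (.e (nat_lit 488) (nat_lit 38) (.e (nat_lit 483072) (nat_lit 26) .nil))))))) (.g (nat_lit 1) (.e (nat_lit 401229) (nat_lit 0) .nil) .nil))))) (.nd (nat_lit 8) (.nd (nat_lit 9) 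
(.lf (nat_lit 591099) (.g (nat_lit 1320) (.e (nat_lit 532533) (nat_lit 9) (.e (nat_lit 336019) (nat_lit 3) (.e (nat_lit 98341) (nat_lit 20) (.e (nat_lit 229120) (nat_lit 3) .nil)))) (.g (nat_lit 0) (.e (nat_lit 399738) (nat_lit 0) .nil) .nil))) 
(.lf (nat_lit 591611) (.g (nat_lit 2425) (.e (nat_lit 532544) (nat_lit 10) (.e (nat_lit 344131) (nat_lit 26) (.e (nat_lit 557103) (nat_lit 14) (.e (nat_lit 180250) (nat_lit 10) (.e (nat_lit 573440) (nat_lit 0) (.e (nat_lit 3067) (nat_lit 190) (.e (nat_lit 483072) (nat_lit 26) .nil))))))) (.g (nat_lit 1) (.e (nat_lit 401101) (nat_lit 0) .nil) .nil)))) (.nd (nat_lit 9) 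
(.lf (nat_lit 591355) (.g (nat_lit 3887) (.e (nat_lit 532535) (nat_lit 9) (.e (nat_lit 336175) (nat_lit 10) (.e (nat_lit 344130) (nat_lit 26) (.e (nat_lit 557087) (nat_lit 11) (.e (nat_lit 24617) (nat_lit 7) (.e (nat_lit 319505) (nat_lit 10) (.e (nat_lit 7936) (nat_lit 45) .nil))))))) (.g (nat_lit 1) (.e (nat_lit 400757) (nat_lit 0) .nil) .nil))) 
(.lf (nat_lit 591867) (.g (nat_lit 2520) (.e (nat_lit 532546) (nat_lit 11) (.e (nat_lit 352313) (nat_lit 23) (.e (nat_lit 98350) (nat_lit 24) (.e (nat_lit 409649) (nat_lit 18) (.e (nat_lit 303104) (nat_lit 0) .nil))))) (.g (nat_lit 0) (.e (nat_lit 401371) (nat_lit 0) .nil) .nil)))))))))) 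
(.nd (nat_lit 3) (.nd (nat_lit 4) (.nd (nat_lit 5) (.nd (nat_lit 6) (.nd (nat_lit 7) 
(.nd (nat_lit 8) (.nd (nat_lit 9) 
(.lf (nat_lit 590855) (.g (nat_lit 1739) (.e (nat_lit 532523) (nat_lit 7) (.e (nat_lit 319534) (nat_lit 16) (.e (nat_lit 286734) (nat_lit 3) (.e (nat_lit 98381) (nat_lit 31) (.e (nat_lit 466962) (nat_lit 20) .nil))))) (.g (nat_lit 0) (.e (nat_lit 398967) (nat_lit 0) .nil) .nil))) 
(.lf (nat_lit 591367) (.g (nat_lit 4416) (.e (nat_lit 532535) (nat_lit 9) (.e (nat_lit 336178) (nat_lit 10) (.e (nat_lit 344129) (nat_lit 26) (.e (nat_lit 557087) (nat_lit 11) (.e (nat_lit 24617) (nat_lit 7) (.e (nat_lit 319505) (nat_lit 10) (.e (nat_lit 7936) (nat_lit 45) .nil))))))) (.g (nat_lit 1) (.e (nat_lit 400771) (nat_lit 0) .nil) .nil)))) (.nd (nat_lit 9) 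
(.lf (nat_lit 591111) (.g (nat_lit 1871) (.e (nat_lit 532533) (nat_lit 9) (.e (nat_lit 336324) (nat_lit 18) (.e (nat_lit 204854) (nat_lit 26) (.e (nat_lit 336306) (nat_lit 15) .nil)))) (.g (nat_lit 0) (.e (nat_lit 399759) (nat_lit 0) .nil) .nil))) 
(.lf (nat_lit 591623) (.g (nat_lit 2078) (.e (nat_lit 532544) (nat_lit 10) (.e (nat_lit 344131) (nat_lit 26) (.e (nat_lit 557103) (nat_lit 14) (.e (nat_lit 180250) (nat_lit 10) (.e (nat_lit 581376) (nat_lit 0) (.e (nat_lit 3062) (nat_lit 190) (.e (nat_lit 483072) (nat_lit 26) .nil))))))) (.g (nat_lit 1) (.e (nat_lit 401113) (nat_lit 0) .nil) .nil))))) (.nd (nat_lit 8) (.nd (nat_lit 9) 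
(.lf (nat_lit 590983) (.g (nat_lit 2318) (.e (nat_lit 532529) (nat_lit 9) (.e (nat_lit 336326) (nat_lit 18) (.e (nat_lit 204863) (nat_lit 27) (.e (nat_lit 344132) (nat_lit 26) (.e (nat_lit 557101) (nat_lit 13) (.e (nat_lit 179968) (nat_lit 15) (.e (nat_lit 1816) (nat_lit 121) .nil))))))) (.g (nat_lit 1) (.e (nat_lit 399323) (nat_lit 0) .nil) .nil))) 
(.lf (nat_lit 591495) (.g (nat_lit 1793) (.e (nat_lit 532544) (nat_lit 10) (.e (nat_lit 344129) (nat_lit 26) (.e (nat_lit 557104) (nat_lit 14) (.e (nat_lit 180237) (nat_lit 1) (.e (nat_lit 500046) (nat_lit 16) .nil))))) (.g (nat_lit 0) (.e (nat_lit 400985) (nat_lit 0) .nil) .nil)))) (.nd (nat_lit 9) 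
(.lf (nat_lit 591239) (.g (nat_lit 3112) (.e (nat_lit 532535) (nat_lit 9) (.e (nat_lit 336099) (nat_lit 9) (.e (nat_lit 336013) (nat_lit 2) (.e (nat_lit 90165) (nat_lit 12) (.e (nat_lit 164218) (nat_lit 179) (.e (nat_lit 164261) (nat_lit 221) (.e (nat_lit 969) (nat_lit 81) (.e (nat_lit 596) (nat_lit 45) .nil)))))))) (.g (nat_lit 1) (.e (nat_lit 400110) (nat_lit 0) .nil) .nil))) 
(.lf (nat_lit 591751) (.g (nat_lit 2810) (.e (nat_lit 532544) (nat_lit 10) (.e (nat_lit 344133) (nat_lit 26) (.e (nat_lit 557098) (nat_lit 13) (.e (nat_lit 172062) (nat_lit 2) (.e (nat_lit 196622) (nat_lit 9) (.e (nat_lit 486) (nat_lit 38) (.e (nat_lit 483072) (nat_lit 26) .nil))))))) (.g (nat_lit 1) (.e (nat_lit 401241) (nat_lit 0) .nil) .nil)))))) 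
(.nd (nat_lit 7) (.nd (nat_lit 8) (.nd (nat_lit 9) 
(.lf (nat_lit 590919) (.g (nat_lit 4361) (.e (nat_lit 532526) (nat_lit 8) (.e (nat_lit 327708) (nat_lit 10) (.e (nat_lit 5270) (nat_lit 298) (.e (nat_lit 1230) (nat_lit 91) .nil)))) (.g (nat_lit 0) (.e (nat_lit 399085) (nat_lit 0) .nil) .nil))) 
(.lf (nat_lit 591431) (.g (nat_lit 3587) (.e (nat_lit 532544) (nat_lit 10) (.e (nat_lit 344117) (nat_lit 21) (.e (nat_lit 516129) (nat_lit 3) (.e (nat_lit 221210) (nat_lit 22) (.e (nat_lit 196614) (nat_lit 0) (.e (nat_lit 3067) (nat_lit 190) (.e (nat_lit 483072) (nat_lit 26) .nil))))))) (.g (nat_lit 1) (.e (nat_lit 400920) (nat_lit 0) .nil) .nil)))) (.nd (nat_lit 9) 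
(.lf (nat_lit 591175) (.g (nat_lit 4111) (.e (nat_lit 532535) (nat_lit 9) (.e (nat_lit 336099) (nat_lit 9) (.e (nat_lit 335920) (nat_lit 0) (.e (nat_lit 1848) (nat_lit 124) (.e (nat_lit 557087) (nat_lit 11) (.e (nat_lit 24617) (nat_lit 7) (.e (nat_lit 319505) (nat_lit 10) (.e (nat_lit 7936) (nat_lit 45) .nil)))))))) (.g (nat_lit 1) (.e (nat_lit 400000) (nat_lit 0) .nil) .nil))) 
(.lf (nat_lit 591687) (.g (nat_lit 2310) (.e (nat_lit 532544) (nat_lit 10) (.e (nat_lit 344132) (nat_lit 26) (.e (nat_lit 557101) (nat_lit 13) (.e (nat_lit 172067) (nat_lit 3) (.e (nat_lit 204809) (nat_lit 9) .nil))))) (.g (nat_lit 0) (.e (nat_lit 401177) (nat_lit 0) .nil) .nil))))) (.nd (nat_lit 8) (.nd (nat_lit 9) 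
(.lf (nat_lit 591047) (.g (nat_lit 1656) (.e (nat_lit 532531) (nat_lit 9) (.e (nat_lit 336019) (nat_lit 3) (.e (nat_lit 98342) (nat_lit 20) (.e (nat_lit 221210) (nat_lit 22) .nil)))) (.g (nat_lit 0) (.e (nat_lit 399570) (nat_lit 0) .nil) .nil))) 
(.lf (nat_lit 591559) (.g (nat_lit 2042) (.e (nat_lit 532544) (nat_lit 10) (.e (nat_lit 344130) (nat_lit 26) (.e (nat_lit 557104) (nat_lit 14) (.e (nat_lit 180252) (nat_lit 10) (.e (nat_lit 573441) (nat_lit 0) (.e (nat_lit 3065) (nat_lit 190) (.e (nat_lit 483072) (nat_lit 26) .nil))))))) (.g (nat_lit 1) (.e (nat_lit 401049) (nat_lit 0) .nil) .nil)))) (.nd (nat_lit 9) 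
(.lf (nat_lit 591303) (.g (nat_lit 2722) (.e (nat_lit 532535) (nat_lit 9) (.e (nat_lit 336166) (nat_lit 10) (.e (nat_lit 344130) (nat_lit 26) (.e (nat_lit 557087) (nat_lit 11) (.e (nat_lit 24617) (nat_lit 7) (.e (nat_lit 319504) (nat_lit 10) (.e (nat_lit 7936) (nat_lit 45) .nil))))))) (.g (nat_lit 1) (.e (nat_lit 400420) (nat_lit 0) .nil) .nil))) 
(.lf (nat_lit 591815) (.g (nat_lit 4179) (.e (nat_lit 532544) (nat_lit 10) (.e (nat_lit 344133) (nat_lit 26) (.e (nat_lit 557105) (nat_lit 14) (.e (nat_lit 180251) (nat_lit 10) (.e (nat_lit 573447) (nat_lit 0) (.e (nat_lit 3067) (nat_lit 190) (.e (nat_lit 483072) (nat_lit 26) .nil))))))) (.g (nat_lit 1) (.e (nat_lit 401305) (nat_lit 0) .nil) .nil))))))) 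
(.nd (nat_lit 6) (.nd (nat_lit 7) (.nd (nat_lit 8) (.nd (nat_lit 9) 
(.lf (nat_lit 590887) (.g (nat_lit 1010) (.e (nat_lit 532526) (nat_lit 8) (.e (nat_lit 327698) (nat_lit 8) (.e (nat_lit 303117) (nat_lit 2) (.e (nat_lit 196668) (nat_lit 14) .nil)))) (.g (nat_lit 0) (.e (nat_lit 399027) (nat_lit 0) .nil) .nil))) 
(.lf (nat_lit 591399) (.g (nat_lit 2220) (.e (nat_lit 532543) (nat_lit 10) (.e (nat_lit 344117) (nat_lit 21) (.e (nat_lit 516106) (nat_lit 0) (.e (nat_lit 3721) (nat_lit 227) .nil)))) (.g (nat_lit 0) (.e (nat_lit 400880) (nat_lit 0) .nil) .nil)))) (.nd (nat_lit 9) 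
(.lf (nat_lit 591143) (.g (nat_lit 3177) (.e (nat_lit 532534) (nat_lit 9) (.e (nat_lit 336324) (nat_lit 18) (.e (nat_lit 204852) (nat_lit 26) (.e (nat_lit 336324) (nat_lit 18) (.e (nat_lit 204882) (nat_lit 32) (.e (nat_lit 385068) (nat_lit 26) .nil)))))) (.g (nat_lit 1) (.e (nat_lit 399836) (nat_lit 0) .nil) .nil))) 
(.lf (nat_lit 591655) (.g (nat_lit 2066) (.e (nat_lit 532544) (nat_lit 10) (.e (nat_lit 344132) (nat_lit 26) (.e (nat_lit 557100) (nat_lit 13) (.e (nat_lit 172064) (nat_lit 2) (.e (nat_lit 196628) (nat_lit 9) .nil))))) (.g (nat_lit 0) (.e (nat_lit 401145) (nat_lit 0) .nil) .nil))))) (.nd (nat_lit 8) (.nd (nat_lit 9) 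
(.lf (nat_lit 591015) (.g (nat_lit 1415) (.e (nat_lit 532530) (nat_lit 9) (.e (nat_lit 336324) (nat_lit 18) (.e (nat_lit 204880) (nat_lit 32) (.e (nat_lit 385057) (nat_lit 22) .nil)))) (.g (nat_lit 0) (.e (nat_lit 399468) (nat_lit 0) .nil) .nil))) 
(.lf (nat_lit 591527) (.g (nat_lit 2556) (.e (nat_lit 532544) (nat_lit 10) (.e (nat_lit 344130) (nat_lit 26) (.e (nat_lit 557097) (nat_lit 13) (.e (nat_lit 172067) (nat_lit 3) (.e (nat_lit 204829) (nat_lit 18) .nil))))) (.g (nat_lit 0) (.e (nat_lit 401017) (nat_lit 0) .nil) .nil)))) (.nd (nat_lit 9) 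
(.lf (nat_lit 591271) (.g (nat_lit 3094) (.e (nat_lit 532535) (nat_lit 9) (.e (nat_lit 336099) (nat_lit 9) (.e (nat_lit 336028) (nat_lit 3) (.e (nat_lit 98349) (nat_lit 24) (.e (nat_lit 409646) (nat_lit 18) (.e (nat_lit 303106) (nat_lit 0) (.e (nat_lit 7936) (nat_lit 197) .nil))))))) (.g (nat_lit 1) (.e (nat_lit 400322) (nat_lit 0) .nil) .nil))) 
(.lf (nat_lit 591783) (.g (nat_lit 3001) (.e (nat_lit 532544) (nat_lit 10) (.e (nat_lit 344133) (nat_lit 26) (.e (nat_lit 557103) (nat_lit 14) (.e (nat_lit 180243) (nat_lit 5) (.e (nat_lit 540416) (nat_lit 32) (.e (nat_lit 483072) (nat_lit 26) .nil)))))) (.g (nat_lit 1) (.e (nat_lit 401273) (nat_lit 0) .nil) .nil)))))) (.nd (nat_lit 7) (.nd (nat_lit 8) (.nd (nat_lit 9) 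
(.lf (nat_lit 590951) (.g (nat_lit 2096) (.e (nat_lit 532528) (nat_lit 9) (.e (nat_lit 336324) (nat_lit 18) (.e (nat_lit 204882) (nat_lit 32) (.e (nat_lit 385066) (nat_lit 26) (.e (nat_lit 532565) (nat_lit 15) .nil))))) (.g (nat_lit 0) (.e (nat_lit 399136) (nat_lit 0) .nil) .nil))) 
(.lf (nat_lit 591463) (.g (nat_lit 2947) (.e (nat_lit 532544) (nat_lit 10) (.e (nat_lit 344129) (nat_lit 26) (.e (nat_lit 557097) (nat_lit 13) (.e (nat_lit 172045) (nat_lit 0) (.e (nat_lit 3307) (nat_lit 202) (.e (nat_lit 573447) (nat_lit 0) (.e (nat_lit 3067) (nat_lit 190) (.e (nat_lit 483072) (nat_lit 26) .nil)))))))) (.g (nat_lit 1) (.e (nat_lit 400953) (nat_lit 0) .nil) .nil)))) 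
(.nd (nat_lit 9) 
(.lf (nat_lit 591207) (.g (nat_lit 5912) (.e (nat_lit 532535) (nat_lit 9) (.e (nat_lit 336099) (nat_lit 9) (.e (nat_lit 336013) (nat_lit 2) (.e (nat_lit 90134) (nat_lit 9) (.e (nat_lit 2825) (nat_lit 182) (.e (nat_lit 409645) (nat_lit 18) (.e (nat_lit 303112) (nat_lit 0) (.e (nat_lit 3252) (nat_lit 197) .nil)))))))) (.g (nat_lit 1) (.e (nat_lit 400064) (nat_lit 0) .nil) .nil))) 
(.lf (nat_lit 591719) (.g (nat_lit 2243) (.e (nat_lit 532544) (nat_lit 10) (.e (nat_lit 344132) (nat_lit 26) (.e (nat_lit 557105) (nat_lit 14) (.e (nat_lit 180252) (nat_lit 10) (.e (nat_lit 581376) (nat_lit 0) (.e (nat_lit 3058) (nat_lit 190) (.e (nat_lit 483072) (nat_lit 26) .nil))))))) (.g (nat_lit 1) (.e (nat_lit 401209) (nat_lit 0) .nil) .nil))))) (.nd (nat_lit 8) (.nd (nat_lit 9) 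
(.lf (nat_lit 591079) (.g (nat_lit 3346) (.e (nat_lit 532532) (nat_lit 9) (.e (nat_lit 336324) (nat_lit 18) (.e (nat_lit 204854) (nat_lit 26) (.e (nat_lit 336326) (nat_lit 18) (.e (nat_lit 204880) (nat_lit 32) (.e (nat_lit 385066) (nat_lit 26) .nil)))))) (.g (nat_lit 1) (.e (nat_lit 399698) (nat_lit 0) .nil) .nil))) 
(.lf (nat_lit 591591) (.g (nat_lit 2496) (.e (nat_lit 532544) (nat_lit 10) (.e (nat_lit 344131) (nat_lit 26) (.e (nat_lit 557098) (nat_lit 13) (.e (nat_lit 172067) (nat_lit 3) (.e (nat_lit 212736) (nat_lit 15) (.e (nat_lit 483072) (nat_lit 26) .nil)))))) (.g (nat_lit 1) (.e (nat_lit 401081) (nat_lit 0) .nil) .nil)))) (.nd (nat_lit 9) 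
(.lf (nat_lit 591335) (.g (nat_lit 2977) (.e (nat_lit 532535) (nat_lit 9) (.e (nat_lit 336176) (nat_lit 10) (.e (nat_lit 344130) (nat_lit 26) (.e (nat_lit 557087) (nat_lit 11) (.e (nat_lit 24587) (nat_lit 0) .nil))))) (.g (nat_lit 0) (.e (nat_lit 400582) (nat_lit 0) .nil) .nil))) 
(.lf (nat_lit 591847) (.g (nat_lit 3062) (.e (nat_lit 532544) (nat_lit 10) (.e (nat_lit 344133) (nat_lit 26) (.e (nat_lit 557105) (nat_lit 14) (.e (nat_lit 180252) (nat_lit 10) (.e (nat_lit 573474) (nat_lit 12) (.e (nat_lit 57348) (nat_lit 0) (.e (nat_lit 5444) (nat_lit 306) (.e (nat_lit 2604) (nat_lit 163) (.e (nat_lit 163962) (nat_lit 25) .nil))))))))) (.g (nat_lit 1) (.e (nat_lit 401337) (nat_lit 0) .nil) .nil)))))))) 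
(.nd (nat_lit 5) (.nd (nat_lit 6) (.nd (nat_lit 7) (.nd (nat_lit 8) (.nd (nat_lit 9) 
(.lf (nat_lit 590871) (.g (nat_lit 2901) (.e (nat_lit 532523) (nat_lit 7) (.e (nat_lit 319534) (nat_lit 16) (.e (nat_lit 286735) (nat_lit 3) (.e (nat_lit 98370) (nat_lit 28) (.e (nat_lit 450304) (nat_lit 20) (.e (nat_lit 3249) (nat_lit 197) .nil)))))) (.g (nat_lit 1) (.e (nat_lit 398983) (nat_lit 0) .nil) .nil))) 
(.lf (nat_lit 591383) (.g (nat_lit 2209) (.e (nat_lit 532542) (nat_lit 9) (.e (nat_lit 336088) (nat_lit 9) (.e (nat_lit 336324) (nat_lit 18) (.e (nat_lit 204838) (nat_lit 20) (.e (nat_lit 114695) (nat_lit 11) .nil))))) (.g (nat_lit 0) (.e (nat_lit 400846) (nat_lit 0) .nil) .nil)))) (.nd (nat_lit 9) 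
(.lf (nat_lit 591127) (.g (nat_lit 1379) (.e (nat_lit 532534) (nat_lit 9) (.e (nat_lit 336019) (nat_lit 3) (.e (nat_lit 98342) (nat_lit 20) (.e (nat_lit 229120) (nat_lit 3) .nil)))) (.g (nat_lit 0) (.e (nat_lit 399798) (nat_lit 0) .nil) .nil))) 
(.lf (nat_lit 591639) (.g (nat_lit 1859) (.e (nat_lit 532544) (nat_lit 10) (.e (nat_lit 344131) (nat_lit 26) (.e (nat_lit 557105) (nat_lit 14) (.e (nat_lit 180252) (nat_lit 10) (.e (nat_lit 581376) (nat_lit 0) .nil))))) (.g (nat_lit 0) (.e (nat_lit 401129) (nat_lit 0) .nil) .nil))))) (.nd (nat_lit 8) (.nd (nat_lit 9) 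
(.lf (nat_lit 590999) (.g (nat_lit 2931) (.e (nat_lit 532529) (nat_lit 9) (.e (nat_lit 336326) (nat_lit 18) (.e (nat_lit 204863) (nat_lit 27) (.e (nat_lit 344133) (nat_lit 26) (.e (nat_lit 557098) (nat_lit 13) (.e (nat_lit 179968) (nat_lit 15) (.e (nat_lit 1814) (nat_lit 121) .nil))))))) (.g (nat_lit 1) (.e (nat_lit 399339) (nat_lit 0) .nil) .nil))) 
(.lf (nat_lit 591511) (.g (nat_lit 2244) (.e (nat_lit 532544) (nat_lit 10) (.e (nat_lit 344129) (nat_lit 26) (.e (nat_lit 557104) (nat_lit 14) (.e (nat_lit 180252) (nat_lit 10) (.e (nat_lit 573474) (nat_lit 12) .nil))))) (.g (nat_lit 0) (.e (nat_lit 401001) (nat_lit 0) .nil) .nil)))) (.nd (nat_lit 9) 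
(.lf (nat_lit 591255) (.g (nat_lit 1066) (.e (nat_lit 532535) (nat_lit 9) (.e (nat_lit 336099) (nat_lit 9) (.e (nat_lit 336013) (nat_lit 2) (.e (nat_lit 98048) (nat_lit 12) (.e (nat_lit 164209) (nat_lit 176) (.e (nat_lit 2771) (nat_lit 177) (.e (nat_lit 278553) (nat_lit 10) (.e (nat_lit 7936) (nat_lit 45) .nil)))))))) (.g (nat_lit 1) (.e (nat_lit 400132) (nat_lit 0) .nil) .nil))) 
(.lf (nat_lit 591767) (.g (nat_lit 2226) (.e (nat_lit 532544) (nat_lit 10) (.e (nat_lit 344133) (nat_lit 26) (.e (nat_lit 557098) (nat_lit 13) (.e (nat_lit 172066) (nat_lit 3) (.e (nat_lit 204821) (nat_lit 17) .nil))))) (.g (nat_lit 0) (.e (nat_lit 401257) (nat_lit 0) .nil) .nil)))))) (.nd (nat_lit 7) (.nd (nat_lit 8) (.nd (nat_lit 9) 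
(.lf (nat_lit 590935) (.g (nat_lit 1698) (.e (nat_lit 532527) (nat_lit 9) (.e (nat_lit 336324) (nat_lit 18) (.e (nat_lit 204854) (nat_lit 26) (.e (nat_lit 336326) (nat_lit 18) .nil)))) (.g (nat_lit 0) (.e (nat_lit 399114) (nat_lit 0) .nil) .nil))) 
(.lf (nat_lit 591447) (.g (nat_lit 2445) (.e (nat_lit 532544) (nat_lit 10) (.e (nat_lit 344118) (nat_lit 21) (.e (nat_lit 516129) (nat_lit 3) (.e (nat_lit 221210) (nat_lit 22) (.e (nat_lit 196610) (nat_lit 0) (.e (nat_lit 3067) (nat_lit 190) (.e (nat_lit 483072) (nat_lit 26) .nil))))))) (.g (nat_lit 1) (.e (nat_lit 400936) (nat_lit 0) .nil) .nil)))) (.nd (nat_lit 9) 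
(.lf (nat_lit 591191) (.g (nat_lit 3006) (.e (nat_lit 532535) (nat_lit 9) (.e (nat_lit 336099) (nat_lit 9) (.e (nat_lit 336013) (nat_lit 2) (.e (nat_lit 90127) (nat_lit 9) .nil)))) (.g (nat_lit 0) (.e (nat_lit 400033) (nat_lit 0) .nil) .nil))) 
(.lf (nat_lit 591703) (.g (nat_lit 1379) (.e (nat_lit 532544) (nat_lit 10) (.e (nat_lit 344132) (nat_lit 26) (.e (nat_lit 557105) (nat_lit 14) (.e (nat_lit 180237) (nat_lit 1) .nil)))) (.g (nat_lit 0) (.e (nat_lit 401193) (nat_lit 0) .nil) .nil))))) (.nd (nat_lit 8) (.nd (nat_lit 9) 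
(.lf (nat_lit 591063) (.g (nat_lit 3137) (.e (nat_lit 532531) (nat_lit 9) (.e (nat_lit 336334) (nat_lit 20) (.e (nat_lit 221210) (nat_lit 22) (.e (nat_lit 196656) (nat_lit 11) (.e (nat_lit 16448) (nat_lit 10) (.e (nat_lit 434231) (nat_lit 23) .nil)))))) (.g (nat_lit 1) (.e (nat_lit 399606) (nat_lit 0) .nil) .nil))) 
(.lf (nat_lit 591575) (.g (nat_lit 2270) (.e (nat_lit 532544) (nat_lit 10) (.e (nat_lit 344130) (nat_lit 26) (.e (nat_lit 557104) (nat_lit 14) (.e (nat_lit 180252) (nat_lit 10) (.e (nat_lit 581376) (nat_lit 0) (.e (nat_lit 3071) (nat_lit 190) (.e (nat_lit 483072) (nat_lit 26) .nil))))))) (.g (nat_lit 1) (.e (nat_lit 401065) (nat_lit 0) .nil) .nil)))) (.nd (nat_lit 9) 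
(.lf (nat_lit 591319) (.g (nat_lit 4555) (.e (nat_lit 532535) (nat_lit 9) (.e (nat_lit 336173) (nat_lit 10) (.e (nat_lit 344126) (nat_lit 25) (.e (nat_lit 548889) (nat_lit 9) (.e (nat_lit 65629) (nat_lit 14) (.e (nat_lit 401412) (nat_lit 0) (.e (nat_lit 3250) (nat_lit 197) .nil))))))) (.g (nat_lit 1) (.e (nat_lit 400471) (nat_lit 0) .nil) .nil))) 
(.lf (nat_lit 591831) (.g (nat_lit 2663) (.e (nat_lit 532544) (nat_lit 10) (.e (nat_lit 344133) (nat_lit 26) (.e (nat_lit 557105) (nat_lit 14) (.e (nat_lit 180252) (nat_lit 10) (.e (nat_lit 581376) (nat_lit 0) (.e (nat_lit 3067) (nat_lit 190) (.e (nat_lit 483072) (nat_lit 26) .nil))))))) (.g (nat_lit 1) (.e (nat_lit 401321) (nat_lit 0) .nil) .nil))))))) 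
(.nd (nat_lit 6) (.nd (nat_lit 7) (.nd (nat_lit 8) (.nd (nat_lit 9) 
(.lf (nat_lit 590903) (.g (nat_lit 1320) (.e (nat_lit 532526) (nat_lit 8) (.e (nat_lit 327699) (nat_lit 8) (.e (nat_lit 303118) (nat_lit 3) (.e (nat_lit 204863) (nat_lit 27) .nil)))) (.g (nat_lit 0) (.e (nat_lit 399051) (nat_lit 0) .nil) .nil))) 
(.lf (nat_lit 591415) (.g (nat_lit 2195) (.e (nat_lit 532543) (nat_lit 10) (.e (nat_lit 344133) (nat_lit 26) (.e (nat_lit 557098) (nat_lit 13) (.e (nat_lit 172133) (nat_lit 15) (.e (nat_lit 7936) (nat_lit 121) .nil))))) (.g (nat_lit 0) (.e (nat_lit 400896) (nat_lit 0) .nil) .nil)))) (.nd (nat_lit 9) 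
(.lf (nat_lit 591159) (.g (nat_lit 2536) (.e (nat_lit 532534) (nat_lit 9) (.e (nat_lit 336326) (nat_lit 18) (.e (nat_lit 204854) (nat_lit 26) (.e (nat_lit 336262) (nat_lit 15) (.e (nat_lit 3234) (nat_lit 197) .nil))))) (.g (nat_lit 0) (.e (nat_lit 399854) (nat_lit 0) .nil) .nil))) 
(.lf (nat_lit 591671) (.g (nat_lit 2992) (.e (nat_lit 532544) (nat_lit 10) (.e (nat_lit 344132) (nat_lit 26) (.e (nat_lit 557101) (nat_lit 13) (.e (nat_lit 172045) (nat_lit 0) (.e (nat_lit 3307) (nat_lit 202) (.e (nat_lit 573446) (nat_lit 0) (.e (nat_lit 3067) (nat_lit 190) (.e (nat_lit 483072) (nat_lit 26) .nil)))))))) (.g (nat_lit 1) (.e (nat_lit 401161) (nat_lit 0) .nil) .nil))))) 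
(.nd (nat_lit 8) (.nd (nat_lit 9) 
(.lf (nat_lit 591031) (.g (nat_lit 1658) (.e (nat_lit 532530) (nat_lit 9) (.e (nat_lit 336326) (nat_lit 18) (.e (nat_lit 204854) (nat_lit 26) (.e (nat_lit 336247) (nat_lit 15) .nil)))) (.g (nat_lit 0) (.e (nat_lit 399490) (nat_lit 0) .nil) .nil))) 
(.lf (nat_lit 591543) (.g (nat_lit 2759) (.e (nat_lit 532544) (nat_lit 10) (.e (nat_lit 344130) (nat_lit 26) (.e (nat_lit 557103) (nat_lit 14) (.e (nat_lit 180250) (nat_lit 10) (.e (nat_lit 573441) (nat_lit 0) (.e (nat_lit 3065) (nat_lit 190) (.e (nat_lit 483072) (nat_lit 26) .nil))))))) (.g (nat_lit 1) (.e (nat_lit 401033) (nat_lit 0) .nil) .nil)))) (.nd (nat_lit 9) 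
(.lf (nat_lit 591287) (.g (nat_lit 4606) (.e (nat_lit 532535) (nat_lit 9) (.e (nat_lit 336099) (nat_lit 9) (.e (nat_lit 336028) (nat_lit 3) (.e (nat_lit 98350) (nat_lit 24) (.e (nat_lit 409649) (nat_lit 18) (.e (nat_lit 303111) (nat_lit 0) (.e (nat_lit 3230) (nat_lit 197) .nil))))))) (.g (nat_lit 1) (.e (nat_lit 400345) (nat_lit 0) .nil) .nil))) 
(.lf (nat_lit 591799) (.g (nat_lit 2370) (.e (nat_lit 532544) (nat_lit 10) (.e (nat_lit 344133) (nat_lit 26) (.e (nat_lit 557103) (nat_lit 14) (.e (nat_lit 180250) (nat_lit 10) (.e (nat_lit 581376) (nat_lit 0) (.e (nat_lit 3071) (nat_lit 190) (.e (nat_lit 483072) (nat_lit 26) .nil))))))) (.g (nat_lit 1) (.e (nat_lit 401289) (nat_lit 0) .nil) .nil)))))) 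
(.nd (nat_lit 7) (.nd (nat_lit 8) (.nd (nat_lit 9) 
(.lf (nat_lit 590967) (.g (nat_lit 2289) (.e (nat_lit 532529) (nat_lit 9) (.e (nat_lit 336326) (nat_lit 18) (.e (nat_lit 204854) (nat_lit 26) (.e (nat_lit 336325) (nat_lit 18) (.e (nat_lit 204880) (nat_lit 32) .nil))))) (.g (nat_lit 0) (.e (nat_lit 399303) (nat_lit 0) .nil) .nil))) 
(.lf (nat_lit 591479) (.g (nat_lit 2645) (.e (nat_lit 532544) (nat_lit 10) (.e (nat_lit 344129) (nat_lit 26) (.e (nat_lit 557103) (nat_lit 14) (.e (nat_lit 180243) (nat_lit 5) (.e (nat_lit 532504) (nat_lit 1) .nil))))) (.g (nat_lit 0) (.e (nat_lit 400969) (nat_lit 0) .nil) .nil)))) (.nd (nat_lit 9) 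
(.lf (nat_lit 591223) (.g (nat_lit 3396) (.e (nat_lit 532535) (nat_lit 9) (.e (nat_lit 336099) (nat_lit 9) (.e (nat_lit 336013) (nat_lit 2) (.e (nat_lit 90165) (nat_lit 12) (.e (nat_lit 164208) (nat_lit 176) (.e (nat_lit 2819) (nat_lit 181) (.e (nat_lit 311297) (nat_lit 0) (.e (nat_lit 3241) (nat_lit 197) .nil)))))))) (.g (nat_lit 1) (.e (nat_lit 400094) (nat_lit 0) .nil) .nil))) 
(.lf (nat_lit 591735) (.g (nat_lit 2713) (.e (nat_lit 532544) (nat_lit 10) (.e (nat_lit 344132) (nat_lit 26) (.e (nat_lit 557105) (nat_lit 14) (.e (nat_lit 180252) (nat_lit 10) (.e (nat_lit 573475) (nat_lit 12) (.e (nat_lit 57506) (nat_lit 39) (.e (nat_lit 647180) (nat_lit 3) (.e (nat_lit 163962) (nat_lit 25) .nil)))))))) (.g (nat_lit 1) (.e (nat_lit 401225) (nat_lit 0) .nil) .nil))))) 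
(.nd (nat_lit 8) (.nd (nat_lit 9) 
(.lf (nat_lit 591095) (.g (nat_lit 1496) (.e (nat_lit 532533) (nat_lit 9) (.e (nat_lit 336019) (nat_lit 3) (.e (nat_lit 98334) (nat_lit 18) (.e (nat_lit 164242) (nat_lit 195) .nil)))) (.g (nat_lit 0) (.e (nat_lit 399734) (nat_lit 0) .nil) .nil))) 
(.lf (nat_lit 591607) (.g (nat_lit 2591) (.e (nat_lit 532544) (nat_lit 10) (.e (nat_lit 344131) (nat_lit 26) (.e (nat_lit 557103) (nat_lit 14) (.e (nat_lit 180243) (nat_lit 5) (.e (nat_lit 532504) (nat_lit 1) (.e (nat_lit 57703) (nat_lit 164) (.e (nat_lit 2601) (nat_lit 163) (.e (nat_lit 163962) (nat_lit 25) .nil)))))))) (.g (nat_lit 1) (.e (nat_lit 401097) (nat_lit 0) .nil) .nil)))) 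
(.nd (nat_lit 9) 
(.lf (nat_lit 591351) (.g (nat_lit 4500) (.e (nat_lit 532535) (nat_lit 9) (.e (nat_lit 336176) (nat_lit 10) (.e (nat_lit 344133) (nat_lit 26) (.e (nat_lit 557091) (nat_lit 12) (.e (nat_lit 164022) (nat_lit 46) (.e (nat_lit 704629) (nat_lit 9) (.e (nat_lit 442) (nat_lit 33) (.e (nat_lit 434230) (nat_lit 23) .nil)))))))) (.g (nat_lit 1) (.e (nat_lit 400748) (nat_lit 0) .nil) .nil))) 
(.lf (nat_lit 591863) (.g (nat_lit 2403) (.e (nat_lit 532546) (nat_lit 11) (.e (nat_lit 352313) (nat_lit 23) (.e (nat_lit 98350) (nat_lit 24) (.e (nat_lit 409617) (nat_lit 10) (.e (nat_lit 7936) (nat_lit 315) (.e (nat_lit 163962) (nat_lit 25) .nil)))))) (.g (nat_lit 1) (.e (nat_lit 401367) (nat_lit 0) .nil) .nil))))))))) 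
(.nd (nat_lit 4) (.nd (nat_lit 5) (.nd (nat_lit 6) (.nd (nat_lit 7) (.nd (nat_lit 8) 
(.nd (nat_lit 9) 
(.lf (nat_lit 590863) (.g (nat_lit 2076) (.e (nat_lit 532523) (nat_lit 7) (.e (nat_lit 319534) (nat_lit 16) (.e (nat_lit 286735) (nat_lit 3) (.e (nat_lit 98357) (nat_lit 26) (.e (nat_lit 426272) (nat_lit 10) .nil))))) (.g (nat_lit 0) (.e (nat_lit 398975) (nat_lit 0) .nil) .nil))) 
(.lf (nat_lit 591375) (.g (nat_lit 2082) (.e (nat_lit 532541) (nat_lit 9) (.e (nat_lit 336194) (nat_lit 12) (.e (nat_lit 385066) (nat_lit 26) (.e (nat_lit 532513) (nat_lit 3) (.e (nat_lit 122624) (nat_lit 15) .nil))))) (.g (nat_lit 0) (.e (nat_lit 400831) (nat_lit 0) .nil) .nil)))) (.nd (nat_lit 9) 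
(.lf (nat_lit 591119) (.g (nat_lit 1700) (.e (nat_lit 532533) (nat_lit 9) (.e (nat_lit 336324) (nat_lit 18) (.e (nat_lit 204880) (nat_lit 32) (.e (nat_lit 385068) (nat_lit 26) (.e (nat_lit 532566) (nat_lit 15) .nil))))) (.g (nat_lit 0) (.e (nat_lit 399767) (nat_lit 0) .nil) .nil))) 
(.lf (nat_lit 591631) (.g (nat_lit 2027) (.e (nat_lit 532544) (nat_lit 10) (.e (nat_lit 344131) (nat_lit 26) (.e (nat_lit 557105) (nat_lit 14) (.e (nat_lit 180252) (nat_lit 10) (.e (nat_lit 573441) (nat_lit 0) .nil))))) (.g (nat_lit 0) (.e (nat_lit 401121) (nat_lit 0) .nil) .nil))))) (.nd (nat_lit 8) (.nd (nat_lit 9) 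
(.lf (nat_lit 590991) (.g (nat_lit 3539) (.e (nat_lit 532529) (nat_lit 9) (.e (nat_lit 336326) (nat_lit 18) (.e (nat_lit 204863) (nat_lit 27) (.e (nat_lit 344133) (nat_lit 26) (.e (nat_lit 557098) (nat_lit 13) (.e (nat_lit 172127) (nat_lit 15) (.e (nat_lit 1815) (nat_lit 121) .nil))))))) (.g (nat_lit 1) (.e (nat_lit 399331) (nat_lit 0) .nil) .nil))) 
(.lf (nat_lit 591503) (.g (nat_lit 2623) (.e (nat_lit 532544) (nat_lit 10) (.e (nat_lit 344129) (nat_lit 26) (.e (nat_lit 557104) (nat_lit 14) (.e (nat_lit 180252) (nat_lit 10) (.e (nat_lit 573446) (nat_lit 0) .nil))))) (.g (nat_lit 0) (.e (nat_lit 400993) (nat_lit 0) .nil) .nil)))) (.nd (nat_lit 9) 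
(.lf (nat_lit 591247) (.g (nat_lit 2794) (.e (nat_lit 532535) (nat_lit 9) (.e (nat_lit 336099) (nat_lit 9) (.e (nat_lit 336013) (nat_lit 2) (.e (nat_lit 90165) (nat_lit 12) (.e (nat_lit 164218) (nat_lit 179) (.e (nat_lit 164282) (nat_lit 223) (.e (nat_lit 123002) (nat_lit 86) .nil))))))) (.g (nat_lit 1) (.e (nat_lit 400121) (nat_lit 0) .nil) .nil))) 
(.lf (nat_lit 591759) (.g (nat_lit 3193) (.e (nat_lit 532544) (nat_lit 10) (.e (nat_lit 344133) (nat_lit 26) (.e (nat_lit 557098) (nat_lit 13) (.e (nat_lit 172064) (nat_lit 2) (.e (nat_lit 196622) (nat_lit 9) (.e (nat_lit 488) (nat_lit 38) (.e (nat_lit 483072) (nat_lit 26) .nil))))))) (.g (nat_lit 1) (.e (nat_lit 401249) (nat_lit 0) .nil) .nil)))))) 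
(.nd (nat_lit 7) (.nd (nat_lit 8) (.nd (nat_lit 9) 
(.lf (nat_lit 590927) (.g (nat_lit 1492) (.e (nat_lit 532526) (nat_lit 8) (.e (nat_lit 327716) (nat_lit 16) (.e (nat_lit 286735) (nat_lit 3) (.e (nat_lit 98359) (nat_lit 26) .nil)))) (.g (nat_lit 0) (.e (nat_lit 399096) (nat_lit 0) .nil) .nil))) 
(.lf (nat_lit 591439) (.g (nat_lit 2877) (.e (nat_lit 532544) (nat_lit 10) (.e (nat_lit 344117) (nat_lit 21) (.e (nat_lit 516130) (nat_lit 3) (.e (nat_lit 221212) (nat_lit 22) (.e (nat_lit 196609) (nat_lit 0) (.e (nat_lit 3067) (nat_lit 190) (.e (nat_lit 483072) (nat_lit 26) .nil))))))) (.g (nat_lit 1) (.e (nat_lit 400928) (nat_lit 0) .nil) .nil)))) (.nd (nat_lit 9) 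
(.lf (nat_lit 591183) (.g (nat_lit 4130) (.e (nat_lit 532535) (nat_lit 9) (.e (nat_lit 336099) (nat_lit 9) (.e (nat_lit 335927) (nat_lit 0) (.e (nat_lit 1848) (nat_lit 124) (.e (nat_lit 557087) (nat_lit 11) (.e (nat_lit 24617) (nat_lit 7) (.e (nat_lit 319505) (nat_lit 10) (.e (nat_lit 7936) (nat_lit 45) .nil)))))))) (.g (nat_lit 1) (.e (nat_lit 400011) (nat_lit 0) .nil) .nil))) 
(.lf (nat_lit 591695) (.g (nat_lit 2260) (.e (nat_lit 532544) (nat_lit 10) (.e (nat_lit 344132) (nat_lit 26) (.e (nat_lit 557103) (nat_lit 14) (.e (nat_lit 180250) (nat_lit 10) (.e (nat_lit 573441) (nat_lit 0) (.e (nat_lit 3067) (nat_lit 190) (.e (nat_lit 483072) (nat_lit 26) .nil))))))) (.g (nat_lit 1) (.e (nat_lit 401185) (nat_lit 0) .nil) .nil))))) (.nd (nat_lit 8) (.nd (nat_lit 9) 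
(.lf (nat_lit 591055) (.g (nat_lit 2912) (.e (nat_lit 532531) (nat_lit 9) (.e (nat_lit 336324) (nat_lit 18) (.e (nat_lit 204852) (nat_lit 26) (.e (nat_lit 336324) (nat_lit 18) (.e (nat_lit 204880) (nat_lit 32) (.e (nat_lit 385066) (nat_lit 26) .nil)))))) (.g (nat_lit 1) (.e (nat_lit 399585) (nat_lit 0) .nil) .nil))) 
(.lf (nat_lit 591567) (.g (nat_lit 2224) (.e (nat_lit 532544) (nat_lit 10) (.e (nat_lit 344130) (nat_lit 26) (.e (nat_lit 557104) (nat_lit 14) (.e (nat_lit 180252) (nat_lit 10) (.e (nat_lit 581376) (nat_lit 0) (.e (nat_lit 3059) (nat_lit 190) (.e (nat_lit 483072) (nat_lit 26) .nil))))))) (.g (nat_lit 1) (.e (nat_lit 401057) (nat_lit 0) .nil) .nil)))) (.nd (nat_lit 9) 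
(.lf (nat_lit 591311) (.g (nat_lit 363) (.e (nat_lit 532535) (nat_lit 9) (.e (nat_lit 336173) (nat_lit 10) (.e (nat_lit 344117) (nat_lit 21) .nil))) (.g (nat_lit 0) (.e (nat_lit 400432) (nat_lit 0) .nil) .nil))) 
(.lf (nat_lit 591823) (.g (nat_lit 4568) (.e (nat_lit 532544) (nat_lit 10) (.e (nat_lit 344133) (nat_lit 26) (.e (nat_lit 557105) (nat_lit 14) (.e (nat_lit 180252) (nat_lit 10) (.e (nat_lit 573446) (nat_lit 0) (.e (nat_lit 3067) (nat_lit 190) (.e (nat_lit 483072) (nat_lit 26) .nil))))))) (.g (nat_lit 1) (.e (nat_lit 401313) (nat_lit 0) .nil) .nil))))))) 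
(.nd (nat_lit 6) (.nd (nat_lit 7) (.nd (nat_lit 8) (.nd (nat_lit 9) 
(.lf (nat_lit 590895) (.g (nat_lit 1827) (.e (nat_lit 532526) (nat_lit 8) (.e (nat_lit 327699) (nat_lit 8) (.e (nat_lit 303117) (nat_lit 2) (.e (nat_lit 196628) (nat_lit 9) .nil)))) (.g (nat_lit 0) (.e (nat_lit 399042) (nat_lit 0) .nil) .nil))) 
(.lf (nat_lit 591407) (.g (nat_lit 1863) (.e (nat_lit 532543) (nat_lit 10) (.e (nat_lit 344129) (nat_lit 26) (.e (nat_lit 557097) (nat_lit 13) (.e (nat_lit 172132) (nat_lit 15) .nil)))) (.g (nat_lit 0) (.e (nat_lit 400888) (nat_lit 0) .nil) .nil)))) (.nd (nat_lit 9) 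
(.lf (nat_lit 591151) (.g (nat_lit 3396) (.e (nat_lit 532534) (nat_lit 9) (.e (nat_lit 336324) (nat_lit 18) (.e (nat_lit 204880) (nat_lit 32) (.e (nat_lit 385066) (nat_lit 26) (.e (nat_lit 532563) (nat_lit 15) (.e (nat_lit 385068) (nat_lit 26) .nil)))))) (.g (nat_lit 1) (.e (nat_lit 399846) (nat_lit 0) .nil) .nil))) 
(.lf (nat_lit 591663) (.g (nat_lit 2434) (.e (nat_lit 532544) (nat_lit 10) (.e (nat_lit 344132) (nat_lit 26) (.e (nat_lit 557100) (nat_lit 13) (.e (nat_lit 172067) (nat_lit 3) (.e (nat_lit 204809) (nat_lit 9) .nil))))) (.g (nat_lit 0) (.e (nat_lit 401153) (nat_lit 0) .nil) .nil))))) (.nd (nat_lit 8) (.nd (nat_lit 9) 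
(.lf (nat_lit 591023) (.g (nat_lit 3462) (.e (nat_lit 532530) (nat_lit 9) (.e (nat_lit 336325) (nat_lit 18) (.e (nat_lit 204852) (nat_lit 26) (.e (nat_lit 336324) (nat_lit 18) (.e (nat_lit 204882) (nat_lit 32) (.e (nat_lit 385068) (nat_lit 26) .nil)))))) (.g (nat_lit 1) (.e (nat_lit 399477) (nat_lit 0) .nil) .nil))) 
(.lf (nat_lit 591535) (.g (nat_lit 2072) (.e (nat_lit 532544) (nat_lit 10) (.e (nat_lit 344130) (nat_lit 26) (.e (nat_lit 557103) (nat_lit 14) (.e (nat_lit 180243) (nat_lit 5) (.e (nat_lit 532503) (nat_lit 1) .nil))))) (.g (nat_lit 0) (.e (nat_lit 401025) (nat_lit 0) .nil) .nil)))) (.nd (nat_lit 9) 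
(.lf (nat_lit 591279) (.g (nat_lit 4271) (.e (nat_lit 532535) (nat_lit 9) (.e (nat_lit 336099) (nat_lit 9) (.e (nat_lit 336028) (nat_lit 3) (.e (nat_lit 98349) (nat_lit 24) (.e (nat_lit 417536) (nat_lit 18) (.e (nat_lit 303112) (nat_lit 0) (.e (nat_lit 3252) (nat_lit 197) .nil))))))) (.g (nat_lit 1) (.e (nat_lit 400330) (nat_lit 0) .nil) .nil))) 
(.lf (nat_lit 591791) (.g (nat_lit 3904) (.e (nat_lit 532544) (nat_lit 10) (.e (nat_lit 344133) (nat_lit 26) (.e (nat_lit 557103) (nat_lit 14) (.e (nat_lit 180250) (nat_lit 10) (.e (nat_lit 573441) (nat_lit 0) (.e (nat_lit 3067) (nat_lit 190) (.e (nat_lit 483072) (nat_lit 26) .nil))))))) (.g (nat_lit 1) (.e (nat_lit 401281) (nat_lit 0) .nil) .nil)))))) 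
(.nd (nat_lit 7) (.nd (nat_lit 8) (.nd (nat_lit 9) 
(.lf (nat_lit 590959) (.g (nat_lit 1803) (.e (nat_lit 532529) (nat_lit 9) (.e (nat_lit 336324) (nat_lit 18) (.e (nat_lit 204854) (nat_lit 26) (.e (nat_lit 336324) (nat_lit 18) (.e (nat_lit 204880) (nat_lit 32) .nil))))) (.g (nat_lit 0) (.e (nat_lit 399288) (nat_lit 0) .nil) .nil))) 
(.lf (nat_lit 591471) (.g (nat_lit 2184) (.e (nat_lit 532544) (nat_lit 10) (.e (nat_lit 344129) (nat_lit 26) (.e (nat_lit 557097) (nat_lit 13) (.e (nat_lit 172066) (nat_lit 3) (.e (nat_lit 212736) (nat_lit 15) (.e (nat_lit 483072) (nat_lit 26) .nil)))))) (.g (nat_lit 1) (.e (nat_lit 400961) (nat_lit 0) .nil) .nil)))) (.nd (nat_lit 9) 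
(.lf (nat_lit 591215) (.g (nat_lit 2385) (.e (nat_lit 532535) (nat_lit 9) (.e (nat_lit 336099) (nat_lit 9) (.e (nat_lit 336013) (nat_lit 2) (.e (nat_lit 90141) (nat_lit 9) .nil)))) (.g (nat_lit 0) (.e (nat_lit 400081) (nat_lit 0) .nil) .nil))) 
(.lf (nat_lit 591727) (.g (nat_lit 2241) (.e (nat_lit 532544) (nat_lit 10) (.e (nat_lit 344132) (nat_lit 26) (.e (nat_lit 557105) (nat_lit 14) (.e (nat_lit 180252) (nat_lit 10) (.e (nat_lit 581376) (nat_lit 0) (.e (nat_lit 3072) (nat_lit 190) (.e (nat_lit 483072) (nat_lit 26) .nil))))))) (.g (nat_lit 1) (.e (nat_lit 401217) (nat_lit 0) .nil) .nil))))) (.nd (nat_lit 8) (.nd (nat_lit 9) 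
(.lf (nat_lit 591087) (.g (nat_lit 2527) (.e (nat_lit 532532) (nat_lit 9) (.e (nat_lit 336326) (nat_lit 18) (.e (nat_lit 204854) (nat_lit 26) (.e (nat_lit 336324) (nat_lit 18) (.e (nat_lit 204880) (nat_lit 32) (.e (nat_lit 385066) (nat_lit 26) .nil)))))) (.g (nat_lit 1) (.e (nat_lit 399707) (nat_lit 0) .nil) .nil))) 
(.lf (nat_lit 591599) (.g (nat_lit 2496) (.e (nat_lit 532544) (nat_lit 10) (.e (nat_lit 344131) (nat_lit 26) (.e (nat_lit 557100) (nat_lit 13) (.e (nat_lit 172138) (nat_lit 15) (.e (nat_lit 1800) (nat_lit 119) .nil))))) (.g (nat_lit 0) (.e (nat_lit 401089) (nat_lit 0) .nil) .nil)))) (.nd (nat_lit 9) 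
(.lf (nat_lit 591343) (.g (nat_lit 333) (.e (nat_lit 532535) (nat_lit 9) (.e (nat_lit 336176) (nat_lit 10) (.e (nat_lit 344133) (nat_lit 26) .nil))) (.g (nat_lit 0) (.e (nat_lit 400684) (nat_lit 0) .nil) .nil))) 
(.lf (nat_lit 591855) (.g (nat_lit 894) (.e (nat_lit 532546) (nat_lit 11) (.e (nat_lit 352277) (nat_lit 11) (.e (nat_lit 433920) (nat_lit 35) (.e (nat_lit 401454) (nat_lit 12) (.e (nat_lit 483072) (nat_lit 26) .nil))))) (.g (nat_lit 0) (.e (nat_lit 401359) (nat_lit 0) .nil) .nil)))))))) (.nd (nat_lit 5) (.nd (nat_lit 6) (.nd (nat_lit 7) (.nd (nat_lit 8) (.nd (nat_lit 9) 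
(.lf (nat_lit 590879) (.g (nat_lit 2538) (.e (nat_lit 540416) (nat_lit 7) (.e (nat_lit 319530) (nat_lit 16) (.e (nat_lit 286733) (nat_lit 2) (.e (nat_lit 90170) (nat_lit 13) (.e (nat_lit 172115) (nat_lit 10) .nil))))) (.g (nat_lit 0) (.e (nat_lit 398992) (nat_lit 0) .nil) .nil))) 
(.lf (nat_lit 591391) (.g (nat_lit 1761) (.e (nat_lit 532542) (nat_lit 9) (.e (nat_lit 336194) (nat_lit 12) (.e (nat_lit 385066) (nat_lit 26) (.e (nat_lit 532515) (nat_lit 3) (.e (nat_lit 114696) (nat_lit 11) .nil))))) (.g (nat_lit 0) (.e (nat_lit 400859) (nat_lit 0) .nil) .nil)))) (.nd (nat_lit 9) 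
(.lf (nat_lit 591135) (.g (nat_lit 1214) (.e (nat_lit 532534) (nat_lit 9) (.e (nat_lit 336211) (nat_lit 13) (.e (nat_lit 393221) (nat_lit 0) (.e (nat_lit 6209) (nat_lit 333) (.e (nat_lit 65280) (nat_lit 271) .nil))))) (.g (nat_lit 0) (.e (nat_lit 399812) (nat_lit 0) .nil) .nil))) 
(.lf (nat_lit 591647) (.g (nat_lit 3073) (.e (nat_lit 532544) (nat_lit 10) (.e (nat_lit 344131) (nat_lit 26) (.e (nat_lit 557105) (nat_lit 14) (.e (nat_lit 180252) (nat_lit 10) (.e (nat_lit 573474) (nat_lit 12) (.e (nat_lit 57508) (nat_lit 39) (.e (nat_lit 647180) (nat_lit 3) (.e (nat_lit 163962) (nat_lit 25) .nil)))))))) (.g (nat_lit 1) (.e (nat_lit 401137) (nat_lit 0) .nil) .nil))))) 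
(.nd (nat_lit 8) (.nd (nat_lit 9) 
(.lf (nat_lit 591007) (.g (nat_lit 3736) (.e (nat_lit 532530) (nat_lit 9) (.e (nat_lit 336142) (nat_lit 9) (.e (nat_lit 336027) (nat_lit 3) (.e (nat_lit 98350) (nat_lit 24) (.e (nat_lit 409616) (nat_lit 10) (.e (nat_lit 7936) (nat_lit 318) (.e (nat_lit 229433) (nat_lit 25) .nil))))))) (.g (nat_lit 1) (.e (nat_lit 399406) (nat_lit 0) .nil) .nil))) 
(.lf (nat_lit 591519) (.g (nat_lit 2250) (.e (nat_lit 532544) (nat_lit 10) (.e (nat_lit 344130) (nat_lit 26) (.e (nat_lit 557097) (nat_lit 13) (.e (nat_lit 172064) (nat_lit 2) (.e (nat_lit 196622) (nat_lit 9) (.e (nat_lit 488) (nat_lit 38) (.e (nat_lit 483072) (nat_lit 26) .nil))))))) (.g (nat_lit 1) (.e (nat_lit 401009) (nat_lit 0) .nil) .nil)))) (.nd (nat_lit 9) 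
(.lf (nat_lit 591263) (.g (nat_lit 314) (.e (nat_lit 532535) (nat_lit 9) (.e (nat_lit 336099) (nat_lit 9) (.e (nat_lit 336028) (nat_lit 3) .nil))) (.g (nat_lit 0) (.e (nat_lit 400272) (nat_lit 0) .nil) .nil))) 
(.lf (nat_lit 591775) (.g (nat_lit 594) (.e (nat_lit 532544) (nat_lit 10) (.e (nat_lit 344133) (nat_lit 26) (.e (nat_lit 557100) (nat_lit 13) .nil))) (.g (nat_lit 0) (.e (nat_lit 401265) (nat_lit 0) .nil) .nil)))))) (.nd (nat_lit 7) (.nd (nat_lit 8) (.nd (nat_lit 9) 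
(.lf (nat_lit 590943) (.g (nat_lit 2170) (.e (nat_lit 532528) (nat_lit 9) (.e (nat_lit 336324) (nat_lit 18) (.e (nat_lit 204854) (nat_lit 26) (.e (nat_lit 336306) (nat_lit 15) (.e (nat_lit 3238) (nat_lit 197) .nil))))) (.g (nat_lit 0) (.e (nat_lit 399125) (nat_lit 0) .nil) .nil))) 
(.lf (nat_lit 591455) (.g (nat_lit 1336) (.e (nat_lit 532544) (nat_lit 10) (.e (nat_lit 344120) (nat_lit 21) (.e (nat_lit 516131) (nat_lit 3) (.e (nat_lit 221211) (nat_lit 22) (.e (nat_lit 196616) (nat_lit 0) (.e (nat_lit 3067) (nat_lit 190) (.e (nat_lit 483072) (nat_lit 26) .nil))))))) (.g (nat_lit 1) (.e (nat_lit 400944) (nat_lit 0) .nil) .nil)))) (.nd (nat_lit 9) 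
(.lf (nat_lit 591199) (.g (nat_lit 5903) (.e (nat_lit 532535) (nat_lit 9) (.e (nat_lit 336099) (nat_lit 9) (.e (nat_lit 336013) (nat_lit 2) (.e (nat_lit 90134) (nat_lit 9) (.e (nat_lit 2822) (nat_lit 182) (.e (nat_lit 409645) (nat_lit 18) (.e (nat_lit 303112) (nat_lit 0) (.e (nat_lit 3251) (nat_lit 197) .nil)))))))) (.g (nat_lit 1) (.e (nat_lit 400056) (nat_lit 0) .nil) .nil))) 
(.lf (nat_lit 591711) (.g (nat_lit 2119) (.e (nat_lit 532544) (nat_lit 10) (.e (nat_lit 344132) (nat_lit 26) (.e (nat_lit 557105) (nat_lit 14) (.e (nat_lit 180252) (nat_lit 10) (.e (nat_lit 573441) (nat_lit 0) (.e (nat_lit 3055) (nat_lit 190) (.e (nat_lit 483072) (nat_lit 26) .nil))))))) (.g (nat_lit 1) (.e (nat_lit 401201) (nat_lit 0) .nil) .nil))))) (.nd (nat_lit 8) (.nd (nat_lit 9) 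
(.lf (nat_lit 591071) (.g (nat_lit 1447) (.e (nat_lit 532532) (nat_lit 9) (.e (nat_lit 336322) (nat_lit 18) (.e (nat_lit 204880) (nat_lit 32) (.e (nat_lit 385068) (nat_lit 26) (.e (nat_lit 532566) (nat_lit 15) .nil))))) (.g (nat_lit 0) (.e (nat_lit 399689) (nat_lit 0) .nil) .nil))) 
(.lf (nat_lit 591583) (.g (nat_lit 1183) (.e (nat_lit 532544) (nat_lit 10) (.e (nat_lit 344131) (nat_lit 26) (.e (nat_lit 557098) (nat_lit 13) (.e (nat_lit 172062) (nat_lit 2) .nil)))) (.g (nat_lit 0) (.e (nat_lit 401073) (nat_lit 0) .nil) .nil)))) (.nd (nat_lit 9) 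
(.lf (nat_lit 591327) (.g (nat_lit 364) (.e (nat_lit 532535) (nat_lit 9) (.e (nat_lit 336176) (nat_lit 10) (.e (nat_lit 344130) (nat_lit 26) .nil))) (.g (nat_lit 0) (.e (nat_lit 400540) (nat_lit 0) .nil) .nil))) 
(.lf (nat_lit 591839) (.g (nat_lit 2412) (.e (nat_lit 532544) (nat_lit 10) (.e (nat_lit 344133) (nat_lit 26) (.e (nat_lit 557105) (nat_lit 14) (.e (nat_lit 180252) (nat_lit 10) (.e (nat_lit 581376) (nat_lit 4) .nil))))) (.g (nat_lit 0) (.e (nat_lit 401329) (nat_lit 0) .nil) .nil))))))) (.nd (nat_lit 6) (.nd (nat_lit 7) (.nd (nat_lit 8) (.nd (nat_lit 9) 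
(.lf (nat_lit 590911) (.g (nat_lit 3497) (.e (nat_lit 532526) (nat_lit 8) (.e (nat_lit 327699) (nat_lit 8) (.e (nat_lit 303119) (nat_lit 3) (.e (nat_lit 204846) (nat_lit 24) (.e (nat_lit 327424) (nat_lit 8) .nil))))) (.g (nat_lit 0) (.e (nat_lit 399062) (nat_lit 0) .nil) .nil))) 
(.lf (nat_lit 591423) (.g (nat_lit 1130) (.e (nat_lit 532544) (nat_lit 10) (.e (nat_lit 344081) (nat_lit 13) (.e (nat_lit 1140) (nat_lit 84) (.e (nat_lit 32787) (nat_lit 9) (.e (nat_lit 65581) (nat_lit 7) (.e (nat_lit 319504) (nat_lit 10) (.e (nat_lit 7936) (nat_lit 45) .nil))))))) (.g (nat_lit 1) (.e (nat_lit 400909) (nat_lit 0) .nil) .nil)))) (.nd (nat_lit 9) 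
(.lf (nat_lit 591167) (.g (nat_lit 1749) (.e (nat_lit 532535) (nat_lit 9) (.e (nat_lit 336020) (nat_lit 3) (.e (nat_lit 106240) (nat_lit 16) (.e (nat_lit 401425) (nat_lit 2) (.e (nat_lit 196661) (nat_lit 12) (.e (nat_lit 57561) (nat_lit 50) (.e (nat_lit 737306) (nat_lit 11) (.e (nat_lit 596) (nat_lit 45) .nil)))))))) (.g (nat_lit 1) (.e (nat_lit 399907) (nat_lit 0) .nil) .nil))) 
(.lf (nat_lit 591679) (.g (nat_lit 1278) (.e (nat_lit 532544) (nat_lit 10) (.e (nat_lit 344132) (nat_lit 26) (.e (nat_lit 557101) (nat_lit 13) (.e (nat_lit 172063) (nat_lit 2) .nil)))) (.g (nat_lit 0) (.e (nat_lit 401169) (nat_lit 0) .nil) .nil))))) (.nd (nat_lit 8) (.nd (nat_lit 9) 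
(.lf (nat_lit 591039) (.g (nat_lit 1421) (.e (nat_lit 532530) (nat_lit 9) (.e (nat_lit 336326) (nat_lit 18) (.e (nat_lit 204863) (nat_lit 27) (.e (nat_lit 344131) (nat_lit 26) .nil)))) (.g (nat_lit 0) (.e (nat_lit 399511) (nat_lit 0) .nil) .nil))) 
(.lf (nat_lit 591551) (.g (nat_lit 2148) (.e (nat_lit 532544) (nat_lit 10) (.e (nat_lit 344130) (nat_lit 26) (.e (nat_lit 557103) (nat_lit 14) (.e (nat_lit 180250) (nat_lit 10) (.e (nat_lit 581376) (nat_lit 0) .nil))))) (.g (nat_lit 0) (.e (nat_lit 401041) (nat_lit 0) .nil) .nil)))) (.nd (nat_lit 9) 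
(.lf (nat_lit 591295) (.g (nat_lit 4103) (.e (nat_lit 532535) (nat_lit 9) (.e (nat_lit 336163) (nat_lit 10) (.e (nat_lit 344130) (nat_lit 26) (.e (nat_lit 557087) (nat_lit 11) (.e (nat_lit 24617) (nat_lit 7) (.e (nat_lit 319504) (nat_lit 10) (.e (nat_lit 7936) (nat_lit 45) .nil))))))) (.g (nat_lit 1) (.e (nat_lit 400411) (nat_lit 0) .nil) .nil))) 
(.lf (nat_lit 591807) (.g (nat_lit 2763) (.e (nat_lit 532544) (nat_lit 10) (.e (nat_lit 344133) (nat_lit 26) (.e (nat_lit 557105) (nat_lit 14) (.e (nat_lit 180244) (nat_lit 5) (.e (nat_lit 532579) (nat_lit 26) .nil))))) (.g (nat_lit 0) (.e (nat_lit 401297) (nat_lit 0) .nil) .nil)))))) (.nd (nat_lit 7) (.nd (nat_lit 8) (.nd (nat_lit 9) 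
(.lf (nat_lit 590975) (.g (nat_lit 3062) (.e (nat_lit 532529) (nat_lit 9) (.e (nat_lit 336326) (nat_lit 18) (.e (nat_lit 204863) (nat_lit 27) (.e (nat_lit 344130) (nat_lit 26) (.e (nat_lit 557097) (nat_lit 13) (.e (nat_lit 172133) (nat_lit 15) (.e (nat_lit 7936) (nat_lit 121) .nil))))))) (.g (nat_lit 1) (.e (nat_lit 399315) (nat_lit 0) .nil) .nil))) 
(.lf (nat_lit 591487) (.g (nat_lit 3340) (.e (nat_lit 532544) (nat_lit 10) (.e (nat_lit 344129) (nat_lit 26) (.e (nat_lit 557103) (nat_lit 14) (.e (nat_lit 180250) (nat_lit 10) (.e (nat_lit 573441) (nat_lit 0) (.e (nat_lit 3067) (nat_lit 190) (.e (nat_lit 483072) (nat_lit 26) .nil))))))) (.g (nat_lit 1) (.e (nat_lit 400977) (nat_lit 0) .nil) .nil)))) (.nd (nat_lit 9) 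
(.lf (nat_lit 591231) (.g (nat_lit 3637) (.e (nat_lit 532535) (nat_lit 9) (.e (nat_lit 336099) (nat_lit 9) (.e (nat_lit 336013) (nat_lit 2) (.e (nat_lit 90165) (nat_lit 12) (.e (nat_lit 164210) (nat_lit 176) (.e (nat_lit 2768) (nat_lit 177) (.e (nat_lit 278550) (nat_lit 10) (.e (nat_lit 7936) (nat_lit 45) .nil)))))))) (.g (nat_lit 1) (.e (nat_lit 400102) (nat_lit 0) .nil) .nil))) 
(.lf (nat_lit 591743) (.g (nat_lit 1943) (.e (nat_lit 532544) (nat_lit 10) (.e (nat_lit 344133) (nat_lit 26) (.e (nat_lit 557098) (nat_lit 13) (.e (nat_lit 172045) (nat_lit 0) (.e (nat_lit 3307) (nat_lit 202) .nil))))) (.g (nat_lit 0) (.e (nat_lit 401233) (nat_lit 0) .nil) .nil))))) (.nd (nat_lit 8) (.nd (nat_lit 9) 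
(.lf (nat_lit 591103) (.g (nat_lit 1705) (.e (nat_lit 532533) (nat_lit 9) (.e (nat_lit 336019) (nat_lit 3) (.e (nat_lit 98342) (nat_lit 20) (.e (nat_lit 221212) (nat_lit 22) .nil)))) (.g (nat_lit 0) (.e (nat_lit 399742) (nat_lit 0) .nil) .nil))) 
(.lf (nat_lit 591615) (.g (nat_lit 2754) (.e (nat_lit 532544) (nat_lit 10) (.e (nat_lit 344131) (nat_lit 26) (.e (nat_lit 557103) (nat_lit 14) (.e (nat_lit 180250) (nat_lit 10) (.e (nat_lit 573441) (nat_lit 0) (.e (nat_lit 3066) (nat_lit 190) (.e (nat_lit 483072) (nat_lit 26) .nil))))))) (.g (nat_lit 1) (.e (nat_lit 401105) (nat_lit 0) .nil) .nil)))) (.nd (nat_lit 9) 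
(.lf (nat_lit 591359) (.g (nat_lit 4236) (.e (nat_lit 532535) (nat_lit 9) (.e (nat_lit 336177) (nat_lit 10) (.e (nat_lit 344129) (nat_lit 26) (.e (nat_lit 557087) (nat_lit 11) (.e (nat_lit 24617) (nat_lit 7) (.e (nat_lit 319504) (nat_lit 10) (.e (nat_lit 7936) (nat_lit 45) .nil))))))) (.g (nat_lit 1) (.e (nat_lit 400762) (nat_lit 0) .nil) .nil))) 
(.lf (nat_lit 591871) (.g (nat_lit 1923) (.e (nat_lit 532546) (nat_lit 11) (.e (nat_lit 352314) (nat_lit 23) (.e (nat_lit 98350) (nat_lit 24) (.e (nat_lit 409617) (nat_lit 10) (.e (nat_lit 7936) (nat_lit 315) .nil))))) (.g (nat_lit 0) (.e (nat_lit 401377) (nat_lit 0) .nil) .nil)))))))))))))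

noncomputable def tv5638 : DT := (.nd (nat_lit 0) (.nd (nat_lit 1) (.nd (nat_lit 2) (.nd (nat_lit 3) (.nd (nat_lit 4) (.nd (nat_lit 5) (.nd (nat_lit 6) (.nd (nat_lit 7) (.nd (nat_lit 8) (.nd (nat_lit 9) 
(.lf (nat_lit 591872) (.g (nat_lit 1936) (.e (nat_lit 532546) (nat_lit 11) (.e (nat_lit 352314) (nat_lit 23) (.e (nat_lit 98350) (nat_lit 24) (.e (nat_lit 409649) (nat_lit 18) (.e (nat_lit 303104) (nat_lit 0) .nil))))) (.g (nat_lit 0) (.e (nat_lit 401378) (nat_lit 0) .nil) .nil))) 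
(.lf (nat_lit 592384) (.g (nat_lit 4156) (.e (nat_lit 532550) (nat_lit 12) (.e (nat_lit 360474) (nat_lit 8) (.e (nat_lit 557094) (nat_lit 12) (.e (nat_lit 164022) (nat_lit 46) (.e (nat_lit 704737) (nat_lit 11) (.e (nat_lit 16384) (nat_lit 0) (.e (nat_lit 3243) (nat_lit 197) .nil))))))) (.g (nat_lit 1) (.e (nat_lit 402234) (nat_lit 0) .nil) .nil)))) (.nd (nat_lit 9) 
(.lf (nat_lit 592128) (.g (nat_lit 2582) (.e (nat_lit 532550) (nat_lit 12) (.e (nat_lit 360466) (nat_lit 3) (.e (nat_lit 516139) (nat_lit 7) (.e (nat_lit 409617) (nat_lit 10) (.e (nat_lit 5762) (nat_lit 315) .nil))))) (.g (nat_lit 0) (.e (nat_lit 401915) (nat_lit 0) .nil) .nil))) 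
(.lf (nat_lit 592640) (.g (nat_lit 2266) (.e (nat_lit 532551) (nat_lit 12) (.e (nat_lit 360467) (nat_lit 3) (.e (nat_lit 516139) (nat_lit 7) (.e (nat_lit 409615) (nat_lit 10) .nil)))) (.g (nat_lit 0) (.e (nat_lit 402531) (nat_lit 0) .nil) .nil))))) (.nd (nat_lit 8) (.nd (nat_lit 9) 
(.lf (nat_lit 592000) (.g (nat_lit 2249) (.e (nat_lit 532549) (nat_lit 12) (.e (nat_lit 360467) (nat_lit 3) (.e (nat_lit 516139) (nat_lit 7) (.e (nat_lit 409616) (nat_lit 10) (.e (nat_lit 7936) (nat_lit 315) (.e (nat_lit 163962) (nat_lit 25) .nil)))))) (.g (nat_lit 1) (.e (nat_lit 401675) (nat_lit 0) .nil) .nil))) 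
(.lf (nat_lit 592512) (.g (nat_lit 5691) (.e (nat_lit 532550) (nat_lit 12) (.e (nat_lit 360475) (nat_lit 8) (.e (nat_lit 557091) (nat_lit 12) (.e (nat_lit 163843) (nat_lit 0) (.e (nat_lit 6420) (nat_lit 341) (.e (nat_lit 163902) (nat_lit 12) (.e (nat_lit 425994) (nat_lit 0) (.e (nat_lit 3235) (nat_lit 197) .nil)))))))) (.g (nat_lit 1) (.e (nat_lit 402384) (nat_lit 0) .nil) .nil)))) 
(.nd (nat_lit 9) 
(.lf (nat_lit 592256) (.g (nat_lit 5236) (.e (nat_lit 532550) (nat_lit 12) (.e (nat_lit 360474) (nat_lit 8) (.e (nat_lit 557093) (nat_lit 12) (.e (nat_lit 164022) (nat_lit 46) (.e (nat_lit 704737) (nat_lit 11) (.e (nat_lit 16385) (nat_lit 0) (.e (nat_lit 3237) (nat_lit 197) .nil))))))) (.g (nat_lit 1) (.e (nat_lit 402106) (nat_lit 0) .nil) .nil))) 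
(.lf (nat_lit 592768) (.g (nat_lit 2849) (.e (nat_lit 532560) (nat_lit 14) (.e (nat_lit 376859) (nat_lit 21) (.e (nat_lit 57688) (nat_lit 156) (.e (nat_lit 163885) (nat_lit 5) (.e (nat_lit 229120) (nat_lit 17) (.e (nat_lit 385066) (nat_lit 26) .nil)))))) (.g (nat_lit 1) (.e (nat_lit 402875) (nat_lit 0) .nil) .nil)))))) (.nd (nat_lit 7) (.nd (nat_lit 8) (.nd (nat_lit 9) 
(.lf (nat_lit 591936) (.g (nat_lit 2177) (.e (nat_lit 532547) (nat_lit 11) (.e (nat_lit 352315) (nat_lit 23) (.e (nat_lit 98350) (nat_lit 24) (.e (nat_lit 409615) (nat_lit 10) .nil)))) (.g (nat_lit 0) (.e (nat_lit 401539) (nat_lit 0) .nil) .nil))) 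
(.lf (nat_lit 592448) (.g (nat_lit 3135) (.e (nat_lit 532550) (nat_lit 12) (.e (nat_lit 360475) (nat_lit 8) (.e (nat_lit 557086) (nat_lit 11) (.e (nat_lit 24617) (nat_lit 7) (.e (nat_lit 319505) (nat_lit 10) (.e (nat_lit 7936) (nat_lit 45) .nil)))))) (.g (nat_lit 1) (.e (nat_lit 402314) (nat_lit 0) .nil) .nil)))) (.nd (nat_lit 9) 
(.lf (nat_lit 592192) (.g (nat_lit 3799) (.e (nat_lit 532550) (nat_lit 12) (.e (nat_lit 360474) (nat_lit 8) (.e (nat_lit 557085) (nat_lit 11) (.e (nat_lit 24617) (nat_lit 7) (.e (nat_lit 319505) (nat_lit 10) (.e (nat_lit 7936) (nat_lit 45) .nil)))))) (.g (nat_lit 1) (.e (nat_lit 402037) (nat_lit 0) .nil) .nil))) 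
(.lf (nat_lit 592704) (.g (nat_lit 1484) (.e (nat_lit 532558) (nat_lit 14) (.e (nat_lit 376842) (nat_lit 11) (.e (nat_lit 426108) (nat_lit 1) (.e (nat_lit 164183) (nat_lit 154) (.e (nat_lit 57442) (nat_lit 18) .nil))))) (.g (nat_lit 0) (.e (nat_lit 402693) (nat_lit 0) .nil) .nil))))) (.nd (nat_lit 8) (.nd (nat_lit 9) 
(.lf (nat_lit 592064) (.g (nat_lit 2953) (.e (nat_lit 532549) (nat_lit 12) (.e (nat_lit 360473) (nat_lit 8) (.e (nat_lit 557091) (nat_lit 12) (.e (nat_lit 164022) (nat_lit 46) (.e (nat_lit 704629) (nat_lit 9) (.e (nat_lit 452) (nat_lit 33) (.e (nat_lit 434232) (nat_lit 23) .nil))))))) (.g (nat_lit 1) (.e (nat_lit 401761) (nat_lit 0) .nil) .nil))) 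
(.lf (nat_lit 592576) (.g (nat_lit 5357) (.e (nat_lit 532550) (nat_lit 12) (.e (nat_lit 360475) (nat_lit 8) (.e (nat_lit 557091) (nat_lit 12) (.e (nat_lit 164022) (nat_lit 46) (.e (nat_lit 704737) (nat_lit 11) (.e (nat_lit 16391) (nat_lit 0) (.e (nat_lit 3241) (nat_lit 197) .nil))))))) (.g (nat_lit 1) (.e (nat_lit 402450) (nat_lit 0) .nil) .nil)))) (.nd (nat_lit 9) 
(.lf (nat_lit 592320) (.g (nat_lit 4243) (.e (nat_lit 532550) (nat_lit 12) (.e (nat_lit 360474) (nat_lit 8) (.e (nat_lit 557093) (nat_lit 12) (.e (nat_lit 164022) (nat_lit 46) (.e (nat_lit 704738) (nat_lit 11) (.e (nat_lit 16399) (nat_lit 0) (.e (nat_lit 7936) (nat_lit 197) .nil))))))) (.g (nat_lit 1) (.e (nat_lit 402170) (nat_lit 0) .nil) .nil))) 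
(.lf (nat_lit 592832) (.g (nat_lit 2856) (.e (nat_lit 532561) (nat_lit 14) (.e (nat_lit 376869) (nat_lit 23) (.e (nat_lit 98349) (nat_lit 24) (.e (nat_lit 409646) (nat_lit 18) (.e (nat_lit 303112) (nat_lit 0) (.e (nat_lit 3252) (nat_lit 197) .nil)))))) (.g (nat_lit 1) (.e (nat_lit 403024) (nat_lit 0) .nil) .nil))))))) (.nd (nat_lit 6) (.nd (nat_lit 7) (.nd (nat_lit 8) (.nd (nat_lit 9) 
(.lf (nat_lit 591904) (.g (nat_lit 3344) (.e (nat_lit 532547) (nat_lit 11) (.e (nat_lit 352313) (nat_lit 23) (.e (nat_lit 98350) (nat_lit 24) (.e (nat_lit 409616) (nat_lit 10) (.e (nat_lit 5758) (nat_lit 315) .nil))))) (.g (nat_lit 0) (.e (nat_lit 401487) (nat_lit 0) .nil) .nil))) 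
(.lf (nat_lit 592416) (.g (nat_lit 3647) (.e (nat_lit 532550) (nat_lit 12) (.e (nat_lit 360474) (nat_lit 8) (.e (nat_lit 557094) (nat_lit 12) (.e (nat_lit 164022) (nat_lit 46) (.e (nat_lit 704738) (nat_lit 11) (.e (nat_lit 16390) (nat_lit 0) (.e (nat_lit 3230) (nat_lit 197) .nil))))))) (.g (nat_lit 1) (.e (nat_lit 402266) (nat_lit 0) .nil) .nil)))) (.nd (nat_lit 9) 
(.lf (nat_lit 592160) (.g (nat_lit 3996) (.e (nat_lit 532550) (nat_lit 12) (.e (nat_lit 368384) (nat_lit 3) (.e (nat_lit 516138) (nat_lit 7) (.e (nat_lit 409645) (nat_lit 18) (.e (nat_lit 303112) (nat_lit 0) (.e (nat_lit 3252) (nat_lit 197) .nil)))))) (.g (nat_lit 1) (.e (nat_lit 401975) (nat_lit 0) .nil) .nil))) 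
(.lf (nat_lit 592672) (.g (nat_lit 1061) (.e (nat_lit 532553) (nat_lit 13) (.e (nat_lit 368676) (nat_lit 21) (.e (nat_lit 516131) (nat_lit 3) (.e (nat_lit 229120) (nat_lit 3) .nil)))) (.g (nat_lit 0) (.e (nat_lit 402584) (nat_lit 0) .nil) .nil))))) (.nd (nat_lit 8) (.nd (nat_lit 9) 
(.lf (nat_lit 592032) (.g (nat_lit 1686) (.e (nat_lit 532549) (nat_lit 12) (.e (nat_lit 360473) (nat_lit 8) (.e (nat_lit 557087) (nat_lit 11) (.e (nat_lit 24584) (nat_lit 0) .nil)))) (.g (nat_lit 0) (.e (nat_lit 401720) (nat_lit 0) .nil) .nil))) 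
(.lf (nat_lit 592544) (.g (nat_lit 3900) (.e (nat_lit 532550) (nat_lit 12) (.e (nat_lit 360475) (nat_lit 8) (.e (nat_lit 557091) (nat_lit 12) (.e (nat_lit 164022) (nat_lit 46) (.e (nat_lit 704735) (nat_lit 11) (.e (nat_lit 16396) (nat_lit 0) (.e (nat_lit 3230) (nat_lit 197) .nil))))))) (.g (nat_lit 1) (.e (nat_lit 402418) (nat_lit 0) .nil) .nil)))) (.nd (nat_lit 9) 
(.lf (nat_lit 592288) (.g (nat_lit 5768) (.e (nat_lit 532550) (nat_lit 12) (.e (nat_lit 360474) (nat_lit 8) (.e (nat_lit 557093) (nat_lit 12) (.e (nat_lit 164022) (nat_lit 46) (.e (nat_lit 704738) (nat_lit 11) (.e (nat_lit 16385) (nat_lit 0) (.e (nat_lit 3250) (nat_lit 197) .nil))))))) (.g (nat_lit 1) (.e (nat_lit 402138) (nat_lit 0) .nil) .nil))) 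
(.lf (nat_lit 592800) (.g (nat_lit 2811) (.e (nat_lit 532560) (nat_lit 14) (.e (nat_lit 376869) (nat_lit 23) (.e (nat_lit 98349) (nat_lit 24) (.e (nat_lit 409648) (nat_lit 18) (.e (nat_lit 303104) (nat_lit 0) (.e (nat_lit 3238) (nat_lit 197) .nil)))))) (.g (nat_lit 1) (.e (nat_lit 402948) (nat_lit 0) .nil) .nil)))))) (.nd (nat_lit 7) (.nd (nat_lit 8) (.nd (nat_lit 9) 
(.lf (nat_lit 591968) (.g (nat_lit 2006) (.e (nat_lit 532548) (nat_lit 11) (.e (nat_lit 352315) (nat_lit 23) (.e (nat_lit 98350) (nat_lit 24) (.e (nat_lit 409644) (nat_lit 18) (.e (nat_lit 303112) (nat_lit 0) .nil))))) (.g (nat_lit 0) (.e (nat_lit 401625) (nat_lit 0) .nil) .nil))) 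
(.lf (nat_lit 592480) (.g (nat_lit 3842) (.e (nat_lit 532550) (nat_lit 12) (.e (nat_lit 360475) (nat_lit 8) (.e (nat_lit 557087) (nat_lit 11) (.e (nat_lit 24662) (nat_lit 14) (.e (nat_lit 401414) (nat_lit 0) (.e (nat_lit 3238) (nat_lit 197) .nil)))))) (.g (nat_lit 1) (.e (nat_lit 402350) (nat_lit 0) .nil) .nil)))) (.nd (nat_lit 9) 
(.lf (nat_lit 592224) (.g (nat_lit 8215) (.e (nat_lit 532550) (nat_lit 12) (.e (nat_lit 360474) (nat_lit 8) (.e (nat_lit 557093) (nat_lit 12) (.e (nat_lit 164022) (nat_lit 46) (.e (nat_lit 704629) (nat_lit 9) (.e (nat_lit 442) (nat_lit 33) (.e (nat_lit 434232) (nat_lit 23) .nil))))))) (.g (nat_lit 1) (.e (nat_lit 402074) (nat_lit 0) .nil) .nil))) 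
(.lf (nat_lit 592736) (.g (nat_lit 1327) (.e (nat_lit 532559) (nat_lit 14) (.e (nat_lit 376866) (nat_lit 23) (.e (nat_lit 98350) (nat_lit 24) (.e (nat_lit 409616) (nat_lit 10) .nil)))) (.g (nat_lit 0) (.e (nat_lit 402793) (nat_lit 0) .nil) .nil))))) (.nd (nat_lit 8) (.nd (nat_lit 9) 
(.lf (nat_lit 592096) (.g (nat_lit 2794) (.e (nat_lit 532549) (nat_lit 12) (.e (nat_lit 360475) (nat_lit 8) (.e (nat_lit 557087) (nat_lit 11) (.e (nat_lit 24593) (nat_lit 0) (.e (nat_lit 7936) (nat_lit 360) .nil))))) (.g (nat_lit 0) (.e (nat_lit 401800) (nat_lit 0) .nil) .nil))) 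
(.lf (nat_lit 592608) (.g (nat_lit 5858) (.e (nat_lit 532550) (nat_lit 12) (.e (nat_lit 360475) (nat_lit 8) (.e (nat_lit 557091) (nat_lit 12) (.e (nat_lit 164022) (nat_lit 46) (.e (nat_lit 704738) (nat_lit 11) (.e (nat_lit 16390) (nat_lit 0) (.e (nat_lit 3241) (nat_lit 197) .nil))))))) (.g (nat_lit 1) (.e (nat_lit 402482) (nat_lit 0) .nil) .nil)))) (.nd (nat_lit 9) 
(.lf (nat_lit 592352) (.g (nat_lit 829) (.e (nat_lit 532550) (nat_lit 12) (.e (nat_lit 360474) (nat_lit 8) (.e (nat_lit 557094) (nat_lit 12) (.e (nat_lit 164022) (nat_lit 46) .nil)))) (.g (nat_lit 0) (.e (nat_lit 402202) (nat_lit 0) .nil) .nil))) 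
(.lf (nat_lit 592864) (.g (nat_lit 1974) (.e (nat_lit 532563) (nat_lit 15) (.e (nat_lit 385066) (nat_lit 26) (.e (nat_lit 532534) (nat_lit 9) (.e (nat_lit 336019) (nat_lit 3) (.e (nat_lit 98337) (nat_lit 19) (.e (nat_lit 213052) (nat_lit 17) (.e (nat_lit 171776) (nat_lit 86) .nil))))))) (.g (nat_lit 1) (.e (nat_lit 403080) (nat_lit 0) .nil) .nil)))))))) 
(.nd (nat_lit 5) (.nd (nat_lit 6) (.nd (nat_lit 7) (.nd (nat_lit 8) (.nd (nat_lit 9) 
(.lf (nat_lit 591888) (.g (nat_lit 4059) (.e (nat_lit 532547) (nat_lit 11) (.e (nat_lit 352293) (nat_lit 20) (.e (nat_lit 1848) (nat_lit 124) (.e (nat_lit 557087) (nat_lit 11) (.e (nat_lit 24617) (nat_lit 7) (.e (nat_lit 319504) (nat_lit 10) (.e (nat_lit 7936) (nat_lit 45) .nil))))))) (.g (nat_lit 1) (.e (nat_lit 401435) (nat_lit 0) .nil) .nil))) 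
(.lf (nat_lit 592400) (.g (nat_lit 3998) (.e (nat_lit 532550) (nat_lit 12) (.e (nat_lit 360474) (nat_lit 8) (.e (nat_lit 557094) (nat_lit 12) (.e (nat_lit 164022) (nat_lit 46) (.e (nat_lit 704737) (nat_lit 11) (.e (nat_lit 16400) (nat_lit 0) (.e (nat_lit 3252) (nat_lit 197) .nil))))))) (.g (nat_lit 1) (.e (nat_lit 402250) (nat_lit 0) .nil) .nil)))) (.nd (nat_lit 9) 
(.lf (nat_lit 592144) (.g (nat_lit 1921) (.e (nat_lit 532550) (nat_lit 12) (.e (nat_lit 360467) (nat_lit 3) (.e (nat_lit 516139) (nat_lit 7) (.e (nat_lit 417536) (nat_lit 10) .nil)))) (.g (nat_lit 0) (.e (nat_lit 401943) (nat_lit 0) .nil) .nil))) 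
(.lf (nat_lit 592656) (.g (nat_lit 3435) (.e (nat_lit 532551) (nat_lit 12) (.e (nat_lit 360467) (nat_lit 3) (.e (nat_lit 516139) (nat_lit 7) (.e (nat_lit 409649) (nat_lit 18) (.e (nat_lit 303111) (nat_lit 0) (.e (nat_lit 3255) (nat_lit 197) .nil)))))) (.g (nat_lit 1) (.e (nat_lit 402549) (nat_lit 0) .nil) .nil))))) (.nd (nat_lit 8) (.nd (nat_lit 9) 
(.lf (nat_lit 592016) (.g (nat_lit 1601) (.e (nat_lit 532549) (nat_lit 12) (.e (nat_lit 360472) (nat_lit 8) (.e (nat_lit 557090) (nat_lit 12) (.e (nat_lit 164020) (nat_lit 45) .nil)))) (.g (nat_lit 0) (.e (nat_lit 401693) (nat_lit 0) .nil) .nil))) 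
(.lf (nat_lit 592528) (.g (nat_lit 8193) (.e (nat_lit 532550) (nat_lit 12) (.e (nat_lit 360475) (nat_lit 8) (.e (nat_lit 557091) (nat_lit 12) (.e (nat_lit 164022) (nat_lit 46) (.e (nat_lit 704629) (nat_lit 9) (.e (nat_lit 442) (nat_lit 33) (.e (nat_lit 434234) (nat_lit 23) .nil))))))) (.g (nat_lit 1) (.e (nat_lit 402401) (nat_lit 0) .nil) .nil)))) (.nd (nat_lit 9) 
(.lf (nat_lit 592272) (.g (nat_lit 4110) (.e (nat_lit 532550) (nat_lit 12) (.e (nat_lit 360474) (nat_lit 8) (.e (nat_lit 557093) (nat_lit 12) (.e (nat_lit 164022) (nat_lit 46) (.e (nat_lit 704737) (nat_lit 11) (.e (nat_lit 16397) (nat_lit 0) (.e (nat_lit 3230) (nat_lit 197) .nil))))))) (.g (nat_lit 1) (.e (nat_lit 402122) (nat_lit 0) .nil) .nil))) 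
(.lf (nat_lit 592784) (.g (nat_lit 1868) (.e (nat_lit 532560) (nat_lit 14) (.e (nat_lit 376868) (nat_lit 23) (.e (nat_lit 98350) (nat_lit 24) (.e (nat_lit 409617) (nat_lit 10) (.e (nat_lit 5756) (nat_lit 315) .nil))))) (.g (nat_lit 0) (.e (nat_lit 402927) (nat_lit 0) .nil) .nil)))))) (.nd (nat_lit 7) (.nd (nat_lit 8) (.nd (nat_lit 9) 
(.lf (nat_lit 591952) (.g (nat_lit 3049) (.e (nat_lit 532547) (nat_lit 11) (.e (nat_lit 352315) (nat_lit 23) (.e (nat_lit 98350) (nat_lit 24) (.e (nat_lit 409648) (nat_lit 18) (.e (nat_lit 303108) (nat_lit 0) (.e (nat_lit 3254) (nat_lit 197) .nil)))))) (.g (nat_lit 1) (.e (nat_lit 401561) (nat_lit 0) .nil) .nil))) 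
(.lf (nat_lit 592464) (.g (nat_lit 4122) (.e (nat_lit 532550) (nat_lit 12) (.e (nat_lit 360475) (nat_lit 8) (.e (nat_lit 557086) (nat_lit 11) (.e (nat_lit 24665) (nat_lit 14) (.e (nat_lit 401418) (nat_lit 0) (.e (nat_lit 3249) (nat_lit 197) .nil)))))) (.g (nat_lit 1) (.e (nat_lit 402334) (nat_lit 0) .nil) .nil)))) (.nd (nat_lit 9) 
(.lf (nat_lit 592208) (.g (nat_lit 1530) (.e (nat_lit 532550) (nat_lit 12) (.e (nat_lit 360474) (nat_lit 8) (.e (nat_lit 557086) (nat_lit 11) (.e (nat_lit 24665) (nat_lit 14) .nil)))) (.g (nat_lit 0) (.e (nat_lit 402058) (nat_lit 0) .nil) .nil))) 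
(.lf (nat_lit 592720) (.g (nat_lit 3254) (.e (nat_lit 532558) (nat_lit 14) (.e (nat_lit 376868) (nat_lit 23) (.e (nat_lit 98350) (nat_lit 24) (.e (nat_lit 409648) (nat_lit 18) (.e (nat_lit 303112) (nat_lit 0) (.e (nat_lit 3252) (nat_lit 197) .nil)))))) (.g (nat_lit 1) (.e (nat_lit 402734) (nat_lit 0) .nil) .nil))))) (.nd (nat_lit 8) (.nd (nat_lit 9) 
(.lf (nat_lit 592080) (.g (nat_lit 4818) (.e (nat_lit 532549) (nat_lit 12) (.e (nat_lit 360473) (nat_lit 8) (.e (nat_lit 557094) (nat_lit 12) (.e (nat_lit 164022) (nat_lit 46) (.e (nat_lit 704629) (nat_lit 9) (.e (nat_lit 442) (nat_lit 33) (.e (nat_lit 434232) (nat_lit 23) .nil))))))) (.g (nat_lit 1) (.e (nat_lit 401778) (nat_lit 0) .nil) .nil))) 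
(.lf (nat_lit 592592) (.g (nat_lit 5063) (.e (nat_lit 532550) (nat_lit 12) (.e (nat_lit 360475) (nat_lit 8) (.e (nat_lit 557091) (nat_lit 12) (.e (nat_lit 164022) (nat_lit 46) (.e (nat_lit 704738) (nat_lit 11) (.e (nat_lit 16384) (nat_lit 0) (.e (nat_lit 3248) (nat_lit 197) .nil))))))) (.g (nat_lit 1) (.e (nat_lit 402466) (nat_lit 0) .nil) .nil)))) (.nd (nat_lit 9) 
(.lf (nat_lit 592336) (.g (nat_lit 2251) (.e (nat_lit 532550) (nat_lit 12) (.e (nat_lit 360474) (nat_lit 8) (.e (nat_lit 557093) (nat_lit 12) (.e (nat_lit 164023) (nat_lit 46) (.e (nat_lit 704736) (nat_lit 11) .nil))))) (.g (nat_lit 0) (.e (nat_lit 402186) (nat_lit 0) .nil) .nil))) 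
(.lf (nat_lit 592848) (.g (nat_lit 3469) (.e (nat_lit 532563) (nat_lit 15) (.e (nat_lit 385066) (nat_lit 26) (.e (nat_lit 532530) (nat_lit 9) (.e (nat_lit 336324) (nat_lit 18) (.e (nat_lit 204882) (nat_lit 32) (.e (nat_lit 385067) (nat_lit 26) .nil)))))) (.g (nat_lit 1) (.e (nat_lit 403057) (nat_lit 0) .nil) .nil))))))) (.nd (nat_lit 6) (.nd (nat_lit 7) (.nd (nat_lit 8) (.nd (nat_lit 9) 
(.lf (nat_lit 591920) (.g (nat_lit 318) (.e (nat_lit 532547) (nat_lit 11) (.e (nat_lit 352315) (nat_lit 23) (.e (nat_lit 98349) (nat_lit 24) .nil))) (.g (nat_lit 0) (.e (nat_lit 401518) (nat_lit 0) .nil) .nil))) 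
(.lf (nat_lit 592432) (.g (nat_lit 3965) (.e (nat_lit 532550) (nat_lit 12) (.e (nat_lit 360474) (nat_lit 8) (.e (nat_lit 557094) (nat_lit 12) (.e (nat_lit 164022) (nat_lit 46) (.e (nat_lit 704738) (nat_lit 11) (.e (nat_lit 16399) (nat_lit 0) (.e (nat_lit 7936) (nat_lit 197) .nil))))))) (.g (nat_lit 1) (.e (nat_lit 402282) (nat_lit 0) .nil) .nil)))) (.nd (nat_lit 9) 
(.lf (nat_lit 592176) (.g (nat_lit 4197) (.e (nat_lit 532550) (nat_lit 12) (.e (nat_lit 360473) (nat_lit 8) (.e (nat_lit 557087) (nat_lit 11) (.e (nat_lit 24617) (nat_lit 7) (.e (nat_lit 319504) (nat_lit 10) (.e (nat_lit 7936) (nat_lit 45) .nil)))))) (.g (nat_lit 1) (.e (nat_lit 402002) (nat_lit 0) .nil) .nil))) 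
(.lf (nat_lit 592688) (.g (nat_lit 2247) (.e (nat_lit 532554) (nat_lit 13) (.e (nat_lit 368676) (nat_lit 21) (.e (nat_lit 516131) (nat_lit 3) (.e (nat_lit 221212) (nat_lit 22) (.e (nat_lit 196610) (nat_lit 0) (.e (nat_lit 3067) (nat_lit 190) (.e (nat_lit 483072) (nat_lit 26) .nil))))))) (.g (nat_lit 1) (.e (nat_lit 402613) (nat_lit 0) .nil) .nil))))) (.nd (nat_lit 8) (.nd (nat_lit 9) 
(.lf (nat_lit 592048) (.g (nat_lit 3803) (.e (nat_lit 532549) (nat_lit 12) (.e (nat_lit 360473) (nat_lit 8) (.e (nat_lit 557087) (nat_lit 11) (.e (nat_lit 24665) (nat_lit 14) (.e (nat_lit 401417) (nat_lit 0) .nil))))) (.g (nat_lit 0) (.e (nat_lit 401738) (nat_lit 0) .nil) .nil))) 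
(.lf (nat_lit 592560) (.g (nat_lit 1470) (.e (nat_lit 532550) (nat_lit 12) (.e (nat_lit 360475) (nat_lit 8) (.e (nat_lit 557091) (nat_lit 12) (.e (nat_lit 164022) (nat_lit 46) (.e (nat_lit 704737) (nat_lit 11) .nil))))) (.g (nat_lit 0) (.e (nat_lit 402434) (nat_lit 0) .nil) .nil)))) (.nd (nat_lit 9) 
(.lf (nat_lit 592304) (.g (nat_lit 4760) (.e (nat_lit 532550) (nat_lit 12) (.e (nat_lit 360474) (nat_lit 8) (.e (nat_lit 557093) (nat_lit 12) (.e (nat_lit 164022) (nat_lit 46) (.e (nat_lit 704738) (nat_lit 11) (.e (nat_lit 16390) (nat_lit 0) (.e (nat_lit 3241) (nat_lit 197) .nil))))))) (.g (nat_lit 1) (.e (nat_lit 402154) (nat_lit 0) .nil) .nil))) 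
(.lf (nat_lit 592816) (.g (nat_lit 2373) (.e (nat_lit 532560) (nat_lit 14) (.e (nat_lit 376869) (nat_lit 23) (.e (nat_lit 98350) (nat_lit 24) (.e (nat_lit 409649) (nat_lit 18) (.e (nat_lit 303111) (nat_lit 0) (.e (nat_lit 3254) (nat_lit 197) .nil)))))) (.g (nat_lit 1) (.e (nat_lit 402966) (nat_lit 0) .nil) .nil)))))) (.nd (nat_lit 7) (.nd (nat_lit 8) (.nd (nat_lit 9) 
(.lf (nat_lit 591984) (.g (nat_lit 2035) (.e (nat_lit 532549) (nat_lit 12) (.e (nat_lit 360466) (nat_lit 3) (.e (nat_lit 516139) (nat_lit 7) (.e (nat_lit 409625) (nat_lit 10) .nil)))) (.g (nat_lit 0) (.e (nat_lit 401652) (nat_lit 0) .nil) .nil))) 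
(.lf (nat_lit 592496) (.g (nat_lit 4885) (.e (nat_lit 532550) (nat_lit 12) (.e (nat_lit 360475) (nat_lit 8) (.e (nat_lit 557089) (nat_lit 12) (.e (nat_lit 163849) (nat_lit 0) (.e (nat_lit 6420) (nat_lit 341) (.e (nat_lit 163902) (nat_lit 12) (.e (nat_lit 426091) (nat_lit 0) (.e (nat_lit 3238) (nat_lit 197) .nil)))))))) (.g (nat_lit 1) (.e (nat_lit 402366) (nat_lit 0) .nil) .nil)))) 
(.nd (nat_lit 9) 
(.lf (nat_lit 592240) (.g (nat_lit 1909) (.e (nat_lit 532550) (nat_lit 12) (.e (nat_lit 360474) (nat_lit 8) (.e (nat_lit 557093) (nat_lit 12) (.e (nat_lit 164022) (nat_lit 46) (.e (nat_lit 704736) (nat_lit 11) (.e (nat_lit 16386) (nat_lit 0) (.e (nat_lit 7936) (nat_lit 197) .nil))))))) (.g (nat_lit 1) (.e (nat_lit 402090) (nat_lit 0) .nil) .nil))) 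
(.lf (nat_lit 592752) (.g (nat_lit 1442) (.e (nat_lit 532559) (nat_lit 14) (.e (nat_lit 376869) (nat_lit 23) (.e (nat_lit 98350) (nat_lit 24) (.e (nat_lit 409614) (nat_lit 10) .nil)))) (.g (nat_lit 0) (.e (nat_lit 402812) (nat_lit 0) .nil) .nil))))) (.nd (nat_lit 8) (.nd (nat_lit 9) 
(.lf (nat_lit 592112) (.g (nat_lit 5592) (.e (nat_lit 532549) (nat_lit 12) (.e (nat_lit 360475) (nat_lit 8) (.e (nat_lit 557091) (nat_lit 12) (.e (nat_lit 164022) (nat_lit 46) (.e (nat_lit 704629) (nat_lit 9) (.e (nat_lit 442) (nat_lit 33) (.e (nat_lit 434232) (nat_lit 23) .nil))))))) (.g (nat_lit 1) (.e (nat_lit 401819) (nat_lit 0) .nil) .nil))) 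
(.lf (nat_lit 592624) (.g (nat_lit 5616) (.e (nat_lit 532550) (nat_lit 12) (.e (nat_lit 360475) (nat_lit 8) (.e (nat_lit 557091) (nat_lit 12) (.e (nat_lit 164022) (nat_lit 46) (.e (nat_lit 704738) (nat_lit 11) (.e (nat_lit 16402) (nat_lit 0) (.e (nat_lit 3253) (nat_lit 197) .nil))))))) (.g (nat_lit 1) (.e (nat_lit 402498) (nat_lit 0) .nil) .nil)))) (.nd (nat_lit 9) 
(.lf (nat_lit 592368) (.g (nat_lit 2371) (.e (nat_lit 532550) (nat_lit 12) (.e (nat_lit 360474) (nat_lit 8) (.e (nat_lit 557094) (nat_lit 12) (.e (nat_lit 164022) (nat_lit 46) (.e (nat_lit 704735) (nat_lit 11) (.e (nat_lit 16388) (nat_lit 0) (.e (nat_lit 7936) (nat_lit 197) .nil))))))) (.g (nat_lit 1) (.e (nat_lit 402218) (nat_lit 0) .nil) .nil))) 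
(.lf (nat_lit 592880) (.g (nat_lit 2530) (.e (nat_lit 532563) (nat_lit 15) (.e (nat_lit 385066) (nat_lit 26) (.e (nat_lit 532553) (nat_lit 13) (.e (nat_lit 368676) (nat_lit 21) (.e (nat_lit 516115) (nat_lit 1) (.e (nat_lit 164243) (nat_lit 195) (.e (nat_lit 2611) (nat_lit 163) (.e (nat_lit 163963) (nat_lit 25) .nil)))))))) (.g (nat_lit 1) (.e (nat_lit 403097) (nat_lit 0) .nil) .nil))))))))) 
(.nd (nat_lit 4) (.nd (nat_lit 5) (.nd (nat_lit 6) (.nd (nat_lit 7) (.nd (nat_lit 8) 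
(.nd (nat_lit 9) 
(.lf (nat_lit 591880) (.g (nat_lit 2423) (.e (nat_lit 532546) (nat_lit 11) (.e (nat_lit 352315) (nat_lit 23) (.e (nat_lit 98350) (nat_lit 24) (.e (nat_lit 409646) (nat_lit 18) (.e (nat_lit 303112) (nat_lit 0) .nil))))) (.g (nat_lit 0) (.e (nat_lit 401388) (nat_lit 0) .nil) .nil))) 
(.lf (nat_lit 592392) (.g (nat_lit 3283) (.e (nat_lit 532550) (nat_lit 12) (.e (nat_lit 360474) (nat_lit 8) (.e (nat_lit 557094) (nat_lit 12) (.e (nat_lit 164022) (nat_lit 46) (.e (nat_lit 704737) (nat_lit 11) (.e (nat_lit 16388) (nat_lit 0) (.e (nat_lit 7936) (nat_lit 197) .nil))))))) (.g (nat_lit 1) (.e (nat_lit 402242) (nat_lit 0) .nil) .nil)))) (.nd (nat_lit 9) 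
(.lf (nat_lit 592136) (.g (nat_lit 4637) (.e (nat_lit 532550) (nat_lit 12) (.e (nat_lit 360467) (nat_lit 3) (.e (nat_lit 516138) (nat_lit 7) (.e (nat_lit 409646) (nat_lit 18) (.e (nat_lit 303112) (nat_lit 0) (.e (nat_lit 3252) (nat_lit 197) .nil)))))) (.g (nat_lit 1) (.e (nat_lit 401932) (nat_lit 0) .nil) .nil))) 
(.lf (nat_lit 592648) (.g (nat_lit 1581) (.e (nat_lit 532551) (nat_lit 12) (.e (nat_lit 360467) (nat_lit 3) (.e (nat_lit 516139) (nat_lit 7) (.e (nat_lit 409647) (nat_lit 18) .nil)))) (.g (nat_lit 0) (.e (nat_lit 402540) (nat_lit 0) .nil) .nil))))) (.nd (nat_lit 8) (.nd (nat_lit 9) 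
(.lf (nat_lit 592008) (.g (nat_lit 2198) (.e (nat_lit 532549) (nat_lit 12) (.e (nat_lit 360468) (nat_lit 3) (.e (nat_lit 516139) (nat_lit 7) (.e (nat_lit 409616) (nat_lit 10) (.e (nat_lit 5756) (nat_lit 315) .nil))))) (.g (nat_lit 0) (.e (nat_lit 401684) (nat_lit 0) .nil) .nil))) 
(.lf (nat_lit 592520) (.g (nat_lit 2476) (.e (nat_lit 532550) (nat_lit 12) (.e (nat_lit 360475) (nat_lit 8) (.e (nat_lit 557091) (nat_lit 12) (.e (nat_lit 164019) (nat_lit 45) (.e (nat_lit 696345) (nat_lit 9) (.e (nat_lit 188160) (nat_lit 5) .nil)))))) (.g (nat_lit 1) (.e (nat_lit 402393) (nat_lit 0) .nil) .nil)))) (.nd (nat_lit 9) 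
(.lf (nat_lit 592264) (.g (nat_lit 3669) (.e (nat_lit 532550) (nat_lit 12) (.e (nat_lit 360474) (nat_lit 8) (.e (nat_lit 557093) (nat_lit 12) (.e (nat_lit 164022) (nat_lit 46) (.e (nat_lit 704737) (nat_lit 11) (.e (nat_lit 16388) (nat_lit 0) (.e (nat_lit 7936) (nat_lit 197) .nil))))))) (.g (nat_lit 1) (.e (nat_lit 402114) (nat_lit 0) .nil) .nil))) 
(.lf (nat_lit 592776) (.g (nat_lit 1491) (.e (nat_lit 532560) (nat_lit 14) (.e (nat_lit 376867) (nat_lit 23) (.e (nat_lit 98350) (nat_lit 24) (.e (nat_lit 409616) (nat_lit 10) .nil)))) (.g (nat_lit 0) (.e (nat_lit 402919) (nat_lit 0) .nil) .nil)))))) (.nd (nat_lit 7) (.nd (nat_lit 8) (.nd (nat_lit 9) 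
(.lf (nat_lit 591944) (.g (nat_lit 2439) (.e (nat_lit 532547) (nat_lit 11) (.e (nat_lit 352315) (nat_lit 23) (.e (nat_lit 98350) (nat_lit 24) (.e (nat_lit 409623) (nat_lit 10) (.e (nat_lit 5756) (nat_lit 315) .nil))))) (.g (nat_lit 0) (.e (nat_lit 401551) (nat_lit 0) .nil) .nil))) 
(.lf (nat_lit 592456) (.g (nat_lit 3136) (.e (nat_lit 532550) (nat_lit 12) (.e (nat_lit 360475) (nat_lit 8) (.e (nat_lit 557086) (nat_lit 11) (.e (nat_lit 24664) (nat_lit 14) (.e (nat_lit 401418) (nat_lit 0) (.e (nat_lit 3249) (nat_lit 197) .nil)))))) (.g (nat_lit 1) (.e (nat_lit 402326) (nat_lit 0) .nil) .nil)))) (.nd (nat_lit 9) 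
(.lf (nat_lit 592200) (.g (nat_lit 2786) (.e (nat_lit 532550) (nat_lit 12) (.e (nat_lit 360474) (nat_lit 8) (.e (nat_lit 557085) (nat_lit 11) (.e (nat_lit 24665) (nat_lit 14) (.e (nat_lit 401413) (nat_lit 0) (.e (nat_lit 7936) (nat_lit 197) .nil)))))) (.g (nat_lit 1) (.e (nat_lit 402050) (nat_lit 0) .nil) .nil))) 
(.lf (nat_lit 592712) (.g (nat_lit 2601) (.e (nat_lit 532558) (nat_lit 14) (.e (nat_lit 376868) (nat_lit 23) (.e (nat_lit 98350) (nat_lit 24) (.e (nat_lit 409616) (nat_lit 10) (.e (nat_lit 5762) (nat_lit 315) (.e (nat_lit 163962) (nat_lit 25) .nil)))))) (.g (nat_lit 1) (.e (nat_lit 402724) (nat_lit 0) .nil) .nil))))) (.nd (nat_lit 8) (.nd (nat_lit 9) 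
(.lf (nat_lit 592072) (.g (nat_lit 1169) (.e (nat_lit 532549) (nat_lit 12) (.e (nat_lit 360473) (nat_lit 8) (.e (nat_lit 557093) (nat_lit 12) (.e (nat_lit 164022) (nat_lit 46) (.e (nat_lit 704738) (nat_lit 11) .nil))))) (.g (nat_lit 0) (.e (nat_lit 401770) (nat_lit 0) .nil) .nil))) 
(.lf (nat_lit 592584) (.g (nat_lit 4292) (.e (nat_lit 532550) (nat_lit 12) (.e (nat_lit 360475) (nat_lit 8) (.e (nat_lit 557091) (nat_lit 12) (.e (nat_lit 164022) (nat_lit 46) (.e (nat_lit 704737) (nat_lit 11) (.e (nat_lit 16400) (nat_lit 0) (.e (nat_lit 3252) (nat_lit 197) .nil))))))) (.g (nat_lit 1) (.e (nat_lit 402458) (nat_lit 0) .nil) .nil)))) (.nd (nat_lit 9) 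
(.lf (nat_lit 592328) (.g (nat_lit 3886) (.e (nat_lit 532550) (nat_lit 12) (.e (nat_lit 360474) (nat_lit 8) (.e (nat_lit 557093) (nat_lit 12) (.e (nat_lit 164023) (nat_lit 46) (.e (nat_lit 704735) (nat_lit 11) (.e (nat_lit 16388) (nat_lit 0) (.e (nat_lit 3229) (nat_lit 197) .nil))))))) (.g (nat_lit 1) (.e (nat_lit 402178) (nat_lit 0) .nil) .nil))) 
(.lf (nat_lit 592840) (.g (nat_lit 1949) (.e (nat_lit 532562) (nat_lit 15) (.e (nat_lit 385093) (nat_lit 49) (.e (nat_lit 778317) (nat_lit 3) (.e (nat_lit 57480) (nat_lit 28) (.e (nat_lit 557067) (nat_lit 9) .nil))))) (.g (nat_lit 0) (.e (nat_lit 403032) (nat_lit 0) .nil) .nil))))))) (.nd (nat_lit 6) (.nd (nat_lit 7) (.nd (nat_lit 8) (.nd (nat_lit 9) 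
(.lf (nat_lit 591912) (.g (nat_lit 1109) (.e (nat_lit 532547) (nat_lit 11) (.e (nat_lit 352313) (nat_lit 23) (.e (nat_lit 98350) (nat_lit 24) (.e (nat_lit 409649) (nat_lit 18) .nil)))) (.g (nat_lit 0) (.e (nat_lit 401496) (nat_lit 0) .nil) .nil))) 
(.lf (nat_lit 592424) (.g (nat_lit 5000) (.e (nat_lit 532550) (nat_lit 12) (.e (nat_lit 360474) (nat_lit 8) (.e (nat_lit 557094) (nat_lit 12) (.e (nat_lit 164022) (nat_lit 46) (.e (nat_lit 704738) (nat_lit 11) (.e (nat_lit 16397) (nat_lit 0) (.e (nat_lit 3255) (nat_lit 197) .nil))))))) (.g (nat_lit 1) (.e (nat_lit 402274) (nat_lit 0) .nil) .nil)))) (.nd (nat_lit 9) 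
(.lf (nat_lit 592168) (.g (nat_lit 4230) (.e (nat_lit 532550) (nat_lit 12) (.e (nat_lit 360472) (nat_lit 8) (.e (nat_lit 557087) (nat_lit 11) (.e (nat_lit 24617) (nat_lit 7) (.e (nat_lit 319505) (nat_lit 10) (.e (nat_lit 7936) (nat_lit 45) .nil)))))) (.g (nat_lit 1) (.e (nat_lit 401994) (nat_lit 0) .nil) .nil))) 
(.lf (nat_lit 592680) (.g (nat_lit 1766) (.e (nat_lit 532553) (nat_lit 13) (.e (nat_lit 368676) (nat_lit 21) (.e (nat_lit 516131) (nat_lit 3) (.e (nat_lit 221212) (nat_lit 22) (.e (nat_lit 196658) (nat_lit 12) .nil))))) (.g (nat_lit 0) (.e (nat_lit 402592) (nat_lit 0) .nil) .nil))))) (.nd (nat_lit 8) (.nd (nat_lit 9) 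
(.lf (nat_lit 592040) (.g (nat_lit 2556) (.e (nat_lit 532549) (nat_lit 12) (.e (nat_lit 360473) (nat_lit 8) (.e (nat_lit 557087) (nat_lit 11) (.e (nat_lit 24595) (nat_lit 0) (.e (nat_lit 7936) (nat_lit 360) .nil))))) (.g (nat_lit 0) (.e (nat_lit 401730) (nat_lit 0) .nil) .nil))) 
(.lf (nat_lit 592552) (.g (nat_lit 5381) (.e (nat_lit 532550) (nat_lit 12) (.e (nat_lit 360475) (nat_lit 8) (.e (nat_lit 557091) (nat_lit 12) (.e (nat_lit 164022) (nat_lit 46) (.e (nat_lit 704736) (nat_lit 11) (.e (nat_lit 16389) (nat_lit 0) (.e (nat_lit 3241) (nat_lit 197) .nil))))))) (.g (nat_lit 1) (.e (nat_lit 402426) (nat_lit 0) .nil) .nil)))) (.nd (nat_lit 9) 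
(.lf (nat_lit 592296) (.g (nat_lit 5258) (.e (nat_lit 532550) (nat_lit 12) (.e (nat_lit 360474) (nat_lit 8) (.e (nat_lit 557093) (nat_lit 12) (.e (nat_lit 164022) (nat_lit 46) (.e (nat_lit 704738) (nat_lit 11) (.e (nat_lit 16389) (nat_lit 0) (.e (nat_lit 3241) (nat_lit 197) .nil))))))) (.g (nat_lit 1) (.e (nat_lit 402146) (nat_lit 0) .nil) .nil))) 
(.lf (nat_lit 592808) (.g (nat_lit 2364) (.e (nat_lit 532560) (nat_lit 14) (.e (nat_lit 376869) (nat_lit 23) (.e (nat_lit 98350) (nat_lit 24) (.e (nat_lit 409617) (nat_lit 10) (.e (nat_lit 7936) (nat_lit 315) .nil))))) (.g (nat_lit 0) (.e (nat_lit 402957) (nat_lit 0) .nil) .nil)))))) (.nd (nat_lit 7) (.nd (nat_lit 8) (.nd (nat_lit 9) 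
(.lf (nat_lit 591976) (.g (nat_lit 2903) (.e (nat_lit 532549) (nat_lit 12) (.e (nat_lit 360466) (nat_lit 3) (.e (nat_lit 516138) (nat_lit 7) (.e (nat_lit 409649) (nat_lit 18) (.e (nat_lit 303111) (nat_lit 0) (.e (nat_lit 3238) (nat_lit 197) .nil)))))) (.g (nat_lit 1) (.e (nat_lit 401644) (nat_lit 0) .nil) .nil))) 
(.lf (nat_lit 592488) (.g (nat_lit 3933) (.e (nat_lit 532550) (nat_lit 12) (.e (nat_lit 360475) (nat_lit 8) (.e (nat_lit 557087) (nat_lit 11) (.e (nat_lit 24665) (nat_lit 14) (.e (nat_lit 401418) (nat_lit 0) (.e (nat_lit 3249) (nat_lit 197) .nil)))))) (.g (nat_lit 1) (.e (nat_lit 402358) (nat_lit 0) .nil) .nil)))) (.nd (nat_lit 9) 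
(.lf (nat_lit 592232) (.g (nat_lit 5236) (.e (nat_lit 532550) (nat_lit 12) (.e (nat_lit 360474) (nat_lit 8) (.e (nat_lit 557093) (nat_lit 12) (.e (nat_lit 164022) (nat_lit 46) (.e (nat_lit 704629) (nat_lit 9) (.e (nat_lit 473) (nat_lit 36) (.e (nat_lit 458790) (nat_lit 23) .nil))))))) (.g (nat_lit 1) (.e (nat_lit 402082) (nat_lit 0) .nil) .nil))) 
(.lf (nat_lit 592744) (.g (nat_lit 2104) (.e (nat_lit 532559) (nat_lit 14) (.e (nat_lit 376868) (nat_lit 23) (.e (nat_lit 98350) (nat_lit 24) (.e (nat_lit 409648) (nat_lit 18) (.e (nat_lit 303104) (nat_lit 0) (.e (nat_lit 3238) (nat_lit 197) .nil)))))) (.g (nat_lit 1) (.e (nat_lit 402802) (nat_lit 0) .nil) .nil))))) (.nd (nat_lit 8) (.nd (nat_lit 9) 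
(.lf (nat_lit 592104) (.g (nat_lit 3851) (.e (nat_lit 532549) (nat_lit 12) (.e (nat_lit 360475) (nat_lit 8) (.e (nat_lit 557087) (nat_lit 11) (.e (nat_lit 24665) (nat_lit 14) (.e (nat_lit 401418) (nat_lit 0) (.e (nat_lit 3249) (nat_lit 197) .nil)))))) (.g (nat_lit 1) (.e (nat_lit 401808) (nat_lit 0) .nil) .nil))) 
(.lf (nat_lit 592616) (.g (nat_lit 4729) (.e (nat_lit 532550) (nat_lit 12) (.e (nat_lit 360475) (nat_lit 8) (.e (nat_lit 557091) (nat_lit 12) (.e (nat_lit 164022) (nat_lit 46) (.e (nat_lit 704738) (nat_lit 11) (.e (nat_lit 16398) (nat_lit 0) (.e (nat_lit 3252) (nat_lit 197) .nil))))))) (.g (nat_lit 1) (.e (nat_lit 402490) (nat_lit 0) .nil) .nil)))) (.nd (nat_lit 9) 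
(.lf (nat_lit 592360) (.g (nat_lit 7834) (.e (nat_lit 532550) (nat_lit 12) (.e (nat_lit 360474) (nat_lit 8) (.e (nat_lit 557094) (nat_lit 12) (.e (nat_lit 164022) (nat_lit 46) (.e (nat_lit 704629) (nat_lit 9) (.e (nat_lit 442) (nat_lit 33) (.e (nat_lit 434232) (nat_lit 23) .nil))))))) (.g (nat_lit 1) (.e (nat_lit 402210) (nat_lit 0) .nil) .nil))) 
(.lf (nat_lit 592872) (.g (nat_lit 3772) (.e (nat_lit 532563) (nat_lit 15) (.e (nat_lit 385066) (nat_lit 26) (.e (nat_lit 532534) (nat_lit 9) (.e (nat_lit 336324) (nat_lit 18) (.e (nat_lit 204854) (nat_lit 26) (.e (nat_lit 336284) (nat_lit 15) (.e (nat_lit 3249) (nat_lit 197) .nil))))))) (.g (nat_lit 1) (.e (nat_lit 403088) (nat_lit 0) .nil) .nil)))))))) 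
(.nd (nat_lit 5) (.nd (nat_lit 6) (.nd (nat_lit 7) (.nd (nat_lit 8) (.nd (nat_lit 9) 
(.lf (nat_lit 591896) (.g (nat_lit 3931) (.e (nat_lit 532547) (nat_lit 11) (.e (nat_lit 352303) (nat_lit 20) (.e (nat_lit 1848) (nat_lit 124) (.e (nat_lit 557087) (nat_lit 11) (.e (nat_lit 24617) (nat_lit 7) (.e (nat_lit 319504) (nat_lit 10) (.e (nat_lit 7936) (nat_lit 45) .nil))))))) (.g (nat_lit 1) (.e (nat_lit 401444) (nat_lit 0) .nil) .nil))) 
(.lf (nat_lit 592408) (.g (nat_lit 3484) (.e (nat_lit 532550) (nat_lit 12) (.e (nat_lit 360474) (nat_lit 8) (.e (nat_lit 557094) (nat_lit 12) (.e (nat_lit 164022) (nat_lit 46) (.e (nat_lit 704738) (nat_lit 11) (.e (nat_lit 16385) (nat_lit 0) (.e (nat_lit 3230) (nat_lit 197) .nil))))))) (.g (nat_lit 1) (.e (nat_lit 402258) (nat_lit 0) .nil) .nil)))) (.nd (nat_lit 9) 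
(.lf (nat_lit 592152) (.g (nat_lit 2422) (.e (nat_lit 532550) (nat_lit 12) (.e (nat_lit 360468) (nat_lit 3) (.e (nat_lit 516139) (nat_lit 7) (.e (nat_lit 409616) (nat_lit 10) (.e (nat_lit 5763) (nat_lit 315) (.e (nat_lit 163962) (nat_lit 25) .nil)))))) (.g (nat_lit 1) (.e (nat_lit 401965) (nat_lit 0) .nil) .nil))) 
(.lf (nat_lit 592664) (.g (nat_lit 909) (.e (nat_lit 532553) (nat_lit 13) (.e (nat_lit 368676) (nat_lit 21) (.e (nat_lit 516097) (nat_lit 0) .nil))) (.g (nat_lit 0) (.e (nat_lit 402575) (nat_lit 0) .nil) .nil))))) (.nd (nat_lit 8) (.nd (nat_lit 9) 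
(.lf (nat_lit 592024) (.g (nat_lit 2361) (.e (nat_lit 532549) (nat_lit 12) (.e (nat_lit 360473) (nat_lit 8) (.e (nat_lit 557086) (nat_lit 11) (.e (nat_lit 24664) (nat_lit 14) (.e (nat_lit 401418) (nat_lit 0) (.e (nat_lit 3249) (nat_lit 197) .nil)))))) (.g (nat_lit 1) (.e (nat_lit 401712) (nat_lit 0) .nil) .nil))) 
(.lf (nat_lit 592536) (.g (nat_lit 4875) (.e (nat_lit 532550) (nat_lit 12) (.e (nat_lit 360475) (nat_lit 8) (.e (nat_lit 557091) (nat_lit 12) (.e (nat_lit 164022) (nat_lit 46) (.e (nat_lit 704629) (nat_lit 9) (.e (nat_lit 475) (nat_lit 36) (.e (nat_lit 458787) (nat_lit 23) .nil))))))) (.g (nat_lit 1) (.e (nat_lit 402409) (nat_lit 0) .nil) .nil)))) (.nd (nat_lit 9) 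
(.lf (nat_lit 592280) (.g (nat_lit 4885) (.e (nat_lit 532550) (nat_lit 12) (.e (nat_lit 360474) (nat_lit 8) (.e (nat_lit 557093) (nat_lit 12) (.e (nat_lit 164022) (nat_lit 46) (.e (nat_lit 704738) (nat_lit 11) (.e (nat_lit 16384) (nat_lit 0) (.e (nat_lit 3243) (nat_lit 197) .nil))))))) (.g (nat_lit 1) (.e (nat_lit 402130) (nat_lit 0) .nil) .nil))) 
(.lf (nat_lit 592792) (.g (nat_lit 3224) (.e (nat_lit 532560) (nat_lit 14) (.e (nat_lit 376868) (nat_lit 23) (.e (nat_lit 98350) (nat_lit 24) (.e (nat_lit 409648) (nat_lit 18) (.e (nat_lit 303112) (nat_lit 0) (.e (nat_lit 3252) (nat_lit 197) .nil)))))) (.g (nat_lit 1) (.e (nat_lit 402935) (nat_lit 0) .nil) .nil)))))) (.nd (nat_lit 7) (.nd (nat_lit 8) (.nd (nat_lit 9) 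
(.lf (nat_lit 591960) (.g (nat_lit 892) (.e (nat_lit 532548) (nat_lit 11) (.e (nat_lit 352277) (nat_lit 11) (.e (nat_lit 433920) (nat_lit 35) (.e (nat_lit 401454) (nat_lit 12) (.e (nat_lit 483072) (nat_lit 26) .nil))))) (.g (nat_lit 0) (.e (nat_lit 401615) (nat_lit 0) .nil) .nil))) 
(.lf (nat_lit 592472) (.g (nat_lit 1628) (.e (nat_lit 532550) (nat_lit 12) (.e (nat_lit 360475) (nat_lit 8) (.e (nat_lit 557087) (nat_lit 11) (.e (nat_lit 24585) (nat_lit 0) .nil)))) (.g (nat_lit 0) (.e (nat_lit 402342) (nat_lit 0) .nil) .nil)))) (.nd (nat_lit 9) 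
(.lf (nat_lit 592216) (.g (nat_lit 2350) (.e (nat_lit 532550) (nat_lit 12) (.e (nat_lit 360474) (nat_lit 8) (.e (nat_lit 557091) (nat_lit 12) (.e (nat_lit 164022) (nat_lit 46) .nil)))) (.g (nat_lit 0) (.e (nat_lit 402066) (nat_lit 0) .nil) .nil))) 
(.lf (nat_lit 592728) (.g (nat_lit 1131) (.e (nat_lit 532559) (nat_lit 14) (.e (nat_lit 376855) (nat_lit 20) (.e (nat_lit 1800) (nat_lit 119) (.e (nat_lit 516139) (nat_lit 7) (.e (nat_lit 409648) (nat_lit 18) .nil))))) (.g (nat_lit 0) (.e (nat_lit 402755) (nat_lit 0) .nil) .nil))))) (.nd (nat_lit 8) (.nd (nat_lit 9) 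
(.lf (nat_lit 592088) (.g (nat_lit 4330) (.e (nat_lit 532549) (nat_lit 12) (.e (nat_lit 360474) (nat_lit 8) (.e (nat_lit 557093) (nat_lit 12) (.e (nat_lit 164022) (nat_lit 46) (.e (nat_lit 704629) (nat_lit 9) (.e (nat_lit 442) (nat_lit 33) (.e (nat_lit 434234) (nat_lit 23) .nil))))))) (.g (nat_lit 1) (.e (nat_lit 401786) (nat_lit 0) .nil) .nil))) 
(.lf (nat_lit 592600) (.g (nat_lit 5194) (.e (nat_lit 532550) (nat_lit 12) (.e (nat_lit 360475) (nat_lit 8) (.e (nat_lit 557091) (nat_lit 12) (.e (nat_lit 164022) (nat_lit 46) (.e (nat_lit 704738) (nat_lit 11) (.e (nat_lit 16386) (nat_lit 0) (.e (nat_lit 3229) (nat_lit 197) .nil))))))) (.g (nat_lit 1) (.e (nat_lit 402474) (nat_lit 0) .nil) .nil)))) (.nd (nat_lit 9) 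
(.lf (nat_lit 592344) (.g (nat_lit 5295) (.e (nat_lit 532550) (nat_lit 12) (.e (nat_lit 360474) (nat_lit 8) (.e (nat_lit 557093) (nat_lit 12) (.e (nat_lit 164023) (nat_lit 46) (.e (nat_lit 704738) (nat_lit 11) (.e (nat_lit 16384) (nat_lit 0) (.e (nat_lit 3237) (nat_lit 197) .nil))))))) (.g (nat_lit 1) (.e (nat_lit 402194) (nat_lit 0) .nil) .nil))) 
(.lf (nat_lit 592856) (.g (nat_lit 3192) (.e (nat_lit 532563) (nat_lit 15) (.e (nat_lit 385066) (nat_lit 26) (.e (nat_lit 532531) (nat_lit 9) (.e (nat_lit 336324) (nat_lit 18) (.e (nat_lit 204854) (nat_lit 26) (.e (nat_lit 336284) (nat_lit 15) (.e (nat_lit 3249) (nat_lit 197) .nil))))))) (.g (nat_lit 1) (.e (nat_lit 403065) (nat_lit 0) .nil) .nil))))))) 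
(.nd (nat_lit 6) (.nd (nat_lit 7) (.nd (nat_lit 8) (.nd (nat_lit 9) 
(.lf (nat_lit 591928) (.g (nat_lit 2368) (.e (nat_lit 532547) (nat_lit 11) (.e (nat_lit 352315) (nat_lit 23) (.e (nat_lit 98349) (nat_lit 24) (.e (nat_lit 409645) (nat_lit 18) (.e (nat_lit 303106) (nat_lit 0) .nil))))) (.g (nat_lit 0) (.e (nat_lit 401530) (nat_lit 0) .nil) .nil))) 
(.lf (nat_lit 592440) (.g (nat_lit 396) (.e (nat_lit 532550) (nat_lit 12) (.e (nat_lit 360475) (nat_lit 8) (.e (nat_lit 557073) (nat_lit 9) .nil))) (.g (nat_lit 0) (.e (nat_lit 402304) (nat_lit 0) .nil) .nil)))) (.nd (nat_lit 9) 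
(.lf (nat_lit 592184) (.g (nat_lit 851) (.e (nat_lit 532550) (nat_lit 12) (.e (nat_lit 360474) (nat_lit 8) (.e (nat_lit 557072) (nat_lit 9) (.e (nat_lit 290) (nat_lit 21) .nil)))) (.g (nat_lit 0) (.e (nat_lit 402013) (nat_lit 0) .nil) .nil))) 
(.lf (nat_lit 592696) (.g (nat_lit 1053) (.e (nat_lit 532555) (nat_lit 13) (.e (nat_lit 368676) (nat_lit 21) (.e (nat_lit 516129) (nat_lit 3) (.e (nat_lit 229120) (nat_lit 3) .nil)))) (.g (nat_lit 0) (.e (nat_lit 402634) (nat_lit 0) .nil) .nil))))) (.nd (nat_lit 8) (.nd (nat_lit 9) 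
(.lf (nat_lit 592056) (.g (nat_lit 3521) (.e (nat_lit 532549) (nat_lit 12) (.e (nat_lit 360473) (nat_lit 8) (.e (nat_lit 557091) (nat_lit 12) (.e (nat_lit 163843) (nat_lit 0) (.e (nat_lit 6254) (nat_lit 337) (.e (nat_lit 2643) (nat_lit 165) (.e (nat_lit 180243) (nat_lit 5) .nil))))))) (.g (nat_lit 1) (.e (nat_lit 401751) (nat_lit 0) .nil) .nil))) 
(.lf (nat_lit 592568) (.g (nat_lit 4486) (.e (nat_lit 532550) (nat_lit 12) (.e (nat_lit 360475) (nat_lit 8) (.e (nat_lit 557091) (nat_lit 12) (.e (nat_lit 164022) (nat_lit 46) (.e (nat_lit 704737) (nat_lit 11) (.e (nat_lit 16386) (nat_lit 0) (.e (nat_lit 3229) (nat_lit 197) .nil))))))) (.g (nat_lit 1) (.e (nat_lit 402442) (nat_lit 0) .nil) .nil)))) (.nd (nat_lit 9) 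
(.lf (nat_lit 592312) (.g (nat_lit 5340) (.e (nat_lit 532550) (nat_lit 12) (.e (nat_lit 360474) (nat_lit 8) (.e (nat_lit 557093) (nat_lit 12) (.e (nat_lit 164022) (nat_lit 46) (.e (nat_lit 704738) (nat_lit 11) (.e (nat_lit 16397) (nat_lit 0) (.e (nat_lit 3255) (nat_lit 197) .nil))))))) (.g (nat_lit 1) (.e (nat_lit 402162) (nat_lit 0) .nil) .nil))) 
(.lf (nat_lit 592824) (.g (nat_lit 2983) (.e (nat_lit 532561) (nat_lit 14) (.e (nat_lit 376865) (nat_lit 22) (.e (nat_lit 90185) (nat_lit 17) (.e (nat_lit 237569) (nat_lit 0) .nil)))) (.g (nat_lit 0) (.e (nat_lit 403016) (nat_lit 0) .nil) .nil)))))) (.nd (nat_lit 7) (.nd (nat_lit 8) (.nd (nat_lit 9) 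
(.lf (nat_lit 591992) (.g (nat_lit 2871) (.e (nat_lit 532549) (nat_lit 12) (.e (nat_lit 360466) (nat_lit 3) (.e (nat_lit 516142) (nat_lit 8) (.e (nat_lit 417815) (nat_lit 10) (.e (nat_lit 5762) (nat_lit 315) (.e (nat_lit 163962) (nat_lit 25) .nil)))))) (.g (nat_lit 1) (.e (nat_lit 401660) (nat_lit 0) .nil) .nil))) 
(.lf (nat_lit 592504) (.g (nat_lit 4185) (.e (nat_lit 532550) (nat_lit 12) (.e (nat_lit 360475) (nat_lit 8) (.e (nat_lit 557089) (nat_lit 12) (.e (nat_lit 164017) (nat_lit 44) (.e (nat_lit 688141) (nat_lit 5) (.e (nat_lit 2961) (nat_lit 185) (.e (nat_lit 434230) (nat_lit 23) .nil))))))) (.g (nat_lit 1) (.e (nat_lit 402374) (nat_lit 0) .nil) .nil)))) (.nd (nat_lit 9) 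
(.lf (nat_lit 592248) (.g (nat_lit 2470) (.e (nat_lit 532550) (nat_lit 12) (.e (nat_lit 360474) (nat_lit 8) (.e (nat_lit 557093) (nat_lit 12) (.e (nat_lit 164022) (nat_lit 46) (.e (nat_lit 704736) (nat_lit 11) (.e (nat_lit 16399) (nat_lit 0) (.e (nat_lit 7936) (nat_lit 197) .nil))))))) (.g (nat_lit 1) (.e (nat_lit 402098) (nat_lit 0) .nil) .nil))) 
(.lf (nat_lit 592760) (.g (nat_lit 2487) (.e (nat_lit 532559) (nat_lit 14) (.e (nat_lit 376869) (nat_lit 23) (.e (nat_lit 98350) (nat_lit 24) (.e (nat_lit 409649) (nat_lit 18) (.e (nat_lit 303104) (nat_lit 0) .nil))))) (.g (nat_lit 0) (.e (nat_lit 402822) (nat_lit 0) .nil) .nil))))) (.nd (nat_lit 8) (.nd (nat_lit 9) 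
(.lf (nat_lit 592120) (.g (nat_lit 5088) (.e (nat_lit 532550) (nat_lit 12) (.e (nat_lit 360465) (nat_lit 3) (.e (nat_lit 516139) (nat_lit 7) (.e (nat_lit 409645) (nat_lit 18) (.e (nat_lit 303112) (nat_lit 0) (.e (nat_lit 3252) (nat_lit 197) .nil)))))) (.g (nat_lit 1) (.e (nat_lit 401904) (nat_lit 0) .nil) .nil))) 
(.lf (nat_lit 592632) (.g (nat_lit 3231) (.e (nat_lit 532550) (nat_lit 12) (.e (nat_lit 368384) (nat_lit 8) (.e (nat_lit 557087) (nat_lit 11) (.e (nat_lit 24617) (nat_lit 7) (.e (nat_lit 319504) (nat_lit 10) (.e (nat_lit 7936) (nat_lit 45) .nil)))))) (.g (nat_lit 1) (.e (nat_lit 402507) (nat_lit 0) .nil) .nil)))) (.nd (nat_lit 9) 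
(.lf (nat_lit 592376) (.g (nat_lit 3677) (.e (nat_lit 532550) (nat_lit 12) (.e (nat_lit 360474) (nat_lit 8) (.e (nat_lit 557094) (nat_lit 12) (.e (nat_lit 164022) (nat_lit 46) (.e (nat_lit 704736) (nat_lit 11) (.e (nat_lit 16389) (nat_lit 0) (.e (nat_lit 3241) (nat_lit 197) .nil))))))) (.g (nat_lit 1) (.e (nat_lit 402226) (nat_lit 0) .nil) .nil))) 
(.lf (nat_lit 592888) (.g (nat_lit 1576) (.e (nat_lit 532563) (nat_lit 15) (.e (nat_lit 385068) (nat_lit 26) (.e (nat_lit 532529) (nat_lit 9) (.e (nat_lit 336324) (nat_lit 18) .nil)))) (.g (nat_lit 0) (.e (nat_lit 403113) (nat_lit 0) .nil) .nil)))))))))) (.nd (nat_lit 3) (.nd (nat_lit 4) (.nd (nat_lit 5) (.nd (nat_lit 6) (.nd (nat_lit 7) (.nd (nat_lit 8) (.nd (nat_lit 9) 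
(.lf (nat_lit 591876) (.g (nat_lit 3099) (.e (nat_lit 532546) (nat_lit 11) (.e (nat_lit 352315) (nat_lit 23) (.e (nat_lit 98350) (nat_lit 24) (.e (nat_lit 409616) (nat_lit 10) (.e (nat_lit 5762) (nat_lit 315) .nil))))) (.g (nat_lit 0) (.e (nat_lit 401383) (nat_lit 0) .nil) .nil))) 
(.lf (nat_lit 592388) (.g (nat_lit 4589) (.e (nat_lit 532550) (nat_lit 12) (.e (nat_lit 360474) (nat_lit 8) (.e (nat_lit 557094) (nat_lit 12) (.e (nat_lit 164022) (nat_lit 46) (.e (nat_lit 704737) (nat_lit 11) (.e (nat_lit 16386) (nat_lit 0) (.e (nat_lit 3227) (nat_lit 197) .nil))))))) (.g (nat_lit 1) (.e (nat_lit 402238) (nat_lit 0) .nil) .nil)))) (.nd (nat_lit 9) 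
(.lf (nat_lit 592132) (.g (nat_lit 3059) (.e (nat_lit 532550) (nat_lit 12) (.e (nat_lit 360466) (nat_lit 3) (.e (nat_lit 516139) (nat_lit 7) (.e (nat_lit 409649) (nat_lit 18) (.e (nat_lit 303104) (nat_lit 0) .nil))))) (.g (nat_lit 0) (.e (nat_lit 401921) (nat_lit 0) .nil) .nil))) 
(.lf (nat_lit 592644) (.g (nat_lit 1696) (.e (nat_lit 532551) (nat_lit 12) (.e (nat_lit 360467) (nat_lit 3) (.e (nat_lit 516139) (nat_lit 7) (.e (nat_lit 417536) (nat_lit 10) .nil)))) (.g (nat_lit 0) (.e (nat_lit 402536) (nat_lit 0) .nil) .nil))))) (.nd (nat_lit 8) (.nd (nat_lit 9) 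
(.lf (nat_lit 592004) (.g (nat_lit 2303) (.e (nat_lit 532549) (nat_lit 12) (.e (nat_lit 360467) (nat_lit 3) (.e (nat_lit 516139) (nat_lit 7) (.e (nat_lit 409648) (nat_lit 18) (.e (nat_lit 303109) (nat_lit 0) .nil))))) (.g (nat_lit 0) (.e (nat_lit 401679) (nat_lit 0) .nil) .nil))) 
(.lf (nat_lit 592516) (.g (nat_lit 3717) (.e (nat_lit 532550) (nat_lit 12) (.e (nat_lit 360475) (nat_lit 8) (.e (nat_lit 557091) (nat_lit 12) (.e (nat_lit 163850) (nat_lit 0) (.e (nat_lit 6425) (nat_lit 342) (.e (nat_lit 229409) (nat_lit 13) (.e (nat_lit 434230) (nat_lit 23) .nil))))))) (.g (nat_lit 1) (.e (nat_lit 402388) (nat_lit 0) .nil) .nil)))) (.nd (nat_lit 9) 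
(.lf (nat_lit 592260) (.g (nat_lit 4008) (.e (nat_lit 532550) (nat_lit 12) (.e (nat_lit 360474) (nat_lit 8) (.e (nat_lit 557093) (nat_lit 12) (.e (nat_lit 164022) (nat_lit 46) (.e (nat_lit 704737) (nat_lit 11) (.e (nat_lit 16386) (nat_lit 0) (.e (nat_lit 3229) (nat_lit 197) .nil))))))) (.g (nat_lit 1) (.e (nat_lit 402110) (nat_lit 0) .nil) .nil))) 
(.lf (nat_lit 592772) (.g (nat_lit 2556) (.e (nat_lit 532560) (nat_lit 14) (.e (nat_lit 376865) (nat_lit 22) (.e (nat_lit 90185) (nat_lit 17) (.e (nat_lit 237569) (nat_lit 0) .nil)))) (.g (nat_lit 0) (.e (nat_lit 402908) (nat_lit 0) .nil) .nil)))))) (.nd (nat_lit 7) (.nd (nat_lit 8) (.nd (nat_lit 9) 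
(.lf (nat_lit 591940) (.g (nat_lit 3178) (.e (nat_lit 532547) (nat_lit 11) (.e (nat_lit 352315) (nat_lit 23) (.e (nat_lit 98350) (nat_lit 24) (.e (nat_lit 409616) (nat_lit 10) (.e (nat_lit 5760) (nat_lit 315) .nil))))) (.g (nat_lit 0) (.e (nat_lit 401546) (nat_lit 0) .nil) .nil))) 
(.lf (nat_lit 592452) (.g (nat_lit 2605) (.e (nat_lit 532550) (nat_lit 12) (.e (nat_lit 360475) (nat_lit 8) (.e (nat_lit 557086) (nat_lit 11) (.e (nat_lit 24622) (nat_lit 8) (.e (nat_lit 327705) (nat_lit 10) (.e (nat_lit 7936) (nat_lit 45) .nil)))))) (.g (nat_lit 1) (.e (nat_lit 402321) (nat_lit 0) .nil) .nil)))) (.nd (nat_lit 9) 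
(.lf (nat_lit 592196) (.g (nat_lit 2545) (.e (nat_lit 532550) (nat_lit 12) (.e (nat_lit 360474) (nat_lit 8) (.e (nat_lit 557085) (nat_lit 11) (.e (nat_lit 24664) (nat_lit 14) (.e (nat_lit 401414) (nat_lit 0) (.e (nat_lit 7936) (nat_lit 197) .nil)))))) (.g (nat_lit 1) (.e (nat_lit 402046) (nat_lit 0) .nil) .nil))) 
(.lf (nat_lit 592708) (.g (nat_lit 2508) (.e (nat_lit 532558) (nat_lit 14) (.e (nat_lit 376867) (nat_lit 23) (.e (nat_lit 98350) (nat_lit 24) (.e (nat_lit 409616) (nat_lit 10) (.e (nat_lit 7936) (nat_lit 318) .nil))))) (.g (nat_lit 0) (.e (nat_lit 402717) (nat_lit 0) .nil) .nil))))) (.nd (nat_lit 8) (.nd (nat_lit 9) 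
(.lf (nat_lit 592068) (.g (nat_lit 5065) (.e (nat_lit 532549) (nat_lit 12) (.e (nat_lit 360473) (nat_lit 8) (.e (nat_lit 557093) (nat_lit 12) (.e (nat_lit 164022) (nat_lit 46) (.e (nat_lit 704629) (nat_lit 9) (.e (nat_lit 442) (nat_lit 33) (.e (nat_lit 434232) (nat_lit 23) .nil))))))) (.g (nat_lit 1) (.e (nat_lit 401766) (nat_lit 0) .nil) .nil))) 
(.lf (nat_lit 592580) (.g (nat_lit 3860) (.e (nat_lit 532550) (nat_lit 12) (.e (nat_lit 360475) (nat_lit 8) (.e (nat_lit 557091) (nat_lit 12) (.e (nat_lit 164022) (nat_lit 46) (.e (nat_lit 704737) (nat_lit 11) (.e (nat_lit 16397) (nat_lit 0) (.e (nat_lit 3238) (nat_lit 197) .nil))))))) (.g (nat_lit 1) (.e (nat_lit 402454) (nat_lit 0) .nil) .nil)))) (.nd (nat_lit 9) 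
(.lf (nat_lit 592324) (.g (nat_lit 3678) (.e (nat_lit 532550) (nat_lit 12) (.e (nat_lit 360474) (nat_lit 8) (.e (nat_lit 557093) (nat_lit 12) (.e (nat_lit 164022) (nat_lit 46) (.e (nat_lit 704738) (nat_lit 11) (.e (nat_lit 24320) (nat_lit 0) (.e (nat_lit 3249) (nat_lit 197) .nil))))))) (.g (nat_lit 1) (.e (nat_lit 402174) (nat_lit 0) .nil) .nil))) 
(.lf (nat_lit 592836) (.g (nat_lit 2371) (.e (nat_lit 532562) (nat_lit 15) (.e (nat_lit 385066) (nat_lit 26) (.e (nat_lit 532534) (nat_lit 9) (.e (nat_lit 336324) (nat_lit 18) (.e (nat_lit 204882) (nat_lit 32) .nil))))) (.g (nat_lit 0) (.e (nat_lit 403028) (nat_lit 0) .nil) .nil))))))) (.nd (nat_lit 6) (.nd (nat_lit 7) (.nd (nat_lit 8) (.nd (nat_lit 9) 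
(.lf (nat_lit 591908) (.g (nat_lit 1563) (.e (nat_lit 532547) (nat_lit 11) (.e (nat_lit 352313) (nat_lit 23) (.e (nat_lit 98350) (nat_lit 24) (.e (nat_lit 417536) (nat_lit 10) .nil)))) (.g (nat_lit 0) (.e (nat_lit 401491) (nat_lit 0) .nil) .nil))) 
(.lf (nat_lit 592420) (.g (nat_lit 3099) (.e (nat_lit 532550) (nat_lit 12) (.e (nat_lit 360474) (nat_lit 8) (.e (nat_lit 557094) (nat_lit 12) (.e (nat_lit 164022) (nat_lit 46) (.e (nat_lit 704738) (nat_lit 11) (.e (nat_lit 16392) (nat_lit 0) (.e (nat_lit 7936) (nat_lit 197) .nil))))))) (.g (nat_lit 1) (.e (nat_lit 402270) (nat_lit 0) .nil) .nil)))) (.nd (nat_lit 9) 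
(.lf (nat_lit 592164) (.g (nat_lit 1191) (.e (nat_lit 532550) (nat_lit 12) (.e (nat_lit 360471) (nat_lit 7) (.e (nat_lit 548874) (nat_lit 5) (.e (nat_lit 1396) (nat_lit 106) .nil)))) (.g (nat_lit 0) (.e (nat_lit 401980) (nat_lit 0) .nil) .nil))) 
(.lf (nat_lit 592676) (.g (nat_lit 1026) (.e (nat_lit 532553) (nat_lit 13) (.e (nat_lit 368676) (nat_lit 21) (.e (nat_lit 516131) (nat_lit 3) (.e (nat_lit 221212) (nat_lit 22) .nil)))) (.g (nat_lit 0) (.e (nat_lit 402588) (nat_lit 0) .nil) .nil))))) (.nd (nat_lit 8) (.nd (nat_lit 9) 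
(.lf (nat_lit 592036) (.g (nat_lit 2983) (.e (nat_lit 532549) (nat_lit 12) (.e (nat_lit 360473) (nat_lit 8) (.e (nat_lit 557087) (nat_lit 11) (.e (nat_lit 24590) (nat_lit 0) (.e (nat_lit 7936) (nat_lit 360) .nil))))) (.g (nat_lit 0) (.e (nat_lit 401726) (nat_lit 0) .nil) .nil))) 
(.lf (nat_lit 592548) (.g (nat_lit 1741) (.e (nat_lit 532550) (nat_lit 12) (.e (nat_lit 360475) (nat_lit 8) (.e (nat_lit 557091) (nat_lit 12) (.e (nat_lit 164022) (nat_lit 46) (.e (nat_lit 704736) (nat_lit 11) (.e (nat_lit 16386) (nat_lit 0) (.e (nat_lit 7936) (nat_lit 197) .nil))))))) (.g (nat_lit 1) (.e (nat_lit 402422) (nat_lit 0) .nil) .nil)))) (.nd (nat_lit 9) 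
(.lf (nat_lit 592292) (.g (nat_lit 4718) (.e (nat_lit 532550) (nat_lit 12) (.e (nat_lit 360474) (nat_lit 8) (.e (nat_lit 557093) (nat_lit 12) (.e (nat_lit 164022) (nat_lit 46) (.e (nat_lit 704738) (nat_lit 11) (.e (nat_lit 16389) (nat_lit 0) (.e (nat_lit 3230) (nat_lit 197) .nil))))))) (.g (nat_lit 1) (.e (nat_lit 402142) (nat_lit 0) .nil) .nil))) 
(.lf (nat_lit 592804) (.g (nat_lit 2643) (.e (nat_lit 532560) (nat_lit 14) (.e (nat_lit 376869) (nat_lit 23) (.e (nat_lit 98350) (nat_lit 24) (.e (nat_lit 409616) (nat_lit 10) (.e (nat_lit 5763) (nat_lit 315) .nil))))) (.g (nat_lit 0) (.e (nat_lit 402953) (nat_lit 0) .nil) .nil)))))) (.nd (nat_lit 7) (.nd (nat_lit 8) (.nd (nat_lit 9) 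
(.lf (nat_lit 591972) (.g (nat_lit 1554) (.e (nat_lit 532549) (nat_lit 12) (.e (nat_lit 360466) (nat_lit 3) (.e (nat_lit 516138) (nat_lit 7) (.e (nat_lit 409611) (nat_lit 10) (.e (nat_lit 5756) (nat_lit 315) .nil))))) (.g (nat_lit 0) (.e (nat_lit 401640) (nat_lit 0) .nil) .nil))) 
(.lf (nat_lit 592484) (.g (nat_lit 5077) (.e (nat_lit 532550) (nat_lit 12) (.e (nat_lit 360475) (nat_lit 8) (.e (nat_lit 557087) (nat_lit 11) (.e (nat_lit 24665) (nat_lit 14) (.e (nat_lit 401415) (nat_lit 0) (.e (nat_lit 3252) (nat_lit 197) .nil)))))) (.g (nat_lit 1) (.e (nat_lit 402354) (nat_lit 0) .nil) .nil)))) (.nd (nat_lit 9) 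
(.lf (nat_lit 592228) (.g (nat_lit 5838) (.e (nat_lit 532550) (nat_lit 12) (.e (nat_lit 360474) (nat_lit 8) (.e (nat_lit 557093) (nat_lit 12) (.e (nat_lit 164022) (nat_lit 46) (.e (nat_lit 704629) (nat_lit 9) (.e (nat_lit 452) (nat_lit 33) (.e (nat_lit 434230) (nat_lit 23) .nil))))))) (.g (nat_lit 1) (.e (nat_lit 402078) (nat_lit 0) .nil) .nil))) 
(.lf (nat_lit 592740) (.g (nat_lit 2183) (.e (nat_lit 532559) (nat_lit 14) (.e (nat_lit 376868) (nat_lit 23) (.e (nat_lit 98350) (nat_lit 24) (.e (nat_lit 409616) (nat_lit 10) (.e (nat_lit 7936) (nat_lit 315) .nil))))) (.g (nat_lit 0) (.e (nat_lit 402798) (nat_lit 0) .nil) .nil))))) (.nd (nat_lit 8) (.nd (nat_lit 9) 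
(.lf (nat_lit 592100) (.g (nat_lit 1995) (.e (nat_lit 532549) (nat_lit 12) (.e (nat_lit 360475) (nat_lit 8) (.e (nat_lit 557087) (nat_lit 11) (.e (nat_lit 24665) (nat_lit 14) (.e (nat_lit 401413) (nat_lit 0) .nil))))) (.g (nat_lit 0) (.e (nat_lit 401804) (nat_lit 0) .nil) .nil))) 
(.lf (nat_lit 592612) (.g (nat_lit 3792) (.e (nat_lit 532550) (nat_lit 12) (.e (nat_lit 360475) (nat_lit 8) (.e (nat_lit 557091) (nat_lit 12) (.e (nat_lit 164022) (nat_lit 46) (.e (nat_lit 704738) (nat_lit 11) (.e (nat_lit 16396) (nat_lit 0) (.e (nat_lit 7936) (nat_lit 197) .nil))))))) (.g (nat_lit 1) (.e (nat_lit 402486) (nat_lit 0) .nil) .nil)))) (.nd (nat_lit 9) 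
(.lf (nat_lit 592356) (.g (nat_lit 5595) (.e (nat_lit 532550) (nat_lit 12) (.e (nat_lit 360474) (nat_lit 8) (.e (nat_lit 557094) (nat_lit 12) (.e (nat_lit 164022) (nat_lit 46) (.e (nat_lit 704628) (nat_lit 9) (.e (nat_lit 473) (nat_lit 36) (.e (nat_lit 458788) (nat_lit 23) .nil))))))) (.g (nat_lit 1) (.e (nat_lit 402206) (nat_lit 0) .nil) .nil))) 
(.lf (nat_lit 592868) (.g (nat_lit 1323) (.e (nat_lit 532563) (nat_lit 15) (.e (nat_lit 385066) (nat_lit 26) (.e (nat_lit 532534) (nat_lit 9) (.e (nat_lit 336316) (nat_lit 17) (.e (nat_lit 196666) (nat_lit 13) .nil))))) (.g (nat_lit 0) (.e (nat_lit 403084) (nat_lit 0) .nil) .nil)))))))) (.nd (nat_lit 5) (.nd (nat_lit 6) (.nd (nat_lit 7) (.nd (nat_lit 8) (.nd (nat_lit 9) 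
(.lf (nat_lit 591892) (.g (nat_lit 3936) (.e (nat_lit 532547) (nat_lit 11) (.e (nat_lit 352301) (nat_lit 20) (.e (nat_lit 1848) (nat_lit 124) (.e (nat_lit 557087) (nat_lit 11) (.e (nat_lit 24617) (nat_lit 7) (.e (nat_lit 319504) (nat_lit 10) (.e (nat_lit 7936) (nat_lit 45) .nil))))))) (.g (nat_lit 1) (.e (nat_lit 401439) (nat_lit 0) .nil) .nil))) 
(.lf (nat_lit 592404) (.g (nat_lit 4850) (.e (nat_lit 532550) (nat_lit 12) (.e (nat_lit 360474) (nat_lit 8) (.e (nat_lit 557094) (nat_lit 12) (.e (nat_lit 164022) (nat_lit 46) (.e (nat_lit 704738) (nat_lit 11) (.e (nat_lit 16384) (nat_lit 0) (.e (nat_lit 3236) (nat_lit 197) .nil))))))) (.g (nat_lit 1) (.e (nat_lit 402254) (nat_lit 0) .nil) .nil)))) (.nd (nat_lit 9) 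
(.lf (nat_lit 592148) (.g (nat_lit 5360) (.e (nat_lit 532550) (nat_lit 12) (.e (nat_lit 360467) (nat_lit 3) (.e (nat_lit 516139) (nat_lit 7) (.e (nat_lit 409649) (nat_lit 18) (.e (nat_lit 303112) (nat_lit 0) (.e (nat_lit 3252) (nat_lit 197) .nil)))))) (.g (nat_lit 1) (.e (nat_lit 401949) (nat_lit 0) .nil) .nil))) 
(.lf (nat_lit 592660) (.g (nat_lit 464) (.e (nat_lit 532551) (nat_lit 12) (.e (nat_lit 360471) (nat_lit 7) (.e (nat_lit 548889) (nat_lit 9) .nil))) (.g (nat_lit 0) (.e (nat_lit 402557) (nat_lit 0) .nil) .nil))))) (.nd (nat_lit 8) (.nd (nat_lit 9) 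
(.lf (nat_lit 592020) (.g (nat_lit 3155) (.e (nat_lit 532549) (nat_lit 12) (.e (nat_lit 360473) (nat_lit 8) (.e (nat_lit 557067) (nat_lit 9) (.e (nat_lit 214) (nat_lit 19) (.e (nat_lit 319493) (nat_lit 0) .nil))))) (.g (nat_lit 0) (.e (nat_lit 401698) (nat_lit 0) .nil) .nil))) 
(.lf (nat_lit 592532) (.g (nat_lit 5835) (.e (nat_lit 532550) (nat_lit 12) (.e (nat_lit 360475) (nat_lit 8) (.e (nat_lit 557091) (nat_lit 12) (.e (nat_lit 164022) (nat_lit 46) (.e (nat_lit 704629) (nat_lit 9) (.e (nat_lit 471) (nat_lit 36) (.e (nat_lit 458788) (nat_lit 23) .nil))))))) (.g (nat_lit 1) (.e (nat_lit 402405) (nat_lit 0) .nil) .nil)))) (.nd (nat_lit 9) 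
(.lf (nat_lit 592276) (.g (nat_lit 5251) (.e (nat_lit 532550) (nat_lit 12) (.e (nat_lit 360474) (nat_lit 8) (.e (nat_lit 557093) (nat_lit 12) (.e (nat_lit 164022) (nat_lit 46) (.e (nat_lit 704738) (nat_lit 11) (.e (nat_lit 16384) (nat_lit 0) (.e (nat_lit 3236) (nat_lit 197) .nil))))))) (.g (nat_lit 1) (.e (nat_lit 402126) (nat_lit 0) .nil) .nil))) 
(.lf (nat_lit 592788) (.g (nat_lit 2409) (.e (nat_lit 532560) (nat_lit 14) (.e (nat_lit 376868) (nat_lit 23) (.e (nat_lit 98350) (nat_lit 24) (.e (nat_lit 409643) (nat_lit 18) (.e (nat_lit 303112) (nat_lit 0) (.e (nat_lit 3252) (nat_lit 197) .nil)))))) (.g (nat_lit 1) (.e (nat_lit 402931) (nat_lit 0) .nil) .nil)))))) (.nd (nat_lit 7) (.nd (nat_lit 8) (.nd (nat_lit 9) 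
(.lf (nat_lit 591956) (.g (nat_lit 3427) (.e (nat_lit 532547) (nat_lit 11) (.e (nat_lit 352315) (nat_lit 23) (.e (nat_lit 98350) (nat_lit 24) (.e (nat_lit 409649) (nat_lit 18) (.e (nat_lit 303111) (nat_lit 0) (.e (nat_lit 3255) (nat_lit 197) .nil)))))) (.g (nat_lit 1) (.e (nat_lit 401565) (nat_lit 0) .nil) .nil))) 
(.lf (nat_lit 592468) (.g (nat_lit 2301) (.e (nat_lit 532550) (nat_lit 12) (.e (nat_lit 360475) (nat_lit 8) (.e (nat_lit 557087) (nat_lit 11) (.e (nat_lit 24581) (nat_lit 0) (.e (nat_lit 7936) (nat_lit 360) .nil))))) (.g (nat_lit 0) (.e (nat_lit 402338) (nat_lit 0) .nil) .nil)))) (.nd (nat_lit 9) 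
(.lf (nat_lit 592212) (.g (nat_lit 383) (.e (nat_lit 532550) (nat_lit 12) (.e (nat_lit 360474) (nat_lit 8) (.e (nat_lit 557088) (nat_lit 12) .nil))) (.g (nat_lit 0) (.e (nat_lit 402062) (nat_lit 0) .nil) .nil))) 
(.lf (nat_lit 592724) (.g (nat_lit 2305) (.e (nat_lit 532558) (nat_lit 14) (.e (nat_lit 376869) (nat_lit 23) (.e (nat_lit 98349) (nat_lit 24) (.e (nat_lit 409646) (nat_lit 18) (.e (nat_lit 303112) (nat_lit 0) (.e (nat_lit 3252) (nat_lit 197) .nil)))))) (.g (nat_lit 1) (.e (nat_lit 402740) (nat_lit 0) .nil) .nil))))) (.nd (nat_lit 8) (.nd (nat_lit 9) 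
(.lf (nat_lit 592084) (.g (nat_lit 1858) (.e (nat_lit 532549) (nat_lit 12) (.e (nat_lit 360474) (nat_lit 8) (.e (nat_lit 557085) (nat_lit 11) (.e (nat_lit 24665) (nat_lit 14) (.e (nat_lit 401418) (nat_lit 0) .nil))))) (.g (nat_lit 0) (.e (nat_lit 401782) (nat_lit 0) .nil) .nil))) 
(.lf (nat_lit 592596) (.g (nat_lit 6103) (.e (nat_lit 532550) (nat_lit 12) (.e (nat_lit 360475) (nat_lit 8) (.e (nat_lit 557091) (nat_lit 12) (.e (nat_lit 164022) (nat_lit 46) (.e (nat_lit 704738) (nat_lit 11) (.e (nat_lit 16385) (nat_lit 0) (.e (nat_lit 3241) (nat_lit 197) .nil))))))) (.g (nat_lit 1) (.e (nat_lit 402470) (nat_lit 0) .nil) .nil)))) (.nd (nat_lit 9) 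
(.lf (nat_lit 592340) (.g (nat_lit 5153) (.e (nat_lit 532550) (nat_lit 12) (.e (nat_lit 360474) (nat_lit 8) (.e (nat_lit 557093) (nat_lit 12) (.e (nat_lit 164023) (nat_lit 46) (.e (nat_lit 704737) (nat_lit 11) (.e (nat_lit 16388) (nat_lit 0) (.e (nat_lit 3229) (nat_lit 197) .nil))))))) (.g (nat_lit 1) (.e (nat_lit 402190) (nat_lit 0) .nil) .nil))) 
(.lf (nat_lit 592852) (.g (nat_lit 2721) (.e (nat_lit 532563) (nat_lit 15) (.e (nat_lit 385066) (nat_lit 26) (.e (nat_lit 532530) (nat_lit 9) (.e (nat_lit 336326) (nat_lit 18) (.e (nat_lit 204854) (nat_lit 26) (.e (nat_lit 336247) (nat_lit 15) (.e (nat_lit 3233) (nat_lit 197) .nil))))))) (.g (nat_lit 1) (.e (nat_lit 403061) (nat_lit 0) .nil) .nil))))))) 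
(.nd (nat_lit 6) (.nd (nat_lit 7) (.nd (nat_lit 8) (.nd (nat_lit 9) 
(.lf (nat_lit 591924) (.g (nat_lit 1547) (.e (nat_lit 532547) (nat_lit 11) (.e (nat_lit 352315) (nat_lit 23) (.e (nat_lit 98349) (nat_lit 24) (.e (nat_lit 409620) (nat_lit 10) .nil)))) (.g (nat_lit 0) (.e (nat_lit 401525) (nat_lit 0) .nil) .nil))) 
(.lf (nat_lit 592436) (.g (nat_lit 465) (.e (nat_lit 532550) (nat_lit 12) (.e (nat_lit 360475) (nat_lit 8) (.e (nat_lit 557067) (nat_lit 9) .nil))) (.g (nat_lit 0) (.e (nat_lit 402288) (nat_lit 0) .nil) .nil)))) (.nd (nat_lit 9) 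
(.lf (nat_lit 592180) (.g (nat_lit 1453) (.e (nat_lit 532550) (nat_lit 12) (.e (nat_lit 360473) (nat_lit 8) (.e (nat_lit 557091) (nat_lit 12) (.e (nat_lit 164020) (nat_lit 45) .nil)))) (.g (nat_lit 0) (.e (nat_lit 402007) (nat_lit 0) .nil) .nil))) 
(.lf (nat_lit 592692) (.g (nat_lit 1836) (.e (nat_lit 532555) (nat_lit 13) (.e (nat_lit 368676) (nat_lit 21) (.e (nat_lit 516115) (nat_lit 1) (.e (nat_lit 164242) (nat_lit 195) .nil)))) (.g (nat_lit 0) (.e (nat_lit 402630) (nat_lit 0) .nil) .nil))))) (.nd (nat_lit 8) (.nd (nat_lit 9) 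
(.lf (nat_lit 592052) (.g (nat_lit 2839) (.e (nat_lit 532549) (nat_lit 12) (.e (nat_lit 360473) (nat_lit 8) (.e (nat_lit 557090) (nat_lit 12) (.e (nat_lit 163843) (nat_lit 0) .nil)))) (.g (nat_lit 0) (.e (nat_lit 401745) (nat_lit 0) .nil) .nil))) 
(.lf (nat_lit 592564) (.g (nat_lit 5411) (.e (nat_lit 532550) (nat_lit 12) (.e (nat_lit 360475) (nat_lit 8) (.e (nat_lit 557091) (nat_lit 12) (.e (nat_lit 164022) (nat_lit 46) (.e (nat_lit 704737) (nat_lit 11) (.e (nat_lit 16384) (nat_lit 0) (.e (nat_lit 3243) (nat_lit 197) .nil))))))) (.g (nat_lit 1) (.e (nat_lit 402438) (nat_lit 0) .nil) .nil)))) (.nd (nat_lit 9) 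
(.lf (nat_lit 592308) (.g (nat_lit 3497) (.e (nat_lit 532550) (nat_lit 12) (.e (nat_lit 360474) (nat_lit 8) (.e (nat_lit 557093) (nat_lit 12) (.e (nat_lit 164022) (nat_lit 46) (.e (nat_lit 704738) (nat_lit 11) (.e (nat_lit 16392) (nat_lit 0) (.e (nat_lit 7936) (nat_lit 197) .nil))))))) (.g (nat_lit 1) (.e (nat_lit 402158) (nat_lit 0) .nil) .nil))) 
(.lf (nat_lit 592820) (.g (nat_lit 1815) (.e (nat_lit 532561) (nat_lit 14) (.e (nat_lit 376862) (nat_lit 22) (.e (nat_lit 90185) (nat_lit 17) (.e (nat_lit 237573) (nat_lit 0) .nil)))) (.g (nat_lit 0) (.e (nat_lit 403005) (nat_lit 0) .nil) .nil)))))) (.nd (nat_lit 7) (.nd (nat_lit 8) (.nd (nat_lit 9) 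
(.lf (nat_lit 591988) (.g (nat_lit 3915) (.e (nat_lit 532549) (nat_lit 12) (.e (nat_lit 360466) (nat_lit 3) (.e (nat_lit 516139) (nat_lit 7) (.e (nat_lit 409649) (nat_lit 18) (.e (nat_lit 303104) (nat_lit 0) (.e (nat_lit 3238) (nat_lit 197) .nil)))))) (.g (nat_lit 1) (.e (nat_lit 401656) (nat_lit 0) .nil) .nil))) 
(.lf (nat_lit 592500) (.g (nat_lit 4116) (.e (nat_lit 532550) (nat_lit 12) (.e (nat_lit 360475) (nat_lit 8) (.e (nat_lit 557089) (nat_lit 12) (.e (nat_lit 163850) (nat_lit 0) (.e (nat_lit 6425) (nat_lit 342) (.e (nat_lit 229408) (nat_lit 13) (.e (nat_lit 434230) (nat_lit 23) .nil))))))) (.g (nat_lit 1) (.e (nat_lit 402370) (nat_lit 0) .nil) .nil)))) (.nd (nat_lit 9) 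
(.lf (nat_lit 592244) (.g (nat_lit 3898) (.e (nat_lit 532550) (nat_lit 12) (.e (nat_lit 360474) (nat_lit 8) (.e (nat_lit 557093) (nat_lit 12) (.e (nat_lit 164022) (nat_lit 46) (.e (nat_lit 704736) (nat_lit 11) (.e (nat_lit 16389) (nat_lit 0) (.e (nat_lit 3241) (nat_lit 197) .nil))))))) (.g (nat_lit 1) (.e (nat_lit 402094) (nat_lit 0) .nil) .nil))) 
(.lf (nat_lit 592756) (.g (nat_lit 3673) (.e (nat_lit 532559) (nat_lit 14) (.e (nat_lit 376869) (nat_lit 23) (.e (nat_lit 98350) (nat_lit 24) (.e (nat_lit 409645) (nat_lit 18) (.e (nat_lit 303112) (nat_lit 0) (.e (nat_lit 3252) (nat_lit 197) .nil)))))) (.g (nat_lit 1) (.e (nat_lit 402816) (nat_lit 0) .nil) .nil))))) (.nd (nat_lit 8) (.nd (nat_lit 9) 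
(.lf (nat_lit 592116) (.g (nat_lit 661) (.e (nat_lit 532550) (nat_lit 12) (.e (nat_lit 360452) (nat_lit 0) (.e (nat_lit 7280) (nat_lit 386) .nil))) (.g (nat_lit 0) (.e (nat_lit 401897) (nat_lit 0) .nil) .nil))) 
(.lf (nat_lit 592628) (.g (nat_lit 1637) (.e (nat_lit 532550) (nat_lit 12) (.e (nat_lit 360475) (nat_lit 8) (.e (nat_lit 557093) (nat_lit 12) (.e (nat_lit 164022) (nat_lit 46) .nil)))) (.g (nat_lit 0) (.e (nat_lit 402502) (nat_lit 0) .nil) .nil)))) (.nd (nat_lit 9) 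
(.lf (nat_lit 592372) (.g (nat_lit 1700) (.e (nat_lit 532550) (nat_lit 12) (.e (nat_lit 360474) (nat_lit 8) (.e (nat_lit 557094) (nat_lit 12) (.e (nat_lit 164022) (nat_lit 46) (.e (nat_lit 704736) (nat_lit 11) (.e (nat_lit 16386) (nat_lit 0) (.e (nat_lit 7936) (nat_lit 197) .nil))))))) (.g (nat_lit 1) (.e (nat_lit 402222) (nat_lit 0) .nil) .nil))) 
(.lf (nat_lit 592884) (.g (nat_lit 2266) (.e (nat_lit 532563) (nat_lit 15) (.e (nat_lit 385066) (nat_lit 26) (.e (nat_lit 532555) (nat_lit 13) (.e (nat_lit 368676) (nat_lit 21) (.e (nat_lit 516115) (nat_lit 1) (.e (nat_lit 164243) (nat_lit 195) (.e (nat_lit 2611) (nat_lit 163) (.e (nat_lit 163963) (nat_lit 25) .nil)))))))) (.g (nat_lit 1) (.e (nat_lit 403105) (nat_lit 0) .nil) .nil))))))))) 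
(.nd (nat_lit 4) (.nd (nat_lit 5) (.nd (nat_lit 6) (.nd (nat_lit 7) (.nd (nat_lit 8) 
(.nd (nat_lit 9) 
(.lf (nat_lit 591884) (.g (nat_lit 4052) (.e (nat_lit 532547) (nat_lit 11) (.e (nat_lit 352290) (nat_lit 20) (.e (nat_lit 1848) (nat_lit 124) (.e (nat_lit 557087) (nat_lit 11) (.e (nat_lit 24617) (nat_lit 7) (.e (nat_lit 319504) (nat_lit 10) (.e (nat_lit 7936) (nat_lit 45) .nil))))))) (.g (nat_lit 1) (.e (nat_lit 401431) (nat_lit 0) .nil) .nil))) 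
(.lf (nat_lit 592396) (.g (nat_lit 3789) (.e (nat_lit 532550) (nat_lit 12) (.e (nat_lit 360474) (nat_lit 8) (.e (nat_lit 557094) (nat_lit 12) (.e (nat_lit 164022) (nat_lit 46) (.e (nat_lit 704737) (nat_lit 11) (.e (nat_lit 16391) (nat_lit 0) (.e (nat_lit 3241) (nat_lit 197) .nil))))))) (.g (nat_lit 1) (.e (nat_lit 402246) (nat_lit 0) .nil) .nil)))) (.nd (nat_lit 9) 
(.lf (nat_lit 592140) (.g (nat_lit 2167) (.e (nat_lit 532550) (nat_lit 12) (.e (nat_lit 360467) (nat_lit 3) (.e (nat_lit 516139) (nat_lit 7) (.e (nat_lit 409615) (nat_lit 10) .nil)))) (.g (nat_lit 0) (.e (nat_lit 401938) (nat_lit 0) .nil) .nil))) 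
(.lf (nat_lit 592652) (.g (nat_lit 2569) (.e (nat_lit 532551) (nat_lit 12) (.e (nat_lit 360467) (nat_lit 3) (.e (nat_lit 516139) (nat_lit 7) (.e (nat_lit 409648) (nat_lit 18) (.e (nat_lit 303108) (nat_lit 0) (.e (nat_lit 3254) (nat_lit 197) .nil)))))) (.g (nat_lit 1) (.e (nat_lit 402544) (nat_lit 0) .nil) .nil))))) (.nd (nat_lit 8) (.nd (nat_lit 9) 
(.lf (nat_lit 592012) (.g (nat_lit 2869) (.e (nat_lit 532549) (nat_lit 12) (.e (nat_lit 360468) (nat_lit 3) (.e (nat_lit 516139) (nat_lit 7) (.e (nat_lit 409648) (nat_lit 18) (.e (nat_lit 303108) (nat_lit 0) (.e (nat_lit 3238) (nat_lit 197) .nil)))))) (.g (nat_lit 1) (.e (nat_lit 401688) (nat_lit 0) .nil) .nil))) 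
(.lf (nat_lit 592524) (.g (nat_lit 5741) (.e (nat_lit 532550) (nat_lit 12) (.e (nat_lit 360475) (nat_lit 8) (.e (nat_lit 557091) (nat_lit 12) (.e (nat_lit 164022) (nat_lit 46) (.e (nat_lit 704628) (nat_lit 9) (.e (nat_lit 473) (nat_lit 36) (.e (nat_lit 458790) (nat_lit 23) .nil))))))) (.g (nat_lit 1) (.e (nat_lit 402397) (nat_lit 0) .nil) .nil)))) (.nd (nat_lit 9) 
(.lf (nat_lit 592268) (.g (nat_lit 3864) (.e (nat_lit 532550) (nat_lit 12) (.e (nat_lit 360474) (nat_lit 8) (.e (nat_lit 557093) (nat_lit 12) (.e (nat_lit 164022) (nat_lit 46) (.e (nat_lit 704737) (nat_lit 11) (.e (nat_lit 16390) (nat_lit 0) (.e (nat_lit 3241) (nat_lit 197) .nil))))))) (.g (nat_lit 1) (.e (nat_lit 402118) (nat_lit 0) .nil) .nil))) 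
(.lf (nat_lit 592780) (.g (nat_lit 2369) (.e (nat_lit 532560) (nat_lit 14) (.e (nat_lit 376868) (nat_lit 23) (.e (nat_lit 98350) (nat_lit 24) (.e (nat_lit 409616) (nat_lit 10) (.e (nat_lit 5762) (nat_lit 315) .nil))))) (.g (nat_lit 0) (.e (nat_lit 402923) (nat_lit 0) .nil) .nil)))))) (.nd (nat_lit 7) (.nd (nat_lit 8) (.nd (nat_lit 9) 
(.lf (nat_lit 591948) (.g (nat_lit 3078) (.e (nat_lit 532547) (nat_lit 11) (.e (nat_lit 352315) (nat_lit 23) (.e (nat_lit 98350) (nat_lit 24) (.e (nat_lit 409646) (nat_lit 18) (.e (nat_lit 303104) (nat_lit 0) .nil))))) (.g (nat_lit 0) (.e (nat_lit 401557) (nat_lit 0) .nil) .nil))) 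
(.lf (nat_lit 592460) (.g (nat_lit 4452) (.e (nat_lit 532550) (nat_lit 12) (.e (nat_lit 360475) (nat_lit 8) (.e (nat_lit 557086) (nat_lit 11) (.e (nat_lit 24665) (nat_lit 14) (.e (nat_lit 401417) (nat_lit 0) (.e (nat_lit 3230) (nat_lit 197) .nil)))))) (.g (nat_lit 1) (.e (nat_lit 402330) (nat_lit 0) .nil) .nil)))) (.nd (nat_lit 9) 
(.lf (nat_lit 592204) (.g (nat_lit 4470) (.e (nat_lit 532550) (nat_lit 12) (.e (nat_lit 360474) (nat_lit 8) (.e (nat_lit 557085) (nat_lit 11) (.e (nat_lit 24665) (nat_lit 14) (.e (nat_lit 401417) (nat_lit 0) (.e (nat_lit 3253) (nat_lit 197) .nil)))))) (.g (nat_lit 1) (.e (nat_lit 402054) (nat_lit 0) .nil) .nil))) 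
(.lf (nat_lit 592716) (.g (nat_lit 2522) (.e (nat_lit 532558) (nat_lit 14) (.e (nat_lit 376868) (nat_lit 23) (.e (nat_lit 98350) (nat_lit 24) (.e (nat_lit 409643) (nat_lit 18) (.e (nat_lit 303112) (nat_lit 0) (.e (nat_lit 3252) (nat_lit 197) .nil)))))) (.g (nat_lit 1) (.e (nat_lit 402730) (nat_lit 0) .nil) .nil))))) (.nd (nat_lit 8) (.nd (nat_lit 9) 
(.lf (nat_lit 592076) (.g (nat_lit 3671) (.e (nat_lit 532549) (nat_lit 12) (.e (nat_lit 360473) (nat_lit 8) (.e (nat_lit 557093) (nat_lit 12) (.e (nat_lit 164023) (nat_lit 46) (.e (nat_lit 704737) (nat_lit 11) (.e (nat_lit 16396) (nat_lit 0) (.e (nat_lit 3238) (nat_lit 197) .nil))))))) (.g (nat_lit 1) (.e (nat_lit 401774) (nat_lit 0) .nil) .nil))) 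
(.lf (nat_lit 592588) (.g (nat_lit 5499) (.e (nat_lit 532550) (nat_lit 12) (.e (nat_lit 360475) (nat_lit 8) (.e (nat_lit 557091) (nat_lit 12) (.e (nat_lit 164022) (nat_lit 46) (.e (nat_lit 704738) (nat_lit 11) (.e (nat_lit 16384) (nat_lit 0) (.e (nat_lit 3236) (nat_lit 197) .nil))))))) (.g (nat_lit 1) (.e (nat_lit 402462) (nat_lit 0) .nil) .nil)))) (.nd (nat_lit 9) 
(.lf (nat_lit 592332) (.g (nat_lit 5094) (.e (nat_lit 532550) (nat_lit 12) (.e (nat_lit 360474) (nat_lit 8) (.e (nat_lit 557093) (nat_lit 12) (.e (nat_lit 164023) (nat_lit 46) (.e (nat_lit 704735) (nat_lit 11) (.e (nat_lit 16390) (nat_lit 0) (.e (nat_lit 3242) (nat_lit 197) .nil))))))) (.g (nat_lit 1) (.e (nat_lit 402182) (nat_lit 0) .nil) .nil))) 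
(.lf (nat_lit 592844) (.g (nat_lit 1268) (.e (nat_lit 532563) (nat_lit 15) (.e (nat_lit 385066) (nat_lit 26) (.e (nat_lit 532529) (nat_lit 9) (.e (nat_lit 336316) (nat_lit 17) .nil)))) (.g (nat_lit 0) (.e (nat_lit 403053) (nat_lit 0) .nil) .nil))))))) (.nd (nat_lit 6) (.nd (nat_lit 7) (.nd (nat_lit 8) (.nd (nat_lit 9) 
(.lf (nat_lit 591916) (.g (nat_lit 2545) (.e (nat_lit 532547) (nat_lit 11) (.e (nat_lit 352314) (nat_lit 23) (.e (nat_lit 98350) (nat_lit 24) (.e (nat_lit 409616) (nat_lit 10) (.e (nat_lit 5757) (nat_lit 315) .nil))))) (.g (nat_lit 0) (.e (nat_lit 401501) (nat_lit 0) .nil) .nil))) 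
(.lf (nat_lit 592428) (.g (nat_lit 4947) (.e (nat_lit 532550) (nat_lit 12) (.e (nat_lit 360474) (nat_lit 8) (.e (nat_lit 557094) (nat_lit 12) (.e (nat_lit 164022) (nat_lit 46) (.e (nat_lit 704738) (nat_lit 11) (.e (nat_lit 16399) (nat_lit 0) (.e (nat_lit 3230) (nat_lit 197) .nil))))))) (.g (nat_lit 1) (.e (nat_lit 402278) (nat_lit 0) .nil) .nil)))) (.nd (nat_lit 9) 
(.lf (nat_lit 592172) (.g (nat_lit 2704) (.e (nat_lit 532550) (nat_lit 12) (.e (nat_lit 360472) (nat_lit 8) (.e (nat_lit 557090) (nat_lit 12) (.e (nat_lit 164020) (nat_lit 45) (.e (nat_lit 696330) (nat_lit 5) .nil))))) (.g (nat_lit 0) (.e (nat_lit 401998) (nat_lit 0) .nil) .nil))) 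
(.lf (nat_lit 592684) (.g (nat_lit 702) (.e (nat_lit 532554) (nat_lit 13) (.e (nat_lit 368676) (nat_lit 21) (.e (nat_lit 516131) (nat_lit 3) .nil))) (.g (nat_lit 0) (.e (nat_lit 402608) (nat_lit 0) .nil) .nil))))) (.nd (nat_lit 8) (.nd (nat_lit 9) 
(.lf (nat_lit 592044) (.g (nat_lit 3749) (.e (nat_lit 532549) (nat_lit 12) (.e (nat_lit 360473) (nat_lit 8) (.e (nat_lit 557087) (nat_lit 11) (.e (nat_lit 24617) (nat_lit 7) (.e (nat_lit 319511) (nat_lit 10) (.e (nat_lit 595) (nat_lit 45) .nil)))))) (.g (nat_lit 1) (.e (nat_lit 401734) (nat_lit 0) .nil) .nil))) 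
(.lf (nat_lit 592556) (.g (nat_lit 5399) (.e (nat_lit 532550) (nat_lit 12) (.e (nat_lit 360475) (nat_lit 8) (.e (nat_lit 557091) (nat_lit 12) (.e (nat_lit 164022) (nat_lit 46) (.e (nat_lit 704736) (nat_lit 11) (.e (nat_lit 16396) (nat_lit 0) (.e (nat_lit 3252) (nat_lit 197) .nil))))))) (.g (nat_lit 1) (.e (nat_lit 402430) (nat_lit 0) .nil) .nil)))) (.nd (nat_lit 9) 
(.lf (nat_lit 592300) (.g (nat_lit 5735) (.e (nat_lit 532550) (nat_lit 12) (.e (nat_lit 360474) (nat_lit 8) (.e (nat_lit 557093) (nat_lit 12) (.e (nat_lit 164022) (nat_lit 46) (.e (nat_lit 704738) (nat_lit 11) (.e (nat_lit 16389) (nat_lit 0) (.e (nat_lit 3250) (nat_lit 197) .nil))))))) (.g (nat_lit 1) (.e (nat_lit 402150) (nat_lit 0) .nil) .nil))) 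
(.lf (nat_lit 592812) (.g (nat_lit 2393) (.e (nat_lit 532560) (nat_lit 14) (.e (nat_lit 376869) (nat_lit 23) (.e (nat_lit 98350) (nat_lit 24) (.e (nat_lit 409645) (nat_lit 18) (.e (nat_lit 303112) (nat_lit 0) .nil))))) (.g (nat_lit 0) (.e (nat_lit 402961) (nat_lit 0) .nil) .nil)))))) (.nd (nat_lit 7) (.nd (nat_lit 8) (.nd (nat_lit 9) 
(.lf (nat_lit 591980) (.g (nat_lit 3107) (.e (nat_lit 532549) (nat_lit 12) (.e (nat_lit 360466) (nat_lit 3) (.e (nat_lit 516139) (nat_lit 7) (.e (nat_lit 409617) (nat_lit 10) (.e (nat_lit 5756) (nat_lit 315) (.e (nat_lit 163962) (nat_lit 25) .nil)))))) (.g (nat_lit 1) (.e (nat_lit 401648) (nat_lit 0) .nil) .nil))) 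
(.lf (nat_lit 592492) (.g (nat_lit 4519) (.e (nat_lit 532550) (nat_lit 12) (.e (nat_lit 360475) (nat_lit 8) (.e (nat_lit 557089) (nat_lit 12) (.e (nat_lit 163844) (nat_lit 0) (.e (nat_lit 6255) (nat_lit 337) (.e (nat_lit 2643) (nat_lit 165) (.e (nat_lit 180242) (nat_lit 5) .nil))))))) (.g (nat_lit 1) (.e (nat_lit 402362) (nat_lit 0) .nil) .nil)))) (.nd (nat_lit 9) 
(.lf (nat_lit 592236) (.g (nat_lit 3688) (.e (nat_lit 532550) (nat_lit 12) (.e (nat_lit 360474) (nat_lit 8) (.e (nat_lit 557093) (nat_lit 12) (.e (nat_lit 164022) (nat_lit 46) (.e (nat_lit 704735) (nat_lit 11) (.e (nat_lit 16396) (nat_lit 0) (.e (nat_lit 3230) (nat_lit 197) .nil))))))) (.g (nat_lit 1) (.e (nat_lit 402086) (nat_lit 0) .nil) .nil))) 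
(.lf (nat_lit 592748) (.g (nat_lit 2298) (.e (nat_lit 532559) (nat_lit 14) (.e (nat_lit 376868) (nat_lit 23) (.e (nat_lit 98350) (nat_lit 24) (.e (nat_lit 409649) (nat_lit 18) (.e (nat_lit 303104) (nat_lit 0) (.e (nat_lit 3238) (nat_lit 197) .nil)))))) (.g (nat_lit 1) (.e (nat_lit 402806) (nat_lit 0) .nil) .nil))))) (.nd (nat_lit 8) (.nd (nat_lit 9) 
(.lf (nat_lit 592108) (.g (nat_lit 2872) (.e (nat_lit 532549) (nat_lit 12) (.e (nat_lit 360475) (nat_lit 8) (.e (nat_lit 557091) (nat_lit 12) (.e (nat_lit 163843) (nat_lit 0) (.e (nat_lit 6420) (nat_lit 341) .nil))))) (.g (nat_lit 0) (.e (nat_lit 401814) (nat_lit 0) .nil) .nil))) 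
(.lf (nat_lit 592620) (.g (nat_lit 5161) (.e (nat_lit 532550) (nat_lit 12) (.e (nat_lit 360475) (nat_lit 8) (.e (nat_lit 557091) (nat_lit 12) (.e (nat_lit 164022) (nat_lit 46) (.e (nat_lit 704738) (nat_lit 11) (.e (nat_lit 16399) (nat_lit 0) (.e (nat_lit 3254) (nat_lit 197) .nil))))))) (.g (nat_lit 1) (.e (nat_lit 402494) (nat_lit 0) .nil) .nil)))) (.nd (nat_lit 9) 
(.lf (nat_lit 592364) (.g (nat_lit 4865) (.e (nat_lit 532550) (nat_lit 12) (.e (nat_lit 360474) (nat_lit 8) (.e (nat_lit 557094) (nat_lit 12) (.e (nat_lit 164022) (nat_lit 46) (.e (nat_lit 704629) (nat_lit 9) (.e (nat_lit 473) (nat_lit 36) (.e (nat_lit 458790) (nat_lit 23) .nil))))))) (.g (nat_lit 1) (.e (nat_lit 402214) (nat_lit 0) .nil) .nil))) 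
(.lf (nat_lit 592876) (.g (nat_lit 3654) (.e (nat_lit 532563) (nat_lit 15) (.e (nat_lit 385066) (nat_lit 26) (.e (nat_lit 532534) (nat_lit 9) (.e (nat_lit 336326) (nat_lit 18) (.e (nat_lit 204880) (nat_lit 32) (.e (nat_lit 385066) (nat_lit 26) .nil)))))) (.g (nat_lit 1) (.e (nat_lit 403092) (nat_lit 0) .nil) .nil)))))))) 
(.nd (nat_lit 5) (.nd (nat_lit 6) (.nd (nat_lit 7) (.nd (nat_lit 8) (.nd (nat_lit 9) 
(.lf (nat_lit 591900) (.g (nat_lit 1827) (.e (nat_lit 532547) (nat_lit 11) (.e (nat_lit 352313) (nat_lit 23) (.e (nat_lit 98350) (nat_lit 24) (.e (nat_lit 409614) (nat_lit 10) .nil)))) (.g (nat_lit 0) (.e (nat_lit 401483) (nat_lit 0) .nil) .nil))) 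
(.lf (nat_lit 592412) (.g (nat_lit 5408) (.e (nat_lit 532550) (nat_lit 12) (.e (nat_lit 360474) (nat_lit 8) (.e (nat_lit 557094) (nat_lit 12) (.e (nat_lit 164022) (nat_lit 46) (.e (nat_lit 704738) (nat_lit 11) (.e (nat_lit 16386) (nat_lit 0) (.e (nat_lit 3227) (nat_lit 197) .nil))))))) (.g (nat_lit 1) (.e (nat_lit 402262) (nat_lit 0) .nil) .nil)))) (.nd (nat_lit 9) 
(.lf (nat_lit 592156) (.g (nat_lit 3190) (.e (nat_lit 532550) (nat_lit 12) (.e (nat_lit 360468) (nat_lit 3) (.e (nat_lit 516139) (nat_lit 7) (.e (nat_lit 409648) (nat_lit 18) (.e (nat_lit 303108) (nat_lit 0) (.e (nat_lit 3252) (nat_lit 197) .nil)))))) (.g (nat_lit 1) (.e (nat_lit 401971) (nat_lit 0) .nil) .nil))) 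
(.lf (nat_lit 592668) (.g (nat_lit 766) (.e (nat_lit 532553) (nat_lit 13) (.e (nat_lit 368676) (nat_lit 21) (.e (nat_lit 516122) (nat_lit 2) .nil))) (.g (nat_lit 0) (.e (nat_lit 402580) (nat_lit 0) .nil) .nil))))) (.nd (nat_lit 8) (.nd (nat_lit 9) 
(.lf (nat_lit 592028) (.g (nat_lit 1934) (.e (nat_lit 532549) (nat_lit 12) (.e (nat_lit 360473) (nat_lit 8) (.e (nat_lit 557087) (nat_lit 11) (.e (nat_lit 24577) (nat_lit 0) (.e (nat_lit 7936) (nat_lit 360) .nil))))) (.g (nat_lit 0) (.e (nat_lit 401716) (nat_lit 0) .nil) .nil))) 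
(.lf (nat_lit 592540) (.g (nat_lit 3919) (.e (nat_lit 532550) (nat_lit 12) (.e (nat_lit 360475) (nat_lit 8) (.e (nat_lit 557091) (nat_lit 12) (.e (nat_lit 164022) (nat_lit 46) (.e (nat_lit 704735) (nat_lit 11) (.e (nat_lit 16388) (nat_lit 0) (.e (nat_lit 3229) (nat_lit 197) .nil))))))) (.g (nat_lit 1) (.e (nat_lit 402414) (nat_lit 0) .nil) .nil)))) (.nd (nat_lit 9) 
(.lf (nat_lit 592284) (.g (nat_lit 5932) (.e (nat_lit 532550) (nat_lit 12) (.e (nat_lit 360474) (nat_lit 8) (.e (nat_lit 557093) (nat_lit 12) (.e (nat_lit 164022) (nat_lit 46) (.e (nat_lit 704738) (nat_lit 11) (.e (nat_lit 16385) (nat_lit 0) (.e (nat_lit 3237) (nat_lit 197) .nil))))))) (.g (nat_lit 1) (.e (nat_lit 402134) (nat_lit 0) .nil) .nil))) 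
(.lf (nat_lit 592796) (.g (nat_lit 2238) (.e (nat_lit 532560) (nat_lit 14) (.e (nat_lit 376868) (nat_lit 23) (.e (nat_lit 98350) (nat_lit 24) (.e (nat_lit 409649) (nat_lit 18) (.e (nat_lit 303111) (nat_lit 0) (.e (nat_lit 3252) (nat_lit 197) .nil)))))) (.g (nat_lit 1) (.e (nat_lit 402941) (nat_lit 0) .nil) .nil)))))) (.nd (nat_lit 7) (.nd (nat_lit 8) (.nd (nat_lit 9) 
(.lf (nat_lit 591964) (.g (nat_lit 1424) (.e (nat_lit 532548) (nat_lit 11) (.e (nat_lit 352315) (nat_lit 23) (.e (nat_lit 98350) (nat_lit 24) (.e (nat_lit 409617) (nat_lit 10) .nil)))) (.g (nat_lit 0) (.e (nat_lit 401621) (nat_lit 0) .nil) .nil))) 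
(.lf (nat_lit 592476) (.g (nat_lit 3347) (.e (nat_lit 532550) (nat_lit 12) (.e (nat_lit 360475) (nat_lit 8) (.e (nat_lit 557087) (nat_lit 11) (.e (nat_lit 24617) (nat_lit 7) (.e (nat_lit 319503) (nat_lit 10) .nil))))) (.g (nat_lit 0) (.e (nat_lit 402346) (nat_lit 0) .nil) .nil)))) (.nd (nat_lit 9) 
(.lf (nat_lit 592220) (.g (nat_lit 4420) (.e (nat_lit 532550) (nat_lit 12) (.e (nat_lit 360474) (nat_lit 8) (.e (nat_lit 557093) (nat_lit 12) (.e (nat_lit 164022) (nat_lit 46) (.e (nat_lit 704628) (nat_lit 9) (.e (nat_lit 452) (nat_lit 33) (.e (nat_lit 434230) (nat_lit 23) .nil))))))) (.g (nat_lit 1) (.e (nat_lit 402070) (nat_lit 0) .nil) .nil))) 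
(.lf (nat_lit 592732) (.g (nat_lit 2089) (.e (nat_lit 532559) (nat_lit 14) (.e (nat_lit 376865) (nat_lit 22) (.e (nat_lit 90185) (nat_lit 17) (.e (nat_lit 237573) (nat_lit 0) .nil)))) (.g (nat_lit 0) (.e (nat_lit 402789) (nat_lit 0) .nil) .nil))))) (.nd (nat_lit 8) (.nd (nat_lit 9) 
(.lf (nat_lit 592092) (.g (nat_lit 1158) (.e (nat_lit 532549) (nat_lit 12) (.e (nat_lit 360475) (nat_lit 8) (.e (nat_lit 557064) (nat_lit 9) .nil))) (.g (nat_lit 0) (.e (nat_lit 401790) (nat_lit 0) .nil) .nil))) 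
(.lf (nat_lit 592604) (.g (nat_lit 5205) (.e (nat_lit 532550) (nat_lit 12) (.e (nat_lit 360475) (nat_lit 8) (.e (nat_lit 557091) (nat_lit 12) (.e (nat_lit 164022) (nat_lit 46) (.e (nat_lit 704738) (nat_lit 11) (.e (nat_lit 16389) (nat_lit 0) (.e (nat_lit 3248) (nat_lit 197) .nil))))))) (.g (nat_lit 1) (.e (nat_lit 402478) (nat_lit 0) .nil) .nil)))) (.nd (nat_lit 9) 
(.lf (nat_lit 592348) (.g (nat_lit 389) (.e (nat_lit 532550) (nat_lit 12) (.e (nat_lit 360474) (nat_lit 8) (.e (nat_lit 557094) (nat_lit 12) .nil))) (.g (nat_lit 0) (.e (nat_lit 402198) (nat_lit 0) .nil) .nil))) 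
(.lf (nat_lit 592860) (.g (nat_lit 2747) (.e (nat_lit 532563) (nat_lit 15) (.e (nat_lit 385066) (nat_lit 26) (.e (nat_lit 532534) (nat_lit 9) (.e (nat_lit 336019) (nat_lit 3) (.e (nat_lit 98333) (nat_lit 18) (.e (nat_lit 164242) (nat_lit 195) (.e (nat_lit 2610) (nat_lit 163) (.e (nat_lit 163964) (nat_lit 25) .nil)))))))) (.g (nat_lit 1) (.e (nat_lit 403069) (nat_lit 0) .nil) .nil))))))) 
(.nd (nat_lit 6) (.nd (nat_lit 7) (.nd (nat_lit 8) (.nd (nat_lit 9) 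
(.lf (nat_lit 591932) (.g (nat_lit 1084) (.e (nat_lit 532547) (nat_lit 11) (.e (nat_lit 352315) (nat_lit 23) (.e (nat_lit 98349) (nat_lit 24) (.e (nat_lit 409648) (nat_lit 18) .nil)))) (.g (nat_lit 0) (.e (nat_lit 401534) (nat_lit 0) .nil) .nil))) 
(.lf (nat_lit 592444) (.g (nat_lit 5576) (.e (nat_lit 532550) (nat_lit 12) (.e (nat_lit 360475) (nat_lit 8) (.e (nat_lit 557085) (nat_lit 11) (.e (nat_lit 24665) (nat_lit 14) (.e (nat_lit 401418) (nat_lit 0) (.e (nat_lit 3249) (nat_lit 197) .nil)))))) (.g (nat_lit 1) (.e (nat_lit 402310) (nat_lit 0) .nil) .nil)))) (.nd (nat_lit 9) 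
(.lf (nat_lit 592188) (.g (nat_lit 2574) (.e (nat_lit 532550) (nat_lit 12) (.e (nat_lit 360474) (nat_lit 8) (.e (nat_lit 557085) (nat_lit 11) (.e (nat_lit 24584) (nat_lit 0) (.e (nat_lit 6113) (nat_lit 332) .nil))))) (.g (nat_lit 0) (.e (nat_lit 402033) (nat_lit 0) .nil) .nil))) 
(.lf (nat_lit 592700) (.g (nat_lit 2044) (.e (nat_lit 532557) (nat_lit 14) (.e (nat_lit 376865) (nat_lit 22) (.e (nat_lit 90185) (nat_lit 17) (.e (nat_lit 237585) (nat_lit 1) .nil)))) (.g (nat_lit 0) (.e (nat_lit 402654) (nat_lit 0) .nil) .nil))))) (.nd (nat_lit 8) (.nd (nat_lit 9) 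
(.lf (nat_lit 592060) (.g (nat_lit 3865) (.e (nat_lit 532549) (nat_lit 12) (.e (nat_lit 360473) (nat_lit 8) (.e (nat_lit 557091) (nat_lit 12) (.e (nat_lit 163852) (nat_lit 0) (.e (nat_lit 6427) (nat_lit 342) (.e (nat_lit 229409) (nat_lit 13) (.e (nat_lit 434231) (nat_lit 23) .nil))))))) (.g (nat_lit 1) (.e (nat_lit 401756) (nat_lit 0) .nil) .nil))) 
(.lf (nat_lit 592572) (.g (nat_lit 3341) (.e (nat_lit 532550) (nat_lit 12) (.e (nat_lit 360475) (nat_lit 8) (.e (nat_lit 557091) (nat_lit 12) (.e (nat_lit 164022) (nat_lit 46) (.e (nat_lit 704737) (nat_lit 11) (.e (nat_lit 16388) (nat_lit 0) (.e (nat_lit 7936) (nat_lit 197) .nil))))))) (.g (nat_lit 1) (.e (nat_lit 402446) (nat_lit 0) .nil) .nil)))) (.nd (nat_lit 9) 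
(.lf (nat_lit 592316) (.g (nat_lit 5185) (.e (nat_lit 532550) (nat_lit 12) (.e (nat_lit 360474) (nat_lit 8) (.e (nat_lit 557093) (nat_lit 12) (.e (nat_lit 164022) (nat_lit 46) (.e (nat_lit 704738) (nat_lit 11) (.e (nat_lit 16399) (nat_lit 0) (.e (nat_lit 3230) (nat_lit 197) .nil))))))) (.g (nat_lit 1) (.e (nat_lit 402166) (nat_lit 0) .nil) .nil))) 
(.lf (nat_lit 592828) (.g (nat_lit 1974) (.e (nat_lit 532561) (nat_lit 14) (.e (nat_lit 376865) (nat_lit 22) (.e (nat_lit 90185) (nat_lit 17) (.e (nat_lit 237585) (nat_lit 1) .nil)))) (.g (nat_lit 0) (.e (nat_lit 403020) (nat_lit 0) .nil) .nil)))))) (.nd (nat_lit 7) (.nd (nat_lit 8) (.nd (nat_lit 9) 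
(.lf (nat_lit 591996) (.g (nat_lit 1788) (.e (nat_lit 532549) (nat_lit 12) (.e (nat_lit 360467) (nat_lit 3) (.e (nat_lit 516138) (nat_lit 7) (.e (nat_lit 409648) (nat_lit 18) .nil)))) (.g (nat_lit 0) (.e (nat_lit 401671) (nat_lit 0) .nil) .nil))) 
(.lf (nat_lit 592508) (.g (nat_lit 4038) (.e (nat_lit 532550) (nat_lit 12) (.e (nat_lit 360475) (nat_lit 8) (.e (nat_lit 557091) (nat_lit 12) (.e (nat_lit 163843) (nat_lit 0) (.e (nat_lit 6252) (nat_lit 337) (.e (nat_lit 2643) (nat_lit 165) (.e (nat_lit 180243) (nat_lit 5) .nil))))))) (.g (nat_lit 1) (.e (nat_lit 402379) (nat_lit 0) .nil) .nil)))) (.nd (nat_lit 9) 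
(.lf (nat_lit 592252) (.g (nat_lit 5524) (.e (nat_lit 532550) (nat_lit 12) (.e (nat_lit 360474) (nat_lit 8) (.e (nat_lit 557093) (nat_lit 12) (.e (nat_lit 164022) (nat_lit 46) (.e (nat_lit 704737) (nat_lit 11) (.e (nat_lit 16384) (nat_lit 0) (.e (nat_lit 3237) (nat_lit 197) .nil))))))) (.g (nat_lit 1) (.e (nat_lit 402102) (nat_lit 0) .nil) .nil))) 
(.lf (nat_lit 592764) (.g (nat_lit 1528) (.e (nat_lit 532560) (nat_lit 14) (.e (nat_lit 376842) (nat_lit 11) (.e (nat_lit 426408) (nat_lit 15) (.e (nat_lit 6209) (nat_lit 333) (.e (nat_lit 65280) (nat_lit 271) .nil))))) (.g (nat_lit 0) (.e (nat_lit 402862) (nat_lit 0) .nil) .nil))))) (.nd (nat_lit 8) (.nd (nat_lit 9) 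
(.lf (nat_lit 592124) (.g (nat_lit 2399) (.e (nat_lit 532550) (nat_lit 12) (.e (nat_lit 360466) (nat_lit 3) (.e (nat_lit 516139) (nat_lit 7) (.e (nat_lit 409615) (nat_lit 10) .nil)))) (.g (nat_lit 0) (.e (nat_lit 401910) (nat_lit 0) .nil) .nil))) 
(.lf (nat_lit 592636) (.g (nat_lit 3498) (.e (nat_lit 532551) (nat_lit 12) (.e (nat_lit 360466) (nat_lit 3) (.e (nat_lit 516139) (nat_lit 7) (.e (nat_lit 409645) (nat_lit 18) (.e (nat_lit 303112) (nat_lit 0) .nil))))) (.g (nat_lit 0) (.e (nat_lit 402522) (nat_lit 0) .nil) .nil)))) (.nd (nat_lit 9) 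
(.lf (nat_lit 592380) (.g (nat_lit 2261) (.e (nat_lit 532550) (nat_lit 12) (.e (nat_lit 360474) (nat_lit 8) (.e (nat_lit 557094) (nat_lit 12) (.e (nat_lit 164022) (nat_lit 46) (.e (nat_lit 704736) (nat_lit 11) (.e (nat_lit 16399) (nat_lit 0) (.e (nat_lit 7936) (nat_lit 197) .nil))))))) (.g (nat_lit 1) (.e (nat_lit 402230) (nat_lit 0) .nil) .nil))) 
(.lf (nat_lit 592892) (.g (nat_lit 773) (.e (nat_lit 532563) (nat_lit 15) (.e (nat_lit 385068) (nat_lit 26) (.e (nat_lit 532533) (nat_lit 9) .nil))) (.g (nat_lit 0) (.e (nat_lit 403118) (nat_lit 0) .nil) .nil))))))))))) (.nd (nat_lit 2) (.nd (nat_lit 3) (.nd (nat_lit 4) (.nd (nat_lit 5) (.nd (nat_lit 6) (.nd (nat_lit 7) (.nd (nat_lit 8) (.nd (nat_lit 9) 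
(.lf (nat_lit 591874) (.g (nat_lit 602) (.e (nat_lit 532546) (nat_lit 11) (.e (nat_lit 352315) (nat_lit 23) (.e (nat_lit 98350) (nat_lit 24) .nil))) (.g (nat_lit 0) (.e (nat_lit 401381) (nat_lit 0) .nil) .nil))) 
(.lf (nat_lit 592386) (.g (nat_lit 4808) (.e (nat_lit 532550) (nat_lit 12) (.e (nat_lit 360474) (nat_lit 8) (.e (nat_lit 557094) (nat_lit 12) (.e (nat_lit 164022) (nat_lit 46) (.e (nat_lit 704737) (nat_lit 11) (.e (nat_lit 16385) (nat_lit 0) (.e (nat_lit 3237) (nat_lit 197) .nil))))))) (.g (nat_lit 1) (.e (nat_lit 402236) (nat_lit 0) .nil) .nil)))) (.nd (nat_lit 9) 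
(.lf (nat_lit 592130) (.g (nat_lit 1883) (.e (nat_lit 532550) (nat_lit 12) (.e (nat_lit 360466) (nat_lit 3) (.e (nat_lit 516139) (nat_lit 7) (.e (nat_lit 417536) (nat_lit 10) .nil)))) (.g (nat_lit 0) (.e (nat_lit 401919) (nat_lit 0) .nil) .nil))) 
(.lf (nat_lit 592642) (.g (nat_lit 1297) (.e (nat_lit 532551) (nat_lit 12) (.e (nat_lit 360467) (nat_lit 3) (.e (nat_lit 516139) (nat_lit 7) (.e (nat_lit 409617) (nat_lit 10) .nil)))) (.g (nat_lit 0) (.e (nat_lit 402534) (nat_lit 0) .nil) .nil))))) (.nd (nat_lit 8) (.nd (nat_lit 9) 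
(.lf (nat_lit 592002) (.g (nat_lit 2283) (.e (nat_lit 532549) (nat_lit 12) (.e (nat_lit 360467) (nat_lit 3) (.e (nat_lit 516139) (nat_lit 7) (.e (nat_lit 409617) (nat_lit 10) (.e (nat_lit 5757) (nat_lit 315) .nil))))) (.g (nat_lit 0) (.e (nat_lit 401677) (nat_lit 0) .nil) .nil))) 
(.lf (nat_lit 592514) (.g (nat_lit 4536) (.e (nat_lit 532550) (nat_lit 12) (.e (nat_lit 360475) (nat_lit 8) (.e (nat_lit 557091) (nat_lit 12) (.e (nat_lit 163850) (nat_lit 0) (.e (nat_lit 6273) (nat_lit 337) (.e (nat_lit 2636) (nat_lit 165) (.e (nat_lit 180242) (nat_lit 5) .nil))))))) (.g (nat_lit 1) (.e (nat_lit 402386) (nat_lit 0) .nil) .nil)))) (.nd (nat_lit 9) 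
(.lf (nat_lit 592258) (.g (nat_lit 5072) (.e (nat_lit 532550) (nat_lit 12) (.e (nat_lit 360474) (nat_lit 8) (.e (nat_lit 557093) (nat_lit 12) (.e (nat_lit 164022) (nat_lit 46) (.e (nat_lit 704737) (nat_lit 11) (.e (nat_lit 16385) (nat_lit 0) (.e (nat_lit 3250) (nat_lit 197) .nil))))))) (.g (nat_lit 1) (.e (nat_lit 402108) (nat_lit 0) .nil) .nil))) 
(.lf (nat_lit 592770) (.g (nat_lit 467) (.e (nat_lit 532560) (nat_lit 14) (.e (nat_lit 376860) (nat_lit 21) (.e (nat_lit 57692) (nat_lit 156) .nil))) (.g (nat_lit 0) (.e (nat_lit 402878) (nat_lit 0) .nil) .nil)))))) (.nd (nat_lit 7) (.nd (nat_lit 8) (.nd (nat_lit 9) 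
(.lf (nat_lit 591938) (.g (nat_lit 3769) (.e (nat_lit 532547) (nat_lit 11) (.e (nat_lit 352315) (nat_lit 23) (.e (nat_lit 98350) (nat_lit 24) (.e (nat_lit 409616) (nat_lit 10) (.e (nat_lit 5757) (nat_lit 315) (.e (nat_lit 163962) (nat_lit 25) .nil)))))) (.g (nat_lit 1) (.e (nat_lit 401544) (nat_lit 0) .nil) .nil))) 
(.lf (nat_lit 592450) (.g (nat_lit 2090) (.e (nat_lit 532550) (nat_lit 12) (.e (nat_lit 360475) (nat_lit 8) (.e (nat_lit 557086) (nat_lit 11) (.e (nat_lit 24621) (nat_lit 8) (.e (nat_lit 327705) (nat_lit 10) (.e (nat_lit 7936) (nat_lit 45) .nil)))))) (.g (nat_lit 1) (.e (nat_lit 402318) (nat_lit 0) .nil) .nil)))) (.nd (nat_lit 9) 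
(.lf (nat_lit 592194) (.g (nat_lit 4267) (.e (nat_lit 532550) (nat_lit 12) (.e (nat_lit 360474) (nat_lit 8) (.e (nat_lit 557085) (nat_lit 11) (.e (nat_lit 24622) (nat_lit 8) (.e (nat_lit 327708) (nat_lit 10) (.e (nat_lit 595) (nat_lit 45) .nil)))))) (.g (nat_lit 1) (.e (nat_lit 402044) (nat_lit 0) .nil) .nil))) 
(.lf (nat_lit 592706) (.g (nat_lit 1456) (.e (nat_lit 532558) (nat_lit 14) (.e (nat_lit 376860) (nat_lit 21) (.e (nat_lit 57692) (nat_lit 156) (.e (nat_lit 171776) (nat_lit 62) .nil)))) (.g (nat_lit 0) (.e (nat_lit 402702) (nat_lit 0) .nil) .nil))))) (.nd (nat_lit 8) (.nd (nat_lit 9) 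
(.lf (nat_lit 592066) (.g (nat_lit 1676) (.e (nat_lit 532549) (nat_lit 12) (.e (nat_lit 360473) (nat_lit 8) (.e (nat_lit 557091) (nat_lit 12) (.e (nat_lit 164022) (nat_lit 46) (.e (nat_lit 704738) (nat_lit 11) .nil))))) (.g (nat_lit 0) (.e (nat_lit 401763) (nat_lit 0) .nil) .nil))) 
(.lf (nat_lit 592578) (.g (nat_lit 3210) (.e (nat_lit 532550) (nat_lit 12) (.e (nat_lit 360475) (nat_lit 8) (.e (nat_lit 557091) (nat_lit 12) (.e (nat_lit 164022) (nat_lit 46) (.e (nat_lit 704737) (nat_lit 11) (.e (nat_lit 16396) (nat_lit 0) (.e (nat_lit 7936) (nat_lit 197) .nil))))))) (.g (nat_lit 1) (.e (nat_lit 402452) (nat_lit 0) .nil) .nil)))) (.nd (nat_lit 9) 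
(.lf (nat_lit 592322) (.g (nat_lit 5398) (.e (nat_lit 532550) (nat_lit 12) (.e (nat_lit 360474) (nat_lit 8) (.e (nat_lit 557093) (nat_lit 12) (.e (nat_lit 164022) (nat_lit 46) (.e (nat_lit 704738) (nat_lit 11) (.e (nat_lit 16401) (nat_lit 0) (.e (nat_lit 3233) (nat_lit 197) .nil))))))) (.g (nat_lit 1) (.e (nat_lit 402172) (nat_lit 0) .nil) .nil))) 
(.lf (nat_lit 592834) (.g (nat_lit 3674) (.e (nat_lit 532561) (nat_lit 14) (.e (nat_lit 376869) (nat_lit 23) (.e (nat_lit 98350) (nat_lit 24) (.e (nat_lit 409645) (nat_lit 18) (.e (nat_lit 303112) (nat_lit 0) (.e (nat_lit 3252) (nat_lit 197) .nil)))))) (.g (nat_lit 1) (.e (nat_lit 403026) (nat_lit 0) .nil) .nil))))))) (.nd (nat_lit 6) (.nd (nat_lit 7) (.nd (nat_lit 8) (.nd (nat_lit 9) 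
(.lf (nat_lit 591906) (.g (nat_lit 2768) (.e (nat_lit 532547) (nat_lit 11) (.e (nat_lit 352313) (nat_lit 23) (.e (nat_lit 98350) (nat_lit 24) (.e (nat_lit 409617) (nat_lit 10) (.e (nat_lit 5756) (nat_lit 315) (.e (nat_lit 163962) (nat_lit 25) .nil)))))) (.g (nat_lit 1) (.e (nat_lit 401489) (nat_lit 0) .nil) .nil))) 
(.lf (nat_lit 592418) (.g (nat_lit 4005) (.e (nat_lit 532550) (nat_lit 12) (.e (nat_lit 360474) (nat_lit 8) (.e (nat_lit 557094) (nat_lit 12) (.e (nat_lit 164022) (nat_lit 46) (.e (nat_lit 704738) (nat_lit 11) (.e (nat_lit 16390) (nat_lit 0) (.e (nat_lit 3241) (nat_lit 197) .nil))))))) (.g (nat_lit 1) (.e (nat_lit 402268) (nat_lit 0) .nil) .nil)))) (.nd (nat_lit 9) 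
(.lf (nat_lit 592162) (.g (nat_lit 3591) (.e (nat_lit 532550) (nat_lit 12) (.e (nat_lit 368384) (nat_lit 3) (.e (nat_lit 516139) (nat_lit 7) (.e (nat_lit 409645) (nat_lit 18) (.e (nat_lit 303112) (nat_lit 0) (.e (nat_lit 3252) (nat_lit 197) .nil)))))) (.g (nat_lit 1) (.e (nat_lit 401977) (nat_lit 0) .nil) .nil))) 
(.lf (nat_lit 592674) (.g (nat_lit 1419) (.e (nat_lit 532553) (nat_lit 13) (.e (nat_lit 368676) (nat_lit 21) (.e (nat_lit 516131) (nat_lit 3) (.e (nat_lit 221211) (nat_lit 22) (.e (nat_lit 196614) (nat_lit 0) .nil))))) (.g (nat_lit 0) (.e (nat_lit 402586) (nat_lit 0) .nil) .nil))))) (.nd (nat_lit 8) (.nd (nat_lit 9) 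
(.lf (nat_lit 592034) (.g (nat_lit 2105) (.e (nat_lit 532549) (nat_lit 12) (.e (nat_lit 360473) (nat_lit 8) (.e (nat_lit 557087) (nat_lit 11) (.e (nat_lit 24587) (nat_lit 0) .nil)))) (.g (nat_lit 0) (.e (nat_lit 401722) (nat_lit 0) .nil) .nil))) 
(.lf (nat_lit 592546) (.g (nat_lit 1751) (.e (nat_lit 532550) (nat_lit 12) (.e (nat_lit 360475) (nat_lit 8) (.e (nat_lit 557091) (nat_lit 12) (.e (nat_lit 164022) (nat_lit 46) (.e (nat_lit 704735) (nat_lit 11) (.e (nat_lit 16399) (nat_lit 0) (.e (nat_lit 7936) (nat_lit 197) .nil))))))) (.g (nat_lit 1) (.e (nat_lit 402420) (nat_lit 0) .nil) .nil)))) (.nd (nat_lit 9) 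
(.lf (nat_lit 592290) (.g (nat_lit 4653) (.e (nat_lit 532550) (nat_lit 12) (.e (nat_lit 360474) (nat_lit 8) (.e (nat_lit 557093) (nat_lit 12) (.e (nat_lit 164022) (nat_lit 46) (.e (nat_lit 704738) (nat_lit 11) (.e (nat_lit 16386) (nat_lit 0) (.e (nat_lit 3229) (nat_lit 197) .nil))))))) (.g (nat_lit 1) (.e (nat_lit 402140) (nat_lit 0) .nil) .nil))) 
(.lf (nat_lit 592802) (.g (nat_lit 1411) (.e (nat_lit 532560) (nat_lit 14) (.e (nat_lit 376869) (nat_lit 23) (.e (nat_lit 98350) (nat_lit 24) (.e (nat_lit 409614) (nat_lit 10) .nil)))) (.g (nat_lit 0) (.e (nat_lit 402950) (nat_lit 0) .nil) .nil)))))) (.nd (nat_lit 7) (.nd (nat_lit 8) (.nd (nat_lit 9) 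
(.lf (nat_lit 591970) (.g (nat_lit 1298) (.e (nat_lit 532548) (nat_lit 11) (.e (nat_lit 352315) (nat_lit 23) (.e (nat_lit 98350) (nat_lit 24) (.e (nat_lit 409649) (nat_lit 18) .nil)))) (.g (nat_lit 0) (.e (nat_lit 401627) (nat_lit 0) .nil) .nil))) 
(.lf (nat_lit 592482) (.g (nat_lit 3051) (.e (nat_lit 532550) (nat_lit 12) (.e (nat_lit 360475) (nat_lit 8) (.e (nat_lit 557087) (nat_lit 11) (.e (nat_lit 24663) (nat_lit 14) (.e (nat_lit 401408) (nat_lit 0) .nil))))) (.g (nat_lit 0) (.e (nat_lit 402352) (nat_lit 0) .nil) .nil)))) (.nd (nat_lit 9) 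
(.lf (nat_lit 592226) (.g (nat_lit 4998) (.e (nat_lit 532550) (nat_lit 12) (.e (nat_lit 360474) (nat_lit 8) (.e (nat_lit 557093) (nat_lit 12) (.e (nat_lit 164022) (nat_lit 46) (.e (nat_lit 704629) (nat_lit 9) (.e (nat_lit 442) (nat_lit 33) (.e (nat_lit 442112) (nat_lit 23) .nil))))))) (.g (nat_lit 1) (.e (nat_lit 402076) (nat_lit 0) .nil) .nil))) 
(.lf (nat_lit 592738) (.g (nat_lit 2336) (.e (nat_lit 532559) (nat_lit 14) (.e (nat_lit 376868) (nat_lit 23) (.e (nat_lit 98350) (nat_lit 24) (.e (nat_lit 409616) (nat_lit 10) (.e (nat_lit 5762) (nat_lit 315) .nil))))) (.g (nat_lit 0) (.e (nat_lit 402796) (nat_lit 0) .nil) .nil))))) (.nd (nat_lit 8) (.nd (nat_lit 9) 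
(.lf (nat_lit 592098) (.g (nat_lit 3983) (.e (nat_lit 532549) (nat_lit 12) (.e (nat_lit 360475) (nat_lit 8) (.e (nat_lit 557087) (nat_lit 11) (.e (nat_lit 24617) (nat_lit 7) (.e (nat_lit 319505) (nat_lit 10) (.e (nat_lit 7936) (nat_lit 45) .nil)))))) (.g (nat_lit 1) (.e (nat_lit 401802) (nat_lit 0) .nil) .nil))) 
(.lf (nat_lit 592610) (.g (nat_lit 3198) (.e (nat_lit 532550) (nat_lit 12) (.e (nat_lit 360475) (nat_lit 8) (.e (nat_lit 557091) (nat_lit 12) (.e (nat_lit 164022) (nat_lit 46) (.e (nat_lit 704738) (nat_lit 11) (.e (nat_lit 16392) (nat_lit 0) (.e (nat_lit 7936) (nat_lit 197) .nil))))))) (.g (nat_lit 1) (.e (nat_lit 402484) (nat_lit 0) .nil) .nil)))) (.nd (nat_lit 9) 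
(.lf (nat_lit 592354) (.g (nat_lit 4499) (.e (nat_lit 532550) (nat_lit 12) (.e (nat_lit 360474) (nat_lit 8) (.e (nat_lit 557094) (nat_lit 12) (.e (nat_lit 164022) (nat_lit 46) (.e (nat_lit 704628) (nat_lit 9) (.e (nat_lit 471) (nat_lit 36) (.e (nat_lit 458788) (nat_lit 23) .nil))))))) (.g (nat_lit 1) (.e (nat_lit 402204) (nat_lit 0) .nil) .nil))) 
(.lf (nat_lit 592866) (.g (nat_lit 2493) (.e (nat_lit 532563) (nat_lit 15) (.e (nat_lit 385066) (nat_lit 26) (.e (nat_lit 532534) (nat_lit 9) (.e (nat_lit 336019) (nat_lit 3) (.e (nat_lit 98338) (nat_lit 19) (.e (nat_lit 213053) (nat_lit 17) (.e (nat_lit 171776) (nat_lit 86) .nil))))))) (.g (nat_lit 1) (.e (nat_lit 403082) (nat_lit 0) .nil) .nil)))))))) 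
(.nd (nat_lit 5) (.nd (nat_lit 6) (.nd (nat_lit 7) (.nd (nat_lit 8) (.nd (nat_lit 9) 
(.lf (nat_lit 591890) (.g (nat_lit 3346) (.e (nat_lit 532547) (nat_lit 11) (.e (nat_lit 352295) (nat_lit 20) (.e (nat_lit 1848) (nat_lit 124) (.e (nat_lit 557087) (nat_lit 11) (.e (nat_lit 24617) (nat_lit 7) (.e (nat_lit 319504) (nat_lit 10) (.e (nat_lit 7936) (nat_lit 45) .nil))))))) (.g (nat_lit 1) (.e (nat_lit 401437) (nat_lit 0) .nil) .nil))) 
(.lf (nat_lit 592402) (.g (nat_lit 3516) (.e (nat_lit 532550) (nat_lit 12) (.e (nat_lit 360474) (nat_lit 8) (.e (nat_lit 557094) (nat_lit 12) (.e (nat_lit 164022) (nat_lit 46) (.e (nat_lit 704737) (nat_lit 11) (.e (nat_lit 16401) (nat_lit 0) (.e (nat_lit 3249) (nat_lit 197) .nil))))))) (.g (nat_lit 1) (.e (nat_lit 402252) (nat_lit 0) .nil) .nil)))) (.nd (nat_lit 9) 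
(.lf (nat_lit 592146) (.g (nat_lit 5777) (.e (nat_lit 532550) (nat_lit 12) (.e (nat_lit 360467) (nat_lit 3) (.e (nat_lit 516139) (nat_lit 7) (.e (nat_lit 409645) (nat_lit 18) (.e (nat_lit 303112) (nat_lit 0) (.e (nat_lit 3252) (nat_lit 197) .nil)))))) (.g (nat_lit 1) (.e (nat_lit 401945) (nat_lit 0) .nil) .nil))) 
(.lf (nat_lit 592658) (.g (nat_lit 2032) (.e (nat_lit 532551) (nat_lit 12) (.e (nat_lit 360467) (nat_lit 3) (.e (nat_lit 516142) (nat_lit 8) (.e (nat_lit 417820) (nat_lit 10) (.e (nat_lit 5761) (nat_lit 315) .nil))))) (.g (nat_lit 0) (.e (nat_lit 402552) (nat_lit 0) .nil) .nil))))) (.nd (nat_lit 8) (.nd (nat_lit 9) 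
(.lf (nat_lit 592018) (.g (nat_lit 3169) (.e (nat_lit 532549) (nat_lit 12) (.e (nat_lit 360472) (nat_lit 8) (.e (nat_lit 557090) (nat_lit 12) (.e (nat_lit 164020) (nat_lit 45) (.e (nat_lit 696330) (nat_lit 5) .nil))))) (.g (nat_lit 0) (.e (nat_lit 401695) (nat_lit 0) .nil) .nil))) 
(.lf (nat_lit 592530) (.g (nat_lit 5565) (.e (nat_lit 532550) (nat_lit 12) (.e (nat_lit 360475) (nat_lit 8) (.e (nat_lit 557091) (nat_lit 12) (.e (nat_lit 164022) (nat_lit 46) (.e (nat_lit 704629) (nat_lit 9) (.e (nat_lit 452) (nat_lit 33) (.e (nat_lit 434232) (nat_lit 23) .nil))))))) (.g (nat_lit 1) (.e (nat_lit 402403) (nat_lit 0) .nil) .nil)))) (.nd (nat_lit 9) 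
(.lf (nat_lit 592274) (.g (nat_lit 3077) (.e (nat_lit 532550) (nat_lit 12) (.e (nat_lit 360474) (nat_lit 8) (.e (nat_lit 557093) (nat_lit 12) (.e (nat_lit 164022) (nat_lit 46) (.e (nat_lit 704737) (nat_lit 11) (.e (nat_lit 16399) (nat_lit 0) (.e (nat_lit 7936) (nat_lit 197) .nil))))))) (.g (nat_lit 1) (.e (nat_lit 402124) (nat_lit 0) .nil) .nil))) 
(.lf (nat_lit 592786) (.g (nat_lit 1854) (.e (nat_lit 532560) (nat_lit 14) (.e (nat_lit 376868) (nat_lit 23) (.e (nat_lit 98350) (nat_lit 24) (.e (nat_lit 409617) (nat_lit 10) (.e (nat_lit 7936) (nat_lit 315) .nil))))) (.g (nat_lit 0) (.e (nat_lit 402929) (nat_lit 0) .nil) .nil)))))) (.nd (nat_lit 7) (.nd (nat_lit 8) (.nd (nat_lit 9) 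
(.lf (nat_lit 591954) (.g (nat_lit 1146) (.e (nat_lit 532547) (nat_lit 11) (.e (nat_lit 352315) (nat_lit 23) (.e (nat_lit 98350) (nat_lit 24) (.e (nat_lit 409649) (nat_lit 18) .nil)))) (.g (nat_lit 0) (.e (nat_lit 401563) (nat_lit 0) .nil) .nil))) 
(.lf (nat_lit 592466) (.g (nat_lit 1928) (.e (nat_lit 532550) (nat_lit 12) (.e (nat_lit 360475) (nat_lit 8) (.e (nat_lit 557086) (nat_lit 11) (.e (nat_lit 24665) (nat_lit 14) (.e (nat_lit 401419) (nat_lit 0) (.e (nat_lit 7936) (nat_lit 197) .nil)))))) (.g (nat_lit 1) (.e (nat_lit 402336) (nat_lit 0) .nil) .nil)))) (.nd (nat_lit 9) 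
(.lf (nat_lit 592210) (.g (nat_lit 7548) (.e (nat_lit 532550) (nat_lit 12) (.e (nat_lit 360474) (nat_lit 8) (.e (nat_lit 557087) (nat_lit 11) (.e (nat_lit 24617) (nat_lit 7) (.e (nat_lit 319504) (nat_lit 10) (.e (nat_lit 7936) (nat_lit 45) .nil)))))) (.g (nat_lit 1) (.e (nat_lit 402060) (nat_lit 0) .nil) .nil))) 
(.lf (nat_lit 592722) (.g (nat_lit 2190) (.e (nat_lit 532558) (nat_lit 14) (.e (nat_lit 376868) (nat_lit 23) (.e (nat_lit 98350) (nat_lit 24) (.e (nat_lit 409649) (nat_lit 18) (.e (nat_lit 303111) (nat_lit 0) (.e (nat_lit 3252) (nat_lit 197) .nil)))))) (.g (nat_lit 1) (.e (nat_lit 402737) (nat_lit 0) .nil) .nil))))) (.nd (nat_lit 8) (.nd (nat_lit 9) 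
(.lf (nat_lit 592082) (.g (nat_lit 2178) (.e (nat_lit 532549) (nat_lit 12) (.e (nat_lit 360473) (nat_lit 8) (.e (nat_lit 557094) (nat_lit 12) (.e (nat_lit 164022) (nat_lit 46) (.e (nat_lit 704737) (nat_lit 11) (.e (nat_lit 16401) (nat_lit 0) (.e (nat_lit 3249) (nat_lit 197) .nil))))))) (.g (nat_lit 1) (.e (nat_lit 401780) (nat_lit 0) .nil) .nil))) 
(.lf (nat_lit 592594) (.g (nat_lit 5083) (.e (nat_lit 532550) (nat_lit 12) (.e (nat_lit 360475) (nat_lit 8) (.e (nat_lit 557091) (nat_lit 12) (.e (nat_lit 164022) (nat_lit 46) (.e (nat_lit 704738) (nat_lit 11) (.e (nat_lit 16385) (nat_lit 0) (.e (nat_lit 3239) (nat_lit 197) .nil))))))) (.g (nat_lit 1) (.e (nat_lit 402468) (nat_lit 0) .nil) .nil)))) (.nd (nat_lit 9) 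
(.lf (nat_lit 592338) (.g (nat_lit 3575) (.e (nat_lit 532550) (nat_lit 12) (.e (nat_lit 360474) (nat_lit 8) (.e (nat_lit 557093) (nat_lit 12) (.e (nat_lit 164023) (nat_lit 46) (.e (nat_lit 704737) (nat_lit 11) (.e (nat_lit 16386) (nat_lit 0) (.e (nat_lit 3229) (nat_lit 197) .nil))))))) (.g (nat_lit 1) (.e (nat_lit 402188) (nat_lit 0) .nil) .nil))) 
(.lf (nat_lit 592850) (.g (nat_lit 1643) (.e (nat_lit 532563) (nat_lit 15) (.e (nat_lit 385066) (nat_lit 26) (.e (nat_lit 532530) (nat_lit 9) (.e (nat_lit 336326) (nat_lit 18) (.e (nat_lit 204854) (nat_lit 26) .nil))))) (.g (nat_lit 0) (.e (nat_lit 403059) (nat_lit 0) .nil) .nil))))))) (.nd (nat_lit 6) (.nd (nat_lit 7) (.nd (nat_lit 8) (.nd (nat_lit 9) 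
(.lf (nat_lit 591922) (.g (nat_lit 1554) (.e (nat_lit 532547) (nat_lit 11) (.e (nat_lit 352315) (nat_lit 23) (.e (nat_lit 98349) (nat_lit 24) (.e (nat_lit 409614) (nat_lit 10) .nil)))) (.g (nat_lit 0) (.e (nat_lit 401520) (nat_lit 0) .nil) .nil))) 
(.lf (nat_lit 592434) (.g (nat_lit 4849) (.e (nat_lit 532550) (nat_lit 12) (.e (nat_lit 360474) (nat_lit 8) (.e (nat_lit 557094) (nat_lit 12) (.e (nat_lit 164022) (nat_lit 46) (.e (nat_lit 704738) (nat_lit 11) (.e (nat_lit 16402) (nat_lit 0) (.e (nat_lit 3253) (nat_lit 197) .nil))))))) (.g (nat_lit 1) (.e (nat_lit 402284) (nat_lit 0) .nil) .nil)))) (.nd (nat_lit 9) 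
(.lf (nat_lit 592178) (.g (nat_lit 943) (.e (nat_lit 532550) (nat_lit 12) (.e (nat_lit 360473) (nat_lit 8) (.e (nat_lit 557087) (nat_lit 11) (.e (nat_lit 24665) (nat_lit 14) .nil)))) (.g (nat_lit 0) (.e (nat_lit 402004) (nat_lit 0) .nil) .nil))) 
(.lf (nat_lit 592690) (.g (nat_lit 3372) (.e (nat_lit 532554) (nat_lit 13) (.e (nat_lit 368676) (nat_lit 21) (.e (nat_lit 516131) (nat_lit 3) (.e (nat_lit 221212) (nat_lit 22) (.e (nat_lit 196660) (nat_lit 12) (.e (nat_lit 57507) (nat_lit 39) (.e (nat_lit 647181) (nat_lit 3) (.e (nat_lit 163964) (nat_lit 25) .nil)))))))) (.g (nat_lit 1) (.e (nat_lit 402615) (nat_lit 0) .nil) .nil))))) 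
(.nd (nat_lit 8) (.nd (nat_lit 9) 
(.lf (nat_lit 592050) (.g (nat_lit 312) (.e (nat_lit 532549) (nat_lit 12) (.e (nat_lit 360473) (nat_lit 8) (.e (nat_lit 557089) (nat_lit 12) .nil))) (.g (nat_lit 0) (.e (nat_lit 401740) (nat_lit 0) .nil) .nil))) 
(.lf (nat_lit 592562) (.g (nat_lit 5290) (.e (nat_lit 532550) (nat_lit 12) (.e (nat_lit 360475) (nat_lit 8) (.e (nat_lit 557091) (nat_lit 12) (.e (nat_lit 164022) (nat_lit 46) (.e (nat_lit 704737) (nat_lit 11) (.e (nat_lit 16384) (nat_lit 0) (.e (nat_lit 3237) (nat_lit 197) .nil))))))) (.g (nat_lit 1) (.e (nat_lit 402436) (nat_lit 0) .nil) .nil)))) (.nd (nat_lit 9) 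
(.lf (nat_lit 592306) (.g (nat_lit 5927) (.e (nat_lit 532550) (nat_lit 12) (.e (nat_lit 360474) (nat_lit 8) (.e (nat_lit 557093) (nat_lit 12) (.e (nat_lit 164022) (nat_lit 46) (.e (nat_lit 704738) (nat_lit 11) (.e (nat_lit 16390) (nat_lit 0) (.e (nat_lit 3242) (nat_lit 197) .nil))))))) (.g (nat_lit 1) (.e (nat_lit 402156) (nat_lit 0) .nil) .nil))) 
(.lf (nat_lit 592818) (.g (nat_lit 613) (.e (nat_lit 532561) (nat_lit 14) (.e (nat_lit 376862) (nat_lit 22) (.e (nat_lit 90128) (nat_lit 9) .nil))) (.g (nat_lit 0) (.e (nat_lit 402997) (nat_lit 0) .nil) .nil)))))) (.nd (nat_lit 7) (.nd (nat_lit 8) (.nd (nat_lit 9) 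
(.lf (nat_lit 591986) (.g (nat_lit 3887) (.e (nat_lit 532549) (nat_lit 12) (.e (nat_lit 360466) (nat_lit 3) (.e (nat_lit 516139) (nat_lit 7) (.e (nat_lit 409646) (nat_lit 18) (.e (nat_lit 303112) (nat_lit 0) (.e (nat_lit 3252) (nat_lit 197) .nil)))))) (.g (nat_lit 1) (.e (nat_lit 401654) (nat_lit 0) .nil) .nil))) 
(.lf (nat_lit 592498) (.g (nat_lit 1679) (.e (nat_lit 532550) (nat_lit 12) (.e (nat_lit 360475) (nat_lit 8) (.e (nat_lit 557089) (nat_lit 12) (.e (nat_lit 163850) (nat_lit 0) (.e (nat_lit 6273) (nat_lit 337) (.e (nat_lit 2635) (nat_lit 165) (.e (nat_lit 188160) (nat_lit 5) .nil))))))) (.g (nat_lit 1) (.e (nat_lit 402368) (nat_lit 0) .nil) .nil)))) (.nd (nat_lit 9) 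
(.lf (nat_lit 592242) (.g (nat_lit 3628) (.e (nat_lit 532550) (nat_lit 12) (.e (nat_lit 360474) (nat_lit 8) (.e (nat_lit 557093) (nat_lit 12) (.e (nat_lit 164022) (nat_lit 46) (.e (nat_lit 704736) (nat_lit 11) (.e (nat_lit 16388) (nat_lit 0) (.e (nat_lit 3229) (nat_lit 197) .nil))))))) (.g (nat_lit 1) (.e (nat_lit 402092) (nat_lit 0) .nil) .nil))) 
(.lf (nat_lit 592754) (.g (nat_lit 1360) (.e (nat_lit 532559) (nat_lit 14) (.e (nat_lit 376869) (nat_lit 23) (.e (nat_lit 98350) (nat_lit 24) (.e (nat_lit 409617) (nat_lit 10) .nil)))) (.g (nat_lit 0) (.e (nat_lit 402814) (nat_lit 0) .nil) .nil))))) (.nd (nat_lit 8) (.nd (nat_lit 9) 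
(.lf (nat_lit 592114) (.g (nat_lit 5903) (.e (nat_lit 532549) (nat_lit 12) (.e (nat_lit 360475) (nat_lit 8) (.e (nat_lit 557091) (nat_lit 12) (.e (nat_lit 164022) (nat_lit 46) (.e (nat_lit 704629) (nat_lit 9) (.e (nat_lit 442) (nat_lit 33) (.e (nat_lit 434234) (nat_lit 23) .nil))))))) (.g (nat_lit 1) (.e (nat_lit 401821) (nat_lit 0) .nil) .nil))) 
(.lf (nat_lit 592626) (.g (nat_lit 4510) (.e (nat_lit 532550) (nat_lit 12) (.e (nat_lit 360475) (nat_lit 8) (.e (nat_lit 557091) (nat_lit 12) (.e (nat_lit 164022) (nat_lit 46) (.e (nat_lit 704738) (nat_lit 11) (.e (nat_lit 24320) (nat_lit 0) (.e (nat_lit 3249) (nat_lit 197) .nil))))))) (.g (nat_lit 1) (.e (nat_lit 402500) (nat_lit 0) .nil) .nil)))) (.nd (nat_lit 9) 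
(.lf (nat_lit 592370) (.g (nat_lit 1684) (.e (nat_lit 532550) (nat_lit 12) (.e (nat_lit 360474) (nat_lit 8) (.e (nat_lit 557094) (nat_lit 12) (.e (nat_lit 164022) (nat_lit 46) (.e (nat_lit 704735) (nat_lit 11) (.e (nat_lit 16399) (nat_lit 0) (.e (nat_lit 7936) (nat_lit 197) .nil))))))) (.g (nat_lit 1) (.e (nat_lit 402220) (nat_lit 0) .nil) .nil))) 
(.lf (nat_lit 592882) (.g (nat_lit 2235) (.e (nat_lit 532563) (nat_lit 15) (.e (nat_lit 385066) (nat_lit 26) (.e (nat_lit 532553) (nat_lit 13) (.e (nat_lit 368676) (nat_lit 21) (.e (nat_lit 516122) (nat_lit 2) (.e (nat_lit 213053) (nat_lit 17) (.e (nat_lit 171776) (nat_lit 86) .nil))))))) (.g (nat_lit 1) (.e (nat_lit 403100) (nat_lit 0) .nil) .nil))))))))) 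
(.nd (nat_lit 4) (.nd (nat_lit 5) (.nd (nat_lit 6) (.nd (nat_lit 7) (.nd (nat_lit 8) 
(.nd (nat_lit 9) 
(.lf (nat_lit 591882) (.g (nat_lit 2474) (.e (nat_lit 532546) (nat_lit 11) (.e (nat_lit 352315) (nat_lit 23) (.e (nat_lit 98350) (nat_lit 24) (.e (nat_lit 409648) (nat_lit 18) (.e (nat_lit 303108) (nat_lit 0) .nil))))) (.g (nat_lit 0) (.e (nat_lit 401390) (nat_lit 0) .nil) .nil))) 
(.lf (nat_lit 592394) (.g (nat_lit 4752) (.e (nat_lit 532550) (nat_lit 12) (.e (nat_lit 360474) (nat_lit 8) (.e (nat_lit 557094) (nat_lit 12) (.e (nat_lit 164022) (nat_lit 46) (.e (nat_lit 704737) (nat_lit 11) (.e (nat_lit 16390) (nat_lit 0) (.e (nat_lit 3237) (nat_lit 197) .nil))))))) (.g (nat_lit 1) (.e (nat_lit 402244) (nat_lit 0) .nil) .nil)))) (.nd (nat_lit 9) 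
(.lf (nat_lit 592138) (.g (nat_lit 381) (.e (nat_lit 532550) (nat_lit 12) (.e (nat_lit 360467) (nat_lit 3) (.e (nat_lit 516139) (nat_lit 7) .nil))) (.g (nat_lit 0) (.e (nat_lit 401934) (nat_lit 0) .nil) .nil))) 
(.lf (nat_lit 592650) (.g (nat_lit 2113) (.e (nat_lit 532551) (nat_lit 12) (.e (nat_lit 360467) (nat_lit 3) (.e (nat_lit 516139) (nat_lit 7) (.e (nat_lit 409648) (nat_lit 18) (.e (nat_lit 303104) (nat_lit 0) .nil))))) (.g (nat_lit 0) (.e (nat_lit 402542) (nat_lit 0) .nil) .nil))))) (.nd (nat_lit 8) (.nd (nat_lit 9) 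
(.lf (nat_lit 592010) (.g (nat_lit 2197) (.e (nat_lit 532549) (nat_lit 12) (.e (nat_lit 360468) (nat_lit 3) (.e (nat_lit 516139) (nat_lit 7) (.e (nat_lit 409616) (nat_lit 10) (.e (nat_lit 5763) (nat_lit 315) .nil))))) (.g (nat_lit 0) (.e (nat_lit 401686) (nat_lit 0) .nil) .nil))) 
(.lf (nat_lit 592522) (.g (nat_lit 5085) (.e (nat_lit 532550) (nat_lit 12) (.e (nat_lit 360475) (nat_lit 8) (.e (nat_lit 557091) (nat_lit 12) (.e (nat_lit 164022) (nat_lit 46) (.e (nat_lit 704628) (nat_lit 9) (.e (nat_lit 473) (nat_lit 36) (.e (nat_lit 458787) (nat_lit 23) .nil))))))) (.g (nat_lit 1) (.e (nat_lit 402395) (nat_lit 0) .nil) .nil)))) (.nd (nat_lit 9) 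
(.lf (nat_lit 592266) (.g (nat_lit 4221) (.e (nat_lit 532550) (nat_lit 12) (.e (nat_lit 360474) (nat_lit 8) (.e (nat_lit 557093) (nat_lit 12) (.e (nat_lit 164022) (nat_lit 46) (.e (nat_lit 704737) (nat_lit 11) (.e (nat_lit 16389) (nat_lit 0) (.e (nat_lit 3241) (nat_lit 197) .nil))))))) (.g (nat_lit 1) (.e (nat_lit 402116) (nat_lit 0) .nil) .nil))) 
(.lf (nat_lit 592778) (.g (nat_lit 1560) (.e (nat_lit 532560) (nat_lit 14) (.e (nat_lit 376867) (nat_lit 23) (.e (nat_lit 98350) (nat_lit 24) (.e (nat_lit 417536) (nat_lit 18) .nil)))) (.g (nat_lit 0) (.e (nat_lit 402921) (nat_lit 0) .nil) .nil)))))) (.nd (nat_lit 7) (.nd (nat_lit 8) (.nd (nat_lit 9) 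
(.lf (nat_lit 591946) (.g (nat_lit 4655) (.e (nat_lit 532547) (nat_lit 11) (.e (nat_lit 352315) (nat_lit 23) (.e (nat_lit 98350) (nat_lit 24) (.e (nat_lit 409645) (nat_lit 18) (.e (nat_lit 303112) (nat_lit 0) (.e (nat_lit 3252) (nat_lit 197) .nil)))))) (.g (nat_lit 1) (.e (nat_lit 401555) (nat_lit 0) .nil) .nil))) 
(.lf (nat_lit 592458) (.g (nat_lit 2309) (.e (nat_lit 532550) (nat_lit 12) (.e (nat_lit 360475) (nat_lit 8) (.e (nat_lit 557086) (nat_lit 11) (.e (nat_lit 24665) (nat_lit 14) (.e (nat_lit 401414) (nat_lit 0) (.e (nat_lit 7936) (nat_lit 197) .nil)))))) (.g (nat_lit 1) (.e (nat_lit 402328) (nat_lit 0) .nil) .nil)))) (.nd (nat_lit 9) 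
(.lf (nat_lit 592202) (.g (nat_lit 5263) (.e (nat_lit 532550) (nat_lit 12) (.e (nat_lit 360474) (nat_lit 8) (.e (nat_lit 557085) (nat_lit 11) (.e (nat_lit 24665) (nat_lit 14) (.e (nat_lit 401417) (nat_lit 0) (.e (nat_lit 3231) (nat_lit 197) .nil)))))) (.g (nat_lit 1) (.e (nat_lit 402052) (nat_lit 0) .nil) .nil))) 
(.lf (nat_lit 592714) (.g (nat_lit 2033) (.e (nat_lit 532558) (nat_lit 14) (.e (nat_lit 376868) (nat_lit 23) (.e (nat_lit 98350) (nat_lit 24) (.e (nat_lit 409616) (nat_lit 10) (.e (nat_lit 7936) (nat_lit 315) .nil))))) (.g (nat_lit 0) (.e (nat_lit 402727) (nat_lit 0) .nil) .nil))))) (.nd (nat_lit 8) (.nd (nat_lit 9) 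
(.lf (nat_lit 592074) (.g (nat_lit 3493) (.e (nat_lit 532549) (nat_lit 12) (.e (nat_lit 360473) (nat_lit 8) (.e (nat_lit 557093) (nat_lit 12) (.e (nat_lit 164023) (nat_lit 46) (.e (nat_lit 704629) (nat_lit 9) (.e (nat_lit 442) (nat_lit 33) (.e (nat_lit 434234) (nat_lit 23) .nil))))))) (.g (nat_lit 1) (.e (nat_lit 401772) (nat_lit 0) .nil) .nil))) 
(.lf (nat_lit 592586) (.g (nat_lit 6085) (.e (nat_lit 532550) (nat_lit 12) (.e (nat_lit 360475) (nat_lit 8) (.e (nat_lit 557091) (nat_lit 12) (.e (nat_lit 164022) (nat_lit 46) (.e (nat_lit 704737) (nat_lit 11) (.e (nat_lit 16401) (nat_lit 0) (.e (nat_lit 3231) (nat_lit 197) .nil))))))) (.g (nat_lit 1) (.e (nat_lit 402460) (nat_lit 0) .nil) .nil)))) (.nd (nat_lit 9) 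
(.lf (nat_lit 592330) (.g (nat_lit 4027) (.e (nat_lit 532550) (nat_lit 12) (.e (nat_lit 360474) (nat_lit 8) (.e (nat_lit 557093) (nat_lit 12) (.e (nat_lit 164023) (nat_lit 46) (.e (nat_lit 704735) (nat_lit 11) (.e (nat_lit 16389) (nat_lit 0) (.e (nat_lit 3241) (nat_lit 197) .nil))))))) (.g (nat_lit 1) (.e (nat_lit 402180) (nat_lit 0) .nil) .nil))) 
(.lf (nat_lit 592842) (.g (nat_lit 1606) (.e (nat_lit 532562) (nat_lit 15) (.e (nat_lit 385093) (nat_lit 49) (.e (nat_lit 778318) (nat_lit 3) (.e (nat_lit 57478) (nat_lit 28) .nil)))) (.g (nat_lit 0) (.e (nat_lit 403035) (nat_lit 0) .nil) .nil))))))) (.nd (nat_lit 6) (.nd (nat_lit 7) (.nd (nat_lit 8) (.nd (nat_lit 9) 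
(.lf (nat_lit 591914) (.g (nat_lit 1677) (.e (nat_lit 532547) (nat_lit 11) (.e (nat_lit 352314) (nat_lit 23) (.e (nat_lit 98350) (nat_lit 24) (.e (nat_lit 409609) (nat_lit 10) .nil)))) (.g (nat_lit 0) (.e (nat_lit 401498) (nat_lit 0) .nil) .nil))) 
(.lf (nat_lit 592426) (.g (nat_lit 4656) (.e (nat_lit 532550) (nat_lit 12) (.e (nat_lit 360474) (nat_lit 8) (.e (nat_lit 557094) (nat_lit 12) (.e (nat_lit 164022) (nat_lit 46) (.e (nat_lit 704738) (nat_lit 11) (.e (nat_lit 16398) (nat_lit 0) (.e (nat_lit 3230) (nat_lit 197) .nil))))))) (.g (nat_lit 1) (.e (nat_lit 402276) (nat_lit 0) .nil) .nil)))) (.nd (nat_lit 9) 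
(.lf (nat_lit 592170) (.g (nat_lit 1930) (.e (nat_lit 532550) (nat_lit 12) (.e (nat_lit 360472) (nat_lit 8) (.e (nat_lit 557090) (nat_lit 12) (.e (nat_lit 163844) (nat_lit 0) .nil)))) (.g (nat_lit 0) (.e (nat_lit 401996) (nat_lit 0) .nil) .nil))) 
(.lf (nat_lit 592682) (.g (nat_lit 2798) (.e (nat_lit 532554) (nat_lit 13) (.e (nat_lit 368676) (nat_lit 21) (.e (nat_lit 516129) (nat_lit 3) (.e (nat_lit 221210) (nat_lit 22) (.e (nat_lit 196658) (nat_lit 12) (.e (nat_lit 57508) (nat_lit 39) (.e (nat_lit 647181) (nat_lit 3) (.e (nat_lit 163964) (nat_lit 25) .nil)))))))) (.g (nat_lit 1) (.e (nat_lit 402606) (nat_lit 0) .nil) .nil))))) 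
(.nd (nat_lit 8) (.nd (nat_lit 9) 
(.lf (nat_lit 592042) (.g (nat_lit 2966) (.e (nat_lit 532549) (nat_lit 12) (.e (nat_lit 360473) (nat_lit 8) (.e (nat_lit 557087) (nat_lit 11) (.e (nat_lit 24617) (nat_lit 7) (.e (nat_lit 319504) (nat_lit 10) (.e (nat_lit 7936) (nat_lit 45) .nil)))))) (.g (nat_lit 1) (.e (nat_lit 401732) (nat_lit 0) .nil) .nil))) 
(.lf (nat_lit 592554) (.g (nat_lit 5054) (.e (nat_lit 532550) (nat_lit 12) (.e (nat_lit 360475) (nat_lit 8) (.e (nat_lit 557091) (nat_lit 12) (.e (nat_lit 164022) (nat_lit 46) (.e (nat_lit 704736) (nat_lit 11) (.e (nat_lit 16391) (nat_lit 0) (.e (nat_lit 3241) (nat_lit 197) .nil))))))) (.g (nat_lit 1) (.e (nat_lit 402428) (nat_lit 0) .nil) .nil)))) (.nd (nat_lit 9) 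
(.lf (nat_lit 592298) (.g (nat_lit 6159) (.e (nat_lit 532550) (nat_lit 12) (.e (nat_lit 360474) (nat_lit 8) (.e (nat_lit 557093) (nat_lit 12) (.e (nat_lit 164022) (nat_lit 46) (.e (nat_lit 704738) (nat_lit 11) (.e (nat_lit 16389) (nat_lit 0) (.e (nat_lit 3242) (nat_lit 197) .nil))))))) (.g (nat_lit 1) (.e (nat_lit 402148) (nat_lit 0) .nil) .nil))) 
(.lf (nat_lit 592810) (.g (nat_lit 1865) (.e (nat_lit 532560) (nat_lit 14) (.e (nat_lit 376869) (nat_lit 23) (.e (nat_lit 98350) (nat_lit 24) (.e (nat_lit 409623) (nat_lit 10) (.e (nat_lit 5761) (nat_lit 315) .nil))))) (.g (nat_lit 0) (.e (nat_lit 402959) (nat_lit 0) .nil) .nil)))))) (.nd (nat_lit 7) (.nd (nat_lit 8) (.nd (nat_lit 9) 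
(.lf (nat_lit 591978) (.g (nat_lit 2225) (.e (nat_lit 532549) (nat_lit 12) (.e (nat_lit 360466) (nat_lit 3) (.e (nat_lit 516139) (nat_lit 7) (.e (nat_lit 409614) (nat_lit 10) (.e (nat_lit 7936) (nat_lit 315) .nil))))) (.g (nat_lit 0) (.e (nat_lit 401646) (nat_lit 0) .nil) .nil))) 
(.lf (nat_lit 592490) (.g (nat_lit 1002) (.e (nat_lit 532550) (nat_lit 12) (.e (nat_lit 360475) (nat_lit 8) (.e (nat_lit 557088) (nat_lit 12) .nil))) (.g (nat_lit 0) (.e (nat_lit 402360) (nat_lit 0) .nil) .nil)))) (.nd (nat_lit 9) 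
(.lf (nat_lit 592234) (.g (nat_lit 5896) (.e (nat_lit 532550) (nat_lit 12) (.e (nat_lit 360474) (nat_lit 8) (.e (nat_lit 557093) (nat_lit 12) (.e (nat_lit 164022) (nat_lit 46) (.e (nat_lit 704629) (nat_lit 9) (.e (nat_lit 475) (nat_lit 36) (.e (nat_lit 458788) (nat_lit 23) .nil))))))) (.g (nat_lit 1) (.e (nat_lit 402084) (nat_lit 0) .nil) .nil))) 
(.lf (nat_lit 592746) (.g (nat_lit 2005) (.e (nat_lit 532559) (nat_lit 14) (.e (nat_lit 376868) (nat_lit 23) (.e (nat_lit 98350) (nat_lit 24) (.e (nat_lit 409648) (nat_lit 18) (.e (nat_lit 303109) (nat_lit 0) .nil))))) (.g (nat_lit 0) (.e (nat_lit 402804) (nat_lit 0) .nil) .nil))))) (.nd (nat_lit 8) (.nd (nat_lit 9) 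
(.lf (nat_lit 592106) (.g (nat_lit 645) (.e (nat_lit 532549) (nat_lit 12) (.e (nat_lit 360475) (nat_lit 8) (.e (nat_lit 557091) (nat_lit 12) .nil))) (.g (nat_lit 0) (.e (nat_lit 401811) (nat_lit 0) .nil) .nil))) 
(.lf (nat_lit 592618) (.g (nat_lit 5974) (.e (nat_lit 532550) (nat_lit 12) (.e (nat_lit 360475) (nat_lit 8) (.e (nat_lit 557091) (nat_lit 12) (.e (nat_lit 164022) (nat_lit 46) (.e (nat_lit 704738) (nat_lit 11) (.e (nat_lit 16399) (nat_lit 0) (.e (nat_lit 3251) (nat_lit 197) .nil))))))) (.g (nat_lit 1) (.e (nat_lit 402492) (nat_lit 0) .nil) .nil)))) (.nd (nat_lit 9) 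
(.lf (nat_lit 592362) (.g (nat_lit 5722) (.e (nat_lit 532550) (nat_lit 12) (.e (nat_lit 360474) (nat_lit 8) (.e (nat_lit 557094) (nat_lit 12) (.e (nat_lit 164022) (nat_lit 46) (.e (nat_lit 704629) (nat_lit 9) (.e (nat_lit 471) (nat_lit 36) (.e (nat_lit 458788) (nat_lit 23) .nil))))))) (.g (nat_lit 1) (.e (nat_lit 402212) (nat_lit 0) .nil) .nil))) 
(.lf (nat_lit 592874) (.g (nat_lit 1186) (.e (nat_lit 532563) (nat_lit 15) (.e (nat_lit 385066) (nat_lit 26) (.e (nat_lit 532534) (nat_lit 9) (.e (nat_lit 336326) (nat_lit 18) .nil)))) (.g (nat_lit 0) (.e (nat_lit 403090) (nat_lit 0) .nil) .nil)))))))) (.nd (nat_lit 5) (.nd (nat_lit 6) (.nd (nat_lit 7) (.nd (nat_lit 8) (.nd (nat_lit 9) 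
(.lf (nat_lit 591898) (.g (nat_lit 912) (.e (nat_lit 532547) (nat_lit 11) (.e (nat_lit 352309) (nat_lit 21) (.e (nat_lit 57687) (nat_lit 156) .nil))) (.g (nat_lit 0) (.e (nat_lit 401448) (nat_lit 0) .nil) .nil))) 
(.lf (nat_lit 592410) (.g (nat_lit 4300) (.e (nat_lit 532550) (nat_lit 12) (.e (nat_lit 360474) (nat_lit 8) (.e (nat_lit 557094) (nat_lit 12) (.e (nat_lit 164022) (nat_lit 46) (.e (nat_lit 704738) (nat_lit 11) (.e (nat_lit 16385) (nat_lit 0) (.e (nat_lit 3241) (nat_lit 197) .nil))))))) (.g (nat_lit 1) (.e (nat_lit 402260) (nat_lit 0) .nil) .nil)))) (.nd (nat_lit 9) 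
(.lf (nat_lit 592154) (.g (nat_lit 2471) (.e (nat_lit 532550) (nat_lit 12) (.e (nat_lit 360468) (nat_lit 3) (.e (nat_lit 516139) (nat_lit 7) (.e (nat_lit 409617) (nat_lit 10) (.e (nat_lit 7936) (nat_lit 315) .nil))))) (.g (nat_lit 0) (.e (nat_lit 401968) (nat_lit 0) .nil) .nil))) 
(.lf (nat_lit 592666) (.g (nat_lit 1808) (.e (nat_lit 532553) (nat_lit 13) (.e (nat_lit 368676) (nat_lit 21) (.e (nat_lit 516115) (nat_lit 1) (.e (nat_lit 164243) (nat_lit 195) .nil)))) (.g (nat_lit 0) (.e (nat_lit 402578) (nat_lit 0) .nil) .nil))))) (.nd (nat_lit 8) (.nd (nat_lit 9) 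
(.lf (nat_lit 592026) (.g (nat_lit 433) (.e (nat_lit 532549) (nat_lit 12) (.e (nat_lit 360473) (nat_lit 8) (.e (nat_lit 557087) (nat_lit 11) .nil))) (.g (nat_lit 0) (.e (nat_lit 401714) (nat_lit 0) .nil) .nil))) 
(.lf (nat_lit 592538) (.g (nat_lit 4724) (.e (nat_lit 532550) (nat_lit 12) (.e (nat_lit 360475) (nat_lit 8) (.e (nat_lit 557091) (nat_lit 12) (.e (nat_lit 164022) (nat_lit 46) (.e (nat_lit 704735) (nat_lit 11) (.e (nat_lit 16385) (nat_lit 0) (.e (nat_lit 3241) (nat_lit 197) .nil))))))) (.g (nat_lit 1) (.e (nat_lit 402412) (nat_lit 0) .nil) .nil)))) (.nd (nat_lit 9) 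
(.lf (nat_lit 592282) (.g (nat_lit 5169) (.e (nat_lit 532550) (nat_lit 12) (.e (nat_lit 360474) (nat_lit 8) (.e (nat_lit 557093) (nat_lit 12) (.e (nat_lit 164022) (nat_lit 46) (.e (nat_lit 704738) (nat_lit 11) (.e (nat_lit 16384) (nat_lit 0) (.e (nat_lit 3256) (nat_lit 197) .nil))))))) (.g (nat_lit 1) (.e (nat_lit 402132) (nat_lit 0) .nil) .nil))) 
(.lf (nat_lit 592794) (.g (nat_lit 2159) (.e (nat_lit 532560) (nat_lit 14) (.e (nat_lit 376868) (nat_lit 23) (.e (nat_lit 98350) (nat_lit 24) (.e (nat_lit 409649) (nat_lit 18) (.e (nat_lit 303111) (nat_lit 0) (.e (nat_lit 3230) (nat_lit 197) .nil)))))) (.g (nat_lit 1) (.e (nat_lit 402939) (nat_lit 0) .nil) .nil)))))) (.nd (nat_lit 7) (.nd (nat_lit 8) (.nd (nat_lit 9) 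
(.lf (nat_lit 591962) (.g (nat_lit 2260) (.e (nat_lit 532548) (nat_lit 11) (.e (nat_lit 352315) (nat_lit 23) (.e (nat_lit 98349) (nat_lit 24) (.e (nat_lit 409644) (nat_lit 18) (.e (nat_lit 303112) (nat_lit 0) (.e (nat_lit 3252) (nat_lit 197) .nil)))))) (.g (nat_lit 1) (.e (nat_lit 401619) (nat_lit 0) .nil) .nil))) 
(.lf (nat_lit 592474) (.g (nat_lit 1632) (.e (nat_lit 532550) (nat_lit 12) (.e (nat_lit 360475) (nat_lit 8) (.e (nat_lit 557087) (nat_lit 11) (.e (nat_lit 24592) (nat_lit 0) .nil)))) (.g (nat_lit 0) (.e (nat_lit 402344) (nat_lit 0) .nil) .nil)))) (.nd (nat_lit 9) 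
(.lf (nat_lit 592218) (.g (nat_lit 2631) (.e (nat_lit 532550) (nat_lit 12) (.e (nat_lit 360474) (nat_lit 8) (.e (nat_lit 557093) (nat_lit 12) (.e (nat_lit 164018) (nat_lit 45) (.e (nat_lit 696345) (nat_lit 9) (.e (nat_lit 188160) (nat_lit 5) .nil)))))) (.g (nat_lit 1) (.e (nat_lit 402068) (nat_lit 0) .nil) .nil))) 
(.lf (nat_lit 592730) (.g (nat_lit 1322) (.e (nat_lit 532559) (nat_lit 14) (.e (nat_lit 376862) (nat_lit 22) (.e (nat_lit 90185) (nat_lit 17) (.e (nat_lit 237585) (nat_lit 1) .nil)))) (.g (nat_lit 0) (.e (nat_lit 402761) (nat_lit 0) .nil) .nil))))) (.nd (nat_lit 8) (.nd (nat_lit 9) 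
(.lf (nat_lit 592090) (.g (nat_lit 4396) (.e (nat_lit 532549) (nat_lit 12) (.e (nat_lit 360474) (nat_lit 8) (.e (nat_lit 557094) (nat_lit 12) (.e (nat_lit 164022) (nat_lit 46) (.e (nat_lit 704629) (nat_lit 9) (.e (nat_lit 442) (nat_lit 33) (.e (nat_lit 434233) (nat_lit 23) .nil))))))) (.g (nat_lit 1) (.e (nat_lit 401788) (nat_lit 0) .nil) .nil))) 
(.lf (nat_lit 592602) (.g (nat_lit 3744) (.e (nat_lit 532550) (nat_lit 12) (.e (nat_lit 360475) (nat_lit 8) (.e (nat_lit 557091) (nat_lit 12) (.e (nat_lit 164022) (nat_lit 46) (.e (nat_lit 704738) (nat_lit 11) (.e (nat_lit 16389) (nat_lit 0) (.e (nat_lit 3230) (nat_lit 197) .nil))))))) (.g (nat_lit 1) (.e (nat_lit 402476) (nat_lit 0) .nil) .nil)))) (.nd (nat_lit 9) 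
(.lf (nat_lit 592346) (.g (nat_lit 4010) (.e (nat_lit 532550) (nat_lit 12) (.e (nat_lit 360474) (nat_lit 8) (.e (nat_lit 557093) (nat_lit 12) (.e (nat_lit 164023) (nat_lit 46) (.e (nat_lit 704738) (nat_lit 11) (.e (nat_lit 16396) (nat_lit 0) (.e (nat_lit 3238) (nat_lit 197) .nil))))))) (.g (nat_lit 1) (.e (nat_lit 402196) (nat_lit 0) .nil) .nil))) 
(.lf (nat_lit 592858) (.g (nat_lit 2286) (.e (nat_lit 532563) (nat_lit 15) (.e (nat_lit 385066) (nat_lit 26) (.e (nat_lit 532532) (nat_lit 9) (.e (nat_lit 336326) (nat_lit 18) (.e (nat_lit 204854) (nat_lit 26) (.e (nat_lit 336284) (nat_lit 15) (.e (nat_lit 3249) (nat_lit 197) .nil))))))) (.g (nat_lit 1) (.e (nat_lit 403067) (nat_lit 0) .nil) .nil))))))) 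
(.nd (nat_lit 6) (.nd (nat_lit 7) (.nd (nat_lit 8) (.nd (nat_lit 9) 
(.lf (nat_lit 591930) (.g (nat_lit 2195) (.e (nat_lit 532547) (nat_lit 11) (.e (nat_lit 352315) (nat_lit 23) (.e (nat_lit 98349) (nat_lit 24) (.e (nat_lit 409646) (nat_lit 18) (.e (nat_lit 303106) (nat_lit 0) .nil))))) (.g (nat_lit 0) (.e (nat_lit 401532) (nat_lit 0) .nil) .nil))) 
(.lf (nat_lit 592442) (.g (nat_lit 4238) (.e (nat_lit 532550) (nat_lit 12) (.e (nat_lit 360475) (nat_lit 8) (.e (nat_lit 557085) (nat_lit 11) (.e (nat_lit 24664) (nat_lit 14) (.e (nat_lit 401418) (nat_lit 0) (.e (nat_lit 3249) (nat_lit 197) .nil)))))) (.g (nat_lit 1) (.e (nat_lit 402308) (nat_lit 0) .nil) .nil)))) (.nd (nat_lit 9) 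
(.lf (nat_lit 592186) (.g (nat_lit 1046) (.e (nat_lit 532550) (nat_lit 12) (.e (nat_lit 360474) (nat_lit 8) (.e (nat_lit 557081) (nat_lit 9) .nil))) (.g (nat_lit 0) (.e (nat_lit 402031) (nat_lit 0) .nil) .nil))) 
(.lf (nat_lit 592698) (.g (nat_lit 874) (.e (nat_lit 532557) (nat_lit 14) (.e (nat_lit 376842) (nat_lit 11) (.e (nat_lit 426408) (nat_lit 15) .nil))) (.g (nat_lit 0) (.e (nat_lit 402652) (nat_lit 0) .nil) .nil))))) (.nd (nat_lit 8) (.nd (nat_lit 9) 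
(.lf (nat_lit 592058) (.g (nat_lit 2392) (.e (nat_lit 532549) (nat_lit 12) (.e (nat_lit 360473) (nat_lit 8) (.e (nat_lit 557091) (nat_lit 12) (.e (nat_lit 163843) (nat_lit 0) (.e (nat_lit 6420) (nat_lit 341) .nil))))) (.g (nat_lit 0) (.e (nat_lit 401754) (nat_lit 0) .nil) .nil))) 
(.lf (nat_lit 592570) (.g (nat_lit 3536) (.e (nat_lit 532550) (nat_lit 12) (.e (nat_lit 360475) (nat_lit 8) (.e (nat_lit 557091) (nat_lit 12) (.e (nat_lit 164022) (nat_lit 46) (.e (nat_lit 704737) (nat_lit 11) (.e (nat_lit 16387) (nat_lit 0) (.e (nat_lit 3229) (nat_lit 197) .nil))))))) (.g (nat_lit 1) (.e (nat_lit 402444) (nat_lit 0) .nil) .nil)))) (.nd (nat_lit 9) 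
(.lf (nat_lit 592314) (.g (nat_lit 4854) (.e (nat_lit 532550) (nat_lit 12) (.e (nat_lit 360474) (nat_lit 8) (.e (nat_lit 557093) (nat_lit 12) (.e (nat_lit 164022) (nat_lit 46) (.e (nat_lit 704738) (nat_lit 11) (.e (nat_lit 16398) (nat_lit 0) (.e (nat_lit 3230) (nat_lit 197) .nil))))))) (.g (nat_lit 1) (.e (nat_lit 402164) (nat_lit 0) .nil) .nil))) 
(.lf (nat_lit 592826) (.g (nat_lit 2016) (.e (nat_lit 532561) (nat_lit 14) (.e (nat_lit 376865) (nat_lit 22) (.e (nat_lit 90185) (nat_lit 17) (.e (nat_lit 237582) (nat_lit 1) .nil)))) (.g (nat_lit 0) (.e (nat_lit 403018) (nat_lit 0) .nil) .nil)))))) (.nd (nat_lit 7) (.nd (nat_lit 8) (.nd (nat_lit 9) 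
(.lf (nat_lit 591994) (.g (nat_lit 2774) (.e (nat_lit 532549) (nat_lit 12) (.e (nat_lit 360466) (nat_lit 3) (.e (nat_lit 516142) (nat_lit 8) (.e (nat_lit 417828) (nat_lit 18) (.e (nat_lit 303112) (nat_lit 0) (.e (nat_lit 3252) (nat_lit 197) .nil)))))) (.g (nat_lit 1) (.e (nat_lit 401662) (nat_lit 0) .nil) .nil))) 
(.lf (nat_lit 592506) (.g (nat_lit 2230) (.e (nat_lit 532550) (nat_lit 12) (.e (nat_lit 360475) (nat_lit 8) (.e (nat_lit 557090) (nat_lit 12) (.e (nat_lit 163844) (nat_lit 0) .nil)))) (.g (nat_lit 0) (.e (nat_lit 402376) (nat_lit 0) .nil) .nil)))) (.nd (nat_lit 9) 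
(.lf (nat_lit 592250) (.g (nat_lit 3620) (.e (nat_lit 532550) (nat_lit 12) (.e (nat_lit 360474) (nat_lit 8) (.e (nat_lit 557093) (nat_lit 12) (.e (nat_lit 164022) (nat_lit 46) (.e (nat_lit 704736) (nat_lit 11) (.e (nat_lit 16400) (nat_lit 0) (.e (nat_lit 3252) (nat_lit 197) .nil))))))) (.g (nat_lit 1) (.e (nat_lit 402100) (nat_lit 0) .nil) .nil))) 
(.lf (nat_lit 592762) (.g (nat_lit 2359) (.e (nat_lit 532560) (nat_lit 14) (.e (nat_lit 376842) (nat_lit 11) (.e (nat_lit 426098) (nat_lit 1) (.e (nat_lit 164161) (nat_lit 152) (.e (nat_lit 1068) (nat_lit 81) .nil))))) (.g (nat_lit 0) (.e (nat_lit 402858) (nat_lit 0) .nil) .nil))))) (.nd (nat_lit 8) (.nd (nat_lit 9) 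
(.lf (nat_lit 592122) (.g (nat_lit 1686) (.e (nat_lit 532550) (nat_lit 12) (.e (nat_lit 360466) (nat_lit 3) (.e (nat_lit 516138) (nat_lit 7) (.e (nat_lit 409612) (nat_lit 10) .nil)))) (.g (nat_lit 0) (.e (nat_lit 401907) (nat_lit 0) .nil) .nil))) 
(.lf (nat_lit 592634) (.g (nat_lit 420) (.e (nat_lit 532551) (nat_lit 12) (.e (nat_lit 360466) (nat_lit 3) (.e (nat_lit 516139) (nat_lit 7) .nil))) (.g (nat_lit 0) (.e (nat_lit 402520) (nat_lit 0) .nil) .nil)))) (.nd (nat_lit 9) 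
(.lf (nat_lit 592378) (.g (nat_lit 4626) (.e (nat_lit 532550) (nat_lit 12) (.e (nat_lit 360474) (nat_lit 8) (.e (nat_lit 557094) (nat_lit 12) (.e (nat_lit 164022) (nat_lit 46) (.e (nat_lit 704736) (nat_lit 11) (.e (nat_lit 16390) (nat_lit 0) (.e (nat_lit 3242) (nat_lit 197) .nil))))))) (.g (nat_lit 1) (.e (nat_lit 402228) (nat_lit 0) .nil) .nil))) 
(.lf (nat_lit 592890) (.g (nat_lit 3819) (.e (nat_lit 532563) (nat_lit 15) (.e (nat_lit 385068) (nat_lit 26) (.e (nat_lit 532530) (nat_lit 9) (.e (nat_lit 336324) (nat_lit 18) (.e (nat_lit 204882) (nat_lit 32) (.e (nat_lit 385066) (nat_lit 26) .nil)))))) (.g (nat_lit 1) (.e (nat_lit 403115) (nat_lit 0) .nil) .nil)))))))))) 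
(.nd (nat_lit 3) (.nd (nat_lit 4) (.nd (nat_lit 5) (.nd (nat_lit 6) (.nd (nat_lit 7) 
(.nd (nat_lit 8) (.nd (nat_lit 9) 
(.lf (nat_lit 591878) (.g (nat_lit 1592) (.e (nat_lit 532546) (nat_lit 11) (.e (nat_lit 352315) (nat_lit 23) (.e (nat_lit 98350) (nat_lit 24) (.e (nat_lit 409617) (nat_lit 10) .nil)))) (.g (nat_lit 0) (.e (nat_lit 401385) (nat_lit 0) .nil) .nil))) 
(.lf (nat_lit 592390) (.g (nat_lit 2921) (.e (nat_lit 532550) (nat_lit 12) (.e (nat_lit 360474) (nat_lit 8) (.e (nat_lit 557094) (nat_lit 12) (.e (nat_lit 164022) (nat_lit 46) (.e (nat_lit 704737) (nat_lit 11) (.e (nat_lit 16386) (nat_lit 0) (.e (nat_lit 7936) (nat_lit 197) .nil))))))) (.g (nat_lit 1) (.e (nat_lit 402240) (nat_lit 0) .nil) .nil)))) (.nd (nat_lit 9) 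
(.lf (nat_lit 592134) (.g (nat_lit 1491) (.e (nat_lit 532550) (nat_lit 12) (.e (nat_lit 360467) (nat_lit 3) (.e (nat_lit 516138) (nat_lit 7) (.e (nat_lit 409643) (nat_lit 18) .nil)))) (.g (nat_lit 0) (.e (nat_lit 401930) (nat_lit 0) .nil) .nil))) 
(.lf (nat_lit 592646) (.g (nat_lit 2831) (.e (nat_lit 532551) (nat_lit 12) (.e (nat_lit 360467) (nat_lit 3) (.e (nat_lit 516139) (nat_lit 7) (.e (nat_lit 409644) (nat_lit 18) (.e (nat_lit 303112) (nat_lit 0) .nil))))) (.g (nat_lit 0) (.e (nat_lit 402538) (nat_lit 0) .nil) .nil))))) (.nd (nat_lit 8) (.nd (nat_lit 9) 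
(.lf (nat_lit 592006) (.g (nat_lit 542) (.e (nat_lit 532549) (nat_lit 12) (.e (nat_lit 360467) (nat_lit 3) (.e (nat_lit 516141) (nat_lit 8) .nil))) (.g (nat_lit 0) (.e (nat_lit 401681) (nat_lit 0) .nil) .nil))) 
(.lf (nat_lit 592518) (.g (nat_lit 1117) (.e (nat_lit 532550) (nat_lit 12) (.e (nat_lit 360475) (nat_lit 8) (.e (nat_lit 557091) (nat_lit 12) (.e (nat_lit 163852) (nat_lit 0) (.e (nat_lit 6273) (nat_lit 337) (.e (nat_lit 2635) (nat_lit 165) (.e (nat_lit 188160) (nat_lit 5) .nil))))))) (.g (nat_lit 1) (.e (nat_lit 402390) (nat_lit 0) .nil) .nil)))) (.nd (nat_lit 9) 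
(.lf (nat_lit 592262) (.g (nat_lit 6009) (.e (nat_lit 532550) (nat_lit 12) (.e (nat_lit 360474) (nat_lit 8) (.e (nat_lit 557093) (nat_lit 12) (.e (nat_lit 164022) (nat_lit 46) (.e (nat_lit 704737) (nat_lit 11) (.e (nat_lit 16388) (nat_lit 0) (.e (nat_lit 3227) (nat_lit 197) .nil))))))) (.g (nat_lit 1) (.e (nat_lit 402112) (nat_lit 0) .nil) .nil))) 
(.lf (nat_lit 592774) (.g (nat_lit 1302) (.e (nat_lit 532560) (nat_lit 14) (.e (nat_lit 376865) (nat_lit 22) (.e (nat_lit 90185) (nat_lit 17) (.e (nat_lit 237585) (nat_lit 1) .nil)))) (.g (nat_lit 0) (.e (nat_lit 402912) (nat_lit 0) .nil) .nil)))))) (.nd (nat_lit 7) (.nd (nat_lit 8) (.nd (nat_lit 9) 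
(.lf (nat_lit 591942) (.g (nat_lit 2546) (.e (nat_lit 532547) (nat_lit 11) (.e (nat_lit 352315) (nat_lit 23) (.e (nat_lit 98350) (nat_lit 24) (.e (nat_lit 409617) (nat_lit 10) (.e (nat_lit 5758) (nat_lit 315) .nil))))) (.g (nat_lit 0) (.e (nat_lit 401549) (nat_lit 0) .nil) .nil))) 
(.lf (nat_lit 592454) (.g (nat_lit 2392) (.e (nat_lit 532550) (nat_lit 12) (.e (nat_lit 360475) (nat_lit 8) (.e (nat_lit 557086) (nat_lit 11) (.e (nat_lit 24622) (nat_lit 8) (.e (nat_lit 327708) (nat_lit 10) (.e (nat_lit 7936) (nat_lit 45) .nil)))))) (.g (nat_lit 1) (.e (nat_lit 402323) (nat_lit 0) .nil) .nil)))) (.nd (nat_lit 9) 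
(.lf (nat_lit 592198) (.g (nat_lit 3518) (.e (nat_lit 532550) (nat_lit 12) (.e (nat_lit 360474) (nat_lit 8) (.e (nat_lit 557085) (nat_lit 11) (.e (nat_lit 24665) (nat_lit 14) (.e (nat_lit 401408) (nat_lit 0) (.e (nat_lit 3241) (nat_lit 197) .nil)))))) (.g (nat_lit 1) (.e (nat_lit 402048) (nat_lit 0) .nil) .nil))) 
(.lf (nat_lit 592710) (.g (nat_lit 1562) (.e (nat_lit 532558) (nat_lit 14) (.e (nat_lit 376867) (nat_lit 23) (.e (nat_lit 98350) (nat_lit 24) (.e (nat_lit 417536) (nat_lit 18) .nil)))) (.g (nat_lit 0) (.e (nat_lit 402719) (nat_lit 0) .nil) .nil))))) (.nd (nat_lit 8) (.nd (nat_lit 9) 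
(.lf (nat_lit 592070) (.g (nat_lit 2640) (.e (nat_lit 532549) (nat_lit 12) (.e (nat_lit 360473) (nat_lit 8) (.e (nat_lit 557093) (nat_lit 12) (.e (nat_lit 164022) (nat_lit 46) (.e (nat_lit 704629) (nat_lit 9) (.e (nat_lit 452) (nat_lit 33) (.e (nat_lit 434232) (nat_lit 23) .nil))))))) (.g (nat_lit 1) (.e (nat_lit 401768) (nat_lit 0) .nil) .nil))) 
(.lf (nat_lit 592582) (.g (nat_lit 2690) (.e (nat_lit 532550) (nat_lit 12) (.e (nat_lit 360475) (nat_lit 8) (.e (nat_lit 557091) (nat_lit 12) (.e (nat_lit 164022) (nat_lit 46) (.e (nat_lit 704737) (nat_lit 11) (.e (nat_lit 16399) (nat_lit 0) (.e (nat_lit 7936) (nat_lit 197) .nil))))))) (.g (nat_lit 1) (.e (nat_lit 402456) (nat_lit 0) .nil) .nil)))) (.nd (nat_lit 9) 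
(.lf (nat_lit 592326) (.g (nat_lit 6316) (.e (nat_lit 532550) (nat_lit 12) (.e (nat_lit 360474) (nat_lit 8) (.e (nat_lit 557093) (nat_lit 12) (.e (nat_lit 164023) (nat_lit 46) (.e (nat_lit 704629) (nat_lit 9) (.e (nat_lit 442) (nat_lit 33) (.e (nat_lit 434234) (nat_lit 23) .nil))))))) (.g (nat_lit 1) (.e (nat_lit 402176) (nat_lit 0) .nil) .nil))) 
(.lf (nat_lit 592838) (.g (nat_lit 2251) (.e (nat_lit 532562) (nat_lit 15) (.e (nat_lit 385068) (nat_lit 26) (.e (nat_lit 532530) (nat_lit 9) (.e (nat_lit 336324) (nat_lit 18) (.e (nat_lit 204882) (nat_lit 32) .nil))))) (.g (nat_lit 0) (.e (nat_lit 403030) (nat_lit 0) .nil) .nil))))))) (.nd (nat_lit 6) (.nd (nat_lit 7) (.nd (nat_lit 8) (.nd (nat_lit 9) 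
(.lf (nat_lit 591910) (.g (nat_lit 2488) (.e (nat_lit 532547) (nat_lit 11) (.e (nat_lit 352313) (nat_lit 23) (.e (nat_lit 98350) (nat_lit 24) (.e (nat_lit 409648) (nat_lit 18) (.e (nat_lit 303104) (nat_lit 0) .nil))))) (.g (nat_lit 0) (.e (nat_lit 401493) (nat_lit 0) .nil) .nil))) 
(.lf (nat_lit 592422) (.g (nat_lit 5750) (.e (nat_lit 532550) (nat_lit 12) (.e (nat_lit 360474) (nat_lit 8) (.e (nat_lit 557094) (nat_lit 12) (.e (nat_lit 164022) (nat_lit 46) (.e (nat_lit 704738) (nat_lit 11) (.e (nat_lit 16397) (nat_lit 0) (.e (nat_lit 3251) (nat_lit 197) .nil))))))) (.g (nat_lit 1) (.e (nat_lit 402272) (nat_lit 0) .nil) .nil)))) (.nd (nat_lit 9) 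
(.lf (nat_lit 592166) (.g (nat_lit 270) (.e (nat_lit 532550) (nat_lit 12) (.e (nat_lit 360472) (nat_lit 8) (.e (nat_lit 557067) (nat_lit 9) .nil))) (.g (nat_lit 0) (.e (nat_lit 401992) (nat_lit 0) .nil) .nil))) 
(.lf (nat_lit 592678) (.g (nat_lit 2166) (.e (nat_lit 532553) (nat_lit 13) (.e (nat_lit 368676) (nat_lit 21) (.e (nat_lit 516131) (nat_lit 3) (.e (nat_lit 221212) (nat_lit 22) (.e (nat_lit 196609) (nat_lit 0) (.e (nat_lit 3067) (nat_lit 190) (.e (nat_lit 483072) (nat_lit 26) .nil))))))) (.g (nat_lit 1) (.e (nat_lit 402590) (nat_lit 0) .nil) .nil))))) (.nd (nat_lit 8) (.nd (nat_lit 9) 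
(.lf (nat_lit 592038) (.g (nat_lit 3031) (.e (nat_lit 532549) (nat_lit 12) (.e (nat_lit 360473) (nat_lit 8) (.e (nat_lit 557087) (nat_lit 11) (.e (nat_lit 24593) (nat_lit 0) (.e (nat_lit 7936) (nat_lit 360) .nil))))) (.g (nat_lit 0) (.e (nat_lit 401728) (nat_lit 0) .nil) .nil))) 
(.lf (nat_lit 592550) (.g (nat_lit 4360) (.e (nat_lit 532550) (nat_lit 12) (.e (nat_lit 360475) (nat_lit 8) (.e (nat_lit 557091) (nat_lit 12) (.e (nat_lit 164022) (nat_lit 46) (.e (nat_lit 704736) (nat_lit 11) (.e (nat_lit 16388) (nat_lit 0) (.e (nat_lit 3229) (nat_lit 197) .nil))))))) (.g (nat_lit 1) (.e (nat_lit 402424) (nat_lit 0) .nil) .nil)))) (.nd (nat_lit 9) 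
(.lf (nat_lit 592294) (.g (nat_lit 6044) (.e (nat_lit 532550) (nat_lit 12) (.e (nat_lit 360474) (nat_lit 8) (.e (nat_lit 557093) (nat_lit 12) (.e (nat_lit 164022) (nat_lit 46) (.e (nat_lit 704738) (nat_lit 11) (.e (nat_lit 16389) (nat_lit 0) (.e (nat_lit 3237) (nat_lit 197) .nil))))))) (.g (nat_lit 1) (.e (nat_lit 402144) (nat_lit 0) .nil) .nil))) 
(.lf (nat_lit 592806) (.g (nat_lit 2387) (.e (nat_lit 532560) (nat_lit 14) (.e (nat_lit 376869) (nat_lit 23) (.e (nat_lit 98350) (nat_lit 24) (.e (nat_lit 409617) (nat_lit 10) (.e (nat_lit 5756) (nat_lit 315) .nil))))) (.g (nat_lit 0) (.e (nat_lit 402955) (nat_lit 0) .nil) .nil)))))) (.nd (nat_lit 7) (.nd (nat_lit 8) (.nd (nat_lit 9) 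
(.lf (nat_lit 591974) (.g (nat_lit 2989) (.e (nat_lit 532549) (nat_lit 12) (.e (nat_lit 360466) (nat_lit 3) (.e (nat_lit 516138) (nat_lit 7) (.e (nat_lit 409648) (nat_lit 18) (.e (nat_lit 303104) (nat_lit 0) (.e (nat_lit 3238) (nat_lit 197) .nil)))))) (.g (nat_lit 1) (.e (nat_lit 401642) (nat_lit 0) .nil) .nil))) 
(.lf (nat_lit 592486) (.g (nat_lit 5941) (.e (nat_lit 532550) (nat_lit 12) (.e (nat_lit 360475) (nat_lit 8) (.e (nat_lit 557087) (nat_lit 11) (.e (nat_lit 24665) (nat_lit 14) (.e (nat_lit 401417) (nat_lit 0) (.e (nat_lit 3234) (nat_lit 197) .nil)))))) (.g (nat_lit 1) (.e (nat_lit 402356) (nat_lit 0) .nil) .nil)))) (.nd (nat_lit 9) 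
(.lf (nat_lit 592230) (.g (nat_lit 6063) (.e (nat_lit 532550) (nat_lit 12) (.e (nat_lit 360474) (nat_lit 8) (.e (nat_lit 557093) (nat_lit 12) (.e (nat_lit 164022) (nat_lit 46) (.e (nat_lit 704629) (nat_lit 9) (.e (nat_lit 471) (nat_lit 36) (.e (nat_lit 458788) (nat_lit 23) .nil))))))) (.g (nat_lit 1) (.e (nat_lit 402080) (nat_lit 0) .nil) .nil))) 
(.lf (nat_lit 592742) (.g (nat_lit 1631) (.e (nat_lit 532559) (nat_lit 14) (.e (nat_lit 376868) (nat_lit 23) (.e (nat_lit 98350) (nat_lit 24) (.e (nat_lit 409643) (nat_lit 18) (.e (nat_lit 303112) (nat_lit 0) .nil))))) (.g (nat_lit 0) (.e (nat_lit 402800) (nat_lit 0) .nil) .nil))))) (.nd (nat_lit 8) (.nd (nat_lit 9) 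
(.lf (nat_lit 592102) (.g (nat_lit 5020) (.e (nat_lit 532549) (nat_lit 12) (.e (nat_lit 360475) (nat_lit 8) (.e (nat_lit 557087) (nat_lit 11) (.e (nat_lit 24665) (nat_lit 14) (.e (nat_lit 401417) (nat_lit 0) (.e (nat_lit 3234) (nat_lit 197) .nil)))))) (.g (nat_lit 1) (.e (nat_lit 401806) (nat_lit 0) .nil) .nil))) 
(.lf (nat_lit 592614) (.g (nat_lit 2930) (.e (nat_lit 532550) (nat_lit 12) (.e (nat_lit 360475) (nat_lit 8) (.e (nat_lit 557091) (nat_lit 12) (.e (nat_lit 164022) (nat_lit 46) (.e (nat_lit 704738) (nat_lit 11) (.e (nat_lit 16397) (nat_lit 0) (.e (nat_lit 7936) (nat_lit 197) .nil))))))) (.g (nat_lit 1) (.e (nat_lit 402488) (nat_lit 0) .nil) .nil)))) (.nd (nat_lit 9) 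
(.lf (nat_lit 592358) (.g (nat_lit 4165) (.e (nat_lit 532550) (nat_lit 12) (.e (nat_lit 360474) (nat_lit 8) (.e (nat_lit 557094) (nat_lit 12) (.e (nat_lit 164022) (nat_lit 46) (.e (nat_lit 704629) (nat_lit 9) (.e (nat_lit 375) (nat_lit 32) (.e (nat_lit 426025) (nat_lit 0) (.e (nat_lit 7936) (nat_lit 197) .nil)))))))) (.g (nat_lit 1) (.e (nat_lit 402208) (nat_lit 0) .nil) .nil))) 
(.lf (nat_lit 592870) (.g (nat_lit 2814) (.e (nat_lit 532563) (nat_lit 15) (.e (nat_lit 385066) (nat_lit 26) (.e (nat_lit 532534) (nat_lit 9) (.e (nat_lit 336316) (nat_lit 17) (.e (nat_lit 196666) (nat_lit 13) (.e (nat_lit 65642) (nat_lit 15) (.e (nat_lit 3234) (nat_lit 197) .nil))))))) (.g (nat_lit 1) (.e (nat_lit 403086) (nat_lit 0) .nil) .nil)))))))) 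
(.nd (nat_lit 5) (.nd (nat_lit 6) (.nd (nat_lit 7) (.nd (nat_lit 8) (.nd (nat_lit 9) 
(.lf (nat_lit 591894) (.g (nat_lit 4202) (.e (nat_lit 532547) (nat_lit 11) (.e (nat_lit 352302) (nat_lit 20) (.e (nat_lit 1848) (nat_lit 124) (.e (nat_lit 557087) (nat_lit 11) (.e (nat_lit 24617) (nat_lit 7) (.e (nat_lit 319504) (nat_lit 10) (.e (nat_lit 7936) (nat_lit 45) .nil))))))) (.g (nat_lit 1) (.e (nat_lit 401441) (nat_lit 0) .nil) .nil))) 
(.lf (nat_lit 592406) (.g (nat_lit 3939) (.e (nat_lit 532550) (nat_lit 12) (.e (nat_lit 360474) (nat_lit 8) (.e (nat_lit 557094) (nat_lit 12) (.e (nat_lit 164022) (nat_lit 46) (.e (nat_lit 704738) (nat_lit 11) (.e (nat_lit 16384) (nat_lit 0) (.e (nat_lit 3241) (nat_lit 197) .nil))))))) (.g (nat_lit 1) (.e (nat_lit 402256) (nat_lit 0) .nil) .nil)))) (.nd (nat_lit 9) 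
(.lf (nat_lit 592150) (.g (nat_lit 3447) (.e (nat_lit 532550) (nat_lit 12) (.e (nat_lit 360468) (nat_lit 3) (.e (nat_lit 516138) (nat_lit 7) (.e (nat_lit 409645) (nat_lit 18) (.e (nat_lit 303112) (nat_lit 0) (.e (nat_lit 3252) (nat_lit 197) .nil)))))) (.g (nat_lit 1) (.e (nat_lit 401960) (nat_lit 0) .nil) .nil))) 
(.lf (nat_lit 592662) (.g (nat_lit 2580) (.e (nat_lit 532551) (nat_lit 12) (.e (nat_lit 360473) (nat_lit 8) (.e (nat_lit 557087) (nat_lit 11) (.e (nat_lit 24617) (nat_lit 7) (.e (nat_lit 319504) (nat_lit 10) (.e (nat_lit 7936) (nat_lit 45) .nil)))))) (.g (nat_lit 1) (.e (nat_lit 402564) (nat_lit 0) .nil) .nil))))) (.nd (nat_lit 8) (.nd (nat_lit 9) 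
(.lf (nat_lit 592022) (.g (nat_lit 2219) (.e (nat_lit 532549) (nat_lit 12) (.e (nat_lit 360473) (nat_lit 8) (.e (nat_lit 557085) (nat_lit 11) (.e (nat_lit 24664) (nat_lit 14) (.e (nat_lit 401418) (nat_lit 0) .nil))))) (.g (nat_lit 0) (.e (nat_lit 401710) (nat_lit 0) .nil) .nil))) 
(.lf (nat_lit 592534) (.g (nat_lit 6272) (.e (nat_lit 532550) (nat_lit 12) (.e (nat_lit 360475) (nat_lit 8) (.e (nat_lit 557091) (nat_lit 12) (.e (nat_lit 164022) (nat_lit 46) (.e (nat_lit 704629) (nat_lit 9) (.e (nat_lit 473) (nat_lit 36) (.e (nat_lit 458788) (nat_lit 23) .nil))))))) (.g (nat_lit 1) (.e (nat_lit 402407) (nat_lit 0) .nil) .nil)))) (.nd (nat_lit 9) 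
(.lf (nat_lit 592278) (.g (nat_lit 5256) (.e (nat_lit 532550) (nat_lit 12) (.e (nat_lit 360474) (nat_lit 8) (.e (nat_lit 557093) (nat_lit 12) (.e (nat_lit 164022) (nat_lit 46) (.e (nat_lit 704738) (nat_lit 11) (.e (nat_lit 16384) (nat_lit 0) (.e (nat_lit 3240) (nat_lit 197) .nil))))))) (.g (nat_lit 1) (.e (nat_lit 402128) (nat_lit 0) .nil) .nil))) 
(.lf (nat_lit 592790) (.g (nat_lit 2597) (.e (nat_lit 532560) (nat_lit 14) (.e (nat_lit 376868) (nat_lit 23) (.e (nat_lit 98350) (nat_lit 24) (.e (nat_lit 409648) (nat_lit 18) (.e (nat_lit 303108) (nat_lit 0) (.e (nat_lit 3251) (nat_lit 197) .nil)))))) (.g (nat_lit 1) (.e (nat_lit 402933) (nat_lit 0) .nil) .nil)))))) (.nd (nat_lit 7) (.nd (nat_lit 8) (.nd (nat_lit 9) 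
(.lf (nat_lit 591958) (.g (nat_lit 1427) (.e (nat_lit 532547) (nat_lit 11) (.e (nat_lit 352318) (nat_lit 24) (.e (nat_lit 123040) (nat_lit 140) (.e (nat_lit 1211) (nat_lit 89) (.e (nat_lit 81664) (nat_lit 35) .nil))))) (.g (nat_lit 0) (.e (nat_lit 401593) (nat_lit 0) .nil) .nil))) 
(.lf (nat_lit 592470) (.g (nat_lit 1309) (.e (nat_lit 532550) (nat_lit 12) (.e (nat_lit 360475) (nat_lit 8) (.e (nat_lit 557087) (nat_lit 11) (.e (nat_lit 24584) (nat_lit 0) .nil)))) (.g (nat_lit 0) (.e (nat_lit 402340) (nat_lit 0) .nil) .nil)))) (.nd (nat_lit 9) 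
(.lf (nat_lit 592214) (.g (nat_lit 796) (.e (nat_lit 532550) (nat_lit 12) (.e (nat_lit 360474) (nat_lit 8) (.e (nat_lit 557090) (nat_lit 12) .nil))) (.g (nat_lit 0) (.e (nat_lit 402064) (nat_lit 0) .nil) .nil))) 
(.lf (nat_lit 592726) (.g (nat_lit 3096) (.e (nat_lit 532558) (nat_lit 14) (.e (nat_lit 376869) (nat_lit 23) (.e (nat_lit 98350) (nat_lit 24) (.e (nat_lit 409645) (nat_lit 18) (.e (nat_lit 303112) (nat_lit 0) (.e (nat_lit 3252) (nat_lit 197) .nil)))))) (.g (nat_lit 1) (.e (nat_lit 402742) (nat_lit 0) .nil) .nil))))) (.nd (nat_lit 8) (.nd (nat_lit 9) 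
(.lf (nat_lit 592086) (.g (nat_lit 514) (.e (nat_lit 532549) (nat_lit 12) (.e (nat_lit 360474) (nat_lit 8) (.e (nat_lit 557093) (nat_lit 12) .nil))) (.g (nat_lit 0) (.e (nat_lit 401784) (nat_lit 0) .nil) .nil))) 
(.lf (nat_lit 592598) (.g (nat_lit 5127) (.e (nat_lit 532550) (nat_lit 12) (.e (nat_lit 360475) (nat_lit 8) (.e (nat_lit 557091) (nat_lit 12) (.e (nat_lit 164022) (nat_lit 46) (.e (nat_lit 704738) (nat_lit 11) (.e (nat_lit 16385) (nat_lit 0) (.e (nat_lit 3250) (nat_lit 197) .nil))))))) (.g (nat_lit 1) (.e (nat_lit 402472) (nat_lit 0) .nil) .nil)))) (.nd (nat_lit 9) 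
(.lf (nat_lit 592342) (.g (nat_lit 3412) (.e (nat_lit 532550) (nat_lit 12) (.e (nat_lit 360474) (nat_lit 8) (.e (nat_lit 557093) (nat_lit 12) (.e (nat_lit 164023) (nat_lit 46) (.e (nat_lit 704737) (nat_lit 11) (.e (nat_lit 16396) (nat_lit 0) (.e (nat_lit 7936) (nat_lit 197) .nil))))))) (.g (nat_lit 1) (.e (nat_lit 402192) (nat_lit 0) .nil) .nil))) 
(.lf (nat_lit 592854) (.g (nat_lit 4090) (.e (nat_lit 532563) (nat_lit 15) (.e (nat_lit 385066) (nat_lit 26) (.e (nat_lit 532530) (nat_lit 9) (.e (nat_lit 336326) (nat_lit 18) (.e (nat_lit 204854) (nat_lit 26) (.e (nat_lit 336306) (nat_lit 15) (.e (nat_lit 3238) (nat_lit 197) .nil))))))) (.g (nat_lit 1) (.e (nat_lit 403063) (nat_lit 0) .nil) .nil))))))) 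
(.nd (nat_lit 6) (.nd (nat_lit 7) (.nd (nat_lit 8) (.nd (nat_lit 9) 
(.lf (nat_lit 591926) (.g (nat_lit 1314) (.e (nat_lit 532547) (nat_lit 11) (.e (nat_lit 352315) (nat_lit 23) (.e (nat_lit 98349) (nat_lit 24) (.e (nat_lit 409644) (nat_lit 18) .nil)))) (.g (nat_lit 0) (.e (nat_lit 401528) (nat_lit 0) .nil) .nil))) 
(.lf (nat_lit 592438) (.g (nat_lit 2021) (.e (nat_lit 532550) (nat_lit 12) (.e (nat_lit 360475) (nat_lit 8) (.e (nat_lit 557070) (nat_lit 9) (.e (nat_lit 2744) (nat_lit 174) (.e (nat_lit 253991) (nat_lit 11) .nil))))) (.g (nat_lit 0) (.e (nat_lit 402302) (nat_lit 0) .nil) .nil)))) (.nd (nat_lit 9) 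
(.lf (nat_lit 592182) (.g (nat_lit 1155) (.e (nat_lit 532550) (nat_lit 12) (.e (nat_lit 360474) (nat_lit 8) (.e (nat_lit 557070) (nat_lit 9) (.e (nat_lit 238) (nat_lit 21) (.e (nat_lit 335872) (nat_lit 0) .nil))))) (.g (nat_lit 0) (.e (nat_lit 402009) (nat_lit 0) .nil) .nil))) 
(.lf (nat_lit 592694) (.g (nat_lit 1533) (.e (nat_lit 532555) (nat_lit 13) (.e (nat_lit 368676) (nat_lit 21) (.e (nat_lit 516117) (nat_lit 1) (.e (nat_lit 164242) (nat_lit 195) .nil)))) (.g (nat_lit 0) (.e (nat_lit 402632) (nat_lit 0) .nil) .nil))))) (.nd (nat_lit 8) (.nd (nat_lit 9) 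
(.lf (nat_lit 592054) (.g (nat_lit 389) (.e (nat_lit 532549) (nat_lit 12) (.e (nat_lit 360473) (nat_lit 8) (.e (nat_lit 557091) (nat_lit 12) .nil))) (.g (nat_lit 0) (.e (nat_lit 401747) (nat_lit 0) .nil) .nil))) 
(.lf (nat_lit 592566) (.g (nat_lit 5505) (.e (nat_lit 532550) (nat_lit 12) (.e (nat_lit 360475) (nat_lit 8) (.e (nat_lit 557091) (nat_lit 12) (.e (nat_lit 164022) (nat_lit 46) (.e (nat_lit 704737) (nat_lit 11) (.e (nat_lit 16385) (nat_lit 0) (.e (nat_lit 3241) (nat_lit 197) .nil))))))) (.g (nat_lit 1) (.e (nat_lit 402440) (nat_lit 0) .nil) .nil)))) (.nd (nat_lit 9) 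
(.lf (nat_lit 592310) (.g (nat_lit 5856) (.e (nat_lit 532550) (nat_lit 12) (.e (nat_lit 360474) (nat_lit 8) (.e (nat_lit 557093) (nat_lit 12) (.e (nat_lit 164022) (nat_lit 46) (.e (nat_lit 704738) (nat_lit 11) (.e (nat_lit 16397) (nat_lit 0) (.e (nat_lit 3251) (nat_lit 197) .nil))))))) (.g (nat_lit 1) (.e (nat_lit 402160) (nat_lit 0) .nil) .nil))) 
(.lf (nat_lit 592822) (.g (nat_lit 428) (.e (nat_lit 532561) (nat_lit 14) (.e (nat_lit 376865) (nat_lit 22) (.e (nat_lit 90172) (nat_lit 14) .nil))) (.g (nat_lit 0) (.e (nat_lit 403011) (nat_lit 0) .nil) .nil)))))) (.nd (nat_lit 7) (.nd (nat_lit 8) (.nd (nat_lit 9) 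
(.lf (nat_lit 591990) (.g (nat_lit 1519) (.e (nat_lit 532549) (nat_lit 12) (.e (nat_lit 360466) (nat_lit 3) (.e (nat_lit 516141) (nat_lit 8) (.e (nat_lit 417815) (nat_lit 10) (.e (nat_lit 5762) (nat_lit 315) .nil))))) (.g (nat_lit 0) (.e (nat_lit 401658) (nat_lit 0) .nil) .nil))) 
(.lf (nat_lit 592502) (.g (nat_lit 5176) (.e (nat_lit 532550) (nat_lit 12) (.e (nat_lit 360475) (nat_lit 8) (.e (nat_lit 557089) (nat_lit 12) (.e (nat_lit 164017) (nat_lit 44) (.e (nat_lit 688138) (nat_lit 5) (.e (nat_lit 2887) (nat_lit 184) (.e (nat_lit 426043) (nat_lit 0) (.e (nat_lit 3230) (nat_lit 197) .nil)))))))) (.g (nat_lit 1) (.e (nat_lit 402372) (nat_lit 0) .nil) .nil)))) 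
(.nd (nat_lit 9) 
(.lf (nat_lit 592246) (.g (nat_lit 4387) (.e (nat_lit 532550) (nat_lit 12) (.e (nat_lit 360474) (nat_lit 8) (.e (nat_lit 557093) (nat_lit 12) (.e (nat_lit 164022) (nat_lit 46) (.e (nat_lit 704736) (nat_lit 11) (.e (nat_lit 16396) (nat_lit 0) (.e (nat_lit 3230) (nat_lit 197) .nil))))))) (.g (nat_lit 1) (.e (nat_lit 402096) (nat_lit 0) .nil) .nil))) 
(.lf (nat_lit 592758) (.g (nat_lit 2547) (.e (nat_lit 532559) (nat_lit 14) (.e (nat_lit 376869) (nat_lit 23) (.e (nat_lit 98350) (nat_lit 24) (.e (nat_lit 409648) (nat_lit 18) (.e (nat_lit 303108) (nat_lit 0) .nil))))) (.g (nat_lit 0) (.e (nat_lit 402818) (nat_lit 0) .nil) .nil))))) (.nd (nat_lit 8) (.nd (nat_lit 9) 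
(.lf (nat_lit 592118) (.g (nat_lit 3884) (.e (nat_lit 532550) (nat_lit 12) (.e (nat_lit 360465) (nat_lit 3) (.e (nat_lit 516138) (nat_lit 7) (.e (nat_lit 409646) (nat_lit 18) (.e (nat_lit 303112) (nat_lit 0) (.e (nat_lit 3252) (nat_lit 197) .nil)))))) (.g (nat_lit 1) (.e (nat_lit 401901) (nat_lit 0) .nil) .nil))) 
(.lf (nat_lit 592630) (.g (nat_lit 1091) (.e (nat_lit 532550) (nat_lit 12) (.e (nat_lit 360475) (nat_lit 8) (.e (nat_lit 557094) (nat_lit 12) (.e (nat_lit 163852) (nat_lit 0) .nil)))) (.g (nat_lit 0) (.e (nat_lit 402504) (nat_lit 0) .nil) .nil)))) (.nd (nat_lit 9) 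
(.lf (nat_lit 592374) (.g (nat_lit 3958) (.e (nat_lit 532550) (nat_lit 12) (.e (nat_lit 360474) (nat_lit 8) (.e (nat_lit 557094) (nat_lit 12) (.e (nat_lit 164022) (nat_lit 46) (.e (nat_lit 704736) (nat_lit 11) (.e (nat_lit 16388) (nat_lit 0) (.e (nat_lit 3229) (nat_lit 197) .nil))))))) (.g (nat_lit 1) (.e (nat_lit 402224) (nat_lit 0) .nil) .nil))) 
(.lf (nat_lit 592886) (.g (nat_lit 2078) (.e (nat_lit 532563) (nat_lit 15) (.e (nat_lit 385066) (nat_lit 26) (.e (nat_lit 532555) (nat_lit 13) (.e (nat_lit 368676) (nat_lit 21) (.e (nat_lit 516122) (nat_lit 2) (.e (nat_lit 213053) (nat_lit 17) (.e (nat_lit 171776) (nat_lit 86) .nil))))))) (.g (nat_lit 1) (.e (nat_lit 403108) (nat_lit 0) .nil) .nil))))))))) 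
(.nd (nat_lit 4) (.nd (nat_lit 5) (.nd (nat_lit 6) (.nd (nat_lit 7) (.nd (nat_lit 8) 
(.nd (nat_lit 9) 
(.lf (nat_lit 591886) (.g (nat_lit 4508) (.e (nat_lit 532547) (nat_lit 11) (.e (nat_lit 352292) (nat_lit 20) (.e (nat_lit 1848) (nat_lit 124) (.e (nat_lit 557087) (nat_lit 11) (.e (nat_lit 24617) (nat_lit 7) (.e (nat_lit 319504) (nat_lit 10) (.e (nat_lit 7936) (nat_lit 45) .nil))))))) (.g (nat_lit 1) (.e (nat_lit 401433) (nat_lit 0) .nil) .nil))) 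
(.lf (nat_lit 592398) (.g (nat_lit 2890) (.e (nat_lit 532550) (nat_lit 12) (.e (nat_lit 360474) (nat_lit 8) (.e (nat_lit 557094) (nat_lit 12) (.e (nat_lit 164022) (nat_lit 46) (.e (nat_lit 704737) (nat_lit 11) (.e (nat_lit 16399) (nat_lit 0) (.e (nat_lit 7936) (nat_lit 197) .nil))))))) (.g (nat_lit 1) (.e (nat_lit 402248) (nat_lit 0) .nil) .nil)))) (.nd (nat_lit 9) 
(.lf (nat_lit 592142) (.g (nat_lit 2706) (.e (nat_lit 532550) (nat_lit 12) (.e (nat_lit 360467) (nat_lit 3) (.e (nat_lit 516139) (nat_lit 7) (.e (nat_lit 409616) (nat_lit 10) (.e (nat_lit 5758) (nat_lit 315) .nil))))) (.g (nat_lit 0) (.e (nat_lit 401940) (nat_lit 0) .nil) .nil))) 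
(.lf (nat_lit 592654) (.g (nat_lit 2257) (.e (nat_lit 532551) (nat_lit 12) (.e (nat_lit 360467) (nat_lit 3) (.e (nat_lit 516139) (nat_lit 7) (.e (nat_lit 409649) (nat_lit 18) (.e (nat_lit 303104) (nat_lit 0) .nil))))) (.g (nat_lit 0) (.e (nat_lit 402547) (nat_lit 0) .nil) .nil))))) (.nd (nat_lit 8) (.nd (nat_lit 9) 
(.lf (nat_lit 592014) (.g (nat_lit 1414) (.e (nat_lit 532549) (nat_lit 12) (.e (nat_lit 360471) (nat_lit 7) (.e (nat_lit 548874) (nat_lit 5) (.e (nat_lit 1396) (nat_lit 106) .nil)))) (.g (nat_lit 0) (.e (nat_lit 401690) (nat_lit 0) .nil) .nil))) 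
(.lf (nat_lit 592526) (.g (nat_lit 7066) (.e (nat_lit 532550) (nat_lit 12) (.e (nat_lit 360475) (nat_lit 8) (.e (nat_lit 557091) (nat_lit 12) (.e (nat_lit 164022) (nat_lit 46) (.e (nat_lit 704629) (nat_lit 9) (.e (nat_lit 442) (nat_lit 33) (.e (nat_lit 434230) (nat_lit 23) .nil))))))) (.g (nat_lit 1) (.e (nat_lit 402399) (nat_lit 0) .nil) .nil)))) (.nd (nat_lit 9) 
(.lf (nat_lit 592270) (.g (nat_lit 3940) (.e (nat_lit 532550) (nat_lit 12) (.e (nat_lit 360474) (nat_lit 8) (.e (nat_lit 557093) (nat_lit 12) (.e (nat_lit 164022) (nat_lit 46) (.e (nat_lit 704737) (nat_lit 11) (.e (nat_lit 16391) (nat_lit 0) (.e (nat_lit 3241) (nat_lit 197) .nil))))))) (.g (nat_lit 1) (.e (nat_lit 402120) (nat_lit 0) .nil) .nil))) 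
(.lf (nat_lit 592782) (.g (nat_lit 2307) (.e (nat_lit 532560) (nat_lit 14) (.e (nat_lit 376868) (nat_lit 23) (.e (nat_lit 98350) (nat_lit 24) (.e (nat_lit 409616) (nat_lit 10) (.e (nat_lit 7936) (nat_lit 315) .nil))))) (.g (nat_lit 0) (.e (nat_lit 402925) (nat_lit 0) .nil) .nil)))))) (.nd (nat_lit 7) (.nd (nat_lit 8) (.nd (nat_lit 9) 
(.lf (nat_lit 591950) (.g (nat_lit 1305) (.e (nat_lit 532547) (nat_lit 11) (.e (nat_lit 352315) (nat_lit 23) (.e (nat_lit 98350) (nat_lit 24) (.e (nat_lit 409648) (nat_lit 18) .nil)))) (.g (nat_lit 0) (.e (nat_lit 401559) (nat_lit 0) .nil) .nil))) 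
(.lf (nat_lit 592462) (.g (nat_lit 6100) (.e (nat_lit 532550) (nat_lit 12) (.e (nat_lit 360475) (nat_lit 8) (.e (nat_lit 557086) (nat_lit 11) (.e (nat_lit 24665) (nat_lit 14) (.e (nat_lit 401417) (nat_lit 0) (.e (nat_lit 3234) (nat_lit 197) .nil)))))) (.g (nat_lit 1) (.e (nat_lit 402332) (nat_lit 0) .nil) .nil)))) (.nd (nat_lit 9) 
(.lf (nat_lit 592206) (.g (nat_lit 2366) (.e (nat_lit 532550) (nat_lit 12) (.e (nat_lit 360474) (nat_lit 8) (.e (nat_lit 557085) (nat_lit 11) (.e (nat_lit 24665) (nat_lit 14) (.e (nat_lit 401419) (nat_lit 0) .nil))))) (.g (nat_lit 0) (.e (nat_lit 402056) (nat_lit 0) .nil) .nil))) 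
(.lf (nat_lit 592718) (.g (nat_lit 2026) (.e (nat_lit 532558) (nat_lit 14) (.e (nat_lit 376868) (nat_lit 23) (.e (nat_lit 98350) (nat_lit 24) (.e (nat_lit 409648) (nat_lit 18) (.e (nat_lit 303108) (nat_lit 0) (.e (nat_lit 3251) (nat_lit 197) .nil)))))) (.g (nat_lit 1) (.e (nat_lit 402732) (nat_lit 0) .nil) .nil))))) (.nd (nat_lit 8) (.nd (nat_lit 9) 
(.lf (nat_lit 592078) (.g (nat_lit 3302) (.e (nat_lit 532549) (nat_lit 12) (.e (nat_lit 360473) (nat_lit 8) (.e (nat_lit 557094) (nat_lit 12) (.e (nat_lit 163852) (nat_lit 0) (.e (nat_lit 6427) (nat_lit 342) (.e (nat_lit 229409) (nat_lit 13) (.e (nat_lit 434231) (nat_lit 23) .nil))))))) (.g (nat_lit 1) (.e (nat_lit 401776) (nat_lit 0) .nil) .nil))) 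
(.lf (nat_lit 592590) (.g (nat_lit 5726) (.e (nat_lit 532550) (nat_lit 12) (.e (nat_lit 360475) (nat_lit 8) (.e (nat_lit 557091) (nat_lit 12) (.e (nat_lit 164022) (nat_lit 46) (.e (nat_lit 704738) (nat_lit 11) (.e (nat_lit 16384) (nat_lit 0) (.e (nat_lit 3237) (nat_lit 197) .nil))))))) (.g (nat_lit 1) (.e (nat_lit 402464) (nat_lit 0) .nil) .nil)))) (.nd (nat_lit 9) 
(.lf (nat_lit 592334) (.g (nat_lit 2816) (.e (nat_lit 532550) (nat_lit 12) (.e (nat_lit 360474) (nat_lit 8) (.e (nat_lit 557093) (nat_lit 12) (.e (nat_lit 164023) (nat_lit 46) (.e (nat_lit 704735) (nat_lit 11) (.e (nat_lit 16396) (nat_lit 0) (.e (nat_lit 7936) (nat_lit 197) .nil))))))) (.g (nat_lit 1) (.e (nat_lit 402184) (nat_lit 0) .nil) .nil))) 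
(.lf (nat_lit 592846) (.g (nat_lit 2044) (.e (nat_lit 532563) (nat_lit 15) (.e (nat_lit 385066) (nat_lit 26) (.e (nat_lit 532530) (nat_lit 9) (.e (nat_lit 336316) (nat_lit 17) (.e (nat_lit 196666) (nat_lit 13) (.e (nat_lit 65642) (nat_lit 15) (.e (nat_lit 3231) (nat_lit 197) .nil))))))) (.g (nat_lit 1) (.e (nat_lit 403055) (nat_lit 0) .nil) .nil))))))) 
(.nd (nat_lit 6) (.nd (nat_lit 7) (.nd (nat_lit 8) (.nd (nat_lit 9) 
(.lf (nat_lit 591918) (.g (nat_lit 945) (.e (nat_lit 532547) (nat_lit 11) (.e (nat_lit 352314) (nat_lit 23) (.e (nat_lit 98350) (nat_lit 24) (.e (nat_lit 417536) (nat_lit 10) .nil)))) (.g (nat_lit 0) (.e (nat_lit 401503) (nat_lit 0) .nil) .nil))) 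
(.lf (nat_lit 592430) (.g (nat_lit 4927) (.e (nat_lit 532550) (nat_lit 12) (.e (nat_lit 360474) (nat_lit 8) (.e (nat_lit 557094) (nat_lit 12) (.e (nat_lit 164022) (nat_lit 46) (.e (nat_lit 704738) (nat_lit 11) (.e (nat_lit 16399) (nat_lit 0) (.e (nat_lit 3252) (nat_lit 197) .nil))))))) (.g (nat_lit 1) (.e (nat_lit 402280) (nat_lit 0) .nil) .nil)))) (.nd (nat_lit 9) 
(.lf (nat_lit 592174) (.g (nat_lit 1800) (.e (nat_lit 532550) (nat_lit 12) (.e (nat_lit 360472) (nat_lit 8) (.e (nat_lit 557090) (nat_lit 12) (.e (nat_lit 164022) (nat_lit 46) .nil)))) (.g (nat_lit 0) (.e (nat_lit 402000) (nat_lit 0) .nil) .nil))) 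
(.lf (nat_lit 592686) (.g (nat_lit 2324) (.e (nat_lit 532554) (nat_lit 13) (.e (nat_lit 368676) (nat_lit 21) (.e (nat_lit 516131) (nat_lit 3) (.e (nat_lit 221212) (nat_lit 22) (.e (nat_lit 196608) (nat_lit 0) .nil))))) (.g (nat_lit 0) (.e (nat_lit 402611) (nat_lit 0) .nil) .nil))))) (.nd (nat_lit 8) (.nd (nat_lit 9) 
(.lf (nat_lit 592046) (.g (nat_lit 2621) (.e (nat_lit 532549) (nat_lit 12) (.e (nat_lit 360473) (nat_lit 8) (.e (nat_lit 557087) (nat_lit 11) (.e (nat_lit 24663) (nat_lit 14) (.e (nat_lit 401408) (nat_lit 0) .nil))))) (.g (nat_lit 0) (.e (nat_lit 401736) (nat_lit 0) .nil) .nil))) 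
(.lf (nat_lit 592558) (.g (nat_lit 3712) (.e (nat_lit 532550) (nat_lit 12) (.e (nat_lit 360475) (nat_lit 8) (.e (nat_lit 557091) (nat_lit 12) (.e (nat_lit 164022) (nat_lit 46) (.e (nat_lit 704736) (nat_lit 11) (.e (nat_lit 16399) (nat_lit 0) (.e (nat_lit 3230) (nat_lit 197) .nil))))))) (.g (nat_lit 1) (.e (nat_lit 402432) (nat_lit 0) .nil) .nil)))) (.nd (nat_lit 9) 
(.lf (nat_lit 592302) (.g (nat_lit 5018) (.e (nat_lit 532550) (nat_lit 12) (.e (nat_lit 360474) (nat_lit 8) (.e (nat_lit 557093) (nat_lit 12) (.e (nat_lit 164022) (nat_lit 46) (.e (nat_lit 704738) (nat_lit 11) (.e (nat_lit 16390) (nat_lit 0) (.e (nat_lit 3236) (nat_lit 197) .nil))))))) (.g (nat_lit 1) (.e (nat_lit 402152) (nat_lit 0) .nil) .nil))) 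
(.lf (nat_lit 592814) (.g (nat_lit 3160) (.e (nat_lit 532560) (nat_lit 14) (.e (nat_lit 376869) (nat_lit 23) (.e (nat_lit 98350) (nat_lit 24) (.e (nat_lit 409648) (nat_lit 18) (.e (nat_lit 303108) (nat_lit 0) (.e (nat_lit 3238) (nat_lit 197) .nil)))))) (.g (nat_lit 1) (.e (nat_lit 402963) (nat_lit 0) .nil) .nil)))))) (.nd (nat_lit 7) (.nd (nat_lit 8) (.nd (nat_lit 9) 
(.lf (nat_lit 591982) (.g (nat_lit 3262) (.e (nat_lit 532549) (nat_lit 12) (.e (nat_lit 360466) (nat_lit 3) (.e (nat_lit 516139) (nat_lit 7) (.e (nat_lit 409623) (nat_lit 10) (.e (nat_lit 5761) (nat_lit 315) (.e (nat_lit 163962) (nat_lit 25) .nil)))))) (.g (nat_lit 1) (.e (nat_lit 401650) (nat_lit 0) .nil) .nil))) 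
(.lf (nat_lit 592494) (.g (nat_lit 4487) (.e (nat_lit 532550) (nat_lit 12) (.e (nat_lit 360475) (nat_lit 8) (.e (nat_lit 557089) (nat_lit 12) (.e (nat_lit 163849) (nat_lit 0) (.e (nat_lit 6255) (nat_lit 337) (.e (nat_lit 2641) (nat_lit 165) (.e (nat_lit 180242) (nat_lit 5) .nil))))))) (.g (nat_lit 1) (.e (nat_lit 402364) (nat_lit 0) .nil) .nil)))) (.nd (nat_lit 9) 
(.lf (nat_lit 592238) (.g (nat_lit 2012) (.e (nat_lit 532550) (nat_lit 12) (.e (nat_lit 360474) (nat_lit 8) (.e (nat_lit 557093) (nat_lit 12) (.e (nat_lit 164022) (nat_lit 46) (.e (nat_lit 704735) (nat_lit 11) (.e (nat_lit 16399) (nat_lit 0) (.e (nat_lit 7936) (nat_lit 197) .nil))))))) (.g (nat_lit 1) (.e (nat_lit 402088) (nat_lit 0) .nil) .nil))) 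
(.lf (nat_lit 592750) (.g (nat_lit 956) (.e (nat_lit 532559) (nat_lit 14) (.e (nat_lit 376869) (nat_lit 23) (.e (nat_lit 98349) (nat_lit 24) (.e (nat_lit 409618) (nat_lit 10) .nil)))) (.g (nat_lit 0) (.e (nat_lit 402810) (nat_lit 0) .nil) .nil))))) (.nd (nat_lit 8) (.nd (nat_lit 9) 
(.lf (nat_lit 592110) (.g (nat_lit 2196) (.e (nat_lit 532549) (nat_lit 12) (.e (nat_lit 360475) (nat_lit 8) (.e (nat_lit 557091) (nat_lit 12) (.e (nat_lit 164020) (nat_lit 45) .nil)))) (.g (nat_lit 0) (.e (nat_lit 401816) (nat_lit 0) .nil) .nil))) 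
(.lf (nat_lit 592622) (.g (nat_lit 6241) (.e (nat_lit 532550) (nat_lit 12) (.e (nat_lit 360475) (nat_lit 8) (.e (nat_lit 557091) (nat_lit 12) (.e (nat_lit 164022) (nat_lit 46) (.e (nat_lit 704738) (nat_lit 11) (.e (nat_lit 16401) (nat_lit 0) (.e (nat_lit 3231) (nat_lit 197) .nil))))))) (.g (nat_lit 1) (.e (nat_lit 402496) (nat_lit 0) .nil) .nil)))) (.nd (nat_lit 9) 
(.lf (nat_lit 592366) (.g (nat_lit 5555) (.e (nat_lit 532550) (nat_lit 12) (.e (nat_lit 360474) (nat_lit 8) (.e (nat_lit 557094) (nat_lit 12) (.e (nat_lit 164022) (nat_lit 46) (.e (nat_lit 704629) (nat_lit 9) (.e (nat_lit 475) (nat_lit 36) (.e (nat_lit 458788) (nat_lit 23) .nil))))))) (.g (nat_lit 1) (.e (nat_lit 402216) (nat_lit 0) .nil) .nil))) 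
(.lf (nat_lit 592878) (.g (nat_lit 1852) (.e (nat_lit 532563) (nat_lit 15) (.e (nat_lit 385066) (nat_lit 26) (.e (nat_lit 532535) (nat_lit 9) (.e (nat_lit 343808) (nat_lit 18) .nil)))) (.g (nat_lit 0) (.e (nat_lit 403094) (nat_lit 0) .nil) .nil)))))))) (.nd (nat_lit 5) (.nd (nat_lit 6) (.nd (nat_lit 7) (.nd (nat_lit 8) (.nd (nat_lit 9) 
(.lf (nat_lit 591902) (.g (nat_lit 1570) (.e (nat_lit 532547) (nat_lit 11) (.e (nat_lit 352313) (nat_lit 23) (.e (nat_lit 98350) (nat_lit 24) (.e (nat_lit 409616) (nat_lit 10) .nil)))) (.g (nat_lit 0) (.e (nat_lit 401485) (nat_lit 0) .nil) .nil))) 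
(.lf (nat_lit 592414) (.g (nat_lit 3629) (.e (nat_lit 532550) (nat_lit 12) (.e (nat_lit 360474) (nat_lit 8) (.e (nat_lit 557094) (nat_lit 12) (.e (nat_lit 164022) (nat_lit 46) (.e (nat_lit 704738) (nat_lit 11) (.e (nat_lit 16386) (nat_lit 0) (.e (nat_lit 7936) (nat_lit 197) .nil))))))) (.g (nat_lit 1) (.e (nat_lit 402264) (nat_lit 0) .nil) .nil)))) (.nd (nat_lit 9) 
(.lf (nat_lit 592158) (.g (nat_lit 4004) (.e (nat_lit 532550) (nat_lit 12) (.e (nat_lit 360468) (nat_lit 3) (.e (nat_lit 516139) (nat_lit 7) (.e (nat_lit 409648) (nat_lit 18) (.e (nat_lit 303112) (nat_lit 0) (.e (nat_lit 3252) (nat_lit 197) .nil)))))) (.g (nat_lit 1) (.e (nat_lit 401973) (nat_lit 0) .nil) .nil))) 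
(.lf (nat_lit 592670) (.g (nat_lit 2177) (.e (nat_lit 532553) (nat_lit 13) (.e (nat_lit 368676) (nat_lit 21) (.e (nat_lit 516129) (nat_lit 3) (.e (nat_lit 221210) (nat_lit 22) (.e (nat_lit 196660) (nat_lit 12) .nil))))) (.g (nat_lit 0) (.e (nat_lit 402582) (nat_lit 0) .nil) .nil))))) (.nd (nat_lit 8) (.nd (nat_lit 9) 
(.lf (nat_lit 592030) (.g (nat_lit 2082) (.e (nat_lit 532549) (nat_lit 12) (.e (nat_lit 360473) (nat_lit 8) (.e (nat_lit 557087) (nat_lit 11) (.e (nat_lit 24582) (nat_lit 0) .nil)))) (.g (nat_lit 0) (.e (nat_lit 401718) (nat_lit 0) .nil) .nil))) 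
(.lf (nat_lit 592542) (.g (nat_lit 4927) (.e (nat_lit 532550) (nat_lit 12) (.e (nat_lit 360475) (nat_lit 8) (.e (nat_lit 557091) (nat_lit 12) (.e (nat_lit 164022) (nat_lit 46) (.e (nat_lit 704735) (nat_lit 11) (.e (nat_lit 16390) (nat_lit 0) (.e (nat_lit 3241) (nat_lit 197) .nil))))))) (.g (nat_lit 1) (.e (nat_lit 402416) (nat_lit 0) .nil) .nil)))) (.nd (nat_lit 9) 
(.lf (nat_lit 592286) (.g (nat_lit 4536) (.e (nat_lit 532550) (nat_lit 12) (.e (nat_lit 360474) (nat_lit 8) (.e (nat_lit 557093) (nat_lit 12) (.e (nat_lit 164022) (nat_lit 46) (.e (nat_lit 704738) (nat_lit 11) (.e (nat_lit 16385) (nat_lit 0) (.e (nat_lit 3243) (nat_lit 197) .nil))))))) (.g (nat_lit 1) (.e (nat_lit 402136) (nat_lit 0) .nil) .nil))) 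
(.lf (nat_lit 592798) (.g (nat_lit 1489) (.e (nat_lit 532560) (nat_lit 14) (.e (nat_lit 376869) (nat_lit 23) (.e (nat_lit 98349) (nat_lit 24) (.e (nat_lit 409646) (nat_lit 18) (.e (nat_lit 303106) (nat_lit 0) .nil))))) (.g (nat_lit 0) (.e (nat_lit 402946) (nat_lit 0) .nil) .nil)))))) (.nd (nat_lit 7) (.nd (nat_lit 8) (.nd (nat_lit 9) 
(.lf (nat_lit 591966) (.g (nat_lit 1655) (.e (nat_lit 532548) (nat_lit 11) (.e (nat_lit 352315) (nat_lit 23) (.e (nat_lit 98350) (nat_lit 24) (.e (nat_lit 409623) (nat_lit 10) .nil)))) (.g (nat_lit 0) (.e (nat_lit 401623) (nat_lit 0) .nil) .nil))) 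
(.lf (nat_lit 592478) (.g (nat_lit 5836) (.e (nat_lit 532550) (nat_lit 12) (.e (nat_lit 360475) (nat_lit 8) (.e (nat_lit 557087) (nat_lit 11) (.e (nat_lit 24617) (nat_lit 7) (.e (nat_lit 319511) (nat_lit 10) (.e (nat_lit 595) (nat_lit 45) .nil)))))) (.g (nat_lit 1) (.e (nat_lit 402348) (nat_lit 0) .nil) .nil)))) (.nd (nat_lit 9) 
(.lf (nat_lit 592222) (.g (nat_lit 4830) (.e (nat_lit 532550) (nat_lit 12) (.e (nat_lit 360474) (nat_lit 8) (.e (nat_lit 557093) (nat_lit 12) (.e (nat_lit 164022) (nat_lit 46) (.e (nat_lit 704628) (nat_lit 9) (.e (nat_lit 475) (nat_lit 36) (.e (nat_lit 458788) (nat_lit 23) .nil))))))) (.g (nat_lit 1) (.e (nat_lit 402072) (nat_lit 0) .nil) .nil))) 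
(.lf (nat_lit 592734) (.g (nat_lit 1601) (.e (nat_lit 532559) (nat_lit 14) (.e (nat_lit 376865) (nat_lit 22) (.e (nat_lit 90185) (nat_lit 17) (.e (nat_lit 237584) (nat_lit 1) .nil)))) (.g (nat_lit 0) (.e (nat_lit 402791) (nat_lit 0) .nil) .nil))))) (.nd (nat_lit 8) (.nd (nat_lit 9) 
(.lf (nat_lit 592094) (.g (nat_lit 1956) (.e (nat_lit 532549) (nat_lit 12) (.e (nat_lit 360475) (nat_lit 8) (.e (nat_lit 557085) (nat_lit 11) (.e (nat_lit 24665) (nat_lit 14) .nil)))) (.g (nat_lit 0) (.e (nat_lit 401797) (nat_lit 0) .nil) .nil))) 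
(.lf (nat_lit 592606) (.g (nat_lit 5006) (.e (nat_lit 532550) (nat_lit 12) (.e (nat_lit 360475) (nat_lit 8) (.e (nat_lit 557091) (nat_lit 12) (.e (nat_lit 164022) (nat_lit 46) (.e (nat_lit 704738) (nat_lit 11) (.e (nat_lit 16390) (nat_lit 0) (.e (nat_lit 3239) (nat_lit 197) .nil))))))) (.g (nat_lit 1) (.e (nat_lit 402480) (nat_lit 0) .nil) .nil)))) (.nd (nat_lit 9) 
(.lf (nat_lit 592350) (.g (nat_lit 1082) (.e (nat_lit 532550) (nat_lit 12) (.e (nat_lit 360474) (nat_lit 8) (.e (nat_lit 557094) (nat_lit 12) (.e (nat_lit 163852) (nat_lit 0) (.e (nat_lit 6273) (nat_lit 337) (.e (nat_lit 2635) (nat_lit 165) (.e (nat_lit 188160) (nat_lit 5) .nil))))))) (.g (nat_lit 1) (.e (nat_lit 402200) (nat_lit 0) .nil) .nil))) 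
(.lf (nat_lit 592862) (.g (nat_lit 3241) (.e (nat_lit 532563) (nat_lit 15) (.e (nat_lit 385066) (nat_lit 26) (.e (nat_lit 532534) (nat_lit 9) (.e (nat_lit 336019) (nat_lit 3) (.e (nat_lit 98333) (nat_lit 18) (.e (nat_lit 164243) (nat_lit 195) (.e (nat_lit 2611) (nat_lit 163) (.e (nat_lit 163963) (nat_lit 25) .nil)))))))) (.g (nat_lit 1) (.e (nat_lit 403072) (nat_lit 0) .nil) .nil))))))) 
(.nd (nat_lit 6) (.nd (nat_lit 7) (.nd (nat_lit 8) (.nd (nat_lit 9) 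
(.lf (nat_lit 591934) (.g (nat_lit 2260) (.e (nat_lit 532547) (nat_lit 11) (.e (nat_lit 352315) (nat_lit 23) (.e (nat_lit 98350) (nat_lit 24) (.e (nat_lit 409612) (nat_lit 10) .nil)))) (.g (nat_lit 0) (.e (nat_lit 401536) (nat_lit 0) .nil) .nil))) 
(.lf (nat_lit 592446) (.g (nat_lit 1475) (.e (nat_lit 532550) (nat_lit 12) (.e (nat_lit 360475) (nat_lit 8) (.e (nat_lit 557086) (nat_lit 11) (.e (nat_lit 24616) (nat_lit 7) (.e (nat_lit 319505) (nat_lit 10) .nil))))) (.g (nat_lit 0) (.e (nat_lit 402312) (nat_lit 0) .nil) .nil)))) (.nd (nat_lit 9) 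
(.lf (nat_lit 592190) (.g (nat_lit 2546) (.e (nat_lit 532550) (nat_lit 12) (.e (nat_lit 360474) (nat_lit 8) (.e (nat_lit 557085) (nat_lit 11) (.e (nat_lit 24617) (nat_lit 7) (.e (nat_lit 319503) (nat_lit 10) .nil))))) (.g (nat_lit 0) (.e (nat_lit 402035) (nat_lit 0) .nil) .nil))) 
(.lf (nat_lit 592702) (.g (nat_lit 1664) (.e (nat_lit 532558) (nat_lit 14) (.e (nat_lit 376842) (nat_lit 11) (.e (nat_lit 426098) (nat_lit 1) (.e (nat_lit 164183) (nat_lit 154) (.e (nat_lit 65280) (nat_lit 18) .nil))))) (.g (nat_lit 0) (.e (nat_lit 402691) (nat_lit 0) .nil) .nil))))) (.nd (nat_lit 8) (.nd (nat_lit 9) 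
(.lf (nat_lit 592062) (.g (nat_lit 5394) (.e (nat_lit 532549) (nat_lit 12) (.e (nat_lit 360473) (nat_lit 8) (.e (nat_lit 557091) (nat_lit 12) (.e (nat_lit 164022) (nat_lit 46) (.e (nat_lit 704629) (nat_lit 9) (.e (nat_lit 442) (nat_lit 33) (.e (nat_lit 434232) (nat_lit 23) .nil))))))) (.g (nat_lit 1) (.e (nat_lit 401759) (nat_lit 0) .nil) .nil))) 
(.lf (nat_lit 592574) (.g (nat_lit 5607) (.e (nat_lit 532550) (nat_lit 12) (.e (nat_lit 360475) (nat_lit 8) (.e (nat_lit 557091) (nat_lit 12) (.e (nat_lit 164022) (nat_lit 46) (.e (nat_lit 704737) (nat_lit 11) (.e (nat_lit 16389) (nat_lit 0) (.e (nat_lit 3241) (nat_lit 197) .nil))))))) (.g (nat_lit 1) (.e (nat_lit 402448) (nat_lit 0) .nil) .nil)))) (.nd (nat_lit 9) 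
(.lf (nat_lit 592318) (.g (nat_lit 5208) (.e (nat_lit 532550) (nat_lit 12) (.e (nat_lit 360474) (nat_lit 8) (.e (nat_lit 557093) (nat_lit 12) (.e (nat_lit 164022) (nat_lit 46) (.e (nat_lit 704738) (nat_lit 11) (.e (nat_lit 16399) (nat_lit 0) (.e (nat_lit 3252) (nat_lit 197) .nil))))))) (.g (nat_lit 1) (.e (nat_lit 402168) (nat_lit 0) .nil) .nil))) 
(.lf (nat_lit 592830) (.g (nat_lit 2314) (.e (nat_lit 532561) (nat_lit 14) (.e (nat_lit 376867) (nat_lit 23) (.e (nat_lit 98350) (nat_lit 24) (.e (nat_lit 409646) (nat_lit 18) (.e (nat_lit 303112) (nat_lit 0) (.e (nat_lit 3252) (nat_lit 197) .nil)))))) (.g (nat_lit 1) (.e (nat_lit 403022) (nat_lit 0) .nil) .nil)))))) (.nd (nat_lit 7) (.nd (nat_lit 8) (.nd (nat_lit 9) 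
(.lf (nat_lit 591998) (.g (nat_lit 2293) (.e (nat_lit 532549) (nat_lit 12) (.e (nat_lit 360467) (nat_lit 3) (.e (nat_lit 516139) (nat_lit 7) (.e (nat_lit 409615) (nat_lit 10) .nil)))) (.g (nat_lit 0) (.e (nat_lit 401673) (nat_lit 0) .nil) .nil))) 
(.lf (nat_lit 592510) (.g (nat_lit 4351) (.e (nat_lit 532550) (nat_lit 12) (.e (nat_lit 360475) (nat_lit 8) (.e (nat_lit 557091) (nat_lit 12) (.e (nat_lit 163843) (nat_lit 0) (.e (nat_lit 6255) (nat_lit 337) (.e (nat_lit 2643) (nat_lit 165) (.e (nat_lit 180242) (nat_lit 5) .nil))))))) (.g (nat_lit 1) (.e (nat_lit 402381) (nat_lit 0) .nil) .nil)))) (.nd (nat_lit 9) 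
(.lf (nat_lit 592254) (.g (nat_lit 4434) (.e (nat_lit 532550) (nat_lit 12) (.e (nat_lit 360474) (nat_lit 8) (.e (nat_lit 557093) (nat_lit 12) (.e (nat_lit 164022) (nat_lit 46) (.e (nat_lit 704737) (nat_lit 11) (.e (nat_lit 16384) (nat_lit 0) (.e (nat_lit 3243) (nat_lit 197) .nil))))))) (.g (nat_lit 1) (.e (nat_lit 402104) (nat_lit 0) .nil) .nil))) 
(.lf (nat_lit 592766) (.g (nat_lit 700) (.e (nat_lit 532560) (nat_lit 14) (.e (nat_lit 376857) (nat_lit 21) (.e (nat_lit 57686) (nat_lit 156) .nil))) (.g (nat_lit 0) (.e (nat_lit 402873) (nat_lit 0) .nil) .nil))))) (.nd (nat_lit 8) (.nd (nat_lit 9) 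
(.lf (nat_lit 592126) (.g (nat_lit 2648) (.e (nat_lit 532550) (nat_lit 12) (.e (nat_lit 360466) (nat_lit 3) (.e (nat_lit 516139) (nat_lit 7) (.e (nat_lit 409616) (nat_lit 10) (.e (nat_lit 5758) (nat_lit 315) .nil))))) (.g (nat_lit 0) (.e (nat_lit 401912) (nat_lit 0) .nil) .nil))) 
(.lf (nat_lit 592638) (.g (nat_lit 414) (.e (nat_lit 532551) (nat_lit 12) (.e (nat_lit 360467) (nat_lit 3) (.e (nat_lit 516139) (nat_lit 7) .nil))) (.g (nat_lit 0) (.e (nat_lit 402528) (nat_lit 0) .nil) .nil)))) (.nd (nat_lit 9) 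
(.lf (nat_lit 592382) (.g (nat_lit 3557) (.e (nat_lit 532550) (nat_lit 12) (.e (nat_lit 360474) (nat_lit 8) (.e (nat_lit 557094) (nat_lit 12) (.e (nat_lit 164022) (nat_lit 46) (.e (nat_lit 704737) (nat_lit 11) (.e (nat_lit 16384) (nat_lit 0) (.e (nat_lit 3230) (nat_lit 197) .nil))))))) (.g (nat_lit 1) (.e (nat_lit 402232) (nat_lit 0) .nil) .nil))) 
(.lf (nat_lit 592894) (.g (nat_lit 2052) (.e (nat_lit 532563) (nat_lit 15) (.e (nat_lit 385068) (nat_lit 26) (.e (nat_lit 532534) (nat_lit 9) (.e (nat_lit 336326) (nat_lit 18) (.e (nat_lit 204854) (nat_lit 26) .nil))))) (.g (nat_lit 0) (.e (nat_lit 403120) (nat_lit 0) .nil) .nil)))))))))))) 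
(.nd (nat_lit 1) (.nd (nat_lit 2) (.nd (nat_lit 3) (.nd (nat_lit 4) (.nd (nat_lit 5) 
(.nd (nat_lit 6) (.nd (nat_lit 7) (.nd (nat_lit 8) (.nd (nat_lit 9) 
(.lf (nat_lit 591873) (.g (nat_lit 1647) (.e (nat_lit 532546) (nat_lit 11) (.e (nat_lit 352315) (nat_lit 23) (.e (nat_lit 98349) (nat_lit 24) (.e (nat_lit 409644) (nat_lit 18) .nil)))) (.g (nat_lit 0) (.e (nat_lit 401380) (nat_lit 0) .nil) .nil))) 
(.lf (nat_lit 592385) (.g (nat_lit 4935) (.e (nat_lit 532550) (nat_lit 12) (.e (nat_lit 360474) (nat_lit 8) (.e (nat_lit 557094) (nat_lit 12) (.e (nat_lit 164022) (nat_lit 46) (.e (nat_lit 704737) (nat_lit 11) (.e (nat_lit 16384) (nat_lit 0) (.e (nat_lit 3250) (nat_lit 197) .nil))))))) (.g (nat_lit 1) (.e (nat_lit 402235) (nat_lit 0) .nil) .nil)))) (.nd (nat_lit 9) 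
(.lf (nat_lit 592129) (.g (nat_lit 2596) (.e (nat_lit 532550) (nat_lit 12) (.e (nat_lit 360466) (nat_lit 3) (.e (nat_lit 516139) (nat_lit 7) (.e (nat_lit 409617) (nat_lit 10) (.e (nat_lit 7936) (nat_lit 315) .nil))))) (.g (nat_lit 0) (.e (nat_lit 401916) (nat_lit 0) .nil) .nil))) 
(.lf (nat_lit 592641) (.g (nat_lit 2659) (.e (nat_lit 532551) (nat_lit 12) (.e (nat_lit 360467) (nat_lit 3) (.e (nat_lit 516139) (nat_lit 7) (.e (nat_lit 409616) (nat_lit 10) (.e (nat_lit 5757) (nat_lit 315) .nil))))) (.g (nat_lit 0) (.e (nat_lit 402533) (nat_lit 0) .nil) .nil))))) (.nd (nat_lit 8) (.nd (nat_lit 9) 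
(.lf (nat_lit 592001) (.g (nat_lit 2516) (.e (nat_lit 532549) (nat_lit 12) (.e (nat_lit 360467) (nat_lit 3) (.e (nat_lit 516139) (nat_lit 7) (.e (nat_lit 409617) (nat_lit 10) (.e (nat_lit 5756) (nat_lit 315) (.e (nat_lit 163962) (nat_lit 25) .nil)))))) (.g (nat_lit 1) (.e (nat_lit 401676) (nat_lit 0) .nil) .nil))) 
(.lf (nat_lit 592513) (.g (nat_lit 2379) (.e (nat_lit 532550) (nat_lit 12) (.e (nat_lit 360475) (nat_lit 8) (.e (nat_lit 557091) (nat_lit 12) (.e (nat_lit 163850) (nat_lit 0) (.e (nat_lit 6273) (nat_lit 337) (.e (nat_lit 2635) (nat_lit 165) (.e (nat_lit 188160) (nat_lit 5) .nil))))))) (.g (nat_lit 1) (.e (nat_lit 402385) (nat_lit 0) .nil) .nil)))) (.nd (nat_lit 9) 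
(.lf (nat_lit 592257) (.g (nat_lit 4062) (.e (nat_lit 532550) (nat_lit 12) (.e (nat_lit 360474) (nat_lit 8) (.e (nat_lit 557093) (nat_lit 12) (.e (nat_lit 164022) (nat_lit 46) (.e (nat_lit 704737) (nat_lit 11) (.e (nat_lit 16385) (nat_lit 0) (.e (nat_lit 3241) (nat_lit 197) .nil))))))) (.g (nat_lit 1) (.e (nat_lit 402107) (nat_lit 0) .nil) .nil))) 
(.lf (nat_lit 592769) (.g (nat_lit 864) (.e (nat_lit 532560) (nat_lit 14) (.e (nat_lit 376860) (nat_lit 21) (.e (nat_lit 57685) (nat_lit 156) (.e (nat_lit 163885) (nat_lit 5) .nil)))) (.g (nat_lit 0) (.e (nat_lit 402877) (nat_lit 0) .nil) .nil)))))) (.nd (nat_lit 7) (.nd (nat_lit 8) (.nd (nat_lit 9) 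
(.lf (nat_lit 591937) (.g (nat_lit 1802) (.e (nat_lit 532547) (nat_lit 11) (.e (nat_lit 352315) (nat_lit 23) (.e (nat_lit 98350) (nat_lit 24) (.e (nat_lit 409616) (nat_lit 10) .nil)))) (.g (nat_lit 0) (.e (nat_lit 401540) (nat_lit 0) .nil) .nil))) 
(.lf (nat_lit 592449) (.g (nat_lit 2190) (.e (nat_lit 532550) (nat_lit 12) (.e (nat_lit 360475) (nat_lit 8) (.e (nat_lit 557086) (nat_lit 11) (.e (nat_lit 24619) (nat_lit 8) (.e (nat_lit 327705) (nat_lit 10) (.e (nat_lit 7936) (nat_lit 45) .nil)))))) (.g (nat_lit 1) (.e (nat_lit 402316) (nat_lit 0) .nil) .nil)))) (.nd (nat_lit 9) 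
(.lf (nat_lit 592193) (.g (nat_lit 2681) (.e (nat_lit 532550) (nat_lit 12) (.e (nat_lit 360474) (nat_lit 8) (.e (nat_lit 557085) (nat_lit 11) (.e (nat_lit 24622) (nat_lit 8) (.e (nat_lit 327705) (nat_lit 10) (.e (nat_lit 7936) (nat_lit 45) .nil)))))) (.g (nat_lit 1) (.e (nat_lit 402043) (nat_lit 0) .nil) .nil))) 
(.lf (nat_lit 592705) (.g (nat_lit 700) (.e (nat_lit 532558) (nat_lit 14) (.e (nat_lit 376857) (nat_lit 21) (.e (nat_lit 57686) (nat_lit 156) .nil))) (.g (nat_lit 0) (.e (nat_lit 402701) (nat_lit 0) .nil) .nil))))) (.nd (nat_lit 8) (.nd (nat_lit 9) 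
(.lf (nat_lit 592065) (.g (nat_lit 2774) (.e (nat_lit 532549) (nat_lit 12) (.e (nat_lit 360473) (nat_lit 8) (.e (nat_lit 557091) (nat_lit 12) (.e (nat_lit 164022) (nat_lit 46) (.e (nat_lit 704737) (nat_lit 11) (.e (nat_lit 16401) (nat_lit 0) (.e (nat_lit 3249) (nat_lit 197) .nil))))))) (.g (nat_lit 1) (.e (nat_lit 401762) (nat_lit 0) .nil) .nil))) 
(.lf (nat_lit 592577) (.g (nat_lit 5384) (.e (nat_lit 532550) (nat_lit 12) (.e (nat_lit 360475) (nat_lit 8) (.e (nat_lit 557091) (nat_lit 12) (.e (nat_lit 164022) (nat_lit 46) (.e (nat_lit 704737) (nat_lit 11) (.e (nat_lit 16396) (nat_lit 0) (.e (nat_lit 3251) (nat_lit 197) .nil))))))) (.g (nat_lit 1) (.e (nat_lit 402451) (nat_lit 0) .nil) .nil)))) (.nd (nat_lit 9) 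
(.lf (nat_lit 592321) (.g (nat_lit 3718) (.e (nat_lit 532550) (nat_lit 12) (.e (nat_lit 360474) (nat_lit 8) (.e (nat_lit 557093) (nat_lit 12) (.e (nat_lit 164022) (nat_lit 46) (.e (nat_lit 704738) (nat_lit 11) (.e (nat_lit 16401) (nat_lit 0) (.e (nat_lit 3230) (nat_lit 197) .nil))))))) (.g (nat_lit 1) (.e (nat_lit 402171) (nat_lit 0) .nil) .nil))) 
(.lf (nat_lit 592833) (.g (nat_lit 1464) (.e (nat_lit 532561) (nat_lit 14) (.e (nat_lit 376869) (nat_lit 23) (.e (nat_lit 98349) (nat_lit 24) (.e (nat_lit 417536) (nat_lit 18) (.e (nat_lit 303112) (nat_lit 0) (.e (nat_lit 3252) (nat_lit 197) .nil)))))) (.g (nat_lit 1) (.e (nat_lit 403025) (nat_lit 0) .nil) .nil))))))) (.nd (nat_lit 6) (.nd (nat_lit 7) (.nd (nat_lit 8) (.nd (nat_lit 9) 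
(.lf (nat_lit 591905) (.g (nat_lit 2739) (.e (nat_lit 532547) (nat_lit 11) (.e (nat_lit 352313) (nat_lit 23) (.e (nat_lit 98350) (nat_lit 24) (.e (nat_lit 409616) (nat_lit 10) (.e (nat_lit 7936) (nat_lit 315) .nil))))) (.g (nat_lit 0) (.e (nat_lit 401488) (nat_lit 0) .nil) .nil))) 
(.lf (nat_lit 592417) (.g (nat_lit 5210) (.e (nat_lit 532550) (nat_lit 12) (.e (nat_lit 360474) (nat_lit 8) (.e (nat_lit 557094) (nat_lit 12) (.e (nat_lit 164022) (nat_lit 46) (.e (nat_lit 704738) (nat_lit 11) (.e (nat_lit 16390) (nat_lit 0) (.e (nat_lit 3237) (nat_lit 197) .nil))))))) (.g (nat_lit 1) (.e (nat_lit 402267) (nat_lit 0) .nil) .nil)))) (.nd (nat_lit 9) 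
(.lf (nat_lit 592161) (.g (nat_lit 3398) (.e (nat_lit 532550) (nat_lit 12) (.e (nat_lit 368384) (nat_lit 3) (.e (nat_lit 516138) (nat_lit 7) (.e (nat_lit 409646) (nat_lit 18) (.e (nat_lit 303112) (nat_lit 0) (.e (nat_lit 3252) (nat_lit 197) .nil)))))) (.g (nat_lit 1) (.e (nat_lit 401976) (nat_lit 0) .nil) .nil))) 
(.lf (nat_lit 592673) (.g (nat_lit 1026) (.e (nat_lit 532553) (nat_lit 13) (.e (nat_lit 368676) (nat_lit 21) (.e (nat_lit 516131) (nat_lit 3) (.e (nat_lit 221211) (nat_lit 22) .nil)))) (.g (nat_lit 0) (.e (nat_lit 402585) (nat_lit 0) .nil) .nil))))) (.nd (nat_lit 8) (.nd (nat_lit 9) 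
(.lf (nat_lit 592033) (.g (nat_lit 3023) (.e (nat_lit 532549) (nat_lit 12) (.e (nat_lit 360473) (nat_lit 8) (.e (nat_lit 557087) (nat_lit 11) (.e (nat_lit 24584) (nat_lit 0) (.e (nat_lit 6225) (nat_lit 334) .nil))))) (.g (nat_lit 0) (.e (nat_lit 401721) (nat_lit 0) .nil) .nil))) 
(.lf (nat_lit 592545) (.g (nat_lit 1962) (.e (nat_lit 532550) (nat_lit 12) (.e (nat_lit 360475) (nat_lit 8) (.e (nat_lit 557091) (nat_lit 12) (.e (nat_lit 164022) (nat_lit 46) (.e (nat_lit 704735) (nat_lit 11) (.e (nat_lit 16396) (nat_lit 0) (.e (nat_lit 7936) (nat_lit 197) .nil))))))) (.g (nat_lit 1) (.e (nat_lit 402419) (nat_lit 0) .nil) .nil)))) (.nd (nat_lit 9) 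
(.lf (nat_lit 592289) (.g (nat_lit 5704) (.e (nat_lit 532550) (nat_lit 12) (.e (nat_lit 360474) (nat_lit 8) (.e (nat_lit 557093) (nat_lit 12) (.e (nat_lit 164022) (nat_lit 46) (.e (nat_lit 704738) (nat_lit 11) (.e (nat_lit 16386) (nat_lit 0) (.e (nat_lit 3227) (nat_lit 197) .nil))))))) (.g (nat_lit 1) (.e (nat_lit 402139) (nat_lit 0) .nil) .nil))) 
(.lf (nat_lit 592801) (.g (nat_lit 224) (.e (nat_lit 532560) (nat_lit 14) (.e (nat_lit 376869) (nat_lit 23) (.e (nat_lit 98350) (nat_lit 24) .nil))) (.g (nat_lit 0) (.e (nat_lit 402949) (nat_lit 0) .nil) .nil)))))) (.nd (nat_lit 7) (.nd (nat_lit 8) (.nd (nat_lit 9) 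
(.lf (nat_lit 591969) (.g (nat_lit 1366) (.e (nat_lit 532548) (nat_lit 11) (.e (nat_lit 352315) (nat_lit 23) (.e (nat_lit 98350) (nat_lit 24) (.e (nat_lit 409648) (nat_lit 18) .nil)))) (.g (nat_lit 0) (.e (nat_lit 401626) (nat_lit 0) .nil) .nil))) 
(.lf (nat_lit 592481) (.g (nat_lit 3761) (.e (nat_lit 532550) (nat_lit 12) (.e (nat_lit 360475) (nat_lit 8) (.e (nat_lit 557087) (nat_lit 11) (.e (nat_lit 24662) (nat_lit 14) (.e (nat_lit 401418) (nat_lit 0) (.e (nat_lit 3249) (nat_lit 197) .nil)))))) (.g (nat_lit 1) (.e (nat_lit 402351) (nat_lit 0) .nil) .nil)))) (.nd (nat_lit 9) 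
(.lf (nat_lit 592225) (.g (nat_lit 8566) (.e (nat_lit 532550) (nat_lit 12) (.e (nat_lit 360474) (nat_lit 8) (.e (nat_lit 557093) (nat_lit 12) (.e (nat_lit 164022) (nat_lit 46) (.e (nat_lit 704629) (nat_lit 9) (.e (nat_lit 442) (nat_lit 33) (.e (nat_lit 434234) (nat_lit 23) .nil))))))) (.g (nat_lit 1) (.e (nat_lit 402075) (nat_lit 0) .nil) .nil))) 
(.lf (nat_lit 592737) (.g (nat_lit 2427) (.e (nat_lit 532559) (nat_lit 14) (.e (nat_lit 376868) (nat_lit 23) (.e (nat_lit 98350) (nat_lit 24) (.e (nat_lit 409616) (nat_lit 10) (.e (nat_lit 5756) (nat_lit 315) .nil))))) (.g (nat_lit 0) (.e (nat_lit 402795) (nat_lit 0) .nil) .nil))))) (.nd (nat_lit 8) (.nd (nat_lit 9) 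
(.lf (nat_lit 592097) (.g (nat_lit 3435) (.e (nat_lit 532549) (nat_lit 12) (.e (nat_lit 360475) (nat_lit 8) (.e (nat_lit 557087) (nat_lit 11) (.e (nat_lit 24617) (nat_lit 7) (.e (nat_lit 319504) (nat_lit 10) (.e (nat_lit 7936) (nat_lit 45) .nil)))))) (.g (nat_lit 1) (.e (nat_lit 401801) (nat_lit 0) .nil) .nil))) 
(.lf (nat_lit 592609) (.g (nat_lit 5180) (.e (nat_lit 532550) (nat_lit 12) (.e (nat_lit 360475) (nat_lit 8) (.e (nat_lit 557091) (nat_lit 12) (.e (nat_lit 164022) (nat_lit 46) (.e (nat_lit 704738) (nat_lit 11) (.e (nat_lit 16390) (nat_lit 0) (.e (nat_lit 3243) (nat_lit 197) .nil))))))) (.g (nat_lit 1) (.e (nat_lit 402483) (nat_lit 0) .nil) .nil)))) (.nd (nat_lit 9) 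
(.lf (nat_lit 592353) (.g (nat_lit 3140) (.e (nat_lit 532550) (nat_lit 12) (.e (nat_lit 360474) (nat_lit 8) (.e (nat_lit 557094) (nat_lit 12) (.e (nat_lit 164022) (nat_lit 46) (.e (nat_lit 704628) (nat_lit 9) (.e (nat_lit 452) (nat_lit 33) (.e (nat_lit 434230) (nat_lit 23) .nil))))))) (.g (nat_lit 1) (.e (nat_lit 402203) (nat_lit 0) .nil) .nil))) 
(.lf (nat_lit 592865) (.g (nat_lit 2079) (.e (nat_lit 532563) (nat_lit 15) (.e (nat_lit 385066) (nat_lit 26) (.e (nat_lit 532534) (nat_lit 9) (.e (nat_lit 336019) (nat_lit 3) (.e (nat_lit 98338) (nat_lit 19) (.e (nat_lit 213052) (nat_lit 17) (.e (nat_lit 171776) (nat_lit 86) .nil))))))) (.g (nat_lit 1) (.e (nat_lit 403081) (nat_lit 0) .nil) .nil)))))))) 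
(.nd (nat_lit 5) (.nd (nat_lit 6) (.nd (nat_lit 7) (.nd (nat_lit 8) (.nd (nat_lit 9) 
(.lf (nat_lit 591889) (.g (nat_lit 3348) (.e (nat_lit 532547) (nat_lit 11) (.e (nat_lit 352293) (nat_lit 20) (.e (nat_lit 1848) (nat_lit 124) (.e (nat_lit 557087) (nat_lit 11) (.e (nat_lit 24617) (nat_lit 7) (.e (nat_lit 319505) (nat_lit 10) (.e (nat_lit 7936) (nat_lit 45) .nil))))))) (.g (nat_lit 1) (.e (nat_lit 401436) (nat_lit 0) .nil) .nil))) 
(.lf (nat_lit 592401) (.g (nat_lit 4942) (.e (nat_lit 532550) (nat_lit 12) (.e (nat_lit 360474) (nat_lit 8) (.e (nat_lit 557094) (nat_lit 12) (.e (nat_lit 164022) (nat_lit 46) (.e (nat_lit 704737) (nat_lit 11) (.e (nat_lit 16401) (nat_lit 0) (.e (nat_lit 3233) (nat_lit 197) .nil))))))) (.g (nat_lit 1) (.e (nat_lit 402251) (nat_lit 0) .nil) .nil)))) (.nd (nat_lit 9) 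
(.lf (nat_lit 592145) (.g (nat_lit 3651) (.e (nat_lit 532550) (nat_lit 12) (.e (nat_lit 360467) (nat_lit 3) (.e (nat_lit 516139) (nat_lit 7) (.e (nat_lit 409643) (nat_lit 18) (.e (nat_lit 303112) (nat_lit 0) (.e (nat_lit 3252) (nat_lit 197) .nil)))))) (.g (nat_lit 1) (.e (nat_lit 401944) (nat_lit 0) .nil) .nil))) 
(.lf (nat_lit 592657) (.g (nat_lit 2422) (.e (nat_lit 532551) (nat_lit 12) (.e (nat_lit 360467) (nat_lit 3) (.e (nat_lit 516139) (nat_lit 7) (.e (nat_lit 417536) (nat_lit 18) (.e (nat_lit 303112) (nat_lit 0) (.e (nat_lit 3252) (nat_lit 197) .nil)))))) (.g (nat_lit 1) (.e (nat_lit 402550) (nat_lit 0) .nil) .nil))))) (.nd (nat_lit 8) (.nd (nat_lit 9) 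
(.lf (nat_lit 592017) (.g (nat_lit 2645) (.e (nat_lit 532549) (nat_lit 12) (.e (nat_lit 360472) (nat_lit 8) (.e (nat_lit 557090) (nat_lit 12) (.e (nat_lit 164020) (nat_lit 45) (.e (nat_lit 696329) (nat_lit 5) .nil))))) (.g (nat_lit 0) (.e (nat_lit 401694) (nat_lit 0) .nil) .nil))) 
(.lf (nat_lit 592529) (.g (nat_lit 4661) (.e (nat_lit 532550) (nat_lit 12) (.e (nat_lit 360475) (nat_lit 8) (.e (nat_lit 557091) (nat_lit 12) (.e (nat_lit 164022) (nat_lit 46) (.e (nat_lit 704629) (nat_lit 9) (.e (nat_lit 442) (nat_lit 33) (.e (nat_lit 442112) (nat_lit 23) .nil))))))) (.g (nat_lit 1) (.e (nat_lit 402402) (nat_lit 0) .nil) .nil)))) (.nd (nat_lit 9) 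
(.lf (nat_lit 592273) (.g (nat_lit 4035) (.e (nat_lit 532550) (nat_lit 12) (.e (nat_lit 360474) (nat_lit 8) (.e (nat_lit 557093) (nat_lit 12) (.e (nat_lit 164022) (nat_lit 46) (.e (nat_lit 704737) (nat_lit 11) (.e (nat_lit 16399) (nat_lit 0) (.e (nat_lit 3230) (nat_lit 197) .nil))))))) (.g (nat_lit 1) (.e (nat_lit 402123) (nat_lit 0) .nil) .nil))) 
(.lf (nat_lit 592785) (.g (nat_lit 2341) (.e (nat_lit 532560) (nat_lit 14) (.e (nat_lit 376868) (nat_lit 23) (.e (nat_lit 98350) (nat_lit 24) (.e (nat_lit 409617) (nat_lit 10) (.e (nat_lit 5762) (nat_lit 315) (.e (nat_lit 163962) (nat_lit 25) .nil)))))) (.g (nat_lit 1) (.e (nat_lit 402928) (nat_lit 0) .nil) .nil)))))) (.nd (nat_lit 7) (.nd (nat_lit 8) (.nd (nat_lit 9) 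
(.lf (nat_lit 591953) (.g (nat_lit 2954) (.e (nat_lit 532547) (nat_lit 11) (.e (nat_lit 352315) (nat_lit 23) (.e (nat_lit 98350) (nat_lit 24) (.e (nat_lit 409648) (nat_lit 18) (.e (nat_lit 303108) (nat_lit 0) (.e (nat_lit 7936) (nat_lit 197) .nil)))))) (.g (nat_lit 1) (.e (nat_lit 401562) (nat_lit 0) .nil) .nil))) 
(.lf (nat_lit 592465) (.g (nat_lit 6054) (.e (nat_lit 532550) (nat_lit 12) (.e (nat_lit 360475) (nat_lit 8) (.e (nat_lit 557086) (nat_lit 11) (.e (nat_lit 24665) (nat_lit 14) (.e (nat_lit 401419) (nat_lit 0) (.e (nat_lit 3253) (nat_lit 197) .nil)))))) (.g (nat_lit 1) (.e (nat_lit 402335) (nat_lit 0) .nil) .nil)))) (.nd (nat_lit 9) 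
(.lf (nat_lit 592209) (.g (nat_lit 1544) (.e (nat_lit 532550) (nat_lit 12) (.e (nat_lit 360474) (nat_lit 8) (.e (nat_lit 557087) (nat_lit 11) (.e (nat_lit 24617) (nat_lit 7) .nil)))) (.g (nat_lit 0) (.e (nat_lit 402059) (nat_lit 0) .nil) .nil))) 
(.lf (nat_lit 592721) (.g (nat_lit 2495) (.e (nat_lit 532558) (nat_lit 14) (.e (nat_lit 376868) (nat_lit 23) (.e (nat_lit 98350) (nat_lit 24) (.e (nat_lit 409649) (nat_lit 18) (.e (nat_lit 303104) (nat_lit 0) (.e (nat_lit 3238) (nat_lit 197) .nil)))))) (.g (nat_lit 1) (.e (nat_lit 402736) (nat_lit 0) .nil) .nil))))) (.nd (nat_lit 8) (.nd (nat_lit 9) 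
(.lf (nat_lit 592081) (.g (nat_lit 5129) (.e (nat_lit 532549) (nat_lit 12) (.e (nat_lit 360473) (nat_lit 8) (.e (nat_lit 557094) (nat_lit 12) (.e (nat_lit 164022) (nat_lit 46) (.e (nat_lit 704629) (nat_lit 9) (.e (nat_lit 442) (nat_lit 33) (.e (nat_lit 434234) (nat_lit 23) .nil))))))) (.g (nat_lit 1) (.e (nat_lit 401779) (nat_lit 0) .nil) .nil))) 
(.lf (nat_lit 592593) (.g (nat_lit 5297) (.e (nat_lit 532550) (nat_lit 12) (.e (nat_lit 360475) (nat_lit 8) (.e (nat_lit 557091) (nat_lit 12) (.e (nat_lit 164022) (nat_lit 46) (.e (nat_lit 704738) (nat_lit 11) (.e (nat_lit 16384) (nat_lit 0) (.e (nat_lit 3250) (nat_lit 197) .nil))))))) (.g (nat_lit 1) (.e (nat_lit 402467) (nat_lit 0) .nil) .nil)))) (.nd (nat_lit 9) 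
(.lf (nat_lit 592337) (.g (nat_lit 4086) (.e (nat_lit 532550) (nat_lit 12) (.e (nat_lit 360474) (nat_lit 8) (.e (nat_lit 557093) (nat_lit 12) (.e (nat_lit 164023) (nat_lit 46) (.e (nat_lit 704736) (nat_lit 11) (.e (nat_lit 16396) (nat_lit 0) (.e (nat_lit 3252) (nat_lit 197) .nil))))))) (.g (nat_lit 1) (.e (nat_lit 402187) (nat_lit 0) .nil) .nil))) 
(.lf (nat_lit 592849) (.g (nat_lit 1190) (.e (nat_lit 532563) (nat_lit 15) (.e (nat_lit 385066) (nat_lit 26) (.e (nat_lit 532530) (nat_lit 9) (.e (nat_lit 336326) (nat_lit 18) .nil)))) (.g (nat_lit 0) (.e (nat_lit 403058) (nat_lit 0) .nil) .nil))))))) (.nd (nat_lit 6) (.nd (nat_lit 7) (.nd (nat_lit 8) (.nd (nat_lit 9) 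
(.lf (nat_lit 591921) (.g (nat_lit 1728) (.e (nat_lit 532547) (nat_lit 11) (.e (nat_lit 352315) (nat_lit 23) (.e (nat_lit 98349) (nat_lit 24) (.e (nat_lit 409611) (nat_lit 10) (.e (nat_lit 5762) (nat_lit 315) .nil))))) (.g (nat_lit 0) (.e (nat_lit 401519) (nat_lit 0) .nil) .nil))) 
(.lf (nat_lit 592433) (.g (nat_lit 5109) (.e (nat_lit 532550) (nat_lit 12) (.e (nat_lit 360474) (nat_lit 8) (.e (nat_lit 557094) (nat_lit 12) (.e (nat_lit 164022) (nat_lit 46) (.e (nat_lit 704738) (nat_lit 11) (.e (nat_lit 16401) (nat_lit 0) (.e (nat_lit 3233) (nat_lit 197) .nil))))))) (.g (nat_lit 1) (.e (nat_lit 402283) (nat_lit 0) .nil) .nil)))) (.nd (nat_lit 9) 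
(.lf (nat_lit 592177) (.g (nat_lit 3612) (.e (nat_lit 532550) (nat_lit 12) (.e (nat_lit 360473) (nat_lit 8) (.e (nat_lit 557087) (nat_lit 11) (.e (nat_lit 24617) (nat_lit 7) (.e (nat_lit 319511) (nat_lit 10) .nil))))) (.g (nat_lit 0) (.e (nat_lit 402003) (nat_lit 0) .nil) .nil))) 
(.lf (nat_lit 592689) (.g (nat_lit 2041) (.e (nat_lit 532554) (nat_lit 13) (.e (nat_lit 368676) (nat_lit 21) (.e (nat_lit 516131) (nat_lit 3) (.e (nat_lit 221212) (nat_lit 22) (.e (nat_lit 196658) (nat_lit 12) .nil))))) (.g (nat_lit 0) (.e (nat_lit 402614) (nat_lit 0) .nil) .nil))))) (.nd (nat_lit 8) (.nd (nat_lit 9) 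
(.lf (nat_lit 592049) (.g (nat_lit 3921) (.e (nat_lit 532549) (nat_lit 12) (.e (nat_lit 360473) (nat_lit 8) (.e (nat_lit 557087) (nat_lit 11) (.e (nat_lit 24665) (nat_lit 14) (.e (nat_lit 401417) (nat_lit 0) (.e (nat_lit 3234) (nat_lit 197) .nil)))))) (.g (nat_lit 1) (.e (nat_lit 401739) (nat_lit 0) .nil) .nil))) 
(.lf (nat_lit 592561) (.g (nat_lit 5091) (.e (nat_lit 532550) (nat_lit 12) (.e (nat_lit 360475) (nat_lit 8) (.e (nat_lit 557091) (nat_lit 12) (.e (nat_lit 164022) (nat_lit 46) (.e (nat_lit 704737) (nat_lit 11) (.e (nat_lit 16384) (nat_lit 0) (.e (nat_lit 3239) (nat_lit 197) .nil))))))) (.g (nat_lit 1) (.e (nat_lit 402435) (nat_lit 0) .nil) .nil)))) (.nd (nat_lit 9) 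
(.lf (nat_lit 592305) (.g (nat_lit 4595) (.e (nat_lit 532550) (nat_lit 12) (.e (nat_lit 360474) (nat_lit 8) (.e (nat_lit 557093) (nat_lit 12) (.e (nat_lit 164022) (nat_lit 46) (.e (nat_lit 704738) (nat_lit 11) (.e (nat_lit 16390) (nat_lit 0) (.e (nat_lit 3243) (nat_lit 197) .nil))))))) (.g (nat_lit 1) (.e (nat_lit 402155) (nat_lit 0) .nil) .nil))) 
(.lf (nat_lit 592817) (.g (nat_lit 3508) (.e (nat_lit 532561) (nat_lit 14) (.e (nat_lit 376855) (nat_lit 20) (.e (nat_lit 1800) (nat_lit 119) (.e (nat_lit 516139) (nat_lit 7) (.e (nat_lit 409645) (nat_lit 18) (.e (nat_lit 303112) (nat_lit 0) (.e (nat_lit 3252) (nat_lit 197) .nil))))))) (.g (nat_lit 1) (.e (nat_lit 402996) (nat_lit 0) .nil) .nil)))))) 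
(.nd (nat_lit 7) (.nd (nat_lit 8) (.nd (nat_lit 9) 
(.lf (nat_lit 591985) (.g (nat_lit 3370) (.e (nat_lit 532549) (nat_lit 12) (.e (nat_lit 360466) (nat_lit 3) (.e (nat_lit 516139) (nat_lit 7) (.e (nat_lit 409646) (nat_lit 18) (.e (nat_lit 303104) (nat_lit 0) (.e (nat_lit 3238) (nat_lit 197) .nil)))))) (.g (nat_lit 1) (.e (nat_lit 401653) (nat_lit 0) .nil) .nil))) 
(.lf (nat_lit 592497) (.g (nat_lit 5866) (.e (nat_lit 532550) (nat_lit 12) (.e (nat_lit 360475) (nat_lit 8) (.e (nat_lit 557089) (nat_lit 12) (.e (nat_lit 163850) (nat_lit 0) (.e (nat_lit 6273) (nat_lit 337) (.e (nat_lit 2635) (nat_lit 165) (.e (nat_lit 180245) (nat_lit 5) .nil))))))) (.g (nat_lit 1) (.e (nat_lit 402367) (nat_lit 0) .nil) .nil)))) (.nd (nat_lit 9) 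
(.lf (nat_lit 592241) (.g (nat_lit 4653) (.e (nat_lit 532550) (nat_lit 12) (.e (nat_lit 360474) (nat_lit 8) (.e (nat_lit 557093) (nat_lit 12) (.e (nat_lit 164022) (nat_lit 46) (.e (nat_lit 704736) (nat_lit 11) (.e (nat_lit 16388) (nat_lit 0) (.e (nat_lit 3227) (nat_lit 197) .nil))))))) (.g (nat_lit 1) (.e (nat_lit 402091) (nat_lit 0) .nil) .nil))) 
(.lf (nat_lit 592753) (.g (nat_lit 1105) (.e (nat_lit 532559) (nat_lit 14) (.e (nat_lit 376869) (nat_lit 23) (.e (nat_lit 98350) (nat_lit 24) (.e (nat_lit 409616) (nat_lit 10) .nil)))) (.g (nat_lit 0) (.e (nat_lit 402813) (nat_lit 0) .nil) .nil))))) (.nd (nat_lit 8) (.nd (nat_lit 9) 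
(.lf (nat_lit 592113) (.g (nat_lit 6226) (.e (nat_lit 532549) (nat_lit 12) (.e (nat_lit 360475) (nat_lit 8) (.e (nat_lit 557091) (nat_lit 12) (.e (nat_lit 164022) (nat_lit 46) (.e (nat_lit 704629) (nat_lit 9) (.e (nat_lit 442) (nat_lit 33) (.e (nat_lit 434233) (nat_lit 23) .nil))))))) (.g (nat_lit 1) (.e (nat_lit 401820) (nat_lit 0) .nil) .nil))) 
(.lf (nat_lit 592625) (.g (nat_lit 2840) (.e (nat_lit 532550) (nat_lit 12) (.e (nat_lit 360475) (nat_lit 8) (.e (nat_lit 557091) (nat_lit 12) (.e (nat_lit 164022) (nat_lit 46) (.e (nat_lit 704738) (nat_lit 11) (.e (nat_lit 16403) (nat_lit 0) (.e (nat_lit 7936) (nat_lit 197) .nil))))))) (.g (nat_lit 1) (.e (nat_lit 402499) (nat_lit 0) .nil) .nil)))) (.nd (nat_lit 9) 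
(.lf (nat_lit 592369) (.g (nat_lit 1895) (.e (nat_lit 532550) (nat_lit 12) (.e (nat_lit 360474) (nat_lit 8) (.e (nat_lit 557094) (nat_lit 12) (.e (nat_lit 164022) (nat_lit 46) (.e (nat_lit 704735) (nat_lit 11) (.e (nat_lit 16396) (nat_lit 0) (.e (nat_lit 7936) (nat_lit 197) .nil))))))) (.g (nat_lit 1) (.e (nat_lit 402219) (nat_lit 0) .nil) .nil))) 
(.lf (nat_lit 592881) (.g (nat_lit 2922) (.e (nat_lit 532563) (nat_lit 15) (.e (nat_lit 385066) (nat_lit 26) (.e (nat_lit 532553) (nat_lit 13) (.e (nat_lit 368676) (nat_lit 21) (.e (nat_lit 516117) (nat_lit 1) (.e (nat_lit 164242) (nat_lit 195) (.e (nat_lit 2611) (nat_lit 163) (.e (nat_lit 163963) (nat_lit 25) .nil)))))))) (.g (nat_lit 1) (.e (nat_lit 403099) (nat_lit 0) .nil) .nil))))))))) 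
(.nd (nat_lit 4) (.nd (nat_lit 5) (.nd (nat_lit 6) (.nd (nat_lit 7) (.nd (nat_lit 8) 
(.nd (nat_lit 9) 
(.lf (nat_lit 591881) (.g (nat_lit 1532) (.e (nat_lit 532546) (nat_lit 11) (.e (nat_lit 352315) (nat_lit 23) (.e (nat_lit 98350) (nat_lit 24) (.e (nat_lit 409648) (nat_lit 18) .nil)))) (.g (nat_lit 0) (.e (nat_lit 401389) (nat_lit 0) .nil) .nil))) 
(.lf (nat_lit 592393) (.g (nat_lit 3794) (.e (nat_lit 532550) (nat_lit 12) (.e (nat_lit 360474) (nat_lit 8) (.e (nat_lit 557094) (nat_lit 12) (.e (nat_lit 164022) (nat_lit 46) (.e (nat_lit 704737) (nat_lit 11) (.e (nat_lit 16389) (nat_lit 0) (.e (nat_lit 3241) (nat_lit 197) .nil))))))) (.g (nat_lit 1) (.e (nat_lit 402243) (nat_lit 0) .nil) .nil)))) (.nd (nat_lit 9) 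
(.lf (nat_lit 592137) (.g (nat_lit 2051) (.e (nat_lit 532550) (nat_lit 12) (.e (nat_lit 360467) (nat_lit 3) (.e (nat_lit 516138) (nat_lit 7) (.e (nat_lit 409648) (nat_lit 18) .nil)))) (.g (nat_lit 0) (.e (nat_lit 401933) (nat_lit 0) .nil) .nil))) 
(.lf (nat_lit 592649) (.g (nat_lit 1158) (.e (nat_lit 532551) (nat_lit 12) (.e (nat_lit 360467) (nat_lit 3) (.e (nat_lit 516139) (nat_lit 7) (.e (nat_lit 409648) (nat_lit 18) .nil)))) (.g (nat_lit 0) (.e (nat_lit 402541) (nat_lit 0) .nil) .nil))))) (.nd (nat_lit 8) (.nd (nat_lit 9) 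
(.lf (nat_lit 592009) (.g (nat_lit 2172) (.e (nat_lit 532549) (nat_lit 12) (.e (nat_lit 360468) (nat_lit 3) (.e (nat_lit 516139) (nat_lit 7) (.e (nat_lit 409616) (nat_lit 10) (.e (nat_lit 5762) (nat_lit 315) .nil))))) (.g (nat_lit 0) (.e (nat_lit 401685) (nat_lit 0) .nil) .nil))) 
(.lf (nat_lit 592521) (.g (nat_lit 3756) (.e (nat_lit 532550) (nat_lit 12) (.e (nat_lit 360475) (nat_lit 8) (.e (nat_lit 557091) (nat_lit 12) (.e (nat_lit 164022) (nat_lit 46) (.e (nat_lit 704628) (nat_lit 9) (.e (nat_lit 452) (nat_lit 33) (.e (nat_lit 434230) (nat_lit 23) .nil))))))) (.g (nat_lit 1) (.e (nat_lit 402394) (nat_lit 0) .nil) .nil)))) (.nd (nat_lit 9) 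
(.lf (nat_lit 592265) (.g (nat_lit 4944) (.e (nat_lit 532550) (nat_lit 12) (.e (nat_lit 360474) (nat_lit 8) (.e (nat_lit 557093) (nat_lit 12) (.e (nat_lit 164022) (nat_lit 46) (.e (nat_lit 704737) (nat_lit 11) (.e (nat_lit 16389) (nat_lit 0) (.e (nat_lit 3237) (nat_lit 197) .nil))))))) (.g (nat_lit 1) (.e (nat_lit 402115) (nat_lit 0) .nil) .nil))) 
(.lf (nat_lit 592777) (.g (nat_lit 2704) (.e (nat_lit 532560) (nat_lit 14) (.e (nat_lit 376867) (nat_lit 23) (.e (nat_lit 98350) (nat_lit 24) (.e (nat_lit 409616) (nat_lit 10) (.e (nat_lit 7936) (nat_lit 318) (.e (nat_lit 229433) (nat_lit 25) .nil)))))) (.g (nat_lit 1) (.e (nat_lit 402920) (nat_lit 0) .nil) .nil)))))) (.nd (nat_lit 7) (.nd (nat_lit 8) (.nd (nat_lit 9) 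
(.lf (nat_lit 591945) (.g (nat_lit 1867) (.e (nat_lit 532547) (nat_lit 11) (.e (nat_lit 352315) (nat_lit 23) (.e (nat_lit 98350) (nat_lit 24) (.e (nat_lit 409645) (nat_lit 18) .nil)))) (.g (nat_lit 0) (.e (nat_lit 401554) (nat_lit 0) .nil) .nil))) 
(.lf (nat_lit 592457) (.g (nat_lit 4888) (.e (nat_lit 532550) (nat_lit 12) (.e (nat_lit 360475) (nat_lit 8) (.e (nat_lit 557086) (nat_lit 11) (.e (nat_lit 24665) (nat_lit 14) (.e (nat_lit 401413) (nat_lit 0) (.e (nat_lit 3230) (nat_lit 197) .nil)))))) (.g (nat_lit 1) (.e (nat_lit 402327) (nat_lit 0) .nil) .nil)))) (.nd (nat_lit 9) 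
(.lf (nat_lit 592201) (.g (nat_lit 2820) (.e (nat_lit 532550) (nat_lit 12) (.e (nat_lit 360474) (nat_lit 8) (.e (nat_lit 557085) (nat_lit 11) (.e (nat_lit 24665) (nat_lit 14) (.e (nat_lit 401414) (nat_lit 0) (.e (nat_lit 7936) (nat_lit 197) .nil)))))) (.g (nat_lit 1) (.e (nat_lit 402051) (nat_lit 0) .nil) .nil))) 
(.lf (nat_lit 592713) (.g (nat_lit 2556) (.e (nat_lit 532558) (nat_lit 14) (.e (nat_lit 376868) (nat_lit 23) (.e (nat_lit 98350) (nat_lit 24) (.e (nat_lit 409616) (nat_lit 10) (.e (nat_lit 5763) (nat_lit 315) (.e (nat_lit 163962) (nat_lit 25) .nil)))))) (.g (nat_lit 1) (.e (nat_lit 402726) (nat_lit 0) .nil) .nil))))) (.nd (nat_lit 8) (.nd (nat_lit 9) 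
(.lf (nat_lit 592073) (.g (nat_lit 1020) (.e (nat_lit 532549) (nat_lit 12) (.e (nat_lit 360473) (nat_lit 8) (.e (nat_lit 557093) (nat_lit 12) (.e (nat_lit 164023) (nat_lit 46) .nil)))) (.g (nat_lit 0) (.e (nat_lit 401771) (nat_lit 0) .nil) .nil))) 
(.lf (nat_lit 592585) (.g (nat_lit 3717) (.e (nat_lit 532550) (nat_lit 12) (.e (nat_lit 360475) (nat_lit 8) (.e (nat_lit 557091) (nat_lit 12) (.e (nat_lit 164022) (nat_lit 46) (.e (nat_lit 704737) (nat_lit 11) (.e (nat_lit 16401) (nat_lit 0) (.e (nat_lit 3230) (nat_lit 197) .nil))))))) (.g (nat_lit 1) (.e (nat_lit 402459) (nat_lit 0) .nil) .nil)))) (.nd (nat_lit 9) 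
(.lf (nat_lit 592329) (.g (nat_lit 3312) (.e (nat_lit 532550) (nat_lit 12) (.e (nat_lit 360474) (nat_lit 8) (.e (nat_lit 557093) (nat_lit 12) (.e (nat_lit 164023) (nat_lit 46) (.e (nat_lit 704735) (nat_lit 11) (.e (nat_lit 16388) (nat_lit 0) (.e (nat_lit 7936) (nat_lit 197) .nil))))))) (.g (nat_lit 1) (.e (nat_lit 402179) (nat_lit 0) .nil) .nil))) 
(.lf (nat_lit 592841) (.g (nat_lit 1466) (.e (nat_lit 532562) (nat_lit 15) (.e (nat_lit 385093) (nat_lit 49) (.e (nat_lit 778318) (nat_lit 3) (.e (nat_lit 57476) (nat_lit 28) .nil)))) (.g (nat_lit 0) (.e (nat_lit 403033) (nat_lit 0) .nil) .nil))))))) (.nd (nat_lit 6) (.nd (nat_lit 7) (.nd (nat_lit 8) (.nd (nat_lit 9) 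
(.lf (nat_lit 591913) (.g (nat_lit 2428) (.e (nat_lit 532547) (nat_lit 11) (.e (nat_lit 352313) (nat_lit 23) (.e (nat_lit 98350) (nat_lit 24) (.e (nat_lit 409649) (nat_lit 18) (.e (nat_lit 303104) (nat_lit 0) .nil))))) (.g (nat_lit 0) (.e (nat_lit 401497) (nat_lit 0) .nil) .nil))) 
(.lf (nat_lit 592425) (.g (nat_lit 2884) (.e (nat_lit 532550) (nat_lit 12) (.e (nat_lit 360474) (nat_lit 8) (.e (nat_lit 557094) (nat_lit 12) (.e (nat_lit 164022) (nat_lit 46) (.e (nat_lit 704738) (nat_lit 11) (.e (nat_lit 16397) (nat_lit 0) (.e (nat_lit 7936) (nat_lit 197) .nil))))))) (.g (nat_lit 1) (.e (nat_lit 402275) (nat_lit 0) .nil) .nil)))) (.nd (nat_lit 9) 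
(.lf (nat_lit 592169) (.g (nat_lit 1524) (.e (nat_lit 532550) (nat_lit 12) (.e (nat_lit 360472) (nat_lit 8) (.e (nat_lit 557090) (nat_lit 12) (.e (nat_lit 163843) (nat_lit 0) .nil)))) (.g (nat_lit 0) (.e (nat_lit 401995) (nat_lit 0) .nil) .nil))) 
(.lf (nat_lit 592681) (.g (nat_lit 1286) (.e (nat_lit 532554) (nat_lit 13) (.e (nat_lit 368662) (nat_lit 18) (.e (nat_lit 5589) (nat_lit 310) (.e (nat_lit 163841) (nat_lit 0) .nil)))) (.g (nat_lit 0) (.e (nat_lit 402599) (nat_lit 0) .nil) .nil))))) (.nd (nat_lit 8) (.nd (nat_lit 9) 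
(.lf (nat_lit 592041) (.g (nat_lit 3260) (.e (nat_lit 532549) (nat_lit 12) (.e (nat_lit 360473) (nat_lit 8) (.e (nat_lit 557087) (nat_lit 11) (.e (nat_lit 24617) (nat_lit 7) (.e (nat_lit 319496) (nat_lit 10) (.e (nat_lit 594) (nat_lit 45) .nil)))))) (.g (nat_lit 1) (.e (nat_lit 401731) (nat_lit 0) .nil) .nil))) 
(.lf (nat_lit 592553) (.g (nat_lit 5238) (.e (nat_lit 532550) (nat_lit 12) (.e (nat_lit 360475) (nat_lit 8) (.e (nat_lit 557091) (nat_lit 12) (.e (nat_lit 164022) (nat_lit 46) (.e (nat_lit 704736) (nat_lit 11) (.e (nat_lit 16390) (nat_lit 0) (.e (nat_lit 3241) (nat_lit 197) .nil))))))) (.g (nat_lit 1) (.e (nat_lit 402427) (nat_lit 0) .nil) .nil)))) (.nd (nat_lit 9) 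
(.lf (nat_lit 592297) (.g (nat_lit 4896) (.e (nat_lit 532550) (nat_lit 12) (.e (nat_lit 360474) (nat_lit 8) (.e (nat_lit 557093) (nat_lit 12) (.e (nat_lit 164022) (nat_lit 46) (.e (nat_lit 704738) (nat_lit 11) (.e (nat_lit 16389) (nat_lit 0) (.e (nat_lit 3243) (nat_lit 197) .nil))))))) (.g (nat_lit 1) (.e (nat_lit 402147) (nat_lit 0) .nil) .nil))) 
(.lf (nat_lit 592809) (.g (nat_lit 2490) (.e (nat_lit 532560) (nat_lit 14) (.e (nat_lit 376869) (nat_lit 23) (.e (nat_lit 98350) (nat_lit 24) (.e (nat_lit 409617) (nat_lit 10) (.e (nat_lit 5785) (nat_lit 318) .nil))))) (.g (nat_lit 0) (.e (nat_lit 402958) (nat_lit 0) .nil) .nil)))))) (.nd (nat_lit 7) (.nd (nat_lit 8) (.nd (nat_lit 9) 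
(.lf (nat_lit 591977) (.g (nat_lit 2120) (.e (nat_lit 532549) (nat_lit 12) (.e (nat_lit 360466) (nat_lit 3) (.e (nat_lit 516139) (nat_lit 7) (.e (nat_lit 409608) (nat_lit 10) (.e (nat_lit 5756) (nat_lit 315) .nil))))) (.g (nat_lit 0) (.e (nat_lit 401645) (nat_lit 0) .nil) .nil))) 
(.lf (nat_lit 592489) (.g (nat_lit 5777) (.e (nat_lit 532550) (nat_lit 12) (.e (nat_lit 360475) (nat_lit 8) (.e (nat_lit 557087) (nat_lit 11) (.e (nat_lit 24665) (nat_lit 14) (.e (nat_lit 401419) (nat_lit 0) (.e (nat_lit 3253) (nat_lit 197) .nil)))))) (.g (nat_lit 1) (.e (nat_lit 402359) (nat_lit 0) .nil) .nil)))) (.nd (nat_lit 9) 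
(.lf (nat_lit 592233) (.g (nat_lit 5650) (.e (nat_lit 532550) (nat_lit 12) (.e (nat_lit 360474) (nat_lit 8) (.e (nat_lit 557093) (nat_lit 12) (.e (nat_lit 164022) (nat_lit 46) (.e (nat_lit 704629) (nat_lit 9) (.e (nat_lit 475) (nat_lit 36) (.e (nat_lit 458787) (nat_lit 23) .nil))))))) (.g (nat_lit 1) (.e (nat_lit 402083) (nat_lit 0) .nil) .nil))) 
(.lf (nat_lit 592745) (.g (nat_lit 2278) (.e (nat_lit 532559) (nat_lit 14) (.e (nat_lit 376868) (nat_lit 23) (.e (nat_lit 98350) (nat_lit 24) (.e (nat_lit 409648) (nat_lit 18) (.e (nat_lit 303108) (nat_lit 0) (.e (nat_lit 3230) (nat_lit 197) .nil)))))) (.g (nat_lit 1) (.e (nat_lit 402803) (nat_lit 0) .nil) .nil))))) (.nd (nat_lit 8) (.nd (nat_lit 9) 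
(.lf (nat_lit 592105) (.g (nat_lit 660) (.e (nat_lit 532549) (nat_lit 12) (.e (nat_lit 360475) (nat_lit 8) (.e (nat_lit 557089) (nat_lit 12) .nil))) (.g (nat_lit 0) (.e (nat_lit 401809) (nat_lit 0) .nil) .nil))) 
(.lf (nat_lit 592617) (.g (nat_lit 5441) (.e (nat_lit 532550) (nat_lit 12) (.e (nat_lit 360475) (nat_lit 8) (.e (nat_lit 557091) (nat_lit 12) (.e (nat_lit 164022) (nat_lit 46) (.e (nat_lit 704738) (nat_lit 11) (.e (nat_lit 16399) (nat_lit 0) (.e (nat_lit 3230) (nat_lit 197) .nil))))))) (.g (nat_lit 1) (.e (nat_lit 402491) (nat_lit 0) .nil) .nil)))) (.nd (nat_lit 9) 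
(.lf (nat_lit 592361) (.g (nat_lit 4600) (.e (nat_lit 532550) (nat_lit 12) (.e (nat_lit 360474) (nat_lit 8) (.e (nat_lit 557094) (nat_lit 12) (.e (nat_lit 164022) (nat_lit 46) (.e (nat_lit 704629) (nat_lit 9) (.e (nat_lit 442) (nat_lit 33) (.e (nat_lit 442112) (nat_lit 23) .nil))))))) (.g (nat_lit 1) (.e (nat_lit 402211) (nat_lit 0) .nil) .nil))) 
(.lf (nat_lit 592873) (.g (nat_lit 3887) (.e (nat_lit 532563) (nat_lit 15) (.e (nat_lit 385066) (nat_lit 26) (.e (nat_lit 532534) (nat_lit 9) (.e (nat_lit 336324) (nat_lit 18) (.e (nat_lit 204882) (nat_lit 32) (.e (nat_lit 385066) (nat_lit 26) .nil)))))) (.g (nat_lit 1) (.e (nat_lit 403089) (nat_lit 0) .nil) .nil)))))))) 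
(.nd (nat_lit 5) (.nd (nat_lit 6) (.nd (nat_lit 7) (.nd (nat_lit 8) (.nd (nat_lit 9) 
(.lf (nat_lit 591897) (.g (nat_lit 4051) (.e (nat_lit 532547) (nat_lit 11) (.e (nat_lit 352299) (nat_lit 20) (.e (nat_lit 1859) (nat_lit 124) (.e (nat_lit 557087) (nat_lit 11) (.e (nat_lit 24617) (nat_lit 7) (.e (nat_lit 319504) (nat_lit 10) (.e (nat_lit 7936) (nat_lit 45) .nil))))))) (.g (nat_lit 1) (.e (nat_lit 401445) (nat_lit 0) .nil) .nil))) 
(.lf (nat_lit 592409) (.g (nat_lit 5412) (.e (nat_lit 532550) (nat_lit 12) (.e (nat_lit 360474) (nat_lit 8) (.e (nat_lit 557094) (nat_lit 12) (.e (nat_lit 164022) (nat_lit 46) (.e (nat_lit 704738) (nat_lit 11) (.e (nat_lit 16385) (nat_lit 0) (.e (nat_lit 3237) (nat_lit 197) .nil))))))) (.g (nat_lit 1) (.e (nat_lit 402259) (nat_lit 0) .nil) .nil)))) (.nd (nat_lit 9) 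
(.lf (nat_lit 592153) (.g (nat_lit 2325) (.e (nat_lit 532550) (nat_lit 12) (.e (nat_lit 360468) (nat_lit 3) (.e (nat_lit 516139) (nat_lit 7) (.e (nat_lit 409617) (nat_lit 10) (.e (nat_lit 5762) (nat_lit 315) .nil))))) (.g (nat_lit 0) (.e (nat_lit 401967) (nat_lit 0) .nil) .nil))) 
(.lf (nat_lit 592665) (.g (nat_lit 1907) (.e (nat_lit 532553) (nat_lit 13) (.e (nat_lit 368676) (nat_lit 21) (.e (nat_lit 516115) (nat_lit 1) (.e (nat_lit 164242) (nat_lit 195) .nil)))) (.g (nat_lit 0) (.e (nat_lit 402577) (nat_lit 0) .nil) .nil))))) (.nd (nat_lit 8) (.nd (nat_lit 9) 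
(.lf (nat_lit 592025) (.g (nat_lit 3259) (.e (nat_lit 532549) (nat_lit 12) (.e (nat_lit 360473) (nat_lit 8) (.e (nat_lit 557086) (nat_lit 11) (.e (nat_lit 24665) (nat_lit 14) (.e (nat_lit 401418) (nat_lit 0) (.e (nat_lit 3249) (nat_lit 197) .nil)))))) (.g (nat_lit 1) (.e (nat_lit 401713) (nat_lit 0) .nil) .nil))) 
(.lf (nat_lit 592537) (.g (nat_lit 5674) (.e (nat_lit 532550) (nat_lit 12) (.e (nat_lit 360475) (nat_lit 8) (.e (nat_lit 557091) (nat_lit 12) (.e (nat_lit 164022) (nat_lit 46) (.e (nat_lit 704629) (nat_lit 9) (.e (nat_lit 475) (nat_lit 36) (.e (nat_lit 458788) (nat_lit 23) .nil))))))) (.g (nat_lit 1) (.e (nat_lit 402410) (nat_lit 0) .nil) .nil)))) (.nd (nat_lit 9) 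
(.lf (nat_lit 592281) (.g (nat_lit 5736) (.e (nat_lit 532550) (nat_lit 12) (.e (nat_lit 360474) (nat_lit 8) (.e (nat_lit 557093) (nat_lit 12) (.e (nat_lit 164022) (nat_lit 46) (.e (nat_lit 704738) (nat_lit 11) (.e (nat_lit 16384) (nat_lit 0) (.e (nat_lit 3250) (nat_lit 197) .nil))))))) (.g (nat_lit 1) (.e (nat_lit 402131) (nat_lit 0) .nil) .nil))) 
(.lf (nat_lit 592793) (.g (nat_lit 2520) (.e (nat_lit 532560) (nat_lit 14) (.e (nat_lit 376868) (nat_lit 23) (.e (nat_lit 98350) (nat_lit 24) (.e (nat_lit 409649) (nat_lit 18) (.e (nat_lit 303104) (nat_lit 0) (.e (nat_lit 3238) (nat_lit 197) .nil)))))) (.g (nat_lit 1) (.e (nat_lit 402938) (nat_lit 0) .nil) .nil)))))) (.nd (nat_lit 7) (.nd (nat_lit 8) (.nd (nat_lit 9) 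
(.lf (nat_lit 591961) (.g (nat_lit 1090) (.e (nat_lit 532548) (nat_lit 11) (.e (nat_lit 352292) (nat_lit 20) (.e (nat_lit 1788) (nat_lit 119) (.e (nat_lit 516139) (nat_lit 7) .nil)))) (.g (nat_lit 0) (.e (nat_lit 401616) (nat_lit 0) .nil) .nil))) 
(.lf (nat_lit 592473) (.g (nat_lit 2301) (.e (nat_lit 532550) (nat_lit 12) (.e (nat_lit 360475) (nat_lit 8) (.e (nat_lit 557087) (nat_lit 11) (.e (nat_lit 24587) (nat_lit 0) (.e (nat_lit 7936) (nat_lit 360) .nil))))) (.g (nat_lit 0) (.e (nat_lit 402343) (nat_lit 0) .nil) .nil)))) (.nd (nat_lit 9) 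
(.lf (nat_lit 592217) (.g (nat_lit 434) (.e (nat_lit 532550) (nat_lit 12) (.e (nat_lit 360474) (nat_lit 8) (.e (nat_lit 557093) (nat_lit 12) .nil))) (.g (nat_lit 0) (.e (nat_lit 402067) (nat_lit 0) .nil) .nil))) 
(.lf (nat_lit 592729) (.g (nat_lit 617) (.e (nat_lit 532559) (nat_lit 14) (.e (nat_lit 376859) (nat_lit 21) (.e (nat_lit 57686) (nat_lit 156) .nil))) (.g (nat_lit 0) (.e (nat_lit 402756) (nat_lit 0) .nil) .nil))))) (.nd (nat_lit 8) (.nd (nat_lit 9) 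
(.lf (nat_lit 592089) (.g (nat_lit 493) (.e (nat_lit 532549) (nat_lit 12) (.e (nat_lit 360474) (nat_lit 8) (.e (nat_lit 557094) (nat_lit 12) .nil))) (.g (nat_lit 0) (.e (nat_lit 401787) (nat_lit 0) .nil) .nil))) 
(.lf (nat_lit 592601) (.g (nat_lit 3402) (.e (nat_lit 532550) (nat_lit 12) (.e (nat_lit 360475) (nat_lit 8) (.e (nat_lit 557091) (nat_lit 12) (.e (nat_lit 164022) (nat_lit 46) (.e (nat_lit 704738) (nat_lit 11) (.e (nat_lit 16386) (nat_lit 0) (.e (nat_lit 7936) (nat_lit 197) .nil))))))) (.g (nat_lit 1) (.e (nat_lit 402475) (nat_lit 0) .nil) .nil)))) (.nd (nat_lit 9) 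
(.lf (nat_lit 592345) (.g (nat_lit 4767) (.e (nat_lit 532550) (nat_lit 12) (.e (nat_lit 360474) (nat_lit 8) (.e (nat_lit 557093) (nat_lit 12) (.e (nat_lit 164023) (nat_lit 46) (.e (nat_lit 704738) (nat_lit 11) (.e (nat_lit 16396) (nat_lit 0) (.e (nat_lit 3230) (nat_lit 197) .nil))))))) (.g (nat_lit 1) (.e (nat_lit 402195) (nat_lit 0) .nil) .nil))) 
(.lf (nat_lit 592857) (.g (nat_lit 3534) (.e (nat_lit 532563) (nat_lit 15) (.e (nat_lit 385066) (nat_lit 26) (.e (nat_lit 532532) (nat_lit 9) (.e (nat_lit 336324) (nat_lit 18) (.e (nat_lit 204854) (nat_lit 26) (.e (nat_lit 336284) (nat_lit 15) (.e (nat_lit 3249) (nat_lit 197) .nil))))))) (.g (nat_lit 1) (.e (nat_lit 403066) (nat_lit 0) .nil) .nil))))))) 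
(.nd (nat_lit 6) (.nd (nat_lit 7) (.nd (nat_lit 8) (.nd (nat_lit 9) 
(.lf (nat_lit 591929) (.g (nat_lit 2509) (.e (nat_lit 532547) (nat_lit 11) (.e (nat_lit 352315) (nat_lit 23) (.e (nat_lit 98349) (nat_lit 24) (.e (nat_lit 409645) (nat_lit 18) (.e (nat_lit 303112) (nat_lit 0) .nil))))) (.g (nat_lit 0) (.e (nat_lit 401531) (nat_lit 0) .nil) .nil))) 
(.lf (nat_lit 592441) (.g (nat_lit 2385) (.e (nat_lit 532550) (nat_lit 12) (.e (nat_lit 360475) (nat_lit 8) (.e (nat_lit 557085) (nat_lit 11) (.e (nat_lit 24617) (nat_lit 7) (.e (nat_lit 319505) (nat_lit 10) (.e (nat_lit 7936) (nat_lit 45) .nil)))))) (.g (nat_lit 1) (.e (nat_lit 402307) (nat_lit 0) .nil) .nil)))) (.nd (nat_lit 9) 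
(.lf (nat_lit 592185) (.g (nat_lit 233) (.e (nat_lit 532550) (nat_lit 12) (.e (nat_lit 360474) (nat_lit 8) (.e (nat_lit 557073) (nat_lit 9) .nil))) (.g (nat_lit 0) (.e (nat_lit 402021) (nat_lit 0) .nil) .nil))) 
(.lf (nat_lit 592697) (.g (nat_lit 412) (.e (nat_lit 532555) (nat_lit 13) (.e (nat_lit 368676) (nat_lit 21) (.e (nat_lit 516131) (nat_lit 3) .nil))) (.g (nat_lit 0) (.e (nat_lit 402636) (nat_lit 0) .nil) .nil))))) (.nd (nat_lit 8) (.nd (nat_lit 9) 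
(.lf (nat_lit 592057) (.g (nat_lit 3408) (.e (nat_lit 532549) (nat_lit 12) (.e (nat_lit 360473) (nat_lit 8) (.e (nat_lit 557091) (nat_lit 12) (.e (nat_lit 163843) (nat_lit 0) (.e (nat_lit 6255) (nat_lit 337) (.e (nat_lit 2641) (nat_lit 165) (.e (nat_lit 180244) (nat_lit 5) .nil))))))) (.g (nat_lit 1) (.e (nat_lit 401753) (nat_lit 0) .nil) .nil))) 
(.lf (nat_lit 592569) (.g (nat_lit 2732) (.e (nat_lit 532550) (nat_lit 12) (.e (nat_lit 360475) (nat_lit 8) (.e (nat_lit 557091) (nat_lit 12) (.e (nat_lit 164022) (nat_lit 46) (.e (nat_lit 704737) (nat_lit 11) (.e (nat_lit 16386) (nat_lit 0) (.e (nat_lit 7936) (nat_lit 197) .nil))))))) (.g (nat_lit 1) (.e (nat_lit 402443) (nat_lit 0) .nil) .nil)))) (.nd (nat_lit 9) 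
(.lf (nat_lit 592313) (.g (nat_lit 3241) (.e (nat_lit 532550) (nat_lit 12) (.e (nat_lit 360474) (nat_lit 8) (.e (nat_lit 557093) (nat_lit 12) (.e (nat_lit 164022) (nat_lit 46) (.e (nat_lit 704738) (nat_lit 11) (.e (nat_lit 16397) (nat_lit 0) (.e (nat_lit 7936) (nat_lit 197) .nil))))))) (.g (nat_lit 1) (.e (nat_lit 402163) (nat_lit 0) .nil) .nil))) 
(.lf (nat_lit 592825) (.g (nat_lit 2427) (.e (nat_lit 532561) (nat_lit 14) (.e (nat_lit 376865) (nat_lit 22) (.e (nat_lit 90185) (nat_lit 17) (.e (nat_lit 237573) (nat_lit 0) .nil)))) (.g (nat_lit 0) (.e (nat_lit 403017) (nat_lit 0) .nil) .nil)))))) (.nd (nat_lit 7) (.nd (nat_lit 8) (.nd (nat_lit 9) 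
(.lf (nat_lit 591993) (.g (nat_lit 3096) (.e (nat_lit 532549) (nat_lit 12) (.e (nat_lit 360466) (nat_lit 3) (.e (nat_lit 516142) (nat_lit 8) (.e (nat_lit 417817) (nat_lit 10) (.e (nat_lit 5756) (nat_lit 315) (.e (nat_lit 163962) (nat_lit 25) .nil)))))) (.g (nat_lit 1) (.e (nat_lit 401661) (nat_lit 0) .nil) .nil))) 
(.lf (nat_lit 592505) (.g (nat_lit 2062) (.e (nat_lit 532550) (nat_lit 12) (.e (nat_lit 360475) (nat_lit 8) (.e (nat_lit 557090) (nat_lit 12) (.e (nat_lit 163843) (nat_lit 0) .nil)))) (.g (nat_lit 0) (.e (nat_lit 402375) (nat_lit 0) .nil) .nil)))) (.nd (nat_lit 9) 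
(.lf (nat_lit 592249) (.g (nat_lit 3849) (.e (nat_lit 532550) (nat_lit 12) (.e (nat_lit 360474) (nat_lit 8) (.e (nat_lit 557093) (nat_lit 12) (.e (nat_lit 164022) (nat_lit 46) (.e (nat_lit 704736) (nat_lit 11) (.e (nat_lit 16400) (nat_lit 0) (.e (nat_lit 3230) (nat_lit 197) .nil))))))) (.g (nat_lit 1) (.e (nat_lit 402099) (nat_lit 0) .nil) .nil))) 
(.lf (nat_lit 592761) (.g (nat_lit 947) (.e (nat_lit 532559) (nat_lit 14) (.e (nat_lit 376869) (nat_lit 23) (.e (nat_lit 98351) (nat_lit 25) (.e (nat_lit 417820) (nat_lit 10) (.e (nat_lit 5761) (nat_lit 315) .nil))))) (.g (nat_lit 0) (.e (nat_lit 402823) (nat_lit 0) .nil) .nil))))) (.nd (nat_lit 8) (.nd (nat_lit 9) 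
(.lf (nat_lit 592121) (.g (nat_lit 4207) (.e (nat_lit 532550) (nat_lit 12) (.e (nat_lit 360465) (nat_lit 3) (.e (nat_lit 516139) (nat_lit 7) (.e (nat_lit 409646) (nat_lit 18) (.e (nat_lit 303112) (nat_lit 0) (.e (nat_lit 3252) (nat_lit 197) .nil)))))) (.g (nat_lit 1) (.e (nat_lit 401905) (nat_lit 0) .nil) .nil))) 
(.lf (nat_lit 592633) (.g (nat_lit 2696) (.e (nat_lit 532550) (nat_lit 12) (.e (nat_lit 368384) (nat_lit 8) (.e (nat_lit 557087) (nat_lit 11) (.e (nat_lit 24617) (nat_lit 7) (.e (nat_lit 319505) (nat_lit 10) (.e (nat_lit 7936) (nat_lit 45) .nil)))))) (.g (nat_lit 1) (.e (nat_lit 402508) (nat_lit 0) .nil) .nil)))) (.nd (nat_lit 9) 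
(.lf (nat_lit 592377) (.g (nat_lit 3544) (.e (nat_lit 532550) (nat_lit 12) (.e (nat_lit 360474) (nat_lit 8) (.e (nat_lit 557094) (nat_lit 12) (.e (nat_lit 164022) (nat_lit 46) (.e (nat_lit 704736) (nat_lit 11) (.e (nat_lit 16390) (nat_lit 0) (.e (nat_lit 3241) (nat_lit 197) .nil))))))) (.g (nat_lit 1) (.e (nat_lit 402227) (nat_lit 0) .nil) .nil))) 
(.lf (nat_lit 592889) (.g (nat_lit 2714) (.e (nat_lit 532563) (nat_lit 15) (.e (nat_lit 385068) (nat_lit 26) (.e (nat_lit 532530) (nat_lit 9) (.e (nat_lit 336316) (nat_lit 17) (.e (nat_lit 196665) (nat_lit 13) .nil))))) (.g (nat_lit 0) (.e (nat_lit 403114) (nat_lit 0) .nil) .nil)))))))))) 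
(.nd (nat_lit 3) (.nd (nat_lit 4) (.nd (nat_lit 5) (.nd (nat_lit 6) (.nd (nat_lit 7) 
(.nd (nat_lit 8) (.nd (nat_lit 9) 
(.lf (nat_lit 591877) (.g (nat_lit 3036) (.e (nat_lit 532546) (nat_lit 11) (.e (nat_lit 352315) (nat_lit 23) (.e (nat_lit 98350) (nat_lit 24) (.e (nat_lit 409616) (nat_lit 10) (.e (nat_lit 5763) (nat_lit 315) .nil))))) (.g (nat_lit 0) (.e (nat_lit 401384) (nat_lit 0) .nil) .nil))) 
(.lf (nat_lit 592389) (.g (nat_lit 4352) (.e (nat_lit 532550) (nat_lit 12) (.e (nat_lit 360474) (nat_lit 8) (.e (nat_lit 557094) (nat_lit 12) (.e (nat_lit 164022) (nat_lit 46) (.e (nat_lit 704737) (nat_lit 11) (.e (nat_lit 16386) (nat_lit 0) (.e (nat_lit 3229) (nat_lit 197) .nil))))))) (.g (nat_lit 1) (.e (nat_lit 402239) (nat_lit 0) .nil) .nil)))) (.nd (nat_lit 9) 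
(.lf (nat_lit 592133) (.g (nat_lit 3279) (.e (nat_lit 532550) (nat_lit 12) (.e (nat_lit 360466) (nat_lit 3) (.e (nat_lit 516139) (nat_lit 7) (.e (nat_lit 409649) (nat_lit 18) (.e (nat_lit 303112) (nat_lit 0) .nil))))) (.g (nat_lit 0) (.e (nat_lit 401922) (nat_lit 0) .nil) .nil))) 
(.lf (nat_lit 592645) (.g (nat_lit 2242) (.e (nat_lit 532551) (nat_lit 12) (.e (nat_lit 360467) (nat_lit 3) (.e (nat_lit 516139) (nat_lit 7) (.e (nat_lit 409643) (nat_lit 18) (.e (nat_lit 303112) (nat_lit 0) (.e (nat_lit 3252) (nat_lit 197) .nil)))))) (.g (nat_lit 1) (.e (nat_lit 402537) (nat_lit 0) .nil) .nil))))) (.nd (nat_lit 8) (.nd (nat_lit 9) 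
(.lf (nat_lit 592005) (.g (nat_lit 3046) (.e (nat_lit 532549) (nat_lit 12) (.e (nat_lit 360467) (nat_lit 3) (.e (nat_lit 516139) (nat_lit 7) (.e (nat_lit 409649) (nat_lit 18) (.e (nat_lit 303107) (nat_lit 0) .nil))))) (.g (nat_lit 0) (.e (nat_lit 401680) (nat_lit 0) .nil) .nil))) 
(.lf (nat_lit 592517) (.g (nat_lit 3979) (.e (nat_lit 532550) (nat_lit 12) (.e (nat_lit 360475) (nat_lit 8) (.e (nat_lit 557091) (nat_lit 12) (.e (nat_lit 163852) (nat_lit 0) (.e (nat_lit 6273) (nat_lit 337) (.e (nat_lit 2635) (nat_lit 165) (.e (nat_lit 180242) (nat_lit 5) .nil))))))) (.g (nat_lit 1) (.e (nat_lit 402389) (nat_lit 0) .nil) .nil)))) (.nd (nat_lit 9) 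
(.lf (nat_lit 592261) (.g (nat_lit 3116) (.e (nat_lit 532550) (nat_lit 12) (.e (nat_lit 360474) (nat_lit 8) (.e (nat_lit 557093) (nat_lit 12) (.e (nat_lit 164022) (nat_lit 46) (.e (nat_lit 704737) (nat_lit 11) (.e (nat_lit 16386) (nat_lit 0) (.e (nat_lit 7936) (nat_lit 197) .nil))))))) (.g (nat_lit 1) (.e (nat_lit 402111) (nat_lit 0) .nil) .nil))) 
(.lf (nat_lit 592773) (.g (nat_lit 1566) (.e (nat_lit 532560) (nat_lit 14) (.e (nat_lit 376865) (nat_lit 22) (.e (nat_lit 90185) (nat_lit 17) (.e (nat_lit 237582) (nat_lit 1) .nil)))) (.g (nat_lit 0) (.e (nat_lit 402910) (nat_lit 0) .nil) .nil)))))) (.nd (nat_lit 7) (.nd (nat_lit 8) (.nd (nat_lit 9) 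
(.lf (nat_lit 591941) (.g (nat_lit 3173) (.e (nat_lit 532547) (nat_lit 11) (.e (nat_lit 352315) (nat_lit 23) (.e (nat_lit 98350) (nat_lit 24) (.e (nat_lit 409616) (nat_lit 10) (.e (nat_lit 7936) (nat_lit 315) (.e (nat_lit 163962) (nat_lit 25) .nil)))))) (.g (nat_lit 1) (.e (nat_lit 401547) (nat_lit 0) .nil) .nil))) 
(.lf (nat_lit 592453) (.g (nat_lit 4643) (.e (nat_lit 532550) (nat_lit 12) (.e (nat_lit 360475) (nat_lit 8) (.e (nat_lit 557086) (nat_lit 11) (.e (nat_lit 24622) (nat_lit 8) (.e (nat_lit 327708) (nat_lit 10) (.e (nat_lit 595) (nat_lit 45) .nil)))))) (.g (nat_lit 1) (.e (nat_lit 402322) (nat_lit 0) .nil) .nil)))) (.nd (nat_lit 9) 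
(.lf (nat_lit 592197) (.g (nat_lit 2043) (.e (nat_lit 532550) (nat_lit 12) (.e (nat_lit 360474) (nat_lit 8) (.e (nat_lit 557085) (nat_lit 11) (.e (nat_lit 24665) (nat_lit 14) (.e (nat_lit 401408) (nat_lit 0) .nil))))) (.g (nat_lit 0) (.e (nat_lit 402047) (nat_lit 0) .nil) .nil))) 
(.lf (nat_lit 592709) (.g (nat_lit 2483) (.e (nat_lit 532558) (nat_lit 14) (.e (nat_lit 376867) (nat_lit 23) (.e (nat_lit 98350) (nat_lit 24) (.e (nat_lit 409646) (nat_lit 18) (.e (nat_lit 303112) (nat_lit 0) (.e (nat_lit 3252) (nat_lit 197) .nil)))))) (.g (nat_lit 1) (.e (nat_lit 402718) (nat_lit 0) .nil) .nil))))) (.nd (nat_lit 8) (.nd (nat_lit 9) 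
(.lf (nat_lit 592069) (.g (nat_lit 5376) (.e (nat_lit 532549) (nat_lit 12) (.e (nat_lit 360473) (nat_lit 8) (.e (nat_lit 557093) (nat_lit 12) (.e (nat_lit 164022) (nat_lit 46) (.e (nat_lit 704629) (nat_lit 9) (.e (nat_lit 442) (nat_lit 33) (.e (nat_lit 434234) (nat_lit 23) .nil))))))) (.g (nat_lit 1) (.e (nat_lit 401767) (nat_lit 0) .nil) .nil))) 
(.lf (nat_lit 592581) (.g (nat_lit 5653) (.e (nat_lit 532550) (nat_lit 12) (.e (nat_lit 360475) (nat_lit 8) (.e (nat_lit 557091) (nat_lit 12) (.e (nat_lit 164022) (nat_lit 46) (.e (nat_lit 704737) (nat_lit 11) (.e (nat_lit 16397) (nat_lit 0) (.e (nat_lit 3251) (nat_lit 197) .nil))))))) (.g (nat_lit 1) (.e (nat_lit 402455) (nat_lit 0) .nil) .nil)))) (.nd (nat_lit 9) 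
(.lf (nat_lit 592325) (.g (nat_lit 5528) (.e (nat_lit 532550) (nat_lit 12) (.e (nat_lit 360474) (nat_lit 8) (.e (nat_lit 557093) (nat_lit 12) (.e (nat_lit 164023) (nat_lit 46) (.e (nat_lit 704629) (nat_lit 9) (.e (nat_lit 442) (nat_lit 33) (.e (nat_lit 434230) (nat_lit 23) .nil))))))) (.g (nat_lit 1) (.e (nat_lit 402175) (nat_lit 0) .nil) .nil))) 
(.lf (nat_lit 592837) (.g (nat_lit 1754) (.e (nat_lit 532562) (nat_lit 15) (.e (nat_lit 385068) (nat_lit 26) (.e (nat_lit 532530) (nat_lit 9) (.e (nat_lit 336324) (nat_lit 18) .nil)))) (.g (nat_lit 0) (.e (nat_lit 403029) (nat_lit 0) .nil) .nil))))))) (.nd (nat_lit 6) (.nd (nat_lit 7) (.nd (nat_lit 8) (.nd (nat_lit 9) 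
(.lf (nat_lit 591909) (.g (nat_lit 1262) (.e (nat_lit 532547) (nat_lit 11) (.e (nat_lit 352313) (nat_lit 23) (.e (nat_lit 98350) (nat_lit 24) (.e (nat_lit 409648) (nat_lit 18) .nil)))) (.g (nat_lit 0) (.e (nat_lit 401492) (nat_lit 0) .nil) .nil))) 
(.lf (nat_lit 592421) (.g (nat_lit 3744) (.e (nat_lit 532550) (nat_lit 12) (.e (nat_lit 360474) (nat_lit 8) (.e (nat_lit 557094) (nat_lit 12) (.e (nat_lit 164022) (nat_lit 46) (.e (nat_lit 704738) (nat_lit 11) (.e (nat_lit 16396) (nat_lit 0) (.e (nat_lit 7936) (nat_lit 197) .nil))))))) (.g (nat_lit 1) (.e (nat_lit 402271) (nat_lit 0) .nil) .nil)))) (.nd (nat_lit 9) 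
(.lf (nat_lit 592165) (.g (nat_lit 460) (.e (nat_lit 532550) (nat_lit 12) (.e (nat_lit 360471) (nat_lit 7) (.e (nat_lit 556800) (nat_lit 5) .nil))) (.g (nat_lit 0) (.e (nat_lit 401981) (nat_lit 0) .nil) .nil))) 
(.lf (nat_lit 592677) (.g (nat_lit 2090) (.e (nat_lit 532553) (nat_lit 13) (.e (nat_lit 368676) (nat_lit 21) (.e (nat_lit 516131) (nat_lit 3) (.e (nat_lit 221212) (nat_lit 22) (.e (nat_lit 196608) (nat_lit 0) (.e (nat_lit 3067) (nat_lit 190) (.e (nat_lit 483072) (nat_lit 26) .nil))))))) (.g (nat_lit 1) (.e (nat_lit 402589) (nat_lit 0) .nil) .nil))))) (.nd (nat_lit 8) (.nd (nat_lit 9) 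
(.lf (nat_lit 592037) (.g (nat_lit 2850) (.e (nat_lit 532549) (nat_lit 12) (.e (nat_lit 360473) (nat_lit 8) (.e (nat_lit 557087) (nat_lit 11) (.e (nat_lit 24591) (nat_lit 0) (.e (nat_lit 7936) (nat_lit 360) .nil))))) (.g (nat_lit 0) (.e (nat_lit 401727) (nat_lit 0) .nil) .nil))) 
(.lf (nat_lit 592549) (.g (nat_lit 5069) (.e (nat_lit 532550) (nat_lit 12) (.e (nat_lit 360475) (nat_lit 8) (.e (nat_lit 557091) (nat_lit 12) (.e (nat_lit 164022) (nat_lit 46) (.e (nat_lit 704736) (nat_lit 11) (.e (nat_lit 16388) (nat_lit 0) (.e (nat_lit 3227) (nat_lit 197) .nil))))))) (.g (nat_lit 1) (.e (nat_lit 402423) (nat_lit 0) .nil) .nil)))) (.nd (nat_lit 9) 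
(.lf (nat_lit 592293) (.g (nat_lit 4774) (.e (nat_lit 532550) (nat_lit 12) (.e (nat_lit 360474) (nat_lit 8) (.e (nat_lit 557093) (nat_lit 12) (.e (nat_lit 164022) (nat_lit 46) (.e (nat_lit 704738) (nat_lit 11) (.e (nat_lit 16389) (nat_lit 0) (.e (nat_lit 3239) (nat_lit 197) .nil))))))) (.g (nat_lit 1) (.e (nat_lit 402143) (nat_lit 0) .nil) .nil))) 
(.lf (nat_lit 592805) (.g (nat_lit 1340) (.e (nat_lit 532560) (nat_lit 14) (.e (nat_lit 376869) (nat_lit 23) (.e (nat_lit 98350) (nat_lit 24) (.e (nat_lit 409617) (nat_lit 10) .nil)))) (.g (nat_lit 0) (.e (nat_lit 402954) (nat_lit 0) .nil) .nil)))))) (.nd (nat_lit 7) (.nd (nat_lit 8) (.nd (nat_lit 9) 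
(.lf (nat_lit 591973) (.g (nat_lit 2595) (.e (nat_lit 532549) (nat_lit 12) (.e (nat_lit 360466) (nat_lit 3) (.e (nat_lit 516138) (nat_lit 7) (.e (nat_lit 409617) (nat_lit 10) (.e (nat_lit 5762) (nat_lit 315) (.e (nat_lit 163962) (nat_lit 25) .nil)))))) (.g (nat_lit 1) (.e (nat_lit 401641) (nat_lit 0) .nil) .nil))) 
(.lf (nat_lit 592485) (.g (nat_lit 6382) (.e (nat_lit 532550) (nat_lit 12) (.e (nat_lit 360475) (nat_lit 8) (.e (nat_lit 557087) (nat_lit 11) (.e (nat_lit 24665) (nat_lit 14) (.e (nat_lit 401417) (nat_lit 0) (.e (nat_lit 3231) (nat_lit 197) .nil)))))) (.g (nat_lit 1) (.e (nat_lit 402355) (nat_lit 0) .nil) .nil)))) (.nd (nat_lit 9) 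
(.lf (nat_lit 592229) (.g (nat_lit 5807) (.e (nat_lit 532550) (nat_lit 12) (.e (nat_lit 360474) (nat_lit 8) (.e (nat_lit 557093) (nat_lit 12) (.e (nat_lit 164022) (nat_lit 46) (.e (nat_lit 704629) (nat_lit 9) (.e (nat_lit 471) (nat_lit 36) (.e (nat_lit 458787) (nat_lit 23) .nil))))))) (.g (nat_lit 1) (.e (nat_lit 402079) (nat_lit 0) .nil) .nil))) 
(.lf (nat_lit 592741) (.g (nat_lit 1886) (.e (nat_lit 532559) (nat_lit 14) (.e (nat_lit 376868) (nat_lit 23) (.e (nat_lit 98350) (nat_lit 24) (.e (nat_lit 409617) (nat_lit 10) (.e (nat_lit 5756) (nat_lit 315) .nil))))) (.g (nat_lit 0) (.e (nat_lit 402799) (nat_lit 0) .nil) .nil))))) (.nd (nat_lit 8) (.nd (nat_lit 9) 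
(.lf (nat_lit 592101) (.g (nat_lit 4234) (.e (nat_lit 532549) (nat_lit 12) (.e (nat_lit 360475) (nat_lit 8) (.e (nat_lit 557087) (nat_lit 11) (.e (nat_lit 24665) (nat_lit 14) (.e (nat_lit 401417) (nat_lit 0) (.e (nat_lit 3231) (nat_lit 197) .nil)))))) (.g (nat_lit 1) (.e (nat_lit 401805) (nat_lit 0) .nil) .nil))) 
(.lf (nat_lit 592613) (.g (nat_lit 5926) (.e (nat_lit 532550) (nat_lit 12) (.e (nat_lit 360475) (nat_lit 8) (.e (nat_lit 557091) (nat_lit 12) (.e (nat_lit 164022) (nat_lit 46) (.e (nat_lit 704738) (nat_lit 11) (.e (nat_lit 16397) (nat_lit 0) (.e (nat_lit 3254) (nat_lit 197) .nil))))))) (.g (nat_lit 1) (.e (nat_lit 402487) (nat_lit 0) .nil) .nil)))) (.nd (nat_lit 9) 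
(.lf (nat_lit 592357) (.g (nat_lit 4679) (.e (nat_lit 532550) (nat_lit 12) (.e (nat_lit 360474) (nat_lit 8) (.e (nat_lit 557094) (nat_lit 12) (.e (nat_lit 164022) (nat_lit 46) (.e (nat_lit 704628) (nat_lit 9) (.e (nat_lit 475) (nat_lit 36) (.e (nat_lit 458788) (nat_lit 23) .nil))))))) (.g (nat_lit 1) (.e (nat_lit 402207) (nat_lit 0) .nil) .nil))) 
(.lf (nat_lit 592869) (.g (nat_lit 2415) (.e (nat_lit 532563) (nat_lit 15) (.e (nat_lit 385066) (nat_lit 26) (.e (nat_lit 532534) (nat_lit 9) (.e (nat_lit 336316) (nat_lit 17) (.e (nat_lit 196666) (nat_lit 13) (.e (nat_lit 65642) (nat_lit 15) (.e (nat_lit 3231) (nat_lit 197) .nil))))))) (.g (nat_lit 1) (.e (nat_lit 403085) (nat_lit 0) .nil) .nil)))))))) 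
(.nd (nat_lit 5) (.nd (nat_lit 6) (.nd (nat_lit 7) (.nd (nat_lit 8) (.nd (nat_lit 9) 
(.lf (nat_lit 591893) (.g (nat_lit 3225) (.e (nat_lit 532547) (nat_lit 11) (.e (nat_lit 352301) (nat_lit 20) (.e (nat_lit 1848) (nat_lit 124) (.e (nat_lit 557087) (nat_lit 11) (.e (nat_lit 24617) (nat_lit 7) (.e (nat_lit 319505) (nat_lit 10) (.e (nat_lit 7936) (nat_lit 45) .nil))))))) (.g (nat_lit 1) (.e (nat_lit 401440) (nat_lit 0) .nil) .nil))) 
(.lf (nat_lit 592405) (.g (nat_lit 5593) (.e (nat_lit 532550) (nat_lit 12) (.e (nat_lit 360474) (nat_lit 8) (.e (nat_lit 557094) (nat_lit 12) (.e (nat_lit 164022) (nat_lit 46) (.e (nat_lit 704738) (nat_lit 11) (.e (nat_lit 16384) (nat_lit 0) (.e (nat_lit 3237) (nat_lit 197) .nil))))))) (.g (nat_lit 1) (.e (nat_lit 402255) (nat_lit 0) .nil) .nil)))) (.nd (nat_lit 9) 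
(.lf (nat_lit 592149) (.g (nat_lit 4285) (.e (nat_lit 532550) (nat_lit 12) (.e (nat_lit 360467) (nat_lit 3) (.e (nat_lit 516139) (nat_lit 7) (.e (nat_lit 409649) (nat_lit 18) (.e (nat_lit 303111) (nat_lit 0) (.e (nat_lit 3252) (nat_lit 197) .nil)))))) (.g (nat_lit 1) (.e (nat_lit 401950) (nat_lit 0) .nil) .nil))) 
(.lf (nat_lit 592661) (.g (nat_lit 533) (.e (nat_lit 532551) (nat_lit 12) (.e (nat_lit 360473) (nat_lit 8) (.e (nat_lit 557087) (nat_lit 11) .nil))) (.g (nat_lit 0) (.e (nat_lit 402563) (nat_lit 0) .nil) .nil))))) (.nd (nat_lit 8) (.nd (nat_lit 9) 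
(.lf (nat_lit 592021) (.g (nat_lit 1406) (.e (nat_lit 532549) (nat_lit 12) (.e (nat_lit 360473) (nat_lit 8) (.e (nat_lit 557085) (nat_lit 11) (.e (nat_lit 24577) (nat_lit 0) .nil)))) (.g (nat_lit 0) (.e (nat_lit 401709) (nat_lit 0) .nil) .nil))) 
(.lf (nat_lit 592533) (.g (nat_lit 5676) (.e (nat_lit 532550) (nat_lit 12) (.e (nat_lit 360475) (nat_lit 8) (.e (nat_lit 557091) (nat_lit 12) (.e (nat_lit 164022) (nat_lit 46) (.e (nat_lit 704629) (nat_lit 9) (.e (nat_lit 473) (nat_lit 36) (.e (nat_lit 458787) (nat_lit 23) .nil))))))) (.g (nat_lit 1) (.e (nat_lit 402406) (nat_lit 0) .nil) .nil)))) (.nd (nat_lit 9) 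
(.lf (nat_lit 592277) (.g (nat_lit 5974) (.e (nat_lit 532550) (nat_lit 12) (.e (nat_lit 360474) (nat_lit 8) (.e (nat_lit 557093) (nat_lit 12) (.e (nat_lit 164022) (nat_lit 46) (.e (nat_lit 704738) (nat_lit 11) (.e (nat_lit 16384) (nat_lit 0) (.e (nat_lit 3237) (nat_lit 197) .nil))))))) (.g (nat_lit 1) (.e (nat_lit 402127) (nat_lit 0) .nil) .nil))) 
(.lf (nat_lit 592789) (.g (nat_lit 2297) (.e (nat_lit 532560) (nat_lit 14) (.e (nat_lit 376868) (nat_lit 23) (.e (nat_lit 98350) (nat_lit 24) (.e (nat_lit 409648) (nat_lit 18) (.e (nat_lit 303108) (nat_lit 0) (.e (nat_lit 3230) (nat_lit 197) .nil)))))) (.g (nat_lit 1) (.e (nat_lit 402932) (nat_lit 0) .nil) .nil)))))) (.nd (nat_lit 7) (.nd (nat_lit 8) (.nd (nat_lit 9) 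
(.lf (nat_lit 591957) (.g (nat_lit 2865) (.e (nat_lit 532547) (nat_lit 11) (.e (nat_lit 352315) (nat_lit 23) (.e (nat_lit 98350) (nat_lit 24) (.e (nat_lit 409649) (nat_lit 18) (.e (nat_lit 303111) (nat_lit 0) (.e (nat_lit 7936) (nat_lit 197) .nil)))))) (.g (nat_lit 1) (.e (nat_lit 401566) (nat_lit 0) .nil) .nil))) 
(.lf (nat_lit 592469) (.g (nat_lit 2127) (.e (nat_lit 532550) (nat_lit 12) (.e (nat_lit 360475) (nat_lit 8) (.e (nat_lit 557087) (nat_lit 11) (.e (nat_lit 24582) (nat_lit 0) (.e (nat_lit 7936) (nat_lit 360) .nil))))) (.g (nat_lit 0) (.e (nat_lit 402339) (nat_lit 0) .nil) .nil)))) (.nd (nat_lit 9) 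
(.lf (nat_lit 592213) (.g (nat_lit 925) (.e (nat_lit 532550) (nat_lit 12) (.e (nat_lit 360474) (nat_lit 8) (.e (nat_lit 557089) (nat_lit 12) .nil))) (.g (nat_lit 0) (.e (nat_lit 402063) (nat_lit 0) .nil) .nil))) 
(.lf (nat_lit 592725) (.g (nat_lit 1057) (.e (nat_lit 532558) (nat_lit 14) (.e (nat_lit 376869) (nat_lit 23) (.e (nat_lit 98349) (nat_lit 24) (.e (nat_lit 417536) (nat_lit 18) .nil)))) (.g (nat_lit 0) (.e (nat_lit 402741) (nat_lit 0) .nil) .nil))))) (.nd (nat_lit 8) (.nd (nat_lit 9) 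
(.lf (nat_lit 592085) (.g (nat_lit 574) (.e (nat_lit 532549) (nat_lit 12) (.e (nat_lit 360474) (nat_lit 8) (.e (nat_lit 557088) (nat_lit 12) .nil))) (.g (nat_lit 0) (.e (nat_lit 401783) (nat_lit 0) .nil) .nil))) 
(.lf (nat_lit 592597) (.g (nat_lit 5298) (.e (nat_lit 532550) (nat_lit 12) (.e (nat_lit 360475) (nat_lit 8) (.e (nat_lit 557091) (nat_lit 12) (.e (nat_lit 164022) (nat_lit 46) (.e (nat_lit 704738) (nat_lit 11) (.e (nat_lit 16385) (nat_lit 0) (.e (nat_lit 3243) (nat_lit 197) .nil))))))) (.g (nat_lit 1) (.e (nat_lit 402471) (nat_lit 0) .nil) .nil)))) (.nd (nat_lit 9) 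
(.lf (nat_lit 592341) (.g (nat_lit 5055) (.e (nat_lit 532550) (nat_lit 12) (.e (nat_lit 360474) (nat_lit 8) (.e (nat_lit 557093) (nat_lit 12) (.e (nat_lit 164023) (nat_lit 46) (.e (nat_lit 704737) (nat_lit 11) (.e (nat_lit 16396) (nat_lit 0) (.e (nat_lit 3230) (nat_lit 197) .nil))))))) (.g (nat_lit 1) (.e (nat_lit 402191) (nat_lit 0) .nil) .nil))) 
(.lf (nat_lit 592853) (.g (nat_lit 2633) (.e (nat_lit 532563) (nat_lit 15) (.e (nat_lit 385066) (nat_lit 26) (.e (nat_lit 532530) (nat_lit 9) (.e (nat_lit 336326) (nat_lit 18) (.e (nat_lit 204854) (nat_lit 26) (.e (nat_lit 336262) (nat_lit 15) (.e (nat_lit 3234) (nat_lit 197) .nil))))))) (.g (nat_lit 1) (.e (nat_lit 403062) (nat_lit 0) .nil) .nil))))))) 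
(.nd (nat_lit 6) (.nd (nat_lit 7) (.nd (nat_lit 8) (.nd (nat_lit 9) 
(.lf (nat_lit 591925) (.g (nat_lit 1403) (.e (nat_lit 532547) (nat_lit 11) (.e (nat_lit 352315) (nat_lit 23) (.e (nat_lit 98349) (nat_lit 24) (.e (nat_lit 417536) (nat_lit 10) .nil)))) (.g (nat_lit 0) (.e (nat_lit 401527) (nat_lit 0) .nil) .nil))) 
(.lf (nat_lit 592437) (.g (nat_lit 903) (.e (nat_lit 532550) (nat_lit 12) (.e (nat_lit 360475) (nat_lit 8) (.e (nat_lit 557070) (nat_lit 9) .nil))) (.g (nat_lit 0) (.e (nat_lit 402300) (nat_lit 0) .nil) .nil)))) (.nd (nat_lit 9) 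
(.lf (nat_lit 592181) (.g (nat_lit 1100) (.e (nat_lit 532550) (nat_lit 12) (.e (nat_lit 360474) (nat_lit 8) (.e (nat_lit 557070) (nat_lit 9) (.e (nat_lit 238) (nat_lit 21) .nil)))) (.g (nat_lit 0) (.e (nat_lit 402008) (nat_lit 0) .nil) .nil))) 
(.lf (nat_lit 592693) (.g (nat_lit 1737) (.e (nat_lit 532555) (nat_lit 13) (.e (nat_lit 368676) (nat_lit 21) (.e (nat_lit 516115) (nat_lit 1) (.e (nat_lit 164243) (nat_lit 195) .nil)))) (.g (nat_lit 0) (.e (nat_lit 402631) (nat_lit 0) .nil) .nil))))) (.nd (nat_lit 8) (.nd (nat_lit 9) 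
(.lf (nat_lit 592053) (.g (nat_lit 1934) (.e (nat_lit 532549) (nat_lit 12) (.e (nat_lit 360473) (nat_lit 8) (.e (nat_lit 557090) (nat_lit 12) (.e (nat_lit 164020) (nat_lit 45) (.e (nat_lit 696345) (nat_lit 9) .nil))))) (.g (nat_lit 0) (.e (nat_lit 401746) (nat_lit 0) .nil) .nil))) 
(.lf (nat_lit 592565) (.g (nat_lit 5223) (.e (nat_lit 532550) (nat_lit 12) (.e (nat_lit 360475) (nat_lit 8) (.e (nat_lit 557091) (nat_lit 12) (.e (nat_lit 164022) (nat_lit 46) (.e (nat_lit 704737) (nat_lit 11) (.e (nat_lit 16384) (nat_lit 0) (.e (nat_lit 3256) (nat_lit 197) .nil))))))) (.g (nat_lit 1) (.e (nat_lit 402439) (nat_lit 0) .nil) .nil)))) (.nd (nat_lit 9) 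
(.lf (nat_lit 592309) (.g (nat_lit 4074) (.e (nat_lit 532550) (nat_lit 12) (.e (nat_lit 360474) (nat_lit 8) (.e (nat_lit 557093) (nat_lit 12) (.e (nat_lit 164022) (nat_lit 46) (.e (nat_lit 704738) (nat_lit 11) (.e (nat_lit 16396) (nat_lit 0) (.e (nat_lit 7936) (nat_lit 197) .nil))))))) (.g (nat_lit 1) (.e (nat_lit 402159) (nat_lit 0) .nil) .nil))) 
(.lf (nat_lit 592821) (.g (nat_lit 1162) (.e (nat_lit 532561) (nat_lit 14) (.e (nat_lit 376862) (nat_lit 22) (.e (nat_lit 90185) (nat_lit 17) (.e (nat_lit 237585) (nat_lit 1) .nil)))) (.g (nat_lit 0) (.e (nat_lit 403006) (nat_lit 0) .nil) .nil)))))) (.nd (nat_lit 7) (.nd (nat_lit 8) (.nd (nat_lit 9) 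
(.lf (nat_lit 591989) (.g (nat_lit 3415) (.e (nat_lit 532549) (nat_lit 12) (.e (nat_lit 360466) (nat_lit 3) (.e (nat_lit 516139) (nat_lit 7) (.e (nat_lit 409649) (nat_lit 18) (.e (nat_lit 303107) (nat_lit 0) .nil))))) (.g (nat_lit 0) (.e (nat_lit 401657) (nat_lit 0) .nil) .nil))) 
(.lf (nat_lit 592501) (.g (nat_lit 4297) (.e (nat_lit 532550) (nat_lit 12) (.e (nat_lit 360475) (nat_lit 8) (.e (nat_lit 557089) (nat_lit 12) (.e (nat_lit 163850) (nat_lit 0) (.e (nat_lit 6425) (nat_lit 342) (.e (nat_lit 229409) (nat_lit 13) (.e (nat_lit 434230) (nat_lit 23) .nil))))))) (.g (nat_lit 1) (.e (nat_lit 402371) (nat_lit 0) .nil) .nil)))) (.nd (nat_lit 9) 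
(.lf (nat_lit 592245) (.g (nat_lit 3717) (.e (nat_lit 532550) (nat_lit 12) (.e (nat_lit 360474) (nat_lit 8) (.e (nat_lit 557093) (nat_lit 12) (.e (nat_lit 164022) (nat_lit 46) (.e (nat_lit 704736) (nat_lit 11) (.e (nat_lit 16390) (nat_lit 0) (.e (nat_lit 3241) (nat_lit 197) .nil))))))) (.g (nat_lit 1) (.e (nat_lit 402095) (nat_lit 0) .nil) .nil))) 
(.lf (nat_lit 592757) (.g (nat_lit 2432) (.e (nat_lit 532559) (nat_lit 14) (.e (nat_lit 376869) (nat_lit 23) (.e (nat_lit 98350) (nat_lit 24) (.e (nat_lit 409648) (nat_lit 18) (.e (nat_lit 303104) (nat_lit 0) .nil))))) (.g (nat_lit 0) (.e (nat_lit 402817) (nat_lit 0) .nil) .nil))))) (.nd (nat_lit 8) (.nd (nat_lit 9) 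
(.lf (nat_lit 592117) (.g (nat_lit 480) (.e (nat_lit 532550) (nat_lit 12) (.e (nat_lit 360453) (nat_lit 0) (.e (nat_lit 7280) (nat_lit 386) .nil))) (.g (nat_lit 0) (.e (nat_lit 401899) (nat_lit 0) .nil) .nil))) 
(.lf (nat_lit 592629) (.g (nat_lit 738) (.e (nat_lit 532550) (nat_lit 12) (.e (nat_lit 360475) (nat_lit 8) (.e (nat_lit 557094) (nat_lit 12) .nil))) (.g (nat_lit 0) (.e (nat_lit 402503) (nat_lit 0) .nil) .nil)))) (.nd (nat_lit 9) 
(.lf (nat_lit 592373) (.g (nat_lit 4242) (.e (nat_lit 532550) (nat_lit 12) (.e (nat_lit 360474) (nat_lit 8) (.e (nat_lit 557094) (nat_lit 12) (.e (nat_lit 164022) (nat_lit 46) (.e (nat_lit 704736) (nat_lit 11) (.e (nat_lit 16388) (nat_lit 0) (.e (nat_lit 3227) (nat_lit 197) .nil))))))) (.g (nat_lit 1) (.e (nat_lit 402223) (nat_lit 0) .nil) .nil))) 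
(.lf (nat_lit 592885) (.g (nat_lit 2691) (.e (nat_lit 532563) (nat_lit 15) (.e (nat_lit 385066) (nat_lit 26) (.e (nat_lit 532555) (nat_lit 13) (.e (nat_lit 368676) (nat_lit 21) (.e (nat_lit 516117) (nat_lit 1) (.e (nat_lit 164242) (nat_lit 195) (.e (nat_lit 2611) (nat_lit 163) (.e (nat_lit 163963) (nat_lit 25) .nil)))))))) (.g (nat_lit 1) (.e (nat_lit 403107) (nat_lit 0) .nil) .nil))))))))) 
(.nd (nat_lit 4) (.nd (nat_lit 5) (.nd (nat_lit 6) (.nd (nat_lit 7) (.nd (nat_lit 8) 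
(.nd (nat_lit 9) 
(.lf (nat_lit 591885) (.g (nat_lit 3341) (.e (nat_lit 532547) (nat_lit 11) (.e (nat_lit 352290) (nat_lit 20) (.e (nat_lit 1848) (nat_lit 124) (.e (nat_lit 557087) (nat_lit 11) (.e (nat_lit 24617) (nat_lit 7) (.e (nat_lit 319505) (nat_lit 10) (.e (nat_lit 7936) (nat_lit 45) .nil))))))) (.g (nat_lit 1) (.e (nat_lit 401432) (nat_lit 0) .nil) .nil))) 
(.lf (nat_lit 592397) (.g (nat_lit 3176) (.e (nat_lit 532550) (nat_lit 12) (.e (nat_lit 360474) (nat_lit 8) (.e (nat_lit 557094) (nat_lit 12) (.e (nat_lit 164022) (nat_lit 46) (.e (nat_lit 704737) (nat_lit 11) (.e (nat_lit 16396) (nat_lit 0) (.e (nat_lit 7936) (nat_lit 197) .nil))))))) (.g (nat_lit 1) (.e (nat_lit 402247) (nat_lit 0) .nil) .nil)))) (.nd (nat_lit 9) 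
(.lf (nat_lit 592141) (.g (nat_lit 3193) (.e (nat_lit 532550) (nat_lit 12) (.e (nat_lit 360467) (nat_lit 3) (.e (nat_lit 516139) (nat_lit 7) (.e (nat_lit 409616) (nat_lit 10) (.e (nat_lit 5757) (nat_lit 315) (.e (nat_lit 163962) (nat_lit 25) .nil)))))) (.g (nat_lit 1) (.e (nat_lit 401939) (nat_lit 0) .nil) .nil))) 
(.lf (nat_lit 592653) (.g (nat_lit 1394) (.e (nat_lit 532551) (nat_lit 12) (.e (nat_lit 360467) (nat_lit 3) (.e (nat_lit 516139) (nat_lit 7) (.e (nat_lit 409649) (nat_lit 18) .nil)))) (.g (nat_lit 0) (.e (nat_lit 402546) (nat_lit 0) .nil) .nil))))) (.nd (nat_lit 8) (.nd (nat_lit 9) 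
(.lf (nat_lit 592013) (.g (nat_lit 2312) (.e (nat_lit 532549) (nat_lit 12) (.e (nat_lit 360468) (nat_lit 3) (.e (nat_lit 516139) (nat_lit 7) (.e (nat_lit 409649) (nat_lit 18) (.e (nat_lit 303104) (nat_lit 0) .nil))))) (.g (nat_lit 0) (.e (nat_lit 401689) (nat_lit 0) .nil) .nil))) 
(.lf (nat_lit 592525) (.g (nat_lit 4274) (.e (nat_lit 532550) (nat_lit 12) (.e (nat_lit 360475) (nat_lit 8) (.e (nat_lit 557091) (nat_lit 12) (.e (nat_lit 164022) (nat_lit 46) (.e (nat_lit 704629) (nat_lit 9) (.e (nat_lit 375) (nat_lit 32) (.e (nat_lit 426025) (nat_lit 0) (.e (nat_lit 7936) (nat_lit 197) .nil)))))))) (.g (nat_lit 1) (.e (nat_lit 402398) (nat_lit 0) .nil) .nil)))) (.nd (nat_lit 9) 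
(.lf (nat_lit 592269) (.g (nat_lit 4996) (.e (nat_lit 532550) (nat_lit 12) (.e (nat_lit 360474) (nat_lit 8) (.e (nat_lit 557093) (nat_lit 12) (.e (nat_lit 164022) (nat_lit 46) (.e (nat_lit 704737) (nat_lit 11) (.e (nat_lit 16390) (nat_lit 0) (.e (nat_lit 3242) (nat_lit 197) .nil))))))) (.g (nat_lit 1) (.e (nat_lit 402119) (nat_lit 0) .nil) .nil))) 
(.lf (nat_lit 592781) (.g (nat_lit 2423) (.e (nat_lit 532560) (nat_lit 14) (.e (nat_lit 376868) (nat_lit 23) (.e (nat_lit 98350) (nat_lit 24) (.e (nat_lit 409616) (nat_lit 10) (.e (nat_lit 5763) (nat_lit 315) .nil))))) (.g (nat_lit 0) (.e (nat_lit 402924) (nat_lit 0) .nil) .nil)))))) (.nd (nat_lit 7) (.nd (nat_lit 8) (.nd (nat_lit 9) 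
(.lf (nat_lit 591949) (.g (nat_lit 3743) (.e (nat_lit 532547) (nat_lit 11) (.e (nat_lit 352315) (nat_lit 23) (.e (nat_lit 98350) (nat_lit 24) (.e (nat_lit 409646) (nat_lit 18) (.e (nat_lit 303112) (nat_lit 0) (.e (nat_lit 3252) (nat_lit 197) .nil)))))) (.g (nat_lit 1) (.e (nat_lit 401558) (nat_lit 0) .nil) .nil))) 
(.lf (nat_lit 592461) (.g (nat_lit 6340) (.e (nat_lit 532550) (nat_lit 12) (.e (nat_lit 360475) (nat_lit 8) (.e (nat_lit 557086) (nat_lit 11) (.e (nat_lit 24665) (nat_lit 14) (.e (nat_lit 401417) (nat_lit 0) (.e (nat_lit 3231) (nat_lit 197) .nil)))))) (.g (nat_lit 1) (.e (nat_lit 402331) (nat_lit 0) .nil) .nil)))) (.nd (nat_lit 9) 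
(.lf (nat_lit 592205) (.g (nat_lit 2731) (.e (nat_lit 532550) (nat_lit 12) (.e (nat_lit 360474) (nat_lit 8) (.e (nat_lit 557085) (nat_lit 11) (.e (nat_lit 24665) (nat_lit 14) (.e (nat_lit 401417) (nat_lit 0) (.e (nat_lit 7936) (nat_lit 197) .nil)))))) (.g (nat_lit 1) (.e (nat_lit 402055) (nat_lit 0) .nil) .nil))) 
(.lf (nat_lit 592717) (.g (nat_lit 2604) (.e (nat_lit 532558) (nat_lit 14) (.e (nat_lit 376868) (nat_lit 23) (.e (nat_lit 98350) (nat_lit 24) (.e (nat_lit 409646) (nat_lit 18) (.e (nat_lit 303112) (nat_lit 0) (.e (nat_lit 3252) (nat_lit 197) .nil)))))) (.g (nat_lit 1) (.e (nat_lit 402731) (nat_lit 0) .nil) .nil))))) (.nd (nat_lit 8) (.nd (nat_lit 9) 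
(.lf (nat_lit 592077) (.g (nat_lit 408) (.e (nat_lit 532549) (nat_lit 12) (.e (nat_lit 360473) (nat_lit 8) (.e (nat_lit 557094) (nat_lit 12) .nil))) (.g (nat_lit 0) (.e (nat_lit 401775) (nat_lit 0) .nil) .nil))) 
(.lf (nat_lit 592589) (.g (nat_lit 5537) (.e (nat_lit 532550) (nat_lit 12) (.e (nat_lit 360475) (nat_lit 8) (.e (nat_lit 557091) (nat_lit 12) (.e (nat_lit 164022) (nat_lit 46) (.e (nat_lit 704738) (nat_lit 11) (.e (nat_lit 16384) (nat_lit 0) (.e (nat_lit 3239) (nat_lit 197) .nil))))))) (.g (nat_lit 1) (.e (nat_lit 402463) (nat_lit 0) .nil) .nil)))) (.nd (nat_lit 9) 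
(.lf (nat_lit 592333) (.g (nat_lit 4281) (.e (nat_lit 532550) (nat_lit 12) (.e (nat_lit 360474) (nat_lit 8) (.e (nat_lit 557093) (nat_lit 12) (.e (nat_lit 164023) (nat_lit 46) (.e (nat_lit 704735) (nat_lit 11) (.e (nat_lit 16396) (nat_lit 0) (.e (nat_lit 3230) (nat_lit 197) .nil))))))) (.g (nat_lit 1) (.e (nat_lit 402183) (nat_lit 0) .nil) .nil))) 
(.lf (nat_lit 592845) (.g (nat_lit 1613) (.e (nat_lit 532563) (nat_lit 15) (.e (nat_lit 385066) (nat_lit 26) (.e (nat_lit 532529) (nat_lit 9) (.e (nat_lit 336324) (nat_lit 18) (.e (nat_lit 204882) (nat_lit 32) .nil))))) (.g (nat_lit 0) (.e (nat_lit 403054) (nat_lit 0) .nil) .nil))))))) (.nd (nat_lit 6) (.nd (nat_lit 7) (.nd (nat_lit 8) (.nd (nat_lit 9) 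
(.lf (nat_lit 591917) (.g (nat_lit 1952) (.e (nat_lit 532547) (nat_lit 11) (.e (nat_lit 352314) (nat_lit 23) (.e (nat_lit 98350) (nat_lit 24) (.e (nat_lit 409616) (nat_lit 10) (.e (nat_lit 7936) (nat_lit 315) .nil))))) (.g (nat_lit 0) (.e (nat_lit 401502) (nat_lit 0) .nil) .nil))) 
(.lf (nat_lit 592429) (.g (nat_lit 4955) (.e (nat_lit 532550) (nat_lit 12) (.e (nat_lit 360474) (nat_lit 8) (.e (nat_lit 557094) (nat_lit 12) (.e (nat_lit 164022) (nat_lit 46) (.e (nat_lit 704738) (nat_lit 11) (.e (nat_lit 16399) (nat_lit 0) (.e (nat_lit 3251) (nat_lit 197) .nil))))))) (.g (nat_lit 1) (.e (nat_lit 402279) (nat_lit 0) .nil) .nil)))) (.nd (nat_lit 9) 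
(.lf (nat_lit 592173) (.g (nat_lit 2760) (.e (nat_lit 532550) (nat_lit 12) (.e (nat_lit 360472) (nat_lit 8) (.e (nat_lit 557090) (nat_lit 12) (.e (nat_lit 164020) (nat_lit 45) (.e (nat_lit 696343) (nat_lit 8) .nil))))) (.g (nat_lit 0) (.e (nat_lit 401999) (nat_lit 0) .nil) .nil))) 
(.lf (nat_lit 592685) (.g (nat_lit 1268) (.e (nat_lit 532554) (nat_lit 13) (.e (nat_lit 368676) (nat_lit 21) (.e (nat_lit 516131) (nat_lit 3) (.e (nat_lit 221212) (nat_lit 22) .nil)))) (.g (nat_lit 0) (.e (nat_lit 402610) (nat_lit 0) .nil) .nil))))) (.nd (nat_lit 8) (.nd (nat_lit 9) 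
(.lf (nat_lit 592045) (.g (nat_lit 2658) (.e (nat_lit 532549) (nat_lit 12) (.e (nat_lit 360473) (nat_lit 8) (.e (nat_lit 557087) (nat_lit 11) (.e (nat_lit 24617) (nat_lit 7) (.e (nat_lit 327424) (nat_lit 10) .nil))))) (.g (nat_lit 0) (.e (nat_lit 401735) (nat_lit 0) .nil) .nil))) 
(.lf (nat_lit 592557) (.g (nat_lit 2618) (.e (nat_lit 532550) (nat_lit 12) (.e (nat_lit 360475) (nat_lit 8) (.e (nat_lit 557091) (nat_lit 12) (.e (nat_lit 164022) (nat_lit 46) (.e (nat_lit 704736) (nat_lit 11) (.e (nat_lit 16396) (nat_lit 0) (.e (nat_lit 7936) (nat_lit 197) .nil))))))) (.g (nat_lit 1) (.e (nat_lit 402431) (nat_lit 0) .nil) .nil)))) (.nd (nat_lit 9) 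
(.lf (nat_lit 592301) (.g (nat_lit 4398) (.e (nat_lit 532550) (nat_lit 12) (.e (nat_lit 360474) (nat_lit 8) (.e (nat_lit 557093) (nat_lit 12) (.e (nat_lit 164022) (nat_lit 46) (.e (nat_lit 704738) (nat_lit 11) (.e (nat_lit 16390) (nat_lit 0) (.e (nat_lit 3230) (nat_lit 197) .nil))))))) (.g (nat_lit 1) (.e (nat_lit 402151) (nat_lit 0) .nil) .nil))) 
(.lf (nat_lit 592813) (.g (nat_lit 4214) (.e (nat_lit 532560) (nat_lit 14) (.e (nat_lit 376869) (nat_lit 23) (.e (nat_lit 98350) (nat_lit 24) (.e (nat_lit 409645) (nat_lit 18) (.e (nat_lit 303112) (nat_lit 0) (.e (nat_lit 3252) (nat_lit 197) .nil)))))) (.g (nat_lit 1) (.e (nat_lit 402962) (nat_lit 0) .nil) .nil)))))) (.nd (nat_lit 7) (.nd (nat_lit 8) (.nd (nat_lit 9) 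
(.lf (nat_lit 591981) (.g (nat_lit 3216) (.e (nat_lit 532549) (nat_lit 12) (.e (nat_lit 360466) (nat_lit 3) (.e (nat_lit 516139) (nat_lit 7) (.e (nat_lit 409618) (nat_lit 10) (.e (nat_lit 5756) (nat_lit 315) .nil))))) (.g (nat_lit 0) (.e (nat_lit 401649) (nat_lit 0) .nil) .nil))) 
(.lf (nat_lit 592493) (.g (nat_lit 4926) (.e (nat_lit 532550) (nat_lit 12) (.e (nat_lit 360475) (nat_lit 8) (.e (nat_lit 557089) (nat_lit 12) (.e (nat_lit 163844) (nat_lit 0) (.e (nat_lit 6420) (nat_lit 341) (.e (nat_lit 163902) (nat_lit 12) (.e (nat_lit 426091) (nat_lit 0) (.e (nat_lit 3238) (nat_lit 197) .nil)))))))) (.g (nat_lit 1) (.e (nat_lit 402363) (nat_lit 0) .nil) .nil)))) 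
(.nd (nat_lit 9) 
(.lf (nat_lit 592237) (.g (nat_lit 2223) (.e (nat_lit 532550) (nat_lit 12) (.e (nat_lit 360474) (nat_lit 8) (.e (nat_lit 557093) (nat_lit 12) (.e (nat_lit 164022) (nat_lit 46) (.e (nat_lit 704735) (nat_lit 11) (.e (nat_lit 16396) (nat_lit 0) (.e (nat_lit 7936) (nat_lit 197) .nil))))))) (.g (nat_lit 1) (.e (nat_lit 402087) (nat_lit 0) .nil) .nil))) 
(.lf (nat_lit 592749) (.g (nat_lit 2462) (.e (nat_lit 532559) (nat_lit 14) (.e (nat_lit 376868) (nat_lit 23) (.e (nat_lit 98350) (nat_lit 24) (.e (nat_lit 409649) (nat_lit 18) (.e (nat_lit 303112) (nat_lit 0) (.e (nat_lit 3252) (nat_lit 197) .nil)))))) (.g (nat_lit 1) (.e (nat_lit 402807) (nat_lit 0) .nil) .nil))))) (.nd (nat_lit 8) (.nd (nat_lit 9) 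
(.lf (nat_lit 592109) (.g (nat_lit 2251) (.e (nat_lit 532549) (nat_lit 12) (.e (nat_lit 360475) (nat_lit 8) (.e (nat_lit 557091) (nat_lit 12) (.e (nat_lit 163844) (nat_lit 0) .nil)))) (.g (nat_lit 0) (.e (nat_lit 401815) (nat_lit 0) .nil) .nil))) 
(.lf (nat_lit 592621) (.g (nat_lit 4026) (.e (nat_lit 532550) (nat_lit 12) (.e (nat_lit 360475) (nat_lit 8) (.e (nat_lit 557091) (nat_lit 12) (.e (nat_lit 164022) (nat_lit 46) (.e (nat_lit 704738) (nat_lit 11) (.e (nat_lit 16399) (nat_lit 0) (.e (nat_lit 7936) (nat_lit 197) .nil))))))) (.g (nat_lit 1) (.e (nat_lit 402495) (nat_lit 0) .nil) .nil)))) (.nd (nat_lit 9) 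
(.lf (nat_lit 592365) (.g (nat_lit 5279) (.e (nat_lit 532550) (nat_lit 12) (.e (nat_lit 360474) (nat_lit 8) (.e (nat_lit 557094) (nat_lit 12) (.e (nat_lit 164022) (nat_lit 46) (.e (nat_lit 704629) (nat_lit 9) (.e (nat_lit 475) (nat_lit 36) (.e (nat_lit 458787) (nat_lit 23) .nil))))))) (.g (nat_lit 1) (.e (nat_lit 402215) (nat_lit 0) .nil) .nil))) 
(.lf (nat_lit 592877) (.g (nat_lit 1462) (.e (nat_lit 532563) (nat_lit 15) (.e (nat_lit 385066) (nat_lit 26) (.e (nat_lit 532534) (nat_lit 9) (.e (nat_lit 343808) (nat_lit 18) .nil)))) (.g (nat_lit 0) (.e (nat_lit 403093) (nat_lit 0) .nil) .nil)))))))) (.nd (nat_lit 5) (.nd (nat_lit 6) (.nd (nat_lit 7) (.nd (nat_lit 8) (.nd (nat_lit 9) 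
(.lf (nat_lit 591901) (.g (nat_lit 2025) (.e (nat_lit 532547) (nat_lit 11) (.e (nat_lit 352313) (nat_lit 23) (.e (nat_lit 98350) (nat_lit 24) (.e (nat_lit 409615) (nat_lit 10) .nil)))) (.g (nat_lit 0) (.e (nat_lit 401484) (nat_lit 0) .nil) .nil))) 
(.lf (nat_lit 592413) (.g (nat_lit 5098) (.e (nat_lit 532550) (nat_lit 12) (.e (nat_lit 360474) (nat_lit 8) (.e (nat_lit 557094) (nat_lit 12) (.e (nat_lit 164022) (nat_lit 46) (.e (nat_lit 704738) (nat_lit 11) (.e (nat_lit 16386) (nat_lit 0) (.e (nat_lit 3229) (nat_lit 197) .nil))))))) (.g (nat_lit 1) (.e (nat_lit 402263) (nat_lit 0) .nil) .nil)))) (.nd (nat_lit 9) 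
(.lf (nat_lit 592157) (.g (nat_lit 3467) (.e (nat_lit 532550) (nat_lit 12) (.e (nat_lit 360468) (nat_lit 3) (.e (nat_lit 516139) (nat_lit 7) (.e (nat_lit 409648) (nat_lit 18) (.e (nat_lit 303109) (nat_lit 0) (.e (nat_lit 3252) (nat_lit 197) .nil)))))) (.g (nat_lit 1) (.e (nat_lit 401972) (nat_lit 0) .nil) .nil))) 
(.lf (nat_lit 592669) (.g (nat_lit 1224) (.e (nat_lit 532553) (nat_lit 13) (.e (nat_lit 368676) (nat_lit 21) (.e (nat_lit 516129) (nat_lit 3) (.e (nat_lit 229120) (nat_lit 3) .nil)))) (.g (nat_lit 0) (.e (nat_lit 402581) (nat_lit 0) .nil) .nil))))) (.nd (nat_lit 8) (.nd (nat_lit 9) 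
(.lf (nat_lit 592029) (.g (nat_lit 1637) (.e (nat_lit 532549) (nat_lit 12) (.e (nat_lit 360473) (nat_lit 8) (.e (nat_lit 557087) (nat_lit 11) (.e (nat_lit 24581) (nat_lit 0) (.e (nat_lit 7936) (nat_lit 360) .nil))))) (.g (nat_lit 0) (.e (nat_lit 401717) (nat_lit 0) .nil) .nil))) 
(.lf (nat_lit 592541) (.g (nat_lit 2438) (.e (nat_lit 532550) (nat_lit 12) (.e (nat_lit 360475) (nat_lit 8) (.e (nat_lit 557091) (nat_lit 12) (.e (nat_lit 164022) (nat_lit 46) (.e (nat_lit 704735) (nat_lit 11) (.e (nat_lit 16388) (nat_lit 0) (.e (nat_lit 7936) (nat_lit 197) .nil))))))) (.g (nat_lit 1) (.e (nat_lit 402415) (nat_lit 0) .nil) .nil)))) (.nd (nat_lit 9) 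
(.lf (nat_lit 592285) (.g (nat_lit 4821) (.e (nat_lit 532550) (nat_lit 12) (.e (nat_lit 360474) (nat_lit 8) (.e (nat_lit 557093) (nat_lit 12) (.e (nat_lit 164022) (nat_lit 46) (.e (nat_lit 704738) (nat_lit 11) (.e (nat_lit 16385) (nat_lit 0) (.e (nat_lit 3241) (nat_lit 197) .nil))))))) (.g (nat_lit 1) (.e (nat_lit 402135) (nat_lit 0) .nil) .nil))) 
(.lf (nat_lit 592797) (.g (nat_lit 1131) (.e (nat_lit 532560) (nat_lit 14) (.e (nat_lit 376869) (nat_lit 23) (.e (nat_lit 98349) (nat_lit 24) (.e (nat_lit 409612) (nat_lit 10) (.e (nat_lit 5756) (nat_lit 315) .nil))))) (.g (nat_lit 0) (.e (nat_lit 402945) (nat_lit 0) .nil) .nil)))))) (.nd (nat_lit 7) (.nd (nat_lit 8) (.nd (nat_lit 9) 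
(.lf (nat_lit 591965) (.g (nat_lit 2418) (.e (nat_lit 532548) (nat_lit 11) (.e (nat_lit 352315) (nat_lit 23) (.e (nat_lit 98350) (nat_lit 24) (.e (nat_lit 409617) (nat_lit 10) (.e (nat_lit 5762) (nat_lit 315) .nil))))) (.g (nat_lit 0) (.e (nat_lit 401622) (nat_lit 0) .nil) .nil))) 
(.lf (nat_lit 592477) (.g (nat_lit 5088) (.e (nat_lit 532550) (nat_lit 12) (.e (nat_lit 360475) (nat_lit 8) (.e (nat_lit 557087) (nat_lit 11) (.e (nat_lit 24617) (nat_lit 7) (.e (nat_lit 319505) (nat_lit 10) (.e (nat_lit 7936) (nat_lit 45) .nil)))))) (.g (nat_lit 1) (.e (nat_lit 402347) (nat_lit 0) .nil) .nil)))) (.nd (nat_lit 9) 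
(.lf (nat_lit 592221) (.g (nat_lit 5746) (.e (nat_lit 532550) (nat_lit 12) (.e (nat_lit 360474) (nat_lit 8) (.e (nat_lit 557093) (nat_lit 12) (.e (nat_lit 164022) (nat_lit 46) (.e (nat_lit 704628) (nat_lit 9) (.e (nat_lit 473) (nat_lit 36) (.e (nat_lit 458788) (nat_lit 23) .nil))))))) (.g (nat_lit 1) (.e (nat_lit 402071) (nat_lit 0) .nil) .nil))) 
(.lf (nat_lit 592733) (.g (nat_lit 1536) (.e (nat_lit 532559) (nat_lit 14) (.e (nat_lit 376865) (nat_lit 22) (.e (nat_lit 90185) (nat_lit 17) (.e (nat_lit 237582) (nat_lit 1) .nil)))) (.g (nat_lit 0) (.e (nat_lit 402790) (nat_lit 0) .nil) .nil))))) (.nd (nat_lit 8) (.nd (nat_lit 9) 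
(.lf (nat_lit 592093) (.g (nat_lit 969) (.e (nat_lit 532549) (nat_lit 12) (.e (nat_lit 360475) (nat_lit 8) (.e (nat_lit 557065) (nat_lit 9) .nil))) (.g (nat_lit 0) (.e (nat_lit 401791) (nat_lit 0) .nil) .nil))) 
(.lf (nat_lit 592605) (.g (nat_lit 4146) (.e (nat_lit 532550) (nat_lit 12) (.e (nat_lit 360475) (nat_lit 8) (.e (nat_lit 557091) (nat_lit 12) (.e (nat_lit 164022) (nat_lit 46) (.e (nat_lit 704738) (nat_lit 11) (.e (nat_lit 16390) (nat_lit 0) (.e (nat_lit 3230) (nat_lit 197) .nil))))))) (.g (nat_lit 1) (.e (nat_lit 402479) (nat_lit 0) .nil) .nil)))) (.nd (nat_lit 9) 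
(.lf (nat_lit 592349) (.g (nat_lit 4504) (.e (nat_lit 532550) (nat_lit 12) (.e (nat_lit 360474) (nat_lit 8) (.e (nat_lit 557094) (nat_lit 12) (.e (nat_lit 163852) (nat_lit 0) (.e (nat_lit 6273) (nat_lit 337) (.e (nat_lit 2635) (nat_lit 165) (.e (nat_lit 180242) (nat_lit 5) .nil))))))) (.g (nat_lit 1) (.e (nat_lit 402199) (nat_lit 0) .nil) .nil))) 
(.lf (nat_lit 592861) (.g (nat_lit 3186) (.e (nat_lit 532563) (nat_lit 15) (.e (nat_lit 385066) (nat_lit 26) (.e (nat_lit 532534) (nat_lit 9) (.e (nat_lit 336019) (nat_lit 3) (.e (nat_lit 98333) (nat_lit 18) (.e (nat_lit 164243) (nat_lit 195) (.e (nat_lit 2610) (nat_lit 163) (.e (nat_lit 163964) (nat_lit 25) .nil)))))))) (.g (nat_lit 1) (.e (nat_lit 403071) (nat_lit 0) .nil) .nil))))))) 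
(.nd (nat_lit 6) (.nd (nat_lit 7) (.nd (nat_lit 8) (.nd (nat_lit 9) 
(.lf (nat_lit 591933) (.g (nat_lit 2113) (.e (nat_lit 532547) (nat_lit 11) (.e (nat_lit 352315) (nat_lit 23) (.e (nat_lit 98349) (nat_lit 24) (.e (nat_lit 409648) (nat_lit 18) (.e (nat_lit 303109) (nat_lit 0) .nil))))) (.g (nat_lit 0) (.e (nat_lit 401535) (nat_lit 0) .nil) .nil))) 
(.lf (nat_lit 592445) (.g (nat_lit 2345) (.e (nat_lit 532550) (nat_lit 12) (.e (nat_lit 360475) (nat_lit 8) (.e (nat_lit 557086) (nat_lit 11) (.e (nat_lit 24616) (nat_lit 7) (.e (nat_lit 319504) (nat_lit 10) (.e (nat_lit 7936) (nat_lit 45) .nil)))))) (.g (nat_lit 1) (.e (nat_lit 402311) (nat_lit 0) .nil) .nil)))) (.nd (nat_lit 9) 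
(.lf (nat_lit 592189) (.g (nat_lit 3001) (.e (nat_lit 532550) (nat_lit 12) (.e (nat_lit 360474) (nat_lit 8) (.e (nat_lit 557085) (nat_lit 11) (.e (nat_lit 24616) (nat_lit 7) (.e (nat_lit 319504) (nat_lit 10) (.e (nat_lit 7936) (nat_lit 45) .nil)))))) (.g (nat_lit 1) (.e (nat_lit 402034) (nat_lit 0) .nil) .nil))) 
(.lf (nat_lit 592701) (.g (nat_lit 1302) (.e (nat_lit 532558) (nat_lit 14) (.e (nat_lit 376842) (nat_lit 11) (.e (nat_lit 426098) (nat_lit 1) (.e (nat_lit 164151) (nat_lit 152) .nil)))) (.g (nat_lit 0) (.e (nat_lit 402689) (nat_lit 0) .nil) .nil))))) (.nd (nat_lit 8) (.nd (nat_lit 9) 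
(.lf (nat_lit 592061) (.g (nat_lit 1213) (.e (nat_lit 532549) (nat_lit 12) (.e (nat_lit 360473) (nat_lit 8) (.e (nat_lit 557091) (nat_lit 12) (.e (nat_lit 164022) (nat_lit 46) .nil)))) (.g (nat_lit 0) (.e (nat_lit 401758) (nat_lit 0) .nil) .nil))) 
(.lf (nat_lit 592573) (.g (nat_lit 3655) (.e (nat_lit 532550) (nat_lit 12) (.e (nat_lit 360475) (nat_lit 8) (.e (nat_lit 557091) (nat_lit 12) (.e (nat_lit 164022) (nat_lit 46) (.e (nat_lit 704737) (nat_lit 11) (.e (nat_lit 16389) (nat_lit 0) (.e (nat_lit 3230) (nat_lit 197) .nil))))))) (.g (nat_lit 1) (.e (nat_lit 402447) (nat_lit 0) .nil) .nil)))) (.nd (nat_lit 9) 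
(.lf (nat_lit 592317) (.g (nat_lit 4982) (.e (nat_lit 532550) (nat_lit 12) (.e (nat_lit 360474) (nat_lit 8) (.e (nat_lit 557093) (nat_lit 12) (.e (nat_lit 164022) (nat_lit 46) (.e (nat_lit 704738) (nat_lit 11) (.e (nat_lit 16399) (nat_lit 0) (.e (nat_lit 3251) (nat_lit 197) .nil))))))) (.g (nat_lit 1) (.e (nat_lit 402167) (nat_lit 0) .nil) .nil))) 
(.lf (nat_lit 592829) (.g (nat_lit 779) (.e (nat_lit 532561) (nat_lit 14) (.e (nat_lit 376867) (nat_lit 23) (.e (nat_lit 98349) (nat_lit 24) (.e (nat_lit 417536) (nat_lit 18) .nil)))) (.g (nat_lit 0) (.e (nat_lit 403021) (nat_lit 0) .nil) .nil)))))) (.nd (nat_lit 7) (.nd (nat_lit 8) (.nd (nat_lit 9) 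
(.lf (nat_lit 591997) (.g (nat_lit 2343) (.e (nat_lit 532549) (nat_lit 12) (.e (nat_lit 360467) (nat_lit 3) (.e (nat_lit 516139) (nat_lit 7) (.e (nat_lit 409609) (nat_lit 10) .nil)))) (.g (nat_lit 0) (.e (nat_lit 401672) (nat_lit 0) .nil) .nil))) 
(.lf (nat_lit 592509) (.g (nat_lit 4374) (.e (nat_lit 532550) (nat_lit 12) (.e (nat_lit 360475) (nat_lit 8) (.e (nat_lit 557091) (nat_lit 12) (.e (nat_lit 163843) (nat_lit 0) (.e (nat_lit 6255) (nat_lit 337) (.e (nat_lit 2641) (nat_lit 165) (.e (nat_lit 180242) (nat_lit 5) .nil))))))) (.g (nat_lit 1) (.e (nat_lit 402380) (nat_lit 0) .nil) .nil)))) (.nd (nat_lit 9) 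
(.lf (nat_lit 592253) (.g (nat_lit 3954) (.e (nat_lit 532550) (nat_lit 12) (.e (nat_lit 360474) (nat_lit 8) (.e (nat_lit 557093) (nat_lit 12) (.e (nat_lit 164022) (nat_lit 46) (.e (nat_lit 704737) (nat_lit 11) (.e (nat_lit 16384) (nat_lit 0) (.e (nat_lit 3241) (nat_lit 197) .nil))))))) (.g (nat_lit 1) (.e (nat_lit 402103) (nat_lit 0) .nil) .nil))) 
(.lf (nat_lit 592765) (.g (nat_lit 1158) (.e (nat_lit 532560) (nat_lit 14) (.e (nat_lit 376842) (nat_lit 11) (.e (nat_lit 426408) (nat_lit 15) (.e (nat_lit 6216) (nat_lit 333) .nil)))) (.g (nat_lit 0) (.e (nat_lit 402863) (nat_lit 0) .nil) .nil))))) (.nd (nat_lit 8) (.nd (nat_lit 9) 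
(.lf (nat_lit 592125) (.g (nat_lit 2646) (.e (nat_lit 532550) (nat_lit 12) (.e (nat_lit 360466) (nat_lit 3) (.e (nat_lit 516139) (nat_lit 7) (.e (nat_lit 409616) (nat_lit 10) (.e (nat_lit 5757) (nat_lit 315) .nil))))) (.g (nat_lit 0) (.e (nat_lit 401911) (nat_lit 0) .nil) .nil))) 
(.lf (nat_lit 592637) (.g (nat_lit 1914) (.e (nat_lit 532551) (nat_lit 12) (.e (nat_lit 360467) (nat_lit 3) (.e (nat_lit 516138) (nat_lit 7) (.e (nat_lit 409644) (nat_lit 18) (.e (nat_lit 303112) (nat_lit 0) .nil))))) (.g (nat_lit 0) (.e (nat_lit 402527) (nat_lit 0) .nil) .nil)))) (.nd (nat_lit 9) 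
(.lf (nat_lit 592381) (.g (nat_lit 3680) (.e (nat_lit 532550) (nat_lit 12) (.e (nat_lit 360474) (nat_lit 8) (.e (nat_lit 557094) (nat_lit 12) (.e (nat_lit 164022) (nat_lit 46) (.e (nat_lit 704736) (nat_lit 11) (.e (nat_lit 16400) (nat_lit 0) (.e (nat_lit 3230) (nat_lit 197) .nil))))))) (.g (nat_lit 1) (.e (nat_lit 402231) (nat_lit 0) .nil) .nil))) 
(.lf (nat_lit 592893) (.g (nat_lit 3345) (.e (nat_lit 532563) (nat_lit 15) (.e (nat_lit 385068) (nat_lit 26) (.e (nat_lit 532534) (nat_lit 9) (.e (nat_lit 336324) (nat_lit 18) (.e (nat_lit 204854) (nat_lit 26) (.e (nat_lit 336306) (nat_lit 15) (.e (nat_lit 3238) (nat_lit 197) .nil))))))) (.g (nat_lit 1) (.e (nat_lit 403119) (nat_lit 0) .nil) .nil))))))))))) 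
(.nd (nat_lit 2) (.nd (nat_lit 3) (.nd (nat_lit 4) (.nd (nat_lit 5) (.nd (nat_lit 6) 
(.nd (nat_lit 7) (.nd (nat_lit 8) (.nd (nat_lit 9) 
(.lf (nat_lit 591875) (.g (nat_lit 3096) (.e (nat_lit 532546) (nat_lit 11) (.e (nat_lit 352315) (nat_lit 23) (.e (nat_lit 98350) (nat_lit 24) (.e (nat_lit 409616) (nat_lit 10) (.e (nat_lit 5756) (nat_lit 315) .nil))))) (.g (nat_lit 0) (.e (nat_lit 401382) (nat_lit 0) .nil) .nil))) 
(.lf (nat_lit 592387) (.g (nat_lit 3633) (.e (nat_lit 532550) (nat_lit 12) (.e (nat_lit 360474) (nat_lit 8) (.e (nat_lit 557094) (nat_lit 12) (.e (nat_lit 164022) (nat_lit 46) (.e (nat_lit 704737) (nat_lit 11) (.e (nat_lit 16385) (nat_lit 0) (.e (nat_lit 3241) (nat_lit 197) .nil))))))) (.g (nat_lit 1) (.e (nat_lit 402237) (nat_lit 0) .nil) .nil)))) (.nd (nat_lit 9) 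
(.lf (nat_lit 592131) (.g (nat_lit 3162) (.e (nat_lit 532550) (nat_lit 12) (.e (nat_lit 360466) (nat_lit 3) (.e (nat_lit 516139) (nat_lit 7) (.e (nat_lit 409648) (nat_lit 18) (.e (nat_lit 303112) (nat_lit 0) (.e (nat_lit 3252) (nat_lit 197) .nil)))))) (.g (nat_lit 1) (.e (nat_lit 401920) (nat_lit 0) .nil) .nil))) 
(.lf (nat_lit 592643) (.g (nat_lit 2470) (.e (nat_lit 532551) (nat_lit 12) (.e (nat_lit 360467) (nat_lit 3) (.e (nat_lit 516139) (nat_lit 7) (.e (nat_lit 409617) (nat_lit 10) (.e (nat_lit 5756) (nat_lit 315) (.e (nat_lit 163962) (nat_lit 25) .nil)))))) (.g (nat_lit 1) (.e (nat_lit 402535) (nat_lit 0) .nil) .nil))))) (.nd (nat_lit 8) (.nd (nat_lit 9) 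
(.lf (nat_lit 592003) (.g (nat_lit 1797) (.e (nat_lit 532549) (nat_lit 12) (.e (nat_lit 360467) (nat_lit 3) (.e (nat_lit 516139) (nat_lit 7) (.e (nat_lit 417536) (nat_lit 10) .nil)))) (.g (nat_lit 0) (.e (nat_lit 401678) (nat_lit 0) .nil) .nil))) 
(.lf (nat_lit 592515) (.g (nat_lit 3590) (.e (nat_lit 532550) (nat_lit 12) (.e (nat_lit 360475) (nat_lit 8) (.e (nat_lit 557091) (nat_lit 12) (.e (nat_lit 163850) (nat_lit 0) (.e (nat_lit 6425) (nat_lit 342) (.e (nat_lit 229408) (nat_lit 13) (.e (nat_lit 434230) (nat_lit 23) .nil))))))) (.g (nat_lit 1) (.e (nat_lit 402387) (nat_lit 0) .nil) .nil)))) (.nd (nat_lit 9) 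
(.lf (nat_lit 592259) (.g (nat_lit 4986) (.e (nat_lit 532550) (nat_lit 12) (.e (nat_lit 360474) (nat_lit 8) (.e (nat_lit 557093) (nat_lit 12) (.e (nat_lit 164022) (nat_lit 46) (.e (nat_lit 704737) (nat_lit 11) (.e (nat_lit 16386) (nat_lit 0) (.e (nat_lit 3227) (nat_lit 197) .nil))))))) (.g (nat_lit 1) (.e (nat_lit 402109) (nat_lit 0) .nil) .nil))) 
(.lf (nat_lit 592771) (.g (nat_lit 1795) (.e (nat_lit 532560) (nat_lit 14) (.e (nat_lit 376862) (nat_lit 22) (.e (nat_lit 90185) (nat_lit 17) (.e (nat_lit 237573) (nat_lit 0) .nil)))) (.g (nat_lit 0) (.e (nat_lit 402880) (nat_lit 0) .nil) .nil)))))) (.nd (nat_lit 7) (.nd (nat_lit 8) (.nd (nat_lit 9) 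
(.lf (nat_lit 591939) (.g (nat_lit 3149) (.e (nat_lit 532547) (nat_lit 11) (.e (nat_lit 352315) (nat_lit 23) (.e (nat_lit 98350) (nat_lit 24) (.e (nat_lit 409616) (nat_lit 10) (.e (nat_lit 5758) (nat_lit 315) .nil))))) (.g (nat_lit 0) (.e (nat_lit 401545) (nat_lit 0) .nil) .nil))) 
(.lf (nat_lit 592451) (.g (nat_lit 1220) (.e (nat_lit 532550) (nat_lit 12) (.e (nat_lit 360475) (nat_lit 8) (.e (nat_lit 557086) (nat_lit 11) (.e (nat_lit 24622) (nat_lit 8) .nil)))) (.g (nat_lit 0) (.e (nat_lit 402319) (nat_lit 0) .nil) .nil)))) (.nd (nat_lit 9) 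
(.lf (nat_lit 592195) (.g (nat_lit 2525) (.e (nat_lit 532550) (nat_lit 12) (.e (nat_lit 360474) (nat_lit 8) (.e (nat_lit 557085) (nat_lit 11) (.e (nat_lit 24622) (nat_lit 8) (.e (nat_lit 327708) (nat_lit 10) (.e (nat_lit 7936) (nat_lit 45) .nil)))))) (.g (nat_lit 1) (.e (nat_lit 402045) (nat_lit 0) .nil) .nil))) 
(.lf (nat_lit 592707) (.g (nat_lit 1493) (.e (nat_lit 532558) (nat_lit 14) (.e (nat_lit 376867) (nat_lit 23) (.e (nat_lit 98350) (nat_lit 24) (.e (nat_lit 409616) (nat_lit 10) .nil)))) (.g (nat_lit 0) (.e (nat_lit 402716) (nat_lit 0) .nil) .nil))))) (.nd (nat_lit 8) (.nd (nat_lit 9) 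
(.lf (nat_lit 592067) (.g (nat_lit 405) (.e (nat_lit 532549) (nat_lit 12) (.e (nat_lit 360473) (nat_lit 8) (.e (nat_lit 557093) (nat_lit 12) .nil))) (.g (nat_lit 0) (.e (nat_lit 401765) (nat_lit 0) .nil) .nil))) 
(.lf (nat_lit 592579) (.g (nat_lit 4525) (.e (nat_lit 532550) (nat_lit 12) (.e (nat_lit 360475) (nat_lit 8) (.e (nat_lit 557091) (nat_lit 12) (.e (nat_lit 164022) (nat_lit 46) (.e (nat_lit 704737) (nat_lit 11) (.e (nat_lit 16397) (nat_lit 0) (.e (nat_lit 3230) (nat_lit 197) .nil))))))) (.g (nat_lit 1) (.e (nat_lit 402453) (nat_lit 0) .nil) .nil)))) (.nd (nat_lit 9) 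
(.lf (nat_lit 592323) (.g (nat_lit 3161) (.e (nat_lit 532550) (nat_lit 12) (.e (nat_lit 360474) (nat_lit 8) (.e (nat_lit 557093) (nat_lit 12) (.e (nat_lit 164022) (nat_lit 46) (.e (nat_lit 704738) (nat_lit 11) (.e (nat_lit 16403) (nat_lit 0) (.e (nat_lit 7936) (nat_lit 197) .nil))))))) (.g (nat_lit 1) (.e (nat_lit 402173) (nat_lit 0) .nil) .nil))) 
(.lf (nat_lit 592835) (.g (nat_lit 1886) (.e (nat_lit 532562) (nat_lit 15) (.e (nat_lit 385066) (nat_lit 26) (.e (nat_lit 532534) (nat_lit 9) (.e (nat_lit 336324) (nat_lit 18) .nil)))) (.g (nat_lit 0) (.e (nat_lit 403027) (nat_lit 0) .nil) .nil))))))) (.nd (nat_lit 6) (.nd (nat_lit 7) (.nd (nat_lit 8) (.nd (nat_lit 9) 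
(.lf (nat_lit 591907) (.g (nat_lit 2446) (.e (nat_lit 532547) (nat_lit 11) (.e (nat_lit 352313) (nat_lit 23) (.e (nat_lit 98350) (nat_lit 24) (.e (nat_lit 409617) (nat_lit 10) (.e (nat_lit 5757) (nat_lit 315) .nil))))) (.g (nat_lit 0) (.e (nat_lit 401490) (nat_lit 0) .nil) .nil))) 
(.lf (nat_lit 592419) (.g (nat_lit 5160) (.e (nat_lit 532550) (nat_lit 12) (.e (nat_lit 360474) (nat_lit 8) (.e (nat_lit 557094) (nat_lit 12) (.e (nat_lit 164022) (nat_lit 46) (.e (nat_lit 704738) (nat_lit 11) (.e (nat_lit 16390) (nat_lit 0) (.e (nat_lit 3242) (nat_lit 197) .nil))))))) (.g (nat_lit 1) (.e (nat_lit 402269) (nat_lit 0) .nil) .nil)))) (.nd (nat_lit 9) 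
(.lf (nat_lit 592163) (.g (nat_lit 3090) (.e (nat_lit 532550) (nat_lit 12) (.e (nat_lit 368384) (nat_lit 3) (.e (nat_lit 516139) (nat_lit 7) (.e (nat_lit 409646) (nat_lit 18) (.e (nat_lit 303112) (nat_lit 0) (.e (nat_lit 3252) (nat_lit 197) .nil)))))) (.g (nat_lit 1) (.e (nat_lit 401978) (nat_lit 0) .nil) .nil))) 
(.lf (nat_lit 592675) (.g (nat_lit 1458) (.e (nat_lit 532553) (nat_lit 13) (.e (nat_lit 368676) (nat_lit 21) (.e (nat_lit 516131) (nat_lit 3) (.e (nat_lit 221211) (nat_lit 22) (.e (nat_lit 196616) (nat_lit 0) .nil))))) (.g (nat_lit 0) (.e (nat_lit 402587) (nat_lit 0) .nil) .nil))))) (.nd (nat_lit 8) (.nd (nat_lit 9) 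
(.lf (nat_lit 592035) (.g (nat_lit 2845) (.e (nat_lit 532549) (nat_lit 12) (.e (nat_lit 360473) (nat_lit 8) (.e (nat_lit 557087) (nat_lit 11) (.e (nat_lit 24589) (nat_lit 0) (.e (nat_lit 7936) (nat_lit 360) .nil))))) (.g (nat_lit 0) (.e (nat_lit 401725) (nat_lit 0) .nil) .nil))) 
(.lf (nat_lit 592547) (.g (nat_lit 5435) (.e (nat_lit 532550) (nat_lit 12) (.e (nat_lit 360475) (nat_lit 8) (.e (nat_lit 557091) (nat_lit 12) (.e (nat_lit 164022) (nat_lit 46) (.e (nat_lit 704736) (nat_lit 11) (.e (nat_lit 16385) (nat_lit 0) (.e (nat_lit 3241) (nat_lit 197) .nil))))))) (.g (nat_lit 1) (.e (nat_lit 402421) (nat_lit 0) .nil) .nil)))) (.nd (nat_lit 9) 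
(.lf (nat_lit 592291) (.g (nat_lit 3723) (.e (nat_lit 532550) (nat_lit 12) (.e (nat_lit 360474) (nat_lit 8) (.e (nat_lit 557093) (nat_lit 12) (.e (nat_lit 164022) (nat_lit 46) (.e (nat_lit 704738) (nat_lit 11) (.e (nat_lit 16386) (nat_lit 0) (.e (nat_lit 7936) (nat_lit 197) .nil))))))) (.g (nat_lit 1) (.e (nat_lit 402141) (nat_lit 0) .nil) .nil))) 
(.lf (nat_lit 592803) (.g (nat_lit 1065) (.e (nat_lit 532560) (nat_lit 14) (.e (nat_lit 376869) (nat_lit 23) (.e (nat_lit 98350) (nat_lit 24) (.e (nat_lit 409616) (nat_lit 10) .nil)))) (.g (nat_lit 0) (.e (nat_lit 402952) (nat_lit 0) .nil) .nil)))))) (.nd (nat_lit 7) (.nd (nat_lit 8) (.nd (nat_lit 9) 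
(.lf (nat_lit 591971) (.g (nat_lit 1536) (.e (nat_lit 532548) (nat_lit 11) (.e (nat_lit 352315) (nat_lit 23) (.e (nat_lit 98350) (nat_lit 24) (.e (nat_lit 417536) (nat_lit 18) .nil)))) (.g (nat_lit 0) (.e (nat_lit 401628) (nat_lit 0) .nil) .nil))) 
(.lf (nat_lit 592483) (.g (nat_lit 1438) (.e (nat_lit 532550) (nat_lit 12) (.e (nat_lit 360475) (nat_lit 8) (.e (nat_lit 557087) (nat_lit 11) (.e (nat_lit 24665) (nat_lit 14) (.e (nat_lit 401408) (nat_lit 0) .nil))))) (.g (nat_lit 0) (.e (nat_lit 402353) (nat_lit 0) .nil) .nil)))) (.nd (nat_lit 9) 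
(.lf (nat_lit 592227) (.g (nat_lit 4205) (.e (nat_lit 532550) (nat_lit 12) (.e (nat_lit 360474) (nat_lit 8) (.e (nat_lit 557093) (nat_lit 12) (.e (nat_lit 164022) (nat_lit 46) (.e (nat_lit 704629) (nat_lit 9) (.e (nat_lit 449) (nat_lit 33) (.e (nat_lit 434230) (nat_lit 23) .nil))))))) (.g (nat_lit 1) (.e (nat_lit 402077) (nat_lit 0) .nil) .nil))) 
(.lf (nat_lit 592739) (.g (nat_lit 2363) (.e (nat_lit 532559) (nat_lit 14) (.e (nat_lit 376868) (nat_lit 23) (.e (nat_lit 98350) (nat_lit 24) (.e (nat_lit 409616) (nat_lit 10) (.e (nat_lit 5763) (nat_lit 315) .nil))))) (.g (nat_lit 0) (.e (nat_lit 402797) (nat_lit 0) .nil) .nil))))) (.nd (nat_lit 8) (.nd (nat_lit 9) 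
(.lf (nat_lit 592099) (.g (nat_lit 3728) (.e (nat_lit 532549) (nat_lit 12) (.e (nat_lit 360475) (nat_lit 8) (.e (nat_lit 557087) (nat_lit 11) (.e (nat_lit 24662) (nat_lit 14) (.e (nat_lit 401414) (nat_lit 0) (.e (nat_lit 3238) (nat_lit 197) .nil)))))) (.g (nat_lit 1) (.e (nat_lit 401803) (nat_lit 0) .nil) .nil))) 
(.lf (nat_lit 592611) (.g (nat_lit 5799) (.e (nat_lit 532550) (nat_lit 12) (.e (nat_lit 360475) (nat_lit 8) (.e (nat_lit 557091) (nat_lit 12) (.e (nat_lit 164022) (nat_lit 46) (.e (nat_lit 704738) (nat_lit 11) (.e (nat_lit 16396) (nat_lit 0) (.e (nat_lit 3230) (nat_lit 197) .nil))))))) (.g (nat_lit 1) (.e (nat_lit 402485) (nat_lit 0) .nil) .nil)))) (.nd (nat_lit 9) 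
(.lf (nat_lit 592355) (.g (nat_lit 5493) (.e (nat_lit 532550) (nat_lit 12) (.e (nat_lit 360474) (nat_lit 8) (.e (nat_lit 557094) (nat_lit 12) (.e (nat_lit 164022) (nat_lit 46) (.e (nat_lit 704628) (nat_lit 9) (.e (nat_lit 473) (nat_lit 36) (.e (nat_lit 458787) (nat_lit 23) .nil))))))) (.g (nat_lit 1) (.e (nat_lit 402205) (nat_lit 0) .nil) .nil))) 
(.lf (nat_lit 592867) (.g (nat_lit 3640) (.e (nat_lit 532563) (nat_lit 15) (.e (nat_lit 385066) (nat_lit 26) (.e (nat_lit 532534) (nat_lit 9) (.e (nat_lit 336316) (nat_lit 17) (.e (nat_lit 196665) (nat_lit 13) (.e (nat_lit 65637) (nat_lit 15) (.e (nat_lit 3253) (nat_lit 197) .nil))))))) (.g (nat_lit 1) (.e (nat_lit 403083) (nat_lit 0) .nil) .nil)))))))) 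
(.nd (nat_lit 5) (.nd (nat_lit 6) (.nd (nat_lit 7) (.nd (nat_lit 8) (.nd (nat_lit 9) 
(.lf (nat_lit 591891) (.g (nat_lit 3759) (.e (nat_lit 532547) (nat_lit 11) (.e (nat_lit 352296) (nat_lit 20) (.e (nat_lit 1849) (nat_lit 124) (.e (nat_lit 557087) (nat_lit 11) (.e (nat_lit 24617) (nat_lit 7) (.e (nat_lit 319504) (nat_lit 10) (.e (nat_lit 7936) (nat_lit 45) .nil))))))) (.g (nat_lit 1) (.e (nat_lit 401438) (nat_lit 0) .nil) .nil))) 
(.lf (nat_lit 592403) (.g (nat_lit 4058) (.e (nat_lit 532550) (nat_lit 12) (.e (nat_lit 360474) (nat_lit 8) (.e (nat_lit 557094) (nat_lit 12) (.e (nat_lit 164022) (nat_lit 46) (.e (nat_lit 704738) (nat_lit 11) (.e (nat_lit 16384) (nat_lit 0) (.e (nat_lit 3230) (nat_lit 197) .nil))))))) (.g (nat_lit 1) (.e (nat_lit 402253) (nat_lit 0) .nil) .nil)))) (.nd (nat_lit 9) 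
(.lf (nat_lit 592147) (.g (nat_lit 3256) (.e (nat_lit 532550) (nat_lit 12) (.e (nat_lit 360467) (nat_lit 3) (.e (nat_lit 516139) (nat_lit 7) (.e (nat_lit 409649) (nat_lit 18) (.e (nat_lit 303107) (nat_lit 0) .nil))))) (.g (nat_lit 0) (.e (nat_lit 401948) (nat_lit 0) .nil) .nil))) 
(.lf (nat_lit 592659) (.g (nat_lit 514) (.e (nat_lit 532551) (nat_lit 12) (.e (nat_lit 360471) (nat_lit 7) (.e (nat_lit 548870) (nat_lit 5) .nil))) (.g (nat_lit 0) (.e (nat_lit 402556) (nat_lit 0) .nil) .nil))))) (.nd (nat_lit 8) (.nd (nat_lit 9) 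
(.lf (nat_lit 592019) (.g (nat_lit 3153) (.e (nat_lit 532549) (nat_lit 12) (.e (nat_lit 360473) (nat_lit 8) (.e (nat_lit 557067) (nat_lit 9) (.e (nat_lit 214) (nat_lit 19) (.e (nat_lit 319492) (nat_lit 0) .nil))))) (.g (nat_lit 0) (.e (nat_lit 401697) (nat_lit 0) .nil) .nil))) 
(.lf (nat_lit 592531) (.g (nat_lit 5026) (.e (nat_lit 532550) (nat_lit 12) (.e (nat_lit 360475) (nat_lit 8) (.e (nat_lit 557091) (nat_lit 12) (.e (nat_lit 164022) (nat_lit 46) (.e (nat_lit 704629) (nat_lit 9) (.e (nat_lit 471) (nat_lit 36) (.e (nat_lit 458787) (nat_lit 23) .nil))))))) (.g (nat_lit 1) (.e (nat_lit 402404) (nat_lit 0) .nil) .nil)))) (.nd (nat_lit 9) 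
(.lf (nat_lit 592275) (.g (nat_lit 4436) (.e (nat_lit 532550) (nat_lit 12) (.e (nat_lit 360474) (nat_lit 8) (.e (nat_lit 557093) (nat_lit 12) (.e (nat_lit 164022) (nat_lit 46) (.e (nat_lit 704738) (nat_lit 11) (.e (nat_lit 16384) (nat_lit 0) (.e (nat_lit 3230) (nat_lit 197) .nil))))))) (.g (nat_lit 1) (.e (nat_lit 402125) (nat_lit 0) .nil) .nil))) 
(.lf (nat_lit 592787) (.g (nat_lit 2315) (.e (nat_lit 532560) (nat_lit 14) (.e (nat_lit 376868) (nat_lit 23) (.e (nat_lit 98350) (nat_lit 24) (.e (nat_lit 409617) (nat_lit 10) (.e (nat_lit 7936) (nat_lit 318) (.e (nat_lit 229433) (nat_lit 25) .nil)))))) (.g (nat_lit 1) (.e (nat_lit 402930) (nat_lit 0) .nil) .nil)))))) (.nd (nat_lit 7) (.nd (nat_lit 8) (.nd (nat_lit 9) 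
(.lf (nat_lit 591955) (.g (nat_lit 2517) (.e (nat_lit 532547) (nat_lit 11) (.e (nat_lit 352315) (nat_lit 23) (.e (nat_lit 98350) (nat_lit 24) (.e (nat_lit 409649) (nat_lit 18) (.e (nat_lit 303107) (nat_lit 0) .nil))))) (.g (nat_lit 0) (.e (nat_lit 401564) (nat_lit 0) .nil) .nil))) 
(.lf (nat_lit 592467) (.g (nat_lit 2233) (.e (nat_lit 532550) (nat_lit 12) (.e (nat_lit 360475) (nat_lit 8) (.e (nat_lit 557087) (nat_lit 11) (.e (nat_lit 24577) (nat_lit 0) (.e (nat_lit 7936) (nat_lit 360) .nil))))) (.g (nat_lit 0) (.e (nat_lit 402337) (nat_lit 0) .nil) .nil)))) (.nd (nat_lit 9) 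
(.lf (nat_lit 592211) (.g (nat_lit 6918) (.e (nat_lit 532550) (nat_lit 12) (.e (nat_lit 360474) (nat_lit 8) (.e (nat_lit 557087) (nat_lit 11) (.e (nat_lit 24617) (nat_lit 7) (.e (nat_lit 319505) (nat_lit 10) (.e (nat_lit 7936) (nat_lit 45) .nil)))))) (.g (nat_lit 1) (.e (nat_lit 402061) (nat_lit 0) .nil) .nil))) 
(.lf (nat_lit 592723) (.g (nat_lit 2745) (.e (nat_lit 532558) (nat_lit 14) (.e (nat_lit 376869) (nat_lit 23) (.e (nat_lit 98349) (nat_lit 24) (.e (nat_lit 409645) (nat_lit 18) (.e (nat_lit 303112) (nat_lit 0) (.e (nat_lit 3252) (nat_lit 197) .nil)))))) (.g (nat_lit 1) (.e (nat_lit 402739) (nat_lit 0) .nil) .nil))))) (.nd (nat_lit 8) (.nd (nat_lit 9) 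
(.lf (nat_lit 592083) (.g (nat_lit 1667) (.e (nat_lit 532549) (nat_lit 12) (.e (nat_lit 360474) (nat_lit 8) (.e (nat_lit 557085) (nat_lit 11) (.e (nat_lit 24580) (nat_lit 0) (.e (nat_lit 6714) (nat_lit 360) .nil))))) (.g (nat_lit 0) (.e (nat_lit 401781) (nat_lit 0) .nil) .nil))) 
(.lf (nat_lit 592595) (.g (nat_lit 5446) (.e (nat_lit 532550) (nat_lit 12) (.e (nat_lit 360475) (nat_lit 8) (.e (nat_lit 557091) (nat_lit 12) (.e (nat_lit 164022) (nat_lit 46) (.e (nat_lit 704738) (nat_lit 11) (.e (nat_lit 16385) (nat_lit 0) (.e (nat_lit 3237) (nat_lit 197) .nil))))))) (.g (nat_lit 1) (.e (nat_lit 402469) (nat_lit 0) .nil) .nil)))) (.nd (nat_lit 9) 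
(.lf (nat_lit 592339) (.g (nat_lit 6249) (.e (nat_lit 532550) (nat_lit 12) (.e (nat_lit 360474) (nat_lit 8) (.e (nat_lit 557093) (nat_lit 12) (.e (nat_lit 164023) (nat_lit 46) (.e (nat_lit 704737) (nat_lit 11) (.e (nat_lit 16388) (nat_lit 0) (.e (nat_lit 3227) (nat_lit 197) .nil))))))) (.g (nat_lit 1) (.e (nat_lit 402189) (nat_lit 0) .nil) .nil))) 
(.lf (nat_lit 592851) (.g (nat_lit 2630) (.e (nat_lit 532563) (nat_lit 15) (.e (nat_lit 385066) (nat_lit 26) (.e (nat_lit 532530) (nat_lit 9) (.e (nat_lit 336326) (nat_lit 18) (.e (nat_lit 204854) (nat_lit 26) (.e (nat_lit 336247) (nat_lit 15) (.e (nat_lit 3231) (nat_lit 197) .nil))))))) (.g (nat_lit 1) (.e (nat_lit 403060) (nat_lit 0) .nil) .nil))))))) 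
(.nd (nat_lit 6) (.nd (nat_lit 7) (.nd (nat_lit 8) (.nd (nat_lit 9) 
(.lf (nat_lit 591923) (.g (nat_lit 2210) (.e (nat_lit 532547) (nat_lit 11) (.e (nat_lit 352315) (nat_lit 23) (.e (nat_lit 98349) (nat_lit 24) (.e (nat_lit 409617) (nat_lit 10) (.e (nat_lit 5756) (nat_lit 315) .nil))))) (.g (nat_lit 0) (.e (nat_lit 401521) (nat_lit 0) .nil) .nil))) 
(.lf (nat_lit 592435) (.g (nat_lit 3317) (.e (nat_lit 532550) (nat_lit 12) (.e (nat_lit 360474) (nat_lit 8) (.e (nat_lit 557094) (nat_lit 12) (.e (nat_lit 164022) (nat_lit 46) (.e (nat_lit 704738) (nat_lit 11) (.e (nat_lit 16403) (nat_lit 0) (.e (nat_lit 7936) (nat_lit 197) .nil))))))) (.g (nat_lit 1) (.e (nat_lit 402285) (nat_lit 0) .nil) .nil)))) (.nd (nat_lit 9) 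
(.lf (nat_lit 592179) (.g (nat_lit 1323) (.e (nat_lit 532550) (nat_lit 12) (.e (nat_lit 360473) (nat_lit 8) (.e (nat_lit 557089) (nat_lit 12) (.e (nat_lit 163850) (nat_lit 0) .nil)))) (.g (nat_lit 0) (.e (nat_lit 402005) (nat_lit 0) .nil) .nil))) 
(.lf (nat_lit 592691) (.g (nat_lit 954) (.e (nat_lit 532555) (nat_lit 13) (.e (nat_lit 368676) (nat_lit 21) (.e (nat_lit 516097) (nat_lit 0) .nil))) (.g (nat_lit 0) (.e (nat_lit 402627) (nat_lit 0) .nil) .nil))))) (.nd (nat_lit 8) (.nd (nat_lit 9) 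
(.lf (nat_lit 592051) (.g (nat_lit 1376) (.e (nat_lit 532549) (nat_lit 12) (.e (nat_lit 360473) (nat_lit 8) (.e (nat_lit 557089) (nat_lit 12) (.e (nat_lit 164018) (nat_lit 45) .nil)))) (.g (nat_lit 0) (.e (nat_lit 401744) (nat_lit 0) .nil) .nil))) 
(.lf (nat_lit 592563) (.g (nat_lit 5368) (.e (nat_lit 532550) (nat_lit 12) (.e (nat_lit 360475) (nat_lit 8) (.e (nat_lit 557091) (nat_lit 12) (.e (nat_lit 164022) (nat_lit 46) (.e (nat_lit 704737) (nat_lit 11) (.e (nat_lit 16384) (nat_lit 0) (.e (nat_lit 3241) (nat_lit 197) .nil))))))) (.g (nat_lit 1) (.e (nat_lit 402437) (nat_lit 0) .nil) .nil)))) (.nd (nat_lit 9) 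
(.lf (nat_lit 592307) (.g (nat_lit 5419) (.e (nat_lit 532550) (nat_lit 12) (.e (nat_lit 360474) (nat_lit 8) (.e (nat_lit 557093) (nat_lit 12) (.e (nat_lit 164022) (nat_lit 46) (.e (nat_lit 704738) (nat_lit 11) (.e (nat_lit 16390) (nat_lit 0) (.e (nat_lit 3250) (nat_lit 197) .nil))))))) (.g (nat_lit 1) (.e (nat_lit 402157) (nat_lit 0) .nil) .nil))) 
(.lf (nat_lit 592819) (.g (nat_lit 412) (.e (nat_lit 532561) (nat_lit 14) (.e (nat_lit 376862) (nat_lit 22) (.e (nat_lit 90172) (nat_lit 14) .nil))) (.g (nat_lit 0) (.e (nat_lit 403002) (nat_lit 0) .nil) .nil)))))) (.nd (nat_lit 7) (.nd (nat_lit 8) (.nd (nat_lit 9) 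
(.lf (nat_lit 591987) (.g (nat_lit 1984) (.e (nat_lit 532549) (nat_lit 12) (.e (nat_lit 360466) (nat_lit 3) (.e (nat_lit 516139) (nat_lit 7) (.e (nat_lit 409648) (nat_lit 18) (.e (nat_lit 303108) (nat_lit 0) .nil))))) (.g (nat_lit 0) (.e (nat_lit 401655) (nat_lit 0) .nil) .nil))) 
(.lf (nat_lit 592499) (.g (nat_lit 5004) (.e (nat_lit 532550) (nat_lit 12) (.e (nat_lit 360475) (nat_lit 8) (.e (nat_lit 557089) (nat_lit 12) (.e (nat_lit 163850) (nat_lit 0) (.e (nat_lit 6273) (nat_lit 337) (.e (nat_lit 2636) (nat_lit 165) (.e (nat_lit 180242) (nat_lit 5) .nil))))))) (.g (nat_lit 1) (.e (nat_lit 402369) (nat_lit 0) .nil) .nil)))) (.nd (nat_lit 9) 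
(.lf (nat_lit 592243) (.g (nat_lit 3040) (.e (nat_lit 532550) (nat_lit 12) (.e (nat_lit 360474) (nat_lit 8) (.e (nat_lit 557093) (nat_lit 12) (.e (nat_lit 164022) (nat_lit 46) (.e (nat_lit 704736) (nat_lit 11) (.e (nat_lit 16388) (nat_lit 0) (.e (nat_lit 7936) (nat_lit 197) .nil))))))) (.g (nat_lit 1) (.e (nat_lit 402093) (nat_lit 0) .nil) .nil))) 
(.lf (nat_lit 592755) (.g (nat_lit 2407) (.e (nat_lit 532559) (nat_lit 14) (.e (nat_lit 376869) (nat_lit 23) (.e (nat_lit 98350) (nat_lit 24) (.e (nat_lit 409617) (nat_lit 10) (.e (nat_lit 5756) (nat_lit 315) .nil))))) (.g (nat_lit 0) (.e (nat_lit 402815) (nat_lit 0) .nil) .nil))))) (.nd (nat_lit 8) (.nd (nat_lit 9) 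
(.lf (nat_lit 592115) (.g (nat_lit 2280) (.e (nat_lit 532549) (nat_lit 12) (.e (nat_lit 360475) (nat_lit 8) (.e (nat_lit 557091) (nat_lit 12) (.e (nat_lit 164022) (nat_lit 46) (.e (nat_lit 704738) (nat_lit 11) .nil))))) (.g (nat_lit 0) (.e (nat_lit 401822) (nat_lit 0) .nil) .nil))) 
(.lf (nat_lit 592627) (.g (nat_lit 989) (.e (nat_lit 532550) (nat_lit 12) (.e (nat_lit 360475) (nat_lit 8) (.e (nat_lit 557093) (nat_lit 12) .nil))) (.g (nat_lit 0) (.e (nat_lit 402501) (nat_lit 0) .nil) .nil)))) (.nd (nat_lit 9) 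
(.lf (nat_lit 592371) (.g (nat_lit 3716) (.e (nat_lit 532550) (nat_lit 12) (.e (nat_lit 360474) (nat_lit 8) (.e (nat_lit 557094) (nat_lit 12) (.e (nat_lit 164022) (nat_lit 46) (.e (nat_lit 704736) (nat_lit 11) (.e (nat_lit 16385) (nat_lit 0) (.e (nat_lit 3241) (nat_lit 197) .nil))))))) (.g (nat_lit 1) (.e (nat_lit 402221) (nat_lit 0) .nil) .nil))) 
(.lf (nat_lit 592883) (.g (nat_lit 2603) (.e (nat_lit 532563) (nat_lit 15) (.e (nat_lit 385066) (nat_lit 26) (.e (nat_lit 532555) (nat_lit 13) (.e (nat_lit 368676) (nat_lit 21) (.e (nat_lit 516115) (nat_lit 1) (.e (nat_lit 164242) (nat_lit 195) (.e (nat_lit 2611) (nat_lit 163) (.e (nat_lit 163963) (nat_lit 25) .nil)))))))) (.g (nat_lit 1) (.e (nat_lit 403102) (nat_lit 0) .nil) .nil))))))))) 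
(.nd (nat_lit 4) (.nd (nat_lit 5) (.nd (nat_lit 6) (.nd (nat_lit 7) (.nd (nat_lit 8) 
(.nd (nat_lit 9) 
(.lf (nat_lit 591883) (.g (nat_lit 3958) (.e (nat_lit 532547) (nat_lit 11) (.e (nat_lit 352280) (nat_lit 20) (.e (nat_lit 1848) (nat_lit 124) (.e (nat_lit 557087) (nat_lit 11) (.e (nat_lit 24617) (nat_lit 7) (.e (nat_lit 319504) (nat_lit 10) (.e (nat_lit 7936) (nat_lit 45) .nil))))))) (.g (nat_lit 1) (.e (nat_lit 401429) (nat_lit 0) .nil) .nil))) 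
(.lf (nat_lit 592395) (.g (nat_lit 3707) (.e (nat_lit 532550) (nat_lit 12) (.e (nat_lit 360474) (nat_lit 8) (.e (nat_lit 557094) (nat_lit 12) (.e (nat_lit 164022) (nat_lit 46) (.e (nat_lit 704737) (nat_lit 11) (.e (nat_lit 16390) (nat_lit 0) (.e (nat_lit 3241) (nat_lit 197) .nil))))))) (.g (nat_lit 1) (.e (nat_lit 402245) (nat_lit 0) .nil) .nil)))) (.nd (nat_lit 9) 
(.lf (nat_lit 592139) (.g (nat_lit 2095) (.e (nat_lit 532550) (nat_lit 12) (.e (nat_lit 360467) (nat_lit 3) (.e (nat_lit 516139) (nat_lit 7) (.e (nat_lit 409614) (nat_lit 10) .nil)))) (.g (nat_lit 0) (.e (nat_lit 401937) (nat_lit 0) .nil) .nil))) 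
(.lf (nat_lit 592651) (.g (nat_lit 2200) (.e (nat_lit 532551) (nat_lit 12) (.e (nat_lit 360467) (nat_lit 3) (.e (nat_lit 516139) (nat_lit 7) (.e (nat_lit 409648) (nat_lit 18) (.e (nat_lit 303107) (nat_lit 0) .nil))))) (.g (nat_lit 0) (.e (nat_lit 402543) (nat_lit 0) .nil) .nil))))) (.nd (nat_lit 8) (.nd (nat_lit 9) 
(.lf (nat_lit 592011) (.g (nat_lit 2385) (.e (nat_lit 532549) (nat_lit 12) (.e (nat_lit 360468) (nat_lit 3) (.e (nat_lit 516139) (nat_lit 7) (.e (nat_lit 409617) (nat_lit 10) (.e (nat_lit 5762) (nat_lit 315) .nil))))) (.g (nat_lit 0) (.e (nat_lit 401687) (nat_lit 0) .nil) .nil))) 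
(.lf (nat_lit 592523) (.g (nat_lit 5707) (.e (nat_lit 532550) (nat_lit 12) (.e (nat_lit 360475) (nat_lit 8) (.e (nat_lit 557091) (nat_lit 12) (.e (nat_lit 164022) (nat_lit 46) (.e (nat_lit 704628) (nat_lit 9) (.e (nat_lit 473) (nat_lit 36) (.e (nat_lit 458788) (nat_lit 23) .nil))))))) (.g (nat_lit 1) (.e (nat_lit 402396) (nat_lit 0) .nil) .nil)))) (.nd (nat_lit 9) 
(.lf (nat_lit 592267) (.g (nat_lit 4908) (.e (nat_lit 532550) (nat_lit 12) (.e (nat_lit 360474) (nat_lit 8) (.e (nat_lit 557093) (nat_lit 12) (.e (nat_lit 164022) (nat_lit 46) (.e (nat_lit 704737) (nat_lit 11) (.e (nat_lit 16390) (nat_lit 0) (.e (nat_lit 3237) (nat_lit 197) .nil))))))) (.g (nat_lit 1) (.e (nat_lit 402117) (nat_lit 0) .nil) .nil))) 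
(.lf (nat_lit 592779) (.g (nat_lit 2551) (.e (nat_lit 532560) (nat_lit 14) (.e (nat_lit 376868) (nat_lit 23) (.e (nat_lit 98350) (nat_lit 24) (.e (nat_lit 409616) (nat_lit 10) (.e (nat_lit 5756) (nat_lit 315) .nil))))) (.g (nat_lit 0) (.e (nat_lit 402922) (nat_lit 0) .nil) .nil)))))) (.nd (nat_lit 7) (.nd (nat_lit 8) (.nd (nat_lit 9) 
(.lf (nat_lit 591947) (.g (nat_lit 1433) (.e (nat_lit 532547) (nat_lit 11) (.e (nat_lit 352315) (nat_lit 23) (.e (nat_lit 98350) (nat_lit 24) (.e (nat_lit 409646) (nat_lit 18) .nil)))) (.g (nat_lit 0) (.e (nat_lit 401556) (nat_lit 0) .nil) .nil))) 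
(.lf (nat_lit 592459) (.g (nat_lit 4718) (.e (nat_lit 532550) (nat_lit 12) (.e (nat_lit 360475) (nat_lit 8) (.e (nat_lit 557086) (nat_lit 11) (.e (nat_lit 24665) (nat_lit 14) (.e (nat_lit 401415) (nat_lit 0) (.e (nat_lit 3230) (nat_lit 197) .nil)))))) (.g (nat_lit 1) (.e (nat_lit 402329) (nat_lit 0) .nil) .nil)))) (.nd (nat_lit 9) 
(.lf (nat_lit 592203) (.g (nat_lit 5543) (.e (nat_lit 532550) (nat_lit 12) (.e (nat_lit 360474) (nat_lit 8) (.e (nat_lit 557085) (nat_lit 11) (.e (nat_lit 24665) (nat_lit 14) (.e (nat_lit 401417) (nat_lit 0) (.e (nat_lit 3234) (nat_lit 197) .nil)))))) (.g (nat_lit 1) (.e (nat_lit 402053) (nat_lit 0) .nil) .nil))) 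
(.lf (nat_lit 592715) (.g (nat_lit 1762) (.e (nat_lit 532558) (nat_lit 14) (.e (nat_lit 376868) (nat_lit 23) (.e (nat_lit 98350) (nat_lit 24) (.e (nat_lit 409617) (nat_lit 10) (.e (nat_lit 7936) (nat_lit 318) .nil))))) (.g (nat_lit 0) (.e (nat_lit 402729) (nat_lit 0) .nil) .nil))))) (.nd (nat_lit 8) (.nd (nat_lit 9) 
(.lf (nat_lit 592075) (.g (nat_lit 1922) (.e (nat_lit 532549) (nat_lit 12) (.e (nat_lit 360473) (nat_lit 8) (.e (nat_lit 557093) (nat_lit 12) (.e (nat_lit 164023) (nat_lit 46) (.e (nat_lit 704735) (nat_lit 11) .nil))))) (.g (nat_lit 0) (.e (nat_lit 401773) (nat_lit 0) .nil) .nil))) 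
(.lf (nat_lit 592587) (.g (nat_lit 4551) (.e (nat_lit 532550) (nat_lit 12) (.e (nat_lit 360475) (nat_lit 8) (.e (nat_lit 557091) (nat_lit 12) (.e (nat_lit 164022) (nat_lit 46) (.e (nat_lit 704738) (nat_lit 11) (.e (nat_lit 16384) (nat_lit 0) (.e (nat_lit 3230) (nat_lit 197) .nil))))))) (.g (nat_lit 1) (.e (nat_lit 402461) (nat_lit 0) .nil) .nil)))) (.nd (nat_lit 9) 
(.lf (nat_lit 592331) (.g (nat_lit 4000) (.e (nat_lit 532550) (nat_lit 12) (.e (nat_lit 360474) (nat_lit 8) (.e (nat_lit 557093) (nat_lit 12) (.e (nat_lit 164023) (nat_lit 46) (.e (nat_lit 704735) (nat_lit 11) (.e (nat_lit 16390) (nat_lit 0) (.e (nat_lit 3241) (nat_lit 197) .nil))))))) (.g (nat_lit 1) (.e (nat_lit 402181) (nat_lit 0) .nil) .nil))) 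
(.lf (nat_lit 592843) (.g (nat_lit 1563) (.e (nat_lit 532562) (nat_lit 15) (.e (nat_lit 385105) (nat_lit 50) (.e (nat_lit 786450) (nat_lit 15) (.e (nat_lit 1853) (nat_lit 124) .nil)))) (.g (nat_lit 0) (.e (nat_lit 403036) (nat_lit 0) .nil) .nil))))))) (.nd (nat_lit 6) (.nd (nat_lit 7) (.nd (nat_lit 8) (.nd (nat_lit 9) 
(.lf (nat_lit 591915) (.g (nat_lit 1450) (.e (nat_lit 532547) (nat_lit 11) (.e (nat_lit 352314) (nat_lit 23) (.e (nat_lit 98350) (nat_lit 24) (.e (nat_lit 409615) (nat_lit 10) .nil)))) (.g (nat_lit 0) (.e (nat_lit 401500) (nat_lit 0) .nil) .nil))) 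
(.lf (nat_lit 592427) (.g (nat_lit 4434) (.e (nat_lit 532550) (nat_lit 12) (.e (nat_lit 360474) (nat_lit 8) (.e (nat_lit 557094) (nat_lit 12) (.e (nat_lit 164022) (nat_lit 46) (.e (nat_lit 704738) (nat_lit 11) (.e (nat_lit 16398) (nat_lit 0) (.e (nat_lit 3252) (nat_lit 197) .nil))))))) (.g (nat_lit 1) (.e (nat_lit 402277) (nat_lit 0) .nil) .nil)))) (.nd (nat_lit 9) 
(.lf (nat_lit 592171) (.g (nat_lit 1136) (.e (nat_lit 532550) (nat_lit 12) (.e (nat_lit 360472) (nat_lit 8) (.e (nat_lit 557090) (nat_lit 12) (.e (nat_lit 164020) (nat_lit 45) .nil)))) (.g (nat_lit 0) (.e (nat_lit 401997) (nat_lit 0) .nil) .nil))) 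
(.lf (nat_lit 592683) (.g (nat_lit 2413) (.e (nat_lit 532554) (nat_lit 13) (.e (nat_lit 368676) (nat_lit 21) (.e (nat_lit 516129) (nat_lit 3) (.e (nat_lit 221210) (nat_lit 22) (.e (nat_lit 196660) (nat_lit 12) .nil))))) (.g (nat_lit 0) (.e (nat_lit 402607) (nat_lit 0) .nil) .nil))))) (.nd (nat_lit 8) (.nd (nat_lit 9) 
(.lf (nat_lit 592043) (.g (nat_lit 3616) (.e (nat_lit 532549) (nat_lit 12) (.e (nat_lit 360473) (nat_lit 8) (.e (nat_lit 557087) (nat_lit 11) (.e (nat_lit 24617) (nat_lit 7) (.e (nat_lit 319505) (nat_lit 10) (.e (nat_lit 7936) (nat_lit 45) .nil)))))) (.g (nat_lit 1) (.e (nat_lit 401733) (nat_lit 0) .nil) .nil))) 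
(.lf (nat_lit 592555) (.g (nat_lit 5189) (.e (nat_lit 532550) (nat_lit 12) (.e (nat_lit 360475) (nat_lit 8) (.e (nat_lit 557091) (nat_lit 12) (.e (nat_lit 164022) (nat_lit 46) (.e (nat_lit 704736) (nat_lit 11) (.e (nat_lit 16391) (nat_lit 0) (.e (nat_lit 3256) (nat_lit 197) .nil))))))) (.g (nat_lit 1) (.e (nat_lit 402429) (nat_lit 0) .nil) .nil)))) (.nd (nat_lit 9) 
(.lf (nat_lit 592299) (.g (nat_lit 5600) (.e (nat_lit 532550) (nat_lit 12) (.e (nat_lit 360474) (nat_lit 8) (.e (nat_lit 557093) (nat_lit 12) (.e (nat_lit 164022) (nat_lit 46) (.e (nat_lit 704738) (nat_lit 11) (.e (nat_lit 16389) (nat_lit 0) (.e (nat_lit 3248) (nat_lit 197) .nil))))))) (.g (nat_lit 1) (.e (nat_lit 402149) (nat_lit 0) .nil) .nil))) 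
(.lf (nat_lit 592811) (.g (nat_lit 2158) (.e (nat_lit 532560) (nat_lit 14) (.e (nat_lit 376869) (nat_lit 23) (.e (nat_lit 98350) (nat_lit 24) (.e (nat_lit 409643) (nat_lit 18) (.e (nat_lit 303112) (nat_lit 0) .nil))))) (.g (nat_lit 0) (.e (nat_lit 402960) (nat_lit 0) .nil) .nil)))))) (.nd (nat_lit 7) (.nd (nat_lit 8) (.nd (nat_lit 9) 
(.lf (nat_lit 591979) (.g (nat_lit 3349) (.e (nat_lit 532549) (nat_lit 12) (.e (nat_lit 360466) (nat_lit 3) (.e (nat_lit 516139) (nat_lit 7) (.e (nat_lit 409616) (nat_lit 10) (.e (nat_lit 5757) (nat_lit 315) (.e (nat_lit 163962) (nat_lit 25) .nil)))))) (.g (nat_lit 1) (.e (nat_lit 401647) (nat_lit 0) .nil) .nil))) 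
(.lf (nat_lit 592491) (.g (nat_lit 4437) (.e (nat_lit 532550) (nat_lit 12) (.e (nat_lit 360475) (nat_lit 8) (.e (nat_lit 557089) (nat_lit 12) (.e (nat_lit 163843) (nat_lit 0) (.e (nat_lit 6255) (nat_lit 337) (.e (nat_lit 2641) (nat_lit 165) (.e (nat_lit 180242) (nat_lit 5) .nil))))))) (.g (nat_lit 1) (.e (nat_lit 402361) (nat_lit 0) .nil) .nil)))) (.nd (nat_lit 9) 
(.lf (nat_lit 592235) (.g (nat_lit 2699) (.e (nat_lit 532550) (nat_lit 12) (.e (nat_lit 360474) (nat_lit 8) (.e (nat_lit 557093) (nat_lit 12) (.e (nat_lit 164022) (nat_lit 46) (.e (nat_lit 704735) (nat_lit 11) (.e (nat_lit 16388) (nat_lit 0) (.e (nat_lit 7936) (nat_lit 197) .nil))))))) (.g (nat_lit 1) (.e (nat_lit 402085) (nat_lit 0) .nil) .nil))) 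
(.lf (nat_lit 592747) (.g (nat_lit 2266) (.e (nat_lit 532559) (nat_lit 14) (.e (nat_lit 376868) (nat_lit 23) (.e (nat_lit 98350) (nat_lit 24) (.e (nat_lit 409648) (nat_lit 18) (.e (nat_lit 303112) (nat_lit 0) .nil))))) (.g (nat_lit 0) (.e (nat_lit 402805) (nat_lit 0) .nil) .nil))))) (.nd (nat_lit 8) (.nd (nat_lit 9) 
(.lf (nat_lit 592107) (.g (nat_lit 2024) (.e (nat_lit 532549) (nat_lit 12) (.e (nat_lit 360475) (nat_lit 8) (.e (nat_lit 557091) (nat_lit 12) (.e (nat_lit 163843) (nat_lit 0) .nil)))) (.g (nat_lit 0) (.e (nat_lit 401813) (nat_lit 0) .nil) .nil))) 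
(.lf (nat_lit 592619) (.g (nat_lit 5482) (.e (nat_lit 532550) (nat_lit 12) (.e (nat_lit 360475) (nat_lit 8) (.e (nat_lit 557091) (nat_lit 12) (.e (nat_lit 164022) (nat_lit 46) (.e (nat_lit 704738) (nat_lit 11) (.e (nat_lit 16399) (nat_lit 0) (.e (nat_lit 3252) (nat_lit 197) .nil))))))) (.g (nat_lit 1) (.e (nat_lit 402493) (nat_lit 0) .nil) .nil)))) (.nd (nat_lit 9) 
(.lf (nat_lit 592363) (.g (nat_lit 6132) (.e (nat_lit 532550) (nat_lit 12) (.e (nat_lit 360474) (nat_lit 8) (.e (nat_lit 557094) (nat_lit 12) (.e (nat_lit 164022) (nat_lit 46) (.e (nat_lit 704629) (nat_lit 9) (.e (nat_lit 473) (nat_lit 36) (.e (nat_lit 458787) (nat_lit 23) .nil))))))) (.g (nat_lit 1) (.e (nat_lit 402213) (nat_lit 0) .nil) .nil))) 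
(.lf (nat_lit 592875) (.g (nat_lit 1526) (.e (nat_lit 532563) (nat_lit 15) (.e (nat_lit 385066) (nat_lit 26) (.e (nat_lit 532534) (nat_lit 9) (.e (nat_lit 336326) (nat_lit 18) (.e (nat_lit 204854) (nat_lit 26) .nil))))) (.g (nat_lit 0) (.e (nat_lit 403091) (nat_lit 0) .nil) .nil)))))))) (.nd (nat_lit 5) (.nd (nat_lit 6) (.nd (nat_lit 7) (.nd (nat_lit 8) (.nd (nat_lit 9) 
(.lf (nat_lit 591899) (.g (nat_lit 2226) (.e (nat_lit 532547) (nat_lit 11) (.e (nat_lit 352313) (nat_lit 23) (.e (nat_lit 98350) (nat_lit 24) (.e (nat_lit 409609) (nat_lit 10) .nil)))) (.g (nat_lit 0) (.e (nat_lit 401482) (nat_lit 0) .nil) .nil))) 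
(.lf (nat_lit 592411) (.g (nat_lit 5369) (.e (nat_lit 532550) (nat_lit 12) (.e (nat_lit 360474) (nat_lit 8) (.e (nat_lit 557094) (nat_lit 12) (.e (nat_lit 164022) (nat_lit 46) (.e (nat_lit 704738) (nat_lit 11) (.e (nat_lit 16385) (nat_lit 0) (.e (nat_lit 3242) (nat_lit 197) .nil))))))) (.g (nat_lit 1) (.e (nat_lit 402261) (nat_lit 0) .nil) .nil)))) (.nd (nat_lit 9) 
(.lf (nat_lit 592155) (.g (nat_lit 4303) (.e (nat_lit 532550) (nat_lit 12) (.e (nat_lit 360468) (nat_lit 3) (.e (nat_lit 516139) (nat_lit 7) (.e (nat_lit 409646) (nat_lit 18) (.e (nat_lit 303112) (nat_lit 0) (.e (nat_lit 3252) (nat_lit 197) .nil)))))) (.g (nat_lit 1) (.e (nat_lit 401970) (nat_lit 0) .nil) .nil))) 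
(.lf (nat_lit 592667) (.g (nat_lit 1615) (.e (nat_lit 532553) (nat_lit 13) (.e (nat_lit 368676) (nat_lit 21) (.e (nat_lit 516117) (nat_lit 1) (.e (nat_lit 164242) (nat_lit 195) .nil)))) (.g (nat_lit 0) (.e (nat_lit 402579) (nat_lit 0) .nil) .nil))))) (.nd (nat_lit 8) (.nd (nat_lit 9) 
(.lf (nat_lit 592027) (.g (nat_lit 1934) (.e (nat_lit 532549) (nat_lit 12) (.e (nat_lit 360473) (nat_lit 8) (.e (nat_lit 557087) (nat_lit 11) (.e (nat_lit 24576) (nat_lit 0) .nil)))) (.g (nat_lit 0) (.e (nat_lit 401715) (nat_lit 0) .nil) .nil))) 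
(.lf (nat_lit 592539) (.g (nat_lit 4628) (.e (nat_lit 532550) (nat_lit 12) (.e (nat_lit 360475) (nat_lit 8) (.e (nat_lit 557091) (nat_lit 12) (.e (nat_lit 164022) (nat_lit 46) (.e (nat_lit 704735) (nat_lit 11) (.e (nat_lit 16388) (nat_lit 0) (.e (nat_lit 3227) (nat_lit 197) .nil))))))) (.g (nat_lit 1) (.e (nat_lit 402413) (nat_lit 0) .nil) .nil)))) (.nd (nat_lit 9) 
(.lf (nat_lit 592283) (.g (nat_lit 1778) (.e (nat_lit 532550) (nat_lit 12) (.e (nat_lit 360474) (nat_lit 8) (.e (nat_lit 557093) (nat_lit 12) (.e (nat_lit 164022) (nat_lit 46) (.e (nat_lit 704738) (nat_lit 11) (.e (nat_lit 16384) (nat_lit 0) (.e (nat_lit 7936) (nat_lit 197) .nil))))))) (.g (nat_lit 1) (.e (nat_lit 402133) (nat_lit 0) .nil) .nil))) 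
(.lf (nat_lit 592795) (.g (nat_lit 2317) (.e (nat_lit 532560) (nat_lit 14) (.e (nat_lit 376868) (nat_lit 23) (.e (nat_lit 98350) (nat_lit 24) (.e (nat_lit 409649) (nat_lit 18) (.e (nat_lit 303111) (nat_lit 0) (.e (nat_lit 3251) (nat_lit 197) .nil)))))) (.g (nat_lit 1) (.e (nat_lit 402940) (nat_lit 0) .nil) .nil)))))) (.nd (nat_lit 7) (.nd (nat_lit 8) (.nd (nat_lit 9) 
(.lf (nat_lit 591963) (.g (nat_lit 1610) (.e (nat_lit 532548) (nat_lit 11) (.e (nat_lit 352315) (nat_lit 23) (.e (nat_lit 98349) (nat_lit 24) (.e (nat_lit 417536) (nat_lit 18) .nil)))) (.g (nat_lit 0) (.e (nat_lit 401620) (nat_lit 0) .nil) .nil))) 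
(.lf (nat_lit 592475) (.g (nat_lit 5650) (.e (nat_lit 532550) (nat_lit 12) (.e (nat_lit 360475) (nat_lit 8) (.e (nat_lit 557087) (nat_lit 11) (.e (nat_lit 24617) (nat_lit 7) (.e (nat_lit 319496) (nat_lit 10) (.e (nat_lit 594) (nat_lit 45) .nil)))))) (.g (nat_lit 1) (.e (nat_lit 402345) (nat_lit 0) .nil) .nil)))) (.nd (nat_lit 9) 
(.lf (nat_lit 592219) (.g (nat_lit 1045) (.e (nat_lit 532550) (nat_lit 12) (.e (nat_lit 360474) (nat_lit 8) (.e (nat_lit 557093) (nat_lit 12) (.e (nat_lit 164022) (nat_lit 46) .nil)))) (.g (nat_lit 0) (.e (nat_lit 402069) (nat_lit 0) .nil) .nil))) 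
(.lf (nat_lit 592731) (.g (nat_lit 2661) (.e (nat_lit 532559) (nat_lit 14) (.e (nat_lit 376865) (nat_lit 22) (.e (nat_lit 90185) (nat_lit 17) (.e (nat_lit 237569) (nat_lit 0) .nil)))) (.g (nat_lit 0) (.e (nat_lit 402788) (nat_lit 0) .nil) .nil))))) (.nd (nat_lit 8) (.nd (nat_lit 9) 
(.lf (nat_lit 592091) (.g (nat_lit 3820) (.e (nat_lit 532549) (nat_lit 12) (.e (nat_lit 360474) (nat_lit 8) (.e (nat_lit 557094) (nat_lit 12) (.e (nat_lit 164022) (nat_lit 46) (.e (nat_lit 704629) (nat_lit 9) (.e (nat_lit 442) (nat_lit 33) (.e (nat_lit 434234) (nat_lit 23) .nil))))))) (.g (nat_lit 1) (.e (nat_lit 401789) (nat_lit 0) .nil) .nil))) 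
(.lf (nat_lit 592603) (.g (nat_lit 5584) (.e (nat_lit 532550) (nat_lit 12) (.e (nat_lit 360475) (nat_lit 8) (.e (nat_lit 557091) (nat_lit 12) (.e (nat_lit 164022) (nat_lit 46) (.e (nat_lit 704738) (nat_lit 11) (.e (nat_lit 16389) (nat_lit 0) (.e (nat_lit 3241) (nat_lit 197) .nil))))))) (.g (nat_lit 1) (.e (nat_lit 402477) (nat_lit 0) .nil) .nil)))) (.nd (nat_lit 9) 
(.lf (nat_lit 592347) (.g (nat_lit 5408) (.e (nat_lit 532550) (nat_lit 12) (.e (nat_lit 360474) (nat_lit 8) (.e (nat_lit 557093) (nat_lit 12) (.e (nat_lit 164023) (nat_lit 46) (.e (nat_lit 704738) (nat_lit 11) (.e (nat_lit 16396) (nat_lit 0) (.e (nat_lit 3252) (nat_lit 197) .nil))))))) (.g (nat_lit 1) (.e (nat_lit 402197) (nat_lit 0) .nil) .nil))) 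
(.lf (nat_lit 592859) (.g (nat_lit 774) (.e (nat_lit 532563) (nat_lit 15) (.e (nat_lit 385066) (nat_lit 26) (.e (nat_lit 532533) (nat_lit 9) (.e (nat_lit 343808) (nat_lit 18) .nil)))) (.g (nat_lit 0) (.e (nat_lit 403068) (nat_lit 0) .nil) .nil))))))) (.nd (nat_lit 6) (.nd (nat_lit 7) (.nd (nat_lit 8) (.nd (nat_lit 9) 
(.lf (nat_lit 591931) (.g (nat_lit 2235) (.e (nat_lit 532547) (nat_lit 11) (.e (nat_lit 352315) (nat_lit 23) (.e (nat_lit 98349) (nat_lit 24) (.e (nat_lit 409646) (nat_lit 18) (.e (nat_lit 303112) (nat_lit 0) .nil))))) (.g (nat_lit 0) (.e (nat_lit 401533) (nat_lit 0) .nil) .nil))) 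
(.lf (nat_lit 592443) (.g (nat_lit 5240) (.e (nat_lit 532550) (nat_lit 12) (.e (nat_lit 360475) (nat_lit 8) (.e (nat_lit 557085) (nat_lit 11) (.e (nat_lit 24665) (nat_lit 14) (.e (nat_lit 401413) (nat_lit 0) (.e (nat_lit 3230) (nat_lit 197) .nil)))))) (.g (nat_lit 1) (.e (nat_lit 402309) (nat_lit 0) .nil) .nil)))) (.nd (nat_lit 9) 
(.lf (nat_lit 592187) (.g (nat_lit 405) (.e (nat_lit 532550) (nat_lit 12) (.e (nat_lit 360474) (nat_lit 8) (.e (nat_lit 557085) (nat_lit 11) .nil))) (.g (nat_lit 0) (.e (nat_lit 402032) (nat_lit 0) .nil) .nil))) 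
(.lf (nat_lit 592699) (.g (nat_lit 1879) (.e (nat_lit 532557) (nat_lit 14) (.e (nat_lit 376842) (nat_lit 11) (.e (nat_lit 426408) (nat_lit 15) (.e (nat_lit 6207) (nat_lit 333) .nil)))) (.g (nat_lit 0) (.e (nat_lit 402653) (nat_lit 0) .nil) .nil))))) (.nd (nat_lit 8) (.nd (nat_lit 9) 
(.lf (nat_lit 592059) (.g (nat_lit 2484) (.e (nat_lit 532549) (nat_lit 12) (.e (nat_lit 360473) (nat_lit 8) (.e (nat_lit 557091) (nat_lit 12) (.e (nat_lit 163850) (nat_lit 0) (.e (nat_lit 6426) (nat_lit 342) .nil))))) (.g (nat_lit 0) (.e (nat_lit 401755) (nat_lit 0) .nil) .nil))) 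
(.lf (nat_lit 592571) (.g (nat_lit 5494) (.e (nat_lit 532550) (nat_lit 12) (.e (nat_lit 360475) (nat_lit 8) (.e (nat_lit 557091) (nat_lit 12) (.e (nat_lit 164022) (nat_lit 46) (.e (nat_lit 704737) (nat_lit 11) (.e (nat_lit 16388) (nat_lit 0) (.e (nat_lit 3229) (nat_lit 197) .nil))))))) (.g (nat_lit 1) (.e (nat_lit 402445) (nat_lit 0) .nil) .nil)))) (.nd (nat_lit 9) 
(.lf (nat_lit 592315) (.g (nat_lit 4675) (.e (nat_lit 532550) (nat_lit 12) (.e (nat_lit 360474) (nat_lit 8) (.e (nat_lit 557093) (nat_lit 12) (.e (nat_lit 164022) (nat_lit 46) (.e (nat_lit 704738) (nat_lit 11) (.e (nat_lit 16398) (nat_lit 0) (.e (nat_lit 3252) (nat_lit 197) .nil))))))) (.g (nat_lit 1) (.e (nat_lit 402165) (nat_lit 0) .nil) .nil))) 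
(.lf (nat_lit 592827) (.g (nat_lit 1892) (.e (nat_lit 532561) (nat_lit 14) (.e (nat_lit 376865) (nat_lit 22) (.e (nat_lit 90185) (nat_lit 17) (.e (nat_lit 237584) (nat_lit 1) .nil)))) (.g (nat_lit 0) (.e (nat_lit 403019) (nat_lit 0) .nil) .nil)))))) (.nd (nat_lit 7) (.nd (nat_lit 8) (.nd (nat_lit 9) 
(.lf (nat_lit 591995) (.g (nat_lit 2078) (.e (nat_lit 532549) (nat_lit 12) (.e (nat_lit 360467) (nat_lit 3) (.e (nat_lit 516138) (nat_lit 7) (.e (nat_lit 409612) (nat_lit 10) .nil)))) (.g (nat_lit 0) (.e (nat_lit 401670) (nat_lit 0) .nil) .nil))) 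
(.lf (nat_lit 592507) (.g (nat_lit 1030) (.e (nat_lit 532550) (nat_lit 12) (.e (nat_lit 360475) (nat_lit 8) (.e (nat_lit 557091) (nat_lit 12) (.e (nat_lit 163840) (nat_lit 0) .nil)))) (.g (nat_lit 0) (.e (nat_lit 402377) (nat_lit 0) .nil) .nil)))) (.nd (nat_lit 9) 
(.lf (nat_lit 592251) (.g (nat_lit 3916) (.e (nat_lit 532550) (nat_lit 12) (.e (nat_lit 360474) (nat_lit 8) (.e (nat_lit 557093) (nat_lit 12) (.e (nat_lit 164022) (nat_lit 46) (.e (nat_lit 704737) (nat_lit 11) (.e (nat_lit 16384) (nat_lit 0) (.e (nat_lit 3230) (nat_lit 197) .nil))))))) (.g (nat_lit 1) (.e (nat_lit 402101) (nat_lit 0) .nil) .nil))) 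
(.lf (nat_lit 592763) (.g (nat_lit 1565) (.e (nat_lit 532560) (nat_lit 14) (.e (nat_lit 376842) (nat_lit 11) (.e (nat_lit 426098) (nat_lit 1) (.e (nat_lit 164183) (nat_lit 154) (.e (nat_lit 65280) (nat_lit 18) .nil))))) (.g (nat_lit 0) (.e (nat_lit 402859) (nat_lit 0) .nil) .nil))))) (.nd (nat_lit 8) (.nd (nat_lit 9) 
(.lf (nat_lit 592123) (.g (nat_lit 5745) (.e (nat_lit 532550) (nat_lit 12) (.e (nat_lit 360466) (nat_lit 3) (.e (nat_lit 516138) (nat_lit 7) (.e (nat_lit 409645) (nat_lit 18) (.e (nat_lit 303112) (nat_lit 0) (.e (nat_lit 3252) (nat_lit 197) .nil)))))) (.g (nat_lit 1) (.e (nat_lit 401908) (nat_lit 0) .nil) .nil))) 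
(.lf (nat_lit 592635) (.g (nat_lit 1305) (.e (nat_lit 532551) (nat_lit 12) (.e (nat_lit 360466) (nat_lit 3) (.e (nat_lit 516139) (nat_lit 7) (.e (nat_lit 409616) (nat_lit 10) .nil)))) (.g (nat_lit 0) (.e (nat_lit 402521) (nat_lit 0) .nil) .nil)))) (.nd (nat_lit 9) 
(.lf (nat_lit 592379) (.g (nat_lit 2578) (.e (nat_lit 532550) (nat_lit 12) (.e (nat_lit 360474) (nat_lit 8) (.e (nat_lit 557094) (nat_lit 12) (.e (nat_lit 164022) (nat_lit 46) (.e (nat_lit 704736) (nat_lit 11) (.e (nat_lit 16396) (nat_lit 0) (.e (nat_lit 7936) (nat_lit 197) .nil))))))) (.g (nat_lit 1) (.e (nat_lit 402229) (nat_lit 0) .nil) .nil))) 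
(.lf (nat_lit 592891) (.g (nat_lit 1528) (.e (nat_lit 532563) (nat_lit 15) (.e (nat_lit 385068) (nat_lit 26) (.e (nat_lit 532530) (nat_lit 9) (.e (nat_lit 336326) (nat_lit 18) .nil)))) (.g (nat_lit 0) (.e (nat_lit 403116) (nat_lit 0) .nil) .nil)))))))))) (.nd (nat_lit 3) (.nd (nat_lit 4) (.nd (nat_lit 5) (.nd (nat_lit 6) (.nd (nat_lit 7) (.nd (nat_lit 8) (.nd (nat_lit 9) 
(.lf (nat_lit 591879) (.g (nat_lit 2586) (.e (nat_lit 532546) (nat_lit 11) (.e (nat_lit 352315) (nat_lit 23) (.e (nat_lit 98350) (nat_lit 24) (.e (nat_lit 409617) (nat_lit 10) (.e (nat_lit 5762) (nat_lit 315) .nil))))) (.g (nat_lit 0) (.e (nat_lit 401386) (nat_lit 0) .nil) .nil))) 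
(.lf (nat_lit 592391) (.g (nat_lit 5068) (.e (nat_lit 532550) (nat_lit 12) (.e (nat_lit 360474) (nat_lit 8) (.e (nat_lit 557094) (nat_lit 12) (.e (nat_lit 164022) (nat_lit 46) (.e (nat_lit 704737) (nat_lit 11) (.e (nat_lit 16388) (nat_lit 0) (.e (nat_lit 3229) (nat_lit 197) .nil))))))) (.g (nat_lit 1) (.e (nat_lit 402241) (nat_lit 0) .nil) .nil)))) (.nd (nat_lit 9) 
(.lf (nat_lit 592135) (.g (nat_lit 5192) (.e (nat_lit 532550) (nat_lit 12) (.e (nat_lit 360467) (nat_lit 3) (.e (nat_lit 516138) (nat_lit 7) (.e (nat_lit 409645) (nat_lit 18) (.e (nat_lit 303112) (nat_lit 0) (.e (nat_lit 3252) (nat_lit 197) .nil)))))) (.g (nat_lit 1) (.e (nat_lit 401931) (nat_lit 0) .nil) .nil))) 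
(.lf (nat_lit 592647) (.g (nat_lit 3950) (.e (nat_lit 532551) (nat_lit 12) (.e (nat_lit 360467) (nat_lit 3) (.e (nat_lit 516139) (nat_lit 7) (.e (nat_lit 409645) (nat_lit 18) (.e (nat_lit 303112) (nat_lit 0) (.e (nat_lit 3252) (nat_lit 197) .nil)))))) (.g (nat_lit 1) (.e (nat_lit 402539) (nat_lit 0) .nil) .nil))))) (.nd (nat_lit 8) (.nd (nat_lit 9) 
(.lf (nat_lit 592007) (.g (nat_lit 1968) (.e (nat_lit 532549) (nat_lit 12) (.e (nat_lit 360467) (nat_lit 3) (.e (nat_lit 516142) (nat_lit 8) (.e (nat_lit 417820) (nat_lit 10) (.e (nat_lit 5761) (nat_lit 315) .nil))))) (.g (nat_lit 0) (.e (nat_lit 401682) (nat_lit 0) .nil) .nil))) 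
(.lf (nat_lit 592519) (.g (nat_lit 2483) (.e (nat_lit 532550) (nat_lit 12) (.e (nat_lit 360475) (nat_lit 8) (.e (nat_lit 557091) (nat_lit 12) (.e (nat_lit 164018) (nat_lit 45) (.e (nat_lit 696345) (nat_lit 9) (.e (nat_lit 188160) (nat_lit 5) .nil)))))) (.g (nat_lit 1) (.e (nat_lit 402392) (nat_lit 0) .nil) .nil)))) (.nd (nat_lit 9) 
(.lf (nat_lit 592263) (.g (nat_lit 4915) (.e (nat_lit 532550) (nat_lit 12) (.e (nat_lit 360474) (nat_lit 8) (.e (nat_lit 557093) (nat_lit 12) (.e (nat_lit 164022) (nat_lit 46) (.e (nat_lit 704737) (nat_lit 11) (.e (nat_lit 16388) (nat_lit 0) (.e (nat_lit 3229) (nat_lit 197) .nil))))))) (.g (nat_lit 1) (.e (nat_lit 402113) (nat_lit 0) .nil) .nil))) 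
(.lf (nat_lit 592775) (.g (nat_lit 2463) (.e (nat_lit 532560) (nat_lit 14) (.e (nat_lit 376866) (nat_lit 23) (.e (nat_lit 98350) (nat_lit 24) (.e (nat_lit 409616) (nat_lit 10) (.e (nat_lit 7936) (nat_lit 318) .nil))))) (.g (nat_lit 0) (.e (nat_lit 402918) (nat_lit 0) .nil) .nil)))))) (.nd (nat_lit 7) (.nd (nat_lit 8) (.nd (nat_lit 9) 
(.lf (nat_lit 591943) (.g (nat_lit 2533) (.e (nat_lit 532547) (nat_lit 11) (.e (nat_lit 352315) (nat_lit 23) (.e (nat_lit 98350) (nat_lit 24) (.e (nat_lit 409618) (nat_lit 10) (.e (nat_lit 5756) (nat_lit 315) .nil))))) (.g (nat_lit 0) (.e (nat_lit 401550) (nat_lit 0) .nil) .nil))) 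
(.lf (nat_lit 592455) (.g (nat_lit 1947) (.e (nat_lit 532550) (nat_lit 12) (.e (nat_lit 360475) (nat_lit 8) (.e (nat_lit 557086) (nat_lit 11) (.e (nat_lit 24664) (nat_lit 14) (.e (nat_lit 401414) (nat_lit 0) (.e (nat_lit 7936) (nat_lit 197) .nil)))))) (.g (nat_lit 1) (.e (nat_lit 402325) (nat_lit 0) .nil) .nil)))) (.nd (nat_lit 9) 
(.lf (nat_lit 592199) (.g (nat_lit 5342) (.e (nat_lit 532550) (nat_lit 12) (.e (nat_lit 360474) (nat_lit 8) (.e (nat_lit 557085) (nat_lit 11) (.e (nat_lit 24665) (nat_lit 14) (.e (nat_lit 401413) (nat_lit 0) (.e (nat_lit 3230) (nat_lit 197) .nil)))))) (.g (nat_lit 1) (.e (nat_lit 402049) (nat_lit 0) .nil) .nil))) 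
(.lf (nat_lit 592711) (.g (nat_lit 2583) (.e (nat_lit 532558) (nat_lit 14) (.e (nat_lit 376868) (nat_lit 23) (.e (nat_lit 98350) (nat_lit 24) (.e (nat_lit 409616) (nat_lit 10) (.e (nat_lit 5757) (nat_lit 315) .nil))))) (.g (nat_lit 0) (.e (nat_lit 402723) (nat_lit 0) .nil) .nil))))) (.nd (nat_lit 8) (.nd (nat_lit 9) 
(.lf (nat_lit 592071) (.g (nat_lit 2378) (.e (nat_lit 532549) (nat_lit 12) (.e (nat_lit 360473) (nat_lit 8) (.e (nat_lit 557093) (nat_lit 12) (.e (nat_lit 164022) (nat_lit 46) (.e (nat_lit 704737) (nat_lit 11) (.e (nat_lit 16401) (nat_lit 0) (.e (nat_lit 3249) (nat_lit 197) .nil))))))) (.g (nat_lit 1) (.e (nat_lit 401769) (nat_lit 0) .nil) .nil))) 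
(.lf (nat_lit 592583) (.g (nat_lit 4503) (.e (nat_lit 532550) (nat_lit 12) (.e (nat_lit 360475) (nat_lit 8) (.e (nat_lit 557091) (nat_lit 12) (.e (nat_lit 164022) (nat_lit 46) (.e (nat_lit 704737) (nat_lit 11) (.e (nat_lit 16400) (nat_lit 0) (.e (nat_lit 3230) (nat_lit 197) .nil))))))) (.g (nat_lit 1) (.e (nat_lit 402457) (nat_lit 0) .nil) .nil)))) (.nd (nat_lit 9) 
(.lf (nat_lit 592327) (.g (nat_lit 4911) (.e (nat_lit 532550) (nat_lit 12) (.e (nat_lit 360474) (nat_lit 8) (.e (nat_lit 557093) (nat_lit 12) (.e (nat_lit 164023) (nat_lit 46) (.e (nat_lit 704735) (nat_lit 11) (.e (nat_lit 16388) (nat_lit 0) (.e (nat_lit 3227) (nat_lit 197) .nil))))))) (.g (nat_lit 1) (.e (nat_lit 402177) (nat_lit 0) .nil) .nil))) 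
(.lf (nat_lit 592839) (.g (nat_lit 1794) (.e (nat_lit 532562) (nat_lit 15) (.e (nat_lit 385068) (nat_lit 26) (.e (nat_lit 532534) (nat_lit 9) (.e (nat_lit 336324) (nat_lit 18) (.e (nat_lit 204882) (nat_lit 32) .nil))))) (.g (nat_lit 0) (.e (nat_lit 403031) (nat_lit 0) .nil) .nil))))))) (.nd (nat_lit 6) (.nd (nat_lit 7) (.nd (nat_lit 8) (.nd (nat_lit 9) 
(.lf (nat_lit 591911) (.g (nat_lit 3025) (.e (nat_lit 532547) (nat_lit 11) (.e (nat_lit 352313) (nat_lit 23) (.e (nat_lit 98350) (nat_lit 24) (.e (nat_lit 409648) (nat_lit 18) (.e (nat_lit 303108) (nat_lit 0) (.e (nat_lit 3238) (nat_lit 197) .nil)))))) (.g (nat_lit 1) (.e (nat_lit 401494) (nat_lit 0) .nil) .nil))) 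
(.lf (nat_lit 592423) (.g (nat_lit 5647) (.e (nat_lit 532550) (nat_lit 12) (.e (nat_lit 360474) (nat_lit 8) (.e (nat_lit 557094) (nat_lit 12) (.e (nat_lit 164022) (nat_lit 46) (.e (nat_lit 704738) (nat_lit 11) (.e (nat_lit 16397) (nat_lit 0) (.e (nat_lit 3254) (nat_lit 197) .nil))))))) (.g (nat_lit 1) (.e (nat_lit 402273) (nat_lit 0) .nil) .nil)))) (.nd (nat_lit 9) 
(.lf (nat_lit 592167) (.g (nat_lit 4665) (.e (nat_lit 532550) (nat_lit 12) (.e (nat_lit 360472) (nat_lit 8) (.e (nat_lit 557087) (nat_lit 11) (.e (nat_lit 24617) (nat_lit 7) (.e (nat_lit 319504) (nat_lit 10) (.e (nat_lit 7936) (nat_lit 45) .nil)))))) (.g (nat_lit 1) (.e (nat_lit 401993) (nat_lit 0) .nil) .nil))) 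
(.lf (nat_lit 592679) (.g (nat_lit 2166) (.e (nat_lit 532553) (nat_lit 13) (.e (nat_lit 368676) (nat_lit 21) (.e (nat_lit 516131) (nat_lit 3) (.e (nat_lit 221212) (nat_lit 22) (.e (nat_lit 196610) (nat_lit 0) (.e (nat_lit 3067) (nat_lit 190) (.e (nat_lit 483072) (nat_lit 26) .nil))))))) (.g (nat_lit 1) (.e (nat_lit 402591) (nat_lit 0) .nil) .nil))))) (.nd (nat_lit 8) (.nd (nat_lit 9) 
(.lf (nat_lit 592039) (.g (nat_lit 3010) (.e (nat_lit 532549) (nat_lit 12) (.e (nat_lit 360473) (nat_lit 8) (.e (nat_lit 557087) (nat_lit 11) (.e (nat_lit 24594) (nat_lit 0) (.e (nat_lit 7936) (nat_lit 360) .nil))))) (.g (nat_lit 0) (.e (nat_lit 401729) (nat_lit 0) .nil) .nil))) 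
(.lf (nat_lit 592551) (.g (nat_lit 2865) (.e (nat_lit 532550) (nat_lit 12) (.e (nat_lit 360475) (nat_lit 8) (.e (nat_lit 557091) (nat_lit 12) (.e (nat_lit 164022) (nat_lit 46) (.e (nat_lit 704736) (nat_lit 11) (.e (nat_lit 16388) (nat_lit 0) (.e (nat_lit 7936) (nat_lit 197) .nil))))))) (.g (nat_lit 1) (.e (nat_lit 402425) (nat_lit 0) .nil) .nil)))) (.nd (nat_lit 9) 
(.lf (nat_lit 592295) (.g (nat_lit 5197) (.e (nat_lit 532550) (nat_lit 12) (.e (nat_lit 360474) (nat_lit 8) (.e (nat_lit 557093) (nat_lit 12) (.e (nat_lit 164022) (nat_lit 46) (.e (nat_lit 704738) (nat_lit 11) (.e (nat_lit 16389) (nat_lit 0) (.e (nat_lit 3240) (nat_lit 197) .nil))))))) (.g (nat_lit 1) (.e (nat_lit 402145) (nat_lit 0) .nil) .nil))) 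
(.lf (nat_lit 592807) (.g (nat_lit 2769) (.e (nat_lit 532560) (nat_lit 14) (.e (nat_lit 376869) (nat_lit 23) (.e (nat_lit 98350) (nat_lit 24) (.e (nat_lit 409617) (nat_lit 10) (.e (nat_lit 5762) (nat_lit 315) (.e (nat_lit 163962) (nat_lit 25) .nil)))))) (.g (nat_lit 1) (.e (nat_lit 402956) (nat_lit 0) .nil) .nil)))))) (.nd (nat_lit 7) (.nd (nat_lit 8) (.nd (nat_lit 9) 
(.lf (nat_lit 591975) (.g (nat_lit 3749) (.e (nat_lit 532549) (nat_lit 12) (.e (nat_lit 360466) (nat_lit 3) (.e (nat_lit 516138) (nat_lit 7) (.e (nat_lit 409649) (nat_lit 18) (.e (nat_lit 303104) (nat_lit 0) (.e (nat_lit 3238) (nat_lit 197) .nil)))))) (.g (nat_lit 1) (.e (nat_lit 401643) (nat_lit 0) .nil) .nil))) 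
(.lf (nat_lit 592487) (.g (nat_lit 6411) (.e (nat_lit 532550) (nat_lit 12) (.e (nat_lit 360475) (nat_lit 8) (.e (nat_lit 557087) (nat_lit 11) (.e (nat_lit 24665) (nat_lit 14) (.e (nat_lit 401417) (nat_lit 0) (.e (nat_lit 3253) (nat_lit 197) .nil)))))) (.g (nat_lit 1) (.e (nat_lit 402357) (nat_lit 0) .nil) .nil)))) (.nd (nat_lit 9) 
(.lf (nat_lit 592231) (.g (nat_lit 6533) (.e (nat_lit 532550) (nat_lit 12) (.e (nat_lit 360474) (nat_lit 8) (.e (nat_lit 557093) (nat_lit 12) (.e (nat_lit 164022) (nat_lit 46) (.e (nat_lit 704629) (nat_lit 9) (.e (nat_lit 473) (nat_lit 36) (.e (nat_lit 458787) (nat_lit 23) .nil))))))) (.g (nat_lit 1) (.e (nat_lit 402081) (nat_lit 0) .nil) .nil))) 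
(.lf (nat_lit 592743) (.g (nat_lit 1583) (.e (nat_lit 532559) (nat_lit 14) (.e (nat_lit 376868) (nat_lit 23) (.e (nat_lit 98350) (nat_lit 24) (.e (nat_lit 409646) (nat_lit 18) (.e (nat_lit 303112) (nat_lit 0) .nil))))) (.g (nat_lit 0) (.e (nat_lit 402801) (nat_lit 0) .nil) .nil))))) (.nd (nat_lit 8) (.nd (nat_lit 9) 
(.lf (nat_lit 592103) (.g (nat_lit 4247) (.e (nat_lit 532549) (nat_lit 12) (.e (nat_lit 360475) (nat_lit 8) (.e (nat_lit 557087) (nat_lit 11) (.e (nat_lit 24665) (nat_lit 14) (.e (nat_lit 401417) (nat_lit 0) (.e (nat_lit 3253) (nat_lit 197) .nil)))))) (.g (nat_lit 1) (.e (nat_lit 401807) (nat_lit 0) .nil) .nil))) 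
(.lf (nat_lit 592615) (.g (nat_lit 4890) (.e (nat_lit 532550) (nat_lit 12) (.e (nat_lit 360475) (nat_lit 8) (.e (nat_lit 557091) (nat_lit 12) (.e (nat_lit 164022) (nat_lit 46) (.e (nat_lit 704738) (nat_lit 11) (.e (nat_lit 16398) (nat_lit 0) (.e (nat_lit 3230) (nat_lit 197) .nil))))))) (.g (nat_lit 1) (.e (nat_lit 402489) (nat_lit 0) .nil) .nil)))) (.nd (nat_lit 9) 
(.lf (nat_lit 592359) (.g (nat_lit 6450) (.e (nat_lit 532550) (nat_lit 12) (.e (nat_lit 360474) (nat_lit 8) (.e (nat_lit 557094) (nat_lit 12) (.e (nat_lit 164022) (nat_lit 46) (.e (nat_lit 704629) (nat_lit 9) (.e (nat_lit 442) (nat_lit 33) (.e (nat_lit 434230) (nat_lit 23) .nil))))))) (.g (nat_lit 1) (.e (nat_lit 402209) (nat_lit 0) .nil) .nil))) 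
(.lf (nat_lit 592871) (.g (nat_lit 1148) (.e (nat_lit 532563) (nat_lit 15) (.e (nat_lit 385066) (nat_lit 26) (.e (nat_lit 532534) (nat_lit 9) (.e (nat_lit 336324) (nat_lit 18) .nil)))) (.g (nat_lit 0) (.e (nat_lit 403087) (nat_lit 0) .nil) .nil)))))))) (.nd (nat_lit 5) (.nd (nat_lit 6) (.nd (nat_lit 7) (.nd (nat_lit 8) (.nd (nat_lit 9) 
(.lf (nat_lit 591895) (.g (nat_lit 3491) (.e (nat_lit 532547) (nat_lit 11) (.e (nat_lit 352302) (nat_lit 20) (.e (nat_lit 1848) (nat_lit 124) (.e (nat_lit 557087) (nat_lit 11) (.e (nat_lit 24617) (nat_lit 7) (.e (nat_lit 319505) (nat_lit 10) (.e (nat_lit 7936) (nat_lit 45) .nil))))))) (.g (nat_lit 1) (.e (nat_lit 401442) (nat_lit 0) .nil) .nil))) 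
(.lf (nat_lit 592407) (.g (nat_lit 5366) (.e (nat_lit 532550) (nat_lit 12) (.e (nat_lit 360474) (nat_lit 8) (.e (nat_lit 557094) (nat_lit 12) (.e (nat_lit 164022) (nat_lit 46) (.e (nat_lit 704738) (nat_lit 11) (.e (nat_lit 16384) (nat_lit 0) (.e (nat_lit 3250) (nat_lit 197) .nil))))))) (.g (nat_lit 1) (.e (nat_lit 402257) (nat_lit 0) .nil) .nil)))) (.nd (nat_lit 9) 
(.lf (nat_lit 592151) (.g (nat_lit 994) (.e (nat_lit 532550) (nat_lit 12) (.e (nat_lit 360468) (nat_lit 3) (.e (nat_lit 516139) (nat_lit 7) (.e (nat_lit 409616) (nat_lit 10) .nil)))) (.g (nat_lit 0) (.e (nat_lit 401963) (nat_lit 0) .nil) .nil))) 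
(.lf (nat_lit 592663) (.g (nat_lit 2682) (.e (nat_lit 532551) (nat_lit 12) (.e (nat_lit 360473) (nat_lit 8) (.e (nat_lit 557087) (nat_lit 11) (.e (nat_lit 24617) (nat_lit 7) (.e (nat_lit 319505) (nat_lit 10) .nil))))) (.g (nat_lit 0) (.e (nat_lit 402565) (nat_lit 0) .nil) .nil))))) (.nd (nat_lit 8) (.nd (nat_lit 9) 
(.lf (nat_lit 592023) (.g (nat_lit 3274) (.e (nat_lit 532549) (nat_lit 12) (.e (nat_lit 360473) (nat_lit 8) (.e (nat_lit 557085) (nat_lit 11) (.e (nat_lit 24665) (nat_lit 14) (.e (nat_lit 401418) (nat_lit 0) (.e (nat_lit 3249) (nat_lit 197) .nil)))))) (.g (nat_lit 1) (.e (nat_lit 401711) (nat_lit 0) .nil) .nil))) 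
(.lf (nat_lit 592535) (.g (nat_lit 6476) (.e (nat_lit 532550) (nat_lit 12) (.e (nat_lit 360475) (nat_lit 8) (.e (nat_lit 557091) (nat_lit 12) (.e (nat_lit 164022) (nat_lit 46) (.e (nat_lit 704629) (nat_lit 9) (.e (nat_lit 473) (nat_lit 36) (.e (nat_lit 458790) (nat_lit 23) .nil))))))) (.g (nat_lit 1) (.e (nat_lit 402408) (nat_lit 0) .nil) .nil)))) (.nd (nat_lit 9) 
(.lf (nat_lit 592279) (.g (nat_lit 4321) (.e (nat_lit 532550) (nat_lit 12) (.e (nat_lit 360474) (nat_lit 8) (.e (nat_lit 557093) (nat_lit 12) (.e (nat_lit 164022) (nat_lit 46) (.e (nat_lit 704738) (nat_lit 11) (.e (nat_lit 16384) (nat_lit 0) (.e (nat_lit 3241) (nat_lit 197) .nil))))))) (.g (nat_lit 1) (.e (nat_lit 402129) (nat_lit 0) .nil) .nil))) 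
(.lf (nat_lit 592791) (.g (nat_lit 1934) (.e (nat_lit 532560) (nat_lit 14) (.e (nat_lit 376868) (nat_lit 23) (.e (nat_lit 98350) (nat_lit 24) (.e (nat_lit 409648) (nat_lit 18) (.e (nat_lit 303109) (nat_lit 0) .nil))))) (.g (nat_lit 0) (.e (nat_lit 402934) (nat_lit 0) .nil) .nil)))))) (.nd (nat_lit 7) (.nd (nat_lit 8) (.nd (nat_lit 9) 
(.lf (nat_lit 591959) (.g (nat_lit 848) (.e (nat_lit 532548) (nat_lit 11) (.e (nat_lit 352275) (nat_lit 11) (.e (nat_lit 433920) (nat_lit 35) (.e (nat_lit 401454) (nat_lit 12) (.e (nat_lit 483072) (nat_lit 26) .nil))))) (.g (nat_lit 0) (.e (nat_lit 401614) (nat_lit 0) .nil) .nil))) 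
(.lf (nat_lit 592471) (.g (nat_lit 3204) (.e (nat_lit 532550) (nat_lit 12) (.e (nat_lit 360475) (nat_lit 8) (.e (nat_lit 557087) (nat_lit 11) (.e (nat_lit 24584) (nat_lit 0) (.e (nat_lit 6673) (nat_lit 357) .nil))))) (.g (nat_lit 0) (.e (nat_lit 402341) (nat_lit 0) .nil) .nil)))) (.nd (nat_lit 9) 
(.lf (nat_lit 592215) (.g (nat_lit 589) (.e (nat_lit 532550) (nat_lit 12) (.e (nat_lit 360474) (nat_lit 8) (.e (nat_lit 557091) (nat_lit 12) .nil))) (.g (nat_lit 0) (.e (nat_lit 402065) (nat_lit 0) .nil) .nil))) 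
(.lf (nat_lit 592727) (.g (nat_lit 2286) (.e (nat_lit 532558) (nat_lit 14) (.e (nat_lit 376869) (nat_lit 23) (.e (nat_lit 98350) (nat_lit 24) (.e (nat_lit 409646) (nat_lit 18) (.e (nat_lit 303112) (nat_lit 0) (.e (nat_lit 3252) (nat_lit 197) .nil)))))) (.g (nat_lit 1) (.e (nat_lit 402743) (nat_lit 0) .nil) .nil))))) (.nd (nat_lit 8) (.nd (nat_lit 9) 
(.lf (nat_lit 592087) (.g (nat_lit 4906) (.e (nat_lit 532549) (nat_lit 12) (.e (nat_lit 360474) (nat_lit 8) (.e (nat_lit 557093) (nat_lit 12) (.e (nat_lit 164022) (nat_lit 46) (.e (nat_lit 704629) (nat_lit 9) (.e (nat_lit 442) (nat_lit 33) (.e (nat_lit 434233) (nat_lit 23) .nil))))))) (.g (nat_lit 1) (.e (nat_lit 401785) (nat_lit 0) .nil) .nil))) 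
(.lf (nat_lit 592599) (.g (nat_lit 5977) (.e (nat_lit 532550) (nat_lit 12) (.e (nat_lit 360475) (nat_lit 8) (.e (nat_lit 557091) (nat_lit 12) (.e (nat_lit 164022) (nat_lit 46) (.e (nat_lit 704738) (nat_lit 11) (.e (nat_lit 16386) (nat_lit 0) (.e (nat_lit 3227) (nat_lit 197) .nil))))))) (.g (nat_lit 1) (.e (nat_lit 402473) (nat_lit 0) .nil) .nil)))) (.nd (nat_lit 9) 
(.lf (nat_lit 592343) (.g (nat_lit 2467) (.e (nat_lit 532550) (nat_lit 12) (.e (nat_lit 360474) (nat_lit 8) (.e (nat_lit 557093) (nat_lit 12) (.e (nat_lit 164023) (nat_lit 46) (.e (nat_lit 704737) (nat_lit 11) (.e (nat_lit 16399) (nat_lit 0) (.e (nat_lit 7936) (nat_lit 197) .nil))))))) (.g (nat_lit 1) (.e (nat_lit 402193) (nat_lit 0) .nil) .nil))) 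
(.lf (nat_lit 592855) (.g (nat_lit 2632) (.e (nat_lit 532563) (nat_lit 15) (.e (nat_lit 385066) (nat_lit 26) (.e (nat_lit 532530) (nat_lit 9) (.e (nat_lit 336326) (nat_lit 18) (.e (nat_lit 204854) (nat_lit 26) (.e (nat_lit 336308) (nat_lit 15) (.e (nat_lit 3234) (nat_lit 197) .nil))))))) (.g (nat_lit 1) (.e (nat_lit 403064) (nat_lit 0) .nil) .nil))))))) 
(.nd (nat_lit 6) (.nd (nat_lit 7) (.nd (nat_lit 8) (.nd (nat_lit 9) 
(.lf (nat_lit 591927) (.g (nat_lit 3251) (.e (nat_lit 532547) (nat_lit 11) (.e (nat_lit 352315) (nat_lit 23) (.e (nat_lit 98349) (nat_lit 24) (.e (nat_lit 409645) (nat_lit 18) (.e (nat_lit 303104) (nat_lit 0) (.e (nat_lit 3238) (nat_lit 197) .nil)))))) (.g (nat_lit 1) (.e (nat_lit 401529) (nat_lit 0) .nil) .nil))) 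
(.lf (nat_lit 592439) (.g (nat_lit 989) (.e (nat_lit 532550) (nat_lit 12) (.e (nat_lit 360475) (nat_lit 8) (.e (nat_lit 557072) (nat_lit 9) .nil))) (.g (nat_lit 0) (.e (nat_lit 402303) (nat_lit 0) .nil) .nil)))) (.nd (nat_lit 9) 
(.lf (nat_lit 592183) (.g (nat_lit 784) (.e (nat_lit 532550) (nat_lit 12) (.e (nat_lit 360474) (nat_lit 8) (.e (nat_lit 557071) (nat_lit 9) .nil))) (.g (nat_lit 0) (.e (nat_lit 402011) (nat_lit 0) .nil) .nil))) 
(.lf (nat_lit 592695) (.g (nat_lit 407) (.e (nat_lit 532555) (nat_lit 13) (.e (nat_lit 368676) (nat_lit 21) (.e (nat_lit 516129) (nat_lit 3) .nil))) (.g (nat_lit 0) (.e (nat_lit 402633) (nat_lit 0) .nil) .nil))))) (.nd (nat_lit 8) (.nd (nat_lit 9) 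
(.lf (nat_lit 592055) (.g (nat_lit 1359) (.e (nat_lit 532549) (nat_lit 12) (.e (nat_lit 360473) (nat_lit 8) (.e (nat_lit 557091) (nat_lit 12) (.e (nat_lit 163843) (nat_lit 0) .nil)))) (.g (nat_lit 0) (.e (nat_lit 401748) (nat_lit 0) .nil) .nil))) 
(.lf (nat_lit 592567) (.g (nat_lit 5196) (.e (nat_lit 532550) (nat_lit 12) (.e (nat_lit 360475) (nat_lit 8) (.e (nat_lit 557091) (nat_lit 12) (.e (nat_lit 164022) (nat_lit 46) (.e (nat_lit 704737) (nat_lit 11) (.e (nat_lit 16386) (nat_lit 0) (.e (nat_lit 3227) (nat_lit 197) .nil))))))) (.g (nat_lit 1) (.e (nat_lit 402441) (nat_lit 0) .nil) .nil)))) (.nd (nat_lit 9) 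
(.lf (nat_lit 592311) (.g (nat_lit 6013) (.e (nat_lit 532550) (nat_lit 12) (.e (nat_lit 360474) (nat_lit 8) (.e (nat_lit 557093) (nat_lit 12) (.e (nat_lit 164022) (nat_lit 46) (.e (nat_lit 704738) (nat_lit 11) (.e (nat_lit 16397) (nat_lit 0) (.e (nat_lit 3254) (nat_lit 197) .nil))))))) (.g (nat_lit 1) (.e (nat_lit 402161) (nat_lit 0) .nil) .nil))) 
(.lf (nat_lit 592823) (.g (nat_lit 1149) (.e (nat_lit 532561) (nat_lit 14) (.e (nat_lit 376865) (nat_lit 22) (.e (nat_lit 90181) (nat_lit 16) (.e (nat_lit 229568) (nat_lit 176) .nil)))) (.g (nat_lit 0) (.e (nat_lit 403015) (nat_lit 0) .nil) .nil)))))) (.nd (nat_lit 7) (.nd (nat_lit 8) (.nd (nat_lit 9) 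
(.lf (nat_lit 591991) (.g (nat_lit 2214) (.e (nat_lit 532549) (nat_lit 12) (.e (nat_lit 360466) (nat_lit 3) (.e (nat_lit 516142) (nat_lit 8) (.e (nat_lit 417815) (nat_lit 10) (.e (nat_lit 5760) (nat_lit 315) (.e (nat_lit 163962) (nat_lit 25) .nil)))))) (.g (nat_lit 1) (.e (nat_lit 401659) (nat_lit 0) .nil) .nil))) 
(.lf (nat_lit 592503) (.g (nat_lit 4760) (.e (nat_lit 532550) (nat_lit 12) (.e (nat_lit 360475) (nat_lit 8) (.e (nat_lit 557089) (nat_lit 12) (.e (nat_lit 164017) (nat_lit 44) (.e (nat_lit 688139) (nat_lit 5) (.e (nat_lit 2887) (nat_lit 184) (.e (nat_lit 426043) (nat_lit 0) (.e (nat_lit 3230) (nat_lit 197) .nil)))))))) (.g (nat_lit 1) (.e (nat_lit 402373) (nat_lit 0) .nil) .nil)))) 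
(.nd (nat_lit 9) 
(.lf (nat_lit 592247) (.g (nat_lit 2922) (.e (nat_lit 532550) (nat_lit 12) (.e (nat_lit 360474) (nat_lit 8) (.e (nat_lit 557093) (nat_lit 12) (.e (nat_lit 164022) (nat_lit 46) (.e (nat_lit 704736) (nat_lit 11) (.e (nat_lit 16396) (nat_lit 0) (.e (nat_lit 7936) (nat_lit 197) .nil))))))) (.g (nat_lit 1) (.e (nat_lit 402097) (nat_lit 0) .nil) .nil))) 
(.lf (nat_lit 592759) (.g (nat_lit 2622) (.e (nat_lit 532559) (nat_lit 14) (.e (nat_lit 376869) (nat_lit 23) (.e (nat_lit 98350) (nat_lit 24) (.e (nat_lit 409648) (nat_lit 18) (.e (nat_lit 303108) (nat_lit 0) (.e (nat_lit 3238) (nat_lit 197) .nil)))))) (.g (nat_lit 1) (.e (nat_lit 402819) (nat_lit 0) .nil) .nil))))) (.nd (nat_lit 8) (.nd (nat_lit 9) 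
(.lf (nat_lit 592119) (.g (nat_lit 1789) (.e (nat_lit 532550) (nat_lit 12) (.e (nat_lit 360465) (nat_lit 3) (.e (nat_lit 516139) (nat_lit 7) (.e (nat_lit 409616) (nat_lit 10) (.e (nat_lit 5762) (nat_lit 315) .nil))))) (.g (nat_lit 0) (.e (nat_lit 401902) (nat_lit 0) .nil) .nil))) 
(.lf (nat_lit 592631) (.g (nat_lit 1174) (.e (nat_lit 532550) (nat_lit 12) (.e (nat_lit 360475) (nat_lit 8) (.e (nat_lit 557094) (nat_lit 12) (.e (nat_lit 164022) (nat_lit 46) .nil)))) (.g (nat_lit 0) (.e (nat_lit 402505) (nat_lit 0) .nil) .nil)))) (.nd (nat_lit 9) 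
(.lf (nat_lit 592375) (.g (nat_lit 2831) (.e (nat_lit 532550) (nat_lit 12) (.e (nat_lit 360474) (nat_lit 8) (.e (nat_lit 557094) (nat_lit 12) (.e (nat_lit 164022) (nat_lit 46) (.e (nat_lit 704736) (nat_lit 11) (.e (nat_lit 16388) (nat_lit 0) (.e (nat_lit 7936) (nat_lit 197) .nil))))))) (.g (nat_lit 1) (.e (nat_lit 402225) (nat_lit 0) .nil) .nil))) 
(.lf (nat_lit 592887) (.g (nat_lit 1511) (.e (nat_lit 532563) (nat_lit 15) (.e (nat_lit 385066) (nat_lit 26) (.e (nat_lit 532563) (nat_lit 15) (.e (nat_lit 385057) (nat_lit 22) .nil)))) (.g (nat_lit 0) (.e (nat_lit 403109) (nat_lit 0) .nil) .nil))))))))) (.nd (nat_lit 4) (.nd (nat_lit 5) (.nd (nat_lit 6) (.nd (nat_lit 7) (.nd (nat_lit 8) (.nd (nat_lit 9) 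
(.lf (nat_lit 591887) (.g (nat_lit 3797) (.e (nat_lit 532547) (nat_lit 11) (.e (nat_lit 352292) (nat_lit 20) (.e (nat_lit 1848) (nat_lit 124) (.e (nat_lit 557087) (nat_lit 11) (.e (nat_lit 24617) (nat_lit 7) (.e (nat_lit 319505) (nat_lit 10) (.e (nat_lit 7936) (nat_lit 45) .nil))))))) (.g (nat_lit 1) (.e (nat_lit 401434) (nat_lit 0) .nil) .nil))) 
(.lf (nat_lit 592399) (.g (nat_lit 4270) (.e (nat_lit 532550) (nat_lit 12) (.e (nat_lit 360474) (nat_lit 8) (.e (nat_lit 557094) (nat_lit 12) (.e (nat_lit 164022) (nat_lit 46) (.e (nat_lit 704737) (nat_lit 11) (.e (nat_lit 16400) (nat_lit 0) (.e (nat_lit 3230) (nat_lit 197) .nil))))))) (.g (nat_lit 1) (.e (nat_lit 402249) (nat_lit 0) .nil) .nil)))) (.nd (nat_lit 9) 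
(.lf (nat_lit 592143) (.g (nat_lit 1746) (.e (nat_lit 532550) (nat_lit 12) (.e (nat_lit 360467) (nat_lit 3) (.e (nat_lit 516139) (nat_lit 7) (.e (nat_lit 409616) (nat_lit 10) (.e (nat_lit 7936) (nat_lit 318) .nil))))) (.g (nat_lit 0) (.e (nat_lit 401941) (nat_lit 0) .nil) .nil))) 
(.lf (nat_lit 592655) (.g (nat_lit 3865) (.e (nat_lit 532551) (nat_lit 12) (.e (nat_lit 360467) (nat_lit 3) (.e (nat_lit 516139) (nat_lit 7) (.e (nat_lit 409649) (nat_lit 18) (.e (nat_lit 303112) (nat_lit 0) (.e (nat_lit 3252) (nat_lit 197) .nil)))))) (.g (nat_lit 1) (.e (nat_lit 402548) (nat_lit 0) .nil) .nil))))) (.nd (nat_lit 8) (.nd (nat_lit 9) 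
(.lf (nat_lit 592015) (.g (nat_lit 508) (.e (nat_lit 532549) (nat_lit 12) (.e (nat_lit 360471) (nat_lit 7) (.e (nat_lit 556800) (nat_lit 5) .nil))) (.g (nat_lit 0) (.e (nat_lit 401691) (nat_lit 0) .nil) .nil))) 
(.lf (nat_lit 592527) (.g (nat_lit 8006) (.e (nat_lit 532550) (nat_lit 12) (.e (nat_lit 360475) (nat_lit 8) (.e (nat_lit 557091) (nat_lit 12) (.e (nat_lit 164022) (nat_lit 46) (.e (nat_lit 704629) (nat_lit 9) (.e (nat_lit 442) (nat_lit 33) (.e (nat_lit 434232) (nat_lit 23) .nil))))))) (.g (nat_lit 1) (.e (nat_lit 402400) (nat_lit 0) .nil) .nil)))) (.nd (nat_lit 9) 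
(.lf (nat_lit 592271) (.g (nat_lit 3466) (.e (nat_lit 532550) (nat_lit 12) (.e (nat_lit 360474) (nat_lit 8) (.e (nat_lit 557093) (nat_lit 12) (.e (nat_lit 164022) (nat_lit 46) (.e (nat_lit 704737) (nat_lit 11) (.e (nat_lit 16396) (nat_lit 0) (.e (nat_lit 7936) (nat_lit 197) .nil))))))) (.g (nat_lit 1) (.e (nat_lit 402121) (nat_lit 0) .nil) .nil))) 
(.lf (nat_lit 592783) (.g (nat_lit 896) (.e (nat_lit 532560) (nat_lit 14) (.e (nat_lit 376868) (nat_lit 23) (.e (nat_lit 98350) (nat_lit 24) (.e (nat_lit 409617) (nat_lit 10) .nil)))) (.g (nat_lit 0) (.e (nat_lit 402926) (nat_lit 0) .nil) .nil)))))) (.nd (nat_lit 7) (.nd (nat_lit 8) (.nd (nat_lit 9) 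
(.lf (nat_lit 591951) (.g (nat_lit 3115) (.e (nat_lit 532547) (nat_lit 11) (.e (nat_lit 352315) (nat_lit 23) (.e (nat_lit 98350) (nat_lit 24) (.e (nat_lit 409648) (nat_lit 18) (.e (nat_lit 303108) (nat_lit 0) (.e (nat_lit 3230) (nat_lit 197) .nil)))))) (.g (nat_lit 1) (.e (nat_lit 401560) (nat_lit 0) .nil) .nil))) 
(.lf (nat_lit 592463) (.g (nat_lit 1990) (.e (nat_lit 532550) (nat_lit 12) (.e (nat_lit 360475) (nat_lit 8) (.e (nat_lit 557086) (nat_lit 11) (.e (nat_lit 24665) (nat_lit 14) (.e (nat_lit 401417) (nat_lit 0) (.e (nat_lit 7936) (nat_lit 197) .nil)))))) (.g (nat_lit 1) (.e (nat_lit 402333) (nat_lit 0) .nil) .nil)))) (.nd (nat_lit 9) 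
(.lf (nat_lit 592207) (.g (nat_lit 1040) (.e (nat_lit 532550) (nat_lit 12) (.e (nat_lit 360474) (nat_lit 8) (.e (nat_lit 557086) (nat_lit 11) .nil))) (.g (nat_lit 0) (.e (nat_lit 402057) (nat_lit 0) .nil) .nil))) 
(.lf (nat_lit 592719) (.g (nat_lit 2426) (.e (nat_lit 532558) (nat_lit 14) (.e (nat_lit 376868) (nat_lit 23) (.e (nat_lit 98350) (nat_lit 24) (.e (nat_lit 409648) (nat_lit 18) (.e (nat_lit 303108) (nat_lit 0) (.e (nat_lit 3252) (nat_lit 197) .nil)))))) (.g (nat_lit 1) (.e (nat_lit 402733) (nat_lit 0) .nil) .nil))))) (.nd (nat_lit 8) (.nd (nat_lit 9) 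
(.lf (nat_lit 592079) (.g (nat_lit 641) (.e (nat_lit 532549) (nat_lit 12) (.e (nat_lit 360473) (nat_lit 8) (.e (nat_lit 557094) (nat_lit 12) (.e (nat_lit 164022) (nat_lit 46) .nil)))) (.g (nat_lit 0) (.e (nat_lit 401777) (nat_lit 0) .nil) .nil))) 
(.lf (nat_lit 592591) (.g (nat_lit 5848) (.e (nat_lit 532550) (nat_lit 12) (.e (nat_lit 360475) (nat_lit 8) (.e (nat_lit 557091) (nat_lit 12) (.e (nat_lit 164022) (nat_lit 46) (.e (nat_lit 704738) (nat_lit 11) (.e (nat_lit 16384) (nat_lit 0) (.e (nat_lit 3243) (nat_lit 197) .nil))))))) (.g (nat_lit 1) (.e (nat_lit 402465) (nat_lit 0) .nil) .nil)))) (.nd (nat_lit 9) 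
(.lf (nat_lit 592335) (.g (nat_lit 2630) (.e (nat_lit 532550) (nat_lit 12) (.e (nat_lit 360474) (nat_lit 8) (.e (nat_lit 557093) (nat_lit 12) (.e (nat_lit 164023) (nat_lit 46) (.e (nat_lit 704735) (nat_lit 11) (.e (nat_lit 16399) (nat_lit 0) (.e (nat_lit 7936) (nat_lit 197) .nil))))))) (.g (nat_lit 1) (.e (nat_lit 402185) (nat_lit 0) .nil) .nil))) 
(.lf (nat_lit 592847) (.g (nat_lit 3259) (.e (nat_lit 532563) (nat_lit 15) (.e (nat_lit 385066) (nat_lit 26) (.e (nat_lit 532530) (nat_lit 9) (.e (nat_lit 336324) (nat_lit 18) (.e (nat_lit 204854) (nat_lit 26) (.e (nat_lit 336284) (nat_lit 15) (.e (nat_lit 3249) (nat_lit 197) .nil))))))) (.g (nat_lit 1) (.e (nat_lit 403056) (nat_lit 0) .nil) .nil))))))) 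
(.nd (nat_lit 6) (.nd (nat_lit 7) (.nd (nat_lit 8) (.nd (nat_lit 9) 
(.lf (nat_lit 591919) (.g (nat_lit 2126) (.e (nat_lit 532547) (nat_lit 11) (.e (nat_lit 352314) (nat_lit 23) (.e (nat_lit 98350) (nat_lit 24) (.e (nat_lit 409646) (nat_lit 18) (.e (nat_lit 303112) (nat_lit 0) (.e (nat_lit 3252) (nat_lit 197) .nil)))))) (.g (nat_lit 1) (.e (nat_lit 401504) (nat_lit 0) .nil) .nil))) 
(.lf (nat_lit 592431) (.g (nat_lit 4850) (.e (nat_lit 532550) (nat_lit 12) (.e (nat_lit 360474) (nat_lit 8) (.e (nat_lit 557094) (nat_lit 12) (.e (nat_lit 164022) (nat_lit 46) (.e (nat_lit 704738) (nat_lit 11) (.e (nat_lit 16399) (nat_lit 0) (.e (nat_lit 3254) (nat_lit 197) .nil))))))) (.g (nat_lit 1) (.e (nat_lit 402281) (nat_lit 0) .nil) .nil)))) (.nd (nat_lit 9) 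
(.lf (nat_lit 592175) (.g (nat_lit 388) (.e (nat_lit 532550) (nat_lit 12) (.e (nat_lit 360473) (nat_lit 8) (.e (nat_lit 557087) (nat_lit 11) .nil))) (.g (nat_lit 0) (.e (nat_lit 402001) (nat_lit 0) .nil) .nil))) 
(.lf (nat_lit 592687) (.g (nat_lit 2247) (.e (nat_lit 532554) (nat_lit 13) (.e (nat_lit 368676) (nat_lit 21) (.e (nat_lit 516131) (nat_lit 3) (.e (nat_lit 221212) (nat_lit 22) (.e (nat_lit 196609) (nat_lit 0) (.e (nat_lit 3067) (nat_lit 190) (.e (nat_lit 483072) (nat_lit 26) .nil))))))) (.g (nat_lit 1) (.e (nat_lit 402612) (nat_lit 0) .nil) .nil))))) (.nd (nat_lit 8) (.nd (nat_lit 9) 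
(.lf (nat_lit 592047) (.g (nat_lit 2933) (.e (nat_lit 532549) (nat_lit 12) (.e (nat_lit 360473) (nat_lit 8) (.e (nat_lit 557087) (nat_lit 11) (.e (nat_lit 24664) (nat_lit 14) (.e (nat_lit 401418) (nat_lit 0) (.e (nat_lit 3249) (nat_lit 197) .nil)))))) (.g (nat_lit 1) (.e (nat_lit 401737) (nat_lit 0) .nil) .nil))) 
(.lf (nat_lit 592559) (.g (nat_lit 2302) (.e (nat_lit 532550) (nat_lit 12) (.e (nat_lit 360475) (nat_lit 8) (.e (nat_lit 557091) (nat_lit 12) (.e (nat_lit 164022) (nat_lit 46) (.e (nat_lit 704736) (nat_lit 11) (.e (nat_lit 16399) (nat_lit 0) (.e (nat_lit 7936) (nat_lit 197) .nil))))))) (.g (nat_lit 1) (.e (nat_lit 402433) (nat_lit 0) .nil) .nil)))) (.nd (nat_lit 9) 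
(.lf (nat_lit 592303) (.g (nat_lit 5964) (.e (nat_lit 532550) (nat_lit 12) (.e (nat_lit 360474) (nat_lit 8) (.e (nat_lit 557093) (nat_lit 12) (.e (nat_lit 164022) (nat_lit 46) (.e (nat_lit 704738) (nat_lit 11) (.e (nat_lit 16390) (nat_lit 0) (.e (nat_lit 3237) (nat_lit 197) .nil))))))) (.g (nat_lit 1) (.e (nat_lit 402153) (nat_lit 0) .nil) .nil))) 
(.lf (nat_lit 592815) (.g (nat_lit 2392) (.e (nat_lit 532560) (nat_lit 14) (.e (nat_lit 376869) (nat_lit 23) (.e (nat_lit 98350) (nat_lit 24) (.e (nat_lit 409648) (nat_lit 18) (.e (nat_lit 303108) (nat_lit 0) (.e (nat_lit 3251) (nat_lit 197) .nil)))))) (.g (nat_lit 1) (.e (nat_lit 402964) (nat_lit 0) .nil) .nil)))))) (.nd (nat_lit 7) (.nd (nat_lit 8) (.nd (nat_lit 9) 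
(.lf (nat_lit 591983) (.g (nat_lit 2035) (.e (nat_lit 532549) (nat_lit 12) (.e (nat_lit 360466) (nat_lit 3) (.e (nat_lit 516139) (nat_lit 7) (.e (nat_lit 409624) (nat_lit 10) .nil)))) (.g (nat_lit 0) (.e (nat_lit 401651) (nat_lit 0) .nil) .nil))) 
(.lf (nat_lit 592495) (.g (nat_lit 4416) (.e (nat_lit 532550) (nat_lit 12) (.e (nat_lit 360475) (nat_lit 8) (.e (nat_lit 557089) (nat_lit 12) (.e (nat_lit 163849) (nat_lit 0) (.e (nat_lit 6255) (nat_lit 337) (.e (nat_lit 2643) (nat_lit 165) (.e (nat_lit 180242) (nat_lit 5) .nil))))))) (.g (nat_lit 1) (.e (nat_lit 402365) (nat_lit 0) .nil) .nil)))) (.nd (nat_lit 9) 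
(.lf (nat_lit 592239) (.g (nat_lit 3889) (.e (nat_lit 532550) (nat_lit 12) (.e (nat_lit 360474) (nat_lit 8) (.e (nat_lit 557093) (nat_lit 12) (.e (nat_lit 164022) (nat_lit 46) (.e (nat_lit 704736) (nat_lit 11) (.e (nat_lit 16385) (nat_lit 0) (.e (nat_lit 3241) (nat_lit 197) .nil))))))) (.g (nat_lit 1) (.e (nat_lit 402089) (nat_lit 0) .nil) .nil))) 
(.lf (nat_lit 592751) (.g (nat_lit 238) (.e (nat_lit 532559) (nat_lit 14) (.e (nat_lit 376869) (nat_lit 23) (.e (nat_lit 98350) (nat_lit 24) .nil))) (.g (nat_lit 0) (.e (nat_lit 402811) (nat_lit 0) .nil) .nil))))) (.nd (nat_lit 8) (.nd (nat_lit 9) 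
(.lf (nat_lit 592111) (.g (nat_lit 1752) (.e (nat_lit 532549) (nat_lit 12) (.e (nat_lit 360475) (nat_lit 8) (.e (nat_lit 557091) (nat_lit 12) (.e (nat_lit 164022) (nat_lit 46) .nil)))) (.g (nat_lit 0) (.e (nat_lit 401817) (nat_lit 0) .nil) .nil))) 
(.lf (nat_lit 592623) (.g (nat_lit 5606) (.e (nat_lit 532550) (nat_lit 12) (.e (nat_lit 360475) (nat_lit 8) (.e (nat_lit 557091) (nat_lit 12) (.e (nat_lit 164022) (nat_lit 46) (.e (nat_lit 704738) (nat_lit 11) (.e (nat_lit 16402) (nat_lit 0) (.e (nat_lit 3231) (nat_lit 197) .nil))))))) (.g (nat_lit 1) (.e (nat_lit 402497) (nat_lit 0) .nil) .nil)))) (.nd (nat_lit 9) 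
(.lf (nat_lit 592367) (.g (nat_lit 3484) (.e (nat_lit 532550) (nat_lit 12) (.e (nat_lit 360474) (nat_lit 8) (.e (nat_lit 557094) (nat_lit 12) (.e (nat_lit 164022) (nat_lit 46) (.e (nat_lit 704735) (nat_lit 11) (.e (nat_lit 16388) (nat_lit 0) (.e (nat_lit 3229) (nat_lit 197) .nil))))))) (.g (nat_lit 1) (.e (nat_lit 402217) (nat_lit 0) .nil) .nil))) 
(.lf (nat_lit 592879) (.g (nat_lit 2867) (.e (nat_lit 532563) (nat_lit 15) (.e (nat_lit 385066) (nat_lit 26) (.e (nat_lit 532553) (nat_lit 13) (.e (nat_lit 368676) (nat_lit 21) (.e (nat_lit 516115) (nat_lit 1) (.e (nat_lit 164242) (nat_lit 195) (.e (nat_lit 2611) (nat_lit 163) (.e (nat_lit 163963) (nat_lit 25) .nil)))))))) (.g (nat_lit 1) (.e (nat_lit 403096) (nat_lit 0) .nil) .nil)))))))) 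
(.nd (nat_lit 5) (.nd (nat_lit 6) (.nd (nat_lit 7) (.nd (nat_lit 8) (.nd (nat_lit 9) 
(.lf (nat_lit 591903) (.g (nat_lit 3372) (.e (nat_lit 532547) (nat_lit 11) (.e (nat_lit 352313) (nat_lit 23) (.e (nat_lit 98350) (nat_lit 24) (.e (nat_lit 409616) (nat_lit 10) (.e (nat_lit 5757) (nat_lit 315) .nil))))) (.g (nat_lit 0) (.e (nat_lit 401486) (nat_lit 0) .nil) .nil))) 
(.lf (nat_lit 592415) (.g (nat_lit 3777) (.e (nat_lit 532550) (nat_lit 12) (.e (nat_lit 360474) (nat_lit 8) (.e (nat_lit 557094) (nat_lit 12) (.e (nat_lit 164022) (nat_lit 46) (.e (nat_lit 704738) (nat_lit 11) (.e (nat_lit 16389) (nat_lit 0) (.e (nat_lit 3241) (nat_lit 197) .nil))))))) (.g (nat_lit 1) (.e (nat_lit 402265) (nat_lit 0) .nil) .nil)))) (.nd (nat_lit 9) 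
(.lf (nat_lit 592159) (.g (nat_lit 4232) (.e (nat_lit 532550) (nat_lit 12) (.e (nat_lit 360468) (nat_lit 3) (.e (nat_lit 516139) (nat_lit 7) (.e (nat_lit 409649) (nat_lit 18) (.e (nat_lit 303112) (nat_lit 0) (.e (nat_lit 3252) (nat_lit 197) .nil)))))) (.g (nat_lit 1) (.e (nat_lit 401974) (nat_lit 0) .nil) .nil))) 
(.lf (nat_lit 592671) (.g (nat_lit 460) (.e (nat_lit 532553) (nat_lit 13) (.e (nat_lit 368676) (nat_lit 21) (.e (nat_lit 516131) (nat_lit 3) .nil))) (.g (nat_lit 0) (.e (nat_lit 402583) (nat_lit 0) .nil) .nil))))) (.nd (nat_lit 8) (.nd (nat_lit 9) 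
(.lf (nat_lit 592031) (.g (nat_lit 2924) (.e (nat_lit 532549) (nat_lit 12) (.e (nat_lit 360473) (nat_lit 8) (.e (nat_lit 557087) (nat_lit 11) (.e (nat_lit 24583) (nat_lit 0) (.e (nat_lit 7936) (nat_lit 360) .nil))))) (.g (nat_lit 0) (.e (nat_lit 401719) (nat_lit 0) .nil) .nil))) 
(.lf (nat_lit 592543) (.g (nat_lit 4364) (.e (nat_lit 532550) (nat_lit 12) (.e (nat_lit 360475) (nat_lit 8) (.e (nat_lit 557091) (nat_lit 12) (.e (nat_lit 164022) (nat_lit 46) (.e (nat_lit 704735) (nat_lit 11) (.e (nat_lit 16391) (nat_lit 0) (.e (nat_lit 3241) (nat_lit 197) .nil))))))) (.g (nat_lit 1) (.e (nat_lit 402417) (nat_lit 0) .nil) .nil)))) (.nd (nat_lit 9) 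
(.lf (nat_lit 592287) (.g (nat_lit 5902) (.e (nat_lit 532550) (nat_lit 12) (.e (nat_lit 360474) (nat_lit 8) (.e (nat_lit 557093) (nat_lit 12) (.e (nat_lit 164022) (nat_lit 46) (.e (nat_lit 704738) (nat_lit 11) (.e (nat_lit 16385) (nat_lit 0) (.e (nat_lit 3242) (nat_lit 197) .nil))))))) (.g (nat_lit 1) (.e (nat_lit 402137) (nat_lit 0) .nil) .nil))) 
(.lf (nat_lit 592799) (.g (nat_lit 1382) (.e (nat_lit 532560) (nat_lit 14) (.e (nat_lit 376869) (nat_lit 23) (.e (nat_lit 98349) (nat_lit 24) (.e (nat_lit 409646) (nat_lit 18) (.e (nat_lit 303111) (nat_lit 0) .nil))))) (.g (nat_lit 0) (.e (nat_lit 402947) (nat_lit 0) .nil) .nil)))))) (.nd (nat_lit 7) (.nd (nat_lit 8) (.nd (nat_lit 9) 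
(.lf (nat_lit 591967) (.g (nat_lit 1749) (.e (nat_lit 532548) (nat_lit 11) (.e (nat_lit 352315) (nat_lit 23) (.e (nat_lit 98350) (nat_lit 24) (.e (nat_lit 409643) (nat_lit 18) .nil)))) (.g (nat_lit 0) (.e (nat_lit 401624) (nat_lit 0) .nil) .nil))) 
(.lf (nat_lit 592479) (.g (nat_lit 3486) (.e (nat_lit 532550) (nat_lit 12) (.e (nat_lit 360475) (nat_lit 8) (.e (nat_lit 557087) (nat_lit 11) (.e (nat_lit 24661) (nat_lit 14) (.e (nat_lit 401414) (nat_lit 0) (.e (nat_lit 3238) (nat_lit 197) .nil)))))) (.g (nat_lit 1) (.e (nat_lit 402349) (nat_lit 0) .nil) .nil)))) (.nd (nat_lit 9) 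
(.lf (nat_lit 592223) (.g (nat_lit 4621) (.e (nat_lit 532550) (nat_lit 12) (.e (nat_lit 360474) (nat_lit 8) (.e (nat_lit 557093) (nat_lit 12) (.e (nat_lit 164022) (nat_lit 46) (.e (nat_lit 704629) (nat_lit 9) (.e (nat_lit 375) (nat_lit 32) (.e (nat_lit 426025) (nat_lit 0) (.e (nat_lit 7936) (nat_lit 197) .nil)))))))) (.g (nat_lit 1) (.e (nat_lit 402073) (nat_lit 0) .nil) .nil))) 
(.lf (nat_lit 592735) (.g (nat_lit 1425) (.e (nat_lit 532559) (nat_lit 14) (.e (nat_lit 376865) (nat_lit 22) (.e (nat_lit 90185) (nat_lit 17) (.e (nat_lit 237585) (nat_lit 1) .nil)))) (.g (nat_lit 0) (.e (nat_lit 402792) (nat_lit 0) .nil) .nil))))) (.nd (nat_lit 8) (.nd (nat_lit 9) 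
(.lf (nat_lit 592095) (.g (nat_lit 2644) (.e (nat_lit 532549) (nat_lit 12) (.e (nat_lit 360475) (nat_lit 8) (.e (nat_lit 557087) (nat_lit 11) (.e (nat_lit 24591) (nat_lit 0) (.e (nat_lit 7936) (nat_lit 360) .nil))))) (.g (nat_lit 0) (.e (nat_lit 401799) (nat_lit 0) .nil) .nil))) 
(.lf (nat_lit 592607) (.g (nat_lit 5319) (.e (nat_lit 532550) (nat_lit 12) (.e (nat_lit 360475) (nat_lit 8) (.e (nat_lit 557091) (nat_lit 12) (.e (nat_lit 164022) (nat_lit 46) (.e (nat_lit 704738) (nat_lit 11) (.e (nat_lit 16390) (nat_lit 0) (.e (nat_lit 3237) (nat_lit 197) .nil))))))) (.g (nat_lit 1) (.e (nat_lit 402481) (nat_lit 0) .nil) .nil)))) (.nd (nat_lit 9) 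
(.lf (nat_lit 592351) (.g (nat_lit 2365) (.e (nat_lit 532550) (nat_lit 12) (.e (nat_lit 360474) (nat_lit 8) (.e (nat_lit 557094) (nat_lit 12) (.e (nat_lit 164018) (nat_lit 45) (.e (nat_lit 696345) (nat_lit 9) (.e (nat_lit 188160) (nat_lit 5) .nil)))))) (.g (nat_lit 1) (.e (nat_lit 402201) (nat_lit 0) .nil) .nil))) 
(.lf (nat_lit 592863) (.g (nat_lit 3160) (.e (nat_lit 532563) (nat_lit 15) (.e (nat_lit 385066) (nat_lit 26) (.e (nat_lit 532534) (nat_lit 9) (.e (nat_lit 336019) (nat_lit 3) (.e (nat_lit 98334) (nat_lit 18) (.e (nat_lit 164242) (nat_lit 195) (.e (nat_lit 2611) (nat_lit 163) (.e (nat_lit 163963) (nat_lit 25) .nil)))))))) (.g (nat_lit 1) (.e (nat_lit 403077) (nat_lit 0) .nil) .nil))))))) 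
(.nd (nat_lit 6) (.nd (nat_lit 7) (.nd (nat_lit 8) (.nd (nat_lit 9) 
(.lf (nat_lit 591935) (.g (nat_lit 2568) (.e (nat_lit 532547) (nat_lit 11) (.e (nat_lit 352315) (nat_lit 23) (.e (nat_lit 98350) (nat_lit 24) (.e (nat_lit 409614) (nat_lit 10) (.e (nat_lit 7936) (nat_lit 315) .nil))))) (.g (nat_lit 0) (.e (nat_lit 401538) (nat_lit 0) .nil) .nil))) 
(.lf (nat_lit 592447) (.g (nat_lit 3393) (.e (nat_lit 532550) (nat_lit 12) (.e (nat_lit 360475) (nat_lit 8) (.e (nat_lit 557086) (nat_lit 11) (.e (nat_lit 24617) (nat_lit 7) (.e (nat_lit 319504) (nat_lit 10) (.e (nat_lit 7936) (nat_lit 45) .nil)))))) (.g (nat_lit 1) (.e (nat_lit 402313) (nat_lit 0) .nil) .nil)))) (.nd (nat_lit 9) 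
(.lf (nat_lit 592191) (.g (nat_lit 4168) (.e (nat_lit 532550) (nat_lit 12) (.e (nat_lit 360474) (nat_lit 8) (.e (nat_lit 557085) (nat_lit 11) (.e (nat_lit 24617) (nat_lit 7) (.e (nat_lit 319504) (nat_lit 10) (.e (nat_lit 7936) (nat_lit 45) .nil)))))) (.g (nat_lit 1) (.e (nat_lit 402036) (nat_lit 0) .nil) .nil))) 
(.lf (nat_lit 592703) (.g (nat_lit 1644) (.e (nat_lit 532558) (nat_lit 14) (.e (nat_lit 376842) (nat_lit 11) (.e (nat_lit 426100) (nat_lit 1) (.e (nat_lit 164161) (nat_lit 152) (.e (nat_lit 7936) (nat_lit 81) .nil))))) (.g (nat_lit 0) (.e (nat_lit 402692) (nat_lit 0) .nil) .nil))))) (.nd (nat_lit 8) (.nd (nat_lit 9) 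
(.lf (nat_lit 592063) (.g (nat_lit 5705) (.e (nat_lit 532549) (nat_lit 12) (.e (nat_lit 360473) (nat_lit 8) (.e (nat_lit 557091) (nat_lit 12) (.e (nat_lit 164022) (nat_lit 46) (.e (nat_lit 704629) (nat_lit 9) (.e (nat_lit 442) (nat_lit 33) (.e (nat_lit 434234) (nat_lit 23) .nil))))))) (.g (nat_lit 1) (.e (nat_lit 401760) (nat_lit 0) .nil) .nil))) 
(.lf (nat_lit 592575) (.g (nat_lit 5300) (.e (nat_lit 532550) (nat_lit 12) (.e (nat_lit 360475) (nat_lit 8) (.e (nat_lit 557091) (nat_lit 12) (.e (nat_lit 164022) (nat_lit 46) (.e (nat_lit 704737) (nat_lit 11) (.e (nat_lit 16390) (nat_lit 0) (.e (nat_lit 3241) (nat_lit 197) .nil))))))) (.g (nat_lit 1) (.e (nat_lit 402449) (nat_lit 0) .nil) .nil)))) (.nd (nat_lit 9) 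
(.lf (nat_lit 592319) (.g (nat_lit 5137) (.e (nat_lit 532550) (nat_lit 12) (.e (nat_lit 360474) (nat_lit 8) (.e (nat_lit 557093) (nat_lit 12) (.e (nat_lit 164022) (nat_lit 46) (.e (nat_lit 704738) (nat_lit 11) (.e (nat_lit 16399) (nat_lit 0) (.e (nat_lit 3254) (nat_lit 197) .nil))))))) (.g (nat_lit 1) (.e (nat_lit 402169) (nat_lit 0) .nil) .nil))) 
(.lf (nat_lit 592831) (.g (nat_lit 3230) (.e (nat_lit 532561) (nat_lit 14) (.e (nat_lit 376869) (nat_lit 23) (.e (nat_lit 98349) (nat_lit 24) (.e (nat_lit 409645) (nat_lit 18) (.e (nat_lit 303112) (nat_lit 0) (.e (nat_lit 3252) (nat_lit 197) .nil)))))) (.g (nat_lit 1) (.e (nat_lit 403023) (nat_lit 0) .nil) .nil)))))) (.nd (nat_lit 7) (.nd (nat_lit 8) (.nd (nat_lit 9) 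
(.lf (nat_lit 591999) (.g (nat_lit 2642) (.e (nat_lit 532549) (nat_lit 12) (.e (nat_lit 360467) (nat_lit 3) (.e (nat_lit 516139) (nat_lit 7) (.e (nat_lit 409616) (nat_lit 10) (.e (nat_lit 5757) (nat_lit 315) .nil))))) (.g (nat_lit 0) (.e (nat_lit 401674) (nat_lit 0) .nil) .nil))) 
(.lf (nat_lit 592511) (.g (nat_lit 4600) (.e (nat_lit 532550) (nat_lit 12) (.e (nat_lit 360475) (nat_lit 8) (.e (nat_lit 557091) (nat_lit 12) (.e (nat_lit 163843) (nat_lit 0) (.e (nat_lit 6420) (nat_lit 341) (.e (nat_lit 163902) (nat_lit 12) (.e (nat_lit 425996) (nat_lit 0) (.e (nat_lit 3233) (nat_lit 197) .nil)))))))) (.g (nat_lit 1) (.e (nat_lit 402383) (nat_lit 0) .nil) .nil)))) 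
(.nd (nat_lit 9) 
(.lf (nat_lit 592255) (.g (nat_lit 5286) (.e (nat_lit 532550) (nat_lit 12) (.e (nat_lit 360474) (nat_lit 8) (.e (nat_lit 557093) (nat_lit 12) (.e (nat_lit 164022) (nat_lit 46) (.e (nat_lit 704737) (nat_lit 11) (.e (nat_lit 16384) (nat_lit 0) (.e (nat_lit 3250) (nat_lit 197) .nil))))))) (.g (nat_lit 1) (.e (nat_lit 402105) (nat_lit 0) .nil) .nil))) 
(.lf (nat_lit 592767) (.g (nat_lit 1250) (.e (nat_lit 532560) (nat_lit 14) (.e (nat_lit 376857) (nat_lit 21) (.e (nat_lit 57687) (nat_lit 156) (.e (nat_lit 163886) (nat_lit 5) .nil)))) (.g (nat_lit 0) (.e (nat_lit 402874) (nat_lit 0) .nil) .nil))))) (.nd (nat_lit 8) (.nd (nat_lit 9) 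
(.lf (nat_lit 592127) (.g (nat_lit 2802) (.e (nat_lit 532550) (nat_lit 12) (.e (nat_lit 360466) (nat_lit 3) (.e (nat_lit 516139) (nat_lit 7) (.e (nat_lit 409616) (nat_lit 10) (.e (nat_lit 5762) (nat_lit 315) (.e (nat_lit 163962) (nat_lit 25) .nil)))))) (.g (nat_lit 1) (.e (nat_lit 401913) (nat_lit 0) .nil) .nil))) 
(.lf (nat_lit 592639) (.g (nat_lit 2316) (.e (nat_lit 532551) (nat_lit 12) (.e (nat_lit 360467) (nat_lit 3) (.e (nat_lit 516139) (nat_lit 7) (.e (nat_lit 409609) (nat_lit 10) .nil)))) (.g (nat_lit 0) (.e (nat_lit 402529) (nat_lit 0) .nil) .nil)))) (.nd (nat_lit 9) 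
(.lf (nat_lit 592383) (.g (nat_lit 3591) (.e (nat_lit 532550) (nat_lit 12) (.e (nat_lit 360474) (nat_lit 8) (.e (nat_lit 557094) (nat_lit 12) (.e (nat_lit 164022) (nat_lit 46) (.e (nat_lit 704737) (nat_lit 11) (.e (nat_lit 16384) (nat_lit 0) (.e (nat_lit 3241) (nat_lit 197) .nil))))))) (.g (nat_lit 1) (.e (nat_lit 402233) (nat_lit 0) .nil) .nil))) 
(.lf (nat_lit 592895) (.g (nat_lit 1671) (.e (nat_lit 532563) (nat_lit 15) (.e (nat_lit 385068) (nat_lit 26) (.e (nat_lit 532534) (nat_lit 9) (.e (nat_lit 343808) (nat_lit 18) .nil)))) (.g (nat_lit 0) (.e (nat_lit 403121) (nat_lit 0) .nil) .nil)))))))))))))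

noncomputable def tv5639 : DT := (.nd (nat_lit 0) (.nd (nat_lit 1) (.nd (nat_lit 2) (.nd (nat_lit 3) (.nd (nat_lit 4) (.nd (nat_lit 5) (.nd (nat_lit 6) (.nd (nat_lit 7) (.nd (nat_lit 8) (.nd (nat_lit 9) 
(.lf (nat_lit 592896) (.g (nat_lit 3862) (.e (nat_lit 532563) (nat_lit 15) (.e (nat_lit 385068) (nat_lit 26) (.e (nat_lit 532535) (nat_lit 9) (.e (nat_lit 336295) (nat_lit 15) .nil)))) (.g (nat_lit 0) (.e (nat_lit 403122) (nat_lit 0) .nil) .nil))) 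
(.lf (nat_lit 593408) (.g (nat_lit 2729) (.e (nat_lit 540706) (nat_lit 12) (.e (nat_lit 360474) (nat_lit 8) (.e (nat_lit 557093) (nat_lit 12) (.e (nat_lit 164022) (nat_lit 46) (.e (nat_lit 704738) (nat_lit 11) (.e (nat_lit 16384) (nat_lit 0) (.e (nat_lit 3260) (nat_lit 198) .nil))))))) (.g (nat_lit 1) (.e (nat_lit 404685) (nat_lit 0) .nil) .nil)))) (.nd (nat_lit 9) 
(.lf (nat_lit 593152) (.g (nat_lit 1858) (.e (nat_lit 532569) (nat_lit 16) (.e (nat_lit 401451) (nat_lit 12) (.e (nat_lit 475185) (nat_lit 29) (.e (nat_lit 557107) (nat_lit 15) .nil)))) (.g (nat_lit 0) (.e (nat_lit 403725) (nat_lit 0) .nil) .nil))) 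
(.lf (nat_lit 593664) (.g (nat_lit 3174) (.e (nat_lit 516102) (nat_lit 0) (.e (nat_lit 6989) (nat_lit 377) (.e (nat_lit 2777) (nat_lit 178) (.e (nat_lit 286734) (nat_lit 3) (.e (nat_lit 98320) (nat_lit 17) .nil))))) (.g (nat_lit 0) (.e (nat_lit 405298) (nat_lit 0) .nil) .nil))))) (.nd (nat_lit 8) (.nd (nat_lit 9) 
(.lf (nat_lit 593024) (.g (nat_lit 2358) (.e (nat_lit 532568) (nat_lit 16) (.e (nat_lit 401434) (nat_lit 9) (.e (nat_lit 426125) (nat_lit 2) (.e (nat_lit 196628) (nat_lit 9) .nil)))) (.g (nat_lit 0) (.e (nat_lit 403469) (nat_lit 0) .nil) .nil))) 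
(.lf (nat_lit 593536) (.g (nat_lit 2804) (.e (nat_lit 540706) (nat_lit 12) (.e (nat_lit 360475) (nat_lit 8) (.e (nat_lit 557090) (nat_lit 12) (.e (nat_lit 164020) (nat_lit 45) (.e (nat_lit 696330) (nat_lit 5) (.e (nat_lit 2894) (nat_lit 184) (.e (nat_lit 426032) (nat_lit 0) (.e (nat_lit 3262) (nat_lit 198) .nil)))))))) (.g (nat_lit 1) (.e (nat_lit 404864) (nat_lit 0) .nil) .nil)))) 
(.nd (nat_lit 9) 
(.lf (nat_lit 593280) (.g (nat_lit 1499) (.e (nat_lit 540416) (nat_lit 26) (.e (nat_lit 426100) (nat_lit 1) (.e (nat_lit 164398) (nat_lit 256) (.e (nat_lit 57409) (nat_lit 12) .nil)))) (.g (nat_lit 0) (.e (nat_lit 404292) (nat_lit 0) .nil) .nil))) 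
(.lf (nat_lit 593792) (.g (nat_lit 4049) (.e (nat_lit 516115) (nat_lit 1) (.e (nat_lit 164325) (nat_lit 230) (.e (nat_lit 163907) (nat_lit 12) (.e (nat_lit 426566) (nat_lit 34) (.e (nat_lit 393294) (nat_lit 26) (.e (nat_lit 475179) (nat_lit 24) .nil)))))) (.g (nat_lit 1) (.e (nat_lit 405572) (nat_lit 0) .nil) .nil)))))) (.nd (nat_lit 7) (.nd (nat_lit 8) (.nd (nat_lit 9) 
(.lf (nat_lit 592960) (.g (nat_lit 2102) (.e (nat_lit 532566) (nat_lit 15) (.e (nat_lit 385066) (nat_lit 26) (.e (nat_lit 532534) (nat_lit 9) (.e (nat_lit 336257) (nat_lit 15) (.e (nat_lit 3252) (nat_lit 197) .nil))))) (.g (nat_lit 0) (.e (nat_lit 403323) (nat_lit 0) .nil) .nil))) 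
(.lf (nat_lit 593472) (.g (nat_lit 3927) (.e (nat_lit 540706) (nat_lit 12) (.e (nat_lit 360475) (nat_lit 8) (.e (nat_lit 557087) (nat_lit 11) (.e (nat_lit 24617) (nat_lit 7) (.e (nat_lit 319504) (nat_lit 10) (.e (nat_lit 7936) (nat_lit 46) .nil)))))) (.g (nat_lit 1) (.e (nat_lit 404784) (nat_lit 0) .nil) .nil)))) (.nd (nat_lit 9) 
(.lf (nat_lit 593216) (.g (nat_lit 2641) (.e (nat_lit 532579) (nat_lit 26) (.e (nat_lit 426100) (nat_lit 1) (.e (nat_lit 164403) (nat_lit 256) (.e (nat_lit 57406) (nat_lit 12) (.e (nat_lit 336433) (nat_lit 30) .nil))))) (.g (nat_lit 0) (.e (nat_lit 403864) (nat_lit 0) .nil) .nil))) 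
(.lf (nat_lit 593728) (.g (nat_lit 3200) (.e (nat_lit 516115) (nat_lit 1) (.e (nat_lit 164325) (nat_lit 230) (.e (nat_lit 163864) (nat_lit 1) (.e (nat_lit 164332) (nat_lit 230) (.e (nat_lit 163843) (nat_lit 0) (.e (nat_lit 3222) (nat_lit 196) (.e (nat_lit 524320) (nat_lit 12) (.e (nat_lit 458496) (nat_lit 3) .nil)))))))) (.g (nat_lit 1) (.e (nat_lit 405483) (nat_lit 0) .nil) .nil))))) 
(.nd (nat_lit 8) (.nd (nat_lit 9) 
(.lf (nat_lit 593088) (.g (nat_lit 4677) (.e (nat_lit 532569) (nat_lit 16) (.e (nat_lit 401448) (nat_lit 10) (.e (nat_lit 434231) (nat_lit 23) (.e (nat_lit 532523) (nat_lit 7) (.e (nat_lit 319505) (nat_lit 10) (.e (nat_lit 5712) (nat_lit 312) (.e (nat_lit 2508) (nat_lit 157) (.e (nat_lit 3249) (nat_lit 197) .nil)))))))) (.g (nat_lit 1) (.e (nat_lit 403633) (nat_lit 0) .nil) .nil))) 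
(.lf (nat_lit 593600) (.g (nat_lit 3474) (.e (nat_lit 540706) (nat_lit 12) (.e (nat_lit 360475) (nat_lit 8) (.e (nat_lit 557091) (nat_lit 12) (.e (nat_lit 164022) (nat_lit 46) (.e (nat_lit 704737) (nat_lit 11) (.e (nat_lit 16384) (nat_lit 0) (.e (nat_lit 3260) (nat_lit 198) .nil))))))) (.g (nat_lit 1) (.e (nat_lit 404945) (nat_lit 0) .nil) .nil)))) (.nd (nat_lit 9) 
(.lf (nat_lit 593344) (.g (nat_lit 381) (.e (nat_lit 540704) (nat_lit 12) (.e (nat_lit 360473) (nat_lit 8) (.e (nat_lit 557087) (nat_lit 11) .nil))) (.g (nat_lit 0) (.e (nat_lit 404540) (nat_lit 0) .nil) .nil))) 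
(.lf (nat_lit 593856) (.g (nat_lit 3252) (.e (nat_lit 516116) (nat_lit 1) (.e (nat_lit 164182) (nat_lit 154) (.e (nat_lit 57379) (nat_lit 3) (.e (nat_lit 98342) (nat_lit 20) (.e (nat_lit 221210) (nat_lit 22) (.e (nat_lit 196668) (nat_lit 14) (.e (nat_lit 73747) (nat_lit 3) .nil))))))) (.g (nat_lit 1) (.e (nat_lit 405700) (nat_lit 0) .nil) .nil))))))) 
(.nd (nat_lit 6) (.nd (nat_lit 7) (.nd (nat_lit 8) (.nd (nat_lit 9) 
(.lf (nat_lit 592928) (.g (nat_lit 2934) (.e (nat_lit 532564) (nat_lit 15) (.e (nat_lit 385109) (nat_lit 51) (.e (nat_lit 794666) (nat_lit 22) (.e (nat_lit 196656) (nat_lit 11) (.e (nat_lit 16448) (nat_lit 10) (.e (nat_lit 434231) (nat_lit 23) .nil)))))) (.g (nat_lit 1) (.e (nat_lit 403268) (nat_lit 0) .nil) .nil))) 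
(.lf (nat_lit 593440) (.g (nat_lit 2026) (.e (nat_lit 540706) (nat_lit 12) (.e (nat_lit 360474) (nat_lit 8) (.e (nat_lit 557094) (nat_lit 12) (.e (nat_lit 164022) (nat_lit 46) (.e (nat_lit 704737) (nat_lit 11) (.e (nat_lit 16390) (nat_lit 0) (.e (nat_lit 3259) (nat_lit 198) .nil))))))) (.g (nat_lit 1) (.e (nat_lit 404720) (nat_lit 0) .nil) .nil)))) (.nd (nat_lit 9) 
(.lf (nat_lit 593184) (.g (nat_lit 3073) (.e (nat_lit 532578) (nat_lit 26) (.e (nat_lit 426100) (nat_lit 1) (.e (nat_lit 164403) (nat_lit 256) (.e (nat_lit 57406) (nat_lit 12) (.e (nat_lit 336434) (nat_lit 30) .nil))))) (.g (nat_lit 0) (.e (nat_lit 403809) (nat_lit 0) .nil) .nil))) 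
(.lf (nat_lit 593696) (.g (nat_lit 3797) (.e (nat_lit 516106) (nat_lit 0) (.e (nat_lit 7112) (nat_lit 381) (.e (nat_lit 229644) (nat_lit 232) (.e (nat_lit 78) (nat_lit 0) (.e (nat_lit 3308) (nat_lit 202) (.e (nat_lit 573482) (nat_lit 13) (.e (nat_lit 65619) (nat_lit 10) (.e (nat_lit 344117) (nat_lit 21) .nil)))))))) (.g (nat_lit 1) (.e (nat_lit 405376) (nat_lit 0) .nil) .nil))))) 
(.nd (nat_lit 8) (.nd (nat_lit 9) 
(.lf (nat_lit 593056) (.g (nat_lit 3288) (.e (nat_lit 532569) (nat_lit 16) (.e (nat_lit 401434) (nat_lit 9) (.e (nat_lit 426125) (nat_lit 2) (.e (nat_lit 196661) (nat_lit 12) (.e (nat_lit 57748) (nat_lit 201) (.e (nat_lit 2939) (nat_lit 184) (.e (nat_lit 425984) (nat_lit 0) (.e (nat_lit 3233) (nat_lit 197) .nil)))))))) (.g (nat_lit 1) (.e (nat_lit 403546) (nat_lit 0) .nil) .nil))) 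
(.lf (nat_lit 593568) (.g (nat_lit 2271) (.e (nat_lit 540706) (nat_lit 12) (.e (nat_lit 360475) (nat_lit 8) (.e (nat_lit 557091) (nat_lit 12) (.e (nat_lit 163841) (nat_lit 0) (.e (nat_lit 6418) (nat_lit 341) .nil))))) (.g (nat_lit 0) (.e (nat_lit 404898) (nat_lit 0) .nil) .nil)))) (.nd (nat_lit 9) 
(.lf (nat_lit 593312) (.g (nat_lit 3867) (.e (nat_lit 540703) (nat_lit 11) (.e (nat_lit 352315) (nat_lit 23) (.e (nat_lit 98349) (nat_lit 24) (.e (nat_lit 409645) (nat_lit 18) (.e (nat_lit 303112) (nat_lit 0) (.e (nat_lit 3258) (nat_lit 198) .nil)))))) (.g (nat_lit 1) (.e (nat_lit 404484) (nat_lit 0) .nil) .nil))) 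
(.lf (nat_lit 593824) (.g (nat_lit 2798) (.e (nat_lit 516115) (nat_lit 1) (.e (nat_lit 164327) (nat_lit 230) (.e (nat_lit 163903) (nat_lit 12) (.e (nat_lit 426566) (nat_lit 34) (.e (nat_lit 393292) (nat_lit 26) .nil))))) (.g (nat_lit 0) (.e (nat_lit 405645) (nat_lit 0) .nil) .nil)))))) (.nd (nat_lit 7) (.nd (nat_lit 8) (.nd (nat_lit 9) 
(.lf (nat_lit 592992) (.g (nat_lit 1335) (.e (nat_lit 532566) (nat_lit 15) (.e (nat_lit 385094) (nat_lit 49) (.e (nat_lit 778318) (nat_lit 3) (.e (nat_lit 57476) (nat_lit 28) .nil)))) (.g (nat_lit 0) (.e (nat_lit 403377) (nat_lit 0) .nil) .nil))) 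
(.lf (nat_lit 593504) (.g (nat_lit 3213) (.e (nat_lit 540706) (nat_lit 12) (.e (nat_lit 360475) (nat_lit 8) (.e (nat_lit 557090) (nat_lit 12) (.e (nat_lit 163844) (nat_lit 0) (.e (nat_lit 6418) (nat_lit 341) (.e (nat_lit 163908) (nat_lit 12) (.e (nat_lit 426003) (nat_lit 0) (.e (nat_lit 3262) (nat_lit 198) .nil)))))))) (.g (nat_lit 1) (.e (nat_lit 404826) (nat_lit 0) .nil) .nil)))) 
(.nd (nat_lit 9) 
(.lf (nat_lit 593248) (.g (nat_lit 763) (.e (nat_lit 532581) (nat_lit 26) (.e (nat_lit 426110) (nat_lit 1) (.e (nat_lit 164399) (nat_lit 256) .nil))) (.g (nat_lit 0) (.e (nat_lit 404177) (nat_lit 0) .nil) .nil))) 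
(.lf (nat_lit 593760) (.g (nat_lit 2093) (.e (nat_lit 516115) (nat_lit 1) (.e (nat_lit 164325) (nat_lit 230) (.e (nat_lit 163903) (nat_lit 12) (.e (nat_lit 426566) (nat_lit 34) (.e (nat_lit 393272) (nat_lit 23) .nil))))) (.g (nat_lit 0) (.e (nat_lit 405535) (nat_lit 0) .nil) .nil))))) (.nd (nat_lit 8) (.nd (nat_lit 9) 
(.lf (nat_lit 593120) (.g (nat_lit 2285) (.e (nat_lit 532569) (nat_lit 16) (.e (nat_lit 401448) (nat_lit 10) (.e (nat_lit 434245) (nat_lit 28) (.e (nat_lit 573471) (nat_lit 11) (.e (nat_lit 16450) (nat_lit 11) .nil))))) (.g (nat_lit 0) (.e (nat_lit 403673) (nat_lit 0) .nil) .nil))) 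
(.lf (nat_lit 593632) (.g (nat_lit 3516) (.e (nat_lit 516097) (nat_lit 0) (.e (nat_lit 3387) (nat_lit 210) (.e (nat_lit 639020) (nat_lit 16) (.e (nat_lit 65571) (nat_lit 3) (.e (nat_lit 98372) (nat_lit 29) (.e (nat_lit 458496) (nat_lit 3) .nil)))))) (.g (nat_lit 1) (.e (nat_lit 405202) (nat_lit 0) .nil) .nil)))) (.nd (nat_lit 9) 
(.lf (nat_lit 593376) (.g (nat_lit 2567) (.e (nat_lit 540706) (nat_lit 12) (.e (nat_lit 360474) (nat_lit 8) (.e (nat_lit 557085) (nat_lit 11) (.e (nat_lit 24665) (nat_lit 14) (.e (nat_lit 401409) (nat_lit 0) .nil))))) (.g (nat_lit 0) (.e (nat_lit 404648) (nat_lit 0) .nil) .nil))) 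
(.lf (nat_lit 593888) (.g (nat_lit 1853) (.e (nat_lit 516117) (nat_lit 1) (.e (nat_lit 164322) (nat_lit 230) (.e (nat_lit 163902) (nat_lit 12) (.e (nat_lit 426479) (nat_lit 27) (.e (nat_lit 336414) (nat_lit 27) .nil))))) (.g (nat_lit 0) (.e (nat_lit 405812) (nat_lit 0) .nil) .nil)))))))) (.nd (nat_lit 5) (.nd (nat_lit 6) (.nd (nat_lit 7) (.nd (nat_lit 8) (.nd (nat_lit 9) 
(.lf (nat_lit 592912) (.g (nat_lit 1236) (.e (nat_lit 532564) (nat_lit 15) (.e (nat_lit 385066) (nat_lit 26) (.e (nat_lit 532530) (nat_lit 9) (.e (nat_lit 336326) (nat_lit 18) .nil)))) (.g (nat_lit 0) (.e (nat_lit 403205) (nat_lit 0) .nil) .nil))) 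
(.lf (nat_lit 593424) (.g (nat_lit 2119) (.e (nat_lit 540706) (nat_lit 12) (.e (nat_lit 360474) (nat_lit 8) (.e (nat_lit 557094) (nat_lit 12) (.e (nat_lit 164022) (nat_lit 46) (.e (nat_lit 704628) (nat_lit 9) (.e (nat_lit 443) (nat_lit 33) (.e (nat_lit 434235) (nat_lit 24) .nil))))))) (.g (nat_lit 1) (.e (nat_lit 404702) (nat_lit 0) .nil) .nil)))) (.nd (nat_lit 9) 
(.lf (nat_lit 593168) (.g (nat_lit 1033) (.e (nat_lit 540416) (nat_lit 18) (.e (nat_lit 164399) (nat_lit 256) (.e (nat_lit 57389) (nat_lit 5) (.e (nat_lit 114716) (nat_lit 22) .nil)))) (.g (nat_lit 0) (.e (nat_lit 403767) (nat_lit 0) .nil) .nil))) 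
(.lf (nat_lit 593680) (.g (nat_lit 3720) (.e (nat_lit 516106) (nat_lit 0) (.e (nat_lit 3390) (nat_lit 210) (.e (nat_lit 639020) (nat_lit 16) (.e (nat_lit 65571) (nat_lit 3) (.e (nat_lit 98372) (nat_lit 29) (.e (nat_lit 458496) (nat_lit 3) .nil)))))) (.g (nat_lit 1) (.e (nat_lit 405327) (nat_lit 0) .nil) .nil))))) (.nd (nat_lit 8) (.nd (nat_lit 9) 
(.lf (nat_lit 593040) (.g (nat_lit 1814) (.e (nat_lit 532568) (nat_lit 16) (.e (nat_lit 401452) (nat_lit 12) (.e (nat_lit 475183) (nat_lit 29) (.e (nat_lit 557100) (nat_lit 13) (.e (nat_lit 172106) (nat_lit 10) .nil))))) (.g (nat_lit 0) (.e (nat_lit 403507) (nat_lit 0) .nil) .nil))) 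
(.lf (nat_lit 593552) (.g (nat_lit 3754) (.e (nat_lit 540706) (nat_lit 12) (.e (nat_lit 360475) (nat_lit 8) (.e (nat_lit 557090) (nat_lit 12) (.e (nat_lit 164020) (nat_lit 45) (.e (nat_lit 696343) (nat_lit 8) (.e (nat_lit 172032) (nat_lit 0) (.e (nat_lit 3260) (nat_lit 198) .nil))))))) (.g (nat_lit 1) (.e (nat_lit 404880) (nat_lit 0) .nil) .nil)))) (.nd (nat_lit 9) 
(.lf (nat_lit 593296) (.g (nat_lit 3210) (.e (nat_lit 540684) (nat_lit 3) (.e (nat_lit 114698) (nat_lit 11) (.e (nat_lit 426124) (nat_lit 2) (.e (nat_lit 196668) (nat_lit 14) .nil)))) (.g (nat_lit 0) (.e (nat_lit 404448) (nat_lit 0) .nil) .nil))) 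
(.lf (nat_lit 593808) (.g (nat_lit 1761) (.e (nat_lit 516115) (nat_lit 1) (.e (nat_lit 164327) (nat_lit 230) (.e (nat_lit 163875) (nat_lit 3) (.e (nat_lit 204836) (nat_lit 20) (.e (nat_lit 114716) (nat_lit 22) .nil))))) (.g (nat_lit 0) (.e (nat_lit 405628) (nat_lit 0) .nil) .nil)))))) (.nd (nat_lit 7) (.nd (nat_lit 8) (.nd (nat_lit 9) 
(.lf (nat_lit 592976) (.g (nat_lit 1725) (.e (nat_lit 532566) (nat_lit 15) (.e (nat_lit 385068) (nat_lit 26) (.e (nat_lit 532530) (nat_lit 9) (.e (nat_lit 336316) (nat_lit 17) .nil)))) (.g (nat_lit 0) (.e (nat_lit 403342) (nat_lit 0) .nil) .nil))) 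
(.lf (nat_lit 593488) (.g (nat_lit 4094) (.e (nat_lit 540706) (nat_lit 12) (.e (nat_lit 360475) (nat_lit 8) (.e (nat_lit 557089) (nat_lit 12) (.e (nat_lit 163844) (nat_lit 0) (.e (nat_lit 6418) (nat_lit 341) (.e (nat_lit 163908) (nat_lit 12) (.e (nat_lit 426003) (nat_lit 0) (.e (nat_lit 3262) (nat_lit 198) .nil)))))))) (.g (nat_lit 1) (.e (nat_lit 404800) (nat_lit 0) .nil) .nil)))) 
(.nd (nat_lit 9) 
(.lf (nat_lit 593232) (.g (nat_lit 3545) (.e (nat_lit 532579) (nat_lit 26) (.e (nat_lit 426108) (nat_lit 1) (.e (nat_lit 164402) (nat_lit 256) (.e (nat_lit 57406) (nat_lit 12) (.e (nat_lit 336398) (nat_lit 27) (.e (nat_lit 426290) (nat_lit 10) (.e (nat_lit 434231) (nat_lit 23) .nil))))))) (.g (nat_lit 1) (.e (nat_lit 403892) (nat_lit 0) .nil) .nil))) 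
(.lf (nat_lit 593744) (.g (nat_lit 3289) (.e (nat_lit 516115) (nat_lit 1) (.e (nat_lit 164325) (nat_lit 230) (.e (nat_lit 163873) (nat_lit 3) (.e (nat_lit 204813) (nat_lit 9) (.e (nat_lit 426139) (nat_lit 3) (.e (nat_lit 204821) (nat_lit 17) (.e (nat_lit 2155) (nat_lit 142) (.e (nat_lit 704746) (nat_lit 12) (.e (nat_lit 57465) (nat_lit 23) .nil))))))))) (.g (nat_lit 1) (.e (nat_lit 405516) (nat_lit 0) .nil) .nil))))) 
(.nd (nat_lit 8) (.nd (nat_lit 9) 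
(.lf (nat_lit 593104) (.g (nat_lit 620) (.e (nat_lit 532569) (nat_lit 16) (.e (nat_lit 401448) (nat_lit 10) (.e (nat_lit 434242) (nat_lit 28) .nil))) (.g (nat_lit 0) (.e (nat_lit 403654) (nat_lit 0) .nil) .nil))) 
(.lf (nat_lit 593616) (.g (nat_lit 4222) (.e (nat_lit 540706) (nat_lit 12) (.e (nat_lit 360475) (nat_lit 8) (.e (nat_lit 557091) (nat_lit 12) (.e (nat_lit 164022) (nat_lit 46) (.e (nat_lit 704738) (nat_lit 11) (.e (nat_lit 16385) (nat_lit 0) (.e (nat_lit 3260) (nat_lit 198) .nil))))))) (.g (nat_lit 1) (.e (nat_lit 404961) (nat_lit 0) .nil) .nil)))) (.nd (nat_lit 9) 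
(.lf (nat_lit 593360) (.g (nat_lit 2092) (.e (nat_lit 540704) (nat_lit 12) (.e (nat_lit 360475) (nat_lit 8) (.e (nat_lit 557087) (nat_lit 11) (.e (nat_lit 24617) (nat_lit 7) (.e (nat_lit 319504) (nat_lit 10) .nil))))) (.g (nat_lit 0) (.e (nat_lit 404556) (nat_lit 0) .nil) .nil))) 
(.lf (nat_lit 593872) (.g (nat_lit 1511) (.e (nat_lit 516116) (nat_lit 1) (.e (nat_lit 164332) (nat_lit 230) (.e (nat_lit 163905) (nat_lit 12) (.e (nat_lit 426568) (nat_lit 34) (.e (nat_lit 393294) (nat_lit 26) .nil))))) (.g (nat_lit 0) (.e (nat_lit 405731) (nat_lit 0) .nil) .nil))))))) (.nd (nat_lit 6) (.nd (nat_lit 7) (.nd (nat_lit 8) (.nd (nat_lit 9) 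
(.lf (nat_lit 592944) (.g (nat_lit 450) (.e (nat_lit 532565) (nat_lit 15) (.e (nat_lit 385068) (nat_lit 26) (.e (nat_lit 532566) (nat_lit 15) .nil))) (.g (nat_lit 0) (.e (nat_lit 403299) (nat_lit 0) .nil) .nil))) 
(.lf (nat_lit 593456) (.g (nat_lit 3209) (.e (nat_lit 540706) (nat_lit 12) (.e (nat_lit 360475) (nat_lit 8) (.e (nat_lit 557086) (nat_lit 11) (.e (nat_lit 24661) (nat_lit 14) (.e (nat_lit 401410) (nat_lit 0) (.e (nat_lit 3262) (nat_lit 198) .nil)))))) (.g (nat_lit 1) (.e (nat_lit 404767) (nat_lit 0) .nil) .nil)))) (.nd (nat_lit 9) 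
(.lf (nat_lit 593200) (.g (nat_lit 1243) (.e (nat_lit 532579) (nat_lit 26) (.e (nat_lit 426098) (nat_lit 1) (.e (nat_lit 164398) (nat_lit 256) (.e (nat_lit 57448) (nat_lit 19) .nil)))) (.g (nat_lit 0) (.e (nat_lit 403846) (nat_lit 0) .nil) .nil))) 
(.lf (nat_lit 593712) (.g (nat_lit 3152) (.e (nat_lit 516115) (nat_lit 1) (.e (nat_lit 164179) (nat_lit 154) (.e (nat_lit 57372) (nat_lit 2) (.e (nat_lit 90128) (nat_lit 9) (.e (nat_lit 2706) (nat_lit 170) (.e (nat_lit 221215) (nat_lit 23) (.e (nat_lit 204863) (nat_lit 27) (.e (nat_lit 344120) (nat_lit 21) .nil)))))))) (.g (nat_lit 1) (.e (nat_lit 405412) (nat_lit 0) .nil) .nil))))) 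
(.nd (nat_lit 8) (.nd (nat_lit 9) 
(.lf (nat_lit 593072) (.g (nat_lit 2753) (.e (nat_lit 532569) (nat_lit 16) (.e (nat_lit 401448) (nat_lit 10) (.e (nat_lit 434227) (nat_lit 20) (.e (nat_lit 507929) (nat_lit 10) (.e (nat_lit 5779) (nat_lit 317) (.e (nat_lit 188160) (nat_lit 5) .nil)))))) (.g (nat_lit 1) (.e (nat_lit 403617) (nat_lit 0) .nil) .nil))) 
(.lf (nat_lit 593584) (.g (nat_lit 3894) (.e (nat_lit 540706) (nat_lit 12) (.e (nat_lit 360475) (nat_lit 8) (.e (nat_lit 557091) (nat_lit 12) (.e (nat_lit 164022) (nat_lit 46) (.e (nat_lit 704628) (nat_lit 9) (.e (nat_lit 375) (nat_lit 32) (.e (nat_lit 426032) (nat_lit 0) (.e (nat_lit 3262) (nat_lit 198) .nil)))))))) (.g (nat_lit 1) (.e (nat_lit 404924) (nat_lit 0) .nil) .nil)))) (.nd (nat_lit 9) 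
(.lf (nat_lit 593328) (.g (nat_lit 2383) (.e (nat_lit 540704) (nat_lit 12) (.e (nat_lit 360466) (nat_lit 3) (.e (nat_lit 516139) (nat_lit 7) (.e (nat_lit 409644) (nat_lit 18) (.e (nat_lit 303112) (nat_lit 0) .nil))))) (.g (nat_lit 0) (.e (nat_lit 404513) (nat_lit 0) .nil) .nil))) 
(.lf (nat_lit 593840) (.g (nat_lit 1771) (.e (nat_lit 516115) (nat_lit 1) (.e (nat_lit 164332) (nat_lit 230) (.e (nat_lit 163905) (nat_lit 12) (.e (nat_lit 426487) (nat_lit 27) .nil)))) (.g (nat_lit 0) (.e (nat_lit 405675) (nat_lit 0) .nil) .nil)))))) (.nd (nat_lit 7) (.nd (nat_lit 8) (.nd (nat_lit 9) 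
(.lf (nat_lit 593008) (.g (nat_lit 3496) (.e (nat_lit 532567) (nat_lit 16) (.e (nat_lit 401451) (nat_lit 12) (.e (nat_lit 475185) (nat_lit 29) (.e (nat_lit 557109) (nat_lit 15) .nil)))) (.g (nat_lit 0) (.e (nat_lit 403440) (nat_lit 0) .nil) .nil))) 
(.lf (nat_lit 593520) (.g (nat_lit 1976) (.e (nat_lit 540706) (nat_lit 12) (.e (nat_lit 360475) (nat_lit 8) (.e (nat_lit 557090) (nat_lit 12) (.e (nat_lit 164020) (nat_lit 45) (.e (nat_lit 696328) (nat_lit 5) (.e (nat_lit 2876) (nat_lit 184) (.e (nat_lit 426032) (nat_lit 0) (.e (nat_lit 3262) (nat_lit 198) .nil)))))))) (.g (nat_lit 1) (.e (nat_lit 404847) (nat_lit 0) .nil) .nil)))) 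
(.nd (nat_lit 9) 
(.lf (nat_lit 593264) (.g (nat_lit 2493) (.e (nat_lit 532583) (nat_lit 26) (.e (nat_lit 426100) (nat_lit 1) (.e (nat_lit 164398) (nat_lit 256) (.e (nat_lit 57406) (nat_lit 12) (.e (nat_lit 336434) (nat_lit 30) .nil))))) (.g (nat_lit 0) (.e (nat_lit 404200) (nat_lit 0) .nil) .nil))) 
(.lf (nat_lit 593776) (.g (nat_lit 3741) (.e (nat_lit 516115) (nat_lit 1) (.e (nat_lit 164325) (nat_lit 230) (.e (nat_lit 163905) (nat_lit 12) (.e (nat_lit 426566) (nat_lit 34) (.e (nat_lit 393273) (nat_lit 23) (.e (nat_lit 426364) (nat_lit 15) (.e (nat_lit 1798) (nat_lit 119) .nil))))))) (.g (nat_lit 1) (.e (nat_lit 405552) (nat_lit 0) .nil) .nil))))) (.nd (nat_lit 8) (.nd (nat_lit 9) 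
(.lf (nat_lit 593136) (.g (nat_lit 332) (.e (nat_lit 532569) (nat_lit 16) (.e (nat_lit 401448) (nat_lit 10) (.e (nat_lit 434248) (nat_lit 28) .nil))) (.g (nat_lit 0) (.e (nat_lit 403690) (nat_lit 0) .nil) .nil))) 
(.lf (nat_lit 593648) (.g (nat_lit 856) (.e (nat_lit 516098) (nat_lit 0) (.e (nat_lit 7593) (nat_lit 407) (.e (nat_lit 73748) (nat_lit 3) (.e (nat_lit 516106) (nat_lit 0) .nil)))) (.g (nat_lit 0) (.e (nat_lit 405261) (nat_lit 0) .nil) .nil)))) (.nd (nat_lit 9) 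
(.lf (nat_lit 593392) (.g (nat_lit 2229) (.e (nat_lit 540706) (nat_lit 12) (.e (nat_lit 360474) (nat_lit 8) (.e (nat_lit 557093) (nat_lit 12) (.e (nat_lit 164022) (nat_lit 46) (.e (nat_lit 704736) (nat_lit 11) (.e (nat_lit 16385) (nat_lit 0) (.e (nat_lit 3259) (nat_lit 198) .nil))))))) (.g (nat_lit 1) (.e (nat_lit 404669) (nat_lit 0) .nil) .nil))) 
(.lf (nat_lit 593904) (.g (nat_lit 1381) (.e (nat_lit 516117) (nat_lit 1) (.e (nat_lit 164329) (nat_lit 230) (.e (nat_lit 163941) (nat_lit 19) (.e (nat_lit 483331) (nat_lit 0) (.e (nat_lit 7335) (nat_lit 388) .nil))))) (.g (nat_lit 0) (.e (nat_lit 405848) (nat_lit 0) .nil) .nil))))))))) (.nd (nat_lit 4) (.nd (nat_lit 5) (.nd (nat_lit 6) (.nd (nat_lit 7) (.nd (nat_lit 8) (.nd (nat_lit 9) 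
(.lf (nat_lit 592904) (.g (nat_lit 1197) (.e (nat_lit 532563) (nat_lit 15) (.e (nat_lit 385105) (nat_lit 50) (.e (nat_lit 786450) (nat_lit 15) (.e (nat_lit 1853) (nat_lit 124) .nil)))) (.g (nat_lit 0) (.e (nat_lit 403156) (nat_lit 0) .nil) .nil))) 
(.lf (nat_lit 593416) (.g (nat_lit 1569) (.e (nat_lit 540706) (nat_lit 12) (.e (nat_lit 360474) (nat_lit 8) (.e (nat_lit 557093) (nat_lit 12) (.e (nat_lit 164023) (nat_lit 46) .nil)))) (.g (nat_lit 0) (.e (nat_lit 404693) (nat_lit 0) .nil) .nil)))) (.nd (nat_lit 9) 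
(.lf (nat_lit 593160) (.g (nat_lit 1143) (.e (nat_lit 540416) (nat_lit 16) (.e (nat_lit 401453) (nat_lit 12) (.e (nat_lit 475183) (nat_lit 29) (.e (nat_lit 557098) (nat_lit 13) .nil)))) (.g (nat_lit 0) (.e (nat_lit 403742) (nat_lit 0) .nil) .nil))) 
(.lf (nat_lit 593672) (.g (nat_lit 5042) (.e (nat_lit 516102) (nat_lit 0) (.e (nat_lit 7107) (nat_lit 380) (.e (nat_lit 164366) (nat_lit 246) (.e (nat_lit 2664) (nat_lit 167) (.e (nat_lit 196666) (nat_lit 13) (.e (nat_lit 65610) (nat_lit 10) (.e (nat_lit 344117) (nat_lit 21) .nil))))))) (.g (nat_lit 1) (.e (nat_lit 405308) (nat_lit 0) .nil) .nil))))) (.nd (nat_lit 8) (.nd (nat_lit 9) 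
(.lf (nat_lit 593032) (.g (nat_lit 785) (.e (nat_lit 532568) (nat_lit 16) (.e (nat_lit 401450) (nat_lit 12) (.e (nat_lit 475184) (nat_lit 29) .nil))) (.g (nat_lit 0) (.e (nat_lit 403493) (nat_lit 0) .nil) .nil))) 
(.lf (nat_lit 593544) (.g (nat_lit 2158) (.e (nat_lit 540706) (nat_lit 12) (.e (nat_lit 360475) (nat_lit 8) (.e (nat_lit 557090) (nat_lit 12) (.e (nat_lit 164020) (nat_lit 45) (.e (nat_lit 696336) (nat_lit 5) .nil))))) (.g (nat_lit 0) (.e (nat_lit 404872) (nat_lit 0) .nil) .nil)))) (.nd (nat_lit 9) 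
(.lf (nat_lit 593288) (.g (nat_lit 49) (.e (nat_lit 540416) (nat_lit 28) (.e (nat_lit 442391) (nat_lit 19) (.e (nat_lit 409344) (nat_lit 30) .nil))) (.g (nat_lit 0) (.e (nat_lit 404358) (nat_lit 0) .nil) .nil))) 
(.lf (nat_lit 593800) (.g (nat_lit 2003) (.e (nat_lit 516115) (nat_lit 1) (.e (nat_lit 164325) (nat_lit 230) (.e (nat_lit 163942) (nat_lit 19) (.e (nat_lit 483341) (nat_lit 9) (.e (nat_lit 426200) (nat_lit 9) (.e (nat_lit 426363) (nat_lit 15) (.e (nat_lit 1799) (nat_lit 119) .nil))))))) (.g (nat_lit 1) (.e (nat_lit 405609) (nat_lit 0) .nil) .nil)))))) 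
(.nd (nat_lit 7) (.nd (nat_lit 8) (.nd (nat_lit 9) 
(.lf (nat_lit 592968) (.g (nat_lit 382) (.e (nat_lit 532566) (nat_lit 15) (.e (nat_lit 385066) (nat_lit 26) (.e (nat_lit 532565) (nat_lit 15) .nil))) (.g (nat_lit 0) (.e (nat_lit 403332) (nat_lit 0) .nil) .nil))) 
(.lf (nat_lit 593480) (.g (nat_lit 3519) (.e (nat_lit 540706) (nat_lit 12) (.e (nat_lit 360475) (nat_lit 8) (.e (nat_lit 557087) (nat_lit 11) (.e (nat_lit 24665) (nat_lit 14) (.e (nat_lit 401409) (nat_lit 0) (.e (nat_lit 3262) (nat_lit 198) .nil)))))) (.g (nat_lit 1) (.e (nat_lit 404792) (nat_lit 0) .nil) .nil)))) (.nd (nat_lit 9) 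
(.lf (nat_lit 593224) (.g (nat_lit 1445) (.e (nat_lit 532579) (nat_lit 26) (.e (nat_lit 426107) (nat_lit 1) (.e (nat_lit 164347) (nat_lit 240) (.e (nat_lit 2619) (nat_lit 164) (.e (nat_lit 172127) (nat_lit 15) .nil))))) (.g (nat_lit 0) (.e (nat_lit 403874) (nat_lit 0) .nil) .nil))) 
(.lf (nat_lit 593736) (.g (nat_lit 3626) (.e (nat_lit 516115) (nat_lit 1) (.e (nat_lit 164325) (nat_lit 230) (.e (nat_lit 163873) (nat_lit 3) (.e (nat_lit 204809) (nat_lit 9) (.e (nat_lit 426139) (nat_lit 3) (.e (nat_lit 204834) (nat_lit 19) (.e (nat_lit 106538) (nat_lit 12) (.e (nat_lit 57465) (nat_lit 23) .nil)))))))) (.g (nat_lit 1) (.e (nat_lit 405507) (nat_lit 0) .nil) .nil))))) 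
(.nd (nat_lit 8) (.nd (nat_lit 9) 
(.lf (nat_lit 593096) (.g (nat_lit 2562) (.e (nat_lit 532569) (nat_lit 16) (.e (nat_lit 401448) (nat_lit 10) (.e (nat_lit 434232) (nat_lit 23) (.e (nat_lit 532523) (nat_lit 7) (.e (nat_lit 319504) (nat_lit 10) (.e (nat_lit 5714) (nat_lit 312) (.e (nat_lit 2505) (nat_lit 157) (.e (nat_lit 3249) (nat_lit 197) .nil)))))))) (.g (nat_lit 1) (.e (nat_lit 403642) (nat_lit 0) .nil) .nil))) 
(.lf (nat_lit 593608) (.g (nat_lit 3553) (.e (nat_lit 540706) (nat_lit 12) (.e (nat_lit 360475) (nat_lit 8) (.e (nat_lit 557091) (nat_lit 12) (.e (nat_lit 164022) (nat_lit 46) (.e (nat_lit 704737) (nat_lit 11) (.e (nat_lit 16394) (nat_lit 0) (.e (nat_lit 3262) (nat_lit 198) .nil))))))) (.g (nat_lit 1) (.e (nat_lit 404953) (nat_lit 0) .nil) .nil)))) (.nd (nat_lit 9) 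
(.lf (nat_lit 593352) (.g (nat_lit 3461) (.e (nat_lit 540704) (nat_lit 12) (.e (nat_lit 360473) (nat_lit 8) (.e (nat_lit 557090) (nat_lit 12) (.e (nat_lit 164020) (nat_lit 45) (.e (nat_lit 696344) (nat_lit 8) (.e (nat_lit 172033) (nat_lit 0) (.e (nat_lit 3257) (nat_lit 198) .nil))))))) (.g (nat_lit 1) (.e (nat_lit 404548) (nat_lit 0) .nil) .nil))) 
(.lf (nat_lit 593864) (.g (nat_lit 2402) (.e (nat_lit 516116) (nat_lit 1) (.e (nat_lit 164329) (nat_lit 230) (.e (nat_lit 163941) (nat_lit 19) (.e (nat_lit 483341) (nat_lit 9) (.e (nat_lit 426199) (nat_lit 9) .nil))))) (.g (nat_lit 0) (.e (nat_lit 405715) (nat_lit 0) .nil) .nil))))))) (.nd (nat_lit 6) (.nd (nat_lit 7) (.nd (nat_lit 8) (.nd (nat_lit 9) 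
(.lf (nat_lit 592936) (.g (nat_lit 1927) (.e (nat_lit 532565) (nat_lit 15) (.e (nat_lit 385066) (nat_lit 26) (.e (nat_lit 532566) (nat_lit 15) (.e (nat_lit 385066) (nat_lit 26) (.e (nat_lit 532566) (nat_lit 15) (.e (nat_lit 385066) (nat_lit 26) .nil)))))) (.g (nat_lit 1) (.e (nat_lit 403290) (nat_lit 0) .nil) .nil))) 
(.lf (nat_lit 593448) (.g (nat_lit 2686) (.e (nat_lit 540706) (nat_lit 12) (.e (nat_lit 360475) (nat_lit 8) (.e (nat_lit 557085) (nat_lit 11) (.e (nat_lit 24665) (nat_lit 14) (.e (nat_lit 401408) (nat_lit 0) .nil))))) (.g (nat_lit 0) (.e (nat_lit 404756) (nat_lit 0) .nil) .nil)))) (.nd (nat_lit 9) 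
(.lf (nat_lit 593192) (.g (nat_lit 783) (.e (nat_lit 532578) (nat_lit 26) (.e (nat_lit 426189) (nat_lit 9) (.e (nat_lit 426562) (nat_lit 33) (.e (nat_lit 392960) (nat_lit 5) .nil)))) (.g (nat_lit 0) (.e (nat_lit 403825) (nat_lit 0) .nil) .nil))) 
(.lf (nat_lit 593704) (.g (nat_lit 2491) (.e (nat_lit 516114) (nat_lit 1) (.e (nat_lit 164182) (nat_lit 154) (.e (nat_lit 57379) (nat_lit 3) (.e (nat_lit 98342) (nat_lit 20) (.e (nat_lit 221210) (nat_lit 22) .nil))))) (.g (nat_lit 0) (.e (nat_lit 405390) (nat_lit 0) .nil) .nil))))) (.nd (nat_lit 8) (.nd (nat_lit 9) 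
(.lf (nat_lit 593064) (.g (nat_lit 3409) (.e (nat_lit 532569) (nat_lit 16) (.e (nat_lit 401440) (nat_lit 9) (.e (nat_lit 426136) (nat_lit 3) (.e (nat_lit 204846) (nat_lit 24) (.e (nat_lit 319504) (nat_lit 10) (.e (nat_lit 5712) (nat_lit 312) (.e (nat_lit 2508) (nat_lit 157) (.e (nat_lit 3249) (nat_lit 197) .nil)))))))) (.g (nat_lit 1) (.e (nat_lit 403558) (nat_lit 0) .nil) .nil))) 
(.lf (nat_lit 593576) (.g (nat_lit 3836) (.e (nat_lit 540706) (nat_lit 12) (.e (nat_lit 360475) (nat_lit 8) (.e (nat_lit 557091) (nat_lit 12) (.e (nat_lit 163847) (nat_lit 0) (.e (nat_lit 6418) (nat_lit 341) (.e (nat_lit 163908) (nat_lit 12) (.e (nat_lit 426003) (nat_lit 0) (.e (nat_lit 3262) (nat_lit 198) .nil)))))))) (.g (nat_lit 1) (.e (nat_lit 404908) (nat_lit 0) .nil) .nil)))) 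
(.nd (nat_lit 9) 
(.lf (nat_lit 593320) (.g (nat_lit 1749) (.e (nat_lit 540703) (nat_lit 11) (.e (nat_lit 352315) (nat_lit 23) (.e (nat_lit 98367) (nat_lit 27) (.e (nat_lit 434268) (nat_lit 36) .nil)))) (.g (nat_lit 0) (.e (nat_lit 404494) (nat_lit 0) .nil) .nil))) 
(.lf (nat_lit 593832) (.g (nat_lit 2839) (.e (nat_lit 516115) (nat_lit 1) (.e (nat_lit 164327) (nat_lit 230) (.e (nat_lit 163907) (nat_lit 12) (.e (nat_lit 426566) (nat_lit 34) (.e (nat_lit 393273) (nat_lit 23) (.e (nat_lit 426392) (nat_lit 15) (.e (nat_lit 1796) (nat_lit 119) .nil))))))) (.g (nat_lit 1) (.e (nat_lit 405653) (nat_lit 0) .nil) .nil)))))) 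
(.nd (nat_lit 7) (.nd (nat_lit 8) (.nd (nat_lit 9) 
(.lf (nat_lit 593000) (.g (nat_lit 1892) (.e (nat_lit 532567) (nat_lit 16) (.e (nat_lit 401448) (nat_lit 10) (.e (nat_lit 434231) (nat_lit 23) (.e (nat_lit 532490) (nat_lit 0) .nil)))) (.g (nat_lit 0) (.e (nat_lit 403423) (nat_lit 0) .nil) .nil))) 
(.lf (nat_lit 593512) (.g (nat_lit 3164) (.e (nat_lit 540706) (nat_lit 12) (.e (nat_lit 360475) (nat_lit 8) (.e (nat_lit 557090) (nat_lit 12) (.e (nat_lit 164017) (nat_lit 44) (.e (nat_lit 688139) (nat_lit 5) .nil))))) (.g (nat_lit 0) (.e (nat_lit 404836) (nat_lit 0) .nil) .nil)))) (.nd (nat_lit 9) 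
(.lf (nat_lit 593256) (.g (nat_lit 1999) (.e (nat_lit 532582) (nat_lit 26) (.e (nat_lit 426100) (nat_lit 1) (.e (nat_lit 164403) (nat_lit 256) (.e (nat_lit 57409) (nat_lit 12) .nil)))) (.g (nat_lit 0) (.e (nat_lit 404186) (nat_lit 0) .nil) .nil))) 
(.lf (nat_lit 593768) (.g (nat_lit 1740) (.e (nat_lit 516115) (nat_lit 1) (.e (nat_lit 164325) (nat_lit 230) (.e (nat_lit 163903) (nat_lit 12) (.e (nat_lit 426567) (nat_lit 34) .nil)))) (.g (nat_lit 0) (.e (nat_lit 405543) (nat_lit 0) .nil) .nil))))) (.nd (nat_lit 8) (.nd (nat_lit 9) 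
(.lf (nat_lit 593128) (.g (nat_lit 2327) (.e (nat_lit 532569) (nat_lit 16) (.e (nat_lit 401448) (nat_lit 10) (.e (nat_lit 434246) (nat_lit 28) (.e (nat_lit 573471) (nat_lit 11) (.e (nat_lit 16444) (nat_lit 9) (.e (nat_lit 426072) (nat_lit 0) (.e (nat_lit 3249) (nat_lit 197) .nil))))))) (.g (nat_lit 1) (.e (nat_lit 403681) (nat_lit 0) .nil) .nil))) 
(.lf (nat_lit 593640) (.g (nat_lit 2382) (.e (nat_lit 516098) (nat_lit 0) (.e (nat_lit 7065) (nat_lit 377) (.e (nat_lit 1348) (nat_lit 102) (.e (nat_lit 286733) (nat_lit 2) (.e (nat_lit 90128) (nat_lit 9) (.e (nat_lit 3031) (nat_lit 188) (.e (nat_lit 466688) (nat_lit 3) (.e (nat_lit 57464) (nat_lit 23) .nil)))))))) (.g (nat_lit 1) (.e (nat_lit 405249) (nat_lit 0) .nil) .nil)))) (.nd (nat_lit 9) 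
(.lf (nat_lit 593384) (.g (nat_lit 2247) (.e (nat_lit 540706) (nat_lit 12) (.e (nat_lit 360474) (nat_lit 8) (.e (nat_lit 557093) (nat_lit 12) (.e (nat_lit 164022) (nat_lit 46) (.e (nat_lit 704628) (nat_lit 9) (.e (nat_lit 443) (nat_lit 33) (.e (nat_lit 434235) (nat_lit 24) .nil))))))) (.g (nat_lit 1) (.e (nat_lit 404659) (nat_lit 0) .nil) .nil))) 
(.lf (nat_lit 593896) (.g (nat_lit 2446) (.e (nat_lit 516117) (nat_lit 1) (.e (nat_lit 164329) (nat_lit 230) (.e (nat_lit 163902) (nat_lit 12) (.e (nat_lit 426568) (nat_lit 34) (.e (nat_lit 393233) (nat_lit 17) (.e (nat_lit 7376) (nat_lit 389) (.e (nat_lit 8320) (nat_lit 64) .nil))))))) (.g (nat_lit 1) (.e (nat_lit 405829) (nat_lit 0) .nil) .nil)))))))) 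
(.nd (nat_lit 5) (.nd (nat_lit 6) (.nd (nat_lit 7) (.nd (nat_lit 8) (.nd (nat_lit 9) 
(.lf (nat_lit 592920) (.g (nat_lit 2512) (.e (nat_lit 532564) (nat_lit 15) (.e (nat_lit 385068) (nat_lit 26) (.e (nat_lit 532530) (nat_lit 9) (.e (nat_lit 336324) (nat_lit 18) (.e (nat_lit 204880) (nat_lit 32) .nil))))) (.g (nat_lit 0) (.e (nat_lit 403213) (nat_lit 0) .nil) .nil))) 
(.lf (nat_lit 593432) (.g (nat_lit 1809) (.e (nat_lit 540706) (nat_lit 12) (.e (nat_lit 360474) (nat_lit 8) (.e (nat_lit 557094) (nat_lit 12) (.e (nat_lit 164022) (nat_lit 46) (.e (nat_lit 704736) (nat_lit 11) (.e (nat_lit 16390) (nat_lit 0) (.e (nat_lit 3260) (nat_lit 198) .nil))))))) (.g (nat_lit 1) (.e (nat_lit 404712) (nat_lit 0) .nil) .nil)))) (.nd (nat_lit 9) 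
(.lf (nat_lit 593176) (.g (nat_lit 1544) (.e (nat_lit 532578) (nat_lit 26) (.e (nat_lit 426099) (nat_lit 1) (.e (nat_lit 164398) (nat_lit 256) (.e (nat_lit 57409) (nat_lit 12) (.e (nat_lit 336434) (nat_lit 30) .nil))))) (.g (nat_lit 0) (.e (nat_lit 403801) (nat_lit 0) .nil) .nil))) 
(.lf (nat_lit 593688) (.g (nat_lit 1741) (.e (nat_lit 516106) (nat_lit 0) (.e (nat_lit 6986) (nat_lit 377) (.e (nat_lit 2777) (nat_lit 178) (.e (nat_lit 286733) (nat_lit 2) .nil)))) (.g (nat_lit 0) (.e (nat_lit 405368) (nat_lit 0) .nil) .nil))))) (.nd (nat_lit 8) (.nd (nat_lit 9) 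
(.lf (nat_lit 593048) (.g (nat_lit 1259) (.e (nat_lit 532568) (nat_lit 16) (.e (nat_lit 401459) (nat_lit 13) (.e (nat_lit 483370) (nat_lit 20) .nil))) (.g (nat_lit 0) (.e (nat_lit 403533) (nat_lit 0) .nil) .nil))) 
(.lf (nat_lit 593560) (.g (nat_lit 3507) (.e (nat_lit 540706) (nat_lit 12) (.e (nat_lit 360475) (nat_lit 8) (.e (nat_lit 557090) (nat_lit 12) (.e (nat_lit 164020) (nat_lit 45) (.e (nat_lit 696344) (nat_lit 8) (.e (nat_lit 172041) (nat_lit 0) (.e (nat_lit 3259) (nat_lit 198) .nil))))))) (.g (nat_lit 1) (.e (nat_lit 404888) (nat_lit 0) .nil) .nil)))) (.nd (nat_lit 9) 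
(.lf (nat_lit 593304) (.g (nat_lit 946) (.e (nat_lit 540703) (nat_lit 11) (.e (nat_lit 352273) (nat_lit 11) (.e (nat_lit 433920) (nat_lit 35) (.e (nat_lit 401454) (nat_lit 12) (.e (nat_lit 475181) (nat_lit 27) .nil))))) (.g (nat_lit 0) (.e (nat_lit 404469) (nat_lit 0) .nil) .nil))) 
(.lf (nat_lit 593816) (.g (nat_lit 2339) (.e (nat_lit 516115) (nat_lit 1) (.e (nat_lit 164327) (nat_lit 230) (.e (nat_lit 163903) (nat_lit 12) (.e (nat_lit 426479) (nat_lit 27) (.e (nat_lit 336414) (nat_lit 27) .nil))))) (.g (nat_lit 0) (.e (nat_lit 405636) (nat_lit 0) .nil) .nil)))))) (.nd (nat_lit 7) (.nd (nat_lit 8) (.nd (nat_lit 9) 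
(.lf (nat_lit 592984) (.g (nat_lit 2243) (.e (nat_lit 532566) (nat_lit 15) (.e (nat_lit 385092) (nat_lit 49) (.e (nat_lit 778317) (nat_lit 3) (.e (nat_lit 57476) (nat_lit 28) (.e (nat_lit 557067) (nat_lit 9) (.e (nat_lit 3021) (nat_lit 187) (.e (nat_lit 450579) (nat_lit 5) .nil))))))) (.g (nat_lit 1) (.e (nat_lit 403356) (nat_lit 0) .nil) .nil))) 
(.lf (nat_lit 593496) (.g (nat_lit 4313) (.e (nat_lit 540706) (nat_lit 12) (.e (nat_lit 360475) (nat_lit 8) (.e (nat_lit 557089) (nat_lit 12) (.e (nat_lit 164017) (nat_lit 44) (.e (nat_lit 688139) (nat_lit 5) (.e (nat_lit 2887) (nat_lit 184) (.e (nat_lit 426032) (nat_lit 0) (.e (nat_lit 3262) (nat_lit 198) .nil)))))))) (.g (nat_lit 1) (.e (nat_lit 404815) (nat_lit 0) .nil) .nil)))) 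
(.nd (nat_lit 9) 
(.lf (nat_lit 593240) (.g (nat_lit 1649) (.e (nat_lit 532579) (nat_lit 26) (.e (nat_lit 426172) (nat_lit 7) (.e (nat_lit 409612) (nat_lit 10) (.e (nat_lit 934) (nat_lit 76) (.e (nat_lit 786481) (nat_lit 30) (.e (nat_lit 368384) (nat_lit 5) .nil)))))) (.g (nat_lit 1) (.e (nat_lit 404040) (nat_lit 0) .nil) .nil))) 
(.lf (nat_lit 593752) (.g (nat_lit 4179) (.e (nat_lit 516115) (nat_lit 1) (.e (nat_lit 164325) (nat_lit 230) (.e (nat_lit 163902) (nat_lit 12) (.e (nat_lit 426566) (nat_lit 34) (.e (nat_lit 393293) (nat_lit 26) (.e (nat_lit 475179) (nat_lit 24) .nil)))))) (.g (nat_lit 1) (.e (nat_lit 405526) (nat_lit 0) .nil) .nil))))) (.nd (nat_lit 8) (.nd (nat_lit 9) 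
(.lf (nat_lit 593112) (.g (nat_lit 2767) (.e (nat_lit 532569) (nat_lit 16) (.e (nat_lit 401448) (nat_lit 10) (.e (nat_lit 434244) (nat_lit 28) (.e (nat_lit 573470) (nat_lit 11) (.e (nat_lit 16454) (nat_lit 11) .nil))))) (.g (nat_lit 0) (.e (nat_lit 403665) (nat_lit 0) .nil) .nil))) 
(.lf (nat_lit 593624) (.g (nat_lit 1009) (.e (nat_lit 540706) (nat_lit 12) (.e (nat_lit 360475) (nat_lit 8) (.e (nat_lit 557093) (nat_lit 12) .nil))) (.g (nat_lit 0) (.e (nat_lit 404971) (nat_lit 0) .nil) .nil)))) (.nd (nat_lit 9) 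
(.lf (nat_lit 593368) (.g (nat_lit 2417) (.e (nat_lit 540705) (nat_lit 12) (.e (nat_lit 360475) (nat_lit 8) (.e (nat_lit 557091) (nat_lit 12) (.e (nat_lit 163843) (nat_lit 0) .nil)))) (.g (nat_lit 0) (.e (nat_lit 404565) (nat_lit 0) .nil) .nil))) 
(.lf (nat_lit 593880) (.g (nat_lit 1473) (.e (nat_lit 516116) (nat_lit 1) (.e (nat_lit 164399) (nat_lit 256) (.e (nat_lit 57374) (nat_lit 2) (.e (nat_lit 90174) (nat_lit 14) .nil)))) (.g (nat_lit 0) (.e (nat_lit 405742) (nat_lit 0) .nil) .nil))))))) (.nd (nat_lit 6) (.nd (nat_lit 7) (.nd (nat_lit 8) (.nd (nat_lit 9) 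
(.lf (nat_lit 592952) (.g (nat_lit 3299) (.e (nat_lit 532566) (nat_lit 15) (.e (nat_lit 385066) (nat_lit 26) (.e (nat_lit 532530) (nat_lit 9) (.e (nat_lit 336324) (nat_lit 18) (.e (nat_lit 204882) (nat_lit 32) (.e (nat_lit 385066) (nat_lit 26) .nil)))))) (.g (nat_lit 1) (.e (nat_lit 403314) (nat_lit 0) .nil) .nil))) 
(.lf (nat_lit 593464) (.g (nat_lit 3373) (.e (nat_lit 540706) (nat_lit 12) (.e (nat_lit 360475) (nat_lit 8) (.e (nat_lit 557086) (nat_lit 11) (.e (nat_lit 24665) (nat_lit 14) (.e (nat_lit 401408) (nat_lit 0) (.e (nat_lit 3259) (nat_lit 198) .nil)))))) (.g (nat_lit 1) (.e (nat_lit 404775) (nat_lit 0) .nil) .nil)))) (.nd (nat_lit 9) 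
(.lf (nat_lit 593208) (.g (nat_lit 2923) (.e (nat_lit 532579) (nat_lit 26) (.e (nat_lit 426100) (nat_lit 1) (.e (nat_lit 164397) (nat_lit 256) (.e (nat_lit 57411) (nat_lit 12) (.e (nat_lit 336432) (nat_lit 30) .nil))))) (.g (nat_lit 0) (.e (nat_lit 403855) (nat_lit 0) .nil) .nil))) 
(.lf (nat_lit 593720) (.g (nat_lit 2749) (.e (nat_lit 516115) (nat_lit 1) (.e (nat_lit 164183) (nat_lit 154) (.e (nat_lit 57375) (nat_lit 2) (.e (nat_lit 90128) (nat_lit 9) (.e (nat_lit 2706) (nat_lit 170) (.e (nat_lit 221215) (nat_lit 23) (.e (nat_lit 204863) (nat_lit 27) (.e (nat_lit 344120) (nat_lit 21) .nil)))))))) (.g (nat_lit 1) (.e (nat_lit 405449) (nat_lit 0) .nil) .nil))))) 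
(.nd (nat_lit 8) (.nd (nat_lit 9) 
(.lf (nat_lit 593080) (.g (nat_lit 2276) (.e (nat_lit 532569) (nat_lit 16) (.e (nat_lit 401448) (nat_lit 10) (.e (nat_lit 434231) (nat_lit 23) (.e (nat_lit 532483) (nat_lit 0) .nil)))) (.g (nat_lit 0) (.e (nat_lit 403625) (nat_lit 0) .nil) .nil))) 
(.lf (nat_lit 593592) (.g (nat_lit 2685) (.e (nat_lit 540706) (nat_lit 12) (.e (nat_lit 360475) (nat_lit 8) (.e (nat_lit 557091) (nat_lit 12) (.e (nat_lit 164022) (nat_lit 46) (.e (nat_lit 704735) (nat_lit 11) (.e (nat_lit 16395) (nat_lit 0) (.e (nat_lit 3262) (nat_lit 198) .nil))))))) (.g (nat_lit 1) (.e (nat_lit 404937) (nat_lit 0) .nil) .nil)))) (.nd (nat_lit 9) 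
(.lf (nat_lit 593336) (.g (nat_lit 2025) (.e (nat_lit 540704) (nat_lit 12) (.e (nat_lit 360467) (nat_lit 3) (.e (nat_lit 516139) (nat_lit 7) (.e (nat_lit 409644) (nat_lit 18) .nil)))) (.g (nat_lit 0) (.e (nat_lit 404530) (nat_lit 0) .nil) .nil))) 
(.lf (nat_lit 593848) (.g (nat_lit 669) (.e (nat_lit 516115) (nat_lit 1) (.e (nat_lit 164332) (nat_lit 230) (.e (nat_lit 163938) (nat_lit 18) .nil))) (.g (nat_lit 0) (.e (nat_lit 405683) (nat_lit 0) .nil) .nil)))))) (.nd (nat_lit 7) (.nd (nat_lit 8) (.nd (nat_lit 9) 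
(.lf (nat_lit 593016) (.g (nat_lit 3521) (.e (nat_lit 532567) (nat_lit 16) (.e (nat_lit 401454) (nat_lit 12) (.e (nat_lit 475184) (nat_lit 29) (.e (nat_lit 557101) (nat_lit 13) (.e (nat_lit 172115) (nat_lit 10) (.e (nat_lit 434231) (nat_lit 23) .nil)))))) (.g (nat_lit 1) (.e (nat_lit 403456) (nat_lit 0) .nil) .nil))) 
(.lf (nat_lit 593528) (.g (nat_lit 2086) (.e (nat_lit 540706) (nat_lit 12) (.e (nat_lit 360475) (nat_lit 8) (.e (nat_lit 557090) (nat_lit 12) (.e (nat_lit 164020) (nat_lit 45) (.e (nat_lit 696328) (nat_lit 5) (.e (nat_lit 2978) (nat_lit 185) (.e (nat_lit 434235) (nat_lit 24) .nil))))))) (.g (nat_lit 1) (.e (nat_lit 404856) (nat_lit 0) .nil) .nil)))) (.nd (nat_lit 9) 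
(.lf (nat_lit 593272) (.g (nat_lit 1080) (.e (nat_lit 532583) (nat_lit 26) (.e (nat_lit 426107) (nat_lit 1) (.e (nat_lit 164403) (nat_lit 256) (.e (nat_lit 57406) (nat_lit 12) .nil)))) (.g (nat_lit 0) (.e (nat_lit 404208) (nat_lit 0) .nil) .nil))) 
(.lf (nat_lit 593784) (.g (nat_lit 2096) (.e (nat_lit 516115) (nat_lit 1) (.e (nat_lit 164325) (nat_lit 230) (.e (nat_lit 163907) (nat_lit 12) (.e (nat_lit 426502) (nat_lit 27) (.e (nat_lit 336387) (nat_lit 27) .nil))))) (.g (nat_lit 0) (.e (nat_lit 405563) (nat_lit 0) .nil) .nil))))) (.nd (nat_lit 8) (.nd (nat_lit 9) 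
(.lf (nat_lit 593144) (.g (nat_lit 3181) (.e (nat_lit 532569) (nat_lit 16) (.e (nat_lit 401450) (nat_lit 12) (.e (nat_lit 475185) (nat_lit 29) (.e (nat_lit 557100) (nat_lit 13) (.e (nat_lit 172115) (nat_lit 10) .nil))))) (.g (nat_lit 0) (.e (nat_lit 403702) (nat_lit 0) .nil) .nil))) 
(.lf (nat_lit 593656) (.g (nat_lit 1619) (.e (nat_lit 516102) (nat_lit 0) (.e (nat_lit 6989) (nat_lit 377) (.e (nat_lit 2810) (nat_lit 180) (.e (nat_lit 303119) (nat_lit 3) (.e (nat_lit 204860) (nat_lit 26) .nil))))) (.g (nat_lit 0) (.e (nat_lit 405289) (nat_lit 0) .nil) .nil)))) (.nd (nat_lit 9) 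
(.lf (nat_lit 593400) (.g (nat_lit 3057) (.e (nat_lit 540706) (nat_lit 12) (.e (nat_lit 360474) (nat_lit 8) (.e (nat_lit 557093) (nat_lit 12) (.e (nat_lit 164022) (nat_lit 46) (.e (nat_lit 704737) (nat_lit 11) (.e (nat_lit 16384) (nat_lit 0) (.e (nat_lit 3262) (nat_lit 198) .nil))))))) (.g (nat_lit 1) (.e (nat_lit 404677) (nat_lit 0) .nil) .nil))) 
(.lf (nat_lit 593912) (.g (nat_lit 2755) (.e (nat_lit 516117) (nat_lit 1) (.e (nat_lit 164330) (nat_lit 230) (.e (nat_lit 163873) (nat_lit 3) (.e (nat_lit 204809) (nat_lit 9) (.e (nat_lit 426139) (nat_lit 3) (.e (nat_lit 204835) (nat_lit 19) (.e (nat_lit 106539) (nat_lit 12) (.e (nat_lit 57466) (nat_lit 23) .nil)))))))) (.g (nat_lit 1) (.e (nat_lit 405858) (nat_lit 0) .nil) .nil)))))))))) 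
(.nd (nat_lit 3) (.nd (nat_lit 4) (.nd (nat_lit 5) (.nd (nat_lit 6) (.nd (nat_lit 7) 
(.nd (nat_lit 8) (.nd (nat_lit 9) 
(.lf (nat_lit 592900) (.g (nat_lit 2940) (.e (nat_lit 532563) (nat_lit 15) (.e (nat_lit 385093) (nat_lit 49) (.e (nat_lit 778317) (nat_lit 3) (.e (nat_lit 57479) (nat_lit 28) (.e (nat_lit 557067) (nat_lit 9) .nil))))) (.g (nat_lit 0) (.e (nat_lit 403129) (nat_lit 0) .nil) .nil))) 
(.lf (nat_lit 593412) (.g (nat_lit 3686) (.e (nat_lit 540706) (nat_lit 12) (.e (nat_lit 360474) (nat_lit 8) (.e (nat_lit 557093) (nat_lit 12) (.e (nat_lit 164022) (nat_lit 46) (.e (nat_lit 704738) (nat_lit 11) (.e (nat_lit 16390) (nat_lit 0) (.e (nat_lit 3262) (nat_lit 198) .nil))))))) (.g (nat_lit 1) (.e (nat_lit 404689) (nat_lit 0) .nil) .nil)))) (.nd (nat_lit 9) 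
(.lf (nat_lit 593156) (.g (nat_lit 3636) (.e (nat_lit 540416) (nat_lit 16) (.e (nat_lit 401451) (nat_lit 12) (.e (nat_lit 475185) (nat_lit 29) (.e (nat_lit 557098) (nat_lit 13) .nil)))) (.g (nat_lit 0) (.e (nat_lit 403738) (nat_lit 0) .nil) .nil))) 
(.lf (nat_lit 593668) (.g (nat_lit 3655) (.e (nat_lit 516102) (nat_lit 0) (.e (nat_lit 7101) (nat_lit 380) (.e (nat_lit 164351) (nat_lit 246) (.e (nat_lit 2668) (nat_lit 167) (.e (nat_lit 196666) (nat_lit 13) (.e (nat_lit 65610) (nat_lit 10) (.e (nat_lit 344117) (nat_lit 21) .nil))))))) (.g (nat_lit 1) (.e (nat_lit 405303) (nat_lit 0) .nil) .nil))))) (.nd (nat_lit 8) (.nd (nat_lit 9) 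
(.lf (nat_lit 593028) (.g (nat_lit 642) (.e (nat_lit 532568) (nat_lit 16) (.e (nat_lit 401438) (nat_lit 9) (.e (nat_lit 426392) (nat_lit 15) .nil))) (.g (nat_lit 0) (.e (nat_lit 403475) (nat_lit 0) .nil) .nil))) 
(.lf (nat_lit 593540) (.g (nat_lit 2399) (.e (nat_lit 540706) (nat_lit 12) (.e (nat_lit 360475) (nat_lit 8) (.e (nat_lit 557090) (nat_lit 12) (.e (nat_lit 164020) (nat_lit 45) (.e (nat_lit 696330) (nat_lit 5) (.e (nat_lit 2970) (nat_lit 185) (.e (nat_lit 434235) (nat_lit 24) .nil))))))) (.g (nat_lit 1) (.e (nat_lit 404868) (nat_lit 0) .nil) .nil)))) (.nd (nat_lit 9) 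
(.lf (nat_lit 593284) (.g (nat_lit 1181) (.e (nat_lit 540416) (nat_lit 26) (.e (nat_lit 426190) (nat_lit 9) (.e (nat_lit 426562) (nat_lit 33) (.e (nat_lit 385041) (nat_lit 19) (.e (nat_lit 164294) (nat_lit 224) .nil))))) (.g (nat_lit 0) (.e (nat_lit 404297) (nat_lit 0) .nil) .nil))) 
(.lf (nat_lit 593796) (.g (nat_lit 1075) (.e (nat_lit 516115) (nat_lit 1) (.e (nat_lit 164325) (nat_lit 230) (.e (nat_lit 163941) (nat_lit 19) (.e (nat_lit 483341) (nat_lit 9) .nil)))) (.g (nat_lit 0) (.e (nat_lit 405594) (nat_lit 0) .nil) .nil)))))) (.nd (nat_lit 7) (.nd (nat_lit 8) (.nd (nat_lit 9) 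
(.lf (nat_lit 592964) (.g (nat_lit 1651) (.e (nat_lit 532566) (nat_lit 15) (.e (nat_lit 385066) (nat_lit 26) (.e (nat_lit 532534) (nat_lit 9) (.e (nat_lit 336326) (nat_lit 18) (.e (nat_lit 204879) (nat_lit 32) .nil))))) (.g (nat_lit 0) (.e (nat_lit 403328) (nat_lit 0) .nil) .nil))) 
(.lf (nat_lit 593476) (.g (nat_lit 3305) (.e (nat_lit 540706) (nat_lit 12) (.e (nat_lit 360475) (nat_lit 8) (.e (nat_lit 557087) (nat_lit 11) (.e (nat_lit 24661) (nat_lit 14) (.e (nat_lit 401410) (nat_lit 0) (.e (nat_lit 3262) (nat_lit 198) .nil)))))) (.g (nat_lit 1) (.e (nat_lit 404788) (nat_lit 0) .nil) .nil)))) (.nd (nat_lit 9) 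
(.lf (nat_lit 593220) (.g (nat_lit 2837) (.e (nat_lit 532579) (nat_lit 26) (.e (nat_lit 426100) (nat_lit 1) (.e (nat_lit 164403) (nat_lit 256) (.e (nat_lit 57445) (nat_lit 19) (.e (nat_lit 393287) (nat_lit 25) .nil))))) (.g (nat_lit 0) (.e (nat_lit 403868) (nat_lit 0) .nil) .nil))) 
(.lf (nat_lit 593732) (.g (nat_lit 2816) (.e (nat_lit 516115) (nat_lit 1) (.e (nat_lit 164325) (nat_lit 230) (.e (nat_lit 163873) (nat_lit 3) (.e (nat_lit 204809) (nat_lit 9) (.e (nat_lit 426139) (nat_lit 3) (.e (nat_lit 204832) (nat_lit 19) (.e (nat_lit 106539) (nat_lit 12) (.e (nat_lit 57466) (nat_lit 23) .nil)))))))) (.g (nat_lit 1) (.e (nat_lit 405502) (nat_lit 0) .nil) .nil))))) 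
(.nd (nat_lit 8) (.nd (nat_lit 9) 
(.lf (nat_lit 593092) (.g (nat_lit 306) (.e (nat_lit 532569) (nat_lit 16) (.e (nat_lit 401448) (nat_lit 10) (.e (nat_lit 434232) (nat_lit 23) .nil))) (.g (nat_lit 0) (.e (nat_lit 403638) (nat_lit 0) .nil) .nil))) 
(.lf (nat_lit 593604) (.g (nat_lit 3974) (.e (nat_lit 540706) (nat_lit 12) (.e (nat_lit 360475) (nat_lit 8) (.e (nat_lit 557091) (nat_lit 12) (.e (nat_lit 164022) (nat_lit 46) (.e (nat_lit 704737) (nat_lit 11) (.e (nat_lit 16388) (nat_lit 0) (.e (nat_lit 3257) (nat_lit 198) .nil))))))) (.g (nat_lit 1) (.e (nat_lit 404949) (nat_lit 0) .nil) .nil)))) (.nd (nat_lit 9) 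
(.lf (nat_lit 593348) (.g (nat_lit 2369) (.e (nat_lit 540704) (nat_lit 12) (.e (nat_lit 360473) (nat_lit 8) (.e (nat_lit 557090) (nat_lit 12) (.e (nat_lit 163843) (nat_lit 0) .nil)))) (.g (nat_lit 0) (.e (nat_lit 404544) (nat_lit 0) .nil) .nil))) 
(.lf (nat_lit 593860) (.g (nat_lit 2218) (.e (nat_lit 516116) (nat_lit 1) (.e (nat_lit 164329) (nat_lit 230) (.e (nat_lit 163902) (nat_lit 12) (.e (nat_lit 426566) (nat_lit 34) (.e (nat_lit 393293) (nat_lit 26) (.e (nat_lit 475175) (nat_lit 24) .nil)))))) (.g (nat_lit 1) (.e (nat_lit 405710) (nat_lit 0) .nil) .nil))))))) (.nd (nat_lit 6) (.nd (nat_lit 7) (.nd (nat_lit 8) (.nd (nat_lit 9) 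
(.lf (nat_lit 592932) (.g (nat_lit 4764) (.e (nat_lit 532565) (nat_lit 15) (.e (nat_lit 385065) (nat_lit 26) (.e (nat_lit 532535) (nat_lit 9) (.e (nat_lit 336295) (nat_lit 15) (.e (nat_lit 3253) (nat_lit 197) .nil))))) (.g (nat_lit 0) (.e (nat_lit 403286) (nat_lit 0) .nil) .nil))) 
(.lf (nat_lit 593444) (.g (nat_lit 2967) (.e (nat_lit 540706) (nat_lit 12) (.e (nat_lit 360474) (nat_lit 8) (.e (nat_lit 557094) (nat_lit 12) (.e (nat_lit 164022) (nat_lit 46) (.e (nat_lit 704738) (nat_lit 11) (.e (nat_lit 16385) (nat_lit 0) (.e (nat_lit 3262) (nat_lit 198) .nil))))))) (.g (nat_lit 1) (.e (nat_lit 404724) (nat_lit 0) .nil) .nil)))) (.nd (nat_lit 9) 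
(.lf (nat_lit 593188) (.g (nat_lit 2713) (.e (nat_lit 532578) (nat_lit 26) (.e (nat_lit 426107) (nat_lit 1) (.e (nat_lit 164403) (nat_lit 256) (.e (nat_lit 57406) (nat_lit 12) (.e (nat_lit 336434) (nat_lit 30) .nil))))) (.g (nat_lit 0) (.e (nat_lit 403814) (nat_lit 0) .nil) .nil))) 
(.lf (nat_lit 593700) (.g (nat_lit 4129) (.e (nat_lit 516109) (nat_lit 0) (.e (nat_lit 6986) (nat_lit 377) (.e (nat_lit 2819) (nat_lit 181) (.e (nat_lit 311315) (nat_lit 3) .nil)))) (.g (nat_lit 0) (.e (nat_lit 405385) (nat_lit 0) .nil) .nil))))) (.nd (nat_lit 8) (.nd (nat_lit 9) 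
(.lf (nat_lit 593060) (.g (nat_lit 2967) (.e (nat_lit 532569) (nat_lit 16) (.e (nat_lit 401434) (nat_lit 9) (.e (nat_lit 426125) (nat_lit 2) (.e (nat_lit 196661) (nat_lit 12) (.e (nat_lit 65280) (nat_lit 206) (.e (nat_lit 180242) (nat_lit 5) .nil)))))) (.g (nat_lit 1) (.e (nat_lit 403551) (nat_lit 0) .nil) .nil))) 
(.lf (nat_lit 593572) (.g (nat_lit 4524) (.e (nat_lit 540706) (nat_lit 12) (.e (nat_lit 360475) (nat_lit 8) (.e (nat_lit 557091) (nat_lit 12) (.e (nat_lit 163843) (nat_lit 0) (.e (nat_lit 6420) (nat_lit 341) (.e (nat_lit 163902) (nat_lit 12) (.e (nat_lit 425985) (nat_lit 0) (.e (nat_lit 3262) (nat_lit 198) .nil)))))))) (.g (nat_lit 1) (.e (nat_lit 404904) (nat_lit 0) .nil) .nil)))) 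
(.nd (nat_lit 9) 
(.lf (nat_lit 593316) (.g (nat_lit 3279) (.e (nat_lit 540703) (nat_lit 11) (.e (nat_lit 352315) (nat_lit 23) (.e (nat_lit 98350) (nat_lit 24) (.e (nat_lit 409646) (nat_lit 18) (.e (nat_lit 303112) (nat_lit 0) (.e (nat_lit 3258) (nat_lit 198) .nil)))))) (.g (nat_lit 1) (.e (nat_lit 404488) (nat_lit 0) .nil) .nil))) 
(.lf (nat_lit 593828) (.g (nat_lit 2671) (.e (nat_lit 516115) (nat_lit 1) (.e (nat_lit 164327) (nat_lit 230) (.e (nat_lit 163903) (nat_lit 12) (.e (nat_lit 426568) (nat_lit 34) (.e (nat_lit 393234) (nat_lit 17) .nil))))) (.g (nat_lit 0) (.e (nat_lit 405649) (nat_lit 0) .nil) .nil)))))) (.nd (nat_lit 7) (.nd (nat_lit 8) (.nd (nat_lit 9) 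
(.lf (nat_lit 592996) (.g (nat_lit 2102) (.e (nat_lit 532567) (nat_lit 16) (.e (nat_lit 401438) (nat_lit 9) (.e (nat_lit 426354) (nat_lit 15) (.e (nat_lit 1860) (nat_lit 124) (.e (nat_lit 557100) (nat_lit 13) .nil))))) (.g (nat_lit 0) (.e (nat_lit 403416) (nat_lit 0) .nil) .nil))) 
(.lf (nat_lit 593508) (.g (nat_lit 3365) (.e (nat_lit 540706) (nat_lit 12) (.e (nat_lit 360475) (nat_lit 8) (.e (nat_lit 557090) (nat_lit 12) (.e (nat_lit 163850) (nat_lit 0) (.e (nat_lit 6273) (nat_lit 337) .nil))))) (.g (nat_lit 0) (.e (nat_lit 404831) (nat_lit 0) .nil) .nil)))) (.nd (nat_lit 9) 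
(.lf (nat_lit 593252) (.g (nat_lit 2398) (.e (nat_lit 532582) (nat_lit 26) (.e (nat_lit 426100) (nat_lit 1) (.e (nat_lit 164398) (nat_lit 256) (.e (nat_lit 57447) (nat_lit 19) (.e (nat_lit 393286) (nat_lit 25) .nil))))) (.g (nat_lit 0) (.e (nat_lit 404182) (nat_lit 0) .nil) .nil))) 
(.lf (nat_lit 593764) (.g (nat_lit 4303) (.e (nat_lit 516115) (nat_lit 1) (.e (nat_lit 164325) (nat_lit 230) (.e (nat_lit 163903) (nat_lit 12) (.e (nat_lit 426566) (nat_lit 34) (.e (nat_lit 393291) (nat_lit 26) (.e (nat_lit 475179) (nat_lit 24) .nil)))))) (.g (nat_lit 1) (.e (nat_lit 405539) (nat_lit 0) .nil) .nil))))) (.nd (nat_lit 8) (.nd (nat_lit 9) 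
(.lf (nat_lit 593124) (.g (nat_lit 3049) (.e (nat_lit 532569) (nat_lit 16) (.e (nat_lit 401448) (nat_lit 10) (.e (nat_lit 434245) (nat_lit 28) (.e (nat_lit 573471) (nat_lit 11) (.e (nat_lit 16453) (nat_lit 11) (.e (nat_lit 458789) (nat_lit 23) .nil)))))) (.g (nat_lit 1) (.e (nat_lit 403677) (nat_lit 0) .nil) .nil))) 
(.lf (nat_lit 593636) (.g (nat_lit 3273) (.e (nat_lit 516097) (nat_lit 0) (.e (nat_lit 3393) (nat_lit 210) (.e (nat_lit 639020) (nat_lit 16) (.e (nat_lit 65571) (nat_lit 3) (.e (nat_lit 98373) (nat_lit 29) (.e (nat_lit 458496) (nat_lit 3) .nil)))))) (.g (nat_lit 1) (.e (nat_lit 405206) (nat_lit 0) .nil) .nil)))) (.nd (nat_lit 9) 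
(.lf (nat_lit 593380) (.g (nat_lit 596) (.e (nat_lit 540706) (nat_lit 12) (.e (nat_lit 360474) (nat_lit 8) (.e (nat_lit 557091) (nat_lit 12) .nil))) (.g (nat_lit 0) (.e (nat_lit 404652) (nat_lit 0) .nil) .nil))) 
(.lf (nat_lit 593892) (.g (nat_lit 2208) (.e (nat_lit 516117) (nat_lit 1) (.e (nat_lit 164329) (nat_lit 230) (.e (nat_lit 163873) (nat_lit 3) (.e (nat_lit 204809) (nat_lit 9) (.e (nat_lit 426139) (nat_lit 3) (.e (nat_lit 204833) (nat_lit 19) (.e (nat_lit 106539) (nat_lit 12) (.e (nat_lit 57466) (nat_lit 23) .nil)))))))) (.g (nat_lit 1) (.e (nat_lit 405819) (nat_lit 0) .nil) .nil)))))))) 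
(.nd (nat_lit 5) (.nd (nat_lit 6) (.nd (nat_lit 7) (.nd (nat_lit 8) (.nd (nat_lit 9) 
(.lf (nat_lit 592916) (.g (nat_lit 3265) (.e (nat_lit 532564) (nat_lit 15) (.e (nat_lit 385066) (nat_lit 26) (.e (nat_lit 532534) (nat_lit 9) (.e (nat_lit 336326) (nat_lit 18) (.e (nat_lit 204880) (nat_lit 32) (.e (nat_lit 385066) (nat_lit 26) .nil)))))) (.g (nat_lit 1) (.e (nat_lit 403209) (nat_lit 0) .nil) .nil))) 
(.lf (nat_lit 593428) (.g (nat_lit 1831) (.e (nat_lit 540706) (nat_lit 12) (.e (nat_lit 360474) (nat_lit 8) (.e (nat_lit 557094) (nat_lit 12) (.e (nat_lit 164022) (nat_lit 46) (.e (nat_lit 704736) (nat_lit 11) (.e (nat_lit 16384) (nat_lit 0) (.e (nat_lit 3262) (nat_lit 198) .nil))))))) (.g (nat_lit 1) (.e (nat_lit 404708) (nat_lit 0) .nil) .nil)))) (.nd (nat_lit 9) 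
(.lf (nat_lit 593172) (.g (nat_lit 1401) (.e (nat_lit 540416) (nat_lit 18) (.e (nat_lit 164399) (nat_lit 256) (.e (nat_lit 57390) (nat_lit 5) (.e (nat_lit 114716) (nat_lit 22) (.e (nat_lit 90158) (nat_lit 11) .nil))))) (.g (nat_lit 0) (.e (nat_lit 403771) (nat_lit 0) .nil) .nil))) 
(.lf (nat_lit 593684) (.g (nat_lit 2503) (.e (nat_lit 516106) (nat_lit 0) (.e (nat_lit 3459) (nat_lit 216) (.e (nat_lit 688139) (nat_lit 5) (.e (nat_lit 3085) (nat_lit 191) (.e (nat_lit 483337) (nat_lit 9) (.e (nat_lit 426300) (nat_lit 11) (.e (nat_lit 466688) (nat_lit 21) .nil))))))) (.g (nat_lit 1) (.e (nat_lit 405342) (nat_lit 0) .nil) .nil))))) (.nd (nat_lit 8) (.nd (nat_lit 9) 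
(.lf (nat_lit 593044) (.g (nat_lit 3596) (.e (nat_lit 532568) (nat_lit 16) (.e (nat_lit 401454) (nat_lit 12) (.e (nat_lit 475185) (nat_lit 29) (.e (nat_lit 557098) (nat_lit 13) (.e (nat_lit 172106) (nat_lit 10) .nil))))) (.g (nat_lit 0) (.e (nat_lit 403524) (nat_lit 0) .nil) .nil))) 
(.lf (nat_lit 593556) (.g (nat_lit 3389) (.e (nat_lit 540706) (nat_lit 12) (.e (nat_lit 360475) (nat_lit 8) (.e (nat_lit 557090) (nat_lit 12) (.e (nat_lit 164020) (nat_lit 45) (.e (nat_lit 696343) (nat_lit 8) (.e (nat_lit 172042) (nat_lit 0) (.e (nat_lit 3258) (nat_lit 198) .nil))))))) (.g (nat_lit 1) (.e (nat_lit 404884) (nat_lit 0) .nil) .nil)))) (.nd (nat_lit 9) 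
(.lf (nat_lit 593300) (.g (nat_lit 1983) (.e (nat_lit 540700) (nat_lit 10) (.e (nat_lit 344160) (nat_lit 37) (.e (nat_lit 647195) (nat_lit 9) (.e (nat_lit 1238) (nat_lit 91) .nil)))) (.g (nat_lit 0) (.e (nat_lit 404465) (nat_lit 0) .nil) .nil))) 
(.lf (nat_lit 593812) (.g (nat_lit 1212) (.e (nat_lit 516115) (nat_lit 1) (.e (nat_lit 164327) (nat_lit 230) (.e (nat_lit 163901) (nat_lit 12) (.e (nat_lit 426566) (nat_lit 34) .nil)))) (.g (nat_lit 0) (.e (nat_lit 405632) (nat_lit 0) .nil) .nil)))))) (.nd (nat_lit 7) (.nd (nat_lit 8) (.nd (nat_lit 9) 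
(.lf (nat_lit 592980) (.g (nat_lit 1955) (.e (nat_lit 532566) (nat_lit 15) (.e (nat_lit 385068) (nat_lit 26) (.e (nat_lit 532534) (nat_lit 9) (.e (nat_lit 336325) (nat_lit 18) (.e (nat_lit 204880) (nat_lit 32) .nil))))) (.g (nat_lit 0) (.e (nat_lit 403347) (nat_lit 0) .nil) .nil))) 
(.lf (nat_lit 593492) (.g (nat_lit 4628) (.e (nat_lit 540706) (nat_lit 12) (.e (nat_lit 360475) (nat_lit 8) (.e (nat_lit 557089) (nat_lit 12) (.e (nat_lit 163849) (nat_lit 0) (.e (nat_lit 6420) (nat_lit 341) (.e (nat_lit 163902) (nat_lit 12) (.e (nat_lit 425986) (nat_lit 0) (.e (nat_lit 3262) (nat_lit 198) .nil)))))))) (.g (nat_lit 1) (.e (nat_lit 404804) (nat_lit 0) .nil) .nil)))) 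
(.nd (nat_lit 9) 
(.lf (nat_lit 593236) (.g (nat_lit 918) (.e (nat_lit 532579) (nat_lit 26) (.e (nat_lit 426139) (nat_lit 3) (.e (nat_lit 204819) (nat_lit 17) .nil))) (.g (nat_lit 0) (.e (nat_lit 404024) (nat_lit 0) .nil) .nil))) 
(.lf (nat_lit 593748) (.g (nat_lit 1309) (.e (nat_lit 516115) (nat_lit 1) (.e (nat_lit 164325) (nat_lit 230) (.e (nat_lit 163875) (nat_lit 3) (.e (nat_lit 204809) (nat_lit 9) .nil)))) (.g (nat_lit 0) (.e (nat_lit 405522) (nat_lit 0) .nil) .nil))))) (.nd (nat_lit 8) (.nd (nat_lit 9) 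
(.lf (nat_lit 593108) (.g (nat_lit 3404) (.e (nat_lit 532569) (nat_lit 16) (.e (nat_lit 401448) (nat_lit 10) (.e (nat_lit 434244) (nat_lit 28) (.e (nat_lit 573451) (nat_lit 9) (.e (nat_lit 430) (nat_lit 32) (.e (nat_lit 426300) (nat_lit 11) (.e (nat_lit 458789) (nat_lit 23) .nil))))))) (.g (nat_lit 1) (.e (nat_lit 403660) (nat_lit 0) .nil) .nil))) 
(.lf (nat_lit 593620) (.g (nat_lit 3895) (.e (nat_lit 540706) (nat_lit 12) (.e (nat_lit 360475) (nat_lit 8) (.e (nat_lit 557091) (nat_lit 12) (.e (nat_lit 164022) (nat_lit 46) (.e (nat_lit 704738) (nat_lit 11) (.e (nat_lit 16390) (nat_lit 0) (.e (nat_lit 3262) (nat_lit 198) .nil))))))) (.g (nat_lit 1) (.e (nat_lit 404965) (nat_lit 0) .nil) .nil)))) (.nd (nat_lit 9) 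
(.lf (nat_lit 593364) (.g (nat_lit 3021) (.e (nat_lit 540704) (nat_lit 12) (.e (nat_lit 360475) (nat_lit 8) (.e (nat_lit 557091) (nat_lit 12) (.e (nat_lit 164022) (nat_lit 46) (.e (nat_lit 704737) (nat_lit 11) .nil))))) (.g (nat_lit 0) (.e (nat_lit 404560) (nat_lit 0) .nil) .nil))) 
(.lf (nat_lit 593876) (.g (nat_lit 1532) (.e (nat_lit 516116) (nat_lit 1) (.e (nat_lit 164398) (nat_lit 256) (.e (nat_lit 57374) (nat_lit 2) (.e (nat_lit 90174) (nat_lit 14) .nil)))) (.g (nat_lit 0) (.e (nat_lit 405738) (nat_lit 0) .nil) .nil))))))) (.nd (nat_lit 6) (.nd (nat_lit 7) (.nd (nat_lit 8) (.nd (nat_lit 9) 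
(.lf (nat_lit 592948) (.g (nat_lit 2892) (.e (nat_lit 532565) (nat_lit 15) (.e (nat_lit 385105) (nat_lit 50) (.e (nat_lit 786450) (nat_lit 15) (.e (nat_lit 1853) (nat_lit 124) (.e (nat_lit 557100) (nat_lit 13) .nil))))) (.g (nat_lit 0) (.e (nat_lit 403303) (nat_lit 0) .nil) .nil))) 
(.lf (nat_lit 593460) (.g (nat_lit 2398) (.e (nat_lit 540706) (nat_lit 12) (.e (nat_lit 360475) (nat_lit 8) (.e (nat_lit 557086) (nat_lit 11) (.e (nat_lit 24664) (nat_lit 14) (.e (nat_lit 401408) (nat_lit 0) (.e (nat_lit 3259) (nat_lit 198) .nil)))))) (.g (nat_lit 1) (.e (nat_lit 404771) (nat_lit 0) .nil) .nil)))) (.nd (nat_lit 9) 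
(.lf (nat_lit 593204) (.g (nat_lit 1881) (.e (nat_lit 532579) (nat_lit 26) (.e (nat_lit 426098) (nat_lit 1) (.e (nat_lit 164403) (nat_lit 256) (.e (nat_lit 57446) (nat_lit 19) (.e (nat_lit 393282) (nat_lit 24) .nil))))) (.g (nat_lit 0) (.e (nat_lit 403850) (nat_lit 0) .nil) .nil))) 
(.lf (nat_lit 593716) (.g (nat_lit 1022) (.e (nat_lit 516115) (nat_lit 1) (.e (nat_lit 164179) (nat_lit 154) (.e (nat_lit 57411) (nat_lit 12) (.e (nat_lit 336454) (nat_lit 34) .nil)))) (.g (nat_lit 0) (.e (nat_lit 405419) (nat_lit 0) .nil) .nil))))) (.nd (nat_lit 8) (.nd (nat_lit 9) 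
(.lf (nat_lit 593076) (.g (nat_lit 308) (.e (nat_lit 532569) (nat_lit 16) (.e (nat_lit 401448) (nat_lit 10) (.e (nat_lit 434231) (nat_lit 23) .nil))) (.g (nat_lit 0) (.e (nat_lit 403621) (nat_lit 0) .nil) .nil))) 
(.lf (nat_lit 593588) (.g (nat_lit 2944) (.e (nat_lit 540706) (nat_lit 12) (.e (nat_lit 360475) (nat_lit 8) (.e (nat_lit 557091) (nat_lit 12) (.e (nat_lit 164022) (nat_lit 46) (.e (nat_lit 704735) (nat_lit 11) (.e (nat_lit 16390) (nat_lit 0) (.e (nat_lit 3259) (nat_lit 198) .nil))))))) (.g (nat_lit 1) (.e (nat_lit 404933) (nat_lit 0) .nil) .nil)))) (.nd (nat_lit 9) 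
(.lf (nat_lit 593332) (.g (nat_lit 2908) (.e (nat_lit 540704) (nat_lit 12) (.e (nat_lit 360466) (nat_lit 3) (.e (nat_lit 516139) (nat_lit 7) (.e (nat_lit 409649) (nat_lit 18) (.e (nat_lit 303111) (nat_lit 0) (.e (nat_lit 3258) (nat_lit 198) .nil)))))) (.g (nat_lit 1) (.e (nat_lit 404517) (nat_lit 0) .nil) .nil))) 
(.lf (nat_lit 593844) (.g (nat_lit 2309) (.e (nat_lit 516115) (nat_lit 1) (.e (nat_lit 164332) (nat_lit 230) (.e (nat_lit 163905) (nat_lit 12) (.e (nat_lit 426530) (nat_lit 27) (.e (nat_lit 336390) (nat_lit 27) .nil))))) (.g (nat_lit 0) (.e (nat_lit 405679) (nat_lit 0) .nil) .nil)))))) (.nd (nat_lit 7) (.nd (nat_lit 8) (.nd (nat_lit 9) 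
(.lf (nat_lit 593012) (.g (nat_lit 3515) (.e (nat_lit 532567) (nat_lit 16) (.e (nat_lit 401453) (nat_lit 12) (.e (nat_lit 475184) (nat_lit 29) (.e (nat_lit 557101) (nat_lit 13) (.e (nat_lit 172115) (nat_lit 10) (.e (nat_lit 434231) (nat_lit 23) .nil)))))) (.g (nat_lit 1) (.e (nat_lit 403444) (nat_lit 0) .nil) .nil))) 
(.lf (nat_lit 593524) (.g (nat_lit 1977) (.e (nat_lit 540706) (nat_lit 12) (.e (nat_lit 360475) (nat_lit 8) (.e (nat_lit 557090) (nat_lit 12) (.e (nat_lit 164020) (nat_lit 45) (.e (nat_lit 696328) (nat_lit 5) (.e (nat_lit 2885) (nat_lit 184) (.e (nat_lit 426032) (nat_lit 0) (.e (nat_lit 3262) (nat_lit 198) .nil)))))))) (.g (nat_lit 1) (.e (nat_lit 404852) (nat_lit 0) .nil) .nil)))) 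
(.nd (nat_lit 9) 
(.lf (nat_lit 593268) (.g (nat_lit 3070) (.e (nat_lit 532583) (nat_lit 26) (.e (nat_lit 426100) (nat_lit 1) (.e (nat_lit 164403) (nat_lit 256) (.e (nat_lit 57406) (nat_lit 12) (.e (nat_lit 336434) (nat_lit 30) .nil))))) (.g (nat_lit 0) (.e (nat_lit 404204) (nat_lit 0) .nil) .nil))) 
(.lf (nat_lit 593780) (.g (nat_lit 1433) (.e (nat_lit 516115) (nat_lit 1) (.e (nat_lit 164325) (nat_lit 230) (.e (nat_lit 163905) (nat_lit 12) (.e (nat_lit 426567) (nat_lit 34) .nil)))) (.g (nat_lit 0) (.e (nat_lit 405556) (nat_lit 0) .nil) .nil))))) (.nd (nat_lit 8) (.nd (nat_lit 9) 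
(.lf (nat_lit 593140) (.g (nat_lit 2210) (.e (nat_lit 532569) (nat_lit 16) (.e (nat_lit 401448) (nat_lit 10) (.e (nat_lit 434248) (nat_lit 28) (.e (nat_lit 573471) (nat_lit 11) (.e (nat_lit 16444) (nat_lit 9) .nil))))) (.g (nat_lit 0) (.e (nat_lit 403696) (nat_lit 0) .nil) .nil))) 
(.lf (nat_lit 593652) (.g (nat_lit 1551) (.e (nat_lit 516100) (nat_lit 0) (.e (nat_lit 3661) (nat_lit 227) (.e (nat_lit 778462) (nat_lit 11) (.e (nat_lit 24608) (nat_lit 3) (.e (nat_lit 98365) (nat_lit 26) .nil))))) (.g (nat_lit 0) (.e (nat_lit 405282) (nat_lit 0) .nil) .nil)))) (.nd (nat_lit 9) 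
(.lf (nat_lit 593396) (.g (nat_lit 2800) (.e (nat_lit 540706) (nat_lit 12) (.e (nat_lit 360474) (nat_lit 8) (.e (nat_lit 557093) (nat_lit 12) (.e (nat_lit 164022) (nat_lit 46) (.e (nat_lit 704736) (nat_lit 11) (.e (nat_lit 16393) (nat_lit 0) (.e (nat_lit 3262) (nat_lit 198) .nil))))))) (.g (nat_lit 1) (.e (nat_lit 404673) (nat_lit 0) .nil) .nil))) 
(.lf (nat_lit 593908) (.g (nat_lit 2943) (.e (nat_lit 516117) (nat_lit 1) (.e (nat_lit 164329) (nat_lit 230) (.e (nat_lit 163941) (nat_lit 19) (.e (nat_lit 483337) (nat_lit 9) (.e (nat_lit 426315) (nat_lit 12) (.e (nat_lit 475178) (nat_lit 24) .nil)))))) (.g (nat_lit 1) (.e (nat_lit 405853) (nat_lit 0) .nil) .nil))))))))) 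
(.nd (nat_lit 4) (.nd (nat_lit 5) (.nd (nat_lit 6) (.nd (nat_lit 7) (.nd (nat_lit 8) 
(.nd (nat_lit 9) 
(.lf (nat_lit 592908) (.g (nat_lit 1453) (.e (nat_lit 532563) (nat_lit 15) (.e (nat_lit 385109) (nat_lit 51) (.e (nat_lit 794687) (nat_lit 27) .nil))) (.g (nat_lit 0) (.e (nat_lit 403200) (nat_lit 0) .nil) .nil))) 
(.lf (nat_lit 593420) (.g (nat_lit 2481) (.e (nat_lit 540706) (nat_lit 12) (.e (nat_lit 360474) (nat_lit 8) (.e (nat_lit 557093) (nat_lit 12) (.e (nat_lit 164023) (nat_lit 46) (.e (nat_lit 704737) (nat_lit 11) (.e (nat_lit 16384) (nat_lit 0) (.e (nat_lit 3262) (nat_lit 198) .nil))))))) (.g (nat_lit 1) (.e (nat_lit 404697) (nat_lit 0) .nil) .nil)))) (.nd (nat_lit 9) 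
(.lf (nat_lit 593164) (.g (nat_lit 1077) (.e (nat_lit 532574) (nat_lit 17) (.e (nat_lit 7096) (nat_lit 380) (.e (nat_lit 164353) (nat_lit 246) (.e (nat_lit 226) (nat_lit 21) .nil)))) (.g (nat_lit 0) (.e (nat_lit 403747) (nat_lit 0) .nil) .nil))) 
(.lf (nat_lit 593676) (.g (nat_lit 3621) (.e (nat_lit 516106) (nat_lit 0) (.e (nat_lit 3388) (nat_lit 210) (.e (nat_lit 639020) (nat_lit 16) (.e (nat_lit 65571) (nat_lit 3) (.e (nat_lit 98372) (nat_lit 29) (.e (nat_lit 458496) (nat_lit 3) .nil)))))) (.g (nat_lit 1) (.e (nat_lit 405323) (nat_lit 0) .nil) .nil))))) (.nd (nat_lit 8) (.nd (nat_lit 9) 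
(.lf (nat_lit 593036) (.g (nat_lit 534) (.e (nat_lit 532568) (nat_lit 16) (.e (nat_lit 401451) (nat_lit 12) (.e (nat_lit 475185) (nat_lit 29) .nil))) (.g (nat_lit 0) (.e (nat_lit 403498) (nat_lit 0) .nil) .nil))) 
(.lf (nat_lit 593548) (.g (nat_lit 2945) (.e (nat_lit 540706) (nat_lit 12) (.e (nat_lit 360475) (nat_lit 8) (.e (nat_lit 557090) (nat_lit 12) (.e (nat_lit 164020) (nat_lit 45) (.e (nat_lit 696342) (nat_lit 8) (.e (nat_lit 172040) (nat_lit 0) (.e (nat_lit 3259) (nat_lit 198) .nil))))))) (.g (nat_lit 1) (.e (nat_lit 404876) (nat_lit 0) .nil) .nil)))) (.nd (nat_lit 9) 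
(.lf (nat_lit 593292) (.g (nat_lit 1433) (.e (nat_lit 540416) (nat_lit 32) (.e (nat_lit 475211) (nat_lit 41) (.e (nat_lit 712745) (nat_lit 27) (.e (nat_lit 426351) (nat_lit 15) .nil)))) (.g (nat_lit 0) (.e (nat_lit 404424) (nat_lit 0) .nil) .nil))) 
(.lf (nat_lit 593804) (.g (nat_lit 2137) (.e (nat_lit 516115) (nat_lit 1) (.e (nat_lit 164327) (nat_lit 230) (.e (nat_lit 163873) (nat_lit 3) (.e (nat_lit 204809) (nat_lit 9) (.e (nat_lit 426139) (nat_lit 3) .nil))))) (.g (nat_lit 0) (.e (nat_lit 405624) (nat_lit 0) .nil) .nil)))))) (.nd (nat_lit 7) (.nd (nat_lit 8) (.nd (nat_lit 9) 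
(.lf (nat_lit 592972) (.g (nat_lit 2448) (.e (nat_lit 532566) (nat_lit 15) (.e (nat_lit 385066) (nat_lit 26) (.e (nat_lit 532566) (nat_lit 15) (.e (nat_lit 385066) (nat_lit 26) (.e (nat_lit 532563) (nat_lit 15) (.e (nat_lit 385068) (nat_lit 26) .nil)))))) (.g (nat_lit 1) (.e (nat_lit 403336) (nat_lit 0) .nil) .nil))) 
(.lf (nat_lit 593484) (.g (nat_lit 4282) (.e (nat_lit 540706) (nat_lit 12) (.e (nat_lit 360475) (nat_lit 8) (.e (nat_lit 557087) (nat_lit 11) (.e (nat_lit 24665) (nat_lit 14) (.e (nat_lit 401419) (nat_lit 0) .nil))))) (.g (nat_lit 0) (.e (nat_lit 404796) (nat_lit 0) .nil) .nil)))) (.nd (nat_lit 9) 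
(.lf (nat_lit 593228) (.g (nat_lit 1555) (.e (nat_lit 532579) (nat_lit 26) (.e (nat_lit 426107) (nat_lit 1) (.e (nat_lit 164403) (nat_lit 256) (.e (nat_lit 57408) (nat_lit 12) (.e (nat_lit 336432) (nat_lit 30) .nil))))) (.g (nat_lit 0) (.e (nat_lit 403879) (nat_lit 0) .nil) .nil))) 
(.lf (nat_lit 593740) (.g (nat_lit 3963) (.e (nat_lit 516115) (nat_lit 1) (.e (nat_lit 164325) (nat_lit 230) (.e (nat_lit 163873) (nat_lit 3) (.e (nat_lit 204809) (nat_lit 9) (.e (nat_lit 426139) (nat_lit 3) (.e (nat_lit 204844) (nat_lit 23) (.e (nat_lit 155674) (nat_lit 12) (.e (nat_lit 57465) (nat_lit 23) .nil)))))))) (.g (nat_lit 1) (.e (nat_lit 405511) (nat_lit 0) .nil) .nil))))) 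
(.nd (nat_lit 8) (.nd (nat_lit 9) 
(.lf (nat_lit 593100) (.g (nat_lit 3570) (.e (nat_lit 532569) (nat_lit 16) (.e (nat_lit 401448) (nat_lit 10) (.e (nat_lit 434234) (nat_lit 23) (.e (nat_lit 532523) (nat_lit 7) (.e (nat_lit 319505) (nat_lit 10) (.e (nat_lit 5712) (nat_lit 312) (.e (nat_lit 2505) (nat_lit 157) (.e (nat_lit 3249) (nat_lit 197) .nil)))))))) (.g (nat_lit 1) (.e (nat_lit 403647) (nat_lit 0) .nil) .nil))) 
(.lf (nat_lit 593612) (.g (nat_lit 4186) (.e (nat_lit 540706) (nat_lit 12) (.e (nat_lit 360475) (nat_lit 8) (.e (nat_lit 557091) (nat_lit 12) (.e (nat_lit 164022) (nat_lit 46) (.e (nat_lit 704738) (nat_lit 11) (.e (nat_lit 16384) (nat_lit 0) (.e (nat_lit 3259) (nat_lit 198) .nil))))))) (.g (nat_lit 1) (.e (nat_lit 404957) (nat_lit 0) .nil) .nil)))) (.nd (nat_lit 9) 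
(.lf (nat_lit 593356) (.g (nat_lit 2041) (.e (nat_lit 540704) (nat_lit 12) (.e (nat_lit 360473) (nat_lit 8) (.e (nat_lit 557093) (nat_lit 12) (.e (nat_lit 164023) (nat_lit 46) (.e (nat_lit 704735) (nat_lit 11) .nil))))) (.g (nat_lit 0) (.e (nat_lit 404552) (nat_lit 0) .nil) .nil))) 
(.lf (nat_lit 593868) (.g (nat_lit 4961) (.e (nat_lit 516116) (nat_lit 1) (.e (nat_lit 164330) (nat_lit 230) (.e (nat_lit 163941) (nat_lit 19) (.e (nat_lit 483341) (nat_lit 9) (.e (nat_lit 426198) (nat_lit 9) (.e (nat_lit 426402) (nat_lit 15) (.e (nat_lit 1788) (nat_lit 119) .nil))))))) (.g (nat_lit 1) (.e (nat_lit 405724) (nat_lit 0) .nil) .nil))))))) 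
(.nd (nat_lit 6) (.nd (nat_lit 7) (.nd (nat_lit 8) (.nd (nat_lit 9) 
(.lf (nat_lit 592940) (.g (nat_lit 3075) (.e (nat_lit 532565) (nat_lit 15) (.e (nat_lit 385068) (nat_lit 26) (.e (nat_lit 532534) (nat_lit 9) (.e (nat_lit 336324) (nat_lit 18) (.e (nat_lit 204880) (nat_lit 32) (.e (nat_lit 385066) (nat_lit 26) .nil)))))) (.g (nat_lit 1) (.e (nat_lit 403294) (nat_lit 0) .nil) .nil))) 
(.lf (nat_lit 593452) (.g (nat_lit 3705) (.e (nat_lit 540706) (nat_lit 12) (.e (nat_lit 360475) (nat_lit 8) (.e (nat_lit 557085) (nat_lit 11) (.e (nat_lit 24665) (nat_lit 14) (.e (nat_lit 401413) (nat_lit 0) (.e (nat_lit 3258) (nat_lit 198) .nil)))))) (.g (nat_lit 1) (.e (nat_lit 404760) (nat_lit 0) .nil) .nil)))) (.nd (nat_lit 9) 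
(.lf (nat_lit 593196) (.g (nat_lit 888) (.e (nat_lit 532578) (nat_lit 26) (.e (nat_lit 426343) (nat_lit 14) (.e (nat_lit 491580) (nat_lit 27) .nil))) (.g (nat_lit 0) (.e (nat_lit 403840) (nat_lit 0) .nil) .nil))) 
(.lf (nat_lit 593708) (.g (nat_lit 1403) (.e (nat_lit 516115) (nat_lit 1) (.e (nat_lit 164177) (nat_lit 154) (.e (nat_lit 57407) (nat_lit 12) (.e (nat_lit 336454) (nat_lit 34) .nil)))) (.g (nat_lit 0) (.e (nat_lit 405408) (nat_lit 0) .nil) .nil))))) (.nd (nat_lit 8) (.nd (nat_lit 9) 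
(.lf (nat_lit 593068) (.g (nat_lit 958) (.e (nat_lit 532569) (nat_lit 16) (.e (nat_lit 401448) (nat_lit 10) (.e (nat_lit 434214) (nat_lit 18) .nil))) (.g (nat_lit 0) (.e (nat_lit 403612) (nat_lit 0) .nil) .nil))) 
(.lf (nat_lit 593580) (.g (nat_lit 2262) (.e (nat_lit 540706) (nat_lit 12) (.e (nat_lit 360475) (nat_lit 8) (.e (nat_lit 557091) (nat_lit 12) (.e (nat_lit 163849) (nat_lit 0) .nil)))) (.g (nat_lit 0) (.e (nat_lit 404912) (nat_lit 0) .nil) .nil)))) (.nd (nat_lit 9) 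
(.lf (nat_lit 593324) (.g (nat_lit 906) (.e (nat_lit 540704) (nat_lit 12) (.e (nat_lit 360452) (nat_lit 0) (.e (nat_lit 7280) (nat_lit 386) (.e (nat_lit 163886) (nat_lit 5) .nil)))) (.g (nat_lit 0) (.e (nat_lit 404505) (nat_lit 0) .nil) .nil))) 
(.lf (nat_lit 593836) (.g (nat_lit 2681) (.e (nat_lit 516115) (nat_lit 1) (.e (nat_lit 164331) (nat_lit 230) (.e (nat_lit 163902) (nat_lit 12) (.e (nat_lit 426566) (nat_lit 34) (.e (nat_lit 393296) (nat_lit 26) .nil))))) (.g (nat_lit 0) (.e (nat_lit 405670) (nat_lit 0) .nil) .nil)))))) (.nd (nat_lit 7) (.nd (nat_lit 8) (.nd (nat_lit 9) 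
(.lf (nat_lit 593004) (.g (nat_lit 2614) (.e (nat_lit 532567) (nat_lit 16) (.e (nat_lit 401451) (nat_lit 12) (.e (nat_lit 475184) (nat_lit 29) (.e (nat_lit 557100) (nat_lit 13) (.e (nat_lit 172106) (nat_lit 10) .nil))))) (.g (nat_lit 0) (.e (nat_lit 403430) (nat_lit 0) .nil) .nil))) 
(.lf (nat_lit 593516) (.g (nat_lit 2060) (.e (nat_lit 540706) (nat_lit 12) (.e (nat_lit 360475) (nat_lit 8) (.e (nat_lit 557090) (nat_lit 12) (.e (nat_lit 164020) (nat_lit 45) (.e (nat_lit 696327) (nat_lit 5) (.e (nat_lit 2958) (nat_lit 185) (.e (nat_lit 434235) (nat_lit 24) .nil))))))) (.g (nat_lit 1) (.e (nat_lit 404843) (nat_lit 0) .nil) .nil)))) (.nd (nat_lit 9) 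
(.lf (nat_lit 593260) (.g (nat_lit 2064) (.e (nat_lit 532583) (nat_lit 26) (.e (nat_lit 426011) (nat_lit 0) (.e (nat_lit 3213) (nat_lit 195) (.e (nat_lit 516129) (nat_lit 3) (.e (nat_lit 221210) (nat_lit 22) (.e (nat_lit 196668) (nat_lit 14) (.e (nat_lit 81664) (nat_lit 5) .nil))))))) (.g (nat_lit 1) (.e (nat_lit 404196) (nat_lit 0) .nil) .nil))) 
(.lf (nat_lit 593772) (.g (nat_lit 308) (.e (nat_lit 516115) (nat_lit 1) (.e (nat_lit 164325) (nat_lit 230) (.e (nat_lit 163904) (nat_lit 12) .nil))) (.g (nat_lit 0) (.e (nat_lit 405548) (nat_lit 0) .nil) .nil))))) (.nd (nat_lit 8) (.nd (nat_lit 9) 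
(.lf (nat_lit 593132) (.g (nat_lit 3625) (.e (nat_lit 532569) (nat_lit 16) (.e (nat_lit 401448) (nat_lit 10) (.e (nat_lit 434247) (nat_lit 28) (.e (nat_lit 573456) (nat_lit 9) (.e (nat_lit 430) (nat_lit 32) (.e (nat_lit 426296) (nat_lit 11) (.e (nat_lit 458789) (nat_lit 23) .nil))))))) (.g (nat_lit 1) (.e (nat_lit 403686) (nat_lit 0) .nil) .nil))) 
(.lf (nat_lit 593644) (.g (nat_lit 3852) (.e (nat_lit 516098) (nat_lit 0) (.e (nat_lit 7589) (nat_lit 406) (.e (nat_lit 65637) (nat_lit 15) (.e (nat_lit 3305) (nat_lit 202) (.e (nat_lit 573485) (nat_lit 13) (.e (nat_lit 65619) (nat_lit 10) (.e (nat_lit 344117) (nat_lit 21) .nil))))))) (.g (nat_lit 1) (.e (nat_lit 405256) (nat_lit 0) .nil) .nil)))) (.nd (nat_lit 9) 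
(.lf (nat_lit 593388) (.g (nat_lit 2243) (.e (nat_lit 540706) (nat_lit 12) (.e (nat_lit 360474) (nat_lit 8) (.e (nat_lit 557093) (nat_lit 12) (.e (nat_lit 164022) (nat_lit 46) (.e (nat_lit 704735) (nat_lit 11) (.e (nat_lit 16390) (nat_lit 0) (.e (nat_lit 3262) (nat_lit 198) .nil))))))) (.g (nat_lit 1) (.e (nat_lit 404665) (nat_lit 0) .nil) .nil))) 
(.lf (nat_lit 593900) (.g (nat_lit 3817) (.e (nat_lit 516117) (nat_lit 1) (.e (nat_lit 164329) (nat_lit 230) (.e (nat_lit 163902) (nat_lit 12) (.e (nat_lit 426568) (nat_lit 34) (.e (nat_lit 393234) (nat_lit 17) (.e (nat_lit 7376) (nat_lit 389) (.e (nat_lit 8318) (nat_lit 64) .nil))))))) (.g (nat_lit 1) (.e (nat_lit 405833) (nat_lit 0) .nil) .nil)))))))) 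
(.nd (nat_lit 5) (.nd (nat_lit 6) (.nd (nat_lit 7) (.nd (nat_lit 8) (.nd (nat_lit 9) 
(.lf (nat_lit 592924) (.g (nat_lit 1809) (.e (nat_lit 532564) (nat_lit 15) (.e (nat_lit 385105) (nat_lit 50) (.e (nat_lit 786450) (nat_lit 15) (.e (nat_lit 1846) (nat_lit 124) .nil)))) (.g (nat_lit 0) (.e (nat_lit 403221) (nat_lit 0) .nil) .nil))) 
(.lf (nat_lit 593436) (.g (nat_lit 2695) (.e (nat_lit 540706) (nat_lit 12) (.e (nat_lit 360474) (nat_lit 8) (.e (nat_lit 557094) (nat_lit 12) (.e (nat_lit 164022) (nat_lit 46) (.e (nat_lit 704737) (nat_lit 11) (.e (nat_lit 16384) (nat_lit 0) (.e (nat_lit 3262) (nat_lit 198) .nil))))))) (.g (nat_lit 1) (.e (nat_lit 404716) (nat_lit 0) .nil) .nil)))) (.nd (nat_lit 9) 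
(.lf (nat_lit 593180) (.g (nat_lit 2820) (.e (nat_lit 532578) (nat_lit 26) (.e (nat_lit 426100) (nat_lit 1) (.e (nat_lit 164399) (nat_lit 256) (.e (nat_lit 57407) (nat_lit 12) (.e (nat_lit 336398) (nat_lit 27) .nil))))) (.g (nat_lit 0) (.e (nat_lit 403805) (nat_lit 0) .nil) .nil))) 
(.lf (nat_lit 593692) (.g (nat_lit 3945) (.e (nat_lit 516106) (nat_lit 0) (.e (nat_lit 7095) (nat_lit 380) (.e (nat_lit 164337) (nat_lit 232) (.e (nat_lit 77) (nat_lit 0) (.e (nat_lit 3308) (nat_lit 202) (.e (nat_lit 573482) (nat_lit 13) (.e (nat_lit 65619) (nat_lit 10) (.e (nat_lit 344117) (nat_lit 21) .nil)))))))) (.g (nat_lit 1) (.e (nat_lit 405372) (nat_lit 0) .nil) .nil))))) 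
(.nd (nat_lit 8) (.nd (nat_lit 9) 
(.lf (nat_lit 593052) (.g (nat_lit 2509) (.e (nat_lit 532569) (nat_lit 16) (.e (nat_lit 401434) (nat_lit 9) (.e (nat_lit 426125) (nat_lit 2) (.e (nat_lit 196642) (nat_lit 9) .nil)))) (.g (nat_lit 0) (.e (nat_lit 403541) (nat_lit 0) .nil) .nil))) 
(.lf (nat_lit 593564) (.g (nat_lit 2899) (.e (nat_lit 540706) (nat_lit 12) (.e (nat_lit 360475) (nat_lit 8) (.e (nat_lit 557090) (nat_lit 12) (.e (nat_lit 164020) (nat_lit 45) (.e (nat_lit 696345) (nat_lit 9) (.e (nat_lit 188160) (nat_lit 6) .nil)))))) (.g (nat_lit 1) (.e (nat_lit 404892) (nat_lit 0) .nil) .nil)))) (.nd (nat_lit 9) 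
(.lf (nat_lit 593308) (.g (nat_lit 1441) (.e (nat_lit 540703) (nat_lit 11) (.e (nat_lit 352312) (nat_lit 22) (.e (nat_lit 90134) (nat_lit 9) (.e (nat_lit 2822) (nat_lit 182) .nil)))) (.g (nat_lit 0) (.e (nat_lit 404479) (nat_lit 0) .nil) .nil))) 
(.lf (nat_lit 593820) (.g (nat_lit 2090) (.e (nat_lit 516115) (nat_lit 1) (.e (nat_lit 164327) (nat_lit 230) (.e (nat_lit 163903) (nat_lit 12) (.e (nat_lit 426530) (nat_lit 27) .nil)))) (.g (nat_lit 0) (.e (nat_lit 405641) (nat_lit 0) .nil) .nil)))))) (.nd (nat_lit 7) (.nd (nat_lit 8) (.nd (nat_lit 9) 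
(.lf (nat_lit 592988) (.g (nat_lit 3177) (.e (nat_lit 532566) (nat_lit 15) (.e (nat_lit 385093) (nat_lit 49) (.e (nat_lit 778318) (nat_lit 3) (.e (nat_lit 57476) (nat_lit 28) (.e (nat_lit 557107) (nat_lit 15) (.e (nat_lit 188440) (nat_lit 20) (.e (nat_lit 3255) (nat_lit 197) .nil))))))) (.g (nat_lit 1) (.e (nat_lit 403368) (nat_lit 0) .nil) .nil))) 
(.lf (nat_lit 593500) (.g (nat_lit 3389) (.e (nat_lit 540706) (nat_lit 12) (.e (nat_lit 360475) (nat_lit 8) (.e (nat_lit 557090) (nat_lit 12) (.e (nat_lit 163843) (nat_lit 0) (.e (nat_lit 6255) (nat_lit 337) (.e (nat_lit 2643) (nat_lit 165) (.e (nat_lit 180246) (nat_lit 6) .nil))))))) (.g (nat_lit 1) (.e (nat_lit 404819) (nat_lit 0) .nil) .nil)))) (.nd (nat_lit 9) 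
(.lf (nat_lit 593244) (.g (nat_lit 2969) (.e (nat_lit 532579) (nat_lit 26) (.e (nat_lit 426200) (nat_lit 9) (.e (nat_lit 426566) (nat_lit 34) (.e (nat_lit 393253) (nat_lit 18) (.e (nat_lit 164329) (nat_lit 230) (.e (nat_lit 163850) (nat_lit 0) (.e (nat_lit 3252) (nat_lit 197) .nil))))))) (.g (nat_lit 1) (.e (nat_lit 404082) (nat_lit 0) .nil) .nil))) 
(.lf (nat_lit 593756) (.g (nat_lit 1803) (.e (nat_lit 516115) (nat_lit 1) (.e (nat_lit 164325) (nat_lit 230) (.e (nat_lit 163903) (nat_lit 12) (.e (nat_lit 426478) (nat_lit 27) .nil)))) (.g (nat_lit 0) (.e (nat_lit 405530) (nat_lit 0) .nil) .nil))))) (.nd (nat_lit 8) (.nd (nat_lit 9) 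
(.lf (nat_lit 593116) (.g (nat_lit 3759) (.e (nat_lit 532569) (nat_lit 16) (.e (nat_lit 401448) (nat_lit 10) (.e (nat_lit 434244) (nat_lit 28) (.e (nat_lit 573471) (nat_lit 11) (.e (nat_lit 16451) (nat_lit 11) (.e (nat_lit 458789) (nat_lit 23) .nil)))))) (.g (nat_lit 1) (.e (nat_lit 403669) (nat_lit 0) .nil) .nil))) 
(.lf (nat_lit 593628) (.g (nat_lit 168) (.e (nat_lit 548608) (nat_lit 26) (.e (nat_lit 426262) (nat_lit 9) (.e (nat_lit 426561) (nat_lit 33) .nil))) (.g (nat_lit 0) (.e (nat_lit 404987) (nat_lit 0) .nil) .nil)))) (.nd (nat_lit 9) 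
(.lf (nat_lit 593372) (.g (nat_lit 498) (.e (nat_lit 540706) (nat_lit 12) (.e (nat_lit 360451) (nat_lit 0) (.e (nat_lit 3950) (nat_lit 239) .nil))) (.g (nat_lit 0) (.e (nat_lit 404573) (nat_lit 0) .nil) .nil))) 
(.lf (nat_lit 593884) (.g (nat_lit 5248) (.e (nat_lit 516117) (nat_lit 1) (.e (nat_lit 164304) (nat_lit 226) (.e (nat_lit 2612) (nat_lit 163) (.e (nat_lit 163978) (nat_lit 30) (.e (nat_lit 573489) (nat_lit 14) (.e (nat_lit 73755) (nat_lit 8) (.e (nat_lit 557098) (nat_lit 13) (.e (nat_lit 179968) (nat_lit 15) (.e (nat_lit 1800) (nat_lit 119) .nil))))))))) (.g (nat_lit 1) (.e (nat_lit 405792) (nat_lit 0) .nil) .nil))))))) 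
(.nd (nat_lit 6) (.nd (nat_lit 7) (.nd (nat_lit 8) (.nd (nat_lit 9) 
(.lf (nat_lit 592956) (.g (nat_lit 3218) (.e (nat_lit 532566) (nat_lit 15) (.e (nat_lit 385066) (nat_lit 26) (.e (nat_lit 532530) (nat_lit 9) (.e (nat_lit 336326) (nat_lit 18) (.e (nat_lit 204882) (nat_lit 32) (.e (nat_lit 385066) (nat_lit 26) .nil)))))) (.g (nat_lit 1) (.e (nat_lit 403319) (nat_lit 0) .nil) .nil))) 
(.lf (nat_lit 593468) (.g (nat_lit 1556) (.e (nat_lit 540706) (nat_lit 12) (.e (nat_lit 360475) (nat_lit 8) (.e (nat_lit 557087) (nat_lit 11) (.e (nat_lit 24588) (nat_lit 0) .nil)))) (.g (nat_lit 0) (.e (nat_lit 404780) (nat_lit 0) .nil) .nil)))) (.nd (nat_lit 9) 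
(.lf (nat_lit 593212) (.g (nat_lit 1883) (.e (nat_lit 532579) (nat_lit 26) (.e (nat_lit 426100) (nat_lit 1) (.e (nat_lit 164403) (nat_lit 256) (.e (nat_lit 57405) (nat_lit 12) .nil)))) (.g (nat_lit 0) (.e (nat_lit 403860) (nat_lit 0) .nil) .nil))) 
(.lf (nat_lit 593724) (.g (nat_lit 4722) (.e (nat_lit 516115) (nat_lit 1) (.e (nat_lit 164325) (nat_lit 230) (.e (nat_lit 163861) (nat_lit 1) (.e (nat_lit 164329) (nat_lit 230) (.e (nat_lit 163843) (nat_lit 0) (.e (nat_lit 3223) (nat_lit 196) (.e (nat_lit 524320) (nat_lit 12) (.e (nat_lit 458496) (nat_lit 3) .nil)))))))) (.g (nat_lit 1) (.e (nat_lit 405462) (nat_lit 0) .nil) .nil))))) 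
(.nd (nat_lit 8) (.nd (nat_lit 9) 
(.lf (nat_lit 593084) (.g (nat_lit 3082) (.e (nat_lit 532569) (nat_lit 16) (.e (nat_lit 401448) (nat_lit 10) (.e (nat_lit 434231) (nat_lit 23) (.e (nat_lit 532490) (nat_lit 0) (.e (nat_lit 6674) (nat_lit 357) (.e (nat_lit 2939) (nat_lit 184) (.e (nat_lit 425995) (nat_lit 0) (.e (nat_lit 3249) (nat_lit 197) .nil)))))))) (.g (nat_lit 1) (.e (nat_lit 403629) (nat_lit 0) .nil) .nil))) 
(.lf (nat_lit 593596) (.g (nat_lit 3282) (.e (nat_lit 540706) (nat_lit 12) (.e (nat_lit 360475) (nat_lit 8) (.e (nat_lit 557091) (nat_lit 12) (.e (nat_lit 164022) (nat_lit 46) (.e (nat_lit 704736) (nat_lit 11) (.e (nat_lit 16390) (nat_lit 0) (.e (nat_lit 3260) (nat_lit 198) .nil))))))) (.g (nat_lit 1) (.e (nat_lit 404941) (nat_lit 0) .nil) .nil)))) (.nd (nat_lit 9) 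
(.lf (nat_lit 593340) (.g (nat_lit 1820) (.e (nat_lit 540704) (nat_lit 12) (.e (nat_lit 360467) (nat_lit 3) (.e (nat_lit 516139) (nat_lit 7) (.e (nat_lit 417536) (nat_lit 18) .nil)))) (.g (nat_lit 0) (.e (nat_lit 404534) (nat_lit 0) .nil) .nil))) 
(.lf (nat_lit 593852) (.g (nat_lit 1943) (.e (nat_lit 516115) (nat_lit 1) (.e (nat_lit 164399) (nat_lit 256) (.e (nat_lit 57379) (nat_lit 3) (.e (nat_lit 98366) (nat_lit 27) (.e (nat_lit 434231) (nat_lit 23) .nil))))) (.g (nat_lit 0) (.e (nat_lit 405690) (nat_lit 0) .nil) .nil)))))) (.nd (nat_lit 7) (.nd (nat_lit 8) (.nd (nat_lit 9) 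
(.lf (nat_lit 593020) (.g (nat_lit 1185) (.e (nat_lit 532567) (nat_lit 16) (.e (nat_lit 401459) (nat_lit 13) (.e (nat_lit 483337) (nat_lit 9) .nil))) (.g (nat_lit 0) (.e (nat_lit 403463) (nat_lit 0) .nil) .nil))) 
(.lf (nat_lit 593532) (.g (nat_lit 2049) (.e (nat_lit 540706) (nat_lit 12) (.e (nat_lit 360475) (nat_lit 8) (.e (nat_lit 557090) (nat_lit 12) (.e (nat_lit 164020) (nat_lit 45) (.e (nat_lit 696329) (nat_lit 5) (.e (nat_lit 2958) (nat_lit 185) (.e (nat_lit 434235) (nat_lit 24) .nil))))))) (.g (nat_lit 1) (.e (nat_lit 404860) (nat_lit 0) .nil) .nil)))) (.nd (nat_lit 9) 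
(.lf (nat_lit 593276) (.g (nat_lit 2251) (.e (nat_lit 532583) (nat_lit 26) (.e (nat_lit 426188) (nat_lit 9) (.e (nat_lit 426562) (nat_lit 33) (.e (nat_lit 385041) (nat_lit 19) (.e (nat_lit 164288) (nat_lit 224) (.e (nat_lit 164096) (nat_lit 86) .nil)))))) (.g (nat_lit 1) (.e (nat_lit 404239) (nat_lit 0) .nil) .nil))) 
(.lf (nat_lit 593788) (.g (nat_lit 4636) (.e (nat_lit 516115) (nat_lit 1) (.e (nat_lit 164325) (nat_lit 230) (.e (nat_lit 163907) (nat_lit 12) (.e (nat_lit 426566) (nat_lit 34) (.e (nat_lit 393273) (nat_lit 23) (.e (nat_lit 426364) (nat_lit 15) (.e (nat_lit 1802) (nat_lit 119) .nil))))))) (.g (nat_lit 1) (.e (nat_lit 405568) (nat_lit 0) .nil) .nil))))) (.nd (nat_lit 8) (.nd (nat_lit 9) 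
(.lf (nat_lit 593148) (.g (nat_lit 366) (.e (nat_lit 532569) (nat_lit 16) (.e (nat_lit 401451) (nat_lit 12) (.e (nat_lit 475185) (nat_lit 29) .nil))) (.g (nat_lit 0) (.e (nat_lit 403714) (nat_lit 0) .nil) .nil))) 
(.lf (nat_lit 593660) (.g (nat_lit 2294) (.e (nat_lit 516102) (nat_lit 0) (.e (nat_lit 6989) (nat_lit 377) (.e (nat_lit 2777) (nat_lit 178) (.e (nat_lit 286732) (nat_lit 2) .nil)))) (.g (nat_lit 0) (.e (nat_lit 405294) (nat_lit 0) .nil) .nil)))) (.nd (nat_lit 9) 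
(.lf (nat_lit 593404) (.g (nat_lit 2179) (.e (nat_lit 540706) (nat_lit 12) (.e (nat_lit 360474) (nat_lit 8) (.e (nat_lit 557093) (nat_lit 12) (.e (nat_lit 164022) (nat_lit 46) (.e (nat_lit 704737) (nat_lit 11) (.e (nat_lit 16390) (nat_lit 0) (.e (nat_lit 3259) (nat_lit 198) .nil))))))) (.g (nat_lit 1) (.e (nat_lit 404681) (nat_lit 0) .nil) .nil))) 
(.lf (nat_lit 593916) (.g (nat_lit 1803) (.e (nat_lit 516117) (nat_lit 1) (.e (nat_lit 164330) (nat_lit 230) (.e (nat_lit 163902) (nat_lit 12) (.e (nat_lit 426481) (nat_lit 27) .nil)))) (.g (nat_lit 0) (.e (nat_lit 405863) (nat_lit 0) .nil) .nil))))))))))) (.nd (nat_lit 2) (.nd (nat_lit 3) (.nd (nat_lit 4) (.nd (nat_lit 5) (.nd (nat_lit 6) (.nd (nat_lit 7) (.nd (nat_lit 8) (.nd (nat_lit 9) 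
(.lf (nat_lit 592898) (.g (nat_lit 2695) (.e (nat_lit 532563) (nat_lit 15) (.e (nat_lit 385068) (nat_lit 26) (.e (nat_lit 532566) (nat_lit 15) (.e (nat_lit 385066) (nat_lit 26) (.e (nat_lit 532565) (nat_lit 15) (.e (nat_lit 385065) (nat_lit 26) .nil)))))) (.g (nat_lit 1) (.e (nat_lit 403126) (nat_lit 0) .nil) .nil))) 
(.lf (nat_lit 593410) (.g (nat_lit 3200) (.e (nat_lit 540706) (nat_lit 12) (.e (nat_lit 360474) (nat_lit 8) (.e (nat_lit 557093) (nat_lit 12) (.e (nat_lit 164022) (nat_lit 46) (.e (nat_lit 704738) (nat_lit 11) (.e (nat_lit 16385) (nat_lit 0) (.e (nat_lit 3260) (nat_lit 198) .nil))))))) (.g (nat_lit 1) (.e (nat_lit 404687) (nat_lit 0) .nil) .nil)))) (.nd (nat_lit 9) 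
(.lf (nat_lit 593154) (.g (nat_lit 5720) (.e (nat_lit 532569) (nat_lit 16) (.e (nat_lit 401451) (nat_lit 12) (.e (nat_lit 475185) (nat_lit 29) (.e (nat_lit 557109) (nat_lit 15) (.e (nat_lit 188437) (nat_lit 20) (.e (nat_lit 3238) (nat_lit 197) .nil)))))) (.g (nat_lit 1) (.e (nat_lit 403727) (nat_lit 0) .nil) .nil))) 
(.lf (nat_lit 593666) (.g (nat_lit 3415) (.e (nat_lit 516102) (nat_lit 0) (.e (nat_lit 6989) (nat_lit 377) (.e (nat_lit 2777) (nat_lit 178) (.e (nat_lit 286735) (nat_lit 3) (.e (nat_lit 98325) (nat_lit 17) (.e (nat_lit 7936) (nat_lit 407) (.e (nat_lit 73747) (nat_lit 3) .nil))))))) (.g (nat_lit 1) (.e (nat_lit 405300) (nat_lit 0) .nil) .nil))))) (.nd (nat_lit 8) (.nd (nat_lit 9) 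
(.lf (nat_lit 593026) (.g (nat_lit 624) (.e (nat_lit 532568) (nat_lit 16) (.e (nat_lit 401435) (nat_lit 9) (.e (nat_lit 426131) (nat_lit 3) .nil))) (.g (nat_lit 0) (.e (nat_lit 403473) (nat_lit 0) .nil) .nil))) 
(.lf (nat_lit 593538) (.g (nat_lit 2166) (.e (nat_lit 540706) (nat_lit 12) (.e (nat_lit 360475) (nat_lit 8) (.e (nat_lit 557090) (nat_lit 12) (.e (nat_lit 164020) (nat_lit 45) (.e (nat_lit 696330) (nat_lit 5) (.e (nat_lit 2958) (nat_lit 185) (.e (nat_lit 434235) (nat_lit 24) .nil))))))) (.g (nat_lit 1) (.e (nat_lit 404866) (nat_lit 0) .nil) .nil)))) (.nd (nat_lit 9) 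
(.lf (nat_lit 593282) (.g (nat_lit 443) (.e (nat_lit 540416) (nat_lit 26) (.e (nat_lit 426188) (nat_lit 9) (.e (nat_lit 426562) (nat_lit 33) .nil))) (.g (nat_lit 0) (.e (nat_lit 404295) (nat_lit 0) .nil) .nil))) 
(.lf (nat_lit 593794) (.g (nat_lit 1473) (.e (nat_lit 516115) (nat_lit 1) (.e (nat_lit 164325) (nat_lit 230) (.e (nat_lit 163907) (nat_lit 12) (.e (nat_lit 426568) (nat_lit 34) (.e (nat_lit 401152) (nat_lit 26) .nil))))) (.g (nat_lit 0) (.e (nat_lit 405574) (nat_lit 0) .nil) .nil)))))) (.nd (nat_lit 7) (.nd (nat_lit 8) (.nd (nat_lit 9) 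
(.lf (nat_lit 592962) (.g (nat_lit 3149) (.e (nat_lit 532566) (nat_lit 15) (.e (nat_lit 385066) (nat_lit 26) (.e (nat_lit 532534) (nat_lit 9) (.e (nat_lit 336324) (nat_lit 18) (.e (nat_lit 204882) (nat_lit 32) (.e (nat_lit 385066) (nat_lit 26) .nil)))))) (.g (nat_lit 1) (.e (nat_lit 403325) (nat_lit 0) .nil) .nil))) 
(.lf (nat_lit 593474) (.g (nat_lit 4005) (.e (nat_lit 540706) (nat_lit 12) (.e (nat_lit 360475) (nat_lit 8) (.e (nat_lit 557087) (nat_lit 11) (.e (nat_lit 24617) (nat_lit 7) (.e (nat_lit 319505) (nat_lit 10) (.e (nat_lit 7936) (nat_lit 46) .nil)))))) (.g (nat_lit 1) (.e (nat_lit 404786) (nat_lit 0) .nil) .nil)))) (.nd (nat_lit 9) 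
(.lf (nat_lit 593218) (.g (nat_lit 2229) (.e (nat_lit 532579) (nat_lit 26) (.e (nat_lit 426100) (nat_lit 1) (.e (nat_lit 164403) (nat_lit 256) (.e (nat_lit 57409) (nat_lit 12) (.e (nat_lit 336395) (nat_lit 27) .nil))))) (.g (nat_lit 0) (.e (nat_lit 403866) (nat_lit 0) .nil) .nil))) 
(.lf (nat_lit 593730) (.g (nat_lit 4392) (.e (nat_lit 516115) (nat_lit 1) (.e (nat_lit 164325) (nat_lit 230) (.e (nat_lit 163873) (nat_lit 3) (.e (nat_lit 204809) (nat_lit 9) (.e (nat_lit 426139) (nat_lit 3) (.e (nat_lit 204821) (nat_lit 17) (.e (nat_lit 2155) (nat_lit 142) (.e (nat_lit 704746) (nat_lit 12) (.e (nat_lit 57465) (nat_lit 23) .nil))))))))) (.g (nat_lit 1) (.e (nat_lit 405500) (nat_lit 0) .nil) .nil))))) 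
(.nd (nat_lit 8) (.nd (nat_lit 9) 
(.lf (nat_lit 593090) (.g (nat_lit 2379) (.e (nat_lit 532569) (nat_lit 16) (.e (nat_lit 401448) (nat_lit 10) (.e (nat_lit 434231) (nat_lit 23) (.e (nat_lit 532569) (nat_lit 16) (.e (nat_lit 401444) (nat_lit 9) .nil))))) (.g (nat_lit 0) (.e (nat_lit 403636) (nat_lit 0) .nil) .nil))) 
(.lf (nat_lit 593602) (.g (nat_lit 3594) (.e (nat_lit 540706) (nat_lit 12) (.e (nat_lit 360475) (nat_lit 8) (.e (nat_lit 557091) (nat_lit 12) (.e (nat_lit 164022) (nat_lit 46) (.e (nat_lit 704737) (nat_lit 11) (.e (nat_lit 16385) (nat_lit 0) (.e (nat_lit 3259) (nat_lit 198) .nil))))))) (.g (nat_lit 1) (.e (nat_lit 404947) (nat_lit 0) .nil) .nil)))) (.nd (nat_lit 9) 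
(.lf (nat_lit 593346) (.g (nat_lit 2465) (.e (nat_lit 540704) (nat_lit 12) (.e (nat_lit 360473) (nat_lit 8) (.e (nat_lit 557087) (nat_lit 11) (.e (nat_lit 24617) (nat_lit 7) (.e (nat_lit 319504) (nat_lit 10) (.e (nat_lit 7936) (nat_lit 46) .nil)))))) (.g (nat_lit 1) (.e (nat_lit 404542) (nat_lit 0) .nil) .nil))) 
(.lf (nat_lit 593858) (.g (nat_lit 373) (.e (nat_lit 516116) (nat_lit 1) (.e (nat_lit 164329) (nat_lit 230) (.e (nat_lit 163902) (nat_lit 12) .nil))) (.g (nat_lit 0) (.e (nat_lit 405707) (nat_lit 0) .nil) .nil))))))) (.nd (nat_lit 6) (.nd (nat_lit 7) (.nd (nat_lit 8) (.nd (nat_lit 9) 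
(.lf (nat_lit 592930) (.g (nat_lit 1739) (.e (nat_lit 532565) (nat_lit 15) (.e (nat_lit 385065) (nat_lit 26) (.e (nat_lit 532530) (nat_lit 9) (.e (nat_lit 336326) (nat_lit 18) (.e (nat_lit 204881) (nat_lit 32) (.e (nat_lit 385066) (nat_lit 26) .nil)))))) (.g (nat_lit 1) (.e (nat_lit 403284) (nat_lit 0) .nil) .nil))) 
(.lf (nat_lit 593442) (.g (nat_lit 1779) (.e (nat_lit 540706) (nat_lit 12) (.e (nat_lit 360474) (nat_lit 8) (.e (nat_lit 557094) (nat_lit 12) (.e (nat_lit 164022) (nat_lit 46) (.e (nat_lit 704738) (nat_lit 11) (.e (nat_lit 16384) (nat_lit 0) (.e (nat_lit 3258) (nat_lit 198) .nil))))))) (.g (nat_lit 1) (.e (nat_lit 404722) (nat_lit 0) .nil) .nil)))) (.nd (nat_lit 9) 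
(.lf (nat_lit 593186) (.g (nat_lit 1601) (.e (nat_lit 532578) (nat_lit 26) (.e (nat_lit 426107) (nat_lit 1) (.e (nat_lit 164401) (nat_lit 256) (.e (nat_lit 57409) (nat_lit 12) (.e (nat_lit 336434) (nat_lit 30) .nil))))) (.g (nat_lit 0) (.e (nat_lit 403812) (nat_lit 0) .nil) .nil))) 
(.lf (nat_lit 593698) (.g (nat_lit 3857) (.e (nat_lit 516106) (nat_lit 0) (.e (nat_lit 7112) (nat_lit 381) (.e (nat_lit 229646) (nat_lit 232) (.e (nat_lit 78) (nat_lit 0) (.e (nat_lit 3308) (nat_lit 202) (.e (nat_lit 573482) (nat_lit 13) (.e (nat_lit 65619) (nat_lit 10) (.e (nat_lit 344117) (nat_lit 21) .nil)))))))) (.g (nat_lit 1) (.e (nat_lit 405378) (nat_lit 0) .nil) .nil))))) 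
(.nd (nat_lit 8) (.nd (nat_lit 9) 
(.lf (nat_lit 593058) (.g (nat_lit 3142) (.e (nat_lit 532569) (nat_lit 16) (.e (nat_lit 401434) (nat_lit 9) (.e (nat_lit 426125) (nat_lit 2) (.e (nat_lit 196661) (nat_lit 12) (.e (nat_lit 57749) (nat_lit 201) (.e (nat_lit 2936) (nat_lit 184) (.e (nat_lit 425984) (nat_lit 0) (.e (nat_lit 3233) (nat_lit 197) .nil)))))))) (.g (nat_lit 1) (.e (nat_lit 403548) (nat_lit 0) .nil) .nil))) 
(.lf (nat_lit 593570) (.g (nat_lit 4604) (.e (nat_lit 540706) (nat_lit 12) (.e (nat_lit 360475) (nat_lit 8) (.e (nat_lit 557091) (nat_lit 12) (.e (nat_lit 163843) (nat_lit 0) (.e (nat_lit 6255) (nat_lit 337) (.e (nat_lit 2643) (nat_lit 165) (.e (nat_lit 180246) (nat_lit 6) .nil))))))) (.g (nat_lit 1) (.e (nat_lit 404901) (nat_lit 0) .nil) .nil)))) (.nd (nat_lit 9) 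
(.lf (nat_lit 593314) (.g (nat_lit 4380) (.e (nat_lit 540703) (nat_lit 11) (.e (nat_lit 352315) (nat_lit 23) (.e (nat_lit 98350) (nat_lit 24) (.e (nat_lit 409645) (nat_lit 18) (.e (nat_lit 303112) (nat_lit 0) (.e (nat_lit 3258) (nat_lit 198) .nil)))))) (.g (nat_lit 1) (.e (nat_lit 404486) (nat_lit 0) .nil) .nil))) 
(.lf (nat_lit 593826) (.g (nat_lit 2126) (.e (nat_lit 516115) (nat_lit 1) (.e (nat_lit 164327) (nat_lit 230) (.e (nat_lit 163903) (nat_lit 12) (.e (nat_lit 426567) (nat_lit 34) (.e (nat_lit 393290) (nat_lit 26) .nil))))) (.g (nat_lit 0) (.e (nat_lit 405647) (nat_lit 0) .nil) .nil)))))) (.nd (nat_lit 7) (.nd (nat_lit 8) (.nd (nat_lit 9) 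
(.lf (nat_lit 592994) (.g (nat_lit 3544) (.e (nat_lit 532567) (nat_lit 16) (.e (nat_lit 401435) (nat_lit 9) (.e (nat_lit 426131) (nat_lit 3) (.e (nat_lit 204885) (nat_lit 33) (.e (nat_lit 401448) (nat_lit 10) (.e (nat_lit 434232) (nat_lit 23) .nil)))))) (.g (nat_lit 1) (.e (nat_lit 403414) (nat_lit 0) .nil) .nil))) 
(.lf (nat_lit 593506) (.g (nat_lit 2317) (.e (nat_lit 540706) (nat_lit 12) (.e (nat_lit 360475) (nat_lit 8) (.e (nat_lit 557090) (nat_lit 12) (.e (nat_lit 163849) (nat_lit 0) .nil)))) (.g (nat_lit 0) (.e (nat_lit 404829) (nat_lit 0) .nil) .nil)))) (.nd (nat_lit 9) 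
(.lf (nat_lit 593250) (.g (nat_lit 1321) (.e (nat_lit 532582) (nat_lit 26) (.e (nat_lit 426098) (nat_lit 1) (.e (nat_lit 164399) (nat_lit 256) (.e (nat_lit 57447) (nat_lit 19) .nil)))) (.g (nat_lit 0) (.e (nat_lit 404180) (nat_lit 0) .nil) .nil))) 
(.lf (nat_lit 593762) (.g (nat_lit 3579) (.e (nat_lit 516115) (nat_lit 1) (.e (nat_lit 164325) (nat_lit 230) (.e (nat_lit 163903) (nat_lit 12) (.e (nat_lit 426566) (nat_lit 34) (.e (nat_lit 393273) (nat_lit 23) (.e (nat_lit 426364) (nat_lit 15) (.e (nat_lit 1781) (nat_lit 119) .nil))))))) (.g (nat_lit 1) (.e (nat_lit 405537) (nat_lit 0) .nil) .nil))))) (.nd (nat_lit 8) (.nd (nat_lit 9) 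
(.lf (nat_lit 593122) (.g (nat_lit 3593) (.e (nat_lit 532569) (nat_lit 16) (.e (nat_lit 401448) (nat_lit 10) (.e (nat_lit 434245) (nat_lit 28) (.e (nat_lit 573471) (nat_lit 11) (.e (nat_lit 16452) (nat_lit 11) (.e (nat_lit 458789) (nat_lit 23) .nil)))))) (.g (nat_lit 1) (.e (nat_lit 403675) (nat_lit 0) .nil) .nil))) 
(.lf (nat_lit 593634) (.g (nat_lit 3156) (.e (nat_lit 516097) (nat_lit 0) (.e (nat_lit 3392) (nat_lit 210) (.e (nat_lit 639020) (nat_lit 16) (.e (nat_lit 65571) (nat_lit 3) (.e (nat_lit 98373) (nat_lit 29) (.e (nat_lit 458496) (nat_lit 3) .nil)))))) (.g (nat_lit 1) (.e (nat_lit 405204) (nat_lit 0) .nil) .nil)))) (.nd (nat_lit 9) 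
(.lf (nat_lit 593378) (.g (nat_lit 833) (.e (nat_lit 540706) (nat_lit 12) (.e (nat_lit 360474) (nat_lit 8) (.e (nat_lit 557089) (nat_lit 12) .nil))) (.g (nat_lit 0) (.e (nat_lit 404650) (nat_lit 0) .nil) .nil))) 
(.lf (nat_lit 593890) (.g (nat_lit 3055) (.e (nat_lit 516117) (nat_lit 1) (.e (nat_lit 164322) (nat_lit 230) (.e (nat_lit 163902) (nat_lit 12) (.e (nat_lit 426566) (nat_lit 34) (.e (nat_lit 393293) (nat_lit 26) .nil))))) (.g (nat_lit 0) (.e (nat_lit 405815) (nat_lit 0) .nil) .nil)))))))) (.nd (nat_lit 5) (.nd (nat_lit 6) (.nd (nat_lit 7) (.nd (nat_lit 8) (.nd (nat_lit 9) 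
(.lf (nat_lit 592914) (.g (nat_lit 3422) (.e (nat_lit 532564) (nat_lit 15) (.e (nat_lit 385066) (nat_lit 26) (.e (nat_lit 532534) (nat_lit 9) (.e (nat_lit 336324) (nat_lit 18) (.e (nat_lit 204882) (nat_lit 32) (.e (nat_lit 385066) (nat_lit 26) .nil)))))) (.g (nat_lit 1) (.e (nat_lit 403207) (nat_lit 0) .nil) .nil))) 
(.lf (nat_lit 593426) (.g (nat_lit 1952) (.e (nat_lit 540706) (nat_lit 12) (.e (nat_lit 360474) (nat_lit 8) (.e (nat_lit 557094) (nat_lit 12) (.e (nat_lit 164022) (nat_lit 46) (.e (nat_lit 704735) (nat_lit 11) (.e (nat_lit 16390) (nat_lit 0) (.e (nat_lit 3262) (nat_lit 198) .nil))))))) (.g (nat_lit 1) (.e (nat_lit 404706) (nat_lit 0) .nil) .nil)))) (.nd (nat_lit 9) 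
(.lf (nat_lit 593170) (.g (nat_lit 404) (.e (nat_lit 540416) (nat_lit 18) (.e (nat_lit 164399) (nat_lit 256) (.e (nat_lit 57390) (nat_lit 5) .nil))) (.g (nat_lit 0) (.e (nat_lit 403769) (nat_lit 0) .nil) .nil))) 
(.lf (nat_lit 593682) (.g (nat_lit 3032) (.e (nat_lit 516106) (nat_lit 0) (.e (nat_lit 3390) (nat_lit 210) (.e (nat_lit 639020) (nat_lit 16) (.e (nat_lit 65571) (nat_lit 3) (.e (nat_lit 98374) (nat_lit 29) (.e (nat_lit 458496) (nat_lit 3) .nil)))))) (.g (nat_lit 1) (.e (nat_lit 405329) (nat_lit 0) .nil) .nil))))) (.nd (nat_lit 8) (.nd (nat_lit 9) 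
(.lf (nat_lit 593042) (.g (nat_lit 533) (.e (nat_lit 532568) (nat_lit 16) (.e (nat_lit 401454) (nat_lit 12) (.e (nat_lit 475185) (nat_lit 29) .nil))) (.g (nat_lit 0) (.e (nat_lit 403520) (nat_lit 0) .nil) .nil))) 
(.lf (nat_lit 593554) (.g (nat_lit 3215) (.e (nat_lit 540706) (nat_lit 12) (.e (nat_lit 360475) (nat_lit 8) (.e (nat_lit 557090) (nat_lit 12) (.e (nat_lit 164020) (nat_lit 45) (.e (nat_lit 696343) (nat_lit 8) (.e (nat_lit 172040) (nat_lit 0) (.e (nat_lit 3260) (nat_lit 198) .nil))))))) (.g (nat_lit 1) (.e (nat_lit 404882) (nat_lit 0) .nil) .nil)))) (.nd (nat_lit 9) 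
(.lf (nat_lit 593298) (.g (nat_lit 2974) (.e (nat_lit 540684) (nat_lit 3) (.e (nat_lit 114698) (nat_lit 11) (.e (nat_lit 426139) (nat_lit 3) (.e (nat_lit 204861) (nat_lit 26) .nil)))) (.g (nat_lit 0) (.e (nat_lit 404450) (nat_lit 0) .nil) .nil))) 
(.lf (nat_lit 593810) (.g (nat_lit 2568) (.e (nat_lit 516115) (nat_lit 1) (.e (nat_lit 164327) (nat_lit 230) (.e (nat_lit 163875) (nat_lit 3) (.e (nat_lit 204837) (nat_lit 20) (.e (nat_lit 114718) (nat_lit 23) .nil))))) (.g (nat_lit 0) (.e (nat_lit 405630) (nat_lit 0) .nil) .nil)))))) (.nd (nat_lit 7) (.nd (nat_lit 8) (.nd (nat_lit 9) 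
(.lf (nat_lit 592978) (.g (nat_lit 2361) (.e (nat_lit 532566) (nat_lit 15) (.e (nat_lit 385068) (nat_lit 26) (.e (nat_lit 532530) (nat_lit 9) (.e (nat_lit 336326) (nat_lit 18) (.e (nat_lit 204879) (nat_lit 32) .nil))))) (.g (nat_lit 0) (.e (nat_lit 403345) (nat_lit 0) .nil) .nil))) 
(.lf (nat_lit 593490) (.g (nat_lit 4647) (.e (nat_lit 540706) (nat_lit 12) (.e (nat_lit 360475) (nat_lit 8) (.e (nat_lit 557089) (nat_lit 12) (.e (nat_lit 163844) (nat_lit 0) (.e (nat_lit 6420) (nat_lit 341) (.e (nat_lit 163902) (nat_lit 12) (.e (nat_lit 425986) (nat_lit 0) (.e (nat_lit 3262) (nat_lit 198) .nil)))))))) (.g (nat_lit 1) (.e (nat_lit 404802) (nat_lit 0) .nil) .nil)))) 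
(.nd (nat_lit 9) 
(.lf (nat_lit 593234) (.g (nat_lit 1622) (.e (nat_lit 532579) (nat_lit 26) (.e (nat_lit 426108) (nat_lit 1) (.e (nat_lit 164403) (nat_lit 256) (.e (nat_lit 57408) (nat_lit 12) (.e (nat_lit 336432) (nat_lit 30) .nil))))) (.g (nat_lit 0) (.e (nat_lit 403894) (nat_lit 0) .nil) .nil))) 
(.lf (nat_lit 593746) (.g (nat_lit 3697) (.e (nat_lit 516115) (nat_lit 1) (.e (nat_lit 164325) (nat_lit 230) (.e (nat_lit 163873) (nat_lit 3) (.e (nat_lit 204813) (nat_lit 9) (.e (nat_lit 426139) (nat_lit 3) (.e (nat_lit 204833) (nat_lit 19) (.e (nat_lit 106539) (nat_lit 12) (.e (nat_lit 57465) (nat_lit 23) .nil)))))))) (.g (nat_lit 1) (.e (nat_lit 405518) (nat_lit 0) .nil) .nil))))) 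
(.nd (nat_lit 8) (.nd (nat_lit 9) 
(.lf (nat_lit 593106) (.g (nat_lit 494) (.e (nat_lit 532569) (nat_lit 16) (.e (nat_lit 401448) (nat_lit 10) (.e (nat_lit 434243) (nat_lit 28) .nil))) (.g (nat_lit 0) (.e (nat_lit 403656) (nat_lit 0) .nil) .nil))) 
(.lf (nat_lit 593618) (.g (nat_lit 4098) (.e (nat_lit 540706) (nat_lit 12) (.e (nat_lit 360475) (nat_lit 8) (.e (nat_lit 557091) (nat_lit 12) (.e (nat_lit 164022) (nat_lit 46) (.e (nat_lit 704738) (nat_lit 11) (.e (nat_lit 16390) (nat_lit 0) (.e (nat_lit 3259) (nat_lit 198) .nil))))))) (.g (nat_lit 1) (.e (nat_lit 404963) (nat_lit 0) .nil) .nil)))) (.nd (nat_lit 9) 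
(.lf (nat_lit 593362) (.g (nat_lit 1438) (.e (nat_lit 540704) (nat_lit 12) (.e (nat_lit 360475) (nat_lit 8) (.e (nat_lit 557090) (nat_lit 12) .nil))) (.g (nat_lit 0) (.e (nat_lit 404558) (nat_lit 0) .nil) .nil))) 
(.lf (nat_lit 593874) (.g (nat_lit 1846) (.e (nat_lit 516116) (nat_lit 1) (.e (nat_lit 164332) (nat_lit 230) (.e (nat_lit 163943) (nat_lit 19) (.e (nat_lit 483341) (nat_lit 9) (.e (nat_lit 426198) (nat_lit 9) .nil))))) (.g (nat_lit 0) (.e (nat_lit 405735) (nat_lit 0) .nil) .nil))))))) (.nd (nat_lit 6) (.nd (nat_lit 7) (.nd (nat_lit 8) (.nd (nat_lit 9) 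
(.lf (nat_lit 592946) (.g (nat_lit 1181) (.e (nat_lit 532565) (nat_lit 15) (.e (nat_lit 385094) (nat_lit 49) (.e (nat_lit 778317) (nat_lit 3) (.e (nat_lit 57480) (nat_lit 28) .nil)))) (.g (nat_lit 0) (.e (nat_lit 403301) (nat_lit 0) .nil) .nil))) 
(.lf (nat_lit 593458) (.g (nat_lit 2670) (.e (nat_lit 540706) (nat_lit 12) (.e (nat_lit 360475) (nat_lit 8) (.e (nat_lit 557086) (nat_lit 11) (.e (nat_lit 24662) (nat_lit 14) (.e (nat_lit 401409) (nat_lit 0) (.e (nat_lit 3262) (nat_lit 198) .nil)))))) (.g (nat_lit 1) (.e (nat_lit 404769) (nat_lit 0) .nil) .nil)))) (.nd (nat_lit 9) 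
(.lf (nat_lit 593202) (.g (nat_lit 1405) (.e (nat_lit 532579) (nat_lit 26) (.e (nat_lit 426098) (nat_lit 1) (.e (nat_lit 164403) (nat_lit 256) (.e (nat_lit 57405) (nat_lit 12) .nil)))) (.g (nat_lit 0) (.e (nat_lit 403848) (nat_lit 0) .nil) .nil))) 
(.lf (nat_lit 593714) (.g (nat_lit 1717) (.e (nat_lit 516115) (nat_lit 1) (.e (nat_lit 164179) (nat_lit 154) (.e (nat_lit 57378) (nat_lit 3) (.e (nat_lit 98322) (nat_lit 17) .nil)))) (.g (nat_lit 0) (.e (nat_lit 405415) (nat_lit 0) .nil) .nil))))) (.nd (nat_lit 8) (.nd (nat_lit 9) 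
(.lf (nat_lit 593074) (.g (nat_lit 2747) (.e (nat_lit 532569) (nat_lit 16) (.e (nat_lit 401448) (nat_lit 10) (.e (nat_lit 434227) (nat_lit 20) (.e (nat_lit 507930) (nat_lit 10) (.e (nat_lit 5779) (nat_lit 317) (.e (nat_lit 188160) (nat_lit 5) .nil)))))) (.g (nat_lit 1) (.e (nat_lit 403619) (nat_lit 0) .nil) .nil))) 
(.lf (nat_lit 593586) (.g (nat_lit 3358) (.e (nat_lit 540706) (nat_lit 12) (.e (nat_lit 360475) (nat_lit 8) (.e (nat_lit 557091) (nat_lit 12) (.e (nat_lit 164022) (nat_lit 46) (.e (nat_lit 704628) (nat_lit 9) (.e (nat_lit 450) (nat_lit 33) (.e (nat_lit 434235) (nat_lit 24) .nil))))))) (.g (nat_lit 1) (.e (nat_lit 404926) (nat_lit 0) .nil) .nil)))) (.nd (nat_lit 9) 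
(.lf (nat_lit 593330) (.g (nat_lit 1292) (.e (nat_lit 540704) (nat_lit 12) (.e (nat_lit 360466) (nat_lit 3) (.e (nat_lit 516139) (nat_lit 7) (.e (nat_lit 409646) (nat_lit 18) .nil)))) (.g (nat_lit 0) (.e (nat_lit 404515) (nat_lit 0) .nil) .nil))) 
(.lf (nat_lit 593842) (.g (nat_lit 1675) (.e (nat_lit 516115) (nat_lit 1) (.e (nat_lit 164332) (nat_lit 230) (.e (nat_lit 163905) (nat_lit 12) (.e (nat_lit 426509) (nat_lit 27) .nil)))) (.g (nat_lit 0) (.e (nat_lit 405677) (nat_lit 0) .nil) .nil)))))) (.nd (nat_lit 7) (.nd (nat_lit 8) (.nd (nat_lit 9) 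
(.lf (nat_lit 593010) (.g (nat_lit 4022) (.e (nat_lit 532567) (nat_lit 16) (.e (nat_lit 401453) (nat_lit 12) (.e (nat_lit 475183) (nat_lit 29) (.e (nat_lit 557100) (nat_lit 13) (.e (nat_lit 172106) (nat_lit 10) (.e (nat_lit 434231) (nat_lit 23) .nil)))))) (.g (nat_lit 1) (.e (nat_lit 403442) (nat_lit 0) .nil) .nil))) 
(.lf (nat_lit 593522) (.g (nat_lit 1976) (.e (nat_lit 540706) (nat_lit 12) (.e (nat_lit 360475) (nat_lit 8) (.e (nat_lit 557090) (nat_lit 12) (.e (nat_lit 164020) (nat_lit 45) (.e (nat_lit 696328) (nat_lit 5) (.e (nat_lit 2879) (nat_lit 184) (.e (nat_lit 426032) (nat_lit 0) (.e (nat_lit 3262) (nat_lit 198) .nil)))))))) (.g (nat_lit 1) (.e (nat_lit 404849) (nat_lit 0) .nil) .nil)))) 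
(.nd (nat_lit 9) 
(.lf (nat_lit 593266) (.g (nat_lit 2918) (.e (nat_lit 532583) (nat_lit 26) (.e (nat_lit 426100) (nat_lit 1) (.e (nat_lit 164398) (nat_lit 256) (.e (nat_lit 57407) (nat_lit 12) (.e (nat_lit 336434) (nat_lit 30) .nil))))) (.g (nat_lit 0) (.e (nat_lit 404202) (nat_lit 0) .nil) .nil))) 
(.lf (nat_lit 593778) (.g (nat_lit 4113) (.e (nat_lit 516115) (nat_lit 1) (.e (nat_lit 164325) (nat_lit 230) (.e (nat_lit 163905) (nat_lit 12) (.e (nat_lit 426566) (nat_lit 34) (.e (nat_lit 393273) (nat_lit 23) (.e (nat_lit 426364) (nat_lit 15) (.e (nat_lit 1802) (nat_lit 119) .nil))))))) (.g (nat_lit 1) (.e (nat_lit 405554) (nat_lit 0) .nil) .nil))))) (.nd (nat_lit 8) (.nd (nat_lit 9) 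
(.lf (nat_lit 593138) (.g (nat_lit 3146) (.e (nat_lit 532569) (nat_lit 16) (.e (nat_lit 401448) (nat_lit 10) (.e (nat_lit 434248) (nat_lit 28) (.e (nat_lit 573452) (nat_lit 9) (.e (nat_lit 430) (nat_lit 32) (.e (nat_lit 426298) (nat_lit 11) (.e (nat_lit 458789) (nat_lit 23) .nil))))))) (.g (nat_lit 1) (.e (nat_lit 403692) (nat_lit 0) .nil) .nil))) 
(.lf (nat_lit 593650) (.g (nat_lit 1399) (.e (nat_lit 516099) (nat_lit 0) (.e (nat_lit 3617) (nat_lit 227) (.e (nat_lit 778462) (nat_lit 11) (.e (nat_lit 24608) (nat_lit 3) (.e (nat_lit 98365) (nat_lit 26) .nil))))) (.g (nat_lit 0) (.e (nat_lit 405267) (nat_lit 0) .nil) .nil)))) (.nd (nat_lit 9) 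
(.lf (nat_lit 593394) (.g (nat_lit 2023) (.e (nat_lit 540706) (nat_lit 12) (.e (nat_lit 360474) (nat_lit 8) (.e (nat_lit 557093) (nat_lit 12) (.e (nat_lit 164022) (nat_lit 46) (.e (nat_lit 704736) (nat_lit 11) (.e (nat_lit 16390) (nat_lit 0) (.e (nat_lit 3259) (nat_lit 198) .nil))))))) (.g (nat_lit 1) (.e (nat_lit 404671) (nat_lit 0) .nil) .nil))) 
(.lf (nat_lit 593906) (.g (nat_lit 2214) (.e (nat_lit 516117) (nat_lit 1) (.e (nat_lit 164329) (nat_lit 230) (.e (nat_lit 163941) (nat_lit 19) (.e (nat_lit 483337) (nat_lit 9) (.e (nat_lit 426307) (nat_lit 12) .nil))))) (.g (nat_lit 0) (.e (nat_lit 405850) (nat_lit 0) .nil) .nil))))))))) (.nd (nat_lit 4) (.nd (nat_lit 5) (.nd (nat_lit 6) (.nd (nat_lit 7) (.nd (nat_lit 8) (.nd (nat_lit 9) 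
(.lf (nat_lit 592906) (.g (nat_lit 1442) (.e (nat_lit 532563) (nat_lit 15) (.e (nat_lit 385109) (nat_lit 51) (.e (nat_lit 794645) (nat_lit 20) .nil))) (.g (nat_lit 0) (.e (nat_lit 403176) (nat_lit 0) .nil) .nil))) 
(.lf (nat_lit 593418) (.g (nat_lit 3480) (.e (nat_lit 540706) (nat_lit 12) (.e (nat_lit 360474) (nat_lit 8) (.e (nat_lit 557093) (nat_lit 12) (.e (nat_lit 164023) (nat_lit 46) (.e (nat_lit 704629) (nat_lit 9) (.e (nat_lit 442) (nat_lit 33) (.e (nat_lit 434235) (nat_lit 24) .nil))))))) (.g (nat_lit 1) (.e (nat_lit 404695) (nat_lit 0) .nil) .nil)))) (.nd (nat_lit 9) 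
(.lf (nat_lit 593162) (.g (nat_lit 1508) (.e (nat_lit 540416) (nat_lit 16) (.e (nat_lit 401453) (nat_lit 12) (.e (nat_lit 475185) (nat_lit 29) (.e (nat_lit 557101) (nat_lit 13) .nil)))) (.g (nat_lit 0) (.e (nat_lit 403744) (nat_lit 0) .nil) .nil))) 
(.lf (nat_lit 593674) (.g (nat_lit 3593) (.e (nat_lit 516106) (nat_lit 0) (.e (nat_lit 3386) (nat_lit 210) (.e (nat_lit 639020) (nat_lit 16) (.e (nat_lit 65571) (nat_lit 3) (.e (nat_lit 98372) (nat_lit 29) (.e (nat_lit 458496) (nat_lit 3) .nil)))))) (.g (nat_lit 1) (.e (nat_lit 405321) (nat_lit 0) .nil) .nil))))) (.nd (nat_lit 8) (.nd (nat_lit 9) 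
(.lf (nat_lit 593034) (.g (nat_lit 3564) (.e (nat_lit 532568) (nat_lit 16) (.e (nat_lit 401450) (nat_lit 12) (.e (nat_lit 475185) (nat_lit 29) (.e (nat_lit 557100) (nat_lit 13) (.e (nat_lit 172113) (nat_lit 10) .nil))))) (.g (nat_lit 0) (.e (nat_lit 403495) (nat_lit 0) .nil) .nil))) 
(.lf (nat_lit 593546) (.g (nat_lit 2253) (.e (nat_lit 540706) (nat_lit 12) (.e (nat_lit 360475) (nat_lit 8) (.e (nat_lit 557090) (nat_lit 12) (.e (nat_lit 164020) (nat_lit 45) (.e (nat_lit 704256) (nat_lit 5) .nil))))) (.g (nat_lit 0) (.e (nat_lit 404874) (nat_lit 0) .nil) .nil)))) (.nd (nat_lit 9) 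
(.lf (nat_lit 593290) (.g (nat_lit 1204) (.e (nat_lit 540416) (nat_lit 29) (.e (nat_lit 450561) (nat_lit 0) (.e (nat_lit 6830) (nat_lit 367) (.e (nat_lit 57427) (nat_lit 15) (.e (nat_lit 368384) (nat_lit 5) .nil))))) (.g (nat_lit 0) (.e (nat_lit 404365) (nat_lit 0) .nil) .nil))) 
(.lf (nat_lit 593802) (.g (nat_lit 2239) (.e (nat_lit 516115) (nat_lit 1) (.e (nat_lit 164326) (nat_lit 230) (.e (nat_lit 163903) (nat_lit 12) (.e (nat_lit 426566) (nat_lit 34) (.e (nat_lit 393296) (nat_lit 26) .nil))))) (.g (nat_lit 0) (.e (nat_lit 405621) (nat_lit 0) .nil) .nil)))))) (.nd (nat_lit 7) (.nd (nat_lit 8) (.nd (nat_lit 9) 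
(.lf (nat_lit 592970) (.g (nat_lit 392) (.e (nat_lit 532566) (nat_lit 15) (.e (nat_lit 385066) (nat_lit 26) (.e (nat_lit 532566) (nat_lit 15) .nil))) (.g (nat_lit 0) (.e (nat_lit 403334) (nat_lit 0) .nil) .nil))) 
(.lf (nat_lit 593482) (.g (nat_lit 4286) (.e (nat_lit 540706) (nat_lit 12) (.e (nat_lit 360475) (nat_lit 8) (.e (nat_lit 557087) (nat_lit 11) (.e (nat_lit 24665) (nat_lit 14) (.e (nat_lit 401415) (nat_lit 0) .nil))))) (.g (nat_lit 0) (.e (nat_lit 404794) (nat_lit 0) .nil) .nil)))) (.nd (nat_lit 9) 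
(.lf (nat_lit 593226) (.g (nat_lit 1165) (.e (nat_lit 532579) (nat_lit 26) (.e (nat_lit 426107) (nat_lit 1) (.e (nat_lit 164402) (nat_lit 256) (.e (nat_lit 57409) (nat_lit 12) .nil)))) (.g (nat_lit 0) (.e (nat_lit 403877) (nat_lit 0) .nil) .nil))) 
(.lf (nat_lit 593738) (.g (nat_lit 3460) (.e (nat_lit 516115) (nat_lit 1) (.e (nat_lit 164325) (nat_lit 230) (.e (nat_lit 163873) (nat_lit 3) (.e (nat_lit 204809) (nat_lit 9) (.e (nat_lit 426139) (nat_lit 3) (.e (nat_lit 204834) (nat_lit 19) (.e (nat_lit 106539) (nat_lit 12) (.e (nat_lit 57466) (nat_lit 23) .nil)))))))) (.g (nat_lit 1) (.e (nat_lit 405509) (nat_lit 0) .nil) .nil))))) 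
(.nd (nat_lit 8) (.nd (nat_lit 9) 
(.lf (nat_lit 593098) (.g (nat_lit 652) (.e (nat_lit 532569) (nat_lit 16) (.e (nat_lit 401448) (nat_lit 10) (.e (nat_lit 434234) (nat_lit 23) .nil))) (.g (nat_lit 0) (.e (nat_lit 403645) (nat_lit 0) .nil) .nil))) 
(.lf (nat_lit 593610) (.g (nat_lit 2766) (.e (nat_lit 540706) (nat_lit 12) (.e (nat_lit 360475) (nat_lit 8) (.e (nat_lit 557091) (nat_lit 12) (.e (nat_lit 164022) (nat_lit 46) (.e (nat_lit 704737) (nat_lit 11) (.e (nat_lit 16400) (nat_lit 0) (.e (nat_lit 3258) (nat_lit 198) .nil))))))) (.g (nat_lit 1) (.e (nat_lit 404955) (nat_lit 0) .nil) .nil)))) (.nd (nat_lit 9) 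
(.lf (nat_lit 593354) (.g (nat_lit 3860) (.e (nat_lit 540704) (nat_lit 12) (.e (nat_lit 360473) (nat_lit 8) (.e (nat_lit 557090) (nat_lit 12) (.e (nat_lit 164022) (nat_lit 46) (.e (nat_lit 704629) (nat_lit 9) .nil))))) (.g (nat_lit 0) (.e (nat_lit 404550) (nat_lit 0) .nil) .nil))) 
(.lf (nat_lit 593866) (.g (nat_lit 1493) (.e (nat_lit 516116) (nat_lit 1) (.e (nat_lit 164330) (nat_lit 230) (.e (nat_lit 163941) (nat_lit 19) (.e (nat_lit 483341) (nat_lit 9) .nil)))) (.g (nat_lit 0) (.e (nat_lit 405722) (nat_lit 0) .nil) .nil))))))) (.nd (nat_lit 6) (.nd (nat_lit 7) (.nd (nat_lit 8) (.nd (nat_lit 9) 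
(.lf (nat_lit 592938) (.g (nat_lit 1402) (.e (nat_lit 532565) (nat_lit 15) (.e (nat_lit 385068) (nat_lit 26) (.e (nat_lit 532530) (nat_lit 9) (.e (nat_lit 343808) (nat_lit 18) .nil)))) (.g (nat_lit 0) (.e (nat_lit 403292) (nat_lit 0) .nil) .nil))) 
(.lf (nat_lit 593450) (.g (nat_lit 3307) (.e (nat_lit 540706) (nat_lit 12) (.e (nat_lit 360475) (nat_lit 8) (.e (nat_lit 557085) (nat_lit 11) (.e (nat_lit 24665) (nat_lit 14) (.e (nat_lit 401408) (nat_lit 0) (.e (nat_lit 3262) (nat_lit 198) .nil)))))) (.g (nat_lit 1) (.e (nat_lit 404758) (nat_lit 0) .nil) .nil)))) (.nd (nat_lit 9) 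
(.lf (nat_lit 593194) (.g (nat_lit 1386) (.e (nat_lit 532578) (nat_lit 26) (.e (nat_lit 426190) (nat_lit 9) (.e (nat_lit 426562) (nat_lit 33) (.e (nat_lit 392960) (nat_lit 5) .nil)))) (.g (nat_lit 0) (.e (nat_lit 403827) (nat_lit 0) .nil) .nil))) 
(.lf (nat_lit 593706) (.g (nat_lit 1410) (.e (nat_lit 516114) (nat_lit 1) (.e (nat_lit 164183) (nat_lit 154) (.e (nat_lit 57378) (nat_lit 3) (.e (nat_lit 98342) (nat_lit 20) .nil)))) (.g (nat_lit 0) (.e (nat_lit 405392) (nat_lit 0) .nil) .nil))))) (.nd (nat_lit 8) (.nd (nat_lit 9) 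
(.lf (nat_lit 593066) (.g (nat_lit 1031) (.e (nat_lit 532569) (nat_lit 16) (.e (nat_lit 401448) (nat_lit 10) (.e (nat_lit 434209) (nat_lit 18) .nil))) (.g (nat_lit 0) (.e (nat_lit 403610) (nat_lit 0) .nil) .nil))) 
(.lf (nat_lit 593578) (.g (nat_lit 4357) (.e (nat_lit 540706) (nat_lit 12) (.e (nat_lit 360475) (nat_lit 8) (.e (nat_lit 557091) (nat_lit 12) (.e (nat_lit 163847) (nat_lit 0) (.e (nat_lit 6420) (nat_lit 341) (.e (nat_lit 163902) (nat_lit 12) (.e (nat_lit 425986) (nat_lit 0) (.e (nat_lit 3262) (nat_lit 198) .nil)))))))) (.g (nat_lit 1) (.e (nat_lit 404910) (nat_lit 0) .nil) .nil)))) 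
(.nd (nat_lit 9) 
(.lf (nat_lit 593322) (.g (nat_lit 2158) (.e (nat_lit 540703) (nat_lit 11) (.e (nat_lit 352315) (nat_lit 23) (.e (nat_lit 98367) (nat_lit 27) (.e (nat_lit 434275) (nat_lit 39) (.e (nat_lit 663582) (nat_lit 10) .nil))))) (.g (nat_lit 0) (.e (nat_lit 404496) (nat_lit 0) .nil) .nil))) 
(.lf (nat_lit 593834) (.g (nat_lit 994) (.e (nat_lit 516115) (nat_lit 1) (.e (nat_lit 164327) (nat_lit 230) (.e (nat_lit 163939) (nat_lit 18) .nil))) (.g (nat_lit 0) (.e (nat_lit 405655) (nat_lit 0) .nil) .nil)))))) (.nd (nat_lit 7) (.nd (nat_lit 8) (.nd (nat_lit 9) 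
(.lf (nat_lit 593002) (.g (nat_lit 2240) (.e (nat_lit 532567) (nat_lit 16) (.e (nat_lit 401451) (nat_lit 12) (.e (nat_lit 475183) (nat_lit 29) (.e (nat_lit 557097) (nat_lit 13) .nil)))) (.g (nat_lit 0) (.e (nat_lit 403428) (nat_lit 0) .nil) .nil))) 
(.lf (nat_lit 593514) (.g (nat_lit 2031) (.e (nat_lit 540706) (nat_lit 12) (.e (nat_lit 360475) (nat_lit 8) (.e (nat_lit 557090) (nat_lit 12) (.e (nat_lit 164020) (nat_lit 45) (.e (nat_lit 696327) (nat_lit 5) .nil))))) (.g (nat_lit 0) (.e (nat_lit 404841) (nat_lit 0) .nil) .nil)))) (.nd (nat_lit 9) 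
(.lf (nat_lit 593258) (.g (nat_lit 1952) (.e (nat_lit 532582) (nat_lit 26) (.e (nat_lit 426107) (nat_lit 1) (.e (nat_lit 164403) (nat_lit 256) (.e (nat_lit 57409) (nat_lit 12) .nil)))) (.g (nat_lit 0) (.e (nat_lit 404188) (nat_lit 0) .nil) .nil))) 
(.lf (nat_lit 593770) (.g (nat_lit 2477) (.e (nat_lit 516115) (nat_lit 1) (.e (nat_lit 164325) (nat_lit 230) (.e (nat_lit 163903) (nat_lit 12) (.e (nat_lit 426568) (nat_lit 34) (.e (nat_lit 393295) (nat_lit 26) .nil))))) (.g (nat_lit 0) (.e (nat_lit 405546) (nat_lit 0) .nil) .nil))))) (.nd (nat_lit 8) (.nd (nat_lit 9) 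
(.lf (nat_lit 593130) (.g (nat_lit 3861) (.e (nat_lit 532569) (nat_lit 16) (.e (nat_lit 401448) (nat_lit 10) (.e (nat_lit 434246) (nat_lit 28) (.e (nat_lit 573471) (nat_lit 11) (.e (nat_lit 16451) (nat_lit 11) (.e (nat_lit 458789) (nat_lit 23) .nil)))))) (.g (nat_lit 1) (.e (nat_lit 403683) (nat_lit 0) .nil) .nil))) 
(.lf (nat_lit 593642) (.g (nat_lit 3401) (.e (nat_lit 516098) (nat_lit 0) (.e (nat_lit 7306) (nat_lit 388) (.e (nat_lit 3062) (nat_lit 190) (.e (nat_lit 475185) (nat_lit 29) (.e (nat_lit 557103) (nat_lit 14) (.e (nat_lit 188160) (nat_lit 35) (.e (nat_lit 57464) (nat_lit 23) .nil))))))) (.g (nat_lit 1) (.e (nat_lit 405253) (nat_lit 0) .nil) .nil)))) (.nd (nat_lit 9) 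
(.lf (nat_lit 593386) (.g (nat_lit 2300) (.e (nat_lit 540706) (nat_lit 12) (.e (nat_lit 360474) (nat_lit 8) (.e (nat_lit 557093) (nat_lit 12) (.e (nat_lit 164022) (nat_lit 46) (.e (nat_lit 704628) (nat_lit 9) (.e (nat_lit 452) (nat_lit 33) (.e (nat_lit 434235) (nat_lit 24) .nil))))))) (.g (nat_lit 1) (.e (nat_lit 404661) (nat_lit 0) .nil) .nil))) 
(.lf (nat_lit 593898) (.g (nat_lit 3154) (.e (nat_lit 516117) (nat_lit 1) (.e (nat_lit 164329) (nat_lit 230) (.e (nat_lit 163902) (nat_lit 12) (.e (nat_lit 426568) (nat_lit 34) (.e (nat_lit 393234) (nat_lit 17) (.e (nat_lit 7374) (nat_lit 389) (.e (nat_lit 8319) (nat_lit 64) .nil))))))) (.g (nat_lit 1) (.e (nat_lit 405831) (nat_lit 0) .nil) .nil)))))))) 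
(.nd (nat_lit 5) (.nd (nat_lit 6) (.nd (nat_lit 7) (.nd (nat_lit 8) (.nd (nat_lit 9) 
(.lf (nat_lit 592922) (.g (nat_lit 2540) (.e (nat_lit 532564) (nat_lit 15) (.e (nat_lit 385068) (nat_lit 26) (.e (nat_lit 532530) (nat_lit 9) (.e (nat_lit 336325) (nat_lit 18) .nil)))) (.g (nat_lit 0) (.e (nat_lit 403215) (nat_lit 0) .nil) .nil))) 
(.lf (nat_lit 593434) (.g (nat_lit 2628) (.e (nat_lit 540706) (nat_lit 12) (.e (nat_lit 360474) (nat_lit 8) (.e (nat_lit 557094) (nat_lit 12) (.e (nat_lit 164022) (nat_lit 46) (.e (nat_lit 704736) (nat_lit 11) (.e (nat_lit 16393) (nat_lit 0) (.e (nat_lit 3262) (nat_lit 198) .nil))))))) (.g (nat_lit 1) (.e (nat_lit 404714) (nat_lit 0) .nil) .nil)))) (.nd (nat_lit 9) 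
(.lf (nat_lit 593178) (.g (nat_lit 2852) (.e (nat_lit 532578) (nat_lit 26) (.e (nat_lit 426100) (nat_lit 1) (.e (nat_lit 164398) (nat_lit 256) (.e (nat_lit 57407) (nat_lit 12) (.e (nat_lit 336434) (nat_lit 30) .nil))))) (.g (nat_lit 0) (.e (nat_lit 403803) (nat_lit 0) .nil) .nil))) 
(.lf (nat_lit 593690) (.g (nat_lit 4092) (.e (nat_lit 516106) (nat_lit 0) (.e (nat_lit 7008) (nat_lit 377) (.e (nat_lit 2788) (nat_lit 179) (.e (nat_lit 294966) (nat_lit 15) (.e (nat_lit 3308) (nat_lit 202) (.e (nat_lit 573482) (nat_lit 13) (.e (nat_lit 65619) (nat_lit 10) (.e (nat_lit 344117) (nat_lit 21) .nil)))))))) (.g (nat_lit 1) (.e (nat_lit 405370) (nat_lit 0) .nil) .nil))))) 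
(.nd (nat_lit 8) (.nd (nat_lit 9) 
(.lf (nat_lit 593050) (.g (nat_lit 5286) (.e (nat_lit 532568) (nat_lit 16) (.e (nat_lit 401460) (nat_lit 14) (.e (nat_lit 491537) (nat_lit 2) (.e (nat_lit 90170) (nat_lit 13) (.e (nat_lit 172106) (nat_lit 10) (.e (nat_lit 434231) (nat_lit 23) .nil)))))) (.g (nat_lit 1) (.e (nat_lit 403535) (nat_lit 0) .nil) .nil))) 
(.lf (nat_lit 593562) (.g (nat_lit 3419) (.e (nat_lit 540706) (nat_lit 12) (.e (nat_lit 360475) (nat_lit 8) (.e (nat_lit 557090) (nat_lit 12) (.e (nat_lit 164020) (nat_lit 45) (.e (nat_lit 696344) (nat_lit 8) (.e (nat_lit 172054) (nat_lit 0) (.e (nat_lit 3258) (nat_lit 198) .nil))))))) (.g (nat_lit 1) (.e (nat_lit 404890) (nat_lit 0) .nil) .nil)))) (.nd (nat_lit 9) 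
(.lf (nat_lit 593306) (.g (nat_lit 1986) (.e (nat_lit 540703) (nat_lit 11) (.e (nat_lit 352309) (nat_lit 21) (.e (nat_lit 57686) (nat_lit 156) (.e (nat_lit 163885) (nat_lit 5) (.e (nat_lit 229120) (nat_lit 17) .nil))))) (.g (nat_lit 0) (.e (nat_lit 404475) (nat_lit 0) .nil) .nil))) 
(.lf (nat_lit 593818) (.g (nat_lit 2090) (.e (nat_lit 516115) (nat_lit 1) (.e (nat_lit 164327) (nat_lit 230) (.e (nat_lit 163903) (nat_lit 12) (.e (nat_lit 426487) (nat_lit 27) .nil)))) (.g (nat_lit 0) (.e (nat_lit 405639) (nat_lit 0) .nil) .nil)))))) (.nd (nat_lit 7) (.nd (nat_lit 8) (.nd (nat_lit 9) 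
(.lf (nat_lit 592986) (.g (nat_lit 5303) (.e (nat_lit 532566) (nat_lit 15) (.e (nat_lit 385093) (nat_lit 49) (.e (nat_lit 778317) (nat_lit 3) (.e (nat_lit 57476) (nat_lit 28) (.e (nat_lit 557067) (nat_lit 9) (.e (nat_lit 3022) (nat_lit 187) (.e (nat_lit 450580) (nat_lit 5) .nil))))))) (.g (nat_lit 1) (.e (nat_lit 403359) (nat_lit 0) .nil) .nil))) 
(.lf (nat_lit 593498) (.g (nat_lit 1882) (.e (nat_lit 540706) (nat_lit 12) (.e (nat_lit 360475) (nat_lit 8) (.e (nat_lit 557090) (nat_lit 12) (.e (nat_lit 163843) (nat_lit 0) .nil)))) (.g (nat_lit 0) (.e (nat_lit 404817) (nat_lit 0) .nil) .nil)))) (.nd (nat_lit 9) 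
(.lf (nat_lit 593242) (.g (nat_lit 1296) (.e (nat_lit 532579) (nat_lit 26) (.e (nat_lit 426190) (nat_lit 9) (.e (nat_lit 426566) (nat_lit 34) (.e (nat_lit 393253) (nat_lit 18) .nil)))) (.g (nat_lit 0) (.e (nat_lit 404050) (nat_lit 0) .nil) .nil))) 
(.lf (nat_lit 593754) (.g (nat_lit 4422) (.e (nat_lit 516115) (nat_lit 1) (.e (nat_lit 164325) (nat_lit 230) (.e (nat_lit 163902) (nat_lit 12) (.e (nat_lit 426566) (nat_lit 34) (.e (nat_lit 393294) (nat_lit 26) (.e (nat_lit 475179) (nat_lit 24) .nil)))))) (.g (nat_lit 1) (.e (nat_lit 405528) (nat_lit 0) .nil) .nil))))) (.nd (nat_lit 8) (.nd (nat_lit 9) 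
(.lf (nat_lit 593114) (.g (nat_lit 4210) (.e (nat_lit 532569) (nat_lit 16) (.e (nat_lit 401448) (nat_lit 10) (.e (nat_lit 434244) (nat_lit 28) (.e (nat_lit 573471) (nat_lit 11) (.e (nat_lit 16447) (nat_lit 10) (.e (nat_lit 434231) (nat_lit 23) .nil)))))) (.g (nat_lit 1) (.e (nat_lit 403667) (nat_lit 0) .nil) .nil))) 
(.lf (nat_lit 593626) (.g (nat_lit 1475) (.e (nat_lit 540706) (nat_lit 12) (.e (nat_lit 360475) (nat_lit 8) (.e (nat_lit 557094) (nat_lit 12) (.e (nat_lit 164022) (nat_lit 46) .nil)))) (.g (nat_lit 0) (.e (nat_lit 404973) (nat_lit 0) .nil) .nil)))) (.nd (nat_lit 9) 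
(.lf (nat_lit 593370) (.g (nat_lit 3041) (.e (nat_lit 540705) (nat_lit 12) (.e (nat_lit 360475) (nat_lit 8) (.e (nat_lit 557091) (nat_lit 12) (.e (nat_lit 164022) (nat_lit 46) (.e (nat_lit 704737) (nat_lit 11) .nil))))) (.g (nat_lit 0) (.e (nat_lit 404567) (nat_lit 0) .nil) .nil))) 
(.lf (nat_lit 593882) (.g (nat_lit 1431) (.e (nat_lit 516116) (nat_lit 1) (.e (nat_lit 164399) (nat_lit 256) (.e (nat_lit 57378) (nat_lit 3) (.e (nat_lit 98376) (nat_lit 30) .nil)))) (.g (nat_lit 0) (.e (nat_lit 405745) (nat_lit 0) .nil) .nil))))))) (.nd (nat_lit 6) (.nd (nat_lit 7) (.nd (nat_lit 8) (.nd (nat_lit 9) 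
(.lf (nat_lit 592954) (.g (nat_lit 1745) (.e (nat_lit 532566) (nat_lit 15) (.e (nat_lit 385066) (nat_lit 26) (.e (nat_lit 532530) (nat_lit 9) (.e (nat_lit 336326) (nat_lit 18) (.e (nat_lit 204879) (nat_lit 32) .nil))))) (.g (nat_lit 0) (.e (nat_lit 403317) (nat_lit 0) .nil) .nil))) 
(.lf (nat_lit 593466) (.g (nat_lit 2540) (.e (nat_lit 540706) (nat_lit 12) (.e (nat_lit 360475) (nat_lit 8) (.e (nat_lit 557086) (nat_lit 11) (.e (nat_lit 24665) (nat_lit 14) (.e (nat_lit 401419) (nat_lit 0) (.e (nat_lit 3258) (nat_lit 198) .nil)))))) (.g (nat_lit 1) (.e (nat_lit 404777) (nat_lit 0) .nil) .nil)))) (.nd (nat_lit 9) 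
(.lf (nat_lit 593210) (.g (nat_lit 1909) (.e (nat_lit 532579) (nat_lit 26) (.e (nat_lit 426100) (nat_lit 1) (.e (nat_lit 164398) (nat_lit 256) (.e (nat_lit 57446) (nat_lit 19) (.e (nat_lit 393282) (nat_lit 24) .nil))))) (.g (nat_lit 0) (.e (nat_lit 403858) (nat_lit 0) .nil) .nil))) 
(.lf (nat_lit 593722) (.g (nat_lit 2221) (.e (nat_lit 516115) (nat_lit 1) (.e (nat_lit 164324) (nat_lit 230) (.e (nat_lit 163903) (nat_lit 12) (.e (nat_lit 426568) (nat_lit 34) (.e (nat_lit 393294) (nat_lit 26) .nil))))) (.g (nat_lit 0) (.e (nat_lit 405457) (nat_lit 0) .nil) .nil))))) (.nd (nat_lit 8) (.nd (nat_lit 9) 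
(.lf (nat_lit 593082) (.g (nat_lit 3360) (.e (nat_lit 532569) (nat_lit 16) (.e (nat_lit 401448) (nat_lit 10) (.e (nat_lit 434231) (nat_lit 23) (.e (nat_lit 532490) (nat_lit 0) (.e (nat_lit 6674) (nat_lit 357) (.e (nat_lit 2936) (nat_lit 184) (.e (nat_lit 425984) (nat_lit 0) (.e (nat_lit 3233) (nat_lit 197) .nil)))))))) (.g (nat_lit 1) (.e (nat_lit 403627) (nat_lit 0) .nil) .nil))) 
(.lf (nat_lit 593594) (.g (nat_lit 3477) (.e (nat_lit 540706) (nat_lit 12) (.e (nat_lit 360475) (nat_lit 8) (.e (nat_lit 557091) (nat_lit 12) (.e (nat_lit 164022) (nat_lit 46) (.e (nat_lit 704736) (nat_lit 11) (.e (nat_lit 16385) (nat_lit 0) (.e (nat_lit 3259) (nat_lit 198) .nil))))))) (.g (nat_lit 1) (.e (nat_lit 404939) (nat_lit 0) .nil) .nil)))) (.nd (nat_lit 9) 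
(.lf (nat_lit 593338) (.g (nat_lit 1788) (.e (nat_lit 540704) (nat_lit 12) (.e (nat_lit 360467) (nat_lit 3) (.e (nat_lit 516139) (nat_lit 7) (.e (nat_lit 409646) (nat_lit 18) .nil)))) (.g (nat_lit 0) (.e (nat_lit 404532) (nat_lit 0) .nil) .nil))) 
(.lf (nat_lit 593850) (.g (nat_lit 1594) (.e (nat_lit 516115) (nat_lit 1) (.e (nat_lit 164399) (nat_lit 256) (.e (nat_lit 57368) (nat_lit 1) (.e (nat_lit 57692) (nat_lit 156) (.e (nat_lit 163869) (nat_lit 2) .nil))))) (.g (nat_lit 0) (.e (nat_lit 405688) (nat_lit 0) .nil) .nil)))))) (.nd (nat_lit 7) (.nd (nat_lit 8) (.nd (nat_lit 9) 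
(.lf (nat_lit 593018) (.g (nat_lit 3515) (.e (nat_lit 532567) (nat_lit 16) (.e (nat_lit 401454) (nat_lit 12) (.e (nat_lit 475185) (nat_lit 29) (.e (nat_lit 557098) (nat_lit 13) (.e (nat_lit 172114) (nat_lit 10) .nil))))) (.g (nat_lit 0) (.e (nat_lit 403460) (nat_lit 0) .nil) .nil))) 
(.lf (nat_lit 593530) (.g (nat_lit 1671) (.e (nat_lit 540706) (nat_lit 12) (.e (nat_lit 360475) (nat_lit 8) (.e (nat_lit 557090) (nat_lit 12) (.e (nat_lit 164020) (nat_lit 45) (.e (nat_lit 696329) (nat_lit 5) .nil))))) (.g (nat_lit 0) (.e (nat_lit 404858) (nat_lit 0) .nil) .nil)))) (.nd (nat_lit 9) 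
(.lf (nat_lit 593274) (.g (nat_lit 661) (.e (nat_lit 532583) (nat_lit 26) (.e (nat_lit 426187) (nat_lit 9) (.e (nat_lit 426562) (nat_lit 33) (.e (nat_lit 392960) (nat_lit 5) .nil)))) (.g (nat_lit 0) (.e (nat_lit 404235) (nat_lit 0) .nil) .nil))) 
(.lf (nat_lit 593786) (.g (nat_lit 1024) (.e (nat_lit 516115) (nat_lit 1) (.e (nat_lit 164325) (nat_lit 230) (.e (nat_lit 163907) (nat_lit 12) (.e (nat_lit 426566) (nat_lit 34) .nil)))) (.g (nat_lit 0) (.e (nat_lit 405566) (nat_lit 0) .nil) .nil))))) (.nd (nat_lit 8) (.nd (nat_lit 9) 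
(.lf (nat_lit 593146) (.g (nat_lit 4732) (.e (nat_lit 532569) (nat_lit 16) (.e (nat_lit 401451) (nat_lit 12) (.e (nat_lit 475183) (nat_lit 29) (.e (nat_lit 557100) (nat_lit 13) (.e (nat_lit 172106) (nat_lit 10) (.e (nat_lit 434231) (nat_lit 23) .nil)))))) (.g (nat_lit 1) (.e (nat_lit 403712) (nat_lit 0) .nil) .nil))) 
(.lf (nat_lit 593658) (.g (nat_lit 4699) (.e (nat_lit 516102) (nat_lit 0) (.e (nat_lit 6989) (nat_lit 377) (.e (nat_lit 2819) (nat_lit 181) (.e (nat_lit 311312) (nat_lit 2) (.e (nat_lit 196666) (nat_lit 13) (.e (nat_lit 65610) (nat_lit 10) (.e (nat_lit 344117) (nat_lit 21) .nil))))))) (.g (nat_lit 1) (.e (nat_lit 405292) (nat_lit 0) .nil) .nil)))) (.nd (nat_lit 9) 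
(.lf (nat_lit 593402) (.g (nat_lit 2362) (.e (nat_lit 540706) (nat_lit 12) (.e (nat_lit 360474) (nat_lit 8) (.e (nat_lit 557093) (nat_lit 12) (.e (nat_lit 164022) (nat_lit 46) (.e (nat_lit 704737) (nat_lit 11) (.e (nat_lit 16385) (nat_lit 0) (.e (nat_lit 3260) (nat_lit 198) .nil))))))) (.g (nat_lit 1) (.e (nat_lit 404679) (nat_lit 0) .nil) .nil))) 
(.lf (nat_lit 593914) (.g (nat_lit 3706) (.e (nat_lit 516117) (nat_lit 1) (.e (nat_lit 164330) (nat_lit 230) (.e (nat_lit 163902) (nat_lit 12) (.e (nat_lit 426478) (nat_lit 27) (.e (nat_lit 336389) (nat_lit 27) (.e (nat_lit 426308) (nat_lit 12) (.e (nat_lit 475177) (nat_lit 24) .nil))))))) (.g (nat_lit 1) (.e (nat_lit 405861) (nat_lit 0) .nil) .nil)))))))))) 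
(.nd (nat_lit 3) (.nd (nat_lit 4) (.nd (nat_lit 5) (.nd (nat_lit 6) (.nd (nat_lit 7) 
(.nd (nat_lit 8) (.nd (nat_lit 9) 
(.lf (nat_lit 592902) (.g (nat_lit 2904) (.e (nat_lit 532563) (nat_lit 15) (.e (nat_lit 385094) (nat_lit 49) (.e (nat_lit 778317) (nat_lit 3) (.e (nat_lit 57479) (nat_lit 28) (.e (nat_lit 557067) (nat_lit 9) .nil))))) (.g (nat_lit 0) (.e (nat_lit 403144) (nat_lit 0) .nil) .nil))) 
(.lf (nat_lit 593414) (.g (nat_lit 3519) (.e (nat_lit 540706) (nat_lit 12) (.e (nat_lit 360474) (nat_lit 8) (.e (nat_lit 557093) (nat_lit 12) (.e (nat_lit 164022) (nat_lit 46) (.e (nat_lit 704738) (nat_lit 11) (.e (nat_lit 16397) (nat_lit 0) (.e (nat_lit 3258) (nat_lit 198) .nil))))))) (.g (nat_lit 1) (.e (nat_lit 404691) (nat_lit 0) .nil) .nil)))) (.nd (nat_lit 9) 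
(.lf (nat_lit 593158) (.g (nat_lit 2542) (.e (nat_lit 540416) (nat_lit 16) (.e (nat_lit 401452) (nat_lit 12) (.e (nat_lit 475185) (nat_lit 29) (.e (nat_lit 557100) (nat_lit 13) (.e (nat_lit 172106) (nat_lit 10) .nil))))) (.g (nat_lit 0) (.e (nat_lit 403740) (nat_lit 0) .nil) .nil))) 
(.lf (nat_lit 593670) (.g (nat_lit 4141) (.e (nat_lit 516102) (nat_lit 0) (.e (nat_lit 7107) (nat_lit 380) (.e (nat_lit 164351) (nat_lit 246) (.e (nat_lit 2668) (nat_lit 167) (.e (nat_lit 196666) (nat_lit 13) (.e (nat_lit 65610) (nat_lit 10) (.e (nat_lit 344117) (nat_lit 21) .nil))))))) (.g (nat_lit 1) (.e (nat_lit 405306) (nat_lit 0) .nil) .nil))))) (.nd (nat_lit 8) (.nd (nat_lit 9) 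
(.lf (nat_lit 593030) (.g (nat_lit 906) (.e (nat_lit 532568) (nat_lit 16) (.e (nat_lit 401448) (nat_lit 10) (.e (nat_lit 434231) (nat_lit 23) .nil))) (.g (nat_lit 0) (.e (nat_lit 403482) (nat_lit 0) .nil) .nil))) 
(.lf (nat_lit 593542) (.g (nat_lit 2220) (.e (nat_lit 540706) (nat_lit 12) (.e (nat_lit 360475) (nat_lit 8) (.e (nat_lit 557090) (nat_lit 12) (.e (nat_lit 164020) (nat_lit 45) (.e (nat_lit 696331) (nat_lit 5) .nil))))) (.g (nat_lit 0) (.e (nat_lit 404870) (nat_lit 0) .nil) .nil)))) (.nd (nat_lit 9) 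
(.lf (nat_lit 593286) (.g (nat_lit 1223) (.e (nat_lit 540416) (nat_lit 27) (.e (nat_lit 434275) (nat_lit 39) (.e (nat_lit 663567) (nat_lit 4) (.e (nat_lit 65649) (nat_lit 27) (.e (nat_lit 426296) (nat_lit 11) .nil))))) (.g (nat_lit 0) (.e (nat_lit 404345) (nat_lit 0) .nil) .nil))) 
(.lf (nat_lit 593798) (.g (nat_lit 2485) (.e (nat_lit 516115) (nat_lit 1) (.e (nat_lit 164325) (nat_lit 230) (.e (nat_lit 163942) (nat_lit 19) (.e (nat_lit 483341) (nat_lit 9) (.e (nat_lit 426200) (nat_lit 9) (.e (nat_lit 426360) (nat_lit 15) (.e (nat_lit 1799) (nat_lit 119) .nil))))))) (.g (nat_lit 1) (.e (nat_lit 405607) (nat_lit 0) .nil) .nil)))))) 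
(.nd (nat_lit 7) (.nd (nat_lit 8) (.nd (nat_lit 9) 
(.lf (nat_lit 592966) (.g (nat_lit 3078) (.e (nat_lit 532566) (nat_lit 15) (.e (nat_lit 385066) (nat_lit 26) (.e (nat_lit 532534) (nat_lit 9) (.e (nat_lit 336326) (nat_lit 18) (.e (nat_lit 204882) (nat_lit 32) (.e (nat_lit 385066) (nat_lit 26) .nil)))))) (.g (nat_lit 1) (.e (nat_lit 403330) (nat_lit 0) .nil) .nil))) 
(.lf (nat_lit 593478) (.g (nat_lit 3290) (.e (nat_lit 540706) (nat_lit 12) (.e (nat_lit 360475) (nat_lit 8) (.e (nat_lit 557087) (nat_lit 11) (.e (nat_lit 24665) (nat_lit 14) (.e (nat_lit 401408) (nat_lit 0) (.e (nat_lit 3260) (nat_lit 198) .nil)))))) (.g (nat_lit 1) (.e (nat_lit 404790) (nat_lit 0) .nil) .nil)))) (.nd (nat_lit 9) 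
(.lf (nat_lit 593222) (.g (nat_lit 1090) (.e (nat_lit 532579) (nat_lit 26) (.e (nat_lit 426107) (nat_lit 1) (.e (nat_lit 164345) (nat_lit 240) (.e (nat_lit 2617) (nat_lit 164) .nil)))) (.g (nat_lit 0) (.e (nat_lit 403871) (nat_lit 0) .nil) .nil))) 
(.lf (nat_lit 593734) (.g (nat_lit 4207) (.e (nat_lit 516115) (nat_lit 1) (.e (nat_lit 164325) (nat_lit 230) (.e (nat_lit 163873) (nat_lit 3) (.e (nat_lit 204809) (nat_lit 9) (.e (nat_lit 426139) (nat_lit 3) (.e (nat_lit 204833) (nat_lit 19) (.e (nat_lit 106539) (nat_lit 12) (.e (nat_lit 57465) (nat_lit 23) .nil)))))))) (.g (nat_lit 1) (.e (nat_lit 405504) (nat_lit 0) .nil) .nil))))) 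
(.nd (nat_lit 8) (.nd (nat_lit 9) 
(.lf (nat_lit 593094) (.g (nat_lit 2379) (.e (nat_lit 532569) (nat_lit 16) (.e (nat_lit 401448) (nat_lit 10) (.e (nat_lit 434232) (nat_lit 23) (.e (nat_lit 532522) (nat_lit 7) (.e (nat_lit 319505) (nat_lit 10) (.e (nat_lit 5712) (nat_lit 312) (.e (nat_lit 2505) (nat_lit 157) (.e (nat_lit 3249) (nat_lit 197) .nil)))))))) (.g (nat_lit 1) (.e (nat_lit 403640) (nat_lit 0) .nil) .nil))) 
(.lf (nat_lit 593606) (.g (nat_lit 3266) (.e (nat_lit 540706) (nat_lit 12) (.e (nat_lit 360475) (nat_lit 8) (.e (nat_lit 557091) (nat_lit 12) (.e (nat_lit 164022) (nat_lit 46) (.e (nat_lit 704737) (nat_lit 11) (.e (nat_lit 16390) (nat_lit 0) (.e (nat_lit 3260) (nat_lit 198) .nil))))))) (.g (nat_lit 1) (.e (nat_lit 404951) (nat_lit 0) .nil) .nil)))) (.nd (nat_lit 9) 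
(.lf (nat_lit 593350) (.g (nat_lit 1401) (.e (nat_lit 540704) (nat_lit 12) (.e (nat_lit 360473) (nat_lit 8) (.e (nat_lit 557090) (nat_lit 12) (.e (nat_lit 164020) (nat_lit 45) .nil)))) (.g (nat_lit 0) (.e (nat_lit 404546) (nat_lit 0) .nil) .nil))) 
(.lf (nat_lit 593862) (.g (nat_lit 2467) (.e (nat_lit 516116) (nat_lit 1) (.e (nat_lit 164329) (nat_lit 230) (.e (nat_lit 163941) (nat_lit 19) (.e (nat_lit 483337) (nat_lit 9) (.e (nat_lit 426197) (nat_lit 9) (.e (nat_lit 426402) (nat_lit 15) (.e (nat_lit 1788) (nat_lit 119) .nil))))))) (.g (nat_lit 1) (.e (nat_lit 405712) (nat_lit 0) .nil) .nil))))))) 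
(.nd (nat_lit 6) (.nd (nat_lit 7) (.nd (nat_lit 8) (.nd (nat_lit 9) 
(.lf (nat_lit 592934) (.g (nat_lit 3140) (.e (nat_lit 532565) (nat_lit 15) (.e (nat_lit 385066) (nat_lit 26) (.e (nat_lit 532534) (nat_lit 9) (.e (nat_lit 336326) (nat_lit 18) (.e (nat_lit 204880) (nat_lit 32) (.e (nat_lit 385066) (nat_lit 26) .nil)))))) (.g (nat_lit 1) (.e (nat_lit 403288) (nat_lit 0) .nil) .nil))) 
(.lf (nat_lit 593446) (.g (nat_lit 2502) (.e (nat_lit 540706) (nat_lit 12) (.e (nat_lit 360475) (nat_lit 8) (.e (nat_lit 557065) (nat_lit 9) (.e (nat_lit 232) (nat_lit 21) (.e (nat_lit 336060) (nat_lit 7) .nil))))) (.g (nat_lit 0) (.e (nat_lit 404728) (nat_lit 0) .nil) .nil)))) (.nd (nat_lit 9) 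
(.lf (nat_lit 593190) (.g (nat_lit 2253) (.e (nat_lit 532578) (nat_lit 26) (.e (nat_lit 426108) (nat_lit 1) (.e (nat_lit 164403) (nat_lit 256) (.e (nat_lit 57406) (nat_lit 12) (.e (nat_lit 336398) (nat_lit 27) .nil))))) (.g (nat_lit 0) (.e (nat_lit 403816) (nat_lit 0) .nil) .nil))) 
(.lf (nat_lit 593702) (.g (nat_lit 1786) (.e (nat_lit 516114) (nat_lit 1) (.e (nat_lit 164179) (nat_lit 154) (.e (nat_lit 57377) (nat_lit 3) (.e (nat_lit 98341) (nat_lit 20) .nil)))) (.g (nat_lit 0) (.e (nat_lit 405388) (nat_lit 0) .nil) .nil))))) (.nd (nat_lit 8) (.nd (nat_lit 9) 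
(.lf (nat_lit 593062) (.g (nat_lit 1283) (.e (nat_lit 532569) (nat_lit 16) (.e (nat_lit 401435) (nat_lit 9) (.e (nat_lit 426131) (nat_lit 3) (.e (nat_lit 204816) (nat_lit 17) .nil)))) (.g (nat_lit 0) (.e (nat_lit 403555) (nat_lit 0) .nil) .nil))) 
(.lf (nat_lit 593574) (.g (nat_lit 4496) (.e (nat_lit 540706) (nat_lit 12) (.e (nat_lit 360475) (nat_lit 8) (.e (nat_lit 557091) (nat_lit 12) (.e (nat_lit 163844) (nat_lit 0) (.e (nat_lit 6420) (nat_lit 341) (.e (nat_lit 163902) (nat_lit 12) (.e (nat_lit 425986) (nat_lit 0) (.e (nat_lit 3262) (nat_lit 198) .nil)))))))) (.g (nat_lit 1) (.e (nat_lit 404906) (nat_lit 0) .nil) .nil)))) 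
(.nd (nat_lit 9) 
(.lf (nat_lit 593318) (.g (nat_lit 1487) (.e (nat_lit 540703) (nat_lit 11) (.e (nat_lit 352315) (nat_lit 23) (.e (nat_lit 98350) (nat_lit 24) (.e (nat_lit 417536) (nat_lit 18) .nil)))) (.g (nat_lit 0) (.e (nat_lit 404490) (nat_lit 0) .nil) .nil))) 
(.lf (nat_lit 593830) (.g (nat_lit 2169) (.e (nat_lit 516115) (nat_lit 1) (.e (nat_lit 164327) (nat_lit 230) (.e (nat_lit 163905) (nat_lit 12) (.e (nat_lit 426566) (nat_lit 34) .nil)))) (.g (nat_lit 0) (.e (nat_lit 405651) (nat_lit 0) .nil) .nil)))))) (.nd (nat_lit 7) (.nd (nat_lit 8) (.nd (nat_lit 9) 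
(.lf (nat_lit 592998) (.g (nat_lit 1452) (.e (nat_lit 532567) (nat_lit 16) (.e (nat_lit 401446) (nat_lit 10) (.e (nat_lit 434231) (nat_lit 23) (.e (nat_lit 532569) (nat_lit 16) .nil)))) (.g (nat_lit 0) (.e (nat_lit 403421) (nat_lit 0) .nil) .nil))) 
(.lf (nat_lit 593510) (.g (nat_lit 2369) (.e (nat_lit 540706) (nat_lit 12) (.e (nat_lit 360475) (nat_lit 8) (.e (nat_lit 557090) (nat_lit 12) (.e (nat_lit 164016) (nat_lit 44) .nil)))) (.g (nat_lit 0) (.e (nat_lit 404834) (nat_lit 0) .nil) .nil)))) (.nd (nat_lit 9) 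
(.lf (nat_lit 593254) (.g (nat_lit 1752) (.e (nat_lit 532582) (nat_lit 26) (.e (nat_lit 426100) (nat_lit 1) (.e (nat_lit 164399) (nat_lit 256) (.e (nat_lit 57447) (nat_lit 19) (.e (nat_lit 393286) (nat_lit 25) .nil))))) (.g (nat_lit 0) (.e (nat_lit 404184) (nat_lit 0) .nil) .nil))) 
(.lf (nat_lit 593766) (.g (nat_lit 4148) (.e (nat_lit 516115) (nat_lit 1) (.e (nat_lit 164325) (nat_lit 230) (.e (nat_lit 163903) (nat_lit 12) (.e (nat_lit 426566) (nat_lit 34) (.e (nat_lit 393293) (nat_lit 26) (.e (nat_lit 475179) (nat_lit 24) .nil)))))) (.g (nat_lit 1) (.e (nat_lit 405541) (nat_lit 0) .nil) .nil))))) (.nd (nat_lit 8) (.nd (nat_lit 9) 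
(.lf (nat_lit 593126) (.g (nat_lit 2789) (.e (nat_lit 532569) (nat_lit 16) (.e (nat_lit 401448) (nat_lit 10) (.e (nat_lit 434246) (nat_lit 28) (.e (nat_lit 573470) (nat_lit 11) (.e (nat_lit 16435) (nat_lit 9) (.e (nat_lit 426068) (nat_lit 0) (.e (nat_lit 3249) (nat_lit 197) .nil))))))) (.g (nat_lit 1) (.e (nat_lit 403679) (nat_lit 0) .nil) .nil))) 
(.lf (nat_lit 593638) (.g (nat_lit 2205) (.e (nat_lit 516097) (nat_lit 0) (.e (nat_lit 7073) (nat_lit 377) (.e (nat_lit 2798) (nat_lit 180) (.e (nat_lit 303119) (nat_lit 3) (.e (nat_lit 204860) (nat_lit 26) (.e (nat_lit 336186) (nat_lit 11) (.e (nat_lit 368676) (nat_lit 21) .nil))))))) (.g (nat_lit 1) (.e (nat_lit 405244) (nat_lit 0) .nil) .nil)))) (.nd (nat_lit 9) 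
(.lf (nat_lit 593382) (.g (nat_lit 478) (.e (nat_lit 540706) (nat_lit 12) (.e (nat_lit 360474) (nat_lit 8) (.e (nat_lit 557093) (nat_lit 12) .nil))) (.g (nat_lit 0) (.e (nat_lit 404656) (nat_lit 0) .nil) .nil))) 
(.lf (nat_lit 593894) (.g (nat_lit 1207) (.e (nat_lit 516117) (nat_lit 1) (.e (nat_lit 164329) (nat_lit 230) (.e (nat_lit 163902) (nat_lit 12) (.e (nat_lit 426481) (nat_lit 27) .nil)))) (.g (nat_lit 0) (.e (nat_lit 405825) (nat_lit 0) .nil) .nil)))))))) (.nd (nat_lit 5) (.nd (nat_lit 6) (.nd (nat_lit 7) (.nd (nat_lit 8) (.nd (nat_lit 9) 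
(.lf (nat_lit 592918) (.g (nat_lit 1791) (.e (nat_lit 532564) (nat_lit 15) (.e (nat_lit 385066) (nat_lit 26) (.e (nat_lit 532565) (nat_lit 15) (.e (nat_lit 385066) (nat_lit 26) (.e (nat_lit 532532) (nat_lit 9) (.e (nat_lit 336306) (nat_lit 15) (.e (nat_lit 3238) (nat_lit 197) .nil))))))) (.g (nat_lit 1) (.e (nat_lit 403211) (nat_lit 0) .nil) .nil))) 
(.lf (nat_lit 593430) (.g (nat_lit 1975) (.e (nat_lit 540706) (nat_lit 12) (.e (nat_lit 360474) (nat_lit 8) (.e (nat_lit 557094) (nat_lit 12) (.e (nat_lit 164022) (nat_lit 46) (.e (nat_lit 704736) (nat_lit 11) (.e (nat_lit 16385) (nat_lit 0) (.e (nat_lit 3260) (nat_lit 198) .nil))))))) (.g (nat_lit 1) (.e (nat_lit 404710) (nat_lit 0) .nil) .nil)))) (.nd (nat_lit 9) 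
(.lf (nat_lit 593174) (.g (nat_lit 619) (.e (nat_lit 540416) (nat_lit 22) (.e (nat_lit 253991) (nat_lit 11) (.e (nat_lit 16412) (nat_lit 2) .nil))) (.g (nat_lit 0) (.e (nat_lit 403796) (nat_lit 0) .nil) .nil))) 
(.lf (nat_lit 593686) (.g (nat_lit 5428) (.e (nat_lit 516106) (nat_lit 0) (.e (nat_lit 6986) (nat_lit 377) (.e (nat_lit 2819) (nat_lit 181) (.e (nat_lit 311311) (nat_lit 2) (.e (nat_lit 196666) (nat_lit 13) (.e (nat_lit 65610) (nat_lit 10) (.e (nat_lit 344117) (nat_lit 21) .nil))))))) (.g (nat_lit 1) (.e (nat_lit 405364) (nat_lit 0) .nil) .nil))))) (.nd (nat_lit 8) (.nd (nat_lit 9) 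
(.lf (nat_lit 593046) (.g (nat_lit 1065) (.e (nat_lit 532568) (nat_lit 16) (.e (nat_lit 401459) (nat_lit 13) (.e (nat_lit 491264) (nat_lit 10) .nil))) (.g (nat_lit 0) (.e (nat_lit 403531) (nat_lit 0) .nil) .nil))) 
(.lf (nat_lit 593558) (.g (nat_lit 2460) (.e (nat_lit 540706) (nat_lit 12) (.e (nat_lit 360475) (nat_lit 8) (.e (nat_lit 557090) (nat_lit 12) (.e (nat_lit 164020) (nat_lit 45) (.e (nat_lit 696343) (nat_lit 8) (.e (nat_lit 172052) (nat_lit 0) (.e (nat_lit 3258) (nat_lit 198) .nil))))))) (.g (nat_lit 1) (.e (nat_lit 404886) (nat_lit 0) .nil) .nil)))) (.nd (nat_lit 9) 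
(.lf (nat_lit 593302) (.g (nat_lit 912) (.e (nat_lit 540702) (nat_lit 11) (.e (nat_lit 352309) (nat_lit 21) (.e (nat_lit 57687) (nat_lit 156) .nil))) (.g (nat_lit 0) (.e (nat_lit 404467) (nat_lit 0) .nil) .nil))) 
(.lf (nat_lit 593814) (.g (nat_lit 2347) (.e (nat_lit 516115) (nat_lit 1) (.e (nat_lit 164327) (nat_lit 230) (.e (nat_lit 163903) (nat_lit 12) (.e (nat_lit 426478) (nat_lit 27) (.e (nat_lit 336386) (nat_lit 27) .nil))))) (.g (nat_lit 0) (.e (nat_lit 405634) (nat_lit 0) .nil) .nil)))))) (.nd (nat_lit 7) (.nd (nat_lit 8) (.nd (nat_lit 9) 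
(.lf (nat_lit 592982) (.g (nat_lit 2405) (.e (nat_lit 532566) (nat_lit 15) (.e (nat_lit 385068) (nat_lit 26) (.e (nat_lit 532566) (nat_lit 15) (.e (nat_lit 385068) (nat_lit 26) (.e (nat_lit 532563) (nat_lit 15) (.e (nat_lit 385066) (nat_lit 26) .nil)))))) (.g (nat_lit 1) (.e (nat_lit 403349) (nat_lit 0) .nil) .nil))) 
(.lf (nat_lit 593494) (.g (nat_lit 3512) (.e (nat_lit 540706) (nat_lit 12) (.e (nat_lit 360475) (nat_lit 8) (.e (nat_lit 557089) (nat_lit 12) (.e (nat_lit 164017) (nat_lit 44) (.e (nat_lit 688138) (nat_lit 5) (.e (nat_lit 2887) (nat_lit 184) (.e (nat_lit 426026) (nat_lit 0) (.e (nat_lit 3262) (nat_lit 198) .nil)))))))) (.g (nat_lit 1) (.e (nat_lit 404813) (nat_lit 0) .nil) .nil)))) 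
(.nd (nat_lit 9) 
(.lf (nat_lit 593238) (.g (nat_lit 2295) (.e (nat_lit 532579) (nat_lit 26) (.e (nat_lit 426139) (nat_lit 3) (.e (nat_lit 204829) (nat_lit 18) (.e (nat_lit 57688) (nat_lit 156) (.e (nat_lit 171776) (nat_lit 64) .nil))))) (.g (nat_lit 0) (.e (nat_lit 404026) (nat_lit 0) .nil) .nil))) 
(.lf (nat_lit 593750) (.g (nat_lit 4362) (.e (nat_lit 516115) (nat_lit 1) (.e (nat_lit 164325) (nat_lit 230) (.e (nat_lit 163902) (nat_lit 12) (.e (nat_lit 426566) (nat_lit 34) (.e (nat_lit 393291) (nat_lit 26) (.e (nat_lit 475179) (nat_lit 24) .nil)))))) (.g (nat_lit 1) (.e (nat_lit 405524) (nat_lit 0) .nil) .nil))))) (.nd (nat_lit 8) (.nd (nat_lit 9) 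
(.lf (nat_lit 593110) (.g (nat_lit 4441) (.e (nat_lit 532569) (nat_lit 16) (.e (nat_lit 401448) (nat_lit 10) (.e (nat_lit 434244) (nat_lit 28) (.e (nat_lit 573458) (nat_lit 9) (.e (nat_lit 426) (nat_lit 32) (.e (nat_lit 426298) (nat_lit 11) (.e (nat_lit 458789) (nat_lit 23) .nil))))))) (.g (nat_lit 1) (.e (nat_lit 403663) (nat_lit 0) .nil) .nil))) 
(.lf (nat_lit 593622) (.g (nat_lit 3704) (.e (nat_lit 540706) (nat_lit 12) (.e (nat_lit 360475) (nat_lit 8) (.e (nat_lit 557091) (nat_lit 12) (.e (nat_lit 164022) (nat_lit 46) (.e (nat_lit 704738) (nat_lit 11) (.e (nat_lit 16396) (nat_lit 0) (.e (nat_lit 3258) (nat_lit 198) .nil))))))) (.g (nat_lit 1) (.e (nat_lit 404967) (nat_lit 0) .nil) .nil)))) (.nd (nat_lit 9) 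
(.lf (nat_lit 593366) (.g (nat_lit 685) (.e (nat_lit 540705) (nat_lit 12) (.e (nat_lit 360475) (nat_lit 8) (.e (nat_lit 557086) (nat_lit 11) .nil))) (.g (nat_lit 0) (.e (nat_lit 404563) (nat_lit 0) .nil) .nil))) 
(.lf (nat_lit 593878) (.g (nat_lit 2092) (.e (nat_lit 516116) (nat_lit 1) (.e (nat_lit 164399) (nat_lit 256) (.e (nat_lit 57373) (nat_lit 2) (.e (nat_lit 90172) (nat_lit 14) (.e (nat_lit 180244) (nat_lit 5) .nil))))) (.g (nat_lit 0) (.e (nat_lit 405740) (nat_lit 0) .nil) .nil))))))) (.nd (nat_lit 6) (.nd (nat_lit 7) (.nd (nat_lit 8) (.nd (nat_lit 9) 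
(.lf (nat_lit 592950) (.g (nat_lit 1232) (.e (nat_lit 532566) (nat_lit 15) (.e (nat_lit 385065) (nat_lit 26) (.e (nat_lit 532563) (nat_lit 15) (.e (nat_lit 385068) (nat_lit 26) .nil)))) (.g (nat_lit 0) (.e (nat_lit 403312) (nat_lit 0) .nil) .nil))) 
(.lf (nat_lit 593462) (.g (nat_lit 2116) (.e (nat_lit 540706) (nat_lit 12) (.e (nat_lit 360475) (nat_lit 8) (.e (nat_lit 557086) (nat_lit 11) (.e (nat_lit 24664) (nat_lit 14) (.e (nat_lit 409344) (nat_lit 0) (.e (nat_lit 3262) (nat_lit 198) .nil)))))) (.g (nat_lit 1) (.e (nat_lit 404773) (nat_lit 0) .nil) .nil)))) (.nd (nat_lit 9) 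
(.lf (nat_lit 593206) (.g (nat_lit 1693) (.e (nat_lit 532579) (nat_lit 26) (.e (nat_lit 426099) (nat_lit 1) (.e (nat_lit 164398) (nat_lit 256) (.e (nat_lit 57447) (nat_lit 19) (.e (nat_lit 393282) (nat_lit 24) .nil))))) (.g (nat_lit 0) (.e (nat_lit 403852) (nat_lit 0) .nil) .nil))) 
(.lf (nat_lit 593718) (.g (nat_lit 1545) (.e (nat_lit 516115) (nat_lit 1) (.e (nat_lit 164182) (nat_lit 154) (.e (nat_lit 57411) (nat_lit 12) (.e (nat_lit 335878) (nat_lit 0) .nil)))) (.g (nat_lit 0) (.e (nat_lit 405437) (nat_lit 0) .nil) .nil))))) (.nd (nat_lit 8) (.nd (nat_lit 9) 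
(.lf (nat_lit 593078) (.g (nat_lit 2531) (.e (nat_lit 532569) (nat_lit 16) (.e (nat_lit 401448) (nat_lit 10) (.e (nat_lit 434231) (nat_lit 23) (.e (nat_lit 532481) (nat_lit 0) (.e (nat_lit 6696) (nat_lit 357) .nil))))) (.g (nat_lit 0) (.e (nat_lit 403623) (nat_lit 0) .nil) .nil))) 
(.lf (nat_lit 593590) (.g (nat_lit 2899) (.e (nat_lit 540706) (nat_lit 12) (.e (nat_lit 360475) (nat_lit 8) (.e (nat_lit 557091) (nat_lit 12) (.e (nat_lit 164022) (nat_lit 46) (.e (nat_lit 704735) (nat_lit 11) (.e (nat_lit 16390) (nat_lit 0) (.e (nat_lit 3262) (nat_lit 198) .nil))))))) (.g (nat_lit 1) (.e (nat_lit 404935) (nat_lit 0) .nil) .nil)))) (.nd (nat_lit 9) 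
(.lf (nat_lit 593334) (.g (nat_lit 1374) (.e (nat_lit 540704) (nat_lit 12) (.e (nat_lit 360466) (nat_lit 3) (.e (nat_lit 516142) (nat_lit 8) (.e (nat_lit 417829) (nat_lit 18) .nil)))) (.g (nat_lit 0) (.e (nat_lit 404519) (nat_lit 0) .nil) .nil))) 
(.lf (nat_lit 593846) (.g (nat_lit 3217) (.e (nat_lit 516115) (nat_lit 1) (.e (nat_lit 164332) (nat_lit 230) (.e (nat_lit 163905) (nat_lit 12) (.e (nat_lit 426566) (nat_lit 34) (.e (nat_lit 393291) (nat_lit 26) (.e (nat_lit 475177) (nat_lit 24) .nil)))))) (.g (nat_lit 1) (.e (nat_lit 405681) (nat_lit 0) .nil) .nil)))))) (.nd (nat_lit 7) (.nd (nat_lit 8) (.nd (nat_lit 9) 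
(.lf (nat_lit 593014) (.g (nat_lit 1391) (.e (nat_lit 532567) (nat_lit 16) (.e (nat_lit 401454) (nat_lit 12) (.e (nat_lit 475182) (nat_lit 28) .nil))) (.g (nat_lit 0) (.e (nat_lit 403454) (nat_lit 0) .nil) .nil))) 
(.lf (nat_lit 593526) (.g (nat_lit 1866) (.e (nat_lit 540706) (nat_lit 12) (.e (nat_lit 360475) (nat_lit 8) (.e (nat_lit 557090) (nat_lit 12) (.e (nat_lit 164020) (nat_lit 45) (.e (nat_lit 696328) (nat_lit 5) (.e (nat_lit 2968) (nat_lit 185) (.e (nat_lit 434235) (nat_lit 24) .nil))))))) (.g (nat_lit 1) (.e (nat_lit 404854) (nat_lit 0) .nil) .nil)))) (.nd (nat_lit 9) 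
(.lf (nat_lit 593270) (.g (nat_lit 699) (.e (nat_lit 532583) (nat_lit 26) (.e (nat_lit 426107) (nat_lit 1) (.e (nat_lit 164345) (nat_lit 240) .nil))) (.g (nat_lit 0) (.e (nat_lit 404206) (nat_lit 0) .nil) .nil))) 
(.lf (nat_lit 593782) (.g (nat_lit 3199) (.e (nat_lit 516115) (nat_lit 1) (.e (nat_lit 164325) (nat_lit 230) (.e (nat_lit 163907) (nat_lit 12) (.e (nat_lit 426479) (nat_lit 27) (.e (nat_lit 336428) (nat_lit 29) (.e (nat_lit 442374) (nat_lit 0) (.e (nat_lit 1800) (nat_lit 119) .nil))))))) (.g (nat_lit 1) (.e (nat_lit 405561) (nat_lit 0) .nil) .nil))))) (.nd (nat_lit 8) (.nd (nat_lit 9) 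
(.lf (nat_lit 593142) (.g (nat_lit 3236) (.e (nat_lit 532569) (nat_lit 16) (.e (nat_lit 401448) (nat_lit 10) (.e (nat_lit 434248) (nat_lit 28) (.e (nat_lit 573471) (nat_lit 11) (.e (nat_lit 16453) (nat_lit 11) (.e (nat_lit 458789) (nat_lit 23) .nil)))))) (.g (nat_lit 1) (.e (nat_lit 403698) (nat_lit 0) .nil) .nil))) 
(.lf (nat_lit 593654) (.g (nat_lit 286) (.e (nat_lit 516102) (nat_lit 0) (.e (nat_lit 6989) (nat_lit 377) (.e (nat_lit 2810) (nat_lit 180) .nil))) (.g (nat_lit 0) (.e (nat_lit 405286) (nat_lit 0) .nil) .nil)))) (.nd (nat_lit 9) 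
(.lf (nat_lit 593398) (.g (nat_lit 2528) (.e (nat_lit 540706) (nat_lit 12) (.e (nat_lit 360474) (nat_lit 8) (.e (nat_lit 557093) (nat_lit 12) (.e (nat_lit 164022) (nat_lit 46) (.e (nat_lit 704737) (nat_lit 11) (.e (nat_lit 16384) (nat_lit 0) (.e (nat_lit 3259) (nat_lit 198) .nil))))))) (.g (nat_lit 1) (.e (nat_lit 404675) (nat_lit 0) .nil) .nil))) 
(.lf (nat_lit 593910) (.g (nat_lit 2654) (.e (nat_lit 516117) (nat_lit 1) (.e (nat_lit 164329) (nat_lit 230) (.e (nat_lit 163941) (nat_lit 19) (.e (nat_lit 483341) (nat_lit 9) (.e (nat_lit 426199) (nat_lit 9) (.e (nat_lit 426399) (nat_lit 15) (.e (nat_lit 1799) (nat_lit 119) .nil))))))) (.g (nat_lit 1) (.e (nat_lit 405855) (nat_lit 0) .nil) .nil))))))))) 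
(.nd (nat_lit 4) (.nd (nat_lit 5) (.nd (nat_lit 6) (.nd (nat_lit 7) (.nd (nat_lit 8) 
(.nd (nat_lit 9) 
(.lf (nat_lit 592910) (.g (nat_lit 1204) (.e (nat_lit 532564) (nat_lit 15) (.e (nat_lit 385066) (nat_lit 26) (.e (nat_lit 532530) (nat_lit 9) (.e (nat_lit 336324) (nat_lit 18) .nil)))) (.g (nat_lit 0) (.e (nat_lit 403203) (nat_lit 0) .nil) .nil))) 
(.lf (nat_lit 593422) (.g (nat_lit 2616) (.e (nat_lit 540706) (nat_lit 12) (.e (nat_lit 360474) (nat_lit 8) (.e (nat_lit 557093) (nat_lit 12) (.e (nat_lit 164023) (nat_lit 46) (.e (nat_lit 704737) (nat_lit 11) (.e (nat_lit 16395) (nat_lit 0) (.e (nat_lit 3262) (nat_lit 198) .nil))))))) (.g (nat_lit 1) (.e (nat_lit 404699) (nat_lit 0) .nil) .nil)))) (.nd (nat_lit 9) 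
(.lf (nat_lit 593166) (.g (nat_lit 1284) (.e (nat_lit 540416) (nat_lit 18) (.e (nat_lit 164399) (nat_lit 256) (.e (nat_lit 57388) (nat_lit 5) (.e (nat_lit 114714) (nat_lit 22) .nil)))) (.g (nat_lit 0) (.e (nat_lit 403765) (nat_lit 0) .nil) .nil))) 
(.lf (nat_lit 593678) (.g (nat_lit 3420) (.e (nat_lit 516106) (nat_lit 0) (.e (nat_lit 3389) (nat_lit 210) (.e (nat_lit 639020) (nat_lit 16) (.e (nat_lit 65571) (nat_lit 3) (.e (nat_lit 98372) (nat_lit 29) (.e (nat_lit 458496) (nat_lit 3) .nil)))))) (.g (nat_lit 1) (.e (nat_lit 405325) (nat_lit 0) .nil) .nil))))) (.nd (nat_lit 8) (.nd (nat_lit 9) 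
(.lf (nat_lit 593038) (.g (nat_lit 3505) (.e (nat_lit 532568) (nat_lit 16) (.e (nat_lit 401451) (nat_lit 12) (.e (nat_lit 475185) (nat_lit 29) (.e (nat_lit 557098) (nat_lit 13) .nil)))) (.g (nat_lit 0) (.e (nat_lit 403505) (nat_lit 0) .nil) .nil))) 
(.lf (nat_lit 593550) (.g (nat_lit 2681) (.e (nat_lit 540706) (nat_lit 12) (.e (nat_lit 360475) (nat_lit 8) (.e (nat_lit 557090) (nat_lit 12) (.e (nat_lit 164020) (nat_lit 45) (.e (nat_lit 696343) (nat_lit 8) (.e (nat_lit 172032) (nat_lit 0) (.e (nat_lit 3258) (nat_lit 198) .nil))))))) (.g (nat_lit 1) (.e (nat_lit 404878) (nat_lit 0) .nil) .nil)))) (.nd (nat_lit 9) 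
(.lf (nat_lit 593294) (.g (nat_lit 641) (.e (nat_lit 540674) (nat_lit 0) (.e (nat_lit 2270) (nat_lit 149) (.e (nat_lit 761867) (nat_lit 5) (.e (nat_lit 1250) (nat_lit 92) .nil)))) (.g (nat_lit 0) (.e (nat_lit 404443) (nat_lit 0) .nil) .nil))) 
(.lf (nat_lit 593806) (.g (nat_lit 2640) (.e (nat_lit 516115) (nat_lit 1) (.e (nat_lit 164327) (nat_lit 230) (.e (nat_lit 163873) (nat_lit 3) (.e (nat_lit 204838) (nat_lit 20) (.e (nat_lit 114718) (nat_lit 23) .nil))))) (.g (nat_lit 0) (.e (nat_lit 405626) (nat_lit 0) .nil) .nil)))))) (.nd (nat_lit 7) (.nd (nat_lit 8) (.nd (nat_lit 9) 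
(.lf (nat_lit 592974) (.g (nat_lit 991) (.e (nat_lit 532566) (nat_lit 15) (.e (nat_lit 385068) (nat_lit 26) (.e (nat_lit 532529) (nat_lit 9) .nil))) (.g (nat_lit 0) (.e (nat_lit 403340) (nat_lit 0) .nil) .nil))) 
(.lf (nat_lit 593486) (.g (nat_lit 4002) (.e (nat_lit 540706) (nat_lit 12) (.e (nat_lit 360475) (nat_lit 8) (.e (nat_lit 557089) (nat_lit 12) (.e (nat_lit 163843) (nat_lit 0) (.e (nat_lit 6420) (nat_lit 341) (.e (nat_lit 163902) (nat_lit 12) (.e (nat_lit 425985) (nat_lit 0) (.e (nat_lit 3262) (nat_lit 198) .nil)))))))) (.g (nat_lit 1) (.e (nat_lit 404798) (nat_lit 0) .nil) .nil)))) 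
(.nd (nat_lit 9) 
(.lf (nat_lit 593230) (.g (nat_lit 2825) (.e (nat_lit 532579) (nat_lit 26) (.e (nat_lit 426108) (nat_lit 1) (.e (nat_lit 164396) (nat_lit 256) (.e (nat_lit 57407) (nat_lit 12) (.e (nat_lit 336432) (nat_lit 30) .nil))))) (.g (nat_lit 0) (.e (nat_lit 403890) (nat_lit 0) .nil) .nil))) 
(.lf (nat_lit 593742) (.g (nat_lit 4644) (.e (nat_lit 516115) (nat_lit 1) (.e (nat_lit 164325) (nat_lit 230) (.e (nat_lit 163873) (nat_lit 3) (.e (nat_lit 204813) (nat_lit 9) (.e (nat_lit 426138) (nat_lit 3) (.e (nat_lit 204835) (nat_lit 19) (.e (nat_lit 106539) (nat_lit 12) (.e (nat_lit 57466) (nat_lit 23) .nil)))))))) (.g (nat_lit 1) (.e (nat_lit 405513) (nat_lit 0) .nil) .nil))))) 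
(.nd (nat_lit 8) (.nd (nat_lit 9) 
(.lf (nat_lit 593102) (.g (nat_lit 4456) (.e (nat_lit 532569) (nat_lit 16) (.e (nat_lit 401448) (nat_lit 10) (.e (nat_lit 434238) (nat_lit 25) (.e (nat_lit 548898) (nat_lit 14) (.e (nat_lit 3015) (nat_lit 187) (.e (nat_lit 450581) (nat_lit 5) .nil)))))) (.g (nat_lit 1) (.e (nat_lit 403652) (nat_lit 0) .nil) .nil))) 
(.lf (nat_lit 593614) (.g (nat_lit 2837) (.e (nat_lit 540706) (nat_lit 12) (.e (nat_lit 360475) (nat_lit 8) (.e (nat_lit 557091) (nat_lit 12) (.e (nat_lit 164022) (nat_lit 46) (.e (nat_lit 704738) (nat_lit 11) (.e (nat_lit 16385) (nat_lit 0) (.e (nat_lit 3258) (nat_lit 198) .nil))))))) (.g (nat_lit 1) (.e (nat_lit 404959) (nat_lit 0) .nil) .nil)))) (.nd (nat_lit 9) 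
(.lf (nat_lit 593358) (.g (nat_lit 2348) (.e (nat_lit 540704) (nat_lit 12) (.e (nat_lit 360473) (nat_lit 8) (.e (nat_lit 557094) (nat_lit 12) (.e (nat_lit 164022) (nat_lit 46) (.e (nat_lit 704737) (nat_lit 11) (.e (nat_lit 16388) (nat_lit 0) (.e (nat_lit 3257) (nat_lit 198) .nil))))))) (.g (nat_lit 1) (.e (nat_lit 404554) (nat_lit 0) .nil) .nil))) 
(.lf (nat_lit 593870) (.g (nat_lit 947) (.e (nat_lit 516116) (nat_lit 1) (.e (nat_lit 164332) (nat_lit 230) (.e (nat_lit 163905) (nat_lit 12) (.e (nat_lit 426566) (nat_lit 34) .nil)))) (.g (nat_lit 0) (.e (nat_lit 405729) (nat_lit 0) .nil) .nil))))))) (.nd (nat_lit 6) (.nd (nat_lit 7) (.nd (nat_lit 8) (.nd (nat_lit 9) 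
(.lf (nat_lit 592942) (.g (nat_lit 3877) (.e (nat_lit 532565) (nat_lit 15) (.e (nat_lit 385068) (nat_lit 26) (.e (nat_lit 532535) (nat_lit 9) (.e (nat_lit 336295) (nat_lit 15) .nil)))) (.g (nat_lit 0) (.e (nat_lit 403296) (nat_lit 0) .nil) .nil))) 
(.lf (nat_lit 593454) (.g (nat_lit 1015) (.e (nat_lit 540706) (nat_lit 12) (.e (nat_lit 360475) (nat_lit 8) (.e (nat_lit 557086) (nat_lit 11) (.e (nat_lit 24621) (nat_lit 8) .nil)))) (.g (nat_lit 0) (.e (nat_lit 404765) (nat_lit 0) .nil) .nil)))) (.nd (nat_lit 9) 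
(.lf (nat_lit 593198) (.g (nat_lit 2067) (.e (nat_lit 532579) (nat_lit 26) (.e (nat_lit 426098) (nat_lit 1) (.e (nat_lit 164398) (nat_lit 256) (.e (nat_lit 57406) (nat_lit 12) (.e (nat_lit 336432) (nat_lit 30) .nil))))) (.g (nat_lit 0) (.e (nat_lit 403844) (nat_lit 0) .nil) .nil))) 
(.lf (nat_lit 593710) (.g (nat_lit 3546) (.e (nat_lit 516115) (nat_lit 1) (.e (nat_lit 164179) (nat_lit 154) (.e (nat_lit 57372) (nat_lit 2) (.e (nat_lit 90128) (nat_lit 9) (.e (nat_lit 2706) (nat_lit 170) (.e (nat_lit 221214) (nat_lit 23) (.e (nat_lit 204863) (nat_lit 27) (.e (nat_lit 344120) (nat_lit 21) .nil)))))))) (.g (nat_lit 1) (.e (nat_lit 405410) (nat_lit 0) .nil) .nil))))) 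
(.nd (nat_lit 8) (.nd (nat_lit 9) 
(.lf (nat_lit 593070) (.g (nat_lit 985) (.e (nat_lit 532569) (nat_lit 16) (.e (nat_lit 401448) (nat_lit 10) (.e (nat_lit 434223) (nat_lit 19) .nil))) (.g (nat_lit 0) (.e (nat_lit 403614) (nat_lit 0) .nil) .nil))) 
(.lf (nat_lit 593582) (.g (nat_lit 4241) (.e (nat_lit 540706) (nat_lit 12) (.e (nat_lit 360475) (nat_lit 8) (.e (nat_lit 557091) (nat_lit 12) (.e (nat_lit 164017) (nat_lit 44) (.e (nat_lit 688138) (nat_lit 5) (.e (nat_lit 2887) (nat_lit 184) (.e (nat_lit 426032) (nat_lit 0) (.e (nat_lit 3262) (nat_lit 198) .nil)))))))) (.g (nat_lit 1) (.e (nat_lit 404921) (nat_lit 0) .nil) .nil)))) 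
(.nd (nat_lit 9) 
(.lf (nat_lit 593326) (.g (nat_lit 3285) (.e (nat_lit 540704) (nat_lit 12) (.e (nat_lit 360466) (nat_lit 3) (.e (nat_lit 516138) (nat_lit 7) (.e (nat_lit 409646) (nat_lit 18) (.e (nat_lit 303112) (nat_lit 0) (.e (nat_lit 3258) (nat_lit 198) .nil)))))) (.g (nat_lit 1) (.e (nat_lit 404511) (nat_lit 0) .nil) .nil))) 
(.lf (nat_lit 593838) (.g (nat_lit 3795) (.e (nat_lit 516115) (nat_lit 1) (.e (nat_lit 164332) (nat_lit 230) (.e (nat_lit 163902) (nat_lit 12) (.e (nat_lit 426566) (nat_lit 34) (.e (nat_lit 393294) (nat_lit 26) (.e (nat_lit 475177) (nat_lit 24) .nil)))))) (.g (nat_lit 1) (.e (nat_lit 405673) (nat_lit 0) .nil) .nil)))))) (.nd (nat_lit 7) (.nd (nat_lit 8) (.nd (nat_lit 9) 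
(.lf (nat_lit 593006) (.g (nat_lit 3912) (.e (nat_lit 532567) (nat_lit 16) (.e (nat_lit 401451) (nat_lit 12) (.e (nat_lit 475185) (nat_lit 29) (.e (nat_lit 557097) (nat_lit 13) .nil)))) (.g (nat_lit 0) (.e (nat_lit 403438) (nat_lit 0) .nil) .nil))) 
(.lf (nat_lit 593518) (.g (nat_lit 2042) (.e (nat_lit 540706) (nat_lit 12) (.e (nat_lit 360475) (nat_lit 8) (.e (nat_lit 557090) (nat_lit 12) (.e (nat_lit 164020) (nat_lit 45) (.e (nat_lit 696327) (nat_lit 5) (.e (nat_lit 2974) (nat_lit 185) (.e (nat_lit 434235) (nat_lit 24) .nil))))))) (.g (nat_lit 1) (.e (nat_lit 404845) (nat_lit 0) .nil) .nil)))) (.nd (nat_lit 9) 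
(.lf (nat_lit 593262) (.g (nat_lit 1423) (.e (nat_lit 532583) (nat_lit 26) (.e (nat_lit 426098) (nat_lit 1) (.e (nat_lit 164398) (nat_lit 256) (.e (nat_lit 57409) (nat_lit 12) .nil)))) (.g (nat_lit 0) (.e (nat_lit 404198) (nat_lit 0) .nil) .nil))) 
(.lf (nat_lit 593774) (.g (nat_lit 4004) (.e (nat_lit 516115) (nat_lit 1) (.e (nat_lit 164325) (nat_lit 230) (.e (nat_lit 163904) (nat_lit 12) (.e (nat_lit 426566) (nat_lit 34) (.e (nat_lit 393273) (nat_lit 23) (.e (nat_lit 426364) (nat_lit 15) (.e (nat_lit 1802) (nat_lit 119) .nil))))))) (.g (nat_lit 1) (.e (nat_lit 405550) (nat_lit 0) .nil) .nil))))) (.nd (nat_lit 8) (.nd (nat_lit 9) 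
(.lf (nat_lit 593134) (.g (nat_lit 3636) (.e (nat_lit 532569) (nat_lit 16) (.e (nat_lit 401448) (nat_lit 10) (.e (nat_lit 434247) (nat_lit 28) (.e (nat_lit 573469) (nat_lit 11) (.e (nat_lit 16451) (nat_lit 11) (.e (nat_lit 458789) (nat_lit 23) .nil)))))) (.g (nat_lit 1) (.e (nat_lit 403688) (nat_lit 0) .nil) .nil))) 
(.lf (nat_lit 593646) (.g (nat_lit 3042) (.e (nat_lit 516098) (nat_lit 0) (.e (nat_lit 7593) (nat_lit 407) (.e (nat_lit 73746) (nat_lit 3) (.e (nat_lit 516098) (nat_lit 0) (.e (nat_lit 7593) (nat_lit 407) (.e (nat_lit 73746) (nat_lit 3) .nil)))))) (.g (nat_lit 1) (.e (nat_lit 405259) (nat_lit 0) .nil) .nil)))) (.nd (nat_lit 9) 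
(.lf (nat_lit 593390) (.g (nat_lit 2013) (.e (nat_lit 540706) (nat_lit 12) (.e (nat_lit 360474) (nat_lit 8) (.e (nat_lit 557093) (nat_lit 12) (.e (nat_lit 164022) (nat_lit 46) (.e (nat_lit 704735) (nat_lit 11) (.e (nat_lit 16395) (nat_lit 0) (.e (nat_lit 3262) (nat_lit 198) .nil))))))) (.g (nat_lit 1) (.e (nat_lit 404667) (nat_lit 0) .nil) .nil))) 
(.lf (nat_lit 593902) (.g (nat_lit 1712) (.e (nat_lit 516117) (nat_lit 1) (.e (nat_lit 164329) (nat_lit 230) (.e (nat_lit 163902) (nat_lit 12) (.e (nat_lit 426568) (nat_lit 34) (.e (nat_lit 401152) (nat_lit 26) (.e (nat_lit 475178) (nat_lit 24) .nil)))))) (.g (nat_lit 1) (.e (nat_lit 405835) (nat_lit 0) .nil) .nil)))))))) 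
(.nd (nat_lit 5) (.nd (nat_lit 6) (.nd (nat_lit 7) (.nd (nat_lit 8) (.nd (nat_lit 9) 
(.lf (nat_lit 592926) (.g (nat_lit 2820) (.e (nat_lit 532564) (nat_lit 15) (.e (nat_lit 385107) (nat_lit 51) (.e (nat_lit 794666) (nat_lit 22) (.e (nat_lit 196656) (nat_lit 11) (.e (nat_lit 16448) (nat_lit 10) (.e (nat_lit 434231) (nat_lit 23) .nil)))))) (.g (nat_lit 1) (.e (nat_lit 403238) (nat_lit 0) .nil) .nil))) 
(.lf (nat_lit 593438) (.g (nat_lit 1937) (.e (nat_lit 540706) (nat_lit 12) (.e (nat_lit 360474) (nat_lit 8) (.e (nat_lit 557094) (nat_lit 12) (.e (nat_lit 164022) (nat_lit 46) (.e (nat_lit 704737) (nat_lit 11) (.e (nat_lit 16385) (nat_lit 0) (.e (nat_lit 3260) (nat_lit 198) .nil))))))) (.g (nat_lit 1) (.e (nat_lit 404718) (nat_lit 0) .nil) .nil)))) (.nd (nat_lit 9) 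
(.lf (nat_lit 593182) (.g (nat_lit 2308) (.e (nat_lit 532578) (nat_lit 26) (.e (nat_lit 426100) (nat_lit 1) (.e (nat_lit 164399) (nat_lit 256) (.e (nat_lit 57445) (nat_lit 19) (.e (nat_lit 393283) (nat_lit 24) .nil))))) (.g (nat_lit 0) (.e (nat_lit 403807) (nat_lit 0) .nil) .nil))) 
(.lf (nat_lit 593694) (.g (nat_lit 3906) (.e (nat_lit 516106) (nat_lit 0) (.e (nat_lit 7095) (nat_lit 380) (.e (nat_lit 164340) (nat_lit 232) (.e (nat_lit 77) (nat_lit 0) (.e (nat_lit 3308) (nat_lit 202) (.e (nat_lit 573482) (nat_lit 13) (.e (nat_lit 65619) (nat_lit 10) (.e (nat_lit 344117) (nat_lit 21) .nil)))))))) (.g (nat_lit 1) (.e (nat_lit 405374) (nat_lit 0) .nil) .nil))))) 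
(.nd (nat_lit 8) (.nd (nat_lit 9) 
(.lf (nat_lit 593054) (.g (nat_lit 2452) (.e (nat_lit 532569) (nat_lit 16) (.e (nat_lit 401434) (nat_lit 9) (.e (nat_lit 426125) (nat_lit 2) (.e (nat_lit 196661) (nat_lit 12) (.e (nat_lit 57722) (nat_lit 178) .nil))))) (.g (nat_lit 0) (.e (nat_lit 403543) (nat_lit 0) .nil) .nil))) 
(.lf (nat_lit 593566) (.g (nat_lit 2391) (.e (nat_lit 540706) (nat_lit 12) (.e (nat_lit 360475) (nat_lit 8) (.e (nat_lit 557090) (nat_lit 12) (.e (nat_lit 164022) (nat_lit 46) .nil)))) (.g (nat_lit 0) (.e (nat_lit 404895) (nat_lit 0) .nil) .nil)))) (.nd (nat_lit 9) 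
(.lf (nat_lit 593310) (.g (nat_lit 1296) (.e (nat_lit 540703) (nat_lit 11) (.e (nat_lit 352315) (nat_lit 23) (.e (nat_lit 98349) (nat_lit 24) (.e (nat_lit 409644) (nat_lit 18) .nil)))) (.g (nat_lit 0) (.e (nat_lit 404482) (nat_lit 0) .nil) .nil))) 
(.lf (nat_lit 593822) (.g (nat_lit 2139) (.e (nat_lit 516115) (nat_lit 1) (.e (nat_lit 164327) (nat_lit 230) (.e (nat_lit 163903) (nat_lit 12) (.e (nat_lit 426564) (nat_lit 34) (.e (nat_lit 393294) (nat_lit 26) .nil))))) (.g (nat_lit 0) (.e (nat_lit 405643) (nat_lit 0) .nil) .nil)))))) (.nd (nat_lit 7) (.nd (nat_lit 8) (.nd (nat_lit 9) 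
(.lf (nat_lit 592990) (.g (nat_lit 4229) (.e (nat_lit 532566) (nat_lit 15) (.e (nat_lit 385094) (nat_lit 49) (.e (nat_lit 778317) (nat_lit 3) (.e (nat_lit 57476) (nat_lit 28) (.e (nat_lit 557067) (nat_lit 9) (.e (nat_lit 3022) (nat_lit 187) (.e (nat_lit 450578) (nat_lit 5) .nil))))))) (.g (nat_lit 1) (.e (nat_lit 403371) (nat_lit 0) .nil) .nil))) 
(.lf (nat_lit 593502) (.g (nat_lit 2126) (.e (nat_lit 540706) (nat_lit 12) (.e (nat_lit 360475) (nat_lit 8) (.e (nat_lit 557090) (nat_lit 12) (.e (nat_lit 163844) (nat_lit 0) .nil)))) (.g (nat_lit 0) (.e (nat_lit 404823) (nat_lit 0) .nil) .nil)))) (.nd (nat_lit 9) 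
(.lf (nat_lit 593246) (.g (nat_lit 2395) (.e (nat_lit 532579) (nat_lit 26) (.e (nat_lit 426316) (nat_lit 12) (.e (nat_lit 475185) (nat_lit 29) (.e (nat_lit 557098) (nat_lit 13) (.e (nat_lit 179968) (nat_lit 23) (.e (nat_lit 147503) (nat_lit 12) (.e (nat_lit 163965) (nat_lit 25) .nil))))))) (.g (nat_lit 1) (.e (nat_lit 404104) (nat_lit 0) .nil) .nil))) 
(.lf (nat_lit 593758) (.g (nat_lit 2451) (.e (nat_lit 516115) (nat_lit 1) (.e (nat_lit 164325) (nat_lit 230) (.e (nat_lit 163903) (nat_lit 12) (.e (nat_lit 426480) (nat_lit 27) .nil)))) (.g (nat_lit 0) (.e (nat_lit 405532) (nat_lit 0) .nil) .nil))))) (.nd (nat_lit 8) (.nd (nat_lit 9) 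
(.lf (nat_lit 593118) (.g (nat_lit 2674) (.e (nat_lit 532569) (nat_lit 16) (.e (nat_lit 401448) (nat_lit 10) (.e (nat_lit 434244) (nat_lit 28) (.e (nat_lit 573471) (nat_lit 11) (.e (nat_lit 16453) (nat_lit 11) .nil))))) (.g (nat_lit 0) (.e (nat_lit 403671) (nat_lit 0) .nil) .nil))) 
(.lf (nat_lit 593630) (.g (nat_lit 1716) (.e (nat_lit 540724) (nat_lit 28) (.e (nat_lit 442434) (nat_lit 26) (.e (nat_lit 254007) (nat_lit 14) (.e (nat_lit 1359) (nat_lit 102) (.e (nat_lit 286756) (nat_lit 10) .nil))))) (.g (nat_lit 0) (.e (nat_lit 405173) (nat_lit 0) .nil) .nil)))) (.nd (nat_lit 9) 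
(.lf (nat_lit 593374) (.g (nat_lit 1713) (.e (nat_lit 540706) (nat_lit 12) (.e (nat_lit 360473) (nat_lit 8) (.e (nat_lit 557087) (nat_lit 11) (.e (nat_lit 24617) (nat_lit 7) .nil)))) (.g (nat_lit 0) (.e (nat_lit 404640) (nat_lit 0) .nil) .nil))) 
(.lf (nat_lit 593886) (.g (nat_lit 1232) (.e (nat_lit 516117) (nat_lit 1) (.e (nat_lit 164305) (nat_lit 226) (.e (nat_lit 2630) (nat_lit 164) (.e (nat_lit 172135) (nat_lit 15) .nil)))) (.g (nat_lit 0) (.e (nat_lit 405806) (nat_lit 0) .nil) .nil))))))) (.nd (nat_lit 6) (.nd (nat_lit 7) (.nd (nat_lit 8) (.nd (nat_lit 9) 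
(.lf (nat_lit 592958) (.g (nat_lit 2760) (.e (nat_lit 532566) (nat_lit 15) (.e (nat_lit 385066) (nat_lit 26) (.e (nat_lit 532532) (nat_lit 9) (.e (nat_lit 336324) (nat_lit 18) (.e (nat_lit 204882) (nat_lit 32) (.e (nat_lit 385066) (nat_lit 26) .nil)))))) (.g (nat_lit 1) (.e (nat_lit 403321) (nat_lit 0) .nil) .nil))) 
(.lf (nat_lit 593470) (.g (nat_lit 3262) (.e (nat_lit 540706) (nat_lit 12) (.e (nat_lit 360475) (nat_lit 8) (.e (nat_lit 557087) (nat_lit 11) (.e (nat_lit 24617) (nat_lit 7) (.e (nat_lit 319500) (nat_lit 10) (.e (nat_lit 606) (nat_lit 46) .nil)))))) (.g (nat_lit 1) (.e (nat_lit 404782) (nat_lit 0) .nil) .nil)))) (.nd (nat_lit 9) 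
(.lf (nat_lit 593214) (.g (nat_lit 1641) (.e (nat_lit 532579) (nat_lit 26) (.e (nat_lit 426100) (nat_lit 1) (.e (nat_lit 164403) (nat_lit 256) (.e (nat_lit 57406) (nat_lit 12) .nil)))) (.g (nat_lit 0) (.e (nat_lit 403862) (nat_lit 0) .nil) .nil))) 
(.lf (nat_lit 593726) (.g (nat_lit 4019) (.e (nat_lit 516115) (nat_lit 1) (.e (nat_lit 164325) (nat_lit 230) (.e (nat_lit 163864) (nat_lit 1) (.e (nat_lit 164329) (nat_lit 230) (.e (nat_lit 163843) (nat_lit 0) (.e (nat_lit 3222) (nat_lit 196) (.e (nat_lit 524320) (nat_lit 12) (.e (nat_lit 458496) (nat_lit 3) .nil)))))))) (.g (nat_lit 1) (.e (nat_lit 405481) (nat_lit 0) .nil) .nil))))) 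
(.nd (nat_lit 8) (.nd (nat_lit 9) 
(.lf (nat_lit 593086) (.g (nat_lit 3335) (.e (nat_lit 532569) (nat_lit 16) (.e (nat_lit 401448) (nat_lit 10) (.e (nat_lit 434231) (nat_lit 23) (.e (nat_lit 532490) (nat_lit 0) (.e (nat_lit 7936) (nat_lit 364) (.e (nat_lit 237578) (nat_lit 0) (.e (nat_lit 3249) (nat_lit 197) .nil))))))) (.g (nat_lit 1) (.e (nat_lit 403631) (nat_lit 0) .nil) .nil))) 
(.lf (nat_lit 593598) (.g (nat_lit 3048) (.e (nat_lit 540706) (nat_lit 12) (.e (nat_lit 360475) (nat_lit 8) (.e (nat_lit 557091) (nat_lit 12) (.e (nat_lit 164022) (nat_lit 46) (.e (nat_lit 704736) (nat_lit 11) (.e (nat_lit 16395) (nat_lit 0) (.e (nat_lit 3262) (nat_lit 198) .nil))))))) (.g (nat_lit 1) (.e (nat_lit 404943) (nat_lit 0) .nil) .nil)))) (.nd (nat_lit 9) 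
(.lf (nat_lit 593342) (.g (nat_lit 1812) (.e (nat_lit 540704) (nat_lit 12) (.e (nat_lit 360471) (nat_lit 7) (.e (nat_lit 548889) (nat_lit 9) (.e (nat_lit 65629) (nat_lit 14) .nil)))) (.g (nat_lit 0) (.e (nat_lit 404538) (nat_lit 0) .nil) .nil))) 
(.lf (nat_lit 593854) (.g (nat_lit 2199) (.e (nat_lit 516115) (nat_lit 1) (.e (nat_lit 164403) (nat_lit 256) (.e (nat_lit 57378) (nat_lit 3) (.e (nat_lit 98357) (nat_lit 26) .nil)))) (.g (nat_lit 0) (.e (nat_lit 405695) (nat_lit 0) .nil) .nil)))))) (.nd (nat_lit 7) (.nd (nat_lit 8) (.nd (nat_lit 9) 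
(.lf (nat_lit 593022) (.g (nat_lit 1860) (.e (nat_lit 532567) (nat_lit 16) (.e (nat_lit 401459) (nat_lit 13) (.e (nat_lit 483354) (nat_lit 17) (.e (nat_lit 2346) (nat_lit 151) (.e (nat_lit 778482) (nat_lit 12) .nil))))) (.g (nat_lit 0) (.e (nat_lit 403466) (nat_lit 0) .nil) .nil))) 
(.lf (nat_lit 593534) (.g (nat_lit 2342) (.e (nat_lit 540706) (nat_lit 12) (.e (nat_lit 360475) (nat_lit 8) (.e (nat_lit 557090) (nat_lit 12) (.e (nat_lit 164020) (nat_lit 45) (.e (nat_lit 696330) (nat_lit 5) (.e (nat_lit 2874) (nat_lit 184) (.e (nat_lit 426032) (nat_lit 0) (.e (nat_lit 3262) (nat_lit 198) .nil)))))))) (.g (nat_lit 1) (.e (nat_lit 404862) (nat_lit 0) .nil) .nil)))) 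
(.nd (nat_lit 9) 
(.lf (nat_lit 593278) (.g (nat_lit 2073) (.e (nat_lit 532583) (nat_lit 26) (.e (nat_lit 426198) (nat_lit 9) (.e (nat_lit 426562) (nat_lit 33) (.e (nat_lit 385041) (nat_lit 19) (.e (nat_lit 164292) (nat_lit 224) (.e (nat_lit 164096) (nat_lit 86) .nil)))))) (.g (nat_lit 1) (.e (nat_lit 404242) (nat_lit 0) .nil) .nil))) 
(.lf (nat_lit 593790) (.g (nat_lit 2825) (.e (nat_lit 516115) (nat_lit 1) (.e (nat_lit 164325) (nat_lit 230) (.e (nat_lit 163907) (nat_lit 12) (.e (nat_lit 426566) (nat_lit 34) (.e (nat_lit 393292) (nat_lit 26) (.e (nat_lit 475179) (nat_lit 24) .nil)))))) (.g (nat_lit 1) (.e (nat_lit 405570) (nat_lit 0) .nil) .nil))))) (.nd (nat_lit 8) (.nd (nat_lit 9) 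
(.lf (nat_lit 593150) (.g (nat_lit 2553) (.e (nat_lit 532569) (nat_lit 16) (.e (nat_lit 401451) (nat_lit 12) (.e (nat_lit 475185) (nat_lit 29) (.e (nat_lit 557098) (nat_lit 13) (.e (nat_lit 172105) (nat_lit 10) .nil))))) (.g (nat_lit 0) (.e (nat_lit 403721) (nat_lit 0) .nil) .nil))) 
(.lf (nat_lit 593662) (.g (nat_lit 3103) (.e (nat_lit 516102) (nat_lit 0) (.e (nat_lit 6989) (nat_lit 377) (.e (nat_lit 2777) (nat_lit 178) (.e (nat_lit 286733) (nat_lit 2) (.e (nat_lit 90133) (nat_lit 9) (.e (nat_lit 2400) (nat_lit 157) (.e (nat_lit 7590) (nat_lit 407) (.e (nat_lit 73748) (nat_lit 3) .nil)))))))) (.g (nat_lit 1) (.e (nat_lit 405296) (nat_lit 0) .nil) .nil)))) (.nd (nat_lit 9) 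
(.lf (nat_lit 593406) (.g (nat_lit 2157) (.e (nat_lit 540706) (nat_lit 12) (.e (nat_lit 360474) (nat_lit 8) (.e (nat_lit 557093) (nat_lit 12) (.e (nat_lit 164022) (nat_lit 46) (.e (nat_lit 704738) (nat_lit 11) (.e (nat_lit 16384) (nat_lit 0) (.e (nat_lit 3258) (nat_lit 198) .nil))))))) (.g (nat_lit 1) (.e (nat_lit 404683) (nat_lit 0) .nil) .nil))) 
(.lf (nat_lit 593918) (.g (nat_lit 2344) (.e (nat_lit 516117) (nat_lit 1) (.e (nat_lit 164330) (nat_lit 230) (.e (nat_lit 163902) (nat_lit 12) (.e (nat_lit 426530) (nat_lit 27) (.e (nat_lit 336390) (nat_lit 27) .nil))))) (.g (nat_lit 0) (.e (nat_lit 405865) (nat_lit 0) .nil) .nil)))))))))))) 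
(.nd (nat_lit 1) (.nd (nat_lit 2) (.nd (nat_lit 3) (.nd (nat_lit 4) (.nd (nat_lit 5) 
(.nd (nat_lit 6) (.nd (nat_lit 7) (.nd (nat_lit 8) (.nd (nat_lit 9) 
(.lf (nat_lit 592897) (.g (nat_lit 1067) (.e (nat_lit 532563) (nat_lit 15) (.e (nat_lit 385068) (nat_lit 26) (.e (nat_lit 532543) (nat_lit 10) .nil))) (.g (nat_lit 0) (.e (nat_lit 403125) (nat_lit 0) .nil) .nil))) 
(.lf (nat_lit 593409) (.g (nat_lit 3260) (.e (nat_lit 540706) (nat_lit 12) (.e (nat_lit 360474) (nat_lit 8) (.e (nat_lit 557093) (nat_lit 12) (.e (nat_lit 164022) (nat_lit 46) (.e (nat_lit 704738) (nat_lit 11) (.e (nat_lit 16385) (nat_lit 0) (.e (nat_lit 3259) (nat_lit 198) .nil))))))) (.g (nat_lit 1) (.e (nat_lit 404686) (nat_lit 0) .nil) .nil)))) (.nd (nat_lit 9) 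
(.lf (nat_lit 593153) (.g (nat_lit 2221) (.e (nat_lit 532569) (nat_lit 16) (.e (nat_lit 401451) (nat_lit 12) (.e (nat_lit 475185) (nat_lit 29) (.e (nat_lit 557109) (nat_lit 15) .nil)))) (.g (nat_lit 0) (.e (nat_lit 403726) (nat_lit 0) .nil) .nil))) 
(.lf (nat_lit 593665) (.g (nat_lit 3468) (.e (nat_lit 516102) (nat_lit 0) (.e (nat_lit 6989) (nat_lit 377) (.e (nat_lit 2777) (nat_lit 178) (.e (nat_lit 286735) (nat_lit 3) (.e (nat_lit 98319) (nat_lit 17) (.e (nat_lit 7593) (nat_lit 407) (.e (nat_lit 73746) (nat_lit 3) .nil))))))) (.g (nat_lit 1) (.e (nat_lit 405299) (nat_lit 0) .nil) .nil))))) (.nd (nat_lit 8) (.nd (nat_lit 9) 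
(.lf (nat_lit 593025) (.g (nat_lit 2187) (.e (nat_lit 532568) (nat_lit 16) (.e (nat_lit 401434) (nat_lit 9) (.e (nat_lit 426140) (nat_lit 3) (.e (nat_lit 204815) (nat_lit 17) (.e (nat_lit 6724) (nat_lit 362) .nil))))) (.g (nat_lit 0) (.e (nat_lit 403470) (nat_lit 0) .nil) .nil))) 
(.lf (nat_lit 593537) (.g (nat_lit 2165) (.e (nat_lit 540706) (nat_lit 12) (.e (nat_lit 360475) (nat_lit 8) (.e (nat_lit 557090) (nat_lit 12) (.e (nat_lit 164020) (nat_lit 45) (.e (nat_lit 696330) (nat_lit 5) (.e (nat_lit 2884) (nat_lit 184) (.e (nat_lit 426032) (nat_lit 0) (.e (nat_lit 3262) (nat_lit 198) .nil)))))))) (.g (nat_lit 1) (.e (nat_lit 404865) (nat_lit 0) .nil) .nil)))) 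
(.nd (nat_lit 9) 
(.lf (nat_lit 593281) (.g (nat_lit 597) (.e (nat_lit 540416) (nat_lit 26) (.e (nat_lit 426100) (nat_lit 1) (.e (nat_lit 164399) (nat_lit 256) .nil))) (.g (nat_lit 0) (.e (nat_lit 404293) (nat_lit 0) .nil) .nil))) 
(.lf (nat_lit 593793) (.g (nat_lit 2070) (.e (nat_lit 516115) (nat_lit 1) (.e (nat_lit 164325) (nat_lit 230) (.e (nat_lit 163907) (nat_lit 12) (.e (nat_lit 426568) (nat_lit 34) (.e (nat_lit 393295) (nat_lit 26) .nil))))) (.g (nat_lit 0) (.e (nat_lit 405573) (nat_lit 0) .nil) .nil)))))) (.nd (nat_lit 7) (.nd (nat_lit 8) (.nd (nat_lit 9) 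
(.lf (nat_lit 592961) (.g (nat_lit 2975) (.e (nat_lit 532566) (nat_lit 15) (.e (nat_lit 385066) (nat_lit 26) (.e (nat_lit 532534) (nat_lit 9) (.e (nat_lit 336324) (nat_lit 18) (.e (nat_lit 204880) (nat_lit 32) (.e (nat_lit 385066) (nat_lit 26) .nil)))))) (.g (nat_lit 1) (.e (nat_lit 403324) (nat_lit 0) .nil) .nil))) 
(.lf (nat_lit 593473) (.g (nat_lit 4428) (.e (nat_lit 540706) (nat_lit 12) (.e (nat_lit 360475) (nat_lit 8) (.e (nat_lit 557087) (nat_lit 11) (.e (nat_lit 24617) (nat_lit 7) (.e (nat_lit 319505) (nat_lit 10) (.e (nat_lit 606) (nat_lit 46) .nil)))))) (.g (nat_lit 1) (.e (nat_lit 404785) (nat_lit 0) .nil) .nil)))) (.nd (nat_lit 9) 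
(.lf (nat_lit 593217) (.g (nat_lit 1519) (.e (nat_lit 532579) (nat_lit 26) (.e (nat_lit 426100) (nat_lit 1) (.e (nat_lit 164403) (nat_lit 256) (.e (nat_lit 57409) (nat_lit 12) .nil)))) (.g (nat_lit 0) (.e (nat_lit 403865) (nat_lit 0) .nil) .nil))) 
(.lf (nat_lit 593729) (.g (nat_lit 3452) (.e (nat_lit 516115) (nat_lit 1) (.e (nat_lit 164325) (nat_lit 230) (.e (nat_lit 163864) (nat_lit 1) (.e (nat_lit 164332) (nat_lit 230) (.e (nat_lit 163847) (nat_lit 0) (.e (nat_lit 3223) (nat_lit 196) (.e (nat_lit 524320) (nat_lit 12) (.e (nat_lit 458496) (nat_lit 3) .nil)))))))) (.g (nat_lit 1) (.e (nat_lit 405484) (nat_lit 0) .nil) .nil))))) 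
(.nd (nat_lit 8) (.nd (nat_lit 9) 
(.lf (nat_lit 593089) (.g (nat_lit 2468) (.e (nat_lit 532569) (nat_lit 16) (.e (nat_lit 401448) (nat_lit 10) (.e (nat_lit 434231) (nat_lit 23) (.e (nat_lit 532569) (nat_lit 16) (.e (nat_lit 401440) (nat_lit 9) .nil))))) (.g (nat_lit 0) (.e (nat_lit 403635) (nat_lit 0) .nil) .nil))) 
(.lf (nat_lit 593601) (.g (nat_lit 3632) (.e (nat_lit 540706) (nat_lit 12) (.e (nat_lit 360475) (nat_lit 8) (.e (nat_lit 557091) (nat_lit 12) (.e (nat_lit 164022) (nat_lit 46) (.e (nat_lit 704737) (nat_lit 11) (.e (nat_lit 16384) (nat_lit 0) (.e (nat_lit 3262) (nat_lit 198) .nil))))))) (.g (nat_lit 1) (.e (nat_lit 404946) (nat_lit 0) .nil) .nil)))) (.nd (nat_lit 9) 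
(.lf (nat_lit 593345) (.g (nat_lit 2644) (.e (nat_lit 540704) (nat_lit 12) (.e (nat_lit 360473) (nat_lit 8) (.e (nat_lit 557087) (nat_lit 11) (.e (nat_lit 24617) (nat_lit 7) (.e (nat_lit 319500) (nat_lit 10) .nil))))) (.g (nat_lit 0) (.e (nat_lit 404541) (nat_lit 0) .nil) .nil))) 
(.lf (nat_lit 593857) (.g (nat_lit 1294) (.e (nat_lit 516116) (nat_lit 1) (.e (nat_lit 164329) (nat_lit 230) (.e (nat_lit 163843) (nat_lit 0) (.e (nat_lit 3300) (nat_lit 202) .nil)))) (.g (nat_lit 0) (.e (nat_lit 405701) (nat_lit 0) .nil) .nil))))))) (.nd (nat_lit 6) (.nd (nat_lit 7) (.nd (nat_lit 8) (.nd (nat_lit 9) 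
(.lf (nat_lit 592929) (.g (nat_lit 2985) (.e (nat_lit 532565) (nat_lit 15) (.e (nat_lit 385065) (nat_lit 26) (.e (nat_lit 532530) (nat_lit 9) (.e (nat_lit 336326) (nat_lit 18) (.e (nat_lit 204880) (nat_lit 32) (.e (nat_lit 385066) (nat_lit 26) .nil)))))) (.g (nat_lit 1) (.e (nat_lit 403283) (nat_lit 0) .nil) .nil))) 
(.lf (nat_lit 593441) (.g (nat_lit 2872) (.e (nat_lit 540706) (nat_lit 12) (.e (nat_lit 360474) (nat_lit 8) (.e (nat_lit 557094) (nat_lit 12) (.e (nat_lit 164022) (nat_lit 46) (.e (nat_lit 704737) (nat_lit 11) (.e (nat_lit 16394) (nat_lit 0) (.e (nat_lit 3262) (nat_lit 198) .nil))))))) (.g (nat_lit 1) (.e (nat_lit 404721) (nat_lit 0) .nil) .nil)))) (.nd (nat_lit 9) 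
(.lf (nat_lit 593185) (.g (nat_lit 2754) (.e (nat_lit 532578) (nat_lit 26) (.e (nat_lit 426100) (nat_lit 1) (.e (nat_lit 164403) (nat_lit 256) (.e (nat_lit 57409) (nat_lit 12) (.e (nat_lit 336434) (nat_lit 30) .nil))))) (.g (nat_lit 0) (.e (nat_lit 403810) (nat_lit 0) .nil) .nil))) 
(.lf (nat_lit 593697) (.g (nat_lit 4045) (.e (nat_lit 516106) (nat_lit 0) (.e (nat_lit 7112) (nat_lit 381) (.e (nat_lit 229646) (nat_lit 232) (.e (nat_lit 78) (nat_lit 0) (.e (nat_lit 3307) (nat_lit 202) (.e (nat_lit 573485) (nat_lit 13) (.e (nat_lit 65619) (nat_lit 10) (.e (nat_lit 344117) (nat_lit 21) .nil)))))))) (.g (nat_lit 1) (.e (nat_lit 405377) (nat_lit 0) .nil) .nil))))) 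
(.nd (nat_lit 8) (.nd (nat_lit 9) 
(.lf (nat_lit 593057) (.g (nat_lit 2876) (.e (nat_lit 532569) (nat_lit 16) (.e (nat_lit 401434) (nat_lit 9) (.e (nat_lit 426125) (nat_lit 2) (.e (nat_lit 196661) (nat_lit 12) (.e (nat_lit 57748) (nat_lit 201) (.e (nat_lit 2939) (nat_lit 184) (.e (nat_lit 425995) (nat_lit 0) (.e (nat_lit 3249) (nat_lit 197) .nil)))))))) (.g (nat_lit 1) (.e (nat_lit 403547) (nat_lit 0) .nil) .nil))) 
(.lf (nat_lit 593569) (.g (nat_lit 3726) (.e (nat_lit 540706) (nat_lit 12) (.e (nat_lit 360475) (nat_lit 8) (.e (nat_lit 557091) (nat_lit 12) (.e (nat_lit 163843) (nat_lit 0) (.e (nat_lit 6255) (nat_lit 337) (.e (nat_lit 2641) (nat_lit 165) (.e (nat_lit 180246) (nat_lit 6) .nil))))))) (.g (nat_lit 1) (.e (nat_lit 404900) (nat_lit 0) .nil) .nil)))) (.nd (nat_lit 9) 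
(.lf (nat_lit 593313) (.g (nat_lit 1978) (.e (nat_lit 540703) (nat_lit 11) (.e (nat_lit 352315) (nat_lit 23) (.e (nat_lit 98349) (nat_lit 24) (.e (nat_lit 409646) (nat_lit 18) (.e (nat_lit 303106) (nat_lit 0) .nil))))) (.g (nat_lit 0) (.e (nat_lit 404485) (nat_lit 0) .nil) .nil))) 
(.lf (nat_lit 593825) (.g (nat_lit 1829) (.e (nat_lit 516115) (nat_lit 1) (.e (nat_lit 164327) (nat_lit 230) (.e (nat_lit 163903) (nat_lit 12) (.e (nat_lit 426567) (nat_lit 34) .nil)))) (.g (nat_lit 0) (.e (nat_lit 405646) (nat_lit 0) .nil) .nil)))))) (.nd (nat_lit 7) (.nd (nat_lit 8) (.nd (nat_lit 9) 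
(.lf (nat_lit 592993) (.g (nat_lit 734) (.e (nat_lit 532566) (nat_lit 15) (.e (nat_lit 385106) (nat_lit 50) (.e (nat_lit 786436) (nat_lit 0) .nil))) (.g (nat_lit 0) (.e (nat_lit 403387) (nat_lit 0) .nil) .nil))) 
(.lf (nat_lit 593505) (.g (nat_lit 2450) (.e (nat_lit 540706) (nat_lit 12) (.e (nat_lit 360475) (nat_lit 8) (.e (nat_lit 557090) (nat_lit 12) (.e (nat_lit 163847) (nat_lit 0) .nil)))) (.g (nat_lit 0) (.e (nat_lit 404828) (nat_lit 0) .nil) .nil)))) (.nd (nat_lit 9) 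
(.lf (nat_lit 593249) (.g (nat_lit 1544) (.e (nat_lit 532581) (nat_lit 26) (.e (nat_lit 426110) (nat_lit 1) (.e (nat_lit 164399) (nat_lit 256) (.e (nat_lit 57411) (nat_lit 12) .nil)))) (.g (nat_lit 0) (.e (nat_lit 404178) (nat_lit 0) .nil) .nil))) 
(.lf (nat_lit 593761) (.g (nat_lit 1906) (.e (nat_lit 516115) (nat_lit 1) (.e (nat_lit 164325) (nat_lit 230) (.e (nat_lit 163903) (nat_lit 12) (.e (nat_lit 426566) (nat_lit 34) (.e (nat_lit 393273) (nat_lit 23) .nil))))) (.g (nat_lit 0) (.e (nat_lit 405536) (nat_lit 0) .nil) .nil))))) (.nd (nat_lit 8) (.nd (nat_lit 9) 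
(.lf (nat_lit 593121) (.g (nat_lit 3358) (.e (nat_lit 532569) (nat_lit 16) (.e (nat_lit 401448) (nat_lit 10) (.e (nat_lit 434245) (nat_lit 28) (.e (nat_lit 573471) (nat_lit 11) (.e (nat_lit 16451) (nat_lit 11) (.e (nat_lit 458789) (nat_lit 23) .nil)))))) (.g (nat_lit 1) (.e (nat_lit 403674) (nat_lit 0) .nil) .nil))) 
(.lf (nat_lit 593633) (.g (nat_lit 3639) (.e (nat_lit 516097) (nat_lit 0) (.e (nat_lit 3392) (nat_lit 210) (.e (nat_lit 639020) (nat_lit 16) (.e (nat_lit 65571) (nat_lit 3) (.e (nat_lit 98372) (nat_lit 29) (.e (nat_lit 458496) (nat_lit 3) .nil)))))) (.g (nat_lit 1) (.e (nat_lit 405203) (nat_lit 0) .nil) .nil)))) (.nd (nat_lit 9) 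
(.lf (nat_lit 593377) (.g (nat_lit 2744) (.e (nat_lit 540706) (nat_lit 12) (.e (nat_lit 360474) (nat_lit 8) (.e (nat_lit 557087) (nat_lit 11) (.e (nat_lit 24617) (nat_lit 7) .nil)))) (.g (nat_lit 0) (.e (nat_lit 404649) (nat_lit 0) .nil) .nil))) 
(.lf (nat_lit 593889) (.g (nat_lit 1724) (.e (nat_lit 516117) (nat_lit 1) (.e (nat_lit 164322) (nat_lit 230) (.e (nat_lit 163902) (nat_lit 12) (.e (nat_lit 426564) (nat_lit 34) .nil)))) (.g (nat_lit 0) (.e (nat_lit 405814) (nat_lit 0) .nil) .nil)))))))) (.nd (nat_lit 5) (.nd (nat_lit 6) (.nd (nat_lit 7) (.nd (nat_lit 8) (.nd (nat_lit 9) 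
(.lf (nat_lit 592913) (.g (nat_lit 3282) (.e (nat_lit 532564) (nat_lit 15) (.e (nat_lit 385066) (nat_lit 26) (.e (nat_lit 532534) (nat_lit 9) (.e (nat_lit 336324) (nat_lit 18) (.e (nat_lit 204880) (nat_lit 32) (.e (nat_lit 385066) (nat_lit 26) .nil)))))) (.g (nat_lit 1) (.e (nat_lit 403206) (nat_lit 0) .nil) .nil))) 
(.lf (nat_lit 593425) (.g (nat_lit 2020) (.e (nat_lit 540706) (nat_lit 12) (.e (nat_lit 360474) (nat_lit 8) (.e (nat_lit 557094) (nat_lit 12) (.e (nat_lit 164022) (nat_lit 46) (.e (nat_lit 704628) (nat_lit 9) (.e (nat_lit 452) (nat_lit 33) (.e (nat_lit 434235) (nat_lit 24) .nil))))))) (.g (nat_lit 1) (.e (nat_lit 404703) (nat_lit 0) .nil) .nil)))) (.nd (nat_lit 9) 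
(.lf (nat_lit 593169) (.g (nat_lit 1615) (.e (nat_lit 540416) (nat_lit 18) (.e (nat_lit 164399) (nat_lit 256) (.e (nat_lit 57389) (nat_lit 5) (.e (nat_lit 114716) (nat_lit 22) (.e (nat_lit 90157) (nat_lit 11) .nil))))) (.g (nat_lit 0) (.e (nat_lit 403768) (nat_lit 0) .nil) .nil))) 
(.lf (nat_lit 593681) (.g (nat_lit 3263) (.e (nat_lit 516106) (nat_lit 0) (.e (nat_lit 3390) (nat_lit 210) (.e (nat_lit 639020) (nat_lit 16) (.e (nat_lit 65571) (nat_lit 3) (.e (nat_lit 98373) (nat_lit 29) (.e (nat_lit 458496) (nat_lit 3) .nil)))))) (.g (nat_lit 1) (.e (nat_lit 405328) (nat_lit 0) .nil) .nil))))) (.nd (nat_lit 8) (.nd (nat_lit 9) 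
(.lf (nat_lit 593041) (.g (nat_lit 1738) (.e (nat_lit 532568) (nat_lit 16) (.e (nat_lit 401452) (nat_lit 12) (.e (nat_lit 475184) (nat_lit 29) (.e (nat_lit 557100) (nat_lit 13) (.e (nat_lit 172106) (nat_lit 10) .nil))))) (.g (nat_lit 0) (.e (nat_lit 403508) (nat_lit 0) .nil) .nil))) 
(.lf (nat_lit 593553) (.g (nat_lit 3413) (.e (nat_lit 540706) (nat_lit 12) (.e (nat_lit 360475) (nat_lit 8) (.e (nat_lit 557090) (nat_lit 12) (.e (nat_lit 164020) (nat_lit 45) (.e (nat_lit 696343) (nat_lit 8) (.e (nat_lit 172034) (nat_lit 0) (.e (nat_lit 3257) (nat_lit 198) .nil))))))) (.g (nat_lit 1) (.e (nat_lit 404881) (nat_lit 0) .nil) .nil)))) (.nd (nat_lit 9) 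
(.lf (nat_lit 593297) (.g (nat_lit 1699) (.e (nat_lit 540684) (nat_lit 3) (.e (nat_lit 114698) (nat_lit 11) (.e (nat_lit 426139) (nat_lit 3) .nil))) (.g (nat_lit 0) (.e (nat_lit 404449) (nat_lit 0) .nil) .nil))) 
(.lf (nat_lit 593809) (.g (nat_lit 1727) (.e (nat_lit 516115) (nat_lit 1) (.e (nat_lit 164327) (nat_lit 230) (.e (nat_lit 163875) (nat_lit 3) (.e (nat_lit 204837) (nat_lit 20) .nil)))) (.g (nat_lit 0) (.e (nat_lit 405629) (nat_lit 0) .nil) .nil)))))) (.nd (nat_lit 7) (.nd (nat_lit 8) (.nd (nat_lit 9) 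
(.lf (nat_lit 592977) (.g (nat_lit 1953) (.e (nat_lit 532566) (nat_lit 15) (.e (nat_lit 385068) (nat_lit 26) (.e (nat_lit 532530) (nat_lit 9) (.e (nat_lit 336322) (nat_lit 18) .nil)))) (.g (nat_lit 0) (.e (nat_lit 403343) (nat_lit 0) .nil) .nil))) 
(.lf (nat_lit 593489) (.g (nat_lit 4359) (.e (nat_lit 540706) (nat_lit 12) (.e (nat_lit 360475) (nat_lit 8) (.e (nat_lit 557089) (nat_lit 12) (.e (nat_lit 163844) (nat_lit 0) (.e (nat_lit 6420) (nat_lit 341) (.e (nat_lit 163902) (nat_lit 12) (.e (nat_lit 425985) (nat_lit 0) (.e (nat_lit 3262) (nat_lit 198) .nil)))))))) (.g (nat_lit 1) (.e (nat_lit 404801) (nat_lit 0) .nil) .nil)))) 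
(.nd (nat_lit 9) 
(.lf (nat_lit 593233) (.g (nat_lit 1703) (.e (nat_lit 532579) (nat_lit 26) (.e (nat_lit 426108) (nat_lit 1) (.e (nat_lit 164403) (nat_lit 256) (.e (nat_lit 57406) (nat_lit 12) (.e (nat_lit 336433) (nat_lit 30) .nil))))) (.g (nat_lit 0) (.e (nat_lit 403893) (nat_lit 0) .nil) .nil))) 
(.lf (nat_lit 593745) (.g (nat_lit 3916) (.e (nat_lit 516115) (nat_lit 1) (.e (nat_lit 164325) (nat_lit 230) (.e (nat_lit 163873) (nat_lit 3) (.e (nat_lit 204813) (nat_lit 9) (.e (nat_lit 426139) (nat_lit 3) (.e (nat_lit 204833) (nat_lit 19) (.e (nat_lit 106538) (nat_lit 12) (.e (nat_lit 57465) (nat_lit 23) .nil)))))))) (.g (nat_lit 1) (.e (nat_lit 405517) (nat_lit 0) .nil) .nil))))) 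
(.nd (nat_lit 8) (.nd (nat_lit 9) 
(.lf (nat_lit 593105) (.g (nat_lit 2598) (.e (nat_lit 532569) (nat_lit 16) (.e (nat_lit 401448) (nat_lit 10) (.e (nat_lit 434242) (nat_lit 28) (.e (nat_lit 573471) (nat_lit 11) (.e (nat_lit 16451) (nat_lit 11) (.e (nat_lit 458789) (nat_lit 23) .nil)))))) (.g (nat_lit 1) (.e (nat_lit 403655) (nat_lit 0) .nil) .nil))) 
(.lf (nat_lit 593617) (.g (nat_lit 3870) (.e (nat_lit 540706) (nat_lit 12) (.e (nat_lit 360475) (nat_lit 8) (.e (nat_lit 557091) (nat_lit 12) (.e (nat_lit 164022) (nat_lit 46) (.e (nat_lit 704738) (nat_lit 11) (.e (nat_lit 16385) (nat_lit 0) (.e (nat_lit 3262) (nat_lit 198) .nil))))))) (.g (nat_lit 1) (.e (nat_lit 404962) (nat_lit 0) .nil) .nil)))) (.nd (nat_lit 9) 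
(.lf (nat_lit 593361) (.g (nat_lit 2657) (.e (nat_lit 540704) (nat_lit 12) (.e (nat_lit 360475) (nat_lit 8) (.e (nat_lit 557087) (nat_lit 11) (.e (nat_lit 24617) (nat_lit 7) (.e (nat_lit 319505) (nat_lit 10) .nil))))) (.g (nat_lit 0) (.e (nat_lit 404557) (nat_lit 0) .nil) .nil))) 
(.lf (nat_lit 593873) (.g (nat_lit 1499) (.e (nat_lit 516116) (nat_lit 1) (.e (nat_lit 164332) (nat_lit 230) (.e (nat_lit 163941) (nat_lit 19) (.e (nat_lit 483341) (nat_lit 9) (.e (nat_lit 426198) (nat_lit 9) .nil))))) (.g (nat_lit 0) (.e (nat_lit 405732) (nat_lit 0) .nil) .nil))))))) (.nd (nat_lit 6) (.nd (nat_lit 7) (.nd (nat_lit 8) (.nd (nat_lit 9) 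
(.lf (nat_lit 592945) (.g (nat_lit 1865) (.e (nat_lit 532565) (nat_lit 15) (.e (nat_lit 385093) (nat_lit 49) (.e (nat_lit 778317) (nat_lit 3) (.e (nat_lit 57480) (nat_lit 28) (.e (nat_lit 557107) (nat_lit 15) .nil))))) (.g (nat_lit 0) (.e (nat_lit 403300) (nat_lit 0) .nil) .nil))) 
(.lf (nat_lit 593457) (.g (nat_lit 3377) (.e (nat_lit 540706) (nat_lit 12) (.e (nat_lit 360475) (nat_lit 8) (.e (nat_lit 557086) (nat_lit 11) (.e (nat_lit 24661) (nat_lit 14) (.e (nat_lit 401412) (nat_lit 0) (.e (nat_lit 3262) (nat_lit 198) .nil)))))) (.g (nat_lit 1) (.e (nat_lit 404768) (nat_lit 0) .nil) .nil)))) (.nd (nat_lit 9) 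
(.lf (nat_lit 593201) (.g (nat_lit 1997) (.e (nat_lit 532579) (nat_lit 26) (.e (nat_lit 426098) (nat_lit 1) (.e (nat_lit 164399) (nat_lit 256) (.e (nat_lit 57445) (nat_lit 19) (.e (nat_lit 393287) (nat_lit 25) .nil))))) (.g (nat_lit 0) (.e (nat_lit 403847) (nat_lit 0) .nil) .nil))) 
(.lf (nat_lit 593713) (.g (nat_lit 1421) (.e (nat_lit 516115) (nat_lit 1) (.e (nat_lit 164179) (nat_lit 154) (.e (nat_lit 57377) (nat_lit 3) (.e (nat_lit 98341) (nat_lit 20) .nil)))) (.g (nat_lit 0) (.e (nat_lit 405414) (nat_lit 0) .nil) .nil))))) (.nd (nat_lit 8) (.nd (nat_lit 9) 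
(.lf (nat_lit 593073) (.g (nat_lit 2633) (.e (nat_lit 532569) (nat_lit 16) (.e (nat_lit 401448) (nat_lit 10) (.e (nat_lit 434227) (nat_lit 20) (.e (nat_lit 507930) (nat_lit 10) (.e (nat_lit 5777) (nat_lit 317) (.e (nat_lit 188160) (nat_lit 5) .nil)))))) (.g (nat_lit 1) (.e (nat_lit 403618) (nat_lit 0) .nil) .nil))) 
(.lf (nat_lit 593585) (.g (nat_lit 3255) (.e (nat_lit 540706) (nat_lit 12) (.e (nat_lit 360475) (nat_lit 8) (.e (nat_lit 557091) (nat_lit 12) (.e (nat_lit 164022) (nat_lit 46) (.e (nat_lit 704628) (nat_lit 9) (.e (nat_lit 443) (nat_lit 33) (.e (nat_lit 434235) (nat_lit 24) .nil))))))) (.g (nat_lit 1) (.e (nat_lit 404925) (nat_lit 0) .nil) .nil)))) (.nd (nat_lit 9) 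
(.lf (nat_lit 593329) (.g (nat_lit 2370) (.e (nat_lit 540704) (nat_lit 12) (.e (nat_lit 360466) (nat_lit 3) (.e (nat_lit 516139) (nat_lit 7) (.e (nat_lit 409645) (nat_lit 18) .nil)))) (.g (nat_lit 0) (.e (nat_lit 404514) (nat_lit 0) .nil) .nil))) 
(.lf (nat_lit 593841) (.g (nat_lit 1788) (.e (nat_lit 516115) (nat_lit 1) (.e (nat_lit 164332) (nat_lit 230) (.e (nat_lit 163905) (nat_lit 12) (.e (nat_lit 426489) (nat_lit 27) .nil)))) (.g (nat_lit 0) (.e (nat_lit 405676) (nat_lit 0) .nil) .nil)))))) (.nd (nat_lit 7) (.nd (nat_lit 8) (.nd (nat_lit 9) 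
(.lf (nat_lit 593009) (.g (nat_lit 4494) (.e (nat_lit 532567) (nat_lit 16) (.e (nat_lit 401452) (nat_lit 12) (.e (nat_lit 475185) (nat_lit 29) (.e (nat_lit 557100) (nat_lit 13) (.e (nat_lit 172106) (nat_lit 10) (.e (nat_lit 434231) (nat_lit 23) .nil)))))) (.g (nat_lit 1) (.e (nat_lit 403441) (nat_lit 0) .nil) .nil))) 
(.lf (nat_lit 593521) (.g (nat_lit 1869) (.e (nat_lit 540706) (nat_lit 12) (.e (nat_lit 360475) (nat_lit 8) (.e (nat_lit 557090) (nat_lit 12) (.e (nat_lit 164020) (nat_lit 45) (.e (nat_lit 696328) (nat_lit 5) (.e (nat_lit 2878) (nat_lit 184) (.e (nat_lit 426020) (nat_lit 0) (.e (nat_lit 3262) (nat_lit 198) .nil)))))))) (.g (nat_lit 1) (.e (nat_lit 404848) (nat_lit 0) .nil) .nil)))) 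
(.nd (nat_lit 9) 
(.lf (nat_lit 593265) (.g (nat_lit 2572) (.e (nat_lit 532583) (nat_lit 26) (.e (nat_lit 426100) (nat_lit 1) (.e (nat_lit 164398) (nat_lit 256) (.e (nat_lit 57407) (nat_lit 12) (.e (nat_lit 336432) (nat_lit 30) .nil))))) (.g (nat_lit 0) (.e (nat_lit 404201) (nat_lit 0) .nil) .nil))) 
(.lf (nat_lit 593777) (.g (nat_lit 3443) (.e (nat_lit 516115) (nat_lit 1) (.e (nat_lit 164325) (nat_lit 230) (.e (nat_lit 163905) (nat_lit 12) (.e (nat_lit 426566) (nat_lit 34) (.e (nat_lit 393273) (nat_lit 23) (.e (nat_lit 426364) (nat_lit 15) (.e (nat_lit 1801) (nat_lit 119) .nil))))))) (.g (nat_lit 1) (.e (nat_lit 405553) (nat_lit 0) .nil) .nil))))) (.nd (nat_lit 8) (.nd (nat_lit 9) 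
(.lf (nat_lit 593137) (.g (nat_lit 2919) (.e (nat_lit 532569) (nat_lit 16) (.e (nat_lit 401448) (nat_lit 10) (.e (nat_lit 434248) (nat_lit 28) (.e (nat_lit 573452) (nat_lit 9) (.e (nat_lit 430) (nat_lit 32) (.e (nat_lit 426296) (nat_lit 11) (.e (nat_lit 458789) (nat_lit 23) .nil))))))) (.g (nat_lit 1) (.e (nat_lit 403691) (nat_lit 0) .nil) .nil))) 
(.lf (nat_lit 593649) (.g (nat_lit 418) (.e (nat_lit 516099) (nat_lit 0) (.e (nat_lit 3605) (nat_lit 225) (.e (nat_lit 761905) (nat_lit 16) .nil))) (.g (nat_lit 0) (.e (nat_lit 405262) (nat_lit 0) .nil) .nil)))) (.nd (nat_lit 9) 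
(.lf (nat_lit 593393) (.g (nat_lit 2144) (.e (nat_lit 540706) (nat_lit 12) (.e (nat_lit 360474) (nat_lit 8) (.e (nat_lit 557093) (nat_lit 12) (.e (nat_lit 164022) (nat_lit 46) (.e (nat_lit 704736) (nat_lit 11) (.e (nat_lit 16385) (nat_lit 0) (.e (nat_lit 3260) (nat_lit 198) .nil))))))) (.g (nat_lit 1) (.e (nat_lit 404670) (nat_lit 0) .nil) .nil))) 
(.lf (nat_lit 593905) (.g (nat_lit 1305) (.e (nat_lit 516117) (nat_lit 1) (.e (nat_lit 164329) (nat_lit 230) (.e (nat_lit 163941) (nat_lit 19) (.e (nat_lit 483332) (nat_lit 0) .nil)))) (.g (nat_lit 0) (.e (nat_lit 405849) (nat_lit 0) .nil) .nil))))))))) (.nd (nat_lit 4) (.nd (nat_lit 5) (.nd (nat_lit 6) (.nd (nat_lit 7) (.nd (nat_lit 8) (.nd (nat_lit 9) 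
(.lf (nat_lit 592905) (.g (nat_lit 682) (.e (nat_lit 532563) (nat_lit 15) (.e (nat_lit 385106) (nat_lit 50) (.e (nat_lit 786436) (nat_lit 0) .nil))) (.g (nat_lit 0) (.e (nat_lit 403158) (nat_lit 0) .nil) .nil))) 
(.lf (nat_lit 593417) (.g (nat_lit 2488) (.e (nat_lit 540706) (nat_lit 12) (.e (nat_lit 360474) (nat_lit 8) (.e (nat_lit 557093) (nat_lit 12) (.e (nat_lit 164023) (nat_lit 46) (.e (nat_lit 704626) (nat_lit 9) .nil))))) (.g (nat_lit 0) (.e (nat_lit 404694) (nat_lit 0) .nil) .nil)))) (.nd (nat_lit 9) 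
(.lf (nat_lit 593161) (.g (nat_lit 1136) (.e (nat_lit 540416) (nat_lit 16) (.e (nat_lit 401453) (nat_lit 12) (.e (nat_lit 475183) (nat_lit 29) (.e (nat_lit 557101) (nat_lit 13) .nil)))) (.g (nat_lit 0) (.e (nat_lit 403743) (nat_lit 0) .nil) .nil))) 
(.lf (nat_lit 593673) (.g (nat_lit 3601) (.e (nat_lit 516102) (nat_lit 0) (.e (nat_lit 7114) (nat_lit 381) (.e (nat_lit 229683) (nat_lit 246) (.e (nat_lit 2668) (nat_lit 167) (.e (nat_lit 196666) (nat_lit 13) (.e (nat_lit 65610) (nat_lit 10) (.e (nat_lit 344117) (nat_lit 21) .nil))))))) (.g (nat_lit 1) (.e (nat_lit 405310) (nat_lit 0) .nil) .nil))))) (.nd (nat_lit 8) (.nd (nat_lit 9) 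
(.lf (nat_lit 593033) (.g (nat_lit 2125) (.e (nat_lit 532568) (nat_lit 16) (.e (nat_lit 401450) (nat_lit 12) (.e (nat_lit 475185) (nat_lit 29) (.e (nat_lit 557098) (nat_lit 13) .nil)))) (.g (nat_lit 0) (.e (nat_lit 403494) (nat_lit 0) .nil) .nil))) 
(.lf (nat_lit 593545) (.g (nat_lit 2362) (.e (nat_lit 540706) (nat_lit 12) (.e (nat_lit 360475) (nat_lit 8) (.e (nat_lit 557090) (nat_lit 12) (.e (nat_lit 164020) (nat_lit 45) (.e (nat_lit 696337) (nat_lit 5) .nil))))) (.g (nat_lit 0) (.e (nat_lit 404873) (nat_lit 0) .nil) .nil)))) (.nd (nat_lit 9) 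
(.lf (nat_lit 593289) (.g (nat_lit 1018) (.e (nat_lit 540416) (nat_lit 28) (.e (nat_lit 442411) (nat_lit 20) (.e (nat_lit 3579) (nat_lit 223) (.e (nat_lit 745475) (nat_lit 0) (.e (nat_lit 1598) (nat_lit 111) .nil))))) (.g (nat_lit 0) (.e (nat_lit 404361) (nat_lit 0) .nil) .nil))) 
(.lf (nat_lit 593801) (.g (nat_lit 1209) (.e (nat_lit 516115) (nat_lit 1) (.e (nat_lit 164326) (nat_lit 230) (.e (nat_lit 163903) (nat_lit 12) (.e (nat_lit 426566) (nat_lit 34) .nil)))) (.g (nat_lit 0) (.e (nat_lit 405620) (nat_lit 0) .nil) .nil)))))) (.nd (nat_lit 7) (.nd (nat_lit 8) (.nd (nat_lit 9) 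
(.lf (nat_lit 592969) (.g (nat_lit 2102) (.e (nat_lit 532566) (nat_lit 15) (.e (nat_lit 385066) (nat_lit 26) (.e (nat_lit 532565) (nat_lit 15) (.e (nat_lit 385068) (nat_lit 26) (.e (nat_lit 532566) (nat_lit 15) (.e (nat_lit 385066) (nat_lit 26) .nil)))))) (.g (nat_lit 1) (.e (nat_lit 403333) (nat_lit 0) .nil) .nil))) 
(.lf (nat_lit 593481) (.g (nat_lit 3062) (.e (nat_lit 540706) (nat_lit 12) (.e (nat_lit 360475) (nat_lit 8) (.e (nat_lit 557087) (nat_lit 11) (.e (nat_lit 24665) (nat_lit 14) (.e (nat_lit 401413) (nat_lit 0) (.e (nat_lit 3258) (nat_lit 198) .nil)))))) (.g (nat_lit 1) (.e (nat_lit 404793) (nat_lit 0) .nil) .nil)))) (.nd (nat_lit 9) 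
(.lf (nat_lit 593225) (.g (nat_lit 1689) (.e (nat_lit 532579) (nat_lit 26) (.e (nat_lit 426107) (nat_lit 1) (.e (nat_lit 164401) (nat_lit 256) (.e (nat_lit 57409) (nat_lit 12) (.e (nat_lit 336398) (nat_lit 27) .nil))))) (.g (nat_lit 0) (.e (nat_lit 403876) (nat_lit 0) .nil) .nil))) 
(.lf (nat_lit 593737) (.g (nat_lit 3588) (.e (nat_lit 516115) (nat_lit 1) (.e (nat_lit 164325) (nat_lit 230) (.e (nat_lit 163873) (nat_lit 3) (.e (nat_lit 204809) (nat_lit 9) (.e (nat_lit 426139) (nat_lit 3) (.e (nat_lit 204834) (nat_lit 19) (.e (nat_lit 106539) (nat_lit 12) (.e (nat_lit 57465) (nat_lit 23) .nil)))))))) (.g (nat_lit 1) (.e (nat_lit 405508) (nat_lit 0) .nil) .nil))))) 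
(.nd (nat_lit 8) (.nd (nat_lit 9) 
(.lf (nat_lit 593097) (.g (nat_lit 2403) (.e (nat_lit 532569) (nat_lit 16) (.e (nat_lit 401448) (nat_lit 10) (.e (nat_lit 434232) (nat_lit 23) (.e (nat_lit 532523) (nat_lit 7) (.e (nat_lit 319505) (nat_lit 10) (.e (nat_lit 5714) (nat_lit 312) (.e (nat_lit 2505) (nat_lit 157) (.e (nat_lit 3249) (nat_lit 197) .nil)))))))) (.g (nat_lit 1) (.e (nat_lit 403643) (nat_lit 0) .nil) .nil))) 
(.lf (nat_lit 593609) (.g (nat_lit 3561) (.e (nat_lit 540706) (nat_lit 12) (.e (nat_lit 360475) (nat_lit 8) (.e (nat_lit 557091) (nat_lit 12) (.e (nat_lit 164022) (nat_lit 46) (.e (nat_lit 704737) (nat_lit 11) (.e (nat_lit 16395) (nat_lit 0) (.e (nat_lit 3262) (nat_lit 198) .nil))))))) (.g (nat_lit 1) (.e (nat_lit 404954) (nat_lit 0) .nil) .nil)))) (.nd (nat_lit 9) 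
(.lf (nat_lit 593353) (.g (nat_lit 2781) (.e (nat_lit 540704) (nat_lit 12) (.e (nat_lit 360473) (nat_lit 8) (.e (nat_lit 557090) (nat_lit 12) (.e (nat_lit 164022) (nat_lit 46) .nil)))) (.g (nat_lit 0) (.e (nat_lit 404549) (nat_lit 0) .nil) .nil))) 
(.lf (nat_lit 593865) (.g (nat_lit 1077) (.e (nat_lit 516116) (nat_lit 1) (.e (nat_lit 164329) (nat_lit 230) (.e (nat_lit 163941) (nat_lit 19) (.e (nat_lit 483341) (nat_lit 9) (.e (nat_lit 426200) (nat_lit 9) .nil))))) (.g (nat_lit 0) (.e (nat_lit 405716) (nat_lit 0) .nil) .nil))))))) (.nd (nat_lit 6) (.nd (nat_lit 7) (.nd (nat_lit 8) (.nd (nat_lit 9) 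
(.lf (nat_lit 592937) (.g (nat_lit 2010) (.e (nat_lit 532565) (nat_lit 15) (.e (nat_lit 385066) (nat_lit 26) (.e (nat_lit 532566) (nat_lit 15) (.e (nat_lit 385068) (nat_lit 26) (.e (nat_lit 532566) (nat_lit 15) (.e (nat_lit 385066) (nat_lit 26) .nil)))))) (.g (nat_lit 1) (.e (nat_lit 403291) (nat_lit 0) .nil) .nil))) 
(.lf (nat_lit 593449) (.g (nat_lit 3354) (.e (nat_lit 540706) (nat_lit 12) (.e (nat_lit 360475) (nat_lit 8) (.e (nat_lit 557085) (nat_lit 11) (.e (nat_lit 24665) (nat_lit 14) (.e (nat_lit 401408) (nat_lit 0) (.e (nat_lit 3259) (nat_lit 198) .nil)))))) (.g (nat_lit 1) (.e (nat_lit 404757) (nat_lit 0) .nil) .nil)))) (.nd (nat_lit 9) 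
(.lf (nat_lit 593193) (.g (nat_lit 481) (.e (nat_lit 532578) (nat_lit 26) (.e (nat_lit 426190) (nat_lit 9) (.e (nat_lit 426562) (nat_lit 33) .nil))) (.g (nat_lit 0) (.e (nat_lit 403826) (nat_lit 0) .nil) .nil))) 
(.lf (nat_lit 593705) (.g (nat_lit 548) (.e (nat_lit 516114) (nat_lit 1) (.e (nat_lit 164183) (nat_lit 154) (.e (nat_lit 57378) (nat_lit 3) .nil))) (.g (nat_lit 0) (.e (nat_lit 405391) (nat_lit 0) .nil) .nil))))) (.nd (nat_lit 8) (.nd (nat_lit 9) 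
(.lf (nat_lit 593065) (.g (nat_lit 453) (.e (nat_lit 532569) (nat_lit 16) (.e (nat_lit 401444) (nat_lit 9) (.e (nat_lit 425984) (nat_lit 0) .nil))) (.g (nat_lit 0) (.e (nat_lit 403559) (nat_lit 0) .nil) .nil))) 
(.lf (nat_lit 593577) (.g (nat_lit 4069) (.e (nat_lit 540706) (nat_lit 12) (.e (nat_lit 360475) (nat_lit 8) (.e (nat_lit 557091) (nat_lit 12) (.e (nat_lit 163847) (nat_lit 0) (.e (nat_lit 6420) (nat_lit 341) (.e (nat_lit 163902) (nat_lit 12) (.e (nat_lit 425985) (nat_lit 0) (.e (nat_lit 3262) (nat_lit 198) .nil)))))))) (.g (nat_lit 1) (.e (nat_lit 404909) (nat_lit 0) .nil) .nil)))) 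
(.nd (nat_lit 9) 
(.lf (nat_lit 593321) (.g (nat_lit 1808) (.e (nat_lit 540703) (nat_lit 11) (.e (nat_lit 352315) (nat_lit 23) (.e (nat_lit 98367) (nat_lit 27) (.e (nat_lit 434269) (nat_lit 36) (.e (nat_lit 639008) (nat_lit 13) .nil))))) (.g (nat_lit 0) (.e (nat_lit 404495) (nat_lit 0) .nil) .nil))) 
(.lf (nat_lit 593833) (.g (nat_lit 1516) (.e (nat_lit 516115) (nat_lit 1) (.e (nat_lit 164327) (nat_lit 230) (.e (nat_lit 163907) (nat_lit 12) (.e (nat_lit 426567) (nat_lit 34) .nil)))) (.g (nat_lit 0) (.e (nat_lit 405654) (nat_lit 0) .nil) .nil)))))) (.nd (nat_lit 7) (.nd (nat_lit 8) (.nd (nat_lit 9) 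
(.lf (nat_lit 593001) (.g (nat_lit 1250) (.e (nat_lit 532567) (nat_lit 16) (.e (nat_lit 401451) (nat_lit 12) (.e (nat_lit 475183) (nat_lit 29) .nil))) (.g (nat_lit 0) (.e (nat_lit 403427) (nat_lit 0) .nil) .nil))) 
(.lf (nat_lit 593513) (.g (nat_lit 1089) (.e (nat_lit 540706) (nat_lit 12) (.e (nat_lit 360475) (nat_lit 8) (.e (nat_lit 557090) (nat_lit 12) (.e (nat_lit 164020) (nat_lit 45) .nil)))) (.g (nat_lit 0) (.e (nat_lit 404837) (nat_lit 0) .nil) .nil)))) (.nd (nat_lit 9) 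
(.lf (nat_lit 593257) (.g (nat_lit 1957) (.e (nat_lit 532582) (nat_lit 26) (.e (nat_lit 426107) (nat_lit 1) (.e (nat_lit 164403) (nat_lit 256) (.e (nat_lit 57406) (nat_lit 12) .nil)))) (.g (nat_lit 0) (.e (nat_lit 404187) (nat_lit 0) .nil) .nil))) 
(.lf (nat_lit 593769) (.g (nat_lit 1249) (.e (nat_lit 516115) (nat_lit 1) (.e (nat_lit 164325) (nat_lit 230) (.e (nat_lit 163903) (nat_lit 12) (.e (nat_lit 426568) (nat_lit 34) .nil)))) (.g (nat_lit 0) (.e (nat_lit 405544) (nat_lit 0) .nil) .nil))))) (.nd (nat_lit 8) (.nd (nat_lit 9) 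
(.lf (nat_lit 593129) (.g (nat_lit 3048) (.e (nat_lit 532569) (nat_lit 16) (.e (nat_lit 401448) (nat_lit 10) (.e (nat_lit 434246) (nat_lit 28) (.e (nat_lit 573471) (nat_lit 11) (.e (nat_lit 16447) (nat_lit 10) (.e (nat_lit 434231) (nat_lit 23) .nil)))))) (.g (nat_lit 1) (.e (nat_lit 403682) (nat_lit 0) .nil) .nil))) 
(.lf (nat_lit 593641) (.g (nat_lit 2492) (.e (nat_lit 516098) (nat_lit 0) (.e (nat_lit 7065) (nat_lit 377) (.e (nat_lit 1349) (nat_lit 102) (.e (nat_lit 286733) (nat_lit 2) (.e (nat_lit 90128) (nat_lit 9) (.e (nat_lit 3031) (nat_lit 188) (.e (nat_lit 466688) (nat_lit 3) (.e (nat_lit 57464) (nat_lit 23) .nil)))))))) (.g (nat_lit 1) (.e (nat_lit 405250) (nat_lit 0) .nil) .nil)))) (.nd (nat_lit 9) 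
(.lf (nat_lit 593385) (.g (nat_lit 2386) (.e (nat_lit 540706) (nat_lit 12) (.e (nat_lit 360474) (nat_lit 8) (.e (nat_lit 557093) (nat_lit 12) (.e (nat_lit 164022) (nat_lit 46) (.e (nat_lit 704628) (nat_lit 9) (.e (nat_lit 450) (nat_lit 33) (.e (nat_lit 434235) (nat_lit 24) .nil))))))) (.g (nat_lit 1) (.e (nat_lit 404660) (nat_lit 0) .nil) .nil))) 
(.lf (nat_lit 593897) (.g (nat_lit 2849) (.e (nat_lit 516117) (nat_lit 1) (.e (nat_lit 164329) (nat_lit 230) (.e (nat_lit 163902) (nat_lit 12) (.e (nat_lit 426568) (nat_lit 34) (.e (nat_lit 393234) (nat_lit 17) (.e (nat_lit 7374) (nat_lit 389) (.e (nat_lit 8318) (nat_lit 64) .nil))))))) (.g (nat_lit 1) (.e (nat_lit 405830) (nat_lit 0) .nil) .nil)))))))) 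
(.nd (nat_lit 5) (.nd (nat_lit 6) (.nd (nat_lit 7) (.nd (nat_lit 8) (.nd (nat_lit 9) 
(.lf (nat_lit 592921) (.g (nat_lit 2531) (.e (nat_lit 532564) (nat_lit 15) (.e (nat_lit 385068) (nat_lit 26) (.e (nat_lit 532530) (nat_lit 9) (.e (nat_lit 336324) (nat_lit 18) (.e (nat_lit 204882) (nat_lit 32) .nil))))) (.g (nat_lit 0) (.e (nat_lit 403214) (nat_lit 0) .nil) .nil))) 
(.lf (nat_lit 593433) (.g (nat_lit 2399) (.e (nat_lit 540706) (nat_lit 12) (.e (nat_lit 360474) (nat_lit 8) (.e (nat_lit 557094) (nat_lit 12) (.e (nat_lit 164022) (nat_lit 46) (.e (nat_lit 704736) (nat_lit 11) (.e (nat_lit 16390) (nat_lit 0) (.e (nat_lit 3262) (nat_lit 198) .nil))))))) (.g (nat_lit 1) (.e (nat_lit 404713) (nat_lit 0) .nil) .nil)))) (.nd (nat_lit 9) 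
(.lf (nat_lit 593177) (.g (nat_lit 2426) (.e (nat_lit 532578) (nat_lit 26) (.e (nat_lit 426100) (nat_lit 1) (.e (nat_lit 164398) (nat_lit 256) (.e (nat_lit 57406) (nat_lit 12) (.e (nat_lit 336434) (nat_lit 30) .nil))))) (.g (nat_lit 0) (.e (nat_lit 403802) (nat_lit 0) .nil) .nil))) 
(.lf (nat_lit 593689) (.g (nat_lit 3911) (.e (nat_lit 516106) (nat_lit 0) (.e (nat_lit 7008) (nat_lit 377) (.e (nat_lit 2786) (nat_lit 179) (.e (nat_lit 294966) (nat_lit 15) (.e (nat_lit 3308) (nat_lit 202) (.e (nat_lit 573482) (nat_lit 13) (.e (nat_lit 65619) (nat_lit 10) (.e (nat_lit 344117) (nat_lit 21) .nil)))))))) (.g (nat_lit 1) (.e (nat_lit 405369) (nat_lit 0) .nil) .nil))))) 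
(.nd (nat_lit 8) (.nd (nat_lit 9) 
(.lf (nat_lit 593049) (.g (nat_lit 4173) (.e (nat_lit 532568) (nat_lit 16) (.e (nat_lit 401460) (nat_lit 14) (.e (nat_lit 491536) (nat_lit 2) (.e (nat_lit 90170) (nat_lit 13) (.e (nat_lit 172106) (nat_lit 10) (.e (nat_lit 434231) (nat_lit 23) .nil)))))) (.g (nat_lit 1) (.e (nat_lit 403534) (nat_lit 0) .nil) .nil))) 
(.lf (nat_lit 593561) (.g (nat_lit 2508) (.e (nat_lit 540706) (nat_lit 12) (.e (nat_lit 360475) (nat_lit 8) (.e (nat_lit 557090) (nat_lit 12) (.e (nat_lit 164020) (nat_lit 45) (.e (nat_lit 696344) (nat_lit 8) (.e (nat_lit 172045) (nat_lit 0) (.e (nat_lit 3258) (nat_lit 198) .nil))))))) (.g (nat_lit 1) (.e (nat_lit 404889) (nat_lit 0) .nil) .nil)))) (.nd (nat_lit 9) 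
(.lf (nat_lit 593305) (.g (nat_lit 1271) (.e (nat_lit 540703) (nat_lit 11) (.e (nat_lit 352277) (nat_lit 11) (.e (nat_lit 433920) (nat_lit 35) (.e (nat_lit 401454) (nat_lit 12) (.e (nat_lit 475181) (nat_lit 27) .nil))))) (.g (nat_lit 0) (.e (nat_lit 404472) (nat_lit 0) .nil) .nil))) 
(.lf (nat_lit 593817) (.g (nat_lit 1949) (.e (nat_lit 516115) (nat_lit 1) (.e (nat_lit 164327) (nat_lit 230) (.e (nat_lit 163903) (nat_lit 12) (.e (nat_lit 426481) (nat_lit 27) .nil)))) (.g (nat_lit 0) (.e (nat_lit 405638) (nat_lit 0) .nil) .nil)))))) (.nd (nat_lit 7) (.nd (nat_lit 8) (.nd (nat_lit 9) 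
(.lf (nat_lit 592985) (.g (nat_lit 1160) (.e (nat_lit 532566) (nat_lit 15) (.e (nat_lit 385093) (nat_lit 49) (.e (nat_lit 778317) (nat_lit 3) (.e (nat_lit 57476) (nat_lit 28) .nil)))) (.g (nat_lit 0) (.e (nat_lit 403357) (nat_lit 0) .nil) .nil))) 
(.lf (nat_lit 593497) (.g (nat_lit 464) (.e (nat_lit 540706) (nat_lit 12) (.e (nat_lit 360475) (nat_lit 8) (.e (nat_lit 557090) (nat_lit 12) .nil))) (.g (nat_lit 0) (.e (nat_lit 404816) (nat_lit 0) .nil) .nil)))) (.nd (nat_lit 9) 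
(.lf (nat_lit 593241) (.g (nat_lit 18) (.e (nat_lit 532579) (nat_lit 26) (.e (nat_lit 426186) (nat_lit 9) (.e (nat_lit 426560) (nat_lit 33) .nil))) (.g (nat_lit 0) (.e (nat_lit 404044) (nat_lit 0) .nil) .nil))) 
(.lf (nat_lit 593753) (.g (nat_lit 4307) (.e (nat_lit 516115) (nat_lit 1) (.e (nat_lit 164325) (nat_lit 230) (.e (nat_lit 163902) (nat_lit 12) (.e (nat_lit 426566) (nat_lit 34) (.e (nat_lit 393294) (nat_lit 26) (.e (nat_lit 475177) (nat_lit 24) .nil)))))) (.g (nat_lit 1) (.e (nat_lit 405527) (nat_lit 0) .nil) .nil))))) (.nd (nat_lit 8) (.nd (nat_lit 9) 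
(.lf (nat_lit 593113) (.g (nat_lit 3194) (.e (nat_lit 532569) (nat_lit 16) (.e (nat_lit 401448) (nat_lit 10) (.e (nat_lit 434244) (nat_lit 28) (.e (nat_lit 573471) (nat_lit 11) (.e (nat_lit 16425) (nat_lit 7) .nil))))) (.g (nat_lit 0) (.e (nat_lit 403666) (nat_lit 0) .nil) .nil))) 
(.lf (nat_lit 593625) (.g (nat_lit 1769) (.e (nat_lit 540706) (nat_lit 12) (.e (nat_lit 360475) (nat_lit 8) (.e (nat_lit 557093) (nat_lit 12) (.e (nat_lit 164022) (nat_lit 46) .nil)))) (.g (nat_lit 0) (.e (nat_lit 404972) (nat_lit 0) .nil) .nil)))) (.nd (nat_lit 9) 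
(.lf (nat_lit 593369) (.g (nat_lit 3157) (.e (nat_lit 540705) (nat_lit 12) (.e (nat_lit 360475) (nat_lit 8) (.e (nat_lit 557091) (nat_lit 12) (.e (nat_lit 164022) (nat_lit 46) (.e (nat_lit 704629) (nat_lit 9) .nil))))) (.g (nat_lit 0) (.e (nat_lit 404566) (nat_lit 0) .nil) .nil))) 
(.lf (nat_lit 593881) (.g (nat_lit 1922) (.e (nat_lit 516116) (nat_lit 1) (.e (nat_lit 164399) (nat_lit 256) (.e (nat_lit 57378) (nat_lit 3) (.e (nat_lit 98355) (nat_lit 26) .nil)))) (.g (nat_lit 0) (.e (nat_lit 405744) (nat_lit 0) .nil) .nil))))))) (.nd (nat_lit 6) (.nd (nat_lit 7) (.nd (nat_lit 8) (.nd (nat_lit 9) 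
(.lf (nat_lit 592953) (.g (nat_lit 3207) (.e (nat_lit 532566) (nat_lit 15) (.e (nat_lit 385066) (nat_lit 26) (.e (nat_lit 532530) (nat_lit 9) (.e (nat_lit 336324) (nat_lit 18) (.e (nat_lit 204882) (nat_lit 32) (.e (nat_lit 385068) (nat_lit 26) .nil)))))) (.g (nat_lit 1) (.e (nat_lit 403315) (nat_lit 0) .nil) .nil))) 
(.lf (nat_lit 593465) (.g (nat_lit 1970) (.e (nat_lit 540706) (nat_lit 12) (.e (nat_lit 360475) (nat_lit 8) (.e (nat_lit 557086) (nat_lit 11) (.e (nat_lit 24665) (nat_lit 14) (.e (nat_lit 401418) (nat_lit 0) (.e (nat_lit 3258) (nat_lit 198) .nil)))))) (.g (nat_lit 1) (.e (nat_lit 404776) (nat_lit 0) .nil) .nil)))) (.nd (nat_lit 9) 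
(.lf (nat_lit 593209) (.g (nat_lit 2887) (.e (nat_lit 532579) (nat_lit 26) (.e (nat_lit 426100) (nat_lit 1) (.e (nat_lit 164398) (nat_lit 256) (.e (nat_lit 57406) (nat_lit 12) (.e (nat_lit 336398) (nat_lit 27) (.e (nat_lit 426290) (nat_lit 10) (.e (nat_lit 434231) (nat_lit 23) .nil))))))) (.g (nat_lit 1) (.e (nat_lit 403856) (nat_lit 0) .nil) .nil))) 
(.lf (nat_lit 593721) (.g (nat_lit 1875) (.e (nat_lit 516115) (nat_lit 1) (.e (nat_lit 164183) (nat_lit 154) (.e (nat_lit 57410) (nat_lit 12) (.e (nat_lit 336454) (nat_lit 34) (.e (nat_lit 483394) (nat_lit 24) .nil))))) (.g (nat_lit 0) (.e (nat_lit 405453) (nat_lit 0) .nil) .nil))))) (.nd (nat_lit 8) (.nd (nat_lit 9) 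
(.lf (nat_lit 593081) (.g (nat_lit 2624) (.e (nat_lit 532569) (nat_lit 16) (.e (nat_lit 401448) (nat_lit 10) (.e (nat_lit 434231) (nat_lit 23) (.e (nat_lit 532490) (nat_lit 0) (.e (nat_lit 6674) (nat_lit 357) .nil))))) (.g (nat_lit 0) (.e (nat_lit 403626) (nat_lit 0) .nil) .nil))) 
(.lf (nat_lit 593593) (.g (nat_lit 2754) (.e (nat_lit 540706) (nat_lit 12) (.e (nat_lit 360475) (nat_lit 8) (.e (nat_lit 557091) (nat_lit 12) (.e (nat_lit 164022) (nat_lit 46) (.e (nat_lit 704736) (nat_lit 11) (.e (nat_lit 16384) (nat_lit 0) (.e (nat_lit 3262) (nat_lit 198) .nil))))))) (.g (nat_lit 1) (.e (nat_lit 404938) (nat_lit 0) .nil) .nil)))) (.nd (nat_lit 9) 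
(.lf (nat_lit 593337) (.g (nat_lit 3138) (.e (nat_lit 540704) (nat_lit 12) (.e (nat_lit 360467) (nat_lit 3) (.e (nat_lit 516139) (nat_lit 7) (.e (nat_lit 409645) (nat_lit 18) (.e (nat_lit 303112) (nat_lit 0) (.e (nat_lit 3258) (nat_lit 198) .nil)))))) (.g (nat_lit 1) (.e (nat_lit 404531) (nat_lit 0) .nil) .nil))) 
(.lf (nat_lit 593849) (.g (nat_lit 1594) (.e (nat_lit 516115) (nat_lit 1) (.e (nat_lit 164399) (nat_lit 256) (.e (nat_lit 57365) (nat_lit 1) (.e (nat_lit 57692) (nat_lit 156) (.e (nat_lit 163869) (nat_lit 2) .nil))))) (.g (nat_lit 0) (.e (nat_lit 405687) (nat_lit 0) .nil) .nil)))))) (.nd (nat_lit 7) (.nd (nat_lit 8) (.nd (nat_lit 9) 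
(.lf (nat_lit 593017) (.g (nat_lit 2564) (.e (nat_lit 532567) (nat_lit 16) (.e (nat_lit 401454) (nat_lit 12) (.e (nat_lit 475185) (nat_lit 29) (.e (nat_lit 557097) (nat_lit 13) (.e (nat_lit 172115) (nat_lit 10) .nil))))) (.g (nat_lit 0) (.e (nat_lit 403459) (nat_lit 0) .nil) .nil))) 
(.lf (nat_lit 593529) (.g (nat_lit 1898) (.e (nat_lit 540706) (nat_lit 12) (.e (nat_lit 360475) (nat_lit 8) (.e (nat_lit 557090) (nat_lit 12) (.e (nat_lit 164020) (nat_lit 45) (.e (nat_lit 696328) (nat_lit 5) (.e (nat_lit 2981) (nat_lit 185) (.e (nat_lit 434235) (nat_lit 24) .nil))))))) (.g (nat_lit 1) (.e (nat_lit 404857) (nat_lit 0) .nil) .nil)))) (.nd (nat_lit 9) 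
(.lf (nat_lit 593273) (.g (nat_lit 1632) (.e (nat_lit 532583) (nat_lit 26) (.e (nat_lit 426186) (nat_lit 9) (.e (nat_lit 426562) (nat_lit 33) (.e (nat_lit 385041) (nat_lit 19) (.e (nat_lit 164292) (nat_lit 224) (.e (nat_lit 164096) (nat_lit 86) .nil)))))) (.g (nat_lit 1) (.e (nat_lit 404234) (nat_lit 0) .nil) .nil))) 
(.lf (nat_lit 593785) (.g (nat_lit 2334) (.e (nat_lit 516115) (nat_lit 1) (.e (nat_lit 164325) (nat_lit 230) (.e (nat_lit 163907) (nat_lit 12) (.e (nat_lit 426530) (nat_lit 27) (.e (nat_lit 336390) (nat_lit 27) .nil))))) (.g (nat_lit 0) (.e (nat_lit 405564) (nat_lit 0) .nil) .nil))))) (.nd (nat_lit 8) (.nd (nat_lit 9) 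
(.lf (nat_lit 593145) (.g (nat_lit 4453) (.e (nat_lit 532569) (nat_lit 16) (.e (nat_lit 401450) (nat_lit 12) (.e (nat_lit 475185) (nat_lit 29) (.e (nat_lit 557101) (nat_lit 13) (.e (nat_lit 172115) (nat_lit 10) (.e (nat_lit 434231) (nat_lit 23) .nil)))))) (.g (nat_lit 1) (.e (nat_lit 403703) (nat_lit 0) .nil) .nil))) 
(.lf (nat_lit 593657) (.g (nat_lit 3719) (.e (nat_lit 516102) (nat_lit 0) (.e (nat_lit 6989) (nat_lit 377) (.e (nat_lit 2810) (nat_lit 180) (.e (nat_lit 303119) (nat_lit 3) (.e (nat_lit 204868) (nat_lit 29) (.e (nat_lit 360466) (nat_lit 3) .nil)))))) (.g (nat_lit 1) (.e (nat_lit 405290) (nat_lit 0) .nil) .nil)))) (.nd (nat_lit 9) 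
(.lf (nat_lit 593401) (.g (nat_lit 2449) (.e (nat_lit 540706) (nat_lit 12) (.e (nat_lit 360474) (nat_lit 8) (.e (nat_lit 557093) (nat_lit 12) (.e (nat_lit 164022) (nat_lit 46) (.e (nat_lit 704737) (nat_lit 11) (.e (nat_lit 16385) (nat_lit 0) (.e (nat_lit 3259) (nat_lit 198) .nil))))))) (.g (nat_lit 1) (.e (nat_lit 404678) (nat_lit 0) .nil) .nil))) 
(.lf (nat_lit 593913) (.g (nat_lit 1803) (.e (nat_lit 516117) (nat_lit 1) (.e (nat_lit 164330) (nat_lit 230) (.e (nat_lit 163902) (nat_lit 12) (.e (nat_lit 426478) (nat_lit 27) .nil)))) (.g (nat_lit 0) (.e (nat_lit 405860) (nat_lit 0) .nil) .nil)))))))))) (.nd (nat_lit 3) (.nd (nat_lit 4) (.nd (nat_lit 5) (.nd (nat_lit 6) (.nd (nat_lit 7) (.nd (nat_lit 8) (.nd (nat_lit 9) 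
(.lf (nat_lit 592901) (.g (nat_lit 1349) (.e (nat_lit 532563) (nat_lit 15) (.e (nat_lit 385093) (nat_lit 49) (.e (nat_lit 778318) (nat_lit 3) (.e (nat_lit 57476) (nat_lit 28) .nil)))) (.g (nat_lit 0) (.e (nat_lit 403134) (nat_lit 0) .nil) .nil))) 
(.lf (nat_lit 593413) (.g (nat_lit 2103) (.e (nat_lit 540706) (nat_lit 12) (.e (nat_lit 360474) (nat_lit 8) (.e (nat_lit 557093) (nat_lit 12) (.e (nat_lit 164022) (nat_lit 46) (.e (nat_lit 704738) (nat_lit 11) (.e (nat_lit 16392) (nat_lit 0) (.e (nat_lit 7936) (nat_lit 198) .nil))))))) (.g (nat_lit 1) (.e (nat_lit 404690) (nat_lit 0) .nil) .nil)))) (.nd (nat_lit 9) 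
(.lf (nat_lit 593157) (.g (nat_lit 4227) (.e (nat_lit 540416) (nat_lit 16) (.e (nat_lit 401451) (nat_lit 12) (.e (nat_lit 475185) (nat_lit 29) (.e (nat_lit 557100) (nat_lit 13) (.e (nat_lit 172106) (nat_lit 10) .nil))))) (.g (nat_lit 0) (.e (nat_lit 403739) (nat_lit 0) .nil) .nil))) 
(.lf (nat_lit 593669) (.g (nat_lit 3756) (.e (nat_lit 516102) (nat_lit 0) (.e (nat_lit 7101) (nat_lit 380) (.e (nat_lit 164359) (nat_lit 246) (.e (nat_lit 2661) (nat_lit 167) (.e (nat_lit 196666) (nat_lit 13) (.e (nat_lit 65610) (nat_lit 10) (.e (nat_lit 344117) (nat_lit 21) .nil))))))) (.g (nat_lit 1) (.e (nat_lit 405304) (nat_lit 0) .nil) .nil))))) (.nd (nat_lit 8) (.nd (nat_lit 9) 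
(.lf (nat_lit 593029) (.g (nat_lit 3420) (.e (nat_lit 532568) (nat_lit 16) (.e (nat_lit 401447) (nat_lit 10) (.e (nat_lit 434231) (nat_lit 23) (.e (nat_lit 532569) (nat_lit 16) (.e (nat_lit 401448) (nat_lit 10) (.e (nat_lit 434232) (nat_lit 23) .nil)))))) (.g (nat_lit 1) (.e (nat_lit 403480) (nat_lit 0) .nil) .nil))) 
(.lf (nat_lit 593541) (.g (nat_lit 2831) (.e (nat_lit 540706) (nat_lit 12) (.e (nat_lit 360475) (nat_lit 8) (.e (nat_lit 557090) (nat_lit 12) (.e (nat_lit 164020) (nat_lit 45) (.e (nat_lit 696330) (nat_lit 5) (.e (nat_lit 2975) (nat_lit 185) (.e (nat_lit 434235) (nat_lit 24) .nil))))))) (.g (nat_lit 1) (.e (nat_lit 404869) (nat_lit 0) .nil) .nil)))) (.nd (nat_lit 9) 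
(.lf (nat_lit 593285) (.g (nat_lit 459) (.e (nat_lit 540416) (nat_lit 26) (.e (nat_lit 426198) (nat_lit 9) (.e (nat_lit 426562) (nat_lit 33) .nil))) (.g (nat_lit 0) (.e (nat_lit 404298) (nat_lit 0) .nil) .nil))) 
(.lf (nat_lit 593797) (.g (nat_lit 242) (.e (nat_lit 516115) (nat_lit 1) (.e (nat_lit 164325) (nat_lit 230) (.e (nat_lit 163942) (nat_lit 19) .nil))) (.g (nat_lit 0) (.e (nat_lit 405606) (nat_lit 0) .nil) .nil)))))) (.nd (nat_lit 7) (.nd (nat_lit 8) (.nd (nat_lit 9) 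
(.lf (nat_lit 592965) (.g (nat_lit 2976) (.e (nat_lit 532566) (nat_lit 15) (.e (nat_lit 385066) (nat_lit 26) (.e (nat_lit 532534) (nat_lit 9) (.e (nat_lit 336326) (nat_lit 18) (.e (nat_lit 204880) (nat_lit 32) (.e (nat_lit 385066) (nat_lit 26) .nil)))))) (.g (nat_lit 1) (.e (nat_lit 403329) (nat_lit 0) .nil) .nil))) 
(.lf (nat_lit 593477) (.g (nat_lit 3419) (.e (nat_lit 540706) (nat_lit 12) (.e (nat_lit 360475) (nat_lit 8) (.e (nat_lit 557087) (nat_lit 11) (.e (nat_lit 24665) (nat_lit 14) (.e (nat_lit 401408) (nat_lit 0) (.e (nat_lit 3259) (nat_lit 198) .nil)))))) (.g (nat_lit 1) (.e (nat_lit 404789) (nat_lit 0) .nil) .nil)))) (.nd (nat_lit 9) 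
(.lf (nat_lit 593221) (.g (nat_lit 676) (.e (nat_lit 532579) (nat_lit 26) (.e (nat_lit 426107) (nat_lit 1) (.e (nat_lit 164327) (nat_lit 230) .nil))) (.g (nat_lit 0) (.e (nat_lit 403870) (nat_lit 0) .nil) .nil))) 
(.lf (nat_lit 593733) (.g (nat_lit 2518) (.e (nat_lit 516115) (nat_lit 1) (.e (nat_lit 164325) (nat_lit 230) (.e (nat_lit 163873) (nat_lit 3) (.e (nat_lit 204809) (nat_lit 9) (.e (nat_lit 426139) (nat_lit 3) (.e (nat_lit 204833) (nat_lit 19) (.e (nat_lit 106538) (nat_lit 12) (.e (nat_lit 57466) (nat_lit 23) .nil)))))))) (.g (nat_lit 1) (.e (nat_lit 405503) (nat_lit 0) .nil) .nil))))) 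
(.nd (nat_lit 8) (.nd (nat_lit 9) 
(.lf (nat_lit 593093) (.g (nat_lit 2429) (.e (nat_lit 532569) (nat_lit 16) (.e (nat_lit 401448) (nat_lit 10) (.e (nat_lit 434232) (nat_lit 23) (.e (nat_lit 532490) (nat_lit 0) (.e (nat_lit 7936) (nat_lit 364) (.e (nat_lit 237578) (nat_lit 0) (.e (nat_lit 3249) (nat_lit 197) .nil))))))) (.g (nat_lit 1) (.e (nat_lit 403639) (nat_lit 0) .nil) .nil))) 
(.lf (nat_lit 593605) (.g (nat_lit 3326) (.e (nat_lit 540706) (nat_lit 12) (.e (nat_lit 360475) (nat_lit 8) (.e (nat_lit 557091) (nat_lit 12) (.e (nat_lit 164022) (nat_lit 46) (.e (nat_lit 704737) (nat_lit 11) (.e (nat_lit 16390) (nat_lit 0) (.e (nat_lit 3259) (nat_lit 198) .nil))))))) (.g (nat_lit 1) (.e (nat_lit 404950) (nat_lit 0) .nil) .nil)))) (.nd (nat_lit 9) 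
(.lf (nat_lit 593349) (.g (nat_lit 2400) (.e (nat_lit 540704) (nat_lit 12) (.e (nat_lit 360473) (nat_lit 8) (.e (nat_lit 557090) (nat_lit 12) (.e (nat_lit 163844) (nat_lit 0) .nil)))) (.g (nat_lit 0) (.e (nat_lit 404545) (nat_lit 0) .nil) .nil))) 
(.lf (nat_lit 593861) (.g (nat_lit 2128) (.e (nat_lit 516116) (nat_lit 1) (.e (nat_lit 164329) (nat_lit 230) (.e (nat_lit 163902) (nat_lit 12) (.e (nat_lit 426568) (nat_lit 34) (.e (nat_lit 393293) (nat_lit 26) (.e (nat_lit 475175) (nat_lit 24) .nil)))))) (.g (nat_lit 1) (.e (nat_lit 405711) (nat_lit 0) .nil) .nil))))))) (.nd (nat_lit 6) (.nd (nat_lit 7) (.nd (nat_lit 8) (.nd (nat_lit 9) 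
(.lf (nat_lit 592933) (.g (nat_lit 3125) (.e (nat_lit 532565) (nat_lit 15) (.e (nat_lit 385066) (nat_lit 26) (.e (nat_lit 532534) (nat_lit 9) (.e (nat_lit 336324) (nat_lit 18) (.e (nat_lit 204880) (nat_lit 32) (.e (nat_lit 385066) (nat_lit 26) .nil)))))) (.g (nat_lit 1) (.e (nat_lit 403287) (nat_lit 0) .nil) .nil))) 
(.lf (nat_lit 593445) (.g (nat_lit 2973) (.e (nat_lit 540706) (nat_lit 12) (.e (nat_lit 360474) (nat_lit 8) (.e (nat_lit 557094) (nat_lit 12) (.e (nat_lit 164022) (nat_lit 46) (.e (nat_lit 704738) (nat_lit 11) (.e (nat_lit 24320) (nat_lit 0) (.e (nat_lit 3262) (nat_lit 198) .nil))))))) (.g (nat_lit 1) (.e (nat_lit 404725) (nat_lit 0) .nil) .nil)))) (.nd (nat_lit 9) 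
(.lf (nat_lit 593189) (.g (nat_lit 2264) (.e (nat_lit 532578) (nat_lit 26) (.e (nat_lit 426107) (nat_lit 1) (.e (nat_lit 164403) (nat_lit 256) (.e (nat_lit 57409) (nat_lit 12) (.e (nat_lit 336434) (nat_lit 30) .nil))))) (.g (nat_lit 0) (.e (nat_lit 403815) (nat_lit 0) .nil) .nil))) 
(.lf (nat_lit 593701) (.g (nat_lit 4122) (.e (nat_lit 516110) (nat_lit 0) (.e (nat_lit 6986) (nat_lit 377) (.e (nat_lit 2819) (nat_lit 181) (.e (nat_lit 311315) (nat_lit 3) .nil)))) (.g (nat_lit 0) (.e (nat_lit 405386) (nat_lit 0) .nil) .nil))))) (.nd (nat_lit 8) (.nd (nat_lit 9) 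
(.lf (nat_lit 593061) (.g (nat_lit 1825) (.e (nat_lit 532569) (nat_lit 16) (.e (nat_lit 401434) (nat_lit 9) (.e (nat_lit 426140) (nat_lit 3) (.e (nat_lit 204884) (nat_lit 33) .nil)))) (.g (nat_lit 0) (.e (nat_lit 403553) (nat_lit 0) .nil) .nil))) 
(.lf (nat_lit 593573) (.g (nat_lit 4812) (.e (nat_lit 540706) (nat_lit 12) (.e (nat_lit 360475) (nat_lit 8) (.e (nat_lit 557091) (nat_lit 12) (.e (nat_lit 163843) (nat_lit 0) (.e (nat_lit 6420) (nat_lit 341) (.e (nat_lit 163902) (nat_lit 12) (.e (nat_lit 425986) (nat_lit 0) (.e (nat_lit 3262) (nat_lit 198) .nil)))))))) (.g (nat_lit 1) (.e (nat_lit 404905) (nat_lit 0) .nil) .nil)))) 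
(.nd (nat_lit 9) 
(.lf (nat_lit 593317) (.g (nat_lit 2194) (.e (nat_lit 540703) (nat_lit 11) (.e (nat_lit 352315) (nat_lit 23) (.e (nat_lit 98350) (nat_lit 24) (.e (nat_lit 409648) (nat_lit 18) (.e (nat_lit 303108) (nat_lit 0) .nil))))) (.g (nat_lit 0) (.e (nat_lit 404489) (nat_lit 0) .nil) .nil))) 
(.lf (nat_lit 593829) (.g (nat_lit 2656) (.e (nat_lit 516115) (nat_lit 1) (.e (nat_lit 164327) (nat_lit 230) (.e (nat_lit 163903) (nat_lit 12) (.e (nat_lit 426568) (nat_lit 34) (.e (nat_lit 393292) (nat_lit 26) .nil))))) (.g (nat_lit 0) (.e (nat_lit 405650) (nat_lit 0) .nil) .nil)))))) (.nd (nat_lit 7) (.nd (nat_lit 8) (.nd (nat_lit 9) 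
(.lf (nat_lit 592997) (.g (nat_lit 737) (.e (nat_lit 532567) (nat_lit 16) (.e (nat_lit 401438) (nat_lit 9) (.e (nat_lit 426361) (nat_lit 15) .nil))) (.g (nat_lit 0) (.e (nat_lit 403417) (nat_lit 0) .nil) .nil))) 
(.lf (nat_lit 593509) (.g (nat_lit 2446) (.e (nat_lit 540706) (nat_lit 12) (.e (nat_lit 360475) (nat_lit 8) (.e (nat_lit 557090) (nat_lit 12) (.e (nat_lit 163852) (nat_lit 0) .nil)))) (.g (nat_lit 0) (.e (nat_lit 404833) (nat_lit 0) .nil) .nil)))) (.nd (nat_lit 9) 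
(.lf (nat_lit 593253) (.g (nat_lit 2403) (.e (nat_lit 532582) (nat_lit 26) (.e (nat_lit 426100) (nat_lit 1) (.e (nat_lit 164398) (nat_lit 256) (.e (nat_lit 57447) (nat_lit 19) (.e (nat_lit 393287) (nat_lit 25) .nil))))) (.g (nat_lit 0) (.e (nat_lit 404183) (nat_lit 0) .nil) .nil))) 
(.lf (nat_lit 593765) (.g (nat_lit 2965) (.e (nat_lit 516115) (nat_lit 1) (.e (nat_lit 164325) (nat_lit 230) (.e (nat_lit 163903) (nat_lit 12) (.e (nat_lit 426566) (nat_lit 34) (.e (nat_lit 393292) (nat_lit 26) (.e (nat_lit 475177) (nat_lit 24) .nil)))))) (.g (nat_lit 1) (.e (nat_lit 405540) (nat_lit 0) .nil) .nil))))) (.nd (nat_lit 8) (.nd (nat_lit 9) 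
(.lf (nat_lit 593125) (.g (nat_lit 3339) (.e (nat_lit 532569) (nat_lit 16) (.e (nat_lit 401448) (nat_lit 10) (.e (nat_lit 434245) (nat_lit 28) (.e (nat_lit 573471) (nat_lit 11) (.e (nat_lit 16454) (nat_lit 11) (.e (nat_lit 458789) (nat_lit 23) .nil)))))) (.g (nat_lit 1) (.e (nat_lit 403678) (nat_lit 0) .nil) .nil))) 
(.lf (nat_lit 593637) (.g (nat_lit 438) (.e (nat_lit 516097) (nat_lit 0) (.e (nat_lit 3605) (nat_lit 225) (.e (nat_lit 761906) (nat_lit 16) .nil))) (.g (nat_lit 0) (.e (nat_lit 405222) (nat_lit 0) .nil) .nil)))) (.nd (nat_lit 9) 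
(.lf (nat_lit 593381) (.g (nat_lit 3111) (.e (nat_lit 540706) (nat_lit 12) (.e (nat_lit 360474) (nat_lit 8) (.e (nat_lit 557091) (nat_lit 12) (.e (nat_lit 163850) (nat_lit 0) (.e (nat_lit 6273) (nat_lit 337) .nil))))) (.g (nat_lit 0) (.e (nat_lit 404654) (nat_lit 0) .nil) .nil))) 
(.lf (nat_lit 593893) (.g (nat_lit 694) (.e (nat_lit 516117) (nat_lit 1) (.e (nat_lit 164329) (nat_lit 230) (.e (nat_lit 163902) (nat_lit 12) (.e (nat_lit 426479) (nat_lit 27) .nil)))) (.g (nat_lit 0) (.e (nat_lit 405820) (nat_lit 0) .nil) .nil)))))))) (.nd (nat_lit 5) (.nd (nat_lit 6) (.nd (nat_lit 7) (.nd (nat_lit 8) (.nd (nat_lit 9) 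
(.lf (nat_lit 592917) (.g (nat_lit 1872) (.e (nat_lit 532564) (nat_lit 15) (.e (nat_lit 385066) (nat_lit 26) (.e (nat_lit 532564) (nat_lit 15) (.e (nat_lit 385066) (nat_lit 26) (.e (nat_lit 532532) (nat_lit 9) (.e (nat_lit 336306) (nat_lit 15) (.e (nat_lit 3238) (nat_lit 197) .nil))))))) (.g (nat_lit 1) (.e (nat_lit 403210) (nat_lit 0) .nil) .nil))) 
(.lf (nat_lit 593429) (.g (nat_lit 2060) (.e (nat_lit 540706) (nat_lit 12) (.e (nat_lit 360474) (nat_lit 8) (.e (nat_lit 557094) (nat_lit 12) (.e (nat_lit 164022) (nat_lit 46) (.e (nat_lit 704736) (nat_lit 11) (.e (nat_lit 16385) (nat_lit 0) (.e (nat_lit 3259) (nat_lit 198) .nil))))))) (.g (nat_lit 1) (.e (nat_lit 404709) (nat_lit 0) .nil) .nil)))) (.nd (nat_lit 9) 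
(.lf (nat_lit 593173) (.g (nat_lit 1635) (.e (nat_lit 540416) (nat_lit 20) (.e (nat_lit 221194) (nat_lit 11) (.e (nat_lit 336012) (nat_lit 2) (.e (nat_lit 90172) (nat_lit 14) (.e (nat_lit 180285) (nat_lit 45) .nil))))) (.g (nat_lit 0) (.e (nat_lit 403773) (nat_lit 0) .nil) .nil))) 
(.lf (nat_lit 593685) (.g (nat_lit 2864) (.e (nat_lit 516106) (nat_lit 0) (.e (nat_lit 3537) (nat_lit 218) (.e (nat_lit 704728) (nat_lit 10) (.e (nat_lit 8225) (nat_lit 15) (.e (nat_lit 532513) (nat_lit 3) (.e (nat_lit 114714) (nat_lit 22) (.e (nat_lit 90172) (nat_lit 14) (.e (nat_lit 188160) (nat_lit 3) .nil)))))))) (.g (nat_lit 1) (.e (nat_lit 405355) (nat_lit 0) .nil) .nil))))) 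
(.nd (nat_lit 8) (.nd (nat_lit 9) 
(.lf (nat_lit 593045) (.g (nat_lit 3529) (.e (nat_lit 532568) (nat_lit 16) (.e (nat_lit 401454) (nat_lit 12) (.e (nat_lit 475185) (nat_lit 29) (.e (nat_lit 557098) (nat_lit 13) (.e (nat_lit 172114) (nat_lit 10) .nil))))) (.g (nat_lit 0) (.e (nat_lit 403525) (nat_lit 0) .nil) .nil))) 
(.lf (nat_lit 593557) (.g (nat_lit 2612) (.e (nat_lit 540706) (nat_lit 12) (.e (nat_lit 360475) (nat_lit 8) (.e (nat_lit 557090) (nat_lit 12) (.e (nat_lit 164020) (nat_lit 45) (.e (nat_lit 696343) (nat_lit 8) (.e (nat_lit 172054) (nat_lit 0) (.e (nat_lit 3258) (nat_lit 198) .nil))))))) (.g (nat_lit 1) (.e (nat_lit 404885) (nat_lit 0) .nil) .nil)))) (.nd (nat_lit 9) 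
(.lf (nat_lit 593301) (.g (nat_lit 1119) (.e (nat_lit 540702) (nat_lit 11) (.e (nat_lit 352277) (nat_lit 11) (.e (nat_lit 426500) (nat_lit 27) (.e (nat_lit 335995) (nat_lit 1) (.e (nat_lit 57872) (nat_lit 264) .nil))))) (.g (nat_lit 0) (.e (nat_lit 404466) (nat_lit 0) .nil) .nil))) 
(.lf (nat_lit 593813) (.g (nat_lit 2037) (.e (nat_lit 516115) (nat_lit 1) (.e (nat_lit 164327) (nat_lit 230) (.e (nat_lit 163903) (nat_lit 12) (.e (nat_lit 426478) (nat_lit 27) .nil)))) (.g (nat_lit 0) (.e (nat_lit 405633) (nat_lit 0) .nil) .nil)))))) (.nd (nat_lit 7) (.nd (nat_lit 8) (.nd (nat_lit 9) 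
(.lf (nat_lit 592981) (.g (nat_lit 1478) (.e (nat_lit 532566) (nat_lit 15) (.e (nat_lit 385068) (nat_lit 26) (.e (nat_lit 532534) (nat_lit 9) (.e (nat_lit 336326) (nat_lit 18) .nil)))) (.g (nat_lit 0) (.e (nat_lit 403348) (nat_lit 0) .nil) .nil))) 
(.lf (nat_lit 593493) (.g (nat_lit 3330) (.e (nat_lit 540706) (nat_lit 12) (.e (nat_lit 360475) (nat_lit 8) (.e (nat_lit 557089) (nat_lit 12) (.e (nat_lit 164017) (nat_lit 44) (.e (nat_lit 688138) (nat_lit 5) (.e (nat_lit 2887) (nat_lit 184) (.e (nat_lit 426003) (nat_lit 0) (.e (nat_lit 3262) (nat_lit 198) .nil)))))))) (.g (nat_lit 1) (.e (nat_lit 404810) (nat_lit 0) .nil) .nil)))) 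
(.nd (nat_lit 9) 
(.lf (nat_lit 593237) (.g (nat_lit 867) (.e (nat_lit 532579) (nat_lit 26) (.e (nat_lit 426139) (nat_lit 3) (.e (nat_lit 204821) (nat_lit 17) .nil))) (.g (nat_lit 0) (.e (nat_lit 404025) (nat_lit 0) .nil) .nil))) 
(.lf (nat_lit 593749) (.g (nat_lit 4174) (.e (nat_lit 516115) (nat_lit 1) (.e (nat_lit 164325) (nat_lit 230) (.e (nat_lit 163902) (nat_lit 12) (.e (nat_lit 426566) (nat_lit 34) (.e (nat_lit 393291) (nat_lit 26) (.e (nat_lit 475177) (nat_lit 24) .nil)))))) (.g (nat_lit 1) (.e (nat_lit 405523) (nat_lit 0) .nil) .nil))))) (.nd (nat_lit 8) (.nd (nat_lit 9) 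
(.lf (nat_lit 593109) (.g (nat_lit 3912) (.e (nat_lit 532569) (nat_lit 16) (.e (nat_lit 401448) (nat_lit 10) (.e (nat_lit 434244) (nat_lit 28) (.e (nat_lit 573458) (nat_lit 9) (.e (nat_lit 426) (nat_lit 32) (.e (nat_lit 426296) (nat_lit 11) (.e (nat_lit 458789) (nat_lit 23) .nil))))))) (.g (nat_lit 1) (.e (nat_lit 403662) (nat_lit 0) .nil) .nil))) 
(.lf (nat_lit 593621) (.g (nat_lit 2731) (.e (nat_lit 540706) (nat_lit 12) (.e (nat_lit 360475) (nat_lit 8) (.e (nat_lit 557091) (nat_lit 12) (.e (nat_lit 164022) (nat_lit 46) (.e (nat_lit 704738) (nat_lit 11) (.e (nat_lit 16392) (nat_lit 0) (.e (nat_lit 7936) (nat_lit 198) .nil))))))) (.g (nat_lit 1) (.e (nat_lit 404966) (nat_lit 0) .nil) .nil)))) (.nd (nat_lit 9) 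
(.lf (nat_lit 593365) (.g (nat_lit 1814) (.e (nat_lit 540705) (nat_lit 12) (.e (nat_lit 360471) (nat_lit 7) (.e (nat_lit 548889) (nat_lit 9) (.e (nat_lit 65629) (nat_lit 14) .nil)))) (.g (nat_lit 0) (.e (nat_lit 404562) (nat_lit 0) .nil) .nil))) 
(.lf (nat_lit 593877) (.g (nat_lit 1276) (.e (nat_lit 516116) (nat_lit 1) (.e (nat_lit 164399) (nat_lit 256) (.e (nat_lit 57372) (nat_lit 2) (.e (nat_lit 90174) (nat_lit 14) .nil)))) (.g (nat_lit 0) (.e (nat_lit 405739) (nat_lit 0) .nil) .nil))))))) (.nd (nat_lit 6) (.nd (nat_lit 7) (.nd (nat_lit 8) (.nd (nat_lit 9) 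
(.lf (nat_lit 592949) (.g (nat_lit 1256) (.e (nat_lit 532565) (nat_lit 15) (.e (nat_lit 385106) (nat_lit 50) (.e (nat_lit 786450) (nat_lit 15) (.e (nat_lit 1853) (nat_lit 124) .nil)))) (.g (nat_lit 0) (.e (nat_lit 403305) (nat_lit 0) .nil) .nil))) 
(.lf (nat_lit 593461) (.g (nat_lit 2169) (.e (nat_lit 540706) (nat_lit 12) (.e (nat_lit 360475) (nat_lit 8) (.e (nat_lit 557086) (nat_lit 11) (.e (nat_lit 24664) (nat_lit 14) (.e (nat_lit 401409) (nat_lit 0) (.e (nat_lit 3262) (nat_lit 198) .nil)))))) (.g (nat_lit 1) (.e (nat_lit 404772) (nat_lit 0) .nil) .nil)))) (.nd (nat_lit 9) 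
(.lf (nat_lit 593205) (.g (nat_lit 1544) (.e (nat_lit 532579) (nat_lit 26) (.e (nat_lit 426099) (nat_lit 1) (.e (nat_lit 164398) (nat_lit 256) (.e (nat_lit 57409) (nat_lit 12) (.e (nat_lit 336434) (nat_lit 30) .nil))))) (.g (nat_lit 0) (.e (nat_lit 403851) (nat_lit 0) .nil) .nil))) 
(.lf (nat_lit 593717) (.g (nat_lit 2400) (.e (nat_lit 516115) (nat_lit 1) (.e (nat_lit 164182) (nat_lit 154) (.e (nat_lit 57373) (nat_lit 2) (.e (nat_lit 90128) (nat_lit 9) (.e (nat_lit 2705) (nat_lit 170) .nil))))) (.g (nat_lit 0) (.e (nat_lit 405423) (nat_lit 0) .nil) .nil))))) (.nd (nat_lit 8) (.nd (nat_lit 9) 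
(.lf (nat_lit 593077) (.g (nat_lit 2531) (.e (nat_lit 532569) (nat_lit 16) (.e (nat_lit 401448) (nat_lit 10) (.e (nat_lit 434231) (nat_lit 23) (.e (nat_lit 532481) (nat_lit 0) (.e (nat_lit 6691) (nat_lit 357) .nil))))) (.g (nat_lit 0) (.e (nat_lit 403622) (nat_lit 0) .nil) .nil))) 
(.lf (nat_lit 593589) (.g (nat_lit 2971) (.e (nat_lit 540706) (nat_lit 12) (.e (nat_lit 360475) (nat_lit 8) (.e (nat_lit 557091) (nat_lit 12) (.e (nat_lit 164022) (nat_lit 46) (.e (nat_lit 704735) (nat_lit 11) (.e (nat_lit 16390) (nat_lit 0) (.e (nat_lit 3260) (nat_lit 198) .nil))))))) (.g (nat_lit 1) (.e (nat_lit 404934) (nat_lit 0) .nil) .nil)))) (.nd (nat_lit 9) 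
(.lf (nat_lit 593333) (.g (nat_lit 1794) (.e (nat_lit 540704) (nat_lit 12) (.e (nat_lit 360466) (nat_lit 3) (.e (nat_lit 516139) (nat_lit 7) (.e (nat_lit 417536) (nat_lit 18) .nil)))) (.g (nat_lit 0) (.e (nat_lit 404518) (nat_lit 0) .nil) .nil))) 
(.lf (nat_lit 593845) (.g (nat_lit 1696) (.e (nat_lit 516115) (nat_lit 1) (.e (nat_lit 164332) (nat_lit 230) (.e (nat_lit 163905) (nat_lit 12) (.e (nat_lit 426564) (nat_lit 34) .nil)))) (.g (nat_lit 0) (.e (nat_lit 405680) (nat_lit 0) .nil) .nil)))))) (.nd (nat_lit 7) (.nd (nat_lit 8) (.nd (nat_lit 9) 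
(.lf (nat_lit 593013) (.g (nat_lit 4525) (.e (nat_lit 532567) (nat_lit 16) (.e (nat_lit 401453) (nat_lit 12) (.e (nat_lit 475185) (nat_lit 29) (.e (nat_lit 557100) (nat_lit 13) (.e (nat_lit 172106) (nat_lit 10) (.e (nat_lit 434231) (nat_lit 23) .nil)))))) (.g (nat_lit 1) (.e (nat_lit 403447) (nat_lit 0) .nil) .nil))) 
(.lf (nat_lit 593525) (.g (nat_lit 2004) (.e (nat_lit 540706) (nat_lit 12) (.e (nat_lit 360475) (nat_lit 8) (.e (nat_lit 557090) (nat_lit 12) (.e (nat_lit 164020) (nat_lit 45) (.e (nat_lit 696328) (nat_lit 5) (.e (nat_lit 2958) (nat_lit 185) (.e (nat_lit 434235) (nat_lit 24) .nil))))))) (.g (nat_lit 1) (.e (nat_lit 404853) (nat_lit 0) .nil) .nil)))) (.nd (nat_lit 9) 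
(.lf (nat_lit 593269) (.g (nat_lit 2751) (.e (nat_lit 532583) (nat_lit 26) (.e (nat_lit 426100) (nat_lit 1) (.e (nat_lit 164403) (nat_lit 256) (.e (nat_lit 57409) (nat_lit 12) (.e (nat_lit 336434) (nat_lit 30) .nil))))) (.g (nat_lit 0) (.e (nat_lit 404205) (nat_lit 0) .nil) .nil))) 
(.lf (nat_lit 593781) (.g (nat_lit 394) (.e (nat_lit 516115) (nat_lit 1) (.e (nat_lit 164325) (nat_lit 230) (.e (nat_lit 163907) (nat_lit 12) .nil))) (.g (nat_lit 0) (.e (nat_lit 405557) (nat_lit 0) .nil) .nil))))) (.nd (nat_lit 8) (.nd (nat_lit 9) 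
(.lf (nat_lit 593141) (.g (nat_lit 4236) (.e (nat_lit 532569) (nat_lit 16) (.e (nat_lit 401448) (nat_lit 10) (.e (nat_lit 434248) (nat_lit 28) (.e (nat_lit 573471) (nat_lit 11) (.e (nat_lit 16451) (nat_lit 11) (.e (nat_lit 458789) (nat_lit 23) .nil)))))) (.g (nat_lit 1) (.e (nat_lit 403697) (nat_lit 0) .nil) .nil))) 
(.lf (nat_lit 593653) (.g (nat_lit 4967) (.e (nat_lit 516102) (nat_lit 0) (.e (nat_lit 6983) (nat_lit 377) (.e (nat_lit 2809) (nat_lit 180) (.e (nat_lit 303117) (nat_lit 2) (.e (nat_lit 196666) (nat_lit 13) (.e (nat_lit 65610) (nat_lit 10) (.e (nat_lit 344117) (nat_lit 21) .nil))))))) (.g (nat_lit 1) (.e (nat_lit 405285) (nat_lit 0) .nil) .nil)))) (.nd (nat_lit 9) 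
(.lf (nat_lit 593397) (.g (nat_lit 2103) (.e (nat_lit 540706) (nat_lit 12) (.e (nat_lit 360474) (nat_lit 8) (.e (nat_lit 557093) (nat_lit 12) (.e (nat_lit 164022) (nat_lit 46) (.e (nat_lit 704737) (nat_lit 11) .nil))))) (.g (nat_lit 0) (.e (nat_lit 404674) (nat_lit 0) .nil) .nil))) 
(.lf (nat_lit 593909) (.g (nat_lit 3917) (.e (nat_lit 516117) (nat_lit 1) (.e (nat_lit 164329) (nat_lit 230) (.e (nat_lit 163941) (nat_lit 19) (.e (nat_lit 483341) (nat_lit 9) (.e (nat_lit 426197) (nat_lit 9) (.e (nat_lit 426402) (nat_lit 15) (.e (nat_lit 1788) (nat_lit 119) .nil))))))) (.g (nat_lit 1) (.e (nat_lit 405854) (nat_lit 0) .nil) .nil))))))))) 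
(.nd (nat_lit 4) (.nd (nat_lit 5) (.nd (nat_lit 6) (.nd (nat_lit 7) (.nd (nat_lit 8) 
(.nd (nat_lit 9) 
(.lf (nat_lit 592909) (.g (nat_lit 1860) (.e (nat_lit 532564) (nat_lit 15) (.e (nat_lit 385066) (nat_lit 26) (.e (nat_lit 532529) (nat_lit 9) (.e (nat_lit 336326) (nat_lit 18) (.e (nat_lit 204854) (nat_lit 26) .nil))))) (.g (nat_lit 0) (.e (nat_lit 403202) (nat_lit 0) .nil) .nil))) 
(.lf (nat_lit 593421) (.g (nat_lit 2759) (.e (nat_lit 540706) (nat_lit 12) (.e (nat_lit 360474) (nat_lit 8) (.e (nat_lit 557093) (nat_lit 12) (.e (nat_lit 164023) (nat_lit 46) (.e (nat_lit 704737) (nat_lit 11) (.e (nat_lit 16394) (nat_lit 0) (.e (nat_lit 3262) (nat_lit 198) .nil))))))) (.g (nat_lit 1) (.e (nat_lit 404698) (nat_lit 0) .nil) .nil)))) (.nd (nat_lit 9) 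
(.lf (nat_lit 593165) (.g (nat_lit 1558) (.e (nat_lit 540416) (nat_lit 18) (.e (nat_lit 164398) (nat_lit 256) (.e (nat_lit 57389) (nat_lit 5) (.e (nat_lit 114716) (nat_lit 22) (.e (nat_lit 90158) (nat_lit 11) .nil))))) (.g (nat_lit 0) (.e (nat_lit 403764) (nat_lit 0) .nil) .nil))) 
(.lf (nat_lit 593677) (.g (nat_lit 3152) (.e (nat_lit 516106) (nat_lit 0) (.e (nat_lit 3388) (nat_lit 210) (.e (nat_lit 639020) (nat_lit 16) (.e (nat_lit 65571) (nat_lit 3) (.e (nat_lit 98373) (nat_lit 29) (.e (nat_lit 458496) (nat_lit 3) .nil)))))) (.g (nat_lit 1) (.e (nat_lit 405324) (nat_lit 0) .nil) .nil))))) (.nd (nat_lit 8) (.nd (nat_lit 9) 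
(.lf (nat_lit 593037) (.g (nat_lit 3908) (.e (nat_lit 532568) (nat_lit 16) (.e (nat_lit 401451) (nat_lit 12) (.e (nat_lit 475185) (nat_lit 29) (.e (nat_lit 557097) (nat_lit 13) .nil)))) (.g (nat_lit 0) (.e (nat_lit 403504) (nat_lit 0) .nil) .nil))) 
(.lf (nat_lit 593549) (.g (nat_lit 2425) (.e (nat_lit 540706) (nat_lit 12) (.e (nat_lit 360475) (nat_lit 8) (.e (nat_lit 557090) (nat_lit 12) (.e (nat_lit 164020) (nat_lit 45) (.e (nat_lit 696342) (nat_lit 8) (.e (nat_lit 172041) (nat_lit 0) (.e (nat_lit 3259) (nat_lit 198) .nil))))))) (.g (nat_lit 1) (.e (nat_lit 404877) (nat_lit 0) .nil) .nil)))) (.nd (nat_lit 9) 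
(.lf (nat_lit 593293) (.g (nat_lit 1365) (.e (nat_lit 540416) (nat_lit 33) (.e (nat_lit 491569) (nat_lit 13) (.e (nat_lit 393221) (nat_lit 0) (.e (nat_lit 7936) (nat_lit 362) .nil)))) (.g (nat_lit 0) (.e (nat_lit 404437) (nat_lit 0) .nil) .nil))) 
(.lf (nat_lit 593805) (.g (nat_lit 2472) (.e (nat_lit 516115) (nat_lit 1) (.e (nat_lit 164327) (nat_lit 230) (.e (nat_lit 163873) (nat_lit 3) (.e (nat_lit 204837) (nat_lit 20) (.e (nat_lit 114718) (nat_lit 23) .nil))))) (.g (nat_lit 0) (.e (nat_lit 405625) (nat_lit 0) .nil) .nil)))))) (.nd (nat_lit 7) (.nd (nat_lit 8) (.nd (nat_lit 9) 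
(.lf (nat_lit 592973) (.g (nat_lit 2308) (.e (nat_lit 532566) (nat_lit 15) (.e (nat_lit 385066) (nat_lit 26) (.e (nat_lit 532566) (nat_lit 15) (.e (nat_lit 385068) (nat_lit 26) (.e (nat_lit 532563) (nat_lit 15) (.e (nat_lit 385066) (nat_lit 26) .nil)))))) (.g (nat_lit 1) (.e (nat_lit 403338) (nat_lit 0) .nil) .nil))) 
(.lf (nat_lit 593485) (.g (nat_lit 448) (.e (nat_lit 540706) (nat_lit 12) (.e (nat_lit 360475) (nat_lit 8) (.e (nat_lit 557089) (nat_lit 12) .nil))) (.g (nat_lit 0) (.e (nat_lit 404797) (nat_lit 0) .nil) .nil)))) (.nd (nat_lit 9) 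
(.lf (nat_lit 593229) (.g (nat_lit 2459) (.e (nat_lit 532579) (nat_lit 26) (.e (nat_lit 426108) (nat_lit 1) (.e (nat_lit 164330) (nat_lit 230) (.e (nat_lit 171776) (nat_lit 62) .nil)))) (.g (nat_lit 0) (.e (nat_lit 403886) (nat_lit 0) .nil) .nil))) 
(.lf (nat_lit 593741) (.g (nat_lit 4772) (.e (nat_lit 516115) (nat_lit 1) (.e (nat_lit 164325) (nat_lit 230) (.e (nat_lit 163873) (nat_lit 3) (.e (nat_lit 204813) (nat_lit 9) (.e (nat_lit 426138) (nat_lit 3) (.e (nat_lit 204835) (nat_lit 19) (.e (nat_lit 106539) (nat_lit 12) (.e (nat_lit 57465) (nat_lit 23) .nil)))))))) (.g (nat_lit 1) (.e (nat_lit 405512) (nat_lit 0) .nil) .nil))))) 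
(.nd (nat_lit 8) (.nd (nat_lit 9) 
(.lf (nat_lit 593101) (.g (nat_lit 985) (.e (nat_lit 532569) (nat_lit 16) (.e (nat_lit 401448) (nat_lit 10) (.e (nat_lit 434235) (nat_lit 24) .nil))) (.g (nat_lit 0) (.e (nat_lit 403648) (nat_lit 0) .nil) .nil))) 
(.lf (nat_lit 593613) (.g (nat_lit 3941) (.e (nat_lit 540706) (nat_lit 12) (.e (nat_lit 360475) (nat_lit 8) (.e (nat_lit 557091) (nat_lit 12) (.e (nat_lit 164022) (nat_lit 46) (.e (nat_lit 704738) (nat_lit 11) (.e (nat_lit 16384) (nat_lit 0) (.e (nat_lit 3260) (nat_lit 198) .nil))))))) (.g (nat_lit 1) (.e (nat_lit 404958) (nat_lit 0) .nil) .nil)))) (.nd (nat_lit 9) 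
(.lf (nat_lit 593357) (.g (nat_lit 3071) (.e (nat_lit 540704) (nat_lit 12) (.e (nat_lit 360473) (nat_lit 8) (.e (nat_lit 557093) (nat_lit 12) (.e (nat_lit 164023) (nat_lit 46) (.e (nat_lit 704737) (nat_lit 11) (.e (nat_lit 16388) (nat_lit 0) (.e (nat_lit 3257) (nat_lit 198) .nil))))))) (.g (nat_lit 1) (.e (nat_lit 404553) (nat_lit 0) .nil) .nil))) 
(.lf (nat_lit 593869) (.g (nat_lit 754) (.e (nat_lit 516116) (nat_lit 1) (.e (nat_lit 164330) (nat_lit 230) (.e (nat_lit 163943) (nat_lit 19) .nil))) (.g (nat_lit 0) (.e (nat_lit 405727) (nat_lit 0) .nil) .nil))))))) (.nd (nat_lit 6) (.nd (nat_lit 7) (.nd (nat_lit 8) (.nd (nat_lit 9) 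
(.lf (nat_lit 592941) (.g (nat_lit 1482) (.e (nat_lit 532565) (nat_lit 15) (.e (nat_lit 385068) (nat_lit 26) (.e (nat_lit 532534) (nat_lit 9) (.e (nat_lit 336324) (nat_lit 18) (.e (nat_lit 204882) (nat_lit 32) .nil))))) (.g (nat_lit 0) (.e (nat_lit 403295) (nat_lit 0) .nil) .nil))) 
(.lf (nat_lit 593453) (.g (nat_lit 183) (.e (nat_lit 540706) (nat_lit 12) (.e (nat_lit 360475) (nat_lit 8) (.e (nat_lit 557086) (nat_lit 11) .nil))) (.g (nat_lit 0) (.e (nat_lit 404761) (nat_lit 0) .nil) .nil)))) (.nd (nat_lit 9) 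
(.lf (nat_lit 593197) (.g (nat_lit 2865) (.e (nat_lit 532579) (nat_lit 26) (.e (nat_lit 426098) (nat_lit 1) (.e (nat_lit 164398) (nat_lit 256) (.e (nat_lit 57406) (nat_lit 12) (.e (nat_lit 336398) (nat_lit 27) (.e (nat_lit 426290) (nat_lit 10) (.e (nat_lit 434231) (nat_lit 23) .nil))))))) (.g (nat_lit 1) (.e (nat_lit 403843) (nat_lit 0) .nil) .nil))) 
(.lf (nat_lit 593709) (.g (nat_lit 3105) (.e (nat_lit 516115) (nat_lit 1) (.e (nat_lit 164178) (nat_lit 154) (.e (nat_lit 57379) (nat_lit 3) (.e (nat_lit 98341) (nat_lit 20) (.e (nat_lit 221212) (nat_lit 22) (.e (nat_lit 196670) (nat_lit 14) (.e (nat_lit 73746) (nat_lit 3) .nil))))))) (.g (nat_lit 1) (.e (nat_lit 405409) (nat_lit 0) .nil) .nil))))) (.nd (nat_lit 8) (.nd (nat_lit 9) 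
(.lf (nat_lit 593069) (.g (nat_lit 1019) (.e (nat_lit 532569) (nat_lit 16) (.e (nat_lit 401448) (nat_lit 10) (.e (nat_lit 434219) (nat_lit 19) (.e (nat_lit 499965) (nat_lit 14) .nil)))) (.g (nat_lit 0) (.e (nat_lit 403613) (nat_lit 0) .nil) .nil))) 
(.lf (nat_lit 593581) (.g (nat_lit 3771) (.e (nat_lit 540706) (nat_lit 12) (.e (nat_lit 360475) (nat_lit 8) (.e (nat_lit 557091) (nat_lit 12) (.e (nat_lit 163849) (nat_lit 0) (.e (nat_lit 6420) (nat_lit 341) (.e (nat_lit 163902) (nat_lit 12) (.e (nat_lit 425986) (nat_lit 0) (.e (nat_lit 3262) (nat_lit 198) .nil)))))))) (.g (nat_lit 1) (.e (nat_lit 404913) (nat_lit 0) .nil) .nil)))) 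
(.nd (nat_lit 9) 
(.lf (nat_lit 593325) (.g (nat_lit 4114) (.e (nat_lit 540704) (nat_lit 12) (.e (nat_lit 360466) (nat_lit 3) (.e (nat_lit 516138) (nat_lit 7) (.e (nat_lit 409645) (nat_lit 18) (.e (nat_lit 303112) (nat_lit 0) (.e (nat_lit 3258) (nat_lit 198) .nil)))))) (.g (nat_lit 1) (.e (nat_lit 404510) (nat_lit 0) .nil) .nil))) 
(.lf (nat_lit 593837) (.g (nat_lit 3509) (.e (nat_lit 516115) (nat_lit 1) (.e (nat_lit 164332) (nat_lit 230) (.e (nat_lit 163902) (nat_lit 12) (.e (nat_lit 426566) (nat_lit 34) (.e (nat_lit 393291) (nat_lit 26) (.e (nat_lit 475177) (nat_lit 24) .nil)))))) (.g (nat_lit 1) (.e (nat_lit 405672) (nat_lit 0) .nil) .nil)))))) (.nd (nat_lit 7) (.nd (nat_lit 8) (.nd (nat_lit 9) 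
(.lf (nat_lit 593005) (.g (nat_lit 1966) (.e (nat_lit 532567) (nat_lit 16) (.e (nat_lit 401451) (nat_lit 12) (.e (nat_lit 475184) (nat_lit 29) (.e (nat_lit 557101) (nat_lit 13) (.e (nat_lit 172115) (nat_lit 10) .nil))))) (.g (nat_lit 0) (.e (nat_lit 403431) (nat_lit 0) .nil) .nil))) 
(.lf (nat_lit 593517) (.g (nat_lit 2137) (.e (nat_lit 540706) (nat_lit 12) (.e (nat_lit 360475) (nat_lit 8) (.e (nat_lit 557090) (nat_lit 12) (.e (nat_lit 164020) (nat_lit 45) (.e (nat_lit 696327) (nat_lit 5) (.e (nat_lit 2970) (nat_lit 185) (.e (nat_lit 434235) (nat_lit 24) .nil))))))) (.g (nat_lit 1) (.e (nat_lit 404844) (nat_lit 0) .nil) .nil)))) (.nd (nat_lit 9) 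
(.lf (nat_lit 593261) (.g (nat_lit 2191) (.e (nat_lit 532583) (nat_lit 26) (.e (nat_lit 426011) (nat_lit 0) (.e (nat_lit 3214) (nat_lit 195) (.e (nat_lit 516129) (nat_lit 3) (.e (nat_lit 221210) (nat_lit 22) (.e (nat_lit 196668) (nat_lit 14) (.e (nat_lit 81664) (nat_lit 5) .nil))))))) (.g (nat_lit 1) (.e (nat_lit 404197) (nat_lit 0) .nil) .nil))) 
(.lf (nat_lit 593773) (.g (nat_lit 1076) (.e (nat_lit 516115) (nat_lit 1) (.e (nat_lit 164325) (nat_lit 230) (.e (nat_lit 163904) (nat_lit 12) (.e (nat_lit 426566) (nat_lit 34) (.e (nat_lit 393271) (nat_lit 23) .nil))))) (.g (nat_lit 0) (.e (nat_lit 405549) (nat_lit 0) .nil) .nil))))) (.nd (nat_lit 8) (.nd (nat_lit 9) 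
(.lf (nat_lit 593133) (.g (nat_lit 3438) (.e (nat_lit 532569) (nat_lit 16) (.e (nat_lit 401448) (nat_lit 10) (.e (nat_lit 434247) (nat_lit 28) (.e (nat_lit 573457) (nat_lit 9) (.e (nat_lit 430) (nat_lit 32) (.e (nat_lit 426296) (nat_lit 11) (.e (nat_lit 458789) (nat_lit 23) .nil))))))) (.g (nat_lit 1) (.e (nat_lit 403687) (nat_lit 0) .nil) .nil))) 
(.lf (nat_lit 593645) (.g (nat_lit 825) (.e (nat_lit 516098) (nat_lit 0) (.e (nat_lit 7591) (nat_lit 407) (.e (nat_lit 73748) (nat_lit 3) (.e (nat_lit 516097) (nat_lit 0) .nil)))) (.g (nat_lit 0) (.e (nat_lit 405258) (nat_lit 0) .nil) .nil)))) (.nd (nat_lit 9) 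
(.lf (nat_lit 593389) (.g (nat_lit 2258) (.e (nat_lit 540706) (nat_lit 12) (.e (nat_lit 360474) (nat_lit 8) (.e (nat_lit 557093) (nat_lit 12) (.e (nat_lit 164022) (nat_lit 46) (.e (nat_lit 704735) (nat_lit 11) (.e (nat_lit 16394) (nat_lit 0) (.e (nat_lit 3262) (nat_lit 198) .nil))))))) (.g (nat_lit 1) (.e (nat_lit 404666) (nat_lit 0) .nil) .nil))) 
(.lf (nat_lit 593901) (.g (nat_lit 3554) (.e (nat_lit 516117) (nat_lit 1) (.e (nat_lit 164329) (nat_lit 230) (.e (nat_lit 163902) (nat_lit 12) (.e (nat_lit 426568) (nat_lit 34) (.e (nat_lit 393234) (nat_lit 17) (.e (nat_lit 7376) (nat_lit 389) (.e (nat_lit 8319) (nat_lit 64) .nil))))))) (.g (nat_lit 1) (.e (nat_lit 405834) (nat_lit 0) .nil) .nil)))))))) 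
(.nd (nat_lit 5) (.nd (nat_lit 6) (.nd (nat_lit 7) (.nd (nat_lit 8) (.nd (nat_lit 9) 
(.lf (nat_lit 592925) (.g (nat_lit 2861) (.e (nat_lit 532564) (nat_lit 15) (.e (nat_lit 385107) (nat_lit 51) (.e (nat_lit 794665) (nat_lit 22) (.e (nat_lit 196656) (nat_lit 11) (.e (nat_lit 16448) (nat_lit 10) (.e (nat_lit 434231) (nat_lit 23) .nil)))))) (.g (nat_lit 1) (.e (nat_lit 403230) (nat_lit 0) .nil) .nil))) 
(.lf (nat_lit 593437) (.g (nat_lit 2024) (.e (nat_lit 540706) (nat_lit 12) (.e (nat_lit 360474) (nat_lit 8) (.e (nat_lit 557094) (nat_lit 12) (.e (nat_lit 164022) (nat_lit 46) (.e (nat_lit 704737) (nat_lit 11) (.e (nat_lit 16385) (nat_lit 0) (.e (nat_lit 3259) (nat_lit 198) .nil))))))) (.g (nat_lit 1) (.e (nat_lit 404717) (nat_lit 0) .nil) .nil)))) (.nd (nat_lit 9) 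
(.lf (nat_lit 593181) (.g (nat_lit 1334) (.e (nat_lit 532578) (nat_lit 26) (.e (nat_lit 426100) (nat_lit 1) (.e (nat_lit 164399) (nat_lit 256) (.e (nat_lit 57445) (nat_lit 19) .nil)))) (.g (nat_lit 0) (.e (nat_lit 403806) (nat_lit 0) .nil) .nil))) 
(.lf (nat_lit 593693) (.g (nat_lit 3937) (.e (nat_lit 516106) (nat_lit 0) (.e (nat_lit 7095) (nat_lit 380) (.e (nat_lit 164339) (nat_lit 232) (.e (nat_lit 77) (nat_lit 0) (.e (nat_lit 3308) (nat_lit 202) (.e (nat_lit 573482) (nat_lit 13) (.e (nat_lit 65619) (nat_lit 10) (.e (nat_lit 344117) (nat_lit 21) .nil)))))))) (.g (nat_lit 1) (.e (nat_lit 405373) (nat_lit 0) .nil) .nil))))) 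
(.nd (nat_lit 8) (.nd (nat_lit 9) 
(.lf (nat_lit 593053) (.g (nat_lit 1166) (.e (nat_lit 532569) (nat_lit 16) (.e (nat_lit 401434) (nat_lit 9) (.e (nat_lit 426125) (nat_lit 2) (.e (nat_lit 196661) (nat_lit 12) .nil)))) (.g (nat_lit 0) (.e (nat_lit 403542) (nat_lit 0) .nil) .nil))) 
(.lf (nat_lit 593565) (.g (nat_lit 2474) (.e (nat_lit 540706) (nat_lit 12) (.e (nat_lit 360475) (nat_lit 8) (.e (nat_lit 557090) (nat_lit 12) (.e (nat_lit 164020) (nat_lit 45) (.e (nat_lit 704256) (nat_lit 9) (.e (nat_lit 180246) (nat_lit 6) .nil)))))) (.g (nat_lit 1) (.e (nat_lit 404893) (nat_lit 0) .nil) .nil)))) (.nd (nat_lit 9) 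
(.lf (nat_lit 593309) (.g (nat_lit 2089) (.e (nat_lit 540703) (nat_lit 11) (.e (nat_lit 352313) (nat_lit 23) (.e (nat_lit 98350) (nat_lit 24) (.e (nat_lit 409645) (nat_lit 18) (.e (nat_lit 303112) (nat_lit 0) .nil))))) (.g (nat_lit 0) (.e (nat_lit 404481) (nat_lit 0) .nil) .nil))) 
(.lf (nat_lit 593821) (.g (nat_lit 1955) (.e (nat_lit 516115) (nat_lit 1) (.e (nat_lit 164327) (nat_lit 230) (.e (nat_lit 163903) (nat_lit 12) (.e (nat_lit 426564) (nat_lit 34) .nil)))) (.g (nat_lit 0) (.e (nat_lit 405642) (nat_lit 0) .nil) .nil)))))) (.nd (nat_lit 7) (.nd (nat_lit 8) (.nd (nat_lit 9) 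
(.lf (nat_lit 592989) (.g (nat_lit 3672) (.e (nat_lit 532566) (nat_lit 15) (.e (nat_lit 385094) (nat_lit 49) (.e (nat_lit 778317) (nat_lit 3) (.e (nat_lit 57476) (nat_lit 28) (.e (nat_lit 557067) (nat_lit 9) (.e (nat_lit 3021) (nat_lit 187) (.e (nat_lit 450579) (nat_lit 5) .nil))))))) (.g (nat_lit 1) (.e (nat_lit 403370) (nat_lit 0) .nil) .nil))) 
(.lf (nat_lit 593501) (.g (nat_lit 3237) (.e (nat_lit 540706) (nat_lit 12) (.e (nat_lit 360475) (nat_lit 8) (.e (nat_lit 557090) (nat_lit 12) (.e (nat_lit 163843) (nat_lit 0) (.e (nat_lit 6418) (nat_lit 341) .nil))))) (.g (nat_lit 0) (.e (nat_lit 404821) (nat_lit 0) .nil) .nil)))) (.nd (nat_lit 9) 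
(.lf (nat_lit 593245) (.g (nat_lit 2516) (.e (nat_lit 532579) (nat_lit 26) (.e (nat_lit 426200) (nat_lit 9) (.e (nat_lit 426566) (nat_lit 34) (.e (nat_lit 393254) (nat_lit 18) (.e (nat_lit 164329) (nat_lit 230) (.e (nat_lit 163850) (nat_lit 0) (.e (nat_lit 3252) (nat_lit 197) .nil))))))) (.g (nat_lit 1) (.e (nat_lit 404083) (nat_lit 0) .nil) .nil))) 
(.lf (nat_lit 593757) (.g (nat_lit 3638) (.e (nat_lit 516115) (nat_lit 1) (.e (nat_lit 164325) (nat_lit 230) (.e (nat_lit 163903) (nat_lit 12) (.e (nat_lit 426479) (nat_lit 27) (.e (nat_lit 336428) (nat_lit 29) (.e (nat_lit 442374) (nat_lit 0) (.e (nat_lit 1800) (nat_lit 119) .nil))))))) (.g (nat_lit 1) (.e (nat_lit 405531) (nat_lit 0) .nil) .nil))))) (.nd (nat_lit 8) (.nd (nat_lit 9) 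
(.lf (nat_lit 593117) (.g (nat_lit 4106) (.e (nat_lit 532569) (nat_lit 16) (.e (nat_lit 401448) (nat_lit 10) (.e (nat_lit 434244) (nat_lit 28) (.e (nat_lit 573471) (nat_lit 11) (.e (nat_lit 16452) (nat_lit 11) (.e (nat_lit 458789) (nat_lit 23) .nil)))))) (.g (nat_lit 1) (.e (nat_lit 403670) (nat_lit 0) .nil) .nil))) 
(.lf (nat_lit 593629) (.g (nat_lit 948) (.e (nat_lit 540724) (nat_lit 28) (.e (nat_lit 442379) (nat_lit 0) (.e (nat_lit 7936) (nat_lit 359) (.e (nat_lit 24641) (nat_lit 10) (.e (nat_lit 344123) (nat_lit 24) .nil))))) (.g (nat_lit 0) (.e (nat_lit 405159) (nat_lit 0) .nil) .nil)))) (.nd (nat_lit 9) 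
(.lf (nat_lit 593373) (.g (nat_lit 481) (.e (nat_lit 540706) (nat_lit 12) (.e (nat_lit 360451) (nat_lit 0) (.e (nat_lit 7695) (nat_lit 412) .nil))) (.g (nat_lit 0) (.e (nat_lit 404618) (nat_lit 0) .nil) .nil))) 
(.lf (nat_lit 593885) (.g (nat_lit 328) (.e (nat_lit 516117) (nat_lit 1) (.e (nat_lit 164305) (nat_lit 226) (.e (nat_lit 2439) (nat_lit 157) .nil))) (.g (nat_lit 0) (.e (nat_lit 405796) (nat_lit 0) .nil) .nil))))))) (.nd (nat_lit 6) (.nd (nat_lit 7) (.nd (nat_lit 8) (.nd (nat_lit 9) 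
(.lf (nat_lit 592957) (.g (nat_lit 2630) (.e (nat_lit 532566) (nat_lit 15) (.e (nat_lit 385066) (nat_lit 26) (.e (nat_lit 532532) (nat_lit 9) (.e (nat_lit 336324) (nat_lit 18) (.e (nat_lit 204880) (nat_lit 32) (.e (nat_lit 385066) (nat_lit 26) .nil)))))) (.g (nat_lit 1) (.e (nat_lit 403320) (nat_lit 0) .nil) .nil))) 
(.lf (nat_lit 593469) (.g (nat_lit 1316) (.e (nat_lit 540706) (nat_lit 12) (.e (nat_lit 360475) (nat_lit 8) (.e (nat_lit 557087) (nat_lit 11) (.e (nat_lit 24617) (nat_lit 7) .nil)))) (.g (nat_lit 0) (.e (nat_lit 404781) (nat_lit 0) .nil) .nil)))) (.nd (nat_lit 9) 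
(.lf (nat_lit 593213) (.g (nat_lit 2139) (.e (nat_lit 532579) (nat_lit 26) (.e (nat_lit 426100) (nat_lit 1) (.e (nat_lit 164403) (nat_lit 256) (.e (nat_lit 57405) (nat_lit 12) (.e (nat_lit 336432) (nat_lit 30) .nil))))) (.g (nat_lit 0) (.e (nat_lit 403861) (nat_lit 0) .nil) .nil))) 
(.lf (nat_lit 593725) (.g (nat_lit 3444) (.e (nat_lit 516115) (nat_lit 1) (.e (nat_lit 164325) (nat_lit 230) (.e (nat_lit 163861) (nat_lit 1) (.e (nat_lit 164332) (nat_lit 230) (.e (nat_lit 163847) (nat_lit 0) (.e (nat_lit 3223) (nat_lit 196) (.e (nat_lit 524320) (nat_lit 12) (.e (nat_lit 458496) (nat_lit 3) .nil)))))))) (.g (nat_lit 1) (.e (nat_lit 405463) (nat_lit 0) .nil) .nil))))) 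
(.nd (nat_lit 8) (.nd (nat_lit 9) 
(.lf (nat_lit 593085) (.g (nat_lit 2445) (.e (nat_lit 532569) (nat_lit 16) (.e (nat_lit 401448) (nat_lit 10) (.e (nat_lit 434231) (nat_lit 23) (.e (nat_lit 532490) (nat_lit 0) (.e (nat_lit 7936) (nat_lit 362) .nil))))) (.g (nat_lit 0) (.e (nat_lit 403630) (nat_lit 0) .nil) .nil))) 
(.lf (nat_lit 593597) (.g (nat_lit 3526) (.e (nat_lit 540706) (nat_lit 12) (.e (nat_lit 360475) (nat_lit 8) (.e (nat_lit 557091) (nat_lit 12) (.e (nat_lit 164022) (nat_lit 46) (.e (nat_lit 704736) (nat_lit 11) (.e (nat_lit 16393) (nat_lit 0) (.e (nat_lit 3262) (nat_lit 198) .nil))))))) (.g (nat_lit 1) (.e (nat_lit 404942) (nat_lit 0) .nil) .nil)))) (.nd (nat_lit 9) 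
(.lf (nat_lit 593341) (.g (nat_lit 629) (.e (nat_lit 540704) (nat_lit 12) (.e (nat_lit 360467) (nat_lit 3) (.e (nat_lit 516142) (nat_lit 8) .nil))) (.g (nat_lit 0) (.e (nat_lit 404535) (nat_lit 0) .nil) .nil))) 
(.lf (nat_lit 593853) (.g (nat_lit 1329) (.e (nat_lit 516115) (nat_lit 1) (.e (nat_lit 164399) (nat_lit 256) (.e (nat_lit 57390) (nat_lit 5) (.e (nat_lit 114716) (nat_lit 22) (.e (nat_lit 90160) (nat_lit 11) .nil))))) (.g (nat_lit 0) (.e (nat_lit 405691) (nat_lit 0) .nil) .nil)))))) (.nd (nat_lit 7) (.nd (nat_lit 8) (.nd (nat_lit 9) 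
(.lf (nat_lit 593021) (.g (nat_lit 1002) (.e (nat_lit 532567) (nat_lit 16) (.e (nat_lit 401459) (nat_lit 13) (.e (nat_lit 483344) (nat_lit 17) .nil))) (.g (nat_lit 0) (.e (nat_lit 403464) (nat_lit 0) .nil) .nil))) 
(.lf (nat_lit 593533) (.g (nat_lit 2033) (.e (nat_lit 540706) (nat_lit 12) (.e (nat_lit 360475) (nat_lit 8) (.e (nat_lit 557090) (nat_lit 12) (.e (nat_lit 164020) (nat_lit 45) (.e (nat_lit 696330) (nat_lit 5) .nil))))) (.g (nat_lit 0) (.e (nat_lit 404861) (nat_lit 0) .nil) .nil)))) (.nd (nat_lit 9) 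
(.lf (nat_lit 593277) (.g (nat_lit 1633) (.e (nat_lit 532583) (nat_lit 26) (.e (nat_lit 426196) (nat_lit 9) (.e (nat_lit 426562) (nat_lit 33) (.e (nat_lit 385041) (nat_lit 19) (.e (nat_lit 164292) (nat_lit 224) (.e (nat_lit 164096) (nat_lit 86) .nil)))))) (.g (nat_lit 1) (.e (nat_lit 404240) (nat_lit 0) .nil) .nil))) 
(.lf (nat_lit 593789) (.g (nat_lit 3797) (.e (nat_lit 516115) (nat_lit 1) (.e (nat_lit 164325) (nat_lit 230) (.e (nat_lit 163907) (nat_lit 12) (.e (nat_lit 426566) (nat_lit 34) (.e (nat_lit 393291) (nat_lit 26) (.e (nat_lit 475179) (nat_lit 24) .nil)))))) (.g (nat_lit 1) (.e (nat_lit 405569) (nat_lit 0) .nil) .nil))))) (.nd (nat_lit 8) (.nd (nat_lit 9) 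
(.lf (nat_lit 593149) (.g (nat_lit 1940) (.e (nat_lit 532569) (nat_lit 16) (.e (nat_lit 401451) (nat_lit 12) (.e (nat_lit 475185) (nat_lit 29) (.e (nat_lit 557096) (nat_lit 13) .nil)))) (.g (nat_lit 0) (.e (nat_lit 403720) (nat_lit 0) .nil) .nil))) 
(.lf (nat_lit 593661) (.g (nat_lit 2830) (.e (nat_lit 516102) (nat_lit 0) (.e (nat_lit 6989) (nat_lit 377) (.e (nat_lit 2777) (nat_lit 178) (.e (nat_lit 286733) (nat_lit 2) (.e (nat_lit 90133) (nat_lit 9) .nil))))) (.g (nat_lit 0) (.e (nat_lit 405295) (nat_lit 0) .nil) .nil)))) (.nd (nat_lit 9) 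
(.lf (nat_lit 593405) (.g (nat_lit 2433) (.e (nat_lit 540706) (nat_lit 12) (.e (nat_lit 360474) (nat_lit 8) (.e (nat_lit 557093) (nat_lit 12) (.e (nat_lit 164022) (nat_lit 46) (.e (nat_lit 704737) (nat_lit 11) (.e (nat_lit 16396) (nat_lit 0) (.e (nat_lit 3258) (nat_lit 198) .nil))))))) (.g (nat_lit 1) (.e (nat_lit 404682) (nat_lit 0) .nil) .nil))) 
(.lf (nat_lit 593917) (.g (nat_lit 1808) (.e (nat_lit 516117) (nat_lit 1) (.e (nat_lit 164330) (nat_lit 230) (.e (nat_lit 163902) (nat_lit 12) (.e (nat_lit 426489) (nat_lit 27) .nil)))) (.g (nat_lit 0) (.e (nat_lit 405864) (nat_lit 0) .nil) .nil))))))))))) (.nd (nat_lit 2) (.nd (nat_lit 3) (.nd (nat_lit 4) (.nd (nat_lit 5) (.nd (nat_lit 6) (.nd (nat_lit 7) (.nd (nat_lit 8) (.nd (nat_lit 9) 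
(.lf (nat_lit 592899) (.g (nat_lit 6188) (.e (nat_lit 532563) (nat_lit 15) (.e (nat_lit 385093) (nat_lit 49) (.e (nat_lit 778317) (nat_lit 3) (.e (nat_lit 57476) (nat_lit 28) (.e (nat_lit 557067) (nat_lit 9) (.e (nat_lit 3022) (nat_lit 187) (.e (nat_lit 450580) (nat_lit 5) .nil))))))) (.g (nat_lit 1) (.e (nat_lit 403127) (nat_lit 0) .nil) .nil))) 
(.lf (nat_lit 593411) (.g (nat_lit 3487) (.e (nat_lit 540706) (nat_lit 12) (.e (nat_lit 360474) (nat_lit 8) (.e (nat_lit 557093) (nat_lit 12) (.e (nat_lit 164022) (nat_lit 46) (.e (nat_lit 704738) (nat_lit 11) (.e (nat_lit 16385) (nat_lit 0) (.e (nat_lit 3262) (nat_lit 198) .nil))))))) (.g (nat_lit 1) (.e (nat_lit 404688) (nat_lit 0) .nil) .nil)))) (.nd (nat_lit 9) 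
(.lf (nat_lit 593155) (.g (nat_lit 3016) (.e (nat_lit 532569) (nat_lit 16) (.e (nat_lit 401452) (nat_lit 12) (.e (nat_lit 475185) (nat_lit 29) (.e (nat_lit 557098) (nat_lit 13) (.e (nat_lit 172115) (nat_lit 10) .nil))))) (.g (nat_lit 0) (.e (nat_lit 403729) (nat_lit 0) .nil) .nil))) 
(.lf (nat_lit 593667) (.g (nat_lit 2919) (.e (nat_lit 516102) (nat_lit 0) (.e (nat_lit 6989) (nat_lit 377) (.e (nat_lit 2777) (nat_lit 178) (.e (nat_lit 286735) (nat_lit 3) (.e (nat_lit 98389) (nat_lit 33) (.e (nat_lit 491560) (nat_lit 10) (.e (nat_lit 344120) (nat_lit 21) .nil))))))) (.g (nat_lit 1) (.e (nat_lit 405301) (nat_lit 0) .nil) .nil))))) (.nd (nat_lit 8) (.nd (nat_lit 9) 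
(.lf (nat_lit 593027) (.g (nat_lit 2046) (.e (nat_lit 532568) (nat_lit 16) (.e (nat_lit 401437) (nat_lit 9) (.e (nat_lit 426131) (nat_lit 3) (.e (nat_lit 204885) (nat_lit 33) (.e (nat_lit 401448) (nat_lit 10) .nil))))) (.g (nat_lit 0) (.e (nat_lit 403474) (nat_lit 0) .nil) .nil))) 
(.lf (nat_lit 593539) (.g (nat_lit 2979) (.e (nat_lit 540706) (nat_lit 12) (.e (nat_lit 360475) (nat_lit 8) (.e (nat_lit 557090) (nat_lit 12) (.e (nat_lit 164020) (nat_lit 45) (.e (nat_lit 696330) (nat_lit 5) (.e (nat_lit 2965) (nat_lit 185) (.e (nat_lit 434235) (nat_lit 24) .nil))))))) (.g (nat_lit 1) (.e (nat_lit 404867) (nat_lit 0) .nil) .nil)))) (.nd (nat_lit 9) 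
(.lf (nat_lit 593283) (.g (nat_lit 1161) (.e (nat_lit 540416) (nat_lit 26) (.e (nat_lit 426190) (nat_lit 9) (.e (nat_lit 426562) (nat_lit 33) (.e (nat_lit 385041) (nat_lit 19) (.e (nat_lit 164293) (nat_lit 224) .nil))))) (.g (nat_lit 0) (.e (nat_lit 404296) (nat_lit 0) .nil) .nil))) 
(.lf (nat_lit 593795) (.g (nat_lit 596) (.e (nat_lit 516115) (nat_lit 1) (.e (nat_lit 164325) (nat_lit 230) (.e (nat_lit 163938) (nat_lit 18) .nil))) (.g (nat_lit 0) (.e (nat_lit 405587) (nat_lit 0) .nil) .nil)))))) (.nd (nat_lit 7) (.nd (nat_lit 8) (.nd (nat_lit 9) 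
(.lf (nat_lit 592963) (.g (nat_lit 3060) (.e (nat_lit 532566) (nat_lit 15) (.e (nat_lit 385066) (nat_lit 26) (.e (nat_lit 532534) (nat_lit 9) (.e (nat_lit 336324) (nat_lit 18) (.e (nat_lit 204882) (nat_lit 32) (.e (nat_lit 385068) (nat_lit 26) .nil)))))) (.g (nat_lit 1) (.e (nat_lit 403326) (nat_lit 0) .nil) .nil))) 
(.lf (nat_lit 593475) (.g (nat_lit 2089) (.e (nat_lit 540706) (nat_lit 12) (.e (nat_lit 360475) (nat_lit 8) (.e (nat_lit 557087) (nat_lit 11) (.e (nat_lit 24620) (nat_lit 8) .nil)))) (.g (nat_lit 0) (.e (nat_lit 404787) (nat_lit 0) .nil) .nil)))) (.nd (nat_lit 9) 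
(.lf (nat_lit 593219) (.g (nat_lit 2253) (.e (nat_lit 532579) (nat_lit 26) (.e (nat_lit 426100) (nat_lit 1) (.e (nat_lit 164403) (nat_lit 256) (.e (nat_lit 57409) (nat_lit 12) (.e (nat_lit 336432) (nat_lit 30) .nil))))) (.g (nat_lit 0) (.e (nat_lit 403867) (nat_lit 0) .nil) .nil))) 
(.lf (nat_lit 593731) (.g (nat_lit 3690) (.e (nat_lit 516115) (nat_lit 1) (.e (nat_lit 164325) (nat_lit 230) (.e (nat_lit 163873) (nat_lit 3) (.e (nat_lit 204809) (nat_lit 9) (.e (nat_lit 426139) (nat_lit 3) (.e (nat_lit 204832) (nat_lit 19) (.e (nat_lit 106538) (nat_lit 12) (.e (nat_lit 57465) (nat_lit 23) .nil)))))))) (.g (nat_lit 1) (.e (nat_lit 405501) (nat_lit 0) .nil) .nil))))) 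
(.nd (nat_lit 8) (.nd (nat_lit 9) 
(.lf (nat_lit 593091) (.g (nat_lit 4562) (.e (nat_lit 532569) (nat_lit 16) (.e (nat_lit 401448) (nat_lit 10) (.e (nat_lit 434231) (nat_lit 23) (.e (nat_lit 532569) (nat_lit 16) (.e (nat_lit 401446) (nat_lit 10) (.e (nat_lit 434233) (nat_lit 23) .nil)))))) (.g (nat_lit 1) (.e (nat_lit 403637) (nat_lit 0) .nil) .nil))) 
(.lf (nat_lit 593603) (.g (nat_lit 3545) (.e (nat_lit 540706) (nat_lit 12) (.e (nat_lit 360475) (nat_lit 8) (.e (nat_lit 557091) (nat_lit 12) (.e (nat_lit 164022) (nat_lit 46) (.e (nat_lit 704737) (nat_lit 11) (.e (nat_lit 16385) (nat_lit 0) (.e (nat_lit 3260) (nat_lit 198) .nil))))))) (.g (nat_lit 1) (.e (nat_lit 404948) (nat_lit 0) .nil) .nil)))) (.nd (nat_lit 9) 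
(.lf (nat_lit 593347) (.g (nat_lit 3239) (.e (nat_lit 540704) (nat_lit 12) (.e (nat_lit 360473) (nat_lit 8) (.e (nat_lit 557087) (nat_lit 11) (.e (nat_lit 24617) (nat_lit 7) (.e (nat_lit 327424) (nat_lit 10) .nil))))) (.g (nat_lit 0) (.e (nat_lit 404543) (nat_lit 0) .nil) .nil))) 
(.lf (nat_lit 593859) (.g (nat_lit 937) (.e (nat_lit 516116) (nat_lit 1) (.e (nat_lit 164329) (nat_lit 230) (.e (nat_lit 163902) (nat_lit 12) (.e (nat_lit 426479) (nat_lit 27) .nil)))) (.g (nat_lit 0) (.e (nat_lit 405708) (nat_lit 0) .nil) .nil))))))) (.nd (nat_lit 6) (.nd (nat_lit 7) (.nd (nat_lit 8) (.nd (nat_lit 9) 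
(.lf (nat_lit 592931) (.g (nat_lit 3222) (.e (nat_lit 532565) (nat_lit 15) (.e (nat_lit 385065) (nat_lit 26) (.e (nat_lit 532535) (nat_lit 9) (.e (nat_lit 336295) (nat_lit 15) .nil)))) (.g (nat_lit 0) (.e (nat_lit 403285) (nat_lit 0) .nil) .nil))) 
(.lf (nat_lit 593443) (.g (nat_lit 2629) (.e (nat_lit 540706) (nat_lit 12) (.e (nat_lit 360474) (nat_lit 8) (.e (nat_lit 557094) (nat_lit 12) (.e (nat_lit 164022) (nat_lit 46) (.e (nat_lit 704738) (nat_lit 11) (.e (nat_lit 16384) (nat_lit 0) (.e (nat_lit 3259) (nat_lit 198) .nil))))))) (.g (nat_lit 1) (.e (nat_lit 404723) (nat_lit 0) .nil) .nil)))) (.nd (nat_lit 9) 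
(.lf (nat_lit 593187) (.g (nat_lit 2847) (.e (nat_lit 532578) (nat_lit 26) (.e (nat_lit 426107) (nat_lit 1) (.e (nat_lit 164403) (nat_lit 256) (.e (nat_lit 57406) (nat_lit 12) (.e (nat_lit 336398) (nat_lit 27) .nil))))) (.g (nat_lit 0) (.e (nat_lit 403813) (nat_lit 0) .nil) .nil))) 
(.lf (nat_lit 593699) (.g (nat_lit 4129) (.e (nat_lit 516108) (nat_lit 0) (.e (nat_lit 6986) (nat_lit 377) (.e (nat_lit 2819) (nat_lit 181) (.e (nat_lit 311315) (nat_lit 3) .nil)))) (.g (nat_lit 0) (.e (nat_lit 405384) (nat_lit 0) .nil) .nil))))) (.nd (nat_lit 8) (.nd (nat_lit 9) 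
(.lf (nat_lit 593059) (.g (nat_lit 3118) (.e (nat_lit 532569) (nat_lit 16) (.e (nat_lit 401434) (nat_lit 9) (.e (nat_lit 426125) (nat_lit 2) (.e (nat_lit 196661) (nat_lit 12) (.e (nat_lit 57749) (nat_lit 201) (.e (nat_lit 2939) (nat_lit 184) (.e (nat_lit 425984) (nat_lit 0) (.e (nat_lit 3233) (nat_lit 197) .nil)))))))) (.g (nat_lit 1) (.e (nat_lit 403549) (nat_lit 0) .nil) .nil))) 
(.lf (nat_lit 593571) (.g (nat_lit 3910) (.e (nat_lit 540706) (nat_lit 12) (.e (nat_lit 360475) (nat_lit 8) (.e (nat_lit 557091) (nat_lit 12) (.e (nat_lit 163843) (nat_lit 0) (.e (nat_lit 6418) (nat_lit 341) (.e (nat_lit 163908) (nat_lit 12) (.e (nat_lit 426003) (nat_lit 0) (.e (nat_lit 3262) (nat_lit 198) .nil)))))))) (.g (nat_lit 1) (.e (nat_lit 404903) (nat_lit 0) .nil) .nil)))) 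
(.nd (nat_lit 9) 
(.lf (nat_lit 593315) (.g (nat_lit 1395) (.e (nat_lit 540703) (nat_lit 11) (.e (nat_lit 352315) (nat_lit 23) (.e (nat_lit 98350) (nat_lit 24) (.e (nat_lit 409646) (nat_lit 18) .nil)))) (.g (nat_lit 0) (.e (nat_lit 404487) (nat_lit 0) .nil) .nil))) 
(.lf (nat_lit 593827) (.g (nat_lit 1682) (.e (nat_lit 516115) (nat_lit 1) (.e (nat_lit 164327) (nat_lit 230) (.e (nat_lit 163903) (nat_lit 12) (.e (nat_lit 426568) (nat_lit 34) .nil)))) (.g (nat_lit 0) (.e (nat_lit 405648) (nat_lit 0) .nil) .nil)))))) (.nd (nat_lit 7) (.nd (nat_lit 8) (.nd (nat_lit 9) 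
(.lf (nat_lit 592995) (.g (nat_lit 1989) (.e (nat_lit 532567) (nat_lit 16) (.e (nat_lit 401438) (nat_lit 9) (.e (nat_lit 426131) (nat_lit 3) (.e (nat_lit 204885) (nat_lit 33) (.e (nat_lit 401448) (nat_lit 10) .nil))))) (.g (nat_lit 0) (.e (nat_lit 403415) (nat_lit 0) .nil) .nil))) 
(.lf (nat_lit 593507) (.g (nat_lit 2252) (.e (nat_lit 540706) (nat_lit 12) (.e (nat_lit 360475) (nat_lit 8) (.e (nat_lit 557090) (nat_lit 12) (.e (nat_lit 163850) (nat_lit 0) .nil)))) (.g (nat_lit 0) (.e (nat_lit 404830) (nat_lit 0) .nil) .nil)))) (.nd (nat_lit 9) 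
(.lf (nat_lit 593251) (.g (nat_lit 939) (.e (nat_lit 532582) (nat_lit 26) (.e (nat_lit 426099) (nat_lit 1) (.e (nat_lit 164398) (nat_lit 256) (.e (nat_lit 57447) (nat_lit 19) .nil)))) (.g (nat_lit 0) (.e (nat_lit 404181) (nat_lit 0) .nil) .nil))) 
(.lf (nat_lit 593763) (.g (nat_lit 5116) (.e (nat_lit 516115) (nat_lit 1) (.e (nat_lit 164325) (nat_lit 230) (.e (nat_lit 163903) (nat_lit 12) (.e (nat_lit 426566) (nat_lit 34) (.e (nat_lit 393273) (nat_lit 23) (.e (nat_lit 426364) (nat_lit 15) (.e (nat_lit 1802) (nat_lit 119) .nil))))))) (.g (nat_lit 1) (.e (nat_lit 405538) (nat_lit 0) .nil) .nil))))) (.nd (nat_lit 8) (.nd (nat_lit 9) 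
(.lf (nat_lit 593123) (.g (nat_lit 2642) (.e (nat_lit 532569) (nat_lit 16) (.e (nat_lit 401448) (nat_lit 10) (.e (nat_lit 434245) (nat_lit 28) (.e (nat_lit 573471) (nat_lit 11) (.e (nat_lit 16453) (nat_lit 11) .nil))))) (.g (nat_lit 0) (.e (nat_lit 403676) (nat_lit 0) .nil) .nil))) 
(.lf (nat_lit 593635) (.g (nat_lit 3747) (.e (nat_lit 516097) (nat_lit 0) (.e (nat_lit 3393) (nat_lit 210) (.e (nat_lit 639020) (nat_lit 16) (.e (nat_lit 65571) (nat_lit 3) (.e (nat_lit 98372) (nat_lit 29) (.e (nat_lit 458496) (nat_lit 3) .nil)))))) (.g (nat_lit 1) (.e (nat_lit 405205) (nat_lit 0) .nil) .nil)))) (.nd (nat_lit 9) 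
(.lf (nat_lit 593379) (.g (nat_lit 2279) (.e (nat_lit 540706) (nat_lit 12) (.e (nat_lit 360474) (nat_lit 8) (.e (nat_lit 557089) (nat_lit 12) (.e (nat_lit 164017) (nat_lit 44) .nil)))) (.g (nat_lit 0) (.e (nat_lit 404651) (nat_lit 0) .nil) .nil))) 
(.lf (nat_lit 593891) (.g (nat_lit 2356) (.e (nat_lit 516117) (nat_lit 1) (.e (nat_lit 164322) (nat_lit 230) (.e (nat_lit 163902) (nat_lit 12) (.e (nat_lit 426568) (nat_lit 34) (.e (nat_lit 393294) (nat_lit 26) .nil))))) (.g (nat_lit 0) (.e (nat_lit 405816) (nat_lit 0) .nil) .nil)))))))) (.nd (nat_lit 5) (.nd (nat_lit 6) (.nd (nat_lit 7) (.nd (nat_lit 8) (.nd (nat_lit 9) 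
(.lf (nat_lit 592915) (.g (nat_lit 1182) (.e (nat_lit 532564) (nat_lit 15) (.e (nat_lit 385066) (nat_lit 26) (.e (nat_lit 532534) (nat_lit 9) (.e (nat_lit 336326) (nat_lit 18) .nil)))) (.g (nat_lit 0) (.e (nat_lit 403208) (nat_lit 0) .nil) .nil))) 
(.lf (nat_lit 593427) (.g (nat_lit 1967) (.e (nat_lit 540706) (nat_lit 12) (.e (nat_lit 360474) (nat_lit 8) (.e (nat_lit 557094) (nat_lit 12) (.e (nat_lit 164022) (nat_lit 46) (.e (nat_lit 704735) (nat_lit 11) (.e (nat_lit 16394) (nat_lit 0) (.e (nat_lit 3262) (nat_lit 198) .nil))))))) (.g (nat_lit 1) (.e (nat_lit 404707) (nat_lit 0) .nil) .nil)))) (.nd (nat_lit 9) 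
(.lf (nat_lit 593171) (.g (nat_lit 935) (.e (nat_lit 540416) (nat_lit 18) (.e (nat_lit 164399) (nat_lit 256) (.e (nat_lit 57390) (nat_lit 5) (.e (nat_lit 114716) (nat_lit 22) .nil)))) (.g (nat_lit 0) (.e (nat_lit 403770) (nat_lit 0) .nil) .nil))) 
(.lf (nat_lit 593683) (.g (nat_lit 1855) (.e (nat_lit 516106) (nat_lit 0) (.e (nat_lit 3459) (nat_lit 216) (.e (nat_lit 688139) (nat_lit 5) (.e (nat_lit 3085) (nat_lit 191) (.e (nat_lit 483337) (nat_lit 9) (.e (nat_lit 426287) (nat_lit 10) (.e (nat_lit 442112) (nat_lit 21) .nil))))))) (.g (nat_lit 1) (.e (nat_lit 405341) (nat_lit 0) .nil) .nil))))) (.nd (nat_lit 8) (.nd (nat_lit 9) 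
(.lf (nat_lit 593043) (.g (nat_lit 2607) (.e (nat_lit 532568) (nat_lit 16) (.e (nat_lit 401454) (nat_lit 12) (.e (nat_lit 475185) (nat_lit 29) (.e (nat_lit 557097) (nat_lit 13) (.e (nat_lit 172115) (nat_lit 10) .nil))))) (.g (nat_lit 0) (.e (nat_lit 403523) (nat_lit 0) .nil) .nil))) 
(.lf (nat_lit 593555) (.g (nat_lit 2900) (.e (nat_lit 540706) (nat_lit 12) (.e (nat_lit 360475) (nat_lit 8) (.e (nat_lit 557090) (nat_lit 12) (.e (nat_lit 164020) (nat_lit 45) (.e (nat_lit 696343) (nat_lit 8) (.e (nat_lit 172041) (nat_lit 0) (.e (nat_lit 3259) (nat_lit 198) .nil))))))) (.g (nat_lit 1) (.e (nat_lit 404883) (nat_lit 0) .nil) .nil)))) (.nd (nat_lit 9) 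
(.lf (nat_lit 593299) (.g (nat_lit 1770) (.e (nat_lit 540684) (nat_lit 3) (.e (nat_lit 114718) (nat_lit 23) (.e (nat_lit 98384) (nat_lit 32) (.e (nat_lit 483072) (nat_lit 26) .nil)))) (.g (nat_lit 0) (.e (nat_lit 404451) (nat_lit 0) .nil) .nil))) 
(.lf (nat_lit 593811) (.g (nat_lit 1653) (.e (nat_lit 516115) (nat_lit 1) (.e (nat_lit 164327) (nat_lit 230) (.e (nat_lit 163875) (nat_lit 3) (.e (nat_lit 204838) (nat_lit 20) .nil)))) (.g (nat_lit 0) (.e (nat_lit 405631) (nat_lit 0) .nil) .nil)))))) (.nd (nat_lit 7) (.nd (nat_lit 8) (.nd (nat_lit 9) 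
(.lf (nat_lit 592979) (.g (nat_lit 2431) (.e (nat_lit 532566) (nat_lit 15) (.e (nat_lit 385068) (nat_lit 26) (.e (nat_lit 532530) (nat_lit 9) (.e (nat_lit 336326) (nat_lit 18) (.e (nat_lit 204881) (nat_lit 32) .nil))))) (.g (nat_lit 0) (.e (nat_lit 403346) (nat_lit 0) .nil) .nil))) 
(.lf (nat_lit 593491) (.g (nat_lit 4340) (.e (nat_lit 540706) (nat_lit 12) (.e (nat_lit 360475) (nat_lit 8) (.e (nat_lit 557089) (nat_lit 12) (.e (nat_lit 163849) (nat_lit 0) (.e (nat_lit 6420) (nat_lit 341) (.e (nat_lit 163902) (nat_lit 12) (.e (nat_lit 425985) (nat_lit 0) (.e (nat_lit 3262) (nat_lit 198) .nil)))))))) (.g (nat_lit 1) (.e (nat_lit 404803) (nat_lit 0) .nil) .nil)))) 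
(.nd (nat_lit 9) 
(.lf (nat_lit 593235) (.g (nat_lit 897) (.e (nat_lit 532579) (nat_lit 26) (.e (nat_lit 426124) (nat_lit 2) (.e (nat_lit 196624) (nat_lit 9) .nil))) (.g (nat_lit 0) (.e (nat_lit 403938) (nat_lit 0) .nil) .nil))) 
(.lf (nat_lit 593747) (.g (nat_lit 3569) (.e (nat_lit 516115) (nat_lit 1) (.e (nat_lit 164325) (nat_lit 230) (.e (nat_lit 163873) (nat_lit 3) (.e (nat_lit 204813) (nat_lit 9) (.e (nat_lit 426139) (nat_lit 3) (.e (nat_lit 204833) (nat_lit 19) (.e (nat_lit 106539) (nat_lit 12) (.e (nat_lit 57466) (nat_lit 23) .nil)))))))) (.g (nat_lit 1) (.e (nat_lit 405519) (nat_lit 0) .nil) .nil))))) 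
(.nd (nat_lit 8) (.nd (nat_lit 9) 
(.lf (nat_lit 593107) (.g (nat_lit 1500) (.e (nat_lit 532569) (nat_lit 16) (.e (nat_lit 401448) (nat_lit 10) (.e (nat_lit 434244) (nat_lit 28) (.e (nat_lit 573451) (nat_lit 9) .nil)))) (.g (nat_lit 0) (.e (nat_lit 403659) (nat_lit 0) .nil) .nil))) 
(.lf (nat_lit 593619) (.g (nat_lit 4125) (.e (nat_lit 540706) (nat_lit 12) (.e (nat_lit 360475) (nat_lit 8) (.e (nat_lit 557091) (nat_lit 12) (.e (nat_lit 164022) (nat_lit 46) (.e (nat_lit 704738) (nat_lit 11) (.e (nat_lit 16390) (nat_lit 0) (.e (nat_lit 3260) (nat_lit 198) .nil))))))) (.g (nat_lit 1) (.e (nat_lit 404964) (nat_lit 0) .nil) .nil)))) (.nd (nat_lit 9) 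
(.lf (nat_lit 593363) (.g (nat_lit 3137) (.e (nat_lit 540704) (nat_lit 12) (.e (nat_lit 360475) (nat_lit 8) (.e (nat_lit 557091) (nat_lit 12) (.e (nat_lit 164022) (nat_lit 46) (.e (nat_lit 704629) (nat_lit 9) .nil))))) (.g (nat_lit 0) (.e (nat_lit 404559) (nat_lit 0) .nil) .nil))) 
(.lf (nat_lit 593875) (.g (nat_lit 1754) (.e (nat_lit 516116) (nat_lit 1) (.e (nat_lit 164398) (nat_lit 256) (.e (nat_lit 57373) (nat_lit 2) (.e (nat_lit 90174) (nat_lit 14) (.e (nat_lit 180243) (nat_lit 5) .nil))))) (.g (nat_lit 0) (.e (nat_lit 405737) (nat_lit 0) .nil) .nil))))))) (.nd (nat_lit 6) (.nd (nat_lit 7) (.nd (nat_lit 8) (.nd (nat_lit 9) 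
(.lf (nat_lit 592947) (.g (nat_lit 1849) (.e (nat_lit 532565) (nat_lit 15) (.e (nat_lit 385105) (nat_lit 50) (.e (nat_lit 786450) (nat_lit 15) (.e (nat_lit 1853) (nat_lit 124) .nil)))) (.g (nat_lit 0) (.e (nat_lit 403302) (nat_lit 0) .nil) .nil))) 
(.lf (nat_lit 593459) (.g (nat_lit 1615) (.e (nat_lit 540706) (nat_lit 12) (.e (nat_lit 360475) (nat_lit 8) (.e (nat_lit 557086) (nat_lit 11) (.e (nat_lit 24663) (nat_lit 14) (.e (nat_lit 401409) (nat_lit 0) .nil))))) (.g (nat_lit 0) (.e (nat_lit 404770) (nat_lit 0) .nil) .nil)))) (.nd (nat_lit 9) 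
(.lf (nat_lit 593203) (.g (nat_lit 2245) (.e (nat_lit 532579) (nat_lit 26) (.e (nat_lit 426098) (nat_lit 1) (.e (nat_lit 164403) (nat_lit 256) (.e (nat_lit 57406) (nat_lit 12) (.e (nat_lit 336433) (nat_lit 30) .nil))))) (.g (nat_lit 0) (.e (nat_lit 403849) (nat_lit 0) .nil) .nil))) 
(.lf (nat_lit 593715) (.g (nat_lit 397) (.e (nat_lit 516115) (nat_lit 1) (.e (nat_lit 164179) (nat_lit 154) (.e (nat_lit 57408) (nat_lit 12) .nil))) (.g (nat_lit 0) (.e (nat_lit 405417) (nat_lit 0) .nil) .nil))))) (.nd (nat_lit 8) (.nd (nat_lit 9) 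
(.lf (nat_lit 593075) (.g (nat_lit 625) (.e (nat_lit 532569) (nat_lit 16) (.e (nat_lit 401448) (nat_lit 10) (.e (nat_lit 434230) (nat_lit 23) .nil))) (.g (nat_lit 0) (.e (nat_lit 403620) (nat_lit 0) .nil) .nil))) 
(.lf (nat_lit 593587) (.g (nat_lit 3161) (.e (nat_lit 540706) (nat_lit 12) (.e (nat_lit 360475) (nat_lit 8) (.e (nat_lit 557091) (nat_lit 12) (.e (nat_lit 164022) (nat_lit 46) (.e (nat_lit 704628) (nat_lit 9) (.e (nat_lit 452) (nat_lit 33) (.e (nat_lit 434235) (nat_lit 24) .nil))))))) (.g (nat_lit 1) (.e (nat_lit 404927) (nat_lit 0) .nil) .nil)))) (.nd (nat_lit 9) 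
(.lf (nat_lit 593331) (.g (nat_lit 2196) (.e (nat_lit 540704) (nat_lit 12) (.e (nat_lit 360466) (nat_lit 3) (.e (nat_lit 516139) (nat_lit 7) (.e (nat_lit 409648) (nat_lit 18) (.e (nat_lit 303108) (nat_lit 0) (.e (nat_lit 3258) (nat_lit 198) .nil)))))) (.g (nat_lit 1) (.e (nat_lit 404516) (nat_lit 0) .nil) .nil))) 
(.lf (nat_lit 593843) (.g (nat_lit 1992) (.e (nat_lit 516115) (nat_lit 1) (.e (nat_lit 164332) (nat_lit 230) (.e (nat_lit 163905) (nat_lit 12) (.e (nat_lit 426509) (nat_lit 27) (.e (nat_lit 336412) (nat_lit 27) .nil))))) (.g (nat_lit 0) (.e (nat_lit 405678) (nat_lit 0) .nil) .nil)))))) (.nd (nat_lit 7) (.nd (nat_lit 8) (.nd (nat_lit 9) 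
(.lf (nat_lit 593011) (.g (nat_lit 3717) (.e (nat_lit 532567) (nat_lit 16) (.e (nat_lit 401453) (nat_lit 12) (.e (nat_lit 475184) (nat_lit 29) (.e (nat_lit 557098) (nat_lit 13) (.e (nat_lit 172115) (nat_lit 10) (.e (nat_lit 434231) (nat_lit 23) .nil)))))) (.g (nat_lit 1) (.e (nat_lit 403443) (nat_lit 0) .nil) .nil))) 
(.lf (nat_lit 593523) (.g (nat_lit 1989) (.e (nat_lit 540706) (nat_lit 12) (.e (nat_lit 360475) (nat_lit 8) (.e (nat_lit 557090) (nat_lit 12) (.e (nat_lit 164020) (nat_lit 45) (.e (nat_lit 696328) (nat_lit 5) (.e (nat_lit 2894) (nat_lit 184) (.e (nat_lit 426032) (nat_lit 0) (.e (nat_lit 3262) (nat_lit 198) .nil)))))))) (.g (nat_lit 1) (.e (nat_lit 404850) (nat_lit 0) .nil) .nil)))) 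
(.nd (nat_lit 9) 
(.lf (nat_lit 593267) (.g (nat_lit 2827) (.e (nat_lit 532583) (nat_lit 26) (.e (nat_lit 426100) (nat_lit 1) (.e (nat_lit 164398) (nat_lit 256) (.e (nat_lit 57411) (nat_lit 12) (.e (nat_lit 336432) (nat_lit 30) .nil))))) (.g (nat_lit 0) (.e (nat_lit 404203) (nat_lit 0) .nil) .nil))) 
(.lf (nat_lit 593779) (.g (nat_lit 3668) (.e (nat_lit 516115) (nat_lit 1) (.e (nat_lit 164325) (nat_lit 230) (.e (nat_lit 163905) (nat_lit 12) (.e (nat_lit 426566) (nat_lit 34) (.e (nat_lit 393273) (nat_lit 23) (.e (nat_lit 426392) (nat_lit 15) (.e (nat_lit 1796) (nat_lit 119) .nil))))))) (.g (nat_lit 1) (.e (nat_lit 405555) (nat_lit 0) .nil) .nil))))) (.nd (nat_lit 8) (.nd (nat_lit 9) 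
(.lf (nat_lit 593139) (.g (nat_lit 2693) (.e (nat_lit 532569) (nat_lit 16) (.e (nat_lit 401448) (nat_lit 10) (.e (nat_lit 434248) (nat_lit 28) (.e (nat_lit 573469) (nat_lit 11) (.e (nat_lit 16451) (nat_lit 11) .nil))))) (.g (nat_lit 0) (.e (nat_lit 403695) (nat_lit 0) .nil) .nil))) 
(.lf (nat_lit 593651) (.g (nat_lit 479) (.e (nat_lit 516100) (nat_lit 0) (.e (nat_lit 3605) (nat_lit 225) (.e (nat_lit 761906) (nat_lit 16) .nil))) (.g (nat_lit 0) (.e (nat_lit 405280) (nat_lit 0) .nil) .nil)))) (.nd (nat_lit 9) 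
(.lf (nat_lit 593395) (.g (nat_lit 1978) (.e (nat_lit 540706) (nat_lit 12) (.e (nat_lit 360474) (nat_lit 8) (.e (nat_lit 557093) (nat_lit 12) (.e (nat_lit 164022) (nat_lit 46) (.e (nat_lit 704736) (nat_lit 11) (.e (nat_lit 16390) (nat_lit 0) (.e (nat_lit 3260) (nat_lit 198) .nil))))))) (.g (nat_lit 1) (.e (nat_lit 404672) (nat_lit 0) .nil) .nil))) 
(.lf (nat_lit 593907) (.g (nat_lit 2204) (.e (nat_lit 516117) (nat_lit 1) (.e (nat_lit 164329) (nat_lit 230) (.e (nat_lit 163941) (nat_lit 19) (.e (nat_lit 483337) (nat_lit 9) (.e (nat_lit 426314) (nat_lit 12) .nil))))) (.g (nat_lit 0) (.e (nat_lit 405852) (nat_lit 0) .nil) .nil))))))))) (.nd (nat_lit 4) (.nd (nat_lit 5) (.nd (nat_lit 6) (.nd (nat_lit 7) (.nd (nat_lit 8) (.nd (nat_lit 9) 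
(.lf (nat_lit 592907) (.g (nat_lit 1371) (.e (nat_lit 532563) (nat_lit 15) (.e (nat_lit 385109) (nat_lit 51) (.e (nat_lit 794647) (nat_lit 20) .nil))) (.g (nat_lit 0) (.e (nat_lit 403177) (nat_lit 0) .nil) .nil))) 
(.lf (nat_lit 593419) (.g (nat_lit 2647) (.e (nat_lit 540706) (nat_lit 12) (.e (nat_lit 360474) (nat_lit 8) (.e (nat_lit 557093) (nat_lit 12) (.e (nat_lit 164023) (nat_lit 46) (.e (nat_lit 704735) (nat_lit 11) (.e (nat_lit 16395) (nat_lit 0) (.e (nat_lit 3262) (nat_lit 198) .nil))))))) (.g (nat_lit 1) (.e (nat_lit 404696) (nat_lit 0) .nil) .nil)))) (.nd (nat_lit 9) 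
(.lf (nat_lit 593163) (.g (nat_lit 2401) (.e (nat_lit 540416) (nat_lit 16) (.e (nat_lit 401454) (nat_lit 12) (.e (nat_lit 475183) (nat_lit 29) (.e (nat_lit 557100) (nat_lit 13) (.e (nat_lit 172106) (nat_lit 10) .nil))))) (.g (nat_lit 0) (.e (nat_lit 403745) (nat_lit 0) .nil) .nil))) 
(.lf (nat_lit 593675) (.g (nat_lit 3072) (.e (nat_lit 516106) (nat_lit 0) (.e (nat_lit 3386) (nat_lit 210) (.e (nat_lit 639020) (nat_lit 16) (.e (nat_lit 65571) (nat_lit 3) (.e (nat_lit 98373) (nat_lit 29) (.e (nat_lit 458496) (nat_lit 3) .nil)))))) (.g (nat_lit 1) (.e (nat_lit 405322) (nat_lit 0) .nil) .nil))))) (.nd (nat_lit 8) (.nd (nat_lit 9) 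
(.lf (nat_lit 593035) (.g (nat_lit 2595) (.e (nat_lit 532568) (nat_lit 16) (.e (nat_lit 401451) (nat_lit 12) (.e (nat_lit 475184) (nat_lit 29) (.e (nat_lit 557100) (nat_lit 13) (.e (nat_lit 172106) (nat_lit 10) .nil))))) (.g (nat_lit 0) (.e (nat_lit 403497) (nat_lit 0) .nil) .nil))) 
(.lf (nat_lit 593547) (.g (nat_lit 2614) (.e (nat_lit 540706) (nat_lit 12) (.e (nat_lit 360475) (nat_lit 8) (.e (nat_lit 557090) (nat_lit 12) (.e (nat_lit 164020) (nat_lit 45) (.e (nat_lit 704256) (nat_lit 5) (.e (nat_lit 2936) (nat_lit 184) (.e (nat_lit 425984) (nat_lit 0) (.e (nat_lit 3262) (nat_lit 198) .nil)))))))) (.g (nat_lit 1) (.e (nat_lit 404875) (nat_lit 0) .nil) .nil)))) 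
(.nd (nat_lit 9) 
(.lf (nat_lit 593291) (.g (nat_lit 1521) (.e (nat_lit 540416) (nat_lit 29) (.e (nat_lit 450563) (nat_lit 0) (.e (nat_lit 6830) (nat_lit 367) (.e (nat_lit 57427) (nat_lit 15) (.e (nat_lit 368384) (nat_lit 5) .nil))))) (.g (nat_lit 0) (.e (nat_lit 404366) (nat_lit 0) .nil) .nil))) 
(.lf (nat_lit 593803) (.g (nat_lit 1867) (.e (nat_lit 516115) (nat_lit 1) (.e (nat_lit 164327) (nat_lit 230) (.e (nat_lit 163868) (nat_lit 2) (.e (nat_lit 196656) (nat_lit 11) .nil)))) (.g (nat_lit 0) (.e (nat_lit 405623) (nat_lit 0) .nil) .nil)))))) (.nd (nat_lit 7) (.nd (nat_lit 8) (.nd (nat_lit 9) 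
(.lf (nat_lit 592971) (.g (nat_lit 2400) (.e (nat_lit 532566) (nat_lit 15) (.e (nat_lit 385066) (nat_lit 26) (.e (nat_lit 532566) (nat_lit 15) (.e (nat_lit 385066) (nat_lit 26) (.e (nat_lit 532563) (nat_lit 15) (.e (nat_lit 385066) (nat_lit 26) .nil)))))) (.g (nat_lit 1) (.e (nat_lit 403335) (nat_lit 0) .nil) .nil))) 
(.lf (nat_lit 593483) (.g (nat_lit 4249) (.e (nat_lit 540706) (nat_lit 12) (.e (nat_lit 360475) (nat_lit 8) (.e (nat_lit 557087) (nat_lit 11) (.e (nat_lit 24665) (nat_lit 14) (.e (nat_lit 401417) (nat_lit 0) .nil))))) (.g (nat_lit 0) (.e (nat_lit 404795) (nat_lit 0) .nil) .nil)))) (.nd (nat_lit 9) 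
(.lf (nat_lit 593227) (.g (nat_lit 1797) (.e (nat_lit 532579) (nat_lit 26) (.e (nat_lit 426107) (nat_lit 1) (.e (nat_lit 164403) (nat_lit 256) (.e (nat_lit 57406) (nat_lit 12) (.e (nat_lit 336433) (nat_lit 30) .nil))))) (.g (nat_lit 0) (.e (nat_lit 403878) (nat_lit 0) .nil) .nil))) 
(.lf (nat_lit 593739) (.g (nat_lit 4132) (.e (nat_lit 516115) (nat_lit 1) (.e (nat_lit 164325) (nat_lit 230) (.e (nat_lit 163873) (nat_lit 3) (.e (nat_lit 204809) (nat_lit 9) (.e (nat_lit 426139) (nat_lit 3) (.e (nat_lit 204835) (nat_lit 19) (.e (nat_lit 106539) (nat_lit 12) (.e (nat_lit 57465) (nat_lit 23) .nil)))))))) (.g (nat_lit 1) (.e (nat_lit 405510) (nat_lit 0) .nil) .nil))))) 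
(.nd (nat_lit 8) (.nd (nat_lit 9) 
(.lf (nat_lit 593099) (.g (nat_lit 1351) (.e (nat_lit 532569) (nat_lit 16) (.e (nat_lit 401448) (nat_lit 10) (.e (nat_lit 434234) (nat_lit 23) (.e (nat_lit 532490) (nat_lit 0) (.e (nat_lit 7936) (nat_lit 362) .nil))))) (.g (nat_lit 0) (.e (nat_lit 403646) (nat_lit 0) .nil) .nil))) 
(.lf (nat_lit 593611) (.g (nat_lit 2897) (.e (nat_lit 540706) (nat_lit 12) (.e (nat_lit 360475) (nat_lit 8) (.e (nat_lit 557091) (nat_lit 12) (.e (nat_lit 164022) (nat_lit 46) (.e (nat_lit 704738) (nat_lit 11) (.e (nat_lit 16384) (nat_lit 0) (.e (nat_lit 3258) (nat_lit 198) .nil))))))) (.g (nat_lit 1) (.e (nat_lit 404956) (nat_lit 0) .nil) .nil)))) (.nd (nat_lit 9) 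
(.lf (nat_lit 593355) (.g (nat_lit 2991) (.e (nat_lit 540704) (nat_lit 12) (.e (nat_lit 360473) (nat_lit 8) (.e (nat_lit 557091) (nat_lit 12) (.e (nat_lit 164022) (nat_lit 46) (.e (nat_lit 704737) (nat_lit 11) (.e (nat_lit 16388) (nat_lit 0) (.e (nat_lit 3257) (nat_lit 198) .nil))))))) (.g (nat_lit 1) (.e (nat_lit 404551) (nat_lit 0) .nil) .nil))) 
(.lf (nat_lit 593867) (.g (nat_lit 3721) (.e (nat_lit 516116) (nat_lit 1) (.e (nat_lit 164330) (nat_lit 230) (.e (nat_lit 163941) (nat_lit 19) (.e (nat_lit 483341) (nat_lit 9) (.e (nat_lit 426197) (nat_lit 9) (.e (nat_lit 426402) (nat_lit 15) (.e (nat_lit 1788) (nat_lit 119) .nil))))))) (.g (nat_lit 1) (.e (nat_lit 405723) (nat_lit 0) .nil) .nil))))))) 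
(.nd (nat_lit 6) (.nd (nat_lit 7) (.nd (nat_lit 8) (.nd (nat_lit 9) 
(.lf (nat_lit 592939) (.g (nat_lit 1025) (.e (nat_lit 532565) (nat_lit 15) (.e (nat_lit 385068) (nat_lit 26) (.e (nat_lit 532533) (nat_lit 9) .nil))) (.g (nat_lit 0) (.e (nat_lit 403293) (nat_lit 0) .nil) .nil))) 
(.lf (nat_lit 593451) (.g (nat_lit 3487) (.e (nat_lit 540706) (nat_lit 12) (.e (nat_lit 360475) (nat_lit 8) (.e (nat_lit 557085) (nat_lit 11) (.e (nat_lit 24665) (nat_lit 14) (.e (nat_lit 401409) (nat_lit 0) (.e (nat_lit 3262) (nat_lit 198) .nil)))))) (.g (nat_lit 1) (.e (nat_lit 404759) (nat_lit 0) .nil) .nil)))) (.nd (nat_lit 9) 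
(.lf (nat_lit 593195) (.g (nat_lit 738) (.e (nat_lit 532578) (nat_lit 26) (.e (nat_lit 426200) (nat_lit 9) (.e (nat_lit 426562) (nat_lit 33) .nil))) (.g (nat_lit 0) (.e (nat_lit 403829) (nat_lit 0) .nil) .nil))) 
(.lf (nat_lit 593707) (.g (nat_lit 2001) (.e (nat_lit 516115) (nat_lit 1) (.e (nat_lit 164177) (nat_lit 154) (.e (nat_lit 57377) (nat_lit 3) (.e (nat_lit 98341) (nat_lit 20) (.e (nat_lit 221212) (nat_lit 22) .nil))))) (.g (nat_lit 0) (.e (nat_lit 405406) (nat_lit 0) .nil) .nil))))) (.nd (nat_lit 8) (.nd (nat_lit 9) 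
(.lf (nat_lit 593067) (.g (nat_lit 564) (.e (nat_lit 532569) (nat_lit 16) (.e (nat_lit 401448) (nat_lit 10) (.e (nat_lit 434211) (nat_lit 18) .nil))) (.g (nat_lit 0) (.e (nat_lit 403611) (nat_lit 0) .nil) .nil))) 
(.lf (nat_lit 593579) (.g (nat_lit 3962) (.e (nat_lit 540706) (nat_lit 12) (.e (nat_lit 360475) (nat_lit 8) (.e (nat_lit 557091) (nat_lit 12) (.e (nat_lit 163847) (nat_lit 0) (.e (nat_lit 6420) (nat_lit 341) (.e (nat_lit 163908) (nat_lit 12) (.e (nat_lit 426003) (nat_lit 0) (.e (nat_lit 3262) (nat_lit 198) .nil)))))))) (.g (nat_lit 1) (.e (nat_lit 404911) (nat_lit 0) .nil) .nil)))) 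
(.nd (nat_lit 9) 
(.lf (nat_lit 593323) (.g (nat_lit 661) (.e (nat_lit 540704) (nat_lit 12) (.e (nat_lit 360452) (nat_lit 0) (.e (nat_lit 7280) (nat_lit 386) .nil))) (.g (nat_lit 0) (.e (nat_lit 404504) (nat_lit 0) .nil) .nil))) 
(.lf (nat_lit 593835) (.g (nat_lit 492) (.e (nat_lit 516115) (nat_lit 1) (.e (nat_lit 164330) (nat_lit 230) (.e (nat_lit 163902) (nat_lit 12) .nil))) (.g (nat_lit 0) (.e (nat_lit 405667) (nat_lit 0) .nil) .nil)))))) (.nd (nat_lit 7) (.nd (nat_lit 8) (.nd (nat_lit 9) 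
(.lf (nat_lit 593003) (.g (nat_lit 2190) (.e (nat_lit 532567) (nat_lit 16) (.e (nat_lit 401451) (nat_lit 12) (.e (nat_lit 475184) (nat_lit 29) (.e (nat_lit 557098) (nat_lit 13) (.e (nat_lit 172115) (nat_lit 10) .nil))))) (.g (nat_lit 0) (.e (nat_lit 403429) (nat_lit 0) .nil) .nil))) 
(.lf (nat_lit 593515) (.g (nat_lit 2110) (.e (nat_lit 540706) (nat_lit 12) (.e (nat_lit 360475) (nat_lit 8) (.e (nat_lit 557090) (nat_lit 12) (.e (nat_lit 164020) (nat_lit 45) (.e (nat_lit 696327) (nat_lit 5) (.e (nat_lit 2888) (nat_lit 184) (.e (nat_lit 426032) (nat_lit 0) (.e (nat_lit 3262) (nat_lit 198) .nil)))))))) (.g (nat_lit 1) (.e (nat_lit 404842) (nat_lit 0) .nil) .nil)))) 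
(.nd (nat_lit 9) 
(.lf (nat_lit 593259) (.g (nat_lit 1970) (.e (nat_lit 532582) (nat_lit 26) (.e (nat_lit 426107) (nat_lit 1) (.e (nat_lit 164403) (nat_lit 256) (.e (nat_lit 57445) (nat_lit 19) .nil)))) (.g (nat_lit 0) (.e (nat_lit 404189) (nat_lit 0) .nil) .nil))) 
(.lf (nat_lit 593771) (.g (nat_lit 1908) (.e (nat_lit 516115) (nat_lit 1) (.e (nat_lit 164325) (nat_lit 230) (.e (nat_lit 163903) (nat_lit 12) (.e (nat_lit 426568) (nat_lit 34) (.e (nat_lit 401152) (nat_lit 26) .nil))))) (.g (nat_lit 0) (.e (nat_lit 405547) (nat_lit 0) .nil) .nil))))) (.nd (nat_lit 8) (.nd (nat_lit 9) 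
(.lf (nat_lit 593131) (.g (nat_lit 418) (.e (nat_lit 532569) (nat_lit 16) (.e (nat_lit 401448) (nat_lit 10) (.e (nat_lit 434247) (nat_lit 28) .nil))) (.g (nat_lit 0) (.e (nat_lit 403684) (nat_lit 0) .nil) .nil))) 
(.lf (nat_lit 593643) (.g (nat_lit 3161) (.e (nat_lit 516098) (nat_lit 0) (.e (nat_lit 7306) (nat_lit 388) (.e (nat_lit 3062) (nat_lit 190) (.e (nat_lit 475185) (nat_lit 29) (.e (nat_lit 557105) (nat_lit 14) (.e (nat_lit 188160) (nat_lit 35) (.e (nat_lit 57464) (nat_lit 23) .nil))))))) (.g (nat_lit 1) (.e (nat_lit 405254) (nat_lit 0) .nil) .nil)))) (.nd (nat_lit 9) 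
(.lf (nat_lit 593387) (.g (nat_lit 2180) (.e (nat_lit 540706) (nat_lit 12) (.e (nat_lit 360474) (nat_lit 8) (.e (nat_lit 557093) (nat_lit 12) (.e (nat_lit 164022) (nat_lit 46) (.e (nat_lit 704629) (nat_lit 9) .nil))))) (.g (nat_lit 0) (.e (nat_lit 404662) (nat_lit 0) .nil) .nil))) 
(.lf (nat_lit 593899) (.g (nat_lit 4009) (.e (nat_lit 516117) (nat_lit 1) (.e (nat_lit 164329) (nat_lit 230) (.e (nat_lit 163902) (nat_lit 12) (.e (nat_lit 426568) (nat_lit 34) (.e (nat_lit 393234) (nat_lit 17) (.e (nat_lit 7374) (nat_lit 389) (.e (nat_lit 8320) (nat_lit 64) .nil))))))) (.g (nat_lit 1) (.e (nat_lit 405832) (nat_lit 0) .nil) .nil)))))))) 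
(.nd (nat_lit 5) (.nd (nat_lit 6) (.nd (nat_lit 7) (.nd (nat_lit 8) (.nd (nat_lit 9) 
(.lf (nat_lit 592923) (.g (nat_lit 941) (.e (nat_lit 532564) (nat_lit 15) (.e (nat_lit 385068) (nat_lit 26) (.e (nat_lit 532566) (nat_lit 15) .nil))) (.g (nat_lit 0) (.e (nat_lit 403216) (nat_lit 0) .nil) .nil))) 
(.lf (nat_lit 593435) (.g (nat_lit 1889) (.e (nat_lit 540706) (nat_lit 12) (.e (nat_lit 360474) (nat_lit 8) (.e (nat_lit 557094) (nat_lit 12) (.e (nat_lit 164022) (nat_lit 46) (.e (nat_lit 704737) (nat_lit 11) (.e (nat_lit 16384) (nat_lit 0) (.e (nat_lit 3260) (nat_lit 198) .nil))))))) (.g (nat_lit 1) (.e (nat_lit 404715) (nat_lit 0) .nil) .nil)))) (.nd (nat_lit 9) 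
(.lf (nat_lit 593179) (.g (nat_lit 2387) (.e (nat_lit 532578) (nat_lit 26) (.e (nat_lit 426100) (nat_lit 1) (.e (nat_lit 164398) (nat_lit 256) (.e (nat_lit 57447) (nat_lit 19) (.e (nat_lit 393282) (nat_lit 24) .nil))))) (.g (nat_lit 0) (.e (nat_lit 403804) (nat_lit 0) .nil) .nil))) 
(.lf (nat_lit 593691) (.g (nat_lit 4260) (.e (nat_lit 516106) (nat_lit 0) (.e (nat_lit 7008) (nat_lit 377) (.e (nat_lit 2789) (nat_lit 179) (.e (nat_lit 294966) (nat_lit 15) (.e (nat_lit 3308) (nat_lit 202) (.e (nat_lit 573482) (nat_lit 13) (.e (nat_lit 65619) (nat_lit 10) (.e (nat_lit 344117) (nat_lit 21) .nil)))))))) (.g (nat_lit 1) (.e (nat_lit 405371) (nat_lit 0) .nil) .nil))))) 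
(.nd (nat_lit 8) (.nd (nat_lit 9) 
(.lf (nat_lit 593051) (.g (nat_lit 3278) (.e (nat_lit 532569) (nat_lit 16) (.e (nat_lit 401434) (nat_lit 9) (.e (nat_lit 426125) (nat_lit 2) (.e (nat_lit 196632) (nat_lit 9) (.e (nat_lit 1673) (nat_lit 116) .nil))))) (.g (nat_lit 0) (.e (nat_lit 403540) (nat_lit 0) .nil) .nil))) 
(.lf (nat_lit 593563) (.g (nat_lit 3187) (.e (nat_lit 540706) (nat_lit 12) (.e (nat_lit 360475) (nat_lit 8) (.e (nat_lit 557090) (nat_lit 12) (.e (nat_lit 164020) (nat_lit 45) (.e (nat_lit 696344) (nat_lit 8) (.e (nat_lit 172055) (nat_lit 0) (.e (nat_lit 3258) (nat_lit 198) .nil))))))) (.g (nat_lit 1) (.e (nat_lit 404891) (nat_lit 0) .nil) .nil)))) (.nd (nat_lit 9) 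
(.lf (nat_lit 593307) (.g (nat_lit 909) (.e (nat_lit 540703) (nat_lit 11) (.e (nat_lit 352309) (nat_lit 21) (.e (nat_lit 57687) (nat_lit 156) .nil))) (.g (nat_lit 0) (.e (nat_lit 404476) (nat_lit 0) .nil) .nil))) 
(.lf (nat_lit 593819) (.g (nat_lit 2090) (.e (nat_lit 516115) (nat_lit 1) (.e (nat_lit 164327) (nat_lit 230) (.e (nat_lit 163903) (nat_lit 12) (.e (nat_lit 426491) (nat_lit 27) .nil)))) (.g (nat_lit 0) (.e (nat_lit 405640) (nat_lit 0) .nil) .nil)))))) (.nd (nat_lit 7) (.nd (nat_lit 8) (.nd (nat_lit 9) 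
(.lf (nat_lit 592987) (.g (nat_lit 3098) (.e (nat_lit 532566) (nat_lit 15) (.e (nat_lit 385093) (nat_lit 49) (.e (nat_lit 778317) (nat_lit 3) (.e (nat_lit 57477) (nat_lit 28) (.e (nat_lit 557067) (nat_lit 9) (.e (nat_lit 3022) (nat_lit 187) (.e (nat_lit 450579) (nat_lit 5) .nil))))))) (.g (nat_lit 1) (.e (nat_lit 403361) (nat_lit 0) .nil) .nil))) 
(.lf (nat_lit 593499) (.g (nat_lit 2954) (.e (nat_lit 540706) (nat_lit 12) (.e (nat_lit 360475) (nat_lit 8) (.e (nat_lit 557090) (nat_lit 12) (.e (nat_lit 163843) (nat_lit 0) (.e (nat_lit 6255) (nat_lit 337) .nil))))) (.g (nat_lit 0) (.e (nat_lit 404818) (nat_lit 0) .nil) .nil)))) (.nd (nat_lit 9) 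
(.lf (nat_lit 593243) (.g (nat_lit 2112) (.e (nat_lit 532579) (nat_lit 26) (.e (nat_lit 426190) (nat_lit 9) (.e (nat_lit 426566) (nat_lit 34) (.e (nat_lit 393253) (nat_lit 18) (.e (nat_lit 164329) (nat_lit 230) .nil))))) (.g (nat_lit 0) (.e (nat_lit 404052) (nat_lit 0) .nil) .nil))) 
(.lf (nat_lit 593755) (.g (nat_lit 4443) (.e (nat_lit 516115) (nat_lit 1) (.e (nat_lit 164325) (nat_lit 230) (.e (nat_lit 163902) (nat_lit 12) (.e (nat_lit 426566) (nat_lit 34) (.e (nat_lit 393296) (nat_lit 26) (.e (nat_lit 475178) (nat_lit 24) .nil)))))) (.g (nat_lit 1) (.e (nat_lit 405529) (nat_lit 0) .nil) .nil))))) (.nd (nat_lit 8) (.nd (nat_lit 9) 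
(.lf (nat_lit 593115) (.g (nat_lit 4409) (.e (nat_lit 532569) (nat_lit 16) (.e (nat_lit 401448) (nat_lit 10) (.e (nat_lit 434244) (nat_lit 28) (.e (nat_lit 573471) (nat_lit 11) (.e (nat_lit 16449) (nat_lit 10) (.e (nat_lit 434233) (nat_lit 23) .nil)))))) (.g (nat_lit 1) (.e (nat_lit 403668) (nat_lit 0) .nil) .nil))) 
(.lf (nat_lit 593627) (.g (nat_lit 4237) (.e (nat_lit 540711) (nat_lit 16) (.e (nat_lit 401451) (nat_lit 12) (.e (nat_lit 475185) (nat_lit 29) (.e (nat_lit 557109) (nat_lit 15) .nil)))) (.g (nat_lit 0) (.e (nat_lit 404976) (nat_lit 0) .nil) .nil)))) (.nd (nat_lit 9) 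
(.lf (nat_lit 593371) (.g (nat_lit 3044) (.e (nat_lit 540705) (nat_lit 12) (.e (nat_lit 360475) (nat_lit 8) (.e (nat_lit 557091) (nat_lit 12) (.e (nat_lit 164022) (nat_lit 46) (.e (nat_lit 704738) (nat_lit 11) (.e (nat_lit 16384) (nat_lit 0) (.e (nat_lit 3261) (nat_lit 198) .nil))))))) (.g (nat_lit 1) (.e (nat_lit 404568) (nat_lit 0) .nil) .nil))) 
(.lf (nat_lit 593883) (.g (nat_lit 1867) (.e (nat_lit 516116) (nat_lit 1) (.e (nat_lit 164403) (nat_lit 256) (.e (nat_lit 57373) (nat_lit 2) (.e (nat_lit 90174) (nat_lit 14) .nil)))) (.g (nat_lit 0) (.e (nat_lit 405746) (nat_lit 0) .nil) .nil))))))) (.nd (nat_lit 6) (.nd (nat_lit 7) (.nd (nat_lit 8) (.nd (nat_lit 9) 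
(.lf (nat_lit 592955) (.g (nat_lit 3072) (.e (nat_lit 532566) (nat_lit 15) (.e (nat_lit 385066) (nat_lit 26) (.e (nat_lit 532530) (nat_lit 9) (.e (nat_lit 336326) (nat_lit 18) (.e (nat_lit 204880) (nat_lit 32) (.e (nat_lit 385066) (nat_lit 26) .nil)))))) (.g (nat_lit 1) (.e (nat_lit 403318) (nat_lit 0) .nil) .nil))) 
(.lf (nat_lit 593467) (.g (nat_lit 1979) (.e (nat_lit 540706) (nat_lit 12) (.e (nat_lit 360475) (nat_lit 8) (.e (nat_lit 557087) (nat_lit 11) (.e (nat_lit 24584) (nat_lit 0) .nil)))) (.g (nat_lit 0) (.e (nat_lit 404779) (nat_lit 0) .nil) .nil)))) (.nd (nat_lit 9) 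
(.lf (nat_lit 593211) (.g (nat_lit 2111) (.e (nat_lit 532579) (nat_lit 26) (.e (nat_lit 426100) (nat_lit 1) (.e (nat_lit 164399) (nat_lit 256) (.e (nat_lit 57445) (nat_lit 19) (.e (nat_lit 393287) (nat_lit 25) .nil))))) (.g (nat_lit 0) (.e (nat_lit 403859) (nat_lit 0) .nil) .nil))) 
(.lf (nat_lit 593723) (.g (nat_lit 5112) (.e (nat_lit 516115) (nat_lit 1) (.e (nat_lit 164325) (nat_lit 230) (.e (nat_lit 163861) (nat_lit 1) (.e (nat_lit 164329) (nat_lit 230) (.e (nat_lit 163843) (nat_lit 0) (.e (nat_lit 3222) (nat_lit 196) (.e (nat_lit 524320) (nat_lit 12) (.e (nat_lit 458496) (nat_lit 3) .nil)))))))) (.g (nat_lit 1) (.e (nat_lit 405461) (nat_lit 0) .nil) .nil))))) 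
(.nd (nat_lit 8) (.nd (nat_lit 9) 
(.lf (nat_lit 593083) (.g (nat_lit 3389) (.e (nat_lit 532569) (nat_lit 16) (.e (nat_lit 401448) (nat_lit 10) (.e (nat_lit 434231) (nat_lit 23) (.e (nat_lit 532490) (nat_lit 0) (.e (nat_lit 6674) (nat_lit 357) (.e (nat_lit 2939) (nat_lit 184) (.e (nat_lit 425984) (nat_lit 0) (.e (nat_lit 3233) (nat_lit 197) .nil)))))))) (.g (nat_lit 1) (.e (nat_lit 403628) (nat_lit 0) .nil) .nil))) 
(.lf (nat_lit 593595) (.g (nat_lit 3255) (.e (nat_lit 540706) (nat_lit 12) (.e (nat_lit 360475) (nat_lit 8) (.e (nat_lit 557091) (nat_lit 12) (.e (nat_lit 164022) (nat_lit 46) (.e (nat_lit 704736) (nat_lit 11) (.e (nat_lit 16390) (nat_lit 0) (.e (nat_lit 3259) (nat_lit 198) .nil))))))) (.g (nat_lit 1) (.e (nat_lit 404940) (nat_lit 0) .nil) .nil)))) (.nd (nat_lit 9) 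
(.lf (nat_lit 593339) (.g (nat_lit 3008) (.e (nat_lit 540704) (nat_lit 12) (.e (nat_lit 360467) (nat_lit 3) (.e (nat_lit 516139) (nat_lit 7) (.e (nat_lit 409649) (nat_lit 18) (.e (nat_lit 303112) (nat_lit 0) .nil))))) (.g (nat_lit 0) (.e (nat_lit 404533) (nat_lit 0) .nil) .nil))) 
(.lf (nat_lit 593851) (.g (nat_lit 2405) (.e (nat_lit 516115) (nat_lit 1) (.e (nat_lit 164399) (nat_lit 256) (.e (nat_lit 57377) (nat_lit 3) (.e (nat_lit 98366) (nat_lit 27) (.e (nat_lit 434231) (nat_lit 23) .nil))))) (.g (nat_lit 0) (.e (nat_lit 405689) (nat_lit 0) .nil) .nil)))))) (.nd (nat_lit 7) (.nd (nat_lit 8) (.nd (nat_lit 9) 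
(.lf (nat_lit 593019) (.g (nat_lit 1435) (.e (nat_lit 532567) (nat_lit 16) (.e (nat_lit 401459) (nat_lit 13) (.e (nat_lit 483336) (nat_lit 9) .nil))) (.g (nat_lit 0) (.e (nat_lit 403462) (nat_lit 0) .nil) .nil))) 
(.lf (nat_lit 593531) (.g (nat_lit 1879) (.e (nat_lit 540706) (nat_lit 12) (.e (nat_lit 360475) (nat_lit 8) (.e (nat_lit 557090) (nat_lit 12) (.e (nat_lit 164020) (nat_lit 45) (.e (nat_lit 696329) (nat_lit 5) (.e (nat_lit 2878) (nat_lit 184) (.e (nat_lit 426020) (nat_lit 0) (.e (nat_lit 3262) (nat_lit 198) .nil)))))))) (.g (nat_lit 1) (.e (nat_lit 404859) (nat_lit 0) .nil) .nil)))) 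
(.nd (nat_lit 9) 
(.lf (nat_lit 593275) (.g (nat_lit 2291) (.e (nat_lit 532583) (nat_lit 26) (.e (nat_lit 426188) (nat_lit 9) (.e (nat_lit 426562) (nat_lit 33) (.e (nat_lit 385041) (nat_lit 19) (.e (nat_lit 164286) (nat_lit 224) (.e (nat_lit 164096) (nat_lit 86) .nil)))))) (.g (nat_lit 1) (.e (nat_lit 404238) (nat_lit 0) .nil) .nil))) 
(.lf (nat_lit 593787) (.g (nat_lit 4000) (.e (nat_lit 516115) (nat_lit 1) (.e (nat_lit 164325) (nat_lit 230) (.e (nat_lit 163907) (nat_lit 12) (.e (nat_lit 426566) (nat_lit 34) (.e (nat_lit 393273) (nat_lit 23) (.e (nat_lit 426364) (nat_lit 15) (.e (nat_lit 1801) (nat_lit 119) .nil))))))) (.g (nat_lit 1) (.e (nat_lit 405567) (nat_lit 0) .nil) .nil))))) (.nd (nat_lit 8) (.nd (nat_lit 9) 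
(.lf (nat_lit 593147) (.g (nat_lit 4503) (.e (nat_lit 532569) (nat_lit 16) (.e (nat_lit 401451) (nat_lit 12) (.e (nat_lit 475184) (nat_lit 29) (.e (nat_lit 557100) (nat_lit 13) (.e (nat_lit 172106) (nat_lit 10) (.e (nat_lit 434231) (nat_lit 23) .nil)))))) (.g (nat_lit 1) (.e (nat_lit 403713) (nat_lit 0) .nil) .nil))) 
(.lf (nat_lit 593659) (.g (nat_lit 1392) (.e (nat_lit 516102) (nat_lit 0) (.e (nat_lit 6989) (nat_lit 377) (.e (nat_lit 2819) (nat_lit 181) (.e (nat_lit 311315) (nat_lit 3) .nil)))) (.g (nat_lit 0) (.e (nat_lit 405293) (nat_lit 0) .nil) .nil)))) (.nd (nat_lit 9) 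
(.lf (nat_lit 593403) (.g (nat_lit 3033) (.e (nat_lit 540706) (nat_lit 12) (.e (nat_lit 360474) (nat_lit 8) (.e (nat_lit 557093) (nat_lit 12) (.e (nat_lit 164022) (nat_lit 46) (.e (nat_lit 704737) (nat_lit 11) (.e (nat_lit 16388) (nat_lit 0) (.e (nat_lit 3257) (nat_lit 198) .nil))))))) (.g (nat_lit 1) (.e (nat_lit 404680) (nat_lit 0) .nil) .nil))) 
(.lf (nat_lit 593915) (.g (nat_lit 1626) (.e (nat_lit 516117) (nat_lit 1) (.e (nat_lit 164330) (nat_lit 230) (.e (nat_lit 163902) (nat_lit 12) (.e (nat_lit 426479) (nat_lit 27) .nil)))) (.g (nat_lit 0) (.e (nat_lit 405862) (nat_lit 0) .nil) .nil)))))))))) (.nd (nat_lit 3) (.nd (nat_lit 4) (.nd (nat_lit 5) (.nd (nat_lit 6) (.nd (nat_lit 7) (.nd (nat_lit 8) (.nd (nat_lit 9) 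
(.lf (nat_lit 592903) (.g (nat_lit 725) (.e (nat_lit 532563) (nat_lit 15) (.e (nat_lit 385105) (nat_lit 50) (.e (nat_lit 786432) (nat_lit 0) .nil))) (.g (nat_lit 0) (.e (nat_lit 403152) (nat_lit 0) .nil) .nil))) 
(.lf (nat_lit 593415) (.g (nat_lit 3237) (.e (nat_lit 540706) (nat_lit 12) (.e (nat_lit 360474) (nat_lit 8) (.e (nat_lit 557093) (nat_lit 12) (.e (nat_lit 164022) (nat_lit 46) (.e (nat_lit 704738) (nat_lit 11) (.e (nat_lit 24320) (nat_lit 0) (.e (nat_lit 3262) (nat_lit 198) .nil))))))) (.g (nat_lit 1) (.e (nat_lit 404692) (nat_lit 0) .nil) .nil)))) (.nd (nat_lit 9) 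
(.lf (nat_lit 593159) (.g (nat_lit 1867) (.e (nat_lit 540416) (nat_lit 16) (.e (nat_lit 401452) (nat_lit 12) (.e (nat_lit 475185) (nat_lit 29) (.e (nat_lit 557101) (nat_lit 13) (.e (nat_lit 172115) (nat_lit 10) .nil))))) (.g (nat_lit 0) (.e (nat_lit 403741) (nat_lit 0) .nil) .nil))) 
(.lf (nat_lit 593671) (.g (nat_lit 4596) (.e (nat_lit 516102) (nat_lit 0) (.e (nat_lit 7107) (nat_lit 380) (.e (nat_lit 164365) (nat_lit 246) (.e (nat_lit 2664) (nat_lit 167) (.e (nat_lit 196666) (nat_lit 13) (.e (nat_lit 65610) (nat_lit 10) (.e (nat_lit 344117) (nat_lit 21) .nil))))))) (.g (nat_lit 1) (.e (nat_lit 405307) (nat_lit 0) .nil) .nil))))) (.nd (nat_lit 8) (.nd (nat_lit 9) 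
(.lf (nat_lit 593031) (.g (nat_lit 1991) (.e (nat_lit 532568) (nat_lit 16) (.e (nat_lit 401448) (nat_lit 10) (.e (nat_lit 434231) (nat_lit 23) (.e (nat_lit 532490) (nat_lit 0) .nil)))) (.g (nat_lit 0) (.e (nat_lit 403484) (nat_lit 0) .nil) .nil))) 
(.lf (nat_lit 593543) (.g (nat_lit 2360) (.e (nat_lit 540706) (nat_lit 12) (.e (nat_lit 360475) (nat_lit 8) (.e (nat_lit 557090) (nat_lit 12) (.e (nat_lit 164020) (nat_lit 45) (.e (nat_lit 696335) (nat_lit 5) .nil))))) (.g (nat_lit 0) (.e (nat_lit 404871) (nat_lit 0) .nil) .nil)))) (.nd (nat_lit 9) 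
(.lf (nat_lit 593287) (.g (nat_lit 880) (.e (nat_lit 540416) (nat_lit 27) (.e (nat_lit 434276) (nat_lit 39) (.e (nat_lit 663567) (nat_lit 4) (.e (nat_lit 65649) (nat_lit 27) .nil)))) (.g (nat_lit 0) (.e (nat_lit 404346) (nat_lit 0) .nil) .nil))) 
(.lf (nat_lit 593799) (.g (nat_lit 1962) (.e (nat_lit 516115) (nat_lit 1) (.e (nat_lit 164325) (nat_lit 230) (.e (nat_lit 163942) (nat_lit 19) (.e (nat_lit 483341) (nat_lit 9) (.e (nat_lit 426200) (nat_lit 9) (.e (nat_lit 426362) (nat_lit 15) (.e (nat_lit 1799) (nat_lit 119) .nil))))))) (.g (nat_lit 1) (.e (nat_lit 405608) (nat_lit 0) .nil) .nil)))))) 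
(.nd (nat_lit 7) (.nd (nat_lit 8) (.nd (nat_lit 9) 
(.lf (nat_lit 592967) (.g (nat_lit 2476) (.e (nat_lit 532566) (nat_lit 15) (.e (nat_lit 385066) (nat_lit 26) (.e (nat_lit 532563) (nat_lit 15) (.e (nat_lit 385066) (nat_lit 26) (.e (nat_lit 532566) (nat_lit 15) (.e (nat_lit 385068) (nat_lit 26) .nil)))))) (.g (nat_lit 1) (.e (nat_lit 403331) (nat_lit 0) .nil) .nil))) 
(.lf (nat_lit 593479) (.g (nat_lit 2837) (.e (nat_lit 540706) (nat_lit 12) (.e (nat_lit 360475) (nat_lit 8) (.e (nat_lit 557087) (nat_lit 11) (.e (nat_lit 24665) (nat_lit 14) (.e (nat_lit 401408) (nat_lit 0) (.e (nat_lit 3262) (nat_lit 198) .nil)))))) (.g (nat_lit 1) (.e (nat_lit 404791) (nat_lit 0) .nil) .nil)))) (.nd (nat_lit 9) 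
(.lf (nat_lit 593223) (.g (nat_lit 1088) (.e (nat_lit 532579) (nat_lit 26) (.e (nat_lit 426107) (nat_lit 1) (.e (nat_lit 164345) (nat_lit 240) (.e (nat_lit 2619) (nat_lit 164) .nil)))) (.g (nat_lit 0) (.e (nat_lit 403872) (nat_lit 0) .nil) .nil))) 
(.lf (nat_lit 593735) (.g (nat_lit 3098) (.e (nat_lit 516115) (nat_lit 1) (.e (nat_lit 164325) (nat_lit 230) (.e (nat_lit 163873) (nat_lit 3) (.e (nat_lit 204809) (nat_lit 9) (.e (nat_lit 426139) (nat_lit 3) (.e (nat_lit 204834) (nat_lit 19) (.e (nat_lit 106537) (nat_lit 12) (.e (nat_lit 57466) (nat_lit 23) .nil)))))))) (.g (nat_lit 1) (.e (nat_lit 405506) (nat_lit 0) .nil) .nil))))) 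
(.nd (nat_lit 8) (.nd (nat_lit 9) 
(.lf (nat_lit 593095) (.g (nat_lit 2811) (.e (nat_lit 532569) (nat_lit 16) (.e (nat_lit 401448) (nat_lit 10) (.e (nat_lit 434232) (nat_lit 23) (.e (nat_lit 532522) (nat_lit 7) (.e (nat_lit 319505) (nat_lit 10) (.e (nat_lit 5712) (nat_lit 312) (.e (nat_lit 2508) (nat_lit 157) (.e (nat_lit 3249) (nat_lit 197) .nil)))))))) (.g (nat_lit 1) (.e (nat_lit 403641) (nat_lit 0) .nil) .nil))) 
(.lf (nat_lit 593607) (.g (nat_lit 3085) (.e (nat_lit 540706) (nat_lit 12) (.e (nat_lit 360475) (nat_lit 8) (.e (nat_lit 557091) (nat_lit 12) (.e (nat_lit 164022) (nat_lit 46) (.e (nat_lit 704737) (nat_lit 11) (.e (nat_lit 16391) (nat_lit 0) (.e (nat_lit 3260) (nat_lit 198) .nil))))))) (.g (nat_lit 1) (.e (nat_lit 404952) (nat_lit 0) .nil) .nil)))) (.nd (nat_lit 9) 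
(.lf (nat_lit 593351) (.g (nat_lit 3067) (.e (nat_lit 540704) (nat_lit 12) (.e (nat_lit 360473) (nat_lit 8) (.e (nat_lit 557090) (nat_lit 12) (.e (nat_lit 164020) (nat_lit 45) (.e (nat_lit 696343) (nat_lit 8) (.e (nat_lit 172034) (nat_lit 0) (.e (nat_lit 3257) (nat_lit 198) .nil))))))) (.g (nat_lit 1) (.e (nat_lit 404547) (nat_lit 0) .nil) .nil))) 
(.lf (nat_lit 593863) (.g (nat_lit 775) (.e (nat_lit 516116) (nat_lit 1) (.e (nat_lit 164329) (nat_lit 230) (.e (nat_lit 163941) (nat_lit 19) (.e (nat_lit 483341) (nat_lit 9) .nil)))) (.g (nat_lit 0) (.e (nat_lit 405714) (nat_lit 0) .nil) .nil))))))) (.nd (nat_lit 6) (.nd (nat_lit 7) (.nd (nat_lit 8) (.nd (nat_lit 9) 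
(.lf (nat_lit 592935) (.g (nat_lit 1833) (.e (nat_lit 532565) (nat_lit 15) (.e (nat_lit 385066) (nat_lit 26) (.e (nat_lit 532534) (nat_lit 9) (.e (nat_lit 343808) (nat_lit 18) .nil)))) (.g (nat_lit 0) (.e (nat_lit 403289) (nat_lit 0) .nil) .nil))) 
(.lf (nat_lit 593447) (.g (nat_lit 2421) (.e (nat_lit 540706) (nat_lit 12) (.e (nat_lit 360475) (nat_lit 8) (.e (nat_lit 557066) (nat_lit 9) (.e (nat_lit 232) (nat_lit 21) (.e (nat_lit 336060) (nat_lit 7) .nil))))) (.g (nat_lit 0) (.e (nat_lit 404733) (nat_lit 0) .nil) .nil)))) (.nd (nat_lit 9) 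
(.lf (nat_lit 593191) (.g (nat_lit 691) (.e (nat_lit 532578) (nat_lit 26) (.e (nat_lit 426187) (nat_lit 9) (.e (nat_lit 426558) (nat_lit 33) (.e (nat_lit 392960) (nat_lit 5) .nil)))) (.g (nat_lit 0) (.e (nat_lit 403824) (nat_lit 0) .nil) .nil))) 
(.lf (nat_lit 593703) (.g (nat_lit 1646) (.e (nat_lit 516114) (nat_lit 1) (.e (nat_lit 164179) (nat_lit 154) (.e (nat_lit 57377) (nat_lit 3) (.e (nat_lit 98342) (nat_lit 20) .nil)))) (.g (nat_lit 0) (.e (nat_lit 405389) (nat_lit 0) .nil) .nil))))) (.nd (nat_lit 8) (.nd (nat_lit 9) 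
(.lf (nat_lit 593063) (.g (nat_lit 1273) (.e (nat_lit 532569) (nat_lit 16) (.e (nat_lit 401435) (nat_lit 9) (.e (nat_lit 426131) (nat_lit 3) (.e (nat_lit 204885) (nat_lit 33) .nil)))) (.g (nat_lit 0) (.e (nat_lit 403556) (nat_lit 0) .nil) .nil))) 
(.lf (nat_lit 593575) (.g (nat_lit 3944) (.e (nat_lit 540706) (nat_lit 12) (.e (nat_lit 360475) (nat_lit 8) (.e (nat_lit 557091) (nat_lit 12) (.e (nat_lit 163847) (nat_lit 0) (.e (nat_lit 6416) (nat_lit 341) (.e (nat_lit 163908) (nat_lit 12) (.e (nat_lit 426003) (nat_lit 0) (.e (nat_lit 3262) (nat_lit 198) .nil)))))))) (.g (nat_lit 1) (.e (nat_lit 404907) (nat_lit 0) .nil) .nil)))) 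
(.nd (nat_lit 9) 
(.lf (nat_lit 593319) (.g (nat_lit 679) (.e (nat_lit 540703) (nat_lit 11) (.e (nat_lit 352315) (nat_lit 23) (.e (nat_lit 98366) (nat_lit 27) .nil))) (.g (nat_lit 0) (.e (nat_lit 404492) (nat_lit 0) .nil) .nil))) 
(.lf (nat_lit 593831) (.g (nat_lit 1503) (.e (nat_lit 516115) (nat_lit 1) (.e (nat_lit 164327) (nat_lit 230) (.e (nat_lit 163907) (nat_lit 12) (.e (nat_lit 426564) (nat_lit 34) .nil)))) (.g (nat_lit 0) (.e (nat_lit 405652) (nat_lit 0) .nil) .nil)))))) (.nd (nat_lit 7) (.nd (nat_lit 8) (.nd (nat_lit 9) 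
(.lf (nat_lit 592999) (.g (nat_lit 898) (.e (nat_lit 532567) (nat_lit 16) (.e (nat_lit 401448) (nat_lit 10) (.e (nat_lit 434231) (nat_lit 23) .nil))) (.g (nat_lit 0) (.e (nat_lit 403422) (nat_lit 0) .nil) .nil))) 
(.lf (nat_lit 593511) (.g (nat_lit 2410) (.e (nat_lit 540706) (nat_lit 12) (.e (nat_lit 360475) (nat_lit 8) (.e (nat_lit 557090) (nat_lit 12) (.e (nat_lit 164017) (nat_lit 44) .nil)))) (.g (nat_lit 0) (.e (nat_lit 404835) (nat_lit 0) .nil) .nil)))) (.nd (nat_lit 9) 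
(.lf (nat_lit 593255) (.g (nat_lit 1747) (.e (nat_lit 532582) (nat_lit 26) (.e (nat_lit 426100) (nat_lit 1) (.e (nat_lit 164399) (nat_lit 256) (.e (nat_lit 57447) (nat_lit 19) (.e (nat_lit 393287) (nat_lit 25) .nil))))) (.g (nat_lit 0) (.e (nat_lit 404185) (nat_lit 0) .nil) .nil))) 
(.lf (nat_lit 593767) (.g (nat_lit 4521) (.e (nat_lit 516115) (nat_lit 1) (.e (nat_lit 164325) (nat_lit 230) (.e (nat_lit 163903) (nat_lit 12) (.e (nat_lit 426566) (nat_lit 34) (.e (nat_lit 393294) (nat_lit 26) (.e (nat_lit 475179) (nat_lit 24) .nil)))))) (.g (nat_lit 1) (.e (nat_lit 405542) (nat_lit 0) .nil) .nil))))) (.nd (nat_lit 8) (.nd (nat_lit 9) 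
(.lf (nat_lit 593127) (.g (nat_lit 2742) (.e (nat_lit 532569) (nat_lit 16) (.e (nat_lit 401448) (nat_lit 10) (.e (nat_lit 434246) (nat_lit 28) (.e (nat_lit 573471) (nat_lit 11) (.e (nat_lit 16433) (nat_lit 9) (.e (nat_lit 425985) (nat_lit 0) (.e (nat_lit 3249) (nat_lit 197) .nil))))))) (.g (nat_lit 1) (.e (nat_lit 403680) (nat_lit 0) .nil) .nil))) 
(.lf (nat_lit 593639) (.g (nat_lit 1962) (.e (nat_lit 516098) (nat_lit 0) (.e (nat_lit 7073) (nat_lit 377) (.e (nat_lit 2798) (nat_lit 180) (.e (nat_lit 303119) (nat_lit 3) (.e (nat_lit 204860) (nat_lit 26) (.e (nat_lit 336186) (nat_lit 11) (.e (nat_lit 368676) (nat_lit 21) .nil))))))) (.g (nat_lit 1) (.e (nat_lit 405248) (nat_lit 0) .nil) .nil)))) (.nd (nat_lit 9) 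
(.lf (nat_lit 593383) (.g (nat_lit 1251) (.e (nat_lit 540706) (nat_lit 12) (.e (nat_lit 360474) (nat_lit 8) (.e (nat_lit 557093) (nat_lit 12) (.e (nat_lit 164022) (nat_lit 46) .nil)))) (.g (nat_lit 0) (.e (nat_lit 404658) (nat_lit 0) .nil) .nil))) 
(.lf (nat_lit 593895) (.g (nat_lit 1553) (.e (nat_lit 516117) (nat_lit 1) (.e (nat_lit 164329) (nat_lit 230) (.e (nat_lit 163902) (nat_lit 12) (.e (nat_lit 426484) (nat_lit 27) .nil)))) (.g (nat_lit 0) (.e (nat_lit 405826) (nat_lit 0) .nil) .nil)))))))) (.nd (nat_lit 5) (.nd (nat_lit 6) (.nd (nat_lit 7) (.nd (nat_lit 8) (.nd (nat_lit 9) 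
(.lf (nat_lit 592919) (.g (nat_lit 2033) (.e (nat_lit 532564) (nat_lit 15) (.e (nat_lit 385068) (nat_lit 26) (.e (nat_lit 532530) (nat_lit 9) (.e (nat_lit 336324) (nat_lit 18) .nil)))) (.g (nat_lit 0) (.e (nat_lit 403212) (nat_lit 0) .nil) .nil))) 
(.lf (nat_lit 593431) (.g (nat_lit 1854) (.e (nat_lit 540706) (nat_lit 12) (.e (nat_lit 360474) (nat_lit 8) (.e (nat_lit 557094) (nat_lit 12) (.e (nat_lit 164022) (nat_lit 46) (.e (nat_lit 704736) (nat_lit 11) (.e (nat_lit 16390) (nat_lit 0) (.e (nat_lit 3259) (nat_lit 198) .nil))))))) (.g (nat_lit 1) (.e (nat_lit 404711) (nat_lit 0) .nil) .nil)))) (.nd (nat_lit 9) 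
(.lf (nat_lit 593175) (.g (nat_lit 1996) (.e (nat_lit 532578) (nat_lit 26) (.e (nat_lit 426098) (nat_lit 1) (.e (nat_lit 164398) (nat_lit 256) (.e (nat_lit 57409) (nat_lit 12) (.e (nat_lit 336434) (nat_lit 30) .nil))))) (.g (nat_lit 0) (.e (nat_lit 403800) (nat_lit 0) .nil) .nil))) 
(.lf (nat_lit 593687) (.g (nat_lit 1886) (.e (nat_lit 516106) (nat_lit 0) (.e (nat_lit 6986) (nat_lit 377) (.e (nat_lit 2819) (nat_lit 181) (.e (nat_lit 311315) (nat_lit 3) .nil)))) (.g (nat_lit 0) (.e (nat_lit 405366) (nat_lit 0) .nil) .nil))))) (.nd (nat_lit 8) (.nd (nat_lit 9) 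
(.lf (nat_lit 593047) (.g (nat_lit 1480) (.e (nat_lit 532568) (nat_lit 16) (.e (nat_lit 401459) (nat_lit 13) (.e (nat_lit 491264) (nat_lit 10) (.e (nat_lit 434275) (nat_lit 39) (.e (nat_lit 663585) (nat_lit 12) .nil))))) (.g (nat_lit 0) (.e (nat_lit 403532) (nat_lit 0) .nil) .nil))) 
(.lf (nat_lit 593559) (.g (nat_lit 3297) (.e (nat_lit 540706) (nat_lit 12) (.e (nat_lit 360475) (nat_lit 8) (.e (nat_lit 557090) (nat_lit 12) (.e (nat_lit 164020) (nat_lit 45) (.e (nat_lit 696344) (nat_lit 8) (.e (nat_lit 172040) (nat_lit 0) (.e (nat_lit 3260) (nat_lit 198) .nil))))))) (.g (nat_lit 1) (.e (nat_lit 404887) (nat_lit 0) .nil) .nil)))) (.nd (nat_lit 9) 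
(.lf (nat_lit 593303) (.g (nat_lit 1914) (.e (nat_lit 540702) (nat_lit 11) (.e (nat_lit 352315) (nat_lit 23) (.e (nat_lit 98367) (nat_lit 27) (.e (nat_lit 434268) (nat_lit 36) .nil)))) (.g (nat_lit 0) (.e (nat_lit 404468) (nat_lit 0) .nil) .nil))) 
(.lf (nat_lit 593815) (.g (nat_lit 1796) (.e (nat_lit 516115) (nat_lit 1) (.e (nat_lit 164327) (nat_lit 230) (.e (nat_lit 163903) (nat_lit 12) (.e (nat_lit 426479) (nat_lit 27) .nil)))) (.g (nat_lit 0) (.e (nat_lit 405635) (nat_lit 0) .nil) .nil)))))) (.nd (nat_lit 7) (.nd (nat_lit 8) (.nd (nat_lit 9) 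
(.lf (nat_lit 592983) (.g (nat_lit 2867) (.e (nat_lit 532566) (nat_lit 15) (.e (nat_lit 385074) (nat_lit 31) (.e (nat_lit 573471) (nat_lit 11) (.e (nat_lit 16479) (nat_lit 15) .nil)))) (.g (nat_lit 0) (.e (nat_lit 403353) (nat_lit 0) .nil) .nil))) 
(.lf (nat_lit 593495) (.g (nat_lit 4714) (.e (nat_lit 540706) (nat_lit 12) (.e (nat_lit 360475) (nat_lit 8) (.e (nat_lit 557089) (nat_lit 12) (.e (nat_lit 164017) (nat_lit 44) (.e (nat_lit 688138) (nat_lit 5) (.e (nat_lit 2887) (nat_lit 184) (.e (nat_lit 426032) (nat_lit 0) (.e (nat_lit 3262) (nat_lit 198) .nil)))))))) (.g (nat_lit 1) (.e (nat_lit 404814) (nat_lit 0) .nil) .nil)))) 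
(.nd (nat_lit 9) 
(.lf (nat_lit 593239) (.g (nat_lit 2787) (.e (nat_lit 532579) (nat_lit 26) (.e (nat_lit 426139) (nat_lit 3) (.e (nat_lit 204831) (nat_lit 18) (.e (nat_lit 57692) (nat_lit 156) (.e (nat_lit 171776) (nat_lit 64) .nil))))) (.g (nat_lit 0) (.e (nat_lit 404027) (nat_lit 0) .nil) .nil))) 
(.lf (nat_lit 593751) (.g (nat_lit 3904) (.e (nat_lit 516115) (nat_lit 1) (.e (nat_lit 164325) (nat_lit 230) (.e (nat_lit 163902) (nat_lit 12) (.e (nat_lit 426566) (nat_lit 34) (.e (nat_lit 393293) (nat_lit 26) (.e (nat_lit 475177) (nat_lit 24) .nil)))))) (.g (nat_lit 1) (.e (nat_lit 405525) (nat_lit 0) .nil) .nil))))) (.nd (nat_lit 8) (.nd (nat_lit 9) 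
(.lf (nat_lit 593111) (.g (nat_lit 2803) (.e (nat_lit 532569) (nat_lit 16) (.e (nat_lit 401448) (nat_lit 10) (.e (nat_lit 434244) (nat_lit 28) (.e (nat_lit 573469) (nat_lit 11) (.e (nat_lit 16451) (nat_lit 11) .nil))))) (.g (nat_lit 0) (.e (nat_lit 403664) (nat_lit 0) .nil) .nil))) 
(.lf (nat_lit 593623) (.g (nat_lit 4267) (.e (nat_lit 540706) (nat_lit 12) (.e (nat_lit 360475) (nat_lit 8) (.e (nat_lit 557091) (nat_lit 12) (.e (nat_lit 164022) (nat_lit 46) (.e (nat_lit 704738) (nat_lit 11) (.e (nat_lit 16397) (nat_lit 0) (.e (nat_lit 3258) (nat_lit 198) .nil))))))) (.g (nat_lit 1) (.e (nat_lit 404968) (nat_lit 0) .nil) .nil)))) (.nd (nat_lit 9) 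
(.lf (nat_lit 593367) (.g (nat_lit 2300) (.e (nat_lit 540705) (nat_lit 12) (.e (nat_lit 360475) (nat_lit 8) (.e (nat_lit 557090) (nat_lit 12) (.e (nat_lit 164020) (nat_lit 45) (.e (nat_lit 696344) (nat_lit 8) (.e (nat_lit 172032) (nat_lit 0) (.e (nat_lit 3261) (nat_lit 198) .nil))))))) (.g (nat_lit 1) (.e (nat_lit 404564) (nat_lit 0) .nil) .nil))) 
(.lf (nat_lit 593879) (.g (nat_lit 2046) (.e (nat_lit 516116) (nat_lit 1) (.e (nat_lit 164399) (nat_lit 256) (.e (nat_lit 57373) (nat_lit 2) (.e (nat_lit 90174) (nat_lit 14) (.e (nat_lit 180243) (nat_lit 5) .nil))))) (.g (nat_lit 0) (.e (nat_lit 405741) (nat_lit 0) .nil) .nil))))))) (.nd (nat_lit 6) (.nd (nat_lit 7) (.nd (nat_lit 8) (.nd (nat_lit 9) 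
(.lf (nat_lit 592951) (.g (nat_lit 3128) (.e (nat_lit 532566) (nat_lit 15) (.e (nat_lit 385066) (nat_lit 26) (.e (nat_lit 532530) (nat_lit 9) (.e (nat_lit 336324) (nat_lit 18) (.e (nat_lit 204880) (nat_lit 32) (.e (nat_lit 385066) (nat_lit 26) .nil)))))) (.g (nat_lit 1) (.e (nat_lit 403313) (nat_lit 0) .nil) .nil))) 
(.lf (nat_lit 593463) (.g (nat_lit 1499) (.e (nat_lit 540706) (nat_lit 12) (.e (nat_lit 360475) (nat_lit 8) (.e (nat_lit 557086) (nat_lit 11) (.e (nat_lit 24665) (nat_lit 14) (.e (nat_lit 401408) (nat_lit 0) .nil))))) (.g (nat_lit 0) (.e (nat_lit 404774) (nat_lit 0) .nil) .nil)))) (.nd (nat_lit 9) 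
(.lf (nat_lit 593207) (.g (nat_lit 1733) (.e (nat_lit 532579) (nat_lit 26) (.e (nat_lit 426099) (nat_lit 1) (.e (nat_lit 164399) (nat_lit 256) (.e (nat_lit 57445) (nat_lit 19) (.e (nat_lit 393286) (nat_lit 25) .nil))))) (.g (nat_lit 0) (.e (nat_lit 403853) (nat_lit 0) .nil) .nil))) 
(.lf (nat_lit 593719) (.g (nat_lit 1816) (.e (nat_lit 516115) (nat_lit 1) (.e (nat_lit 164183) (nat_lit 154) (.e (nat_lit 57375) (nat_lit 2) (.e (nat_lit 90128) (nat_lit 9) (.e (nat_lit 2706) (nat_lit 170) .nil))))) (.g (nat_lit 0) (.e (nat_lit 405448) (nat_lit 0) .nil) .nil))))) (.nd (nat_lit 8) (.nd (nat_lit 9) 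
(.lf (nat_lit 593079) (.g (nat_lit 2531) (.e (nat_lit 532569) (nat_lit 16) (.e (nat_lit 401448) (nat_lit 10) (.e (nat_lit 434231) (nat_lit 23) (.e (nat_lit 532481) (nat_lit 0) (.e (nat_lit 6735) (nat_lit 364) .nil))))) (.g (nat_lit 0) (.e (nat_lit 403624) (nat_lit 0) .nil) .nil))) 
(.lf (nat_lit 593591) (.g (nat_lit 2851) (.e (nat_lit 540706) (nat_lit 12) (.e (nat_lit 360475) (nat_lit 8) (.e (nat_lit 557091) (nat_lit 12) (.e (nat_lit 164022) (nat_lit 46) (.e (nat_lit 704735) (nat_lit 11) (.e (nat_lit 16394) (nat_lit 0) (.e (nat_lit 3262) (nat_lit 198) .nil))))))) (.g (nat_lit 1) (.e (nat_lit 404936) (nat_lit 0) .nil) .nil)))) (.nd (nat_lit 9) 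
(.lf (nat_lit 593335) (.g (nat_lit 558) (.e (nat_lit 540704) (nat_lit 12) (.e (nat_lit 360467) (nat_lit 3) (.e (nat_lit 516138) (nat_lit 7) .nil))) (.g (nat_lit 0) (.e (nat_lit 404529) (nat_lit 0) .nil) .nil))) 
(.lf (nat_lit 593847) (.g (nat_lit 3518) (.e (nat_lit 516115) (nat_lit 1) (.e (nat_lit 164332) (nat_lit 230) (.e (nat_lit 163905) (nat_lit 12) (.e (nat_lit 426566) (nat_lit 34) (.e (nat_lit 393294) (nat_lit 26) (.e (nat_lit 475177) (nat_lit 24) .nil)))))) (.g (nat_lit 1) (.e (nat_lit 405682) (nat_lit 0) .nil) .nil)))))) (.nd (nat_lit 7) (.nd (nat_lit 8) (.nd (nat_lit 9) 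
(.lf (nat_lit 593015) (.g (nat_lit 4168) (.e (nat_lit 532567) (nat_lit 16) (.e (nat_lit 401454) (nat_lit 12) (.e (nat_lit 475183) (nat_lit 29) (.e (nat_lit 557100) (nat_lit 13) (.e (nat_lit 172106) (nat_lit 10) (.e (nat_lit 434231) (nat_lit 23) .nil)))))) (.g (nat_lit 1) (.e (nat_lit 403455) (nat_lit 0) .nil) .nil))) 
(.lf (nat_lit 593527) (.g (nat_lit 1963) (.e (nat_lit 540706) (nat_lit 12) (.e (nat_lit 360475) (nat_lit 8) (.e (nat_lit 557090) (nat_lit 12) (.e (nat_lit 164020) (nat_lit 45) (.e (nat_lit 696328) (nat_lit 5) (.e (nat_lit 2970) (nat_lit 185) (.e (nat_lit 434235) (nat_lit 24) .nil))))))) (.g (nat_lit 1) (.e (nat_lit 404855) (nat_lit 0) .nil) .nil)))) (.nd (nat_lit 9) 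
(.lf (nat_lit 593271) (.g (nat_lit 936) (.e (nat_lit 532583) (nat_lit 26) (.e (nat_lit 426107) (nat_lit 1) (.e (nat_lit 164347) (nat_lit 240) .nil))) (.g (nat_lit 0) (.e (nat_lit 404207) (nat_lit 0) .nil) .nil))) 
(.lf (nat_lit 593783) (.g (nat_lit 1818) (.e (nat_lit 516115) (nat_lit 1) (.e (nat_lit 164325) (nat_lit 230) (.e (nat_lit 163907) (nat_lit 12) (.e (nat_lit 426486) (nat_lit 27) (.e (nat_lit 336428) (nat_lit 29) .nil))))) (.g (nat_lit 0) (.e (nat_lit 405562) (nat_lit 0) .nil) .nil))))) (.nd (nat_lit 8) (.nd (nat_lit 9) 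
(.lf (nat_lit 593143) (.g (nat_lit 3706) (.e (nat_lit 532569) (nat_lit 16) (.e (nat_lit 401450) (nat_lit 12) (.e (nat_lit 475185) (nat_lit 29) (.e (nat_lit 557100) (nat_lit 13) (.e (nat_lit 172113) (nat_lit 10) (.e (nat_lit 434231) (nat_lit 23) .nil)))))) (.g (nat_lit 1) (.e (nat_lit 403701) (nat_lit 0) .nil) .nil))) 
(.lf (nat_lit 593655) (.g (nat_lit 1410) (.e (nat_lit 516102) (nat_lit 0) (.e (nat_lit 6989) (nat_lit 377) (.e (nat_lit 2810) (nat_lit 180) (.e (nat_lit 303119) (nat_lit 3) (.e (nat_lit 204819) (nat_lit 17) (.e (nat_lit 7936) (nat_lit 348) (.e (nat_lit 73748) (nat_lit 3) .nil))))))) (.g (nat_lit 1) (.e (nat_lit 405288) (nat_lit 0) .nil) .nil)))) (.nd (nat_lit 9) 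
(.lf (nat_lit 593399) (.g (nat_lit 2248) (.e (nat_lit 540706) (nat_lit 12) (.e (nat_lit 360474) (nat_lit 8) (.e (nat_lit 557093) (nat_lit 12) (.e (nat_lit 164022) (nat_lit 46) (.e (nat_lit 704737) (nat_lit 11) (.e (nat_lit 16384) (nat_lit 0) (.e (nat_lit 3260) (nat_lit 198) .nil))))))) (.g (nat_lit 1) (.e (nat_lit 404676) (nat_lit 0) .nil) .nil))) 
(.lf (nat_lit 593911) (.g (nat_lit 2830) (.e (nat_lit 516117) (nat_lit 1) (.e (nat_lit 164330) (nat_lit 230) (.e (nat_lit 163873) (nat_lit 3) (.e (nat_lit 204809) (nat_lit 9) (.e (nat_lit 426139) (nat_lit 3) (.e (nat_lit 204833) (nat_lit 19) (.e (nat_lit 106539) (nat_lit 12) (.e (nat_lit 57466) (nat_lit 23) .nil)))))))) (.g (nat_lit 1) (.e (nat_lit 405857) (nat_lit 0) .nil) .nil))))))))) 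
(.nd (nat_lit 4) (.nd (nat_lit 5) (.nd (nat_lit 6) (.nd (nat_lit 7) (.nd (nat_lit 8) 
(.nd (nat_lit 9) 
(.lf (nat_lit 592911) (.g (nat_lit 3564) (.e (nat_lit 532564) (nat_lit 15) (.e (nat_lit 385066) (nat_lit 26) (.e (nat_lit 532530) (nat_lit 9) (.e (nat_lit 336324) (nat_lit 18) (.e (nat_lit 204882) (nat_lit 32) (.e (nat_lit 385066) (nat_lit 26) .nil)))))) (.g (nat_lit 1) (.e (nat_lit 403204) (nat_lit 0) .nil) .nil))) 
(.lf (nat_lit 593423) (.g (nat_lit 1115) (.e (nat_lit 540706) (nat_lit 12) (.e (nat_lit 360474) (nat_lit 8) (.e (nat_lit 557094) (nat_lit 12) (.e (nat_lit 164022) (nat_lit 46) .nil)))) (.g (nat_lit 0) (.e (nat_lit 404701) (nat_lit 0) .nil) .nil)))) (.nd (nat_lit 9) 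
(.lf (nat_lit 593167) (.g (nat_lit 1284) (.e (nat_lit 540416) (nat_lit 18) (.e (nat_lit 164399) (nat_lit 256) (.e (nat_lit 57388) (nat_lit 5) (.e (nat_lit 114716) (nat_lit 22) .nil)))) (.g (nat_lit 0) (.e (nat_lit 403766) (nat_lit 0) .nil) .nil))) 
(.lf (nat_lit 593679) (.g (nat_lit 2938) (.e (nat_lit 516106) (nat_lit 0) (.e (nat_lit 3389) (nat_lit 210) (.e (nat_lit 639020) (nat_lit 16) (.e (nat_lit 65571) (nat_lit 3) (.e (nat_lit 98373) (nat_lit 29) (.e (nat_lit 458496) (nat_lit 3) .nil)))))) (.g (nat_lit 1) (.e (nat_lit 405326) (nat_lit 0) .nil) .nil))))) (.nd (nat_lit 8) (.nd (nat_lit 9) 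
(.lf (nat_lit 593039) (.g (nat_lit 4465) (.e (nat_lit 532568) (nat_lit 16) (.e (nat_lit 401451) (nat_lit 12) (.e (nat_lit 475185) (nat_lit 29) (.e (nat_lit 557100) (nat_lit 13) (.e (nat_lit 172106) (nat_lit 10) (.e (nat_lit 434231) (nat_lit 23) .nil)))))) (.g (nat_lit 1) (.e (nat_lit 403506) (nat_lit 0) .nil) .nil))) 
(.lf (nat_lit 593551) (.g (nat_lit 3234) (.e (nat_lit 540706) (nat_lit 12) (.e (nat_lit 360475) (nat_lit 8) (.e (nat_lit 557090) (nat_lit 12) (.e (nat_lit 164020) (nat_lit 45) (.e (nat_lit 696343) (nat_lit 8) (.e (nat_lit 172032) (nat_lit 0) (.e (nat_lit 3259) (nat_lit 198) .nil))))))) (.g (nat_lit 1) (.e (nat_lit 404879) (nat_lit 0) .nil) .nil)))) (.nd (nat_lit 9) 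
(.lf (nat_lit 593295) (.g (nat_lit 1741) (.e (nat_lit 540684) (nat_lit 3) (.e (nat_lit 114698) (nat_lit 11) (.e (nat_lit 426124) (nat_lit 2) .nil))) (.g (nat_lit 0) (.e (nat_lit 404447) (nat_lit 0) .nil) .nil))) 
(.lf (nat_lit 593807) (.g (nat_lit 1732) (.e (nat_lit 516115) (nat_lit 1) (.e (nat_lit 164327) (nat_lit 230) (.e (nat_lit 163875) (nat_lit 3) (.e (nat_lit 204809) (nat_lit 9) .nil)))) (.g (nat_lit 0) (.e (nat_lit 405627) (nat_lit 0) .nil) .nil)))))) (.nd (nat_lit 7) (.nd (nat_lit 8) (.nd (nat_lit 9) 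
(.lf (nat_lit 592975) (.g (nat_lit 1794) (.e (nat_lit 532566) (nat_lit 15) (.e (nat_lit 385068) (nat_lit 26) (.e (nat_lit 532529) (nat_lit 9) (.e (nat_lit 336326) (nat_lit 18) .nil)))) (.g (nat_lit 0) (.e (nat_lit 403341) (nat_lit 0) .nil) .nil))) 
(.lf (nat_lit 593487) (.g (nat_lit 3904) (.e (nat_lit 540706) (nat_lit 12) (.e (nat_lit 360475) (nat_lit 8) (.e (nat_lit 557089) (nat_lit 12) (.e (nat_lit 163843) (nat_lit 0) (.e (nat_lit 6420) (nat_lit 341) (.e (nat_lit 163908) (nat_lit 12) (.e (nat_lit 426003) (nat_lit 0) (.e (nat_lit 3262) (nat_lit 198) .nil)))))))) (.g (nat_lit 1) (.e (nat_lit 404799) (nat_lit 0) .nil) .nil)))) 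
(.nd (nat_lit 9) 
(.lf (nat_lit 593231) (.g (nat_lit 2188) (.e (nat_lit 532579) (nat_lit 26) (.e (nat_lit 426108) (nat_lit 1) (.e (nat_lit 164401) (nat_lit 256) (.e (nat_lit 57406) (nat_lit 12) (.e (nat_lit 336434) (nat_lit 30) .nil))))) (.g (nat_lit 0) (.e (nat_lit 403891) (nat_lit 0) .nil) .nil))) 
(.lf (nat_lit 593743) (.g (nat_lit 2848) (.e (nat_lit 516115) (nat_lit 1) (.e (nat_lit 164325) (nat_lit 230) (.e (nat_lit 163873) (nat_lit 3) (.e (nat_lit 204813) (nat_lit 9) (.e (nat_lit 426139) (nat_lit 3) .nil))))) (.g (nat_lit 0) (.e (nat_lit 405515) (nat_lit 0) .nil) .nil))))) (.nd (nat_lit 8) (.nd (nat_lit 9) 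
(.lf (nat_lit 593103) (.g (nat_lit 5599) (.e (nat_lit 532569) (nat_lit 16) (.e (nat_lit 401448) (nat_lit 10) (.e (nat_lit 434238) (nat_lit 25) (.e (nat_lit 548913) (nat_lit 18) (.e (nat_lit 172115) (nat_lit 10) (.e (nat_lit 434231) (nat_lit 23) .nil)))))) (.g (nat_lit 1) (.e (nat_lit 403653) (nat_lit 0) .nil) .nil))) 
(.lf (nat_lit 593615) (.g (nat_lit 4244) (.e (nat_lit 540706) (nat_lit 12) (.e (nat_lit 360475) (nat_lit 8) (.e (nat_lit 557091) (nat_lit 12) (.e (nat_lit 164022) (nat_lit 46) (.e (nat_lit 704738) (nat_lit 11) (.e (nat_lit 16385) (nat_lit 0) (.e (nat_lit 3259) (nat_lit 198) .nil))))))) (.g (nat_lit 1) (.e (nat_lit 404960) (nat_lit 0) .nil) .nil)))) (.nd (nat_lit 9) 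
(.lf (nat_lit 593359) (.g (nat_lit 1829) (.e (nat_lit 540704) (nat_lit 12) (.e (nat_lit 360475) (nat_lit 8) (.e (nat_lit 557087) (nat_lit 11) (.e (nat_lit 24617) (nat_lit 7) .nil)))) (.g (nat_lit 0) (.e (nat_lit 404555) (nat_lit 0) .nil) .nil))) 
(.lf (nat_lit 593871) (.g (nat_lit 2858) (.e (nat_lit 516116) (nat_lit 1) (.e (nat_lit 164332) (nat_lit 230) (.e (nat_lit 163905) (nat_lit 12) (.e (nat_lit 426566) (nat_lit 34) (.e (nat_lit 393273) (nat_lit 23) (.e (nat_lit 426364) (nat_lit 15) (.e (nat_lit 1781) (nat_lit 119) .nil))))))) (.g (nat_lit 1) (.e (nat_lit 405730) (nat_lit 0) .nil) .nil))))))) 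
(.nd (nat_lit 6) (.nd (nat_lit 7) (.nd (nat_lit 8) (.nd (nat_lit 9) 
(.lf (nat_lit 592943) (.g (nat_lit 1085) (.e (nat_lit 532565) (nat_lit 15) (.e (nat_lit 385068) (nat_lit 26) (.e (nat_lit 532536) (nat_lit 9) .nil))) (.g (nat_lit 0) (.e (nat_lit 403297) (nat_lit 0) .nil) .nil))) 
(.lf (nat_lit 593455) (.g (nat_lit 1309) (.e (nat_lit 540706) (nat_lit 12) (.e (nat_lit 360475) (nat_lit 8) (.e (nat_lit 557086) (nat_lit 11) (.e (nat_lit 24622) (nat_lit 8) (.e (nat_lit 327702) (nat_lit 10) .nil))))) (.g (nat_lit 0) (.e (nat_lit 404766) (nat_lit 0) .nil) .nil)))) (.nd (nat_lit 9) 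
(.lf (nat_lit 593199) (.g (nat_lit 2600) (.e (nat_lit 532579) (nat_lit 26) (.e (nat_lit 426098) (nat_lit 1) (.e (nat_lit 164398) (nat_lit 256) (.e (nat_lit 57409) (nat_lit 12) (.e (nat_lit 336398) (nat_lit 27) (.e (nat_lit 426290) (nat_lit 10) (.e (nat_lit 434231) (nat_lit 23) .nil))))))) (.g (nat_lit 1) (.e (nat_lit 403845) (nat_lit 0) .nil) .nil))) 
(.lf (nat_lit 593711) (.g (nat_lit 3548) (.e (nat_lit 516115) (nat_lit 1) (.e (nat_lit 164179) (nat_lit 154) (.e (nat_lit 57372) (nat_lit 2) (.e (nat_lit 90128) (nat_lit 9) (.e (nat_lit 2706) (nat_lit 170) (.e (nat_lit 221215) (nat_lit 23) (.e (nat_lit 204863) (nat_lit 27) (.e (nat_lit 344118) (nat_lit 21) .nil)))))))) (.g (nat_lit 1) (.e (nat_lit 405411) (nat_lit 0) .nil) .nil))))) 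
(.nd (nat_lit 8) (.nd (nat_lit 9) 
(.lf (nat_lit 593071) (.g (nat_lit 2650) (.e (nat_lit 532569) (nat_lit 16) (.e (nat_lit 401448) (nat_lit 10) (.e (nat_lit 434227) (nat_lit 20) (.e (nat_lit 507929) (nat_lit 10) (.e (nat_lit 5777) (nat_lit 317) (.e (nat_lit 188160) (nat_lit 5) .nil)))))) (.g (nat_lit 1) (.e (nat_lit 403616) (nat_lit 0) .nil) .nil))) 
(.lf (nat_lit 593583) (.g (nat_lit 3000) (.e (nat_lit 540706) (nat_lit 12) (.e (nat_lit 360475) (nat_lit 8) (.e (nat_lit 557091) (nat_lit 12) (.e (nat_lit 164022) (nat_lit 46) (.e (nat_lit 704627) (nat_lit 9) (.e (nat_lit 375) (nat_lit 32) (.e (nat_lit 426032) (nat_lit 0) (.e (nat_lit 3262) (nat_lit 198) .nil)))))))) (.g (nat_lit 1) (.e (nat_lit 404923) (nat_lit 0) .nil) .nil)))) (.nd (nat_lit 9) 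
(.lf (nat_lit 593327) (.g (nat_lit 1648) (.e (nat_lit 540704) (nat_lit 12) (.e (nat_lit 360466) (nat_lit 3) (.e (nat_lit 516139) (nat_lit 7) (.e (nat_lit 409644) (nat_lit 18) .nil)))) (.g (nat_lit 0) (.e (nat_lit 404512) (nat_lit 0) .nil) .nil))) 
(.lf (nat_lit 593839) (.g (nat_lit 2482) (.e (nat_lit 516115) (nat_lit 1) (.e (nat_lit 164332) (nat_lit 230) (.e (nat_lit 163902) (nat_lit 12) (.e (nat_lit 426568) (nat_lit 34) (.e (nat_lit 393294) (nat_lit 26) (.e (nat_lit 475176) (nat_lit 24) .nil)))))) (.g (nat_lit 1) (.e (nat_lit 405674) (nat_lit 0) .nil) .nil)))))) (.nd (nat_lit 7) (.nd (nat_lit 8) (.nd (nat_lit 9) 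
(.lf (nat_lit 593007) (.g (nat_lit 3348) (.e (nat_lit 532567) (nat_lit 16) (.e (nat_lit 401451) (nat_lit 12) (.e (nat_lit 475185) (nat_lit 29) (.e (nat_lit 557107) (nat_lit 15) .nil)))) (.g (nat_lit 0) (.e (nat_lit 403439) (nat_lit 0) .nil) .nil))) 
(.lf (nat_lit 593519) (.g (nat_lit 1690) (.e (nat_lit 540706) (nat_lit 12) (.e (nat_lit 360475) (nat_lit 8) (.e (nat_lit 557090) (nat_lit 12) (.e (nat_lit 164020) (nat_lit 45) (.e (nat_lit 696328) (nat_lit 5) .nil))))) (.g (nat_lit 0) (.e (nat_lit 404846) (nat_lit 0) .nil) .nil)))) (.nd (nat_lit 9) 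
(.lf (nat_lit 593263) (.g (nat_lit 1632) (.e (nat_lit 532583) (nat_lit 26) (.e (nat_lit 426099) (nat_lit 1) (.e (nat_lit 164399) (nat_lit 256) (.e (nat_lit 57407) (nat_lit 12) (.e (nat_lit 336432) (nat_lit 30) .nil))))) (.g (nat_lit 0) (.e (nat_lit 404199) (nat_lit 0) .nil) .nil))) 
(.lf (nat_lit 593775) (.g (nat_lit 1926) (.e (nat_lit 516115) (nat_lit 1) (.e (nat_lit 164325) (nat_lit 230) (.e (nat_lit 163905) (nat_lit 12) (.e (nat_lit 426566) (nat_lit 34) (.e (nat_lit 393273) (nat_lit 23) .nil))))) (.g (nat_lit 0) (.e (nat_lit 405551) (nat_lit 0) .nil) .nil))))) (.nd (nat_lit 8) (.nd (nat_lit 9) 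
(.lf (nat_lit 593135) (.g (nat_lit 3159) (.e (nat_lit 532569) (nat_lit 16) (.e (nat_lit 401448) (nat_lit 10) (.e (nat_lit 434247) (nat_lit 28) (.e (nat_lit 573471) (nat_lit 11) (.e (nat_lit 16451) (nat_lit 11) (.e (nat_lit 458789) (nat_lit 23) .nil)))))) (.g (nat_lit 1) (.e (nat_lit 403689) (nat_lit 0) .nil) .nil))) 
(.lf (nat_lit 593647) (.g (nat_lit 4099) (.e (nat_lit 516098) (nat_lit 0) (.e (nat_lit 7593) (nat_lit 407) (.e (nat_lit 73746) (nat_lit 3) (.e (nat_lit 516185) (nat_lit 16) (.e (nat_lit 491560) (nat_lit 10) (.e (nat_lit 344117) (nat_lit 21) .nil)))))) (.g (nat_lit 1) (.e (nat_lit 405260) (nat_lit 0) .nil) .nil)))) (.nd (nat_lit 9) 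
(.lf (nat_lit 593391) (.g (nat_lit 2003) (.e (nat_lit 540706) (nat_lit 12) (.e (nat_lit 360474) (nat_lit 8) (.e (nat_lit 557093) (nat_lit 12) (.e (nat_lit 164022) (nat_lit 46) (.e (nat_lit 704736) (nat_lit 11) (.e (nat_lit 16384) (nat_lit 0) (.e (nat_lit 3262) (nat_lit 198) .nil))))))) (.g (nat_lit 1) (.e (nat_lit 404668) (nat_lit 0) .nil) .nil))) 
(.lf (nat_lit 593903) (.g (nat_lit 260) (.e (nat_lit 516117) (nat_lit 1) (.e (nat_lit 164329) (nat_lit 230) (.e (nat_lit 163941) (nat_lit 19) .nil))) (.g (nat_lit 0) (.e (nat_lit 405847) (nat_lit 0) .nil) .nil)))))))) (.nd (nat_lit 5) (.nd (nat_lit 6) (.nd (nat_lit 7) (.nd (nat_lit 8) (.nd (nat_lit 9) 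
(.lf (nat_lit 592927) (.g (nat_lit 2908) (.e (nat_lit 532564) (nat_lit 15) (.e (nat_lit 385109) (nat_lit 51) (.e (nat_lit 794665) (nat_lit 22) (.e (nat_lit 196656) (nat_lit 11) (.e (nat_lit 16448) (nat_lit 10) (.e (nat_lit 434231) (nat_lit 23) .nil)))))) (.g (nat_lit 1) (.e (nat_lit 403261) (nat_lit 0) .nil) .nil))) 
(.lf (nat_lit 593439) (.g (nat_lit 2687) (.e (nat_lit 540706) (nat_lit 12) (.e (nat_lit 360474) (nat_lit 8) (.e (nat_lit 557094) (nat_lit 12) (.e (nat_lit 164022) (nat_lit 46) (.e (nat_lit 704737) (nat_lit 11) (.e (nat_lit 16388) (nat_lit 0) (.e (nat_lit 3257) (nat_lit 198) .nil))))))) (.g (nat_lit 1) (.e (nat_lit 404719) (nat_lit 0) .nil) .nil)))) (.nd (nat_lit 9) 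
(.lf (nat_lit 593183) (.g (nat_lit 2075) (.e (nat_lit 532578) (nat_lit 26) (.e (nat_lit 426100) (nat_lit 1) (.e (nat_lit 164403) (nat_lit 256) (.e (nat_lit 57406) (nat_lit 12) .nil)))) (.g (nat_lit 0) (.e (nat_lit 403808) (nat_lit 0) .nil) .nil))) 
(.lf (nat_lit 593695) (.g (nat_lit 3977) (.e (nat_lit 516106) (nat_lit 0) (.e (nat_lit 7112) (nat_lit 381) (.e (nat_lit 229644) (nat_lit 232) (.e (nat_lit 78) (nat_lit 0) (.e (nat_lit 3307) (nat_lit 202) (.e (nat_lit 573485) (nat_lit 13) (.e (nat_lit 65619) (nat_lit 10) (.e (nat_lit 344117) (nat_lit 21) .nil)))))))) (.g (nat_lit 1) (.e (nat_lit 405375) (nat_lit 0) .nil) .nil))))) 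
(.nd (nat_lit 8) (.nd (nat_lit 9) 
(.lf (nat_lit 593055) (.g (nat_lit 3311) (.e (nat_lit 532569) (nat_lit 16) (.e (nat_lit 401434) (nat_lit 9) (.e (nat_lit 426125) (nat_lit 2) (.e (nat_lit 196661) (nat_lit 12) (.e (nat_lit 57748) (nat_lit 201) (.e (nat_lit 2936) (nat_lit 184) (.e (nat_lit 425984) (nat_lit 0) (.e (nat_lit 3233) (nat_lit 197) .nil)))))))) (.g (nat_lit 1) (.e (nat_lit 403545) (nat_lit 0) .nil) .nil))) 
(.lf (nat_lit 593567) (.g (nat_lit 552) (.e (nat_lit 540706) (nat_lit 12) (.e (nat_lit 360475) (nat_lit 8) (.e (nat_lit 557091) (nat_lit 12) .nil))) (.g (nat_lit 0) (.e (nat_lit 404896) (nat_lit 0) .nil) .nil)))) (.nd (nat_lit 9) 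
(.lf (nat_lit 593311) (.g (nat_lit 2816) (.e (nat_lit 540703) (nat_lit 11) (.e (nat_lit 352315) (nat_lit 23) (.e (nat_lit 98349) (nat_lit 24) (.e (nat_lit 409644) (nat_lit 18) (.e (nat_lit 303112) (nat_lit 0) (.e (nat_lit 3258) (nat_lit 198) .nil)))))) (.g (nat_lit 1) (.e (nat_lit 404483) (nat_lit 0) .nil) .nil))) 
(.lf (nat_lit 593823) (.g (nat_lit 1159) (.e (nat_lit 516115) (nat_lit 1) (.e (nat_lit 164327) (nat_lit 230) (.e (nat_lit 163903) (nat_lit 12) (.e (nat_lit 426566) (nat_lit 34) .nil)))) (.g (nat_lit 0) (.e (nat_lit 405644) (nat_lit 0) .nil) .nil)))))) (.nd (nat_lit 7) (.nd (nat_lit 8) (.nd (nat_lit 9) 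
(.lf (nat_lit 592991) (.g (nat_lit 4880) (.e (nat_lit 532566) (nat_lit 15) (.e (nat_lit 385094) (nat_lit 49) (.e (nat_lit 778317) (nat_lit 3) (.e (nat_lit 57480) (nat_lit 28) (.e (nat_lit 557067) (nat_lit 9) (.e (nat_lit 3022) (nat_lit 187) (.e (nat_lit 450580) (nat_lit 5) .nil))))))) (.g (nat_lit 1) (.e (nat_lit 403374) (nat_lit 0) .nil) .nil))) 
(.lf (nat_lit 593503) (.g (nat_lit 3177) (.e (nat_lit 540706) (nat_lit 12) (.e (nat_lit 360475) (nat_lit 8) (.e (nat_lit 557090) (nat_lit 12) (.e (nat_lit 163844) (nat_lit 0) (.e (nat_lit 6255) (nat_lit 337) (.e (nat_lit 2643) (nat_lit 165) (.e (nat_lit 180246) (nat_lit 6) .nil))))))) (.g (nat_lit 1) (.e (nat_lit 404824) (nat_lit 0) .nil) .nil)))) (.nd (nat_lit 9) 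
(.lf (nat_lit 593247) (.g (nat_lit 807) (.e (nat_lit 532581) (nat_lit 26) (.e (nat_lit 426110) (nat_lit 1) (.e (nat_lit 164398) (nat_lit 256) .nil))) (.g (nat_lit 0) (.e (nat_lit 404176) (nat_lit 0) .nil) .nil))) 
(.lf (nat_lit 593759) (.g (nat_lit 1302) (.e (nat_lit 516115) (nat_lit 1) (.e (nat_lit 164325) (nat_lit 230) (.e (nat_lit 163903) (nat_lit 12) (.e (nat_lit 426566) (nat_lit 34) .nil)))) (.g (nat_lit 0) (.e (nat_lit 405534) (nat_lit 0) .nil) .nil))))) (.nd (nat_lit 8) (.nd (nat_lit 9) 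
(.lf (nat_lit 593119) (.g (nat_lit 388) (.e (nat_lit 532569) (nat_lit 16) (.e (nat_lit 401448) (nat_lit 10) (.e (nat_lit 434245) (nat_lit 28) .nil))) (.g (nat_lit 0) (.e (nat_lit 403672) (nat_lit 0) .nil) .nil))) 
(.lf (nat_lit 593631) (.g (nat_lit 1845) (.e (nat_lit 540724) (nat_lit 28) (.e (nat_lit 442436) (nat_lit 26) (.e (nat_lit 254007) (nat_lit 14) (.e (nat_lit 1359) (nat_lit 102) (.e (nat_lit 286756) (nat_lit 10) .nil))))) (.g (nat_lit 0) (.e (nat_lit 405174) (nat_lit 0) .nil) .nil)))) (.nd (nat_lit 9) 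
(.lf (nat_lit 593375) (.g (nat_lit 2534) (.e (nat_lit 540706) (nat_lit 12) (.e (nat_lit 360474) (nat_lit 8) (.e (nat_lit 557085) (nat_lit 11) (.e (nat_lit 24665) (nat_lit 14) (.e (nat_lit 401408) (nat_lit 0) .nil))))) (.g (nat_lit 0) (.e (nat_lit 404647) (nat_lit 0) .nil) .nil))) 
(.lf (nat_lit 593887) (.g (nat_lit 1416) (.e (nat_lit 516117) (nat_lit 1) (.e (nat_lit 164322) (nat_lit 230) (.e (nat_lit 163902) (nat_lit 12) (.e (nat_lit 426479) (nat_lit 27) .nil)))) (.g (nat_lit 0) (.e (nat_lit 405811) (nat_lit 0) .nil) .nil))))))) (.nd (nat_lit 6) (.nd (nat_lit 7) (.nd (nat_lit 8) (.nd (nat_lit 9) 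
(.lf (nat_lit 592959) (.g (nat_lit 2670) (.e (nat_lit 532566) (nat_lit 15) (.e (nat_lit 385066) (nat_lit 26) (.e (nat_lit 532532) (nat_lit 9) (.e (nat_lit 336324) (nat_lit 18) (.e (nat_lit 204882) (nat_lit 32) (.e (nat_lit 385068) (nat_lit 26) .nil)))))) (.g (nat_lit 1) (.e (nat_lit 403322) (nat_lit 0) .nil) .nil))) 
(.lf (nat_lit 593471) (.g (nat_lit 3752) (.e (nat_lit 540706) (nat_lit 12) (.e (nat_lit 360475) (nat_lit 8) (.e (nat_lit 557087) (nat_lit 11) (.e (nat_lit 24617) (nat_lit 7) (.e (nat_lit 319503) (nat_lit 10) .nil))))) (.g (nat_lit 0) (.e (nat_lit 404783) (nat_lit 0) .nil) .nil)))) (.nd (nat_lit 9) 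
(.lf (nat_lit 593215) (.g (nat_lit 2511) (.e (nat_lit 532579) (nat_lit 26) (.e (nat_lit 426100) (nat_lit 1) (.e (nat_lit 164403) (nat_lit 256) (.e (nat_lit 57406) (nat_lit 12) (.e (nat_lit 336432) (nat_lit 30) .nil))))) (.g (nat_lit 0) (.e (nat_lit 403863) (nat_lit 0) .nil) .nil))) 
(.lf (nat_lit 593727) (.g (nat_lit 3625) (.e (nat_lit 516115) (nat_lit 1) (.e (nat_lit 164325) (nat_lit 230) (.e (nat_lit 163864) (nat_lit 1) (.e (nat_lit 164329) (nat_lit 230) (.e (nat_lit 163843) (nat_lit 0) (.e (nat_lit 3223) (nat_lit 196) (.e (nat_lit 524320) (nat_lit 12) (.e (nat_lit 458496) (nat_lit 3) .nil)))))))) (.g (nat_lit 1) (.e (nat_lit 405482) (nat_lit 0) .nil) .nil))))) 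
(.nd (nat_lit 8) (.nd (nat_lit 9) 
(.lf (nat_lit 593087) (.g (nat_lit 4262) (.e (nat_lit 532569) (nat_lit 16) (.e (nat_lit 401448) (nat_lit 10) (.e (nat_lit 434231) (nat_lit 23) (.e (nat_lit 532523) (nat_lit 7) (.e (nat_lit 319505) (nat_lit 10) (.e (nat_lit 5712) (nat_lit 312) (.e (nat_lit 2505) (nat_lit 157) (.e (nat_lit 3249) (nat_lit 197) .nil)))))))) (.g (nat_lit 1) (.e (nat_lit 403632) (nat_lit 0) .nil) .nil))) 
(.lf (nat_lit 593599) (.g (nat_lit 3721) (.e (nat_lit 540706) (nat_lit 12) (.e (nat_lit 360475) (nat_lit 8) (.e (nat_lit 557091) (nat_lit 12) (.e (nat_lit 164022) (nat_lit 46) (.e (nat_lit 704737) (nat_lit 11) (.e (nat_lit 16384) (nat_lit 0) (.e (nat_lit 3259) (nat_lit 198) .nil))))))) (.g (nat_lit 1) (.e (nat_lit 404944) (nat_lit 0) .nil) .nil)))) (.nd (nat_lit 9) 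
(.lf (nat_lit 593343) (.g (nat_lit 1624) (.e (nat_lit 540704) (nat_lit 12) (.e (nat_lit 360471) (nat_lit 7) (.e (nat_lit 548889) (nat_lit 9) (.e (nat_lit 65630) (nat_lit 14) .nil)))) (.g (nat_lit 0) (.e (nat_lit 404539) (nat_lit 0) .nil) .nil))) 
(.lf (nat_lit 593855) (.g (nat_lit 3539) (.e (nat_lit 516116) (nat_lit 1) (.e (nat_lit 164182) (nat_lit 154) (.e (nat_lit 57379) (nat_lit 3) (.e (nat_lit 98341) (nat_lit 20) (.e (nat_lit 221210) (nat_lit 22) (.e (nat_lit 196668) (nat_lit 14) (.e (nat_lit 73747) (nat_lit 3) .nil))))))) (.g (nat_lit 1) (.e (nat_lit 405699) (nat_lit 0) .nil) .nil)))))) 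
(.nd (nat_lit 7) (.nd (nat_lit 8) (.nd (nat_lit 9) 
(.lf (nat_lit 593023) (.g (nat_lit 1259) (.e (nat_lit 532567) (nat_lit 16) (.e (nat_lit 401459) (nat_lit 13) (.e (nat_lit 483370) (nat_lit 20) .nil))) (.g (nat_lit 0) (.e (nat_lit 403467) (nat_lit 0) .nil) .nil))) 
(.lf (nat_lit 593535) (.g (nat_lit 2413) (.e (nat_lit 540706) (nat_lit 12) (.e (nat_lit 360475) (nat_lit 8) (.e (nat_lit 557090) (nat_lit 12) (.e (nat_lit 164020) (nat_lit 45) (.e (nat_lit 696330) (nat_lit 5) (.e (nat_lit 2879) (nat_lit 184) (.e (nat_lit 426032) (nat_lit 0) (.e (nat_lit 3262) (nat_lit 198) .nil)))))))) (.g (nat_lit 1) (.e (nat_lit 404863) (nat_lit 0) .nil) .nil)))) 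
(.nd (nat_lit 9) 
(.lf (nat_lit 593279) (.g (nat_lit 2325) (.e (nat_lit 532583) (nat_lit 26) (.e (nat_lit 426200) (nat_lit 9) (.e (nat_lit 426562) (nat_lit 33) (.e (nat_lit 385041) (nat_lit 19) (.e (nat_lit 164286) (nat_lit 224) (.e (nat_lit 164096) (nat_lit 86) .nil)))))) (.g (nat_lit 1) (.e (nat_lit 404252) (nat_lit 0) .nil) .nil))) 
(.lf (nat_lit 593791) (.g (nat_lit 3687) (.e (nat_lit 516115) (nat_lit 1) (.e (nat_lit 164325) (nat_lit 230) (.e (nat_lit 163907) (nat_lit 12) (.e (nat_lit 426566) (nat_lit 34) (.e (nat_lit 393293) (nat_lit 26) (.e (nat_lit 475179) (nat_lit 24) .nil)))))) (.g (nat_lit 1) (.e (nat_lit 405571) (nat_lit 0) .nil) .nil))))) (.nd (nat_lit 8) (.nd (nat_lit 9) 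
(.lf (nat_lit 593151) (.g (nat_lit 3648) (.e (nat_lit 532569) (nat_lit 16) (.e (nat_lit 401451) (nat_lit 12) (.e (nat_lit 475185) (nat_lit 29) (.e (nat_lit 557103) (nat_lit 14) (.e (nat_lit 180281) (nat_lit 40) .nil))))) (.g (nat_lit 0) (.e (nat_lit 403724) (nat_lit 0) .nil) .nil))) 
(.lf (nat_lit 593663) (.g (nat_lit 2287) (.e (nat_lit 516102) (nat_lit 0) (.e (nat_lit 6989) (nat_lit 377) (.e (nat_lit 2777) (nat_lit 178) (.e (nat_lit 286734) (nat_lit 3) .nil)))) (.g (nat_lit 0) (.e (nat_lit 405297) (nat_lit 0) .nil) .nil)))) (.nd (nat_lit 9) 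
(.lf (nat_lit 593407) (.g (nat_lit 3007) (.e (nat_lit 540706) (nat_lit 12) (.e (nat_lit 360474) (nat_lit 8) (.e (nat_lit 557093) (nat_lit 12) (.e (nat_lit 164022) (nat_lit 46) (.e (nat_lit 704738) (nat_lit 11) (.e (nat_lit 16384) (nat_lit 0) (.e (nat_lit 3259) (nat_lit 198) .nil))))))) (.g (nat_lit 1) (.e (nat_lit 404684) (nat_lit 0) .nil) .nil))) 
(.lf (nat_lit 593919) (.g (nat_lit 4181) (.e (nat_lit 516117) (nat_lit 1) (.e (nat_lit 164330) (nat_lit 230) (.e (nat_lit 163902) (nat_lit 12) (.e (nat_lit 426566) (nat_lit 34) (.e (nat_lit 393294) (nat_lit 26) (.e (nat_lit 475177) (nat_lit 24) .nil)))))) (.g (nat_lit 1) (.e (nat_lit 405866) (nat_lit 0) .nil) .nil)))))))))))))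


end

end Pool.Agent.Lib.MP_5854e1_co.Cz
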